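import Mathlib

/-!
FRONT SET LEMMA (Erdos - Gallai, proof of Hajnal / Lovasz type), for the cover number system of
note 15163 (MP_f04ccf_co).

Graphs are finite sets `E` of pairs without loops; `CovE E X`: `X` is a vertex cover of `E`.

`front_set`: if every vertex cover of `E` has at least `b` points, then there is a set `P` of at
most `2 b` points such that every vertex cover of `E` has at least `b` points in `P`.
-/

set_option autoImplicit false

namespace Pool.Agent.Lib.MP_f04ccf_co.Tau

open Finset

variable {V : Type*} [DecidableEq V]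

/-- `X` is a vertex cover of the edge set `E` -/
def CovE (E : Finset (V × V)) (X : Finset V) : Prop := ∀ e ∈ E, e.1 ∈ X ∨ e.2 ∈ X

omit [DecidableEq V] in
theorem CovE.mono {E E' : Finset (V × V)} (h : E' ⊆ E) {X : Finset V} (hX : CovE E X) :
    CovE E' X := fun e he => hX e (h he)

/-- end points of the edges -/
def ends (E : Finset (V × V)) : Finset V := E.image Prod.fst ∪ E.image Prod.snd

theorem mem_ends {E : Finset (V × V)} {v : V} : v ∈ ends E ↔ ∃ e ∈ E, e.1 = v ∨ e.2 = v := by
  unfold ends
  rw [mem_union, mem_image, mem_image]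
  constructor
  · rintro (⟨e, he, rfl⟩ | ⟨e, he, rfl⟩)
    · exact ⟨e, he, Or.inl rfl⟩
    · exact ⟨e, he, Or.inr rfl⟩
  · rintro ⟨e, he, h | h⟩
    · exact Or.inl ⟨e, he, h⟩
    · exact Or.inr ⟨e, he, h⟩

/-- neighbours of `v` -/
def nb (E : Finset (V × V)) (v : V) : Finset V :=
  (ends E).filter fun u => (v, u) ∈ E ∨ (u, v) ∈ E

theorem mem_nb {E : Finset (V × V)} {u v : V} : u ∈ nb E v ↔ (v, u) ∈ E ∨ (u, v) ∈ E := by
  unfold nb
  rw [mem_filter]
  constructor
  · exact fun h => h.2
  · intro h
    refine ⟨mem_ends.mpr ?_, h⟩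
    rcases h with h | h
    · exact ⟨_, h, Or.inr rfl⟩
    · exact ⟨_, h, Or.inl rfl⟩

/-- a set with covers `≥ b` contains one which is minimal with that property -/
theorem exists_min (b : ℕ) : ∀ (n : ℕ) (E : Finset (V × V)), E.card = n →
    (∀ X : Finset V, CovE E X → b ≤ X.card) →
    ∃ E' ⊆ E, (∀ X : Finset V, CovE E' X → b ≤ X.card) ∧
      ∀ e ∈ E', ∃ X : Finset V, CovE (E'.erase e) X ∧ X.card < b := by
  intro n
  induction n using Nat.strong_induction_on with
  | _ n ih =>
    intro E hn hE
    by_cases h : ∀ e ∈ E, ∃ X : Finset V, CovE (E.erase e) X ∧ X.card < b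
    · exact ⟨E, Subset.refl E, hE, h⟩
    · push Not at h
      obtain ⟨e, he, h⟩ := h
      have hc : (E.erase e).card < n := by
        rw [← hn]
        exact card_erase_lt_of_mem he
      obtain ⟨E', hE', h1, h2⟩ := ih _ hc (E.erase e) rfl h
      exact ⟨E', hE'.trans (erase_subset e E), h1, h2⟩

/-- Hall condition for the independent sets of a critical edge set -/
theorem indep_card_le {b : ℕ} {E : Finset (V × V)}
    (h1 : ∀ X : Finset V, CovE E X → b ≤ X.card)
    (h2 : ∀ e ∈ E, ∃ X : Finset V, CovE (E.erase e) X ∧ X.card < b) :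
    ∀ (n : ℕ) (S : Finset V), S.card = n → S ⊆ ends E → (∀ e ∈ E, ¬ (e.1 ∈ S ∧ e.2 ∈ S)) →
      S.card ≤ (S.biUnion (nb E)).card := by
  intro n
  induction n using Nat.strong_induction_on with
  | _ n ih =>
    intro S hn hSP hS
    by_contra hlt
    rw [not_le] at hlt
    have hne : S.Nonempty := by
      rcases S.eq_empty_or_nonempty with h | h
      · rw [h] at hlt
        simp at hlt
      · exact h
    obtain ⟨s, hs⟩ := hne
    -- Hall condition on `S - s`
    have hall : ∀ A : Finset {x // x ∈ S.erase s},
        A.card ≤ (A.biUnion fun x => nb E x.1).card := by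
      intro A
      have hA : (A.map (Function.Embedding.subtype _)) ⊆ S.erase s := by
        intro x hx
        rw [mem_map] at hx
        obtain ⟨y, -, rfl⟩ := hx
        exact y.2
      have hAc : (A.map (Function.Embedding.subtype _)).card < n := by
        rw [← hn]
        exact lt_of_le_of_lt (card_le_card hA) (card_erase_lt_of_mem hs)
      have hAS : A.map (Function.Embedding.subtype _) ⊆ S := hA.trans (erase_subset s S)
      have := ih _ hAc (A.map (Function.Embedding.subtype _)) rfl (hAS.trans hSP)
        (fun e he h => hS e he ⟨hAS h.1, hAS h.2⟩)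
      rw [card_map] at this
      refine this.trans (card_le_card ?_)
      intro u hu
      rw [mem_biUnion] at hu ⊢
      obtain ⟨x, hx, hu⟩ := hu
      rw [mem_map] at hx
      obtain ⟨y, hy, rfl⟩ := hx
      exact ⟨y, hy, hu⟩
    obtain ⟨f, hf, hfm⟩ := (Finset.all_card_le_biUnion_card_iff_exists_injective
      (fun x : {x // x ∈ S.erase s} => nb E x.1)).mp hall
    -- the image of the matching is all of `Γ S`
    set G : Finset V := S.biUnion (nb E) with hG
    have himg : (univ : Finset {x // x ∈ S.erase s}).image f ⊆ G := by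
      intro u hu
      rw [mem_image] at hu
      obtain ⟨x, -, rfl⟩ := hu
      rw [hG, mem_biUnion]
      exact ⟨x.1, (mem_erase.mp x.2).2, hfm x⟩
    have hcimg : ((univ : Finset {x // x ∈ S.erase s}).image f).card = S.card - 1 := by
      rw [card_image_of_injective _ hf, card_univ, Fintype.card_coe, card_erase_of_mem hs]
    have hpos : 0 < S.card := card_pos.mpr ⟨s, hs⟩
    have heq : (univ : Finset {x // x ∈ S.erase s}).image f = G := by
      apply eq_of_subset_of_card_le himg
      rw [hcimg]
      omega
    -- the edge at `s`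
    obtain ⟨e, he, hse⟩ := mem_ends.mp (hSP hs)
    obtain ⟨X, hX, hXb⟩ := h2 e he
    have hGS : Disjoint G S := by
      rw [disjoint_left]
      intro u hu huS
      rw [hG, mem_biUnion] at hu
      obtain ⟨t, ht, hu⟩ := hu
      rcases mem_nb.mp hu with h | h
      · exact hS _ h ⟨ht, huS⟩
      · exact hS _ h ⟨huS, ht⟩
    -- new cover
    have hcov : CovE E ((X \ S) ∪ G) := by
      intro a ha
      by_cases h3 : a.1 ∈ S
      · right
        rw [mem_union]
        right
        rw [hG, mem_biUnion]
        exact ⟨a.1, h3, mem_nb.mpr (Or.inl ha)⟩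
      · by_cases h4 : a.2 ∈ S
        · left
          rw [mem_union]
          right
          rw [hG, mem_biUnion]
          exact ⟨a.2, h4, mem_nb.mpr (Or.inr ha)⟩
        · have hae : a ≠ e := by
            rintro rfl
            rcases hse with h | h
            · exact h3 (h ▸ hs)
            · exact h4 (h ▸ hs)
          rcases hX a (mem_erase.mpr ⟨hae, ha⟩) with h | h
          · left
            exact mem_union_left _ (mem_sdiff.mpr ⟨h, h3⟩)
          · right
            exact mem_union_left _ (mem_sdiff.mpr ⟨h, h4⟩)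
    -- its size
    have hinj : (G \ X).card ≤ (X ∩ S).card := by
      have hsub : G \ X ⊆ ((univ : Finset {x // x ∈ S.erase s}).filter
          fun x => x.1 ∈ X).image f := by
        intro u hu
        rw [mem_sdiff, ← heq, mem_image] at hu
        obtain ⟨⟨x, -, hx⟩, huX⟩ := hu
        rw [mem_image]
        refine ⟨x, ?_, hx⟩
        rw [mem_filter]
        refine ⟨mem_univ x, ?_⟩
        have hxs : x.1 ≠ s := (mem_erase.mp x.2).1
        have hxS : x.1 ∈ S := (mem_erase.mp x.2).2
        have hnb := hfm x
        rw [hx] at hnb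
        have huG : u ∈ G := by
          rw [hG, mem_biUnion]
          exact ⟨x.1, hxS, hnb⟩
        have huS : u ∉ S := fun h => (disjoint_left.mp hGS) huG h
        rcases mem_nb.mp hnb with h | h
        · have hne : ((x.1, u) : V × V) ≠ e := by
            rintro rfl
            rcases hse with h' | h'
            · exact hxs h'
            · have h8 : u = s := h'
              exact huS (h8 ▸ hs)
          rcases hX _ (mem_erase.mpr ⟨hne, h⟩) with h' | h'
          · exact h'
          · exact absurd h' huX
        · have hne : ((u, x.1) : V × V) ≠ e := by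
            rintro rfl
            rcases hse with h' | h'
            · have h8 : u = s := h'
              exact huS (h8 ▸ hs)
            · exact hxs h'
          rcases hX _ (mem_erase.mpr ⟨hne, h⟩) with h' | h'
          · exact absurd h' huX
          · exact h'
      refine (card_le_card hsub).trans ?_
      rw [card_image_of_injective _ hf]
      have : ((univ : Finset {x // x ∈ S.erase s}).filter fun x => x.1 ∈ X).card =
          (((univ : Finset {x // x ∈ S.erase s}).filter fun x => x.1 ∈ X).map
            (Function.Embedding.subtype _)).card := by rw [card_map]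
      rw [this]
      apply card_le_card
      intro u hu
      rw [mem_map] at hu
      obtain ⟨y, hy, rfl⟩ := hu
      rw [mem_filter] at hy
      exact mem_inter.mpr ⟨hy.2, (mem_erase.mp y.2).2⟩
    have hcard : ((X \ S) ∪ G).card ≤ X.card := by
      have h5 : (X \ S) ∪ G ⊆ (X \ S) ∪ (G \ X) := by
        intro u hu
        rw [mem_union] at hu ⊢
        rcases hu with h | h
        · exact Or.inl h
        · by_cases hx : u ∈ X
          · left
            exact mem_sdiff.mpr ⟨hx, fun h' => (disjoint_left.mp hGS) h h'⟩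
          · right
            exact mem_sdiff.mpr ⟨h, hx⟩
      have h6 : (X \ S).card + (X ∩ S).card = X.card := card_sdiff_add_card_inter X S
      calc ((X \ S) ∪ G).card ≤ ((X \ S) ∪ (G \ X)).card := card_le_card h5
        _ ≤ (X \ S).card + (G \ X).card := card_union_le _ _
        _ ≤ (X \ S).card + (X ∩ S).card := by omega
        _ = X.card := h6
    have := h1 _ hcov
    omega

/-- FRONT SET LEMMA -/
theorem front_set (E : Finset (V × V)) (b : ℕ)
    (hb : ∀ X : Finset V, CovE E X → b ≤ X.card) :
    ∃ P : Finset V, (∀ v ∈ P, ∃ e ∈ E, e.1 = v ∨ e.2 = v) ∧ P.card ≤ 2 * b ∧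
      ∀ X : Finset V, CovE E X → b ≤ (X ∩ P).card := by
  obtain ⟨E', hE', h1, h2⟩ := exists_min b _ E rfl hb
  refine ⟨ends E', ?_, ?_, ?_⟩
  · intro v hv
    obtain ⟨e, he, h⟩ := mem_ends.mp hv
    exact ⟨e, hE' he, h⟩
  · rcases E'.eq_empty_or_nonempty with h0 | ⟨e, he⟩
    · rw [h0]
      simp [ends]
    · obtain ⟨X, hX, hXb⟩ := h2 e he
      set X0 : Finset V := insert e.1 X with hX0
      have hcov : CovE E' X0 := by
        intro a ha
        by_cases hae : a = e
        · left
          rw [hae]
          exact mem_insert_self _ _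
        · rcases hX a (mem_erase.mpr ⟨hae, ha⟩) with h | h
          · exact Or.inl (mem_insert_of_mem h)
          · exact Or.inr (mem_insert_of_mem h)
      have hX0c : X0.card ≤ b := (card_insert_le _ _).trans (by omega)
      have hind : ∀ a ∈ E', ¬ (a.1 ∈ ends E' \ X0 ∧ a.2 ∈ ends E' \ X0) := by
        rintro a ha ⟨h3, h4⟩
        rcases hcov a ha with h | h
        · exact (mem_sdiff.mp h3).2 h
        · exact (mem_sdiff.mp h4).2 h
      have h3 := indep_card_le h1 h2 _ (ends E' \ X0) rfl sdiff_subset hind
      have h4 : (ends E' \ X0).biUnion (nb E') ⊆ X0 := by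
        intro u hu
        rw [mem_biUnion] at hu
        obtain ⟨t, ht, hu⟩ := hu
        have ht' := (mem_sdiff.mp ht).2
        rcases mem_nb.mp hu with h | h
        · rcases hcov _ h with h' | h'
          · exact absurd h' ht'
          · exact h'
        · rcases hcov _ h with h' | h'
          · exact h'
          · exact absurd h' ht'
      have h5 := card_le_card h4
      have h6 : (ends E').card ≤ (ends E' \ X0).card + X0.card := by
        have := card_sdiff_add_card_inter (ends E') X0
        have h7 : (ends E' ∩ X0).card ≤ X0.card := card_le_card inter_subset_right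
        omega
      omega
  · intro X hX
    apply h1
    intro a ha
    have ha1 : a.1 ∈ ends E' := mem_ends.mpr ⟨a, ha, Or.inl rfl⟩
    have ha2 : a.2 ∈ ends E' := mem_ends.mpr ⟨a, ha, Or.inr rfl⟩
    rcases hX a (hE' ha) with h | h
    · exact Or.inl (mem_inter.mpr ⟨h, ha1⟩)
    · exact Or.inr (mem_inter.mpr ⟨h, ha2⟩)

/-- the same for a relation `r` on a finite set `W` (use it with `r` = missing pair served at `y`);
every point of the front set has an `r`-partner in `W` -/
theorem front_set_rel (W : Finset V) (r : V → V → Prop) (b : ℕ)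
    (hb : ∀ X ⊆ W, (∀ u ∈ W, ∀ v ∈ W, r u v → u ∈ X ∨ v ∈ X) → b ≤ X.card) :
    ∃ P ⊆ W, (∀ v ∈ P, ∃ u ∈ W, r v u ∨ r u v) ∧ P.card ≤ 2 * b ∧
      ∀ X : Finset V, (∀ u ∈ W, ∀ v ∈ W, r u v → u ∈ X ∨ v ∈ X) → b ≤ (X ∩ P).card := by
  classical
  set E : Finset (V × V) := (W ×ˢ W).filter fun e => r e.1 e.2 with hE
  have hm : ∀ u v, (u, v) ∈ E ↔ u ∈ W ∧ v ∈ W ∧ r u v := by
    intro u v
    rw [hE, mem_filter, mem_product]
    simp only [and_assoc]
  have hb' : ∀ X : Finset V, CovE E X → b ≤ X.card := by
    intro X hX
    have := hb (X ∩ W) inter_subset_right (fun u hu v hv h => by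
      rcases hX _ ((hm u v).mpr ⟨hu, hv, h⟩) with h' | h'
      · exact Or.inl (mem_inter.mpr ⟨h', hu⟩)
      · exact Or.inr (mem_inter.mpr ⟨h', hv⟩))
    exact this.trans (card_le_card inter_subset_left)
  obtain ⟨P, h1, h2, h3⟩ := front_set E b hb'
  refine ⟨P, ?_, ?_, h2, ?_⟩
  · intro v hv
    obtain ⟨⟨a, c⟩, he, h⟩ := h1 v hv
    have := (hm a c).mp he
    rcases h with h | h
    · exact h ▸ this.1
    · exact h ▸ this.2.1
  · intro v hv
    obtain ⟨⟨a, c⟩, he, h⟩ := h1 v hv
    have := (hm a c).mp he
    rcases h with h | h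
    · exact ⟨c, this.2.1, Or.inl (h ▸ this.2.2)⟩
    · exact ⟨a, this.1, Or.inr (h ▸ this.2.2)⟩
  · intro X hX
    apply h3
    rintro ⟨a, c⟩ he
    have := (hm a c).mp he
    exact hX a this.1 c this.2.1 this.2.2

end Pool.Agent.Lib.MP_f04ccf_co.Tau
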