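import Pool.Agent.Lib.MP_f04ccf_co.M.PA
import Pool.Agent.Lib.MP_f04ccf_co.M.Tau

/-!
MP_f04ccf_co, (D3) of STATE 4 (note 15348), note 15462: the single row test with a FRONT of kills.

* `PG.row_front`: row `C` with guests `H`, outside set `W`, every `c ∈ C` sees at least `b` points
  of `W` (form with a loss: `PG.row_front_loss`).
* `Tau.front_hyp_one`, `Tau.front_hyp_two`: families of sets of size at most `3` (pairs `{v, v'}` and
  triples `{v, v', p}` of the half-served kills): transversal number at least `1` resp. `2` gives a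
  front of at most `3` resp. `6` points.
* `Tau.ends_card_le`, `Tau.front_crit`: the critical edge set itself, with the edges missed by a set
  `X` covered by a further set `K` (half-served edges, loss `|K|`).
-/

set_option autoImplicit false

namespace Pool.Agent.Lib.MP_f04ccf_co

open Finset

attribute [local instance] Classical.propDecidable

section Row

variable {V : Type*} {G : SimpleGraph V} {r : ℕ}

/-- row test, the load of `W` on `C` given as a lower bound `L` -/
theorem PG.row_wload (hP : PG G r) {C H W : Finset V} (hC : Clq G C) (hCH : Disjoint C H)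
    (hCW : Disjoint C W) (hHW : Disjoint H W) {g L : ℤ}
    (hg : g = H.card - ((r : ℤ) - 1 - C.card)) (hL : L ≤ ∑ c ∈ C, (dg G W c : ℤ)) :
    2 * ((r : ℤ) - 1) * (g - 1) + 2 * L + 2 * ∑ v ∈ W, (dg G H v : ℤ)
      ≤ NE G H + 2 * ∑ v ∈ H, (nd G C v : ℤ) + 2 * W.card * g + NE G W := by
  have h1 := hP.row_homes hC hCH hCW hHW hg
  have h2 : ∑ v ∈ W, ((dg G C v : ℤ) + dg G H v - g)
      = ∑ v ∈ W, (dg G C v : ℤ) + ∑ v ∈ W, (dg G H v : ℤ) - W.card * g := by
    rw [sum_sub_distrib, sum_add_distrib, sum_const, nsmul_eq_mul]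
  have h3 : ∑ v ∈ W, (dg G C v : ℤ) = ∑ c ∈ C, (dg G W c : ℤ) := by
    have := dg_comm G C W
    exact_mod_cast this.symm
  rw [h2, h3] at h1
  linarith

/-- **(D3)**, every `c ∈ C` has at least `b` neighbours in the front `W`, `p = |W|` -/
theorem PG.row_front (hP : PG G r) {C H W : Finset V} (hC : Clq G C) (hCH : Disjoint C H)
    (hCW : Disjoint C W) (hHW : Disjoint H W) {g : ℤ} {b : ℕ}
    (hg : g = H.card - ((r : ℤ) - 1 - C.card)) (hb : ∀ c ∈ C, b ≤ dg G W c) :
    2 * ((r : ℤ) - 1) * (g - 1) + 2 * b * C.card + 2 * ∑ v ∈ W, (dg G H v : ℤ)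
      ≤ NE G H + 2 * ∑ v ∈ H, (nd G C v : ℤ) + 2 * W.card * g + NE G W := by
  have hL : (b : ℤ) * C.card ≤ ∑ c ∈ C, (dg G W c : ℤ) := by
    have h1 : ∑ _c ∈ C, (b : ℤ) ≤ ∑ c ∈ C, (dg G W c : ℤ) :=
      sum_le_sum fun c hc => by exact_mod_cast hb c hc
    rw [sum_const, nsmul_eq_mul] at h1
    linarith
  have h1 := hP.row_wload hC hCH hCW hHW hg hL
  linarith

/-- **(D3)** with a loss `l c` at every point of `C` -/
theorem PG.row_front_loss (hP : PG G r) {C H W : Finset V} (hC : Clq G C) (hCH : Disjoint C H)
    (hCW : Disjoint C W) (hHW : Disjoint H W) {g : ℤ} {b : ℕ} {l : V → ℕ}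
    (hg : g = H.card - ((r : ℤ) - 1 - C.card)) (hb : ∀ c ∈ C, b ≤ dg G W c + l c) :
    2 * ((r : ℤ) - 1) * (g - 1) + 2 * b * C.card + 2 * ∑ v ∈ W, (dg G H v : ℤ)
      ≤ NE G H + 2 * ∑ v ∈ H, (nd G C v : ℤ) + 2 * W.card * g + NE G W
        + 2 * ∑ c ∈ C, (l c : ℤ) := by
  have hL : (b : ℤ) * C.card - ∑ c ∈ C, (l c : ℤ) ≤ ∑ c ∈ C, (dg G W c : ℤ) := by
    have h1 : ∑ c ∈ C, ((b : ℤ) - l c) ≤ ∑ c ∈ C, (dg G W c : ℤ) :=
      sum_le_sum fun c hc => by
        have := hb c hc
        have h2 : (b : ℤ) ≤ dg G W c + l c := by exact_mod_cast this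
        linarith
    rw [sum_sub_distrib, sum_const, nsmul_eq_mul] at h1
    linarith
  have h1 := hP.row_wload hC hCH hCW hHW hg hL
  linarith

end Row

namespace Tau

variable {V : Type*}

/-- `X` meets every member of `F` -/
def Trv (F : Finset (Finset V)) (X : Finset V) : Prop := ∀ e ∈ F, (e ∩ X).Nonempty

/-- transversal number at least `1`: one member is a front -/
theorem front_hyp_one (F : Finset (Finset V)) (h1 : ∀ X : Finset V, Trv F X → 1 ≤ X.card) :
    ∃ e ∈ F, ∀ X : Finset V, Trv F X → 1 ≤ (X ∩ e).card := by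
  have hne : F.Nonempty := by
    by_contra h
    rw [not_nonempty_iff_eq_empty] at h
    have := h1 ∅ (by intro e he; rw [h] at he; exact absurd he (notMem_empty e))
    rw [card_empty] at this
    omega
  obtain ⟨e, he⟩ := hne
  refine ⟨e, he, fun X hX => ?_⟩
  rw [inter_comm]
  exact card_pos.mpr (hX e he)

/-- transversal number at least `2`, members of size at most `3`: a front of at most `6` points -/
theorem front_hyp_two (F : Finset (Finset V)) (h3 : ∀ e ∈ F, e.card ≤ 3)
    (h2 : ∀ X : Finset V, Trv F X → 2 ≤ X.card) :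
    ∃ P : Finset V, (∀ v ∈ P, ∃ e ∈ F, v ∈ e) ∧ P.card ≤ 6 ∧
      ∀ X : Finset V, Trv F X → 2 ≤ (X ∩ P).card := by
  by_cases h0 : ∃ e ∈ F, e = ∅
  · obtain ⟨e, he, rfl⟩ := h0
    refine ⟨∅, by simp, by simp, fun X hX => ?_⟩
    have := hX ∅ he
    rw [empty_inter] at this
    exact absurd this Finset.not_nonempty_empty
  · push Not at h0
    -- subfamilies without a common point
    set Q : Finset (Finset (Finset V)) :=
      F.powerset.filter (fun F' => ∀ x, ∃ e ∈ F', x ∉ e) with hQ
    have hF : F ∈ Q := by
      rw [hQ, mem_filter]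
      refine ⟨mem_powerset_self F, fun x => ?_⟩
      by_contra hcon
      push Not at hcon
      have := h2 {x} (fun e he => ⟨x, mem_inter.mpr ⟨hcon e he, mem_singleton_self x⟩⟩)
      rw [card_singleton] at this
      omega
    obtain ⟨F', hF', hmin⟩ := exists_min_image Q card ⟨F, hF⟩
    rw [hQ, mem_filter, mem_powerset] at hF'
    obtain ⟨hsub, hno⟩ := hF'
    -- every member is critical
    have hcr : ∀ e ∈ F', ∃ x, x ∉ e ∧ ∀ f ∈ F', f ≠ e → x ∈ f := by
      intro e he
      by_contra hcon
      push Not at hcon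
      have hm : F'.erase e ∈ Q := by
        rw [hQ, mem_filter, mem_powerset]
        refine ⟨(erase_subset e F').trans hsub, fun x => ?_⟩
        by_cases hx : x ∈ e
        · obtain ⟨f, hf, hxf⟩ := hno x
          refine ⟨f, mem_erase.mpr ⟨?_, hf⟩, hxf⟩
          rintro rfl
          exact hxf hx
        · obtain ⟨f, hf, hfe, hxf⟩ := hcon x hx
          exact ⟨f, mem_erase.mpr ⟨hfe, hf⟩, hxf⟩
      have h5 := hmin _ hm
      rw [card_erase_of_mem he] at h5
      have : 0 < F'.card := card_pos.mpr ⟨e, he⟩
      omega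
    have hNV : Nonempty V := by
      by_contra hV
      rw [not_nonempty_iff] at hV
      have h5 := h2 ∅ (fun e he => by
        obtain ⟨y, -⟩ := h0 e he
        exact (hV.false y).elim)
      rw [card_empty] at h5
      omega
    choose! x hx1 hx2 using hcr
    have hinj : Set.InjOn x (F' : Set (Finset V)) := by
      intro e he f hf hef
      by_contra hne
      have h5 := hx2 e he f hf (Ne.symm hne)
      rw [hef] at h5
      exact hx1 f hf h5
    set I : Finset V := F'.image x with hI
    have hIc : I.card = F'.card := card_image_of_injOn hinj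
    -- each member contains the other points
    have hin : ∀ e ∈ F', I.erase (x e) ⊆ e := by
      intro e he y hy
      obtain ⟨h5, h6⟩ := mem_erase.mp hy
      obtain ⟨f, hf, rfl⟩ := mem_image.mp h6
      exact hx2 f hf e he (fun h => h5 (by rw [h]))
    have hIe : ∀ e ∈ F', (I.erase (x e)).card + 1 = F'.card := by
      intro e he
      rw [card_erase_of_mem (mem_image_of_mem x he), hIc]
      have : 0 < F'.card := card_pos.mpr ⟨e, he⟩
      omega
    have hout : ∀ e ∈ F', (e \ I).card + F'.card ≤ 4 := by
      intro e he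
      have h5 := hIe e he
      have h6 : (e \ I) ∪ I.erase (x e) ⊆ e := union_subset sdiff_subset (hin e he)
      have h7 : Disjoint (e \ I) (I.erase (x e)) := by
        rw [disjoint_left]
        intro y hy hy'
        exact (mem_sdiff.mp hy).2 (mem_of_mem_erase hy')
      have h8 := card_le_card h6
      rw [card_union_of_disjoint h7] at h8
      have := h3 e (hsub he)
      omega
    set P : Finset V := F'.biUnion id with hP
    have hPc : P.card ≤ 6 := by
      have h5 : P ⊆ I ∪ F'.biUnion (fun e => e \ I) := by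
        intro y hy
        rw [hP, mem_biUnion] at hy
        obtain ⟨e, he, hye⟩ := hy
        by_cases hyI : y ∈ I
        · exact mem_union_left _ hyI
        · exact mem_union_right _ (mem_biUnion.mpr ⟨e, he, mem_sdiff.mpr ⟨hye, hyI⟩⟩)
      have h6 : (F'.biUnion (fun e => e \ I)).card ≤ F'.card * (4 - F'.card) :=
        card_biUnion_le_card_mul _ _ _ (fun e he => by have := hout e he; omega)
      have h7 := (card_le_card h5).trans (card_union_le _ _)
      have hk : F'.card ≤ 4 := by
        rcases F'.eq_empty_or_nonempty with h | ⟨e, he⟩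
        · rw [h]; simp
        · have := hout e he
          omega
      have hk1 : 2 ≤ F'.card := by
        by_contra hlt
        rw [not_le] at hlt
        rcases F'.eq_empty_or_nonempty with h | ⟨e, he⟩
        · have hF0 := h2 ∅
          by_cases hFe : F = ∅
          · have := hF0 (by intro e he; rw [hFe] at he; exact absurd he (notMem_empty e))
            rw [card_empty] at this
            omega
          · obtain ⟨f, hf⟩ := nonempty_iff_ne_empty.mpr hFe
            obtain ⟨y, hy⟩ := h0 f hf
            obtain ⟨e, he, -⟩ := hno y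
            rw [h] at he
            exact absurd he (notMem_empty e)
        · have h8 : F'.card = 1 := by
            have : 0 < F'.card := card_pos.mpr ⟨e, he⟩
            omega
          obtain ⟨f, hf⟩ := card_eq_one.mp h8
          have hef : e = f := by rw [hf] at he; exact mem_singleton.mp he
          obtain ⟨y, hy⟩ := h0 e (hsub he)
          obtain ⟨e', he', hy'⟩ := hno y
          rw [hf] at he'
          rw [mem_singleton.mp he', ← hef] at hy'
          exact hy' hy
      rw [hIc] at h7
      interval_cases h : F'.card <;> omega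
    refine ⟨P, ?_, hPc, ?_⟩
    · intro v hv
      rw [hP, mem_biUnion] at hv
      obtain ⟨e, he, hve⟩ := hv
      exact ⟨e, hsub he, hve⟩
    · intro X hX
      -- a first point
      obtain ⟨e0, he0⟩ : F'.Nonempty := by
        by_contra h
        rw [not_nonempty_iff_eq_empty] at h
        by_cases hFe : F = ∅
        · have := h2 ∅ (by intro e he; rw [hFe] at he; exact absurd he (notMem_empty e))
          rw [card_empty] at this
          omega
        · obtain ⟨f, hf⟩ := nonempty_iff_ne_empty.mpr hFe
          obtain ⟨y, hy⟩ := h0 f hf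
          obtain ⟨e, he, -⟩ := hno y
          rw [h] at he
          exact absurd he (notMem_empty e)
      obtain ⟨y, hy⟩ := hX e0 (hsub he0)
      obtain ⟨hy1, hy2⟩ := mem_inter.mp hy
      obtain ⟨f, hf, hyf⟩ := hno y
      obtain ⟨z, hz⟩ := hX f (hsub hf)
      obtain ⟨hz1, hz2⟩ := mem_inter.mp hz
      have hyz : y ≠ z := by
        rintro rfl
        exact hyf hz1
      have h5 : ({y, z} : Finset V) ⊆ X ∩ P := by
        intro w hw
        rw [mem_insert, mem_singleton] at hw
        rcases hw with rfl | rfl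
        · exact mem_inter.mpr ⟨hy2, mem_biUnion.mpr ⟨e0, he0, hy1⟩⟩
        · exact mem_inter.mpr ⟨hz2, mem_biUnion.mpr ⟨f, hf, hz1⟩⟩
      have h6 := card_le_card h5
      rw [card_pair hyz] at h6
      exact h6

end Tau

namespace Tau

variable {V : Type*} [DecidableEq V]

/-- a critical edge set with cover number `b` has at most `2 b` end points -/
theorem ends_card_le {b : ℕ} {E' : Finset (V × V)}
    (h1 : ∀ X : Finset V, CovE E' X → b ≤ X.card)
    (h2 : ∀ e ∈ E', ∃ X : Finset V, CovE (E'.erase e) X ∧ X.card < b) :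
    (ends E').card ≤ 2 * b := by
  rcases E'.eq_empty_or_nonempty with h0 | ⟨e, he⟩
  · rw [h0]
    simp [ends]
  · obtain ⟨X, hX, hXb⟩ := h2 e he
    set X0 : Finset V := insert e.1 X with hX0
    have hcov : CovE E' X0 := by
      intro a ha
      by_cases hae : a = e
      · left
        rw [hae]
        exact mem_insert_self _ _
      · rcases hX a (mem_erase.mpr ⟨hae, ha⟩) with h | h
        · exact Or.inl (mem_insert_of_mem h)
        · exact Or.inr (mem_insert_of_mem h)
    have hX0c : X0.card ≤ b := (card_insert_le _ _).trans (by omega)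
    have hind : ∀ a ∈ E', ¬ (a.1 ∈ ends E' \ X0 ∧ a.2 ∈ ends E' \ X0) := by
      rintro a ha ⟨h3, h4⟩
      rcases hcov a ha with h | h
      · exact (mem_sdiff.mp h3).2 h
      · exact (mem_sdiff.mp h4).2 h
    have h3 := indep_card_le h1 h2 _ (ends E' \ X0) rfl sdiff_subset hind
    have h4 : (ends E' \ X0).biUnion (nb E') ⊆ X0 := by
      intro u hu
      rw [mem_biUnion] at hu
      obtain ⟨t, ht, hu⟩ := hu
      have ht' := (mem_sdiff.mp ht).2
      rcases mem_nb.mp hu with h | h
      · rcases hcov _ h with h' | h'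
        · exact absurd h' ht'
        · exact h'
      · rcases hcov _ h with h' | h'
        · exact h'
        · exact absurd h' ht'
    have h5 := card_le_card h4
    have h6 : (ends E').card ≤ (ends E' \ X0).card + X0.card := by
      have := card_sdiff_add_card_inter (ends E') X0
      have h7 : (ends E' ∩ X0).card ≤ X0.card := card_le_card inter_subset_right
      omega
    omega

/-- the critical edge set, with the edges missed by `X` covered by `K` -/
theorem front_crit (E : Finset (V × V)) (b : ℕ)
    (hb : ∀ X : Finset V, CovE E X → b ≤ X.card) :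
    ∃ E' ⊆ E, (ends E').card ≤ 2 * b ∧
      ∀ X K : Finset V, (∀ e ∈ E', e.1 ∉ X → e.2 ∉ X → e.1 ∈ K ∨ e.2 ∈ K) →
        b ≤ (X ∩ ends E').card + K.card := by
  obtain ⟨E', hE', h1, h2⟩ := exists_min b _ E rfl hb
  refine ⟨E', hE', ends_card_le h1 h2, fun X K hXK => ?_⟩
  have h3 : CovE E' ((X ∩ ends E') ∪ K) := by
    intro a ha
    have ha1 : a.1 ∈ ends E' := mem_ends.mpr ⟨a, ha, Or.inl rfl⟩
    have ha2 : a.2 ∈ ends E' := mem_ends.mpr ⟨a, ha, Or.inr rfl⟩
    by_cases c1 : a.1 ∈ X
    · exact Or.inl (mem_union_left _ (mem_inter.mpr ⟨c1, ha1⟩))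
    · by_cases c2 : a.2 ∈ X
      · exact Or.inr (mem_union_left _ (mem_inter.mpr ⟨c2, ha2⟩))
      · rcases hXK a ha c1 c2 with h | h
        · exact Or.inl (mem_union_right _ h)
        · exact Or.inr (mem_union_right _ h)
  exact (h1 _ h3).trans (card_union_le _ _)

end Tau

end Pool.Agent.Lib.MP_f04ccf_co
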