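import Pool.Agent.Lib.MP_f04ccf_co.M.CSys

/-!
MP_f04ccf_co: home-free closed systems (note 15494 of helper55).  A point `v` of `Z` has the rows
`rws G T v` (itself if `v ∈ T`, its ends otherwise).  A home-free closed system is a set `A` of rows
together with one set `S` of points, every one with a row in `A`, such that every missing pair of `S`
with a common row in `A` is served by the class part of another row of `A` or has two different far
rows, both in `A`.  `HSys.del`: deleting the rows of `B` and the neighbourhood of an independent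
transversal of `B` leaves a closed system.  `HSys.within`: the points with all rows in `B` form a
closed system.  `S2.exists_mhsys`: a minimal one.  `MHSys.law_J`, `MHSys.law_slot`, `MHSys.hall`,
`MHSys.exists_homes`: the laws and balanced homes.  `HSys.csys`: the slots of any homes form a
closed system in the sense of `CSys`.
-/

set_option autoImplicit false

namespace Pool.Agent.Lib.MP_f04ccf_co

open Finset

attribute [local instance] Classical.propDecidable

section HSys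

variable {V : Type*} {G : SimpleGraph V} {Z T : Finset V} {hm : V → V} {r m t : ℕ}

variable (G) in
/-- the rows of a point -/
noncomputable def rws (T : Finset V) (v : V) : Finset V := if v ∈ T then {v} else ends G T v

lemma rws_of_mem {v : V} (h : v ∈ T) : rws G T v = {v} := if_pos h

lemma rws_of_notMem {v : V} (h : v ∉ T) : rws G T v = ends G T v := if_neg h

lemma mem_rws {x v : V} : x ∈ rws G T v ↔ x ∈ T ∧ (v = x ∨ (v ∉ T ∧ G.Adj v x)) := by
  by_cases h : v ∈ T
  · rw [rws_of_mem h, mem_singleton]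
    constructor
    · rintro rfl
      exact ⟨h, Or.inl rfl⟩
    · rintro ⟨-, h1 | h1⟩
      · exact h1.symm
      · exact absurd h h1.1
  · rw [rws_of_notMem h, mem_ends]
    constructor
    · rintro ⟨h1, h2⟩
      exact ⟨h1, Or.inr ⟨h, h2⟩⟩
    · rintro ⟨h1, h2 | h2⟩
      · exact absurd (h2 ▸ h1) h
      · exact ⟨h1, h2.2⟩

lemma rws_sub {v : V} : rws G T v ⊆ T := fun _ hx => (mem_rws.1 hx).1

/-- the class of `x` consists of the points with the only row `x` -/
lemma mem_Cl_iff_rws {x v : V} (hx : x ∈ T) : v ∈ Cl G Z T x ↔ v ∈ Z ∧ rws G T v = {x} := by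
  rw [mem_Cl]
  by_cases h : v ∈ T
  · rw [rws_of_mem h]
    constructor
    · rintro ⟨h1, h2 | h2⟩
      · exact ⟨h1, by rw [h2]⟩
      · exact absurd h h2.1
    · rintro ⟨h1, h2⟩
      exact ⟨h1, Or.inl (singleton_injective h2)⟩
  · rw [rws_of_notMem h]
    constructor
    · rintro ⟨h1, h2 | h2⟩
      · exact absurd (h2 ▸ hx) h
      · exact ⟨h1, h2.2⟩
    · rintro ⟨h1, h2⟩
      exact ⟨h1, Or.inr ⟨h, h2⟩⟩

lemma rws_Cl {x v : V} (hx : x ∈ T) (hv : v ∈ Cl G Z T x) : rws G T v = {x} :=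
  ((mem_Cl_iff_rws hx).1 hv).2

lemma rws_BB {v : V} (hv : v ∈ BB G Z T) : rws G T v = ends G T v :=
  rws_of_notMem (mem_BB.1 hv).1.2

/-- a point with the row `x` is in the class of `x` or double -/
lemma PFrame.rws_split (h : PFrame G r m t Z T) {x v : V} (hv : v ∈ Z) (hxv : x ∈ rws G T v) :
    v ∈ Cl G Z T x ∨ (v ∈ BB G Z T ∧ ∃ y ∈ T.erase x, ends G T v = {x, y}) := by
  by_cases hT : v ∈ T
  · rw [rws_of_mem hT, mem_singleton] at hxv
    exact Or.inl (mem_Cl.2 ⟨hv, Or.inl hxv.symm⟩)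
  · rw [rws_of_notMem hT] at hxv
    have h1 := h.k1 hv hT
    have h2 := h.k2 v (mem_sdiff.2 ⟨hv, hT⟩)
    have h3 : dg G T v = 1 ∨ dg G T v = 2 := by omega
    rcases h3 with h3 | h3
    · left
      rw [← card_ends, card_eq_one] at h3
      obtain ⟨w, hw⟩ := h3
      rw [hw, mem_singleton] at hxv
      exact mem_Cl.2 ⟨hv, Or.inr ⟨hT, by rw [hw, hxv]⟩⟩
    · right
      have h4 : v ∈ BB G Z T := mem_BB.2 ⟨⟨hv, hT⟩, h3⟩
      obtain ⟨y, hyx, hy, he⟩ := ends_other h4 hxv
      exact ⟨h4, y, mem_erase.2 ⟨hyx, ends_sub hy⟩, he⟩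

lemma PFrame.rws_nonempty (h : PFrame G r m t Z T) {v : V} (hv : v ∈ Z) :
    (rws G T v).Nonempty := by
  by_cases hT : v ∈ T
  · rw [rws_of_mem hT]
    exact singleton_nonempty v
  · rw [rws_of_notMem hT]
    exact card_pos.1 (h.k1 hv hT)

/-- a point of the class `j` is not adjacent to the other rows -/
lemma PFrame.Cl_not_adj (h : PFrame G r m t Z T) {j z c : V} (hj : j ∈ T) (hz : z ∈ T)
    (hne : z ≠ j) (hc : c ∈ Cl G Z T j) : ¬ G.Adj c z := by
  intro hcz
  rcases (mem_Cl.1 hc).2 with h1 | ⟨-, h1⟩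
  · exact h.ind c (h1 ▸ hj) z hz hcz
  · have h2 : z ∈ ends G T c := mem_ends.2 ⟨hz, hcz⟩
    rw [h1, mem_singleton] at h2
    exact hne h2

/-- a row adjacent to a point of `Z` which has a row is a row of that point -/
lemma PFrame.mem_rws_of_adj (h : PFrame G r m t Z T) {y v : V} (hy : y ∈ T)
    (hvy : G.Adj v y) : y ∈ rws G T v := by
  by_cases hT : v ∈ T
  · exact absurd hvy (h.ind v hT y hy)
  · exact mem_rws.2 ⟨hy, Or.inr ⟨hT, hvy⟩⟩

variable (G Z T) in
/-- home-free closed system on the rows `A` with the points `S` -/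
structure HSys (A S : Finset V) : Prop where
  sub : A ⊆ T
  ctr : A ⊆ S
  subZ : S ⊆ Z
  row : ∀ v ∈ S, ∃ x ∈ A, x ∈ rws G T v
  closed : ∀ x ∈ A, ∀ p ∈ S, ∀ q ∈ S, x ∈ rws G T p → x ∈ rws G T q → (co G).Adj p q →
    (∃ y ∈ A.erase x, ∀ c ∈ S, c ∈ Cl G Z T y → G.Adj p c ∨ G.Adj q c) ∨
      ∃ y ∈ A.erase x, ∃ z ∈ A.erase x, y ≠ z ∧ ends G T p = {x, y} ∧ ends G T q = {x, z}

variable (G Z T r) in
/-- home-free closed system with `|A| r + 1` points and the least number of rows -/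
structure MHSys (A S : Finset V) : Prop extends HSys G Z T A S where
  two : 2 ≤ A.card
  val : S.card = A.card * r + 1
  min : ∀ B S', HSys G Z T B S' → B.card < A.card → S'.card ≤ B.card * r

/-- sub-systems -/
lemma HSys.mono {A S S' : Finset V} (h : HSys G Z T A S) (hS : S' ⊆ S) (hA : A ⊆ S') :
    HSys G Z T A S' := by
  refine ⟨h.sub, hA, hS.trans h.subZ, fun v hv => h.row v (hS hv),
    fun x hx p hp q hq h1 h2 hpq => ?_⟩
  rcases h.closed x hx p (hS hp) q (hS hq) h1 h2 hpq with ⟨y, hy, h3⟩ | h3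
  · exact Or.inl ⟨y, hy, fun c hc => h3 c (hS hc)⟩
  · exact Or.inr h3

/-- every missing pair of `Z` with the common row `x` is served at another row or has two
different far rows -/
lemma PFrame.srv_all (h : PFrame G r m t Z T) {x p q : V} (hx : x ∈ T) (hp : p ∈ Z) (hq : q ∈ Z)
    (hxp : x ∈ rws G T p) (hxq : x ∈ rws G T q) (hpq : (co G).Adj p q) :
    (∃ y ∈ T.erase x, ∀ c ∈ Cl G Z T y, G.Adj p c ∨ G.Adj q c) ∨
      ∃ y ∈ T.erase x, ∃ z ∈ T.erase x, y ≠ z ∧ ends G T p = {x, y} ∧ ends G T q = {x, z} := by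
  rcases h.rws_split hp hxp with h1 | ⟨hpB, y, hy, he⟩
  · rcases h.rws_split hq hxq with h2 | ⟨hqB, z, hz, he'⟩
    · exact absurd (h.Cl_clq hx p h1 q h2 hpq.1) hpq.2
    · refine Or.inl ⟨z, hz, fun c hc => ?_⟩
      exact (h.srv_PC hx (mem_of_mem_erase hz) (ne_of_mem_erase hz).symm hqB he' h1
        (fun h' => hpq.2 h'.symm) hc).symm
  · rcases h.rws_split hq hxq with h2 | ⟨hqB, z, hz, he'⟩
    · exact Or.inl ⟨y, hy, fun c hc => h.srv_PC hx (mem_of_mem_erase hy)
        (ne_of_mem_erase hy).symm hpB he h2 hpq.2 hc⟩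
    · by_cases hyz : y = z
      · subst hyz
        exact Or.inl ⟨y, hy, fun c hc => h.srv_PP (mem_of_mem_erase hy) hpB he hqB he' hpq.1
          hpq.2 hc⟩
      · exact Or.inr ⟨y, hy, z, hz, hyz, he, he'⟩

/-- the whole frame -/
theorem PFrame.hsys (h : PFrame G r m t Z T) : HSys G Z T T Z := by
  refine ⟨Subset.refl _, h.sub, Subset.refl _, fun v hv => ?_,
    fun x hx p hp q hq hxp hxq hpq => ?_⟩
  · obtain ⟨x, hx⟩ := h.rws_nonempty hv
    exact ⟨x, rws_sub hx, hx⟩
  · rcases h.srv_all hx hp hq hxp hxq hpq with ⟨y, hy, h1⟩ | h1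
    · exact Or.inl ⟨y, hy, fun c _ hc => h1 c hc⟩
    · exact Or.inr h1

/-- a serving row is a far row of one of the two points -/
lemma HSys.tail (hF : PFrame G r m t Z T) {A S : Finset V} (h : HSys G Z T A S) {y p q : V}
    (hy : y ∈ A) (hs : ∀ c ∈ S, c ∈ Cl G Z T y → G.Adj p c ∨ G.Adj q c) :
    y ∈ rws G T p ∨ y ∈ rws G T q := by
  rcases hs y (h.ctr hy) (hF.self_mem_Cl (h.sub hy)) with h1 | h1
  · exact Or.inl (hF.mem_rws_of_adj (h.sub hy) h1)
  · exact Or.inr (hF.mem_rws_of_adj (h.sub hy) h1)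

/-- a closed system with one row is a clique -/
lemma HSys.clq {x : V} {S : Finset V} (h : HSys G Z T {x} S) : Clq G S := by
  intro p hp q hq hpq
  by_contra hn
  have hrow : ∀ v ∈ S, x ∈ rws G T v := by
    intro v hv
    obtain ⟨y, hy, h1⟩ := h.row v hv
    rwa [mem_singleton.1 hy] at h1
  rcases h.closed x (mem_singleton_self x) p hp q hq (hrow p hp) (hrow q hq)
    (co_adj.2 ⟨hpq, hn⟩) with ⟨y, hy, -⟩ | ⟨y, hy, -⟩ <;> simp at hy

/-- a point of `S` with the only row `x` in `A` is adjacent to the class part of `x` -/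
lemma HSys.only_adj (hF : PFrame G r m t Z T) {A S : Finset V} (h : HSys G Z T A S) {x v c : V}
    (hx : x ∈ A) (hv : v ∈ S) (hxv : x ∈ rws G T v) (ho : ∀ y ∈ A, y ∈ rws G T v → y = x)
    (hc : c ∈ S) (hcC : c ∈ Cl G Z T x) (hne : v ≠ c) : G.Adj v c := by
  by_contra hn
  have hrc := rws_Cl (h.sub hx) hcC
  have hxc : x ∈ rws G T c := by rw [hrc]; simp
  rcases h.closed x hx v hv c hc hxv hxc (co_adj.2 ⟨hne, hn⟩) with ⟨y, hy, h1⟩ | ⟨y, hy, z, hz, -, -, h1⟩
  · rcases h.tail hF (mem_of_mem_erase hy) h1 with h2 | h2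
    · exact ne_of_mem_erase hy (ho y (mem_of_mem_erase hy) h2)
    · rw [hrc, mem_singleton] at h2
      exact ne_of_mem_erase hy h2
  · rcases (mem_Cl.1 hcC).2 with h2 | ⟨-, h2⟩
    · rw [h2, hF.ends_T (h.sub hx)] at h1
      have h3 : x ∈ (∅ : Finset V) := by rw [h1]; simp
      simp at h3
    · rw [h2] at h1
      have h3 : z ∈ ({x} : Finset V) := by rw [h1]; simp
      exact ne_of_mem_erase hz (mem_singleton.1 h3)

/-- **cross-home service**: `w` has the rows `x`, `y`, the point `w'` has the row `y`, all its rows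
in `A` are among `x`, `y`, and `w` misses `w'`; then every point of the class part of `x` sees `w` or
`w'` -/
lemma HSys.cross (hF : PFrame G r m t Z T) {A S : Finset V} (h : HSys G Z T A S) {x y w w' c : V}
    (hx : x ∈ A) (hy : y ∈ A) (hxy : x ≠ y) (hw : w ∈ S) (hw' : w' ∈ S)
    (he : ends G T w = {x, y}) (hyw : y ∈ rws G T w')
    (ho : ∀ z ∈ A, z ∈ rws G T w' → z = y ∨ z = x) (hne : w ≠ w') (hn : ¬ G.Adj w w')
    (hc : c ∈ S) (hcC : c ∈ Cl G Z T x) : G.Adj w c ∨ G.Adj w' c := by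
  have hwT : w ∉ T := by
    intro hT
    rw [hF.ends_T hT] at he
    have h3 : x ∈ (∅ : Finset V) := by rw [he]; simp
    simp at h3
  have hrw : rws G T w = {x, y} := by rw [rws_of_notMem hwT, he]
  have hyw' : y ∈ rws G T w := by rw [hrw]; simp
  rcases h.closed y hy w hw w' hw' hyw' hyw (co_adj.2 ⟨hne, hn⟩) with
    ⟨z, hz, h1⟩ | ⟨z, hz, z', hz', hzz, h1, h2⟩
  · have hzx : z = x := by
      rcases h.tail hF (mem_of_mem_erase hz) h1 with h2 | h2
      · rw [hrw] at h2
        rcases mem_insert.1 h2 with h3 | h3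
        · exact h3
        · exact absurd (mem_singleton.1 h3) (ne_of_mem_erase hz)
      · rcases ho z (mem_of_mem_erase hz) h2 with h3 | h3
        · exact absurd h3 (ne_of_mem_erase hz)
        · exact h3
    subst hzx
    exact h1 c hc hcC
  · exfalso
    have hzx : z = x := by
      have h3 : z ∈ ends G T w := by rw [h1]; simp
      rw [he] at h3
      rcases mem_insert.1 h3 with h4 | h4
      · exact h4
      · exact absurd (mem_singleton.1 h4) (ne_of_mem_erase hz)
    have h4 : z' ∈ ends G T w' := by rw [h2]; simp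
    have hw'T : w' ∉ T := by
      intro hT
      rw [hF.ends_T hT] at h4
      simp at h4
    rcases ho z' (mem_of_mem_erase hz') (by rw [rws_of_notMem hw'T]; exact h4) with h5 | h5
    · exact ne_of_mem_erase hz' h5
    · exact hzz (hzx.trans h5.symm)

/-- **deleting the rows of `B` and the neighbourhood of an independent transversal of `B`** -/
theorem HSys.del (hF : PFrame G r m t Z T) {A S : Finset V} (h : HSys G Z T A S) {B : Finset V}
    (hB : B ⊆ A) {c : V → V} (hc : ∀ j ∈ B, c j ∈ S ∧ c j ∈ Cl G Z T j)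
    (hi : ∀ i ∈ B, ∀ j ∈ B, ¬ G.Adj (c i) (c j)) :
    HSys G Z T (A \ B) (S.filter fun v => (∃ x ∈ A \ B, x ∈ rws G T v) ∧
      ∀ j ∈ B, ¬ G.Adj (c j) v) := by
  refine ⟨sdiff_subset.trans h.sub, fun z hz => ?_, (filter_subset _ _).trans h.subZ,
    fun v hv => (mem_filter.1 hv).2.1, fun x hx p hp q hq hxp hxq hpq => ?_⟩
  · obtain ⟨h1, h2⟩ := mem_sdiff.1 hz
    refine mem_filter.2 ⟨h.ctr h1, ⟨z, hz, ?_⟩, fun j hj => ?_⟩
    · rw [rws_of_mem (h.sub h1)]
      exact mem_singleton_self z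
    · exact hF.Cl_not_adj (h.sub (hB hj)) (h.sub h1) (fun h' => h2 (h' ▸ hj)) (hc j hj).2
  obtain ⟨hxA, hxJ⟩ := mem_sdiff.1 hx
  obtain ⟨hp1, hp3, hp2⟩ := mem_filter.1 hp
  obtain ⟨hq1, hq3, hq2⟩ := mem_filter.1 hq
  have hmem : ∀ z, z ∈ A.erase x → z ∉ B → z ∈ (A \ B).erase x := fun z hz hzJ =>
    mem_erase.2 ⟨ne_of_mem_erase hz, mem_sdiff.2 ⟨mem_of_mem_erase hz, hzJ⟩⟩
  have hBx : ∀ v w, v ∈ S → x ∈ rws G T v → w ≠ x → ends G T v = {x, w} → v ∈ BB G Z T := by
    intro v w hv hxv hwx he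
    rcases hF.rws_split (h.subZ hv) hxv with h2 | h2
    · exfalso
      have hw : w ∈ ends G T v := by rw [he]; simp
      rcases (mem_Cl.1 h2).2 with h3 | ⟨-, h3⟩
      · rw [h3, hF.ends_T (h.sub hxA)] at hw
        simp at hw
      · rw [h3, mem_singleton] at hw
        exact hwx hw
    · exact h2.1
  -- a pair with one far row in `B`
  have one : ∀ p q y z, p ∈ BB G Z T → q ∈ BB G Z T → (∀ j ∈ B, ¬ G.Adj (c j) p) →
      (∀ j ∈ B, ¬ G.Adj (c j) q) → (co G).Adj p q → y ∈ A.erase x → z ∈ A.erase x → y ≠ z →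
      ends G T p = {x, y} → ends G T q = {x, z} → y ∈ B →
      z ∈ (A \ B).erase x ∧ ∀ d ∈ (S.filter fun v => (∃ x ∈ A \ B, x ∈ rws G T v) ∧
        ∀ j ∈ B, ¬ G.Adj (c j) v), d ∈ Cl G Z T z → G.Adj p d ∨ G.Adj q d := by
    intro p q y z hpB hqB hp2 hq2 hpq hy hz hyz hep heq hyJ
    have hyT := h.sub (mem_of_mem_erase hy)
    have hzT := h.sub (mem_of_mem_erase hz)
    have key : ∀ d, d ∈ Cl G Z T z → ¬ G.Adj p d → ¬ G.Adj q d → G.Adj (c y) d :=
      fun d hd n1 n2 => hF.half hyT hzT hyz (h.sub hxA) hpB hep hqB heq hpq.1 hpq.2 (hc y hyJ).2 hd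
        (fun h' => hp2 y hyJ h'.symm) (fun h' => hq2 y hyJ h'.symm) n1 n2
    have hzJ : z ∉ B := fun hzJ => hi y hyJ z hzJ
      (key (c z) (hc z hzJ).2 (fun h' => hp2 z hzJ h'.symm) (fun h' => hq2 z hzJ h'.symm))
    refine ⟨hmem z hz hzJ, fun d hd hdC => ?_⟩
    by_contra hcon
    push Not at hcon
    exact (mem_filter.1 hd).2.2 y hyJ (key d hdC hcon.1 hcon.2)
  rcases h.closed x hxA p hp1 q hq1 hxp hxq hpq with ⟨y, hy, h1⟩ | ⟨y, hy, z, hz, hyz, h1, h2⟩
  · have hyJ : y ∉ B := by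
      intro hyJ
      rcases h1 (c y) (hc y hyJ).1 (hc y hyJ).2 with h2 | h2
      · exact hp2 y hyJ h2.symm
      · exact hq2 y hyJ h2.symm
    exact Or.inl ⟨y, hmem y hy hyJ, fun d hd hdC => h1 d (mem_filter.1 hd).1 hdC⟩
  · have hpB := hBx p y hp1 hxp (ne_of_mem_erase hy) h1
    have hqB := hBx q z hq1 hxq (ne_of_mem_erase hz) h2
    by_cases hyJ : y ∈ B
    · obtain ⟨h3, h4⟩ := one p q y z hpB hqB hp2 hq2 hpq hy hz hyz h1 h2 hyJ
      exact Or.inl ⟨z, h3, h4⟩
    · by_cases hzJ : z ∈ B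
      · obtain ⟨h3, h4⟩ := one q p z y hqB hpB hq2 hp2 hpq.symm hz hy hyz.symm h2 h1 hzJ
        exact Or.inl ⟨y, h3, fun d hd hdC => (h4 d hd hdC).symm⟩
      · exact Or.inr ⟨y, hmem y hy hyJ, z, hmem z hz hzJ, hyz, h1, h2⟩

/-- the points with all rows of `A` in `B` form a closed system on `B` -/
theorem HSys.within (hF : PFrame G r m t Z T) {A S : Finset V} (h : HSys G Z T A S)
    {B : Finset V} (hB : B ⊆ A) :
    HSys G Z T B (S.filter fun v => ∀ x ∈ A, x ∈ rws G T v → x ∈ B) := by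
  refine ⟨hB.trans h.sub, fun z hz => mem_filter.2 ⟨h.ctr (hB hz), fun x _ hx => ?_⟩,
    (filter_subset _ _).trans h.subZ, fun v hv => ?_, fun x hx p hp q hq hxp hxq hpq => ?_⟩
  · rw [rws_of_mem (h.sub (hB hz)), mem_singleton] at hx
    rwa [hx]
  · obtain ⟨h1, h2⟩ := mem_filter.1 hv
    obtain ⟨x, hx, h3⟩ := h.row v h1
    exact ⟨x, h2 x hx h3, h3⟩
  · obtain ⟨hp1, hp2⟩ := mem_filter.1 hp
    obtain ⟨hq1, hq2⟩ := mem_filter.1 hq
    have hend : ∀ v w, v ∈ S → w ∈ A.erase x → ends G T v = {x, w} →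
        (∀ x ∈ A, x ∈ rws G T v → x ∈ B) → w ∈ B.erase x := by
      intro v w _ hw he hv2
      have h3 : w ∈ ends G T v := by rw [he]; simp
      have hvT : v ∉ T := by
        intro hT
        rw [hF.ends_T hT] at h3
        simp at h3
      exact mem_erase.2 ⟨ne_of_mem_erase hw, hv2 w (mem_of_mem_erase hw)
        (by rw [rws_of_notMem hvT]; exact h3)⟩
    rcases h.closed x (hB hx) p hp1 q hq1 hxp hxq hpq with ⟨y, hy, h1⟩ | ⟨y, hy, z, hz, hyz, h1, h2⟩
    · refine Or.inl ⟨y, mem_erase.2 ⟨ne_of_mem_erase hy, ?_⟩,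
        fun c hc hcC => h1 c (mem_filter.1 hc).1 hcC⟩
      rcases h.tail hF (mem_of_mem_erase hy) h1 with h2 | h2
      · exact hp2 y (mem_of_mem_erase hy) h2
      · exact hq2 y (mem_of_mem_erase hy) h2
    · exact Or.inr ⟨y, hend p y hp1 hy h1 hp2, z, hend q z hq1 hz h2 hq2, hyz, h1, h2⟩

variable (G Z T) in
/-- `X` is a transversal of the hypergraph of the row `y` of the home-free system -/
def HHits (A S : Finset V) (y : V) (X : Finset V) : Prop :=
  ∀ x ∈ A.erase y, ∀ p ∈ S, ∀ q ∈ S, x ∈ rws G T p → x ∈ rws G T q → (co G).Adj p q →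
    p ∈ X ∨ q ∈ X ∨
    (∃ z ∈ (A.erase y).erase x, ∀ c ∈ S, c ∈ Cl G Z T z → G.Adj p c ∨ G.Adj q c ∨ c ∈ X) ∨
      ∃ z ∈ (A.erase y).erase x, ∃ z' ∈ (A.erase y).erase x, z ≠ z' ∧ ends G T p = {x, z} ∧
        ends G T q = {x, z'}

/-- deleting a row together with a transversal of its hypergraph -/
theorem HSys.erase_hits {A S : Finset V} (h : HSys G Z T A S) {y : V} {X : Finset V}
    (hXA : Disjoint (A.erase y) X) (hX : HHits G Z T A S y X) :
    HSys G Z T (A.erase y) (S.filter fun v => (∃ x ∈ A.erase y, x ∈ rws G T v) ∧ v ∉ X) := by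
  refine ⟨(erase_subset _ _).trans h.sub, fun z hz => ?_, (filter_subset _ _).trans h.subZ,
    fun v hv => (mem_filter.1 hv).2.1, fun x hx p hp q hq hxp hxq hpq => ?_⟩
  · have hzA := mem_of_mem_erase hz
    refine mem_filter.2 ⟨h.ctr hzA, ⟨z, hz, ?_⟩, disjoint_left.1 hXA hz⟩
    rw [rws_of_mem (h.sub hzA)]
    exact mem_singleton_self z
  · obtain ⟨hp1, -, hp2⟩ := mem_filter.1 hp
    obtain ⟨hq1, -, hq2⟩ := mem_filter.1 hq
    rcases hX x hx p hp1 q hq1 hxp hxq hpq with h1 | h1 | ⟨z, hz, h1⟩ | h1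
    · exact absurd h1 hp2
    · exact absurd h1 hq2
    · refine Or.inl ⟨z, hz, fun d hd hdC => ?_⟩
      obtain ⟨hd1, -, hd2⟩ := mem_filter.1 hd
      rcases h1 d hd1 hdC with h2 | h2 | h2
      · exact Or.inl h2
      · exact Or.inr h2
      · exact absurd h2 hd2
    · exact Or.inr h1

/-- a minimal system exists -/
theorem S2.exists_mhsys (h : S2 G r m t Z T) (hr : 1 ≤ r) : ∃ A S, MHSys G Z T r A S := by
  let P : ℕ → Prop := fun n => ∃ A S, HSys G Z T A S ∧ A.card = n ∧ n * r + 1 ≤ S.card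
  have hP : ∃ n, P n := ⟨t, T, Z, h.toPFrame.hsys, h.cardT, h.cardZ.ge⟩
  obtain ⟨A, S, hS, hA, hle⟩ := Nat.find_spec hP
  have hmin : ∀ B S', HSys G Z T B S' → B.card < A.card → S'.card ≤ B.card * r := by
    intro B S' hB hlt
    by_contra hcon
    rw [hA] at hlt
    exact Nat.find_min hP hlt ⟨B, S', hB, rfl, by omega⟩
  obtain ⟨U, hU1, hU2, hUc⟩ := exists_subsuperset_card_eq (n := A.card * r + 1) hS.ctr
    (by have := Nat.le_mul_of_pos_right A.card hr; omega) (by rw [hA]; exact hle)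
  have hS' : HSys G Z T A U := hS.mono hU2 hU1
  refine ⟨A, U, hS', ?_, hUc, hmin⟩
  by_contra hcon
  have h4 : A.card ≤ 1 := by omega
  rcases A.eq_empty_or_nonempty with h5 | ⟨x, hx⟩
  · obtain ⟨v, hv⟩ : U.Nonempty := card_pos.1 (by rw [hUc]; omega)
    obtain ⟨x, hx, -⟩ := hS'.row v hv
    rw [h5] at hx
    simp at hx
  · have h6 : A = {x} :=
      (eq_singleton_iff_unique_mem).2 ⟨hx, fun v hv => card_le_one.1 h4 v hv x hx⟩
    subst h6
    have h7 := h.omega U hS'.subZ hS'.clq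
    rw [card_singleton] at hUc
    omega

/-- **independent partial transversals of a minimal system** -/
theorem MHSys.law_J (hF : PFrame G r m t Z T) {A S : Finset V} (h : MHSys G Z T r A S)
    {B : Finset V} (hB : B ⊆ A) (hB0 : B.Nonempty) {c : V → V}
    (hc : ∀ j ∈ B, c j ∈ S ∧ c j ∈ Cl G Z T j) (hi : ∀ i ∈ B, ∀ j ∈ B, ¬ G.Adj (c i) (c j)) :
    B.card * r + 1 ≤ (S.filter fun v => (∀ x ∈ A, x ∈ rws G T v → x ∈ B) ∨
      ∃ j ∈ B, G.Adj (c j) v).card := by
  have h1 := h.min _ _ (h.toHSys.del hF hB hc hi) (by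
    rw [card_sdiff_of_subset hB]
    have := card_pos.2 hB0
    have := card_le_card hB
    omega)
  have h2 : S.card = (S.filter fun v => (∃ x ∈ A \ B, x ∈ rws G T v) ∧
      ∀ j ∈ B, ¬ G.Adj (c j) v).card + (S.filter fun v => (∀ x ∈ A, x ∈ rws G T v → x ∈ B) ∨
      ∃ j ∈ B, G.Adj (c j) v).card := by
    rw [← card_filter_add_card_filter_not (s := S) (fun v => (∃ x ∈ A \ B, x ∈ rws G T v) ∧
      ∀ j ∈ B, ¬ G.Adj (c j) v)]
    refine congrArg _ (congrArg _ (filter_congr fun v _ => ?_))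
    constructor
    · intro h3
      by_cases h4 : ∃ j ∈ B, G.Adj (c j) v
      · exact Or.inr h4
      · left
        intro x hx hxv
        by_contra hxB
        exact h3 ⟨⟨x, mem_sdiff.2 ⟨hx, hxB⟩, hxv⟩, fun j hj h5 => h4 ⟨j, hj, h5⟩⟩
    · rintro (h3 | ⟨j, hj, h3⟩) ⟨⟨x, hx, hxv⟩, h4⟩
      · exact (mem_sdiff.1 hx).2 (h3 x (mem_sdiff.1 hx).1 hxv)
      · exact h4 j hj h3
  have h3 := h.val
  have h4 : (A \ B).card + B.card = A.card := card_sdiff_add_card_eq_card hB
  have h5 : (A \ B).card * r + B.card * r = A.card * r := by rw [← add_mul, h4]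
  omega

/-- **Hall**: a proper part `B` of the rows carries at most `|B| r` points -/
theorem MHSys.hall (hF : PFrame G r m t Z T) {A S : Finset V} (h : MHSys G Z T r A S)
    {B : Finset V} (hB : B ⊂ A) :
    (S.filter fun v => ∀ x ∈ A, x ∈ rws G T v → x ∈ B).card ≤ B.card * r :=
  h.min _ _ (h.toHSys.within hF hB.1) (card_lt_card hB)

/-- transversals of the hypergraph of a row -/
theorem MHSys.hits {A S : Finset V} (h : MHSys G Z T r A S) {y : V} (hy : y ∈ A) {X : Finset V}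
    (hXA : Disjoint (A.erase y) X) (hX : HHits G Z T A S y X) :
    r + 1 ≤ (S.filter fun v => (∀ x ∈ A, x ∈ rws G T v → x = y) ∨ v ∈ X).card := by
  have h1 := h.min _ _ (h.toHSys.erase_hits hXA hX) (card_erase_lt_of_mem hy)
  have h2 : S.card = (S.filter fun v => (∃ x ∈ A.erase y, x ∈ rws G T v) ∧ v ∉ X).card
      + (S.filter fun v => (∀ x ∈ A, x ∈ rws G T v → x = y) ∨ v ∈ X).card := by
    rw [← card_filter_add_card_filter_not (s := S)
      (fun v => (∃ x ∈ A.erase y, x ∈ rws G T v) ∧ v ∉ X)]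
    refine congrArg _ (congrArg _ (filter_congr fun v _ => ?_))
    constructor
    · intro h3
      by_cases h4 : v ∈ X
      · exact Or.inr h4
      · left
        intro x hx hxv
        by_contra hxy
        exact h3 ⟨⟨x, mem_erase.2 ⟨hxy, hx⟩, hxv⟩, h4⟩
    · rintro (h3 | h3) ⟨⟨x, hx, hxv⟩, h4⟩
      · exact (ne_of_mem_erase hx) (h3 x (mem_of_mem_erase hx) hxv)
      · exact h4 h3
  have h3 := h.val
  have h4 : (A.erase y).card + 1 = A.card := card_erase_add_one hy
  have h5 : (A.erase y).card * r + r = A.card * r := by rw [← h4, add_mul, one_mul]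
  omega

/-- every point of a class part has at least `r` neighbours in `S` -/
theorem MHSys.deg (hF : PFrame G r m t Z T) {A S : Finset V} (h : MHSys G Z T r A S) {y c : V}
    (hy : y ∈ A) (hc : c ∈ S) (hcC : c ∈ Cl G Z T y) : r ≤ dg G S c := by
  have h1 := h.law_J hF (B := {y}) (singleton_subset_iff.2 hy) (singleton_nonempty y)
    (c := fun _ => c) (fun j hj => by
      rw [mem_singleton.1 hj]
      exact ⟨hc, hcC⟩) (fun _ _ _ _ => G.loopless.irrefl c)
  have h2 : (S.filter fun v => (∀ x ∈ A, x ∈ rws G T v → x ∈ ({y} : Finset V)) ∨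
      ∃ j ∈ ({y} : Finset V), G.Adj c v) ⊆ insert c (S.filter fun v => G.Adj c v) := by
    intro v hv
    obtain ⟨hv1, hv2⟩ := mem_filter.1 hv
    rw [mem_insert, mem_filter]
    by_cases hvc : v = c
    · exact Or.inl hvc
    right
    refine ⟨hv1, ?_⟩
    rcases hv2 with h3 | ⟨-, -, h3⟩
    · obtain ⟨x, hx, hxv⟩ := h.row v hv1
      have hxy := mem_singleton.1 (h3 x hx hxv)
      subst hxy
      exact (h.toHSys.only_adj hF hx hv1 hxv (fun z hz hzv => mem_singleton.1 (h3 z hz hzv)) hc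
        hcC hvc).symm
    · exact h3
  have h3 := card_le_card h2
  have h4 := card_insert_le c (S.filter fun v => G.Adj c v)
  rw [card_singleton] at h1
  unfold dg
  omega

/-- the last row: what the transversal of the other rows does not see is a clique -/
theorem HSys.law_last (hF : S2 G r m t Z T) {A S : Finset V} (h : HSys G Z T A S) {x : V}
    (hx : x ∈ A) {c : V → V} (hc : ∀ j ∈ A.erase x, c j ∈ S ∧ c j ∈ Cl G Z T j)
    (hi : ∀ i ∈ A.erase x, ∀ j ∈ A.erase x, ¬ G.Adj (c i) (c j)) :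
    Clq G (S.filter fun v => x ∈ rws G T v ∧ ∀ j ∈ A.erase x, ¬ G.Adj (c j) v) ∧
      (S.filter fun v => x ∈ rws G T v ∧ ∀ j ∈ A.erase x, ¬ G.Adj (c j) v).card ≤ r - 1 := by
  have hA : A \ A.erase x = {x} := by
    ext v
    simp only [mem_sdiff, mem_erase, mem_singleton, not_and, ne_eq]
    constructor
    · rintro ⟨h1, h2⟩
      by_contra h3
      exact h2 h3 h1
    · rintro rfl
      exact ⟨hx, fun h' => absurd rfl h'⟩
  have h1 := h.del hF.toPFrame (erase_subset x A) hc hi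
  rw [hA] at h1
  have h2 : (S.filter fun v => (∃ y ∈ ({x} : Finset V), y ∈ rws G T v) ∧
      ∀ j ∈ A.erase x, ¬ G.Adj (c j) v)
      = S.filter fun v => x ∈ rws G T v ∧ ∀ j ∈ A.erase x, ¬ G.Adj (c j) v := by
    refine filter_congr fun v _ => ?_
    simp
  rw [h2] at h1
  exact ⟨h1.clq, hF.omega _ ((filter_subset _ _).trans h.subZ) h1.clq⟩

/-- homes with given capacities -/
theorem HSys.exists_homes {A S : Finset V} (_h : HSys G Z T A S) {cap : V → ℕ}
    (hcap : ∀ B ⊆ A, (S.filter fun v => ∀ x ∈ A, x ∈ rws G T v → x ∈ B).card ≤ ∑ x ∈ B, cap x) :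
    ∃ hm : V → V, Homes G Z T hm ∧ (∀ v ∈ S, hm v ∈ A ∧ hm v ∈ rws G T v) ∧
      ∀ x ∈ A, (S.filter fun v => hm v = x).card ≤ cap x := by
  set slot : {z // z ∈ S} → Finset (V × ℕ) := fun z =>
    (A.filter fun x => x ∈ rws G T z.1).biUnion (fun v => {v} ×ˢ range (cap v)) with hslot
  have hslotmem : ∀ (z : {z // z ∈ S}) (p : V × ℕ),
      p ∈ slot z ↔ (p.1 ∈ A ∧ p.1 ∈ rws G T z.1) ∧ p.2 < cap p.1 := by
    intro z p
    simp only [hslot, mem_biUnion, mem_product, mem_singleton, mem_range, mem_filter]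
    constructor
    · rintro ⟨v, hv, h1, h2⟩
      subst h1
      exact ⟨hv, h2⟩
    · rintro ⟨h1, h2⟩
      exact ⟨p.1, h1, rfl, h2⟩
  have hall : ∀ X : Finset {z // z ∈ S}, X.card ≤ (X.biUnion slot).card := by
    intro X
    set I : Finset V := X.biUnion (fun z => A.filter fun x => x ∈ rws G T z.1) with hI
    have hIA : I ⊆ A := by
      intro v hv
      obtain ⟨z, _, hz⟩ := mem_biUnion.1 hv
      exact (mem_filter.1 hz).1
    have h1 : X.biUnion slot = I.biUnion (fun v => {v} ×ˢ range (cap v)) := by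
      ext p
      simp only [mem_biUnion, hslotmem, hI, mem_product, mem_singleton, mem_range, mem_filter]
      constructor
      · rintro ⟨z, hz, h1, h2⟩
        exact ⟨p.1, ⟨z, hz, h1⟩, rfl, h2⟩
      · rintro ⟨v, ⟨z, hz, h1⟩, h2, h3⟩
        subst h2
        exact ⟨z, hz, h1, h3⟩
    have h2 : (X.biUnion slot).card = ∑ v ∈ I, cap v := by
      rw [h1, card_biUnion]
      · refine sum_congr rfl fun v _ => ?_
        rw [card_product, card_singleton, card_range, one_mul]
      · intro v _ w _ hvw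
        change Disjoint _ _
        rw [disjoint_left]
        intro p hp hp'
        simp only [mem_product, mem_singleton, mem_range] at hp hp'
        exact hvw (hp.1.symm.trans hp'.1)
    have h3 : X.card = (X.map (Function.Embedding.subtype _)).card := (card_map _).symm
    have h4 : X.map (Function.Embedding.subtype _)
        ⊆ S.filter fun v => ∀ x ∈ A, x ∈ rws G T v → x ∈ I := by
      intro z hz
      obtain ⟨z', hz', rfl⟩ := mem_map.1 hz
      refine mem_filter.2 ⟨z'.2, fun x hx hxz => ?_⟩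
      exact mem_biUnion.2 ⟨z', hz', mem_filter.2 ⟨hx, hxz⟩⟩
    rw [h2, h3]
    exact (card_le_card h4).trans (hcap I hIA)
  obtain ⟨f, hf, hfs⟩ := (all_card_le_biUnion_card_iff_exists_injective slot).1 hall
  have hend : ∀ z, z ∈ BB G Z T → ∃ y, y ∈ ends G T z := by
    intro z hz
    have h1 : 0 < (ends G T z).card := by
      have h2 := (mem_BB.1 hz).2
      rw [← card_ends] at h2
      omega
    exact card_pos.1 h1
  set hm : V → V := fun z => if hz : z ∈ S then (f ⟨z, hz⟩).1 else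
    if hz' : z ∈ BB G Z T then (hend z hz').choose else z with hhm
  have hmS : ∀ z (hz : z ∈ S), hm z = (f ⟨z, hz⟩).1 := fun z hz => by
    simp only [hhm, hz, dif_pos]
  have hmr : ∀ v ∈ S, hm v ∈ A ∧ hm v ∈ rws G T v := by
    intro v hv
    rw [hmS v hv]
    exact ((hslotmem _ _).1 (hfs ⟨v, hv⟩)).1
  refine ⟨hm, fun z hz => ?_, hmr, fun v _ => ?_⟩
  · by_cases hzS : z ∈ S
    · have h1 := (hmr z hzS).2
      rwa [rws_BB hz] at h1
    · have h1 : hm z = (hend z hz).choose := by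
        simp only [hhm, hzS, hz, dif_pos, dif_neg, not_false_eq_true]
      rw [h1]
      exact (hend z hz).choose_spec
  · rw [← card_range (cap v)]
    refine card_le_card_of_injOn (fun z => if hz : z ∈ S then (f ⟨z, hz⟩).2 else 0) ?_ ?_
    · intro z hz
      obtain ⟨hz1, hz2⟩ := mem_filter.1 hz
      rw [hmS z hz1] at hz2
      simp only [hz1, dif_pos]
      have := ((hslotmem _ _).1 (hfs ⟨z, hz1⟩)).2
      rw [hz2] at this
      exact mem_coe.2 (mem_range.2 this)
    · intro z hz z' hz' heq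
      obtain ⟨hz1, hz2⟩ := mem_filter.1 (mem_coe.1 hz)
      obtain ⟨hz1', hz2'⟩ := mem_filter.1 (mem_coe.1 hz')
      rw [hmS z hz1] at hz2
      rw [hmS z' hz1'] at hz2'
      simp only [hz1, hz1', dif_pos] at heq
      have h1 : f ⟨z, hz1⟩ = f ⟨z', hz1'⟩ := Prod.ext (hz2.trans hz2'.symm) heq
      have h2 := hf h1
      exact congrArg Subtype.val h2

/-- the slots of homes partition the points -/
lemma sum_slots {A S : Finset V} (hh : ∀ v ∈ S, hm v ∈ A) :
    ∑ x ∈ A, (S.filter fun v => hm v = x).card = S.card :=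
  (card_eq_sum_card_fiberwise (f := hm) (s := S) (t := A) fun v hv => hh v hv).symm

/-- **balanced homes**: `r` points in every slot, `r + 1` in the slot `x₀` -/
theorem MHSys.exists_homes (hF : PFrame G r m t Z T) {A S : Finset V} (h : MHSys G Z T r A S)
    {x₀ : V} (hx₀ : x₀ ∈ A) :
    ∃ hm : V → V, Homes G Z T hm ∧ (∀ v ∈ S, hm v ∈ A ∧ hm v ∈ rws G T v) ∧
      ∀ x ∈ A, (S.filter fun v => hm v = x).card = r + if x = x₀ then 1 else 0 := by
  have hsum : ∑ x ∈ A, (r + if x = x₀ then 1 else 0) = S.card := by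
    rw [sum_add_distrib, sum_const, smul_eq_mul, sum_ite_eq' A x₀, if_pos hx₀, h.val]
  obtain ⟨hm, h1, h2, h3⟩ := h.toHSys.exists_homes (cap := fun x => r + if x = x₀ then 1 else 0)
    (fun B hB => by
      by_cases hBA : B = A
      · subst hBA
        rw [hsum]
        exact card_le_card (filter_subset _ _)
      · refine (h.hall hF (hB.ssubset_of_ne hBA)).trans ?_
        rw [sum_add_distrib, sum_const, smul_eq_mul]
        exact Nat.le_add_right _ _)
  refine ⟨hm, h1, h2, ?_⟩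
  have h4 : ∑ x ∈ A, (S.filter fun v => hm v = x).card
      = ∑ x ∈ A, (r + if x = x₀ then 1 else 0) := by
    rw [hsum]
    exact sum_slots fun v hv => (h2 v hv).1
  exact (sum_eq_sum_iff_of_le h3).1 h4

/-- **the slots of any homes form a closed system** -/
theorem HSys.csys (hF : PFrame G r m t Z T) {A S : Finset V} (h : HSys G Z T A S)
    (hh : ∀ v ∈ S, hm v ∈ A ∧ hm v ∈ rws G T v) :
    CSys G Z T hm A (fun x => S.filter fun v => hm v = x) := by
  refine ⟨h.sub, fun x hx v hv => ?_, fun x hx p hp q hq hpq => ?_⟩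
  · obtain ⟨h1, h2⟩ := mem_filter.1 hv
    have h3 := (hh v h1).2
    rw [h2] at h3
    rcases hF.rws_split (h.subZ h1) h3 with h4 | h4
    · exact mem_MM.2 (Or.inl h4)
    · exact mem_MM.2 (Or.inr (mem_Ph.2 ⟨h4.1, h2⟩))
  · obtain ⟨hp1, hp2⟩ := mem_filter.1 hp
    obtain ⟨hq1, hq2⟩ := mem_filter.1 hq
    have h3 := (hh p hp1).2
    have h4 := (hh q hq1).2
    rw [hp2] at h3
    rw [hq2] at h4
    rcases h.closed x hx p hp1 q hq1 h3 h4 hpq with ⟨y, hy, h5⟩ | h5
    · exact Or.inl ⟨y, hy, fun c hc => h5 c (mem_filter.1 hc).1⟩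
    · exact Or.inr h5

/-- the class part of a row is in its slot -/
lemma HSys.cl_slot {A S : Finset V} (h : HSys G Z T A S)
    (hh : ∀ v ∈ S, hm v ∈ A ∧ hm v ∈ rws G T v) {x c : V} (hx : x ∈ A) (hc : c ∈ S)
    (hcC : c ∈ Cl G Z T x) : hm c = x := by
  have h1 := (hh c hc).2
  rw [rws_Cl (h.sub hx) hcC] at h1
  exact mem_singleton.1 h1

/-- **the pointwise law for slots, home points with two rows in `A` which miss `c` included** -/
theorem MHSys.law_slot (hF : PFrame G r m t Z T) {A S : Finset V} (h : MHSys G Z T r A S)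
    (hh : ∀ v ∈ S, hm v ∈ A ∧ hm v ∈ rws G T v) {y c : V} (hy : y ∈ A) (hc : c ∈ S)
    (hcC : c ∈ Cl G Z T y) :
    r + 1 + (S.filter fun v => hm v = y ∧ (∃ x ∈ A.erase y, x ∈ rws G T v) ∧ ¬ G.Adj c v).card
      ≤ (S.filter fun v => hm v = y).card
        + ∑ x ∈ A.erase y, dg G (S.filter fun v => hm v = x) c := by
  have h1 := h.law_J hF (B := {y}) (singleton_subset_iff.2 hy) (singleton_nonempty y)
    (c := fun _ => c) (fun j hj => by
      rw [mem_singleton.1 hj]
      exact ⟨hc, hcC⟩) (fun _ _ _ _ => G.loopless.irrefl c)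
  rw [card_singleton, one_mul] at h1
  set F1 := S.filter fun v => hm v = y ∧ (∃ x ∈ A.erase y, x ∈ rws G T v) ∧ ¬ G.Adj c v with hF1
  set F2 := S.filter fun v => hm v ≠ y ∧ G.Adj c v with hF2
  have h2 : (S.filter fun v => (∀ x ∈ A, x ∈ rws G T v → x ∈ ({y} : Finset V)) ∨
      ∃ j ∈ ({y} : Finset V), G.Adj c v) ⊆ ((S.filter fun v => hm v = y) \ F1) ∪ F2 := by
    intro v hv
    obtain ⟨hv1, hv2⟩ := mem_filter.1 hv
    rw [mem_union, mem_sdiff, mem_filter]
    by_cases hvy : hm v = y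
    · left
      refine ⟨⟨hv1, hvy⟩, fun h3 => ?_⟩
      obtain ⟨-, -, ⟨x, hx, hxv⟩, h4⟩ := mem_filter.1 h3
      rcases hv2 with h5 | ⟨-, -, h5⟩
      · exact ne_of_mem_erase hx (mem_singleton.1 (h5 x (mem_of_mem_erase hx) hxv))
      · exact h4 h5
    · right
      refine mem_filter.2 ⟨hv1, hvy, ?_⟩
      rcases hv2 with h5 | ⟨-, -, h5⟩
      · exact absurd (mem_singleton.1 (h5 _ (hh v hv1).1 (hh v hv1).2)) hvy
      · exact h5
  have h3 := (card_le_card h2).trans (card_union_le _ _)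
  have h4 : F1 ⊆ S.filter fun v => hm v = y := fun v hv =>
    mem_filter.2 ⟨(mem_filter.1 hv).1, (mem_filter.1 hv).2.1⟩
  rw [card_sdiff_of_subset h4] at h3
  have h5 := card_le_card h4
  have h6 : F2.card = ∑ x ∈ A.erase y, dg G (S.filter fun v => hm v = x) c := by
    rw [card_eq_sum_card_fiberwise (f := hm) (s := F2) (t := A.erase y) fun v hv => by
      obtain ⟨h7, h8, -⟩ := mem_filter.1 (mem_coe.1 hv)
      exact mem_coe.2 (mem_erase.2 ⟨h8, (hh v h7).1⟩)]
    refine sum_congr rfl fun x hx => ?_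
    unfold dg
    refine congrArg _ ?_
    ext v
    simp only [hF2, mem_filter]
    constructor
    · rintro ⟨⟨a1, -, a2⟩, a3⟩
      exact ⟨⟨a1, a3⟩, a2⟩
    · rintro ⟨⟨a1, a3⟩, a2⟩
      exact ⟨⟨a1, by rw [a3]; exact ne_of_mem_erase hx, a2⟩, a3⟩
  omega

/-- the class part has at most `r - 1` points -/
lemma HSys.card_cl (hF : S2 G r m t Z T) {A S : Finset V} (h : HSys G Z T A S) {x : V}
    (hx : x ∈ A) : (S.filter fun v => v ∈ Cl G Z T x).card ≤ r - 1 := by
  refine hF.omega _ ((filter_subset _ _).trans h.subZ) ?_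
  exact (hF.toPFrame.Cl_clq (h.sub hx)).mono fun v hv => (mem_filter.1 hv).2

/-- slot = class part and home part -/
lemma HSys.card_slot (hF : PFrame G r m t Z T) {A S : Finset V} (h : HSys G Z T A S)
    (hh : ∀ v ∈ S, hm v ∈ A ∧ hm v ∈ rws G T v) {x : V} (hx : x ∈ A) :
    (S.filter fun v => hm v = x).card = (S.filter fun v => v ∈ Cl G Z T x).card
      + (S.filter fun v => v ∈ BB G Z T ∧ hm v = x).card := by
  rw [← card_union_of_disjoint]
  · congr 1
    ext v
    simp only [mem_union, mem_filter]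
    constructor
    · rintro ⟨h1, h2⟩
      have h3 := (hh v h1).2
      rw [h2] at h3
      rcases hF.rws_split (h.subZ h1) h3 with h4 | h4
      · exact Or.inl ⟨h1, h4⟩
      · exact Or.inr ⟨h1, h4.1, h2⟩
    · rintro (⟨h1, h2⟩ | ⟨h1, -, h2⟩)
      · exact ⟨h1, h.cl_slot hh hx h1 h2⟩
      · exact ⟨h1, h2⟩
  · rw [disjoint_left]
    intro v hv hv'
    exact disjoint_left.1 (Cl_BB_disjoint (h.sub hx)) (mem_filter.1 hv).2 (mem_filter.1 hv').2.1

/-- the home parts together are at most all doubles -/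
lemma HSys.sum_home_le {A S : Finset V} :
    ∑ x ∈ A, (S.filter fun v => v ∈ BB G Z T ∧ hm v = x).card ≤ (BB G Z T).card := by
  rw [← card_biUnion]
  · refine card_le_card fun v hv => ?_
    obtain ⟨x, -, h1⟩ := mem_biUnion.1 hv
    exact (mem_filter.1 h1).2.1
  · intro x _ y _ hxy
    change Disjoint _ _
    rw [disjoint_left]
    intro v hv hv'
    exact hxy ((mem_filter.1 hv).2.2.symm.trans (mem_filter.1 hv').2.2)

/-- `sum (r - |C' x|) + 1 = sum |H' x|` -/
lemma MHSys.sum_T (hF : S2 G r m t Z T) {A S : Finset V} (h : MHSys G Z T r A S)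
    (hh : ∀ v ∈ S, hm v ∈ A ∧ hm v ∈ rws G T v) :
    ∑ x ∈ A, (r - (S.filter fun v => v ∈ Cl G Z T x).card) + 1
      = ∑ x ∈ A, (S.filter fun v => v ∈ BB G Z T ∧ hm v = x).card := by
  have h1 := sum_slots (hm := hm) (A := A) (S := S) fun v hv => (hh v hv).1
  rw [h.val, sum_congr rfl fun x hx => h.toHSys.card_slot hF.toPFrame hh hx,
    sum_add_distrib] at h1
  have h2 : ∑ x ∈ A, (r - (S.filter fun v => v ∈ Cl G Z T x).card)
      + ∑ x ∈ A, (S.filter fun v => v ∈ Cl G Z T x).card = A.card * r := by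
    rw [← sum_add_distrib, ← smul_eq_mul, ← sum_const]
    refine sum_congr rfl fun x hx => ?_
    have := h.toHSys.card_cl hF hx
    omega
  omega

end HSys

end Pool.Agent.Lib.MP_f04ccf_co
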