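import Pool.Agent.Lib.MP_f04ccf_co.M.StarX
import Pool.Agent.Lib.MP_f04ccf_co.M.HSys
import Pool.Agent.Lib.MP_f04ccf_co.M.D3

/-!
MP_f04ccf_co, note 15714 (1): the row test with an arbitrary set `W` of kills and a residual front.

`BF G C U`: the independent sets of at most three points of `U` such that every point of `C` has a
neighbour in them.  `Blk G C U k`: every transversal of `BF G C U` has at least `k` points.
* `MSys.blk`, `MHSys.blk`: in a minimal closed system (with homes, resp. home-free with any homes)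
  this holds for the class part `C` of the row `y`, the points `U` of the other slots (without the
  centres) and `k = r + 1 - |S y|`.
* `Blk.one`: for `|W| < k` there is a member outside `W`; `Blk.two`: for `|W| + 2 <= k` there are at
  most six points outside `W` such that every point of `C` has two neighbours among them.
* `CSys.d3h`: the row test for `W` and the residual front `W'`.
-/

set_option autoImplicit false

namespace Pool.Agent.Lib.MP_f04ccf_co

open Finset

attribute [local instance] Classical.propDecidable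

section Blk

variable {V : Type*} {G : SimpleGraph V}

variable (G) in
/-- independent sets of at most three points of `U` which are seen by all points of `C` -/
noncomputable def BF (C U : Finset V) : Finset (Finset V) :=
  U.powerset.filter fun e => e.card ≤ 3 ∧ Ind G e ∧ ∀ c ∈ C, ∃ v ∈ e, G.Adj c v

lemma mem_BF {C U e : Finset V} :
    e ∈ BF G C U ↔ e ⊆ U ∧ e.card ≤ 3 ∧ Ind G e ∧ ∀ c ∈ C, ∃ v ∈ e, G.Adj c v := by
  unfold BF
  rw [mem_filter, mem_powerset]

variable (G) in
/-- every transversal of `BF G C U` has at least `k` points -/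
def Blk (C U : Finset V) (k : ℕ) : Prop := ∀ X : Finset V, Tau.Trv (BF G C U) X → k ≤ X.card

/-- transversals of the members outside `W` -/
lemma Blk.rest {C U : Finset V} {k : ℕ} (h : Blk G C U k) {W X : Finset V}
    (hX : Tau.Trv ((BF G C U).filter fun e => Disjoint e W) X) : k ≤ X.card + W.card := by
  refine (h (X ∪ W) fun e he => ?_).trans (card_union_le _ _)
  by_cases hd : Disjoint e W
  · obtain ⟨v, hv⟩ := hX e (mem_filter.2 ⟨he, hd⟩)
    obtain ⟨h1, h2⟩ := mem_inter.1 hv
    exact ⟨v, mem_inter.2 ⟨h1, mem_union_left _ h2⟩⟩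
  · rw [not_disjoint_iff] at hd
    obtain ⟨v, h1, h2⟩ := hd
    exact ⟨v, mem_inter.2 ⟨h1, mem_union_right _ h2⟩⟩

/-- **a member outside `W`** -/
theorem Blk.one {C U : Finset V} {k : ℕ} (h : Blk G C U k) {W : Finset V} (hW : W.card < k) :
    ∃ e ⊆ U \ W, e.card ≤ 3 ∧ Ind G e ∧ ∀ c ∈ C, 1 ≤ dg G e c := by
  obtain ⟨e, he, -⟩ := Tau.front_hyp_one ((BF G C U).filter fun e => Disjoint e W)
    (fun X hX => by
      have := h.rest hX
      omega)
  obtain ⟨h1, h2⟩ := mem_filter.1 he
  obtain ⟨h3, h4, h5, h6⟩ := mem_BF.1 h1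
  refine ⟨e, fun v hv => mem_sdiff.2 ⟨h3 hv, disjoint_left.1 h2 hv⟩, h4, h5, fun c hc => ?_⟩
  obtain ⟨v, hv, hcv⟩ := h6 c hc
  exact card_pos.2 ⟨v, mem_filter.2 ⟨hv, hcv⟩⟩

/-- **at most six points outside `W`, two of them seen by every point of `C`** -/
theorem Blk.two {C U : Finset V} {k : ℕ} (h : Blk G C U k) {W : Finset V}
    (hW : W.card + 2 ≤ k) :
    ∃ P ⊆ U \ W, P.card ≤ 6 ∧ ∀ c ∈ C, 2 ≤ dg G P c := by
  obtain ⟨P, hP1, hP2, hP3⟩ := Tau.front_hyp_two ((BF G C U).filter fun e => Disjoint e W)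
    (fun e he => (mem_BF.1 (mem_filter.1 he).1).2.1)
    (fun X hX => by
      have := h.rest hX
      omega)
  refine ⟨P, fun v hv => ?_, hP2, fun c hc => ?_⟩
  · obtain ⟨e, he, hve⟩ := hP1 v hv
    obtain ⟨h1, h2⟩ := mem_filter.1 he
    exact mem_sdiff.2 ⟨(mem_BF.1 h1).1 hve, disjoint_left.1 h2 hve⟩
  · refine (hP3 (U.filter fun v => G.Adj c v) fun e he => ?_).trans (card_le_card fun v hv => ?_)
    · obtain ⟨h3, -, -, h6⟩ := mem_BF.1 (mem_filter.1 he).1
      obtain ⟨v, hv, hcv⟩ := h6 c hc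
      exact ⟨v, mem_inter.2 ⟨hv, mem_filter.2 ⟨h3 hv, hcv⟩⟩⟩
    · obtain ⟨h1, h2⟩ := mem_inter.1 hv
      exact mem_filter.2 ⟨h2, (mem_filter.1 h1).2⟩

/-- the two cases together: for `l <= 2` residual loads there are at most `3 l` points -/
theorem Blk.front {C U : Finset V} {k l : ℕ} (h : Blk G C U k) {W : Finset V}
    (hW : W.card + l ≤ k) (hl : l ≤ 2) :
    ∃ P ⊆ U \ W, P.card ≤ 3 * l ∧ ∀ c ∈ C, l ≤ dg G P c := by
  interval_cases l
  · exact ⟨∅, empty_subset _, by simp, fun c _ => Nat.zero_le _⟩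
  · obtain ⟨e, h1, h2, -, h3⟩ := h.one (W := W) (by omega)
    exact ⟨e, h1, h2, h3⟩
  · exact h.two hW

end Blk

section D3H

variable {V : Type*} {G : SimpleGraph V} {Z T : Finset V} {hm : V → V} {r m t : ℕ}

/-- two or three pairwise non-adjacent points -/
lemma ind_pair {p q : V} (h : ¬ G.Adj p q) : Ind G {p, q} := by
  intro a ha b hb
  simp only [mem_insert, mem_singleton] at ha hb
  rcases ha with rfl | rfl <;> rcases hb with rfl | rfl
  · exact G.loopless.irrefl _
  · exact h
  · exact fun h' => h h'.symm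
  · exact G.loopless.irrefl _

lemma ind_triple {p q d : V} (h : ¬ G.Adj p q) (h1 : ¬ G.Adj p d) (h2 : ¬ G.Adj q d) :
    Ind G {p, q, d} := by
  intro a ha b hb
  simp only [mem_insert, mem_singleton] at ha hb
  rcases ha with rfl | rfl | rfl <;> rcases hb with rfl | rfl | rfl
  · exact G.loopless.irrefl _
  · exact h
  · exact h1
  · exact fun h' => h h'.symm
  · exact G.loopless.irrefl _
  · exact h2
  · exact fun h' => h1 h'.symm
  · exact fun h' => h2 h'.symm
  · exact G.loopless.irrefl _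

/-- a transversal of the members of `BF` is a transversal of the hypergraph of the row `y` -/
theorem CSys.hits_of_trv (hF : PFrame G r m t Z T) {A : Finset V} {S : V → Finset V}
    (h : CSys G Z T hm A S) {y : V} (hy : y ∈ A) {X : Finset V}
    (hX : Tau.Trv (BF G (CP G Z T S y) ((A.erase y).biUnion S)) X) : Hits G Z T A S y X := by
  intro x hx p hp q hq hpq
  have hxA := mem_of_mem_erase hx
  have hU : ∀ z ∈ A.erase y, ∀ v ∈ S z, v ∈ (A.erase y).biUnion S := fun z hz v hv =>
    mem_biUnion.2 ⟨z, hz, hv⟩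
  by_contra hcon
  push Not at hcon
  obtain ⟨hpX, hqX, h3, h4⟩ := hcon
  have hBx : ∀ v w, v ∈ S x → w ≠ x → ends G T v = {x, w} → v ∈ BB G Z T := by
    intro v w hv hwx he
    rcases mem_MM.1 (h.slot x hxA hv) with h2 | h2
    · exfalso
      have hw : w ∈ ends G T v := by rw [he]; simp
      rcases (mem_Cl.1 h2).2 with h3 | ⟨-, h3⟩
      · rw [h3, hF.ends_T (h.sub hxA)] at hw
        simp at hw
      · rw [h3, mem_singleton] at hw
        exact hwx hw
    · exact (mem_Ph.1 h2).1
  -- a half served pair with the far rows `y` and `z`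
  have half : ∀ p q z, p ∈ S x → q ∈ S x → p ∉ X → q ∉ X → (co G).Adj p q → y ∈ A.erase x →
      z ∈ A.erase x → y ≠ z → ends G T p = {x, y} → ends G T q = {x, z} →
      ∀ d ∈ S z, d ∈ Cl G Z T z → G.Adj p d ∨ G.Adj q d ∨ d ∈ X := by
    intro p q z hp hq hpX hqX hpq hyx hz hyz hep heq d hd hdC
    by_contra hcon
    push Not at hcon
    obtain ⟨n1, n2, n3⟩ := hcon
    have hpB := hBx p y hp (ne_of_mem_erase hyx) hep
    have hqB := hBx q z hq (ne_of_mem_erase hz) heq
    have he : ({p, q, d} : Finset V) ∈ BF G (CP G Z T S y) ((A.erase y).biUnion S) := by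
      refine mem_BF.2 ⟨?_, card_le_three, ind_triple hpq.2 n1 n2, fun c hc => ?_⟩
      · intro v hv
        simp only [mem_insert, mem_singleton] at hv
        rcases hv with rfl | rfl | rfl
        · exact hU x hx _ hp
        · exact hU x hx _ hq
        · exact hU z (mem_erase.2 ⟨hyz.symm, mem_of_mem_erase hz⟩) _ hd
      · by_cases m1 : G.Adj p c
        · exact ⟨p, by simp, m1.symm⟩
        by_cases m2 : G.Adj q c
        · exact ⟨q, by simp, m2.symm⟩
        exact ⟨d, by simp, hF.half (h.sub hy) (h.sub (mem_of_mem_erase hz)) hyz (h.sub hxA) hpB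
          hep hqB heq hpq.1 hpq.2 (mem_CP.1 hc).2 hdC m1 m2 n1 n2⟩
    obtain ⟨v, hv⟩ := hX _ he
    obtain ⟨hv1, hv2⟩ := mem_inter.1 hv
    simp only [mem_insert, mem_singleton] at hv1
    rcases hv1 with rfl | rfl | rfl
    · exact hpX hv2
    · exact hqX hv2
    · exact n3 hv2
  have hback : ∀ w ∈ A.erase x, w ≠ y → w ∈ (A.erase y).erase x := fun w hw hwy =>
    mem_erase.2 ⟨ne_of_mem_erase hw, mem_erase.2 ⟨hwy, mem_of_mem_erase hw⟩⟩
  rcases h.closed x hxA p hp q hq hpq with ⟨w, hw, h1⟩ | ⟨w, hw, w', hw', hww, h1, h2⟩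
  · by_cases hwy : w = y
    · subst hwy
      have he : ({p, q} : Finset V) ∈ BF G (CP G Z T S w) ((A.erase w).biUnion S) := by
        refine mem_BF.2 ⟨?_, card_le_two.trans (by norm_num), ind_pair hpq.2, fun c hc => ?_⟩
        · intro v hv
          simp only [mem_insert, mem_singleton] at hv
          rcases hv with rfl | rfl
          · exact hU x hx _ hp
          · exact hU x hx _ hq
        · rcases h1 c (mem_CP.1 hc).1 (mem_CP.1 hc).2 with h5 | h5
          · exact ⟨p, by simp, h5.symm⟩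
          · exact ⟨q, by simp, h5.symm⟩
      obtain ⟨v, hv⟩ := hX _ he
      obtain ⟨hv1, hv2⟩ := mem_inter.1 hv
      simp only [mem_insert, mem_singleton] at hv1
      rcases hv1 with rfl | rfl
      · exact hpX hv2
      · exact hqX hv2
    · obtain ⟨c, hc, hcC, n1, n2, -⟩ := h3 w (hback w hw hwy)
      rcases h1 c hc hcC with h5 | h5
      · exact n1 h5
      · exact n2 h5
  · by_cases hwy : w = y
    · subst hwy
      have hw'y : w' ≠ w := hww.symm
      obtain ⟨c, hc, hcC, n1, n2, n3⟩ := h3 w' (hback w' hw' hw'y)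
      rcases half p q w' hp hq hpX hqX hpq hw hw' hww h1 h2 c hc hcC with h5 | h5 | h5
      · exact n1 h5
      · exact n2 h5
      · exact n3 h5
    · by_cases hwy' : w' = y
      · subst hwy'
        obtain ⟨c, hc, hcC, n1, n2, n3⟩ := h3 w (hback w hw hwy)
        rcases half q p w hq hp hqX hpX hpq.symm hw' hw hww.symm h2 h1 c hc hcC with h5 | h5 | h5
        · exact n2 h5
        · exact n1 h5
        · exact n3 h5
      · exact h4 w (hback w hw hwy) w' (hback w' hw' hwy') hww h1 h2

/-- **the front number of a row in a minimal closed system** -/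
theorem MSys.blk (hF : PFrame G r m t Z T) {A : Finset V} {S : V → Finset V}
    (h : MSys G Z T hm r A S) {y : V} (hy : y ∈ A) :
    Blk G (CP G Z T S y) ((A.erase y).biUnion S) (r + 1 - (S y).card) := by
  intro X hX
  have h1 := h.hits hy (h.toCSys.hits_of_trv hF hy hX)
  have h2 : ∑ x ∈ A.erase y, (S x ∩ X).card ≤ X.card := by
    rw [← card_biUnion (fun x hx z hz hxz => ((h.toCSys.disj (mem_of_mem_erase hx)
      (mem_of_mem_erase hz) hxz).mono inter_subset_left inter_subset_left))]
    refine card_le_card fun v hv => ?_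
    obtain ⟨x, -, hx⟩ := mem_biUnion.1 hv
    exact (mem_inter.1 hx).2
  omega

/-- **the row test with an arbitrary set `W` and a further set `W'` with `l` neighbours of every
point of the class part** -/
theorem CSys.d3h (hF : PFrame G r m t Z T) (hP : PG G r) {A : Finset V} {S : V → Finset V}
    (h : CSys G Z T hm A S) {y : V} (hy : y ∈ A) {W W' : Finset V} (hW : Disjoint (S y) W)
    (hW' : Disjoint (S y) W') (hWW : Disjoint W W') {l : ℕ}
    (hl : ∀ c ∈ CP G Z T S y, l ≤ dg G W' c) :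
    2 * ((r : ℤ) - 1) * (((S y).card : ℤ) - r) + 2 * ∑ c ∈ CP G Z T S y, (dg G W c : ℤ)
      + 2 * l * (CP G Z T S y).card + 2 * ∑ v ∈ W ∪ W', (dg G (HP G Z T S y) v : ℤ)
      ≤ NE G (S y) + NE G (W ∪ W') + 2 * ((W.card : ℤ) + W'.card) * (((S y).card : ℤ) - r + 1) := by
  have h1 := h.row_load hF hP hy (W := W ∪ W') (disjoint_union_right.2 ⟨hW, hW'⟩)
    (k := fun c => (dg G W c : ℤ) + l) (fun c hc => by
      have h2 : dg G (W ∪ W') c = dg G W c + dg G W' c := by
        unfold dg
        rw [filter_union, card_union_of_disjoint]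
        exact hWW.mono (filter_subset _ _) (filter_subset _ _)
      rw [h2]
      have := hl c hc
      push_cast
      have h3 : (l : ℤ) ≤ dg G W' c := by exact_mod_cast this
      linarith)
  rw [sum_add_distrib, sum_const, nsmul_eq_mul, card_union_of_disjoint hWW] at h1
  push_cast at h1
  linarith

/-- **(D3H)**: the row test in a minimal closed system, `W` arbitrary with `|W| + l <= m_y`, `l <= 2`,
and the residual front `W'` of at most `3 l` points -/
theorem MSys.d3h (hF : PFrame G r m t Z T) (hP : PG G r) {A : Finset V} {S : V → Finset V}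
    (h : MSys G Z T hm r A S) {y : V} (hy : y ∈ A) {W : Finset V} (hW : Disjoint (S y) W) {l : ℕ}
    (hl : l ≤ 2) (hWl : (S y).card + W.card + l ≤ r + 1) :
    ∃ W' ⊆ (A.erase y).biUnion S, Disjoint W W' ∧ W'.card ≤ 3 * l ∧
      (∀ c ∈ CP G Z T S y, l ≤ dg G W' c) ∧
      2 * ((r : ℤ) - 1) * (((S y).card : ℤ) - r) + 2 * ∑ c ∈ CP G Z T S y, (dg G W c : ℤ)
        + 2 * l * (CP G Z T S y).card + 2 * ∑ v ∈ W ∪ W', (dg G (HP G Z T S y) v : ℤ)
        ≤ NE G (S y) + NE G (W ∪ W')
          + 2 * ((W.card : ℤ) + W'.card) * (((S y).card : ℤ) - r + 1) := by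
  obtain ⟨P, h1, h2, h3⟩ := (h.blk hF hy).front (W := W) (l := l) (by omega) hl
  have h4 : P ⊆ (A.erase y).biUnion S := h1.trans sdiff_subset
  have h5 : Disjoint W P := by
    rw [disjoint_left]
    intro v hv hv'
    exact (mem_sdiff.1 (h1 hv')).2 hv
  have h6 : Disjoint (S y) P := by
    rw [disjoint_left]
    intro v hv hv'
    obtain ⟨x, hx, hvx⟩ := mem_biUnion.1 (h4 hv')
    exact disjoint_left.1 (h.toCSys.disj hy (mem_of_mem_erase hx) (ne_of_mem_erase hx).symm) hv
      hvx
  exact ⟨P, h4, h5, h2, h3, h.toCSys.d3h hF hP hy hW h6 h5 h3⟩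

/-! ### home-free systems -/

/-- a transversal of the members of `BF` (without centres and without the slot of `y`), together
with the points of the slot of `y` which have another row of `A`, is a transversal of the hypergraph
of the row `y` -/
theorem HSys.hits_of_trv (hF : PFrame G r m t Z T) {A S : Finset V} (h : HSys G Z T A S)
    (hh : ∀ v ∈ S, hm v ∈ A ∧ hm v ∈ rws G T v) {y : V} (hy : y ∈ A) {X : Finset V}
    (hX : Tau.Trv (BF G (S.filter fun v => v ∈ Cl G Z T y)
      (S.filter fun v => hm v ≠ y ∧ v ∉ A)) X) :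
    HHits G Z T A S y ((X \ A) ∪ (S.filter fun v => hm v = y ∧ v ≠ y)) := by
  intro x hx p hp q hq hxp hxq hpq
  have hxA := mem_of_mem_erase hx
  have hxy := ne_of_mem_erase hx
  have hxT := h.sub hxA
  by_contra hcon
  push Not at hcon
  obtain ⟨hpX, hqX, h3, h4⟩ := hcon
  -- points with two rows are doubles
  have hBx : ∀ v w, v ∈ S → x ∈ rws G T v → w ≠ x → ends G T v = {x, w} → v ∈ BB G Z T := by
    intro v w hv hxv hwx he
    rcases hF.rws_split (h.subZ hv) hxv with h2 | h2
    · exfalso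
      have hw : w ∈ ends G T v := by rw [he]; simp
      rcases (mem_Cl.1 h2).2 with h3 | ⟨-, h3⟩
      · rw [h3, hF.ends_T hxT] at hw
        simp at hw
      · rw [h3, mem_singleton] at hw
        exact hwx hw
    · exact h2.1
  -- a point of the row `x` in no transversal
  have hout : ∀ v ∈ S, x ∈ rws G T v → v ∉ (X \ A) ∪ (S.filter fun v => hm v = y ∧ v ≠ y) →
      hm v ≠ y ∧ (v ∉ A → v ∉ X) := by
    intro v hv hxv hvX
    rw [mem_union, not_or, mem_sdiff, mem_filter] at hvX
    obtain ⟨a1, a2⟩ := hvX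
    refine ⟨fun h5 => ?_, fun h5 h6 => a1 ⟨h6, h5⟩⟩
    refine a2 ⟨hv, h5, ?_⟩
    rintro rfl
    rw [rws_of_mem (h.sub hy), mem_singleton] at hxv
    exact hxy hxv
  obtain ⟨hpy, hpX'⟩ := hout p hp hxp hpX
  obtain ⟨hqy, hqX'⟩ := hout q hq hxq hqX
  -- centres are complete to their own row
  have hnc : ∀ v w, v ∈ S → w ∈ S → x ∈ rws G T v → x ∈ rws G T w → (co G).Adj v w → v ∉ A := by
    intro v w _ hw hxv hxw hvw hvA
    have h5 : v = x := by
      rw [rws_of_mem (h.sub hvA), mem_singleton] at hxv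
      exact hxv.symm
    subst h5
    rcases mem_rws.1 hxw with ⟨-, h6 | ⟨-, h6⟩⟩
    · exact hvw.1 h6.symm
    · exact hvw.2 h6.symm
  have hpA := hnc p q hp hq hxp hxq hpq
  have hqA := hnc q p hq hp hxq hxp hpq.symm
  -- a half served pair with the far rows `y` and `z`
  have half : ∀ p q z, p ∈ S → q ∈ S → x ∈ rws G T p → x ∈ rws G T q → hm p ≠ y → hm q ≠ y →
      p ∉ A → q ∉ A → p ∉ X → q ∉ X → (co G).Adj p q → y ∈ A.erase x →
      z ∈ A.erase x → y ≠ z → ends G T p = {x, y} → ends G T q = {x, z} →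
      ∀ d ∈ S, d ∈ Cl G Z T z → ¬ G.Adj p d → ¬ G.Adj q d → d ∈ X \ A := by
    intro p q z hp hq hxp hxq hpy hqy hpA hqA hpX hqX hpq hyx hz hyz hep heq d hd hdC n1 n2
    have hpB := hBx p y hp hxp (ne_of_mem_erase hyx) hep
    have hqB := hBx q z hq hxq (ne_of_mem_erase hz) heq
    have hzA := mem_of_mem_erase hz
    have hdA : d ∉ A := by
      intro hdA
      have h5 : d = z := by
        have h6 := rws_Cl (h.sub hzA) hdC
        rw [rws_of_mem (h.sub hdA)] at h6
        exact singleton_injective h6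
      subst h5
      exact n2 ((mem_ends.1 (by rw [heq]; simp : d ∈ ends G T q)).2)
    have hdy : hm d ≠ y := by
      rw [h.cl_slot hh hzA hd hdC]
      exact hyz.symm
    have he : ({p, q, d} : Finset V) ∈ BF G (S.filter fun v => v ∈ Cl G Z T y)
        (S.filter fun v => hm v ≠ y ∧ v ∉ A) := by
      refine mem_BF.2 ⟨?_, card_le_three, ind_triple hpq.2 n1 n2, fun c hc => ?_⟩
      · intro v hv
        simp only [mem_insert, mem_singleton] at hv
        rcases hv with rfl | rfl | rfl
        · exact mem_filter.2 ⟨hp, hpy, hpA⟩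
        · exact mem_filter.2 ⟨hq, hqy, hqA⟩
        · exact mem_filter.2 ⟨hd, hdy, hdA⟩
      · by_cases m1 : G.Adj p c
        · exact ⟨p, by simp, m1.symm⟩
        by_cases m2 : G.Adj q c
        · exact ⟨q, by simp, m2.symm⟩
        exact ⟨d, by simp, hF.half (h.sub hy) (h.sub hzA) hyz hxT hpB hep hqB heq hpq.1 hpq.2
          (mem_filter.1 hc).2 hdC m1 m2 n1 n2⟩
    obtain ⟨v, hv⟩ := hX _ he
    obtain ⟨hv1, hv2⟩ := mem_inter.1 hv
    simp only [mem_insert, mem_singleton] at hv1
    rcases hv1 with rfl | rfl | rfl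
    · exact absurd hv2 hpX
    · exact absurd hv2 hqX
    · exact mem_sdiff.2 ⟨hv2, hdA⟩
  have hback : ∀ w ∈ A.erase x, w ≠ y → w ∈ (A.erase y).erase x := fun w hw hwy =>
    mem_erase.2 ⟨ne_of_mem_erase hw, mem_erase.2 ⟨hwy, mem_of_mem_erase hw⟩⟩
  rcases h.closed x hxA p hp q hq hxp hxq hpq with ⟨w, hw, h1⟩ | ⟨w, hw, w', hw', hww, h1, h2⟩
  · by_cases hwy : w = y
    · subst hwy
      have he : ({p, q} : Finset V) ∈ BF G (S.filter fun v => v ∈ Cl G Z T w)
          (S.filter fun v => hm v ≠ w ∧ v ∉ A) := by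
        refine mem_BF.2 ⟨?_, card_le_two.trans (by norm_num), ind_pair hpq.2, fun c hc => ?_⟩
        · intro v hv
          simp only [mem_insert, mem_singleton] at hv
          rcases hv with rfl | rfl
          · exact mem_filter.2 ⟨hp, hpy, hpA⟩
          · exact mem_filter.2 ⟨hq, hqy, hqA⟩
        · rcases h1 c (mem_filter.1 hc).1 (mem_filter.1 hc).2 with h5 | h5
          · exact ⟨p, by simp, h5.symm⟩
          · exact ⟨q, by simp, h5.symm⟩
      obtain ⟨v, hv⟩ := hX _ he
      obtain ⟨hv1, hv2⟩ := mem_inter.1 hv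
      simp only [mem_insert, mem_singleton] at hv1
      rcases hv1 with rfl | rfl
      · exact hpX' hpA hv2
      · exact hqX' hqA hv2
    · obtain ⟨c, hc, hcC, n1, n2, -⟩ := h3 w (hback w hw hwy)
      rcases h1 c hc hcC with h5 | h5
      · exact n1 h5
      · exact n2 h5
  · by_cases hwy : w = y
    · subst hwy
      have hw'y : w' ≠ w := hww.symm
      obtain ⟨c, hc, hcC, n1, n2, n3⟩ := h3 w' (hback w' hw' hw'y)
      exact n3 (mem_union_left _ (half p q w' hp hq hxp hxq hpy hqy hpA hqA (hpX' hpA) (hqX' hqA)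
        hpq hw hw' hww h1 h2 c hc hcC n1 n2))
    · by_cases hwy' : w' = y
      · subst hwy'
        obtain ⟨c, hc, hcC, n1, n2, n3⟩ := h3 w (hback w hw hwy)
        exact n3 (mem_union_left _ (half q p w hq hp hxq hxp hqy hpy hqA hpA (hqX' hqA)
          (hpX' hpA) hpq.symm hw' hw hww.symm h2 h1 c hc hcC n2 n1))
      · exact h4 w (hback w hw hwy) w' (hback w' hw' hwy') hww h1 h2

/-- **the front number of a row in a minimal home-free system, any homes** -/
theorem MHSys.blk (hF : PFrame G r m t Z T) {A S : Finset V} (h : MHSys G Z T r A S)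
    (hh : ∀ v ∈ S, hm v ∈ A ∧ hm v ∈ rws G T v) {y : V} (hy : y ∈ A) :
    Blk G (S.filter fun v => v ∈ Cl G Z T y) (S.filter fun v => hm v ≠ y ∧ v ∉ A)
      (r + 1 - (S.filter fun v => hm v = y).card) := by
  intro X hX
  have h1 := h.hits hy (X := (X \ A) ∪ (S.filter fun v => hm v = y ∧ v ≠ y)) (by
    rw [disjoint_left]
    intro v hv hv'
    rcases mem_union.1 hv' with h2 | h2
    · exact (mem_sdiff.1 h2).2 (mem_of_mem_erase hv)
    · obtain ⟨h3, h4, h5⟩ := mem_filter.1 h2
      have h6 := (hh v h3).2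
      rw [h4, rws_of_mem (h.sub (mem_of_mem_erase hv)), mem_singleton] at h6
      exact h5 h6.symm) (h.toHSys.hits_of_trv hF hh hy hX)
  have h2 : (S.filter fun v => (∀ x ∈ A, x ∈ rws G T v → x = y) ∨
      v ∈ (X \ A) ∪ (S.filter fun v => hm v = y ∧ v ≠ y))
      ⊆ (S.filter fun v => hm v = y) ∪ X := by
    intro v hv
    obtain ⟨h3, h4⟩ := mem_filter.1 hv
    rcases h4 with h4 | h4
    · exact mem_union_left _ (mem_filter.2 ⟨h3, h4 _ (hh v h3).1 (hh v h3).2⟩)
    · rcases mem_union.1 h4 with h5 | h5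
      · exact mem_union_right _ (mem_sdiff.1 h5).1
      · exact mem_union_left _ (mem_filter.2 ⟨h3, (mem_filter.1 h5).2.1⟩)
  have h3 := (card_le_card h2).trans (card_union_le _ _)
  omega

/-- the class part of the row `y` of the slots of homes -/
lemma HSys.CP_eq {A S : Finset V} (h : HSys G Z T A S)
    (hh : ∀ v ∈ S, hm v ∈ A ∧ hm v ∈ rws G T v) {y : V} (hy : y ∈ A) :
    CP G Z T (fun x => S.filter fun v => hm v = x) y = S.filter fun v => v ∈ Cl G Z T y := by
  ext v
  rw [mem_CP, mem_filter, mem_filter]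
  constructor
  · rintro ⟨⟨h1, -⟩, h2⟩
    exact ⟨h1, h2⟩
  · rintro ⟨h1, h2⟩
    exact ⟨⟨h1, h.cl_slot hh hy h1 h2⟩, h2⟩

/-- **(D3H) in a minimal home-free system, any homes** -/
theorem MHSys.d3h (hF : PFrame G r m t Z T) (hP : PG G r) {A S : Finset V}
    (h : MHSys G Z T r A S) (hh : ∀ v ∈ S, hm v ∈ A ∧ hm v ∈ rws G T v) {y : V} (hy : y ∈ A)
    {W : Finset V} (hW : Disjoint (S.filter fun v => hm v = y) W) {l : ℕ} (hl : l ≤ 2)
    (hWl : (S.filter fun v => hm v = y).card + W.card + l ≤ r + 1) :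
    ∃ W' ⊆ S.filter fun v => hm v ≠ y ∧ v ∉ A, Disjoint W W' ∧ W'.card ≤ 3 * l ∧
      (∀ c ∈ S, c ∈ Cl G Z T y → l ≤ dg G W' c) ∧
      2 * ((r : ℤ) - 1) * (((S.filter fun v => hm v = y).card : ℤ) - r)
        + 2 * ∑ c ∈ S.filter fun v => v ∈ Cl G Z T y, (dg G W c : ℤ)
        + 2 * l * (S.filter fun v => v ∈ Cl G Z T y).card
        + 2 * ∑ v ∈ W ∪ W', (dg G (HP G Z T (fun x => S.filter fun v => hm v = x) y) v : ℤ)
        ≤ NE G (S.filter fun v => hm v = y) + NE G (W ∪ W')
          + 2 * ((W.card : ℤ) + W'.card)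
            * (((S.filter fun v => hm v = y).card : ℤ) - r + 1) := by
  obtain ⟨P, h1, h2, h3⟩ := (h.blk hF hh hy).front (W := W) (l := l) (by omega) hl
  have h4 : P ⊆ S.filter fun v => hm v ≠ y ∧ v ∉ A := h1.trans sdiff_subset
  have h5 : Disjoint W P := by
    rw [disjoint_left]
    intro v hv hv'
    exact (mem_sdiff.1 (h1 hv')).2 hv
  have h6 : Disjoint (S.filter fun v => hm v = y) P := by
    rw [disjoint_left]
    intro v hv hv'
    exact (mem_filter.1 (h4 hv')).2.1 (mem_filter.1 hv).2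
  have hcp := h.toHSys.CP_eq hh hy
  have h7 := (h.toHSys.csys hF hh).d3h hF hP hy (W := W) (W' := P) (l := l) hW h6 h5 (by
    rw [hcp]
    exact h3)
  rw [hcp] at h7
  exact ⟨P, h4, h5, h2, fun c hc hcC => h3 c (mem_filter.2 ⟨hc, hcC⟩), h7⟩

end D3H

end Pool.Agent.Lib.MP_f04ccf_co
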