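import Pool.Agent.Lib.MP_f04ccf_co.M.AlfM
import Pool.Agent.Lib.MP_f04ccf_co.M.D3H

/-!
MP_f04ccf_co, STATE 5 (E1): the fronts of the rows of `j`-closed systems (M/Alf.lean), the analogue
of M/D3H.lean with `j + 1` points instead of three.

* `Tau.front_hyp_two_gen`: a family of sets of at most `n` points with transversal number at least
  two has a front of at most `(n + 2) ^ 2 / 4` points (`n = 3`: six, `n = 4`: nine).
* `BFn G n C U`: the independent sets of at most `n` points of `U` seen by all points of `C`;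
  `Blkn G n C U k`: every transversal of them has at least `k` points; `Blkn.one`, `Blkn.two`,
  `Blkn.front`.
* `JSys.wit`: if the rows `A.erase y` with a part `S'` of `S` (every point with a row in
  `A.erase y`) are not `j`-closed, there is an independent set of at most `j + 1` points of `S'`
  without centres, with a point of the row `y`, which is seen by the whole class part of `y`.
* `JSys.blkn`: the front number of a row; `JSys.d3h`: the row test.
* `MQSys.blkn`, `MQSys.d3h`: the same in a minimal `j`-closed system (M/AlfM.lean), with the number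
  `r + 1 - |S y|`.
-/

set_option autoImplicit false

namespace Pool.Agent.Lib.MP_f04ccf_co

open Finset

attribute [local instance] Classical.propDecidable

namespace Tau

variable {V : Type*}

/-- transversal number at least `2`, members of size at most `n`: a front `P` with
`4 |P| <= (n + 2) ^ 2` -/
theorem front_hyp_two_gen (F : Finset (Finset V)) {n : ℕ} (h3 : ∀ e ∈ F, e.card ≤ n)
    (h2 : ∀ X : Finset V, Trv F X → 2 ≤ X.card) :
    ∃ P : Finset V, (∀ v ∈ P, ∃ e ∈ F, v ∈ e) ∧ 4 * P.card ≤ (n + 2) ^ 2 ∧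
      ∀ X : Finset V, Trv F X → 2 ≤ (X ∩ P).card := by
  by_cases h0 : ∃ e ∈ F, e = ∅
  · obtain ⟨e, he, rfl⟩ := h0
    refine ⟨∅, by simp, by simp, fun X hX => ?_⟩
    have := hX ∅ he
    rw [empty_inter] at this
    exact absurd this Finset.not_nonempty_empty
  · push Not at h0
    set Q : Finset (Finset (Finset V)) :=
      F.powerset.filter (fun F' => ∀ x, ∃ e ∈ F', x ∉ e) with hQ
    have hF : F ∈ Q := by
      rw [hQ, mem_filter]
      refine ⟨mem_powerset_self F, fun x => ?_⟩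
      by_contra hcon
      push Not at hcon
      have := h2 {x} (fun e he => ⟨x, mem_inter.mpr ⟨hcon e he, mem_singleton_self x⟩⟩)
      rw [card_singleton] at this
      omega
    obtain ⟨F', hF', hmin⟩ := exists_min_image Q card ⟨F, hF⟩
    rw [hQ, mem_filter, mem_powerset] at hF'
    obtain ⟨hsub, hno⟩ := hF'
    have hcr : ∀ e ∈ F', ∃ x, x ∉ e ∧ ∀ f ∈ F', f ≠ e → x ∈ f := by
      intro e he
      by_contra hcon
      push Not at hcon
      have hm : F'.erase e ∈ Q := by
        rw [hQ, mem_filter, mem_powerset]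
        refine ⟨(erase_subset e F').trans hsub, fun x => ?_⟩
        by_cases hx : x ∈ e
        · obtain ⟨f, hf, hxf⟩ := hno x
          refine ⟨f, mem_erase.mpr ⟨?_, hf⟩, hxf⟩
          rintro rfl
          exact hxf hx
        · obtain ⟨f, hf, hfe, hxf⟩ := hcon x hx
          exact ⟨f, mem_erase.mpr ⟨hfe, hf⟩, hxf⟩
      have h5 := hmin _ hm
      rw [card_erase_of_mem he] at h5
      have : 0 < F'.card := card_pos.mpr ⟨e, he⟩
      omega
    have hNV : Nonempty V := by
      by_contra hV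
      rw [not_nonempty_iff] at hV
      have h5 := h2 ∅ (fun e he => by
        obtain ⟨y, -⟩ := h0 e he
        exact (hV.false y).elim)
      rw [card_empty] at h5
      omega
    -- the subfamily is not empty
    have hne : F'.Nonempty := by
      obtain ⟨y⟩ := hNV
      obtain ⟨e, he, -⟩ := hno y
      exact ⟨e, he⟩
    choose! x hx1 hx2 using hcr
    have hinj : Set.InjOn x (F' : Set (Finset V)) := by
      intro e he f hf hef
      by_contra hne
      have h5 := hx2 e he f hf (Ne.symm hne)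
      rw [hef] at h5
      exact hx1 f hf h5
    set I : Finset V := F'.image x with hI
    have hIc : I.card = F'.card := card_image_of_injOn hinj
    have hin : ∀ e ∈ F', I.erase (x e) ⊆ e := by
      intro e he y hy
      obtain ⟨h5, h6⟩ := mem_erase.mp hy
      obtain ⟨f, hf, rfl⟩ := mem_image.mp h6
      exact hx2 f hf e he (fun h => h5 (by rw [h]))
    have hIe : ∀ e ∈ F', (I.erase (x e)).card + 1 = F'.card := by
      intro e he
      rw [card_erase_of_mem (mem_image_of_mem x he), hIc]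
      have : 0 < F'.card := card_pos.mpr ⟨e, he⟩
      omega
    have hout : ∀ e ∈ F', (e \ I).card + F'.card ≤ n + 1 := by
      intro e he
      have h5 := hIe e he
      have h6 : (e \ I) ∪ I.erase (x e) ⊆ e := union_subset sdiff_subset (hin e he)
      have h7 : Disjoint (e \ I) (I.erase (x e)) := by
        rw [disjoint_left]
        intro y hy hy'
        exact (mem_sdiff.mp hy).2 (mem_of_mem_erase hy')
      have h8 := card_le_card h6
      rw [card_union_of_disjoint h7] at h8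
      have := h3 e (hsub he)
      omega
    set P : Finset V := F'.biUnion id with hP
    have hPc : 4 * P.card ≤ (n + 2) ^ 2 := by
      have h5 : P ⊆ I ∪ F'.biUnion (fun e => e \ I) := by
        intro y hy
        rw [hP, mem_biUnion] at hy
        obtain ⟨e, he, hye⟩ := hy
        by_cases hyI : y ∈ I
        · exact mem_union_left _ hyI
        · exact mem_union_right _ (mem_biUnion.mpr ⟨e, he, mem_sdiff.mpr ⟨hye, hyI⟩⟩)
      have h6 : (F'.biUnion (fun e => e \ I)).card ≤ F'.card * (n + 1 - F'.card) :=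
        card_biUnion_le_card_mul _ _ _ (fun e he => by have := hout e he; omega)
      have h7 := (card_le_card h5).trans (card_union_le _ _)
      have hk : F'.card ≤ n + 1 := by
        obtain ⟨e, he⟩ := hne
        have := hout e he
        omega
      rw [hIc] at h7
      obtain ⟨d, hd⟩ := Nat.exists_eq_add_of_le hk
      rw [hd, Nat.add_sub_cancel_left] at h6
      have h8 : (n + 2 : ℤ) = F'.card + d + 1 := by
        have : (n + 1 : ℤ) = F'.card + d := by exact_mod_cast hd
        linarith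
      have h9 : (P.card : ℤ) ≤ F'.card + F'.card * d := by
        exact_mod_cast h7.trans (Nat.add_le_add_left h6 _)
      have h10 : (4 * P.card : ℤ) ≤ (n + 2) ^ 2 := by
        rw [h8]
        nlinarith [sq_nonneg ((F'.card : ℤ) - d - 1)]
      exact_mod_cast h10
    refine ⟨P, ?_, hPc, ?_⟩
    · intro v hv
      rw [hP, mem_biUnion] at hv
      obtain ⟨e, he, hve⟩ := hv
      exact ⟨e, hsub he, hve⟩
    · intro X hX
      obtain ⟨e0, he0⟩ := hne
      obtain ⟨y, hy⟩ := hX e0 (hsub he0)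
      obtain ⟨hy1, hy2⟩ := mem_inter.mp hy
      obtain ⟨f, hf, hyf⟩ := hno y
      obtain ⟨z, hz⟩ := hX f (hsub hf)
      obtain ⟨hz1, hz2⟩ := mem_inter.mp hz
      have hyz : y ≠ z := by
        rintro rfl
        exact hyf hz1
      have h5 : ({y, z} : Finset V) ⊆ X ∩ P := by
        intro w hw
        rw [mem_insert, mem_singleton] at hw
        rcases hw with rfl | rfl
        · exact mem_inter.mpr ⟨hy2, mem_biUnion.mpr ⟨e0, he0, hy1⟩⟩
        · exact mem_inter.mpr ⟨hz2, mem_biUnion.mpr ⟨f, hf, hz1⟩⟩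
      have h6 := card_le_card h5
      rwa [card_pair hyz] at h6

end Tau

section Blkn

variable {V : Type*} {G : SimpleGraph V}

variable (G) in
/-- independent sets of at most `n` points of `U` which are seen by all points of `C` -/
noncomputable def BFn (n : ℕ) (C U : Finset V) : Finset (Finset V) :=
  U.powerset.filter fun e => e.card ≤ n ∧ Ind G e ∧ ∀ c ∈ C, ∃ v ∈ e, G.Adj c v

lemma mem_BFn {n : ℕ} {C U e : Finset V} :
    e ∈ BFn G n C U ↔ e ⊆ U ∧ e.card ≤ n ∧ Ind G e ∧ ∀ c ∈ C, ∃ v ∈ e, G.Adj c v := by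
  unfold BFn
  rw [mem_filter, mem_powerset]

lemma BFn_three {C U : Finset V} : BFn G 3 C U = BF G C U := rfl

lemma BFn_mono {n k : ℕ} {C C' U U' : Finset V} (hn : n ≤ k) (hC : C' ⊆ C) (hU : U ⊆ U') :
    BFn G n C U ⊆ BFn G k C' U' := fun e he => by
  obtain ⟨h1, h2, h3, h4⟩ := mem_BFn.1 he
  exact mem_BFn.2 ⟨h1.trans hU, h2.trans hn, h3, fun c hc => h4 c (hC hc)⟩

variable (G) in
/-- every transversal of `BFn` has at least `k` points -/
def Blkn (n : ℕ) (C U : Finset V) (k : ℕ) : Prop :=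
  ∀ X : Finset V, Tau.Trv (BFn G n C U) X → k ≤ X.card

lemma Blkn.mono {n n' k k' : ℕ} {C C' U U' : Finset V} (h : Blkn G n C U k) (hn : n ≤ n')
    (hC : C' ⊆ C) (hU : U ⊆ U') (hk : k' ≤ k) : Blkn G n' C' U' k' := fun X hX =>
  hk.trans (h X fun e he => hX e (BFn_mono hn hC hU he))

/-- transversals of the members outside `W` -/
lemma Blkn.rest {n : ℕ} {C U : Finset V} {k : ℕ} (h : Blkn G n C U k) {W X : Finset V}
    (hX : Tau.Trv ((BFn G n C U).filter fun e => Disjoint e W) X) : k ≤ X.card + W.card := by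
  refine (h (X ∪ W) fun e he => ?_).trans (card_union_le _ _)
  by_cases hd : Disjoint e W
  · obtain ⟨v, hv⟩ := hX e (mem_filter.2 ⟨he, hd⟩)
    obtain ⟨h1, h2⟩ := mem_inter.1 hv
    exact ⟨v, mem_inter.2 ⟨h1, mem_union_left _ h2⟩⟩
  · rw [not_disjoint_iff] at hd
    obtain ⟨v, h1, h2⟩ := hd
    exact ⟨v, mem_inter.2 ⟨h1, mem_union_right _ h2⟩⟩

/-- **a member outside `W`** -/
theorem Blkn.one {n : ℕ} {C U : Finset V} {k : ℕ} (h : Blkn G n C U k) {W : Finset V}
    (hW : W.card < k) :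
    ∃ e ⊆ U \ W, e.card ≤ n ∧ Ind G e ∧ ∀ c ∈ C, 1 ≤ dg G e c := by
  obtain ⟨e, he, -⟩ := Tau.front_hyp_one ((BFn G n C U).filter fun e => Disjoint e W)
    (fun X hX => by
      have := h.rest hX
      omega)
  obtain ⟨h1, h2⟩ := mem_filter.1 he
  obtain ⟨h3, h4, h5, h6⟩ := mem_BFn.1 h1
  refine ⟨e, fun v hv => mem_sdiff.2 ⟨h3 hv, disjoint_left.1 h2 hv⟩, h4, h5, fun c hc => ?_⟩
  obtain ⟨v, hv, hcv⟩ := h6 c hc
  exact card_pos.2 ⟨v, mem_filter.2 ⟨hv, hcv⟩⟩

/-- **at most `(n + 2) ^ 2 / 4` points outside `W`, two of them seen by every point of `C`** -/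
theorem Blkn.two {n : ℕ} {C U : Finset V} {k : ℕ} (h : Blkn G n C U k) {W : Finset V}
    (hW : W.card + 2 ≤ k) :
    ∃ P ⊆ U \ W, P.card ≤ (n + 2) ^ 2 / 4 ∧ ∀ c ∈ C, 2 ≤ dg G P c := by
  obtain ⟨P, hP1, hP2, hP3⟩ := Tau.front_hyp_two_gen
    ((BFn G n C U).filter fun e => Disjoint e W) (n := n)
    (fun e he => (mem_BFn.1 (mem_filter.1 he).1).2.1)
    (fun X hX => by
      have := h.rest hX
      omega)
  refine ⟨P, fun v hv => ?_, (Nat.le_div_iff_mul_le (by norm_num)).2 (by omega), fun c hc => ?_⟩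
  · obtain ⟨e, he, hve⟩ := hP1 v hv
    obtain ⟨h1, h2⟩ := mem_filter.1 he
    exact mem_sdiff.2 ⟨(mem_BFn.1 h1).1 hve, disjoint_left.1 h2 hve⟩
  · refine (hP3 (U.filter fun v => G.Adj c v) fun e he => ?_).trans (card_le_card fun v hv => ?_)
    · obtain ⟨h3, -, -, h6⟩ := mem_BFn.1 (mem_filter.1 he).1
      obtain ⟨v, hv, hcv⟩ := h6 c hc
      exact ⟨v, mem_inter.2 ⟨hv, mem_filter.2 ⟨h3 hv, hcv⟩⟩⟩
    · obtain ⟨h1, h2⟩ := mem_inter.1 hv
      exact mem_filter.2 ⟨h2, (mem_filter.1 h1).2⟩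

/-- the number of points of a residual front for the load `l <= 2` -/
def szn (n l : ℕ) : ℕ := if l = 0 then 0 else if l = 1 then n else (n + 2) ^ 2 / 4

lemma szn_zero (n : ℕ) : szn n 0 = 0 := rfl

lemma szn_one (n : ℕ) : szn n 1 = n := rfl

lemma szn_two (n : ℕ) : szn n 2 = (n + 2) ^ 2 / 4 := rfl

lemma szn_three_two : szn 3 2 = 6 := rfl

lemma szn_four_two : szn 4 2 = 9 := rfl

/-- the cases together: for `l <= 2` residual loads there are at most `szn n l` points -/
theorem Blkn.front {n : ℕ} {C U : Finset V} {k l : ℕ} (h : Blkn G n C U k) {W : Finset V}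
    (hW : W.card + l ≤ k) (hl : l ≤ 2) :
    ∃ P ⊆ U \ W, P.card ≤ szn n l ∧ ∀ c ∈ C, l ≤ dg G P c := by
  interval_cases l
  · exact ⟨∅, empty_subset _, by simp, fun c _ => Nat.zero_le _⟩
  · obtain ⟨e, h1, h2, -, h3⟩ := h.one (W := W) (by omega)
    exact ⟨e, h1, h2, h3⟩
  · exact h.two hW

end Blkn

section JFront

variable {V : Type*} {G : SimpleGraph V} {Z T : Finset V} {hm : V → V} {r m t j : ℕ}

/-- a point of `Z` has one row or two -/
lemma PFrame.card_rws_le (h : PFrame G r m t Z T) {v : V} (hv : v ∈ Z) :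
    (rws G T v).card ≤ 2 := by
  obtain ⟨x, hx⟩ := h.rws_nonempty hv
  rcases h.rws_cases hv hx with h1 | ⟨-, y, -, -, h1⟩
  · rw [h1, card_singleton]
    norm_num
  · rw [h1]
    exact card_le_two

/-- a centre sees every other point with its row -/
lemma adj_ctr {x v : V} (hv : x ∈ rws G T v) (hne : v ≠ x) : G.Adj x v := by
  rcases mem_rws.1 hv with ⟨-, h | ⟨-, h⟩⟩
  · exact absurd h hne
  · exact h.symm

/-- **the witness**: a part `S'` of `S` with the rows `A.erase y` which is not `j`-closed contains an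
independent set of at most `j + 1` points, no centre, which all points of the class part of `y`
see -/
theorem JSys.wit (hF : PFrame G r m t Z T) {A S : Finset V} (h : JSys G Z T j A S) {y : V}
    (hy : y ∈ A) {S' : Finset V} (hS : S' ⊆ S) (hctr : A.erase y ⊆ S')
    (hrow : ∀ v ∈ S', ∃ x ∈ A.erase y, x ∈ rws G T v)
    (hnot : ¬ JSys G Z T j (A.erase y) S') :
    ∃ I ⊆ S' \ A, I.card ≤ j + 1 ∧ Ind G I ∧ (I ∩ BB G Z T).card ≤ j ∧
      I.card = (rwsU G T I ∩ A).card ∧ I.card = (rwsU G T I ∩ A.erase y).card + 1 ∧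
      y ∈ rwsU G T I ∧ ∀ c ∈ S, c ∈ Cl G Z T y → ∃ v ∈ I, G.Adj c v := by
  have hyT := h.sub hy
  -- the violating sets
  set Q : Finset (Finset V) := S'.powerset.filter fun I => Ind G I ∧
    (I ∩ BB G Z T).card ≤ j ∧ (rwsU G T I ∩ A.erase y).card < I.card with hQ
  have hQne : Q.Nonempty := by
    by_contra hcon
    rw [not_nonempty_iff_eq_empty] at hcon
    refine hnot ⟨(erase_subset _ _).trans h.sub, hctr, hS.trans h.subZ, hrow,
      fun J hJ hJi hJc => ?_⟩
    by_contra hlt
    have : J ∈ Q := mem_filter.2 ⟨mem_powerset.2 hJ, hJi, hJc, by omega⟩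
    rw [hcon] at this
    exact absurd this (notMem_empty J)
  obtain ⟨I, hI, hmin⟩ := exists_min_image Q card hQne
  obtain ⟨hIS', hIi, hIc, hIlt⟩ := mem_filter.1 hI
  rw [mem_powerset] at hIS'
  have hIS := hIS'.trans hS
  -- the number of rows
  have hsub1 : rwsU G T I ∩ A ⊆ insert y (rwsU G T I ∩ A.erase y) := by
    intro x hx
    obtain ⟨h1, h2⟩ := mem_inter.1 hx
    by_cases hxy : x = y
    · exact mem_insert.2 (Or.inl hxy)
    · exact mem_insert.2 (Or.inr (mem_inter.2 ⟨h1, mem_erase.2 ⟨hxy, h2⟩⟩))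
  have h1 := h.ind I hIS hIi hIc
  have h2 := (card_le_card hsub1).trans (card_insert_le _ _)
  have hyI : y ∈ rwsU G T I := by
    by_contra hyI
    have h3 : rwsU G T I ∩ A ⊆ rwsU G T I ∩ A.erase y := by
      intro x hx
      obtain ⟨h4, h5⟩ := mem_inter.1 hx
      exact mem_inter.2 ⟨h4, mem_erase.2 ⟨fun h6 => hyI (h6 ▸ h4), h5⟩⟩
    have h4 := card_le_card h3
    omega
  -- every row twice
  have htw : ∀ v ∈ I, rwsU G T I ∩ A.erase y ⊆ rwsU G T (I.erase v) ∩ A.erase y := by
    intro v hv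
    have h3 : I.erase v ∉ Q := by
      intro h3
      have h4 := hmin _ h3
      rw [card_erase_of_mem hv] at h4
      have : 0 < I.card := card_pos.2 ⟨v, hv⟩
      omega
    have h4 : (I.erase v).card ≤ (rwsU G T (I.erase v) ∩ A.erase y).card := by
      by_contra hlt
      refine h3 (mem_filter.2 ⟨mem_powerset.2 ((erase_subset _ _).trans hIS'),
        fun a ha b hb => hIi a (mem_of_mem_erase ha) b (mem_of_mem_erase hb),
        (card_le_card (inter_subset_inter (erase_subset _ _) (Subset.refl _))).trans hIc,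
        by omega⟩)
    rw [card_erase_of_mem hv] at h4
    have h5 : rwsU G T (I.erase v) ∩ A.erase y ⊆ rwsU G T I ∩ A.erase y :=
      inter_subset_inter (rwsU_mono (erase_subset _ _)) (Subset.refl _)
    have h6 := eq_of_subset_of_card_le h5 (by omega)
    rw [h6]
  have htw2 : ∀ x ∈ rwsU G T I ∩ A.erase y, 2 ≤ (I.filter fun v => x ∈ rws G T v).card := by
    intro x hx
    obtain ⟨v, hv, hxv⟩ := mem_rwsU.1 (mem_inter.1 hx).1
    obtain ⟨w, hw, hxw⟩ := mem_rwsU.1 (mem_inter.1 (htw v hv hx)).1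
    obtain ⟨hwv, hw⟩ := mem_erase.1 hw
    have h3 : ({v, w} : Finset V) ⊆ I.filter fun v => x ∈ rws G T v := by
      intro u hu
      simp only [mem_insert, mem_singleton] at hu
      rcases hu with rfl | rfl
      · exact mem_filter.2 ⟨hv, hxv⟩
      · exact mem_filter.2 ⟨hw, hxw⟩
    have h4 := card_le_card h3
    rwa [card_pair hwv.symm] at h4
  -- no centre
  have hnc : Disjoint I A := by
    rw [disjoint_left]
    intro v hv hvA
    have hvT := h.sub hvA
    obtain ⟨x, hx, hxv⟩ := hrow v (hIS' hv)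
    have hxv' : x = v := by
      rw [rws_of_mem hvT, mem_singleton] at hxv
      exact hxv
    subst hxv'
    have hx2 : x ∈ rwsU G T I ∩ A.erase y := mem_inter.2 ⟨mem_rwsU.2 ⟨x, hv, hxv⟩, hx⟩
    obtain ⟨w, hw, hxw⟩ := mem_rwsU.1 (mem_inter.1 (htw x hv hx2)).1
    obtain ⟨hwv, hw⟩ := mem_erase.1 hw
    exact hIi x hv w hw (adj_ctr hxw hwv)
  -- double counting of the rows
  have hcnt : 2 * (rwsU G T I ∩ A.erase y).card
      ≤ ∑ v ∈ I, (rws G T v ∩ A.erase y).card := by
    have h3 : ∑ v ∈ I, (rws G T v ∩ A.erase y).card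
        = ∑ x ∈ rwsU G T I ∩ A.erase y, (I.filter fun v => x ∈ rws G T v).card := by
      have h4 : ∀ v ∈ I, (rws G T v ∩ A.erase y).card
          = ∑ x ∈ rwsU G T I ∩ A.erase y, if x ∈ rws G T v then 1 else 0 := by
        intro v hv
        rw [← card_filter]
        refine congrArg card ?_
        ext x
        rw [mem_inter, mem_filter, mem_inter]
        constructor
        · rintro ⟨h5, h6⟩
          exact ⟨⟨mem_rwsU.2 ⟨v, hv, h5⟩, h6⟩, h5⟩
        · rintro ⟨⟨-, h6⟩, h5⟩
          exact ⟨h5, h6⟩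
      rw [sum_congr rfl h4, sum_comm]
      refine sum_congr rfl fun x _ => ?_
      rw [← card_filter]
    rw [h3, mul_comm]
    rw [← smul_eq_mul, ← sum_const]
    exact sum_le_sum htw2
  -- a point with the row `y`
  obtain ⟨v0, hv0, hyv0⟩ := mem_rwsU.1 hyI
  have hsplit : ∀ v ∈ I, y ∈ rws G T v → v ∈ BB G Z T ∧ (rws G T v ∩ A.erase y).card ≤ 1 := by
    intro v hv hyv
    rcases hF.rws_cases (h.subZ (hIS hv)) hyv with h3 | ⟨h3, z, -, -, h4⟩
    · obtain ⟨x, hx, hxv⟩ := hrow v (hIS' hv)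
      rw [h3, mem_singleton] at hxv
      exact absurd hxv (ne_of_mem_erase hx)
    · refine ⟨h3, ?_⟩
      rw [h4]
      have h5 : ({y, z} : Finset V) ∩ A.erase y ⊆ {z} := by
        intro x hx
        obtain ⟨h6, h7⟩ := mem_inter.1 hx
        simp only [mem_insert, mem_singleton] at h6 ⊢
        rcases h6 with h6 | h6
        · exact absurd h6 (ne_of_mem_erase h7)
        · exact h6
      have h6 := card_le_card h5
      rwa [card_singleton] at h6
  obtain ⟨hv0B, hv0c⟩ := hsplit v0 hv0 hyv0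
  -- at most one class point
  have hcl : (I \ BB G Z T).card ≤ 1 := by
    have h3 : ∀ v ∈ I \ BB G Z T, (rws G T v ∩ A.erase y).card ≤ 1 := by
      intro v hv
      obtain ⟨h4, h5⟩ := mem_sdiff.1 hv
      obtain ⟨x, hx, hxv⟩ := hrow v (hIS' h4)
      rcases hF.rws_cases (h.subZ (hIS h4)) hxv with h6 | ⟨h6, -⟩
      · rw [h6]
        exact (card_le_card inter_subset_left).trans (card_singleton x).le
      · exact absurd h6 h5
    have h4 : ∀ v ∈ I, (rws G T v ∩ A.erase y).card ≤ 2 := fun v hv =>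
      (card_le_card inter_subset_left).trans (hF.card_rws_le (h.subZ (hIS hv)))
    have h5 : insert v0 (I \ BB G Z T) ⊆ I := by
      intro v hv
      rcases mem_insert.1 hv with rfl | hv
      · exact hv0
      · exact (mem_sdiff.1 hv).1
    have h6 : v0 ∉ I \ BB G Z T := fun h7 => (mem_sdiff.1 h7).2 hv0B
    have h7 : ∑ v ∈ I, (rws G T v ∩ A.erase y).card
        = ∑ v ∈ I \ insert v0 (I \ BB G Z T), (rws G T v ∩ A.erase y).card
          + ∑ v ∈ insert v0 (I \ BB G Z T), (rws G T v ∩ A.erase y).card :=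
      (sum_sdiff h5).symm
    have h8 : ∑ v ∈ I \ insert v0 (I \ BB G Z T), (rws G T v ∩ A.erase y).card
        ≤ (I \ insert v0 (I \ BB G Z T)).card * 2 := by
      rw [← smul_eq_mul, ← sum_const]
      exact sum_le_sum fun v hv => h4 v (mem_sdiff.1 hv).1
    have h9 : ∑ v ∈ insert v0 (I \ BB G Z T), (rws G T v ∩ A.erase y).card
        ≤ (insert v0 (I \ BB G Z T)).card * 1 := by
      rw [← smul_eq_mul, ← sum_const]
      refine sum_le_sum fun v hv => ?_
      rcases mem_insert.1 hv with rfl | hv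
      · exact hv0c
      · exact h3 v hv
    have h10 := card_sdiff_add_card_eq_card h5
    rw [card_insert_of_notMem h6] at h9 h10
    omega
  have hcard : I.card ≤ j + 1 := by
    have h3 := card_sdiff_add_card_inter I (BB G Z T)
    omega
  refine ⟨I, fun v hv => mem_sdiff.2 ⟨hIS' hv, disjoint_left.1 hnc hv⟩, hcard, hIi, hIc,
    by omega, by omega, hyI, fun c hc hcC => ?_⟩
  by_contra hcon
  push Not at hcon
  have hrc := rws_Cl hyT hcC
  have hcI : c ∉ I := by
    intro hcI
    obtain ⟨x, hx, hxc⟩ := hrow c (hIS' hcI)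
    rw [hrc, mem_singleton] at hxc
    exact ne_of_mem_erase hx hxc
  have h3 := h.ind (insert c I) (insert_subset hc hIS) (by
    intro a ha b hb
    rcases mem_insert.1 ha with ha' | ha'
    · rcases mem_insert.1 hb with hb' | hb'
      · rw [ha', hb']
        exact G.loopless.irrefl _
      · rw [ha']
        exact hcon b hb'
    · rcases mem_insert.1 hb with hb' | hb'
      · rw [hb']
        exact fun h' => hcon a ha' h'.symm
      · exact hIi a ha' b hb') (by
    refine (card_le_card fun v hv => ?_).trans hIc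
    obtain ⟨h3, h4⟩ := mem_inter.1 hv
    rcases mem_insert.1 h3 with rfl | h3
    · exact absurd h4 (Cl_notMem_BB hyT hcC)
    · exact mem_inter.2 ⟨h3, h4⟩)
  have h4 : rwsU G T (insert c I) ∩ A ⊆ rwsU G T I ∩ A := by
    intro x hx
    obtain ⟨h5, h6⟩ := mem_inter.1 hx
    obtain ⟨v, hv, hxv⟩ := mem_rwsU.1 h5
    rcases mem_insert.1 hv with rfl | hv
    · rw [hrc, mem_singleton] at hxv
      exact mem_inter.2 ⟨hxv ▸ hyI, h6⟩
    · exact mem_inter.2 ⟨mem_rwsU.2 ⟨v, hv, hxv⟩, h6⟩
  have h5 := card_le_card h4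
  rw [card_insert_of_notMem hcI] at h3
  omega

/-- the rows `A.erase y` with a set of points without the slot of `y` and without some other points
which are no centres -/
theorem JSys.wit_homes (hF : PFrame G r m t Z T) {A S : Finset V} (h : JSys G Z T j A S)
    (hh : ∀ v ∈ S, hm v ∈ A ∧ hm v ∈ rws G T v) {y : V} (hy : y ∈ A) {X : Finset V}
    (hX : Disjoint A X)
    (hnot : ¬ JSys G Z T j (A.erase y) ((S.filter fun v => hm v ≠ y) \ X)) :
    ∃ I ⊆ (S.filter fun v => hm v ≠ y ∧ v ∉ A) \ X, I.card ≤ j + 1 ∧ Ind G I ∧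
      (I ∩ BB G Z T).card ≤ j ∧ I.card = (rwsU G T I ∩ A).card ∧
      I.card = (rwsU G T I ∩ A.erase y).card + 1 ∧ y ∈ rwsU G T I ∧
      ∀ c ∈ S, c ∈ Cl G Z T y → ∃ v ∈ I, G.Adj c v := by
  obtain ⟨I, h1, h2⟩ := h.wit hF hy (S' := (S.filter fun v => hm v ≠ y) \ X)
    (sdiff_subset.trans (filter_subset _ _)) (fun z hz => by
      obtain ⟨h3, h4⟩ := mem_erase.1 hz
      refine mem_sdiff.2 ⟨mem_filter.2 ⟨h.ctr h4, fun h5 => h3 ?_⟩, disjoint_left.1 hX h4⟩
      have h6 := (hh z (h.ctr h4)).2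
      rw [h5, rws_of_mem (h.sub h4), mem_singleton] at h6
      exact h6.symm) (fun v hv => by
      obtain ⟨h3, h4⟩ := mem_filter.1 (mem_sdiff.1 hv).1
      obtain ⟨h5, h6⟩ := hh v h3
      exact ⟨hm v, mem_erase.2 ⟨h4, h5⟩, h6⟩) hnot
  refine ⟨I, fun v hv => ?_, h2⟩
  obtain ⟨h3, h4⟩ := mem_sdiff.1 (h1 hv)
  obtain ⟨h5, h6⟩ := mem_sdiff.1 h3
  obtain ⟨h7, h8⟩ := mem_filter.1 h5
  exact mem_sdiff.2 ⟨mem_filter.2 ⟨h7, h8, h4⟩, h6⟩

/-- **the front number of a row**: `b` bounds the points of the `j`-closed systems on `A.erase y`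
inside `S` -/
theorem JSys.blkn (hF : PFrame G r m t Z T) {A S : Finset V} (h : JSys G Z T j A S)
    (hh : ∀ v ∈ S, hm v ∈ A ∧ hm v ∈ rws G T v) {y : V} (hy : y ∈ A) {b : ℕ}
    (hb : ∀ S' ⊆ S, JSys G Z T j (A.erase y) S' → S'.card ≤ b) :
    Blkn G (j + 1) (S.filter fun v => v ∈ Cl G Z T y) (S.filter fun v => hm v ≠ y ∧ v ∉ A)
      (S.card - b - (S.filter fun v => hm v = y).card) := by
  intro X hX
  by_cases hJ : JSys G Z T j (A.erase y) ((S.filter fun v => hm v ≠ y) \ (X \ A))
  · have h1 := hb _ (sdiff_subset.trans (filter_subset _ _)) hJ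
    have h2 : S ⊆ ((S.filter fun v => hm v ≠ y) \ (X \ A)) ∪
        ((S.filter fun v => hm v = y) ∪ X) := by
      intro v hv
      by_cases h3 : hm v = y
      · exact mem_union_right _ (mem_union_left _ (mem_filter.2 ⟨hv, h3⟩))
      by_cases h4 : v ∈ X
      · exact mem_union_right _ (mem_union_right _ h4)
      · exact mem_union_left _ (mem_sdiff.2 ⟨mem_filter.2 ⟨hv, h3⟩,
          fun h5 => h4 (mem_sdiff.1 h5).1⟩)
    have h3 := (card_le_card h2).trans (card_union_le _ _)
    have h4 := card_union_le (S.filter fun v => hm v = y) X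
    omega
  · exfalso
    obtain ⟨I, h1, h2, h3, -, -, -, -, h4⟩ := h.wit_homes hF hh hy
      (disjoint_left.2 fun v hv hv' => (mem_sdiff.1 hv').2 hv) hJ
    have h5 : I ∈ BFn G (j + 1) (S.filter fun v => v ∈ Cl G Z T y)
        (S.filter fun v => hm v ≠ y ∧ v ∉ A) :=
      mem_BFn.2 ⟨h1.trans sdiff_subset, h2, h3, fun c hc =>
        h4 c (mem_filter.1 hc).1 (mem_filter.1 hc).2⟩
    obtain ⟨v, hv⟩ := hX I h5
    obtain ⟨h6, h7⟩ := mem_inter.1 hv
    obtain ⟨h8, h9⟩ := mem_sdiff.1 (h1 h6)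
    exact h9 (mem_sdiff.2 ⟨h7, (mem_filter.1 h8).2.2⟩)

/-- **(D3H) for the slots of homes of a `j`-closed system**, `W` arbitrary, front of at most
`szn (j + 1) l` points -/
theorem JSys.d3h (hF : PFrame G r m t Z T) (hP : PG G r) (hj : 2 ≤ j) {A S : Finset V}
    (h : JSys G Z T j A S) (hh : ∀ v ∈ S, hm v ∈ A ∧ hm v ∈ rws G T v) {y : V} (hy : y ∈ A)
    {b : ℕ} (hb : ∀ S' ⊆ S, JSys G Z T j (A.erase y) S' → S'.card ≤ b)
    {W : Finset V} (hW : Disjoint (S.filter fun v => hm v = y) W) {l : ℕ} (hl : l ≤ 2)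
    (hWl : b + (S.filter fun v => hm v = y).card + W.card + l ≤ S.card) :
    ∃ W' ⊆ S.filter fun v => hm v ≠ y ∧ v ∉ A, Disjoint W W' ∧ W'.card ≤ szn (j + 1) l ∧
      (∀ c ∈ S, c ∈ Cl G Z T y → l ≤ dg G W' c) ∧
      2 * ((r : ℤ) - 1) * (((S.filter fun v => hm v = y).card : ℤ) - r)
        + 2 * ∑ c ∈ S.filter fun v => v ∈ Cl G Z T y, (dg G W c : ℤ)
        + 2 * l * (S.filter fun v => v ∈ Cl G Z T y).card
        + 2 * ∑ v ∈ W ∪ W', (dg G (HP G Z T (fun x => S.filter fun v => hm v = x) y) v : ℤ)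
        ≤ NE G (S.filter fun v => hm v = y) + NE G (W ∪ W')
          + 2 * ((W.card : ℤ) + W'.card)
            * (((S.filter fun v => hm v = y).card : ℤ) - r + 1) := by
  obtain ⟨P, h1, h2, h3⟩ := (h.blkn hF hh hy hb).front (W := W) (l := l) (by omega) hl
  have h4 : P ⊆ S.filter fun v => hm v ≠ y ∧ v ∉ A := h1.trans sdiff_subset
  have h5 : Disjoint W P := by
    rw [disjoint_left]
    intro v hv hv'
    exact (mem_sdiff.1 (h1 hv')).2 hv
  have h6 : Disjoint (S.filter fun v => hm v = y) P := by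
    rw [disjoint_left]
    intro v hv hv'
    exact (mem_filter.1 (h4 hv')).2.1 (mem_filter.1 hv).2
  have hH := h.hsys hF hj
  have hcp := hH.CP_eq hh hy
  have h7 := (hH.csys hF hh).d3h hF hP hy (W := W) (W' := P) (l := l) hW h6 h5 (by
    rw [hcp]
    exact h3)
  rw [hcp] at h7
  exact ⟨P, h4, h5, h2, fun c hc hcC => h3 c (mem_filter.2 ⟨hc, hcC⟩), h7⟩

/-- **the front number of a row in a minimal `j`-closed system, any homes** -/
theorem MQSys.blkn (hF : PFrame G r m t Z T) {A S : Finset V} (h : MQSys r (JSys G Z T j) A S)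
    (hh : ∀ v ∈ S, hm v ∈ A ∧ hm v ∈ rws G T v) {y : V} (hy : y ∈ A) :
    Blkn G (j + 1) (S.filter fun v => v ∈ Cl G Z T y) (S.filter fun v => hm v ≠ y ∧ v ∉ A)
      (r + 1 - (S.filter fun v => hm v = y).card) := by
  have h1 := h.q.blkn hF hh hy (b := (A.erase y).card * r)
    (fun S' _ hJ => h.min _ _ hJ (card_erase_lt_of_mem hy))
  refine h1.mono le_rfl (Subset.refl _) (Subset.refl _) ?_
  have h2 := h.val
  have h3 := card_erase_add_one hy
  have h4 : A.card * r = (A.erase y).card * r + r := by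
    rw [← h3]
    ring
  omega

/-- **(D3H) in a minimal `j`-closed system, any homes**: `W` arbitrary, `|S y| + |W| + l <= r + 1`,
`l <= 2`, front of at most `szn (j + 1) l` points -/
theorem MQSys.d3h (hF : PFrame G r m t Z T) (hP : PG G r) (hj : 2 ≤ j) {A S : Finset V}
    (h : MQSys r (JSys G Z T j) A S) (hh : ∀ v ∈ S, hm v ∈ A ∧ hm v ∈ rws G T v) {y : V}
    (hy : y ∈ A) {W : Finset V} (hW : Disjoint (S.filter fun v => hm v = y) W) {l : ℕ}
    (hl : l ≤ 2) (hWl : (S.filter fun v => hm v = y).card + W.card + l ≤ r + 1) :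
    ∃ W' ⊆ S.filter fun v => hm v ≠ y ∧ v ∉ A, Disjoint W W' ∧ W'.card ≤ szn (j + 1) l ∧
      (∀ c ∈ S, c ∈ Cl G Z T y → l ≤ dg G W' c) ∧
      2 * ((r : ℤ) - 1) * (((S.filter fun v => hm v = y).card : ℤ) - r)
        + 2 * ∑ c ∈ S.filter fun v => v ∈ Cl G Z T y, (dg G W c : ℤ)
        + 2 * l * (S.filter fun v => v ∈ Cl G Z T y).card
        + 2 * ∑ v ∈ W ∪ W', (dg G (HP G Z T (fun x => S.filter fun v => hm v = x) y) v : ℤ)
        ≤ NE G (S.filter fun v => hm v = y) + NE G (W ∪ W')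
          + 2 * ((W.card : ℤ) + W'.card)
            * (((S.filter fun v => hm v = y).card : ℤ) - r + 1) := by
  refine h.q.d3h hF hP hj hh hy (b := (A.erase y).card * r)
    (fun S' _ hJ => h.min _ _ hJ (card_erase_lt_of_mem hy)) hW hl ?_
  have h2 := h.val
  have h3 := card_erase_add_one hy
  have h4 : A.card * r = (A.erase y).card * r + r := by
    rw [← h3]
    ring
  omega

end JFront

end Pool.Agent.Lib.MP_f04ccf_co
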