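import Pool.Agent.Lib.MP_f04ccf_co.M.CmbR
import Pool.Agent.Lib.MP_f04ccf_co.M.JFront

/-!
MP_f04ccf_co, notes 15856 (2), 15973: the row test with located kills and a residual front in a minimal
`j`-closed system.
-/

set_option autoImplicit false

namespace Pool.Agent.Lib.MP_f04ccf_co

open Finset

attribute [local instance] Classical.propDecidable

section CmbJ

variable {V : Type*} {G : SimpleGraph V} {Z T : Finset V} {hm : V → V} {r m t j : ℕ}

/-- the front sizes are at least `l` -/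
lemma le_szn {n l : ℕ} (hn : 1 ≤ n) (hl : l ≤ 2) : l ≤ szn n l := by
  interval_cases l
  · exact Nat.zero_le _
  · rw [szn_one]
    exact hn
  · rw [szn_two, Nat.le_div_iff_mul_le (by norm_num)]
    have : 3 ^ 2 ≤ (n + 2) ^ 2 := Nat.pow_le_pow_left (by omega) 2
    omega

/-- **located kills and residual front in a minimal `j`-closed system**, `q = szn (j + 1) l - l` -/
theorem MQSys.row_loc (hF : PFrame G r m t Z T) (hP : PG G r) (hj : 2 ≤ j) {A S : Finset V}
    (h : MQSys r (JSys G Z T j) A S) (hh : ∀ v ∈ S, hm v ∈ A ∧ hm v ∈ rws G T v) {y : V}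
    (hy : y ∈ A) {W : Finset V} (hW : Disjoint (S.filter fun v => hm v = y) W) {l : ℕ}
    (hl : l ≤ 2) (hWl : (S.filter fun v => hm v = y).card + W.card + l = r + 1) :
    2 * ∑ c ∈ S.filter fun v => v ∈ Cl G Z T y, (dg G W c : ℤ)
      + 2 * ∑ v ∈ W, (dg G (HP G Z T (fun x => S.filter fun v => hm v = x) y) v : ℤ)
      + (2 * ((r : ℤ) - 1) - 2 * ((W.card : ℤ) + l)
          * ((r : ℤ) - 1 - (S.filter fun v => v ∈ Cl G Z T y).card)
        - NE G (S.filter fun v => hm v = y)
        - ((W.card : ℤ) + l) * (3 - ((W.card : ℤ) + l))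
        - (szn (j + 1) l - l) * ((szn (j + 1) l - l) + 3))
      ≤ 2 * (W.card : ℤ) * (S.filter fun v => v ∈ Cl G Z T y).card := by
  obtain ⟨W', h1, h2, h3, h4, -⟩ := h.d3h hF hP hj hh hy hW hl (by omega)
  have h6 : Disjoint (S.filter fun v => hm v = y) W' := by
    rw [disjoint_left]
    intro v hv hv'
    exact (mem_filter.1 (h1 hv')).2.1 (mem_filter.1 hv).2
  have hH : HSys G Z T A S := h.q.hsys hF hj
  have hcp := hH.CP_eq hh hy
  have h7 : l ≤ W'.card :=
    (h4 y (hH.ctr hy) (hF.self_mem_Cl (hH.sub hy))).trans (card_filter_le _ _)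
  have h10 := le_szn (n := j + 1) (l := l) (by omega) hl
  have h8 := (hH.csys hF hh).row_loc hF hP hy (W := W) (W' := W') (l := l)
    (q := szn (j + 1) l - l) hW h6 h2 (by
      rw [hcp]
      exact fun c hc => h4 c (mem_filter.1 hc).1 (mem_filter.1 hc).2) h7 (by omega) hWl
  rw [hcp] at h8
  have h9 : ∑ v ∈ W, (dg G (HP G Z T (fun x => S.filter fun v => hm v = x) y) v : ℤ)
      ≤ ∑ v ∈ W ∪ W', (dg G (HP G Z T (fun x => S.filter fun v => hm v = x) y) v : ℤ) :=
    sum_le_sum_of_subset_of_nonneg subset_union_left fun v _ _ => by positivity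
  rw [Nat.cast_sub h10] at h8
  linarith

/-- the spare row without located kills: `|S y| + l = r + 1`, `l ≤ 2` -/
theorem MQSys.row_small (hF : PFrame G r m t Z T) (hP : PG G r) (hj : 2 ≤ j) {A S : Finset V}
    (h : MQSys r (JSys G Z T j) A S) (hh : ∀ v ∈ S, hm v ∈ A ∧ hm v ∈ rws G T v) {y : V}
    (hy : y ∈ A) {l : ℕ} (hl : l ≤ 2) (hWl : (S.filter fun v => hm v = y).card + l = r + 1) :
    2 * ((r : ℤ) - 1) ≤ 2 * (l : ℤ) * ((r : ℤ) - 1 - (S.filter fun v => v ∈ Cl G Z T y).card)
        + NE G (S.filter fun v => hm v = y) + (l : ℤ) * (3 - l)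
        + (szn (j + 1) l - l) * ((szn (j + 1) l - l) + 3) := by
  have h1 := h.row_loc hF hP hj hh hy (W := ∅) (disjoint_empty_right _) hl (by
    rw [card_empty]
    omega)
  have h2 : ∀ c : V, dg G ∅ c = 0 := fun c => by simp [dg]
  simp only [h2, card_empty, Nat.cast_zero, sum_const_zero, sum_empty, mul_zero, zero_mul,
    zero_add] at h1
  linarith

end CmbJ

end Pool.Agent.Lib.MP_f04ccf_co
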