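import Pool.Agent.Lib.MP_f04ccf_co.M.LegJ
import Pool.Agent.Lib.MP_f04ccf_co.S2Crit

/-!
MP_f04ccf_co: the law for deletion sets of legal shape in the whole frame.  `PFrame.sub_frame`: a set
of points with the rows `B` and independence number at most `B.card` contains a frame of level
`B.card`.  `PFrame.leg_alpha`: the rest after a deletion of legal shape has independence number at
most `B.card`.  `PFrame.leg_low`, `S2C.leg_val`: the law in a frame of least level.
`PFrame.front_low`: the residual front of a row.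
-/

set_option autoImplicit false

namespace Pool.Agent.Lib.MP_f04ccf_co

open Finset

attribute [local instance] Classical.propDecidable

section LegF

variable {V : Type*} {G : SimpleGraph V} {Z T : Finset V} {hm : V → V} {r m t : ℕ}

/-- **a set of points with the rows `B` and independence number `B.card` contains a frame** -/
theorem PFrame.sub_frame (hF : PFrame G r m t Z T) {B W : Finset V} (hB : B ⊆ T) (hW : W ⊆ Z)
    (hBW : B ⊆ W) (ha : AlphaLe G W B.card) (hc : B.card * r + 1 ≤ W.card)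
    (hr : 1 ≤ r) : ∃ Z', PFrame G r m B.card Z' B := by
  obtain ⟨Z', h1, h2, h3⟩ := exists_subsuperset_card_eq hBW
    (show B.card ≤ B.card * r + 1 from (Nat.le_mul_of_pos_right _ hr).trans (Nat.le_succ _)) hc
  refine ⟨Z', h1, fun x hx y hy => hF.ind x (hB hx) y (hB hy), rfl,
    fun I hI hi => ha I (hI.trans h2) hi, h3, fun z hz => ?_, ?_⟩
  · obtain ⟨hz1, hz2⟩ := mem_sdiff.1 hz
    by_cases hzT : z ∈ T
    · have h4 : dg G B z = 0 := by
        unfold dg
        rw [card_eq_zero, filter_eq_empty_iff]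
        exact fun y hy hzy => hF.ind z hzT y (hB hy) hzy
      omega
    · refine le_trans ?_ (hF.k2 z (mem_sdiff.2 ⟨hW (h2 hz1), hzT⟩))
      unfold dg
      exact card_le_card (filter_subset_filter _ hB)
  · refine le_trans (card_le_card ?_) hF.b
    intro z hz
    obtain ⟨⟨hz1, hz2⟩, hz3⟩ := mem_BB.1 hz
    have hzZ : z ∈ Z := hW (h2 hz1)
    have hzT : z ∉ T := by
      intro hzT
      have h4 : dg G B z = 0 := by
        unfold dg
        rw [card_eq_zero, filter_eq_empty_iff]
        exact fun y hy hzy => hF.ind z hzT y (hB hy) hzy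
      omega
    refine mem_BB.2 ⟨⟨hzZ, hzT⟩, le_antisymm (hF.k2 z (mem_sdiff.2 ⟨hzZ, hzT⟩)) ?_⟩
    rw [← hz3]
    unfold dg
    exact card_le_card (filter_subset_filter _ hB)

/-- **the rest after a deletion of legal shape** -/
theorem PFrame.leg_alpha (hF : PFrame G r m t Z T)
    (hS : ∀ v ∈ Z, hm v ∈ T ∧ hm v ∈ rws G T v) {B : Finset V}
    (hB : B ⊆ T) {X : V → V → Finset V} {w : V → V → V → V}
    (hX : ∀ z ∈ T, ∀ y ∈ T, z ≠ y → ∀ a ∈ X z y, w z y a ∈ Z ∧ hm (w z y a) = z ∧
      w z y a ∈ BB G Z T ∧ ends G T (w z y a) = {z, y} ∧ ¬ G.Adj (w z y a) a)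
    {c : V → V} (hc : ∀ z ∈ T \ B, c z ∈ Z ∧ c z ∈ Cl G Z T z) {D : Finset V}
    (hD : LegD G (CP G Z T (slt Z hm)) (HP G Z T (slt Z hm)) (tlo G T hm) X w T B c D) :
    AlphaLe G (Z.filter fun v => hm v ∈ B ∧ (v ∈ B ∨ v ∉ D)) B.card :=
  ((hF.jsys (B.card + 1)).leg hF hS hB hX hc hD).alpha le_rfl

/-- **the law in a frame of least level** -/
theorem PFrame.leg_low (hF : PFrame G r m t Z T) (hr : 1 ≤ r)
    (hlow : ∀ (t' : ℕ) (Z' T' : Finset V), t' < t → ¬ PFrame G r m t' Z' T')
    (hh : Homes G Z T hm) (hS : ∀ v ∈ Z, hm v ∈ T ∧ hm v ∈ rws G T v)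
    {X L : V → V → Finset V} {w : V → V → V → V}
    (hK : KDs (co G) T (CP G Z T (fun x => Z.filter fun v => hm v = x))
      (HP G Z T (fun x => Z.filter fun v => hm v = x)) (tlo G T hm) X L w)
    {B : Finset V} (hB : B ⊂ T) {c : V → V}
    (hc : ∀ z ∈ T \ B, c z ∈ CP G Z T (fun x => Z.filter fun v => hm v = x) z) {D : Finset V}
    (hD : LegD G (CP G Z T (fun x => Z.filter fun v => hm v = x))
      (HP G Z T (fun x => Z.filter fun v => hm v = x)) (tlo G T hm) X w T B c D) :
    ∑ x ∈ B, (((Z.filter fun v => hm v = x).card : ℚ) - r) ≤ D.card := by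
  have h1 := hF.hsys.csys hF hS
  have h2 := hF.leg_alpha hS hB.1 (h1.part_frame hh hK)
    (fun z hz => ⟨(mem_filter.1 (mem_CP.1 (hc z hz)).1).1, (mem_CP.1 (hc z hz)).2⟩) hD
  refine leg_num ?_
  by_contra hlt
  have h4 : B ⊆ Z.filter fun v => hm v ∈ B ∧ (v ∈ B ∨ v ∉ D) := by
    intro z hz
    have h3 := (hS z (hF.sub (hB.1 hz))).2
    rw [rws_of_mem (hB.1 hz), mem_singleton] at h3
    exact mem_filter.2 ⟨hF.sub (hB.1 hz), by rw [h3]; exact hz, Or.inl hz⟩
  obtain ⟨Z', hZ'⟩ := hF.sub_frame hB.1 (filter_subset _ _) h4 h2 (not_le.1 hlt) hr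
  have h5 := card_lt_card hB
  rw [hF.cardT] at h5
  exact hlow _ _ _ h5 hZ'

/-- the same for the critical frame -/
theorem S2C.leg_val (h : S2C G r m t Z T) (hr : 1 ≤ r) (hP : PG G r)
    (hh : Homes G Z T hm) (hS : ∀ v ∈ Z, hm v ∈ T ∧ hm v ∈ rws G T v)
    {X L : V → V → Finset V} {w : V → V → V → V}
    (hK : KDs (co G) T (CP G Z T (fun x => Z.filter fun v => hm v = x))
      (HP G Z T (fun x => Z.filter fun v => hm v = x)) (tlo G T hm) X L w)
    {B : Finset V} (hB : B ⊂ T) {c : V → V}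
    (hc : ∀ z ∈ T \ B, c z ∈ CP G Z T (fun x => Z.filter fun v => hm v = x) z) {D : Finset V}
    (hD : LegD G (CP G Z T (fun x => Z.filter fun v => hm v = x))
      (HP G Z T (fun x => Z.filter fun v => hm v = x)) (tlo G T hm) X w T B c D) :
    ∑ x ∈ B, (((Z.filter fun v => hm v = x).card : ℚ) - r) ≤ D.card :=
  h.toPFrame.leg_low hr (fun t' Z' T' ht' => h.low G t' Z' T' hP ht') hh hS hK hB hc hD

/-- **the front of a row in a frame of least level**: a set `U` with the other centres and more than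
`(t - 1) r` points contains an independent set of `t` points, and every other point of `Z` sees it -/
theorem PFrame.front_low (hF : PFrame G r m t Z T) (hr : 1 ≤ r)
    (hlow : ∀ (t' : ℕ) (Z' T' : Finset V), t' < t → ¬ PFrame G r m t' Z' T')
    {z : V} (hz : z ∈ T) {U : Finset V} (hU : U ⊆ Z) (hT : T.erase z ⊆ U)
    (hc : (t - 1) * r + 1 ≤ U.card) :
    ∃ I ⊆ U, Ind G I ∧ I.card = t ∧ ∀ c ∈ Z, c ∉ I → ∃ v ∈ I, G.Adj c v := by
  have hcard : (T.erase z).card = t - 1 := by rw [card_erase_of_mem hz, hF.cardT]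
  have hpos := hF.pos
  have hna : ¬ AlphaLe G U (T.erase z).card := by
    intro ha
    obtain ⟨Z', hZ'⟩ := hF.sub_frame (erase_subset z T) hU hT ha (by rw [hcard]; exact hc) hr
    exact hlow _ _ _ (by rw [hcard]; omega) hZ'
  unfold AlphaLe at hna
  push Not at hna
  obtain ⟨I, hIU, hI, hIc⟩ := hna
  have hIt : I.card = t := le_antisymm (hF.alpha I (hIU.trans hU) hI) (by rw [hcard] at hIc; omega)
  refine ⟨I, hIU, hI, hIt, fun c hcZ hcI => ?_⟩
  by_contra hcon
  push Not at hcon
  have h1 := hF.alpha (insert c I) (insert_subset hcZ (hIU.trans hU)) (hI.ins hcon)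
  rw [card_insert_of_notMem hcI] at h1
  omega

end LegF

end Pool.Agent.Lib.MP_f04ccf_co
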