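import Pool.Agent.Lib.MP_f04ccf_co.M.Asm
import Pool.Agent.Lib.MP_f04ccf_co.M.CmbJ
import Pool.Agent.Lib.MP_f04ccf_co.M.LegF

/-!
MP_f04ccf_co: the base of the alpha chain (notes 15981, 16013, 16033).  `ACh G r m n Z T`: an `S2`
frame whose level `n` is minimal among the frames with at most `m` doubles.  `PFrame.exists_ach`: it
exists.  `ACh.min_alpha`: proper parts of the centres carry at most `|A| r` points in a set with
independence number at most `|A|`.  `ACh.mqsys`: the whole frame is a minimal `j`-closed system for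
every `j ≥ m`, so the theorems on minimal systems hold for `A = T`, `S = Z`.  `MQSys.blkn_k`,
`MQSys.d3h_k`, `MQSys.row_loc_k`: fronts with at most `k` points, `j + 1 ≤ k` or `A.card ≤ k`;
`ACh.blkn`, `ACh.d3h`, `ACh.row_loc`: fronts with at most `n` points.  `HSys.slots_cap`: the cap for the slots.
`BIC`: the basic integers with the cap, `ACore.bic`.  `final_of_acore`: the assembly.
-/

set_option autoImplicit false

namespace Pool.Agent.Lib.MP_f04ccf_co

open Finset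

attribute [local instance] Classical.propDecidable

section AC

variable {V : Type*} {G : SimpleGraph V} {Z T : Finset V} {hm : V → V} {r m t n j : ℕ}

/-- the frame of least level -/
structure ACh (G : SimpleGraph V) (r m n : ℕ) (Z T : Finset V) : Prop
    extends S2 G r m n Z T where
  low : ∀ (n' : ℕ) (Z' T' : Finset V), n' < n → Z' ⊆ Z → T' ⊆ T → ¬ PFrame G r m n' Z' T'

/-- a sub-frame inside a given set -/
theorem PFrame.sub_frame_in (hF : PFrame G r m t Z T) {B W : Finset V} (hB : B ⊆ T) (hW : W ⊆ Z)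
    (hBW : B ⊆ W) (ha : AlphaLe G W B.card) (hc : B.card * r + 1 ≤ W.card)
    (hr : 1 ≤ r) : ∃ Z', Z' ⊆ W ∧ PFrame G r m B.card Z' B := by
  obtain ⟨Z₀, hZ1, hZ2, hZ3⟩ := exists_subsuperset_card_eq hBW
    (show B.card ≤ B.card * r + 1 from (Nat.le_mul_of_pos_right _ hr).trans (Nat.le_succ _)) hc
  obtain ⟨Z', hZ'⟩ := hF.sub_frame hB (hZ2.trans hW) hZ1 (ha.mono G hZ2) (by omega) hr
  refine ⟨Z₀, hZ2, hZ1, hZ'.ind, rfl, ha.mono G hZ2, hZ3, fun z hz => ?_, ?_⟩
  · obtain ⟨hz1, hz2⟩ := mem_sdiff.1 hz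
    by_cases hzT : z ∈ T
    · have h4 : dg G B z = 0 := by
        unfold dg
        rw [card_eq_zero, filter_eq_empty_iff]
        exact fun y hy hzy => hF.ind z hzT y (hB hy) hzy
      omega
    · exact (dg_mono G hB z).trans (hF.k2 z (mem_sdiff.2 ⟨hW (hZ2 hz1), hzT⟩))
  · refine le_trans (card_le_card ?_) hF.b
    intro z hz
    obtain ⟨⟨hz1, hz2⟩, hz3⟩ := mem_BB.1 hz
    have hzZ : z ∈ Z := hW (hZ2 hz1)
    have hzT : z ∉ T := by
      intro hzT
      have h4 : dg G B z = 0 := by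
        unfold dg
        rw [card_eq_zero, filter_eq_empty_iff]
        exact fun y hy hzy => hF.ind z hzT y (hB hy) hzy
      omega
    refine mem_BB.2 ⟨⟨hzZ, hzT⟩, le_antisymm (hF.k2 z (mem_sdiff.2 ⟨hzZ, hzT⟩)) ?_⟩
    rw [← hz3]
    exact dg_mono G hB z

/-- **the frame of least level is an `S2` frame** -/
theorem PFrame.exists_ach (hr : 2 ≤ r) (hP : PG G r) (hF₀ : PFrame G r m t Z T) (ht : t < r) :
    ∃ n ≤ t, ∃ Z' T', ACh G r m n Z' T' := by
  have h' : ∃ n, ∃ Z' T', PFrame G r m n Z' T' := ⟨t, Z, T, hF₀⟩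
  have hle : Nat.find h' ≤ t := Nat.find_min' h' ⟨Z, T, hF₀⟩
  obtain ⟨n, hn⟩ : ∃ n, n = Nat.find h' := ⟨_, rfl⟩
  obtain ⟨Z', T', hF⟩ := Nat.find_spec h'
  have hlow : ∀ (n' : ℕ) (Z'' T'' : Finset V), n' < n → ¬ PFrame G r m n' Z'' T'' := by
    intro n' Z'' T'' h1 h2
    exact Nat.find_min h' (hn ▸ h1) ⟨Z'', T'', h2⟩
  rw [← hn] at hF hle
  refine ⟨n, hle, Z', T', ⟨hF, by omega, ?_, ?_⟩, fun n' Z'' T'' h _ _ => hlow n' Z'' T'' h⟩
  · intro K hK hKq
    by_contra hlt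
    obtain ⟨K', hK', hKc⟩ := exists_subset_card_eq (show r ≤ K.card by omega)
    have hKq' := hKq.mono hK'
    have hpos := hF.pos
    obtain ⟨s, rfl⟩ : ∃ s, n = s + 1 := ⟨n - 1, by omega⟩
    have ha : AlphaLe G (Z' \ K') s :=
      hP.peel hr hKq' hKc (hK'.trans hK) (by omega) hF.alpha
    have hmeet : ∃ v ∈ T', v ∈ K' := by
      by_contra hcon
      push Not at hcon
      have h1 : ∑ v ∈ T', dg G K' v ≤ s + 1 := by
        rw [← hF.cardT, card_eq_sum_ones]
        exact sum_le_sum fun v hv => hP.line_nbr hr hKq' hKc (hcon v hv)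
      have h2 : ∑ x ∈ K', 1 ≤ ∑ x ∈ K', dg G T' x := by
        refine sum_le_sum fun x hx => hF.k1 (hK (hK' hx)) fun hxT => hcon x hxT hx
      rw [dg_comm, ← card_eq_sum_ones, hKc] at h2
      omega
    obtain ⟨v, hvT, hvK⟩ := hmeet
    exact hlow s _ _ (by omega) (hF.delete (hK'.trans hK) hKc hKq' hvT hvK ha)
  · intro I hI
    by_contra hlt
    obtain ⟨Z'', hZ''⟩ := hF.restrict hI.1 (by omega)
    have h1 : I.card < n := by
      have := card_lt_card hI
      rw [hF.cardT] at this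
      exact this
    exact hlow _ _ _ h1 hZ''

theorem S2.exists_ach (hr : 2 ≤ r) (hP : PG G r) (h : S2 G r m t Z T) :
    ∃ n ≤ t, ∃ Z' T', ACh G r m n Z' T' := h.toPFrame.exists_ach hr hP h.lt

/-- **minimality**: a proper part of the centres, any set of points -/
theorem ACh.min_alpha (h : ACh G r m n Z T) (hr : 1 ≤ r) {A S : Finset V} (hA : A ⊂ T)
    (hAS : A ⊆ S) (hS : S ⊆ Z) (ha : AlphaLe G S A.card) : S.card ≤ A.card * r := by
  by_contra hlt
  obtain ⟨Z', hZS, hZ'⟩ := h.toPFrame.sub_frame_in hA.1 hS hAS ha (by omega) hr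
  refine h.low _ _ _ ?_ (hZS.trans hS) hA.1 hZ'
  have := card_lt_card hA
  rwa [h.cardT] at this

/-- **the whole frame is a minimal `j`-closed system for every `j ≥ m`** -/
theorem ACh.mqsys (h : ACh G r m n Z T) (hr : 1 ≤ r) (h2 : 2 ≤ n) (hj : m ≤ j) :
    MQSys r (JSys G Z T j) T Z := by
  refine ⟨h.toPFrame.jsys j, by rw [h.cardT]; exact h2, by rw [h.cardT]; exact h.cardZ,
    fun B S' hB hlt => ?_⟩
  refine h.min_alpha hr (hB.sub.ssubset_of_ne fun h1 => ?_) hB.ctr hB.subZ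
    (hB.alpha_of_BB ((card_le_card inter_subset_right).trans (h.b.trans hj)))
  rw [h1] at hlt
  exact lt_irrefl _ hlt

/-- **the front number of a row in a minimal `j`-closed system**, members with at most `k` points,
`j + 1 ≤ k` or `A.card ≤ k` -/
theorem MQSys.blkn_k (hF : PFrame G r m t Z T) {A S : Finset V}
    (h : MQSys r (JSys G Z T j) A S) (hh : ∀ v ∈ S, hm v ∈ A ∧ hm v ∈ rws G T v) {y : V}
    (hy : y ∈ A) {k : ℕ} (hk : j + 1 ≤ k ∨ A.card ≤ k) :
    Blkn G k (S.filter fun v => v ∈ Cl G Z T y)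
      (S.filter fun v => hm v ≠ y ∧ v ∉ A) (r + 1 - (S.filter fun v => hm v = y).card) := by
  intro X hX
  by_cases hJ : JSys G Z T j (A.erase y) ((S.filter fun v => hm v ≠ y) \ (X \ A))
  · have h1 := h.min _ _ hJ (card_erase_lt_of_mem hy)
    have h2 : S ⊆ ((S.filter fun v => hm v ≠ y) \ (X \ A)) ∪
        ((S.filter fun v => hm v = y) ∪ X) := by
      intro v hv
      by_cases h3 : hm v = y
      · exact mem_union_right _ (mem_union_left _ (mem_filter.2 ⟨hv, h3⟩))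
      by_cases h4 : v ∈ X
      · exact mem_union_right _ (mem_union_right _ h4)
      · exact mem_union_left _ (mem_sdiff.2 ⟨mem_filter.2 ⟨hv, h3⟩,
          fun h5 => h4 (mem_sdiff.1 h5).1⟩)
    have h3 := (card_le_card h2).trans (card_union_le _ _)
    have h4 := card_union_le (S.filter fun v => hm v = y) X
    have h5 := h.val
    have h6 := card_erase_add_one hy
    have h7 : A.card * r = (A.erase y).card * r + r := by
      rw [← h6]
      ring
    omega
  · exfalso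
    obtain ⟨I, h1, h2, h3, -, h5, -, -, h4⟩ := h.q.wit_homes hF hh hy
      (disjoint_left.2 fun v hv hv' => (mem_sdiff.1 hv').2 hv) hJ
    have h6 : I.card ≤ A.card := h5.le.trans (card_le_card inter_subset_right)
    have h7 : I ∈ BFn G k (S.filter fun v => v ∈ Cl G Z T y)
        (S.filter fun v => hm v ≠ y ∧ v ∉ A) :=
      mem_BFn.2 ⟨h1.trans sdiff_subset, hk.elim h2.trans h6.trans, h3, fun c hc =>
        h4 c (mem_filter.1 hc).1 (mem_filter.1 hc).2⟩
    obtain ⟨v, hv⟩ := hX I h7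
    obtain ⟨h8, h9⟩ := mem_inter.1 hv
    obtain ⟨h10, h11⟩ := mem_sdiff.1 (h1 h8)
    exact h11 (mem_sdiff.2 ⟨h9, (mem_filter.1 h10).2.2⟩)

/-- **(D3H) in a minimal `j`-closed system, any homes**: front of at most `szn k l` points,
`j + 1 ≤ k` or `A.card ≤ k` -/
theorem MQSys.d3h_k (hF : PFrame G r m t Z T) (hP : PG G r) (hj : 2 ≤ j) {A S : Finset V}
    (h : MQSys r (JSys G Z T j) A S) (hh : ∀ v ∈ S, hm v ∈ A ∧ hm v ∈ rws G T v) {y : V}
    (hy : y ∈ A) {k : ℕ} (hk : j + 1 ≤ k ∨ A.card ≤ k) {W : Finset V}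
    (hW : Disjoint (S.filter fun v => hm v = y) W) {l : ℕ}
    (hl : l ≤ 2) (hWl : (S.filter fun v => hm v = y).card + W.card + l ≤ r + 1) :
    ∃ W' ⊆ S.filter fun v => hm v ≠ y ∧ v ∉ A, Disjoint W W' ∧ W'.card ≤ szn k l ∧
      (∀ c ∈ S, c ∈ Cl G Z T y → l ≤ dg G W' c) ∧
      2 * ((r : ℤ) - 1) * (((S.filter fun v => hm v = y).card : ℤ) - r)
        + 2 * ∑ c ∈ S.filter fun v => v ∈ Cl G Z T y, (dg G W c : ℤ)
        + 2 * l * (S.filter fun v => v ∈ Cl G Z T y).card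
        + 2 * ∑ v ∈ W ∪ W', (dg G (HP G Z T (fun x => S.filter fun v => hm v = x) y) v : ℤ)
        ≤ NE G (S.filter fun v => hm v = y) + NE G (W ∪ W')
          + 2 * ((W.card : ℤ) + W'.card)
            * (((S.filter fun v => hm v = y).card : ℤ) - r + 1) := by
  obtain ⟨P, h1, h2, h3⟩ := (h.blkn_k hF hh hy hk).front (W := W) (l := l) (by omega) hl
  have h4 : P ⊆ S.filter fun v => hm v ≠ y ∧ v ∉ A := h1.trans sdiff_subset
  have h5 : Disjoint W P := by
    rw [disjoint_left]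
    intro v hv hv'
    exact (mem_sdiff.1 (h1 hv')).2 hv
  have h6 : Disjoint (S.filter fun v => hm v = y) P := by
    rw [disjoint_left]
    intro v hv hv'
    exact (mem_filter.1 (h4 hv')).2.1 (mem_filter.1 hv).2
  have hH := h.q.hsys hF hj
  have hcp := hH.CP_eq hh hy
  have h7 := (hH.csys hF hh).d3h hF hP hy (W := W) (W' := P) (l := l) hW h6 h5 (by
    rw [hcp]
    exact h3)
  rw [hcp] at h7
  exact ⟨P, h4, h5, h2, fun c hc hcC => h3 c (mem_filter.2 ⟨hc, hcC⟩), h7⟩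

/-- **located kills and residual front in a minimal `j`-closed system**, `q = szn k l - l`,
`1 ≤ k`, `j + 1 ≤ k` or `A.card ≤ k` -/
theorem MQSys.row_loc_k (hF : PFrame G r m t Z T) (hP : PG G r) (hj : 2 ≤ j) {A S : Finset V}
    (h : MQSys r (JSys G Z T j) A S) (hh : ∀ v ∈ S, hm v ∈ A ∧ hm v ∈ rws G T v) {y : V}
    (hy : y ∈ A) {k : ℕ} (hk0 : 1 ≤ k) (hk : j + 1 ≤ k ∨ A.card ≤ k) {W : Finset V}
    (hW : Disjoint (S.filter fun v => hm v = y) W) {l : ℕ}
    (hl : l ≤ 2) (hWl : (S.filter fun v => hm v = y).card + W.card + l = r + 1) :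
    2 * ∑ c ∈ S.filter fun v => v ∈ Cl G Z T y, (dg G W c : ℤ)
      + 2 * ∑ v ∈ W, (dg G (HP G Z T (fun x => S.filter fun v => hm v = x) y) v : ℤ)
      + (2 * ((r : ℤ) - 1) - 2 * ((W.card : ℤ) + l)
          * ((r : ℤ) - 1 - (S.filter fun v => v ∈ Cl G Z T y).card)
        - NE G (S.filter fun v => hm v = y)
        - ((W.card : ℤ) + l) * (3 - ((W.card : ℤ) + l))
        - (szn k l - l) * ((szn k l - l) + 3))
      ≤ 2 * (W.card : ℤ) * (S.filter fun v => v ∈ Cl G Z T y).card := by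
  obtain ⟨W', h1, h2, h3, h4, -⟩ := h.d3h_k hF hP hj hh hy hk hW hl (by omega)
  have h6 : Disjoint (S.filter fun v => hm v = y) W' := by
    rw [disjoint_left]
    intro v hv hv'
    exact (mem_filter.1 (h1 hv')).2.1 (mem_filter.1 hv).2
  have hH : HSys G Z T A S := h.q.hsys hF hj
  have hcp := hH.CP_eq hh hy
  have h7 : l ≤ W'.card :=
    (h4 y (hH.ctr hy) (hF.self_mem_Cl (hH.sub hy))).trans (card_filter_le _ _)
  have h10 := le_szn (n := k) (l := l) hk0 hl
  have h8 := (hH.csys hF hh).row_loc hF hP hy (W := W) (W' := W') (l := l)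
    (q := szn k l - l) hW h6 h2 (by
      rw [hcp]
      exact fun c hc => h4 c (mem_filter.1 hc).1 (mem_filter.1 hc).2) h7 (by omega) hWl
  rw [hcp] at h8
  have h9 : ∑ v ∈ W, (dg G (HP G Z T (fun x => S.filter fun v => hm v = x) y) v : ℤ)
      ≤ ∑ v ∈ W ∪ W', (dg G (HP G Z T (fun x => S.filter fun v => hm v = x) y) v : ℤ) :=
    sum_le_sum_of_subset_of_nonneg subset_union_left fun v _ _ => by positivity
  rw [Nat.cast_sub h10] at h8
  linarith

/-- **the front number of a row in the frame of least level**: members with at most `n` points -/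
theorem ACh.blkn (h : ACh G r m n Z T) (hr : 1 ≤ r) (h2 : 2 ≤ n)
    (hh : ∀ v ∈ Z, hm v ∈ T ∧ hm v ∈ rws G T v) {y : V} (hy : y ∈ T) :
    Blkn G n (Z.filter fun v => v ∈ Cl G Z T y) (Z.filter fun v => hm v ≠ y ∧ v ∉ T)
      (r + 1 - (Z.filter fun v => hm v = y).card) := by
  exact (h.mqsys hr h2 (le_max_left m n)).blkn_k h.toPFrame hh hy (Or.inr h.cardT.le)

/-- **(D3H) in the frame of least level**: front of at most `szn n l` points -/
theorem ACh.d3h (h : ACh G r m n Z T) (hr : 1 ≤ r) (hP : PG G r) (h2 : 2 ≤ n)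
    (hh : ∀ v ∈ Z, hm v ∈ T ∧ hm v ∈ rws G T v) {y : V} (hy : y ∈ T) {W : Finset V}
    (hW : Disjoint (Z.filter fun v => hm v = y) W) {l : ℕ} (hl : l ≤ 2)
    (hWl : (Z.filter fun v => hm v = y).card + W.card + l ≤ r + 1) :
    ∃ W' ⊆ Z.filter fun v => hm v ≠ y ∧ v ∉ T, Disjoint W W' ∧ W'.card ≤ szn n l ∧
      (∀ c ∈ Z, c ∈ Cl G Z T y → l ≤ dg G W' c) ∧
      2 * ((r : ℤ) - 1) * (((Z.filter fun v => hm v = y).card : ℤ) - r)
        + 2 * ∑ c ∈ Z.filter fun v => v ∈ Cl G Z T y, (dg G W c : ℤ)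
        + 2 * l * (Z.filter fun v => v ∈ Cl G Z T y).card
        + 2 * ∑ v ∈ W ∪ W', (dg G (HP G Z T (fun x => Z.filter fun v => hm v = x) y) v : ℤ)
        ≤ NE G (Z.filter fun v => hm v = y) + NE G (W ∪ W')
          + 2 * ((W.card : ℤ) + W'.card)
            * (((Z.filter fun v => hm v = y).card : ℤ) - r + 1) := by
  exact (h.mqsys hr h2 (le_max_left m n)).d3h_k h.toPFrame hP
    (h2.trans (le_max_right m n)) hh hy (Or.inr h.cardT.le) hW hl hWl

/-- **located kills and residual front in the frame of least level**, `q = szn n l - l` -/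
theorem ACh.row_loc (h : ACh G r m n Z T) (hr : 1 ≤ r) (hP : PG G r) (h2 : 2 ≤ n)
    (hh : ∀ v ∈ Z, hm v ∈ T ∧ hm v ∈ rws G T v) {y : V} (hy : y ∈ T) {W : Finset V}
    (hW : Disjoint (Z.filter fun v => hm v = y) W) {l : ℕ} (hl : l ≤ 2)
    (hWl : (Z.filter fun v => hm v = y).card + W.card + l = r + 1) :
    2 * ∑ c ∈ Z.filter fun v => v ∈ Cl G Z T y, (dg G W c : ℤ)
      + 2 * ∑ v ∈ W, (dg G (HP G Z T (fun x => Z.filter fun v => hm v = x) y) v : ℤ)
      + (2 * ((r : ℤ) - 1) - 2 * ((W.card : ℤ) + l)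
          * ((r : ℤ) - 1 - (Z.filter fun v => v ∈ Cl G Z T y).card)
        - NE G (Z.filter fun v => hm v = y)
        - ((W.card : ℤ) + l) * (3 - ((W.card : ℤ) + l))
        - (szn n l - l) * ((szn n l - l) + 3))
      ≤ 2 * (W.card : ℤ) * (Z.filter fun v => v ∈ Cl G Z T y).card := by
  exact (h.mqsys hr h2 (le_max_left m n)).row_loc_k h.toPFrame hP
    (h2.trans (le_max_right m n)) hh hy (by omega) (Or.inr h.cardT.le) hW hl hWl

/-- the missing pairs of a closed system with homes, in terms of the slots -/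
theorem CSys.NE_slots_eq {A : Finset V} {S : V → Finset V} (h : CSys G Z T hm A S) :
    (NE G (A.biUnion S) : ℤ)
      + ∑ x ∈ A, ∑ y ∈ A.erase x, ∑ v ∈ S y, (dg G (S x) v : ℤ)
      + ∑ x ∈ A, ((S x).card : ℤ) ^ 2
      = ∑ x ∈ A, (NE G (S x) : ℤ) + (∑ x ∈ A, ((S x).card : ℤ)) ^ 2 := by
  have hd : ∀ x ∈ A, ∀ y ∈ A, x ≠ y → Disjoint (S x) (S y) := fun x hx y hy hxy =>
    h.disj hx hy hxy
  have hNE := NE_biUnion (G := G) A S ∅ hd (fun _ _ => disjoint_empty_right _)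
  have e0 : (NE G (∅ : Finset V) : ℤ) = 0 := by
    have : NE G (∅ : Finset V) = 0 := rfl
    rw [this]
    rfl
  rw [empty_union, e0] at hNE
  simp only [sum_empty, sum_const_zero, mul_zero, add_zero, zero_add] at hNE
  have h4 := h.nd_cross (Subset.refl A) fun _ => 1
  simp only [one_mul] at h4
  have h3 : ∑ x ∈ A, ∑ y ∈ A.erase x, ((S x).card : ℤ) * (S y).card
      = (∑ x ∈ A, ((S x).card : ℤ)) ^ 2 - ∑ x ∈ A, ((S x).card : ℤ) ^ 2 := by
    rw [sum_offdiag A fun x y => ((S x).card : ℤ) * (S y).card, sq (∑ x ∈ A, _), sum_mul_sum]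
    congr 1
    exact sum_congr rfl fun x _ => by ring
  rw [h4, h3] at hNE
  linarith

/-- **the cap for the slots** of a home-free closed system with `A.card * r + 1` points and
independence number at most `A.card`: `2 (|A| - 1) R` better than (P) -/
theorem HSys.slots_cap (hF : PFrame G r m t Z T) (hC : CAP G r) {A S : Finset V}
    (h : HSys G Z T A S) (hv : S.card = A.card * r + 1) (ha : AlphaLe G S A.card)
    (hh : ∀ v ∈ S, hm v ∈ A ∧ hm v ∈ rws G T v) :
    ∑ x ∈ A, ∑ y ∈ A.erase x, EI G hm S x y + ∑ x ∈ A, sI hm r S x ^ 2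
      + 2 * ((A.card : ℤ) - 1) * ((r : ℤ) - 1)
      ≤ 2 * ∑ x ∈ A, eI G hm S x + ((A.card : ℤ) ^ 2 - A.card - 2) * r + 2 * A.card + 1 := by
  have h1 := (h.csys hF hh).NE_slots_eq
  have h2 := hC.ne ha hv
  have h3 : (A.biUnion fun x => S.filter fun v => hm v = x) = S := by
    ext v
    rw [mem_biUnion]
    constructor
    · rintro ⟨x, -, hx⟩
      exact (mem_filter.1 hx).1
    · intro hv'
      exact ⟨hm v, (hh v hv').1, mem_filter.2 ⟨hv', rfl⟩⟩
  have h4 : ∑ x ∈ A, sI hm r S x = 1 := by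
    rw [HSys.sum_sI (G := G) (T := T) hh, hv]
    push_cast
    ring
  have h5 : ∑ x ∈ A, (((S.filter fun v => hm v = x).card : ℕ) : ℤ)
      = ∑ x ∈ A, sI hm r S x + A.card * r := by
    rw [sum_congr rfl fun x _ => card_slot_eq (hm := hm) (r := r) S x, sum_add_distrib, sum_const,
      nsmul_eq_mul]
    ring
  have h6 : ∑ x ∈ A, (((S.filter fun v => hm v = x).card : ℕ) : ℤ) ^ 2
      = ∑ x ∈ A, sI hm r S x ^ 2 + 2 * r * ∑ x ∈ A, sI hm r S x + A.card * r ^ 2 := by
    rw [sum_congr rfl fun x _ => show (((S.filter fun v => hm v = x).card : ℕ) : ℤ) ^ 2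
      = sI hm r S x ^ 2 + 2 * r * sI hm r S x + (r : ℤ) ^ 2 by
        rw [card_slot_eq (hm := hm) (r := r) S x]
        ring]
    rw [sum_add_distrib, sum_add_distrib, ← mul_sum, sum_const, nsmul_eq_mul]
  have h7 : ∑ x ∈ A, (NE G (S.filter fun v => hm v = x) : ℤ) = 2 * ∑ x ∈ A, eI G hm S x := by
    rw [mul_sum]
    exact sum_congr rfl fun x _ => (two_eI S x).symm
  have h8 : ∑ x ∈ A, ∑ y ∈ A.erase x, ∑ v ∈ S.filter fun v => hm v = y,
      (dg G (S.filter fun v => hm v = x) v : ℤ) = ∑ x ∈ A, ∑ y ∈ A.erase x, EI G hm S x y := rfl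
  rw [h3, h5, h6, h7, h8, h4] at h1
  generalize ∑ x ∈ A, ∑ y ∈ A.erase x, EI G hm S x y = a1 at *
  generalize ∑ x ∈ A, sI hm r S x ^ 2 = a2 at *
  generalize ∑ x ∈ A, eI G hm S x = a3 at *
  nlinarith

end AC

/-! ### the integers with the cap -/

section Ints

/-- the basic integers with the cap -/
structure BIC (R : ℤ) (n : ℕ) (t s h e : ℕ → ℤ) (E : ℕ → ℕ → ℤ) : Prop extends
    BI R n t s h e E where
  C : ∑ i ∈ range n, ∑ j ∈ (range n).erase i, E i j + ∑ i ∈ range n, s i ^ 2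
    + 2 * ((n : ℤ) - 1) * R
    ≤ 2 * ∑ i ∈ range n, e i + ((n : ℤ) ^ 2 - n - 2) * (R + 1) + 2 * n + 1

end Ints

section ACore

variable {V : Type*} {G : SimpleGraph V} {Z T : Finset V} {hm : V → V} {r m n j p : ℕ}

/-- **the basic integers of a closed system with the cap** -/
theorem HSys.bic (hF : S2 G r m n Z T) (hPG : PG G r) (hPM : PM G r) (hC : CAP G r) (hb : m ≤ r)
    {A S : Finset V} (h : HSys G Z T A S) (h2 : 2 ≤ A.card) (hv : S.card = A.card * r + 1)
    (ha : AlphaLe G S A.card) (hh : ∀ v ∈ S, hm v ∈ A ∧ hm v ∈ rws G T v) :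
    ∃ (ρ : V → ℕ) (σ : ℕ → V), Rank A (tI G Z T hm r S) ρ σ ∧
      BIC ((r : ℤ) - 1) A.card (fun i => tI G Z T hm r S (σ i)) (fun i => sI hm r S (σ i))
        (fun i => hI G Z T hm S (σ i)) (fun i => eI G hm S (σ i))
        (fun i j => EI G hm S (σ i) (σ j)) := by
  obtain ⟨ρ, σ, hσ, hB⟩ := h.bi hF hPG hPM hb h2 hv hh
  refine ⟨ρ, σ, hσ, hB, ?_⟩
  have h1 := h.slots_cap hF.toPFrame hC hv ha hh
  have e1 : (range A.card).image σ = A := by
    refine eq_of_subset_of_card_le (hσ.image_sub (Subset.refl _)) ?_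
    rw [hσ.card_image (Subset.refl _), card_range]
  have e2 := hσ.sum2_im (Subset.refl (range A.card)) (EI G hm S)
  rw [e1] at e2
  rw [e2, hσ.sum (eI G hm S), hσ.sum fun x => sI hm r S x ^ 2] at h1
  have er : (r : ℤ) - 1 + 1 = r := by ring
  rw [er]
  exact h1

variable (G Z T r m n) in
/-- the data of the alpha chain: a frame of least level in a graph with the properties `GP`, with
homes of least weight (weights `p`, `1`) -/
structure ACore (p : ℕ) (hm : V → V) : Prop extends FCore G Z T r m n where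
  low : ∀ (n' : ℕ) (Z' T' : Finset V), n' < n → Z' ⊆ Z → T' ⊆ T → ¬ PFrame G r m n' Z' T'
  H : WHomes G Z T p 1 T Z hm

lemma ACore.ach (h : ACore G Z T r m n p hm) : ACh G r m n Z T := ⟨h.F, h.low⟩

lemma ACore.five (h : ACore G Z T r m n p hm) : 5 ≤ n := h.toFCore.five_t

lemma ACore.hh (h : ACore G Z T r m n p hm) : ∀ v ∈ Z, hm v ∈ T ∧ hm v ∈ rws G T v := h.H.ok

lemma ACore.mqsys (h : ACore G Z T r m n p hm) (hj : m ≤ j) : MQSys r (JSys G Z T j) T Z :=
  h.ach.mqsys (by have := h.hr; omega) (by have := h.five; omega) hj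

/-- **the data of the `j`-chain hold for `A = T`, `S = Z` and every `j ≥ m`, `j ≥ 2`** -/
theorem ACore.core (h : ACore G Z T r m n p hm) (hj : m ≤ j) (h2 : 2 ≤ j) :
    Core G Z T r m n j p T Z hm :=
  { h.toFCore with
    hj := h2
    Q := h.mqsys hj
    three := by
      rw [h.F.cardT]
      have := h.five
      omega
    H := h.H }

lemma ACore.hsys (h : ACore G Z T r m n p hm) : HSys G Z T T Z := h.F.toPFrame.hsys

/-- the basic integers with the cap -/
theorem ACore.bic (h : ACore G Z T r m n p hm) :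
    ∃ (ρ : V → ℕ) (σ : ℕ → V), Rank T (tI G Z T hm r Z) ρ σ ∧
      BIC ((r : ℤ) - 1) n (fun i => tI G Z T hm r Z (σ i)) (fun i => sI hm r Z (σ i))
        (fun i => hI G Z T hm Z (σ i)) (fun i => eI G hm Z (σ i))
        (fun i j => EI G hm Z (σ i) (σ j)) := by
  have h1 := h.hsys.bic h.F h.gp.P h.gp.M h.gp.cap h.hmr (by
    rw [h.F.cardT]
    have := h.five
    omega) (by rw [h.F.cardT]; exact h.F.cardZ) (by rw [h.F.cardT]; exact h.F.alpha) h.hh
  rwa [h.F.cardT] at h1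

/-- the row test with the fronts of `n` points -/
theorem ACore.row_loc (h : ACore G Z T r m n p hm) {y : V} (hy : y ∈ T) {W : Finset V}
    (hW : Disjoint (Z.filter fun v => hm v = y) W) {l : ℕ} (hl : l ≤ 2)
    (hWl : (Z.filter fun v => hm v = y).card + W.card + l = r + 1) :
    2 * ∑ c ∈ Z.filter fun v => v ∈ Cl G Z T y, (dg G W c : ℤ)
      + 2 * ∑ v ∈ W, (dg G (HP G Z T (fun x => Z.filter fun v => hm v = x) y) v : ℤ)
      + (2 * ((r : ℤ) - 1) - 2 * ((W.card : ℤ) + l)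
          * ((r : ℤ) - 1 - (Z.filter fun v => v ∈ Cl G Z T y).card)
        - NE G (Z.filter fun v => hm v = y)
        - ((W.card : ℤ) + l) * (3 - ((W.card : ℤ) + l))
        - (szn n l - l) * ((szn n l - l) + 3))
      ≤ 2 * (W.card : ℤ) * (Z.filter fun v => v ∈ Cl G Z T y).card :=
  h.ach.row_loc (by have := h.hr; omega) h.gp.P (by have := h.five; omega) h.hh hy hW hl hWl

/-- **a frame gives a frame of least level with homes of least weight** -/
theorem FCore.exists_acore {t : ℕ} (h : FCore G Z T r m t) (p : ℕ) :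
    ∃ n ≤ t, ∃ Z' T' hm, ACore G Z' T' r m n p hm := by
  have hr := h.hr
  have hm := h.hmr
  obtain ⟨n, hn, Z', T', hA⟩ := h.F.exists_ach (by omega) h.gp.P
  have h5 := S2.five_le (by omega) h.gp.P h.gp.cap hA.toS2
  obtain ⟨hm, hH⟩ := hA.toS2.toPFrame.hsys.exists_whomes p 1
  exact ⟨n, hn, Z', T', hm, ⟨hr, h.gp, hA.toS2, h.hmr, by omega⟩, hA.low, hH⟩

/-- **the frozen statement from the absence of frames, of minimal `j`-closed systems, or of frames of
least level, at every `r ≥ 9`** -/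
theorem final_of_acore (J p : ℕ → ℕ) (hJ : ∀ r, 9 ≤ r → 2 ≤ J r)
    (hS : ∀ (r : ℕ), 9 ≤ r →
      (∀ (G : SimpleGraph (Fin (r ^ 2 + 1))) (m t : ℕ) (Z T : Finset (Fin (r ^ 2 + 1))),
        ¬ FCore G Z T r m t) ∨
      (∀ (G : SimpleGraph (Fin (r ^ 2 + 1))) (m t : ℕ)
        (Z T A S : Finset (Fin (r ^ 2 + 1))) (hm : Fin (r ^ 2 + 1) → Fin (r ^ 2 + 1)),
        ¬ Core G Z T r m t (J r) (p r) A S hm) ∨
      ∀ (G : SimpleGraph (Fin (r ^ 2 + 1))) (m n : ℕ)
        (Z T : Finset (Fin (r ^ 2 + 1))) (hm : Fin (r ^ 2 + 1) → Fin (r ^ 2 + 1)),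
        ¬ ACore G Z T r m n (p r) hm) :
    ∀ r : ℕ, 3 ≤ r → ∀ c : Fin (r ^ 2 + 1) → Fin (r ^ 2 + 1) → Fin r,
      (∀ x y, c x y = c y x) →
      ∃ S : Finset (Fin (r ^ 2 + 1)), S.card = r + 1 ∧
        ∃ k : Fin r, ∀ x ∈ S, ∀ y ∈ S, x ≠ y → c x y ≠ k := by
  refine final_of_core J p hJ fun r hr => ?_
  rcases hS r hr with h | h | h
  · exact Or.inl h
  · exact Or.inr h
  · left
    intro G m t Z T hC
    obtain ⟨n, -, Z', T', hm, hA⟩ := hC.exists_acore (p r)
    exact h G m n Z' T' hm hA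

end ACore

end Pool.Agent.Lib.MP_f04ccf_co
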