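import Pool.Agent.Lib.MP_f04ccf_co.S2Prod

/-!
MP_f04ccf_co: the additions calculus of helper19 (note 15155), the exact account.  An addition at the
row `w` is a set `J` outside the slot `C w ∪ H w` which covers the clique `C w`.  Its budget is
`R + (|J| - 1) (R - |C w|)`, `R = r - 1`.
-/

set_option autoImplicit false

namespace Pool.Agent.Lib.MP_f04ccf_co

open Finset

attribute [local instance] Classical.propDecidable

section Add

variable {V : Type*} {G : SimpleGraph V} {r : ℕ}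

lemma dg_co_add {C : Finset V} {y : V} (hy : y ∉ C) : dg (co G) C y + dg G C y = C.card := by
  unfold dg
  rw [← card_union_of_disjoint, ← filter_or]
  · rw [filter_true_of_mem]
    intro c hc
    by_cases h : G.Adj y c
    · exact Or.inr h
    · exact Or.inl (co_adj.2 ⟨fun h' => hy (h' ▸ hc), h⟩)
  · rw [disjoint_filter]
    intro c _ h1 h2
    exact (co_adj.1 h1).2 h2

/-- the budget of an addition -/
lemma cover_budget {C J : Finset V} (hd : Disjoint C J) (hcov : ∀ c ∈ C, ∃ y ∈ J, G.Adj c y) :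
    ((r : ℤ) - 1) + ((J.card : ℤ) - 1) * ((r : ℤ) - 1 - C.card)
      ≤ ∑ y ∈ J, ((r : ℤ) - 1 - dg (co G) C y) := by
  have h1 : C.card ≤ ∑ y ∈ J, dg G C y := by
    rw [dg_comm, card_eq_sum_ones]
    refine sum_le_sum fun c hc => ?_
    obtain ⟨y, hy, hcy⟩ := hcov c hc
    exact card_pos.2 ⟨y, mem_filter.2 ⟨hy, hcy⟩⟩
  have h2 : ∑ y ∈ J, ((r : ℤ) - 1 - dg (co G) C y)
      = (J.card : ℤ) * ((r : ℤ) - 1 - C.card) + ((∑ y ∈ J, dg G C y : ℕ) : ℤ) := by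
    rw [← nsmul_eq_mul, ← sum_const]
    push_cast
    rw [← sum_add_distrib]
    refine sum_congr rfl fun y hy => ?_
    have h3 := dg_co_add (G := G) (fun h => disjoint_left.1 hd h hy : y ∉ C)
    have h4 : (dg (co G) C y : ℤ) + dg G C y = C.card := by exact_mod_cast h3
    linarith
  have h3 : (C.card : ℤ) ≤ ((∑ y ∈ J, dg G C y : ℕ) : ℤ) := by exact_mod_cast h1
  rw [h2]
  nlinarith

/-- the additions at one row -/
theorem PG.additions (hP : PG G r) {C H : Finset V} (𝒥 : Finset (Finset V))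
    (hpd : ∀ J ∈ 𝒥, ∀ J' ∈ 𝒥, J ≠ J' → Disjoint J J') (hd : ∀ J ∈ 𝒥, Disjoint (C ∪ H) J)
    (hCH : Disjoint C H) (hcov : ∀ J ∈ 𝒥, ∀ c ∈ C, ∃ y ∈ J, G.Adj c y) :
    2 * ∑ J ∈ 𝒥, (((r : ℤ) - 1) + ((J.card : ℤ) - 1) * ((r : ℤ) - 1 - C.card))
      ≤ slk G r (C ∪ H) + 2 * ((∑ y ∈ 𝒥.biUnion id, dg (co G) H y : ℕ) : ℤ)
        + E (co G) (𝒥.biUnion id) := by
  have h0 := slk_test hP (M := C ∪ H) (Y := 𝒥.biUnion id)
    ((disjoint_biUnion_right _ _ _).2 hd)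
  have h1 : ∑ y ∈ 𝒥.biUnion id, ((r : ℤ) - 1 - dg (co G) C y)
      = ∑ J ∈ 𝒥, ∑ y ∈ J, ((r : ℤ) - 1 - dg (co G) C y) := by
    rw [sum_biUnion]
    · rfl
    · intro J hJ J' hJ' hne
      exact hpd J hJ J' hJ' hne
  have h2 : ∑ J ∈ 𝒥, (((r : ℤ) - 1) + ((J.card : ℤ) - 1) * ((r : ℤ) - 1 - C.card))
      ≤ ∑ J ∈ 𝒥, ∑ y ∈ J, ((r : ℤ) - 1 - dg (co G) C y) := by
    refine sum_le_sum fun J hJ => ?_
    exact cover_budget (disjoint_union_left.1 (hd J hJ)).1 (hcov J hJ)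
  have h3 : ∑ y ∈ 𝒥.biUnion id, (2 * ((r : ℤ) - 1 - dg (co G) (C ∪ H) y))
      = 2 * ∑ y ∈ 𝒥.biUnion id, ((r : ℤ) - 1 - dg (co G) C y)
        - 2 * ((∑ y ∈ 𝒥.biUnion id, dg (co G) H y : ℕ) : ℤ) := by
    push_cast
    rw [← mul_sum, ← mul_sub, ← sum_sub_distrib]
    congr 1
    refine sum_congr rfl fun y _ => ?_
    have : dg (co G) (C ∪ H) y = dg (co G) C y + dg (co G) H y := by
      unfold dg
      rw [filter_union, card_union_of_disjoint (disjoint_filter_filter hCH)]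
    rw [this]
    push_cast
    ring
  rw [h3, h1] at h0
  linarith

end Add

section AddFrame

variable {V : Type*} {G : SimpleGraph V} {Z T : Finset V} {hm : V → V} {r m t : ℕ}

/-- **THE ACCOUNT OF THE ADDITIONS** (15155): `2 R + 2 (budgets) ≤ 2 D_tot + 2 (row costs)` -/
theorem PFrame.additions (h : PFrame G r m t Z T) (hP : PG G r) (hh : Homes G Z T hm)
    (𝒥 : V → Finset (Finset V))
    (hpd : ∀ w ∈ T, ∀ J ∈ 𝒥 w, ∀ J' ∈ 𝒥 w, J ≠ J' → Disjoint J J')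
    (hd : ∀ w ∈ T, ∀ J ∈ 𝒥 w, Disjoint (MM G Z T hm w) J)
    (hcov : ∀ w ∈ T, ∀ J ∈ 𝒥 w, ∀ c ∈ Cl G Z T w, ∃ y ∈ J, G.Adj c y) :
    2 * ((r : ℤ) - 1) + 2 * ∑ w ∈ T, ∑ J ∈ 𝒥 w,
        (((r : ℤ) - 1) + ((J.card : ℤ) - 1) * ((r : ℤ) - 1 - (Cl G Z T w).card))
      ≤ 2 * ∑ z ∈ BB G Z T, (kk G Z T hm z : ℤ) + ∑ z ∈ BB G Z T, (allH G Z T hm z : ℤ)
        + ∑ w ∈ T, (2 * ((∑ y ∈ (𝒥 w).biUnion id, dg (co G) (Ph G Z T hm w) y : ℕ) : ℤ)
          + E (co G) ((𝒥 w).biUnion id)) := by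
  have h1 : ∑ w ∈ T, (2 * ∑ J ∈ 𝒥 w,
        (((r : ℤ) - 1) + ((J.card : ℤ) - 1) * ((r : ℤ) - 1 - (Cl G Z T w).card)))
      ≤ ∑ w ∈ T, (slk G r (MM G Z T hm w)
        + (2 * ((∑ y ∈ (𝒥 w).biUnion id, dg (co G) (Ph G Z T hm w) y : ℕ) : ℤ)
          + E (co G) ((𝒥 w).biUnion id))) := by
    refine sum_le_sum fun w hw => ?_
    have := hP.additions (C := Cl G Z T w) (H := Ph G Z T hm w) (𝒥 w) (hpd w hw)
      (fun J hJ => hd w hw J hJ) (MM_disj hw) (hcov w hw)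
    unfold MM
    linarith
  rw [sum_add_distrib, h.sum_slk hh, ← mul_sum] at h1
  linarith

end AddFrame

end Pool.Agent.Lib.MP_f04ccf_co
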