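import Pool.Agent.Lib.MP_f04ccf_co.M.Exc7

/-!
MP_f04ccf_co: the levels two and three are impossible (`7 ≤ r`).  If `G` has property (P) then a
vertex set with independence number at most `2` (`3`) has at most `2 r` (`3 r`) points; without an
`r`-clique a set with independence number at most `2` has at most `2 r - 1` points.  So every
frame `S2` has at least four rows.
-/

set_option autoImplicit false

namespace Pool.Agent.Lib.MP_f04ccf_co

open Finset

attribute [local instance] Classical.propDecidable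

section Lev3

variable {V : Type*} {G : SimpleGraph V} {r : ℕ}

lemma AlphaLe.clq_one {S : Finset V} (h : AlphaLe G S 1) : Clq G S := by
  intro x hx y hy hxy
  by_contra hn
  have h1 := h {x, y} (by
    intro z hz
    rcases mem_insert.1 hz with rfl | hz
    · exact hx
    · rw [mem_singleton.1 hz]; exact hy) (by
    intro a ha b hb hab
    rcases mem_insert.1 ha with rfl | ha
    · rcases mem_insert.1 hb with rfl | hb
      · exact G.loopless.irrefl _ hab
      · rw [mem_singleton.1 hb] at hab; exact hn hab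
    · rw [mem_singleton.1 ha] at hab
      rcases mem_insert.1 hb with rfl | hb
      · exact hn hab.symm
      · rw [mem_singleton.1 hb] at hab
        exact G.loopless.irrefl _ hab)
  rw [card_pair hxy] at h1
  omega

/-- non-neighbours of `v` in `S` -/
lemma card_sdiff_nb {S : Finset V} {v : V} (hv : v ∈ S) :
    (S \ nb G S v).card + dg G S v + 1 = S.card := by
  have h1 := card_sdiff_add_card_eq_card (nb_sub G S v)
  have h2 := nb_card G hv
  omega

lemma mem_sdiff_nb {S : Finset V} {v w : V} :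
    w ∈ S \ nb G S v ↔ w ∈ S ∧ w ≠ v ∧ ¬ G.Adj v w := by
  rw [mem_sdiff, nb, mem_filter]
  constructor
  · rintro ⟨h1, h2⟩
    exact ⟨h1, fun h => h2 ⟨h1, Or.inl h⟩, fun h => h2 ⟨h1, Or.inr h⟩⟩
  · rintro ⟨h1, h2, h3⟩
    exact ⟨h1, fun h => h.2.elim h2 h3⟩

/-- three pairwise non-adjacent points contradict `α ≤ 2` -/
lemma AlphaLe.no_triple {S : Finset V} (h : AlphaLe G S 2) {x y z : V} (hx : x ∈ S) (hy : y ∈ S)
    (hz : z ∈ S) (hxy : x ≠ y) (hxz : x ≠ z) (hyz : y ≠ z) (h1 : ¬ G.Adj x y) (h2 : ¬ G.Adj x z)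
    (h3 : ¬ G.Adj y z) : False := by
  have h4 := h {x, y, z} (by
    intro w hw
    simp only [mem_insert, mem_singleton] at hw
    rcases hw with rfl | rfl | rfl
    · exact hx
    · exact hy
    · exact hz) (by
    intro a ha b hb hab
    simp only [mem_insert, mem_singleton] at ha hb
    rcases ha with rfl | rfl | rfl <;> rcases hb with rfl | rfl | rfl
    · exact G.loopless.irrefl _ hab
    · exact h1 hab
    · exact h2 hab
    · exact h1 hab.symm
    · exact G.loopless.irrefl _ hab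
    · exact h3 hab
    · exact h2 hab.symm
    · exact h3 hab.symm
    · exact G.loopless.irrefl _ hab)
  have h5 : ({x, y, z} : Finset V).card = 3 := by
    rw [card_insert_of_notMem (by simp [hxy, hxz]), card_pair hyz]
  omega

/-- a clique of size at least `r` contains one of size `r` -/
lemma clq_lt_of_no {W : Finset V} (hno : ∀ K ⊆ W, Clq G K → K.card ≠ r) {K : Finset V}
    (hK : K ⊆ W) (hKc : Clq G K) : K.card + 1 ≤ r := by
  by_contra hlt
  obtain ⟨K', hK', hc⟩ := exists_subset_card_eq (show r ≤ K.card by omega)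
  exact hno K' (hK'.trans hK) (hKc.mono hK') hc

/-- **level two**: `α(W) ≤ 2` implies `|W| ≤ 2 r` -/
theorem PG.level2 (hr : 3 ≤ r) (hP : PG G r) {W : Finset V} (ha : AlphaLe G W 2) :
    W.card ≤ 2 * r := by
  by_contra hlt
  obtain ⟨W', hW', hc⟩ := exists_subset_card_eq (show 2 * r + 1 ≤ W.card by omega)
  have ha' : AlphaLe G W' 2 := ha.mono G hW'
  by_cases hK : ∃ K ⊆ W', Clq G K ∧ K.card = r
  · obtain ⟨K, hK1, hK2, hK3⟩ := hK
    have h1 := hP.peel (by omega) hK2 hK3 hK1 (t := 1) (by omega) ha'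
    have h2 := hP.clq_le (by omega) h1.clq_one
    have h3 := card_sdiff_add_card_eq_card hK1
    omega
  · push Not at hK
    have h1 : ∀ v ∈ W', r + 1 ≤ dg G W' v := by
      intro v hv
      have h2 := card_sdiff_nb (G := G) hv
      have h3 := clq_lt_of_no (fun K hK1 hK2 => hK K hK1 hK2) sdiff_subset
        (ha'.sdiff_nb G hv).clq_one
      omega
    have h2 : W'.card * (r + 1) ≤ E G W' := by
      have := card_nsmul_le_sum W' (fun v => dg G W' v) (r + 1) h1
      simpa [E] using this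
    have h3 := hP W' 2
    rw [hc] at h2 h3
    have h4 : (((2 * r + 1) * (r + 1) : ℕ) : ℤ) ≤ (E G W' : ℤ) := by exact_mod_cast h2
    have h5 : (3 : ℤ) ≤ r := by exact_mod_cast hr
    push_cast at h3 h4
    nlinarith

/-- **level two, sharp form**: `α(W) ≤ 2` and no `r`-clique imply `|W| ≤ 2 r - 1` -/
theorem PG.level2' (hr : 7 ≤ r) (hP : PG G r) {W : Finset V} (ha : AlphaLe G W 2)
    (hno : ∀ K ⊆ W, Clq G K → K.card ≠ r) : W.card + 1 ≤ 2 * r := by
  by_contra hlt
  obtain ⟨W', hW', hc⟩ := exists_subset_card_eq (show 2 * r ≤ W.card by omega)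
  have ha' : AlphaLe G W' 2 := ha.mono G hW'
  have hno' : ∀ K ⊆ W', Clq G K → K.card + 1 ≤ r := fun K hK hKc =>
    clq_lt_of_no hno (hK.trans hW') hKc
  clear hlt ha hno hW' W
  have hM : ∀ v ∈ W', Clq G (W' \ nb G W' v) := fun v hv => (ha'.sdiff_nb G hv).clq_one
  have h1 : ∀ v ∈ W', r ≤ dg G W' v := by
    intro v hv
    have h2 := card_sdiff_nb (G := G) hv
    have h3 := hno' _ sdiff_subset (hM v hv)
    omega
  have h2 : ∀ v ∈ W', dg G W' v = r := by
    have h3 := hP W' 1
    rw [hc] at h3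
    have h4 : ∑ _v ∈ W', r ≤ ∑ v ∈ W', dg G W' v := sum_le_sum h1
    have h5 : (E G W' : ℤ) ≤ 2 * r * r := by
      push_cast at h3
      nlinarith
    have h6 : ∑ v ∈ W', dg G W' v = ∑ _v ∈ W', r := by
      refine le_antisymm ?_ h4
      rw [sum_const, hc, smul_eq_mul]
      have : (∑ v ∈ W', dg G W' v : ℕ) = E G W' := rfl
      rw [this]
      exact_mod_cast h5
    intro v hv
    exact ((sum_eq_sum_iff_of_le h1).1 h6.symm v hv).symm
  have hMc : ∀ v ∈ W', (W' \ nb G W' v).card + 1 = r := by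
    intro v hv
    have h3 := card_sdiff_nb (G := G) hv
    rw [h2 v hv] at h3
    omega
  -- two non-adjacent points
  obtain ⟨v, hv⟩ : W'.Nonempty := card_pos.1 (by omega)
  obtain ⟨u, hu'⟩ : (W' \ nb G W' v).Nonempty := card_pos.1 (by have := hMc v hv; omega)
  obtain ⟨hu, huv, hnuv⟩ := mem_sdiff_nb.1 hu'
  set Mu := W' \ nb G W' u with hMu
  set Mv := W' \ nb G W' v with hMv
  have hvMu : v ∈ Mu := mem_sdiff_nb.2 ⟨hv, Ne.symm huv, fun h => hnuv h.symm⟩
  have hdis : Disjoint Mu Mv := by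
    rw [disjoint_left]
    intro z hz hz'
    obtain ⟨hz1, hz2, hz3⟩ := mem_sdiff_nb.1 hz
    obtain ⟨-, hz4, hz5⟩ := mem_sdiff_nb.1 hz'
    exact ha'.no_triple hu hv hz1 huv (Ne.symm hz2) (Ne.symm hz4) (fun h => hnuv h.symm) hz3 hz5
  have hsub : Mu ∪ Mv ⊆ W' := union_subset sdiff_subset sdiff_subset
  set X := W' \ (Mu ∪ Mv) with hX
  have hXc : X.card = 2 := by
    have h3 := card_sdiff_add_card_eq_card hsub
    rw [card_union_of_disjoint hdis] at h3
    have h4 := hMc u hu
    have h5 := hMc v hv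
    rw [← hX, ← hMu, ← hMv] at *
    omega
  obtain ⟨a, haX⟩ : X.Nonempty := card_pos.1 (by omega)
  obtain ⟨haW, hamem⟩ := mem_sdiff.1 haX
  rw [mem_union, not_or] at hamem
  -- a point outside sees nobody of `Ma`
  have key : ∀ (M : Finset V) (y : V), y ∈ W' → M = W' \ nb G W' y → a ∉ M →
      ((W' \ nb G W' a) ∩ M).Nonempty := by
    intro M y hy hMy haM
    by_contra hemp
    rw [not_nonempty_iff_eq_empty] at hemp
    have h3 : Clq G (insert a M) := by
      have hadj : ∀ z ∈ M, G.Adj a z := by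
        intro z hz
        by_contra hn
        have hzW : z ∈ W' := by rw [hMy] at hz; exact (mem_sdiff.1 hz).1
        have hza : z ≠ a := by rintro rfl; exact haM hz
        have : z ∈ (W' \ nb G W' a) ∩ M := mem_inter.2 ⟨mem_sdiff_nb.2 ⟨hzW, hza, hn⟩, hz⟩
        rw [hemp] at this
        exact absurd this (notMem_empty z)
      intro x hx z hz hxz
      rcases mem_insert.1 hx with hxa | hx'
      · rcases mem_insert.1 hz with hza | hz'
        · exact absurd (hxa.trans hza.symm) hxz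
        · rw [hxa]; exact hadj z hz'
      · rcases mem_insert.1 hz with hza | hz'
        · rw [hza]; exact (hadj x hx').symm
        · rw [hMy] at hx' hz'
          exact hM y hy x hx' z hz' hxz
    have h4 := hno' (insert a M) (insert_subset haW (by rw [hMy]; exact sdiff_subset)) h3
    rw [card_insert_of_notMem haM, hMy] at h4
    have h5 := hMc y hy
    omega
  obtain ⟨p, hp⟩ := key Mu u hu hMu hamem.1
  obtain ⟨q, hq⟩ := key Mv v hv hMv hamem.2
  -- bound for the part of `Ma` in the other clique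
  have bound : ∀ (M N : Finset V) (y : V), y ∈ W' → M = W' \ nb G W' y → N ⊆ W' → N.card + 1 = r →
      W' \ (M ∪ N) = X → Disjoint M N → ∀ p ∈ (W' \ nb G W' a) ∩ M,
      ((W' \ nb G W' a) ∩ N).card ≤ 2 := by
    intro M N y hy hMy hNW hNc hMN hd p hp
    obtain ⟨hp1, hp2⟩ := mem_inter.1 hp
    obtain ⟨hpW, hpa, hnap⟩ := mem_sdiff_nb.1 hp1
    have hsub2 : (W' \ nb G W' p) ∪ ((W' \ nb G W' a) ∩ N) ⊆ N ∪ X := by
      intro z hz
      rcases mem_union.1 hz with hz | hz
      · obtain ⟨hz1, hz2, hz3⟩ := mem_sdiff_nb.1 hz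
        by_cases hzN : z ∈ N
        · exact mem_union_left _ hzN
        · refine mem_union_right _ ?_
          rw [← hMN]
          refine mem_sdiff.2 ⟨hz1, fun h => ?_⟩
          rcases mem_union.1 h with h | h
          · rw [hMy] at h hp2
            exact hz3 (hM y hy p hp2 z h (Ne.symm hz2))
          · exact hzN h
      · exact mem_union_left _ (mem_inter.1 hz).2
    have hd2 : Disjoint (W' \ nb G W' p) ((W' \ nb G W' a) ∩ N) := by
      rw [disjoint_left]
      intro z hz hz'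
      obtain ⟨hz1, hz2, hz3⟩ := mem_sdiff_nb.1 hz
      obtain ⟨hz4, hz5, hz6⟩ := mem_sdiff_nb.1 (mem_inter.1 hz').1
      exact ha'.no_triple haW hpW hz1 (Ne.symm hpa) (Ne.symm hz5) (Ne.symm hz2) hnap hz6 hz3
    have h3 := card_le_card hsub2
    rw [card_union_of_disjoint hd2] at h3
    have h4 := card_union_le N X
    have h5 := hMc p hpW
    omega
  have hAv := bound Mu Mv u hu hMu sdiff_subset (hMc v hv) rfl hdis p hp
  have hAu := bound Mv Mu v hv hMv sdiff_subset (hMc u hu) (by rw [union_comm]) hdis.symm q hq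
  have hMa : W' \ nb G W' a ⊆ ((W' \ nb G W' a) ∩ Mu) ∪ ((W' \ nb G W' a) ∩ Mv) ∪ X.erase a := by
    intro z hz
    obtain ⟨hz1, hz2, hz3⟩ := mem_sdiff_nb.1 hz
    by_cases h3 : z ∈ Mu
    · exact mem_union_left _ (mem_union_left _ (mem_inter.2 ⟨hz, h3⟩))
    by_cases h4 : z ∈ Mv
    · exact mem_union_left _ (mem_union_right _ (mem_inter.2 ⟨hz, h4⟩))
    refine mem_union_right _ (mem_erase.2 ⟨hz2, mem_sdiff.2 ⟨hz1, ?_⟩⟩)
    rw [mem_union, not_or]
    exact ⟨h3, h4⟩
  have h3 := card_le_card hMa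
  have h4 := card_union_le (((W' \ nb G W' a) ∩ Mu) ∪ ((W' \ nb G W' a) ∩ Mv)) (X.erase a)
  have h5 := card_union_le ((W' \ nb G W' a) ∩ Mu) ((W' \ nb G W' a) ∩ Mv)
  rw [card_erase_of_mem haX] at h4
  have h6 := hMc a haW
  omega

/-- **level three**: `α(W) ≤ 3` implies `|W| ≤ 3 r` -/
theorem PG.level3 (hr : 7 ≤ r) (hP : PG G r) {W : Finset V} (ha : AlphaLe G W 3) :
    W.card ≤ 3 * r := by
  by_contra hlt
  obtain ⟨W', hW', hc⟩ := exists_subset_card_eq (show 3 * r + 1 ≤ W.card by omega)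
  have ha' : AlphaLe G W' 3 := ha.mono G hW'
  by_cases hK : ∃ K ⊆ W', Clq G K ∧ K.card = r
  · obtain ⟨K, hK1, hK2, hK3⟩ := hK
    have h1 := hP.peel (by omega) hK2 hK3 hK1 (t := 2) (by omega) ha'
    have h2 := hP.level2 (by omega) h1
    have h3 := card_sdiff_add_card_eq_card hK1
    omega
  · push Not at hK
    have h1 : ∀ v ∈ W', r + 1 ≤ dg G W' v := by
      intro v hv
      have h2 := card_sdiff_nb (G := G) hv
      have h3 := hP.level2' hr (ha'.sdiff_nb G hv) (fun K hK1 hK2 =>
        hK K (hK1.trans sdiff_subset) hK2)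
      omega
    have h2 : W'.card * (r + 1) ≤ E G W' := by
      have := card_nsmul_le_sum W' (fun v => dg G W' v) (r + 1) h1
      simpa [E] using this
    have h3 := hP W' 3
    rw [hc] at h2 h3
    have h4 : (((3 * r + 1) * (r + 1) : ℕ) : ℤ) ≤ (E G W' : ℤ) := by exact_mod_cast h2
    have h5 : (7 : ℤ) ≤ r := by exact_mod_cast hr
    push_cast at h3 h4
    nlinarith

/-- a frame has at least four rows -/
theorem S2.four_le (hr : 7 ≤ r) (hP : PG G r) {m t : ℕ} {Z T : Finset V} (h : S2 G r m t Z T) :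
    4 ≤ t := by
  have h3 := h.three_le (by omega) hP
  by_contra hlt
  obtain rfl : t = 3 := by omega
  have h4 := hP.level3 hr h.alpha
  rw [h.cardZ] at h4
  omega

end Lev3

section Colour

variable {V : Type*} [Fintype V] {r : ℕ} {c : V → V → Fin r} {hc : ∀ x y, c x y = c y x}

/-- `exists_S2_mt7` with at least four rows; in the not exceptional case `m + 5 ≤ r + t` -/
theorem exists_S2_mt7' (hs : Sees c) (hr : 7 ≤ r) (hV : Fintype.card V = r ^ 2 + 1) :
    (∃ j m t Z T, m + 5 ≤ r + t ∧ S2 (col c hc j) r m t Z T) ∨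
      (Exc hc ∧ ∃ j m t Z T, m + 4 ≤ r + t ∧ 4 ≤ t ∧ S2 (col c hc j) r m t Z T) := by
  rcases S2_or_exc (hc := hc) hs (by omega) hV with ⟨j, t, Z, T, h⟩ | he
  · have h1 := h.four_le hr (PG_col hc hs j)
    exact Or.inl ⟨j, r - 1, t, Z, T, by omega, h⟩
  · obtain ⟨j, m, t, Z, T, h1, h2⟩ := he.exists_mt7 hs hV hr
    exact Or.inr ⟨he, j, m, t, Z, T, h1, h2.four_le hr (PG_col hc hs j), h2⟩

end Colour

end Pool.Agent.Lib.MP_f04ccf_co
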