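import Pool.Agent.Lib.MP_f04ccf_co.M.HSysTwo
import Pool.Agent.Lib.MP_f04ccf_co.M.Lev3

/-!
MP_f04ccf_co: `j`-closed systems (notes 15712 of helper48, 15719 of helper23, 15660 of helper15).
A `j`-closed system is a set `A` of rows together with a set `S` of points such that every
independent part `J` of `S` with at most `j` doubles has at most as many points as rows in `A`.
For `2 ≤ j` they are home-free closed systems (`JSys.hsys`); for large `j`
the independence number of `S` is at most `A.card` (`JSys.alpha`).  `JSys.del`, `JSys.within`,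
`JSys.mono`: hereditary.  The minimal ones are in M/AlfM.
-/

set_option autoImplicit false

namespace Pool.Agent.Lib.MP_f04ccf_co

open Finset

attribute [local instance] Classical.propDecidable

section JSys

variable {V : Type*} {G : SimpleGraph V} {Z T : Finset V} {hm : V → V} {r m t j : ℕ}

variable (G) in
/-- the rows of the points of `J` -/
noncomputable def rwsU (T J : Finset V) : Finset V := J.biUnion (rws G T)

lemma mem_rwsU {J : Finset V} {x : V} : x ∈ rwsU G T J ↔ ∃ v ∈ J, x ∈ rws G T v := mem_biUnion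

lemma rwsU_mono {J K : Finset V} (h : J ⊆ K) : rwsU G T J ⊆ rwsU G T K := by
  intro x hx
  obtain ⟨v, hv, h1⟩ := mem_rwsU.1 hx
  exact mem_rwsU.2 ⟨v, h hv, h1⟩

lemma rwsU_union (J K : Finset V) : rwsU G T (J ∪ K) = rwsU G T J ∪ rwsU G T K := by
  ext x
  simp only [mem_rwsU, mem_union]
  constructor
  · rintro ⟨v, hv | hv, h1⟩
    · exact Or.inl ⟨v, hv, h1⟩
    · exact Or.inr ⟨v, hv, h1⟩
  · rintro (⟨v, hv, h1⟩ | ⟨v, hv, h1⟩)
    · exact ⟨v, Or.inl hv, h1⟩
    · exact ⟨v, Or.inr hv, h1⟩

/-- a class point is not double -/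
lemma Cl_notMem_BB {x c : V} (hx : x ∈ T) (hc : c ∈ Cl G Z T x) : c ∉ BB G Z T := by
  intro hB
  have h1 := rws_Cl hx hc
  rw [rws_BB hB] at h1
  have h2 := (mem_BB.1 hB).2
  rw [← card_ends, h1, card_singleton] at h2
  omega

variable (G Z T) in
/-- `j`-closed system on the rows `A` with the points `S` -/
structure JSys (j : ℕ) (A S : Finset V) : Prop where
  sub : A ⊆ T
  ctr : A ⊆ S
  subZ : S ⊆ Z
  row : ∀ v ∈ S, ∃ x ∈ A, x ∈ rws G T v
  ind : ∀ J ⊆ S, Ind G J → (J ∩ BB G Z T).card ≤ j → J.card ≤ (rwsU G T J ∩ A).card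

/-- a larger `j` is a stronger condition -/
lemma JSys.mono_j {i : ℕ} {A S : Finset V} (h : JSys G Z T j A S) (hij : i ≤ j) :
    JSys G Z T i A S :=
  ⟨h.sub, h.ctr, h.subZ, h.row, fun J hJ hi hc => h.ind J hJ hi (hc.trans hij)⟩

/-- sub-systems -/
lemma JSys.mono {A S S' : Finset V} (h : JSys G Z T j A S) (hS : S' ⊆ S) (hA : A ⊆ S') :
    JSys G Z T j A S' :=
  ⟨h.sub, hA, hS.trans h.subZ, fun v hv => h.row v (hS hv), fun J hJ => h.ind J (hJ.trans hS)⟩

/-- **the whole frame is `j`-closed for every `j`** -/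
theorem PFrame.jsys (h : PFrame G r m t Z T) (j : ℕ) : JSys G Z T j T Z := by
  refine ⟨Subset.refl _, h.sub, Subset.refl _, h.hsys.row, fun J hJ hi _ => ?_⟩
  have h1 : rwsU G T J ∩ T = rwsU G T J :=
    inter_eq_left.2 fun x hx => by
      obtain ⟨v, -, h2⟩ := mem_rwsU.1 hx
      exact rws_sub h2
  rw [h1]
  refine h.alpha_ZI (I := rwsU G T J) (fun x hx => ?_) J (fun v hv => ?_) hi
  · obtain ⟨v, -, h2⟩ := mem_rwsU.1 hx
    exact rws_sub h2
  · refine mem_ZI.2 ⟨hJ hv, fun hT => ?_, fun x hx => ?_⟩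
    · exact mem_rwsU.2 ⟨v, hv, by rw [rws_of_mem hT]; exact mem_singleton_self v⟩
    · refine mem_rwsU.2 ⟨v, hv, ?_⟩
      by_cases hT : v ∈ T
      · rw [h.ends_T hT] at hx
        simp at hx
      · rwa [rws_of_notMem hT]

/-- independent sets of at most `j` points -/
lemma JSys.ind_card {A S : Finset V} (h : JSys G Z T j A S) {J : Finset V} (hJ : J ⊆ S)
    (hi : Ind G J) (hc : J.card ≤ j) : J.card ≤ (rwsU G T J ∩ A).card :=
  h.ind J hJ hi ((card_le_card inter_subset_left).trans hc)

/-- **large `j`: the independence number is at most the number of rows** -/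
theorem JSys.alpha {A S : Finset V} (h : JSys G Z T j A S) (hj : A.card + 1 ≤ j) :
    AlphaLe G S A.card := by
  intro J hJ hi
  by_contra hcon
  obtain ⟨K, hK, hKc⟩ := exists_subset_card_eq (show A.card + 1 ≤ J.card by omega)
  have h1 := h.ind_card (hK.trans hJ) (fun x hx y hy => hi x (hK hx) y (hK hy)) (by omega)
  have h2 := card_le_card (inter_subset_right (s₁ := rwsU G T K) (s₂ := A))
  omega

/-- the independence number when `S` has at most `j` doubles -/
theorem JSys.alpha_of_BB {A S : Finset V} (h : JSys G Z T j A S) (hj : (S ∩ BB G Z T).card ≤ j) :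
    AlphaLe G S A.card := by
  intro J hJ hi
  exact (h.ind J hJ hi ((card_le_card (inter_subset_inter hJ (Subset.refl _))).trans hj)).trans
    (card_le_card inter_subset_right)

/-- **deleting the rows of `B` and the neighbourhood of an independent transversal of `B`** -/
theorem JSys.del (hF : PFrame G r m t Z T) {A S : Finset V} (h : JSys G Z T j A S) {B : Finset V}
    (hB : B ⊆ A) {c : V → V} (hc : ∀ i ∈ B, c i ∈ S ∧ c i ∈ Cl G Z T i)
    (hi : ∀ i ∈ B, ∀ k ∈ B, ¬ G.Adj (c i) (c k)) :
    JSys G Z T j (A \ B) (S.filter fun v => (∃ x ∈ A \ B, x ∈ rws G T v) ∧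
      ∀ i ∈ B, ¬ G.Adj (c i) v) := by
  refine ⟨sdiff_subset.trans h.sub, fun z hz => ?_, (filter_subset _ _).trans h.subZ,
    fun v hv => (mem_filter.1 hv).2.1, fun J hJ hJi hJc => ?_⟩
  · obtain ⟨h1, h2⟩ := mem_sdiff.1 hz
    refine mem_filter.2 ⟨h.ctr h1, ⟨z, hz, ?_⟩, fun i hi => ?_⟩
    · rw [rws_of_mem (h.sub h1)]
      exact mem_singleton_self z
    · exact hF.Cl_not_adj (h.sub (hB hi)) (h.sub h1) (fun h' => h2 (h' ▸ hi)) (hc i hi).2
  have hrow : ∀ i ∈ B, rws G T (c i) = {i} := fun i hi => rws_Cl (h.sub (hB hi)) (hc i hi).2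
  have hcB : (B.image c).card = B.card := by
    refine card_image_of_injOn fun i hi k hk hik => ?_
    have h1 := hrow i hi
    have h2 := hrow k hk
    change c i = c k at hik
    rw [hik, h2] at h1
    exact (singleton_injective h1).symm
  have hdis : Disjoint J (B.image c) := by
    rw [disjoint_left]
    intro v hv hv'
    obtain ⟨i, hi, rfl⟩ := mem_image.1 hv'
    obtain ⟨x, hx, hx'⟩ := (mem_filter.1 (hJ hv)).2.1
    rw [hrow i hi, mem_singleton] at hx'
    exact (mem_sdiff.1 hx).2 (hx' ▸ hi)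
  have h1 := h.ind (J ∪ B.image c) (union_subset (hJ.trans (filter_subset _ _)) (by
      intro v hv
      obtain ⟨i, hi, rfl⟩ := mem_image.1 hv
      exact (hc i hi).1)) (by
    intro v hv w hw
    rcases mem_union.1 hv with hv | hv
    · rcases mem_union.1 hw with hw | hw
      · exact hJi v hv w hw
      · obtain ⟨i, hi', rfl⟩ := mem_image.1 hw
        exact fun h' => (mem_filter.1 (hJ hv)).2.2 i hi' h'.symm
    · obtain ⟨i, hi', rfl⟩ := mem_image.1 hv
      rcases mem_union.1 hw with hw | hw
      · exact fun h' => (mem_filter.1 (hJ hw)).2.2 i hi' h'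
      · obtain ⟨k, hk', rfl⟩ := mem_image.1 hw
        exact hi i hi' k hk') (by
    refine le_trans (card_le_card ?_) hJc
    intro v hv
    obtain ⟨h2, h3⟩ := mem_inter.1 hv
    rcases mem_union.1 h2 with h2 | h2
    · exact mem_inter.2 ⟨h2, h3⟩
    · obtain ⟨i, hi', rfl⟩ := mem_image.1 h2
      exact absurd h3 (Cl_notMem_BB (h.sub (hB hi')) (hc i hi').2))
  have h2 : rwsU G T (J ∪ B.image c) ∩ A ⊆ (rwsU G T J ∩ (A \ B)) ∪ B := by
    intro x hx
    obtain ⟨h3, h4⟩ := mem_inter.1 hx
    by_cases hxB : x ∈ B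
    · exact mem_union_right _ hxB
    refine mem_union_left _ (mem_inter.2 ⟨?_, mem_sdiff.2 ⟨h4, hxB⟩⟩)
    rw [rwsU_union] at h3
    rcases mem_union.1 h3 with h3 | h3
    · exact h3
    · obtain ⟨v, hv, hxv⟩ := mem_rwsU.1 h3
      obtain ⟨i, hi', rfl⟩ := mem_image.1 hv
      rw [hrow i hi', mem_singleton] at hxv
      exact absurd (hxv ▸ hi') hxB
  have h3 := (h1.trans (card_le_card h2)).trans (card_union_le _ _)
  rw [card_union_of_disjoint hdis, hcB] at h3
  omega

/-- the points with all rows of `A` in `B` form a `j`-closed system on `B` -/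
theorem JSys.within {A S : Finset V} (h : JSys G Z T j A S)
    {B : Finset V} (hB : B ⊆ A) :
    JSys G Z T j B (S.filter fun v => ∀ x ∈ A, x ∈ rws G T v → x ∈ B) := by
  refine ⟨hB.trans h.sub, fun z hz => mem_filter.2 ⟨h.ctr (hB hz), fun x _ hx => ?_⟩,
    (filter_subset _ _).trans h.subZ, fun v hv => ?_, fun J hJ hJi hJc => ?_⟩
  · rw [rws_of_mem (h.sub (hB hz)), mem_singleton] at hx
    rwa [hx]
  · obtain ⟨h1, h2⟩ := mem_filter.1 hv
    obtain ⟨x, hx, h3⟩ := h.row v h1
    exact ⟨x, h2 x hx h3, h3⟩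
  · refine (h.ind J (hJ.trans (filter_subset _ _)) hJi hJc).trans (card_le_card ?_)
    intro x hx
    obtain ⟨h3, h4⟩ := mem_inter.1 hx
    obtain ⟨v, hv, hxv⟩ := mem_rwsU.1 h3
    exact mem_inter.2 ⟨h3, (mem_filter.1 (hJ hv)).2 x h4 hxv⟩

/-- the rows of a point with the row `x`: either one far row or none -/
lemma PFrame.rws_cases (h : PFrame G r m t Z T) {x v : V} (hv : v ∈ Z) (hxv : x ∈ rws G T v) :
    rws G T v = {x} ∨ (v ∈ BB G Z T ∧ ∃ y ∈ T.erase x, ends G T v = {x, y} ∧
      rws G T v = {x, y}) := by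
  rcases h.rws_split hv hxv with h1 | ⟨h1, y, hy, h2⟩
  · exact Or.inl (rws_Cl (rws_sub hxv) h1)
  · exact Or.inr ⟨h1, y, hy, h2, by rw [rws_BB h1, h2]⟩

lemma card_triple {a b c : V} (h1 : a ≠ b) (h2 : a ≠ c) (h3 : b ≠ c) :
    ({a, b, c} : Finset V).card = 3 := by
  rw [card_insert_of_notMem, card_pair h3]
  simp only [mem_insert, mem_singleton, not_or]
  exact ⟨h1, h2⟩

lemma Ind.pair {p q : V} (h : ¬ G.Adj p q) : Ind G ({p, q} : Finset V) := by
  intro a ha b hb hab
  simp only [mem_insert, mem_singleton] at ha hb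
  rcases ha with rfl | rfl <;> rcases hb with rfl | rfl
  · exact G.loopless.irrefl _ hab
  · exact h hab
  · exact h hab.symm
  · exact G.loopless.irrefl _ hab

lemma Ind.triple {p q c : V} (h1 : ¬ G.Adj p q) (h2 : ¬ G.Adj p c) (h3 : ¬ G.Adj q c) :
    Ind G ({p, q, c} : Finset V) := by
  intro a ha b hb hab
  simp only [mem_insert, mem_singleton] at ha hb
  rcases ha with rfl | rfl | rfl <;> rcases hb with rfl | rfl | rfl
  · exact G.loopless.irrefl _ hab
  · exact h1 hab
  · exact h2 hab
  · exact h1 hab.symm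
  · exact G.loopless.irrefl _ hab
  · exact h3 hab
  · exact h2 hab.symm
  · exact h3 hab.symm
  · exact G.loopless.irrefl _ hab

/-- **a `2`-closed system is a home-free closed system** -/
theorem JSys.hsys (hF : PFrame G r m t Z T) (hj : 2 ≤ j) {A S : Finset V}
    (h : JSys G Z T j A S) : HSys G Z T A S := by
  refine ⟨h.sub, h.ctr, h.subZ, h.row, fun x hx p hp q hq hxp hxq hpq => ?_⟩
  have hxT := h.sub hx
  have hpqn := (co_adj.1 hpq).1
  have hpqa := (co_adj.1 hpq).2
  -- both points have all their rows in `A` among `x`, `y`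
  have key : ∀ y, (∀ z ∈ A, z ∈ rws G T p → z = x ∨ z = y) →
      (∀ z ∈ A, z ∈ rws G T q → z = x ∨ z = y) → y ∈ A ∧ y ≠ x ∧
      ∀ c ∈ S, c ∈ Cl G Z T y → G.Adj p c ∨ G.Adj q c := by
    intro y h1 h2
    have h3 := h.ind {p, q} (by
      intro v hv
      simp only [mem_insert, mem_singleton] at hv
      rcases hv with rfl | rfl <;> assumption) (Ind.pair hpqa)
      (((card_le_card inter_subset_left).trans card_le_two).trans hj)
    rw [card_pair hpqn] at h3
    have h4 : rwsU G T {p, q} ∩ A ⊆ {x, y} := by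
      intro z hz
      obtain ⟨h5, h6⟩ := mem_inter.1 hz
      obtain ⟨v, hv, h7⟩ := mem_rwsU.1 h5
      simp only [mem_insert, mem_singleton] at hv ⊢
      rcases hv with rfl | rfl
      · exact h1 z h6 h7
      · exact h2 z h6 h7
    have hyx : y ≠ x := by
      rintro rfl
      have h5 := h3.trans (card_le_card h4)
      simp at h5
    have hyA : y ∈ A := by
      by_contra hyA
      have h5 : rwsU G T {p, q} ∩ A ⊆ {x} := by
        intro z hz
        have h6 := h4 hz
        simp only [mem_insert, mem_singleton] at h6 ⊢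
        rcases h6 with h6 | h6
        · exact h6
        · exact absurd (h6 ▸ (mem_inter.1 hz).2) hyA
      have h6 := h3.trans (card_le_card h5)
      simp at h6
    refine ⟨hyA, hyx, fun c hc hcC => ?_⟩
    by_contra hcon
    push Not at hcon
    have hrc := rws_Cl (h.sub hyA) hcC
    have hcx : ∀ v, x ∈ rws G T v → v ≠ c := by
      rintro v hv rfl
      rw [hrc, mem_singleton] at hv
      exact hyx hv.symm
    have h5 := h.ind {p, q, c} (by
      intro v hv
      simp only [mem_insert, mem_singleton] at hv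
      rcases hv with rfl | rfl | rfl <;> assumption) (Ind.triple hpqa hcon.1 hcon.2) (by
      refine le_trans (card_le_card (t := {p, q}) ?_) (card_le_two.trans hj)
      intro v hv
      obtain ⟨h6, h7⟩ := mem_inter.1 hv
      simp only [mem_insert, mem_singleton] at h6 ⊢
      rcases h6 with h6 | h6 | h6
      · exact Or.inl h6
      · exact Or.inr h6
      · exact absurd (h6 ▸ h7) (Cl_notMem_BB (h.sub hyA) hcC))
    rw [card_triple hpqn (hcx p hxp) (hcx q hxq)] at h5
    have h6 : rwsU G T {p, q, c} ∩ A ⊆ {x, y} := by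
      intro z hz
      obtain ⟨h7, h8⟩ := mem_inter.1 hz
      obtain ⟨v, hv, h9⟩ := mem_rwsU.1 h7
      simp only [mem_insert, mem_singleton] at hv ⊢
      rcases hv with rfl | rfl | rfl
      · exact h1 z h8 h9
      · exact h2 z h8 h9
      · rw [hrc, mem_singleton] at h9
        exact Or.inr h9
    have h7 := (h5.trans (card_le_card h6)).trans card_le_two
    omega
  rcases hF.rws_cases (h.subZ hp) hxp with hp1 | ⟨hpB, y, hy, hpe, hp1⟩
  · rcases hF.rws_cases (h.subZ hq) hxq with hq1 | ⟨hqB, z, hz, hqe, hq1⟩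
    · obtain ⟨-, h2, -⟩ := key x (fun w _ hw => by
        rw [hp1, mem_singleton] at hw
        exact Or.inl hw) (fun w _ hw => by
        rw [hq1, mem_singleton] at hw
        exact Or.inl hw)
      exact absurd rfl h2
    · obtain ⟨h1, h2, h3⟩ := key z (fun w _ hw => by
        rw [hp1, mem_singleton] at hw
        exact Or.inl hw) (fun w _ hw => by
        rw [hq1] at hw
        simpa only [mem_insert, mem_singleton] using hw)
      exact Or.inl ⟨z, mem_erase.2 ⟨h2, h1⟩, h3⟩
  · rcases hF.rws_cases (h.subZ hq) hxq with hq1 | ⟨hqB, z, hz, hqe, hq1⟩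
    · obtain ⟨h1, h2, h3⟩ := key y (fun w _ hw => by
        rw [hp1] at hw
        simpa only [mem_insert, mem_singleton] using hw) (fun w _ hw => by
        rw [hq1, mem_singleton] at hw
        exact Or.inl hw)
      exact Or.inl ⟨y, mem_erase.2 ⟨h2, h1⟩, h3⟩
    · by_cases hyz : y = z
      · subst hyz
        obtain ⟨h1, h2, h3⟩ := key y (fun w _ hw => by
          rw [hp1] at hw
          simpa only [mem_insert, mem_singleton] using hw) (fun w _ hw => by
          rw [hq1] at hw
          simpa only [mem_insert, mem_singleton] using hw)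
        exact Or.inl ⟨y, mem_erase.2 ⟨h2, h1⟩, h3⟩
      · by_cases hyA : y ∈ A
        · by_cases hzA : z ∈ A
          · exact Or.inr ⟨y, mem_erase.2 ⟨ne_of_mem_erase hy, hyA⟩, z,
              mem_erase.2 ⟨ne_of_mem_erase hz, hzA⟩, hyz, hpe, hqe⟩
          · obtain ⟨h1, h2, h3⟩ := key y (fun w _ hw => by
              rw [hp1] at hw
              simpa only [mem_insert, mem_singleton] using hw) (fun w hw hw' => by
              rw [hq1] at hw'
              simp only [mem_insert, mem_singleton] at hw'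
              rcases hw' with h4 | h4
              · exact Or.inl h4
              · exact absurd (h4 ▸ hw) hzA)
            exact Or.inl ⟨y, mem_erase.2 ⟨h2, h1⟩, h3⟩
        · obtain ⟨h1, h2, h3⟩ := key z (fun w hw hw' => by
            rw [hp1] at hw'
            simp only [mem_insert, mem_singleton] at hw'
            rcases hw' with h4 | h4
            · exact Or.inl h4
            · exact absurd (h4 ▸ hw) hyA) (fun w _ hw => by
            rw [hq1] at hw
            simpa only [mem_insert, mem_singleton] using hw)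
          exact Or.inl ⟨z, mem_erase.2 ⟨h2, h1⟩, h3⟩

end JSys

end Pool.Agent.Lib.MP_f04ccf_co
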