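import Pool.Agent.Lib.MP_f04ccf_co.M.Alf

/-!
MP_f04ccf_co: minimal systems of a hereditary class of closed systems.
`Hered Q`: every `Q`-system is a home-free closed system, `Q` is inherited by sub-systems, by the
deletion of the rows of `B` with the neighbourhood of an independent transversal, and by the points
with all rows in `B`.  Examples: `hered_hsys`, `hered_jsys` (`2 ≤ j`).  `MQSys r Q A S`: minimal
`Q`-system with `A.card * r + 1` points; `Hered.exists_min`; the laws `MQSys.law_J`, `MQSys.hall`,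
`MQSys.deg`, `MQSys.law_slot`, `MQSys.exists_homes`, `MQSys.card_class` of `MHSys`.
`HSys.jsys`: home-free closed systems are the `2`-closed ones, `MQSys.mhsys`, `MHSys.mjsys`.
`JSys.card_two`, `JSys.card_three`: two rows (`3 ≤ j`) carry at most `2 r - 1` points, three rows
(`4 ≤ j`) at most `3 r`; `MQSys.three_le'`, `MQSys.four_le`: minimal `j`-closed systems have at
least three, four rows; `MQSys.law_one`, `MQSys.law_two`, `MQSys.two_rows`: sharper laws for the last
rows.
-/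

set_option autoImplicit false

namespace Pool.Agent.Lib.MP_f04ccf_co

open Finset

attribute [local instance] Classical.propDecidable

section AlfM

variable {V : Type*} {G : SimpleGraph V} {Z T : Finset V} {hm : V → V} {r m t j : ℕ}

/-- **home-free closed systems are `2`-closed** -/
theorem HSys.jsys (hF : PFrame G r m t Z T) {A S : Finset V} (h : HSys G Z T A S) :
    JSys G Z T 2 A S := by
  refine ⟨h.sub, h.ctr, h.subZ, h.row, fun J hJ hJi hJc => ?_⟩
  set P := J.filter fun v => v ∉ BB G Z T with hP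
  have hPm : ∀ p ∈ P, p ∈ J ∧ p ∉ BB G Z T := fun p hp => mem_filter.1 hp
  have hcl : ∀ p, ∃ x, p ∈ P → x ∈ A ∧ p ∈ Cl G Z T x := by
    intro p
    by_cases hp : p ∈ P
    · obtain ⟨h1, h2⟩ := hPm p hp
      obtain ⟨x, hx, h3⟩ := h.mem_cl hF (hJ h1) h2
      exact ⟨x, fun _ => ⟨hx, h3⟩⟩
    · exact ⟨p, fun h' => absurd h' hp⟩
  choose f hf using hcl
  have hfP : (P.image f).card = P.card := by
    refine card_image_of_injOn fun p hp q hq hpq => ?_
    change f p = f q at hpq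
    by_contra hne
    have h1 := (hf p hp).2
    have h2 := (hf q hq).2
    rw [hpq] at h1
    exact hJi p (hPm p hp).1 q (hPm q hq).1 (hF.Cl_clq (h.sub (hf q hq).1) p h1 q h2 hne)
  -- the class point of a row in `P.image f`
  have hpt : ∀ x ∈ P.image f, ∃ p ∈ J, p ∈ Cl G Z T x ∧ p ∉ BB G Z T := by
    intro x hx
    obtain ⟨p, hp, rfl⟩ := mem_image.1 hx
    exact ⟨p, (hPm p hp).1, (hf p hp).2, (hPm p hp).2⟩
  have hsub : P.image f ⊆ rwsU G T J ∩ A := by
    intro x hx
    obtain ⟨p, hp, rfl⟩ := mem_image.1 hx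
    refine mem_inter.2 ⟨mem_rwsU.2 ⟨p, (hPm p hp).1, ?_⟩, (hf p hp).1⟩
    rw [rws_Cl (h.sub (hf p hp).1) (hf p hp).2]
    exact mem_singleton_self _
  have claim1 : ∀ v ∈ J ∩ BB G Z T, ∃ x ∈ A, x ∈ rws G T v ∧ x ∉ P.image f := by
    intro v hv
    obtain ⟨hvJ, hvB⟩ := mem_inter.1 hv
    by_contra hcon
    push Not at hcon
    obtain ⟨x, hx, hxv⟩ := h.row v (hJ hvJ)
    obtain ⟨p, hpJ, hpC, hpB⟩ := hpt x (hcon x hx hxv)
    have hrp := rws_Cl (h.sub hx) hpC
    have hvp : v ≠ p := by rintro rfl; exact hpB hvB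
    rcases h.closed x hx v (hJ hvJ) p (hJ hpJ) hxv (by rw [hrp]; exact mem_singleton_self x)
      (co_adj.2 ⟨hvp, hJi v hvJ p hpJ⟩) with ⟨y, hy, h1⟩ | ⟨y, hy, z, hz, -, -, h1⟩
    · rcases h.tail hF (mem_of_mem_erase hy) h1 with h2 | h2
      · obtain ⟨q, hqJ, hqC, -⟩ := hpt y (hcon y (mem_of_mem_erase hy) h2)
        rcases h1 q (hJ hqJ) hqC with h3 | h3
        · exact hJi v hvJ q hqJ h3
        · exact hJi p hpJ q hqJ h3
      · rw [hrp, mem_singleton] at h2
        exact ne_of_mem_erase hy h2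
    · by_cases hpT : p ∈ T
      · rw [hF.ends_T hpT] at h1
        have h3 : x ∈ (∅ : Finset V) := by rw [h1]; simp
        simp at h3
      · rw [rws_of_notMem hpT, h1] at hrp
        have h3 : z ∈ ({x} : Finset V) := by rw [← hrp]; simp
        exact ne_of_mem_erase hz (mem_singleton.1 h3)
  have hcard : J.card = P.card + (J ∩ BB G Z T).card := by
    rw [← card_filter_add_card_filter_not (s := J) (fun v => v ∉ BB G Z T)]
    congr 2
    ext v
    simp only [mem_filter, mem_inter, not_not]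
  rcases Nat.lt_or_ge (J ∩ BB G Z T).card 2 with hlt | hge
  · rcases Nat.eq_zero_or_pos (J ∩ BB G Z T).card with h0 | h0
    · rw [hcard, h0, add_zero, ← hfP]
      exact card_le_card hsub
    · obtain ⟨v, hv⟩ := card_pos.1 h0
      obtain ⟨x, hx, hxv, hxP⟩ := claim1 v hv
      have h1 : insert x (P.image f) ⊆ rwsU G T J ∩ A := insert_subset
        (mem_inter.2 ⟨mem_rwsU.2 ⟨v, (mem_inter.1 hv).1, hxv⟩, hx⟩) hsub
      have h2 := card_le_card h1
      rw [card_insert_of_notMem hxP, hfP] at h2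
      omega
  · obtain ⟨v, v', hvv, hD⟩ := card_eq_two.1 (le_antisymm hJc hge)
    have hv : v ∈ J ∩ BB G Z T := by rw [hD]; simp
    have hv' : v' ∈ J ∩ BB G Z T := by rw [hD]; simp
    obtain ⟨hvJ, hvB⟩ := mem_inter.1 hv
    obtain ⟨hvJ', hvB'⟩ := mem_inter.1 hv'
    obtain ⟨x, hx, hxv, hxP⟩ := claim1 v hv
    obtain ⟨x', hx', hxv', hxP'⟩ := claim1 v' hv'
    have claim2 : ∃ y ∈ A, y ≠ x ∧ y ∉ P.image f ∧ (y ∈ rws G T v ∨ y ∈ rws G T v') := by
      by_contra hcon
      push Not at hcon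
      have hxx : x' = x := by
        by_contra hne
        exact (hcon x' hx' hne hxP').2 hxv'
      subst hxx
      have hin : ∀ y ∈ A.erase x', (y ∈ rws G T v ∨ y ∈ rws G T v') → y ∈ P.image f := by
        intro y hy hyv
        by_contra hyP
        obtain ⟨h1, h2⟩ := hcon y (mem_of_mem_erase hy) (ne_of_mem_erase hy) hyP
        rcases hyv with h3 | h3
        · exact h1 h3
        · exact h2 h3
      rcases h.closed x' hx' v (hJ hvJ) v' (hJ hvJ') hxv hxv'
        (co_adj.2 ⟨hvv, hJi v hvJ v' hvJ'⟩) with ⟨y, hy, h1⟩ | ⟨y, hy, z, hz, hyz, h1, h2⟩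
      · obtain ⟨q, hqJ, hqC, -⟩ := hpt y (hin y hy (h.tail hF (mem_of_mem_erase hy) h1))
        rcases h1 q (hJ hqJ) hqC with h3 | h3
        · exact hJi v hvJ q hqJ h3
        · exact hJi v' hvJ' q hqJ h3
      · obtain ⟨p, hpJ, hpC, -⟩ := hpt y (hin y hy (Or.inl (by rw [rws_BB hvB, h1]; simp)))
        obtain ⟨q, hqJ, hqC, -⟩ := hpt z (hin z hz (Or.inr (by rw [rws_BB hvB', h2]; simp)))
        exact hJi p hpJ q hqJ (hF.half (h.sub (mem_of_mem_erase hy)) (h.sub (mem_of_mem_erase hz))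
          hyz (h.sub hx') hvB h1 hvB' h2 hvv (hJi v hvJ v' hvJ') hpC hqC (hJi v hvJ p hpJ)
          (hJi v' hvJ' p hpJ) (hJi v hvJ q hqJ) (hJi v' hvJ' q hqJ))
    obtain ⟨y, hy, hyx, hyP, hyv⟩ := claim2
    have h1 : insert y (insert x (P.image f)) ⊆ rwsU G T J ∩ A := by
      refine insert_subset (mem_inter.2 ⟨mem_rwsU.2 ?_, hy⟩) (insert_subset
        (mem_inter.2 ⟨mem_rwsU.2 ⟨v, hvJ, hxv⟩, hx⟩) hsub)
      rcases hyv with h3 | h3
      · exact ⟨v, hvJ, h3⟩
      · exact ⟨v', hvJ', h3⟩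
    have h2 := card_le_card h1
    rw [card_insert_of_notMem (by
      rw [mem_insert, not_or]
      exact ⟨hyx, hyP⟩), card_insert_of_notMem hxP, hfP] at h2
    omega

lemma jsys_two_iff (hF : PFrame G r m t Z T) {A S : Finset V} :
    JSys G Z T 2 A S ↔ HSys G Z T A S := ⟨fun h => h.hsys hF le_rfl, fun h => h.jsys hF⟩

variable (G Z T) in
/-- a hereditary class of closed systems -/
structure Hered (Q : Finset V → Finset V → Prop) : Prop where
  hsys : ∀ A S, Q A S → HSys G Z T A S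
  mono : ∀ A S S', Q A S → S' ⊆ S → A ⊆ S' → Q A S'
  del : ∀ (A S B : Finset V) (c : V → V), Q A S → B ⊆ A →
    (∀ i ∈ B, c i ∈ S ∧ c i ∈ Cl G Z T i) → (∀ i ∈ B, ∀ k ∈ B, ¬ G.Adj (c i) (c k)) →
    Q (A \ B) (S.filter fun v => (∃ x ∈ A \ B, x ∈ rws G T v) ∧ ∀ i ∈ B, ¬ G.Adj (c i) v)
  within : ∀ A S B : Finset V, Q A S → B ⊆ A →
    Q B (S.filter fun v => ∀ x ∈ A, x ∈ rws G T v → x ∈ B)

theorem hered_hsys (hF : PFrame G r m t Z T) : Hered G Z T (HSys G Z T) :=
  ⟨fun _ _ h => h, fun _ _ _ h h1 h2 => h.mono h1 h2, fun _ _ _ _ h h1 h2 h3 => h.del hF h1 h2 h3,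
    fun _ _ _ h h1 => h.within hF h1⟩

theorem hered_jsys (hF : PFrame G r m t Z T) (hj : 2 ≤ j) : Hered G Z T (JSys G Z T j) :=
  ⟨fun _ _ h => h.hsys hF hj, fun _ _ _ h h1 h2 => h.mono h1 h2,
    fun _ _ _ _ h h1 h2 h3 => h.del hF h1 h2 h3, fun _ _ _ h h1 => h.within h1⟩

variable {Q : Finset V → Finset V → Prop}

variable (r) in
/-- minimal system of the class `Q` with `A.card * r + 1` points -/
structure MQSys (Q : Finset V → Finset V → Prop) (A S : Finset V) : Prop where
  q : Q A S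
  two : 2 ≤ A.card
  val : S.card = A.card * r + 1
  min : ∀ B S', Q B S' → B.card < A.card → S'.card ≤ B.card * r

/-- the minimal home-free closed systems -/
lemma MQSys.mhsys {A S : Finset V} (h : MQSys r (HSys G Z T) A S) : MHSys G Z T r A S :=
  { h.q with two := h.two, val := h.val, min := h.min }

lemma MHSys.mqsys {A S : Finset V} (h : MHSys G Z T r A S) : MQSys r (HSys G Z T) A S :=
  ⟨h.toHSys, h.two, h.val, h.min⟩

/-- minimal `2`-closed systems are minimal home-free closed systems -/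
lemma MQSys.mhsys_two (hF : PFrame G r m t Z T) {A S : Finset V}
    (h : MQSys r (JSys G Z T 2) A S) : MHSys G Z T r A S :=
  { h.q.hsys hF le_rfl with
    two := h.two, val := h.val, min := fun B S' hB => h.min B S' (hB.jsys hF) }

/-- **a minimal system exists** -/
theorem Hered.exists_min (h : S2 G r m t Z T) (hr : 1 ≤ r) (hQ : Hered G Z T Q) (h0 : Q T Z) :
    ∃ A S, MQSys r Q A S := by
  let P : ℕ → Prop := fun n => ∃ A S, Q A S ∧ A.card = n ∧ n * r + 1 ≤ S.card
  have hP : ∃ n, P n := ⟨t, T, Z, h0, h.cardT, h.cardZ.ge⟩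
  obtain ⟨A, S, hS, hA, hle⟩ := Nat.find_spec hP
  have hmin : ∀ B S', Q B S' → B.card < A.card → S'.card ≤ B.card * r := by
    intro B S' hB hlt
    by_contra hcon
    rw [hA] at hlt
    exact Nat.find_min hP hlt ⟨B, S', hB, rfl, by omega⟩
  obtain ⟨U, hU1, hU2, hUc⟩ := exists_subsuperset_card_eq (n := A.card * r + 1)
    (hQ.hsys A S hS).ctr (by have := Nat.le_mul_of_pos_right A.card hr; omega)
    (by rw [hA]; exact hle)
  have hS' : Q A U := hQ.mono A S U hS hU2 hU1
  have hH := hQ.hsys A U hS'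
  refine ⟨A, U, hS', ?_, hUc, hmin⟩
  by_contra hcon
  have h4 : A.card ≤ 1 := by omega
  rcases A.eq_empty_or_nonempty with h5 | ⟨x, hx⟩
  · obtain ⟨v, hv⟩ : U.Nonempty := card_pos.1 (by rw [hUc]; omega)
    obtain ⟨x, hx, -⟩ := hH.row v hv
    rw [h5] at hx
    simp at hx
  · have h6 : A = {x} :=
      (eq_singleton_iff_unique_mem).2 ⟨hx, fun v hv => card_le_one.1 h4 v hv x hx⟩
    subst h6
    have h7 := h.omega U hH.subZ hH.clq
    rw [card_singleton] at hUc
    omega

/-- **a minimal `j`-closed system exists** -/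
theorem S2.exists_mjsys (h : S2 G r m t Z T) (hr : 1 ≤ r) (hj : 2 ≤ j) :
    ∃ A S, MQSys r (JSys G Z T j) A S :=
  (hered_jsys h.toPFrame hj).exists_min h hr (h.toPFrame.jsys j)

/-- what is left after the deletion of `B` and of the transversal -/
lemma card_law {A S B : Finset V} {c : V → V} :
    (S.filter fun v => (∃ x ∈ A \ B, x ∈ rws G T v) ∧ ∀ i ∈ B, ¬ G.Adj (c i) v).card
      + (S.filter fun v => (∀ x ∈ A, x ∈ rws G T v → x ∈ B) ∨ ∃ i ∈ B, G.Adj (c i) v).card
      = S.card := by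
  rw [← card_filter_add_card_filter_not (s := S) (fun v => (∃ x ∈ A \ B, x ∈ rws G T v) ∧
      ∀ i ∈ B, ¬ G.Adj (c i) v)]
  refine congrArg _ (congrArg _ (filter_congr fun v _ => ?_))
  constructor
  · rintro (h3 | ⟨j, hj, h3⟩) ⟨⟨x, hx, hxv⟩, h4⟩
    · exact (mem_sdiff.1 hx).2 (h3 x (mem_sdiff.1 hx).1 hxv)
    · exact h4 j hj h3
  · intro h3
    by_cases h4 : ∃ j ∈ B, G.Adj (c j) v
    · exact Or.inr h4
    · left
      intro x hx hxv
      by_contra hxB
      exact h3 ⟨⟨x, mem_sdiff.2 ⟨hx, hxB⟩, hxv⟩, fun j hj h5 => h4 ⟨j, hj, h5⟩⟩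

/-- **the law with any bound `k` for the rest** -/
theorem MQSys.law_of {A S : Finset V} (h : MQSys r Q A S) {B : Finset V} {c : V → V} {k : ℕ}
    (hk : (S.filter fun v => (∃ x ∈ A \ B, x ∈ rws G T v) ∧
      ∀ i ∈ B, ¬ G.Adj (c i) v).card ≤ k) :
    A.card * r + 1 ≤ (S.filter fun v => (∀ x ∈ A, x ∈ rws G T v → x ∈ B) ∨
      ∃ i ∈ B, G.Adj (c i) v).card + k := by
  have h1 := card_law (G := G) (T := T) (A := A) (S := S) (B := B) (c := c)
  have h2 := h.val
  omega

/-- **independent partial transversals of a minimal system** -/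
theorem MQSys.law_J (hQ : Hered G Z T Q) {A S : Finset V} (h : MQSys r Q A S)
    {B : Finset V} (hB : B ⊆ A) (hB0 : B.Nonempty) {c : V → V}
    (hc : ∀ i ∈ B, c i ∈ S ∧ c i ∈ Cl G Z T i) (hi : ∀ i ∈ B, ∀ k ∈ B, ¬ G.Adj (c i) (c k)) :
    B.card * r + 1 ≤ (S.filter fun v => (∀ x ∈ A, x ∈ rws G T v → x ∈ B) ∨
      ∃ i ∈ B, G.Adj (c i) v).card := by
  have h1 := h.law_of (h.min _ _ (hQ.del A S B c h.q hB hc hi) (by
    rw [card_sdiff_of_subset hB]
    have := card_pos.2 hB0
    have := card_le_card hB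
    omega))
  have h4 : (A \ B).card + B.card = A.card := card_sdiff_add_card_eq_card hB
  have h5 : (A \ B).card * r + B.card * r = A.card * r := by rw [← add_mul, h4]
  omega

/-- **Hall**: a proper part `B` of the rows carries at most `|B| r` points -/
theorem MQSys.hall (hQ : Hered G Z T Q) {A S : Finset V} (h : MQSys r Q A S)
    {B : Finset V} (hB : B ⊂ A) :
    (S.filter fun v => ∀ x ∈ A, x ∈ rws G T v → x ∈ B).card ≤ B.card * r :=
  h.min _ _ (hQ.within A S B h.q hB.1) (card_lt_card hB)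

/-- every point of a class part has at least `r` neighbours in `S` -/
theorem MQSys.deg (hF : PFrame G r m t Z T) (hQ : Hered G Z T Q) {A S : Finset V}
    (h : MQSys r Q A S) {y c : V} (hy : y ∈ A) (hc : c ∈ S) (hcC : c ∈ Cl G Z T y) :
    r ≤ dg G S c := by
  have hH := hQ.hsys A S h.q
  have h1 := h.law_J hQ (B := {y}) (singleton_subset_iff.2 hy) (singleton_nonempty y)
    (c := fun _ => c) (fun j hj => by
      rw [mem_singleton.1 hj]
      exact ⟨hc, hcC⟩) (fun _ _ _ _ => G.loopless.irrefl c)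
  have h2 : (S.filter fun v => (∀ x ∈ A, x ∈ rws G T v → x ∈ ({y} : Finset V)) ∨
      ∃ j ∈ ({y} : Finset V), G.Adj c v) ⊆ insert c (S.filter fun v => G.Adj c v) := by
    intro v hv
    obtain ⟨hv1, hv2⟩ := mem_filter.1 hv
    rw [mem_insert, mem_filter]
    by_cases hvc : v = c
    · exact Or.inl hvc
    right
    refine ⟨hv1, ?_⟩
    rcases hv2 with h3 | ⟨-, -, h3⟩
    · obtain ⟨x, hx, hxv⟩ := hH.row v hv1
      have hxy := mem_singleton.1 (h3 x hx hxv)
      subst hxy
      exact (hH.only_adj hF hx hv1 hxv (fun z hz hzv => mem_singleton.1 (h3 z hz hzv)) hc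
        hcC hvc).symm
    · exact h3
  have h3 := card_le_card h2
  have h4 := card_insert_le c (S.filter fun v => G.Adj c v)
  rw [card_singleton] at h1
  unfold dg
  omega

/-- **balanced homes**: `r` points in every slot, `r + 1` in the slot `x₀` -/
theorem MQSys.exists_homes (hQ : Hered G Z T Q) {A S : Finset V} (h : MQSys r Q A S)
    {x₀ : V} (hx₀ : x₀ ∈ A) :
    ∃ hm : V → V, Homes G Z T hm ∧ (∀ v ∈ S, hm v ∈ A ∧ hm v ∈ rws G T v) ∧
      ∀ x ∈ A, (S.filter fun v => hm v = x).card = r + if x = x₀ then 1 else 0 := by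
  have hsum : ∑ x ∈ A, (r + if x = x₀ then 1 else 0) = S.card := by
    rw [sum_add_distrib, sum_const, smul_eq_mul, sum_ite_eq' A x₀, if_pos hx₀, h.val]
  obtain ⟨hm, h1, h2, h3⟩ := (hQ.hsys A S h.q).exists_homes
    (cap := fun x => r + if x = x₀ then 1 else 0)
    (fun B hB => by
      by_cases hBA : B = A
      · subst hBA
        rw [hsum]
        exact card_le_card (filter_subset _ _)
      · refine (h.hall hQ (hB.ssubset_of_ne hBA)).trans ?_
        rw [sum_add_distrib, sum_const, smul_eq_mul]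
        exact Nat.le_add_right _ _)
  refine ⟨hm, h1, h2, ?_⟩
  have h4 : ∑ x ∈ A, (S.filter fun v => hm v = x).card
      = ∑ x ∈ A, (r + if x = x₀ then 1 else 0) := by
    rw [hsum]
    exact sum_slots fun v hv => (h2 v hv).1
  exact (sum_eq_sum_iff_of_le h3).1 h4

/-- **the pointwise law for slots, home points with two rows in `A` which miss `c` included** -/
theorem MQSys.law_slot (hQ : Hered G Z T Q) {A S : Finset V} (h : MQSys r Q A S)
    (hh : ∀ v ∈ S, hm v ∈ A ∧ hm v ∈ rws G T v) {y c : V} (hy : y ∈ A) (hc : c ∈ S)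
    (hcC : c ∈ Cl G Z T y) :
    r + 1 + (S.filter fun v => hm v = y ∧ (∃ x ∈ A.erase y, x ∈ rws G T v) ∧ ¬ G.Adj c v).card
      ≤ (S.filter fun v => hm v = y).card
        + ∑ x ∈ A.erase y, dg G (S.filter fun v => hm v = x) c := by
  have h1 := h.law_J hQ (B := {y}) (singleton_subset_iff.2 hy) (singleton_nonempty y)
    (c := fun _ => c) (fun j hj => by
      rw [mem_singleton.1 hj]
      exact ⟨hc, hcC⟩) (fun _ _ _ _ => G.loopless.irrefl c)
  rw [card_singleton, one_mul] at h1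
  set F1 := S.filter fun v => hm v = y ∧ (∃ x ∈ A.erase y, x ∈ rws G T v) ∧ ¬ G.Adj c v with hF1
  set F2 := S.filter fun v => hm v ≠ y ∧ G.Adj c v with hF2
  have h2 : (S.filter fun v => (∀ x ∈ A, x ∈ rws G T v → x ∈ ({y} : Finset V)) ∨
      ∃ j ∈ ({y} : Finset V), G.Adj c v) ⊆ ((S.filter fun v => hm v = y) \ F1) ∪ F2 := by
    intro v hv
    obtain ⟨hv1, hv2⟩ := mem_filter.1 hv
    rw [mem_union, mem_sdiff, mem_filter]
    by_cases hvy : hm v = y
    · left
      refine ⟨⟨hv1, hvy⟩, fun h3 => ?_⟩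
      obtain ⟨-, -, ⟨x, hx, hxv⟩, h4⟩ := mem_filter.1 h3
      rcases hv2 with h5 | ⟨-, -, h5⟩
      · exact ne_of_mem_erase hx (mem_singleton.1 (h5 x (mem_of_mem_erase hx) hxv))
      · exact h4 h5
    · right
      refine mem_filter.2 ⟨hv1, hvy, ?_⟩
      rcases hv2 with h5 | ⟨-, -, h5⟩
      · exact absurd (mem_singleton.1 (h5 _ (hh v hv1).1 (hh v hv1).2)) hvy
      · exact h5
  have h3 := (card_le_card h2).trans (card_union_le _ _)
  have h4 : F1 ⊆ S.filter fun v => hm v = y := fun v hv =>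
    mem_filter.2 ⟨(mem_filter.1 hv).1, (mem_filter.1 hv).2.1⟩
  rw [card_sdiff_of_subset h4] at h3
  have h5 := card_le_card h4
  have h6 : F2.card = ∑ x ∈ A.erase y, dg G (S.filter fun v => hm v = x) c := by
    rw [card_eq_sum_card_fiberwise (f := hm) (s := F2) (t := A.erase y) fun v hv => by
      obtain ⟨h7, h8, -⟩ := mem_filter.1 (mem_coe.1 hv)
      exact mem_coe.2 (mem_erase.2 ⟨h8, (hh v h7).1⟩)]
    refine sum_congr rfl fun x hx => ?_
    unfold dg
    refine congrArg _ ?_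
    ext v
    simp only [hF2, mem_filter]
    constructor
    · rintro ⟨⟨a1, -, a2⟩, a3⟩
      exact ⟨⟨a1, a3⟩, a2⟩
    · rintro ⟨⟨a1, a3⟩, a2⟩
      exact ⟨⟨a1, by rw [a3]; exact ne_of_mem_erase hx, a2⟩, a3⟩
  omega

/-- the number of class points -/
theorem MQSys.card_class {A S : Finset V} (h : MQSys r Q A S) :
    A.card * r + 1 ≤ (S.filter fun v => v ∉ BB G Z T).card + (BB G Z T).card := by
  have h1 := card_filter_add_card_filter_not (s := S) (fun v => v ∈ BB G Z T)
  have h2 : (S.filter fun v => v ∈ BB G Z T).card ≤ (BB G Z T).card :=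
    card_le_card fun v hv => (mem_filter.1 hv).2
  have h3 := h.val
  omega

/-- two rows of a `3`-closed system carry at most `2 r - 1` points -/
theorem JSys.card_two (hr : 7 ≤ r) (hP : PG G r) (hF : S2 G r m t Z T) {A S : Finset V}
    (h : JSys G Z T j A S) (h2 : A.card = 2) (hj : 3 ≤ j) : S.card + 1 ≤ 2 * r := by
  have h1 := h.alpha (by omega)
  rw [h2] at h1
  exact hP.level2' hr h1 fun K hK hKc hKe => by
    have := hF.omega K (hK.trans h.subZ) hKc
    omega

/-- three rows of a `4`-closed system carry at most `3 r` points -/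
theorem JSys.card_three (hr : 7 ≤ r) (hP : PG G r) {A S : Finset V}
    (h : JSys G Z T j A S) (h3 : A.card = 3) (hj : 4 ≤ j) : S.card ≤ 3 * r := by
  have h1 := h.alpha (by omega)
  rw [h3] at h1
  exact hP.level3 hr h1

/-- one row of a closed system carries at most `r - 1` points -/
theorem HSys.card_one (hF : S2 G r m t Z T) {A S : Finset V} (h : HSys G Z T A S)
    (h1 : A.card = 1) : S.card ≤ r - 1 := by
  obtain ⟨x, rfl⟩ := card_eq_one.1 h1
  exact hF.omega S h.subZ h.clq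

/-- **a minimal `3`-closed system has at least three rows** -/
theorem MQSys.three_le' (hr : 7 ≤ r) (hP : PG G r) (hF : S2 G r m t Z T) (hj : 3 ≤ j)
    {A S : Finset V} (h : MQSys r (JSys G Z T j) A S) : 3 ≤ A.card := by
  have h2 := h.two
  by_contra hcon
  have h3 : A.card = 2 := by omega
  have h4 := h.q.card_two hr hP hF h3 hj
  have h5 := h.val
  rw [h3] at h5
  omega

/-- **a minimal `4`-closed system has at least four rows** -/
theorem MQSys.four_le (hr : 7 ≤ r) (hP : PG G r) (hF : S2 G r m t Z T) (hj : 4 ≤ j)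
    {A S : Finset V} (h : MQSys r (JSys G Z T j) A S) : 4 ≤ A.card := by
  have h2 := h.three_le' hr hP hF (by omega)
  by_contra hcon
  have h3 : A.card = 3 := by omega
  have h4 := h.q.card_three hr hP h3 hj
  have h5 := h.val
  rw [h3] at h5
  omega

/-- **the law for all rows but one**: one point more -/
theorem MQSys.law_one (hF : S2 G r m t Z T) (hQ : Hered G Z T Q) (hr : 1 ≤ r) {A S : Finset V}
    (h : MQSys r Q A S) {B : Finset V} (hB : B ⊆ A) (hBc : B.card + 1 = A.card) {c : V → V}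
    (hc : ∀ i ∈ B, c i ∈ S ∧ c i ∈ Cl G Z T i) (hi : ∀ i ∈ B, ∀ k ∈ B, ¬ G.Adj (c i) (c k)) :
    B.card * r + 2 ≤ (S.filter fun v => (∀ x ∈ A, x ∈ rws G T v → x ∈ B) ∨
      ∃ i ∈ B, G.Adj (c i) v).card := by
  have h4 : (A \ B).card + B.card = A.card := card_sdiff_add_card_eq_card hB
  have h1 := h.law_of ((hQ.hsys _ _ (hQ.del A S B c h.q hB hc hi)).card_one hF (by omega))
  have h5 : A.card * r = B.card * r + r := by rw [← hBc, add_mul, one_mul]
  omega

/-- **the law for all rows but two** (`3 ≤ j`): one point more -/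
theorem MQSys.law_two (hr : 7 ≤ r) (hP : PG G r) (hF : S2 G r m t Z T) (hj : 3 ≤ j)
    {A S : Finset V} (h : MQSys r (JSys G Z T j) A S) {B : Finset V} (hB : B ⊆ A)
    (hBc : B.card + 2 = A.card) {c : V → V}
    (hc : ∀ i ∈ B, c i ∈ S ∧ c i ∈ Cl G Z T i) (hi : ∀ i ∈ B, ∀ k ∈ B, ¬ G.Adj (c i) (c k)) :
    B.card * r + 2 ≤ (S.filter fun v => (∀ x ∈ A, x ∈ rws G T v → x ∈ B) ∨
      ∃ i ∈ B, G.Adj (c i) v).card := by
  have h4 : (A \ B).card + B.card = A.card := card_sdiff_add_card_eq_card hB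
  have h0 := (h.q.del hF.toPFrame hB hc hi).card_two hr hP hF (by omega) hj
  have h1 := h.law_of (G := G) (T := T) (B := B) (c := c) (k := 2 * r - 1) (by omega)
  have h5 : A.card * r = B.card * r + 2 * r := by rw [← hBc, add_mul]
  omega

/-- the points with all rows among two given rows (`3 ≤ j`) -/
theorem MQSys.two_rows (hr : 7 ≤ r) (hP : PG G r) (hF : S2 G r m t Z T) (hj : 3 ≤ j)
    {A S : Finset V} (h : MQSys r (JSys G Z T j) A S) {B : Finset V} (hB : B ⊆ A)
    (hBc : B.card = 2) :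
    (S.filter fun v => ∀ x ∈ A, x ∈ rws G T v → x ∈ B).card + 1 ≤ 2 * r :=
  (h.q.within hB).card_two hr hP hF hBc hj

end AlfM

end Pool.Agent.Lib.MP_f04ccf_co
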