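import Pool.Agent.Lib.MP_f04ccf_co.M.Lev3
import Pool.Agent.Lib.MP_f04ccf_co.S2Crit

/-!
MP_f04ccf_co: the colour cap.  A graph on `n k + 1` points with `α ≤ k` and `ω ≤ n` has at least
`k C(n,2) + 2 n - 1` edges (Brouwer).  If `α(G[S]) ≤ n` and `|S| = n r + 1` for the graph `G` of one
colour, then every other colour has `ω ≤ n` and `α ≤ r` on `S`; so `G[S]` has `(r - 1)(n - 1)`
fewer edges than property (P) of slope `n` says.
-/

set_option autoImplicit false

namespace Pool.Agent.Lib.MP_f04ccf_co

open Finset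

attribute [local instance] Classical.propDecidable

section Brouwer

variable {V : Type*} {G : SimpleGraph V}

lemma cap_sdiff_nb_card {A : Finset V} {v : V} (hv : v ∈ A) :
    (A \ nb G A v).card = nd G A v := by
  have h1 := card_sdiff_nb (G := G) hv
  have h2 := dg_add_nd (G := G) hv
  omega

/-- two non-adjacent points have no common non-neighbour if `α ≤ 2` -/
lemma cap_nd_add {A M : Finset V} (ha : AlphaLe G A 2) (hM : M ⊆ A) {x y : V} (hx : x ∈ A)
    (hy : y ∈ A) (hxy : x ≠ y) (hn : ¬ G.Adj x y) (hxM : x ∉ M) (hyM : y ∉ M) :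
    nd G M x + nd G M y ≤ M.card := by
  unfold nd
  rw [← card_union_of_disjoint]
  · exact card_le_card (union_subset (filter_subset _ _) (filter_subset _ _))
  · rw [disjoint_left]
    intro z hz hz'
    obtain ⟨hzM, -, h1⟩ := mem_filter.1 hz
    obtain ⟨-, -, h2⟩ := mem_filter.1 hz'
    exact ha.no_triple hx hy (hM hzM) hxy (fun h => hxM (h ▸ hzM)) (fun h => hyM (h ▸ hzM))
      hn h1 h2

lemma cap_mem_nd {B : Finset V} {x y : V} :
    y ∈ B.filter (fun z => z ≠ x ∧ ¬ G.Adj x z) ↔ y ∈ B ∧ y ≠ x ∧ ¬ G.Adj x y := by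
  rw [mem_filter]

/-- base case of Brouwer's theorem: `2 n + 1` points, `α ≤ 2`, `ω ≤ n` -/
lemma brou_two {A : Finset V} {n : ℕ} (ha : AlphaLe G A 2)
    (hω : ∀ K ⊆ A, Clq G K → K.card ≤ n) (hc : A.card = 2 * n + 1) :
    NE G A ≤ 2 * n ^ 2 + 2 := by
  by_contra hlt
  rw [not_le] at hlt
  have hM : ∀ v ∈ A, Clq G (A \ nb G A v) := fun v hv => (ha.sdiff_nb G hv).clq_one
  have hm : ∀ v ∈ A, nd G A v ≤ n := by
    intro v hv
    rw [← cap_sdiff_nb_card hv]
    exact hω _ sdiff_subset (hM v hv)
  have hn1 : 1 ≤ n := by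
    have h1 := hω ∅ (empty_subset _) (fun x hx => absurd hx (notMem_empty x))
    by_contra h0
    have h2 : n = 0 := by omega
    subst h2
    obtain ⟨v, hv⟩ := card_pos.1 (show 0 < A.card by omega)
    have h3 := hω {v} (singleton_subset_iff.2 hv) (by
      intro x hx y hy hxy
      rw [mem_singleton] at hx hy
      exact absurd (hx.trans hy.symm) hxy)
    simp at h3
  have hex : ∃ v ∈ A, nd G A v = n := by
    by_contra hcon
    push Not at hcon
    have h1 : ∀ v ∈ A, nd G A v ≤ n - 1 := fun v hv => by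
      have := hm v hv
      have := hcon v hv
      omega
    have h2 : NE G A ≤ A.card * (n - 1) := by
      have := sum_le_card_nsmul A (fun v => nd G A v) (n - 1) h1
      simpa [NE] using this
    rw [hc] at h2
    obtain ⟨k, rfl⟩ : ∃ k, n = k + 1 := ⟨n - 1, by omega⟩
    simp only [Nat.add_sub_cancel] at h2
    nlinarith
  obtain ⟨v, hv, hvn⟩ := hex
  set M := A \ nb G A v with hMdef
  set B := A \ M with hBdef
  have hMA : M ⊆ A := sdiff_subset
  have hBA : B ⊆ A := sdiff_subset
  have hMclq : Clq G M := hM v hv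
  have hMcard : M.card = n := by rw [hMdef, cap_sdiff_nb_card hv, hvn]
  have hBcard : B.card = n + 1 := by
    have h1 := card_sdiff_add_card_eq_card hMA
    rw [← hBdef, hMcard, hc] at h1
    omega
  have hdis : Disjoint M B := disjoint_sdiff
  have hU : M ∪ B = A := union_sdiff_of_subset hMA
  have hBM : ∀ b ∈ B, b ∉ M := fun b hb => (mem_sdiff.1 hb).2
  set P := ∑ x ∈ B, nd G M x with hP
  have e1 : NE G A = NE G B + 2 * P := by
    have := NE_union (G := G) hdis
    rw [hU, NE_clq hMclq] at this
    omega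
  have e2 : P ≤ n * n := by
    rw [hP, nd_comm]
    have h1 : ∀ a ∈ M, nd G B a ≤ n := fun a haM =>
      (nd_mono hBA a).trans (hm a (hMA haM))
    have := sum_le_card_nsmul M (fun a => nd G B a) n h1
    rw [hMcard] at this
    simpa using this
  have e3 : P + NE G B ≤ (n + 1) * n := by
    have h1 : ∀ b ∈ B, nd G M b + nd G B b ≤ n := by
      intro b hb
      have h2 := hm b (hBA hb)
      rw [← hU, nd_union hdis] at h2
      exact h2
    have h3 := sum_le_card_nsmul B (fun b => nd G M b + nd G B b) n h1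
    rw [sum_add_distrib, hBcard] at h3
    simpa [NE] using h3
  -- adjacency of the points of `B` to `M`
  have hnad : ∀ b ∈ B, dg G M b + nd G M b = n := fun b hb => by
    rw [nd_of_notMem (hBM b hb), hMcard]
  have hsum : ∑ b ∈ B, dg G M b + P = (n + 1) * n := by
    rw [hP, ← sum_add_distrib, sum_congr rfl hnad, sum_const, hBcard, smul_eq_mul]
  have hpair : ∀ x ∈ B, ∀ y ∈ B, x ≠ y → ¬ G.Adj x y → n ≤ dg G M x + dg G M y := by
    intro x hx y hy hxy hn
    have h1 := cap_nd_add ha hMA (hBA hx) (hBA hy) hxy hn (hBM x hx) (hBM y hy)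
    have h2 := hnad x hx
    have h3 := hnad y hy
    omega
  have hmatch : ∀ x ∈ B, ∀ y ∈ B, ∀ u ∈ B, ∀ w ∈ B, x ≠ y → u ≠ w → x ≠ u → x ≠ w → y ≠ u →
      y ≠ w → ¬ G.Adj x y → ¬ G.Adj u w → False := by
    intro x hx y hy u hu w hw hxy huw hxu hxw hyu hyw h1 h2
    have h3 := hpair x hx y hy hxy h1
    have h4 := hpair u hu w hw huw h2
    have h5 : ({x, y, u, w} : Finset V) ⊆ B := by
      intro z hz
      simp only [mem_insert, mem_singleton] at hz
      rcases hz with rfl | rfl | rfl | rfl
      · exact hx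
      · exact hy
      · exact hu
      · exact hw
    have h6 := sum_le_sum_of_subset (f := fun b => dg G M b) h5
    have h7 : ∑ b ∈ ({x, y, u, w} : Finset V), dg G M b
        = dg G M x + (dg G M y + (dg G M u + dg G M w)) := by
      rw [sum_insert (by simp [hxy, hxu, hxw]), sum_insert (by simp [hyu, hyw]), sum_pair huw]
    nlinarith
  -- a point of `B` with the most non-neighbours in `B`
  obtain ⟨x, hx, hmax⟩ := exists_max_image B (fun b => nd G B b) (card_pos.1 (by omega))
  set Q := B.filter (fun z => z ≠ x ∧ ¬ G.Adj x z) with hQ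
  have hQc : Q.card = nd G B x := rfl
  have hQmem : ∀ y, y ∈ Q ↔ y ∈ B ∧ y ≠ x ∧ ¬ G.Adj x y := fun y => by rw [hQ, mem_filter]
  have hNE : 3 ≤ NE G B := by nlinarith
  have hQne : Q.Nonempty := by
    rw [← card_pos, hQc]
    by_contra h0
    have h1 : ∀ b ∈ B, nd G B b = 0 := fun b hb => by
      have := hmax b hb
      omega
    have : NE G B = 0 := by
      unfold NE
      exact sum_eq_zero h1
    omega
  have hstar : ∀ u ∈ B, ∀ w ∈ B, u ≠ w → ¬ G.Adj u w → u = x ∨ w = x := by
    intro u hu w hw huw hn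
    by_contra hcon
    rw [not_or] at hcon
    have h1 : ∀ y ∈ Q, y = u ∨ y = w := by
      intro y hy
      by_contra hc2
      rw [not_or] at hc2
      obtain ⟨hyB, hyx, hny⟩ := (hQmem y).1 hy
      exact hmatch x hx y hyB u hu w hw (Ne.symm hyx) huw (Ne.symm hcon.1) (Ne.symm hcon.2)
        hc2.1 hc2.2 hny hn
    have h2 : u ∈ Q → w ∈ Q := by
      intro huQ
      by_contra hwQ
      have h3 : Q ⊆ {u} := by
        intro y hy
        rcases h1 y hy with h | h
        · rw [h]; exact mem_singleton_self u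
        · exact absurd (h ▸ hy) hwQ
      have h4 := card_le_card h3
      rw [card_singleton, hQc] at h4
      have h5 : ({x, w} : Finset V) ⊆ B.filter (fun z => z ≠ u ∧ ¬ G.Adj u z) := by
        intro z hz
        simp only [mem_insert, mem_singleton] at hz
        rw [mem_filter]
        rcases hz with rfl | rfl
        · exact ⟨hx, Ne.symm hcon.1, fun h => ((hQmem u).1 huQ).2.2 h.symm⟩
        · exact ⟨hw, Ne.symm huw, hn⟩
      have h6 := card_le_card h5
      rw [card_pair (Ne.symm hcon.2)] at h6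
      have h7 : nd G B u ≤ nd G B x := hmax u hu
      have h8 : nd G B u = (B.filter (fun z => z ≠ u ∧ ¬ G.Adj u z)).card := rfl
      omega
    have h2' : w ∈ Q → u ∈ Q := by
      intro hwQ
      by_contra huQ
      have h3 : Q ⊆ {w} := by
        intro y hy
        rcases h1 y hy with h | h
        · exact absurd (h ▸ hy) huQ
        · rw [h]; exact mem_singleton_self w
      have h4 := card_le_card h3
      rw [card_singleton, hQc] at h4
      have h5 : ({x, u} : Finset V) ⊆ B.filter (fun z => z ≠ w ∧ ¬ G.Adj w z) := by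
        intro z hz
        simp only [mem_insert, mem_singleton] at hz
        rw [mem_filter]
        rcases hz with rfl | rfl
        · exact ⟨hx, Ne.symm hcon.2, fun h => ((hQmem w).1 hwQ).2.2 h.symm⟩
        · exact ⟨hu, huw, fun h => hn h.symm⟩
      have h6 := card_le_card h5
      rw [card_pair (Ne.symm hcon.1)] at h6
      have h7 : nd G B w ≤ nd G B x := hmax w hw
      have h8 : nd G B w = (B.filter (fun z => z ≠ w ∧ ¬ G.Adj w z)).card := rfl
      omega
    have h3 : u ∈ Q ∧ w ∈ Q := by
      obtain ⟨y, hy⟩ := hQne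
      rcases h1 y hy with h | h
      · exact ⟨h ▸ hy, h2 (h ▸ hy)⟩
      · exact ⟨h2' (h ▸ hy), h ▸ hy⟩
    obtain ⟨-, h4, h5⟩ := (hQmem u).1 h3.1
    obtain ⟨-, h6, h7⟩ := (hQmem w).1 h3.2
    exact ha.no_triple (hBA hx) (hBA hu) (hBA hw) (Ne.symm h4) (Ne.symm h6) huw h5 h7 hn
  have hNE2 : NE G B = 2 * Q.card := by
    unfold NE
    rw [← add_sum_erase B _ hx, ← hQc]
    have h1 : ∑ b ∈ B.erase x, nd G B b = ∑ b ∈ B.erase x, (if b ∈ Q then 1 else 0) := by
      refine sum_congr rfl fun b hb => ?_
      obtain ⟨hbx, hbB⟩ := mem_erase.1 hb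
      by_cases hbQ : b ∈ Q
      · rw [if_pos hbQ]
        have h2 : B.filter (fun z => z ≠ b ∧ ¬ G.Adj b z) = {x} := by
          ext z
          rw [mem_filter, mem_singleton]
          constructor
          · rintro ⟨hz, hzb, hnz⟩
            rcases hstar b hbB z hz (Ne.symm hzb) hnz with h | h
            · exact absurd h hbx
            · exact h
          · rintro rfl
            exact ⟨hx, Ne.symm hbx, fun h => ((hQmem b).1 hbQ).2.2 h.symm⟩
        unfold nd
        rw [h2, card_singleton]
      · rw [if_neg hbQ]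
        unfold nd
        rw [card_eq_zero, filter_eq_empty_iff]
        rintro z hz ⟨hzb, hnz⟩
        rcases hstar b hbB z hz (Ne.symm hzb) hnz with h | h
        · exact hbx h
        · rw [h] at hnz
          exact hbQ ((hQmem b).2 ⟨hbB, hbx, fun h' => hnz h'.symm⟩)
    have h3 : ∑ b ∈ B.erase x, (if b ∈ Q then 1 else 0) = Q.card := by
      rw [← card_filter]
      congr 1
      ext z
      rw [mem_filter, mem_erase]
      constructor
      · exact fun h => h.2
      · exact fun h => ⟨⟨((hQmem z).1 h).2.1, ((hQmem z).1 h).1⟩, h⟩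
    rw [h1, h3]
    omega
  have hax : dg G M x + 1 ≤ n := by
    by_contra h0
    have h1 : nd G M x = 0 := by
      have := hnad x hx
      omega
    have h2 : ∀ z ∈ M, G.Adj x z := by
      intro z hz
      by_contra hn
      unfold nd at h1
      rw [card_eq_zero, filter_eq_empty_iff] at h1
      exact h1 hz ⟨fun h => hBM x hx (h ▸ hz), hn⟩
    have h3 : Clq G (insert x M) := by
      intro a ha1 b hb hab
      rcases mem_insert.1 ha1 with h | h
      · rcases mem_insert.1 hb with h' | h'
        · exact absurd (h.trans h'.symm) hab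
        · rw [h]; exact h2 b h'
      · rcases mem_insert.1 hb with h' | h'
        · rw [h']; exact (h2 a h).symm
        · exact hMclq a h b h' hab
    have h4 := hω _ (insert_subset (hBA hx) hMA) h3
    rw [card_insert_of_notMem (hBM x hx)] at h4
    omega
  have hfin : dg G M x + Q.card * (n - dg G M x) ≤ ∑ b ∈ B, dg G M b := by
    have h1 : insert x Q ⊆ B := insert_subset hx (filter_subset _ _)
    have h2 := sum_le_sum_of_subset (f := fun b => dg G M b) h1
    have hxQ : x ∉ Q := fun h => ((hQmem x).1 h).2.1 rfl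
    rw [sum_insert hxQ] at h2
    have h3 : ∀ y ∈ Q, n - dg G M x ≤ dg G M y := by
      intro y hy
      obtain ⟨hyB, hyx, hn⟩ := (hQmem y).1 hy
      have := hpair x hx y hyB (Ne.symm hyx) hn
      omega
    have h4 := card_nsmul_le_sum Q (fun y => dg G M y) _ h3
    rw [smul_eq_mul] at h4
    omega
  obtain ⟨d, hd⟩ : ∃ d, n = dg G M x + 1 + d := ⟨n - (dg G M x + 1), by omega⟩
  have hd2 : n - dg G M x = d + 1 := by omega
  rw [hd2] at hfin
  have hQ1 : 1 ≤ Q.card := card_pos.2 hQne
  obtain ⟨f, hf⟩ : ∃ f, Q.card = f + 1 := ⟨Q.card - 1, by omega⟩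
  rw [hf] at hfin hNE2
  nlinarith

/-- **Brouwer's bound**: `n k + 1 + j` points, `α ≤ k`, `ω ≤ n` -/
theorem brou (n : ℕ) : ∀ k j : ℕ, ∀ A : Finset V, AlphaLe G A k →
    (∀ K ⊆ A, Clq G K → K.card ≤ n) → A.card = n * k + 1 + j →
    (k : ℤ) * n * (n - 1) + 4 * n - 2 + 2 * n * j ≤ E G A := by
  intro k
  induction k with
  | zero =>
    intro j A ha _ hc
    rw [ha.zero, card_empty] at hc
    omega
  | succ k ih =>
    intro j
    induction j with
    | zero =>
      intro A ha hω hc
      have hne : A.Nonempty := card_pos.1 (by omega)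
      obtain ⟨v, hv, hmin⟩ := exists_min_image A (fun w => dg G A w) hne
      by_cases hd : dg G A v + 1 ≤ n
      · obtain ⟨i, hi⟩ : ∃ i, n = dg G A v + 1 + i := ⟨n - (dg G A v + 1), by omega⟩
        have h1 := card_sdiff_nb (G := G) hv
        have h2 : (A \ nb G A v).card = n * k + 1 + i := by
          have : n * (k + 1) = n * k + n := by ring
          omega
        have h3 := ih i _ (ha.sdiff_nb G hv) (fun K hK hq => hω K (hK.trans sdiff_subset) hq) h2
        have h4 := E_sdiff G (nb_sub G A v)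
        have h5 := E_le G (nb G A v)
        have h6 := nb_card G hv
        have h7 := card_nsmul_le_sum (nb G A v) (fun z => dg G A z) (dg G A v)
          (fun z hz => hmin z (nb_sub G A v hz))
        rw [smul_eq_mul, h6] at h7
        rw [h6] at h5
        set d : ℤ := (dg G A v : ℤ) with hdd
        have e1 : (n : ℤ) = d + 1 + i := by rw [hdd]; exact_mod_cast hi
        have e4 : (E G A : ℤ) + E G (nb G A v) = E G (A \ nb G A v)
            + 2 * ((∑ z ∈ nb G A v, dg G A z : ℕ) : ℤ) := by exact_mod_cast h4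
        have e7 : (d + 1) * d ≤ ((∑ z ∈ nb G A v, dg G A z : ℕ) : ℤ) := by
          rw [hdd]; exact_mod_cast h7
        push_cast at h5 ⊢
        have e8 : (0 : ℤ) ≤ i := by positivity
        nlinarith
      · have h1 : n * A.card ≤ E G A := by
          have := card_nsmul_le_sum A (fun z => dg G A z) n (fun z hz => by
            have h' : dg G A v ≤ dg G A z := hmin z hz
            omega)
          rw [smul_eq_mul, mul_comm] at this
          exact this
        rcases (show k = 0 ∨ k = 1 ∨ 2 ≤ k by omega) with hk | hk | hk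
        · subst hk
          have h2 := hω A (Subset.refl _) (AlphaLe.clq_one (by simpa using ha))
          rw [hc] at h2
          omega
        · subst hk
          have h2 := brou_two (n := n) (by simpa using ha) hω (by rw [hc]; ring)
          have h3 := E_add_NE (G := G) A
          have h4 : (A.card : ℤ) = 2 * n + 1 := by rw [hc]; push_cast; ring
          rw [h4] at h3
          have h5 : (NE G A : ℤ) ≤ 2 * n ^ 2 + 2 := by exact_mod_cast h2
          push_cast
          nlinarith
        · have h2 : (n : ℤ) * A.card ≤ E G A := by exact_mod_cast h1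
          have h4 : (A.card : ℤ) = n * (k + 1) + 1 := by rw [hc]; push_cast; ring
          rw [h4] at h2
          have h5 : (2 : ℤ) ≤ k := by exact_mod_cast hk
          have h6 : (0 : ℤ) ≤ n := by positivity
          push_cast
          nlinarith
    | succ j ihj =>
      intro A ha hω hc
      have hne : A.Nonempty := card_pos.1 (by omega)
      have hex : ∃ v ∈ A, n ≤ dg G A v := by
        by_contra hcon
        push Not at hcon
        have hn : 1 ≤ n := by
          obtain ⟨v, hv⟩ := hne
          have := hcon v hv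
          omega
        have h1 : E G A + A.card ≤ A.card * n := by
          have h2 := sum_le_card_nsmul A (fun z => dg G A z + 1) n (fun z hz => hcon z hz)
          rw [sum_add_distrib, smul_eq_mul] at h2
          simpa [E] using h2
        have h2 := E_lower_q G (n : ℤ) (k + 1) A ha
        have h3 : (E G A : ℤ) + A.card ≤ A.card * n := by exact_mod_cast h1
        have h4 : (A.card : ℤ) = n * (k + 1) + 1 + (j + 1) := by rw [hc]; push_cast; ring
        rw [h4] at h2 h3
        have h5 : (0 : ℤ) ≤ n := by positivity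
        have h6 : (0 : ℤ) ≤ j := by positivity
        push_cast at h2
        nlinarith
      obtain ⟨v, hv, hvn⟩ := hex
      have h1 := ihj (A.erase v) (ha.mono G (erase_subset _ _))
        (fun K hK hq => hω K (hK.trans (erase_subset _ _)) hq) (by
          rw [card_erase_of_mem hv]; omega)
      have h2 := E_erase G hv
      have h3 : (E G A : ℤ) = E G (A.erase v) + 2 * dg G A v := by exact_mod_cast h2
      have h4 : (n : ℤ) ≤ dg G A v := by exact_mod_cast hvn
      push_cast
      push_cast at h1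
      nlinarith

end Brouwer

section CapSec

variable {V : Type*} (G : SimpleGraph V)

/-- the cap for the level sets: `α(S) ≤ n`, `|S| = n r + 1` -/
def CAP (r : ℕ) : Prop := ∀ (n : ℕ) (S : Finset V), AlphaLe G S n → S.card = n * r + 1 →
  (E G S : ℤ) ≤ (S.card : ℤ) * (S.card - 1)
    - ((r : ℤ) - 1) * (r * n * (n - 1) + 4 * n - 2)

variable {G} {r : ℕ}

lemma CAP.mono {H : SimpleGraph V} (hC : CAP G r) (h : H ≤ G) : CAP H r := by
  intro n S ha hc
  have h1 := hC n S (fun I hI hi => ha I hI (fun x hx y hy hxy => hi x hx y hy (h hxy))) hc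
  have h2 : (E H S : ℤ) ≤ E G S := by exact_mod_cast E_le_of_le h S
  linarith

/-- the cap in the form of non-edges -/
lemma CAP.ne (hC : CAP G r) {n : ℕ} {S : Finset V} (ha : AlphaLe G S n)
    (hc : S.card = n * r + 1) :
    ((r : ℤ) - 1) * (r * n * (n - 1) + 4 * n - 2) ≤ NE G S := by
  have h1 := hC n S ha hc
  have h2 := E_add_NE (G := G) S
  linarith

/-- the cap in the form of degrees: `Σ (deg - r) ≤ R (n² - 4 n + 1) + n² - 1` -/
lemma CAP.deg (hC : CAP G r) {n : ℕ} {S : Finset V} (ha : AlphaLe G S n)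
    (hc : S.card = n * r + 1) :
    ∑ v ∈ S, ((dg G S v : ℤ) - r) ≤ ((r : ℤ) - 1) * (n ^ 2 - 4 * n + 1) + n ^ 2 - 1 := by
  have h1 := hC n S ha hc
  rw [sum_sub_distrib, sum_const, nsmul_eq_mul]
  have h2 : (∑ v ∈ S, (dg G S v : ℤ)) = (E G S : ℤ) := by
    unfold E
    push_cast
    rfl
  rw [h2, hc]
  rw [hc] at h1
  push_cast at h1 ⊢
  nlinarith

end CapSec

section ColCap

variable {V : Type*} {r : ℕ} {c : V → V → Fin r} (hc : ∀ x y, c x y = c y x)

theorem CAP_col (hs : Sees c) (k : Fin r) : CAP (col c hc k) r := by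
  intro n S ha hcard
  refine E_upper_of hc k S _ fun j hj => ?_
  have h1 := brou (G := col c hc j) n r 0 S (alpha_le hc hs j S) (fun K hK hq => by
    refine ha K hK fun x hx y hy hxy => ?_
    obtain ⟨h2, h3⟩ := hxy
    exact hj ((hq x hx y hy h2).2.symm.trans h3)) (by rw [hcard])
  push_cast at h1
  linarith

end ColCap

section Level4

variable {V : Type*} {G : SimpleGraph V} {r m t : ℕ} {Z T : Finset V}

/-- (C) for a frame: the rows `C_w ∪ D_w` summed -/
theorem S2.cineq (h : S2 G r m t Z T) (hP : PG G r) :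
    2 * ((r : ℤ) - 1) ≤ ∑ w ∈ T,
      ((((BB G Z T).filter (fun z => w ∈ ends G T z)).card : ℤ)
        * (((BB G Z T).filter (fun z => w ∈ ends G T z)).card - 1)) := by
  have h1 : ∀ w ∈ T, 2 * ∑ y ∈ (BB G Z T).filter (fun z => w ∈ ends G T z),
      (((r : ℤ) - 1) - nd G (Cl G Z T w) y)
      ≤ 2 * ((r : ℤ) - 1) * (S2.a G r Z T w)
        + (((BB G Z T).filter (fun z => w ∈ ends G T z)).card : ℤ)
          * (((BB G Z T).filter (fun z => w ∈ ends G T z)).card - 1) := by
    intro w hw
    have e1 := hP.val (h.toPFrame.Cl_clq hw)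
      ((PFrame.BB_disjoint_Cl (G := G) (Z := Z) hw).mono_right
        (filter_subset (fun z => w ∈ ends G T z) (BB G Z T)))
    have e2 : (NE G ((BB G Z T).filter (fun z => w ∈ ends G T z)) : ℤ)
        ≤ (((BB G Z T).filter (fun z => w ∈ ends G T z)).card : ℤ)
          * (((BB G Z T).filter (fun z => w ∈ ends G T z)).card - 1) := by
      have e3 := E_add_NE (G := G) ((BB G Z T).filter (fun z => w ∈ ends G T z))
      have e4 : (0 : ℤ) ≤ E G ((BB G Z T).filter (fun z => w ∈ ends G T z)) := by positivity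
      linarith
    have e5 : (r : ℤ) - (Cl G Z T w).card = S2.a G r Z T w := by
      have := h.a_add hw
      have : ((S2.a G r Z T w : ℕ) : ℤ) + (Cl G Z T w).card = r := by exact_mod_cast this
      linarith
    rw [e5] at e1
    linarith
  have h2 := sum_le_sum h1
  rw [sum_add_distrib, ← mul_sum, ← mul_sum] at h2
  have h3 : ∑ w ∈ T, ∑ y ∈ (BB G Z T).filter (fun z => w ∈ ends G T z),
      (((r : ℤ) - 1) - nd G (Cl G Z T w) y)
      = ∑ y ∈ BB G Z T, ∑ w ∈ ends G T y, (((r : ℤ) - 1) - nd G (Cl G Z T w) y) := by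
    refine sum_comm' fun w y => ?_
    rw [mem_filter]
    constructor
    · rintro ⟨_, h4, h5⟩
      exact ⟨h5, h4⟩
    · rintro ⟨h4, h5⟩
      exact ⟨(mem_ends.1 h4).1, h5, h4⟩
  have h4 : ∀ y ∈ BB G Z T, ((r : ℤ) - 1)
      ≤ ∑ w ∈ ends G T y, (((r : ℤ) - 1) - nd G (Cl G Z T w) y) := by
    intro y hy
    have e1 := (mem_BB.1 hy).2
    rw [← card_ends, card_eq_two] at e1
    obtain ⟨u, w, huw, he⟩ := e1
    have hu : u ∈ T := (mem_ends.1 (by rw [he]; simp)).1
    have hw : w ∈ T := (mem_ends.1 (by rw [he]; simp)).1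
    rw [he, sum_pair huw]
    have e2 := h.pair_nd_le hu hw huw (z := y) (PFrame.mem_ZI_of_BB hy (by rw [he]))
    have e3 : Cl G Z T u ∪ Cl G Z T w ⊆ ZI G Z T {u, w} :=
      union_subset (h.toPFrame.Cl_sub_ZI' hu (by simp)) (h.toPFrame.Cl_sub_ZI' hw (by simp))
    have e4 := nd_mono (G := G) e3 y
    rw [nd_union (PFrame.Cl_disjoint hu hw huw)] at e4
    have e5 := h.lt
    have e6 : (nd G (Cl G Z T u) y : ℤ) + nd G (Cl G Z T w) y ≤ (r : ℤ) - 1 := by omega
    linarith
  have h5 := sum_le_sum h4
  rw [sum_const, nsmul_eq_mul] at h5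
  have h6 := h.b_eq
  have h7 : ((BB G Z T).card : ℤ) = 1 + ∑ v ∈ T, (S2.a G r Z T v : ℤ) := by exact_mod_cast h6
  rw [h3] at h2
  rw [h7] at h5
  nlinarith

end Level4

end Pool.Agent.Lib.MP_f04ccf_co
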