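import Pool.Agent.Lib.MP_f04ccf_co.M.R7b
import Pool.Agent.Lib.MP_f04ccf_co.M.Cap

/-!
MP_f04ccf_co: level four is impossible (`8 ≤ r`).  If `G` has the properties (P) and `CAP` (the graph
of a colour has both) then a vertex set with independence number at most `4` has at most `4 r`
points.  So every frame `S2` has at least five rows.

Proof.  `4 r + 1` points, no `r`-clique: `deg = r + ep`, `Σ ep ≤ r + 14`.  There are two
non-adjacent points with `ep = 0`; their closed neighbourhoods are disjoint, `2 r - 1` points are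
left.  These contain either two non-adjacent points with `ep = 1`, or a point with `ep = 0`, and
then a fourth point with `ep ≤ 3`.  In both cases the four points are the rows of a frame with at
most six doubles, and there is no such frame.
-/

set_option autoImplicit false

namespace Pool.Agent.Lib.MP_f04ccf_co

open Finset

attribute [local instance] Classical.propDecidable

variable {V : Type*} {G : SimpleGraph V} {r m t : ℕ} {Z T S : Finset V}

/-- frames with at most `t + 2` doubles do not exist (`8 ≤ r`): the vectors `(1, .., 1)` and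
`(2, 1, .., 1)` -/
theorem S2.dead_one_two (hr : 8 ≤ r) (hP : PG G r) (h : S2 G r m t Z T)
    (hb : (BB G Z T).card ≤ t + 2) : False := by
  have hbe := h.b_eq
  have hcT := h.cardT
  have hpos : ∀ y ∈ T, 1 ≤ S2.a G r Z T y := fun y hy => h.a_pos hy
  have hsum : ∀ S ⊆ T, S.card ≤ ∑ y ∈ S, S2.a G r Z T y := by
    intro S hS
    rw [card_eq_sum_ones]
    exact sum_le_sum fun y hy => hpos y (hS hy)
  have h2 := h.card_WW hP
  by_cases hall : ∀ y ∈ T, S2.a G r Z T y = 1
  · have h1 : WW G r Z T = ∅ := by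
      rw [eq_empty_iff_forall_notMem]
      intro w hw
      obtain ⟨u, hu, v, hv, huv, he⟩ := S2.ends_two (mem_WW.1 hw).1
      exact h.WW_ends hP (by omega) hw he huv (hall u hu) (hall v hv)
    have h3 : (OO G r Z T).card ≤ T.card := card_le_card (filter_subset _ _)
    have h4 := hsum T (Subset.refl T)
    rw [h1, card_empty] at h2
    omega
  push Not at hall
  obtain ⟨x, hx, hax⟩ := hall
  have hx1 := hpos x hx
  have hex : ∑ y ∈ T, S2.a G r Z T y = S2.a G r Z T x + ∑ y ∈ T.erase x, S2.a G r Z T y :=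
    (add_sum_erase T _ hx).symm
  have hec : (T.erase x).card + 1 = T.card := card_erase_add_one hx
  have h1 := hsum (T.erase x) (erase_subset _ _)
  have ha2 : S2.a G r Z T x = 2 := by omega
  have ho : ∀ y ∈ T, y ≠ x → S2.a G r Z T y = 1 := by
    intro y hy hyx
    have hye : y ∈ T.erase x := mem_erase.2 ⟨hyx, hy⟩
    have h5 : ∑ z ∈ T.erase x, S2.a G r Z T z
        = S2.a G r Z T y + ∑ z ∈ (T.erase x).erase y, S2.a G r Z T z :=
      (add_sum_erase _ _ hye).symm
    have h6 : ((T.erase x).erase y).card + 1 = (T.erase x).card := card_erase_add_one hye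
    have h7 := hsum ((T.erase x).erase y) ((erase_subset _ _).trans (erase_subset _ _))
    have h8 := hpos y hy
    omega
  have hOO := card_le_card (S2.OO_sub (G := G) (r := r) (Z := Z) (T := T) x (by omega))
  have hk : ∀ w ∈ WW G r Z T, nd G (Cl G Z T x) w ≤ 1 := by
    intro w hw
    obtain ⟨y, hy, hyx, he⟩ := h.hub_ends hP (by omega) ho hw
    exact h.kap_le_one hP (by omega) (mem_WW.1 hw).1 he hyx.symm (ho y hy hyx)
      ((mem_WW.1 hw).2 y hy (ho y hy hyx))
  obtain ⟨Y, hY, hYc⟩ := exists_subset_card_eq (show 3 ≤ (WW G r Z T).card by omega)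
  have h3 := h.val7 hP hx ((PFrame.BB_disjoint_Cl hx).mono_right (hY.trans (filter_subset _ _)))
  have h4 := NE_le (G := G) Y
  have h5 : ∑ v ∈ Y, nd G (Cl G Z T x) v ≤ ∑ v ∈ Y, 1 := sum_le_sum fun v hv => hk v (hY hv)
  rw [← card_eq_sum_ones, hYc] at h5
  rw [sum_sub_distrib, sum_const, nsmul_eq_mul, hYc, ha2] at h3
  rw [hYc] at h4
  have h6 : ((∑ v ∈ Y, nd G (Cl G Z T x) v : ℕ) : ℤ) ≤ 3 := by exact_mod_cast h5
  have h7 : ((NE G Y : ℕ) : ℤ) ≤ 6 := by
    have : NE G Y ≤ 6 := by omega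
    exact_mod_cast this
  have h8 : (8 : ℤ) ≤ r := by exact_mod_cast hr
  push_cast at h3 h6
  linarith

section Four

/-- the private class of a point of an independent set of full size is a clique -/
lemma priv_clq (hT : T ⊆ S) (hi : Ind G T) (ha : AlphaLe G S T.card) {x : V} (hx : x ∈ T) :
    Clq G (Cl G S T x) := by
  have key : ∀ z ∈ Cl G S T x, z ≠ x → z ∉ T ∧ ends G T z = {x} := by
    intro z hz hzx
    exact (mem_Cl.1 hz).2.resolve_left hzx
  intro z hz z' hz' hne
  by_contra hn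
  have adj : ∀ z, ends G T z = {x} → G.Adj z x := fun z hz =>
    (mem_ends.1 (by rw [hz]; exact mem_singleton_self x)).2
  by_cases h1 : z = x
  · have h2 := (key z' hz' fun h => hne (h1.trans h.symm)).2
    exact hn (h1 ▸ (adj z' h2).symm)
  by_cases h2 : z' = x
  · exact hn (h2 ▸ adj z (key z hz h1).2)
  obtain ⟨k1, k2⟩ := key z hz h1
  obtain ⟨k3, k4⟩ := key z' hz' h2
  have hno : ∀ z, ends G T z = {x} → ∀ y ∈ T.erase x, ¬ G.Adj z y := by
    intro z hz y hy hzy
    have : y ∈ ends G T z := mem_ends.2 ⟨(mem_erase.1 hy).2, hzy⟩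
    rw [hz, mem_singleton] at this
    exact (mem_erase.1 hy).1 this
  have h3 : Ind G (insert z' (T.erase x)) :=
    Ind.insert_of G (hi.mono (erase_subset _ _)) (hno z' k4)
  have h4 : Ind G (insert z (insert z' (T.erase x))) := by
    refine Ind.insert_of G h3 fun y hy => ?_
    rcases mem_insert.1 hy with rfl | hy
    · exact hn
    · exact hno z k2 y hy
  have h5 := ha _ (by
    intro y hy
    rcases mem_insert.1 hy with rfl | hy
    · exact (mem_Cl.1 hz).1
    rcases mem_insert.1 hy with rfl | hy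
    · exact (mem_Cl.1 hz').1
    · exact hT (mem_erase.1 hy).2) h4
  rw [card_insert_of_notMem, card_insert_of_notMem, card_erase_of_mem hx] at h5
  · have := card_pos.2 ⟨x, hx⟩
    omega
  · exact fun h => k3 (mem_erase.1 h).2
  · intro h
    rcases mem_insert.1 h with h | h
    · exact hne h
    · exact k1 (mem_erase.1 h).2

/-- the points with exactly one neighbour in an independent set of full size -/
lemma priv_card (hT : T ⊆ S) (hi : Ind G T) (ha : AlphaLe G S T.card)
    (hω : ∀ K ⊆ S, Clq G K → K.card + 1 ≤ r) :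
    ((S \ T).filter (fun z => dg G T z = 1)).card + 2 * T.card ≤ T.card * r := by
  have h1 : (S \ T).filter (fun z => dg G T z = 1) ⊆ T.biUnion (fun x => (Cl G S T x).erase x) := by
    intro z hz
    obtain ⟨h1, h2⟩ := mem_filter.1 hz
    obtain ⟨h3, h4⟩ := mem_sdiff.1 h1
    rw [← card_ends, card_eq_one] at h2
    obtain ⟨x, hx⟩ := h2
    have hxT : x ∈ T := (mem_ends.1 (by rw [hx]; exact mem_singleton_self x)).1
    exact mem_biUnion.2 ⟨x, hxT, mem_erase.2 ⟨fun h => h4 (h ▸ hxT),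
      mem_Cl.2 ⟨h3, Or.inr ⟨h4, hx⟩⟩⟩⟩
  have h2 : ∀ x ∈ T, ((Cl G S T x).erase x).card + 2 ≤ r := by
    intro x hx
    have h3 := hω _ (fun z hz => (mem_Cl.1 hz).1) (priv_clq hT hi ha hx)
    have h4 : x ∈ Cl G S T x := mem_Cl.2 ⟨hT hx, Or.inl rfl⟩
    have h5 := card_erase_add_one h4
    omega
  have h3 := (card_le_card h1).trans card_biUnion_le
  have h4 : ∑ x ∈ T, (((Cl G S T x).erase x).card + 2) ≤ ∑ _x ∈ T, r := sum_le_sum h2
  rw [sum_add_distrib, sum_const, sum_const, smul_eq_mul, smul_eq_mul] at h4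
  omega

/-- the degrees of the points of an independent set -/
lemma sum_dg_ind (hi : Ind G T) :
    ∑ z ∈ S \ T, dg G T z = ∑ v ∈ T, dg G S v := by
  rw [dg_comm]
  refine sum_congr rfl fun v hv => ?_
  unfold dg
  congr 1
  ext z
  simp only [mem_filter, mem_sdiff]
  constructor
  · rintro ⟨⟨h1, -⟩, h2⟩
    exact ⟨h1, h2⟩
  · rintro ⟨h1, h2⟩
    exact ⟨⟨h1, fun h => hi v hv z h h2⟩, h2⟩

/-- four independent points of small degree are the rows of a frame -/
theorem four_rows (hr : 8 ≤ r) (hP : PG G r) (hS : S.card = 4 * r + 1) (ha : AlphaLe G S 4)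
    (hω : ∀ K ⊆ S, Clq G K → K.card + 1 ≤ r) (hT : T ⊆ S) (hi : Ind G T) (hc : T.card = 4)
    (hd : ∑ v ∈ T, dg G S v ≤ 4 * r + 2 ∨
      (∑ v ∈ T, dg G S v ≤ 4 * r + 3 ∧ ∀ z ∈ S \ T, dg G T z ≤ 2)) : False := by
  have h1 := sum_dg_ind (S := S) hi
  have h2 := priv_card hT hi (by rw [hc]; exact ha) hω
  have h3 : (S \ T).card + 4 = 4 * r + 1 := by
    have := card_sdiff_add_card_eq_card hT
    omega
  have hdom : ∀ z ∈ S \ T, 1 ≤ dg G T z := by
    intro z hz
    obtain ⟨h4, h5⟩ := mem_sdiff.1 hz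
    exact dom_of_alpha hT hi hc ha h4 h5
  -- all points see at most two of the four
  have hk2 : ∀ z ∈ S \ T, dg G T z ≤ 2 := by
    rcases hd with hd | ⟨-, hd⟩
    · by_contra hcon
      push Not at hcon
      obtain ⟨z₀, hz₀, hz3⟩ := hcon
      have h4 : ∀ z ∈ S \ T, 2 + (if z = z₀ then 1 else 0)
          ≤ dg G T z + (if dg G T z = 1 then 1 else 0) := by
        intro z hz
        have := hdom z hz
        split_ifs with h5 h6 h6
        · subst h5; omega
        · subst h5; omega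
        · omega
        · omega
      have h5 := sum_le_sum h4
      rw [sum_add_distrib, sum_add_distrib, sum_const, smul_eq_mul, ← card_filter,
        ← card_filter, filter_eq' (S \ T) z₀, if_pos hz₀, card_singleton] at h5
      rw [hc] at h2
      omega
    · exact hd
  -- the number of doubles
  have hBB : (BB G S T).card ≤ 6 := by
    have h4 : ∀ z ∈ S \ T, dg G T z = 1 + (if dg G T z = 2 then 1 else 0) := by
      intro z hz
      have := hdom z hz
      have := hk2 z hz
      split_ifs with h5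
      · omega
      · omega
    have h5 : ∑ z ∈ S \ T, dg G T z
        = ∑ z ∈ S \ T, (1 + (if dg G T z = 2 then 1 else 0)) := sum_congr rfl h4
    have h6 : (BB G S T).card = ∑ z ∈ S \ T, (if dg G T z = 2 then 1 else 0) := card_filter _ _
    rw [sum_add_distrib, sum_const, smul_eq_mul, ← h6] at h5
    rcases hd with hd | ⟨hd, -⟩ <;> omega
  have hF : PFrame G r 6 4 S T := ⟨hT, hi, hc, ha, hS, hk2, hBB⟩
  have hS2 : S2 G r 6 4 S T := by
    refine ⟨hF, by omega, fun K hK hq => ?_, fun I hI => ?_⟩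
    · have := hω K hK hq
      omega
    · have h4 := hF.alpha_ZI hI.1
      have h5 := card_lt_card hI
      rw [hc] at h5
      have h6 : I.card = 0 ∨ I.card = 1 ∨ I.card = 2 ∨ I.card = 3 := by omega
      rcases h6 with h6 | h6 | h6 | h6 <;> rw [h6] at h4 ⊢
      · rw [h4.zero]; simp
      · have := hω _ (fun z hz => (mem_ZI.1 hz).1) h4.clq_one
        omega
      · exact hP.level2 (by omega) h4
      · exact hP.level3 (by omega) h4
  exact hS2.dead_one_two hr hP (by omega)

/-- `r` points contain two non-adjacent ones -/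
lemma exists_nonadj (hω : ∀ K ⊆ S, Clq G K → K.card + 1 ≤ r) {A : Finset V} (hA : A ⊆ S)
    (hc : r ≤ A.card) : ∃ v ∈ A, ∃ w ∈ A, v ≠ w ∧ ¬ G.Adj v w := by
  by_contra hcon
  push Not at hcon
  have := hω A hA fun v hv w hw hvw => hcon v hv w hw hvw
  omega

lemma mem_nb7 {v z : V} : z ∈ nb G S v ↔ z ∈ S ∧ (z = v ∨ G.Adj v z) := mem_filter

/-- two non-adjacent points of degree `r` have disjoint closed neighbourhoods -/
lemma nb_disjoint (hr : 8 ≤ r) (hP : PG G r) (hS : S.card = 4 * r + 1) (ha : AlphaLe G S 4)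
    (hω : ∀ K ⊆ S, Clq G K → K.card + 1 ≤ r) {v w : V} (hv : v ∈ S) (hw : w ∈ S) (hvw : v ≠ w)
    (hn : ¬ G.Adj v w) (dv : dg G S v = r) (dw : dg G S w = r) :
    Disjoint (nb G S v) (nb G S w) ∧ ((S \ nb G S v) \ nb G S w).card + 1 = 2 * r := by
  have h1 := card_sdiff_nb (G := G) hv
  have h2 := nb_card G hw
  have hwA : w ∈ S \ nb G S v := mem_sdiff.2 ⟨hw, fun h => by
    rcases (mem_nb7.1 h).2 with h | h
    · exact hvw h.symm
    · exact hn h⟩
  have h3 : (S \ nb G S v) \ nb G S w = (S \ nb G S v) \ nb G (S \ nb G S v) w := by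
    ext z
    simp only [mem_sdiff, mem_nb7]
    constructor
    · rintro ⟨⟨h4, h5⟩, h6⟩
      exact ⟨⟨h4, h5⟩, fun h => h6 ⟨h4, h.2⟩⟩
    · rintro ⟨⟨h4, h5⟩, h6⟩
      exact ⟨⟨h4, h5⟩, fun h => h6 ⟨⟨h4, h5⟩, h.2⟩⟩
  have h4 : AlphaLe G ((S \ nb G S v) \ nb G S w) 2 := by
    rw [h3]
    exact (ha.sdiff_nb G hv).sdiff_nb G hwA
  have h5 := hP.level2' (by omega) h4 fun K hK hq => by
    have := hω K (hK.trans (sdiff_subset.trans sdiff_subset)) hq
    omega
  have h6 := card_sdiff_add_card_inter (S \ nb G S v) (nb G S w)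
  have h7 : ((S \ nb G S v) ∩ nb G S w).card ≤ (nb G S w).card := card_le_card inter_subset_right
  have h8 : (S \ nb G S v) ∩ nb G S w = nb G S w :=
    eq_of_subset_of_card_le inter_subset_right (by omega)
  refine ⟨?_, by omega⟩
  rw [disjoint_left]
  intro z hz hz'
  rw [← h8] at hz'
  exact (mem_sdiff.1 (mem_inter.1 hz').1).2 hz

/-- four points -/
lemma four_ind {p q s u : V} (n1 : ¬ G.Adj p q) (n2 : ¬ G.Adj p s) (n3 : ¬ G.Adj p u)
    (n4 : ¬ G.Adj q s) (n5 : ¬ G.Adj q u) (n6 : ¬ G.Adj s u) : Ind G {p, q, s, u} := by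
  intro x hx y hy hxy
  simp only [mem_insert, mem_singleton] at hx hy
  rcases hx with rfl | rfl | rfl | rfl <;> rcases hy with rfl | rfl | rfl | rfl
  · exact G.loopless.irrefl _ hxy
  · exact n1 hxy
  · exact n2 hxy
  · exact n3 hxy
  · exact n1 hxy.symm
  · exact G.loopless.irrefl _ hxy
  · exact n4 hxy
  · exact n5 hxy
  · exact n2 hxy.symm
  · exact n4 hxy.symm
  · exact G.loopless.irrefl _ hxy
  · exact n6 hxy
  · exact n3 hxy.symm
  · exact n5 hxy.symm
  · exact n6 hxy.symm
  · exact G.loopless.irrefl _ hxy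

lemma four_card {p q s u : V} (h1 : p ≠ q) (h2 : p ≠ s) (h3 : p ≠ u) (h4 : q ≠ s) (h5 : q ≠ u)
    (h6 : s ≠ u) : ({p, q, s, u} : Finset V).card = 4 := by
  rw [card_insert_of_notMem (by simp [h1, h2, h3]), card_insert_of_notMem (by simp [h4, h5]),
    card_pair h6]

lemma four_sum {p q s u : V} (h1 : p ≠ q) (h2 : p ≠ s) (h3 : p ≠ u) (h4 : q ≠ s) (h5 : q ≠ u)
    (h6 : s ≠ u) (f : V → ℕ) : ∑ v ∈ ({p, q, s, u} : Finset V), f v = f p + (f q + (f s + f u)) := by
  rw [sum_insert (by simp [h1, h2, h3]), sum_insert (by simp [h4, h5]), sum_pair h6]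

/-- **level four** (no `r`-clique): there is no set with `4 r + 1` points -/
theorem level4_aux (hr : 8 ≤ r) (hP : PG G r) (hC : CAP G r) (hS : S.card = 4 * r + 1)
    (ha : AlphaLe G S 4) (hω : ∀ K ⊆ S, Clq G K → K.card + 1 ≤ r) : False := by
  have hmin : ∀ v ∈ S, r ≤ dg G S v := by
    intro v hv
    have h1 := card_sdiff_nb (G := G) hv
    have h2 := hP.level3 (by omega) (ha.sdiff_nb G hv)
    omega
  obtain ⟨f, hf⟩ : ∃ f : V → ℕ, f = fun v => dg G S v - r := ⟨_, rfl⟩
  have hdf : ∀ v ∈ S, dg G S v = r + f v := by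
    intro v hv
    have := hmin v hv
    rw [hf]
    change dg G S v = r + (dg G S v - r)
    omega
  have hsum : ∑ v ∈ S, f v ≤ r + 14 := by
    have h1 := hC.deg (n := 4) ha hS
    have h2 : ∑ v ∈ S, ((dg G S v : ℤ) - r) = ∑ v ∈ S, (f v : ℤ) :=
      sum_congr rfl fun v hv => by
        rw [hdf v hv]; push_cast; ring
    rw [h2] at h1
    have h3 : ((∑ v ∈ S, f v : ℕ) : ℤ) ≤ r + 14 := by
      push_cast at h1 ⊢
      linarith
    exact_mod_cast h3
  have hsub : ∀ A ⊆ S, ∑ v ∈ A, f v ≤ r + 14 := fun A hA =>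
    (sum_le_sum_of_subset hA).trans hsum
  -- two non-adjacent points of degree `r`
  have hE0 : r ≤ (S.filter (fun v => f v = 0)).card := by
    have h1 : ∀ v ∈ S, 1 ≤ (if f v = 0 then 1 else 0) + f v := by
      intro v _
      split_ifs with h <;> omega
    have h2 := sum_le_sum h1
    rw [sum_add_distrib, ← card_filter, ← card_eq_sum_ones] at h2
    omega
  obtain ⟨v₁, hv1, v₂, hv2, h12, n12⟩ := exists_nonadj hω (filter_subset _ _) hE0
  obtain ⟨s1, f1⟩ := mem_filter.1 hv1
  obtain ⟨s2, f2⟩ := mem_filter.1 hv2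
  have d1 := hdf v₁ s1
  have d2 := hdf v₂ s2
  rw [f1] at d1
  rw [f2] at d2
  obtain ⟨dis12, cW⟩ := nb_disjoint hr hP hS ha hω s1 s2 h12 n12 (by omega) (by omega)
  obtain ⟨W, hW⟩ : ∃ W, W = (S \ nb G S v₁) \ nb G S v₂ := ⟨_, rfl⟩
  rw [← hW] at cW
  have hWS : W ⊆ S := by
    rw [hW]
    exact sdiff_subset.trans sdiff_subset
  have hWn : ∀ z ∈ W, (z ≠ v₁ ∧ ¬ G.Adj v₁ z) ∧ (z ≠ v₂ ∧ ¬ G.Adj v₂ z) := by
    intro z hz
    have hzS := hWS hz
    rw [hW, mem_sdiff, mem_sdiff] at hz
    refine ⟨⟨?_, ?_⟩, ?_, ?_⟩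
    · exact fun h => hz.1.2 (mem_nb7.2 ⟨hzS, Or.inl h⟩)
    · exact fun h => hz.1.2 (mem_nb7.2 ⟨hzS, Or.inr h⟩)
    · exact fun h => hz.2 (mem_nb7.2 ⟨hzS, Or.inl h⟩)
    · exact fun h => hz.2 (mem_nb7.2 ⟨hzS, Or.inr h⟩)
  by_cases h0 : ∃ v ∈ W, f v = 0
  · -- a third point of degree `r`
    obtain ⟨v₃, hv3, f3⟩ := h0
    have s3 := hWS hv3
    have d3 := hdf v₃ s3
    rw [f3] at d3
    obtain ⟨⟨h13, n13⟩, h23, n23⟩ := hWn v₃ hv3
    obtain ⟨dis13, -⟩ := nb_disjoint hr hP hS ha hω s1 s3 h13.symm n13 (by omega) (by omega)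
    obtain ⟨dis23, -⟩ := nb_disjoint hr hP hS ha hω s2 s3 h23.symm n23 (by omega) (by omega)
    have hnb3 : nb G S v₃ ⊆ W := by
      intro z hz
      rw [hW, mem_sdiff, mem_sdiff]
      exact ⟨⟨nb_sub G S v₃ hz, fun h => disjoint_left.1 dis13 h hz⟩,
        fun h => disjoint_left.1 dis23 h hz⟩
    have cW3 := card_sdiff_add_card_eq_card hnb3
    have c3 := nb_card G s3
    -- the fourth point
    have h4 : ∃ v ∈ W \ nb G S v₃, f v ≤ 3 := by
      by_contra hcon
      push Not at hcon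
      have h5 : ∑ _v ∈ W \ nb G S v₃, 4 ≤ ∑ v ∈ W \ nb G S v₃, f v :=
        sum_le_sum fun v hv => hcon v hv
      have h6 := hsub (W \ nb G S v₃) (sdiff_subset.trans hWS)
      rw [sum_const, smul_eq_mul] at h5
      omega
    obtain ⟨v₄, hv4, f4⟩ := h4
    obtain ⟨hv4W, hv4n⟩ := mem_sdiff.1 hv4
    have s4 := hWS hv4W
    have d4 := hdf v₄ s4
    obtain ⟨⟨h14, n14⟩, h24, n24⟩ := hWn v₄ hv4W
    have h34 : v₃ ≠ v₄ := fun h => hv4n (mem_nb7.2 ⟨s4, Or.inl h.symm⟩)
    have n34 : ¬ G.Adj v₃ v₄ := fun h => hv4n (mem_nb7.2 ⟨s4, Or.inr h⟩)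
    refine four_rows (T := {v₁, v₂, v₃, v₄}) hr hP hS ha hω ?_
      (four_ind n12 n13 n14 n23 n24 n34)
      (four_card h12 h13.symm h14.symm h23.symm h24.symm h34) (Or.inr ⟨?_, ?_⟩)
    · intro z hz
      simp only [mem_insert, mem_singleton] at hz
      rcases hz with rfl | rfl | rfl | rfl <;> assumption
    · rw [four_sum h12 h13.symm h14.symm h23.symm h24.symm h34]
      omega
    · intro z hz
      have hzS := (mem_sdiff.1 hz).1
      have h5 : dg G {v₁, v₂, v₃, v₄} z ≤ (({v₁, v₂, v₃} : Finset V).filter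
          (fun x => G.Adj z x)).card + 1 := by
        unfold dg
        have h6 : ({v₁, v₂, v₃, v₄} : Finset V).filter (fun x => G.Adj z x) ⊆
            insert v₄ (({v₁, v₂, v₃} : Finset V).filter (fun x => G.Adj z x)) := by
          intro x hx
          simp only [mem_filter, mem_insert, mem_singleton] at hx ⊢
          tauto
        exact (card_le_card h6).trans (card_insert_le _ _)
      have h6 : (({v₁, v₂, v₃} : Finset V).filter (fun x => G.Adj z x)).card ≤ 1 := by
        rw [card_le_one]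
        have key : ∀ x, G.Adj z x → z ∈ nb G S x := fun x hx =>
          mem_nb7.2 ⟨hzS, Or.inr hx.symm⟩
        intro x hx y hy
        simp only [mem_filter, mem_insert, mem_singleton] at hx hy
        obtain ⟨hx1, hx2⟩ := hx
        obtain ⟨hy1, hy2⟩ := hy
        have kx := key x hx2
        have ky := key y hy2
        rcases hx1 with rfl | rfl | rfl <;> rcases hy1 with rfl | rfl | rfl
        · rfl
        · exact absurd ky (disjoint_left.1 dis12 kx)
        · exact absurd ky (disjoint_left.1 dis13 kx)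
        · exact absurd kx (disjoint_left.1 dis12 ky)
        · rfl
        · exact absurd ky (disjoint_left.1 dis23 kx)
        · exact absurd kx (disjoint_left.1 dis13 ky)
        · exact absurd kx (disjoint_left.1 dis23 ky)
        · rfl
      omega
  · -- two points of degree `r + 1`
    push Not at h0
    have hE1 : r ≤ (W.filter (fun v => f v = 1)).card := by
      have h1 : ∀ v ∈ W, 2 ≤ (if f v = 1 then 1 else 0) + f v := by
        intro v hv
        have := h0 v hv
        split_ifs with h <;> omega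
      have h2 := sum_le_sum h1
      rw [sum_add_distrib, ← card_filter, sum_const, smul_eq_mul] at h2
      have h3 := hsub W hWS
      omega
    obtain ⟨v₃, hv3, v₄, hv4, h34, n34⟩ := exists_nonadj hω ((filter_subset _ _).trans hWS) hE1
    obtain ⟨hv3W, f3⟩ := mem_filter.1 hv3
    obtain ⟨hv4W, f4⟩ := mem_filter.1 hv4
    have s3 := hWS hv3W
    have s4 := hWS hv4W
    have d3 := hdf v₃ s3
    have d4 := hdf v₄ s4
    obtain ⟨⟨h13, n13⟩, h23, n23⟩ := hWn v₃ hv3W
    obtain ⟨⟨h14, n14⟩, h24, n24⟩ := hWn v₄ hv4W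
    refine four_rows (T := {v₁, v₂, v₃, v₄}) hr hP hS ha hω ?_
      (four_ind n12 n13 n14 n23 n24 n34)
      (four_card h12 h13.symm h14.symm h23.symm h24.symm h34) (Or.inl ?_)
    · intro z hz
      simp only [mem_insert, mem_singleton] at hz
      rcases hz with rfl | rfl | rfl | rfl <;> assumption
    · rw [four_sum h12 h13.symm h14.symm h23.symm h24.symm h34]
      omega

/-- **level four**: `α(W) ≤ 4` implies `|W| ≤ 4 r` -/
theorem PG.level4 (hr : 8 ≤ r) (hP : PG G r) (hC : CAP G r) {W : Finset V}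
    (ha : AlphaLe G W 4) : W.card ≤ 4 * r := by
  by_contra hlt
  obtain ⟨W', hW', hc⟩ := exists_subset_card_eq (show 4 * r + 1 ≤ W.card by omega)
  have ha' : AlphaLe G W' 4 := ha.mono G hW'
  by_cases hK : ∃ K ⊆ W', Clq G K ∧ K.card = r
  · obtain ⟨K, hK1, hK2, hK3⟩ := hK
    have h1 := hP.peel (by omega) hK2 hK3 hK1 (t := 3) (by omega) ha'
    have h2 := hP.level3 (by omega) h1
    have h3 := card_sdiff_add_card_eq_card hK1
    omega
  · push Not at hK
    exact level4_aux hr hP hC hc ha' fun K hK1 hK2 =>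
      clq_lt_of_no (fun K h1 h2 => hK K h1 h2) hK1 hK2

/-- every frame has at least five rows -/
theorem S2.five_le (hr : 8 ≤ r) (hP : PG G r) (hC : CAP G r) (h : S2 G r m t Z T) : 5 ≤ t := by
  have h4 := h.four_le (by omega) hP
  by_contra hlt
  obtain rfl : t = 4 := by omega
  have h5 := hP.level4 hr hC h.alpha
  rw [h.cardZ] at h5
  omega

end Four

end Pool.Agent.Lib.MP_f04ccf_co
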