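import Pool.Agent.Lib.MP_f04ccf_co.M.J3

/-!
MP_f04ccf_co: colour rigidity.  If no clique with `n + 1` points of a graph with independence number
at most `k` meets `C`, then the degrees of the points of `C` exceed `n - 1` in total by at most
`n + 3` times the Turan excess (`rig`).  Summed over the colours other than `i` this bounds the
missing degrees in colour `i` of the points which lie in no independent set of `n + 1` points
(`RigP`, `rigP_col`).  Consequence: no `3`-closed system with three rows and `3 r + 1` points,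
`8 ≤ r` (`HSys.card_ne_three_rig`).
-/

set_option autoImplicit false

namespace Pool.Agent.Lib.MP_f04ccf_co

open Finset

attribute [local instance] Classical.propDecidable

section Rig

variable {V : Type*}

lemma consec_nonneg (z : ℤ) : 0 ≤ z * (z - 1) := by
  rcases le_or_gt z 0 with h | h
  · nlinarith
  · nlinarith

lemma E_add_two_le (G : SimpleGraph V) {N : Finset V} (h : ¬ Clq G N) :
    (E G N : ℤ) + 2 ≤ (N.card : ℤ) * (N.card - 1) := by
  unfold Clq at h
  push Not at h
  obtain ⟨x, hx, y, hy, hxy, hn⟩ := h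
  have h1 : nd G N x + nd G N y ≤ NE G N := by
    unfold NE
    rw [← sum_pair hxy (f := fun z => nd G N z)]
    exact sum_le_sum_of_subset (by
      intro z hz
      simp only [mem_insert, mem_singleton] at hz
      rcases hz with rfl | rfl <;> assumption)
  have h2 : 1 ≤ nd G N x := card_pos.2 ⟨y, mem_filter.2 ⟨hy, hxy.symm, hn⟩⟩
  have h3 : 1 ≤ nd G N y := card_pos.2 ⟨x, mem_filter.2 ⟨hx, hxy, fun h' => hn h'.symm⟩⟩
  have h4 := E_add_NE (G := G) N
  omega

/-- no clique with `n + 1` points of `S` meets `C` -/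
def NoClq (G : SimpleGraph V) (n : ℕ) (S C : Finset V) : Prop :=
  ∀ K : Finset V, K ⊆ S → Clq G K → K.card = n + 1 → ∀ c ∈ K, c ∉ C

/-- **rigidity**: if no clique with `n + 1` points meets `C`, then the degrees in `C` exceed `n - 1`
by at most `n + 3` times the Turan excess -/
theorem rig (G : SimpleGraph V) (n : ℕ) : ∀ (k : ℕ) (S C : Finset V), AlphaLe G S k → C ⊆ S →
    NoClq G n S C → 2 * ∑ c ∈ C, ((dg G S c : ℤ) - (n - 1)) ≤
      ((n : ℤ) + 3) * (E G S - 2 * n * S.card + k * (n * (n + 1))) := by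
  intro k
  induction k with
  | zero =>
    intro S C hS hC _
    have h1 := hS.zero
    subst h1
    have h2 := subset_empty.1 hC
    subst h2
    simp [E]
  | succ k ih =>
    intro S C hS hC hK
    by_cases hS0 : S = ∅
    · subst hS0
      have h2 := subset_empty.1 hC
      subst h2
      have : (0 : ℤ) ≤ ((n : ℤ) + 3) * (((k : ℤ) + 1) * (n * (n + 1))) := by positivity
      simpa [E] using this
    obtain ⟨v, hv, hmin⟩ := exists_min_image S (fun w => dg G S w) (nonempty_iff_ne_empty.2 hS0)
    have hNS := nb_sub G S v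
    have hvN : v ∈ nb G S v := mem_filter.2 ⟨hv, Or.inl rfl⟩
    have hq := nb_card G hv
    have h1 := ih (S \ nb G S v) (C \ nb G S v) (hS.sdiff_nb G hv) (sdiff_subset_sdiff hC le_rfl)
      (fun K hKS hKq hKc c hc hcC => hK K (hKS.trans sdiff_subset) hKq hKc c hc
        (mem_sdiff.1 hcC).1)
    have h2 := E_sdiff G hNS
    set N : Finset V := nb G S v with hN
    set P : ℕ := ∑ z ∈ N, dg G S z with hP
    -- degrees in `N`
    have hPq : (N.card : ℤ) * (N.card - 1) ≤ P := by
      have h3 := card_nsmul_le_sum N (fun z => dg G S z) (dg G S v) (fun z hz => hmin z (hNS hz))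
      rw [smul_eq_mul] at h3
      have h4 : (N.card : ℤ) - 1 = dg G S v := by rw [hq]; push_cast; ring
      rw [h4]
      exact_mod_cast h3
    have hEN : (E G N : ℤ) ≤ (N.card : ℤ) * (N.card - 1) := by
      have h3 := E_add_NE (G := G) N
      have h4 : (0 : ℤ) ≤ NE G N := Int.natCast_nonneg _
      omega
    -- the outer points of `C`
    have hout : ∑ c ∈ C \ N, ((dg G S c : ℤ) - (n - 1)) + E G N ≤
        ∑ c ∈ C \ N, ((dg G (S \ N) c : ℤ) - (n - 1)) + P := by
      have h3 : ∑ c ∈ C \ N, ((dg G S c : ℤ) - (n - 1)) =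
          ∑ c ∈ C \ N, ((dg G (S \ N) c : ℤ) - (n - 1)) + ((∑ c ∈ C \ N, dg G N c : ℕ) : ℤ) := by
        push_cast
        rw [← sum_add_distrib]
        refine sum_congr rfl fun c _ => ?_
        rw [dg_sdiff G hNS c]
        push_cast
        ring
      have h4 : ∑ c ∈ C \ N, dg G N c ≤ ∑ c ∈ S \ N, dg G N c :=
        sum_le_sum_of_subset (sdiff_subset_sdiff hC le_rfl)
      have h5 := dg_comm G (S \ N) N
      have h6 : P = ∑ z ∈ N, dg G (S \ N) z + E G N := by
        rw [hP]
        unfold E
        rw [← sum_add_distrib]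
        exact sum_congr rfl fun z _ => dg_sdiff G hNS z
      rw [h3]
      omega
    have hsum : ∑ c ∈ C, ((dg G S c : ℤ) - (n - 1)) =
        ∑ c ∈ C ∩ N, ((dg G S c : ℤ) - (n - 1)) + ∑ c ∈ C \ N, ((dg G S c : ℤ) - (n - 1)) := by
      have h3 := sum_sdiff (f := fun c => (dg G S c : ℤ) - (n - 1))
        (inter_subset_left : C ∩ N ⊆ C)
      rw [sdiff_inter_self_left] at h3
      rw [← h3, add_comm]
    -- the local inequality
    have hloc : 2 * ∑ c ∈ C ∩ N, ((dg G S c : ℤ) - (n - 1)) ≤ 2 * ((n : ℤ) + 2) * P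
        - (n + 1) * E G N - 2 * (n + 3) * n * N.card + (n + 3) * (n * (n + 1)) := by
      have hdeg : ∀ z ∈ N, (N.card : ℤ) - 1 ≤ dg G S z := fun z hz => by
        have h3 := hmin z (hNS hz)
        omega
      have hcs := consec_nonneg ((N.card : ℤ) - n)
      have hcs' := consec_nonneg ((N.card : ℤ) - n - 1)
      have hn0 : (0 : ℤ) ≤ n := Int.natCast_nonneg _
      have e1 : ((n : ℤ) + 1) * E G N ≤ (n + 1) * ((N.card : ℤ) * (N.card - 1)) :=
        mul_le_mul_of_nonneg_left hEN (by omega)
      have e2 : ((n : ℤ) + 1) * ((N.card : ℤ) * (N.card - 1)) ≤ (n + 1) * P :=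
        mul_le_mul_of_nonneg_left hPq (by omega)
      have e3 : 0 ≤ ((n : ℤ) + 3) * (((N.card : ℤ) - n) * ((N.card : ℤ) - n - 1)) :=
        mul_nonneg (by omega) hcs
      have e4 : 0 ≤ ((n : ℤ) + 1) * (((N.card : ℤ) - n - 1) * ((N.card : ℤ) - n - 1 - 1)) :=
        mul_nonneg (by omega) hcs'
      by_cases hqn : N.card ≤ n
      · have hD : ∑ c ∈ C ∩ N, ((dg G S c : ℤ) - (n - 1)) ≤ P - (N.card : ℤ) * (N.card - 1) := by
          have h3 : ∑ c ∈ C ∩ N, ((dg G S c : ℤ) - (n - 1)) ≤
              ∑ c ∈ C ∩ N, ((dg G S c : ℤ) - (N.card - 1)) := by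
            refine sum_le_sum fun c _ => ?_
            have : (N.card : ℤ) ≤ n := by exact_mod_cast hqn
            linarith
          have h4 : ∑ c ∈ C ∩ N, ((dg G S c : ℤ) - (N.card - 1)) ≤
              ∑ c ∈ N, ((dg G S c : ℤ) - (N.card - 1)) := by
            refine sum_le_sum_of_subset_of_nonneg inter_subset_right fun c hc _ => ?_
            have := hdeg c hc
            linarith
          have h5 : ∑ c ∈ N, ((dg G S c : ℤ) - (N.card - 1)) =
              P - (N.card : ℤ) * (N.card - 1) := by
            rw [sum_sub_distrib, sum_const, nsmul_eq_mul, hP]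
            push_cast
            ring
          linarith
        nlinarith
      · by_cases hCN : C ∩ N = ∅
        · rw [hCN, sum_empty]
          nlinarith
        · obtain ⟨c, hc⟩ := nonempty_iff_ne_empty.2 hCN
          obtain ⟨hcC, hcN⟩ := mem_inter.1 hc
          have hnq : ¬ Clq G N := by
            intro hq'
            obtain ⟨K, hK1, hK2, hK3⟩ := exists_subsuperset_card_eq
              (singleton_subset_iff.2 hcN) (show ({c} : Finset V).card ≤ n + 1 by
                rw [card_singleton]; omega) (show n + 1 ≤ N.card by omega)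
            exact hK K (hK2.trans hNS) (fun x hx y hy hxy => hq' x (hK2 hx) y (hK2 hy) hxy) hK3 c
              (hK1 (mem_singleton_self c)) hcC
          have h3 := E_add_two_le G hnq
          have hD : ∑ c ∈ C ∩ N, ((dg G S c : ℤ) - (n - 1)) ≤ P - (N.card : ℤ) * (n - 1) := by
            have h4 : ∑ c ∈ C ∩ N, ((dg G S c : ℤ) - (n - 1)) ≤
                ∑ c ∈ N, ((dg G S c : ℤ) - (n - 1)) := by
              refine sum_le_sum_of_subset_of_nonneg inter_subset_right fun c hc _ => ?_
              have h5 := hdeg c hc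
              have : (n : ℤ) < N.card := by exact_mod_cast not_le.1 hqn
              linarith
            have h5 : ∑ c ∈ N, ((dg G S c : ℤ) - (n - 1)) = P - (N.card : ℤ) * (n - 1) := by
              rw [sum_sub_distrib, sum_const, nsmul_eq_mul, hP]
              push_cast
              ring
            linarith
          have e5 : ((n : ℤ) + 1) * (E G N + 2) ≤ (n + 1) * ((N.card : ℤ) * (N.card - 1)) :=
            mul_le_mul_of_nonneg_left h3 (by omega)
          nlinarith
    have hcard : ((S \ N).card : ℤ) = S.card - N.card := by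
      have := card_sdiff_add_card_eq_card hNS
      omega
    have h2' : (E G (S \ N) : ℤ) = E G S + E G N - 2 * P := by
      omega
    rw [hcard, h2'] at h1
    rw [hsum]
    push_cast
    nlinarith

/-- colour rigidity in terms of missing degrees -/
def RigP (G : SimpleGraph V) (r : ℕ) : Prop :=
  ∀ (n : ℕ) (S C : Finset V), C ⊆ S →
    (∀ I : Finset V, I ⊆ S → Ind G I → I.card = n + 1 → ∀ x ∈ I, x ∉ C) →
    2 * ∑ x ∈ C, (nd G S x : ℤ) ≤ 2 * ((n : ℤ) - 1) * (r - 1) * C.card +
      (n + 3) * (NE G S - (r - 1) * (2 * n * S.card - r * (n * (n + 1))))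

/-- the colour classes have the rigidity property -/
theorem rigP_col {r : ℕ} {c : V → V → Fin r} {hc : ∀ x y, c x y = c y x} (hs : Sees c)
    (i : Fin r) : RigP (col c hc i) r := by
  intro n S C hCS hI
  have hr1 : (((univ.erase i : Finset (Fin r)).card : ℕ) : ℤ) = r - 1 := by
    rw [card_erase_of_mem (mem_univ i), card_univ, Fintype.card_fin]
    have : 0 < r := i.pos
    omega
  have h1 : ∀ j ∈ (univ.erase i : Finset (Fin r)),
      2 * ∑ x ∈ C, ((dg (col c hc j) S x : ℤ) - (n - 1)) ≤
      ((n : ℤ) + 3) * (E (col c hc j) S - 2 * n * S.card + r * (n * (n + 1))) := by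
    intro j hj
    refine rig (col c hc j) n r S C (alpha_le hc hs j S) hCS ?_
    intro K hK hKq hKc x hx
    exact hI K hK (clq_ind hc (ne_of_mem_erase hj).symm hKq) hKc x hx
  have h2 := sum_le_sum h1
  rw [← mul_sum, ← mul_sum, sum_comm] at h2
  have h3 : ∀ x ∈ C, ∑ j ∈ (univ.erase i : Finset (Fin r)),
      ((dg (col c hc j) S x : ℤ) - (n - 1)) = nd (col c hc i) S x - (r - 1) * (n - 1) := by
    intro x hx
    have h4 := sum_dg hc S (hCS hx)
    have h5 := dg_add_nd (G := col c hc i) (hCS hx)
    rw [← add_sum_erase univ _ (mem_univ i)] at h4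
    rw [sum_sub_distrib, sum_const, nsmul_eq_mul, hr1]
    have h6 : ((∑ j ∈ univ.erase i, dg (col c hc j) S x : ℕ) : ℤ) = nd (col c hc i) S x := by
      omega
    rw [← h6]
    push_cast
    ring
  rw [sum_congr rfl h3, sum_sub_distrib, sum_const, nsmul_eq_mul] at h2
  have h4 : ∑ j ∈ (univ.erase i : Finset (Fin r)),
      ((E (col c hc j) S : ℤ) - 2 * n * S.card + r * (n * (n + 1))) =
      NE (col c hc i) S - (r - 1) * (2 * n * S.card - r * (n * (n + 1))) := by
    have h5 := sum_E_int hc S
    rw [← add_sum_erase univ _ (mem_univ i)] at h5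
    have h6 := E_add_NE (G := col c hc i) S
    rw [sum_add_distrib, sum_sub_distrib, sum_const, sum_const, nsmul_eq_mul, nsmul_eq_mul, hr1]
    linarith
  rw [h4] at h2
  linarith

end Rig

section J3R

variable {V : Type*} {G : SimpleGraph V} {r : ℕ} {S C : Finset V}

/-- **no `Tri` for `8 ≤ r`** -/
theorem Tri.false_rig (hr : 8 ≤ r) (hP : PG G r) (hR : RigP G r) (h : Tri G r S C) : False := by
  have h1 := hR 3 S C h.sub h.no4
  have hS : (S.card : ℤ) = 3 * r + 1 := by exact_mod_cast h.card
  have hC : (2 : ℤ) * r + 1 ≤ C.card := by exact_mod_cast h.big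
  have hr' : (8 : ℤ) ≤ r := by exact_mod_cast hr
  have h2 : (NE G S : ℤ) = ∑ x ∈ C, (nd G S x : ℤ) + ∑ x ∈ S \ C, (nd G S x : ℤ) := by
    unfold NE
    push_cast
    rw [add_comm]
    exact (sum_sdiff h.sub).symm
  have h3 : ∑ x ∈ C, (nd G S x : ℤ) ≤ C.card * (2 * r - 1) := by
    rw [← nsmul_eq_mul]
    refine sum_le_card_nsmul C _ _ fun x hx => ?_
    have := h.nd_C (by omega) hP hx
    omega
  have h4 : ∑ x ∈ S \ C, (nd G S x : ℤ) ≤ (S.card - C.card) * (2 * r) := by
    have h5 : ((S \ C).card : ℤ) = S.card - C.card := by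
      have := card_sdiff_add_card_eq_card h.sub
      omega
    rw [← h5, ← nsmul_eq_mul]
    refine sum_le_card_nsmul _ _ _ fun x hx => ?_
    have := h.nd_S (by omega) hP (mem_sdiff.1 hx).1
    omega
  rw [h2] at h1
  rw [hS] at h1 h4
  push_cast at h1
  nlinarith

variable {Z T : Finset V} {m t : ℕ}

/-- **no `3`-closed system with three rows and `3 r + 1` points**, `8 ≤ r` -/
theorem HSys.card_ne_three_rig (hr : 8 ≤ r) (hP : PG G r) (hR : RigP G r)
    (hF : S2 G r m t Z T) (hm : m ≤ r) {A S : Finset V} (h : HSys G Z T A S) (h3 : A.card = 3)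
    (hj : ∀ I : Finset V, I ⊆ S → Ind G I → (I.filter fun v => v ∈ BB G Z T).card ≤ 3 →
      I.card ≤ 3) : S.card ≤ 3 * r := by
  by_contra hcon
  obtain ⟨S', hS'1, hS'2, hS'3⟩ := exists_subsuperset_card_eq h.ctr
    (show A.card ≤ 3 * r + 1 by omega) (show 3 * r + 1 ≤ S.card by omega)
  have h' := h.mono hS'2 hS'1
  refine Tri.false_rig hr hP hR (S := S') (C := S'.filter fun v => v ∉ BB G Z T) ?_
  refine ⟨hS'3, filter_subset _ _, ?_, ?_, fun K hK hq => h'.omega hF hK hq⟩
  · have h4 := card_filter_add_card_filter_not (s := S') (fun v => v ∈ BB G Z T)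
    have h5 : (S'.filter fun v => v ∈ BB G Z T).card ≤ (BB G Z T).card :=
      card_le_card fun v hv => (mem_filter.1 hv).2
    have h6 := hF.b
    omega
  · intro I hI hIi hI4 c hc hcC
    have h4 : (I.filter fun v => v ∈ BB G Z T).card ≤ 3 := by
      have h5 : I.filter (fun v => v ∈ BB G Z T) ⊆ I.erase c := by
        intro v hv
        obtain ⟨h6, h7⟩ := mem_filter.1 hv
        exact mem_erase.2 ⟨fun he => (mem_filter.1 hcC).2 (he ▸ h7), h6⟩
      have h6 := card_le_card h5
      rw [card_erase_of_mem hc] at h6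
      omega
    have h5 := hj I (hI.trans hS'2) hIi h4
    omega

end J3R

end Pool.Agent.Lib.MP_f04ccf_co
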