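import Pool.Agent.Lib.MP_f04ccf_co.M.AlfM
import Pool.Agent.Lib.MP_f04ccf_co.M.Lev4
import Pool.Agent.Lib.MP_f04ccf_co.M.Rig
import Pool.Agent.Lib.MP_f04ccf_co.M.JFront

/-!
MP_f04ccf_co: the class of the `f n`-closed systems, `n` the number of rows (`FSys`, note 16001 of
helper23), hereditary for nondecreasing `f`; the front of a row has independent sets of at most
`min (f (n - 1) + 1) n` points (`MQSys.blkn_f`, `MQSys.d3h_f`; `MQSys.blkn_min`, `MQSys.d3h_min` for
constant `f`).  Systems in which all independent sets are counted (`JSys.alpha_frame`: `m ≤ j`):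
independence number at most `n`, the cap `MQSys.cap_ne`, at least five rows (`S2.exists_alpha`).
-/

set_option autoImplicit false

namespace Pool.Agent.Lib.MP_f04ccf_co

open Finset

attribute [local instance] Classical.propDecidable

section AlfN

variable {V : Type*} {G : SimpleGraph V} {Z T : Finset V} {hm : V → V} {r m t j : ℕ}

variable (G Z T) in
/-- `f n`-closed systems, where `n` is the number of rows -/
def FSys (f : ℕ → ℕ) (A S : Finset V) : Prop := JSys G Z T (f A.card) A S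

lemma fsys_const : FSys G Z T (fun _ => j) = JSys G Z T j := rfl

/-- **`f n`-closed systems are hereditary** -/
theorem hered_fsys (hF : PFrame G r m t Z T) {f : ℕ → ℕ} (hf : Monotone f) (h2 : ∀ n, 2 ≤ f n) :
    Hered G Z T (FSys G Z T f) :=
  ⟨fun _ _ h => JSys.hsys hF (h2 _) h, fun _ _ _ h h1 h3 => JSys.mono h h1 h3,
    fun _ _ _ _ h h1 h3 h4 => (JSys.del hF h h1 h3 h4).mono_j (hf (card_le_card sdiff_subset)),
    fun _ _ _ h h1 => (JSys.within h h1).mono_j (hf (card_le_card h1))⟩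

/-- **a minimal `f n`-closed system exists** -/
theorem S2.exists_fsys (h : S2 G r m t Z T) (hr : 1 ≤ r) {f : ℕ → ℕ} (hf : Monotone f)
    (h2 : ∀ n, 2 ≤ f n) : ∃ A S, MQSys r (FSys G Z T f) A S :=
  (hered_fsys h.toPFrame hf h2).exists_min h hr (h.toPFrame.jsys _)

/-- the systems without the row `y` -/
lemma MQSys.erase_min {f : ℕ → ℕ} {A S : Finset V} (h : MQSys r (FSys G Z T f) A S) {y : V}
    (hy : y ∈ A) (S' : Finset V) (hJ : JSys G Z T (f (A.card - 1)) (A.erase y) S') :
    S'.card ≤ (A.card - 1) * r := by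
  have h1 : (A.erase y).card = A.card - 1 := card_erase_of_mem hy
  have h2 := h.min (A.erase y) S' (by rw [FSys, h1]; exact hJ) (card_erase_lt_of_mem hy)
  rwa [h1] at h2

/-- **the front number of a row**, rank at most the number of rows -/
theorem JSys.blkn_min (hF : PFrame G r m t Z T) {A S : Finset V} (h : JSys G Z T j A S)
    (hh : ∀ v ∈ S, hm v ∈ A ∧ hm v ∈ rws G T v) {y : V} (hy : y ∈ A) {b : ℕ}
    (hb : ∀ S' ⊆ S, JSys G Z T j (A.erase y) S' → S'.card ≤ b) :
    Blkn G (Min.min (j + 1) A.card) (S.filter fun v => v ∈ Cl G Z T y)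
      (S.filter fun v => hm v ≠ y ∧ v ∉ A) (S.card - b - (S.filter fun v => hm v = y).card) := by
  intro X hX
  by_cases hJ : JSys G Z T j (A.erase y) ((S.filter fun v => hm v ≠ y) \ (X \ A))
  · have h1 := hb _ (sdiff_subset.trans (filter_subset _ _)) hJ
    have h2 : S ⊆ ((S.filter fun v => hm v ≠ y) \ (X \ A)) ∪
        ((S.filter fun v => hm v = y) ∪ X) := by
      intro v hv
      by_cases h3 : hm v = y
      · exact mem_union_right _ (mem_union_left _ (mem_filter.2 ⟨hv, h3⟩))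
      by_cases h4 : v ∈ X
      · exact mem_union_right _ (mem_union_right _ h4)
      · exact mem_union_left _ (mem_sdiff.2 ⟨mem_filter.2 ⟨hv, h3⟩,
          fun h5 => h4 (mem_sdiff.1 h5).1⟩)
    have h3 := (card_le_card h2).trans (card_union_le _ _)
    have h4 := card_union_le (S.filter fun v => hm v = y) X
    omega
  · exfalso
    obtain ⟨I, h1, h2, h3, -, h5, -, -, h4⟩ := h.wit_homes hF hh hy
      (disjoint_left.2 fun v hv hv' => (mem_sdiff.1 hv').2 hv) hJ
    have h6 : I.card ≤ A.card := h5.trans_le (card_le_card inter_subset_right)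
    have h5 : I ∈ BFn G (min (j + 1) A.card) (S.filter fun v => v ∈ Cl G Z T y)
        (S.filter fun v => hm v ≠ y ∧ v ∉ A) :=
      mem_BFn.2 ⟨h1.trans sdiff_subset, le_min h2 h6, h3, fun c hc =>
        h4 c (mem_filter.1 hc).1 (mem_filter.1 hc).2⟩
    obtain ⟨v, hv⟩ := hX I h5
    obtain ⟨h6, h7⟩ := mem_inter.1 hv
    obtain ⟨h8, h9⟩ := mem_sdiff.1 (h1 h6)
    exact h9 (mem_sdiff.2 ⟨h7, (mem_filter.1 h8).2.2⟩)

/-- **(D3H) for the slots of homes of a `j`-closed system** with the rank `min (j + 1) |A|` -/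
theorem JSys.d3h_min (hF : PFrame G r m t Z T) (hP : PG G r) (hj : 2 ≤ j) {A S : Finset V}
    (h : JSys G Z T j A S) (hh : ∀ v ∈ S, hm v ∈ A ∧ hm v ∈ rws G T v) {y : V} (hy : y ∈ A)
    {b : ℕ} (hb : ∀ S' ⊆ S, JSys G Z T j (A.erase y) S' → S'.card ≤ b)
    {W : Finset V} (hW : Disjoint (S.filter fun v => hm v = y) W) {l : ℕ} (hl : l ≤ 2)
    (hWl : b + (S.filter fun v => hm v = y).card + W.card + l ≤ S.card) :
    ∃ W' ⊆ S.filter fun v => hm v ≠ y ∧ v ∉ A, Disjoint W W' ∧
      W'.card ≤ szn (Min.min (j + 1) A.card) l ∧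
      (∀ c ∈ S, c ∈ Cl G Z T y → l ≤ dg G W' c) ∧
      2 * ((r : ℤ) - 1) * (((S.filter fun v => hm v = y).card : ℤ) - r)
        + 2 * ∑ c ∈ S.filter fun v => v ∈ Cl G Z T y, (dg G W c : ℤ)
        + 2 * l * (S.filter fun v => v ∈ Cl G Z T y).card
        + 2 * ∑ v ∈ W ∪ W', (dg G (HP G Z T (fun x => S.filter fun v => hm v = x) y) v : ℤ)
        ≤ NE G (S.filter fun v => hm v = y) + NE G (W ∪ W')
          + 2 * ((W.card : ℤ) + W'.card)
            * (((S.filter fun v => hm v = y).card : ℤ) - r + 1) := by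
  obtain ⟨P, h1, h2, h3⟩ := (h.blkn_min hF hh hy hb).front (W := W) (l := l) (by omega) hl
  have h4 : P ⊆ S.filter fun v => hm v ≠ y ∧ v ∉ A := h1.trans sdiff_subset
  have h5 : Disjoint W P := by
    rw [disjoint_left]
    intro v hv hv'
    exact (mem_sdiff.1 (h1 hv')).2 hv
  have h6 : Disjoint (S.filter fun v => hm v = y) P := by
    rw [disjoint_left]
    intro v hv hv'
    exact (mem_filter.1 (h4 hv')).2.1 (mem_filter.1 hv).2
  have hH := h.hsys hF hj
  have hcp := hH.CP_eq hh hy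
  have h7 := (hH.csys hF hh).d3h hF hP hy (W := W) (W' := P) (l := l) hW h6 h5 (by
    rw [hcp]
    exact h3)
  rw [hcp] at h7
  exact ⟨P, h4, h5, h2, fun c hc hcC => h3 c (mem_filter.2 ⟨hc, hcC⟩), h7⟩

/-- **the front number of a row of a minimal `f n`-closed system, any homes** -/
theorem MQSys.blkn_f (hF : PFrame G r m t Z T) {f : ℕ → ℕ} (hf : Monotone f) {A S : Finset V}
    (h : MQSys r (FSys G Z T f) A S) (hh : ∀ v ∈ S, hm v ∈ A ∧ hm v ∈ rws G T v) {y : V}
    (hy : y ∈ A) :
    Blkn G (Min.min (f (A.card - 1) + 1) A.card) (S.filter fun v => v ∈ Cl G Z T y)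
      (S.filter fun v => hm v ≠ y ∧ v ∉ A) (r + 1 - (S.filter fun v => hm v = y).card) := by
  have h0 : JSys G Z T (f (A.card - 1)) A S := JSys.mono_j h.q (hf (Nat.sub_le _ _))
  have h1 := h0.blkn_min hF hh hy (b := (A.card - 1) * r) (fun S' _ hJ => h.erase_min hy S' hJ)
  refine h1.mono le_rfl (Subset.refl _) (Subset.refl _) ?_
  have h2 := h.val
  have h3 := h.two
  have h4 : A.card * r = (A.card - 1) * r + r := by
    obtain ⟨k, hk⟩ := Nat.exists_eq_add_of_le' (show 1 ≤ A.card by omega)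
    rw [hk, Nat.add_sub_cancel]
    ring
  omega

/-- **(D3H) in a minimal `f n`-closed system, any homes** -/
theorem MQSys.d3h_f (hF : PFrame G r m t Z T) (hP : PG G r) {f : ℕ → ℕ} (hf : Monotone f)
    (h2 : ∀ n, 2 ≤ f n) {A S : Finset V} (h : MQSys r (FSys G Z T f) A S)
    (hh : ∀ v ∈ S, hm v ∈ A ∧ hm v ∈ rws G T v) {y : V} (hy : y ∈ A) {W : Finset V}
    (hW : Disjoint (S.filter fun v => hm v = y) W) {l : ℕ} (hl : l ≤ 2)
    (hWl : (S.filter fun v => hm v = y).card + W.card + l ≤ r + 1) :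
    ∃ W' ⊆ S.filter fun v => hm v ≠ y ∧ v ∉ A, Disjoint W W' ∧
      W'.card ≤ szn (Min.min (f (A.card - 1) + 1) A.card) l ∧
      (∀ c ∈ S, c ∈ Cl G Z T y → l ≤ dg G W' c) ∧
      2 * ((r : ℤ) - 1) * (((S.filter fun v => hm v = y).card : ℤ) - r)
        + 2 * ∑ c ∈ S.filter fun v => v ∈ Cl G Z T y, (dg G W c : ℤ)
        + 2 * l * (S.filter fun v => v ∈ Cl G Z T y).card
        + 2 * ∑ v ∈ W ∪ W', (dg G (HP G Z T (fun x => S.filter fun v => hm v = x) y) v : ℤ)
        ≤ NE G (S.filter fun v => hm v = y) + NE G (W ∪ W')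
          + 2 * ((W.card : ℤ) + W'.card)
            * (((S.filter fun v => hm v = y).card : ℤ) - r + 1) := by
  have h0 : JSys G Z T (f (A.card - 1)) A S := JSys.mono_j h.q (hf (Nat.sub_le _ _))
  refine h0.d3h_min hF hP (h2 _) hh hy (b := (A.card - 1) * r)
    (fun S' _ hJ => h.erase_min hy S' hJ) hW hl ?_
  have h2 := h.val
  have h3 := h.two
  have h4 : A.card * r = (A.card - 1) * r + r := by
    obtain ⟨k, hk⟩ := Nat.exists_eq_add_of_le' (show 1 ≤ A.card by omega)
    rw [hk, Nat.add_sub_cancel]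
    ring
  omega

/-- **the front number of a row in a minimal `j`-closed system, any homes**, rank at most `|A|` -/
theorem MQSys.blkn_min (hF : PFrame G r m t Z T) {A S : Finset V}
    (h : MQSys r (JSys G Z T j) A S) (hh : ∀ v ∈ S, hm v ∈ A ∧ hm v ∈ rws G T v) {y : V}
    (hy : y ∈ A) :
    Blkn G (Min.min (j + 1) A.card) (S.filter fun v => v ∈ Cl G Z T y)
      (S.filter fun v => hm v ≠ y ∧ v ∉ A) (r + 1 - (S.filter fun v => hm v = y).card) :=
  MQSys.blkn_f hF (f := fun _ => j) monotone_const h hh hy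

/-- **(D3H) in a minimal `j`-closed system, any homes**, rank at most `|A|` -/
theorem MQSys.d3h_min (hF : PFrame G r m t Z T) (hP : PG G r) (hj : 2 ≤ j) {A S : Finset V}
    (h : MQSys r (JSys G Z T j) A S) (hh : ∀ v ∈ S, hm v ∈ A ∧ hm v ∈ rws G T v) {y : V}
    (hy : y ∈ A) {W : Finset V} (hW : Disjoint (S.filter fun v => hm v = y) W) {l : ℕ}
    (hl : l ≤ 2) (hWl : (S.filter fun v => hm v = y).card + W.card + l ≤ r + 1) :
    ∃ W' ⊆ S.filter fun v => hm v ≠ y ∧ v ∉ A, Disjoint W W' ∧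
      W'.card ≤ szn (Min.min (j + 1) A.card) l ∧
      (∀ c ∈ S, c ∈ Cl G Z T y → l ≤ dg G W' c) ∧
      2 * ((r : ℤ) - 1) * (((S.filter fun v => hm v = y).card : ℤ) - r)
        + 2 * ∑ c ∈ S.filter fun v => v ∈ Cl G Z T y, (dg G W c : ℤ)
        + 2 * l * (S.filter fun v => v ∈ Cl G Z T y).card
        + 2 * ∑ v ∈ W ∪ W', (dg G (HP G Z T (fun x => S.filter fun v => hm v = x) y) v : ℤ)
        ≤ NE G (S.filter fun v => hm v = y) + NE G (W ∪ W')
          + 2 * ((W.card : ℤ) + W'.card)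
            * (((S.filter fun v => hm v = y).card : ℤ) - r + 1) :=
  MQSys.d3h_f hF hP (f := fun _ => j) monotone_const (fun _ => hj) h hh hy hW hl hWl

/-- **the independence number, when all doubles are counted** -/
theorem JSys.alpha_frame (hF : PFrame G r m t Z T) (hj : m ≤ j) {A S : Finset V}
    (h : JSys G Z T j A S) : AlphaLe G S A.card :=
  h.alpha_of_BB (((card_le_card inter_subset_right).trans hF.b).trans hj)

/-- the cap for minimal systems with the independence number of their rows -/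
theorem MQSys.cap_ne (hC : CAP G r) {Q : Finset V → Finset V → Prop} {A S : Finset V}
    (h : MQSys r Q A S) (ha : AlphaLe G S A.card) :
    ((r : ℤ) - 1) * (r * A.card * (A.card - 1) + 4 * A.card - 2) ≤ NE G S :=
  hC.ne ha h.val

/-- the cap in the form of degrees -/
theorem MQSys.cap_deg (hC : CAP G r) {Q : Finset V → Finset V → Prop} {A S : Finset V}
    (h : MQSys r Q A S) (ha : AlphaLe G S A.card) :
    ∑ v ∈ S, ((dg G S v : ℤ) - r) ≤
      ((r : ℤ) - 1) * ((A.card : ℤ) ^ 2 - 4 * A.card + 1) + (A.card : ℤ) ^ 2 - 1 :=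
  hC.deg ha h.val

/-- **a minimal system with at least five rows in which all independent sets are counted** -/
theorem S2.exists_alpha (hr : 8 ≤ r) (hP : PG G r) (hC : CAP G r) (hF : S2 G r m t Z T)
    (hm : m ≤ r) : ∃ A S, MQSys r (JSys G Z T r) A S ∧ 5 ≤ A.card ∧ AlphaLe G S A.card ∧
      ((r : ℤ) - 1) * (r * A.card * (A.card - 1) + 4 * A.card - 2) ≤ NE G S := by
  obtain ⟨A, S, h⟩ := hF.exists_mjsys (j := r) (by omega) (by omega)
  have ha := h.q.alpha_frame hF.toPFrame hm
  refine ⟨A, S, h, ?_, ha, h.cap_ne hC ha⟩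
  have h4 := h.four_le (by omega) hP hF (by omega)
  by_contra hcon
  have h5 : A.card = 4 := by omega
  have h6 := h.val
  rw [h5] at ha h6
  have h7 := hP.level4 hr hC ha
  omega

/-- the number of rows of a minimal `f n`-closed system: `3 ≤ f 2`, `3 ≤ f 3` (rigidity) -/
theorem MQSys.four_le_f (hr : 8 ≤ r) (hP : PG G r) (hR : RigP G r) (hF : S2 G r m t Z T)
    (hm : m ≤ r) {f : ℕ → ℕ} (h2 : 3 ≤ f 2) (h3 : 3 ≤ f 3) {A S : Finset V}
    (h : MQSys r (FSys G Z T f) A S) : 4 ≤ A.card := by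
  have h4 := h.two
  by_contra hcon
  have h5 : A.card = 2 ∨ A.card = 3 := by omega
  rcases h5 with h5 | h5
  · have h6 : JSys G Z T (f 2) A S := by
      have h7 := h.q
      rwa [FSys, h5] at h7
    have h7 := h6.card_two (by omega) hP hF h5 h2
    have h8 := h.val
    rw [h5] at h8
    omega
  · have h6 : JSys G Z T (f 3) A S := by
      have h7 := h.q
      rwa [FSys, h5] at h7
    have h7 := HSys.card_ne_three_rig hr hP hR hF hm (h6.hsys hF.toPFrame (by omega)) h5
      (fun I hI hIi hI3 => by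
        have h8 : I ∩ BB G Z T = I.filter fun v => v ∈ BB G Z T := by
          ext v
          simp only [mem_inter, mem_filter]
        exact (h6.ind I hI hIi (by rw [h8]; omega)).trans
          ((card_le_card inter_subset_right).trans h5.le))
    have h8 := h.val
    rw [h5] at h8
    omega

/-- the number of rows of a minimal `f n`-closed system: at least five when `5 ≤ f 4` -/
theorem MQSys.five_le_f (hr : 8 ≤ r) (hP : PG G r) (hR : RigP G r) (hC : CAP G r)
    (hF : S2 G r m t Z T) (hm : m ≤ r) {f : ℕ → ℕ} (h2 : 3 ≤ f 2) (h3 : 3 ≤ f 3) (h4 : 5 ≤ f 4)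
    {A S : Finset V} (h : MQSys r (FSys G Z T f) A S) : 5 ≤ A.card := by
  have h5 := h.four_le_f hr hP hR hF hm h2 h3
  by_contra hcon
  have h6 : A.card = 4 := by omega
  have h7 : JSys G Z T (f 4) A S := by
    have h7 := h.q
    rwa [FSys, h6] at h7
  have h8 := h7.alpha (by omega)
  rw [h6] at h8
  have h9 := hP.level4 hr hC h8
  have h10 := h.val
  rw [h6] at h10
  omega

end AlfN

end Pool.Agent.Lib.MP_f04ccf_co
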