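import Pool.Agent.Lib.MP_f04ccf_co.M.Code
import Pool.Agent.Lib.MP_f04ccf_co.S2Red

/-!
MP_f04ccf_co: note 14780 (c): outside the closed neighbourhood of an independent set of size `k - 2`
there are at most `2 r - 1` vertices of `U` (`r ≥ 6`). The complement of the graph on `2 r` such
vertices would be triangle free and regular of degree `r - 1` without an independent set of size `r`.
-/

set_option autoImplicit false

namespace Pool.Agent.Lib.MP_f04ccf_co.Mn

open Finset

attribute [local instance] Classical.propDecidable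

section Gen

variable {V : Type*} {G : SimpleGraph V} {r : ℕ}

/-- the vertices of `W` not adjacent to `v`, other than `v` -/
noncomputable def fn (G : SimpleGraph V) (W : Finset V) (v : V) : Finset V :=
  W.filter (fun y => y ≠ v ∧ ¬ G.Adj v y)

lemma mem_fn {W : Finset V} {v y : V} : y ∈ fn G W v ↔ y ∈ W ∧ y ≠ v ∧ ¬ G.Adj v y := mem_filter

lemma fn_symm {W : Finset V} {u v : V} (hu : u ∈ W) (h : v ∈ fn G W u) : u ∈ fn G W v :=
  mem_fn.2 ⟨hu, (mem_fn.1 h).2.1.symm, fun h' => (mem_fn.1 h).2.2 h'.symm⟩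

lemma fn_clq {W : Finset V} (hα : AlphaLe G W 2) {v : V} (hv : v ∈ W) : Clq G (fn G W v) := by
  intro x hx y hy hxy
  by_contra hadj
  obtain ⟨hx1, hx2, hx3⟩ := mem_fn.1 hx
  obtain ⟨hy1, hy2, hy3⟩ := mem_fn.1 hy
  have h1 := hα {v, x, y} (by
    intro z hz
    simp only [mem_insert, mem_singleton] at hz
    rcases hz with rfl | rfl | rfl
    · exact hv
    · exact hx1
    · exact hy1) (by
    intro a ha b hb hab
    simp only [mem_insert, mem_singleton] at ha hb
    rcases ha with rfl | rfl | rfl <;> rcases hb with rfl | rfl | rfl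
    · exact hab.ne rfl
    · exact hx3 hab
    · exact hy3 hab
    · exact hx3 hab.symm
    · exact hab.ne rfl
    · exact hadj hab
    · exact hy3 hab.symm
    · exact hadj hab.symm
    · exact hab.ne rfl)
  have h2 : ({v, x, y} : Finset V).card = 3 := by
    rw [card_insert_of_notMem, card_insert_of_notMem, card_singleton]
    · rwa [mem_singleton]
    · rw [mem_insert, mem_singleton]
      rintro (h | h)
      · exact hx2 h.symm
      · exact hy2 h.symm
  omega

/-- the complement is triangle free -/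
lemma fn_disj {W : Finset V} (hα : AlphaLe G W 2) {u v : V} (hu : u ∈ W) (h : v ∈ fn G W u) :
    Disjoint (fn G W u) (fn G W v) := by
  rw [disjoint_left]
  intro z hz hz'
  exact (mem_fn.1 hz').2.2 (fn_clq hα hu _ h _ hz (mem_fn.1 hz').2.1.symm)

/-- there is no graph with `2 r` vertices, `α ≤ 2`, without `K_r` and with property (P), `r ≥ 6` -/
theorem no_two (hP : PG G r) (hr : 6 ≤ r) {W : Finset V} (hW : W.card = 2 * r)
    (hα : AlphaLe G W 2) (hω : ∀ K ⊆ W, Clq G K → K.card ≤ r - 1) : False := by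
  have hle : ∀ v ∈ W, (fn G W v).card ≤ r - 1 := fun v hv =>
    hω _ (filter_subset _ _) (fn_clq hα hv)
  have hNE : NE G W = ∑ v ∈ W, (fn G W v).card := rfl
  have h1 := hP.ne1 W
  rw [hNE, hW] at h1
  have h2 : ∑ v ∈ W, (fn G W v).card ≤ ∑ v ∈ W, (r - 1) := sum_le_sum hle
  have h3 : ∑ v ∈ W, (r - 1) = 2 * r * (r - 1) := by rw [sum_const, hW, smul_eq_mul]
  have h4 : ∑ v ∈ W, (fn G W v).card = ∑ v ∈ W, (r - 1) := by
    refine le_antisymm h2 ?_
    rw [h3]
    have h5 : ((r - 1 : ℕ) : ℤ) = r - 1 := by omega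
    have h6 : ((2 * r * (r - 1) : ℕ) : ℤ) ≤ ((∑ v ∈ W, (fn G W v).card : ℕ) : ℤ) := by
      refine le_trans (le_of_eq ?_) h1
      rw [Nat.cast_mul, Nat.cast_mul, h5]
      push_cast
      ring
    exact_mod_cast h6
  have hreg : ∀ v ∈ W, (fn G W v).card = r - 1 := (sum_eq_sum_iff_of_le hle).1 h4
  obtain ⟨u, hu⟩ : W.Nonempty := card_pos.1 (by omega)
  obtain ⟨v, hv⟩ : (fn G W u).Nonempty := card_pos.1 (by rw [hreg u hu]; omega)
  have hvW : v ∈ W := (mem_fn.1 hv).1
  have huv : Disjoint (fn G W u) (fn G W v) := fn_disj hα hu hv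
  set Q := W \ (fn G W u ∪ fn G W v) with hQ
  have hsub : fn G W u ∪ fn G W v ⊆ W := union_subset (filter_subset _ _) (filter_subset _ _)
  have hQc : Q.card = 2 := by
    have h5 : Q.card + (fn G W u ∪ fn G W v).card = W.card := card_sdiff_add_card_eq_card hsub
    rw [card_union_of_disjoint huv, hreg u hu, hreg v hvW, hW] at h5
    omega
  obtain ⟨p, hp⟩ : Q.Nonempty := card_pos.1 (by omega)
  obtain ⟨hpW, hp'⟩ := mem_sdiff.1 hp
  rw [mem_union, not_or] at hp'
  -- a vertex outside has a nonneighbour in both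
  have key : ∀ a ∈ W, p ∉ fn G W a → ∃ x ∈ fn G W a, x ∈ fn G W p := by
    intro a ha hpa
    by_contra hcon
    push Not at hcon
    have h5 : Clq G (insert p (fn G W a)) := by
      intro x hx y hy hxy
      rw [mem_insert] at hx hy
      have h6 : ∀ z ∈ fn G W a, G.Adj p z := by
        intro z hz
        by_contra h7
        exact hcon z hz (mem_fn.2 ⟨(mem_fn.1 hz).1, fun h8 => hpa (h8 ▸ hz), h7⟩)
      rcases hx with rfl | hx <;> rcases hy with rfl | hy
      · exact absurd rfl hxy
      · exact h6 y hy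
      · exact (h6 x hx).symm
      · exact fn_clq hα ha x hx y hy hxy
    have h6 := hω (insert p (fn G W a)) (insert_subset hpW (filter_subset _ _)) h5
    rw [card_insert_of_notMem hpa, hreg a ha] at h6
    omega
  obtain ⟨x, hxu, hxp⟩ := key u hu hp'.1
  obtain ⟨y, hyv, hyp⟩ := key v hvW hp'.2
  have hxW : x ∈ W := (mem_fn.1 hxu).1
  have hyW : y ∈ W := (mem_fn.1 hyv).1
  -- splitting of the nonneighbourhoods
  have split : ∀ z ∈ W, (fn G W z).card =
      (fn G W z ∩ fn G W u).card + (fn G W z ∩ fn G W v).card + (fn G W z ∩ Q).card := by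
    intro z hz
    have h5 : fn G W z = (fn G W z ∩ fn G W u) ∪ (fn G W z ∩ fn G W v) ∪ (fn G W z ∩ Q) := by
      ext a
      simp only [mem_union, mem_inter, hQ, mem_sdiff, not_or]
      constructor
      · intro ha
        have haW := (mem_fn.1 ha).1
        by_cases h6 : a ∈ fn G W u
        · exact Or.inl (Or.inl ⟨ha, h6⟩)
        · by_cases h7 : a ∈ fn G W v
          · exact Or.inl (Or.inr ⟨ha, h7⟩)
          · exact Or.inr ⟨ha, haW, h6, h7⟩
      · rintro ((h6 | h6) | h6) <;> exact h6.1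
    have h6 : Disjoint (fn G W z ∩ fn G W u) (fn G W z ∩ fn G W v) :=
      huv.mono inter_subset_right inter_subset_right
    have h7 : Disjoint ((fn G W z ∩ fn G W u) ∪ (fn G W z ∩ fn G W v)) (fn G W z ∩ Q) := by
      rw [disjoint_left]
      intro a ha ha'
      rw [mem_union, mem_inter, mem_inter] at ha
      have h8 := (mem_sdiff.1 (mem_inter.1 ha').2).2
      rw [mem_union, not_or] at h8
      rcases ha with ha | ha
      · exact h8.1 ha.2
      · exact h8.2 ha.2
    conv_lhs => rw [h5]
    rw [card_union_of_disjoint h7, card_union_of_disjoint h6]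
  have two : ∀ A B C : Finset V, A ⊆ C → B ⊆ C → Disjoint A B → A.card + B.card ≤ C.card := by
    intro A B C hA hB hAB
    rw [← card_union_of_disjoint hAB]
    exact card_le_card (union_subset hA hB)
  have hpx : Disjoint (fn G W p) (fn G W x) := fn_disj hα hpW hxp
  have hpy : Disjoint (fn G W p) (fn G W y) := fn_disj hα hpW hyp
  have hux : Disjoint (fn G W u) (fn G W x) := fn_disj hα hu hxu
  have hvy : Disjoint (fn G W v) (fn G W y) := fn_disj hα hvW hyv
  have e1 := split p hpW
  have e2 := split x hxW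
  have e3 := split y hyW
  have e4 : (fn G W x ∩ fn G W u).card = 0 := by
    rw [card_eq_zero]
    exact disjoint_iff_inter_eq_empty.1 hux.symm
  have e5 : (fn G W y ∩ fn G W v).card = 0 := by
    rw [card_eq_zero]
    exact disjoint_iff_inter_eq_empty.1 hvy.symm
  have e6 := two (fn G W p ∩ fn G W v) (fn G W x ∩ fn G W v) (fn G W v) inter_subset_right
    inter_subset_right (hpx.mono inter_subset_left inter_subset_left)
  have e7 := two (fn G W p ∩ fn G W u) (fn G W y ∩ fn G W u) (fn G W u) inter_subset_right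
    inter_subset_right (hpy.mono inter_subset_left inter_subset_left)
  have e8 := two (fn G W p ∩ Q) (fn G W x ∩ Q) Q inter_subset_right
    inter_subset_right (hpx.mono inter_subset_left inter_subset_left)
  have e9 : (fn G W y ∩ Q).card ≤ Q.card := card_le_card inter_subset_right
  rw [hreg _ hpW] at e1
  rw [hreg _ hxW] at e2
  rw [hreg _ hyW] at e3
  rw [hreg _ hvW] at e6
  rw [hreg _ hu] at e7
  omega

end Gen

variable {V : Type*} {r : ℕ} {c : V → V → Fin r} {hc : ∀ x y, c x y = c y x}
  {U0 U : Finset V} {i : Fin r} {k : ℕ}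

/-- outside the closed neighbourhood of an independent set `J` the independence number is at most
`k - |J|` -/
lemma MinU.alpha_out (h : MinU hc U0 i k U) {J : Finset V} (hJ : J ⊆ U)
    (hi : Ind (col c hc i) J) {l : ℕ} (hl : l + J.card = k) :
    AlphaLe (col c hc i) (U \ NJ (col c hc i) U J) l := by
  intro I hI hIi
  have hdisj : Disjoint I J := by
    rw [disjoint_left]
    intro x hx hxJ
    exact (mem_sdiff.1 (hI hx)).2 (mem_NJ.2 ⟨hJ hxJ, Or.inl hxJ⟩)
  have h4 : Ind (col c hc i) (I ∪ J) := by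
    intro x hx y hy hxy
    rw [mem_union] at hx hy
    rcases hx with hx | hx <;> rcases hy with hy | hy
    · exact hIi x hx y hy hxy
    · exact (mem_sdiff.1 (hI hx)).2 (mem_NJ.2 ⟨(mem_sdiff.1 (hI hx)).1, Or.inr ⟨y, hy, hxy.symm⟩⟩)
    · exact (mem_sdiff.1 (hI hy)).2 (mem_NJ.2 ⟨(mem_sdiff.1 (hI hy)).1, Or.inr ⟨x, hx, hxy⟩⟩)
    · exact hi x hx y hy hxy
  have h5 := h.alpha (I ∪ J) (union_subset (hI.trans sdiff_subset) hJ) h4
  rw [card_union_of_disjoint hdisj] at h5
  omega

/-- **(c)**: outside the closed neighbourhood of an independent set of size `k - 2` there are at most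
`2 r - 1` vertices. -/
theorem MinU.W_le (hs : Sees c) (hr : 6 ≤ r) (h : MinU hc U0 i k U) {J : Finset V} (hJ : J ⊆ U)
    (hi : Ind (col c hc i) J) (hJc : J.card + 2 = k) :
    (U \ NJ (col c hc i) U J).card + 1 ≤ 2 * r := by
  have hk := h.k3 hs
  have h1 := h.NJ_ge hJ hi (card_pos.1 (by omega))
  have h2 := card_sdiff_add_card_eq_card
    (show NJ (col c hc i) U J ⊆ U from filter_subset _ _)
  rw [h.card] at h2
  have h3 : k * r = J.card * r + 2 * r := by rw [← hJc]; ring
  by_contra hlt
  have h4 : (U \ NJ (col c hc i) U J).card = 2 * r := by omega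
  exact no_two (PG_col hc hs i) hr h4 (h.alpha_out hJ hi (by omega))
    fun K hK hq => h.free K (hK.trans sdiff_subset) hq

/-- the vertices of `U` whose neighbours in `T` are exactly `x` and `y` -/
noncomputable def Dxy (G : SimpleGraph V) (U T : Finset V) (x y : V) : Finset V :=
  U.filter (fun z => z ∉ T ∧ G.Adj z x ∧ G.Adj z y ∧ ∀ w ∈ T, G.Adj z w → w = x ∨ w = y)

/-- at most `1 + t_x + t_y` vertices have exactly the neighbours `x`, `y` in the maximum independent
set `T` -/
theorem MinU.Dxy_le (hs : Sees c) (hr : 6 ≤ r) (h : MinU hc U0 i k U) {T : Finset V} (hT : T ⊆ U)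
    (hi : Ind (col c hc i) T) (hTc : T.card = k) {x y : V} (hx : x ∈ T) (hy : y ∈ T)
    (hxy : x ≠ y) :
    (Dxy (col c hc i) U T x y).card + (pn (col c hc i) U T x).card +
      (pn (col c hc i) U T y).card + 1 ≤ 2 * r := by
  set G := col c hc i with hG
  set J := (T.erase x).erase y with hJdef
  have hyx : y ∈ T.erase x := mem_erase.2 ⟨hxy.symm, hy⟩
  have hJT : J ⊆ T := (erase_subset _ _).trans (erase_subset _ _)
  have hJc : J.card + 2 = k := by
    have h1 : J.card + 1 = (T.erase x).card := card_erase_add_one hyx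
    have h2 : (T.erase x).card + 1 = T.card := card_erase_add_one hx
    omega
  have h1 := h.W_le hs hr (hJT.trans hT) (fun a ha b hb => hi a (hJT ha) b (hJT hb)) hJc
  rw [← hG] at h1
  refine le_trans (Nat.add_le_add_right ?_ 1) h1
  have hmemJ : ∀ w, w ∈ J ↔ w ∈ T ∧ w ≠ x ∧ w ≠ y := by
    intro w
    rw [hJdef, mem_erase, mem_erase]
    tauto
  -- everything with neighbours in `T` only among `x`, `y` is outside `N[J]`
  have hout : ∀ z ∈ U, z ∉ J → (∀ w ∈ T, G.Adj z w → w = x ∨ w = y) → z ∈ U \ NJ G U J := by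
    intro z hz hzJ hzw
    refine mem_sdiff.2 ⟨hz, fun hz' => ?_⟩
    rcases (mem_NJ.1 hz').2 with h2 | ⟨w, hw, hadj⟩
    · exact hzJ h2
    · obtain ⟨hwT, hwx, hwy⟩ := (hmemJ w).1 hw
      rcases hzw w hwT hadj.symm with h3 | h3
      · exact hwx h3
      · exact hwy h3
  have hsub : Dxy G U T x y ∪ (pn G U T x ∪ pn G U T y) ⊆ U \ NJ G U J := by
    intro z hz
    rw [mem_union, mem_union] at hz
    have hpn : ∀ a ∈ T, (a = x ∨ a = y) → z ∈ pn G U T a → z ∈ U \ NJ G U J := by
      intro a ha hax hza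
      obtain ⟨hzU, hz2⟩ := mem_pn.1 hza
      refine hout z hzU (fun hzJ => ?_) (fun w hw hzw => ?_)
      · obtain ⟨hzT, hzx, hzy⟩ := (hmemJ z).1 hzJ
        rcases hz2 with hz2 | ⟨hz2, -⟩
        · rcases hax with h3 | h3
          · exact hzx (hz2.trans h3)
          · exact hzy (hz2.trans h3)
        · exact hi z hzT a ha hz2
      · rcases hz2 with hz2 | ⟨-, hz3⟩
        · exact absurd hzw (hi z (hz2 ▸ ha) w hw)
        · have h3 := hz3 w hw hzw
          rw [h3]
          exact hax
    rcases hz with hz | hz | hz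
    · obtain ⟨hzU, hzT, -, -, hz3⟩ := mem_filter.1 hz
      exact hout z hzU (fun hzJ => hzT (hJT hzJ)) hz3
    · exact hpn x hx (Or.inl rfl) hz
    · exact hpn y hy (Or.inr rfl) hz
  have hd1 : Disjoint (pn G U T x) (pn G U T y) := pn_disj hi hx hy hxy
  have hd2 : Disjoint (Dxy G U T x y) (pn G U T x ∪ pn G U T y) := by
    rw [disjoint_left]
    intro z hz hz'
    obtain ⟨hzU, hzT, hzx, hzy, -⟩ := mem_filter.1 hz
    rw [mem_union] at hz'
    rcases hz' with hz' | hz'
    · rcases (mem_pn.1 hz').2 with h2 | ⟨-, h3⟩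
      · exact hzT (h2 ▸ hx)
      · exact hxy (h3 y hy hzy).symm
    · rcases (mem_pn.1 hz').2 with h2 | ⟨-, h3⟩
      · exact hzT (h2 ▸ hy)
      · exact hxy (h3 x hx hzx)
  have h2 := card_le_card hsub
  rw [card_union_of_disjoint hd2, card_union_of_disjoint hd1] at h2
  omega

end Pool.Agent.Lib.MP_f04ccf_co.Mn
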