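import Pool.Agent.Lib.MP_f04ccf_co.M.RowWF

/-!
MP_f04ccf_co, TEXT D, middle range: **misses and arcs of the halves of one cell, kernel tables** (from `RowW`).

Host of size `X`, main end of size `M` with `b` misses, `q` PC pairs of the host with the main end, other end of size
`C ∈ Cs`, `m` PC pairs of the host with the other end.  Table `es`: `es[m]` = the first impossible `b` (`0`: no `b` is
possible; beyond the list: nothing is possible).

* `Kern.chBs R X M q es Cs`: the check of a table; `Kern.chB_sound`;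
* `WSv.tab`, `WHo.tab`: `m < es.length`, `b < es[m]` (served: host `B y`, main end `A`, `q y`; hosted: host `A`, main
  end `B y`, `p y + x y`); `WSv.low`, `WHo.low`: a lower bound of `b + m`;
* `Kern.hulB c1 c2 al be lo bc es 0`: a line: `c1 b + c2 m ≤ al + be b` for all `b ≤ bc`, `lo ≤ b + m` of the table;
* **`RowW.kh_line`, `RowW.mh_line`**: then `c1 khb + c2 kha ≤ al kh + be khb`, the same for the hosted halves.
-/

set_option autoImplicit false

namespace Pool.Agent.Lib.MP_f04ccf_co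

open Finset

attribute [local instance] Classical.propDecidable

namespace Kern

/-- the maximum of two naturals, for the kernel -/
def mxN (a b : ℕ) : ℕ := bif Nat.ble a b then b else a

/-- the minimum of two naturals, for the kernel -/
def miN (a b : ℕ) : ℕ := bif Nat.ble a b then a else b

lemma mxN_eq (a b : ℕ) : mxN a b = max a b := by
  unfold mxN
  rcases h : Nat.ble a b with _ | _
  · have h1 : ¬ a ≤ b := fun h2 => by
      rw [Nat.ble_eq_true_of_le h2] at h
      exact absurd h (by decide)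
    simp only [cond_false]
    omega
  · have h1 := Nat.le_of_ble_eq_true h
    simp only [cond_true]
    omega

lemma miN_eq (a b : ℕ) : miN a b = min a b := by
  unfold miN
  rcases h : Nat.ble a b with _ | _
  · have h1 : ¬ a ≤ b := fun h2 => by
      rw [Nat.ble_eq_true_of_le h2] at h
      exact absurd h (by decide)
    simp only [cond_false]
    omega
  · have h1 := Nat.le_of_ble_eq_true h
    simp only [cond_true]
    omega

lemma blt_iff {a b : ℕ} : Nat.blt a b = true ↔ a < b := by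
  unfold Nat.blt
  exact ⟨fun h => Nat.le_of_ble_eq_true h, fun h => Nat.ble_eq_true_of_le h⟩

/-- the least number of misses at `C` beside `m` PC pairs of the cell `(X, C)` -/
def ndJ (R X C q m : ℕ) : ℕ := (m * R + C) - ((X - 1) * (C - 1) + (m + 1) * (m + 1) + q + 1)

/-- `m` PC pairs are possible -/
def jkT (R X C m : ℕ) : Bool :=
  Nat.ble m X && (Nat.ble m C && Nat.ble (m * R) ((X - 1) * (C - 1) + m * m + R))

/-- no half with `e` misses at the main end and at least `nd` at `C` -/
def noH (R C L nd e : ℕ) : Bool :=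
  Nat.blt L (e * e) || (Nat.blt R (2 * e) || (Nat.blt (R + 1) (e + C) || (Nat.blt L (e * nd) ||
    (Nat.blt R (e + nd) || Nat.blt (R + 1) (nd + C)))))

/-- **the check of a table for one size of the other end** -/
def chB (R X C q L : ℕ) : List ℕ → ℕ → ℕ → Bool
  | [], m, nd => bif jkT R X C m then noH R C L (mxN nd (ndJ R X C q m)) 0 else true
  | e :: es, m, nd => bif jkT R X C m then
      (bif noH R C L (mxN nd (ndJ R X C q m)) e then
        chB R X C q L es (m + 1) (mxN nd (ndJ R X C q m)) else false) else true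

/-- **the check of a table** -/
def chBs (R X M q : ℕ) (es : List ℕ) : List ℕ → Bool
  | [] => true
  | C :: Cs => bif (bif Nat.ble (X + M + C + 2) R then chB R X C q (R + (M - 1) * (C - 1)) es 0 0
      else true) then chBs R X M q es Cs else false

lemma noH_sound {R C L nd e b b' : ℕ} (h : noH R C L nd e = true) (h1 : b * b' ≤ L)
    (h2 : b + b' ≤ R) (h3 : b' + C ≤ R + 1) (h4 : b ≤ b') (h5 : nd ≤ b') : b < e := by
  by_contra h6
  push Not at h6
  unfold noH at h
  rw [Bool.or_eq_true, Bool.or_eq_true, Bool.or_eq_true, Bool.or_eq_true, Bool.or_eq_true, blt_iff,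
    blt_iff, blt_iff, blt_iff, blt_iff, blt_iff] at h
  rcases h with h | h | h | h | h | h
  · have : e * e ≤ b * b' := Nat.mul_le_mul h6 (h6.trans h4)
    omega
  · omega
  · omega
  · have : e * nd ≤ b * b' := Nat.mul_le_mul h6 h5
    omega
  · omega
  · omega

/-- the joint cap in naturals -/
lemma capJ_nat {R X C m q b' : ℕ} (hX : 1 ≤ X) (hC : 1 ≤ C) (h : CapJ R X C m q b') :
    m * R + C ≤ (X - 1) * (C - 1) + (m + 1) * (m + 1) + b' + q + 1 := by
  unfold CapJ at h
  have h1 : ((m * R + C : ℕ) : ℤ)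
      ≤ (((X - 1) * (C - 1) + (m + 1) * (m + 1) + b' + q + 1 : ℕ) : ℤ) := by
    push_cast [Nat.cast_sub hX, Nat.cast_sub hC]
    nlinarith
  exact_mod_cast h1

lemma chB_sound {R X C q L b b' m : ℕ} (hX : 1 ≤ X) (hC : 1 ≤ C) (h1 : b * b' ≤ L)
    (h2 : b + b' ≤ R) (h3 : b' + C ≤ R + 1) (h4 : b ≤ b')
    (h5 : JOk R X C m) (h6 : ∀ m' : ℕ, m' ≤ m → CapJ R X C m' q b') :
    ∀ (es : List ℕ) (m0 nd : ℕ), m0 ≤ m → nd ≤ b' → chB R X C q L es m0 nd = true →
      m < m0 + es.length ∧ b < es.getD (m - m0) 0 := by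
  have hj : ∀ m' ≤ m, jkT R X C m' = true := by
    intro m' hm'
    obtain ⟨j1, j2, j3⟩ := h5
    have e2 : m' * R ≤ (X - 1) * (C - 1) + m' * m' + R := by
      have e3 := j3 m' hm'
      have e4 : ((m' * R : ℕ) : ℤ) ≤ (((X - 1) * (C - 1) + m' * m' + R : ℕ) : ℤ) := by
        push_cast [Nat.cast_sub hX, Nat.cast_sub hC]
        nlinarith
      exact_mod_cast e4
    unfold jkT
    rw [Nat.ble_eq_true_of_le (by omega : m' ≤ X), Nat.ble_eq_true_of_le (by omega : m' ≤ C),
      Nat.ble_eq_true_of_le e2]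
    rfl
  have hn : ∀ m' ≤ m, ndJ R X C q m' ≤ b' := by
    intro m' hm'
    have e1 := capJ_nat hX hC (h6 m' hm')
    unfold ndJ
    omega
  intro es
  induction es with
  | nil =>
    intro m0 nd g1 g2 g3
    exfalso
    unfold chB at g3
    rw [hj m0 g1, cond_true] at g3
    have g4 := noH_sound g3 h1 h2 h3 h4 (by
      rw [mxN_eq]
      exact max_le g2 (hn m0 g1))
    omega
  | cons e es ih =>
    intro m0 nd g1 g2 g3
    have g5 : mxN nd (ndJ R X C q m0) ≤ b' := by
      rw [mxN_eq]
      exact max_le g2 (hn m0 g1)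
    unfold chB at g3
    rw [hj m0 g1, cond_true] at g3
    rcases g4 : noH R C L (mxN nd (ndJ R X C q m0)) e with _ | _
    · rw [g4, cond_false] at g3
      exact absurd g3 (by decide)
    · rw [g4, cond_true] at g3
      rcases Nat.eq_or_lt_of_le g1 with g6 | g6
      · rw [g6, Nat.sub_self]
        refine ⟨by rw [List.length_cons]; omega, ?_⟩
        exact noH_sound g4 h1 h2 h3 h4 g5
      · obtain ⟨k1, k2⟩ := ih (m0 + 1) _ g6 g5 g3
        refine ⟨by rw [List.length_cons]; omega, ?_⟩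
        have k3 : m - m0 = (m - (m0 + 1)) + 1 := by omega
        rw [k3]
        exact k2

lemma chBs_sound {R X M C q b b' m : ℕ} {es : List ℕ} (hX : 1 ≤ X) (hC : 1 ≤ C)
    (h0 : X + M + C + 2 ≤ R) (h1 : b * b' ≤ R + (M - 1) * (C - 1))
    (h2 : b + b' ≤ R) (h3 : b' + C ≤ R + 1) (h4 : b ≤ b')
    (h5 : JOk R X C m) (h6 : ∀ m' : ℕ, m' ≤ m → CapJ R X C m' q b') :
    ∀ {Cs : List ℕ}, C ∈ Cs → chBs R X M q es Cs = true → m < es.length ∧ b < es.getD m 0 := by
  intro Cs
  induction Cs with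
  | nil => intro h; exact absurd h (by simp)
  | cons D Ds ih =>
    intro h g
    unfold chBs at g
    rcases g1 : (bif Nat.ble (X + M + D + 2) R then chB R X D q (R + (M - 1) * (D - 1)) es 0 0
      else true) with _ | _
    · rw [g1, cond_false] at g
      exact absurd g (by decide)
    · rw [g1, cond_true] at g
      rcases List.mem_cons.1 h with k1 | k1
      · rw [k1] at h0 h1 h3 h5 h6 hC
        rw [Nat.ble_eq_true_of_le h0, cond_true] at g1
        have k2 := chB_sound hX hC h1 h2 h3 h4 h5 h6 es 0 0 (Nat.zero_le _) (Nat.zero_le _) g1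
        rw [zero_add, Nat.sub_zero] at k2
        exact k2
      · exact ih k1 g

/-- **a line above the table** -/
def hulB (c1 c2 al be lo bc : ℕ) : List ℕ → ℕ → Bool
  | [], _ => true
  | e :: es, m =>
    bif (bif Nat.blt (miN (e - 1) bc) (lo - m) then true else bif Nat.beq e 0 then true else
      Nat.ble (c1 * miN (e - 1) bc + c2 * m) (al + be * miN (e - 1) bc) &&
      Nat.ble (c1 * (lo - m) + c2 * m) (al + be * (lo - m)))
    then hulB c1 c2 al be lo bc es (m + 1) else false

lemma lin_end {c1 c2 al be m b b0 b1 : ℕ} (h0 : b0 ≤ b) (h1 : b ≤ b1)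
    (g0 : c1 * b0 + c2 * m ≤ al + be * b0) (g1 : c1 * b1 + c2 * m ≤ al + be * b1) :
    c1 * b + c2 * m ≤ al + be * b := by
  rcases Nat.le_total c1 be with h | h
  · obtain ⟨k, hk⟩ := Nat.exists_eq_add_of_le h
    obtain ⟨j, hj⟩ := Nat.exists_eq_add_of_le h0
    rw [hk] at g0 ⊢
    rw [hj]
    nlinarith [Nat.zero_le (k * j)]
  · obtain ⟨k, hk⟩ := Nat.exists_eq_add_of_le h
    obtain ⟨j, hj⟩ := Nat.exists_eq_add_of_le h1
    rw [hk] at g1 ⊢
    rw [hj] at g1
    nlinarith [Nat.zero_le (k * j)]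

lemma hulB_sound {c1 c2 al be lo bc b m : ℕ} (hlo : lo ≤ b + m) (hbc : b ≤ bc) :
    ∀ (es : List ℕ) (m0 : ℕ), hulB c1 c2 al be lo bc es m0 = true → m0 ≤ m →
      b < es.getD (m - m0) 0 → c1 * b + c2 * m ≤ al + be * b := by
  intro es
  induction es with
  | nil =>
    intro m0 _ _ h
    exact absurd h (Nat.not_lt_zero b)
  | cons e es ih =>
    intro m0 g1 g2 g3
    unfold hulB at g1
    rcases g4 : (bif Nat.blt (miN (e - 1) bc) (lo - m0) then true else bif Nat.beq e 0 then true else
      Nat.ble (c1 * miN (e - 1) bc + c2 * m0) (al + be * miN (e - 1) bc) &&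
      Nat.ble (c1 * (lo - m0) + c2 * m0) (al + be * (lo - m0))) with _ | _
    · rw [g4, cond_false] at g1
      exact absurd g1 (by decide)
    · rw [g4, cond_true] at g1
      rcases Nat.eq_or_lt_of_le g2 with g6 | g6
      · rw [← g6] at g3 hlo ⊢
        rw [Nat.sub_self] at g3
        have g3' : b < e := g3
        have k1 : b ≤ miN (e - 1) bc := by
          rw [miN_eq]
          exact le_min (by omega) hbc
        rcases k2 : Nat.blt (miN (e - 1) bc) (lo - m0) with _ | _
        · rw [k2, cond_false] at g4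
          rcases k3 : Nat.beq e 0 with _ | _
          · rw [k3, cond_false, Bool.and_eq_true] at g4
            exact lin_end (b0 := lo - m0) (b1 := miN (e - 1) bc) (by omega) k1
              (Nat.le_of_ble_eq_true g4.2) (Nat.le_of_ble_eq_true g4.1)
          · have := Nat.eq_of_beq_eq_true k3
            omega
        · have := blt_iff.1 k2
          omega
      · have k3 : m - m0 = (m - (m0 + 1)) + 1 := by omega
        rw [k3] at g3
        exact ih (m0 + 1) g1 g6 g3

end Kern

section ArcK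

variable {R : ℕ} {P : Finset ℕ} {A d hn : ℕ} {B p x q mf mh mhb mha kf kh khb kha nn : ℕ → ℕ}
  {y w b b' m lo bc : ℕ} {es Cs : List ℕ}

/-- **the table of the served halves** -/
lemma WSv.tab (h : WSv R P A d hn B p x q mf mh nn y w b b' m) (hy : 1 ≤ B y) (hw : 1 ≤ B w)
    (hC : B w ∈ Cs) (ht : Kern.chBs R (B y) A (q y) es Cs = true) :
    m < es.length ∧ b < es.getD m 0 := by
  obtain ⟨o1, o2, o3, o4, o5⟩ := h.ok
  exact Kern.chBs_sound hy hw (by omega) o2 o3 o5 h.le h.j h.cap hC ht

/-- **the table of the hosted halves** -/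
lemma WHo.tab (h : WHo R A B p x q y w b b' m) (hA : 1 ≤ A) (hw : 1 ≤ B w)
    (hC : B w ∈ Cs) (ht : Kern.chBs R A (B y) (p y + x y) es Cs = true) :
    m < es.length ∧ b < es.getD m 0 := by
  obtain ⟨o1, o2, o3, o4, o5, o6⟩ := h.ok
  have hm := h.arc
  have hj : JOk R A (B w) m := by
    obtain ⟨j1, j2, j3⟩ := h.j
    exact ⟨by omega, by omega, fun m' hm' => j3 m' (by omega)⟩
  exact Kern.chBs_sound hA hw o1 o3 o4 o6 o2 hj (fun m' hm' => h.capw m' (by omega)) hC ht

/-- the least `b + m` of a served half -/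
lemma WSv.low (h : WSv R P A d hn B p x q mf mh nn y w b b' m) (hA : 1 ≤ A) (hy : 1 ≤ B y)
    (hlo : lo = 0 ∨ lo + (B y - 1) * (A - 1) + (p y + x y + q y + 1) * (p y + x y + q y + 1) + 1
      ≤ (p y + x y + q y) * R + A) : lo ≤ b + m := by
  have h1 := Kern.capJ_nat hy hA h.own
  rcases hlo with h2 | h2 <;> omega

/-- the least `b + m` of a hosted half -/
lemma WHo.low (h : WHo R A B p x q y w b b' m) (hA : 1 ≤ A) (hy : 1 ≤ B y)
    (hlo : lo = 0 ∨ lo + (A - 1) * (B y - 1) + (p y + x y + q y + 1) * (p y + x y + q y + 1) + 1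
      ≤ (p y + x y + q y) * R + B y) : lo ≤ b + m := by
  have h1 := Kern.capJ_nat hA hy (h.capy _ le_rfl)
  have hm := h.arc
  rcases hlo with h2 | h2 <;> omega

/-- the misses of one half are at most `R / 2` -/
lemma WSv.half (h : WSv R P A d hn B p x q mf mh nn y w b b' m) : b ≤ R / 2 := by
  have h1 := h.le
  have h2 := h.ok.2.2.1
  omega

lemma WHo.half (h : WHo R A B p x q y w b b' m) : b ≤ R / 2 := by
  have h1 := h.ok.2.1
  have h2 := h.ok.2.2.2.1
  omega

/-- **a line of the hull, served halves** -/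
theorem RowW.kh_line (V : RowW R P A d hn B p x q mf mh mhb mha kf kh khb kha nn) (hA : 1 ≤ A)
    (hB : ∀ w ∈ P, 1 ≤ B w) (hy : y ∈ P) (hCs : ∀ w ∈ P, w ≠ y → B w ∈ Cs)
    (ht : Kern.chBs R (B y) A (q y) es Cs = true)
    (hlo : lo = 0 ∨ lo + (B y - 1) * (A - 1) + (p y + x y + q y + 1) * (p y + x y + q y + 1) + 1
      ≤ (p y + x y + q y) * R + A)
    (hbc : ∀ w ∈ P, w ≠ y → ∀ b b' m : ℕ, WSv R P A d hn B p x q mf mh nn y w b b' m → b ≤ bc)
    {c1 c2 al be : ℕ} (hl : Kern.hulB c1 c2 al be lo bc es 0 = true) :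
    c1 * khb y + c2 * kha y ≤ al * kh y + be * khb y := by
  refine V.khI y hy (fun k s r => c1 * s + c2 * r ≤ al * k + be * s) (by simp)
    fun w hw hwy b b' m h k s r hk => ?_
  have h1 := h.tab (hB y hy) (hB w hw) (hCs w hw hwy) ht
  have h3 := Kern.hulB_sound (h.low hA (hB y hy) hlo) (hbc w hw hwy b b' m h) es 0 hl
    (Nat.zero_le _) (by rw [Nat.sub_zero]; exact h1.2)
  show c1 * (s + b) + c2 * (r + m) ≤ al * (k + 1) + be * (s + b)
  have e1 : c1 * (s + b) + c2 * (r + m) = (c1 * s + c2 * r) + (c1 * b + c2 * m) := by ring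
  have e2 : al * (k + 1) + be * (s + b) = (al * k + be * s) + (al + be * b) := by ring
  rw [e1, e2]
  exact Nat.add_le_add hk h3

/-- **a line of the hull, hosted halves** -/
theorem RowW.mh_line (V : RowW R P A d hn B p x q mf mh mhb mha kf kh khb kha nn) (hA : 1 ≤ A)
    (hB : ∀ w ∈ P, 1 ≤ B w) (hy : y ∈ P) (hCs : ∀ w ∈ P, w ≠ y → B w ∈ Cs)
    (ht : Kern.chBs R A (B y) (p y + x y) es Cs = true)
    (hlo : lo = 0 ∨ lo + (A - 1) * (B y - 1) + (p y + x y + q y + 1) * (p y + x y + q y + 1) + 1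
      ≤ (p y + x y + q y) * R + B y)
    (hbc : ∀ w ∈ P, w ≠ y → ∀ b b' m : ℕ, WHo R A B p x q y w b b' m → b ≤ bc)
    {c1 c2 al be : ℕ} (hl : Kern.hulB c1 c2 al be lo bc es 0 = true) :
    c1 * mhb y + c2 * mha y ≤ al * mh y + be * mhb y := by
  refine V.mhI y hy (fun k s r => c1 * s + c2 * r ≤ al * k + be * s) (by simp)
    fun w hw hwy b b' m h k s r hk => ?_
  have h1 := h.tab hA (hB w hw) (hCs w hw hwy) ht
  have h3 := Kern.hulB_sound (h.low hA (hB y hy) hlo) (hbc w hw hwy b b' m h) es 0 hl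
    (Nat.zero_le _) (by rw [Nat.sub_zero]; exact h1.2)
  show c1 * (s + b) + c2 * (r + m) ≤ al * (k + 1) + be * (s + b)
  have e1 : c1 * (s + b) + c2 * (r + m) = (c1 * s + c2 * r) + (c1 * b + c2 * m) := by ring
  have e2 : al * (k + 1) + be * (s + b) = (al * k + be * s) + (al + be * b) := by ring
  rw [e1, e2]
  exact Nat.add_le_add hk h3

end ArcK

end Pool.Agent.Lib.MP_f04ccf_co
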