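import Pool.Agent.Lib.MP_f04ccf_co.M.StarPM

/-!
MP_f04ccf_co: the B-slot tests.  For every set `B` of rows of a closed system, property (P) on the
union of the slot parts of `B` (no deletion, no minimality): `CSys.star_B` (the form of `CSys.star`),
`CSys.slots_B` (free slope `q`), `CSys.star_B_s` (slope `|B|`, in terms of `s_x = |S_x| - r`),
`CSys.two_slots` (two rows), `CSys.star_B_om` (property (PM), the slot part `S x` counted `om x`
times).
-/

set_option autoImplicit false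

namespace Pool.Agent.Lib.MP_f04ccf_co

open Finset

attribute [local instance] Classical.propDecidable

section BSlot

variable {V : Type*} {G : SimpleGraph V} {Z T : Finset V} {hm : V → V} {r m t : ℕ}

/-- the missing pairs between different slot parts -/
lemma CSys.nd_cross {A : Finset V} {S : V → Finset V} (h : CSys G Z T hm A S) {B : Finset V}
    (hB : B ⊆ A) (ω : V → ℤ) :
    ∑ x ∈ B, ∑ y ∈ B.erase x, ω x * ω y * ∑ v ∈ S y, (nd G (S x) v : ℤ)
      = ∑ x ∈ B, ∑ y ∈ B.erase x, ω x * ω y * (((S x).card : ℤ) * (S y).card)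
        - ∑ x ∈ B, ∑ y ∈ B.erase x, ω x * ω y * ∑ v ∈ S y, (dg G (S x) v : ℤ) := by
  rw [← sum_sub_distrib]
  refine sum_congr rfl fun x hx => ?_
  rw [← sum_sub_distrib]
  refine sum_congr rfl fun y hy => ?_
  rw [sum_dg_nd (h.disj (hB hx) (hB (mem_of_mem_erase hy)) (ne_of_mem_erase hy).symm)]
  ring

/-- **B-slot test, free slope**: property (P) on the slot parts of the rows `B` -/
theorem CSys.slots_B (hP : PG G r) {A : Finset V} {S : V → Finset V} (h : CSys G Z T hm A S)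
    {B : Finset V} (hB : B ⊆ A) (q : ℤ) :
    ((r : ℤ) - 1) * (2 * q * ∑ x ∈ B, ((S x).card : ℤ) - r * q * (q + 1))
      + ∑ x ∈ B, ∑ y ∈ B.erase x, ∑ v ∈ S y, (dg G (S x) v : ℤ)
      ≤ ∑ x ∈ B, (NE G (S x) : ℤ)
        + ∑ x ∈ B, ∑ y ∈ B.erase x, ((S x).card : ℤ) * (S y).card := by
  have hd : ∀ x ∈ B, ∀ y ∈ B, x ≠ y → Disjoint (S x) (S y) := fun x hx y hy hxy =>
    h.disj (hB hx) (hB hy) hxy
  have hNE := NE_biUnion (G := G) B S ∅ hd (fun _ _ => disjoint_empty_right _)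
  have e0 : (NE G (∅ : Finset V) : ℤ) = 0 := by
    have : NE G (∅ : Finset V) = 0 := rfl
    rw [this]
    rfl
  rw [empty_union, e0] at hNE
  simp only [sum_empty, sum_const_zero, mul_zero, add_zero, zero_add] at hNE
  have h1 := hP (B.biUnion S) q
  have h2 := E_add_NE (G := G) (B.biUnion S)
  have h3 : ((B.biUnion S).card : ℤ) = ∑ x ∈ B, ((S x).card : ℤ) := by
    rw [card_biUnion hd]
    push_cast
    rfl
  have h4 := h.nd_cross hB fun _ => 1
  simp only [one_mul] at h4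
  rw [h4] at hNE
  rw [h3] at h1 h2
  linarith

/-- **B-slot test, slope `|B|`**, in terms of the excesses `s_x = |S_x| - r` -/
theorem CSys.star_B_s (hP : PG G r) {A : Finset V} {S : V → Finset V} (h : CSys G Z T hm A S)
    {B : Finset V} (hB : B ⊆ A) :
    2 * ((r : ℤ) - B.card) * ∑ x ∈ B, (((S x).card : ℤ) - r)
      + ∑ x ∈ B, ∑ y ∈ B.erase x, ∑ v ∈ S y, (dg G (S x) v : ℤ)
      + ∑ x ∈ B, (((S x).card : ℤ) - r) ^ 2
      ≤ ∑ x ∈ B, (NE G (S x) : ℤ) + B.card * (B.card - 1) * r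
        + (∑ x ∈ B, (((S x).card : ℤ) - r)) ^ 2 := by
  have h1 := h.slots_B hP hB B.card
  have hs : ∑ x ∈ B, ((S x).card : ℤ) = ∑ x ∈ B, (((S x).card : ℤ) - r) + B.card * r := by
    rw [sum_sub_distrib, sum_const, nsmul_eq_mul]
    ring
  have h2 : ∑ x ∈ B, ∑ y ∈ B.erase x, ((S x).card : ℤ) * (S y).card
      = (∑ x ∈ B, ((S x).card : ℤ)) ^ 2 - ∑ x ∈ B, ((S x).card : ℤ) ^ 2 := by
    rw [sum_offdiag B fun x y => ((S x).card : ℤ) * (S y).card, sq (∑ x ∈ B, _), sum_mul_sum]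
    congr 1
    exact sum_congr rfl fun x _ => by ring
  have h3 : ∑ x ∈ B, ((S x).card : ℤ) ^ 2 = ∑ x ∈ B, (((S x).card : ℤ) - r) ^ 2
      + 2 * r * ∑ x ∈ B, (((S x).card : ℤ) - r) + B.card * r ^ 2 := by
    have h5 : ∀ x ∈ B, ((S x).card : ℤ) ^ 2 = (((S x).card : ℤ) - r) ^ 2
        + 2 * r * (((S x).card : ℤ) - r) + (r : ℤ) ^ 2 := fun x _ => by ring
    rw [sum_congr rfl h5, sum_add_distrib, sum_add_distrib, ← mul_sum, sum_const, nsmul_eq_mul]
  set σ : ℤ := ∑ x ∈ B, (((S x).card : ℤ) - r) with hσ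
  rw [h2, h3, hs] at h1
  nlinarith [h1]

/-- **two-slot test** (slope 2 on two undeleted slot parts) -/
theorem CSys.two_slots (hP : PG G r) {A : Finset V} {S : V → Finset V} (h : CSys G Z T hm A S)
    {x y : V} (hx : x ∈ A) (hy : y ∈ A) (hxy : x ≠ y) :
    2 * ((r : ℤ) - 2) * ((((S x).card : ℤ) - r) + (((S y).card : ℤ) - r))
      + 2 * ∑ v ∈ S y, (dg G (S x) v : ℤ)
      ≤ NE G (S x) + NE G (S y) + 2 * r
        + 2 * (((S x).card : ℤ) - r) * (((S y).card : ℤ) - r) := by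
  have h1 := h.star_B_s hP (B := {x, y}) (by
    intro z hz
    rcases mem_insert.1 hz with rfl | hz
    · exact hx
    · exact (mem_singleton.1 hz) ▸ hy)
  have e1 : ({x, y} : Finset V).erase x = {y} := erase_insert (by simpa using hxy)
  have e2 : ({x, y} : Finset V).erase y = {x} := by
    rw [pair_comm]
    exact erase_insert (by simpa using hxy.symm)
  have hc : ∑ v ∈ S x, (dg G (S y) v : ℤ) = ∑ v ∈ S y, (dg G (S x) v : ℤ) := by
    have := dg_comm G (S x) (S y)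
    exact_mod_cast this
  simp only [sum_pair hxy, card_pair hxy, e1, e2, sum_singleton, hc] at h1
  push_cast at h1
  linarith

/-- **B-slot test** in the form of `CSys.star` -/
theorem CSys.star_B (hF : PFrame G r m t Z T) (hP : PG G r) {A : Finset V} {S : V → Finset V}
    (h : CSys G Z T hm A S) {B : Finset V} (hB : B ⊆ A) :
    2 * ((r : ℤ) - 1) * ∑ x ∈ B, (((S x).card : ℤ) - r)
      + 2 * ∑ x ∈ B, ∑ y ∈ B.erase x, ∑ c ∈ CP G Z T S y, (dg G (HP G Z T S x) c : ℤ)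
      + ∑ x ∈ B, ∑ y ∈ B.erase x, ∑ c ∈ CP G Z T S y, (dg G (CP G Z T S x) c : ℤ)
      + ∑ x ∈ B, ∑ y ∈ B.erase x, ∑ v ∈ HP G Z T S y, (dg G (HP G Z T S x) v : ℤ)
      ≤ ∑ x ∈ B, ∑ y ∈ B.erase x, (((r : ℤ) - 1) + (((S x).card : ℤ) - r + 1)
            * (((S y).card : ℤ) - r + 1))
        + ∑ x ∈ B, (NE G (S x) : ℤ) := by
  have h1 := hP.star_gen B (CP G Z T S) (HP G Z T S) (fun x hx => h.CP_clq hF (hB hx))
    (fun x hx y hy hxy => h.dCP (hB hx) (hB hy) hxy)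
    (fun x hx y hy hxy => h.dHP (hB hx) (hB hy) hxy)
    (fun x hx y hy => h.dCH (hB hx) (hB hy))
  simp only [CP_union_HP] at h1
  have h2 : ∑ x ∈ B, ∑ y ∈ B.erase x, ∑ c ∈ CP G Z T S y, (dg G (S x) c : ℤ)
      = ∑ x ∈ B, ∑ y ∈ B.erase x, ∑ c ∈ CP G Z T S y, (dg G (HP G Z T S x) c : ℤ)
        + ∑ x ∈ B, ∑ y ∈ B.erase x, ∑ c ∈ CP G Z T S y, (dg G (CP G Z T S x) c : ℤ) := by
    rw [← sum_add_distrib]
    refine sum_congr rfl fun x _ => ?_
    rw [← sum_add_distrib]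
    refine sum_congr rfl fun y _ => ?_
    rw [← sum_add_distrib]
    refine sum_congr rfl fun c _ => ?_
    rw [dg_CP_HP (G := G) (Z := Z) (T := T) (S := S) (x := x) (v := c)]
    push_cast
    ring
  linarith

/-- **B-slot test with multiplicities** (property (PM), the slot part `S x` counted `om x` times) -/
theorem CSys.star_B_om (hP : PM G r) {A : Finset V} {S : V → Finset V}
    (h : CSys G Z T hm A S) {B : Finset V} (hB : B ⊆ A) (ω : V → ℕ) (hω : ∀ x ∈ B, 1 ≤ ω x)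
    (q : ℕ) (hq : 1 ≤ q) :
    ((r : ℤ) - 1) * (2 * q * ∑ x ∈ B, (ω x : ℤ) * (S x).card - r * q * (q + 1))
      + ∑ x ∈ B, ∑ y ∈ B.erase x, (ω x : ℤ) * ω y * ∑ v ∈ S y, (dg G (S x) v : ℤ)
      ≤ ∑ x ∈ B, (ω x : ℤ) ^ 2 * NE G (S x)
        + ∑ x ∈ B, ∑ y ∈ B.erase x, (ω x : ℤ) * ω y * (((S x).card : ℤ) * (S y).card)
        + ((r : ℤ) - 1) * ∑ x ∈ B, (ω x : ℤ) * ((ω x : ℤ) - 1) * (S x).card := by
  have hd : ∀ x ∈ B, ∀ y ∈ B, x ≠ y → Disjoint (S x) (S y) := fun x hx y hy hxy =>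
    h.disj (hB hx) (hB hy) hxy
  have h1 := hP.rows hd ω hω q hq
  have h2 : ∑ x ∈ B, ∑ y ∈ B.erase x, (ω x : ℤ) * ω y * ∑ v ∈ S x, (nd G (S y) v : ℤ)
      = ∑ x ∈ B, ∑ y ∈ B.erase x, (ω x : ℤ) * ω y * (((S x).card : ℤ) * (S y).card)
        - ∑ x ∈ B, ∑ y ∈ B.erase x, (ω x : ℤ) * ω y * ∑ v ∈ S y, (dg G (S x) v : ℤ) := by
    rw [← sum_sub_distrib]
    refine sum_congr rfl fun x hx => ?_
    rw [← sum_sub_distrib]
    refine sum_congr rfl fun y hy => ?_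
    rw [sum_dg_nd (hd y (mem_of_mem_erase hy) x hx (ne_of_mem_erase hy))]
    have h3 : ∑ v ∈ S x, (dg G (S y) v : ℤ) = ∑ v ∈ S y, (dg G (S x) v : ℤ) := by
      have := dg_comm G (S x) (S y)
      exact_mod_cast this
    rw [h3]
    ring
  rw [h2] at h1
  linarith

end BSlot

end Pool.Agent.Lib.MP_f04ccf_co
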