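import Pool.Agent.Lib.MP_f04ccf_co.M.ClosF

/-!
MP_f04ccf_co: closed systems (notes 15388 (1), (2), 15389 (C), 15425 (1)).  A closed system is a set
`A` of rows with parts `S x` of the slots such that every missing pair of `S x` is served by the
class part of another row of `A`, or has two different far rows, both in `A` (then the uncovered
parts of the two classes are complete to each other).  `CSys.del`: deleting rows together with the
neighbourhood of an independent partial transversal leaves a closed system.  `S2.exists_msys`: a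
closed system with `|A| r + 1` points and the least possible number of rows.  `MSys.law`: in it
every point `c` of the class part of the row `y` has at least `r + 1 - |S y|` neighbours in the other
rows.  `MSys.hits`: the same for every transversal of the hypergraph of the row `y`.
-/

set_option autoImplicit false

namespace Pool.Agent.Lib.MP_f04ccf_co

open Finset

attribute [local instance] Classical.propDecidable

section CSys

variable {V : Type*} {G : SimpleGraph V} {Z T : Finset V} {hm : V → V} {r m t : ℕ}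

variable (G Z T hm) in
/-- closed system on the rows `A` with the slot parts `S x` -/
structure CSys (A : Finset V) (S : V → Finset V) : Prop where
  sub : A ⊆ T
  slot : ∀ x ∈ A, S x ⊆ MM G Z T hm x
  closed : ∀ x ∈ A, ∀ p ∈ S x, ∀ q ∈ S x, (co G).Adj p q →
    (∃ y ∈ A.erase x, ∀ c ∈ S y, c ∈ Cl G Z T y → G.Adj p c ∨ G.Adj q c) ∨
      ∃ y ∈ A.erase x, ∃ z ∈ A.erase x, y ≠ z ∧ ends G T p = {x, y} ∧ ends G T q = {x, z}

variable (G Z T hm r) in
/-- closed system with `|A| r + 1` points and the least number of rows -/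
structure MSys (A : Finset V) (S : V → Finset V) : Prop extends CSys G Z T hm A S where
  two : 2 ≤ A.card
  val : ∑ x ∈ A, (S x).card = A.card * r + 1
  min : ∀ B S', CSys G Z T hm B S' → B.card < A.card → ∑ x ∈ B, (S' x).card ≤ B.card * r

variable (G Z T) in
/-- `X` is a transversal of the hypergraph of the row `y` of the system `A`, `S`: it contains a
point of every missing pair `p`, `q` of a slot part of another row `x`, unless the pair is served at
some `z ≠ x, y` of `A` (up to points of `X`) or has two far rows in `A` different from `y` -/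
def Hits (A : Finset V) (S : V → Finset V) (y : V) (X : Finset V) : Prop :=
  ∀ x ∈ A.erase y, ∀ p ∈ S x, ∀ q ∈ S x, (co G).Adj p q → p ∈ X ∨ q ∈ X ∨
    (∃ z ∈ (A.erase y).erase x, ∀ c ∈ S z, c ∈ Cl G Z T z → G.Adj p c ∨ G.Adj q c ∨ c ∈ X) ∨
      ∃ z ∈ (A.erase y).erase x, ∃ z' ∈ (A.erase y).erase x, z ≠ z' ∧ ends G T p = {x, z} ∧
        ends G T q = {x, z'}

/-- the slots of different rows are disjoint -/
lemma MM_MM_disjoint {x y : V} (hx : x ∈ T) (hy : y ∈ T) (hxy : x ≠ y) :
    Disjoint (MM G Z T hm x) (MM G Z T hm y) := by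
  rw [disjoint_left]
  intro v hv hv'
  rcases mem_MM.1 hv with h1 | h1 <;> rcases mem_MM.1 hv' with h2 | h2
  · exact disjoint_left.1 (Cl_Cl_disjoint hx hy hxy) h1 h2
  · exact disjoint_left.1 (Cl_BB_disjoint hx) h1 (mem_Ph.1 h2).1
  · exact disjoint_left.1 (Cl_BB_disjoint hy) h2 (mem_Ph.1 h1).1
  · exact hxy ((mem_Ph.1 h1).2.symm.trans (mem_Ph.1 h2).2)

lemma MM_sub {x : V} : MM G Z T hm x ⊆ Z := by
  intro v hv
  rcases mem_MM.1 hv with h1 | h1
  · exact (mem_Cl.1 h1).1
  · exact (mem_BB.1 (mem_Ph.1 h1).1).1.1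

lemma CSys.disj {A : Finset V} {S : V → Finset V} (h : CSys G Z T hm A S) {x y : V} (hx : x ∈ A)
    (hy : y ∈ A) (hxy : x ≠ y) : Disjoint (S x) (S y) :=
  (MM_MM_disjoint (h.sub hx) (h.sub hy) hxy).mono (h.slot x hx) (h.slot y hy)

lemma CSys.subZ {A : Finset V} {S : V → Finset V} (h : CSys G Z T hm A S) {x : V} (hx : x ∈ A) :
    S x ⊆ Z := (h.slot x hx).trans MM_sub

/-- parts of closed systems are closed systems -/
lemma CSys.mono {A : Finset V} {S S' : V → Finset V} (h : CSys G Z T hm A S)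
    (hS : ∀ x ∈ A, S' x ⊆ S x) : CSys G Z T hm A S' := by
  refine ⟨h.sub, fun x hx => (hS x hx).trans (h.slot x hx), fun x hx p hp q hq hpq => ?_⟩
  rcases h.closed x hx p (hS x hx hp) q (hS x hx hq) hpq with ⟨y, hy, h1⟩ | h1
  · exact Or.inl ⟨y, hy, fun c hc => h1 c (hS y (mem_of_mem_erase hy) hc)⟩
  · exact Or.inr h1

/-- the whole frame -/
theorem PFrame.csys (h : PFrame G r m t Z T) (hh : Homes G Z T hm) :
    CSys G Z T hm T (MM G Z T hm) := by
  refine ⟨Subset.refl _, fun _ _ => Subset.refl _, fun x hx p hp q hq hpq => ?_⟩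
  rcases (h.InG_all hh hx hp hq hpq).2 with ⟨y, hy, h1⟩ | h1
  · exact Or.inl ⟨y, hy, fun c _ hc => h1 c hc⟩
  · exact Or.inr h1

/-- a closed system with one row is a clique -/
lemma CSys.clq {S : V → Finset V} {x : V} (h : CSys G Z T hm {x} S) : Clq G (S x) := by
  intro p hp q hq hpq
  by_contra hn
  rcases h.closed x (mem_singleton_self x) p hp q hq (co_adj.2 ⟨hpq, hn⟩) with
    ⟨y, hy, -⟩ | ⟨y, hy, -⟩ <;> simp at hy

/-- **deleting the rows of `J` and the neighbourhood of an independent transversal of `J`** -/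
theorem CSys.del (hF : PFrame G r m t Z T) {A : Finset V} {S : V → Finset V}
    (h : CSys G Z T hm A S) {J : Finset V} {c : V → V}
    (hc : ∀ j ∈ J, c j ∈ S j ∧ c j ∈ Cl G Z T j) (hi : ∀ i ∈ J, ∀ j ∈ J, ¬ G.Adj (c i) (c j)) :
    CSys G Z T hm (A \ J) (fun x => (S x).filter fun v => ∀ j ∈ J, ¬ G.Adj (c j) v) := by
  refine ⟨sdiff_subset.trans h.sub,
    fun x hx => (filter_subset _ _).trans (h.slot x (mem_sdiff.1 hx).1),
    fun x hx p hp q hq hpq => ?_⟩
  obtain ⟨hxA, hxJ⟩ := mem_sdiff.1 hx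
  obtain ⟨hp1, hp2⟩ := mem_filter.1 hp
  obtain ⟨hq1, hq2⟩ := mem_filter.1 hq
  have hmem : ∀ z, z ∈ A.erase x → z ∉ J → z ∈ (A \ J).erase x := fun z hz hzJ =>
    mem_erase.2 ⟨ne_of_mem_erase hz, mem_sdiff.2 ⟨mem_of_mem_erase hz, hzJ⟩⟩
  have hBx : ∀ v w, v ∈ S x → w ≠ x → ends G T v = {x, w} → v ∈ BB G Z T := by
    intro v w hv hwx he
    rcases mem_MM.1 (h.slot x hxA hv) with h2 | h2
    · exfalso
      have hw : w ∈ ends G T v := by rw [he]; simp
      rcases (mem_Cl.1 h2).2 with h3 | ⟨-, h3⟩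
      · rw [h3, hF.ends_T (h.sub hxA)] at hw
        simp at hw
      · rw [h3, mem_singleton] at hw
        exact hwx hw
    · exact (mem_Ph.1 h2).1
  -- a pair with one far row in `J`
  have one : ∀ p q y z, p ∈ S x → q ∈ S x → (∀ j ∈ J, ¬ G.Adj (c j) p) →
      (∀ j ∈ J, ¬ G.Adj (c j) q) → (co G).Adj p q → y ∈ A.erase x → z ∈ A.erase x → y ≠ z →
      ends G T p = {x, y} → ends G T q = {x, z} → y ∈ J →
      z ∈ (A \ J).erase x ∧ ∀ d ∈ (S z).filter (fun v => ∀ j ∈ J, ¬ G.Adj (c j) v),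
        d ∈ Cl G Z T z → G.Adj p d ∨ G.Adj q d := by
    intro p q y z hp1 hq1 hp2 hq2 hpq hy hz hyz hep heq hyJ
    have hyT := h.sub (mem_of_mem_erase hy)
    have hzT := h.sub (mem_of_mem_erase hz)
    have hpB := hBx p y hp1 (ne_of_mem_erase hy) hep
    have hqB := hBx q z hq1 (ne_of_mem_erase hz) heq
    have key : ∀ d, d ∈ Cl G Z T z → ¬ G.Adj p d → ¬ G.Adj q d → G.Adj (c y) d :=
      fun d hd n1 n2 => hF.half hyT hzT hyz (h.sub hxA) hpB hep hqB heq hpq.1 hpq.2 (hc y hyJ).2 hd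
        (fun h' => hp2 y hyJ h'.symm) (fun h' => hq2 y hyJ h'.symm) n1 n2
    have hzJ : z ∉ J := fun hzJ => hi y hyJ z hzJ
      (key (c z) (hc z hzJ).2 (fun h' => hp2 z hzJ h'.symm) (fun h' => hq2 z hzJ h'.symm))
    refine ⟨hmem z hz hzJ, fun d hd hdC => ?_⟩
    by_contra hcon
    push Not at hcon
    exact (mem_filter.1 hd).2 y hyJ (key d hdC hcon.1 hcon.2)
  rcases h.closed x hxA p hp1 q hq1 hpq with ⟨y, hy, h1⟩ | ⟨y, hy, z, hz, hyz, h1, h2⟩
  · have hyJ : y ∉ J := by
      intro hyJ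
      rcases h1 (c y) (hc y hyJ).1 (hc y hyJ).2 with h2 | h2
      · exact hp2 y hyJ h2.symm
      · exact hq2 y hyJ h2.symm
    exact Or.inl ⟨y, hmem y hy hyJ, fun d hd hdC => h1 d (mem_filter.1 hd).1 hdC⟩
  · by_cases hyJ : y ∈ J
    · obtain ⟨h3, h4⟩ := one p q y z hp1 hq1 hp2 hq2 hpq hy hz hyz h1 h2 hyJ
      exact Or.inl ⟨z, h3, h4⟩
    · by_cases hzJ : z ∈ J
      · obtain ⟨h3, h4⟩ := one q p z y hq1 hp1 hq2 hp2 hpq.symm hz hy hyz.symm h2 h1 hzJ
        exact Or.inl ⟨y, h3, fun d hd hdC => (h4 d hd hdC).symm⟩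
      · exact Or.inr ⟨y, hmem y hy hyJ, z, hmem z hz hzJ, hyz, h1, h2⟩

/-- deleting a row together with a transversal of its hypergraph -/
theorem CSys.erase_hits {A : Finset V} {S : V → Finset V} (h : CSys G Z T hm A S) {y : V}
    {X : Finset V} (hX : Hits G Z T A S y X) : CSys G Z T hm (A.erase y) (fun x => S x \ X) := by
  refine ⟨(erase_subset _ _).trans h.sub,
    fun x hx => sdiff_subset.trans (h.slot x (mem_of_mem_erase hx)), fun x hx p hp q hq hpq => ?_⟩
  obtain ⟨hp1, hp2⟩ := mem_sdiff.1 hp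
  obtain ⟨hq1, hq2⟩ := mem_sdiff.1 hq
  rcases hX x hx p hp1 q hq1 hpq with h1 | h1 | ⟨z, hz, h1⟩ | h1
  · exact absurd h1 hp2
  · exact absurd h1 hq2
  · refine Or.inl ⟨z, hz, fun d hd hdC => ?_⟩
    obtain ⟨hd1, hd2⟩ := mem_sdiff.1 hd
    rcases h1 d hd1 hdC with h2 | h2 | h2
    · exact Or.inl h2
    · exact Or.inr h2
    · exact absurd h2 hd2
  · exact Or.inr h1

/-- the neighbourhood of a point of the class part is a transversal -/
theorem CSys.hits_nbr (hF : PFrame G r m t Z T) {A : Finset V} {S : V → Finset V}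
    (h : CSys G Z T hm A S) {y c : V} (hc : c ∈ S y) (hcC : c ∈ Cl G Z T y) :
    Hits G Z T A S y (((A.erase y).biUnion S).filter fun v => G.Adj c v) := by
  have hdel := h.del hF (J := {y}) (c := fun _ => c)
    (fun j hj => by
      rw [mem_singleton.1 hj]
      exact ⟨hc, hcC⟩)
    (fun _ _ _ _ => G.loopless.irrefl c)
  have hAy : A \ {y} = A.erase y := sdiff_singleton_eq_erase y A
  rw [hAy] at hdel
  intro x hx p hp q hq hpq
  have hmem : ∀ z ∈ A.erase y, ∀ v ∈ S z, G.Adj c v →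
      v ∈ ((A.erase y).biUnion S).filter fun v => G.Adj c v := fun z hz v hv hcv =>
    mem_filter.2 ⟨mem_biUnion.2 ⟨z, hz, hv⟩, hcv⟩
  by_cases h1 : G.Adj c p
  · exact Or.inl (hmem x hx p hp h1)
  by_cases h2 : G.Adj c q
  · exact Or.inr (Or.inl (hmem x hx q hq h2))
  right; right
  rcases hdel.closed x hx p (mem_filter.2 ⟨hp, fun _ _ => h1⟩) q
    (mem_filter.2 ⟨hq, fun _ _ => h2⟩) hpq with ⟨z, hz, h3⟩ | h3
  · refine Or.inl ⟨z, hz, fun d hd hdC => ?_⟩
    by_cases h4 : G.Adj c d
    · exact Or.inr (Or.inr (hmem z (mem_of_mem_erase hz) d hd h4))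
    · rcases h3 d (mem_filter.2 ⟨hd, fun _ _ => h4⟩) hdC with h5 | h5
      · exact Or.inl h5
      · exact Or.inr (Or.inl h5)
  · exact Or.inr h3

/-- the missing pairs of a slot part have a large cover number -/
lemma S2.csys_cn (hF : S2 G r m t Z T) {A : Finset V} {S : V → Finset V}
    (h : CSys G Z T hm A S) {x : V} (hx : x ∈ A) : (S x).card ≤ cn (co G) (S x) + (r - 1) :=
  card_le_cn fun K hK hq => hF.omega K (hK.trans (h.subZ hx)) hq

/-- **a minimal closed system** -/
theorem S2.exists_msys (h : S2 G r m t Z T) (hr : 1 ≤ r) (hh : Homes G Z T hm) :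
    ∃ A S, MSys G Z T hm r A S := by
  let P : ℕ → Prop := fun n => ∃ A S, CSys G Z T hm A S ∧ A.card = n ∧
    n * r + 1 ≤ ∑ x ∈ A, (S x).card
  have hP : ∃ n, P n := by
    refine ⟨t, T, MM G Z T hm, h.toPFrame.csys hh, h.cardT, ?_⟩
    have h1 := h.toPFrame.sum_card_MM hh
    have h2 : ((t * r + 1 : ℕ) : ℤ) = ((∑ x ∈ T, (MM G Z T hm x).card : ℕ) : ℤ) := by
      push_cast
      exact h1.symm
    exact (Nat.cast_injective h2).le
  obtain ⟨A, S, hS, hA, hle⟩ := Nat.find_spec hP
  have hmin : ∀ B S', CSys G Z T hm B S' → B.card < A.card →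
      ∑ x ∈ B, (S' x).card ≤ B.card * r := by
    intro B S' hB hlt
    by_contra hcon
    rw [hA] at hlt
    exact Nat.find_min hP hlt ⟨B, S', hB, rfl, by omega⟩
  -- take exactly `|A| r + 1` points
  have hdis : ∀ x ∈ A, ∀ y ∈ A, x ≠ y → Disjoint (S x) (S y) := fun x hx y hy hxy =>
    hS.disj hx hy hxy
  have hcard : (A.biUnion S).card = ∑ x ∈ A, (S x).card := card_biUnion hdis
  obtain ⟨U, hU, hUc⟩ := exists_subset_card_eq (s := A.biUnion S) (n := A.card * r + 1)
    (by rw [hcard, hA]; exact hle)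
  have hS' : CSys G Z T hm A (fun x => S x ∩ U) := hS.mono fun x _ => inter_subset_left
  have hval : ∑ x ∈ A, (S x ∩ U).card = A.card * r + 1 := by
    rw [← card_biUnion (fun x hx y hy hxy => hS'.disj hx hy hxy), ← hUc]
    congr 1
    ext v
    rw [mem_biUnion]
    constructor
    · rintro ⟨x, -, hv⟩
      exact (mem_inter.1 hv).2
    · intro hv
      obtain ⟨x, hx, hv'⟩ := mem_biUnion.1 (hU hv)
      exact ⟨x, hx, mem_inter.2 ⟨hv', hv⟩⟩
  refine ⟨A, fun x => S x ∩ U, hS', ?_, hval, hmin⟩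
  by_contra hcon
  have h4 : A.card ≤ 1 := by omega
  rcases A.eq_empty_or_nonempty with h5 | ⟨x, hx⟩
  · rw [h5] at hval
    simp at hval
  · have h6 : A = {x} :=
      (eq_singleton_iff_unique_mem).2 ⟨hx, fun v hv => card_le_one.1 h4 v hv x hx⟩
    subst h6
    have h7 := h.omega (S x ∩ U) (hS'.subZ (mem_singleton_self x)) hS'.clq
    rw [sum_singleton, card_singleton] at hval
    omega

/-- independent partial transversals of a minimal closed system -/
theorem MSys.law_J (hF : PFrame G r m t Z T) {A : Finset V} {S : V → Finset V}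
    (h : MSys G Z T hm r A S) {J : Finset V} (hJ : J ⊆ A) (hJ0 : J.Nonempty) {c : V → V}
    (hc : ∀ j ∈ J, c j ∈ S j ∧ c j ∈ Cl G Z T j) (hi : ∀ i ∈ J, ∀ j ∈ J, ¬ G.Adj (c i) (c j)) :
    J.card * r + 1 ≤ ∑ x ∈ J, (S x).card
      + ∑ x ∈ A \ J, ((S x).filter fun v => ∃ j ∈ J, G.Adj (c j) v).card := by
  have h1 := h.min _ _ (h.toCSys.del hF hc hi) (by
    rw [card_sdiff_of_subset hJ]
    have := card_pos.2 hJ0
    have := card_le_card hJ
    omega)
  have h2 : ∀ x ∈ A \ J, (S x).card = ((S x).filter fun v => ∀ j ∈ J, ¬ G.Adj (c j) v).card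
      + ((S x).filter fun v => ∃ j ∈ J, G.Adj (c j) v).card := by
    intro x _
    rw [← card_filter_add_card_filter_not (s := S x) (fun v => ∀ j ∈ J, ¬ G.Adj (c j) v)]
    congr 2
    refine filter_congr fun v _ => ?_
    push Not
    rfl
  have h3 := h.val
  rw [← sum_sdiff hJ, sum_congr rfl h2, sum_add_distrib] at h3
  have h4 : (A \ J).card + J.card = A.card := card_sdiff_add_card_eq_card hJ
  have h5 : (A \ J).card * r + J.card * r = A.card * r := by rw [← add_mul, h4]
  omega

/-- **transversals of the hypergraph of a row** -/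
theorem MSys.hits {A : Finset V} {S : V → Finset V} (h : MSys G Z T hm r A S) {y : V}
    (hy : y ∈ A) {X : Finset V} (hX : Hits G Z T A S y X) :
    r + 1 ≤ (S y).card + ∑ x ∈ A.erase y, (S x ∩ X).card := by
  have h1 := h.min _ _ (h.toCSys.erase_hits hX) (card_erase_lt_of_mem hy)
  have h2 : ∀ x ∈ A.erase y, (S x).card = (S x \ X).card + (S x ∩ X).card := by
    intro x _
    rw [card_sdiff_add_card_inter]
  have h3 := h.val
  rw [← add_sum_erase A (fun x => (S x).card) hy, sum_congr rfl h2, sum_add_distrib] at h3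
  have h4 : (A.erase y).card + 1 = A.card := card_erase_add_one hy
  have h5 : (A.erase y).card * r + r = A.card * r := by rw [← h4, add_mul, one_mul]
  omega

/-- **the pointwise law**: every point of the class part of the row `y` has at least
`r + 1 - |S y|` neighbours in the other rows -/
theorem MSys.law (hF : PFrame G r m t Z T) {A : Finset V} {S : V → Finset V}
    (h : MSys G Z T hm r A S) {y c : V} (hy : y ∈ A) (hc : c ∈ S y) (hcC : c ∈ Cl G Z T y) :
    r + 1 ≤ (S y).card + ∑ x ∈ A.erase y, dg G (S x) c := by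
  have h1 := h.hits hy (h.toCSys.hits_nbr hF hc hcC)
  refine h1.trans (Nat.add_le_add_left (sum_le_sum fun x _ => ?_) _)
  unfold dg
  refine card_le_card fun v hv => ?_
  obtain ⟨h2, h3⟩ := mem_inter.1 hv
  exact mem_filter.2 ⟨h2, (mem_filter.1 h3).2⟩

/-- the last row: the neighbourhoods of an independent transversal of the other rows cover all
missing pairs of `S x`, so they have at least `|S x| - (r - 1)` points there -/
theorem MSys.law_last (hF : S2 G r m t Z T) {A : Finset V} {S : V → Finset V}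
    (h : MSys G Z T hm r A S) {x : V} (hx : x ∈ A) {c : V → V}
    (hc : ∀ j ∈ A.erase x, c j ∈ S j ∧ c j ∈ Cl G Z T j)
    (hi : ∀ i ∈ A.erase x, ∀ j ∈ A.erase x, ¬ G.Adj (c i) (c j)) :
    Clq G ((S x).filter fun v => ∀ j ∈ A.erase x, ¬ G.Adj (c j) v) ∧
      (S x).card ≤ ((S x).filter fun v => ∃ j ∈ A.erase x, G.Adj (c j) v).card + (r - 1) := by
  have hA : A \ A.erase x = {x} := by
    ext v
    simp only [mem_sdiff, mem_erase, mem_singleton, not_and, ne_eq]
    constructor
    · rintro ⟨h1, h2⟩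
      by_contra h3
      exact h2 h3 h1
    · rintro rfl
      exact ⟨hx, fun h' => absurd rfl h'⟩
  have h1 := h.toCSys.del hF.toPFrame hc hi
  rw [hA] at h1
  have h2 := h1.clq
  refine ⟨h2, ?_⟩
  have h3 := hF.omega _ ((filter_subset _ _).trans (h.toCSys.subZ hx)) h2
  have h4 : (S x).card = ((S x).filter fun v => ∀ j ∈ A.erase x, ¬ G.Adj (c j) v).card
      + ((S x).filter fun v => ∃ j ∈ A.erase x, G.Adj (c j) v).card := by
    rw [← card_filter_add_card_filter_not (s := S x) (fun v => ∀ j ∈ A.erase x, ¬ G.Adj (c j) v)]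
    congr 2
    refine filter_congr fun v _ => ?_
    push Not
    rfl
  omega

end CSys

end Pool.Agent.Lib.MP_f04ccf_co
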