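import Pool.Agent.Lib.MP_f04ccf_co.M.ClosX
import Pool.Agent.Lib.MP_f04ccf_co.M.CSys

/-!
MP_f04ccf_co: the two accounts in a closed system `CSys`.  `CSys.star`: property (P) on the union of
the slot parts, in the form
`2R sum s' + 2 sum e(H_x, C_y) + sum e(C_x, C_y) + sum e(H_x, H_y) <= sum (R + g_x g_y) + sum NE(S_x)`
(sums over ordered pairs of different rows, `g_x = |S_x| - (r - 1)`).  `CSys.row`: property (P) on
`S_y` and an arbitrary outside set `W`.
-/

set_option autoImplicit false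

namespace Pool.Agent.Lib.MP_f04ccf_co

open Finset

attribute [local instance] Classical.propDecidable

section StarX

variable {V : Type*} {G : SimpleGraph V} {Z T : Finset V} {hm : V → V} {r m t : ℕ}

variable (G Z T) in
/-- the class part of the slot part `S x` -/
noncomputable def CP (S : V → Finset V) (x : V) : Finset V :=
  (S x).filter fun v => v ∈ Cl G Z T x

variable (G Z T) in
/-- the doubles of the slot part `S x` -/
noncomputable def HP (S : V → Finset V) (x : V) : Finset V :=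
  (S x).filter fun v => v ∉ Cl G Z T x

lemma mem_CP {S : V → Finset V} {x v : V} : v ∈ CP G Z T S x ↔ v ∈ S x ∧ v ∈ Cl G Z T x :=
  mem_filter

lemma mem_HP {S : V → Finset V} {x v : V} : v ∈ HP G Z T S x ↔ v ∈ S x ∧ v ∉ Cl G Z T x :=
  mem_filter

lemma CP_sub {S : V → Finset V} {x : V} : CP G Z T S x ⊆ S x := filter_subset _ _

lemma HP_sub {S : V → Finset V} {x : V} : HP G Z T S x ⊆ S x := filter_subset _ _

lemma CP_union_HP {S : V → Finset V} {x : V} : CP G Z T S x ∪ HP G Z T S x = S x :=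
  filter_union_filter_not_eq _ _

lemma CP_HP_disjoint {S : V → Finset V} {x : V} :
    Disjoint (CP G Z T S x) (HP G Z T S x) :=
  disjoint_filter_filter_not _ _ _

lemma card_CP_HP {S : V → Finset V} {x : V} :
    (CP G Z T S x).card + (HP G Z T S x).card = (S x).card := by
  rw [← card_union_of_disjoint CP_HP_disjoint, CP_union_HP]

lemma CSys.CP_clq (hF : PFrame G r m t Z T) {A : Finset V} {S : V → Finset V}
    (h : CSys G Z T hm A S) {x : V} (hx : x ∈ A) : Clq G (CP G Z T S x) :=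
  fun u hu v hv huv => hF.Cl_clq (h.sub hx) u (mem_CP.1 hu).2 v (mem_CP.1 hv).2 huv

lemma CSys.HP_Ph {A : Finset V} {S : V → Finset V} (h : CSys G Z T hm A S) {x v : V} (hx : x ∈ A)
    (hv : v ∈ HP G Z T S x) : v ∈ Ph G Z T hm x := by
  obtain ⟨h1, h2⟩ := mem_HP.1 hv
  rcases mem_MM.1 (h.slot x hx h1) with h3 | h3
  · exact absurd h3 h2
  · exact h3

lemma CSys.dCP {A : Finset V} {S : V → Finset V} (h : CSys G Z T hm A S) {x y : V} (hx : x ∈ A)
    (hy : y ∈ A) (hxy : x ≠ y) : Disjoint (CP G Z T S x) (CP G Z T S y) :=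
  (h.disj hx hy hxy).mono CP_sub CP_sub

lemma CSys.dHP {A : Finset V} {S : V → Finset V} (h : CSys G Z T hm A S) {x y : V} (hx : x ∈ A)
    (hy : y ∈ A) (hxy : x ≠ y) : Disjoint (HP G Z T S x) (HP G Z T S y) :=
  (h.disj hx hy hxy).mono HP_sub HP_sub

lemma CSys.dCH {A : Finset V} {S : V → Finset V} (h : CSys G Z T hm A S) {x y : V} (hx : x ∈ A)
    (hy : y ∈ A) : Disjoint (CP G Z T S x) (HP G Z T S y) := by
  by_cases hxy : x = y
  · subst hxy
    exact CP_HP_disjoint
  · exact (h.disj hx hy hxy).mono CP_sub HP_sub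

/-- degrees into a slot part split -/
lemma dg_CP_HP {S : V → Finset V} {x v : V} :
    dg G (S x) v = dg G (CP G Z T S x) v + dg G (HP G Z T S x) v := by
  unfold dg CP HP
  rw [← card_filter_add_card_filter_not (s := (S x).filter fun w => G.Adj v w)
    (fun w => w ∈ Cl G Z T x), filter_filter, filter_filter, filter_filter, filter_filter]
  congr 2 <;> refine filter_congr fun w _ => ?_ <;> tauto

/-- `(*_A)` in a closed system: **property (P) on the union of the slot parts** -/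
theorem CSys.star (hF : PFrame G r m t Z T) (hP : PG G r) {A : Finset V} {S : V → Finset V}
    (h : CSys G Z T hm A S) :
    2 * ((r : ℤ) - 1) * ∑ x ∈ A, (((S x).card : ℤ) - r)
      + 2 * ∑ x ∈ A, ∑ y ∈ A.erase x, ∑ c ∈ CP G Z T S y, (dg G (HP G Z T S x) c : ℤ)
      + ∑ x ∈ A, ∑ y ∈ A.erase x, ∑ c ∈ CP G Z T S y, (dg G (CP G Z T S x) c : ℤ)
      + ∑ x ∈ A, ∑ y ∈ A.erase x, ∑ v ∈ HP G Z T S y, (dg G (HP G Z T S x) v : ℤ)
      ≤ ∑ x ∈ A, ∑ y ∈ A.erase x, (((r : ℤ) - 1) + (((S x).card : ℤ) - r + 1)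
            * (((S y).card : ℤ) - r + 1))
        + ∑ x ∈ A, (NE G (S x) : ℤ) := by
  have h1 := hP.star_gen A (CP G Z T S) (HP G Z T S) (fun x hx => h.CP_clq hF hx)
    (fun x hx y hy hxy => h.dCP hx hy hxy) (fun x hx y hy hxy => h.dHP hx hy hxy)
    (fun x hx y hy => h.dCH hx hy)
  simp only [CP_union_HP] at h1
  have h2 : ∑ x ∈ A, ∑ y ∈ A.erase x, ∑ c ∈ CP G Z T S y, (dg G (S x) c : ℤ)
      = ∑ x ∈ A, ∑ y ∈ A.erase x, ∑ c ∈ CP G Z T S y, (dg G (HP G Z T S x) c : ℤ)
        + ∑ x ∈ A, ∑ y ∈ A.erase x, ∑ c ∈ CP G Z T S y, (dg G (CP G Z T S x) c : ℤ) := by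
    rw [← sum_add_distrib]
    refine sum_congr rfl fun x _ => ?_
    rw [← sum_add_distrib]
    refine sum_congr rfl fun y _ => ?_
    rw [← sum_add_distrib]
    refine sum_congr rfl fun c _ => ?_
    rw [dg_CP_HP (G := G) (Z := Z) (T := T) (S := S) (x := x) (v := c)]
    push_cast
    ring
  linarith

/-- `(*_A)` in a minimal closed system: the excess is one -/
theorem MSys.star (hF : PFrame G r m t Z T) (hP : PG G r) {A : Finset V} {S : V → Finset V}
    (h : MSys G Z T hm r A S) :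
    2 * ((r : ℤ) - 1)
      + 2 * ∑ x ∈ A, ∑ y ∈ A.erase x, ∑ c ∈ CP G Z T S y, (dg G (HP G Z T S x) c : ℤ)
      + ∑ x ∈ A, ∑ y ∈ A.erase x, ∑ c ∈ CP G Z T S y, (dg G (CP G Z T S x) c : ℤ)
      + ∑ x ∈ A, ∑ y ∈ A.erase x, ∑ v ∈ HP G Z T S y, (dg G (HP G Z T S x) v : ℤ)
      + ∑ x ∈ A, (((S x).card : ℤ) - r + 1) ^ 2
      ≤ ((r : ℤ) - 1) * (A.card * (A.card - 1)) + ((A.card : ℤ) + 1) ^ 2
        + ∑ x ∈ A, (NE G (S x) : ℤ) := by
  have h1 := h.toCSys.star hF hP
  have hs : ∑ x ∈ A, (((S x).card : ℤ) - r) = 1 := by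
    rw [sum_sub_distrib, sum_const, nsmul_eq_mul]
    have h2 : ((∑ x ∈ A, (S x).card : ℕ) : ℤ) = ((A.card * r + 1 : ℕ) : ℤ) := by rw [h.val]
    push_cast at h2
    linarith
  have hg : ∑ x ∈ A, (((S x).card : ℤ) - r + 1) = A.card + 1 := by
    rw [sum_add_distrib, hs, sum_const, nsmul_eq_mul, mul_one]
    ring
  have h3 : ∑ x ∈ A, ∑ y ∈ A.erase x, (((r : ℤ) - 1) + (((S x).card : ℤ) - r + 1)
            * (((S y).card : ℤ) - r + 1))
      = ((r : ℤ) - 1) * (A.card * (A.card - 1)) + ((A.card : ℤ) + 1) ^ 2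
        - ∑ x ∈ A, (((S x).card : ℤ) - r + 1) ^ 2 := by
    have h4 : ∀ x ∈ A, ∑ y ∈ A.erase x, (((r : ℤ) - 1) + (((S x).card : ℤ) - r + 1)
            * (((S y).card : ℤ) - r + 1))
        = ((r : ℤ) - 1) * (A.card - 1) + (((S x).card : ℤ) - r + 1) * (A.card + 1)
          - (((S x).card : ℤ) - r + 1) ^ 2 := by
      intro x hx
      rw [sum_add_distrib, sum_const, nsmul_eq_mul, ← mul_sum]
      have h5 : ∑ y ∈ A.erase x, (((S y).card : ℤ) - r + 1)
          = (A.card + 1) - (((S x).card : ℤ) - r + 1) := by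
        rw [← hg, ← add_sum_erase A (fun y => (((S y).card : ℤ) - r + 1)) hx]
        ring
      have h6 : ((A.erase x).card : ℤ) = A.card - 1 := by
        have := card_erase_add_one hx
        have h7 : (((A.erase x).card + 1 : ℕ) : ℤ) = (A.card : ℤ) := by rw [this]
        push_cast at h7
        linarith
      rw [h5, h6]
      ring
    rw [sum_congr rfl h4, sum_sub_distrib, sum_add_distrib, sum_const, nsmul_eq_mul, ← sum_mul,
      hg]
    ring
  rw [h3, hs] at h1
  linarith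

/-- **row test in a closed system with an arbitrary outside set** -/
theorem CSys.row (hF : PFrame G r m t Z T) (hP : PG G r) {A : Finset V} {S : V → Finset V}
    (h : CSys G Z T hm A S) {y : V} (hy : y ∈ A) {W : Finset V} (hW : Disjoint (S y) W) :
    2 * ((r : ℤ) - 1) * (((S y).card : ℤ) - r)
      + 2 * ∑ v ∈ W, ((dg G (S y) v : ℤ) - (((S y).card : ℤ) - r + 1))
      ≤ NE G (S y) + NE G W := by
  have h1 := hP.row_homes (h.CP_clq hF hy) (CP_HP_disjoint (G := G) (Z := Z) (T := T) (S := S)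
    (x := y)) (hW.mono_left CP_sub) (hW.mono_left HP_sub)
    (g := ((S y).card : ℤ) - r + 1) (by
      rw [← card_CP_HP (G := G) (Z := Z) (T := T) (S := S) (x := y)]
      push_cast
      ring)
  have h2 : (NE G (S y) : ℤ) = NE G (HP G Z T S y)
      + 2 * ∑ v ∈ HP G Z T S y, (nd G (CP G Z T S y) v : ℤ) := by
    conv_lhs => rw [← CP_union_HP (G := G) (Z := Z) (T := T) (S := S) (x := y)]
    rw [NE_union CP_HP_disjoint, NE_clq (h.CP_clq hF hy)]
    push_cast
    ring
  have h3 : ∑ v ∈ W, ((dg G (S y) v : ℤ) - (((S y).card : ℤ) - r + 1))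
      = ∑ v ∈ W, ((dg G (CP G Z T S y) v : ℤ) + dg G (HP G Z T S y) v
          - (((S y).card : ℤ) - r + 1)) := by
    refine sum_congr rfl fun v _ => ?_
    rw [dg_CP_HP (G := G) (Z := Z) (T := T) (S := S) (x := y) (v := v)]
    push_cast
    ring
  rw [h3]
  linarith

/-- row test in terms of the loads `k c` which `W` gives to the points of the class part -/
theorem CSys.row_load (hF : PFrame G r m t Z T) (hP : PG G r) {A : Finset V} {S : V → Finset V}
    (h : CSys G Z T hm A S) {y : V} (hy : y ∈ A) {W : Finset V} (hW : Disjoint (S y) W)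
    {k : V → ℤ} (hk : ∀ c ∈ CP G Z T S y, k c ≤ dg G W c) :
    2 * ((r : ℤ) - 1) * (((S y).card : ℤ) - r) + 2 * ∑ c ∈ CP G Z T S y, k c
      + 2 * ∑ v ∈ W, (dg G (HP G Z T S y) v : ℤ)
      ≤ NE G (S y) + NE G W + 2 * W.card * (((S y).card : ℤ) - r + 1) := by
  have h1 := h.row hF hP hy hW
  have h2 : ∑ c ∈ CP G Z T S y, k c ≤ ∑ v ∈ W, (dg G (CP G Z T S y) v : ℤ) := by
    have h3 : ∑ v ∈ W, (dg G (CP G Z T S y) v : ℤ) = ∑ c ∈ CP G Z T S y, (dg G W c : ℤ) := by
      have := dg_comm G W (CP G Z T S y)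
      exact_mod_cast this
    rw [h3]
    exact sum_le_sum hk
  have h3 : ∑ v ∈ W, ((dg G (S y) v : ℤ) - (((S y).card : ℤ) - r + 1))
      = ∑ v ∈ W, (dg G (CP G Z T S y) v : ℤ) + ∑ v ∈ W, (dg G (HP G Z T S y) v : ℤ)
        - W.card * (((S y).card : ℤ) - r + 1) := by
    rw [sum_sub_distrib, sum_const, nsmul_eq_mul, ← sum_add_distrib]
    congr 1
    refine sum_congr rfl fun v _ => ?_
    rw [dg_CP_HP (G := G) (Z := Z) (T := T) (S := S) (x := y) (v := v)]
    push_cast
    ring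
  rw [h3] at h1
  linarith

end StarX

end Pool.Agent.Lib.MP_f04ccf_co
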