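import Pool.Agent.Lib.MP_f04ccf_co.M.HSys
import Pool.Agent.Lib.MP_f04ccf_co.M.StarX

/-!
MP_f04ccf_co: the room of a closed system in which class points are dropped.  `S2.room`: for parts
`C x` of the classes of the rows of `A` the sum of `r - 1 - |C x|` is at most `r - 5` plus the number
of dropped class points (frame with `m + 4 ≤ r + t`).  `PG.add_out`: property (P) with slope `n` on a
set `S` with `n r + 1` points and any further points `Q`: the point `p` of `Q` counts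
`dg S p - (n + 1)`.  `CSys.star_add`: the same for the account `(*_A)` of a closed system of value
one.  `PFrame.dg_drop`: a dropped class point sees the kept part of its class.  `HSys.add_row`: a
further row with its full class may always be added.
-/

set_option autoImplicit false

namespace Pool.Agent.Lib.MP_f04ccf_co

open Finset

attribute [local instance] Classical.propDecidable

section Room

variable {V : Type*} {G : SimpleGraph V} {Z T : Finset V} {hm : V → V} {r m t : ℕ}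

/-- **the room**: every dropped class point may raise it by one -/
theorem S2.room (hF : S2 G r m t Z T) (hmt : m + 4 ≤ r + t) {A : Finset V} (hA : A ⊆ T)
    {C : V → Finset V} (hC : ∀ x ∈ A, C x ⊆ Cl G Z T x) :
    ∑ x ∈ A, ((r : ℤ) - 1 - (C x).card)
      ≤ (r : ℤ) - 5 + ∑ x ∈ A, ((Cl G Z T x \ C x).card : ℤ) := by
  have h1 : ∑ x ∈ A, ((r : ℤ) - 1 - (C x).card)
      = ∑ x ∈ A, ((r : ℤ) - 1 - (Cl G Z T x).card)
        + ∑ x ∈ A, ((Cl G Z T x \ C x).card : ℤ) := by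
    rw [← sum_add_distrib]
    refine sum_congr rfl fun x hx => ?_
    have h2 := card_sdiff_add_card_eq_card (hC x hx)
    have h3 : ((Cl G Z T x \ C x).card : ℤ) + (C x).card = (Cl G Z T x).card := by
      exact_mod_cast h2
    linarith
  have h2 : ∑ x ∈ A, ((r : ℤ) - 1 - (Cl G Z T x).card)
      ≤ ∑ x ∈ T, ((r : ℤ) - 1 - (Cl G Z T x).card) := by
    refine sum_le_sum_of_subset_of_nonneg hA fun x hx _ => ?_
    have h3 := hF.Cl_card_lt hx
    have h4 := hF.lt
    have h5 : ((Cl G Z T x).card : ℤ) ≤ ((r - 1 : ℕ) : ℤ) := by exact_mod_cast h3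
    rw [Nat.cast_sub (by omega)] at h5
    push_cast at h5
    linarith
  have h3 : ∑ x ∈ T, ((r : ℤ) - 1 - (Cl G Z T x).card) = (BB G Z T).card - 1 - t := by
    have h4 := hF.toPFrame.card_split
    rw [hF.cardZ] at h4
    have h5 : ((t * r + 1 : ℕ) : ℤ)
        = ((∑ v ∈ T, (Cl G Z T v).card + (BB G Z T).card : ℕ) : ℤ) := by rw [h4]
    push_cast at h5
    rw [sum_sub_distrib, sum_const, nsmul_eq_mul, hF.cardT]
    linarith
  have h4 : ((BB G Z T).card : ℤ) ≤ m := by exact_mod_cast hF.b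
  have h5 : (m : ℤ) + 4 ≤ r + t := by exact_mod_cast hmt
  linarith

/-- a minimal home-free system has at most `|BB|` doubles -/
theorem MHSys.room_b (hF : S2 G r m t Z T) {A S : Finset V} (h : MHSys G Z T r A S) :
    ∑ x ∈ A, (r - (S.filter fun v => v ∈ Cl G Z T x).card) + 1 ≤ (BB G Z T).card := by
  obtain ⟨x₀, hx₀⟩ : A.Nonempty := card_pos.1 (by have := h.two; omega)
  obtain ⟨hm, -, h1, -⟩ := h.exists_homes hF.toPFrame hx₀
  rw [h.sum_T hF h1]
  exact HSys.sum_home_le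

/-- property (P) with slope `n` on a set with `n r + 1` points and further points `Q` -/
theorem PG.add_out (hP : PG G r) {S Q : Finset V} {n : ℕ} (hS : S.card = n * r + 1)
    (hd : Disjoint S Q) :
    ((r : ℤ) - 1) * (2 * n * (n * r + 1) - r * n * (n + 1))
      + 2 * ∑ p ∈ Q, ((dg G S p : ℤ) - (n + 1)) ≤ NE G S + NE G Q := by
  have h1 := hP.ne (S ∪ Q) n
  have h2 : (NE G (S ∪ Q) : ℤ) = NE G S + NE G Q + 2 * ∑ x ∈ Q, (nd G S x : ℤ) := by
    have := NE_union (G := G) hd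
    exact_mod_cast this
  have h3 : ∑ p ∈ Q, ((dg G S p : ℤ) - (n + 1))
      = Q.card * ((n : ℤ) * r - n) - ∑ x ∈ Q, (nd G S x : ℤ) := by
    have h4 : ∀ p ∈ Q, ((dg G S p : ℤ) - (n + 1)) = ((n : ℤ) * r - n) - nd G S p := by
      intro p hp
      have h5 := nd_of_notMem (G := G) (disjoint_right.1 hd hp)
      rw [hS] at h5
      have h6 : (dg G S p : ℤ) + nd G S p = n * r + 1 := by exact_mod_cast h5
      linarith
    rw [sum_congr rfl h4, sum_sub_distrib, sum_const, nsmul_eq_mul]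
  rw [h2, card_union_of_disjoint hd, hS] at h1
  push_cast at h1
  rw [h3]
  linarith

/-- the missing pairs of the union of the slot parts of a closed system -/
theorem CSys.NE_eq {A : Finset V} {S : V → Finset V} (h : CSys G Z T hm A S) :
    (NE G (A.biUnion S) : ℤ) = ∑ x ∈ A, (NE G (S x) : ℤ)
      + ((∑ x ∈ A, ((S x).card : ℤ)) ^ 2 - ∑ x ∈ A, ((S x).card : ℤ) ^ 2)
      - (2 * ∑ x ∈ A, ∑ y ∈ A.erase x, ∑ c ∈ CP G Z T S y, (dg G (HP G Z T S x) c : ℤ)
      + ∑ x ∈ A, ∑ y ∈ A.erase x, ∑ c ∈ CP G Z T S y, (dg G (CP G Z T S x) c : ℤ)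
      + ∑ x ∈ A, ∑ y ∈ A.erase x, ∑ v ∈ HP G Z T S y, (dg G (HP G Z T S x) v : ℤ)) := by
  have hd : ∀ x ∈ A, ∀ y ∈ A, x ≠ y → Disjoint (S x) (S y) := fun x hx y hy hxy =>
    h.disj hx hy hxy
  have hNE := NE_biUnion (G := G) A S ∅ hd (fun _ _ => disjoint_empty_right _)
  have e0 : (NE G (∅ : Finset V) : ℤ) = 0 := by
    have : NE G (∅ : Finset V) = 0 := rfl
    rw [this]
    rfl
  rw [empty_union, e0] at hNE
  simp only [sum_empty, sum_const_zero, mul_zero, add_zero, zero_add] at hNE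
  have hnd : ∑ x ∈ A, ∑ y ∈ A.erase x, ∑ v ∈ S y, (nd G (S x) v : ℤ)
      = ∑ x ∈ A, ∑ y ∈ A.erase x, ((S x).card : ℤ) * (S y).card
        - ∑ x ∈ A, ∑ y ∈ A.erase x, ∑ v ∈ S y, (dg G (S x) v : ℤ) := by
    rw [← sum_sub_distrib]
    refine sum_congr rfl fun x hx => ?_
    rw [← sum_sub_distrib]
    refine sum_congr rfl fun y hy => ?_
    rw [sum_dg_nd (hd x hx y (mem_of_mem_erase hy) (ne_of_mem_erase hy).symm), mul_comm]
  have hsplit : ∑ x ∈ A, ∑ y ∈ A.erase x, ∑ v ∈ S y, (dg G (S x) v : ℤ)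
      = 2 * ∑ x ∈ A, ∑ y ∈ A.erase x, ∑ c ∈ CP G Z T S y, (dg G (HP G Z T S x) c : ℤ)
        + ∑ x ∈ A, ∑ y ∈ A.erase x, ∑ c ∈ CP G Z T S y, (dg G (CP G Z T S x) c : ℤ)
        + ∑ x ∈ A, ∑ y ∈ A.erase x, ∑ v ∈ HP G Z T S y, (dg G (HP G Z T S x) v : ℤ) := by
    have a1 : ∀ x ∈ A, ∀ y ∈ A.erase x, ∑ v ∈ S y, (dg G (S x) v : ℤ)
        = ∑ c ∈ CP G Z T S y, (dg G (HP G Z T S x) c : ℤ)
          + ∑ c ∈ CP G Z T S x, (dg G (HP G Z T S y) c : ℤ)
          + ∑ c ∈ CP G Z T S y, (dg G (CP G Z T S x) c : ℤ)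
          + ∑ v ∈ HP G Z T S y, (dg G (HP G Z T S x) v : ℤ) := by
      intro x _ y _
      have a2 : ∑ v ∈ S y, (dg G (S x) v : ℤ)
          = ∑ v ∈ S y, ((dg G (CP G Z T S x) v : ℤ) + dg G (HP G Z T S x) v) := by
        refine sum_congr rfl fun v _ => ?_
        rw [dg_CP_HP (G := G) (Z := Z) (T := T) (S := S) (x := x) (v := v)]
        push_cast
        rfl
      have a3 : ∀ f : V → ℤ, ∑ v ∈ S y, f v = ∑ v ∈ CP G Z T S y, f v
          + ∑ v ∈ HP G Z T S y, f v := by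
        intro f
        rw [← sum_union CP_HP_disjoint, CP_union_HP]
      have a4 : ∑ v ∈ HP G Z T S y, (dg G (CP G Z T S x) v : ℤ)
          = ∑ c ∈ CP G Z T S x, (dg G (HP G Z T S y) c : ℤ) := by
        have := dg_comm G (HP G Z T S y) (CP G Z T S x)
        exact_mod_cast this
      rw [a2, a3, sum_add_distrib, sum_add_distrib, a4]
      ring
    have a5 : ∑ x ∈ A, ∑ y ∈ A.erase x, ∑ c ∈ CP G Z T S x, (dg G (HP G Z T S y) c : ℤ)
        = ∑ x ∈ A, ∑ y ∈ A.erase x, ∑ c ∈ CP G Z T S y, (dg G (HP G Z T S x) c : ℤ) := by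
      rw [sum_offdiag A fun x y => ∑ c ∈ CP G Z T S x, (dg G (HP G Z T S y) c : ℤ),
        sum_offdiag A fun x y => ∑ c ∈ CP G Z T S y, (dg G (HP G Z T S x) c : ℤ), sum_comm]
    rw [sum_congr rfl fun x hx => sum_congr rfl fun y hy => a1 x hx y hy]
    simp only [sum_add_distrib]
    rw [a5]
    ring
  have h3 : ∑ x ∈ A, ∑ y ∈ A.erase x, ((S x).card : ℤ) * (S y).card
      = (∑ x ∈ A, ((S x).card : ℤ)) ^ 2 - ∑ x ∈ A, ((S x).card : ℤ) ^ 2 := by
    rw [sum_offdiag A fun x y => ((S x).card : ℤ) * (S y).card, sq (∑ x ∈ A, _), sum_mul_sum]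
    congr 1
    exact sum_congr rfl fun x _ => by ring
  rw [hNE, hnd, hsplit, h3]
  ring

/-- `(*_A)` **in a closed system of value one with any further points `Q`** -/
theorem CSys.star_add (hP : PG G r) {A : Finset V} {S : V → Finset V}
    (h : CSys G Z T hm A S) (hval : ∑ x ∈ A, (S x).card = A.card * r + 1) {Q : Finset V}
    (hQ : Disjoint (A.biUnion S) Q) :
    2 * ((r : ℤ) - 1)
      + 2 * ∑ x ∈ A, ∑ y ∈ A.erase x, ∑ c ∈ CP G Z T S y, (dg G (HP G Z T S x) c : ℤ)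
      + ∑ x ∈ A, ∑ y ∈ A.erase x, ∑ c ∈ CP G Z T S y, (dg G (CP G Z T S x) c : ℤ)
      + ∑ x ∈ A, ∑ y ∈ A.erase x, ∑ v ∈ HP G Z T S y, (dg G (HP G Z T S x) v : ℤ)
      + ∑ x ∈ A, (((S x).card : ℤ) - r + 1) ^ 2
      + 2 * ∑ p ∈ Q, ((dg G (A.biUnion S) p : ℤ) - (A.card + 1))
      ≤ ((r : ℤ) - 1) * (A.card * (A.card - 1)) + ((A.card : ℤ) + 1) ^ 2
        + ∑ x ∈ A, (NE G (S x) : ℤ) + NE G Q := by
  have hcard : (A.biUnion S).card = A.card * r + 1 := by
    rw [card_biUnion fun x hx y hy hxy => h.disj hx hy hxy]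
    exact hval
  have h1 := hP.add_out hcard hQ
  have hs : ∑ x ∈ A, ((S x).card : ℤ) = A.card * r + 1 := by
    have h2 : ((∑ x ∈ A, (S x).card : ℕ) : ℤ) = ((A.card * r + 1 : ℕ) : ℤ) := by rw [hval]
    push_cast at h2
    exact h2
  have h4 : ∑ x ∈ A, (((S x).card : ℤ) - r + 1) ^ 2 = ∑ x ∈ A, ((S x).card : ℤ) ^ 2
      - 2 * ((r : ℤ) - 1) * (A.card * r + 1) + A.card * ((r : ℤ) - 1) ^ 2 := by
    have h5 : ∀ x ∈ A, (((S x).card : ℤ) - r + 1) ^ 2 = ((S x).card : ℤ) ^ 2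
        - 2 * ((r : ℤ) - 1) * (S x).card + ((r : ℤ) - 1) ^ 2 := fun x _ => by ring
    rw [sum_congr rfl h5, sum_add_distrib, sum_sub_distrib, ← mul_sum, hs, sum_const,
      nsmul_eq_mul]
  rw [h.NE_eq, hs] at h1
  rw [h4]
  linarith

/-- a dropped class point sees the kept part of its class -/
lemma PFrame.dg_drop (hF : PFrame G r m t Z T) {x p : V} (hx : x ∈ T) {C S : Finset V}
    (hC : C ⊆ Cl G Z T x) (hCS : C ⊆ S) (hp : p ∈ Cl G Z T x) (hpC : p ∉ C) :
    C.card ≤ dg G S p := by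
  unfold dg
  refine card_le_card fun c hc => mem_filter.2 ⟨hCS hc, ?_⟩
  refine hF.Cl_clq hx p hp c (hC hc) ?_
  rintro rfl
  exact hpC hc

/-- a further row with its full class may be added to a home-free closed system -/
theorem HSys.add_row (hF : PFrame G r m t Z T) {A S : Finset V} (h : HSys G Z T A S) {z : V}
    (hz : z ∈ T) (hzA : z ∉ A) : HSys G Z T (insert z A) (S ∪ Cl G Z T z) := by
  have hzrow : ∀ v ∈ Cl G Z T z, rws G T v = {z} := fun v hv => rws_Cl hz hv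
  refine ⟨insert_subset hz h.sub, fun x hx => ?_, union_subset h.subZ (filter_subset _ _),
    fun v hv => ?_, fun x hx p hp q hq hxp hxq hpq => ?_⟩
  · rcases mem_insert.1 hx with rfl | hx
    · exact mem_union_right _ (hF.self_mem_Cl hz)
    · exact mem_union_left _ (h.ctr hx)
  · rcases mem_union.1 hv with hv | hv
    · obtain ⟨x, hx, h1⟩ := h.row v hv
      exact ⟨x, mem_insert_of_mem hx, h1⟩
    · exact ⟨z, mem_insert_self z A, by rw [hzrow v hv]; simp⟩
  -- class points of `y ∈ A` in the new set are old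
  have hold : ∀ y ∈ A, ∀ c ∈ S ∪ Cl G Z T z, c ∈ Cl G Z T y → c ∈ S := by
    intro y hy c hc hcC
    rcases mem_union.1 hc with hc | hc
    · exact hc
    · exfalso
      exact disjoint_left.1 (Cl_Cl_disjoint (h.sub hy) hz (fun e => hzA (e ▸ hy))) hcC hc
  have hZp : p ∈ Z := by
    rcases mem_union.1 hp with hp | hp
    · exact h.subZ hp
    · exact (mem_Cl.1 hp).1
  have hZq : q ∈ Z := by
    rcases mem_union.1 hq with hq | hq
    · exact h.subZ hq
    · exact (mem_Cl.1 hq).1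
  rcases mem_insert.1 hx with rfl | hxA
  · -- the common row is the new one
    -- a point of `S` with the row `x` is double and its other row is in `A`
    have hdbl : ∀ v ∈ S ∪ Cl G Z T x, x ∈ rws G T v → v ∈ Cl G Z T x ∨
        (v ∈ BB G Z T ∧ ∃ y ∈ A, y ≠ x ∧ ends G T v = {x, y}) := by
      intro v hv hxv
      rcases mem_union.1 hv with hv | hv
      · rcases hF.rws_split (h.subZ hv) hxv with h1 | ⟨h1, y, hy, he⟩
        · exact Or.inl h1
        · right
          refine ⟨h1, y, ?_, ne_of_mem_erase hy, he⟩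
          obtain ⟨x', hx', h2⟩ := h.row v hv
          rw [rws_BB h1, he] at h2
          rcases mem_insert.1 h2 with h3 | h3
          · exact absurd (h3 ▸ hx') hzA
          · rw [mem_singleton.1 h3] at hx'
            exact hx'
      · exact Or.inl hv
    rcases hdbl p hp hxp with h1 | ⟨hpB, y, hy, hyx, he⟩
    · rcases hdbl q hq hxq with h2 | ⟨hqB, y', hy', hyx', he'⟩
      · exact absurd (hF.Cl_clq hz p h1 q h2 hpq.1) hpq.2
      · exact Or.inl ⟨y', mem_erase.2 ⟨hyx', mem_insert_of_mem hy'⟩, fun c _ hc =>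
          (hF.srv_PC hz (h.sub hy') hyx'.symm hqB he' h1 (fun h' => hpq.2 h'.symm) hc).symm⟩
    · rcases hdbl q hq hxq with h2 | ⟨hqB, y', hy', hyx', he'⟩
      · exact Or.inl ⟨y, mem_erase.2 ⟨hyx, mem_insert_of_mem hy⟩, fun c _ hc =>
          hF.srv_PC hz (h.sub hy) hyx.symm hpB he h2 hpq.2 hc⟩
      · by_cases hyy : y = y'
        · subst hyy
          exact Or.inl ⟨y, mem_erase.2 ⟨hyx, mem_insert_of_mem hy⟩, fun c _ hc =>
            hF.srv_PP (h.sub hy) hpB he hqB he' hpq.1 hpq.2 hc⟩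
        · exact Or.inr ⟨y, mem_erase.2 ⟨hyx, mem_insert_of_mem hy⟩, y',
            mem_erase.2 ⟨hyx', mem_insert_of_mem hy'⟩, hyy, he, he'⟩
  · -- the common row is old
    have hxz : x ≠ z := fun e => hzA (e ▸ hxA)
    have hS : ∀ v ∈ S ∪ Cl G Z T z, x ∈ rws G T v → v ∈ S := by
      intro v hv hxv
      rcases mem_union.1 hv with hv | hv
      · exact hv
      · rw [hzrow v hv, mem_singleton] at hxv
        exact absurd hxv hxz
    have her : A.erase x ⊆ (insert z A).erase x := erase_subset_erase x (subset_insert z A)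
    rcases h.closed x hxA p (hS p hp hxp) q (hS q hq hxq) hxp hxq hpq with
      ⟨y, hy, h1⟩ | ⟨y, hy, y', hy', h1⟩
    · exact Or.inl ⟨y, her hy, fun c hc hcC => h1 c (hold y (mem_of_mem_erase hy) c hc hcC) hcC⟩
    · exact Or.inr ⟨y, her hy, y', her hy', h1⟩

end Room

end Pool.Agent.Lib.MP_f04ccf_co
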