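import Mathlib

/-!
MP_f04ccf_co: the rows of a system in sorted order (glue between the combinatorial side and the numeric
lemmas).  `exists_rank`: a rank function `ρ` of the finite set `A` with the inverse `σ`, such that the
weight `t` is antitone along `σ` (row `0` has the largest `t`, i.e. the lightest class).
`Rank.sum`, `Rank.sum2`, `Rank.sum_lt`: sums over `A` as sums over `range A.card`.
-/

set_option autoImplicit false

namespace Pool.Agent.Lib.MP_f04ccf_co

open Finset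

section Srt

variable {V : Type*}

/-- `ρ` ranks the points of `A`, `σ` is the inverse, `t` decreases along `σ` -/
structure Rank (A : Finset V) (t : V → ℤ) (ρ : V → ℕ) (σ : ℕ → V) : Prop where
  lt : ∀ x ∈ A, ρ x < A.card
  mem : ∀ i, i < A.card → σ i ∈ A
  left : ∀ x ∈ A, σ (ρ x) = x
  right : ∀ i, i < A.card → ρ (σ i) = i
  anti : ∀ i j, i ≤ j → j < A.card → t (σ j) ≤ t (σ i)

theorem exists_rank (A : Finset V) (hA : A.Nonempty) (t : V → ℤ) :
    ∃ (ρ : V → ℕ) (σ : ℕ → V), Rank A t ρ σ := by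
  classical
  obtain ⟨x0, hx0⟩ := hA
  obtain ⟨e⟩ : Nonempty (Fin A.card ≃ A) := ⟨A.equivFin.symm⟩
  set f : Fin A.card → ℤ := fun i => - t (e i) with hf
  have hmono : Monotone (f ∘ Tuple.sort f) := Tuple.monotone_sort f
  set π := Tuple.sort f with hπ
  refine ⟨fun x => if h : x ∈ A then (π.symm (e.symm ⟨x, h⟩) : Fin A.card).val else 0,
    fun i => if h : i < A.card then (e (π ⟨i, h⟩) : V) else x0, ?_, ?_, ?_, ?_, ?_⟩
  · intro x hx
    simp only [hx, dif_pos]
    exact (π.symm (e.symm ⟨x, hx⟩)).isLt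
  · intro i hi
    simp only [hi, dif_pos]
    exact (e (π ⟨i, hi⟩)).2
  · intro x hx
    simp only [hx, dif_pos, Fin.is_lt, Fin.eta, Equiv.apply_symm_apply]
  · intro i hi
    have h1 : ((e (π ⟨i, hi⟩) : A) : V) ∈ A := (e (π ⟨i, hi⟩)).2
    simp only [hi, dif_pos, h1, Subtype.coe_eta, Equiv.symm_apply_apply]
  · intro i j hij hj
    have hi : i < A.card := lt_of_le_of_lt hij hj
    have h1 := hmono (show (⟨i, hi⟩ : Fin A.card) ≤ ⟨j, hj⟩ from hij)
    simp only [hf, Function.comp] at h1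
    simp only [hi, hj, dif_pos]
    linarith

variable {A : Finset V} {t : V → ℤ} {ρ : V → ℕ} {σ : ℕ → V}

namespace Rank

lemma inj (h : Rank A t ρ σ) {x y : V} (hx : x ∈ A) (hy : y ∈ A) (hxy : ρ x = ρ y) : x = y := by
  rw [← h.left x hx, ← h.left y hy, hxy]

lemma sinj (h : Rank A t ρ σ) {i j : ℕ} (hi : i < A.card) (hj : j < A.card) (hij : σ i = σ j) :
    i = j := by
  rw [← h.right i hi, ← h.right j hj, hij]

lemma anti' (h : Rank A t ρ σ) {x y : V} (hx : x ∈ A) (hy : y ∈ A) (hxy : ρ x ≤ ρ y) :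
    t y ≤ t x := by
  have h1 := h.anti (ρ x) (ρ y) hxy (h.lt y hy)
  rwa [h.left x hx, h.left y hy] at h1

/-- sums over the rows -/
lemma sum {M : Type*} [AddCommMonoid M] (h : Rank A t ρ σ) (f : V → M) :
    ∑ x ∈ A, f x = ∑ i ∈ range A.card, f (σ i) := by
  refine sum_nbij' ρ σ (fun x hx => mem_range.2 (h.lt x hx)) (fun i hi => h.mem i (mem_range.1 hi))
    (fun x hx => h.left x hx) (fun i hi => h.right i (mem_range.1 hi)) (fun x hx => ?_)
  rw [h.left x hx]

/-- sums over a part of the rows -/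
lemma sum_filter {M : Type*} [AddCommMonoid M] (h : Rank A t ρ σ) (p : V → Prop)
    [DecidablePred p] (q : ℕ → Prop) [DecidablePred q] (hpq : ∀ x ∈ A, p x ↔ q (ρ x))
    (f : V → M) : ∑ x ∈ A.filter p, f x = ∑ i ∈ (range A.card).filter q, f (σ i) := by
  refine sum_nbij' ρ σ (fun x hx => ?_) (fun i hi => ?_) (fun x hx => h.left x (mem_filter.1 hx).1)
    (fun i hi => h.right i (mem_range.1 (mem_filter.1 hi).1)) (fun x hx => ?_)
  · obtain ⟨h1, h2⟩ := mem_filter.1 hx
    exact mem_filter.2 ⟨mem_range.2 (h.lt x h1), (hpq x h1).1 h2⟩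
  · obtain ⟨h1, h2⟩ := mem_filter.1 hi
    have h3 := mem_range.1 h1
    refine mem_filter.2 ⟨h.mem i h3, (hpq _ (h.mem i h3)).2 ?_⟩
    rwa [h.right i h3]
  · rw [h.left x (mem_filter.1 hx).1]

/-- sums over ordered pairs of different rows -/
lemma sum2 [DecidableEq V] {M : Type*} [AddCommMonoid M] (h : Rank A t ρ σ) (f : V → V → M) :
    ∑ x ∈ A, ∑ y ∈ A.erase x, f x y
      = ∑ i ∈ range A.card, ∑ j ∈ (range A.card).erase i, f (σ i) (σ j) := by
  rw [h.sum (fun x => ∑ y ∈ A.erase x, f x y)]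
  refine sum_congr rfl fun i hi => ?_
  have hi' := mem_range.1 hi
  have e1 : A.erase (σ i) = A.filter (fun y => y ≠ σ i) := by
    ext y
    rw [mem_erase, mem_filter, and_comm]
  have e2 : (range A.card).erase i = (range A.card).filter (fun j => j ≠ i) := by
    ext j
    rw [mem_erase, mem_filter, and_comm]
  rw [e1, e2]
  refine h.sum_filter _ _ (fun y hy => ?_) _
  constructor
  · intro h1 h2
    exact h1 (by rw [← h.left y hy, h2])
  · intro h1 h2
    exact h1 (by rw [h2, h.right i hi'])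

/-- sums over the rows of smaller rank -/
lemma sum_lt [DecidableEq V] {M : Type*} [AddCommMonoid M] (h : Rank A t ρ σ) (f : V → M)
    {k : ℕ} (hk : k ≤ A.card) :
    ∑ x ∈ A.filter (fun x => ρ x < k), f x = ∑ i ∈ range k, f (σ i) := by
  rw [h.sum_filter (fun x => ρ x < k) (fun i => i < k) (fun _ _ => Iff.rfl)]
  refine sum_congr ?_ fun _ _ => rfl
  ext i
  rw [mem_filter, mem_range, mem_range]
  constructor
  · exact fun h => h.2
  · exact fun h => ⟨lt_of_lt_of_le h hk, h⟩

/-- sums over the rows of larger or equal rank -/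
lemma sum_ge [DecidableEq V] {M : Type*} [AddCommMonoid M] (h : Rank A t ρ σ) (f : V → M)
    (k : ℕ) :
    ∑ x ∈ A.filter (fun x => k ≤ ρ x), f x = ∑ i ∈ Ico k A.card, f (σ i) := by
  rw [h.sum_filter (fun x => k ≤ ρ x) (fun i => k ≤ i) (fun _ _ => Iff.rfl)]
  refine sum_congr ?_ fun _ _ => rfl
  ext i
  rw [mem_filter, mem_range, mem_Ico, and_comm]

/-- sums over pairs `ρ x < ρ y` -/
lemma sum2_lt [DecidableEq V] {M : Type*} [AddCommMonoid M] (h : Rank A t ρ σ)
    (f : V → V → M) :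
    ∑ y ∈ A, ∑ x ∈ A.filter (fun x => ρ x < ρ y), f x y
      = ∑ j ∈ range A.card, ∑ i ∈ range j, f (σ i) (σ j) := by
  rw [h.sum (fun y => ∑ x ∈ A.filter (fun x => ρ x < ρ y), f x y)]
  refine sum_congr rfl fun j hj => ?_
  have hj' := mem_range.1 hj
  rw [h.right j hj']
  exact h.sum_lt (fun x => f x (σ j)) hj'.le

end Rank

end Srt

end Pool.Agent.Lib.MP_f04ccf_co
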