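import Pool.Agent.Lib.MP_f04ccf_co.M.LemF
import Pool.Agent.Lib.MP_f04ccf_co.M.D3H

/-!
MP_f04ccf_co: homes of least weight (notes 15714 (2), 15785).  For a home-free closed system and
naturals `p`, `q` the homes which minimise `p` times the number of missing pairs (home point, class
point of the home) plus `q` times the number of ordered missing pairs of home points of one slot.
`HSys.exists_whomes`: they exist.  `WHomes.swap`: no home point wants to move to its other row.
`WHomes.kap_le`: for `p = r + 1`, `q = 1` a home point misses at most one class point more at home than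
at its other row.  `CSys.over_col`: an independent transversal which misses a point `v` of the slot `x`
sees all the missing partners of `v` in the slot.
-/

set_option autoImplicit false

namespace Pool.Agent.Lib.MP_f04ccf_co

open Finset

attribute [local instance] Classical.propDecidable

section TB

variable {V : Type*} {G : SimpleGraph V} {Z T : Finset V} {hm : V → V} {r m t : ℕ}

variable (G Z T) in
/-- the weight of the homes `hm` -/
noncomputable def wtH (p q : ℕ) (A S : Finset V) (hm : V → V) : ℕ :=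
  p * ∑ v ∈ S, nd G (S.filter fun a => a ∈ Cl G Z T (hm v)) v
    + q * ∑ x ∈ A, NE G (HP G Z T (fun x => S.filter fun v => hm v = x) x)

variable (G Z T) in
/-- homes of least weight -/
structure WHomes (p q : ℕ) (A S : Finset V) (hm : V → V) : Prop where
  hh : Homes G Z T hm
  ok : ∀ v ∈ S, hm v ∈ A ∧ hm v ∈ rws G T v
  min : ∀ hm' : V → V, Homes G Z T hm' → (∀ v ∈ S, hm' v ∈ A ∧ hm' v ∈ rws G T v) →
    wtH G Z T p q A S hm ≤ wtH G Z T p q A S hm'

/-- homes of least weight exist -/
theorem HSys.exists_whomes {A S : Finset V} (h : HSys G Z T A S) (p q : ℕ) :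
    ∃ hm : V → V, WHomes G Z T p q A S hm := by
  have hend : ∀ z, z ∈ BB G Z T → ∃ y, y ∈ ends G T z := by
    intro z hz
    have h1 : 0 < (ends G T z).card := by
      have h2 := (mem_BB.1 hz).2
      rw [← card_ends] at h2
      omega
    exact card_pos.1 h1
  have h0 : ∃ hm : V → V, Homes G Z T hm ∧ ∀ v ∈ S, hm v ∈ A ∧ hm v ∈ rws G T v := by
    refine ⟨fun z => if hz : z ∈ S then (h.row z hz).choose else
      if hz' : z ∈ BB G Z T then (hend z hz').choose else z, fun z hz => ?_, fun v hv => ?_⟩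
    · by_cases hzS : z ∈ S
      · simp only [hzS, dif_pos]
        exact (rws_BB hz).subset (h.row z hzS).choose_spec.2
      · simp only [hzS, hz, dif_pos, dif_neg, not_false_eq_true]
        exact (hend z hz).choose_spec
    · simp only [hv, dif_pos]
      exact (h.row v hv).choose_spec
  let P : ℕ → Prop := fun n => ∃ hm : V → V, Homes G Z T hm ∧
    (∀ v ∈ S, hm v ∈ A ∧ hm v ∈ rws G T v) ∧ wtH G Z T p q A S hm = n
  have hP : ∃ n, P n := by
    obtain ⟨hm, h1, h2⟩ := h0
    exact ⟨_, hm, h1, h2, rfl⟩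
  obtain ⟨hm, h1, h2, h3⟩ := Nat.find_spec hP
  refine ⟨hm, h1, h2, fun hm' h4 h5 => ?_⟩
  rw [h3]
  exact Nat.find_min' hP ⟨hm', h4, h5, rfl⟩

lemma NE_insert' {Y : Finset V} {w : V} (hw : w ∉ Y) :
    NE G (insert w Y) = NE G Y + 2 * nd G Y w := by
  have h := NE_union (G := G) (A := Y) (B := {w}) (disjoint_singleton_right.2 hw)
  rw [sum_singleton] at h
  have h2 : NE G ({w} : Finset V) = 0 := by simp [NE, nd]
  rw [h2] at h
  rw [insert_eq, union_comm]
  omega

lemma nd_insert_self (Y : Finset V) (w : V) : nd G (insert w Y) w = nd G Y w := by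
  unfold nd
  rw [filter_insert, if_neg (fun h => h.1 rfl)]

/-- **no home point wants to move to its other row** -/
theorem WHomes.swap {p q : ℕ} {A S : Finset V} (hA : A ⊆ T) (hw : WHomes G Z T p q A S hm)
    {w x y : V} (hwS : w ∈ S) (hx : hm w = x) (hy : y ∈ A) (hyx : y ≠ x) (hyw : y ∈ rws G T w) :
    p * nd G (S.filter fun a => a ∈ Cl G Z T x) w
      + 2 * q * nd G (HP G Z T (fun x => S.filter fun v => hm v = x) x) w
      ≤ p * nd G (S.filter fun a => a ∈ Cl G Z T y) w
      + 2 * q * nd G (HP G Z T (fun x => S.filter fun v => hm v = x) y) w := by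
  have hxA : x ∈ A := hx ▸ (hw.ok w hwS).1
  have hxw : x ∈ rws G T w := hx ▸ (hw.ok w hwS).2
  have hwx : w ∉ Cl G Z T x := fun h' => by
    have h1 := rws_Cl (hA hxA) h'
    rw [h1, mem_singleton] at hyw
    exact hyx hyw
  have hwy : w ∉ Cl G Z T y := fun h' => by
    have h1 := rws_Cl (hA hy) h'
    rw [h1, mem_singleton] at hxw
    exact hyx hxw.symm
  set hm' : V → V := Function.update hm w y with hhm'
  have e1 : hm' w = y := Function.update_self _ _ _
  have e2 : ∀ v, v ≠ w → hm' v = hm v := fun v hv => Function.update_of_ne hv _ _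
  have h1 : Homes G Z T hm' := by
    intro z hz
    by_cases h : z = w
    · rw [h, e1]
      rw [h] at hz
      rwa [rws_BB hz] at hyw
    · rw [e2 z h]
      exact hw.hh z hz
  have h2 : ∀ v ∈ S, hm' v ∈ A ∧ hm' v ∈ rws G T v := by
    intro v hv
    by_cases h : v = w
    · rw [h, e1]
      exact ⟨hy, hyw⟩
    · rw [e2 v h]
      exact hw.ok v hv
  have h3 := hw.min hm' h1 h2
  unfold wtH at h3
  have c1 : ∑ v ∈ S, nd G (S.filter fun a => a ∈ Cl G Z T (hm v)) v
      = nd G (S.filter fun a => a ∈ Cl G Z T x) w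
        + ∑ v ∈ S.erase w, nd G (S.filter fun a => a ∈ Cl G Z T (hm v)) v := by
    rw [← add_sum_erase S _ hwS, hx]
  have c2 : ∑ v ∈ S, nd G (S.filter fun a => a ∈ Cl G Z T (hm' v)) v
      = nd G (S.filter fun a => a ∈ Cl G Z T y) w
        + ∑ v ∈ S.erase w, nd G (S.filter fun a => a ∈ Cl G Z T (hm v)) v := by
    rw [← add_sum_erase S _ hwS, e1]
    congr 1
    refine sum_congr rfl fun v hv => ?_
    rw [e2 v (ne_of_mem_erase hv)]
  set H : V → Finset V := HP G Z T (fun x => S.filter fun v => hm v = x) with hH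
  set H' : V → Finset V := HP G Z T (fun x => S.filter fun v => hm' v = x) with hH'
  have mH : ∀ z v, v ∈ H z ↔ (v ∈ S ∧ hm v = z) ∧ v ∉ Cl G Z T z := fun z v => by
    rw [hH, mem_HP, mem_filter]
  have mH' : ∀ z v, v ∈ H' z ↔ (v ∈ S ∧ hm' v = z) ∧ v ∉ Cl G Z T z := fun z v => by
    rw [hH', mem_HP, mem_filter]
  have d1 : ∀ z ∈ (A.erase x).erase y, H' z = H z := by
    intro z hz
    have hzy := ne_of_mem_erase hz
    have hzx := ne_of_mem_erase (mem_of_mem_erase hz)
    ext v
    rw [mH, mH']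
    by_cases h : v = w
    · rw [h, e1, hx]
      constructor
      · rintro ⟨⟨_, h4⟩, _⟩
        exact absurd h4.symm hzy
      · rintro ⟨⟨_, h4⟩, _⟩
        exact absurd h4.symm hzx
    · rw [e2 v h]
  have d2 : H' y = insert w (H y) := by
    ext v
    rw [mem_insert, mH, mH']
    by_cases h : v = w
    · rw [h, e1]
      exact ⟨fun _ => Or.inl rfl, fun _ => ⟨⟨hwS, rfl⟩, hwy⟩⟩
    · rw [e2 v h]
      exact ⟨fun h4 => Or.inr h4, fun h4 => h4.resolve_left h⟩
  have d3 : H x = insert w (H' x) := by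
    ext v
    rw [mem_insert, mH, mH']
    by_cases h : v = w
    · rw [h, hx]
      exact ⟨fun _ => Or.inl rfl, fun _ => ⟨⟨hwS, rfl⟩, hwx⟩⟩
    · rw [e2 v h]
      exact ⟨fun h4 => Or.inr h4, fun h4 => h4.resolve_left h⟩
  have d4 : w ∉ H y := fun h4 => hyx (by
    have h5 := ((mH y w).1 h4).1.2
    rw [← h5, hx])
  have d5 : w ∉ H' x := fun h4 => hyx (by
    have h5 := ((mH' x w).1 h4).1.2
    rw [← h5, e1])
  have hyA' : y ∈ A.erase x := mem_erase.2 ⟨hyx, hy⟩
  have s1 : ∑ z ∈ A, NE G (H z) = NE G (H x) + (NE G (H y)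
      + ∑ z ∈ (A.erase x).erase y, NE G (H z)) := by
    rw [add_sum_erase (A.erase x) (fun z => NE G (H z)) hyA',
      add_sum_erase A (fun z => NE G (H z)) hxA]
  have s2 : ∑ z ∈ A, NE G (H' z) = NE G (H' x) + (NE G (H' y)
      + ∑ z ∈ (A.erase x).erase y, NE G (H z)) := by
    rw [← sum_congr rfl fun z hz => congrArg (NE G) (d1 z hz),
      add_sum_erase (A.erase x) (fun z => NE G (H' z)) hyA',
      add_sum_erase A (fun z => NE G (H' z)) hxA]
  have n1 : NE G (H x) = NE G (H' x) + 2 * nd G (H x) w := by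
    rw [d3, NE_insert' d5, nd_insert_self]
  have n2 : NE G (H' y) = NE G (H y) + 2 * nd G (H y) w := by
    rw [d2, NE_insert' d4]
  rw [c1, c2, s1, s2, n1, n2] at h3
  nlinarith [h3]

/-- the same with the parts of the slots -/
theorem WHomes.swap_CP {p q : ℕ} {A S : Finset V} (h : HSys G Z T A S)
    (hw : WHomes G Z T p q A S hm)
    {w x y : V} (hwS : w ∈ S) (hx : hm w = x) (hy : y ∈ A) (hyx : y ≠ x) (hyw : y ∈ rws G T w) :
    p * nd G (CP G Z T (fun x => S.filter fun v => hm v = x) x) w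
      + 2 * q * nd G (HP G Z T (fun x => S.filter fun v => hm v = x) x) w
      ≤ p * nd G (CP G Z T (fun x => S.filter fun v => hm v = x) y) w
      + 2 * q * nd G (HP G Z T (fun x => S.filter fun v => hm v = x) y) w := by
  have h1 := hw.swap h.sub hwS hx hy hyx hyw
  rwa [h.CP_eq hw.ok (hx ▸ (hw.ok w hwS).1), h.CP_eq hw.ok hy]

/-- the home part of a slot of homes consists of doubles -/
lemma HSys.HP_BB (hF : PFrame G r m t Z T) {A S : Finset V} (h : HSys G Z T A S)
    (hh : ∀ v ∈ S, hm v ∈ A ∧ hm v ∈ rws G T v) {y v : V}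
    (hv : v ∈ HP G Z T (fun x => S.filter fun v => hm v = x) y) : v ∈ BB G Z T := by
  obtain ⟨h1, h2⟩ := mem_HP.1 hv
  obtain ⟨h3, h4⟩ := mem_filter.1 h1
  have h5 := (hh v h3).2
  rw [h4] at h5
  rcases hF.rws_split (h.subZ h3) h5 with h6 | h6
  · exact absurd h6 h2
  · exact h6.1

/-- **`p = r + 1`, `q = 1`**: at most one class point more is missed at home than at the other row -/
theorem WHomes.kap_le {b : ℕ} {A S : Finset V} (hF : PFrame G r b t Z T) (hb : b ≤ r)
    (h : HSys G Z T A S) (hw : WHomes G Z T (r + 1) 1 A S hm)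
    {w x y : V} (hwS : w ∈ S) (hx : hm w = x) (hy : y ∈ A) (hyx : y ≠ x) (hyw : y ∈ rws G T w) :
    nd G (CP G Z T (fun x => S.filter fun v => hm v = x) x) w
      ≤ nd G (CP G Z T (fun x => S.filter fun v => hm v = x) y) w + 1 := by
  have h1 := hw.swap_CP h hwS hx hy hyx hyw
  have hxw : x ∈ rws G T w := hx ▸ (hw.ok w hwS).2
  have hwB : w ∈ BB G Z T := by
    rcases hF.rws_split (h.subZ hwS) hyw with h6 | h6
    · exfalso
      rw [rws_Cl (h.sub hy) h6, mem_singleton] at hxw
      exact hyx hxw.symm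
    · exact h6.1
  have h2 : nd G (HP G Z T (fun x => S.filter fun v => hm v = x) y) w + 1 ≤ r := by
    have h3 : (HP G Z T (fun x => S.filter fun v => hm v = x) y) ⊆ (BB G Z T).erase w := by
      intro v hv
      refine mem_erase.2 ⟨fun hvw => ?_, h.HP_BB hF hw.ok hv⟩
      have h4 := (mem_filter.1 (mem_HP.1 hv).1).2
      rw [hvw, hx] at h4
      exact hyx h4.symm
    have h4 : nd G (HP G Z T (fun x => S.filter fun v => hm v = x) y) w
        ≤ (HP G Z T (fun x => S.filter fun v => hm v = x) y).card := card_filter_le _ _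
    have h5 := card_le_card h3
    rw [card_erase_of_mem hwB] at h5
    have h6 := card_pos.2 ⟨w, hwB⟩
    have h7 := hF.b
    omega
  by_contra hcon
  push Not at hcon
  nlinarith [Nat.mul_le_mul_left (r + 1) hcon]

variable {A : Finset V} {S : V → Finset V}

/-- what an independent transversal sees in the slot `x` covers the missing pairs of the slot -/
theorem CSys.seen_cov (hF : PFrame G r m t Z T) (h : CSys G Z T hm A S) {x : V} (hx : x ∈ A)
    {c : V → V} (hc : ∀ z ∈ A.erase x, c z ∈ CP G Z T S z)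
    (hi : ∀ y ∈ A.erase x, ∀ z ∈ A.erase x, y ≠ z → ¬ G.Adj (c y) (c z)) :
    CovN (co G) (S x) ((S x).filter fun q => ∃ z ∈ A.erase x, G.Adj (c z) q) := by
  intro p hp q hq hpq
  obtain ⟨z, hz, h1 | h1⟩ := h.pp_seen hF hx hc hi hp hq hpq
  · exact Or.inl (mem_filter.2 ⟨hp, z, hz, h1⟩)
  · exact Or.inr (mem_filter.2 ⟨hq, z, hz, h1⟩)

/-- a point with more missing partners than the cover has points is in the cover -/
lemma mem_of_cov {F : SimpleGraph V} {H K : Finset V} (hK : CovN F H K) {v : V} (hv : v ∈ H)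
    (hd : K.card < dg F H v) : v ∈ K := by
  by_contra hn
  refine absurd hd (not_lt.2 (card_le_card fun q hq => ?_))
  obtain ⟨h1, h2⟩ := mem_filter.1 hq
  exact (hK v hv q h1 h2).resolve_left hn

/-- the degree in the complement -/
lemma dg_co (H : Finset V) (v : V) : dg (co G) H v = nd G H v := by
  unfold dg nd
  refine congrArg _ (filter_congr fun q _ => ?_)
  exact ⟨fun h => ⟨h.1.symm, h.2⟩, fun h => ⟨h.1.symm, h.2⟩⟩

/-- **over-coverage**: a transversal which misses the point `v` of the slot `x` sees all its missing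
partners `q` in the slot, except those with another tail whose class point is adjacent to the class
point of the tail of `v` -/
theorem CSys.over_raw (hF : PFrame G r m t Z T) (h : CSys G Z T hm A S) {x : V} (hx : x ∈ A)
    {c : V → V} (hc : ∀ z ∈ A.erase x, c z ∈ CP G Z T S z) {v : V} (hv : v ∈ S x)
    (hvc : ∀ z ∈ A.erase x, ¬ G.Adj (c z) v) :
    nd G (S x) v ≤ ((S x).filter fun q => ∃ z ∈ A.erase x, G.Adj (c z) q).card
      + ((S x).filter fun q => (co G).Adj v q ∧ (∀ z ∈ A.erase x, ¬ G.Adj (c z) q) ∧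
        ∃ y ∈ A.erase x, ∃ z ∈ A.erase x, y ≠ z ∧ ends G T v = {x, y} ∧ ends G T q = {x, z} ∧
          G.Adj (c y) (c z)).card := by
  rw [← dg_co]
  refine le_trans (card_le_card fun q hq => ?_) (card_union_le _ _)
  obtain ⟨h1, h2⟩ := mem_filter.1 hq
  rw [mem_union, mem_filter, mem_filter]
  by_cases h3 : ∃ z ∈ A.erase x, G.Adj (c z) q
  · exact Or.inl ⟨h1, h3⟩
  push Not at h3
  refine Or.inr ⟨h1, h2, h3, ?_⟩
  rcases h.closed x hx v hv q h1 h2 with ⟨y, hy, h4⟩ | ⟨y, hy, z, hz, hyz, he, he'⟩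
  · exfalso
    obtain ⟨h5, h6⟩ := mem_CP.1 (hc y hy)
    rcases h4 _ h5 h6 with h7 | h7
    · exact hvc y hy h7.symm
    · exact h3 y hy h7.symm
  · have hyT := h.sub (mem_of_mem_erase hy)
    have hzT := h.sub (mem_of_mem_erase hz)
    have hBB : ∀ u w : V, u ∈ S x → w ∈ A.erase x → ends G T u = {x, w} → u ∈ BB G Z T := by
      intro u w hu hw he
      rcases mem_MM.1 (h.slot x hx hu) with h2 | h2
      · exfalso
        have h3 : w ∈ ends G T u := by
          rw [he]
          exact mem_insert_of_mem (mem_singleton_self _)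
        exact hF.Cl_not_adj (h.sub hx) (h.sub (mem_of_mem_erase hw)) (ne_of_mem_erase hw) h2
          (mem_ends.1 h3).2
      · exact (mem_Ph.1 h2).1
    refine ⟨y, hy, z, hz, hyz, he, he', ?_⟩
    exact hF.half hyT hzT hyz (h.sub hx) (hBB v y hv hy he) he (hBB q z h1 hz he') he' h2.1
      h2.2 (mem_CP.1 (hc y hy)).2 (mem_CP.1 (hc z hz)).2
      (fun h' => hvc y hy h'.symm) (fun h' => h3 y hy h'.symm)
      (fun h' => hvc z hz h'.symm) (fun h' => h3 z hz h'.symm)

/-- **over-coverage of an independent transversal** -/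
theorem CSys.over_col (hF : PFrame G r m t Z T) (h : CSys G Z T hm A S) {x : V} (hx : x ∈ A)
    {c : V → V} (hc : ∀ z ∈ A.erase x, c z ∈ CP G Z T S z)
    (hi : ∀ y ∈ A.erase x, ∀ z ∈ A.erase x, y ≠ z → ¬ G.Adj (c y) (c z)) {v : V} (hv : v ∈ S x)
    (hvc : ∀ z ∈ A.erase x, ¬ G.Adj (c z) v) :
    nd G (S x) v ≤ ((S x).filter fun q => ∃ z ∈ A.erase x, G.Adj (c z) q).card := by
  by_contra hcon
  push Not at hcon
  have h1 := mem_of_cov (h.seen_cov hF hx hc hi) hv (by rwa [dg_co])
  obtain ⟨-, z, hz, h2⟩ := mem_filter.1 h1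
  exact hvc z hz h2

/-- the points seen by a transversal, counted row by row -/
lemma seen_le (c : V → V) (x : V) :
    ((S x).filter fun q => ∃ z ∈ A.erase x, G.Adj (c z) q).card
      ≤ ∑ z ∈ A.erase x, dg G (S x) (c z) := by
  have h1 : ((S x).filter fun q => ∃ z ∈ A.erase x, G.Adj (c z) q)
      ⊆ (A.erase x).biUnion (fun z => (S x).filter fun q => G.Adj (c z) q) := by
    intro q hq
    obtain ⟨h1, z, hz, h2⟩ := mem_filter.1 hq
    exact mem_biUnion.2 ⟨z, hz, mem_filter.2 ⟨h1, h2⟩⟩
  exact (card_le_card h1).trans card_biUnion_le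

end TB

end Pool.Agent.Lib.MP_f04ccf_co
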