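import Pool.Agent.Lib.MP_f04ccf_co.M.AlfM
import Pool.Agent.Lib.MP_f04ccf_co.M.TB
import Pool.Agent.Lib.MP_f04ccf_co.M.BSlot
import Pool.Agent.Lib.MP_f04ccf_co.M.Room
import Pool.Agent.Lib.MP_f04ccf_co.M.Srt

/-!
MP_f04ccf_co: the basic integers of a minimal home-free system with homes (glue to the numeric
lemmas).  `tI = r - 1 - |C_x|`, `sI = |S_x| - r`, `hI = |H_x|`, `2 eI = NE (S_x)`, `EI x y` = number of
adjacent pairs between the slots.  `BI`: the integers on `range n`, rows sorted (`t` decreasing, row `0`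
is the hub).  `MQSys.bi`: every minimal system gives them.
-/

set_option autoImplicit false

namespace Pool.Agent.Lib.MP_f04ccf_co

open Finset

attribute [local instance] Classical.propDecidable

section Enum

variable {V : Type*} {G : SimpleGraph V} {Z T : Finset V} {hm : V → V} {r m t : ℕ}

/-- the number of ordered missing pairs is even -/
lemma two_dvd_NE (A : Finset V) : 2 ∣ NE G A := by
  induction A using Finset.induction_on with
  | empty => simp [NE]
  | insert w Y hw ih =>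
    rw [NE_insert' hw]
    omega

variable (G Z T hm r) in
/-- `R - |C_x|` -/
noncomputable def tI (S : Finset V) (x : V) : ℤ :=
  (r : ℤ) - 1 - (CP G Z T (fun x => S.filter fun v => hm v = x) x).card

variable (hm r) in
/-- `|S_x| - r` -/
noncomputable def sI (S : Finset V) (x : V) : ℤ := ((S.filter fun v => hm v = x).card : ℤ) - r

variable (G Z T hm) in
/-- `|H_x|` -/
noncomputable def hI (S : Finset V) (x : V) : ℤ :=
  (HP G Z T (fun x => S.filter fun v => hm v = x) x).card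

variable (G hm) in
/-- the number of (unordered) missing pairs of the slot `x` -/
noncomputable def eI (S : Finset V) (x : V) : ℤ := (NE G (S.filter fun v => hm v = x) : ℤ) / 2

variable (G hm) in
/-- the number of adjacent pairs between the slots `x` and `y` -/
noncomputable def EI (S : Finset V) (x y : V) : ℤ :=
  ∑ v ∈ S.filter fun v => hm v = y, (dg G (S.filter fun v => hm v = x) v : ℤ)

lemma two_eI (S : Finset V) (x : V) :
    2 * eI G hm S x = NE G (S.filter fun v => hm v = x) := by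
  have h1 : (2 : ℤ) ∣ (NE G (S.filter fun v => hm v = x) : ℤ) := by
    exact_mod_cast two_dvd_NE (G := G) (S.filter fun v => hm v = x)
  unfold eI
  omega

lemma eI_nonneg (S : Finset V) (x : V) : 0 ≤ eI G hm S x := by
  have h1 := two_eI (G := G) (hm := hm) S x
  omega

lemma EI_nonneg (S : Finset V) (x y : V) : 0 ≤ EI G hm S x y :=
  sum_nonneg fun _ _ => Nat.cast_nonneg _

lemma EI_comm (S : Finset V) (x y : V) : EI G hm S x y = EI G hm S y x := by
  have h1 := dg_comm G (S.filter fun v => hm v = x) (S.filter fun v => hm v = y)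
  unfold EI
  exact_mod_cast h1.symm

lemma hI_eq (S : Finset V) (x : V) :
    hI G Z T hm S x = tI G Z T hm r S x + sI hm r S x + 1 := by
  have h1 := card_CP_HP (G := G) (Z := Z) (T := T) (S := fun x => S.filter fun v => hm v = x)
    (x := x)
  have h2 : ((S.filter fun v => hm v = x).card : ℤ)
      = (CP G Z T (fun x => S.filter fun v => hm v = x) x).card
        + (HP G Z T (fun x => S.filter fun v => hm v = x) x).card := by
    exact_mod_cast h1.symm
  unfold hI tI sI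
  rw [h2]
  ring

lemma hI_nonneg (S : Finset V) (x : V) : 0 ≤ hI G Z T hm S x := Nat.cast_nonneg _

lemma card_slot_eq (S : Finset V) (x : V) :
    (((S.filter fun v => hm v = x).card : ℕ) : ℤ) = r + sI hm r S x := by
  unfold sI
  ring

lemma card_CP_eq (S : Finset V) (x : V) :
    (((CP G Z T (fun x => S.filter fun v => hm v = x) x).card : ℕ) : ℤ)
      = (r : ℤ) - 1 - tI G Z T hm r S x := by
  unfold tI
  ring

variable {A S : Finset V}

lemma HSys.tI_nonneg (hF : S2 G r m t Z T) (h : HSys G Z T A S)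
    (hh : ∀ v ∈ S, hm v ∈ A ∧ hm v ∈ rws G T v) {x : V} (hx : x ∈ A) :
    0 ≤ tI G Z T hm r S x := by
  have h1 := h.card_cl hF hx
  have h2 := h.CP_eq hh hx
  have h3 := hF.lt
  unfold tI
  rw [h2]
  omega

lemma HSys.tI_lt (hF : PFrame G r m t Z T) (h : HSys G Z T A S)
    (hh : ∀ v ∈ S, hm v ∈ A ∧ hm v ∈ rws G T v) {x : V} (hx : x ∈ A) :
    tI G Z T hm r S x + 1 ≤ (r : ℤ) - 1 := by
  have h1 : x ∈ CP G Z T (fun x => S.filter fun v => hm v = x) x := by
    rw [h.CP_eq hh hx, mem_filter]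
    exact ⟨h.ctr hx, hF.self_mem_Cl (h.sub hx)⟩
  have h2 := card_pos.2 ⟨x, h1⟩
  unfold tI
  omega

lemma HSys.sum_sI (hh : ∀ v ∈ S, hm v ∈ A ∧ hm v ∈ rws G T v) :
    ∑ x ∈ A, sI hm r S x = (S.card : ℤ) - A.card * r := by
  have h1 := sum_slots (hm := hm) (A := A) (S := S) fun v hv => (hh v hv).1
  unfold sI
  rw [sum_sub_distrib, sum_const, nsmul_eq_mul, ← h1]
  push_cast
  ring

lemma HSys.sum_hI (hF : PFrame G r m t Z T) (h : HSys G Z T A S)
    (hh : ∀ v ∈ S, hm v ∈ A ∧ hm v ∈ rws G T v) :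
    ∑ x ∈ A, hI G Z T hm S x ≤ (BB G Z T).card := by
  have h1 : ∀ x ∈ A, (HP G Z T (fun x => S.filter fun v => hm v = x) x).card
      = (S.filter fun v => v ∈ BB G Z T ∧ hm v = x).card := by
    intro x hx
    have h2 := card_CP_HP (G := G) (Z := Z) (T := T)
      (S := fun x => S.filter fun v => hm v = x) (x := x)
    have h3 := h.card_slot hF hh hx
    have h4 := congrArg Finset.card (h.CP_eq hh hx)
    have h5 : (CP G Z T (fun x => S.filter fun v => hm v = x) x).card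
      + (HP G Z T (fun x => S.filter fun v => hm v = x) x).card
      = (S.filter fun v => hm v = x).card := h2
    omega
  have h2 := HSys.sum_home_le (G := G) (Z := Z) (T := T) (hm := hm) (A := A) (S := S)
  unfold hI
  rw [← sum_congr rfl h1] at h2
  exact_mod_cast h2

/-- **the mass** -/
theorem HSys.sum_tI (hF : PFrame G r m t Z T) (h : HSys G Z T A S)
    (hh : ∀ v ∈ S, hm v ∈ A ∧ hm v ∈ rws G T v) (hv : S.card = A.card * r + 1) :
    ∑ x ∈ A, tI G Z T hm r S x ≤ (BB G Z T).card - 1 - A.card := by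
  have h1 := h.sum_hI hF hh
  have h2 := HSys.sum_sI (G := G) (T := T) (r := r) hh
  have h3 : ∑ x ∈ A, hI G Z T hm S x
      = ∑ x ∈ A, tI G Z T hm r S x + ∑ x ∈ A, sI hm r S x + A.card := by
    rw [sum_congr rfl fun x _ => hI_eq (r := r) S x, sum_add_distrib, sum_add_distrib, sum_const,
      nsmul_eq_mul, mul_one]
  rw [hv] at h2
  push_cast at h2
  linarith

/-- **the mass, with the number of dropped class points** -/
theorem HSys.sum_tI_room (hF : S2 G r m t Z T) (hmt : m + 4 ≤ r + t) (h : HSys G Z T A S)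
    (hh : ∀ v ∈ S, hm v ∈ A ∧ hm v ∈ rws G T v) :
    ∑ x ∈ A, tI G Z T hm r S x ≤ (r : ℤ) - 5 + ∑ x ∈ A, ((Cl G Z T x \ S).card : ℤ) := by
  have h1 := hF.room hmt h.sub (C := fun x => CP G Z T (fun x => S.filter fun v => hm v = x) x)
    fun x hx v hv => (mem_CP.1 hv).2
  have h2 : ∀ x ∈ A, Cl G Z T x \ CP G Z T (fun x => S.filter fun v => hm v = x) x
      = Cl G Z T x \ S := by
    intro x hx
    rw [h.CP_eq hh hx]
    ext v
    simp only [mem_sdiff, mem_filter, not_and]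
    exact ⟨fun ⟨h3, h4⟩ => ⟨h3, fun h5 => h4 h5 h3⟩, fun ⟨h3, h4⟩ => ⟨h3, fun h5 => absurd h5 h4⟩⟩
  have h3 : ∑ x ∈ A, ((Cl G Z T x \ CP G Z T (fun x => S.filter fun v => hm v = x) x).card : ℤ)
      = ∑ x ∈ A, ((Cl G Z T x \ S).card : ℤ) :=
    sum_congr rfl fun x hx => by rw [h2 x hx]
  rw [h3] at h1
  exact h1

/-- **(P) on the slots of the rows `B`** -/
theorem HSys.slots_I (hF : PFrame G r m t Z T) (hP : PG G r) (h : HSys G Z T A S)
    (hh : ∀ v ∈ S, hm v ∈ A ∧ hm v ∈ rws G T v) {B : Finset V} (hB : B ⊆ A) :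
    2 * ((r : ℤ) - B.card) * ∑ x ∈ B, sI hm r S x
      + ∑ x ∈ B, ∑ y ∈ B.erase x, EI G hm S x y + ∑ x ∈ B, sI hm r S x ^ 2
      ≤ 2 * ∑ x ∈ B, eI G hm S x + B.card * (B.card - 1) * r
        + (∑ x ∈ B, sI hm r S x) ^ 2 := by
  have h1 := (h.csys hF hh).star_B_s hP hB
  have h2 : ∑ x ∈ B, (NE G (S.filter fun v => hm v = x) : ℤ) = 2 * ∑ x ∈ B, eI G hm S x := by
    rw [mul_sum]
    exact sum_congr rfl fun x _ => (two_eI S x).symm
  rw [h2] at h1
  exact h1

/-- **(PM) on the slots of the rows `B`, with multiplicities** -/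
theorem HSys.slots_om (hF : PFrame G r m t Z T) (hP : PM G r) (h : HSys G Z T A S)
    (hh : ∀ v ∈ S, hm v ∈ A ∧ hm v ∈ rws G T v) {B : Finset V} (hB : B ⊆ A) (ω : V → ℕ)
    (hω : ∀ x ∈ B, 1 ≤ ω x) (q : ℕ) (hq : 1 ≤ q) :
    ((r : ℤ) - 1) * (2 * q * ∑ x ∈ B, (ω x : ℤ) * (r + sI hm r S x) - r * q * (q + 1))
      + ∑ x ∈ B, ∑ y ∈ B.erase x, (ω x : ℤ) * ω y * EI G hm S x y
      ≤ 2 * ∑ x ∈ B, (ω x : ℤ) ^ 2 * eI G hm S x
        + ∑ x ∈ B, ∑ y ∈ B.erase x, (ω x : ℤ) * ω y * ((r + sI hm r S x) * (r + sI hm r S y))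
        + ((r : ℤ) - 1) * ∑ x ∈ B, (ω x : ℤ) * ((ω x : ℤ) - 1) * (r + sI hm r S x) := by
  have h1 := (h.csys hF hh).star_B_om hP hB ω hω q hq
  have h2 : ∑ x ∈ B, (ω x : ℤ) ^ 2 * (NE G (S.filter fun v => hm v = x) : ℤ)
      = 2 * ∑ x ∈ B, (ω x : ℤ) ^ 2 * eI G hm S x := by
    rw [mul_sum]
    refine sum_congr rfl fun x _ => ?_
    rw [← two_eI S x]
    ring
  rw [h2] at h1
  simp only [card_slot_eq (hm := hm) (r := r) S] at h1
  exact h1

/-- **the basic integers**: `n` rows, `R = r - 1`, `t i = R - |C_i|` decreasing, `s i = |S_i| - r`,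
`h i = |H_i|`, `e i` missing pairs of the slot `i`, `E i j` adjacent pairs between the slots -/
structure BI (R : ℤ) (n : ℕ) (t s h e : ℕ → ℤ) (E : ℕ → ℕ → ℤ) : Prop where
  two : 2 ≤ n
  anti : ∀ i j, i ≤ j → j < n → t j ≤ t i
  t0 : ∀ i, i < n → 0 ≤ t i
  tR : ∀ i, i < n → t i + 1 ≤ R
  h0 : ∀ i, i < n → 0 ≤ h i
  hh : ∀ i, i < n → h i = t i + s i + 1
  e0 : ∀ i, i < n → 0 ≤ e i
  E0 : ∀ i j, 0 ≤ E i j
  Es : ∀ i j, E i j = E j i
  ss : ∑ i ∈ range n, s i = 1
  sh : ∑ i ∈ range n, h i ≤ R + 1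
  P : ∀ B : Finset ℕ, B ⊆ range n →
    2 * (R + 1 - B.card) * ∑ i ∈ B, s i + ∑ i ∈ B, ∑ j ∈ B.erase i, E i j + ∑ i ∈ B, s i ^ 2
      ≤ 2 * ∑ i ∈ B, e i + B.card * (B.card - 1) * (R + 1) + (∑ i ∈ B, s i) ^ 2
  PM : ∀ B : Finset ℕ, B ⊆ range n → ∀ ω : ℕ → ℕ, (∀ i ∈ B, 1 ≤ ω i) → ∀ q : ℕ, 1 ≤ q →
    R * (2 * q * ∑ i ∈ B, (ω i : ℤ) * (R + 1 + s i) - (R + 1) * q * (q + 1))
      + ∑ i ∈ B, ∑ j ∈ B.erase i, (ω i : ℤ) * ω j * E i j
      ≤ 2 * ∑ i ∈ B, (ω i : ℤ) ^ 2 * e i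
        + ∑ i ∈ B, ∑ j ∈ B.erase i, (ω i : ℤ) * ω j * ((R + 1 + s i) * (R + 1 + s j))
        + R * ∑ i ∈ B, (ω i : ℤ) * ((ω i : ℤ) - 1) * (R + 1 + s i)

namespace Rank

variable {f : V → ℤ} {ρ : V → ℕ} {σ : ℕ → V}

lemma image_sub (h : Rank A f ρ σ) {B : Finset ℕ} (hB : B ⊆ range A.card) : B.image σ ⊆ A := by
  intro x hx
  obtain ⟨i, hi, rfl⟩ := mem_image.1 hx
  exact h.mem i (mem_range.1 (hB hi))

lemma injOn (h : Rank A f ρ σ) {B : Finset ℕ} (hB : B ⊆ range A.card) :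
    Set.InjOn σ (B : Set ℕ) := fun _ hi _ hj hij =>
  h.sinj (mem_range.1 (hB hi)) (mem_range.1 (hB hj)) hij

lemma card_image (h : Rank A f ρ σ) {B : Finset ℕ} (hB : B ⊆ range A.card) :
    (B.image σ).card = B.card := Finset.card_image_of_injOn (h.injOn hB)

lemma sum_im {M : Type*} [AddCommMonoid M] (h : Rank A f ρ σ) {B : Finset ℕ}
    (hB : B ⊆ range A.card) (g : V → M) : ∑ x ∈ B.image σ, g x = ∑ i ∈ B, g (σ i) :=
  sum_image fun i hi j hj hij => h.injOn hB hi hj hij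

lemma sum2_im {M : Type*} [AddCommMonoid M] (h : Rank A f ρ σ) {B : Finset ℕ}
    (hB : B ⊆ range A.card) (g : V → V → M) :
    ∑ x ∈ B.image σ, ∑ y ∈ (B.image σ).erase x, g x y
      = ∑ i ∈ B, ∑ j ∈ B.erase i, g (σ i) (σ j) := by
  rw [h.sum_im hB fun x => ∑ y ∈ (B.image σ).erase x, g x y]
  refine sum_congr rfl fun i hi => ?_
  have e1 : (B.image σ).erase (σ i) = (B.erase i).image σ := by
    ext x
    rw [mem_erase, mem_image, mem_image]
    constructor
    · rintro ⟨h1, j, hj, rfl⟩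
      exact ⟨j, mem_erase.2 ⟨fun h2 => h1 (by rw [h2]), hj⟩, rfl⟩
    · rintro ⟨j, hj, rfl⟩
      obtain ⟨h1, h2⟩ := mem_erase.1 hj
      exact ⟨fun h3 => h1 (h.injOn hB h2 hi h3), j, h2, rfl⟩
  rw [e1, h.sum_im ((erase_subset i B).trans hB)]

end Rank

/-- **the basic integers of a home-free closed system with `A.card * r + 1` points** -/
theorem HSys.bi (hF : S2 G r m t Z T) (hPG : PG G r) (hPM : PM G r) (hb : m ≤ r)
    (h : HSys G Z T A S) (h2 : 2 ≤ A.card) (hv : S.card = A.card * r + 1)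
    (hh : ∀ v ∈ S, hm v ∈ A ∧ hm v ∈ rws G T v) :
    ∃ (ρ : V → ℕ) (σ : ℕ → V), Rank A (tI G Z T hm r S) ρ σ ∧
      BI ((r : ℤ) - 1) A.card (fun i => tI G Z T hm r S (σ i)) (fun i => sI hm r S (σ i))
        (fun i => hI G Z T hm S (σ i)) (fun i => eI G hm S (σ i))
        (fun i j => EI G hm S (σ i) (σ j)) := by
  obtain ⟨ρ, σ, hσ⟩ := exists_rank A (card_pos.1 (by omega)) (tI G Z T hm r S)
  have hFP := hF.toPFrame
  have er : (r : ℤ) - 1 + 1 = r := by ring
  refine ⟨ρ, σ, hσ, h2, fun i j hij hj => hσ.anti i j hij hj,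
    fun i hi => h.tI_nonneg hF hh (hσ.mem i hi), fun i hi => h.tI_lt hFP hh (hσ.mem i hi),
    fun i _ => hI_nonneg S _, fun i _ => hI_eq S _, fun i _ => eI_nonneg S _,
    fun _ _ => EI_nonneg S _ _, fun _ _ => EI_comm S _ _, ?_, ?_, ?_, ?_⟩
  · rw [← hσ.sum (sI hm r S), HSys.sum_sI hh, hv]
    push_cast
    ring
  · rw [← hσ.sum (hI G Z T hm S), er]
    refine (h.sum_hI hFP hh).trans ?_
    exact_mod_cast hF.b.trans hb
  · intro B hB
    have h1 := h.slots_I hFP hPG hh (hσ.image_sub hB)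
    rw [hσ.card_image hB, hσ.sum2_im hB (EI G hm S), hσ.sum_im hB (sI hm r S),
      hσ.sum_im hB (eI G hm S), hσ.sum_im hB fun x => sI hm r S x ^ 2] at h1
    rw [er]
    exact h1
  · intro B hB ω hω q hq
    have h1 := h.slots_om hFP hPM hh (hσ.image_sub hB) (fun x => ω (ρ x)) (fun x hx => by
      obtain ⟨i, hi, rfl⟩ := mem_image.1 hx
      rw [hσ.right i (mem_range.1 (hB hi))]
      exact hω i hi) q hq
    have e1 : ∀ i ∈ B, ρ (σ i) = i := fun i hi => hσ.right i (mem_range.1 (hB hi))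
    have e2 : ∀ g : V → V → ℤ → ℤ → ℤ, ∑ x ∈ B.image σ, ∑ y ∈ (B.image σ).erase x,
        g x y (ω (ρ x)) (ω (ρ y)) = ∑ i ∈ B, ∑ j ∈ B.erase i, g (σ i) (σ j) (ω i) (ω j) := fun g => by
      rw [hσ.sum2_im hB fun x y => g x y (ω (ρ x)) (ω (ρ y))]
      exact sum_congr rfl fun i hi => sum_congr rfl fun j hj => by
        rw [e1 i hi, e1 j (mem_of_mem_erase hj)]
    have e3 : ∀ g : V → ℤ → ℤ, ∑ x ∈ B.image σ, g x (ω (ρ x)) = ∑ i ∈ B, g (σ i) (ω i) :=
      fun g => by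
        rw [hσ.sum_im hB fun x => g x (ω (ρ x))]
        exact sum_congr rfl fun i hi => by rw [e1 i hi]
    have a1 := e3 fun x w => w * (r + sI hm r S x)
    have a2 := e2 fun x y w w' => w * w' * EI G hm S x y
    have a3 := e3 fun x w => w ^ 2 * eI G hm S x
    have a4 := e2 fun x y w w' => w * w' * ((r + sI hm r S x) * (r + sI hm r S y))
    have a5 := e3 fun x w => w * (w - 1) * (r + sI hm r S x)
    rw [a1, a2, a3, a4, a5] at h1
    rw [er]
    exact h1

/-- **the basic integers of a minimal system** -/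
theorem MQSys.bi {Q : Finset V → Finset V → Prop} (hF : S2 G r m t Z T) (hQ : Hered G Z T Q)
    (hPG : PG G r) (hPM : PM G r) (hb : m ≤ r) (h : MQSys r Q A S)
    (hh : ∀ v ∈ S, hm v ∈ A ∧ hm v ∈ rws G T v) :
    ∃ (ρ : V → ℕ) (σ : ℕ → V), Rank A (tI G Z T hm r S) ρ σ ∧
      BI ((r : ℤ) - 1) A.card (fun i => tI G Z T hm r S (σ i)) (fun i => sI hm r S (σ i))
        (fun i => hI G Z T hm S (σ i)) (fun i => eI G hm S (σ i))
        (fun i j => EI G hm S (σ i) (σ j)) :=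
  (hQ.hsys _ _ h.q).bi hF hPG hPM hb h.two h.val hh

end Enum

/-! ### consequences for the integers -/

section Ints

variable {R : ℤ} {n : ℕ} {t s h e : ℕ → ℤ} {E : ℕ → ℕ → ℤ}

/-- the mass: `Σ t ≤ R - n` -/
theorem BI.st (H : BI R n t s h e E) : ∑ i ∈ range n, t i ≤ R - n := by
  have h1 : ∑ i ∈ range n, h i = ∑ i ∈ range n, t i + ∑ i ∈ range n, s i + n := by
    rw [sum_congr rfl fun i hi => H.hh i (mem_range.1 hi), sum_add_distrib, sum_add_distrib,
      sum_const, card_range, nsmul_eq_mul, mul_one]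
  have h2 := H.ss
  have h3 := H.sh
  linarith

/-- (P) at one row: `R s ≤ e` -/
theorem BI.P1 (H : BI R n t s h e E) {i : ℕ} (hi : i < n) : R * s i ≤ e i := by
  have h1 := H.P {i} (singleton_subset_iff.2 (mem_range.2 hi))
  simp only [sum_singleton, card_singleton, erase_singleton, sum_empty] at h1
  push_cast at h1
  nlinarith

/-- (P) at two rows -/
theorem BI.P2 (H : BI R n t s h e E) {i j : ℕ} (hi : i < n) (hj : j < n) (hij : i ≠ j) :
    (R - 1) * (s i + s j) + E i j ≤ e i + e j + (R + 1) + s i * s j := by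
  have h1 := H.P {i, j} (by
    intro k hk
    rcases mem_insert.1 hk with rfl | hk
    · exact mem_range.2 hi
    · rw [mem_singleton.1 hk]
      exact mem_range.2 hj)
  have e1 : ({i, j} : Finset ℕ).erase i = {j} := erase_insert (by simpa using hij)
  have e2 : ({i, j} : Finset ℕ).erase j = {i} := by
    rw [pair_comm]
    exact erase_insert (by simpa using hij.symm)
  simp only [sum_pair hij, card_pair hij, e1, e2, sum_singleton] at h1
  rw [H.Es j i] at h1
  push_cast at h1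
  nlinarith

/-- (P) at all rows -/
theorem BI.PA (H : BI R n t s h e E) :
    ∑ i ∈ range n, ∑ j ∈ (range n).erase i, E i j + ∑ i ∈ range n, s i ^ 2
      ≤ 2 * ∑ i ∈ range n, e i + ((n : ℤ) ^ 2 - n - 2) * (R + 1) + 2 * n + 1 := by
  have h1 := H.P (range n) (Subset.refl _)
  rw [H.ss, card_range] at h1
  nlinarith

end Ints

end Pool.Agent.Lib.MP_f04ccf_co
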