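import Pool.Agent.Lib.MP_f04ccf_co.M.HSys

/-!
MP_f04ccf_co: a home-free closed system with two rows: the points of `S` which are not adjacent to a
class point form a clique (hypothesis of LEMMA N2C, note 15594), and there are at least
`2 r + 1 - |BB|` class points.
-/

set_option autoImplicit false

namespace Pool.Agent.Lib.MP_f04ccf_co

open Finset

attribute [local instance] Classical.propDecidable

section HSysTwo

variable {V : Type*} {G : SimpleGraph V} {Z T : Finset V} {r m t : ℕ}

/-- a point of `S` which is not double is in the class of a row of `A` -/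
lemma HSys.mem_cl (hF : PFrame G r m t Z T) {A S : Finset V} (h : HSys G Z T A S) {c : V}
    (hc : c ∈ S) (hcB : c ∉ BB G Z T) : ∃ y ∈ A, c ∈ Cl G Z T y := by
  obtain ⟨y, hy, hyc⟩ := h.row c hc
  rcases hF.rws_split (h.subZ hc) hyc with h1 | h1
  · exact ⟨y, hy, h1⟩
  · exact absurd h1.1 hcB

/-- **two rows: the non-neighbours of a class point form a clique** -/
theorem HSys.nonnbr_clq (hF : PFrame G r m t Z T) {A S : Finset V} (h : HSys G Z T A S)
    (h2 : A.card = 2) {c : V} (hc : c ∈ S) (hcB : c ∉ BB G Z T) :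
    Clq G (S.filter fun v => v ≠ c ∧ ¬ G.Adj c v) := by
  obtain ⟨y, hy, hcC⟩ := h.mem_cl hF hc hcB
  obtain ⟨x, hx⟩ : ∃ x, A.erase y = {x} := by
    rw [← card_eq_one, card_erase_of_mem hy, h2]
  have hAy : A \ {y} = {x} := by rw [sdiff_singleton_eq_erase, hx]
  have h1 := h.del hF (B := {y}) (singleton_subset_iff.2 hy) (c := fun _ => c)
    (fun j hj => by
      rw [mem_singleton.1 hj]
      exact ⟨hc, hcC⟩) (fun _ _ _ _ => G.loopless.irrefl c)
  rw [hAy] at h1
  refine h1.clq.mono fun v hv => ?_
  obtain ⟨hv1, hv2, hv3⟩ := mem_filter.1 hv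
  refine mem_filter.2 ⟨hv1, ?_, fun _ _ => hv3⟩
  by_contra hcon
  push Not at hcon
  have hx' : x ∈ A.erase y := by rw [hx]; simp
  have hno : ∀ z ∈ A, z ∈ rws G T v → z = y := by
    intro z hz hzv
    by_contra hzy
    have hz' : z ∈ A.erase y := mem_erase.2 ⟨hzy, hz⟩
    rw [hx, mem_singleton] at hz'
    exact hcon z (by rw [hz']; simp) hzv
  obtain ⟨z, hz, hzv⟩ := h.row v hv1
  have hzy := hno z hz hzv
  rw [hzy] at hzv
  exact hv3 (h.only_adj hF hy hv1 hzv hno hc hcC hv2).symm

/-- the number of class points -/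
theorem MHSys.card_class {A S : Finset V} (h : MHSys G Z T r A S) :
    A.card * r + 1 ≤ (S.filter fun v => v ∉ BB G Z T).card + (BB G Z T).card := by
  have h1 := card_filter_add_card_filter_not (s := S) (fun v => v ∈ BB G Z T)
  have h2 : (S.filter fun v => v ∈ BB G Z T).card ≤ (BB G Z T).card :=
    card_le_card fun v hv => (mem_filter.1 hv).2
  have h3 := h.val
  omega

/-- cliques in `S` -/
theorem HSys.omega (hF : S2 G r m t Z T) {A S : Finset V} (h : HSys G Z T A S) {K : Finset V}
    (hK : K ⊆ S) (hq : Clq G K) : K.card ≤ r - 1 := hF.omega K (hK.trans h.subZ) hq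

end HSysTwo

end Pool.Agent.Lib.MP_f04ccf_co
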