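import Pool.Agent.Lib.MP_f04ccf_co.M.N2C
import Pool.Agent.Lib.MP_f04ccf_co.M.HSysTwo

/-!
MP_f04ccf_co: a minimal closed system has at least three rows (`PG.no_two` for `HSys`).
-/

set_option autoImplicit false

namespace Pool.Agent.Lib.MP_f04ccf_co

open Finset

attribute [local instance] Classical.propDecidable

section

variable {V : Type*} {G : SimpleGraph V} {Z T : Finset V} {r m t : ℕ}

/-- **no closed system with two rows and `2 r + 1` points** (at most `r` doubles) -/
theorem HSys.card_ne_two (hr : 6 ≤ r) (hP : PG G r) (hF : S2 G r m t Z T) (hm : m ≤ r)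
    {A S : Finset V} (h : HSys G Z T A S) (h2 : A.card = 2) : S.card ≤ 2 * r := by
  by_contra hcon
  -- trim to exactly `2 r + 1` points, keeping the centres
  have hle : A.card ≤ 2 * r + 1 := by omega
  obtain ⟨S', hS'1, hS'2, hS'3⟩ := exists_subsuperset_card_eq h.ctr hle
    (show 2 * r + 1 ≤ S.card by omega)
  have h' := h.mono hS'2 hS'1
  refine hP.no_two hr hS'3 (fun K hK hq => h'.omega hF hK hq) (filter_subset (fun v => v ∉ BB G Z T) S')
    ?_ fun c hc => ?_
  · have h3 := card_filter_add_card_filter_not (s := S') (fun v => v ∈ BB G Z T)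
    have h4 : (S'.filter fun v => v ∈ BB G Z T).card ≤ (BB G Z T).card :=
      card_le_card fun v hv => (mem_filter.1 hv).2
    have h5 := hF.b
    omega
  · rw [mem_filter] at hc
    exact h'.nonnbr_clq hF.toPFrame h2 hc.1 hc.2

/-- **a minimal closed system has at least three rows** -/
theorem MHSys.three_le (hr : 6 ≤ r) (hP : PG G r) (hF : S2 G r m t Z T) (hm : m ≤ r)
    {A S : Finset V} (h : MHSys G Z T r A S) : 3 ≤ A.card := by
  have h2 := h.two
  by_contra hcon
  have h3 : A.card = 2 := by omega
  have h4 := h.toHSys.card_ne_two hr hP hF hm h3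
  have h5 := h.val
  rw [h3] at h5
  omega

end

end Pool.Agent.Lib.MP_f04ccf_co
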