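import Pool.Agent.Lib.MP_f04ccf_co.M.Alf
import Pool.Agent.Lib.MP_f04ccf_co.M.Cap

/-!
MP_f04ccf_co: the partial colour cap (note of helper15).  For `n r + 1` points `S` the colours with
a clique of `n + 1` points in `S` are a family of independent sets of `G` with `n + 1` points,
two of which have at most one common point; every other colour has `n - 1` edges more than
property (P) says (`PCAP`, `PCAP_col`).
In a `j`-closed system on `n` rows every independent set with more than `n` points contains a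
least bad set: at least `j + 1` doubles, and every row meets at most three of its points
(`JSys.exists_bad`).  So for `3 ≤ j` it contains a double without a given row `x`; if all doubles
have the row `x`, then the independence number is at most `n` and the full cap holds
(`JSys.alpha_hub`); in general the number of exceptional colours is at most one third of the
number of missing pairs of a double without `x` and another double (`JSys.kap_le`).
-/

set_option autoImplicit false

namespace Pool.Agent.Lib.MP_f04ccf_co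

open Finset

attribute [local instance] Classical.propDecidable

section PCapDef

variable {V : Type*} (G : SimpleGraph V)

/-- the partial cap -/
def PCAP (r : ℕ) : Prop := ∀ (n : ℕ) (S : Finset V), 1 ≤ n → S.card = n * r + 1 →
  ∃ F : Finset (Finset V), (∀ K ∈ F, K ⊆ S ∧ Ind G K ∧ K.card = n + 1) ∧
    (∀ K ∈ F, ∀ L ∈ F, K ≠ L → (K ∩ L).card ≤ 1) ∧ F.card + 1 ≤ r ∧
    ((r : ℤ) - 1) * (r * n * (n - 1) + 4 * n - 2) - 2 * (n - 1) * F.card ≤ NE G S

variable {G} {r : ℕ}

/-- the partial cap with independence number at most `n` is the cap -/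
lemma PCAP.cap_ne (hC : PCAP G r) {n : ℕ} {S : Finset V} (hn : 1 ≤ n) (ha : AlphaLe G S n)
    (hc : S.card = n * r + 1) :
    ((r : ℤ) - 1) * (r * n * (n - 1) + 4 * n - 2) ≤ NE G S := by
  obtain ⟨F, h1, -, -, h4⟩ := hC n S hn hc
  have h5 : F = ∅ := by
    by_contra hne
    obtain ⟨K, hK⟩ := nonempty_of_ne_empty hne
    have h6 := ha K (h1 K hK).1 (h1 K hK).2.1
    have h7 := (h1 K hK).2.2
    omega
  rw [h5, card_empty] at h4
  push_cast at h4
  linarith

end PCapDef

section PCapCol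

variable {V : Type*} {r : ℕ} {c : V → V → Fin r} (hc : ∀ x y, c x y = c y x)

/-- different lower bounds for the other colours -/
lemma E_upper_sum (k : Fin r) (A : Finset V) (b : Fin r → ℤ)
    (hb : ∀ j : Fin r, j ≠ k → b j ≤ E (col c hc j) A) :
    (E (col c hc k) A : ℤ) + ∑ j ∈ univ.erase k, b j ≤ (A.card : ℤ) * (A.card - 1) := by
  have h := sum_E_int hc A
  rw [← add_sum_erase _ _ (mem_univ k)] at h
  have h2 : ∑ j ∈ univ.erase k, b j ≤ ∑ j ∈ univ.erase k, (E (col c hc j) A : ℤ) :=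
    sum_le_sum fun j hj => hb j (ne_of_mem_erase hj)
  linarith

theorem PCAP_col (hs : Sees c) (k : Fin r) : PCAP (col c hc k) r := by
  intro n S hn hcard
  set bad : Finset (Fin r) := (univ.erase k).filter
    (fun j => ∃ K ⊆ S, Clq (col c hc j) K ∧ K.card = n + 1) with hbad
  have hex : ∀ j : Fin r, ∃ K : Finset V, j ∈ bad →
      K ⊆ S ∧ Clq (col c hc j) K ∧ K.card = n + 1 := by
    intro j
    by_cases hj : j ∈ bad
    · obtain ⟨K, h1, h2, h3⟩ := (mem_filter.1 hj).2
      exact ⟨K, fun _ => ⟨h1, h2, h3⟩⟩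
    · exact ⟨∅, fun h => absurd h hj⟩
  choose f hf using hex
  have hne : ∀ j ∈ bad, j ≠ k := fun j hj => ne_of_mem_erase (mem_filter.1 hj).1
  have hint : ∀ i ∈ bad, ∀ j ∈ bad, i ≠ j → (f i ∩ f j).card ≤ 1 := by
    intro i hi j hj hij
    by_contra hcon
    push Not at hcon
    obtain ⟨x, hx, y, hy, hxy⟩ := one_lt_card.1 hcon
    rw [mem_inter] at hx hy
    have h1 : x ≠ y ∧ c x y = i := (hf i hi).2.1 x hx.1 y hy.1 hxy
    have h2 : x ≠ y ∧ c x y = j := (hf j hj).2.1 x hx.2 y hy.2 hxy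
    exact hij (h1.2.symm.trans h2.2)
  have hinj : ∀ i ∈ bad, ∀ j ∈ bad, f i = f j → i = j := by
    intro i hi j hj hij
    by_contra hne'
    have h1 := hint i hi j hj hne'
    rw [← hij, inter_self, (hf i hi).2.2] at h1
    omega
  have hcF : (bad.image f).card = bad.card := card_image_of_injOn fun i hi j hj hij =>
    hinj i hi j hj hij
  have hbr : bad.card + 1 ≤ r := by
    have h1 := card_le_card (filter_subset (fun j => ∃ K ⊆ S, Clq (col c hc j) K ∧ K.card = n + 1)
      (univ.erase k))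
    rw [card_erase_of_mem (mem_univ k), card_univ, Fintype.card_fin] at h1
    have h2 : 0 < r := k.pos
    have h3 : bad.card ≤ r - 1 := h1
    omega
  refine ⟨bad.image f, ?_, ?_, by rw [hcF]; exact hbr, ?_⟩
  · intro K hK
    obtain ⟨j, hj, rfl⟩ := mem_image.1 hK
    obtain ⟨h1, h2, h3⟩ := hf j hj
    exact ⟨h1, clq_ind hc (hne j hj).symm h2, h3⟩
  · intro K hK L hL hKL
    obtain ⟨i, hi, rfl⟩ := mem_image.1 hK
    obtain ⟨j, hj, rfl⟩ := mem_image.1 hL
    exact hint i hi j hj fun h => hKL (by rw [h])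
  · rw [hcF]
    have hn' : (1 : ℤ) ≤ n := by exact_mod_cast hn
    have hcz : (S.card : ℤ) = n * r + 1 := by exact_mod_cast hcard
    have hlow : ∀ j : Fin r, j ≠ k →
        ((r : ℤ) * n * (n - 1) + 4 * n - 2) - (if j ∈ bad then 2 * ((n : ℤ) - 1) else 0)
          ≤ E (col c hc j) S := by
      intro j hj
      split_ifs with h
      · have h1 := E_lower_q (col c hc j) (n : ℤ) r S (alpha_le hc hs j S)
        rw [hcz] at h1
        have e1 : 2 * (n : ℤ) * (n * r + 1) - r * n * (n + 1)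
          = (r : ℤ) * n * (n - 1) + 4 * n - 2 - 2 * ((n : ℤ) - 1) := by ring
        linarith
      · have h1 := brou (G := col c hc j) n r 0 S (alpha_le hc hs j S) (fun K hK hq => by
          by_contra hlt
          obtain ⟨K', hK', hKc'⟩ := exists_subset_card_eq (show n + 1 ≤ K.card by omega)
          refine h (mem_filter.2 ⟨mem_erase.2 ⟨hj, mem_univ j⟩, K', hK'.trans hK, ?_, hKc'⟩)
          exact fun x hx y hy => hq x (hK' hx) y (hK' hy)) (by rw [hcard])
        push_cast at h1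
        linarith
    have h1 := E_upper_sum hc k S _ hlow
    have h2 : ∑ j ∈ univ.erase k, (((r : ℤ) * n * (n - 1) + 4 * n - 2)
        - (if j ∈ bad then 2 * ((n : ℤ) - 1) else 0))
        = ((r : ℤ) - 1) * (r * n * (n - 1) + 4 * n - 2) - 2 * ((n : ℤ) - 1) * bad.card := by
      rw [sum_sub_distrib, sum_const, ← sum_filter]
      have e1 : (univ.erase k).filter (fun j => j ∈ bad) = bad := by
        ext j
        rw [mem_filter]
        exact ⟨fun h => h.2, fun h => ⟨(mem_filter.1 h).1, h⟩⟩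
      rw [e1, sum_const, card_erase_of_mem (mem_univ k), card_univ, Fintype.card_fin,
        nsmul_eq_mul, nsmul_eq_mul]
      have h0 : 0 < r := k.pos
      have e2 : ((r - 1 : ℕ) : ℤ) = (r : ℤ) - 1 := by
        rw [Nat.cast_sub h0]
        simp
      rw [e2]
      ring
    rw [h2] at h1
    have h3 := E_add_NE (G := col c hc k) S
    linarith

end PCapCol

section Bad

variable {V : Type*} {G : SimpleGraph V} {Z T : Finset V} {r m t j : ℕ}

lemma PFrame.rws_card (hF : PFrame G r m t Z T) {v : V} (hv : v ∈ Z) : (rws G T v).card ≤ 2 := by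
  by_cases hT : v ∈ T
  · rw [rws_of_mem hT, card_singleton]
    omega
  · rw [rws_of_notMem hT, card_ends]
    exact hF.k2 v (mem_sdiff.2 ⟨hv, hT⟩)

/-- **a least bad set**: at least `j + 1` doubles, every row meets at most three of its points -/
theorem JSys.exists_bad (hF : PFrame G r m t Z T) {A S : Finset V} (h : JSys G Z T j A S)
    {K : Finset V} (hK : K ⊆ S) (hi : Ind G K) (hcK : A.card < K.card) :
    ∃ I ⊆ K, j + 1 ≤ (I ∩ BB G Z T).card ∧
      ∀ x : V, (I.filter fun v => x ∈ rws G T v ∩ A).card ≤ 3 := by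
  have hne : (K.powerset.filter fun I => (rwsU G T I ∩ A).card < I.card).Nonempty :=
    ⟨K, mem_filter.2 ⟨mem_powerset.2 (Subset.refl K),
      (card_le_card inter_subset_right).trans_lt hcK⟩⟩
  obtain ⟨I, hI, hmin⟩ := exists_min_image _ (fun I : Finset V => I.card) hne
  obtain ⟨hIK, hbad⟩ := mem_filter.1 hI
  rw [mem_powerset] at hIK
  have hIi : Ind G I := fun x hx y hy => hi x (hIK hx) y (hIK hy)
  refine ⟨I, hIK, ?_, ?_⟩
  · by_contra hcon
    have h1 := h.ind I (hIK.trans hK) hIi (by omega)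
    omega
  -- the parts with one point less are good
  have hgood : ∀ v ∈ I, (rwsU G T (I.erase v) ∩ A) = rwsU G T I ∩ A ∧
      I.card = (rwsU G T I ∩ A).card + 1 := by
    intro v hv
    have h1 : ¬ (rwsU G T (I.erase v) ∩ A).card < (I.erase v).card := by
      intro hb
      have h2 := hmin (I.erase v) (mem_filter.2 ⟨mem_powerset.2 ((erase_subset _ _).trans hIK), hb⟩)
      have h3 := card_erase_lt_of_mem hv
      omega
    have h4 := card_erase_of_mem hv
    have h5 : rwsU G T (I.erase v) ∩ A ⊆ rwsU G T I ∩ A :=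
      inter_subset_inter (rwsU_mono (erase_subset _ _)) (Subset.refl _)
    have h6 := card_le_card h5
    have h7 : 0 < I.card := card_pos.2 ⟨v, hv⟩
    exact ⟨eq_of_subset_of_card_le h5 (by omega), by omega⟩
  intro x
  by_cases hxU : x ∈ rwsU G T I ∩ A
  swap
  · have h1 : (I.filter fun v => x ∈ rws G T v ∩ A) = ∅ := by
      refine filter_eq_empty_iff.2 fun v hv hx => hxU ?_
      obtain ⟨h2, h3⟩ := mem_inter.1 hx
      exact mem_inter.2 ⟨mem_rwsU.2 ⟨v, hv, h2⟩, h3⟩
    rw [h1, card_empty]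
    omega
  have hIne : I.Nonempty := by
    obtain ⟨v, hv, -⟩ := mem_rwsU.1 (mem_inter.1 hxU).1
    exact ⟨v, hv⟩
  obtain ⟨u, hu⟩ := hIne
  have hcard := (hgood u hu).2
  -- some point has a row outside `A`
  have hout : ∃ v ∈ I, ¬ rws G T v ⊆ A := by
    by_contra hcon
    push Not at hcon
    have h1 : rwsU G T I ∩ A = rwsU G T I := inter_eq_left.2 fun y hy => by
      obtain ⟨v, hv, h2⟩ := mem_rwsU.1 hy
      exact hcon v hv h2
    have h2 := (hF.jsys I.card).ind_card ((hIK.trans hK).trans h.subZ) hIi (le_refl _)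
    have h3 := card_le_card (inter_subset_left (s₁ := rwsU G T I) (s₂ := T))
    rw [h1] at hcard
    omega
  obtain ⟨v0, hv0, hv0A⟩ := hout
  -- the incidences
  have hsum : ∑ y ∈ rwsU G T I ∩ A, (I.filter fun v => y ∈ rws G T v ∩ A).card
      = ∑ v ∈ I, ((rwsU G T I ∩ A).filter fun y => y ∈ rws G T v ∩ A).card :=
    (Finset.sum_card_bipartiteAbove_eq_sum_card_bipartiteBelow (s := rwsU G T I ∩ A) (t := I)
      (fun y v => y ∈ rws G T v ∩ A))
  have hv2 : ∀ v ∈ I, ((rwsU G T I ∩ A).filter fun y => y ∈ rws G T v ∩ A).card ≤ 2 := by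
    intro v hv
    refine (card_le_card (t := rws G T v) fun y hy => (mem_inter.1 (mem_filter.1 hy).2).1).trans
      (hF.rws_card (h.subZ (hK (hIK hv))))
  have hv1 : ((rwsU G T I ∩ A).filter fun y => y ∈ rws G T v0 ∩ A).card ≤ 1 := by
    obtain ⟨y, hy, hyA⟩ := not_subset.1 hv0A
    have h1 : ((rwsU G T I ∩ A).filter fun y => y ∈ rws G T v0 ∩ A) ⊆ (rws G T v0).erase y := by
      intro w hw
      obtain ⟨h2, h3⟩ := mem_inter.1 (mem_filter.1 hw).2
      exact mem_erase.2 ⟨fun he => hyA (he ▸ h3), h2⟩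
    have h2 := card_le_card h1
    rw [card_erase_of_mem hy] at h2
    have h3 := hF.rws_card (h.subZ (hK (hIK hv0)))
    omega
  have hup : ∑ v ∈ I, ((rwsU G T I ∩ A).filter fun y => y ∈ rws G T v ∩ A).card + 1
      ≤ 2 * I.card := by
    rw [← add_sum_erase _ _ hv0]
    have h1 : ∑ v ∈ I.erase v0, ((rwsU G T I ∩ A).filter fun y => y ∈ rws G T v ∩ A).card
        ≤ ∑ _v ∈ I.erase v0, 2 := sum_le_sum fun v hv => hv2 v (mem_of_mem_erase hv)
    rw [sum_const, smul_eq_mul, card_erase_of_mem hv0] at h1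
    have h2 : 0 < I.card := card_pos.2 ⟨v0, hv0⟩
    omega
  have hlo : (I.filter fun v => x ∈ rws G T v ∩ A).card + 2 * ((rwsU G T I ∩ A).card - 1)
      ≤ ∑ y ∈ rwsU G T I ∩ A, (I.filter fun v => y ∈ rws G T v ∩ A).card := by
    rw [← add_sum_erase _ _ hxU]
    have h1 : ∑ _y ∈ (rwsU G T I ∩ A).erase x, 2
        ≤ ∑ y ∈ (rwsU G T I ∩ A).erase x, (I.filter fun v => y ∈ rws G T v ∩ A).card := by
      refine sum_le_sum fun y hy => ?_
      obtain ⟨hyU, hyA⟩ := mem_inter.1 (mem_of_mem_erase hy)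
      obtain ⟨v, hv, hyv⟩ := mem_rwsU.1 hyU
      have h2 : y ∈ rwsU G T (I.erase v) ∩ A := by
        rw [(hgood v hv).1]
        exact mem_of_mem_erase hy
      obtain ⟨w, hw, hyw⟩ := mem_rwsU.1 (mem_inter.1 h2).1
      have h3 : ({v, w} : Finset V) ⊆ I.filter fun v => y ∈ rws G T v ∩ A := by
        intro z hz
        rw [mem_insert, mem_singleton] at hz
        rcases hz with rfl | rfl
        · exact mem_filter.2 ⟨hv, mem_inter.2 ⟨hyv, hyA⟩⟩
        · exact mem_filter.2 ⟨mem_of_mem_erase hw, mem_inter.2 ⟨hyw, hyA⟩⟩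
      have h4 := card_le_card h3
      rw [card_pair (ne_of_mem_erase hw).symm] at h4
      exact h4
    rw [sum_const, smul_eq_mul, card_erase_of_mem hxU] at h1
    omega
  have hf0 : 0 < (rwsU G T I ∩ A).card := card_pos.2 ⟨x, hxU⟩
  omega

/-- a bad set with at least four doubles has a double without the row `x` -/
lemma bad_double {I : Finset V} (hj : 3 ≤ j) (h1 : j + 1 ≤ (I ∩ BB G Z T).card) {A : Finset V}
    {x : V} (hx : x ∈ A) (h3 : (I.filter fun v => x ∈ rws G T v ∩ A).card ≤ 3) :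
    ∃ w ∈ I ∩ BB G Z T, x ∉ rws G T w := by
  by_contra hcon
  push Not at hcon
  have h4 : I ∩ BB G Z T ⊆ I.filter fun v => x ∈ rws G T v ∩ A := fun w hw =>
    mem_filter.2 ⟨(mem_inter.1 hw).1, mem_inter.2 ⟨hcon w hw, hx⟩⟩
  have h5 := card_le_card h4
  omega

/-- **all doubles at one row: the independence number is at most the number of rows** -/
theorem JSys.alpha_hub (hF : PFrame G r m t Z T) {A S : Finset V} (h : JSys G Z T j A S)
    (hj : 3 ≤ j) {x : V} (hx : x ∈ A) (hN : ∀ v ∈ S, v ∈ BB G Z T → x ∈ rws G T v) :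
    AlphaLe G S A.card := by
  intro K hK hi
  by_contra hcon
  obtain ⟨I, hIK, h1, h2⟩ := h.exists_bad hF hK hi (by omega)
  obtain ⟨w, hw, hxw⟩ := bad_double hj h1 hx (h2 x)
  obtain ⟨hwI, hwB⟩ := mem_inter.1 hw
  exact hxw (hN w (hK (hIK hwI)) hwB)

/-- no double of `S` has a row outside `A`: the independence number is at most the number of rows,
for every `j` -/
theorem JSys.alpha_all (hF : PFrame G r m t Z T) {A S : Finset V} (h : JSys G Z T j A S)
    (hN : ∀ v ∈ S, rws G T v ⊆ A) : AlphaLe G S A.card := by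
  intro K hK hi
  have h2 := (hF.jsys K.card).ind_card (hK.trans h.subZ) hi (le_refl _)
  refine (h2.trans (card_le_card inter_subset_left)).trans (card_le_card fun y hy => ?_)
  obtain ⟨v, hv, h3⟩ := mem_rwsU.1 hy
  exact hN v (hK hv) h3

/-- **the number of exceptional colours**: a family of independent sets with more points than rows,
two of which have at most one common point -/
theorem JSys.kap_le (hF : PFrame G r m t Z T) {A S : Finset V} (h : JSys G Z T j A S)
    (hj : 3 ≤ j) {x : V} (hx : x ∈ A) {F : Finset (Finset V)}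
    (h1 : ∀ K ∈ F, K ⊆ S ∧ Ind G K ∧ A.card < K.card)
    (h2 : ∀ K ∈ F, ∀ L ∈ F, K ≠ L → (K ∩ L).card ≤ 1) :
    j * F.card ≤ ∑ w ∈ (S ∩ BB G Z T).filter (fun w => x ∉ rws G T w),
      nd G (S ∩ BB G Z T) w := by
  have hex : ∀ K : Finset V, ∃ p : Finset V × V, K ∈ F → p.1 ⊆ K ∧
      j + 1 ≤ (p.1 ∩ BB G Z T).card ∧ p.2 ∈ p.1 ∩ BB G Z T ∧ x ∉ rws G T p.2 := by
    intro K
    by_cases hK : K ∈ F
    · obtain ⟨a1, a2, a3⟩ := h1 K hK
      obtain ⟨I, hIK, b1, b2⟩ := h.exists_bad hF a1 a2 a3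
      obtain ⟨w, hw, hxw⟩ := bad_double hj b1 hx (b2 x)
      exact ⟨(I, w), fun _ => ⟨hIK, b1, hw, hxw⟩⟩
    · exact ⟨(∅, x), fun hK' => absurd hK' hK⟩
  choose p hp using hex
  set N := (S ∩ BB G Z T).filter (fun w => x ∉ rws G T w) with hNdef
  -- the pairs of `K`
  set P : Finset V → Finset (Σ _ : V, V) := fun K =>
    (((p K).1 ∩ BB G Z T).erase (p K).2).image fun w => (⟨(p K).2, w⟩ : Σ _ : V, V) with hPdef
  have hPc : ∀ K ∈ F, j ≤ (P K).card := by
    intro K hK
    obtain ⟨a1, a2, a3, a4⟩ := hp K hK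
    have e1 : (P K).card = (((p K).1 ∩ BB G Z T).erase (p K).2).card := by
      refine card_image_of_injective _ fun w w' hww => ?_
      have := Sigma.mk.inj hww
      exact eq_of_heq this.2
    rw [e1, card_erase_of_mem a3]
    omega
  have hdis : ∀ K ∈ F, ∀ L ∈ F, K ≠ L → Disjoint (P K) (P L) := by
    intro K hK L hL hKL
    rw [disjoint_left]
    intro q hq hq'
    obtain ⟨w, hw, rfl⟩ := mem_image.1 hq
    obtain ⟨w', hw', he⟩ := mem_image.1 hq'
    have he1 : (p L).2 = (p K).2 := congrArg Sigma.fst he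
    have he2 : w' = w := eq_of_heq (Sigma.mk.inj he).2
    rw [he2] at hw'
    obtain ⟨a1, a2, a3, a4⟩ := hp K hK
    obtain ⟨b1, b2, b3, b4⟩ := hp L hL
    have h3 : ({(p K).2, w} : Finset V) ⊆ K ∩ L := by
      intro z hz
      rw [mem_insert, mem_singleton] at hz
      rcases hz with rfl | rfl
      · refine mem_inter.2 ⟨a1 (mem_inter.1 a3).1, ?_⟩
        rw [← he1]
        exact b1 (mem_inter.1 b3).1
      · exact mem_inter.2 ⟨a1 (mem_inter.1 (mem_of_mem_erase hw)).1,
          b1 (mem_inter.1 (mem_of_mem_erase hw')).1⟩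
    have h4 := card_le_card h3
    rw [card_pair (ne_of_mem_erase hw).symm] at h4
    have h5 := h2 K hK L hL hKL
    omega
  have hsub : F.biUnion P ⊆ N.sigma fun w =>
      (S ∩ BB G Z T).filter (fun y => y ≠ w ∧ ¬ G.Adj w y) := by
    intro q hq
    obtain ⟨K, hK, hq⟩ := mem_biUnion.1 hq
    obtain ⟨w, hw, rfl⟩ := mem_image.1 hq
    obtain ⟨a1, a2, a3, a4⟩ := hp K hK
    obtain ⟨c1, c2, -⟩ := h1 K hK
    have hwI := mem_inter.1 (mem_of_mem_erase hw)
    have h3I := mem_inter.1 a3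
    refine mem_sigma.2 ⟨mem_filter.2 ⟨mem_inter.2 ⟨c1 (a1 h3I.1), h3I.2⟩, a4⟩,
      mem_filter.2 ⟨mem_inter.2 ⟨c1 (a1 hwI.1), hwI.2⟩, ne_of_mem_erase hw, ?_⟩⟩
    exact c2 _ (a1 h3I.1) _ (a1 hwI.1)
  have h3 := card_le_card hsub
  rw [card_biUnion hdis, card_sigma] at h3
  have h4 : j * F.card ≤ ∑ K ∈ F, (P K).card := by
    have := card_nsmul_le_sum F (fun K => (P K).card) j hPc
    rw [smul_eq_mul] at this
    rw [mul_comm]
    exact this
  exact h4.trans h3

/-- **the partial cap in a `j`-closed system** -/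
theorem JSys.pcap (hF : PFrame G r m t Z T) (hC : PCAP G r) {A S : Finset V}
    (h : JSys G Z T j A S) (hj : 3 ≤ j) (hcard : S.card = A.card * r + 1) {x : V} (hx : x ∈ A) :
    ∃ κ : ℕ, κ + 1 ≤ r ∧
      j * κ ≤ ∑ w ∈ (S ∩ BB G Z T).filter (fun w => x ∉ rws G T w), nd G (S ∩ BB G Z T) w ∧
      ((r : ℤ) - 1) * (r * A.card * (A.card - 1) + 4 * A.card - 2) - 2 * (A.card - 1) * κ
        ≤ NE G S := by
  obtain ⟨F, h1, h2, h3, h4⟩ := hC A.card S (card_pos.2 ⟨x, hx⟩) hcard
  exact ⟨F.card, h3, h.kap_le hF hj hx (fun K hK => ⟨(h1 K hK).1, (h1 K hK).2.1, by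
    rw [(h1 K hK).2.2]; omega⟩) h2, h4⟩

/-- **the full cap if all doubles have the row `x`** -/
theorem JSys.cap_hub (hF : PFrame G r m t Z T) (hC : PCAP G r) {A S : Finset V}
    (h : JSys G Z T j A S) (hj : 3 ≤ j) (hcard : S.card = A.card * r + 1) {x : V} (hx : x ∈ A)
    (hN : ∀ v ∈ S, v ∈ BB G Z T → x ∈ rws G T v) :
    ((r : ℤ) - 1) * (r * A.card * (A.card - 1) + 4 * A.card - 2) ≤ NE G S :=
  hC.cap_ne (card_pos.2 ⟨x, hx⟩) (h.alpha_hub hF hj hx hN) hcard

end Bad

end Pool.Agent.Lib.MP_f04ccf_co
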