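import Pool.Agent.Lib.MP_f04ccf_co.S2Red
import Pool.Agent.Lib.MP_f04ccf_co.S2Crit

/-!
MP_f04ccf_co: property (P) with a free slope at every vertex (note 15453).  In every colour
`j ≠ k` the inequality of Caro and Wei; `1 / (d + 1) ≥ (2 n - d) / (n (n + 1))` for integers.
-/

set_option autoImplicit false

namespace Pool.Agent.Lib.MP_f04ccf_co

open Finset

attribute [local instance] Classical.propDecidable

section CaroWei

variable {V : Type*} (G : SimpleGraph V)

/-- Caro - Wei -/
lemma caro_wei : ∀ s : ℕ, ∀ A : Finset V, A.card = s →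
    ∃ I ⊆ A, Ind G I ∧ ∑ v ∈ A, (1 : ℚ) / (dg G A v + 1) ≤ I.card := by
  intro s
  induction s using Nat.strong_induction_on with
  | _ s ih =>
    intro A hA
    rcases A.eq_empty_or_nonempty with rfl | hne
    · exact ⟨∅, Subset.refl _, fun x hx => absurd hx (notMem_empty _), by simp⟩
    · obtain ⟨v, hv, hmin⟩ := exists_min_image A (fun w => dg G A w) hne
      set B := A.filter (fun w => w ≠ v ∧ ¬ G.Adj v w) with hB
      set N := A.filter (fun w => ¬ (w ≠ v ∧ ¬ G.Adj v w)) with hN
      have hBA : B ⊆ A := filter_subset _ _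
      have hlt : B.card < s := by
        rw [← hA]
        refine card_lt_card ⟨hBA, fun h => ?_⟩
        exact (mem_filter.1 (h hv)).2.1 rfl
      obtain ⟨I, hI, hInd, hsum⟩ := ih B.card hlt B rfl
      have hvI : v ∉ I := fun h => (mem_filter.1 (hI h)).2.1 rfl
      refine ⟨insert v I, insert_subset hv (hI.trans hBA), ?_, ?_⟩
      · intro x hx y hy
        rcases mem_insert.1 hx with hx | hx <;> rcases mem_insert.1 hy with hy | hy
        · rw [hx, hy]
          exact G.loopless.irrefl _
        · rw [hx]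
          exact (mem_filter.1 (hI hy)).2.2
        · rw [hy]
          exact fun h => (mem_filter.1 (hI hx)).2.2 h.symm
        · exact hInd x hx y hy
      · rw [card_insert_of_notMem hvI]
        have h1 : ∑ w ∈ B, (1 : ℚ) / (dg G A w + 1) ≤ ∑ w ∈ B, (1 : ℚ) / (dg G B w + 1) := by
          refine sum_le_sum fun w _ => ?_
          have h2 : (dg G B w : ℚ) ≤ dg G A w := by exact_mod_cast dg_mono G hBA w
          exact one_div_le_one_div_of_le (by positivity) (by linarith)
        have h3 : N.card = dg G A v + 1 := by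
          have h4 : N = insert v (A.filter (fun w => G.Adj v w)) := by
            ext w
            rw [hN, mem_filter, mem_insert, mem_filter]
            constructor
            · rintro ⟨a, b⟩
              by_cases hwv : w = v
              · exact Or.inl hwv
              · right
                refine ⟨a, ?_⟩
                by_contra hn
                exact b ⟨hwv, hn⟩
            · rintro (rfl | ⟨a, b⟩)
              · exact ⟨hv, fun h => h.1 rfl⟩
              · exact ⟨a, fun h => h.2 b⟩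
          rw [h4, card_insert_of_notMem (fun h => G.loopless.irrefl _ (mem_filter.1 h).2)]
          rfl
        have h5 : ∑ w ∈ N, (1 : ℚ) / (dg G A w + 1) ≤ 1 := by
          have h6 : ∀ w ∈ N, (1 : ℚ) / (dg G A w + 1) ≤ 1 / (dg G A v + 1) := by
            intro w hw
            have h7 : (dg G A v : ℚ) ≤ dg G A w := by
              exact_mod_cast hmin w (mem_filter.1 hw).1
            exact one_div_le_one_div_of_le (by positivity) (by linarith)
          refine (sum_le_sum h6).trans (le_of_eq ?_)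
          rw [sum_const, nsmul_eq_mul, h3]
          push_cast
          have : (dg G A v : ℚ) + 1 ≠ 0 := by positivity
          field_simp
        have h8 : ∑ w ∈ A, (1 : ℚ) / (dg G A w + 1) = ∑ w ∈ B, (1 : ℚ) / (dg G A w + 1)
            + ∑ w ∈ N, (1 : ℚ) / (dg G A w + 1) :=
          (sum_filter_add_sum_filter_not A _ _).symm
        rw [h8]
        push_cast
        linarith

variable {G}

lemma caro_wei' {A : Finset V} {r : ℕ} (h : AlphaLe G A r) :
    ∑ v ∈ A, (1 : ℚ) / (dg G A v + 1) ≤ r := by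
  obtain ⟨I, hI, hInd, hsum⟩ := caro_wei G A.card A rfl
  have : (I.card : ℚ) ≤ r := by exact_mod_cast h I hI hInd
  linarith

/-- the tangents of `1 / (d + 1)` at the integers -/
lemma tangent_le (d n : ℕ) (hn : 1 ≤ n) :
    (2 * (n : ℚ) - d) / (n * (n + 1)) ≤ 1 / (d + 1) := by
  have h1 : (0 : ℚ) < n * (n + 1) := by
    have : (1 : ℚ) ≤ n := by exact_mod_cast hn
    positivity
  have h2 : (0 : ℚ) < (d : ℚ) + 1 := by positivity
  rw [div_le_div_iff₀ h1 h2]
  have h3 : (0 : ℚ) ≤ ((n : ℚ) - d) * ((n : ℚ) - d - 1) := by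
    rcases Nat.lt_or_ge d n with h | h
    · have h4 : (d : ℚ) + 1 ≤ n := by exact_mod_cast h
      exact mul_nonneg (by linarith) (by linarith)
    · have h4 : (n : ℚ) ≤ d := by exact_mod_cast h
      exact mul_nonneg_of_nonpos_of_nonpos (by linarith) (by linarith)
  nlinarith

end CaroWei

section PW

variable {V : Type*} {G H : SimpleGraph V} {r : ℕ}

/-- **property (P) with a free slope at every vertex** -/
def PW (G : SimpleGraph V) (r : ℕ) : Prop := ∀ (A : Finset V) (n : V → ℕ), (∀ v ∈ A, 1 ≤ n v) →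
  ∑ v ∈ A, (2 * (n v : ℚ) * ((r : ℚ) - 1) - nd G A v) / (n v * (n v + 1)) ≤ r * ((r : ℚ) - 1)

lemma nd_le_of_le (h : H ≤ G) (A : Finset V) (v : V) : nd G A v ≤ nd H A v := by
  unfold nd
  refine card_le_card fun w hw => ?_
  obtain ⟨a, b, c⟩ := mem_filter.1 hw
  exact mem_filter.2 ⟨a, b, fun h' => c (h h')⟩

lemma PW.mono (hP : PW G r) (h : H ≤ G) : PW H r := by
  intro A n hn
  refine (sum_le_sum fun v hv => ?_).trans (hP A n hn)
  have h1 : (nd G A v : ℚ) ≤ nd H A v := by exact_mod_cast nd_le_of_le h A v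
  exact div_le_div_of_nonneg_right (by linarith) (by positivity)

/-- slopes `q` and `q + 1`: `W` has the slope `q` -/
lemma PW.gain_low (hP : PW G r) (A W : Finset V) (hW : W ⊆ A) (q : ℕ) (hq : 1 ≤ q) :
    ((r : ℚ) - 1) * (2 * (q + 1) * A.card - r * (q + 1) * (q + 2))
      + 2 * ∑ v ∈ W, ((q : ℚ) * ((r : ℚ) - 1) - nd G A v) / q ≤ NE G A := by
  have h1 := hP A (fun v => if v ∈ W then q else q + 1) (fun v _ => by
    by_cases h : v ∈ W
    · rw [if_pos h]; exact hq
    · rw [if_neg h]; omega)
  have hq0 : (0 : ℚ) < q := by exact_mod_cast hq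
  set R : ℚ := (r : ℚ) - 1 with hR
  have h2 : ∀ v ∈ A, (2 * ((if v ∈ W then q else q + 1 : ℕ) : ℚ) * R - nd G A v)
      / (((if v ∈ W then q else q + 1 : ℕ) : ℚ) * (((if v ∈ W then q else q + 1 : ℕ) : ℚ) + 1))
      = ((2 * (q + 1) * R - nd G A v) + (if v ∈ W then 2 * (q * R - nd G A v) / q else 0))
        / ((q + 1) * (q + 2)) := by
    intro v _
    have a1 : (q : ℚ) ≠ 0 := hq0.ne'
    have a2 : (q : ℚ) + 1 ≠ 0 := by positivity
    have a3 : (q : ℚ) + 2 ≠ 0 := by positivity
    by_cases h : v ∈ W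
    · simp only [if_pos h]
      field_simp
      ring
    · simp only [if_neg h]
      push_cast
      rw [add_zero]
      congr 1
      ring
  rw [sum_congr rfl h2, ← sum_div, div_le_iff₀ (by positivity), sum_add_distrib,
    sum_sub_distrib, sum_const, nsmul_eq_mul] at h1
  have h3 : ∑ v ∈ A, (nd G A v : ℚ) = NE G A := by
    unfold NE
    push_cast
    rfl
  have h4 : ∑ v ∈ A, (if v ∈ W then 2 * (q * R - nd G A v) / (q : ℚ) else 0)
      = 2 * ∑ v ∈ W, ((q : ℚ) * R - nd G A v) / q := by
    rw [← sum_filter, filter_mem_eq_inter, inter_eq_right.2 hW, mul_sum]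
    exact sum_congr rfl fun v _ => by ring
  rw [h3, h4] at h1
  nlinarith [h1]

/-- slopes `q` and `q + 1`: `W` has the slope `q + 1` -/
lemma PW.gain_high (hP : PW G r) (A W : Finset V) (hW : W ⊆ A) (q : ℕ) (hq : 1 ≤ q) :
    ((r : ℚ) - 1) * (2 * q * A.card - r * q * (q + 1))
      + 2 * ∑ v ∈ W, (nd G A v - (q : ℚ) * ((r : ℚ) - 1)) / (q + 2) ≤ NE G A := by
  have h1 := hP A (fun v => if v ∈ W then q + 1 else q) (fun v _ => by
    by_cases h : v ∈ W
    · rw [if_pos h]; omega
    · rw [if_neg h]; exact hq)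
  have hq0 : (0 : ℚ) < q := by exact_mod_cast hq
  set R : ℚ := (r : ℚ) - 1 with hR
  have h2 : ∀ v ∈ A, (2 * ((if v ∈ W then q + 1 else q : ℕ) : ℚ) * R - nd G A v)
      / (((if v ∈ W then q + 1 else q : ℕ) : ℚ) * (((if v ∈ W then q + 1 else q : ℕ) : ℚ) + 1))
      = ((2 * q * R - nd G A v) + (if v ∈ W then 2 * (nd G A v - q * R) / (q + 2) else 0))
        / (q * (q + 1)) := by
    intro v _
    have a1 : (q : ℚ) ≠ 0 := hq0.ne'
    have a2 : (q : ℚ) + 1 ≠ 0 := by positivity
    have a3 : (q : ℚ) + 2 ≠ 0 := by positivity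
    by_cases h : v ∈ W
    · simp only [if_pos h]
      push_cast
      have a4 : (q : ℚ) + 1 + 1 = q + 2 := by ring
      rw [a4]
      field_simp
      ring
    · simp only [if_neg h]
      rw [add_zero]
  rw [sum_congr rfl h2, ← sum_div, div_le_iff₀ (by positivity), sum_add_distrib,
    sum_sub_distrib, sum_const, nsmul_eq_mul] at h1
  have h3 : ∑ v ∈ A, (nd G A v : ℚ) = NE G A := by
    unfold NE
    push_cast
    rfl
  have h4 : ∑ v ∈ A, (if v ∈ W then 2 * (nd G A v - q * R) / ((q : ℚ) + 2) else 0)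
      = 2 * ∑ v ∈ W, (nd G A v - (q : ℚ) * R) / (q + 2) := by
    rw [← sum_filter, filter_mem_eq_inter, inter_eq_right.2 hW, mul_sum]
    exact sum_congr rfl fun v _ => by ring
  rw [h3, h4] at h1
  nlinarith [h1]

/-- (PW) implies (P) -/
lemma PW.pg (hP : PW G r) (hr : 1 ≤ r) : PG G r := by
  intro A q
  have hE := E_add_NE (G := G) A
  rcases le_or_gt q 0 with hq | hq
  · have h1 : (0 : ℤ) ≤ (r : ℤ) - 1 := by omega
    have h2 : 2 * q * A.card - r * q * (q + 1) ≤ 0 := by
      have h3 : 0 ≤ q * (q + 1) := by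
        rcases eq_or_lt_of_le hq with h | h
        · rw [h]; norm_num
        · exact mul_nonneg_of_nonpos_of_nonpos hq (by omega)
      have h4 : 2 * q * A.card ≤ 0 :=
        mul_nonpos_of_nonpos_of_nonneg (by linarith) (by positivity)
      have h5 : 0 ≤ (r : ℤ) * (q * (q + 1)) := mul_nonneg (by positivity) h3
      nlinarith
    have h6 : ((r : ℤ) - 1) * (2 * q * A.card - r * q * (q + 1)) ≤ 0 :=
      mul_nonpos_of_nonneg_of_nonpos h1 h2
    have h7 : (0 : ℤ) ≤ NE G A := by positivity
    linarith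
  · obtain ⟨n, rfl⟩ : ∃ n : ℕ, q = n := ⟨q.toNat, (Int.toNat_of_nonneg hq.le).symm⟩
    have h1 := hP.gain_high A ∅ (empty_subset _) n (by omega)
    rw [sum_empty, mul_zero, add_zero] at h1
    have h2 : ((r : ℤ) - 1) * (2 * n * A.card - r * n * (n + 1)) ≤ NE G A := by
      exact_mod_cast h1
    linarith

end PW

section Colour

variable {V : Type*} {r : ℕ} {c : V → V → Fin r} (hc : ∀ x y, c x y = c y x)

/-- the missing degree is the sum of the degrees in the other colours -/
lemma nd_col (k : Fin r) (A : Finset V) {v : V} (hv : v ∈ A) :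
    nd (col c hc k) A v = ∑ j ∈ univ.erase k, dg (col c hc j) A v := by
  have h1 := sum_dg hc A hv
  rw [← add_sum_erase univ _ (mem_univ k)] at h1
  have h2 := dg_add_nd (G := col c hc k) hv
  have h3 : 1 ≤ A.card := card_pos.2 ⟨v, hv⟩
  omega

/-- **(PW) holds for every colour** -/
theorem PW_col (hs : Sees c) (k : Fin r) : PW (col c hc k) r := by
  intro A n hn
  have hr : 1 ≤ r := by
    have := k.2
    omega
  have h1 : ∀ j ∈ univ.erase k, ∑ v ∈ A, (2 * (n v : ℚ) - dg (col c hc j) A v)
      / (n v * (n v + 1)) ≤ r := fun j _ =>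
    (sum_le_sum fun v hv => tangent_le _ _ (hn v hv)).trans (caro_wei' (alpha_le hc hs j A))
  have h2 := sum_le_sum h1
  rw [sum_const, card_erase_of_mem (mem_univ k), card_univ, Fintype.card_fin, nsmul_eq_mul,
    sum_comm, Nat.cast_sub hr] at h2
  have h3 : ∀ v ∈ A, (2 * (n v : ℚ) * ((r : ℚ) - 1) - nd (col c hc k) A v) / (n v * (n v + 1))
      = ∑ j ∈ univ.erase k, (2 * (n v : ℚ) - dg (col c hc j) A v) / (n v * (n v + 1)) := by
    intro v hv
    rw [← sum_div, sum_sub_distrib, sum_const, card_erase_of_mem (mem_univ k), card_univ,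
      Fintype.card_fin, nsmul_eq_mul, Nat.cast_sub hr, nd_col hc k A hv]
    push_cast
    congr 1
    ring
  rw [sum_congr rfl h3]
  refine h2.trans (le_of_eq ?_)
  push_cast
  ring

end Colour

end Pool.Agent.Lib.MP_f04ccf_co
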