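import Pool.Agent.Lib.MP_f04ccf_co.M.Exc7

/-!
MP_f04ccf_co: every colouring (`r ≥ 7`) contains an `S2` frame with `m ≤ r` and `m + 4 ≤ r + t`.
In the exceptional case the only danger is a colour `s` with `b_s(L) = r + 1` for all lines `L` of
the other colours; then a count of the edges of colour `s` along a parallel class of another colour
gives a second colour with at least four rows.
-/

set_option autoImplicit false

namespace Pool.Agent.Lib.MP_f04ccf_co

open Finset

attribute [local instance] Classical.propDecidable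

section CritN

variable {V : Type*} {G : SimpleGraph V} {r : ℕ}

/-- reduction to the critical level: `m + a ≤ r + t` is kept, `m` and `t` do not grow -/
theorem PFrame.to_crit_a (hr : 2 ≤ r) (a : ℕ) : ∀ (t : ℕ) {m : ℕ} {Z T : Finset V},
    PFrame G r m t Z T → t < r → (∀ K : Finset V, K ⊆ Z → Clq G K → K.card ≤ r - 1) →
    m + a ≤ r + t →
    ∃ m' t' Z' T', m' ≤ m ∧ t' ≤ t ∧ m' + a ≤ r + t' ∧ S2 G r m' t' Z' T' := by
  intro t
  induction t using Nat.strong_induction_on with
  | _ t ih =>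
    intro m Z T h ht hω hm
    by_cases hall : ∀ I : Finset V, I ⊂ T → (ZI G Z T I).card ≤ I.card * r
    · exact ⟨m, t, Z, T, le_rfl, le_rfl, hm, { h with lt := ht, omega := hω, hall := hall }⟩
    push Not at hall
    obtain ⟨I, hI, hlt⟩ := hall
    have hIT : I ⊆ T := hI.1
    have hIc : I.card < t := by
      rw [← h.cardT]
      exact card_lt_card hI
    set C : Finset V := I.biUnion (fun v => Cl G Z T v) with hC
    have hCZ : C ⊆ ZI G Z T I := by
      intro z hz
      obtain ⟨v, hv, hzv⟩ := mem_biUnion.1 hz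
      exact h.Cl_sub_ZI' (hIT hv) hv hzv
    have hCc : C.card = ∑ v ∈ I, (Cl G Z T v).card :=
      card_biUnion fun v hv w hw hvw => Cl_disjoint (hIT hv) (hIT hw) hvw
    have hle : ∀ v ∈ T, (Cl G Z T v).card ≤ r - 1 :=
      fun v hv => hω _ (filter_subset _ _) (h.Cl_clq hv)
    have h1 : C.card ≤ I.card * (r - 1) := by
      rw [hCc]
      have := sum_le_sum fun v hv => hle v (hIT hv)
      rwa [sum_const, smul_eq_mul] at this
    have h2 : I.card * (r - 1) ≤ I.card * r + 1 :=
      (Nat.mul_le_mul_left _ (Nat.sub_le r 1)).trans (Nat.le_succ _)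
    obtain ⟨Z', hZ1, hZ2, hZc⟩ := exists_subsuperset_card_eq hCZ (h1.trans h2) hlt
    have hIZ : I ⊆ Z' := fun v hv =>
      hZ1 (mem_biUnion.2 ⟨v, hv, h.self_mem_Cl (hIT hv)⟩)
    have hout : ∀ z ∈ Z' \ I, z ∈ Z ∧ z ∉ T := by
      intro z hz
      obtain ⟨hz1, hz2⟩ := mem_sdiff.1 hz
      obtain ⟨hz3, hz4, -⟩ := mem_ZI.1 (hZ2 hz1)
      exact ⟨hz3, fun h' => hz2 (hz4 h')⟩
    have h3 : PFrame G r (BB G Z' I).card I.card Z' I :=
      { sub := hIZ
        ind := h.ind.mono hIT
        cardT := rfl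
        alpha := (h.alpha_ZI hIT).mono G hZ2
        cardZ := hZc
        k2 := fun z hz => (dg_mono G hIT z).trans (h.k2 z (mem_sdiff.2 (hout z hz)))
        b := le_rfl }
    have h4 : BB G Z' I ⊆ Z' \ C := by
      intro z hz
      obtain ⟨⟨hz1, hz2⟩, hz3⟩ := mem_BB.1 hz
      refine mem_sdiff.2 ⟨hz1, fun hzC => ?_⟩
      obtain ⟨v, hv, hzv⟩ := mem_biUnion.1 hzC
      rcases (mem_Cl.1 hzv).2 with h5 | ⟨-, h5⟩
      · exact hz2 (h5 ▸ hv)
      · have h6 := dg_mono G hIT z
        rw [← card_ends T, h5, card_singleton] at h6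
        omega
    have h5 := card_le_card h4
    rw [card_sdiff_of_subset hZ1, hZc] at h5
    have h6 := h.card_split
    rw [h.cardZ] at h6
    have h7 : ∑ v ∈ T \ I, (Cl G Z T v).card ≤ (t - I.card) * (r - 1) := by
      have := sum_le_sum fun v (hv : v ∈ T \ I) => hle v (mem_sdiff.1 hv).1
      rwa [sum_const, smul_eq_mul, card_sdiff_of_subset hIT, h.cardT] at this
    have h8 : ∑ v ∈ T \ I, (Cl G Z T v).card + ∑ v ∈ I, (Cl G Z T v).card
        = ∑ v ∈ T, (Cl G Z T v).card := sum_sdiff hIT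
    have h9 := h.b
    have h10 : (BB G Z' I).card + (t - I.card) ≤ m := by
      obtain ⟨n, rfl⟩ : ∃ n, r = n + 1 := ⟨r - 1, by omega⟩
      obtain ⟨d, rfl⟩ : ∃ d, t = I.card + d := ⟨t - I.card, by omega⟩
      simp only [Nat.add_sub_cancel, Nat.add_sub_cancel_left] at h7 h1 ⊢
      have e1 : (I.card + d) * (n + 1) = I.card * n + I.card + d * n + d := by ring
      have e2 : I.card * (n + 1) = I.card * n + I.card := by ring
      rw [e1] at h6
      rw [e2] at h5
      omega
    obtain ⟨m', t', Z'', T'', e1, e2, e3, e4⟩ := ih I.card hIc h3 (by omega) (fun K hK hKq => hω K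
      (hK.trans (hZ2.trans (filter_subset _ _))) hKq) (by omega)
    exact ⟨m', t', Z'', T'', by omega, by omega, e3, e4⟩

/-- degrees into a disjoint union -/
lemma dg_biUnion (G : SimpleGraph V) {F : Finset (Finset V)}
    (hF : (F : Set (Finset V)).PairwiseDisjoint id) (v : V) :
    dg G (F.biUnion id) v = ∑ K ∈ F, dg G K v := by
  unfold dg
  rw [filter_biUnion, card_biUnion]
  · rfl
  · intro K hK K' hK' hne
    exact disjoint_filter_filter (hF hK hK' hne)

end CritN

section SevenN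

variable {V : Type*} [Fintype V] {c : V → V → Fin 7} {hc : ∀ x y, c x y = c y x}

namespace Exc

/-- `r = 7`: some colour has four rows, or there is a frame -/
theorem exists_four_seven (hs : Sees c) (hV : Fintype.card V = 7 ^ 2 + 1) (he : Exc hc)
    (hno : ¬ ∃ j m t Z T, m ≤ 7 ∧ m + 4 ≤ 7 + t ∧ S2 (col c hc j) 7 m t Z T) :
    ∃ j : Fin 7, 4 ≤ kj hc j := by
  by_contra h1
  push Not at h1
  have hct := he.count hs hV (by norm_num)
  have hb8 : ∀ (j i : Fin 7) (L : Finset V), Line hc i L → j ≠ i →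
      (BB (col c hc j) univ L).card ≤ 8 := by
    intro j i L h hji
    have h2 := he.sum_excess hs hV h
    have h3 := single_le_sum (f := fun j => (BB (col c hc j) univ L).card - 7)
      (fun _ _ => Nat.zero_le _) (mem_erase.2 ⟨hji, mem_univ j⟩)
    omega
  have hline : ∀ j : Fin 7, ∃ K, Line hc j K := by
    intro j
    obtain ⟨i, hij, -, L, h⟩ := he.exists_line_ne hs hV (by norm_num) j j
    exact exists_line_of_le' hs hV (by norm_num) h (Ne.symm hij) (hb8 j i L h (Ne.symm hij))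
  have hklt : ∀ j : Fin 7, kj hc j < 7 := by
    intro j
    obtain ⟨K, hK⟩ := hline j
    exact kj_lt (by norm_num) hK
  have key0 : ∀ (j : Fin 7) (m : ℕ) (T : Finset V),
      PFrame (col c hc j) 7 m (kj hc j) (UU hc j) T → m ≤ 7 → m + 4 ≤ 7 + kj hc j → False := by
    intro j m T hF hm8 hmt
    obtain ⟨m', t', Z', T', h0, -, h1, h2⟩ := PFrame.to_crit_a (by norm_num) 4 _ hF (hklt j)
      (fun K hK hKq => clq_lt_of_no_line (by norm_num)
        (fun K' hK' => UU_no_line (by norm_num) hK') hK hKq) hmt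
    exact hno ⟨j, m', t', Z', T', h0.trans hm8, h1, h2⟩
  have hkL : ∀ j : Fin 7, kj hc j + (LL hc j).card = 7 := fun j =>
    he.kj_add hs hV (by norm_num) j
  have hsumE : ∑ k : Fin 7, (E (col c hc k) univ : ℤ) = 2450 := by
    rw [sum_E_int hc (univ : Finset V), card_univ, hV]
    norm_num
  -- all `k_j = 3`
  have hk3 : ∀ j : Fin 7, kj hc j = 3 := by
    intro j
    by_contra hne
    have h2 : ∑ m ∈ univ.erase j, (kj hc m : ℤ) * (kj hc m - 1)
        ≤ ∑ _m ∈ (univ : Finset (Fin 7)).erase j, 6 := by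
      refine sum_le_sum fun m _ => ?_
      have h3 : (kj hc m : ℤ) ≤ 3 := by
        have := h1 m
        omega
      have h4 : (0 : ℤ) ≤ kj hc m := Int.natCast_nonneg _
      nlinarith
    rw [sum_const, card_erase_of_mem (mem_univ j), card_univ, Fintype.card_fin] at h2
    rw [← add_sum_erase univ _ (mem_univ j)] at hct
    have h3 : (kj hc j : ℤ) ≤ 2 := by
      have := h1 j
      omega
    have h4 : (0 : ℤ) ≤ kj hc j := Int.natCast_nonneg _
    norm_num at h2 hct
    nlinarith
  have hL4 : ∀ j : Fin 7, (LL hc j).card = 4 := by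
    intro j
    have := hkL j
    rw [hk3 j] at this
    omega
  have hUc : ∀ j : Fin 7, (UU hc j).card = 22 := by
    intro j
    rw [he.UU_card hs hV (by norm_num) j, hk3 j]
  have hEU : ∀ j : Fin 7, E (col c hc j) (UU hc j) ≤ 174 := by
    intro j
    have e2 := he.E7_le hs hV j
    rw [hk3 j] at e2
    norm_num at e2
    omega
  have hEle : ∀ j : Fin 7, E (col c hc j) univ ≤ E (col c hc j) (UU hc j) + 168
      + 2 * ∑ L ∈ LL hc j, (AA hc j L).card := by
    intro j
    have e1 := he.E_univ_le2 hs hV (by norm_num) j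
    rw [hL4 j] at e1
    norm_num at e1
    exact e1
  have hAAs : ∀ j : Fin 7, ∑ L ∈ LL hc j, (AA hc j L).card ≤ 4 := by
    intro j
    have h2 := sum_le_sum fun L (hL : L ∈ LL hc j) => he.AA_le hs hV (mem_LL.1 hL)
    rw [sum_const, hL4 j] at h2
    simpa using h2
  have hE350 : ∀ j : Fin 7, E (col c hc j) univ = 350 := by
    have hle : ∀ j : Fin 7, E (col c hc j) univ ≤ 350 := by
      intro j
      have e1 := hEle j
      have e2 := hEU j
      have e3 := hAAs j
      omega
    intro j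
    by_contra hne
    have e1 : (E (col c hc j) univ : ℤ) ≤ 349 := by
      have := hle j
      omega
    have h7 : ∑ m ∈ univ.erase j, (E (col c hc m) univ : ℤ)
        ≤ ∑ _m ∈ (univ : Finset (Fin 7)).erase j, 350 :=
      sum_le_sum fun m _ => by exact_mod_cast hle m
    rw [sum_const, card_erase_of_mem (mem_univ j), card_univ, Fintype.card_fin] at h7
    rw [← add_sum_erase univ _ (mem_univ j)] at hsumE
    have h8 := h7.trans (show (7 - 1) • (350 : ℤ) ≤ 2100 by norm_num)
    linarith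
  have hEU' : ∀ j : Fin 7, E (col c hc j) (UU hc j) = 174 := by
    intro j
    have e1 := hEle j
    have e2 := hEU j
    have e3 := hAAs j
    have e4 := hE350 j
    omega
  have hAA1 : ∀ j : Fin 7, ∀ L, Line hc j L → (AA hc j L).card = 1 := by
    intro j L hL
    have e1 := hEle j
    have e4 := hE350 j
    have e5 := hEU' j
    have e6 : 4 ≤ ∑ L ∈ LL hc j, (AA hc j L).card := by omega
    rw [← add_sum_erase _ _ (mem_LL.2 hL)] at e6
    have h2 := sum_le_sum fun K (hK : K ∈ (LL hc j).erase L) =>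
      he.AA_le hs hV (mem_LL.1 (mem_of_mem_erase hK))
    rw [sum_const, card_erase_of_mem (mem_LL.2 hL), hL4 j] at h2
    have h3 := he.AA_le hs hV hL
    norm_num at h2
    omega
  have hb7 : ∀ (j i : Fin 7) (L : Finset V), Line hc i L → j ≠ i →
      (BB (col c hc j) univ L).card ≤ 7 := by
    intro j i L h hji
    have h2 := he.sum_excess hs hV h
    have h3 := single_le_sum (f := fun j => (BB (col c hc j) univ L).card - 7)
      (fun _ _ => Nat.zero_le _) (mem_erase.2 ⟨hji, mem_univ j⟩)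
    have h4 := hAA1 i L h
    omega
  -- the other colours inside `U_m`
  have hE48 : ∀ m n : Fin 7, n ≠ m → E (col c hc n) (UU hc m) ≤ 48 := by
    intro m n hnm
    have e1 := sum_E hc (UU hc m)
    rw [hUc m] at e1
    have e2 : ∀ k : Fin 7, 48 ≤ E (col c hc k) (UU hc m) := by
      intro k
      have e3 := E_lower_q (col c hc k) 3 7 (UU hc m) (alpha_le hc hs k _)
      rw [hUc m] at e3
      norm_num at e3
      exact_mod_cast e3
    rw [← add_sum_erase univ _ (mem_univ m), hEU' m,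
      ← add_sum_erase (univ.erase m) _ (mem_erase.2 ⟨hnm, mem_univ n⟩)] at e1
    have e4 : ∑ _k ∈ ((univ : Finset (Fin 7)).erase m).erase n, 48
        ≤ ∑ k ∈ (univ.erase m).erase n, E (col c hc k) (UU hc m) :=
      sum_le_sum fun k _ => e2 k
    rw [sum_const, card_erase_of_mem (mem_erase.2 ⟨hnm, mem_univ n⟩),
      card_erase_of_mem (mem_univ m), card_univ, Fintype.card_fin] at e4
    norm_num at e1 e4
    omega
  -- degrees inside `U_m`
  have hd9 : ∀ (m : Fin 7) (u : V), u ∈ UU hc m → dg (col c hc m) (UU hc m) u ≤ 9 := by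
    intro m u hu
    have e1 := sum_dg hc (UU hc m) hu
    rw [hUc m, ← add_sum_erase univ _ (mem_univ m)] at e1
    have e2 : ∑ _k ∈ (univ : Finset (Fin 7)).erase m, 2
        ≤ ∑ k ∈ univ.erase m, dg (col c hc k) (UU hc m) u :=
      sum_le_sum fun k hk => min_deg_22 (alpha_le hc hs k _) (hUc m)
        (hE48 m k (mem_erase.1 hk).1) hu
    rw [sum_const, card_erase_of_mem (mem_univ m), card_univ, Fintype.card_fin] at e2
    norm_num at e1 e2
    omega
  -- the three points of a line in `U_m`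
  have h26 : ∀ (m i : Fin 7) (L : Finset V), Line hc i L → m ≠ i →
      26 ≤ ∑ q ∈ L ∩ UU hc m, dg (col c hc m) (UU hc m) q := by
    intro m i L h hmi
    have hF := he.frame_UU hs hV (by norm_num) h hmi le_rfl
    have e1 := hF.sum_dg_T
    rw [hF.cardT, hUc m, hk3 m] at e1
    by_contra hlt
    have e2 : (BB (col c hc m) (UU hc m) (L ∩ UU hc m)).card ≤ 6 := by omega
    exact key0 m 6 _ { hF with b := e2 } (by norm_num) (by rw [hk3 m])
  have h8 : ∀ (m i : Fin 7) (L : Finset V), Line hc i L → m ≠ i → ∀ q ∈ L ∩ UU hc m,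
      8 ≤ dg (col c hc m) (UU hc m) q := by
    intro m i L h hmi q hq
    have e1 := h26 m i L h hmi
    rw [← add_sum_erase _ _ hq] at e1
    have e2 : ∑ q ∈ (L ∩ UU hc m).erase q, dg (col c hc m) (UU hc m) q
        ≤ ∑ _q ∈ (L ∩ UU hc m).erase q, 9 :=
      sum_le_sum fun z hz => hd9 m z (mem_inter.1 (mem_of_mem_erase hz)).2
    rw [sum_const, card_erase_of_mem hq, he.inter_UU hs hV (by norm_num) h hmi, hk3 m] at e2
    norm_num at e2
    omega
  -- an outside edge
  obtain ⟨L0, hL0⟩ := hline 0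
  obtain ⟨p, hp⟩ := card_pos.1 (by rw [hAA1 0 L0 hL0]; norm_num : 0 < (AA hc 0 L0).card)
  obtain ⟨hp1, hp2⟩ := mem_filter.1 hp
  have hpL : p ∉ L0 := (mem_sdiff.1 hp1).2
  obtain ⟨v, hv⟩ := card_pos.1 (Nat.pos_of_ne_zero hp2)
  obtain ⟨hv1, hv2⟩ := mem_filter.1 hv
  have hv7 : 7 ≤ dg (col c hc 0) univ v := by
    have e1 : (L0.erase v) ∪ {p} ⊆ univ.filter (fun w => (col c hc 0).Adj v w) := by
      intro w hw
      rcases mem_union.1 hw with h | h
      · obtain ⟨h3, h4⟩ := mem_erase.1 h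
        exact mem_filter.2 ⟨mem_univ w, hL0.1 v hv1 w h4 (Ne.symm h3)⟩
      · rw [mem_singleton.1 h]
        exact mem_filter.2 ⟨mem_univ p, hv2.symm⟩
    have e2 := card_le_card e1
    rw [card_union_of_disjoint (by
      rw [disjoint_singleton_right]
      exact fun h => hpL (mem_of_mem_erase h)), card_erase_of_mem hv1, hL0.2,
      card_singleton] at e2
    exact e2
  -- `v` is on no line of another colour
  have hnot : ∀ (i : Fin 7) (M : Finset V), Line hc i M → i ≠ 0 → v ∉ M := by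
    intro i M hM hi hvM
    have hF := hM.frame hs (Ne.symm hi) hV le_rfl
    have e1 := hF.sum_dg_T
    rw [card_univ, hV, hM.2] at e1
    have e2 := hb7 0 i M hM (Ne.symm hi)
    have e3 := h26 0 i M hM (Ne.symm hi)
    have e4 : ∑ q ∈ M ∩ UU hc 0, dg (col c hc 0) (UU hc 0) q
        ≤ ∑ q ∈ M ∩ UU hc 0, dg (col c hc 0) univ q :=
      sum_le_sum fun q _ => dg_mono _ (subset_univ _) q
    have hvLP : v ∈ M \ UU hc 0 := by
      refine mem_sdiff.2 ⟨hvM, fun h' => (mem_sdiff.1 h').2 ?_⟩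
      exact mem_biUnion.2 ⟨L0, mem_LL.2 hL0, hv1⟩
    have e5 : ∀ q ∈ M \ UU hc 0, 6 ≤ dg (col c hc 0) univ q := by
      intro q hq
      have h3 : q ∈ LP hc 0 := by
        by_contra hn
        exact (mem_sdiff.1 hq).2 (mem_sdiff.2 ⟨mem_univ q, hn⟩)
      obtain ⟨K, hK, hqK⟩ := mem_biUnion.1 h3
      have hK' := mem_LL.1 hK
      change q ∈ K at hqK
      have h4 : K.erase q ⊆ univ.filter (fun w => (col c hc 0).Adj q w) := by
        intro w hw
        obtain ⟨h5, h6⟩ := mem_erase.1 hw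
        exact mem_filter.2 ⟨mem_univ w, hK'.1 q hqK w h6 (Ne.symm h5)⟩
      have h5 := card_le_card h4
      rw [card_erase_of_mem hqK, hK'.2] at h5
      exact h5
    have e6 : (M \ UU hc 0).card = 4 := by
      have h3 := card_sdiff_add_card_inter M (UU hc 0)
      rw [he.inter_UU hs hV (by norm_num) hM (Ne.symm hi), hk3 0, hM.2] at h3
      omega
    have e7 : ∑ _q ∈ (M \ UU hc 0).erase v, 6
        ≤ ∑ q ∈ (M \ UU hc 0).erase v, dg (col c hc 0) univ q :=
      sum_le_sum fun q hq => e5 q (mem_of_mem_erase hq)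
    rw [sum_const, card_erase_of_mem hvLP, e6] at e7
    have e8 : ∑ q ∈ M, dg (col c hc 0) univ q
        = ∑ q ∈ M ∩ UU hc 0, dg (col c hc 0) univ q
          + (dg (col c hc 0) univ v + ∑ q ∈ (M \ UU hc 0).erase v, dg (col c hc 0) univ q) := by
      rw [add_sum_erase _ _ hvLP, add_comm]
      rw [← sum_union (by
        rw [disjoint_left]
        intro x hx hx'
        exact (mem_sdiff.1 hx).2 (mem_inter.1 hx').2), sdiff_union_inter]
    norm_num at e1 e7
    omega
  -- the degrees at `v`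
  have hdeg : ∑ m : Fin 7, dg (col c hc m) univ v = 49 := by
    have e1 := sum_dg hc univ (mem_univ v)
    rw [card_univ, hV] at e1
    exact e1
  rw [← add_sum_erase univ _ (mem_univ (0 : Fin 7))] at hdeg
  have e2 : ∑ _m ∈ (univ : Finset (Fin 7)).erase 0, 8
      ≤ ∑ m ∈ univ.erase 0, dg (col c hc m) univ v := by
    refine sum_le_sum fun m hm => ?_
    have hm0 := (mem_erase.1 hm).1
    have hvU : v ∈ L0 ∩ UU hc m := by
      refine mem_inter.2 ⟨hv1, mem_sdiff.2 ⟨mem_univ v, fun h' => ?_⟩⟩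
      obtain ⟨K, hK, hvK⟩ := mem_biUnion.1 h'
      exact hnot m K (mem_LL.1 hK) hm0 hvK
    exact (h8 m 0 L0 hL0 hm0 v hvU).trans (dg_mono _ (subset_univ _) v)
  rw [sum_const, card_erase_of_mem (mem_univ (0 : Fin 7)), card_univ, Fintype.card_fin] at e2
  norm_num at e2
  omega

end Exc

end SevenN

section ColourN

variable {V : Type*} [Fintype V] {r : ℕ} {c : V → V → Fin r} {hc : ∀ x y, c x y = c y x}
  {i j : Fin r} {L : Finset V}

namespace Exc

variable (hs : Sees c) (hV : Fintype.card V = r ^ 2 + 1)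

include hs hV in
/-- a frame with `b ≤ r` and at least four rows is what we want -/
lemma kj_le_three (hr : 7 ≤ r) (he : Exc hc)
    (hno : ¬ ∃ j m t Z T, m ≤ r ∧ m + 4 ≤ r + t ∧ S2 (col c hc j) r m t Z T)
    (h : Line hc i L) (hj : j ≠ i) (hb : (BB (col c hc j) univ L).card ≤ r) : kj hc j ≤ 3 := by
  by_contra hlt
  obtain ⟨K, hK⟩ := exists_line_of_le hs hV (by omega) h hj hb
  obtain ⟨m', t', Z', T', h0, -, h1, h2⟩ := PFrame.to_crit_a (by omega) 4 _
    (he.frame_UU hs hV (by omega) h hj hb) (kj_lt (by omega) hK)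
    (fun K hK hKq => clq_lt_of_no_line (by omega) (fun K' hK' => UU_no_line (by omega) hK')
      hK hKq) (by omega)
  exact hno ⟨j, m', t', Z', T', h0, h1, h2⟩

include hs hV in
lemma three_le_kj (hr : 7 ≤ r) (he : Exc hc) (h : Line hc i L) (hj : j ≠ i)
    (hb : (BB (col c hc j) univ L).card ≤ r) : 3 ≤ kj hc j := by
  obtain ⟨K, hK⟩ := exists_line_of_le hs hV (by omega) h hj hb
  obtain ⟨m', t', Z', T', -, h1, -, h2⟩ := PFrame.to_crit_a (by omega) 0 _
    (he.frame_UU hs hV (by omega) h hj hb) (kj_lt (by omega) hK)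
    (fun K hK hKq => clq_lt_of_no_line (by omega) (fun K' hK' => UU_no_line (by omega) hK')
      hK hKq) (by omega)
  have h3 := h2.three_le (by omega) (PG_col hc hs j)
  omega

include hs in
/-- Turan in `U_i`, every colour -/
lemma E_UU_ge (hU : (UU hc i).card = 3 * r + 1) (k : Fin r) :
    6 * (r : ℤ) + 6 ≤ E (col c hc k) (UU hc i) := by
  have h1 := E_lower_q (col c hc k) 3 r (UU hc i) (alpha_le hc hs k _)
  rw [hU] at h1
  push_cast at h1
  linarith

include hs hV in
/-- the colour `i` itself -/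
lemma E_le_A (hr : 7 ≤ r) (he : Exc hc) {s : Fin r} (his : i ≠ s) (hk : kj hc i = 3)
    (hAA : ∀ L ∈ LL hc i, (AA hc i L).card = 0) :
    (E (col c hc i) univ : ℤ) + E (col c hc s) (UU hc i)
      ≤ (r - 3) * (r * (r - 1)) + (3 * r + 1) * (3 * r) - (r - 2) * (6 * r + 6) := by
  have h1 := he.E_univ_le2 hs hV (by omega) i
  rw [sum_eq_zero hAA] at h1
  have h2 := he.kj_add hs hV (by omega) i
  have h3 := he.UU_card hs hV (by omega) i
  rw [hk] at h2 h3
  have h4 := sum_E_int hc (UU hc i)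
  rw [h3, ← add_sum_erase univ _ (mem_univ i),
    ← add_sum_erase (univ.erase i) _ (mem_erase.2 ⟨his.symm, mem_univ s⟩)] at h4
  have h5 : ∑ _k ∈ ((univ : Finset (Fin r)).erase i).erase s, (6 * (r : ℤ) + 6)
      ≤ ∑ k ∈ (univ.erase i).erase s, (E (col c hc k) (UU hc i) : ℤ) :=
    sum_le_sum fun k _ => E_UU_ge hs h3 k
  rw [sum_const, card_erase_of_mem (mem_erase.2 ⟨his.symm, mem_univ s⟩),
    card_erase_of_mem (mem_univ i), card_univ, Fintype.card_fin, nsmul_eq_mul] at h5
  have h6 : ((r - 1 - 1 : ℕ) : ℤ) = r - 2 := by omega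
  rw [h6] at h5
  have h7 : ((LL hc i).card : ℤ) = r - 3 := by omega
  have h8 : (E (col c hc i) univ : ℤ) ≤ E (col c hc i) (UU hc i)
      + (LL hc i).card * (r * (r - 1)) := by
    have h9 : ((E (col c hc i) univ : ℕ) : ℤ)
        ≤ ((E (col c hc i) (UU hc i) + (LL hc i).card * (r * (r - 1)) + 2 * 0 : ℕ) : ℤ) := by
      exact_mod_cast h1
    push_cast [show 1 ≤ r by omega] at h9
    linarith
  rw [h7] at h8
  push_cast at h4
  linarith

include hs hV in
/-- the colour `s` along the parallel class of colour `i` -/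
lemma E_le_B (hr : 7 ≤ r) (he : Exc hc) {s : Fin r} (his : i ≠ s) (hk : kj hc i = 3)
    (hb : ∀ L ∈ LL hc i, (BB (col c hc s) univ L).card = r + 1) :
    (E (col c hc s) univ : ℤ)
      ≤ E (col c hc s) (UU hc i) + 2 * (r - 3) * (r ^ 2 + 2) - (r - 3) * (r - 4) * r := by
  have h1 := E_sdiff (col c hc s) (subset_univ (LP hc i))
  have hpd : ((LL hc i : Set (Finset V))).PairwiseDisjoint id := fun L hL L' hL' hne =>
    he.disjoint_lines hs hV (by omega) (mem_LL.1 hL) (mem_LL.1 hL') hne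
  have h2 : ∑ v ∈ LP hc i, dg (col c hc s) univ v
      = ∑ L ∈ LL hc i, ∑ v ∈ L, dg (col c hc s) univ v := sum_biUnion hpd
  have h3 : ∑ L ∈ LL hc i, ∑ v ∈ L, dg (col c hc s) univ v
      = ∑ L ∈ LL hc i, (r ^ 2 + 2) := by
    refine sum_congr rfl fun L hL => ?_
    have hL' := mem_LL.1 hL
    have h4 := (hL'.frame hs his.symm hV le_rfl).sum_dg_T
    rw [card_univ, hV, hL'.2, hb L hL] at h4
    omega
  have h5 : ∑ _v ∈ LP hc i, ((LL hc i).card - 1) ≤ E (col c hc s) (LP hc i) := by
    refine sum_le_sum fun v hv => ?_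
    obtain ⟨L, hL, hvL⟩ := mem_biUnion.1 hv
    change v ∈ L at hvL
    have h6 : dg (col c hc s) (LP hc i) v = ∑ K ∈ LL hc i, dg (col c hc s) K v :=
      dg_biUnion _ hpd v
    rw [h6, ← add_sum_erase _ _ hL]
    have h7 : ∑ _K ∈ (LL hc i).erase L, 1 ≤ ∑ K ∈ (LL hc i).erase L, dg (col c hc s) K v := by
      refine sum_le_sum fun K hK => ?_
      obtain ⟨hKL, hK'⟩ := mem_erase.1 hK
      have h8 := he.disjoint_lines hs hV (by omega) (mem_LL.1 hK') (mem_LL.1 hL) hKL
      exact (mem_LL.1 hK').one_le hs his.symm (fun h' => disjoint_left.1 h8 h' hvL)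
    rw [← card_eq_sum_ones, card_erase_of_mem hL] at h7
    omega
  have h9 := he.kj_add hs hV (by omega) i
  rw [hk] at h9
  have h10 := he.LP_card hs hV (by omega) i
  rw [sum_const, smul_eq_mul, h10] at h5
  rw [h2, h3, sum_const, smul_eq_mul] at h1
  obtain ⟨n, rfl⟩ : ∃ n, r = n + 4 := ⟨r - 4, by omega⟩
  have h11 : (LL hc i).card = n + 1 := by omega
  rw [h11] at h1 h5
  simp only [Nat.add_sub_cancel] at h5
  change E (col c hc s) univ + E (col c hc s) (LP hc i) = E (col c hc s) (UU hc i) + _ at h1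
  have h12 : (E (col c hc s) univ : ℤ) + E (col c hc s) (LP hc i)
      = E (col c hc s) (UU hc i) + 2 * ((n + 1) * ((n + 4) ^ 2 + 2)) := by exact_mod_cast h1
  have h13 : ((n : ℤ) + 1) * (n + 4) * n ≤ E (col c hc s) (LP hc i) := by exact_mod_cast h5
  push_cast
  nlinarith

include hs hV in
/-- **in the exceptional case there is a frame with `m ≤ r` and `m + 4 ≤ r + t`** -/
theorem exists_mn (hr : 7 ≤ r) (he : Exc hc) :
    ∃ j m t Z T, m ≤ r ∧ m + 4 ≤ r + t ∧ S2 (col c hc j) r m t Z T := by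
  by_contra hno
  have h4 : ∃ j : Fin r, 4 ≤ kj hc j := by
    rcases Nat.lt_or_ge r 8 with h | h
    · obtain rfl : r = 7 := by omega
      exact he.exists_four_seven hs hV hno
    · by_contra hcon
      push Not at hcon
      have hct := he.count hs hV (by omega)
      have hr8 : (8 : ℤ) ≤ r := by exact_mod_cast h
      have h2 : ∑ j, (kj hc j : ℤ) * (kj hc j - 1) ≤ ∑ _j : Fin r, 6 := by
        refine sum_le_sum fun j _ => ?_
        have h3 : (kj hc j : ℤ) ≤ 3 := by
          have := hcon j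
          omega
        have h4 : (0 : ℤ) ≤ kj hc j := Int.natCast_nonneg _
        nlinarith
      rw [sum_const, card_univ, Fintype.card_fin, nsmul_eq_mul] at h2
      nlinarith
  obtain ⟨s, hs4⟩ := h4
  have hbs : ∀ i L, Line hc i L → s ≠ i → (BB (col c hc s) univ L).card = r + 1 := by
    intro i L h hsi
    have h1 : ¬ (BB (col c hc s) univ L).card ≤ r := fun h1 => by
      have := he.kj_le_three hs hV hr hno h hsi h1
      omega
    have h2 := he.sum_excess hs hV h
    have h3 := single_le_sum (f := fun j => (BB (col c hc j) univ L).card - r)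
      (fun _ _ => Nat.zero_le _) (mem_erase.2 ⟨hsi, mem_univ s⟩)
    omega
  have hbi : ∀ i L, Line hc i L → s ≠ i → ∀ m, m ≠ i → m ≠ s →
      (BB (col c hc m) univ L).card ≤ r := by
    intro i L h hsi m hmi hms
    have h1 := hbs i L h hsi
    have h9 := he.sum_excess hs hV h
    by_contra hlt
    have h10 : ∑ m ∈ ({s, m} : Finset (Fin r)), ((BB (col c hc m) univ L).card - r)
        ≤ ∑ m ∈ univ.erase i, ((BB (col c hc m) univ L).card - r) := by
      refine sum_le_sum_of_subset fun k hk => ?_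
      simp only [mem_insert, mem_singleton] at hk
      rcases hk with rfl | rfl
      · exact mem_erase.2 ⟨hsi, mem_univ _⟩
      · exact mem_erase.2 ⟨hmi, mem_univ _⟩
    rw [sum_pair (Ne.symm hms)] at h10
    omega
  have hAA : ∀ i, i ≠ s → ∀ L ∈ LL hc i, (AA hc i L).card = 0 := by
    intro i hi L hL
    have h7 := he.sum_excess hs hV (mem_LL.1 hL)
    have h8 := hbs i L (mem_LL.1 hL) (Ne.symm hi)
    have h9 := single_le_sum (f := fun j => (BB (col c hc j) univ L).card - r)
      (fun _ _ => Nat.zero_le _) (mem_erase.2 ⟨Ne.symm hi, mem_univ s⟩)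
    simp only [h8] at h9
    omega
  have hk3 : ∀ i, i ≠ s → kj hc i = 3 := by
    intro i hi
    obtain ⟨i', h1, h2, L, hL⟩ := he.exists_line_ne hs hV (by omega) i s
    have h3 := hbi i' L hL (Ne.symm h2) i (Ne.symm h1) hi
    have h5 := he.kj_le_three hs hV hr hno hL (Ne.symm h1) h3
    have h6 := he.three_le_kj hs hV hr hL (Ne.symm h1) h3
    omega
  have hA : ∀ i ∈ univ.erase s, (E (col c hc i) univ : ℤ)
      ≤ ((r - 3) * (r * (r - 1)) + (3 * r + 1) * (3 * r) - (r - 2) * (6 * r + 6))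
        - E (col c hc s) (UU hc i) := by
    intro i hi
    have hi' := (mem_erase.1 hi).1
    have := he.E_le_A hs hV hr hi' (hk3 i hi') (hAA i hi')
    linarith
  obtain ⟨i0, hi0⟩ : ∃ i0 : Fin r, i0 ≠ s := exists_other (by omega) s
  have hB := he.E_le_B hs hV hr hi0 (hk3 i0 hi0)
    (fun L hL => hbs i0 L (mem_LL.1 hL) (Ne.symm hi0))
  have hS := sum_E_int hc (univ : Finset V)
  rw [card_univ, hV, ← add_sum_erase univ _ (mem_univ s)] at hS
  have h5 := sum_le_sum hA
  rw [sum_sub_distrib, sum_const, card_erase_of_mem (mem_univ s), card_univ, Fintype.card_fin,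
    nsmul_eq_mul, ← add_sum_erase (univ.erase s) (fun i => (E (col c hc s) (UU hc i) : ℤ))
      (mem_erase.2 ⟨hi0, mem_univ i0⟩)] at h5
  have h6 : ∑ _k ∈ ((univ : Finset (Fin r)).erase s).erase i0, (6 * (r : ℤ) + 6)
      ≤ ∑ k ∈ (univ.erase s).erase i0, (E (col c hc s) (UU hc k) : ℤ) := by
    refine sum_le_sum fun k hk => ?_
    have hk' := (mem_erase.1 (mem_erase.1 hk).2).1
    have hU := he.UU_card hs hV (by omega) k
    rw [hk3 k hk'] at hU
    exact E_UU_ge hs hU s
  rw [sum_const, card_erase_of_mem (mem_erase.2 ⟨hi0, mem_univ i0⟩),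
    card_erase_of_mem (mem_univ s), card_univ, Fintype.card_fin, nsmul_eq_mul] at h6
  have h7 : ((r - 1 - 1 : ℕ) : ℤ) = r - 2 := by omega
  have h8 : ((r - 1 : ℕ) : ℤ) = r - 1 := by omega
  rw [h7] at h6
  rw [h8] at h5
  push_cast at hS
  have hr7 : (7 : ℤ) ≤ r := by exact_mod_cast hr
  obtain ⟨q, hq⟩ : ∃ q : ℤ, (r : ℤ) = q + 7 := ⟨r - 7, by ring⟩
  have hq0 : 0 ≤ q := by linarith
  rw [hq] at hS h5 h6 hB
  nlinarith [mul_nonneg hq0 hq0, mul_nonneg (mul_nonneg hq0 hq0) hq0]

end Exc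

end ColourN

section FinalN

variable {V : Type*} [Fintype V]

/-- **every colouring contains a frame with `m ≤ r` and `m + 4 ≤ r + t`, `r ≥ 7`** -/
theorem exists_S2_mtn {r : ℕ} {c : V → V → Fin r} {hc : ∀ x y, c x y = c y x} (hs : Sees c)
    (hr : 7 ≤ r) (hV : Fintype.card V = r ^ 2 + 1) :
    ∃ j m t Z T, m ≤ r ∧ m + 4 ≤ r + t ∧ S2 (col c hc j) r m t Z T := by
  rcases S2_or_exc (hc := hc) hs (by omega) hV with ⟨j, t, Z, T, h⟩ | he
  · have h1 := h.three_le (by omega) (PG_col hc hs j)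
    exact ⟨j, r - 1, t, Z, T, by omega, by omega, h⟩
  · exact he.exists_mn hs hV hr

end FinalN

/-- final form for `r ≥ 7`: the statement at `r` from the absence of frames with `m ≤ r` and
`m + 4 ≤ r + t` -/
theorem good_of_S2_mtn (r : ℕ) (hr : 7 ≤ r)
    (hS : ∀ (G : SimpleGraph (Fin (r ^ 2 + 1))) (m t : ℕ) (Z T : Finset (Fin (r ^ 2 + 1))),
      PG G r → AlphaLe G univ r → m ≤ r → m + 4 ≤ r + t → ¬ S2 G r m t Z T) :
    Good r (r ^ 2 + 1) := by
  intro c hc
  by_contra hcon
  push Not at hcon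
  have hs : Sees c := fun S hS k => by
    obtain ⟨x, hx, y, hy, hxy, hk⟩ := hcon S hS k
    exact ⟨x, hx, y, hy, hxy, hk⟩
  obtain ⟨j, m, t, Z, T, h0, h1, h2⟩ := exists_S2_mtn (hc := hc) hs hr (by simp)
  exact hS _ m t Z T (PG_col hc hs j) (alpha_le hc hs j univ) h0 h1 h2

end Pool.Agent.Lib.MP_f04ccf_co
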