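import Pool.Agent.Lib.MP_f04ccf_co.M.R8w
import Pool.Agent.Lib.MP_f04ccf_co.M.ExcN

/-!
MP_f04ccf_co: the statement at `r = 8`.  The absence of frames for graphs with (P) and `CAP` is
enough.
-/

set_option autoImplicit false

namespace Pool.Agent.Lib.MP_f04ccf_co

open Finset

/-- at one `r`: no frames with `m = r` for graphs with (P) and `CAP` -/
theorem good_of_cap (r : ℕ) (hr : 3 ≤ r)
    (hS : ∀ (G : SimpleGraph (Fin (r ^ 2 + 1))) (t : ℕ) (Z T : Finset (Fin (r ^ 2 + 1))),
      PG G r → CAP G r → AlphaLe G univ r → ¬ S2 G r r t Z T) : Good r (r ^ 2 + 1) := by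
  intro c hc
  by_contra hcon
  push Not at hcon
  have hs : Sees c := fun S hS k => by
    obtain ⟨x, hx, y, hy, hxy, hk⟩ := hcon S hS k
    exact ⟨x, hx, y, hy, hxy, hk⟩
  obtain ⟨j, t, Z, T, h⟩ := exists_S2_r (hc := hc) hs hr (by simp)
  exact hS _ t Z T (PG_col hc hs j) (CAP_col hc hs j) (alpha_le hc hs j univ) h

/-- every `8`-colouring of `K_65` has a `9`-set that misses a colour -/
theorem good_eight : Good 8 (8 ^ 2 + 1) := by
  refine good_of_cap 8 (by omega) fun G t Z T hP hC _ h => ?_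
  have h1 := h.five_le le_rfl hP hC
  have h2 := h.b
  exact h.dead_three le_rfl hP h2 (by omega)

end Pool.Agent.Lib.MP_f04ccf_co
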