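import Pool.Agent.Lib.MP_f04ccf_co.M.Rig
import Pool.Agent.Lib.MP_f04ccf_co.M.PCap

/-!
MP_f04ccf_co: colour rigidity with defect.  If every clique with `n + 1` points of a graph with
independence number at most `k` has at most `d ≤ n` points in `C`, then the degrees of the points of
`C` exceed `n - 1` in total by at most `n + 3` times the Turan excess plus `d (|S| - n k)` (`rigd`).
`RigD G r`: for `n r + 1` points `S`, the partial cap of `PCap` and, with the same number of
exceptional colours, the bound for the missing degrees of `C` (`rigD_col`).  In a `j`-closed system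
on `n` rows the class points satisfy the hypothesis with `d = n - j` (`JSys.rg`, `JSys.rg_dg`).
-/

set_option autoImplicit false

namespace Pool.Agent.Lib.MP_f04ccf_co

open Finset

attribute [local instance] Classical.propDecidable

section RigDef

variable {V : Type*}

/-- **rigidity with defect** -/
theorem rigd (G : SimpleGraph V) (n d : ℕ) (hd : d ≤ n) : ∀ (k : ℕ) (S C : Finset V),
    AlphaLe G S k → C ⊆ S →
    (∀ K : Finset V, K ⊆ S → Clq G K → K.card = n + 1 → (K ∩ C).card ≤ d) →
    2 * ∑ c ∈ C, ((dg G S c : ℤ) - (n - 1)) ≤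
      ((n : ℤ) + 3) * (E G S - 2 * n * S.card + k * (n * (n + 1))) +
        2 * d * ((S.card : ℤ) - n * k) := by
  intro k
  induction k with
  | zero =>
    intro S C hS hC _
    have h1 := hS.zero
    subst h1
    have h2 := subset_empty.1 hC
    subst h2
    simp [E]
  | succ k ih =>
    intro S C hS hC hK
    have hn0 : (0 : ℤ) ≤ n := Int.natCast_nonneg _
    have hk0 : (0 : ℤ) ≤ k := Int.natCast_nonneg _
    have hd0 : (0 : ℤ) ≤ d := Int.natCast_nonneg _
    have hdn : (d : ℤ) ≤ n := by exact_mod_cast hd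
    by_cases hS0 : S = ∅
    · subst hS0
      have h2 := subset_empty.1 hC
      subst h2
      have h3 : (0 : ℤ) ≤ ((k : ℤ) + 1) * n * (((n : ℤ) + 3) * (n + 1) - 2 * d) := by
        refine mul_nonneg (mul_nonneg (by omega) hn0) ?_
        nlinarith
      simp only [E, sum_empty, card_empty, Nat.cast_zero, mul_zero, sub_zero, zero_sub]
      push_cast
      nlinarith
    obtain ⟨v, hv, hmin⟩ := exists_min_image S (fun w => dg G S w) (nonempty_iff_ne_empty.2 hS0)
    have hNS := nb_sub G S v
    have hvN : v ∈ nb G S v := mem_filter.2 ⟨hv, Or.inl rfl⟩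
    have hq := nb_card G hv
    have h1 := ih (S \ nb G S v) (C \ nb G S v) (hS.sdiff_nb G hv) (sdiff_subset_sdiff hC le_rfl)
      (fun K hKS hKq hKc => (card_le_card (inter_subset_inter_left sdiff_subset)).trans
        (hK K (hKS.trans sdiff_subset) hKq hKc))
    have h2 := E_sdiff G hNS
    set N : Finset V := nb G S v with hN
    set P : ℕ := ∑ z ∈ N, dg G S z with hP
    -- degrees in `N`
    have hPq : (N.card : ℤ) * (N.card - 1) ≤ P := by
      have h3 := card_nsmul_le_sum N (fun z => dg G S z) (dg G S v) (fun z hz => hmin z (hNS hz))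
      rw [smul_eq_mul] at h3
      have h4 : (N.card : ℤ) - 1 = dg G S v := by rw [hq]; push_cast; ring
      rw [h4]
      exact_mod_cast h3
    have hEN : (E G N : ℤ) ≤ (N.card : ℤ) * (N.card - 1) := by
      have h3 := E_add_NE (G := G) N
      have h4 : (0 : ℤ) ≤ NE G N := Int.natCast_nonneg _
      omega
    -- the outer points of `C`
    have hout : ∑ c ∈ C \ N, ((dg G S c : ℤ) - (n - 1)) + E G N ≤
        ∑ c ∈ C \ N, ((dg G (S \ N) c : ℤ) - (n - 1)) + P := by
      have h3 : ∑ c ∈ C \ N, ((dg G S c : ℤ) - (n - 1)) =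
          ∑ c ∈ C \ N, ((dg G (S \ N) c : ℤ) - (n - 1)) + ((∑ c ∈ C \ N, dg G N c : ℕ) : ℤ) := by
        push_cast
        rw [← sum_add_distrib]
        refine sum_congr rfl fun c _ => ?_
        rw [dg_sdiff G hNS c]
        push_cast
        ring
      have h4 : ∑ c ∈ C \ N, dg G N c ≤ ∑ c ∈ S \ N, dg G N c :=
        sum_le_sum_of_subset (sdiff_subset_sdiff hC le_rfl)
      have h5 := dg_comm G (S \ N) N
      have h6 : P = ∑ z ∈ N, dg G (S \ N) z + E G N := by
        rw [hP]
        unfold E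
        rw [← sum_add_distrib]
        exact sum_congr rfl fun z _ => dg_sdiff G hNS z
      rw [h3]
      omega
    have hsum : ∑ c ∈ C, ((dg G S c : ℤ) - (n - 1)) =
        ∑ c ∈ C ∩ N, ((dg G S c : ℤ) - (n - 1)) + ∑ c ∈ C \ N, ((dg G S c : ℤ) - (n - 1)) := by
      have h3 := sum_sdiff (f := fun c => (dg G S c : ℤ) - (n - 1))
        (inter_subset_left : C ∩ N ⊆ C)
      rw [sdiff_inter_self_left] at h3
      rw [← h3, add_comm]
    -- the local inequality
    have hloc : 2 * ∑ c ∈ C ∩ N, ((dg G S c : ℤ) - (n - 1)) ≤ 2 * ((n : ℤ) + 2) * P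
        - (n + 1) * E G N - 2 * (n + 3) * n * N.card + (n + 3) * (n * (n + 1))
        + 2 * d * (N.card - n) := by
      have hdeg : ∀ z ∈ N, (N.card : ℤ) - 1 ≤ dg G S z := fun z hz => by
        have h3 := hmin z (hNS hz)
        omega
      have hcs := consec_nonneg ((N.card : ℤ) - n)
      have hcs' := consec_nonneg ((N.card : ℤ) - n - 1)
      have e1 : ((n : ℤ) + 1) * E G N ≤ (n + 1) * ((N.card : ℤ) * (N.card - 1)) :=
        mul_le_mul_of_nonneg_left hEN (by omega)
      have e2 : ((n : ℤ) + 1) * ((N.card : ℤ) * (N.card - 1)) ≤ (n + 1) * P :=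
        mul_le_mul_of_nonneg_left hPq (by omega)
      have e3 : 0 ≤ ((n : ℤ) + 3) * (((N.card : ℤ) - n) * ((N.card : ℤ) - n - 1)) :=
        mul_nonneg (by omega) hcs
      have e4 : 0 ≤ ((n : ℤ) + 1) * (((N.card : ℤ) - n - 1) * ((N.card : ℤ) - n - 1 - 1)) :=
        mul_nonneg (by omega) hcs'
      -- sums over parts of `N`
      have hsub : ∀ s : ℤ, s ≤ N.card - 1 → ∑ c ∈ C ∩ N, ((dg G S c : ℤ) - s) ≤
          P - (N.card : ℤ) * s := by
        intro s hs
        have h4 : ∑ c ∈ C ∩ N, ((dg G S c : ℤ) - s) ≤ ∑ c ∈ N, ((dg G S c : ℤ) - s) := by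
          refine sum_le_sum_of_subset_of_nonneg inter_subset_right fun c hc _ => ?_
          have := hdeg c hc
          linarith
        have h5 : ∑ c ∈ N, ((dg G S c : ℤ) - s) = P - (N.card : ℤ) * s := by
          rw [sum_sub_distrib, sum_const, nsmul_eq_mul, hP]
          push_cast
          ring
        linarith
      by_cases hqn : N.card ≤ n
      · have hqn' : (N.card : ℤ) ≤ n := by exact_mod_cast hqn
        have hD : ∑ c ∈ C ∩ N, ((dg G S c : ℤ) - (n - 1)) ≤ P - (N.card : ℤ) * (N.card - 1) := by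
          have h3 : ∑ c ∈ C ∩ N, ((dg G S c : ℤ) - (n - 1)) ≤
              ∑ c ∈ C ∩ N, ((dg G S c : ℤ) - (N.card - 1)) :=
            sum_le_sum fun c _ => by linarith
          exact h3.trans (hsub _ le_rfl)
        have e5 : 0 ≤ ((n : ℤ) - N.card) * (n + 3 - d) := mul_nonneg (by omega) (by omega)
        have e6 : 0 ≤ ((n : ℤ) + 3) * (((n : ℤ) - N.card) * ((n : ℤ) - N.card - 1)) :=
          mul_nonneg (by omega) (consec_nonneg _)
        linear_combination 2 * hD + e1 + 2 * e2 + 2 * e5 + e6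
      · have hqn' : (n : ℤ) + 1 ≤ N.card := by exact_mod_cast not_le.1 hqn
        have e7 : 0 ≤ 2 * (d : ℤ) * (N.card - n) := mul_nonneg (by omega) (by omega)
        by_cases hcl : Clq G N
        · -- `N` is a clique
          have hg : (C ∩ N).card ≤ d := by
            by_contra hlt
            obtain ⟨Y, hY, hYc⟩ := exists_subset_card_eq (show d + 1 ≤ (C ∩ N).card by omega)
            obtain ⟨K, hK1, hK2, hK3⟩ := exists_subsuperset_card_eq (hY.trans inter_subset_right)
              (show Y.card ≤ n + 1 by omega) (show n + 1 ≤ N.card by omega)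
            have h3 := hK K (hK2.trans hNS)
              (fun x hx y hy hxy => hcl x (hK2 hx) y (hK2 hy) hxy) hK3
            have h4 : Y ⊆ K ∩ C := fun y hy =>
              mem_inter.2 ⟨hK1 hy, (mem_inter.1 (hY hy)).1⟩
            have h5 := card_le_card h4
            omega
          have hg' : ((C ∩ N).card : ℤ) ≤ d := by exact_mod_cast hg
          have hD : ∑ c ∈ C ∩ N, ((dg G S c : ℤ) - (n - 1)) ≤
              P - (N.card : ℤ) * (N.card - 1) + d * (N.card - n) := by
            have h3 : ∑ c ∈ C ∩ N, ((dg G S c : ℤ) - (n - 1)) =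
                ∑ c ∈ C ∩ N, ((dg G S c : ℤ) - (N.card - 1)) +
                  (C ∩ N).card * ((N.card : ℤ) - n) := by
              rw [← nsmul_eq_mul, ← sum_const, ← sum_add_distrib]
              exact sum_congr rfl fun c _ => by ring
            have h4 := hsub _ (le_refl ((N.card : ℤ) - 1))
            have h5 : ((C ∩ N).card : ℤ) * ((N.card : ℤ) - n) ≤ d * (N.card - n) :=
              mul_le_mul_of_nonneg_right hg' (by omega)
            linarith
          nlinarith
        · have h3 := E_add_two_le G hcl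
          have hD := hsub ((n : ℤ) - 1) (by omega)
          have e5 : ((n : ℤ) + 1) * (E G N + 2) ≤ (n + 1) * ((N.card : ℤ) * (N.card - 1)) :=
            mul_le_mul_of_nonneg_left h3 (by omega)
          nlinarith
    have hcard : ((S \ N).card : ℤ) = S.card - N.card := by
      have := card_sdiff_add_card_eq_card hNS
      omega
    have h2' : (E G (S \ N) : ℤ) = E G S + E G N - 2 * P := by
      omega
    rw [hcard, h2'] at h1
    rw [hsum]
    push_cast
    nlinarith

/-- the partial cap and the rigidity inequality with the same number of exceptional colours -/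
def RigD (G : SimpleGraph V) (r : ℕ) : Prop :=
  ∀ (n : ℕ) (S : Finset V), 1 ≤ n → S.card = n * r + 1 →
    ∃ F : Finset (Finset V), (∀ K ∈ F, K ⊆ S ∧ Ind G K ∧ K.card = n + 1) ∧
      (∀ K ∈ F, ∀ L ∈ F, K ≠ L → (K ∩ L).card ≤ 1) ∧ F.card + 1 ≤ r ∧
      ((r : ℤ) - 1) * (r * n * (n - 1) + 4 * n - 2) - 2 * (n - 1) * F.card ≤ NE G S ∧
      ∀ (d : ℕ) (C : Finset V), d ≤ n → C ⊆ S →
        (∀ I : Finset V, I ⊆ S → Ind G I → I.card = n + 1 → (I ∩ C).card ≤ d) →
        2 * ∑ x ∈ C, (nd G S x : ℤ) ≤ 2 * ((n : ℤ) - 1) * (r - 1) * C.card +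
          (n + 3) * (NE G S - (r - 1) * (r * n * (n - 1) + 2 * n)) + 2 * d * F.card

/-- the colour classes have the rigidity property with defect -/
theorem rigD_col {r : ℕ} {c : V → V → Fin r} {hc : ∀ x y, c x y = c y x} (hs : Sees c)
    (k : Fin r) : RigD (col c hc k) r := by
  intro n S hn hcard
  set bad : Finset (Fin r) := (univ.erase k).filter
    (fun j => ∃ K ⊆ S, Clq (col c hc j) K ∧ K.card = n + 1) with hbad
  have hex : ∀ j : Fin r, ∃ K : Finset V, j ∈ bad →
      K ⊆ S ∧ Clq (col c hc j) K ∧ K.card = n + 1 := by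
    intro j
    by_cases hj : j ∈ bad
    · obtain ⟨K, h1, h2, h3⟩ := (mem_filter.1 hj).2
      exact ⟨K, fun _ => ⟨h1, h2, h3⟩⟩
    · exact ⟨∅, fun h => absurd h hj⟩
  choose f hf using hex
  have hne : ∀ j ∈ bad, j ≠ k := fun j hj => ne_of_mem_erase (mem_filter.1 hj).1
  have hint : ∀ i ∈ bad, ∀ j ∈ bad, i ≠ j → (f i ∩ f j).card ≤ 1 := by
    intro i hi j hj hij
    by_contra hcon
    push Not at hcon
    obtain ⟨x, hx, y, hy, hxy⟩ := one_lt_card.1 hcon
    rw [mem_inter] at hx hy
    have h1 : x ≠ y ∧ c x y = i := (hf i hi).2.1 x hx.1 y hy.1 hxy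
    have h2 : x ≠ y ∧ c x y = j := (hf j hj).2.1 x hx.2 y hy.2 hxy
    exact hij (h1.2.symm.trans h2.2)
  have hinj : ∀ i ∈ bad, ∀ j ∈ bad, f i = f j → i = j := by
    intro i hi j hj hij
    by_contra hne'
    have h1 := hint i hi j hj hne'
    rw [← hij, inter_self, (hf i hi).2.2] at h1
    omega
  have hcF : (bad.image f).card = bad.card := card_image_of_injOn fun i hi j hj hij =>
    hinj i hi j hj hij
  have hbr : bad.card + 1 ≤ r := by
    have h1 := card_le_card (filter_subset (fun j => ∃ K ⊆ S, Clq (col c hc j) K ∧ K.card = n + 1)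
      (univ.erase k))
    rw [card_erase_of_mem (mem_univ k), card_univ, Fintype.card_fin] at h1
    have h2 : 0 < r := k.pos
    have h3 : bad.card ≤ r - 1 := h1
    omega
  have hr1 : (((univ.erase k : Finset (Fin r)).card : ℕ) : ℤ) = r - 1 := by
    rw [card_erase_of_mem (mem_univ k), card_univ, Fintype.card_fin]
    have : 0 < r := k.pos
    omega
  have hcz : (S.card : ℤ) = n * r + 1 := by exact_mod_cast hcard
  have hfb : (univ.erase k).filter (fun j => j ∈ bad) = bad := by
    ext j
    rw [mem_filter]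
    exact ⟨fun h => h.2, fun h => ⟨(mem_filter.1 h).1, h⟩⟩
  refine ⟨bad.image f, ?_, ?_, by rw [hcF]; exact hbr, ?_, ?_⟩
  · intro K hK
    obtain ⟨j, hj, rfl⟩ := mem_image.1 hK
    obtain ⟨h1, h2, h3⟩ := hf j hj
    exact ⟨h1, clq_ind hc (hne j hj).symm h2, h3⟩
  · intro K hK L hL hKL
    obtain ⟨i, hi, rfl⟩ := mem_image.1 hK
    obtain ⟨j, hj, rfl⟩ := mem_image.1 hL
    exact hint i hi j hj fun h => hKL (by rw [h])
  · rw [hcF]
    have hlow : ∀ j : Fin r, j ≠ k →
        ((r : ℤ) * n * (n - 1) + 4 * n - 2) - (if j ∈ bad then 2 * ((n : ℤ) - 1) else 0)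
          ≤ E (col c hc j) S := by
      intro j hj
      split_ifs with h
      · have h1 := E_lower_q (col c hc j) (n : ℤ) r S (alpha_le hc hs j S)
        rw [hcz] at h1
        have e1 : 2 * (n : ℤ) * (n * r + 1) - r * n * (n + 1)
          = (r : ℤ) * n * (n - 1) + 4 * n - 2 - 2 * ((n : ℤ) - 1) := by ring
        linarith
      · have h1 := brou (G := col c hc j) n r 0 S (alpha_le hc hs j S) (fun K hK hq => by
          by_contra hlt
          obtain ⟨K', hK', hKc'⟩ := exists_subset_card_eq (show n + 1 ≤ K.card by omega)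
          refine h (mem_filter.2 ⟨mem_erase.2 ⟨hj, mem_univ j⟩, K', hK'.trans hK, ?_, hKc'⟩)
          exact fun x hx y hy => hq x (hK' hx) y (hK' hy)) (by rw [hcard])
        push_cast at h1
        linarith
    have h1 := E_upper_sum hc k S _ hlow
    have h2 : ∑ j ∈ univ.erase k, (((r : ℤ) * n * (n - 1) + 4 * n - 2)
        - (if j ∈ bad then 2 * ((n : ℤ) - 1) else 0))
        = ((r : ℤ) - 1) * (r * n * (n - 1) + 4 * n - 2) - 2 * ((n : ℤ) - 1) * bad.card := by
      rw [sum_sub_distrib, sum_const, ← sum_filter, hfb, sum_const, nsmul_eq_mul, nsmul_eq_mul,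
        hr1]
      ring
    rw [h2] at h1
    have h3 := E_add_NE (G := col c hc k) S
    linarith
  · intro d C hd hCS hI
    rw [hcF]
    have h1 : ∀ j ∈ (univ.erase k : Finset (Fin r)),
        2 * ∑ x ∈ C, ((dg (col c hc j) S x : ℤ) - (n - 1)) ≤
        ((n : ℤ) + 3) * (E (col c hc j) S - 2 * n * S.card + r * (n * (n + 1))) +
          (if j ∈ bad then 2 * (d : ℤ) else 0) := by
      intro j hj
      split_ifs with h
      · have h3 := rigd (col c hc j) n d hd r S C (alpha_le hc hs j S) hCS
          (fun K hK hKq hKc => hI K hK (clq_ind hc (ne_of_mem_erase hj).symm hKq) hKc)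
        rw [hcz] at h3 ⊢
        linarith
      · have h3 := rig (col c hc j) n r S C (alpha_le hc hs j S) hCS
          (fun K hK hKq hKc => absurd (mem_filter.2 ⟨hj, K, hK, hKq, hKc⟩) h)
        linarith
    have h2 := sum_le_sum h1
    rw [← mul_sum, sum_comm] at h2
    have h3 : ∀ x ∈ C, ∑ j ∈ (univ.erase k : Finset (Fin r)),
        ((dg (col c hc j) S x : ℤ) - (n - 1)) = nd (col c hc k) S x - (r - 1) * (n - 1) := by
      intro x hx
      have h4 := sum_dg hc S (hCS hx)
      have h5 := dg_add_nd (G := col c hc k) (hCS hx)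
      rw [← add_sum_erase univ _ (mem_univ k)] at h4
      rw [sum_sub_distrib, sum_const, nsmul_eq_mul, hr1]
      have h6 : ((∑ j ∈ univ.erase k, dg (col c hc j) S x : ℕ) : ℤ) = nd (col c hc k) S x := by
        omega
      rw [← h6]
      push_cast
      ring
    rw [sum_congr rfl h3, sum_sub_distrib, sum_const, nsmul_eq_mul] at h2
    have h4 : ∑ j ∈ (univ.erase k : Finset (Fin r)),
        (((n : ℤ) + 3) * ((E (col c hc j) S : ℤ) - 2 * n * S.card + r * (n * (n + 1))) +
          (if j ∈ bad then 2 * (d : ℤ) else 0)) =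
        (n + 3) * (NE (col c hc k) S - (r - 1) * (r * n * (n - 1) + 2 * n)) +
          2 * d * bad.card := by
      have h5 := sum_E_int hc S
      rw [← add_sum_erase univ _ (mem_univ k)] at h5
      have h6 := E_add_NE (G := col c hc k) S
      rw [sum_add_distrib, ← mul_sum, sum_add_distrib, sum_sub_distrib, sum_const, sum_const,
        ← sum_filter, hfb, sum_const, nsmul_eq_mul, nsmul_eq_mul, nsmul_eq_mul, hr1]
      have h7 : ∑ j ∈ univ.erase k, (E (col c hc j) S : ℤ) = NE (col c hc k) S := by linarith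
      rw [h7, hcz]
      ring
    rw [h4] at h2
    linarith

end RigDef

section JRig

variable {V : Type*} {G : SimpleGraph V} {r j : ℕ} {Z T A S : Finset V}

/-- class points of a `j`-closed system: an independent set with more than `|A|` points has at most
`|A| - j` of them -/
lemma JSys.ind_class (h : JSys G Z T j A S) {d : ℕ} (hd : A.card ≤ d + j) {C : Finset V}
    (hCB : ∀ x ∈ C, x ∉ BB G Z T) {I : Finset V} (hI : I ⊆ S) (hIi : Ind G I)
    (hIc : I.card = A.card + 1) : (I ∩ C).card ≤ d := by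
  by_contra hlt
  have h1 : (I.filter fun v => v ∈ BB G Z T).card ≤ j := by
    have h2 : (I ∩ C) ⊆ I.filter fun v => ¬ v ∈ BB G Z T := fun x hx =>
      mem_filter.2 ⟨(mem_inter.1 hx).1, hCB x (mem_inter.1 hx).2⟩
    have h3 := card_le_card h2
    have h4 := card_filter_add_card_filter_not (s := I) (fun v => v ∈ BB G Z T)
    omega
  have h2 := h.ind I hI hIi h1
  have h3 : (rwsU G T I ∩ A).card ≤ A.card := card_le_card inter_subset_right
  omega

/-- **(RG)** for a `j`-closed system with `n = |A|` rows and `n r + 1` points, `d = n - j` -/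
theorem JSys.rg (hR : RigD G r) (h : JSys G Z T j A S) (hn : 1 ≤ A.card)
    (hS : S.card = A.card * r + 1) {d : ℕ} (hd : A.card ≤ d + j) (hdn : d ≤ A.card) :
    ∃ κ : ℕ, κ + 1 ≤ r ∧
      ((r : ℤ) - 1) * (r * A.card * (A.card - 1) + 4 * A.card - 2) - 2 * (A.card - 1) * κ ≤
        NE G S ∧
      ∀ C : Finset V, C ⊆ S → (∀ x ∈ C, x ∉ BB G Z T) →
        2 * ∑ x ∈ C, (nd G S x : ℤ) ≤ 2 * ((A.card : ℤ) - 1) * (r - 1) * C.card +
          (A.card + 3) * (NE G S - (r - 1) * (r * A.card * (A.card - 1) + 2 * A.card)) +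
            2 * d * κ := by
  obtain ⟨F, -, -, h3, h4, h5⟩ := hR A.card S hn hS
  exact ⟨F.card, h3, h4, fun C hC hCB => h5 d C hdn hC fun I hI hIi hIc =>
    h.ind_class hd hCB hI hIi hIc⟩

/-- (RG) in terms of the degrees: `dg c` is at least `r + n - 1` on the average, up to the slack -/
theorem JSys.rg_dg (hR : RigD G r) (h : JSys G Z T j A S) (hn : 1 ≤ A.card)
    (hS : S.card = A.card * r + 1) {d : ℕ} (hd : A.card ≤ d + j) (hdn : d ≤ A.card) :
    ∃ κ : ℕ, κ + 1 ≤ r ∧
      ((r : ℤ) - 1) * (r * A.card * (A.card - 1) + 4 * A.card - 2) - 2 * (A.card - 1) * κ ≤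
        NE G S ∧
      ∀ C : Finset V, C ⊆ S → (∀ x ∈ C, x ∉ BB G Z T) →
        2 * ∑ x ∈ C, ((r : ℤ) + A.card - 1 - dg G S x) ≤
          (A.card + 3) * (NE G S - (r - 1) * (r * A.card * (A.card - 1) + 2 * A.card)) +
            2 * d * κ := by
  obtain ⟨κ, h1, h2, h3⟩ := h.rg hR hn hS hd hdn
  refine ⟨κ, h1, h2, fun C hC hCB => ?_⟩
  have h4 := h3 C hC hCB
  have h5 : ∑ x ∈ C, ((r : ℤ) + A.card - 1 - dg G S x) =
      ∑ x ∈ C, (nd G S x : ℤ) - ((A.card : ℤ) - 1) * (r - 1) * C.card := by
    have h6 : ∀ x ∈ C, ((r : ℤ) + A.card - 1 - dg G S x) =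
        nd G S x - ((A.card : ℤ) - 1) * (r - 1) := by
      intro x hx
      have h7 := dg_add_nd (G := G) (hC hx)
      have h8 : (dg G S x : ℤ) + nd G S x + 1 = A.card * r + 1 := by
        rw [hS] at h7
        exact_mod_cast h7
      linear_combination -h8
    rw [sum_congr rfl h6, sum_sub_distrib, sum_const, nsmul_eq_mul]
    ring
  rw [h5]
  linarith

end JRig

end Pool.Agent.Lib.MP_f04ccf_co
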