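import Pool.Agent.Lib.MP_f04ccf_co.M.Fin3
import Pool.Agent.Lib.MP_f04ccf_co.M.AlfM
import Pool.Agent.Lib.MP_f04ccf_co.M.Rig
import Pool.Agent.Lib.MP_f04ccf_co.M.RigD
import Pool.Agent.Lib.MP_f04ccf_co.M.TB
import Pool.Agent.Lib.MP_f04ccf_co.M.R8
import Pool.Agent.Lib.MP_f04ccf_co.M.PW
import Pool.Agent.Lib.MP_f04ccf_co.M.PCap
import Pool.Agent.Lib.MP_f04ccf_co.M.Enum
import Pool.Agent.Lib.MP_f04ccf_co.M.N2H

/-!
MP_f04ccf_co: assembly (E7).  `GP G r`: the properties which every colour of a colouring with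
`Sees` has: (P), (PM), (PW), the cap, the partial cap, the rigidity (two forms).  `FCore`: a frame with `m ≤ r`
and `m + 4 ≤ r + t` in such a graph, `9 ≤ r`.  `Core`: together with a minimal `j`-closed system
(`2 ≤ j`, at least three rows; four when `3 ≤ j`) and homes of least weight.
`final_of_core`: the frozen statement from
the absence of one of them at every `r ≥ 9` (`r = 7`, `r = 8`: `good_seven`, `good_eight`).
`Core.bi`: the basic integers in sorted order.
-/

set_option autoImplicit false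

namespace Pool.Agent.Lib.MP_f04ccf_co

open Finset

attribute [local instance] Classical.propDecidable

section Asm

variable {V : Type*} {G : SimpleGraph V} {Z T : Finset V} {hm : V → V} {r m t j : ℕ}

/-- a `3`-closed minimal system has not exactly three rows -/
theorem MQSys.card_ne_three (hr : 8 ≤ r) (hP : PG G r) (hR : RigP G r) (hF : S2 G r m t Z T)
    (hm : m ≤ r) (hj : 3 ≤ j) {A S : Finset V} (h : MQSys r (JSys G Z T j) A S) :
    A.card ≠ 3 := by
  intro h3
  have h1 := HSys.card_ne_three_rig hr hP hR hF hm (h.q.hsys hF.toPFrame (by omega)) h3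
    (fun I hI hIi hI3 => by
      have h2 : I ∩ BB G Z T = I.filter fun v => v ∈ BB G Z T := by
        ext v
        simp only [mem_inter, mem_filter]
      have h4 := h.q.ind I hI hIi (by rw [h2]; omega)
      exact h4.trans ((card_le_card inter_subset_right).trans h3.le))
  have h2 := h.val
  rw [h3] at h2
  omega

/-- **a minimal `j`-closed system has at least three rows** (`2 ≤ j`) -/
theorem MQSys.three_le2 (hr : 7 ≤ r) (hP : PG G r) (hF : S2 G r m t Z T) (hm : m ≤ r)
    (hj : 2 ≤ j) {A S : Finset V} (h : MQSys r (JSys G Z T j) A S) : 3 ≤ A.card := by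
  have h2 := h.two
  by_contra hcon
  have h3 : A.card = 2 := by omega
  have h4 := (h.q.hsys hF.toPFrame hj).card_ne_two (by omega) hP hF hm h3
  have h5 := h.val
  rw [h3] at h5
  omega

/-- **a minimal `j`-closed system has at least four rows** (`3 ≤ j`) -/
theorem MQSys.four_le' (hr : 8 ≤ r) (hP : PG G r) (hR : RigP G r) (hF : S2 G r m t Z T)
    (hm : m ≤ r) (hj : 3 ≤ j) {A S : Finset V} (h : MQSys r (JSys G Z T j) A S) :
    4 ≤ A.card := by
  have h1 := h.three_le' (by omega) hP hF hj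
  have h2 := h.card_ne_three hr hP hR hF hm hj
  omega

/-- **a minimal `j`-closed system has at least five rows** (`5 ≤ j`) -/
theorem MQSys.five_le (hr : 8 ≤ r) (hP : PG G r) (hC : CAP G r) (hF : S2 G r m t Z T)
    (hj : 5 ≤ j) {A S : Finset V} (h : MQSys r (JSys G Z T j) A S) : 5 ≤ A.card := by
  have h1 := h.four_le (by omega) hP hF (by omega)
  by_contra hcon
  have h2 : A.card = 4 := by omega
  have h3 := h.q.alpha (by omega)
  rw [h2] at h3
  have h4 := hP.level4 hr hC h3
  have h5 := h.val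
  rw [h2] at h5
  omega

variable (G r) in
/-- the properties of the graph of one colour -/
structure GP : Prop where
  P : PG G r
  M : PM G r
  W : PW G r
  cap : CAP G r
  pcap : PCAP G r
  rig : RigP G r
  rigd : RigD G r

lemma GP_col {c : V → V → Fin r} {hc : ∀ x y, c x y = c y x} (hs : Sees c) (k : Fin r) :
    GP (col c hc k) r :=
  ⟨PG_col (hc := hc) hs k, PM_col hc hs k, PW_col hc hs k, CAP_col hc hs k, PCAP_col hc hs k,
    rigP_col (hc := hc) hs k, rigD_col (hc := hc) hs k⟩

variable (G Z T r m t) in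
/-- the frames of the last step -/
structure FCore : Prop where
  hr : 9 ≤ r
  gp : GP G r
  F : S2 G r m t Z T
  hmr : m ≤ r
  hmt : m + 4 ≤ r + t

lemma FCore.five_t (h : FCore G Z T r m t) : 5 ≤ t :=
  S2.five_le (by have := h.hr; omega) h.gp.P h.gp.cap h.F

lemma FCore.alpha (h : FCore G Z T r m t) : AlphaLe G Z t := h.F.alpha

variable (G Z T r m t j) in
/-- all the data of the last step: a minimal `j`-closed system with homes of least weight
(weights `p`, `1`) in a frame of a graph with the properties `GP` -/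
structure Core (p : ℕ) (A S : Finset V) (hm : V → V) : Prop extends FCore G Z T r m t where
  hj : 2 ≤ j
  Q : MQSys r (JSys G Z T j) A S
  three : 3 ≤ A.card
  H : WHomes G Z T p 1 A S hm

section CoreL

variable {p : ℕ} {A S : Finset V}

lemma Core.jsys (h : Core G Z T r m t j p A S hm) : JSys G Z T j A S := h.Q.q

lemma Core.hsys (h : Core G Z T r m t j p A S hm) : HSys G Z T A S :=
  h.Q.q.hsys h.F.toPFrame (by have := h.hj; omega)

lemma Core.hered (h : Core G Z T r m t j p A S hm) : Hered G Z T (JSys G Z T j) :=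
  hered_jsys h.F.toPFrame (by have := h.hj; omega)

lemma Core.four (h : Core G Z T r m t j p A S hm) (hj : 3 ≤ j) : 4 ≤ A.card :=
  h.Q.four_le' (by have := h.hr; omega) h.gp.P h.gp.rig h.F h.hmr hj

lemma Core.five (h : Core G Z T r m t j p A S hm) (hj : 5 ≤ j) : 5 ≤ A.card :=
  h.Q.five_le (by have := h.hr; omega) h.gp.P h.gp.cap h.F hj

/-- the basic integers in sorted order -/
theorem Core.bi (h : Core G Z T r m t j p A S hm) :
    ∃ (ρ : V → ℕ) (σ : ℕ → V), Rank A (tI G Z T hm r S) ρ σ ∧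
      BI ((r : ℤ) - 1) A.card (fun i => tI G Z T hm r S (σ i)) (fun i => sI hm r S (σ i))
        (fun i => hI G Z T hm S (σ i)) (fun i => eI G hm S (σ i))
        (fun i j => EI G hm S (σ i) (σ j)) :=
  h.Q.bi h.F h.hered h.gp.P h.gp.M h.hmr h.H.ok

end CoreL

/-- **the frozen statement from the absence of frames or of minimal `j`-closed systems** -/
theorem final_of_core (J p : ℕ → ℕ) (hJ : ∀ r, 9 ≤ r → 2 ≤ J r)
    (hS : ∀ (r : ℕ), 9 ≤ r →
      (∀ (G : SimpleGraph (Fin (r ^ 2 + 1))) (m t : ℕ) (Z T : Finset (Fin (r ^ 2 + 1))),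
        ¬ FCore G Z T r m t) ∨
      ∀ (G : SimpleGraph (Fin (r ^ 2 + 1))) (m t : ℕ)
        (Z T A S : Finset (Fin (r ^ 2 + 1))) (hm : Fin (r ^ 2 + 1) → Fin (r ^ 2 + 1)),
        ¬ Core G Z T r m t (J r) (p r) A S hm) :
    ∀ r : ℕ, 3 ≤ r → ∀ c : Fin (r ^ 2 + 1) → Fin (r ^ 2 + 1) → Fin r,
      (∀ x y, c x y = c y x) →
      ∃ S : Finset (Fin (r ^ 2 + 1)), S.card = r + 1 ∧
        ∃ k : Fin r, ∀ x ∈ S, ∀ y ∈ S, x ≠ y → c x y ≠ k := by
  refine final_of_frames_col ?_
  intro r hr c hc hs k m t Z T h1 h2 hF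
  rcases Nat.lt_or_ge 8 r with h9 | h9
  · have hC : FCore (col c hc k) Z T r m t := ⟨h9, GP_col hs k, hF, h1, h2⟩
    rcases hS r h9 with hS | hS
    · exact hS _ m t Z T hC
    · obtain ⟨A, S, hA⟩ := hF.exists_mjsys (j := J r) (by omega) (by have := hJ r h9; omega)
      obtain ⟨hm, hH⟩ := (hA.q.hsys hF.toPFrame (by have := hJ r h9; omega)).exists_whomes (p r) 1
      exact hS _ m t Z T A S hm ⟨hC, hJ r h9, hA,
        hA.three_le2 (by omega) hC.gp.P hF h1 (hJ r h9), hH⟩
  · obtain rfl : r = 8 := by omega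
    obtain ⟨S, hSc, k, hk⟩ := good_eight c hc
    obtain ⟨x, hx, y, hy, hxy, h⟩ := hs S hSc k
    exact hk x hx y hy hxy h

end Asm

end Pool.Agent.Lib.MP_f04ccf_co
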