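import Pool.Agent.Lib.MP_f04ccf_co.M.PCon

/-!
MP_f04ccf_co, TEXT D: **the unit system of all items** (full, PC, half units, cliques, doubled ends) over
the contract `PCon`.

* `LevC`: levels `g i u` with sum `vl u`, the cut end `f u` (worst for a given order `φ u`);
  `PCon.exists_lev`: they exist.
* `unV`: the units `(u, i, j)`, `j < g i u` (item, main end, index); `unC`: the counted rows, the main end,
  for the items `P` (value one, two ends) also the cut end; `LevC.val`, `LevC.rows`, `LevC.load`.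
* `unb`: the misses of a unit at its main end; `LevC.sum_g`, `LevC.sum_mis`, `LevC.sum_pts`: the sums over
  the used items in the row tests as sums over the units; `LevC.hits`: the hits of the hosted items.
* `LevC.utyp`: the types of the units, the product of the misses of the main end and of the cut end;
  `LevC.half`: the items of value one with two ends.
-/

set_option autoImplicit false

namespace Pool.Agent.Lib.MP_f04ccf_co

open Finset

attribute [local instance] Classical.propDecidable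

section UnitL

variable {ι : Type*} {R : ℤ} {n : ℕ} {t s mu : ℕ → ℤ} {U : Finset ι} {ho : ι → ℕ} {vl : ι → ℤ}
  {kp mn : ℕ → ι → ℤ} {pc ar : ι → ℤ} {be kq NN sg : ℕ → ℕ → ℤ} {nu : ℕ → ι → ℤ}

/-- **levels**: `g i u` pieces of the item `u` are used at the row `i`, `f u` is the cut end (for a full
item or a PC item: its only end) -/
structure LevC (n : ℕ) (U : Finset ι) (ho : ι → ℕ) (vl : ι → ℤ) (kp mn : ℕ → ι → ℤ) (pc : ι → ℤ)
    (φ : ι → ℕ → ℤ) (g : ℕ → ι → ℕ) (f : ι → ℕ) : Prop where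
  le : ∀ u ∈ U, ∀ i < n, (g i u : ℤ) ≤ kp i u
  sum : ∀ u ∈ U, ∑ i ∈ range n, (g i u : ℤ) = vl u
  home : ∀ u ∈ U, g (ho u) u = 0
  fn : ∀ u ∈ U, f u < n
  fh : ∀ u ∈ U, f u ≠ ho u
  f1 : ∀ u ∈ U, 1 ≤ kp (f u) u
  typ : ∀ u ∈ U, (vl u = 1 ∧ g (f u) u = 1 ∧ kp (f u) u = 1 ∧ mn (f u) u = 0 ∧
      ∀ j < n, j ≠ f u → kp j u = 0) ∨
    (pc u = 0 ∧ (g (f u) u : ℤ) + 1 = kp (f u) u ∧ (∀ i < n, i ≠ f u → (g i u : ℤ) = kp i u) ∧
      ∀ i < n, kp i u ≠ 0 → φ u i ≤ φ u (f u))

/-- the types: full (one end, no misses) or one end too many, with a worst end for any order -/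
theorem PCon.cut (H : PCon R n t s mu U ho vl kp mn pc ar be kq NN sg nu) {u : ι} (hu : u ∈ U)
    (φ : ℕ → ℤ) :
    (∃ i < n, kp i u = 1 ∧ vl u = 1 ∧ mn i u = 0 ∧ ∀ j < n, j ≠ i → kp j u = 0) ∨
    (pc u = 0 ∧ ∑ i ∈ range n, kp i u = vl u + 1 ∧
      ∃ f < n, 1 ≤ kp f u ∧ ∀ i < n, kp i u ≠ 0 → φ i ≤ φ f) := by
  rcases H.one u hu with h1 | ⟨h1, h2⟩
  · exact Or.inl h1
  · refine Or.inr ⟨h1, h2, ?_⟩
    have hne : ((range n).filter fun i => kp i u ≠ 0).Nonempty := by
      by_contra hcon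
      rw [not_nonempty_iff_eq_empty] at hcon
      have h3 : ∑ i ∈ range n, kp i u = 0 := sum_eq_zero fun i hi => by
        by_contra h4
        exact notMem_empty i (hcon ▸ mem_filter.2 ⟨hi, h4⟩)
      have h4 := H.v1 u hu
      linarith
    obtain ⟨f, hf, hmax⟩ := exists_max_image _ φ hne
    obtain ⟨f1, f2⟩ := mem_filter.1 hf
    have f3 := mem_range.1 f1
    refine ⟨f, f3, ?_, fun i hi h3 => hmax i (mem_filter.2 ⟨mem_range.2 hi, h3⟩)⟩
    have h3 := H.k0 u hu f f3
    omega

/-- **the levels exist**, the cut end is the worst one for any order `φ u` -/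
theorem PCon.exists_lev (H : PCon R n t s mu U ho vl kp mn pc ar be kq NN sg nu) (φ : ι → ℕ → ℤ) :
    ∃ g f, LevC n U ho vl kp mn pc φ g f := by
  have h1 : ∀ u : ι, ∃ (g : ℕ → ℕ) (f : ℕ), u ∈ U → (∀ i < n, (g i : ℤ) ≤ kp i u) ∧
      ∑ i ∈ range n, (g i : ℤ) = vl u ∧ f < n ∧ 1 ≤ kp f u ∧
      ((vl u = 1 ∧ g f = 1 ∧ kp f u = 1 ∧ mn f u = 0 ∧ ∀ j < n, j ≠ f → kp j u = 0) ∨
       (pc u = 0 ∧ (g f : ℤ) + 1 = kp f u ∧ (∀ i < n, i ≠ f → (g i : ℤ) = kp i u) ∧
        ∀ i < n, kp i u ≠ 0 → φ u i ≤ φ u f)) := by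
    intro u
    by_cases hu : u ∈ U
    · rcases H.cut hu (φ u) with ⟨i, hi, h1, h2, h3, h4⟩ | ⟨h1, h2, f, hf, h3, h4⟩
      · refine ⟨fun j => if j = i then 1 else 0, i, fun _ => ⟨fun j hj => ?_, ?_, hi, ?_, Or.inl
          ⟨h2, if_pos rfl, h1, h3, h4⟩⟩⟩
        · show (((if j = i then 1 else 0 : ℕ)) : ℤ) ≤ kp j u
          by_cases h5 : j = i
          · rw [if_pos h5, h5, h1]
            rfl
          · rw [if_neg h5]
            exact H.k0 u hu j hj
        · show ∑ j ∈ range n, ((if j = i then 1 else 0 : ℕ) : ℤ) = vl u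
          have h5 : ∀ j ∈ range n, ((if j = i then 1 else 0 : ℕ) : ℤ) = if j = i then 1 else 0 := by
            intro j _
            by_cases h6 : j = i
            · rw [if_pos h6, if_pos h6]
              rfl
            · rw [if_neg h6, if_neg h6]
              rfl
          rw [sum_congr rfl h5, sum_ite_eq' (range n) i, if_pos (mem_range.2 hi), h2]
        · rw [h1]
      · refine ⟨fun i => (kp i u - if i = f then 1 else 0).toNat, f, fun _ => ⟨fun i hi => ?_, ?_,
          hf, h3, Or.inr ⟨h1, ?_, fun i hi h5 => ?_, h4⟩⟩⟩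
        · have h5 := H.k0 u hu i hi
          show (((kp i u - if i = f then 1 else 0).toNat : ℕ) : ℤ) ≤ kp i u
          by_cases h6 : i = f
          · rw [if_pos h6, h6]
            omega
          · rw [if_neg h6]
            omega
        · have h5 : ∀ i ∈ range n, (((kp i u - if i = f then 1 else 0).toNat : ℕ) : ℤ)
              = kp i u - if i = f then 1 else 0 := by
            intro i hi
            have h6 := H.k0 u hu i (mem_range.1 hi)
            refine Int.toNat_of_nonneg ?_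
            by_cases h7 : i = f
            · rw [if_pos h7, h7]
              linarith
            · rw [if_neg h7]
              linarith
          show ∑ i ∈ range n, (((kp i u - if i = f then 1 else 0).toNat : ℕ) : ℤ) = vl u
          rw [sum_congr rfl h5, sum_sub_distrib, h2, sum_ite_eq' (range n) f,
            if_pos (mem_range.2 hf)]
          ring
        · show (((kp f u - if f = f then 1 else 0).toNat : ℕ) : ℤ) + 1 = kp f u
          rw [if_pos rfl]
          omega
        · have h6 := H.k0 u hu i hi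
          show (((kp i u - if i = f then 1 else 0).toNat : ℕ) : ℤ) = kp i u
          rw [if_neg h5]
          omega
    · exact ⟨fun _ => 0, 0, fun h2 => absurd h2 hu⟩
  choose g f hg using h1
  refine ⟨fun i u => g u i, f, fun u hu => (hg u hu).1, fun u hu => (hg u hu).2.1, fun u hu => ?_,
    fun u hu => (hg u hu).2.2.1, fun u hu h2 => ?_, fun u hu => (hg u hu).2.2.2.1,
    fun u hu => (hg u hu).2.2.2.2⟩
  · have h2 := (hg u hu).1 (ho u) (H.hlt u hu)
    rw [H.kh u hu] at h2
    show g u (ho u) = 0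
    omega
  · have h3 := (hg u hu).2.2.2.1
    rw [h2, H.kh u hu] at h3
    exact absurd h3 (by norm_num)

/-- **the units**: item, main end, index -/
noncomputable def unV (n : ℕ) (U : Finset ι) (g : ℕ → ι → ℕ) : Finset (ι × ℕ × ℕ) :=
  (U ×ˢ (range n ×ˢ range 3)).filter fun v => v.2.2 < g v.2.1 v.1

/-- the counted rows of a unit: the main end, for the items `P` also the cut end -/
noncomputable def unC (P : ι → Prop) (f : ι → ℕ) (v : ι × ℕ × ℕ) : Finset ℕ :=
  if P v.1 then {v.2.1, f v.1} else {v.2.1}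

/-- the misses of a unit at its main end: the last piece of an end used at its full level -/
noncomputable def unb (kp mn : ℕ → ι → ℤ) (g : ℕ → ι → ℕ) (v : ι × ℕ × ℕ) : ℤ :=
  if kp v.2.1 v.1 ≤ (g v.2.1 v.1 : ℤ) ∧ v.2.2 + 1 = g v.2.1 v.1 then mn v.2.1 v.1 else 0

/-- sums over the units with main end `i` -/
lemma unit_fib {M : Type*} [AddCommMonoid M] {g : ℕ → ι → ℕ}
    (hg : ∀ u ∈ U, ∀ i < n, g i u ≤ 2) {K : Finset ι} (hK : K ⊆ U) {i : ℕ} (hi : i < n)
    (F : ι × ℕ × ℕ → M) :
    ∑ v ∈ (unV n U g).filter (fun v => v.1 ∈ K ∧ v.2.1 = i), F v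
      = ∑ u ∈ K, ∑ j ∈ range (g i u), F (u, i, j) := by
  have h1 : ∀ u ∈ K, ∑ j ∈ range (g i u), F (u, i, j)
      = ∑ v ∈ ((unV n U g).filter (fun v => v.1 ∈ K ∧ v.2.1 = i)).filter (fun v => v.1 = u),
        F v := by
    intro u hu
    refine sum_bij' (fun j _ => (u, i, j)) (fun v _ => v.2.2) ?_ ?_ ?_ ?_ ?_
    · intro j hj
      have h2 := mem_range.1 hj
      have h3 := hg u (hK hu) i hi
      simp only [unV, mem_filter, mem_product, mem_range]
      exact ⟨⟨⟨⟨hK hu, hi, by omega⟩, h2⟩, hu, trivial⟩, trivial⟩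
    · intro v hv
      simp only [unV, mem_filter, mem_product, mem_range] at hv
      obtain ⟨⟨⟨-, h2⟩, -, h3⟩, h4⟩ := hv
      rw [mem_range, ← h3, ← h4]
      exact h2
    · intro j _
      rfl
    · intro v hv
      simp only [unV, mem_filter, mem_product, mem_range] at hv
      obtain ⟨⟨-, -, h3⟩, h4⟩ := hv
      rw [← h3, ← h4]
    · intro j _
      rfl
  rw [sum_congr rfl h1]
  exact (sum_fiberwise_of_maps_to (fun v hv => (mem_filter.1 hv).2.1) F).symm

/-- the units of one item with main end `i` -/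
lemma unit_card_one {g : ℕ → ι → ℕ} (hg : ∀ u ∈ U, ∀ i < n, g i u ≤ 2) {u : ι} (hu : u ∈ U)
    {i : ℕ} (hi : i < n) :
    ((unV n U g).filter fun v => v.1 = u ∧ v.2.1 = i).card = g i u := by
  have h1 := unit_fib (M := ℕ) hg (singleton_subset_iff.2 hu) hi (fun _ => 1)
  rw [sum_singleton, sum_const, sum_const, smul_eq_mul, smul_eq_mul, mul_one, mul_one,
    card_range] at h1
  rw [← h1]
  congr 1
  ext v
  simp only [mem_filter, mem_singleton]

/-- the units of one item -/
lemma unit_card_it {g : ℕ → ι → ℕ} (hg : ∀ u ∈ U, ∀ i < n, g i u ≤ 2) {u : ι} (hu : u ∈ U) :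
    ((unV n U g).filter fun v => v.1 = u).card = ∑ i ∈ range n, g i u := by
  have h1 : ((unV n U g).filter fun v => v.1 = u).card
      = ∑ i ∈ range n, (((unV n U g).filter fun v => v.1 = u).filter fun v => v.2.1 = i).card := by
    refine card_eq_sum_card_fiberwise fun v hv => ?_
    have h2 := (mem_filter.1 (mem_coe.1 hv)).1
    simp only [unV, mem_filter, mem_product, mem_range] at h2
    exact mem_coe.2 (mem_range.2 h2.1.2.1)
  rw [h1]
  refine sum_congr rfl fun i hi => ?_
  rw [filter_filter]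
  exact unit_card_one hg hu (mem_range.1 hi)

namespace LevC

variable {φ : ι → ℕ → ℤ} {g : ℕ → ι → ℕ} {f : ι → ℕ}

/-- at most two pieces at a row -/
lemma two (C : LevC n U ho vl kp mn pc φ g f) (H : PCon R n t s mu U ho vl kp mn pc ar be kq NN sg nu) :
    ∀ u ∈ U, ∀ i < n, g i u ≤ 2 := by
  intro u hu i hi
  have h1 := C.le u hu i hi
  have h2 := H.k2 u hu i hi
  omega

/-- an item of value one with two ends: no unit at the cut end, one piece there -/
lemma cut_one (C : LevC n U ho vl kp mn pc φ g f) (H : PCon R n t s mu U ho vl kp mn pc ar be kq NN sg nu)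
    {u : ι} (hu : u ∈ U) (h1 : vl u = 1) (h2 : (g (f u) u : ℤ) + 1 = kp (f u) u) :
    g (f u) u = 0 ∧ kp (f u) u = 1 := by
  have h3 := H.kv u hu (f u) (C.fn u hu)
  omega

/-- **an item of value one with two ends** -/
theorem half (C : LevC n U ho vl kp mn pc φ g f) (H : PCon R n t s mu U ho vl kp mn pc ar be kq NN sg nu)
    {u : ι} (hu : u ∈ U) (h1 : vl u = 1) (h2 : (g (f u) u : ℤ) + 1 = kp (f u) u) :
    ∃ m < n, m ≠ f u ∧ m ≠ ho u ∧ kp m u = 1 ∧ g m u = 1 ∧ kp (f u) u = 1 ∧ g (f u) u = 0 ∧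
      ∀ j < n, j ≠ m → j ≠ f u → kp j u = 0 ∧ g j u = 0 := by
  obtain ⟨h3, h4⟩ := C.cut_one H hu h1 h2
  have h5 : (∑ i ∈ range n, (g i u : ℤ)) = 1 := by rw [C.sum u hu, h1]
  have h6 : ∃ m ∈ range n, g m u ≠ 0 := by
    by_contra hcon
    have h7 : ∑ i ∈ range n, (g i u : ℤ) = 0 := sum_eq_zero fun i hi => by
      by_contra h8
      exact hcon ⟨i, hi, fun h9 => h8 (by rw [h9]; rfl)⟩
    rw [h7] at h5
    exact absurd h5 (by norm_num)
  obtain ⟨m, hm, h7⟩ := h6
  have hm' := mem_range.1 hm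
  have hmf : m ≠ f u := fun h8 => h7 (by rw [h8]; exact h3)
  have hmh : m ≠ ho u := fun h8 => h7 (by rw [h8]; exact C.home u hu)
  have h8 : (g m u : ℤ) + ∑ i ∈ (range n).erase m, (g i u : ℤ) = 1 := by
    rw [← h5]
    exact add_sum_erase (range n) (fun i => (g i u : ℤ)) hm
  have h9 : (0 : ℤ) ≤ ∑ i ∈ (range n).erase m, (g i u : ℤ) :=
    sum_nonneg fun i _ => Nat.cast_nonneg _
  have h10 : g m u = 1 := by omega
  have h11 : ∑ i ∈ (range n).erase m, (g i u : ℤ) = 0 := by
    rw [h10] at h8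
    have : ((1 : ℕ) : ℤ) = 1 := rfl
    linarith
  have h12 : ∀ j < n, j ≠ m → g j u = 0 := by
    intro j hj hjm
    have h13 := (sum_eq_zero_iff_of_nonneg fun i _ => Nat.cast_nonneg (g i u)).1 h11 j
      (mem_erase.2 ⟨hjm, mem_range.2 hj⟩)
    exact_mod_cast h13
  have h14 : ∀ i < n, i ≠ f u → (g i u : ℤ) = kp i u := by
    rcases C.typ u hu with ⟨-, h15, -⟩ | ⟨-, -, h15, -⟩
    · rw [h3] at h15
      exact absurd h15 (by norm_num)
    · exact h15
  refine ⟨m, hm', hmf, hmh, ?_, h10, h4, h3, fun j hj hjm hjf => ⟨?_, h12 j hj hjm⟩⟩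
  · rw [← h14 m hm' hmf, h10]
    rfl
  · rw [← h14 j hj hjf, h12 j hj hjm]
    rfl

/-- the members of `unV` -/
lemma mem_unV {v : ι × ℕ × ℕ} (hv : v ∈ unV n U g) : v.1 ∈ U ∧ v.2.1 < n ∧ v.2.2 < g v.2.1 v.1 := by
  simp only [unV, mem_filter, mem_product, mem_range] at hv
  exact ⟨hv.1.1, hv.1.2.1, hv.2⟩

/-- the main end of a unit is not the host -/
lemma main_ne (C : LevC n U ho vl kp mn pc φ g f) {v : ι × ℕ × ℕ} (hv : v ∈ unV n U g) :
    v.2.1 ≠ ho v.1 := by
  obtain ⟨h3, h4, h5⟩ := mem_unV hv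
  intro h6
  rw [h6, C.home v.1 h3] at h5
  exact absurd h5 (Nat.not_lt_zero _)

/-- **as many units as the value** -/
theorem val (C : LevC n U ho vl kp mn pc φ g f) (H : PCon R n t s mu U ho vl kp mn pc ar be kq NN sg nu)
    {u : ι} (hu : u ∈ U) : (((unV n U g).filter fun v => v.1 = u).card : ℤ) = vl u := by
  rw [unit_card_it (C.two H) hu, ← C.sum u hu]
  push_cast
  rfl

/-- the counted rows are rows and not the host -/
theorem rows (C : LevC n U ho vl kp mn pc φ g f) {P : ι → Prop} :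
    ∀ v ∈ unV n U g, ∀ i ∈ unC P f v, i < n ∧ i ≠ ho v.1 := by
  intro v hv i hi
  obtain ⟨h3, h4, h5⟩ := mem_unV hv
  unfold unC at hi
  by_cases hp : P v.1
  · rw [if_pos hp] at hi
    rcases mem_insert.1 hi with h7 | h7
    · rw [h7]
      exact ⟨h4, C.main_ne hv⟩
    · rw [mem_singleton.1 h7]
      exact ⟨C.fn v.1 h3, C.fh v.1 h3⟩
  · rw [if_neg hp] at hi
    rw [mem_singleton.1 hi]
    exact ⟨h4, C.main_ne hv⟩

/-- **at most `kp i u` units of an item count at the row `i`** -/
theorem load (C : LevC n U ho vl kp mn pc φ g f) (H : PCon R n t s mu U ho vl kp mn pc ar be kq NN sg nu)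
    {P : ι → Prop} (hP : ∀ u ∈ U, P u → vl u = 1 ∧ (g (f u) u : ℤ) + 1 = kp (f u) u) :
    ∀ u ∈ U, ∀ i < n,
      (((unV n U g).filter fun v => v.1 = u ∧ i ∈ unC P f v).card : ℤ) ≤ kp i u := by
  have h2 := C.two H
  intro u hu i hi
  by_cases hp : P u
  · obtain ⟨h3, h4⟩ := hP u hu hp
    obtain ⟨h5, h6⟩ := C.cut_one H hu h3 h4
    by_cases hif : i = f u
    · have h7 : ((unV n U g).filter fun v => v.1 = u ∧ i ∈ unC P f v).card
          ≤ ((unV n U g).filter fun v => v.1 = u).card :=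
        card_le_card fun v hv => by
          obtain ⟨h8, h9, -⟩ := mem_filter.1 hv
          exact mem_filter.2 ⟨h8, h9⟩
      have h8 := C.val H hu
      rw [hif, h6]
      rw [hif] at h7
      have h9 : (((unV n U g).filter fun v => v.1 = u ∧ f u ∈ unC P f v).card : ℤ)
          ≤ ((unV n U g).filter fun v => v.1 = u).card := by exact_mod_cast h7
      linarith
    · have h7 : ((unV n U g).filter fun v => v.1 = u ∧ i ∈ unC P f v).card
          ≤ ((unV n U g).filter fun v => v.1 = u ∧ v.2.1 = i).card :=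
        card_le_card fun v hv => by
          obtain ⟨h8, h9, h10⟩ := mem_filter.1 hv
          refine mem_filter.2 ⟨h8, h9, ?_⟩
          unfold unC at h10
          rw [h9, if_pos hp] at h10
          rcases mem_insert.1 h10 with h11 | h11
          · exact h11.symm
          · exact absurd (mem_singleton.1 h11) hif
      rw [unit_card_one h2 hu hi] at h7
      have h8 := C.le u hu i hi
      have h9 : (((unV n U g).filter fun v => v.1 = u ∧ i ∈ unC P f v).card : ℤ) ≤ (g i u : ℤ) := by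
        exact_mod_cast h7
      exact h9.trans h8
  · have h7 : ((unV n U g).filter fun v => v.1 = u ∧ i ∈ unC P f v).card
        ≤ ((unV n U g).filter fun v => v.1 = u ∧ v.2.1 = i).card :=
      card_le_card fun v hv => by
        obtain ⟨h8, h9, h10⟩ := mem_filter.1 hv
        refine mem_filter.2 ⟨h8, h9, ?_⟩
        unfold unC at h10
        rw [h9, if_neg hp] at h10
        exact (mem_singleton.1 h10).symm
    rw [unit_card_one h2 hu hi] at h7
    have h8 := C.le u hu i hi
    have h9 : (((unV n U g).filter fun v => v.1 = u ∧ i ∈ unC P f v).card : ℤ) ≤ (g i u : ℤ) := by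
      exact_mod_cast h7
    exact h9.trans h8

/-- **the types of the units**: no misses, or an end used at its full level of an item with a worse cut end -/
theorem utyp (C : LevC n U ho vl kp mn pc φ g f) (H : PCon R n t s mu U ho vl kp mn pc ar be kq NN sg nu)
    {v : ι × ℕ × ℕ} (hv : v ∈ unV n U g) :
    unb kp mn g v = 0 ∨ (pc v.1 = 0 ∧ v.2.1 ≠ f v.1 ∧ unb kp mn g v = mn v.2.1 v.1 ∧
      mn v.2.1 v.1 * mn (f v.1) v.1 ≤ R + t v.2.1 * t (f v.1) ∧ φ v.1 v.2.1 ≤ φ v.1 (f v.1)) := by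
  obtain ⟨h1, h2, h3⟩ := mem_unV hv
  unfold unb
  by_cases h4 : kp v.2.1 v.1 ≤ (g v.2.1 v.1 : ℤ) ∧ v.2.2 + 1 = g v.2.1 v.1
  · rw [if_pos h4]
    have h5 := C.le v.1 h1 v.2.1 h2
    rcases C.typ v.1 h1 with ⟨-, h6, h7, h8, h9⟩ | ⟨h6, h7, h8, h9⟩
    · left
      by_cases h10 : v.2.1 = f v.1
      · rw [h10]
        exact h8
      · have h11 := h9 v.2.1 h2 h10
        rw [h11] at h5
        omega
    · right
      have h10 : v.2.1 ≠ f v.1 := by
        intro h10
        rw [h10] at h4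
        omega
      refine ⟨h6, h10, rfl, H.mpr v.1 h1 v.2.1 h2 (f v.1) (C.fn v.1 h1) h10, h9 v.2.1 h2 ?_⟩
      intro h11
      rw [h11] at h5
      omega
  · rw [if_neg h4]
    exact Or.inl rfl

/-- the misses are not negative -/
lemma unb_nonneg (H : PCon R n t s mu U ho vl kp mn pc ar be kq NN sg nu) {v : ι × ℕ × ℕ}
    (hv : v ∈ unV n U g) : 0 ≤ unb kp mn g v := by
  obtain ⟨h1, h2, h3⟩ := mem_unV hv
  unfold unb
  split_ifs
  · exact H.m0 v.1 h1 v.2.1 h2
  · exact le_rfl

/-- the misses are at most the class -/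
lemma unb_le (H : PCon R n t s mu U ho vl kp mn pc ar be kq NN sg nu) {v : ι × ℕ × ℕ}
    (hv : v ∈ unV n U g) : unb kp mn g v ≤ R - t v.2.1 := by
  obtain ⟨h1, h2, h3⟩ := mem_unV hv
  have h4 := H.mnc v.1 h1 v.2.1 h2
  have h5 := H.m0 v.1 h1 v.2.1 h2
  unfold unb
  split_ifs
  · exact h4
  · linarith

/-- **the misses of a main end are at most about the `t` of the cut end** (cut end = fewest hits) -/
theorem unb_cut (C : LevC n U ho vl kp mn pc (fun u i => t i + mn i u) g f)
    (H : PCon R n t s mu U ho vl kp mn pc ar be kq NN sg nu) {v : ι × ℕ × ℕ} (hv : v ∈ unV n U g) :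
    (unb kp mn g v + t v.2.1) * (unb kp mn g v - t (f v.1)) ≤ R := by
  obtain ⟨h1, h2, h3⟩ := mem_unV hv
  have t1 := H.t0 v.2.1 h2
  have t2 := H.t0 (f v.1) (C.fn v.1 h1)
  have hR : 0 ≤ R := by
    refine le_trans (sum_nonneg fun i hi => ?_) H.tsum
    have h4 := H.t0 i (mem_range.1 hi)
    linarith
  have h0 := unb_nonneg H hv
  rcases C.utyp H hv with h4 | ⟨-, -, h5, h6, h7⟩
  · rw [h4]
    have h5 := mul_nonneg t1 t2
    linarith
  · have h7' : t v.2.1 + mn v.2.1 v.1 ≤ t (f v.1) + mn (f v.1) v.1 := h7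
    rw [← h5] at h6 h7'
    have h8 := mul_nonneg h0 (sub_nonneg.2 h7')
    have h9 : (unb kp mn g v + t v.2.1) * (unb kp mn g v - t (f v.1))
        + unb kp mn g v * (t (f v.1) + mn (f v.1) v.1 - (t v.2.1 + unb kp mn g v))
        = unb kp mn g v * mn (f v.1) v.1 - t v.2.1 * t (f v.1) := by
      ring
    linarith

/-- the pieces used at the row `i` -/
theorem sum_g (C : LevC n U ho vl kp mn pc φ g f) (H : PCon R n t s mu U ho vl kp mn pc ar be kq NN sg nu)
    {K : Finset ι} (hK : K ⊆ U) {i : ℕ} (hi : i < n) :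
    ∑ u ∈ K.filter (fun u => g i u ≠ 0), (g i u : ℤ)
      = (((unV n U g).filter fun v => v.1 ∈ K ∧ v.2.1 = i).card : ℤ) := by
  have h1 := unit_fib (M := ℤ) (C.two H) hK hi (fun _ => 1)
  rw [sum_const, nsmul_eq_mul, mul_one] at h1
  rw [h1]
  refine (sum_subset (filter_subset _ _) fun u hu hu' => ?_).trans (sum_congr rfl fun u _ => ?_)
  · have h2 : g i u = 0 := by
      by_contra h3
      exact hu' (mem_filter.2 ⟨hu, h3⟩)
    rw [h2]
    rfl
  · rw [sum_const, nsmul_eq_mul, mul_one, card_range]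

/-- **the misses of the used items at the row `i`** -/
theorem sum_mis (C : LevC n U ho vl kp mn pc φ g f) (H : PCon R n t s mu U ho vl kp mn pc ar be kq NN sg nu)
    {K : Finset ι} (hK : K ⊆ U) {i : ℕ} (hi : i < n) :
    ∑ u ∈ K.filter (fun u => g i u ≠ 0), msP kp mn i (g i) u
      = ∑ v ∈ (unV n U g).filter (fun v => v.1 ∈ K ∧ v.2.1 = i), unb kp mn g v := by
  rw [unit_fib (C.two H) hK hi (unb kp mn g)]
  have h1 : ∀ u ∈ K, ∑ j ∈ range (g i u), unb kp mn g (u, i, j)
      = if g i u ≠ 0 then msP kp mn i (g i) u else 0 := by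
    intro u hu
    by_cases h2 : g i u = 0
    · rw [h2, if_neg (fun h3 => h3 rfl)]
      rfl
    · rw [if_pos h2]
      obtain ⟨q, hq⟩ : ∃ q, g i u = q + 1 := ⟨g i u - 1, by omega⟩
      have h3 : ∀ j ∈ range (g i u), unb kp mn g (u, i, j)
          = if j = q then msP kp mn i (g i) u else 0 := by
        intro j hj
        unfold unb msP
        show (if kp i u ≤ (g i u : ℤ) ∧ j + 1 = g i u then mn i u else 0)
          = if j = q then (if kp i u ≤ (g i u : ℤ) then mn i u else 0) else 0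
        by_cases h4 : j = q
        · have h5 : j + 1 = g i u := by omega
          rw [if_pos h4]
          by_cases h6 : kp i u ≤ (g i u : ℤ)
          · rw [if_pos ⟨h6, h5⟩, if_pos h6]
          · rw [if_neg (fun h7 => h6 h7.1), if_neg h6]
        · have h5 : ¬ j + 1 = g i u := by omega
          rw [if_neg h4, if_neg (fun h7 => h5 h7.2)]
      rw [sum_congr rfl h3, sum_ite_eq' (range (g i u)) q, if_pos (mem_range.2 (by omega))]
  rw [sum_congr rfl h1, sum_filter]

/-- **the points of the used items** -/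
theorem sum_pts (C : LevC n U ho vl kp mn pc φ g f) (H : PCon R n t s mu U ho vl kp mn pc ar be kq NN sg nu)
    {K : Finset ι} (hK : K ⊆ U) {i : ℕ} (hi : i < n) :
    ∑ u ∈ K.filter (fun u => g i u ≠ 0), ((g i u : ℤ) + 1)
      = (((unV n U g).filter fun v => v.1 ∈ K ∧ v.2.1 = i).card : ℤ)
        + ((K.filter fun u => g i u ≠ 0).card : ℤ) ∧
    ((K.filter fun u => g i u ≠ 0).card : ℤ)
      ≤ (((unV n U g).filter fun v => v.1 ∈ K ∧ v.2.1 = i).card : ℤ) := by
  have h1 := C.sum_g H hK hi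
  constructor
  · rw [sum_add_distrib, h1, sum_const, nsmul_eq_mul, mul_one]
  · rw [← h1]
    have h2 : ((K.filter fun u => g i u ≠ 0).card : ℤ)
        = ∑ u ∈ K.filter (fun u => g i u ≠ 0), (1 : ℤ) := by
      rw [sum_const, nsmul_eq_mul, mul_one]
    rw [h2]
    refine sum_le_sum fun u hu => ?_
    have h3 := (mem_filter.1 hu).2
    have h4 : 1 ≤ g i u := Nat.one_le_iff_ne_zero.2 h3
    exact_mod_cast h4

/-- **the hits of the hosted items** in the columns of `j`: the units with main end `j`, and the items `P`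
with the cut end `j` -/
theorem hits (C : LevC n U ho vl kp mn pc φ g f) (H : PCon R n t s mu U ho vl kp mn pc ar be kq NN sg nu)
    (hz : ∀ u ∈ U, ∀ i < n, kp i u = 0 → mn i u = 0) {P : ι → Prop}
    (hP : ∀ u ∈ U, P u → vl u = 1 ∧ (g (f u) u : ℤ) + 1 = kp (f u) u)
    {K : Finset ι} (hK : K ⊆ U) {j : ℕ} (hj : j < n) :
    ∑ v ∈ (unV n U g).filter (fun v => v.1 ∈ K ∧ v.2.1 = j), (R - t j - unb kp mn g v)
        + ∑ u ∈ K.filter (fun u => P u ∧ f u = j), (R - t j - mn j u)
      ≤ ∑ u ∈ K, (kp j u * (R - t j) - mn j u) := by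
  rw [unit_fib (C.two H) hK hj (fun v => R - t j - unb kp mn g v), sum_filter, ← sum_add_distrib]
  refine sum_le_sum fun u hu => ?_
  have huU := hK hu
  have h0 := H.m0 u huU j hj
  have hc := H.mnc u huU j hj
  have hgk := C.le u huU j hj
  have h1 : ∑ q ∈ range (g j u), (R - t j - unb kp mn g (u, j, q))
      = g j u * (R - t j) - if g j u ≠ 0 then msP kp mn j (g j) u else 0 := by
    rw [sum_sub_distrib, sum_const, nsmul_eq_mul, card_range]
    congr 1
    have h2 := C.sum_mis H (singleton_subset_iff.2 huU) hj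
    rw [unit_fib (C.two H) (singleton_subset_iff.2 huU) hj (unb kp mn g), sum_singleton,
      sum_filter, sum_singleton] at h2
    exact h2.symm
  show ∑ q ∈ range (g j u), (R - t j - unb kp mn g (u, j, q))
      + (if P u ∧ f u = j then R - t j - mn j u else 0) ≤ kp j u * (R - t j) - mn j u
  rw [h1]
  by_cases hp : P u ∧ f u = j
  · obtain ⟨hp1, hp2⟩ := hp
    obtain ⟨h3, h4⟩ := hP u huU hp1
    obtain ⟨h5, h6⟩ := C.cut_one H huU h3 h4
    rw [hp2] at h5 h6
    have e1 : (if P u ∧ f u = j then R - t j - mn j u else 0) = R - t j - mn j u :=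
      if_pos ⟨hp1, hp2⟩
    have e2 : (if g j u ≠ 0 then msP kp mn j (g j) u else 0) = 0 := if_neg fun h7 => h7 h5
    rw [e1, e2, h5, h6]
    push_cast
    linarith
  · rw [if_neg hp, add_zero]
    by_cases h2 : (g j u : ℤ) = kp j u
    · by_cases h3 : g j u = 0
      · have h4 : kp j u = 0 := by
          rw [← h2, h3]
          rfl
        have e2 : (if g j u ≠ 0 then msP kp mn j (g j) u else 0) = 0 := if_neg fun h7 => h7 h3
        rw [e2, h3, h4, hz u huU j hj h4]
        push_cast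
        linarith
      · rw [if_pos h3]
        unfold msP
        rw [if_pos h2.ge, h2]
    · have h3 : (g j u : ℤ) + 1 ≤ kp j u := by omega
      have h4 : (if g j u ≠ 0 then msP kp mn j (g j) u else 0) = 0 := by
        unfold msP
        rw [if_neg (by omega : ¬ kp j u ≤ (g j u : ℤ)), ite_self]
      rw [h4]
      have h5 : ((g j u : ℤ) + 1) * (R - t j) ≤ kp j u * (R - t j) :=
        mul_le_mul_of_nonneg_right h3 (by linarith)
      linarith

end LevC

end UnitL

end Pool.Agent.Lib.MP_f04ccf_co
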