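import Pool.Agent.Lib.MP_f04ccf_co.M.UnR
import Pool.Agent.Lib.MP_f04ccf_co.M.UnitL

/-!
MP_f04ccf_co, TEXT D, assembly: **the units of `UnitL` satisfy `UnP`**.

* `twoE`: the items of value one with two ends; `unt` the misses of a unit at a row (main end: `unb`, cut end: `mn`),
  `unh` its hits in the columns of `j` (main end, and the cut end for the items of `twoE`);
* `LevC.unp`: `UnP` for the units `unV`, used at the main end, the items of `twoE` at both ends;
* `LevC.unh_main`, `LevC.unh_cut`, `LevC.two_facts`: the values for the pure side.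
-/

set_option autoImplicit false

namespace Pool.Agent.Lib.MP_f04ccf_co

open Finset

attribute [local instance] Classical.propDecidable

section UnI

variable {ι : Type*} {R : ℤ} {n : ℕ} {t s mu : ℕ → ℤ} {U : Finset ι} {ho : ι → ℕ} {vl : ι → ℤ}
  {kp mn : ℕ → ι → ℤ} {pc ar : ι → ℤ} {be kq NN sg : ℕ → ℕ → ℤ} {nu : ℕ → ι → ℤ}
  {φ : ι → ℕ → ℤ} {g : ℕ → ι → ℕ} {f : ι → ℕ}

/-- the items of value one with two ends -/
def twoE (vl : ι → ℤ) (kp : ℕ → ι → ℤ) (g : ℕ → ι → ℕ) (f : ι → ℕ) (u : ι) : Prop :=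
  vl u = 1 ∧ (g (f u) u : ℤ) + 1 = kp (f u) u

/-- the misses of a unit at a row: at the main end `unb`, else `mn` -/
noncomputable def unt (kp mn : ℕ → ι → ℤ) (g : ℕ → ι → ℕ) (v : ι × ℕ × ℕ) (i : ℕ) : ℤ :=
  if i = v.2.1 then unb kp mn g v else mn i v.1

/-- the hits of a hosted unit in the columns of `j` -/
noncomputable def unh (R : ℤ) (t : ℕ → ℤ) (vl : ι → ℤ) (kp mn : ℕ → ι → ℤ) (g : ℕ → ι → ℕ)
    (f : ι → ℕ) (v : ι × ℕ × ℕ) (j : ℕ) : ℤ :=
  (if v.2.1 = j then R - t j - unb kp mn g v else 0)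
    + if twoE vl kp g f v.1 ∧ f v.1 = j then R - t j - mn j v.1 else 0

namespace LevC

/-- the main end of a unit of an item with two ends is not the cut end -/
lemma main_cut (C : LevC n U ho vl kp mn pc φ g f)
    (H : PCon R n t s mu U ho vl kp mn pc ar be kq NN sg nu) {v : ι × ℕ × ℕ} (hv : v ∈ unV n U g)
    (hp : twoE vl kp g f v.1) : v.2.1 ≠ f v.1 := by
  obtain ⟨h1, -, h3⟩ := mem_unV hv
  intro h4
  rw [h4, (C.cut_one H h1 hp.1 hp.2).1] at h3
  exact absurd h3 (Nat.not_lt_zero _)

/-- **the units satisfy `UnP`** -/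
theorem unp (C : LevC n U ho vl kp mn pc φ g f)
    (H : PCon R n t s mu U ho vl kp mn pc ar be kq NN sg nu) :
    UnP R n t U ho vl kp mn (unV n U g) (fun v => v.1) (unC (twoE vl kp g f) f)
      (unt kp mn g) (unh R t vl kp mn g f) := by
  refine ⟨fun v hv => (mem_unV hv).1, fun u hu => C.val H hu, C.rows, ?_, ?_⟩
  · -- lev
    intro u hu i hi S hS hne
    have h1 := C.load H (P := twoE vl kp g f) (fun _ _ h => h) u hu i hi
    have h2 : (S.card : ℤ) ≤ kp i u := by
      have h3 := card_le_card hS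
      have h4 : (S.card : ℤ)
          ≤ (((unV n U g).filter fun v => v.1 = u ∧ i ∈ unC (twoE vl kp g f) f v).card : ℤ) := by
        exact_mod_cast h3
      exact h4.trans h1
    refine ⟨h2, ?_⟩
    have h0 : ∀ v ∈ S, 0 ≤ unt kp mn g v i := by
      intro v hv
      obtain ⟨h3, h4, -⟩ := mem_filter.1 (hS hv)
      unfold unt
      split_ifs
      · exact unb_nonneg H h3
      · rw [h4]
        exact H.m0 u hu i hi
    by_cases h3 : kp i u ≤ (S.card : ℤ)
    · rw [if_pos h3]
      by_cases h4 : twoE vl kp g f u ∧ i = f u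
      · obtain ⟨v, hv⟩ := hne
        obtain ⟨h5, h6, -⟩ := mem_filter.1 (hS hv)
        have h7 : unt kp mn g v i = mn i u := by
          unfold unt
          rw [h6, if_neg]
          intro h8
          have h9 := C.main_cut H h5 (by rw [h6]; exact h4.1)
          rw [h6] at h9
          exact h9 (h8.symm.trans h4.2)
        rw [← h7]
        exact single_le_sum h0 hv
      · -- all units of `S` have the main end `i`
        have h5 : S ⊆ (unV n U g).filter fun v => v.1 = u ∧ v.2.1 = i := by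
          intro v hv
          obtain ⟨h6, h7, h8⟩ := mem_filter.1 (hS hv)
          refine mem_filter.2 ⟨h6, h7, ?_⟩
          unfold unC at h8
          rw [h7] at h8
          by_cases h9 : twoE vl kp g f u
          · rw [if_pos h9] at h8
            rcases mem_insert.1 h8 with h10 | h10
            · exact h10.symm
            · exact absurd ⟨h9, mem_singleton.1 h10⟩ h4
          · rw [if_neg h9] at h8
            exact (mem_singleton.1 h8).symm
        have h6 := unit_card_one (C.two H) hu hi (n := n) (g := g)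
        have h7 := C.le u hu i hi
        have h8 : g i u ≤ S.card := by
          have h9 : (g i u : ℤ) ≤ S.card := h7.trans h3
          exact_mod_cast h9
        have h9 := eq_of_subset_of_card_le h5 (by rw [h6]; exact h8)
        have h10 : 1 ≤ g i u := by
          rw [← h6, ← h9]
          exact card_pos.2 hne
        have h11 : (u, i, g i u - 1) ∈ S := by
          rw [h9]
          simp only [unV, mem_filter, mem_product, mem_range]
          have h12 := C.two H u hu i hi
          exact ⟨⟨⟨hu, hi, by omega⟩, by omega⟩, trivial, trivial⟩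
        have h12 : unt kp mn g (u, i, g i u - 1) i = mn i u := by
          unfold unt unb
          rw [if_pos rfl]
          refine if_pos ⟨?_, ?_⟩
          · have h13 : S.card = g i u := by rw [h9]; exact h6
            rw [h13] at h3
            exact h3
          · show g i u - 1 + 1 = g i u
            omega
        rw [← h12]
        exact single_le_sum h0 h11
    · rw [if_neg h3]
      exact sum_nonneg h0
  · -- hit
    intro u hu j hj _
    have h1 := C.hits H H.mnz (P := twoE vl kp g f) (fun _ _ h => h) (singleton_subset_iff.2 hu) hj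
    rw [sum_singleton] at h1
    refine le_trans (le_of_eq ?_) h1
    unfold unh
    rw [sum_add_distrib]
    congr 1
    · rw [← sum_filter, filter_filter]
      refine sum_congr ?_ fun _ _ => rfl
      ext v
      simp only [mem_filter, mem_singleton]
    · have h2 : ∀ v ∈ (unV n U g).filter (fun v => v.1 = u),
          (if twoE vl kp g f v.1 ∧ f v.1 = j then R - t j - mn j v.1 else 0)
            = if twoE vl kp g f u ∧ f u = j then R - t j - mn j u else 0 := fun v hv => by
        rw [(mem_filter.1 hv).2]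
      rw [sum_congr rfl h2, sum_const, nsmul_eq_mul, sum_filter, sum_singleton, C.val H hu]
      by_cases h3 : twoE vl kp g f u ∧ f u = j
      · rw [if_pos h3, h3.1.1, one_mul]
      · rw [if_neg h3, mul_zero]

/-- the hits at the main end -/
lemma unh_main (C : LevC n U ho vl kp mn pc φ g f)
    (H : PCon R n t s mu U ho vl kp mn pc ar be kq NN sg nu) {v : ι × ℕ × ℕ} (hv : v ∈ unV n U g) :
    unh R t vl kp mn g f v v.2.1 = R - t v.2.1 - unb kp mn g v := by
  unfold unh
  rw [if_pos rfl, if_neg, add_zero]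
  rintro ⟨h1, h2⟩
  exact C.main_cut H hv h1 h2.symm

/-- the hits at the cut end -/
lemma unh_cut (C : LevC n U ho vl kp mn pc φ g f)
    (H : PCon R n t s mu U ho vl kp mn pc ar be kq NN sg nu) {v : ι × ℕ × ℕ} (hv : v ∈ unV n U g)
    (hp : twoE vl kp g f v.1) : unh R t vl kp mn g f v (f v.1) = R - t (f v.1) - mn (f v.1) v.1 := by
  unfold unh
  rw [if_neg (C.main_cut H hv hp), zero_add, if_pos ⟨hp, rfl⟩]

/-- the hits are not negative -/
lemma unh_nonneg (H : PCon R n t s mu U ho vl kp mn pc ar be kq NN sg nu) {v : ι × ℕ × ℕ}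
    (hv : v ∈ unV n U g) {j : ℕ} (hj : j < n) : 0 ≤ unh R t vl kp mn g f v j := by
  obtain ⟨h1, h2, -⟩ := mem_unV hv
  unfold unh
  refine add_nonneg ?_ ?_
  · split_ifs with h3
    · have h4 := unb_le H hv
      rw [h3] at h4
      linarith
    · exact le_rfl
  · split_ifs with h3
    · have h4 := H.mnc v.1 h1 j hj
      linarith
    · exact le_rfl

/-- **a unit of an item of value one with two ends**: main end `m`, cut end `f` -/
theorem two_facts (C : LevC n U ho vl kp mn pc φ g f)
    (H : PCon R n t s mu U ho vl kp mn pc ar be kq NN sg nu) {v : ι × ℕ × ℕ} (hv : v ∈ unV n U g)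
    (hp : twoE vl kp g f v.1) :
    v.2.1 < n ∧ f v.1 < n ∧ v.2.1 ≠ f v.1 ∧ v.2.1 ≠ ho v.1 ∧ f v.1 ≠ ho v.1 ∧ pc v.1 = 0 ∧
      unt kp mn g v v.2.1 = mn v.2.1 v.1 ∧ unt kp mn g v (f v.1) = mn (f v.1) v.1 ∧
      mn v.2.1 v.1 * mn (f v.1) v.1 ≤ R + t v.2.1 * t (f v.1) ∧
      mn v.2.1 v.1 + mn (f v.1) v.1 ≤ R ∧ φ v.1 v.2.1 ≤ φ v.1 (f v.1) := by
  obtain ⟨h1, h2, h3⟩ := mem_unV hv
  have h4 := C.main_cut H hv hp
  have h5 : pc v.1 = 0 ∧ (g (f v.1) v.1 : ℤ) + 1 = kp (f v.1) v.1
      ∧ (∀ i < n, i ≠ f v.1 → (g i v.1 : ℤ) = kp i v.1)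
      ∧ ∀ i < n, kp i v.1 ≠ 0 → φ v.1 i ≤ φ v.1 (f v.1) := by
    rcases C.typ v.1 h1 with ⟨-, h6, -⟩ | h6
    · have h7 := (C.cut_one H h1 hp.1 hp.2).1
      rw [h7] at h6
      exact absurd h6 (by norm_num)
    · exact h6
  obtain ⟨h6, -, h8, h9⟩ := h5
  have h10 := h8 v.2.1 h2 h4
  have h11 : g v.2.1 v.1 = 1 := by
    have h12 := H.kv v.1 h1 v.2.1 h2
    rw [hp.1, ← h10] at h12
    have h13 : g v.2.1 v.1 ≤ 1 := by exact_mod_cast h12
    omega
  have h12 : v.2.1 ∈ range n := mem_range.2 h2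
  have h13 : f v.1 ∈ range n := mem_range.2 (C.fn v.1 h1)
  refine ⟨h2, C.fn v.1 h1, h4, C.main_ne hv, C.fh v.1 h1, h6, ?_, ?_,
    H.mpr v.1 h1 v.2.1 h2 (f v.1) (C.fn v.1 h1) h4, ?_, h9 v.2.1 h2 ?_⟩
  · unfold unt unb
    rw [if_pos rfl]
    refine if_pos ⟨h10.ge, ?_⟩
    rw [h11] at h3 ⊢
    omega
  · unfold unt
    exact if_neg fun h14 => h4 h14.symm
  · have h14 := H.m1 v.1 h1 hp.1
    have h15 : mn v.2.1 v.1 + ∑ i ∈ (range n).erase v.2.1, mn i v.1 = ∑ i ∈ range n, mn i v.1 :=
      add_sum_erase (range n) (fun i => mn i v.1) h12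
    have h16 : mn (f v.1) v.1 ≤ ∑ i ∈ (range n).erase v.2.1, mn i v.1 :=
      single_le_sum (f := fun i => mn i v.1)
        (fun i hi => H.m0 v.1 h1 i (mem_range.1 (mem_of_mem_erase hi)))
        (mem_erase.2 ⟨h4.symm, h13⟩)
    linarith
  · intro h14
    rw [h14, h11] at h10
    exact absurd h10 (by norm_num)

end LevC

end UnI

end Pool.Agent.Lib.MP_f04ccf_co
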