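import Pool.Agent.Lib.MP_f04ccf_co.M.RulH
import Pool.Agent.Lib.MP_f04ccf_co.M.UnI

/-!
MP_f04ccf_co, TEXT D, regime H: **the interface between the table Y+ and the mixture `r T + A P` (`hubC`).**

Letters: `A = t z + 1` the row, `X` a third host, `W` another third, `C = R - (t 0 + 1)`, `c = R - t 0 = C + 1`,
`b` misses at the row, `b1` misses at the hub. The coefficients (complements) of `hubC` are
`b / (R - A)` (used unit of the hub), `(r b + A (R - A)) / (c (R - A))`, `r = c - A` (used unit of a third host),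
`A (c - hit) / (c (R - A))` (hosted unit).

* pure: `hubI_room`, `hubI_mix`, `hubI_full`, `hubI_half`, `hubI_T`, `hubI_arc`, `hubI_thin`, `hubI_thin_loss`;
* `LevC.coV_third`: every unit of a third host with main end `z` pays at most one minus its complement;
* `LevC.coV_host`: the same for the units hosted at `z` (with `2 A + A m + b ≤ R` for the thin half units);
* `PCon.arc_le`: the arcs `be 0 y` of the half units of the hub; `PCon.ar_ends`; `LevC.coV_hub`: share, misses and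
  arcs of a plain unit of value one of the hub.
-/

set_option autoImplicit false

namespace Pool.Agent.Lib.MP_f04ccf_co

open Finset

attribute [local instance] Classical.propDecidable

section HubIPure

/-- **room**: the main end of a thin half unit (served at `A`, host `X`, other end `W`) has few misses -/
lemma hubI_room {R C A X W b b' : ℝ} (hA : 1 ≤ A) (hX : 1 ≤ X) (hW : 1 ≤ W)
    (hs : A + X + W ≤ C) (hR : 2 * C ≤ R) (hD : A + b ≤ W + b')
    (hp : b * b' ≤ R + (A - 1) * (W - 1)) : 2 * A + X + b ≤ R := by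
  by_contra hcon
  push Not at hcon
  obtain ⟨T, hT⟩ : ∃ T, T = R - C := ⟨_, rfl⟩
  have h1 : T - A + W < b := by linarith
  have h2 : T < b' := by linarith
  have hTA : A + X + W ≤ T := by linarith
  have h3 : (T - A + W) * T < b * b' := by
    have h4 : 0 < T - A + W := by linarith
    have h5 : 0 < T := by linarith
    exact mul_lt_mul'' h1 h2 h4.le h5.le
  have h4 : R ≤ 2 * T := by linarith
  nlinarith [mul_nonneg (show (0 : ℝ) ≤ T - A - 2 by linarith) (show (0 : ℝ) ≤ T by linarith),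
    mul_nonneg (show (0 : ℝ) ≤ T - A by linarith) (show (0 : ℝ) ≤ W - 1 by linarith)]

/-- the complement of a used unit of a third host in the mixture -/
lemma hubI_mix {R A c b T : ℝ} (hc : 0 < c) (hRA : 0 < R - A) (hb : b ≤ R - A)
    (hT : T ≤ 1 - A / c) :
    (1 - b / (R - A)) * T ≤ 1 - ((c - A) * b + A * (R - A)) / (c * (R - A)) := by
  have e1 : 1 - ((c - A) * b + A * (R - A)) / (c * (R - A)) = (1 - b / (R - A)) * (1 - A / c) := by
    field_simp
    ring
  rw [e1]
  refine mul_le_mul_of_nonneg_left hT ?_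
  rw [sub_nonneg, div_le_one hRA]
  exact hb

/-- full and PC units of a third host -/
lemma hubI_full {A X c : ℝ} (hA : 0 < A) (hX : 0 ≤ X) (hs : A + X ≤ c) :
    X / (X + A) ≤ 1 - A / c := by
  have hc : 0 < c := by linarith
  have h1 : 0 < X + A := by linarith
  rw [div_le_iff₀ h1]
  have e1 : (1 - A / c) * (X + A) = X + A * (c - (X + A)) / c := by
    field_simp
    ring
  rw [e1]
  have h2 : 0 ≤ A * (c - (X + A)) / c := by
    apply div_nonneg (mul_nonneg hA.le (by linarith)) hc.le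
  linarith

/-- **thin half units of a third host**: `T = X / (X + (A + b))` -/
lemma hubI_half {R A X c b : ℝ} (hA : 0 < A) (hX : 0 ≤ X) (hb : 0 ≤ b) (hs : A + X ≤ c)
    (hRA : 0 < R - A) (hr : 2 * A + X + b ≤ R) :
    X / (X + (A + b)) ≤ 1 - ((c - A) * b + A * (R - A)) / (c * (R - A)) := by
  have hc : 0 < c := by linarith
  have h1 : 0 < X + (A + b) := by linarith
  rw [div_le_iff₀ h1]
  have e1 : (1 - ((c - A) * b + A * (R - A)) / (c * (R - A))) * (X + (A + b)) - X
      = (A * (R - A) * (c - A - X) + b * (c - A) * (R - 2 * A - X - b)) / (c * (R - A)) := by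
    field_simp
    ring
  have h2 : 0 ≤ (A * (R - A) * (c - A - X) + b * (c - A) * (R - 2 * A - X - b))
      / (c * (R - A)) := by
    apply div_nonneg _ (mul_pos hc hRA).le
    have h3 := mul_nonneg (mul_nonneg hA.le hRA.le) (show (0 : ℝ) ≤ c - A - X by linarith)
    have h4 := mul_nonneg (mul_nonneg hb (show (0 : ℝ) ≤ c - A by linarith))
      (show (0 : ℝ) ≤ R - 2 * A - X - b by linarith)
    linarith
  linarith

/-- the share of the ends of a half unit with an end at the hub -/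
lemma hubI_T {R C A X b1 : ℝ} (hA : 1 ≤ A) (hX : 1 ≤ X) (hs : A + X ≤ C) (hR : 2 * C ≤ R)
    (hb : b1 ≤ C + 1) : X * b1 / (C * (R - X)) ≤ 1 - A / (C + 1) := by
  have hC : 0 < C := by linarith
  have hRX : 0 < R - X := by linarith
  have e1 : 1 - A / (C + 1) = (C + 1 - A) / (C + 1) := by
    field_simp
  rw [e1, div_le_div_iff₀ (mul_pos hC hRX) (by linarith)]
  have h1 : X * b1 * (C + 1) ≤ X * (C + 1) * (C + 1) := by
    have := mul_le_mul_of_nonneg_left hb (show (0 : ℝ) ≤ X by linarith)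
    exact mul_le_mul_of_nonneg_right this (by linarith)
  have h2 : (X + 1) * (C * (2 * C - X)) ≤ (C + 1 - A) * (C * (R - X)) := by
    have h3 : 0 ≤ C * (2 * C - X) := mul_nonneg hC.le (by linarith)
    have h4 : C * (2 * C - X) ≤ C * (R - X) := mul_le_mul_of_nonneg_left (by linarith) hC.le
    exact mul_le_mul (by linarith) h4 h3 (by linarith)
  have h3 : X * (C + 1) * (C + 1) ≤ (X + 1) * (C * (2 * C - X)) := by
    nlinarith [mul_nonneg (mul_nonneg hC.le (show (0 : ℝ) ≤ X by linarith))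
      (show (0 : ℝ) ≤ C - X - 1 by linarith), mul_nonneg hC.le (show (0 : ℝ) ≤ C - X - 1 by linarith)]
  linarith

/-- **a thin hosted unit**: `D = A m + b` -/
lemma hubI_thin {R A D : ℝ} (hA : 0 ≤ A) (hD : 0 < A + D) (h : 2 * A + D ≤ R) :
    1 - A / (A + D) ≤ 1 - A / (R - A) := by
  have h1 : 0 < R - A := by linarith
  have : A / (R - A) ≤ A / (A + D) := div_le_div_of_nonneg_left hA hD (by linarith)
  linarith

/-- the loss of a thin hosted unit without room -/
lemma hubI_thin_loss {R A D : ℝ} (hD : 0 < A + D) (hRA : 0 < R - A) :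
    1 - A / (A + D) = 1 - A / (R - A) + A * (2 * A + D - R) / ((R - A) * (A + D)) := by
  field_simp
  ring

/-- the inequality behind `hubI_arc` -/
lemma hubI_core {T C e : ℝ} (h1 : C ≤ T) (h2 : 24 ≤ T + C) (h3 : 2 ≤ C) :
    0 ≤ (T + C) * (T * (e ^ 2 + C) - ((C + e) ^ 2 + 2 * (C + e)))
      + C * (C + 1) * (C ^ 2 - e ^ 2) / 4 := by
  have hT : 12 ≤ T := by linarith
  rcases le_total 12 C with h6 | h6
  · have k1 : 0 ≤ (3 * C - 1) * e ^ 2 - 2 * (C + 1) * e + 2 * C ^ 2 - 2 * C := by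
      nlinarith [sq_nonneg (e - 1), mul_nonneg (show (0 : ℝ) ≤ C - 2 by linarith) (sq_nonneg e)]
    have k2 : 0 ≤ (e ^ 2 + C) * (T + 2 * C) - ((C + e) ^ 2 + 2 * (C + e)) := by
      nlinarith [mul_nonneg (show (0 : ℝ) ≤ T - C by linarith)
        (show (0 : ℝ) ≤ e ^ 2 + C by positivity)]
    have k3 : 0 ≤ e ^ 2 * (7 * C / 4 - 9 / 4) - 4 * (C + 1) * e + C ^ 2 * (C + 1) / 4 - 4 * C := by
      nlinarith [sq_nonneg (e - 2), sq_nonneg (e - 3),
        mul_nonneg (show (0 : ℝ) ≤ C - 12 by linarith) (sq_nonneg e),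
        mul_nonneg (show (0 : ℝ) ≤ C - 12 by linarith) (sq_nonneg (e - 2)),
        mul_nonneg (show (0 : ℝ) ≤ C - 12 by linarith) (show (0 : ℝ) ≤ C by linarith),
        mul_nonneg (mul_nonneg (show (0 : ℝ) ≤ C - 12 by linarith)
          (show (0 : ℝ) ≤ C by linarith)) (show (0 : ℝ) ≤ C by linarith)]
    have k4 := mul_nonneg (show (0 : ℝ) ≤ T - C by linarith) k2
    have k5 := mul_nonneg (show (0 : ℝ) ≤ C by linarith) k3
    nlinarith [k4, k5]
  · have k1 : 0 ≤ (T - (24 - C)) * ((T + 24) * (e ^ 2 + C) - ((C + e) ^ 2 + 2 * (C + e))) := by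
      refine mul_nonneg (by linarith) ?_
      nlinarith [sq_nonneg (e - 1), mul_nonneg (show (0 : ℝ) ≤ T - 12 by linarith)
        (show (0 : ℝ) ≤ e ^ 2 + C by positivity), sq_nonneg (e - C)]
    have g1 : 0 ≤ e ^ 2 * (24 * (23 - C) - C * (C + 1) / 4 - 225) := by
      refine mul_nonneg (sq_nonneg e) ?_
      nlinarith
    have g2 : 0 ≤ C ^ 4 / 4 + C ^ 3 / 4 - 50.56 * C ^ 2 + 522.88 * C - 2.56 := by
      nlinarith [mul_nonneg (show (0 : ℝ) ≤ C - 2 by linarith)
        (show (0 : ℝ) ≤ 12 - C by linarith),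
        mul_nonneg (mul_nonneg (show (0 : ℝ) ≤ C - 2 by linarith)
          (show (0 : ℝ) ≤ C by linarith)) (show (0 : ℝ) ≤ 12 - C by linarith),
        sq_nonneg (C ^ 2 - 81), sq_nonneg (C - 9)]
    have g3 : 0 ≤ (15 * e - 1.6 * (C + 1)) ^ 2 := sq_nonneg _
    have k2 : 0 ≤ 24 * (e ^ 2 * (23 - C) - 2 * e * (C + 1) + 22 * C - 2 * C ^ 2)
        + C * (C + 1) * (C ^ 2 - e ^ 2) / 4 := by
      nlinarith [g1, g2, g3]
    nlinarith [k1, k2]

/-- **the arcs of a half unit of the hub**, pure form: `u` PC pairs of the cell `{0, y}`, `Y = A y`, low branch -/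
lemma hubI_arc {R C A Y u : ℝ} (hA : 1 ≤ A) (hY : 1 ≤ Y) (hs : A + Y ≤ C) (hR : 2 * C ≤ R)
    (hR2 : 24 ≤ R) (hu : 0 ≤ u) (huY : u ≤ Y)
    (h : (u - 1) * R ≤ (R - C - 1) * (Y - 1) + u ^ 2) :
    4 * R * (A * u) ≤ C * (C + 1) * (R - A) := by
  obtain ⟨T, hT⟩ : ∃ T, T = R - C := ⟨_, rfl⟩
  obtain ⟨Z, hZ⟩ : ∃ Z, Z = C - Y := ⟨_, rfl⟩
  have hAZ : A ≤ Z := by linarith
  have h1 : u * (R - u) ≤ T * Y + Z + 1 := by
    have : (R - C - 1) * (Y - 1) = T * Y - T - Y + 1 := by rw [hT]; ring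
    nlinarith
  have hRY : 0 < R - Y := by linarith
  have h2 : u * (R - Y) ≤ T * Y + Z + 1 := by
    have := mul_le_mul_of_nonneg_left (show R - Y ≤ R - u by linarith) hu
    linarith
  have h3 := hubI_core (T := T) (C := C) (e := Z - Y) (by linarith) (by linarith) (by linarith)
  have h4 : 4 * R * (Z * (T * Y + Z + 1)) ≤ C * (C + 1) * (T + Y) * (R - Y) := by
    have e1 : C = Y + Z := by linarith
    have e2 : R = T + Y + Z := by linarith
    rw [e1] at h3
    rw [e2, e1]
    nlinarith [h3]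
  have h5 : 4 * R * (Z * u) ≤ C * (C + 1) * (T + Y) := by
    have h6 : 4 * R * (Z * (u * (R - Y))) ≤ 4 * R * (Z * (T * Y + Z + 1)) := by
      refine mul_le_mul_of_nonneg_left (mul_le_mul_of_nonneg_left h2 (by linarith)) (by linarith)
    have h7 : (4 * R * (Z * u)) * (R - Y) ≤ (C * (C + 1) * (T + Y)) * (R - Y) := by
      calc (4 * R * (Z * u)) * (R - Y) = 4 * R * (Z * (u * (R - Y))) := by ring
        _ ≤ _ := h6.trans h4
    exact le_of_mul_le_mul_right h7 hRY
  have h8 : 4 * R * (A * u) ≤ 4 * R * (Z * u) := by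
    refine mul_le_mul_of_nonneg_left (mul_le_mul_of_nonneg_right hAZ hu) (by linarith)
  have h9 : C * (C + 1) * (T + Y) ≤ C * (C + 1) * (R - A) := by
    refine mul_le_mul_of_nonneg_left (by linarith) (mul_nonneg (by linarith) (by linarith))
  linarith

end HubIPure

section HubIS

variable {ι : Type*} {R : ℤ} {n : ℕ} {t s mu : ℕ → ℤ} {U : Finset ι} {ho : ι → ℕ} {vl : ι → ℤ}
  {kp mn : ℕ → ι → ℤ} {pc ar : ι → ℤ} {be kq NN sg : ℕ → ℕ → ℤ} {nu : ℕ → ι → ℤ}
  {ψ : ι → ℕ → ℤ} {g : ℕ → ι → ℕ} {f : ι → ℕ}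

/-- the masses of three different rows -/
lemma PCon.mass3 (H : PCon R n t s mu U ho vl kp mn pc ar be kq NN sg nu) {i j k : ℕ} (hi : i < n)
    (hj : j < n) (hk : k < n) (hij : i ≠ j) (hik : i ≠ k) (hjk : j ≠ k) :
    (t i + 1) + (t j + 1) + (t k + 1) ≤ R := by
  have h1 : ∑ l ∈ ({i, j, k} : Finset ℕ), (t l + 1) ≤ ∑ l ∈ range n, (t l + 1) :=
    sum_le_sum_of_subset_of_nonneg (fun l hl => by
      simp only [mem_insert, mem_singleton] at hl
      rcases hl with rfl | rfl | rfl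
      · exact mem_range.2 hi
      · exact mem_range.2 hj
      · exact mem_range.2 hk) fun l hl _ => by
        have := H.t0 l (mem_range.1 hl)
        linarith
  rw [sum_insert (by simp [hij, hik]), sum_insert (by simp [hjk]), sum_singleton] at h1
  have := H.tsum
  linarith

/-- the masses of four different rows -/
lemma PCon.mass4 (H : PCon R n t s mu U ho vl kp mn pc ar be kq NN sg nu) {i j k l : ℕ} (hi : i < n)
    (hj : j < n) (hk : k < n) (hl : l < n) (hij : i ≠ j) (hik : i ≠ k) (hil : i ≠ l) (hjk : j ≠ k)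
    (hjl : j ≠ l) (hkl : k ≠ l) :
    (t i + 1) + (t j + 1) + (t k + 1) + (t l + 1) ≤ R := by
  have h1 : ∑ x ∈ ({i, j, k, l} : Finset ℕ), (t x + 1) ≤ ∑ x ∈ range n, (t x + 1) :=
    sum_le_sum_of_subset_of_nonneg (fun x hx => by
      simp only [mem_insert, mem_singleton] at hx
      rcases hx with rfl | rfl | rfl | rfl
      · exact mem_range.2 hi
      · exact mem_range.2 hj
      · exact mem_range.2 hk
      · exact mem_range.2 hl) fun x hx _ => by
        have := H.t0 x (mem_range.1 hx)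
        linarith
  rw [sum_insert (by simp [hij, hik, hil]), sum_insert (by simp [hjk, hjl]),
    sum_insert (by simp [hkl]), sum_singleton] at h1
  have := H.tsum
  linarith

/-- a unit of an item of value one without cut end has no misses -/
lemma LevC.full_unb (Lv : LevC n U ho vl kp mn pc (phiH R n t ho vl mn ψ) g f)
    {v : ι × ℕ × ℕ} (hv : v ∈ unV n U g) (h1 : vl v.1 = 1) (h2 : ¬ twoE vl kp g f v.1) :
    unb kp mn g v = 0 := by
  obtain ⟨h3, h4, h5⟩ := LevC.mem_unV hv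
  rcases Lv.typ v.1 h3 with ⟨-, -, -, h6, h7⟩ | ⟨-, h6, -, -⟩
  · have h8 : v.2.1 = f v.1 := by
      by_contra hcon
      have h9 := Lv.le v.1 h3 v.2.1 h4
      rw [h7 v.2.1 h4 hcon] at h9
      have h10 : (1 : ℤ) ≤ (g v.2.1 v.1 : ℤ) := by exact_mod_cast (by omega : 1 ≤ g v.2.1 v.1)
      linarith
    unfold unb
    split_ifs
    · rw [h8]
      exact h6
    · rfl
  · exact absurd ⟨h1, h6⟩ h2

/-- **the units of a third host with main end `z`**: the share is at most one minus the coefficient of `hubC` -/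
theorem LevC.coV_third (Lv : LevC n U ho vl kp mn pc (phiH R n t ho vl mn ψ) g f)
    (H : PCon R n t s mu U ho vl kp mn pc ar be kq NN sg nu) (hR : R ≤ 2 * (t 0 + 1))
    {v : ι × ℕ × ℕ} (hv : v ∈ unV n U g) {z : ℕ} (hz : v.2.1 = z) (hz0 : z ≠ 0) (hh : ho v.1 ≠ 0)
    (hb : unb kp mn g v ≤ R - (t z + 1)) :
    (1 - wuH R t ho vl kp mn g f v) * TuH R t ho vl kp mn g f v
      ≤ 1 - ((((R : ℝ) - t 0) - (t z + 1)) * unb kp mn g v + (t z + 1) * (R - (t z + 1)))
        / (((R : ℝ) - t 0) * (R - (t z + 1))) := by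
  obtain ⟨h1, h2, h3⟩ := LevC.mem_unV hv
  have hzn : z < n := hz ▸ h2
  have hhn := H.hlt v.1 h1
  have hn : 0 < n := by have := H.n5; omega
  have hhz : ho v.1 ≠ z := by rw [← hz]; exact (Lv.main_ne hv).symm
  have hm3 := H.mass3 hn hzn hhn (Ne.symm hz0) (Ne.symm hh) (Ne.symm hhz)
  have ht0 := H.t0 0 hn
  have htz := H.t0 z hzn
  have hth := H.t0 (ho v.1) hhn
  have hm3' : ((t 0 : ℝ) + 1) + ((t z : ℝ) + 1) + ((t (ho v.1) : ℝ) + 1) ≤ R := by
    exact_mod_cast hm3
  have ht0' : (0 : ℝ) ≤ t 0 := by exact_mod_cast ht0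
  have htz' : (0 : ℝ) ≤ t z := by exact_mod_cast htz
  have hth' : (0 : ℝ) ≤ t (ho v.1) := by exact_mod_cast hth
  have hR' : (R : ℝ) ≤ 2 * (t 0 + 1) := by exact_mod_cast hR
  have hb' : (unb kp mn g v : ℝ) ≤ R - (t z + 1) := by exact_mod_cast hb
  have hb0 : (0 : ℝ) ≤ unb kp mn g v := by exact_mod_cast LevC.unb_nonneg H hv
  have hc : (0 : ℝ) < (R : ℝ) - t 0 := by linarith
  have hRA : (0 : ℝ) < (R : ℝ) - (t z + 1) := by linarith
  unfold TuH wuH
  rw [if_neg hh, if_neg (show v.2.1 ≠ 0 by rw [hz]; exact hz0)]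
  by_cases hC : hubC ho vl kp g f v.1
  · rw [if_pos hC, if_pos hC, hz]
    refine hubI_mix hc hRA hb' ?_
    have h4 := H.mnc v.1 h1 0 hn
    have h4' : (mn 0 v.1 : ℝ) ≤ R - t 0 := by exact_mod_cast h4
    have h5 := hubI_T (R := (R : ℝ)) (C := (R : ℝ) - (t 0 + 1)) (A := (t z : ℝ) + 1)
      (X := (t (ho v.1) : ℝ) + 1) (b1 := (mn 0 v.1 : ℝ)) (by linarith) (by linarith)
      (by linarith) (by linarith) (by linarith)
    rwa [show (R : ℝ) - (t 0 + 1) + 1 = R - t 0 by ring] at h5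
  · rw [if_neg hC, if_neg hC, sub_zero, one_mul]
    by_cases h4 : vl v.1 = 1
    · rw [if_pos h4, hz]
      refine hubI_half (by linarith) (by linarith) hb0 (by linarith) hRA ?_
      by_cases h5 : twoE vl kp g f v.1
      · have h6 : f v.1 ≠ 0 := fun h => hC ⟨h5, hh, h⟩
        obtain ⟨-, h7, h8, -, h9, -, h10, -, h11, -, -⟩ := Lv.two_facts H hv h5
        have h12 := Lv.two_D H hv h5 hh h6
        rw [hz] at h8 h11 h12
        have e1 : unb kp mn g v = mn z v.1 := by
          unfold unt at h10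
          rw [if_pos rfl, hz] at h10
          exact h10
        have hm4 := H.mass4 hn hzn hhn h7 (Ne.symm hz0) (Ne.symm hh) (Ne.symm h6) (Ne.symm hhz)
          h8 (Ne.symm h9)
        have htf : (0 : ℝ) ≤ t (f v.1) := by exact_mod_cast H.t0 (f v.1) h7
        have hm4' : ((t 0 : ℝ) + 1) + ((t z : ℝ) + 1) + ((t (ho v.1) : ℝ) + 1)
          + ((t (f v.1) : ℝ) + 1) ≤ R := by exact_mod_cast hm4
        have h11' : (mn z v.1 : ℝ) * mn (f v.1) v.1 ≤ R + t z * t (f v.1) := by
          exact_mod_cast h11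
        have h12' : (t z : ℝ) + mn z v.1 ≤ t (f v.1) + mn (f v.1) v.1 := by exact_mod_cast h12
        rw [e1]
        refine hubI_room (C := (R : ℝ) - (t 0 + 1)) (W := (t (f v.1) : ℝ) + 1)
          (b' := (mn (f v.1) v.1 : ℝ)) (by linarith) (by linarith) (by linarith) (by linarith)
          (by linarith) (by linarith) ?_
        nlinarith
      · have h6 := Lv.full_unb hv h4 h5
        rw [h6]
        push_cast
        linarith
    · rw [if_neg h4, hz]
      have h5 := hubI_mix (A := (t z : ℝ) + 1) (T := ((t (ho v.1) : ℝ) + 1)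
        / ((t (ho v.1) : ℝ) + 1 + ((t z : ℝ) + 1))) hc hRA hb'
        (hubI_full (by linarith) (by linarith) (by linarith))
      rw [mul_comm]
      exact h5

/-- **the thin hosted units have room**: full units -/
lemma LevC.room_full (H : PCon R n t s mu U ho vl kp mn pc ar be kq NN sg nu)
    (hR : R ≤ 2 * (t 0 + 1)) {z m : ℕ} (hz : z < n) (hm : m < n) (hz0 : z ≠ 0) (hm0 : m ≠ 0)
    (hzm : z ≠ m) : 2 * (t z + 1) + (t m + 1) ≤ R := by
  have hn : 0 < n := by have := H.n5; omega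
  have h1 := H.mass3 hn hz hm (Ne.symm hz0) (Ne.symm hm0) hzm
  have h2 := H.t0 m hm
  linarith

/-- **the units hosted at `z`**: the share is at most one minus the coefficient of `hubC`
(for the units with main end `≠ 0` and no end at the hub: if `A / (R - A) ≤ T`) -/
theorem LevC.coV_host (Lv : LevC n U ho vl kp mn pc (phiH R n t ho vl mn ψ) g f)
    (H : PCon R n t s mu U ho vl kp mn pc ar be kq NN sg nu)
    {v : ι × ℕ × ℕ} (hv : v ∈ unV n U g) {z : ℕ} (hz : ho v.1 = z) (hz0 : z ≠ 0)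
    (hT : v.2.1 ≠ 0 → ¬ hubC ho vl kp g f v.1 →
      ((t z : ℝ) + 1) / (R - (t z + 1)) ≤ TuH R t ho vl kp mn g f v) :
    1 - TuH R t ho vl kp mn g f v
      ≤ 1 - ((t z : ℝ) + 1) * (((R : ℝ) - t 0) - unh R t vl kp mn g f v 0)
        / (((R : ℝ) - t 0) * (R - (t z + 1))) := by
  obtain ⟨h1, h2, h3⟩ := LevC.mem_unV hv
  have hzn : z < n := hz ▸ H.hlt v.1 h1
  have hn : 0 < n := by have := H.n5; omega
  have hm2 : (t 0 + 1) + (t z + 1) ≤ R := by
    have h4 := H.tsum
    have h5 : ∑ l ∈ ({0, z} : Finset ℕ), (t l + 1) ≤ ∑ l ∈ range n, (t l + 1) :=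
      sum_le_sum_of_subset_of_nonneg (fun l hl => by
        simp only [mem_insert, mem_singleton] at hl
        rcases hl with rfl | rfl
        · exact mem_range.2 hn
        · exact mem_range.2 hzn) fun l hl _ => by
          have := H.t0 l (mem_range.1 hl)
          linarith
    rw [sum_pair (Ne.symm hz0)] at h5
    linarith
  have hm2' : ((t 0 : ℝ) + 1) + ((t z : ℝ) + 1) ≤ R := by exact_mod_cast hm2
  have ht0' : (0 : ℝ) ≤ t 0 := by exact_mod_cast H.t0 0 hn
  have htz' : (0 : ℝ) ≤ t z := by exact_mod_cast H.t0 z hzn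
  have hc : (0 : ℝ) < (R : ℝ) - t 0 := by linarith
  have hRA : (0 : ℝ) < (R : ℝ) - (t z + 1) := by linarith
  have hh : ho v.1 ≠ 0 := by rw [hz]; exact hz0
  by_cases h4 : v.2.1 = 0
  · -- the main end is the hub
    have h5 := Lv.hub_unb H hv hh h4
    have h6 := Lv.unh_main H hv
    rw [h4, h5, sub_zero] at h6
    unfold TuH
    rw [if_neg hh, if_pos h4, h6]
    push_cast
    rw [sub_self, mul_zero, zero_div]
  · by_cases hC : hubC ho vl kp g f v.1
    · have h6 := Lv.unh_cut H hv hC.1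
      rw [hC.2.2] at h6
      unfold TuH
      rw [if_neg hh, if_neg h4, if_pos hC, h6, hz]
      push_cast
      have h7 : (0 : ℝ) ≤ mn 0 v.1 := by exact_mod_cast H.m0 v.1 h1 0 hn
      have e1 : (R : ℝ) - t 0 - (R - t 0 - mn 0 v.1) = mn 0 v.1 := by ring
      rw [e1]
      have hC1 : (0 : ℝ) < (R : ℝ) - (t 0 + 1) := by linarith
      have h8 : ((t z : ℝ) + 1) * mn 0 v.1 / (((R : ℝ) - t 0) * (R - (t z + 1)))
          ≤ ((t z : ℝ) + 1) * mn 0 v.1 / (((R : ℝ) - (t 0 + 1)) * (R - (t z + 1))) := by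
        refine div_le_div_of_nonneg_left (mul_nonneg (by linarith) h7) (mul_pos hC1 hRA) ?_
        exact mul_le_mul_of_nonneg_right (by linarith) hRA.le
      linarith
    · have h5 := hT h4 hC
      have h6 : unh R t vl kp mn g f v 0 = 0 := by
        unfold unh
        rw [if_neg h4, zero_add]
        refine if_neg ?_
        rintro ⟨h7, h8⟩
        exact hC ⟨h7, hh, h8⟩
      rw [h6]
      push_cast
      rw [sub_zero]
      have e1 : ((t z : ℝ) + 1) * ((R : ℝ) - t 0) / (((R : ℝ) - t 0) * (R - (t z + 1)))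
          = ((t z : ℝ) + 1) / (R - (t z + 1)) := by
        field_simp
      rw [e1]
      linarith

/-- the condition of `coV_host` for the units of value one, from room at the main end -/
lemma LevC.host_one (H : PCon R n t s mu U ho vl kp mn pc ar be kq NN sg nu)
    {v : ι × ℕ × ℕ} (hv : v ∈ unV n U g) {z : ℕ} (hz : ho v.1 = z) (hz0 : z ≠ 0)
    (h1 : vl v.1 = 1) (h0 : v.2.1 ≠ 0) (hC : ¬ hubC ho vl kp g f v.1)
    (hr : 2 * (t z + 1) + ((t v.2.1 + 1) + unb kp mn g v) ≤ R) :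
    ((t z : ℝ) + 1) / (R - (t z + 1)) ≤ TuH R t ho vl kp mn g f v := by
  obtain ⟨h2, h3, h4⟩ := LevC.mem_unV hv
  have hzn : z < n := hz ▸ H.hlt v.1 h2
  have htz' : (0 : ℝ) ≤ t z := by exact_mod_cast H.t0 z hzn
  have htm : (0 : ℝ) ≤ t v.2.1 := by exact_mod_cast H.t0 v.2.1 h3
  have hb0 : (0 : ℝ) ≤ unb kp mn g v := by exact_mod_cast LevC.unb_nonneg H hv
  have hr' : 2 * ((t z : ℝ) + 1) + ((t v.2.1 : ℝ) + 1 + unb kp mn g v) ≤ R := by exact_mod_cast hr
  have h5 := hubI_thin (R := (R : ℝ)) (A := (t z : ℝ) + 1)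
    (D := (t v.2.1 : ℝ) + 1 + unb kp mn g v) (by linarith) (by linarith) hr'
  unfold TuH
  rw [if_neg (show ho v.1 ≠ 0 by rw [hz]; exact hz0), if_neg h0, if_neg hC, if_pos h1, hz]
  linarith

/-- **low branch**: at most `A y` PC pairs in the cell of the hub and a thin row `y` -/
theorem PCon.be_low (H : PCon R n t s mu U ho vl kp mn pc ar be kq NN sg nu)
    (hR : R ≤ 2 * (t 0 + 1)) (hR2 : 6 ≤ R) {z y : ℕ} (hz : z < n) (hy : y < n) (hz0 : z ≠ 0)
    (hy0 : y ≠ 0) (hzy : z ≠ y) : be 0 y + be y 0 ≤ t y + 1 := by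
  have hn : 0 < n := by have := H.n5; omega
  have h1 := H.mass3 hn hz hy (Ne.symm hz0) (Ne.symm hy0) hzy
  have hty := H.t0 y hy
  have htz := H.t0 z hz
  by_contra hcon
  push Not at hcon
  have h2 := H.jsub 0 hn y hy (Ne.symm hy0) (t y + 2).toNat (by
    rw [Int.toNat_of_nonneg (by linarith)]
    linarith)
  rw [Int.toNat_of_nonneg (by linarith)] at h2
  have e1 : (R - t 0) * t y + R ≤ (t y + 2) ^ 2 := by nlinarith
  have h3 : (t y + 3) * t y ≤ (R - t 0) * t y := mul_le_mul_of_nonneg_right (by linarith) hty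
  nlinarith

/-- **the arcs from the hub to the PC pairs of another thin row** -/
theorem PCon.arc_le (H : PCon R n t s mu U ho vl kp mn pc ar be kq NN sg nu)
    (hR : R ≤ 2 * (t 0 + 1)) (hR2 : 24 ≤ R) {z y : ℕ} (hz : z < n) (hy : y < n) (hz0 : z ≠ 0)
    (hy0 : y ≠ 0) (hzy : z ≠ y) :
    ((t z : ℝ) + 1) * be 0 y
      ≤ (((R : ℝ) - t 0) * (R - (t z + 1))) * (((R : ℝ) - (t 0 + 1)) / (4 * R)) := by
  have hn : 0 < n := by have := H.n5; omega
  have h1 := H.mass3 hn hz hy (Ne.symm hz0) (Ne.symm hy0) hzy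
  have h2 := H.be_low hR (by linarith) hz hy hz0 hy0 hzy
  have h3 := H.be0 0 hn y hy
  have h4 := H.be0 y hy 0 hn
  have h5 := H.jsub 0 hn y hy (Ne.symm hy0) (be 0 y).toNat (by
    rw [Int.toNat_of_nonneg h3]
    linarith)
  rw [Int.toNat_of_nonneg h3] at h5
  have h1' : ((t 0 : ℝ) + 1) + ((t z : ℝ) + 1) + ((t y : ℝ) + 1) ≤ R := by exact_mod_cast h1
  have hR' : (R : ℝ) ≤ 2 * (t 0 + 1) := by exact_mod_cast hR
  have hR2' : (24 : ℝ) ≤ R := by exact_mod_cast hR2
  have htz : (0 : ℝ) ≤ t z := by exact_mod_cast H.t0 z hz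
  have hty : (0 : ℝ) ≤ t y := by exact_mod_cast H.t0 y hy
  have h3' : (0 : ℝ) ≤ be 0 y := by exact_mod_cast h3
  have h6' : (be 0 y : ℝ) ≤ t y + 1 := by
    have h6 : be 0 y ≤ t y + 1 := by linarith
    exact_mod_cast h6
  have h5' : ((be 0 y : ℝ) - 1) * R ≤ t 0 * t y + (be 0 y : ℝ) ^ 2 := by exact_mod_cast h5
  have h7 := hubI_arc (R := (R : ℝ)) (C := (R : ℝ) - (t 0 + 1)) (A := (t z : ℝ) + 1)
    (Y := (t y : ℝ) + 1) (u := (be 0 y : ℝ)) (by linarith) (by linarith) (by linarith)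
    (by linarith) hR2' h3' h6' (by
      have e1 : ((R : ℝ) - (R - (t 0 + 1)) - 1) * ((t y : ℝ) + 1 - 1) = t 0 * t y := by ring
      rw [e1]
      exact h5')
  have hR0 : (0 : ℝ) < 4 * R := by linarith
  rw [← mul_div_assoc, le_div_iff₀ hR0]
  have e2 : (R : ℝ) - (t 0 + 1) + 1 = R - t 0 := by ring
  rw [e2] at h7
  linarith

/-- **the arcs of a plain item of the host**: only the PC pairs of its ends -/
theorem PCon.ar_ends (H : PCon R n t s mu U ho vl kp mn pc ar be kq NN sg nu) {u : ι} (hu : u ∈ U)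
    (hp : pc u = 0) {S : Finset ℕ} (hS : S ⊆ range n) (hSk : ∀ j < n, kp j u ≠ 0 → j ∈ S) :
    ar u ≤ ∑ j ∈ S, be (ho u) j := by
  have h1 := H.arU u hu
  have hh := H.hlt u hu
  rw [hp, zero_add] at h1
  refine h1.trans ?_
  have h2 : ∑ j ∈ (range n).erase (ho u), (nu j u + if kp j u = 0 then 0 else be (ho u) j - 0)
      = ∑ j ∈ ((range n).erase (ho u)).filter (fun j => kp j u ≠ 0), be (ho u) j := by
    rw [sum_filter]
    refine sum_congr rfl fun j hj => ?_
    rw [H.nup u hu hp j (mem_range.1 (mem_of_mem_erase hj)), zero_add]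
    by_cases h3 : kp j u = 0
    · rw [if_pos h3, if_neg (by simp [h3])]
    · rw [if_neg h3, if_pos h3, sub_zero]
  rw [h2]
  refine sum_le_sum_of_subset_of_nonneg (fun j hj => ?_) fun j hj _ =>
    H.be0 (ho u) hh j (mem_range.1 (hS hj))
  obtain ⟨h3, h4⟩ := mem_filter.1 hj
  exact hSk j (mem_range.1 (mem_of_mem_erase h3)) h4

/-- **the plain units of value one of the hub with main end `z`**: share, misses and arcs -/
theorem LevC.coV_hub (Lv : LevC n U ho vl kp mn pc (phiH R n t ho vl mn ψ) g f)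
    (H : PCon R n t s mu U ho vl kp mn pc ar be kq NN sg nu) (hR : R ≤ 2 * (t 0 + 1))
    (hR2 : 24 ≤ R) {v : ι × ℕ × ℕ} (hv : v ∈ unV n U g) {z : ℕ} (hz : v.2.1 = z) (hz0 : z ≠ 0)
    (hh : ho v.1 = 0) (h1 : vl v.1 = 1) (hp : pc v.1 = 0) :
    (((R : ℝ) - t 0) * (R - (t z + 1))) * TuH R t ho vl kp mn g f v
        + ((R : ℝ) - t 0) * unb kp mn g v + ((t z : ℝ) + 1) * ar v.1
      ≤ ((R : ℝ) - t 0) * (R - (t z + 1)) + ((t z : ℝ) + 1) * be 0 z := by
  obtain ⟨h2, h3, h4⟩ := LevC.mem_unV hv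
  have hzn : z < n := hz ▸ h3
  have hn : 0 < n := by have := H.n5; omega
  have htz : (0 : ℝ) ≤ t z := by exact_mod_cast H.t0 z hzn
  have hcut : cutE kp g f v.1 ↔ twoE vl kp g f v.1 := ⟨fun h => ⟨h1, h⟩, fun h => h.2⟩
  unfold TuH
  rw [if_pos hh]
  by_cases h5 : twoE vl kp g f v.1
  · rw [if_pos (hcut.2 h5), hz]
    obtain ⟨-, h6, h7, -, h8, -, -⟩ := Lv.two_facts H hv h5
    rw [hz] at h7
    rw [hh] at h8
    have h9 : ar v.1 ≤ be 0 z + be 0 (f v.1) := by
      have h10 := H.ar_ends h2 hp (S := {z, f v.1}) (fun j hj => by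
        simp only [mem_insert, mem_singleton] at hj
        rcases hj with rfl | rfl
        · exact mem_range.2 hzn
        · exact mem_range.2 h6) fun j hj hjk => by
        simp only [mem_insert, mem_singleton]
        by_contra hcon
        push Not at hcon
        obtain ⟨m, -, -, -, -, hm1, -, -, hm3⟩ := Lv.half H h2 h1 h5.2
        have h11 : m = z := by
          by_contra h12
          have h13 := hm3 z hzn (Ne.symm h12) h7
          rw [hz, h13.2] at h4
          omega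
        rw [h11] at hm3
        exact hjk (hm3 j hj hcon.1 hcon.2).1
      rw [sum_pair h7, hh] at h10
      exact h10
    have h10 := H.arc_le hR hR2 hzn h6 hz0 h8 h7
    have h9' : (ar v.1 : ℝ) ≤ be 0 z + be 0 (f v.1) := by exact_mod_cast h9
    have hm2 := H.mass3 hn hzn h6 (Ne.symm hz0) (Ne.symm h8) h7
    have hm2' : ((t 0 : ℝ) + 1) + ((t z : ℝ) + 1) + ((t (f v.1) : ℝ) + 1) ≤ R := by
      exact_mod_cast hm2
    have htf : (0 : ℝ) ≤ t (f v.1) := by exact_mod_cast H.t0 (f v.1) h6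
    have ht0 : (0 : ℝ) ≤ t 0 := by exact_mod_cast H.t0 0 hn
    have hRA : (0 : ℝ) < (R : ℝ) - (t z + 1) := by linarith
    have e1 : ((R : ℝ) - t 0) * (R - (t z + 1)) * (1 - (unb kp mn g v : ℝ) / (R - (t z + 1))
        - ((R : ℝ) - (t 0 + 1)) / (4 * R)) = ((R : ℝ) - t 0) * (R - (t z + 1))
        - ((R : ℝ) - t 0) * unb kp mn g v
        - ((R : ℝ) - t 0) * (R - (t z + 1)) * (((R : ℝ) - (t 0 + 1)) / (4 * R)) := by
      field_simp
    rw [e1]
    have h11 := mul_le_mul_of_nonneg_left h9' (show (0 : ℝ) ≤ (t z : ℝ) + 1 by linarith)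
    linarith
  · rw [if_neg (mt hcut.1 h5)]
    have h6 := Lv.full_unb hv h1 h5
    have h7 : ar v.1 ≤ be 0 z := by
      have h10 := H.ar_ends h2 hp (S := {z}) (fun j hj => by
        rw [mem_singleton.1 hj]
        exact mem_range.2 hzn) fun j hj hjk => by
        rw [mem_singleton]
        by_contra hcon
        rcases Lv.typ v.1 h2 with ⟨-, -, -, -, h8⟩ | ⟨-, h8, -, -⟩
        · have h9 : j = f v.1 := by
            by_contra h11
            exact hjk (h8 j hj h11)
          have h12 : z = f v.1 := by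
            by_contra h13
            have h14 := Lv.le v.1 h2 z hzn
            rw [h8 z hzn h13] at h14
            rw [hz] at h4
            have h15 : (1 : ℤ) ≤ (g z v.1 : ℤ) := by exact_mod_cast (by omega : 1 ≤ g z v.1)
            linarith
          exact hcon (h9.trans h12.symm)
        · exact h5 ⟨h1, h8⟩
      rw [sum_singleton, hh] at h10
      exact h10
    have h7' : (ar v.1 : ℝ) ≤ be 0 z := by exact_mod_cast h7
    rw [h6]
    push_cast
    have h11 := mul_le_mul_of_nonneg_left h7' (show (0 : ℝ) ≤ (t z : ℝ) + 1 by linarith)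
    linarith

end HubIS

end Pool.Agent.Lib.MP_f04ccf_co
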