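import Pool.Agent.Lib.MP_f04ccf_co.M.FilU

/-!
MP_f04ccf_co, TEXT D: **every row has `d_z = mu z - s z ≥ 0`, and `≥ 1` as soon as one plain item or one block
pair is hosted there** (LEMMA H0; all rows, no hub condition).

* `PCon.two_rows`: `t i + t j + 5 ≤ R`; `PCon.be_le`, `PCon.be_le'`: `be i j + be j i ≤ t j + 1`, and `≤ t j` if
  `1 ≤ t j` (from `jsub`);
* `PCon.glob`: `∑ mu - 1 - (R - A z) ≤ d_z` (all other rows have `d_i ≤ A_i`);
* `PCon.bl_le`: the block pairs of a host are at most `R - A z`;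
* `PCon.hub_d`: `2 (R - m) d ≥ 2 P (C - P) + e (2 (C - P) - e + 1)`, `C = R - A z`, `P` the block pairs,
  `e` the plain value, `m = P + e` (the exact row test, all Konig pairs out);
* `PCon.d_nonneg`, `PCon.d_pos`.
-/

set_option autoImplicit false

namespace Pool.Agent.Lib.MP_f04ccf_co

open Finset

attribute [local instance] Classical.propDecidable

namespace PCon

variable {ι : Type*} {R : ℤ} {n : ℕ} {t s mu : ℕ → ℤ} {U : Finset ι} {ho : ι → ℕ} {vl : ι → ℤ}
  {kp mn : ℕ → ι → ℤ} {pc ar : ι → ℤ} {be kq NN sg : ℕ → ℕ → ℤ} {nu : ℕ → ι → ℤ}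

/-- two rows and at least three others -/
lemma two_rows (H : PCon R n t s mu U ho vl kp mn pc ar be kq NN sg nu) {i j : ℕ} (hi : i < n)
    (hj : j < n) (hij : i ≠ j) : t i + t j + 5 ≤ R := by
  have h1 := H.tsum
  have h2 := add_sum_erase (range n) (fun l => t l + 1) (mem_range.2 hi)
  have h3 := add_sum_erase ((range n).erase i) (fun l => t l + 1)
    (mem_erase.2 ⟨fun h => hij h.symm, mem_range.2 hj⟩)
  beta_reduce at h2 h3
  have h4 : (((range n).erase i).erase j).card • (1 : ℤ)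
      ≤ ∑ l ∈ ((range n).erase i).erase j, (t l + 1) := by
    refine card_nsmul_le_sum _ _ _ fun l hl => ?_
    have h5 := H.t0 l (mem_range.1 (mem_of_mem_erase (mem_of_mem_erase hl)))
    linarith
  have h5 : (((range n).erase i).erase j).card = n - 2 := by
    rw [card_erase_of_mem (mem_erase.2 ⟨fun h => hij h.symm, mem_range.2 hj⟩),
      card_erase_of_mem (mem_range.2 hi), card_range]
    omega
  have h6 := H.n5
  rw [h5, nsmul_eq_mul, mul_one] at h4
  have h7 : (3 : ℤ) ≤ ((n - 2 : ℕ) : ℤ) := by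
    have : 3 ≤ n - 2 := by omega
    exact_mod_cast this
  linarith

/-- the PC pairs of a cell -/
theorem be_le (H : PCon R n t s mu U ho vl kp mn pc ar be kq NN sg nu) {i j : ℕ} (hi : i < n)
    (hj : j < n) (hij : i ≠ j) : be i j + be j i ≤ t j + 1 := by
  by_contra hcon
  push Not at hcon
  have ht := H.t0 j hj
  have hti := H.t0 i hi
  have h2 := H.two_rows hi hj hij
  obtain ⟨m, hm⟩ := Int.eq_ofNat_of_zero_le (show (0 : ℤ) ≤ t j + 2 by linarith)
  have h3 := H.jsub i hi j hj hij m (by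
    have : ((m : ℕ) : ℤ) = t j + 2 := hm.symm
    rw [this]
    linarith)
  have h4 : ((m : ℕ) : ℤ) = t j + 2 := hm.symm
  rw [h4] at h3
  nlinarith [mul_nonneg ht hti]

theorem be_le' (H : PCon R n t s mu U ho vl kp mn pc ar be kq NN sg nu) {i j : ℕ} (hi : i < n)
    (hj : j < n) (hij : i ≠ j) (h1 : 1 ≤ t j) : be i j + be j i ≤ t j := by
  by_contra hcon
  push Not at hcon
  have hti := H.t0 i hi
  have h2 := H.two_rows hi hj hij
  obtain ⟨m, hm⟩ := Int.eq_ofNat_of_zero_le (show (0 : ℤ) ≤ t j + 1 by linarith)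
  have h4 : ((m : ℕ) : ℤ) = t j + 1 := hm.symm
  have h3 := H.jsub i hi j hj hij m (by rw [h4]; linarith)
  rw [h4] at h3
  nlinarith

/-- **the global bound**: the other rows have `d ≤ A` -/
theorem glob (H : PCon R n t s mu U ho vl kp mn pc ar be kq NN sg nu) {z : ℕ} (hz : z < n) :
    ∑ i ∈ range n, mu i - 1 - (R - (t z + 1)) ≤ mu z - s z := by
  have h1 : ∑ i ∈ (range n).erase z, (mu i - s i) ≤ ∑ i ∈ (range n).erase z, (t i + 1) := by
    refine sum_le_sum fun i hi => ?_
    have h2 := H.dt i (mem_range.1 (mem_of_mem_erase hi))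
    linarith
  have h2 := add_sum_erase (range n) (fun i => mu i - s i) (mem_range.2 hz)
  have h3 := add_sum_erase (range n) (fun i => t i + 1) (mem_range.2 hz)
  have h4 : ∑ i ∈ range n, (mu i - s i) = ∑ i ∈ range n, mu i - 1 := by
    rw [sum_sub_distrib, H.ss]
  have h5 := H.tsum
  beta_reduce at h2 h3
  linarith

lemma mu0 (H : PCon R n t s mu U ho vl kp mn pc ar be kq NN sg nu) {z : ℕ} (hz : z < n) :
    0 ≤ mu z := by
  rw [H.hmu z hz]
  refine sum_nonneg fun u hu => ?_
  have h1 := H.v1 u (mem_filter.1 hu).1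
  linarith

theorem glob1 (H : PCon R n t s mu U ho vl kp mn pc ar be kq NN sg nu) {z : ℕ} (hz : z < n) :
    mu z - 1 - (R - (t z + 1)) ≤ mu z - s z := by
  have h1 := H.glob hz
  have h2 := add_sum_erase (range n) mu (mem_range.2 hz)
  have h3 : 0 ≤ ∑ i ∈ (range n).erase z, mu i :=
    sum_nonneg fun i hi => H.mu0 (mem_range.1 (mem_of_mem_erase hi))
  linarith

/-- **the pieces used at a row count as well**: `e_z - 1 - C ≤ d_z` for any used pieces of other hosts -/
theorem glob_use (H : PCon R n t s mu U ho vl kp mn pc ar be kq NN sg nu) {z : ℕ} (hz : z < n)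
    {K : Finset ι} (hK : K ⊆ U) (hh : ∀ u ∈ K, ho u ≠ z) {g : ι → ℕ}
    (hg : ∀ u ∈ K, (g u : ℤ) ≤ kp z u) :
    mu z + ∑ u ∈ K, (g u : ℤ) - 1 - (R - (t z + 1)) ≤ mu z - s z := by
  have h1 := H.glob hz
  have h2 := add_sum_erase (range n) mu (mem_range.2 hz)
  have h3 : ∑ u ∈ K, (g u : ℤ) ≤ ∑ i ∈ (range n).erase z, mu i := by
    have e1 : ∑ i ∈ (range n).erase z, mu i
        = ∑ i ∈ (range n).erase z, ∑ u ∈ U.filter (fun u => ho u = i), vl u :=
      sum_congr rfl fun i hi => H.hmu i (mem_range.1 (mem_of_mem_erase hi))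
    have e2 : ∑ u ∈ K, (g u : ℤ)
        = ∑ i ∈ (range n).erase z, ∑ u ∈ K.filter (fun u => ho u = i), (g u : ℤ) :=
      (sum_fiberwise_of_maps_to (fun u hu => mem_erase.2
        ⟨hh u hu, mem_range.2 (H.hlt u (hK hu))⟩) _).symm
    rw [e1, e2]
    refine sum_le_sum fun i _ => ?_
    have h4 : ∑ u ∈ K.filter (fun u => ho u = i), (g u : ℤ)
        ≤ ∑ u ∈ K.filter (fun u => ho u = i), vl u :=
      sum_le_sum fun u hu => (hg u (mem_filter.1 hu).1).trans
        (H.kv u (hK (mem_filter.1 hu).1) z hz)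
    refine h4.trans (sum_le_sum_of_subset_of_nonneg (filter_subset_filter _ hK) fun u hu _ => ?_)
    have h5 := H.v1 u (mem_filter.1 hu).1
    linarith
  linarith

lemma be_self (H : PCon R n t s mu U ho vl kp mn pc ar be kq NN sg nu) {z : ℕ} (hz : z < n) :
    be z z = 0 := by
  rw [← H.pcb z hz z hz]
  refine sum_eq_zero fun u hu => ?_
  obtain ⟨h2, h3⟩ := mem_filter.1 hu
  have h4 := H.kh u h2
  rw [h3] at h4
  rw [h4, mul_zero]

lemma sum_range_erase {z : ℕ} (hz : z < n) {f : ℕ → ℤ} (h0 : f z = 0) :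
    ∑ l ∈ range n, f l = ∑ l ∈ (range n).erase z, f l := by
  have h1 := add_sum_erase (range n) f (mem_range.2 hz)
  rw [h0, zero_add] at h1
  exact h1.symm

lemma bl_self (H : PCon R n t s mu U ho vl kp mn pc ar be kq NN sg nu) {z : ℕ} (hz : z < n) :
    kq z z = 0 ∧ be z z - kq z z = 0 := by
  have h1 := H.be_self hz
  have h2 := H.kq0 z hz z hz
  have h3 := H.kqb z hz z hz
  constructor <;> linarith

/-- **the block pairs of a host** -/
theorem bl_le (H : PCon R n t s mu U ho vl kp mn pc ar be kq NN sg nu) {z : ℕ} (hz : z < n) :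
    ∑ l ∈ range n, (be z l - kq z l) ≤ R - (t z + 1) := by
  rw [sum_range_erase hz (H.bl_self hz).2]
  have h1 : ∑ l ∈ (range n).erase z, (be z l - kq z l) ≤ ∑ l ∈ (range n).erase z, (t l + 1) := by
    refine sum_le_sum fun l hl => ?_
    obtain ⟨h2, h3⟩ := mem_erase.1 hl
    have h4 := H.be_le hz (mem_range.1 h3) (fun h => h2 h.symm)
    have h5 := H.kq0 z hz l (mem_range.1 h3)
    have h6 := H.be0 l (mem_range.1 h3) z hz
    linarith
  have h2 := add_sum_erase (range n) (fun i => t i + 1) (mem_range.2 hz)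
  have h3 := H.tsum
  beta_reduce at h2
  linarith

/-- the block pairs are fewer than `R - A z` if some other row has `t ≥ 1` -/
theorem bl_lt (H : PCon R n t s mu U ho vl kp mn pc ar be kq NN sg nu) {z j : ℕ} (hz : z < n)
    (hj : j < n) (hjz : j ≠ z) (h1 : 1 ≤ t j) :
    ∑ l ∈ range n, (be z l - kq z l) < R - (t z + 1) := by
  rw [sum_range_erase hz (H.bl_self hz).2]
  have h2 : ∑ l ∈ (range n).erase z, (be z l - kq z l) < ∑ l ∈ (range n).erase z, (t l + 1) := by
    refine sum_lt_sum (fun l hl => ?_) ⟨j, mem_erase.2 ⟨hjz, mem_range.2 hj⟩, ?_⟩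
    · obtain ⟨h2, h3⟩ := mem_erase.1 hl
      have h4 := H.be_le hz (mem_range.1 h3) (fun h => h2 h.symm)
      have h5 := H.kq0 z hz l (mem_range.1 h3)
      have h6 := H.be0 l (mem_range.1 h3) z hz
      linarith
    · have h4 := H.be_le' hz hj (fun h => hjz h.symm) h1
      have h5 := H.kq0 z hz j hj
      have h6 := H.be0 j hj z hz
      linarith
  have h3 := add_sum_erase (range n) (fun i => t i + 1) (mem_range.2 hz)
  have h4 := H.tsum
  beta_reduce at h3
  linarith

/-- the plain value of a host -/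
theorem plain_val (H : PCon R n t s mu U ho vl kp mn pc ar be kq NN sg nu) {z : ℕ} (hz : z < n) :
    mu z - ∑ l ∈ range n, be z l = ∑ u ∈ U.filter (fun u => ho u = z ∧ pc u = 0), vl u := by
  rw [sum_range_erase hz (H.be_self hz), ← H.pc_tails hz, H.hmu z hz, ← sum_sub_distrib,
    sum_filter, sum_filter]
  refine sum_congr rfl fun u hu => ?_
  by_cases h1 : ho u = z
  · rcases H.pc01 u hu with h2 | h2
    · rw [if_pos h1, if_pos ⟨h1, h2⟩, h2, sub_zero]
    · rw [if_pos h1, if_neg, h2, H.pcv u hu (by rw [h2]; norm_num), sub_self]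
      rintro ⟨-, h3⟩
      rw [h2] at h3
      exact absurd h3 (by norm_num)
  · rw [if_neg h1, if_neg fun h => h1 h.1]

lemma plain_nonneg (H : PCon R n t s mu U ho vl kp mn pc ar be kq NN sg nu) {z : ℕ} (hz : z < n) :
    0 ≤ mu z - ∑ l ∈ range n, be z l := by
  rw [H.plain_val hz]
  refine sum_nonneg fun u hu => ?_
  have h1 := H.v1 u (mem_filter.1 hu).1
  linarith

/-- `∑ p_l² ≤ (∑ p_l)²` -/
lemma sum_sq_le' {S : Finset ℕ} {p : ℕ → ℤ} (hp : ∀ l ∈ S, 0 ≤ p l) :
    ∑ l ∈ S, p l * (p l + 1) ≤ (∑ l ∈ S, p l) * (∑ l ∈ S, p l + 1) := by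
  have h1 : ∑ l ∈ S, p l * (p l + 1) ≤ ∑ l ∈ S, p l * (∑ l ∈ S, p l + 1) := by
    refine sum_le_sum fun l hl => mul_le_mul_of_nonneg_left ?_ (hp l hl)
    have h2 := single_le_sum hp hl
    linarith
  rw [← sum_mul] at h1
  exact h1

/-- **the exact row test with all Konig pairs out**: `P` block pairs, `e` the plain value -/
theorem hub_d (H : PCon R n t s mu U ho vl kp mn pc ar be kq NN sg nu) {z : ℕ} (hz : z < n)
    {P e C : ℤ} (hP : P = ∑ l ∈ range n, (be z l - kq z l)) (he : e = mu z - ∑ l ∈ range n, be z l)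
    (hC : C = R - (t z + 1)) :
    2 * (P * (C - P)) + e * (2 * (C - P) - e + 1) ≤ 2 * ((R - (P + e)) * (mu z - s z)) := by
  have h1 := H.tT z hz (range n) (Subset.refl _) ∅ (empty_subset _) ∅ (empty_subset _)
    (fun u hu => absurd hu (notMem_empty u)) ∅ (empty_subset _)
    (fun u hu => absurd hu (notMem_empty u)) (fun _ => 0)
    (fun u hu => absurd hu (notMem_empty u)) (fun u hu => absurd hu (notMem_empty u))
  have h2 : (range n).erase z \ range n = ∅ := sdiff_eq_empty_iff_subset.2 (erase_subset _ _)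
  have h3 : svP n ho vl (∅ : Finset ι) (fun _ => 0) = 0 := by
    unfold svP
    simp
  unfold TstP at h1
  rw [h2, h3, sdiff_empty] at h1
  simp only [sum_empty, add_zero, sub_zero, mul_zero, zero_mul, zero_add, zero_sub] at h1
  have h4 := sum_sq_le' (S := range n) (p := fun l => be z l - kq z l) fun l hl => by
    have := H.kqb z hz l (mem_range.1 hl)
    beta_reduce
    linarith
  beta_reduce at h4
  rw [← hP] at h4
  have h5 : ∑ l ∈ range n, kq z l = mu z - (P + e) := by
    rw [hP, he, sum_sub_distrib]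
    ring
  rw [h5] at h1
  have h6 : t z + 1 = R - C := by rw [hC]; ring
  rw [h6] at h1
  nlinarith [h1, h4]

/-- **every row has `d ≥ 0`** -/
theorem d_nonneg (H : PCon R n t s mu U ho vl kp mn pc ar be kq NN sg nu) {z : ℕ} (hz : z < n) :
    0 ≤ mu z - s z := by
  obtain ⟨P, hP⟩ : ∃ P, P = ∑ l ∈ range n, (be z l - kq z l) := ⟨_, rfl⟩
  obtain ⟨e, he⟩ : ∃ e, e = mu z - ∑ l ∈ range n, be z l := ⟨_, rfl⟩
  obtain ⟨C, hC⟩ : ∃ C, C = R - (t z + 1) := ⟨_, rfl⟩
  have h1 := H.hub_d hz hP he hC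
  have h2 := H.bl_le hz
  rw [← hP, ← hC] at h2
  have h3 := H.plain_nonneg hz
  rw [← he] at h3
  have h4 : 0 ≤ P := by
    rw [hP]
    exact sum_nonneg fun l hl => by
      have := H.kqb z hz l (mem_range.1 hl)
      linarith
  have h5 : P + e ≤ mu z := by
    have h6 : P = ∑ l ∈ range n, be z l - ∑ l ∈ range n, kq z l := by rw [hP, sum_sub_distrib]
    have h7 : 0 ≤ ∑ l ∈ range n, kq z l := sum_nonneg fun l hl => H.kq0 z hz l (mem_range.1 hl)
    linarith
  have h6 := H.glob1 hz
  rw [← hC] at h6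
  rcases le_or_gt (P + e) C with h7 | h7
  · by_contra hcon
    push Not at hcon
    have h8 : 0 < R - (P + e) := by
      have := H.t0 z hz
      linarith
    have h9 : (R - (P + e)) * (mu z - s z) < 0 := mul_neg_of_pos_of_neg h8 hcon
    have h10 : 0 ≤ P * (C - P) := mul_nonneg h4 (by linarith)
    have h11 : 0 ≤ e * (2 * (C - P) - e + 1) := mul_nonneg h3 (by linarith)
    linarith
  · linarith

/-- **`d ≥ 1` as soon as one plain item or one block pair is hosted**, unless the block pairs fill `R - A z` -/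
theorem d_pos (H : PCon R n t s mu U ho vl kp mn pc ar be kq NN sg nu) {z : ℕ} (hz : z < n)
    {P e C : ℤ} (hP : P = ∑ l ∈ range n, (be z l - kq z l)) (he : e = mu z - ∑ l ∈ range n, be z l)
    (hC : C = R - (t z + 1)) (hPC : P < C) (hm : 1 ≤ P + e) : 1 ≤ mu z - s z := by
  have h1 := H.hub_d hz hP he hC
  have h3 := H.plain_nonneg hz
  rw [← he] at h3
  have h4 : 0 ≤ P := by
    rw [hP]
    exact sum_nonneg fun l hl => by
      have := H.kqb z hz l (mem_range.1 hl)
      linarith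
  have h5 : P + e ≤ mu z := by
    have h6 : P = ∑ l ∈ range n, be z l - ∑ l ∈ range n, kq z l := by rw [hP, sum_sub_distrib]
    have h7 : 0 ≤ ∑ l ∈ range n, kq z l := sum_nonneg fun l hl => H.kq0 z hz l (mem_range.1 hl)
    linarith
  have h6 := H.glob1 hz
  rw [← hC] at h6
  have ht := H.t0 z hz
  rcases le_or_gt (P + e) (C + 1) with h7 | h7
  · by_contra hcon
    have h8 : mu z - s z ≤ 0 := by linarith
    have h9 : 0 ≤ R - (P + e) := by linarith
    have h10 : (R - (P + e)) * (mu z - s z) ≤ 0 := mul_nonpos_of_nonneg_of_nonpos h9 h8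
    rcases eq_or_lt_of_le h3 with h11 | h11
    · have h12 : 1 ≤ P := by linarith
      have h13 : 0 < P * (C - P) := mul_pos (by linarith) (by linarith)
      have h14 : e * (2 * (C - P) - e + 1) = 0 := by rw [← h11]; ring
      linarith
    · have h12 : 0 ≤ P * (C - P) := mul_nonneg h4 (by linarith)
      have h13 : 0 < e * (2 * (C - P) - e + 1) := mul_pos h11 (by linarith)
      linarith
  · linarith

end PCon

end Pool.Agent.Lib.MP_f04ccf_co
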