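import Pool.Agent.Lib.MP_f04ccf_co.M.RulL
import Pool.Agent.Lib.MP_f04ccf_co.M.HubD

/-!
MP_f04ccf_co, TEXT D: **the last step of regimes L and H for any table over the units of `LevC`**.

* `LevC.close_S3`: three arbitrary share functions `sH` (host), `sM` (main end), `sC` (cut end, for the items
  `P`), in sum at least one for the free units;
* `LevC.no_L`: table `T`, `w`, every row which is not light satisfies its claim with `δ z = A z / (R + 1)`;
* `LevC.no_H`: **hub = row 0 pays nothing**: units with the hub as host or main end are paid by the other row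
  (`Hb`), the others by `T`, `w` (a cut end at the hub is not counted); only the rows `z ≥ 1` have a claim,
  `∑_{z ≥ 1, not light} δ z < 1 + d_0` (`< 1` if the hub is light); `LevC.no_H1`: `δ z = A z / A 0` for `R < 2 A 0`.
-/

set_option autoImplicit false

namespace Pool.Agent.Lib.MP_f04ccf_co

open Finset

attribute [local instance] Classical.propDecidable

section RulM

variable {ι : Type*} {R : ℤ} {n : ℕ} {t s mu : ℕ → ℤ} {U : Finset ι} {ho : ι → ℕ} {vl : ι → ℤ}
  {kp mn : ℕ → ι → ℤ} {pc ar : ι → ℤ} {be kq NN sg : ℕ → ℕ → ℤ} {nu : ℕ → ι → ℤ}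
  {φ : ι → ℕ → ℤ} {g : ℕ → ι → ℕ} {f : ι → ℕ}

/-- **the closing for three arbitrary share functions** -/
theorem LevC.close_S3 (Lv : LevC n U ho vl kp mn pc φ g f)
    (H : PCon R n t s mu U ho vl kp mn pc ar be kq NN sg nu) {P : ι → Prop}
    (hP : ∀ u ∈ U, P u → twoE vl kp g f u) {sH sM sC : ι × ℕ × ℕ → ℝ} {δ : ℕ → ℝ} {L : Finset ℕ}
    (hL : L = lightU n s (unV n U g) (unC P f)) {F : Finset (ι × ℕ × ℕ)}
    (hF : F = freeU (unV n U g) (fun v => ho v.1) (unC P f) L)
    (h1 : ∀ v ∈ F, 1 ≤ sH v + sM v + if P v.1 then sC v else 0)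
    (h2 : ∀ z < n, z ∉ L →
      1 ≤ s z + (((unV n U g).filter fun v => z ∈ unC P f v).card : ℤ) →
      ∑ v ∈ F.filter (fun v => ho v.1 = z), sH v + ∑ v ∈ F.filter (fun v => v.2.1 = z), sM v
        + ∑ v ∈ F.filter (fun v => P v.1 ∧ f v.1 = z), sC v ≤ (mu z : ℝ) - s z + δ z)
    (h3 : ∑ i ∈ (range n).filter (fun i => i ∉ L), δ i < 1) : False := by
  have hV := Lv.unp H
  have hFV : F ⊆ unV n U g := by
    rw [hF]
    exact filter_subset _ _
  subst hL
  refine H.close_sh (C := unC P f)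
    (sh := fun z v => if z = ho v.1 then sH v else if z = v.2.1 then sM v else sC v) (δ := δ) hV
    (fun v hv i hi => (Lv.rows v hv i hi).1) ?_ ?_ h3
  · intro v hv
    have h4 := (mem_filter.1 hv).1
    have h5 := h1 v (by rw [hF]; exact hv)
    have h6 := Lv.main_ne h4
    obtain ⟨h7, -, -⟩ := LevC.mem_unV h4
    beta_reduce
    rw [if_pos rfl]
    by_cases h8 : P v.1
    · have h9 := Lv.main_cut H h4 (hP v.1 h7 h8)
      have h10 := Lv.fh v.1 h7
      have e1 : unC P f v = {v.2.1, f v.1} := by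
        unfold unC
        exact if_pos h8
      rw [e1, sum_pair h9, if_neg h6, if_pos rfl, if_neg h10, if_neg h9.symm]
      rw [if_pos h8] at h5
      linarith
    · have e1 : unC P f v = {v.2.1} := by
        unfold unC
        exact if_neg h8
      rw [e1, sum_singleton, if_neg h6, if_pos rfl]
      rw [if_neg h8] at h5
      linarith
  · intro z hz hzL hz1
    have h4 := h2 z hz hzL hz1
    rw [← hF]
    rw [Lv.sum_roles H hP hFV z]
    have e1 : ∑ v ∈ F.filter (fun v => ho v.1 = z),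
        (if z = ho v.1 then sH v else if z = v.2.1 then sM v else sC v)
        = ∑ v ∈ F.filter (fun v => ho v.1 = z), sH v :=
      sum_congr rfl fun v hv => if_pos (mem_filter.1 hv).2.symm
    have e2 : ∑ v ∈ F.filter (fun v => v.2.1 = z),
        (if z = ho v.1 then sH v else if z = v.2.1 then sM v else sC v)
        = ∑ v ∈ F.filter (fun v => v.2.1 = z), sM v := by
      refine sum_congr rfl fun v hv => ?_
      obtain ⟨h5, h6⟩ := mem_filter.1 hv
      rw [if_neg, if_pos h6.symm]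
      intro h9
      exact Lv.main_ne (hFV h5) (h6.trans h9)
    have e3 : ∑ v ∈ F.filter (fun v => P v.1 ∧ f v.1 = z),
        (if z = ho v.1 then sH v else if z = v.2.1 then sM v else sC v)
        = ∑ v ∈ F.filter (fun v => P v.1 ∧ f v.1 = z), sC v := by
      refine sum_congr rfl fun v hv => ?_
      obtain ⟨h5, h6, h7⟩ := mem_filter.1 hv
      have h8 := hFV h5
      have h9 := (LevC.mem_unV h8).1
      rw [if_neg, if_neg]
      · intro h11
        exact Lv.main_cut H h8 (hP v.1 h9 h6) (h11.symm.trans h7.symm)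
      · intro h11
        exact Lv.fh v.1 h9 (h7.trans h11)
    beta_reduce
    rw [e1, e2, e3]
    linarith

/-- the masses over `R + 1` -/
lemma PCon.sum_A_lt (H : PCon R n t s mu U ho vl kp mn pc ar be kq NN sg nu) (L : Finset ℕ) :
    ∑ i ∈ (range n).filter (fun i => i ∉ L), ((t i : ℝ) + 1) / ((R : ℝ) + 1) < 1 := by
  have h1 : (0 : ℝ) < R := by exact_mod_cast R_pos H
  have h2 : ∑ i ∈ (range n).filter (fun i => i ∉ L), ((t i : ℝ) + 1)
      ≤ ∑ i ∈ range n, ((t i : ℝ) + 1) := by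
    refine sum_le_sum_of_subset_of_nonneg (filter_subset _ _) fun i hi _ => ?_
    have h3 : (0 : ℝ) ≤ t i := by exact_mod_cast H.t0 i (mem_range.1 hi)
    linarith
  have h3 : ∑ i ∈ range n, ((t i : ℝ) + 1) ≤ R := by exact_mod_cast H.tsum
  rw [← sum_div, div_lt_one (by linarith)]
  linarith

/-- **REGIME L, last step**: `δ z = A z / (R + 1)` -/
theorem LevC.no_L (Lv : LevC n U ho vl kp mn pc φ g f)
    (H : PCon R n t s mu U ho vl kp mn pc ar be kq NN sg nu) {P : ι → Prop}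
    (hP : ∀ u ∈ U, P u → twoE vl kp g f u) {T w : ι × ℕ × ℕ → ℝ}
    (hw : ∀ v ∈ unV n U g, ¬ P v.1 → w v = 0) {L : Finset ℕ}
    (hL : L = lightU n s (unV n U g) (unC P f)) {F : Finset (ι × ℕ × ℕ)}
    (hF : F = freeU (unV n U g) (fun v => ho v.1) (unC P f) L)
    (h2 : ∀ z < n, z ∉ L →
      1 ≤ s z + (((unV n U g).filter fun v => z ∈ unC P f v).card : ℤ) →
      ∑ v ∈ F.filter (fun v => ho v.1 = z), (1 - T v)
        + ∑ v ∈ F.filter (fun v => v.2.1 = z), (1 - w v) * T v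
        + ∑ v ∈ F.filter (fun v => P v.1 ∧ f v.1 = z), w v * T v
        ≤ (mu z : ℝ) - s z + ((t z : ℝ) + 1) / ((R : ℝ) + 1)) : False :=
  Lv.close_TW0 H hP hw hL hF h2 (H.sum_A_lt L)

/-- **REGIME H, last step, the hub (row 0) pays nothing**: only the rows `z ≥ 1` have a claim -/
theorem LevC.no_H (Lv : LevC n U ho vl kp mn pc φ g f)
    (H : PCon R n t s mu U ho vl kp mn pc ar be kq NN sg nu) {P : ι → Prop}
    (hP : ∀ u ∈ U, P u → twoE vl kp g f u)
    (hP0 : ∀ v ∈ unV n U g, P v.1 → ho v.1 ≠ 0 ∧ v.2.1 ≠ 0 ∧ f v.1 ≠ 0)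
    {T w : ι × ℕ × ℕ → ℝ}
    (hw : ∀ v ∈ unV n U g, ¬ P v.1 → w v = 0) {δ : ℕ → ℝ} {L : Finset ℕ}
    (hL : L = lightU n s (unV n U g) (unC P f)) {F : Finset (ι × ℕ × ℕ)}
    (hF : F = freeU (unV n U g) (fun v => ho v.1) (unC P f) L)
    (h2 : ∀ z < n, z ≠ 0 → z ∉ L →
      1 ≤ s z + (((unV n U g).filter fun v => z ∈ unC P f v).card : ℤ) →
      ∑ v ∈ F.filter (fun v => ho v.1 = z), (if v.2.1 = 0 then 1 else 1 - T v)
        + ∑ v ∈ F.filter (fun v => v.2.1 = z), (if ho v.1 = 0 then 1 else (1 - w v) * T v)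
        + ∑ v ∈ F.filter (fun v => P v.1 ∧ f v.1 = z), w v * T v
        ≤ (mu z : ℝ) - s z + δ z)
    (h3 : ∑ i ∈ (range n).filter (fun i => i ∉ L ∧ i ≠ 0), δ i
      < 1 + if 0 ∈ L then 0 else (mu 0 : ℝ) - s 0) : False := by
  have h0 : 0 < n := by
    have := H.n5
    omega
  have hFV : F ⊆ unV n U g := by
    rw [hF]
    exact filter_subset _ _
  have hd : (0 : ℝ) ≤ (mu 0 : ℝ) - s 0 := by exact_mod_cast H.d_nonneg h0
  obtain ⟨Hb, hHb⟩ : ∃ Hb : ι × ℕ × ℕ → Prop, ∀ v, Hb v ↔ (ho v.1 = 0 ∨ v.2.1 = 0) :=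
    ⟨_, fun _ => Iff.rfl⟩
  refine Lv.close_TW H hP (Hb := Hb) (T := T) (w := w)
    (δ := fun z => if z = 0 then -((mu 0 : ℝ) - s 0) else δ z) ?_ hw hL hF ?_ ?_
  · intro v hv hh
    refine ⟨fun hp => ?_, (hHb v).1 hh⟩
    obtain ⟨h4, h5, -⟩ := hP0 v hv hp
    rcases (hHb v).1 hh with h6 | h6
    · exact h4 h6
    · exact h5 h6
  · intro z hz hzL hz1
    beta_reduce
    by_cases hz0 : z = 0
    · have e4 : (if z = 0 then -((mu 0 : ℝ) - s 0) else δ z) = -((mu 0 : ℝ) - s 0) := if_pos hz0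
      have e1 : ∑ v ∈ F.filter (fun v => ho v.1 = z),
          (if Hb v then (if z = 0 then (0 : ℝ) else 1) else 1 - T v) = 0 := by
        refine sum_eq_zero fun v hv => ?_
        rw [if_pos ((hHb v).2 (Or.inl ((mem_filter.1 hv).2.trans hz0))), if_pos hz0]
      have e2 : ∑ v ∈ F.filter (fun v => v.2.1 = z),
          (if Hb v then (if z = 0 then (0 : ℝ) else 1) else (1 - w v) * T v) = 0 := by
        refine sum_eq_zero fun v hv => ?_
        rw [if_pos ((hHb v).2 (Or.inr ((mem_filter.1 hv).2.trans hz0))), if_pos hz0]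
      have e3 : ∑ v ∈ F.filter (fun v => P v.1 ∧ f v.1 = z), w v * T v = 0 := by
        refine sum_eq_zero fun v hv => ?_
        obtain ⟨h4, h5, h6⟩ := mem_filter.1 hv
        exact absurd (h6.trans hz0) (hP0 v (hFV h4) h5).2.2
      rw [e1, e2, e3, e4, hz0]
      linarith
    · have e4 : (if z = 0 then -((mu 0 : ℝ) - s 0) else δ z) = δ z := if_neg hz0
      rw [e4]
      have h4 := h2 z hz hz0 hzL hz1
      refine le_trans (le_of_eq ?_) h4
      congr 2
      · refine sum_congr rfl fun v hv => ?_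
        have h5 : ho v.1 ≠ 0 := fun h => hz0 ((mem_filter.1 hv).2.symm.trans h)
        by_cases h6 : v.2.1 = 0
        · rw [if_pos ((hHb v).2 (Or.inr h6)), if_neg hz0, if_pos h6]
        · rw [if_neg (fun h => ((hHb v).1 h).elim h5 h6), if_neg h6]
      · refine sum_congr rfl fun v hv => ?_
        have h5 : v.2.1 ≠ 0 := fun h => hz0 ((mem_filter.1 hv).2.symm.trans h)
        by_cases h6 : ho v.1 = 0
        · rw [if_pos ((hHb v).2 (Or.inl h6)), if_neg hz0, if_pos h6]
        · rw [if_neg (fun h => ((hHb v).1 h).elim h6 h5), if_neg h6]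
  · by_cases h0L : 0 ∈ L
    · rw [if_pos h0L, add_zero] at h3
      have e1 : (range n).filter (fun i => i ∉ L) = (range n).filter (fun i => i ∉ L ∧ i ≠ 0) := by
        ext i
        simp only [mem_filter]
        constructor
        · rintro ⟨h4, h5⟩
          exact ⟨h4, h5, fun h => h5 (by rw [h]; exact h0L)⟩
        · rintro ⟨h4, h5, -⟩
          exact ⟨h4, h5⟩
      rw [e1]
      refine lt_of_le_of_lt (le_of_eq (sum_congr rfl fun i hi => ?_)) h3
      rw [if_neg (mem_filter.1 hi).2.2]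
    · rw [if_neg h0L] at h3
      have e1 : (range n).filter (fun i => i ∉ L)
          = insert 0 ((range n).filter (fun i => i ∉ L ∧ i ≠ 0)) := by
        ext i
        simp only [mem_filter, mem_insert]
        constructor
        · rintro ⟨h4, h5⟩
          by_cases h6 : i = 0
          · exact Or.inl h6
          · exact Or.inr ⟨h4, h5, h6⟩
        · rintro (h4 | ⟨h4, h5, -⟩)
          · rw [h4]
            exact ⟨mem_range.2 h0, h0L⟩
          · exact ⟨h4, h5⟩
      rw [e1, sum_insert (fun h => (mem_filter.1 h).2.2 rfl), if_pos rfl]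
      have e2 : ∑ i ∈ (range n).filter (fun i => i ∉ L ∧ i ≠ 0),
          (if i = 0 then -((mu 0 : ℝ) - s 0) else δ i)
          = ∑ i ∈ (range n).filter (fun i => i ∉ L ∧ i ≠ 0), δ i :=
        sum_congr rfl fun i hi => if_neg (mem_filter.1 hi).2.2
      rw [e2]
      linarith

/-- the masses of the other rows over `A 0` -/
lemma PCon.sum_A_hub (H : PCon R n t s mu U ho vl kp mn pc ar be kq NN sg nu) (L : Finset ℕ)
    {D : ℝ} (hD : (R : ℝ) - (t 0 + 1) < D) :
    ∑ i ∈ (range n).filter (fun i => i ∉ L ∧ i ≠ 0), ((t i : ℝ) + 1) / D < 1 := by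
  have h0 : 0 < n := by
    have := H.n5
    omega
  have hp : ∀ i ∈ (range n).erase 0, (0 : ℝ) ≤ (t i : ℝ) + 1 := fun i hi => by
    have h3 : (0 : ℝ) ≤ t i := by exact_mod_cast H.t0 i (mem_range.1 (mem_of_mem_erase hi))
    linarith
  have h2 : ∑ i ∈ (range n).filter (fun i => i ∉ L ∧ i ≠ 0), ((t i : ℝ) + 1)
      ≤ ∑ i ∈ (range n).erase 0, ((t i : ℝ) + 1) := by
    refine sum_le_sum_of_subset_of_nonneg (fun i hi => ?_) fun i hi _ => hp i hi
    obtain ⟨h3, -, h4⟩ := mem_filter.1 hi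
    exact mem_erase.2 ⟨h4, h3⟩
  have h3 : ∑ i ∈ range n, ((t i : ℝ) + 1) ≤ R := by exact_mod_cast H.tsum
  have h4 := add_sum_erase (range n) (fun i => (t i : ℝ) + 1) (mem_range.2 h0)
  beta_reduce at h4
  have h5 := sum_nonneg hp
  rw [← sum_div, div_lt_one (by linarith)]
  linarith

/-- **REGIME H, the hub pays nothing, `δ z = A z / A 0`** for `R < 2 A 0` -/
theorem LevC.no_H1 (Lv : LevC n U ho vl kp mn pc φ g f)
    (H : PCon R n t s mu U ho vl kp mn pc ar be kq NN sg nu) (hR : R < 2 * (t 0 + 1)) {P : ι → Prop}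
    (hP : ∀ u ∈ U, P u → twoE vl kp g f u)
    (hP0 : ∀ v ∈ unV n U g, P v.1 → ho v.1 ≠ 0 ∧ v.2.1 ≠ 0 ∧ f v.1 ≠ 0)
    {T w : ι × ℕ × ℕ → ℝ}
    (hw : ∀ v ∈ unV n U g, ¬ P v.1 → w v = 0) {L : Finset ℕ}
    (hL : L = lightU n s (unV n U g) (unC P f)) {F : Finset (ι × ℕ × ℕ)}
    (hF : F = freeU (unV n U g) (fun v => ho v.1) (unC P f) L)
    (h2 : ∀ z < n, z ≠ 0 → z ∉ L →
      1 ≤ s z + (((unV n U g).filter fun v => z ∈ unC P f v).card : ℤ) →
      ∑ v ∈ F.filter (fun v => ho v.1 = z), (if v.2.1 = 0 then 1 else 1 - T v)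
        + ∑ v ∈ F.filter (fun v => v.2.1 = z), (if ho v.1 = 0 then 1 else (1 - w v) * T v)
        + ∑ v ∈ F.filter (fun v => P v.1 ∧ f v.1 = z), w v * T v
        ≤ (mu z : ℝ) - s z + ((t z : ℝ) + 1) / ((t 0 : ℝ) + 1)) : False := by
  have h0 : 0 < n := by
    have := H.n5
    omega
  have hd : (0 : ℝ) ≤ (mu 0 : ℝ) - s 0 := by exact_mod_cast H.d_nonneg h0
  have hR' : (R : ℝ) < 2 * ((t 0 : ℝ) + 1) := by exact_mod_cast hR
  refine Lv.no_H H hP hP0 hw hL hF h2 ?_
  have h3 := H.sum_A_hub L (D := (t 0 : ℝ) + 1) (by linarith)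
  split_ifs <;> linarith

end RulM

end Pool.Agent.Lib.MP_f04ccf_co
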