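import Pool.Agent.Lib.MP_f04ccf_co.M.RulZ
import Pool.Agent.Lib.MP_f04ccf_co.M.RulM

/-!
MP_f04ccf_co, TEXT D, regime H (`R < 2 (t 0 + 1)`, the hub is the row `0`): **the table X* and its closing.**

Letters: `A i = t i + 1`, `C = R - A 0`, `x` the host, `m` the main end, `f` the cut end of a unit, `b = unb` the
misses at the main end, `c = R - A m`, `r = min 1 ((b + be x f) / c)`, `q = min (mn 0 u) C / C`,
`s = A x / (A x + A m)`; letters `Z : ℕ → ℝ` (the price factor of the hub for the units `hubC` of the host `x`; first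
version `A x / (R - A x)`) and `cp : ι × ℕ × ℕ → ℝ` (the price, paid by the hub, of a unit of a hub-hosted item with a
cut end; final form `prB` in `M/TabX.lean`).

* `phiX`: the order of the ends, for every item: the cut end has most misses, but for a host `≠ 0` the hub is always
  the cut end (`phiX_lt`, `LevC.hub_unbX`, `LevC.two_mainX`, `LevC.fewX`);
* host `0`, item with a cut end: the hub pays the price `cp v`, the main end the rest; host `0`, no cut end: the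
  main end pays `1`;
  host `x ≠ 0`, main end `0`: the host pays `1`;
* `hubC` (value one, host `≠ 0`, cut end `0`): main end `q s (1 - r*)`, the hub `q (Z x) r*`, the host the rest, with
  `r* = r` if `r ≤ 1 / 2` and `r* = 1` else (`rS`, threshold `thX`);
* value one, thin host, thin ends: `T = s (1 - r)` (with a cut end) or `s`, host `1 - T`, main end `T`;
* cliques of a thin host: `T = s (1 - b / c)`, for the unit with the most misses (`lastC`) of a clique with cut end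
  `0`: `T = q s (1 - b / c)` if `b / c ≤ 1 / 2`, else `T = 0`.

`sHX`, `sMX`, `sCX` = the shares of the host, the main end, the cut end (`hubC` only), sum `1` (`sX_sum`).
`LevC.close_X`: the closing for any budgets; `LevC.close_X3`: budgets `A z / (C + 3)`, hub `(5 / 2) / (C + 3)`.
-/

set_option autoImplicit false

namespace Pool.Agent.Lib.MP_f04ccf_co

open Finset

attribute [local instance] Classical.propDecidable

section RulXS

variable {ι : Type*} {R : ℤ} {n : ℕ} {t s mu : ℕ → ℤ} {U : Finset ι} {ho : ι → ℕ} {vl : ι → ℤ}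
  {kp mn : ℕ → ι → ℤ} {pc ar : ι → ℤ} {be kq NN sg : ℕ → ℕ → ℤ} {nu : ℕ → ι → ℤ}
  {g : ℕ → ι → ℕ} {f : ι → ℕ}

/-- the order of the ends of the table X -/
noncomputable def phiX (R : ℤ) (t : ℕ → ℤ) (ho : ι → ℕ) (mn : ℕ → ι → ℤ) (u : ι) (i : ℕ) : ℤ :=
  if ho u ≠ 0 ∧ i = 0 then (R + 1) ^ 2 else mn i u * (R + 1) + t i

/-- misses and arcs at the main end over `c`, at most `1` -/
noncomputable def rX (R : ℤ) (t : ℕ → ℤ) (ho : ι → ℕ) (kp mn : ℕ → ι → ℤ) (be : ℕ → ℕ → ℤ)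
    (g : ℕ → ι → ℕ) (f : ι → ℕ) (v : ι × ℕ × ℕ) : ℝ :=
  min 1 (((unb kp mn g v : ℝ) + be (ho v.1) (f v.1)) / ((R : ℝ) - (t v.2.1 + 1)))

/-- the misses at the hub over `C`, at most `1` -/
noncomputable def qX (R : ℤ) (t : ℕ → ℤ) (mn : ℕ → ι → ℤ) (u : ι) : ℝ :=
  ((min (mn 0 u) (R - (t 0 + 1)) : ℤ) : ℝ) / ((R : ℝ) - (t 0 + 1))

/-- `A x / (A x + A m)` -/
noncomputable def sX (t : ℕ → ℤ) (ho : ι → ℕ) (v : ι × ℕ × ℕ) : ℝ :=
  ((t (ho v.1) : ℝ) + 1) / ((t (ho v.1) : ℝ) + 1 + ((t v.2.1 : ℝ) + 1))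

/-- `A x / (R - A x)` -/
noncomputable def zX (R : ℤ) (t : ℕ → ℤ) (ho : ι → ℕ) (v : ι × ℕ × ℕ) : ℝ :=
  ((t (ho v.1) : ℝ) + 1) / ((R : ℝ) - (t (ho v.1) + 1))

/-- the threshold of `r*` -/
noncomputable def thX : ℝ := 1 / 2

/-- `r*`: `r` up to the threshold, `1` above -/
noncomputable def rS (R : ℤ) (t : ℕ → ℤ) (ho : ι → ℕ) (kp mn : ℕ → ι → ℤ) (be : ℕ → ℕ → ℤ)
    (g : ℕ → ι → ℕ) (f : ι → ℕ) (v : ι × ℕ × ℕ) : ℝ :=
  if rX R t ho kp mn be g f v ≤ thX then rX R t ho kp mn be g f v else 1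

lemma rX_le_one (v : ι × ℕ × ℕ) : rX R t ho kp mn be g f v ≤ 1 := min_le_left _ _

lemma rX_le_rS (v : ι × ℕ × ℕ) : rX R t ho kp mn be g f v ≤ rS R t ho kp mn be g f v := by
  unfold rS
  split_ifs
  · exact le_rfl
  · exact rX_le_one v

lemma rS_le_one (v : ι × ℕ × ℕ) : rS R t ho kp mn be g f v ≤ 1 := by
  unfold rS
  split_ifs
  · exact rX_le_one v
  · exact le_rfl

/-- **the share of the cut end (the hub), for the units `hubC`** -/
noncomputable def sCX (Z : ℕ → ℝ) (R : ℤ) (t : ℕ → ℤ) (ho : ι → ℕ) (kp mn : ℕ → ι → ℤ) (be : ℕ → ℕ → ℤ)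
    (g : ℕ → ι → ℕ) (f : ι → ℕ) (v : ι × ℕ × ℕ) : ℝ :=
  qX R t mn v.1 * Z (ho v.1) * rS R t ho kp mn be g f v

/-- **the share of the main end** -/
noncomputable def sMX (cp : ι × ℕ × ℕ → ℝ) (R : ℤ) (n : ℕ) (t : ℕ → ℤ) (U : Finset ι) (ho : ι → ℕ) (vl : ι → ℤ)
    (kp mn : ℕ → ι → ℤ) (be : ℕ → ℕ → ℤ) (g : ℕ → ι → ℕ) (f : ι → ℕ) (v : ι × ℕ × ℕ) : ℝ :=
  if ho v.1 = 0 then
    (if cutE kp g f v.1 then 1 - cp v else 1)
  else if v.2.1 = 0 then 0
  else if hubC ho vl kp g f v.1 then qX R t mn v.1 * sX t ho v * (1 - rS R t ho kp mn be g f v)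
  else if vl v.1 = 1 then
    (if cutE kp g f v.1 then sX t ho v * (1 - rX R t ho kp mn be g f v) else sX t ho v)
  else if f v.1 = 0 ∧ cutE kp g f v.1 ∧ lastC n U kp mn g v then
    (if (unb kp mn g v : ℝ) / ((R : ℝ) - (t v.2.1 + 1)) ≤ thX then
      qX R t mn v.1 * sX t ho v * (1 - (unb kp mn g v : ℝ) / ((R : ℝ) - (t v.2.1 + 1))) else 0)
  else sX t ho v * (1 - (unb kp mn g v : ℝ) / ((R : ℝ) - (t v.2.1 + 1)))

/-- **the share of the host: the rest** -/
noncomputable def sHX (Z : ℕ → ℝ) (cp : ι × ℕ × ℕ → ℝ) (R : ℤ) (n : ℕ) (t : ℕ → ℤ) (U : Finset ι) (ho : ι → ℕ) (vl : ι → ℤ)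
    (kp mn : ℕ → ι → ℤ) (be : ℕ → ℕ → ℤ) (g : ℕ → ι → ℕ) (f : ι → ℕ) (v : ι × ℕ × ℕ) : ℝ :=
  1 - sMX cp R n t U ho vl kp mn be g f v
    - (if hubC ho vl kp g f v.1 then sCX Z R t ho kp mn be g f v else 0)

/-- the values of the order which are not the big one -/
lemma phiX_lt (H : PCon R n t s mu U ho vl kp mn pc ar be kq NN sg nu) {u : ι} (hu : u ∈ U)
    (hh : ho u ≠ 0) {i : ℕ} (hi : i < n) (h0 : i ≠ 0) : phiX R t ho mn u i < phiX R t ho mn u 0 := by
  have h1 := H.t0 i hi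
  have h2 := H.mnc u hu i hi
  have h3 := H.m0 u hu i hi
  have hR := R_pos H
  have e0 : phiX R t ho mn u 0 = (R + 1) ^ 2 := if_pos ⟨hh, rfl⟩
  have e1 : phiX R t ho mn u i = mn i u * (R + 1) + t i := if_neg fun h => h0 h.2
  rw [e0, e1]
  nlinarith [mul_nonneg h3 hR.le, mul_nonneg h1 hR.le]

/-- a unit of a thin host with main end at the hub has no misses -/
lemma LevC.hub_unbX (Lv : LevC n U ho vl kp mn pc (phiX R t ho mn) g f)
    (H : PCon R n t s mu U ho vl kp mn pc ar be kq NN sg nu) {v : ι × ℕ × ℕ} (hv : v ∈ unV n U g)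
    (hh : ho v.1 ≠ 0) (h0 : v.2.1 = 0) : unb kp mn g v = 0 := by
  obtain ⟨h1, h2, h3⟩ := LevC.mem_unV hv
  have h4 : 1 ≤ g v.2.1 v.1 := by omega
  have h5 := Lv.le v.1 h1 v.2.1 h2
  have h5' : (1 : ℤ) ≤ kp v.2.1 v.1 := by
    have : (1 : ℤ) ≤ (g v.2.1 v.1 : ℤ) := by exact_mod_cast h4
    linarith
  rcases Lv.typ v.1 h1 with ⟨-, -, -, h6, h7⟩ | ⟨-, h6, -, h8⟩
  · have h8 : v.2.1 = f v.1 := by
      by_contra hcon
      rw [h7 v.2.1 h2 hcon] at h5'
      norm_num at h5'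
    unfold unb
    split_ifs
    · rw [h8]
      exact h6
    · rfl
  · have h9 : f v.1 = 0 := by
      by_contra hcon
      have h10 := h8 0 (by omega) (by rw [h0] at h5'; omega)
      exact absurd h10 (not_le.2 (phiX_lt H h1 hh (Lv.fn v.1 h1) hcon))
    unfold unb
    rw [if_neg]
    rintro ⟨h10, -⟩
    rw [h0] at h10
    rw [h9] at h6
    linarith

/-- an item of value one with two ends of a thin host: the main end is not the hub -/
lemma LevC.two_mainX (Lv : LevC n U ho vl kp mn pc (phiX R t ho mn) g f)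
    (H : PCon R n t s mu U ho vl kp mn pc ar be kq NN sg nu) {v : ι × ℕ × ℕ} (hv : v ∈ unV n U g)
    (hp : twoE vl kp g f v.1) (hh : ho v.1 ≠ 0) : v.2.1 ≠ 0 := by
  obtain ⟨h1, -, -⟩ := LevC.mem_unV hv
  obtain ⟨-, h3, h4, -, -, -, -, -, -, -, h11⟩ := Lv.two_facts H hv hp
  intro h0
  rw [h0] at h11 h4
  exact absurd h11 (not_le.2 (phiX_lt H h1 hh h3 h4.symm))

/-- **the main end has fewer misses than the cut end** (host `0`, or main and cut end `≠ 0`) -/
lemma LevC.fewX (Lv : LevC n U ho vl kp mn pc (phiX R t ho mn) g f)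
    (H : PCon R n t s mu U ho vl kp mn pc ar be kq NN sg nu) {v : ι × ℕ × ℕ} (hv : v ∈ unV n U g)
    (hp : cutE kp g f v.1) (hh : ho v.1 = 0 ∨ f v.1 ≠ 0) :
    mn v.2.1 v.1 ≤ mn (f v.1) v.1 ∧ (mn v.2.1 v.1 = mn (f v.1) v.1 → t v.2.1 ≤ t (f v.1)) := by
  obtain ⟨h1, h2, h3⟩ := LevC.mem_unV hv
  have hR := R_pos H
  have h4 : 1 ≤ g v.2.1 v.1 := by omega
  have h5 := Lv.le v.1 h1 v.2.1 h2
  have h5' : (1 : ℤ) ≤ kp v.2.1 v.1 := by
    have : (1 : ℤ) ≤ (g v.2.1 v.1 : ℤ) := by exact_mod_cast h4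
    linarith
  have h6 : ∀ i < n, kp i v.1 ≠ 0 → phiX R t ho mn v.1 i ≤ phiX R t ho mn v.1 (f v.1) := by
    rcases Lv.typ v.1 h1 with ⟨-, h6, h7, -, -⟩ | ⟨-, -, -, h8⟩
    · unfold cutE at hp
      rw [h6, h7] at hp
      norm_num at hp
    · exact h8
  have h7 := h6 v.2.1 h2 (by omega)
  have hm : ¬ (ho v.1 ≠ 0 ∧ v.2.1 = 0) := by
    rintro ⟨h8, h9⟩
    rcases hh with h10 | h10
    · exact h8 h10
    · rw [h9] at h7
      exact absurd h7 (not_le.2 (phiX_lt H h1 h8 (Lv.fn v.1 h1) h10))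
  have hf : ¬ (ho v.1 ≠ 0 ∧ f v.1 = 0) := by
    rintro ⟨h8, h9⟩
    exact hh.elim h8 fun h => h h9
  unfold phiX at h7
  rw [if_neg hm, if_neg hf] at h7
  have h8 := H.t0 _ h2
  have h9 : t (f v.1) ≤ R := by
    have h7 := H.mnc v.1 h1 (f v.1) (Lv.fn v.1 h1)
    have h8 := H.m0 v.1 h1 (f v.1) (Lv.fn v.1 h1)
    linarith
  have h10 : mn v.2.1 v.1 ≤ mn (f v.1) v.1 := by
    by_contra hcon
    push Not at hcon
    nlinarith
  exact ⟨h10, fun h11 => by rw [h11] at h7; linarith⟩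

/-- the three shares have sum one -/
lemma sX_sum (Z : ℕ → ℝ) (cp : ι × ℕ × ℕ → ℝ) (v : ι × ℕ × ℕ) :
    sHX Z cp R n t U ho vl kp mn be g f v + sMX cp R n t U ho vl kp mn be g f v
      + (if hubC ho vl kp g f v.1 then sCX Z R t ho kp mn be g f v else 0) = 1 := by
  unfold sHX
  ring

/-- **the closing of regime H with the table X*, any budgets** -/
theorem LevC.close_X (Lv : LevC n U ho vl kp mn pc (phiX R t ho mn) g f)
    (H : PCon R n t s mu U ho vl kp mn pc ar be kq NN sg nu) {Z : ℕ → ℝ} {cp : ι × ℕ × ℕ → ℝ}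
    {L : Finset ℕ} (hL : L = lightU n s (unV n U g) (unC (hubC ho vl kp g f) f))
    {F : Finset (ι × ℕ × ℕ)}
    (hF : F = freeU (unV n U g) (fun v => ho v.1) (unC (hubC ho vl kp g f) f) L) {δ : ℕ → ℝ}
    (hub : 0 ∉ L →
      1 ≤ s 0 + (((unV n U g).filter fun v => 0 ∈ unC (hubC ho vl kp g f) f v).card : ℤ) →
      ∑ v ∈ F.filter (fun v => ho v.1 = 0 ∧ cutE kp g f v.1), cp v
        + ∑ v ∈ F.filter (fun v => hubC ho vl kp g f v.1), sCX Z R t ho kp mn be g f v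
        ≤ (mu 0 : ℝ) - s 0 + δ 0)
    (row : ∀ z < n, z ≠ 0 → z ∉ L →
      1 ≤ s z + (((unV n U g).filter fun v => v.2.1 = z).card : ℤ) →
      ∑ v ∈ F.filter (fun v => ho v.1 = z), sHX Z cp R n t U ho vl kp mn be g f v
        + ∑ v ∈ F.filter (fun v => v.2.1 = z), sMX cp R n t U ho vl kp mn be g f v
        ≤ (mu z : ℝ) - s z + δ z)
    (hδ : ∀ z < n, 0 ≤ δ z) (hδ1 : ∑ z ∈ range n, δ z < 1) : False := by
  have hFV : F ⊆ unV n U g := by
    rw [hF]
    exact filter_subset _ _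
  refine Lv.close_S3 H (P := hubC ho vl kp g f) (fun _ _ h => h.1)
    (sH := sHX Z cp R n t U ho vl kp mn be g f) (sM := sMX cp R n t U ho vl kp mn be g f)
    (sC := sCX Z R t ho kp mn be g f) (δ := δ) hL hF ?_ ?_ ?_
  · intro v _
    have h1 := sX_sum (R := R) (n := n) (t := t) (U := U) (ho := ho) (vl := vl) (kp := kp) (mn := mn)
      (be := be) (g := g) (f := f) Z cp v
    by_cases hp : hubC ho vl kp g f v.1
    · rw [if_pos hp] at h1 ⊢
      exact h1.ge
    · rw [if_neg hp] at h1 ⊢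
      exact h1.ge
  · intro z hz hzL hz1
    by_cases h0 : z = 0
    · subst h0
      have h2 := hub hzL hz1
      have e1 : ∑ v ∈ F.filter (fun v => ho v.1 = 0), sHX Z cp R n t U ho vl kp mn be g f v
          = ∑ v ∈ F.filter (fun v => ho v.1 = 0 ∧ cutE kp g f v.1), cp v := by
        rw [← filter_filter, sum_filter (s := F.filter fun v => ho v.1 = 0)
          (p := fun v => cutE kp g f v.1)]
        refine sum_congr rfl fun v hv => ?_
        obtain ⟨h3, h4⟩ := mem_filter.1 hv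
        have h5 : ¬ hubC ho vl kp g f v.1 := fun h => h.2.1 h4
        unfold sHX sMX
        rw [if_neg h5, if_pos h4]
        split_ifs <;> ring
      have e3 : ∑ v ∈ F.filter (fun v => v.2.1 = 0), sMX cp R n t U ho vl kp mn be g f v = 0 := by
        refine sum_eq_zero fun v hv => ?_
        obtain ⟨h3, h4⟩ := mem_filter.1 hv
        have h5 := Lv.main_ne (hFV h3)
        rw [h4] at h5
        unfold sMX
        rw [if_neg (Ne.symm h5), if_pos h4]
      have e4 : F.filter (fun v => hubC ho vl kp g f v.1 ∧ f v.1 = 0)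
          = F.filter (fun v => hubC ho vl kp g f v.1) :=
        filter_congr fun v _ => ⟨fun h => h.1, fun h => ⟨h, h.2.2⟩⟩
      rw [e1, e3, e4, add_zero]
      exact h2
    · have e0 : ∑ v ∈ F.filter (fun v => hubC ho vl kp g f v.1 ∧ f v.1 = z),
          sCX Z R t ho kp mn be g f v = 0 := by
        refine sum_eq_zero fun v hv => ?_
        obtain ⟨-, h4, h5⟩ := mem_filter.1 hv
        exact absurd (h5.symm.trans h4.2.2) h0
      rw [e0, add_zero]
      refine row z hz h0 hzL ?_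
      have e1 : (unV n U g).filter (fun v => z ∈ unC (hubC ho vl kp g f) f v)
          = (unV n U g).filter fun v => v.2.1 = z := by
        refine filter_congr fun v _ => ?_
        unfold unC
        by_cases h6 : hubC ho vl kp g f v.1
        · rw [if_pos h6, mem_insert, mem_singleton, h6.2.2]
          exact ⟨fun h => h.elim (fun h => h.symm) fun h => absurd h h0, fun h => Or.inl h.symm⟩
        · rw [if_neg h6, mem_singleton]
          exact ⟨fun h => h.symm, fun h => h.symm⟩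
      rw [e1] at hz1
      exact hz1
  · have h1 : ∑ i ∈ (range n).filter (fun i => i ∉ L), δ i ≤ ∑ i ∈ range n, δ i :=
      sum_le_sum_of_subset_of_nonneg (filter_subset _ _) fun i hi _ => hδ i (mem_range.1 hi)
    linarith

/-- **the closing of regime H with the table X* and the budgets `A z / (C + 3)`, hub `(5 / 2) / (C + 3)`** -/
theorem LevC.close_X3 (Lv : LevC n U ho vl kp mn pc (phiX R t ho mn) g f)
    (H : PCon R n t s mu U ho vl kp mn pc ar be kq NN sg nu) {Z : ℕ → ℝ} {cp : ι × ℕ × ℕ → ℝ}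
    {L : Finset ℕ} (hL : L = lightU n s (unV n U g) (unC (hubC ho vl kp g f) f))
    {F : Finset (ι × ℕ × ℕ)}
    (hF : F = freeU (unV n U g) (fun v => ho v.1) (unC (hubC ho vl kp g f) f) L)
    (hub : 0 ∉ L →
      1 ≤ s 0 + (((unV n U g).filter fun v => 0 ∈ unC (hubC ho vl kp g f) f v).card : ℤ) →
      ∑ v ∈ F.filter (fun v => ho v.1 = 0 ∧ cutE kp g f v.1), cp v
        + ∑ v ∈ F.filter (fun v => hubC ho vl kp g f v.1), sCX Z R t ho kp mn be g f v
        ≤ (mu 0 : ℝ) - s 0 + (5 / 2) / ((R : ℝ) - (t 0 + 1) + 3))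
    (row : ∀ z < n, z ≠ 0 → z ∉ L →
      1 ≤ s z + (((unV n U g).filter fun v => v.2.1 = z).card : ℤ) →
      ∑ v ∈ F.filter (fun v => ho v.1 = z), sHX Z cp R n t U ho vl kp mn be g f v
        + ∑ v ∈ F.filter (fun v => v.2.1 = z), sMX cp R n t U ho vl kp mn be g f v
        ≤ (mu z : ℝ) - s z + ((t z : ℝ) + 1) / ((R : ℝ) - (t 0 + 1) + 3)) : False := by
  refine Lv.close_X H (Z := Z) (cp := cp) hL hF (δ := budH R t) ?_ ?_ (sum_budH3 H).1 (sum_budH3 H).2
  · intro h1 h2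
    have h3 := hub h1 h2
    unfold budH
    rw [if_pos rfl]
    exact h3
  · intro z hz h0 hzL hz1
    have h3 := row z hz h0 hzL hz1
    unfold budH
    rw [if_neg h0]
    exact h3

end RulXS

end Pool.Agent.Lib.MP_f04ccf_co
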