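import Pool.Agent.Lib.MP_f04ccf_co.M.CsGen
import Pool.Agent.Lib.MP_f04ccf_co.M.RulX
import Pool.Agent.Lib.MP_f04ccf_co.M.HubI

/-!
MP_f04ccf_co, TEXT D, regime H: **the row claim of the table X* from weights** (39's 18809, 22's 18782).

Letters: the row `z ≠ 0`, `A = t z + 1`, `c = R - A`; `w y / c` the weight of the column `y`, `τ` the weight of the row
test.

* `rnB`: the arcs of a used item without the own cell; `LevC.csInB`: the joint column with them;
* `LevC.one_unit`: the only unit of an item of value one;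
* `LevC.srvX`: a served item of value one pays its share (table X*); `LevC.srvX0`: the unused ones pay nothing;
  `LevC.hub_us`: all served items of value one of the hub are used;
* `LevC.hstX`: a hosted plain item of value one pays its share;
* **`LevC.rowX_of_weights`: the row claim from `(W1)`, `(W2)`, `(W3)`, `(W5)`, `(W9)`**, the half units with two thin
  ends (`hd`) and the cliques (`hBc`, `hSc`) by hypothesis.
-/

set_option autoImplicit false

namespace Pool.Agent.Lib.MP_f04ccf_co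

open Finset

attribute [local instance] Classical.propDecidable

section RowXW

variable {ι : Type*} {R : ℤ} {n : ℕ} {t s mu : ℕ → ℤ} {U : Finset ι} {ho : ι → ℕ} {vl : ι → ℤ}
  {kp mn : ℕ → ι → ℤ} {pc ar : ι → ℤ} {be kq NN sg : ℕ → ℕ → ℤ} {nu : ℕ → ι → ℤ} {z y : ℕ}
  {φ : ι → ℕ → ℤ} {g : ℕ → ι → ℕ} {f : ι → ℕ}

/-- the item has an end besides `z` -/
def othE (n : ℕ) (kp : ℕ → ι → ℤ) (z : ℕ) (u : ι) : Prop := ∃ l < n, l ≠ z ∧ kp l u ≠ 0

/-- the arcs of an item of the host `y` used at `z`, without the pairs of the own cell -/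
noncomputable def rnB (n : ℕ) (kp : ℕ → ι → ℤ) (be : ℕ → ℕ → ℤ) (z y : ℕ) (u : ι) : ℤ :=
  if othE n kp z u then
    ∑ l ∈ (((range n).erase y).erase z).filter (fun l => kp l u ≠ 0), be y l else 0

lemma rnA_eq_rnB (hz : z < n) (hyz : y ≠ z) {u : ι} (hu : kp z u ≠ 0) :
    rnA n kp be z y u = rnB n kp be z y u + (if othE n kp z u then be y z else 0) := by
  unfold rnA rnB othE
  by_cases h : ∃ l < n, l ≠ z ∧ kp l u ≠ 0
  · rw [if_pos h, if_pos h, if_pos h]
    have h1 : z ∈ ((range n).erase y).filter (fun l => kp l u ≠ 0) :=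
      mem_filter.2 ⟨mem_erase.2 ⟨Ne.symm hyz, mem_range.2 hz⟩, hu⟩
    rw [← add_sum_erase _ _ h1, add_comm]
    congr 1
    refine sum_congr ?_ fun _ _ => rfl
    ext l
    simp only [mem_filter, mem_erase]
    tauto
  · rw [if_neg h, if_neg h, if_neg h, add_zero]

/-- **a joint column, arcs without the own cell** -/
theorem LevC.csInB (C : LevC n U ho vl kp mn pc φ g f)
    (H : PConC R n t s mu U ho vl kp mn pc ar be kq NN sg nu) (hz : z < n)
    (hy : y ∈ (range n).erase z) {P : Finset ι} (hP : P ⊆ hsZ U ho pc z) {Y : Finset ℕ}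
    (hY : Y ⊆ ((range n).erase z).erase y) {V : Finset ι}
    (hV : V ⊆ U.filter fun u => ho u = y ∧ g z u ≠ 0) :
    2 * (((R : ℝ) - ((t z : ℝ) + 1)) * ((be z y : ℝ) + ∑ u ∈ V, (g z u : ℝ)))
        + 2 * ∑ u ∈ hsZ U ho pc z, (crY R t vl kp mn z y P u : ℝ)
        + ((csRJ n t U ho vl kp pc be kq sg g z y (mu z - s z) P Y V
          - 2 * (be y z * ((V.filter fun u => othE n kp z u).card : ℤ)) : ℤ) : ℝ)
      ≤ 2 * ((t y : ℝ) * ((mu z : ℝ) - s z)) + 2 * ((R : ℝ) - t y)
        + 2 * ∑ u ∈ V, ((msP kp mn z (g z) u : ℝ) + (rnB n kp be z y u : ℝ)) := by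
  have h1 := C.csInJ H hz hy hP hY hV
  have hyz : y ≠ z := ne_of_mem_erase hy
  have h2 : ∑ u ∈ V, (rnA n kp be z y u : ℝ) = ∑ u ∈ V, (rnB n kp be z y u : ℝ)
      + be y z * ((V.filter fun u => othE n kp z u).card : ℝ) := by
    have h3 : ∀ u ∈ V, (rnA n kp be z y u : ℝ) = (rnB n kp be z y u : ℝ)
        + (if othE n kp z u then (be y z : ℝ) else 0) := by
      intro u hu
      obtain ⟨h4, -, h5⟩ := mem_filter.1 (hV hu)
      have h6 := C.le u h4 z hz
      have h7 : kp z u ≠ 0 := by omega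
      rw [rnA_eq_rnB hz hyz h7]
      push_cast
      split_ifs <;> simp
    rw [sum_congr rfl h3, sum_add_distrib, ← sum_filter, sum_const, nsmul_eq_mul]
    ring
  rw [sum_add_distrib, h2] at h1
  rw [sum_add_distrib]
  push_cast
  linarith

/-- the only unit of an item of value one -/
lemma LevC.one_unit (C : LevC n U ho vl kp mn pc φ g f)
    (H : PCon R n t s mu U ho vl kp mn pc ar be kq NN sg nu) {u : ι} (hu : u ∈ U) (h1 : vl u = 1) :
    ∃ m < n, g m u = 1 ∧ kp m u = 1 ∧ m ≠ ho u ∧ (∀ j < n, j ≠ m → g j u = 0) ∧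
      (u, m, 0) ∈ unV n U g ∧ unb kp mn g (u, m, 0) = mn m u ∧
      ((¬ cutE kp g f u ∧ m = f u ∧ mn m u = 0 ∧ ∀ j < n, j ≠ m → kp j u = 0) ∨
        (cutE kp g f u ∧ m ≠ f u ∧ pc u = 0 ∧ kp (f u) u = 1 ∧ g (f u) u = 0
          ∧ ∀ j < n, j ≠ m → j ≠ f u → kp j u = 0)) := by
  have hmem : ∀ m < n, g m u = 1 → (u, m, 0) ∈ unV n U g := by
    intro m hm h2
    have h3 := C.two H u hu m hm
    simp only [unV, mem_filter, mem_product, mem_range]
    exact ⟨⟨hu, hm, by omega⟩, by omega⟩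
  have hunb : ∀ m, g m u = 1 → kp m u = 1 → unb kp mn g (u, m, 0) = mn m u := by
    intro m h2 h3
    unfold unb
    refine if_pos ⟨?_, ?_⟩
    · show kp m u ≤ (g m u : ℤ)
      rw [h2, h3]
      norm_num
    · show 0 + 1 = g m u
      rw [h2]
  by_cases hc : cutE kp g f u
  · obtain ⟨m, hm, h2, h3, h4, h5, h6, h7, h8⟩ := C.half H hu h1 hc
    refine ⟨m, hm, h5, h4, h3, fun j hj hjm => ?_, hmem m hm h5, hunb m h5 h4,
      Or.inr ⟨hc, h2, ?_, h6, h7, fun j hj h9 h10 => (h8 j hj h9 h10).1⟩⟩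
    · by_cases h9 : j = f u
      · rw [h9]
        exact h7
      · exact (h8 j hj hjm h9).2
    · rcases C.typ u hu with ⟨-, h9, h10, -, -⟩ | ⟨h9, -⟩
      · unfold cutE at hc
        rw [h9, h10] at hc
        norm_num at hc
      · exact h9
  · rcases C.typ u hu with ⟨-, h2, h3, h4, h5⟩ | ⟨-, h2, -, -⟩
    · refine ⟨f u, C.fn u hu, h2, h3, C.fh u hu, fun j hj hjm => ?_, hmem _ (C.fn u hu) h2,
        hunb _ h2 h3, Or.inl ⟨hc, rfl, h4, h5⟩⟩
      have h6 := C.le u hu j hj
      rw [h5 j hj hjm] at h6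
      omega
    · exact absurd h2 hc

/-- the item `u` of value one is used at `z` iff its misses and arcs are at most `c` -/
def usX (R : ℤ) (t : ℕ → ℤ) (ho : ι → ℕ) (kp mn : ℕ → ι → ℤ) (be : ℕ → ℕ → ℤ)
    (g : ℕ → ι → ℕ) (f : ι → ℕ) (z : ℕ) (u : ι) : Prop :=
  cutE kp g f u → mn z u + be (ho u) (f u) ≤ R - (t z + 1)

/-- **a served item of value one** pays its share of the table X* from the column of its host and the row test -/
theorem LevC.srvX (C : LevC n U ho vl kp mn pc (phiX R t ho mn) g f)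
    (H : PCon R n t s mu U ho vl kp mn pc ar be kq NN sg nu) (hz : z < n) (hz0 : z ≠ 0) {u : ι}
    (hu : u ∈ U) (hg : g z u ≠ 0) (h1 : vl u = 1) {cp : ι × ℕ × ℕ → ℝ} {c w τ : ℝ}
    (hc : c = (R : ℝ) - ((t z : ℝ) + 1)) (hc0 : 0 < c) (hw : 0 ≤ w) (hτ : 0 ≤ τ)
    (hW0 : ho u = 0 → 1 ≤ w + τ * c)
    (hW : ho u ≠ 0 → ((t (ho u) : ℝ) + 1) / ((t (ho u) : ℝ) + 1 + ((t z : ℝ) + 1)) ≤ w + τ * c)
    (hcp : ho u = 0 → cutE kp g f u → cp (u, z, 0) < ((mn z u : ℝ) + be 0 (f u)) / c →
      (w + τ * c) * mn z u + w * be 0 (f u) ≤ c * (w + τ * c - 1 + cp (u, z, 0)))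
    (hus : usX R t ho kp mn be g f z u) :
    yIt g (fun v => max 0 (sMX cp R n t U ho vl kp mn be g f v)) z u
      ≤ w * (g z u : ℝ) - w / c * ((msP kp mn z (g z) u : ℝ) + (rnB n kp be z (ho u) u : ℝ))
        + τ * (c * (g z u : ℝ) - (msP kp mn z (g z) u : ℝ)) := by
  obtain ⟨m, hm, h2, h3, h4, h5, h6, h7, h8⟩ := C.one_unit H hu h1
  have hmz : m = z := by
    by_contra hcon
    exact hg (h5 z hz (Ne.symm hcon))
  subst hmz
  have hy : yIt g (fun v => max 0 (sMX cp R n t U ho vl kp mn be g f v)) m u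
      = max 0 (sMX cp R n t U ho vl kp mn be g f (u, m, 0)) := by
    unfold yIt
    rw [h2, sum_range_one]
  have hms : msP kp mn m (g m) u = mn m u := by
    unfold msP
    refine if_pos ?_
    rw [h2, h3]
    norm_num
  have hb0 : (0 : ℝ) ≤ mn m u := by exact_mod_cast H.m0 u hu m hm
  rw [hy, hms, h2]
  push_cast
  rw [mul_one, mul_one]
  have hx := H.hlt u hu
  have hsx : ∀ {x : ℕ}, x < n → (0 : ℝ) < (t x : ℝ) + 1 := fun {x} hx => by
    have := H.t0 x hx
    have h9 : (0 : ℝ) ≤ t x := by exact_mod_cast this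
    linarith
  have hs0 : 0 ≤ sX t ho (u, m, 0) := by
    unfold sX
    exact div_nonneg (hsx hx).le (by linarith [hsx hx, hsx hm])
  rcases h8 with ⟨h9, h10, h11, h12⟩ | ⟨h9, h10, h11, h12, h13, h14⟩
  · -- full
    have hB : rnB n kp be m (ho u) u = 0 := by
      unfold rnB
      refine if_neg ?_
      rintro ⟨l, hl, hlm, hl0⟩
      exact hl0 (h12 l hl hlm)
    have hC : ¬ hubC ho vl kp g f u := fun h => h9 h.1.2
    rw [hB, h11]
    push_cast
    rw [add_zero, mul_zero, sub_zero, sub_zero]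
    refine max_le (by positivity) ?_
    unfold sMX
    by_cases h15 : ho u = 0
    · rw [if_pos h15, if_neg h9]
      have := hW0 h15
      linarith
    · rw [if_neg h15, if_neg (show ((u, m, 0) : ι × ℕ × ℕ).2.1 ≠ 0 from hz0), if_neg hC, if_pos h1,
        if_neg h9]
      unfold sX
      have := hW h15
      linarith
  · -- a cut end
    have hfn := C.fn u hu
    have hfh := C.fh u hu
    have hB : rnB n kp be m (ho u) u = be (ho u) (f u) := by
      unfold rnB
      rw [if_pos ⟨f u, hfn, Ne.symm h10, by rw [h12]; norm_num⟩]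
      have h15 : (((range n).erase (ho u)).erase m).filter (fun l => kp l u ≠ 0) = {f u} := by
        ext l
        simp only [mem_filter, mem_erase, mem_range, mem_singleton]
        constructor
        · rintro ⟨⟨h16, h17, h18⟩, h19⟩
          by_contra h20
          exact h19 (h14 l h18 h16 h20)
        · rintro rfl
          exact ⟨⟨Ne.symm h10, hfh, hfn⟩, by rw [h12]; norm_num⟩
      rw [h15, sum_singleton]
    rw [hB]
    have hbe : (0 : ℝ) ≤ be (ho u) (f u) := by
      exact_mod_cast H.be0 (ho u) (H.hlt u hu) (f u) hfn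
    have husr : (mn m u : ℝ) + be (ho u) (f u) ≤ c := by
      have h15 := hus h9
      rw [hc]
      exact_mod_cast h15
    -- the right side
    have e1 : w - w / c * ((mn m u : ℝ) + be (ho u) (f u)) + τ * (c - mn m u)
        = (w + τ * c) * (1 - mn m u / c) - w * (be (ho u) (f u) / c) := by
      field_simp
      ring
    rw [e1]
    set b : ℝ := mn m u / c with hb
    set e : ℝ := be (ho u) (f u) / c with he
    have hb1 : 0 ≤ b := div_nonneg hb0 hc0.le
    have he1 : 0 ≤ e := div_nonneg hbe hc0.le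
    have hbe1 : b + e ≤ 1 := by
      rw [hb, he, ← add_div, div_le_one hc0]
      exact husr
    have hrx : rX R t ho kp mn be g f (u, m, 0) = b + e := by
      unfold rX
      rw [h7]
      have e2 : ((mn m u : ℝ) + be (ho ((u, m, 0) : ι × ℕ × ℕ).1) (f ((u, m, 0) : ι × ℕ × ℕ).1))
          / ((R : ℝ) - ((t ((u, m, 0) : ι × ℕ × ℕ).2.1 : ℝ) + 1)) = b + e := by
        show ((mn m u : ℝ) + be (ho u) (f u)) / ((R : ℝ) - ((t m : ℝ) + 1)) = b + e
        rw [← hc, add_div]
      rw [e2]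
      exact min_eq_right hbe1
    have hws : 0 ≤ (w + τ * c) * (1 - b) - w * e := by
      have h15 : w * e ≤ (w + τ * c) * e :=
        mul_le_mul_of_nonneg_right (by have := mul_nonneg hτ hc0.le; linarith) he1
      have h16 : (w + τ * c) * e ≤ (w + τ * c) * (1 - b) :=
        mul_le_mul_of_nonneg_left (by linarith) (by have := mul_nonneg hτ hc0.le; linarith)
      linarith
    -- a share `S (1 - (b + e))` with `0 ≤ S ≤ w + τ c`
    have key : ∀ S : ℝ, 0 ≤ S → S ≤ w + τ * c → S * (1 - (b + e)) ≤ (w + τ * c) * (1 - b) - w * e := by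
      intro S hS0 hS
      have h15 : S * (1 - (b + e)) ≤ (w + τ * c) * (1 - (b + e)) :=
        mul_le_mul_of_nonneg_right hS (by linarith)
      have h16 : 0 ≤ τ * c * e := mul_nonneg (mul_nonneg hτ hc0.le) he1
      have e3 : (w + τ * c) * (1 - (b + e)) = (w + τ * c) * (1 - b) - w * e - τ * c * e := by ring
      linarith
    refine max_le hws ?_
    unfold sMX
    by_cases h15 : ho u = 0
    · rw [if_pos h15, if_pos h9]
      rcases le_or_gt (b + e) (cp (u, m, 0)) with h16 | h16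
      · have := key 1 zero_le_one (hW0 h15)
        linarith
      · have h17 := hcp h15 h9 (by
          have e4 : ((mn m u : ℝ) + be 0 (f u)) / c = b + e := by
            rw [hb, he, h15, add_div]
          rw [e4]
          exact h16)
        rw [h15] at he
        have h18 : (w + τ * c) * b + w * e ≤ w + τ * c - 1 + cp (u, m, 0) := by
          have e5 : ((w + τ * c) * mn m u + w * be 0 (f u)) / c = (w + τ * c) * b + w * e := by
            rw [hb, he]
            ring
          rw [← e5, div_le_iff₀ hc0]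
          linarith
        linarith
    · rw [if_neg h15, if_neg (show ((u, m, 0) : ι × ℕ × ℕ).2.1 ≠ 0 from hz0)]
      have hS : sX t ho (u, m, 0) ≤ w + τ * c := hW h15
      have hq : qX R t mn u ≤ 1 ∧ 0 ≤ qX R t mn u := by
        have hn : 0 < n := by have := H.n5; omega
        have h16 : 0 ≤ R - (t 0 + 1) := by
          have h17 := H.tsum
          have h18 : ∑ i ∈ ({0, m} : Finset ℕ), (t i + 1) ≤ ∑ i ∈ range n, (t i + 1) :=
            sum_le_sum_of_subset_of_nonneg (fun i hi => by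
              rcases mem_insert.1 hi with h4 | h4
              · rw [h4]
                exact mem_range.2 hn
              · rw [mem_singleton.1 h4]
                exact mem_range.2 hm) fun i hi _ => by
              have := H.t0 i (mem_range.1 hi)
              linarith
          rw [sum_pair (Ne.symm hz0)] at h18
          have := H.t0 m hm
          linarith
        have h17 : (0 : ℝ) ≤ (R : ℝ) - ((t 0 : ℝ) + 1) := by exact_mod_cast h16
        have h18 : ((min (mn 0 u) (R - (t 0 + 1)) : ℤ) : ℝ) ≤ (R : ℝ) - ((t 0 : ℝ) + 1) := by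
          have : min (mn 0 u) (R - (t 0 + 1)) ≤ R - (t 0 + 1) := min_le_right _ _
          exact_mod_cast this
        have h19 : (0 : ℝ) ≤ ((min (mn 0 u) (R - (t 0 + 1)) : ℤ) : ℝ) := by
          have : 0 ≤ min (mn 0 u) (R - (t 0 + 1)) := le_min (H.m0 u hu 0 hn) h16
          exact_mod_cast this
        unfold qX
        exact ⟨div_le_one_of_le₀ h18 h17, div_nonneg h19 h17⟩
      split_ifs with h16
      · have h20 : qX R t mn u * sX t ho (u, m, 0) ≤ w + τ * c :=
          (mul_le_of_le_one_left hs0 hq.1).trans hS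
        have := key _ (mul_nonneg hq.2 hs0) h20
        have h21 := rX_le_rS (R := R) (t := t) (ho := ho) (kp := kp) (mn := mn) (be := be) (g := g)
          (f := f) (u, m, 0)
        rw [hrx] at h21
        exact (mul_le_mul_of_nonneg_left (by linarith) (mul_nonneg hq.2 hs0)).trans this
      · rw [hrx]
        exact key _ hs0 hS

/-- what the host pays for an item of value one -/
lemma LevC.xIt_one (C : LevC n U ho vl kp mn pc φ g f) {u : ι} {m : ℕ} (hm : m < n)
    (h2 : g m u = 1) (h5 : ∀ j < n, j ≠ m → g j u = 0) (X : ι × ℕ × ℕ → ℝ) :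
    xIt n g X u = X (u, m, 0) := by
  unfold xIt
  rw [sum_eq_single_of_mem m (mem_range.2 hm) fun j hj hjm => ?_]
  · rw [h2, sum_range_one]
  · rw [h5 j (mem_range.1 hj) hjm, range_zero, sum_empty]

/-- the credit of a hosted item from its base -/
lemma cred_ge {J : Finset ℕ} {w kd cr : ℕ → ℝ} {c τ L : ℝ} (hc0 : 0 < c) (hw : ∀ y ∈ J, 0 ≤ w y)
    (hkd : ∀ y ∈ J, kd y ≤ cr y) (hL : L = τ * c + ∑ y ∈ J, w y / c * kd y) {S : Finset ℕ}
    (hS : S ⊆ J) :
    L + ∑ y ∈ S, w y / c * (cr y - kd y) ≤ ∑ y ∈ J, w y / c * cr y + τ * c := by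
  have h1 : ∑ y ∈ S, w y / c * (cr y - kd y) ≤ ∑ y ∈ J, w y / c * (cr y - kd y) :=
    sum_le_sum_of_subset_of_nonneg hS fun y hy _ =>
      mul_nonneg (div_nonneg (hw y hy) hc0.le) (by linarith [hkd y hy])
  have h2 : ∑ y ∈ J, w y / c * (cr y - kd y) = ∑ y ∈ J, w y / c * cr y - ∑ y ∈ J, w y / c * kd y := by
    rw [← sum_sub_distrib]
    exact sum_congr rfl fun y _ => by ring
  rw [hL]
  linarith

/-- **the hub-ended half unit, pure**: `q` from `(W3)` and `(W9)` -/
lemma typC_pure {L w0 c C1 a1 q s zz r : ℝ} (hq0 : 0 ≤ q) (hq1 : q ≤ 1) (hr1 : r ≤ 1)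
    (hsz : zz ≤ s) (ha1 : (1 - q) * C1 ≤ a1) (hw : 0 ≤ w0 / c)
    (W3 : 1 ≤ L + w0 / c * C1) (W9 : 1 - zz ≤ L) :
    1 - q * s * (1 - r) - q * zz * r ≤ L + w0 / c * a1 := by
  have h1 : w0 / c * ((1 - q) * C1) ≤ w0 / c * a1 := mul_le_mul_of_nonneg_left ha1 hw
  have h2 : (1 - q) * 1 ≤ (1 - q) * (L + w0 / c * C1) :=
    mul_le_mul_of_nonneg_left W3 (by linarith)
  have h3 : 0 ≤ q * (L - (1 - zz)) := mul_nonneg hq0 (by linarith)
  have h4 : 0 ≤ q * ((s - zz) * (1 - r)) :=
    mul_nonneg hq0 (mul_nonneg (by linarith) (by linarith))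
  nlinarith

/-- **a hosted plain item of value one** pays its share of the table X* from the base `L` and its hits; the half units
with two thin ends by hypothesis (`hd`) -/
theorem LevC.hstX (C : LevC n U ho vl kp mn pc (phiX R t ho mn) g f)
    (H : PCon R n t s mu U ho vl kp mn pc ar be kq NN sg nu) (hR : R ≤ 2 * (t 0 + 1)) (hz : z < n)
    (hz0 : z ≠ 0) {P : ℕ → Finset ι} {u : ι}
    (hu : u ∈ hsZ U ho pc z) (h1 : vl u = 1) {cp : ι × ℕ × ℕ → ℝ} {Z : ℕ → ℝ} {c τ L : ℝ}
    {w kd : ℕ → ℝ}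
    (hc : c = (R : ℝ) - ((t z : ℝ) + 1)) (hc0 : 0 < c)
    (hw : ∀ y ∈ (range n).erase z, 0 ≤ w y) (hZ : Z z ≤ ((t z : ℝ) + 1) / c)
    (hkd : ∀ y ∈ (range n).erase z, kd y ≤ (crY R t vl kp mn z y (P y) u : ℝ))
    (hkp : ∀ y ∈ (range n).erase z, kp y u ≠ 0 → c - mn y u ≤ (crY R t vl kp mn z y (P y) u : ℝ))
    (hkd0 : kd 0 = (t 0 : ℝ) - ((t z : ℝ) + 1))
    (hL : L = τ * c + ∑ y ∈ (range n).erase z, w y / c * kd y)
    (W3 : 1 ≤ L + w 0 / c * ((R : ℝ) - t 0))
    (W5 : ∀ y < n, y ≠ z → y ≠ 0 →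
      ((t y : ℝ) + 1) / ((t z : ℝ) + 1 + ((t y : ℝ) + 1)) ≤ L + w y / c * (c - kd y))
    (W9 : (∃ m < n, hubC ho vl kp g f u ∧ g m u ≠ 0) → 1 - Z z ≤ L)
    (hd : ∀ m < n, g m u ≠ 0 → cutE kp g f u → f u ≠ 0 →
      1 - sX t ho (u, m, 0) * (1 - rX R t ho kp mn be g f (u, m, 0))
        ≤ L + w m / c * max 0 (c - mn m u - kd m) + w (f u) / c * max 0 (c - mn (f u) u - kd (f u))) :
    xIt n g (fun v => max 0 (sHX Z cp R n t U ho vl kp mn be g f v)) u
      ≤ ∑ y ∈ (range n).erase z, w y / c * (crY R t vl kp mn z y (P y) u : ℝ)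
        + τ * (c * (vl u : ℝ)) := by
  obtain ⟨huU, hhz, hpc⟩ := mem_filter.1 hu
  obtain ⟨m, hm, h2, h3, h4, h5, h6, h7, h8⟩ := C.one_unit H huU h1
  rw [C.xIt_one hm h2 h5, h1]
  push_cast
  rw [mul_one]
  have hn : 0 < n := by have := H.n5; omega
  have hmz : m ≠ z := by rw [← hhz]; exact h4
  have h0J : 0 ∈ (range n).erase z := mem_erase.2 ⟨Ne.symm hz0, mem_range.2 hn⟩
  have hmJ : m ∈ (range n).erase z := mem_erase.2 ⟨hmz, mem_range.2 hm⟩
  have hb0 : (0 : ℝ) ≤ mn m u := by exact_mod_cast H.m0 u huU m hm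
  have hA : (0 : ℝ) < (t z : ℝ) + 1 := by
    have h9 : (0 : ℝ) ≤ t z := by exact_mod_cast H.t0 z hz
    linarith
  have hAm : (0 : ℝ) < (t m : ℝ) + 1 := by
    have h9 : (0 : ℝ) ≤ t m := by exact_mod_cast H.t0 m hm
    linarith
  have hm2 : (t 0 : ℝ) + 1 + ((t z : ℝ) + 1) ≤ R := by
    have h10 := H.tsum
    have h11 : ∑ i ∈ ({0, z} : Finset ℕ), (t i + 1) ≤ ∑ i ∈ range n, (t i + 1) :=
      sum_le_sum_of_subset_of_nonneg (fun i hi => by
        rcases mem_insert.1 hi with h4 | h4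
        · rw [h4]
          exact mem_range.2 hn
        · rw [mem_singleton.1 h4]
          exact mem_range.2 hz) fun i hi _ => by
        have := H.t0 i (mem_range.1 hi)
        linarith
    rw [sum_pair (Ne.symm hz0)] at h11
    have h12 : t 0 + 1 + (t z + 1) ≤ R := by linarith
    exact_mod_cast h12
  have hkp1 : ∀ y, y = m → (c - mn y u ≤ (crY R t vl kp mn z y (P y) u : ℝ)) := by
    rintro y rfl
    exact hkp y hmJ (by rw [h3]; norm_num)
  have hL0 : L ≤ ∑ y ∈ (range n).erase z, w y / c * (crY R t vl kp mn z y (P y) u : ℝ) + τ * c := by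
    have := cred_ge hc0 hw hkd hL (empty_subset _)
    rw [sum_empty, add_zero] at this
    exact this
  have hL1 : ∀ y ∈ (range n).erase z, L + w y / c * ((crY R t vl kp mn z y (P y) u : ℝ) - kd y)
      ≤ ∑ y ∈ (range n).erase z, w y / c * (crY R t vl kp mn z y (P y) u : ℝ) + τ * c := by
    intro y hy
    have := cred_ge hc0 hw hkd hL (singleton_subset_iff.2 hy)
    rw [sum_singleton] at this
    exact this
  rcases h8 with ⟨h9, h10, h11, h12⟩ | ⟨h9, h10, h11, h12, h13, h14⟩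
  · -- full
    have hC : ¬ hubC ho vl kp g f u := fun h => h9 h.1.2
    have hcr : c ≤ (crY R t vl kp mn z m (P m) u : ℝ) := by
      have := hkp1 m rfl
      rw [h11] at this
      push_cast at this
      linarith
    have hwm : 0 ≤ w m / c := div_nonneg (hw m hmJ) hc0.le
    have h15 := hL1 m hmJ
    have h16 : w m / c * (c - kd m) ≤ w m / c * ((crY R t vl kp mn z m (P m) u : ℝ) - kd m) :=
      mul_le_mul_of_nonneg_left (by linarith) hwm
    unfold sHX
    rw [if_neg (show ¬ hubC ho vl kp g f ((u, m, 0) : ι × ℕ × ℕ).1 from hC), sub_zero]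
    by_cases hm0 : m = 0
    · subst hm0
      have h17 : sMX cp R n t U ho vl kp mn be g f (u, 0, 0) = 0 := by
        unfold sMX
        rw [if_neg (show ho ((u, 0, 0) : ι × ℕ × ℕ).1 ≠ 0 from by rw [show ho ((u, 0, 0) : ι × ℕ × ℕ).1 = z from hhz]; exact hz0), if_pos rfl]
      rw [h17, sub_zero]
      have e1 : c - kd 0 = (R : ℝ) - t 0 := by rw [hkd0, hc]; ring
      rw [e1] at h16
      refine max_le ?_ (by linarith)
      linarith
    · have h17 : sMX cp R n t U ho vl kp mn be g f (u, m, 0) = sX t ho (u, m, 0) := by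
        unfold sMX
        rw [if_neg (show ho ((u, m, 0) : ι × ℕ × ℕ).1 ≠ 0 from by rw [show ho ((u, m, 0) : ι × ℕ × ℕ).1 = z from hhz]; exact hz0), if_neg (show ((u, m, 0) : ι × ℕ × ℕ).2.1 ≠ 0 from hm0),
          if_neg (show ¬ hubC ho vl kp g f ((u, m, 0) : ι × ℕ × ℕ).1 from hC), if_pos h1, if_neg h9]
      have h18 : 1 - sX t ho (u, m, 0) = ((t m : ℝ) + 1) / ((t z : ℝ) + 1 + ((t m : ℝ) + 1)) := by
        unfold sX
        show 1 - ((t (ho u) : ℝ) + 1) / ((t (ho u) : ℝ) + 1 + ((t m : ℝ) + 1)) = _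
        rw [hhz]
        field_simp
        ring
      rw [h17, h18]
      have h19 := W5 m hm hmz hm0
      have h20 : 0 ≤ ((t m : ℝ) + 1) / ((t z : ℝ) + 1 + ((t m : ℝ) + 1)) := by positivity
      refine max_le ?_ ?_ <;> linarith
  · -- a cut end
    have hfn := C.fn u huU
    have hfz : f u ≠ z := by rw [← hhz]; exact C.fh u huU
    have hfJ : f u ∈ (range n).erase z := mem_erase.2 ⟨hfz, mem_range.2 hfn⟩
    have hcrm := hkp1 m rfl
    have hcrf : c - mn (f u) u ≤ (crY R t vl kp mn z (f u) (P (f u)) u : ℝ) :=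
      hkp (f u) hfJ (by rw [h12]; norm_num)
    have hm0 : m ≠ 0 := by
      have := C.two_mainX H h6 ⟨h1, h9⟩ (by rw [hhz]; exact hz0)
      exact this
    have hs0 : 0 ≤ sX t ho (u, m, 0) ∧ sX t ho (u, m, 0) ≤ 1 := by
      unfold sX
      show 0 ≤ ((t (ho u) : ℝ) + 1) / ((t (ho u) : ℝ) + 1 + ((t m : ℝ) + 1)) ∧ _
      rw [hhz]
      refine ⟨by positivity, ?_⟩
      show ((t z : ℝ) + 1) / ((t z : ℝ) + 1 + ((t m : ℝ) + 1)) ≤ 1
      rw [div_le_one (by linarith)]
      linarith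
    have hr : rS R t ho kp mn be g f (u, m, 0) ≤ 1 := rS_le_one _
    by_cases hf0 : f u = 0
    · -- the hub is the cut end
      have hC : hubC ho vl kp g f u := ⟨⟨h1, h9⟩, by rw [hhz]; exact hz0, hf0⟩
      have hW9 := W9 ⟨m, hm, hC, by rw [h2]; norm_num⟩
      have hq : 0 ≤ qX R t mn u ∧ qX R t mn u ≤ 1 ∧
          (1 - qX R t mn u) * ((R : ℝ) - t 0) ≤ (R : ℝ) - t 0 - mn 0 u := by
        have h16 : 0 < R - (t 0 + 1) := by
          have h17 : ((0 : ℤ) : ℝ) < ((R - (t 0 + 1) : ℤ) : ℝ) := by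
            push_cast
            linarith
          exact_mod_cast h17
        have h17 : (0 : ℝ) < (R : ℝ) - ((t 0 : ℝ) + 1) := by exact_mod_cast h16
        have h18 : ((min (mn 0 u) (R - (t 0 + 1)) : ℤ) : ℝ) ≤ (R : ℝ) - ((t 0 : ℝ) + 1) := by
          have : min (mn 0 u) (R - (t 0 + 1)) ≤ R - (t 0 + 1) := min_le_right _ _
          exact_mod_cast this
        have h19 : (0 : ℝ) ≤ ((min (mn 0 u) (R - (t 0 + 1)) : ℤ) : ℝ) := by
          have : 0 ≤ min (mn 0 u) (R - (t 0 + 1)) := le_min (H.m0 u huU 0 hn) h16.le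
          exact_mod_cast this
        unfold qX
        refine ⟨div_nonneg h19 h17.le, div_le_one_of_le₀ h18 h17.le, ?_⟩
        have h20 := H.mnc u huU 0 hn
        rcases le_or_gt (mn 0 u) (R - (t 0 + 1)) with h21 | h21
        · rw [min_eq_left h21]
          have h22 : (mn 0 u : ℝ) ≤ (R : ℝ) - ((t 0 : ℝ) + 1) := by exact_mod_cast h21
          have e1 : (1 - (mn 0 u : ℝ) / ((R : ℝ) - ((t 0 : ℝ) + 1))) * ((R : ℝ) - t 0)
              = (R : ℝ) - t 0 - mn 0 u - mn 0 u / ((R : ℝ) - ((t 0 : ℝ) + 1)) := by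
            field_simp
            ring
          rw [e1]
          have h23 : 0 ≤ (mn 0 u : ℝ) / ((R : ℝ) - ((t 0 : ℝ) + 1)) :=
            div_nonneg (by exact_mod_cast H.m0 u huU 0 hn) h17.le
          linarith
        · rw [min_eq_right h21.le]
          push_cast
          rw [div_self h17.ne', sub_self, zero_mul]
          have h22 : (mn 0 u : ℝ) ≤ (R : ℝ) - t 0 := by exact_mod_cast h20
          linarith
      have hkd0' := hL1 0 h0J
      have hcr0 : (R : ℝ) - t 0 - mn 0 u ≤ (crY R t vl kp mn z 0 (P 0) u : ℝ) - kd 0 := by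
        rw [hf0] at hcrf
        rw [hkd0]
        rw [hc] at hcrf
        linarith
      have hw0 : 0 ≤ w 0 / c := div_nonneg (hw 0 h0J) hc0.le
      have h15 := mul_le_mul_of_nonneg_left hcr0 hw0
      have hsz : ((t z : ℝ) + 1) / c ≤ sX t ho (u, m, 0) := by
        unfold sX
        show _ ≤ ((t (ho u) : ℝ) + 1) / ((t (ho u) : ℝ) + 1 + ((t m : ℝ) + 1))
        rw [hhz]
        refine div_le_div_of_nonneg_left hA.le (by linarith) ?_
        have h16 := H.tsum
        have h17 : ∑ i ∈ ({0, z, m} : Finset ℕ), (t i + 1) ≤ ∑ i ∈ range n, (t i + 1) :=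
          sum_le_sum_of_subset_of_nonneg (fun i hi => by
            simp only [mem_insert, mem_singleton] at hi
            rcases hi with rfl | rfl | rfl
            · exact mem_range.2 hn
            · exact mem_range.2 hz
            · exact mem_range.2 hm) fun i hi _ => by
            have := H.t0 i (mem_range.1 hi)
            linarith
        rw [sum_insert (by simp [Ne.symm hz0, Ne.symm hm0]), sum_insert (by simp [Ne.symm hmz]),
          sum_singleton] at h17
        have h18 : 2 * (t z + 1) + (t m + 1) ≤ R := by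
          have := H.t0 m hm
          linarith
        have h19 : 2 * ((t z : ℝ) + 1) + ((t m : ℝ) + 1) ≤ R := by exact_mod_cast h18
        rw [hc]
        linarith
      have hX : sHX Z cp R n t U ho vl kp mn be g f (u, m, 0)
          = 1 - qX R t mn u * sX t ho (u, m, 0) * (1 - rS R t ho kp mn be g f (u, m, 0))
            - qX R t mn u * Z z * rS R t ho kp mn be g f (u, m, 0) := by
        unfold sHX
        rw [if_pos (show hubC ho vl kp g f ((u, m, 0) : ι × ℕ × ℕ).1 from hC)]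
        unfold sMX sCX
        rw [if_neg (show ho ((u, m, 0) : ι × ℕ × ℕ).1 ≠ 0 from hC.2.1), if_neg (show ((u, m, 0) : ι × ℕ × ℕ).2.1 ≠ 0 from hm0),
          if_pos (show hubC ho vl kp g f ((u, m, 0) : ι × ℕ × ℕ).1 from hC)]
        show _ = 1 - qX R t mn u * sX t ho (u, m, 0) * (1 - rS R t ho kp mn be g f (u, m, 0)) - _
        rw [show Z (ho ((u, m, 0) : ι × ℕ × ℕ).1) = Z z from by
          show Z (ho u) = Z z
          rw [hhz]]
      have hR0 : (0 : ℝ) < R := by
        have := hm2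
        have h9 : (0 : ℝ) ≤ t 0 := by exact_mod_cast H.t0 0 hn
        linarith
      have h16 := typC_pure (L := L) (w0 := w 0) (c := c) (C1 := (R : ℝ) - t 0)
        (a1 := (R : ℝ) - t 0 - mn 0 u) (q := qX R t mn u) (s := sX t ho (u, m, 0))
        (zz := Z z) (r := rS R t ho kp mn be g f (u, m, 0)) hq.1 hq.2.1 hr (hZ.trans hsz) hq.2.2 hw0
        W3 hW9
      rw [← hX] at h16
      have h17 : 0 ≤ L := by
        have h18 : Z z ≤ 1 := (hZ.trans hsz).trans hs0.2
        linarith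
      have h18 : 0 ≤ w 0 / c * ((R : ℝ) - t 0 - mn 0 u) := by
        refine mul_nonneg hw0 ?_
        have := H.mnc u huU 0 hn
        have h22 : (mn 0 u : ℝ) ≤ (R : ℝ) - t 0 := by exact_mod_cast this
        linarith
      refine max_le ?_ ?_ <;> linarith
    · -- two thin ends
      have hC : ¬ hubC ho vl kp g f u := fun h => hf0 h.2.2
      have h15 := hd m hm (by rw [h2]; norm_num) h9 hf0
      have h16 := cred_ge hc0 hw hkd hL (S := {m, f u}) (fun y hy => by
        rcases mem_insert.1 hy with h17 | h17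
        · rw [h17]; exact hmJ
        · rw [mem_singleton.1 h17]; exact hfJ)
      rw [sum_pair h10] at h16
      have hwm : 0 ≤ w m / c := div_nonneg (hw m hmJ) hc0.le
      have hwf : 0 ≤ w (f u) / c := div_nonneg (hw (f u) hfJ) hc0.le
      have h17 : w m / c * max 0 (c - mn m u - kd m)
          ≤ w m / c * ((crY R t vl kp mn z m (P m) u : ℝ) - kd m) :=
        mul_le_mul_of_nonneg_left (max_le (by linarith [hkd m hmJ]) (by linarith)) hwm
      have h18 : w (f u) / c * max 0 (c - mn (f u) u - kd (f u))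
          ≤ w (f u) / c * ((crY R t vl kp mn z (f u) (P (f u)) u : ℝ) - kd (f u)) :=
        mul_le_mul_of_nonneg_left (max_le (by linarith [hkd (f u) hfJ]) (by linarith)) hwf
      have hX : sHX Z cp R n t U ho vl kp mn be g f (u, m, 0)
          = 1 - sX t ho (u, m, 0) * (1 - rX R t ho kp mn be g f (u, m, 0)) := by
        unfold sHX
        rw [if_neg (show ¬ hubC ho vl kp g f ((u, m, 0) : ι × ℕ × ℕ).1 from hC), sub_zero]
        unfold sMX
        rw [if_neg (show ho ((u, m, 0) : ι × ℕ × ℕ).1 ≠ 0 from by rw [show ho ((u, m, 0) : ι × ℕ × ℕ).1 = z from hhz]; exact hz0), if_neg (show ((u, m, 0) : ι × ℕ × ℕ).2.1 ≠ 0 from hm0),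
          if_neg (show ¬ hubC ho vl kp g f ((u, m, 0) : ι × ℕ × ℕ).1 from hC), if_pos h1, if_pos h9]
      have h19 : 0 ≤ 1 - sX t ho (u, m, 0) * (1 - rX R t ho kp mn be g f (u, m, 0)) := by
        have h20 : sX t ho (u, m, 0) * (1 - rX R t ho kp mn be g f (u, m, 0)) ≤ 1 := by
          have h21 : 0 ≤ rX R t ho kp mn be g f (u, m, 0) := by
            unfold rX
            refine le_min zero_le_one (div_nonneg ?_ ?_)
            · rw [h7]
              have h22 : (0 : ℝ) ≤ be (ho u) (f u) := by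
                exact_mod_cast H.be0 (ho u) (H.hlt u huU) (f u) hfn
              show 0 ≤ (mn m u : ℝ) + be (ho u) (f u)
              linarith
            · have h22 := H.mnc u huU m hm
              have h23 := H.m0 u huU m hm
              have h24 : t m + 1 ≤ R := by
                have h25 := H.tsum
                have h26 : t m + 1 ≤ ∑ i ∈ range n, (t i + 1) :=
                  single_le_sum (f := fun i => t i + 1) (fun i hi => by
                    have := H.t0 i (mem_range.1 hi)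
                    linarith) (mem_range.2 hm)
                linarith
              have h27 : (t m : ℝ) + 1 ≤ R := by exact_mod_cast h24
              show 0 ≤ (R : ℝ) - ((t m : ℝ) + 1)
              linarith
          nlinarith [hs0.1, hs0.2, mul_nonneg hs0.1 h21]
        linarith
      rw [hX]
      refine max_le ?_ ?_ <;> linarith

/-- the unused items of value one of a thin host pay nothing -/
lemma LevC.srvX0 (C : LevC n U ho vl kp mn pc (phiX R t ho mn) g f)
    (H : PCon R n t s mu U ho vl kp mn pc ar be kq NN sg nu) (hz : z < n) (hz0 : z ≠ 0) {u : ι}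
    (hu : u ∈ U) (hg : g z u ≠ 0) (h1 : vl u = 1) (hh : ho u ≠ 0) {cp : ι × ℕ × ℕ → ℝ}
    (hzR : t z + 1 < R) (hus : ¬ usX R t ho kp mn be g f z u) :
    yIt g (fun v => max 0 (sMX cp R n t U ho vl kp mn be g f v)) z u = 0 := by
  obtain ⟨m, hm, h2, h3, h4, h5, h6, h7, h8⟩ := C.one_unit H hu h1
  have hmz : m = z := by
    by_contra hcon
    exact hg (h5 z hz (Ne.symm hcon))
  subst hmz
  unfold usX at hus
  push Not at hus
  obtain ⟨h9, h10⟩ := hus
  have hy : yIt g (fun v => max 0 (sMX cp R n t U ho vl kp mn be g f v)) m u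
      = max 0 (sMX cp R n t U ho vl kp mn be g f (u, m, 0)) := by
    unfold yIt
    rw [h2, sum_range_one]
  have hr : rX R t ho kp mn be g f (u, m, 0) = 1 := by
    unfold rX
    refine min_eq_left ?_
    rw [h7]
    have h11 : (0 : ℝ) < (R : ℝ) - ((t m : ℝ) + 1) := by
      have : (t m : ℝ) + 1 < R := by exact_mod_cast hzR
      linarith
    have h12 : ((R - (t m + 1) : ℤ) : ℝ) < ((mn m u + be (ho u) (f u) : ℤ) : ℝ) := by
      exact_mod_cast h10
    push_cast at h12
    show 1 ≤ ((mn m u : ℝ) + be (ho u) (f u)) / ((R : ℝ) - ((t m : ℝ) + 1))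
    rw [le_div_iff₀ h11]
    linarith
  have hr' : rS R t ho kp mn be g f (u, m, 0) = 1 :=
    le_antisymm (rS_le_one _) (hr.ge.trans (rX_le_rS _))
  rw [hy]
  refine max_eq_left ?_
  unfold sMX
  rw [if_neg (show ho ((u, m, 0) : ι × ℕ × ℕ).1 ≠ 0 from hh),
    if_neg (show ((u, m, 0) : ι × ℕ × ℕ).2.1 ≠ 0 from hz0), hr, hr']
  split_ifs
  · simp
  · simp

/-- **all served items of value one of the hub are used** -/
lemma LevC.hub_us (C : LevC n U ho vl kp mn pc (phiX R t ho mn) g f)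
    (H : PCon R n t s mu U ho vl kp mn pc ar be kq NN sg nu) (hR : R ≤ 2 * (t 0 + 1))
    (hR6 : 6 ≤ R) (hz : z < n) (hz0 : z ≠ 0) {u : ι} (hu : u ∈ U) (hg : g z u ≠ 0) (h1 : vl u = 1)
    (hh : ho u = 0) : usX R t ho kp mn be g f z u := by
  intro hcut
  obtain ⟨m, hm, h2, h3, h4, h5, h6, h7, h8⟩ := C.one_unit H hu h1
  have hmz : m = z := by
    by_contra hcon
    exact hg (h5 z hz (Ne.symm hcon))
  subst hmz
  have hfn := C.fn u hu
  have hf0 : f u ≠ 0 := by rw [← hh]; exact C.fh u hu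
  have hmf : m ≠ f u := C.main_cut H h6 ⟨h1, hcut⟩
  have hn : 0 < n := by have := H.n5; omega
  have h9 := (C.fewX H h6 hcut (Or.inl hh)).1
  have h10 : mn m u * mn (f u) u ≤ R + t m * t (f u) := H.mpr u hu m hm (f u) hfn hmf
  have h11 := H.be_low hR hR6 hm hfn hz0 hf0 hmf
  have h12 := H.be0 (f u) hfn 0 hn
  have h13 := H.mass3 hn hm hfn (Ne.symm hz0) (Ne.symm hf0) hmf
  have h14 := H.t0 m hm
  have h15 := H.t0 (f u) hfn
  have h16 := H.m0 u hu m hm
  have h17 : mn m u * mn m u ≤ mn m u * mn (f u) u := mul_le_mul_of_nonneg_left h9 h16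
  rw [hh]
  by_contra hcon
  push Not at hcon
  have h18 : R < 2 * mn m u := by linarith
  nlinarith [sq_nonneg (t m - t (f u)), mul_nonneg h14 h15]

/-- **THE ROW CLAIM OF THE TABLE X* FROM WEIGHTS**: `w y / c` on the columns, `τ` on a row test which keeps the PC pairs
hosted by `z` `κ` times, used items `K`; `r`, `rT` the remainders -/
theorem LevC.rowX_of_weights (C : LevC n U ho vl kp mn pc (phiX R t ho mn) g f)
    (H : PCon R n t s mu U ho vl kp mn pc ar be kq NN sg nu) (hR : R ≤ 2 * (t 0 + 1))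
    (hR6 : 6 ≤ R) (hz : z < n) (hz0 : z ≠ 0) {cp : ι × ℕ × ℕ → ℝ} {Z : ℕ → ℝ} {c τ κ L : ℝ}
    {w kd : ℕ → ℝ}
    (hc : c = (R : ℝ) - ((t z : ℝ) + 1))
    (hw : ∀ y ∈ (range n).erase z, 0 ≤ w y) (hτ : 0 ≤ τ) (hZ : Z z ≤ ((t z : ℝ) + 1) / c)
    {P : ℕ → Finset ι} {K : Finset ι} (hK : K ⊆ U.filter fun u => g z u ≠ 0) {r : ℕ → ℝ}
    (hcol : ∀ y ∈ (range n).erase z,
      2 * (c * ((be z y : ℝ) + ∑ u ∈ K.filter (fun u => ho u = y), (g z u : ℝ)))
        + 2 * ∑ u ∈ hsZ U ho pc z, (crY R t vl kp mn z y (P y) u : ℝ) + r y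
      ≤ 2 * ((t y : ℝ) * ((mu z : ℝ) - s z)) + 2 * ((R : ℝ) - t y)
        + 2 * ∑ u ∈ K.filter (fun u => ho u = y),
          ((msP kp mn z (g z) u : ℝ) + (rnB n kp be z y u : ℝ)))
    {rT : ℝ}
    (hT : 2 * (c * (∑ u ∈ hsZ U ho pc z, (vl u : ℝ) + κ * ∑ y ∈ (range n).erase z, (be z y : ℝ)
        + ∑ u ∈ K, (g z u : ℝ))) + rT
      ≤ 2 * ((R : ℝ) * ((mu z : ℝ) - s z)) + 2 * ∑ u ∈ K, (msP kp mn z (g z) u : ℝ))
    (hkd : ∀ y ∈ (range n).erase z, ∀ u ∈ hsZ U ho pc z, vl u = 1 →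
      kd y ≤ (crY R t vl kp mn z y (P y) u : ℝ))
    (hkp : ∀ y ∈ (range n).erase z, ∀ u ∈ hsZ U ho pc z, vl u = 1 → kp y u ≠ 0 →
      c - mn y u ≤ (crY R t vl kp mn z y (P y) u : ℝ))
    (hkd0 : kd 0 = (t 0 : ℝ) - ((t z : ℝ) + 1))
    (hL : L = τ * c + ∑ y ∈ (range n).erase z, w y / c * kd y)
    -- the weights
    (W1 : 1 ≤ w 0 + κ * (τ * c)) (W1' : 1 ≤ w 0 + τ * c)
    (W2 : ∀ y < n, y ≠ z → y ≠ 0 →
      ((t y : ℝ) + 1) / ((t z : ℝ) + 1 + ((t y : ℝ) + 1)) ≤ w y + κ * (τ * c))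
    (W2' : ∀ y < n, y ≠ z → y ≠ 0 →
      ((t y : ℝ) + 1) / ((t z : ℝ) + 1 + ((t y : ℝ) + 1)) ≤ w y + τ * c)
    (W3 : 1 ≤ L + w 0 / c * ((R : ℝ) - t 0))
    (W5 : ∀ y < n, y ≠ z → y ≠ 0 →
      ((t y : ℝ) + 1) / ((t z : ℝ) + 1 + ((t y : ℝ) + 1)) ≤ L + w y / c * (c - kd y))
    (W9 : (∃ u ∈ U, ho u = z ∧ hubC ho vl kp g f u) → 1 - Z z ≤ L)
    -- the half units with two thin ends
    (hd : ∀ u ∈ hsZ U ho pc z, vl u = 1 → ∀ m < n, g m u ≠ 0 → cutE kp g f u → f u ≠ 0 →
      1 - sX t ho (u, m, 0) * (1 - rX R t ho kp mn be g f (u, m, 0))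
        ≤ L + w m / c * max 0 (c - mn m u - kd m) + w (f u) / c * max 0 (c - mn (f u) u - kd (f u)))
    -- the cap
    (hcp : ∀ u ∈ U, g z u ≠ 0 → vl u = 1 → ho u = 0 → cutE kp g f u →
      cp (u, z, 0) < ((mn z u : ℝ) + be 0 (f u)) / c →
      (w 0 + τ * c) * mn z u + w 0 * be 0 (f u) ≤ c * (w 0 + τ * c - 1 + cp (u, z, 0)))
    -- the used items
    (hus : ∀ u ∈ U, g z u ≠ 0 → vl u = 1 → (u ∈ K ↔ usX R t ho kp mn be g f z u))
    -- the cliques
    (hBc : ∀ u ∈ hsZ U ho pc z, vl u ≠ 1 →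
      xIt n g (fun v => max 0 (sHX Z cp R n t U ho vl kp mn be g f v)) u
        ≤ ∑ y ∈ (range n).erase z, w y / c * (crY R t vl kp mn z y (P y) u : ℝ)
          + τ * (c * (vl u : ℝ)))
    (hSc : ∀ u ∈ U, g z u ≠ 0 → vl u ≠ 1 →
      yIt g (fun v => max 0 (sMX cp R n t U ho vl kp mn be g f v)) z u
        ≤ if u ∈ K then w (ho u) * (g z u : ℝ)
          - w (ho u) / c * ((msP kp mn z (g z) u : ℝ) + (rnB n kp be z (ho u) u : ℝ))
          + τ * (c * (g z u : ℝ) - (msP kp mn z (g z) u : ℝ)) else 0)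
    {F : Finset (ι × ℕ × ℕ)} (hF : F ⊆ unV n U g) :
    ∑ v ∈ F.filter (fun v => ho v.1 = z), sHX Z cp R n t U ho vl kp mn be g f v
        + ∑ v ∈ F.filter (fun v => v.2.1 = z), sMX cp R n t U ho vl kp mn be g f v
        + (1 / 2) * (∑ y ∈ (range n).erase z, w y / c * r y + τ * rT)
      ≤ (∑ y ∈ (range n).erase z, w y / c * (t y : ℝ) + τ * R) * ((mu z : ℝ) - s z)
        + ∑ y ∈ (range n).erase z, w y / c * ((R : ℝ) - t y) := by
  have hn : 0 < n := by have := H.n5; omega
  have hm2 : t 0 + 1 + (t z + 1) ≤ R := by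
    have h10 := H.tsum
    have h11 : ∑ i ∈ ({0, z} : Finset ℕ), (t i + 1) ≤ ∑ i ∈ range n, (t i + 1) :=
      sum_le_sum_of_subset_of_nonneg (fun i hi => by
        rcases mem_insert.1 hi with h4 | h4
        · rw [h4]
          exact mem_range.2 hn
        · rw [mem_singleton.1 h4]
          exact mem_range.2 hz) fun i hi _ => by
        have := H.t0 i (mem_range.1 hi)
        linarith
    rw [sum_pair (Ne.symm hz0)] at h11
    linarith
  have ht0 := H.t0 0 hn
  have htz := H.t0 z hz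
  have hc0 : 0 < c := by
    rw [hc]
    have h1 : (t 0 : ℝ) + 1 + ((t z : ℝ) + 1) ≤ R := by exact_mod_cast hm2
    have h2 : (0 : ℝ) ≤ t 0 := by exact_mod_cast ht0
    linarith
  have h0J : 0 ∈ (range n).erase z := mem_erase.2 ⟨Ne.symm hz0, mem_range.2 hn⟩
  have hhJ : ∀ u ∈ U, g z u ≠ 0 → ho u ∈ (range n).erase z := fun u hu hg =>
    mem_erase.2 ⟨fun h => hg (by rw [← h]; exact C.home u hu), mem_range.2 (H.hlt u hu)⟩
  have key := C.csShareA H hz (J := (range n).erase z) (Subset.refl _) (P := P) (w := w) hw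
    (fun y hy hy' => absurd hy hy') hc0 hτ (κ := κ)
    (α := fun y u => (rnB n kp be z y u : ℝ))
    (V := fun y => K.filter fun u => ho u = y) (fun y _ u hu => by
      obtain ⟨h1, h2⟩ := mem_filter.1 hu
      obtain ⟨h3, h4⟩ := mem_filter.1 (hK h1)
      exact mem_filter.2 ⟨h3, h2, h4⟩) (r := r) hcol (KT := K) hK (lv := g z) (rT := rT) hT
    (X := fun v => max 0 (sHX Z cp R n t U ho vl kp mn be g f v))
    (Y := fun v => max 0 (sMX cp R n t U ho vl kp mn be g f v))
    (fun v _ => le_max_left _ _) (fun v _ => le_max_left _ _) hF ?_ ?_ ?_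
  · refine le_trans (add_le_add (add_le_add ?_ ?_) le_rfl) key
    · exact sum_le_sum fun v _ => le_max_right _ _
    · exact sum_le_sum fun v _ => le_max_right _ _
  · -- PC pairs hosted by `z`
    intro v hv hvz hpc
    obtain ⟨h1, h2, h3⟩ := LevC.mem_unV hv
    have h4 := H.pcv v.1 h1 hpc
    have h5 : ¬ cutE kp g f v.1 := by
      rcases C.typ v.1 h1 with ⟨-, h6, h7, -, -⟩ | ⟨h6, -⟩
      · unfold cutE
        rw [h6, h7]
        norm_num
      · exact absurd h6 hpc
    have hC : ¬ hubC ho vl kp g f v.1 := fun h => h5 h.1.2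
    have hwv : 0 ≤ w v.2.1 := by
      refine hw _ (mem_erase.2 ⟨fun h => ?_, mem_range.2 h2⟩)
      exact C.main_ne hv (h.trans hvz.symm)
    show max 0 (sHX Z cp R n t U ho vl kp mn be g f v) ≤ w v.2.1 + κ * (τ * c)
    unfold sHX
    rw [if_neg hC, sub_zero]
    by_cases h0 : v.2.1 = 0
    · have h6 : sMX cp R n t U ho vl kp mn be g f v = 0 := by
        unfold sMX
        rw [if_neg (by rw [hvz]; exact hz0), if_pos h0]
      rw [h6, sub_zero, h0]
      exact max_le (by linarith) W1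
    · have h6 : sMX cp R n t U ho vl kp mn be g f v = sX t ho v := by
        unfold sMX
        rw [if_neg (by rw [hvz]; exact hz0), if_neg h0, if_neg hC, if_pos h4, if_neg h5]
      have hA : (0 : ℝ) < (t z : ℝ) + 1 := by
        have h9 : (0 : ℝ) ≤ t z := by exact_mod_cast htz
        linarith
      have hAm : (0 : ℝ) < (t v.2.1 : ℝ) + 1 := by
        have h9 : (0 : ℝ) ≤ t v.2.1 := by exact_mod_cast H.t0 _ h2
        linarith
      have h7 : 1 - sX t ho v = ((t v.2.1 : ℝ) + 1) / ((t z : ℝ) + 1 + ((t v.2.1 : ℝ) + 1)) := by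
        unfold sX
        rw [hvz]
        field_simp
        ring
      rw [h6, h7]
      have h8 := W2 v.2.1 h2 (fun h => C.main_ne hv (h.trans hvz.symm)) h0
      have h9 : 0 ≤ ((t v.2.1 : ℝ) + 1) / ((t z : ℝ) + 1 + ((t v.2.1 : ℝ) + 1)) := by positivity
      exact max_le (by linarith) h8
  · -- hosted items
    intro u hu
    by_cases h1 : vl u = 1
    · obtain ⟨huU, hhz, -⟩ := mem_filter.1 hu
      exact C.hstX H hR hz hz0 hu h1 hc hc0 hw hZ (fun y hy => hkd y hy u hu h1)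
        (fun y hy => hkp y hy u hu h1) hkd0 hL W3 W5 (fun ⟨m, hm, h2, h3⟩ => W9 ⟨u, huU, hhz, h2⟩)
        (hd u hu h1)
    · exact hBc u hu h1
  · -- served items
    intro u hu hg
    have hJ := hhJ u hu hg
    by_cases h1 : vl u = 1
    · by_cases h2 : usX R t ho kp mn be g f z u
      · have h3 := (hus u hu hg h1).2 h2
        rw [if_pos ⟨hJ, mem_filter.2 ⟨h3, rfl⟩⟩, if_pos h3]
        refine C.srvX H hz hz0 hu hg h1 hc hc0 (hw _ hJ) hτ ?_ ?_ ?_ h2
        · intro h4
          rw [h4]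
          exact W1'
        · intro h4
          have h5 := W2' (ho u) (H.hlt u hu) (ne_of_mem_erase hJ) h4
          have h6 := hw _ hJ
          have hA : (0 : ℝ) < (t z : ℝ) + 1 := by
            have h9 : (0 : ℝ) ≤ t z := by exact_mod_cast htz
            linarith
          rw [add_comm ((t (ho u) : ℝ) + 1) ((t z : ℝ) + 1)]
          exact h5
        · intro h4 h5 h6
          have h7 := hcp u hu hg h1 h4 h5 h6
          rw [h4]
          exact h7
      · have h3 : u ∉ K := fun h => h2 ((hus u hu hg h1).1 h)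
        have h4 : ho u ≠ 0 := fun h => h2 (C.hub_us H hR hR6 hz hz0 hu hg h1 h)
        rw [if_neg (fun h => h3 (mem_filter.1 h.2).1), if_neg h3, mul_zero, add_zero]
        exact (C.srvX0 H hz hz0 hu hg h1 h4 (by linarith) h2).le
    · have h2 := hSc u hu hg h1
      by_cases h3 : u ∈ K
      · rw [if_pos h3] at h2
        rw [if_pos ⟨hJ, mem_filter.2 ⟨h3, rfl⟩⟩, if_pos h3]
        exact h2
      · rw [if_neg h3] at h2
        rw [if_neg (fun h => h3 (mem_filter.1 h.2).1), if_neg h3, mul_zero, add_zero]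
        exact h2

end RowXW

end Pool.Agent.Lib.MP_f04ccf_co
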