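import Pool.Agent.Lib.MP_f04ccf_co.M.AsmH
import Pool.Agent.Lib.MP_f04ccf_co.M.RowXW

/-!
MP_f04ccf_co, TEXT D, regime H: **the letters of the table X* fixed, the final budgets, the final reduction.**

* `gaX = C / R`, `C = R - A 0`; `rB` = the misses and the arcs at all other ends of a unit over `R - A m`; `rkB` = the
  number of the ends after the unit; `kapR` = the caps `4/5, 5/8, 11/20, 1/2, 1/2, 1/2, 9/20 ..` by rank;
* **`prB`: the price (hub) of a unit of a hub-hosted item with a cut end** (19427, C2*), `γ = gaX`: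
  value one: `(9/10) γ` if `4 mn f ≤ R - t f` (`prB_flat`), else `max (γ/2) (min ((9/10) γ) r)` (`prB_blind`);
  value `≠ 1`: the last piece of an end `max ((3/10) γ) (min (kapR k (1 + γ/4) γ) r)` (`prB_last`), the other pieces
  `(3/10) γ` (`prB_first`); bounds `prB_one_ge`, `prB_one_le`, `prB_cl_ge`, `prB_cl_le`, `prB_nonneg`, `prB_le`;
* `zeX x = max 0 (A x - m x - k x) / (R - A x)`, `m x` = the hub-hosted plain items with a unit at `x` (`mX`), `k x` = the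
  items `hubC` of the host `x` (`kX`): the price factor of the hub for a unit `hubC` (`zeX_le`: at most `A x / (R - A x)`);
* `budF`: the budget `0` of the hub row, `A z / (C + 1 / 2)` of the row `z ≠ 0` (`sum_budF`: sum less than one);
* `HubF`, `RowF`: the two claims with these letters; `pureH_F`: regime H from the two claims.
-/

set_option autoImplicit false

namespace Pool.Agent.Lib.MP_f04ccf_co

open Finset

attribute [local instance] Classical.propDecidable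

/-- `C / R` -/
noncomputable def gaX (R : ℤ) (t : ℕ → ℤ) : ℝ := ((R : ℝ) - (t 0 + 1)) / R

/-- misses and arcs at all other ends of a unit of a hub-hosted item over `R - A m` -/
noncomputable def rB {ι : Type*} (R : ℤ) (n : ℕ) (t : ℕ → ℤ) (kp mn : ℕ → ι → ℤ) (be : ℕ → ℕ → ℤ)
    (g : ℕ → ι → ℕ) (v : ι × ℕ × ℕ) : ℝ :=
  ((unb kp mn g v : ℝ) + rnB n kp be v.2.1 0 v.1) / ((R : ℝ) - (t v.2.1 + 1))

/-- the rank of a unit: the number of the other ends which come after it in the order -/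
noncomputable def rkB {ι : Type*} (R : ℤ) (n : ℕ) (t : ℕ → ℤ) (ho : ι → ℕ) (kp mn : ℕ → ι → ℤ)
    (v : ι × ℕ × ℕ) : ℕ :=
  ((range n).filter fun j => j ≠ v.2.1 ∧ kp j v.1 ≠ 0
    ∧ phiX R t ho mn v.1 v.2.1 ≤ phiX R t ho mn v.1 j).card

/-- the caps by rank -/
noncomputable def kapR (k : ℕ) : ℝ :=
  if k ≤ 1 then 4 / 5 else if k = 2 then 5 / 8 else if k = 3 then 11 / 20 else if k ≤ 6 then 1 / 2 else 9 / 20

/-- **the price of a unit of a hub-hosted item with a cut end** -/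
noncomputable def prB {ι : Type*} (R : ℤ) (n : ℕ) (t : ℕ → ℤ) (ho : ι → ℕ) (vl : ι → ℤ) (kp mn : ℕ → ι → ℤ)
    (be : ℕ → ℕ → ℤ) (g : ℕ → ι → ℕ) (f : ι → ℕ) (v : ι × ℕ × ℕ) : ℝ :=
  if vl v.1 = 1 then
    (if 4 * mn (f v.1) v.1 ≤ R - t (f v.1) then 9 / 10 * gaX R t
    else max (1 / 2 * gaX R t) (min (9 / 10 * gaX R t) (rB R n t kp mn be g v)))
  else if kp v.2.1 v.1 ≤ (g v.2.1 v.1 : ℤ) ∧ v.2.2 + 1 = g v.2.1 v.1 then
    max (3 / 10 * gaX R t)
      (min (kapR (rkB R n t ho kp mn v) * (1 + gaX R t / 4) * gaX R t) (rB R n t kp mn be g v))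
  else 3 / 10 * gaX R t

/-- the number of the hub-hosted plain items with a unit (main end) at `x` -/
noncomputable def mX {ι : Type*} (U : Finset ι) (ho : ι → ℕ) (pc : ι → ℤ) (g : ℕ → ι → ℕ) (x : ℕ) : ℤ :=
  ((U.filter fun u => ho u = 0 ∧ pc u = 0 ∧ g x u ≠ 0).card : ℤ)

/-- the number of the items `hubC` of the host `x` -/
noncomputable def kX {ι : Type*} (U : Finset ι) (ho : ι → ℕ) (vl : ι → ℤ) (kp : ℕ → ι → ℤ)
    (g : ℕ → ι → ℕ) (f : ι → ℕ) (x : ℕ) : ℤ :=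
  ((U.filter fun u => ho u = x ∧ hubC ho vl kp g f u).card : ℤ)

/-- the price factor of the hub for a unit `hubC` of the host `x` -/
noncomputable def zeX {ι : Type*} (R : ℤ) (t : ℕ → ℤ) (U : Finset ι) (ho : ι → ℕ) (vl : ι → ℤ) (kp : ℕ → ι → ℤ)
    (pc : ι → ℤ) (g : ℕ → ι → ℕ) (f : ι → ℕ) (x : ℕ) : ℝ :=
  max 0 ((t x : ℝ) + 1 - mX U ho pc g x - kX U ho vl kp g f x) / ((R : ℝ) - ((t x : ℝ) + 1))

/-- the final budgets of regime H -/
noncomputable def budF (R : ℤ) (t : ℕ → ℤ) (z : ℕ) : ℝ :=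
  if z = 0 then 0 else ((t z : ℝ) + 1) / ((R : ℝ) - (t 0 + 1) + 1 / 2)

section TabX

variable {ι : Type*} {R : ℤ} {n : ℕ} {t s mu : ℕ → ℤ} {U : Finset ι} {ho : ι → ℕ} {vl : ι → ℤ}
  {kp mn : ℕ → ι → ℤ} {pc ar : ι → ℤ} {be kq NN sg : ℕ → ℕ → ℤ} {nu : ℕ → ι → ℤ}
  {g : ℕ → ι → ℕ} {f : ι → ℕ}

lemma gaX_nonneg (h0 : (0 : ℝ) ≤ (R : ℝ) - (t 0 + 1)) (hR : 0 < R) : 0 ≤ gaX R t := by
  have hR' : (0 : ℝ) < R := by exact_mod_cast hR
  exact div_nonneg h0 hR'.le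

lemma kapR_ge (k : ℕ) : 9 / 20 ≤ kapR k := by
  unfold kapR
  split_ifs <;> norm_num

lemma kapR_le (k : ℕ) : kapR k ≤ 4 / 5 := by
  unfold kapR
  split_ifs <;> norm_num

lemma kapR_anti {k l : ℕ} (h : k ≤ l) : kapR l ≤ kapR k := by
  unfold kapR
  split_ifs <;> first | omega | norm_num

lemma prB_flat {v : ι × ℕ × ℕ} (h1 : vl v.1 = 1) (h2 : 4 * mn (f v.1) v.1 ≤ R - t (f v.1)) :
    prB R n t ho vl kp mn be g f v = 9 / 10 * gaX R t := by
  unfold prB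
  rw [if_pos h1, if_pos h2]

lemma prB_blind {v : ι × ℕ × ℕ} (h1 : vl v.1 = 1) (h2 : ¬ 4 * mn (f v.1) v.1 ≤ R - t (f v.1)) :
    prB R n t ho vl kp mn be g f v
      = max (1 / 2 * gaX R t) (min (9 / 10 * gaX R t) (rB R n t kp mn be g v)) := by
  unfold prB
  rw [if_pos h1, if_neg h2]

/-- value one: the lower bound -/
lemma prB_one_ge (h0 : 0 ≤ gaX R t) {v : ι × ℕ × ℕ} (h1 : vl v.1 = 1) :
    max (1 / 2 * gaX R t) (min (9 / 10 * gaX R t) (rB R n t kp mn be g v))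
      ≤ prB R n t ho vl kp mn be g f v := by
  unfold prB
  rw [if_pos h1]
  split_ifs
  · exact max_le (by linarith) (min_le_left _ _)
  · exact le_rfl

/-- value one: the upper bound -/
lemma prB_one_le (h0 : 0 ≤ gaX R t) {v : ι × ℕ × ℕ} (h1 : vl v.1 = 1) :
    prB R n t ho vl kp mn be g f v ≤ 9 / 10 * gaX R t := by
  unfold prB
  rw [if_pos h1]
  split_ifs
  · exact le_rfl
  · exact max_le (by linarith) (min_le_left _ _)

lemma prB_last {v : ι × ℕ × ℕ} (h1 : vl v.1 ≠ 1)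
    (h2 : kp v.2.1 v.1 ≤ (g v.2.1 v.1 : ℤ) ∧ v.2.2 + 1 = g v.2.1 v.1) :
    prB R n t ho vl kp mn be g f v
      = max (3 / 10 * gaX R t)
        (min (kapR (rkB R n t ho kp mn v) * (1 + gaX R t / 4) * gaX R t) (rB R n t kp mn be g v)) := by
  unfold prB
  rw [if_neg h1, if_pos h2]

lemma prB_first {v : ι × ℕ × ℕ} (h1 : vl v.1 ≠ 1)
    (h2 : ¬ (kp v.2.1 v.1 ≤ (g v.2.1 v.1 : ℤ) ∧ v.2.2 + 1 = g v.2.1 v.1)) :
    prB R n t ho vl kp mn be g f v = 3 / 10 * gaX R t := by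
  unfold prB
  rw [if_neg h1, if_neg h2]

/-- every price is at least `(3 / 10) C / R` -/
lemma prB_ge (h0 : 0 ≤ gaX R t) (v : ι × ℕ × ℕ) : 3 / 10 * gaX R t ≤ prB R n t ho vl kp mn be g f v := by
  unfold prB
  split_ifs
  · linarith
  · exact le_trans (by linarith) (le_max_left _ _)
  · exact le_max_left _ _
  · exact le_rfl

/-- cliques: the last piece of an end, the lower bound -/
lemma prB_cl_ge {v : ι × ℕ × ℕ} (h1 : vl v.1 ≠ 1)
    (h2 : kp v.2.1 v.1 ≤ (g v.2.1 v.1 : ℤ) ∧ v.2.2 + 1 = g v.2.1 v.1) :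
    min (kapR (rkB R n t ho kp mn v) * (1 + gaX R t / 4) * gaX R t) (rB R n t kp mn be g v)
      ≤ prB R n t ho vl kp mn be g f v := by
  rw [prB_last h1 h2]
  exact le_max_right _ _

/-- cliques: the last piece of an end, the upper bound -/
lemma prB_cl_le (h0 : 0 ≤ gaX R t) {v : ι × ℕ × ℕ} (h1 : vl v.1 ≠ 1) :
    prB R n t ho vl kp mn be g f v ≤ kapR (rkB R n t ho kp mn v) * (1 + gaX R t / 4) * gaX R t := by
  have h2 : 3 / 10 * gaX R t ≤ kapR (rkB R n t ho kp mn v) * (1 + gaX R t / 4) * gaX R t := by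
    refine mul_le_mul_of_nonneg_right ?_ h0
    have h3 := kapR_ge (rkB R n t ho kp mn v)
    nlinarith
  unfold prB
  rw [if_neg h1]
  split_ifs
  · exact max_le h2 (min_le_left _ _)
  · exact h2

lemma prB_nonneg (h0 : 0 ≤ gaX R t) (v : ι × ℕ × ℕ) : 0 ≤ prB R n t ho vl kp mn be g f v :=
  le_trans (by linarith) (prB_ge h0 v)

/-- all prices are at most one half if `C ≤ R / 2` -/
lemma prB_le (h0 : 0 ≤ gaX R t) (h2 : gaX R t ≤ 1 / 2) (v : ι × ℕ × ℕ) :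
    prB R n t ho vl kp mn be g f v ≤ 9 / 10 * gaX R t := by
  by_cases h1 : vl v.1 = 1
  · exact prB_one_le h0 h1
  · refine (prB_cl_le h0 h1).trans (mul_le_mul_of_nonneg_right ?_ h0)
    have h3 := kapR_le (rkB R n t ho kp mn v)
    nlinarith

lemma mX_nonneg (x : ℕ) : 0 ≤ mX U ho pc g x := by
  unfold mX
  positivity

lemma kX_nonneg (x : ℕ) : 0 ≤ kX U ho vl kp g f x := by
  unfold kX
  positivity

/-- the price factor is nonnegative and at most `A x / (R - A x)` -/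
lemma zeX_le {x : ℕ} (h0 : 0 ≤ t x) (h1 : t x + 1 < R) :
    0 ≤ zeX R t U ho vl kp pc g f x
      ∧ zeX R t U ho vl kp pc g f x ≤ ((t x : ℝ) + 1) / ((R : ℝ) - ((t x : ℝ) + 1)) := by
  have h2 : (t x : ℝ) + 1 < R := by exact_mod_cast h1
  have h3 : (0 : ℝ) ≤ t x := by exact_mod_cast h0
  have h4 : (0 : ℝ) ≤ mX U ho pc g x := by exact_mod_cast mX_nonneg x
  have h5 : (0 : ℝ) ≤ kX U ho vl kp g f x := by exact_mod_cast kX_nonneg x
  unfold zeX
  constructor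
  · exact div_nonneg (le_max_left _ _) (by linarith)
  · exact div_le_div_of_nonneg_right (max_le (by linarith) (by linarith)) (by linarith)

/-- the sum of the final budgets is less than one -/
lemma sum_budF (H : PCon R n t s mu U ho vl kp mn pc ar be kq NN sg nu) :
    (∀ z < n, 0 ≤ budF R t z) ∧ ∑ z ∈ range n, budF R t z < 1 := by
  have hn : 0 < n := by have := H.n5; omega
  have h3 : ∑ i ∈ (range n).erase 0, ((t i : ℝ) + 1) ≤ R - (t 0 + 1) := by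
    have h4 := H.tsum
    rw [← add_sum_erase (range n) _ (mem_range.2 hn)] at h4
    have h5 : ∑ i ∈ (range n).erase 0, (t i + 1) ≤ R - (t 0 + 1) := by linarith
    exact_mod_cast h5
  have h4 : 0 ≤ ∑ i ∈ (range n).erase 0, ((t i : ℝ) + 1) := by
    refine sum_nonneg fun i hi => ?_
    have h2 : (0 : ℝ) ≤ t i := by exact_mod_cast H.t0 i (mem_range.1 (mem_of_mem_erase hi))
    linarith
  have h5 : (0 : ℝ) < (R : ℝ) - (t 0 + 1) + 1 / 2 := by linarith
  constructor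
  · intro z hz
    have h2 : (0 : ℝ) ≤ t z := by exact_mod_cast H.t0 z hz
    unfold budF
    split_ifs
    · exact le_rfl
    · positivity
  · rw [← add_sum_erase (range n) _ (mem_range.2 hn)]
    have h6 : ∑ i ∈ (range n).erase 0, budF R t i
        = (∑ i ∈ (range n).erase 0, ((t i : ℝ) + 1)) / ((R : ℝ) - (t 0 + 1) + 1 / 2) := by
      rw [sum_div]
      refine sum_congr rfl fun i hi => ?_
      unfold budF
      rw [if_neg (ne_of_mem_erase hi)]
    have h7 : budF R t 0 = 0 := if_pos rfl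
    rw [h6, h7, zero_add, div_lt_one h5]
    linarith

/-- **the claim of the hub row, final form** -/
def HubF (R : ℤ) (n : ℕ) (t s mu : ℕ → ℤ) (U : Finset ι)
    (ho : ι → ℕ) (vl : ι → ℤ) (kp mn : ℕ → ι → ℤ) (pc : ι → ℤ) (be : ℕ → ℕ → ℤ) (g : ℕ → ι → ℕ)
    (f : ι → ℕ) : Prop :=
  HubCl (zeX R t U ho vl kp pc g f) (prB R n t ho vl kp mn be g f) 0 R n t s mu U ho vl kp mn be g f

/-- **the claim of the row `z ≠ 0`, final form** -/
def RowF (z : ℕ) (R : ℤ) (n : ℕ) (t s mu : ℕ → ℤ) (U : Finset ι)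
    (ho : ι → ℕ) (vl : ι → ℤ) (kp mn : ℕ → ι → ℤ) (pc : ι → ℤ) (be : ℕ → ℕ → ℤ) (g : ℕ → ι → ℕ)
    (f : ι → ℕ) : Prop :=
  RowCl (zeX R t U ho vl kp pc g f) (prB R n t ho vl kp mn be g f) z (((t z : ℝ) + 1) / ((R : ℝ) - (t 0 + 1) + 1 / 2))
    R n t s mu U ho vl kp mn be g f

end TabX

/-- **regime H from the two claims in final form** -/
theorem pureH_F {R : ℤ}
    (hub : ∀ (ι : Type) (n : ℕ) (t s mu : ℕ → ℤ) (U : Finset ι) (ho : ι → ℕ) (vl : ι → ℤ)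
      (kp mn : ℕ → ι → ℤ) (pc ar : ι → ℤ) (be kq NN sg : ℕ → ℕ → ℤ) (nu : ℕ → ι → ℤ)
      (g : ℕ → ι → ℕ) (f : ι → ℕ),
      PConC R n t s mu U ho vl kp mn pc ar be kq NN sg nu → R < 2 * (t 0 + 1) →
      LevC n U ho vl kp mn pc (phiX R t ho mn) g f →
      HubF R n t s mu U ho vl kp mn pc be g f)
    (row : ∀ (ι : Type) (n : ℕ) (t s mu : ℕ → ℤ) (U : Finset ι) (ho : ι → ℕ) (vl : ι → ℤ)
      (kp mn : ℕ → ι → ℤ) (pc ar : ι → ℤ) (be kq NN sg : ℕ → ℕ → ℤ) (nu : ℕ → ι → ℤ)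
      (g : ℕ → ι → ℕ) (f : ι → ℕ),
      PConC R n t s mu U ho vl kp mn pc ar be kq NN sg nu → R < 2 * (t 0 + 1) →
      LevC n U ho vl kp mn pc (phiX R t ho mn) g f → ∀ z < n, z ≠ 0 →
      RowF z R n t s mu U ho vl kp mn pc be g f)
    (ι : Type) (n : ℕ) (t s mu : ℕ → ℤ) (U : Finset ι) (ho : ι → ℕ) (vl : ι → ℤ)
    (kp mn : ℕ → ι → ℤ) (pc ar : ι → ℤ) (be kq NN sg : ℕ → ℕ → ℤ) (nu : ℕ → ι → ℤ)
    (H : PConC R n t s mu U ho vl kp mn pc ar be kq NN sg nu) (h0 : R < 2 * (t 0 + 1)) :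
    False := by
  refine pureH_of_rows (fun ι n t s mu U ho vl kp mn pc ar be kq NN sg nu g f H h0 Lv =>
    ⟨zeX R t U ho vl kp pc g f, prB R n t ho vl kp mn be g f, budF R t, (sum_budF H.toPCon).1, (sum_budF H.toPCon).2, ?_, ?_⟩)
    ι n t s mu U ho vl kp mn pc ar be kq NN sg nu H h0
  · have h1 := hub ι n t s mu U ho vl kp mn pc ar be kq NN sg nu g f H h0 Lv
    have h2 : budF R t 0 = 0 := if_pos rfl
    rw [h2]
    exact h1
  · intro z hz hz0
    have h1 := row ι n t s mu U ho vl kp mn pc ar be kq NN sg nu g f H h0 Lv z hz hz0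
    have h2 : budF R t z = ((t z : ℝ) + 1) / ((R : ℝ) - (t 0 + 1) + 1 / 2) := if_neg hz0
    rw [h2]
    exact h1

end Pool.Agent.Lib.MP_f04ccf_co
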