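import Pool.Agent.Lib.MP_f04ccf_co.M.AsmL
import Pool.Agent.Lib.MP_f04ccf_co.M.TabX

/-!
MP_f04ccf_co, TEXT D: **the assembly of the two regimes.**

* `HubCH R`, `RowCH R`: the two claims of regime H (hub row, rows `z ≠ 0`) for all data, as propositions; `RowCL R`
  (`M/AsmL.lean`) is the claim of regime L;
* `pureNoC_of_claims`: `PureNoC R` from the three claims, `65 ≤ R`;
* `good_of_claims`: the statement at `r` from the three claims over `r - 1`; `large_of_claims`: the statement for all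
  `r > N`;
* `final_of_claims`: the frozen statement: finite part, middle range, the three claims from `N ≤ R + 1` on.
-/

set_option autoImplicit false

namespace Pool.Agent.Lib.MP_f04ccf_co

open Finset

attribute [local instance] Classical.propDecidable

/-- **THE CLAIM OF THE HUB ROW, REGIME H** -/
def HubCH (R : ℤ) : Prop :=
  ∀ (ι : Type) (n : ℕ) (t s mu : ℕ → ℤ) (U : Finset ι) (ho : ι → ℕ) (vl : ι → ℤ)
    (kp mn : ℕ → ι → ℤ) (pc ar : ι → ℤ) (be kq NN sg : ℕ → ℕ → ℤ) (nu : ℕ → ι → ℤ)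
    (g : ℕ → ι → ℕ) (f : ι → ℕ),
    PConC R n t s mu U ho vl kp mn pc ar be kq NN sg nu → R < 2 * (t 0 + 1) →
    LevC n U ho vl kp mn pc (phiX R t ho mn) g f →
    HubF R n t s mu U ho vl kp mn pc be g f

/-- **THE CLAIM OF THE ROWS `z ≠ 0`, REGIME H** -/
def RowCH (R : ℤ) : Prop :=
  ∀ (ι : Type) (n : ℕ) (t s mu : ℕ → ℤ) (U : Finset ι) (ho : ι → ℕ) (vl : ι → ℤ)
    (kp mn : ℕ → ι → ℤ) (pc ar : ι → ℤ) (be kq NN sg : ℕ → ℕ → ℤ) (nu : ℕ → ι → ℤ)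
    (g : ℕ → ι → ℕ) (f : ι → ℕ),
    PConC R n t s mu U ho vl kp mn pc ar be kq NN sg nu → R < 2 * (t 0 + 1) →
    LevC n U ho vl kp mn pc (phiX R t ho mn) g f → ∀ z < n, z ≠ 0 →
    RowF z R n t s mu U ho vl kp mn pc be g f

/-- **`PureNoC R` from the three claims** -/
theorem pureNoC_of_claims {R : ℤ} (hR : 65 ≤ R) (hL : RowCL R) (hub : HubCH R) (row : RowCH R) :
    PureNoC R :=
  pureNoC_of_LH (pureL_of_row hR hL) (pureH_F hub row)

/-- **the statement at `r` from the three claims over `r - 1`** -/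
theorem good_of_claims {r : ℕ} (hr : 66 ≤ r) (hL : RowCL ((r : ℤ) - 1)) (hub : HubCH ((r : ℤ) - 1))
    (row : RowCH ((r : ℤ) - 1)) : Good r (r ^ 2 + 1) :=
  good_of_pureC r (by omega) (pureNoC_of_claims (by omega) hL hub row)

/-- **all `r > N`** -/
theorem large_of_claims (N : ℕ) (hN : 65 ≤ N) (hL : ∀ R : ℤ, (N : ℤ) ≤ R → RowCL R)
    (hub : ∀ R : ℤ, (N : ℤ) ≤ R → HubCH R) (row : ∀ R : ℤ, (N : ℤ) ≤ R → RowCH R)
    (r : ℕ) (hr : N < r) (c : Fin (r ^ 2 + 1) → Fin (r ^ 2 + 1) → Fin r)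
    (hc : ∀ x y, c x y = c y x) :
    ∃ S : Finset (Fin (r ^ 2 + 1)), S.card = r + 1 ∧
      ∃ k : Fin r, ∀ x ∈ S, ∀ y ∈ S, x ≠ y → c x y ≠ k := by
  have h1 : (N : ℤ) ≤ (r : ℤ) - 1 := by omega
  exact good_of_claims (by omega) (hL _ h1) (hub _ h1) (row _ h1) c hc

/-- **the frozen statement**: `10 ≤ r < M` one by one, `M ≤ R + 1 < N` (the items or the contract), the three claims
from `N ≤ R + 1` on -/
theorem final_of_claims (M N : ℕ) (hM : 10 ≤ M) (hN : 66 ≤ N)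
    (h1 : ∀ r : ℕ, 10 ≤ r → r < M → Good r (r ^ 2 + 1))
    (h2 : ∀ R : ℤ, (M : ℤ) ≤ R + 1 → R + 1 < (N : ℤ) → NoItU R ∨ PureNoC R)
    (hL : ∀ R : ℤ, (N : ℤ) ≤ R + 1 → RowCL R) (hub : ∀ R : ℤ, (N : ℤ) ≤ R + 1 → HubCH R)
    (row : ∀ R : ℤ, (N : ℤ) ≤ R + 1 → RowCH R) :
    ∀ r : ℕ, 3 ≤ r → ∀ c : Fin (r ^ 2 + 1) → Fin (r ^ 2 + 1) → Fin r,
      (∀ x y, c x y = c y x) →
      ∃ S : Finset (Fin (r ^ 2 + 1)), S.card = r + 1 ∧
        ∃ k : Fin r, ∀ x ∈ S, ∀ y ∈ S, x ≠ y → c x y ≠ k :=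
  final_of_partsC M N hM h1 h2 fun R hR =>
    pureNoC_of_claims (by omega) (hL R hR) (hub R hR) (row R hR)

end Pool.Agent.Lib.MP_f04ccf_co
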