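import Pool.Agent.Lib.MP_f04ccf_co.M.PCon

/-!
MP_f04ccf_co, TEXT D, **THE CONTRACT FOR CONCENTRATED PACKINGS** (v5; 15's `sqf`, note 18279).

`PConC` extends `PCon` (all theorems over `PCon` may be used) by the same tests with larger savings: between two
plain items of one host there are at least `min (vl u) (vl u') + 1` edges.

* `SvC2`, `capC`, `capMC`: K2 of a cell, the pairs of one host counted twice;
* `SvT2`: used items of one host with their whole value: 23's saving, plus 23's saving on the plain ones;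
* `minP`, `NP2`: the hosted gain, `min (vl u) (vl u')` for two kept plain items (ordered pairs);
* `PConC.tTc`, `PConC.tPc`, `PConC.tXc`: the row tests (`tXc` with the rectangle `RcW` of any item, 71's
  `payS_item_mn`); `PConC.tT2`, `PConC.tP2`, `PConC.tX2`: with the saving written out; `minP_ge`: the gain is at
  least `m (m - 1)`, `m` kept plain items;
* `PureNoC`, `PureNo.c`.
-/

set_option autoImplicit false

namespace Pool.Agent.Lib.MP_f04ccf_co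

open Finset

attribute [local instance] Classical.propDecidable

section PConCS

variable {ι : Type*}

/-- **a saving of a row test, concentrated packing**: 23's saving, counted twice on the plain items (two edges
between two plain items of one host), or `SvT` -/
def SvT2 (n : ℕ) (ho : ι → ℕ) (vl : ι → ℤ) (kp : ℕ → ι → ℤ) (pc : ι → ℤ) (g : ι → ℕ) (K : Finset ι)
    (sv : ℤ) : Prop :=
  sv ≤ svP n ho vl K g + svP n ho vl (K.filter fun u => pc u = 0) g ∨ SvT n ho vl kp g K sv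

/-- the kept plain hosted items of `z` -/
noncomputable def kpPl (U : Finset ι) (ho : ι → ℕ) (pc : ι → ℤ) (z : ℕ) (D : Finset ι) : Finset ι :=
  U.filter fun u => ho u = z ∧ u ∉ D ∧ pc u = 0

/-- **the gain of a concentrated packing**: ordered pairs of kept plain hosted items -/
noncomputable def minP (U : Finset ι) (ho : ι → ℕ) (vl : ι → ℤ) (pc : ι → ℤ) (z : ℕ)
    (D : Finset ι) : ℤ :=
  ∑ e ∈ (kpPl U ho pc z D).offDiag, min (vl e.1) (vl e.2)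

/-- the gain is at least `m (m - 1)`, `m` kept plain hosted items -/
lemma minP_ge {U : Finset ι} {ho : ι → ℕ} {vl pc : ι → ℤ} {z : ℕ} {D : Finset ι}
    (h1 : ∀ u ∈ U, 1 ≤ vl u) :
    ((kpPl U ho pc z D).card : ℤ) * ((kpPl U ho pc z D).card - 1) ≤ minP U ho vl pc z D := by
  have h2 : ((kpPl U ho pc z D).card : ℤ) * ((kpPl U ho pc z D).card - 1)
      = ((kpPl U ho pc z D).offDiag.card : ℤ) := by
    rw [offDiag_card]
    have h3 : (kpPl U ho pc z D).card ≤ (kpPl U ho pc z D).card * (kpPl U ho pc z D).card := by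
      rcases Nat.eq_zero_or_pos (kpPl U ho pc z D).card with h5 | h5
      · rw [h5]
      · exact Nat.le_mul_of_pos_left _ h5
    rw [Nat.cast_sub h3]
    push_cast
    ring
  rw [h2, card_eq_sum_ones, Nat.cast_sum]
  unfold minP
  refine sum_le_sum fun e he => ?_
  obtain ⟨h3, h4, -⟩ := mem_offDiag.1 he
  rw [Nat.cast_one]
  exact le_min (h1 _ (mem_filter.1 h3).1) (h1 _ (mem_filter.1 h4).1)

lemma minP_nonneg {U : Finset ι} {ho : ι → ℕ} {vl pc : ι → ℤ} {z : ℕ} {D : Finset ι}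
    (h1 : ∀ u ∈ U, 1 ≤ vl u) : 0 ≤ minP U ho vl pc z D := by
  unfold minP
  refine sum_nonneg fun e he => ?_
  obtain ⟨h3, h4, -⟩ := mem_offDiag.1 he
  have h5 := h1 _ (mem_filter.1 h3).1
  have h6 := h1 _ (mem_filter.1 h4).1
  exact le_min (by linarith) (by linarith)

/-- **the excess of a row test, concentrated packing**: as `NP`, the hosted gain is `minP` -/
noncomputable def NP2 (n : ℕ) (U : Finset ι) (ho : ι → ℕ) (vl : ι → ℤ) (kp : ℕ → ι → ℤ) (pc : ι → ℤ)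
    (be kq NN sg : ℕ → ℕ → ℤ) (z : ℕ) (S X Y : Finset ℕ) (D : Finset ι) : ℤ :=
  ∑ l ∈ X \ Y, (be z l - kq z l) * (be z l - kq z l + 1) + ∑ l ∈ S \ X, NN z l
    + 2 * ∑ l ∈ Y, (be z l - kq z l) * (sg z l
      + ((U.filter fun u => ho u = z ∧ u ∉ D ∧ pc u = 0 ∧ kp l u ≠ 0).card : ℤ))
    - minP U ho vl pc z D

/-- savings in the cell tests, concentrated packings: the third alternative of `SvC` is doubled -/
def SvC2 (n : ℕ) (vl : ι → ℤ) (kp : ℕ → ι → ℤ) (pc : ι → ℤ) (i j : ℕ) (g g' : ι → ℕ)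
    (K K' : Finset ι) (sv : ℤ) : Prop :=
  sv ≤ 0
  ∨ (∃ I ⊆ range n, i ∈ I ∧ j ∈ I ∧ (∀ u ∈ K, ∀ l < n, kp l u ≠ 0 → l ∈ I) ∧
      (∀ u ∈ K', ∀ l < n, kp l u ≠ 0 → l ∈ I) ∧ ∃ q : ℤ,
        sv ≤ 2 * q * (∑ u ∈ K, ((g u : ℤ) + 1 - pc u) + ∑ u ∈ K', ((g' u : ℤ) + 1 - pc u))
          - I.card * (q * (q + 1)))
  ∨ sv ≤ 2 * (((K.filter fun u => (g u : ℤ) = vl u ∧ pc u = 0).card : ℤ)
        * ((K.filter fun u => (g u : ℤ) = vl u ∧ pc u = 0).card - 1))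
      + 2 * (((K'.filter fun u => (g' u : ℤ) = vl u ∧ pc u = 0).card : ℤ)
        * ((K'.filter fun u => (g' u : ℤ) = vl u ∧ pc u = 0).card - 1))

/-- the rectangle `EX` of any item (any host, any value, misses at both rows) in the cell `{i, j}` -/
def RcW (U : Finset ι) (mn : ℕ → ι → ℤ) (i j : ℕ) (p q EX : ℤ) : Prop :=
  EX ≤ 0 ∨ ∃ w ∈ U, EX ≤ max 0 (mn i w - p) * max 0 (mn j w - q)

lemma RcC.w {U : Finset ι} {vl : ι → ℤ} {mn : ℕ → ι → ℤ} {i j : ℕ} {p q EX : ℤ}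
    (h : RcC U vl mn i j p q EX) : RcW U mn i j p q EX := by
  rcases h with h | ⟨w, hw, -, h⟩
  · exact Or.inl h
  · exact Or.inr ⟨w, hw, h⟩

/-- **all facts for the pure row lemmas, concentrated packings** -/
structure PConC (R : ℤ) (n : ℕ) (t s mu : ℕ → ℤ) (U : Finset ι) (ho : ι → ℕ) (vl : ι → ℤ)
    (kp mn : ℕ → ι → ℤ) (pc ar : ι → ℤ) (be kq NN sg : ℕ → ℕ → ℤ) (nu : ℕ → ι → ℤ) : Prop
    extends PCon R n t s mu U ho vl kp mn pc ar be kq NN sg nu where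
  /- the caps of the cells -/
  capC : ∀ i < n, ∀ j < n, i ≠ j → ∀ K ⊆ U, (∀ u ∈ K, ho u = i) → ∀ K' ⊆ U,
    (∀ u ∈ K', ho u = j) → ∀ g g' : ι → ℕ, (∀ u ∈ K, 1 ≤ g u) →
    (∀ u ∈ K, (g u : ℤ) ≤ kp j u) → (∀ u ∈ K', 1 ≤ g' u) → (∀ u ∈ K', (g' u : ℤ) ≤ kp i u) →
    ∀ EX : ℤ, RcC U vl mn i j (∑ u ∈ K, pc u) (∑ u ∈ K', pc u) EX →
    ∀ sv : ℤ, SvC2 n vl kp pc i j g g' K K' sv →
    2 * ∑ u ∈ K, (R * g u + (1 - pc u) * t j - msP kp mn j g u - ar u)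
      + 2 * ∑ u ∈ K', (R * g' u + (1 - pc u) * t i - msP kp mn i g' u - ar u)
      + 2 * EX + sv
      ≤ 2 * (R + t i * t j)
        + (∑ u ∈ K, ((g u : ℤ) + 1 - pc u) + ∑ u ∈ K', ((g' u : ℤ) + 1 - pc u))
          * (∑ u ∈ K, ((g u : ℤ) + 1 - pc u) + ∑ u ∈ K', ((g' u : ℤ) + 1 - pc u) - 1)
        + 2 * (∑ u ∈ K, pc u) * ∑ u ∈ K', pc u
  capMC : ∀ i < n, ∀ j < n, i ≠ j →
    ∀ K ⊆ U, (∀ u ∈ K, ho u = i ∧ pc u = 0) → ∀ K' ⊆ U, (∀ u ∈ K', ho u = j ∧ pc u = 0) →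
    ∀ g g' : ι → ℕ, (∀ u ∈ K, 1 ≤ g u) →
    (∀ u ∈ K, (g u : ℤ) ≤ kp j u) → (∀ u ∈ K', 1 ≤ g' u) → (∀ u ∈ K', (g' u : ℤ) ≤ kp i u) →
    ∀ sv : ℤ, SvC2 n vl kp pc i j g g' K K' sv →
    2 * ((be i j + be j i - 1) * R)
      + 2 * ∑ u ∈ K, (R * g u + t j - msP kp mn j g u
        - ∑ l ∈ ((range n).erase i).erase j, kp l u * be i l)
      + 2 * ∑ u ∈ K', (R * g' u + t i - msP kp mn i g' u
        - ∑ l ∈ ((range n).erase i).erase j, kp l u * be j l)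
      + sv
      ≤ 2 * (t i * t j) + 2 * (be i j + be j i) ^ 2
        + 2 * (be i j + be j i) * (∑ u ∈ K, ((g u : ℤ) + 1) + ∑ u ∈ K', ((g' u : ℤ) + 1))
        + (∑ u ∈ K, ((g u : ℤ) + 1) + ∑ u ∈ K', ((g' u : ℤ) + 1))
          * (∑ u ∈ K, ((g u : ℤ) + 1) + ∑ u ∈ K', ((g' u : ℤ) + 1) - 1)
  /- the exact row test -/
  tTc : ∀ z < n, ∀ X ⊆ range n, ∀ Y ⊆ X, ∀ D ⊆ U, (∀ u ∈ D, ho u = z ∧ pc u = 0) →
    ∀ K ⊆ U, (∀ u ∈ K, ho u ≠ z) → ∀ g : ι → ℕ, (∀ u ∈ K, 1 ≤ g u) →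
    (∀ u ∈ K, (g u : ℤ) ≤ kp z u) → ∀ sv : ℤ, SvT2 n ho vl kp pc g K sv →
    TstP R 0 (t z + 1) (s z) (∑ u ∈ K, (g u : ℤ)) (∑ u ∈ K, ((g u : ℤ) + 1))
      (∑ u ∈ K, msP kp mn z g u)
      (mu z - ∑ l ∈ X, kq z l - ∑ l ∈ Y, (be z l - kq z l) - ∑ u ∈ D, vl u)
      (∑ l ∈ X, kq z l + ∑ l ∈ Y, (be z l - kq z l) + ∑ u ∈ D, (vl u + 1))
      0 sv (NP2 n U ho vl kp pc be kq NN sg z ((range n).erase z) X Y D) 0
  /- the row test with the columns of `j` -/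
  tPc : ∀ z < n, ∀ j < n, j ≠ z → ∀ X ⊆ range n, j ∉ X → ∀ Y ⊆ X, ∀ D ⊆ U,
    (∀ u ∈ D, ho u = z ∧ pc u = 0) →
    ∀ K ⊆ U, (∀ u ∈ K, ho u ≠ z) → ∀ g : ι → ℕ, (∀ u ∈ K, 1 ≤ g u) →
    (∀ u ∈ K, (g u : ℤ) ≤ kp z u) →
    ∀ sv : ℤ, SvT2 n ho vl kp pc g (K.filter fun u => ho u = j → pc u = 0) sv →
    TstP R (R - t j) (t z + 1) (s z) (∑ u ∈ K, (g u : ℤ))
      (∑ u ∈ K, ((g u : ℤ) + 1 - if ho u = j then pc u else 0))
      (∑ u ∈ K, msP kp mn z g u)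
      (mu z - ∑ l ∈ X, kq z l - ∑ l ∈ Y, (be z l - kq z l) - ∑ u ∈ D, vl u)
      (∑ l ∈ X, kq z l + ∑ l ∈ Y, (be z l - kq z l) + ∑ u ∈ D, (vl u + 1))
      (∑ u ∈ U.filter (fun u => ho u = z ∧ u ∉ D), (kp j u * (R - t j) - mn j u))
      (sv + 2 * ((∑ u ∈ K, if ho u = j then pc u else 0)
          * ((K.filter fun u => ho u = j ∧ pc u = 0 ∧ ∀ l < n, l ≠ z → kp l u = 0).card : ℤ)))
      (NP2 n U ho vl kp pc be kq NN sg z (((range n).erase z).erase j) X Y D)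
      ((be z j + ∑ u ∈ K, if ho u = j then pc u else 0)
          * (be z j + (∑ u ∈ K, if ho u = j then pc u else 0) + 1)
        + 2 * ∑ u ∈ K, if ho u = j then (1 - pc u) * ar u else ((g u : ℤ) + 1) * (R - t j))
  /- the row test with the columns of `j` and a rectangle -/
  tXc : ∀ z < n, ∀ j < n, j ≠ z → ∀ X ⊆ range n, j ∉ X → ∀ Y ⊆ X, ∀ D ⊆ U,
    (∀ u ∈ D, ho u = z ∧ pc u = 0) →
    ∀ K ⊆ U, (∀ u ∈ K, ho u ≠ z) → ∀ g : ι → ℕ, (∀ u ∈ K, 1 ≤ g u) →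
    (∀ u ∈ K, (g u : ℤ) ≤ kp z u) →
    ∀ EX : ℤ, RcW U mn z j (be z j) (∑ u ∈ K, if ho u = j then pc u else 0) EX →
    ∀ sv : ℤ, SvT2 n ho vl kp pc g (K.filter fun u => ho u = j → pc u = 0) sv →
    TstP R (R - t j) (t z + 1) (s z) (∑ u ∈ K, (g u : ℤ))
      (∑ u ∈ K, ((g u : ℤ) + 1 - if ho u = j then pc u else 0))
      (∑ u ∈ K, msP kp mn z g u)
      (mu z - ∑ l ∈ X, kq z l - ∑ l ∈ Y, (be z l - kq z l) - ∑ u ∈ D, vl u)
      (∑ l ∈ X, kq z l + ∑ l ∈ Y, (be z l - kq z l) + ∑ u ∈ D, (vl u + 1))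
      (∑ u ∈ U.filter (fun u => ho u = z ∧ u ∉ D), (kp j u * (R - t j) - mn j u))
      (sv + 2 * ((∑ u ∈ K, if ho u = j then pc u else 0)
          * ((K.filter fun u => ho u = j ∧ pc u = 0 ∧ ∀ l < n, l ≠ z → kp l u = 0).card : ℤ))
        + 2 * EX)
      (NP2 n U ho vl kp pc be kq NN sg z ((range n).erase z) X Y D)
      (2 * ((∑ u ∈ K, if ho u = j then pc u else 0) * be z j)
        + 2 * ∑ u ∈ K, if ho u = j then ar u else ((g u : ℤ) + 1) * (R - t j))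

variable {R : ℤ} {n : ℕ} {t s mu : ℕ → ℤ} {U : Finset ι} {ho : ι → ℕ} {vl : ι → ℤ}
  {kp mn : ℕ → ι → ℤ} {pc ar : ι → ℤ} {be kq NN sg : ℕ → ℕ → ℤ} {nu : ℕ → ι → ℤ}

/-- **the exact row test**, the saving written out -/
theorem PConC.tT2 (H : PConC R n t s mu U ho vl kp mn pc ar be kq NN sg nu) :
    ∀ z < n, ∀ X ⊆ range n, ∀ Y ⊆ X, ∀ D ⊆ U, (∀ u ∈ D, ho u = z ∧ pc u = 0) →
    ∀ K ⊆ U, (∀ u ∈ K, ho u ≠ z) → ∀ g : ι → ℕ, (∀ u ∈ K, 1 ≤ g u) →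
    (∀ u ∈ K, (g u : ℤ) ≤ kp z u) →
    TstP R 0 (t z + 1) (s z) (∑ u ∈ K, (g u : ℤ)) (∑ u ∈ K, ((g u : ℤ) + 1))
      (∑ u ∈ K, msP kp mn z g u)
      (mu z - ∑ l ∈ X, kq z l - ∑ l ∈ Y, (be z l - kq z l) - ∑ u ∈ D, vl u)
      (∑ l ∈ X, kq z l + ∑ l ∈ Y, (be z l - kq z l) + ∑ u ∈ D, (vl u + 1))
      0 (svP n ho vl K g + svP n ho vl (K.filter fun u => pc u = 0) g)
      (NP2 n U ho vl kp pc be kq NN sg z ((range n).erase z) X Y D) 0 :=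
  fun z hz X hX Y hY D hD hD' K hK hKh g hg1 hg2 =>
    H.tTc z hz X hX Y hY D hD hD' K hK hKh g hg1 hg2 _ (Or.inl le_rfl)

/-- **the row test with the columns of `j`**, the saving written out -/
theorem PConC.tP2 (H : PConC R n t s mu U ho vl kp mn pc ar be kq NN sg nu) :
    ∀ z < n, ∀ j < n, j ≠ z → ∀ X ⊆ range n, j ∉ X → ∀ Y ⊆ X, ∀ D ⊆ U,
    (∀ u ∈ D, ho u = z ∧ pc u = 0) →
    ∀ K ⊆ U, (∀ u ∈ K, ho u ≠ z) → ∀ g : ι → ℕ, (∀ u ∈ K, 1 ≤ g u) →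
    (∀ u ∈ K, (g u : ℤ) ≤ kp z u) →
    TstP R (R - t j) (t z + 1) (s z) (∑ u ∈ K, (g u : ℤ))
      (∑ u ∈ K, ((g u : ℤ) + 1 - if ho u = j then pc u else 0))
      (∑ u ∈ K, msP kp mn z g u)
      (mu z - ∑ l ∈ X, kq z l - ∑ l ∈ Y, (be z l - kq z l) - ∑ u ∈ D, vl u)
      (∑ l ∈ X, kq z l + ∑ l ∈ Y, (be z l - kq z l) + ∑ u ∈ D, (vl u + 1))
      (∑ u ∈ U.filter (fun u => ho u = z ∧ u ∉ D), (kp j u * (R - t j) - mn j u))
      (svP n ho vl (K.filter fun u => ho u = j → pc u = 0) g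
        + svP n ho vl ((K.filter fun u => ho u = j → pc u = 0).filter fun u => pc u = 0) g
        + 2 * ((∑ u ∈ K, if ho u = j then pc u else 0)
          * ((K.filter fun u => ho u = j ∧ pc u = 0 ∧ ∀ l < n, l ≠ z → kp l u = 0).card : ℤ)))
      (NP2 n U ho vl kp pc be kq NN sg z (((range n).erase z).erase j) X Y D)
      ((be z j + ∑ u ∈ K, if ho u = j then pc u else 0)
          * (be z j + (∑ u ∈ K, if ho u = j then pc u else 0) + 1)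
        + 2 * ∑ u ∈ K, if ho u = j then (1 - pc u) * ar u else ((g u : ℤ) + 1) * (R - t j)) :=
  fun z hz j hj hjz X hX hjX Y hY D hD hD' K hK hKh g hg1 hg2 =>
    H.tPc z hz j hj hjz X hX hjX Y hY D hD hD' K hK hKh g hg1 hg2 _ (Or.inl le_rfl)

/-- **the row test with the columns of `j` and a rectangle**, the saving written out -/
theorem PConC.tX2 (H : PConC R n t s mu U ho vl kp mn pc ar be kq NN sg nu) :
    ∀ z < n, ∀ j < n, j ≠ z → ∀ X ⊆ range n, j ∉ X → ∀ Y ⊆ X, ∀ D ⊆ U,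
    (∀ u ∈ D, ho u = z ∧ pc u = 0) →
    ∀ K ⊆ U, (∀ u ∈ K, ho u ≠ z) → ∀ g : ι → ℕ, (∀ u ∈ K, 1 ≤ g u) →
    (∀ u ∈ K, (g u : ℤ) ≤ kp z u) →
    ∀ EX : ℤ, RcW U mn z j (be z j) (∑ u ∈ K, if ho u = j then pc u else 0) EX →
    TstP R (R - t j) (t z + 1) (s z) (∑ u ∈ K, (g u : ℤ))
      (∑ u ∈ K, ((g u : ℤ) + 1 - if ho u = j then pc u else 0))
      (∑ u ∈ K, msP kp mn z g u)
      (mu z - ∑ l ∈ X, kq z l - ∑ l ∈ Y, (be z l - kq z l) - ∑ u ∈ D, vl u)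
      (∑ l ∈ X, kq z l + ∑ l ∈ Y, (be z l - kq z l) + ∑ u ∈ D, (vl u + 1))
      (∑ u ∈ U.filter (fun u => ho u = z ∧ u ∉ D), (kp j u * (R - t j) - mn j u))
      (svP n ho vl (K.filter fun u => ho u = j → pc u = 0) g
        + svP n ho vl ((K.filter fun u => ho u = j → pc u = 0).filter fun u => pc u = 0) g
        + 2 * ((∑ u ∈ K, if ho u = j then pc u else 0)
          * ((K.filter fun u => ho u = j ∧ pc u = 0 ∧ ∀ l < n, l ≠ z → kp l u = 0).card : ℤ))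
        + 2 * EX)
      (NP2 n U ho vl kp pc be kq NN sg z ((range n).erase z) X Y D)
      (2 * ((∑ u ∈ K, if ho u = j then pc u else 0) * be z j)
        + 2 * ∑ u ∈ K, if ho u = j then ar u else ((g u : ℤ) + 1) * (R - t j)) :=
  fun z hz j hj hjz X hX hjX Y hY D hD hD' K hK hKh g hg1 hg2 EX hEX =>
    H.tXc z hz j hj hjz X hX hjX Y hY D hD hD' K hK hKh g hg1 hg2 EX hEX _ (Or.inl le_rfl)

/-- **what the pure side delivers, concentrated packings** -/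
def PureNoC (R : ℤ) : Prop :=
  ∀ (ι : Type) (n : ℕ) (t s mu : ℕ → ℤ) (U : Finset ι) (ho : ι → ℕ) (vl : ι → ℤ)
    (kp mn : ℕ → ι → ℤ) (pc ar : ι → ℤ) (be kq NN sg : ℕ → ℕ → ℤ) (nu : ℕ → ι → ℤ),
    ¬ PConC R n t s mu U ho vl kp mn pc ar be kq NN sg nu

lemma PureNo.c {R : ℤ} (h : PureNo R) : PureNoC R :=
  fun ι n t s mu U ho vl kp mn pc ar be kq NN sg nu H =>
    h ι n t s mu U ho vl kp mn pc ar be kq NN sg nu H.toPCon

end PConCS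

end Pool.Agent.Lib.MP_f04ccf_co
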