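import Pool.Agent.Lib.MP_f04ccf_co.M.RulX
import Pool.Agent.Lib.MP_f04ccf_co.M.PConC

/-!
MP_f04ccf_co, TEXT D: **the assembly of regime H** over the contract `PConC` and the table X* (`RulX`).

* `lightX`, `freeX`: the light rows and the free units of regime H;
* `HubCl Z cp d0`: the claim of the hub row with budget `d0`; `RowCl Z cp z dz`: the claim of the row `z`;
* `budX θ`: the budgets `A z / (C + 1 / 2)`, hub `θ / (C + 1 / 2)` (`sum_budX`: nonnegative, sum less than one for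
  `0 ≤ θ < 1 / 2`);
* `pureH_of_rows`: regime H from the claims, any budgets; `pureH_of_budX`: with `budX θ`.
-/

set_option autoImplicit false

namespace Pool.Agent.Lib.MP_f04ccf_co

open Finset

attribute [local instance] Classical.propDecidable

section AsmH

variable {ι : Type*} {R : ℤ} {n : ℕ} {t s mu : ℕ → ℤ} {U : Finset ι} {ho : ι → ℕ} {vl : ι → ℤ}
  {kp mn : ℕ → ι → ℤ} {pc ar : ι → ℤ} {be kq NN sg : ℕ → ℕ → ℤ} {nu : ℕ → ι → ℤ}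
  {g : ℕ → ι → ℕ} {f : ι → ℕ}

/-- the light rows of regime H -/
noncomputable def lightX (n : ℕ) (s : ℕ → ℤ) (U : Finset ι) (ho : ι → ℕ) (vl : ι → ℤ) (kp : ℕ → ι → ℤ)
    (g : ℕ → ι → ℕ) (f : ι → ℕ) : Finset ℕ :=
  lightU n s (unV n U g) (unC (hubC ho vl kp g f) f)

/-- the free units of regime H -/
noncomputable def freeX (n : ℕ) (s : ℕ → ℤ) (U : Finset ι) (ho : ι → ℕ) (vl : ι → ℤ) (kp : ℕ → ι → ℤ)
    (g : ℕ → ι → ℕ) (f : ι → ℕ) : Finset (ι × ℕ × ℕ) :=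
  freeU (unV n U g) (fun v => ho v.1) (unC (hubC ho vl kp g f) f) (lightX n s U ho vl kp g f)

/-- **the claim of the hub row with the budget `d0`** -/
def HubCl (Z : ℕ → ℝ) (cp : ι × ℕ × ℕ → ℝ) (d0 : ℝ) (R : ℤ) (n : ℕ) (t s mu : ℕ → ℤ) (U : Finset ι)
    (ho : ι → ℕ) (vl : ι → ℤ) (kp mn : ℕ → ι → ℤ) (be : ℕ → ℕ → ℤ) (g : ℕ → ι → ℕ) (f : ι → ℕ) :
    Prop :=
  0 ∉ lightX n s U ho vl kp g f →
    1 ≤ s 0 + (((unV n U g).filter fun v => 0 ∈ unC (hubC ho vl kp g f) f v).card : ℤ) →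
    ∑ v ∈ (freeX n s U ho vl kp g f).filter (fun v => ho v.1 = 0 ∧ cutE kp g f v.1),
        cp v
      + ∑ v ∈ (freeX n s U ho vl kp g f).filter (fun v => hubC ho vl kp g f v.1),
        sCX Z R t ho kp mn be g f v
      ≤ (mu 0 : ℝ) - s 0 + d0

/-- **the claim of the row `z ≠ 0` with the budget `dz`** -/
def RowCl (Z : ℕ → ℝ) (cp : ι × ℕ × ℕ → ℝ) (z : ℕ) (dz : ℝ) (R : ℤ) (n : ℕ) (t s mu : ℕ → ℤ) (U : Finset ι)
    (ho : ι → ℕ) (vl : ι → ℤ) (kp mn : ℕ → ι → ℤ) (be : ℕ → ℕ → ℤ) (g : ℕ → ι → ℕ) (f : ι → ℕ) :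
    Prop :=
  z ∉ lightX n s U ho vl kp g f →
    1 ≤ s z + (((unV n U g).filter fun v => v.2.1 = z).card : ℤ) →
    ∑ v ∈ (freeX n s U ho vl kp g f).filter (fun v => ho v.1 = z),
        sHX Z cp R n t U ho vl kp mn be g f v
      + ∑ v ∈ (freeX n s U ho vl kp g f).filter (fun v => v.2.1 = z),
        sMX cp R n t U ho vl kp mn be g f v
      ≤ (mu z : ℝ) - s z + dz

/-- the two claims close regime H for one order of levels -/
theorem LevC.close_claims (Lv : LevC n U ho vl kp mn pc (phiX R t ho mn) g f)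
    (H : PCon R n t s mu U ho vl kp mn pc ar be kq NN sg nu) {Z : ℕ → ℝ} {cp : ι × ℕ × ℕ → ℝ} {δ : ℕ → ℝ}
    (hub : HubCl Z cp (δ 0) R n t s mu U ho vl kp mn be g f)
    (row : ∀ z < n, z ≠ 0 → RowCl Z cp z (δ z) R n t s mu U ho vl kp mn be g f)
    (hδ : ∀ z < n, 0 ≤ δ z) (hδ1 : ∑ z ∈ range n, δ z < 1) : False :=
  Lv.close_X H (Z := Z) (cp := cp) (L := lightX n s U ho vl kp g f) rfl
    (F := freeX n s U ho vl kp g f) rfl (δ := δ) (fun h1 h2 => hub h1 h2)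
    (fun z hz h0 hzL hz1 => row z hz h0 hzL hz1) hδ hδ1

/-- the budgets of regime H: `A z / (C + 1 / 2)`, hub `θ / (C + 1 / 2)` -/
noncomputable def budX (θ : ℝ) (R : ℤ) (t : ℕ → ℤ) (z : ℕ) : ℝ :=
  (if z = 0 then θ else (t z : ℝ) + 1) / ((R : ℝ) - (t 0 + 1) + 1 / 2)

lemma sum_budX (H : PCon R n t s mu U ho vl kp mn pc ar be kq NN sg nu) {θ : ℝ} (h0 : 0 ≤ θ)
    (h1 : θ < 1 / 2) : (∀ z < n, 0 ≤ budX θ R t z) ∧ ∑ z ∈ range n, budX θ R t z < 1 := by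
  have hn : 0 < n := by have := H.n5; omega
  have h3 : ∑ i ∈ (range n).erase 0, ((t i : ℝ) + 1) ≤ R - (t 0 + 1) := by
    have h4 := H.tsum
    rw [← add_sum_erase (range n) _ (mem_range.2 hn)] at h4
    have h5 : ∑ i ∈ (range n).erase 0, (t i + 1) ≤ R - (t 0 + 1) := by linarith
    exact_mod_cast h5
  have h4 : 0 ≤ ∑ i ∈ (range n).erase 0, ((t i : ℝ) + 1) := by
    refine sum_nonneg fun i hi => ?_
    have h2 : (0 : ℝ) ≤ t i := by exact_mod_cast H.t0 i (mem_range.1 (mem_of_mem_erase hi))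
    linarith
  have h5 : (0 : ℝ) < (R : ℝ) - (t 0 + 1) + 1 / 2 := by linarith
  constructor
  · intro z hz
    have h2 : (0 : ℝ) ≤ t z := by exact_mod_cast H.t0 z hz
    unfold budX
    split_ifs <;> positivity
  · unfold budX
    rw [← sum_div, div_lt_one h5, ← add_sum_erase (range n) _ (mem_range.2 hn), if_pos rfl]
    have h6 : ∑ i ∈ (range n).erase 0, (if i = 0 then θ else (t i : ℝ) + 1)
        = ∑ i ∈ (range n).erase 0, ((t i : ℝ) + 1) :=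
      sum_congr rfl fun i hi => if_neg (ne_of_mem_erase hi)
    rw [h6]
    linarith

end AsmH

section AsmHT

/-- **regime H from the claims** (any letters `Z`, `cp`, any budgets, possibly depending on the data) -/
theorem pureH_of_rows {R : ℤ}
    (h : ∀ (ι : Type) (n : ℕ) (t s mu : ℕ → ℤ) (U : Finset ι) (ho : ι → ℕ) (vl : ι → ℤ)
      (kp mn : ℕ → ι → ℤ) (pc ar : ι → ℤ) (be kq NN sg : ℕ → ℕ → ℤ) (nu : ℕ → ι → ℤ)
      (g : ℕ → ι → ℕ) (f : ι → ℕ),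
      PConC R n t s mu U ho vl kp mn pc ar be kq NN sg nu → R < 2 * (t 0 + 1) →
      LevC n U ho vl kp mn pc (phiX R t ho mn) g f →
      ∃ (Z : ℕ → ℝ) (cp : ι × ℕ × ℕ → ℝ) (δ : ℕ → ℝ), (∀ z < n, 0 ≤ δ z) ∧ ∑ z ∈ range n, δ z < 1 ∧
        HubCl Z cp (δ 0) R n t s mu U ho vl kp mn be g f ∧
        ∀ z < n, z ≠ 0 → RowCl Z cp z (δ z) R n t s mu U ho vl kp mn be g f)
    (ι : Type) (n : ℕ) (t s mu : ℕ → ℤ) (U : Finset ι) (ho : ι → ℕ) (vl : ι → ℤ)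
    (kp mn : ℕ → ι → ℤ) (pc ar : ι → ℤ) (be kq NN sg : ℕ → ℕ → ℤ) (nu : ℕ → ι → ℤ)
    (H : PConC R n t s mu U ho vl kp mn pc ar be kq NN sg nu) (h0 : R < 2 * (t 0 + 1)) :
    False := by
  obtain ⟨g, f, Lv⟩ := H.toPCon.exists_lev (phiX R t ho mn)
  obtain ⟨Z, cp, δ, h1, h2, h3, h4⟩ := h ι n t s mu U ho vl kp mn pc ar be kq NN sg nu g f H h0 Lv
  exact Lv.close_claims H.toPCon h3 h4 h1 h2

/-- **regime H from the claims with the budgets `budX θ`** -/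
theorem pureH_of_budX {R : ℤ} {θ : ℝ} (hθ0 : 0 ≤ θ) (hθ1 : θ < 1 / 2)
    (Z : ℤ → (ℕ → ℤ) → ℕ → ℝ)
    (cp : ℤ → (ℕ → ℤ) → ℤ → ℝ)
    (hub : ∀ (ι : Type) (n : ℕ) (t s mu : ℕ → ℤ) (U : Finset ι) (ho : ι → ℕ) (vl : ι → ℤ)
      (kp mn : ℕ → ι → ℤ) (pc ar : ι → ℤ) (be kq NN sg : ℕ → ℕ → ℤ) (nu : ℕ → ι → ℤ)
      (g : ℕ → ι → ℕ) (f : ι → ℕ),
      PConC R n t s mu U ho vl kp mn pc ar be kq NN sg nu → R < 2 * (t 0 + 1) →
      LevC n U ho vl kp mn pc (phiX R t ho mn) g f →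
      HubCl (Z R t) (fun v => cp R t (vl v.1)) (budX θ R t 0) R n t s mu U ho vl kp mn be g f)
    (row : ∀ (ι : Type) (n : ℕ) (t s mu : ℕ → ℤ) (U : Finset ι) (ho : ι → ℕ) (vl : ι → ℤ)
      (kp mn : ℕ → ι → ℤ) (pc ar : ι → ℤ) (be kq NN sg : ℕ → ℕ → ℤ) (nu : ℕ → ι → ℤ)
      (g : ℕ → ι → ℕ) (f : ι → ℕ),
      PConC R n t s mu U ho vl kp mn pc ar be kq NN sg nu → R < 2 * (t 0 + 1) →
      LevC n U ho vl kp mn pc (phiX R t ho mn) g f → ∀ z < n, z ≠ 0 →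
      RowCl (Z R t) (fun v => cp R t (vl v.1)) z (budX θ R t z) R n t s mu U ho vl kp mn be g f)
    (ι : Type) (n : ℕ) (t s mu : ℕ → ℤ) (U : Finset ι) (ho : ι → ℕ) (vl : ι → ℤ)
    (kp mn : ℕ → ι → ℤ) (pc ar : ι → ℤ) (be kq NN sg : ℕ → ℕ → ℤ) (nu : ℕ → ι → ℤ)
    (H : PConC R n t s mu U ho vl kp mn pc ar be kq NN sg nu) (h0 : R < 2 * (t 0 + 1)) :
    False :=
  pureH_of_rows (fun ι n t s mu U ho vl kp mn pc ar be kq NN sg nu g f H h0 Lv =>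
    ⟨Z R t, fun v => cp R t (vl v.1), budX θ R t, (sum_budX H.toPCon hθ0 hθ1).1, (sum_budX H.toPCon hθ0 hθ1).2,
      hub ι n t s mu U ho vl kp mn pc ar be kq NN sg nu g f H h0 Lv,
      fun z hz hz0 => row ι n t s mu U ho vl kp mn pc ar be kq NN sg nu g f H h0 Lv z hz hz0⟩)
    ι n t s mu U ho vl kp mn pc ar be kq NN sg nu H h0

end AsmHT

end Pool.Agent.Lib.MP_f04ccf_co
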