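import Pool.Agent.Lib.MP_f04ccf_co.M.EnM

/-!
MP_f04ccf_co, TEXT D, note of helper15: **concentrated packings**.

`sqf B Ps = ∑ |P|²` as the third function of `PkOpt`: for two parts `P ≠ Q` of a home with `|P| ≤ |Q|` every
member of `P` has an edge to `Q` (`PkOpt.conc`), else moving it to `Q` gives a packing with the same number of
parts, the same PC pairs and a larger sum of squares.  So there are at least `min |P| |Q|` edges between two parts
(`PkOpt.conc_edges`), instead of one.

* `Pk.shift`: the move;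
* `PkOpt.E_partsC`: the saving `∑ (min |P| |Q| - 1)` among the kept parts, for `Pk.energy_dropX`,
  `PkOpt.enX`, `PkOpt.energyXY`;
* `conS P1`: this saving, `conS_ge`: it is at least `m (m - 1)`, `m` parts which are not single.
-/

set_option autoImplicit false

namespace Pool.Agent.Lib.MP_f04ccf_co

open Finset

attribute [local instance] Classical.propDecidable

/-- the third function of the packings: the sum of the squares of the parts -/
def sqf {V : Type*} (_ : Finset (V × V)) (Ps : Finset (Finset V)) : ℕ := ∑ P ∈ Ps, P.card * P.card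

section Conc

variable {ι V : Type*} {G : SimpleGraph V} {C H : Finset V} {tl : V → ι}
  {B B1 : Finset (V × V)} {Ps P1 : Finset (Finset V)}

/-- moving a member `a` of the part `P` to the part `Q` -/
theorem Pk.shift (h : Pk G C H tl B Ps) {P Q : Finset V} (hP : P ∈ Ps) (hQ : Q ∈ Ps) (hPQ : P ≠ Q)
    {a : V} (ha : a ∈ P) (hne : (P.erase a).Nonempty) (hn : ∀ y ∈ Q, ¬ G.Adj a y) :
    Pk G C H tl B (insert (insert a Q) (insert (P.erase a) ((Ps.erase P).erase Q))) := by
  have hin : ∀ R ∈ (Ps.erase P).erase Q, R ∈ Ps ∧ R ≠ P ∧ R ≠ Q := fun R hR => by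
    obtain ⟨h1, h2⟩ := mem_erase.1 hR
    obtain ⟨h3, h4⟩ := mem_erase.1 h2
    exact ⟨h4, h3, h1⟩
  have hdPQ : Disjoint P Q := h.dis P hP Q hQ hPQ
  have hd1 : ∀ R ∈ (Ps.erase P).erase Q, Disjoint (insert a Q) R := by
    intro R hR
    obtain ⟨h1, h2, h3⟩ := hin R hR
    rw [disjoint_insert_left]
    exact ⟨fun h4 => disjoint_left.1 (h.dis P hP R h1 h2.symm) ha h4, h.dis Q hQ R h1 h3.symm⟩
  have hd2 : ∀ R ∈ (Ps.erase P).erase Q, Disjoint (P.erase a) R := by
    intro R hR
    obtain ⟨h1, h2, h3⟩ := hin R hR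
    exact (h.dis P hP R h1 h2.symm).mono_left (erase_subset _ _)
  have hd3 : Disjoint (insert a Q) (P.erase a) := by
    rw [disjoint_insert_left]
    exact ⟨notMem_erase a P, (hdPQ.mono_left (erase_subset _ _)).symm⟩
  refine ⟨h.bH, h.bC, h.bN, h.b1, h.b2, ?_, ?_, ?_, ?_, ?_, ?_⟩
  · intro R hR
    rcases mem_insert.1 hR with rfl | hR
    · exact insert_nonempty _ _
    rcases mem_insert.1 hR with rfl | hR
    · exact hne
    · exact h.ne R (hin R hR).1
  · intro R hR
    rcases mem_insert.1 hR with rfl | hR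
    · exact insert_subset (h.sub P hP ha) (h.sub Q hQ)
    rcases mem_insert.1 hR with rfl | hR
    · exact (erase_subset _ _).trans (h.sub P hP)
    · exact h.sub R (hin R hR).1
  · intro R hR
    rcases mem_insert.1 hR with rfl | hR
    · intro x hx y hy
      rcases mem_insert.1 hx with h1 | h1 <;> rcases mem_insert.1 hy with h2 | h2
      · rw [h1, h2]
        exact G.irrefl
      · rw [h1]
        exact hn y h2
      · rw [h2]
        exact fun h' => hn x h1 h'.symm
      · exact h.ind Q hQ x h1 y h2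
    rcases mem_insert.1 hR with rfl | hR
    · exact fun x hx y hy => h.ind P hP x (mem_of_mem_erase hx) y (mem_of_mem_erase hy)
    · exact h.ind R (hin R hR).1
  · intro R hR S hS hRS
    rcases mem_insert.1 hR with rfl | hR
    · rcases mem_insert.1 hS with rfl | hS
      · exact absurd rfl hRS
      rcases mem_insert.1 hS with rfl | hS
      · exact hd3
      · exact hd1 S hS
    rcases mem_insert.1 hR with rfl | hR
    · rcases mem_insert.1 hS with rfl | hS
      · exact hd3.symm
      rcases mem_insert.1 hS with rfl | hS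
      · exact absurd rfl hRS
      · exact hd2 S hS
    · rcases mem_insert.1 hS with rfl | hS
      · exact (hd1 R hR).symm
      rcases mem_insert.1 hS with rfl | hS
      · exact (hd2 R hR).symm
      · exact h.dis R (hin R hR).1 S (hin S hS).1 hRS
  · intro e he R hR
    rcases mem_insert.1 hR with rfl | hR
    · intro h1
      rcases mem_insert.1 h1 with h2 | h2
      · exact h.dw e he P hP (h2 ▸ ha)
      · exact h.dw e he Q hQ h2
    rcases mem_insert.1 hR with rfl | hR
    · exact fun h1 => h.dw e he P hP (mem_of_mem_erase h1)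
    · exact h.dw e he R (hin R hR).1
  · intro v hv
    rcases h.cov v hv with h1 | ⟨R, hR, hvR⟩
    · exact Or.inl h1
    · refine Or.inr ?_
      by_cases h2 : R = P
      · rw [h2] at hvR
        by_cases h3 : v = a
        · exact ⟨insert a Q, mem_insert_self _ _, h3 ▸ mem_insert_self _ _⟩
        · exact ⟨P.erase a, mem_insert_of_mem (mem_insert_self _ _), mem_erase.2 ⟨h3, hvR⟩⟩
      by_cases h3 : R = Q
      · exact ⟨insert a Q, mem_insert_self _ _, mem_insert_of_mem (h3 ▸ hvR)⟩
      · exact ⟨R, mem_insert_of_mem (mem_insert_of_mem (mem_erase.2 ⟨h3, mem_erase.2 ⟨h2, hR⟩⟩)),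
          hvR⟩

/-- **concentrated packings**: a member of a part has an edge to every part which is not smaller -/
theorem PkOpt.conc (h : PkOpt G C H tl sqf B Ps) {P Q : Finset V} (hP : P ∈ Ps) (hQ : Q ∈ Ps)
    (hPQ : P ≠ Q) (hc : P.card ≤ Q.card) {a : V} (ha : a ∈ P) : ∃ b ∈ Q, G.Adj a b := by
  by_contra hcon
  push Not at hcon
  by_cases hne : (P.erase a).Nonempty
  · have hpk := h.toPk.shift hP hQ hPQ ha hne hcon
    have hdPQ : Disjoint P Q := h.dis P hP Q hQ hPQ
    have haQ : a ∉ Q := fun h1 => disjoint_left.1 hdPQ ha h1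
    have hQR : Q ∈ Ps.erase P := mem_erase.2 ⟨hPQ.symm, hQ⟩
    have h1 : P.erase a ∉ (Ps.erase P).erase Q := by
      intro h1
      obtain ⟨h2, h3⟩ := mem_erase.1 h1
      obtain ⟨h4, h5⟩ := mem_erase.1 h3
      obtain ⟨x, hx⟩ := hne
      exact disjoint_left.1 (h.dis P hP _ h5 h4.symm) (mem_of_mem_erase hx) hx
    have h2 : insert a Q ∉ insert (P.erase a) ((Ps.erase P).erase Q) := by
      intro h2
      rcases mem_insert.1 h2 with h3 | h3
      · exact notMem_erase a P (h3 ▸ mem_insert_self a Q)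
      · obtain ⟨h4, h5⟩ := mem_erase.1 h3
        obtain ⟨h6, h7⟩ := mem_erase.1 h5
        exact disjoint_left.1 (h.dis P hP _ h7 h6.symm) ha (mem_insert_self a Q)
    have h3 := card_erase_add_one hQR
    have h4 := card_erase_add_one hP
    have h5 : (insert (insert a Q) (insert (P.erase a) ((Ps.erase P).erase Q))).card = Ps.card := by
      rw [card_insert_of_notMem h2, card_insert_of_notMem h1]
      omega
    have h6 := h.max' _ _ hpk h5 rfl
    unfold sqf at h6
    rw [sum_insert h2, sum_insert h1, card_insert_of_notMem haQ] at h6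
    have h7 := add_sum_erase Ps (fun R => R.card * R.card) hP
    have h8 := add_sum_erase (Ps.erase P) (fun R => R.card * R.card) hQR
    beta_reduce at h7 h8
    have h9 := card_erase_add_one ha
    obtain ⟨p, hp⟩ : ∃ p, p = (P.erase a).card := ⟨_, rfl⟩
    rw [← hp] at h6 h9
    rw [← h9] at h7 hc
    nlinarith
  · rw [not_nonempty_iff_eq_empty] at hne
    obtain ⟨x, hx, y, hy, hxy⟩ := h.edge hP hQ hPQ
    have h1 : x = a := by
      by_contra h2
      have h3 : x ∈ P.erase a := mem_erase.2 ⟨h2, hx⟩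
      rw [hne] at h3
      exact notMem_empty x h3
    exact hcon y hy (h1 ▸ hxy)

/-- as many edges as members -/
lemma card_le_edges {P Q : Finset V} (h : ∀ a ∈ P, ∃ b ∈ Q, G.Adj a b) :
    P.card ≤ ((P ×ˢ Q).filter fun e => G.Adj e.1 e.2).card := by
  choose! f hf1 hf2 using h
  refine card_le_card_of_injOn (fun a => (a, f a)) ?_ ?_
  · intro a ha
    have ha' : a ∈ P := by exact_mod_cast ha
    have : (a, f a) ∈ (P ×ˢ Q).filter fun e => G.Adj e.1 e.2 :=
      mem_filter.2 ⟨mem_product.2 ⟨ha', hf1 a ha'⟩, hf2 a ha'⟩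
    exact_mod_cast this
  · intro a _ b _ hab
    exact (Prod.ext_iff.1 hab).1

/-- the edges between two sets, the other way round -/
lemma edges_swap (P Q : Finset V) :
    ((P ×ˢ Q).filter fun e => G.Adj e.1 e.2).card
      = ((Q ×ˢ P).filter fun e => G.Adj e.1 e.2).card := by
  refine card_bij (fun e _ => (e.2, e.1)) ?_ ?_ ?_
  · intro e he
    obtain ⟨h1, h2⟩ := mem_filter.1 he
    obtain ⟨h3, h4⟩ := mem_product.1 h1
    exact mem_filter.2 ⟨mem_product.2 ⟨h4, h3⟩, h2.symm⟩
  · intro e _ f _ hef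
    obtain ⟨h1, h2⟩ := Prod.ext_iff.1 hef
    exact Prod.ext h2 h1
  · intro e he
    obtain ⟨h1, h2⟩ := mem_filter.1 he
    obtain ⟨h3, h4⟩ := mem_product.1 h1
    exact ⟨(e.2, e.1), mem_filter.2 ⟨mem_product.2 ⟨h4, h3⟩, h2.symm⟩, rfl⟩

/-- **at least `min |P| |Q|` edges between two parts** -/
theorem PkOpt.conc_edges (h : PkOpt G C H tl sqf B Ps) {P Q : Finset V} (hP : P ∈ Ps) (hQ : Q ∈ Ps)
    (hPQ : P ≠ Q) : Min.min P.card Q.card ≤ ((P ×ˢ Q).filter fun e => G.Adj e.1 e.2).card := by
  rcases le_total P.card Q.card with h1 | h1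
  · rw [min_eq_left h1]
    exact card_le_edges fun a ha => h.conc hP hQ hPQ h1 ha
  · rw [min_eq_right h1, edges_swap]
    exact card_le_edges fun a ha => h.conc hQ hP hPQ.symm h1 ha

private lemma E_filter3 (X : Finset V) :
    E G X = ((X ×ˢ X).filter fun e => G.Adj e.1 e.2).card := by
  unfold E
  rw [card_filter, sum_product]
  refine sum_congr rfl fun x _ => ?_
  unfold dg
  rw [card_filter]

/-- **the saving among the parts of `P1`** -/
def conS (P1 : Finset (Finset V)) : ℕ := ∑ e ∈ P1.offDiag, (min e.1.card e.2.card - 1)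

/-- **the edges inside the kept parts of a concentrated packing** -/
theorem PkOpt.E_partsC (h : PkOpt G C H tl sqf B Ps) (hP : P1 ⊆ Ps) :
    P1.card * P1.card + conS P1 ≤ E G (P1.biUnion id) + P1.card := by
  obtain ⟨f, hf⟩ : ∃ f : Finset V × Finset V → Finset (V × V),
      f = fun PQ => (PQ.1 ×ˢ PQ.2).filter fun e => G.Adj e.1 e.2 := ⟨_, rfl⟩
  have h1 : ∀ e ∈ P1.offDiag, 1 + (Min.min e.1.card e.2.card - 1) ≤ (f e).card := by
    rintro ⟨P, Q⟩ he
    obtain ⟨hP', hQ', hne⟩ := mem_offDiag.1 he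
    have h2 := h.conc_edges (hP hP') (hP hQ') hne
    have h3 := card_pos.2 (h.ne P (hP hP'))
    have h4 := card_pos.2 (h.ne Q (hP hQ'))
    have h5 : 1 ≤ Min.min P.card Q.card := le_min h3 h4
    rw [hf]
    change 1 + (Min.min P.card Q.card - 1) ≤ ((P ×ˢ Q).filter fun e => G.Adj e.1 e.2).card
    rw [Nat.add_sub_cancel' h5]
    exact h2
  have h2 := sum_le_sum h1
  rw [sum_add_distrib, sum_const, smul_eq_mul, mul_one] at h2
  have h3 : ∑ e ∈ P1.offDiag, (f e).card ≤ E G (P1.biUnion id) := by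
    rw [E_filter3, ← card_biUnion]
    · refine card_le_card (biUnion_subset.2 ?_)
      rintro ⟨P, Q⟩ he
      obtain ⟨hP', hQ', -⟩ := mem_offDiag.1 he
      rw [hf]
      exact filter_subset_filter _ (product_subset_product
        (fun v hv => mem_biUnion.2 ⟨P, hP', hv⟩) fun v hv => mem_biUnion.2 ⟨Q, hQ', hv⟩)
    · rintro ⟨P, Q⟩ he ⟨P', Q'⟩ he' hne
      show Disjoint _ _
      obtain ⟨a1, a2, -⟩ := mem_offDiag.1 (mem_coe.1 he)
      obtain ⟨b1, b2, -⟩ := mem_offDiag.1 (mem_coe.1 he')
      rw [disjoint_left]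
      intro e h3 h4
      rw [hf] at h3 h4
      obtain ⟨h5, h6⟩ := mem_product.1 (mem_filter.1 h3).1
      obtain ⟨h7, h8⟩ := mem_product.1 (mem_filter.1 h4).1
      exact hne (Prod.ext (h.part_eq (hP a1) (hP b1) h5 h7) (h.part_eq (hP a2) (hP b2) h6 h8))
  rw [offDiag_card] at h2
  have h4 : P1.card ≤ P1.card * P1.card := by
    rcases Nat.eq_zero_or_pos P1.card with h5 | h5
    · rw [h5]
    · exact Nat.le_mul_of_pos_left _ h5
  unfold conS
  omega

/-- the saving is at least `m (m - 1)`, `m` parts which are not single -/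
lemma conS_ge (P1 : Finset (Finset V)) :
    (P1.filter fun P => 2 ≤ P.card).card * ((P1.filter fun P => 2 ≤ P.card).card - 1) ≤ conS P1 := by
  unfold conS
  have h1 : (P1.filter fun P => 2 ≤ P.card).offDiag ⊆ P1.offDiag := offDiag_mono (filter_subset _ _)
  refine le_trans ?_ (sum_le_sum_of_subset h1)
  rw [Nat.mul_sub, mul_one, ← offDiag_card, card_eq_sum_ones]
  refine sum_le_sum fun e he => ?_
  obtain ⟨h2, h3, -⟩ := mem_offDiag.1 he
  have h4 := (mem_filter.1 h2).2
  have h5 := (mem_filter.1 h3).2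
  have h6 : 2 ≤ min e.1.card e.2.card := le_min h4 h5
  omega

/-- two edges between two parts which are not single -/
theorem PkOpt.two (h : PkOpt G C H tl sqf B Ps) {P Q : Finset V} (hP : P ∈ Ps) (hQ : Q ∈ Ps)
    (hPQ : P ≠ Q) (h2 : 2 ≤ P.card) (h3 : 2 ≤ Q.card) :
    2 ≤ ((P ×ˢ Q).filter fun e => G.Adj e.1 e.2).card :=
  le_trans (le_min h2 h3) (h.conc_edges hP hQ hPQ)

end Conc

end Pool.Agent.Lib.MP_f04ccf_co
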