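import Pool.Agent.Lib.MP_f04ccf_co.M.CellGP
import Pool.Agent.Lib.MP_f04ccf_co.M.Conc
import Pool.Agent.Lib.MP_f04ccf_co.M.PConC

/-!
MP_f04ccf_co, note 18279 (3): **the cell tests of concentrated packings** (`PkOpt` with the third function `sqf`,
helper15): two edges between any two plain items of one home, so the pairs of plain items of one host which are
used with their whole value save twice as much.

* `SavK2`: the savings `SavK` with the second summand doubled; `SavK.two`, `SavK2.prs`, `SvC2.savK2`;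
* `Cap2`, `CapMP2`: the fields `capC`, `capMC` of `PConC`; `WItC.cap2`, `WItC.capMP2`: the transports, version [C]
  with `sqf`.
-/

set_option autoImplicit false

namespace Pool.Agent.Lib.MP_f04ccf_co

open Finset

attribute [local instance] Classical.propDecidable

section Cls2

variable {ι V : Type*} {G : SimpleGraph V}

/-- **missing pairs of a union of groups in classes**: the adjacent pairs inside the classes and two for
every pair of groups in `D` (of different classes) are saved -/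
theorem NE_cls_le2 {K : Finset ι} {P : ι → Finset V}
    (hd : ∀ u ∈ K, ∀ v ∈ K, u ≠ v → Disjoint (P u) (P v)) {cl : ι → ℕ} {M : ℕ}
    {D : Finset (ι × ι)}
    (hD : ∀ e ∈ D, e.1 ∈ K ∧ e.2 ∈ K ∧ cl e.1 ≠ cl e.2 ∧ 
      2 ≤ ((P e.1 ×ˢ P e.2).filter fun f => G.Adj f.1 f.2).card) :
    (NE G (K.biUnion P) : ℤ)
      + (∑ c ∈ range M, (E G ((K.filter fun u => cl u = c).biUnion P) : ℤ) + 2 * D.card)
      + (K.biUnion P).card
      ≤ ((K.biUnion P).card : ℤ) * (K.biUnion P).card := by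
  set W := K.biUnion P with hW
  set Wc : ℕ → Finset V := fun c => (K.filter fun u => cl u = c).biUnion P with hWc
  have h0 := E_add_NE (G := G) W
  have hE : ∀ c, E G (Wc c) = ((Wc c ×ˢ Wc c).filter fun e => G.Adj e.1 e.2).card :=
    fun c => E_eq_card _
  have huniq : ∀ u ∈ K, ∀ v ∈ K, ∀ w, w ∈ P u → w ∈ P v → u = v := by
    intro u hu v hv w hwu hwv
    by_contra hne
    exact disjoint_left.1 (hd u hu v hv hne) hwu hwv
  have hmc : ∀ c w, w ∈ Wc c → ∃ u ∈ K, cl u = c ∧ w ∈ P u := by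
    intro c w hw
    obtain ⟨u, hu, hwu⟩ := mem_biUnion.1 hw
    obtain ⟨h1, h2⟩ := mem_filter.1 hu
    exact ⟨u, h1, h2, hwu⟩
  set SC := (range M).biUnion fun c => (Wc c ×ˢ Wc c).filter fun e => G.Adj e.1 e.2 with hSC
  set SD := D.biUnion fun e => (P e.1 ×ˢ P e.2).filter fun f => G.Adj f.1 f.2 with hSD
  have h1 : ∑ c ∈ range M, E G (Wc c) = SC.card := by
    rw [hSC, card_biUnion]
    · exact sum_congr rfl fun c _ => hE c
    · intro c _ c' _ hcc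
      show Disjoint _ _
      rw [disjoint_left]
      intro e he he'
      obtain ⟨h2, -⟩ := mem_filter.1 he
      obtain ⟨h3, -⟩ := mem_filter.1 he'
      obtain ⟨u, hu, hc, hwu⟩ := hmc c _ (mem_product.1 h2).1
      obtain ⟨v, hv, hc', hwv⟩ := hmc c' _ (mem_product.1 h3).1
      exact hcc (by rw [← hc, ← hc', huniq u hu v hv _ hwu hwv])
  have h2 : 2 * D.card ≤ SD.card := by
    rw [hSD, card_biUnion]
    · rw [card_eq_sum_ones, mul_sum]
      refine sum_le_sum fun e he => ?_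
      obtain ⟨-, -, -, h7⟩ := hD e he
      exact h7
    · intro e he f hf hef
      obtain ⟨ha, hb, -⟩ := hD e he
      obtain ⟨ha', hb', -⟩ := hD f hf
      show Disjoint _ _
      rw [disjoint_left]
      intro g hg hg'
      obtain ⟨h2, h3⟩ := mem_product.1 (mem_filter.1 hg).1
      obtain ⟨h4, h5⟩ := mem_product.1 (mem_filter.1 hg').1
      exact hef (Prod.ext (huniq _ ha _ ha' _ h2 h4) (huniq _ hb _ hb' _ h3 h5))
  have h3 : Disjoint SC SD := by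
    rw [disjoint_left]
    intro g hg hg'
    obtain ⟨c, -, h4⟩ := mem_biUnion.1 hg
    obtain ⟨e, he, h5⟩ := mem_biUnion.1 hg'
    obtain ⟨h6, h7⟩ := mem_product.1 (mem_filter.1 h4).1
    obtain ⟨h8, h9⟩ := mem_product.1 (mem_filter.1 h5).1
    obtain ⟨ha, hb, hne, -⟩ := hD e he
    obtain ⟨u, hu, hc, hwu⟩ := hmc c _ h6
    obtain ⟨v, hv, hc', hwv⟩ := hmc c _ h7
    apply hne
    rw [← huniq u hu _ ha _ hwu h8, ← huniq v hv _ hb _ hwv h9, hc, hc']
  have h4 : SC ∪ SD ⊆ (W ×ˢ W).filter fun e => G.Adj e.1 e.2 := by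
    intro g hg
    rcases mem_union.1 hg with hg | hg
    · obtain ⟨c, -, h4⟩ := mem_biUnion.1 hg
      obtain ⟨h5, h6⟩ := mem_filter.1 h4
      obtain ⟨h7, h8⟩ := mem_product.1 h5
      have hsub : Wc c ⊆ W := biUnion_subset_biUnion_of_subset_left _ (filter_subset _ _)
      exact mem_filter.2 ⟨mem_product.2 ⟨hsub h7, hsub h8⟩, h6⟩
    · obtain ⟨e, he, h5⟩ := mem_biUnion.1 hg
      obtain ⟨h6, h7⟩ := mem_filter.1 h5
      obtain ⟨h8, h9⟩ := mem_product.1 h6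
      obtain ⟨ha, hb, -⟩ := hD e he
      exact mem_filter.2 ⟨mem_product.2 ⟨mem_biUnion.2 ⟨_, ha, h8⟩, mem_biUnion.2 ⟨_, hb, h9⟩⟩, h7⟩
  have h5 := card_le_card h4
  rw [card_union_of_disjoint h3, ← E_eq_card] at h5
  have h6 : ((∑ c ∈ range M, E G (Wc c) : ℕ) : ℤ) + 2 * D.card ≤ E G W := by
    rw [h1]
    have : SC.card + 2 * D.card ≤ E G W := by omega
    exact_mod_cast this
  push_cast at h6
  linarith

end Cls2

section Defs

variable {ι : Type*}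

/-- **the saving `sv`** in the cell test `{i, j}` (`SavK`), two ordered adjacent pairs for two items of one host, of
different classes, no PC pairs, used with all their points -/
def SavK2 (n : ℕ) (vl : ι → ℤ) (kp : ℕ → ι → ℤ) (pc : ι → ℤ) (i j : ℕ) (g g' : ι → ℕ)
    (K K' : Finset ι) (sv : ℤ) : Prop :=
  ∃ (cl : ι → ℕ) (M : ℕ) (q : ℕ → ℤ) (I : ℕ → Finset ℕ), (∀ c, I c ⊆ range n) ∧
    (∀ u ∈ K, q (cl u) ≠ 0 → i ∈ I (cl u) ∧ ∀ l < n, kp l u ≠ 0 → l ∈ I (cl u)) ∧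
    (∀ u ∈ K', q (cl u) ≠ 0 → j ∈ I (cl u) ∧ ∀ l < n, kp l u ≠ 0 → l ∈ I (cl u)) ∧
    sv ≤ ∑ c ∈ range M, (2 * q c * (∑ u ∈ K.filter (fun u => cl u = c), ((g u : ℤ) + 1 - pc u)
          + ∑ u ∈ K'.filter (fun u => cl u = c), ((g' u : ℤ) + 1 - pc u))
        - (I c).card * (q c * (q c + 1)))
      + 2 * (((K ×ˢ K).filter fun e => e.1 ≠ e.2 ∧ cl e.1 ≠ cl e.2
          ∧ (g e.1 : ℤ) = vl e.1 ∧ (g e.2 : ℤ) = vl e.2 ∧ pc e.1 = 0 ∧ pc e.2 = 0).card
        + ((K' ×ˢ K').filter fun e => e.1 ≠ e.2 ∧ cl e.1 ≠ cl e.2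
          ∧ (g' e.1 : ℤ) = vl e.1 ∧ (g' e.2 : ℤ) = vl e.2 ∧ pc e.1 = 0 ∧ pc e.2 = 0).card)

/-- the savings `SavK` -/
lemma SavK.two {n : ℕ} {vl : ι → ℤ} {kp : ℕ → ι → ℤ} {pc : ι → ℤ} {i j : ℕ} {g g' : ι → ℕ}
    {K K' : Finset ι} {sv : ℤ} (h : SavK n vl kp pc i j g g' K K' sv) :
    SavK2 n vl kp pc i j g g' K K' sv := by
  obtain ⟨cl, M, q, I, h1, h2, h3, h4⟩ := h
  refine ⟨cl, M, q, I, h1, h2, h3, h4.trans ?_⟩
  have h5 : (0 : ℤ) ≤ (((K ×ˢ K).filter fun e => e.1 ≠ e.2 ∧ cl e.1 ≠ cl e.2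
          ∧ (g e.1 : ℤ) = vl e.1 ∧ (g e.2 : ℤ) = vl e.2 ∧ pc e.1 = 0 ∧ pc e.2 = 0).card : ℤ) :=
    Nat.cast_nonneg _
  have h6 : (0 : ℤ) ≤ (((K' ×ˢ K').filter fun e => e.1 ≠ e.2 ∧ cl e.1 ≠ cl e.2
          ∧ (g' e.1 : ℤ) = vl e.1 ∧ (g' e.2 : ℤ) = vl e.2 ∧ pc e.1 = 0 ∧ pc e.2 = 0).card : ℤ) :=
    Nat.cast_nonneg _
  linarith

/-- the pairs of one host: the items without PC pairs used with all their points -/
lemma SavK2.prs {n : ℕ} {vl : ι → ℤ} {kp : ℕ → ι → ℤ} {pc : ι → ℤ} {i j : ℕ} {g g' : ι → ℕ}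
    {K K' : Finset ι} {sv : ℤ}
    (h : sv ≤ 2 * (((K.filter fun u => (g u : ℤ) = vl u ∧ pc u = 0).card : ℤ)
        * ((K.filter fun u => (g u : ℤ) = vl u ∧ pc u = 0).card - 1)
      + ((K'.filter fun u => (g' u : ℤ) = vl u ∧ pc u = 0).card : ℤ)
        * ((K'.filter fun u => (g' u : ℤ) = vl u ∧ pc u = 0).card - 1))) :
    SavK2 n vl kp pc i j g g' K K' sv := by
  obtain ⟨cl, hcl⟩ : ∃ cl : ι → ℕ, ∀ u ∈ K ∪ K', ∀ v ∈ K ∪ K', cl u = cl v → u = v := by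
    have e := (K ∪ K').equivFin
    refine ⟨fun u => if hu : u ∈ K ∪ K' then (e ⟨u, hu⟩ : ℕ) else 0, fun u hu v hv huv => ?_⟩
    simp only [hu, hv, dif_pos] at huv
    have h1 := e.injective (Fin.ext huv)
    exact congrArg Subtype.val h1
  refine ⟨cl, 0, fun _ => 0, fun _ => ∅, fun _ => empty_subset _,
    fun u _ h1 => absurd rfl h1, fun u _ h1 => absurd rfl h1, ?_⟩
  rw [range_zero, sum_empty, zero_add]
  refine h.trans (le_of_eq ?_)
  have key : ∀ (L : Finset ι) (f : ι → ℕ), L ⊆ K ∪ K' →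
      (((L ×ˢ L).filter fun e => e.1 ≠ e.2 ∧ cl e.1 ≠ cl e.2
          ∧ (f e.1 : ℤ) = vl e.1 ∧ (f e.2 : ℤ) = vl e.2 ∧ pc e.1 = 0 ∧ pc e.2 = 0).card : ℤ)
        = ((L.filter fun u => (f u : ℤ) = vl u ∧ pc u = 0).card : ℤ)
          * ((L.filter fun u => (f u : ℤ) = vl u ∧ pc u = 0).card - 1) := by
    intro L f hL
    rw [← card_offd]
    congr 2
    ext e
    simp only [mem_filter, mem_product]
    constructor
    · rintro ⟨⟨a, b⟩, c, -, d1, d2, d3, d4⟩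
      exact ⟨⟨⟨a, d1, d3⟩, b, d2, d4⟩, c⟩
    · rintro ⟨⟨⟨a, d1, d3⟩, b, d2, d4⟩, c⟩
      exact ⟨⟨a, b⟩, c, fun h1 => c (hcl _ (hL a) _ (hL b) h1), d1, d2, d3, d4⟩
  rw [key K g subset_union_left, key K' g' subset_union_right]

/-- the savings of the contract are savings `SavK2` -/
lemma SvC2.savK2 {n : ℕ} {vl : ι → ℤ} {kp : ℕ → ι → ℤ} {pc : ι → ℤ} {i j : ℕ} {g g' : ι → ℕ}
    {K K' : Finset ι} {sv : ℤ} (h : SvC2 n vl kp pc i j g g' K K' sv) :
    SavK2 n vl kp pc i j g g' K K' sv := by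
  rcases h with h | ⟨I, hI, hi, hj, h1, h2, q, h⟩ | h
  · exact (SavK.zero h).two
  · exact (SavK.tur hI hi hj h1 h2 q h).two
  · exact SavK2.prs (h.trans (le_of_eq (by ring)))

/-- **the field `capC` of the contract** `PConC` -/
def Cap2 (R : ℤ) (n : ℕ) (t : ℕ → ℤ) (U : Finset ι) (ho : ι → ℕ) (vl : ι → ℤ)
    (kp mn : ℕ → ι → ℤ) (pc ar : ι → ℤ) : Prop :=
  ∀ i < n, ∀ j < n, i ≠ j → ∀ K ⊆ U, (∀ u ∈ K, ho u = i) → ∀ K' ⊆ U,
    (∀ u ∈ K', ho u = j) → ∀ g g' : ι → ℕ, (∀ u ∈ K, 1 ≤ g u) →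
    (∀ u ∈ K, (g u : ℤ) ≤ kp j u) → (∀ u ∈ K', 1 ≤ g' u) → (∀ u ∈ K', (g' u : ℤ) ≤ kp i u) →
    ∀ EX : ℤ, RcC U vl mn i j (∑ u ∈ K, pc u) (∑ u ∈ K', pc u) EX →
    ∀ sv : ℤ, SvC2 n vl kp pc i j g g' K K' sv →
    2 * ∑ u ∈ K, (R * g u + (1 - pc u) * t j - msP kp mn j g u - ar u)
      + 2 * ∑ u ∈ K', (R * g' u + (1 - pc u) * t i - msP kp mn i g' u - ar u)
      + 2 * EX + sv
      ≤ 2 * (R + t i * t j)
        + (∑ u ∈ K, ((g u : ℤ) + 1 - pc u) + ∑ u ∈ K', ((g' u : ℤ) + 1 - pc u))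
          * (∑ u ∈ K, ((g u : ℤ) + 1 - pc u) + ∑ u ∈ K', ((g' u : ℤ) + 1 - pc u) - 1)
        + 2 * (∑ u ∈ K, pc u) * ∑ u ∈ K', pc u

/-- **the mixed cells over the row indices, at levels** (`CapM`) with the savings `SavK2` -/
def CapM2 (R : ℤ) (n : ℕ) (t : ℕ → ℤ) (U : Finset ι) (ho : ι → ℕ) (vl : ι → ℤ)
    (kp mn : ℕ → ι → ℤ) (be : ℕ → ℕ → ℤ) (pc : ι → ℤ) (nu : ℕ → ι → ℤ) : Prop :=
  ∀ i < n, ∀ j < n, i ≠ j → ∀ K ⊆ U, (∀ u ∈ K, ho u = i ∧ pc u = 0) →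
    ∀ K' ⊆ U, (∀ u ∈ K', ho u = j ∧ pc u = 0) → ∀ g g' : ι → ℕ,
    (∀ u ∈ K, 1 ≤ g u) → (∀ u ∈ K, (g u : ℤ) ≤ kp j u) →
    (∀ u ∈ K', 1 ≤ g' u) → (∀ u ∈ K', (g' u : ℤ) ≤ kp i u) → ∀ sv w : ℤ,
    SavK2 n vl kp pc i j g g' K K' sv →
    w = ∑ u ∈ K, ((g u : ℤ) + 1) + ∑ u ∈ K', ((g' u : ℤ) + 1) →
    2 * ((be i j + be j i - 1) * R)
      + 2 * ∑ u ∈ K, (R * g u + t j - (if kp j u ≤ (g u : ℤ) then mn j u else 0)
          - ∑ l ∈ (range n).erase i, (nu l u + if l = j then 0 else kp l u * be i l))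
      + 2 * ∑ u ∈ K', (R * g' u + t i - (if kp i u ≤ (g' u : ℤ) then mn i u else 0)
          - ∑ l ∈ (range n).erase j, (nu l u + if l = i then 0 else kp l u * be j l)) + sv
      ≤ 2 * (t i * t j) + 2 * (be i j + be j i) ^ 2 + 2 * ((be i j + be j i) * w)
        + w * (w - 1)

variable {R : ℤ} {n : ℕ} {t : ℕ → ℤ} {U : Finset ι} {ho : ι → ℕ} {vl : ι → ℤ}
  {kp mn : ℕ → ι → ℤ} {be : ℕ → ℕ → ℤ} {pc : ι → ℤ} {nu : ℕ → ι → ℤ}

/-- **the mixed cap of the contract**: all PC pairs of both homes of the cell `{i, j}`, savings `SvC2` -/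
def CapMP2 (R : ℤ) (n : ℕ) (t : ℕ → ℤ) (U : Finset ι) (ho : ι → ℕ) (vl : ι → ℤ)
    (kp mn : ℕ → ι → ℤ) (be : ℕ → ℕ → ℤ) (pc : ι → ℤ) : Prop :=
  ∀ i < n, ∀ j < n, i ≠ j →
    ∀ K ⊆ U, (∀ u ∈ K, ho u = i ∧ pc u = 0) → ∀ K' ⊆ U, (∀ u ∈ K', ho u = j ∧ pc u = 0) →
    ∀ g g' : ι → ℕ, (∀ u ∈ K, 1 ≤ g u) →
    (∀ u ∈ K, (g u : ℤ) ≤ kp j u) → (∀ u ∈ K', 1 ≤ g' u) → (∀ u ∈ K', (g' u : ℤ) ≤ kp i u) →
    ∀ sv : ℤ, SvC2 n vl kp pc i j g g' K K' sv →
    2 * ((be i j + be j i - 1) * R)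
      + 2 * ∑ u ∈ K, (R * g u + t j - msP kp mn j g u
        - ∑ l ∈ ((range n).erase i).erase j, kp l u * be i l)
      + 2 * ∑ u ∈ K', (R * g' u + t i - msP kp mn i g' u
        - ∑ l ∈ ((range n).erase i).erase j, kp l u * be j l)
      + sv
      ≤ 2 * (t i * t j) + 2 * (be i j + be j i) ^ 2
        + 2 * (be i j + be j i) * (∑ u ∈ K, ((g u : ℤ) + 1) + ∑ u ∈ K', ((g' u : ℤ) + 1))
        + (∑ u ∈ K, ((g u : ℤ) + 1) + ∑ u ∈ K', ((g' u : ℤ) + 1))
          * (∑ u ∈ K, ((g u : ℤ) + 1) + ∑ u ∈ K', ((g' u : ℤ) + 1) - 1)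

/-- **the transport to the contract**, no free arcs of the plain items (version [C]) -/
theorem CapM2.pcon (H : CapM2 R n t U ho vl kp mn be pc nu)
    (h0 : ∀ u ∈ U, pc u = 0 → ∀ j < n, nu j u = 0) : CapMP2 R n t U ho vl kp mn be pc := by
  intro i hi j hj hij K hK hKi K' hK' hKj g g' hg1 hg2 hg1' hg2' sv hs
  have h1 := H i hi j hj hij K hK hKi K' hK' hKj g g' hg1 hg2 hg1' hg2' sv _ hs.savK2 rfl
  have key : ∀ {i j : ℕ} {g : ι → ℕ} {K : Finset ι}, i < n → j < n → i ≠ j → K ⊆ U →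
      (∀ u ∈ K, pc u = 0) →
      ∑ u ∈ K, (R * g u + t j - (if kp j u ≤ (g u : ℤ) then mn j u else 0)
          - ∑ l ∈ (range n).erase i, (nu l u + if l = j then 0 else kp l u * be i l))
        = ∑ u ∈ K, (R * g u + t j - msP kp mn j g u
          - ∑ l ∈ ((range n).erase i).erase j, kp l u * be i l) := by
    intro i j g K hi hj hij hK hp
    refine sum_congr rfl fun u hu => ?_
    have h2 : ∑ l ∈ (range n).erase i, (nu l u + if l = j then 0 else kp l u * be i l)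
        = ∑ l ∈ ((range n).erase i).erase j, kp l u * be i l := by
      rw [← add_sum_erase _ _ (mem_erase.2 ⟨Ne.symm hij, mem_range.2 hj⟩),
        h0 u (hK hu) (hp u hu) j hj, if_pos rfl, zero_add, zero_add]
      refine sum_congr rfl fun l hl => ?_
      have hl1 := mem_erase.1 hl
      rw [h0 u (hK hu) (hp u hu) l (mem_range.1 (mem_of_mem_erase hl1.2)), if_neg hl1.1, zero_add]
    rw [h2]
    rfl
  have k1 := key (g := g) hi hj hij hK fun u hu => (hKi u hu).2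
  have k2 := key (g := g') hj hi (Ne.symm hij) hK' fun u hu => (hKj u hu).2
  rw [erase_right_comm] at k2
  rw [k1, k2] at h1
  linarith

end Defs

section SavK2

variable {V : Type*} {G : SimpleGraph V} {Z T : Finset V} {hm : V → V} {r m n p : ℕ}
  {B : V → Finset (V × V)} {Ps : V → Finset (Finset V)}

/-- **the numbers `SavK2` are savings**, concentrated packings -/
theorem WCoreK.savK2 (h : WCoreK G Z T r m n p hm)
    (hpk : ∀ x ∈ T, Pk G (cz G Z T hm x) (hz G Z T hm x) (tlo G T hm) (B x) (Ps x))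
    (hop : ∀ x ∈ T, PkOpt G (cz G Z T hm x) (hz G Z T hm x) (tlo G T hm) sqf (B x) (Ps x))
    {x z : V} (hx : x ∈ T) (hz' : z ∈ T) (hxz : x ≠ z) {K K' : Finset (Itm V)}
    (hK : K ⊆ pkf (B x) (Ps x)) (hK' : K' ⊆ pkf (B z) (Ps z)) {g g' : Itm V → ℕ}
    (hg1 : ∀ u ∈ K, 1 ≤ g u) (hg2 : ∀ u ∈ K, g u ≤ ikp (tlo G T hm) z u)
    (hg1' : ∀ u ∈ K', 1 ≤ g' u) (hg2' : ∀ u ∈ K', g' u ≤ ikp (tlo G T hm) x u)
    {cl : Itm V → ℕ} {M : ℕ} (q : ℕ → ℤ) (I : ℕ → Finset V)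
    (hI : ∀ u ∈ K, q (cl u) ≠ 0 → x ∈ I (cl u)
      ∧ ∀ l, ikp (tlo G T hm) l u ≠ 0 → l ∈ I (cl u))
    (hI' : ∀ u ∈ K', q (cl u) ≠ 0 → z ∈ I (cl u)
      ∧ ∀ l, ikp (tlo G T hm) l u ≠ 0 → l ∈ I (cl u)) :
    (NE G (cpl G (cz G Z T hm) (tlo G T hm) g K x z
          ∪ cpl G (cz G Z T hm) (tlo G T hm) g' K' z x) : ℤ)
      + (∑ c ∈ range M, (2 * q c * (∑ u ∈ K.filter (fun u => cl u = c), ((g u : ℤ) + 1 - ipc u)
            + ∑ u ∈ K'.filter (fun u => cl u = c), ((g' u : ℤ) + 1 - ipc u))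
          - (I c).card * (q c * (q c + 1)))
        + 2 * (((K ×ˢ K).filter fun e => e.1 ≠ e.2 ∧ cl e.1 ≠ cl e.2
            ∧ g e.1 = ivl e.1 ∧ g e.2 = ivl e.2 ∧ ipc e.1 = 0 ∧ ipc e.2 = 0).card
          + ((K' ×ˢ K').filter fun e => e.1 ≠ e.2 ∧ cl e.1 ≠ cl e.2
            ∧ g' e.1 = ivl e.1 ∧ g' e.2 = ivl e.2 ∧ ipc e.1 = 0 ∧ ipc e.2 = 0).card))
      + (cpl G (cz G Z T hm) (tlo G T hm) g K x z
          ∪ cpl G (cz G Z T hm) (tlo G T hm) g' K' z x).card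
      ≤ ((cpl G (cz G Z T hm) (tlo G T hm) g K x z
          ∪ cpl G (cz G Z T hm) (tlo G T hm) g' K' z x).card : ℤ)
        * (cpl G (cz G Z T hm) (tlo G T hm) g K x z
          ∪ cpl G (cz G Z T hm) (tlo G T hm) g' K' z x).card := by
  have hfam : ∀ x ∈ T, Fam (co G) (cz G Z T hm) (hz G Z T hm) (tlo G T hm) x
      (pkf (B x) (Ps x)) := fun x hx => (hpk x hx).fam (h.csys.dCH hx hx).symm
  have hk : ∀ u ∈ K, ikp (tlo G T hm) z u ≠ 0 := by
    intro u hu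
    have := hg1 u hu
    have := hg2 u hu
    omega
  have hk' : ∀ u ∈ K', ikp (tlo G T hm) x u ≠ 0 := by
    intro u hu
    have := hg1' u hu
    have := hg2' u hu
    omega
  -- one home
  have key : ∀ (x z : V), x ∈ T → z ∈ T → ∀ (K : Finset (Itm V)) (g : Itm V → ℕ),
      K ⊆ pkf (B x) (Ps x) → (∀ u ∈ K, 1 ≤ g u) → (∀ u ∈ K, g u ≤ ikp (tlo G T hm) z u) →
      (∀ u ∈ K, ikp (tlo G T hm) z u ≠ 0) →
      (cpl G (cz G Z T hm) (tlo G T hm) g K x z
        = K.biUnion fun u => cpl G (cz G Z T hm) (tlo G T hm) g {u} x z) ∧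
      (∀ u ∈ K, ∀ v ∈ K, u ≠ v → Disjoint (cpl G (cz G Z T hm) (tlo G T hm) g {u} x z)
        (cpl G (cz G Z T hm) (tlo G T hm) g {v} x z)) ∧
      (∀ u ∈ K, ((cpl G (cz G Z T hm) (tlo G T hm) g {u} x z).card : ℤ) = (g u : ℤ) + 1 - ipc u) ∧
      (∀ u ∈ K, ∀ v ∈ cpl G (cz G Z T hm) (tlo G T hm) g {u} x z, v ∈ hz G Z T hm x) ∧
      (∀ u ∈ K, ∀ v ∈ cpl G (cz G Z T hm) (tlo G T hm) g {u} x z,
        v ∈ Z ∧ ∀ I : Finset V, x ∈ I → (∀ l, ikp (tlo G T hm) l u ≠ 0 → l ∈ I) →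
          rws G T v ⊆ I) ∧
      (∀ u ∈ K, ∀ v ∈ K, u ≠ v → g u = ivl u → g v = ivl v → ipc u = 0 → ipc v = 0 →
        2 ≤ ((cpl G (cz G Z T hm) (tlo G T hm) g {u} x z
          ×ˢ cpl G (cz G Z T hm) (tlo G T hm) g {v} x z).filter fun f => G.Adj f.1 f.2).card) := by
    intro x z hx hz K g hK hg1 hg2 hk
    have hone : ∀ u, cpl G (cz G Z T hm) (tlo G T hm) g {u} x z
        = rpts (tlo G T hm) (xlv G (cz G Z T hm) (tlo G T hm) z g) z u \ cz G Z T hm x := by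
      intro u
      unfold cpl
      rw [singleton_biUnion]
    have hsub : ∀ u ∈ K, ({u} : Finset (Itm V)) ⊆ pkf (B x) (Ps x) := fun u hu =>
      singleton_subset_iff.2 (hK hu)
    refine ⟨?_, ?_, ?_, ?_, ?_, ?_⟩
    · simp only [hone]
      unfold cpl
      ext v
      simp only [mem_sdiff, mem_biUnion]
      constructor
      · rintro ⟨⟨u, hu, hv⟩, hv'⟩
        exact ⟨u, hu, hv, hv'⟩
      · rintro ⟨u, hu, hv, hv'⟩
        exact ⟨⟨u, hu, hv⟩, hv'⟩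
    · intro u hu v hv huv
      rw [hone, hone]
      exact ((Fam.dis_row h.wsysT hfam hx hx (hK hu) (hK hv) huv (hk u hu) (hk v hv)).mono
        ((hfam x hx).rpts_sub fun Q => xlv_sub)
        ((hfam x hx).rpts_sub fun Q => xlv_sub)).mono sdiff_subset sdiff_subset
    · intro u hu
      have h1 := (Fam.own_sumsL h.F.toPFrame h.hh h.csys h.wsysT hfam hx (hsub u hu) (z := z)
        (g := g) (fun v hv => by rw [mem_singleton.1 hv]; exact hg1 u hu)
        (fun v hv => by rw [mem_singleton.1 hv]; exact hg2 u hu)).1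
      rw [sum_singleton] at h1
      exact h1
    · intro u hu v hv
      exact (Fam.cpl_mem h.wsysT hfam hx (hsub u hu) hv).1
    · intro u hu v hv
      obtain ⟨c1, w, hw, c2⟩ := Fam.cpl_mem h.wsysT hfam hx (hsub u hu) hv
      rw [mem_singleton.1 hw] at c2
      refine ⟨h.csys.subZ hx (HP_sub c1), fun I hxI hI => ?_⟩
      have h8 : rws G T v = {x, tlo G T hm v} := h.csys.rws_HP h.hh hx c1
      rw [h8]
      intro j hj
      rcases mem_insert.1 hj with h9 | h9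
      · exact h9 ▸ hxI
      · rw [mem_singleton.1 h9]
        exact hI _ c2
    · intro u hu v hv huv hgu hgv hpu hpv
      have hfull : ∀ u ∈ K, g u = ivl u → ikp (tlo G T hm) z u = ivl u := fun u hu h1 =>
        le_antisymm ikp_le_ivl (h1 ▸ hg2 u hu)
      have hful2 : ∀ u ∈ K, g u = ivl u →
          rpts (tlo G T hm) (xlv G (cz G Z T hm) (tlo G T hm) z g) z u = ipts u := by
        intro u hu h1
        have h2 := rpts_full (X := xmn G (cz G Z T hm) (tlo G T hm) z) (fun Q => xmn_sub)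
          (fun Q hQ => by rw [xmn_card hQ]) (fun Q hQ => (hfam x hx).two Q (hQ ▸ hK hu))
          (hfull u hu h1)
        rw [← h2]
        rcases u with Q | e
        · have h3 : ikp (tlo G T hm) z (Sum.inl Q : Itm V) ≤ g (Sum.inl Q) := by
            rw [hfull _ hu h1, h1]
          simp only [rpts, xlv, h3, if_true]
        · rfl
      have hout : ∀ w ∈ K, ipc w = 0 → ∀ p ∈ ipts w, p ∉ cz G Z T hm x := by
        intro w hw hw0 p hp hpj
        rcases w with Q | f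
        · exact disjoint_left.1 (h.csys.dCH hx hx) hpj ((hfam x hx).sub Q (hK hw) hp)
        · simp [ipc] at hw0
      rw [hone, hone, hful2 _ hu hgu, hful2 _ hv hgv, sdiff_eq_self_of_disjoint, sdiff_eq_self_of_disjoint]
      · rcases u with P | e
        · rcases v with Q | e
          · exact (hop x hx).two (inl_mem_pkf.1 (hK hu)).1 (inl_mem_pkf.1 (hK hv)).1
              (fun h1 => huv (congrArg Sum.inl (show P = Q from h1))) (inl_mem_pkf.1 (hK hu)).2 (inl_mem_pkf.1 (hK hv)).2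
          · simp [ipc] at hpv
        · simp [ipc] at hpu
      · exact disjoint_left.2 fun p hp => hout v hv hpv p hp
      · exact disjoint_left.2 fun p hp => hout u hu hpu p hp
  obtain ⟨a1, a2, a3, a4, a5, a6⟩ := key x z hx hz' K g hK hg1 hg2 hk
  obtain ⟨b1, b2, b3, b4, b5, b6⟩ := key z x hz' hx K' g' hK' hg1' hg2' hk'
  have hKK : ∀ u ∈ K, u ∉ K' := by
    intro u hu hu'
    have hd := h.wsysT.dHH x hx z hz' hxz
    rcases u with Q | e
    · have h2 := (hfam x hx).two Q (hK hu)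
      obtain ⟨v, hv⟩ : Q.Nonempty := card_pos.1 (by omega)
      exact disjoint_left.1 hd ((hfam x hx).sub Q (hK hu) hv) ((hfam z hz').sub Q (hK' hu') hv)
    · exact disjoint_left.1 hd ((hfam x hx).pcH e (hK hu)) ((hfam z hz').pcH e (hK' hu'))
  obtain ⟨P, hP⟩ : ∃ P : Itm V → Finset V, P = fun u =>
      if u ∈ K then cpl G (cz G Z T hm) (tlo G T hm) g {u} x z
      else cpl G (cz G Z T hm) (tlo G T hm) g' {u} z x := ⟨_, rfl⟩
  have hP1 : ∀ u ∈ K, P u = cpl G (cz G Z T hm) (tlo G T hm) g {u} x z := fun u hu => by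
    rw [hP]
    simp only [hu, if_true]
  have hP2 : ∀ u ∈ K', P u = cpl G (cz G Z T hm) (tlo G T hm) g' {u} z x := fun u hu => by
    have h1 : u ∉ K := fun h1 => hKK u h1 hu
    rw [hP]
    simp only [h1, if_false]
  have hun : cpl G (cz G Z T hm) (tlo G T hm) g K x z ∪ cpl G (cz G Z T hm) (tlo G T hm) g' K' z x
      = (K ∪ K').biUnion P := by
    rw [a1, b1, union_biUnion, biUnion_congr rfl hP1, biUnion_congr rfl hP2]
  have hdis : ∀ u ∈ K ∪ K', ∀ v ∈ K ∪ K', u ≠ v → Disjoint (P u) (P v) := by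
    have hmix : ∀ u ∈ K, ∀ v ∈ K', Disjoint (P u) (P v) := by
      intro u hu v hv
      rw [hP1 u hu, hP2 v hv, disjoint_left]
      intro w hw hw'
      exact disjoint_left.1 (h.wsysT.dHH x hx z hz' hxz) (a4 u hu w hw) (b4 v hv w hw')
    intro u hu v hv huv
    rcases mem_union.1 hu with h1 | h1 <;> rcases mem_union.1 hv with h2 | h2
    · rw [hP1 u h1, hP1 v h2]
      exact a2 u h1 v h2 huv
    · exact hmix u h1 v h2
    · exact (hmix v h2 u h1).symm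
    · rw [hP2 u h1, hP2 v h2]
      exact b2 u h1 v h2 huv
  obtain ⟨D, hD⟩ : ∃ D, D = (K ×ˢ K).filter fun e => e.1 ≠ e.2 ∧ cl e.1 ≠ cl e.2
            ∧ g e.1 = ivl e.1 ∧ g e.2 = ivl e.2 ∧ ipc e.1 = 0 ∧ ipc e.2 = 0 := ⟨_, rfl⟩
  obtain ⟨D', hD'⟩ : ∃ D', D' = (K' ×ˢ K').filter fun e => e.1 ≠ e.2 ∧ cl e.1 ≠ cl e.2
            ∧ g' e.1 = ivl e.1 ∧ g' e.2 = ivl e.2 ∧ ipc e.1 = 0 ∧ ipc e.2 = 0 := ⟨_, rfl⟩
  have hDc : (D ∪ D').card = D.card + D'.card := by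
    refine card_union_of_disjoint (disjoint_left.2 fun e he he' => ?_)
    rw [hD] at he
    rw [hD'] at he'
    exact hKK _ (mem_product.1 (mem_filter.1 he).1).1 (mem_product.1 (mem_filter.1 he').1).1
  have h1 := NE_cls_le2 (G := G) (K := K ∪ K') (P := P) hdis (cl := cl) (M := M) (D := D ∪ D')
    (fun e he => by
      rcases mem_union.1 he with h2 | h2
      · rw [hD] at h2
        obtain ⟨h3, h4, h5, h6, h7, h8, h9⟩ := mem_filter.1 h2
        obtain ⟨ha, hb⟩ := mem_product.1 h3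
        refine ⟨mem_union_left _ ha, mem_union_left _ hb, h5, ?_⟩
        rw [hP1 _ ha, hP1 _ hb]
        exact a6 _ ha _ hb h4 h6 h7 h8 h9
      · rw [hD'] at h2
        obtain ⟨h3, h4, h5, h6, h7, h8, h9⟩ := mem_filter.1 h2
        obtain ⟨ha, hb⟩ := mem_product.1 h3
        refine ⟨mem_union_right _ ha, mem_union_right _ hb, h5, ?_⟩
        rw [hP2 _ ha, hP2 _ hb]
        exact b6 _ ha _ hb h4 h6 h7 h8 h9)
  have h2 : ∀ c ∈ range M, 2 * q c * (∑ u ∈ K.filter (fun u => cl u = c), ((g u : ℤ) + 1 - ipc u)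
            + ∑ u ∈ K'.filter (fun u => cl u = c), ((g' u : ℤ) + 1 - ipc u))
          - (I c).card * (q c * (q c + 1))
      ≤ (E G (((K ∪ K').filter fun u => cl u = c).biUnion P) : ℤ) := by
    intro c _
    by_cases hq : q c = 0
    · rw [hq]
      simp
    have e1 : (K ∪ K').filter (fun u => cl u = c)
        = K.filter (fun u => cl u = c) ∪ K'.filter (fun u => cl u = c) := filter_union _ _ _
    have e2 : ((((K ∪ K').filter fun u => cl u = c).biUnion P).card : ℤ)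
        = ∑ u ∈ K.filter (fun u => cl u = c), ((g u : ℤ) + 1 - ipc u)
          + ∑ u ∈ K'.filter (fun u => cl u = c), ((g' u : ℤ) + 1 - ipc u) := by
      rw [card_biUnion fun u hu v hv huv => hdis u (mem_filter.1 hu).1 v (mem_filter.1 hv).1 huv]
      push_cast
      rw [e1, sum_union]
      · refine congrArg₂ (· + ·) (sum_congr rfl fun u hu => ?_) (sum_congr rfl fun u hu => ?_)
        · rw [hP1 u (mem_filter.1 hu).1]
          exact a3 u (mem_filter.1 hu).1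
        · rw [hP2 u (mem_filter.1 hu).1]
          exact b3 u (mem_filter.1 hu).1
      · rw [disjoint_left]
        intro u hu hu'
        exact hKK u (mem_filter.1 hu).1 (mem_filter.1 hu').1
    have h4 := E_add_NE (G := G) (((K ∪ K').filter fun u => cl u = c).biUnion P)
    have hmem : ∀ v ∈ ((K ∪ K').filter fun u => cl u = c).biUnion P, v ∈ Z ∧ rws G T v ⊆ I c := by
      intro v hv
      obtain ⟨u, hu, hvu⟩ := mem_biUnion.1 hv
      obtain ⟨huL, huc⟩ := mem_filter.1 hu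
      rcases mem_union.1 huL with h5 | h5
      · rw [hP1 u h5] at hvu
        obtain ⟨c1, c2⟩ := a5 u h5 v hvu
        obtain ⟨i1, i2⟩ := hI u h5 (by rw [huc]; exact hq)
        rw [huc] at i1 i2
        exact ⟨c1, c2 _ i1 i2⟩
      · rw [hP2 u h5] at hvu
        obtain ⟨c1, c2⟩ := b5 u h5 v hvu
        obtain ⟨i1, i2⟩ := hI' u h5 (by rw [huc]; exact hq)
        rw [huc] at i1 i2
        exact ⟨c1, c2 _ i1 i2⟩
    have h5 := h.F.toPFrame.NE_rows (I := I c) (fun v hv => (hmem v hv).1)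
      (fun v hv => (hmem v hv).2) (q c)
    rw [e2] at h5 h4
    linarith
  have h3 := sum_le_sum h2
  rw [hun, ← hD, ← hD']
  rw [hDc] at h1
  push_cast at h1 ⊢
  linarith

end SavK2

section Tr2

variable {V : Type*} {G : SimpleGraph V} {Z T : Finset V} {hm : V → V} {r m n p : ℕ}
  {B : V → Finset (V × V)}
  {Ps : V → Finset (Finset V)} {host : Itm V → V} {ρ : V → ℕ} {σ : ℕ → V}

/-- **the cell test for all items at any levels**, concentrated packings, saving `sv` (`SavK2`) -/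
theorem WCoreK.cellLU2 (hp : 2 * r ≤ p) (h : WCoreK G Z T r m n p hm)
    (hpk : ∀ x ∈ T, Pk G (cz G Z T hm x) (hz G Z T hm x) (tlo G T hm) (B x) (Ps x))
    (hmin : ∀ x ∈ T, ∀ B' Ps', Pk G (cz G Z T hm x) (hz G Z T hm x) (tlo G T hm) B' Ps' →
      (Ps x).card ≤ Ps'.card)
    (hop : ∀ x ∈ T, PkOpt G (cz G Z T hm x) (hz G Z T hm x) (tlo G T hm) sqf (B x) (Ps x))
    (hst : ∀ x ∈ T, ∀ u ∈ pkf (B x) (Ps x), host u = x)
    (rk : Rank T (tI G Z T hm r Z) ρ σ) {i j : ℕ} (hi : i < n) (hj : j < n) (hij : i ≠ j)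
    {K K' : Finset (Itm V)} (hK : K ⊆ T.biUnion fun x => pkf (B x) (Ps x))
    (hKi : ∀ u ∈ K, ρ (host u) = i) (hK' : K' ⊆ T.biUnion fun x => pkf (B x) (Ps x))
    (hKj : ∀ u ∈ K', ρ (host u) = j) {g g' : Itm V → ℕ} (hg1 : ∀ u ∈ K, 1 ≤ g u)
    (hg2 : ∀ u ∈ K, (g u : ℤ) ≤ (ikp (tlo G T hm) (σ j) u : ℤ)) (hg1' : ∀ u ∈ K', 1 ≤ g' u)
    (hg2' : ∀ u ∈ K', (g' u : ℤ) ≤ (ikp (tlo G T hm) (σ i) u : ℤ)) {EX sv : ℤ}
    (hE : RecC (T.biUnion fun x => pkf (B x) (Ps x)) (fun u => ρ (host u))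
      (fun u => (ivl u : ℤ)) (fun i u => (ikp (tlo G T hm) (σ i) u : ℤ))
      (fun i u => (ims G (cz G Z T hm) (tlo G T hm) (σ i) u : ℤ)) (fun u => (ipc u : ℤ))
      (fun u => (iar G (cz G Z T hm (host u)) u : ℤ))
      (fun j u => (nui G (cz G Z T hm (host u)) (tlo G T hm) (B (host u)) (σ j) u : ℤ)) i j
      (∑ u ∈ K, (ipc u : ℤ)) (∑ u ∈ K', (ipc u : ℤ)) EX)
    (hs : SavK2 n (fun u => (ivl u : ℤ)) (fun i u => (ikp (tlo G T hm) (σ i) u : ℤ))
      (fun u => (ipc u : ℤ)) i j g g' K K' sv) :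
    2 * ∑ u ∈ K, (((r : ℤ) - 1) * g u + (1 - (ipc u : ℤ)) * tI G Z T hm r Z (σ j)
          - (if (ikp (tlo G T hm) (σ j) u : ℤ) ≤ (g u : ℤ)
            then (imn G (cz G Z T hm) (tlo G T hm) (σ j) u : ℤ) else 0)
          - (iar G (cz G Z T hm (host u)) u : ℤ))
      + 2 * ∑ u ∈ K', (((r : ℤ) - 1) * g' u + (1 - (ipc u : ℤ)) * tI G Z T hm r Z (σ i)
          - (if (ikp (tlo G T hm) (σ i) u : ℤ) ≤ (g' u : ℤ)
            then (imn G (cz G Z T hm) (tlo G T hm) (σ i) u : ℤ) else 0)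
          - (iar G (cz G Z T hm (host u)) u : ℤ))
      + 2 * EX + sv
      ≤ 2 * ((r : ℤ) - 1 + tI G Z T hm r Z (σ i) * tI G Z T hm r Z (σ j))
        + (∑ u ∈ K, ((g u : ℤ) + 1 - ipc u) + ∑ u ∈ K', ((g' u : ℤ) + 1 - ipc u))
          * (∑ u ∈ K, ((g u : ℤ) + 1 - ipc u) + ∑ u ∈ K', ((g' u : ℤ) + 1 - ipc u) - 1)
        + 2 * (∑ u ∈ K, (ipc u : ℤ)) * ∑ u ∈ K', (ipc u : ℤ) := by
  have hcard := h.toWHom.cardT
  have hfam : ∀ x ∈ T, Fam (co G) (cz G Z T hm) (hz G Z T hm) (tlo G T hm) x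
      (pkf (B x) (Ps x)) := fun x hx => (hpk x hx).fam (h.csys.dCH hx hx).symm
  have hmem : ∀ i < n, σ i ∈ T := fun i hi => rk.mem i (by rw [hcard]; exact hi)
  have hne : σ i ≠ σ j := fun h1 =>
    hij (rk.sinj (by rw [hcard]; exact hi) (by rw [hcard]; exact hj) h1)
  have hown : ∀ u ∈ T.biUnion (fun x => pkf (B x) (Ps x)), ∀ l < n, ρ (host u) = l →
      u ∈ pkf (B (σ l)) (Ps (σ l)) ∧ host u = σ l := by
    intro u hu l hl hul
    obtain ⟨x, hx, hux⟩ := mem_biUnion.1 hu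
    have h1 := hst x hx u hux
    have h2 : σ l = x := by
      rw [← hul, h1]
      exact rk.left x hx
    rw [h2, h1]
    exact ⟨hux, rfl⟩
  have a1 : K ⊆ pkf (B (σ i)) (Ps (σ i)) := fun u hu => (hown u (hK hu) i hi (hKi u hu)).1
  have a2 : K' ⊆ pkf (B (σ j)) (Ps (σ j)) := fun u hu => (hown u (hK' hu) j hj (hKj u hu)).1
  have b1 : ∀ u ∈ K, g u ≤ ikp (tlo G T hm) (σ j) u := fun u hu => by exact_mod_cast hg2 u hu
  have b2 : ∀ u ∈ K', g' u ≤ ikp (tlo G T hm) (σ i) u := fun u hu => by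
    exact_mod_cast hg2' u hu
  have c1 : ∀ u ∈ K, ikp (tlo G T hm) (σ j) u ≠ 0 := fun u hu => by
    have := hg1 u hu
    have := b1 u hu
    omega
  have c2 : ∀ u ∈ K', ikp (tlo G T hm) (σ i) u ≠ 0 := fun u hu => by
    have := hg1' u hu
    have := b2 u hu
    omega
  have hcardC : ∀ i, ((cz G Z T hm (σ i)).card : ℤ) = (r : ℤ) - 1 - tI G Z T hm r Z (σ i) :=
    fun i => card_CP_eq Z (σ i)
  obtain ⟨d1, -, d3⟩ := Fam.own_sumsL h.F.toPFrame h.hh h.csys h.wsysT hfam (hmem i hi) a1 hg1 b1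
  obtain ⟨f1, -, f3⟩ := Fam.own_sumsL h.F.toPFrame h.hh h.csys h.wsysT hfam (hmem j hj) a2 hg1' b2
  -- the class edges
  have hEX : EX ≤ ∑ c ∈ cz G Z T hm (σ j)
        \ cql G (cz G Z T hm) (tlo G T hm) g' K' (σ j) (σ i),
      (dg G (cz G Z T hm (σ i) \ cql G (cz G Z T hm) (tlo G T hm) g K (σ i) (σ j)) c : ℤ) := by
    have d4 : ((cql G (cz G Z T hm) (tlo G T hm) g K (σ i) (σ j)).card : ℤ)
        ≤ ∑ u ∈ K, (ipc u : ℤ) := d3
    have f4 : ((cql G (cz G Z T hm) (tlo G T hm) g' K' (σ j) (σ i)).card : ℤ)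
        ≤ ∑ u ∈ K', (ipc u : ℤ) := f3
    rcases hE with hE | ⟨w, hw, hE⟩ | ⟨w, hw, hw1, hw2, hw3, hE⟩ | ⟨w, hw, hw1, hw2, hw3, hE⟩
    · exact hE.trans (sum_nonneg fun _ _ => Nat.cast_nonneg _)
    · obtain ⟨y, hy, hwy⟩ := mem_biUnion.1 hw
      exact hE.trans (h.exItem hpk (hmem i hi) (hmem j hj) hne d4 f4 hy hwy)
    · obtain ⟨g1, g2⟩ := hown w hw i hi hw1
      have hw2' : ivl w = 1 := by
        beta_reduce at hw2
        exact_mod_cast hw2
      have hw3' : ikp (tlo G T hm) (σ j) w ≠ 0 := fun h1 => hw3 (by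
        show (ikp (tlo G T hm) (σ j) w : ℤ) = 0
        rw [h1]
        rfl)
      obtain ⟨v, v1, v2, v3, v4, v5⟩ := h.rep3L hp (hmem i hi) (hpk _ (hmem i hi))
        (hmin _ (hmem i hi)) g1 hw2' hw3'
      have h2 := h.exMem (hmem i hi) (hmem j hj) hne
        (F := frC G (cz G Z T hm (σ i)) (tlo G T hm) (B (σ i)) v) d4 f4 v1 v2
        (fun a ha => by
          obtain ⟨h5, h6, -⟩ := mem_frC.1 ha
          exact (h.mem_msd (hmem i hi) (hmem i hi) v1).2 ⟨h5, h6⟩)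
        (by
          rw [disjoint_left]
          intro a ha ha'
          obtain ⟨h5, h6⟩ := mem_inter.1 ha'
          obtain ⟨u, hu, h7⟩ := mem_biUnion.1 h6
          obtain ⟨e, rfl, h8, h9, -⟩ := Fam.cls_pt h.wsysT hfam (hmem i hi) (hmem i hi) (a1 hu)
            (c1 u hu) (fun Q => xlv_sub) h7 h5
          exact (mem_frC.1 ha).2.2 e (inr_mem_pkf.1 (a1 hu)) h8 (h9.trans v2.symm)) v4 v5
      refine hE.trans (le_trans (le_of_eq ?_) h2)
      beta_reduce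
      rw [g2, v3]
    · obtain ⟨g1, g2⟩ := hown w hw j hj hw1
      have hw2' : ivl w = 1 := by
        beta_reduce at hw2
        exact_mod_cast hw2
      have hw3' : ikp (tlo G T hm) (σ i) w ≠ 0 := fun h1 => hw3 (by
        show (ikp (tlo G T hm) (σ i) w : ℤ) = 0
        rw [h1]
        rfl)
      obtain ⟨v, v1, v2, v3, v4, v5⟩ := h.rep3L hp (hmem j hj) (hpk _ (hmem j hj))
        (hmin _ (hmem j hj)) g1 hw2' hw3'
      have h2 := h.exMem' (hmem i hi) (hmem j hj) hne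
        (F := frC G (cz G Z T hm (σ j)) (tlo G T hm) (B (σ j)) v) d4 f4 v1 v2
        (fun a ha => by
          obtain ⟨h5, h6, -⟩ := mem_frC.1 ha
          exact (h.mem_msd (hmem j hj) (hmem j hj) v1).2 ⟨h5, h6⟩)
        (by
          rw [disjoint_left]
          intro a ha ha'
          obtain ⟨h5, h6⟩ := mem_inter.1 ha'
          obtain ⟨u, hu, h7⟩ := mem_biUnion.1 h6
          obtain ⟨e, rfl, h8, h9, -⟩ := Fam.cls_pt h.wsysT hfam (hmem j hj) (hmem j hj) (a2 hu)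
            (c2 u hu) (fun Q => xlv_sub) h7 h5
          exact (mem_frC.1 ha).2.2 e (inr_mem_pkf.1 (a2 hu)) h8 (h9.trans v2.symm)) v4 v5
      refine hE.trans (le_trans (le_of_eq ?_) h2)
      beta_reduce
      rw [g2, v3]
  -- the saving
  have dW : Disjoint (cpl G (cz G Z T hm) (tlo G T hm) g K (σ i) (σ j))
      (cpl G (cz G Z T hm) (tlo G T hm) g' K' (σ j) (σ i)) := by
    rw [disjoint_left]
    intro v hv hv'
    exact disjoint_left.1 (h.wsysT.dHH _ (hmem i hi) _ (hmem j hj) hne)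
      (Fam.cpl_mem h.wsysT hfam (hmem i hi) a1 hv).1 (Fam.cpl_mem h.wsysT hfam (hmem j hj) a2 hv').1
  have hsv : (NE G (cpl G (cz G Z T hm) (tlo G T hm) g K (σ i) (σ j)
          ∪ cpl G (cz G Z T hm) (tlo G T hm) g' K' (σ j) (σ i)) : ℤ) + sv
        + (cpl G (cz G Z T hm) (tlo G T hm) g K (σ i) (σ j)
          ∪ cpl G (cz G Z T hm) (tlo G T hm) g' K' (σ j) (σ i)).card
      ≤ ((cpl G (cz G Z T hm) (tlo G T hm) g K (σ i) (σ j)
          ∪ cpl G (cz G Z T hm) (tlo G T hm) g' K' (σ j) (σ i)).card : ℤ)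
        * (cpl G (cz G Z T hm) (tlo G T hm) g K (σ i) (σ j)
          ∪ cpl G (cz G Z T hm) (tlo G T hm) g' K' (σ j) (σ i)).card := by
    obtain ⟨cl, M, q, I, hIn, hI, hI', hs⟩ := hs
    beta_reduce at hs hI hI'
    have hT : ∀ x ∈ T, ∀ u ∈ pkf (B x) (Ps x), ∀ y, ikp (tlo G T hm) y u ≠ 0 →
        ρ y < n ∧ σ (ρ y) = y := by
      intro x hx u hu y hy
      obtain ⟨v, hv, hvy⟩ := ikp_ne_tail (fun Q hQ => (hfam x hx).two Q (hQ ▸ hu)) hy
      have hvH : v ∈ hz G Z T hm x := by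
        rcases u with Q | e
        · exact (hfam x hx).sub Q hu hv
        · simp only [imem, mem_singleton] at hv
          exact hv ▸ (hfam x hx).pcH e hu
      have h5 := mem_of_mem_erase (h.toWHom.ht x hx v hvH)
      rw [hvy] at h5
      exact ⟨by rw [← hcard]; exact rk.lt y h5, rk.left y h5⟩
    have h3 := h.savK2 hpk hop (hmem i hi) (hmem j hj) hne a1 a2 hg1 b1 hg1' b2 (cl := cl) (M := M)
      q (fun c => (I c).image σ) (fun u hu hq => by
        obtain ⟨c3, c4⟩ := hI u hu hq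
        refine ⟨mem_image_of_mem σ c3, fun y hy => ?_⟩
        obtain ⟨b3, b4⟩ := hT _ (hmem i hi) u (a1 hu) y hy
        refine mem_image.2 ⟨ρ y, c4 (ρ y) b3 ?_, b4⟩
        rw [b4]
        exact_mod_cast hy) (fun u hu hq => by
        obtain ⟨c3, c4⟩ := hI' u hu hq
        refine ⟨mem_image_of_mem σ c3, fun y hy => ?_⟩
        obtain ⟨b3, b4⟩ := hT _ (hmem j hj) u (a2 hu) y hy
        refine mem_image.2 ⟨ρ y, c4 (ρ y) b3 ?_, b4⟩
        rw [b4]
        exact_mod_cast hy)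
    have e1 : ∀ c, ((I c).image σ).card = (I c).card := fun c => rk.card_image (by
      rw [hcard]
      exact hIn c)
    simp only [e1] at h3
    refine le_trans (add_le_add (add_le_add le_rfl (hs.trans (le_of_eq ?_))) le_rfl) h3
    refine congrArg₂ (· + ·) rfl (congrArg (fun a : ℤ => 2 * a) (congrArg₂ (· + ·)
      (congrArg (fun s : Finset (Itm V × Itm V) => (s.card : ℤ)) ?_)
      (congrArg (fun s : Finset (Itm V × Itm V) => (s.card : ℤ)) ?_)))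
    · exact Finset.ext fun e => by simp only [mem_filter, Nat.cast_inj, Nat.cast_eq_zero]
    · exact Finset.ext fun e => by simp only [mem_filter, Nat.cast_inj, Nat.cast_eq_zero]
  have hkey := Fam.cellL h.F.toPFrame h.hh h.gp.P h.csys h.wsysT hfam (hmem i hi) (hmem j hj)
    hne a1 a2 hg1 b1 hg1' b2 hEX hsv
  have e0 : ∀ k, ∀ g : Itm V → ℕ, ∀ u : Itm V,
      (if (ikp (tlo G T hm) (σ k) u : ℤ) ≤ (g u : ℤ)
          then (imn G (cz G Z T hm) (tlo G T hm) (σ k) u : ℤ) else 0)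
      = (ilm G (cz G Z T hm) (tlo G T hm) (σ k) g u : ℤ) := by
    intro k g u
    unfold ilm
    by_cases h5 : ikp (tlo G T hm) (σ k) u ≤ g u
    · have h6 : (ikp (tlo G T hm) (σ k) u : ℤ) ≤ (g u : ℤ) := by exact_mod_cast h5
      rw [if_pos h5, if_pos h6]
    · have h6 : ¬ (ikp (tlo G T hm) (σ k) u : ℤ) ≤ (g u : ℤ) := fun h7 =>
        h5 (by exact_mod_cast h7)
      rw [if_neg h5, if_neg h6]
      rfl
  have e1 : (r : ℤ) - 1 - (cz G Z T hm (σ i)).card = tI G Z T hm r Z (σ i) := by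
    rw [hcardC]
    ring
  have e2 : (r : ℤ) - 1 - (cz G Z T hm (σ j)).card = tI G Z T hm r Z (σ j) := by
    rw [hcardC]
    ring
  rw [e1, e2] at hkey
  have e3 : ∑ u ∈ K, (((r : ℤ) - 1) * g u + (1 - (ipc u : ℤ)) * tI G Z T hm r Z (σ j)
        - (if (ikp (tlo G T hm) (σ j) u : ℤ) ≤ (g u : ℤ)
          then (imn G (cz G Z T hm) (tlo G T hm) (σ j) u : ℤ) else 0)
        - (iar G (cz G Z T hm (host u)) u : ℤ))
      = ∑ u ∈ K, (((r : ℤ) - 1) * g u + (1 - (ipc u : ℤ)) * tI G Z T hm r Z (σ j)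
        - (ilm G (cz G Z T hm) (tlo G T hm) (σ j) g u : ℤ)
        - (iar G (cz G Z T hm (σ i)) u : ℤ)) :=
    sum_congr rfl fun u hu => by rw [e0, (hown u (hK hu) i hi (hKi u hu)).2]
  have e4 : ∑ u ∈ K', (((r : ℤ) - 1) * g' u + (1 - (ipc u : ℤ)) * tI G Z T hm r Z (σ i)
        - (if (ikp (tlo G T hm) (σ i) u : ℤ) ≤ (g' u : ℤ)
          then (imn G (cz G Z T hm) (tlo G T hm) (σ i) u : ℤ) else 0)
        - (iar G (cz G Z T hm (host u)) u : ℤ))
      = ∑ u ∈ K', (((r : ℤ) - 1) * g' u + (1 - (ipc u : ℤ)) * tI G Z T hm r Z (σ i)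
        - (ilm G (cz G Z T hm) (tlo G T hm) (σ i) g' u : ℤ)
        - (iar G (cz G Z T hm (σ j)) u : ℤ)) :=
    sum_congr rfl fun u hu => by rw [e0, (hown u (hK' hu) j hj (hKj u hu)).2]
  rw [e3, e4]
  exact hkey

/-- **the transport of the mixed cells**, concentrated packings -/
theorem WCoreK.capM2 (hp : 2 * r ≤ p) (h : WCoreK G Z T r m n p hm)
    (hpk : ∀ x ∈ T, Pk G (cz G Z T hm x) (hz G Z T hm x) (tlo G T hm) (B x) (Ps x))
    (hop : ∀ x ∈ T, PkOpt G (cz G Z T hm x) (hz G Z T hm x) (tlo G T hm) sqf (B x) (Ps x))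
    (hst : ∀ x ∈ T, ∀ u ∈ pkf (B x) (Ps x), host u = x)
    (rk : Rank T (tI G Z T hm r Z) ρ σ) :
    CapM2 ((r : ℤ) - 1) n (fun i => tI G Z T hm r Z (σ i)) (T.biUnion fun x => pkf (B x) (Ps x))
      (fun u => ρ (host u)) (fun u => (ivl u : ℤ))
      (fun i u => (ikp (tlo G T hm) (σ i) u : ℤ))
      (fun i u => (imn G (cz G Z T hm) (tlo G T hm) (σ i) u : ℤ))
      (fun i j => pcn (tlo G T hm) B (σ i) (σ j)) (fun u => (ipc u : ℤ))
      (fun j u => (nui G (cz G Z T hm (host u)) (tlo G T hm) (B (host u)) (σ j) u : ℤ)) := by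
  intro i hi j hj hij K hK hKi K' hK' hKj g g' hg1 hg2 hg1' hg2' sv w hs hw
  have hcard := h.toWHom.cardT
  have hfam : ∀ x ∈ T, Fam (co G) (cz G Z T hm) (hz G Z T hm) (tlo G T hm) x
      (pkf (B x) (Ps x)) := fun x hx => (hpk x hx).fam (h.csys.dCH hx hx).symm
  have hmem : ∀ i < n, σ i ∈ T := fun i hi => rk.mem i (by rw [hcard]; exact hi)
  have hne : ∀ i < n, ∀ j < n, i ≠ j → σ i ≠ σ j := fun i hi j hj hij h1 =>
    hij (rk.sinj (by rw [hcard]; exact hi) (by rw [hcard]; exact hj) h1)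
  have hown : ∀ u ∈ T.biUnion (fun x => pkf (B x) (Ps x)), ∀ l < n, ρ (host u) = l →
      u ∈ pkf (B (σ l)) (Ps (σ l)) ∧ host u = σ l := by
    intro u hu l hl hul
    obtain ⟨x, hx, hux⟩ := mem_biUnion.1 hu
    have h1 := hst x hx u hux
    have h2 : σ l = x := by
      rw [← hul, h1]
      exact rk.left x hx
    rw [h2, h1]
    exact ⟨hux, rfl⟩
  have her : ∀ i < n, ∀ f : V → ℤ, ∑ z ∈ T.erase (σ i), f z
      = ∑ j ∈ (range n).erase i, f (σ j) := by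
    intro i hi f
    rw [← hcard] at hi ⊢
    exact rk.sum_er hi f
  have a1 : ∀ u ∈ K, u ∈ pkf (B (σ i)) (Ps (σ i)) ∧ host u = σ i := fun u hu =>
    hown u (hK hu) i hi (hKi u hu).1
  have a2 : ∀ u ∈ K', u ∈ pkf (B (σ j)) (Ps (σ j)) ∧ host u = σ j := fun u hu =>
    hown u (hK' hu) j hj (hKj u hu).1
  have p1 : ∀ u ∈ K, ipc u = 0 := by
    intro u hu
    have c3 : (ipc u : ℤ) = 0 := (hKi u hu).2
    exact_mod_cast c3
  have p2 : ∀ u ∈ K', ipc u = 0 := by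
    intro u hu
    have c3 : (ipc u : ℤ) = 0 := (hKj u hu).2
    exact_mod_cast c3
  have b1 : ∀ u ∈ K, g u ≤ ikp (tlo G T hm) (σ j) u := fun u hu => by
    have c3 : (g u : ℤ) ≤ (ikp (tlo G T hm) (σ j) u : ℤ) := hg2 u hu
    exact_mod_cast c3
  have b2 : ∀ u ∈ K', g' u ≤ ikp (tlo G T hm) (σ i) u := fun u hu => by
    have c3 : (g' u : ℤ) ≤ (ikp (tlo G T hm) (σ i) u : ℤ) := hg2' u hu
    exact_mod_cast c3
  have hT : ∀ x ∈ T, ∀ u ∈ pkf (B x) (Ps x), ∀ y, ikp (tlo G T hm) y u ≠ 0 →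
      ρ y < n ∧ σ (ρ y) = y := by
    intro x hx u hu y hy
    obtain ⟨v, hv, hvy⟩ := ikp_ne_tail (fun Q hQ => (hfam x hx).two Q (hQ ▸ hu)) hy
    have hvH : v ∈ hz G Z T hm x := by
      rcases u with Q | e
      · exact (hfam x hx).sub Q hu hv
      · simp only [imem, mem_singleton] at hv
        exact hv ▸ (hfam x hx).pcH e hu
    have h5 := mem_of_mem_erase (h.toWHom.ht x hx v hvH)
    rw [hvy] at h5
    exact ⟨by rw [← hcard]; exact rk.lt y h5, rk.left y h5⟩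
  -- the saving
  obtain ⟨cl, N, q, I, hI, hI1, hI2, hsv⟩ := hs
  have h2 := h.savK2 hpk hop (hmem i hi) (hmem j hj) (hne i hi j hj hij)
    (fun u hu => (a1 u hu).1) (fun u hu => (a2 u hu).1) hg1 b1 hg1' b2 (cl := cl) (M := N) q
    (fun c => (I c).image σ) (fun u hu hq => by
      obtain ⟨c1, c2⟩ := hI1 u hu hq
      refine ⟨mem_image_of_mem σ c1, fun l hl => ?_⟩
      obtain ⟨b1, b2⟩ := hT _ (hmem i hi) u (a1 u hu).1 l hl
      refine mem_image.2 ⟨ρ l, c2 (ρ l) b1 ?_, b2⟩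
      show (ikp (tlo G T hm) (σ (ρ l)) u : ℤ) ≠ 0
      rw [b2]
      exact_mod_cast hl) (fun u hu hq => by
      obtain ⟨c1, c2⟩ := hI2 u hu hq
      refine ⟨mem_image_of_mem σ c1, fun l hl => ?_⟩
      obtain ⟨b1, b2⟩ := hT _ (hmem j hj) u (a2 u hu).1 l hl
      refine mem_image.2 ⟨ρ l, c2 (ρ l) b1 ?_, b2⟩
      show (ikp (tlo G T hm) (σ (ρ l)) u : ℤ) ≠ 0
      rw [b2]
      exact_mod_cast hl)
  have hIc : ∀ c, ((I c).image σ).card = (I c).card := fun c =>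
    rk.card_image (by rw [hcard]; exact hI c)
  have h3 : (NE G (cpl G (cz G Z T hm) (tlo G T hm) g K (σ i) (σ j)
          ∪ cpl G (cz G Z T hm) (tlo G T hm) g' K' (σ j) (σ i)) : ℤ) + sv
        + (cpl G (cz G Z T hm) (tlo G T hm) g K (σ i) (σ j)
          ∪ cpl G (cz G Z T hm) (tlo G T hm) g' K' (σ j) (σ i)).card
      ≤ ((cpl G (cz G Z T hm) (tlo G T hm) g K (σ i) (σ j)
          ∪ cpl G (cz G Z T hm) (tlo G T hm) g' K' (σ j) (σ i)).card : ℤ)
        * (cpl G (cz G Z T hm) (tlo G T hm) g K (σ i) (σ j)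
          ∪ cpl G (cz G Z T hm) (tlo G T hm) g' K' (σ j) (σ i)).card := by
    simp only [hIc] at h2
    refine le_trans (add_le_add (add_le_add le_rfl (hsv.trans (le_of_eq ?_))) le_rfl) h2
    refine congrArg₂ (· + ·) rfl (congrArg (fun a : ℤ => 2 * a) (congrArg₂ (· + ·)
      (congrArg (fun s : Finset (Itm V × Itm V) => (s.card : ℤ)) ?_)
      (congrArg (fun s : Finset (Itm V × Itm V) => (s.card : ℤ)) ?_)))
    · exact Finset.ext fun e => by simp only [mem_filter, Nat.cast_inj, Nat.cast_eq_zero]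
    · exact Finset.ext fun e => by simp only [mem_filter, Nat.cast_inj, Nat.cast_eq_zero]
  have h1 := h.cellGL hp hpk (hmem i hi) (hmem j hj) (hne i hi j hj hij)
    (fun u hu => (a1 u hu).1) (fun u hu => (a2 u hu).1) p1 p2 hg1 b1 hg1' b2
    (M := pcn (tlo G T hm) B (σ i) (σ j) + pcn (tlo G T hm) B (σ j) (σ i))
    (w := w) (sv := sv) rfl hw h3
  have key : ∀ i < n, ∀ j < n, ∀ u, u ∈ pkf (B (σ i)) (Ps (σ i)) ∧ host u = σ i →
      (ipc u = 0 ∧ ikp (tlo G T hm) (σ j) u ≠ 0) →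
      (irs G (cz G Z T hm (σ i)) (tlo G T hm) (B (σ i)) (σ j) u : ℤ)
        ≤ ∑ l ∈ (range n).erase i,
          ((nui G (cz G Z T hm (host u)) (tlo G T hm) (B (host u)) (σ l) u : ℤ)
            + if l = j then 0 else (ikp (tlo G T hm) (σ l) u : ℤ)
              * pcn (tlo G T hm) B (σ i) (σ l)) := by
    intro i hi j hj u hu h0
    refine (h.irs_le hpk (hmem i hi) hu.1 h0).trans ?_
    rw [her i hi, hu.2]
    refine le_of_eq (sum_congr rfl fun l hl => ?_)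
    have e1 : (σ l = σ j) ↔ l = j := ⟨fun h1 => rk.sinj
      (by rw [hcard]; exact mem_range.1 (mem_of_mem_erase hl)) (by rw [hcard]; exact hj) h1,
      fun h1 => by rw [h1]⟩
    by_cases h5 : l = j
    · rw [if_pos h5, if_pos (e1.2 h5)]
    · rw [if_neg h5, if_neg fun h6 => h5 (e1.1 h6)]
      rfl
  have hil : ∀ (j : ℕ) (g : Itm V → ℕ) (u : Itm V),
      (ilm G (cz G Z T hm) (tlo G T hm) (σ j) g u : ℤ)
        = if (ikp (tlo G T hm) (σ j) u : ℤ) ≤ (g u : ℤ)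
          then (imn G (cz G Z T hm) (tlo G T hm) (σ j) u : ℤ) else 0 := by
    intro j g u
    unfold ilm
    split_ifs with h5 h6 h6
    · rfl
    · exact absurd (by exact_mod_cast h5) h6
    · exact absurd (by exact_mod_cast h6) h5
    · rfl
  have s1 : ∑ u ∈ K, (((r : ℤ) - 1) * g u + tI G Z T hm r Z (σ j)
        - (if (ikp (tlo G T hm) (σ j) u : ℤ) ≤ (g u : ℤ)
          then (imn G (cz G Z T hm) (tlo G T hm) (σ j) u : ℤ) else 0)
        - ∑ l ∈ (range n).erase i,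
          ((nui G (cz G Z T hm (host u)) (tlo G T hm) (B (host u)) (σ l) u : ℤ)
            + if l = j then 0 else (ikp (tlo G T hm) (σ l) u : ℤ)
              * pcn (tlo G T hm) B (σ i) (σ l)))
      ≤ ∑ u ∈ K, (((r : ℤ) - 1) * g u + tI G Z T hm r Z (σ j)
        - ilm G (cz G Z T hm) (tlo G T hm) (σ j) g u
        - irs G (cz G Z T hm (σ i)) (tlo G T hm) (B (σ i)) (σ j) u) :=
    sum_le_sum fun u hu => by
      have h5 := key i hi j hj u (a1 u hu) ⟨p1 u hu, by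
        have := hg1 u hu
        have := b1 u hu
        omega⟩
      rw [hil]
      linarith
  have s2 : ∑ u ∈ K', (((r : ℤ) - 1) * g' u + tI G Z T hm r Z (σ i)
        - (if (ikp (tlo G T hm) (σ i) u : ℤ) ≤ (g' u : ℤ)
          then (imn G (cz G Z T hm) (tlo G T hm) (σ i) u : ℤ) else 0)
        - ∑ l ∈ (range n).erase j,
          ((nui G (cz G Z T hm (host u)) (tlo G T hm) (B (host u)) (σ l) u : ℤ)
            + if l = i then 0 else (ikp (tlo G T hm) (σ l) u : ℤ)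
              * pcn (tlo G T hm) B (σ j) (σ l)))
      ≤ ∑ u ∈ K', (((r : ℤ) - 1) * g' u + tI G Z T hm r Z (σ i)
        - ilm G (cz G Z T hm) (tlo G T hm) (σ i) g' u
        - irs G (cz G Z T hm (σ j)) (tlo G T hm) (B (σ j)) (σ i) u) :=
    sum_le_sum fun u hu => by
      have h5 := key j hj i hi u (a2 u hu) ⟨p2 u hu, by
        have := hg1' u hu
        have := b2 u hu
        omega⟩
      rw [hil]
      linarith
  show 2 * ((pcn (tlo G T hm) B (σ i) (σ j) + pcn (tlo G T hm) B (σ j) (σ i) - 1)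
      * ((r : ℤ) - 1)) + 2 * _ + 2 * _ + sv ≤ _
  refine le_trans ?_ h1
  gcongr

/-- the misses of an item of value one -/
private lemma imn_eq_ims {C : V → Finset V} {tl : V → V} {z : V} {u : Itm V} (h : ivl u = 1) :
    imn G C tl z u ≤ ims G C tl z u := by
  by_cases hk : ikp tl z u = 0
  · have h1 := imn_load (G := G) (C := C) (tl := tl) (z := z) (u := u)
    rw [hk, zero_mul] at h1
    omega
  · exact (imn_eq h hk).le

/-- **the field `cap` with the savings `SvC2`**, version [C] with concentrated packings -/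
theorem WItC.cap2 (hp : 2 * r ≤ p) (h : WCoreK G Z T r m n p hm)
    (H : WItC G Z T hm r n sqf B Ps host ρ σ) :
    Cap2 ((r : ℤ) - 1) n (fun i => tI G Z T hm r Z (σ i)) (T.biUnion fun x => pkf (B x) (Ps x))
      (fun u => ρ (host u)) (fun u => (ivl u : ℤ))
      (fun i u => (ikp (tlo G T hm) (σ i) u : ℤ))
      (fun i u => (imn G (cz G Z T hm) (tlo G T hm) (σ i) u : ℤ)) (fun u => (ipc u : ℤ))
      (fun u => (iar G (cz G Z T hm (host u)) u : ℤ)) := by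
  intro i hi j hj hij K hK hKi K' hK' hKj g g' hg1 hg2 hg1' hg2' EX hE sv hs
  refine h.cellLU2 hp (fun x hx => (H.pk x hx).toPk) (fun x hx => (H.pk x hx).min) H.pk H.hst H.rk
    hi hj hij hK hKi hK' hKj hg1 hg2 hg1' hg2' ?_ hs.savK2
  rcases hE with h5 | ⟨w, hw, h5, h6⟩
  · exact Or.inl h5
  · refine Or.inr (Or.inl ⟨w, hw, ?_⟩)
    have h7 : ivl w = 1 := by
      have h8 : (ivl w : ℤ) = 1 := h5
      exact_mod_cast h8
    have h8 : ∀ i, (imn G (cz G Z T hm) (tlo G T hm) (σ i) w : ℤ)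
        ≤ (ims G (cz G Z T hm) (tlo G T hm) (σ i) w : ℤ) := fun i => by
      exact_mod_cast imn_eq_ims (G := G) (C := cz G Z T hm) (tl := tlo G T hm) (z := σ i) h7
    exact h6.trans (mul_le_mul (max_le_max le_rfl (sub_le_sub_right (h8 i) _))
      (max_le_max le_rfl (sub_le_sub_right (h8 j) _)) (le_max_left _ _) (le_max_left _ _))

/-- **the mixed cap with the savings `SvC2`** in the letters of the contract, version [C] with concentrated
packings -/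
theorem WItC.capMP2 (hp : 2 * r ≤ p) (h : WCoreK G Z T r m n p hm)
    (H : WItC G Z T hm r n sqf B Ps host ρ σ) :
    CapMP2 ((r : ℤ) - 1) n (fun i => tI G Z T hm r Z (σ i)) (T.biUnion fun x => pkf (B x) (Ps x))
      (fun u => ρ (host u)) (fun u => (ivl u : ℤ))
      (fun i u => (ikp (tlo G T hm) (σ i) u : ℤ))
      (fun i u => (imn G (cz G Z T hm) (tlo G T hm) (σ i) u : ℤ))
      (fun i j => pcn (tlo G T hm) B (σ i) (σ j)) (fun u => (ipc u : ℤ)) := by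
  refine (h.capM2 hp (fun x hx => (H.pk x hx).toPk) H.pk H.hst H.rk).pcon ?_
  intro u hu hpc j _
  obtain ⟨x, hx, hux⟩ := mem_biUnion.1 hu
  have h1 := H.hst x hx u hux
  have hpc' : (ipc u : ℤ) = 0 := hpc
  show (nui G (cz G Z T hm (host u)) (tlo G T hm) (B (host u)) (σ j) u : ℤ) = 0
  rw [h1]
  rcases u with P | e
  · rw [(H.pk x hx).nui_inl_zero hux (σ j)]
    rfl
  · simp [ipc] at hpc'

end Tr2

end Pool.Agent.Lib.MP_f04ccf_co
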