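import Pool.Agent.Lib.MP_f04ccf_co.M.EnD

/-!
MP_f04ccf_co, STATE 10 (L1), notes 17633, 17704: the energy of the sub-slot `S_x \ (members of D, class points Cx)`
over the basic integers, version [C].

* `kpB`, `kpP`: the kept PC pairs and parts; `pkf_kp`: the kept items; `Pk.slotD`, `Pk.card_kp`: the sub-slot.
* `PkOpt.energyD`: `2 e' + mu' (mu' + 1) + E (W_y) ≤ 2 mu' h' + ∑_(kept tails ≠ y) nxw + 2 ∑_(W_y) nd + 2 losD`.
-/

set_option autoImplicit false

namespace Pool.Agent.Lib.MP_f04ccf_co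

open Finset

attribute [local instance] Classical.propDecidable

section Kp

variable {ι V : Type*} {G : SimpleGraph V} {C H : Finset V} {tl : V → ι}
  {B : Finset (V × V)} {Ps : Finset (Finset V)} {D : Finset (Itm V)}

/-- the kept PC pairs -/
noncomputable def kpB (B : Finset (V × V)) (D : Finset (Itm V)) : Finset (V × V) :=
  B.filter fun e => Sum.inr e ∉ D

/-- the kept parts -/
noncomputable def kpP (Ps : Finset (Finset V)) (D : Finset (Itm V)) : Finset (Finset V) :=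
  Ps.filter fun P => Sum.inl P ∉ D

lemma mem_kpB {e : V × V} : e ∈ kpB B D ↔ e ∈ B ∧ Sum.inr e ∉ D := mem_filter

lemma mem_kpP {P : Finset V} : P ∈ kpP Ps D ↔ P ∈ Ps ∧ Sum.inl P ∉ D := mem_filter

lemma kpB_sub : kpB B D ⊆ B := filter_subset _ _

lemma kpP_sub : kpP Ps D ⊆ Ps := filter_subset _ _

/-- the items which are kept -/
lemma pkf_kp : pkf (kpB B D) (kpP Ps D) = pkf B Ps \ D := by
  ext u
  rw [mem_sdiff]
  rcases u with Q | e
  · rw [inl_mem_pkf, inl_mem_pkf, mem_kpP]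
    tauto
  · rw [inr_mem_pkf, inr_mem_pkf, mem_kpB]

/-- **the members of the smaller slot** -/
lemma Pk.home_kp (h : Pk G C H tl B Ps) (hD : D ⊆ pkf B Ps) :
    H \ D.biUnion imem = (kpB B D).image Prod.fst ∪ (kpP Ps D).biUnion id := by
  ext v
  rw [mem_sdiff, mem_union]
  constructor
  · rintro ⟨h1, h2⟩
    rcases h.cov v h1 with ⟨e, he, hev⟩ | ⟨P, hP, hv⟩
    · refine Or.inl (mem_image.2 ⟨e, mem_kpB.2 ⟨he, fun h3 => h2 ?_⟩, hev⟩)
      exact mem_biUnion.2 ⟨Sum.inr e, h3, by simp [imem, hev]⟩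
    · refine Or.inr (mem_biUnion.2 ⟨P, mem_kpP.2 ⟨hP, fun h3 => h2 ?_⟩, hv⟩)
      exact mem_biUnion.2 ⟨Sum.inl P, h3, hv⟩
  · rintro (h1 | h1)
    · obtain ⟨e, he, rfl⟩ := mem_image.1 h1
      obtain ⟨he1, he2⟩ := mem_kpB.1 he
      refine ⟨h.bH e he1, fun h2 => ?_⟩
      obtain ⟨u, hu, hv⟩ := mem_biUnion.1 h2
      have h3 := hD hu
      rcases u with Q | f
      · exact h.dw e he1 Q (inl_mem_pkf.1 h3).1 hv
      · have h4 : e.1 = f.1 := by simpa [imem] using hv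
        exact he2 (h.b1 e he1 f (inr_mem_pkf.1 h3) h4 ▸ hu)
    · obtain ⟨P, hP, hv⟩ := mem_biUnion.1 h1
      obtain ⟨hP1, hP2⟩ := mem_kpP.1 hP
      refine ⟨h.sub P hP1 hv, fun h2 => ?_⟩
      obtain ⟨u, hu, hv'⟩ := mem_biUnion.1 h2
      have h3 := hD hu
      rcases u with Q | f
      · exact hP2 (h.part_eq hP1 (inl_mem_pkf.1 h3).1 hv hv' ▸ hu)
      · have h4 : v = f.1 := by simpa [imem] using hv'
        exact h.dw f (inr_mem_pkf.1 h3) P hP1 (h4 ▸ hv)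

/-- the dropped members -/
lemma Pk.drop_sub (h : Pk G C H tl B Ps) (hD : D ⊆ pkf B Ps) : D.biUnion imem ⊆ H := by
  intro v hv
  obtain ⟨u, hu, hv'⟩ := mem_biUnion.1 hv
  rcases u with Q | f
  · exact h.sub Q (inl_mem_pkf.1 (hD hu)).1 hv'
  · have h4 : v = f.1 := by simpa [imem] using hv'
    exact h4 ▸ h.bH f (inr_mem_pkf.1 (hD hu))

/-- the number of members of an item of a packing -/
lemma card_imem_pkf {u : Itm V} (hu : u ∈ pkf B Ps) :
    ((imem u).card : ℤ) = (ivl u : ℤ) + 1 - (ipc u : ℤ) := by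
  rcases u with Q | e
  · have h1 := (inl_mem_pkf.1 hu).2
    simp only [imem, ivl, ipc]
    omega
  · simp [imem, ivl, ipc]

/-- the number of members of the smaller slot -/
lemma Pk.card_kp (h : Pk G C H tl B Ps) (hD : D ⊆ pkf B Ps) :
    (((kpB B D).image Prod.fst ∪ (kpP Ps D).biUnion id).card : ℤ)
      = (H.card : ℤ) - ∑ u ∈ D, ((ivl u : ℤ) + 1 - (ipc u : ℤ)) := by
  rw [← h.home_kp hD]
  have h1 := card_sdiff_add_card_eq_card (h.drop_sub hD)
  have h2 : (D.biUnion imem).card = ∑ u ∈ D, (imem u).card := by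
    refine card_biUnion fun u hu v hv huv => ?_
    have h3 := hD hu
    have h4 := hD hv
    rcases u with Q | e <;> rcases v with Q' | f
    · exact h.dis Q (inl_mem_pkf.1 h3).1 Q' (inl_mem_pkf.1 h4).1 fun h5 => huv (by rw [h5])
    · show Disjoint Q {f.1}
      rw [disjoint_singleton_right]
      exact h.dw f (inr_mem_pkf.1 h4) Q (inl_mem_pkf.1 h3).1
    · show Disjoint {e.1} Q'
      rw [disjoint_singleton_left]
      exact h.dw e (inr_mem_pkf.1 h3) Q' (inl_mem_pkf.1 h4).1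
    · show Disjoint {e.1} {f.1}
      rw [disjoint_singleton]
      exact fun h5 => huv (by rw [h.b1 e (inr_mem_pkf.1 h3) f (inr_mem_pkf.1 h4) h5])
  have h3 : ((∑ u ∈ D, (imem u).card : ℕ) : ℤ) = ∑ u ∈ D, ((ivl u : ℤ) + 1 - (ipc u : ℤ)) := by
    push_cast
    exact sum_congr rfl fun u hu => card_imem_pkf (hD hu)
  rw [← h3, ← h2]
  omega

/-- the smaller slot -/
lemma Pk.slotD (h : Pk G C H tl B Ps) (hHC : Disjoint H C) (hD : D ⊆ pkf B Ps) {Cx : Finset V}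
    (hCx : Cx ⊆ C) : (H ∪ C) \ (D.biUnion imem ∪ Cx)
      = ((kpB B D).image Prod.fst ∪ (kpP Ps D).biUnion id) ∪ (C \ Cx) := by
  rw [← h.home_kp hD]
  have h1 := h.drop_sub hD
  ext v
  simp only [mem_sdiff, mem_union, not_or]
  constructor
  · rintro ⟨h2 | h2, h3, h4⟩
    · exact Or.inl ⟨h2, h3⟩
    · exact Or.inr ⟨h2, h4⟩
  · rintro (⟨h2, h3⟩ | ⟨h2, h3⟩)
    · exact ⟨Or.inl h2, h3, fun h4 => disjoint_left.1 hHC h2 (hCx h4)⟩
    · exact ⟨Or.inr h2, fun h4 => disjoint_left.1 hHC (h1 h4) h2, h3⟩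

lemma bothB_mono {B1 : Finset (V × V)} (h : B1 ⊆ B) : bothB G tl B1 ≤ bothB G tl B :=
  card_le_card (filter_subset_filter _ (product_subset_product h h))

end Kp

section EnDI

variable {V : Type*} {G : SimpleGraph V} {Z T : Finset V} {hm : V → V} {r m n p : ℕ}
  {φ : Finset (V × V) → Finset (Finset V) → ℕ}
  {B : V → Finset (V × V)} {Ps : V → Finset (Finset V)}

/-- **the energy of the sub-slot**: the items `D` of the host `x` and the class points `Cx` leave; the PC pairs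
of the tail `y` kept exactly; `L` contains the tails of the other kept PC pairs -/
theorem PkOpt.energyD (h : WHom G Z T r m n hm) {x : V} (y : V) (hx : x ∈ T)
    (hB : ∀ x ∈ T, PkOpt G (cz G Z T hm x) (hz G Z T hm x) (tlo G T hm) φ (B x) (Ps x))
    {D : Finset (Itm V)} (hD : D ⊆ pkf (B x) (Ps x)) {Cx : Finset V} (hCx : Cx ⊆ cz G Z T hm x)
    {L : Finset V} (hL : ∀ e ∈ kpB (B x) D, tlo G T hm e.1 ≠ y → tlo G T hm e.1 ∈ L) :
    2 * eI G hm (Z \ (D.biUnion imem ∪ Cx)) x + (∑ u ∈ pkf (B x) (Ps x) \ D, (ivl u : ℤ))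
        * (∑ u ∈ pkf (B x) (Ps x) \ D, (ivl u : ℤ) + 1)
        + E G ((pcs (tlo G T hm) (kpB (B x) D) y).image Prod.fst)
      ≤ 2 * ((∑ u ∈ pkf (B x) (Ps x) \ D, (ivl u : ℤ))
          * (hI G Z T hm Z x - ∑ u ∈ D, ((ivl u : ℤ) + 1 - (ipc u : ℤ))))
        + ∑ z ∈ L, nxw G Z T hm B x z
        + 2 * ∑ e ∈ pcs (tlo G T hm) (kpB (B x) D) y, (nd G (cz G Z T hm x \ Cx) e.1 : ℤ)
        + 2 * losD G (tlo G T hm) (cz G Z T hm x \ Cx) (B x) (kpB (B x) D)
          ((kpP (Ps x) D).biUnion id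
            ∪ (kpB (B x) D \ pcs (tlo G T hm) (kpB (B x) D) y).image Prod.fst) := by
  obtain ⟨C, hCd⟩ : ∃ C, C = cz G Z T hm x := ⟨_, rfl⟩
  obtain ⟨H, hHd⟩ : ∃ H, H = hz G Z T hm x := ⟨_, rfl⟩
  have hF := h.F.toPFrame
  have hpk := hB x hx
  have hCH : Disjoint (hz G Z T hm x) (cz G Z T hm x) := (h.csys.dCH hx hx).symm
  have h32 := h.csys.h32 hF h.hh h.ht hx
  have hk := hpk.toPk.keep (kpB_sub (B := B x) (D := D)) (kpP_sub (Ps := Ps x) (D := D))
  have hks := hpk.toPk.keep_sub (kpB_sub (B := B x) (D := D)) (kpP_sub (Ps := Ps x) (D := D))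
  have hUe := hk.union_eq
  have h1 := hpk.toPk.energy_drop hpk.min h32 (h.csys.CP_clq hF hx) hCH
    (kpB_sub (B := B x) (D := D)) (kpP_sub (Ps := Ps x) (D := D))
    (sdiff_subset : cz G Z T hm x \ Cx ⊆ cz G Z T hm x) y (D := 0) (by
      rw [add_zero]
      refine sum_le_sum fun e he => ?_
      have h2 := hk.uin_le (fun v hv w hw => h32 v (hks hv) w (hks hw)) he
      rwa [hUe] at h2)
  have h2 := hk.sum_ivl
  rw [pkf_kp] at h2
  have h3 : ∑ u ∈ pkf (B x) (Ps x) \ D, (ivl u : ℤ) + ((kpP (Ps x) D).card : ℤ)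
      = (((kpB (B x) D).image Prod.fst ∪ (kpP (Ps x) D).biUnion id).card : ℤ) := by
    exact_mod_cast h2
  have h4 := hpk.toPk.card_kp hD
  have h5 := two_eI (G := G) (hm := hm) (Z \ (D.biUnion imem ∪ Cx)) x
  have hCH2 : hz G Z T hm x ∪ cz G Z T hm x = Z.filter fun v => hm v = x := by
    rw [union_comm]
    exact CP_union_HP
  have h10 : ((Z \ (D.biUnion imem ∪ Cx)).filter fun v => hm v = x)
      = ((kpB (B x) D).image Prod.fst ∪ (kpP (Ps x) D).biUnion id) ∪ (cz G Z T hm x \ Cx) := by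
    rw [← hpk.toPk.slotD hCH hD hCx, hCH2]
    ext v
    simp only [mem_filter, mem_sdiff]
    tauto
  -- no N-ends
  have h0 : Nend G (cz G Z T hm x) (hz G Z T hm x) (tlo G T hm) (B x) = ∅ := hpk.frC_zero
  have h11 : ∑ v ∈ (kpP (Ps x) D).biUnion id,
      ((frC G (cz G Z T hm x \ Cx) (tlo G T hm) (B x) v).card : ℤ) = 0 := by
    refine sum_eq_zero fun v hv => ?_
    obtain ⟨P, hP, hvP⟩ := mem_biUnion.1 hv
    have hP1 := (mem_kpP.1 hP).1
    have h12 : v ∈ hz G Z T hm x \ (B x).image Prod.fst := by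
      refine mem_sdiff.2 ⟨hpk.sub P hP1 hvP, fun h7 => ?_⟩
      obtain ⟨e, he, hev⟩ := mem_image.1 h7
      exact hpk.dw e he P hP1 (hev ▸ hvP)
    have h13 : frC G (cz G Z T hm x \ Cx) (tlo G T hm) (B x) v = ∅ := by
      by_contra h14
      obtain ⟨a, ha⟩ := nonempty_iff_ne_empty.2 h14
      have h15 := mem_frC.1 ha
      have h16 : v ∈ Nend G (cz G Z T hm x) (hz G Z T hm x) (tlo G T hm) (B x) :=
        mem_Nend.2 ⟨h12, a, mem_frC.2 ⟨(mem_sdiff.1 h15.1).1, h15.2⟩⟩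
      rw [h0] at h16
      exact notMem_empty v h16
    rw [h13, card_empty]
    rfl
  -- the other tails
  have hlt : ∀ e ∈ kpB (B x) D \ pcs (tlo G T hm) (kpB (B x) D) y, tlo G T hm e.1 ∈ L := by
    intro e he
    obtain ⟨h6, h7⟩ := mem_sdp.1 he
    exact hL e h6 h7
  have h6 : 2 * ∑ e ∈ kpB (B x) D \ pcs (tlo G T hm) (kpB (B x) D) y,
        (1 + ((frC G (cz G Z T hm x \ Cx) (tlo G T hm) (B x) e.1).card : ℤ))
      + bothB G (tlo G T hm) (kpB (B x) D \ pcs (tlo G T hm) (kpB (B x) D) y)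
      ≤ ∑ z ∈ L, nxw G Z T hm B x z := by
    have hsub : ∀ z, pcs (tlo G T hm) (kpB (B x) D \ pcs (tlo G T hm) (kpB (B x) D) y) z
        ⊆ pcs (tlo G T hm) (B x) z := by
      intro z e he
      obtain ⟨h8, h9⟩ := mem_pcs.1 he
      exact mem_pcs.2 ⟨kpB_sub (mem_sdp.1 h8).1, h9⟩
    have h7 : ∑ e ∈ kpB (B x) D \ pcs (tlo G T hm) (kpB (B x) D) y,
        (1 + ((frC G (cz G Z T hm x \ Cx) (tlo G T hm) (B x) e.1).card : ℤ))
        = ∑ z ∈ L, ∑ e ∈ pcs (tlo G T hm)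
            (kpB (B x) D \ pcs (tlo G T hm) (kpB (B x) D) y) z,
          (1 + ((frC G (cz G Z T hm x \ Cx) (tlo G T hm) (B x) e.1).card : ℤ)) :=
      (sum_fiberwise_of_maps_to (g := fun e : V × V => tlo G T hm e.1)
        (fun e he => hlt e he) _).symm
    have h8 := bothB_split (G := G) hlt
    rw [h7, h8, mul_sum, Nat.cast_sum, ← sum_add_distrib]
    refine sum_le_sum fun z hz' => ?_
    refine le_trans ?_ (h.nbc_le_nxw (fun x hx => (hB x hx).toPk) hx z)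
    unfold nbc
    have h9 : ∑ e ∈ pcs (tlo G T hm) (kpB (B x) D \ pcs (tlo G T hm) (kpB (B x) D) y) z,
          (1 + ((frC G (cz G Z T hm x \ Cx) (tlo G T hm) (B x) e.1).card : ℤ))
        ≤ ∑ e ∈ pcs (tlo G T hm) (B x) z,
          (1 + ((frC G (cz G Z T hm x) (tlo G T hm) (B x) e.1).card : ℤ)) := by
      refine le_trans (sum_le_sum fun e _ => ?_)
        (sum_le_sum_of_subset_of_nonneg (hsub z) fun _ _ _ => by positivity)
      have h10 : (frC G (cz G Z T hm x \ Cx) (tlo G T hm) (B x) e.1).card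
          ≤ (frC G (cz G Z T hm x) (tlo G T hm) (B x) e.1).card := by
        refine card_le_card fun a ha => ?_
        have h15 := mem_frC.1 ha
        exact mem_frC.2 ⟨(mem_sdiff.1 h15.1).1, h15.2⟩
      have h11 : ((frC G (cz G Z T hm x \ Cx) (tlo G T hm) (B x) e.1).card : ℤ)
          ≤ ((frC G (cz G Z T hm x) (tlo G T hm) (B x) e.1).card : ℤ) := by exact_mod_cast h10
      linarith
    have h10 : (bothB G (tlo G T hm) (pcs (tlo G T hm)
          (kpB (B x) D \ pcs (tlo G T hm) (kpB (B x) D) y) z) : ℤ)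
        ≤ (bothB G (tlo G T hm) (pcs (tlo G T hm) (B x) z) : ℤ) := by
      exact_mod_cast bothB_mono (hsub z)
    linarith
  rw [h11] at h1
  rw [h5, h10]
  have h9 : hI G Z T hm Z x = ((hz G Z T hm x).card : ℤ) := rfl
  rw [h9, ← h4]
  obtain ⟨μ, hμ⟩ : ∃ μ : ℤ, μ = ∑ u ∈ pkf (B x) (Ps x) \ D, (ivl u : ℤ) := ⟨_, rfl⟩
  rw [← hμ] at h3 ⊢
  have h14 : ((kpP (Ps x) D).card : ℤ)
      = (((kpB (B x) D).image Prod.fst ∪ (kpP (Ps x) D).biUnion id).card : ℤ) - μ := by linarith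
  rw [h14] at h1
  have h15 : (0 : ℤ) ≤ (E G (((kpP (Ps x) D).biUnion id).filter fun v =>
    (frC G (cz G Z T hm x) (tlo G T hm) (B x) v).Nonempty) : ℤ) := Int.natCast_nonneg _
  generalize (((kpB (B x) D).image Prod.fst ∪ (kpP (Ps x) D).biUnion id).card : ℤ) = nH at *
  push_cast at h1
  nlinarith

end EnDI

end Pool.Agent.Lib.MP_f04ccf_co
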