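import Pool.Agent.Lib.MP_f04ccf_co.M.MatV

/-!
MP_f04ccf_co, PLAN W, finite and middle range: the row test with the columns of another row and the cell
test **at any levels** (`M/MatV.lean`).  `Fam.col_lev`: T+ at levels; `Fam.cell_lev`: the cell test at
levels, the missing pairs of the points kept (`Fam.cell_levN`) or all counted (`Fam.cell_lev`).
-/

set_option autoImplicit false

namespace Pool.Agent.Lib.MP_f04ccf_co

open Finset

attribute [local instance] Classical.propDecidable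

section LvW

variable {V : Type*} {G : SimpleGraph V} {Z T : Finset V} {hm : V → V} {r m t : ℕ}
  {A : Finset V} {S : V → Finset V} {U : V → Finset (Itm V)}

/-- **(ROWC) at any levels**: the row `z`, the items `K` at the levels `g`, the columns of `y` -/
theorem Fam.col_lev (hF : PFrame G r m t Z T) (hh : Homes G Z T hm) (hP : PG G r)
    (hC : CSys G Z T hm A S)
    (hW : WSysT G (co G) A (CP G Z T S) (HP G Z T S) (tlo G T hm))
    (h : ∀ x ∈ A, Fam (co G) (CP G Z T S) (HP G Z T S) (tlo G T hm) x (U x))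
    {z y : V} (hz : z ∈ A) (hy : y ∈ A) (hzy : z ≠ y) {K : Finset (Itm V)}
    (hK : K ⊆ (A.erase z).biUnion U) {g : Itm V → ℕ}
    (hg1 : ∀ u ∈ K, 1 ≤ g u) (hg2 : ∀ u ∈ K, g u ≤ ikp (tlo G T hm) z u) :
    2 * ((r : ℤ) - 1) * (((S z).card : ℤ) - r)
      + 2 * ∑ u ∈ K, (((CP G Z T S z).card : ℤ) * g u - ilm G (CP G Z T S) (tlo G T hm) z g u)
      + 2 * ∑ u ∈ U z, iht G (CP G Z T S) (tlo G T hm) y u
      ≤ NE G (S z)
        + 2 * (∑ u ∈ K, ((g u : ℤ) + 1 - if u ∈ U y then (ipc u : ℤ) else 0)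
            + (CP G Z T S y).card) * (((S z).card : ℤ) - r + 1)
        + (∑ u ∈ K, ((g u : ℤ) + 1 - if u ∈ U y then (ipc u : ℤ) else 0))
          * (∑ u ∈ K, ((g u : ℤ) + 1 - if u ∈ U y then (ipc u : ℤ) else 0) - 1)
        + 2 * ∑ u ∈ K, (if u ∈ U y then (iar G (CP G Z T S y) u : ℤ)
            else (CP G Z T S y).card * ((g u : ℤ) + 1))
        + 2 * (∑ u ∈ K, (if u ∈ U y then (ipc u : ℤ) else 0))
          * (∑ u ∈ U z, (ipc u : ℤ) * ikp (tlo G T hm) y u) := by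
  set X : Finset V → Finset V := xlv G (CP G Z T S) (tlo G T hm) z g with hXd
  have hX : ∀ Q, X Q ⊆ oth (tlo G T hm) z Q := fun Q => xlv_sub
  have hk : ∀ u ∈ K, ikp (tlo G T hm) z u ≠ 0 := fun u hu h3 => by
    have := hg1 u hu
    have := hg2 u hu
    omega
  have h1 := Fam.row_col hF hP hC hW h hz hy hzy hK hk hX (Y := CP G Z T S y) subset_rfl
  have key : ∀ u ∈ K,
      (rpts (tlo G T hm) X z u).card = g u + 1 ∧
      ((CP G Z T S z).card : ℤ) * g u - ilm G (CP G Z T S) (tlo G T hm) z g u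
        ≤ ((CP G Z T S z).card : ℤ) * ikp (tlo G T hm) z u
          - (rcl G (CP G Z T S) (tlo G T hm) X z u).card := fun u hu => by
    obtain ⟨x, hx, hux⟩ := mem_biUnion.1 (hK hu)
    exact (h x (mem_of_mem_erase hx)).lev hF hh hC (mem_of_mem_erase hx) hux (hg1 u hu) (hg2 u hu)
  have hdis : ∀ u ∈ K, ∀ v ∈ K, u ≠ v → Disjoint (rpts (tlo G T hm) X z u)
      (rpts (tlo G T hm) X z v) := by
    intro u hu v hv huv
    obtain ⟨x, hx, hux⟩ := mem_biUnion.1 (hK hu)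
    obtain ⟨x', hx', hvx⟩ := mem_biUnion.1 (hK hv)
    exact (Fam.dis_row hW h (mem_of_mem_erase hx) (mem_of_mem_erase hx') hux hvx huv (hk u hu)
      (hk v hv)).mono ((h x (mem_of_mem_erase hx)).rpts_sub hX)
      ((h x' (mem_of_mem_erase hx')).rpts_sub hX)
  have hsd : K.biUnion (rpts (tlo G T hm) X z) \ CP G Z T S y
      = K.biUnion fun u => rpts (tlo G T hm) X z u \ CP G Z T S y := by
    ext v
    simp only [mem_sdiff, mem_biUnion]
    constructor
    · rintro ⟨⟨u, hu, hv⟩, hv'⟩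
      exact ⟨u, hu, hv, hv'⟩
    · rintro ⟨u, hu, hv, hv'⟩
      exact ⟨⟨u, hu, hv⟩, hv'⟩
  have hdis' : ∀ u ∈ K, ∀ v ∈ K, u ≠ v → Disjoint (rpts (tlo G T hm) X z u \ CP G Z T S y)
      (rpts (tlo G T hm) X z v \ CP G Z T S y) := fun u hu v hv huv =>
    (hdis u hu v hv huv).mono sdiff_subset sdiff_subset
  -- the host of an item
  have hown : ∀ u ∈ K, ∃ x ∈ A, u ∈ U x ∧ (x = y ↔ u ∈ U y) := by
    intro u hu
    obtain ⟨x, hx, hux⟩ := mem_biUnion.1 (hK hu)
    refine ⟨x, mem_of_mem_erase hx, hux, fun h2 => h2 ▸ hux, fun huy => ?_⟩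
    by_contra hxy
    obtain ⟨v, hv⟩ := (h y hy).imem_ne huy
    exact disjoint_left.1 (hC.dHP (mem_of_mem_erase hx) hy hxy)
      ((h x (mem_of_mem_erase hx)).imem_sub hux hv) ((h y hy).imem_sub huy hv)
  -- items of other hosts have no point in the columns
  have hoff : ∀ u ∈ K, u ∉ U y → Disjoint (rpts (tlo G T hm) X z u) (CP G Z T S y) := by
    intro u hu huy
    obtain ⟨x, hx, hux, hxy⟩ := hown u hu
    have hxy' : x ≠ y := fun h9 => huy (hxy.1 h9)
    have hf := h x hx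
    rw [disjoint_left]
    intro v hv hv'
    have h2 := hf.ipts_sub hux (hf.rpts_sub hX hv)
    rcases mem_union.1 h2 with h3 | h3
    · exact disjoint_left.1 (hW.dHC x hx y hy) h3 hv'
    · exact disjoint_left.1 (hW.dCC x hx y hy hxy') h3 hv'
  have hw1 : ∀ u ∈ K, ((rpts (tlo G T hm) X z u \ CP G Z T S y).card : ℤ)
      = (g u : ℤ) + 1 - if u ∈ U y then (ipc u : ℤ) else 0 := by
    intro u hu
    by_cases h3 : u ∈ U y
    · rw [if_pos h3]
      have h2 := Fam.own_lev hF hh hC hW h hy h3 (hg1 u hu) (hg2 u hu)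
      have : ((rpts (tlo G T hm) X z u \ CP G Z T S y).card : ℤ) + ipc u
        = (g u : ℤ) + 1 := by exact_mod_cast h2
      linarith
    · rw [if_neg h3, sub_zero, Finset.sdiff_eq_self_of_disjoint (hoff u hu h3), (key u hu).1]
      push_cast
      rfl
  have hw3 : ((K.biUnion (rpts (tlo G T hm) X z) \ CP G Z T S y).card : ℤ)
      = ∑ u ∈ K, ((g u : ℤ) + 1 - if u ∈ U y then (ipc u : ℤ) else 0) := by
    rw [hsd, card_biUnion hdis']
    push_cast
    exact sum_congr rfl hw1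
  have hnd : ∑ v ∈ K.biUnion (rpts (tlo G T hm) X z) \ CP G Z T S y,
        (nd G (CP G Z T S y) v : ℤ)
      ≤ ∑ u ∈ K, (if u ∈ U y then (iar G (CP G Z T S y) u : ℤ)
            else (CP G Z T S y).card * ((g u : ℤ) + 1)) := by
    rw [hsd, sum_biUnion (fun u hu v hv huv => hdis' u hu v hv huv)]
    refine sum_le_sum fun u hu => ?_
    by_cases h3 : u ∈ U y
    · rw [if_pos h3]
      have h4 := Fam.nd_own (z := z) h hy h3 hX
      exact_mod_cast h4
    · rw [if_neg h3]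
      have h4 : ∑ v ∈ rpts (tlo G T hm) X z u \ CP G Z T S y, (nd G (CP G Z T S y) v : ℤ)
          ≤ ∑ v ∈ rpts (tlo G T hm) X z u \ CP G Z T S y, ((CP G Z T S y).card : ℤ) :=
        sum_le_sum fun v _ => by
          have : nd G (CP G Z T S y) v ≤ (CP G Z T S y).card := card_filter_le _ _
          exact_mod_cast this
      rw [sum_const, nsmul_eq_mul, hw1 u hu, if_neg h3, sub_zero] at h4
      linarith
  have hq : ((CP G Z T S y ∩ K.biUnion (rpts (tlo G T hm) X z)).card : ℤ)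
      ≤ ∑ u ∈ K, (if u ∈ U y then (ipc u : ℤ) else 0) := by
    have h2 : CP G Z T S y ∩ K.biUnion (rpts (tlo G T hm) X z)
        ⊆ K.biUnion fun u => CP G Z T S y ∩ rpts (tlo G T hm) X z u := by
      intro v hv
      obtain ⟨h3, h4⟩ := mem_inter.1 hv
      obtain ⟨u, hu, h5⟩ := mem_biUnion.1 h4
      exact mem_biUnion.2 ⟨u, hu, mem_inter.2 ⟨h3, h5⟩⟩
    have h3 := (card_le_card h2).trans card_biUnion_le
    have h4 : ((CP G Z T S y ∩ K.biUnion (rpts (tlo G T hm) X z)).card : ℤ)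
        ≤ ∑ u ∈ K, ((CP G Z T S y ∩ rpts (tlo G T hm) X z u).card : ℤ) := by exact_mod_cast h3
    refine h4.trans (sum_le_sum fun u hu => ?_)
    by_cases h3 : u ∈ U y
    · rw [if_pos h3]
      have hf := h y hy
      rcases u with Q | e
      · have h5 : CP G Z T S y ∩ rpts (tlo G T hm) X z (Sum.inl Q) = ∅ := by
          rw [← disjoint_iff_inter_eq_empty, disjoint_left]
          intro v hv hv'
          exact disjoint_left.1 (hW.dHC y hy y hy) (hf.sub Q h3 (hf.rpts_sub hX hv')) hv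
        rw [h5]
        simp
      · have h5 : CP G Z T S y ∩ rpts (tlo G T hm) X z (Sum.inr e) ⊆ {e.2} := by
          intro v hv
          obtain ⟨h6, h7⟩ := mem_inter.1 hv
          simp only [rpts] at h7
          rcases mem_insert.1 h7 with h8 | h8
          · exact absurd h6 (fun h9 => disjoint_left.1 (hW.dHC y hy y hy) (hf.pcH e h3)
              (h8 ▸ h9))
          · exact h8
        have h6 := card_le_card h5
        rw [card_singleton] at h6
        simp only [ipc]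
        exact_mod_cast h6
    · rw [if_neg h3, disjoint_iff_inter_eq_empty.1 (hoff u hu h3).symm]
      simp
  have hq' : ((pcz (tlo G T hm) y (U z)).card : ℤ)
      ≤ ∑ u ∈ U z, (ipc u : ℤ) * ikp (tlo G T hm) y u := by
    have h2 : (pcz (tlo G T hm) y (U z)).card
        = ((pcz (tlo G T hm) y (U z)).image (Sum.inr : V × V → Itm V)).card :=
      (card_image_of_injective _ Sum.inr_injective).symm
    have h3 : (pcz (tlo G T hm) y (U z)).image (Sum.inr : V × V → Itm V) ⊆ U z := by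
      intro u hu
      obtain ⟨e, he, rfl⟩ := mem_image.1 hu
      exact (mem_pcz.1 he).1
    rw [h2, card_eq_sum_ones]
    push_cast
    refine le_trans (sum_le_sum fun u hu => ?_)
      (sum_le_sum_of_subset_of_nonneg h3 fun u _ _ => by positivity)
    obtain ⟨e, he, rfl⟩ := mem_image.1 hu
    have h4 := (mem_pcz.1 he).2
    simp only [ipc, ikp, h4, if_true]
    norm_num
  have hih : ∑ u ∈ U z, (((CP G Z T S y).card : ℤ) * ikp (tlo G T hm) y u
        - (CP G Z T S y ∩ icl G (CP G Z T S) (tlo G T hm) y u).card)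
      = ∑ u ∈ U z, iht G (CP G Z T S) (tlo G T hm) y u := by
    refine sum_congr rfl fun u _ => ?_
    have h2 : CP G Z T S y ∩ icl G (CP G Z T S) (tlo G T hm) y u
        = icl G (CP G Z T S) (tlo G T hm) y u := inter_eq_right.2 rcl_sub
    rw [h2]
    rfl
  have hsum := sum_le_sum fun u hu => (key u hu).2
  rw [hih, hw3] at h1
  have hq0 : (0 : ℤ) ≤ (CP G Z T S y ∩ K.biUnion (rpts (tlo G T hm) X z)).card :=
    Nat.cast_nonneg _
  have hq0' : (0 : ℤ) ≤ (pcz (tlo G T hm) y (U z)).card := Nat.cast_nonneg _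
  have hqq := mul_le_mul hq hq' hq0' (hq0.trans hq)
  linarith

/-- **the cell test at any levels**, the missing pairs of the points kept -/
theorem Fam.cell_levN (hF : PFrame G r m t Z T) (hh : Homes G Z T hm) (hP : PG G r)
    (hC : CSys G Z T hm A S)
    (hW : WSysT G (co G) A (CP G Z T S) (HP G Z T S) (tlo G T hm))
    (h : ∀ x ∈ A, Fam (co G) (CP G Z T S) (HP G Z T S) (tlo G T hm) x (U x))
    {x z : V} (hx : x ∈ A) (hz : z ∈ A) (hxz : x ≠ z) {K K' : Finset (Itm V)}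
    (hK : K ⊆ U x) (hK' : K' ⊆ U z) {g g' : Itm V → ℕ}
    (hg1 : ∀ u ∈ K, 1 ≤ g u) (hg2 : ∀ u ∈ K, g u ≤ ikp (tlo G T hm) z u)
    (hg1' : ∀ u ∈ K', 1 ≤ g' u) (hg2' : ∀ u ∈ K', g' u ≤ ikp (tlo G T hm) x u) :
    2 * ∑ u ∈ K, (((r : ℤ) - 1) * g u
          + (1 - (ipc u : ℤ)) * ((r : ℤ) - 1 - (CP G Z T S z).card)
          - ilm G (CP G Z T S) (tlo G T hm) z g u - iar G (CP G Z T S x) u)
      + 2 * ∑ u ∈ K', (((r : ℤ) - 1) * g' u
          + (1 - (ipc u : ℤ)) * ((r : ℤ) - 1 - (CP G Z T S x).card)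
          - ilm G (CP G Z T S) (tlo G T hm) x g' u - iar G (CP G Z T S z) u)
      + 2 * ∑ c ∈ CP G Z T S z \ (CP G Z T S z
            ∩ K'.biUnion (rpts (tlo G T hm) (xlv G (CP G Z T S) (tlo G T hm) x g') x)),
          (dg G (CP G Z T S x \ (CP G Z T S x
            ∩ K.biUnion (rpts (tlo G T hm) (xlv G (CP G Z T S) (tlo G T hm) z g) z))) c : ℤ)
      ≤ 2 * ((r : ℤ) - 1 + ((r : ℤ) - 1 - (CP G Z T S x).card)
            * ((r : ℤ) - 1 - (CP G Z T S z).card))
        + NE G (K.biUnion (rpts (tlo G T hm) (xlv G (CP G Z T S) (tlo G T hm) z g) z)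
              \ CP G Z T S x
            ∪ K'.biUnion (rpts (tlo G T hm) (xlv G (CP G Z T S) (tlo G T hm) x g') x)
              \ CP G Z T S z)
        + 2 * (∑ u ∈ K, (ipc u : ℤ)) * ∑ u ∈ K', (ipc u : ℤ) := by
  have hk : ∀ u ∈ K, ikp (tlo G T hm) z u ≠ 0 := fun u hu h3 => by
    have := hg1 u hu
    have := hg2 u hu
    omega
  have hk' : ∀ u ∈ K', ikp (tlo G T hm) x u ≠ 0 := fun u hu h3 => by
    have := hg1' u hu
    have := hg2' u hu
    omega
  have h1 := Fam.cell_k hF hP hC hW h hx hz hxz hK hK' hk hk'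
    (X := xlv G (CP G Z T S) (tlo G T hm) z g) (X' := xlv G (CP G Z T S) (tlo G T hm) x g')
    (fun Q => xlv_sub) (fun Q => xlv_sub)
  obtain ⟨a1, a2, a3⟩ := Fam.own_sumsL hF hh hC hW h hx hK hg1 hg2
  obtain ⟨b1, b2, b3⟩ := Fam.own_sumsL hF hh hC hW h hz hK' hg1' hg2'
  have c1 : ∑ u ∈ K, (((CP G Z T S z).card : ℤ) * g u
        - ilm G (CP G Z T S) (tlo G T hm) z g u)
      ≤ ∑ u ∈ K, (((CP G Z T S z).card : ℤ) * ikp (tlo G T hm) z u
          - (rcl G (CP G Z T S) (tlo G T hm)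
            (xlv G (CP G Z T S) (tlo G T hm) z g) z u).card) :=
    sum_le_sum fun u hu => ((h x hx).lev hF hh hC hx (hK hu) (hg1 u hu) (hg2 u hu)).2
  have c2 : ∑ u ∈ K', (((CP G Z T S x).card : ℤ) * g' u
        - ilm G (CP G Z T S) (tlo G T hm) x g' u)
      ≤ ∑ u ∈ K', (((CP G Z T S x).card : ℤ) * ikp (tlo G T hm) x u
          - (rcl G (CP G Z T S) (tlo G T hm)
            (xlv G (CP G Z T S) (tlo G T hm) x g') x u).card) :=
    sum_le_sum fun u hu => ((h z hz).lev hF hh hC hz (hK' hu) (hg1' u hu) (hg2' u hu)).2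
  have d1 : ∑ u ∈ K, (((r : ℤ) - 1) * g u
          + (1 - (ipc u : ℤ)) * ((r : ℤ) - 1 - (CP G Z T S z).card)
          - ilm G (CP G Z T S) (tlo G T hm) z g u - iar G (CP G Z T S x) u)
      = ∑ u ∈ K, (((CP G Z T S z).card : ℤ) * g u - ilm G (CP G Z T S) (tlo G T hm) z g u)
        + (∑ u ∈ K, ((g u : ℤ) + 1 - ipc u)) * ((r : ℤ) - 1 - (CP G Z T S z).card)
        - ∑ u ∈ K, (iar G (CP G Z T S x) u : ℤ) := by
    rw [sum_mul, ← sum_add_distrib, ← sum_sub_distrib]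
    exact sum_congr rfl fun u _ => by ring
  have d2 : ∑ u ∈ K', (((r : ℤ) - 1) * g' u
          + (1 - (ipc u : ℤ)) * ((r : ℤ) - 1 - (CP G Z T S x).card)
          - ilm G (CP G Z T S) (tlo G T hm) x g' u - iar G (CP G Z T S z) u)
      = ∑ u ∈ K', (((CP G Z T S x).card : ℤ) * g' u - ilm G (CP G Z T S) (tlo G T hm) x g' u)
        + (∑ u ∈ K', ((g' u : ℤ) + 1 - ipc u)) * ((r : ℤ) - 1 - (CP G Z T S x).card)
        - ∑ u ∈ K', (iar G (CP G Z T S z) u : ℤ) := by
    rw [sum_mul, ← sum_add_distrib, ← sum_sub_distrib]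
    exact sum_congr rfl fun u _ => by ring
  have e3 := mul_le_mul a3 b3 (Nat.cast_nonneg _) ((Nat.cast_nonneg _).trans a3)
  rw [a1, b1] at h1
  rw [d1, d2]
  linarith

/-- **the cell test at any levels** -/
theorem Fam.cell_lev (hF : PFrame G r m t Z T) (hh : Homes G Z T hm) (hP : PG G r)
    (hC : CSys G Z T hm A S)
    (hW : WSysT G (co G) A (CP G Z T S) (HP G Z T S) (tlo G T hm))
    (h : ∀ x ∈ A, Fam (co G) (CP G Z T S) (HP G Z T S) (tlo G T hm) x (U x))
    {x z : V} (hx : x ∈ A) (hz : z ∈ A) (hxz : x ≠ z) {K K' : Finset (Itm V)}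
    (hK : K ⊆ U x) (hK' : K' ⊆ U z) {g g' : Itm V → ℕ}
    (hg1 : ∀ u ∈ K, 1 ≤ g u) (hg2 : ∀ u ∈ K, g u ≤ ikp (tlo G T hm) z u)
    (hg1' : ∀ u ∈ K', 1 ≤ g' u) (hg2' : ∀ u ∈ K', g' u ≤ ikp (tlo G T hm) x u) :
    2 * ∑ u ∈ K, (((r : ℤ) - 1) * g u
          + (1 - (ipc u : ℤ)) * ((r : ℤ) - 1 - (CP G Z T S z).card)
          - ilm G (CP G Z T S) (tlo G T hm) z g u - iar G (CP G Z T S x) u)
      + 2 * ∑ u ∈ K', (((r : ℤ) - 1) * g' u
          + (1 - (ipc u : ℤ)) * ((r : ℤ) - 1 - (CP G Z T S x).card)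
          - ilm G (CP G Z T S) (tlo G T hm) x g' u - iar G (CP G Z T S z) u)
      ≤ 2 * ((r : ℤ) - 1 + ((r : ℤ) - 1 - (CP G Z T S x).card)
            * ((r : ℤ) - 1 - (CP G Z T S z).card))
        + (∑ u ∈ K, ((g u : ℤ) + 1 - ipc u) + ∑ u ∈ K', ((g' u : ℤ) + 1 - ipc u))
          * (∑ u ∈ K, ((g u : ℤ) + 1 - ipc u) + ∑ u ∈ K', ((g' u : ℤ) + 1 - ipc u) - 1)
        + 2 * (∑ u ∈ K, (ipc u : ℤ)) * ∑ u ∈ K', (ipc u : ℤ) := by
  have h1 := Fam.cell_levN hF hh hP hC hW h hx hz hxz hK hK' hg1 hg2 hg1' hg2'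
  obtain ⟨a1, -, -⟩ := Fam.own_sumsL hF hh hC hW h hx hK hg1 hg2
  obtain ⟨b1, -, -⟩ := Fam.own_sumsL hF hh hC hW h hz hK' hg1' hg2'
  set W := K.biUnion (rpts (tlo G T hm) (xlv G (CP G Z T S) (tlo G T hm) z g) z)
    \ CP G Z T S x with hWd
  set W' := K'.biUnion (rpts (tlo G T hm) (xlv G (CP G Z T S) (tlo G T hm) x g') x)
    \ CP G Z T S z with hWd'
  have h2 := NE_le_card (G := G) (W ∪ W')
  have h3 : ((W ∪ W').card : ℤ) ≤ W.card + W'.card := by
    exact_mod_cast card_union_le W W'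
  have h4 : (0 : ℤ) ≤ (W ∪ W').card := Nat.cast_nonneg _
  have h5 : ((W ∪ W').card : ℤ) * ((W ∪ W').card - 1)
      ≤ ((W.card : ℤ) + W'.card) * ((W.card : ℤ) + W'.card - 1) := by
    rcases Nat.eq_zero_or_pos (W ∪ W').card with h6 | h6
    · rw [h6]
      have h7 : (0 : ℤ) ≤ (W.card : ℤ) + W'.card := by positivity
      rcases h7.eq_or_lt with h8 | h8
      · rw [← h8]
        norm_num
      · have : (1 : ℤ) ≤ (W.card : ℤ) + W'.card := h8
        have := mul_nonneg h7 (by linarith : (0 : ℤ) ≤ (W.card : ℤ) + W'.card - 1)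
        push_cast
        linarith
    · have : (1 : ℤ) ≤ (W ∪ W').card := by exact_mod_cast h6
      nlinarith
  rw [a1, b1] at h5
  have h8 : (0 : ℤ) ≤ ∑ c ∈ CP G Z T S z \ (CP G Z T S z
            ∩ K'.biUnion (rpts (tlo G T hm) (xlv G (CP G Z T S) (tlo G T hm) x g') x)),
          (dg G (CP G Z T S x \ (CP G Z T S x
            ∩ K.biUnion (rpts (tlo G T hm) (xlv G (CP G Z T S) (tlo G T hm) z g) z))) c : ℤ) :=
    sum_nonneg fun _ _ => Nat.cast_nonneg _
  linarith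

end LvW

end Pool.Agent.Lib.MP_f04ccf_co
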