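import Pool.Agent.Lib.MP_f04ccf_co.M.RowJ
import Pool.Agent.Lib.MP_f04ccf_co.M.MatW

/-!
MP_f04ccf_co, PLAN W: **the row test with the columns of a set `J` of rows at any levels** (cliques).

* `Fam.lev_out`, `Fam.own_levJ`: the points of an item at the level `g` outside the columns of `J`;
* `Fam.rowML_of`: `RowM` (any extra term, in particular the payments of the cells) with the points `xlv` at
  the levels `g`, slope `|J|`, over the items;
* `WHom.rowML`: over the basic integers;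
* `WCoreK.rowJL`: over the row indices, all cells paid, with the same-host saving.
-/

set_option autoImplicit false

namespace Pool.Agent.Lib.MP_f04ccf_co

open Finset

attribute [local instance] Classical.propDecidable

section RowL

variable {V : Type*} {G : SimpleGraph V} {Z T : Finset V} {hm : V → V} {r m t : ℕ}
  {A : Finset V} {S : V → Finset V} {U : V → Finset (Itm V)}

/-- the used points outside the columns of `J` -/
lemma Fam.lev_out (hW : WSysT G (co G) A (CP G Z T S) (HP G Z T S) (tlo G T hm))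
    (h : ∀ x ∈ A, Fam (co G) (CP G Z T S) (HP G Z T S) (tlo G T hm) x (U x))
    {x z : V} (hx : x ∈ A) {u : Itm V} (hu : u ∈ U x) {J : Finset V} (hJ : J ⊆ A)
    {X : Finset V → Finset V} (hX : ∀ Q, X Q ⊆ oth (tlo G T hm) z Q) :
    rpts (tlo G T hm) X z u \ J.biUnion (CP G Z T S)
      = if x ∈ J then rpts (tlo G T hm) X z u \ CP G Z T S x else rpts (tlo G T hm) X z u := by
  have hf := h x hx
  have hsub : ∀ v ∈ rpts (tlo G T hm) X z u, v ∈ HP G Z T S x ∨ v ∈ CP G Z T S x := fun v hv =>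
    mem_union.1 (hf.ipts_sub hu (hf.rpts_sub hX hv))
  have hout : ∀ v ∈ rpts (tlo G T hm) X z u, ∀ j ∈ J, v ∈ CP G Z T S j → x = j := by
    intro v hv j hj hvj
    by_contra hne
    rcases hsub v hv with h1 | h1
    · exact disjoint_left.1 (hW.dHC x hx j (hJ hj)) h1 hvj
    · exact disjoint_left.1 (hW.dCC x hx j (hJ hj) hne) h1 hvj
  by_cases h1 : x ∈ J
  · rw [if_pos h1]
    ext v
    simp only [mem_sdiff, mem_biUnion]
    constructor
    · rintro ⟨h2, h3⟩
      exact ⟨h2, fun h4 => h3 ⟨x, h1, h4⟩⟩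
    · rintro ⟨h2, h3⟩
      refine ⟨h2, ?_⟩
      rintro ⟨j, hj, h4⟩
      exact h3 (hout v h2 j hj h4 ▸ h4)
  · rw [if_neg h1]
    ext v
    simp only [mem_sdiff, mem_biUnion]
    constructor
    · rintro ⟨h2, -⟩
      exact h2
    · intro h2
      refine ⟨h2, ?_⟩
      rintro ⟨j, hj, h4⟩
      exact h1 (hout v h2 j hj h4 ▸ hj)

/-- the number of the used points outside the columns of `J` -/
lemma Fam.own_levJ (hF : PFrame G r m t Z T) (hh : Homes G Z T hm) (hC : CSys G Z T hm A S)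
    (hW : WSysT G (co G) A (CP G Z T S) (HP G Z T S) (tlo G T hm))
    (h : ∀ x ∈ A, Fam (co G) (CP G Z T S) (HP G Z T S) (tlo G T hm) x (U x))
    {x z : V} (hx : x ∈ A) {J : Finset V} (hJ : J ⊆ A) {g : Itm V → ℕ} {u : Itm V} (hu : u ∈ U x)
    (h1 : 1 ≤ g u) (h2 : g u ≤ ikp (tlo G T hm) z u) :
    ((rpts (tlo G T hm) (xlv G (CP G Z T S) (tlo G T hm) z g) z u
      \ J.biUnion (CP G Z T S)).card : ℤ) = (g u : ℤ) + 1 - if x ∈ J then (ipc u : ℤ) else 0 := by
  rw [Fam.lev_out hW h hx hu hJ fun Q => xlv_sub]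
  by_cases h3 : x ∈ J
  · rw [if_pos h3, if_pos h3]
    have h4 := Fam.own_lev hF hh hC hW h hx hu h1 h2
    have h5 : ((rpts (tlo G T hm) (xlv G (CP G Z T S) (tlo G T hm) z g) z u
      \ CP G Z T S x).card : ℤ) + ipc u = g u + 1 := by exact_mod_cast h4
    linarith
  · rw [if_neg h3, if_neg h3, ((h x hx).lev hF hh hC hx hu h1 h2).1]
    push_cast
    ring

/-- **the row test with the columns of `J`, slope `|J|`, at any levels `g`**: any extra term `EX`, `D` ordered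
pairs of items with adjacent used points outside the columns -/
theorem Fam.rowML_of (hF : PFrame G r m t Z T) (hh : Homes G Z T hm)
    (hW : WSysT G (co G) A (CP G Z T S) (HP G Z T S) (tlo G T hm)) (hC : CSys G Z T hm A S)
    (h : ∀ x ∈ A, Fam (co G) (CP G Z T S) (HP G Z T S) (tlo G T hm) x (U x))
    {ho : Itm V → V} (hho : ∀ x ∈ A, ∀ u ∈ U x, ho u = x)
    {z : V} {J : Finset V} (hJ : J ⊆ A) {K : Finset (Itm V)}
    (hK : K ⊆ (A.erase z).biUnion U) {g : Itm V → ℕ}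
    (hg1 : ∀ u ∈ K, 1 ≤ g u) (hg2 : ∀ u ∈ K, g u ≤ ikp (tlo G T hm) z u) {EX : ℤ}
    (hE : RowM G Z T hm r S U J.card K (xlv G (CP G Z T S) (tlo G T hm) z g) z J EX)
    {D : Finset (Itm V × Itm V)}
    (hD : ∀ e ∈ D, e.1 ∈ K ∧ e.2 ∈ K ∧
      ∃ p ∈ rpts (tlo G T hm) (xlv G (CP G Z T S) (tlo G T hm) z g) z e.1 \ J.biUnion (CP G Z T S),
      ∃ q ∈ rpts (tlo G T hm) (xlv G (CP G Z T S) (tlo G T hm) z g) z e.2 \ J.biUnion (CP G Z T S),
        G.Adj p q) :
    ((r : ℤ) - 1) * (2 * J.card * (((S z).card : ℤ) + ∑ j ∈ J, ((CP G Z T S j).card : ℤ))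
        - r * J.card * (J.card + 1))
      + 2 * ∑ u ∈ K, (((CP G Z T S z).card : ℤ) * g u
          - ilm G (CP G Z T S) (tlo G T hm) z g u)
      + 2 * ∑ j ∈ J, ∑ u ∈ U z, iht G (CP G Z T S) (tlo G T hm) j u
      + ∑ j ∈ J, ∑ i ∈ J.erase j, ∑ v ∈ CP G Z T S i, (dg G (CP G Z T S j) v : ℤ)
      + EX + D.card
      ≤ NE G (S z)
        + 2 * (∑ j ∈ J, ((CP G Z T S j).card : ℤ)) * (S z).card
        + ∑ j ∈ J, ∑ i ∈ J.erase j, ((CP G Z T S i).card : ℤ) * (CP G Z T S j).card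
        + 2 * (∑ u ∈ K, ((g u : ℤ) + 1 - if ho u ∈ J then (ipc u : ℤ) else 0))
          * (((S z).card : ℤ) - r + 1)
        + (∑ u ∈ K, ((g u : ℤ) + 1 - if ho u ∈ J then (ipc u : ℤ) else 0))
          * (∑ u ∈ K, ((g u : ℤ) + 1 - if ho u ∈ J then (ipc u : ℤ) else 0) - 1)
        + 2 * ∑ u ∈ K, (if ho u ∈ J then (iar G (CP G Z T S (ho u)) u : ℤ)
              + ((g u : ℤ) + 1 - ipc u) * (∑ l ∈ J.erase (ho u), ((CP G Z T S l).card : ℤ)
                - ((J.card : ℤ) - 1) * ((r : ℤ) - 1))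
            else ((g u : ℤ) + 1) * (∑ j ∈ J, ((CP G Z T S j).card : ℤ)
                - ((J.card : ℤ) - 1) * ((r : ℤ) - 1)))
        + 2 * ∑ j ∈ J, (∑ u ∈ K, (if ho u = j then (ipc u : ℤ) else 0))
          * (∑ u ∈ U z, (ipc u : ℤ) * ikp (tlo G T hm) j u) := by
  have h1 := hE
  unfold RowM at h1
  obtain ⟨X, hXd⟩ : ∃ X, X = xlv G (CP G Z T S) (tlo G T hm) z g := ⟨_, rfl⟩
  rw [← hXd] at h1 hD
  have hX : ∀ Q, X Q ⊆ oth (tlo G T hm) z Q := by
    intro Q
    rw [hXd]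
    exact xlv_sub
  have hk : ∀ u ∈ K, ikp (tlo G T hm) z u ≠ 0 := fun u hu h3 => by
    have := hg1 u hu
    have := hg2 u hu
    omega
  have hown : ∀ u ∈ K, ∃ x ∈ A, u ∈ U x ∧ ho u = x := by
    intro u hu
    obtain ⟨x, hx, hux⟩ := mem_biUnion.1 (hK hu)
    exact ⟨x, mem_of_mem_erase hx, hux, hho x (mem_of_mem_erase hx) u hux⟩
  have hdis : ∀ u ∈ K, ∀ v ∈ K, u ≠ v → Disjoint (rpts (tlo G T hm) X z u \ J.biUnion (CP G Z T S))
      (rpts (tlo G T hm) X z v \ J.biUnion (CP G Z T S)) := by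
    intro u hu v hv huv
    obtain ⟨x, hx, hux⟩ := mem_biUnion.1 (hK hu)
    obtain ⟨x', hx', hvx⟩ := mem_biUnion.1 (hK hv)
    exact ((Fam.dis_row hW h (mem_of_mem_erase hx) (mem_of_mem_erase hx') hux hvx huv (hk u hu)
      (hk v hv)).mono ((h x (mem_of_mem_erase hx)).rpts_sub hX)
      ((h x' (mem_of_mem_erase hx')).rpts_sub hX)).mono sdiff_subset sdiff_subset
  have hsd : K.biUnion (rpts (tlo G T hm) X z) \ J.biUnion (CP G Z T S)
      = K.biUnion fun u => rpts (tlo G T hm) X z u \ J.biUnion (CP G Z T S) := by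
    ext v
    simp only [mem_sdiff, mem_biUnion]
    constructor
    · rintro ⟨⟨u, hu, hv⟩, hv'⟩
      exact ⟨u, hu, hv, hv'⟩
    · rintro ⟨u, hu, hv, hv'⟩
      exact ⟨⟨u, hu, hv⟩, hv'⟩
  have hne := NE_grp_le (G := G) (K := K)
    (P := fun u => rpts (tlo G T hm) X z u \ J.biUnion (CP G Z T S)) hdis hD
  rw [← hsd] at hne
  have hne' : (NE G (K.biUnion (rpts (tlo G T hm) X z) \ J.biUnion (CP G Z T S)) : ℤ) + D.card
      + (K.biUnion (rpts (tlo G T hm) X z) \ J.biUnion (CP G Z T S)).card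
      ≤ ((K.biUnion (rpts (tlo G T hm) X z) \ J.biUnion (CP G Z T S)).card : ℤ)
        * (K.biUnion (rpts (tlo G T hm) X z) \ J.biUnion (CP G Z T S)).card := by
    exact_mod_cast hne
  have hw1 : ∀ u ∈ K, ((rpts (tlo G T hm) X z u \ J.biUnion (CP G Z T S)).card : ℤ)
      = (g u : ℤ) + 1 - if ho u ∈ J then (ipc u : ℤ) else 0 := by
    intro u hu
    obtain ⟨x, hx, hux, hxo⟩ := hown u hu
    rw [hxo, hXd]
    exact Fam.own_levJ hF hh hC hW h hx hJ hux (hg1 u hu) (hg2 u hu)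
  have hw3 : ((K.biUnion (rpts (tlo G T hm) X z) \ J.biUnion (CP G Z T S)).card : ℤ)
      = ∑ u ∈ K, ((g u : ℤ) + 1 - if ho u ∈ J then (ipc u : ℤ) else 0) := by
    rw [hsd, card_biUnion hdis]
    push_cast
    exact sum_congr rfl hw1
  -- the hits
  have hhit := sum_le_sum fun u hu => by
    obtain ⟨x, hx, hux, -⟩ := hown u hu
    exact ((h x hx).lev hF hh hC hx hux (hg1 u hu) (hg2 u hu)).2
  rw [← hXd] at hhit
  -- the missed class points
  have hnd : ∑ j ∈ J, ∑ v ∈ K.biUnion (rpts (tlo G T hm) X z) \ J.biUnion (CP G Z T S),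
        (nd G (CP G Z T S j) v : ℤ)
      = ∑ u ∈ K, ∑ j ∈ J, ∑ v ∈ rpts (tlo G T hm) X z u \ J.biUnion (CP G Z T S),
        (nd G (CP G Z T S j) v : ℤ) := by
    have e1 : ∀ j ∈ J, ∑ v ∈ K.biUnion (rpts (tlo G T hm) X z) \ J.biUnion (CP G Z T S),
        (nd G (CP G Z T S j) v : ℤ)
        = ∑ u ∈ K, ∑ v ∈ rpts (tlo G T hm) X z u \ J.biUnion (CP G Z T S),
          (nd G (CP G Z T S j) v : ℤ) := fun j _ => by
      rw [hsd, sum_biUnion hdis]
    rw [sum_congr rfl e1, sum_comm]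
  have hcost : ∀ u ∈ K, ∑ j ∈ J, ∑ v ∈ rpts (tlo G T hm) X z u \ J.biUnion (CP G Z T S),
        (nd G (CP G Z T S j) v : ℤ)
        - ((J.card : ℤ) - 1) * ((r : ℤ) - 1)
          * ((g u : ℤ) + 1 - if ho u ∈ J then (ipc u : ℤ) else 0)
      ≤ if ho u ∈ J then (iar G (CP G Z T S (ho u)) u : ℤ)
              + ((g u : ℤ) + 1 - ipc u) * (∑ l ∈ J.erase (ho u), ((CP G Z T S l).card : ℤ)
                - ((J.card : ℤ) - 1) * ((r : ℤ) - 1))
            else ((g u : ℤ) + 1) * (∑ j ∈ J, ((CP G Z T S j).card : ℤ)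
                - ((J.card : ℤ) - 1) * ((r : ℤ) - 1)) := by
    intro u hu
    obtain ⟨x, hx, hux, hxo⟩ := hown u hu
    have hP := hw1 u hu
    rw [hxo] at hP ⊢
    have hall : ∀ j, ∑ v ∈ rpts (tlo G T hm) X z u \ J.biUnion (CP G Z T S),
        (nd G (CP G Z T S j) v : ℤ)
        ≤ ((rpts (tlo G T hm) X z u \ J.biUnion (CP G Z T S)).card : ℤ) * (CP G Z T S j).card := by
      intro j
      have h4 : ∑ v ∈ rpts (tlo G T hm) X z u \ J.biUnion (CP G Z T S), (nd G (CP G Z T S j) v : ℤ)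
          ≤ ∑ _v ∈ rpts (tlo G T hm) X z u \ J.biUnion (CP G Z T S), ((CP G Z T S j).card : ℤ) :=
        sum_le_sum fun v _ => by
          have : nd G (CP G Z T S j) v ≤ (CP G Z T S j).card := card_filter_le _ _
          exact_mod_cast this
      rw [sum_const, nsmul_eq_mul] at h4
      exact h4
    rw [hP] at hall
    by_cases h3 : x ∈ J
    · rw [if_pos h3, if_pos h3]
      simp only [h3, if_true] at hall
      have h4 : ∑ v ∈ rpts (tlo G T hm) X z u \ J.biUnion (CP G Z T S),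
          (nd G (CP G Z T S x) v : ℤ) ≤ iar G (CP G Z T S x) u := by
        have h5 := Fam.nd_own (z := z) (X := X) h hx hux hX
        have h6 : ∑ v ∈ rpts (tlo G T hm) X z u \ J.biUnion (CP G Z T S), nd G (CP G Z T S x) v
            ≤ ∑ v ∈ rpts (tlo G T hm) X z u \ CP G Z T S x, nd G (CP G Z T S x) v :=
          sum_le_sum_of_subset (sdiff_subset_sdiff (Subset.refl _)
            (subset_biUnion_of_mem (CP G Z T S) h3))
        exact_mod_cast h6.trans h5
      rw [← add_sum_erase J _ h3]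
      have h5 : ∑ l ∈ J.erase x, ∑ v ∈ rpts (tlo G T hm) X z u \ J.biUnion (CP G Z T S),
          (nd G (CP G Z T S l) v : ℤ)
          ≤ ((g u : ℤ) + 1 - ipc u) * ∑ l ∈ J.erase x, ((CP G Z T S l).card : ℤ) := by
        rw [mul_sum]
        exact sum_le_sum fun l _ => hall l
      linarith
    · rw [if_neg h3, if_neg h3]
      simp only [h3, if_false] at hall
      have h5 : ∑ j ∈ J, ∑ v ∈ rpts (tlo G T hm) X z u \ J.biUnion (CP G Z T S),
          (nd G (CP G Z T S j) v : ℤ)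
          ≤ ((g u : ℤ) + 1 - 0) * ∑ j ∈ J, ((CP G Z T S j).card : ℤ) := by
        rw [mul_sum]
        exact sum_le_sum fun l _ => hall l
      linarith
  have hcost' := sum_le_sum hcost
  rw [sum_sub_distrib, ← mul_sum, ← hnd] at hcost'
  -- the used class points
  have hq : ∀ j ∈ J, ((CP G Z T S j ∩ K.biUnion (rpts (tlo G T hm) X z)).card : ℤ)
        * (pcz (tlo G T hm) j (U z)).card
      ≤ (∑ u ∈ K, (if ho u = j then (ipc u : ℤ) else 0))
          * (∑ u ∈ U z, (ipc u : ℤ) * ikp (tlo G T hm) j u) := by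
    intro j hj
    have h2 := Fam.card_colW (z := z) (X := X) hC hW h (hJ hj) hK hX
    have h3 : ∑ u ∈ K, (if u ∈ U j then (ipc u : ℤ) else 0)
        ≤ ∑ u ∈ K, (if ho u = j then (ipc u : ℤ) else 0) := by
      refine sum_le_sum fun u hu => ?_
      by_cases h4 : u ∈ U j
      · rw [if_pos h4, if_pos (hho j (hJ hj) u h4)]
      · rw [if_neg h4]
        split_ifs <;> positivity
    refine mul_le_mul (h2.trans h3) card_pcz_le (Nat.cast_nonneg _) ?_
    exact sum_nonneg fun u _ => by split_ifs <;> positivity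
  have hq' := sum_le_sum hq
  have hih : ∀ j, ∑ u ∈ U z, (((CP G Z T S j).card : ℤ) * ikp (tlo G T hm) j u
        - (CP G Z T S j ∩ icl G (CP G Z T S) (tlo G T hm) j u).card)
      = ∑ u ∈ U z, iht G (CP G Z T S) (tlo G T hm) j u := by
    intro j
    refine sum_congr rfl fun u _ => ?_
    have h2 : CP G Z T S j ∩ icl G (CP G Z T S) (tlo G T hm) j u
        = icl G (CP G Z T S) (tlo G T hm) j u := inter_eq_right.2 rcl_sub
    rw [h2]
    rfl
  simp only [hih] at h1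
  rw [hw3] at h1 hne'
  have hhit2 := mul_le_mul_of_nonneg_left hhit (by norm_num : (0 : ℤ) ≤ 2)
  generalize (∑ u ∈ K, ((g u : ℤ) + 1 - if ho u ∈ J then (ipc u : ℤ) else 0)) = w at *
  nlinarith

end RowL

end Pool.Agent.Lib.MP_f04ccf_co
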