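import Pool.Agent.Lib.MP_f04ccf_co.M.RowX
import Pool.Agent.Lib.MP_f04ccf_co.M.RowL

/-!
MP_f04ccf_co, PLAN W: the row test with the columns of a set `J` of rows, at any levels `g`, with the best
other point, exact number of points, NO SIGN CONDITION, any extra term, any saving number.

* `Fam.rowLS_of`: over the items; `WHom.rowLSI`: over the basic integers; `WHom.rowLS`: over the row indices.
-/

set_option autoImplicit false

namespace Pool.Agent.Lib.MP_f04ccf_co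

open Finset

attribute [local instance] Classical.propDecidable

section RowLS

variable {V : Type*} {G : SimpleGraph V} {Z T : Finset V} {hm : V → V} {r m t : ℕ}
  {A : Finset V} {S : V → Finset V} {U : V → Finset (Itm V)}

/-- **the row test with the columns of `J`, slope `|J|`, at any levels `g`**: any extra term `EX`, any saving
`sv` in the missing pairs of the used points outside the columns, NO SIGN CONDITION -/
theorem Fam.rowLS_of (hF : PFrame G r m t Z T) (hh : Homes G Z T hm)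
    (hW : WSysT G (co G) A (CP G Z T S) (HP G Z T S) (tlo G T hm)) (hC : CSys G Z T hm A S)
    (h : ∀ x ∈ A, Fam (co G) (CP G Z T S) (HP G Z T S) (tlo G T hm) x (U x))
    {ho : Itm V → V} (hho : ∀ x ∈ A, ∀ u ∈ U x, ho u = x)
    {z : V} {J : Finset V} (hJ : J ⊆ A) {K : Finset (Itm V)}
    (hK : K ⊆ (A.erase z).biUnion U) {g : Itm V → ℕ}
    (hg1 : ∀ u ∈ K, 1 ≤ g u) (hg2 : ∀ u ∈ K, g u ≤ ikp (tlo G T hm) z u) {EX : ℤ}
    (hE : RowM G Z T hm r S U J.card K (xlv G (CP G Z T S) (tlo G T hm) z g) z J EX)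
    {sv : ℤ}
    (hsv : (NE G (K.biUnion (rpts (tlo G T hm) (xlv G (CP G Z T S) (tlo G T hm) z g) z)
          \ J.biUnion (CP G Z T S)) : ℤ) + sv
      + (K.biUnion (rpts (tlo G T hm) (xlv G (CP G Z T S) (tlo G T hm) z g) z)
          \ J.biUnion (CP G Z T S)).card
      ≤ ((K.biUnion (rpts (tlo G T hm) (xlv G (CP G Z T S) (tlo G T hm) z g) z)
          \ J.biUnion (CP G Z T S)).card : ℤ)
        * (K.biUnion (rpts (tlo G T hm) (xlv G (CP G Z T S) (tlo G T hm) z g) z)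
          \ J.biUnion (CP G Z T S)).card) :
    ((r : ℤ) - 1) * (2 * J.card * (((S z).card : ℤ) + ∑ j ∈ J, ((CP G Z T S j).card : ℤ))
        - r * J.card * (J.card + 1))
      + 2 * ∑ u ∈ K, (((CP G Z T S z).card : ℤ) * g u
          - ilm G (CP G Z T S) (tlo G T hm) z g u)
      + 2 * ∑ j ∈ J, ∑ u ∈ U z, iht G (CP G Z T S) (tlo G T hm) j u
      + ∑ j ∈ J, ∑ i ∈ J.erase j, ∑ v ∈ CP G Z T S i, (dg G (CP G Z T S j) v : ℤ)
      + EX + sv
      ≤ NE G (S z)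
        + 2 * (∑ j ∈ J, ((CP G Z T S j).card : ℤ)) * (S z).card
        + ∑ j ∈ J, ∑ i ∈ J.erase j, ((CP G Z T S i).card : ℤ) * (CP G Z T S j).card
        + 2 * (∑ u ∈ K, ((g u : ℤ) + 1 - if ho u ∈ J then (ipc u : ℤ) else 0))
          * (((S z).card : ℤ) - r + 1)
        + (∑ u ∈ K, ((g u : ℤ) + 1 - if ho u ∈ J then (ipc u : ℤ) else 0))
          * (∑ u ∈ K, ((g u : ℤ) + 1 - if ho u ∈ J then (ipc u : ℤ) else 0) - 1)
        + 2 * ∑ u ∈ K, (if ho u ∈ J then (iar G (CP G Z T S (ho u)) u : ℤ)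
              + ((g u : ℤ) + 1 - ipc u) * (∑ l ∈ J.erase (ho u), ((CP G Z T S l).card : ℤ)
                - ((J.card : ℤ) - 1) * ((r : ℤ) - 1))
            else ((g u : ℤ) + 1) * (∑ j ∈ J, ((CP G Z T S j).card : ℤ)
                - ((J.card : ℤ) - 1) * ((r : ℤ) - 1)))
        + 2 * ∑ j ∈ J, (∑ u ∈ K, (if ho u = j then (ipc u : ℤ) else 0))
          * (∑ u ∈ U z, (ipc u : ℤ) * ikp (tlo G T hm) j u) := by
  have h1 := hE
  unfold RowM at h1
  obtain ⟨X, hXd⟩ : ∃ X, X = xlv G (CP G Z T S) (tlo G T hm) z g := ⟨_, rfl⟩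
  rw [← hXd] at h1 hsv
  have hX : ∀ Q, X Q ⊆ oth (tlo G T hm) z Q := by
    intro Q
    rw [hXd]
    exact xlv_sub
  have hk : ∀ u ∈ K, ikp (tlo G T hm) z u ≠ 0 := fun u hu h3 => by
    have := hg1 u hu
    have := hg2 u hu
    omega
  have hown : ∀ u ∈ K, ∃ x ∈ A, u ∈ U x ∧ ho u = x := by
    intro u hu
    obtain ⟨x, hx, hux⟩ := mem_biUnion.1 (hK hu)
    exact ⟨x, mem_of_mem_erase hx, hux, hho x (mem_of_mem_erase hx) u hux⟩
  have hdis : ∀ u ∈ K, ∀ v ∈ K, u ≠ v → Disjoint (rpts (tlo G T hm) X z u \ J.biUnion (CP G Z T S))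
      (rpts (tlo G T hm) X z v \ J.biUnion (CP G Z T S)) := by
    intro u hu v hv huv
    obtain ⟨x, hx, hux⟩ := mem_biUnion.1 (hK hu)
    obtain ⟨x', hx', hvx⟩ := mem_biUnion.1 (hK hv)
    exact ((Fam.dis_row hW h (mem_of_mem_erase hx) (mem_of_mem_erase hx') hux hvx huv (hk u hu)
      (hk v hv)).mono ((h x (mem_of_mem_erase hx)).rpts_sub hX)
      ((h x' (mem_of_mem_erase hx')).rpts_sub hX)).mono sdiff_subset sdiff_subset
  have hsd : K.biUnion (rpts (tlo G T hm) X z) \ J.biUnion (CP G Z T S)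
      = K.biUnion fun u => rpts (tlo G T hm) X z u \ J.biUnion (CP G Z T S) := by
    ext v
    simp only [mem_sdiff, mem_biUnion]
    constructor
    · rintro ⟨⟨u, hu, hv⟩, hv'⟩
      exact ⟨u, hu, hv, hv'⟩
    · rintro ⟨u, hu, hv, hv'⟩
      exact ⟨⟨u, hu, hv⟩, hv'⟩
  have hw1 : ∀ u ∈ K, ((rpts (tlo G T hm) X z u \ J.biUnion (CP G Z T S)).card : ℤ)
      = (g u : ℤ) + 1 - if ho u ∈ J then (ipc u : ℤ) else 0 := by
    intro u hu
    obtain ⟨x, hx, hux, hxo⟩ := hown u hu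
    rw [hxo, hXd]
    exact Fam.own_levJ hF hh hC hW h hx hJ hux (hg1 u hu) (hg2 u hu)
  have hw3 : ((K.biUnion (rpts (tlo G T hm) X z) \ J.biUnion (CP G Z T S)).card : ℤ)
      = ∑ u ∈ K, ((g u : ℤ) + 1 - if ho u ∈ J then (ipc u : ℤ) else 0) := by
    rw [hsd, card_biUnion hdis]
    push_cast
    exact sum_congr rfl hw1
  -- the hits
  have hhit := sum_le_sum fun u hu => by
    obtain ⟨x, hx, hux, -⟩ := hown u hu
    exact ((h x hx).lev hF hh hC hx hux (hg1 u hu) (hg2 u hu)).2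
  rw [← hXd] at hhit
  -- the missed class points
  have hnd : ∑ j ∈ J, ∑ v ∈ K.biUnion (rpts (tlo G T hm) X z) \ J.biUnion (CP G Z T S),
        (nd G (CP G Z T S j) v : ℤ)
      = ∑ u ∈ K, ∑ j ∈ J, ∑ v ∈ rpts (tlo G T hm) X z u \ J.biUnion (CP G Z T S),
        (nd G (CP G Z T S j) v : ℤ) := by
    have e1 : ∀ j ∈ J, ∑ v ∈ K.biUnion (rpts (tlo G T hm) X z) \ J.biUnion (CP G Z T S),
        (nd G (CP G Z T S j) v : ℤ)
        = ∑ u ∈ K, ∑ v ∈ rpts (tlo G T hm) X z u \ J.biUnion (CP G Z T S),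
          (nd G (CP G Z T S j) v : ℤ) := fun j _ => by
      rw [hsd, sum_biUnion hdis]
    rw [sum_congr rfl e1, sum_comm]
  have hcost : ∀ u ∈ K, ∑ j ∈ J, ∑ v ∈ rpts (tlo G T hm) X z u \ J.biUnion (CP G Z T S),
        (nd G (CP G Z T S j) v : ℤ)
        - ((J.card : ℤ) - 1) * ((r : ℤ) - 1)
          * ((g u : ℤ) + 1 - if ho u ∈ J then (ipc u : ℤ) else 0)
      ≤ if ho u ∈ J then (iar G (CP G Z T S (ho u)) u : ℤ)
              + ((g u : ℤ) + 1 - ipc u) * (∑ l ∈ J.erase (ho u), ((CP G Z T S l).card : ℤ)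
                - ((J.card : ℤ) - 1) * ((r : ℤ) - 1))
            else ((g u : ℤ) + 1) * (∑ j ∈ J, ((CP G Z T S j).card : ℤ)
                - ((J.card : ℤ) - 1) * ((r : ℤ) - 1)) := by
    intro u hu
    obtain ⟨x, hx, hux, hxo⟩ := hown u hu
    have hP := hw1 u hu
    rw [hxo] at hP ⊢
    have hall : ∀ j, ∑ v ∈ rpts (tlo G T hm) X z u \ J.biUnion (CP G Z T S),
        (nd G (CP G Z T S j) v : ℤ)
        ≤ ((rpts (tlo G T hm) X z u \ J.biUnion (CP G Z T S)).card : ℤ) * (CP G Z T S j).card := by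
      intro j
      have h4 : ∑ v ∈ rpts (tlo G T hm) X z u \ J.biUnion (CP G Z T S), (nd G (CP G Z T S j) v : ℤ)
          ≤ ∑ _v ∈ rpts (tlo G T hm) X z u \ J.biUnion (CP G Z T S), ((CP G Z T S j).card : ℤ) :=
        sum_le_sum fun v _ => by
          have : nd G (CP G Z T S j) v ≤ (CP G Z T S j).card := card_filter_le _ _
          exact_mod_cast this
      rw [sum_const, nsmul_eq_mul] at h4
      exact h4
    rw [hP] at hall
    by_cases h3 : x ∈ J
    · rw [if_pos h3, if_pos h3]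
      simp only [h3, if_true] at hall
      have h4 : ∑ v ∈ rpts (tlo G T hm) X z u \ J.biUnion (CP G Z T S),
          (nd G (CP G Z T S x) v : ℤ) ≤ iar G (CP G Z T S x) u := by
        have h5 := Fam.nd_own (z := z) (X := X) h hx hux hX
        have h6 : ∑ v ∈ rpts (tlo G T hm) X z u \ J.biUnion (CP G Z T S), nd G (CP G Z T S x) v
            ≤ ∑ v ∈ rpts (tlo G T hm) X z u \ CP G Z T S x, nd G (CP G Z T S x) v :=
          sum_le_sum_of_subset (sdiff_subset_sdiff (Subset.refl _)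
            (subset_biUnion_of_mem (CP G Z T S) h3))
        exact_mod_cast h6.trans h5
      rw [← add_sum_erase J _ h3]
      have h5 : ∑ l ∈ J.erase x, ∑ v ∈ rpts (tlo G T hm) X z u \ J.biUnion (CP G Z T S),
          (nd G (CP G Z T S l) v : ℤ)
          ≤ ((g u : ℤ) + 1 - ipc u) * ∑ l ∈ J.erase x, ((CP G Z T S l).card : ℤ) := by
        rw [mul_sum]
        exact sum_le_sum fun l _ => hall l
      linarith
    · rw [if_neg h3, if_neg h3]
      simp only [h3, if_false] at hall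
      have h5 : ∑ j ∈ J, ∑ v ∈ rpts (tlo G T hm) X z u \ J.biUnion (CP G Z T S),
          (nd G (CP G Z T S j) v : ℤ)
          ≤ ((g u : ℤ) + 1 - 0) * ∑ j ∈ J, ((CP G Z T S j).card : ℤ) := by
        rw [mul_sum]
        exact sum_le_sum fun l _ => hall l
      linarith
  have hcost' := sum_le_sum hcost
  rw [sum_sub_distrib, ← mul_sum, ← hnd] at hcost'
  -- the used class points
  have hq : ∀ j ∈ J, ((CP G Z T S j ∩ K.biUnion (rpts (tlo G T hm) X z)).card : ℤ)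
        * (pcz (tlo G T hm) j (U z)).card
      ≤ (∑ u ∈ K, (if ho u = j then (ipc u : ℤ) else 0))
          * (∑ u ∈ U z, (ipc u : ℤ) * ikp (tlo G T hm) j u) := by
    intro j hj
    have h2 := Fam.card_colW (z := z) (X := X) hC hW h (hJ hj) hK hX
    have h3 : ∑ u ∈ K, (if u ∈ U j then (ipc u : ℤ) else 0)
        ≤ ∑ u ∈ K, (if ho u = j then (ipc u : ℤ) else 0) := by
      refine sum_le_sum fun u hu => ?_
      by_cases h4 : u ∈ U j
      · rw [if_pos h4, if_pos (hho j (hJ hj) u h4)]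
      · rw [if_neg h4]
        split_ifs <;> positivity
    refine mul_le_mul (h2.trans h3) card_pcz_le (Nat.cast_nonneg _) ?_
    exact sum_nonneg fun u _ => by split_ifs <;> positivity
  have hq' := sum_le_sum hq
  have hih : ∀ j, ∑ u ∈ U z, (((CP G Z T S j).card : ℤ) * ikp (tlo G T hm) j u
        - (CP G Z T S j ∩ icl G (CP G Z T S) (tlo G T hm) j u).card)
      = ∑ u ∈ U z, iht G (CP G Z T S) (tlo G T hm) j u := by
    intro j
    refine sum_congr rfl fun u _ => ?_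
    have h2 : CP G Z T S j ∩ icl G (CP G Z T S) (tlo G T hm) j u
        = icl G (CP G Z T S) (tlo G T hm) j u := inter_eq_right.2 rcl_sub
    rw [h2]
    rfl
  simp only [hih] at h1
  rw [hw3] at h1 hsv
  have hhit2 := mul_le_mul_of_nonneg_left hhit (by norm_num : (0 : ℤ) ≤ 2)
  generalize (∑ u ∈ K, ((g u : ℤ) + 1 - if ho u ∈ J then (ipc u : ℤ) else 0)) = w at *
  nlinarith

end RowLS

section RowLSI

variable {V : Type*} {G : SimpleGraph V} {Z T : Finset V} {hm : V → V} {r m n p : ℕ}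
  {B : V → Finset (V × V)} {Ps : V → Finset (Finset V)}

/-- **T++ over the basic integers, NO SIGN CONDITION**, exact number of points, any extra term, any saving -/
theorem WHom.rowLSI (h : WHom G Z T r m n hm) {host : Itm V → V}
    (hpk : ∀ x ∈ T, Pk G (cz G Z T hm x) (hz G Z T hm x) (tlo G T hm) (B x) (Ps x))
    (hst : ∀ x ∈ T, ∀ u ∈ pkf (B x) (Ps x), host u = x)
    {z : V} {J : Finset V} (hJ : J ⊆ T) {K : Finset (Itm V)}
    (hK : K ⊆ (T.erase z).biUnion fun x => pkf (B x) (Ps x))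
    {g : Itm V → ℕ} (hg1 : ∀ u ∈ K, 1 ≤ g u) (hg2 : ∀ u ∈ K, g u ≤ ikp (tlo G T hm) z u) {EX : ℤ}
    (hE : RowM G Z T hm r (fun x => Z.filter fun v => hm v = x) (fun x => pkf (B x) (Ps x)) J.card
      K (xlv G (cz G Z T hm) (tlo G T hm) z g) z J EX)
    {sv : ℤ}
    (hsv : (NE G (K.biUnion (rpts (tlo G T hm) (xlv G (cz G Z T hm) (tlo G T hm) z g) z)
          \ J.biUnion (CP G Z T fun x => Z.filter fun v => hm v = x)) : ℤ) + sv
      + (K.biUnion (rpts (tlo G T hm) (xlv G (cz G Z T hm) (tlo G T hm) z g) z)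
          \ J.biUnion (CP G Z T fun x => Z.filter fun v => hm v = x)).card
      ≤ ((K.biUnion (rpts (tlo G T hm) (xlv G (cz G Z T hm) (tlo G T hm) z g) z)
          \ J.biUnion (CP G Z T fun x => Z.filter fun v => hm v = x)).card : ℤ)
        * (K.biUnion (rpts (tlo G T hm) (xlv G (cz G Z T hm) (tlo G T hm) z g) z)
          \ J.biUnion (CP G Z T fun x => Z.filter fun v => hm v = x)).card) :
    2 * ((r : ℤ) - 1) * J.card * sI hm r Z z - (J.card : ℤ) * (J.card - 1) * ((r : ℤ) - 1)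
      - ((∑ j ∈ J, tI G Z T hm r Z j) ^ 2 - ∑ j ∈ J, tI G Z T hm r Z j ^ 2)
      + 2 * ∑ u ∈ K, ((g u : ℤ) * ((r : ℤ) - 1 - tI G Z T hm r Z z)
          - ilm G (cz G Z T hm) (tlo G T hm) z g u)
      + 2 * ∑ j ∈ J, ∑ u ∈ pkf (B z) (Ps z), ((ikp (tlo G T hm) j u : ℤ)
          * ((r : ℤ) - 1 - tI G Z T hm r Z j) - ims G (cz G Z T hm) (tlo G T hm) j u)
      + EX + sv
      ≤ 2 * eI G hm Z z
        + 2 * (∑ u ∈ K, ((g u : ℤ) + 1 - if host u ∈ J then (ipc u : ℤ) else 0)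
            + ((J.card : ℤ) * ((r : ℤ) - 1) - ∑ j ∈ J, tI G Z T hm r Z j)) * (sI hm r Z z + 1)
        + (∑ u ∈ K, ((g u : ℤ) + 1 - if host u ∈ J then (ipc u : ℤ) else 0))
          * (∑ u ∈ K, ((g u : ℤ) + 1
              - if host u ∈ J then (ipc u : ℤ) else 0) - 1)
        + 2 * ∑ u ∈ K, (if host u ∈ J
            then (iar G (cz G Z T hm (host u)) u : ℤ)
              - ((g u : ℤ) + 1 - ipc u)
                * (∑ j ∈ J, tI G Z T hm r Z j - tI G Z T hm r Z (host u))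
            else ((g u : ℤ) + 1)
              * ((r : ℤ) - 1 - ∑ j ∈ J, tI G Z T hm r Z j))
        + 2 * ∑ j ∈ J, (∑ u ∈ K, (if host u = j then (ipc u : ℤ) else 0))
          * (∑ u ∈ pkf (B z) (Ps z), (ipc u : ℤ) * ikp (tlo G T hm) j u) := by
  have hfam : ∀ x ∈ T, Fam (co G) (cz G Z T hm) (hz G Z T hm) (tlo G T hm) x
      (pkf (B x) (Ps x)) := fun x hx => (hpk x hx).fam (h.csys.dCH hx hx).symm
  set C := cz G Z T hm with hCdef
  set tl := tlo G T hm with htl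
  have hcard : ∀ x, ((C x).card : ℤ) = (r : ℤ) - 1 - tI G Z T hm r Z x := fun x => card_CP_eq Z x
  have e1 : ∑ u ∈ K, ((g u : ℤ) * ((r : ℤ) - 1 - tI G Z T hm r Z z) - ilm G C tl z g u)
      = ∑ u ∈ K, (((C z).card : ℤ) * g u - ilm G C tl z g u) := by
    refine sum_congr rfl fun u _ => ?_
    rw [← hcard]
    ring
  have hq0 : ∀ j ∈ J, ((J.card : ℤ) - 1) * ((r : ℤ) - 1) = ∑ l ∈ J.erase j, ((r : ℤ) - 1) := by
    intro j hj
    have h1 : ((J.erase j).card : ℤ) + 1 = J.card := by exact_mod_cast card_erase_add_one hj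
    rw [sum_const, nsmul_eq_mul]
    have h2 : ((J.erase j).card : ℤ) = (J.card : ℤ) - 1 := by linarith
    rw [h2]
  have hsc : ∑ j ∈ J, ((C j).card : ℤ)
      = (J.card : ℤ) * ((r : ℤ) - 1) - ∑ j ∈ J, tI G Z T hm r Z j := by
    rw [sum_congr rfl fun j _ => hcard j, sum_sub_distrib, sum_const, nsmul_eq_mul]
  have e5 : ∑ u ∈ K, (if host u ∈ J
        then (iar G (C (host u)) u : ℤ) + ((g u : ℤ) + 1 - ipc u)
          * (∑ l ∈ J.erase (host u), ((C l).card : ℤ) - ((J.card : ℤ) - 1) * ((r : ℤ) - 1))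
        else ((g u : ℤ) + 1)
          * (∑ j ∈ J, ((C j).card : ℤ) - ((J.card : ℤ) - 1) * ((r : ℤ) - 1)))
      = ∑ u ∈ K, (if host u ∈ J
        then (iar G (C (host u)) u : ℤ) - ((g u : ℤ) + 1 - ipc u)
          * (∑ j ∈ J, tI G Z T hm r Z j - tI G Z T hm r Z (host u))
        else ((g u : ℤ) + 1) * ((r : ℤ) - 1 - ∑ j ∈ J, tI G Z T hm r Z j)) := by
    refine sum_congr rfl fun u _ => ?_
    by_cases h4 : host u ∈ J
    · rw [if_pos h4, if_pos h4, hq0 _ h4, ← sum_sub_distrib]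
      have h5 : ∑ l ∈ J.erase (host u), (((C l).card : ℤ) - ((r : ℤ) - 1))
          = - (∑ j ∈ J, tI G Z T hm r Z j - tI G Z T hm r Z (host u)) := by
        rw [← add_sum_erase J _ h4, add_sub_cancel_left, ← sum_neg_distrib]
        refine sum_congr rfl fun l _ => ?_
        rw [hcard]
        ring
      rw [h5]
      ring
    · rw [if_neg h4, if_neg h4, hsc]
      have h5 : (J.card : ℤ) * ((r : ℤ) - 1) - ∑ j ∈ J, tI G Z T hm r Z j
          - ((J.card : ℤ) - 1) * ((r : ℤ) - 1) = (r : ℤ) - 1 - ∑ j ∈ J, tI G Z T hm r Z j := by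
        ring
      rw [h5]
  have e6 : ∀ j, ∑ u ∈ pkf (B z) (Ps z), iht G C tl j u
      = ∑ u ∈ pkf (B z) (Ps z), ((ikp tl j u : ℤ) * ((r : ℤ) - 1 - tI G Z T hm r Z j)
        - ims G C tl j u) := by
    intro j
    refine sum_congr rfl fun u _ => ?_
    unfold iht
    rw [hcard]
    ring
  have h5 := two_eI (G := G) (hm := hm) Z z
  have h6 : (((Z.filter fun v => hm v = z).card : ℤ) - r) = sI hm r Z z := rfl
  have h1 := Fam.rowLS_of h.F.toPFrame h.hh h.wsysT h.csys hfam hst hJ hK hg1 hg2 hE hsv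
  have hdg : (0 : ℤ) ≤ ∑ j ∈ J, ∑ i ∈ J.erase j, ∑ v ∈ C i, (dg G (C j) v : ℤ) :=
    sum_nonneg fun _ _ => sum_nonneg fun _ _ => sum_nonneg fun _ _ => Nat.cast_nonneg _
  have hcc : ∑ j ∈ J, ∑ i ∈ J.erase j, ((C i).card : ℤ) * (C j).card
      = (J.card : ℤ) * (J.card - 1) * ((r : ℤ) - 1) ^ 2
        - 2 * ((J.card : ℤ) - 1) * ((r : ℤ) - 1) * ∑ j ∈ J, tI G Z T hm r Z j
        + ((∑ j ∈ J, tI G Z T hm r Z j) ^ 2 - ∑ j ∈ J, tI G Z T hm r Z j ^ 2) := by
    rw [sum_offdiag J fun j i => ((C i).card : ℤ) * (C j).card]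
    have h7 : ∑ j ∈ J, ∑ i ∈ J, ((C i).card : ℤ) * (C j).card = (∑ j ∈ J, ((C j).card : ℤ)) ^ 2 := by
      rw [sq, sum_mul_sum, sum_comm]
    have h8 : ∑ j ∈ J, ((C j).card : ℤ) * (C j).card
        = (J.card : ℤ) * ((r : ℤ) - 1) ^ 2 - 2 * ((r : ℤ) - 1) * ∑ j ∈ J, tI G Z T hm r Z j
          + ∑ j ∈ J, tI G Z T hm r Z j ^ 2 := by
      have h9 : ∀ j ∈ J, ((C j).card : ℤ) * (C j).card
          = ((r : ℤ) - 1) ^ 2 - 2 * ((r : ℤ) - 1) * tI G Z T hm r Z j + tI G Z T hm r Z j ^ 2 :=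
        fun j _ => by rw [hcard]; ring
      rw [sum_congr rfl h9, sum_add_distrib, sum_sub_distrib, sum_const, nsmul_eq_mul, ← mul_sum]
    rw [h7, h8, hsc]
    ring
  have hzc : ((Z.filter fun v => hm v = z).card : ℤ) = sI hm r Z z + r := by
    rw [← h6]
    ring
  have h2 : ((r : ℤ) - 1) * (2 * J.card * (((Z.filter fun v => hm v = z).card : ℤ)
        + ∑ j ∈ J, ((C j).card : ℤ)) - r * J.card * (J.card + 1))
      + 2 * ∑ u ∈ K, (((C z).card : ℤ) * g u - ilm G C tl z g u)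
      + 2 * ∑ j ∈ J, ∑ u ∈ pkf (B z) (Ps z), iht G C tl j u
      + ∑ j ∈ J, ∑ i ∈ J.erase j, ∑ v ∈ C i, (dg G (C j) v : ℤ)
      + EX + sv
      ≤ NE G (Z.filter fun v => hm v = z)
        + 2 * (∑ j ∈ J, ((C j).card : ℤ)) * (Z.filter fun v => hm v = z).card
        + ∑ j ∈ J, ∑ i ∈ J.erase j, ((C i).card : ℤ) * (C j).card
        + 2 * (∑ u ∈ K, ((g u : ℤ) + 1 - if host u ∈ J then (ipc u : ℤ) else 0))
          * (((Z.filter fun v => hm v = z).card : ℤ) - r + 1)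
        + (∑ u ∈ K, ((g u : ℤ) + 1 - if host u ∈ J then (ipc u : ℤ) else 0))
          * (∑ u ∈ K, ((g u : ℤ) + 1 - if host u ∈ J then (ipc u : ℤ) else 0) - 1)
        + 2 * ∑ u ∈ K, (if host u ∈ J
            then (iar G (C (host u)) u : ℤ) + ((g u : ℤ) + 1 - ipc u)
              * (∑ l ∈ J.erase (host u), ((C l).card : ℤ) - ((J.card : ℤ) - 1) * ((r : ℤ) - 1))
            else ((g u : ℤ) + 1) * (∑ j ∈ J, ((C j).card : ℤ)
                - ((J.card : ℤ) - 1) * ((r : ℤ) - 1)))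
        + 2 * ∑ j ∈ J, (∑ u ∈ K, (if host u = j then (ipc u : ℤ) else 0))
          * (∑ u ∈ pkf (B z) (Ps z), (ipc u : ℤ) * ikp tl j u) := h1
  rw [h6, ← h5, hcc, hsc, hzc] at h2
  rw [hsc] at e5
  rw [e5] at h2
  simp only [e6] at h2
  rw [e1]
  generalize ∑ u ∈ K, ((g u : ℤ) + 1 - if host u ∈ J then (ipc u : ℤ) else 0) = w at *
  generalize ∑ j ∈ J, tI G Z T hm r Z j = τ at *
  generalize ∑ j ∈ J, tI G Z T hm r Z j ^ 2 = τ2 at *
  clear h1 e5
  linarith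

/-- **T, T+, T++ over the row indices, NO SIGN CONDITION**: columns of a set `J` of rows (`J` may be empty), any
payment `EX`, any saving `sv` -/
theorem WHom.rowLS (h : WHom G Z T r m n hm)
    {host : Itm V → V} {ρ : V → ℕ} {σ : ℕ → V}
    (hpk : ∀ x ∈ T, Pk G (cz G Z T hm x) (hz G Z T hm x) (tlo G T hm) (B x) (Ps x))
    (hst : ∀ x ∈ T, ∀ u ∈ pkf (B x) (Ps x), host u = x)
    (rk : Rank T (tI G Z T hm r Z) ρ σ) {i : ℕ} (hi : i < n) {J : Finset ℕ} (hJ : ∀ j ∈ J, j < n)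
    (hiJ : i ∉ J) {K : Finset (Itm V)}
    (hK : K ⊆ T.biUnion fun x => pkf (B x) (Ps x)) (hKh : ∀ u ∈ K, ρ (host u) ≠ i)
    {g : Itm V → ℕ} (hg1 : ∀ u ∈ K, 1 ≤ g u) (hg2 : ∀ u ∈ K, g u ≤ ikp (tlo G T hm) (σ i) u)
    {EX : ℤ}
    (hE : RowM G Z T hm r (fun x => Z.filter fun v => hm v = x) (fun x => pkf (B x) (Ps x))
      (J.image σ).card K (xlv G (cz G Z T hm) (tlo G T hm) (σ i) g) (σ i) (J.image σ) EX) {sv : ℤ}
    (hsv : (NE G (K.biUnion (rpts (tlo G T hm) (xlv G (cz G Z T hm) (tlo G T hm) (σ i) g) (σ i))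
          \ (J.image σ).biUnion (CP G Z T fun x => Z.filter fun v => hm v = x)) : ℤ) + sv
        + (K.biUnion (rpts (tlo G T hm) (xlv G (cz G Z T hm) (tlo G T hm) (σ i) g) (σ i))
          \ (J.image σ).biUnion (CP G Z T fun x => Z.filter fun v => hm v = x)).card
      ≤ ((K.biUnion (rpts (tlo G T hm) (xlv G (cz G Z T hm) (tlo G T hm) (σ i) g) (σ i))
          \ (J.image σ).biUnion (CP G Z T fun x => Z.filter fun v => hm v = x)).card : ℤ)
        * (K.biUnion (rpts (tlo G T hm) (xlv G (cz G Z T hm) (tlo G T hm) (σ i) g) (σ i))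
          \ (J.image σ).biUnion (CP G Z T fun x => Z.filter fun v => hm v = x)).card) :
    2 * ((r : ℤ) - 1) * J.card * sI hm r Z (σ i) - (J.card : ℤ) * (J.card - 1) * ((r : ℤ) - 1)
      - ((∑ j ∈ J, tI G Z T hm r Z (σ j)) ^ 2 - ∑ j ∈ J, tI G Z T hm r Z (σ j) ^ 2)
      + 2 * ∑ u ∈ K, ((g u : ℤ) * ((r : ℤ) - 1 - tI G Z T hm r Z (σ i))
        - (ilm G (cz G Z T hm) (tlo G T hm) (σ i) g u : ℤ))
      + 2 * ∑ j ∈ J, ∑ u ∈ (T.biUnion fun x => pkf (B x) (Ps x)).filter (fun u => ρ (host u) = i),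
        ((ikp (tlo G T hm) (σ j) u : ℤ) * ((r : ℤ) - 1 - tI G Z T hm r Z (σ j))
          - (ims G (cz G Z T hm) (tlo G T hm) (σ j) u : ℤ))
      + EX + sv
      ≤ 2 * eI G hm Z (σ i)
        + 2 * (∑ u ∈ K, ((g u : ℤ) + 1
            - if ρ (host u) ∈ J then (ipc u : ℤ) else 0)
            + ((J.card : ℤ) * ((r : ℤ) - 1) - ∑ j ∈ J, tI G Z T hm r Z (σ j)))
          * (sI hm r Z (σ i) + 1)
        + (∑ u ∈ K, ((g u : ℤ) + 1
            - if ρ (host u) ∈ J then (ipc u : ℤ) else 0))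
          * (∑ u ∈ K, ((g u : ℤ) + 1
            - if ρ (host u) ∈ J then (ipc u : ℤ) else 0) - 1)
        + 2 * ∑ u ∈ K, (if ρ (host u) ∈ J
            then (iar G (cz G Z T hm (host u)) u : ℤ)
              - ((g u : ℤ) + 1 - ipc u)
                * (∑ j ∈ J, tI G Z T hm r Z (σ j) - tI G Z T hm r Z (host u))
            else ((g u : ℤ) + 1)
              * ((r : ℤ) - 1 - ∑ j ∈ J, tI G Z T hm r Z (σ j)))
        + 2 * ∑ j ∈ J, (∑ u ∈ K, (if ρ (host u) = j then (ipc u : ℤ) else 0))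
          * pcn (tlo G T hm) B (σ i) (σ j) := by
  have hcard := h.cardT
  have hfam : ∀ x ∈ T, Fam (co G) (cz G Z T hm) (hz G Z T hm) (tlo G T hm) x
      (pkf (B x) (Ps x)) := fun x hx => (hpk x hx).fam (h.csys.dCH hx hx).symm
  have hfil : ∀ i < n, (T.biUnion fun x => pkf (B x) (Ps x)).filter (fun u => ρ (host u) = i)
      = pkf (B (σ i)) (Ps (σ i)) := fun i hi => fil_host hst rk (by rw [hcard]; exact hi)
  have hmem : ∀ i < n, σ i ∈ T := fun i hi => rk.mem i (by rw [hcard]; exact hi)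
  have hsinj : ∀ i ∈ J, ∀ j ∈ J, σ i = σ j → i = j := fun i hi j hj h1 =>
    rk.sinj (by rw [hcard]; exact hJ i hi) (by rw [hcard]; exact hJ j hj) h1
  have hmK : ∀ u ∈ K, ∃ x ∈ T, u ∈ pkf (B x) (Ps x) ∧ host u = x := by
    intro u hu
    obtain ⟨x, hx, hux⟩ := mem_biUnion.1 (hK hu)
    exact ⟨x, hx, hux, hst x hx u hux⟩
  have hK' : K ⊆ (T.erase (σ i)).biUnion fun x => pkf (B x) (Ps x) := by
    intro u hu
    obtain ⟨x, hx, hux⟩ := mem_biUnion.1 (hK hu)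
    refine mem_biUnion.2 ⟨x, mem_erase.2 ⟨fun h1 => hKh u hu ?_, hx⟩, hux⟩
    show ρ (host u) = i
    rw [hst x hx u hux, h1]
    exact rk.right i (by rw [hcard]; exact hi)
  -- the rows of `J`
  obtain ⟨J', hJ'⟩ : ∃ J', J' = J.image σ := ⟨_, rfl⟩
  have hJc : J'.card = J.card := by
    rw [hJ']
    exact card_image_of_injOn fun i hi j hj h1 => hsinj i hi j hj h1
  have hJs : ∀ f : V → ℤ, ∑ j ∈ J', f j = ∑ j ∈ J, f (σ j) := by
    intro f
    rw [hJ', sum_image fun i hi j hj h1 => hsinj i hi j hj h1]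
  have hJT : J' ⊆ T := by
    intro x hx
    rw [hJ'] at hx
    obtain ⟨j, hj, rfl⟩ := mem_image.1 hx
    exact hmem j (hJ j hj)
  have hzJ : σ i ∉ J' := by
    intro hx
    rw [hJ'] at hx
    obtain ⟨j, hj, h1⟩ := mem_image.1 hx
    refine hiJ ?_
    have h2 : j = i := rk.sinj (by rw [hcard]; exact hJ j hj) (by rw [hcard]; exact hi) h1
    exact h2 ▸ hj
  have hmJ : ∀ x ∈ T, (x ∈ J' ↔ ρ x ∈ J) := by
    intro x hx
    rw [hJ', mem_image]
    constructor
    · rintro ⟨j, hj, rfl⟩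
      rw [rk.right j (by rw [hcard]; exact hJ j hj)]
      exact hj
    · intro h1
      exact ⟨ρ x, h1, rk.left x hx⟩
  have heJ : ∀ x ∈ T, ∀ j < n, (x = σ j ↔ ρ x = j) := by
    intro x hx j hj
    constructor
    · rintro rfl
      exact rk.right j (by rw [hcard]; exact hj)
    · rintro rfl
      exact (rk.left x hx).symm
  rw [← hJ'] at hE hsv
  have h1 := h.rowLSI hpk hst hJT hK' hg1 hg2 hE hsv
  rw [hJs, hJs, hJs, hJs, hJc] at h1
  have e5 : ∀ f g : Itm V → ℤ, ∑ u ∈ K, (if host u ∈ J' then f u else g u)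
      = ∑ u ∈ K, (if ρ (host u) ∈ J then f u else g u) := by
    intro f g
    refine sum_congr rfl fun u hu => ?_
    obtain ⟨x, hx, -, hxx⟩ := hmK u hu
    rw [hxx]
    by_cases h2 : x ∈ J'
    · rw [if_pos h2, if_pos ((hmJ x hx).1 h2)]
    · rw [if_neg h2, if_neg fun h3 => h2 ((hmJ x hx).2 h3)]
  have e6 : ∑ u ∈ K, ((g u : ℤ) + 1
        - if host u ∈ J' then (ipc u : ℤ) else 0)
      = ∑ u ∈ K, ((g u : ℤ) + 1
        - if ρ (host u) ∈ J then (ipc u : ℤ) else 0) := by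
    rw [sum_sub_distrib, sum_sub_distrib, e5]
  have e7 : ∑ j ∈ J, (∑ u ∈ K, (if host u = σ j then (ipc u : ℤ) else 0))
          * (∑ u ∈ pkf (B (σ i)) (Ps (σ i)), (ipc u : ℤ) * ikp (tlo G T hm) (σ j) u)
      = ∑ j ∈ J, (∑ u ∈ K, (if ρ (host u) = j then (ipc u : ℤ) else 0))
          * pcn (tlo G T hm) B (σ i) (σ j) := by
    refine sum_congr rfl fun j hj => ?_
    rw [sum_ipc (tlo G T hm) (σ j) (B (σ i)) (Ps (σ i))]
    have e8 : ∑ u ∈ K, (if host u = σ j then (ipc u : ℤ) else 0)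
        = ∑ u ∈ K, (if ρ (host u) = j then (ipc u : ℤ) else 0) := by
      refine sum_congr rfl fun u hu => ?_
      obtain ⟨x, hx, -, hxx⟩ := hmK u hu
      rw [hxx]
      by_cases h2 : x = σ j
      · rw [if_pos h2, if_pos ((heJ x hx j (hJ j hj)).1 h2)]
      · rw [if_neg h2, if_neg fun h3 => h2 ((heJ x hx j (hJ j hj)).2 h3)]
    rw [e8]
    rfl
  rw [e6, e5, e7] at h1
  rw [hfil i hi]
  exact h1

end RowLSI

end Pool.Agent.Lib.MP_f04ccf_co
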