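import Pool.Agent.Lib.MP_f04ccf_co.M.SubD

/-!
MP_f04ccf_co, note 17622 (L1): the row test on a sub-slot over the row indices.  Kept from the host `z`: the PC
pairs `B1 ⊆ B z`, the parts `P1 ⊆ Ps z`, the class points outside `XC`.

* `keepX`: the dropped points; `keep_CP`, `keep_HP`, `card_keepX`;
* `keepU`, `WHom.famK`: the items of the smaller system;
* `WHom.rowXD`: T, T+, T++ of the smaller slot over the row indices, any payment, any saving, no sign condition.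
-/

set_option autoImplicit false

namespace Pool.Agent.Lib.MP_f04ccf_co

open Finset

attribute [local instance] Classical.propDecidable

section Keep

variable {V : Type*} {G : SimpleGraph V} {Z T : Finset V} {hm : V → V} {r m n p : ℕ}
  {B : V → Finset (V × V)} {Ps : V → Finset (Finset V)}
  {B1 : Finset (V × V)} {P1 : Finset (Finset V)} {XC : Finset V}

/-- the kept members -/
noncomputable def keepH (B1 : Finset (V × V)) (P1 : Finset (Finset V)) : Finset V :=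
  B1.image Prod.fst ∪ P1.biUnion id

variable (G Z T hm) in
/-- the points which are dropped from the slot of `z` -/
noncomputable def keepX (z : V) (B1 : Finset (V × V)) (P1 : Finset (Finset V)) (XC : Finset V) :
    Finset V := (hz G Z T hm z \ keepH B1 P1) ∪ XC

/-- the items of the smaller system -/
noncomputable def keepU (B : V → Finset (V × V)) (Ps : V → Finset (Finset V)) (z : V)
    (B1 : Finset (V × V)) (P1 : Finset (Finset V)) (x : V) : Finset (Itm V) :=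
  if x = z then pkf B1 P1 else pkf (B x) (Ps x)

lemma keepU_self (z : V) : keepU B Ps z B1 P1 z = pkf B1 P1 := if_pos rfl

lemma keepU_ne {z x : V} (h : x ≠ z) : keepU B Ps z B1 P1 x = pkf (B x) (Ps x) := if_neg h

lemma keepH_sub {C H : Finset V} {tl : V → V} {Q : Finset (V × V)} {Pt : Finset (Finset V)}
    (h : Pk G C H tl Q Pt) (hB : B1 ⊆ Q) (hP : P1 ⊆ Pt) : keepH B1 P1 ⊆ H := by
  intro v hv
  rcases mem_union.1 hv with h1 | h1
  · obtain ⟨e, he, rfl⟩ := mem_image.1 h1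
    exact h.bH e (hB he)
  · obtain ⟨P, hP', hv'⟩ := mem_biUnion.1 h1
    exact h.sub P (hP hP') hv'

lemma keepX_sub {z : V} (hXC : XC ⊆ cz G Z T hm z) :
    keepX G Z T hm z B1 P1 XC ⊆ Z.filter fun v => hm v = z := by
  intro v hv
  rcases mem_union.1 hv with h1 | h1
  · exact (mem_HP.1 (mem_sdiff.1 h1).1).1
  · exact (mem_CP.1 (hXC h1)).1

lemma WHom.z_notMem_keepX (h : WHom G Z T r m n hm) {z : V} (hz' : z ∈ T) (hzX : z ∉ XC) :
    z ∉ keepX G Z T hm z B1 P1 XC := by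
  intro h1
  rcases mem_union.1 h1 with h2 | h2
  · exact (mem_HP.1 (mem_sdiff.1 h2).1).2 (h.F.toPFrame.self_mem_Cl hz')
  · exact hzX h2

/-- the kept class points -/
lemma keep_CP {z : V} :
    CP G Z T (fun x => (Z \ keepX G Z T hm z B1 P1 XC).filter fun v => hm v = x) z
      = cz G Z T hm z \ XC := by
  rw [CP_sub']
  ext v
  unfold keepX
  rw [mem_sdiff, mem_sdiff, mem_union, mem_sdiff]
  constructor
  · rintro ⟨h1, h2⟩
    exact ⟨h1, fun h3 => h2 (Or.inr h3)⟩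
  · rintro ⟨h1, h2⟩
    refine ⟨h1, ?_⟩
    rintro (⟨h3, -⟩ | h3)
    · exact (mem_HP.1 h3).2 (mem_CP.1 h1).2
    · exact h2 h3

/-- the kept members -/
lemma keep_HP {z : V} (hXC : XC ⊆ cz G Z T hm z)
    (hk : keepH B1 P1 ⊆ hz G Z T hm z) :
    HP G Z T (fun x => (Z \ keepX G Z T hm z B1 P1 XC).filter fun v => hm v = x) z
      = keepH B1 P1 := by
  rw [HP_sub']
  ext v
  unfold keepX
  rw [mem_sdiff, mem_union, mem_sdiff]
  constructor
  · rintro ⟨h1, h2⟩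
    by_contra h3
    exact h2 (Or.inl ⟨h1, h3⟩)
  · intro h1
    refine ⟨hk h1, ?_⟩
    rintro (⟨-, h3⟩ | h3)
    · exact h3 h1
    · exact (mem_HP.1 (hk h1)).2 (mem_CP.1 (hXC h3)).2

/-- the dropped class points -/
lemma keepX_inter {z : V} (hXC : XC ⊆ cz G Z T hm z) :
    cz G Z T hm z ∩ keepX G Z T hm z B1 P1 XC = XC := by
  ext v
  unfold keepX
  rw [mem_inter, mem_union, mem_sdiff]
  constructor
  · rintro ⟨h1, ⟨h3, -⟩ | h3⟩
    · exact absurd (mem_CP.1 h1).2 (mem_HP.1 h3).2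
    · exact h3
  · exact fun h1 => ⟨hXC h1, Or.inr h1⟩

/-- the number of the dropped points -/
lemma card_keepX {z : V} (hXC : XC ⊆ cz G Z T hm z) (hk : keepH B1 P1 ⊆ hz G Z T hm z) :
    ((keepX G Z T hm z B1 P1 XC).card : ℤ)
      = hI G Z T hm Z z - (keepH B1 P1).card + XC.card := by
  unfold keepX
  have h1 : Disjoint (hz G Z T hm z \ keepH B1 P1) XC := by
    rw [disjoint_left]
    intro v hv hv'
    exact (mem_HP.1 (mem_sdiff.1 hv).1).2 (mem_CP.1 (hXC hv')).2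
  rw [card_union_of_disjoint h1]
  have h2 := card_sdiff_add_card_eq_card hk
  have h3 : hI G Z T hm Z z = ((hz G Z T hm z).card : ℤ) := rfl
  rw [h3]
  push_cast
  have h4 : ((hz G Z T hm z \ keepH B1 P1).card : ℤ) + (keepH B1 P1).card
      = (hz G Z T hm z).card := by exact_mod_cast h2
  linarith

/-- **the items of the smaller system** -/
lemma WHom.famK (h : WHom G Z T r m n hm)
    (hpk : ∀ x ∈ T, Pk G (cz G Z T hm x) (hz G Z T hm x) (tlo G T hm) (B x) (Ps x))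
    {z : V} (hz' : z ∈ T) (hB1 : B1 ⊆ B z) (hP1 : P1 ⊆ Ps z) (hXC : XC ⊆ cz G Z T hm z)
    (hXB : ∀ e ∈ B1, e.2 ∉ XC) :
    ∀ x ∈ T, Fam (co G)
      (CP G Z T fun x => (Z \ keepX G Z T hm z B1 P1 XC).filter fun v => hm v = x)
      (HP G Z T fun x => (Z \ keepX G Z T hm z B1 P1 XC).filter fun v => hm v = x)
      (tlo G T hm) x (keepU B Ps z B1 P1 x) := by
  intro x hx
  have hk := keepH_sub (hpk z hz') hB1 hP1
  have hd := ((h.csysD (keepX G Z T hm z B1 P1 XC)).dCH hx hx).symm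
  by_cases hxz : x = z
  · subst hxz
    rw [keepU_self]
    refine Pk.fam ?_ hd
    rw [keep_CP, keep_HP hXC hk]
    have h1 := hpk x hx
    exact {
      bH := fun e he => mem_union_left _ (mem_image_of_mem _ he)
      bC := fun e he => mem_sdiff.2 ⟨h1.bC e (hB1 he), hXB e he⟩
      bN := fun e he => h1.bN e (hB1 he)
      b1 := fun e he f hf => h1.b1 e (hB1 he) f (hB1 hf)
      b2 := fun e he f hf => h1.b2 e (hB1 he) f (hB1 hf)
      ne := fun P hP' => h1.ne P (hP1 hP')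
      sub := fun P hP' _ hv => mem_union_right _ (mem_biUnion.2 ⟨P, hP', hv⟩)
      ind := fun P hP' => h1.ind P (hP1 hP')
      dis := fun P hP' Q hQ => h1.dis P (hP1 hP') Q (hP1 hQ)
      dw := fun e he P hP' => h1.dw e (hB1 he) P (hP1 hP')
      cov := fun v hv => by
        rcases mem_union.1 hv with h2 | h2
        · obtain ⟨e, he, rfl⟩ := mem_image.1 h2
          exact Or.inl ⟨e, he, rfl⟩
        · obtain ⟨P, hP', hv'⟩ := mem_biUnion.1 h2
          exact Or.inr ⟨P, hP', hv'⟩ }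
  · rw [keepU_ne hxz]
    refine Pk.fam ?_ hd
    rw [CP_sub_ne (keepX_sub hXC) hxz, HP_sub_ne (keepX_sub hXC) hxz]
    exact hpk x hx

lemma pkf_mono {B2 : Finset (V × V)} {P2 : Finset (Finset V)} (hB1 : B1 ⊆ B2) (hP1 : P1 ⊆ P2) :
    pkf B1 P1 ⊆ pkf B2 P2 := by
  intro u hu
  rcases u with Q | e
  · obtain ⟨h1, h2⟩ := inl_mem_pkf.1 hu
    exact inl_mem_pkf.2 ⟨hP1 h1, h2⟩
  · exact inr_mem_pkf.2 (hB1 (inr_mem_pkf.1 hu))

lemma keepU_host {host : Itm V → V} (hst : ∀ x ∈ T, ∀ u ∈ pkf (B x) (Ps x), host u = x)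
    {z : V} (hB1 : B1 ⊆ B z) (hP1 : P1 ⊆ Ps z) :
    ∀ x ∈ T, ∀ u ∈ keepU B Ps z B1 P1 x, host u = x := by
  intro x hx u hu
  by_cases hxz : x = z
  · subst hxz
    rw [keepU_self] at hu
    exact hst x hx u (pkf_mono hB1 hP1 hu)
  · rw [keepU_ne hxz] at hu
    exact hst x hx u hu

lemma keepU_sub {z : V} {K : Finset (Itm V)}
    (hK : K ⊆ (T.erase z).biUnion fun x => pkf (B x) (Ps x)) :
    K ⊆ (T.erase z).biUnion (keepU B Ps z B1 P1) := by
  intro u hu
  obtain ⟨x, hx, hux⟩ := mem_biUnion.1 (hK hu)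
  refine mem_biUnion.2 ⟨x, hx, ?_⟩
  rw [keepU_ne (ne_of_mem_erase hx)]
  exact hux

/-- the number of the kept PC pairs of a tail -/
lemma sum_keep_ipc (tl : V → V) (y : V) :
    ∑ u ∈ pkf B1 P1, (ipc u : ℤ) * ikp tl y u = ((pcs tl B1 y).card : ℤ) := by
  have h1 := sum_ipc tl y B1 P1
  rw [h1]

/-- **T, T+, T++ of a sub-slot over the row indices**, no sign condition: columns of a set `J` of rows, any
payment `EX`, any saving `sv` -/
theorem WHom.rowXD (h : WHom G Z T r m n hm)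
    {host : Itm V → V} {ρ : V → ℕ} {σ : ℕ → V}
    (hpk : ∀ x ∈ T, Pk G (cz G Z T hm x) (hz G Z T hm x) (tlo G T hm) (B x) (Ps x))
    (hst : ∀ x ∈ T, ∀ u ∈ pkf (B x) (Ps x), host u = x)
    (rk : Rank T (tI G Z T hm r Z) ρ σ) {i : ℕ} (hi : i < n) {J : Finset ℕ} (hJ : ∀ j ∈ J, j < n)
    (hiJ : i ∉ J) (hB1 : B1 ⊆ B (σ i)) (hP1 : P1 ⊆ Ps (σ i)) (hXC : XC ⊆ cz G Z T hm (σ i))
    (hXB : ∀ e ∈ B1, e.2 ∉ XC) (hzX : σ i ∉ XC) {K : Finset (Itm V)}
    (hK : K ⊆ T.biUnion fun x => pkf (B x) (Ps x)) (hKh : ∀ u ∈ K, ρ (host u) ≠ i)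
    (hk : ∀ u ∈ K, ikp (tlo G T hm) (σ i) u ≠ 0) {EX : ℤ}
    (hE : RowM G Z T hm r
      (fun x => (Z \ keepX G Z T hm (σ i) B1 P1 XC).filter fun v => hm v = x)
      (keepU B Ps (σ i) B1 P1)
      (J.image σ).card K (fun Q => one1 (oth (tlo G T hm) (σ i) Q)) (σ i) (J.image σ) EX) {sv : ℤ}
    (hsv : (NE G (K.biUnion (rpts (tlo G T hm) (fun Q => one1 (oth (tlo G T hm) (σ i) Q)) (σ i))
          \ (J.image σ).biUnion (cz G Z T hm)) : ℤ) + sv
        + (K.biUnion (rpts (tlo G T hm) (fun Q => one1 (oth (tlo G T hm) (σ i) Q)) (σ i))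
          \ (J.image σ).biUnion (cz G Z T hm)).card
      ≤ ((K.biUnion (rpts (tlo G T hm) (fun Q => one1 (oth (tlo G T hm) (σ i) Q)) (σ i))
          \ (J.image σ).biUnion (cz G Z T hm)).card : ℤ)
        * (K.biUnion (rpts (tlo G T hm) (fun Q => one1 (oth (tlo G T hm) (σ i) Q)) (σ i))
          \ (J.image σ).biUnion (cz G Z T hm)).card) :
    2 * ((r : ℤ) - 1) * J.card
        * (sI hm r Z (σ i) - (hI G Z T hm Z (σ i) - (keepH B1 P1).card + XC.card))
      - (J.card : ℤ) * (J.card - 1) * ((r : ℤ) - 1)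
      - ((∑ j ∈ J, tI G Z T hm r Z (σ j)) ^ 2 - ∑ j ∈ J, tI G Z T hm r Z (σ j) ^ 2)
      + 2 * ∑ u ∈ K, ((ikp (tlo G T hm) (σ i) u : ℤ)
          * ((r : ℤ) - 1 - tI G Z T hm r Z (σ i) - XC.card)
        - (rmr G (cz G Z T hm) (tlo G T hm) (σ i) u : ℤ))
      + 2 * ∑ j ∈ J, ∑ u ∈ pkf B1 P1,
        ((ikp (tlo G T hm) (σ j) u : ℤ) * ((r : ℤ) - 1 - tI G Z T hm r Z (σ j))
          - (ims G (cz G Z T hm) (tlo G T hm) (σ j) u : ℤ))
      + EX + sv
      ≤ 2 * eI G hm (Z \ keepX G Z T hm (σ i) B1 P1 XC) (σ i)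
        + 2 * (∑ u ∈ K, ((ikp (tlo G T hm) (σ i) u : ℤ) + 1
            - if ρ (host u) ∈ J then (ipc u : ℤ) else 0)
            + ((J.card : ℤ) * ((r : ℤ) - 1) - ∑ j ∈ J, tI G Z T hm r Z (σ j)))
          * (sI hm r Z (σ i) - (hI G Z T hm Z (σ i) - (keepH B1 P1).card + XC.card) + 1)
        + (∑ u ∈ K, ((ikp (tlo G T hm) (σ i) u : ℤ) + 1
            - if ρ (host u) ∈ J then (ipc u : ℤ) else 0))
          * (∑ u ∈ K, ((ikp (tlo G T hm) (σ i) u : ℤ) + 1
            - if ρ (host u) ∈ J then (ipc u : ℤ) else 0) - 1)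
        + 2 * ∑ u ∈ K, (if ρ (host u) ∈ J
            then (iar G (cz G Z T hm (host u)) u : ℤ)
              - ((ikp (tlo G T hm) (σ i) u : ℤ) + 1 - ipc u)
                * (∑ j ∈ J, tI G Z T hm r Z (σ j) - tI G Z T hm r Z (host u))
            else ((ikp (tlo G T hm) (σ i) u : ℤ) + 1)
              * ((r : ℤ) - 1 - ∑ j ∈ J, tI G Z T hm r Z (σ j)))
        + 2 * ∑ j ∈ J, (∑ u ∈ K, (if ρ (host u) = j then (ipc u : ℤ) else 0))
          * ((pcs (tlo G T hm) B1 (σ j)).card : ℤ) := by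
  have hcard := h.cardT
  have hmem : ∀ i < n, σ i ∈ T := fun i hi => rk.mem i (by rw [hcard]; exact hi)
  have hsinj : ∀ i ∈ J, ∀ j ∈ J, σ i = σ j → i = j := fun i hi j hj h1 =>
    rk.sinj (by rw [hcard]; exact hJ i hi) (by rw [hcard]; exact hJ j hj) h1
  have hmK : ∀ u ∈ K, ∃ x ∈ T, u ∈ pkf (B x) (Ps x) ∧ host u = x := by
    intro u hu
    obtain ⟨x, hx, hux⟩ := mem_biUnion.1 (hK hu)
    exact ⟨x, hx, hux, hst x hx u hux⟩
  have hK' : K ⊆ (T.erase (σ i)).biUnion fun x => pkf (B x) (Ps x) := by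
    intro u hu
    obtain ⟨x, hx, hux⟩ := mem_biUnion.1 (hK hu)
    refine mem_biUnion.2 ⟨x, mem_erase.2 ⟨fun h1 => hKh u hu ?_, hx⟩, hux⟩
    show ρ (host u) = i
    rw [hst x hx u hux, h1]
    exact rk.right i (by rw [hcard]; exact hi)
  -- the rows of `J`
  obtain ⟨J', hJ'⟩ : ∃ J', J' = J.image σ := ⟨_, rfl⟩
  have hJc : J'.card = J.card := by
    rw [hJ']
    exact card_image_of_injOn fun i hi j hj h1 => hsinj i hi j hj h1
  have hJs : ∀ f : V → ℤ, ∑ j ∈ J', f j = ∑ j ∈ J, f (σ j) := by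
    intro f
    rw [hJ', sum_image fun i hi j hj h1 => hsinj i hi j hj h1]
  have hJT : J' ⊆ T := by
    intro x hx
    rw [hJ'] at hx
    obtain ⟨j, hj, rfl⟩ := mem_image.1 hx
    exact hmem j (hJ j hj)
  have hzJ : σ i ∉ J' := by
    intro hx
    rw [hJ'] at hx
    obtain ⟨j, hj, h1⟩ := mem_image.1 hx
    refine hiJ ?_
    have h2 : j = i := rk.sinj (by rw [hcard]; exact hJ j hj) (by rw [hcard]; exact hi) h1
    exact h2 ▸ hj
  have hmJ : ∀ x ∈ T, (x ∈ J' ↔ ρ x ∈ J) := by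
    intro x hx
    rw [hJ', mem_image]
    constructor
    · rintro ⟨j, hj, rfl⟩
      rw [rk.right j (by rw [hcard]; exact hJ j hj)]
      exact hj
    · intro h1
      exact ⟨ρ x, h1, rk.left x hx⟩
  have heJ : ∀ x ∈ T, ∀ j < n, (x = σ j ↔ ρ x = j) := by
    intro x hx j hj
    constructor
    · rintro rfl
      exact rk.right j (by rw [hcard]; exact hj)
    · rintro rfl
      exact (rk.left x hx).symm
  rw [← hJ'] at hE hsv
  have hkH := keepH_sub (hpk _ (hmem i hi)) hB1 hP1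
  have h1 := h.rowMXD (z := σ i) (keepX_sub hXC) (h.z_notMem_keepX (hmem i hi) hzX)
    (U := keepU B Ps (σ i) B1 P1) (h.famK hpk (hmem i hi) hB1 hP1 hXC hXB)
    (keepU_host hst hB1 hP1) hJT hzJ (keepU_sub hK') hk hE hsv
  rw [hJs, hJs, hJs, hJs, hJc, card_keepX hXC hkH, keepX_inter hXC, keepU_self] at h1
  have e5 : ∀ f g : Itm V → ℤ, ∑ u ∈ K, (if host u ∈ J' then f u else g u)
      = ∑ u ∈ K, (if ρ (host u) ∈ J then f u else g u) := by
    intro f g
    refine sum_congr rfl fun u hu => ?_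
    obtain ⟨x, hx, -, hxx⟩ := hmK u hu
    rw [hxx]
    by_cases h2 : x ∈ J'
    · rw [if_pos h2, if_pos ((hmJ x hx).1 h2)]
    · rw [if_neg h2, if_neg fun h3 => h2 ((hmJ x hx).2 h3)]
  have e6 : ∑ u ∈ K, ((ikp (tlo G T hm) (σ i) u : ℤ) + 1
        - if host u ∈ J' then (ipc u : ℤ) else 0)
      = ∑ u ∈ K, ((ikp (tlo G T hm) (σ i) u : ℤ) + 1
        - if ρ (host u) ∈ J then (ipc u : ℤ) else 0) := by
    rw [sum_sub_distrib, sum_sub_distrib, e5]
  have e7 : ∑ j ∈ J, (∑ u ∈ K, (if host u = σ j then (ipc u : ℤ) else 0))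
          * (∑ u ∈ pkf B1 P1, (ipc u : ℤ) * ikp (tlo G T hm) (σ j) u)
      = ∑ j ∈ J, (∑ u ∈ K, (if ρ (host u) = j then (ipc u : ℤ) else 0))
          * ((pcs (tlo G T hm) B1 (σ j)).card : ℤ) := by
    refine sum_congr rfl fun j hj => ?_
    rw [sum_keep_ipc]
    have e8 : ∑ u ∈ K, (if host u = σ j then (ipc u : ℤ) else 0)
        = ∑ u ∈ K, (if ρ (host u) = j then (ipc u : ℤ) else 0) := by
      refine sum_congr rfl fun u hu => ?_
      obtain ⟨x, hx, -, hxx⟩ := hmK u hu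
      rw [hxx]
      by_cases h2 : x = σ j
      · rw [if_pos h2, if_pos ((heJ x hx j (hJ j hj)).1 h2)]
      · rw [if_neg h2, if_neg fun h3 => h2 ((heJ x hx j (hJ j hj)).2 h3)]
    rw [e8]
  rw [e6, e5, e7] at h1
  exact h1

end Keep

end Pool.Agent.Lib.MP_f04ccf_co
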