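import Pool.Agent.Lib.MP_f04ccf_co.M.RowGD
import Pool.Agent.Lib.MP_f04ccf_co.M.RowLS
import Pool.Agent.Lib.MP_f04ccf_co.M.SubDI

/-!
MP_f04ccf_co, STATE 10 (L1, L2): **the row test of `z` with the columns of `y`, the PC pairs of BOTH homes of the
cell in joint form, used items at any levels, the slot of `z` without the members of the dropped items** (form of
note 17700: parts and PC members leave, no class point leaves), exact number of points, no sign condition, any
energy of the smaller slot, any saving.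

* `Fam.rowGL_of`: any system;
* `WCoreK.rowGD`: over the basic integers.
-/

set_option autoImplicit false

namespace Pool.Agent.Lib.MP_f04ccf_co

open Finset

attribute [local instance] Classical.propDecidable

section RowGL

variable {V : Type*} {G : SimpleGraph V} {Z T : Finset V} {hm : V → V} {r m t : ℕ}
  {A : Finset V} {S : V → Finset V} {U : V → Finset (Itm V)}

/-- **T+ of `z` with the columns of `y`, the PC pairs of both homes in joint form, used items at levels `g`**: any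
system, any energy `En`, any saving `sv`, exact number of points, no sign condition -/
theorem Fam.rowGL_of (hF : PFrame G r m t Z T) (hP : PG G r) (hh : Homes G Z T hm)
    (hC : CSys G Z T hm A S)
    (hW : WSysT G (co G) A (CP G Z T S) (HP G Z T S) (tlo G T hm))
    (h : ∀ x ∈ A, Fam (co G) (CP G Z T S) (HP G Z T S) (tlo G T hm) x (U x))
    {ho : Itm V → V} (hho : ∀ x ∈ A, ∀ u ∈ U x, ho u = x)
    {z y : V} (hz : z ∈ A) (hy : y ∈ A) (hzy : z ≠ y) {K : Finset (Itm V)}
    (hK : K ⊆ (A.erase z).biUnion U) {g : Itm V → ℕ}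
    (hg1 : ∀ u ∈ K, 1 ≤ g u) (hg2 : ∀ u ∈ K, g u ≤ ikp (tlo G T hm) z u)
    (l1 : ∀ e ∈ pcz (tlo G T hm) y (U z),
      (msC G (CP G Z T S z) e.1).card ≤ (msC G (CP G Z T S y) e.1).card)
    (l2 : ∀ e ∈ pcz (tlo G T hm) z (U y),
      (msC G (CP G Z T S y) e.1).card ≤ (msC G (CP G Z T S z) e.1).card) {En : ℤ}
    (EN : (NE G (S z) : ℤ) + E G ((pcz (tlo G T hm) y (U z)).image Prod.fst)
      ≤ En + 2 * ∑ e ∈ pcz (tlo G T hm) y (U z), (nd G (CP G Z T S z) e.1 : ℤ)) {sv : ℤ}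
    (hsv : (NE G (K.biUnion (rpts (tlo G T hm) (xlv G (CP G Z T S) (tlo G T hm) z g) z)
          \ CP G Z T S y) : ℤ)
        + (sv + E G ((upc (tlo G T hm) z (U y) K).image Prod.fst))
        + (K.biUnion (rpts (tlo G T hm) (xlv G (CP G Z T S) (tlo G T hm) z g) z)
          \ CP G Z T S y).card
      ≤ ((K.biUnion (rpts (tlo G T hm) (xlv G (CP G Z T S) (tlo G T hm) z g) z)
          \ CP G Z T S y).card : ℤ)
        * (K.biUnion (rpts (tlo G T hm) (xlv G (CP G Z T S) (tlo G T hm) z g) z)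
          \ CP G Z T S y).card) :
    2 * ((r : ℤ) - 1) * (((S z).card : ℤ) - r)
      + 2 * ∑ u ∈ K, (((CP G Z T S z).card : ℤ) * g u
          - ilm G (CP G Z T S) (tlo G T hm) z g u)
      + 2 * ∑ u ∈ U z, iht G (CP G Z T S) (tlo G T hm) y u
      + sv
      ≤ En
        + (((pcz (tlo G T hm) y (U z)).card : ℤ) + ∑ u ∈ K, (if ho u = y then (ipc u : ℤ) else 0))
          * (((pcz (tlo G T hm) y (U z)).card : ℤ)
            + ∑ u ∈ K, (if ho u = y then (ipc u : ℤ) else 0) + 1)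
        + 2 * (∑ u ∈ K, ((g u : ℤ) + 1 - if ho u = y then (ipc u : ℤ) else 0)
            + (CP G Z T S y).card) * (((S z).card : ℤ) - r + 1)
        + (∑ u ∈ K, ((g u : ℤ) + 1 - if ho u = y then (ipc u : ℤ) else 0))
          * (∑ u ∈ K, ((g u : ℤ) + 1 - if ho u = y then (ipc u : ℤ) else 0) - 1)
        + 2 * ∑ u ∈ K, (if ho u = y then (1 - (ipc u : ℤ)) * (iar G (CP G Z T S y) u : ℤ)
            else ((g u : ℤ) + 1) * (CP G Z T S y).card) := by
  have hk : ∀ u ∈ K, ikp (tlo G T hm) z u ≠ 0 := fun u hu h3 => by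
    have := hg1 u hu
    have := hg2 u hu
    omega
  have hsty : ∀ u ∈ K, (ho u = y ↔ u ∈ U y) := by
    intro u hu
    obtain ⟨x, hx, hux⟩ := mem_biUnion.1 (hK hu)
    constructor
    · intro h1
      rw [hho x (mem_of_mem_erase hx) u hux] at h1
      exact h1 ▸ hux
    · exact hho y hy u
  have h1 := Fam.rowM_G hF hP hh hC hW h hz hy hzy hK hk hsty
    (X := xlv G (CP G Z T S) (tlo G T hm) z g) (fun Q => xlv_sub) l1 l2 EN
  have hJ : ({y} : Finset V) ⊆ A := singleton_subset_iff.2 hy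
  have h2 := Fam.rowLS_of hF hh hW hC h hho hJ hK hg1 hg2
    (EX := NE G (S z) - En
        - (((pcz (tlo G T hm) y (U z)).card : ℤ)
            + ∑ u ∈ K, (if ho u = y then (ipc u : ℤ) else 0))
          * (((pcz (tlo G T hm) y (U z)).card : ℤ)
            + ∑ u ∈ K, (if ho u = y then (ipc u : ℤ) else 0) + 1)
        + 2 * (∑ u ∈ K, (if ho u = y then (ipc u : ℤ) else 0))
          * ((pcz (tlo G T hm) y (U z)).card : ℤ)
        + 2 * ∑ u ∈ K, (if ho u = y then (ipc u : ℤ) * (iar G (CP G Z T S y) u : ℤ) else 0)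
        - E G ((upc (tlo G T hm) z (U y) K).image Prod.fst))
    (by
      rw [card_singleton, Nat.cast_one]
      exact h1)
    (sv := sv + E G ((upc (tlo G T hm) z (U y) K).image Prod.fst))
    (by
      rw [singleton_biUnion]
      exact hsv)
  simp only [sum_singleton, card_singleton, mem_singleton, Nat.cast_one, erase_singleton,
    sum_empty, sub_self, zero_mul, sub_zero, add_zero] at h2
  have h3 : ∑ u ∈ K, (if ho u = y then (iar G (CP G Z T S (ho u)) u : ℤ)
              + ((g u : ℤ) + 1 - ipc u) * (∑ l ∈ ({y} : Finset V).erase (ho u),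
                ((CP G Z T S l).card : ℤ))
            else ((g u : ℤ) + 1) * ((CP G Z T S y).card : ℤ))
      = ∑ u ∈ K, (if ho u = y then (1 - (ipc u : ℤ)) * (iar G (CP G Z T S y) u : ℤ)
            else ((g u : ℤ) + 1) * (CP G Z T S y).card)
        + ∑ u ∈ K, (if ho u = y then (ipc u : ℤ) * (iar G (CP G Z T S y) u : ℤ) else 0) := by
    rw [← sum_add_distrib]
    refine sum_congr rfl fun u hu => ?_
    by_cases h5 : ho u = y
    · rw [if_pos h5, if_pos h5, if_pos h5, h5, erase_singleton, sum_empty]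
      ring
    · rw [if_neg h5, if_neg h5, if_neg h5, add_zero]
  have h4 : ∑ u ∈ U z, (ipc u : ℤ) * ikp (tlo G T hm) y u
      = ((pcz (tlo G T hm) y (U z)).card : ℤ) := by
    have h5 : ∀ f : Itm V → ℤ, ∑ u ∈ U z, f u
        = ∑ Q ∈ (U z).toLeft, f (Sum.inl Q) + ∑ e ∈ (U z).toRight, f (Sum.inr e) := by
      intro f
      rw [← sum_disjSum, toLeft_disjSum_toRight]
    rw [h5]
    have h6 : pcz (tlo G T hm) y (U z) = (U z).toRight.filter fun e => tlo G T hm e.1 = y := by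
      ext e
      rw [mem_pcz, mem_filter, mem_toRight]
    rw [h6, card_filter]
    simp only [ipc, Nat.cast_zero, zero_mul, sum_const_zero, zero_add, Nat.cast_one, one_mul, ikp]
    push_cast
    rfl
  rw [h3, h4] at h2
  clear h1 hsv EN h3
  linarith

end RowGL

section Sub

variable {V : Type*} {G : SimpleGraph V} {Z T : Finset V} {hm : V → V} {r m n p : ℕ}
  {B : V → Finset (V × V)} {Ps : V → Finset (Finset V)}
  {B1 : Finset (V × V)} {P1 : Finset (Finset V)}

/-- no class point leaves: the class parts of the smaller slots are the old ones -/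
lemma CP_keepX (z : V) :
    CP G Z T (fun x => (Z \ keepX G Z T hm z B1 P1 ∅).filter fun v => hm v = x)
      = cz G Z T hm := by
  funext x
  rw [CP_sub']
  refine Finset.sdiff_eq_self_of_disjoint (disjoint_left.2 fun v hv hv' => ?_)
  unfold keepX at hv'
  rw [union_empty] at hv'
  have h1 := (mem_sdiff.1 hv').1
  have hxz : x = z :=
    (mem_filter.1 (mem_CP.1 hv).1).2.symm.trans (mem_filter.1 (mem_HP.1 h1).1).2
  subst hxz
  exact (mem_HP.1 h1).2 (mem_CP.1 hv).2

/-- **T+ of the row `i` with the columns of `j` over the row indices: the PC pairs of both homes of the cell in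
joint form, used items at any levels `g`, kept from the host `i` only the PC pairs `B1` and the parts `P1`**
(the members of the others are dropped, no class point leaves); any energy `En`, any saving `sv`, exact number of
used points, no sign condition -/
theorem WCoreK.rowGK (hp : 2 * r ≤ p) (h : WCoreK G Z T r m n p hm)
    {host : Itm V → V} {ρ : V → ℕ} {σ : ℕ → V}
    (hpk : ∀ x ∈ T, Pk G (cz G Z T hm x) (hz G Z T hm x) (tlo G T hm) (B x) (Ps x))
    (hst : ∀ x ∈ T, ∀ u ∈ pkf (B x) (Ps x), host u = x)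
    (rk : Rank T (tI G Z T hm r Z) ρ σ) {i j : ℕ} (hi : i < n) (hj : j < n) (hij : i ≠ j)
    (hB1 : B1 ⊆ B (σ i)) (hP1 : P1 ⊆ Ps (σ i)) {K : Finset (Itm V)}
    (hK : K ⊆ T.biUnion fun x => pkf (B x) (Ps x)) (hKh : ∀ u ∈ K, ρ (host u) ≠ i)
    {g : Itm V → ℕ} (hg1 : ∀ u ∈ K, 1 ≤ g u) (hg2 : ∀ u ∈ K, g u ≤ ikp (tlo G T hm) (σ i) u)
    {En : ℤ}
    (EN : 2 * eI G hm (Z \ keepX G Z T hm (σ i) B1 P1 ∅) (σ i)
        + E G ((pcs (tlo G T hm) B1 (σ j)).image Prod.fst)
      ≤ En + 2 * ∑ e ∈ pcs (tlo G T hm) B1 (σ j), (nd G (cz G Z T hm (σ i)) e.1 : ℤ))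
    {sv : ℤ}
    (hsv : (NE G (K.biUnion (rpts (tlo G T hm) (xlv G (cz G Z T hm) (tlo G T hm) (σ i) g) (σ i))
          \ cz G Z T hm (σ j)) : ℤ)
        + (sv + E G ((upc (tlo G T hm) (σ i) (pkf (B (σ j)) (Ps (σ j))) K).image Prod.fst))
        + (K.biUnion (rpts (tlo G T hm) (xlv G (cz G Z T hm) (tlo G T hm) (σ i) g) (σ i))
          \ cz G Z T hm (σ j)).card
      ≤ ((K.biUnion (rpts (tlo G T hm) (xlv G (cz G Z T hm) (tlo G T hm) (σ i) g) (σ i))
          \ cz G Z T hm (σ j)).card : ℤ)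
        * (K.biUnion (rpts (tlo G T hm) (xlv G (cz G Z T hm) (tlo G T hm) (σ i) g) (σ i))
          \ cz G Z T hm (σ j)).card) :
    2 * ((r : ℤ) - 1) * (sI hm r Z (σ i) - (hI G Z T hm Z (σ i) - (keepH B1 P1).card))
      + 2 * ∑ u ∈ K, ((g u : ℤ) * ((r : ℤ) - 1 - tI G Z T hm r Z (σ i))
        - (ilm G (cz G Z T hm) (tlo G T hm) (σ i) g u : ℤ))
      + 2 * ∑ u ∈ pkf B1 P1,
        ((ikp (tlo G T hm) (σ j) u : ℤ) * ((r : ℤ) - 1 - tI G Z T hm r Z (σ j))
          - (ims G (cz G Z T hm) (tlo G T hm) (σ j) u : ℤ))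
      + sv
      ≤ En
        + (((pcs (tlo G T hm) B1 (σ j)).card : ℤ)
            + ∑ u ∈ K, (if ρ (host u) = j then (ipc u : ℤ) else 0))
          * (((pcs (tlo G T hm) B1 (σ j)).card : ℤ)
            + ∑ u ∈ K, (if ρ (host u) = j then (ipc u : ℤ) else 0) + 1)
        + 2 * (∑ u ∈ K, ((g u : ℤ) + 1 - if ρ (host u) = j then (ipc u : ℤ) else 0)
            + ((r : ℤ) - 1 - tI G Z T hm r Z (σ j)))
          * (sI hm r Z (σ i) - (hI G Z T hm Z (σ i) - (keepH B1 P1).card) + 1)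
        + (∑ u ∈ K, ((g u : ℤ) + 1 - if ρ (host u) = j then (ipc u : ℤ) else 0))
          * (∑ u ∈ K, ((g u : ℤ) + 1 - if ρ (host u) = j then (ipc u : ℤ) else 0) - 1)
        + 2 * ∑ u ∈ K, (if ρ (host u) = j
            then (1 - (ipc u : ℤ)) * (iar G (cz G Z T hm (host u)) u : ℤ)
            else ((g u : ℤ) + 1) * ((r : ℤ) - 1 - tI G Z T hm r Z (σ j))) := by
  have hcard := h.toWHom.cardT
  have hmem : ∀ i < n, σ i ∈ T := fun i hi => rk.mem i (by rw [hcard]; exact hi)
  have hne : σ i ≠ σ j := fun h1 =>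
    hij (rk.sinj (by rw [hcard]; exact hi) (by rw [hcard]; exact hj) h1)
  have hmK : ∀ u ∈ K, ∃ x ∈ T, u ∈ pkf (B x) (Ps x) ∧ host u = x := by
    intro u hu
    obtain ⟨x, hx, hux⟩ := mem_biUnion.1 (hK hu)
    exact ⟨x, hx, hux, hst x hx u hux⟩
  have hK' : K ⊆ (T.erase (σ i)).biUnion fun x => pkf (B x) (Ps x) := by
    intro u hu
    obtain ⟨x, hx, hux⟩ := mem_biUnion.1 (hK hu)
    refine mem_biUnion.2 ⟨x, mem_erase.2 ⟨fun h1 => hKh u hu ?_, hx⟩, hux⟩
    show ρ (host u) = i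
    rw [hst x hx u hux, h1]
    exact rk.right i (by rw [hcard]; exact hi)
  have hho : ∀ u ∈ K, (host u = σ j ↔ ρ (host u) = j) := by
    intro u hu
    obtain ⟨x, hx, -, hxx⟩ := hmK u hu
    rw [hxx]
    constructor
    · rintro rfl
      exact rk.right j (by rw [hcard]; exact hj)
    · rintro rfl
      exact (rk.left x hx).symm
  have hkH := keepH_sub (hpk _ (hmem i hi)) hB1 hP1
  have hXC : (∅ : Finset V) ⊆ cz G Z T hm (σ i) := empty_subset _
  have hX := keepX_sub (B1 := B1) (P1 := P1) hXC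
  have hCP := CP_keepX (G := G) (Z := Z) (T := T) (hm := hm) (B1 := B1) (P1 := P1) (σ i)
  have hcX := card_keepX (B1 := B1) (P1 := P1) hXC hkH
  have hsl := slot_sub hX
  have hUj : keepU B Ps (σ i) B1 P1 (σ j) = pkf (B (σ j)) (Ps (σ j)) := keepU_ne hne.symm
  have hpcz : ∀ (Q : Finset (V × V)) (Pt : Finset (Finset V)) (w : V),
      pcz (tlo G T hm) w (pkf Q Pt) = pcs (tlo G T hm) Q w := by
    intro Q Pt w
    ext e
    rw [mem_pcz, mem_pcs, inr_mem_pkf]
  have h1 := Fam.rowGL_of h.F.toPFrame h.gp.P h.hh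
    (h.toWHom.csysD (keepX G Z T hm (σ i) B1 P1 ∅))
    (h.toWHom.wsysD hX (h.toWHom.z_notMem_keepX (hmem i hi) (notMem_empty _)))
    (h.toWHom.famK hpk (hmem i hi) hB1 hP1 hXC fun e _ => notMem_empty _)
    (keepU_host hst hB1 hP1) (hmem i hi) (hmem j hj) hne (keepU_sub hK') hg1 hg2
    (fun e he => by
      rw [keepU_self, hpcz, mem_pcs] at he
      rw [hCP]
      exact h.ms_le hp (hmem i hi) (hmem j hj) hne ((hpk _ (hmem i hi)).bH e (hB1 he.1)) he.2)
    (fun e he => by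
      rw [hUj, hpcz, mem_pcs] at he
      rw [hCP]
      exact h.ms_le hp (hmem j hj) (hmem i hi) hne.symm ((hpk _ (hmem j hj)).bH e he.1) he.2)
    (En := En)
    (by
      rw [keepU_self, hpcz, hCP, ← two_eI]
      exact EN)
    (sv := sv)
    (by
      rw [hCP, hUj]
      exact hsv)
  rw [hCP, keepU_self, hpcz] at h1
  have hs1 : (((Z \ keepX G Z T hm (σ i) B1 P1 ∅).filter fun v => hm v = σ i).card : ℤ) - r
      = sI hm r Z (σ i) - (hI G Z T hm Z (σ i) - (keepH B1 P1).card) := by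
    have h6 : (((Z.filter fun v => hm v = σ i).card : ℤ) - r) = sI hm r Z (σ i) := rfl
    rw [hsl, hcX, card_empty, ← h6]
    push_cast
    ring
  rw [hs1] at h1
  have hcc : ∀ x, ((cz G Z T hm x).card : ℤ) = (r : ℤ) - 1 - tI G Z T hm r Z x :=
    fun x => card_CP_eq Z x
  have h2 : ∀ f f' : Itm V → ℤ, ∑ u ∈ K, (if host u = σ j then f u else f' u)
      = ∑ u ∈ K, (if ρ (host u) = j then f u else f' u) := by
    intro f f'
    refine sum_congr rfl fun u hu => ?_
    by_cases h3 : ρ (host u) = j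
    · rw [if_pos h3, if_pos ((hho u hu).2 h3)]
    · rw [if_neg h3, if_neg fun h4 => h3 ((hho u hu).1 h4)]
  have h3 : ∑ u ∈ K, ((g u : ℤ) + 1 - if host u = σ j then (ipc u : ℤ) else 0)
      = ∑ u ∈ K, ((g u : ℤ) + 1 - if ρ (host u) = j then (ipc u : ℤ) else 0) := by
    rw [sum_sub_distrib, sum_sub_distrib, h2]
  have h4 : ∑ u ∈ K, (((cz G Z T hm (σ i)).card : ℤ) * g u
        - ilm G (cz G Z T hm) (tlo G T hm) (σ i) g u)
      = ∑ u ∈ K, ((g u : ℤ) * ((r : ℤ) - 1 - tI G Z T hm r Z (σ i))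
        - (ilm G (cz G Z T hm) (tlo G T hm) (σ i) g u : ℤ)) := by
    refine sum_congr rfl fun u _ => ?_
    rw [hcc]
    ring
  have h5 : ∑ u ∈ pkf B1 P1, iht G (cz G Z T hm) (tlo G T hm) (σ j) u
      = ∑ u ∈ pkf B1 P1,
        ((ikp (tlo G T hm) (σ j) u : ℤ) * ((r : ℤ) - 1 - tI G Z T hm r Z (σ j))
          - (ims G (cz G Z T hm) (tlo G T hm) (σ j) u : ℤ)) := by
    refine sum_congr rfl fun u _ => ?_
    unfold iht
    rw [hcc]
    ring
  have h6 : ∑ u ∈ K, (if host u = σ j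
        then (1 - (ipc u : ℤ)) * (iar G (cz G Z T hm (σ j)) u : ℤ)
        else ((g u : ℤ) + 1) * ((cz G Z T hm (σ j)).card : ℤ))
      = ∑ u ∈ K, (if ρ (host u) = j
            then (1 - (ipc u : ℤ)) * (iar G (cz G Z T hm (host u)) u : ℤ)
            else ((g u : ℤ) + 1) * ((r : ℤ) - 1 - tI G Z T hm r Z (σ j))) := by
    refine sum_congr rfl fun u hu => ?_
    by_cases h7 : ρ (host u) = j
    · rw [if_pos h7, if_pos ((hho u hu).2 h7), (hho u hu).2 h7]
    · rw [if_neg h7, if_neg fun h8 => h7 ((hho u hu).1 h8), hcc]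
  rw [h2, h3, h4, h5, h6, hcc] at h1
  clear hsv EN h2 h3 h4 h5 h6
  linarith

end Sub

end Pool.Agent.Lib.MP_f04ccf_co
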