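import Pool.Agent.Lib.MP_f04ccf_co.M.RowGT
import Pool.Agent.Lib.MP_f04ccf_co.M.RowGL
import Pool.Agent.Lib.MP_f04ccf_co.M.EnDI

/-!
MP_f04ccf_co, STATE 10 (L1, L2): **helper35's `RowGN` with a set `D` of dropped items of the host `i`**: the row
test of `i` with the columns of `j`, the PC pairs of both homes of the cell in joint form, over the row indices, at
any levels, with the best other points; the members of the items of `D` leave the slot, no class point leaves.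

* `RowGD1`: the statement over numbers for one `i`, `j`, `D`, energy `En`; `RowGDN`: for all of them;
* `WCoreK.rowgD1`: any packings with the least number of parts, any energy;
* `WItC.rowgD`: version [C], `En = 2 mu' h' - mu' (mu' + 1) + ∑ NN i l + 2 losD`.
-/

set_option autoImplicit false

namespace Pool.Agent.Lib.MP_f04ccf_co

open Finset

attribute [local instance] Classical.propDecidable

section Defs

variable {ι : Type*}

/-- **the row test of `i` with the columns of `j`, the PC pairs in joint form, the items `D` of `i` dropped**,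
energy `En` of the smaller slot -/
def RowGD1 (R : ℤ) (n : ℕ) (t s : ℕ → ℤ) (U : Finset ι) (ho : ι → ℕ) (vl : ι → ℤ)
    (kp ms mn : ℕ → ι → ℤ) (be : ℕ → ℕ → ℤ) (pc ar : ι → ℤ) (i j : ℕ) (D : Finset ι) (En : ℤ) :
    Prop :=
  ∀ K ⊆ U, (∀ u ∈ K, ho u ≠ i) → ∀ g : ι → ℕ,
    (∀ u ∈ K, 1 ≤ g u) → (∀ u ∈ K, (g u : ℤ) ≤ kp i u) → ∀ sv : ℤ,
    SavJ n ho vl kp pc i g {j} (K.filter fun u => ho u = j → pc u = 0) sv →
    2 * R * (s i - ∑ u ∈ D, (vl u + 1 - pc u))
      + 2 * ∑ u ∈ K, (g u * (R - t i) - if kp i u ≤ (g u : ℤ) then mn i u else 0)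
      + 2 * ∑ u ∈ U.filter (fun u => ho u = i ∧ u ∉ D), (kp j u * (R - t j) - ms j u)
      + (sv + 2 * ((∑ u ∈ K, if ho u = j then pc u else 0)
        * ((K.filter fun u => ho u = j ∧ pc u = 0 ∧ ∀ l < n, l ≠ i → kp l u = 0).card : ℤ)))
      ≤ En
        + (be i j - ∑ u ∈ D, pc u * kp j u + ∑ u ∈ K, if ho u = j then pc u else 0)
          * (be i j - ∑ u ∈ D, pc u * kp j u + (∑ u ∈ K, if ho u = j then pc u else 0) + 1)
        + 2 * (∑ u ∈ K, ((g u : ℤ) + 1 - if ho u = j then pc u else 0) + (R - t j))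
          * (s i - ∑ u ∈ D, (vl u + 1 - pc u) + 1)
        + (∑ u ∈ K, ((g u : ℤ) + 1 - if ho u = j then pc u else 0))
          * (∑ u ∈ K, ((g u : ℤ) + 1 - if ho u = j then pc u else 0) - 1)
        + 2 * ∑ u ∈ K, (if ho u = j then (1 - pc u) * ar u else ((g u : ℤ) + 1) * (R - t j))

/-- the same for all `i`, `j`, `D` -/
def RowGDN (R : ℤ) (n : ℕ) (t s : ℕ → ℤ) (U : Finset ι) (ho : ι → ℕ) (vl : ι → ℤ)
    (kp ms mn : ℕ → ι → ℤ) (be : ℕ → ℕ → ℤ) (pc ar : ι → ℤ) (En : ℕ → ℕ → Finset ι → ℤ) : Prop :=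
  ∀ i < n, ∀ j < n, i ≠ j → ∀ D ⊆ U.filter (fun u => ho u = i),
    RowGD1 R n t s U ho vl kp ms mn be pc ar i j D (En i j D)

end Defs

section RowGDT

variable {V : Type*} {G : SimpleGraph V} {Z T : Finset V} {hm : V → V} {r m n p : ℕ}
  {φ : Finset (V × V) → Finset (Finset V) → ℕ} {B : V → Finset (V × V)}
  {Ps : V → Finset (Finset V)} {host : Itm V → V} {ρ : V → ℕ} {σ : ℕ → V}

/-- the dropped points in both letters -/
lemma keepX_kp {z : V}
    (h : Pk G (cz G Z T hm z) (hz G Z T hm z) (tlo G T hm) (B z) (Ps z)) {D : Finset (Itm V)}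
    (hD : D ⊆ pkf (B z) (Ps z)) (XC : Finset V) :
    keepX G Z T hm z (kpB (B z) D) (kpP (Ps z) D) XC = D.biUnion imem ∪ XC := by
  have h1 := h.home_kp hD
  have h2 := h.drop_sub hD
  unfold keepX keepH
  rw [← h1]
  congr 1
  ext v
  simp only [mem_sdiff, not_and, not_not]
  exact ⟨fun h3 => h3.2 h3.1, fun h3 => ⟨h2 h3, fun _ => h3⟩⟩

/-- the number of the kept PC pairs of a tail -/
lemma card_pcs_kp {tl : V → V} {Q : Finset (V × V)} {Pt : Finset (Finset V)} {y : V}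
    {D : Finset (Itm V)} (hD : D ⊆ pkf Q Pt) :
    ((pcs tl (kpB Q D) y).card : ℤ)
      = ((pcs tl Q y).card : ℤ) - ∑ u ∈ D, (ipc u : ℤ) * ikp tl y u := by
  have h1 := sum_ipc tl y (kpB Q D) (kpP Pt D)
  have h2 := sum_ipc tl y Q Pt
  rw [pkf_kp] at h1
  rw [← h1, ← h2, ← sum_sdiff hD]
  ring

/-- **the row test with the PC pairs of both homes in joint form and the items `D` of the host `i` dropped**: any
packings with the least number of parts, any energy -/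
theorem WCoreK.rowgD1 (hp : 2 * r ≤ p) (h : WCoreK G Z T r m n p hm)
    (hpk : ∀ x ∈ T, Pk G (cz G Z T hm x) (hz G Z T hm x) (tlo G T hm) (B x) (Ps x))
    (min : ∀ x ∈ T, ∀ B' Ps', Pk G (cz G Z T hm x) (hz G Z T hm x) (tlo G T hm) B' Ps' →
      (Ps x).card ≤ Ps'.card)
    (hst : ∀ x ∈ T, ∀ u ∈ pkf (B x) (Ps x), host u = x)
    (rk : Rank T (tI G Z T hm r Z) ρ σ) {i j : ℕ} (hi : i < n) (hj : j < n) (hij : i ≠ j)
    {D : Finset (Itm V)} (hD : D ⊆ pkf (B (σ i)) (Ps (σ i))) {En : ℤ}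
    (EN : 2 * eI G hm (Z \ D.biUnion imem) (σ i)
        + E G ((pcs (tlo G T hm) (kpB (B (σ i)) D) (σ j)).image Prod.fst)
      ≤ En + 2 * ∑ e ∈ pcs (tlo G T hm) (kpB (B (σ i)) D) (σ j),
        (nd G (cz G Z T hm (σ i)) e.1 : ℤ)) :
    RowGD1 ((r : ℤ) - 1) n (fun i => tI G Z T hm r Z (σ i)) (fun i => sI hm r Z (σ i))
      (T.biUnion fun x => pkf (B x) (Ps x)) (fun u => ρ (host u)) (fun u => (ivl u : ℤ))
      (fun i u => (ikp (tlo G T hm) (σ i) u : ℤ))
      (fun i u => (ims G (cz G Z T hm) (tlo G T hm) (σ i) u : ℤ))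
      (fun i u => (imn G (cz G Z T hm) (tlo G T hm) (σ i) u : ℤ))
      (fun i j => pcn (tlo G T hm) B (σ i) (σ j)) (fun u => (ipc u : ℤ))
      (fun u => (iar G (cz G Z T hm (host u)) u : ℤ)) i j D En := by
  intro K hK hKh g hg1 hg2 sv hS
  have hcard := h.toWHom.cardT
  have hmem : ∀ i < n, σ i ∈ T := fun i hi => rk.mem i (by rw [hcard]; exact hi)
  have hg2' : ∀ u ∈ K, g u ≤ ikp (tlo G T hm) (σ i) u := fun u hu => by
    have h5 : (g u : ℤ) ≤ (ikp (tlo G T hm) (σ i) u : ℤ) := hg2 u hu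
    exact_mod_cast h5
  have hfil : (T.biUnion fun x => pkf (B x) (Ps x)).filter (fun u => ρ (host u) = i)
      = pkf (B (σ i)) (Ps (σ i)) := fil_host hst rk (by rw [hcard]; exact hi)
  have hsv := h.savGL hpk min hst rk hi hj hK hKh hg1 hg2' hS
  have hX := keepX_kp (hpk _ (hmem i hi)) hD ∅
  have h1 := h.rowGK hp hpk hst rk hi hj hij (kpB_sub (B := B (σ i)) (D := D))
    (kpP_sub (Ps := Ps (σ i)) (D := D)) hK hKh hg1 hg2' (En := En)
    (by
      rw [hX, union_empty]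
      exact EN) hsv
  have h2 := (hpk _ (hmem i hi)).card_kp hD
  have h3 : ((keepH (kpB (B (σ i)) D) (kpP (Ps (σ i)) D)).card : ℤ)
      = hI G Z T hm Z (σ i) - ∑ u ∈ D, ((ivl u : ℤ) + 1 - (ipc u : ℤ)) := h2
  have h4 := card_pcs_kp (tl := tlo G T hm) (y := σ j) hD
  have h5 : ((pcs (tlo G T hm) (B (σ i)) (σ j)).card : ℤ) = pcn (tlo G T hm) B (σ i) (σ j) := rfl
  have h6 : sI hm r Z (σ i) - (hI G Z T hm Z (σ i)
      - (hI G Z T hm Z (σ i) - ∑ u ∈ D, ((ivl u : ℤ) + 1 - (ipc u : ℤ))))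
      = sI hm r Z (σ i) - ∑ u ∈ D, ((ivl u : ℤ) + 1 - (ipc u : ℤ)) := by ring
  rw [h3, h4, h5, h6, pkf_kp] at h1
  simp only [ilm_cast] at h1
  beta_reduce
  have h8 : ∀ inst : DecidablePred fun u : Itm V => ρ (host u) = i ∧ u ∉ D,
      @filter (Itm V) (fun u => ρ (host u) = i ∧ u ∉ D) inst (T.biUnion fun x => pkf (B x) (Ps x))
      = pkf (B (σ i)) (Ps (σ i)) \ D := by
    intro inst
    ext u
    rw [mem_sdiff, ← hfil]
    simp only [mem_filter]
    tauto
  rw [h8]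
  clear hsv EN hS
  linarith

end RowGDT

end Pool.Agent.Lib.MP_f04ccf_co
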