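import Pool.Agent.Lib.MP_f04ccf_co.M.RowGDT

/-!
MP_f04ccf_co, STATE 10 (L1): **T on the sub-slot** (form of note 17700: parts and PC members of the host leave, no
class point leaves), exact number of points, used items at any levels, any saving, any energy, no sign condition.

* `WCoreK.rowAK`: with partial columns (RA) on the sub-slot;
* `WCoreK.rowTK`: T (no column, slope one);
* `RowTD1`: the statement over numbers with a dropped set `D` of items of the host `i`, energy `En`;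
  `WCoreK.rowtD1`: any packings with the least number of parts, any energy.
-/

set_option autoImplicit false

namespace Pool.Agent.Lib.MP_f04ccf_co

open Finset

attribute [local instance] Classical.propDecidable

section Defs

variable {ι : Type*}

/-- **T of the row `i` with the items `D` of `i` dropped** (slope one, no column), energy `En` of the smaller
slot -/
def RowTD1 (R : ℤ) (n : ℕ) (t s : ℕ → ℤ) (U : Finset ι) (ho : ι → ℕ) (vl : ι → ℤ)
    (kp mn : ℕ → ι → ℤ) (pc : ι → ℤ) (i : ℕ) (D : Finset ι) (En : ℤ) : Prop :=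
  ∀ K ⊆ U, (∀ u ∈ K, ho u ≠ i) → ∀ g : ι → ℕ,
    (∀ u ∈ K, 1 ≤ g u) → (∀ u ∈ K, (g u : ℤ) ≤ kp i u) → ∀ sv : ℤ,
    SavJ n ho vl kp pc i g ∅ K sv →
    2 * R * (s i - ∑ u ∈ D, (vl u + 1 - pc u))
      + 2 * ∑ u ∈ K, (g u * (R - t i) - if kp i u ≤ (g u : ℤ) then mn i u else 0) + sv
      ≤ En
        + 2 * (∑ u ∈ K, ((g u : ℤ) + 1)) * (s i - ∑ u ∈ D, (vl u + 1 - pc u) + 1)
        + (∑ u ∈ K, ((g u : ℤ) + 1)) * (∑ u ∈ K, ((g u : ℤ) + 1) - 1)

end Defs

section Sub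

variable {V : Type*} {G : SimpleGraph V} {Z T : Finset V} {hm : V → V} {r m n p : ℕ}
  {B : V → Finset (V × V)} {Ps : V → Finset (Finset V)}
  {B1 : Finset (V × V)} {P1 : Finset (Finset V)}

/-- **(RA) of the row `i` on the sub-slot**: kept from the host `i` only the PC pairs `B1` and the parts `P1`, `b`
columns of `j`, each with `a` more neighbours in the class of `i`, used items at any levels -/
theorem WCoreK.rowAK (h : WCoreK G Z T r m n p hm)
    {host : Itm V → V} {ρ : V → ℕ} {σ : ℕ → V}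
    (hpk : ∀ x ∈ T, Pk G (cz G Z T hm x) (hz G Z T hm x) (tlo G T hm) (B x) (Ps x))
    (hst : ∀ x ∈ T, ∀ u ∈ pkf (B x) (Ps x), host u = x)
    (rk : Rank T (tI G Z T hm r Z) ρ σ) {i j : ℕ} (hi : i < n) (hj : j < n) (hij : i ≠ j)
    (hB1 : B1 ⊆ B (σ i)) (hP1 : P1 ⊆ Ps (σ i)) {K : Finset (Itm V)}
    (hK : K ⊆ T.biUnion fun x => pkf (B x) (Ps x)) (hKh : ∀ u ∈ K, ρ (host u) ≠ i)
    {g : Itm V → ℕ} (hg1 : ∀ u ∈ K, 1 ≤ g u) (hg2 : ∀ u ∈ K, g u ≤ ikp (tlo G T hm) (σ i) u)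
    {a b : ℤ} (ha : 0 ≤ a) (hb : 0 ≤ b)
    (hR : RecF G Z T hm (fun _ => B1)
      (K.biUnion (rpts (tlo G T hm) (xlv G (cz G Z T hm) (tlo G T hm) (σ i) g) (σ i)))
      (σ i) (σ j) a b) {En : ℤ}
    (EN : 2 * eI G hm (Z \ keepX G Z T hm (σ i) B1 P1 ∅) (σ i) ≤ En) {sv : ℤ}
    (hsv : (NE G (K.biUnion
          (rpts (tlo G T hm) (xlv G (cz G Z T hm) (tlo G T hm) (σ i) g) (σ i))) : ℤ) + sv
      + (K.biUnion (rpts (tlo G T hm) (xlv G (cz G Z T hm) (tlo G T hm) (σ i) g) (σ i))).card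
      ≤ ((K.biUnion (rpts (tlo G T hm) (xlv G (cz G Z T hm) (tlo G T hm) (σ i) g) (σ i))).card : ℤ)
        * (K.biUnion
          (rpts (tlo G T hm) (xlv G (cz G Z T hm) (tlo G T hm) (σ i) g) (σ i))).card) :
    2 * ((r : ℤ) - 1) * (sI hm r Z (σ i) - (hI G Z T hm Z (σ i) - (keepH B1 P1).card))
      + 2 * ∑ u ∈ K, ((g u : ℤ) * ((r : ℤ) - 1 - tI G Z T hm r Z (σ i))
        - (ilm G (cz G Z T hm) (tlo G T hm) (σ i) g u : ℤ))
      + 2 * ∑ u ∈ pkf B1 P1, (b * ikp (tlo G T hm) (σ j) u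
          - min b (ims G (cz G Z T hm) (tlo G T hm) (σ j) u : ℤ))
      + 2 * (a * b) + sv
      ≤ En
        + 2 * (∑ u ∈ K, ((g u : ℤ) + 1) + b)
          * (sI hm r Z (σ i) - (hI G Z T hm Z (σ i) - (keepH B1 P1).card) + 1)
        + (∑ u ∈ K, ((g u : ℤ) + 1)) * (∑ u ∈ K, ((g u : ℤ) + 1) - 1)
        + 2 * ∑ u ∈ K, (if ρ (host u) = j
            then min (iar G (cz G Z T hm (host u)) u : ℤ) (b * ((g u : ℤ) + 1))
            else b * ((g u : ℤ) + 1)) := by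
  have hcard := h.toWHom.cardT
  have hmem : ∀ i < n, σ i ∈ T := fun i hi => rk.mem i (by rw [hcard]; exact hi)
  have hne : σ i ≠ σ j := fun h1 =>
    hij (rk.sinj (by rw [hcard]; exact hi) (by rw [hcard]; exact hj) h1)
  have hmK : ∀ u ∈ K, ∃ x ∈ T, u ∈ pkf (B x) (Ps x) ∧ host u = x := by
    intro u hu
    obtain ⟨x, hx, hux⟩ := mem_biUnion.1 (hK hu)
    exact ⟨x, hx, hux, hst x hx u hux⟩
  have hK' : K ⊆ (T.erase (σ i)).biUnion fun x => pkf (B x) (Ps x) := by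
    intro u hu
    obtain ⟨x, hx, hux⟩ := mem_biUnion.1 (hK hu)
    refine mem_biUnion.2 ⟨x, mem_erase.2 ⟨fun h1 => hKh u hu ?_, hx⟩, hux⟩
    show ρ (host u) = i
    rw [hst x hx u hux, h1]
    exact rk.right i (by rw [hcard]; exact hi)
  have hho : ∀ u ∈ K, (u ∈ keepU B Ps (σ i) B1 P1 (σ j) ↔ ρ (host u) = j) := by
    intro u hu
    obtain ⟨x, hx, hux, hxx⟩ := hmK u hu
    rw [keepU_ne hne.symm, hxx]
    constructor
    · intro h1
      have h2 := hst _ (hmem j hj) u h1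
      rw [hxx] at h2
      rw [h2]
      exact rk.right j (by rw [hcard]; exact hj)
    · rintro rfl
      rw [rk.left x hx]
      exact hux
  have hkH := keepH_sub (hpk _ (hmem i hi)) hB1 hP1
  have hXC : (∅ : Finset V) ⊆ cz G Z T hm (σ i) := empty_subset _
  have hX := keepX_sub (B1 := B1) (P1 := P1) hXC
  have hCP := CP_keepX (G := G) (Z := Z) (T := T) (hm := hm) (B1 := B1) (P1 := P1) (σ i)
  have hcX := card_keepX (B1 := B1) (P1 := P1) hXC hkH
  have hsl := slot_sub hX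
  have hpcz : ∀ (Q : Finset (V × V)) (Pt : Finset (Finset V)) (w : V),
      pcz (tlo G T hm) w (pkf Q Pt) = pcs (tlo G T hm) Q w := by
    intro Q Pt w
    ext e
    rw [mem_pcz, mem_pcs, inr_mem_pkf]
  obtain ⟨X1, Y1, h1, h2, h3, h4, h5, h6, h7⟩ := hR
  -- smaller sides
  have ha' : a.toNat ≤ X1.card := by omega
  have hb' : b.toNat ≤ Y1.card := by omega
  obtain ⟨X2, hX2, hXc⟩ := exists_subset_card_eq ha'
  obtain ⟨Y2, hY2, hYc⟩ := exists_subset_card_eq hb'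
  have hXc' : (X2.card : ℤ) = a := by
    rw [hXc]
    exact Int.toNat_of_nonneg ha
  have hYc' : (Y2.card : ℤ) = b := by
    rw [hYc]
    exact Int.toNat_of_nonneg hb
  have h8 := Fam.rowAL_of h.F.toPFrame h.gp.P h.hh
    (h.toWHom.csysD (keepX G Z T hm (σ i) B1 P1 ∅))
    (h.toWHom.wsysD hX (h.toWHom.z_notMem_keepX (hmem i hi) (notMem_empty _)))
    (h.toWHom.famK hpk (hmem i hi) hB1 hP1 hXC fun e _ => notMem_empty _)
    (hmem i hi) (hmem j hj) hne (keepU_sub hK') hg1 hg2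
    (Y := Y2) (by
      rw [hCP]
      exact hY2.trans h3)
    (by
      rw [hCP]
      exact h4.mono_left hY2)
    (F := X2) (by
      rw [hCP]
      exact hX2.trans h1)
    (fun e he h9 => by
      rw [keepU_self, hpcz] at he
      exact h2 e he (hX2 h9))
    (fun c hc a ha => (h5 a (hX2 ha) c (hY2 hc)).symm)
    (sv := sv) (by
      rw [hCP]
      exact hsv)
  rw [hCP, keepU_self] at h8
  have hs1 : (((Z \ keepX G Z T hm (σ i) B1 P1 ∅).filter fun v => hm v = σ i).card : ℤ) - r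
      = sI hm r Z (σ i) - (hI G Z T hm Z (σ i) - (keepH B1 P1).card) := by
    have h6 : (((Z.filter fun v => hm v = σ i).card : ℤ) - r) = sI hm r Z (σ i) := rfl
    rw [hsl, hcX, card_empty, ← h6]
    push_cast
    ring
  rw [hs1, ← two_eI] at h8
  have e4 : ∑ u ∈ pkf B1 P1, (b * ikp (tlo G T hm) (σ j) u
        - min b (ims G (cz G Z T hm) (tlo G T hm) (σ j) u : ℤ))
      ≤ ∑ u ∈ pkf B1 P1, ((Y2.card : ℤ) * ikp (tlo G T hm) (σ j) u
          - (Y2 ∩ icl G (cz G Z T hm) (tlo G T hm) (σ j) u).card) := by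
    refine sum_le_sum fun u _ => ?_
    have h2 : ((Y2 ∩ icl G (cz G Z T hm) (tlo G T hm) (σ j) u).card : ℤ) ≤ Y2.card := by
      exact_mod_cast card_le_card inter_subset_left
    have h3 : ((Y2 ∩ icl G (cz G Z T hm) (tlo G T hm) (σ j) u).card : ℤ)
        ≤ (ims G (cz G Z T hm) (tlo G T hm) (σ j) u : ℤ) := by
      exact_mod_cast card_le_card inter_subset_right
    rw [hYc'] at h2 ⊢
    have := le_min h2 h3
    linarith
  have hct : ((cz G Z T hm (σ i)).card : ℤ) = (r : ℤ) - 1 - tI G Z T hm r Z (σ i) :=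
    card_CP_eq Z _
  have e1 : ∑ u ∈ K, ((g u : ℤ) * ((r : ℤ) - 1 - tI G Z T hm r Z (σ i))
        - ilm G (cz G Z T hm) (tlo G T hm) (σ i) g u)
      = ∑ u ∈ K, (((cz G Z T hm (σ i)).card : ℤ) * g u
          - ilm G (cz G Z T hm) (tlo G T hm) (σ i) g u) := by
    refine sum_congr rfl fun u _ => ?_
    rw [← hct]
    ring
  have e2 : ∑ u ∈ K, (if u ∈ keepU B Ps (σ i) B1 P1 (σ j)
            then min (iar G (cz G Z T hm (σ j)) u : ℤ) (Y2.card * ((g u : ℤ) + 1))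
            else Y2.card * ((g u : ℤ) + 1))
      = ∑ u ∈ K, (if ρ (host u) = j
            then min (iar G (cz G Z T hm (host u)) u : ℤ) (b * ((g u : ℤ) + 1))
            else b * ((g u : ℤ) + 1)) := by
    refine sum_congr rfl fun u hu => ?_
    rw [hYc']
    by_cases h9 : ρ (host u) = j
    · rw [if_pos h9, if_pos ((hho u hu).2 h9)]
      obtain ⟨x, hx, hux, hxx⟩ := hmK u hu
      have h10 : host u = σ j := by
        rw [← h9, hxx]
        exact (rk.left x hx).symm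
      rw [h10]
    · rw [if_neg h9, if_neg fun h10 => h9 ((hho u hu).1 h10)]
  rw [e2, hYc', hXc'] at h8
  rw [hYc'] at e4
  rw [e1]
  have e8 : a * b = b * a := mul_comm _ _
  rw [e8]
  clear hsv e1 e2 hho hmK
  linarith

/-- **T of the row `i` on the sub-slot** (slope one, no column), used items at any levels, any saving -/
theorem WCoreK.rowTK (h : WCoreK G Z T r m n p hm)
    {host : Itm V → V} {ρ : V → ℕ} {σ : ℕ → V}
    (hpk : ∀ x ∈ T, Pk G (cz G Z T hm x) (hz G Z T hm x) (tlo G T hm) (B x) (Ps x))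
    (hst : ∀ x ∈ T, ∀ u ∈ pkf (B x) (Ps x), host u = x)
    (rk : Rank T (tI G Z T hm r Z) ρ σ) {i : ℕ} (hi : i < n)
    (hB1 : B1 ⊆ B (σ i)) (hP1 : P1 ⊆ Ps (σ i)) {K : Finset (Itm V)}
    (hK : K ⊆ T.biUnion fun x => pkf (B x) (Ps x)) (hKh : ∀ u ∈ K, ρ (host u) ≠ i)
    {g : Itm V → ℕ} (hg1 : ∀ u ∈ K, 1 ≤ g u) (hg2 : ∀ u ∈ K, g u ≤ ikp (tlo G T hm) (σ i) u)
    {En : ℤ} (EN : 2 * eI G hm (Z \ keepX G Z T hm (σ i) B1 P1 ∅) (σ i) ≤ En) {sv : ℤ}
    (hsv : (NE G (K.biUnion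
          (rpts (tlo G T hm) (xlv G (cz G Z T hm) (tlo G T hm) (σ i) g) (σ i))) : ℤ) + sv
      + (K.biUnion (rpts (tlo G T hm) (xlv G (cz G Z T hm) (tlo G T hm) (σ i) g) (σ i))).card
      ≤ ((K.biUnion (rpts (tlo G T hm) (xlv G (cz G Z T hm) (tlo G T hm) (σ i) g) (σ i))).card : ℤ)
        * (K.biUnion
          (rpts (tlo G T hm) (xlv G (cz G Z T hm) (tlo G T hm) (σ i) g) (σ i))).card) :
    2 * ((r : ℤ) - 1) * (sI hm r Z (σ i) - (hI G Z T hm Z (σ i) - (keepH B1 P1).card))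
      + 2 * ∑ u ∈ K, ((g u : ℤ) * ((r : ℤ) - 1 - tI G Z T hm r Z (σ i))
        - (ilm G (cz G Z T hm) (tlo G T hm) (σ i) g u : ℤ)) + sv
      ≤ En
        + 2 * (∑ u ∈ K, ((g u : ℤ) + 1))
          * (sI hm r Z (σ i) - (hI G Z T hm Z (σ i) - (keepH B1 P1).card) + 1)
        + (∑ u ∈ K, ((g u : ℤ) + 1)) * (∑ u ∈ K, ((g u : ℤ) + 1) - 1) := by
  have h5 := h.toWBase.five
  obtain ⟨j, hj, hij⟩ : ∃ j < n, i ≠ j := by
    by_cases h0 : i = 0
    · exact ⟨1, by omega, by omega⟩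
    · exact ⟨0, by omega, h0⟩
  have h1 := h.rowAK hpk hst rk hi hj hij hB1 hP1 hK hKh hg1 hg2 (le_refl 0) (le_refl 0)
    ⟨∅, ∅, empty_subset _, fun _ _ => notMem_empty _, empty_subset _, disjoint_empty_left _,
      fun a ha => absurd ha (notMem_empty _), by simp, by simp⟩ EN hsv
  have e1 : ∑ u ∈ pkf B1 P1, ((0 : ℤ) * ikp (tlo G T hm) (σ j) u
          - min 0 (ims G (cz G Z T hm) (tlo G T hm) (σ j) u : ℤ)) = 0 := by
    refine sum_eq_zero fun u _ => ?_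
    rw [min_eq_left (Nat.cast_nonneg _)]
    ring
  have e2 : ∑ u ∈ K, (if ρ (host u) = j
            then min (iar G (cz G Z T hm (host u)) u : ℤ) (0 * ((g u : ℤ) + 1))
            else 0 * ((g u : ℤ) + 1)) = 0 := by
    refine sum_eq_zero fun u _ => ?_
    rw [zero_mul, min_eq_right (Nat.cast_nonneg _), ite_self]
  rw [e1, e2, add_zero] at h1
  linarith

/-- **T with the items `D` of the host `i` dropped**: any packings with the least number of parts, any energy -/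
theorem WCoreK.rowtD1 (h : WCoreK G Z T r m n p hm)
    {host : Itm V → V} {ρ : V → ℕ} {σ : ℕ → V}
    (hpk : ∀ x ∈ T, Pk G (cz G Z T hm x) (hz G Z T hm x) (tlo G T hm) (B x) (Ps x))
    (min : ∀ x ∈ T, ∀ B' Ps', Pk G (cz G Z T hm x) (hz G Z T hm x) (tlo G T hm) B' Ps' →
      (Ps x).card ≤ Ps'.card)
    (hst : ∀ x ∈ T, ∀ u ∈ pkf (B x) (Ps x), host u = x)
    (rk : Rank T (tI G Z T hm r Z) ρ σ) {i : ℕ} (hi : i < n)
    {D : Finset (Itm V)} (hD : D ⊆ pkf (B (σ i)) (Ps (σ i))) {En : ℤ}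
    (EN : 2 * eI G hm (Z \ D.biUnion imem) (σ i) ≤ En) :
    RowTD1 ((r : ℤ) - 1) n (fun i => tI G Z T hm r Z (σ i)) (fun i => sI hm r Z (σ i))
      (T.biUnion fun x => pkf (B x) (Ps x)) (fun u => ρ (host u)) (fun u => (ivl u : ℤ))
      (fun i u => (ikp (tlo G T hm) (σ i) u : ℤ))
      (fun i u => (imn G (cz G Z T hm) (tlo G T hm) (σ i) u : ℤ))
      (fun u => (ipc u : ℤ)) i D En := by
  intro K hK hKh g hg1 hg2 sv hS
  have hcard := h.toWHom.cardT
  have hmem : ∀ i < n, σ i ∈ T := fun i hi => rk.mem i (by rw [hcard]; exact hi)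
  have hg2' : ∀ u ∈ K, g u ≤ ikp (tlo G T hm) (σ i) u := fun u hu => by
    have h5 : (g u : ℤ) ≤ (ikp (tlo G T hm) (σ i) u : ℤ) := hg2 u hu
    exact_mod_cast h5
  have hsv := h.savJJ hpk min hst rk hi (J := ∅) (fun j hj => absurd hj (notMem_empty _)) hK hKh
    hg1 hg2' hS
  rw [image_empty, biUnion_empty, sdiff_empty] at hsv
  have hX := keepX_kp (hpk _ (hmem i hi)) hD ∅
  have h1 := h.rowTK hpk hst rk hi (kpB_sub (B := B (σ i)) (D := D))
    (kpP_sub (Ps := Ps (σ i)) (D := D)) hK hKh hg1 hg2' (En := En)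
    (by
      rw [hX, union_empty]
      exact EN) hsv
  have h2 := (hpk _ (hmem i hi)).card_kp hD
  have h3 : ((keepH (kpB (B (σ i)) D) (kpP (Ps (σ i)) D)).card : ℤ)
      = hI G Z T hm Z (σ i) - ∑ u ∈ D, ((ivl u : ℤ) + 1 - (ipc u : ℤ)) := h2
  have h6 : sI hm r Z (σ i) - (hI G Z T hm Z (σ i)
      - (hI G Z T hm Z (σ i) - ∑ u ∈ D, ((ivl u : ℤ) + 1 - (ipc u : ℤ))))
      = sI hm r Z (σ i) - ∑ u ∈ D, ((ivl u : ℤ) + 1 - (ipc u : ℤ)) := by ring
  rw [h3, h6] at h1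
  simp only [ilm_cast] at h1
  exact h1

end Sub

end Pool.Agent.Lib.MP_f04ccf_co
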