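import Pool.Agent.Lib.MP_f04ccf_co.M.PCon
import Pool.Agent.Lib.MP_f04ccf_co.M.SubT
import Pool.Agent.Lib.MP_f04ccf_co.M.RowGDT

/-!
MP_f04ccf_co, TEXT D (assembly): from the tests over the row indices (with dropped items) to the p-form of
the contract `PCon`.

* `pForm2`: the algebra, `E2` twice the energy;
* `SavJ.of_svP`: 23's saving `svP`;
* `RowTD1.tst`, `RowGD1.tst`: helper9's and helper94's tests as `TstP`.
-/

set_option autoImplicit false

namespace Pool.Agent.Lib.MP_f04ccf_co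

open Finset

attribute [local instance] Classical.propDecidable

section PWR

variable {ι : Type*}

/-- the raw test in p-form -/
theorem pForm2 {R c s m h t E2 k w B SA sv N co q : ℤ}
    (hT : 2 * (R * (s - q)) + 2 * (k * (R - t) - B) + 2 * SA + sv
      ≤ E2 + 2 * ((w + c) * (s - q + 1)) + w * (w - 1) + co)
    (he : E2 + m * (m + 1) ≤ 2 * (m * (h - q)) + N) (hh : h = t + s + 1) :
    TstP R c (t + 1) s k w B m q SA sv N co := by
  unfold TstP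
  rw [hh] at he
  nlinarith

/-- 23's saving is a saving of `SavJ` -/
lemma SavJ.of_svP {n : ℕ} {ho : ι → ℕ} {vl : ι → ℤ} {kp : ℕ → ι → ℤ} {pc : ι → ℤ} {i : ℕ} {g : ι → ℕ}
    {J : Finset ℕ} {K : Finset ι} (hJ : ∀ u ∈ K, ho u ∈ J → pc u = 0) :
    SavJ n ho vl kp pc i g J K (svP n ho vl K g) := by
  refine Or.inl (le_of_eq ?_)
  unfold svP
  refine sum_congr rfl fun x _ => ?_
  have h1 : (K.filter fun u => ho u = x ∧ (g u : ℤ) = vl u)
      = K.filter fun u => ho u = x ∧ (g u : ℤ) = vl u ∧ (x ∈ J → pc u = 0) := by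
    refine filter_congr fun u hu => ?_
    constructor
    · rintro ⟨h2, h3⟩
      exact ⟨h2, h3, fun h4 => hJ u hu (by rw [h2]; exact h4)⟩
    · rintro ⟨h2, h3, -⟩
      exact ⟨h2, h3⟩
  rw [h1]

/-- the misses of the fields -/
lemma sum_msP {kp mn : ℕ → ι → ℤ} {z : ℕ} {g : ι → ℕ} {K : Finset ι} {c : ℤ} :
    ∑ u ∈ K, (g u * c - if kp z u ≤ (g u : ℤ) then mn z u else 0)
      = (∑ u ∈ K, (g u : ℤ)) * c - ∑ u ∈ K, msP kp mn z g u := by
  rw [sum_sub_distrib, sum_mul]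
  rfl

variable {R : ℤ} {n : ℕ} {t s h : ℕ → ℤ} {U : Finset ι} {ho : ι → ℕ} {vl : ι → ℤ}
  {kp ms mn : ℕ → ι → ℤ} {be : ℕ → ℕ → ℤ} {pc ar : ι → ℤ}

/-- **helper9's T with dropped items in p-form** -/
theorem RowTD1.tst {z : ℕ} {D : Finset ι} {En : ℤ}
    (hT : RowTD1 R n t s U ho vl kp mn pc z D En) {m q N : ℤ} (hh : h z = t z + s z + 1)
    (hq : ∑ u ∈ D, (vl u + 1 - pc u) = q) (hE : En + m * (m + 1) ≤ 2 * (m * (h z - q)) + N)
    {K : Finset ι} (hK : K ⊆ U) (hKz : ∀ u ∈ K, ho u ≠ z) {g : ι → ℕ} (hg1 : ∀ u ∈ K, 1 ≤ g u)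
    (hg2 : ∀ u ∈ K, (g u : ℤ) ≤ kp z u) :
    TstP R 0 (t z + 1) (s z) (∑ u ∈ K, (g u : ℤ)) (∑ u ∈ K, ((g u : ℤ) + 1))
      (∑ u ∈ K, msP kp mn z g u) m q 0 (svP n ho vl K g) N 0 := by
  have h1 := hT K hK hKz g hg1 hg2 (svP n ho vl K g)
    (SavJ.of_svP fun u _ h2 => absurd h2 (notMem_empty _))
  rw [hq, sum_msP] at h1
  refine pForm2 (E2 := En) ?_ hE hh
  linarith

/-- **helper94's joint test with the columns of `j` and dropped items in p-form** -/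
theorem RowGD1.tst {z j : ℕ} {D : Finset ι} {En : ℤ}
    (hT : RowGD1 R n t s U ho vl kp ms mn be pc ar z j D En) {m q N : ℤ}
    (hh : h z = t z + s z + 1) (hq : ∑ u ∈ D, (vl u + 1 - pc u) = q)
    (hE : En + m * (m + 1) ≤ 2 * (m * (h z - q)) + N)
    (hDj : ∑ u ∈ D, pc u * kp j u = 0)
    {D' : Finset ι}
    (hSA : ∑ u ∈ U.filter (fun u => ho u = z ∧ u ∉ D'), (kp j u * (R - t j) - mn j u)
      ≤ ∑ u ∈ U.filter (fun u => ho u = z ∧ u ∉ D), (kp j u * (R - t j) - ms j u))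
    {K : Finset ι} (hK : K ⊆ U) (hKz : ∀ u ∈ K, ho u ≠ z) {g : ι → ℕ} (hg1 : ∀ u ∈ K, 1 ≤ g u)
    (hg2 : ∀ u ∈ K, (g u : ℤ) ≤ kp z u) :
    TstP R (R - t j) (t z + 1) (s z) (∑ u ∈ K, (g u : ℤ))
      (∑ u ∈ K, ((g u : ℤ) + 1 - if ho u = j then pc u else 0))
      (∑ u ∈ K, msP kp mn z g u) m q
      (∑ u ∈ U.filter (fun u => ho u = z ∧ u ∉ D'), (kp j u * (R - t j) - mn j u))
      (svP n ho vl (K.filter fun u => ho u = j → pc u = 0) g
        + 2 * ((∑ u ∈ K, if ho u = j then pc u else 0)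
          * ((K.filter fun u => ho u = j ∧ pc u = 0 ∧ ∀ l < n, l ≠ z → kp l u = 0).card : ℤ)))
      N
      ((be z j + ∑ u ∈ K, if ho u = j then pc u else 0)
          * (be z j + (∑ u ∈ K, if ho u = j then pc u else 0) + 1)
        + 2 * ∑ u ∈ K, if ho u = j then (1 - pc u) * ar u else ((g u : ℤ) + 1) * (R - t j)) := by
  have h1 := hT K hK hKz g hg1 hg2 (svP n ho vl (K.filter fun u => ho u = j → pc u = 0) g)
    (SavJ.of_svP fun u hu h2 => (mem_filter.1 hu).2 (mem_singleton.1 h2))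
  rw [hq, sum_msP, hDj] at h1
  refine pForm2 (E2 := En) ?_ hE hh
  linarith

end PWR

end Pool.Agent.Lib.MP_f04ccf_co
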