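import Pool.Agent.Lib.MP_f04ccf_co.M.EnXI
import Pool.Agent.Lib.MP_f04ccf_co.M.PConR

/-!
MP_f04ccf_co, TEXT D: **the fields `tT` and `tP` of the contract `PCon`** (tests of a row with dropped items of the
host: plain items `D`, the free (Konig) PC pairs of the tails `X`, the block pairs of the tails `Y ⊆ X`).

* `RowTX`, `RowPX`: the statements, any saving `SavJ`, with 35's hosted Mantel gain; `RowTX.tT`, `RowPX.tP`: the
  fields of `PCon`;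
* `RowXY`: these with the facts on the letters `kq`, `sg`; `WItC.rowXY`: the transport, version [C].
-/

set_option autoImplicit false

namespace Pool.Agent.Lib.MP_f04ccf_co

open Finset

attribute [local instance] Classical.propDecidable

section Defs

variable {ι : Type*}

/-- the excess of the kept PC pairs of the tails outside `J` and the payments of the dropped block pairs, minus the
gain of the kept full items -/
noncomputable def NXY (n : ℕ) (U : Finset ι) (ho : ι → ℕ) (kp : ℕ → ι → ℤ) (pc : ι → ℤ)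
    (be kq NN sg : ℕ → ℕ → ℤ) (z : ℕ) (S X Y : Finset ℕ) (D : Finset ι) : ℤ :=
  ∑ l ∈ X \ Y, (be z l - kq z l) * (be z l - kq z l + 1) + ∑ l ∈ S \ X, NN z l
    + 2 * ∑ l ∈ Y, (be z l - kq z l) * (sg z l + endK U ho kp pc z D l)
    - ∑ l ∈ range n, fllK n U ho kp pc z D l * (fllK n U ho kp pc z D l - 1)

/-- **the exact row test with dropped items** (field `tT` of `PCon`), any saving -/
def RowTX (R : ℤ) (n : ℕ) (t s mu : ℕ → ℤ) (U : Finset ι) (ho : ι → ℕ) (vl : ι → ℤ)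
    (kp mn : ℕ → ι → ℤ) (pc : ι → ℤ) (be kq NN sg : ℕ → ℕ → ℤ) : Prop :=
  ∀ z < n, ∀ X ⊆ range n, ∀ Y ⊆ X, ∀ D ⊆ U, (∀ u ∈ D, ho u = z ∧ pc u = 0) →
    ∀ K ⊆ U, (∀ u ∈ K, ho u ≠ z) → ∀ g : ι → ℕ, (∀ u ∈ K, 1 ≤ g u) →
    (∀ u ∈ K, (g u : ℤ) ≤ kp z u) → ∀ sv : ℤ, SavJ n ho vl kp pc z g ∅ K sv →
    TstP R 0 (t z + 1) (s z) (∑ u ∈ K, (g u : ℤ)) (∑ u ∈ K, ((g u : ℤ) + 1))
      (∑ u ∈ K, msP kp mn z g u)
      (mu z - ∑ l ∈ X, kq z l - ∑ l ∈ Y, (be z l - kq z l) - ∑ u ∈ D, vl u)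
      (∑ l ∈ X, kq z l + ∑ l ∈ Y, (be z l - kq z l) + ∑ u ∈ D, (vl u + 1))
      0 sv (NXY n U ho kp pc be kq NN sg z ((range n).erase z) X Y D) 0

/-- **the row test with the columns of `j` and dropped items** (field `tP` of `PCon`), any saving -/
def RowPX (R : ℤ) (n : ℕ) (t s mu : ℕ → ℤ) (U : Finset ι) (ho : ι → ℕ) (vl : ι → ℤ)
    (kp mn : ℕ → ι → ℤ) (pc ar : ι → ℤ) (be kq NN sg : ℕ → ℕ → ℤ) : Prop :=
  ∀ z < n, ∀ j < n, j ≠ z → ∀ X ⊆ range n, j ∉ X → ∀ Y ⊆ X, ∀ D ⊆ U,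
    (∀ u ∈ D, ho u = z ∧ pc u = 0) →
    ∀ K ⊆ U, (∀ u ∈ K, ho u ≠ z) → ∀ g : ι → ℕ, (∀ u ∈ K, 1 ≤ g u) →
    (∀ u ∈ K, (g u : ℤ) ≤ kp z u) → ∀ sv : ℤ,
    SavJ n ho vl kp pc z g {j} (K.filter fun u => ho u = j → pc u = 0) sv →
    TstP R (R - t j) (t z + 1) (s z) (∑ u ∈ K, (g u : ℤ))
      (∑ u ∈ K, ((g u : ℤ) + 1 - if ho u = j then pc u else 0))
      (∑ u ∈ K, msP kp mn z g u)
      (mu z - ∑ l ∈ X, kq z l - ∑ l ∈ Y, (be z l - kq z l) - ∑ u ∈ D, vl u)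
      (∑ l ∈ X, kq z l + ∑ l ∈ Y, (be z l - kq z l) + ∑ u ∈ D, (vl u + 1))
      (∑ u ∈ U.filter (fun u => ho u = z ∧ u ∉ D), (kp j u * (R - t j) - mn j u))
      (sv + 2 * ((∑ u ∈ K, if ho u = j then pc u else 0)
          * ((K.filter fun u => ho u = j ∧ pc u = 0 ∧ ∀ l < n, l ≠ z → kp l u = 0).card : ℤ)))
      (NXY n U ho kp pc be kq NN sg z (((range n).erase z).erase j) X Y D)
      ((be z j + ∑ u ∈ K, if ho u = j then pc u else 0)
          * (be z j + (∑ u ∈ K, if ho u = j then pc u else 0) + 1)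
        + 2 * ∑ u ∈ K, if ho u = j then (1 - pc u) * ar u else ((g u : ℤ) + 1) * (R - t j))

/-- **the two tests and the letters `kq`, `sg`** -/
structure RowXY (R : ℤ) (n : ℕ) (t s mu : ℕ → ℤ) (U : Finset ι) (ho : ι → ℕ) (vl : ι → ℤ)
    (kp mn : ℕ → ι → ℤ) (pc ar : ι → ℤ) (be kq NN sg : ℕ → ℕ → ℤ) : Prop where
  kq0 : ∀ i < n, ∀ j < n, 0 ≤ kq i j
  kqb : ∀ i < n, ∀ j < n, kq i j ≤ be i j
  sg0 : ∀ i < n, ∀ j < n, 0 ≤ sg i j
  sgs : ∀ i < n, ∑ l ∈ (range n).erase i, sg i l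
    + ((U.filter fun u => ho u = i ∧ pc u = 0).card : ℤ) ≤ t i + 1 - (mu i - s i)
  tx : RowTX R n t s mu U ho vl kp mn pc be kq NN sg
  px : RowPX R n t s mu U ho vl kp mn pc ar be kq NN sg

variable {R : ℤ} {n : ℕ} {t s mu : ℕ → ℤ} {U : Finset ι} {ho : ι → ℕ} {vl : ι → ℤ}
  {kp ms mn : ℕ → ι → ℤ} {pc ar : ι → ℤ} {be kq NN sg : ℕ → ℕ → ℤ}

lemma TstP.monoN {c A s k w B m q SA sv N N' co : ℤ} (h : TstP R c A s k w B m q SA sv N co)
    (hN : N ≤ N') : TstP R c A s k w B m q SA sv N' co := by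
  unfold TstP at *
  linarith

lemma NXY_le (z : ℕ) (S X Y : Finset ℕ) (D : Finset ι) :
    NXY n U ho kp pc be kq NN sg z S X Y D
      ≤ ∑ l ∈ X \ Y, (be z l - kq z l) * (be z l - kq z l + 1) + ∑ l ∈ S \ X, NN z l
        + 2 * ∑ l ∈ Y, (be z l - kq z l) * (sg z l
          + ((U.filter fun u => ho u = z ∧ u ∉ D ∧ pc u = 0 ∧ kp l u ≠ 0).card : ℤ)) := by
  unfold NXY endK
  have h1 : 0 ≤ ∑ l ∈ range n, fllK n U ho kp pc z D l * (fllK n U ho kp pc z D l - 1) := by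
    refine sum_nonneg fun l _ => ?_
    unfold fllK
    generalize (U.filter fun u => ho u = z ∧ u ∉ D ∧ pc u = 0
      ∧ ∀ l' < n, l' ≠ l → kp l' u = 0).card = a
    rcases Nat.eq_zero_or_pos a with h2 | h2
    · rw [h2]
      simp
    · have h3 : (1 : ℤ) ≤ a := by exact_mod_cast h2
      exact mul_nonneg (by linarith) (by linarith)
  linarith

/-- **the field `tT` of `PCon`** -/
lemma RowTX.tT (H : RowTX R n t s mu U ho vl kp mn pc be kq NN sg) :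
    ∀ z < n, ∀ X ⊆ range n, ∀ Y ⊆ X, ∀ D ⊆ U, (∀ u ∈ D, ho u = z ∧ pc u = 0) →
    ∀ K ⊆ U, (∀ u ∈ K, ho u ≠ z) → ∀ g : ι → ℕ, (∀ u ∈ K, 1 ≤ g u) →
    (∀ u ∈ K, (g u : ℤ) ≤ kp z u) →
    TstP R 0 (t z + 1) (s z) (∑ u ∈ K, (g u : ℤ)) (∑ u ∈ K, ((g u : ℤ) + 1))
      (∑ u ∈ K, msP kp mn z g u)
      (mu z - ∑ l ∈ X, kq z l - ∑ l ∈ Y, (be z l - kq z l) - ∑ u ∈ D, vl u)
      (∑ l ∈ X, kq z l + ∑ l ∈ Y, (be z l - kq z l) + ∑ u ∈ D, (vl u + 1))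
      0 (svP n ho vl K g)
      (∑ l ∈ X \ Y, (be z l - kq z l) * (be z l - kq z l + 1)
        + ∑ l ∈ (range n).erase z \ X, NN z l
        + 2 * ∑ l ∈ Y, (be z l - kq z l) * (sg z l
          + ((U.filter fun u => ho u = z ∧ u ∉ D ∧ pc u = 0 ∧ kp l u ≠ 0).card : ℤ))) 0 :=
  fun z hz X hX Y hY D hD hD' K hK hKh g hg1 hg2 =>
  (H z hz X hX Y hY D hD hD' K hK hKh g hg1 hg2 _
    (SavJ.of_svP fun _ _ h2 => absurd h2 (notMem_empty _))).monoN (NXY_le _ _ _ _ _)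

/-- **the field `tP` of `PCon`** -/
lemma RowPX.tP (H : RowPX R n t s mu U ho vl kp mn pc ar be kq NN sg) :
    ∀ z < n, ∀ j < n, j ≠ z → ∀ X ⊆ range n, j ∉ X → ∀ Y ⊆ X, ∀ D ⊆ U,
    (∀ u ∈ D, ho u = z ∧ pc u = 0) →
    ∀ K ⊆ U, (∀ u ∈ K, ho u ≠ z) → ∀ g : ι → ℕ, (∀ u ∈ K, 1 ≤ g u) →
    (∀ u ∈ K, (g u : ℤ) ≤ kp z u) →
    TstP R (R - t j) (t z + 1) (s z) (∑ u ∈ K, (g u : ℤ))
      (∑ u ∈ K, ((g u : ℤ) + 1 - if ho u = j then pc u else 0))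
      (∑ u ∈ K, msP kp mn z g u)
      (mu z - ∑ l ∈ X, kq z l - ∑ l ∈ Y, (be z l - kq z l) - ∑ u ∈ D, vl u)
      (∑ l ∈ X, kq z l + ∑ l ∈ Y, (be z l - kq z l) + ∑ u ∈ D, (vl u + 1))
      (∑ u ∈ U.filter (fun u => ho u = z ∧ u ∉ D), (kp j u * (R - t j) - mn j u))
      (svP n ho vl (K.filter fun u => ho u = j → pc u = 0) g
        + 2 * ((∑ u ∈ K, if ho u = j then pc u else 0)
          * ((K.filter fun u => ho u = j ∧ pc u = 0 ∧ ∀ l < n, l ≠ z → kp l u = 0).card : ℤ)))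
      (∑ l ∈ X \ Y, (be z l - kq z l) * (be z l - kq z l + 1)
        + ∑ l ∈ ((range n).erase z).erase j \ X, NN z l
        + 2 * ∑ l ∈ Y, (be z l - kq z l) * (sg z l
          + ((U.filter fun u => ho u = z ∧ u ∉ D ∧ pc u = 0 ∧ kp l u ≠ 0).card : ℤ)))
      ((be z j + ∑ u ∈ K, if ho u = j then pc u else 0)
          * (be z j + (∑ u ∈ K, if ho u = j then pc u else 0) + 1)
        + 2 * ∑ u ∈ K, if ho u = j then (1 - pc u) * ar u else ((g u : ℤ) + 1) * (R - t j)) :=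
  fun z hz j hj hjz X hX hjX Y hY D hD hD' K hK hKh g hg1 hg2 =>
  (H z hz j hj hjz X hX hjX Y hY D hD hD' K hK hKh g hg1 hg2 _
    (SavJ.of_svP fun _ hu h2 => (mem_filter.1 hu).2 (mem_singleton.1 h2))).monoN
      (NXY_le _ _ _ _ _)

/-- the hits of the kept hosted items -/
lemma sum_hits_le {z j : ℕ} {c : ℤ} {D D' : Finset ι} (hDD : D' ⊆ D)
    (h0 : ∀ u ∈ D, u ∉ D' → kp j u = 0) (h1 : ∀ u, 0 ≤ mn j u) (h2 : ∀ u, ms j u ≤ mn j u) :
    ∑ u ∈ U.filter (fun u => ho u = z ∧ u ∉ D'), (kp j u * c - mn j u)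
      ≤ ∑ u ∈ U.filter (fun u => ho u = z ∧ u ∉ D), (kp j u * c - ms j u) := by
  obtain ⟨F, hF⟩ : ∃ F, F = U.filter (fun u => ho u = z ∧ u ∉ D') := ⟨_, rfl⟩
  obtain ⟨F', hF'⟩ : ∃ F', F' = U.filter (fun u => ho u = z ∧ u ∉ D) := ⟨_, rfl⟩
  have hFF : F' ⊆ F := by
    intro u hu
    rw [hF'] at hu
    rw [hF]
    obtain ⟨h3, h4, h5⟩ := mem_filter.1 hu
    exact mem_filter.2 ⟨h3, h4, fun h6 => h5 (hDD h6)⟩
  rw [← hF, ← hF', ← sum_sdiff hFF]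
  have h3 : ∑ u ∈ F \ F', (kp j u * c - mn j u) ≤ 0 := by
    refine sum_nonpos fun u hu => ?_
    obtain ⟨h3, h4⟩ := mem_sdiff.1 hu
    rw [hF] at h3
    rw [hF'] at h4
    obtain ⟨h5, h6, h7⟩ := mem_filter.1 h3
    have h8 : u ∈ D := by
      by_contra h9
      exact h4 (mem_filter.2 ⟨h5, h6, h9⟩)
    rw [h0 u h8 h7]
    have h10 := h1 u
    linarith
  have h4 : ∑ u ∈ F', (kp j u * c - mn j u) ≤ ∑ u ∈ F', (kp j u * c - ms j u) :=
    sum_le_sum fun u _ => by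
      have h5 := h2 u
      linarith
  linarith

/-- `RowTD1` in p-form, any saving -/
theorem RowTD1.tstS {z : ℕ} {D : Finset ι} {En : ℤ}
    (hT : RowTD1 R n t s U ho vl kp mn pc z D En) {m q N : ℤ}
    (hq : ∑ u ∈ D, (vl u + 1 - pc u) = q)
    (hE : En + m * (m + 1) ≤ 2 * (m * (s z + t z + 1 - q)) + N)
    {K : Finset ι} (hK : K ⊆ U) (hKz : ∀ u ∈ K, ho u ≠ z) {g : ι → ℕ} (hg1 : ∀ u ∈ K, 1 ≤ g u)
    (hg2 : ∀ u ∈ K, (g u : ℤ) ≤ kp z u) {sv : ℤ} (hS : SavJ n ho vl kp pc z g ∅ K sv) :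
    TstP R 0 (t z + 1) (s z) (∑ u ∈ K, (g u : ℤ)) (∑ u ∈ K, ((g u : ℤ) + 1))
      (∑ u ∈ K, msP kp mn z g u) m q 0 sv N 0 := by
  have h1 := hT K hK hKz g hg1 hg2 sv hS
  rw [hq, sum_msP] at h1
  refine pForm2 (E2 := En) (h := s z + t z + 1) ?_ hE (by ring)
  linarith

/-- `RowGD1` in p-form, any saving -/
theorem RowGD1.tstS {z j : ℕ} {D : Finset ι} {En : ℤ}
    (hT : RowGD1 R n t s U ho vl kp ms mn be pc ar z j D En) {m q N : ℤ}
    (hq : ∑ u ∈ D, (vl u + 1 - pc u) = q)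
    (hE : En + m * (m + 1) ≤ 2 * (m * (s z + t z + 1 - q)) + N)
    (hDj : ∑ u ∈ D, pc u * kp j u = 0)
    {D' : Finset ι}
    (hSA : ∑ u ∈ U.filter (fun u => ho u = z ∧ u ∉ D'), (kp j u * (R - t j) - mn j u)
      ≤ ∑ u ∈ U.filter (fun u => ho u = z ∧ u ∉ D), (kp j u * (R - t j) - ms j u))
    {K : Finset ι} (hK : K ⊆ U) (hKz : ∀ u ∈ K, ho u ≠ z) {g : ι → ℕ} (hg1 : ∀ u ∈ K, 1 ≤ g u)
    (hg2 : ∀ u ∈ K, (g u : ℤ) ≤ kp z u) {sv : ℤ}
    (hS : SavJ n ho vl kp pc z g {j} (K.filter fun u => ho u = j → pc u = 0) sv) :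
    TstP R (R - t j) (t z + 1) (s z) (∑ u ∈ K, (g u : ℤ))
      (∑ u ∈ K, ((g u : ℤ) + 1 - if ho u = j then pc u else 0))
      (∑ u ∈ K, msP kp mn z g u) m q
      (∑ u ∈ U.filter (fun u => ho u = z ∧ u ∉ D'), (kp j u * (R - t j) - mn j u))
      (sv + 2 * ((∑ u ∈ K, if ho u = j then pc u else 0)
          * ((K.filter fun u => ho u = j ∧ pc u = 0 ∧ ∀ l < n, l ≠ z → kp l u = 0).card : ℤ)))
      N
      ((be z j + ∑ u ∈ K, if ho u = j then pc u else 0)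
          * (be z j + (∑ u ∈ K, if ho u = j then pc u else 0) + 1)
        + 2 * ∑ u ∈ K, if ho u = j then (1 - pc u) * ar u else ((g u : ℤ) + 1) * (R - t j)) := by
  have h1 := hT K hK hKz g hg1 hg2 sv hS
  rw [hq, sum_msP, hDj] at h1
  refine pForm2 (E2 := En) (h := s z + t z + 1) ?_ hE (by ring)
  linarith

end Defs

section World

variable {V : Type*} {G : SimpleGraph V} {Z T : Finset V} {hm : V → V} {r m n p : ℕ}
  {φ : Finset (V × V) → Finset (Finset V) → ℕ} {B : V → Finset (V × V)}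
  {Ps : V → Finset (Finset V)} {host : Itm V → V} {ρ : V → ℕ} {σ : ℕ → V}

/-- the plain dropped items as items of the home -/
private lemma drop_home (h : WCoreK G Z T r m n p hm) (H : WItC G Z T hm r n φ B Ps host ρ σ)
    {z : ℕ} (hz : z < n) {D : Finset (Itm V)}
    (hD : D ⊆ T.biUnion fun x => pkf (B x) (Ps x))
    (hD' : ∀ u ∈ D, ρ (host u) = z ∧ (ipc u : ℤ) = 0) :
    D ⊆ pkf (B (σ z)) (Ps (σ z)) ∧ ∀ u ∈ D, ipc u = 0 := by
  have hcard := h.toWHom.cardT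
  have hfil : (T.biUnion fun x => pkf (B x) (Ps x)).filter (fun u => ρ (host u) = z)
      = pkf (B (σ z)) (Ps (σ z)) := fil_host H.hst H.rk (by rw [hcard]; exact hz)
  refine ⟨fun u hu => ?_, fun u hu => by exact_mod_cast (hD' u hu).2⟩
  rw [← hfil]
  exact mem_filter.2 ⟨hD hu, (hD' u hu).1⟩

/-- **the test `tT`, version [C]** -/
theorem WItC.rowTX (h : WCoreK G Z T r m n p hm) (H : WItC G Z T hm r n φ B Ps host ρ σ) :
    RowTX ((r : ℤ) - 1) n (fun i => tI G Z T hm r Z (σ i)) (fun i => sI hm r Z (σ i))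
      (fun i => ∑ u ∈ pkf (B (σ i)) (Ps (σ i)), (ivl u : ℤ))
      (T.biUnion fun x => pkf (B x) (Ps x)) (fun u => ρ (host u)) (fun u => (ivl u : ℤ))
      (fun i u => (ikp (tlo G T hm) (σ i) u : ℤ))
      (fun i u => (imn G (cz G Z T hm) (tlo G T hm) (σ i) u : ℤ)) (fun u => (ipc u : ℤ))
      (fun i j => pcn (tlo G T hm) B (σ i) (σ j)) (fun i j => kqw G Z T hm B (σ i) (σ j))
      (fun i j => nxw G Z T hm B (σ i) (σ j)) (fun i j => ssw G T hm Ps (σ i) (σ j)) := by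
  intro z hz X hX Y hY D hD hD' K hK hKh g hg1 hg2 sv hS
  beta_reduce at hD' hKh
  have hcard := h.toWHom.cardT
  have hmem : ∀ i < n, σ i ∈ T := fun i hi => H.rk.mem i (by rw [hcard]; exact hi)
  obtain ⟨hDh, hpc⟩ := drop_home h H hz hD hD'
  obtain ⟨Dd, hDd⟩ : ∃ Dd, Dd = dpcI G (cz G Z T hm (σ z)) (tlo G T hm) (B (σ z))
    ((X \ Y).image σ) (Y.image σ) ∪ D := ⟨_, rfl⟩
  have e0 := sum_sdiff hY (f := fun l => kqw G Z T hm B (σ z) (σ l))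
  beta_reduce at e0
  obtain ⟨e1, e2, e3⟩ := WItC.enXY h H hz (σ z) (X := X \ Y) (Y := Y)
    (L := (range n).erase z \ X) (sdiff_subset.trans hX) (hY.trans hX) sdiff_disjoint
    (sdiff_subset.trans (erase_subset _ _))
    (fun l hl _ h2 h3 => mem_sdiff.2 ⟨hl, fun h4 => h2 (mem_sdiff.2 ⟨h4, h3⟩)⟩) hDh hpc hDd
    (M := ∑ u ∈ pkf (B (σ z)) (Ps (σ z)), (ivl u : ℤ) - ∑ l ∈ X, kqw G Z T hm B (σ z) (σ l)
      - ∑ l ∈ Y, (pcn (tlo G T hm) B (σ z) (σ l) - kqw G Z T hm B (σ z) (σ l))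
      - ∑ u ∈ D, (ivl u : ℤ))
    (q := ∑ l ∈ X, kqw G Z T hm B (σ z) (σ l)
      + ∑ l ∈ Y, (pcn (tlo G T hm) B (σ z) (σ l) - kqw G Z T hm B (σ z) (σ l))
      + ∑ u ∈ D, ((ivl u : ℤ) + 1))
    (by
      rw [sum_sub_distrib]
      linarith)
    (by
      rw [sum_sub_distrib]
      linarith)
  have h1 := h.rowtD1 (fun x hx => (H.pk x hx).toPk) (fun x hx => (H.pk x hx).min) H.hst H.rk hz
    e1 (le_refl _)
  refine h1.tstS e2 ?_ hK hKh hg1 hg2 hS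
  have h2 : pcs (tlo G T hm) (kpB (B (σ z)) Dd) (σ z) = ∅ := by
    rw [eq_empty_iff_forall_notMem]
    intro e he
    obtain ⟨h3, h4⟩ := mem_pcs.1 he
    have h5 := h.toWHom.ht _ (hmem z hz) e.1 ((H.pk _ (hmem z hz)).bH e (kpB_sub h3))
    exact (mem_erase.1 h5).1 h4
  have h3 : (0 : ℤ) ≤ (E G ((pcs (tlo G T hm) (kpB (B (σ z)) Dd) (σ z)).image Prod.fst) : ℤ) :=
    Int.natCast_nonneg _
  rw [h2, sum_empty, mul_zero, add_zero] at e3
  rw [h2] at h3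
  unfold NXY
  beta_reduce
  linarith

/-- **the test `tP`, version [C]** -/
theorem WItC.rowPX (hp : 2 * r ≤ p) (h : WCoreK G Z T r m n p hm)
    (H : WItC G Z T hm r n φ B Ps host ρ σ) :
    RowPX ((r : ℤ) - 1) n (fun i => tI G Z T hm r Z (σ i)) (fun i => sI hm r Z (σ i))
      (fun i => ∑ u ∈ pkf (B (σ i)) (Ps (σ i)), (ivl u : ℤ))
      (T.biUnion fun x => pkf (B x) (Ps x)) (fun u => ρ (host u)) (fun u => (ivl u : ℤ))
      (fun i u => (ikp (tlo G T hm) (σ i) u : ℤ))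
      (fun i u => (imn G (cz G Z T hm) (tlo G T hm) (σ i) u : ℤ)) (fun u => (ipc u : ℤ))
      (fun u => (iar G (cz G Z T hm (host u)) u : ℤ))
      (fun i j => pcn (tlo G T hm) B (σ i) (σ j)) (fun i j => kqw G Z T hm B (σ i) (σ j))
      (fun i j => nxw G Z T hm B (σ i) (σ j)) (fun i j => ssw G T hm Ps (σ i) (σ j)) := by
  intro z hz j hj hjz X hX hjX Y hY D hD hD' K hK hKh g hg1 hg2 sv hS
  beta_reduce at hD' hKh
  have hcard := h.toWHom.cardT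
  have hmem : ∀ i < n, σ i ∈ T := fun i hi => H.rk.mem i (by rw [hcard]; exact hi)
  have hinj : ∀ a < n, ∀ b < n, σ a = σ b → a = b := fun a ha b hb hab =>
    H.rk.sinj (by rw [hcard]; exact ha) (by rw [hcard]; exact hb) hab
  obtain ⟨hDh, hpc⟩ := drop_home h H hz hD hD'
  obtain ⟨Dd, hDd⟩ : ∃ Dd, Dd = dpcI G (cz G Z T hm (σ z)) (tlo G T hm) (B (σ z))
    ((X \ Y).image σ) (Y.image σ) ∪ D := ⟨_, rfl⟩
  have e0 := sum_sdiff hY (f := fun l => kqw G Z T hm B (σ z) (σ l))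
  beta_reduce at e0
  obtain ⟨e1, e2, e3⟩ := WItC.enXY h H hz (σ j) (X := X \ Y) (Y := Y)
    (L := ((range n).erase z).erase j \ X) (sdiff_subset.trans hX) (hY.trans hX) sdiff_disjoint
    (sdiff_subset.trans ((erase_subset _ _).trans (erase_subset _ _)))
    (fun l hl h1 h2 h3 => mem_sdiff.2 ⟨mem_erase.2 ⟨fun h4 => h1 (by rw [h4]), hl⟩,
      fun h4 => h2 (mem_sdiff.2 ⟨h4, h3⟩)⟩) hDh hpc hDd
    (M := ∑ u ∈ pkf (B (σ z)) (Ps (σ z)), (ivl u : ℤ) - ∑ l ∈ X, kqw G Z T hm B (σ z) (σ l)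
      - ∑ l ∈ Y, (pcn (tlo G T hm) B (σ z) (σ l) - kqw G Z T hm B (σ z) (σ l))
      - ∑ u ∈ D, (ivl u : ℤ))
    (q := ∑ l ∈ X, kqw G Z T hm B (σ z) (σ l)
      + ∑ l ∈ Y, (pcn (tlo G T hm) B (σ z) (σ l) - kqw G Z T hm B (σ z) (σ l))
      + ∑ u ∈ D, ((ivl u : ℤ) + 1))
    (by
      rw [sum_sub_distrib]
      linarith)
    (by
      rw [sum_sub_distrib]
      linarith)
  -- the dropped PC pairs have other tails
  have hkp : ∀ u ∈ dpcI G (cz G Z T hm (σ z)) (tlo G T hm) (B (σ z)) ((X \ Y).image σ)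
      (Y.image σ), ikp (tlo G T hm) (σ j) u = 0 := by
    intro u hu
    rcases u with P | e
    · have h1 := (dpc_ipc hu).1
      simp [ipc] at h1
    · have h1 := (inr_mem_dpc.1 hu).2
      have h2 : ∃ l ∈ X, tlo G T hm e.1 = σ l := by
        rcases h1 with ⟨h1, -⟩ | h1
        · obtain ⟨l, hl, h2⟩ := mem_image.1 h1
          exact ⟨l, (mem_sdiff.1 hl).1, h2.symm⟩
        · obtain ⟨l, hl, h2⟩ := mem_image.1 h1
          exact ⟨l, hY hl, h2.symm⟩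
      obtain ⟨l, hl, h2⟩ := h2
      simp only [ikp]
      rw [if_neg]
      intro h3
      exact hjX (hinj l (mem_range.1 (hX hl)) j hj (h2.symm.trans h3) ▸ hl)
  have h1 := h.rowgD1 hp (fun x hx => (H.pk x hx).toPk) (fun x hx => (H.pk x hx).min) H.hst H.rk
    hz hj (fun h2 => hjz h2.symm) e1
    (En := 2 * eI G hm (Z \ Dd.biUnion imem) (σ z)
      + E G ((pcs (tlo G T hm) (kpB (B (σ z)) Dd) (σ j)).image Prod.fst)
      - 2 * ∑ e ∈ pcs (tlo G T hm) (kpB (B (σ z)) Dd) (σ j), (nd G (cz G Z T hm (σ z)) e.1 : ℤ))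
    (by linarith)
  refine h1.tstS e2 ?_ ?_ ?_ hK hKh hg1 hg2 hS
  · unfold NXY
    beta_reduce
    linarith
  · rw [hDd]
    refine sum_eq_zero fun u hu => ?_
    beta_reduce
    rcases mem_union.1 hu with h2 | h2
    · rw [hkp u h2]
      simp
    · rw [hpc u h2]
      simp
  · refine sum_hits_le (kp := fun i u => (ikp (tlo G T hm) (σ i) u : ℤ))
      (mn := fun i u => (imn G (cz G Z T hm) (tlo G T hm) (σ i) u : ℤ))
      (ms := fun i u => (ims G (cz G Z T hm) (tlo G T hm) (σ i) u : ℤ))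
      (ho := fun u => ρ (host u)) (j := j) (fun u hu => hDd ▸ mem_union_right _ hu)
      (fun u hu hu' => ?_) (fun u => Int.natCast_nonneg _) fun u => ?_
    · rw [hDd] at hu
      rcases mem_union.1 hu with h2 | h2
      · have h3 := hkp u h2
        show (ikp (tlo G T hm) (σ j) u : ℤ) = 0
        rw [h3]
        rfl
      · exact absurd h2 hu'
    · show (ims G (cz G Z T hm) (tlo G T hm) (σ j) u : ℤ)
          ≤ (imn G (cz G Z T hm) (tlo G T hm) (σ j) u : ℤ)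
      exact_mod_cast ims_le_imn (G := G) (C := cz G Z T hm) (tl := tlo G T hm) (z := σ j)
        (u := u)

/-- **the transport**, version [C] -/
theorem WItC.rowXY (hp : 2 * r ≤ p) (h : WCoreK G Z T r m n p hm)
    (H : WItC G Z T hm r n φ B Ps host ρ σ) :
    RowXY ((r : ℤ) - 1) n (fun i => tI G Z T hm r Z (σ i)) (fun i => sI hm r Z (σ i))
      (fun i => ∑ u ∈ pkf (B (σ i)) (Ps (σ i)), (ivl u : ℤ))
      (T.biUnion fun x => pkf (B x) (Ps x)) (fun u => ρ (host u)) (fun u => (ivl u : ℤ))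
      (fun i u => (ikp (tlo G T hm) (σ i) u : ℤ))
      (fun i u => (imn G (cz G Z T hm) (tlo G T hm) (σ i) u : ℤ)) (fun u => (ipc u : ℤ))
      (fun u => (iar G (cz G Z T hm (host u)) u : ℤ))
      (fun i j => pcn (tlo G T hm) B (σ i) (σ j)) (fun i j => kqw G Z T hm B (σ i) (σ j))
      (fun i j => nxw G Z T hm B (σ i) (σ j)) (fun i j => ssw G T hm Ps (σ i) (σ j)) := by
  refine ⟨fun i _ j _ => kqw_nonneg _ _, fun i _ j _ => kqw_le _ _, fun i _ j _ => ssw_nonneg _ _,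
    fun i hi => ?_, H.rowTX h, H.rowPX hp h⟩
  have h1 := H.ssw_sum h hi
  have h2 : ∑ l ∈ (range n).erase i, ssw G T hm Ps (σ i) (σ l)
      ≤ ∑ l ∈ range n, ssw G T hm Ps (σ i) (σ l) :=
    sum_le_sum_of_subset_of_nonneg (erase_subset _ _) fun _ _ _ => ssw_nonneg _ _
  beta_reduce
  linarith

end World

end Pool.Agent.Lib.MP_f04ccf_co
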