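import Pool.Agent.Lib.MP_f04ccf_co.M.Conc
import Pool.Agent.Lib.MP_f04ccf_co.M.RowXY

/-!
MP_f04ccf_co, TEXT D, concentrated packings (M/Conc.lean), **the used side**: among the points used in a row test
two plain items of one host which are used with their whole value have `min |P| |Q|` edges, not only one.

* `minT`: the second edges; `SavW`: `SavJ`, or 23's saving and `minT`; `SavW.of_svP`;
* `WCoreK.savJW`, `WCoreK.savGLW`: the saving (`savJJ`, `savGL` for `SavW`);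
* `RowTD1W`, `RowGD1W`, `WCoreK.rowtD1W`, `WCoreK.rowgD1W`, `RowTD1W.tstS`, `RowGD1W.tstS`.
-/

set_option autoImplicit false

namespace Pool.Agent.Lib.MP_f04ccf_co

open Finset

attribute [local instance] Classical.propDecidable

section Defs

variable {ι : Type*}

/-- **the second edges**: ordered pairs of plain items of one host which are used with their whole value -/
noncomputable def minT (ho : ι → ℕ) (vl : ι → ℤ) (pc : ι → ℤ) (g : ι → ℕ) (K : Finset ι) : ℤ :=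
  ∑ e ∈ (K ×ˢ K).filter (fun e => e.1 ≠ e.2 ∧ ho e.1 = ho e.2 ∧ (g e.1 : ℤ) = vl e.1
    ∧ (g e.2 : ℤ) = vl e.2 ∧ pc e.1 = 0 ∧ pc e.2 = 0), min (vl e.1) (vl e.2)

/-- **a saving of a concentrated packing** -/
def SavW (n : ℕ) (ho : ι → ℕ) (vl : ι → ℤ) (kp : ℕ → ι → ℤ) (pc : ι → ℤ) (i : ℕ) (g : ι → ℕ)
    (J : Finset ℕ) (K : Finset ι) (sv : ℤ) : Prop :=
  SavJ n ho vl kp pc i g J K sv
  ∨ sv ≤ ∑ x ∈ range n,
      ((K.filter fun u => ho u = x ∧ (g u : ℤ) = vl u ∧ (x ∈ J → pc u = 0)).card : ℤ)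
        * (((K.filter fun u => ho u = x ∧ (g u : ℤ) = vl u ∧ (x ∈ J → pc u = 0)).card : ℤ) - 1)
    + minT ho vl pc g K

/-- 23's saving of the plain items is at most `minT` -/
lemma svP_minT {n : ℕ} {ho : ι → ℕ} {vl : ι → ℤ} {pc : ι → ℤ} {K : Finset ι} {g : ι → ℕ}
    (hv : ∀ u ∈ K, 1 ≤ vl u) (hlt : ∀ u ∈ K, ho u < n) :
    svP n ho vl (K.filter fun u => pc u = 0) g ≤ minT ho vl pc g K := by
  obtain ⟨F, hF⟩ : ∃ F, F = K.filter fun u => (g u : ℤ) = vl u ∧ pc u = 0 := ⟨_, rfl⟩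
  have h1 := card_same F ho (range n) (fun u hu => by
    rw [hF] at hu
    exact mem_range.2 (hlt u (mem_filter.1 hu).1))
  have h2 : svP n ho vl (K.filter fun u => pc u = 0) g
      = (((F ×ˢ F).filter fun e => e.1 ≠ e.2 ∧ ho e.1 = ho e.2).card : ℤ) := by
    rw [h1]
    unfold svP
    refine sum_congr rfl fun x _ => ?_
    have h3 : ((K.filter fun u => pc u = 0).filter fun u => ho u = x ∧ (g u : ℤ) = vl u)
        = F.filter fun u => ho u = x := by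
      ext u
      simp only [hF, mem_filter]
      tauto
    rw [h3]
  rw [h2, card_eq_sum_ones, Nat.cast_sum]
  unfold minT
  refine le_trans ?_ (sum_le_sum_of_subset_of_nonneg (s := (F ×ˢ F).filter fun e => e.1 ≠ e.2
    ∧ ho e.1 = ho e.2) (f := fun e => min (vl e.1) (vl e.2)) ?_ ?_)
  · refine sum_le_sum fun e he => ?_
    obtain ⟨h3, -⟩ := mem_filter.1 he
    obtain ⟨h4, h5⟩ := mem_product.1 h3
    rw [hF] at h4 h5
    rw [Nat.cast_one]
    exact le_min (hv _ (mem_filter.1 h4).1) (hv _ (mem_filter.1 h5).1)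
  · intro e he
    simp only [hF, mem_filter, mem_product] at he ⊢
    tauto
  · intro e he _
    simp only [mem_filter, mem_product] at he
    have h3 := hv _ he.1.1
    have h4 := hv _ he.1.2
    exact le_min (by linarith) (by linarith)

/-- 23's saving, twice for the plain items -/
lemma SavW.of_svP {n : ℕ} {ho : ι → ℕ} {vl : ι → ℤ} {kp : ℕ → ι → ℤ} {pc : ι → ℤ} {i : ℕ}
    {g : ι → ℕ} {J : Finset ℕ} {K : Finset ι} (hv : ∀ u ∈ K, 1 ≤ vl u) (hlt : ∀ u ∈ K, ho u < n)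
    (hJ : ∀ u ∈ K, ho u ∈ J → pc u = 0) {sv : ℤ}
    (hsv : sv ≤ svP n ho vl K g + svP n ho vl (K.filter fun u => pc u = 0) g) :
    SavW n ho vl kp pc i g J K sv := by
  refine Or.inr (hsv.trans (add_le_add (le_of_eq ?_) (svP_minT hv hlt)))
  unfold svP
  refine sum_congr rfl fun x _ => ?_
  have h1 : (K.filter fun u => ho u = x ∧ (g u : ℤ) = vl u)
      = K.filter fun u => ho u = x ∧ (g u : ℤ) = vl u ∧ (x ∈ J → pc u = 0) := by
    refine filter_congr fun u hu => ?_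
    constructor
    · rintro ⟨h2, h3⟩
      exact ⟨h2, h3, fun h4 => hJ u hu (by rw [h2]; exact h4)⟩
    · rintro ⟨h2, h3, -⟩
      exact ⟨h2, h3⟩
  rw [h1]

/-- 23's saving and the second edges -/
lemma SavW.of_minT {n : ℕ} {ho : ι → ℕ} {vl : ι → ℤ} {kp : ℕ → ι → ℤ} {pc : ι → ℤ} {i : ℕ}
    {g : ι → ℕ} {J : Finset ℕ} {K : Finset ι}
    (hJ : ∀ u ∈ K, ho u ∈ J → pc u = 0) {sv : ℤ}
    (hsv : sv ≤ svP n ho vl K g + minT ho vl pc g K) :
    SavW n ho vl kp pc i g J K sv := by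
  refine Or.inr (hsv.trans (add_le_add (le_of_eq ?_) le_rfl))
  unfold svP
  refine sum_congr rfl fun x _ => ?_
  have h1 : (K.filter fun u => ho u = x ∧ (g u : ℤ) = vl u)
      = K.filter fun u => ho u = x ∧ (g u : ℤ) = vl u ∧ (x ∈ J → pc u = 0) := by
    refine filter_congr fun u hu => ?_
    constructor
    · rintro ⟨h2, h3⟩
      exact ⟨h2, h3, fun h4 => hJ u hu (by rw [h2]; exact h4)⟩
    · rintro ⟨h2, h3, -⟩
      exact ⟨h2, h3⟩
  rw [h1]

/-- `RowTD1` with the savings `SavW` -/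
def RowTD1W (R : ℤ) (n : ℕ) (t s : ℕ → ℤ) (U : Finset ι) (ho : ι → ℕ) (vl : ι → ℤ)
    (kp mn : ℕ → ι → ℤ) (pc : ι → ℤ) (i : ℕ) (D : Finset ι) (En : ℤ) : Prop :=
  ∀ K ⊆ U, (∀ u ∈ K, ho u ≠ i) → ∀ g : ι → ℕ,
    (∀ u ∈ K, 1 ≤ g u) → (∀ u ∈ K, (g u : ℤ) ≤ kp i u) → ∀ sv : ℤ,
    SavW n ho vl kp pc i g ∅ K sv →
    2 * R * (s i - ∑ u ∈ D, (vl u + 1 - pc u))
      + 2 * ∑ u ∈ K, (g u * (R - t i) - if kp i u ≤ (g u : ℤ) then mn i u else 0) + sv
      ≤ En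
        + 2 * (∑ u ∈ K, ((g u : ℤ) + 1)) * (s i - ∑ u ∈ D, (vl u + 1 - pc u) + 1)
        + (∑ u ∈ K, ((g u : ℤ) + 1)) * (∑ u ∈ K, ((g u : ℤ) + 1) - 1)

/-- `RowGD1` with the savings `SavW` -/
def RowGD1W (R : ℤ) (n : ℕ) (t s : ℕ → ℤ) (U : Finset ι) (ho : ι → ℕ) (vl : ι → ℤ)
    (kp ms mn : ℕ → ι → ℤ) (be : ℕ → ℕ → ℤ) (pc ar : ι → ℤ) (i j : ℕ) (D : Finset ι) (En : ℤ) :
    Prop :=
  ∀ K ⊆ U, (∀ u ∈ K, ho u ≠ i) → ∀ g : ι → ℕ,
    (∀ u ∈ K, 1 ≤ g u) → (∀ u ∈ K, (g u : ℤ) ≤ kp i u) → ∀ sv : ℤ,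
    SavW n ho vl kp pc i g {j} (K.filter fun u => ho u = j → pc u = 0) sv →
    2 * R * (s i - ∑ u ∈ D, (vl u + 1 - pc u))
      + 2 * ∑ u ∈ K, (g u * (R - t i) - if kp i u ≤ (g u : ℤ) then mn i u else 0)
      + 2 * ∑ u ∈ U.filter (fun u => ho u = i ∧ u ∉ D), (kp j u * (R - t j) - ms j u)
      + (sv + 2 * ((∑ u ∈ K, if ho u = j then pc u else 0)
        * ((K.filter fun u => ho u = j ∧ pc u = 0 ∧ ∀ l < n, l ≠ i → kp l u = 0).card : ℤ)))
      ≤ En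
        + (be i j - ∑ u ∈ D, pc u * kp j u + ∑ u ∈ K, if ho u = j then pc u else 0)
          * (be i j - ∑ u ∈ D, pc u * kp j u + (∑ u ∈ K, if ho u = j then pc u else 0) + 1)
        + 2 * (∑ u ∈ K, ((g u : ℤ) + 1 - if ho u = j then pc u else 0) + (R - t j))
          * (s i - ∑ u ∈ D, (vl u + 1 - pc u) + 1)
        + (∑ u ∈ K, ((g u : ℤ) + 1 - if ho u = j then pc u else 0))
          * (∑ u ∈ K, ((g u : ℤ) + 1 - if ho u = j then pc u else 0) - 1)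
        + 2 * ∑ u ∈ K, (if ho u = j then (1 - pc u) * ar u else ((g u : ℤ) + 1) * (R - t j))

variable {R : ℤ} {n : ℕ} {t s : ℕ → ℤ} {U : Finset ι} {ho : ι → ℕ} {vl : ι → ℤ}
  {kp ms mn : ℕ → ι → ℤ} {be : ℕ → ℕ → ℤ} {pc ar : ι → ℤ}

/-- `RowTD1W` in p-form, any saving -/
theorem RowTD1W.tstS {z : ℕ} {D : Finset ι} {En : ℤ}
    (hT : RowTD1W R n t s U ho vl kp mn pc z D En) {m q N : ℤ}
    (hq : ∑ u ∈ D, (vl u + 1 - pc u) = q)
    (hE : En + m * (m + 1) ≤ 2 * (m * (s z + t z + 1 - q)) + N)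
    {K : Finset ι} (hK : K ⊆ U) (hKz : ∀ u ∈ K, ho u ≠ z) {g : ι → ℕ} (hg1 : ∀ u ∈ K, 1 ≤ g u)
    (hg2 : ∀ u ∈ K, (g u : ℤ) ≤ kp z u) {sv : ℤ} (hS : SavW n ho vl kp pc z g ∅ K sv) :
    TstP R 0 (t z + 1) (s z) (∑ u ∈ K, (g u : ℤ)) (∑ u ∈ K, ((g u : ℤ) + 1))
      (∑ u ∈ K, msP kp mn z g u) m q 0 sv N 0 := by
  have h1 := hT K hK hKz g hg1 hg2 sv hS
  rw [hq, sum_msP] at h1
  refine pForm2 (E2 := En) (h := s z + t z + 1) ?_ hE (by ring)
  linarith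

/-- `RowGD1W` in p-form, any saving -/
theorem RowGD1W.tstS {z j : ℕ} {D : Finset ι} {En : ℤ}
    (hT : RowGD1W R n t s U ho vl kp ms mn be pc ar z j D En) {m q N : ℤ}
    (hq : ∑ u ∈ D, (vl u + 1 - pc u) = q)
    (hE : En + m * (m + 1) ≤ 2 * (m * (s z + t z + 1 - q)) + N)
    (hDj : ∑ u ∈ D, pc u * kp j u = 0)
    {D' : Finset ι}
    (hSA : ∑ u ∈ U.filter (fun u => ho u = z ∧ u ∉ D'), (kp j u * (R - t j) - mn j u)
      ≤ ∑ u ∈ U.filter (fun u => ho u = z ∧ u ∉ D), (kp j u * (R - t j) - ms j u))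
    {K : Finset ι} (hK : K ⊆ U) (hKz : ∀ u ∈ K, ho u ≠ z) {g : ι → ℕ} (hg1 : ∀ u ∈ K, 1 ≤ g u)
    (hg2 : ∀ u ∈ K, (g u : ℤ) ≤ kp z u) {sv : ℤ}
    (hS : SavW n ho vl kp pc z g {j} (K.filter fun u => ho u = j → pc u = 0) sv) :
    TstP R (R - t j) (t z + 1) (s z) (∑ u ∈ K, (g u : ℤ))
      (∑ u ∈ K, ((g u : ℤ) + 1 - if ho u = j then pc u else 0))
      (∑ u ∈ K, msP kp mn z g u) m q
      (∑ u ∈ U.filter (fun u => ho u = z ∧ u ∉ D'), (kp j u * (R - t j) - mn j u))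
      (sv + 2 * ((∑ u ∈ K, if ho u = j then pc u else 0)
          * ((K.filter fun u => ho u = j ∧ pc u = 0 ∧ ∀ l < n, l ≠ z → kp l u = 0).card : ℤ)))
      N
      ((be z j + ∑ u ∈ K, if ho u = j then pc u else 0)
          * (be z j + (∑ u ∈ K, if ho u = j then pc u else 0) + 1)
        + 2 * ∑ u ∈ K, if ho u = j then (1 - pc u) * ar u else ((g u : ℤ) + 1) * (R - t j)) := by
  have h1 := hT K hK hKz g hg1 hg2 sv hS
  rw [hq, sum_msP, hDj] at h1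
  refine pForm2 (E2 := En) (h := s z + t z + 1) ?_ hE (by ring)
  linarith

end Defs

section Wt

variable {ι V : Type*} {G : SimpleGraph V}

/-- edges between the groups, with weights -/
lemma NE_wt_le {K : Finset ι} {P : ι → Finset V}
    (hd : ∀ u ∈ K, ∀ v ∈ K, u ≠ v → Disjoint (P u) (P v)) {D : Finset (ι × ι)} {w : ι × ι → ℕ}
    (hD : ∀ e ∈ D, e.1 ∈ K ∧ e.2 ∈ K
      ∧ w e ≤ ((P e.1 ×ˢ P e.2).filter fun f => G.Adj f.1 f.2).card) :
    (NE G (K.biUnion P) : ℤ) + ((∑ e ∈ D, w e : ℕ) : ℤ) + (K.biUnion P).card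
      ≤ ((K.biUnion P).card : ℤ) * (K.biUnion P).card := by
  have h0 := E_add_NE (G := G) (K.biUnion P)
  have huniq : ∀ u ∈ K, ∀ v ∈ K, ∀ w, w ∈ P u → w ∈ P v → u = v := by
    intro u hu v hv w hwu hwv
    by_contra hne
    exact disjoint_left.1 (hd u hu v hv hne) hwu hwv
  have h1 : ∑ e ∈ D, w e ≤ E G (K.biUnion P) := by
    refine (sum_le_sum fun e he => (hD e he).2.2).trans ?_
    rw [E_eq_card, ← card_biUnion]
    · refine card_le_card (biUnion_subset.2 fun e he => ?_)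
      obtain ⟨h2, h3, -⟩ := hD e he
      exact filter_subset_filter _ (product_subset_product
        (fun v hv => mem_biUnion.2 ⟨_, h2, hv⟩) fun v hv => mem_biUnion.2 ⟨_, h3, hv⟩)
    · intro e he f hf hef
      obtain ⟨ha, hb, -⟩ := hD e he
      obtain ⟨ha', hb', -⟩ := hD f hf
      show Disjoint _ _
      rw [disjoint_left]
      intro x hx hx'
      obtain ⟨h2, h3⟩ := mem_product.1 (mem_filter.1 hx).1
      obtain ⟨h4, h5⟩ := mem_product.1 (mem_filter.1 hx').1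
      exact hef (Prod.ext (huniq _ ha _ ha' _ h2 h4) (huniq _ hb _ hb' _ h3 h5))
  have h2 : ((∑ e ∈ D, w e : ℕ) : ℤ) ≤ (E G (K.biUnion P) : ℤ) := by exact_mod_cast h1
  linarith

end Wt

section Sav

variable {V : Type*} {G : SimpleGraph V} {Z T : Finset V} {hm : V → V} {r m n p : ℕ}
  {B : V → Finset (V × V)} {Ps : V → Finset (Finset V)}

/-- the weight of an ordered pair of items of one host -/
private def wtC (e : Itm V × Itm V) : ℕ :=
  1 + if ipc e.1 = 0 ∧ ipc e.2 = 0 then Min.min (ivl e.1) (ivl e.2) else 0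

/-- **the saving of a concentrated packing**, over the homes -/
theorem WCoreK.savC0 (h : WCoreK G Z T r m n p hm) {host : Itm V → V}
    (hpk : ∀ x ∈ T, Pk G (cz G Z T hm x) (hz G Z T hm x) (tlo G T hm) (B x) (Ps x))
    (hmin : ∀ x ∈ T, ∀ B' Ps', Pk G (cz G Z T hm x) (hz G Z T hm x) (tlo G T hm) B' Ps' →
      (Ps x).card ≤ Ps'.card)
    (hco : ∀ x ∈ T, ∀ P ∈ Ps x, ∀ Q ∈ Ps x, P ≠ Q →
      min P.card Q.card ≤ ((P ×ˢ Q).filter fun e => G.Adj e.1 e.2).card)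
    (hst : ∀ x ∈ T, ∀ u ∈ pkf (B x) (Ps x), host u = x)
    {z : V} {J : Finset V} (hJ : J ⊆ T) {K : Finset (Itm V)}
    (hK : K ⊆ (T.erase z).biUnion fun x => pkf (B x) (Ps x))
    {g : Itm V → ℕ} (hg1 : ∀ u ∈ K, 1 ≤ g u) (hg2 : ∀ u ∈ K, g u ≤ ikp (tlo G T hm) z u) :
    (NE G (K.biUnion
        (rpts (tlo G T hm) (xlv G (cz G Z T hm) (tlo G T hm) z g) z)
        \ J.biUnion (CP G Z T fun x => Z.filter fun v => hm v = x)) : ℤ)
      + ((∑ e ∈ (K ×ˢ K).filter (fun e => e.1 ≠ e.2 ∧ host e.1 = host e.2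
          ∧ g e.1 = ivl e.1 ∧ g e.2 = ivl e.2
          ∧ (host e.1 ∈ J → ipc e.1 = 0 ∧ ipc e.2 = 0)), wtC e : ℕ) : ℤ)
      + (K.biUnion
        (rpts (tlo G T hm) (xlv G (cz G Z T hm) (tlo G T hm) z g) z)
        \ J.biUnion (CP G Z T fun x => Z.filter fun v => hm v = x)).card
      ≤ ((K.biUnion
        (rpts (tlo G T hm) (xlv G (cz G Z T hm) (tlo G T hm) z g) z)
        \ J.biUnion (CP G Z T fun x => Z.filter fun v => hm v = x)).card : ℤ)
        * (K.biUnion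
        (rpts (tlo G T hm) (xlv G (cz G Z T hm) (tlo G T hm) z g) z)
        \ J.biUnion (CP G Z T fun x => Z.filter fun v => hm v = x)).card := by
  have hfam : ∀ x ∈ T, Fam (co G) (cz G Z T hm) (hz G Z T hm) (tlo G T hm) x
      (pkf (B x) (Ps x)) := fun x hx => (hpk x hx).fam (h.csys.dCH hx hx).symm
  obtain ⟨X, hXd⟩ : ∃ X : Finset V → Finset V, X = xlv G (cz G Z T hm) (tlo G T hm) z g :=
    ⟨_, rfl⟩
  have hX : ∀ Q, X Q ⊆ oth (tlo G T hm) z Q := fun Q => hXd ▸ xlv_sub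
  obtain ⟨C, hC⟩ : ∃ C : Finset V, C = J.biUnion (CP G Z T fun x => Z.filter fun v => hm v = x) :=
    ⟨_, rfl⟩
  obtain ⟨P, hP⟩ : ∃ P : Itm V → Finset V, P = fun u => rpts (tlo G T hm) X z u \ C := ⟨_, rfl⟩
  rw [← hXd, ← hC]
  have hk : ∀ u ∈ K, ikp (tlo G T hm) z u ≠ 0 := by
    intro u hu
    have := hg1 u hu
    have := hg2 u hu
    omega
  have hown : ∀ u ∈ K, ∃ x ∈ T, u ∈ pkf (B x) (Ps x) ∧ host u = x := by
    intro u hu
    obtain ⟨x, hx, hux⟩ := mem_biUnion.1 (hK hu)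
    exact ⟨x, mem_of_mem_erase hx, hux, hst x (mem_of_mem_erase hx) u hux⟩
  have hdis : ∀ u ∈ K, ∀ v ∈ K, u ≠ v → Disjoint (P u) (P v) := by
    intro u hu v hv huv
    obtain ⟨x, hx, hux, -⟩ := hown u hu
    obtain ⟨x', hx', hvx, -⟩ := hown v hv
    rw [hP]
    exact ((Fam.dis_row h.wsysT hfam hx hx' hux hvx huv (hk u hu) (hk v hv)).mono
      ((hfam x hx).rpts_sub hX) ((hfam x' hx').rpts_sub hX)).mono sdiff_subset sdiff_subset
  have hsd : ∀ L' : Finset (Itm V), L'.biUnion (rpts (tlo G T hm) X z) \ C = L'.biUnion P := by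
    intro L'
    rw [hP]
    ext v
    simp only [mem_sdiff, mem_biUnion]
    constructor
    · rintro ⟨⟨u, hu, hv⟩, hv'⟩
      exact ⟨u, hu, hv, hv'⟩
    · rintro ⟨u, hu, hv, hv'⟩
      exact ⟨⟨u, hu, hv⟩, hv'⟩
  rw [hsd K]
  have hfull : ∀ u ∈ K, g u = ivl u → ikp (tlo G T hm) z u = ivl u := fun u hu h1 =>
    le_antisymm ikp_le_ivl (h1 ▸ hg2 u hu)
  have hful2 : ∀ u ∈ K, g u = ivl u → rpts (tlo G T hm) X z u = ipts u := by
    intro u hu h1
    obtain ⟨x, hx, hux, -⟩ := hown u hu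
    have h2 := rpts_full (X := xmn G (cz G Z T hm) (tlo G T hm) z) (fun Q => xmn_sub)
      (fun Q hQ => by rw [xmn_card hQ]) (fun Q hQ => (hfam x hx).two Q (hQ ▸ hux)) (hfull u hu h1)
    rw [← h2, hXd]
    rcases u with Q | e
    · have h3 : ikp (tlo G T hm) z (Sum.inl Q : Itm V) ≤ g (Sum.inl Q) := by
        rw [hfull _ hu h1, h1]
      simp only [rpts, xlv, h3, if_true]
    · rfl
  refine NE_wt_le hdis fun e he => ?_
  obtain ⟨h7, h8, h9, h11, h12, h13⟩ := mem_filter.1 he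
  obtain ⟨ha, hb⟩ := mem_product.1 h7
  refine ⟨ha, hb, ?_⟩
  obtain ⟨x, hx, hux, hxx⟩ := hown e.1 ha
  obtain ⟨y, hy, huy, hyy⟩ := hown e.2 hb
  have hxy : x = y := by rw [← hxx, ← hyy, h9]
  subst hxy
  have hout : ∀ w : Itm V, w ∈ pkf (B x) (Ps x) → (x ∈ J → ipc w = 0) →
      ∀ p ∈ ipts w, p ∉ C := by
    intro w hw hw0 p hp hpj
    rw [hC] at hpj
    obtain ⟨j, hj, hpj2⟩ := mem_biUnion.1 hpj
    have hjT := hJ hj
    by_cases hxj : x = j
    · have h11 := hw0 (hxj ▸ hj)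
      rcases w with Q | f
      · exact disjoint_left.1 (h.wsysT.dHC x hx _ hjT)
          ((hfam x hx).sub Q hw hp) hpj2
      · simp [ipc] at h11
    · have h12 := (hfam x hx).ipts_sub hw hp
      rcases mem_union.1 h12 with h13 | h13
      · exact disjoint_left.1 (h.wsysT.dHC x hx _ hjT) h13 hpj2
      · exact disjoint_left.1 (h.wsysT.dCC x hx _ hjT hxj) h13 hpj2
  rw [hxx] at h13
  have hP1 : P e.1 = ipts e.1 := by
    rw [hP]
    simp only
    rw [hful2 _ ha h11]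
    ext v
    rw [mem_sdiff]
    exact ⟨fun h14 => h14.1, fun h14 => ⟨h14, hout _ hux (fun h15 => (h13 h15).1) v h14⟩⟩
  have hP2 : P e.2 = ipts e.2 := by
    rw [hP]
    simp only
    rw [hful2 _ hb h12]
    ext v
    rw [mem_sdiff]
    exact ⟨fun h14 => h14.1, fun h14 => ⟨h14, hout _ huy (fun h15 => (h13 h15).2) v h14⟩⟩
  rw [hP1, hP2]
  obtain ⟨u, v⟩ := e
  simp only at hux huy h8 h11 h12 ha hb ⊢
  unfold wtC
  by_cases hpc : ipc u = 0 ∧ ipc v = 0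
  · rw [if_pos hpc]
    rcases u with Q | f
    · rcases v with Q' | f'
      · obtain ⟨hQ, hQ2⟩ := inl_mem_pkf.1 hux
        obtain ⟨hQ', hQ2'⟩ := inl_mem_pkf.1 huy
        have hne : Q ≠ Q' := fun h1 => h8 (by rw [h1])
        have h1 := hco x hx Q hQ Q' hQ' hne
        refine le_trans ?_ h1
        show 1 + min (Q.card - 1) (Q'.card - 1) ≤ min Q.card Q'.card
        omega
      · exact absurd hpc.2 (by simp [ipc])
    · exact absurd hpc.1 (by simp [ipc])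
  · rw [if_neg hpc, add_zero]
    obtain ⟨p, hp, q, hq, hpq⟩ := Pk.adj_full h.F.toPFrame h.hh h.csys h.ht hx (hpk x hx)
      (hmin x hx) hux huy h8 (hfull _ ha h11) (hfull _ hb h12)
    exact card_pos.2 ⟨(p, q), mem_filter.2 ⟨mem_product.2 ⟨hp, hq⟩, hpq⟩⟩

/-- **the savings `SavW` at the levels `g`** -/
theorem WCoreK.savJW (h : WCoreK G Z T r m n p hm)
    {host : Itm V → V} {ρ : V → ℕ} {σ : ℕ → V}
    (hpk : ∀ x ∈ T, Pk G (cz G Z T hm x) (hz G Z T hm x) (tlo G T hm) (B x) (Ps x))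
    (hmin : ∀ x ∈ T, ∀ B' Ps', Pk G (cz G Z T hm x) (hz G Z T hm x) (tlo G T hm) B' Ps' →
      (Ps x).card ≤ Ps'.card)
    (hco : ∀ x ∈ T, ∀ P ∈ Ps x, ∀ Q ∈ Ps x, P ≠ Q →
      min P.card Q.card ≤ ((P ×ˢ Q).filter fun e => G.Adj e.1 e.2).card)
    (hst : ∀ x ∈ T, ∀ u ∈ pkf (B x) (Ps x), host u = x)
    (rk : Rank T (tI G Z T hm r Z) ρ σ) {i : ℕ} (hi : i < n) {J : Finset ℕ} (hJ : ∀ j ∈ J, j < n)
    {K : Finset (Itm V)}
    (hK : K ⊆ T.biUnion fun x => pkf (B x) (Ps x)) (hKh : ∀ u ∈ K, ρ (host u) ≠ i)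
    {g : Itm V → ℕ} (hg1 : ∀ u ∈ K, 1 ≤ g u) (hg2 : ∀ u ∈ K, g u ≤ ikp (tlo G T hm) (σ i) u)
    {sv : ℤ}
    (hS : SavW n (fun u => ρ (host u)) (fun u => (ivl u : ℤ))
      (fun i u => (ikp (tlo G T hm) (σ i) u : ℤ)) (fun u => (ipc u : ℤ)) i g J K sv) :
    (NE G (K.biUnion
        (rpts (tlo G T hm) (xlv G (cz G Z T hm) (tlo G T hm) (σ i) g) (σ i))
        \ (J.image σ).biUnion (CP G Z T fun x => Z.filter fun v => hm v = x)) : ℤ) + sv
      + (K.biUnion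
        (rpts (tlo G T hm) (xlv G (cz G Z T hm) (tlo G T hm) (σ i) g) (σ i))
        \ (J.image σ).biUnion (CP G Z T fun x => Z.filter fun v => hm v = x)).card
      ≤ ((K.biUnion
        (rpts (tlo G T hm) (xlv G (cz G Z T hm) (tlo G T hm) (σ i) g) (σ i))
        \ (J.image σ).biUnion (CP G Z T fun x => Z.filter fun v => hm v = x)).card : ℤ)
        * (K.biUnion
        (rpts (tlo G T hm) (xlv G (cz G Z T hm) (tlo G T hm) (σ i) g) (σ i))
        \ (J.image σ).biUnion (CP G Z T fun x => Z.filter fun v => hm v = x)).card := by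
  rcases hS with hS | hS
  · exact h.savJJ hpk hmin hst rk hi hJ hK hKh hg1 hg2 hS
  have hcard := h.toWHom.cardT
  have hmem : ∀ i < n, σ i ∈ T := fun i hi => rk.mem i (by rw [hcard]; exact hi)
  have hmK : ∀ u ∈ K, ∃ x ∈ T, u ∈ pkf (B x) (Ps x) ∧ host u = x := by
    intro u hu
    obtain ⟨x, hx, hux⟩ := mem_biUnion.1 (hK hu)
    exact ⟨x, hx, hux, hst x hx u hux⟩
  have hK' : K ⊆ (T.erase (σ i)).biUnion fun x => pkf (B x) (Ps x) := by
    intro u hu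
    obtain ⟨x, hx, hux⟩ := mem_biUnion.1 (hK hu)
    refine mem_biUnion.2 ⟨x, mem_erase.2 ⟨fun h1 => hKh u hu ?_, hx⟩, hux⟩
    show ρ (host u) = i
    rw [hst x hx u hux, h1]
    exact rk.right i (by rw [hcard]; exact hi)
  have hJT : J.image σ ⊆ T := by
    intro x hx
    obtain ⟨j, hj, rfl⟩ := mem_image.1 hx
    exact hmem j (hJ j hj)
  have hmJ : ∀ x ∈ T, (x ∈ J.image σ ↔ ρ x ∈ J) := by
    intro x hx
    rw [mem_image]
    constructor
    · rintro ⟨j, hj, rfl⟩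
      rw [rk.right j (by rw [hcard]; exact hJ j hj)]
      exact hj
    · intro h1
      exact ⟨ρ x, h1, rk.left x hx⟩
  have h1 := h.savC0 hpk hmin hco hst hJT hK' hg1 hg2
  -- the ordered pairs over the row indices
  obtain ⟨D, hD⟩ : ∃ D : Finset (Itm V × Itm V), D = (K ×ˢ K).filter fun e => e.1 ≠ e.2
      ∧ host e.1 = host e.2
      ∧ g e.1 = ivl e.1 ∧ g e.2 = ivl e.2
      ∧ (host e.1 ∈ J.image σ → ipc e.1 = 0 ∧ ipc e.2 = 0) := ⟨_, rfl⟩
  rw [← hD] at h1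
  have hhost : ∀ e : Itm V × Itm V, e.1 ∈ K → e.2 ∈ K → ((host e.1 = host e.2 ↔ ρ (host e.1) = ρ (host e.2))
      ∧ (host e.1 ∈ J.image σ ↔ ρ (host e.1) ∈ J)) := by
    intro e ha hb
    obtain ⟨x, hx, -, hxx⟩ := hmK e.1 ha
    obtain ⟨y, hy, -, hyy⟩ := hmK e.2 hb
    rw [hxx, hyy]
    refine ⟨⟨fun h3 => by rw [h3], fun h3 => ?_⟩, hmJ x hx⟩
    rw [← rk.left x hx, h3, rk.left y hy]
  have hmD : ∀ e : Itm V × Itm V, e ∈ D ↔ (e.1 ∈ K ∧ e.2 ∈ K) ∧ e.1 ≠ e.2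
      ∧ ρ (host e.1) = ρ (host e.2) ∧ (g e.1 : ℤ) = (ivl e.1 : ℤ) ∧ (g e.2 : ℤ) = (ivl e.2 : ℤ)
      ∧ (ρ (host e.1) ∈ J → (ipc e.1 : ℤ) = 0 ∧ (ipc e.2 : ℤ) = 0) := by
    intro e
    rw [hD]
    simp only [mem_filter, mem_product, Int.natCast_inj, Int.natCast_eq_zero]
    refine and_congr_right fun hab => ?_
    obtain ⟨h3, h4⟩ := hhost e hab.1 hab.2
    rw [h3, h4]
  obtain ⟨F, hF⟩ : ∃ F : Finset (Itm V), F = K.filter fun u => (g u : ℤ) = (ivl u : ℤ)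
      ∧ (ρ (host u) ∈ J → (ipc u : ℤ) = 0) := ⟨_, rfl⟩
  have h2 := card_same F (fun u => ρ (host u)) (range n) (fun u hu => by
    rw [hF] at hu
    obtain ⟨x, hx, hux⟩ := mem_biUnion.1 (hK (mem_filter.1 hu).1)
    show ρ (host u) ∈ range n
    rw [hst x hx u hux]
    have := rk.lt x hx
    rw [h.toWHom.cardT] at this
    exact mem_range.2 this)
  have h3 := h2.symm.trans (congrArg (fun s : Finset (Itm V × Itm V) => (s.card : ℤ))
    (Finset.ext (s₂ := D) fun e => by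
      rw [hmD]
      simp only [hF, mem_filter, mem_product]
      constructor
      · rintro ⟨⟨⟨a1, a2, a3⟩, b1, b2, b3⟩, c1, c2⟩
        exact ⟨⟨a1, b1⟩, c1, c2, a2, b2, fun h5 => ⟨a3 h5, b3 (c2 ▸ h5)⟩⟩
      · rintro ⟨⟨a1, b1⟩, c1, c2, a2, b2, h5⟩
        exact ⟨⟨⟨a1, a2, fun h6 => (h5 h6).1⟩, b1, b2, fun h6 => (h5 (c2.symm ▸ h6)).2⟩, c1, c2⟩))
  beta_reduce at hS h3
  have hS2 : sv ≤ (D.card : ℤ) + minT (fun u => ρ (host u)) (fun u => (ivl u : ℤ))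
      (fun u => (ipc u : ℤ)) g K := by
    rw [← h3]
    refine hS.trans (add_le_add (le_of_eq (sum_congr rfl fun x _ => ?_)) le_rfl)
    refine congrArg (fun s : Finset (Itm V) => (s.card : ℤ) * ((s.card : ℤ) - 1))
      (Finset.ext fun u => ?_)
    simp only [hF, mem_filter]
    constructor
    · rintro ⟨h1, h2, h3, h4⟩
      exact ⟨⟨h1, h3, fun h5 => h4 (h2 ▸ h5)⟩, h2⟩
    · rintro ⟨⟨h1, h3, h4⟩, h2⟩
      exact ⟨h1, h2, h3, fun h5 => h4 (h2.symm ▸ h5)⟩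
  have h4 : minT (fun u => ρ (host u)) (fun u => (ivl u : ℤ)) (fun u => (ipc u : ℤ)) g K
      ≤ ∑ e ∈ D, (if ipc e.1 = 0 ∧ ipc e.2 = 0 then min (ivl e.1 : ℤ) (ivl e.2 : ℤ) else 0) := by
    unfold minT
    rw [← sum_filter]
    refine le_of_eq (sum_congr ?_ fun e _ => rfl)
    ext e
    rw [mem_filter (s := D), hmD]
    simp only [mem_filter, mem_product, Int.natCast_eq_zero]
    constructor
    · rintro ⟨h5, h6, h7, h8, h9, h10, h11⟩
      exact ⟨⟨h5, h6, h7, h8, h9, fun _ => ⟨h10, h11⟩⟩, h10, h11⟩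
    · rintro ⟨⟨h5, h6, h7, h8, h9, -⟩, h10, h11⟩
      exact ⟨h5, h6, h7, h8, h9, h10, h11⟩
  have h5 : ((∑ e ∈ D, wtC e : ℕ) : ℤ) = (D.card : ℤ)
      + ∑ e ∈ D, (if ipc e.1 = 0 ∧ ipc e.2 = 0 then min (ivl e.1 : ℤ) (ivl e.2 : ℤ) else 0) := by
    rw [Nat.cast_sum, card_eq_sum_ones, Nat.cast_sum, ← sum_add_distrib]
    refine sum_congr rfl fun e _ => ?_
    unfold wtC
    push_cast
    rfl
  linarith

/-- **the saving in the row test with the PC pairs in joint form, at any levels**, savings `SavW` -/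
theorem WCoreK.savGLW (h : WCoreK G Z T r m n p hm)
    {host : Itm V → V} {ρ : V → ℕ} {σ : ℕ → V}
    (hpk : ∀ x ∈ T, Pk G (cz G Z T hm x) (hz G Z T hm x) (tlo G T hm) (B x) (Ps x))
    (hmin : ∀ x ∈ T, ∀ B' Ps', Pk G (cz G Z T hm x) (hz G Z T hm x) (tlo G T hm) B' Ps' →
      (Ps x).card ≤ Ps'.card)
    (hco : ∀ x ∈ T, ∀ P ∈ Ps x, ∀ Q ∈ Ps x, P ≠ Q →
      min P.card Q.card ≤ ((P ×ˢ Q).filter fun e => G.Adj e.1 e.2).card)
    (hst : ∀ x ∈ T, ∀ u ∈ pkf (B x) (Ps x), host u = x)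
    (rk : Rank T (tI G Z T hm r Z) ρ σ) {i j : ℕ} (hi : i < n) (hj : j < n)
    {K : Finset (Itm V)}
    (hK : K ⊆ T.biUnion fun x => pkf (B x) (Ps x)) (hKh : ∀ u ∈ K, ρ (host u) ≠ i)
    {g : Itm V → ℕ} (hg1 : ∀ u ∈ K, 1 ≤ g u) (hg2 : ∀ u ∈ K, g u ≤ ikp (tlo G T hm) (σ i) u)
    {sv : ℤ}
    (hS : SavW n (fun u => ρ (host u)) (fun u => (ivl u : ℤ))
      (fun i u => (ikp (tlo G T hm) (σ i) u : ℤ)) (fun u => (ipc u : ℤ)) i g {j}
      (K.filter fun u => ρ (host u) = j → (ipc u : ℤ) = 0) sv) :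
    (NE G (K.biUnion (rpts (tlo G T hm) (xlv G (cz G Z T hm) (tlo G T hm) (σ i) g) (σ i))
          \ cz G Z T hm (σ j)) : ℤ)
        + ((sv + 2 * ((∑ u ∈ K, if ρ (host u) = j then (ipc u : ℤ) else 0)
            * ((K.filter fun u => ρ (host u) = j ∧ (ipc u : ℤ) = 0
              ∧ ∀ l < n, l ≠ i → (ikp (tlo G T hm) (σ l) u : ℤ) = 0).card : ℤ)))
          + E G ((upc (tlo G T hm) (σ i) (pkf (B (σ j)) (Ps (σ j))) K).image Prod.fst))
        + (K.biUnion (rpts (tlo G T hm) (xlv G (cz G Z T hm) (tlo G T hm) (σ i) g) (σ i))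
          \ cz G Z T hm (σ j)).card
      ≤ ((K.biUnion (rpts (tlo G T hm) (xlv G (cz G Z T hm) (tlo G T hm) (σ i) g) (σ i))
          \ cz G Z T hm (σ j)).card : ℤ)
        * (K.biUnion (rpts (tlo G T hm) (xlv G (cz G Z T hm) (tlo G T hm) (σ i) g) (σ i))
          \ cz G Z T hm (σ j)).card := by
  have hcard := h.toWHom.cardT
  have hmem : ∀ i < n, σ i ∈ T := fun i hi => rk.mem i (by rw [hcard]; exact hi)
  have hfam : ∀ x ∈ T, Fam (co G) (cz G Z T hm) (hz G Z T hm) (tlo G T hm) x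
      (pkf (B x) (Ps x)) := fun x hx => (hpk x hx).fam (h.csys.dCH hx hx).symm
  have hk : ∀ u ∈ K, ikp (tlo G T hm) (σ i) u ≠ 0 := fun u hu h3 => by
    have := hg1 u hu
    have := hg2 u hu
    omega
  have hmK : ∀ u ∈ K, ∃ x ∈ T, u ∈ pkf (B x) (Ps x) ∧ host u = x := by
    intro u hu
    obtain ⟨x, hx, hux⟩ := mem_biUnion.1 (hK hu)
    exact ⟨x, hx, hux, hst x hx u hux⟩
  have hK' : K ⊆ (T.erase (σ i)).biUnion fun x => pkf (B x) (Ps x) := by
    intro u hu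
    obtain ⟨x, hx, hux⟩ := mem_biUnion.1 (hK hu)
    refine mem_biUnion.2 ⟨x, mem_erase.2 ⟨fun h1 => hKh u hu ?_, hx⟩, hux⟩
    show ρ (host u) = i
    rw [hst x hx u hux, h1]
    exact rk.right i (by rw [hcard]; exact hi)
  have hho : ∀ u ∈ K, (host u = σ j ↔ ρ (host u) = j) := by
    intro u hu
    obtain ⟨x, hx, -, hxx⟩ := hmK u hu
    rw [hxx]
    constructor
    · rintro rfl
      exact rk.right j (by rw [hcard]; exact hj)
    · rintro rfl
      exact (rk.left x hx).symm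
  have hsty : ∀ u ∈ K, (host u = σ j ↔ u ∈ pkf (B (σ j)) (Ps (σ j))) := by
    intro u hu
    obtain ⟨x, hx, hux, hxx⟩ := hmK u hu
    constructor
    · intro h1
      rw [hxx] at h1
      exact h1 ▸ hux
    · exact hst (σ j) (hmem j hj) u
  -- the items which are not PC pairs of `j`
  have hK0 : K \ (upc (tlo G T hm) (σ i) (pkf (B (σ j)) (Ps (σ j))) K).image Sum.inr
      = K.filter fun u => ρ (host u) = j → (ipc u : ℤ) = 0 := by
    ext u
    rw [mem_sdiff, mem_filter]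
    refine and_congr_right fun hu => ?_
    rcases u with Q | e
    · refine ⟨fun _ _ => rfl, fun _ h1 => ?_⟩
      obtain ⟨e, -, h2⟩ := mem_image.1 h1
      cases h2
    · constructor
      · intro h1 h2
        exfalso
        refine h1 (mem_image_of_mem _ (mem_upc.2 ⟨(hsty _ hu).1 ((hho _ hu).2 h2), ?_, hu⟩))
        by_contra h3
        exact hk _ hu (by simp only [ikp, h3, if_false])
      · intro h1 h2
        obtain ⟨f, hf, h3⟩ := mem_image.1 h2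
        have h4 := Sum.inr_injective h3
        subst h4
        have h5 := h1 ((hho _ hu).1 ((hsty _ hu).2 (mem_upc.1 hf).1))
        simp [ipc] at h5
  have hs := h.savJW hpk hmin hco hst rk hi (J := {j}) (fun l hl => by
    rw [mem_singleton.1 hl]
    exact hj) ((filter_subset _ _).trans hK) (fun u hu => hKh u (mem_filter.1 hu).1)
    (fun u hu => hg1 u (mem_filter.1 hu).1) (fun u hu => hg2 u (mem_filter.1 hu).1) hS
  rw [image_singleton, singleton_biUnion, ← hK0] at hs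
  -- the full items of `j`
  obtain ⟨S, hSd⟩ : ∃ S, S = K.filter fun u => ρ (host u) = j ∧ (ipc u : ℤ) = 0
      ∧ ∀ l < n, l ≠ i → (ikp (tlo G T hm) (σ l) u : ℤ) = 0 := ⟨_, rfl⟩
  have hSc : S.toLeft.card = S.card := by
    have h1 : S.toRight = ∅ := by
      rw [eq_empty_iff_forall_notMem]
      intro e he
      have h2 := mem_toRight.1 he
      rw [hSd] at h2
      have h3 := (mem_filter.1 h2).2.2.1
      simp [ipc] at h3
    have h2 := card_toLeft_add_card_toRight (u := S)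
    rw [h1, card_empty] at h2
    exact h2
  have h1 := Fam.savG h.F.toPFrame h.hh h.csys h.wsysT hfam (hmem i hi) (hmem j hj) hK' hk
    (X := xlv G (cz G Z T hm) (tlo G T hm) (σ i) g) (fun Q => xlv_sub) hs (F := S.toLeft)
    (fun Q hQ => by
      have h2 := mem_toLeft.1 hQ
      rw [hSd] at h2
      obtain ⟨h3, h4, -⟩ := mem_filter.1 h2
      exact ⟨h3, (hsty _ h3).1 ((hho _ h3).2 h4)⟩)
    (fun Q hQ x hx => by
      have h2 := mem_toLeft.1 hQ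
      rw [hSd] at h2
      obtain ⟨h3, h4, -, h5⟩ := mem_filter.1 h2
      have hux := (hsty _ h3).1 ((hho _ h3).2 h4)
      by_contra h6
      obtain ⟨v, hv, hvx⟩ := ikp_ne_tail (fun Q' hQ' => (hfam _ (hmem j hj)).two Q' (hQ' ▸ hux)) h6
      have h7 := h.toWHom.ht _ (hmem j hj) v ((hfam _ (hmem j hj)).imem_sub hux hv)
      rw [hvx] at h7
      have hxT := mem_of_mem_erase h7
      have h8 := rk.lt x hxT
      rw [hcard] at h8
      have h9 : ρ x ≠ i := fun h9 => hx (by rw [← rk.left x hxT, h9])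
      have h10 := h5 (ρ x) h8 h9
      rw [rk.left x hxT] at h10
      exact h6 (by exact_mod_cast h10))
  have h2 : ∑ u ∈ K, (if ρ (host u) = j then (ipc u : ℤ) else 0)
      = ((upc (tlo G T hm) (σ i) (pkf (B (σ j)) (Ps (σ j))) K).card : ℤ) := by
    have h3 := sum_upc (host := host) hk hsty fun _ => 1
    rw [sum_const, nsmul_eq_mul, mul_one] at h3
    rw [h3]
    refine sum_congr rfl fun u hu => ?_
    by_cases h4 : ρ (host u) = j
    · rw [if_pos h4, if_pos ((hho u hu).2 h4)]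
      rcases u with Q | e
      · simp [ipc]
      · simp [ipc]
    · rw [if_neg h4, if_neg fun h5 => h4 ((hho u hu).1 h5)]
  rw [← hSd, h2]
  rw [hSc] at h1
  have h3 : ∀ x, CP G Z T (fun x => Z.filter fun v => hm v = x) x = cz G Z T hm x := fun _ => rfl
  rw [h3] at h1
  linarith

/-- **T with the items `D` of the host `i` dropped**, savings `SavW` -/
theorem WCoreK.rowtD1W (h : WCoreK G Z T r m n p hm)
    {host : Itm V → V} {ρ : V → ℕ} {σ : ℕ → V}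
    (hpk : ∀ x ∈ T, Pk G (cz G Z T hm x) (hz G Z T hm x) (tlo G T hm) (B x) (Ps x))
    (hmin : ∀ x ∈ T, ∀ B' Ps', Pk G (cz G Z T hm x) (hz G Z T hm x) (tlo G T hm) B' Ps' →
      (Ps x).card ≤ Ps'.card)
    (hco : ∀ x ∈ T, ∀ P ∈ Ps x, ∀ Q ∈ Ps x, P ≠ Q →
      min P.card Q.card ≤ ((P ×ˢ Q).filter fun e => G.Adj e.1 e.2).card)
    (hst : ∀ x ∈ T, ∀ u ∈ pkf (B x) (Ps x), host u = x)
    (rk : Rank T (tI G Z T hm r Z) ρ σ) {i : ℕ} (hi : i < n)
    {D : Finset (Itm V)} (hD : D ⊆ pkf (B (σ i)) (Ps (σ i))) {En : ℤ}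
    (EN : 2 * eI G hm (Z \ D.biUnion imem) (σ i) ≤ En) :
    RowTD1W ((r : ℤ) - 1) n (fun i => tI G Z T hm r Z (σ i)) (fun i => sI hm r Z (σ i))
      (T.biUnion fun x => pkf (B x) (Ps x)) (fun u => ρ (host u)) (fun u => (ivl u : ℤ))
      (fun i u => (ikp (tlo G T hm) (σ i) u : ℤ))
      (fun i u => (imn G (cz G Z T hm) (tlo G T hm) (σ i) u : ℤ))
      (fun u => (ipc u : ℤ)) i D En := by
  intro K hK hKh g hg1 hg2 sv hS
  have hcard := h.toWHom.cardT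
  have hmem : ∀ i < n, σ i ∈ T := fun i hi => rk.mem i (by rw [hcard]; exact hi)
  have hg2' : ∀ u ∈ K, g u ≤ ikp (tlo G T hm) (σ i) u := fun u hu => by
    have h5 : (g u : ℤ) ≤ (ikp (tlo G T hm) (σ i) u : ℤ) := hg2 u hu
    exact_mod_cast h5
  have hsv := h.savJW hpk hmin hco hst rk hi (J := ∅) (fun j hj => absurd hj (notMem_empty _)) hK
    hKh hg1 hg2' hS
  rw [image_empty, biUnion_empty, sdiff_empty] at hsv
  have hX := keepX_kp (hpk _ (hmem i hi)) hD ∅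
  have h1 := h.rowTK hpk hst rk hi (kpB_sub (B := B (σ i)) (D := D))
    (kpP_sub (Ps := Ps (σ i)) (D := D)) hK hKh hg1 hg2' (En := En)
    (by
      rw [hX, union_empty]
      exact EN) hsv
  have h2 := (hpk _ (hmem i hi)).card_kp hD
  have h3 : ((keepH (kpB (B (σ i)) D) (kpP (Ps (σ i)) D)).card : ℤ)
      = hI G Z T hm Z (σ i) - ∑ u ∈ D, ((ivl u : ℤ) + 1 - (ipc u : ℤ)) := h2
  have h6 : sI hm r Z (σ i) - (hI G Z T hm Z (σ i)
      - (hI G Z T hm Z (σ i) - ∑ u ∈ D, ((ivl u : ℤ) + 1 - (ipc u : ℤ))))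
      = sI hm r Z (σ i) - ∑ u ∈ D, ((ivl u : ℤ) + 1 - (ipc u : ℤ)) := by ring
  rw [h3, h6] at h1
  simp only [ilm_cast] at h1
  exact h1

/-- **the row test with the PC pairs of both homes in joint form and the items `D` of the host `i` dropped**,
savings `SavW` -/
theorem WCoreK.rowgD1W (hp : 2 * r ≤ p) (h : WCoreK G Z T r m n p hm)
    {host : Itm V → V} {ρ : V → ℕ} {σ : ℕ → V}
    (hpk : ∀ x ∈ T, Pk G (cz G Z T hm x) (hz G Z T hm x) (tlo G T hm) (B x) (Ps x))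
    (hmin : ∀ x ∈ T, ∀ B' Ps', Pk G (cz G Z T hm x) (hz G Z T hm x) (tlo G T hm) B' Ps' →
      (Ps x).card ≤ Ps'.card)
    (hco : ∀ x ∈ T, ∀ P ∈ Ps x, ∀ Q ∈ Ps x, P ≠ Q →
      min P.card Q.card ≤ ((P ×ˢ Q).filter fun e => G.Adj e.1 e.2).card)
    (hst : ∀ x ∈ T, ∀ u ∈ pkf (B x) (Ps x), host u = x)
    (rk : Rank T (tI G Z T hm r Z) ρ σ) {i j : ℕ} (hi : i < n) (hj : j < n) (hij : i ≠ j)
    {D : Finset (Itm V)} (hD : D ⊆ pkf (B (σ i)) (Ps (σ i))) {En : ℤ}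
    (EN : 2 * eI G hm (Z \ D.biUnion imem) (σ i)
        + E G ((pcs (tlo G T hm) (kpB (B (σ i)) D) (σ j)).image Prod.fst)
      ≤ En + 2 * ∑ e ∈ pcs (tlo G T hm) (kpB (B (σ i)) D) (σ j),
        (nd G (cz G Z T hm (σ i)) e.1 : ℤ)) :
    RowGD1W ((r : ℤ) - 1) n (fun i => tI G Z T hm r Z (σ i)) (fun i => sI hm r Z (σ i))
      (T.biUnion fun x => pkf (B x) (Ps x)) (fun u => ρ (host u)) (fun u => (ivl u : ℤ))
      (fun i u => (ikp (tlo G T hm) (σ i) u : ℤ))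
      (fun i u => (ims G (cz G Z T hm) (tlo G T hm) (σ i) u : ℤ))
      (fun i u => (imn G (cz G Z T hm) (tlo G T hm) (σ i) u : ℤ))
      (fun i j => pcn (tlo G T hm) B (σ i) (σ j)) (fun u => (ipc u : ℤ))
      (fun u => (iar G (cz G Z T hm (host u)) u : ℤ)) i j D En := by
  intro K hK hKh g hg1 hg2 sv hS
  have hcard := h.toWHom.cardT
  have hmem : ∀ i < n, σ i ∈ T := fun i hi => rk.mem i (by rw [hcard]; exact hi)
  have hg2' : ∀ u ∈ K, g u ≤ ikp (tlo G T hm) (σ i) u := fun u hu => by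
    have h5 : (g u : ℤ) ≤ (ikp (tlo G T hm) (σ i) u : ℤ) := hg2 u hu
    exact_mod_cast h5
  have hfil : (T.biUnion fun x => pkf (B x) (Ps x)).filter (fun u => ρ (host u) = i)
      = pkf (B (σ i)) (Ps (σ i)) := fil_host hst rk (by rw [hcard]; exact hi)
  have hsv := h.savGLW hpk hmin hco hst rk hi hj hK hKh hg1 hg2' hS
  have hX := keepX_kp (hpk _ (hmem i hi)) hD ∅
  have h1 := h.rowGK hp hpk hst rk hi hj hij (kpB_sub (B := B (σ i)) (D := D))
    (kpP_sub (Ps := Ps (σ i)) (D := D)) hK hKh hg1 hg2' (En := En)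
    (by
      rw [hX, union_empty]
      exact EN) hsv
  have h2 := (hpk _ (hmem i hi)).card_kp hD
  have h3 : ((keepH (kpB (B (σ i)) D) (kpP (Ps (σ i)) D)).card : ℤ)
      = hI G Z T hm Z (σ i) - ∑ u ∈ D, ((ivl u : ℤ) + 1 - (ipc u : ℤ)) := h2
  have h4 := card_pcs_kp (tl := tlo G T hm) (y := σ j) hD
  have h5 : ((pcs (tlo G T hm) (B (σ i)) (σ j)).card : ℤ) = pcn (tlo G T hm) B (σ i) (σ j) := rfl
  have h6 : sI hm r Z (σ i) - (hI G Z T hm Z (σ i)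
      - (hI G Z T hm Z (σ i) - ∑ u ∈ D, ((ivl u : ℤ) + 1 - (ipc u : ℤ))))
      = sI hm r Z (σ i) - ∑ u ∈ D, ((ivl u : ℤ) + 1 - (ipc u : ℤ)) := by ring
  rw [h3, h4, h5, h6, pkf_kp] at h1
  simp only [ilm_cast] at h1
  beta_reduce
  have h8 : ∀ inst : DecidablePred fun u : Itm V => ρ (host u) = i ∧ u ∉ D,
      @filter (Itm V) (fun u => ρ (host u) = i ∧ u ∉ D) inst (T.biUnion fun x => pkf (B x) (Ps x))
      = pkf (B (σ i)) (Ps (σ i)) \ D := by
    intro inst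
    ext u
    rw [mem_sdiff, ← hfil]
    simp only [mem_filter]
    tauto
  rw [h8]
  clear hsv EN hS
  linarith

end Sav

end Pool.Agent.Lib.MP_f04ccf_co
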