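import Pool.Agent.Lib.MP_f04ccf_co.M.EnT

/-!
MP_f04ccf_co, PLAN W, version [C]: the energy with the independence number (`PkOpt.energyTur`) over the
row indices, in the letters of `ItC`, for every `q ≥ 0`:
`2 e i + mu i (mu i + 1) + 2 q (mu i - ∑_{j ≠ i} be i j) ≤ 2 mu i h i + ∑_{j ≠ i} NN i j + (n - 1) q (q + 1)`.
-/

set_option autoImplicit false

namespace Pool.Agent.Lib.MP_f04ccf_co

open Finset

attribute [local instance] Classical.propDecidable

section EnTi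

variable {V : Type*} {G : SimpleGraph V} {Z T : Finset V} {hm : V → V} {r m n : ℕ}
  {φ : Finset (V × V) → Finset (Finset V) → ℕ} {B : V → Finset (V × V)}
  {Ps : V → Finset (Finset V)}

/-- the energy with the independence number, for every `q ≥ 0` -/
theorem WHom.enTq (h : WHom G Z T r m n hm) {x : V} (hx : x ∈ T)
    (hB : ∀ x ∈ T, PkOpt G (cz G Z T hm x) (hz G Z T hm x) (tlo G T hm) φ (B x) (Ps x))
    {q : ℤ} (hq : 0 ≤ q) :
    2 * eI G hm Z x + (∑ u ∈ pkf (B x) (Ps x), (ivl u : ℤ))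
        * (∑ u ∈ pkf (B x) (Ps x), (ivl u : ℤ) + 1)
        + 2 * (q * (∑ u ∈ pkf (B x) (Ps x), (ivl u : ℤ)
          - ∑ z ∈ T.erase x, pcn (tlo G T hm) B x z))
      ≤ 2 * ((∑ u ∈ pkf (B x) (Ps x), (ivl u : ℤ)) * hI G Z T hm Z x)
        + ∑ z ∈ T.erase x, nxw G Z T hm B x z + ((n : ℤ) - 1) * (q * (q + 1)) := by
  have h1 := PkOpt.energyTur h hx hB
  have h2 := (hB x hx).toPk.sum_ivl
  have h3 : ∑ u ∈ pkf (B x) (Ps x), (ivl u : ℤ) + (Ps x).card = ((hz G Z T hm x).card : ℤ) := by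
    exact_mod_cast h2
  have h5 := h.five
  obtain ⟨Q, rfl⟩ := Int.eq_ofNat_of_zero_le hq
  have h6 := turC_q (k := n - 1) (by omega) Q
    ((hz G Z T hm x).card - (B x).card - (Ps x).card)
  have h7 := h.sum_pcn hx (hB x hx).toPk
  rw [← h7]
  have h8 : ((hz G Z T hm x).card : ℤ) - (B x).card - (Ps x).card
      ≤ (((hz G Z T hm x).card - (B x).card - (Ps x).card : ℕ) : ℤ) := by
    omega
  have h9 : ∑ u ∈ pkf (B x) (Ps x), (ivl u : ℤ) - ((B x).card : ℤ)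
      ≤ (((hz G Z T hm x).card - (B x).card - (Ps x).card : ℕ) : ℤ) := by
    linarith
  have h10 : (Q : ℤ) * (∑ u ∈ pkf (B x) (Ps x), (ivl u : ℤ) - ((B x).card : ℤ))
      ≤ (Q : ℤ) * (((hz G Z T hm x).card - (B x).card - (Ps x).card : ℕ) : ℤ) :=
    mul_le_mul_of_nonneg_left h9 (by positivity)
  have h11 : 2 * ((Q : ℤ) * (((hz G Z T hm x).card - (B x).card - (Ps x).card : ℕ) : ℤ))
      ≤ 2 * (turC ((hz G Z T hm x).card - (B x).card - (Ps x).card) (n - 1) : ℕ)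
        + ((n : ℤ) - 1) * ((Q : ℤ) * ((Q : ℤ) + 1)) := by
    have h12 : ((n - 1 : ℕ) : ℤ) = (n : ℤ) - 1 := by
      rw [Nat.cast_sub (by omega)]
      rfl
    have h13 : (2 * Q * ((hz G Z T hm x).card - (B x).card - (Ps x).card) : ℕ)
        ≤ ((2 * turC ((hz G Z T hm x).card - (B x).card - (Ps x).card) (n - 1)
          + (n - 1) * Q * (Q + 1) : ℕ)) := h6
    have h14 : ((2 * Q * ((hz G Z T hm x).card - (B x).card - (Ps x).card) : ℕ) : ℤ)
        ≤ ((2 * turC ((hz G Z T hm x).card - (B x).card - (Ps x).card) (n - 1)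
          + (n - 1) * Q * (Q + 1) : ℕ) : ℤ) := by exact_mod_cast h13
    rw [Nat.cast_add, Nat.cast_mul, Nat.cast_mul, Nat.cast_mul, Nat.cast_mul, Nat.cast_mul,
      h12] at h14
    push_cast at h14 ⊢
    linarith
  linarith

/-- **the energy with the independence number over the row indices** -/
theorem WHom.enTi (h : WHom G Z T r m n hm)
    (hB : ∀ x ∈ T, PkOpt G (cz G Z T hm x) (hz G Z T hm x) (tlo G T hm) φ (B x) (Ps x))
    {ρ : V → ℕ} {σ : ℕ → V} (hσ : Rank T (tI G Z T hm r Z) ρ σ) :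
    ∀ i < n, ∀ q : ℤ, 0 ≤ q →
    2 * eI G hm Z (σ i) + (∑ u ∈ pkf (B (σ i)) (Ps (σ i)), (ivl u : ℤ))
        * (∑ u ∈ pkf (B (σ i)) (Ps (σ i)), (ivl u : ℤ) + 1)
        + 2 * (q * (∑ u ∈ pkf (B (σ i)) (Ps (σ i)), (ivl u : ℤ)
          - ∑ j ∈ (range n).erase i, pcn (tlo G T hm) B (σ i) (σ j)))
      ≤ 2 * ((∑ u ∈ pkf (B (σ i)) (Ps (σ i)), (ivl u : ℤ)) * hI G Z T hm Z (σ i))
        + ∑ j ∈ (range n).erase i, nxw G Z T hm B (σ i) (σ j)
        + ((n : ℤ) - 1) * (q * (q + 1)) := by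
  intro i hi q hq
  have hcard := h.cardT
  have h1 := h.enTq (hσ.mem i (by rw [hcard]; exact hi)) hB hq
  have h2 := hσ.sum_er (i := i) (by rw [hcard]; exact hi) fun z => nxw G Z T hm B (σ i) z
  have h3 := hσ.sum_er (i := i) (by rw [hcard]; exact hi) fun z => pcn (tlo G T hm) B (σ i) z
  rw [hcard] at h2 h3
  rw [h2, h3] at h1
  exact h1

end EnTi

end Pool.Agent.Lib.MP_f04ccf_co
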