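import Pool.Agent.Lib.MP_f04ccf_co.M.EnN

/-!
MP_f04ccf_co, note 16810: small additions to M/EnN.

* `Pk.uin_clq`: the members of the parts which miss the class point of one PC pair and have its tail are
  pairwise adjacent.  `Pk.uin_le_card`: so they lie in different parts, `uin e ≤ p`.
* `bothB_tail`: `bothB` is the sum over the tails (`bothB_le` is in M/WNumB).
* `sum_B_tail`, `sum_N_tail`: the two sums of free arcs are the sums over the tails.
-/

set_option autoImplicit false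

namespace Pool.Agent.Lib.MP_f04ccf_co

open Finset

attribute [local instance] Classical.propDecidable

section EnP

variable {ι V : Type*} {G : SimpleGraph V} {C H : Finset V} {tl : V → ι}
  {B : Finset (V × V)} {Ps : Finset (Finset V)}

namespace Pk

/-- the members which miss the class point of one PC pair and have its tail are pairwise adjacent -/
theorem uin_clq (h : Pk G C H tl B Ps) (h32 : ∀ v ∈ H, ∀ w ∈ H, ∀ a ∈ C, v ≠ w → tl v = tl w →
    ¬ G.Adj v a → ¬ G.Adj w a → G.Adj v w) {e : V × V} (he : e ∈ B) {v w : V}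
    (hv : v ∈ (H \ B.image Prod.fst).filter fun v => tl v = tl e.1 ∧ ¬ G.Adj v e.2)
    (hw : w ∈ (H \ B.image Prod.fst).filter fun v => tl v = tl e.1 ∧ ¬ G.Adj v e.2)
    (hvw : v ≠ w) : G.Adj v w := by
  obtain ⟨h1, h2, h3⟩ := mem_filter.1 hv
  obtain ⟨h4, h5, h6⟩ := mem_filter.1 hw
  exact h32 v (mem_sdiff.1 h1).1 w (mem_sdiff.1 h4).1 e.2 (h.bC e he) hvw (h2.trans h5.symm) h3 h6

/-- **at most one in every part** -/
theorem uin_le_card (h : Pk G C H tl B Ps) (h32 : ∀ v ∈ H, ∀ w ∈ H, ∀ a ∈ C, v ≠ w →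
    tl v = tl w → ¬ G.Adj v a → ¬ G.Adj w a → G.Adj v w) {e : V × V} (he : e ∈ B) :
    uin G tl (H \ B.image Prod.fst) e ≤ Ps.card := by
  have h1 : ∀ v ∈ (H \ B.image Prod.fst).filter (fun v => tl v = tl e.1 ∧ ¬ G.Adj v e.2),
      ∃ P ∈ Ps, v ∈ P := by
    intro v hv
    have h2 := (mem_filter.1 hv).1
    rw [h.union_eq, mem_biUnion] at h2
    exact h2
  choose! f hf1 hf2 using h1
  refine card_le_card_of_injOn f (fun v hv => ?_) ?_
  · exact_mod_cast hf1 v (by exact_mod_cast hv)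
  · intro v hv w hw hvw
    have hv' : v ∈ (H \ B.image Prod.fst).filter
      (fun v => tl v = tl e.1 ∧ ¬ G.Adj v e.2) := by exact_mod_cast hv
    have hw' : w ∈ (H \ B.image Prod.fst).filter
      (fun v => tl v = tl e.1 ∧ ¬ G.Adj v e.2) := by exact_mod_cast hw
    by_contra hne
    exact h.ind _ (hf1 v hv') v (hf2 v hv') w (hvw ▸ hf2 w hw') (h.uin_clq h32 he hv' hw' hne)

end Pk

/-- the PC pairs with the tail `y` -/
noncomputable def btl (tl : V → ι) (B : Finset (V × V)) (y : ι) : Finset (V × V) :=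
  B.filter fun e => tl e.1 = y

lemma mem_btl {y : ι} {e : V × V} : e ∈ btl tl B y ↔ e ∈ B ∧ tl e.1 = y := mem_filter

/-- a sum over the PC pairs, tail by tail -/
lemma sum_B_tail {M : Type*} [AddCommMonoid M] (Y : Finset ι) (hY : ∀ e ∈ B, tl e.1 ∈ Y)
    (f : V × V → M) : ∑ e ∈ B, f e = ∑ y ∈ Y, ∑ e ∈ btl tl B y, f e := by
  rw [← sum_fiberwise_of_maps_to (g := fun e : V × V => tl e.1) (fun e he => hY e he) f]
  rfl

/-- a sum over members, tail by tail -/
lemma sum_N_tail {M : Type*} [AddCommMonoid M] {N : Finset V} (Y : Finset ι)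
    (hY : ∀ v ∈ N, tl v ∈ Y) (f : V → M) :
    ∑ v ∈ N, f v = ∑ y ∈ Y, ∑ v ∈ N.filter (fun v => tl v = y), f v :=
  (sum_fiberwise_of_maps_to (g := tl) hY f).symm

/-- **`bothB` is the sum over the tails** -/
theorem bothB_tail (Y : Finset ι) (hY : ∀ e ∈ B, tl e.1 ∈ Y) :
    bothB G tl B = ∑ y ∈ Y, bothB G tl (btl tl B y) := by
  unfold bothB
  rw [card_eq_sum_card_fiberwise (f := fun q : (V × V) × (V × V) => tl q.1.1) (t := Y)
    (fun q hq => by
      have h1 : q ∈ (B ×ˢ B).filter fun q => q.1.1 ≠ q.2.1 ∧ tl q.1.1 = tl q.2.1 ∧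
        ¬ G.Adj q.1.1 q.2.2 ∧ ¬ G.Adj q.2.1 q.1.2 := by exact_mod_cast hq
      exact_mod_cast hY q.1 (mem_product.1 (mem_filter.1 h1).1).1)]
  refine sum_congr rfl fun y _ => ?_
  congr 1
  ext q
  simp only [mem_filter, mem_product, mem_btl]
  constructor
  · rintro ⟨⟨⟨h1, h2⟩, h3, h4, h5, h6⟩, h7⟩
    exact ⟨⟨⟨h1, h7⟩, h2, h4 ▸ h7⟩, h3, h4, h5, h6⟩
  · rintro ⟨⟨⟨h1, h7⟩, h2, -⟩, h3, h4, h5, h6⟩
    exact ⟨⟨⟨h1, h2⟩, h3, h4, h5, h6⟩, h7⟩

end EnP

end Pool.Agent.Lib.MP_f04ccf_co
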