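import Pool.Agent.Lib.MP_f04ccf_co.M.WNumK
import Pool.Agent.Lib.MP_f04ccf_co.M.EnP

/-!
MP_f04ccf_co, notes 16900, 16915, 16916 (LEMMA N): in the row test `T_z` the host `z` needs no excess of
its N-types (PC pairs and N-ends).  Homes of least weight (`2 r ≤ p`), packings `PkPP`.

* `tail_choice`, `tail_final`: the choice of the tail `j` (pure integers).
* `Fam.card_cls`: the points of the items of a row test in one other class part.
* `Fam.row_x`: the row test with a set `Y` of points of one other class part added.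
* `Pk.excess`, `Pk.sum_card_ntl`: the excess tail by tail; the number of the N-types is at most `mu`.
* `Pk.slot_hits`: a class point of the tail which is missed by the member `v` sees a point of every PC
  pair with this tail and every free missed point of `v`.
* `WCoreK.tzl`, `WCoreK.tzI`: `(r - 1) (s + k) ≤ (mu + k) (t + 2 (s + k) + 1) + ∑ rmr` for all items
  `K` of other hosts with `0 ≤ s + k`, `k = ∑ kp`.
-/

set_option autoImplicit false

namespace Pool.Agent.Lib.MP_f04ccf_co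

open Finset

attribute [local instance] Classical.propDecidable

/-- squares of nonnegative numbers -/
lemma tail_sum_sq {ι : Type*} (s : Finset ι) (f : ι → ℤ) (h : ∀ i ∈ s, 0 ≤ f i) :
    ∑ i ∈ s, f i ^ 2 ≤ (∑ i ∈ s, f i) ^ 2 := by
  have h1 : ∀ i ∈ s, f i ^ 2 ≤ f i * ∑ j ∈ s, f j := by
    intro i hi
    have h2 : f i ≤ ∑ j ∈ s, f j := single_le_sum h hi
    have h3 := mul_le_mul_of_nonneg_left h2 (h i hi)
    linarith [sq (f i)]
  have h2 := sum_le_sum h1
  rw [← sum_mul] at h2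
  linarith [sq (∑ i ∈ s, f i)]

/-- **the choice of the tail** (pure integers) -/
theorem tail_choice {ι : Type*} [DecidableEq ι] (J : Finset ι) (g G x : ι → ℤ)
    (hg : ∀ j ∈ J, 0 ≤ g j) (hgG : ∀ j ∈ J, g j ≤ G j) (hG : ∀ j ∈ J, 1 ≤ G j)
    (hx : ∀ j ∈ J, 1 ≤ x j)
    (hn : ∀ j ∈ J, 2 * (x j ^ 2 + g j * x j)
      ≤ 2 * ∑ i ∈ J, G i * x i - (∑ i ∈ J, G i) ^ 2 + ∑ i ∈ J, g i ^ 2) : J = ∅ := by
  by_contra hJ
  obtain ⟨i1, hi1, hmax⟩ := exists_max_image J x (nonempty_iff_ne_empty.2 hJ)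
  have hX := hx i1 hi1
  have hg1 := hg i1 hi1
  have hgG1 := hgG i1 hi1
  have hG1 := hG i1 hi1
  have h1 := hn i1 hi1
  rw [← add_sum_erase J (fun i => G i * x i) hi1, ← add_sum_erase J G hi1,
    ← add_sum_erase J (fun i => g i ^ 2) hi1] at h1
  have hP : ∑ i ∈ J.erase i1, G i * x i ≤ (∑ i ∈ J.erase i1, G i) * x i1 := by
    rw [sum_mul]
    refine sum_le_sum fun i hi => ?_
    have h2 := hmax i (mem_of_mem_erase hi)
    have h3 := hG i (mem_of_mem_erase hi)
    exact mul_le_mul_of_nonneg_left h2 (by linarith)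
  have hP0 : 0 ≤ ∑ i ∈ J.erase i1, G i := sum_nonneg fun i hi => by
    have := hG i (mem_of_mem_erase hi)
    linarith
  -- the inequality of the first tail
  have k1 : x i1 ^ 2 + (x i1 - (G i1 - g i1 + ∑ i ∈ J.erase i1, G i)) ^ 2
      + 2 * g i1 * (G i1 - g i1 + ∑ i ∈ J.erase i1, G i) ≤ ∑ i ∈ J.erase i1, g i ^ 2 := by
    nlinarith
  by_cases hJ1 : J.erase i1 = ∅
  · rw [hJ1] at k1
    simp only [sum_empty] at k1
    have h2 : 0 ≤ g i1 * (G i1 - g i1) := mul_nonneg hg1 (by linarith)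
    nlinarith [sq_nonneg (x i1 - (G i1 - g i1 + 0))]
  obtain ⟨a, ha, hmaxa⟩ := exists_max_image (J.erase i1) g (nonempty_iff_ne_empty.2 hJ1)
  have haJ := mem_of_mem_erase ha
  have hga := hg a haJ
  have hgGa := hgG a haJ
  have hGa := hG a haJ
  have hxa := hx a haJ
  have hxa1 := hmax a haJ
  -- largest square
  have k2 : ∑ i ∈ J.erase i1, g i ^ 2 ≤ g a * ∑ i ∈ J.erase i1, G i := by
    rw [mul_sum]
    refine sum_le_sum fun i hi => ?_
    have h2 := hmaxa i hi
    have h3 := hg i (mem_of_mem_erase hi)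
    have h4 := hgG i (mem_of_mem_erase hi)
    have h5 : g i * g i ≤ g a * G i := mul_le_mul h2 h4 h3 hga
    linarith [sq (g i)]
  have hsp : ∑ i ∈ J.erase i1, G i = G a + ∑ i ∈ (J.erase i1).erase a, G i :=
    (add_sum_erase (J.erase i1) G ha).symm
  have hH0 : 0 ≤ ∑ i ∈ (J.erase i1).erase a, G i := sum_nonneg fun i hi => by
    have := hG i (mem_of_mem_erase (mem_of_mem_erase hi))
    linarith
  have hq : ∑ i ∈ (J.erase i1).erase a, g i ^ 2 ≤ (∑ i ∈ (J.erase i1).erase a, G i) ^ 2 := by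
    have h2 := tail_sum_sq ((J.erase i1).erase a) g fun i hi =>
      hg i (mem_of_mem_erase (mem_of_mem_erase hi))
    have h3 : ∑ i ∈ (J.erase i1).erase a, g i ≤ ∑ i ∈ (J.erase i1).erase a, G i :=
      sum_le_sum fun i hi => hgG i (mem_of_mem_erase (mem_of_mem_erase hi))
    have h4 : 0 ≤ ∑ i ∈ (J.erase i1).erase a, g i := sum_nonneg fun i hi =>
      hg i (mem_of_mem_erase (mem_of_mem_erase hi))
    exact h2.trans (pow_le_pow_left₀ h4 h3 2)
  have hxH : ∑ i ∈ (J.erase i1).erase a, G i * x i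
      ≤ (∑ i ∈ (J.erase i1).erase a, G i) * x i1 := by
    rw [sum_mul]
    refine sum_le_sum fun i hi => ?_
    have h2 := hmax i (mem_of_mem_erase (mem_of_mem_erase hi))
    have h3 := hG i (mem_of_mem_erase (mem_of_mem_erase hi))
    exact mul_le_mul_of_nonneg_left h2 (by linarith)
  have h2 := hn a haJ
  rw [← add_sum_erase J (fun i => G i * x i) hi1, ← add_sum_erase J G hi1,
    ← add_sum_erase J (fun i => g i ^ 2) hi1,
    ← add_sum_erase (J.erase i1) (fun i => G i * x i) ha,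
    ← add_sum_erase (J.erase i1) (fun i => g i ^ 2) ha, hsp] at h2
  have hs2 : ∑ i ∈ J.erase i1, g i ^ 2 = g a ^ 2 + ∑ i ∈ (J.erase i1).erase a, g i ^ 2 :=
    (add_sum_erase (J.erase i1) (fun i => g i ^ 2) ha).symm
  rw [hsp] at k1 k2 hP0
  rw [hs2] at k1 k2
  generalize ∑ i ∈ (J.erase i1).erase a, G i * x i = S1 at *
  generalize ∑ i ∈ (J.erase i1).erase a, g i ^ 2 = S2 at *
  generalize ∑ i ∈ (J.erase i1).erase a, G i = H at *
  generalize g i1 = g1 at *
  generalize G i1 = G1 at *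
  generalize x i1 = X at *
  generalize g a = ga at *
  generalize G a = Ga at *
  generalize x a = xa at *
  -- X > Ga
  have k3 : Ga < X := by
    by_contra hc
    push Not at hc
    have e1 : 0 ≤ (G1 + H) * (Ga - X) := mul_nonneg (by linarith) (by linarith)
    have e2 : 0 ≤ ga * (Ga - ga) := mul_nonneg hga (by linarith)
    have e3 : g1 ^ 2 ≤ G1 ^ 2 := pow_le_pow_left₀ hg1 hgG1 2
    have e4 : 0 ≤ G1 * H := mul_nonneg (by linarith) hH0
    have e5 : 1 ≤ xa ^ 2 := by nlinarith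
    nlinarith [sq_nonneg (xa - (Ga - ga))]
  -- the largest g
  have k4 : G1 - g1 + (Ga + H) ≤ 2 * ga := by
    by_contra hc
    push Not at hc
    have e1 : 0 ≤ g1 * (G1 - g1 + (Ga + H)) := mul_nonneg hg1 (by linarith)
    have e2 : 0 ≤ ga * (G1 - g1) := mul_nonneg hga (by linarith)
    have e3 : 0 < (G1 - g1 + (Ga + H)) * (G1 - g1 + (Ga + H) - 2 * ga) :=
      mul_pos (by linarith) (by linarith)
    nlinarith [sq_nonneg (2 * X - (G1 - g1 + (Ga + H)))]
  -- the end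
  have e1 : 0 ≤ g1 * (G1 - g1 + (Ga + H)) := mul_nonneg hg1 (by linarith)
  have e2 : ga ^ 2 ≤ Ga ^ 2 := pow_le_pow_left₀ hga hgGa 2
  set u : ℤ := G1 - g1 + (Ga + H) - X with hu
  have e3 : u ^ 2 < H ^ 2 := by nlinarith
  have e4 : u < H := by
    by_contra hc
    push Not at hc
    nlinarith
  have e5 : X = (G1 - g1) + (Ga + H) - u := by
    rw [hu]
    ring
  have e6 : X ^ 2 + u ^ 2 ≤ ga ^ 2 + H ^ 2 := by nlinarith
  have e7 : Ga + (H - u) ≤ X := by linarith
  have e8 : (Ga + (H - u)) ^ 2 ≤ X ^ 2 := pow_le_pow_left₀ (by linarith) e7 2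
  have e9 : (H - u) * (Ga - u) ≤ 0 := by nlinarith
  have e10 : Ga ≤ u := by
    by_contra hc
    push Not at hc
    have := mul_pos (by linarith : 0 < H - u) (by linarith : 0 < Ga - u)
    linarith
  linarith

/-- **the choice of the tail, final form** -/
theorem tail_final {ι : Type*} [DecidableEq ι] (A : Finset ι) (g G κ : ι → ℤ) {mu m Δ : ℤ}
    (hg : ∀ j ∈ A, 0 ≤ g j) (hgG : ∀ j ∈ A, g j ≤ G j) (hm : 1 ≤ m)
    (hmu : ∑ j ∈ A, G j ≤ mu)
    (hΔ : 2 * mu * m + mu * (mu + 1) ≤ Δ + ∑ j ∈ A, g j * (g j + 1) + 2 * ∑ j ∈ A, G j * κ j)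
    (hneg : Δ < 0)
    (hj : ∀ j ∈ A, 1 ≤ G j → m < κ j → ∃ g' : ℤ, 0 ≤ g' ∧ g' ≤ m ∧
      Δ + 2 * ((κ j - g') * (κ j - 1 - m + g j + g')) < 0) : False := by
  set J : Finset ι := A.filter fun j => 1 ≤ G j ∧ m < κ j with hJ
  have hJA : J ⊆ A := filter_subset _ _
  have hsplit : ∀ f : ι → ℤ, ∑ j ∈ A, f j = ∑ j ∈ J, f j + ∑ j ∈ A \ J, f j := fun f => by
    rw [add_comm]
    exact (sum_sdiff hJA).symm
  have hG0 : ∀ j ∈ A, 0 ≤ G j := fun j hj => (hg j hj).trans (hgG j hj)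
  have hΓJ : 0 ≤ ∑ j ∈ J, G j := sum_nonneg fun j hj => hG0 j (hJA hj)
  have hΓr : 0 ≤ ∑ j ∈ A \ J, G j := sum_nonneg fun j hj => hG0 j (mem_sdiff.1 hj).1
  have hsq : ∑ j ∈ A \ J, g j ^ 2 ≤ (∑ j ∈ A \ J, G j) ^ 2 := by
    have h2 := tail_sum_sq (A \ J) g fun i hi => hg i (mem_sdiff.1 hi).1
    have h3 : ∑ i ∈ A \ J, g i ≤ ∑ i ∈ A \ J, G i :=
      sum_le_sum fun i hi => hgG i (mem_sdiff.1 hi).1
    have h4 : 0 ≤ ∑ i ∈ A \ J, g i := sum_nonneg fun i hi => hg i (mem_sdiff.1 hi).1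
    exact h2.trans (pow_le_pow_left₀ h4 h3 2)
  have hgr : ∑ j ∈ A \ J, g j ≤ ∑ j ∈ A \ J, G j :=
    sum_le_sum fun i hi => hgG i (mem_sdiff.1 hi).1
  have hκr : ∑ j ∈ A \ J, G j * κ j ≤ m * ∑ j ∈ A \ J, G j := by
    rw [mul_sum]
    refine sum_le_sum fun i hi => ?_
    obtain ⟨h1, h2⟩ := mem_sdiff.1 hi
    have h3 := hG0 i h1
    by_cases h4 : 1 ≤ G i
    · have h5 : κ i ≤ m := by
        by_contra h6
        push Not at h6
        exact h2 (mem_filter.2 ⟨h1, h4, h6⟩)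
      nlinarith [mul_nonneg h3 (by linarith : 0 ≤ m - κ i)]
    · have h5 : G i = 0 := by omega
      rw [h5]
      simp
  have e1 : ∑ j ∈ J, G j * κ j = ∑ j ∈ J, G j * (κ j - m) + m * ∑ j ∈ J, G j := by
    rw [mul_sum, ← sum_add_distrib]
    exact sum_congr rfl fun j _ => by ring
  have e2 : ∀ s : Finset ι, ∑ j ∈ s, g j * (g j + 1) = ∑ j ∈ s, g j ^ 2 + ∑ j ∈ s, g j := by
    intro s
    rw [← sum_add_distrib]
    exact sum_congr rfl fun j _ => by ring
  -- the restriction to `J`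
  have key : (∑ j ∈ J, G j) ^ 2 - ∑ j ∈ J, g j ^ 2 + (∑ j ∈ J, G j - ∑ j ∈ J, g j)
      - 2 * ∑ j ∈ J, G j * (κ j - m) ≤ Δ := by
    rw [e2, hsplit fun j => G j * κ j, hsplit fun j => g j ^ 2, hsplit g, e1] at hΔ
    rw [hsplit G] at hmu
    have h1 : 0 ≤ (mu - (∑ j ∈ J, G j + ∑ j ∈ A \ J, G j))
        * (2 * m + mu + (∑ j ∈ J, G j + ∑ j ∈ A \ J, G j) + 1) :=
      mul_nonneg (by linarith) (by linarith)
    have h2 : 0 ≤ (∑ j ∈ J, G j) * ∑ j ∈ A \ J, G j := mul_nonneg hΓJ hΓr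
    generalize ∑ j ∈ J, G j * (κ j - m) = a1 at *
    generalize ∑ j ∈ A \ J, G j * κ j = a2 at *
    generalize ∑ j ∈ A \ J, g j ^ 2 = a3 at *
    generalize ∑ j ∈ J, g j ^ 2 = a4 at *
    generalize ∑ j ∈ A \ J, g j = a5 at *
    generalize ∑ j ∈ J, g j = a6 at *
    generalize ∑ j ∈ A \ J, G j = a7 at *
    generalize ∑ j ∈ J, G j = a8 at *
    nlinarith
  have hJe : J = ∅ := by
    refine tail_choice J g G (fun j => κ j - m) (fun j hj => hg j (hJA hj))
      (fun j hj => hgG j (hJA hj)) (fun j hj => (mem_filter.1 hj).2.1)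
      (fun j hj => by
        have := (mem_filter.1 hj).2.2
        show 1 ≤ κ j - m
        omega) fun j hjJ => ?_
    obtain ⟨h1, h2, h3⟩ := mem_filter.1 hjJ
    obtain ⟨g', h4, h5, h6⟩ := hj j h1 h2 h3
    have h7 : G j - g j ≤ ∑ i ∈ J, G i - ∑ i ∈ J, g i := by
      rw [← sum_sub_distrib]
      exact single_le_sum (f := fun i => G i - g i) (fun i hi => by
        have := hgG i (hJA hi)
        show 0 ≤ G i - g i
        linarith) hjJ
    have h8 : 0 ≤ ∑ i ∈ J, G i - ∑ i ∈ J, g i := by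
      have := hgG j h1
      linarith
    have h9 := hg j h1
    show 2 * ((κ j - m) ^ 2 + g j * (κ j - m)) ≤ _
    generalize ∑ j ∈ J, G j * (κ j - m) = a1 at *
    generalize ∑ j ∈ J, g j ^ 2 = a4 at *
    generalize ∑ j ∈ J, g j = a6 at *
    generalize ∑ j ∈ J, G j = a8 at *
    obtain ⟨x, hx⟩ : ∃ x, x = κ j - m := ⟨_, rfl⟩
    have hx1 : 1 ≤ x := by omega
    rw [← hx]
    have e3 : (κ j - g') * (κ j - 1 - m + g j + g') = (x + (m - g')) * (x - 1 + g j + g') := by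
      rw [hx]
      ring
    rw [e3] at h6
    by_cases h10 : 1 ≤ g j + g'
    · have h11 : 0 ≤ (m - g') * (g j + g' - 1) := mul_nonneg (by linarith) (by linarith)
      have h12 : 0 ≤ (m - 1) * x := mul_nonneg (by linarith) (by linarith)
      nlinarith
    · have h11 : g j = 0 := by omega
      have h12 : g' = 0 := by omega
      rw [h11, h12] at h6
      rw [h11] at h7 ⊢
      have h13 : 0 ≤ (m - 1) * (x - 1) := mul_nonneg (by linarith) (by linarith)
      nlinarith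
  rw [hJe] at key
  simp only [sum_empty] at key
  nlinarith

section RowX

variable {V : Type*} {G : SimpleGraph V} {Z T : Finset V} {hm : V → V} {r m t : ℕ}
  {A : Finset V} {S : V → Finset V} {U : V → Finset (Itm V)}

/-- a set together with a clique `Y`: every point of `Y` is adjacent to all points of `D` -/
lemma NE_add_clq {W Y D : Finset V} (hd : Disjoint W Y) (hY : Clq G Y) (hD : D ⊆ W)
    (hadj : ∀ y ∈ Y, ∀ d ∈ D, G.Adj y d) :
    (NE G (W ∪ Y) : ℤ) ≤ (W.card : ℤ) * (W.card - 1) + 2 * Y.card * ((W.card : ℤ) - D.card) := by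
  have h1 := NE_union (G := G) hd
  rw [NE_clq hY, add_zero] at h1
  have h2 := NE_le_self (G := G) W
  have h3 : ∀ y ∈ Y, nd G W y + D.card ≤ W.card := by
    intro y hy
    have h4 : W.filter (fun w => w ≠ y ∧ ¬ G.Adj y w) ⊆ W \ D := by
      intro w hw
      obtain ⟨h5, -, h6⟩ := mem_filter.1 hw
      exact mem_sdiff.2 ⟨h5, fun h7 => h6 (hadj y hy w h7)⟩
    have h5 := card_le_card h4
    have h6 := card_sdiff_add_card_eq_card hD
    unfold nd
    omega
  have h4 : ∑ y ∈ Y, (nd G W y : ℤ) ≤ Y.card * ((W.card : ℤ) - D.card) := by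
    rw [← nsmul_eq_mul, ← sum_const]
    refine sum_le_sum fun y hy => ?_
    have := h3 y hy
    omega
  have h5 : (NE G (W ∪ Y) : ℤ) = NE G W + 2 * ∑ y ∈ Y, (nd G W y : ℤ) := by exact_mod_cast h1
  rw [h5]
  linarith

/-- at most one class point of each item which is used at a row -/
lemma Fam.card_cls (hW : WSysT G (co G) A (CP G Z T S) (HP G Z T S) (tlo G T hm))
    (h : ∀ x ∈ A, Fam (co G) (CP G Z T S) (HP G Z T S) (tlo G T hm) x (U x))
    {z j : V} (hj : j ∈ A) {K : Finset (Itm V)} (hK : K ⊆ (A.erase z).biUnion U)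
    (hk : ∀ u ∈ K, ikp (tlo G T hm) z u ≠ 0) {X : Finset V → Finset V}
    (hX : ∀ Q, X Q ⊆ oth (tlo G T hm) z Q) :
    ((K.biUnion (rpts (tlo G T hm) X z)) ∩ CP G Z T S j).card
      ≤ ∑ u ∈ K, ikp (tlo G T hm) z u := by
  rw [biUnion_inter]
  refine card_biUnion_le.trans (sum_le_sum fun u hu => ?_)
  obtain ⟨y, hy, huy⟩ := mem_biUnion.1 (hK hu)
  have hyA := mem_of_mem_erase hy
  have hf := h y hyA
  have hku := hk u hu
  have hHC : ∀ v, v ∈ HP G Z T S y → v ∈ CP G Z T S j → False := fun v h1 h2 =>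
    disjoint_left.1 (hW.dHC y hyA j hj) h1 h2
  rcases u with Q | e
  · have h1 : rpts (tlo G T hm) X z (Sum.inl Q) ∩ CP G Z T S j = ∅ := by
      rw [eq_empty_iff_forall_notMem]
      intro v hv
      obtain ⟨h2, h3⟩ := mem_inter.1 hv
      have h4 := hf.rpts_sub (z := z) hX h2
      exact hHC v (hf.sub Q huy h4) h3
    rw [h1, card_empty]
    exact Nat.zero_le _
  · have h1 : rpts (tlo G T hm) X z (Sum.inr e) ∩ CP G Z T S j ⊆ {e.2} := by
      intro v hv
      obtain ⟨h2, h3⟩ := mem_inter.1 hv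
      simp only [rpts] at h2
      rcases mem_insert.1 h2 with rfl | h2
      · exact absurd h3 fun h4 => hHC _ (hf.pcH e huy) h4
      · exact h2
    have h2 := card_le_card h1
    rw [card_singleton] at h2
    omega

/-- **the row test with a set `Y` of points of one other class part**, which see `q` points of the
slot -/
theorem Fam.row_x (hF : PFrame G r m t Z T) (hP : PG G r) (hC : CSys G Z T hm A S)
    (hW : WSysT G (co G) A (CP G Z T S) (HP G Z T S) (tlo G T hm))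
    (h : ∀ x ∈ A, Fam (co G) (CP G Z T S) (HP G Z T S) (tlo G T hm) x (U x))
    {z j : V} (hz : z ∈ A) (hj : j ∈ A.erase z) {K : Finset (Itm V)}
    (hK : K ⊆ (A.erase z).biUnion U)
    (hk : ∀ u ∈ K, ikp (tlo G T hm) z u ≠ 0)
    {X : Finset V → Finset V} (hX : ∀ Q, X Q ⊆ oth (tlo G T hm) z Q) (hX1 : ∀ Q, (X Q).card ≤ 1)
    {Y : Finset V} (hY : Y ⊆ CP G Z T S j)
    (hYW : Disjoint (K.biUnion (rpts (tlo G T hm) X z)) Y) {q : ℤ}
    (hq : ∀ y ∈ Y, q ≤ (dg G (S z) y : ℤ))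
    (h0 : 0 ≤ ((S z).card : ℤ) - r + 1 + ∑ u ∈ K, (ikp (tlo G T hm) z u : ℤ)) :
    2 * ((r : ℤ) - 1) * (((S z).card : ℤ) - r)
      + 2 * ∑ u ∈ K, (((CP G Z T S z).card : ℤ) * ikp (tlo G T hm) z u
          - (rcl G (CP G Z T S) (tlo G T hm) X z u).card)
      + 2 * (Y.card * (q + (((K.biUnion (rpts (tlo G T hm) X z)) ∩ CP G Z T S j).card : ℤ)
          - (((S z).card : ℤ) - r + 1) - 2 * ∑ u ∈ K, (ikp (tlo G T hm) z u : ℤ)))
      ≤ NE G (S z) + 4 * (∑ u ∈ K, (ikp (tlo G T hm) z u : ℤ)) * (((S z).card : ℤ) - r + 1)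
        + 2 * (∑ u ∈ K, (ikp (tlo G T hm) z u : ℤ))
          * (2 * (∑ u ∈ K, (ikp (tlo G T hm) z u : ℤ)) - 1) := by
  have hjA := mem_of_mem_erase hj
  have hjz := ne_of_mem_erase hj
  set W : Finset V := K.biUnion (rpts (tlo G T hm) X z) with hWd
  have hK' : K ⊆ (A \ {z}).biUnion U := by
    rwa [sdiff_singleton_eq_erase]
  have hfil : (K.filter fun u => ikp (tlo G T hm) z u ≠ 0) = K := filter_true_of_mem hk
  have hg := Fam.grp hW h (D := A.erase z) (erase_subset _ _) hK (z := z) hX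
  rw [hfil] at hg
  have hsb : ({z} : Finset V) ⊆ A := by
    simpa using hz
  have hSW : Disjoint (S z) W := by
    have h2 := Fam.disj_pts hC h hsb hK' (mem_singleton_self z)
    refine h2.mono_right (biUnion_mono fun u hu => ?_)
    obtain ⟨y, hy, huy⟩ := mem_biUnion.1 (hK hu)
    exact (h y (mem_of_mem_erase hy)).rpts_sub hX
  have hSY : Disjoint (S z) Y := by
    refine ((hC.disj hz hjA hjz.symm).mono_right fun v hv => ?_)
    exact (mem_CP.1 (hY hv)).1
  have h1 := hC.tst hP hsb (W := W ∪ Y) (fun x hx => by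
    rw [mem_singleton.1 hx]
    exact disjoint_union_right.2 ⟨hSW, hSY⟩)
  have hYc : Clq G Y := fun a ha b hb hab => hC.CP_clq hF hjA a (hY ha) b (hY hb) hab
  have h2 := NE_add_clq (G := G) (W := W) (Y := Y) (D := W ∩ CP G Z T S j) hYW hYc
    inter_subset_left (by
      intro y hy d hd
      obtain ⟨hd1, hd2⟩ := mem_inter.1 hd
      refine hC.CP_clq hF hjA y (hY hy) d hd2 ?_
      rintro rfl
      exact disjoint_left.1 hYW hd1 hy)
  have h3 : ((W ∪ Y).card : ℤ) = W.card + Y.card := by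
    rw [card_union_of_disjoint hYW]
    push_cast
    rfl
  -- the hits
  have h4 : ∑ u ∈ K, (((CP G Z T S z).card : ℤ) * ikp (tlo G T hm) z u
      - (rcl G (CP G Z T S) (tlo G T hm) X z u).card) ≤ ∑ v ∈ W, (dg G (S z) v : ℤ) := by
    have h5 := hg.sum_le (W := W) subset_rfl
    simp only [sum_rcl] at h5
    refine h5.trans ?_
    have h6 : ∑ c ∈ CP G Z T S z, (dg G W c : ℤ) = ∑ v ∈ W, (dg G (CP G Z T S z) v : ℤ) := by
      have := dg_comm G (CP G Z T S z) W
      exact_mod_cast this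
    rw [h6]
    refine sum_le_sum fun v _ => ?_
    unfold dg
    exact_mod_cast card_le_card (filter_subset_filter _ fun c hc => (mem_CP.1 hc).1)
  have h5 : Y.card * q ≤ ∑ v ∈ Y, (dg G (S z) v : ℤ) := by
    rw [← nsmul_eq_mul, ← sum_const]
    exact sum_le_sum hq
  -- the number of points
  have h6 : ∀ u ∈ K, 1 ≤ (rpts (tlo G T hm) X z u).card ∧
      (rpts (tlo G T hm) X z u).card ≤ 2 * ikp (tlo G T hm) z u := by
    intro u hu
    obtain ⟨y, hy, huy⟩ := mem_biUnion.1 (hK hu)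
    have hf := h y (mem_of_mem_erase hy)
    have hku := hk u hu
    rcases u with Q | e
    · have h2 := hf.two Q huy
      have h3 : (rpts (tlo G T hm) X z (Sum.inl Q)).card
          ≤ (tlp (tlo G T hm) Q z).card + (X Q).card := card_union_le _ _
      have h4 : (tlp (tlo G T hm) Q z).card ≤ (rpts (tlo G T hm) X z (Sum.inl Q)).card :=
        card_le_card subset_union_left
      have h5 := hX1 Q
      by_cases hone : tlp (tlo G T hm) Q z = Q
      · have h6 : X Q = ∅ := by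
          have h7 : oth (tlo G T hm) z Q = ∅ := by
            unfold oth
            rw [hone, sdiff_self]
            rfl
          have := hX Q
          rw [h7] at this
          exact subset_empty.1 this
        have h7 : ikp (tlo G T hm) z (Sum.inl Q) = Q.card - 1 := by
          simp only [ikp, hone, if_true]
        rw [h7]
        rw [h6, card_empty, hone] at h3
        rw [hone] at h4
        omega
      · have h7 : ikp (tlo G T hm) z (Sum.inl Q) = (tlp (tlo G T hm) Q z).card := by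
          simp only [ikp, hone, if_false]
        rw [h7] at hku ⊢
        omega
    · have h3 : ikp (tlo G T hm) z (Sum.inr e) = 1 := by
        by_cases h4 : tlo G T hm e.1 = z
        · simp only [ikp, h4, if_true]
        · exact absurd (by simp only [ikp, h4, if_false]) hku
      rw [h3]
      simp only [rpts]
      exact ⟨card_pos.2 ⟨e.1, mem_insert_self _ _⟩, card_le_two⟩
  have h7 : (W.card : ℤ) = ∑ u ∈ K, ((rpts (tlo G T hm) X z u).card : ℤ) := by
    have : W.card = ∑ u ∈ K, (rpts (tlo G T hm) X z u).card := card_biUnion hg.dis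
    rw [this]
    push_cast
    rfl
  have h8 : (W.card : ℤ) ≤ 2 * ∑ u ∈ K, (ikp (tlo G T hm) z u : ℤ) := by
    rw [h7, mul_sum]
    exact sum_le_sum fun u hu => by exact_mod_cast (h6 u hu).2
  have h9 : (K.card : ℤ) ≤ W.card := by
    rw [h7, card_eq_sum_ones]
    push_cast
    exact sum_le_sum fun u hu => by exact_mod_cast (h6 u hu).1
  simp only [sum_singleton, card_singleton, erase_singleton, sum_empty, Nat.cast_one, sub_self,
    mul_zero, zero_mul, add_zero] at h1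
  rw [h3, sum_union hYW] at h1
  have hy0 : (0 : ℤ) ≤ Y.card := Nat.cast_nonneg _
  have hw0 : (0 : ℤ) ≤ W.card := Nat.cast_nonneg _
  set w : ℤ := (W.card : ℤ) with hw
  set v : ℤ := ∑ u ∈ K, (ikp (tlo G T hm) z u : ℤ) with hv
  have h10 : 0 ≤ (2 * v - w) * (2 * (((S z).card : ℤ) - r + 1) + 2 * v + w - 1) := by
    rcases K.eq_empty_or_nonempty with hK0 | hK0
    · have e1 : w = 0 := by
        rw [h7, hK0]
        simp
      have e2 : v = 0 := by
        rw [hv, hK0]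
        simp
      rw [e1, e2]
      simp
    · have e1 : (1 : ℤ) ≤ K.card := by exact_mod_cast card_pos.2 hK0
      exact mul_nonneg (by linarith) (by linarith)
  have h11 : 0 ≤ (2 * v - w) * Y.card := mul_nonneg (by linarith) hy0
  generalize (((W ∩ CP G Z T S j).card : ℕ) : ℤ) = d at *
  generalize ((Y.card : ℕ) : ℤ) = y at *
  generalize ∑ v ∈ W, (dg G (S z) v : ℤ) = a1 at *
  generalize ∑ v ∈ Y, (dg G (S z) v : ℤ) = a2 at *
  generalize ((NE G (W ∪ Y) : ℕ) : ℤ) = a3 at *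
  generalize ((NE G (S z) : ℕ) : ℤ) = a4 at *
  generalize ∑ u ∈ K, (((CP G Z T S z).card : ℤ) * ikp (tlo G T hm) z u
          - (rcl G (CP G Z T S) (tlo G T hm) X z u).card) = a5 at *
  generalize (((S z).card : ℕ) : ℤ) = sz at *
  generalize (r : ℤ) = ρ at *
  nlinarith

end RowX

section NT

variable {ι V : Type*} {G : SimpleGraph V} {C H : Finset V} {tl : V → ι}
  {B : Finset (V × V)} {Ps : Finset (Finset V)}

variable (G) in
/-- the N-types with tail `j`: the members of the PC pairs and the N-ends with this tail -/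
noncomputable def ntl (C H : Finset V) (tl : V → ι) (B : Finset (V × V)) (j : ι) : Finset V :=
  (btl tl B j).image Prod.fst ∪ nez G C H tl B j

variable (G) in
/-- the largest number of free arcs of an N-type with tail `j` -/
noncomputable def kpl (C H : Finset V) (tl : V → ι) (B : Finset (V × V)) (j : ι) : ℕ :=
  (ntl G C H tl B j).sup fun v => (frC G C tl B v).card

lemma Pk.btl_inj (h : Pk G C H tl B Ps) (j : ι) :
    Set.InjOn Prod.fst (btl tl B j : Set (V × V)) := fun e he f hf hef =>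
  h.b1 e (mem_btl.1 (mem_coe.1 he)).1 f (mem_btl.1 (mem_coe.1 hf)).1 hef

lemma ntl_disj (j : ι) : Disjoint ((btl tl B j).image Prod.fst) (nez G C H tl B j) := by
  rw [disjoint_left]
  intro v hv hv'
  obtain ⟨e, he, rfl⟩ := mem_image.1 hv
  obtain ⟨h1, -⟩ := mem_filter.1 hv'
  exact (mem_sdiff.1 (mem_Nend.1 h1).1).2 (mem_image_of_mem _ (mem_btl.1 he).1)

lemma Pk.card_ntl (h : Pk G C H tl B Ps) (j : ι) :
    (ntl G C H tl B j).card = (btl tl B j).card + (nez G C H tl B j).card := by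
  unfold ntl
  rw [card_union_of_disjoint (ntl_disj j), card_image_of_injOn (h.btl_inj j)]

lemma Pk.ntl_sub (h : Pk G C H tl B Ps) {j : ι} {v : V} (hv : v ∈ ntl G C H tl B j) :
    v ∈ H ∧ tl v = j := by
  rcases mem_union.1 hv with h1 | h1
  · obtain ⟨e, he, rfl⟩ := mem_image.1 h1
    exact ⟨h.bH e (mem_btl.1 he).1, (mem_btl.1 he).2⟩
  · obtain ⟨h2, h3⟩ := mem_filter.1 h1
    exact ⟨(mem_sdiff.1 (mem_Nend.1 h2).1).1, h3⟩

/-- the free arcs of the N-types with tail `j` -/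
lemma Pk.sum_ntl (h : Pk G C H tl B Ps) (j : ι) :
    ∑ e ∈ btl tl B j, ((frC G C tl B e.1).card : ℤ) + ∑ v ∈ nez G C H tl B j,
      ((frC G C tl B v).card : ℤ) ≤ ((ntl G C H tl B j).card : ℤ) * kpl G C H tl B j := by
  have h1 : ∑ e ∈ btl tl B j, ((frC G C tl B e.1).card : ℤ)
      = ∑ v ∈ (btl tl B j).image Prod.fst, ((frC G C tl B v).card : ℤ) :=
    (sum_image (f := fun v => ((frC G C tl B v).card : ℤ)) fun e he f hf hef =>
      h.btl_inj j he hf hef).symm
  rw [h1, ← sum_union (ntl_disj j), ← nsmul_eq_mul, ← sum_const]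
  refine sum_le_sum fun v hv => ?_
  have h2 : (frC G C tl B v).card ≤ (ntl G C H tl B j).sup fun v => (frC G C tl B v).card :=
    le_sup (f := fun v => (frC G C tl B v).card) hv
  exact_mod_cast h2

/-- **the excess of a packing, tail by tail** -/
theorem Pk.excess (h : Pk G C H tl B Ps) {Y : Finset ι} (hY : ∀ v ∈ H, tl v ∈ Y) :
    nbk G C H tl B Ps + 2 * ∑ j ∈ Y, nxk G C H tl B j
      ≤ ∑ j ∈ Y, ((btl tl B j).card : ℤ) * ((btl tl B j).card + 1)
        + 2 * ∑ j ∈ Y, ((ntl G C H tl B j).card : ℤ) * kpl G C H tl B j := by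
  have hB : ∀ e ∈ B, tl e.1 ∈ Y := fun e he => hY _ (h.bH e he)
  have h1 : (bothB G tl B : ℤ) = ∑ j ∈ Y, (bothB G tl (btl tl B j) : ℤ) := by
    rw [bothB_tail Y hB, Nat.cast_sum]
  have h2 := sum_B_tail Y hB fun e : V × V => (1 + ((frC G C tl B e.1).card : ℤ))
  have h3 : (0 : ℤ) ≤ ∑ e ∈ B, ((Ps.card - Pk.uin G tl (H \ B.image Prod.fst) e : ℕ) : ℤ) :=
    sum_nonneg fun _ _ => Nat.cast_nonneg _
  have h4 : ∀ j ∈ Y, 2 * ∑ e ∈ btl tl B j, (1 + ((frC G C tl B e.1).card : ℤ))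
      + (bothB G tl (btl tl B j) : ℤ) + 2 * nxk G C H tl B j
      ≤ ((btl tl B j).card : ℤ) * ((btl tl B j).card + 1)
        + 2 * (((ntl G C H tl B j).card : ℤ) * kpl G C H tl B j) := by
    intro j _
    have e1 := bothB_le (G := G) (tl := tl) (btl tl B j)
    have e2 := two_nxk (G := G) C H tl B j
    have e3 := h.sum_ntl j
    have e4 : (0 : ℤ) ≤ E G (nez G C H tl B j) := Nat.cast_nonneg _
    have e5 : ∑ e ∈ btl tl B j, (1 + ((frC G C tl B e.1).card : ℤ))
        = (btl tl B j).card + ∑ e ∈ btl tl B j, ((frC G C tl B e.1).card : ℤ) := by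
      rw [sum_add_distrib, sum_const, nsmul_eq_mul, mul_one]
    rw [e5]
    linarith
  have h5 := sum_le_sum h4
  simp only [sum_add_distrib, ← mul_sum] at h5
  unfold nbk
  rw [h1, h2]
  simp only [sum_add_distrib]
  linarith

/-- **the number of N-types is at most the value** -/
theorem Pk.sum_card_ntl (h : Pk G C H tl B Ps)
    (hmin : ∀ B' Ps', Pk G C H tl B' Ps' → Ps.card ≤ Ps'.card)
    (h32 : ∀ v ∈ H, ∀ w ∈ H, ∀ a ∈ C, v ≠ w → tl v = tl w →
      ¬ G.Adj v a → ¬ G.Adj w a → G.Adj v w) {Y : Finset ι} (hY : ∀ v ∈ H, tl v ∈ Y) :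
    ∑ j ∈ Y, (ntl G C H tl B j).card + Ps.card ≤ H.card := by
  have h1 : ∑ j ∈ Y, (ntl G C H tl B j).card = B.card + (Nend G C H tl B).card := by
    rw [sum_congr rfl fun j _ => h.card_ntl j, sum_add_distrib]
    congr 1
    · exact (card_eq_sum_card_fiberwise (f := fun e : V × V => tl e.1) (t := Y) fun e he => by
        exact_mod_cast hY _ (h.bH e (by exact_mod_cast he))).symm
    · exact (card_eq_sum_card_fiberwise (f := tl) (t := Y) fun v hv => by
        have h2 : v ∈ Nend G C H tl B := by exact_mod_cast hv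
        exact_mod_cast hY _ (mem_sdiff.1 (mem_Nend.1 h2).1).1).symm
  have h2 : ∀ P ∈ Ps, ∃ v, v ∈ P ∧ ¬ (frC G C tl B v).Nonempty := fun P hP => by
    obtain ⟨v, h3, h4⟩ := h.home hmin h32 hP
    exact ⟨v, h3, h4⟩
  have h3 : Ps.card ≤ ((H \ B.image Prod.fst) \ Nend G C H tl B).card := by
    rcases Ps.eq_empty_or_nonempty with h0 | ⟨P0, hP0⟩
    · rw [h0, card_empty]
      exact Nat.zero_le _
    obtain ⟨v0, -, -⟩ := h2 P0 hP0
    have : Nonempty V := ⟨v0⟩
    choose! f hf1 hf2 using h2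
    refine card_le_card_of_injOn f ?_ ?_
    · intro P hP
      have hP' : P ∈ Ps := by exact_mod_cast hP
      have h4 : f P ∈ (H \ B.image Prod.fst) \ Nend G C H tl B := by
        refine mem_sdiff.2 ⟨?_, fun h5 => hf2 P hP' (mem_Nend.1 h5).2⟩
        rw [h.union_eq, mem_biUnion]
        exact ⟨P, hP', hf1 P hP'⟩
      exact_mod_cast h4
    · intro P hP Q hQ hPQ
      have hP' : P ∈ Ps := by exact_mod_cast hP
      have hQ' : Q ∈ Ps := by exact_mod_cast hQ
      exact h.part_eq hP' hQ' (hf1 P hP') (hPQ ▸ hf1 Q hQ')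
  have h4 : Nend G C H tl B ⊆ H \ B.image Prod.fst := fun v hv => (mem_Nend.1 hv).1
  have h5 := card_sdiff_add_card_eq_card h4
  have h6 := card_sdiff_add_card_eq_card h.W_sub
  have h7 := h.card_W
  omega

end NT

section TzL

variable {V : Type*} {G : SimpleGraph V} {Z T : Finset V} {hm : V → V} {r m t n p : ℕ}
  {A : Finset V} {S : V → Finset V}

/-- **a class point of the tail `j` which is missed by the member `v` of `z` sees a point of every
PC pair with tail `j` and every free missed point of `v`** -/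
lemma Pk.slot_hits {B : Finset (V × V)} {Ps : Finset (Finset V)}
    (hW : WSysT G (co G) A (CP G Z T S) (HP G Z T S) (tlo G T hm)) {z : V} (hz : z ∈ A)
    (hpk : Pk G (CP G Z T S z) (HP G Z T S z) (tlo G T hm) B Ps) {v y : V}
    (hv : v ∈ HP G Z T S z) (hy : y ∈ CP G Z T S (tlo G T hm v)) (hvy : ¬ G.Adj v y) :
    (btl (tlo G T hm) B (tlo G T hm v)).card + (frC G (CP G Z T S z) (tlo G T hm) B v).card
      ≤ dg G (S z) y := by
  have hHC : ∀ w, w ∈ HP G Z T S z → w ∈ CP G Z T S z → False := fun w h1 h2 =>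
    disjoint_left.1 (hW.dHC z hz z hz) h1 h2
  have hne : ∀ w ∈ HP G Z T S z, ∀ a ∈ CP G Z T S z, w ≠ a := fun w h1 a h2 h3 =>
    hHC w h1 (h3 ▸ h2)
  set D := btl (tlo G T hm) B (tlo G T hm v) with hD
  set f : V × V → V := fun e => if G.Adj y e.1 then e.1 else e.2 with hf
  have hor : ∀ e ∈ D, G.Adj y e.1 ∨ G.Adj y e.2 := by
    intro e he
    obtain ⟨h1, h2⟩ := mem_btl.1 he
    have h3 := (hW.pc z hz e.1 (hpk.bH e h1) e.2 (hpk.bC e h1)
      (co_adj.2 ⟨hne _ (hpk.bH e h1) _ (hpk.bC e h1), hpk.bN e h1⟩)).2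
    rw [h2] at h3
    exact h3 y hy
  have hcase : ∀ e ∈ D, (f e = e.1 ∧ G.Adj y e.1) ∨ (f e = e.2 ∧ G.Adj y e.2) := by
    intro e he
    by_cases h1 : G.Adj y e.1
    · exact Or.inl ⟨if_pos h1, h1⟩
    · rcases hor e he with h2 | h2
      · exact absurd h2 h1
      · exact Or.inr ⟨if_neg h1, h2⟩
  have h1 : (D.image f).card = D.card := by
    refine card_image_of_injOn fun e he g hg heg => ?_
    have he' : e ∈ D := mem_coe.1 he
    have hg' : g ∈ D := mem_coe.1 hg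
    obtain ⟨e1, e2⟩ := mem_btl.1 he'
    obtain ⟨g1, g2⟩ := mem_btl.1 hg'
    have heg' : f e = f g := heg
    rcases hcase e he' with ⟨h3, -⟩ | ⟨h3, -⟩ <;> rcases hcase g hg' with ⟨h4, -⟩ | ⟨h4, -⟩ <;>
      rw [h3, h4] at heg'
    · exact hpk.b1 e e1 g g1 heg'
    · exact absurd heg' (hne _ (hpk.bH e e1) _ (hpk.bC g g1))
    · exact absurd heg'.symm (hne _ (hpk.bH g g1) _ (hpk.bC e e1))
    · exact hpk.b2 e e1 g g1 heg' (e2.trans g2.symm)
  have h2 : Disjoint (D.image f) (frC G (CP G Z T S z) (tlo G T hm) B v) := by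
    rw [disjoint_left]
    intro a ha ha'
    obtain ⟨e, he, rfl⟩ := mem_image.1 ha
    obtain ⟨e1, e2⟩ := mem_btl.1 he
    obtain ⟨a1, -, a3⟩ := mem_frC.1 ha'
    rcases hcase e he with ⟨h3, -⟩ | ⟨h3, -⟩
    · rw [h3] at a1
      exact hHC _ (hpk.bH e e1) a1
    · exact a3 e e1 h3.symm e2
  rw [← h1, ← card_union_of_disjoint h2]
  refine card_le_card fun a ha => ?_
  rcases mem_union.1 ha with h3 | h3
  · obtain ⟨e, he, rfl⟩ := mem_image.1 h3
    obtain ⟨e1, e2⟩ := mem_btl.1 he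
    rcases hcase e he with ⟨h4, h5⟩ | ⟨h4, h5⟩
    · rw [h4]
      exact mem_filter.2 ⟨(mem_HP.1 (hpk.bH e e1)).1, h5⟩
    · rw [h4]
      exact mem_filter.2 ⟨(mem_CP.1 (hpk.bC e e1)).1, h5⟩
  · obtain ⟨a1, a2, -⟩ := mem_frC.1 h3
    refine mem_filter.2 ⟨(mem_CP.1 a1).1, ?_⟩
    rcases (hW.pc z hz v hv a a1 (co_adj.2 ⟨hne v hv a a1, a2⟩)).2 y hy with h4 | h4
    · exact absurd h4.symm hvy
    · exact h4

end TzL

section TzF

variable {V : Type*} {G : SimpleGraph V} {Z T : Finset V} {hm : V → V} {r m n p : ℕ}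
  {φ : Finset (V × V) → Finset (Finset V) → ℕ}

/-- a free missed point is a missed point of the tail's class part: `|frC v| ≤ nd (tail)` -/
lemma WCoreK.frC_le (hp : 2 * r ≤ p) (h : WCoreK G Z T r m n p hm) {B : Finset (V × V)}
    {z v : V} (hzT : z ∈ T) (hv : v ∈ hz G Z T hm z) :
    (frC G (cz G Z T hm z) (tlo G T hm) B v).card
      ≤ (msd G (cz G Z T hm (tlo G T hm v)) v).card := by
  have h0 := h.toWHom.ht z hzT v hv
  have hvC : v ∉ cz G Z T hm z := fun h1 => disjoint_left.1 (h.csys.dCH hzT hzT).symm hv h1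
  have h1 : (frC G (cz G Z T hm z) (tlo G T hm) B v).card ≤ nd G (cz G Z T hm z) v := by
    refine card_le_card fun a ha => ?_
    obtain ⟨h2, h3, -⟩ := mem_frC.1 ha
    exact mem_filter.2 ⟨h2, fun h4 => hvC (h4 ▸ h2), h3⟩
  refine h1.trans ?_
  obtain ⟨h2, h3⟩ := mem_filter.1 (mem_HP.1 hv).1
  have h4 := h.csys.ends_of_tlo h.hh hzT hv rfl
  have h5 : tlo G T hm v ∈ rws G T v := by
    rw [rws_BB (h.hsys.HP_BB h.F.toPFrame h.ok hv), h4.2]
    simp
  rw [msd_card]
  exact h.H.kap_plain h.F.toPFrame h.hmr hp h.hsys h2 h3 (mem_of_mem_erase h0)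
    (ne_of_mem_erase h0) h5

/-- **LEMMA N (row test)**: the row test with no N-excess of the host.
`(r - 1) (s + k) ≤ (mu + k) (t + 2 (s + k) + 1) + ∑ rmr` -/
theorem WCoreK.tzl (hp : 2 * r ≤ p) (h : WCoreK G Z T r m n p hm) {B : V → Finset (V × V)}
    {Ps : V → Finset (Finset V)}
    (hB : ∀ x ∈ T, PkPP G (cz G Z T hm x) (hz G Z T hm x) (tlo G T hm) φ (B x) (Ps x))
    {z : V} (hzT : z ∈ T) {K : Finset (Itm V)}
    (hK : K ⊆ (T.erase z).biUnion fun x => pkf (B x) (Ps x))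
    (h0 : 0 ≤ sI hm r Z z + ∑ u ∈ K, (ikp (tlo G T hm) z u : ℤ)) :
    ((r : ℤ) - 1) * (sI hm r Z z + ∑ u ∈ K, (ikp (tlo G T hm) z u : ℤ))
      ≤ (∑ u ∈ pkf (B z) (Ps z), (ivl u : ℤ) + ∑ u ∈ K, (ikp (tlo G T hm) z u : ℤ))
          * (tI G Z T hm r Z z
            + 2 * (sI hm r Z z + ∑ u ∈ K, (ikp (tlo G T hm) z u : ℤ)) + 1)
        + ∑ u ∈ K, (rmr G (cz G Z T hm) (tlo G T hm) z u : ℤ) := by
  set C := cz G Z T hm with hCdef
  set H := hz G Z T hm with hHdef
  set tl := tlo G T hm with htl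
  have hF := h.F.toPFrame
  have hfam : ∀ x ∈ T, Fam (co G) C H tl x (pkf (B x) (Ps x)) := fun x hx =>
    (hB x hx).toPk.fam (h.csys.dCH hx hx).symm
  have hpk := hB z hzT
  have hcard : ((C z).card : ℤ) = (r : ℤ) - 1 - tI G Z T hm r Z z := card_CP_eq Z z
  have ht0 : 0 ≤ tI G Z T hm r Z z := by
    have h1 := h.hom (C z) (fun c hc => (mem_filter.1 (mem_CP.1 hc).1).1)
      (h.csys.CP_clq hF hzT)
    have := h.hr
    have h2 : ((C z).card : ℤ) ≤ (r : ℤ) - 1 := by omega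
    linarith
  have hmu0 : 0 ≤ ∑ u ∈ pkf (B z) (Ps z), (ivl u : ℤ) := sum_nonneg fun _ _ => Nat.cast_nonneg _
  have hrm0 : 0 ≤ ∑ u ∈ K, (rmr G C tl z u : ℤ) := sum_nonneg fun _ _ => Nat.cast_nonneg _
  have hk0 : 0 ≤ ∑ u ∈ K, (ikp tl z u : ℤ) := sum_nonneg fun _ _ => Nat.cast_nonneg _
  set K' := K.filter fun u => ikp tl z u ≠ 0 with hK'
  have e1 : ∑ u ∈ K, (rmr G C tl z u : ℤ) = ∑ u ∈ K', (rmr G C tl z u : ℤ) := by
    rw [hK', sum_filter]
    refine sum_congr rfl fun u hu => ?_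
    by_cases h1 : ikp tl z u = 0
    · have h2 := rcl_card_le (G := G) (C := C) (tl := tl) (X := fun Q => one1 (oth tl z Q))
        (z := z) (u := u)
      rw [h1, Nat.zero_mul] at h2
      have h3 : rmr G C tl z u = 0 := Nat.le_zero.1 h2
      rw [h3, h1]
      simp
    · simp only [ne_eq, h1, not_false_iff, if_true]
  have e2 : ∑ u ∈ K, (ikp tl z u : ℤ) = ∑ u ∈ K', (ikp tl z u : ℤ) := by
    rw [hK', sum_filter]
    refine sum_congr rfl fun u _ => ?_
    by_cases h1 : ikp tl z u = 0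
    · rw [h1]
      simp
    · simp only [ne_eq, h1, not_false_iff, if_true]
  have hK'K : K' ⊆ (T.erase z).biUnion fun x => pkf (B x) (Ps x) := (filter_subset _ _).trans hK
  have hk' : ∀ u ∈ K', ikp tl z u ≠ 0 := fun u hu => (mem_filter.1 hu).2
  rw [e1] at hrm0 ⊢
  rw [e2] at h0 hk0 ⊢
  -- the test without extra points
  have h5 := two_eI (G := G) (hm := hm) Z z
  have h6 : (((Z.filter fun v => hm v = z).card : ℤ) - r) = sI hm r Z z := rfl
  have e3 : ∑ u ∈ K', (((C z).card : ℤ) * ikp tl z u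
      - (rcl G C tl (fun Q => one1 (oth tl z Q)) z u).card)
      = ((r : ℤ) - 1 - tI G Z T hm r Z z) * ∑ u ∈ K', (ikp tl z u : ℤ)
        - ∑ u ∈ K', (rmr G C tl z u : ℤ) := by
    rw [sum_sub_distrib, ← mul_sum, hcard]
    rfl
  have hh0 : 0 ≤ ((Z.filter fun v => hm v = z).card : ℤ) - r + 1
      + ∑ u ∈ K', (ikp tl z u : ℤ) := by
    rw [h6]
    linarith
  have h1 := Fam.row_one h.gp.P h.csys h.wsysT hfam hzT hK'K hk'
    (X := fun Q => one1 (oth tl z Q)) (fun Q => one1_sub _) (fun Q => card_one1 _) hh0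
  -- the energy
  have hYt : ∀ v ∈ H z, tl v ∈ T.erase z := h.toWHom.ht z hzT
  have h32 := h.csys.h32 hF h.hh h.toWHom.ht hzT
  have en := PkPP.energyK hF h.hh h.csys h.toWHom.ht hzT hpk
  have hex := hpk.toPk.excess hYt
  have hcn := hpk.toPk.sum_card_ntl hpk.min h32 hYt
  have hiv := hpk.toPk.sum_ivl
  have hmu : ∑ j ∈ T.erase z, ((ntl G (C z) (H z) tl (B z) j).card : ℤ)
      ≤ ∑ u ∈ pkf (B z) (Ps z), (ivl u : ℤ) := by
    have h2 : ∑ j ∈ T.erase z, (ntl G (C z) (H z) tl (B z) j).card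
        ≤ ∑ u ∈ pkf (B z) (Ps z), ivl u := by omega
    exact_mod_cast h2
  have hh := hI_eq (G := G) (Z := Z) (T := T) (hm := hm) (r := r) Z z
  by_contra hcon
  push Not at hcon
  by_cases hm1 : 1 ≤ sI hm r Z z + 2 * ∑ u ∈ K', (ikp tl z u : ℤ)
  swap
  · have h2 : ∑ u ∈ K', (ikp tl z u : ℤ) = 0 := by omega
    have h3 : sI hm r Z z = 0 := by omega
    rw [h2, h3] at hcon
    simp only [add_zero, mul_zero] at hcon
    have h4 := mul_nonneg hmu0 (by linarith : 0 ≤ tI G Z T hm r Z z + 1)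
    linarith
  obtain ⟨Δ, hΔ⟩ : ∃ Δ : ℤ, Δ = 2 * ((r : ℤ) - 1) * sI hm r Z z
      + 2 * (((r : ℤ) - 1 - tI G Z T hm r Z z) * ∑ u ∈ K', (ikp tl z u : ℤ)
        - ∑ u ∈ K', (rmr G C tl z u : ℤ))
      - (2 * eI G hm Z z + 4 * (∑ u ∈ K', (ikp tl z u : ℤ)) * (sI hm r Z z + 1)
        + 2 * (∑ u ∈ K', (ikp tl z u : ℤ)) * (2 * (∑ u ∈ K', (ikp tl z u : ℤ)) - 1)) :=
    ⟨_, rfl⟩
  have hΔ0 : Δ ≤ 0 := by
    rw [e3, h6, ← h5] at h1
    linarith
  refine tail_final (T.erase z) (fun j => ((btl tl (B z) j).card : ℤ))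
    (fun j => ((ntl G (C z) (H z) tl (B z) j).card : ℤ))
    (fun j => (kpl G (C z) (H z) tl (B z) j : ℤ)) (Δ := Δ - 1)
    (fun j _ => Nat.cast_nonneg _) (fun j _ => ?_) hm1 hmu ?_ (by linarith) ?_
  · show ((btl tl (B z) j).card : ℤ) ≤ ((ntl G (C z) (H z) tl (B z) j).card : ℤ)
    have h2 := hpk.toPk.card_ntl j
    have h3 : (btl tl (B z) j).card ≤ (ntl G (C z) (H z) tl (B z) j).card := by omega
    exact_mod_cast h3
  · show _ ≤ Δ - 1 + ∑ j ∈ T.erase z, ((btl tl (B z) j).card : ℤ) * ((btl tl (B z) j).card + 1)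
      + 2 * ∑ j ∈ T.erase z, ((ntl G (C z) (H z) tl (B z) j).card : ℤ)
        * kpl G (C z) (H z) tl (B z) j
    rw [hh] at en
    have en' : 2 * eI G hm Z z + (∑ u ∈ pkf (B z) (Ps z), (ivl u : ℤ))
        * (∑ u ∈ pkf (B z) (Ps z), (ivl u : ℤ) + 1)
      ≤ 2 * ((∑ u ∈ pkf (B z) (Ps z), (ivl u : ℤ))
          * (tI G Z T hm r Z z + sI hm r Z z + 1))
        + nbk G (C z) (H z) tl (B z) (Ps z)
        + 2 * ∑ j ∈ T.erase z, nxk G (C z) (H z) tl (B z) j := en
    generalize ∑ j ∈ T.erase z, ((btl tl (B z) j).card : ℤ) * ((btl tl (B z) j).card + 1) = a1 at *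
    generalize ∑ j ∈ T.erase z, ((ntl G (C z) (H z) tl (B z) j).card : ℤ)
        * kpl G (C z) (H z) tl (B z) j = a2 at *
    generalize ∑ j ∈ T.erase z, nxk G (C z) (H z) tl (B z) j = a3 at *
    generalize nbk G (C z) (H z) tl (B z) (Ps z) = a4 at *
    generalize ∑ u ∈ pkf (B z) (Ps z), (ivl u : ℤ) = μ at *
    generalize ∑ u ∈ K', (ikp tl z u : ℤ) = k at *
    generalize ∑ u ∈ K', (rmr G C tl z u : ℤ) = ρ at *
    generalize tI G Z T hm r Z z = τ at *
    generalize sI hm r Z z = s at *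
    generalize eI G hm Z z = e at *
    rw [hΔ]
    nlinarith
  · intro j hj hG1 hκ
    have hG1' : (1 : ℤ) ≤ ((ntl G (C z) (H z) tl (B z) j).card : ℤ) := hG1
    have hne : (ntl G (C z) (H z) tl (B z) j).Nonempty := by
      rw [← card_pos]
      have : (0 : ℤ) < ((ntl G (C z) (H z) tl (B z) j).card : ℤ) := by linarith
      exact_mod_cast this
    obtain ⟨v, hv, hvκ⟩ := exists_mem_eq_sup _ hne
      fun v => (frC G (C z) tl (B z) v).card
    have hvκ' : kpl G (C z) (H z) tl (B z) j = (frC G (C z) tl (B z) v).card := hvκ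
    obtain ⟨hvH, hvj⟩ := hpk.toPk.ntl_sub hv
    have hfr := h.frC_le hp (B := B z) hzT hvH
    have hfr' : (frC G (C z) tl (B z) v).card ≤ (msd G (C j) v).card := by
      rw [← hvj]
      exact hfr
    set W : Finset V := K'.biUnion (rpts tl (fun Q => one1 (oth tl z Q)) z) with hW
    set Y : Finset V := msd G (C j) v \ W with hY
    have hYC : Y ⊆ C j := fun y hy => (mem_filter.1 (mem_sdiff.1 hy).1).1
    have hYW : Disjoint W Y := disjoint_sdiff
    have hgk := Fam.card_cls h.wsysT hfam (z := z) (mem_of_mem_erase hj) hK'K hk'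
      (X := fun Q => one1 (oth tl z Q)) (fun Q => one1_sub _)
    have hq : ∀ y ∈ Y, ((btl tl (B z) j).card : ℤ) + (frC G (C z) tl (B z) v).card
        ≤ (dg G (Z.filter fun w => hm w = z) y : ℤ) := by
      intro y hy
      have h7 : ¬ G.Adj v y := (mem_filter.1 (mem_sdiff.1 hy).1).2.2
      have h8 := hpk.toPk.slot_hits h.wsysT hzT hvH (y := y) (by
        show y ∈ C (tl v)
        rw [hvj]
        exact hYC hy) h7
      have h9 : (btl tl (B z) j).card + (frC G (C z) tl (B z) v).card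
          ≤ dg G (Z.filter fun w => hm w = z) y := by
        rw [← hvj]
        exact h8
      exact_mod_cast h9
    have h2 := Fam.row_x hF h.gp.P h.csys h.wsysT hfam hzT hj hK'K hk'
      (X := fun Q => one1 (oth tl z Q)) (fun Q => one1_sub _) (fun Q => card_one1 _) hYC hYW hq hh0
    have hYc : (msd G (C j) v).card ≤ Y.card + (W ∩ C j).card := by
      have h3 : msd G (C j) v ⊆ Y ∪ (W ∩ C j) := by
        intro y hy
        by_cases hyW : y ∈ W
        · exact mem_union_right _ (mem_inter.2 ⟨hyW, (mem_filter.1 hy).1⟩)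
        · exact mem_union_left _ (mem_sdiff.2 ⟨hy, hyW⟩)
      exact (card_le_card h3).trans (card_union_le _ _)
    have hκ' : sI hm r Z z + 2 * ∑ u ∈ K', (ikp tl z u : ℤ)
        < ((frC G (C z) tl (B z) v).card : ℤ) := by
      rw [← hvκ']
      exact hκ
    refine ⟨((W ∩ C j).card : ℤ), Nat.cast_nonneg _, ?_, ?_⟩
    · have h3 : ((W ∩ C j).card : ℤ) ≤ ∑ u ∈ K', (ikp tl z u : ℤ) := by exact_mod_cast hgk
      linarith
    · show Δ - 1 + 2 * (((kpl G (C z) (H z) tl (B z) j : ℕ) - (W ∩ C j).card : ℤ)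
        * ((kpl G (C z) (H z) tl (B z) j : ℕ) - 1
          - (sI hm r Z z + 2 * ∑ u ∈ K', (ikp tl z u : ℤ))
          + (btl tl (B z) j).card + (W ∩ C j).card)) < 0
      rw [hvκ']
      rw [e3, h6, ← h5] at h2
      have h2' : 2 * ((r : ℤ) - 1) * sI hm r Z z
        + 2 * (((r : ℤ) - 1 - tI G Z T hm r Z z) * ∑ u ∈ K', (ikp tl z u : ℤ)
          - ∑ u ∈ K', (rmr G C tl z u : ℤ))
        + 2 * (Y.card * (((btl tl (B z) j).card : ℤ) + (frC G (C z) tl (B z) v).card
          + ((W ∩ C j).card : ℤ) - (sI hm r Z z + 1) - 2 * ∑ u ∈ K', (ikp tl z u : ℤ)))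
        ≤ 2 * eI G hm Z z + 4 * (∑ u ∈ K', (ikp tl z u : ℤ)) * (sI hm r Z z + 1)
          + 2 * (∑ u ∈ K', (ikp tl z u : ℤ)) * (2 * (∑ u ∈ K', (ikp tl z u : ℤ)) - 1) := h2
      have h7 : ((frC G (C z) tl (B z) v).card : ℤ) - (W ∩ C j).card ≤ Y.card := by omega
      have h8 : (0 : ℤ) ≤ (btl tl (B z) j).card := Nat.cast_nonneg _
      have h9 : (0 : ℤ) ≤ (W ∩ C j).card := Nat.cast_nonneg _
      have h10 : (((frC G (C z) tl (B z) v).card : ℤ) - (W ∩ C j).card)
          * (((btl tl (B z) j).card : ℤ) + (frC G (C z) tl (B z) v).card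
          + ((W ∩ C j).card : ℤ) - (sI hm r Z z + 1) - 2 * ∑ u ∈ K', (ikp tl z u : ℤ))
          ≤ Y.card * (((btl tl (B z) j).card : ℤ) + (frC G (C z) tl (B z) v).card
          + ((W ∩ C j).card : ℤ) - (sI hm r Z z + 1) - 2 * ∑ u ∈ K', (ikp tl z u : ℤ)) :=
        mul_le_mul_of_nonneg_right h7 (by linarith)
      generalize (((W ∩ C j).card : ℕ) : ℤ) = d at *
      generalize ((Y.card : ℕ) : ℤ) = y at *
      generalize (((btl tl (B z) j).card : ℕ) : ℤ) = g at *
      generalize (((frC G (C z) tl (B z) v).card : ℕ) : ℤ) = κ at *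
      generalize ∑ u ∈ K', (ikp tl z u : ℤ) = k at *
      generalize ∑ u ∈ K', (rmr G C tl z u : ℤ) = ρ at *
      generalize tI G Z T hm r Z z = τ at *
      generalize sI hm r Z z = s at *
      generalize eI G hm Z z = e at *
      have e4 : (κ - d) * (κ - 1 - (s + 2 * k) + g + d)
          = (κ - d) * (g + κ + d - (s + 1) - 2 * k) := by ring
      rw [e4]
      linarith

end TzF

section TzI

variable {V : Type*} {G : SimpleGraph V} {Z T : Finset V} {hm : V → V} {r m n p : ℕ}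
  {φ : Finset (V × V) → Finset (Finset V) → ℕ} {B : V → Finset (V × V)}
  {Ps : V → Finset (Finset V)} {host : Itm V → V} {ρ : V → ℕ} {σ : ℕ → V}

/-- **LEMMA N over the integers of `WItK`**: the row test of the row `i` with no N-excess, for any
items `K` with other hosts and `0 ≤ s i + ∑ kp` -/
theorem WCoreK.tzI (hp : 2 * r ≤ p) (h : WCoreK G Z T r m n p hm)
    (W : WItK G Z T hm r n φ B Ps host ρ σ) {i : ℕ} (hi : i < n) {K : Finset (Itm V)}
    (hK : K ⊆ T.biUnion fun x => pkf (B x) (Ps x)) (hho : ∀ u ∈ K, ρ (host u) ≠ i)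
    (h0 : 0 ≤ sI hm r Z (σ i) + ∑ u ∈ K, (ikp (tlo G T hm) (σ i) u : ℤ)) :
    ((r : ℤ) - 1) * (sI hm r Z (σ i) + ∑ u ∈ K, (ikp (tlo G T hm) (σ i) u : ℤ))
      ≤ (∑ u ∈ pkf (B (σ i)) (Ps (σ i)), (ivl u : ℤ)
          + ∑ u ∈ K, (ikp (tlo G T hm) (σ i) u : ℤ))
          * (tI G Z T hm r Z (σ i)
            + 2 * (sI hm r Z (σ i) + ∑ u ∈ K, (ikp (tlo G T hm) (σ i) u : ℤ)) + 1)
        + ∑ u ∈ K, (rmr G (cz G Z T hm) (tlo G T hm) (σ i) u : ℤ) := by
  have hiT : i < T.card := by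
    rw [W.cT]
    exact hi
  refine h.tzl hp W.pk (W.rk.mem i hiT) (fun u hu => ?_) h0
  obtain ⟨x, hx, hux⟩ := mem_biUnion.1 (hK hu)
  refine mem_biUnion.2 ⟨x, mem_erase.2 ⟨fun h1 => hho u hu ?_, hx⟩, hux⟩
  rw [W.hst x hx u hux, h1]
  exact W.rk.right i hiT

end TzI

end Pool.Agent.Lib.MP_f04ccf_co
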