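import Pool.Agent.Lib.MP_f04ccf_co.M.CellJ
import Pool.Agent.Lib.MP_f04ccf_co.M.RowN

/-!
MP_f04ccf_co, note 17122: the joint cell test in version [B], and the free arcs counted one by one.
`ntm … j q`: the N-types with tail `j` and at least `q` missed class points; `fan … j`: the free arcs of
the N-types with tail `j`.

* `WCoreK.joint`: members of both homes of a cell, each with at least `m` missed points at home.
* `Pk.excess_fan`, `Pk.fan_le`: the excess with `fan`; `fan` in terms of the numbers `|ntm … j q|`.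
* `WItK.joint`: the same for the N-types of both homes.
-/

set_option autoImplicit false

namespace Pool.Agent.Lib.MP_f04ccf_co

open Finset

attribute [local instance] Classical.propDecidable

section NTM

variable {ι V : Type*} {G : SimpleGraph V} {C H : Finset V} {tl : V → ι}
  {B : Finset (V × V)} {Ps : Finset (Finset V)}

variable (G) in
/-- the N-types with tail `j` and at least `q` missed class points -/
noncomputable def ntm (C H : Finset V) (tl : V → ι) (B : Finset (V × V)) (j : ι) (q : ℕ) :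
    Finset V := (ntl G C H tl B j).filter fun v => q ≤ (msd G C v).card

variable (G) in
/-- the free arcs of the N-types with tail `j` -/
noncomputable def fan (C H : Finset V) (tl : V → ι) (B : Finset (V × V)) (j : ι) : ℕ :=
  ∑ v ∈ ntl G C H tl B j, (frC G C tl B v).card

lemma mem_ntm {j : ι} {q : ℕ} {v : V} : v ∈ ntm G C H tl B j q ↔
    v ∈ ntl G C H tl B j ∧ q ≤ (msd G C v).card := mem_filter

lemma ntm_anti {j : ι} {q q' : ℕ} (hq : q ≤ q') :
    (ntm G C H tl B j q').card ≤ (ntm G C H tl B j q).card :=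
  card_le_card fun _ hv => mem_ntm.2 ⟨(mem_ntm.1 hv).1, hq.trans (mem_ntm.1 hv).2⟩

lemma frC_sub_msd' (dCH : Disjoint C H) {v : V} (hv : v ∈ H) :
    frC G C tl B v ⊆ msd G C v := by
  intro a ha
  obtain ⟨h1, h2, -⟩ := mem_frC.1 ha
  exact mem_filter.2 ⟨h1, fun h3 => disjoint_left.1 dCH h1 (h3 ▸ hv), h2⟩

/-- the member of a PC pair also misses its partner -/
lemma Pk.frC_lt_msd (h : Pk G C H tl B Ps) (dCH : Disjoint C H) {e : V × V} (he : e ∈ B) :
    (frC G C tl B e.1).card + 1 ≤ (msd G C e.1).card := by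
  have h1 : e.2 ∉ frC G C tl B e.1 := fun h2 => (mem_frC.1 h2).2.2 e he rfl rfl
  rw [← card_insert_of_notMem h1]
  refine card_le_card (insert_subset ?_ (frC_sub_msd' dCH (h.bH e he)))
  refine mem_filter.2 ⟨h.bC e he, fun h3 => ?_, h.bN e he⟩
  exact disjoint_left.1 dCH (h.bC e he) (h3 ▸ h.bH e he)

/-- every N-type misses a class point -/
lemma Pk.ntm_one (h : Pk G C H tl B Ps) (dCH : Disjoint C H) {j : ι} :
    ntm G C H tl B j 1 = ntl G C H tl B j := by
  ext v
  rw [mem_ntm]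
  refine ⟨fun h1 => h1.1, fun h1 => ⟨h1, ?_⟩⟩
  rcases mem_union.1 h1 with h2 | h2
  · obtain ⟨e, he, rfl⟩ := mem_image.1 h2
    have := h.frC_lt_msd dCH (mem_btl.1 he).1
    omega
  · obtain ⟨h3, -⟩ := mem_filter.1 h2
    obtain ⟨h4, h5⟩ := mem_Nend.1 h3
    exact (card_pos.2 h5).trans_le (card_le_card (frC_sub_msd' dCH (mem_sdiff.1 h4).1))

lemma Pk.fan_eq (h : Pk G C H tl B Ps) (j : ι) :
    ∑ e ∈ btl tl B j, ((frC G C tl B e.1).card : ℤ) + ∑ v ∈ nez G C H tl B j,
      ((frC G C tl B v).card : ℤ) = (fan G C H tl B j : ℤ) := by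
  have h1 : ∑ e ∈ btl tl B j, ((frC G C tl B e.1).card : ℤ)
      = ∑ v ∈ (btl tl B j).image Prod.fst, ((frC G C tl B v).card : ℤ) :=
    (sum_image (f := fun v => ((frC G C tl B v).card : ℤ)) fun e he f hf hef =>
      h.btl_inj j he hf hef).symm
  rw [h1, ← sum_union (ntl_disj j)]
  unfold fan ntl
  push_cast
  rfl

/-- **the free arcs in terms of the numbers of N-types with many missed points** -/
theorem Pk.fan_le (h : Pk G C H tl B Ps) (dCH : Disjoint C H) {j : ι} {M : ℕ}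
    (hM : (ntm G C H tl B j (M + 1)).card = 0) :
    fan G C H tl B j + (btl tl B j).card ≤ ∑ q ∈ range M, (ntm G C H tl B j (q + 1)).card := by
  have h1 : ∀ v ∈ ntl G C H tl B j, (msd G C v).card ≤ M := by
    intro v hv
    by_contra h2
    have h3 : v ∈ ntm G C H tl B j (M + 1) := mem_ntm.2 ⟨hv, by omega⟩
    rw [card_eq_zero.1 hM] at h3
    exact notMem_empty _ h3
  have h2 : ∑ q ∈ range M, (ntm G C H tl B j (q + 1)).card
      = ∑ v ∈ ntl G C H tl B j, (msd G C v).card := by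
    have e1 : ∀ q ∈ range M, (ntm G C H tl B j (q + 1)).card
        = ∑ v ∈ ntl G C H tl B j, if q + 1 ≤ (msd G C v).card then 1 else 0 := by
      intro q _
      unfold ntm
      rw [card_filter]
    rw [sum_congr rfl e1, sum_comm]
    refine sum_congr rfl fun v hv => ?_
    rw [← card_filter]
    have e2 : (range M).filter (fun q => q + 1 ≤ (msd G C v).card) = range (msd G C v).card := by
      ext q
      have := h1 v hv
      rw [mem_filter, mem_range, mem_range]
      omega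
    rw [e2, card_range]
  have h3 : fan G C H tl B j + (btl tl B j).card
      = ∑ v ∈ ntl G C H tl B j, ((frC G C tl B v).card
        + if v ∈ (btl tl B j).image Prod.fst then 1 else 0) := by
    rw [sum_add_distrib]
    unfold fan
    congr 1
    rw [← card_filter, filter_mem_eq_inter]
    have e1 : ntl G C H tl B j ∩ (btl tl B j).image Prod.fst = (btl tl B j).image Prod.fst :=
      inter_eq_right.2 subset_union_left
    rw [e1, card_image_of_injOn (h.btl_inj j)]
  rw [h2, h3]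
  refine sum_le_sum fun v hv => ?_
  by_cases h4 : v ∈ (btl tl B j).image Prod.fst
  · rw [if_pos h4]
    obtain ⟨e, he, rfl⟩ := mem_image.1 h4
    exact h.frC_lt_msd dCH (mem_btl.1 he).1
  · rw [if_neg h4]
    exact card_le_card (frC_sub_msd' dCH (h.ntl_sub hv).1)

/-- **the excess of a packing, tail by tail, free arcs one by one** -/
theorem Pk.excess_fan (h : Pk G C H tl B Ps) {Y : Finset ι} (hY : ∀ v ∈ H, tl v ∈ Y) :
    nbk G C H tl B Ps + 2 * ∑ j ∈ Y, nxk G C H tl B j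
      ≤ ∑ j ∈ Y, ((btl tl B j).card : ℤ) * ((btl tl B j).card + 1)
        + 2 * ∑ j ∈ Y, (fan G C H tl B j : ℤ) := by
  have hB : ∀ e ∈ B, tl e.1 ∈ Y := fun e he => hY _ (h.bH e he)
  have h1 : (bothB G tl B : ℤ) = ∑ j ∈ Y, (bothB G tl (btl tl B j) : ℤ) := by
    rw [bothB_tail Y hB, Nat.cast_sum]
  have h2 := sum_B_tail Y hB fun e : V × V => (1 + ((frC G C tl B e.1).card : ℤ))
  have h3 : (0 : ℤ) ≤ ∑ e ∈ B, ((Ps.card - Pk.uin G tl (H \ B.image Prod.fst) e : ℕ) : ℤ) :=
    sum_nonneg fun _ _ => Nat.cast_nonneg _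
  have h4 : ∀ j ∈ Y, 2 * ∑ e ∈ btl tl B j, (1 + ((frC G C tl B e.1).card : ℤ))
      + (bothB G tl (btl tl B j) : ℤ) + 2 * nxk G C H tl B j
      ≤ ((btl tl B j).card : ℤ) * ((btl tl B j).card + 1) + 2 * (fan G C H tl B j : ℤ) := by
    intro j _
    have e1 := bothB_le (G := G) (tl := tl) (btl tl B j)
    have e2 := two_nxk (G := G) C H tl B j
    have e3 := h.fan_eq j
    have e4 : (0 : ℤ) ≤ E G (nez G C H tl B j) := Nat.cast_nonneg _
    have e5 : ∑ e ∈ btl tl B j, (1 + ((frC G C tl B e.1).card : ℤ))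
        = (btl tl B j).card + ∑ e ∈ btl tl B j, ((frC G C tl B e.1).card : ℤ) := by
      rw [sum_add_distrib, sum_const, nsmul_eq_mul, mul_one]
    rw [e5]
    linarith
  have h5 := sum_le_sum h4
  simp only [sum_add_distrib, ← mul_sum] at h5
  unfold nbk
  rw [h1, h2]
  simp only [sum_add_distrib]
  linarith

/-- the excess of the N-ends with tail `j` is at most their free arcs -/
lemma Pk.nxk_le_fan (h : Pk G C H tl B Ps) (j : ι) :
    nxk G C H tl B j ≤ (fan G C H tl B j : ℤ)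
      - ∑ e ∈ btl tl B j, ((frC G C tl B e.1).card : ℤ) := by
  have h3 := h.fan_eq j
  have h4 : (0 : ℤ) ≤ (E G (nez G C H tl B j) : ℤ) / 2 :=
    Int.ediv_nonneg (Nat.cast_nonneg _) (by norm_num)
  unfold nxk
  linarith

end NTM

section FrameJ

variable {V : Type*} {G : SimpleGraph V} {Z T : Finset V} {hm : V → V} {r m n p : ℕ}

/-- the missed class points at home are at most the missed points at the tail -/
lemma WCoreK.msd_home (hp : 2 * r ≤ p) (h : WCoreK G Z T r m n p hm) {x y v : V} (hx : x ∈ T)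
    (hv : v ∈ hz G Z T hm x) (hy : tlo G T hm v = y) :
    (msd G (cz G Z T hm x) v).card ≤ (msd G (cz G Z T hm y) v).card := by
  obtain ⟨h2, h3⟩ := mem_filter.1 (mem_HP.1 hv).1
  have h0 := h.toWHom.ht x hx v hv
  rw [hy] at h0
  have h4 := h.csys.ends_of_tlo h.hh hx hv hy
  have h5 : y ∈ rws G T v := by
    rw [rws_BB (h.hsys.HP_BB h.F.toPFrame h.ok hv), h4.2]
    simp
  rw [msd_card, msd_card]
  exact h.H.kap_plain h.F.toPFrame h.hmr hp h.hsys h2 h3 (mem_of_mem_erase h0)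
    (ne_of_mem_erase h0) h5

/-- **the joint cell test in version [B]**: members of both homes of the cell -/
theorem WCoreK.joint (hp : 2 * r ≤ p) (h : WCoreK G Z T r m n p hm) {x y : V} (hx : x ∈ T)
    (hy : y ∈ T) (hxy : x ≠ y) {W W' : Finset V}
    (hW : ∀ v ∈ W, v ∈ hz G Z T hm x ∧ tlo G T hm v = y)
    (hW' : ∀ v ∈ W', v ∈ hz G Z T hm y ∧ tlo G T hm v = x) {k : ℕ}
    (h1 : 1 ≤ W.card + W'.card) (h2 : W.card + W'.card ≤ k)
    (h3 : ∀ v ∈ W, k ≤ (msd G (cz G Z T hm x) v).card)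
    (h4 : ∀ v ∈ W', k ≤ (msd G (cz G Z T hm y) v).card) :
    4 * (((W.card + W'.card : ℕ) : ℤ) - 1) * ((r : ℤ) - 1)
        + 4 * (k * ((k : ℤ) - 2 * ((W.card + W'.card : ℕ) : ℤ)))
      ≤ 4 * (tI G Z T hm r Z x * tI G Z T hm r Z y) + ((W.card + W'.card : ℕ) : ℤ) ^ 2 := by
  have hF := h.F.toPFrame
  have hcell := h.csys.cellD hF hx hy hxy
  have hs1 : W ⊆ Dbl G Z T x y := fun v hv => h.csys.mem_Dbl_of_tlo h.hh hx (hW v hv).1 (hW v hv).2
  have hs2 : W' ⊆ Dbl G Z T x y := fun v hv => by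
    rw [Dbl_comm]
    exact h.csys.mem_Dbl_of_tlo h.hh hy (hW' v hv).1 (hW' v hv).2
  have hd : Disjoint W W' := by
    rw [disjoint_left]
    intro v hv hv'
    exact disjoint_left.1 (h.wsysT.dHH x hx y hy hxy) (hW v hv).1 (hW' v hv').1
  have hc : (W ∪ W').card = W.card + W'.card := card_union_of_disjoint hd
  have hs : W ∪ W' ⊆ Dbl G Z T x y := union_subset hs1 hs2
  have hne : (W ∪ W').Nonempty := card_pos.1 (by omega)
  have h5 := hcell.joint h.gp.P (h.csys.CP_clq hF hx) (h.csys.CP_clq hF hy)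
    (h.wsysT.dCC x hx y hy hxy) hs hne (m := k) (by omega) (fun v hv => by
      rcases mem_union.1 hv with hv | hv
      · exact h3 v hv
      · exact (h4 v hv).trans (h.msd_home hp hy (hW' v hv).1 (hW' v hv).2)) (fun v hv => by
      rcases mem_union.1 hv with hv | hv
      · exact (h3 v hv).trans (h.msd_home hp hx (hW v hv).1 (hW v hv).2)
      · exact h4 v hv)
  have h6 := hF.ne_cell hx hy hs
  have h8 : ((r : ℤ) - 1 - (cz G Z T hm x).card) * ((r : ℤ) - 1 - (cz G Z T hm y).card)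
      = tI G Z T hm r Z x * tI G Z T hm r Z y := by
    unfold tI
    ring
  have h7 : 2 * ((((W ∪ W').card : ℤ) - 1) * ((r : ℤ) - 1))
      + 2 * (k * ((k : ℤ) - 2 * (W ∪ W').card))
      ≤ 2 * (tI G Z T hm r Z x * tI G Z T hm r Z y) + NE G (W ∪ W') := by
    rw [← h8]
    exact h5
  rw [hc] at h6 h7
  linarith

end FrameJ

section TransJ

variable {V : Type*} {G : SimpleGraph V} {Z T : Finset V} {hm : V → V} {r m n p : ℕ}
  {φ : Finset (V × V) → Finset (Finset V) → ℕ} {B : V → Finset (V × V)}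
  {Ps : V → Finset (Finset V)} {host : Itm V → V} {ρ : V → ℕ} {σ : ℕ → V}

/-- **the joint cell test for the N-types of a cell** -/
theorem WItK.joint (hp : 2 * r ≤ p) (h : WCoreK G Z T r m n p hm)
    (H : WItK G Z T hm r n φ B Ps host ρ σ) {x y : V} (hx : x ∈ T) (hy : y ∈ T) (hxy : x ≠ y)
    {q k : ℕ} (hq : 1 ≤ q) (hqk : q ≤ k)
    (hk : q ≤ (ntm G (cz G Z T hm x) (hz G Z T hm x) (tlo G T hm) (B x) y k).card
      + (ntm G (cz G Z T hm y) (hz G Z T hm y) (tlo G T hm) (B y) x k).card) :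
    4 * ((q : ℤ) - 1) * ((r : ℤ) - 1) + 4 * (k * ((k : ℤ) - 2 * q))
      ≤ 4 * (tI G Z T hm r Z x * tI G Z T hm r Z y) + (q : ℤ) ^ 2 := by
  set N1 := ntm G (cz G Z T hm x) (hz G Z T hm x) (tlo G T hm) (B x) y k with hN1
  set N2 := ntm G (cz G Z T hm y) (hz G Z T hm y) (tlo G T hm) (B y) x k with hN2
  obtain ⟨W, hW1, hW2⟩ := exists_subset_card_eq (min_le_right q N1.card)
  have h1 : q - min q N1.card ≤ N2.card := by omega
  obtain ⟨W', hW1', hW2'⟩ := exists_subset_card_eq h1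
  have h2 : W.card + W'.card = q := by omega
  have h3 := h.joint hp hx hy hxy (W := W) (W' := W') (k := k)
    (fun v hv => (H.pk x hx).toPk.ntl_sub (mem_ntm.1 (hW1 hv)).1)
    (fun v hv => (H.pk y hy).toPk.ntl_sub (mem_ntm.1 (hW1' hv)).1) (by omega) (by omega)
    (fun v hv => (mem_ntm.1 (hW1 hv)).2) (fun v hv => (mem_ntm.1 (hW1' hv)).2)
  rw [h2] at h3
  exact h3

variable (G Z T hm B σ) in
/-- the number of the N-types of the host `i` with tail `j` and at least `q` missed points at home -/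
noncomputable def khI (i j q : ℕ) : ℤ :=
  ((ntm G (cz G Z T hm (σ i)) (hz G Z T hm (σ i)) (tlo G T hm) (B (σ i)) (σ j) q).card : ℤ)

variable (G Z T hm B σ) in
/-- the free arcs of the N-types of the host `i` with tail `j` -/
noncomputable def faI (i j : ℕ) : ℤ :=
  (fan G (cz G Z T hm (σ i)) (hz G Z T hm (σ i)) (tlo G T hm) (B (σ i)) (σ j) : ℤ)

/-- **the joint cell test, over the index of the rows** -/
theorem WItK.jointI (hp : 2 * r ≤ p) (h : WCoreK G Z T r m n p hm)
    (H : WItK G Z T hm r n φ B Ps host ρ σ) {i j : ℕ} (hi : i < n) (hj : j < n) (hij : i ≠ j)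
    {q k : ℕ} (hq : 1 ≤ q) (hqk : q ≤ k)
    (hk : (q : ℤ) ≤ khI G Z T hm B σ i j k + khI G Z T hm B σ j i k) :
    4 * ((q : ℤ) - 1) * ((r : ℤ) - 1) + 4 * (k * ((k : ℤ) - 2 * q))
      ≤ 4 * (tI G Z T hm r Z (σ i) * tI G Z T hm r Z (σ j)) + (q : ℤ) ^ 2 := by
  have hcard := h.cardT
  exact H.joint hp h (H.rk.mem i (by rw [hcard]; exact hi)) (H.rk.mem j (by rw [hcard]; exact hj))
    (fun h1 => hij (H.rk.sinj (by rw [hcard]; exact hi) (by rw [hcard]; exact hj) h1)) hq hqk
    (by unfold khI at hk; exact_mod_cast hk)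

lemma khI_nonneg (i j q : ℕ) : 0 ≤ khI G Z T hm B σ i j q := Nat.cast_nonneg _

lemma faI_nonneg (i j : ℕ) : 0 ≤ faI G Z T hm B σ i j := Nat.cast_nonneg _

lemma khI_anti (i j q : ℕ) : khI G Z T hm B σ i j (q + 1) ≤ khI G Z T hm B σ i j q := by
  have h1 := ntm_anti (G := G) (C := cz G Z T hm (σ i)) (H := hz G Z T hm (σ i))
    (tl := tlo G T hm) (B := B (σ i)) (j := σ j) (Nat.le_succ q)
  unfold khI
  exact Nat.cast_le.2 h1

/-- every N-type misses a point at home -/
lemma WItK.khI_one (h : WCoreK G Z T r m n p hm) (H : WItK G Z T hm r n φ B Ps host ρ σ)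
    {i : ℕ} (hi : i < n) (j : ℕ) : khI G Z T hm B σ i j 1
      = ((ntl G (cz G Z T hm (σ i)) (hz G Z T hm (σ i)) (tlo G T hm) (B (σ i)) (σ j)).card : ℤ) := by
  have hx := H.rk.mem i (by rw [h.cardT]; exact hi)
  unfold khI
  rw [(H.pk _ hx).toPk.ntm_one (h.csys.dCH hx hx)]

/-- **the free arcs in terms of the numbers of N-types** -/
theorem WItK.faI_le (h : WCoreK G Z T r m n p hm) (H : WItK G Z T hm r n φ B Ps host ρ σ)
    {i j : ℕ} (hi : i < n) {M : ℕ} (hM : khI G Z T hm B σ i j (M + 1) = 0) :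
    faI G Z T hm B σ i j + pcn (tlo G T hm) B (σ i) (σ j)
      ≤ ∑ q ∈ range M, khI G Z T hm B σ i j (q + 1) := by
  have hx := H.rk.mem i (by rw [h.cardT]; exact hi)
  have h1 := (H.pk _ hx).toPk.fan_le (h.csys.dCH hx hx) (j := σ j) (M := M)
    (by unfold khI at hM; exact_mod_cast hM)
  unfold khI faI pcn
  exact_mod_cast h1

/-- the free arcs are at most (number of N-types) times (largest number of free arcs) -/
theorem WItK.faI_le_mul (h : WCoreK G Z T r m n p hm) (H : WItK G Z T hm r n φ B Ps host ρ σ)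
    {i : ℕ} (hi : i < n) (j : ℕ) : faI G Z T hm B σ i j
      ≤ ((ntl G (cz G Z T hm (σ i)) (hz G Z T hm (σ i)) (tlo G T hm) (B (σ i)) (σ j)).card : ℤ)
        * (kpl G (cz G Z T hm (σ i)) (hz G Z T hm (σ i)) (tlo G T hm) (B (σ i)) (σ j) : ℤ) := by
  have hx := H.rk.mem i (by rw [h.cardT]; exact hi)
  unfold faI
  rw [← (H.pk _ hx).toPk.fan_eq (σ j)]
  exact (H.pk _ hx).toPk.sum_ntl (σ j)

/-- **the excess, tail by tail, free arcs one by one** -/
theorem WItK.excf (h : WCoreK G Z T r m n p hm) (H : WItK G Z T hm r n φ B Ps host ρ σ)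
    {i : ℕ} (hi : i < n) :
    nbk G (cz G Z T hm (σ i)) (hz G Z T hm (σ i)) (tlo G T hm) (B (σ i)) (Ps (σ i))
      + 2 * ∑ j ∈ (range n).erase i,
        nxk G (cz G Z T hm (σ i)) (hz G Z T hm (σ i)) (tlo G T hm) (B (σ i)) (σ j)
      ≤ ∑ j ∈ (range n).erase i, pcn (tlo G T hm) B (σ i) (σ j)
          * (pcn (tlo G T hm) B (σ i) (σ j) + 1)
        + 2 * ∑ j ∈ (range n).erase i, faI G Z T hm B σ i j := by
  have hcard := h.cardT
  have hx := H.rk.mem i (by rw [hcard]; exact hi)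
  have her : ∀ g : V → ℤ, ∑ z ∈ T.erase (σ i), g z = ∑ j ∈ (range n).erase i, g (σ j) := by
    intro g
    have := H.rk.sum_er (i := i) (by rw [hcard]; exact hi) g
    rw [hcard] at this
    exact this
  have h1 := (H.pk _ hx).toPk.excess_fan (Y := T.erase (σ i)) (fun v hv => h.toWHom.ht _ hx v hv)
  rw [her, her, her] at h1
  exact h1

/-- the excess of the N-ends is at most the free arcs -/
lemma WItK.nxf (h : WCoreK G Z T r m n p hm) (H : WItK G Z T hm r n φ B Ps host ρ σ)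
    {i : ℕ} (hi : i < n) (j : ℕ) :
    nxk G (cz G Z T hm (σ i)) (hz G Z T hm (σ i)) (tlo G T hm) (B (σ i)) (σ j)
      ≤ faI G Z T hm B σ i j := by
  have hx := H.rk.mem i (by rw [h.cardT]; exact hi)
  have h1 := (H.pk _ hx).toPk.nxk_le_fan (σ j)
  have h2 : (0 : ℤ) ≤ ∑ e ∈ btl (tlo G T hm) (B (σ i)) (σ j),
      ((frC G (cz G Z T hm (σ i)) (tlo G T hm) (B (σ i)) e.1).card : ℤ) :=
    sum_nonneg fun _ _ => Nat.cast_nonneg _
  unfold faI
  linarith

/-- the free arcs of the PC pairs of one host -/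
lemma WItK.frf (h : WCoreK G Z T r m n p hm) (H : WItK G Z T hm r n φ B Ps host ρ σ)
    {i : ℕ} (hi : i < n) :
    ∑ e ∈ B (σ i), ((frC G (cz G Z T hm (σ i)) (tlo G T hm) (B (σ i)) e.1).card : ℤ)
      ≤ ∑ j ∈ (range n).erase i, faI G Z T hm B σ i j := by
  have hcard := h.cardT
  have hx := H.rk.mem i (by rw [hcard]; exact hi)
  have her : ∀ g : V → ℤ, ∑ z ∈ T.erase (σ i), g z = ∑ j ∈ (range n).erase i, g (σ j) := by
    intro g
    have := H.rk.sum_er (i := i) (by rw [hcard]; exact hi) g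
    rw [hcard] at this
    exact this
  rw [sum_B_tail (tl := tlo G T hm) (B := B (σ i)) (T.erase (σ i))
    (fun e he => h.toWHom.ht _ hx _ ((H.pk _ hx).toPk.bH e he)), her]
  refine sum_le_sum fun j _ => ?_
  have h1 := (H.pk _ hx).toPk.fan_eq (σ j)
  have h2 : (0 : ℤ) ≤ ∑ v ∈ nez G (cz G Z T hm (σ i)) (hz G Z T hm (σ i)) (tlo G T hm)
      (B (σ i)) (σ j), ((frC G (cz G Z T hm (σ i)) (tlo G T hm) (B (σ i)) v).card : ℤ) :=
    sum_nonneg fun _ _ => Nat.cast_nonneg _
  unfold faI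
  linarith

end TransJ

end Pool.Agent.Lib.MP_f04ccf_co
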