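import Pool.Agent.Lib.MP_f04ccf_co.M.WNumK

/-!
MP_f04ccf_co, PLAN W (notes 16843, 16845, 16851): more inequalities over the items.
`Fam.rect`: in every cell the hits of both hosts and the rectangle of the misses of one item (minus the
partners of the PC pairs of the cell) are edges.  `Fam.low`: the two-slot test with the degree sum
(`CSys.two_low`) over the items; at the class part of `x` the columns of small missing degree are used,
`lsx` is the loss by the members of `x` which miss these columns.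
`ItX`: the items over the basic integers with these inequalities.
-/

set_option autoImplicit false

namespace Pool.Agent.Lib.MP_f04ccf_co

open Finset

attribute [local instance] Classical.propDecidable

section RectLow

variable {V : Type*} {G : SimpleGraph V} {Z T : Finset V} {hm : V → V} {r m t : ℕ}
  {A : Finset V} {S : V → Finset V} {U : V → Finset (Itm V)}

/-- **the rectangle of an item**, together with any members outside all items -/
theorem Fam.rect (hW : WSysT G (co G) A (CP G Z T S) (HP G Z T S) (tlo G T hm))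
    (h : ∀ x ∈ A, Fam (co G) (CP G Z T S) (HP G Z T S) (tlo G T hm) x (U x))
    {x z : V} (hx : x ∈ A) (hz : z ∈ A) (hxz : x ≠ z) {y : V} (hy : y ∈ A) {u : Itm V}
    (hu : u ∈ U y) {Wx Wz : Finset V}
    (hWx : Wx ⊆ HP G Z T S x) (hWz : Wz ⊆ HP G Z T S z)
    (hWxU : ∀ v ∈ Wx, ∀ u ∈ U x, v ∉ imem u) (hWzU : ∀ v ∈ Wz, ∀ u ∈ U z, v ∉ imem u) :
    ∑ w ∈ U x, iht G (CP G Z T S) (tlo G T hm) z w
      + ∑ w ∈ U z, iht G (CP G Z T S) (tlo G T hm) x w
      + ∑ v ∈ Wx, (dg G (CP G Z T S z) v : ℤ) + ∑ v ∈ Wz, (dg G (CP G Z T S x) v : ℤ)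
      + max 0 ((ims G (CP G Z T S) (tlo G T hm) x u : ℤ) - (pcz (tlo G T hm) z (U x)).card)
        * max 0 ((ims G (CP G Z T S) (tlo G T hm) z u : ℤ) - (pcz (tlo G T hm) x (U z)).card)
      ≤ ∑ v ∈ S z, (dg G (S x) v : ℤ) := by
  set C := CP G Z T S with hC
  set X : Finset (V × V) :=
    (icl G C (tlo G T hm) x u \ (pcz (tlo G T hm) z (U x)).image Prod.snd)
      ×ˢ (icl G C (tlo G T hm) z u \ (pcz (tlo G T hm) x (U z)).image Prod.snd) with hX
  have h1 := Fam.pair_pay hW h hx hz hxz hWx hWz hWxU hWzU (X := X) (by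
      intro c hc
      obtain ⟨h1, h2⟩ := mem_product.1 hc
      have h3 := (mem_sdiff.1 h1).1
      have h4 := (mem_sdiff.1 h2).1
      exact mem_filter.2 ⟨mem_product.2 ⟨rcl_sub h3, rcl_sub h4⟩,
        (h y hy).icl_complete hW hy hx hz hxz hu _ h3 _ h4⟩)
    (by
      intro c hc e he hec
      exact (mem_sdiff.1 (mem_product.1 hc).1).2 (mem_image.2 ⟨e, he, hec⟩))
    (by
      intro c hc e he hec
      exact (mem_sdiff.1 (mem_product.1 hc).2).2 (mem_image.2 ⟨e, he, hec⟩))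
  have key : ∀ (D : Finset V) (K : Finset (V × V)),
      max 0 ((D.card : ℤ) - K.card) ≤ ((D \ K.image Prod.snd).card : ℤ) := by
    intro D K
    refine max_le (Nat.cast_nonneg _) ?_
    have h2 : D.card ≤ (D \ K.image Prod.snd).card + (K.image Prod.snd).card :=
      card_le_card_sdiff_add_card
    have h3 : (K.image Prod.snd).card ≤ K.card := card_image_le
    omega
  have h2 := mul_le_mul (key (icl G C (tlo G T hm) x u) (pcz (tlo G T hm) z (U x)))
    (key (icl G C (tlo G T hm) z u) (pcz (tlo G T hm) x (U z))) (le_max_left _ _)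
    (Nat.cast_nonneg _)
  have h3 : (X.card : ℤ) = ((icl G C (tlo G T hm) x u
      \ (pcz (tlo G T hm) z (U x)).image Prod.snd).card : ℤ)
      * ((icl G C (tlo G T hm) z u \ (pcz (tlo G T hm) x (U z)).image Prod.snd).card : ℤ) := by
    rw [hX, card_product, Nat.cast_mul]
  have e1 : ∀ w, (ims G C (tlo G T hm) w u : ℤ) = ((icl G C (tlo G T hm) w u).card : ℤ) :=
    fun _ => rfl
  rw [e1, e1]
  rw [h3] at h1
  linarith

/-- **the items of a host at any columns of the class part of another row**, with the class points of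
the host which are not partners of PC pairs with this tail -/
theorem Fam.cls_cols (hW : WSysT G (co G) A (CP G Z T S) (HP G Z T S) (tlo G T hm))
    (h : ∀ x ∈ A, Fam (co G) (CP G Z T S) (HP G Z T S) (tlo G T hm) x (U x))
    {x z : V} (hx : x ∈ A) {D : Finset V} (hD : D ⊆ CP G Z T S z) :
    (D.card : ℤ) * ∑ u ∈ U x, (ikp (tlo G T hm) z u : ℤ)
      - ∑ u ∈ U x, (ims G (CP G Z T S) (tlo G T hm) z u : ℤ)
      + ∑ c ∈ D, (dg G (CP G Z T S x \ (pcz (tlo G T hm) z (U x)).image Prod.snd) c : ℤ)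
      ≤ ∑ c ∈ D, (dg G (S x) c : ℤ) := by
  set K := (U x).filter fun u => ikp (tlo G T hm) z u ≠ 0 with hK
  have hg := Fam.grp hW h (D := {x}) (singleton_subset_iff.2 hx) (K := U x)
    (by rw [singleton_biUnion]) (z := z) (X := oth (tlo G T hm) z) fun _ => subset_rfl
  have hg' : Grp G D K (rpts (tlo G T hm) (oth (tlo G T hm) z) z)
      (fun u => (ikp (tlo G T hm) z u : ℤ))
      (fun u c => if c ∈ rcl G (CP G Z T S) (tlo G T hm) (oth (tlo G T hm) z) z u then 1 else 0) :=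
    ⟨hg.dis, fun u hu c hc => hg.see u hu c (hD hc)⟩
  have h1 := hg'.sum_le (W := K.biUnion (rpts (tlo G T hm) (oth (tlo G T hm) z) z)) subset_rfl
  set W := K.biUnion (rpts (tlo G T hm) (oth (tlo G T hm) z) z) with hWd
  set P := (pcz (tlo G T hm) z (U x)).image Prod.snd with hP
  have hWS : W ⊆ S x := by
    refine biUnion_subset.2 fun u hu => ?_
    rw [rpts_oth]
    refine ((h x hx).ipts_sub (mem_filter.1 hu).1).trans ?_
    rw [union_comm, CP_union_HP]
  have hdis : Disjoint W (CP G Z T S x \ P) := by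
    rw [disjoint_left]
    intro v hv hv'
    obtain ⟨h2, h3⟩ := mem_sdiff.1 hv'
    obtain ⟨u, hu, hvu⟩ := mem_biUnion.1 hv
    obtain ⟨hu1, hu2⟩ := mem_filter.1 hu
    rw [rpts_oth] at hvu
    have hno : v ∉ HP G Z T S x := fun h4 => disjoint_left.1 (hW.dHC x hx x hx) h4 h2
    rcases u with Q | e
    · exact hno ((h x hx).sub Q hu1 hvu)
    · rcases mem_insert.1 hvu with h4 | h4
      · exact hno (h4 ▸ (h x hx).pcH e hu1)
      · refine h3 (mem_image.2 ⟨e, mem_pcz.2 ⟨hu1, ?_⟩, (mem_singleton.1 h4).symm⟩)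
        by_contra h5
        exact hu2 (by simp only [ikp, h5, if_false])
  have h2 : ∑ c ∈ D, (dg G W c : ℤ) + ∑ c ∈ D, (dg G (CP G Z T S x \ P) c : ℤ)
      ≤ ∑ c ∈ D, (dg G (S x) c : ℤ) := by
    rw [← sum_add_distrib]
    refine sum_le_sum fun c _ => ?_
    have h3 : dg G W c + dg G (CP G Z T S x \ P) c = dg G (W ∪ (CP G Z T S x \ P)) c := by
      unfold dg
      rw [filter_union, card_union_of_disjoint (disjoint_filter_filter hdis)]
    have h4 : dg G (W ∪ (CP G Z T S x \ P)) c ≤ dg G (S x) c := by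
      unfold dg
      refine card_le_card (filter_subset_filter _ (union_subset hWS ?_))
      exact sdiff_subset.trans fun v hv => (mem_CP.1 hv).1
    exact_mod_cast h3.le.trans h4
  have h3 : ∀ u ∈ K, (D.card : ℤ) * ikp (tlo G T hm) z u
      - (ims G (CP G Z T S) (tlo G T hm) z u : ℤ)
      ≤ (D.card : ℤ) * ikp (tlo G T hm) z u - ∑ c ∈ D,
        (if c ∈ rcl G (CP G Z T S) (tlo G T hm) (oth (tlo G T hm) z) z u then (1 : ℤ) else 0) := by
    intro u _
    have h4 : ∑ c ∈ D, (if c ∈ rcl G (CP G Z T S) (tlo G T hm) (oth (tlo G T hm) z) z u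
        then (1 : ℤ) else 0) ≤ (ims G (CP G Z T S) (tlo G T hm) z u : ℤ) := by
      rw [← sum_filter, sum_const, nsmul_eq_mul, mul_one]
      have h5 : (D.filter fun c => c ∈ rcl G (CP G Z T S) (tlo G T hm) (oth (tlo G T hm) z) z u)
          ⊆ icl G (CP G Z T S) (tlo G T hm) z u := fun c hc => (mem_filter.1 hc).2
      exact_mod_cast card_le_card h5
    linarith
  have h4 := sum_le_sum h3
  have h5 : ∑ u ∈ K, ((D.card : ℤ) * ikp (tlo G T hm) z u
      - (ims G (CP G Z T S) (tlo G T hm) z u : ℤ))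
      = (D.card : ℤ) * ∑ u ∈ U x, (ikp (tlo G T hm) z u : ℤ)
        - ∑ u ∈ U x, (ims G (CP G Z T S) (tlo G T hm) z u : ℤ) := by
    rw [mul_sum, ← sum_sub_distrib, hK]
    refine sum_filter_of_ne fun u _ hu => ?_
    intro h6
    apply hu
    have h7 : ims G (CP G Z T S) (tlo G T hm) z u = 0 := by
      have h8 : ims G (CP G Z T S) (tlo G T hm) z u
          ≤ ikp (tlo G T hm) z u * (CP G Z T S z).card :=
        rcl_card_le (G := G) (C := CP G Z T S) (tl := tlo G T hm)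
          (X := oth (tlo G T hm) z) (z := z) (u := u)
      rw [h6, Nat.zero_mul] at h8
      exact Nat.le_zero.1 h8
    rw [h6, h7]
    simp
  rw [h5] at h4
  linarith

variable (G) in
/-- the loss at the columns `C` by the members `H` when every column counts at most `q` -/
noncomputable def lsx (C H : Finset V) (q : ℤ) : ℤ := ∑ a ∈ C, min q (nd G H a : ℤ)

/-- the columns of small missing degree -/
theorem Fam.exists_cols (hF : PFrame G r m t Z T) (hC : CSys G Z T hm A S)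
    (hW : WSysT G (co G) A (CP G Z T S) (HP G Z T S) (tlo G T hm))
    (h : ∀ x ∈ A, Fam (co G) (CP G Z T S) (HP G Z T S) (tlo G T hm) x (U x))
    {x z : V} (hx : x ∈ A) (hz : z ∈ A) {s : ℤ} :
    ∃ D ⊆ S x, max 0 (((CP G Z T S x).card : ℤ)
        * (∑ u ∈ U z, (ikp (tlo G T hm) x u : ℤ) - 1 - s)
        - lsx G (CP G Z T S x) (HP G Z T S x) (∑ u ∈ U z, (ikp (tlo G T hm) x u : ℤ) - 1 - s)
        - ∑ u ∈ U z, (ims G (CP G Z T S) (tlo G T hm) x u : ℤ))
      ≤ ∑ v ∈ D, ((dg G (S z) v : ℤ) - nd G (S x) v - 1 - s) := by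
  set k : ℤ := ∑ u ∈ U z, (ikp (tlo G T hm) x u : ℤ) with hk
  set q : ℤ := k - 1 - s with hq
  set C := CP G Z T S x with hCd
  set H := HP G Z T S x with hHd
  rcases le_total 0 ((C.card : ℤ) * q - lsx G C H q
    - ∑ u ∈ U z, (ims G (CP G Z T S) (tlo G T hm) x u : ℤ)) with h0 | h0
  · rw [max_eq_right h0]
    set D := C.filter fun a => (nd G H a : ℤ) ≤ q with hD
    have hDC : D ⊆ C := filter_subset _ _
    refine ⟨D, hDC.trans fun v hv => (mem_CP.1 hv).1, ?_⟩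
    have h1 := Fam.cls_cols hW h hz hDC
    have h2 : ∀ a ∈ D, (nd G (S x) a : ℤ) = nd G H a := by
      intro a ha
      have e1 : S x = C ∪ H := by rw [hCd, hHd, CP_union_HP]
      have e2 := nd_union (G := G) (A := C) (B := H) (hC.dCH hx hx) a
      have e3 : nd G C a = 0 := by
        unfold nd
        rw [card_eq_zero, filter_eq_empty_iff]
        rintro b hb ⟨h3, h4⟩
        exact h4 (hC.CP_clq hF hx a (hDC ha) b hb (Ne.symm h3))
      rw [e1, e2, e3, zero_add]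
    have h3 : ∑ v ∈ D, ((dg G (S z) v : ℤ) - nd G (S x) v - 1 - s)
        = ∑ v ∈ D, (dg G (S z) v : ℤ) - (D.card : ℤ) * k + ∑ v ∈ D, (q - (nd G H v : ℤ)) := by
      rw [sum_congr rfl fun a ha => by rw [h2 a ha]]
      rw [← nsmul_eq_mul, ← sum_const, ← sum_sub_distrib, ← sum_add_distrib]
      refine sum_congr rfl fun a _ => ?_
      rw [hq]
      ring
    have h4 : ∑ a ∈ C, (q - min q (nd G H a : ℤ)) ≤ ∑ v ∈ D, (q - (nd G H v : ℤ)) := by
      rw [hD, sum_filter]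
      refine sum_le_sum fun a _ => ?_
      split_ifs with h5
      · rw [min_eq_right h5]
      · rw [min_eq_left (not_le.1 h5).le]
        simp
    have h5 : ∑ a ∈ C, (q - min q (nd G H a : ℤ)) = (C.card : ℤ) * q - lsx G C H q := by
      rw [sum_sub_distrib, sum_const, nsmul_eq_mul]
      rfl
    have h6 : 0 ≤ ∑ c ∈ D, (dg G (CP G Z T S z \ (pcz (tlo G T hm) x (U z)).image Prod.snd) c : ℤ) :=
      sum_nonneg fun _ _ => Nat.cast_nonneg _
    rw [h3]
    linarith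
  · rw [max_eq_left h0]
    exact ⟨∅, empty_subset _, by simp⟩

/-- **the two-slot test with the degree sum over the items** -/
theorem Fam.low (hL : LowD G r) (hF : PFrame G r m t Z T) (hC : CSys G Z T hm A S)
    (hW : WSysT G (co G) A (CP G Z T S) (HP G Z T S) (tlo G T hm))
    (h : ∀ x ∈ A, Fam (co G) (CP G Z T S) (HP G Z T S) (tlo G T hm) x (U x))
    {x z : V} (hx : x ∈ A) (hz : z ∈ A) (hxz : x ≠ z) :
    2 * ((r : ℤ) - 2) * ((((S x).card : ℤ) - r) + (((S z).card : ℤ) - r))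
      + 2 * ∑ v ∈ S z, (dg G (S x) v : ℤ)
      + 2 * max 0 (((CP G Z T S x).card : ℤ)
          * (∑ u ∈ U z, (ikp (tlo G T hm) x u : ℤ) - 1 - (((S z).card : ℤ) - r))
        - lsx G (CP G Z T S x) (HP G Z T S x)
          (∑ u ∈ U z, (ikp (tlo G T hm) x u : ℤ) - 1 - (((S z).card : ℤ) - r))
        - ∑ u ∈ U z, (ims G (CP G Z T S) (tlo G T hm) x u : ℤ))
      + 2 * max 0 (((CP G Z T S z).card : ℤ)
          * (∑ u ∈ U x, (ikp (tlo G T hm) z u : ℤ) - 1 - (((S x).card : ℤ) - r))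
        - lsx G (CP G Z T S z) (HP G Z T S z)
          (∑ u ∈ U x, (ikp (tlo G T hm) z u : ℤ) - 1 - (((S x).card : ℤ) - r))
        - ∑ u ∈ U x, (ims G (CP G Z T S) (tlo G T hm) z u : ℤ))
      ≤ NE G (S x) + NE G (S z) + 2 * r
        + 2 * (((S x).card : ℤ) - r) * (((S z).card : ℤ) - r) := by
  obtain ⟨Dx, hDx, h1⟩ := Fam.exists_cols hF hC hW h hx hz (s := ((S z).card : ℤ) - r)
  obtain ⟨Dz, hDz, h2⟩ := Fam.exists_cols hF hC hW h hz hx (s := ((S x).card : ℤ) - r)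
  have h3 := hC.two_low hL hx hz hxz hDx hDz
  linarith

/-- the columns of small missing degree, hits of the items of the hosts `Y` -/
theorem Fam.exists_colsY (hF : PFrame G r m t Z T) (hC : CSys G Z T hm A S)
    (hW : WSysT G (co G) A (CP G Z T S) (HP G Z T S) (tlo G T hm))
    (h : ∀ x ∈ A, Fam (co G) (CP G Z T S) (HP G Z T S) (tlo G T hm) x (U x))
    {x : V} (hx : x ∈ A) {Y : Finset V} (hY : Y ⊆ A) {w : ℤ} :
    ∃ D ⊆ S x, max 0 (((CP G Z T S x).card : ℤ)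
        * (∑ y ∈ Y, ∑ u ∈ U y, (ikp (tlo G T hm) x u : ℤ) - w)
        - lsx G (CP G Z T S x) (HP G Z T S x)
          (∑ y ∈ Y, ∑ u ∈ U y, (ikp (tlo G T hm) x u : ℤ) - w)
        - ∑ y ∈ Y, ∑ u ∈ U y, (ims G (CP G Z T S) (tlo G T hm) x u : ℤ))
      ≤ ∑ v ∈ D, (∑ y ∈ Y, (dg G (S y) v : ℤ) - nd G (S x) v - w) := by
  set k : ℤ := ∑ y ∈ Y, ∑ u ∈ U y, (ikp (tlo G T hm) x u : ℤ) with hk
  set q : ℤ := k - w with hq
  set C := CP G Z T S x with hCd
  set H := HP G Z T S x with hHd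
  rcases le_total 0 ((C.card : ℤ) * q - lsx G C H q
    - ∑ y ∈ Y, ∑ u ∈ U y, (ims G (CP G Z T S) (tlo G T hm) x u : ℤ)) with h0 | h0
  · rw [max_eq_right h0]
    set D := C.filter fun a => (nd G H a : ℤ) ≤ q with hD
    have hDC : D ⊆ C := filter_subset _ _
    refine ⟨D, hDC.trans fun v hv => (mem_CP.1 hv).1, ?_⟩
    have h1 : ∀ y ∈ Y, (D.card : ℤ) * ∑ u ∈ U y, (ikp (tlo G T hm) x u : ℤ)
        - ∑ u ∈ U y, (ims G (CP G Z T S) (tlo G T hm) x u : ℤ)
        ≤ ∑ c ∈ D, (dg G (S y) c : ℤ) := by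
      intro y hy
      have h2 := Fam.cls_cols hW h (hY hy) hDC
      have h3 : 0 ≤ ∑ c ∈ D,
          (dg G (CP G Z T S y \ (pcz (tlo G T hm) x (U y)).image Prod.snd) c : ℤ) :=
        sum_nonneg fun _ _ => Nat.cast_nonneg _
      linarith
    have h1' := sum_le_sum h1
    rw [sum_sub_distrib, ← mul_sum, ← hk, sum_comm] at h1'
    have h2 : ∀ a ∈ D, (nd G (S x) a : ℤ) = nd G H a := by
      intro a ha
      have e1 : S x = C ∪ H := by rw [hCd, hHd, CP_union_HP]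
      have e2 := nd_union (G := G) (A := C) (B := H) (hC.dCH hx hx) a
      have e3 : nd G C a = 0 := by
        unfold nd
        rw [card_eq_zero, filter_eq_empty_iff]
        rintro b hb ⟨h3, h4⟩
        exact h4 (hC.CP_clq hF hx a (hDC ha) b hb (Ne.symm h3))
      rw [e1, e2, e3, zero_add]
    have h3 : ∑ v ∈ D, (∑ y ∈ Y, (dg G (S y) v : ℤ) - nd G (S x) v - w)
        = ∑ v ∈ D, ∑ y ∈ Y, (dg G (S y) v : ℤ) - (D.card : ℤ) * k
          + ∑ v ∈ D, (q - (nd G H v : ℤ)) := by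
      rw [sum_congr rfl fun a ha => by rw [h2 a ha]]
      rw [← nsmul_eq_mul, ← sum_const, ← sum_sub_distrib, ← sum_add_distrib]
      refine sum_congr rfl fun a _ => ?_
      rw [hq]
      ring
    have h4 : ∑ a ∈ C, (q - min q (nd G H a : ℤ)) ≤ ∑ v ∈ D, (q - (nd G H v : ℤ)) := by
      rw [hD, sum_filter]
      refine sum_le_sum fun a _ => ?_
      split_ifs with h5
      · rw [min_eq_right h5]
      · rw [min_eq_left (not_le.1 h5).le]
        simp
    have h5 : ∑ a ∈ C, (q - min q (nd G H a : ℤ)) = (C.card : ℤ) * q - lsx G C H q := by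
      rw [sum_sub_distrib, sum_const, nsmul_eq_mul]
      rfl
    rw [h3]
    linarith
  · rw [max_eq_left h0]
    exact ⟨∅, empty_subset _, by simp⟩

/-- **the test of the rows `B` with the degree sum over the items**, at the class parts of all rows of
`B` -/
theorem Fam.lowB (hL : LowD G r) (hF : PFrame G r m t Z T) (hC : CSys G Z T hm A S)
    (hW : WSysT G (co G) A (CP G Z T S) (HP G Z T S) (tlo G T hm))
    (h : ∀ x ∈ A, Fam (co G) (CP G Z T S) (HP G Z T S) (tlo G T hm) x (U x))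
    {B : Finset V} (hB : B ⊆ A) (hB1 : 1 ≤ B.card) :
    ((B.card : ℤ) - 1) * (2 * ((r : ℤ) - B.card) * ∑ x ∈ B, (((S x).card : ℤ) - r)
      + ∑ x ∈ B, ∑ y ∈ B.erase x, ∑ v ∈ S y, (dg G (S x) v : ℤ)
      + ∑ x ∈ B, (((S x).card : ℤ) - r) ^ 2)
      + 2 * ∑ x ∈ B, max 0 (((CP G Z T S x).card : ℤ)
          * (∑ y ∈ B.erase x, ∑ u ∈ U y, (ikp (tlo G T hm) x u : ℤ)
            - ((B.card : ℤ) - 1 + ∑ y ∈ B.erase x, (((S y).card : ℤ) - r)))
        - lsx G (CP G Z T S x) (HP G Z T S x)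
          (∑ y ∈ B.erase x, ∑ u ∈ U y, (ikp (tlo G T hm) x u : ℤ)
            - ((B.card : ℤ) - 1 + ∑ y ∈ B.erase x, (((S y).card : ℤ) - r)))
        - ∑ y ∈ B.erase x, ∑ u ∈ U y, (ims G (CP G Z T S) (tlo G T hm) x u : ℤ))
      ≤ ((B.card : ℤ) - 1) * (∑ x ∈ B, (NE G (S x) : ℤ) + B.card * (B.card - 1) * r
        + (∑ x ∈ B, (((S x).card : ℤ) - r)) ^ 2) := by
  have key : ∀ x : V, ∃ D : Finset V, x ∈ B → D ⊆ S x ∧ max 0 (((CP G Z T S x).card : ℤ)
          * (∑ y ∈ B.erase x, ∑ u ∈ U y, (ikp (tlo G T hm) x u : ℤ)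
            - ((B.card : ℤ) - 1 + ∑ y ∈ B.erase x, (((S y).card : ℤ) - r)))
        - lsx G (CP G Z T S x) (HP G Z T S x)
          (∑ y ∈ B.erase x, ∑ u ∈ U y, (ikp (tlo G T hm) x u : ℤ)
            - ((B.card : ℤ) - 1 + ∑ y ∈ B.erase x, (((S y).card : ℤ) - r)))
        - ∑ y ∈ B.erase x, ∑ u ∈ U y, (ims G (CP G Z T S) (tlo G T hm) x u : ℤ))
      ≤ ∑ v ∈ D, (∑ y ∈ B.erase x, (dg G (S y) v : ℤ) - nd G (S x) v
        - ((B.card : ℤ) - 1 + ∑ y ∈ B.erase x, (((S y).card : ℤ) - r))) := by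
    intro x
    by_cases hx : x ∈ B
    · obtain ⟨D, h1, h2⟩ := Fam.exists_colsY hF hC hW h (hB hx) (Y := B.erase x)
        ((erase_subset _ _).trans hB)
        (w := (B.card : ℤ) - 1 + ∑ y ∈ B.erase x, (((S y).card : ℤ) - r))
      exact ⟨D, fun _ => ⟨h1, h2⟩⟩
    · exact ⟨∅, fun h1 => absurd h1 hx⟩
  choose D hD using key
  have h1 := hC.star_low hL hB hB1 (D := D) fun x hx => (hD x hx).1
  have h2 : ∑ x ∈ B, max 0 (((CP G Z T S x).card : ℤ)
          * (∑ y ∈ B.erase x, ∑ u ∈ U y, (ikp (tlo G T hm) x u : ℤ)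
            - ((B.card : ℤ) - 1 + ∑ y ∈ B.erase x, (((S y).card : ℤ) - r)))
        - lsx G (CP G Z T S x) (HP G Z T S x)
          (∑ y ∈ B.erase x, ∑ u ∈ U y, (ikp (tlo G T hm) x u : ℤ)
            - ((B.card : ℤ) - 1 + ∑ y ∈ B.erase x, (((S y).card : ℤ) - r)))
        - ∑ y ∈ B.erase x, ∑ u ∈ U y, (ims G (CP G Z T S) (tlo G T hm) x u : ℤ))
      ≤ ∑ x ∈ B, ∑ v ∈ D x, (∑ y ∈ B.erase x, (dg G (S y) v : ℤ) - nd G (S x) v
        - (B.card - 1) - ∑ y ∈ B, (((S y).card : ℤ) - r) + (((S x).card : ℤ) - r)) := by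
    refine sum_le_sum fun x hx => (hD x hx).2.trans (le_of_eq ?_)
    refine sum_congr rfl fun v _ => ?_
    have h3 := add_sum_erase B (fun y => ((S y).card : ℤ) - r) hx
    have h4 : (((S x).card : ℤ) - r) + ∑ y ∈ B.erase x, (((S y).card : ℤ) - r)
        = ∑ y ∈ B, (((S y).card : ℤ) - r) := h3
    rw [← h4]
    ring
  linarith

end RectLow

section Loss

variable {V : Type*} {G : SimpleGraph V} {C H : Finset V} {q : ℤ}

variable (G) in
/-- the columns which are missed by a member -/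
noncomputable def bst (C H : Finset V) : Finset V := C.filter fun a => nd G H a ≠ 0

lemma lsx_le_q (hq : 0 ≤ q) : lsx G C H q ≤ q * (bst G C H).card := by
  have h1 : lsx G C H q ≤ ∑ a ∈ C, (if nd G H a ≠ 0 then q else 0) := by
    refine sum_le_sum fun a _ => ?_
    split_ifs with h2
    · exact min_le_left _ _
    · rw [not_not.1 h2]
      exact min_le_right _ _
  rw [← sum_filter, sum_const, nsmul_eq_mul, mul_comm] at h1
  exact h1

lemma lsx_le_ar : lsx G C H q ≤ ∑ v ∈ H, (nd G C v : ℤ) := by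
  have h1 : lsx G C H q ≤ ∑ a ∈ C, (nd G H a : ℤ) := sum_le_sum fun a _ => min_le_right _ _
  have h2 : ∑ a ∈ C, (nd G H a : ℤ) = ∑ v ∈ H, (nd G C v : ℤ) := by
    exact_mod_cast nd_comm (G := G) C H
  rw [h2] at h1
  exact h1

/-- the missed columns of an optimal packing -/
lemma PkOpt.bst_sub {ι : Type*} {tl : V → ι} {B : Finset (V × V)} {Ps : Finset (Finset V)}
    {φ : Finset (V × V) → Finset (Finset V) → ℕ} (h : PkOpt G C H tl φ B Ps) :
    bst G C H ⊆ B.image Prod.snd ∪ B.biUnion fun e => frC G C tl B e.1 := by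
  intro a ha
  obtain ⟨h1, h2⟩ := mem_filter.1 ha
  obtain ⟨v, hv⟩ := card_pos.1 (Nat.pos_of_ne_zero h2)
  obtain ⟨h3, -, h5⟩ := mem_filter.1 hv
  have h6 : ¬ G.Adj v a := fun h7 => h5 h7.symm
  rw [mem_union]
  rcases h.cov v h3 with ⟨e, he, rfl⟩ | ⟨P, hP, hvP⟩
  · by_cases h7 : ∃ f ∈ B, f.2 = a ∧ tl f.1 = tl e.1
    · obtain ⟨f, hf, h8, -⟩ := h7
      exact Or.inl (mem_image.2 ⟨f, hf, h8⟩)
    · right
      refine mem_biUnion.2 ⟨e, he, mem_frC.2 ⟨h1, h6, fun f hf h8 h9 => h7 ⟨f, hf, h8, h9⟩⟩⟩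
  · obtain ⟨e, he, h7, -⟩ := h.used hP hvP h1 h6
    exact Or.inl (mem_image.2 ⟨e, he, h7⟩)

/-- the missed columns of any packing -/
lemma Pk.bst_sub {ι : Type*} {tl : V → ι} {B : Finset (V × V)} {Ps : Finset (Finset V)}
    (_h : Pk G C H tl B Ps) :
    bst G C H ⊆ (B.image Prod.snd ∪ B.biUnion fun e => frC G C tl B e.1)
      ∪ (Nend G C H tl B).biUnion fun v => frC G C tl B v := by
  intro a ha
  obtain ⟨h1, h2⟩ := mem_filter.1 ha
  obtain ⟨v, hv⟩ := card_pos.1 (Nat.pos_of_ne_zero h2)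
  obtain ⟨h3, -, h5⟩ := mem_filter.1 hv
  have h6 : ¬ G.Adj v a := fun h7 => h5 h7.symm
  rw [mem_union, mem_union]
  by_cases h7 : ∃ f ∈ B, f.2 = a ∧ tl f.1 = tl v
  · obtain ⟨f, hf, h8, -⟩ := h7
    exact Or.inl (Or.inl (mem_image.2 ⟨f, hf, h8⟩))
  · have h8 : a ∈ frC G C tl B v := mem_frC.2 ⟨h1, h6, fun f hf h8 h9 => h7 ⟨f, hf, h8, h9⟩⟩
    by_cases h9 : v ∈ B.image Prod.fst
    · obtain ⟨e, he, rfl⟩ := mem_image.1 h9
      exact Or.inl (Or.inr (mem_biUnion.2 ⟨e, he, h8⟩))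
    · exact Or.inr (mem_biUnion.2 ⟨v, mem_Nend.2 ⟨mem_sdiff.2 ⟨h3, h9⟩, a, h8⟩, h8⟩)

/-- **a packing with the least number of parts of value zero: the slot is a clique** -/
theorem Pk.clq_of_zero {ι : Type*} {tl : V → ι} {Q : Finset (V × V)} {Ps : Finset (Finset V)}
    (h : Pk G C H tl Q Ps) (hmin : ∀ B' Ps', Pk G C H tl B' Ps' → Ps.card ≤ Ps'.card)
    (h32 : ∀ v ∈ H, ∀ w ∈ H, ∀ a ∈ C, v ≠ w → tl v = tl w →
      ¬ G.Adj v a → ¬ G.Adj w a → G.Adj v w) (hC : Clq G C)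
    (h0 : ∑ u ∈ pkf Q Ps, (ivl u : ℤ) ≤ 0) : Clq G (C ∪ H) := by
  have h1 := h.card_le_mu
  have hQ : Q = ∅ := card_eq_zero.1 (by
    have : (Q.card : ℤ) ≤ 0 := h1.trans h0
    omega)
  have h2 := h.sum_ivl
  have h3 : Ps.card = H.card := by
    have h4 : (∑ u ∈ pkf Q Ps, (ivl u : ℤ)) + Ps.card = (H.card : ℤ) := by exact_mod_cast h2
    have h5 : 0 ≤ ∑ u ∈ pkf Q Ps, (ivl u : ℤ) := sum_nonneg fun _ _ => Nat.cast_nonneg _
    have h6 : (Ps.card : ℤ) = H.card := by linarith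
    exact_mod_cast h6
  have hone : ∀ P ∈ Ps, P.card = 1 := by
    have h4 := h.card_H
    rw [hQ, card_empty, zero_add, ← h3] at h4
    have h5 : ∀ P ∈ Ps, 1 ≤ P.card := fun P hP => card_pos.2 (h.ne P hP)
    have h6 : ∑ P ∈ Ps, 1 = ∑ P ∈ Ps, P.card := by
      rw [← h4, card_eq_sum_ones]
    have h7 := (sum_eq_sum_iff_of_le h5).1 h6
    exact fun P hP => (h7 P hP).symm
  have hpart : ∀ u ∈ H, ∃ P ∈ Ps, P = {u} := by
    intro u hu
    rcases h.cov u hu with ⟨e, he, -⟩ | ⟨P, hP, huP⟩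
    · rw [hQ] at he
      exact absurd he (notMem_empty e)
    · obtain ⟨w, hw⟩ := card_eq_one.1 (hone P hP)
      rw [hw, mem_singleton] at huP
      exact ⟨P, hP, by rw [hw, huP]⟩
  have hmiss : ∀ v ∈ H, ∀ a ∈ C, G.Adj v a := by
    intro v hv a ha
    by_contra hva
    obtain ⟨P, hP, rfl⟩ := hpart v hv
    obtain ⟨w, hw, hw'⟩ := h.home hmin h32 hP
    rw [mem_singleton.1 hw] at hw'
    refine hw' ⟨a, mem_frC.2 ⟨ha, hva, fun e he => ?_⟩⟩
    rw [hQ] at he
    exact absurd he (notMem_empty e)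
  intro u hu v hv huv
  rcases mem_union.1 hu with hu | hu <;> rcases mem_union.1 hv with hv | hv
  · exact hC u hu v hv huv
  · exact (hmiss v hv u hu).symm
  · exact hmiss u hu v hv
  · obtain ⟨P, hP, rfl⟩ := hpart u hu
    obtain ⟨P', hP', rfl⟩ := hpart v hv
    have hPP : ({u} : Finset V) ≠ {v} := fun h4 => huv (singleton_injective h4)
    obtain ⟨a, ha, b, hb, hab, -⟩ := h.edgeN hmin h32 hP hP' hPP
    rw [mem_singleton] at ha hb
    rwa [ha, hb] at hab

end Loss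

section Str

variable {ι : Type*}

/-- **the items with energies, rectangles and the two-slot test with the degree sum**: `be i j` the PC
pairs of `i` with tail `j`, `ls i q` the loss by the members of `i` at the columns of `i` when every
column counts at most `q` -/
structure ItX (R : ℤ) (n : ℕ) (t s h e : ℕ → ℤ) (E : ℕ → ℕ → ℤ) (U : Finset ι)
    (ho : ι → ℕ) (vl : ι → ℤ) (kp ms mr : ℕ → ι → ℤ) (mu Nb : ℕ → ℤ) (Nx : ℕ → ℕ → ℤ)
    (be : ℕ → ℕ → ℤ) (ls : ℕ → ℤ → ℤ) : Prop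
    extends ItE R n t s h e E U ho vl kp ms mr mu Nb Nx where
  n5 : 5 ≤ n
  nr : (n : ℤ) + 4 ≤ R
  cap : ∑ i ∈ range n, ∑ j ∈ (range n).erase i, E i j + ∑ i ∈ range n, s i ^ 2
    + 2 * ((n : ℤ) - 1) * R
    ≤ 2 * ∑ i ∈ range n, e i + ((n : ℤ) ^ 2 - n - 2) * (R + 1) + 2 * n + 1
  be0 : ∀ i < n, ∀ j < n, 0 ≤ be i j
  bek : ∀ i < n, ∀ j < n, be i j ≤ ∑ u ∈ U.filter (fun u => ho u = i), kp j u
  bem : ∀ i < n, ∑ j ∈ (range n).erase i, be i j ≤ mu i
  mup : ∀ i < n, 0 ≤ s i → 1 ≤ mu i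
  rect : ∀ i < n, ∀ j < n, i ≠ j → ∀ w ∈ U,
    ∑ u ∈ U.filter (fun u => ho u = i), (kp j u * (R - t j) - ms j u)
      + ∑ u ∈ U.filter (fun u => ho u = j), (kp i u * (R - t i) - ms i u)
      + max 0 (ms i w - be i j) * max 0 (ms j w - be j i) ≤ E i j
  low : ∀ i < n, ∀ j < n, i ≠ j →
    2 * (R - 1) * (s i + s j) + 2 * E i j
      + 2 * max 0 ((R - t i) * (∑ u ∈ U.filter (fun u => ho u = j), kp i u - 1 - s j)
        - ls i (∑ u ∈ U.filter (fun u => ho u = j), kp i u - 1 - s j)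
        - ∑ u ∈ U.filter (fun u => ho u = j), ms i u)
      + 2 * max 0 ((R - t j) * (∑ u ∈ U.filter (fun u => ho u = i), kp j u - 1 - s i)
        - ls j (∑ u ∈ U.filter (fun u => ho u = i), kp j u - 1 - s i)
        - ∑ u ∈ U.filter (fun u => ho u = i), ms j u)
      ≤ 2 * e i + 2 * e j + 2 * (R + 1) + 2 * s i * s j
  lowB : ∀ B ⊆ range n, 1 ≤ B.card →
    ((B.card : ℤ) - 1) * (2 * (R + 1 - B.card) * ∑ i ∈ B, s i + ∑ i ∈ B, ∑ j ∈ B.erase i, E i j
        + ∑ i ∈ B, s i ^ 2)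
      + 2 * ∑ i ∈ B, max 0 ((R - t i)
          * (∑ j ∈ B.erase i, ∑ u ∈ U.filter (fun u => ho u = j), kp i u
            - ((B.card : ℤ) - 1 + ∑ j ∈ B.erase i, s j))
        - ls i (∑ j ∈ B.erase i, ∑ u ∈ U.filter (fun u => ho u = j), kp i u
            - ((B.card : ℤ) - 1 + ∑ j ∈ B.erase i, s j))
        - ∑ j ∈ B.erase i, ∑ u ∈ U.filter (fun u => ho u = j), ms i u)
      ≤ ((B.card : ℤ) - 1) * (2 * ∑ i ∈ B, e i + B.card * (B.card - 1) * (R + 1)
        + (∑ i ∈ B, s i) ^ 2)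
  lsn : ∀ i < n, ∀ q, ∀ q', q ≤ q' → ls i q ≤ ls i q'

/-- **version [A]** (homes by minimal three-sided covers, optimal packings): `bo i j` the ordered pairs
of PC pairs of the cell with both arcs -/
structure ItXA (R : ℤ) (n : ℕ) (t s h e : ℕ → ℤ) (E : ℕ → ℕ → ℤ) (U : Finset ι)
    (ho : ι → ℕ) (vl : ι → ℤ) (kp ms mr : ℕ → ι → ℤ) (mu Nb : ℕ → ℤ) (Nx : ℕ → ℕ → ℤ)
    (be : ℕ → ℕ → ℤ) (ls : ℕ → ℤ → ℤ) (bo : ℕ → ℕ → ℤ) : Prop
    extends ItX R n t s h e E U ho vl kp ms mr mu Nb Nx be ls where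
  bo0 : ∀ i < n, ∀ j < n, 0 ≤ bo i j
  bob : ∀ i < n, ∀ j < n, bo i j ≤ be i j * (be i j - 1)
  nb : ∀ i < n, Nb i = ∑ j ∈ (range n).erase i, (2 * be i j + bo i j)
  nx0 : ∀ i < n, ∀ j < n, 0 ≤ Nx i j
  nxz : ∀ i < n, ∀ j < n, be i j = 0 → Nx i j = 0
  lsb : ∀ i < n, ∀ q, 0 ≤ q → ls i q ≤ q * ∑ j ∈ (range n).erase i, (be i j + Nx i j)

end Str

section TransX

variable {V : Type*} {G : SimpleGraph V} {Z T : Finset V} {hm : V → V} {r m n : ℕ}
  {φ : Finset (V × V) → Finset (Finset V) → ℕ} {B : V → Finset (V × V)}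
  {Ps : V → Finset (Finset V)} {host : Itm V → V} {ρ : V → ℕ} {σ : ℕ → V}

/-- the items of one host -/
lemma fil_host (hst : ∀ x ∈ T, ∀ u ∈ pkf (B x) (Ps x), host u = x) {f : V → ℤ}
    (rk : Rank T f ρ σ) {i : ℕ} (hi : i < T.card) :
    (T.biUnion fun x => pkf (B x) (Ps x)).filter (fun u => ρ (host u) = i)
      = pkf (B (σ i)) (Ps (σ i)) := by
  ext u
  simp only [mem_filter, mem_biUnion]
  constructor
  · rintro ⟨⟨y, hy, hu⟩, h1⟩
    have h2 : σ i = y := by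
      rw [← h1, hst y hy u hu]
      exact rk.left y hy
    rw [h2]
    exact hu
  · intro hu
    refine ⟨⟨σ i, rk.mem i hi, hu⟩, ?_⟩
    rw [hst _ (rk.mem i hi) u hu]
    exact rk.right i hi

/-- **the transport to `ItX`** for any packings, any N-excess -/
theorem WHom.itx (h : WHom G Z T r m n hm)
    (hpk : ∀ x ∈ T, Pk G (cz G Z T hm x) (hz G Z T hm x) (tlo G T hm) (B x) (Ps x))
    (hst : ∀ x ∈ T, ∀ u ∈ pkf (B x) (Ps x), host u = x)
    (rk : Rank T (tI G Z T hm r Z) ρ σ)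
    (bic : BIC ((r : ℤ) - 1) n (fun i => tI G Z T hm r Z (σ i)) (fun i => sI hm r Z (σ i))
      (fun i => hI G Z T hm Z (σ i)) (fun i => eI G hm Z (σ i))
      (fun i j => EI G hm Z (σ i) (σ j))) {Nb : ℕ → ℤ} {Nx : ℕ → ℕ → ℤ}
    (it : ItE ((r : ℤ) - 1) n (fun i => tI G Z T hm r Z (σ i)) (fun i => sI hm r Z (σ i))
      (fun i => hI G Z T hm Z (σ i)) (fun i => eI G hm Z (σ i))
      (fun i j => EI G hm Z (σ i) (σ j)) (T.biUnion fun x => pkf (B x) (Ps x))
      (fun u => ρ (host u)) (fun u => (ivl u : ℤ)) (fun i u => (ikp (tlo G T hm) (σ i) u : ℤ))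
      (fun i u => (ims G (cz G Z T hm) (tlo G T hm) (σ i) u : ℤ))
      (fun i u => (rmr G (cz G Z T hm) (tlo G T hm) (σ i) u : ℤ))
      (fun i => ∑ u ∈ pkf (B (σ i)) (Ps (σ i)), (ivl u : ℤ)) Nb Nx)
    (mup : ∀ x ∈ T, 0 ≤ sI hm r Z x → 1 ≤ ∑ u ∈ pkf (B x) (Ps x), (ivl u : ℤ)) :
    ItX ((r : ℤ) - 1) n (fun i => tI G Z T hm r Z (σ i)) (fun i => sI hm r Z (σ i))
      (fun i => hI G Z T hm Z (σ i)) (fun i => eI G hm Z (σ i))
      (fun i j => EI G hm Z (σ i) (σ j)) (T.biUnion fun x => pkf (B x) (Ps x))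
      (fun u => ρ (host u)) (fun u => (ivl u : ℤ)) (fun i u => (ikp (tlo G T hm) (σ i) u : ℤ))
      (fun i u => (ims G (cz G Z T hm) (tlo G T hm) (σ i) u : ℤ))
      (fun i u => (rmr G (cz G Z T hm) (tlo G T hm) (σ i) u : ℤ))
      (fun i => ∑ u ∈ pkf (B (σ i)) (Ps (σ i)), (ivl u : ℤ)) Nb Nx
      (fun i j => pcn (tlo G T hm) B (σ i) (σ j))
      (fun i q => lsx G (cz G Z T hm (σ i)) (hz G Z T hm (σ i)) q) := by
  have hcard := h.cardT
  have hfam : ∀ x ∈ T, Fam (co G) (cz G Z T hm) (hz G Z T hm) (tlo G T hm) x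
      (pkf (B x) (Ps x)) := fun x hx => (hpk x hx).fam (h.csys.dCH hx hx).symm
  have hfil : ∀ i < n, (T.biUnion fun x => pkf (B x) (Ps x)).filter (fun u => ρ (host u) = i)
      = pkf (B (σ i)) (Ps (σ i)) := fun i hi => fil_host hst rk (by rw [hcard]; exact hi)
  have hmem : ∀ i < n, σ i ∈ T := fun i hi => rk.mem i (by rw [hcard]; exact hi)
  have hne : ∀ i < n, ∀ j < n, i ≠ j → σ i ≠ σ j := fun i hi j hj hij h1 =>
    hij (rk.sinj (by rw [hcard]; exact hi) (by rw [hcard]; exact hj) h1)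
  have hpcz : ∀ y w : V, pcz (tlo G T hm) w (pkf (B y) (Ps y)) = pcs (tlo G T hm) (B y) w := by
    intro y w
    ext e
    rw [mem_pcz, inr_mem_pkf, mem_pcs]
  have h2 : ∀ (y : V) (u : Itm V), (ikp (tlo G T hm) y u : ℤ)
      * ((r : ℤ) - 1 - tI G Z T hm r Z y) - (ims G (cz G Z T hm) (tlo G T hm) y u : ℤ)
      = iht G (cz G Z T hm) (tlo G T hm) y u := by
    intro y u
    unfold iht tI
    ring
  have hct : ∀ y : V, (r : ℤ) - 1 - tI G Z T hm r Z y = ((cz G Z T hm y).card : ℤ) := by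
    intro y
    unfold tI
    ring
  refine ⟨it, h.five, ?_, bic.C, fun i hi j hj => pcn_nonneg _ _ _ _, fun i hi j hj => ?_,
    fun i hi => ?_, fun i hi hs => mup _ (hmem i hi) hs, fun i hi j hj hij w hw => ?_,
    fun i hi j hj hij => ?_, fun B' hB hB1 => ?_, fun i hi q q' hq => ?_⟩
  · have := h.nr
    push_cast
    omega
  · show pcn (tlo G T hm) B (σ i) (σ j)
      ≤ ∑ u ∈ (T.biUnion fun x => pkf (B x) (Ps x)).filter (fun u => ρ (host u) = i),
        (ikp (tlo G T hm) (σ j) u : ℤ)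
    rw [hfil i hi]
    exact WHom.pcn_le (x := σ i) (tlo G T hm)
  · show ∑ j ∈ (range n).erase i, pcn (tlo G T hm) B (σ i) (σ j) ≤ _
    have h3 := h.sum_pcn (hmem i hi) (hpk _ (hmem i hi))
    have h4 := rk.sum_er (i := i) (by rw [hcard]; exact hi) fun z => pcn (tlo G T hm) B (σ i) z
    rw [hcard] at h4
    rw [← h4, ← h3]
    exact (hpk _ (hmem i hi)).card_le_mu
  · show ∑ u ∈ (T.biUnion fun x => pkf (B x) (Ps x)).filter (fun u => ρ (host u) = i), _
      + ∑ u ∈ (T.biUnion fun x => pkf (B x) (Ps x)).filter (fun u => ρ (host u) = j), _ + _ ≤ _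
    rw [hfil i hi, hfil j hj]
    simp only [h2]
    obtain ⟨y, hy, hwy⟩ := mem_biUnion.1 hw
    have h3 := Fam.rect h.wsysT hfam (hmem i hi) (hmem j hj) (hne i hi j hj hij) hy hwy
      (empty_subset _) (empty_subset _) (fun v hv => absurd hv (notMem_empty v))
      (fun v hv => absurd hv (notMem_empty v))
    rw [hpcz, hpcz, sum_empty, sum_empty] at h3
    have h4 : EI G hm Z (σ i) (σ j) = ∑ v ∈ Z.filter (fun v => hm v = σ j),
      (dg G (Z.filter fun v => hm v = σ i) v : ℤ) := rfl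
    rw [h4]
    unfold pcn
    linarith
  · show 2 * ((r : ℤ) - 1 - 1) * (sI hm r Z (σ i) + sI hm r Z (σ j)) + 2 * EI G hm Z (σ i) (σ j)
      + 2 * max 0 (((r : ℤ) - 1 - tI G Z T hm r Z (σ i))
        * (∑ u ∈ (T.biUnion fun x => pkf (B x) (Ps x)).filter (fun u => ρ (host u) = j),
          (ikp (tlo G T hm) (σ i) u : ℤ) - 1 - sI hm r Z (σ j)) - _ - _)
      + 2 * max 0 (((r : ℤ) - 1 - tI G Z T hm r Z (σ j))
        * (∑ u ∈ (T.biUnion fun x => pkf (B x) (Ps x)).filter (fun u => ρ (host u) = i),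
          (ikp (tlo G T hm) (σ j) u : ℤ) - 1 - sI hm r Z (σ i)) - _ - _) ≤ _
    rw [hfil i hi, hfil j hj, hct, hct]
    have h3 := Fam.low h.gw.ld h.F.toPFrame h.csys h.wsysT hfam (hmem i hi) (hmem j hj)
      (hne i hi j hj hij)
    have h5 := two_eI (G := G) (hm := hm) Z (σ i)
    have h6 := two_eI (G := G) (hm := hm) Z (σ j)
    rw [← h5, ← h6] at h3
    have e1 : (r : ℤ) - 1 - 1 = (r : ℤ) - 2 := by ring
    have e2 : (r : ℤ) - 1 + 1 = r := by ring
    rw [e1, e2]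
    exact h3
  · have hB' : B' ⊆ range T.card := by rw [hcard]; exact hB
    have hsub : B'.image σ ⊆ T := rk.image_sub hB'
    have h3 := Fam.lowB h.gw.ld h.F.toPFrame h.csys h.wsysT hfam hsub (by
      rw [rk.card_image hB']
      exact hB1)
    rw [rk.card_image hB'] at h3
    have e2 : (r : ℤ) - 1 + 1 = r := by ring
    have e3 : ∀ i ∈ B', ∀ g : V → ℤ,
        ∑ y ∈ (B'.image σ).erase (σ i), g y = ∑ j ∈ B'.erase i, g (σ j) := by
      intro i hi g
      have h4 := add_sum_erase (B'.image σ) g (mem_image_of_mem σ hi)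
      have h5 := add_sum_erase B' (fun j => g (σ j)) hi
      have h6 := rk.sum_im hB' g
      have h7 : g (σ i) + ∑ j ∈ B'.erase i, g (σ j) = ∑ j ∈ B', g (σ j) := h5
      linarith
    have e4 : ∀ g : V → ℤ, ∑ x ∈ B'.image σ, g x = ∑ i ∈ B', g (σ i) := rk.sum_im hB'
    have e5 : ∀ g : V → V → ℤ, ∑ x ∈ B'.image σ, ∑ y ∈ (B'.image σ).erase x, g x y
        = ∑ i ∈ B', ∑ j ∈ B'.erase i, g (σ i) (σ j) := by
      intro g
      rw [e4 fun x => ∑ y ∈ (B'.image σ).erase x, g x y]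
      exact sum_congr rfl fun i hi => e3 i hi _
    rw [e5 fun x y => ∑ v ∈ Z.filter (fun v => hm v = y), (dg G (Z.filter fun v => hm v = x) v : ℤ),
      e4 fun x => ((Z.filter fun v => hm v = x).card : ℤ) - r,
      e4 fun x => (((Z.filter fun v => hm v = x).card : ℤ) - r) ^ 2,
      e4 fun x => (NE G (Z.filter fun v => hm v = x) : ℤ), e4] at h3
    have e6 : ∑ i ∈ B', (NE G (Z.filter fun v => hm v = σ i) : ℤ)
        = 2 * ∑ i ∈ B', eI G hm Z (σ i) := by
      rw [mul_sum]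
      exact sum_congr rfl fun i _ => (two_eI (G := G) (hm := hm) Z (σ i)).symm
    rw [e6] at h3
    have e7 : ∀ i ∈ B', ∀ g : Itm V → ℤ, ∑ j ∈ B'.erase i,
        ∑ u ∈ (T.biUnion fun x => pkf (B x) (Ps x)).filter (fun u => ρ (host u) = j), g u
        = ∑ j ∈ B'.erase i, ∑ u ∈ pkf (B (σ j)) (Ps (σ j)), g u := fun i _ g =>
      sum_congr rfl fun j hj => by rw [hfil j (mem_range.1 (hB (mem_of_mem_erase hj)))]
    have e8 : ∀ i ∈ B', max 0 (((r : ℤ) - 1 - tI G Z T hm r Z (σ i))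
          * (∑ j ∈ B'.erase i, ∑ u ∈ (T.biUnion fun x => pkf (B x) (Ps x)).filter
              (fun u => ρ (host u) = j), (ikp (tlo G T hm) (σ i) u : ℤ)
            - ((B'.card : ℤ) - 1 + ∑ j ∈ B'.erase i, sI hm r Z (σ j)))
        - lsx G (cz G Z T hm (σ i)) (hz G Z T hm (σ i))
          (∑ j ∈ B'.erase i, ∑ u ∈ (T.biUnion fun x => pkf (B x) (Ps x)).filter
              (fun u => ρ (host u) = j), (ikp (tlo G T hm) (σ i) u : ℤ)
            - ((B'.card : ℤ) - 1 + ∑ j ∈ B'.erase i, sI hm r Z (σ j)))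
        - ∑ j ∈ B'.erase i, ∑ u ∈ (T.biUnion fun x => pkf (B x) (Ps x)).filter
              (fun u => ρ (host u) = j), (ims G (cz G Z T hm) (tlo G T hm) (σ i) u : ℤ))
        = max 0 (((cz G Z T hm (σ i)).card : ℤ)
          * (∑ y ∈ (B'.image σ).erase (σ i), ∑ u ∈ pkf (B y) (Ps y),
              (ikp (tlo G T hm) (σ i) u : ℤ)
            - ((B'.card : ℤ) - 1 + ∑ y ∈ (B'.image σ).erase (σ i),
              (((Z.filter fun v => hm v = y).card : ℤ) - r)))
        - lsx G (cz G Z T hm (σ i)) (hz G Z T hm (σ i))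
          (∑ y ∈ (B'.image σ).erase (σ i), ∑ u ∈ pkf (B y) (Ps y),
              (ikp (tlo G T hm) (σ i) u : ℤ)
            - ((B'.card : ℤ) - 1 + ∑ y ∈ (B'.image σ).erase (σ i),
              (((Z.filter fun v => hm v = y).card : ℤ) - r)))
        - ∑ y ∈ (B'.image σ).erase (σ i), ∑ u ∈ pkf (B y) (Ps y),
          (ims G (cz G Z T hm) (tlo G T hm) (σ i) u : ℤ)) := by
      intro i hi
      rw [e7 i hi fun u => (ikp (tlo G T hm) (σ i) u : ℤ),
        e7 i hi fun u => (ims G (cz G Z T hm) (tlo G T hm) (σ i) u : ℤ), hct,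
        e3 i hi fun y => ∑ u ∈ pkf (B y) (Ps y), (ikp (tlo G T hm) (σ i) u : ℤ),
        e3 i hi fun y => ((Z.filter fun v => hm v = y).card : ℤ) - r,
        e3 i hi fun y => ∑ u ∈ pkf (B y) (Ps y),
          (ims G (cz G Z T hm) (tlo G T hm) (σ i) u : ℤ)]
      rfl
    refine le_trans (add_le_add (le_of_eq ?_) (le_of_eq (congrArg (fun w => 2 * w)
      (sum_congr rfl e8)))) (h3.trans (le_of_eq ?_))
    · rw [e2]
      rfl
    · rw [e2]
      rfl
  · exact sum_le_sum fun a _ => min_le_min_right _ hq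

/-- **version [A]** -/
theorem WIt.itx (h : WHom G Z T r m n hm) (H : WIt G Z T hm r n φ B Ps host ρ σ) :
    ItXA ((r : ℤ) - 1) n (fun i => tI G Z T hm r Z (σ i)) (fun i => sI hm r Z (σ i))
      (fun i => hI G Z T hm Z (σ i)) (fun i => eI G hm Z (σ i))
      (fun i j => EI G hm Z (σ i) (σ j)) (T.biUnion fun x => pkf (B x) (Ps x))
      (fun u => ρ (host u)) (fun u => (ivl u : ℤ)) (fun i u => (ikp (tlo G T hm) (σ i) u : ℤ))
      (fun i u => (ims G (cz G Z T hm) (tlo G T hm) (σ i) u : ℤ))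
      (fun i u => (rmr G (cz G Z T hm) (tlo G T hm) (σ i) u : ℤ))
      (fun i => ∑ u ∈ pkf (B (σ i)) (Ps (σ i)), (ivl u : ℤ))
      (fun i => 2 * ((B (σ i)).card : ℤ) + bothB G (tlo G T hm) (B (σ i)))
      (fun i j => far G Z T hm B (σ i) (σ j))
      (fun i j => pcn (tlo G T hm) B (σ i) (σ j))
      (fun i q => lsx G (cz G Z T hm (σ i)) (hz G Z T hm (σ i)) q)
      (fun i j => bth G (tlo G T hm) B (σ i) (σ j)) := by
  have hcard := h.cardT
  have hmem : ∀ i < n, σ i ∈ T := fun i hi => H.rk.mem i (by rw [hcard]; exact hi)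
  have h1 := h.itx (fun x hx => (H.pk x hx).toPk) H.hst H.rk H.bic H.it (fun x hx hs => by
    have h2 := H.mu_pos h (i := ρ x) (by rw [← hcard]; exact H.rk.lt x hx) (by
      rw [H.rk.left x hx]
      exact hs)
    rw [H.rk.left x hx] at h2
    exact h2)
  have hCH : ∀ x ∈ T, Disjoint (cz G Z T hm x) (hz G Z T hm x) := fun x hx => h.csys.dCH hx hx
  have hfar : ∀ x ∈ T, ∀ z : V, far G Z T hm B x z
      = ∑ e ∈ (B x).filter (fun e => tlo G T hm e.1 = z),
        ((frC G (cz G Z T hm x) (tlo G T hm) (B x) e.1).card : ℤ) := by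
    intro x hx z
    unfold far
    rw [((H.pk x hx).pcx (hCH x hx).symm z).farc_eq, Nat.cast_sum]
    refine sum_congr rfl fun e he => ?_
    obtain ⟨he1, he2⟩ := mem_filter.1 he
    rw [frC_eq fun h7 => disjoint_left.1 (hCH x hx) h7 ((H.pk x hx).bH e he1), he2]
  refine ⟨h1, fun i hi j hj => bth_nonneg _ _ _ _, fun i hi j hj => bth_le _ _ _ _,
    fun i hi => ?_, fun i hi j hj => far_nonneg _ _ _, fun i hi j hj hb => ?_,
    fun i hi q hq => ?_⟩
  · show 2 * ((B (σ i)).card : ℤ) + bothB G (tlo G T hm) (B (σ i))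
      = ∑ j ∈ (range n).erase i, (2 * pcn (tlo G T hm) B (σ i) (σ j)
        + bth G (tlo G T hm) B (σ i) (σ j))
    have h3 := H.rk.sum_er (i := i) (by rw [hcard]; exact hi)
      fun z => 2 * pcn (tlo G T hm) B (σ i) z + bth G (tlo G T hm) B (σ i) z
    rw [hcard] at h3
    rw [← h3]
    exact h.Nb_eq (hmem i hi) (H.pk _ (hmem i hi)).toPk
  · show far G Z T hm B (σ i) (σ j) = 0
    rw [hfar _ (hmem i hi)]
    have h3 : (B (σ i)).filter (fun e => tlo G T hm e.1 = σ j) = ∅ := by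
      have h4 : ((pcs (tlo G T hm) (B (σ i)) (σ j)).card : ℤ) = 0 := hb
      exact card_eq_zero.1 (by exact_mod_cast h4)
    rw [h3, sum_empty]
  · show lsx G (cz G Z T hm (σ i)) (hz G Z T hm (σ i)) q
      ≤ q * ∑ j ∈ (range n).erase i, (pcn (tlo G T hm) B (σ i) (σ j)
        + far G Z T hm B (σ i) (σ j))
    have h3 := H.rk.sum_er (i := i) (by rw [hcard]; exact hi)
      fun z => pcn (tlo G T hm) B (σ i) z + far G Z T hm B (σ i) z
    rw [hcard] at h3
    rw [← h3]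
    refine (lsx_le_q hq).trans (mul_le_mul_of_nonneg_left ?_ hq)
    have hx := hmem i hi
    have h4 : (bst G (cz G Z T hm (σ i)) (hz G Z T hm (σ i))).card
        ≤ (B (σ i)).card + ∑ e ∈ B (σ i), (frC G (cz G Z T hm (σ i)) (tlo G T hm) (B (σ i)) e.1).card := by
      refine (card_le_card (H.pk _ hx).bst_sub).trans ((card_union_le _ _).trans ?_)
      exact add_le_add card_image_le card_biUnion_le
    have h5 : ∑ z ∈ T.erase (σ i), far G Z T hm B (σ i) z
        = ∑ e ∈ B (σ i), ((frC G (cz G Z T hm (σ i)) (tlo G T hm) (B (σ i)) e.1).card : ℤ) := by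
      rw [← sum_fiberwise_of_maps_to (s := B (σ i)) (t := T.erase (σ i))
        (g := fun e => tlo G T hm e.1) fun e he => h.ht _ hx e.1 ((H.pk _ hx).bH e he)]
      exact sum_congr rfl fun z _ => hfar _ hx z
    rw [sum_add_distrib, ← h.sum_pcn hx (H.pk _ hx).toPk, h5]
    exact_mod_cast h4

/-- **version [B]** -/
theorem WItK.itx (h : WHom G Z T r m n hm) (H : WItK G Z T hm r n φ B Ps host ρ σ) :
    ItX ((r : ℤ) - 1) n (fun i => tI G Z T hm r Z (σ i)) (fun i => sI hm r Z (σ i))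
      (fun i => hI G Z T hm Z (σ i)) (fun i => eI G hm Z (σ i))
      (fun i j => EI G hm Z (σ i) (σ j)) (T.biUnion fun x => pkf (B x) (Ps x))
      (fun u => ρ (host u)) (fun u => (ivl u : ℤ)) (fun i u => (ikp (tlo G T hm) (σ i) u : ℤ))
      (fun i u => (ims G (cz G Z T hm) (tlo G T hm) (σ i) u : ℤ))
      (fun i u => (rmr G (cz G Z T hm) (tlo G T hm) (σ i) u : ℤ))
      (fun i => ∑ u ∈ pkf (B (σ i)) (Ps (σ i)), (ivl u : ℤ))
      (fun i => nbk G (cz G Z T hm (σ i)) (hz G Z T hm (σ i)) (tlo G T hm) (B (σ i)) (Ps (σ i)))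
      (fun i j => nxk G (cz G Z T hm (σ i)) (hz G Z T hm (σ i)) (tlo G T hm) (B (σ i)) (σ j))
      (fun i j => pcn (tlo G T hm) B (σ i) (σ j))
      (fun i q => lsx G (cz G Z T hm (σ i)) (hz G Z T hm (σ i)) q) := by
  refine h.itx (fun x hx => (H.pk x hx).toPk) H.hst H.rk H.bic H.it fun x hx hs => ?_
  by_contra hcon
  have h32 := h.csys.h32 h.F.toPFrame h.hh h.ht hx
  have h1 := (H.pk x hx).toPk.clq_of_zero (H.pk x hx).min h32
    (h.csys.CP_clq h.F.toPFrame hx) (by linarith)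
  have h2 : CP G Z T (fun x => Z.filter fun v => hm v = x) x
      ∪ HP G Z T (fun x => Z.filter fun v => hm v = x) x = Z.filter fun v => hm v = x :=
    CP_union_HP
  rw [h2] at h1
  have h3 := h.hom _ (filter_subset _ _) h1
  have h4 : sI hm r Z x = ((Z.filter fun v => hm v = x).card : ℤ) - r := rfl
  rw [h4] at hs
  have h5 := h.hr
  omega

end TransX

end Pool.Agent.Lib.MP_f04ccf_co
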