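import Pool.Agent.Lib.MP_f04ccf_co.M.LDR
import Pool.Agent.Lib.MP_f04ccf_co.M.ItX

/-!
MP_f04ccf_co, PLAN W, version [B] (notes 16843, 16913): the test with the degree sum with the arcs with
tails inside `B` paid by class edges, over the basic integers.  `ItL`: `nu i` class points of `i` are
left out, `fa i j` arcs of members of `i` with tail `j` at the other class points, `ad i j` twice the
number of adjacent pairs of such members.  `WCoreK.itl`: the transport; `WCoreK.itlU` with the partners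
of the PC pairs left out.
-/

set_option autoImplicit false

namespace Pool.Agent.Lib.MP_f04ccf_co

open Finset

attribute [local instance] Classical.propDecidable

section Str

variable {ι : Type*}

/-- **the tests of the rows `B` with the degree sum at the rows `D`**, arcs with tails in `B` paid -/
structure ItL (R : ℤ) (n : ℕ) (t s e : ℕ → ℤ) (E : ℕ → ℕ → ℤ) (U : Finset ι)
    (ho : ι → ℕ) (kp ms : ℕ → ι → ℤ) (nu : ℕ → ℤ) (fa ad : ℕ → ℕ → ℤ) : Prop where
  nu0 : ∀ i < n, 0 ≤ nu i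
  fa0 : ∀ i < n, ∀ j < n, 0 ≤ fa i j
  ad0 : ∀ i < n, ∀ j < n, 0 ≤ ad i j
  lowD : ∀ B ⊆ range n, 1 ≤ B.card → ∀ D ⊆ B,
    ((B.card : ℤ) - 1) * (2 * (R + 1 - B.card) * ∑ i ∈ B, s i + ∑ i ∈ B, ∑ j ∈ B.erase i, E i j
        + ∑ i ∈ B, s i ^ 2)
      + 2 * ∑ i ∈ D, ((R - t i - nu i)
          * (∑ j ∈ B.erase i, ∑ u ∈ U.filter (fun u => ho u = j), kp i u
            - ((B.card : ℤ) - 1 + ∑ j ∈ B.erase i, s j))
        - ∑ j ∈ B.erase i, ∑ u ∈ U.filter (fun u => ho u = j), ms i u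
        - ∑ j ∈ range n \ B, fa i j)
      ≤ ((B.card : ℤ) - 1) * (2 * ∑ i ∈ B, e i + B.card * (B.card - 1) * (R + 1)
        + (∑ i ∈ B, s i) ^ 2) + ∑ i ∈ D, ∑ j ∈ B.erase i, ad i j

end Str

section TransL

variable {V : Type*} {G : SimpleGraph V} {Z T : Finset V} {hm : V → V} {r m n p : ℕ}
  {φ : Finset (V × V) → Finset (Finset V) → ℕ} {B : V → Finset (V × V)}
  {Ps : V → Finset (Finset V)} {host : Itm V → V} {ρ : V → ℕ} {σ : ℕ → V}

variable (G Z T hm) in
/-- the arcs of the members of `x` with tail `z` at the class points outside `N x` -/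
noncomputable def faN (N : V → Finset V) (x z : V) : ℤ :=
  ∑ v ∈ (hz G Z T hm x).filter (fun v => tlo G T hm v = z),
    ((msd G (cz G Z T hm x \ N x) v).card : ℤ)

variable (G Z T hm) in
/-- twice the number of adjacent pairs of the members of `x` with tail `z` which miss a class point
outside `N x`, and of such a member and a PC member of `z` with tail `x` -/
noncomputable def adN (B : V → Finset (V × V)) (N : V → Finset V) (x z : V) : ℤ :=
  (E G (mzC G (cz G Z T hm x \ N x) (hz G Z T hm x) (tlo G T hm) z) : ℤ)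
    + 2 * ∑ v ∈ mzC G (cz G Z T hm x \ N x) (hz G Z T hm x) (tlo G T hm) z,
      (dg G ((pcs (tlo G T hm) (B z) x).image Prod.fst) v : ℤ)

/-- homes of least weight: a member misses at home at most as many class points as at its tail -/
lemma WCoreK.kb (hp : 2 * r ≤ p) (h : WCoreK G Z T r m n p hm) {x : V} (hx : x ∈ T) {v : V}
    (hv : v ∈ hz G Z T hm x) (hw : tlo G T hm v ∈ T) :
    (msd G (cz G Z T hm x) v).card ≤ (msd G (cz G Z T hm (tlo G T hm v)) v).card := by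
  have h1 : v ∈ Z.filter fun v => hm v = x := (mem_HP.1 hv).1
  obtain ⟨h2, h3⟩ := mem_filter.1 h1
  have h4 := h.csys.ends_of_tlo h.hh hx hv rfl
  have h5 : tlo G T hm v ∈ rws G T v := by
    rw [rws_BB (h.hsys.HP_BB h.F.toPFrame h.ok hv), h4.2]
    simp
  have hne : tlo G T hm v ≠ x := ne_of_mem_erase (h.ht x hx v hv)
  have h6 := h.H.kap_plain h.F.toPFrame h.hmr hp h.hsys h2 h3 hw hne h5
  rw [msd_card, msd_card]
  exact h6

/-- **the transport**, any class points `N x` left out -/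
theorem WCoreK.itl (hp : 2 * r ≤ p) (h : WCoreK G Z T r m n p hm)
    (hpk : ∀ x ∈ T, Pk G (cz G Z T hm x) (hz G Z T hm x) (tlo G T hm) (B x) (Ps x))
    (hst : ∀ x ∈ T, ∀ u ∈ pkf (B x) (Ps x), host u = x)
    (rk : Rank T (tI G Z T hm r Z) ρ σ) {N : V → Finset V}
    (hN : ∀ x ∈ T, N x ⊆ cz G Z T hm x) :
    ItL ((r : ℤ) - 1) n (fun i => tI G Z T hm r Z (σ i)) (fun i => sI hm r Z (σ i))
      (fun i => eI G hm Z (σ i))
      (fun i j => EI G hm Z (σ i) (σ j)) (T.biUnion fun x => pkf (B x) (Ps x))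
      (fun u => ρ (host u)) (fun i u => (ikp (tlo G T hm) (σ i) u : ℤ))
      (fun i u => (ims G (cz G Z T hm) (tlo G T hm) (σ i) u : ℤ))
      (fun i => ((N (σ i)).card : ℤ))
      (fun i j => faN G Z T hm N (σ i) (σ j)) (fun i j => adN G Z T hm B N (σ i) (σ j)) := by
  have hcard := h.cardT
  have hfam : ∀ x ∈ T, Fam (co G) (cz G Z T hm) (hz G Z T hm) (tlo G T hm) x
      (pkf (B x) (Ps x)) := fun x hx => (hpk x hx).fam (h.csys.dCH hx hx).symm
  have hfil : ∀ i < n, (T.biUnion fun x => pkf (B x) (Ps x)).filter (fun u => ρ (host u) = i)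
      = pkf (B (σ i)) (Ps (σ i)) := fun i hi => fil_host hst rk (by rw [hcard]; exact hi)
  have hmem : ∀ i < n, σ i ∈ T := fun i hi => rk.mem i (by rw [hcard]; exact hi)
  have hpcz : ∀ y w : V, pcz (tlo G T hm) w (pkf (B y) (Ps y)) = pcs (tlo G T hm) (B y) w := by
    intro y w
    ext e
    rw [mem_pcz, inr_mem_pkf, mem_pcs]
  refine ⟨fun i _ => Nat.cast_nonneg _, fun i _ j _ => sum_nonneg fun _ _ => Nat.cast_nonneg _,
    fun i _ j _ => add_nonneg (Nat.cast_nonneg _) (mul_nonneg (by norm_num)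
      (sum_nonneg fun _ _ => Nat.cast_nonneg _)), fun B' hB hB1 D hD => ?_⟩
  have hB' : B' ⊆ range T.card := by rw [hcard]; exact hB
  have hD' : D ⊆ range T.card := hD.trans hB'
  have hsub : B'.image σ ⊆ T := rk.image_sub hB'
  have h3 := Fam.lowN h.gw.ld h.F.toPFrame h.hh h.csys h.wsysT hfam hsub (by
    rw [rk.card_image hB']
    exact hB1) (image_subset_image hD) N (fun x hx v hv hvB => by
      have hxT : x ∈ T := hsub (image_subset_image hD hx)
      exact h.kb hp hxT hv (hsub hvB))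
  rw [rk.card_image hB'] at h3
  have e2 : (r : ℤ) - 1 + 1 = r := by ring
  have e3 : ∀ i ∈ B', ∀ g : V → ℤ,
      ∑ y ∈ (B'.image σ).erase (σ i), g y = ∑ j ∈ B'.erase i, g (σ j) := by
    intro i hi g
    have h4 := add_sum_erase (B'.image σ) g (mem_image_of_mem σ hi)
    have h5 := add_sum_erase B' (fun j => g (σ j)) hi
    have h6 := rk.sum_im hB' g
    have h7 : g (σ i) + ∑ j ∈ B'.erase i, g (σ j) = ∑ j ∈ B', g (σ j) := h5
    linarith
  have e4 : ∀ g : V → ℤ, ∑ x ∈ B'.image σ, g x = ∑ i ∈ B', g (σ i) := rk.sum_im hB'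
  have e4D : ∀ g : V → ℤ, ∑ x ∈ D.image σ, g x = ∑ i ∈ D, g (σ i) := rk.sum_im hD'
  have e5 : ∀ g : V → V → ℤ, ∑ x ∈ B'.image σ, ∑ y ∈ (B'.image σ).erase x, g x y
      = ∑ i ∈ B', ∑ j ∈ B'.erase i, g (σ i) (σ j) := by
    intro g
    rw [e4 fun x => ∑ y ∈ (B'.image σ).erase x, g x y]
    exact sum_congr rfl fun i hi => e3 i hi _
  have e6 : ∑ x ∈ B'.image σ, (NE G (Z.filter fun v => hm v = x) : ℤ)
      = 2 * ∑ i ∈ B', eI G hm Z (σ i) := by
    rw [e4 fun x => (NE G (Z.filter fun v => hm v = x) : ℤ), mul_sum]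
    exact sum_congr rfl fun i _ => (two_eI (G := G) (hm := hm) Z (σ i)).symm
  have e7 : ∀ i ∈ B', ∀ g : Itm V → ℤ, ∑ j ∈ B'.erase i,
      ∑ u ∈ (T.biUnion fun x => pkf (B x) (Ps x)).filter (fun u => ρ (host u) = j), g u
      = ∑ j ∈ B'.erase i, ∑ u ∈ pkf (B (σ j)) (Ps (σ j)), g u := fun i _ g =>
    sum_congr rfl fun j hj => by rw [hfil j (mem_range.1 (hB (mem_of_mem_erase hj)))]
  have e8 : ∀ i ∈ D, ((cz G Z T hm (σ i) \ N (σ i)).card : ℤ)
      = (r : ℤ) - 1 - tI G Z T hm r Z (σ i) - (N (σ i)).card := by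
    intro i hi
    have h4 := hN (σ i) (hmem i (mem_range.1 (hB (hD hi))))
    rw [card_sdiff_of_subset h4, Nat.cast_sub (card_le_card h4)]
    unfold tI
    ring
  -- the arcs with tails outside `B`
  have e9 : ∀ i ∈ D, ∑ v ∈ (hz G Z T hm (σ i)).filter (fun v => tlo G T hm v ∉ B'.image σ),
      ((msd G (cz G Z T hm (σ i) \ N (σ i)) v).card : ℤ)
      = ∑ j ∈ range n \ B', faN G Z T hm N (σ i) (σ j) := by
    intro i hi
    have hiT := hmem i (mem_range.1 (hB (hD hi)))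
    have h4 : ∀ v ∈ (hz G Z T hm (σ i)).filter (fun v => tlo G T hm v ∉ B'.image σ),
        tlo G T hm v ∈ (range n \ B').image σ := by
      intro v hv
      obtain ⟨h5, h6⟩ := mem_filter.1 hv
      have h7 := mem_of_mem_erase (h.ht _ hiT v h5)
      refine mem_image.2 ⟨ρ (tlo G T hm v), mem_sdiff.2 ⟨mem_range.2 ?_, fun h8 => ?_⟩,
        rk.left _ h7⟩
      · rw [← hcard]
        exact rk.lt _ h7
      · exact h6 (mem_image.2 ⟨_, h8, rk.left _ h7⟩)
    rw [← sum_fiberwise_of_maps_to h4, rk.sum_im (B := range n \ B') (by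
      rw [hcard]
      exact sdiff_subset)]
    refine sum_congr rfl fun j hj => ?_
    unfold faN
    rw [filter_filter]
    refine sum_congr ?_ fun _ _ => rfl
    ext v
    rw [mem_filter, mem_filter]
    obtain ⟨hj1, hj2⟩ := mem_sdiff.1 hj
    constructor
    · rintro ⟨h5, -, h6⟩
      exact ⟨h5, h6⟩
    · rintro ⟨h5, h6⟩
      refine ⟨h5, fun h7 => ?_, h6⟩
      rw [h6] at h7
      obtain ⟨k, hk, hkj⟩ := mem_image.1 h7
      have hk' := mem_range.1 (hB hk)
      have h8 := rk.sinj (by rw [hcard]; exact hk') (by rw [hcard]; exact mem_range.1 hj1) hkj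
      exact hj2 (h8 ▸ hk)
  rw [e5 fun x y => ∑ v ∈ Z.filter (fun v => hm v = y), (dg G (Z.filter fun v => hm v = x) v : ℤ),
    e4 fun x => ((Z.filter fun v => hm v = x).card : ℤ) - r,
    e4 fun x => (((Z.filter fun v => hm v = x).card : ℤ) - r) ^ 2, e6, e4D, e4D] at h3
  have e10 : ∀ i ∈ D, ((r : ℤ) - 1 - tI G Z T hm r Z (σ i) - (N (σ i)).card)
          * (∑ j ∈ B'.erase i, ∑ u ∈ (T.biUnion fun x => pkf (B x) (Ps x)).filter
              (fun u => ρ (host u) = j), (ikp (tlo G T hm) (σ i) u : ℤ)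
            - ((B'.card : ℤ) - 1 + ∑ j ∈ B'.erase i, sI hm r Z (σ j)))
        - ∑ j ∈ B'.erase i, ∑ u ∈ (T.biUnion fun x => pkf (B x) (Ps x)).filter
              (fun u => ρ (host u) = j), (ims G (cz G Z T hm) (tlo G T hm) (σ i) u : ℤ)
        - ∑ j ∈ range n \ B', faN G Z T hm N (σ i) (σ j)
      ≤ ∑ y ∈ (B'.image σ).erase (σ i), (∑ u ∈ pkf (B y) (Ps y),
            (((cz G Z T hm (σ i) \ N (σ i)).card : ℤ) * ikp (tlo G T hm) (σ i) u
              - ims G (cz G Z T hm) (tlo G T hm) (σ i) u)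
            + ∑ c ∈ cz G Z T hm (σ i) \ N (σ i),
              (dg G (hz G Z T hm y \ (pkf (B y) (Ps y)).biUnion imem) c : ℤ))
          - ∑ v ∈ (hz G Z T hm (σ i)).filter (fun v => tlo G T hm v ∉ B'.image σ),
            ((msd G (cz G Z T hm (σ i) \ N (σ i)) v).card : ℤ)
          - (cz G Z T hm (σ i) \ N (σ i)).card
            * (B'.card - 1 + ∑ i ∈ B', (((Z.filter fun v => hm v = σ i).card : ℤ) - r)
              - (((Z.filter fun v => hm v = σ i).card : ℤ) - r)) := by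
    intro i hi
    rw [e9 i hi, e7 i (hD hi), e7 i (hD hi), e8 i hi]
    have h4 : ∑ y ∈ (B'.image σ).erase (σ i), (∑ u ∈ pkf (B y) (Ps y),
            (((r : ℤ) - 1 - tI G Z T hm r Z (σ i) - (N (σ i)).card) * ikp (tlo G T hm) (σ i) u
              - (ims G (cz G Z T hm) (tlo G T hm) (σ i) u : ℤ))
            + ∑ c ∈ cz G Z T hm (σ i) \ N (σ i),
              (dg G (hz G Z T hm y \ (pkf (B y) (Ps y)).biUnion imem) c : ℤ))
        = ((r : ℤ) - 1 - tI G Z T hm r Z (σ i) - (N (σ i)).card)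
          * ∑ j ∈ B'.erase i, ∑ u ∈ pkf (B (σ j)) (Ps (σ j)), (ikp (tlo G T hm) (σ i) u : ℤ)
          - ∑ j ∈ B'.erase i, ∑ u ∈ pkf (B (σ j)) (Ps (σ j)),
            (ims G (cz G Z T hm) (tlo G T hm) (σ i) u : ℤ)
          + ∑ y ∈ (B'.image σ).erase (σ i), ∑ c ∈ cz G Z T hm (σ i) \ N (σ i),
              (dg G (hz G Z T hm y \ (pkf (B y) (Ps y)).biUnion imem) c : ℤ) := by
      rw [sum_add_distrib]
      congr 1
      rw [e3 i (hD hi) fun y => ∑ u ∈ pkf (B y) (Ps y),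
            (((r : ℤ) - 1 - tI G Z T hm r Z (σ i) - (N (σ i)).card) * ikp (tlo G T hm) (σ i) u
              - (ims G (cz G Z T hm) (tlo G T hm) (σ i) u : ℤ)), mul_sum, ← sum_sub_distrib]
      refine sum_congr rfl fun j _ => ?_
      rw [mul_sum, ← sum_sub_distrib]
    have h5 : 0 ≤ ∑ y ∈ (B'.image σ).erase (σ i), ∑ c ∈ cz G Z T hm (σ i) \ N (σ i),
              (dg G (hz G Z T hm y \ (pkf (B y) (Ps y)).biUnion imem) c : ℤ) :=
      sum_nonneg fun _ _ => sum_nonneg fun _ _ => Nat.cast_nonneg _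
    have h6 : (((Z.filter fun v => hm v = σ i).card : ℤ) - r)
        + ∑ j ∈ B'.erase i, (((Z.filter fun v => hm v = σ j).card : ℤ) - r)
        = ∑ j ∈ B', (((Z.filter fun v => hm v = σ j).card : ℤ) - r) :=
      add_sum_erase B' (fun j => ((Z.filter fun v => hm v = σ j).card : ℤ) - r) (hD hi)
    have h7 : ∑ j ∈ B'.erase i, sI hm r Z (σ j)
        = ∑ j ∈ B'.erase i, (((Z.filter fun v => hm v = σ j).card : ℤ) - r) := rfl
    rw [h4, h7, ← h6]
    nlinarith
  have e11 : ∀ i ∈ D, ∑ y ∈ (B'.image σ).erase (σ i),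
      ((E G (mzC G (cz G Z T hm (σ i) \ N (σ i)) (hz G Z T hm (σ i)) (tlo G T hm) y) : ℤ)
            + 2 * ∑ v ∈ mzC G (cz G Z T hm (σ i) \ N (σ i)) (hz G Z T hm (σ i)) (tlo G T hm) y,
              (dg G ((pcz (tlo G T hm) (σ i) (pkf (B y) (Ps y))).image Prod.fst) v : ℤ))
      = ∑ j ∈ B'.erase i, adN G Z T hm B N (σ i) (σ j) := by
    intro i hi
    rw [e3 i (hD hi)]
    refine sum_congr rfl fun j _ => ?_
    rw [hpcz]
    rfl
  rw [sum_congr rfl e11] at h3
  have h4 := sum_le_sum e10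
  rw [e2]
  refine le_trans (add_le_add_right (mul_le_mul_of_nonneg_left h4 (by norm_num)) _) ?_
  exact h3

/-- the class points which are partners of PC pairs -/
noncomputable def usd (B : V → Finset (V × V)) (x : V) : Finset V := (B x).image Prod.snd

/-- a missed class point outside the partners is free -/
lemma msd_usd_sub {x : V} {v : V} :
    msd G (cz G Z T hm x \ usd B x) v ⊆ frC G (cz G Z T hm x) (tlo G T hm) (B x) v := by
  intro a ha
  obtain ⟨h1, h2, h3⟩ := mem_filter.1 ha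
  obtain ⟨h4, h5⟩ := mem_sdiff.1 h1
  exact mem_frC.2 ⟨h4, h3, fun e he h6 _ => h5 (mem_image.2 ⟨e, he, h6⟩)⟩

/-- the arcs at the free class points: PC members and N-ends -/
lemma faN_usd {x : V}
    (hpk : Pk G (cz G Z T hm x) (hz G Z T hm x) (tlo G T hm) (B x) (Ps x)) (z : V) :
    faN G Z T hm (usd B) x z
      ≤ ∑ e ∈ pcs (tlo G T hm) (B x) z, ((frC G (cz G Z T hm x) (tlo G T hm) (B x) e.1).card : ℤ)
        + ∑ v ∈ nez G (cz G Z T hm x) (hz G Z T hm x) (tlo G T hm) (B x) z,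
          ((frC G (cz G Z T hm x) (tlo G T hm) (B x) v).card : ℤ) := by
  unfold faN
  have h1 : (pcs (tlo G T hm) (B x) z).image Prod.fst ∩ nez G (cz G Z T hm x) (hz G Z T hm x)
      (tlo G T hm) (B x) z = ∅ := by
    rw [eq_empty_iff_forall_notMem]
    intro v hv
    obtain ⟨h2, h3⟩ := mem_inter.1 hv
    obtain ⟨e, he, rfl⟩ := mem_image.1 h2
    exact (mem_sdiff.1 (mem_Nend.1 (mem_filter.1 h3).1).1).2
      (mem_image_of_mem _ (mem_pcs.1 he).1)
  have h2 : ∑ e ∈ pcs (tlo G T hm) (B x) z,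
      ((frC G (cz G Z T hm x) (tlo G T hm) (B x) e.1).card : ℤ)
      = ∑ v ∈ (pcs (tlo G T hm) (B x) z).image Prod.fst,
        ((frC G (cz G Z T hm x) (tlo G T hm) (B x) v).card : ℤ) :=
    (sum_image (f := fun v => ((frC G (cz G Z T hm x) (tlo G T hm) (B x) v).card : ℤ))
      fun e he f hf hef => hpk.b1 e
        (mem_pcs.1 (show e ∈ pcs (tlo G T hm) (B x) z by exact_mod_cast he)).1 f
        (mem_pcs.1 (show f ∈ pcs (tlo G T hm) (B x) z by exact_mod_cast hf)).1 hef).symm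
  rw [h2, ← sum_union (disjoint_iff_inter_eq_empty.2 h1)]
  have h3 : ∀ v ∈ (hz G Z T hm x).filter (fun v => tlo G T hm v = z),
      ((msd G (cz G Z T hm x \ usd B x) v).card : ℤ)
      ≤ ((frC G (cz G Z T hm x) (tlo G T hm) (B x) v).card : ℤ) := fun v _ => by
    exact_mod_cast card_le_card msd_usd_sub
  have h4 : ∑ v ∈ (hz G Z T hm x).filter (fun v => tlo G T hm v = z),
      ((msd G (cz G Z T hm x \ usd B x) v).card : ℤ)
      = ∑ v ∈ ((hz G Z T hm x).filter (fun v => tlo G T hm v = z)).filter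
          (fun v => (msd G (cz G Z T hm x \ usd B x) v).Nonempty),
      ((msd G (cz G Z T hm x \ usd B x) v).card : ℤ) := by
    symm
    refine sum_filter_of_ne fun v _ hv => ?_
    rw [nonempty_iff_ne_empty]
    rintro h5
    exact hv (by rw [h5]; simp)
  rw [h4]
  refine (sum_le_sum fun v hv => h3 v (mem_filter.1 hv).1).trans ?_
  refine sum_le_sum_of_subset_of_nonneg ?_ fun _ _ _ => Nat.cast_nonneg _
  intro v hv
  obtain ⟨h5, h6⟩ := mem_filter.1 hv
  obtain ⟨h7, h8⟩ := mem_filter.1 h5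
  rw [mem_union]
  by_cases h9 : v ∈ (B x).image Prod.fst
  · obtain ⟨e, he, rfl⟩ := mem_image.1 h9
    exact Or.inl (mem_image_of_mem _ (mem_pcs.2 ⟨he, h8⟩))
  · exact Or.inr (mem_filter.2 ⟨mem_Nend.2 ⟨mem_sdiff.2 ⟨h7, h9⟩, h6.mono msd_usd_sub⟩, h8⟩)

/-- the members with arcs at the free class points: PC members and N-ends -/
lemma mzC_usd {x z : V} :
    (mzC G (cz G Z T hm x \ usd B x) (hz G Z T hm x) (tlo G T hm) z).card
      ≤ (pcs (tlo G T hm) (B x) z).card
        + (nez G (cz G Z T hm x) (hz G Z T hm x) (tlo G T hm) (B x) z).card := by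
  have h1 : mzC G (cz G Z T hm x \ usd B x) (hz G Z T hm x) (tlo G T hm) z
      ⊆ (pcs (tlo G T hm) (B x) z).image Prod.fst
        ∪ nez G (cz G Z T hm x) (hz G Z T hm x) (tlo G T hm) (B x) z := by
    intro v hv
    obtain ⟨h7, h8, h6⟩ := mem_filter.1 hv
    rw [mem_union]
    by_cases h9 : v ∈ (B x).image Prod.fst
    · obtain ⟨e, he, rfl⟩ := mem_image.1 h9
      exact Or.inl (mem_image_of_mem _ (mem_pcs.2 ⟨he, h8⟩))
    · exact Or.inr (mem_filter.2 ⟨mem_Nend.2 ⟨mem_sdiff.2 ⟨h7, h9⟩, h6.mono msd_usd_sub⟩, h8⟩)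
  exact (card_le_card h1).trans ((card_union_le _ _).trans
    (Nat.add_le_add_right card_image_le _))

/-- the adjacent pairs in numbers: `a (a - 1) + 2 a b`, `a` members with arcs, `b` PC pairs of the other
row -/
lemma adN_le (N : V → Finset V) (x z : V) {a : ℤ}
    (ha : ((mzC G (cz G Z T hm x \ N x) (hz G Z T hm x) (tlo G T hm) z).card : ℤ) ≤ a) :
    adN G Z T hm B N x z ≤ a * (a - 1) + 2 * a * pcn (tlo G T hm) B z x := by
  set X := mzC G (cz G Z T hm x \ N x) (hz G Z T hm x) (tlo G T hm) z with hX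
  have h0 : (0 : ℤ) ≤ X.card := Nat.cast_nonneg _
  have h1 : (E G X : ℤ) ≤ (X.card : ℤ) * (X.card - 1) := by
    have h3 := E_add_NE (G := G) X
    have h4 : (0 : ℤ) ≤ NE G X := Int.natCast_nonneg _
    omega
  have h2 : ∑ v ∈ X, (dg G ((pcs (tlo G T hm) (B z) x).image Prod.fst) v : ℤ)
      ≤ X.card * pcn (tlo G T hm) B z x := by
    rw [← nsmul_eq_mul, ← sum_const]
    refine sum_le_sum fun v _ => ?_
    have h3 : dg G ((pcs (tlo G T hm) (B z) x).image Prod.fst) v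
        ≤ (pcs (tlo G T hm) (B z) x).card := (card_le_card (filter_subset _ _)).trans card_image_le
    unfold pcn
    exact_mod_cast h3
  have h3 := pcn_nonneg (tlo G T hm) B z x
  have h5 : (X.card : ℤ) * pcn (tlo G T hm) B z x ≤ a * pcn (tlo G T hm) B z x :=
    mul_le_mul_of_nonneg_right ha h3
  have h6 : (X.card : ℤ) * (X.card - 1) ≤ a * (a - 1) := by
    rcases Nat.eq_zero_or_pos X.card with h7 | h7
    · rw [h7] at ha ⊢
      push_cast at ha ⊢
      have h8 := consec_nonneg (a - 1)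
      nlinarith
    · have h8 : (1 : ℤ) ≤ X.card := by exact_mod_cast h7
      nlinarith
  unfold adN
  rw [← hX]
  linarith

/-- **the transport with the partners of the PC pairs left out** -/
theorem WCoreK.itlU (hp : 2 * r ≤ p) (h : WCoreK G Z T r m n p hm)
    (hpk : ∀ x ∈ T, Pk G (cz G Z T hm x) (hz G Z T hm x) (tlo G T hm) (B x) (Ps x))
    (hst : ∀ x ∈ T, ∀ u ∈ pkf (B x) (Ps x), host u = x)
    (rk : Rank T (tI G Z T hm r Z) ρ σ) :
    ItL ((r : ℤ) - 1) n (fun i => tI G Z T hm r Z (σ i)) (fun i => sI hm r Z (σ i))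
      (fun i => eI G hm Z (σ i))
      (fun i j => EI G hm Z (σ i) (σ j)) (T.biUnion fun x => pkf (B x) (Ps x))
      (fun u => ρ (host u)) (fun i u => (ikp (tlo G T hm) (σ i) u : ℤ))
      (fun i u => (ims G (cz G Z T hm) (tlo G T hm) (σ i) u : ℤ))
      (fun i => ((usd B (σ i)).card : ℤ))
      (fun i j => faN G Z T hm (usd B) (σ i) (σ j))
      (fun i j => adN G Z T hm B (usd B) (σ i) (σ j)) ∧
    (∀ i < n, ((usd B (σ i)).card : ℤ) ≤ ∑ j ∈ (range n).erase i, pcn (tlo G T hm) B (σ i) (σ j)) ∧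
    (∀ i < n, ∀ j < n, faN G Z T hm (usd B) (σ i) (σ j)
      ≤ ∑ e ∈ pcs (tlo G T hm) (B (σ i)) (σ j),
          ((frC G (cz G Z T hm (σ i)) (tlo G T hm) (B (σ i)) e.1).card : ℤ)
        + ∑ v ∈ nez G (cz G Z T hm (σ i)) (hz G Z T hm (σ i)) (tlo G T hm) (B (σ i)) (σ j),
          ((frC G (cz G Z T hm (σ i)) (tlo G T hm) (B (σ i)) v).card : ℤ)) ∧
    ∀ i < n, ∀ j < n, ∀ a : ℤ, pcn (tlo G T hm) B (σ i) (σ j)
        + (nez G (cz G Z T hm (σ i)) (hz G Z T hm (σ i)) (tlo G T hm) (B (σ i)) (σ j)).card ≤ a →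
      adN G Z T hm B (usd B) (σ i) (σ j)
        ≤ a * (a - 1) + 2 * a * pcn (tlo G T hm) B (σ j) (σ i) := by
  have hcard := h.cardT
  have hmem : ∀ i < n, σ i ∈ T := fun i hi => rk.mem i (by rw [hcard]; exact hi)
  refine ⟨h.itl hp hpk hst rk fun x hx => ?_, fun i hi => ?_, fun i hi j _ =>
    faN_usd (hpk _ (hmem i hi)) _, fun i hi j _ a ha => ?_⟩
  · intro a ha
    obtain ⟨e, he, rfl⟩ := mem_image.1 ha
    exact (hpk x hx).bC e he
  · have h3 := h.toWHom.sum_pcn (hmem i hi) (hpk _ (hmem i hi))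
    have h4 := rk.sum_er (i := i) (by rw [hcard]; exact hi) fun z => pcn (tlo G T hm) B (σ i) z
    rw [hcard] at h4
    rw [← h4, ← h3]
    have h5 : (usd B (σ i)).card ≤ (B (σ i)).card := card_image_le
    exact_mod_cast h5
  · refine adN_le (usd B) (σ i) (σ j) (le_trans ?_ ha)
    have h5 := mzC_usd (G := G) (Z := Z) (T := T) (hm := hm) (B := B) (x := σ i) (z := σ j)
    unfold pcn
    exact_mod_cast h5

end TransL

end Pool.Agent.Lib.MP_f04ccf_co
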