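import Pool.Agent.Lib.MP_f04ccf_co.M.MatS

/-!
MP_f04ccf_co, note 16457: general units.  `WSys.pair_gen`: the hits of two hosts at each other's rows,
with arbitrary member sets `P`, `P'` and PC pairs `K`, `K'`.  `Grp`: a group of points of which every
column of a row sees `k - def c`; `CSys.row_grp`, `CSys.tst_grp`: the tests with disjoint groups.
`WSys.clique_def`: a clique `Q` of the missing graph with two or more tails: the deficient columns of
two rows are complete to each other.  `MatG.half_le'`, `clq_sum_le`: the sum of the rests is at most `R`.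
-/

set_option autoImplicit false

namespace Pool.Agent.Lib.MP_f04ccf_co

open Finset

attribute [local instance] Classical.propDecidable

section Gen

variable {ι κ V : Type*} {G F : SimpleGraph V}

/-- member hits of a PC pair and of the other members -/
lemma eds_split {C H P : Finset V} {K : Finset κ} {p : κ → V} (hip : Set.InjOn p K)
    (hp : ∀ e ∈ K, p e ∈ H) (hP : P ⊆ H) (hdis : ∀ e ∈ K, p e ∉ P) :
    ∑ c ∈ C, (dg G P c : ℤ) + ∑ e ∈ K, ((C.filter fun c => G.Adj c (p e)).card : ℤ)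
      ≤ (eds G C H).card := by
  rw [card_eds_eq]
  have h1 : ∑ e ∈ K, ((C.filter fun c => G.Adj c (p e)).card : ℤ)
      = ∑ c ∈ C, (dg G (K.image p) c : ℤ) := by
    have h2 : ∀ c ∈ C, dg G (K.image p) c = (K.filter fun e => G.Adj c (p e)).card := by
      intro c _
      unfold dg
      rw [filter_image, card_image_of_injOn (hip.mono (by
        intro e he
        have : e ∈ K.filter fun a => G.Adj c (p a) := by exact_mod_cast he
        exact_mod_cast (mem_filter.1 this).1))]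
    have h3 : ∑ e ∈ K, (C.filter fun c => G.Adj c (p e)).card
        = ∑ c ∈ C, (K.filter fun e => G.Adj c (p e)).card := by
      simp only [card_filter]
      exact sum_comm
    have h4 : ∑ e ∈ K, (C.filter fun c => G.Adj c (p e)).card
        = ∑ c ∈ C, dg G (K.image p) c := h3.trans (sum_congr rfl fun c hc => (h2 c hc).symm)
    exact_mod_cast h4
  rw [h1, ← sum_add_distrib]
  refine sum_le_sum fun c _ => ?_
  have h2 : Disjoint P (K.image p) := by
    rw [disjoint_left]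
    intro v hv hv'
    obtain ⟨e, he, rfl⟩ := mem_image.1 hv'
    exact hdis e he hv
  have h3 : dg G P c + dg G (K.image p) c ≤ dg G H c := by
    unfold dg
    rw [← card_union_of_disjoint (disjoint_filter_filter h2), ← filter_union]
    refine card_le_card (filter_subset_filter _ (union_subset hP ?_))
    intro v hv
    obtain ⟨e, he, rfl⟩ := mem_image.1 hv
    exact hp e he
  exact_mod_cast h3

/-- **all hits of two hosts at each other's rows**, general form: any members `P` of `x`, `P'` of `z`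
and PC pairs `K` of `x` with tail `z`, `K'` of `z` with tail `x` -/
theorem WSys.pair_gen {A : Finset ι} {C H : ι → Finset V} {tl : V → ι}
    (h : WSys G F A C H tl) {x z : ι} (hx : x ∈ A) (hz : z ∈ A) (hxz : x ≠ z)
    {P P' : Finset V} (hP : P ⊆ H x) (hP' : P' ⊆ H z)
    {K K' : Finset κ} {p q p' q' : κ → V} (hK : Dst K p q) (hK' : Dst K' p' q')
    (hp : ∀ e ∈ K, p e ∈ H x) (hp' : ∀ e ∈ K', p' e ∈ H z)
    (hpP : ∀ e ∈ K, p e ∉ P) (hpP' : ∀ e ∈ K', p' e ∉ P')
    (hq : ∀ e ∈ K, q e ∈ C x ∧ F.Adj (p e) (q e) ∧ tl (p e) = z)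
    (hq' : ∀ e ∈ K', q' e ∈ C z ∧ F.Adj (p' e) (q' e) ∧ tl (p' e) = x) :
    ∑ c ∈ C z, (dg G P c : ℤ) + ∑ c ∈ C x, (dg G P' c : ℤ)
      + ∑ e ∈ K, (((C z).card : ℤ) - (rst G (C z) (p e) (q e)).card)
      + ∑ e ∈ K', (((C x).card : ℤ) - (rst G (C x) (p' e) (q' e)).card)
      ≤ (eds G (C z) (H x)).card + (eds G (C x) (H z)).card + (eds G (C x) (C z)).card
        + (eds G (H x) (H z)).card := by
  have hm := eds_split (G := G) (C := C z) hK.ip hp hP hpP
  have hm' := eds_split (G := G) (C := C x) hK'.ip hp' hP' hpP'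
  -- split the hits of a PC pair
  have hs : ∀ (D : Finset V) (u v : V), (D.card : ℤ) - (rst G D u v).card
      = (D.filter fun c => G.Adj c u).card
        + ((D.filter fun c => ¬ G.Adj c u ∧ G.Adj c v).card : ℤ) := by
    intro D u v
    have h1 := card_filter_add_card_filter_not (s := D) (p := fun c => G.Adj c u)
    have h2 := card_filter_add_card_filter_not (s := D.filter fun c => ¬ G.Adj c u)
      (p := fun c => G.Adj c v)
    rw [filter_filter, filter_filter] at h2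
    have h3 : (D.filter fun c => ¬ G.Adj c u ∧ ¬ G.Adj c v) = rst G D u v := rfl
    rw [h3] at h2
    have h4 : ((D.filter fun c => G.Adj c u).card : ℤ)
        + (D.filter fun c => ¬ G.Adj c u).card = D.card := by exact_mod_cast h1
    have h5 : ((D.filter fun c => ¬ G.Adj c u ∧ G.Adj c v).card : ℤ) + (rst G D u v).card
        = (D.filter fun c => ¬ G.Adj c u).card := by exact_mod_cast h2
    linarith
  simp only [hs]
  rw [sum_add_distrib, sum_add_distrib]
  -- the class hits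
  set X1 : Finset (V × V) := (((C z) ×ˢ K).filter fun ce => ¬ G.Adj ce.1 (p ce.2)
    ∧ G.Adj ce.1 (q ce.2)).image fun ce => (q ce.2, ce.1) with hX1
  set X2 : Finset (V × V) := (((C x) ×ˢ K').filter fun ce => ¬ G.Adj ce.1 (p' ce.2)
    ∧ G.Adj ce.1 (q' ce.2)).image fun ce => (ce.1, q' ce.2) with hX2
  have hcount : ∀ (D : Finset V) (L : Finset κ) (a b : κ → V),
      ((((D ×ˢ L).filter fun ce => ¬ G.Adj ce.1 (a ce.2) ∧ G.Adj ce.1 (b ce.2)).card : ℕ) : ℤ)
        = ∑ e ∈ L, ((D.filter fun c => ¬ G.Adj c (a e) ∧ G.Adj c (b e)).card : ℤ) := by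
    intro D L a b
    have h1 : ((D ×ˢ L).filter fun ce => ¬ G.Adj ce.1 (a ce.2) ∧ G.Adj ce.1 (b ce.2)).card
        = ∑ e ∈ L, (D.filter fun c => ¬ G.Adj c (a e) ∧ G.Adj c (b e)).card := by
      rw [card_filter, sum_product_right]
      refine sum_congr rfl fun e _ => ?_
      rw [card_filter]
    exact_mod_cast h1
  have hc1 : (X1.card : ℤ) = ∑ e ∈ K, (((C z).filter fun c => ¬ G.Adj c (p e)
      ∧ G.Adj c (q e)).card : ℤ) := by
    rw [← hcount, hX1, card_image_of_injOn]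
    rintro ⟨c, e⟩ hce ⟨d, f⟩ hdf hef
    have he : e ∈ K := (mem_product.1 (mem_filter.1 (by exact_mod_cast hce :
      (c, e) ∈ ((C z) ×ˢ K).filter _)).1).2
    have hf : f ∈ K := (mem_product.1 (mem_filter.1 (by exact_mod_cast hdf :
      (d, f) ∈ ((C z) ×ˢ K).filter _)).1).2
    simp only [Prod.mk.injEq] at hef
    obtain ⟨h5, rfl⟩ := hef
    rw [hK.iq (by exact_mod_cast he) (by exact_mod_cast hf) h5]
  have hc2 : (X2.card : ℤ) = ∑ e ∈ K', (((C x).filter fun c => ¬ G.Adj c (p' e)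
      ∧ G.Adj c (q' e)).card : ℤ) := by
    rw [← hcount, hX2, card_image_of_injOn]
    rintro ⟨c, e⟩ hce ⟨d, f⟩ hdf hef
    have he : e ∈ K' := (mem_product.1 (mem_filter.1 (by exact_mod_cast hce :
      (c, e) ∈ ((C x) ×ˢ K').filter _)).1).2
    have hf : f ∈ K' := (mem_product.1 (mem_filter.1 (by exact_mod_cast hdf :
      (d, f) ∈ ((C x) ×ˢ K').filter _)).1).2
    simp only [Prod.mk.injEq] at hef
    obtain ⟨rfl, h5⟩ := hef
    rw [hK'.iq (by exact_mod_cast he) (by exact_mod_cast hf) h5]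
  have hm1 : ∀ e ∈ X1, e.2 ∈ C z ∧ ∃ u ∈ K, q u = e.1 ∧ ¬ G.Adj e.2 (p u) ∧ G.Adj e.2 (q u) := by
    intro e he
    obtain ⟨⟨c, u⟩, h5, rfl⟩ := mem_image.1 he
    obtain ⟨h6, h7, h8⟩ := mem_filter.1 h5
    obtain ⟨h9, h10⟩ := mem_product.1 h6
    exact ⟨h9, u, h10, rfl, h7, h8⟩
  have hm2 : ∀ e ∈ X2, e.1 ∈ C x ∧ ∃ u ∈ K', q' u = e.2 ∧ ¬ G.Adj e.1 (p' u)
      ∧ G.Adj e.1 (q' u) := by
    intro e he
    obtain ⟨⟨c, u⟩, h5, rfl⟩ := mem_image.1 he
    obtain ⟨h6, h7, h8⟩ := mem_filter.1 h5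
    obtain ⟨h9, h10⟩ := mem_product.1 h6
    exact ⟨h9, u, h10, rfl, h7, h8⟩
  have hs1 : X1 ⊆ eds G (C x) (C z) := by
    intro e he
    obtain ⟨a1, u, a2, a3, a4, a5⟩ := hm1 e he
    refine mem_filter.2 ⟨mem_product.2 ⟨?_, a1⟩, ?_⟩
    · rw [← a3]
      exact (hq u a2).1
    · rw [← a3]
      exact a5.symm
  have hs2 : X2 ⊆ eds G (C x) (C z) := by
    intro e he
    obtain ⟨a1, u, a2, a3, a4, a5⟩ := hm2 e he
    refine mem_filter.2 ⟨mem_product.2 ⟨a1, ?_⟩, ?_⟩
    · rw [← a3]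
      exact (hq' u a2).1
    · rw [← a3]
      exact a5
  have hint : (X1 ∩ X2).card ≤ (eds G (H x) (H z)).card := by
    have hw : ∀ e ∈ X1 ∩ X2, ∃ f : V × V, f ∈ eds G (H x) (H z) ∧
        (∃ u ∈ K, q u = e.1 ∧ p u = f.1) ∧ (∃ u ∈ K', q' u = e.2 ∧ p' u = f.2) := by
      intro e he
      obtain ⟨he1, he2⟩ := mem_inter.1 he
      obtain ⟨a1, u, a2, a3, a4, a5⟩ := hm1 e he1
      obtain ⟨b1, v, b2, b3, b4, b5⟩ := hm2 e he2
      obtain ⟨r1, r2, r3⟩ := hq _ a2
      obtain ⟨s1, s2, s3⟩ := hq' _ b2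
      refine ⟨(p u, p' v), ?_, ⟨u, a2, a3, rfl⟩, ⟨v, b2, b3, rfl⟩⟩
      refine mem_filter.2 ⟨mem_product.2 ⟨hp _ a2, hp' _ b2⟩, ?_⟩
      have h9 : ¬ G.Adj (q' v) (p u) := by
        rw [b3]
        exact a4
      have h10 : ¬ G.Adj (q' v) (p' v) := fun h11 => h.FG _ _ s2 h11.symm
      exact (h.three x hx z hz hxz (p u) (hp _ a2) r3 (p' v) (hp' _ b2) s3 (q' v) s1 h9 h10).symm
    choose! f hf1 hf2 hf3 using hw
    refine card_le_card_of_injOn f (fun e he => ?_) ?_
    · have := hf1 e (by exact_mod_cast he)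
      exact_mod_cast this
    · intro e he e' he' hee
      have he1 : e ∈ X1 ∩ X2 := by exact_mod_cast he
      have he2 : e' ∈ X1 ∩ X2 := by exact_mod_cast he'
      obtain ⟨u, hu, hu1, hu2⟩ := hf2 e he1
      obtain ⟨u', hu', hu1', hu2'⟩ := hf2 e' he2
      obtain ⟨v, hv, hv1, hv2⟩ := hf3 e he1
      obtain ⟨v', hv', hv1', hv2'⟩ := hf3 e' he2
      have k1 : u = u' := hK.ip (by exact_mod_cast hu) (by exact_mod_cast hu')
        (by rw [hu2, hu2', hee])
      have k2 : v = v' := hK'.ip (by exact_mod_cast hv) (by exact_mod_cast hv')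
        (by rw [hv2, hv2', hee])
      refine Prod.ext ?_ ?_
      · rw [← hu1, ← hu1', k1]
      · rw [← hv1, ← hv1', k2]
  have hun : X1.card + X2.card ≤ (eds G (C x) (C z)).card + (eds G (H x) (H z)).card := by
    have h5 := card_union_add_card_inter X1 X2
    have h6 := card_le_card (union_subset hs1 hs2)
    omega
  have hun' : (X1.card : ℤ) + X2.card
      ≤ (eds G (C x) (C z)).card + (eds G (H x) (H z)).card := by exact_mod_cast hun
  rw [hc1, hc2] at hun'
  linarith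

/-- **the deficient columns of a clique of missing pairs**: `Q` pairwise missing members of `x`; a
column of `C y` which misses a point with tail `y` and all points with other tails is adjacent to
every such column of `C z` -/
theorem WSys.clique_def {A : Finset ι} {C H : ι → Finset V} {tl : V → ι}
    (h : WSys G F A C H tl) {x y z : ι} (hx : x ∈ A) (hy : y ∈ A.erase x) (hz : z ∈ A.erase x)
    (hyz : y ≠ z) {Q : Finset V} (hQ : Q ⊆ H x) (hF : ∀ u ∈ Q, ∀ v ∈ Q, u ≠ v → F.Adj u v)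
    {c d : V} (hc : c ∈ C y) (hd : d ∈ C z)
    (hcu : ∃ u ∈ Q, tl u = y ∧ ¬ G.Adj c u) (hcv : ∀ v ∈ Q, tl v ≠ y → ¬ G.Adj c v)
    (hdu : ∃ u ∈ Q, tl u = z ∧ ¬ G.Adj d u) (hdv : ∀ v ∈ Q, tl v ≠ z → ¬ G.Adj d v) :
    G.Adj c d := by
  obtain ⟨u, hu, huy, hcu⟩ := hcu
  obtain ⟨v, hv, hvz, hdv'⟩ := hdu
  have huv : u ≠ v := by
    rintro rfl
    exact hyz (huy.symm.trans hvz)
  have h1 : tl u ≠ z := by
    rw [huy]
    exact hyz
  have h2 : tl v ≠ y := by
    rw [hvz]
    exact hyz.symm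
  exact h.half x hx u (hQ hu) v (hQ hv) (hF u hu v hv huv) (by rw [huy]; exact hy)
    (by rw [hvz]; exact hz) (by rw [huy, hvz]; exact hyz) c (by rw [huy]; exact hc) d
    (by rw [hvz]; exact hd) hcu (hcv v hv h2) (hdv u hu h1) hdv'

end Gen

section Groups

variable {ι V : Type*} {G : SimpleGraph V} {Z T : Finset V} {hm : V → V} {r m t : ℕ}
  {A : Finset V} {S : V → Finset V}

/-- a family of disjoint groups: every column `c` of `C` sees `k i - df i c` points of `P i` -/
structure Grp (G : SimpleGraph V) (C : Finset V) (I : Finset ι) (P : ι → Finset V) (k : ι → ℤ)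
    (df : ι → V → ℤ) : Prop where
  dis : ∀ i ∈ I, ∀ j ∈ I, i ≠ j → Disjoint (P i) (P j)
  see : ∀ i ∈ I, ∀ c ∈ C, k i ≤ dg G (P i) c + df i c

lemma Grp.sum_le {C : Finset V} {I : Finset ι} {P : ι → Finset V} {k : ι → ℤ} {df : ι → V → ℤ}
    (h : Grp G C I P k df) {W : Finset V} (hW : I.biUnion P ⊆ W) :
    ∑ i ∈ I, ((C.card : ℤ) * k i - ∑ c ∈ C, df i c) ≤ ∑ c ∈ C, (dg G W c : ℤ) := by
  have h1 : ∀ c ∈ C, ∑ i ∈ I, (k i - df i c) ≤ (dg G W c : ℤ) := by
    intro c hc
    have h2 : ∑ i ∈ I, dg G (P i) c = dg G (I.biUnion P) c := by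
      unfold dg
      rw [filter_biUnion, card_biUnion (fun x hx y hy hxy =>
        disjoint_filter_filter (h.dis x hx y hy hxy))]
    have h3 : dg G (I.biUnion P) c ≤ dg G W c := by
      unfold dg
      exact card_le_card (filter_subset_filter _ hW)
    have h4 : (∑ i ∈ I, (dg G (P i) c : ℤ)) ≤ dg G W c := by
      have : ((∑ i ∈ I, dg G (P i) c : ℕ) : ℤ) ≤ dg G W c := by
        rw [h2]
        exact_mod_cast h3
      push_cast at this
      exact this
    refine le_trans (sum_le_sum fun i hi => ?_) h4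
    have := h.see i hi c hc
    linarith
  have h2 := sum_le_sum h1
  refine le_trans (le_of_eq ?_) h2
  rw [sum_comm]
  refine sum_congr rfl fun i _ => ?_
  rw [sum_sub_distrib, sum_const, nsmul_eq_mul]

/-- **the tests with groups**: slope `|B|` on the slots of `B` and a set `W` outside them, for every
row `z ∈ B` a family of disjoint groups inside `W` -/
theorem CSys.tst_grp (hP : PG G r) (h : CSys G Z T hm A S) {B : Finset V} (hB : B ⊆ A)
    {W : Finset V} (hW : ∀ x ∈ B, Disjoint (S x) W) {I : V → Finset ι} {P : V → ι → Finset V}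
    {k : V → ι → ℤ} {df : V → ι → V → ℤ}
    (hG : ∀ z ∈ B, Grp G (CP G Z T S z) (I z) (P z) (k z) (df z))
    (hPW : ∀ z ∈ B, (I z).biUnion (P z) ⊆ W) :
    2 * ((r : ℤ) - B.card) * ∑ x ∈ B, (((S x).card : ℤ) - r)
      + ∑ x ∈ B, ∑ y ∈ B.erase x, ∑ v ∈ S y, (dg G (S x) v : ℤ)
      + ∑ x ∈ B, (((S x).card : ℤ) - r) ^ 2
      + 2 * ∑ z ∈ B, ∑ i ∈ I z, (((CP G Z T S z).card : ℤ) * k z i
          - ∑ c ∈ CP G Z T S z, df z i c)
      ≤ ∑ x ∈ B, (NE G (S x) : ℤ) + B.card * (B.card - 1) * r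
        + (∑ x ∈ B, (((S x).card : ℤ) - r)) ^ 2
        + NE G W + 2 * W.card * (B.card + ∑ x ∈ B, (((S x).card : ℤ) - r)) := by
  have h1 := h.tst hP hB hW
  have h2 : ∀ z ∈ B, ∑ i ∈ I z, (((CP G Z T S z).card : ℤ) * k z i
      - ∑ c ∈ CP G Z T S z, df z i c) ≤ ∑ v ∈ W, (dg G (S z) v : ℤ) := by
    intro z hz
    refine ((hG z hz).sum_le (hPW z hz)).trans ?_
    have h3 : ∑ c ∈ CP G Z T S z, (dg G W c : ℤ) = ∑ v ∈ W, (dg G (CP G Z T S z) v : ℤ) := by
      have := dg_comm G (CP G Z T S z) W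
      exact_mod_cast this
    rw [h3]
    refine sum_le_sum fun v _ => ?_
    unfold dg
    exact_mod_cast card_le_card (filter_subset_filter _ (by
      intro c hc
      exact (mem_CP.1 hc).1))
  have h3 := sum_le_sum h2
  linarith

/-- the union of complete pieces of class parts is a clique -/
lemma CSys.clq_sum_le (hF : PFrame G r m t Z T) (h : CSys G Z T hm A S)
    (hom : ∀ K : Finset V, K ⊆ Z → Clq G K → K.card ≤ r - 1) {Y : Finset V} (hY : Y ⊆ A)
    {D : V → Finset V} (hD : ∀ y ∈ Y, D y ⊆ CP G Z T S y)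
    (hc : ∀ y ∈ Y, ∀ z ∈ Y, y ≠ z → ∀ c ∈ D y, ∀ d ∈ D z, G.Adj c d) :
    ∑ y ∈ Y, (D y).card ≤ r - 1 := by
  have h1 : (Y.biUnion D).card = ∑ y ∈ Y, (D y).card :=
    card_biUnion fun y hy z hz hyz =>
      (h.dCP (hY hy) (hY hz) hyz).mono (hD y hy) (hD z hz)
  rw [← h1]
  refine hom _ ?_ ?_
  · intro v hv
    obtain ⟨y, hy, hvy⟩ := mem_biUnion.1 hv
    exact (mem_Cl.1 (mem_CP.1 (hD y hy hvy)).2).1
  · intro u hu v hv huv
    obtain ⟨y, hy, huy⟩ := mem_biUnion.1 hu
    obtain ⟨z, hz, hvz⟩ := mem_biUnion.1 hv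
    by_cases hyz : y = z
    · subst hyz
      exact h.CP_clq hF (hY hy) u (hD y hy huy) v (hD y hy hvz) huv
    · exact hc y hy z hz hyz u huy v hvz

/-- **the rests of a half-served unit: the sum is at most `R`** -/
theorem MatG.half_le' (hF : PFrame G r m t Z T) (hC : CSys G Z T hm A S)
    (hom : ∀ K : Finset V, K ⊆ Z → Clq G K → K.card ≤ r - 1) {M : V → Finset (V × V)}
    {ra rb : V × V → V}
    (h : MatG G (co G) A (CP G Z T S) (HP G Z T S) (tlo G T hm) M ra rb)
    {x : V} (hx : x ∈ A) {e : V × V} (he : e ∈ M x) (hne : ra e ≠ rb e) :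
    (rst G (CP G Z T S (ra e)) e.1 e.2).card + (rst G (CP G Z T S (rb e)) e.1 e.2).card
      ≤ r - 1 := by
  obtain ⟨h1, h2, h3, h4⟩ := (h.rws x hx e he).half hne
  have hy := mem_of_mem_erase (h.rws x hx e he).ya
  have hz := mem_of_mem_erase (h.rws x hx e he).za
  have h5 := hC.clq_sum_le hF hom (Y := {ra e, rb e})
    (D := fun y => rst G (CP G Z T S y) e.1 e.2) (by
      intro y hy'
      rcases mem_insert.1 hy' with rfl | hy'
      · exact hy
      · rw [mem_singleton.1 hy']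
        exact hz) (fun y _ => filter_subset _ _) (by
      intro y hy' z hz' hyz c hc d hd
      rcases mem_insert.1 hy' with rfl | hy' <;> rcases mem_insert.1 hz' with rfl | hz'
      · exact absurd rfl hyz
      · rw [mem_singleton.1 hz'] at hd
        exact h4 c hc d hd
      · rw [mem_singleton.1 hy'] at hc
        exact (h4 d hd c hc).symm
      · rw [mem_singleton.1 hy', mem_singleton.1 hz'] at hyz
        exact absurd rfl hyz)
  rwa [sum_pair hne] at h5

end Groups

end Pool.Agent.Lib.MP_f04ccf_co
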