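import Pool.Agent.Lib.MP_f04ccf_co.M.Enum
import Pool.Agent.Lib.MP_f04ccf_co.M.MatQ

/-!
MP_f04ccf_co, PLAN W (notes 16444, 16448, 16496, 16523): the items (matching units, clique units) over
the basic integers.  `ISys`: items over the rows of a home-free closed system: host, value, load and
misses at every row, with the pair, row, class and slot tests.  `ItN`: the same for the sorted
integers, over `BI`.  `ISys.itn`: the transport.  `MatG.isys`: the units of a matching system are items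
of value one.
-/

set_option autoImplicit false

namespace Pool.Agent.Lib.MP_f04ccf_co

open Finset

attribute [local instance] Classical.propDecidable

section Cls

variable {V : Type*} {G : SimpleGraph V} {Z T : Finset V} {hm : V → V} {r m t : ℕ}
  {A : Finset V} {S : V → Finset V} {M : V → Finset (V × V)} {ra rb : V × V → V}

/-- **the class test** (note 16521): (P) on a slot and the class part of another row -/
theorem CSys.cls_tst (hF : PFrame G r m t Z T) (hP : PG G r) (h : CSys G Z T hm A S) {x z : V}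
    (hx : x ∈ A) (hz : z ∈ A) (hxz : x ≠ z) :
    2 * ((r : ℤ) - 1) * (((S x).card : ℤ) - r) + 2 * ∑ v ∈ CP G Z T S z, (dg G (S x) v : ℤ)
      ≤ NE G (S x) + 2 * (CP G Z T S z).card * (((S x).card : ℤ) - r + 1) := by
  have h1 := h.tst hP (B := {x}) (singleton_subset_iff.2 hx) (W := CP G Z T S z) (by
    intro y hy
    rw [mem_singleton.1 hy]
    exact (h.disj hx hz hxz).mono_right fun v hv => (mem_CP.1 hv).1)
  simp only [sum_singleton, card_singleton, erase_singleton, sum_empty] at h1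
  rw [NE_clq (h.CP_clq hF hz)] at h1
  push_cast at h1
  nlinarith

/-- the units of a host seen by the class part of another row -/
theorem MatG.cls_hits (hW : WSys G (co G) A (CP G Z T S) (HP G Z T S) (tlo G T hm))
    (h : MatG G (co G) A (CP G Z T S) (HP G Z T S) (tlo G T hm) M ra rb) {x z : V} (hx : x ∈ A) :
    ∑ e ∈ M x, hit G (CP G Z T S) ra rb z e ≤ ∑ c ∈ CP G Z T S z, (dg G (S x) c : ℤ) := by
  rw [sum_hit]
  set K' := (M x).filter fun e => z = ra e ∨ z = rb e with hK'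
  have hdst : Dst K' Prod.fst Prod.snd := h.dst hW (B := {x}) (singleton_subset_iff.2 hx) (z := z)
    (by
      rw [singleton_biUnion]
      exact filter_subset _ _) fun e he => (mem_filter.1 he).2
  have hprs : Prs K' (Prod.fst : V × V → V) Prod.snd (∅ : Finset V) :=
    ⟨hdst.ip, hdst.iq, hdst.ne, fun _ _ => notMem_empty _, fun _ _ => notMem_empty _⟩
  have hsub : pts K' (Prod.fst : V × V → V) Prod.snd ⊆ S x := by
    intro v hv
    rcases mem_union.1 hv with h2 | h2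
    · obtain ⟨e, he, rfl⟩ := mem_image.1 h2
      exact (mem_HP.1 ((h.mtc x hx).p_mem e (mem_filter.1 he).1)).1
    · obtain ⟨e, he, rfl⟩ := mem_image.1 h2
      rcases (h.mtc x hx).q_mem e (mem_filter.1 he).1 with h3 | h3
      · exact (mem_HP.1 h3).1
      · exact (mem_CP.1 h3).1
  have h2 : ∑ c ∈ CP G Z T S z, ((K'.card : ℤ))
      ≤ ∑ c ∈ CP G Z T S z, ((dg G (pts K' Prod.fst Prod.snd) c : ℤ)
        + umis G K' Prod.fst Prod.snd c) :=
    sum_le_sum fun c _ => by exact_mod_cast pairs_seen (G := G) hprs c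
  have h3 : ∑ c ∈ CP G Z T S z, (umis G K' Prod.fst Prod.snd c : ℤ)
      = ∑ e ∈ K', ((rst G (CP G Z T S z) e.1 e.2).card : ℤ) := by
    exact_mod_cast sum_umis (G := G) (CP G Z T S z) K' Prod.fst Prod.snd
  have h4 : ∑ c ∈ CP G Z T S z, (dg G (pts K' Prod.fst Prod.snd) c : ℤ)
      ≤ ∑ c ∈ CP G Z T S z, (dg G (S x) c : ℤ) := by
    refine sum_le_sum fun c _ => ?_
    unfold dg
    exact_mod_cast card_le_card (filter_subset_filter _ hsub)
  rw [sum_add_distrib, h3, sum_const, nsmul_eq_mul] at h2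
  rw [sum_sub_distrib, sum_const, nsmul_eq_mul]
  linarith

end Cls

section MN

variable {ι V : Type*} {G : SimpleGraph V} {Z T : Finset V} {hm : V → V} {r m t : ℕ}

variable (G Z T hm r) in
/-- items over the rows `A`: `host`, value `vl`, load `kp x` and misses `ms x` (`mr x` in the row
test) at the row `x` -/
structure ISys (A S : Finset V) (U : Finset ι) (host : ι → V) (vl : ι → ℤ)
    (kp ms mr : V → ι → ℤ) : Prop where
  hA : ∀ u ∈ U, host u ∈ A
  v1 : ∀ u ∈ U, 1 ≤ vl u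
  k0 : ∀ u ∈ U, ∀ x ∈ A, 0 ≤ kp x u
  kh : ∀ u ∈ U, kp (host u) u = 0
  kv : ∀ u ∈ U, ∀ x ∈ A, kp x u ≤ vl u
  m0 : ∀ u ∈ U, ∀ x ∈ A, 0 ≤ ms x u
  msr : ∀ u ∈ U, ∀ x ∈ A, ms x u ≤ mr x u
  mrk : ∀ u ∈ U, ∀ x ∈ A, mr x u ≤ kp x u * ((r : ℤ) - 1 - tI G Z T hm r S x)
  srv : ∀ u ∈ U, (∃ x ∈ A, kp x u = vl u ∧ mr x u = 0 ∧ ∀ y ∈ A, y ≠ x → kp y u = 0) ∨
    ((r : ℤ) - 1) * vl u ≤ ∑ x ∈ A, (((r : ℤ) - 1) * kp x u - ms x u)
  prod : ∀ u ∈ U, ∀ x ∈ A, ∀ y ∈ A, x ≠ y →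
    ms x u * ms y u ≤ (r : ℤ) - 1 + tI G Z T hm r S x * tI G Z T hm r S y
  msum : ∀ u ∈ U, ∑ x ∈ A, ms x u ≤ (r : ℤ) - 1
  mr1 : ∀ u ∈ U, vl u = 1 → ∀ x ∈ A, mr x u = ms x u
  pair : ∀ x ∈ A, ∀ z ∈ A, x ≠ z →
    ∑ u ∈ U.filter (fun u => host u = x), (kp z u * ((r : ℤ) - 1 - tI G Z T hm r S z) - ms z u)
      + ∑ u ∈ U.filter (fun u => host u = z),
        (kp x u * ((r : ℤ) - 1 - tI G Z T hm r S x) - ms x u) ≤ EI G hm S x z
  row : ∀ z ∈ A, ∀ K ⊆ U, (∀ u ∈ K, host u ≠ z) →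
    ((r : ℤ) - 1) * sI hm r S z
      + ∑ u ∈ K, (kp z u * ((r : ℤ) - 1 - tI G Z T hm r S z) - mr z u)
      ≤ eI G hm S z + 2 * (∑ u ∈ K, kp z u) * (sI hm r S z + 1)
        + (∑ u ∈ K, kp z u) * (2 * ∑ u ∈ K, kp z u - 1)
  rowa : ∀ z ∈ A, ∀ K ⊆ U, (∀ u ∈ K, host u ≠ z) → (∀ u ∈ K, kp z u ≠ 0) →
    2 * (((r : ℤ) - 1) * sI hm r S z)
      + 2 * ∑ u ∈ K, (kp z u * ((r : ℤ) - 1 - tI G Z T hm r S z) - ms z u)
      ≤ 2 * eI G hm S z + 2 * (∑ u ∈ K, (vl u + 1)) * (sI hm r S z + 1)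
        + (∑ u ∈ K, (vl u + 1)) * (∑ u ∈ K, (vl u + 1) - 1)
  cls : ∀ x ∈ A, ∀ z ∈ A, x ≠ z →
    ((r : ℤ) - 1) * sI hm r S x
      + ∑ u ∈ U.filter (fun u => host u = x),
        (kp z u * ((r : ℤ) - 1 - tI G Z T hm r S z) - ms z u)
      ≤ eI G hm S x + ((r : ℤ) - 1 - tI G Z T hm r S z) * (sI hm r S x + 1)
  tst : ∀ B ⊆ A, ∀ K ⊆ U, (∀ u ∈ K, host u ∉ B) →
    0 ≤ (B.card : ℤ) + ∑ x ∈ B, sI hm r S x + ∑ u ∈ K, vl u →
    2 * ((r : ℤ) - B.card) * ∑ x ∈ B, sI hm r S x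
      + ∑ x ∈ B, ∑ y ∈ B.erase x, EI G hm S x y + ∑ x ∈ B, sI hm r S x ^ 2
      + 2 * ∑ u ∈ K, ∑ z ∈ B, (kp z u * ((r : ℤ) - 1 - tI G Z T hm r S z) - ms z u)
      ≤ 2 * ∑ x ∈ B, eI G hm S x + B.card * (B.card - 1) * r + (∑ x ∈ B, sI hm r S x) ^ 2
        + 4 * (∑ u ∈ K, vl u) * (B.card + ∑ x ∈ B, sI hm r S x)
        + 2 * (∑ u ∈ K, vl u) * (2 * ∑ u ∈ K, vl u - 1)

/-- **the items over the basic integers**: `ho u` is the host, `vl u` the value, `kp i u` the load and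
`ms i u` the misses of the item `u` at the row `i` (`mr i u` in the row test);
`kp i u * (R - t i) - ms i u` are its hits; `row` uses `2 kp` points of the items, `rowa` all
`vl + 1` points -/
structure ItN (R : ℤ) (n : ℕ) (t s h e : ℕ → ℤ) (E : ℕ → ℕ → ℤ) (U : Finset ι)
    (ho : ι → ℕ) (vl : ι → ℤ) (kp ms mr : ℕ → ι → ℤ) : Prop extends BI R n t s h e E where
  hlt : ∀ u ∈ U, ho u < n
  v1 : ∀ u ∈ U, 1 ≤ vl u
  k0 : ∀ u ∈ U, ∀ i, i < n → 0 ≤ kp i u
  kh : ∀ u ∈ U, kp (ho u) u = 0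
  kv : ∀ u ∈ U, ∀ i, i < n → kp i u ≤ vl u
  m0 : ∀ u ∈ U, ∀ i, i < n → 0 ≤ ms i u
  msr : ∀ u ∈ U, ∀ i, i < n → ms i u ≤ mr i u
  mrk : ∀ u ∈ U, ∀ i, i < n → mr i u ≤ kp i u * (R - t i)
  srv : ∀ u ∈ U, (∃ i < n, kp i u = vl u ∧ mr i u = 0 ∧ ∀ j < n, j ≠ i → kp j u = 0) ∨
    R * vl u ≤ ∑ i ∈ range n, (R * kp i u - ms i u)
  prod : ∀ u ∈ U, ∀ i < n, ∀ j < n, i ≠ j → ms i u * ms j u ≤ R + t i * t j
  msum : ∀ u ∈ U, ∑ i ∈ range n, ms i u ≤ R
  mr1 : ∀ u ∈ U, vl u = 1 → ∀ i < n, mr i u = ms i u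
  pair : ∀ i < n, ∀ j < n, i ≠ j →
    ∑ u ∈ U.filter (fun u => ho u = i), (kp j u * (R - t j) - ms j u)
      + ∑ u ∈ U.filter (fun u => ho u = j), (kp i u * (R - t i) - ms i u) ≤ E i j
  row : ∀ i < n, ∀ K ⊆ U, (∀ u ∈ K, ho u ≠ i) →
    R * s i + ∑ u ∈ K, (kp i u * (R - t i) - mr i u)
      ≤ e i + 2 * (∑ u ∈ K, kp i u) * (s i + 1) + (∑ u ∈ K, kp i u) * (2 * ∑ u ∈ K, kp i u - 1)
  rowa : ∀ i < n, ∀ K ⊆ U, (∀ u ∈ K, ho u ≠ i) → (∀ u ∈ K, kp i u ≠ 0) →
    2 * (R * s i) + 2 * ∑ u ∈ K, (kp i u * (R - t i) - ms i u)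
      ≤ 2 * e i + 2 * (∑ u ∈ K, (vl u + 1)) * (s i + 1)
        + (∑ u ∈ K, (vl u + 1)) * (∑ u ∈ K, (vl u + 1) - 1)
  cls : ∀ i < n, ∀ j < n, i ≠ j →
    R * s i + ∑ u ∈ U.filter (fun u => ho u = i), (kp j u * (R - t j) - ms j u)
      ≤ e i + (R - t j) * (s i + 1)
  tst : ∀ B ⊆ range n, ∀ K ⊆ U, (∀ u ∈ K, ho u ∉ B) →
    0 ≤ (B.card : ℤ) + ∑ i ∈ B, s i + ∑ u ∈ K, vl u →
    2 * (R + 1 - B.card) * ∑ i ∈ B, s i + ∑ i ∈ B, ∑ j ∈ B.erase i, E i j + ∑ i ∈ B, s i ^ 2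
      + 2 * ∑ u ∈ K, ∑ i ∈ B, (kp i u * (R - t i) - ms i u)
      ≤ 2 * ∑ i ∈ B, e i + B.card * (B.card - 1) * (R + 1) + (∑ i ∈ B, s i) ^ 2
        + 4 * (∑ u ∈ K, vl u) * (B.card + ∑ i ∈ B, s i)
        + 2 * (∑ u ∈ K, vl u) * (2 * ∑ u ∈ K, vl u - 1)

/-- **the transport** -/
theorem ISys.itn {A S : Finset V} {U : Finset ι} {host : ι → V} {vl : ι → ℤ}
    {kp ms mr : V → ι → ℤ} (h : ISys G Z T hm r A S U host vl kp ms mr) {ρ : V → ℕ} {σ : ℕ → V}
    (hσ : Rank A (tI G Z T hm r S) ρ σ)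
    (hb : BI ((r : ℤ) - 1) A.card (fun i => tI G Z T hm r S (σ i)) (fun i => sI hm r S (σ i))
      (fun i => hI G Z T hm S (σ i)) (fun i => eI G hm S (σ i))
      (fun i j => EI G hm S (σ i) (σ j))) :
    ItN ((r : ℤ) - 1) A.card (fun i => tI G Z T hm r S (σ i)) (fun i => sI hm r S (σ i))
      (fun i => hI G Z T hm S (σ i)) (fun i => eI G hm S (σ i))
      (fun i j => EI G hm S (σ i) (σ j)) U (fun u => ρ (host u)) vl
      (fun i u => kp (σ i) u) (fun i u => ms (σ i) u) (fun i u => mr (σ i) u) := by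
  have er : (r : ℤ) - 1 + 1 = r := by ring
  have hsr : ∀ u ∈ U, σ (ρ (host u)) = host u := fun u hu => hσ.left _ (h.hA u hu)
  have hne : ∀ i < A.card, ∀ j < A.card, i ≠ j → σ i ≠ σ j := fun i hi j hj hij h1 =>
    hij (hσ.sinj hi hj h1)
  have hfil : ∀ i < A.card, U.filter (fun u => ρ (host u) = i)
      = U.filter (fun u => host u = σ i) := by
    intro i hi
    refine filter_congr fun u hu => ?_
    constructor
    · rintro rfl
      exact (hsr u hu).symm
    · intro h1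
      rw [h1, hσ.right i hi]
  refine ⟨hb, fun u hu => hσ.lt _ (h.hA u hu), h.v1, fun u hu i hi => h.k0 u hu _ (hσ.mem i hi),
    fun u hu => ?_, fun u hu i hi => h.kv u hu _ (hσ.mem i hi),
    fun u hu i hi => h.m0 u hu _ (hσ.mem i hi), fun u hu i hi => h.msr u hu _ (hσ.mem i hi),
    fun u hu i hi => h.mrk u hu _ (hσ.mem i hi),
    fun u hu => ?_, fun u hu i hi j hj hij => h.prod u hu _ (hσ.mem i hi) _ (hσ.mem j hj)
      (hne i hi j hj hij), fun u hu => ?_, fun u hu h1 i hi => h.mr1 u hu h1 _ (hσ.mem i hi),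
    fun i hi j hj hij => ?_, fun i hi K hK hKh => ?_, fun i hi K hK hKh hk => ?_,
    fun i hi j hj hij => ?_, fun B hB K hK hKh h0 => ?_⟩
  · show kp (σ (ρ (host u))) u = 0
    rw [hsr u hu]
    exact h.kh u hu
  · rcases h.srv u hu with ⟨x, hx, h1, h2, h3⟩ | h1
    · left
      refine ⟨ρ x, hσ.lt x hx, ?_, ?_, fun j hj hjx => ?_⟩
      · show kp (σ (ρ x)) u = vl u
        rw [hσ.left x hx]
        exact h1
      · show mr (σ (ρ x)) u = 0
        rw [hσ.left x hx]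
        exact h2
      · refine h3 _ (hσ.mem j hj) fun h4 => hjx ?_
        rw [← h4, hσ.right j hj]
    · right
      rw [hσ.sum fun x => ((r : ℤ) - 1) * kp x u - ms x u] at h1
      exact h1
  · have h1 := h.msum u hu
    rw [hσ.sum fun x => ms x u] at h1
    exact h1
  · have h1 := h.pair _ (hσ.mem i hi) _ (hσ.mem j hj) (hne i hi j hj hij)
    rw [hfil i hi, hfil j hj]
    exact h1
  · refine h.row _ (hσ.mem i hi) K hK fun u hu h1 => hKh u hu ?_
    show ρ (host u) = i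
    rw [h1, hσ.right i hi]
  · refine h.rowa _ (hσ.mem i hi) K hK (fun u hu h1 => hKh u hu ?_) hk
    show ρ (host u) = i
    rw [h1, hσ.right i hi]
  · have h1 := h.cls _ (hσ.mem i hi) _ (hσ.mem j hj) (hne i hi j hj hij)
    rw [hfil i hi]
    exact h1
  · have h2 := h.tst _ (hσ.image_sub hB) K hK (fun u hu h1 => by
      obtain ⟨i, hi, h3⟩ := mem_image.1 h1
      apply hKh u hu
      show ρ (host u) ∈ B
      rw [← h3, hσ.right i (mem_range.1 (hB hi))]
      exact hi) (by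
      rw [hσ.card_image hB, hσ.sum_im hB (sI hm r S)]
      exact h0)
    rw [hσ.card_image hB, hσ.sum2_im hB (EI G hm S), hσ.sum_im hB (sI hm r S),
      hσ.sum_im hB (eI G hm S), hσ.sum_im hB fun x => sI hm r S x ^ 2] at h2
    have e1 : ∀ u ∈ K, ∑ z ∈ B.image σ,
        (kp z u * ((r : ℤ) - 1 - tI G Z T hm r S z) - ms z u)
        = ∑ i ∈ B, (kp (σ i) u * ((r : ℤ) - 1 - tI G Z T hm r S (σ i)) - ms (σ i) u) :=
      fun u _ => hσ.sum_im hB _
    rw [sum_congr rfl e1] at h2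
    rw [er]
    exact h2

/-- **the units of a matching system are items of value one** -/
theorem MatG.isys {A S : Finset V} (hF : PFrame G r m t Z T) (hP : PG G r)
    (hC : CSys G Z T hm A fun x => S.filter fun v => hm v = x)
    (hW : WSys G (co G) A (CP G Z T fun x => S.filter fun v => hm v = x)
      (HP G Z T fun x => S.filter fun v => hm v = x) (tlo G T hm))
    {M : V → Finset (V × V)} {ra rb : V × V → V}
    (h : MatG G (co G) A (CP G Z T fun x => S.filter fun v => hm v = x)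
      (HP G Z T fun x => S.filter fun v => hm v = x) (tlo G T hm) M ra rb)
    (hc : ∀ y ∈ A, (CP G Z T (fun x => S.filter fun v => hm v = x) y).card + 1 ≤ r)
    (hom : ∀ K : Finset V, K ⊆ Z → Clq G K → K.card ≤ r - 1)
    (h0 : ∀ y ∈ A, 0 ≤ tI G Z T hm r S y) :
    ISys G Z T hm r A S (A.biUnion M) (fun e => hm e.1) (fun _ => 1)
      (fun x e => if x = ra e ∨ x = rb e then 1 else 0)
      (fun x e => if x = ra e ∨ x = rb e then
        ((rst G (CP G Z T (fun x => S.filter fun v => hm v = x) x) e.1 e.2).card : ℤ) else 0)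
      (fun x e => if x = ra e ∨ x = rb e then
        ((rst G (CP G Z T (fun x => S.filter fun v => hm v = x) x) e.1 e.2).card : ℤ) else 0) := by
  set C := CP G Z T fun x => S.filter fun v => hm v = x with hCdef
  have hcard : ∀ x, ((C x).card : ℤ) = (r : ℤ) - 1 - tI G Z T hm r S x := fun x =>
    card_CP_eq S x
  have hhost : ∀ x ∈ A, ∀ e ∈ M x, hm e.1 = x := fun x hx e he =>
    (mem_filter.1 (mem_HP.1 ((h.mtc x hx).p_mem e he)).1).2
  have hx : ∀ e ∈ A.biUnion M, hm e.1 ∈ A ∧ e ∈ M (hm e.1) := by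
    intro e he
    obtain ⟨x, hx, hex⟩ := mem_biUnion.1 he
    rw [hhost x hx e hex]
    exact ⟨hx, hex⟩
  have hrab : ∀ e ∈ A.biUnion M, ra e ∈ A.erase (hm e.1) ∧ rb e ∈ A.erase (hm e.1) := by
    intro e he
    obtain ⟨h1, h2⟩ := hx e he
    exact ⟨(h.rws _ h1 e h2).ya, (h.rws _ h1 e h2).za⟩
  have hhit : ∀ (x : V) (e : V × V), (if x = ra e ∨ x = rb e then (1 : ℤ) else 0)
      * ((r : ℤ) - 1 - tI G Z T hm r S x)
      - (if x = ra e ∨ x = rb e then ((rst G (C x) e.1 e.2).card : ℤ) else 0)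
      = hit G C ra rb x e := by
    intro x e
    unfold hit
    rw [← hcard x]
    split_ifs <;> ring
  have hhs : ∀ (x : V) (K : Finset (V × V)), ∑ e ∈ K, ((if x = ra e ∨ x = rb e then (1 : ℤ) else 0)
      * ((r : ℤ) - 1 - tI G Z T hm r S x)
      - (if x = ra e ∨ x = rb e then ((rst G (C x) e.1 e.2).card : ℤ) else 0))
      = ∑ e ∈ K, hit G C ra rb x e := fun x K => sum_congr rfl fun e _ => hhit x e
  have hfilM : ∀ x ∈ A, (A.biUnion M).filter (fun e => hm e.1 = x) = M x := by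
    intro x hxA
    ext e
    rw [mem_filter]
    constructor
    · rintro ⟨h1, rfl⟩
      exact (hx e h1).2
    · intro h1
      exact ⟨mem_biUnion.2 ⟨x, hxA, h1⟩, hhost x hxA e h1⟩
  have two : ∀ e ∈ A.biUnion M, ra e ≠ rb e →
      ∀ f : V → ℤ, ∑ x ∈ A, (if x = ra e ∨ x = rb e then f x else 0) = f (ra e) + f (rb e) := by
    intro e he hne f
    obtain ⟨h1, h2⟩ := hrab e he
    rw [← sum_filter]
    have h3 : A.filter (fun x => x = ra e ∨ x = rb e) = {ra e, rb e} := by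
      ext x
      rw [mem_filter, mem_insert, mem_singleton]
      constructor
      · exact fun h4 => h4.2
      · rintro (rfl | rfl)
        · exact ⟨mem_of_mem_erase h1, Or.inl rfl⟩
        · exact ⟨mem_of_mem_erase h2, Or.inr rfl⟩
    rw [h3, sum_pair hne]
  have one : ∀ e ∈ A.biUnion M, ra e = rb e →
      ∀ f : V → ℤ, ∑ x ∈ A, (if x = ra e ∨ x = rb e then f x else 0) = f (ra e) := by
    intro e he hne f
    obtain ⟨h1, h2⟩ := hrab e he
    rw [← sum_filter]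
    have h3 : A.filter (fun x => x = ra e ∨ x = rb e) = {ra e} := by
      ext x
      rw [mem_filter, mem_singleton, ← hne, or_self]
      constructor
      · exact fun h4 => h4.2
      · rintro rfl
        exact ⟨mem_of_mem_erase h1, rfl⟩
    rw [h3, sum_singleton]
  have hfull : ∀ e ∈ A.biUnion M, ra e = rb e → (rst G (C (ra e)) e.1 e.2).card = 0 := by
    intro e he hne
    obtain ⟨h1, h2⟩ := hx e he
    rw [(h.rws _ h1 e h2).full hne, card_empty]
  have hhalf : ∀ e ∈ A.biUnion M, ra e ≠ rb e →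
      ((rst G (C (ra e)) e.1 e.2).card : ℤ) * (rst G (C (rb e)) e.1 e.2).card
        ≤ (r : ℤ) - 1 + tI G Z T hm r S (ra e) * tI G Z T hm r S (rb e) ∧
      ((rst G (C (ra e)) e.1 e.2).card : ℤ) + (rst G (C (rb e)) e.1 e.2).card ≤ (r : ℤ) - 1 := by
    intro e he hne
    obtain ⟨h1, h2⟩ := hx e he
    obtain ⟨h3, -⟩ := h.half_le hF hP hC hc h1 h2 hne
    rw [hcard, hcard] at h3
    refine ⟨?_, ?_⟩
    · have e1 : ∀ a b : ℤ, ((r : ℤ) - 1 - ((r : ℤ) - 1 - a)) * ((r : ℤ) - 1 - ((r : ℤ) - 1 - b))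
          = a * b := fun a b => by ring
      rw [e1] at h3
      exact h3
    · have h5 := h.half_le' hF hC hom h1 h2 hne
      have h6 := hc _ h1
      have h7 : (((rst G (C (ra e)) e.1 e.2).card + (rst G (C (rb e)) e.1 e.2).card : ℕ) : ℤ)
          ≤ ((r - 1 : ℕ) : ℤ) := by exact_mod_cast h5
      rw [Nat.cast_sub (by omega)] at h7
      push_cast at h7
      exact h7
  have hrow : ∀ z ∈ A, ∀ K ⊆ A.biUnion M, (∀ e ∈ K, hm e.1 ≠ z) →
      ((r : ℤ) - 1) * sI hm r S z + ∑ e ∈ K, hit G C ra rb z e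
        ≤ eI G hm S z + 2 * (∑ e ∈ K, (if z = ra e ∨ z = rb e then (1 : ℤ) else 0))
          * (sI hm r S z + 1) + (∑ e ∈ K, (if z = ra e ∨ z = rb e then (1 : ℤ) else 0))
          * (2 * ∑ e ∈ K, (if z = ra e ∨ z = rb e then (1 : ℤ) else 0) - 1) := by
    intro z hzA K hK hKh
    set K' := K.filter fun e => z = ra e ∨ z = rb e with hK'
    have h1 : ∑ e ∈ K, hit G C ra rb z e = ∑ e ∈ K', hit G C ra rb z e := by
      rw [sum_hit, sum_hit, hK', filter_filter]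
      congr 1
      exact filter_congr fun e _ => by simp
    have h2 : ∑ e ∈ K, (if z = ra e ∨ z = rb e then (1 : ℤ) else 0) = K'.card := by
      rw [← sum_filter, sum_const, nsmul_eq_mul, mul_one]
    have h3 : K' ⊆ (A.erase z).biUnion M := by
      intro e he
      obtain ⟨h4, h5⟩ := hx e (hK (mem_filter.1 he).1)
      exact mem_biUnion.2 ⟨hm e.1, mem_erase.2 ⟨hKh e (mem_filter.1 he).1, h4⟩, h5⟩
    have h4 := h.row hF hP hC hW hzA h3 fun e he => (mem_filter.1 he).2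
    have h5 := two_eI (G := G) (hm := hm) S z
    rw [h1, h2]
    have h6 : (((S.filter fun v => hm v = z).card : ℤ) - r) = sI hm r S z := rfl
    rw [h6, ← h5] at h4
    nlinarith
  refine ⟨fun e he => (hx e he).1, fun _ _ => le_refl _, ?_, ?_, ?_, ?_, fun _ _ _ _ => le_refl _,
    ?_, ?_, ?_, ?_, fun _ _ _ _ _ => rfl, ?_, ?_, ?_, ?_, ?_⟩
  · intro e _ x _
    show (0 : ℤ) ≤ if x = ra e ∨ x = rb e then 1 else 0
    split_ifs <;> norm_num
  · intro e he
    obtain ⟨h1, h2⟩ := hrab e he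
    show (if hm e.1 = ra e ∨ hm e.1 = rb e then (1 : ℤ) else 0) = 0
    rw [if_neg]
    rintro (h3 | h3)
    · exact ne_of_mem_erase h1 h3.symm
    · exact ne_of_mem_erase h2 h3.symm
  · intro e _ x _
    show (if x = ra e ∨ x = rb e then (1 : ℤ) else 0) ≤ 1
    split_ifs <;> norm_num
  · intro e _ x _
    show (0 : ℤ) ≤ if x = ra e ∨ x = rb e then ((rst G (C x) e.1 e.2).card : ℤ) else 0
    split_ifs
    · exact Nat.cast_nonneg _
    · exact le_refl _
  · intro e _ x _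
    have h1 := hhit x e
    have h2 := hit_nonneg (G := G) (C := C) (ra := ra) (rb := rb) x e
    show (if x = ra e ∨ x = rb e then ((rst G (C x) e.1 e.2).card : ℤ) else 0)
      ≤ (if x = ra e ∨ x = rb e then (1 : ℤ) else 0) * ((r : ℤ) - 1 - tI G Z T hm r S x)
    linarith
  · intro e he
    obtain ⟨h1, h2⟩ := hrab e he
    by_cases hne : ra e = rb e
    · left
      refine ⟨ra e, mem_of_mem_erase h1, ?_, ?_, fun y _ hy => ?_⟩
      · show (if ra e = ra e ∨ ra e = rb e then (1 : ℤ) else 0) = 1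
        rw [if_pos (Or.inl rfl)]
      · show (if ra e = ra e ∨ ra e = rb e then ((rst G (C (ra e)) e.1 e.2).card : ℤ) else 0) = 0
        rw [if_pos (Or.inl rfl), hfull e he hne]
        rfl
      · show (if y = ra e ∨ y = rb e then (1 : ℤ) else 0) = 0
        rw [if_neg]
        rw [← hne, or_self]
        exact hy
    · right
      have h3 := (hhalf e he hne).2
      have h4 := two e he hne fun x => ((r : ℤ) - 1) - (rst G (C x) e.1 e.2).card
      have h5 : ∑ x ∈ A, (((r : ℤ) - 1) * (if x = ra e ∨ x = rb e then (1 : ℤ) else 0)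
          - (if x = ra e ∨ x = rb e then ((rst G (C x) e.1 e.2).card : ℤ) else 0))
          = ∑ x ∈ A, if x = ra e ∨ x = rb e then
            ((r : ℤ) - 1) - ((rst G (C x) e.1 e.2).card : ℤ) else 0 :=
        sum_congr rfl fun x _ => by split_ifs <;> ring
      show ((r : ℤ) - 1) * 1 ≤ ∑ x ∈ A, (((r : ℤ) - 1)
        * (if x = ra e ∨ x = rb e then (1 : ℤ) else 0)
          - (if x = ra e ∨ x = rb e then ((rst G (C x) e.1 e.2).card : ℤ) else 0))
      rw [h5, h4]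
      linarith
  · intro e he x hxA y hyA hxy
    have hR : (0 : ℤ) ≤ (r : ℤ) - 1 + tI G Z T hm r S x * tI G Z T hm r S y := by
      have h1 : (1 : ℤ) ≤ r := by
        have := hc x hxA
        exact_mod_cast (by omega : 1 ≤ r)
      have h2 := mul_nonneg (h0 x hxA) (h0 y hyA)
      linarith
    show (if x = ra e ∨ x = rb e then ((rst G (C x) e.1 e.2).card : ℤ) else 0)
      * (if y = ra e ∨ y = rb e then ((rst G (C y) e.1 e.2).card : ℤ) else 0)
      ≤ (r : ℤ) - 1 + tI G Z T hm r S x * tI G Z T hm r S y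
    by_cases hne : ra e = rb e
    · have h1 := hfull e he hne
      have h2 : (if x = ra e ∨ x = rb e then ((rst G (C x) e.1 e.2).card : ℤ) else 0) = 0 := by
        split_ifs with h3
        · rw [← hne, or_self] at h3
          rw [h3, h1]
          rfl
        · rfl
      rw [h2, zero_mul]
      exact hR
    · obtain ⟨h1, -⟩ := hhalf e he hne
      by_cases h3 : x = ra e ∨ x = rb e
      · by_cases h4 : y = ra e ∨ y = rb e
        · rw [if_pos h3, if_pos h4]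
          rcases h3 with rfl | rfl <;> rcases h4 with rfl | rfl
          · exact absurd rfl hxy
          · exact h1
          · rw [mul_comm, mul_comm (tI G Z T hm r S (rb e))]
            exact h1
          · exact absurd rfl hxy
        · rw [if_neg h4, mul_zero]
          exact hR
      · rw [if_neg h3, zero_mul]
        exact hR
  · intro e he
    show ∑ x ∈ A, (if x = ra e ∨ x = rb e then ((rst G (C x) e.1 e.2).card : ℤ) else 0)
      ≤ (r : ℤ) - 1
    by_cases hne : ra e = rb e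
    · rw [one e he hne fun x => ((rst G (C x) e.1 e.2).card : ℤ), hfull e he hne]
      have h1 : (1 : ℤ) ≤ r := by
        have := hc _ (hx e he).1
        exact_mod_cast (by omega : 1 ≤ r)
      push_cast
      linarith
    · rw [two e he hne fun x => ((rst G (C x) e.1 e.2).card : ℤ)]
      have h1 := (hhalf e he hne).2
      linarith
  · intro x hxA z hzA hxz
    show ∑ e ∈ (A.biUnion M).filter (fun e => hm e.1 = x), _
      + ∑ e ∈ (A.biUnion M).filter (fun e => hm e.1 = z), _ ≤ _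
    rw [hhs, hhs, hfilM x hxA, hfilM z hzA]
    exact h.pair hW hxA hzA hxz
  · intro z hzA K hK hKh
    show ((r : ℤ) - 1) * sI hm r S z + ∑ e ∈ K, _ ≤ _
    rw [hhs]
    exact hrow z hzA K hK hKh
  · intro z hzA K hK hKh hk
    show 2 * (((r : ℤ) - 1) * sI hm r S z) + 2 * ∑ e ∈ K, _ ≤ _
    rw [hhs]
    have h1 := hrow z hzA K hK hKh
    have h2 : ∑ e ∈ K, (if z = ra e ∨ z = rb e then (1 : ℤ) else 0) = K.card := by
      have h3 : ∀ e ∈ K, (if z = ra e ∨ z = rb e then (1 : ℤ) else 0) = 1 := by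
        intro e he
        have h4 : (if z = ra e ∨ z = rb e then (1 : ℤ) else 0) ≠ 0 := hk e he
        split_ifs at h4 ⊢ with h5
        · rfl
        · exact absurd rfl h4
      rw [sum_congr rfl h3, sum_const, nsmul_eq_mul, mul_one]
    have h3 : ∑ _e ∈ K, ((1 : ℤ) + 1) = 2 * K.card := by
      rw [sum_const, nsmul_eq_mul]
      ring
    rw [h2] at h1
    show _ ≤ 2 * eI G hm S z + 2 * (∑ _e ∈ K, ((1 : ℤ) + 1)) * (sI hm r S z + 1)
        + (∑ _e ∈ K, ((1 : ℤ) + 1)) * (∑ _e ∈ K, ((1 : ℤ) + 1) - 1)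
    rw [h3]
    nlinarith
  · intro x hxA z hzA hxz
    show ((r : ℤ) - 1) * sI hm r S x
      + ∑ e ∈ (A.biUnion M).filter (fun e => hm e.1 = x), _ ≤ _
    rw [hhs, hfilM x hxA]
    have h1 := hC.cls_tst hF hP hxA hzA hxz
    have h2 := h.cls_hits hW hxA (z := z)
    have h5 := two_eI (G := G) (hm := hm) S x
    have h3 : ∑ c ∈ C z, (dg G (S.filter fun v => hm v = x) c : ℤ)
      = ∑ c ∈ CP G Z T (fun x => S.filter fun v => hm v = x) z,
        (dg G (S.filter fun v => hm v = x) c : ℤ) := rfl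
    have h6 : (((S.filter fun v => hm v = x).card : ℤ) - r) = sI hm r S x := rfl
    have h7 := hcard z
    have h8 : (((CP G Z T (fun x => S.filter fun v => hm v = x) z).card : ℕ) : ℤ)
      = (r : ℤ) - 1 - tI G Z T hm r S z := h7
    rw [h6, ← h5, h8] at h1
    nlinarith
  · intro B hB K hK hKh hn
    have hsum1 : ∑ _e ∈ K, (1 : ℤ) = K.card := by
      rw [sum_const, nsmul_eq_mul, mul_one]
    have h3 : K ⊆ (A \ B).biUnion M := by
      intro e he
      obtain ⟨h4, h5⟩ := hx e (hK he)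
      exact mem_biUnion.2 ⟨hm e.1, mem_sdiff.2 ⟨h4, hKh e he⟩, h5⟩
    have h4 := h.tst hP hC hW hB h3 (by
      have h5 : 0 ≤ (B.card : ℤ) + ∑ x ∈ B, sI hm r S x + ∑ _e ∈ K, (1 : ℤ) := hn
      rw [hsum1] at h5
      exact h5)
    have h5 : ∑ x ∈ B, (NE G (S.filter fun v => hm v = x) : ℤ) = 2 * ∑ x ∈ B, eI G hm S x := by
      rw [mul_sum]
      exact sum_congr rfl fun x _ => (two_eI S x).symm
    rw [h5] at h4
    have h6 : ∑ e ∈ K, ∑ z ∈ B, ((if z = ra e ∨ z = rb e then (1 : ℤ) else 0)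
        * ((r : ℤ) - 1 - tI G Z T hm r S z)
        - (if z = ra e ∨ z = rb e then ((rst G (C z) e.1 e.2).card : ℤ) else 0))
        = ∑ e ∈ K, ∑ z ∈ B, hit G C ra rb z e :=
      sum_congr rfl fun e _ => sum_congr rfl fun z _ => hhit z e
    show 2 * ((r : ℤ) - B.card) * ∑ x ∈ B, sI hm r S x
      + ∑ x ∈ B, ∑ y ∈ B.erase x, EI G hm S x y + ∑ x ∈ B, sI hm r S x ^ 2
      + 2 * ∑ e ∈ K, ∑ z ∈ B, ((if z = ra e ∨ z = rb e then (1 : ℤ) else 0)
        * ((r : ℤ) - 1 - tI G Z T hm r S z)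
        - (if z = ra e ∨ z = rb e then ((rst G (C z) e.1 e.2).card : ℤ) else 0))
      ≤ 2 * ∑ x ∈ B, eI G hm S x + B.card * (B.card - 1) * r + (∑ x ∈ B, sI hm r S x) ^ 2
        + 4 * (∑ _e ∈ K, (1 : ℤ)) * (B.card + ∑ x ∈ B, sI hm r S x)
        + 2 * (∑ _e ∈ K, (1 : ℤ)) * (2 * ∑ _e ∈ K, (1 : ℤ) - 1)
    rw [h6, hsum1]
    exact h4

end MN

end Pool.Agent.Lib.MP_f04ccf_co
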