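import Pool.Agent.Lib.MP_f04ccf_co.M.MatC
import Pool.Agent.Lib.MP_f04ccf_co.M.MN

/-!
MP_f04ccf_co, notes 16570, 16600, 16612: the items of `MatC` (cliques of missing members, missing pairs
(member, class point)) over the basic integers.  `rmr`: the misses with one point outside.
-/

set_option autoImplicit false

namespace Pool.Agent.Lib.MP_f04ccf_co

open Finset

attribute [local instance] Classical.propDecidable

section One

variable {ι V : Type*} {G F : SimpleGraph V}

/-- at most one point of a set -/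
noncomputable def one1 (s : Finset V) : Finset V := if h : s.Nonempty then {h.choose} else ∅

lemma one1_sub (s : Finset V) : one1 s ⊆ s := by
  unfold one1
  split_ifs with h
  · exact singleton_subset_iff.2 h.choose_spec
  · exact empty_subset _

lemma card_one1 (s : Finset V) : (one1 s).card ≤ 1 := by
  unfold one1
  split_ifs with h
  · simp
  · simp

lemma one1_eq {s : Finset V} (h : s.card ≤ 1) : one1 s = s := by
  refine eq_of_subset_of_card_le (one1_sub s) ?_
  rcases s.eq_empty_or_nonempty with h1 | h1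
  · rw [h1]
    simp
  · have h2 : (one1 s).card = 1 := by
      unfold one1
      rw [dif_pos h1, card_singleton]
    omega

/-- the misses in the row test with one point outside -/
noncomputable def rmr (G : SimpleGraph V) (C : ι → Finset V) (tl : V → ι) (z : ι) (u : Itm V) : ℕ :=
  (rcl G C tl (fun Q => one1 (oth tl z Q)) z u).card

lemma ims_le_rmr {C : ι → Finset V} {tl : V → ι} {z : ι} {u : Itm V} :
    ims G C tl z u ≤ rmr G C tl z u := by
  refine card_le_card ?_
  rcases u with Q | e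
  · unfold icl
    simp only [rcl]
    split_ifs
    · exact subset_rfl
    · intro c hc
      obtain ⟨h1, h2, h3⟩ := mem_filter.1 hc
      exact mem_filter.2 ⟨h1, h2, fun v hv => h3 v (one1_sub _ hv)⟩
  · exact subset_rfl

/-- for pairs the misses are the same -/
lemma rmr_eq {C : ι → Finset V} {tl : V → ι} {z : ι} {u : Itm V} (h : ivl u = 1)
    (hk : ikp tl z u ≠ 0) : rmr G C tl z u = ims G C tl z u := by
  rcases u with Q | e
  · unfold rmr ims icl
    have h1 : (oth tl z Q).card ≤ 1 := by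
      simp only [ivl] at h
      by_cases hone : tlp tl Q z = Q
      · unfold oth
        rw [hone, sdiff_self]
        simp
      · simp only [ikp, hone, if_false] at hk
        have h2 : (oth tl z Q).card = Q.card - (tlp tl Q z).card := card_sdiff_of_subset tlp_sub
        omega
    simp only [rcl, one1_eq h1]
  · rfl

end One

section MI

variable {V : Type*} {G : SimpleGraph V} {Z T : Finset V} {hm : V → V} {r m t : ℕ}
  {A : Finset V}

/-- the items of one host seen by the class part of another row -/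
theorem Fam.cls_hits {S : V → Finset V}
    (hW : WSysT G (co G) A (CP G Z T S) (HP G Z T S) (tlo G T hm)) {U : V → Finset (Itm V)}
    (h : ∀ x ∈ A, Fam (co G) (CP G Z T S) (HP G Z T S) (tlo G T hm) x (U x))
    {x z : V} (hx : x ∈ A) :
    ∑ u ∈ U x, iht G (CP G Z T S) (tlo G T hm) z u
      ≤ ∑ c ∈ CP G Z T S z, (dg G (S x) c : ℤ) := by
  rw [sum_iht_filter]
  have hg := Fam.grp hW h (D := {x}) (singleton_subset_iff.2 hx) (K := U x)
    (by rw [singleton_biUnion]) (z := z) (X := oth (tlo G T hm) z) fun _ => subset_rfl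
  refine hg.sum_le (W := S x) ?_
  refine biUnion_subset.2 fun u hu => ?_
  rw [rpts_oth]
  refine ((h x hx).ipts_sub (mem_filter.1 hu).1).trans ?_
  rw [union_comm, CP_union_HP]

/-- the host of an item -/
theorem Fam.exists_host {S : V → Finset V} (hC : CSys G Z T hm A S) (hA : A.Nonempty)
    {U : V → Finset (Itm V)}
    (h : ∀ x ∈ A, Fam (co G) (CP G Z T S) (HP G Z T S) (tlo G T hm) x (U x)) :
    ∃ host : Itm V → V, ∀ x ∈ A, ∀ u ∈ U x, host u = x := by
  have key : ∀ u : Itm V, ∃ y : V, ∀ x ∈ A, u ∈ U x → y = x := by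
    intro u
    by_cases hex : ∃ x ∈ A, u ∈ U x
    · obtain ⟨x, hx, hux⟩ := hex
      refine ⟨x, fun y hy huy => ?_⟩
      by_contra hxy
      obtain ⟨v, hv⟩ := (h x hx).imem_ne hux
      exact disjoint_left.1 (hC.dHP hx hy hxy) ((h x hx).imem_sub hux hv)
        ((h y hy).imem_sub huy hv)
    · obtain ⟨x0, -⟩ := hA
      exact ⟨x0, fun x hx hux => absurd ⟨x, hx, hux⟩ hex⟩
  choose f hf using key
  exact ⟨f, fun x hx u hu => hf u x hx hu⟩

/-- **(row) over the basic integers**, no side condition -/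
theorem Fam.rowI {S : Finset V} (hP : PG G r)
    (hC : CSys G Z T hm A fun x => S.filter fun v => hm v = x)
    (hW : WSysT G (co G) A (CP G Z T fun x => S.filter fun v => hm v = x)
      (HP G Z T fun x => S.filter fun v => hm v = x) (tlo G T hm)) {U : V → Finset (Itm V)}
    (h : ∀ x ∈ A, Fam (co G) (CP G Z T fun x => S.filter fun v => hm v = x)
      (HP G Z T fun x => S.filter fun v => hm v = x) (tlo G T hm) x (U x))
    {z : V} (hz : z ∈ A) {K : Finset (Itm V)} (hK : K ⊆ (A.erase z).biUnion U) :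
    ((r : ℤ) - 1) * sI hm r S z
      + ∑ u ∈ K, ((ikp (tlo G T hm) z u : ℤ) * ((r : ℤ) - 1 - tI G Z T hm r S z)
          - rmr G (CP G Z T fun x => S.filter fun v => hm v = x) (tlo G T hm) z u)
      ≤ eI G hm S z + 2 * (∑ u ∈ K, (ikp (tlo G T hm) z u : ℤ)) * (sI hm r S z + 1)
        + (∑ u ∈ K, (ikp (tlo G T hm) z u : ℤ))
          * (2 * ∑ u ∈ K, (ikp (tlo G T hm) z u : ℤ) - 1) := by
  set C := CP G Z T fun x => S.filter fun v => hm v = x with hCdef
  set tl := tlo G T hm with htl
  have hcard : ((C z).card : ℤ) = (r : ℤ) - 1 - tI G Z T hm r S z := card_CP_eq S z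
  set K' := K.filter fun u => ikp tl z u ≠ 0 with hK'
  have hz0 : ∀ u ∈ K, ikp tl z u = 0 → rmr G C tl z u = 0 := by
    intro u _ hu
    have h1 := rcl_card_le (G := G) (C := C) (tl := tl) (X := fun Q => one1 (oth tl z Q)) (z := z)
      (u := u)
    rw [hu, Nat.zero_mul] at h1
    exact Nat.le_zero.1 h1
  have e1 : ∑ u ∈ K, ((ikp tl z u : ℤ) * ((r : ℤ) - 1 - tI G Z T hm r S z) - rmr G C tl z u)
      = ∑ u ∈ K', (((C z).card : ℤ) * ikp tl z u
          - (rcl G C tl (fun Q => one1 (oth tl z Q)) z u).card) := by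
    rw [hK', sum_filter]
    refine sum_congr rfl fun u hu => ?_
    by_cases h1 : ikp tl z u = 0
    · rw [hz0 u hu h1, h1]
      simp
    · simp only [ne_eq, h1, not_false_iff, if_true]
      rw [← hcard]
      unfold rmr
      ring
  have e2 : ∑ u ∈ K, (ikp tl z u : ℤ) = ∑ u ∈ K', (ikp tl z u : ℤ) := by
    rw [hK', sum_filter]
    refine sum_congr rfl fun u _ => ?_
    by_cases h1 : ikp tl z u = 0
    · rw [h1]
      simp
    · simp only [ne_eq, h1, not_false_iff, if_true]
  rw [e1, e2]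
  have h5 := two_eI (G := G) (hm := hm) S z
  have h6 : (((S.filter fun v => hm v = z).card : ℤ) - r) = sI hm r S z := rfl
  by_cases h0 : 0 ≤ sI hm r S z + 1 + ∑ u ∈ K', (ikp tl z u : ℤ)
  · have h1 := Fam.row_one hP hC hW h hz ((filter_subset _ _).trans hK)
      (fun u hu => (mem_filter.1 hu).2) (X := fun Q => one1 (oth tl z Q))
      (fun Q => one1_sub _) (fun Q => card_one1 _) (by rw [h6]; exact h0)
    rw [h6, ← h5] at h1
    nlinarith
  · push Not at h0
    have h1 : ∑ u ∈ K', (((C z).card : ℤ) * ikp tl z u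
        - (rcl G C tl (fun Q => one1 (oth tl z Q)) z u).card)
        ≤ ((C z).card : ℤ) * ∑ u ∈ K', (ikp tl z u : ℤ) := by
      rw [mul_sum]
      refine sum_le_sum fun u _ => ?_
      have : (0 : ℤ) ≤ ((rcl G C tl (fun Q => one1 (oth tl z Q)) z u).card : ℤ) :=
        Nat.cast_nonneg _
      linarith
    have h2 : 0 ≤ ∑ u ∈ K', (ikp tl z u : ℤ) := sum_nonneg fun u _ => Nat.cast_nonneg _
    have h3 := eI_nonneg (G := G) (hm := hm) S z
    have h4 : 0 ≤ tI G Z T hm r S z + sI hm r S z + 1 := by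
      rw [← hI_eq]
      exact hI_nonneg S z
    have h7 : -(r : ℤ) ≤ sI hm r S z := by
      rw [← h6]
      have : (0 : ℤ) ≤ ((S.filter fun v => hm v = z).card : ℤ) := Nat.cast_nonneg _
      linarith
    have h8 : (C z).card ≤ (S.filter fun v => hm v = z).card :=
      card_le_card fun v hv => (mem_CP.1 hv).1
    have hz1 : (C z).Nonempty := hW.ne z hz
    have h9 : (1 : ℤ) ≤ (C z).card := by exact_mod_cast card_pos.2 hz1
    rw [hcard] at h1 h9 ⊢
    refine le_trans (add_le_add_right h1 _) ?_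
    generalize ∑ u ∈ K', (ikp tl z u : ℤ) = p at *
    generalize tI G Z T hm r S z = τ at *
    generalize sI hm r S z = s at *
    generalize eI G hm S z = e at *
    have hp0 : 0 ≤ p * (τ + s + 1) := mul_nonneg h2 h4
    have h10 : 0 ≤ (r : ℤ) + s := by linarith
    rcases eq_or_lt_of_le h2 with hp | hp
    · rw [← hp] at h0 ⊢
      have hR : (1 : ℤ) ≤ r := by
        have h11 : (0 : ℤ) ≤ τ + s + 1 := h4
        nlinarith
      nlinarith
    · have h11 : 0 ≤ (r : ℤ) - 1 - p := by linarith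
      have h12 : 0 ≤ (-(s + p)) * ((r : ℤ) - 1 - p) := mul_nonneg (by linarith) h11
      nlinarith [sq_nonneg p]

/-- **(row) with all points, over the basic integers** -/
theorem Fam.rowaI {S : Finset V} (hP : PG G r)
    (hC : CSys G Z T hm A fun x => S.filter fun v => hm v = x)
    (hW : WSysT G (co G) A (CP G Z T fun x => S.filter fun v => hm v = x)
      (HP G Z T fun x => S.filter fun v => hm v = x) (tlo G T hm)) {U : V → Finset (Itm V)}
    (h : ∀ x ∈ A, Fam (co G) (CP G Z T fun x => S.filter fun v => hm v = x)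
      (HP G Z T fun x => S.filter fun v => hm v = x) (tlo G T hm) x (U x))
    {z : V} (hz : z ∈ A) {K : Finset (Itm V)} (hK : K ⊆ (A.erase z).biUnion U)
    (hk : ∀ u ∈ K, ikp (tlo G T hm) z u ≠ 0) :
    2 * ((r : ℤ) - 1) * sI hm r S z
      + 2 * ∑ u ∈ K, ((ikp (tlo G T hm) z u : ℤ) * ((r : ℤ) - 1 - tI G Z T hm r S z)
          - ims G (CP G Z T fun x => S.filter fun v => hm v = x) (tlo G T hm) z u)
      ≤ 2 * eI G hm S z + 2 * (∑ u ∈ K, ((ivl u : ℤ) + 1)) * (sI hm r S z + 1)
        + (∑ u ∈ K, ((ivl u : ℤ) + 1)) * (∑ u ∈ K, ((ivl u : ℤ) + 1) - 1) := by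
  have h1 := Fam.row_all hP hC hW h hz hK hk
  have h5 := two_eI (G := G) (hm := hm) S z
  have h6 : (((S.filter fun v => hm v = z).card : ℤ) - r) = sI hm r S z := rfl
  have hcard : ((CP G Z T (fun x => S.filter fun v => hm v = x) z).card : ℤ)
      = (r : ℤ) - 1 - tI G Z T hm r S z := card_CP_eq S z
  have e1 : ∑ u ∈ K, ((ipts u).card : ℤ) = ∑ u ∈ K, ((ivl u : ℤ) + 1) := by
    refine sum_congr rfl fun u hu => ?_
    obtain ⟨x, hx, hux⟩ := mem_biUnion.1 (hK hu)
    have hf := h x (mem_of_mem_erase hx)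
    rcases u with Q | e
    · have h2 := hf.two Q hux
      simp only [ipts, ivl]
      have : Q.card - 1 + 1 = Q.card := by omega
      exact_mod_cast this.symm
    · have h2 : e.1 ≠ e.2 := (hf.pcF e hux).ne
      simp only [ipts, ivl, card_pair h2]
      norm_num
  have e2 : ∑ u ∈ K, iht G (CP G Z T fun x => S.filter fun v => hm v = x) (tlo G T hm) z u
      = ∑ u ∈ K, ((ikp (tlo G T hm) z u : ℤ) * ((r : ℤ) - 1 - tI G Z T hm r S z)
          - ims G (CP G Z T fun x => S.filter fun v => hm v = x) (tlo G T hm) z u) := by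
    refine sum_congr rfl fun u _ => ?_
    unfold iht
    rw [hcard]
    ring
  rw [h6, ← h5, e1, e2] at h1
  exact h1

/-- **service**: an item is served by one row without misses, or by all rows together -/
theorem Fam.srvI {S : V → Finset V} (hF : PFrame G r m t Z T) (hC : CSys G Z T hm A S)
    (hom : ∀ K : Finset V, K ⊆ Z → Clq G K → K.card ≤ r - 1)
    (hW : WSysT G (co G) A (CP G Z T S) (HP G Z T S) (tlo G T hm)) {x : V} (hx : x ∈ A)
    {U : Finset (Itm V)} (h : Fam (co G) (CP G Z T S) (HP G Z T S) (tlo G T hm) x U)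
    {u : Itm V} (hu : u ∈ U) :
    (∃ y ∈ A, ikp (tlo G T hm) y u = ivl u ∧ rmr G (CP G Z T S) (tlo G T hm) y u = 0 ∧
      ∀ z ∈ A, z ≠ y → ikp (tlo G T hm) z u = 0) ∨
    ((r : ℤ) - 1) * ivl u ≤ ∑ z ∈ A, (((r : ℤ) - 1) * ikp (tlo G T hm) z u
      - ims G (CP G Z T S) (tlo G T hm) z u) := by
  rcases u with Q | e
  · by_cases hex : ∃ y ∈ A, tlp (tlo G T hm) Q y = Q
    · left
      obtain ⟨y, hy, hyQ⟩ := hex
      refine ⟨y, hy, ?_, ?_, fun z _ hzy => ?_⟩
      · simp only [ikp, ivl, hyQ, if_true]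
      · unfold rmr
        simp only [rcl, hyQ, if_true, card_empty]
      · have h1 : tlp (tlo G T hm) Q z = ∅ := by
          unfold tlp
          rw [filter_eq_empty_iff]
          intro v hv h2
          rw [← hyQ] at hv
          exact hzy (h2.symm.trans (mem_tlp.1 hv).2)
        have h2 : tlp (tlo G T hm) Q z ≠ Q := by
          rw [h1]
          rintro rfl
          have := h.two _ hu
          simp at this
        have h3 : ikp (tlo G T hm) z (Sum.inl Q) = (tlp (tlo G T hm) Q z).card := by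
          simp only [ikp, h2, if_false]
        rw [h3, h1, card_empty]
    · right
      have h1 := h.srv hF hC hom hW hx hu
      have h2 : 1 ≤ r := by
        have h3 : 0 < (CP G Z T S x).card := card_pos.2 (hW.ne x hx)
        have h4 := hom (CP G Z T S x) (fun v hv => (mem_Cl.1 (mem_CP.1 hv).2).1)
          fun a ha b hb hab => hC.CP_clq hF hx a ha b hb hab
        omega
      have h3 : (((r - 1) * ivl (Sum.inl Q : Itm V)
          + ∑ z ∈ A, ims G (CP G Z T S) (tlo G T hm) z (Sum.inl Q) : ℕ) : ℤ)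
          ≤ (((r - 1) * ∑ z ∈ A, ikp (tlo G T hm) z (Sum.inl Q) : ℕ) : ℤ) := by
        exact_mod_cast h1
      rw [sum_sub_distrib, ← mul_sum]
      push_cast at h3
      rw [Nat.cast_sub h2] at h3
      push_cast at h3
      linarith
  · left
    have h1 := hW.tlA x hx e.1 (h.pcH e hu)
    refine ⟨_, mem_of_mem_erase h1, ?_, ?_, fun z _ hzy => ?_⟩
    · simp only [ikp, ivl, if_true]
    · unfold rmr
      simp only [rcl, card_empty]
    · simp only [ikp, if_neg (Ne.symm hzy)]

/-- **the items of `MatC` are items over the rows of the system** -/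
theorem Fam.isys {S : Finset V} (hF : PFrame G r m t Z T) (hP : PG G r)
    (hC : CSys G Z T hm A fun x => S.filter fun v => hm v = x)
    (hom : ∀ K : Finset V, K ⊆ Z → Clq G K → K.card ≤ r - 1)
    (hW : WSysT G (co G) A (CP G Z T fun x => S.filter fun v => hm v = x)
      (HP G Z T fun x => S.filter fun v => hm v = x) (tlo G T hm)) {U : V → Finset (Itm V)}
    (h : ∀ x ∈ A, Fam (co G) (CP G Z T fun x => S.filter fun v => hm v = x)
      (HP G Z T fun x => S.filter fun v => hm v = x) (tlo G T hm) x (U x))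
    {host : Itm V → V} (hh : ∀ x ∈ A, ∀ u ∈ U x, host u = x) :
    ISys G Z T hm r A S (A.biUnion U) host (fun u => (ivl u : ℤ))
      (fun z u => (ikp (tlo G T hm) z u : ℤ))
      (fun z u => (ims G (CP G Z T fun x => S.filter fun v => hm v = x) (tlo G T hm) z u : ℤ))
      (fun z u => (rmr G (CP G Z T fun x => S.filter fun v => hm v = x) (tlo G T hm) z u : ℤ)) := by
  set C := CP G Z T fun x => S.filter fun v => hm v = x with hCdef
  set tl := tlo G T hm with htl
  have hcard : ∀ x, ((C x).card : ℤ) = (r : ℤ) - 1 - tI G Z T hm r S x := fun x => card_CP_eq S x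
  have hx : ∀ u ∈ A.biUnion U, host u ∈ A ∧ u ∈ U (host u) := by
    intro u hu
    obtain ⟨x, hx, hux⟩ := mem_biUnion.1 hu
    rw [hh x hx u hux]
    exact ⟨hx, hux⟩
  have hht : ∀ (z : V) (u : Itm V), (ikp tl z u : ℤ) * ((r : ℤ) - 1 - tI G Z T hm r S z)
      - (ims G C tl z u : ℤ) = iht G C tl z u := by
    intro z u
    unfold iht
    rw [← hcard z]
    ring
  have hhs : ∀ (z : V) (K : Finset (Itm V)),
      ∑ u ∈ K, ((ikp tl z u : ℤ) * ((r : ℤ) - 1 - tI G Z T hm r S z) - (ims G C tl z u : ℤ))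
      = ∑ u ∈ K, iht G C tl z u := fun z K => sum_congr rfl fun u _ => hht z u
  have hfil : ∀ x ∈ A, (A.biUnion U).filter (fun u => host u = x) = U x := by
    intro x hxA
    ext u
    rw [mem_filter]
    constructor
    · rintro ⟨h1, rfl⟩
      exact (hx u h1).2
    · intro h1
      exact ⟨mem_biUnion.2 ⟨x, hxA, h1⟩, hh x hxA u h1⟩
  have hKz : ∀ z, ∀ K ⊆ A.biUnion U, (∀ u ∈ K, host u ≠ z) → K ⊆ (A.erase z).biUnion U := by
    intro z K hK hKh u hu
    obtain ⟨h1, h2⟩ := hx u (hK hu)
    exact mem_biUnion.2 ⟨host u, mem_erase.2 ⟨hKh u hu, h1⟩, h2⟩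
  have hr1 : ∀ x ∈ A, 1 ≤ r := by
    intro x hxA
    have h3 : 0 < (C x).card := card_pos.2 (hW.ne x hxA)
    have h4 := hom (C x) (fun v hv => (mem_Cl.1 (mem_CP.1 hv).2).1)
      fun a ha b hb hab => hC.CP_clq hF hxA a ha b hb hab
    omega
  refine ⟨fun u hu => (hx u hu).1, fun u hu => ?_, fun u _ x _ => Nat.cast_nonneg _,
    fun u hu => ?_, fun u _ x _ => ?_, fun u _ x _ => Nat.cast_nonneg _, fun u _ x _ => ?_,
    fun u _ x _ => ?_, fun u hu => ?_, fun u hu x hxA y hyA hxy => ?_, fun u hu => ?_,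
    fun u hu hv x _ => ?_, fun x hxA z hzA hxz => ?_, fun z hzA K hK hKh => ?_,
    fun z hzA K hK hKh hk => ?_, fun x hxA z hzA hxz => ?_, fun B hB K hK hKh hn => ?_⟩
  · obtain ⟨h1, h2⟩ := hx u hu
    exact_mod_cast (h _ h1).ivl_pos h2
  · obtain ⟨h1, h2⟩ := hx u hu
    exact_mod_cast (h _ h1).ikp_host hW h1 h2
  · exact_mod_cast ikp_le_ivl (tl := tl) (z := x) (u := u)
  · exact_mod_cast ims_le_rmr (G := G) (C := C) (tl := tl) (z := x) (u := u)
  · have h1 : rmr G C tl x u ≤ ikp tl x u * (C x).card :=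
      rcl_card_le (G := G) (C := C) (tl := tl) (X := fun Q => one1 (oth tl x Q)) (z := x) (u := u)
    have h2 : (rmr G C tl x u : ℤ) ≤ (ikp tl x u : ℤ) * (C x).card := by exact_mod_cast h1
    rw [hcard] at h2
    exact h2
  · obtain ⟨h1, h2⟩ := hx u hu
    rcases (h _ h1).srvI hF hC hom hW h1 h2 with ⟨y, hy, h3, h4, h5⟩ | h3
    · exact Or.inl ⟨y, hy, by exact_mod_cast h3, by exact_mod_cast h4,
        fun z hz hzy => by exact_mod_cast h5 z hz hzy⟩
    · exact Or.inr h3
  · obtain ⟨h1, h2⟩ := hx u hu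
    have h3 := (h _ h1).prod hF hP hC hW h1 h2 hxA hyA hxy
    have h4 := hcard x
    have h5 := hcard y
    have h6 : ((CP G Z T (fun x => S.filter fun v => hm v = x) x).card : ℤ)
      = (r : ℤ) - 1 - tI G Z T hm r S x := h4
    have h7 : ((CP G Z T (fun x => S.filter fun v => hm v = x) y).card : ℤ)
      = (r : ℤ) - 1 - tI G Z T hm r S y := h5
    rw [h6, h7] at h3
    have e1 : ∀ a b : ℤ, ((r : ℤ) - 1 - ((r : ℤ) - 1 - a)) * ((r : ℤ) - 1 - ((r : ℤ) - 1 - b))
        = a * b := fun a b => by ring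
    rw [e1] at h3
    exact h3
  · obtain ⟨h1, h2⟩ := hx u hu
    have h3 := (h _ h1).sum_ims_le hF hC hom hW h1 h2
    have h4 : ((∑ z ∈ A, ims G C tl z u : ℕ) : ℤ) ≤ ((r - 1 : ℕ) : ℤ) := by exact_mod_cast h3
    rw [Nat.cast_sub (hr1 _ h1)] at h4
    push_cast at h4
    exact h4
  · by_cases hk : ikp tl x u = 0
    · have h1 := rcl_card_le (G := G) (C := C) (tl := tl) (X := fun Q => one1 (oth tl x Q))
        (z := x) (u := u)
      have h2 := rcl_card_le (G := G) (C := C) (tl := tl) (X := oth tl x) (z := x) (u := u)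
      rw [hk, Nat.zero_mul] at h1 h2
      have h3 : rmr G C tl x u = 0 := Nat.le_zero.1 h1
      have h4 : ims G C tl x u = 0 := Nat.le_zero.1 h2
      rw [h3, h4]
    · have h1 : ivl u = 1 := by exact_mod_cast hv
      exact_mod_cast rmr_eq (G := G) (C := C) h1 hk
  · rw [hhs, hhs, hfil x hxA, hfil z hzA]
    exact Fam.pair hW h hxA hzA hxz
  · exact Fam.rowI hP hC hW h hzA (hKz z K hK hKh)
  · have h1 := Fam.rowaI hP hC hW h hzA (hKz z K hK hKh) fun u hu => by
      have := hk u hu
      exact_mod_cast this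
    refine le_trans (le_of_eq ?_) h1
    ring
  · rw [hhs, hfil x hxA]
    have h1 := hC.cls_tst hF hP hxA hzA hxz
    have h2 := Fam.cls_hits hW h hxA (z := z)
    have h5 := two_eI (G := G) (hm := hm) S x
    have h6 : (((S.filter fun v => hm v = x).card : ℤ) - r) = sI hm r S x := rfl
    have h8 : (((CP G Z T (fun x => S.filter fun v => hm v = x) z).card : ℕ) : ℤ)
      = (r : ℤ) - 1 - tI G Z T hm r S z := hcard z
    rw [h6, ← h5, h8] at h1
    nlinarith
  · have h3 : K ⊆ (A \ B).biUnion U := by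
      intro u hu
      obtain ⟨h4, h5⟩ := hx u (hK hu)
      exact mem_biUnion.2 ⟨host u, mem_sdiff.2 ⟨h4, hKh u hu⟩, h5⟩
    have h4 := Fam.tst hP hC hW h hB h3 hn
    have h5 : ∑ x ∈ B, (NE G (S.filter fun v => hm v = x) : ℤ) = 2 * ∑ x ∈ B, eI G hm S x := by
      rw [mul_sum]
      exact sum_congr rfl fun x _ => (two_eI S x).symm
    rw [h5] at h4
    have h6 : ∑ u ∈ K, ∑ z ∈ B, ((ikp tl z u : ℤ) * ((r : ℤ) - 1 - tI G Z T hm r S z)
        - (ims G C tl z u : ℤ)) = ∑ u ∈ K, ∑ z ∈ B, iht G C tl z u :=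
      sum_congr rfl fun u _ => sum_congr rfl fun z _ => hht z u
    rw [h6]
    exact h4

end MI

end Pool.Agent.Lib.MP_f04ccf_co
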