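import Pool.Agent.Lib.MP_f04ccf_co.M.XTest
import Pool.Agent.Lib.MP_f04ccf_co.M.MatI

/-!
MP_f04ccf_co, note 16899: the row test of `z` with items and the columns of one other row `y`.
`Fam.hp_see`: what a column sees among the members of the host.  `Fam.row_col`: slope `1` on the slot
`S z`, the points of any items `K` loaded at `z` and any columns `Y` of `y`.  `Fam.nd_own`,
`Fam.nd_oth`: the missing pairs between the points and the columns.  `Fam.row_colC`: all columns of
`y`, at most `2 kp` points per item.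
-/

set_option autoImplicit false

namespace Pool.Agent.Lib.MP_f04ccf_co

open Finset

attribute [local instance] Classical.propDecidable

section RowCol

variable {V : Type*} {G : SimpleGraph V} {Z T : Finset V} {hm : V → V} {r m t : ℕ}
  {A : Finset V} {S : V → Finset V} {U : V → Finset (Itm V)}

/-- **what a column sees among the members**: all items except the PC pairs with this tail -/
theorem Fam.hp_see (hW : WSysT G (co G) A (CP G Z T S) (HP G Z T S) (tlo G T hm))
    (h : ∀ x ∈ A, Fam (co G) (CP G Z T S) (HP G Z T S) (tlo G T hm) x (U x))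
    {x z : V} (hx : x ∈ A) {c : V} (hc : c ∈ CP G Z T S z) :
    ∑ u ∈ U x, ((ikp (tlo G T hm) z u : ℤ)
        - if c ∈ icl G (CP G Z T S) (tlo G T hm) z u then 1 else 0)
      ≤ (dg G (HP G Z T S x) c : ℤ) + (pcz (tlo G T hm) z (U x)).card := by
  have hf := h x hx
  have hsp : ∀ f : Itm V → ℤ, ∑ u ∈ U x, f u
      = ∑ Q ∈ (U x).toLeft, f (Sum.inl Q) + ∑ e ∈ (U x).toRight, f (Sum.inr e) := by
    intro f
    rw [← sum_disjSum, toLeft_disjSum_toRight]
  rw [hsp]
  refine add_le_add ?_ ?_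
  · have h1 : dg G ((U x).toLeft.biUnion id) c = ∑ Q ∈ (U x).toLeft, dg G Q c := by
      unfold dg
      rw [filter_biUnion, card_biUnion]
      · rfl
      · intro Q hQ Q' hQ' hne
        exact disjoint_filter_filter (hf.dis _ (mem_toLeft.1 hQ) _ (mem_toLeft.1 hQ')
          fun h3 => hne (Sum.inl_injective h3))
    have h2 : (U x).toLeft.biUnion id ⊆ HP G Z T S x := by
      intro v hv
      obtain ⟨Q, hQ, hvQ⟩ := mem_biUnion.1 hv
      exact hf.sub Q (mem_toLeft.1 hQ) hvQ
    have h3 := dg_mono (G := G) h2 c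
    rw [h1] at h3
    have h4 : (∑ Q ∈ (U x).toLeft, (dg G Q c : ℤ)) ≤ dg G (HP G Z T S x) c := by exact_mod_cast h3
    refine le_trans (sum_le_sum fun Q hQ => ?_) h4
    have h5 := hf.see hW hx (z := z) (X := oth (tlo G T hm) z) (fun _ => subset_rfl)
      (mem_toLeft.1 hQ) hc
    rw [rpts_oth] at h5
    have h6 : icl G (CP G Z T S) (tlo G T hm) z (Sum.inl Q)
      = rcl G (CP G Z T S) (tlo G T hm) (oth (tlo G T hm) z) z (Sum.inl Q) := rfl
    rw [h6]
    simp only [ipts] at h5
    linarith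
  · have h1 : pcz (tlo G T hm) z (U x) = (U x).toRight.filter fun e => tlo G T hm e.1 = z := by
      ext e
      rw [mem_pcz, mem_filter, mem_toRight]
    rw [h1, card_filter]
    push_cast
    refine sum_le_sum fun e _ => ?_
    unfold icl
    simp only [ikp, rcl, notMem_empty, if_false, sub_zero]
    split_ifs <;> simp

/-- **(ROWC): the row test of `z` with items `K` and columns `Y` of the row `y`** -/
theorem Fam.row_col (hF : PFrame G r m t Z T) (hP : PG G r) (hC : CSys G Z T hm A S)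
    (hW : WSysT G (co G) A (CP G Z T S) (HP G Z T S) (tlo G T hm))
    (h : ∀ x ∈ A, Fam (co G) (CP G Z T S) (HP G Z T S) (tlo G T hm) x (U x))
    {z y : V} (hz : z ∈ A) (hy : y ∈ A) (hzy : z ≠ y) {K : Finset (Itm V)}
    (hK : K ⊆ (A.erase z).biUnion U) (hk : ∀ u ∈ K, ikp (tlo G T hm) z u ≠ 0)
    {X : Finset V → Finset V} (hX : ∀ Q, X Q ⊆ oth (tlo G T hm) z Q)
    {Y : Finset V} (hY : Y ⊆ CP G Z T S y) :
    2 * ((r : ℤ) - 1) * (((S z).card : ℤ) - r)
      + 2 * ∑ u ∈ K, (((CP G Z T S z).card : ℤ) * ikp (tlo G T hm) z u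
          - (rcl G (CP G Z T S) (tlo G T hm) X z u).card)
      + 2 * ∑ u ∈ U z, ((Y.card : ℤ) * ikp (tlo G T hm) y u
          - (Y ∩ icl G (CP G Z T S) (tlo G T hm) y u).card)
      ≤ NE G (S z)
        + 2 * ((K.biUnion (rpts (tlo G T hm) X z) \ Y).card + Y.card : ℤ)
          * (((S z).card : ℤ) - r + 1)
        + ((K.biUnion (rpts (tlo G T hm) X z) \ Y).card : ℤ)
          * ((K.biUnion (rpts (tlo G T hm) X z) \ Y).card - 1)
        + 2 * ∑ v ∈ K.biUnion (rpts (tlo G T hm) X z) \ Y, (nd G Y v : ℤ)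
        + 2 * ((Y ∩ K.biUnion (rpts (tlo G T hm) X z)).card : ℤ)
          * (pcz (tlo G T hm) y (U z)).card := by
  obtain ⟨W, hWd⟩ : ∃ W, W = K.biUnion (rpts (tlo G T hm) X z) := ⟨_, rfl⟩
  rw [← hWd]
  have hK' : K ⊆ (A \ {z}).biUnion U := by
    rwa [sdiff_singleton_eq_erase]
  have hfil : (K.filter fun u => ikp (tlo G T hm) z u ≠ 0) = K := filter_true_of_mem hk
  have hg := Fam.grp hW h (D := A.erase z) (erase_subset _ _) hK (z := z) hX
  rw [hfil] at hg
  have hsb : ({z} : Finset V) ⊆ A := by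
    simpa using hz
  have hWS : Disjoint (S z) W := by
    have h2 := Fam.disj_pts hC h hsb hK' (mem_singleton_self z)
    rw [hWd]
    refine h2.mono_right (biUnion_mono fun u hu => ?_)
    obtain ⟨x, hx, hux⟩ := mem_biUnion.1 (hK hu)
    exact (h x (mem_of_mem_erase hx)).rpts_sub hX
  have hYS : Disjoint (S z) Y := (hC.disj hz hy hzy).mono_right fun v hv => (mem_CP.1 (hY hv)).1
  have hD : Disjoint (S z) (Y ∪ W \ Y) := by
    rw [disjoint_union_right]
    exact ⟨hYS, hWS.mono_right sdiff_subset⟩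
  have h1 := hC.tst hP (B := {z}) hsb (W := Y ∪ W \ Y) (fun x hx => by
    rw [mem_singleton.1 hx]
    exact hD)
  have hYW : Disjoint Y (W \ Y) := disjoint_sdiff
  have hcl : Clq G Y := fun u hu v hv huv => hC.CP_clq hF hy u (hY hu) v (hY hv) huv
  have h2 : (NE G (Y ∪ W \ Y) : ℤ) = NE G (W \ Y) + 2 * ∑ v ∈ W \ Y, (nd G Y v : ℤ) := by
    rw [NE_union hYW, NE_clq hcl]
    push_cast
    ring
  have h3 : ((Y ∪ W \ Y).card : ℤ) = Y.card + (W \ Y).card := by
    rw [card_union_of_disjoint hYW]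
    push_cast
    ring
  have h4 := NE_le_self (G := G) (W \ Y)
  -- the hits
  have h5 : ∑ u ∈ K, (((CP G Z T S z).card : ℤ) * ikp (tlo G T hm) z u
      - (rcl G (CP G Z T S) (tlo G T hm) X z u).card)
      ≤ ∑ v ∈ W, (dg G (CP G Z T S z) v : ℤ) := by
    have h6 := hg.sum_le (W := W) (by rw [hWd])
    have h7 : ∑ c ∈ CP G Z T S z, (dg G W c : ℤ) = ∑ v ∈ W, (dg G (CP G Z T S z) v : ℤ) := by
      have := dg_comm G (CP G Z T S z) W
      exact_mod_cast this
    rw [h7] at h6
    refine le_trans (le_of_eq ?_) h6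
    refine sum_congr rfl fun u _ => ?_
    rw [sum_rcl]
  have h6 : ∀ v, (dg G (S z) v : ℤ) = dg G (CP G Z T S z) v + dg G (HP G Z T S z) v := by
    intro v
    have h7 : dg G (S z) v = dg G (CP G Z T S z) v + dg G (HP G Z T S z) v := by
      conv_lhs => rw [← CP_union_HP (G := G) (Z := Z) (T := T) (S := S) (x := z)]
      unfold dg
      rw [filter_union, card_union_of_disjoint (disjoint_filter_filter CP_HP_disjoint)]
    exact_mod_cast h7
  have h7 : ∑ u ∈ U z, ((Y.card : ℤ) * ikp (tlo G T hm) y u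
          - (Y ∩ icl G (CP G Z T S) (tlo G T hm) y u).card)
      ≤ ∑ v ∈ Y \ W, (dg G (S z) v : ℤ)
        + ∑ v ∈ Y ∩ W, ((dg G (HP G Z T S z) v : ℤ) + (pcz (tlo G T hm) y (U z)).card) := by
    rw [← sum_cols, ← sum_sdiff (s₁ := Y ∩ W) (s₂ := Y) inter_subset_left, sdiff_inter_self_left]
    refine add_le_add (sum_le_sum fun c hc => ?_) (sum_le_sum fun c hc => ?_)
    · have h8 := Fam.col_see hW h hz (z := y) (W := ∅) (F := ∅) (empty_subset _)
        (fun v hv => absurd hv (notMem_empty _)) (empty_subset _)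
        (fun e _ => notMem_empty _) (hY (mem_sdiff.1 hc).1)
      have h9 : (0 : ℤ) ≤ dg G (∅ : Finset V) c := by positivity
      linarith
    · exact Fam.hp_see hW h hz (hY (mem_inter.1 hc).1)
  have h8 : ∑ v ∈ Y ∪ W \ Y, (dg G (S z) v : ℤ)
      = ∑ v ∈ Y \ W, (dg G (S z) v : ℤ) + ∑ v ∈ Y ∩ W, (dg G (S z) v : ℤ)
        + ∑ v ∈ W \ Y, (dg G (S z) v : ℤ) := by
    rw [sum_union hYW]
    congr 1
    rw [← sum_sdiff (s₁ := Y ∩ W) (s₂ := Y) inter_subset_left, sdiff_inter_self_left]
  have h9 : ∑ v ∈ W, (dg G (CP G Z T S z) v : ℤ)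
      ≤ ∑ v ∈ Y ∩ W, (dg G (CP G Z T S z) v : ℤ) + ∑ v ∈ W \ Y, (dg G (S z) v : ℤ) := by
    rw [← sum_sdiff (s₁ := Y ∩ W) (s₂ := W) inter_subset_right, sdiff_inter_self_right, add_comm]
    refine add_le_add le_rfl (sum_le_sum fun v _ => ?_)
    rw [h6 v]
    have : (0 : ℤ) ≤ dg G (HP G Z T S z) v := by positivity
    linarith
  have h10 : ∑ v ∈ Y ∩ W, (dg G (S z) v : ℤ)
      = ∑ v ∈ Y ∩ W, (dg G (CP G Z T S z) v : ℤ) + ∑ v ∈ Y ∩ W, (dg G (HP G Z T S z) v : ℤ) := by
    rw [← sum_add_distrib]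
    exact sum_congr rfl fun v _ => h6 v
  have h11 : ∑ v ∈ Y ∩ W, ((dg G (HP G Z T S z) v : ℤ) + (pcz (tlo G T hm) y (U z)).card)
      = ∑ v ∈ Y ∩ W, (dg G (HP G Z T S z) v : ℤ)
        + ((Y ∩ W).card : ℤ) * (pcz (tlo G T hm) y (U z)).card := by
    rw [sum_add_distrib, sum_const, nsmul_eq_mul]
  simp only [sum_singleton, card_singleton, erase_singleton, sum_empty, Nat.cast_one, sub_self,
    mul_zero, zero_mul, add_zero] at h1
  rw [h2, h3] at h1
  rw [h11] at h7
  rw [h10] at h8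
  linarith

/-- `1` for a missing pair (member, class point), `0` for a clique of members -/
def ipc {V : Type*} : Itm V → ℕ
  | Sum.inl _ => 0
  | Sum.inr _ => 1

/-- the arcs of an item: the missed points of the class `C` of its host -/
noncomputable def iar {V : Type*} (G : SimpleGraph V) (C : Finset V) (u : Itm V) : ℕ :=
  ∑ v ∈ imem u, nd G C v

/-- the points of an item outside the columns of the row `y`: at most `2 kp`, one less for the PC pairs
of the host `y` -/
theorem Fam.rpts_out (h : ∀ x ∈ A, Fam (co G) (CP G Z T S) (HP G Z T S) (tlo G T hm) x (U x))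
    {z y x : V} (hx : x ∈ A) {u : Itm V} (hu : u ∈ U x)
    (hk : ikp (tlo G T hm) z u ≠ 0) {X : Finset V → Finset V}
    (hX : ∀ Q, X Q ⊆ oth (tlo G T hm) z Q) (hX1 : ∀ Q, (X Q).card ≤ 1) :
    (rpts (tlo G T hm) X z u \ CP G Z T S y).card + (if x = y then ipc u else 0)
      ≤ 2 * ikp (tlo G T hm) z u := by
  have hf := h x hx
  rcases u with Q | e
  · have h2 := hf.two Q hu
    have h3 : (rpts (tlo G T hm) X z (Sum.inl Q)).card
        ≤ (tlp (tlo G T hm) Q z).card + (X Q).card := card_union_le _ _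
    have h5 := hX1 Q
    have h6 : (rpts (tlo G T hm) X z (Sum.inl Q) \ CP G Z T S y).card
        ≤ (rpts (tlo G T hm) X z (Sum.inl Q)).card := card_le_card sdiff_subset
    have h8 : (if x = y then ipc (Sum.inl Q : Itm V) else 0) = 0 := by
      simp [ipc]
    rw [h8, add_zero]
    refine h6.trans ?_
    by_cases hone : tlp (tlo G T hm) Q z = Q
    · have h6 : X Q = ∅ := by
        have h7 : oth (tlo G T hm) z Q = ∅ := by
          unfold oth
          rw [hone, sdiff_self]
          rfl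
        have := hX Q
        rw [h7] at this
        exact subset_empty.1 this
      have h7 : ikp (tlo G T hm) z (Sum.inl Q) = Q.card - 1 := by
        simp only [ikp, hone, if_true]
      rw [h7]
      rw [h6, card_empty, hone] at h3
      omega
    · have h7 : ikp (tlo G T hm) z (Sum.inl Q) = (tlp (tlo G T hm) Q z).card := by
        simp only [ikp, hone, if_false]
      rw [h7] at hk ⊢
      omega
  · have h3 : ikp (tlo G T hm) z (Sum.inr e) = 1 := by
      by_cases h4 : tlo G T hm e.1 = z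
      · simp only [ikp, h4, if_true]
      · exact absurd (by simp only [ikp, h4, if_false]) hk
    rw [h3]
    simp only [rpts, ipc]
    by_cases hxy : x = y
    · subst hxy
      simp only [if_true]
      have h4 : ({e.1, e.2} : Finset V) \ CP G Z T S x ⊆ {e.1} := by
        intro v hv
        obtain ⟨h5, h6⟩ := mem_sdiff.1 hv
        rcases mem_insert.1 h5 with h7 | h7
        · exact mem_singleton.2 h7
        · rw [mem_singleton] at h7
          exact absurd (h7 ▸ hf.pcC e hu) h6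
      have := card_le_card h4
      rw [card_singleton] at this
      omega
    · simp only [hxy, if_false]
      exact (card_le_card sdiff_subset).trans card_le_two

/-- the missing pairs between the columns of `y` and an item of the host `y`: the arcs -/
theorem Fam.nd_own (h : ∀ x ∈ A, Fam (co G) (CP G Z T S) (HP G Z T S) (tlo G T hm) x (U x))
    {z y : V} (hy : y ∈ A) {u : Itm V} (hu : u ∈ U y) {X : Finset V → Finset V}
    (hX : ∀ Q, X Q ⊆ oth (tlo G T hm) z Q) :
    ∑ v ∈ rpts (tlo G T hm) X z u \ CP G Z T S y, nd G (CP G Z T S y) v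
      ≤ iar G (CP G Z T S y) u := by
  unfold iar
  refine sum_le_sum_of_subset ?_
  intro v hv
  obtain ⟨h1, h2⟩ := mem_sdiff.1 hv
  have h3 := (h y hy).rpts_sub hX h1
  rcases u with Q | e
  · exact h3
  · simp only [ipts] at h3
    rcases mem_insert.1 h3 with h4 | h4
    · simp only [imem, mem_singleton]
      exact h4
    · rw [mem_singleton] at h4
      exact absurd (h4 ▸ (h y hy).pcC e hu) h2

/-- **(ROWC) with all columns of `y`**: `κ` the load of the items at `z`, `κ'` the load of the items of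
hosts `≠ y`, `q` the PC pairs of the host `y` among them, `q'` the PC pairs of the host `z` with tail `y` -/
theorem Fam.row_colC (hF : PFrame G r m t Z T) (hP : PG G r) (hC : CSys G Z T hm A S)
    (hW : WSysT G (co G) A (CP G Z T S) (HP G Z T S) (tlo G T hm))
    (h : ∀ x ∈ A, Fam (co G) (CP G Z T S) (HP G Z T S) (tlo G T hm) x (U x))
    {z y : V} (hz : z ∈ A) (hy : y ∈ A) (hzy : z ≠ y) {K : Finset (Itm V)}
    (hK : K ⊆ (A.erase z).biUnion U) (hk : ∀ u ∈ K, ikp (tlo G T hm) z u ≠ 0)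
    {X : Finset V → Finset V} (hX : ∀ Q, X Q ⊆ oth (tlo G T hm) z Q) (hX1 : ∀ Q, (X Q).card ≤ 1)
    (h0 : 0 ≤ ((S z).card : ℤ) - r + ∑ u ∈ K, (ikp (tlo G T hm) z u : ℤ)) :
    2 * ((r : ℤ) - 1) * (((S z).card : ℤ) - r)
      + 2 * ∑ u ∈ K, (((CP G Z T S z).card : ℤ) * ikp (tlo G T hm) z u
          - (rcl G (CP G Z T S) (tlo G T hm) X z u).card)
      + 2 * ∑ u ∈ U z, iht G (CP G Z T S) (tlo G T hm) y u
      ≤ NE G (S z)
        + 2 * (∑ u ∈ K, (2 * (ikp (tlo G T hm) z u : ℤ) - if u ∈ U y then (ipc u : ℤ) else 0)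
            + (CP G Z T S y).card) * (((S z).card : ℤ) - r + 1)
        + (∑ u ∈ K, (2 * (ikp (tlo G T hm) z u : ℤ) - if u ∈ U y then (ipc u : ℤ) else 0))
          * (∑ u ∈ K, (2 * (ikp (tlo G T hm) z u : ℤ) - if u ∈ U y then (ipc u : ℤ) else 0) - 1)
        + 2 * ∑ u ∈ K, (if u ∈ U y then (iar G (CP G Z T S y) u : ℤ)
            else 2 * (CP G Z T S y).card * ikp (tlo G T hm) z u)
        + 2 * (∑ u ∈ K, (if u ∈ U y then (ipc u : ℤ) else 0))
          * (∑ u ∈ U z, (ipc u : ℤ) * ikp (tlo G T hm) y u) := by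
  have h1 := Fam.row_col hF hP hC hW h hz hy hzy hK hk hX (Y := CP G Z T S y) subset_rfl
  have hdis : ∀ u ∈ K, ∀ v ∈ K, u ≠ v → Disjoint (rpts (tlo G T hm) X z u)
      (rpts (tlo G T hm) X z v) := by
    intro u hu v hv huv
    obtain ⟨x, hx, hux⟩ := mem_biUnion.1 (hK hu)
    obtain ⟨x', hx', hvx⟩ := mem_biUnion.1 (hK hv)
    exact (Fam.dis_row hW h (mem_of_mem_erase hx) (mem_of_mem_erase hx') hux hvx huv (hk u hu)
      (hk v hv)).mono ((h x (mem_of_mem_erase hx)).rpts_sub hX)
      ((h x' (mem_of_mem_erase hx')).rpts_sub hX)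
  have hsd : K.biUnion (rpts (tlo G T hm) X z) \ CP G Z T S y
      = K.biUnion fun u => rpts (tlo G T hm) X z u \ CP G Z T S y := by
    ext v
    simp only [mem_sdiff, mem_biUnion]
    constructor
    · rintro ⟨⟨u, hu, hv⟩, hv'⟩
      exact ⟨u, hu, hv, hv'⟩
    · rintro ⟨u, hu, hv, hv'⟩
      exact ⟨⟨u, hu, hv⟩, hv'⟩
  have hdis' : ∀ u ∈ K, ∀ v ∈ K, u ≠ v → Disjoint (rpts (tlo G T hm) X z u \ CP G Z T S y)
      (rpts (tlo G T hm) X z v \ CP G Z T S y) := fun u hu v hv huv =>
    (hdis u hu v hv huv).mono sdiff_subset sdiff_subset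
  -- the host of an item
  have hown : ∀ u ∈ K, ∃ x ∈ A, u ∈ U x ∧ (x = y ↔ u ∈ U y) := by
    intro u hu
    obtain ⟨x, hx, hux⟩ := mem_biUnion.1 (hK hu)
    refine ⟨x, mem_of_mem_erase hx, hux, fun h2 => h2 ▸ hux, fun huy => ?_⟩
    by_contra hxy
    obtain ⟨v, hv⟩ := (h y hy).imem_ne huy
    exact disjoint_left.1 (hC.dHP (mem_of_mem_erase hx) hy hxy)
      ((h x (mem_of_mem_erase hx)).imem_sub hux hv) ((h y hy).imem_sub huy hv)
  have hw1 : ∀ u ∈ K, ((rpts (tlo G T hm) X z u \ CP G Z T S y).card : ℤ)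
      ≤ 2 * (ikp (tlo G T hm) z u : ℤ) - if u ∈ U y then (ipc u : ℤ) else 0 := by
    intro u hu
    obtain ⟨x, hx, hux, hxy⟩ := hown u hu
    have h2 := Fam.rpts_out (y := y) h hx hux (hk u hu) hX hX1
    by_cases h3 : u ∈ U y
    · rw [if_pos (hxy.2 h3)] at h2
      rw [if_pos h3]
      have : ((rpts (tlo G T hm) X z u \ CP G Z T S y).card : ℤ) + ipc u
        ≤ 2 * (ikp (tlo G T hm) z u : ℤ) := by exact_mod_cast h2
      linarith
    · rw [if_neg fun h4 => h3 (hxy.1 h4)] at h2
      rw [if_neg h3]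
      have : ((rpts (tlo G T hm) X z u \ CP G Z T S y).card : ℤ)
        ≤ 2 * (ikp (tlo G T hm) z u : ℤ) := by exact_mod_cast h2
      linarith
  have hpc1 : ∀ u ∈ K, ∀ e, u = Sum.inr e → ikp (tlo G T hm) z u = 1 := by
    rintro u hu e rfl
    by_cases h4 : tlo G T hm e.1 = z
    · simp only [ikp, h4, if_true]
    · exact absurd (by simp only [ikp, h4, if_false]) (hk _ hu)
  have hw2 : ∀ u ∈ K, 1 ≤ (rpts (tlo G T hm) X z u \ CP G Z T S y).card := by
    intro u hu
    obtain ⟨x, hx, hux, hxy⟩ := hown u hu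
    have hf := h x hx
    rcases u with Q | e
    · have h2 : (tlp (tlo G T hm) Q z).Nonempty := by
        rw [nonempty_iff_ne_empty]
        intro h3
        have h4 := hf.two Q hux
        have h5 : tlp (tlo G T hm) Q z ≠ Q := by
          rw [h3]
          rintro rfl
          simp at h4
        refine hk _ hu ?_
        have h6 : ikp (tlo G T hm) z (Sum.inl Q) = (tlp (tlo G T hm) Q z).card := by
          simp only [ikp, h5, if_false]
        rw [h6, h3, card_empty]
      obtain ⟨v, hv⟩ := h2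
      refine card_pos.2 ⟨v, mem_sdiff.2 ⟨mem_union_left _ hv, fun h3 => ?_⟩⟩
      exact disjoint_left.1 (hW.dHC x hx y hy) (hf.sub Q hux (tlp_sub hv)) h3
    · refine card_pos.2 ⟨e.1, mem_sdiff.2 ⟨mem_insert_self _ _, fun h3 => ?_⟩⟩
      exact disjoint_left.1 (hW.dHC x hx y hy) (hf.pcH e hux) h3
  have hw3 : ((K.biUnion (rpts (tlo G T hm) X z) \ CP G Z T S y).card : ℤ)
      = ∑ u ∈ K, ((rpts (tlo G T hm) X z u \ CP G Z T S y).card : ℤ) := by
    rw [hsd, card_biUnion hdis']
    push_cast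
    rfl
  have hnd : ∑ v ∈ K.biUnion (rpts (tlo G T hm) X z) \ CP G Z T S y,
        (nd G (CP G Z T S y) v : ℤ)
      ≤ ∑ u ∈ K, (if u ∈ U y then (iar G (CP G Z T S y) u : ℤ)
            else 2 * (CP G Z T S y).card * ikp (tlo G T hm) z u) := by
    rw [hsd, sum_biUnion (fun u hu v hv huv => hdis' u hu v hv huv)]
    refine sum_le_sum fun u hu => ?_
    by_cases h3 : u ∈ U y
    · rw [if_pos h3]
      have h4 := Fam.nd_own (z := z) h hy h3 hX
      exact_mod_cast h4
    · rw [if_neg h3]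
      have h4 : ∑ v ∈ rpts (tlo G T hm) X z u \ CP G Z T S y, (nd G (CP G Z T S y) v : ℤ)
          ≤ ∑ v ∈ rpts (tlo G T hm) X z u \ CP G Z T S y, ((CP G Z T S y).card : ℤ) :=
        sum_le_sum fun v _ => by
          have : nd G (CP G Z T S y) v ≤ (CP G Z T S y).card := card_filter_le _ _
          exact_mod_cast this
      rw [sum_const, nsmul_eq_mul] at h4
      have h5 := hw1 u hu
      rw [if_neg h3, sub_zero] at h5
      have h6 : (0 : ℤ) ≤ (CP G Z T S y).card := Nat.cast_nonneg _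
      nlinarith
  have hq : ((CP G Z T S y ∩ K.biUnion (rpts (tlo G T hm) X z)).card : ℤ)
      ≤ ∑ u ∈ K, (if u ∈ U y then (ipc u : ℤ) else 0) := by
    have h2 : CP G Z T S y ∩ K.biUnion (rpts (tlo G T hm) X z)
        ⊆ K.biUnion fun u => CP G Z T S y ∩ rpts (tlo G T hm) X z u := by
      intro v hv
      obtain ⟨h3, h4⟩ := mem_inter.1 hv
      obtain ⟨u, hu, h5⟩ := mem_biUnion.1 h4
      exact mem_biUnion.2 ⟨u, hu, mem_inter.2 ⟨h3, h5⟩⟩
    have h3 := (card_le_card h2).trans card_biUnion_le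
    have h4 : ((CP G Z T S y ∩ K.biUnion (rpts (tlo G T hm) X z)).card : ℤ)
        ≤ ∑ u ∈ K, ((CP G Z T S y ∩ rpts (tlo G T hm) X z u).card : ℤ) := by exact_mod_cast h3
    refine h4.trans (sum_le_sum fun u hu => ?_)
    obtain ⟨x, hx, hux, hxy⟩ := hown u hu
    have hf := h x hx
    rcases u with Q | e
    · have h5 : CP G Z T S y ∩ rpts (tlo G T hm) X z (Sum.inl Q) = ∅ := by
        rw [← disjoint_iff_inter_eq_empty, disjoint_left]
        intro v hv hv'
        exact disjoint_left.1 (hW.dHC x hx y hy) (hf.sub Q hux (hf.rpts_sub hX hv')) hv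
      rw [h5]
      split_ifs <;> simp [ipc]
    · by_cases h3 : Sum.inr e ∈ U y
      · rw [if_pos h3]
        have h5 : CP G Z T S y ∩ rpts (tlo G T hm) X z (Sum.inr e) ⊆ {e.2} := by
          intro v hv
          obtain ⟨h6, h7⟩ := mem_inter.1 hv
          simp only [rpts] at h7
          rcases mem_insert.1 h7 with h8 | h8
          · exact absurd h6 (fun h9 => disjoint_left.1 (hW.dHC x hx y hy) (hf.pcH e hux)
              (h8 ▸ h9))
          · exact h8
        have h6 := card_le_card h5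
        rw [card_singleton] at h6
        simp only [ipc]
        exact_mod_cast h6
      · rw [if_neg h3]
        have h5 : CP G Z T S y ∩ rpts (tlo G T hm) X z (Sum.inr e) = ∅ := by
          rw [← disjoint_iff_inter_eq_empty, disjoint_left]
          intro v hv hv'
          simp only [rpts] at hv'
          rcases mem_insert.1 hv' with h8 | h8
          · exact disjoint_left.1 (hW.dHC x hx y hy) (hf.pcH e hux) (h8 ▸ hv)
          · rw [mem_singleton] at h8
            have hxy' : x ≠ y := fun h9 => h3 (h9 ▸ hux)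
            exact disjoint_left.1 (hW.dCC x hx y hy hxy') (hf.pcC e hux) (h8 ▸ hv)
        rw [h5]
        simp
  have hq' : ((pcz (tlo G T hm) y (U z)).card : ℤ)
      ≤ ∑ u ∈ U z, (ipc u : ℤ) * ikp (tlo G T hm) y u := by
    have h2 : (pcz (tlo G T hm) y (U z)).card
        = ((pcz (tlo G T hm) y (U z)).image (Sum.inr : V × V → Itm V)).card :=
      (card_image_of_injective _ Sum.inr_injective).symm
    have h3 : (pcz (tlo G T hm) y (U z)).image (Sum.inr : V × V → Itm V) ⊆ U z := by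
      intro u hu
      obtain ⟨e, he, rfl⟩ := mem_image.1 hu
      exact (mem_pcz.1 he).1
    rw [h2, card_eq_sum_ones]
    push_cast
    refine le_trans (sum_le_sum fun u hu => ?_)
      (sum_le_sum_of_subset_of_nonneg h3 fun u _ _ => by positivity)
    obtain ⟨e, he, rfl⟩ := mem_image.1 hu
    have h4 := (mem_pcz.1 he).2
    simp only [ipc, ikp, h4, if_true]
    norm_num
  have hih : ∑ u ∈ U z, (((CP G Z T S y).card : ℤ) * ikp (tlo G T hm) y u
        - (CP G Z T S y ∩ icl G (CP G Z T S) (tlo G T hm) y u).card)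
      = ∑ u ∈ U z, iht G (CP G Z T S) (tlo G T hm) y u := by
    refine sum_congr rfl fun u _ => ?_
    have h2 : CP G Z T S y ∩ icl G (CP G Z T S) (tlo G T hm) y u
        = icl G (CP G Z T S) (tlo G T hm) y u := inter_eq_right.2 rcl_sub
    rw [h2]
    rfl
  rw [hih, hw3] at h1
  have hw4 := sum_le_sum hw1
  have hw5 : (K.card : ℤ) ≤ ∑ u ∈ K, ((rpts (tlo G T hm) X z u \ CP G Z T S y).card : ℤ) := by
    rw [card_eq_sum_ones]
    push_cast
    exact sum_le_sum fun u hu => by exact_mod_cast hw2 u hu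
  have hqK : ∑ u ∈ K, (if u ∈ U y then (ipc u : ℤ) else 0) ≤ (K.card : ℤ) := by
    rw [card_eq_sum_ones]
    push_cast
    refine sum_le_sum fun u _ => ?_
    rcases u with Q | e
    · split_ifs <;> simp [ipc]
    · split_ifs <;> simp [ipc]
  have hq0 : 0 ≤ ∑ u ∈ K, (if u ∈ U y then (ipc u : ℤ) else 0) :=
    sum_nonneg fun u _ => by split_ifs <;> positivity
  have hsum : ∑ u ∈ K, (2 * (ikp (tlo G T hm) z u : ℤ) - if u ∈ U y then (ipc u : ℤ) else 0)
      = 2 * ∑ u ∈ K, (ikp (tlo G T hm) z u : ℤ) - ∑ u ∈ K, (if u ∈ U y then (ipc u : ℤ) else 0) := by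
    rw [sum_sub_distrib, mul_sum]
  rw [hsum] at hw4 ⊢
  generalize (∑ u ∈ K, ((rpts (tlo G T hm) X z u \ CP G Z T S y).card : ℤ)) = w at *
  generalize (∑ u ∈ K, (ikp (tlo G T hm) z u : ℤ)) = κ at *
  generalize (∑ u ∈ K, (if u ∈ U y then (ipc u : ℤ) else 0)) = q at *
  have h5 : 0 ≤ (2 * κ - q - w) * (2 * (((S z).card : ℤ) - r + 1) + (2 * κ - q) + w - 1) := by
    rcases K.eq_empty_or_nonempty with hK0 | hK0
    · have e1 : (K.card : ℤ) = 0 := by
        rw [hK0]
        simp
      nlinarith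
    · have e1 : (1 : ℤ) ≤ K.card := by exact_mod_cast card_pos.2 hK0
      exact mul_nonneg (by linarith) (by linarith)
  have h6 : ((CP G Z T S y ∩ K.biUnion (rpts (tlo G T hm) X z)).card : ℤ)
      * (pcz (tlo G T hm) y (U z)).card ≤ q * ∑ u ∈ U z, (ipc u : ℤ) * ikp (tlo G T hm) y u :=
    mul_le_mul hq hq' (Nat.cast_nonneg _) hq0
  nlinarith

/-- **(ROWC) over the basic integers**: `row` plus the hits of the items of `z` at `y`, the right side
plus `c (s + 1)`, the arcs of the used items of `y`, `2 c` for the load of other hosts and `q q'` -/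
theorem Fam.rowcI {S : Finset V} (hF : PFrame G r m t Z T) (hP : PG G r)
    (hC : CSys G Z T hm A fun x => S.filter fun v => hm v = x)
    (hW : WSysT G (co G) A (CP G Z T fun x => S.filter fun v => hm v = x)
      (HP G Z T fun x => S.filter fun v => hm v = x) (tlo G T hm)) {U : V → Finset (Itm V)}
    (h : ∀ x ∈ A, Fam (co G) (CP G Z T fun x => S.filter fun v => hm v = x)
      (HP G Z T fun x => S.filter fun v => hm v = x) (tlo G T hm) x (U x))
    {z y : V} (hz : z ∈ A) (hy : y ∈ A) (hzy : z ≠ y) {K : Finset (Itm V)}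
    (hK : K ⊆ (A.erase z).biUnion U)
    (h0 : 0 ≤ sI hm r S z + ∑ u ∈ K, (ikp (tlo G T hm) z u : ℤ)) :
    2 * ((r : ℤ) - 1) * sI hm r S z
      + 2 * ∑ u ∈ K, ((ikp (tlo G T hm) z u : ℤ) * ((r : ℤ) - 1 - tI G Z T hm r S z)
          - rmr G (CP G Z T fun x => S.filter fun v => hm v = x) (tlo G T hm) z u)
      + 2 * ∑ u ∈ U z, ((ikp (tlo G T hm) y u : ℤ) * ((r : ℤ) - 1 - tI G Z T hm r S y)
          - ims G (CP G Z T fun x => S.filter fun v => hm v = x) (tlo G T hm) y u)
      ≤ 2 * eI G hm S z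
        + 2 * (∑ u ∈ K, (2 * (ikp (tlo G T hm) z u : ℤ)
              - if u ∈ U y then (ipc u : ℤ) * ikp (tlo G T hm) z u else 0)
            + ((r : ℤ) - 1 - tI G Z T hm r S y)) * (sI hm r S z + 1)
        + (∑ u ∈ K, (2 * (ikp (tlo G T hm) z u : ℤ)
              - if u ∈ U y then (ipc u : ℤ) * ikp (tlo G T hm) z u else 0))
          * (∑ u ∈ K, (2 * (ikp (tlo G T hm) z u : ℤ)
              - if u ∈ U y then (ipc u : ℤ) * ikp (tlo G T hm) z u else 0) - 1)
        + 2 * ∑ u ∈ K, (if u ∈ U y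
            then (iar G (CP G Z T (fun x => S.filter fun v => hm v = x) y) u : ℤ)
            else 2 * ((r : ℤ) - 1 - tI G Z T hm r S y) * ikp (tlo G T hm) z u)
        + 2 * (∑ u ∈ K, (if u ∈ U y then (ipc u : ℤ) * ikp (tlo G T hm) z u else 0))
          * (∑ u ∈ U z, (ipc u : ℤ) * ikp (tlo G T hm) y u) := by
  set C := CP G Z T fun x => S.filter fun v => hm v = x with hCdef
  set tl := tlo G T hm with htl
  have hcard : ∀ x, ((C x).card : ℤ) = (r : ℤ) - 1 - tI G Z T hm r S x := fun x => card_CP_eq S x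
  have hz0 : ∀ u ∈ K, ikp tl z u = 0 → rmr G C tl z u = 0 := by
    intro u _ hu
    have h1 := rcl_card_le (G := G) (C := C) (tl := tl) (X := fun Q => one1 (oth tl z Q)) (z := z)
      (u := u)
    rw [hu, Nat.zero_mul] at h1
    exact Nat.le_zero.1 h1
  -- sums over the loaded items
  have hsf : ∀ f g : Itm V → ℤ, (∀ u ∈ K, ikp tl z u ≠ 0 → f u = g u) →
      (∀ u ∈ K, ikp tl z u = 0 → f u = 0) →
      ∑ u ∈ K, f u = ∑ u ∈ K.filter (fun u => ikp tl z u ≠ 0), g u := by
    intro f g h1 h2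
    rw [sum_filter]
    refine sum_congr rfl fun u hu => ?_
    by_cases h3 : ikp tl z u = 0
    · rw [h2 u hu h3]
      simp [h3]
    · simp only [ne_eq, h3, not_false_iff, if_true]
      exact h1 u hu h3
  have hpc : ∀ u, ikp tl z u ≠ 0 → (ipc u : ℤ) * ikp tl z u = ipc u := by
    intro u hu
    rcases u with Q | e
    · simp [ipc]
    · have h3 : ikp tl z (Sum.inr e) = 1 := by
        by_cases h4 : tl e.1 = z
        · simp only [ikp, h4, if_true]
        · exact absurd (by simp only [ikp, h4, if_false]) hu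
      rw [h3]
      simp
  have e1 := hsf (fun u => (ikp tl z u : ℤ) * ((r : ℤ) - 1 - tI G Z T hm r S z) - rmr G C tl z u)
    (fun u => ((C z).card : ℤ) * ikp tl z u - (rcl G C tl (fun Q => one1 (oth tl z Q)) z u).card)
    (fun u _ _ => by
      rw [← hcard]
      unfold rmr
      ring)
    (fun u hu h1 => by
      rw [hz0 u hu h1, h1]
      simp)
  have e2 := hsf (fun u => (ikp tl z u : ℤ)) (fun u => (ikp tl z u : ℤ)) (fun _ _ _ => rfl)
    (fun u _ h1 => by rw [h1]; simp)
  have e3 := hsf (fun u => 2 * (ikp tl z u : ℤ)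
      - if u ∈ U y then (ipc u : ℤ) * ikp tl z u else 0)
    (fun u => 2 * (ikp tl z u : ℤ) - if u ∈ U y then (ipc u : ℤ) else 0)
    (fun u _ h1 => by rw [hpc u h1])
    (fun u _ h1 => by rw [h1]; simp)
  have e4 := hsf (fun u => if u ∈ U y then (ipc u : ℤ) * ikp tl z u else 0)
    (fun u => if u ∈ U y then (ipc u : ℤ) else 0)
    (fun u _ h1 => by rw [hpc u h1])
    (fun u _ h1 => by rw [h1]; simp)
  have e5 : ∑ u ∈ K.filter (fun u => ikp tl z u ≠ 0), (if u ∈ U y
        then (iar G (C y) u : ℤ) else 2 * (C y).card * ikp tl z u)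
      ≤ ∑ u ∈ K, (if u ∈ U y then (iar G (C y) u : ℤ)
        else 2 * ((r : ℤ) - 1 - tI G Z T hm r S y) * ikp tl z u) := by
    rw [← hcard]
    refine sum_le_sum_of_subset_of_nonneg (filter_subset _ _) fun u _ _ => ?_
    split_ifs <;> positivity
  have e6 : ∑ u ∈ U z, iht G C tl y u
      = ∑ u ∈ U z, ((ikp tl y u : ℤ) * ((r : ℤ) - 1 - tI G Z T hm r S y) - ims G C tl y u) := by
    refine sum_congr rfl fun u _ => ?_
    unfold iht
    rw [hcard]
    ring
  have h5 := two_eI (G := G) (hm := hm) S z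
  have h6 : (((S.filter fun v => hm v = z).card : ℤ) - r) = sI hm r S z := rfl
  rw [e2] at h0
  have h1 := Fam.row_colC hF hP hC hW h hz hy hzy ((filter_subset _ _).trans hK)
    (fun u hu => (mem_filter.1 hu).2) (X := fun Q => one1 (oth tl z Q))
    (fun Q => one1_sub _) (fun Q => card_one1 _) (by rw [h6]; exact h0)
  rw [h6, ← h5, e6] at h1
  rw [e1, e3, e4]
  rw [← hcard y]
  have h7 : ((C y).card : ℤ) = (r : ℤ) - 1 - tI G Z T hm r S y := hcard y
  rw [← h7] at e5 h1
  linarith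

end RowCol

end Pool.Agent.Lib.MP_f04ccf_co
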