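import Pool.Agent.Lib.MP_f04ccf_co.M.ItXT
import Pool.Agent.Lib.MP_f04ccf_co.M.RowCol

/-!
MP_f04ccf_co, PLAN W (notes 16899, 16919, 16991): the row test with the columns of another row (T+) over
the items.  `ItY`: `ItX` with `rowc`; `pc u` is `1` for the PC pairs and `0` otherwise, `ar u` the missed
class points (at home) of the members of the item `u`, `at i` of all members of the host `i`.
`WIt.ity`, `WItK.ity`: the transport.  `ItY.tplus`: T+ in T-form.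
-/

set_option autoImplicit false

namespace Pool.Agent.Lib.MP_f04ccf_co

open Finset

attribute [local instance] Classical.propDecidable

section StrY

variable {ι : Type*}

/-- **the items with the row test with columns** -/
structure ItY (R : ℤ) (n : ℕ) (t s h e : ℕ → ℤ) (E : ℕ → ℕ → ℤ) (U : Finset ι)
    (ho : ι → ℕ) (vl : ι → ℤ) (kp ms mr : ℕ → ι → ℤ) (mu Nb : ℕ → ℤ) (Nx : ℕ → ℕ → ℤ)
    (be : ℕ → ℕ → ℤ) (ls : ℕ → ℤ → ℤ) (pc ar : ι → ℤ) (aT : ℕ → ℤ) : Prop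
    extends ItX R n t s h e E U ho vl kp ms mr mu Nb Nx be ls where
  pc0 : ∀ u ∈ U, 0 ≤ pc u
  pc1 : ∀ u ∈ U, pc u ≤ 1
  pcv : ∀ u ∈ U, pc u ≠ 0 → vl u = 1
  pcb : ∀ i < n, ∀ j < n, ∑ u ∈ U.filter (fun u => ho u = i), pc u * kp j u = be i j
  ar0 : ∀ u ∈ U, 0 ≤ ar u
  arT : ∀ i < n, ∑ u ∈ U.filter (fun u => ho u = i), ar u ≤ aT i
  lsT : ∀ i < n, ∀ q, ls i q ≤ aT i
  rowc : ∀ i < n, ∀ j < n, i ≠ j → ∀ K ⊆ U, (∀ u ∈ K, ho u ≠ i) →
    0 ≤ s i + ∑ u ∈ K, kp i u →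
    2 * R * s i + 2 * ∑ u ∈ K, (kp i u * (R - t i) - mr i u)
      + 2 * ∑ u ∈ U.filter (fun u => ho u = i), (kp j u * (R - t j) - ms j u)
      ≤ 2 * e i
        + 2 * (∑ u ∈ K, (2 * kp i u - if ho u = j then pc u * kp i u else 0) + (R - t j))
          * (s i + 1)
        + (∑ u ∈ K, (2 * kp i u - if ho u = j then pc u * kp i u else 0))
          * (∑ u ∈ K, (2 * kp i u - if ho u = j then pc u * kp i u else 0) - 1)
        + 2 * ∑ u ∈ K, (if ho u = j then ar u else 2 * (R - t j) * kp i u)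
        + 2 * (∑ u ∈ K, (if ho u = j then pc u * kp i u else 0)) * be i j

end StrY

section TransY

variable {V : Type*} {G : SimpleGraph V} {Z T : Finset V} {hm : V → V} {r m n : ℕ}
  {φ : Finset (V × V) → Finset (Finset V) → ℕ} {B : V → Finset (V × V)}
  {Ps : V → Finset (Finset V)} {host : Itm V → V} {ρ : V → ℕ} {σ : ℕ → V}

/-- the PC pairs with tail `z` as a sum over the items -/
lemma sum_ipc (tl : V → V) (z : V) (Q : Finset (V × V)) (Qs : Finset (Finset V)) :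
    ∑ u ∈ pkf Q Qs, (ipc u : ℤ) * ikp tl z u = ((pcs tl Q z).card : ℤ) := by
  unfold pkf
  rw [sum_disjSum]
  have h1 : ∑ P ∈ Qs.filter (fun P => 2 ≤ P.card),
      (ipc (Sum.inl P : Itm V) : ℤ) * ikp tl z (Sum.inl P : Itm V) = 0 :=
    sum_eq_zero fun P _ => by simp [ipc]
  rw [h1, zero_add]
  unfold pcs
  rw [card_filter, Nat.cast_sum]
  refine sum_congr rfl fun e _ => ?_
  by_cases h2 : tl e.1 = z
  · simp only [ipc, ikp, h2, if_true]
    norm_num
  · simp only [ipc, ikp, h2, if_false]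
    norm_num

/-- the arcs of the items are arcs of the members -/
lemma sum_iar {C H : Finset V} {tl : V → V} {Q : Finset (V × V)} {Qs : Finset (Finset V)}
    (h : Pk G C H tl Q Qs) :
    ∑ u ∈ pkf Q Qs, (iar G C u : ℤ) ≤ ∑ v ∈ H, (nd G C v : ℤ) := by
  have h1 : ∑ u ∈ pkf Q Qs, (iar G C u : ℤ)
      = ∑ v ∈ (pkf Q Qs).biUnion imem, (nd G C v : ℤ) := by
    rw [sum_biUnion]
    · refine sum_congr rfl fun u _ => ?_
      unfold iar
      rw [Nat.cast_sum]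
    · intro u hu v hv huv
      have hu' : u ∈ pkf Q Qs := by exact_mod_cast hu
      have hv' : v ∈ pkf Q Qs := by exact_mod_cast hv
      show Disjoint (imem u) (imem v)
      rw [disjoint_left]
      intro w hw hw'
      rcases u with P | e <;> rcases v with P' | e'
      · have h2 := (inl_mem_pkf.1 hu').1
        have h3 := (inl_mem_pkf.1 hv').1
        exact huv (by rw [h.part_eq h2 h3 hw hw'])
      · have h2 := (inl_mem_pkf.1 hu').1
        have h3 := inr_mem_pkf.1 hv'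
        simp only [imem, mem_singleton] at hw hw'
        exact h.dw e' h3 P h2 (hw' ▸ hw)
      · have h2 := (inl_mem_pkf.1 hv').1
        have h3 := inr_mem_pkf.1 hu'
        simp only [imem, mem_singleton] at hw hw'
        exact h.dw e h3 P' h2 (hw ▸ hw')
      · have h2 := inr_mem_pkf.1 hu'
        have h3 := inr_mem_pkf.1 hv'
        simp only [imem, mem_singleton] at hw hw'
        exact huv (by rw [h.b1 e h2 e' h3 (hw.symm.trans hw')])
  rw [h1]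
  refine sum_le_sum_of_subset_of_nonneg ?_ fun _ _ _ => Nat.cast_nonneg _
  intro v hv
  obtain ⟨u, hu, hvu⟩ := mem_biUnion.1 hv
  rcases u with P | e
  · exact h.sub P (inl_mem_pkf.1 hu).1 hvu
  · simp only [imem, mem_singleton] at hvu
    rw [hvu]
    exact h.bH e (inr_mem_pkf.1 hu)

/-- **the transport to `ItY`** -/
theorem WHom.ity (h : WHom G Z T r m n hm)
    (hpk : ∀ x ∈ T, Pk G (cz G Z T hm x) (hz G Z T hm x) (tlo G T hm) (B x) (Ps x))
    (hst : ∀ x ∈ T, ∀ u ∈ pkf (B x) (Ps x), host u = x)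
    (rk : Rank T (tI G Z T hm r Z) ρ σ) {Nb : ℕ → ℤ} {Nx : ℕ → ℕ → ℤ}
    (it : ItX ((r : ℤ) - 1) n (fun i => tI G Z T hm r Z (σ i)) (fun i => sI hm r Z (σ i))
      (fun i => hI G Z T hm Z (σ i)) (fun i => eI G hm Z (σ i))
      (fun i j => EI G hm Z (σ i) (σ j)) (T.biUnion fun x => pkf (B x) (Ps x))
      (fun u => ρ (host u)) (fun u => (ivl u : ℤ)) (fun i u => (ikp (tlo G T hm) (σ i) u : ℤ))
      (fun i u => (ims G (cz G Z T hm) (tlo G T hm) (σ i) u : ℤ))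
      (fun i u => (rmr G (cz G Z T hm) (tlo G T hm) (σ i) u : ℤ))
      (fun i => ∑ u ∈ pkf (B (σ i)) (Ps (σ i)), (ivl u : ℤ)) Nb Nx
      (fun i j => pcn (tlo G T hm) B (σ i) (σ j))
      (fun i q => lsx G (cz G Z T hm (σ i)) (hz G Z T hm (σ i)) q)) :
    ItY ((r : ℤ) - 1) n (fun i => tI G Z T hm r Z (σ i)) (fun i => sI hm r Z (σ i))
      (fun i => hI G Z T hm Z (σ i)) (fun i => eI G hm Z (σ i))
      (fun i j => EI G hm Z (σ i) (σ j)) (T.biUnion fun x => pkf (B x) (Ps x))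
      (fun u => ρ (host u)) (fun u => (ivl u : ℤ)) (fun i u => (ikp (tlo G T hm) (σ i) u : ℤ))
      (fun i u => (ims G (cz G Z T hm) (tlo G T hm) (σ i) u : ℤ))
      (fun i u => (rmr G (cz G Z T hm) (tlo G T hm) (σ i) u : ℤ))
      (fun i => ∑ u ∈ pkf (B (σ i)) (Ps (σ i)), (ivl u : ℤ)) Nb Nx
      (fun i j => pcn (tlo G T hm) B (σ i) (σ j))
      (fun i q => lsx G (cz G Z T hm (σ i)) (hz G Z T hm (σ i)) q)
      (fun u => (ipc u : ℤ)) (fun u => (iar G (cz G Z T hm (host u)) u : ℤ))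
      (fun i => ∑ v ∈ hz G Z T hm (σ i), (nd G (cz G Z T hm (σ i)) v : ℤ)) := by
  have hcard := h.cardT
  have hfam : ∀ x ∈ T, Fam (co G) (cz G Z T hm) (hz G Z T hm) (tlo G T hm) x
      (pkf (B x) (Ps x)) := fun x hx => (hpk x hx).fam (h.csys.dCH hx hx).symm
  have hfil : ∀ i < n, (T.biUnion fun x => pkf (B x) (Ps x)).filter (fun u => ρ (host u) = i)
      = pkf (B (σ i)) (Ps (σ i)) := fun i hi => fil_host hst rk (by rw [hcard]; exact hi)
  have hmem : ∀ i < n, σ i ∈ T := fun i hi => rk.mem i (by rw [hcard]; exact hi)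
  have hne : ∀ i < n, ∀ j < n, i ≠ j → σ i ≠ σ j := fun i hi j hj hij h1 =>
    hij (rk.sinj (by rw [hcard]; exact hi) (by rw [hcard]; exact hj) h1)
  have hmemU : ∀ u ∈ T.biUnion fun x => pkf (B x) (Ps x), ∀ j < n,
      (ρ (host u) = j ↔ u ∈ pkf (B (σ j)) (Ps (σ j))) := by
    intro u hu j hj
    rw [← hfil j hj, mem_filter]
    exact ⟨fun h1 => ⟨hu, h1⟩, fun h1 => h1.2⟩
  refine ⟨it, fun u _ => Nat.cast_nonneg _, fun u _ => ?_, fun u _ hu => ?_, fun i hi j hj => ?_,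
    fun u _ => Nat.cast_nonneg _, fun i hi => ?_, fun i hi q => lsx_le_ar,
    fun i hi j hj hij K hK hKh h0 => ?_⟩
  · rcases u with P | e <;> simp [ipc]
  · rcases u with P | e
    · simp [ipc] at hu
    · simp [ivl]
  · show ∑ u ∈ (T.biUnion fun x => pkf (B x) (Ps x)).filter (fun u => ρ (host u) = i),
      (ipc u : ℤ) * (ikp (tlo G T hm) (σ j) u : ℤ) = pcn (tlo G T hm) B (σ i) (σ j)
    rw [hfil i hi]
    exact sum_ipc (tlo G T hm) (σ j) (B (σ i)) (Ps (σ i))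
  · show ∑ u ∈ (T.biUnion fun x => pkf (B x) (Ps x)).filter (fun u => ρ (host u) = i),
      (iar G (cz G Z T hm (host u)) u : ℤ) ≤ _
    rw [hfil i hi]
    have h1 : ∑ u ∈ pkf (B (σ i)) (Ps (σ i)), (iar G (cz G Z T hm (host u)) u : ℤ)
        = ∑ u ∈ pkf (B (σ i)) (Ps (σ i)), (iar G (cz G Z T hm (σ i)) u : ℤ) :=
      sum_congr rfl fun u hu => by rw [hst _ (hmem i hi) u hu]
    rw [h1]
    exact sum_iar (hpk _ (hmem i hi))
  · have hK' : K ⊆ (T.erase (σ i)).biUnion fun x => pkf (B x) (Ps x) := by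
      intro u hu
      obtain ⟨x, hx, hux⟩ := mem_biUnion.1 (hK hu)
      refine mem_biUnion.2 ⟨x, mem_erase.2 ⟨fun h1 => hKh u hu ?_, hx⟩, hux⟩
      show ρ (host u) = i
      rw [hst x hx u hux, h1]
      exact rk.right i (by rw [hcard]; exact hi)
    have h1 := Fam.rowcI h.F.toPFrame h.gp.P h.csys h.wsysT hfam (hmem i hi) (hmem j hj)
      (hne i hi j hj hij) hK' h0
    have e1 : ∀ (f g : Itm V → ℤ), ∑ u ∈ K, (if ρ (host u) = j then f u else g u)
        = ∑ u ∈ K, (if u ∈ pkf (B (σ j)) (Ps (σ j)) then f u else g u) := by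
      intro f g
      refine sum_congr rfl fun u hu => ?_
      by_cases h2 : ρ (host u) = j
      · rw [if_pos h2, if_pos ((hmemU u (hK hu) j hj).1 h2)]
      · rw [if_neg h2, if_neg fun h3 => h2 ((hmemU u (hK hu) j hj).2 h3)]
    have e2 : ∑ u ∈ K, (2 * (ikp (tlo G T hm) (σ i) u : ℤ)
          - if ρ (host u) = j then (ipc u : ℤ) * (ikp (tlo G T hm) (σ i) u : ℤ) else 0)
        = ∑ u ∈ K, (2 * (ikp (tlo G T hm) (σ i) u : ℤ)
          - if u ∈ pkf (B (σ j)) (Ps (σ j)) then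
            (ipc u : ℤ) * (ikp (tlo G T hm) (σ i) u : ℤ) else 0) := by
      rw [sum_sub_distrib, sum_sub_distrib, e1]
    have e3 : ∑ u ∈ K, (if ρ (host u) = j then (iar G (cz G Z T hm (host u)) u : ℤ)
          else 2 * ((r : ℤ) - 1 - tI G Z T hm r Z (σ j)) * (ikp (tlo G T hm) (σ i) u : ℤ))
        = ∑ u ∈ K, (if u ∈ pkf (B (σ j)) (Ps (σ j)) then (iar G (cz G Z T hm (σ j)) u : ℤ)
          else 2 * ((r : ℤ) - 1 - tI G Z T hm r Z (σ j)) * (ikp (tlo G T hm) (σ i) u : ℤ)) := by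
      refine sum_congr rfl fun u hu => ?_
      by_cases h2 : ρ (host u) = j
      · have h3 := (hmemU u (hK hu) j hj).1 h2
        rw [if_pos h2, if_pos h3, hst _ (hmem j hj) u h3]
      · rw [if_neg h2, if_neg fun h3 => h2 ((hmemU u (hK hu) j hj).2 h3)]
    rw [sum_ipc (tlo G T hm) (σ j) (B (σ i)) (Ps (σ i))] at h1
    show 2 * ((r : ℤ) - 1) * sI hm r Z (σ i)
      + 2 * ∑ u ∈ K, ((ikp (tlo G T hm) (σ i) u : ℤ) * ((r : ℤ) - 1 - tI G Z T hm r Z (σ i))
        - (rmr G (cz G Z T hm) (tlo G T hm) (σ i) u : ℤ))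
      + 2 * ∑ u ∈ (T.biUnion fun x => pkf (B x) (Ps x)).filter (fun u => ρ (host u) = i),
        ((ikp (tlo G T hm) (σ j) u : ℤ) * ((r : ℤ) - 1 - tI G Z T hm r Z (σ j))
          - (ims G (cz G Z T hm) (tlo G T hm) (σ j) u : ℤ))
      ≤ 2 * eI G hm Z (σ i)
        + 2 * (∑ u ∈ K, (2 * (ikp (tlo G T hm) (σ i) u : ℤ)
          - if ρ (host u) = j then (ipc u : ℤ) * (ikp (tlo G T hm) (σ i) u : ℤ) else 0)
          + ((r : ℤ) - 1 - tI G Z T hm r Z (σ j))) * (sI hm r Z (σ i) + 1)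
        + (∑ u ∈ K, (2 * (ikp (tlo G T hm) (σ i) u : ℤ)
          - if ρ (host u) = j then (ipc u : ℤ) * (ikp (tlo G T hm) (σ i) u : ℤ) else 0))
          * (∑ u ∈ K, (2 * (ikp (tlo G T hm) (σ i) u : ℤ)
          - if ρ (host u) = j then (ipc u : ℤ) * (ikp (tlo G T hm) (σ i) u : ℤ) else 0) - 1)
        + 2 * ∑ u ∈ K, (if ρ (host u) = j then (iar G (cz G Z T hm (host u)) u : ℤ)
          else 2 * ((r : ℤ) - 1 - tI G Z T hm r Z (σ j)) * (ikp (tlo G T hm) (σ i) u : ℤ))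
        + 2 * (∑ u ∈ K, (if ρ (host u) = j then
          (ipc u : ℤ) * (ikp (tlo G T hm) (σ i) u : ℤ) else 0))
          * pcn (tlo G T hm) B (σ i) (σ j)
    rw [hfil i hi, e2, e3, e1]
    exact h1

/-- **version [A]** -/
theorem WIt.ity (h : WHom G Z T r m n hm) (H : WIt G Z T hm r n φ B Ps host ρ σ) :
    ItY ((r : ℤ) - 1) n (fun i => tI G Z T hm r Z (σ i)) (fun i => sI hm r Z (σ i))
      (fun i => hI G Z T hm Z (σ i)) (fun i => eI G hm Z (σ i))
      (fun i j => EI G hm Z (σ i) (σ j)) (T.biUnion fun x => pkf (B x) (Ps x))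
      (fun u => ρ (host u)) (fun u => (ivl u : ℤ)) (fun i u => (ikp (tlo G T hm) (σ i) u : ℤ))
      (fun i u => (ims G (cz G Z T hm) (tlo G T hm) (σ i) u : ℤ))
      (fun i u => (rmr G (cz G Z T hm) (tlo G T hm) (σ i) u : ℤ))
      (fun i => ∑ u ∈ pkf (B (σ i)) (Ps (σ i)), (ivl u : ℤ))
      (fun i => 2 * ((B (σ i)).card : ℤ) + bothB G (tlo G T hm) (B (σ i)))
      (fun i j => far G Z T hm B (σ i) (σ j))
      (fun i j => pcn (tlo G T hm) B (σ i) (σ j))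
      (fun i q => lsx G (cz G Z T hm (σ i)) (hz G Z T hm (σ i)) q)
      (fun u => (ipc u : ℤ)) (fun u => (iar G (cz G Z T hm (host u)) u : ℤ))
      (fun i => ∑ v ∈ hz G Z T hm (σ i), (nd G (cz G Z T hm (σ i)) v : ℤ)) :=
  h.ity (fun x hx => (H.pk x hx).toPk) H.hst H.rk (H.itx h).toItX

/-- **version [B]** -/
theorem WItK.ity (h : WHom G Z T r m n hm) (H : WItK G Z T hm r n φ B Ps host ρ σ) :
    ItY ((r : ℤ) - 1) n (fun i => tI G Z T hm r Z (σ i)) (fun i => sI hm r Z (σ i))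
      (fun i => hI G Z T hm Z (σ i)) (fun i => eI G hm Z (σ i))
      (fun i j => EI G hm Z (σ i) (σ j)) (T.biUnion fun x => pkf (B x) (Ps x))
      (fun u => ρ (host u)) (fun u => (ivl u : ℤ)) (fun i u => (ikp (tlo G T hm) (σ i) u : ℤ))
      (fun i u => (ims G (cz G Z T hm) (tlo G T hm) (σ i) u : ℤ))
      (fun i u => (rmr G (cz G Z T hm) (tlo G T hm) (σ i) u : ℤ))
      (fun i => ∑ u ∈ pkf (B (σ i)) (Ps (σ i)), (ivl u : ℤ))
      (fun i => nbk G (cz G Z T hm (σ i)) (hz G Z T hm (σ i)) (tlo G T hm) (B (σ i)) (Ps (σ i)))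
      (fun i j => nxk G (cz G Z T hm (σ i)) (hz G Z T hm (σ i)) (tlo G T hm) (B (σ i)) (σ j))
      (fun i j => pcn (tlo G T hm) B (σ i) (σ j))
      (fun i q => lsx G (cz G Z T hm (σ i)) (hz G Z T hm (σ i)) q)
      (fun u => (ipc u : ℤ)) (fun u => (iar G (cz G Z T hm (host u)) u : ℤ))
      (fun i => ∑ v ∈ hz G Z T hm (σ i), (nd G (cz G Z T hm (σ i)) v : ℤ)) :=
  h.ity (fun x hx => (H.pk x hx).toPk) H.hst H.rk (H.itx h)

end TransY

section TPlus

variable {ι : Type*} {R : ℤ} {n : ℕ} {t s h e : ℕ → ℤ} {E : ℕ → ℕ → ℤ} {U : Finset ι} {ho : ι → ℕ}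
  {vl : ι → ℤ} {kp ms mr : ℕ → ι → ℤ} {mu Nb : ℕ → ℤ} {Nx : ℕ → ℕ → ℤ} {be : ℕ → ℕ → ℤ}
  {ls : ℕ → ℤ → ℤ} {pc ar : ι → ℤ} {aT : ℕ → ℤ}

namespace ItY

/-- **T+ in T-form**: `k` the load of the items `K`, `q` the PC pairs of `j` among them, `N = 2 k - q`
points outside the columns of `j` -/
theorem tplus (H : ItY R n t s h e E U ho vl kp ms mr mu Nb Nx be ls pc ar aT) {i j : ℕ}
    (hi : i < n) (hj : j < n) (hij : i ≠ j) {K : Finset ι} (hK : K ⊆ U)
    (hKh : ∀ u ∈ K, ho u ≠ i) {k q : ℤ} (hk : k = ∑ u ∈ K, kp i u)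
    (hq : q = ∑ u ∈ K, (if ho u = j then pc u * kp i u else 0)) (h0 : 0 ≤ s i + k) :
    2 * (R * (s i + k)) + 2 * ((R - t j) * (lod U ho kp i j - s i - 1))
      + (mu i - s i) * (mu i - s i - 1)
      ≤ 2 * (t i * (mu i + k)) + (s i + (2 * k - q)) * (s i + (2 * k - q) + 1)
        + Nb i + 2 * ∑ x ∈ (range n).erase i, Nx i x
        + 2 * ∑ u ∈ K, mr i u + 2 * lod U ho ms i j
        + 2 * ∑ u ∈ K, (if ho u = j then ar u else 2 * (R - t j) * kp i u)
        + 2 * (q * be i j) := by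
  have h1 := H.rowc i hi j hj hij K hK hKh (by rw [← hk]; exact h0)
  have h2 := H.ef hi
  have e1 : ∑ u ∈ K, (2 * kp i u - if ho u = j then pc u * kp i u else 0) = 2 * k - q := by
    rw [sum_sub_distrib, ← mul_sum, ← hk, ← hq]
  rw [e1, ← hq, sum_hitx] at h1
  have e2 : ∑ u ∈ K, (kp i u * (R - t i) - mr i u) = k * (R - t i) - ∑ u ∈ K, mr i u := by
    rw [sum_sub_distrib, ← sum_mul, ← hk]
  rw [e2] at h1
  unfold hitx at h1
  nlinarith

/-- **T+ in T-form, items of the row `j` only** -/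
theorem tplusH (H : ItY R n t s h e E U ho vl kp ms mr mu Nb Nx be ls pc ar aT) {i j : ℕ}
    (hi : i < n) (hj : j < n) (hij : i ≠ j) {K : Finset ι} (hK : K ⊆ U)
    (hKh : ∀ u ∈ K, ho u = j) {k q : ℤ} (hk : k = ∑ u ∈ K, kp i u)
    (hq : q = ∑ u ∈ K, pc u * kp i u) (h0 : 0 ≤ s i + k) :
    2 * (R * (s i + k)) + 2 * ((R - t j) * (lod U ho kp i j - s i - 1))
      + (mu i - s i) * (mu i - s i - 1)
      ≤ 2 * (t i * (mu i + k)) + (s i + (2 * k - q)) * (s i + (2 * k - q) + 1)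
        + Nb i + 2 * ∑ x ∈ (range n).erase i, Nx i x
        + 2 * ∑ u ∈ K, mr i u + 2 * lod U ho ms i j + 2 * ∑ u ∈ K, ar u
        + 2 * (q * be i j) := by
  have e1 : ∀ f g : ι → ℤ, ∑ u ∈ K, (if ho u = j then f u else g u) = ∑ u ∈ K, f u :=
    fun f g => sum_congr rfl fun u hu => if_pos (hKh u hu)
  have h1 := H.tplus hi hj hij hK (fun u hu h2 => hij (h2.symm.trans (hKh u hu))) hk
    (q := q) (by rw [e1, hq]) h0
  rw [e1] at h1
  exact h1

end ItY

end TPlus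

end Pool.Agent.Lib.MP_f04ccf_co
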