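import Pool.Agent.Lib.MP_f04ccf_co.M.StarX

/-!
MP_f04ccf_co: kills by points of the class (note 15670 (1), LEMMA C).  Two rows with the classes
`Cx`, `Cy` and a clique `W` of doubles of home `x` with tail `y`, which are complete to `Cx` outside
`Xc`; the points of `Xc` are matched into `W` by missing pairs, and these are served by `Cy`.
With `R = r - 1`, `tx = R - |Cx|`, `ty = R - |Cy|`, `b = |Xc|`, `w = |W|`, property (P) on
`Cx ∪ Cy ∪ W` gives `ty (w - tx) + b (|Cy| - w) + (w - b) ≤ R` (`CArc.s1`), and if there is no clique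
of size `r` and `R - tx - ty ≥ 4`, then `w ≤ R - 2`; `b ≥ 2` only if `b ≤ ty` and `w ≤ tx`; `b = 1`
only if `ty (w - tx) ≤ ty + 1` (`CArc.lemC`).
-/

set_option autoImplicit false

namespace Pool.Agent.Lib.MP_f04ccf_co

open Finset

attribute [local instance] Classical.propDecidable

section LemC

/-- the arithmetic of the inequality, any `D = R - tx - ty` -/
lemma lemC_gen {R tx ty b w D : ℤ} (hD : D = R - tx - ty)
    (h : ty * (w - tx) + b * (R - ty - w) + (w - b) ≤ R) :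
    (w - tx) * (ty + 1 - b) ≤ ty + 1 - (b - 1) * (D - 1) := by
  subst hD
  nlinarith [h]

/-- LEMMA C, the arithmetic for `D ≥ 4` -/
lemma lemC_int {R tx ty b w : ℤ} (hD : 4 ≤ R - tx - ty) (hty : 0 ≤ ty) (hb : 1 ≤ b)
    (hw : w ≤ R - 2) (hbc : b + 1 ≤ R - tx) (h0 : ty = 0 → b ≤ 1)
    (h : ty * (w - tx) + b * (R - ty - w) + (w - b) ≤ R) :
    (2 ≤ b → b ≤ ty ∧ w ≤ tx) ∧ ty * (w - tx) ≤ ty + 1 + (b - 1) * (w - tx) := by
  have h1 := lemC_gen (D := R - tx - ty) rfl h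
  generalize hDe : R - tx - ty = D at *
  have hj : w - tx ≤ D + ty - 2 := by linarith
  have hbD : b ≤ D + ty - 1 := by linarith
  generalize hje : w - tx = j at *
  refine ⟨fun h2 => ?_, ?_⟩
  · rcases lt_trichotomy b (ty + 1) with h3 | h3 | h3
    · refine ⟨by linarith, ?_⟩
      by_contra hcon
      have h4 : 1 ≤ j := by
        rw [← hje]
        push Not at hcon
        linarith [Int.add_one_le_iff.2 hcon]
      have h5 : 0 ≤ (j - 1) * (ty + 1 - b) := mul_nonneg (by linarith) (by linarith)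
      have h6 : 0 ≤ (b - 1) * (D - 4) := mul_nonneg (by linarith) (by linarith)
      nlinarith
    · exfalso
      have h4 : 1 ≤ ty := by linarith
      have h5 : 0 ≤ (ty - 1) * (D - 4) := mul_nonneg (by linarith) (by linarith)
      subst h3
      nlinarith
    · exfalso
      have h4 : 1 ≤ ty := by
        by_contra hcon
        have h5 : ty = 0 := by omega
        have h6 := h0 h5
        linarith
      -- `e = b - ty - 1`
      have h5 : 0 ≤ (D + ty - 2 - j) * (b - ty - 1) := mul_nonneg (by linarith) (by linarith)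
      have h6 : 0 ≤ (D - 2 - (b - ty - 1)) * (ty - 1) := mul_nonneg (by linarith) (by linarith)
      nlinarith
  · have h2 : 0 ≤ (b - 1) * (D - 1) := mul_nonneg (by linarith) (by linarith)
    nlinarith

variable {V : Type*} {G : SimpleGraph V} {r : ℕ}

/-- the number of missing pairs in property (P), slope 1 -/
lemma PG.NE_one (hP : PG G r) (A : Finset V) :
    2 * ((r : ℤ) - 1) * ((A.card : ℤ) - r) ≤ NE G A := by
  have h1 := hP.one A
  have h2 := E_add_NE (G := G) A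
  nlinarith

/-- property (P) on two classes and a clique -/
theorem PG.s1_exact (hP : PG G r) {Cx Cy W : Finset V} (hx : Clq G Cx) (hy : Clq G Cy)
    (hW : Clq G W) (dxy : Disjoint Cx Cy) (dxW : Disjoint Cx W) (dyW : Disjoint Cy W) :
    ∑ c ∈ Cy, (dg G Cx c : ℤ) + ∑ c ∈ Cy, (dg G W c : ℤ)
      + (W.card : ℤ) * ((r : ℤ) - 1 - Cy.card)
      ≤ (r : ℤ) - 1 + ((r : ℤ) - 1 - Cx.card) * ((r : ℤ) - 1 - Cy.card)
        + ∑ w ∈ W, (nd G Cx w : ℤ) := by
  have hd : Disjoint (Cx ∪ Cy) W := disjoint_union_left.2 ⟨dxW, dyW⟩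
  have h1 := hP.NE_one (Cx ∪ Cy ∪ W)
  have h2 : (NE G (Cx ∪ Cy ∪ W) : ℤ) = 2 * ∑ c ∈ Cy, (nd G Cx c : ℤ)
      + 2 * ∑ w ∈ W, ((nd G Cx w : ℤ) + nd G Cy w) := by
    have e1 := NE_union (G := G) hd
    have e2 := NE_union (G := G) dxy
    rw [NE_clq hx, NE_clq hy] at e2
    rw [NE_clq hW, e2] at e1
    have e3 : ∀ w ∈ W, nd G (Cx ∪ Cy) w = nd G Cx w + nd G Cy w := fun w _ => nd_union dxy w
    rw [sum_congr rfl e3] at e1
    have e4 : (NE G (Cx ∪ Cy ∪ W) : ℤ)
        = ((0 + 0 + 2 * ∑ x ∈ Cy, nd G Cx x) + 0 + 2 * ∑ x ∈ W, (nd G Cx x + nd G Cy x) : ℕ) := by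
      exact_mod_cast e1
    rw [e4]
    push_cast
    ring
  have h3 : ((Cx ∪ Cy ∪ W).card : ℤ) = Cx.card + Cy.card + W.card := by
    rw [card_union_of_disjoint hd, card_union_of_disjoint dxy]
    push_cast
    ring
  have h4 : ∑ c ∈ Cy, (nd G Cx c : ℤ) = (Cx.card : ℤ) * Cy.card - ∑ c ∈ Cy, (dg G Cx c : ℤ) := by
    have e1 : ∀ c ∈ Cy, (nd G Cx c : ℤ) = (Cx.card : ℤ) - dg G Cx c := by
      intro c hc
      have := nd_of_notMem (G := G) (A := Cx) (x := c) fun h => disjoint_left.1 dxy h hc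
      omega
    rw [sum_congr rfl e1, sum_sub_distrib, sum_const, nsmul_eq_mul]
    ring
  have h5 : ∑ w ∈ W, (nd G Cy w : ℤ) = (Cy.card : ℤ) * W.card - ∑ c ∈ Cy, (dg G W c : ℤ) := by
    have e1 : ∀ w ∈ W, (nd G Cy w : ℤ) = (Cy.card : ℤ) - dg G Cy w := by
      intro w hw
      have := nd_of_notMem (G := G) (A := Cy) (x := w) fun h => disjoint_left.1 dyW h hw
      omega
    have e2 : ∑ w ∈ W, (dg G Cy w : ℤ) = ∑ c ∈ Cy, (dg G W c : ℤ) := by
      exact_mod_cast dg_comm G W Cy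
    rw [sum_congr rfl e1, sum_sub_distrib, sum_const, nsmul_eq_mul, e2]
    ring
  rw [sum_add_distrib] at h2
  rw [h2, h3, h4, h5] at h1
  nlinarith

variable (G) in
/-- kills of home `x` at the row `y` by points of the class of `x` -/
structure CArc (Cx Cy W Xc : Finset V) (x y : V) (f : V → V) : Prop where
  cx : Clq G Cx
  cy : Clq G Cy
  cw : Clq G W
  dxy : Disjoint Cx Cy
  dxw : Disjoint Cx W
  dyw : Disjoint Cy W
  sub : Xc ⊆ Cx
  full : ∀ w ∈ W, ∀ a ∈ Cx, a ∉ Xc → G.Adj w a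
  srv : ∀ c ∈ Cy, ∀ w ∈ W, ∀ a ∈ Xc, ¬ G.Adj w a → G.Adj c w ∨ G.Adj c a
  inj : ∀ a ∈ Xc, ∀ a' ∈ Xc, f a = f a' → a = a'
  mem : ∀ a ∈ Xc, f a ∈ W
  mis : ∀ a ∈ Xc, ¬ G.Adj (f a) a
  hx : x ∈ Cx
  xX : x ∉ Xc
  hy : y ∈ Cy
  yW : ∀ w ∈ W, G.Adj y w

namespace CArc

variable {Cx Cy W Xc : Finset V} {x y : V} {f : V → V}

lemma b_le_w (h : CArc G Cx Cy W Xc x y f) : Xc.card ≤ W.card :=
  card_le_card_of_injOn f (fun a ha => h.mem a ha) fun a ha a' ha' => h.inj a ha a' ha'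

lemma b_lt (h : CArc G Cx Cy W Xc x y f) : Xc.card + 1 ≤ Cx.card := by
  have h1 : insert x Xc ⊆ Cx := insert_subset h.hx h.sub
  have h2 := card_le_card h1
  rwa [card_insert_of_notMem h.xX] at h2

/-- every point of `Cy` sees at least `|Xc|` points of `Xc` and `W` -/
lemma le_dg (h : CArc G Cx Cy W Xc x y f) {c : V} (hc : c ∈ Cy) :
    Xc.card ≤ dg G Xc c + dg G W c := by
  have h1 : (Xc.filter fun a => ¬ G.Adj c a).card ≤ dg G W c := by
    unfold dg
    refine card_le_card_of_injOn f (fun a ha => ?_) fun a ha a' ha' => ?_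
    · obtain ⟨h1, h2⟩ := mem_filter.1 ha
      refine mem_filter.2 ⟨h.mem a h1, ?_⟩
      exact (h.srv c hc (f a) (h.mem a h1) a h1 (h.mis a h1)).resolve_right h2
    · exact h.inj a (mem_filter.1 ha).1 a' (mem_filter.1 ha').1
  have h2 : (Xc.filter fun a => G.Adj c a).card + (Xc.filter fun a => ¬ G.Adj c a).card
      = Xc.card := card_filter_add_card_filter_not _
  unfold dg at h1 ⊢
  omega

lemma dg_Xc_le (h : CArc G Cx Cy W Xc x y f) (c : V) : dg G Xc c ≤ dg G Cx c :=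
  dg_mono G h.sub c

lemma dg_y (h : CArc G Cx Cy W Xc x y f) : dg G W y = W.card := by
  unfold dg
  rw [filter_true_of_mem h.yW]

/-- a point of `W` misses at most `|Xc|` points of `Cx` -/
lemma nd_le (h : CArc G Cx Cy W Xc x y f) {w : V} (hw : w ∈ W) : nd G Cx w ≤ Xc.card := by
  unfold nd
  refine card_le_card fun a ha => ?_
  obtain ⟨h1, h2, h3⟩ := mem_filter.1 ha
  by_contra hcon
  exact h3 (h.full w hw a h1 hcon)

/-- the account with one point `c` of `Cy` singled out -/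
lemma base (h : CArc G Cx Cy W Xc x y f) (hP : PG G r) {c : V} (hc : c ∈ Cy) (hcy : c ≠ y) :
    ((r : ℤ) - 1 - Cy.card) * ((W.card : ℤ) - ((r : ℤ) - 1 - Cx.card))
      + (Xc.card : ℤ) * ((Cy.card : ℤ) - W.card) + ((W.card : ℤ) - Xc.card)
      + ((dg G Xc c : ℤ) + dg G W c - Xc.card) + ∑ w ∈ W, ((Xc.card : ℤ) - nd G Cx w)
      ≤ (r : ℤ) - 1 := by
  have h1 := hP.s1_exact h.cx h.cy h.cw h.dxy h.dxw h.dyw
  rw [← sum_add_distrib] at h1
  have hc' : c ∈ Cy.erase y := mem_erase.2 ⟨hcy, hc⟩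
  have h2 : ∑ d ∈ Cy, ((dg G Cx d : ℤ) + dg G W d)
      = ((dg G Cx y : ℤ) + dg G W y) + ((dg G Cx c : ℤ) + dg G W c)
        + ∑ d ∈ (Cy.erase y).erase c, ((dg G Cx d : ℤ) + dg G W d) := by
    rw [← add_sum_erase Cy _ h.hy, ← add_sum_erase (Cy.erase y) _ hc']
    ring
  have h3 : (((Cy.erase y).erase c).card : ℤ) * Xc.card
      ≤ ∑ d ∈ (Cy.erase y).erase c, ((dg G Cx d : ℤ) + dg G W d) := by
    have := card_nsmul_le_sum ((Cy.erase y).erase c) (fun d => ((dg G Cx d : ℤ) + dg G W d))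
      (Xc.card : ℤ) (fun d hd => by
        have e1 := h.le_dg (mem_of_mem_erase (mem_of_mem_erase hd))
        have e2 := h.dg_Xc_le d
        try dsimp only
        omega)
    rwa [nsmul_eq_mul] at this
  have h4 : (((Cy.erase y).erase c).card : ℤ) = (Cy.card : ℤ) - 2 := by
    have e1 := card_erase_of_mem hc'
    have e2 := card_erase_of_mem h.hy
    have e3 : 1 ≤ (Cy.erase y).card := card_pos.2 ⟨c, hc'⟩
    omega
  have h5 : ∑ w ∈ W, ((Xc.card : ℤ) - nd G Cx w)
      = (W.card : ℤ) * Xc.card - ∑ w ∈ W, (nd G Cx w : ℤ) := by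
    rw [sum_sub_distrib, sum_const, nsmul_eq_mul]
  have h6 := h.dg_Xc_le c
  have h7 : (dg G Xc c : ℤ) ≤ dg G Cx c := by exact_mod_cast h6
  have h8 : (0 : ℤ) ≤ dg G Cx y := by positivity
  rw [h2, h.dg_y] at h1
  rw [h4] at h3
  rw [h5]
  nlinarith

/-- the inequality (S1') -/
theorem s1 (h : CArc G Cx Cy W Xc x y f) (hP : PG G r) :
    ((r : ℤ) - 1 - Cy.card) * ((W.card : ℤ) - ((r : ℤ) - 1 - Cx.card))
      + (Xc.card : ℤ) * ((Cy.card : ℤ) - W.card) + ((W.card : ℤ) - Xc.card)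
      ≤ (r : ℤ) - 1 := by
  have h1 := hP.s1_exact h.cx h.cy h.cw h.dxy h.dxw h.dyw
  rw [← sum_add_distrib] at h1
  have h2 : ∑ d ∈ Cy, ((dg G Cx d : ℤ) + dg G W d)
      = ((dg G Cx y : ℤ) + dg G W y) + ∑ d ∈ Cy.erase y, ((dg G Cx d : ℤ) + dg G W d) := by
    rw [← add_sum_erase Cy _ h.hy]
  have h3 : ((Cy.erase y).card : ℤ) * Xc.card
      ≤ ∑ d ∈ Cy.erase y, ((dg G Cx d : ℤ) + dg G W d) := by
    have := card_nsmul_le_sum (Cy.erase y) (fun d => ((dg G Cx d : ℤ) + dg G W d))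
      (Xc.card : ℤ) (fun d hd => by
        have e1 := h.le_dg (mem_of_mem_erase hd)
        have e2 := h.dg_Xc_le d
        try dsimp only
        omega)
    rwa [nsmul_eq_mul] at this
  have h4 : ((Cy.erase y).card : ℤ) = (Cy.card : ℤ) - 1 := by
    have e2 := card_erase_of_mem h.hy
    have e3 : 1 ≤ Cy.card := card_pos.2 ⟨y, h.hy⟩
    omega
  have h5 : ∑ w ∈ W, (nd G Cx w : ℤ) ≤ (W.card : ℤ) * Xc.card := by
    have := sum_le_card_nsmul W (fun w => (nd G Cx w : ℤ)) (Xc.card : ℤ) (fun w hw => by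
      have := h.nd_le hw
      try dsimp only
      exact_mod_cast this)
    rwa [nsmul_eq_mul] at this
  have h8 : (0 : ℤ) ≤ dg G Cx y := by positivity
  rw [h2, h.dg_y] at h1
  rw [h4] at h3
  nlinarith

/-- a point `c ≠ y` of `Cy` which misses a point of `W` and a point of `Xc` -/
lemma miss_both (h : CArc G Cx Cy W Xc x y f) {c v0 a0 : V} (hc : c ∈ Cy) (hv0 : v0 ∈ W)
    (hcv : ¬ G.Adj c v0) (ha0 : a0 ∈ Xc) (hca : ¬ G.Adj c a0) :
    (W.card : ℤ) - 1 ≤ ((dg G Xc c : ℤ) + dg G W c - Xc.card)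
      + ∑ w ∈ W, ((Xc.card : ℤ) - nd G Cx w) := by
  -- `c` sees the points which `v0` misses
  have h1 : nd G Cx v0 ≤ dg G Xc c := by
    unfold nd dg
    refine card_le_card fun a ha => ?_
    obtain ⟨h2, h3, h4⟩ := mem_filter.1 ha
    have h5 : a ∈ Xc := by
      by_contra hcon
      exact h4 (h.full v0 hv0 a h2 hcon)
    exact mem_filter.2 ⟨h5, (h.srv c hc v0 hv0 a h5 h4).resolve_left hcv⟩
  -- the other points of `W`
  have h2 : ∀ v ∈ W.erase v0, (1 : ℤ) ≤ (if G.Adj c v then 1 else 0)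
      + ((Xc.card : ℤ) - nd G Cx v) := by
    intro v hv
    have hvW := mem_of_mem_erase hv
    have h3 := h.nd_le hvW
    by_cases hcv' : G.Adj c v
    · rw [if_pos hcv']
      omega
    · rw [if_neg hcv']
      have h4 : G.Adj v a0 := by
        by_contra hcon
        rcases h.srv c hc v hvW a0 ha0 hcon with h5 | h5
        · exact hcv' h5
        · exact hca h5
      have h5 : nd G Cx v + 1 ≤ Xc.card := by
        have h6 : (Cx.filter fun a => a ≠ v ∧ ¬ G.Adj v a) ⊆ Xc.erase a0 := by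
          intro a ha
          obtain ⟨h7, h8, h9⟩ := mem_filter.1 ha
          refine mem_erase.2 ⟨fun e => h9 (e ▸ h4), ?_⟩
          by_contra hcon
          exact h9 (h.full v hvW a h7 hcon)
        have h7 := card_le_card h6
        have h8 := card_erase_add_one ha0
        unfold nd
        omega
      omega
  have h3 := sum_le_sum h2
  rw [sum_add_distrib, sum_const, nsmul_eq_mul, mul_one] at h3
  have h4 : ∑ v ∈ W.erase v0, (if G.Adj c v then (1 : ℤ) else 0) = dg G W c := by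
    have e1 : ∑ v ∈ W, (if G.Adj c v then (1 : ℤ) else 0) = dg G W c := by
      rw [sum_boole]
      rfl
    rw [← add_sum_erase W _ hv0, if_neg hcv, zero_add] at e1
    exact e1
  have h5 : ∑ w ∈ W, ((Xc.card : ℤ) - nd G Cx w) = ((Xc.card : ℤ) - nd G Cx v0)
      + ∑ w ∈ W.erase v0, ((Xc.card : ℤ) - nd G Cx w) := by
    rw [← add_sum_erase W _ hv0]
  have h6 : ((W.erase v0).card : ℤ) = (W.card : ℤ) - 1 := by
    have := card_erase_add_one hv0
    omega
  rw [h4, h6] at h3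
  rw [h5]
  have h7 : (nd G Cx v0 : ℤ) ≤ dg G Xc c := by exact_mod_cast h1
  linarith

/-- if every point `c ≠ y` of `Cy` sees all of `Xc`, there is a large clique -/
lemma big_clq (h : CArc G Cx Cy W Xc x y f)
    (hω : ∀ K : Finset V, K ⊆ Cx ∪ Cy ∪ W → Clq G K → K.card ≤ r - 1)
    (hs : ∀ c ∈ Cy, c ≠ y → ∀ a ∈ Xc, G.Adj c a) : Xc.card + Cy.card ≤ r - 1 + 1 := by
  have h1 : Clq G (Xc ∪ Cy.erase y) := by
    intro u hu v hv huv
    rcases mem_union.1 hu with h2 | h2 <;> rcases mem_union.1 hv with h3 | h3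
    · exact h.cx u (h.sub h2) v (h.sub h3) huv
    · exact (hs v (mem_of_mem_erase h3) (ne_of_mem_erase h3) u h2).symm
    · exact hs u (mem_of_mem_erase h2) (ne_of_mem_erase h2) v h3
    · exact h.cy u (mem_of_mem_erase h2) v (mem_of_mem_erase h3) huv
  have h2 := hω _ (by
    intro v hv
    rcases mem_union.1 hv with h3 | h3
    · exact mem_union_left _ (mem_union_left _ (h.sub h3))
    · exact mem_union_left _ (mem_union_right _ (mem_of_mem_erase h3))) h1
  rw [card_union_of_disjoint] at h2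
  · have h3 := card_erase_add_one h.hy
    omega
  · exact (h.dxy.mono_left h.sub).mono_right (erase_subset _ _)

/-- no point `c ≠ y` of `Cy` sees all of `W` if `|W|` is `R - 1` -/
lemma w_lt (h : CArc G Cx Cy W Xc x y f)
    (hω : ∀ K : Finset V, K ⊆ Cx ∪ Cy ∪ W → Clq G K → K.card ≤ r - 1) : W.card + 1 ≤ r - 1 := by
  have h1 : Clq G (insert x W) := by
    intro u hu v hv huv
    rcases mem_insert.1 hu with h2 | h2 <;> rcases mem_insert.1 hv with h3 | h3
    · exact absurd (h2.trans h3.symm) huv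
    · rw [h2]
      exact (h.full v h3 x h.hx h.xX).symm
    · rw [h3]
      exact h.full u h2 x h.hx h.xX
    · exact h.cw u h2 v h3 huv
  have h2 := hω _ (by
    intro v hv
    rcases mem_insert.1 hv with h3 | h3
    · rw [h3]
      exact mem_union_left _ (mem_union_left _ h.hx)
    · exact mem_union_right _ h3) h1
  rw [card_insert_of_notMem fun hx => disjoint_left.1 h.dxw h.hx hx] at h2
  exact h2

lemma see_all (h : CArc G Cx Cy W Xc x y f)
    (hω : ∀ K : Finset V, K ⊆ Cx ∪ Cy ∪ W → Clq G K → K.card ≤ r - 1) {c : V} (hc : c ∈ Cy)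
    (hcy : c ≠ y) (hs : ∀ w ∈ W, G.Adj c w) : W.card + 2 ≤ r - 1 := by
  have hyW : y ∉ W := fun hy => disjoint_left.1 h.dyw h.hy hy
  have hcW : c ∉ insert y W := by
    rw [mem_insert]
    rintro (h1 | h1)
    · exact hcy h1
    · exact disjoint_left.1 h.dyw hc h1
  have h1 : Clq G (insert c (insert y W)) := by
    intro u hu v hv huv
    rcases mem_insert.1 hu with h2 | h2 <;> rcases mem_insert.1 hv with h3 | h3
    · exact absurd (h2.trans h3.symm) huv
    · rw [h2]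
      rcases mem_insert.1 h3 with h4 | h4
      · rw [h4]
        exact h.cy c hc y h.hy hcy
      · exact hs v h4
    · rw [h3]
      rcases mem_insert.1 h2 with h4 | h4
      · rw [h4]
        exact h.cy y h.hy c hc hcy.symm
      · exact (hs u h4).symm
    · rcases mem_insert.1 h2 with h4 | h4 <;> rcases mem_insert.1 h3 with h5 | h5
      · exact absurd (h4.trans h5.symm) huv
      · rw [h4]
        exact h.yW v h5
      · rw [h5]
        exact (h.yW u h4).symm
      · exact h.cw u h4 v h5 huv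
  have h2 := hω _ (by
    intro v hv
    rcases mem_insert.1 hv with h3 | h3
    · rw [h3]
      exact mem_union_left _ (mem_union_right _ hc)
    · rcases mem_insert.1 h3 with h4 | h4
      · rw [h4]
        exact mem_union_left _ (mem_union_right _ h.hy)
      · exact mem_union_right _ h4) h1
  rw [card_insert_of_notMem hcW, card_insert_of_notMem hyW] at h2
  exact h2

/-- **`w ≤ R - 2`** (LEMMA W) -/
theorem w_le (h : CArc G Cx Cy W Xc x y f) (hr : 6 ≤ r) (hP : PG G r)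
    (hω : ∀ K : Finset V, K ⊆ Cx ∪ Cy ∪ W → Clq G K → K.card ≤ r - 1)
    (hD : r - 1 + 3 ≤ Cx.card + Cy.card) : W.card + 2 ≤ r - 1 := by
  by_contra hcon
  have hw := h.w_lt hω
  have hw' : W.card + 1 = r - 1 := by omega
  -- `b = |Cx| - 1`
  have hb := h.b_lt
  have hb' : Xc.card + 1 = Cx.card := by
    have h1 : Clq G ((Cx \ Xc) ∪ W) := by
      intro u hu v hv huv
      rcases mem_union.1 hu with h2 | h2 <;> rcases mem_union.1 hv with h3 | h3
      · exact h.cx u (mem_sdiff.1 h2).1 v (mem_sdiff.1 h3).1 huv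
      · exact (h.full v h3 u (mem_sdiff.1 h2).1 (mem_sdiff.1 h2).2).symm
      · exact h.full u h2 v (mem_sdiff.1 h3).1 (mem_sdiff.1 h3).2
      · exact h.cw u h2 v h3 huv
    have h2 := hω _ (by
      intro v hv
      rcases mem_union.1 hv with h3 | h3
      · exact mem_union_left _ (mem_union_left _ (mem_sdiff.1 h3).1)
      · exact mem_union_right _ h3) h1
    rw [card_union_of_disjoint (h.dxw.mono_left sdiff_subset), card_sdiff_of_subset h.sub] at h2
    omega
  have hs : ∀ c ∈ Cy, c ≠ y → ∀ a ∈ Xc, G.Adj c a := by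
    intro c hc hcy a ha
    by_contra hca
    have h1 : ∃ v ∈ W, ¬ G.Adj c v := by
      by_contra hcon'
      push Not at hcon'
      have := h.see_all hω hc hcy hcon'
      omega
    obtain ⟨v0, hv0, hcv⟩ := h1
    have h2 := h.miss_both hc hv0 hcv ha hca
    have h3 := h.base hP hc hcy
    have e1 : (W.card : ℤ) = (r : ℤ) - 2 := by omega
    have e2 : (Xc.card : ℤ) = (Cx.card : ℤ) - 1 := by omega
    rw [e1] at h2 h3
    rw [e2] at h2 h3
    have h4 : (6 : ℤ) ≤ r := by exact_mod_cast hr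
    nlinarith
  have h1 := h.big_clq hω hs
  omega

/-- `ty = 0`: at most one kill -/
theorem b_le_one (h : CArc G Cx Cy W Xc x y f) (hr : 6 ≤ r) (hP : PG G r)
    (hω : ∀ K : Finset V, K ⊆ Cx ∪ Cy ∪ W → Clq G K → K.card ≤ r - 1)
    (hD : r - 1 + 3 ≤ Cx.card + Cy.card) (h0 : Cy.card = r - 1) : Xc.card ≤ 1 := by
  by_contra hcon
  have hw := h.w_le hr hP hω hD
  have h1 := h.s1 hP
  have h0' : (Cy.card : ℤ) = (r : ℤ) - 1 := by omega
  have hwz : (W.card : ℤ) + 2 ≤ (r : ℤ) - 1 := by omega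
  have hbz : (2 : ℤ) ≤ Xc.card := by omega
  rw [h0'] at h1
  have hb2 : (Xc.card : ℤ) = 2 := by
    have h2 : 0 ≤ ((Xc.card : ℤ) - 1) * ((r : ℤ) - 1 - 2 - W.card) :=
      mul_nonneg (by linarith) (by linarith)
    have h3 : (Xc.card : ℤ) ≤ 2 := by nlinarith
    linarith
  have hw2 : (W.card : ℤ) = (r : ℤ) - 3 := by
    rw [hb2] at h1
    linarith
  have h4 : (6 : ℤ) ≤ r := by exact_mod_cast hr
  have hs : ∀ c ∈ Cy, c ≠ y → ∀ a ∈ Xc, G.Adj c a := by
    intro c hc hcy a ha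
    by_contra hca
    have h3 := h.base hP hc hcy
    rw [h0', hb2, hw2] at h3
    by_cases hall : ∀ v ∈ W, G.Adj c v
    · have h5 : dg G W c = W.card := by
        unfold dg
        rw [filter_true_of_mem hall]
      have h6 : (0 : ℤ) ≤ ∑ w ∈ W, ((2 : ℤ) - nd G Cx w) := by
        refine sum_nonneg fun w hw' => ?_
        have h7 := h.nd_le hw'
        have h8 : (nd G Cx w : ℤ) ≤ Xc.card := by exact_mod_cast h7
        linarith
      have h7 : (0 : ℤ) ≤ dg G Xc c := by positivity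
      have h8 : (dg G W c : ℤ) = (r : ℤ) - 3 := by rw [h5, hw2]
      rw [h8] at h3
      nlinarith
    · push Not at hall
      obtain ⟨v0, hv0, hcv⟩ := hall
      have h2 := h.miss_both hc hv0 hcv ha hca
      rw [hb2, hw2] at h2
      nlinarith
  have h5 := h.big_clq hω hs
  omega

/-- **LEMMA C** -/
theorem lemC (h : CArc G Cx Cy W Xc x y f) (hr : 6 ≤ r) (hP : PG G r)
    (hω : ∀ K : Finset V, K ⊆ Cx ∪ Cy ∪ W → Clq G K → K.card ≤ r - 1)
    (hD : r - 1 + 4 ≤ Cx.card + Cy.card) (hb : 1 ≤ Xc.card) :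
    W.card + 2 ≤ r - 1 ∧
      (2 ≤ Xc.card → Xc.card + Cy.card ≤ r - 1 ∧ W.card + Cx.card ≤ r - 1) ∧
      (Xc.card = 1 → ((r : ℤ) - 1 - Cy.card) * ((W.card : ℤ) - ((r : ℤ) - 1 - Cx.card))
        ≤ (r : ℤ) - 1 - Cy.card + 1) := by
  have hw := h.w_le hr hP hω (by omega)
  have hcy : Cy.card ≤ r - 1 := hω Cy (fun v hv => mem_union_left _ (mem_union_right _ hv)) h.cy
  have hb1 := h.b_lt
  have h1 := h.s1 hP
  have h2 := lemC_int (R := (r : ℤ) - 1) (tx := (r : ℤ) - 1 - Cx.card)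
    (ty := (r : ℤ) - 1 - Cy.card) (b := Xc.card) (w := W.card) (by omega) (by omega) (by omega)
    (by omega) (by omega) (fun h0 => by
      have := h.b_le_one hr hP hω (by omega) (by omega)
      omega) (by
      have e1 : (r : ℤ) - 1 - ((r : ℤ) - 1 - Cy.card) - W.card = (Cy.card : ℤ) - W.card := by ring
      rw [e1]
      exact h1)
  refine ⟨hw, fun h3 => ?_, fun h3 => ?_⟩
  · obtain ⟨h4, h5⟩ := h2.1 (by exact_mod_cast h3)
    exact ⟨by omega, by omega⟩
  · have h4 := h2.2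
    have h5 : (Xc.card : ℤ) = 1 := by exact_mod_cast h3
    rw [h5] at h4
    linarith

end CArc

section Frame

variable {Z T : Finset V} {hm : V → V} {m t : ℕ}

/-- the kills of a home by points of its class, in a closed system with centres -/
theorem CSys.carc (hF : PFrame G r m t Z T) {A : Finset V} {S : V → Finset V}
    (h : CSys G Z T hm A S) (hctr : ∀ y ∈ A, y ∈ S y) {x y : V} (hx : x ∈ A) (hy : y ∈ A)
    (hxy : x ≠ y) {W Xc : Finset V} (hW : W ⊆ HP G Z T S x)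
    (hWe : ∀ w ∈ W, ends G T w = {x, y}) (hWc : Clq G W) (hXc : Xc ⊆ CP G Z T S x)
    (hfull : ∀ w ∈ W, ∀ a ∈ CP G Z T S x, a ∉ Xc → G.Adj w a) {f : V → V}
    (hinj : ∀ a ∈ Xc, ∀ a' ∈ Xc, f a = f a' → a = a') (hmem : ∀ a ∈ Xc, f a ∈ W)
    (hmis : ∀ a ∈ Xc, ¬ G.Adj (f a) a) :
    CArc G (CP G Z T S x) (CP G Z T S y) W Xc x y f := by
  have hxT := h.sub hx
  have hyT := h.sub hy
  have hWx : ∀ w ∈ W, G.Adj w x := by
    intro w hw
    have h1 : x ∈ ends G T w := by rw [hWe w hw]; simp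
    exact (mem_ends.1 h1).2
  refine ⟨h.CP_clq hF hx, h.CP_clq hF hy, hWc, h.dCP hx hy hxy, (h.dCH hx hx).mono_right hW,
    (h.dCH hy hx).mono_right hW, hXc, hfull, ?_, hinj, hmem, hmis,
    mem_CP.2 ⟨hctr x hx, hF.self_mem_Cl hxT⟩, ?_, mem_CP.2 ⟨hctr y hy, hF.self_mem_Cl hyT⟩, ?_⟩
  · intro c hc w hw a ha hwa
    have haC := mem_CP.1 (hXc ha)
    have hwS := (mem_HP.1 (hW hw)).1
    have hne : w ≠ a := by
      intro e
      have h1 := (mem_HP.1 (hW hw)).2
      rw [e] at h1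
      exact h1 haC.2
    have hae : ∀ z ∈ T, G.Adj a z → z = x := by
      intro z hz haz
      have h1 : z ∈ ends G T a := mem_ends.2 ⟨hz, haz⟩
      rcases (mem_Cl.1 haC.2).2 with h2 | ⟨-, h2⟩
      · rw [h2, hF.ends_T hxT] at h1
        simp at h1
      · rw [h2] at h1
        exact mem_singleton.1 h1
    rcases h.closed x hx w hwS a haC.1 (co_adj.2 ⟨hne, hwa⟩) with ⟨z, hz, h1⟩ | ⟨z, hz, z', hz', h1,
      h2, h3⟩
    · have hzA := mem_of_mem_erase hz
      have hzT := h.sub hzA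
      have hzy : z = y := by
        rcases h1 z (hctr z hzA) (hF.self_mem_Cl hzT) with h2 | h2
        · have h3 : z ∈ ends G T w := mem_ends.2 ⟨hzT, h2⟩
          rw [hWe w hw, mem_insert, mem_singleton] at h3
          exact h3.resolve_left (ne_of_mem_erase hz)
        · exact absurd (hae z hzT h2) (ne_of_mem_erase hz)
      subst hzy
      obtain ⟨h4, h5⟩ := mem_CP.1 hc
      rcases h1 c h4 h5 with h6 | h6
      · exact Or.inl h6.symm
      · exact Or.inr h6.symm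
    · exfalso
      have h4 : z' ∈ ends G T a := by rw [h3]; simp
      obtain ⟨h5, h6⟩ := mem_ends.1 h4
      exact ne_of_mem_erase hz' (hae z' h5 h6)
  · intro hxX
    exact hmis x hxX (hWx _ (hmem x hxX))
  · intro w hw
    have h1 : y ∈ ends G T w := by rw [hWe w hw]; simp
    exact (mem_ends.1 h1).2.symm

/-- **LEMMA C in a closed system** -/
theorem CSys.lemC (hr : 6 ≤ r) (hP : PG G r) (hF : S2 G r m t Z T) {A : Finset V}
    {S : V → Finset V} (h : CSys G Z T hm A S) (hctr : ∀ y ∈ A, y ∈ S y) {x y : V} (hx : x ∈ A)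
    (hy : y ∈ A) (hxy : x ≠ y) {W Xc : Finset V} (hW : W ⊆ HP G Z T S x)
    (hWe : ∀ w ∈ W, ends G T w = {x, y}) (hWc : Clq G W) (hXc : Xc ⊆ CP G Z T S x)
    (hfull : ∀ w ∈ W, ∀ a ∈ CP G Z T S x, a ∉ Xc → G.Adj w a) {f : V → V}
    (hinj : ∀ a ∈ Xc, ∀ a' ∈ Xc, f a = f a' → a = a') (hmem : ∀ a ∈ Xc, f a ∈ W)
    (hmis : ∀ a ∈ Xc, ¬ G.Adj (f a) a) (hb : 1 ≤ Xc.card)
    (hD : r - 1 + 4 ≤ (CP G Z T S x).card + (CP G Z T S y).card) :
    W.card + 2 ≤ r - 1 ∧
      (2 ≤ Xc.card → Xc.card + (CP G Z T S y).card ≤ r - 1 ∧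
        W.card + (CP G Z T S x).card ≤ r - 1) ∧
      (Xc.card = 1 → ((r : ℤ) - 1 - (CP G Z T S y).card)
        * ((W.card : ℤ) - ((r : ℤ) - 1 - (CP G Z T S x).card))
        ≤ (r : ℤ) - 1 - (CP G Z T S y).card + 1) := by
  have h1 := h.carc hF.toPFrame hctr hx hy hxy hW hWe hWc hXc hfull hinj hmem hmis
  refine h1.lemC hr hP (fun K hK hKc => hF.omega K (fun v hv => ?_) hKc) hD hb
  rcases mem_union.1 (hK hv) with h2 | h2
  · rcases mem_union.1 h2 with h3 | h3
    · exact h.subZ hx (CP_sub h3)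
    · exact h.subZ hy (CP_sub h3)
  · exact h.subZ hx (HP_sub (hW h2))

end Frame

end LemC

end Pool.Agent.Lib.MP_f04ccf_co
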