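import Pool.Agent.Lib.MP_f04ccf_co.M.LemF
import Pool.Agent.Lib.MP_f04ccf_co.M.LemC

/-!
MP_f04ccf_co: LEMMA F with LEMMA C plugged in (note 15670 (1), (2)).  For a minimum split cover
`X`, `Y` of one slot of a closed system every arc `z` with a copy (`1 ≤ |Y z|`) satisfies LEMMA C
with `W = WN z` and `X_C = Y z` (`CSys.arc_lemC`), so `CSys.lemF_min` has no hypothesis on the arcs.
-/

set_option autoImplicit false

namespace Pool.Agent.Lib.MP_f04ccf_co

open Finset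

attribute [local instance] Classical.propDecidable

section LemFC

variable {V : Type*} {G : SimpleGraph V} {Z T : Finset V} {hm : V → V} {r m t : ℕ}
  {A : Finset V} {S : V → Finset V} {X : Finset V} {Y : V → Finset V}

/-- the ends of a member with tail `z` -/
lemma CSys.ends_of_tlo (hh : Homes G Z T hm) (h : CSys G Z T hm A S) {x z w : V} (hx : x ∈ A)
    (hw : w ∈ HP G Z T S x) (ht : tlo G T hm w = z) : x ≠ z ∧ ends G T w = {x, z} := by
  have hwP := h.HP_Ph hx hw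
  obtain ⟨-, y, hy, he⟩ := Ph_tail hh hwP
  have hyx := (ne_of_mem_erase hy).symm
  have h1 : tlo G T hm w = y := tlo_eq he (mem_Ph.1 hwP).2 hyx
  have h2 : y = z := h1.symm.trans ht
  rw [← h2]
  exact ⟨hyx, he⟩

/-- **LEMMA C for the arcs of a minimum split cover** -/
theorem CSys.arc_lemC (hr : 6 ≤ r) (hP : PG G r) (hF : S2 G r m t Z T) (hh : Homes G Z T hm)
    (h : CSys G Z T hm A S) (hctr : ∀ y ∈ A, y ∈ S y) {x : V} (hx : x ∈ A)
    (hYP : ∀ z, Y z ⊆ CP G Z T S x)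
    (hc : SpCov (co G) (tlo G T hm) (HP G Z T S x) (CP G Z T S x) X Y)
    (hmin : X.card + ∑ z ∈ A.erase x, (Y z).card
      = spn (co G) (tlo G T hm) (HP G Z T S x) (CP G Z T S x) (A.erase x))
    {z : V} (hz : z ∈ A.erase x) (hb : 1 ≤ (Y z).card)
    (hD : r - 1 + 4 ≤ (CP G Z T S x).card + (CP G Z T S z).card) :
    (WN (co G) (tlo G T hm) (HP G Z T S x) (CP G Z T S x) X z).card + 2 ≤ r - 1 ∧
      (2 ≤ (Y z).card → (Y z).card + (CP G Z T S z).card ≤ r - 1 ∧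
        (WN (co G) (tlo G T hm) (HP G Z T S x) (CP G Z T S x) X z).card
          + (CP G Z T S x).card ≤ r - 1) ∧
      ((Y z).card = 1 → ((r : ℤ) - 1 - (CP G Z T S z).card)
        * (((WN (co G) (tlo G T hm) (HP G Z T S x) (CP G Z T S x) X z).card : ℤ)
          - ((r : ℤ) - 1 - (CP G Z T S x).card))
        ≤ (r : ℤ) - 1 - (CP G Z T S z).card + 1) := by
  obtain ⟨f, hf, hi⟩ := sp_hall hc hmin hz
  refine h.lemC hr hP hF hctr hx (mem_of_mem_erase hz) (ne_of_mem_erase hz).symm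
    (W := WN (co G) (tlo G T hm) (HP G Z T S x) (CP G Z T S x) X z) (Xc := Y z) (f := f)
    (fun w hw => (mem_WN.1 hw).1)
    (fun w hw => (h.ends_of_tlo hh hx (mem_WN.1 hw).1 (mem_WN.1 hw).2.2.1).2)
    (fun p hp q hq hpq => ?_) (hYP z) (fun w hw a ha haY => ?_)
    (fun a ha a' ha' haa => hi ha ha' haa) (fun a ha => (hf a ha).1)
    (fun a ha => (hf a ha).2.2) hb hD
  · by_contra hn
    rcases hc.1 p (mem_WN.1 hp).1 q (mem_WN.1 hq).1 (co_adj.2 ⟨hpq, hn⟩) with h1 | h1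
    · exact (mem_WN.1 hp).2.1 h1
    · exact (mem_WN.1 hq).2.1 h1
  · by_contra hn
    have hne : w ≠ a := by
      rintro rfl
      exact disjoint_left.1 CP_HP_disjoint ha (mem_WN.1 hw).1
    rcases hc.2 w (mem_WN.1 hw).1 a ha (co_adj.2 ⟨hne, hn⟩) with h1 | h1
    · exact (mem_WN.1 hw).2.1 h1
    · rw [(mem_WN.1 hw).2.2.1] at h1
      exact haY h1

/-- **LEMMA F in a closed system, all arcs discharged** (rows with any `g`, used for `g ≥ 1`):
`t' = r - 1 - |CP x|`, `|HP x| = t' + g`; `X`, `Y` a minimum split cover of the slot `x` -/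
theorem CSys.lemF_min (hr : 6 ≤ r) (hP : PG G r) (hF : S2 G r m t Z T) (hh : Homes G Z T hm)
    (h : CSys G Z T hm A S) (hctr : ∀ y ∈ A, y ∈ S y) {x : V} (hx : x ∈ A)
    (hXH : X ⊆ HP G Z T S x) (hYP : ∀ z, Y z ⊆ CP G Z T S x)
    (hc : SpCov (co G) (tlo G T hm) (HP G Z T S x) (CP G Z T S x) X Y)
    (hmin : X.card + ∑ z ∈ A.erase x, (Y z).card
      = spn (co G) (tlo G T hm) (HP G Z T S x) (CP G Z T S x) (A.erase x))
    (hD : ∀ z ∈ A.erase x, r - 1 + 4 ≤ (CP G Z T S x).card + (CP G Z T S z).card)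
    {t' : ℕ} {g : ℤ} (ht : t' + (CP G Z T S x).card = r - 1)
    (hg : ((HP G Z T S x).card : ℤ) = t' + g) :
    (NE G (S x) : ℤ)
      ≤ 2 * ((spn (co G) (tlo G T hm) (HP G Z T S x) (CP G Z T S x) (A.erase x) : ℤ) * t')
        + g * (g - 1) + 2 + 2 * ∑ v ∈ X, (nd G (CP G Z T S x) v : ℤ) := by
  have h1 := h.lemF hF.toPFrame hh hctr hx hXH hc (fun _ => 0) hg (fun z hz hb => by
    have h2 := ((h.arc_lemC hr hP hF hh hctr hx hYP hc hmin hz (by omega) (hD z hz)).2.1 hb).2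
    omega)
  have h2 : ((X.card : ℤ) + ∑ z ∈ A.erase x, ((Y z).card : ℤ))
      = (spn (co G) (tlo G T hm) (HP G Z T S x) (CP G Z T S x) (A.erase x) : ℤ) := by
    rw [← hmin]
    push_cast
    rfl
  rw [h2] at h1
  have h3 : ∑ z ∈ A.erase x, ((Y z).card : ℤ) * ((fun _ => 0 : V → ℕ) z : ℤ) = 0 := by
    refine sum_eq_zero fun z _ => ?_
    push_cast
    ring
  rw [h3] at h1
  linarith

/-- **the same for rows with `g ≤ 0`** -/
theorem CSys.lemF_min' (hF : PFrame G r m t Z T) (hh : Homes G Z T hm)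
    (h : CSys G Z T hm A S) (hctr : ∀ y ∈ A, y ∈ S y) {x : V} (hx : x ∈ A)
    (hXH : X ⊆ HP G Z T S x)
    (hc : SpCov (co G) (tlo G T hm) (HP G Z T S x) (CP G Z T S x) X Y)
    (hmin : X.card + ∑ z ∈ A.erase x, (Y z).card
      = spn (co G) (tlo G T hm) (HP G Z T S x) (CP G Z T S x) (A.erase x)) :
    NE G (S x) + X.card * (X.card + 1)
      ≤ 2 * (spn (co G) (tlo G T hm) (HP G Z T S x) (CP G Z T S x) (A.erase x)
          * (HP G Z T S x).card) + 2 * ∑ v ∈ X, nd G (CP G Z T S x) v := by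
  have h1 := h.lemF' hF hh hctr hx hXH hc
  rw [hmin] at h1
  exact h1

end LemFC

end Pool.Agent.Lib.MP_f04ccf_co
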