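import Pool.Agent.Lib.MP_f04ccf_co.M.LemH
import Pool.Agent.Lib.MP_f04ccf_co.S2Safe

/-!
MP_f04ccf_co: LEMMA H (note 15320) in the frame.  For a set `A` of rows, `S x ⊆ MM x` any part of the
slot.  Pairs of `S x` are covered at the row `y` if they are missing and served by `Cl y`; a missing
pair of `Ph x` with ends `y ≠ z` in `A` is covered at `y` or at `z`.  The cross edges between `Cl y`
and `Cl z` pay for the transversals with adjacent members.
-/

set_option autoImplicit false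

namespace Pool.Agent.Lib.MP_f04ccf_co

open Finset

attribute [local instance] Classical.propDecidable

variable {V : Type*} {G : SimpleGraph V} {Z T : Finset V} {r m t : ℕ} {hm : V → V}

/-- the vertices with home `x` and the other end `y` -/
noncomputable def tlH (G : SimpleGraph V) (Z T : Finset V) (hm : V → V) (x y : V) : Finset V :=
  (Ph G Z T hm x).filter (fun v => y ∈ ends G T v)

lemma mem_tlH {x y v : V} : v ∈ tlH G Z T hm x y ↔ v ∈ Ph G Z T hm x ∧ y ∈ ends G T v := mem_filter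

/-- a missing pair of one home with different tails is served in every non adjacent pair of points
of the two tail rows -/
lemma PFrame.half_served (h : PFrame G r m t Z T) (hh : Homes G Z T hm) {x y z p q : V}
    (hxy : x ≠ y) (hxz : x ≠ z) (hyz : y ≠ z) (hp : p ∈ tlH G Z T hm x y)
    (hq : q ∈ tlH G Z T hm x z) (hpq : p ≠ q) (hn : ¬ G.Adj p q) {c d : V} (hc : c ∈ Cl G Z T y)
    (hd : d ∈ Cl G Z T z) (hcd : ¬ G.Adj c d) :
    G.Adj p c ∨ G.Adj q c ∨ G.Adj p d ∨ G.Adj q d := by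
  obtain ⟨hp1, hp2⟩ := mem_tlH.1 hp
  obtain ⟨hq1, hq2⟩ := mem_tlH.1 hq
  obtain ⟨hp3, hp4⟩ := mem_Ph.1 hp1
  obtain ⟨hq3, hq4⟩ := mem_Ph.1 hq1
  have hpx : x ∈ ends G T p := hp4 ▸ hh p hp3
  have hqx : x ∈ ends G T q := hq4 ▸ hh q hq3
  have hyT := ends_sub hp2
  have hzT := ends_sub hq2
  have hxT := ends_sub hpx
  by_contra hcon
  push Not at hcon
  obtain ⟨n1, n2, n3, n4⟩ := hcon
  have hI : ({x, y, z} : Finset V) ⊆ T := by
    intro v hv
    simp only [mem_insert, mem_singleton] at hv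
    rcases hv with rfl | rfl | rfl <;> assumption
  refine h.no4 hI card_le_three (a := p) (b := q) (c := c) (d := d)
    (PFrame.mem_ZI_of_BB hp3 ?_) (PFrame.mem_ZI_of_BB hq3 ?_) (h.Cl_sub_ZI' hyT (by simp) hc)
    (h.Cl_sub_ZI' hzT (by simp) hd) hpq (BB_ne_Cl hp3 hyT hc) (BB_ne_Cl hq3 hyT hc)
    (BB_ne_Cl hp3 hzT hd) (BB_ne_Cl hq3 hzT hd) ?_ hn n1 n2 n3 n4 hcd
  · rw [ends_eq_pair hp3 hpx hp2 hxy]
    intro v hv
    simp only [mem_insert, mem_singleton] at hv ⊢
    tauto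
  · rw [ends_eq_pair hq3 hqx hq2 hxz]
    intro v hv
    simp only [mem_insert, mem_singleton] at hv ⊢
    tauto
  · rintro rfl
    exact disjoint_left.1 (PFrame.Cl_disjoint hyT hzT hyz) hc hd

/-- a missing pair of one home with the same tail is served there -/
lemma PFrame.same_served (h : PFrame G r m t Z T) (hh : Homes G Z T hm) {x y p q : V}
    (hxy : x ≠ y) (hp : p ∈ tlH G Z T hm x y) (hq : q ∈ tlH G Z T hm x y) (hpq : p ≠ q)
    (hn : ¬ G.Adj p q) {c : V} (hc : c ∈ Cl G Z T y) : G.Adj p c ∨ G.Adj q c := by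
  obtain ⟨hp1, hp2⟩ := mem_tlH.1 hp
  obtain ⟨hq1, hq2⟩ := mem_tlH.1 hq
  obtain ⟨hp3, hp4⟩ := mem_Ph.1 hp1
  obtain ⟨hq3, hq4⟩ := mem_Ph.1 hq1
  have hpx : x ∈ ends G T p := hp4 ▸ hh p hp3
  have hqx : x ∈ ends G T q := hq4 ▸ hh q hq3
  have hyT := ends_sub hp2
  by_contra hcon
  push Not at hcon
  have hI : ({x, y} : Finset V) ⊆ T := by
    rw [← ends_eq_pair hp3 hpx hp2 hxy]
    exact ends_sub
  exact h.no3 hI card_le_two (PFrame.mem_ZI_of_BB hp3 (ends_eq_pair hp3 hpx hp2 hxy).subset)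
    (PFrame.mem_ZI_of_BB hq3 (ends_eq_pair hq3 hqx hq2 hxy).subset)
    (h.Cl_sub_ZI' hyT (by simp) hc) hpq (BB_ne_Cl hp3 hyT hc) (BB_ne_Cl hq3 hyT hc) hn
    hcon.1 hcon.2

/-- a missing pair of a point of the home row and a vertex of this home is served at the tail -/
lemma PFrame.pc_served (h : PFrame G r m t Z T) (hh : Homes G Z T hm) {x y p a : V}
    (hxy : x ≠ y) (hp : p ∈ tlH G Z T hm x y) (ha : a ∈ Cl G Z T x) (hn : ¬ G.Adj p a) {c : V}
    (hc : c ∈ Cl G Z T y) : G.Adj p c ∨ G.Adj a c := by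
  obtain ⟨hp1, hp2⟩ := mem_tlH.1 hp
  obtain ⟨hp3, hp4⟩ := mem_Ph.1 hp1
  have hpx : x ∈ ends G T p := hp4 ▸ hh p hp3
  have hyT := ends_sub hp2
  have hxT := ends_sub hpx
  by_contra hcon
  push Not at hcon
  have hI : ({x, y} : Finset V) ⊆ T := by
    rw [← ends_eq_pair hp3 hpx hp2 hxy]
    exact ends_sub
  refine h.no3 hI card_le_two (PFrame.mem_ZI_of_BB hp3 (ends_eq_pair hp3 hpx hp2 hxy).subset)
    (h.Cl_sub_ZI' hxT (by simp) ha) (h.Cl_sub_ZI' hyT (by simp) hc) (BB_ne_Cl hp3 hxT ha)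
    (BB_ne_Cl hp3 hyT hc) ?_ hn hcon.1 hcon.2
  rintro rfl
  exact disjoint_left.1 (PFrame.Cl_disjoint hxT hyT hxy) ha hc

/-- the smaller part covers the half-served pairs -/
private noncomputable def Lh (G : SimpleGraph V) (Z T : Finset V) (hm : V → V) (x y z : V) :
    Finset V :=
  if (tlH G Z T hm x y).card < (tlH G Z T hm x z).card ∨
      ((tlH G Z T hm x y).card = (tlH G Z T hm x z).card ∧ WellOrderingRel y z)
  then tlH G Z T hm x y else tlH G Z T hm x z

private lemma Lh_or (x y z : V) : Lh G Z T hm x y z = tlH G Z T hm x y ∨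
    Lh G Z T hm x y z = tlH G Z T hm x z := by
  unfold Lh
  split_ifs
  · exact Or.inl rfl
  · exact Or.inr rfl

private lemma Lh_comm (x y z : V) : Lh G Z T hm x y z = Lh G Z T hm x z y := by
  have h1 : WellOrderingRel y z ∨ y = z ∨ WellOrderingRel z y := trichotomous_of _ _ _
  have h2 : WellOrderingRel y z → ¬ WellOrderingRel z y := fun a b => asymm a b
  unfold Lh
  rcases lt_trichotomy (tlH G Z T hm x y).card (tlH G Z T hm x z).card with h3 | h3 | h3
  · rw [if_pos (Or.inl h3), if_neg]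
    rintro (h4 | h4) <;> omega
  · rcases h1 with h1 | h1 | h1
    · rw [if_pos (Or.inr ⟨h3, h1⟩), if_neg]
      rintro (h4 | h4)
      · omega
      · exact h2 h1 h4.2
    · rw [h1]
    · rw [if_neg, if_pos (Or.inr ⟨h3.symm, h1⟩)]
      rintro (h4 | h4)
      · omega
      · exact h2 h4.2 h1
  · rw [if_neg, if_pos (Or.inl h3)]
    rintro (h4 | h4) <;> omega

private lemma Lh_card (x y z : V) : (Lh G Z T hm x y z).card
    = min (tlH G Z T hm x y).card (tlH G Z T hm x z).card := by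
  unfold Lh
  split_ifs with h1
  · rw [min_eq_left]
    rcases h1 with h1 | h1
    · exact h1.le
    · exact h1.1.le
  · rw [min_eq_right]
    push Not at h1
    exact h1.1

private lemma sum_sub_erase (A : Finset V) (x : V) (f : V → ℚ) :
    ∑ y ∈ (univ : Finset {y // y ∈ A}).filter (fun y => y.1 ≠ x), f y.1 = ∑ y ∈ A.erase x, f y := by
  rw [sum_filter, sum_coe_sort A (fun y => if y ≠ x then f y else 0), ← sum_filter, filter_ne']

/-- **LEMMA H in the frame**: `S x` is any part of the slot `MM x` -/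
theorem PFrame.lemma_H (h : PFrame G r m t Z T) (hh : Homes G Z T hm) {A : Finset V} (hA : A ⊆ T)
    (S : V → Finset V) (W : V → ℚ)
    (hW : ∀ x ∈ A, ∀ K : V → Finset V,
      (∀ y ∈ A.erase x, K y ⊆ S x ∧ ∀ p ∈ S x, ∀ q ∈ S x, p ≠ q → ¬ G.Adj p q →
        (∀ c ∈ Cl G Z T y, G.Adj p c ∨ G.Adj q c) → p ∈ K y ∨ q ∈ K y) →
      (∀ y ∈ A.erase x, ∀ z ∈ A.erase x, y ≠ z → ∀ p ∈ S x ∩ tlH G Z T hm x y,
        ∀ q ∈ S x ∩ tlH G Z T hm x z, p ≠ q → ¬ G.Adj p q →
        p ∈ K y ∨ q ∈ K y ∨ p ∈ K z ∨ q ∈ K z) →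
      W x ≤ ∑ y ∈ A.erase x, ((Cl G Z T y).card : ℚ) * (K y).card) :
    ∑ x ∈ A, W x ≤ ∑ x ∈ A, ∑ y ∈ A.erase x, ∑ c ∈ Cl G Z T y, (dg G (S x) c : ℚ)
      + (1 / 2) * ∑ x ∈ A, ∑ y ∈ A.erase x, ∑ z ∈ (A.erase x).erase y,
          (min ((tlH G Z T hm x y).card : ℚ) (tlH G Z T hm x z).card)
            / max ((Cl G Z T y).card : ℚ) (Cl G Z T z).card
            * ∑ c ∈ Cl G Z T y, (dg G (Cl G Z T z) c : ℚ) := by
  -- the abstract data
  have h0 := lemH (ι := {y // y ∈ A}) (κ := V) (G := G) (fun y => Cl G Z T y.1)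
    (fun y => ⟨y.1, h.self_mem_Cl (hA y.2)⟩) A (fun x => univ.filter (fun y => y.1 ≠ x)) S
    (fun x y => SimpleGraph.fromRel (fun p q => p ∈ S x ∧ q ∈ S x ∧ ¬ G.Adj p q ∧
      ∀ c ∈ Cl G Z T y.1, G.Adj p c ∨ G.Adj q c))
    (fun x y z => SimpleGraph.fromRel (fun p q => ¬ G.Adj p q ∧
      ((p ∈ S x ∩ tlH G Z T hm x y.1 ∧ q ∈ S x ∩ tlH G Z T hm x z.1) ∨
        (p ∈ S x ∩ tlH G Z T hm x z.1 ∧ q ∈ S x ∩ tlH G Z T hm x y.1))))
    (by
      intro x _ y _ p _ q _ hpq c hc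
      rw [SimpleGraph.fromRel_adj] at hpq
      rcases hpq.2 with h1 | h1
      · exact h1.2.2.2 c hc
      · exact (h1.2.2.2 c hc).symm)
    (by
      intro x hx y hy z hz hyz p _ q _ hpq c hc d hd hcd
      have hxy : x ≠ y.1 := (mem_filter.1 hy).2.symm
      have hxz : x ≠ z.1 := (mem_filter.1 hz).2.symm
      have hyz' : y.1 ≠ z.1 := fun e => hyz (Subtype.ext e)
      have key : ∀ p q, p ≠ q → ¬ G.Adj p q → p ∈ S x ∩ tlH G Z T hm x y.1 →
          q ∈ S x ∩ tlH G Z T hm x z.1 → G.Adj p c ∨ G.Adj q c ∨ G.Adj p d ∨ G.Adj q d :=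
        fun p q a b e f => h.half_served hh hxy hxz hyz' (mem_inter.1 e).2 (mem_inter.1 f).2 a b
          hc hd hcd
      rw [SimpleGraph.fromRel_adj] at hpq
      obtain ⟨hne, hor⟩ := hpq
      rcases hor with ⟨h1, ⟨h2, h3⟩ | ⟨h2, h3⟩⟩ | ⟨h1, ⟨h2, h3⟩ | ⟨h2, h3⟩⟩
      · exact key p q hne h1 h2 h3
      · have := key q p hne.symm (fun h' => h1 h'.symm) h3 h2
        tauto
      · have := key q p hne.symm h1 h2 h3
        tauto
      · exact key p q hne (fun h' => h1 h'.symm) h3 h2)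
    (fun x y z => S x ∩ Lh G Z T hm x y.1 z.1)
    (by
      intro x y z
      show S x ∩ _ = S x ∩ _
      rw [Lh_comm])
    (by
      intro x hx y hy z hz hyz
      refine ⟨inter_subset_left, ?_⟩
      intro p _ q _ hpq
      rw [SimpleGraph.fromRel_adj] at hpq
      obtain ⟨hne, hor⟩ := hpq
      simp only [mem_inter] at hor ⊢
      rcases Lh_or (G := G) (Z := Z) (T := T) (hm := hm) x y.1 z.1 with h1 | h1 <;>
        rw [h1] <;> tauto)
    W
    (by
      intro x hx K hK1 hK2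
      set K' : V → Finset V := fun y => if hy : y ∈ A then K ⟨y, hy⟩ else ∅ with hK'
      have e1 : ∀ y : {y // y ∈ A}, K' y.1 = K y := by
        intro y
        rw [hK']
        simp only [dif_pos y.2]
      have h1 := hW x hx K' (by
        intro y hy
        obtain ⟨hyx, hyA⟩ := mem_erase.1 hy
        obtain ⟨a, b⟩ := hK1 ⟨y, hyA⟩ (mem_filter.2 ⟨mem_univ _, hyx⟩)
        rw [e1 ⟨y, hyA⟩]
        refine ⟨a, fun p hp q hq hne hn hs => b p hp q hq ?_⟩
        rw [SimpleGraph.fromRel_adj]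
        exact ⟨hne, Or.inl ⟨hp, hq, hn, hs⟩⟩) (by
        intro y hy z hz hyz p hp q hq hne hn
        obtain ⟨hyx, hyA⟩ := mem_erase.1 hy
        obtain ⟨hzx, hzA⟩ := mem_erase.1 hz
        rw [e1 ⟨y, hyA⟩, e1 ⟨z, hzA⟩]
        refine hK2 ⟨y, hyA⟩ (mem_filter.2 ⟨mem_univ _, hyx⟩) ⟨z, hzA⟩
          (mem_filter.2 ⟨mem_univ _, hzx⟩) (fun e => hyz (congrArg Subtype.val e)) p
          (mem_inter.1 hp).1 q (mem_inter.1 hq).1 ?_
        rw [SimpleGraph.fromRel_adj]
        exact ⟨hne, Or.inl ⟨hn, Or.inl ⟨hp, hq⟩⟩⟩)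
      rw [← sum_sub_erase] at h1
      refine h1.trans (le_of_eq (sum_congr rfl fun y _ => ?_))
      rw [e1 y])
  refine h0.trans (add_le_add (le_of_eq ?_) ?_)
  · refine sum_congr rfl fun x _ => ?_
    exact sum_sub_erase A x (fun y => ∑ c ∈ Cl G Z T y, (dg G (S x) c : ℚ))
  · apply mul_le_mul_of_nonneg_left _ (by norm_num)
    apply sum_le_sum
    intro x _
    have e1 : ∀ y : {y // y ∈ A}, ∀ f : V → ℚ,
        ∑ z ∈ @Finset.erase {y // y ∈ A} (fun a b => Classical.propDecidable (a = b))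
          ((univ : Finset {y // y ∈ A}).filter (fun z => z.1 ≠ x)) y, f z.1
          = ∑ z ∈ (A.erase x).erase y.1, f z := by
      intro y f
      have e2 : @Finset.erase {y // y ∈ A} (fun a b => Classical.propDecidable (a = b))
          ((univ : Finset {y // y ∈ A}).filter (fun z => z.1 ≠ x)) y
          = (univ : Finset {y // y ∈ A}).filter (fun z => z.1 ≠ x ∧ z.1 ≠ y.1) := by
        ext z
        simp only [mem_erase, mem_filter, mem_univ, true_and]
        constructor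
        · rintro ⟨a, b⟩
          exact ⟨b, fun e => a (Subtype.ext e)⟩
        · rintro ⟨a, b⟩
          exact ⟨fun e => b (congrArg Subtype.val e), a⟩
      have e3 : (A.erase x).erase y.1 = A.filter (fun z => z ≠ x ∧ z ≠ y.1) := by
        ext z
        simp only [mem_erase, mem_filter]
        tauto
      rw [e2, e3, sum_filter, sum_filter,
        sum_coe_sort A (fun z => if z ≠ x ∧ z ≠ y.1 then f z else 0)]
    have e4 := sum_sub_erase A x (fun y => ∑ z ∈ (A.erase x).erase y,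
          (min ((tlH G Z T hm x y).card : ℚ) (tlH G Z T hm x z).card)
            / max ((Cl G Z T y).card : ℚ) (Cl G Z T z).card
            * ∑ c ∈ Cl G Z T y, (dg G (Cl G Z T z) c : ℚ))
    rw [← e4]
    apply sum_le_sum
    intro y _
    rw [← e1 y]
    apply sum_le_sum
    intro z _
    refine mul_le_mul_of_nonneg_right ?_ (sum_nonneg fun c _ => Nat.cast_nonneg _)
    refine div_le_div_of_nonneg_right ?_ (le_max_of_le_left (Nat.cast_nonneg _))
    have e5 : (S x ∩ Lh G Z T hm x y.1 z.1).card ≤ (Lh G Z T hm x y.1 z.1).card :=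
      card_le_card inter_subset_right
    rw [Lh_card] at e5
    have e6 : (((S x ∩ Lh G Z T hm x y.1 z.1).card : ℕ) : ℚ)
        ≤ ((min (tlH G Z T hm x y.1).card (tlH G Z T hm x z.1).card : ℕ) : ℚ) := by
      exact_mod_cast e5
    rw [Nat.cast_min] at e6
    exact e6

end Pool.Agent.Lib.MP_f04ccf_co
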