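import Pool.Agent.Lib.MP_f04ccf_co.M.LemNF
import Pool.Agent.Lib.MP_f04ccf_co.M.LemHF

/-!
MP_f04ccf_co: the mutual term (note 15401).  `N` is a graph of missing pairs of the slot `H ∪ P`
served by the clique `Q`, `N'` a graph of missing pairs of the slot `H' ∪ Q` served by the clique `P`.
The edges between `P` and `Q` are used in both directions, and the double use is paid by the
adjacent pairs between `H` and `H'`: `β |Q| + β' |P| ≤ e(H ∪ P, H' ∪ Q)` for the cover numbers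
`β`, `β'` of `N` and `N'`.
-/

set_option autoImplicit false

namespace Pool.Agent.Lib.MP_f04ccf_co

open Finset

attribute [local instance] Classical.propDecidable

section Koenig

variable {V : Type*}

/-- the members of `W` which are related to a point of `Y` -/
noncomputable def Gm (R : V → V → Prop) (W Y : Finset V) : Finset V := W.filter (fun w => ∃ c ∈ Y, R c w)

lemma mem_Gm {R : V → V → Prop} {W Y : Finset V} {w : V} :
    w ∈ Gm R W Y ↔ w ∈ W ∧ ∃ c ∈ Y, R c w := mem_filter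

/-- the theorem of Koenig for the relation `R` between `Q` and `W`, with both matchings -/
theorem koenig_split (R : V → V → Prop) (Q W : Finset V) :
    ∃ (Y : Finset V) (σ π : V → V), Y ⊆ Q ∧
      (∀ w ∈ Gm R W Y, σ w ∈ Y ∧ R (σ w) w) ∧
      (∀ w ∈ Gm R W Y, ∀ w' ∈ Gm R W Y, σ w = σ w' → w = w') ∧
      (∀ c ∈ Q \ Y, π c ∈ W ∧ π c ∉ Gm R W Y ∧ R c (π c)) ∧
      (∀ c ∈ Q \ Y, ∀ c' ∈ Q \ Y, π c = π c' → c = c') := by
  obtain ⟨Y, hY, hmin⟩ := exists_min_image Q.powerset (fun Y => (Q \ Y).card + (Gm R W Y).card)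
    ⟨∅, by simp⟩
  have hYQ : Y ⊆ Q := mem_powerset.1 hY
  have hmin' : ∀ Z : Finset V, Z ⊆ Q →
      (Q \ Y).card + (Gm R W Y).card ≤ (Q \ Z).card + (Gm R W Z).card :=
    fun Z hZ => hmin Z (mem_powerset.2 hZ)
  -- the matching of `Gm R W Y` into `Y`
  have h1 : ∃ f : {w // w ∈ Gm R W Y} → V, Function.Injective f ∧
      ∀ w, f w ∈ Y.filter (fun c => R c w.1) := by
    rw [← all_card_le_biUnion_card_iff_exists_injective]
    intro s
    set Nb := s.biUnion (fun w => Y.filter (fun c => R c w.1)) with hNb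
    have hsub : Nb ⊆ Y := by
      intro c hc
      obtain ⟨w, _, hcw⟩ := mem_biUnion.1 hc
      exact (mem_filter.1 hcw).1
    have h2 := hmin' (Y \ Nb) (sdiff_subset.trans hYQ)
    have h3 : (Q \ (Y \ Nb)).card = (Q \ Y).card + Nb.card := by
      have e1 : Q \ (Y \ Nb) = (Q \ Y) ∪ Nb := by
        ext c
        simp only [mem_sdiff, mem_union]
        constructor
        · rintro ⟨a, b⟩
          by_cases hc : c ∈ Y
          · right
            by_contra hn
            exact b ⟨hc, hn⟩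
          · exact Or.inl ⟨a, hc⟩
        · rintro (⟨a, b⟩ | a)
          · exact ⟨a, fun h => b h.1⟩
          · exact ⟨hYQ (hsub a), fun h => h.2 a⟩
      rw [e1, card_union_of_disjoint]
      rw [disjoint_left]
      intro c hc hc'
      exact (mem_sdiff.1 hc).2 (hsub hc')
    have h4 : (Gm R W (Y \ Nb)).card + s.card ≤ (Gm R W Y).card := by
      have e1 : (s.map ⟨Subtype.val, Subtype.val_injective⟩).card = s.card := card_map _
      rw [← e1, ← card_union_of_disjoint]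
      · refine card_le_card (union_subset ?_ ?_)
        · intro w hw
          obtain ⟨a, c, hc, hcw⟩ := mem_Gm.1 hw
          exact mem_Gm.2 ⟨a, c, (mem_sdiff.1 hc).1, hcw⟩
        · intro w hw
          obtain ⟨w', _, rfl⟩ := mem_map.1 hw
          exact w'.2
      · rw [disjoint_left]
        intro w hw hw'
        obtain ⟨w', hw1, rfl⟩ := mem_map.1 hw'
        obtain ⟨a, c, hc, hcw⟩ := mem_Gm.1 hw
        obtain ⟨c1, c2⟩ := mem_sdiff.1 hc
        exact c2 (mem_biUnion.2 ⟨w', hw1, mem_filter.2 ⟨c1, hcw⟩⟩)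
    omega
  -- the matching of `Q \ Y` into the rest
  have h2 : ∃ f : {c // c ∈ Q \ Y} → V, Function.Injective f ∧
      ∀ c, f c ∈ (W \ Gm R W Y).filter (fun w => R c.1 w) := by
    rw [← all_card_le_biUnion_card_iff_exists_injective]
    intro s
    set Z := s.map ⟨Subtype.val, Subtype.val_injective⟩ with hZ
    have hZc : Z.card = s.card := card_map _
    have hZQ : Z ⊆ Q \ Y := by
      intro c hc
      obtain ⟨c', _, rfl⟩ := mem_map.1 hc
      exact c'.2
    have h3 := hmin' (Y ∪ Z) (union_subset hYQ (hZQ.trans sdiff_subset))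
    have h4 : (Q \ (Y ∪ Z)).card + Z.card = (Q \ Y).card := by
      have e1 : Q \ (Y ∪ Z) = (Q \ Y) \ Z := by
        ext c
        simp only [mem_sdiff, mem_union]
        tauto
      rw [e1, card_sdiff_add_card_eq_card hZQ]
    have h5 : (Gm R W (Y ∪ Z)).card ≤ (Gm R W Y).card
        + (s.biUnion (fun c => (W \ Gm R W Y).filter (fun w => R c.1 w))).card := by
      refine (card_le_card ?_).trans (card_union_le _ _)
      intro w hw
      obtain ⟨a, c, hc, hcw⟩ := mem_Gm.1 hw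
      by_cases hwY : w ∈ Gm R W Y
      · exact mem_union_left _ hwY
      · rcases mem_union.1 hc with hc | hc
        · exact absurd (mem_Gm.2 ⟨a, c, hc, hcw⟩) hwY
        · obtain ⟨c', hc1, rfl⟩ := mem_map.1 hc
          exact mem_union_right _ (mem_biUnion.2 ⟨c', hc1,
            mem_filter.2 ⟨mem_sdiff.2 ⟨a, hwY⟩, hcw⟩⟩)
    omega
  obtain ⟨f, hf1, hf2⟩ := h1
  obtain ⟨g, hg1, hg2⟩ := h2
  refine ⟨Y, fun w => if h : w ∈ Gm R W Y then f ⟨w, h⟩ else w,
    fun c => if h : c ∈ Q \ Y then g ⟨c, h⟩ else c, hYQ, ?_, ?_, ?_, ?_⟩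
  · intro w hw
    simp only [dif_pos hw]
    have := mem_filter.1 (hf2 ⟨w, hw⟩)
    exact ⟨this.1, this.2⟩
  · intro w hw w' hw' he
    simp only [dif_pos hw, dif_pos hw'] at he
    exact congrArg Subtype.val (hf1 he)
  · intro c hc
    simp only [dif_pos hc]
    obtain ⟨a, b⟩ := mem_filter.1 (hg2 ⟨c, hc⟩)
    exact ⟨(mem_sdiff.1 a).1, (mem_sdiff.1 a).2, b⟩
  · intro c hc c' hc' he
    simp only [dif_pos hc, dif_pos hc'] at he
    exact congrArg Subtype.val (hg1 he)

lemma card_prod_filter (P Q : Finset V) (s : V → V → Prop)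
    [DecidablePred (fun x : V × V => s x.1 x.2)] [∀ c, DecidablePred (fun p => s p c)] :
    ((P ×ˢ Q).filter (fun x => s x.1 x.2)).card = ∑ c ∈ Q, (P.filter (fun p => s p c)).card := by
  rw [card_filter, sum_product_right]
  exact sum_congr rfl fun c _ => (card_filter _ _).symm

lemma card_prod_filter' (P Q : Finset V) (s : V → V → Prop)
    [DecidablePred (fun x : V × V => s x.1 x.2)] [∀ p, DecidablePred (fun c => s p c)] :
    ((P ×ˢ Q).filter (fun x => s x.1 x.2)).card = ∑ p ∈ P, (Q.filter (fun c => s p c)).card := by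
  rw [card_filter, sum_product]
  exact sum_congr rfl fun c _ => (card_filter _ _).symm

/-- **the rectangle inequality (M) of 15401**: two families of rectangles in `P × Q` -/
theorem mut_core (P Q W W' : Finset V) (a b a' b' : V → V → Prop) :
    ∃ K : V → Finset V,
      (∀ p ∈ P, K p ⊆ Q ∪ W') ∧
      (∀ p ∈ P, ∀ w' ∈ W', ∀ c ∈ Q, a' w' p → b' w' c → w' ∈ K p ∨ c ∈ K p) ∧
      ∑ c ∈ Q, min (P.filter (fun p => ∃ w ∈ W, a w p ∧ b w c)).card (W.filter (fun w => b w c)).card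
        + ∑ p ∈ P, (K p).card
        ≤ ((P ×ˢ Q).filter (fun x => (∃ w ∈ W, a w x.1 ∧ b w x.2) ∨
            ∃ w' ∈ W', a' w' x.1 ∧ b' w' x.2)).card
          + ((W ×ˢ W').filter (fun x => ∃ c ∈ Q, b x.1 c ∧ b' x.2 c)).card := by
  obtain ⟨Y, σ, π, hY, hσ, hσi, hπ, hπi⟩ := koenig_split (fun c w' => b' w' c) Q W'
  set R : V → V → Prop := fun c w' => b' w' c with hR
  set Gd : Finset V := (Q \ Y) ∪ (Gm R W' Y).image σ with hGd
  have hGQ : Gd ⊆ Q := by
    refine union_subset sdiff_subset fun c hc => ?_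
    obtain ⟨w, hw, rfl⟩ := mem_image.1 hc
    exact hY (hσ w hw).1
  refine ⟨fun p => (Q.filter (fun c => c ∉ Y ∧ ∃ w' ∈ W', a' w' p ∧ b' w' c)) ∪
    (Gm R W' Y).filter (fun w' => a' w' p), ?_, ?_, ?_⟩
  · intro p _
    refine union_subset ((filter_subset _ _).trans subset_union_left) fun w hw => ?_
    exact mem_union_right _ (mem_Gm.1 (mem_filter.1 hw).1).1
  · intro p _ w' hw' c hc ha hb
    by_cases hcY : c ∈ Y
    · left
      exact mem_union_right _ (mem_filter.2 ⟨mem_Gm.2 ⟨hw', c, hcY, hb⟩, ha⟩)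
    · right
      exact mem_union_left _ (mem_filter.2 ⟨hc, hcY, w', hw', ha, hb⟩)
  · -- the sets `F c`
    have hF : ∀ c, ∃ F : Finset V, F ⊆ P.filter (fun p => ∃ w ∈ W, a w p ∧ b w c) ∧
        F.card = min (P.filter (fun p => ∃ w ∈ W, a w p ∧ b w c)).card
          (W.filter (fun w => b w c)).card := fun c =>
      exists_subset_card_eq (min_le_left _ _)
    choose F hF1 hF2 using hF
    -- columns
    have s1 : ∀ p ∈ P, ((Q.filter (fun c => c ∉ Y ∧ ∃ w' ∈ W', a' w' p ∧ b' w' c)) ∪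
        (Gm R W' Y).filter (fun w' => a' w' p)).card
        ≤ (Q.filter (fun c => c ∈ Gd ∧ ∃ w' ∈ W', a' w' p ∧ b' w' c)).card := by
      intro p _
      refine (card_union_le _ _).trans ?_
      have e1 : ((Gm R W' Y).filter (fun w' => a' w' p)).card
          = (((Gm R W' Y).filter (fun w' => a' w' p)).image σ).card := by
        rw [card_image_of_injOn]
        intro w hw w' hw' he
        exact hσi w (mem_filter.1 hw).1 w' (mem_filter.1 hw').1 he
      rw [e1, ← card_union_of_disjoint]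
      · refine card_le_card (union_subset ?_ ?_)
        · intro c hc
          obtain ⟨c1, c2, c3⟩ := mem_filter.1 hc
          exact mem_filter.2 ⟨c1, mem_union_left _ (mem_sdiff.2 ⟨c1, c2⟩), c3⟩
        · intro c hc
          obtain ⟨w, hw, rfl⟩ := mem_image.1 hc
          obtain ⟨w1, w2⟩ := mem_filter.1 hw
          obtain ⟨w3, w4⟩ := hσ w w1
          exact mem_filter.2 ⟨hY w3, mem_union_right _ (mem_image_of_mem _ w1), w,
            (mem_Gm.1 w1).1, w2, w4⟩
      · rw [disjoint_left]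
        intro c hc hc'
        obtain ⟨c1, c2, c3⟩ := mem_filter.1 hc
        obtain ⟨w, hw, rfl⟩ := mem_image.1 hc'
        exact c2 (hσ w (mem_filter.1 hw).1).1
    have s1' := sum_le_sum s1
    rw [← card_prod_filter' P Q (fun p c => c ∈ Gd ∧ ∃ w' ∈ W', a' w' p ∧ b' w' c)] at s1'
    -- rows
    have s2 : ∑ c ∈ Q, min (P.filter (fun p => ∃ w ∈ W, a w p ∧ b w c)).card
        (W.filter (fun w => b w c)).card
        = ((P ×ˢ Q).filter (fun x => x.1 ∈ F x.2)).card := by
      rw [card_prod_filter P Q (fun p c => p ∈ F c)]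
      refine sum_congr rfl fun c _ => ?_
      rw [← hF2 c]
      congr 1
      ext p
      rw [mem_filter]
      exact ⟨fun h => ⟨(mem_filter.1 (hF1 c h)).1, h⟩, fun h => h.2⟩
    -- union and intersection
    have s3 := card_union_add_card_inter ((P ×ˢ Q).filter (fun x => x.1 ∈ F x.2))
      ((P ×ˢ Q).filter (fun x => x.2 ∈ Gd ∧ ∃ w' ∈ W', a' w' x.1 ∧ b' w' x.2))
    have s4 : ((P ×ˢ Q).filter (fun x => x.1 ∈ F x.2) ∪
        (P ×ˢ Q).filter (fun x => x.2 ∈ Gd ∧ ∃ w' ∈ W', a' w' x.1 ∧ b' w' x.2)).card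
        ≤ ((P ×ˢ Q).filter (fun x => (∃ w ∈ W, a w x.1 ∧ b w x.2) ∨
            ∃ w' ∈ W', a' w' x.1 ∧ b' w' x.2)).card := by
      refine card_le_card (union_subset ?_ ?_)
      · intro x hx
        obtain ⟨x1, x2⟩ := mem_filter.1 hx
        exact mem_filter.2 ⟨x1, Or.inl (mem_filter.1 (hF1 x.2 x2)).2⟩
      · intro x hx
        obtain ⟨x1, x2, x3⟩ := mem_filter.1 hx
        exact mem_filter.2 ⟨x1, Or.inr x3⟩
    have s5 : ((P ×ˢ Q).filter (fun x => x.1 ∈ F x.2) ∩
        (P ×ˢ Q).filter (fun x => x.2 ∈ Gd ∧ ∃ w' ∈ W', a' w' x.1 ∧ b' w' x.2)).card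
        ≤ ((W ×ˢ Gd).filter (fun x => b x.1 x.2)).card := by
      have e1 : ((P ×ˢ Q).filter (fun x => x.1 ∈ F x.2) ∩
          (P ×ˢ Q).filter (fun x => x.2 ∈ Gd ∧ ∃ w' ∈ W', a' w' x.1 ∧ b' w' x.2)).card
          ≤ ((P ×ˢ Gd).filter (fun x => x.1 ∈ F x.2)).card := by
        refine card_le_card fun x hx => ?_
        obtain ⟨x1, x2⟩ := mem_inter.1 hx
        obtain ⟨x3, x4⟩ := mem_filter.1 x1
        obtain ⟨x5, x6, x7⟩ := mem_filter.1 x2
        exact mem_filter.2 ⟨mem_product.2 ⟨(mem_product.1 x3).1, x6⟩, x4⟩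
      refine e1.trans ?_
      rw [card_prod_filter P Gd (fun p c => p ∈ F c), card_prod_filter W Gd (fun w c => b w c)]
      refine sum_le_sum fun c _ => ?_
      refine (card_le_card (t := F c) fun p hp => (mem_filter.1 hp).2).trans ?_
      rw [hF2 c]
      exact min_le_right _ _
    have s6 : ((W ×ˢ Gd).filter (fun x => b x.1 x.2)).card
        ≤ ((W ×ˢ W').filter (fun x => ∃ c ∈ Q, b x.1 c ∧ b' x.2 c)).card := by
      rw [card_prod_filter' W Gd (fun w c => b w c),
        card_prod_filter' W W' (fun w w' => ∃ c ∈ Q, b w c ∧ b' w' c)]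
      refine sum_le_sum fun w _ => ?_
      -- `Gd` is matchable
      have e1 : Gd.filter (fun c => b w c)
          = (Q \ Y).filter (fun c => b w c) ∪
            ((Gm R W' Y).filter (fun w' => b w (σ w'))).image σ := by
        ext c
        simp only [hGd, mem_filter, mem_union, mem_image]
        constructor
        · rintro ⟨h1 | ⟨w', hw', rfl⟩, h2⟩
          · exact Or.inl ⟨h1, h2⟩
          · exact Or.inr ⟨w', ⟨hw', h2⟩, rfl⟩
        · rintro (⟨h1, h2⟩ | ⟨w', ⟨hw', h2⟩, rfl⟩)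
          · exact ⟨Or.inl h1, h2⟩
          · exact ⟨Or.inr ⟨w', hw', rfl⟩, h2⟩
      rw [e1]
      refine (card_union_le _ _).trans ?_
      have e2 : (((Q \ Y).filter (fun c => b w c)).image π).card
          = ((Q \ Y).filter (fun c => b w c)).card := by
        rw [card_image_of_injOn]
        intro c hc c' hc' he
        exact hπi c (mem_filter.1 hc).1 c' (mem_filter.1 hc').1 he
      rw [← e2]
      refine (Nat.add_le_add_left card_image_le _).trans ?_
      rw [← card_union_of_disjoint]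
      · refine card_le_card (union_subset ?_ ?_)
        · intro w' hw'
          obtain ⟨c, hc, rfl⟩ := mem_image.1 hw'
          obtain ⟨c1, c2⟩ := mem_filter.1 hc
          obtain ⟨p1, p2, p3⟩ := hπ c c1
          exact mem_filter.2 ⟨p1, c, (mem_sdiff.1 c1).1, c2, p3⟩
        · intro w' hw'
          obtain ⟨w1, w2⟩ := mem_filter.1 hw'
          obtain ⟨w3, w4⟩ := hσ w' w1
          exact mem_filter.2 ⟨(mem_Gm.1 w1).1, σ w', hY w3, w2, w4⟩
      · rw [disjoint_left]
        intro w' hw' hw''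
        obtain ⟨c, hc, rfl⟩ := mem_image.1 hw'
        exact (hπ c (mem_filter.1 hc).1).2.1 (mem_filter.1 hw'').1
    rw [s2]
    beta_reduce
    omega

end Koenig

section Mut

variable {V : Type*} {G N N' : SimpleGraph V} {H H' P Q : Finset V}

/-- **THE MUTUAL LEMMA** (15401).  `N` on `H ∪ P` is served by `Q`, `N'` on `H' ∪ Q` is served by `P`;
a member of `H` with a partner in `P` and a member of `H'` with the partner `c ∈ Q` which both miss
`c` are adjacent.  Then both cover numbers count with the full price. -/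
theorem SrvBy.mutual (hs : SrvBy G N (H ∪ P) Q) (hs' : SrvBy G N' (H' ∪ Q) P)
    (hP : ∀ u ∈ P, ∀ v ∈ P, ¬ N.Adj u v) (hQ : ∀ u ∈ Q, ∀ v ∈ Q, ¬ N'.Adj u v)
    (hx : ∀ w ∈ H, ∀ w' ∈ H', ∀ c ∈ Q, (∃ p ∈ P, N.Adj w p) → N'.Adj w' c → ¬ G.Adj w c →
      G.Adj w w')
    {β β' : ℕ} (hβ : ∀ K ⊆ H ∪ P, CovN N (H ∪ P) K → β ≤ K.card)
    (hβ' : ∀ K ⊆ H' ∪ Q, CovN N' (H' ∪ Q) K → β' ≤ K.card) :
    β * Q.card + β' * P.card
      ≤ ∑ c ∈ Q, dg G H c + ∑ c ∈ Q, dg G P c + ∑ p ∈ P, dg G H' p + ∑ w ∈ H, dg G H' w := by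
  set W : Finset V := H.filter (fun w => ∃ p ∈ P, N.Adj w p) with hW
  set W' : Finset V := H'.filter (fun w => ∃ c ∈ Q, N'.Adj w c) with hW'
  obtain ⟨b, hb⟩ : ∃ b : V → V → Prop, ∀ w c, b w c ↔ ¬ G.Adj w c := ⟨_, fun _ _ => Iff.rfl⟩
  obtain ⟨a, ha⟩ : ∃ a : V → V → Prop, ∀ w p, a w p ↔ N.Adj w p := ⟨_, fun _ _ => Iff.rfl⟩
  obtain ⟨a', ha'⟩ : ∃ a' : V → V → Prop, ∀ w c, a' w c ↔ N'.Adj w c := ⟨_, fun _ _ => Iff.rfl⟩
  obtain ⟨K, hK1, hK2, hK3⟩ := mut_core P Q W W' a b b a'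
  -- rows
  have s1 : ∀ c ∈ Q, β ≤ dg G H c + min (P.filter (fun p => ∃ w ∈ W, a w p ∧ b w c)).card
      (W.filter (fun w => b w c)).card := by
    intro c hc
    rcases le_total (P.filter (fun p => ∃ w ∈ W, a w p ∧ b w c)).card
      (W.filter (fun w => b w c)).card with h | h
    · rw [min_eq_left h]
      refine (hβ (H.filter (fun v => G.Adj c v) ∪
        P.filter (fun p => ∃ w ∈ W, a w p ∧ b w c))
        (union_subset_union (filter_subset _ _) (filter_subset _ _)) ?_).trans (card_union_le _ _)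
      have key : ∀ p ∈ H ∪ P, ∀ q ∈ H ∪ P, N.Adj p q → p ∈ H → ¬ G.Adj p c →
          p ∈ H.filter (fun v => G.Adj c v) ∪
            P.filter (fun p => ∃ w ∈ W, a w p ∧ b w c) ∨
          q ∈ H.filter (fun v => G.Adj c v) ∪
            P.filter (fun p => ∃ w ∈ W, a w p ∧ b w c) := by
        intro p hp q hq hpq hpH hpc
        right
        rcases mem_union.1 hq with hqH | hqP
        · rcases hs p hp q hq hpq c hc with h1 | h1
          · exact absurd h1 hpc
          · exact mem_union_left _ (mem_filter.2 ⟨hqH, h1.symm⟩)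
        · exact mem_union_right _ (mem_filter.2 ⟨hqP, p, mem_filter.2 ⟨hpH, q, hqP, hpq⟩,
            (ha _ _).2 hpq, (hb _ _).2 hpc⟩)
      intro p hp q hq hpq
      by_cases hpH : p ∈ H
      · by_cases hpc : G.Adj p c
        · exact Or.inl (mem_union_left _ (mem_filter.2 ⟨hpH, hpc.symm⟩))
        · exact key p hp q hq hpq hpH hpc
      · have hpP : p ∈ P := (mem_union.1 hp).resolve_left hpH
        have hqH : q ∈ H := by
          rcases mem_union.1 hq with h1 | h1
          · exact h1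
          · exact absurd hpq (hP p hpP q h1)
        by_cases hqc : G.Adj q c
        · exact Or.inr (mem_union_left _ (mem_filter.2 ⟨hqH, hqc.symm⟩))
        · exact (key q hq p hp hpq.symm hqH hqc).symm
    · rw [min_eq_right h]
      refine (hβ (H.filter (fun v => G.Adj c v) ∪ W.filter (fun w => b w c))
        (union_subset ((filter_subset _ _).trans subset_union_left)
          (((filter_subset _ _).trans (filter_subset _ _)).trans subset_union_left)) ?_).trans
        (card_union_le _ _)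
      have key : ∀ p ∈ H ∪ P, ∀ q ∈ H ∪ P, N.Adj p q → p ∈ H → ¬ G.Adj p c →
          p ∈ H.filter (fun v => G.Adj c v) ∪ W.filter (fun w => b w c) ∨
          q ∈ H.filter (fun v => G.Adj c v) ∪ W.filter (fun w => b w c) := by
        intro p hp q hq hpq hpH hpc
        rcases mem_union.1 hq with hqH | hqP
        · right
          rcases hs p hp q hq hpq c hc with h1 | h1
          · exact absurd h1 hpc
          · exact mem_union_left _ (mem_filter.2 ⟨hqH, h1.symm⟩)
        · left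
          exact mem_union_right _ (mem_filter.2 ⟨mem_filter.2 ⟨hpH, q, hqP, hpq⟩,
            (hb _ _).2 hpc⟩)
      intro p hp q hq hpq
      by_cases hpH : p ∈ H
      · by_cases hpc : G.Adj p c
        · exact Or.inl (mem_union_left _ (mem_filter.2 ⟨hpH, hpc.symm⟩))
        · exact key p hp q hq hpq hpH hpc
      · have hpP : p ∈ P := (mem_union.1 hp).resolve_left hpH
        have hqH : q ∈ H := by
          rcases mem_union.1 hq with h1 | h1
          · exact h1
          · exact absurd hpq (hP p hpP q h1)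
        by_cases hqc : G.Adj q c
        · exact Or.inr (mem_union_left _ (mem_filter.2 ⟨hqH, hqc.symm⟩))
        · exact (key q hq p hp hpq.symm hqH hqc).symm
  -- columns
  have s2 : ∀ p ∈ P, β' ≤ dg G H' p + (K p).card := by
    intro p hp
    refine (hβ' (H'.filter (fun v => G.Adj p v) ∪ K p)
      (union_subset ((filter_subset _ _).trans subset_union_left) ?_) ?_).trans
      (card_union_le _ _)
    · refine (hK1 p hp).trans (union_subset subset_union_right ?_)
      exact (filter_subset _ _).trans subset_union_left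
    · have key : ∀ u ∈ H' ∪ Q, ∀ v ∈ H' ∪ Q, N'.Adj u v → u ∈ H' → ¬ G.Adj u p →
          u ∈ H'.filter (fun v => G.Adj p v) ∪ K p ∨ v ∈ H'.filter (fun v => G.Adj p v) ∪ K p := by
        intro u hu v hv huv huH hup
        by_cases hvH : v ∈ H'
        · right
          rcases hs' u hu v hv huv p hp with h1 | h1
          · exact absurd h1 hup
          · exact mem_union_left _ (mem_filter.2 ⟨hvH, h1.symm⟩)
        · have hvQ : v ∈ Q := (mem_union.1 hv).resolve_left hvH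
          rcases hK2 p hp u (mem_filter.2 ⟨huH, v, hvQ, huv⟩) v hvQ ((hb _ _).2 hup)
              ((ha' _ _).2 huv) with h1 | h1
          · exact Or.inl (mem_union_right _ h1)
          · exact Or.inr (mem_union_right _ h1)
      intro u hu v hv huv
      by_cases huH : u ∈ H'
      · by_cases hup : G.Adj u p
        · exact Or.inl (mem_union_left _ (mem_filter.2 ⟨huH, hup.symm⟩))
        · exact key u hu v hv huv huH hup
      · have huQ : u ∈ Q := (mem_union.1 hu).resolve_left huH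
        have hvH : v ∈ H' := by
          rcases mem_union.1 hv with h1 | h1
          · exact h1
          · exact absurd huv (hQ u huQ v h1)
        by_cases hvp : G.Adj v p
        · exact Or.inr (mem_union_left _ (mem_filter.2 ⟨hvH, hvp.symm⟩))
        · exact (key v hv u hu huv.symm hvH hvp).symm
  -- the cells are edges
  have s3 : ((P ×ˢ Q).filter (fun x => (∃ w ∈ W, a w x.1 ∧ b w x.2) ∨
      ∃ w' ∈ W', b w' x.1 ∧ a' w' x.2)).card ≤ ∑ c ∈ Q, dg G P c := by
    have e1 := card_prod_filter P Q (fun p c => G.Adj c p)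
    have e2 : ∑ c ∈ Q, dg G P c = ((P ×ˢ Q).filter (fun x => G.Adj x.2 x.1)).card := e1.symm
    rw [e2]
    refine card_le_card fun x hx => ?_
    obtain ⟨x1, x2⟩ := mem_filter.1 hx
    obtain ⟨x3, x4⟩ := mem_product.1 x1
    refine mem_filter.2 ⟨x1, ?_⟩
    rcases x2 with ⟨w, hw, h1, h2⟩ | ⟨w, hw, h1, h2⟩
    · rcases hs w (mem_union_left _ (mem_filter.1 hw).1) x.1 (mem_union_right _ x3)
        ((ha _ _).1 h1) x.2 x4 with h3 | h3
      · exact absurd h3 ((hb _ _).1 h2)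
      · exact h3.symm
    · rcases hs' w (mem_union_left _ (mem_filter.1 hw).1) x.2 (mem_union_right _ x4)
        ((ha' _ _).1 h2) x.1 x3 with h3 | h3
      · exact absurd h3 ((hb _ _).1 h1)
      · exact h3
  have s4 : ((W ×ˢ W').filter (fun x => ∃ c ∈ Q, b x.1 c ∧ a' x.2 c)).card
      ≤ ∑ w ∈ H, dg G H' w := by
    have e1 := card_prod_filter' H H' (fun w w' => G.Adj w w')
    have e2 : ∑ w ∈ H, dg G H' w = ((H ×ˢ H').filter (fun x => G.Adj x.1 x.2)).card := e1.symm
    rw [e2]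
    refine card_le_card fun x hx' => ?_
    obtain ⟨x1, c, hc, x2, x5⟩ := mem_filter.1 hx'
    obtain ⟨x3, x4⟩ := mem_product.1 x1
    obtain ⟨y1, y2⟩ := mem_filter.1 x3
    obtain ⟨y3, y4⟩ := mem_filter.1 x4
    exact mem_filter.2 ⟨mem_product.2 ⟨y1, y3⟩, hx x.1 y1 x.2 y3 c hc y2
      ((ha' _ _).1 x5) ((hb _ _).1 x2)⟩
  have t1 := sum_le_sum s1
  have t2 := sum_le_sum s2
  rw [sum_const, smul_eq_mul, sum_add_distrib] at t1 t2
  rw [mul_comm β, mul_comm β']
  omega

/-- the mutual lemma with minimum covers `K`, `K'` and the edges of `N`, `N'` (signed degree terms) -/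
theorem SrvBy.mutual_E (hs : SrvBy G N (H ∪ P) Q) (hs' : SrvBy G N' (H' ∪ Q) P)
    (hP : ∀ u ∈ P, ∀ v ∈ P, ¬ N.Adj u v) (hQ : ∀ u ∈ Q, ∀ v ∈ Q, ¬ N'.Adj u v)
    (hx : ∀ w ∈ H, ∀ w' ∈ H', ∀ c ∈ Q, (∃ p ∈ P, N.Adj w p) → N'.Adj w' c → ¬ G.Adj w c →
      G.Adj w w')
    {K K' : Finset V} (hK : K ⊆ H ∪ P) (hc : CovN N (H ∪ P) K)
    (hmin : ∀ L ⊆ H ∪ P, CovN N (H ∪ P) L → K.card ≤ L.card)
    (hK' : K' ⊆ H' ∪ Q) (hc' : CovN N' (H' ∪ Q) K')
    (hmin' : ∀ L ⊆ H' ∪ Q, CovN N' (H' ∪ Q) L → K'.card ≤ L.card) (h h' : ℤ) :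
    ((E N (H ∪ P) : ℤ) + E N K + 2 * K.card * ((Q.card : ℤ) - h)
        + 2 * ∑ v ∈ K, (h - dg N (H ∪ P) v))
      + ((E N' (H' ∪ Q) : ℤ) + E N' K' + 2 * K'.card * ((P.card : ℤ) - h')
        + 2 * ∑ v ∈ K', (h' - dg N' (H' ∪ Q) v))
      ≤ 2 * (∑ c ∈ Q, (dg G H c : ℤ) + ∑ c ∈ Q, (dg G P c : ℤ) + ∑ p ∈ P, (dg G H' p : ℤ)
        + ∑ w ∈ H, (dg G H' w : ℤ)) := by
  have h1 : ((K.card * Q.card + K'.card * P.card : ℕ) : ℤ)
      ≤ ((∑ c ∈ Q, dg G H c + ∑ c ∈ Q, dg G P c + ∑ p ∈ P, dg G H' p + ∑ w ∈ H, dg G H' w : ℕ) : ℤ) := by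
    exact_mod_cast hs.mutual hs' hP hQ hx hmin hmin'
  have h2 : ((E N (H ∪ P) + E N K : ℕ) : ℤ) = ((2 * ∑ v ∈ K, dg N (H ∪ P) v : ℕ) : ℤ) := by
    rw [hc.E_eq hK]
  have h3 : ((E N' (H' ∪ Q) + E N' K' : ℕ) : ℤ) = ((2 * ∑ v ∈ K', dg N' (H' ∪ Q) v : ℕ) : ℤ) := by
    rw [hc'.E_eq hK']
  rw [sum_sub_distrib, sum_sub_distrib, sum_const, sum_const, nsmul_eq_mul, nsmul_eq_mul]
  push_cast at h1 h2 h3
  nlinarith

end Mut

section MutFrame

variable {V : Type*} {G N N' : SimpleGraph V} {Z T K K' : Finset V} {hm : V → V} {r m t : ℕ}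

/-- two vertices with the ends `x`, `y` which miss a common point of the row `y` are adjacent -/
lemma PFrame.adj_of_common (h : PFrame G r m t Z T) {x y w w' c : V} (hxy : x ≠ y) (hx : x ∈ T)
    (hy : y ∈ T) (hw : w ∈ BB G Z T) (hw' : w' ∈ BB G Z T) (hwx : x ∈ ends G T w)
    (hwy : y ∈ ends G T w) (hwx' : x ∈ ends G T w') (hwy' : y ∈ ends G T w') (hne : w ≠ w')
    (hc : c ∈ Cl G Z T y) (h1 : ¬ G.Adj w c) (h2 : ¬ G.Adj w' c) : G.Adj w w' := by
  by_contra hcon
  have hI : ({x, y} : Finset V) ⊆ T := by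
    intro v hv
    rcases mem_insert.1 hv with rfl | hv
    · exact hx
    · rw [mem_singleton] at hv
      exact hv ▸ hy
  exact h.no3 hI card_le_two (PFrame.mem_ZI_of_BB hw (ends_eq_pair hw hwx hwy hxy).subset)
    (PFrame.mem_ZI_of_BB hw' (ends_eq_pair hw' hwx' hwy' hxy).subset)
    (h.Cl_sub_ZI' hy (by simp) hc) hne (BB_ne_Cl hw hy hc) (BB_ne_Cl hw' hy hc) hcon h1 h2

/-- **THE MUTUAL LEMMA IN THE FRAME**: `N` missing pairs of the slot `MM x` served at `y`, `N'` missing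
pairs of the slot `MM y` served at `x`; the pairs (member, point of its home row) are served at the
tail of the member. -/
theorem PFrame.mutual (h : PFrame G r m t Z T) (hh : Homes G Z T hm) {x y : V} (hx : x ∈ T)
    (hy : y ∈ T) (hxy : x ≠ y) (hN : N ≤ co G) (hN' : N' ≤ co G)
    (hs : SrvBy G N (MM G Z T hm x) (Cl G Z T y)) (hs' : SrvBy G N' (MM G Z T hm y) (Cl G Z T x))
    (hpc : ∀ w ∈ Ph G Z T hm x, ∀ p ∈ Cl G Z T x, N.Adj w p → y ∈ ends G T w)
    (hpc' : ∀ w ∈ Ph G Z T hm y, ∀ p ∈ Cl G Z T y, N'.Adj w p → x ∈ ends G T w)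
    (hK : K ⊆ MM G Z T hm x) (hc : CovN N (MM G Z T hm x) K)
    (hmin : ∀ L ⊆ MM G Z T hm x, CovN N (MM G Z T hm x) L → K.card ≤ L.card)
    (hK' : K' ⊆ MM G Z T hm y) (hc' : CovN N' (MM G Z T hm y) K')
    (hmin' : ∀ L ⊆ MM G Z T hm y, CovN N' (MM G Z T hm y) L → K'.card ≤ L.card) (g g' : ℤ) :
    ((E N (MM G Z T hm x) : ℤ) + E N K + 2 * K.card * (((Cl G Z T y).card : ℤ) - g)
        + 2 * ∑ v ∈ K, (g - dg N (MM G Z T hm x) v))
      + ((E N' (MM G Z T hm y) : ℤ) + E N' K' + 2 * K'.card * (((Cl G Z T x).card : ℤ) - g')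
        + 2 * ∑ v ∈ K', (g' - dg N' (MM G Z T hm y) v))
      ≤ 2 * (∑ c ∈ Cl G Z T y, (dg G (Ph G Z T hm x) c : ℤ)
        + ∑ c ∈ Cl G Z T y, (dg G (Cl G Z T x) c : ℤ) + ∑ p ∈ Cl G Z T x, (dg G (Ph G Z T hm y) p : ℤ)
        + ∑ w ∈ Ph G Z T hm x, (dg G (Ph G Z T hm y) w : ℤ)) := by
  have e1 : MM G Z T hm x = Ph G Z T hm x ∪ Cl G Z T x := union_comm _ _
  have e2 : MM G Z T hm y = Ph G Z T hm y ∪ Cl G Z T y := union_comm _ _
  rw [e1] at hs hK hc hmin ⊢
  rw [e2] at hs' hK' hc' hmin' ⊢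
  have hcl : ∀ z ∈ T, ∀ M : SimpleGraph V, M ≤ co G → ∀ u ∈ Cl G Z T z, ∀ v ∈ Cl G Z T z,
      ¬ M.Adj u v := by
    intro z hz M hM u hu v hv huv
    have h3 := hM huv
    exact h3.2 (h.Cl_clq hz u hu v hv h3.1)
  refine hs.mutual_E hs' (hcl x hx N hN) (hcl y hy N' hN') ?_ hK hc hmin hK' hc' hmin' g g'
  intro w hw w' hw' c hcy hex hwc' hwc
  obtain ⟨p, hp, hwp⟩ := hex
  obtain ⟨a1, a2⟩ := mem_Ph.1 hw
  obtain ⟨b1, b2⟩ := mem_Ph.1 hw'
  have a3 : x ∈ ends G T w := a2 ▸ hh w a1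
  have b3 : y ∈ ends G T w' := b2 ▸ hh w' b1
  refine h.adj_of_common hxy hx hy a1 b1 a3 (hpc w hw p hp hwp) (hpc' w' hw' c hcy hwc') b3 ?_ hcy
    hwc (hN' hwc').2
  rintro rfl
  exact hxy (a2.symm.trans b2)

end MutFrame

end Pool.Agent.Lib.MP_f04ccf_co
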