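import Pool.Agent.Lib.MP_f04ccf_co.M.WgtA
import Pool.Agent.Lib.MP_f04ccf_co.M.LemFC
import Pool.Agent.Lib.MP_f04ccf_co.M.Mut

/-!
MP_f04ccf_co: closed systems are instances of `WSys` (note 15836 of helper24).  `CSys.wsys`: the slots
of a closed system with its centres.  `Clo.csys`: a closing set for the rows `B` gives a closed system
on `B`.  `MSys.clo`, `MSys.clo_val`: the value of the rows `B` of a minimal closed system is at most
the size of every closing set.
-/

set_option autoImplicit false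

namespace Pool.Agent.Lib.MP_f04ccf_co

open Finset

attribute [local instance] Classical.propDecidable

section WgtS

variable {V : Type*} {G : SimpleGraph V} {Z T : Finset V} {hm : V → V} {r m t : ℕ}
  {A : Finset V} {S : V → Finset V}

/-- the first alternative of `closed` for the class parts -/
lemma srv_CP {y p q : V} (h1 : ∀ c ∈ S y, c ∈ Cl G Z T y → G.Adj p c ∨ G.Adj q c) :
    ∀ c ∈ CP G Z T S y, G.Adj c p ∨ G.Adj c q := by
  intro c hc
  obtain ⟨h2, h3⟩ := mem_CP.1 hc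
  rcases h1 c h2 h3 with h4 | h4
  · exact Or.inl h4.symm
  · exact Or.inr h4.symm

/-- **a closed system with its centres is a `WSys`** -/
theorem CSys.wsys (hF : PFrame G r m t Z T) (hh : Homes G Z T hm) (h : CSys G Z T hm A S)
    (hctr : ∀ y ∈ A, y ∈ S y) :
    WSys G (co G) A (CP G Z T S) (HP G Z T S) (tlo G T hm) := by
  have hmx : ∀ x ∈ A, ∀ v ∈ HP G Z T S x, hm v = x := fun x hx v hv =>
    (mem_Ph.1 (h.HP_Ph hx hv)).2
  have hBB : ∀ x ∈ A, ∀ v ∈ HP G Z T S x, v ∈ BB G Z T := fun x hx v hv =>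
    (mem_Ph.1 (h.HP_Ph hx hv)).1
  refine ⟨fun x hx => ⟨x, mem_CP.2 ⟨hctr x hx, hF.self_mem_Cl (h.sub hx)⟩⟩,
    fun x hx y hy => (h.dCH hy hx).symm, fun x hx y hy hxy => h.dHP hx hy hxy,
    fun x hx y hy hxy => h.dCP hx hy hxy, fun p q hpq => (co_adj.1 hpq).2,
    fun x hx a ha b hb => h.CP_co hF hx a ha b hb,
    fun x hx v hv a ha hva => h.pc_tail hF hh hctr hx hv ha hva, ?_, ?_, ?_, ?_⟩
  · intro x hx p hp q hq hpq
    rcases h.closed x hx p (mem_HP.1 hp).1 q (mem_HP.1 hq).1 hpq with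
      ⟨y, hy, h1⟩ | ⟨y, hy, z, hz, hyz, he, he'⟩
    · exact Or.inl ⟨y, hy, srv_CP h1⟩
    · right
      rw [tlo_eq he (hmx x hx p hp) (ne_of_mem_erase hy).symm,
        tlo_eq he' (hmx x hx q hq) (ne_of_mem_erase hz).symm]
      exact ⟨hy, hz, hyz⟩
  · intro x hx p hp q hq hpq hy hz hyz c hc d hd n1 n2 n3 n4
    obtain ⟨-, he⟩ := h.ends_of_tlo hh hx hp rfl
    obtain ⟨-, he'⟩ := h.ends_of_tlo hh hx hq rfl
    exact hF.half (h.sub (mem_of_mem_erase hy)) (h.sub (mem_of_mem_erase hz)) hyz (h.sub hx)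
      (hBB x hx p hp) he (hBB x hx q hq) he' (co_adj.1 hpq).1 (co_adj.1 hpq).2 (mem_CP.1 hc).2
      (mem_CP.1 hd).2 (fun h' => n1 h'.symm) (fun h' => n2 h'.symm) (fun h' => n3 h'.symm)
      (fun h' => n4 h'.symm)
  · intro x hx y hy hxy v hv hvy w hw hwx c hc n1 n2
    obtain ⟨-, he⟩ := h.ends_of_tlo hh hx hv hvy
    obtain ⟨-, he'⟩ := h.ends_of_tlo hh hy hw hwx
    refine hF.adj_of_common hxy (h.sub hx) (h.sub hy) (hBB y hy w hw) (hBB x hx v hv)
      (by rw [he']; simp) (by rw [he']; simp) (by rw [he]; simp) (by rw [he]; simp) ?_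
      (mem_CP.1 hc).2 (fun h' => n2 h'.symm) (fun h' => n1 h'.symm)
    rintro rfl
    exact disjoint_left.1 (h.dHP hx hy hxy) hv hw
  · intro x hx y hy z hz hxy hxz hyz p hp q hq hpq hpy hqz w hw hwz a ha n0 n1 n2
    by_contra hcon
    push Not at hcon
    obtain ⟨-, he⟩ := h.ends_of_tlo hh hx hp hpy
    obtain ⟨-, he'⟩ := h.ends_of_tlo hh hx hq hqz
    obtain ⟨-, he''⟩ := h.ends_of_tlo hh hy hw hwz
    have hI : ({x, y, z} : Finset V) ⊆ T := by
      intro v hv
      simp only [mem_insert, mem_singleton] at hv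
      rcases hv with rfl | rfl | rfl
      · exact h.sub hx
      · exact h.sub hy
      · exact h.sub hz
    refine hF.no4 hI card_le_three
      (PFrame.mem_ZI_of_BB (hBB y hy w hw)
        (by rw [he'']; intro v; simp only [mem_insert, mem_singleton]; tauto))
      (PFrame.mem_ZI_of_BB (hBB x hx p hp)
        (by rw [he]; intro v; simp only [mem_insert, mem_singleton]; tauto))
      (PFrame.mem_ZI_of_BB (hBB x hx q hq)
        (by rw [he']; intro v; simp only [mem_insert, mem_singleton]; tauto))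
      (hF.Cl_sub_ZI' (h.sub hy) (by simp) (mem_CP.1 ha).2) ?_ ?_ (co_adj.1 hpq).1
      (BB_ne_Cl (hBB y hy w hw) (h.sub hy) (mem_CP.1 ha).2)
      (BB_ne_Cl (hBB x hx p hp) (h.sub hy) (mem_CP.1 ha).2)
      (BB_ne_Cl (hBB x hx q hq) (h.sub hy) (mem_CP.1 ha).2) hcon.1 hcon.2 (co_adj.1 hpq).2
      (fun h' => n0 h'.symm) (fun h' => n1 h'.symm) (fun h' => n2 h'.symm)
    · rintro rfl
      exact disjoint_left.1 (h.dHP hx hy hxy) hp hw
    · rintro rfl
      exact disjoint_left.1 (h.dHP hx hy hxy) hq hw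

/-- **a closing set for the rows `B` gives a closed system on `B`** -/
theorem Clo.csys (hh : Homes G Z T hm) (h : CSys G Z T hm A S) {B D : Finset V} (hB : B ⊆ A)
    (hD : Clo G (co G) (CP G Z T S) (HP G Z T S) (tlo G T hm) B D) :
    CSys G Z T hm B (fun x => S x \ D) := by
  refine ⟨hB.trans h.sub, fun x hx => sdiff_subset.trans (h.slot x (hB hx)),
    fun x hx p hp q hq hpq => ?_⟩
  obtain ⟨hp1, hp2⟩ := mem_sdiff.1 hp
  obtain ⟨hq1, hq2⟩ := mem_sdiff.1 hq
  have hin : ∀ v ∈ S x, v ∈ HP G Z T S x ∪ CP G Z T S x := by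
    intro v hv
    rw [union_comm, CP_union_HP]
    exact hv
  rcases hD x hx p (hin p hp1) q (hin q hq1) hpq hp2 hq2 with ⟨y, hy, h1⟩ | ⟨h1, h2, h3, h4, h5⟩
  · refine Or.inl ⟨y, hy, fun c hc hcC => ?_⟩
    obtain ⟨c1, c2⟩ := mem_sdiff.1 hc
    rcases h1 c (mem_CP.2 ⟨c1, hcC⟩) c2 with h2 | h2
    · exact Or.inl h2.symm
    · exact Or.inr h2.symm
  · obtain ⟨-, he⟩ := h.ends_of_tlo hh (hB hx) h1 rfl
    obtain ⟨-, he'⟩ := h.ends_of_tlo hh (hB hx) h2 rfl
    exact Or.inr ⟨_, h3, _, h4, h5, he, he'⟩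

/-- **the value of the rows `B` of a minimal closed system and closing sets** -/
theorem MSys.clo (hh : Homes G Z T hm) (h : MSys G Z T hm r A S) {B D : Finset V} (hB : B ⊂ A)
    (hD : Clo G (co G) (CP G Z T S) (HP G Z T S) (tlo G T hm) B D) :
    ∑ x ∈ B, (S x).card ≤ B.card * r + ∑ x ∈ B, (S x ∩ D).card := by
  have h1 := h.min B _ (hD.csys hh h.toCSys hB.1) (card_lt_card hB)
  have h2 : ∑ x ∈ B, (S x).card = ∑ x ∈ B, (S x \ D).card + ∑ x ∈ B, (S x ∩ D).card := by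
    rw [← sum_add_distrib]
    refine sum_congr rfl fun x _ => ?_
    rw [card_sdiff_add_card_inter]
  omega

/-- **the same with the size of the closing set** -/
theorem MSys.clo_val (hh : Homes G Z T hm) (h : MSys G Z T hm r A S) {B D : Finset V}
    (hB : B ⊂ A) (hD : Clo G (co G) (CP G Z T S) (HP G Z T S) (tlo G T hm) B D) :
    ∑ x ∈ B, (((S x).card : ℚ) - r) ≤ D.card := by
  have h1 := h.clo hh hB hD
  have h2 : ∑ x ∈ B, (S x ∩ D).card ≤ D.card := by
    rw [← card_biUnion fun x hx y hy hxy =>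
      (h.toCSys.disj (hB.1 hx) (hB.1 hy) hxy).mono inter_subset_left inter_subset_left]
    refine card_le_card fun v hv => ?_
    obtain ⟨x, -, hv'⟩ := mem_biUnion.1 hv
    exact (mem_inter.1 hv').2
  have h3 : ∑ x ∈ B, (S x).card ≤ B.card * r + D.card := h1.trans (Nat.add_le_add_left h2 _)
  rw [sum_sub_distrib, sum_const, nsmul_eq_mul]
  have h4 : ((∑ x ∈ B, (S x).card : ℕ) : ℚ) ≤ ((B.card * r + D.card : ℕ) : ℚ) := by
    exact_mod_cast h3
  push_cast at h4
  linarith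

end WgtS

end Pool.Agent.Lib.MP_f04ccf_co
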