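import Pool.Agent.Lib.MP_f04ccf_co.M.Tail
import Pool.Agent.Lib.MP_f04ccf_co.M.WgtS

/-!
MP_f04ccf_co, note 16516: the doubles of one cell and the counts between two units of one host.
`CellD G C D I`: `C`, `D` are the class parts of two rows, `I` doubles of the two rows: the missed points
of a double in `C` and in `D` are complete to each other, two doubles which miss a common point are
adjacent.  `CSys.cellD`: the doubles of the rows `x`, `y` form such a cell, whatever their homes are.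
`HostU`: members with tails and class points of one host.  `HostU.mem_unit`: a member and a unit
`w`, `a`: at most one missing pair or arc.  `HostU.pc_pc`, `HostU.pp_pc`: two units.
-/

set_option autoImplicit false

namespace Pool.Agent.Lib.MP_f04ccf_co

open Finset

attribute [local instance] Classical.propDecidable

section Cell

variable {V : Type*} {G : SimpleGraph V}

variable (G) in
/-- the doubles `I` of two class parts `C`, `D` -/
structure CellD (C D I : Finset V) : Prop where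
  nC : ∀ v ∈ I, v ∉ C
  nD : ∀ v ∈ I, v ∉ D
  rect : ∀ v ∈ I, ∀ a ∈ C, ∀ c ∈ D, ¬ G.Adj v a → ¬ G.Adj v c → G.Adj a c
  comC : ∀ v ∈ I, ∀ w ∈ I, v ≠ w → ∀ a ∈ C, ¬ G.Adj v a → ¬ G.Adj w a → G.Adj v w
  comD : ∀ v ∈ I, ∀ w ∈ I, v ≠ w → ∀ c ∈ D, ¬ G.Adj v c → ¬ G.Adj w c → G.Adj v w

variable {C D I : Finset V}

lemma CellD.symm (h : CellD G C D I) : CellD G D C I :=
  ⟨h.nD, h.nC, fun v hv c hc a ha h1 h2 => (h.rect v hv a ha c hc h2 h1).symm, h.comD, h.comC⟩

lemma CellD.mono (h : CellD G C D I) {I' : Finset V} (hI : I' ⊆ I) : CellD G C D I' :=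
  ⟨fun v hv => h.nC v (hI hv), fun v hv => h.nD v (hI hv), fun v hv => h.rect v (hI hv),
    fun v hv w hw => h.comC v (hI hv) w (hI hw), fun v hv w hw => h.comD v (hI hv) w (hI hw)⟩

/-- the missed points, in the form `msd` -/
lemma CellD.mem_msd (h : CellD G C D I) {v a : V} (hv : v ∈ I) :
    a ∈ msd G C v ↔ a ∈ C ∧ ¬ G.Adj v a := by
  unfold msd
  rw [mem_filter]
  exact ⟨fun h1 => ⟨h1.1, h1.2.2⟩, fun h1 => ⟨h1.1, fun h2 => h.nC v hv (h2 ▸ h1.1), h1.2⟩⟩

/-- doubles which are not adjacent miss different class points on both sides -/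
lemma CellD.disj (h : CellD G C D I) {v w : V} (hv : v ∈ I) (hw : w ∈ I) (hne : v ≠ w)
    (hvw : ¬ G.Adj v w) : Disjoint (msd G C v) (msd G C w) ∧ Disjoint (msd G D v) (msd G D w) := by
  constructor
  · rw [disjoint_left]
    intro a ha ha'
    have h1 := (h.mem_msd hv).1 ha
    have h2 := (h.mem_msd hw).1 ha'
    exact hvw (h.comC v hv w hw hne a h1.1 h1.2 h2.2)
  · rw [disjoint_left]
    intro a ha ha'
    have h1 := (h.symm.mem_msd hv).1 ha
    have h2 := (h.symm.mem_msd hw).1 ha'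
    exact hvw (h.comD v hv w hw hne a h1.1 h1.2 h2.2)

/-- the union of the rectangles consists of class edges -/
lemma CellD.cells (h : CellD G C D I) :
    ((I.biUnion fun v => msd G C v ×ˢ msd G D v).card : ℤ) ≤ ∑ a ∈ C, (dg G D a : ℤ) := by
  have h1 := cells_ge (G := G) (C := C) (D := D) (U := I.biUnion fun v => msd G C v ×ˢ msd G D v)
    (fun p hp => by
      obtain ⟨v, hv, hp⟩ := mem_biUnion.1 hp
      obtain ⟨h1, h2⟩ := mem_product.1 hp
      have h3 := (h.mem_msd hv).1 h1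
      have h4 := (h.symm.mem_msd hv).1 h2
      exact ⟨h3.1, h4.1, h.rect v hv _ h3.1 _ h4.1 h3.2 h4.2⟩)
  exact_mod_cast h1

end Cell

section Frame

variable {V : Type*} {G : SimpleGraph V} {Z T : Finset V} {hm : V → V} {r m t : ℕ}
  {A : Finset V} {S : V → Finset V}

/-- the doubles with the ends `x`, `y` -/
noncomputable def Dbl (G : SimpleGraph V) (Z T : Finset V) (x y : V) : Finset V :=
  (BB G Z T).filter fun v => ends G T v = {x, y}

lemma mem_Dbl {x y v : V} : v ∈ Dbl G Z T x y ↔ v ∈ BB G Z T ∧ ends G T v = {x, y} := mem_filter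

lemma Dbl_comm (x y : V) : Dbl G Z T x y = Dbl G Z T y x := by
  unfold Dbl
  rw [pair_comm]

/-- **the cell of two rows**, any homes -/
theorem PFrame.cellD (hF : PFrame G r m t Z T) {x y : V} (hx : x ∈ T) (hy : y ∈ T)
    (hxy : x ≠ y) : CellD G (Cl G Z T x) (Cl G Z T y) (Dbl G Z T x y) := by
  have hC : ∀ z ∈ T, ∀ v ∈ Dbl G Z T x y, v ∉ Cl G Z T z := fun z hz v hv h1 =>
    BB_ne_Cl (mem_Dbl.1 hv).1 hz h1 rfl
  refine ⟨hC x hx, hC y hy, ?_, ?_, ?_⟩
  · intro v hv a ha c hc h1 h2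
    obtain ⟨hv1, hv2⟩ := mem_Dbl.1 hv
    rcases hF.srv_PC hx hy hxy hv1 hv2 ha h1 hc with h3 | h3
    · exact absurd h3 h2
    · exact h3
  · intro v hv w hw hne a ha h1 h2
    obtain ⟨hv1, hv2⟩ := mem_Dbl.1 hv
    obtain ⟨hw1, hw2⟩ := mem_Dbl.1 hw
    exact hF.adj_of_common hxy.symm hy hx hv1 hw1 (by rw [hv2]; simp) (by rw [hv2]; simp)
      (by rw [hw2]; simp) (by rw [hw2]; simp) hne ha h1 h2
  · intro v hv w hw hne c hc h1 h2
    obtain ⟨hv1, hv2⟩ := mem_Dbl.1 hv
    obtain ⟨hw1, hw2⟩ := mem_Dbl.1 hw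
    exact hF.adj_of_common hxy hx hy hv1 hw1 (by rw [hv2]; simp) (by rw [hv2]; simp)
      (by rw [hw2]; simp) (by rw [hw2]; simp) hne hc h1 h2

lemma CellD.sub {C D C' D' I : Finset V} (h : CellD G C D I) (hC : C' ⊆ C) (hD : D' ⊆ D) :
    CellD G C' D' I :=
  ⟨fun v hv h1 => h.nC v hv (hC h1), fun v hv h1 => h.nD v hv (hD h1),
    fun v hv a ha c hc => h.rect v hv a (hC ha) c (hD hc),
    fun v hv w hw hne a ha => h.comC v hv w hw hne a (hC ha),
    fun v hv w hw hne a ha => h.comD v hv w hw hne a (hD ha)⟩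

/-- the cell of two rows of a system -/
theorem CSys.cellD (hF : PFrame G r m t Z T) (h : CSys G Z T hm A S) {x y : V} (hx : x ∈ A)
    (hy : y ∈ A) (hxy : x ≠ y) :
    CellD G (CP G Z T S x) (CP G Z T S y) (Dbl G Z T x y) :=
  (hF.cellD (h.sub hx) (h.sub hy) hxy).sub (fun _ hv => (mem_CP.1 hv).2)
    (fun _ hv => (mem_CP.1 hv).2)

/-- members of the host `x` with tail `y` are doubles of the cell -/
lemma CSys.mem_Dbl_of_tlo (hh : Homes G Z T hm) (h : CSys G Z T hm A S) {x y v : V} (hx : x ∈ A)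
    (hv : v ∈ HP G Z T S x) (hy : tlo G T hm v = y) : v ∈ Dbl G Z T x y := by
  obtain ⟨-, he⟩ := h.ends_of_tlo hh hx hv hy
  exact mem_Dbl.2 ⟨(mem_Ph.1 (h.HP_Ph hx hv)).1, he⟩

end Frame

section Units

variable {ι V : Type*} {G F : SimpleGraph V}

variable (F) in
/-- members `H` with tails and class points `C` of one host: no missing pair inside `C`; two members of
one tail which are a missing pair have no common missed class point -/
structure HostU (C H : Finset V) (tl : V → ι) : Prop where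
  CC : ∀ a ∈ C, ∀ b ∈ C, ¬ F.Adj a b
  HC : Disjoint H C
  com : ∀ v ∈ H, ∀ w ∈ H, tl v = tl w → F.Adj v w → ∀ a ∈ C, F.Adj v a → ¬ F.Adj w a

variable {C H : Finset V} {tl : V → ι}

variable (F) in
/-- missing pair, as a number -/
noncomputable def ump (v w : V) : ℕ := if F.Adj v w then 1 else 0

variable (F) in
/-- arc from the member `v` to the copy of `a` with tail `y` -/
noncomputable def uarc (tl : V → ι) (v a : V) (y : ι) : ℕ := if F.Adj v a ∧ tl v = y then 1 else 0

lemma ump_le (v w : V) : ump F v w ≤ 1 := by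
  unfold ump
  split_ifs <;> omega

lemma uarc_le (tl : V → ι) (v a : V) (y : ι) : uarc F tl v a y ≤ 1 := by
  unfold uarc
  split_ifs <;> omega

/-- **a member and a unit `w`, `a`**: at most one missing pair or arc -/
lemma HostU.mem_unit (h : HostU F C H tl) {v w a : V} (hv : v ∈ H) (hw : w ∈ H) (ha : a ∈ C)
    (hwa : F.Adj w a) : ump F v w + uarc F tl v a (tl w) ≤ 1 := by
  by_cases h1 : F.Adj v w
  · have h2 : ¬ (F.Adj v a ∧ tl v = tl w) := fun h3 => h.com v hv w hw h3.2 h1 a ha h3.1 hwa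
    unfold uarc
    rw [if_neg h2]
    exact ump_le v w
  · unfold ump
    rw [if_neg h1, zero_add]
    exact uarc_le _ _ _ _

/-- **a member unit and a unit `w`, `a`**: at most two -/
lemma HostU.pp_pc (h : HostU F C H tl) {u v w a : V} (hu : u ∈ H) (hv : v ∈ H) (hw : w ∈ H)
    (ha : a ∈ C) (hwa : F.Adj w a) :
    ump F u w + ump F v w + uarc F tl u a (tl w) + uarc F tl v a (tl w) ≤ 2 := by
  have h1 := h.mem_unit hu hw ha hwa
  have h2 := h.mem_unit hv hw ha hwa
  omega

/-- **two units `w`, `a` and `v`, `b`**: a missing pair, or at most two arcs (one tail) -/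
lemma HostU.pc_pc (h : HostU F C H tl) {v w a b : V} (hv : v ∈ H) (hw : w ∈ H) (ha : a ∈ C)
    (hb : b ∈ C) (hwa : F.Adj w a) (hvb : F.Adj v b) :
    2 * ump F v w + uarc F tl v a (tl w) + uarc F tl w b (tl v) ≤ 2 := by
  have h1 := h.mem_unit hv hw ha hwa
  have h2 := h.mem_unit hw hv hb hvb
  have h3 : ump F w v = ump F v w := by
    unfold ump
    rw [F.adj_comm]
  omega

/-- two units with different tails: no arcs -/
lemma HostU.pc_pc_ne (tl : V → ι) {v w a b : V} (hne : tl v ≠ tl w) :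
    uarc F tl v a (tl w) = 0 ∧ uarc F tl w b (tl v) = 0 := by
  unfold uarc
  rw [if_neg fun h1 => hne h1.2, if_neg fun h1 => hne h1.2.symm]
  exact ⟨rfl, rfl⟩

/-- a clique of the split graph with a copy of `a`, tail `y`, has only one member -/
lemma HostU.clique_copy (h : HostU F C H tl) {Q : Finset V} (hQ : Q ⊆ H)
    (hcl : ∀ v ∈ Q, ∀ w ∈ Q, v ≠ w → F.Adj v w) {a : V} (ha : a ∈ C) {y : ι}
    (hq : ∀ v ∈ Q, F.Adj v a ∧ tl v = y) : Q.card ≤ 1 := by
  rw [card_le_one]
  intro v hv w hw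
  by_contra hne
  exact h.com v (hQ hv) w (hQ hw) ((hq v hv).2.trans (hq w hw).2.symm) (hcl v hv w hw hne) a ha
    (hq v hv).1 (hq w hw).1

end Units

section Host

variable {V : Type*} {G : SimpleGraph V} {Z T : Finset V} {hm : V → V} {r m t : ℕ}
  {A : Finset V} {S : V → Finset V}

/-- the host `x` of a system -/
theorem CSys.hostU (hF : PFrame G r m t Z T) (hh : Homes G Z T hm) (h : CSys G Z T hm A S)
    (hctr : ∀ y ∈ A, y ∈ S y) {x : V} (hx : x ∈ A) :
    HostU (co G) (CP G Z T S x) (HP G Z T S x) (tlo G T hm) := by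
  refine ⟨fun a ha b hb => h.CP_co hF hx a ha b hb, (h.dCH hx hx).symm, ?_⟩
  intro v hv w hw htl hvw a ha hva hwa
  have hW := h.wsys hF hh hctr
  obtain ⟨h1, -⟩ := hW.pc x hx v hv a ha hva
  have hy := mem_of_mem_erase h1
  have hxy : x ≠ tlo G T hm v := (ne_of_mem_erase h1).symm
  have hcell := h.cellD hF hx hy hxy
  have v1 := h.mem_Dbl_of_tlo hh hx hv rfl
  have w1 := h.mem_Dbl_of_tlo hh hx hw htl.symm
  exact (co_adj.1 hvw).2 (hcell.comC v v1 w w1 hvw.ne a ha (co_adj.1 hva).2 (co_adj.1 hwa).2)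

end Host

end Pool.Agent.Lib.MP_f04ccf_co
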