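import Pool.Agent.Lib.MP_f04ccf_co.M.MatQ
import Pool.Agent.Lib.MP_f04ccf_co.M.UnitE

/-!
MP_f04ccf_co, notes 16484, 16515, 16519: the hits of two hosts at each other's rows together with the
payment of the N-types.  `WSys.pair_pay`: `WSys.pair_gen` plus any set of class edges which avoid the
partners of the PC pairs on both sides.  `CellD.pay`: doubles `P` of a cell with at least `kappa`
missed points on both sides and a set `M` of further doubles with partners: `sum kappa` is at most the number of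
missed cells without the partners, plus the adjacent pairs inside `P` and between `P` and `M`.
-/

set_option autoImplicit false

namespace Pool.Agent.Lib.MP_f04ccf_co

open Finset

section Share

/-- every cell is in at most `d i` of the sets `R i` -/
theorem pay_share {ι γ : Type*} [DecidableEq γ] (I : Finset ι) (R : ι → Finset γ) (d : ι → ℕ)
    (h : ∀ i ∈ I, ∀ p ∈ R i, (I.filter (fun j => p ∈ R j)).card ≤ d i) :
    ∑ i ∈ I, ((R i).card : ℚ) / d i ≤ ((I.biUnion R).card : ℚ) := by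
  have h1 : ∀ i ∈ I, ((R i).card : ℚ) / d i
      = ∑ p ∈ I.biUnion R, if p ∈ R i then 1 / (d i : ℚ) else 0 := by
    intro i hi
    rw [← sum_filter, sum_const, nsmul_eq_mul]
    have h2 : (I.biUnion R).filter (fun p => p ∈ R i) = R i := by
      ext p
      rw [mem_filter, mem_biUnion]
      exact ⟨fun h => h.2, fun h => ⟨⟨i, hi, h⟩, h⟩⟩
    rw [h2, mul_one_div]
  rw [sum_congr rfl h1, sum_comm, card_eq_sum_ones, Nat.cast_sum]
  refine sum_le_sum fun p hp => ?_
  rw [← sum_filter]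
  obtain ⟨i, hi, hpi⟩ := mem_biUnion.1 hp
  have hN : 0 < (I.filter (fun j => p ∈ R j)).card := card_pos.2 ⟨i, mem_filter.2 ⟨hi, hpi⟩⟩
  have hN' : (0 : ℚ) < ((I.filter (fun j => p ∈ R j)).card : ℚ) := by exact_mod_cast hN
  have h3 : ∑ j ∈ I.filter (fun j => p ∈ R j), 1 / (d j : ℚ) ≤
      ∑ j ∈ I.filter (fun j => p ∈ R j), 1 / ((I.filter (fun j => p ∈ R j)).card : ℚ) := by
    refine sum_le_sum fun j hj => ?_
    obtain ⟨hj1, hj2⟩ := mem_filter.1 hj
    exact one_div_le_one_div_of_le hN' (by exact_mod_cast h j hj1 p hj2)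
  refine h3.trans ?_
  rw [sum_const, nsmul_eq_mul, mul_one_div, div_self hN'.ne']
  norm_num

end Share

attribute [local instance] Classical.propDecidable

section Pay

variable {ι κ V : Type*} {G F : SimpleGraph V}

/-- **all hits of two hosts at each other's rows, with payment**: any members `P` of `x`, `P'` of `z`,
PC pairs `K` of `x` with tail `z`, `K'` of `z` with tail `x`, and any set `X` of class edges `(a, c)`
with `a` no partner of `K` and `c` no partner of `K'`; of the pairs of two members only those of `K`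
and `K'` are used -/
theorem WSys.pair_pay {A : Finset ι} {C H : ι → Finset V} {tl : V → ι}
    (h : WSys G F A C H tl) {x z : ι} (hx : x ∈ A) (hz : z ∈ A) (hxz : x ≠ z)
    {P P' : Finset V} (hP : P ⊆ H x) (hP' : P' ⊆ H z)
    {K K' : Finset κ} {p q p' q' : κ → V} (hK : Dst K p q) (hK' : Dst K' p' q')
    (hp : ∀ e ∈ K, p e ∈ H x) (hp' : ∀ e ∈ K', p' e ∈ H z)
    (hpP : ∀ e ∈ K, p e ∉ P) (hpP' : ∀ e ∈ K', p' e ∉ P')
    (hq : ∀ e ∈ K, q e ∈ C x ∧ F.Adj (p e) (q e) ∧ tl (p e) = z)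
    (hq' : ∀ e ∈ K', q' e ∈ C z ∧ F.Adj (p' e) (q' e) ∧ tl (p' e) = x)
    {X : Finset (V × V)} (hX : X ⊆ eds G (C x) (C z)) (hXK : ∀ e ∈ X, ∀ u ∈ K, q u ≠ e.1)
    (hXK' : ∀ e ∈ X, ∀ u ∈ K', q' u ≠ e.2) :
    ∑ c ∈ C z, (dg G P c : ℤ) + ∑ c ∈ C x, (dg G P' c : ℤ)
      + ∑ e ∈ K, (((C z).card : ℤ) - (rst G (C z) (p e) (q e)).card)
      + ∑ e ∈ K', (((C x).card : ℤ) - (rst G (C x) (p' e) (q' e)).card) + X.card
      ≤ (eds G (C z) (H x)).card + (eds G (C x) (H z)).card + (eds G (C x) (C z)).card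
        + (eds G (K.image p) (K'.image p')).card := by
  have hm := eds_split (G := G) (C := C z) hK.ip hp hP hpP
  have hm' := eds_split (G := G) (C := C x) hK'.ip hp' hP' hpP'
  -- split the hits of a PC pair
  have hs : ∀ (D : Finset V) (u v : V), (D.card : ℤ) - (rst G D u v).card
      = (D.filter fun c => G.Adj c u).card
        + ((D.filter fun c => ¬ G.Adj c u ∧ G.Adj c v).card : ℤ) := by
    intro D u v
    have h1 := card_filter_add_card_filter_not (s := D) (p := fun c => G.Adj c u)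
    have h2 := card_filter_add_card_filter_not (s := D.filter fun c => ¬ G.Adj c u)
      (p := fun c => G.Adj c v)
    rw [filter_filter, filter_filter] at h2
    have h3 : (D.filter fun c => ¬ G.Adj c u ∧ ¬ G.Adj c v) = rst G D u v := rfl
    rw [h3] at h2
    have h4 : ((D.filter fun c => G.Adj c u).card : ℤ)
        + (D.filter fun c => ¬ G.Adj c u).card = D.card := by exact_mod_cast h1
    have h5 : ((D.filter fun c => ¬ G.Adj c u ∧ G.Adj c v).card : ℤ) + (rst G D u v).card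
        = (D.filter fun c => ¬ G.Adj c u).card := by exact_mod_cast h2
    linarith
  simp only [hs]
  rw [sum_add_distrib, sum_add_distrib]
  -- the class hits
  set X1 : Finset (V × V) := (((C z) ×ˢ K).filter fun ce => ¬ G.Adj ce.1 (p ce.2)
    ∧ G.Adj ce.1 (q ce.2)).image fun ce => (q ce.2, ce.1) with hX1
  set X2 : Finset (V × V) := (((C x) ×ˢ K').filter fun ce => ¬ G.Adj ce.1 (p' ce.2)
    ∧ G.Adj ce.1 (q' ce.2)).image fun ce => (ce.1, q' ce.2) with hX2
  have hcount : ∀ (D : Finset V) (L : Finset κ) (a b : κ → V),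
      ((((D ×ˢ L).filter fun ce => ¬ G.Adj ce.1 (a ce.2) ∧ G.Adj ce.1 (b ce.2)).card : ℕ) : ℤ)
        = ∑ e ∈ L, ((D.filter fun c => ¬ G.Adj c (a e) ∧ G.Adj c (b e)).card : ℤ) := by
    intro D L a b
    have h1 : ((D ×ˢ L).filter fun ce => ¬ G.Adj ce.1 (a ce.2) ∧ G.Adj ce.1 (b ce.2)).card
        = ∑ e ∈ L, (D.filter fun c => ¬ G.Adj c (a e) ∧ G.Adj c (b e)).card := by
      rw [card_filter, sum_product_right]
      refine sum_congr rfl fun e _ => ?_
      rw [card_filter]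
    exact_mod_cast h1
  have hc1 : (X1.card : ℤ) = ∑ e ∈ K, (((C z).filter fun c => ¬ G.Adj c (p e)
      ∧ G.Adj c (q e)).card : ℤ) := by
    rw [← hcount, hX1, card_image_of_injOn]
    rintro ⟨c, e⟩ hce ⟨d, f⟩ hdf hef
    have he : e ∈ K := (mem_product.1 (mem_filter.1 (by exact_mod_cast hce :
      (c, e) ∈ ((C z) ×ˢ K).filter _)).1).2
    have hf : f ∈ K := (mem_product.1 (mem_filter.1 (by exact_mod_cast hdf :
      (d, f) ∈ ((C z) ×ˢ K).filter _)).1).2
    simp only [Prod.mk.injEq] at hef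
    obtain ⟨h5, rfl⟩ := hef
    rw [hK.iq (by exact_mod_cast he) (by exact_mod_cast hf) h5]
  have hc2 : (X2.card : ℤ) = ∑ e ∈ K', (((C x).filter fun c => ¬ G.Adj c (p' e)
      ∧ G.Adj c (q' e)).card : ℤ) := by
    rw [← hcount, hX2, card_image_of_injOn]
    rintro ⟨c, e⟩ hce ⟨d, f⟩ hdf hef
    have he : e ∈ K' := (mem_product.1 (mem_filter.1 (by exact_mod_cast hce :
      (c, e) ∈ ((C x) ×ˢ K').filter _)).1).2
    have hf : f ∈ K' := (mem_product.1 (mem_filter.1 (by exact_mod_cast hdf :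
      (d, f) ∈ ((C x) ×ˢ K').filter _)).1).2
    simp only [Prod.mk.injEq] at hef
    obtain ⟨rfl, h5⟩ := hef
    rw [hK'.iq (by exact_mod_cast he) (by exact_mod_cast hf) h5]
  have hm1 : ∀ e ∈ X1, e.2 ∈ C z ∧ ∃ u ∈ K, q u = e.1 ∧ ¬ G.Adj e.2 (p u) ∧ G.Adj e.2 (q u) := by
    intro e he
    obtain ⟨⟨c, u⟩, h5, rfl⟩ := mem_image.1 he
    obtain ⟨h6, h7, h8⟩ := mem_filter.1 h5
    obtain ⟨h9, h10⟩ := mem_product.1 h6
    exact ⟨h9, u, h10, rfl, h7, h8⟩
  have hm2 : ∀ e ∈ X2, e.1 ∈ C x ∧ ∃ u ∈ K', q' u = e.2 ∧ ¬ G.Adj e.1 (p' u)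
      ∧ G.Adj e.1 (q' u) := by
    intro e he
    obtain ⟨⟨c, u⟩, h5, rfl⟩ := mem_image.1 he
    obtain ⟨h6, h7, h8⟩ := mem_filter.1 h5
    obtain ⟨h9, h10⟩ := mem_product.1 h6
    exact ⟨h9, u, h10, rfl, h7, h8⟩
  have hs1 : X1 ⊆ eds G (C x) (C z) := by
    intro e he
    obtain ⟨a1, u, a2, a3, a4, a5⟩ := hm1 e he
    refine mem_filter.2 ⟨mem_product.2 ⟨?_, a1⟩, ?_⟩
    · rw [← a3]
      exact (hq u a2).1
    · rw [← a3]
      exact a5.symm
  have hs2 : X2 ⊆ eds G (C x) (C z) := by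
    intro e he
    obtain ⟨a1, u, a2, a3, a4, a5⟩ := hm2 e he
    refine mem_filter.2 ⟨mem_product.2 ⟨a1, ?_⟩, ?_⟩
    · rw [← a3]
      exact (hq' u a2).1
    · rw [← a3]
      exact a5
  have hint : (X1 ∩ X2).card ≤ (eds G (K.image p) (K'.image p')).card := by
    have hw : ∀ e ∈ X1 ∩ X2, ∃ f : V × V, f ∈ eds G (K.image p) (K'.image p') ∧
        (∃ u ∈ K, q u = e.1 ∧ p u = f.1) ∧ (∃ u ∈ K', q' u = e.2 ∧ p' u = f.2) := by
      intro e he
      obtain ⟨he1, he2⟩ := mem_inter.1 he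
      obtain ⟨a1, u, a2, a3, a4, a5⟩ := hm1 e he1
      obtain ⟨b1, v, b2, b3, b4, b5⟩ := hm2 e he2
      obtain ⟨r1, r2, r3⟩ := hq _ a2
      obtain ⟨s1, s2, s3⟩ := hq' _ b2
      refine ⟨(p u, p' v), ?_, ⟨u, a2, a3, rfl⟩, ⟨v, b2, b3, rfl⟩⟩
      refine mem_filter.2 ⟨mem_product.2 ⟨mem_image_of_mem p a2, mem_image_of_mem p' b2⟩, ?_⟩
      have h9 : ¬ G.Adj (q' v) (p u) := by
        rw [b3]
        exact a4
      have h10 : ¬ G.Adj (q' v) (p' v) := fun h11 => h.FG _ _ s2 h11.symm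
      exact (h.three x hx z hz hxz (p u) (hp _ a2) r3 (p' v) (hp' _ b2) s3 (q' v) s1 h9 h10).symm
    choose! f hf1 hf2 hf3 using hw
    refine card_le_card_of_injOn f (fun e he => ?_) ?_
    · have := hf1 e (by exact_mod_cast he)
      exact_mod_cast this
    · intro e he e' he' hee
      have he1 : e ∈ X1 ∩ X2 := by exact_mod_cast he
      have he2 : e' ∈ X1 ∩ X2 := by exact_mod_cast he'
      obtain ⟨u, hu, hu1, hu2⟩ := hf2 e he1
      obtain ⟨u', hu', hu1', hu2'⟩ := hf2 e' he2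
      obtain ⟨v, hv, hv1, hv2⟩ := hf3 e he1
      obtain ⟨v', hv', hv1', hv2'⟩ := hf3 e' he2
      have k1 : u = u' := hK.ip (by exact_mod_cast hu) (by exact_mod_cast hu')
        (by rw [hu2, hu2', hee])
      have k2 : v = v' := hK'.ip (by exact_mod_cast hv) (by exact_mod_cast hv')
        (by rw [hv2, hv2', hee])
      refine Prod.ext ?_ ?_
      · rw [← hu1, ← hu1', k1]
      · rw [← hv1, ← hv1', k2]
  have hd3 : Disjoint (X1 ∪ X2) X := by
    rw [disjoint_left]
    intro e he he'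
    rcases mem_union.1 he with he | he
    · obtain ⟨-, u, a2, a3, -⟩ := hm1 e he
      exact hXK e he' u a2 a3
    · obtain ⟨-, u, a2, a3, -⟩ := hm2 e he
      exact hXK' e he' u a2 a3
  have hun : X1.card + X2.card + X.card
      ≤ (eds G (C x) (C z)).card + (eds G (K.image p) (K'.image p')).card := by
    have h5 := card_union_add_card_inter X1 X2
    have h6 := card_le_card (union_subset (union_subset hs1 hs2) hX)
    rw [card_union_of_disjoint hd3] at h6
    omega
  have hun' : (X1.card : ℤ) + X2.card + X.card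
      ≤ (eds G (C x) (C z)).card + (eds G (K.image p) (K'.image p')).card := by
    exact_mod_cast hun
  rw [hc1, hc2] at hun'
  linarith

end Pay

section CellPay

variable {V : Type*} {G : SimpleGraph V} {C D I : Finset V}

/-- the arithmetic of one double -/
private theorem pay_arith {k α β p x y : ℕ} (h1 : k ≤ α + x) (h2 : k ≤ β + y) :
    (k : ℚ) ≤ (α : ℚ) * β / ((p : ℚ) + 1) + (p : ℚ) / 2 + x + y := by
  have hd : (0 : ℚ) < (p : ℚ) + 1 := by positivity
  obtain ⟨m, hm1, hm2, hm3⟩ : ∃ m : ℕ, m ≤ α ∧ m ≤ β ∧ k ≤ m + x + y := by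
    rcases le_total α β with h | h
    · exact ⟨α, le_refl _, h, by omega⟩
    · exact ⟨β, h, le_refl _, by omega⟩
  have e1 : (m : ℚ) * m ≤ (α : ℚ) * β := by
    have : m * m ≤ α * β := Nat.mul_le_mul hm1 hm2
    exact_mod_cast this
  have e2 : (k : ℚ) ≤ m + x + y := by exact_mod_cast hm3
  have e3 : (m : ℚ) ≤ (m : ℚ) * m / ((p : ℚ) + 1) + (p : ℚ) / 2 := by
    rw [← sub_le_iff_le_add, le_div_iff₀ hd]
    rcases Nat.eq_zero_or_pos p with h0 | h0
    · subst h0
      have h3 : (m : ℚ) ≤ (m : ℚ) * m := by exact_mod_cast Nat.le_mul_self m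
      push_cast
      linarith
    · have h3 : (1 : ℚ) ≤ (p : ℚ) := by exact_mod_cast h0
      nlinarith [sq_nonneg (2 * (m : ℚ) - (p + 1))]
  have e4 : (m : ℚ) * m / ((p : ℚ) + 1) ≤ (α : ℚ) * β / ((p : ℚ) + 1) :=
    div_le_div_of_nonneg_right e1 hd.le
  linarith

variable (G) in
/-- the missed cells of the doubles `P` without the partners `Q`, `Q'` -/
noncomputable def fcell (C D P Q Q' : Finset V) : Finset (V × V) :=
  P.biUnion fun v => (msd G C v \ Q) ×ˢ (msd G D v \ Q')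

lemma mem_fcell {P Q Q' : Finset V} {e : V × V} :
    e ∈ fcell G C D P Q Q' ↔ ∃ v ∈ P, (e.1 ∈ msd G C v ∧ e.1 ∉ Q) ∧ e.2 ∈ msd G D v ∧ e.2 ∉ Q' := by
  unfold fcell
  simp only [mem_biUnion, mem_product, mem_sdiff]

/-- **the payment of the doubles `P`**: `M`, `M'` further doubles with partners `f u` in `C` and `g u` in
`D`; at least `κ v` missed points on both sides -/
theorem CellD.pay (h : CellD G C D I) {P M M' : Finset V} (hP : P ⊆ I) (hM : M ⊆ I)
    (hM' : M' ⊆ I) (hPM : Disjoint P M) (hPM' : Disjoint P M') (hMM : Disjoint M M')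
    {f g : V → V} (hf : ∀ u ∈ M, f u ∈ msd G C u)
    (hg : ∀ u ∈ M', g u ∈ msd G D u) {κ : V → ℕ} (hκ : ∀ v ∈ P, κ v ≤ (msd G C v).card)
    (hκ' : ∀ v ∈ P, κ v ≤ (msd G D v).card) :
    2 * ∑ v ∈ P, κ v ≤ 2 * (fcell G C D P (M.image f) (M'.image g)).card + E G P
      + 2 * ∑ v ∈ P, dg G (M ∪ M') v := by
  have hadj : ∀ v ∈ I, ∀ w ∈ I, v ≠ w → ∀ a, (a ∈ msd G C v ∧ a ∈ msd G C w) ∨
      (a ∈ msd G D v ∧ a ∈ msd G D w) → G.Adj v w := by
    intro v hv w hw hne a ha
    by_contra hcon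
    obtain ⟨h1, h2⟩ := h.disj hv hw hne hcon
    rcases ha with ⟨h3, h4⟩ | ⟨h3, h4⟩
    · exact disjoint_left.1 h1 h3 h4
    · exact disjoint_left.1 h2 h3 h4
  obtain ⟨R, hR⟩ : ∃ R : V → Finset (V × V), ∀ v, R v =
      (msd G C v \ M.image f) ×ˢ (msd G D v \ M'.image g) := ⟨_, fun _ => rfl⟩
  have h1 := pay_share P R (fun v => dg G P v + 1) (by
    intro v hv p hp
    refine (card_le_card (t := insert v (P.filter (fun w => G.Adj v w))) ?_).trans ?_
    · intro w hw
      obtain ⟨hw1, hw2⟩ := mem_filter.1 hw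
      rw [mem_insert, mem_filter]
      by_cases hvw : w = v
      · exact Or.inl hvw
      · right
        refine ⟨hw1, ?_⟩
        rw [hR] at hp hw2
        have a1 := (mem_sdiff.1 (mem_product.1 hp).1).1
        have a2 := (mem_sdiff.1 (mem_product.1 hw2).1).1
        exact hadj v (hP hv) w (hP hw1) (fun h' => hvw h'.symm) _ (Or.inl ⟨a1, a2⟩)
    · refine (card_insert_le _ _).trans ?_
      rfl)
  have h2 : P.biUnion R = fcell G C D P (M.image f) (M'.image g) := by
    unfold fcell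
    exact biUnion_congr rfl fun v _ => hR v
  rw [h2] at h1
  have h3 : ∀ v ∈ P, (κ v : ℚ) ≤ ((R v).card : ℚ) / ((dg G P v + 1 : ℕ) : ℚ)
      + (dg G P v : ℚ) / 2 + (dg G (M ∪ M') v : ℚ) := by
    intro v hv
    have c1 : (msd G C v).card ≤ (msd G C v \ M.image f).card + (msd G C v ∩ M.image f).card := by
      rw [card_sdiff_add_card_inter]
    have c2 : (msd G D v).card ≤ (msd G D v \ M'.image g).card + (msd G D v ∩ M'.image g).card := by
      rw [card_sdiff_add_card_inter]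
    have c3 : (msd G C v ∩ M.image f).card + (msd G D v ∩ M'.image g).card
        ≤ dg G (M ∪ M') v := by
      have d1 : (msd G C v ∩ M.image f).card ≤ (M.filter (fun w => G.Adj v w)).card := by
        have : msd G C v ∩ M.image f ⊆ (M.filter (fun w => G.Adj v w)).image f := by
          intro a ha
          obtain ⟨ha1, ha2⟩ := mem_inter.1 ha
          obtain ⟨u, hu, rfl⟩ := mem_image.1 ha2
          refine mem_image.2 ⟨u, mem_filter.2 ⟨hu, ?_⟩, rfl⟩
          exact hadj v (hP hv) u (hM hu) (fun h' => disjoint_left.1 hPM hv (h' ▸ hu)) _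
            (Or.inl ⟨ha1, hf u hu⟩)
        exact (card_le_card this).trans card_image_le
      have d2 : (msd G D v ∩ M'.image g).card ≤ (M'.filter (fun w => G.Adj v w)).card := by
        have : msd G D v ∩ M'.image g ⊆ (M'.filter (fun w => G.Adj v w)).image g := by
          intro a ha
          obtain ⟨ha1, ha2⟩ := mem_inter.1 ha
          obtain ⟨u, hu, rfl⟩ := mem_image.1 ha2
          refine mem_image.2 ⟨u, mem_filter.2 ⟨hu, ?_⟩, rfl⟩
          exact hadj v (hP hv) u (hM' hu) (fun h' => disjoint_left.1 hPM' hv (h' ▸ hu)) _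
            (Or.inr ⟨ha1, hg u hu⟩)
        exact (card_le_card this).trans card_image_le
      have d3 : dg G (M ∪ M') v = (M.filter (fun w => G.Adj v w)).card
          + (M'.filter (fun w => G.Adj v w)).card := by
        unfold dg
        rw [filter_union, card_union_of_disjoint (disjoint_filter_filter hMM)]
      omega
    have c4 := hκ v hv
    have c5 := hκ' v hv
    have e1 := pay_arith (k := κ v) (α := (msd G C v \ M.image f).card)
      (β := (msd G D v \ M'.image g).card) (p := dg G P v)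
      (x := (msd G C v ∩ M.image f).card) (y := (msd G D v ∩ M'.image g).card) (by omega)
      (by omega)
    have e2 : (R v).card = (msd G C v \ M.image f).card * (msd G D v \ M'.image g).card := by
      rw [hR, card_product]
    have e3 : (((msd G C v ∩ M.image f).card : ℕ) : ℚ) + ((msd G D v ∩ M'.image g).card : ℕ)
        ≤ (dg G (M ∪ M') v : ℚ) := by exact_mod_cast c3
    rw [e2]
    push_cast
    linarith
  have h4 := sum_le_sum h3
  rw [sum_add_distrib, sum_add_distrib] at h4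
  have h5 : ∑ v ∈ P, (dg G P v : ℚ) / 2 = (E G P : ℚ) / 2 := by
    unfold E
    rw [← sum_div]
    push_cast
    rfl
  rw [h5] at h4
  have h6 : 2 * ∑ v ∈ P, (κ v : ℚ)
      ≤ 2 * ((fcell G C D P (M.image f) (M'.image g)).card : ℚ) + (E G P : ℚ)
        + 2 * ∑ v ∈ P, (dg G (M ∪ M') v : ℚ) := by linarith
  exact_mod_cast h6

/-- the free cells are class edges which avoid the partners -/
lemma CellD.fcell_sub (h : CellD G C D I) {P Q Q' : Finset V} (hP : P ⊆ I) {e : V × V}
    (he : e ∈ fcell G C D P Q Q') : (e.1 ∈ C ∧ e.2 ∈ D ∧ G.Adj e.1 e.2) ∧ e.1 ∉ Q ∧ e.2 ∉ Q' := by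
  obtain ⟨v, hv, ⟨h1, h2⟩, h3, h4⟩ := mem_fcell.1 he
  have h5 := (h.mem_msd (hP hv)).1 h1
  have h6 := (h.symm.mem_msd (hP hv)).1 h3
  exact ⟨⟨h5.1, h6.1, h.rect v (hP hv) _ h5.1 _ h6.1 h5.2 h6.2⟩, h2, h4⟩

end CellPay

end Pool.Agent.Lib.MP_f04ccf_co
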