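import Pool.Agent.Lib.MP_f04ccf_co.M.MatC
import Pool.Agent.Lib.MP_f04ccf_co.M.PairP

/-!
MP_f04ccf_co, notes 16519, 16568: (pair+) for the item families of `M/MatC`.  `Fam.pair_pay`: all hits
of two hosts at each other's rows, the hits of members outside all items and any set of class edges
which avoid the partners of the PC pairs of the cell.  `CellD.pay2`: the payment of doubles of both
homes.  `Fam.pair_nt`: the class edges and the pairs of members of the two hosts pay the excess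
`kappa` (free missed points at home) of all N-types outside the PC pairs, of both homes, up to the
adjacent pairs of N-types of one home.
-/

set_option autoImplicit false

namespace Pool.Agent.Lib.MP_f04ccf_co

open Finset

attribute [local instance] Classical.propDecidable

section Pay2

variable {V : Type*} {G : SimpleGraph V} {C D I : Finset V}

/-- two doubles with a common missed point are adjacent -/
lemma CellD.adj (h : CellD G C D I) {v w : V} (hv : v ∈ I) (hw : w ∈ I) (hne : v ≠ w) {a : V}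
    (ha : (a ∈ msd G C v ∧ a ∈ msd G C w) ∨ (a ∈ msd G D v ∧ a ∈ msd G D w)) : G.Adj v w := by
  by_contra hcon
  obtain ⟨h1, h2⟩ := h.disj hv hw hne hcon
  rcases ha with ⟨h3, h4⟩ | ⟨h3, h4⟩
  · exact disjoint_left.1 h1 h3 h4
  · exact disjoint_left.1 h2 h3 h4

/-- the partners which are missed by a further double belong to adjacent members -/
lemma CellD.used_le (h : CellD G C D I) {K : Finset (V × V)}
    (hK : ∀ e ∈ K, e.1 ∈ I ∧ e.2 ∈ msd G C e.1)
    (hKi : ∀ e ∈ K, ∀ f ∈ K, e.1 = f.1 → e = f) {v : V} (hv : v ∈ I)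
    (hvK : ∀ e ∈ K, e.1 ≠ v) :
    (msd G C v ∩ K.image Prod.snd).card ≤ dg G (K.image Prod.fst) v := by
  have h1 : msd G C v ∩ K.image Prod.snd ⊆ (K.filter fun e => G.Adj v e.1).image Prod.snd := by
    intro a ha
    obtain ⟨ha1, ha2⟩ := mem_inter.1 ha
    obtain ⟨e, he, rfl⟩ := mem_image.1 ha2
    refine mem_image.2 ⟨e, mem_filter.2 ⟨he, ?_⟩, rfl⟩
    exact h.adj hv (hK e he).1 (fun h2 => hvK e he h2.symm) (Or.inl ⟨ha1, (hK e he).2⟩)
  refine (card_le_card h1).trans (card_image_le.trans ?_)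
  have h2 : (K.filter fun e => G.Adj v e.1).card
      = ((K.filter fun e => G.Adj v e.1).image Prod.fst).card := by
    rw [card_image_of_injOn]
    intro e he f hf hef
    exact hKi e (mem_filter.1 (by exact_mod_cast he :
      e ∈ K.filter fun e => G.Adj v e.1)).1 f (mem_filter.1 (by exact_mod_cast hf :
      f ∈ K.filter fun e => G.Adj v e.1)).1 hef
  rw [h2]
  refine card_le_card fun w hw => ?_
  obtain ⟨e, he, rfl⟩ := mem_image.1 hw
  obtain ⟨he1, he2⟩ := mem_filter.1 he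
  exact mem_filter.2 ⟨mem_image_of_mem _ he1, he2⟩

/-- the arithmetic of one double -/
private theorem pay_arith2 {k α β p x y : ℕ} (h1 : k ≤ α + x) (h2 : k ≤ β + y) :
    (k : ℚ) ≤ (α : ℚ) * β / ((p : ℚ) + 1) + (p : ℚ) / 2 + (x + y) := by
  have hd : (0 : ℚ) < (p : ℚ) + 1 := by positivity
  obtain ⟨m, hm1, hm2, hm3⟩ : ∃ m : ℕ, m ≤ α ∧ m ≤ β ∧ k ≤ m + (x + y) := by
    rcases le_total α β with h | h
    · exact ⟨α, le_refl _, h, by omega⟩
    · exact ⟨β, h, le_refl _, by omega⟩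
  have e1 : (m : ℚ) * m ≤ (α : ℚ) * β := by
    have : m * m ≤ α * β := Nat.mul_le_mul hm1 hm2
    exact_mod_cast this
  have e2 : (k : ℚ) ≤ m + (x + y) := by exact_mod_cast hm3
  have e3 : (m : ℚ) ≤ (m : ℚ) * m / ((p : ℚ) + 1) + (p : ℚ) / 2 := by
    rw [← sub_le_iff_le_add, le_div_iff₀ hd]
    rcases Nat.eq_zero_or_pos p with h0 | h0
    · subst h0
      have h3 : (m : ℚ) ≤ (m : ℚ) * m := by exact_mod_cast Nat.le_mul_self m
      push_cast
      linarith
    · have h3 : (1 : ℚ) ≤ (p : ℚ) := by exact_mod_cast h0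
      nlinarith [sq_nonneg (2 * (m : ℚ) - (p + 1))]
  have e4 : (m : ℚ) * m / ((p : ℚ) + 1) ≤ (α : ℚ) * β / ((p : ℚ) + 1) :=
    div_le_div_of_nonneg_right e1 hd.le
  linarith

/-- **the payment of the doubles of both homes**: `P` of the home `C`, `P'` of the home `D`, `K` the
PC pairs of the home `C`, `K'` of the home `D` -/
theorem CellD.pay2 (h : CellD G C D I) {P P' : Finset V} {K K' : Finset (V × V)} (hP : P ⊆ I)
    (hP' : P' ⊆ I) (hPP : Disjoint P P') (hK : ∀ e ∈ K, e.1 ∈ I ∧ e.2 ∈ msd G C e.1)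
    (hK' : ∀ e ∈ K', e.1 ∈ I ∧ e.2 ∈ msd G D e.1)
    (hKi : ∀ e ∈ K, ∀ f ∈ K, e.1 = f.1 → e = f) (hKi' : ∀ e ∈ K', ∀ f ∈ K', e.1 = f.1 → e = f)
    (hd : ∀ e ∈ K, e.1 ∉ P') (hd' : ∀ e ∈ K', e.1 ∉ P) {κ : V → ℕ}
    (k1 : ∀ v ∈ P, κ v ≤ (msd G C v \ K.image Prod.snd).card)
    (k2 : ∀ v ∈ P, κ v ≤ (msd G D v).card)
    (k3 : ∀ v ∈ P', κ v ≤ (msd G D v \ K'.image Prod.snd).card)
    (k4 : ∀ v ∈ P', κ v ≤ (msd G C v).card) :
    2 * ∑ v ∈ P, κ v + 2 * ∑ v ∈ P', κ v
      ≤ 2 * (fcell G C D (P ∪ P') (K.image Prod.snd) (K'.image Prod.snd)).card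
        + E G (P ∪ P') + 2 * ∑ v ∈ P, dg G (K'.image Prod.fst) v
        + 2 * ∑ v ∈ P', dg G (K.image Prod.fst) v := by
  obtain ⟨R, hR⟩ : ∃ R : V → Finset (V × V), ∀ v, R v =
      (msd G C v \ K.image Prod.snd) ×ˢ (msd G D v \ K'.image Prod.snd) := ⟨_, fun _ => rfl⟩
  have hN : P ∪ P' ⊆ I := union_subset hP hP'
  have h1 := pay_share (P ∪ P') R (fun v => dg G (P ∪ P') v + 1) (by
    intro v hv p hp
    refine (card_le_card
      (t := insert v ((P ∪ P').filter (fun w => G.Adj v w))) ?_).trans ?_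
    · intro w hw
      obtain ⟨hw1, hw2⟩ := mem_filter.1 hw
      rw [mem_insert, mem_filter]
      by_cases hvw : w = v
      · exact Or.inl hvw
      · right
        refine ⟨hw1, ?_⟩
        rw [hR] at hp hw2
        have a1 := (mem_sdiff.1 (mem_product.1 hp).1).1
        have a2 := (mem_sdiff.1 (mem_product.1 hw2).1).1
        exact h.adj (hN hv) (hN hw1) (fun h' => hvw h'.symm) (Or.inl ⟨a1, a2⟩)
    · refine (card_insert_le _ _).trans ?_
      rfl)
  have h2 : (P ∪ P').biUnion R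
      = fcell G C D (P ∪ P') (K.image Prod.snd) (K'.image Prod.snd) := by
    unfold fcell
    exact biUnion_congr rfl fun v _ => hR v
  rw [h2] at h1
  have e2 : ∀ v, (R v).card
      = (msd G C v \ K.image Prod.snd).card * (msd G D v \ K'.image Prod.snd).card := fun v => by
    rw [hR, card_product]
  have h3 : ∀ v ∈ P, (κ v : ℚ) ≤ ((R v).card : ℚ) / ((dg G (P ∪ P') v + 1 : ℕ) : ℚ)
      + (dg G (P ∪ P') v : ℚ) / 2 + (dg G (K'.image Prod.fst) v : ℚ) := by
    intro v hv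
    have c2 : (msd G D v).card ≤ (msd G D v \ K'.image Prod.snd).card
        + (msd G D v ∩ K'.image Prod.snd).card := by rw [card_sdiff_add_card_inter]
    have c3 := h.symm.used_le hK' hKi' (hP hv) fun e he h4 => hd' e he (h4 ▸ hv)
    have c4 := k1 v hv
    have c5 := k2 v hv
    have e1 := pay_arith2 (k := κ v) (α := (msd G C v \ K.image Prod.snd).card)
      (β := (msd G D v \ K'.image Prod.snd).card) (p := dg G (P ∪ P') v) (x := 0)
      (y := dg G (K'.image Prod.fst) v) (by omega) (by omega)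
    rw [e2]
    push_cast
    push_cast at e1
    linarith
  have h4 : ∀ v ∈ P', (κ v : ℚ) ≤ ((R v).card : ℚ) / ((dg G (P ∪ P') v + 1 : ℕ) : ℚ)
      + (dg G (P ∪ P') v : ℚ) / 2 + (dg G (K.image Prod.fst) v : ℚ) := by
    intro v hv
    have c2 : (msd G C v).card ≤ (msd G C v \ K.image Prod.snd).card
        + (msd G C v ∩ K.image Prod.snd).card := by rw [card_sdiff_add_card_inter]
    have c3 := h.used_le hK hKi (hP' hv) fun e he h4 => hd e he (h4 ▸ hv)
    have c4 := k3 v hv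
    have c5 := k4 v hv
    have e1 := pay_arith2 (k := κ v) (α := (msd G C v \ K.image Prod.snd).card)
      (β := (msd G D v \ K'.image Prod.snd).card) (p := dg G (P ∪ P') v)
      (x := dg G (K.image Prod.fst) v) (y := 0) (by omega) (by omega)
    rw [e2]
    push_cast
    push_cast at e1
    linarith
  have h5 := add_le_add (sum_le_sum h3) (sum_le_sum h4)
  rw [sum_add_distrib, sum_add_distrib, sum_add_distrib, sum_add_distrib] at h5
  rw [sum_union hPP] at h1
  have h6 : ∑ v ∈ P, (dg G (P ∪ P') v : ℚ) / 2 + ∑ v ∈ P', (dg G (P ∪ P') v : ℚ) / 2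
      = (E G (P ∪ P') : ℚ) / 2 := by
    unfold E
    rw [← sum_union hPP, ← sum_div]
    push_cast
    rfl
  have h7 : 2 * ∑ v ∈ P, (κ v : ℚ) + 2 * ∑ v ∈ P', (κ v : ℚ)
      ≤ 2 * ((fcell G C D (P ∪ P') (K.image Prod.snd) (K'.image Prod.snd)).card : ℚ)
        + (E G (P ∪ P') : ℚ) + 2 * ∑ v ∈ P, (dg G (K'.image Prod.fst) v : ℚ)
        + 2 * ∑ v ∈ P', (dg G (K.image Prod.fst) v : ℚ) := by linarith
  exact_mod_cast h7

end Pay2

section PairC

variable {V : Type*} {G : SimpleGraph V} {Z T : Finset V} {hm : V → V} {r m t : ℕ}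
  {A : Finset V} {S : V → Finset V} {U : V → Finset (Itm V)}

/-- the PC pairs with tail `z` -/
noncomputable def pcz (tl : V → V) (z : V) (U : Finset (Itm V)) : Finset (V × V) :=
  U.toRight.filter fun e => tl e.1 = z

lemma mem_pcz {tl : V → V} {z : V} {U : Finset (Itm V)} {e : V × V} :
    e ∈ pcz tl z U ↔ Sum.inr e ∈ U ∧ tl e.1 = z := by
  unfold pcz
  rw [mem_filter, mem_toRight]

lemma Fam.pcz_inj {F : SimpleGraph V} {C H : V → Finset V} {tl : V → V} {x z : V}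
    {U : Finset (Itm V)} (h : Fam F C H tl x U) :
    ∀ e ∈ pcz tl z U, ∀ f ∈ pcz tl z U, e.1 = f.1 → e = f := by
  intro e he f hf hef
  have he1 := (mem_pcz.1 he).1
  have hf1 := (mem_pcz.1 hf).1
  by_contra hne
  have h1 : e.1 ∈ imem (Sum.inr e : Itm V) := by simp [imem]
  have h2 : e.1 ∈ imem (Sum.inr f : Itm V) := by
    simp only [imem, mem_singleton]
    exact hef
  exact disjoint_left.1 (h.dis _ he1 _ hf1 fun h1 => hne (Sum.inr_injective h1)) h1 h2

/-- **(pair+)**: all hits of two hosts at each other's rows, the hits of the members `Wx`, `Wz` outside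
all items, and any class edges `X` which avoid the partners of the PC pairs in this cell -/
theorem Fam.pair_raw (hW : WSysT G (co G) A (CP G Z T S) (HP G Z T S) (tlo G T hm))
    (h : ∀ x ∈ A, Fam (co G) (CP G Z T S) (HP G Z T S) (tlo G T hm) x (U x))
    {x z : V} (hx : x ∈ A) (hz : z ∈ A) (hxz : x ≠ z) {Wx Wz : Finset V}
    (hWx : Wx ⊆ HP G Z T S x) (hWz : Wz ⊆ HP G Z T S z)
    (hWxU : ∀ v ∈ Wx, ∀ u ∈ U x, v ∉ imem u) (hWzU : ∀ v ∈ Wz, ∀ u ∈ U z, v ∉ imem u)
    {X : Finset (V × V)} (hX : X ⊆ eds G (CP G Z T S x) (CP G Z T S z))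
    (hXx : ∀ c ∈ X, ∀ e ∈ pcz (tlo G T hm) z (U x), e.2 ≠ c.1)
    (hXz : ∀ c ∈ X, ∀ e ∈ pcz (tlo G T hm) x (U z), e.2 ≠ c.2) :
    ∑ u ∈ U x, iht G (CP G Z T S) (tlo G T hm) z u
      + ∑ u ∈ U z, iht G (CP G Z T S) (tlo G T hm) x u
      + ∑ v ∈ Wx, (dg G (CP G Z T S z) v : ℤ) + ∑ v ∈ Wz, (dg G (CP G Z T S x) v : ℤ) + X.card
      ≤ (eds G (CP G Z T S z) (HP G Z T S x)).card + (eds G (CP G Z T S x) (HP G Z T S z)).card
        + (eds G (CP G Z T S x) (CP G Z T S z)).card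
        + (eds G ((pcz (tlo G T hm) z (U x)).image Prod.fst)
          ((pcz (tlo G T hm) x (U z)).image Prod.fst)).card := by
  have key : ∀ x ∈ A, ∀ z ∈ A, ∀ W : Finset V, W ⊆ HP G Z T S x →
      (∀ v ∈ W, ∀ u ∈ U x, v ∉ imem u) →
      (U x).toLeft.biUnion id ∪ W ⊆ HP G Z T S x ∧
      Dst (pcz (tlo G T hm) z (U x)) Prod.fst Prod.snd ∧
      (∀ e ∈ pcz (tlo G T hm) z (U x), e.1 ∉ (U x).toLeft.biUnion id ∪ W) ∧
      ∑ u ∈ U x, iht G (CP G Z T S) (tlo G T hm) z u + ∑ v ∈ W, (dg G (CP G Z T S z) v : ℤ)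
        ≤ ∑ c ∈ CP G Z T S z, (dg G ((U x).toLeft.biUnion id ∪ W) c : ℤ)
          + ∑ e ∈ pcz (tlo G T hm) z (U x),
            (((CP G Z T S z).card : ℤ) - (rst G (CP G Z T S z) e.1 e.2).card) := by
    intro x hx z hz W hW1 hW2
    have hf := h x hx
    have hdW : Disjoint ((U x).toLeft.biUnion id) W := by
      rw [disjoint_left]
      intro v hv hvW
      obtain ⟨Q, hQ, hvQ⟩ := mem_biUnion.1 hv
      exact hW2 v hvW _ (mem_toLeft.1 hQ) hvQ
    refine ⟨?_, ⟨?_, ?_, ?_⟩, ?_, ?_⟩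
    · intro v hv
      rcases mem_union.1 hv with hv | hv
      · obtain ⟨Q, hQ, hvQ⟩ := mem_biUnion.1 hv
        exact hf.sub Q (mem_toLeft.1 hQ) hvQ
      · exact hW1 hv
    · intro e he f hf' hef
      exact hf.pcz_inj e (by exact_mod_cast he) f (by exact_mod_cast hf') hef
    · intro e he f hf' hef
      obtain ⟨he1, he2⟩ := mem_pcz.1 (by exact_mod_cast he : e ∈ pcz (tlo G T hm) z (U x))
      obtain ⟨hf1, hf2⟩ := mem_pcz.1 (by exact_mod_cast hf' : f ∈ pcz (tlo G T hm) z (U x))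
      by_contra hne
      exact hf.cop e he1 f hf1 hef hne (he2.trans hf2.symm)
    · intro e he f hf'
      have he1 := (mem_pcz.1 he).1
      have hf1 := (mem_pcz.1 hf').1
      intro hef
      exact disjoint_left.1 (hW.dHC x hx x hx) (hf.pcH e he1) (hef ▸ hf.pcC f hf1)
    · intro e he he'
      have he1 := (mem_pcz.1 he).1
      rcases mem_union.1 he' with he' | he'
      · obtain ⟨Q, hQ, hvQ⟩ := mem_biUnion.1 he'
        exact disjoint_left.1 (hf.dis _ (mem_toLeft.1 hQ) _ he1 (by simp)) hvQ (by simp [imem])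
      · exact hW2 _ he' _ he1 (by simp [imem])
    · have hsp : ∑ u ∈ U x, iht G (CP G Z T S) (tlo G T hm) z u
          = ∑ Q ∈ (U x).toLeft, iht G (CP G Z T S) (tlo G T hm) z (Sum.inl Q)
            + ∑ e ∈ (U x).toRight, iht G (CP G Z T S) (tlo G T hm) z (Sum.inr e) := by
        rw [← sum_disjSum, toLeft_disjSum_toRight]
      have hWd : ∑ v ∈ W, (dg G (CP G Z T S z) v : ℤ) = ∑ c ∈ CP G Z T S z, (dg G W c : ℤ) := by
        have := dg_comm G (CP G Z T S z) W
        exact_mod_cast this.symm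
      have hdd : ∀ c, (dg G ((U x).toLeft.biUnion id ∪ W) c : ℤ)
          = (dg G ((U x).toLeft.biUnion id) c : ℤ) + (dg G W c : ℤ) := by
        intro c
        unfold dg
        rw [filter_union, card_union_of_disjoint (disjoint_filter_filter hdW)]
        push_cast
        rfl
      rw [hsp, hWd]
      simp only [hdd]
      rw [sum_add_distrib]
      have hmain : ∑ Q ∈ (U x).toLeft, iht G (CP G Z T S) (tlo G T hm) z (Sum.inl Q)
          ≤ ∑ c ∈ CP G Z T S z, (dg G ((U x).toLeft.biUnion id) c : ℤ) := by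
        have h1 : ∀ c ∈ CP G Z T S z, ∑ Q ∈ (U x).toLeft,
            ((ikp (tlo G T hm) z (Sum.inl Q) : ℤ)
              - if c ∈ icl G (CP G Z T S) (tlo G T hm) z (Sum.inl Q) then 1 else 0)
            ≤ (dg G ((U x).toLeft.biUnion id) c : ℤ) := by
          intro c hc
          have h2 : dg G ((U x).toLeft.biUnion id) c = ∑ Q ∈ (U x).toLeft, dg G Q c := by
            unfold dg
            rw [filter_biUnion, card_biUnion]
            · rfl
            · intro Q hQ Q' hQ' hne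
              exact disjoint_filter_filter (hf.dis _ (mem_toLeft.1 hQ) _ (mem_toLeft.1 hQ')
                fun h3 => hne (Sum.inl_injective h3))
          rw [h2]
          push_cast
          refine sum_le_sum fun Q hQ => ?_
          have h3 := hf.see hW hx (z := z) (X := oth (tlo G T hm) z) (fun _ => subset_rfl)
            (mem_toLeft.1 hQ) hc
          rw [rpts_oth] at h3
          have h4 : icl G (CP G Z T S) (tlo G T hm) z (Sum.inl Q)
            = rcl G (CP G Z T S) (tlo G T hm) (oth (tlo G T hm) z) z (Sum.inl Q) := rfl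
          rw [h4]
          simp only [ipts] at h3
          linarith
        refine le_trans (le_of_eq ?_) (sum_le_sum h1)
        rw [sum_comm]
        refine sum_congr rfl fun Q _ => ?_
        rw [sum_sub_distrib, sum_const, nsmul_eq_mul]
        unfold icl
        rw [sum_rcl]
        rfl
      have hpc : ∑ e ∈ (U x).toRight, iht G (CP G Z T S) (tlo G T hm) z (Sum.inr e)
          ≤ ∑ e ∈ pcz (tlo G T hm) z (U x),
            (((CP G Z T S z).card : ℤ) - (rst G (CP G Z T S z) e.1 e.2).card) := by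
        unfold pcz
        rw [sum_filter]
        refine sum_le_sum fun e he => ?_
        have he1 := mem_toRight.1 he
        by_cases h1 : tlo G T hm e.1 = z
        · have h2 : rst G (CP G Z T S z) e.1 e.2 = ∅ := by
            unfold rst
            rw [filter_eq_empty_iff]
            intro c hc h3
            rcases (hW.pc x hx e.1 (hf.pcH e he1) e.2 (hf.pcC e he1) (hf.pcF e he1)).2 c
              (h1 ▸ hc) with h4 | h4
            · exact h3.1 h4
            · exact h3.2 h4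
          simp only [h1, if_true, h2, card_empty, Nat.cast_zero, sub_zero]
          unfold iht ims icl
          simp only [ikp, rcl, h1, if_true, card_empty, Nat.cast_zero, sub_zero, Nat.cast_one,
            mul_one]
          exact le_refl _
        · simp only [h1, if_false]
          rw [iht_zero (by simp only [ikp, h1, if_false])]
      linarith
  obtain ⟨k1, k2, k3, k4⟩ := key x hx z hz Wx hWx hWxU
  obtain ⟨l1, l2, l3, l4⟩ := key z hz x hx Wz hWz hWzU
  have hq : ∀ x ∈ A, ∀ z ∈ A, ∀ e ∈ pcz (tlo G T hm) z (U x),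
      e.2 ∈ CP G Z T S x ∧ (co G).Adj e.1 e.2 ∧ tlo G T hm e.1 = z := fun x hx z hz e he =>
    ⟨(h x hx).pcC e (mem_pcz.1 he).1, (h x hx).pcF e (mem_pcz.1 he).1, (mem_pcz.1 he).2⟩
  have h1 := hW.toWSys.pair_pay hx hz hxz k1 l1 k2 l2
    (fun e he => (h x hx).pcH e (mem_pcz.1 he).1)
    (fun e he => (h z hz).pcH e (mem_pcz.1 he).1) k3 l3
    (hq x hx z hz) (hq z hz x hx) hX hXx hXz
  linarith

/-- the edges between two slots -/
lemma sum_dg_eds (x z : V) : ∑ v ∈ S z, (dg G (S x) v : ℤ)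
    = (eds G (CP G Z T S z) (HP G Z T S x)).card + (eds G (CP G Z T S x) (HP G Z T S z)).card
      + (eds G (CP G Z T S x) (CP G Z T S z)).card + (eds G (HP G Z T S x) (HP G Z T S z)).card := by
  rw [sum_dg_slots (G := G) (Z := Z) (T := T) (S := S) x z]
  rw [card_eds_eq, card_eds_eq, card_eds_eq, card_eds_eq]
  have h2 : ∑ v ∈ CP G Z T S x, (dg G (CP G Z T S z) v : ℤ)
      = ∑ v ∈ CP G Z T S z, (dg G (CP G Z T S x) v : ℤ) := by
    have := dg_comm G (CP G Z T S z) (CP G Z T S x)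
    exact_mod_cast this.symm
  have h3 : ∑ v ∈ HP G Z T S x, (dg G (HP G Z T S z) v : ℤ)
      = ∑ v ∈ HP G Z T S z, (dg G (HP G Z T S x) v : ℤ) := by
    have := dg_comm G (HP G Z T S z) (HP G Z T S x)
    exact_mod_cast this.symm
  rw [h2, h3]

/-- **(pair+) with free class edges** -/
theorem Fam.pair_pay (hW : WSysT G (co G) A (CP G Z T S) (HP G Z T S) (tlo G T hm))
    (h : ∀ x ∈ A, Fam (co G) (CP G Z T S) (HP G Z T S) (tlo G T hm) x (U x))
    {x z : V} (hx : x ∈ A) (hz : z ∈ A) (hxz : x ≠ z) {Wx Wz : Finset V}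
    (hWx : Wx ⊆ HP G Z T S x) (hWz : Wz ⊆ HP G Z T S z)
    (hWxU : ∀ v ∈ Wx, ∀ u ∈ U x, v ∉ imem u) (hWzU : ∀ v ∈ Wz, ∀ u ∈ U z, v ∉ imem u)
    {X : Finset (V × V)} (hX : X ⊆ eds G (CP G Z T S x) (CP G Z T S z))
    (hXx : ∀ c ∈ X, ∀ e ∈ pcz (tlo G T hm) z (U x), e.2 ≠ c.1)
    (hXz : ∀ c ∈ X, ∀ e ∈ pcz (tlo G T hm) x (U z), e.2 ≠ c.2) :
    ∑ u ∈ U x, iht G (CP G Z T S) (tlo G T hm) z u
      + ∑ u ∈ U z, iht G (CP G Z T S) (tlo G T hm) x u
      + ∑ v ∈ Wx, (dg G (CP G Z T S z) v : ℤ) + ∑ v ∈ Wz, (dg G (CP G Z T S x) v : ℤ) + X.card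
      ≤ ∑ v ∈ S z, (dg G (S x) v : ℤ) := by
  have h1 := Fam.pair_raw hW h hx hz hxz hWx hWz hWxU hWzU hX hXx hXz
  rw [sum_dg_eds (G := G) (Z := Z) (T := T) (S := S) x z]
  have h2 : (eds G ((pcz (tlo G T hm) z (U x)).image Prod.fst)
      ((pcz (tlo G T hm) x (U z)).image Prod.fst)).card
      ≤ (eds G (HP G Z T S x) (HP G Z T S z)).card := by
    refine card_le_card (filter_subset_filter _ (product_subset_product ?_ ?_))
    · intro v hv
      obtain ⟨e, he, rfl⟩ := mem_image.1 hv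
      exact (h x hx).pcH e (mem_pcz.1 he).1
    · intro v hv
      obtain ⟨e, he, rfl⟩ := mem_image.1 hv
      exact (h z hz).pcH e (mem_pcz.1 he).1
  have h3 : ((eds G ((pcz (tlo G T hm) z (U x)).image Prod.fst)
      ((pcz (tlo G T hm) x (U z)).image Prod.fst)).card : ℤ)
      ≤ (eds G (HP G Z T S x) (HP G Z T S z)).card := by exact_mod_cast h2
  linarith

/-- **(pair+) with the N-types**: `P` members of `x` with tail `z`, `P'` members of `z` with tail `x`,
all outside the PC pairs; `κ v` at most the number of missed class points at home whose copy is free and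
at most the number of missed class points at the tail; `E G P` is twice the number of adjacent pairs -/
theorem Fam.pair_nt (hF : PFrame G r m t Z T) (hh : Homes G Z T hm) (hS : CSys G Z T hm A S)
    (hW : WSysT G (co G) A (CP G Z T S) (HP G Z T S) (tlo G T hm))
    (h : ∀ x ∈ A, Fam (co G) (CP G Z T S) (HP G Z T S) (tlo G T hm) x (U x))
    {x z : V} (hx : x ∈ A) (hz : z ∈ A) (hxz : x ≠ z) {Wx Wz : Finset V}
    (hWx : Wx ⊆ HP G Z T S x) (hWz : Wz ⊆ HP G Z T S z)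
    (hWxU : ∀ v ∈ Wx, ∀ u ∈ U x, v ∉ imem u) (hWzU : ∀ v ∈ Wz, ∀ u ∈ U z, v ∉ imem u)
    {P P' : Finset V} (hP : P ⊆ HP G Z T S x) (hP' : P' ⊆ HP G Z T S z)
    (hPz : ∀ v ∈ P, tlo G T hm v = z) (hPx : ∀ v ∈ P', tlo G T hm v = x)
    (hPU : ∀ v ∈ P, ∀ e, Sum.inr e ∈ U x → e.1 ≠ v)
    (hPU' : ∀ v ∈ P', ∀ e, Sum.inr e ∈ U z → e.1 ≠ v) {κ : V → ℕ}
    (k1 : ∀ v ∈ P, κ v ≤ (msd G (CP G Z T S x) v
      \ (pcz (tlo G T hm) z (U x)).image Prod.snd).card)
    (k2 : ∀ v ∈ P, κ v ≤ (msd G (CP G Z T S z) v).card)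
    (k3 : ∀ v ∈ P', κ v ≤ (msd G (CP G Z T S z) v
      \ (pcz (tlo G T hm) x (U z)).image Prod.snd).card)
    (k4 : ∀ v ∈ P', κ v ≤ (msd G (CP G Z T S x) v).card) :
    2 * ∑ u ∈ U x, iht G (CP G Z T S) (tlo G T hm) z u
      + 2 * ∑ u ∈ U z, iht G (CP G Z T S) (tlo G T hm) x u
      + 2 * ∑ v ∈ Wx, (dg G (CP G Z T S z) v : ℤ) + 2 * ∑ v ∈ Wz, (dg G (CP G Z T S x) v : ℤ)
      + 2 * ∑ v ∈ P, (κ v : ℤ) + 2 * ∑ v ∈ P', (κ v : ℤ)
      ≤ 2 * ∑ v ∈ S z, (dg G (S x) v : ℤ) + E G P + E G P' := by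
  have hD := hS.cellD hF hx hz hxz
  have hD' := hS.cellD hF hz hx hxz.symm
  have hdHH : Disjoint (HP G Z T S x) (HP G Z T S z) := by
    refine (hS.disj hx hz hxz).mono (fun v hv => (mem_HP.1 hv).1) (fun v hv => (mem_HP.1 hv).1)
  obtain ⟨K, hKd⟩ : ∃ K, K = pcz (tlo G T hm) z (U x) := ⟨_, rfl⟩
  obtain ⟨K', hKd'⟩ : ∃ K', K' = pcz (tlo G T hm) x (U z) := ⟨_, rfl⟩
  have hKH : ∀ e ∈ K, e.1 ∈ HP G Z T S x := fun e he =>
    (h x hx).pcH e (mem_pcz.1 (hKd ▸ he)).1
  have hKH' : ∀ e ∈ K', e.1 ∈ HP G Z T S z := fun e he =>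
    (h z hz).pcH e (mem_pcz.1 (hKd' ▸ he)).1
  have hKI : ∀ e ∈ K, e.1 ∈ Dbl G Z T x z ∧ e.2 ∈ msd G (CP G Z T S x) e.1 := by
    intro e he
    obtain ⟨h1, h2⟩ := mem_pcz.1 (hKd ▸ he)
    have h3 := hS.mem_Dbl_of_tlo hh hx (hKH e he) h2
    refine ⟨h3, (hD.mem_msd h3).2 ⟨(h x hx).pcC e h1, ?_⟩⟩
    exact (SimpleGraph.compl_adj _ _ _).1 ((h x hx).pcF e h1) |>.2
  have hKI' : ∀ e ∈ K', e.1 ∈ Dbl G Z T x z ∧ e.2 ∈ msd G (CP G Z T S z) e.1 := by
    intro e he
    obtain ⟨h1, h2⟩ := mem_pcz.1 (hKd' ▸ he)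
    have h3 := hS.mem_Dbl_of_tlo hh hz (hKH' e he) h2
    rw [Dbl_comm] at h3
    refine ⟨h3, (hD.symm.mem_msd h3).2 ⟨(h z hz).pcC e h1, ?_⟩⟩
    exact (SimpleGraph.compl_adj _ _ _).1 ((h z hz).pcF e h1) |>.2
  have hPI : P ⊆ Dbl G Z T x z := fun v hv => hS.mem_Dbl_of_tlo hh hx (hP hv) (hPz v hv)
  have hPI' : P' ⊆ Dbl G Z T x z := fun v hv => by
    rw [Dbl_comm]
    exact hS.mem_Dbl_of_tlo hh hz (hP' hv) (hPx v hv)
  have hPP : Disjoint P P' := hdHH.mono hP hP'
  rw [← hKd] at k1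
  rw [← hKd'] at k3
  have hpay := hD.pay2 hPI hPI' hPP hKI hKI' (hKd ▸ (h x hx).pcz_inj) (hKd' ▸ (h z hz).pcz_inj)
    (fun e he h1 => disjoint_left.1 hdHH (hKH e he) (hP' h1))
    (fun e he h1 => disjoint_left.1 hdHH (hP h1) (hKH' e he)) k1 k2 k3 k4
  have hX := fun e he => hD.fcell_sub (P := P ∪ P') (Q := K.image Prod.snd)
    (Q' := K'.image Prod.snd) (union_subset hPI hPI') (e := e) he
  have hraw := Fam.pair_raw hW h hx hz hxz hWx hWz hWxU hWzU
    (X := fcell G (CP G Z T S x) (CP G Z T S z) (P ∪ P') (K.image Prod.snd) (K'.image Prod.snd))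
    (fun e he => by
      obtain ⟨⟨h1, h2, h3⟩, -, -⟩ := hX e he
      exact mem_filter.2 ⟨mem_product.2 ⟨h1, h2⟩, h3⟩)
    (fun c hc e he h1 => (hX c hc).2.1 (h1 ▸ mem_image_of_mem _ (hKd ▸ he)))
    (fun c hc e he h1 => (hX c hc).2.2 (h1 ▸ mem_image_of_mem _ (hKd' ▸ he)))
  rw [sum_dg_eds (G := G) (Z := Z) (T := T) (S := S) x z]
  rw [← hKd, ← hKd'] at hraw
  -- the pairs of members of the two hosts
  obtain ⟨M, hM⟩ : ∃ M, M = K.image Prod.fst := ⟨_, rfl⟩
  obtain ⟨M', hM'⟩ : ∃ M', M' = K'.image Prod.fst := ⟨_, rfl⟩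
  rw [← hM, ← hM'] at hraw hpay
  have hMP : Disjoint M P := by
    rw [disjoint_left, hM]
    intro v hv hvP
    obtain ⟨e, he, rfl⟩ := mem_image.1 hv
    exact hPU _ hvP e (mem_pcz.1 (hKd ▸ he)).1 rfl
  have hMP' : Disjoint M' P' := by
    rw [disjoint_left, hM']
    intro v hv hvP
    obtain ⟨e, he, rfl⟩ := mem_image.1 hv
    exact hPU' _ hvP e (mem_pcz.1 (hKd' ▸ he)).1 rfl
  have hMH : M ⊆ HP G Z T S x := by
    rw [hM]
    intro v hv
    obtain ⟨e, he, rfl⟩ := mem_image.1 hv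
    exact hKH e he
  have hMH' : M' ⊆ HP G Z T S z := by
    rw [hM']
    intro v hv
    obtain ⟨e, he, rfl⟩ := mem_image.1 hv
    exact hKH' e he
  have hbig : (eds G (M ∪ P) (M' ∪ P')).card ≤ (eds G (HP G Z T S x) (HP G Z T S z)).card :=
    card_le_card (filter_subset_filter _ (product_subset_product (union_subset hMH hP)
      (union_subset hMH' hP')))
  have hbig' : ((eds G (M ∪ P) (M' ∪ P')).card : ℤ)
      ≤ (eds G (HP G Z T S x) (HP G Z T S z)).card := by exact_mod_cast hbig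
  have hdd : ∀ v, dg G (M' ∪ P') v = dg G M' v + dg G P' v := fun v => by
    unfold dg
    rw [filter_union, card_union_of_disjoint (disjoint_filter_filter hMP')]
  rw [card_eds_eq, sum_union hMP] at hbig'
  simp only [hdd] at hbig'
  push_cast at hbig'
  rw [sum_add_distrib, sum_add_distrib] at hbig'
  rw [card_eds_eq M M'] at hraw
  have hEu := E_union (G := G) hPP
  have hc1 : ∑ y ∈ P', (dg G P y : ℤ) = ∑ y ∈ P, (dg G P' y : ℤ) := by
    have := dg_comm G P' P
    exact_mod_cast this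
  have hc2 : ∑ y ∈ P', (dg G M y : ℤ) = ∑ y ∈ M, (dg G P' y : ℤ) := by
    have := dg_comm G P' M
    exact_mod_cast this
  have hpay' : 2 * ∑ v ∈ P, (κ v : ℤ) + 2 * ∑ v ∈ P', (κ v : ℤ)
      ≤ 2 * ((fcell G (CP G Z T S x) (CP G Z T S z) (P ∪ P') (K.image Prod.snd)
          (K'.image Prod.snd)).card : ℤ)
        + E G (P ∪ P') + 2 * ∑ v ∈ P, (dg G M' v : ℤ)
        + 2 * ∑ v ∈ P', (dg G M v : ℤ) := by exact_mod_cast hpay
  have hEu' : (E G (P ∪ P') : ℤ) = E G P + 2 * ∑ y ∈ P', (dg G P y : ℤ) + E G P' := by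
    exact_mod_cast hEu
  linarith

end PairC

end Pool.Agent.Lib.MP_f04ccf_co
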