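import Pool.Agent.Lib.MP_f04ccf_co.M.HSys
import Pool.Agent.Lib.MP_f04ccf_co.M.PW

/-!
MP_f04ccf_co: Turan's bound inside the tests (note 15695 (1)).

* `NE_tur`: missing pairs of a set with independence number at most `k`, tangent form.
* `NE_cov`: the same for a set which contains a clique `Y` (the complement of a cover of the missing
  pairs): slope `|Y|` on `Y`, slope `q` on the rest.
* `PFrame.ind_rws`: an independent set has at most as many points as rows.
* `HSys.ind_card`, `HSys.alpha_out`: independent sets of a home-free closed system; a member with a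
  row outside `A` counts for one extra row, and the members of one row with this property are
  pairwise adjacent.  So every slot has independence number at most `|A| + 1`.
* `HSys.NE_slot`, `CSys.NE_slot`: both together.
-/

set_option autoImplicit false

namespace Pool.Agent.Lib.MP_f04ccf_co

open Finset

attribute [local instance] Classical.propDecidable

section Tur

variable {V : Type*} {G : SimpleGraph V}

/-- Turan's bound for the missing pairs, tangent form -/
lemma NE_tur {W : Finset V} {k : ℕ} (h : AlphaLe G W k) (q : ℤ) :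
    (NE G W : ℤ) ≤ (W.card : ℤ) * (W.card - 1) - 2 * q * W.card + k * (q * (q + 1)) := by
  have h1 := E_add_NE (G := G) W
  have h2 := E_lower_q G q k W h
  linarith

/-- Turan's bound in the presence of a clique, adjacent pairs -/
theorem E_clq_lower {H Y : Finset V} {k q : ℕ} (hY : Y ⊆ H) (hc : Clq G Y) (hα : AlphaLe G H k)
    (hq : q ≤ Y.card) :
    (Y.card : ℤ) * (Y.card - 1) + 2 * q * ((H.card : ℤ) - Y.card) - ((k : ℤ) - 1) * (q * (q + 1)) ≤
      E G H := by
  have hX := card_sdiff_add_card_eq_card hY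
  have hXc : ((H \ Y).card : ℤ) = H.card - Y.card := by omega
  -- the degrees of the points of `Y`
  have hYd : ∀ v ∈ Y, Y.card ≤ dg G H v + 1 := by
    intro v hv
    have h1 := dg_add_nd (G := G) hv
    have h2 : nd G Y v = 0 := by
      unfold nd
      rw [card_eq_zero, filter_eq_empty_iff]
      exact fun y hy h' => h'.2 (hc v hv y hy h'.1.symm)
    have h3 : dg G Y v ≤ dg G H v := card_le_card (filter_subset_filter _ hY)
    omega
  have hsplit : (E G H : ℤ) = ∑ v ∈ H \ Y, (dg G H v : ℤ) + ∑ v ∈ Y, (dg G H v : ℤ) := by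
    unfold E
    push_cast
    rw [sum_sdiff hY]
  have ha : (Y.card : ℤ) * (Y.card - 1) ≤ ∑ v ∈ Y, (dg G H v : ℤ) := by
    have h1 : ∑ v ∈ Y, ((Y.card : ℤ) - 1) ≤ ∑ v ∈ Y, (dg G H v : ℤ) :=
      sum_le_sum fun v hv => by
        have := hYd v hv
        omega
    rwa [sum_const, nsmul_eq_mul] at h1
  rcases Nat.eq_zero_or_pos q with rfl | hq1
  · have hb : (0 : ℤ) ≤ ∑ v ∈ H \ Y, (dg G H v : ℤ) := sum_nonneg fun v _ => Nat.cast_nonneg _
    push_cast
    rw [hsplit]
    linarith
  have hy1 : 1 ≤ Y.card := hq1.trans_le hq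
  have h1 := caro_wei' hα
  rw [← sum_sdiff hY] at h1
  have h2 : ∑ v ∈ H \ Y, (2 * (q : ℚ) - dg G H v) / (q * (q + 1)) ≤
      ∑ v ∈ H \ Y, (1 : ℚ) / (dg G H v + 1) := sum_le_sum fun v _ => tangent_le _ _ hq1
  have h3 : ∑ v ∈ Y, (2 * (Y.card : ℚ) - dg G H v) / (Y.card * (Y.card + 1)) ≤
      ∑ v ∈ Y, (1 : ℚ) / (dg G H v + 1) := sum_le_sum fun v _ => tangent_le _ _ hy1
  rw [← sum_div, sum_sub_distrib, sum_const, nsmul_eq_mul] at h2 h3
  have ha' : (Y.card : ℚ) * (Y.card - 1) ≤ ∑ v ∈ Y, (dg G H v : ℚ) := by exact_mod_cast ha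
  have hX' : ((H \ Y).card : ℚ) = H.card - Y.card := by exact_mod_cast hXc
  set a : ℚ := ∑ v ∈ Y, (dg G H v : ℚ) with hadef
  set b : ℚ := ∑ v ∈ H \ Y, (dg G H v : ℚ) with hbdef
  have hE : (E G H : ℚ) = b + a := by
    have h4 : ((E G H : ℤ) : ℚ) = ((∑ v ∈ H \ Y, (dg G H v : ℤ) + ∑ v ∈ Y, (dg G H v : ℤ) : ℤ) : ℚ) :=
      by rw [hsplit]
    push_cast at h4
    exact h4
  rw [hX'] at h2
  have hy' : (1 : ℚ) ≤ Y.card := by exact_mod_cast hy1
  have hq' : (1 : ℚ) ≤ q := by exact_mod_cast hq1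
  have hqy : (q : ℚ) ≤ Y.card := by exact_mod_cast hq
  set y : ℚ := (Y.card : ℚ) with hydef
  have hP : (0 : ℚ) < y * (y + 1) := by positivity
  have hQ : (0 : ℚ) < (q : ℚ) * (q + 1) := by positivity
  have hQP : (q : ℚ) * (q + 1) ≤ y * (y + 1) := by nlinarith
  have h4 : (y * (2 * y) - a) / (y * (y + 1)) = 1 - (a - y * (y - 1)) / (y * (y + 1)) := by
    field_simp
    ring
  rw [h4] at h3
  have h5 : (((H.card : ℚ) - y) * (2 * q) - b) / (q * (q + 1)) ≤
      k - 1 + (a - y * (y - 1)) / (y * (y + 1)) := by linarith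
  rw [div_le_iff₀ hQ] at h5
  have h6 : (a - y * (y - 1)) / (y * (y + 1)) * ((q : ℚ) * (q + 1)) ≤ a - y * (y - 1) := by
    rw [div_mul_eq_mul_div, div_le_iff₀ hP]
    exact mul_le_mul_of_nonneg_left hQP (by linarith)
  have h7 : y * (y - 1) + 2 * q * ((H.card : ℚ) - y) - ((k : ℚ) - 1) * (q * (q + 1)) ≤ b + a := by
    nlinarith
  rw [← hE, hydef] at h7
  exact_mod_cast h7

/-- **Turan's bound in the presence of a clique**: `τ = |H| - |Y|` points cover the missing pairs -/
theorem NE_cov {H Y : Finset V} {k q : ℕ} (hY : Y ⊆ H) (hc : Clq G Y) (hα : AlphaLe G H k)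
    (hq : q ≤ Y.card) :
    (NE G H : ℤ) ≤ 2 * ((H.card : ℤ) - Y.card) * Y.card +
      ((H.card : ℤ) - Y.card) * ((H.card : ℤ) - Y.card - 1) - 2 * q * ((H.card : ℤ) - Y.card) +
      ((k : ℤ) - 1) * (q * (q + 1)) := by
  have h1 := E_add_NE (G := G) H
  have h2 := E_clq_lower hY hc hα hq
  nlinarith

end Tur

section Frame

variable {V : Type*} {G : SimpleGraph V} {Z T : Finset V} {hm : V → V} {r m t : ℕ}

/-- **an independent set has at most as many points as rows** -/
theorem PFrame.ind_rws (h : PFrame G r m t Z T) {J : Finset V} (hJ : J ⊆ Z) (hi : Ind G J) :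
    J.card ≤ (J.biUnion fun v => rws G T v).card := by
  have hI : (J.biUnion fun v => rws G T v) ⊆ T := biUnion_subset.2 fun v _ => rws_sub
  refine h.alpha_ZI hI J (fun z hz => mem_ZI.2 ⟨hJ hz, fun hT => ?_, ?_⟩) hi
  · exact mem_biUnion.2 ⟨z, hz, by rw [rws_of_mem hT]; exact mem_singleton_self z⟩
  · by_cases hT : z ∈ T
    · rw [h.ends_T hT]
      exact empty_subset _
    · rw [← rws_of_notMem hT]
      exact subset_biUnion_of_mem (fun v => rws G T v) hz

lemma PFrame.card_rws_le_two (h : PFrame G r m t Z T) {v : V} (hv : v ∈ Z) : (rws G T v).card ≤ 2 := by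
  by_cases hT : v ∈ T
  · rw [rws_of_mem hT, card_singleton]
    omega
  · rw [rws_of_notMem hT, card_ends]
    exact h.k2 v (mem_sdiff.2 ⟨hv, hT⟩)

/-- independent sets: every point with a row outside `A` counts for one extra row -/
theorem HSys.ind_card (hF : PFrame G r m t Z T) {A S : Finset V} (h : HSys G Z T A S) {J : Finset V}
    (hJ : J ⊆ S) (hi : Ind G J) :
    J.card ≤ A.card + (J.filter fun v => ¬ rws G T v ⊆ A).card := by
  have h1 := hF.ind_rws (hJ.trans h.subZ) hi
  have h2 : (J.biUnion fun v => rws G T v) ⊆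
      A ∪ (J.filter fun v => ¬ rws G T v ⊆ A).biUnion fun v => rws G T v \ A := by
    intro x hx
    obtain ⟨v, hv, hxv⟩ := mem_biUnion.1 hx
    by_cases hxA : x ∈ A
    · exact mem_union_left _ hxA
    · exact mem_union_right _ (mem_biUnion.2 ⟨v, mem_filter.2 ⟨hv, fun h' => hxA (h' hxv)⟩,
        mem_sdiff.2 ⟨hxv, hxA⟩⟩)
  have h3 : ∀ v ∈ J.filter (fun v => ¬ rws G T v ⊆ A), (rws G T v \ A).card ≤ 1 := by
    intro v hv
    have hvS := hJ (mem_filter.1 hv).1
    obtain ⟨x, hxA, hxv⟩ := h.row v hvS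
    have h4 := hF.card_rws_le_two (h.subZ hvS)
    have h5 : rws G T v \ A ⊆ (rws G T v).erase x := by
      intro y hy
      obtain ⟨h6, h7⟩ := mem_sdiff.1 hy
      exact mem_erase.2 ⟨fun h' => h7 (h' ▸ hxA), h6⟩
    have h6 := card_le_card h5
    rw [card_erase_of_mem hxv] at h6
    omega
  have h4 := card_biUnion_le_card_mul (J.filter fun v => ¬ rws G T v ⊆ A)
    (fun v => rws G T v \ A) 1 h3
  have h5 := (card_le_card h2).trans (card_union_le _ _)
  omega

/-- two points of the same row, both with a row outside `A`, are adjacent -/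
theorem HSys.out_adj (hF : PFrame G r m t Z T) {A S : Finset V} (h : HSys G Z T A S) {x v w : V}
    (hx : x ∈ A) (hv : v ∈ S) (hw : w ∈ S) (hxv : x ∈ rws G T v) (hxw : x ∈ rws G T w)
    (hvA : ¬ rws G T v ⊆ A) (hwA : ¬ rws G T w ⊆ A) (hvw : v ≠ w) : G.Adj v w := by
  have hno : ∀ u ∈ S, x ∈ rws G T u → ¬ rws G T u ⊆ A → ∀ y ∈ A.erase x, y ∉ rws G T u := by
    intro u hu hxu huA y hy hyu
    apply huA
    have h1 := hF.card_rws_le_two (h.subZ hu)
    have h2 : {x, y} ⊆ rws G T u := by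
      intro z hz
      rcases mem_insert.1 hz with rfl | hz
      · exact hxu
      · rw [mem_singleton.1 hz]
        exact hyu
    have h3 : ({x, y} : Finset V).card = 2 := card_pair (ne_of_mem_erase hy).symm
    rw [← eq_of_subset_of_card_le h2 (by omega)]
    intro z hz
    rcases mem_insert.1 hz with rfl | hz
    · exact hx
    · rw [mem_singleton.1 hz]
      exact mem_of_mem_erase hy
  by_contra hn
  rcases h.closed x hx v hv w hw hxv hxw (co_adj.2 ⟨hvw, hn⟩) with ⟨y, hy, h1⟩ |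
      ⟨y, hy, z, hz, hyz, h1, h2⟩
  · rcases h.tail hF (mem_of_mem_erase hy) h1 with h2 | h2
    · exact hno v hv hxv hvA y hy h2
    · exact hno w hw hxw hwA y hy h2
  · have hvT : v ∉ T := by
      intro hT
      rw [hF.ends_T hT] at h1
      have : x ∈ (∅ : Finset V) := by rw [h1]; simp
      simp at this
    refine hno v hv hxv hvA y hy ?_
    rw [rws_of_notMem hvT, h1]
    simp

/-- **independence number**: if every point of `W` with a row outside `A` has a row in `B`, then
independent subsets of `W` have at most `|A| + |B|` points -/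
theorem HSys.alpha_out (hF : PFrame G r m t Z T) {A S W B : Finset V} (h : HSys G Z T A S)
    (hW : W ⊆ S) (hB : B ⊆ A) (hWB : ∀ v ∈ W, ¬ rws G T v ⊆ A → ∃ x ∈ B, x ∈ rws G T v) :
    AlphaLe G W (A.card + B.card) := by
  intro J hJ hi
  have h1 := h.ind_card hF (hJ.trans hW) hi
  have h2 : ∀ v ∈ J.filter (fun v => ¬ rws G T v ⊆ A), ∃ x, x ∈ B ∧ x ∈ rws G T v := by
    intro v hv
    obtain ⟨x, hx, hxv⟩ := hWB v (hJ (mem_filter.1 hv).1) (mem_filter.1 hv).2
    exact ⟨x, hx, hxv⟩
  choose! f hf using h2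
  have h3 : (J.filter fun v => ¬ rws G T v ⊆ A).card ≤ B.card := by
    refine card_le_card_of_injOn f (fun v hv => (hf v hv).1) ?_
    intro v hv w hw hvw
    by_contra hne
    have h4 := hf v hv
    have h5 := hf w hw
    rw [← hvw] at h5
    obtain ⟨hv1, hv2⟩ := mem_filter.1 hv
    obtain ⟨hw1, hw2⟩ := mem_filter.1 hw
    exact hi v hv1 w hw1 (h.out_adj hF (hB h4.1) (hW (hJ hv1)) (hW (hJ hw1)) h4.2 h5.2 hv2 hw2 hne)
  omega

/-- the points of one row -/
theorem HSys.alpha_row (hF : PFrame G r m t Z T) {A S W : Finset V} (h : HSys G Z T A S)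
    {x : V} (hx : x ∈ A) (hW : W ⊆ S) (hWx : ∀ v ∈ W, ¬ rws G T v ⊆ A → x ∈ rws G T v) :
    AlphaLe G W (A.card + 1) := by
  have h1 := h.alpha_out hF (B := {x}) hW (singleton_subset_iff.2 hx)
    (fun v hv hvA => ⟨x, mem_singleton_self x, hWx v hv hvA⟩)
  rwa [card_singleton] at h1

/-- no point has a row outside `A` -/
theorem HSys.alpha_in (hF : PFrame G r m t Z T) {A S W : Finset V} (h : HSys G Z T A S)
    (hW : W ⊆ S) (hWA : ∀ v ∈ W, rws G T v ⊆ A) : AlphaLe G W A.card := by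
  have h1 := h.alpha_out hF (B := ∅) hW (empty_subset _) (fun v hv hvA => absurd (hWA v hv) hvA)
  rwa [card_empty, add_zero] at h1

/-- **missing pairs of the points of one row** (`Y` a clique, slope `q ≤ |Y|` on the rest) -/
theorem HSys.NE_row (hF : PFrame G r m t Z T) {A S H Y : Finset V} (h : HSys G Z T A S)
    {x : V} (hx : x ∈ A) (hH : H ⊆ S) (hHx : ∀ v ∈ H, x ∈ rws G T v) (hY : Y ⊆ H) (hc : Clq G Y)
    {q : ℕ} (hq : q ≤ Y.card) :
    (NE G H : ℤ) ≤ 2 * ((H.card : ℤ) - Y.card) * Y.card +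
      ((H.card : ℤ) - Y.card) * ((H.card : ℤ) - Y.card - 1) - 2 * q * ((H.card : ℤ) - Y.card) +
      A.card * (q * (q + 1)) := by
  have h1 := NE_cov hY hc (h.alpha_row hF hx hH fun v hv _ => hHx v hv) hq
  push_cast at h1
  linarith

/-- the same with a cover `X` of the missing pairs of `H` -/
theorem HSys.NE_row_cov (hF : PFrame G r m t Z T) {A S H X : Finset V} (h : HSys G Z T A S)
    {x : V} (hx : x ∈ A) (hH : H ⊆ S) (hHx : ∀ v ∈ H, x ∈ rws G T v) (hX : X ⊆ H)
    (hc : Clq G (H \ X)) {q : ℕ} (hq : q + X.card ≤ H.card) :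
    (NE G H : ℤ) ≤ 2 * (X.card : ℤ) * ((H.card : ℤ) - X.card) +
      (X.card : ℤ) * (X.card - 1) - 2 * q * X.card + A.card * (q * (q + 1)) := by
  have h1 := card_sdiff_add_card_eq_card hX
  have h2 := h.NE_row hF hx hH hHx sdiff_subset hc (q := q) (by omega)
  have h3 : ((H \ X).card : ℤ) = H.card - X.card := by omega
  rw [h3] at h2
  linarith

/-- a slot without points with a row outside `A` -/
theorem HSys.NE_row_cov_in (hF : PFrame G r m t Z T) {A S H X : Finset V} (h : HSys G Z T A S)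
    (hH : H ⊆ S) (hHA : ∀ v ∈ H, rws G T v ⊆ A) (hX : X ⊆ H)
    (hc : Clq G (H \ X)) {q : ℕ} (hq : q + X.card ≤ H.card) :
    (NE G H : ℤ) ≤ 2 * (X.card : ℤ) * ((H.card : ℤ) - X.card) +
      (X.card : ℤ) * (X.card - 1) - 2 * q * X.card + ((A.card : ℤ) - 1) * (q * (q + 1)) := by
  have h1 := card_sdiff_add_card_eq_card hX
  have h2 := NE_cov sdiff_subset hc (h.alpha_in hF hH hHA) (q := q) (by omega)
  have h3 : ((H \ X).card : ℤ) = H.card - X.card := by omega
  rw [h3] at h2
  linarith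

/-- **missing pairs of a front** whose points with a row outside `A` have a row in `B` -/
theorem HSys.NE_front (hF : PFrame G r m t Z T) {A S W B : Finset V} (h : HSys G Z T A S)
    (hW : W ⊆ S) (hB : B ⊆ A) (hWB : ∀ v ∈ W, ¬ rws G T v ⊆ A → ∃ x ∈ B, x ∈ rws G T v) (q : ℤ) :
    (NE G W : ℤ) ≤ (W.card : ℤ) * (W.card - 1) - 2 * q * W.card +
      ((A.card : ℤ) + B.card) * (q * (q + 1)) := by
  have h1 := NE_tur (h.alpha_out hF hW hB hWB) q
  push_cast at h1
  exact h1

/-- missing pairs of any set of points whose rows are in `I` -/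
theorem PFrame.NE_rows (hF : PFrame G r m t Z T) {W I : Finset V} (hW : W ⊆ Z)
    (hI : ∀ v ∈ W, rws G T v ⊆ I) (q : ℤ) :
    (NE G W : ℤ) ≤ (W.card : ℤ) * (W.card - 1) - 2 * q * W.card + I.card * (q * (q + 1)) := by
  refine NE_tur (fun J hJ hi => ?_) q
  exact (hF.ind_rws (hJ.trans hW) hi).trans
    (card_le_card (biUnion_subset.2 fun v hv => hI v (hJ hv)))

end Frame

end Pool.Agent.Lib.MP_f04ccf_co
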