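import Pool.Agent.Lib.MP_f04ccf_co.M.LemFC
import Pool.Agent.Lib.MP_f04ccf_co.M.TurE

/-!
MP_f04ccf_co: the cover integers of the rows of a closed system (order (T2) of note 15928).
`tcv x` is the split cover number of the slot `x` (missing pairs inside the home part, copies `a^z` of the
class points).  `CSys.le_tcv`: `s + 1 ≤ tcv`; `tcv_le_card`: `tcv ≤ h`; `CSys.card_HP_int`: `h = t + s + 1`;
`exists_minSp`: a minimum split cover; `CSys.NE_slot`: the missing pairs of a slot;
`MinSp.pc_le`: the pairs between home part and class part; `HSys.NE_slot_tur`: the missing pairs of a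
slot with Turan's bound inside the cover; `CSys.NE_slot_T`, `CSys.NE_slot_T'`: LEMMA F in the integers of
the row.
-/

set_option autoImplicit false

namespace Pool.Agent.Lib.MP_f04ccf_co

open Finset

attribute [local instance] Classical.propDecidable

/-- all members of the home part form a split cover -/
lemma spn_le_card {ι V : Type*} (F : SimpleGraph V) (tl : V → ι) (H P : Finset V) (B : Finset ι) :
    spn F tl H P B ≤ H.card := by
  have h1 : SpCov F tl H P H (fun _ => ∅) :=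
    ⟨fun _ hp _ _ _ => Or.inl hp, fun _ hv _ _ _ => Or.inl hv⟩
  have h2 := spn_le (B := B) h1
  simpa using h2

section EnumT

variable {V : Type*} {G : SimpleGraph V} {Z T : Finset V} {hm : V → V} {r m t : ℕ}
  {A : Finset V} {S : V → Finset V}

variable (G Z T hm) in
/-- the split cover number of the slot `x` in the system on the rows `A` -/
noncomputable def tcv (A : Finset V) (S : V → Finset V) (x : V) : ℕ :=
  spn (co G) (tlo G T hm) (HP G Z T S x) (CP G Z T S x) (A.erase x)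

lemma tcv_eq {x : V} : tcv G Z T hm A S x
    = spn (co G) (tlo G T hm) (HP G Z T S x) (CP G Z T S x) (A.erase x) := rfl

/-- the split cover number is at most the number of the members -/
lemma tcv_le_card {x : V} : tcv G Z T hm A S x ≤ (HP G Z T S x).card := spn_le_card _ _ _ _ _

/-- **the split cover number is at least `s + 1`** -/
theorem CSys.le_tcv (hF : S2 G r m t Z T) (hr : 1 ≤ r) (hh : Homes G Z T hm)
    (h : CSys G Z T hm A S) (hctr : ∀ y ∈ A, y ∈ S y) {x : V} (hx : x ∈ A) :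
    ((S x).card : ℤ) - r + 1 ≤ tcv G Z T hm A S x := by
  have h1 := h.le_spn hF hh hctr hx
  rw [← tcv_eq] at h1
  omega

/-- the centre is a class point of its slot -/
lemma CSys.ctr_CP (hF : PFrame G r m t Z T) (h : CSys G Z T hm A S) (hctr : ∀ y ∈ A, y ∈ S y)
    {x : V} (hx : x ∈ A) : x ∈ CP G Z T S x :=
  mem_CP.2 ⟨hctr x hx, hF.self_mem_Cl (h.sub hx)⟩

/-- the class part has at least one point -/
lemma CSys.one_le_CP (hF : PFrame G r m t Z T) (h : CSys G Z T hm A S) (hctr : ∀ y ∈ A, y ∈ S y)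
    {x : V} (hx : x ∈ A) : 1 ≤ (CP G Z T S x).card := card_pos.2 ⟨x, h.ctr_CP hF hctr hx⟩

/-- the class part has at most `r - 1` points -/
lemma CSys.CP_le (hF : S2 G r m t Z T) (h : CSys G Z T hm A S) {x : V} (hx : x ∈ A) :
    (CP G Z T S x).card ≤ r - 1 :=
  hF.omega _ (CP_sub.trans (h.subZ hx)) (h.CP_clq hF.toPFrame hx)

/-- `h = t + s + 1` with `t = r - 1 - |CP x|`, `s = |S x| - r` -/
lemma card_HP_int {x : V} : ((HP G Z T S x).card : ℤ)
    = ((r : ℤ) - 1 - (CP G Z T S x).card) + (((S x).card : ℤ) - r) + 1 := by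
  have h1 := card_CP_HP (G := G) (Z := Z) (T := T) (S := S) (x := x)
  omega

variable (G Z T hm) in
/-- minimum split cover of the slot `x` -/
structure MinSp (A : Finset V) (S : V → Finset V) (x : V) (X : Finset V) (Y : V → Finset V) : Prop where
  sub : X ⊆ HP G Z T S x
  subY : ∀ z, Y z ⊆ CP G Z T S x
  cov : SpCov (co G) (tlo G T hm) (HP G Z T S x) (CP G Z T S x) X Y
  card : X.card + ∑ z ∈ A.erase x, (Y z).card = tcv G Z T hm A S x

/-- a minimum split cover exists -/
theorem exists_minSp (x : V) : ∃ X Y, MinSp G Z T hm A S x X Y := by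
  obtain ⟨X, Y, h1, h2, h3, h4⟩ := exists_spn (co G) (tlo G T hm) (HP G Z T S x) (CP G Z T S x)
    (A.erase x)
  exact ⟨X, Y, h1, h2, h3, h4⟩

variable {x : V} {X : Finset V} {Y : V → Finset V}

/-- the members outside a split cover form a clique -/
lemma MinSp.clq (h : MinSp G Z T hm A S x X Y) : Clq G (HP G Z T S x \ X) := by
  intro p hp q hq hpq
  by_contra hn
  obtain ⟨p1, p2⟩ := mem_sdiff.1 hp
  obtain ⟨q1, q2⟩ := mem_sdiff.1 hq
  rcases h.cov.1 p p1 q q1 (co_adj.2 ⟨hpq, hn⟩) with h1 | h1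
  · exact p2 h1
  · exact q2 h1

lemma MinSp.card_X_le (h : MinSp G Z T hm A S x X Y) : X.card ≤ tcv G Z T hm A S x := by
  rw [← h.card]
  exact Nat.le_add_right _ _

/-- the size of one arc is at most the number of its members -/
lemma MinSp.hall (h : MinSp G Z T hm A S x X Y) {z : V} (hz : z ∈ A.erase x) :
    (Y z).card ≤ (WN (co G) (tlo G T hm) (HP G Z T S x) (CP G Z T S x) X z).card :=
  sp_hall_card h.cov h.card hz

/-- cover and arcs together are in the home part -/
lemma MinSp.WN_sum (h : MinSp G Z T hm A S x X Y) :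
    X.card + ∑ z ∈ A.erase x, (WN (co G) (tlo G T hm) (HP G Z T S x) (CP G Z T S x) X z).card
      ≤ (HP G Z T S x).card := Pool.Agent.Lib.MP_f04ccf_co.WN_sum h.sub

/-- **the missing pairs of a slot** -/
lemma CSys.NE_slot (hF : PFrame G r m t Z T) (h : CSys G Z T hm A S) (hx : x ∈ A) :
    NE G (S x) = NE G (HP G Z T S x) + 2 * ∑ v ∈ HP G Z T S x, nd G (CP G Z T S x) v := by
  have h1 := NE_union (G := G) (CP_HP_disjoint (G := G) (Z := Z) (T := T) (S := S) (x := x))
  rw [CP_union_HP, NE_clq (h.CP_clq hF hx), zero_add] at h1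
  exact h1

/-- **the missing pairs between members and class points of a slot** -/
lemma MinSp.pc_le (hF : PFrame G r m t Z T) (hh : Homes G Z T hm) (hC : CSys G Z T hm A S)
    (hctr : ∀ y ∈ A, y ∈ S y) (hx : x ∈ A) (h : MinSp G Z T hm A S x X Y) :
    ∑ v ∈ HP G Z T S x, nd G (CP G Z T S x) v ≤ ∑ v ∈ X, nd G (CP G Z T S x) v
      + ∑ z ∈ A.erase x, (WN (co G) (tlo G T hm) (HP G Z T S x) (CP G Z T S x) X z).card
          * (Y z).card := by
  have h1 := cov_dg_le (B := A.erase x) h.cov h.sub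
    (fun v hv a ha hva => (hC.pc_tail hF hh hctr hx hv ha hva).1)
  simpa only [nd_eq_dg] using h1

/-- **the missing pairs of a slot, Turan's bound inside the cover**: `a = |X|` points cover the pairs inside
the home part; `q + a ≤ h` free -/
theorem HSys.NE_slot_tur {U : Finset V} (hF : PFrame G r m t Z T) (hh : Homes G Z T hm)
    (h : HSys G Z T A U) (hv : ∀ v ∈ U, hm v ∈ A ∧ hm v ∈ rws G T v)
    (hC : CSys G Z T hm A S) (hS : S = fun x => U.filter fun v => hm v = x)
    (hctr : ∀ y ∈ A, y ∈ S y) (hx : x ∈ A)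
    (hM : MinSp G Z T hm A S x X Y) {q : ℕ} (hq : q + X.card ≤ (HP G Z T S x).card) :
    (NE G (S x) : ℤ) ≤ 2 * (X.card : ℤ) * ((HP G Z T S x).card - X.card)
      + (X.card : ℤ) * (X.card - 1) - 2 * q * X.card + A.card * (q * (q + 1))
      + 2 * ∑ z ∈ A.erase x,
          ((WN (co G) (tlo G T hm) (HP G Z T S x) (CP G Z T S x) X z).card : ℤ) * (Y z).card
      + 2 * ∑ v ∈ X, (nd G (CP G Z T S x) v : ℤ) := by
  have hHU : ∀ v ∈ HP G Z T S x, v ∈ U ∧ hm v = x := by
    intro v hv'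
    have h1 := HP_sub hv'
    rw [hS] at h1
    exact mem_filter.1 h1
  have h1 := h.NE_row_cov hF (H := HP G Z T S x) (X := X) hx (fun v hv' => (hHU v hv').1)
    (fun v hv' => by
      obtain ⟨h2, h3⟩ := hHU v hv'
      have h4 := (hv v h2).2
      rwa [h3] at h4) hM.sub hM.clq hq
  have h2 := hC.NE_slot hF hx
  have h3 := hM.pc_le hF hh hC hctr hx
  have h4 : (NE G (S x) : ℤ) = NE G (HP G Z T S x)
      + 2 * ∑ v ∈ HP G Z T S x, (nd G (CP G Z T S x) v : ℤ) := by exact_mod_cast h2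
  have h5 : ∑ v ∈ HP G Z T S x, (nd G (CP G Z T S x) v : ℤ)
      ≤ ∑ v ∈ X, (nd G (CP G Z T S x) v : ℤ) + ∑ z ∈ A.erase x,
        ((WN (co G) (tlo G T hm) (HP G Z T S x) (CP G Z T S x) X z).card : ℤ) * (Y z).card := by
    exact_mod_cast h3
  linarith

/-- **LEMMA F in the integers of the row** (`s ≥ 0` or any `s`): `t' = r - 1 - |CP x|`,
`|S x| = r + s` -/
theorem CSys.NE_slot_T (hr : 6 ≤ r) (hP : PG G r) (hF : S2 G r m t Z T) (hh : Homes G Z T hm)
    (h : CSys G Z T hm A S) (hctr : ∀ y ∈ A, y ∈ S y) (hx : x ∈ A)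
    (hM : MinSp G Z T hm A S x X Y)
    (hD : ∀ z ∈ A.erase x, r - 1 + 4 ≤ (CP G Z T S x).card + (CP G Z T S z).card) :
    (NE G (S x) : ℤ) ≤ 2 * ((tcv G Z T hm A S x : ℤ) * ((r : ℤ) - 1 - (CP G Z T S x).card))
      + (((S x).card : ℤ) - r + 1) * (((S x).card : ℤ) - r) + 2
      + 2 * ∑ v ∈ X, (nd G (CP G Z T S x) v : ℤ) := by
  have h0 := h.CP_le hF hx
  have h1 := h.lemF_min hr hP hF hh hctr hx hM.sub hM.subY hM.cov hM.card hD
    (t' := r - 1 - (CP G Z T S x).card) (g := ((S x).card : ℤ) - r + 1) (by omega) (by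
      have := card_CP_HP (G := G) (Z := Z) (T := T) (S := S) (x := x)
      omega)
  rw [← tcv_eq] at h1
  have h2 : ((r - 1 - (CP G Z T S x).card : ℕ) : ℤ) = (r : ℤ) - 1 - (CP G Z T S x).card := by omega
  rw [h2] at h1
  have h3 : ((S x).card : ℤ) - r + 1 - 1 = ((S x).card : ℤ) - r := by ring
  rw [h3] at h1
  exact h1

/-- **LEMMA F in the integers of the row**, spare rows -/
theorem CSys.NE_slot_T' (hF : PFrame G r m t Z T) (hh : Homes G Z T hm)
    (h : CSys G Z T hm A S) (hctr : ∀ y ∈ A, y ∈ S y) (hx : x ∈ A)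
    (hM : MinSp G Z T hm A S x X Y) :
    (NE G (S x) : ℤ) + (X.card : ℤ) * (X.card + 1)
      ≤ 2 * ((tcv G Z T hm A S x : ℤ)
          * (((r : ℤ) - 1 - (CP G Z T S x).card) + (((S x).card : ℤ) - r) + 1))
        + 2 * ∑ v ∈ X, (nd G (CP G Z T S x) v : ℤ) := by
  have h1 := h.lemF_min' hF hh hctr hx hM.sub hM.cov hM.card
  rw [← tcv_eq] at h1
  rw [← card_HP_int]
  exact_mod_cast h1

end EnumT

section Slots

variable {V : Type*} {G : SimpleGraph V} {Z T : Finset V} {hm : V → V} {r m t : ℕ}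
  {A U : Finset V}

/-- the centres are in their slots -/
lemma HSys.ctr_slot (hF : PFrame G r m t Z T) (h : HSys G Z T A U)
    (hv : ∀ v ∈ U, hm v ∈ A ∧ hm v ∈ rws G T v) :
    ∀ y ∈ A, y ∈ (fun x => U.filter fun v => hm v = x) y := fun y hy =>
  mem_filter.2 ⟨h.ctr hy, h.cl_slot hv hy (h.ctr hy) (hF.self_mem_Cl (h.sub hy))⟩

/-- **the cover integers of a home-free system**: `h = t + s + 1`, `s + 1 ≤ τ ≤ h`, `0 ≤ t`,
`1 ≤ |CP|` -/
theorem HSys.cover_ints (hF : S2 G r m t Z T) (hr : 1 ≤ r) (hh : Homes G Z T hm)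
    (h : HSys G Z T A U) (hv : ∀ v ∈ U, hm v ∈ A ∧ hm v ∈ rws G T v) {x : V} (hx : x ∈ A) :
    let S : V → Finset V := fun x => U.filter fun v => hm v = x
    ((HP G Z T S x).card : ℤ)
        = ((r : ℤ) - 1 - (CP G Z T S x).card) + (((S x).card : ℤ) - r) + 1 ∧
      ((S x).card : ℤ) - r + 1 ≤ tcv G Z T hm A S x ∧
      (tcv G Z T hm A S x : ℤ) ≤ (HP G Z T S x).card ∧
      0 ≤ (r : ℤ) - 1 - (CP G Z T S x).card ∧ 1 ≤ (CP G Z T S x).card := by
  intro S
  have hC := h.csys hF.toPFrame hv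
  have hctr := h.ctr_slot hF.toPFrame hv
  refine ⟨card_HP_int, hC.le_tcv hF hr hh hctr hx, ?_, ?_, hC.one_le_CP hF.toPFrame hctr hx⟩
  · exact_mod_cast tcv_le_card
  · have := hC.CP_le hF hx
    have h1 : (CP G Z T S x).card ≤ r - 1 := this
    omega

end Slots

end Pool.Agent.Lib.MP_f04ccf_co
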