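import Pool.Agent.Lib.MP_f04ccf_co.M.Enum
import Pool.Agent.Lib.MP_f04ccf_co.M.EnumT

/-!
MP_f04ccf_co: the basic integers with covers (order (T2) of note 15928, second half; `BI` is in
M/Enum).  `X x`, `Y x` minimum split covers of the slots.  `tauI` = split cover number, `aI = |X x|`,
`nI` = number of missing pairs between `X x` and the class part (the true N-excess), `wI` = number of
missing pairs of the arcs at most.  `BT` extends `BI`; `HSys.bt` gives it for at least four rows.
-/

set_option autoImplicit false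

namespace Pool.Agent.Lib.MP_f04ccf_co

open Finset

attribute [local instance] Classical.propDecidable

section EnumU

variable {V : Type*} {G : SimpleGraph V} {Z T : Finset V} {hm : V → V} {r m t : ℕ}

variable (G Z T hm) in
/-- the split cover number of the slot `x` -/
noncomputable def tauI (A S : Finset V) (x : V) : ℤ :=
  (tcv G Z T hm A (fun x => S.filter fun v => hm v = x) x : ℤ)

/-- the number of members in the cover -/
noncomputable def aI (X : V → Finset V) (x : V) : ℤ := ((X x).card : ℤ)

variable (G Z T hm) in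
/-- the number of missing pairs between the cover and the class part -/
noncomputable def nI (S : Finset V) (X : V → Finset V) (x : V) : ℤ :=
  ∑ v ∈ X x, (nd G (CP G Z T (fun x => S.filter fun v => hm v = x) x) v : ℤ)

variable (G Z T hm) in
/-- the arcs: members with tail `z` outside the cover times copies of class points -/
noncomputable def wI (A S : Finset V) (X : V → Finset V) (Y : V → V → Finset V) (x : V) : ℤ :=
  ∑ z ∈ A.erase x, ((WN (co G) (tlo G T hm) (HP G Z T (fun x => S.filter fun v => hm v = x) x)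
    (CP G Z T (fun x => S.filter fun v => hm v = x) x) (X x) z).card : ℤ) * (Y x z).card

/-- **the basic integers with covers**: `τ i` split cover number, `a i` members in the cover, `N i`
missing pairs between the cover and the class part, `W i` missing pairs of the arcs -/
structure BT (R : ℤ) (n : ℕ) (t s h e : ℕ → ℤ) (E : ℕ → ℕ → ℤ) (τ a N W : ℕ → ℤ) : Prop
    extends BI R n t s h e E where
  sτ : ∀ i, i < n → s i + 1 ≤ τ i
  τh : ∀ i, i < n → τ i ≤ h i
  a0 : ∀ i, i < n → 0 ≤ a i
  aτ : ∀ i, i < n → a i ≤ τ i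
  N0 : ∀ i, i < n → 0 ≤ N i
  W0 : ∀ i, i < n → 0 ≤ W i
  WL : ∀ i, i < n → W i ≤ (τ i - a i) * (h i - a i)
  eT : ∀ i, i < n → 2 * e i ≤ 2 * τ i * t i + s i * (s i + 1) + 2 + 2 * N i
  eH : ∀ i, i < n → 2 * e i + a i * (a i + 1) ≤ 2 * τ i * (t i + s i + 1) + 2 * N i
  eU : ∀ i, i < n → ∀ q : ℕ, q + a i ≤ h i →
    2 * e i ≤ 2 * a i * (h i - a i) + a i * (a i - 1) - 2 * q * a i + n * (q * (q + 1)) + 2 * W i
      + 2 * N i

variable {A S : Finset V} {X : V → Finset V} {Y : V → V → Finset V}

/-- the missing pairs of the arcs are at most `(τ - a) (h - a)` -/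
lemma wI_le {x : V} (hM : MinSp G Z T hm A (fun x => S.filter fun v => hm v = x) x (X x) (Y x)) :
    wI G Z T hm A S X Y x
      ≤ (tauI G Z T hm A S x - aI X x) * (hI G Z T hm S x - aI X x) := by
  have h1 := hM.WN_sum
  have h2 := hM.card
  have h3 : ∀ z ∈ A.erase x, ((WN (co G) (tlo G T hm)
      (HP G Z T (fun x => S.filter fun v => hm v = x) x)
      (CP G Z T (fun x => S.filter fun v => hm v = x) x) (X x) z).card : ℤ) * (Y x z).card
      ≤ (hI G Z T hm S x - aI X x) * (Y x z).card := by
    intro z hz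
    refine mul_le_mul_of_nonneg_right ?_ (Nat.cast_nonneg _)
    have h4 := single_le_sum (f := fun z => (WN (co G) (tlo G T hm)
      (HP G Z T (fun x => S.filter fun v => hm v = x) x)
      (CP G Z T (fun x => S.filter fun v => hm v = x) x) (X x) z).card)
      (fun z _ => Nat.zero_le _) hz
    unfold hI aI
    have h5 : (X x).card + (WN (co G) (tlo G T hm)
      (HP G Z T (fun x => S.filter fun v => hm v = x) x)
      (CP G Z T (fun x => S.filter fun v => hm v = x) x) (X x) z).card
      ≤ (HP G Z T (fun x => S.filter fun v => hm v = x) x).card :=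
      (Nat.add_le_add_left h4 _).trans h1
    omega
  unfold wI
  refine (sum_le_sum h3).trans (le_of_eq ?_)
  rw [← mul_sum, mul_comm]
  congr 1
  unfold tauI aI
  rw [← h2]
  push_cast
  ring

/-- **the integers of at least four rows of a home-free closed system with minimum split covers** -/
theorem HSys.bt (hr : 6 ≤ r) (hF : S2 G r m t Z T) (hPG : PG G r) (hm' : Homes G Z T hm)
    (h : HSys G Z T A S) (h4 : 4 ≤ A.card)
    (hh : ∀ v ∈ S, hm v ∈ A ∧ hm v ∈ rws G T v)
    (hM : ∀ x ∈ A, MinSp G Z T hm A (fun x => S.filter fun v => hm v = x) x (X x) (Y x))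
    {ρ : V → ℕ} {σ : ℕ → V} (hσ : Rank A (tI G Z T hm r S) ρ σ)
    (hB : BI ((r : ℤ) - 1) A.card (fun i => tI G Z T hm r S (σ i)) (fun i => sI hm r S (σ i))
        (fun i => hI G Z T hm S (σ i)) (fun i => eI G hm S (σ i))
        (fun i j => EI G hm S (σ i) (σ j))) :
    BT ((r : ℤ) - 1) A.card (fun i => tI G Z T hm r S (σ i)) (fun i => sI hm r S (σ i))
        (fun i => hI G Z T hm S (σ i)) (fun i => eI G hm S (σ i))
        (fun i j => EI G hm S (σ i) (σ j)) (fun i => tauI G Z T hm A S (σ i))
        (fun i => aI X (σ i)) (fun i => nI G Z T hm S X (σ i))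
        (fun i => wI G Z T hm A S X Y (σ i)) := by
  have hFP := hF.toPFrame
  have hC := h.csys hFP hh
  have hctr := h.ctr_slot hFP hh
  -- two rows together
  have hD : ∀ x ∈ A, ∀ z ∈ A.erase x,
      r - 1 + 4 ≤ (CP G Z T (fun x => S.filter fun v => hm v = x) x).card
        + (CP G Z T (fun x => S.filter fun v => hm v = x) z).card := by
    intro x hx z hz
    have h1 := hB.st
    rw [← hσ.sum (tI G Z T hm r S)] at h1
    obtain ⟨hzx, hzA⟩ := mem_erase.1 hz
    have h2 : tI G Z T hm r S x + tI G Z T hm r S z ≤ ∑ y ∈ A, tI G Z T hm r S y := by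
      rw [← add_sum_erase A _ hx, ← add_sum_erase (A.erase x) _ hz]
      have h3 : 0 ≤ ∑ y ∈ (A.erase x).erase z, tI G Z T hm r S y :=
        sum_nonneg fun y hy => h.tI_nonneg hF hh (mem_of_mem_erase (mem_of_mem_erase hy))
      linarith
    have h3 := card_CP_eq (G := G) (Z := Z) (T := T) (hm := hm) (r := r) S x
    have h5 := card_CP_eq (G := G) (Z := Z) (T := T) (hm := hm) (r := r) S z
    have h6 : (4 : ℤ) ≤ A.card := by exact_mod_cast h4
    have h7 : ((r : ℤ) - 1) + 4 ≤ ((CP G Z T (fun x => S.filter fun v => hm v = x) x).card : ℤ)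
        + (CP G Z T (fun x => S.filter fun v => hm v = x) z).card := by
      rw [h3, h5]
      linarith
    omega
  have hxA : ∀ i, i < A.card → σ i ∈ A := fun i hi => hσ.mem i hi
  refine { hB with
    sτ := fun i hi => ?_
    τh := fun i hi => ?_
    a0 := fun i _ => Nat.cast_nonneg _
    aτ := fun i hi => ?_
    N0 := fun i _ => sum_nonneg fun _ _ => Nat.cast_nonneg _
    W0 := fun i _ => sum_nonneg fun _ _ => mul_nonneg (Nat.cast_nonneg _) (Nat.cast_nonneg _)
    WL := fun i hi => wI_le (hM _ (hxA i hi))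
    eT := fun i hi => ?_
    eH := fun i hi => ?_
    eU := fun i hi q hq => ?_ }
  · have h1 := hC.le_tcv hF (by omega) hm' hctr (hxA i hi)
    exact h1
  · have h1 := tcv_le_card (G := G) (Z := Z) (T := T) (hm := hm) (A := A)
      (S := fun x => S.filter fun v => hm v = x) (x := σ i)
    unfold tauI hI
    exact_mod_cast h1
  · have h1 := (hM _ (hxA i hi)).card_X_le
    unfold aI tauI
    exact_mod_cast h1
  · have h1 := hC.NE_slot_T hr hPG hF hm' hctr (hxA i hi) (hM _ (hxA i hi)) (hD _ (hxA i hi))
    have h2 := two_eI (G := G) (hm := hm) S (σ i)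
    change 2 * eI G hm S (σ i) ≤ 2 * tauI G Z T hm A S (σ i) * tI G Z T hm r S (σ i)
      + sI hm r S (σ i) * (sI hm r S (σ i) + 1) + 2 + 2 * nI G Z T hm S X (σ i)
    unfold tauI tI sI nI
    rw [h2]
    linarith
  · have h1 := hC.NE_slot_T' hFP hm' hctr (hxA i hi) (hM _ (hxA i hi))
    have h2 := two_eI (G := G) (hm := hm) S (σ i)
    change 2 * eI G hm S (σ i) + aI X (σ i) * (aI X (σ i) + 1)
      ≤ 2 * tauI G Z T hm A S (σ i) * (tI G Z T hm r S (σ i) + sI hm r S (σ i) + 1)
        + 2 * nI G Z T hm S X (σ i)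
    unfold tauI tI sI nI aI
    rw [h2]
    linarith
  · have hq' : (q : ℤ) + aI X (σ i) ≤ hI G Z T hm S (σ i) := hq
    have h1 := h.NE_slot_tur hFP hm' hh hC rfl hctr (hxA i hi) (hM _ (hxA i hi)) (q := q) (by
      unfold aI hI at hq'
      exact_mod_cast hq')
    have h2 := two_eI (G := G) (hm := hm) S (σ i)
    change 2 * eI G hm S (σ i) ≤ 2 * aI X (σ i) * (hI G Z T hm S (σ i) - aI X (σ i))
      + aI X (σ i) * (aI X (σ i) - 1) - 2 * q * aI X (σ i) + A.card * (q * (q + 1))
      + 2 * wI G Z T hm A S X Y (σ i) + 2 * nI G Z T hm S X (σ i)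
    unfold aI hI wI nI
    rw [h2]
    linarith

/-- minimum split covers for all slots -/
theorem exists_minSp_fun (A : Finset V) (S : V → Finset V) :
    ∃ (X : V → Finset V) (Y : V → V → Finset V), ∀ x, MinSp G Z T hm A S x (X x) (Y x) := by
  choose X Y h using fun x => exists_minSp (G := G) (Z := Z) (T := T) (hm := hm) (A := A) (S := S) x
  exact ⟨X, Y, h⟩

end EnumU

end Pool.Agent.Lib.MP_f04ccf_co
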