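import Pool.Agent.Lib.MP_f04ccf_co.M.Tail
import Pool.Agent.Lib.MP_f04ccf_co.M.EnumU

/-!
MP_f04ccf_co: the N-types of the covers in the basic integers (plain homes).  `QN x z` = members of the
cover `X x` with tail `z` and at least two missing class points at home; `qN` their number, `kN` the
number of their missing class points, `uN x` = number of members of the cover with exactly one missing
class point.  Structure `BN`: the true N-excess is `N i = u i + sum_j k i j`; the rectangle bound; at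
most one such member for a pair of rows with `t t' + 5 < R`; **the tail test**
`R (s_j + T) ≤ e_j + T (T - 1) / 2 + sum_i p_i (t_i t_j + 2) + T h_j`; the test (Q).
-/

set_option autoImplicit false

namespace Pool.Agent.Lib.MP_f04ccf_co

open Finset

attribute [local instance] Classical.propDecidable

section TailB

variable {V : Type*} {G : SimpleGraph V} {Z T : Finset V} {hm : V → V} {r m t : ℕ}

/-- **plain homes**: with `p ≥ 2 r` a member misses at home at most as many class points as at the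
other row -/
theorem WHomes.kap_plain {b p : ℕ} {A S : Finset V} (hF : PFrame G r b t Z T) (hb : b ≤ r)
    (hp : 2 * r ≤ p) (h : HSys G Z T A S) (hw : WHomes G Z T p 1 A S hm)
    {w x y : V} (hwS : w ∈ S) (hx : hm w = x) (hy : y ∈ A) (hyx : y ≠ x) (hyw : y ∈ rws G T w) :
    nd G (CP G Z T (fun x => S.filter fun v => hm v = x) x) w
      ≤ nd G (CP G Z T (fun x => S.filter fun v => hm v = x) y) w := by
  have h1 := hw.swap_CP h hwS hx hy hyx hyw
  have hxw : x ∈ rws G T w := hx ▸ (hw.ok w hwS).2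
  have hwB : w ∈ BB G Z T := by
    rcases hF.rws_split (h.subZ hwS) hyw with h6 | h6
    · exfalso
      rw [rws_Cl (h.sub hy) h6, mem_singleton] at hxw
      exact hyx hxw.symm
    · exact h6.1
  have h2 : nd G (HP G Z T (fun x => S.filter fun v => hm v = x) y) w + 1 ≤ r := by
    have h3 : (HP G Z T (fun x => S.filter fun v => hm v = x) y) ⊆ (BB G Z T).erase w := by
      intro v hv
      refine mem_erase.2 ⟨fun hvw => ?_, h.HP_BB hF hw.ok hv⟩
      have h4 := (mem_filter.1 (mem_HP.1 hv).1).2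
      rw [hvw, hx] at h4
      exact hyx h4.symm
    have h4 : nd G (HP G Z T (fun x => S.filter fun v => hm v = x) y) w
        ≤ (HP G Z T (fun x => S.filter fun v => hm v = x) y).card := card_filter_le _ _
    have h5 := card_le_card h3
    rw [card_erase_of_mem hwB] at h5
    have h6 := card_pos.2 ⟨w, hwB⟩
    have h7 := hF.b
    omega
  by_contra hcon
  push Not at hcon
  have h8 := Nat.mul_le_mul_left p hcon
  rw [Nat.mul_succ] at h8
  omega

variable (G Z T hm) in
/-- members of the cover `X x` with tail `z` and at least two missing class points at home -/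
noncomputable def QN (S : Finset V) (X : V → Finset V) (x z : V) : Finset V :=
  (X x).filter fun v => tlo G T hm v = z ∧
    2 ≤ nd G (CP G Z T (fun x => S.filter fun v => hm v = x) x) v

variable (G Z T hm) in
/-- the number of their missing class points -/
noncomputable def kN (S : Finset V) (X : V → Finset V) (x z : V) : ℤ :=
  ∑ v ∈ QN G Z T hm S X x z, (nd G (CP G Z T (fun x => S.filter fun v => hm v = x) x) v : ℤ)

variable (G Z T hm) in
/-- members of the cover with exactly one missing class point -/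
noncomputable def uN (S : Finset V) (X : V → Finset V) (x : V) : ℤ :=
  (((X x).filter fun v =>
    nd G (CP G Z T (fun x => S.filter fun v => hm v = x) x) v = 1).card : ℤ)

/-- **the N-types of the covers in integers**: `q i j` members of the cover of the row `i` with tail
`j` and at least two missing class points, `k i j` the number of these points, `u i` members with
exactly one missing class point -/
structure BN (R : ℤ) (n : ℕ) (t s h e a N u : ℕ → ℤ) (q : ℕ → ℕ → ℕ) (k : ℕ → ℕ → ℤ) : Prop where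
  u0 : ∀ i, i < n → 0 ≤ u i
  ua : ∀ i, i < n → u i + ∑ j ∈ (range n).erase i, (q i j : ℤ) ≤ a i
  nu : ∀ i, i < n → N i = u i + ∑ j ∈ (range n).erase i, k i j
  k2 : ∀ i j, 2 * (q i j : ℤ) ≤ k i j
  kc : ∀ i j, i < n → j < n → i ≠ j → ∀ c : ℤ, 0 ≤ c → t i * t j + 1 < c ^ 2 →
    k i j ≤ c * q i j
  pr : ∀ i j, i < n → j < n → i ≠ j → t i * t j + 5 < R → q i j + q j i ≤ 1
  tail : ∀ j, j < n → ∀ p : ℕ → ℕ, (∀ i ∈ (range n).erase j, p i ≤ q i j) →
    2 * R * (s j + ∑ i ∈ (range n).erase j, (p i : ℤ))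
      ≤ 2 * e j + (∑ i ∈ (range n).erase j, (p i : ℤ))
          * ((∑ i ∈ (range n).erase j, (p i : ℤ)) - 1)
        + 2 * ∑ i ∈ (range n).erase j, (p i : ℤ) * (t i * t j + 2)
        + 2 * ((∑ i ∈ (range n).erase j, (p i : ℤ)) * h j)
  qt : ∀ i j, i < n → j < n → i ≠ j → 1 ≤ q i j → ∃ κ β : ℤ, 2 ≤ κ ∧ κ ≤ β ∧ k i j ≤ κ * q i j ∧
    (κ - 1) * (β - 1) ≤ t i * t j + 1 ∧ R * s i + β * (κ - s i - 1) ≤ e i

lemma Rank.erase_im {A : Finset V} {f : V → ℤ} {ρ : V → ℕ} {σ : ℕ → V} (hσ : Rank A f ρ σ) {j : ℕ}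
    (hj : j < A.card) : A.erase (σ j) = ((range A.card).erase j).image σ := by
  ext x
  rw [mem_erase, mem_image]
  constructor
  · rintro ⟨h1, h2⟩
    refine ⟨ρ x, mem_erase.2 ⟨fun h3 => h1 ?_, mem_range.2 (hσ.lt x h2)⟩, hσ.left x h2⟩
    rw [← h3, hσ.left x h2]
  · rintro ⟨i, hi, rfl⟩
    obtain ⟨h1, h2⟩ := mem_erase.1 hi
    exact ⟨fun h3 => h1 (hσ.sinj (mem_range.1 h2) hj h3), hσ.mem i (mem_range.1 h2)⟩

lemma Rank.sum_erase' {A : Finset V} {f : V → ℤ} {ρ : V → ℕ} {σ : ℕ → V} (hσ : Rank A f ρ σ)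
    {j : ℕ} (hj : j < A.card) (g : V → ℤ) :
    ∑ x ∈ A.erase (σ j), g x = ∑ i ∈ (range A.card).erase j, g (σ i) := by
  rw [hσ.erase_im hj, hσ.sum_im (erase_subset _ _)]

variable {A S : Finset V} {X : V → Finset V} {Y : V → V → Finset V}

/-- the data used for the members of `QN x z` -/
structure NDat (G : SimpleGraph V) (Z T : Finset V) (hm : V → V) (A S : Finset V)
    (X : V → Finset V) : Prop where
  csys : CSys G Z T hm A (fun x => S.filter fun v => hm v = x)
  XH : ∀ x ∈ A, X x ⊆ HP G Z T (fun x => S.filter fun v => hm v = x) x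
  tail : ∀ x ∈ A, ∀ v ∈ X x, 1 ≤ nd G (CP G Z T (fun x => S.filter fun v => hm v = x) x) v →
    tlo G T hm v ∈ A.erase x
  bb : ∀ x ∈ A, ∀ v ∈ X x, v ∈ BB G Z T
  ends : ∀ x ∈ A, ∀ v ∈ X x, ends G T v = {x, tlo G T hm v}
  plain : ∀ x ∈ A, ∀ v ∈ X x, tlo G T hm v ∈ A.erase x →
    nd G (CP G Z T (fun x => S.filter fun v => hm v = x) x) v
      ≤ nd G (CP G Z T (fun x => S.filter fun v => hm v = x) (tlo G T hm v)) v

lemma mem_QN {x z v : V} : v ∈ QN G Z T hm S X x z ↔ v ∈ X x ∧ tlo G T hm v = z ∧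
    2 ≤ nd G (CP G Z T (fun x => S.filter fun v => hm v = x) x) v := mem_filter

/-- the rectangle of a member of `QN x z` -/
lemma NDat.rect (hF : PFrame G r m t Z T) (hP : PG G r) (hD : NDat G Z T hm A S X) {x z v : V}
    (hx : x ∈ A) (hv : v ∈ QN G Z T hm S X x z) :
    z ∈ A.erase x ∧
    nd G (CP G Z T (fun x => S.filter fun v => hm v = x) x) v
      ≤ nd G (CP G Z T (fun x => S.filter fun v => hm v = x) z) v ∧
    ((nd G (CP G Z T (fun x => S.filter fun v => hm v = x) x) v : ℤ) - 1)
      * ((nd G (CP G Z T (fun x => S.filter fun v => hm v = x) z) v : ℤ) - 1)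
      ≤ tI G Z T hm r S x * tI G Z T hm r S z + 1 := by
  obtain ⟨h1, h2, h3⟩ := mem_QN.1 hv
  have h4 := hD.tail x hx v h1 (by omega)
  have h5 := hD.plain x hx v h1 h4
  rw [h2] at h4 h5
  obtain ⟨h6, h7⟩ := mem_erase.1 h4
  have h8 := hD.csys.pair_rect hF hP hx h7 h6.symm (hD.bb x hx v h1) (by
    rw [← h2]
    exact hD.ends x hx v h1)
  refine ⟨h4, h5, ?_⟩
  unfold tI
  nlinarith

/-- the tail test for families of members of `QN` -/
lemma NDat.tail_V (hF : PFrame G r m t Z T) (hP : PG G r) (hD : NDat G Z T hm A S X) {z : V}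
    (P : V → Finset V) (hPQ : ∀ x ∈ A.erase z, P x ⊆ QN G Z T hm S X x z) :
    2 * ((r : ℤ) - 1) * (sI hm r S z + ∑ x ∈ A.erase z, ((P x).card : ℤ))
      ≤ 2 * eI G hm S z + (∑ x ∈ A.erase z, ((P x).card : ℤ))
          * ((∑ x ∈ A.erase z, ((P x).card : ℤ)) - 1)
        + 2 * ∑ x ∈ A.erase z, ((P x).card : ℤ) * (tI G Z T hm r S x * tI G Z T hm r S z + 2)
        + 2 * ((∑ x ∈ A.erase z, ((P x).card : ℤ)) * hI G Z T hm S z) := by
  have hsub : ∀ x ∈ A.erase z, P x ⊆ S.filter fun v => hm v = x := by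
    intro x hx
    have h1 := (hPQ x hx).trans (filter_subset _ _)
    exact (h1.trans (hD.XH x (mem_of_mem_erase hx))).trans HP_sub
  have hdis : ∀ x ∈ A.erase z, ∀ y ∈ A.erase z, x ≠ y → Disjoint (P x) (P y) := by
    intro x hx y hy hxy
    rw [disjoint_left]
    intro v hv hv'
    have h1 := (mem_filter.1 (hsub x hx hv)).2
    have h2 := (mem_filter.1 (hsub y hy hv')).2
    exact hxy (h1.symm.trans h2)
  set K := (A.erase z).biUnion P with hK
  have hKc : (K.card : ℤ) = ∑ x ∈ A.erase z, ((P x).card : ℤ) := by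
    rw [hK, card_biUnion hdis]
    push_cast
    ring
  have hKS : Disjoint ((fun x => S.filter fun v => hm v = x) z) K := by
    rw [disjoint_left]
    intro v hv hv'
    obtain ⟨x, hx, hvx⟩ := mem_biUnion.1 hv'
    have h1 := (mem_filter.1 (hsub x hx hvx)).2
    have h2 : hm v = z := (mem_filter.1 hv).2
    exact (mem_erase.1 hx).1 (h1.symm.trans h2)
  have h1 := hP.tail_num (Z := Z) (T := T) (S := fun x => S.filter fun v => hm v = x) (z := z) hKS
    (β := fun v => tI G Z T hm r S (hm v) * tI G Z T hm r S z + 2) (by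
      intro v hv
      obtain ⟨x, hx, hvx⟩ := mem_biUnion.1 hv
      have e1 : hm v = x := (mem_filter.1 (hsub x hx hvx)).2
      obtain ⟨-, h2, h3⟩ := hD.rect hF hP (mem_of_mem_erase hx) (hPQ x hx hvx)
      have h4 : (2 : ℤ) ≤ nd G (CP G Z T (fun x => S.filter fun v => hm v = x) x) v := by
        exact_mod_cast (mem_QN.1 (hPQ x hx hvx)).2.2
      rw [e1]
      have h5 : (nd G (CP G Z T (fun x => S.filter fun v => hm v = x) x) v : ℤ)
        ≤ nd G (CP G Z T (fun x => S.filter fun v => hm v = x) z) v := by exact_mod_cast h2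
      nlinarith)
  have h2 : ∑ v ∈ K, (tI G Z T hm r S (hm v) * tI G Z T hm r S z + 2)
      = ∑ x ∈ A.erase z, ((P x).card : ℤ) * (tI G Z T hm r S x * tI G Z T hm r S z + 2) := by
    rw [hK, sum_biUnion hdis]
    refine sum_congr rfl fun x hx => ?_
    rw [← nsmul_eq_mul, ← sum_const]
    refine sum_congr rfl fun v hv => ?_
    rw [(mem_filter.1 (hsub x hx hv)).2]
  rw [h2, hKc] at h1
  have h3 := two_eI (G := G) (hm := hm) S z
  have h4 : ((((fun x => S.filter fun v => hm v = x) z).card : ℕ) : ℤ) - r = sI hm r S z := rfl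
  have h5 : (((HP G Z T (fun x => S.filter fun v => hm v = x) z).card : ℕ) : ℤ)
      = hI G Z T hm S z := rfl
  rw [h4, h5] at h1
  have h6 : (NE G ((fun x => S.filter fun v => hm v = x) z) : ℤ) = 2 * eI G hm S z := h3.symm
  rw [h6] at h1
  linarith

/-- **the N-types of the covers in integers** -/
theorem NDat.bn (hF : PFrame G r m t Z T) (hP : PG G r) (hh : Homes G Z T hm)
    (hD : NDat G Z T hm A S X) {ρ : V → ℕ} {σ : ℕ → V}
    (hσ : Rank A (tI G Z T hm r S) ρ σ) :
    BN ((r : ℤ) - 1) A.card (fun i => tI G Z T hm r S (σ i)) (fun i => sI hm r S (σ i))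
      (fun i => hI G Z T hm S (σ i)) (fun i => eI G hm S (σ i)) (fun i => aI X (σ i))
      (fun i => nI G Z T hm S X (σ i)) (fun i => uN G Z T hm S X (σ i))
      (fun i j => (QN G Z T hm S X (σ i) (σ j)).card) (fun i j => kN G Z T hm S X (σ i) (σ j)) := by
  have hne : ∀ i j, i < A.card → j < A.card → i ≠ j → σ i ≠ σ j := fun i j hi hj hij h1 =>
    hij (hσ.sinj hi hj h1)
  -- the members with at least two missing class points, by tails
  have hpart : ∀ x ∈ A, ∀ g : V → ℤ,
      ∑ v ∈ (X x).filter (fun v =>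
        2 ≤ nd G (CP G Z T (fun x => S.filter fun v => hm v = x) x) v), g v
        = ∑ z ∈ A.erase x, ∑ v ∈ QN G Z T hm S X x z, g v := by
    intro x hx g
    rw [← sum_biUnion]
    · refine sum_congr ?_ fun _ _ => rfl
      ext v
      rw [mem_filter, mem_biUnion]
      constructor
      · rintro ⟨h1, h2⟩
        exact ⟨tlo G T hm v, hD.tail x hx v h1 (by omega), mem_QN.2 ⟨h1, rfl, h2⟩⟩
      · rintro ⟨z, -, h1⟩
        obtain ⟨h2, -, h3⟩ := mem_QN.1 h1
        exact ⟨h2, h3⟩
    · intro y hy z hz hyz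
      rw [Function.onFun, disjoint_left]
      intro v hv hv'
      exact hyz ((mem_QN.1 hv).2.1.symm.trans (mem_QN.1 hv').2.1)
  refine ⟨fun i _ => Nat.cast_nonneg _, fun i hi => ?_, fun i hi => ?_, fun i j => ?_,
    fun i j hi hj hij c hc hcc => ?_, fun i j hi hj hij hR => ?_, fun j hj p hp => ?_,
    fun i j hi hj hij hq => ?_⟩
  · -- number of members
    have hx := hσ.mem i hi
    rw [← hσ.sum_erase' hi fun z => ((QN G Z T hm S X (σ i) z).card : ℤ)]
    have h1 := hpart (σ i) hx fun _ => 1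
    simp only [sum_const, nsmul_eq_mul, mul_one] at h1
    rw [← h1]
    unfold uN aI
    have h2 : Disjoint ((X (σ i)).filter fun v =>
        nd G (CP G Z T (fun x => S.filter fun v => hm v = x) (σ i)) v = 1)
        ((X (σ i)).filter fun v =>
        2 ≤ nd G (CP G Z T (fun x => S.filter fun v => hm v = x) (σ i)) v) := by
      rw [disjoint_left]
      intro v hv hv'
      have h3 := (mem_filter.1 hv).2
      have h4 := (mem_filter.1 hv').2
      omega
    have h3 := card_le_card (union_subset (filter_subset (fun v =>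
        nd G (CP G Z T (fun x => S.filter fun v => hm v = x) (σ i)) v = 1) (X (σ i)))
        (filter_subset (fun v =>
        2 ≤ nd G (CP G Z T (fun x => S.filter fun v => hm v = x) (σ i)) v) (X (σ i))))
    rw [card_union_of_disjoint h2] at h3
    exact_mod_cast h3
  · -- the excess
    have hx := hσ.mem i hi
    rw [← hσ.sum_erase' hi fun z => kN G Z T hm S X (σ i) z]
    have h1 := hpart (σ i) hx fun v =>
      (nd G (CP G Z T (fun x => S.filter fun v => hm v = x) (σ i)) v : ℤ)
    have h2 : ∑ z ∈ A.erase (σ i), kN G Z T hm S X (σ i) z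
        = ∑ v ∈ (X (σ i)).filter (fun v =>
        2 ≤ nd G (CP G Z T (fun x => S.filter fun v => hm v = x) (σ i)) v),
        (nd G (CP G Z T (fun x => S.filter fun v => hm v = x) (σ i)) v : ℤ) := h1.symm
    rw [h2]
    unfold nI uN
    rw [card_filter, sum_filter]
    push_cast
    rw [← sum_add_distrib]
    refine sum_congr rfl fun v _ => ?_
    rcases Nat.lt_trichotomy (nd G (CP G Z T (fun x => S.filter fun v => hm v = x) (σ i)) v) 1
      with h3 | h3 | h3
    · rw [if_neg (by omega), if_neg (by omega)]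
      have : nd G (CP G Z T (fun x => S.filter fun v => hm v = x) (σ i)) v = 0 := by omega
      rw [this]
      simp
    · rw [if_pos h3, if_neg (by omega), h3]
      simp
    · rw [if_neg (by omega), if_pos (by omega)]
      simp
  · -- at least two missing points each
    unfold kN
    rw [mul_comm, ← nsmul_eq_mul, ← sum_const]
    exact sum_le_sum fun v hv => by exact_mod_cast (mem_QN.1 hv).2.2
  · -- the rectangle bound
    unfold kN
    rw [mul_comm, ← nsmul_eq_mul, ← sum_const]
    refine sum_le_sum fun v hv => ?_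
    obtain ⟨-, h1, h2⟩ := hD.rect hF hP (hσ.mem i hi) hv
    have h3 : (nd G (CP G Z T (fun x => S.filter fun v => hm v = x) (σ i)) v : ℤ)
      ≤ nd G (CP G Z T (fun x => S.filter fun v => hm v = x) (σ j)) v := by exact_mod_cast h1
    have h4 : (2 : ℤ) ≤ nd G (CP G Z T (fun x => S.filter fun v => hm v = x) (σ i)) v := by
      exact_mod_cast (mem_QN.1 hv).2.2
    by_contra hcon
    push Not at hcon
    nlinarith
  · -- one member for a thin pair
    by_contra hcon
    push Not at hcon
    obtain ⟨v, w, hvw, hv, hw⟩ : ∃ v w, v ≠ w ∧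
        (v ∈ QN G Z T hm S X (σ i) (σ j) ∨ v ∈ QN G Z T hm S X (σ j) (σ i)) ∧
        (w ∈ QN G Z T hm S X (σ i) (σ j) ∨ w ∈ QN G Z T hm S X (σ j) (σ i)) := by
      have hd : Disjoint (QN G Z T hm S X (σ i) (σ j)) (QN G Z T hm S X (σ j) (σ i)) := by
        rw [disjoint_left]
        intro v hv hv'
        have h1 := (mem_QN.1 hv).1
        have h2 := (mem_QN.1 hv').1
        have h3 := (mem_filter.1 (HP_sub (hD.XH _ (hσ.mem i hi) h1))).2
        have h4 := (mem_filter.1 (HP_sub (hD.XH _ (hσ.mem j hj) h2))).2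
        exact hne i j hi hj hij (h3.symm.trans h4)
      have h1 : 1 < (QN G Z T hm S X (σ i) (σ j) ∪ QN G Z T hm S X (σ j) (σ i)).card := by
        rw [card_union_of_disjoint hd]
        exact hcon
      obtain ⟨v, hv, w, hw, hvw⟩ := one_lt_card.1 h1
      exact ⟨v, w, hvw, mem_union.1 hv, mem_union.1 hw⟩
    have key : ∀ v, (v ∈ QN G Z T hm S X (σ i) (σ j) ∨ v ∈ QN G Z T hm S X (σ j) (σ i)) →
        v ∈ BB G Z T ∧ Pool.Agent.Lib.MP_f04ccf_co.ends G T v = {σ i, σ j} ∧
        2 ≤ nd G (CP G Z T (fun x => S.filter fun v => hm v = x) (σ i)) v ∧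
        2 ≤ nd G (CP G Z T (fun x => S.filter fun v => hm v = x) (σ j)) v := by
      rintro v (hv | hv)
      · obtain ⟨-, h1, -⟩ := hD.rect hF hP (hσ.mem i hi) hv
        obtain ⟨h2, h3, h4⟩ := mem_QN.1 hv
        have h5 := hD.ends _ (hσ.mem i hi) v h2
        rw [h3] at h5
        exact ⟨hD.bb _ (hσ.mem i hi) v h2, h5, h4, h4.trans h1⟩
      · obtain ⟨-, h1, -⟩ := hD.rect hF hP (hσ.mem j hj) hv
        obtain ⟨h2, h3, h4⟩ := mem_QN.1 hv
        have h5 := hD.ends _ (hσ.mem j hj) v h2
        rw [h3, pair_comm] at h5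
        exact ⟨hD.bb _ (hσ.mem j hj) v h2, h5, h4.trans h1, h4⟩
    obtain ⟨v1, v2, v3, v4⟩ := key v hv
    obtain ⟨w1, w2, w3, w4⟩ := key w hw
    have h9 := hD.csys.pair_two hF hP (hσ.mem i hi) (hσ.mem j hj) (hne i j hi hj hij) hvw v1 v2 w1
      w2 v3 v4 w3 w4
    unfold tI at hR
    linarith
  · -- the tail test
    have hp' : ∀ x ∈ A.erase (σ j), ∃ P ⊆ QN G Z T hm S X x (σ j), P.card = p (ρ x) := by
      intro x hx
      rw [hσ.erase_im hj] at hx
      obtain ⟨i, hi, rfl⟩ := mem_image.1 hx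
      have h1 := hp i hi
      rw [hσ.right i (mem_range.1 (mem_of_mem_erase hi))]
      exact exists_subset_card_eq h1
    choose! P hP1 hP2 using hp'
    have h1 := hD.tail_V hF hP P hP1
    have e1 : ∑ x ∈ A.erase (σ j), ((P x).card : ℤ)
        = ∑ i ∈ (range A.card).erase j, (p i : ℤ) := by
      rw [hσ.sum_erase' hj fun x => ((P x).card : ℤ)]
      refine sum_congr rfl fun i hi => ?_
      have h2 : σ i ∈ A.erase (σ j) := by
        rw [hσ.erase_im hj]
        exact mem_image_of_mem _ hi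
      rw [hP2 _ h2, hσ.right i (mem_range.1 (mem_of_mem_erase hi))]
    have e2 : ∑ x ∈ A.erase (σ j), ((P x).card : ℤ)
          * (tI G Z T hm r S x * tI G Z T hm r S (σ j) + 2)
        = ∑ i ∈ (range A.card).erase j, (p i : ℤ)
          * (tI G Z T hm r S (σ i) * tI G Z T hm r S (σ j) + 2) := by
      rw [hσ.sum_erase' hj fun x => ((P x).card : ℤ)
          * (tI G Z T hm r S x * tI G Z T hm r S (σ j) + 2)]
      refine sum_congr rfl fun i hi => ?_
      have h2 : σ i ∈ A.erase (σ j) := by
        rw [hσ.erase_im hj]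
        exact mem_image_of_mem _ hi
      rw [hP2 _ h2, hσ.right i (mem_range.1 (mem_of_mem_erase hi))]
    rw [e1, e2] at h1
    exact h1
  · -- the test (Q)
    have hx := hσ.mem i hi
    obtain ⟨v, hv, hmax⟩ := exists_max_image (QN G Z T hm S X (σ i) (σ j))
      (fun v => nd G (CP G Z T (fun x => S.filter fun v => hm v = x) (σ i)) v)
      (card_pos.1 (by exact hq))
    obtain ⟨h1, h2, h3⟩ := hD.rect hF hP hx hv
    obtain ⟨v1, v2, v3⟩ := mem_QN.1 hv
    refine ⟨nd G (CP G Z T (fun x => S.filter fun v => hm v = x) (σ i)) v,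
      nd G (CP G Z T (fun x => S.filter fun v => hm v = x) (σ j)) v, by exact_mod_cast v3,
      by exact_mod_cast h2, ?_, h3, ?_⟩
    · unfold kN
      rw [mul_comm, ← nsmul_eq_mul, ← sum_const]
      exact sum_le_sum fun w hw => by exact_mod_cast hmax w hw
    · have h4 := hD.csys.testQ hF hP hh hx h1 (hD.XH _ hx v1) v2 (W := ∅) (disjoint_empty_right _)
      have h5 := two_eI (G := G) (hm := hm) S (σ i)
      have h6 : (NE G ((fun x => S.filter fun v => hm v = x) (σ i)) : ℤ) = 2 * eI G hm S (σ i) :=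
        h5.symm
      have h7 : ((((fun x => S.filter fun v => hm v = x) (σ i)).card : ℕ) : ℤ) - r
          = sI hm r S (σ i) := rfl
      have h8 : (CP G Z T (fun x => S.filter fun v => hm v = x) (σ j)).filter
          (fun c => ¬ G.Adj c v) \ ∅
          = (CP G Z T (fun x => S.filter fun v => hm v = x) (σ j)).filter
            (fun c => ¬ G.Adj c v) := sdiff_empty
      have h9 : (((CP G Z T (fun x => S.filter fun v => hm v = x) (σ j)).filter
            (fun c => ¬ G.Adj c v)).card : ℤ)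
          = nd G (CP G Z T (fun x => S.filter fun v => hm v = x) (σ j)) v := by
        have hvB := hD.bb _ hx v v1
        have hvn : v ∉ CP G Z T (fun x => S.filter fun v => hm v = x) (σ j) := by
          refine BB_notMem_CP (z := σ i) (fun h => (mem_erase.1 h1).1 h)
            (hD.csys.sub (mem_of_mem_erase h1)) hvB ?_
          rw [hD.ends _ hx v v1, v2, pair_comm]
        have : (CP G Z T (fun x => S.filter fun v => hm v = x) (σ j)).filter
            (fun c => ¬ G.Adj c v)
            = (CP G Z T (fun x => S.filter fun v => hm v = x) (σ j)).filter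
            (fun c => c ≠ v ∧ ¬ G.Adj v c) := by
          refine filter_congr fun c hc => ?_
          constructor
          · exact fun h => ⟨fun h' => hvn (h' ▸ hc), fun h' => h h'.symm⟩
          · exact fun h h' => h.2 h'.symm
        rw [this]
        rfl
      rw [h8, h9, h6, h7] at h4
      simp only [card_empty, Nat.cast_zero, sub_zero, mul_zero, zero_mul, add_zero,
        sum_empty] at h4
      have h10 : (NE G (∅ : Finset V) : ℤ) = 0 := by simp [NE]
      have h11 : ∑ c ∈ CP G Z T (fun x => S.filter fun v => hm v = x) (σ i),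
          (dg G (∅ : Finset V) c : ℤ) = 0 := by
        refine sum_eq_zero fun c _ => ?_
        simp [dg]
      rw [h10, h11] at h4
      nlinarith

/-- the data from plain homes and minimum covers -/
theorem WHomes.ndat {b p : ℕ} (hF : PFrame G r b t Z T) (hb : b ≤ r) (hp : 2 * r ≤ p)
    (h : HSys G Z T A S) (hw : WHomes G Z T p 1 A S hm)
    (hM : ∀ x ∈ A, MinSp G Z T hm A (fun x => S.filter fun v => hm v = x) x (X x) (Y x)) :
    NDat G Z T hm A S X := by
  have hC := h.csys hF hw.ok
  have hctr := h.ctr_slot hF hw.ok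
  refine ⟨hC, fun x hx => (hM x hx).sub, fun x hx v hv h1 => ?_, fun x hx v hv =>
    h.HP_BB hF hw.ok ((hM x hx).sub hv), fun x hx v hv =>
    (hC.ends_of_tlo hw.hh hx ((hM x hx).sub hv) rfl).2, fun x hx v hv h1 => ?_⟩
  · obtain ⟨a, ha⟩ := card_pos.1 h1
    obtain ⟨ha1, ha2, ha3⟩ := mem_filter.1 ha
    exact (hC.pc_tail hF hw.hh hctr hx ((hM x hx).sub hv) ha1
      (co_adj.2 ⟨fun h' => ha2 h'.symm, ha3⟩)).1
  · have hvH := (hM x hx).sub hv
    have hvS := mem_filter.1 (mem_HP.1 hvH).1
    have hvB := h.HP_BB hF hw.ok hvH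
    have he := (hC.ends_of_tlo hw.hh hx hvH rfl).2
    have h4 : tlo G T hm v ∈ rws G T v := by
      rw [rws_BB hvB, he]
      simp
    exact hw.kap_plain hF hb hp h hvS.1 hvS.2 (mem_of_mem_erase h1) (ne_of_mem_erase h1) h4

end TailB

end Pool.Agent.Lib.MP_f04ccf_co
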