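import Pool.Agent.Lib.MP_f04ccf_co.M.WNumB
import Pool.Agent.Lib.MP_f04ccf_co.M.PairC
import Pool.Agent.Lib.MP_f04ccf_co.M.TailB

/-!
MP_f04ccf_co, PLAN W, version [B] (notes 16568, 16824): the bridge from the whole frame with homes of
least weight (`WCoreK`, weights `2 r ≤ p`) and packings with the fewest PC pairs (`PkPP`) to the items
over the basic integers.  The excess of the N-ends with tail `z` is paid in the cell (`nxk x z`), the
unpaid part is `nbk x = 2 ∑_B (1 + |frC|) + both - 2 ∑_B (p - uin)`.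
`WCoreK.witk`, `WCoreK.exists_witk3`: every `WCoreK` gives `WItK` (`ItE` with these excesses).
-/

set_option autoImplicit false

namespace Pool.Agent.Lib.MP_f04ccf_co

open Finset

attribute [local instance] Classical.propDecidable

section ParE

variable {V : Type*} {G : SimpleGraph V}

lemma two_dvd_E (A : Finset V) : (2 : ℤ) ∣ (E G A : ℤ) := by
  have h1 := E_add_NE (G := G) A
  have h2 : (2 : ℤ) ∣ (NE G A : ℤ) := by exact_mod_cast two_dvd_NE (G := G) A
  have h3 : (2 : ℤ) ∣ (A.card : ℤ) * (A.card - 1) := by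
    rcases Int.even_or_odd (A.card : ℤ) with h | h
    · exact Dvd.dvd.mul_right h.two_dvd _
    · exact Dvd.dvd.mul_left (by obtain ⟨k, hk⟩ := h; exact ⟨k, by rw [hk]; ring⟩) _
  have h4 : (E G A : ℤ) = (A.card : ℤ) * (A.card - 1) - NE G A := by linarith
  rw [h4]
  exact dvd_sub h3 h2

/-- adjacent pairs inside the parts of a partition by tails -/
lemma sum_E_filter {ι : Type*} (X : Finset V) (tl : V → ι) (A : Finset ι)
    (ht : ∀ v ∈ X, tl v ∈ A) :
    ∑ z ∈ A, E G (X.filter fun v => tl v = z) ≤ E G X := by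
  have h1 : E G X = ∑ z ∈ A, ∑ v ∈ X.filter (fun v => tl v = z), dg G X v :=
    (sum_fiberwise_of_maps_to ht fun v => dg G X v).symm
  rw [h1]
  refine sum_le_sum fun z _ => sum_le_sum fun v _ => ?_
  exact card_le_card (filter_subset_filter _ (filter_subset _ _))

end ParE

section WK

variable {V : Type*} {G : SimpleGraph V} {Z T : Finset V} {hm : V → V} {r m n t p : ℕ}
  {φ : Finset (V × V) → Finset (Finset V) → ℕ} {A S : Finset V} {Q : Finset (V × V)}
  {Ps : Finset (Finset V)}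

variable (G) in
/-- the N-ends with tail `z` -/
noncomputable def nez {ι : Type*} (C H : Finset V) (tl : V → ι) (Q : Finset (V × V)) (z : ι) :
    Finset V :=
  (Nend G C H tl Q).filter fun v => tl v = z

variable (G) in
/-- the excess of the N-ends with tail `z` which is paid in the cell -/
noncomputable def nxk {ι : Type*} (C H : Finset V) (tl : V → ι) (Q : Finset (V × V)) (z : ι) : ℤ :=
  ∑ v ∈ nez G C H tl Q z, ((frC G C tl Q v).card : ℤ) - (E G (nez G C H tl Q z) : ℤ) / 2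

variable (G) in
/-- the unpaid excess (doubled): PC pairs, their free arcs, both arcs, minus the neighbours in the
parts -/
noncomputable def nbk {ι : Type*} (C H : Finset V) (tl : V → ι) (Q : Finset (V × V))
    (Ps : Finset (Finset V)) : ℤ :=
  2 * ∑ e ∈ Q, (1 + ((frC G C tl Q e.1).card : ℤ)) + bothB G tl Q
    - 2 * ∑ e ∈ Q, ((Ps.card - Pk.uin G tl (H \ Q.image Prod.fst) e : ℕ) : ℤ)

lemma two_nxk {ι : Type*} (C H : Finset V) (tl : V → ι) (Q : Finset (V × V)) (z : ι) :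
    2 * nxk G C H tl Q z = 2 * ∑ v ∈ nez G C H tl Q z, ((frC G C tl Q v).card : ℤ)
      - E G (nez G C H tl Q z) := by
  have h1 := two_dvd_E (G := G) (nez G C H tl Q z)
  unfold nxk
  omega

/-- **the energy of a packing with the fewest PC pairs over the basic integers** -/
theorem PkPP.energyK (hF : PFrame G r m t Z T) (hh : Homes G Z T hm)
    (hC : CSys G Z T hm A fun x => S.filter fun v => hm v = x)
    (ht : ∀ x ∈ A, ∀ v ∈ HP G Z T (fun x => S.filter fun v => hm v = x) x,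
      tlo G T hm v ∈ A.erase x) {x : V} (hx : x ∈ A)
    (h : PkPP G (CP G Z T (fun x => S.filter fun v => hm v = x) x)
      (HP G Z T (fun x => S.filter fun v => hm v = x) x) (tlo G T hm) φ Q Ps) :
    2 * eI G hm S x + (∑ u ∈ pkf Q Ps, (ivl u : ℤ)) * (∑ u ∈ pkf Q Ps, (ivl u : ℤ) + 1)
      ≤ 2 * ((∑ u ∈ pkf Q Ps, (ivl u : ℤ)) * hI G Z T hm S x)
        + nbk G (CP G Z T (fun x => S.filter fun v => hm v = x) x)
          (HP G Z T (fun x => S.filter fun v => hm v = x) x) (tlo G T hm) Q Ps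
        + 2 * ∑ z ∈ A.erase x, nxk G (CP G Z T (fun x => S.filter fun v => hm v = x) x)
          (HP G Z T (fun x => S.filter fun v => hm v = x) x) (tlo G T hm) Q z := by
  set C : Finset V := CP G Z T (fun x => S.filter fun v => hm v = x) x with hCd
  set H : Finset V := HP G Z T (fun x => S.filter fun v => hm v = x) x with hHd
  have hCH : Disjoint H C := (hC.dCH hx hx).symm
  have h1 := h.energyP (hC.h32 hF hh ht hx) (hC.CP_clq hF hx) hCH
  have h2 := h.toPk.sum_ivl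
  have h3 : ∑ u ∈ pkf Q Ps, (ivl u : ℤ) + Ps.card = (H.card : ℤ) := by exact_mod_cast h2
  have h5 := two_eI (G := G) (hm := hm) S x
  have hN : ∀ v ∈ Nend G C H (tlo G T hm) Q, tlo G T hm v ∈ A.erase x := fun v hv =>
    ht x hx v (mem_sdiff.1 (mem_Nend.1 hv).1).1
  have h6 : ∑ v ∈ Nend G C H (tlo G T hm) Q, ((frC G C (tlo G T hm) Q v).card : ℤ)
      = ∑ z ∈ A.erase x, ∑ v ∈ nez G C H (tlo G T hm) Q z,
        ((frC G C (tlo G T hm) Q v).card : ℤ) :=
    (sum_fiberwise_of_maps_to hN fun v => ((frC G C (tlo G T hm) Q v).card : ℤ)).symm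
  have h7 : ∑ z ∈ A.erase x, (E G (nez G C H (tlo G T hm) Q z) : ℤ)
      ≤ E G (Nend G C H (tlo G T hm) Q) := by
    exact_mod_cast sum_E_filter (G := G) (Nend G C H (tlo G T hm) Q) (tlo G T hm) (A.erase x) hN
  have h8 : 2 * ∑ z ∈ A.erase x, nxk G C H (tlo G T hm) Q z
      = 2 * ∑ z ∈ A.erase x, ∑ v ∈ nez G C H (tlo G T hm) Q z,
          ((frC G C (tlo G T hm) Q v).card : ℤ)
        - ∑ z ∈ A.erase x, (E G (nez G C H (tlo G T hm) Q z) : ℤ) := by
    rw [mul_sum, sum_congr rfl fun z _ => two_nxk C H (tlo G T hm) Q z, sum_sub_distrib,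
      ← mul_sum]
  have h10 : H ∪ C = S.filter fun v => hm v = x := by
    rw [union_comm]
    exact CP_union_HP
  rw [h10] at h1
  rw [h8, h5]
  have h9 : hI G Z T hm S x = (H.card : ℤ) := rfl
  rw [h9]
  set μ : ℤ := ∑ u ∈ pkf Q Ps, (ivl u : ℤ) with hμ
  have h4 : (Ps.card : ℤ) = (H.card : ℤ) - μ := by linarith
  unfold nbk
  rw [h4, h6] at h1
  nlinarith

/-- **(pair+) over the basic integers**: any members `Wx`, `Wz` outside the items -/
theorem WCoreK.pairK (hp : 2 * r ≤ p) (h : WCoreK G Z T r m n p hm) {B : V → Finset (V × V)}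
    {Ps : V → Finset (Finset V)}
    (hB : ∀ x ∈ T, Pk G (cz G Z T hm x) (hz G Z T hm x) (tlo G T hm) (B x) (Ps x))
    {x z : V} (hx : x ∈ T) (hz' : z ∈ T) (hxz : x ≠ z) {Wx Wz : Finset V}
    (hWx : Wx ⊆ hz G Z T hm x) (hWz : Wz ⊆ hz G Z T hm z)
    (hWxU : ∀ v ∈ Wx, ∀ u ∈ pkf (B x) (Ps x), v ∉ imem u)
    (hWzU : ∀ v ∈ Wz, ∀ u ∈ pkf (B z) (Ps z), v ∉ imem u) :
    ∑ u ∈ pkf (B x) (Ps x), iht G (cz G Z T hm) (tlo G T hm) z u
      + ∑ u ∈ pkf (B z) (Ps z), iht G (cz G Z T hm) (tlo G T hm) x u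
      + ∑ v ∈ Wx, (dg G (cz G Z T hm z) v : ℤ) + ∑ v ∈ Wz, (dg G (cz G Z T hm x) v : ℤ)
      + nxk G (cz G Z T hm x) (hz G Z T hm x) (tlo G T hm) (B x) z
      + nxk G (cz G Z T hm z) (hz G Z T hm z) (tlo G T hm) (B z) x ≤ EI G hm Z x z := by
  have hfam : ∀ x ∈ T, Fam (co G) (cz G Z T hm) (hz G Z T hm) (tlo G T hm) x
      (pkf (B x) (Ps x)) := fun x hx => (hB x hx).fam (h.csys.dCH hx hx).symm
  have hdis : ∀ y ∈ T, Disjoint (hz G Z T hm y) (cz G Z T hm y) := fun y hy =>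
    (h.csys.dCH hy hy).symm
  have hpcz : ∀ y w : V, pcz (tlo G T hm) w (pkf (B y) (Ps y)) = pcs (tlo G T hm) (B y) w := by
    intro y w
    ext e
    rw [mem_pcz, inr_mem_pkf, mem_pcs]
  have key : ∀ y ∈ T, ∀ w ∈ T, y ≠ w →
      ∀ v ∈ nez G (cz G Z T hm y) (hz G Z T hm y) (tlo G T hm) (B y) w,
      v ∈ hz G Z T hm y ∧ tlo G T hm v = w ∧ v ∉ (B y).image Prod.fst ∧
      (frC G (cz G Z T hm y) (tlo G T hm) (B y) v).card
        ≤ (msd G (cz G Z T hm y) v
          \ (pcz (tlo G T hm) w (pkf (B y) (Ps y))).image Prod.snd).card ∧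
      (frC G (cz G Z T hm y) (tlo G T hm) (B y) v).card ≤ (msd G (cz G Z T hm w) v).card := by
    intro y hy w hw hyw v hv
    obtain ⟨hv1, hv2⟩ := mem_filter.1 hv
    obtain ⟨hv3, -⟩ := mem_Nend.1 hv1
    obtain ⟨hv4, hv5⟩ := mem_sdiff.1 hv3
    have hvC : v ∉ cz G Z T hm y := fun h1 => disjoint_left.1 (hdis y hy) hv4 h1
    have e1 := frC_eq (G := G) (B := B y) (tl := tlo G T hm) hvC
    rw [hv2] at e1
    have e2 : (frC G (cz G Z T hm y) (tlo G T hm) (B y) v).card
        ≤ (msd G (cz G Z T hm y) v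
          \ (pcz (tlo G T hm) w (pkf (B y) (Ps y))).image Prod.snd).card := by
      rw [e1, hpcz]
      refine card_le_card fun a ha => ?_
      obtain ⟨h1, h2⟩ := mem_filter.1 ha
      obtain ⟨h3, h4⟩ := mem_sdiff.1 h1
      exact mem_sdiff.2 ⟨mem_filter.2 ⟨h3, h2⟩, h4⟩
    refine ⟨hv4, hv2, hv5, e2, e2.trans ((card_le_card sdiff_subset).trans ?_)⟩
    have h1 : v ∈ Z.filter fun v => hm v = y := (mem_HP.1 hv4).1
    obtain ⟨h2, h3⟩ := mem_filter.1 h1
    have h4 := h.csys.ends_of_tlo h.hh hy hv4 hv2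
    have h5 : w ∈ rws G T v := by
      rw [rws_BB (h.hsys.HP_BB h.F.toPFrame h.ok hv4), h4.2]
      simp
    have h6 := h.H.kap_plain h.F.toPFrame h.hmr hp h.hsys h2 h3 hw hyw.symm h5
    rw [msd_card, msd_card]
    exact h6
  have h1 := Fam.pair_nt h.F.toPFrame h.hh h.csys h.wsysT hfam hx hz' hxz hWx hWz hWxU hWzU
    (P := nez G (cz G Z T hm x) (hz G Z T hm x) (tlo G T hm) (B x) z)
    (P' := nez G (cz G Z T hm z) (hz G Z T hm z) (tlo G T hm) (B z) x)
    (fun v hv => (key x hx z hz' hxz v hv).1) (fun v hv => (key z hz' x hx hxz.symm v hv).1)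
    (fun v hv => (key x hx z hz' hxz v hv).2.1) (fun v hv => (key z hz' x hx hxz.symm v hv).2.1)
    (fun v hv e he h2 => (key x hx z hz' hxz v hv).2.2.1
      (h2 ▸ mem_image_of_mem _ (inr_mem_pkf.1 he)))
    (fun v hv e he h2 => (key z hz' x hx hxz.symm v hv).2.2.1
      (h2 ▸ mem_image_of_mem _ (inr_mem_pkf.1 he)))
    (κ := fun v => if hm v = x then (frC G (cz G Z T hm x) (tlo G T hm) (B x) v).card
      else (frC G (cz G Z T hm z) (tlo G T hm) (B z) v).card)
    (fun v hv => ?_) (fun v hv => ?_) (fun v hv => ?_) (fun v hv => ?_)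
  · have e1 : ∀ v ∈ nez G (cz G Z T hm x) (hz G Z T hm x) (tlo G T hm) (B x) z, hm v = x :=
      fun v hv => (mem_filter.1 (mem_HP.1 (key x hx z hz' hxz v hv).1).1).2
    have e2 : ∀ v ∈ nez G (cz G Z T hm z) (hz G Z T hm z) (tlo G T hm) (B z) x, hm v ≠ x :=
      fun v hv h2 => hxz
        (h2.symm.trans (mem_filter.1 (mem_HP.1 (key z hz' x hx hxz.symm v hv).1).1).2)
    have e3 := sum_congr (rfl : nez G (cz G Z T hm x) (hz G Z T hm x) (tlo G T hm) (B x) z = _)
      fun v hv => show (((if hm v = x then (frC G (cz G Z T hm x) (tlo G T hm) (B x) v).card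
        else (frC G (cz G Z T hm z) (tlo G T hm) (B z) v).card : ℕ)) : ℤ)
          = ((frC G (cz G Z T hm x) (tlo G T hm) (B x) v).card : ℤ) by rw [if_pos (e1 v hv)]
    have e4 := sum_congr (rfl : nez G (cz G Z T hm z) (hz G Z T hm z) (tlo G T hm) (B z) x = _)
      fun v hv => show (((if hm v = x then (frC G (cz G Z T hm x) (tlo G T hm) (B x) v).card
        else (frC G (cz G Z T hm z) (tlo G T hm) (B z) v).card : ℕ)) : ℤ)
          = ((frC G (cz G Z T hm z) (tlo G T hm) (B z) v).card : ℤ) by rw [if_neg (e2 v hv)]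
    rw [e3, e4] at h1
    have h2 := two_nxk (G := G) (cz G Z T hm x) (hz G Z T hm x) (tlo G T hm) (B x) z
    have h3 := two_nxk (G := G) (cz G Z T hm z) (hz G Z T hm z) (tlo G T hm) (B z) x
    have h4 : EI G hm Z x z
        = ∑ v ∈ Z.filter (fun v => hm v = z), (dg G (Z.filter fun v => hm v = x) v : ℤ) := rfl
    rw [h4]
    linarith
  · have e1 : hm v = x := (mem_filter.1 (mem_HP.1 (key x hx z hz' hxz v hv).1).1).2
    simp only [e1, if_true]
    exact (key x hx z hz' hxz v hv).2.2.2.1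
  · have e1 : hm v = x := (mem_filter.1 (mem_HP.1 (key x hx z hz' hxz v hv).1).1).2
    simp only [e1, if_true]
    exact (key x hx z hz' hxz v hv).2.2.2.2
  · have e1 : hm v ≠ x := fun h2 => hxz
      (h2.symm.trans (mem_filter.1 (mem_HP.1 (key z hz' x hx hxz.symm v hv).1).1).2)
    simp only [e1, if_false]
    exact (key z hz' x hx hxz.symm v hv).2.2.2.1
  · have e1 : hm v ≠ x := fun h2 => hxz
      (h2.symm.trans (mem_filter.1 (mem_HP.1 (key z hz' x hx hxz.symm v hv).1).1).2)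
    simp only [e1, if_false]
    exact (key z hz' x hx hxz.symm v hv).2.2.2.2

variable (G Z T hm r n) in
/-- the items of the packings `PkPP` of all hosts over the basic integers -/
structure WItK (φ : Finset (V × V) → Finset (Finset V) → ℕ) (B : V → Finset (V × V))
    (Ps : V → Finset (Finset V)) (host : Itm V → V) (ρ : V → ℕ) (σ : ℕ → V) : Prop where
  pk : ∀ x ∈ T, PkPP G (cz G Z T hm x) (hz G Z T hm x) (tlo G T hm) φ (B x) (Ps x)
  hst : ∀ x ∈ T, ∀ u ∈ pkf (B x) (Ps x), host u = x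
  rk : Rank T (tI G Z T hm r Z) ρ σ
  cT : T.card = n
  bic : BIC ((r : ℤ) - 1) n (fun i => tI G Z T hm r Z (σ i)) (fun i => sI hm r Z (σ i))
    (fun i => hI G Z T hm Z (σ i)) (fun i => eI G hm Z (σ i))
    (fun i j => EI G hm Z (σ i) (σ j))
  it : ItE ((r : ℤ) - 1) n (fun i => tI G Z T hm r Z (σ i)) (fun i => sI hm r Z (σ i))
    (fun i => hI G Z T hm Z (σ i)) (fun i => eI G hm Z (σ i))
    (fun i j => EI G hm Z (σ i) (σ j)) (T.biUnion fun x => pkf (B x) (Ps x))
    (fun u => ρ (host u)) (fun u => (ivl u : ℤ)) (fun i u => (ikp (tlo G T hm) (σ i) u : ℤ))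
    (fun i u => (ims G (cz G Z T hm) (tlo G T hm) (σ i) u : ℤ))
    (fun i u => (rmr G (cz G Z T hm) (tlo G T hm) (σ i) u : ℤ))
    (fun i => ∑ u ∈ pkf (B (σ i)) (Ps (σ i)), (ivl u : ℤ))
    (fun i => nbk G (cz G Z T hm (σ i)) (hz G Z T hm (σ i)) (tlo G T hm) (B (σ i)) (Ps (σ i)))
    (fun i j => nxk G (cz G Z T hm (σ i)) (hz G Z T hm (σ i)) (tlo G T hm) (B (σ i)) (σ j))

/-- **the bridge, version [B]**, for any packings `PkPP`, hosts and rank -/
theorem WCoreK.witk (hp : 2 * r ≤ p) (h : WCoreK G Z T r m n p hm) {B : V → Finset (V × V)}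
    {Ps : V → Finset (Finset V)} {host : Itm V → V}
    (hB : ∀ x ∈ T, PkPP G (cz G Z T hm x) (hz G Z T hm x) (tlo G T hm) φ (B x) (Ps x))
    (hhost : ∀ x ∈ T, ∀ u ∈ pkf (B x) (Ps x), host u = x) {ρ : V → ℕ} {σ : ℕ → V}
    (hσ : Rank T (tI G Z T hm r Z) ρ σ) : WItK G Z T hm r n φ B Ps host ρ σ := by
  have hbic := h.toWHom.bic_rank hσ
  have hfam : ∀ x ∈ T, Fam (co G) (cz G Z T hm) (hz G Z T hm) (tlo G T hm) x
      (pkf (B x) (Ps x)) := fun x hx =>
    (hB x hx).toPk.fam (h.csys.dCH hx hx).symm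
  have his := h.toWHom.isys hfam hhost
  have hfil : ∀ x ∈ T, (T.biUnion fun x => pkf (B x) (Ps x)).filter (fun u => host u = x)
      = pkf (B x) (Ps x) := by
    intro x hx
    ext u
    simp only [mem_filter, mem_biUnion]
    constructor
    · rintro ⟨⟨y, hy, hu⟩, h1⟩
      have h2 : x = y := h1.symm.trans (hhost y hy u hu)
      rw [h2]
      exact hu
    · intro hu
      exact ⟨⟨x, hx, hu⟩, hhost x hx u hu⟩
  have hcard := h.cardT
  have hbi := hbic.toBI
  rw [← hcard] at hbi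
  have hite := his.ite hσ hbi (muX := fun x => ∑ u ∈ pkf (B x) (Ps x), (ivl u : ℤ))
    (NbX := fun x => nbk G (cz G Z T hm x) (hz G Z T hm x) (tlo G T hm) (B x) (Ps x))
    (NxX := fun x z => nxk G (cz G Z T hm x) (hz G Z T hm x) (tlo G T hm) (B x) z)
    (fun x hx => by rw [hfil x hx])
    (fun x hx => (hB x hx).toPk.mu_le)
    (fun x hx => PkPP.energyK h.F.toPFrame h.hh h.csys h.toWHom.ht hx (hB x hx))
    (fun x hx z hz' hxz => by
      have h1 := h.pairK hp (fun x hx => (hB x hx).toPk) hx hz' hxz (empty_subset _)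
        (empty_subset _) (fun v hv => absurd hv (notMem_empty v))
        (fun v hv => absurd hv (notMem_empty v))
      rw [sum_empty, sum_empty] at h1
      rw [hfil x hx, hfil z hz']
      have h2 : ∀ (y : V) (u : Itm V), (ikp (tlo G T hm) y u : ℤ)
          * ((r : ℤ) - 1 - tI G Z T hm r Z y) - (ims G (cz G Z T hm) (tlo G T hm) y u : ℤ)
          = iht G (cz G Z T hm) (tlo G T hm) y u := by
        intro y u
        unfold iht tI
        ring
      simp only [h2]
      linarith)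
  rw [hcard] at hite
  exact ⟨hB, hhost, hσ, hcard, hbic, hite⟩

/-- **packings with the fewest PC pairs of all hosts, with hosts of the items** -/
theorem WHom.exists_packsK (h : WHom G Z T r m n hm)
    (φ : Finset (V × V) → Finset (Finset V) → ℕ) :
    ∃ (B : V → Finset (V × V)) (Ps : V → Finset (Finset V)) (host : Itm V → V),
      (∀ x ∈ T, PkPP G (cz G Z T hm x) (hz G Z T hm x) (tlo G T hm) φ (B x) (Ps x)) ∧
      ∀ x ∈ T, ∀ u ∈ pkf (B x) (Ps x), host u = x := by
  choose B Ps hB using fun x => exists_pkpp (G := G) (C := cz G Z T hm x)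
    (H := hz G Z T hm x) (tl := tlo G T hm) φ
  have hfam : ∀ x ∈ T, Fam (co G) (cz G Z T hm) (hz G Z T hm) (tlo G T hm) x
      (pkf (B x) (Ps x)) := fun x hx =>
    (hB x).toPk.fam (h.csys.dCH hx hx).symm
  have hne : T.Nonempty := by
    rw [← card_pos, h.cardT]
    have := h.five
    omega
  obtain ⟨host, hhost⟩ := Fam.exists_host h.csys hne hfam
  exact ⟨B, Ps, host, fun x _ => hB x, hhost⟩

/-- **the bridge, version [B], with a lexicographic rank** `(t, b, c)`; `b`, `c` may depend on the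
packings -/
theorem WCoreK.exists_witk3 (hp : 2 * r ≤ p) (h : WCoreK G Z T r m n p hm)
    (φ : Finset (V × V) → Finset (Finset V) → ℕ)
    (b c : (V → Finset (V × V)) → (V → Finset (Finset V)) → V → ℤ) :
    ∃ B Ps host ρ σ, WItK G Z T hm r n φ B Ps host ρ σ ∧
      ∀ i j, i ≤ j → j < n → tI G Z T hm r Z (σ j) < tI G Z T hm r Z (σ i) ∨
        tI G Z T hm r Z (σ j) = tI G Z T hm r Z (σ i) ∧
          (b B Ps (σ j) < b B Ps (σ i) ∨ b B Ps (σ j) = b B Ps (σ i) ∧
            c B Ps (σ j) ≤ c B Ps (σ i)) := by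
  obtain ⟨B, Ps, host, hB, hhost⟩ := h.exists_packsK φ
  have hne : T.Nonempty := by
    rw [← card_pos, h.cardT]
    have := h.five
    omega
  obtain ⟨ρ, σ, hσ, hlex⟩ := exists_rank3 T hne (tI G Z T hm r Z) (b B Ps) (c B Ps)
  rw [h.cardT] at hlex
  exact ⟨B, Ps, host, ρ, σ, h.witk hp hB hhost hσ, hlex⟩

/-- **the bridge, version [B], with the rank `(t, h, mu)`** -/
theorem WCoreK.exists_witkM (hp : 2 * r ≤ p) (h : WCoreK G Z T r m n p hm)
    (φ : Finset (V × V) → Finset (Finset V) → ℕ) :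
    ∃ B Ps host ρ σ, WItK G Z T hm r n φ B Ps host ρ σ ∧
      ∀ i j, i ≤ j → j < n → tI G Z T hm r Z (σ j) < tI G Z T hm r Z (σ i) ∨
        tI G Z T hm r Z (σ j) = tI G Z T hm r Z (σ i) ∧
          (hI G Z T hm Z (σ j) < hI G Z T hm Z (σ i) ∨
            hI G Z T hm Z (σ j) = hI G Z T hm Z (σ i) ∧
            ∑ u ∈ pkf (B (σ j)) (Ps (σ j)), (ivl u : ℤ)
              ≤ ∑ u ∈ pkf (B (σ i)) (Ps (σ i)), (ivl u : ℤ)) :=
  h.exists_witk3 hp φ (fun _ _ => hI G Z T hm Z)
    fun B Ps x => ∑ u ∈ pkf (B x) (Ps x), (ivl u : ℤ)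

end WK

end Pool.Agent.Lib.MP_f04ccf_co
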