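import Pool.Agent.Lib.MP_f04ccf_co.M.MatT
import Pool.Agent.Lib.MP_f04ccf_co.M.WNumK

/-!
MP_f04ccf_co, PLAN W (note 17113): the same-host saving.  Two items of one host which are used with all
their points at the same row have an adjacent pair between them.  `NE_grp_le`: missing pairs of a union
of groups, every pair of groups with an adjacent pair between them is saved.  `Pk.adj_full`: the items.
`Fam.row_same`: the row test with the saving, `WHom.row_sameI` over the basic integers.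
-/

set_option autoImplicit false

namespace Pool.Agent.Lib.MP_f04ccf_co

open Finset

attribute [local instance] Classical.propDecidable

section Grp

variable {ι V : Type*} {G : SimpleGraph V}

/-- the missing pairs as a set of pairs -/
lemma NE_eq_card (W : Finset V) :
    NE G W = ((W ×ˢ W).filter fun e => e.2 ≠ e.1 ∧ ¬ G.Adj e.1 e.2).card := by
  unfold NE nd
  rw [card_filter, sum_product]
  refine sum_congr rfl fun x _ => ?_
  rw [card_filter]

/-- **missing pairs of a union of groups**: the pairs of groups in `D` have an adjacent pair -/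
theorem NE_grp_le {K : Finset ι} {P : ι → Finset V}
    (hd : ∀ u ∈ K, ∀ v ∈ K, u ≠ v → Disjoint (P u) (P v)) {D : Finset (ι × ι)}
    (hD : ∀ e ∈ D, e.1 ∈ K ∧ e.2 ∈ K ∧ ∃ p ∈ P e.1, ∃ q ∈ P e.2, G.Adj p q) :
    NE G (K.biUnion P) + D.card + (K.biUnion P).card
      ≤ (K.biUnion P).card * (K.biUnion P).card := by
  set W := K.biUnion P with hW
  have h1 : D.card ≤ ((W ×ˢ W).filter fun e => G.Adj e.1 e.2).card := by
    have e1 : D.card ≤ ∑ e ∈ D, ((P e.1 ×ˢ P e.2).filter fun f => G.Adj f.1 f.2).card := by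
      rw [card_eq_sum_ones]
      refine sum_le_sum fun e he => ?_
      obtain ⟨-, -, p, hp, q, hq, hpq⟩ := hD e he
      exact card_pos.2 ⟨(p, q), mem_filter.2 ⟨mem_product.2 ⟨hp, hq⟩, hpq⟩⟩
    refine e1.trans ?_
    rw [← card_biUnion]
    · refine card_le_card (biUnion_subset.2 fun e he => ?_)
      obtain ⟨ha, hb, -⟩ := hD e he
      refine filter_subset_filter _ (product_subset_product ?_ ?_)
      · exact subset_biUnion_of_mem P ha
      · exact subset_biUnion_of_mem P hb
    · intro e he f hf hef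
      obtain ⟨ha, hb, -⟩ := hD e he
      obtain ⟨ha', hb', -⟩ := hD f hf
      show Disjoint _ _
      rw [disjoint_left]
      intro g hg hg'
      obtain ⟨h2, h3⟩ := mem_product.1 (mem_filter.1 hg).1
      obtain ⟨h4, h5⟩ := mem_product.1 (mem_filter.1 hg').1
      apply hef
      refine Prod.ext ?_ ?_
      · by_contra h6
        exact disjoint_left.1 (hd _ ha _ ha' h6) h2 h4
      · by_contra h6
        exact disjoint_left.1 (hd _ hb _ hb' h6) h3 h5
  have h2 : W.card = ((W ×ˢ W).filter fun e => e.1 = e.2).card := by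
    refine card_bij (fun v _ => (v, v)) (fun v hv => ?_) (fun v _ w _ h => ?_) fun e he => ?_
    · exact mem_filter.2 ⟨mem_product.2 ⟨hv, hv⟩, rfl⟩
    · exact (Prod.ext_iff.1 h).1
    · obtain ⟨h3, h4⟩ := mem_filter.1 he
      exact ⟨e.1, (mem_product.1 h3).1, Prod.ext rfl h4⟩
  rw [← card_product W W, NE_eq_card]
  have h3 : Disjoint ((W ×ˢ W).filter fun e => e.2 ≠ e.1 ∧ ¬ G.Adj e.1 e.2)
      ((W ×ˢ W).filter fun e => G.Adj e.1 e.2) := by
    rw [disjoint_left]
    intro e he he'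
    exact (mem_filter.1 he).2.2 (mem_filter.1 he').2
  have h4 : Disjoint (((W ×ˢ W).filter fun e => e.2 ≠ e.1 ∧ ¬ G.Adj e.1 e.2)
      ∪ ((W ×ˢ W).filter fun e => G.Adj e.1 e.2)) ((W ×ˢ W).filter fun e => e.1 = e.2) := by
    rw [disjoint_left]
    intro e he he'
    have h5 := (mem_filter.1 he').2
    rcases mem_union.1 he with h6 | h6
    · exact (mem_filter.1 h6).2.1 h5.symm
    · exact (mem_filter.1 h6).2.ne h5
  have h5 : ((((W ×ˢ W).filter fun e => e.2 ≠ e.1 ∧ ¬ G.Adj e.1 e.2)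
      ∪ ((W ×ˢ W).filter fun e => G.Adj e.1 e.2)) ∪ ((W ×ˢ W).filter fun e => e.1 = e.2)).card
      ≤ (W ×ˢ W).card :=
    card_le_card (union_subset (union_subset (filter_subset _ _) (filter_subset _ _))
      (filter_subset _ _))
  rw [card_union_of_disjoint h4, card_union_of_disjoint h3, ← h2] at h5
  omega

/-- the ordered pairs of different elements of one class -/
lemma card_same {κ : Type*} [DecidableEq κ] (K : Finset ι) (f : ι → κ) (J : Finset κ)
    (hJ : ∀ u ∈ K, f u ∈ J) :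
    (((K ×ˢ K).filter fun e => e.1 ≠ e.2 ∧ f e.1 = f e.2).card : ℤ)
      = ∑ j ∈ J, ((K.filter fun u => f u = j).card : ℤ)
        * (((K.filter fun u => f u = j).card : ℤ) - 1) := by
  have h1 : ((K ×ˢ K).filter fun e => e.1 ≠ e.2 ∧ f e.1 = f e.2)
      = J.biUnion fun j => (K.filter fun u => f u = j).offDiag := by
    ext e
    simp only [mem_filter, mem_product, mem_biUnion, mem_offDiag]
    constructor
    · rintro ⟨⟨h1, h2⟩, h3, h4⟩
      exact ⟨f e.1, hJ _ h1, ⟨h1, rfl⟩, ⟨h2, h4.symm⟩, h3⟩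
    · rintro ⟨j, -, ⟨h1, h2⟩, ⟨h3, h4⟩, h5⟩
      exact ⟨⟨h1, h3⟩, h5, h2.trans h4.symm⟩
  rw [h1, card_biUnion, Nat.cast_sum]
  · refine sum_congr rfl fun j _ => ?_
    rw [offDiag_card]
    have : (K.filter fun u => f u = j).card
        ≤ (K.filter fun u => f u = j).card * (K.filter fun u => f u = j).card :=
      Nat.le_mul_self _
    rw [Nat.cast_sub this]
    push_cast
    ring
  · intro i _ j _ hij
    show Disjoint _ _
    rw [disjoint_left]
    intro e he he'
    rw [mem_offDiag, mem_filter, mem_filter] at he he'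
    exact hij (he.1.2.symm.trans he'.1.2)

end Grp

section AdjF

variable {V : Type*} {G : SimpleGraph V} {Z T : Finset V} {hm : V → V} {r m t : ℕ}
  {A : Finset V} {S : V → Finset V} {B : Finset (V × V)} {Ps : Finset (Finset V)}

/-- an item which is used with all its points: a point of tail `z`, or a PC pair of tail `z` -/
lemma full_tail {tl : V → V} {z : V} {Q : Finset V} (h2 : 2 ≤ Q.card)
    (h : ikp tl z (Sum.inl Q) = ivl (Sum.inl Q : Itm V)) : ∃ p ∈ Q, tl p = z := by
  have h1 : ivl (Sum.inl Q : Itm V) = Q.card - 1 := rfl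
  have h3 : ikp tl z (Sum.inl Q) ≠ 0 := by
    rw [h, h1]
    omega
  by_cases hone : tlp tl Q z = Q
  · obtain ⟨p, hp⟩ : Q.Nonempty := card_pos.1 (by omega)
    exact ⟨p, hp, (mem_tlp.1 (hone.symm ▸ hp)).2⟩
  · simp only [ikp, hone, if_false] at h3
    obtain ⟨p, hp⟩ := card_pos.1 (Nat.pos_of_ne_zero h3)
    exact ⟨p, (mem_tlp.1 hp).1, (mem_tlp.1 hp).2⟩

/-- **two items of one host loaded at the same row have adjacent points** (least number of parts; all
points of the items) -/
theorem Pk.adj_full (hF : PFrame G r m t Z T) (hh : Homes G Z T hm) (hC : CSys G Z T hm A S)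
    (ht : ∀ x ∈ A, ∀ v ∈ HP G Z T S x, tlo G T hm v ∈ A.erase x) {x : V} (hx : x ∈ A)
    (h : Pk G (CP G Z T S x) (HP G Z T S x) (tlo G T hm) B Ps)
    (min : ∀ B' Ps', Pk G (CP G Z T S x) (HP G Z T S x) (tlo G T hm) B' Ps' →
      Ps.card ≤ Ps'.card) {z : V} {u v : Itm V} (hu : u ∈ pkf B Ps) (hv : v ∈ pkf B Ps)
    (huv : u ≠ v) (hku : ikp (tlo G T hm) z u = ivl u) (hkv : ikp (tlo G T hm) z v = ivl v) :
    ∃ p ∈ ipts u, ∃ q ∈ ipts v, G.Adj p q := by
  have h32 := hC.h32 hF hh ht hx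
  have hPC : ∀ Q ∈ Ps, 2 ≤ Q.card → ikp (tlo G T hm) z (Sum.inl Q) = ivl (Sum.inl Q : Itm V) →
      ∀ e ∈ B, tlo G T hm e.1 = z → ∃ p ∈ Q, G.Adj p e.1 ∨ G.Adj p e.2 := by
    intro Q hQ hQ2 hkQ e he hez
    obtain ⟨p, hp, hpz⟩ := full_tail hQ2 hkQ
    refine ⟨p, hp, ?_⟩
    by_contra hcon
    push Not at hcon
    have hpe : p ≠ e.1 := fun h1 => h.dw e he Q hQ (h1 ▸ hp)
    exact hcon.1 (h32 p (h.sub Q hQ hp) e.1 (h.bH e he) e.2 (h.bC e he) hpe
      (hpz.trans hez.symm) hcon.2 (h.bN e he))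
  rcases u with Q | e <;> rcases v with Q' | f
  · obtain ⟨hQ, hQ2⟩ := inl_mem_pkf.1 hu
    obtain ⟨hQ', hQ2'⟩ := inl_mem_pkf.1 hv
    have hne : Q ≠ Q' := fun h1 => huv (by rw [h1])
    by_contra hcon
    push Not at hcon
    have hcon' : ∀ p ∈ Q, ∀ q ∈ Q', ¬ G.Adj p q := fun p hp q hq => hcon p hp q hq
    set Ps' := insert (Q ∪ Q') ((Ps.erase Q).erase Q') with hPs'
    have hmem : ∀ P ∈ Ps', P = Q ∪ Q' ∨ (P ∈ Ps ∧ P ≠ Q ∧ P ≠ Q') := by
      intro P hP
      rcases mem_insert.1 hP with h1 | h1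
      · exact Or.inl h1
      · obtain ⟨h2, h3⟩ := mem_erase.1 h1
        obtain ⟨h4, h5⟩ := mem_erase.1 h3
        exact Or.inr ⟨h5, h4, h2⟩
    have hpk : Pk G (CP G Z T S x) (HP G Z T S x) (tlo G T hm) B Ps' := by
      refine ⟨h.bH, h.bC, h.bN, h.b1, h.b2, ?_, ?_, ?_, ?_, ?_, ?_⟩
      · intro P hP
        rcases hmem P hP with h1 | h1
        · rw [h1]
          exact (h.ne Q hQ).mono subset_union_left
        · exact h.ne P h1.1
      · intro P hP
        rcases hmem P hP with h1 | h1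
        · rw [h1]
          exact union_subset (h.sub Q hQ) (h.sub Q' hQ')
        · exact h.sub P h1.1
      · intro P hP
        rcases hmem P hP with h1 | h1
        · rw [h1]
          intro a ha b hb
          rcases mem_union.1 ha with h2 | h2 <;> rcases mem_union.1 hb with h3 | h3
          · exact h.ind Q hQ a h2 b h3
          · exact hcon' a h2 b h3
          · exact fun h4 => hcon' b h3 a h2 h4.symm
          · exact h.ind Q' hQ' a h2 b h3
        · exact h.ind P h1.1
      · intro P hP P' hP' hPP'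
        rcases hmem P hP with h1 | h1 <;> rcases hmem P' hP' with h2 | h2
        · exact absurd (h1.trans h2.symm) hPP'
        · rw [h1, disjoint_union_left]
          exact ⟨h.dis Q hQ P' h2.1 h2.2.1.symm, h.dis Q' hQ' P' h2.1 h2.2.2.symm⟩
        · rw [h2, disjoint_union_right]
          exact ⟨h.dis P h1.1 Q hQ h1.2.1, h.dis P h1.1 Q' hQ' h1.2.2⟩
        · exact h.dis P h1.1 P' h2.1 hPP'
      · intro e he P hP
        rcases hmem P hP with h1 | h1
        · rw [h1, mem_union]
          rintro (h2 | h2)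
          · exact h.dw e he Q hQ h2
          · exact h.dw e he Q' hQ' h2
        · exact h.dw e he P h1.1
      · intro v hv
        rcases h.cov v hv with h1 | ⟨P, hP, hvP⟩
        · exact Or.inl h1
        · right
          by_cases h2 : P = Q
          · exact ⟨Q ∪ Q', mem_insert_self _ _, mem_union_left _ (h2 ▸ hvP)⟩
          · by_cases h3 : P = Q'
            · exact ⟨Q ∪ Q', mem_insert_self _ _, mem_union_right _ (h3 ▸ hvP)⟩
            · exact ⟨P, mem_insert_of_mem (mem_erase.2 ⟨h3, mem_erase.2 ⟨h2, hP⟩⟩), hvP⟩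
    have h1 := min B Ps' hpk
    have h2 : Ps'.card ≤ ((Ps.erase Q).erase Q').card + 1 := card_insert_le _ _
    have h3 : ((Ps.erase Q).erase Q').card = (Ps.erase Q).card - 1 :=
      card_erase_of_mem (mem_erase.2 ⟨hne.symm, hQ'⟩)
    have h4 : (Ps.erase Q).card = Ps.card - 1 := card_erase_of_mem hQ
    have h5 : 1 < Ps.card := one_lt_card.2 ⟨Q, hQ, Q', hQ', hne⟩
    omega
  · obtain ⟨hQ, hQ2⟩ := inl_mem_pkf.1 hu
    have hf := inr_mem_pkf.1 hv
    have hfz : tlo G T hm f.1 = z := by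
      by_contra h1
      simp only [ikp, h1, if_false, ivl] at hkv
      exact absurd hkv (by norm_num)
    obtain ⟨p, hp, h1⟩ := hPC Q hQ hQ2 hku f hf hfz
    rcases h1 with h1 | h1
    · exact ⟨p, hp, f.1, by simp [ipts], h1⟩
    · exact ⟨p, hp, f.2, by simp [ipts], h1⟩
  · obtain ⟨hQ, hQ2⟩ := inl_mem_pkf.1 hv
    have he := inr_mem_pkf.1 hu
    have hez : tlo G T hm e.1 = z := by
      by_contra h1
      simp only [ikp, h1, if_false, ivl] at hku
      exact absurd hku (by norm_num)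
    obtain ⟨p, hp, h1⟩ := hPC Q' hQ hQ2 hkv e he hez
    rcases h1 with h1 | h1
    · exact ⟨e.1, by simp [ipts], p, hp, h1.symm⟩
    · exact ⟨e.2, by simp [ipts], p, hp, h1.symm⟩
  · have he := inr_mem_pkf.1 hu
    have hf := inr_mem_pkf.1 hv
    have hez : tlo G T hm e.1 = z := by
      by_contra h1
      simp only [ikp, h1, if_false, ivl] at hku
      exact absurd hku (by norm_num)
    have hfz : tlo G T hm f.1 = z := by
      by_contra h1
      simp only [ikp, h1, if_false, ivl] at hkv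
      exact absurd hkv (by norm_num)
    have hne : e.2 ≠ f.2 := fun h1 => huv (by rw [h.b2 e he f hf h1 (hez.trans hfz.symm)])
    exact ⟨e.2, by simp [ipts], f.2, by simp [ipts],
      hC.CP_clq hF hx e.2 (h.bC e he) f.2 (h.bC f hf) hne⟩

/-- an item with load equal to its value is used with all its points, when one point outside is used -/
lemma rpts_full {tl : V → V} {z : V} {X : Finset V → Finset V} {u : Itm V}
    (hX : ∀ Q, X Q ⊆ oth tl z Q) (hX1 : ∀ Q, (oth tl z Q).Nonempty → 1 ≤ (X Q).card)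
    (h2 : ∀ Q, u = Sum.inl Q → 2 ≤ Q.card) (h : ikp tl z u = ivl u) :
    rpts tl X z u = ipts u := by
  rcases u with Q | e
  · have hQ2 := h2 Q rfl
    show tlp tl Q z ∪ X Q = Q
    by_cases hone : tlp tl Q z = Q
    · rw [hone]
      exact union_eq_left.2 ((hX Q).trans (sdiff_subset))
    · have h3 : (tlp tl Q z).card = Q.card - 1 := by
        simp only [ikp, hone, if_false, ivl] at h
        exact h
      have h4 : (oth tl z Q).card = Q.card - (tlp tl Q z).card := card_sdiff_of_subset tlp_sub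
      have h5 : (oth tl z Q).Nonempty := card_pos.1 (by omega)
      have h6 : X Q = oth tl z Q :=
        eq_of_subset_of_card_le (hX Q) (by have := hX1 Q h5; omega)
      rw [h6]
      unfold oth
      exact union_sdiff_of_subset tlp_sub
  · rfl

end AdjF

section RowS

variable {V : Type*} {G : SimpleGraph V} {Z T : Finset V} {hm : V → V} {r m n : ℕ}
  {A : Finset V} {S : V → Finset V} {U : V → Finset (Itm V)}

/-- **the row test with saved pairs**: `D` ordered pairs of items with an adjacent pair of used points -/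
theorem Fam.row_same (hP : PG G r) (hC : CSys G Z T hm A S)
    (hW : WSysT G (co G) A (CP G Z T S) (HP G Z T S) (tlo G T hm))
    (h : ∀ x ∈ A, Fam (co G) (CP G Z T S) (HP G Z T S) (tlo G T hm) x (U x))
    {z : V} (hz : z ∈ A) {K : Finset (Itm V)} (hK : K ⊆ (A.erase z).biUnion U)
    (hk : ∀ u ∈ K, ikp (tlo G T hm) z u ≠ 0)
    {X : Finset V → Finset V} (hX : ∀ Q, X Q ⊆ oth (tlo G T hm) z Q) (hX1 : ∀ Q, (X Q).card ≤ 1)
    (h0 : 0 ≤ ((S z).card : ℤ) - r + 1 + ∑ u ∈ K, (ikp (tlo G T hm) z u : ℤ))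
    {D : Finset (Itm V × Itm V)} (hD : ∀ e ∈ D, e.1 ∈ K ∧ e.2 ∈ K ∧
      ∃ p ∈ rpts (tlo G T hm) X z e.1, ∃ q ∈ rpts (tlo G T hm) X z e.2, G.Adj p q) :
    2 * ((r : ℤ) - 1) * (((S z).card : ℤ) - r)
      + 2 * ∑ u ∈ K, (((CP G Z T S z).card : ℤ) * ikp (tlo G T hm) z u
          - (rcl G (CP G Z T S) (tlo G T hm) X z u).card) + D.card
      ≤ NE G (S z) + 4 * (∑ u ∈ K, (ikp (tlo G T hm) z u : ℤ)) * (((S z).card : ℤ) - r + 1)
        + 2 * (∑ u ∈ K, (ikp (tlo G T hm) z u : ℤ))
          * (2 * (∑ u ∈ K, (ikp (tlo G T hm) z u : ℤ)) - 1) := by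
  have h1 := Fam.row_ne hP hC hW h hz hK hk hX
  have hg := Fam.grp hW h (D := A.erase z) (erase_subset _ _) hK (z := z) hX
  have hfil : (K.filter fun u => ikp (tlo G T hm) z u ≠ 0) = K := filter_true_of_mem hk
  rw [hfil] at hg
  have hne := NE_grp_le (G := G) (K := K) (P := rpts (tlo G T hm) X z)
    (fun u hu v hv huv => hg.dis u hu v hv huv) hD
  have hcW : (K.biUnion (rpts (tlo G T hm) X z)).card
      = ∑ u ∈ K, (rpts (tlo G T hm) X z u).card := card_biUnion hg.dis
  have h2 : ∀ u ∈ K, 1 ≤ (rpts (tlo G T hm) X z u).card ∧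
      (rpts (tlo G T hm) X z u).card ≤ 2 * ikp (tlo G T hm) z u := by
    intro u hu
    obtain ⟨y, hy, huy⟩ := mem_biUnion.1 (hK hu)
    have hf := h y (mem_of_mem_erase hy)
    have hku := hk u hu
    rcases u with Q | e
    · have h2 := hf.two Q huy
      have h3 : (rpts (tlo G T hm) X z (Sum.inl Q)).card
          ≤ (tlp (tlo G T hm) Q z).card + (X Q).card := card_union_le _ _
      have h4 : (tlp (tlo G T hm) Q z).card ≤ (rpts (tlo G T hm) X z (Sum.inl Q)).card :=
        card_le_card subset_union_left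
      have h5 := hX1 Q
      by_cases hone : tlp (tlo G T hm) Q z = Q
      · have h6 : X Q = ∅ := by
          have h7 : oth (tlo G T hm) z Q = ∅ := by
            unfold oth
            rw [hone, sdiff_self]
            rfl
          have := hX Q
          rw [h7] at this
          exact subset_empty.1 this
        have h7 : ikp (tlo G T hm) z (Sum.inl Q) = Q.card - 1 := by
          simp only [ikp, hone, if_true]
        rw [h7]
        rw [h6, card_empty, hone] at h3
        rw [hone] at h4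
        omega
      · have h7 : ikp (tlo G T hm) z (Sum.inl Q) = (tlp (tlo G T hm) Q z).card := by
          simp only [ikp, hone, if_false]
        rw [h7] at hku ⊢
        omega
    · have h3 : ikp (tlo G T hm) z (Sum.inr e) = 1 := by
        by_cases h4 : tlo G T hm e.1 = z
        · simp only [ikp, h4, if_true]
        · exact absurd (by simp only [ikp, h4, if_false]) hku
      rw [h3]
      simp only [rpts]
      exact ⟨card_pos.2 ⟨e.1, mem_insert_self _ _⟩, card_le_two⟩
  have h3 : (∑ u ∈ K, ((rpts (tlo G T hm) X z u).card : ℤ))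
      ≤ 2 * ∑ u ∈ K, (ikp (tlo G T hm) z u : ℤ) := by
    rw [mul_sum]
    exact sum_le_sum fun u hu => by exact_mod_cast (h2 u hu).2
  have h4 : (K.card : ℤ) ≤ ∑ u ∈ K, ((rpts (tlo G T hm) X z u).card : ℤ) := by
    rw [card_eq_sum_ones]
    push_cast
    exact sum_le_sum fun u hu => by exact_mod_cast (h2 u hu).1
  have hne' : (NE G (K.biUnion (rpts (tlo G T hm) X z)) : ℤ) + D.card
      + ∑ u ∈ K, ((rpts (tlo G T hm) X z u).card : ℤ)
      ≤ (∑ u ∈ K, ((rpts (tlo G T hm) X z u).card : ℤ))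
        * ∑ u ∈ K, ((rpts (tlo G T hm) X z u).card : ℤ) := by
    rw [hcW] at hne
    exact_mod_cast hne
  set w : ℤ := ∑ u ∈ K, ((rpts (tlo G T hm) X z u).card : ℤ) with hw
  set v : ℤ := ∑ u ∈ K, (ikp (tlo G T hm) z u : ℤ) with hv
  have h5 : 0 ≤ (2 * v - w) * (2 * (((S z).card : ℤ) - r + 1) + 2 * v + w - 1) := by
    rcases K.eq_empty_or_nonempty with hK0 | hK0
    · have e1 : w = 0 := by
        rw [hw, hK0]
        simp
      have e2 : v = 0 := by
        rw [hv, hK0]
        simp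
      rw [e1, e2]
      simp
    · have e1 : (1 : ℤ) ≤ K.card := by exact_mod_cast card_pos.2 hK0
      exact mul_nonneg (by linarith) (by linarith)
  nlinarith

/-- **the row test with the same-host saving, over the basic integers**: `q j` = number of the used
items of the host `j` whose load is their value -/
theorem WHom.row_sameI (h : WHom G Z T r m n hm) {B : V → Finset (V × V)}
    {Ps : V → Finset (Finset V)} {host : Itm V → V} {ρ : V → ℕ} {σ : ℕ → V}
    (hpk : ∀ x ∈ T, Pk G (cz G Z T hm x) (hz G Z T hm x) (tlo G T hm) (B x) (Ps x))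
    (min : ∀ x ∈ T, ∀ B' Ps', Pk G (cz G Z T hm x) (hz G Z T hm x) (tlo G T hm) B' Ps' →
      (Ps x).card ≤ Ps'.card)
    (hst : ∀ x ∈ T, ∀ u ∈ pkf (B x) (Ps x), host u = x)
    (rk : Rank T (tI G Z T hm r Z) ρ σ) {i : ℕ} (hi : i < n) {K : Finset (Itm V)}
    (hK : K ⊆ T.biUnion fun x => pkf (B x) (Ps x)) (hKh : ∀ u ∈ K, ρ (host u) ≠ i)
    (h0 : 0 ≤ sI hm r Z (σ i) + 1 + ∑ u ∈ K, (ikp (tlo G T hm) (σ i) u : ℤ)) :
    2 * (((r : ℤ) - 1) * sI hm r Z (σ i))
      + 2 * ∑ u ∈ K, ((ikp (tlo G T hm) (σ i) u : ℤ) * ((r : ℤ) - 1 - tI G Z T hm r Z (σ i))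
          - rmr G (cz G Z T hm) (tlo G T hm) (σ i) u)
      + ∑ j ∈ range n, ((K.filter fun u => ρ (host u) = j
            ∧ (ikp (tlo G T hm) (σ i) u : ℤ) = (ivl u : ℤ)).card : ℤ)
          * (((K.filter fun u => ρ (host u) = j
            ∧ (ikp (tlo G T hm) (σ i) u : ℤ) = (ivl u : ℤ)).card : ℤ) - 1)
      ≤ 2 * eI G hm Z (σ i)
        + 4 * (∑ u ∈ K, (ikp (tlo G T hm) (σ i) u : ℤ)) * (sI hm r Z (σ i) + 1)
        + 2 * (∑ u ∈ K, (ikp (tlo G T hm) (σ i) u : ℤ))
          * (2 * ∑ u ∈ K, (ikp (tlo G T hm) (σ i) u : ℤ) - 1) := by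
  have hcard := h.cardT
  set tl := tlo G T hm with htl
  set z := σ i with hzd
  have hzT : z ∈ T := rk.mem i (by rw [hcard]; exact hi)
  have hfam : ∀ x ∈ T, Fam (co G) (cz G Z T hm) (hz G Z T hm) tl x
      (pkf (B x) (Ps x)) := fun x hx => (hpk x hx).fam (h.csys.dCH hx hx).symm
  have hK2 : K ⊆ (T.erase z).biUnion fun x => pkf (B x) (Ps x) := by
    intro u hu
    obtain ⟨x, hx, hux⟩ := mem_biUnion.1 (hK hu)
    refine mem_biUnion.2 ⟨x, mem_erase.2 ⟨fun h1 => hKh u hu ?_, hx⟩, hux⟩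
    show ρ (host u) = i
    rw [hst x hx u hux, h1]
    exact rk.right i (by rw [hcard]; exact hi)
  set K' := K.filter fun u => ikp tl z u ≠ 0 with hK'
  have hz0 : ∀ u ∈ K, ikp tl z u = 0 → rmr G (cz G Z T hm) tl z u = 0 := by
    intro u _ hu
    have h1 := rcl_card_le (G := G) (C := cz G Z T hm) (tl := tl)
      (X := fun Q => one1 (oth tl z Q)) (z := z) (u := u)
    rw [hu, Nat.zero_mul] at h1
    exact Nat.le_zero.1 h1
  have hct : ((cz G Z T hm z).card : ℤ) = (r : ℤ) - 1 - tI G Z T hm r Z z := by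
    unfold tI
    ring
  have e1 : ∑ u ∈ K, ((ikp tl z u : ℤ) * ((r : ℤ) - 1 - tI G Z T hm r Z z)
        - rmr G (cz G Z T hm) tl z u)
      = ∑ u ∈ K', (((cz G Z T hm z).card : ℤ) * ikp tl z u
          - (rcl G (cz G Z T hm) tl (fun Q => one1 (oth tl z Q)) z u).card) := by
    rw [hK', sum_filter]
    refine sum_congr rfl fun u hu => ?_
    by_cases h1 : ikp tl z u = 0
    · rw [hz0 u hu h1, h1]
      simp
    · simp only [ne_eq, h1, not_false_iff, if_true]
      rw [← hct]
      unfold rmr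
      ring
  have e2 : ∑ u ∈ K, (ikp tl z u : ℤ) = ∑ u ∈ K', (ikp tl z u : ℤ) := by
    rw [hK', sum_filter]
    refine sum_congr rfl fun u _ => ?_
    by_cases h1 : ikp tl z u = 0
    · rw [h1]
      simp
    · simp only [ne_eq, h1, not_false_iff, if_true]
  set F := K'.filter fun u => (ikp tl z u : ℤ) = (ivl u : ℤ) with hF
  have hmemU : ∀ u ∈ K, ∃ x ∈ T, u ∈ pkf (B x) (Ps x) ∧ host u = x := by
    intro u hu
    obtain ⟨x, hx, hux⟩ := mem_biUnion.1 (hK hu)
    exact ⟨x, hx, hux, hst x hx u hux⟩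
  have e3 : ∀ j, (K.filter fun u => ρ (host u) = j ∧ (ikp tl z u : ℤ) = (ivl u : ℤ))
      = F.filter fun u => ρ (host u) = j := by
    intro j
    ext u
    simp only [hF, hK', mem_filter]
    constructor
    · rintro ⟨h1, h2, h3⟩
      refine ⟨⟨⟨h1, ?_⟩, h3⟩, h2⟩
      obtain ⟨x, hx, hux, -⟩ := hmemU u h1
      have h4 := (hfam x hx).ivl_pos hux
      intro h5
      rw [h5] at h3
      have h6 : ivl u = 0 := by exact_mod_cast h3.symm
      omega
    · rintro ⟨⟨⟨h1, -⟩, h3⟩, h2⟩
      exact ⟨h1, h2, h3⟩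
  set D := (F ×ˢ F).filter fun e => e.1 ≠ e.2 ∧ ρ (host e.1) = ρ (host e.2) with hDd
  have e4 : (D.card : ℤ) = ∑ j ∈ range n, ((F.filter fun u => ρ (host u) = j).card : ℤ)
      * (((F.filter fun u => ρ (host u) = j).card : ℤ) - 1) := by
    rw [← card_same F (fun u => ρ (host u)) (range n) fun u hu => by
      obtain ⟨x, hx, -, h1⟩ := hmemU u (filter_subset _ _ (filter_subset _ _ hu))
      show ρ (host u) ∈ range n
      rw [h1]
      have := rk.lt x hx
      rw [hcard] at this
      exact mem_range.2 this]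
    have e9 : ∀ s s' : Finset (Itm V × Itm V), (∀ e, e ∈ s ↔ e ∈ s') →
        (s.card : ℤ) = (s'.card : ℤ) := fun s s' h => by rw [Finset.ext h]
    exact e9 _ _ fun e => by simp only [hDd, mem_filter]
  simp only [e3]
  rw [e1, e2, ← e4]
  have hX1 : ∀ Q, (one1 (oth tl z Q)).card ≤ 1 := fun Q => card_one1 _
  have hX2 : ∀ Q, (oth tl z Q).Nonempty → 1 ≤ (one1 (oth tl z Q)).card := by
    intro Q hQ
    unfold one1
    rw [dif_pos hQ, card_singleton]
  have h6 : (((Z.filter fun v => hm v = z).card : ℤ) - r) = sI hm r Z z := rfl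
  have h5 := two_eI (G := G) (hm := hm) Z z
  have hkey := Fam.row_same h.gp.P h.csys h.wsysT hfam hzT ((filter_subset _ _).trans hK2)
    (K := K') (fun u hu => (mem_filter.1 hu).2) (X := fun Q => one1 (oth tl z Q))
    (fun Q => one1_sub _) hX1 (by
      rw [← htl, ← e2]
      show 0 ≤ sI hm r Z z + 1 + _
      exact h0)
    (D := D) (by
      intro e he
      obtain ⟨h7, h8, h9⟩ := mem_filter.1 he
      obtain ⟨ha, hb⟩ := mem_product.1 h7
      obtain ⟨ha1, ha2⟩ := mem_filter.1 ha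
      obtain ⟨hb1, hb2⟩ := mem_filter.1 hb
      obtain ⟨x, hx, hux, hxx⟩ := hmemU e.1 (filter_subset _ _ ha1)
      obtain ⟨y, hy, huy, hyy⟩ := hmemU e.2 (filter_subset _ _ hb1)
      have hxy : x = y := by
        rw [hxx, hyy] at h9
        have h10 := rk.left x hx
        rw [h9, rk.left y hy] at h10
        exact h10.symm
      subst hxy
      refine ⟨ha1, hb1, ?_⟩
      obtain ⟨p, hp, q, hq, hpq⟩ := Pk.adj_full h.F.toPFrame h.hh h.csys h.ht hx (hpk x hx)
        (min x hx) hux huy h8 (by exact_mod_cast ha2) (by exact_mod_cast hb2)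
      rw [rpts_full (fun Q => one1_sub _) hX2 (fun Q hQ => (hfam x hx).two Q (hQ ▸ hux))
          (by exact_mod_cast ha2),
        rpts_full (fun Q => one1_sub _) hX2 (fun Q hQ => (hfam x hx).two Q (hQ ▸ huy))
          (by exact_mod_cast hb2)]
      exact ⟨p, hp, q, hq, hpq⟩)
  have e7 : CP G Z T (fun x => Z.filter fun v => hm v = x) = cz G Z T hm := rfl
  rw [h6, ← h5, ← htl, e7] at hkey
  generalize (D.card : ℤ) = dd at *
  generalize ∑ u ∈ K', (((cz G Z T hm z).card : ℤ) * ikp tl z u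
          - (rcl G (cz G Z T hm) tl (fun Q => one1 (oth tl z Q)) z u).card) = aa at *
  generalize ∑ u ∈ K', (ikp tl z u : ℤ) = bb at *
  linarith

end RowS

end Pool.Agent.Lib.MP_f04ccf_co
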