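import Pool.Agent.Lib.MP_f04ccf_co.M.RowCG
import Pool.Agent.Lib.MP_f04ccf_co.M.SameH
import Pool.Agent.Lib.MP_f04ccf_co.M.ItY

/-!
MP_f04ccf_co, PLAN W (note 17113): the same-host saving in the row test with columns (T+).
`RowN`: helper94's `RowE` with the missing pairs of the points outside the columns kept.
`Fam.rowN_of`: `Fam.row_colE` in this form.  `RowN.rowE`: any set of saved pairs.
`WHom.rowc_sameI`: over the basic integers, with any extra term.
-/

set_option autoImplicit false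

namespace Pool.Agent.Lib.MP_f04ccf_co

open Finset

attribute [local instance] Classical.propDecidable

section RowN

variable {V : Type*} {G : SimpleGraph V} {Z T : Finset V} {hm : V → V} {r m t : ℕ}
  {A : Finset V} {S : V → Finset V} {U : V → Finset (Itm V)}

variable (G Z T hm S U r) in
/-- the row test of `z` with the points of the items `K` and the columns of `y`, with the extra term `EX` on
the left and the missing pairs of the points kept -/
def RowN (K : Finset (Itm V)) (X : Finset V → Finset V) (z y : V) (EX : ℤ) : Prop :=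
  2 * ((r : ℤ) - 1) * (((S z).card : ℤ) - r)
      + 2 * ∑ u ∈ K, (((CP G Z T S z).card : ℤ) * ikp (tlo G T hm) z u
          - (rcl G (CP G Z T S) (tlo G T hm) X z u).card)
      + 2 * ∑ u ∈ U z, (((CP G Z T S y).card : ℤ) * ikp (tlo G T hm) y u
          - (CP G Z T S y ∩ icl G (CP G Z T S) (tlo G T hm) y u).card)
      + EX
      ≤ NE G (S z)
        + 2 * ((K.biUnion (rpts (tlo G T hm) X z) \ CP G Z T S y).card + (CP G Z T S y).card : ℤ)
          * (((S z).card : ℤ) - r + 1)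
        + NE G (K.biUnion (rpts (tlo G T hm) X z) \ CP G Z T S y)
        + 2 * ∑ v ∈ K.biUnion (rpts (tlo G T hm) X z) \ CP G Z T S y, (nd G (CP G Z T S y) v : ℤ)
        + 2 * ((CP G Z T S y ∩ K.biUnion (rpts (tlo G T hm) X z)).card : ℤ)
          * (pcz (tlo G T hm) y (U z)).card

lemma RowN.mono {K : Finset (Itm V)} {X : Finset V → Finset V} {z y : V} {EX EX' : ℤ}
    (h : RowN G Z T hm r S U K X z y EX) (h' : EX' ≤ EX) : RowN G Z T hm r S U K X z y EX' := by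
  unfold RowN at h ⊢
  linarith

/-- **all edges and all missing pairs kept** -/
theorem Fam.rowN_of (hF : PFrame G r m t Z T) (hP : PG G r) (hC : CSys G Z T hm A S)
    (hW : WSysT G (co G) A (CP G Z T S) (HP G Z T S) (tlo G T hm))
    (h : ∀ x ∈ A, Fam (co G) (CP G Z T S) (HP G Z T S) (tlo G T hm) x (U x))
    {z y : V} (hz : z ∈ A) (hy : y ∈ A) (hzy : z ≠ y) {K : Finset (Itm V)}
    (hK : K ⊆ (A.erase z).biUnion U) (hk : ∀ u ∈ K, ikp (tlo G T hm) z u ≠ 0)
    {X : Finset V → Finset V} (hX : ∀ Q, X Q ⊆ oth (tlo G T hm) z Q)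
    {F : Finset V} (hF1 : F ⊆ CP G Z T S z) (hF2 : ∀ e ∈ pcz (tlo G T hm) y (U z), e.2 ∉ F) :
    RowN G Z T hm r S U K X z y
      (2 * ∑ c ∈ CP G Z T S y \ K.biUnion (rpts (tlo G T hm) X z), (dg G F c : ℤ)
        + 2 * ∑ v ∈ K.biUnion (rpts (tlo G T hm) X z) \ CP G Z T S y,
          (dg G (HP G Z T S z) v : ℤ)) := by
  unfold RowN
  set Y := CP G Z T S y with hYd
  have hY : Y ⊆ CP G Z T S y := subset_rfl
  obtain ⟨W, hWd⟩ : ∃ W, W = K.biUnion (rpts (tlo G T hm) X z) := ⟨_, rfl⟩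
  rw [← hWd]
  have hK' : K ⊆ (A \ {z}).biUnion U := by
    rwa [sdiff_singleton_eq_erase]
  have hfil : (K.filter fun u => ikp (tlo G T hm) z u ≠ 0) = K := filter_true_of_mem hk
  have hg := Fam.grp hW h (D := A.erase z) (erase_subset _ _) hK (z := z) hX
  rw [hfil] at hg
  have hsb : ({z} : Finset V) ⊆ A := by
    simpa using hz
  have hWS : Disjoint (S z) W := by
    have h2 := Fam.disj_pts hC h hsb hK' (mem_singleton_self z)
    rw [hWd]
    refine h2.mono_right (biUnion_mono fun u hu => ?_)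
    obtain ⟨x, hx, hux⟩ := mem_biUnion.1 (hK hu)
    exact (h x (mem_of_mem_erase hx)).rpts_sub hX
  have hYS : Disjoint (S z) Y := (hC.disj hz hy hzy).mono_right fun v hv => (mem_CP.1 (hY hv)).1
  have hD : Disjoint (S z) (Y ∪ W \ Y) := by
    rw [disjoint_union_right]
    exact ⟨hYS, hWS.mono_right sdiff_subset⟩
  have h1 := hC.tst hP (B := {z}) hsb (W := Y ∪ W \ Y) (fun x hx => by
    rw [mem_singleton.1 hx]
    exact hD)
  have hYW : Disjoint Y (W \ Y) := disjoint_sdiff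
  have hcl : Clq G Y := fun u hu v hv huv => hC.CP_clq hF hy u (hY hu) v (hY hv) huv
  have h2 : (NE G (Y ∪ W \ Y) : ℤ) = NE G (W \ Y) + 2 * ∑ v ∈ W \ Y, (nd G Y v : ℤ) := by
    rw [NE_union hYW, NE_clq hcl]
    push_cast
    ring
  have h3 : ((Y ∪ W \ Y).card : ℤ) = Y.card + (W \ Y).card := by
    rw [card_union_of_disjoint hYW]
    push_cast
    ring
  -- the hits
  have h5 : ∑ u ∈ K, (((CP G Z T S z).card : ℤ) * ikp (tlo G T hm) z u
      - (rcl G (CP G Z T S) (tlo G T hm) X z u).card)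
      ≤ ∑ v ∈ W, (dg G (CP G Z T S z) v : ℤ) := by
    have h6 := hg.sum_le (W := W) (by rw [hWd])
    have h7 : ∑ c ∈ CP G Z T S z, (dg G W c : ℤ) = ∑ v ∈ W, (dg G (CP G Z T S z) v : ℤ) := by
      have := dg_comm G (CP G Z T S z) W
      exact_mod_cast this
    rw [h7] at h6
    refine le_trans (le_of_eq ?_) h6
    refine sum_congr rfl fun u _ => ?_
    rw [sum_rcl]
  have h6 : ∀ v, (dg G (S z) v : ℤ) = dg G (CP G Z T S z) v + dg G (HP G Z T S z) v := by
    intro v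
    have h7 : dg G (S z) v = dg G (CP G Z T S z) v + dg G (HP G Z T S z) v := by
      conv_lhs => rw [← CP_union_HP (G := G) (Z := Z) (T := T) (S := S) (x := z)]
      unfold dg
      rw [filter_union, card_union_of_disjoint (disjoint_filter_filter CP_HP_disjoint)]
    exact_mod_cast h7
  have h7 : ∑ u ∈ U z, ((Y.card : ℤ) * ikp (tlo G T hm) y u
          - (Y ∩ icl G (CP G Z T S) (tlo G T hm) y u).card) + ∑ c ∈ Y \ W, (dg G F c : ℤ)
      ≤ ∑ v ∈ Y \ W, (dg G (S z) v : ℤ)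
        + ∑ v ∈ Y ∩ W, ((dg G (HP G Z T S z) v : ℤ) + (pcz (tlo G T hm) y (U z)).card) := by
    rw [← sum_cols, ← sum_sdiff (s₁ := Y ∩ W) (s₂ := Y) inter_subset_left, sdiff_inter_self_left]
    have h8 : ∑ c ∈ Y \ W, (∑ u ∈ U z, ((ikp (tlo G T hm) y u : ℤ)
          - if c ∈ icl G (CP G Z T S) (tlo G T hm) y u then 1 else 0)) + ∑ c ∈ Y \ W, (dg G F c : ℤ)
        ≤ ∑ v ∈ Y \ W, (dg G (S z) v : ℤ) := by
      rw [← sum_add_distrib]
      refine sum_le_sum fun c hc => ?_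
      have h8 := Fam.col_see hW h hz (z := y) (W := ∅) (F := F) (empty_subset _)
        (fun v hv => absurd hv (notMem_empty _)) hF1 hF2 (hY (mem_sdiff.1 hc).1)
      have h9 : (0 : ℤ) ≤ dg G (∅ : Finset V) c := by positivity
      linarith
    have h9 : ∑ c ∈ Y ∩ W, (∑ u ∈ U z, ((ikp (tlo G T hm) y u : ℤ)
          - if c ∈ icl G (CP G Z T S) (tlo G T hm) y u then 1 else 0))
        ≤ ∑ v ∈ Y ∩ W, ((dg G (HP G Z T S z) v : ℤ) + (pcz (tlo G T hm) y (U z)).card) :=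
      sum_le_sum fun c hc => Fam.hp_see hW h hz (hY (mem_inter.1 hc).1)
    linarith
  have h8 : ∑ v ∈ Y ∪ W \ Y, (dg G (S z) v : ℤ)
      = ∑ v ∈ Y \ W, (dg G (S z) v : ℤ) + ∑ v ∈ Y ∩ W, (dg G (S z) v : ℤ)
        + ∑ v ∈ W \ Y, (dg G (S z) v : ℤ) := by
    rw [sum_union hYW]
    congr 1
    rw [← sum_sdiff (s₁ := Y ∩ W) (s₂ := Y) inter_subset_left, sdiff_inter_self_left]
  have h9 : ∑ v ∈ W, (dg G (CP G Z T S z) v : ℤ) + ∑ v ∈ W \ Y, (dg G (HP G Z T S z) v : ℤ)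
      = ∑ v ∈ Y ∩ W, (dg G (CP G Z T S z) v : ℤ) + ∑ v ∈ W \ Y, (dg G (S z) v : ℤ) := by
    rw [← sum_sdiff (s₁ := Y ∩ W) (s₂ := W) inter_subset_right, sdiff_inter_self_right]
    have h10 : ∑ v ∈ W \ Y, (dg G (S z) v : ℤ)
        = ∑ v ∈ W \ Y, (dg G (CP G Z T S z) v : ℤ) + ∑ v ∈ W \ Y, (dg G (HP G Z T S z) v : ℤ) := by
      rw [← sum_add_distrib]
      exact sum_congr rfl fun v _ => h6 v
    rw [h10]
    ring
  have h10 : ∑ v ∈ Y ∩ W, (dg G (S z) v : ℤ)
      = ∑ v ∈ Y ∩ W, (dg G (CP G Z T S z) v : ℤ) + ∑ v ∈ Y ∩ W, (dg G (HP G Z T S z) v : ℤ) := by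
    rw [← sum_add_distrib]
    exact sum_congr rfl fun v _ => h6 v
  have h11 : ∑ v ∈ Y ∩ W, ((dg G (HP G Z T S z) v : ℤ) + (pcz (tlo G T hm) y (U z)).card)
      = ∑ v ∈ Y ∩ W, (dg G (HP G Z T S z) v : ℤ)
        + ((Y ∩ W).card : ℤ) * (pcz (tlo G T hm) y (U z)).card := by
    rw [sum_add_distrib, sum_const, nsmul_eq_mul]
  simp only [sum_singleton, card_singleton, erase_singleton, sum_empty, Nat.cast_one, sub_self,
    mul_zero, zero_mul, add_zero] at h1
  rw [h2, h3] at h1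
  rw [h11] at h7
  rw [h10] at h8
  linarith

/-- **saved pairs**: `D` ordered pairs of items of `K` with adjacent used points outside the columns -/
theorem RowN.rowE
    (hW : WSysT G (co G) A (CP G Z T S) (HP G Z T S) (tlo G T hm))
    (h : ∀ x ∈ A, Fam (co G) (CP G Z T S) (HP G Z T S) (tlo G T hm) x (U x))
    {z y : V} {K : Finset (Itm V)} (hK : K ⊆ (A.erase z).biUnion U)
    (hk : ∀ u ∈ K, ikp (tlo G T hm) z u ≠ 0)
    {X : Finset V → Finset V} (hX : ∀ Q, X Q ⊆ oth (tlo G T hm) z Q) {EX : ℤ}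
    (hN : RowN G Z T hm r S U K X z y EX) {D : Finset (Itm V × Itm V)}
    (hD : ∀ e ∈ D, e.1 ∈ K ∧ e.2 ∈ K ∧ ∃ p ∈ rpts (tlo G T hm) X z e.1 \ CP G Z T S y,
      ∃ q ∈ rpts (tlo G T hm) X z e.2 \ CP G Z T S y, G.Adj p q) :
    RowE G Z T hm r S U K X z y (EX + D.card) := by
  have hdis : ∀ u ∈ K, ∀ v ∈ K, u ≠ v → Disjoint (rpts (tlo G T hm) X z u \ CP G Z T S y)
      (rpts (tlo G T hm) X z v \ CP G Z T S y) := by
    intro u hu v hv huv
    obtain ⟨x, hx, hux⟩ := mem_biUnion.1 (hK hu)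
    obtain ⟨x', hx', hvx⟩ := mem_biUnion.1 (hK hv)
    exact ((Fam.dis_row hW h (mem_of_mem_erase hx) (mem_of_mem_erase hx') hux hvx huv (hk u hu)
      (hk v hv)).mono ((h x (mem_of_mem_erase hx)).rpts_sub hX)
      ((h x' (mem_of_mem_erase hx')).rpts_sub hX)).mono sdiff_subset sdiff_subset
  have hsd : K.biUnion (rpts (tlo G T hm) X z) \ CP G Z T S y
      = K.biUnion fun u => rpts (tlo G T hm) X z u \ CP G Z T S y := by
    ext v
    simp only [mem_sdiff, mem_biUnion]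
    constructor
    · rintro ⟨⟨u, hu, hv⟩, hv'⟩
      exact ⟨u, hu, hv, hv'⟩
    · rintro ⟨u, hu, hv, hv'⟩
      exact ⟨⟨u, hu, hv⟩, hv'⟩
  have h1 := NE_grp_le (G := G) (K := K) (P := fun u => rpts (tlo G T hm) X z u \ CP G Z T S y)
    hdis hD
  rw [← hsd] at h1
  have h2 : (NE G (K.biUnion (rpts (tlo G T hm) X z) \ CP G Z T S y) : ℤ) + D.card
      + (K.biUnion (rpts (tlo G T hm) X z) \ CP G Z T S y).card
      ≤ ((K.biUnion (rpts (tlo G T hm) X z) \ CP G Z T S y).card : ℤ)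
        * (K.biUnion (rpts (tlo G T hm) X z) \ CP G Z T S y).card := by exact_mod_cast h1
  unfold RowN at hN
  unfold RowE
  linarith

end RowN

section RowT

variable {V : Type*} {G : SimpleGraph V} {Z T : Finset V} {hm : V → V} {r m n : ℕ}

/-- **T+ with the same-host saving and any extra term, over the basic integers**: `q x` = number of the
used items of the host `x` whose load is their value, without the PC pairs for `x = j` -/
theorem WHom.rowc_sameI (h : WHom G Z T r m n hm) {B : V → Finset (V × V)}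
    {Ps : V → Finset (Finset V)} {host : Itm V → V} {ρ : V → ℕ} {σ : ℕ → V}
    (hpk : ∀ x ∈ T, Pk G (cz G Z T hm x) (hz G Z T hm x) (tlo G T hm) (B x) (Ps x))
    (min : ∀ x ∈ T, ∀ B' Ps', Pk G (cz G Z T hm x) (hz G Z T hm x) (tlo G T hm) B' Ps' →
      (Ps x).card ≤ Ps'.card)
    (hst : ∀ x ∈ T, ∀ u ∈ pkf (B x) (Ps x), host u = x)
    (rk : Rank T (tI G Z T hm r Z) ρ σ) {i j : ℕ} (hi : i < n) (hj : j < n) (hij : i ≠ j)
    {K : Finset (Itm V)}
    (hK : K ⊆ T.biUnion fun x => pkf (B x) (Ps x)) (hKh : ∀ u ∈ K, ρ (host u) ≠ i)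
    (h0 : 0 ≤ sI hm r Z (σ i) + ∑ u ∈ K, (ikp (tlo G T hm) (σ i) u : ℤ)) {EX : ℤ}
    (hE : RowN G Z T hm r (fun x => Z.filter fun v => hm v = x) (fun x => pkf (B x) (Ps x))
      (K.filter fun u => ikp (tlo G T hm) (σ i) u ≠ 0)
      (fun Q => one1 (oth (tlo G T hm) (σ i) Q)) (σ i) (σ j) EX) :
    2 * ((r : ℤ) - 1) * sI hm r Z (σ i)
      + 2 * ∑ u ∈ K, ((ikp (tlo G T hm) (σ i) u : ℤ) * ((r : ℤ) - 1 - tI G Z T hm r Z (σ i))
        - (rmr G (cz G Z T hm) (tlo G T hm) (σ i) u : ℤ))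
      + 2 * ∑ u ∈ (T.biUnion fun x => pkf (B x) (Ps x)).filter (fun u => ρ (host u) = i),
        ((ikp (tlo G T hm) (σ j) u : ℤ) * ((r : ℤ) - 1 - tI G Z T hm r Z (σ j))
          - (ims G (cz G Z T hm) (tlo G T hm) (σ j) u : ℤ))
      + EX
      + ∑ x ∈ range n, ((K.filter fun u => ρ (host u) = x
            ∧ (ikp (tlo G T hm) (σ i) u : ℤ) = (ivl u : ℤ) ∧ (x = j → ipc u = 0)).card : ℤ)
          * (((K.filter fun u => ρ (host u) = x
            ∧ (ikp (tlo G T hm) (σ i) u : ℤ) = (ivl u : ℤ) ∧ (x = j → ipc u = 0)).card : ℤ) - 1)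
      ≤ 2 * eI G hm Z (σ i)
        + 2 * (∑ u ∈ K, (2 * (ikp (tlo G T hm) (σ i) u : ℤ)
          - if ρ (host u) = j then (ipc u : ℤ) * (ikp (tlo G T hm) (σ i) u : ℤ) else 0)
          + ((r : ℤ) - 1 - tI G Z T hm r Z (σ j))) * (sI hm r Z (σ i) + 1)
        + (∑ u ∈ K, (2 * (ikp (tlo G T hm) (σ i) u : ℤ)
          - if ρ (host u) = j then (ipc u : ℤ) * (ikp (tlo G T hm) (σ i) u : ℤ) else 0))
          * (∑ u ∈ K, (2 * (ikp (tlo G T hm) (σ i) u : ℤ)
          - if ρ (host u) = j then (ipc u : ℤ) * (ikp (tlo G T hm) (σ i) u : ℤ) else 0) - 1)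
        + 2 * ∑ u ∈ K, (if ρ (host u) = j then (iar G (cz G Z T hm (host u)) u : ℤ)
          else 2 * ((r : ℤ) - 1 - tI G Z T hm r Z (σ j)) * (ikp (tlo G T hm) (σ i) u : ℤ))
        + 2 * (∑ u ∈ K, (if ρ (host u) = j then
          (ipc u : ℤ) * (ikp (tlo G T hm) (σ i) u : ℤ) else 0))
          * pcn (tlo G T hm) B (σ i) (σ j) := by
  have hcard := h.cardT
  have hfam : ∀ x ∈ T, Fam (co G) (cz G Z T hm) (hz G Z T hm) (tlo G T hm) x
      (pkf (B x) (Ps x)) := fun x hx => (hpk x hx).fam (h.csys.dCH hx hx).symm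
  have hfil : ∀ i < n, (T.biUnion fun x => pkf (B x) (Ps x)).filter (fun u => ρ (host u) = i)
      = pkf (B (σ i)) (Ps (σ i)) := fun i hi => fil_host hst rk (by rw [hcard]; exact hi)
  have hmem : ∀ i < n, σ i ∈ T := fun i hi => rk.mem i (by rw [hcard]; exact hi)
  have hne : ∀ i < n, ∀ j < n, i ≠ j → σ i ≠ σ j := fun i hi j hj hij h1 =>
    hij (rk.sinj (by rw [hcard]; exact hi) (by rw [hcard]; exact hj) h1)
  have hmemU : ∀ u ∈ T.biUnion fun x => pkf (B x) (Ps x), ∀ j < n,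
      (ρ (host u) = j ↔ u ∈ pkf (B (σ j)) (Ps (σ j))) := by
    intro u hu j hj
    rw [← hfil j hj, mem_filter]
    exact ⟨fun h1 => ⟨hu, h1⟩, fun h1 => h1.2⟩
  have hK' : K ⊆ (T.erase (σ i)).biUnion fun x => pkf (B x) (Ps x) := by
    intro u hu
    obtain ⟨x, hx, hux⟩ := mem_biUnion.1 (hK hu)
    refine mem_biUnion.2 ⟨x, mem_erase.2 ⟨fun h1 => hKh u hu ?_, hx⟩, hux⟩
    show ρ (host u) = i
    rw [hst x hx u hux, h1]
    exact rk.right i (by rw [hcard]; exact hi)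
  obtain ⟨L, hL⟩ : ∃ L, L = K.filter fun u => ikp (tlo G T hm) (σ i) u ≠ 0 := ⟨_, rfl⟩
  rw [← hL] at hE
  have hLK : L ⊆ K := by
    rw [hL]
    exact filter_subset _ _
  obtain ⟨F, hF⟩ : ∃ F, F = L.filter fun u => (ikp (tlo G T hm) (σ i) u : ℤ) = (ivl u : ℤ)
    ∧ (ρ (host u) = j → ipc u = 0) := ⟨_, rfl⟩
  have hmK : ∀ u ∈ K, ∃ x ∈ T, u ∈ pkf (B x) (Ps x) ∧ host u = x := by
    intro u hu
    obtain ⟨x, hx, hux⟩ := mem_biUnion.1 (hK hu)
    exact ⟨x, hx, hux, hst x hx u hux⟩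
  have hFL : F ⊆ L := by
    rw [hF]
    exact filter_subset _ _
  have e3 : ∀ x, (K.filter fun u => ρ (host u) = x
        ∧ (ikp (tlo G T hm) (σ i) u : ℤ) = (ivl u : ℤ) ∧ (x = j → ipc u = 0))
      = F.filter fun u => ρ (host u) = x := by
    intro x
    ext u
    simp only [hF, hL, mem_filter]
    constructor
    · rintro ⟨h1, h2, h3, h4⟩
      refine ⟨⟨⟨h1, ?_⟩, h3, fun h5 => h4 (h2.symm.trans h5)⟩, h2⟩
      obtain ⟨y, hy, huy, -⟩ := hmK u h1
      have h6 := (hfam y hy).ivl_pos huy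
      intro h5
      rw [h5] at h3
      have h7 : ivl u = 0 := by exact_mod_cast h3.symm
      omega
    · rintro ⟨⟨⟨h1, -⟩, h3, h4⟩, h2⟩
      exact ⟨h1, h2, h3, fun h5 => h4 (h2.trans h5)⟩
  obtain ⟨D, hDd⟩ : ∃ D, D = (F ×ˢ F).filter fun e => e.1 ≠ e.2 ∧ ρ (host e.1) = ρ (host e.2) :=
    ⟨_, rfl⟩
  have e4 : (D.card : ℤ) = ∑ x ∈ range n, ((F.filter fun u => ρ (host u) = x).card : ℤ)
      * (((F.filter fun u => ρ (host u) = x).card : ℤ) - 1) := by
    rw [← card_same F (fun u => ρ (host u)) (range n) fun u hu => by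
      obtain ⟨x, hx, -, h1⟩ := hmK u (hLK (hFL hu))
      show ρ (host u) ∈ range n
      rw [h1]
      have := rk.lt x hx
      rw [hcard] at this
      exact mem_range.2 this]
    have e9 : ∀ s s' : Finset (Itm V × Itm V), (∀ e, e ∈ s ↔ e ∈ s') →
        (s.card : ℤ) = (s'.card : ℤ) := fun s s' h => by rw [Finset.ext h]
    exact e9 _ _ fun e => by simp only [hDd, mem_filter]
  have hX2 : ∀ Q, (oth (tlo G T hm) (σ i) Q).Nonempty →
      1 ≤ (one1 (oth (tlo G T hm) (σ i) Q)).card := by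
    intro Q hQ
    unfold one1
    rw [dif_pos hQ, card_singleton]
  have hRE := RowN.rowE h.wsysT hfam (z := σ i) (y := σ j) (hLK.trans hK')
    (fun u hu => by
      rw [hL] at hu
      exact (mem_filter.1 hu).2) (X := fun Q => one1 (oth (tlo G T hm) (σ i) Q))
    (fun Q => one1_sub _) hE (D := D) (by
      intro e he
      rw [hDd] at he
      obtain ⟨h7, h8, h9⟩ := mem_filter.1 he
      obtain ⟨ha, hb⟩ := mem_product.1 h7
      have haL := hFL ha
      have hbL := hFL hb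
      rw [hF] at ha hb
      obtain ⟨-, ha2, ha3⟩ := mem_filter.1 ha
      obtain ⟨-, hb2, hb3⟩ := mem_filter.1 hb
      obtain ⟨x, hx, hux, hxx⟩ := hmK e.1 (hLK haL)
      obtain ⟨y, hy, huy, hyy⟩ := hmK e.2 (hLK hbL)
      have hxy : x = y := by
        rw [hxx, hyy] at h9
        have h10 := rk.left x hx
        rw [h9, rk.left y hy] at h10
        exact h10.symm
      subst hxy
      refine ⟨haL, hbL, ?_⟩
      obtain ⟨p, hp, q, hq, hpq⟩ := Pk.adj_full h.F.toPFrame h.hh h.csys h.ht hx (hpk x hx)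
        (min x hx) hux huy h8 (by exact_mod_cast ha2) (by exact_mod_cast hb2)
      have hout : ∀ w : Itm V, w ∈ pkf (B x) (Ps x) → (ρ x = j → ipc w = 0) →
          ∀ p ∈ ipts w, p ∉ cz G Z T hm (σ j) := by
        intro w hw hw0 p hp hpj
        by_cases hxj : x = σ j
        · have h10 : ρ x = j := by
            rw [hxj]
            exact rk.right j (by rw [hcard]; exact hj)
          have h11 := hw0 h10
          rcases w with Q | f
          · exact disjoint_left.1 (h.wsysT.dHC x hx _ (hmem j hj))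
              ((hfam x hx).sub Q hw hp) hpj
          · simp [ipc] at h11
        · have h12 := (hfam x hx).ipts_sub hw hp
          rcases mem_union.1 h12 with h13 | h13
          · exact disjoint_left.1 (h.wsysT.dHC x hx _ (hmem j hj)) h13 hpj
          · exact disjoint_left.1 (h.wsysT.dCC x hx _ (hmem j hj) hxj) h13 hpj
      rw [rpts_full (fun Q => one1_sub _) hX2 (fun Q hQ => (hfam x hx).two Q (hQ ▸ hux))
          (by exact_mod_cast ha2),
        rpts_full (fun Q => one1_sub _) hX2 (fun Q hQ => (hfam x hx).two Q (hQ ▸ huy))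
          (by exact_mod_cast hb2)]
      rw [hxx] at ha3
      rw [hyy] at hb3
      exact ⟨p, mem_sdiff.2 ⟨hp, hout _ hux ha3 p hp⟩, q, mem_sdiff.2 ⟨hq, hout _ huy hb3 q hq⟩,
        hpq⟩)
  rw [hL] at hRE
  have h1 := Fam.rowcI_of h.csys h.wsysT hfam (hmem i hi) (hmem j hj)
      (hne i hi j hj hij) hK' h0 hRE
  have e1 : ∀ (f g : Itm V → ℤ), ∑ u ∈ K, (if ρ (host u) = j then f u else g u)
      = ∑ u ∈ K, (if u ∈ pkf (B (σ j)) (Ps (σ j)) then f u else g u) := by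
    intro f g
    refine sum_congr rfl fun u hu => ?_
    by_cases h2 : ρ (host u) = j
    · rw [if_pos h2, if_pos ((hmemU u (hK hu) j hj).1 h2)]
    · rw [if_neg h2, if_neg fun h3 => h2 ((hmemU u (hK hu) j hj).2 h3)]
  have e2 : ∑ u ∈ K, (2 * (ikp (tlo G T hm) (σ i) u : ℤ)
        - if ρ (host u) = j then (ipc u : ℤ) * (ikp (tlo G T hm) (σ i) u : ℤ) else 0)
      = ∑ u ∈ K, (2 * (ikp (tlo G T hm) (σ i) u : ℤ)
        - if u ∈ pkf (B (σ j)) (Ps (σ j)) then
          (ipc u : ℤ) * (ikp (tlo G T hm) (σ i) u : ℤ) else 0) := by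
    rw [sum_sub_distrib, sum_sub_distrib, e1]
  have e5 : ∑ u ∈ K, (if ρ (host u) = j then (iar G (cz G Z T hm (host u)) u : ℤ)
        else 2 * ((r : ℤ) - 1 - tI G Z T hm r Z (σ j)) * (ikp (tlo G T hm) (σ i) u : ℤ))
      = ∑ u ∈ K, (if u ∈ pkf (B (σ j)) (Ps (σ j)) then (iar G (cz G Z T hm (σ j)) u : ℤ)
        else 2 * ((r : ℤ) - 1 - tI G Z T hm r Z (σ j)) * (ikp (tlo G T hm) (σ i) u : ℤ)) := by
    refine sum_congr rfl fun u hu => ?_
    by_cases h2 : ρ (host u) = j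
    · have h3 := (hmemU u (hK hu) j hj).1 h2
      rw [if_pos h2, if_pos h3, hst _ (hmem j hj) u h3]
    · rw [if_neg h2, if_neg fun h3 => h2 ((hmemU u (hK hu) j hj).2 h3)]
  rw [sum_ipc (tlo G T hm) (σ j) (B (σ i)) (Ps (σ i)), e4] at h1
  simp only [e3]
  rw [hfil i hi, e2, e5, e1]
  refine le_trans (le_of_eq ?_) (h1.trans (le_of_eq ?_))
  · show _ = 2 * ((r : ℤ) - 1) * sI hm r Z (σ i)
      + 2 * ∑ u ∈ K, ((ikp (tlo G T hm) (σ i) u : ℤ) * ((r : ℤ) - 1 - tI G Z T hm r Z (σ i))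
        - (rmr G (cz G Z T hm) (tlo G T hm) (σ i) u : ℤ))
      + 2 * ∑ u ∈ pkf (B (σ i)) (Ps (σ i)),
        ((ikp (tlo G T hm) (σ j) u : ℤ) * ((r : ℤ) - 1 - tI G Z T hm r Z (σ j))
          - (ims G (cz G Z T hm) (tlo G T hm) (σ j) u : ℤ)) + (EX + _)
    ring
  · rfl

end RowT

end Pool.Agent.Lib.MP_f04ccf_co
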