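import Pool.Agent.Lib.MP_f04ccf_co.M.RowCG

/-!
MP_f04ccf_co: the row test of `z` with all columns of `y` (helper92's `Fam.rowcI`) with the class rectangle
of any item `w` of any host on the left side.

* `Fam.rect_le`: the rectangle is at most the free class edges of the unused columns of `y`;
* `Fam.rowE_rect`: `RowE` with the rectangle of `w` in the classes of `z` and `y`;
* `Fam.rowcR`: over the basic integers.
-/

set_option autoImplicit false

namespace Pool.Agent.Lib.MP_f04ccf_co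

open Finset

attribute [local instance] Classical.propDecidable

section RowR

variable {V : Type*} {G : SimpleGraph V} {Z T : Finset V} {hm : V → V} {r m t : ℕ}
  {A : Finset V} {S : V → Finset V} {U : V → Finset (Itm V)}

/-- the used class points of `y`: at most one per used PC pair of the host `y` -/
theorem Fam.card_colW (hC : CSys G Z T hm A S)
    (hW : WSysT G (co G) A (CP G Z T S) (HP G Z T S) (tlo G T hm))
    (h : ∀ x ∈ A, Fam (co G) (CP G Z T S) (HP G Z T S) (tlo G T hm) x (U x))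
    {z y : V} (hy : y ∈ A) {K : Finset (Itm V)} (hK : K ⊆ (A.erase z).biUnion U)
    {X : Finset V → Finset V} (hX : ∀ Q, X Q ⊆ oth (tlo G T hm) z Q) :
    ((CP G Z T S y ∩ K.biUnion (rpts (tlo G T hm) X z)).card : ℤ)
      ≤ ∑ u ∈ K, (if u ∈ U y then (ipc u : ℤ) else 0) := by
  have hown : ∀ u ∈ K, ∃ x ∈ A, u ∈ U x ∧ (x = y ↔ u ∈ U y) := by
    intro u hu
    obtain ⟨x, hx, hux⟩ := mem_biUnion.1 (hK hu)
    refine ⟨x, mem_of_mem_erase hx, hux, fun h2 => h2 ▸ hux, fun huy => ?_⟩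
    by_contra hxy
    obtain ⟨v, hv⟩ := (h y hy).imem_ne huy
    exact disjoint_left.1 (hC.dHP (mem_of_mem_erase hx) hy hxy)
      ((h x (mem_of_mem_erase hx)).imem_sub hux hv) ((h y hy).imem_sub huy hv)
  have h2 : CP G Z T S y ∩ K.biUnion (rpts (tlo G T hm) X z)
      ⊆ K.biUnion fun u => CP G Z T S y ∩ rpts (tlo G T hm) X z u := by
    intro v hv
    obtain ⟨h3, h4⟩ := mem_inter.1 hv
    obtain ⟨u, hu, h5⟩ := mem_biUnion.1 h4
    exact mem_biUnion.2 ⟨u, hu, mem_inter.2 ⟨h3, h5⟩⟩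
  have h3 := (card_le_card h2).trans card_biUnion_le
  have h4 : ((CP G Z T S y ∩ K.biUnion (rpts (tlo G T hm) X z)).card : ℤ)
      ≤ ∑ u ∈ K, ((CP G Z T S y ∩ rpts (tlo G T hm) X z u).card : ℤ) := by exact_mod_cast h3
  refine h4.trans (sum_le_sum fun u hu => ?_)
  obtain ⟨x, hx, hux, hxy⟩ := hown u hu
  have hf := h x hx
  rcases u with Q | e
  · have h5 : CP G Z T S y ∩ rpts (tlo G T hm) X z (Sum.inl Q) = ∅ := by
      rw [← disjoint_iff_inter_eq_empty, disjoint_left]
      intro v hv hv'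
      exact disjoint_left.1 (hW.dHC x hx y hy) (hf.sub Q hux (hf.rpts_sub hX hv')) hv
    rw [h5]
    split_ifs <;> simp [ipc]
  · by_cases h3 : Sum.inr e ∈ U y
    · rw [if_pos h3]
      have h5 : CP G Z T S y ∩ rpts (tlo G T hm) X z (Sum.inr e) ⊆ {e.2} := by
        intro v hv
        obtain ⟨h6, h7⟩ := mem_inter.1 hv
        simp only [rpts] at h7
        rcases mem_insert.1 h7 with h8 | h8
        · exact absurd h6 (fun h9 => disjoint_left.1 (hW.dHC x hx y hy) (hf.pcH e hux)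
            (h8 ▸ h9))
        · exact h8
      have h6 := card_le_card h5
      rw [card_singleton] at h6
      simp only [ipc]
      exact_mod_cast h6
    · rw [if_neg h3]
      have h5 : CP G Z T S y ∩ rpts (tlo G T hm) X z (Sum.inr e) = ∅ := by
        rw [← disjoint_iff_inter_eq_empty, disjoint_left]
        intro v hv hv'
        simp only [rpts] at hv'
        rcases mem_insert.1 hv' with h8 | h8
        · exact disjoint_left.1 (hW.dHC x hx y hy) (hf.pcH e hux) (h8 ▸ hv)
        · rw [mem_singleton] at h8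
          have hxy' : x ≠ y := fun h9 => h3 (h9 ▸ hux)
          exact disjoint_left.1 (hW.dCC x hx y hy hxy') (hf.pcC e hux) (h8 ▸ hv)
      rw [h5]
      simp

/-- the PC pairs of the host `z` with tail `y` -/
theorem card_pcz_le {tl : V → V} {y : V} {D : Finset (Itm V)} :
    ((pcz tl y D).card : ℤ) ≤ ∑ u ∈ D, (ipc u : ℤ) * ikp tl y u := by
  have h2 : (pcz tl y D).card = ((pcz tl y D).image (Sum.inr : V × V → Itm V)).card :=
    (card_image_of_injective _ Sum.inr_injective).symm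
  have h3 : (pcz tl y D).image (Sum.inr : V × V → Itm V) ⊆ D := by
    intro u hu
    obtain ⟨e, he, rfl⟩ := mem_image.1 hu
    exact (mem_pcz.1 he).1
  rw [h2, card_eq_sum_ones]
  push_cast
  refine le_trans (sum_le_sum fun u hu => ?_)
    (sum_le_sum_of_subset_of_nonneg h3 fun u _ _ => by positivity)
  obtain ⟨e, he, rfl⟩ := mem_image.1 hu
  have h4 := (mem_pcz.1 he).2
  simp only [ipc, ikp, h4, if_true]
  norm_num

/-- `RowE` with a smaller extra term -/
theorem RowE.mono {K : Finset (Itm V)} {X : Finset V → Finset V} {z y : V} {EX EX' : ℤ}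
    (hE : RowE G Z T hm r S U K X z y EX) (hle : EX' ≤ EX) :
    RowE G Z T hm r S U K X z y EX' := by
  unfold RowE at hE ⊢
  linarith

/-- **the rectangle of `w` is at most the class edges of the unused columns of `y`**: the payment in the form
which can be put into any row test with the columns of `y` -/
theorem Fam.rect_le (hC : CSys G Z T hm A S)
    (hW : WSysT G (co G) A (CP G Z T S) (HP G Z T S) (tlo G T hm))
    (h : ∀ x ∈ A, Fam (co G) (CP G Z T S) (HP G Z T S) (tlo G T hm) x (U x))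
    {z y : V} (hz : z ∈ A) (hy : y ∈ A) (hzy : z ≠ y) {K : Finset (Itm V)}
    (hK : K ⊆ (A.erase z).biUnion U)
    {X : Finset V → Finset V} (hX : ∀ Q, X Q ⊆ oth (tlo G T hm) z Q)
    {a : V} (ha : a ∈ A) {w : Itm V} (hw : w ∈ U a) :
    2 * (max 0 ((ims G (CP G Z T S) (tlo G T hm) z w : ℤ)
              - ∑ u ∈ U z, (ipc u : ℤ) * ikp (tlo G T hm) y u)
          * max 0 ((ims G (CP G Z T S) (tlo G T hm) y w : ℤ)
              - ∑ u ∈ K, (if u ∈ U y then (ipc u : ℤ) else 0)))
      ≤ 2 * ∑ c ∈ CP G Z T S y \ K.biUnion (rpts (tlo G T hm) X z),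
          (dg G (icl G (CP G Z T S) (tlo G T hm) z w
            \ (pcz (tlo G T hm) y (U z)).image Prod.snd) c : ℤ)
        + 2 * ∑ v ∈ K.biUnion (rpts (tlo G T hm) X z) \ CP G Z T S y,
          (dg G (HP G Z T S z) v : ℤ) := by
  obtain ⟨F, hFd⟩ : ∃ F, F = icl G (CP G Z T S) (tlo G T hm) z w
    \ (pcz (tlo G T hm) y (U z)).image Prod.snd := ⟨_, rfl⟩
  obtain ⟨W, hWd⟩ : ∃ W, W = K.biUnion (rpts (tlo G T hm) X z) := ⟨_, rfl⟩
  have a3 := Fam.card_colW (z := z) hC hW h hy hK hX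
  rw [← hWd] at a3
  rw [← hWd, ← hFd]
  have b3 : (((pcz (tlo G T hm) y (U z)).image Prod.snd).card : ℤ)
      ≤ ∑ u ∈ U z, (ipc u : ℤ) * ikp (tlo G T hm) y u := by
    have h1 : ((pcz (tlo G T hm) y (U z)).image Prod.snd).card
      ≤ (pcz (tlo G T hm) y (U z)).card := card_image_le
    have h2 : (((pcz (tlo G T hm) y (U z)).image Prod.snd).card : ℤ)
      ≤ (pcz (tlo G T hm) y (U z)).card := by exact_mod_cast h1
    exact h2.trans card_pcz_le
  have key : ∀ (D P : Finset V) (q : ℤ), (P.card : ℤ) ≤ q →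
      max 0 ((D.card : ℤ) - q) ≤ ((D \ P).card : ℤ) := by
    intro D P q hq
    refine max_le (Nat.cast_nonneg _) ?_
    have h2 : D.card ≤ (D \ P).card + P.card := card_le_card_sdiff_add_card
    have h3 : (D.card : ℤ) ≤ (D \ P).card + P.card := by exact_mod_cast h2
    linarith
  have c1 : ∀ c ∈ icl G (CP G Z T S) (tlo G T hm) y w \ W, (F.card : ℤ) ≤ (dg G F c : ℤ) := by
    intro c hc
    have : F.card ≤ dg G F c := by
      refine card_le_card fun b hb => ?_
      have hb' : b ∈ icl G (CP G Z T S) (tlo G T hm) z w := by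
        rw [hFd] at hb
        exact (mem_sdiff.1 hb).1
      exact mem_filter.2 ⟨hb, ((h a ha).icl_complete hW ha hz hy hzy hw b hb' c
        (mem_sdiff.1 hc).1).symm⟩
    exact_mod_cast this
  have c2 : ∑ c ∈ icl G (CP G Z T S) (tlo G T hm) y w \ W, (dg G F c : ℤ)
      ≤ ∑ c ∈ CP G Z T S y \ W, (dg G F c : ℤ) :=
    sum_le_sum_of_subset_of_nonneg (sdiff_subset_sdiff rcl_sub subset_rfl)
      fun _ _ _ => Nat.cast_nonneg _
  have c3 := (sum_le_sum c1).trans c2
  rw [sum_const, nsmul_eq_mul] at c3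
  have d1 : icl G (CP G Z T S) (tlo G T hm) y w \ (CP G Z T S y ∩ W)
      = icl G (CP G Z T S) (tlo G T hm) y w \ W := by
    ext c
    rw [mem_sdiff, mem_sdiff, mem_inter]
    constructor
    · rintro ⟨h1, h2⟩
      exact ⟨h1, fun h3 => h2 ⟨rcl_sub h1, h3⟩⟩
    · rintro ⟨h1, h2⟩
      exact ⟨h1, fun h3 => h2 h3.2⟩
  have k1 := key (icl G (CP G Z T S) (tlo G T hm) z w)
    ((pcz (tlo G T hm) y (U z)).image Prod.snd) _ b3
  have k2 := key (icl G (CP G Z T S) (tlo G T hm) y w) (CP G Z T S y ∩ W) _ a3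
  rw [d1] at k2
  rw [← hFd] at k1
  have c4 := mul_le_mul k1 k2 (le_max_left _ _) (Nat.cast_nonneg _)
  have e5 : ∀ v, (ims G (CP G Z T S) (tlo G T hm) v w : ℤ)
      = ((icl G (CP G Z T S) (tlo G T hm) v w).card : ℤ) := fun _ => rfl
  have c5 : (0 : ℤ) ≤ ∑ v ∈ W \ CP G Z T S y, (dg G (HP G Z T S z) v : ℤ) :=
    sum_nonneg fun _ _ => Nat.cast_nonneg _
  have c6 : ((F.card : ℤ)) * ((icl G (CP G Z T S) (tlo G T hm) y w \ W).card : ℤ)
      = ((icl G (CP G Z T S) (tlo G T hm) y w \ W).card : ℤ) * (F.card : ℤ) := mul_comm _ _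
  rw [e5, e5]
  linarith

/-- the points of the rectangle are allowed in `Fam.rowE_of` -/
theorem rect_ok {C : V → Finset V} {tl : V → V} {z y : V} {w : Itm V} {D : Finset (Itm V)} :
    icl G C tl z w \ (pcz tl y D).image Prod.snd ⊆ C z ∧
      ∀ e ∈ pcz tl y D, e.2 ∉ icl G C tl z w \ (pcz tl y D).image Prod.snd :=
  ⟨sdiff_subset.trans rcl_sub, fun _ he he' => (mem_sdiff.1 he').2 (mem_image_of_mem _ he)⟩

/-- **the row test with all columns of `y` and the rectangle of `w`** -/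
theorem Fam.rowE_rect (hF : PFrame G r m t Z T) (hP : PG G r) (hC : CSys G Z T hm A S)
    (hW : WSysT G (co G) A (CP G Z T S) (HP G Z T S) (tlo G T hm))
    (h : ∀ x ∈ A, Fam (co G) (CP G Z T S) (HP G Z T S) (tlo G T hm) x (U x))
    {z y : V} (hz : z ∈ A) (hy : y ∈ A) (hzy : z ≠ y) {K : Finset (Itm V)}
    (hK : K ⊆ (A.erase z).biUnion U) (hk : ∀ u ∈ K, ikp (tlo G T hm) z u ≠ 0)
    {X : Finset V → Finset V} (hX : ∀ Q, X Q ⊆ oth (tlo G T hm) z Q)
    {a : V} (ha : a ∈ A) {w : Itm V} (hw : w ∈ U a) :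
    RowE G Z T hm r S U K X z y
      (2 * (max 0 ((ims G (CP G Z T S) (tlo G T hm) z w : ℤ)
              - ∑ u ∈ U z, (ipc u : ℤ) * ikp (tlo G T hm) y u)
          * max 0 ((ims G (CP G Z T S) (tlo G T hm) y w : ℤ)
              - ∑ u ∈ K, (if u ∈ U y then (ipc u : ℤ) else 0)))) :=
  (Fam.rowE_of hF hP hC hW h hz hy hzy hK hk hX
    (rect_ok (w := w)).1 (rect_ok (w := w)).2).mono
    (Fam.rect_le hC hW h hz hy hzy hK hX ha hw)

/-- **(ROWC) over the basic integers with the rectangle of any item** `w` of any host -/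
theorem Fam.rowcR {S : Finset V} (hF : PFrame G r m t Z T) (hP : PG G r)
    (hC : CSys G Z T hm A fun x => S.filter fun v => hm v = x)
    (hW : WSysT G (co G) A (CP G Z T fun x => S.filter fun v => hm v = x)
      (HP G Z T fun x => S.filter fun v => hm v = x) (tlo G T hm)) {U : V → Finset (Itm V)}
    (h : ∀ x ∈ A, Fam (co G) (CP G Z T fun x => S.filter fun v => hm v = x)
      (HP G Z T fun x => S.filter fun v => hm v = x) (tlo G T hm) x (U x))
    {z y : V} (hz : z ∈ A) (hy : y ∈ A) (hzy : z ≠ y) {K : Finset (Itm V)}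
    (hK : K ⊆ (A.erase z).biUnion U)
    (h0 : 0 ≤ sI hm r S z + ∑ u ∈ K, (ikp (tlo G T hm) z u : ℤ))
    {a : V} (ha : a ∈ A) {w : Itm V} (hw : w ∈ U a) :
    2 * ((r : ℤ) - 1) * sI hm r S z
      + 2 * ∑ u ∈ K, ((ikp (tlo G T hm) z u : ℤ) * ((r : ℤ) - 1 - tI G Z T hm r S z)
          - rmr G (CP G Z T fun x => S.filter fun v => hm v = x) (tlo G T hm) z u)
      + 2 * ∑ u ∈ U z, ((ikp (tlo G T hm) y u : ℤ) * ((r : ℤ) - 1 - tI G Z T hm r S y)
          - ims G (CP G Z T fun x => S.filter fun v => hm v = x) (tlo G T hm) y u)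
      + 2 * (max 0 ((ims G (CP G Z T fun x => S.filter fun v => hm v = x) (tlo G T hm) z w : ℤ)
              - ∑ u ∈ U z, (ipc u : ℤ) * ikp (tlo G T hm) y u)
          * max 0 ((ims G (CP G Z T fun x => S.filter fun v => hm v = x) (tlo G T hm) y w : ℤ)
              - ∑ u ∈ K, (if u ∈ U y then (ipc u : ℤ) * ikp (tlo G T hm) z u else 0)))
      ≤ 2 * eI G hm S z
        + 2 * (∑ u ∈ K, (2 * (ikp (tlo G T hm) z u : ℤ)
              - if u ∈ U y then (ipc u : ℤ) * ikp (tlo G T hm) z u else 0)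
            + ((r : ℤ) - 1 - tI G Z T hm r S y)) * (sI hm r S z + 1)
        + (∑ u ∈ K, (2 * (ikp (tlo G T hm) z u : ℤ)
              - if u ∈ U y then (ipc u : ℤ) * ikp (tlo G T hm) z u else 0))
          * (∑ u ∈ K, (2 * (ikp (tlo G T hm) z u : ℤ)
              - if u ∈ U y then (ipc u : ℤ) * ikp (tlo G T hm) z u else 0) - 1)
        + 2 * ∑ u ∈ K, (if u ∈ U y
            then (iar G (CP G Z T (fun x => S.filter fun v => hm v = x) y) u : ℤ)
            else 2 * ((r : ℤ) - 1 - tI G Z T hm r S y) * ikp (tlo G T hm) z u)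
        + 2 * (∑ u ∈ K, (if u ∈ U y then (ipc u : ℤ) * ikp (tlo G T hm) z u else 0))
          * (∑ u ∈ U z, (ipc u : ℤ) * ikp (tlo G T hm) y u) := by
  have h1 := Fam.rowE_rect (X := fun Q => one1 (oth (tlo G T hm) z Q)) hF hP hC hW h hz hy hzy
    ((filter_subset (fun u => ikp (tlo G T hm) z u ≠ 0) K).trans hK)
    (fun u hu => (mem_filter.1 hu).2) (fun Q => one1_sub _) ha hw
  refine Fam.rowcI_of hC hW h hz hy hzy hK h0 (h1.mono ?_)
  have e4 : ∑ u ∈ K, (if u ∈ U y then (ipc u : ℤ) * ikp (tlo G T hm) z u else 0)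
      = ∑ u ∈ K.filter (fun u => ikp (tlo G T hm) z u ≠ 0),
          (if u ∈ U y then (ipc u : ℤ) else 0) := by
    rw [sum_filter]
    refine sum_congr rfl fun u hu => ?_
    by_cases h3 : ikp (tlo G T hm) z u = 0
    · simp [h3]
    · simp only [ne_eq, h3, not_false_iff, if_true]
      split_ifs with h4
      · rcases u with Q | e
        · simp [ipc]
        · have h3 : ikp (tlo G T hm) z (Sum.inr e) = 1 := by
            by_cases h4 : tlo G T hm e.1 = z
            · simp only [ikp, h4, if_true]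
            · exact absurd (by simp only [ikp, h4, if_false]) h3
          rw [h3]
          simp
      · rfl
  rw [e4]

end RowR

end Pool.Agent.Lib.MP_f04ccf_co
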