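import Pool.Agent.Lib.MP_f04ccf_co.M.NuW
import Pool.Agent.Lib.MP_f04ccf_co.M.PayN
import Pool.Agent.Lib.MP_f04ccf_co.M.RowR
import Pool.Agent.Lib.MP_f04ccf_co.M.CellJB
import Pool.Agent.Lib.MP_f04ccf_co.M.LDK

/-!
MP_f04ccf_co, PLAN W, version [B]: lemmas for the structure `ItV` (see `M/ItV.lean`).
`Pk.sum_nui_fan`: the free arcs of a host over its items.  `sum_ikp_le`: the loads of an item.
`WCoreK.rowN_item`, `WCoreK.rowN_ntype`: T+ with a rectangle, the missing pairs kept.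
`WCoreK.rectF`: the pair inequality with the rectangle of an N-type.
-/

set_option autoImplicit false

namespace Pool.Agent.Lib.MP_f04ccf_co

open Finset

attribute [local instance] Classical.propDecidable

section Nu

variable {ι V : Type*} {G : SimpleGraph V} {C H : Finset V} {tl : V → ι}
  {B : Finset (V × V)} {Ps : Finset (Finset V)}

lemma ikp_of_mem {u : Itm V} (h2 : ∀ Q, u = Sum.inl Q → 2 ≤ Q.card) {v : V}
    (hv : v ∈ imem u) : ikp tl (tl v) u ≠ 0 := by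
  rcases u with Q | e
  · have h3 := h2 Q rfl
    simp only [ikp]
    split_ifs with h4
    · omega
    · have h5 : v ∈ tlp tl Q (tl v) := mem_tlp.2 ⟨hv, rfl⟩
      exact (card_pos.2 ⟨v, h5⟩).ne'
  · simp only [imem, mem_singleton] at hv
    subst hv
    simp [ikp]

/-- no load, no free arcs -/
lemma nui_zero {u : Itm V} (h2 : ∀ Q, u = Sum.inl Q → 2 ≤ Q.card) {y : ι}
    (hk : ikp tl y u = 0) : nui G C tl B y u = 0 := by
  unfold nui
  refine sum_eq_zero fun v hv => ?_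
  obtain ⟨h3, h4⟩ := mem_filter.1 hv
  exact absurd (h4 ▸ hk) (ikp_of_mem h2 h3)

/-- the loads of an item -/
lemma sum_ikp_le (Y : Finset ι) {u : Itm V} (h2 : ∀ Q, u = Sum.inl Q → 2 ≤ Q.card) :
    ∑ y ∈ Y, ikp tl y u + ipc u ≤ ivl u + 1 := by
  rcases u with Q | e
  · have h3 := h2 Q rfl
    simp only [ipc, ivl, add_zero]
    have h4 : ∑ y ∈ Y, (tlp tl Q y).card ≤ Q.card := by
      have h5 : (Y.biUnion fun y => tlp tl Q y).card = ∑ y ∈ Y, (tlp tl Q y).card := by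
        refine card_biUnion fun a _ b _ hab => disjoint_left.2 fun v hv hv' => ?_
        exact hab ((mem_tlp.1 hv).2.symm.trans (mem_tlp.1 hv').2)
      rw [← h5]
      exact card_le_card (biUnion_subset.2 fun y _ => tlp_sub)
    have h5 : ∑ y ∈ Y, ikp tl y (Sum.inl Q : Itm V) ≤ ∑ y ∈ Y, (tlp tl Q y).card := by
      refine sum_le_sum fun y _ => ?_
      simp only [ikp]
      split_ifs with h6
      · rw [h6]
        omega
      · exact le_rfl
    omega
  · simp only [ipc, ivl]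
    have h3 : ∑ y ∈ Y, ikp tl y (Sum.inr e : Itm V) ≤ 1 := by
      have h4 : ∑ y ∈ Y, ikp tl y (Sum.inr e : Itm V) = (Y.filter fun y => tl e.1 = y).card := by
        rw [card_filter]
        rfl
      rw [h4, card_le_one]
      intro a ha b hb
      exact (mem_filter.1 ha).2.symm.trans (mem_filter.1 hb).2
    omega

namespace Pk

/-- the free arcs of the N-ends with tail `y` over the items, the other direction -/
lemma sum_nui_nez (h : Pk G C H tl B Ps) (y : ι) :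
    ∑ P ∈ Ps.filter (fun P => 2 ≤ P.card), nui G C tl B y (Sum.inl P)
      ≤ ∑ v ∈ nez G C H tl B y, (frC G C tl B v).card := by
  have h1 : ∑ P ∈ Ps.filter (fun P => 2 ≤ P.card), nui G C tl B y (Sum.inl P)
      = ∑ v ∈ (Ps.filter fun P => 2 ≤ P.card).biUnion
          (fun P => P.filter fun v => tl v = y), (frC G C tl B v).card := by
    rw [sum_biUnion]
    · rfl
    · intro P hP Q hQ hPQ
      have hP' := (mem_filter.1 (mem_coe.1 hP)).1
      have hQ' := (mem_filter.1 (mem_coe.1 hQ)).1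
      exact (h.dis P hP' Q hQ' hPQ).mono (filter_subset _ _) (filter_subset _ _)
  rw [h1]
  set W := (Ps.filter fun P => 2 ≤ P.card).biUnion (fun P => P.filter fun v => tl v = y) with hW
  have h2 : ∑ v ∈ W, (frC G C tl B v).card
      = ∑ v ∈ W.filter (fun v => (frC G C tl B v).Nonempty), (frC G C tl B v).card := by
    symm
    refine sum_subset (filter_subset _ _) fun v hv hv' => ?_
    have h3 : ¬ (frC G C tl B v).Nonempty := fun h4 => hv' (mem_filter.2 ⟨hv, h4⟩)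
    rw [not_nonempty_iff_eq_empty.1 h3, card_empty]
  rw [h2]
  refine sum_le_sum_of_subset ?_
  intro v hv
  obtain ⟨h3, h4⟩ := mem_filter.1 hv
  obtain ⟨P, hP, h5⟩ := mem_biUnion.1 h3
  obtain ⟨h6, h7⟩ := mem_filter.1 h5
  have hP' := (mem_filter.1 hP).1
  refine mem_filter.2 ⟨mem_Nend.2 ⟨mem_sdiff.2 ⟨h.sub P hP' h6, fun h8 => ?_⟩, h4⟩, h7⟩
  obtain ⟨e, he, hev⟩ := mem_image.1 h8
  exact h.dw e he P hP' (hev ▸ h6)

/-- **the free arcs with tail `y` over the items** -/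
theorem sum_nui_fan (h : Pk G C H tl B Ps)
    (hmin : ∀ B' Ps', Pk G C H tl B' Ps' → Ps.card ≤ Ps'.card)
    (h32 : ∀ v ∈ H, ∀ w ∈ H, ∀ a ∈ C, v ≠ w → tl v = tl w →
      ¬ G.Adj v a → ¬ G.Adj w a → G.Adj v w) (y : ι) :
    ∑ u ∈ pkf B Ps, (nui G C tl B y u : ℤ) = fan G C H tl B y := by
  have h1 := h.fan_eq y
  have h2 := sum_ipc_nui (G := G) (C := C) (tl := tl) (B := B) (Ps := Ps) y
  have h3 := sum_pkf_inl (B := B) (Ps := Ps) fun u => (nui G C tl B y u : ℤ)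
  have h4 : ∑ P ∈ Ps.filter (fun P => 2 ≤ P.card), (nui G C tl B y (Sum.inl P) : ℤ)
      = ∑ v ∈ nez G C H tl B y, ((frC G C tl B v).card : ℤ) := by
    have h5 := le_antisymm (h.sum_nui_nez y) (h.sum_nez_nui hmin h32 y)
    exact_mod_cast h5
  have h6 : ∑ u ∈ pkf B Ps, (1 - (ipc u : ℤ)) * (nui G C tl B y u : ℤ)
      = ∑ u ∈ pkf B Ps, (nui G C tl B y u : ℤ) - ∑ u ∈ pkf B Ps, (ipc u : ℤ) * nui G C tl B y u := by
    rw [← sum_sub_distrib]
    exact sum_congr rfl fun u _ => by ring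
  linarith

/-- an item of value one: at most `kpl` free arcs towards `y` -/
lemma nui_le_kpl (h : Pk G C H tl B Ps)
    (hmin : ∀ B' Ps', Pk G C H tl B' Ps' → Ps.card ≤ Ps'.card)
    (h32 : ∀ v ∈ H, ∀ w ∈ H, ∀ a ∈ C, v ≠ w → tl v = tl w →
      ¬ G.Adj v a → ¬ G.Adj w a → G.Adj v w) {u : Itm V} (hu : u ∈ pkf B Ps) (h1 : ivl u = 1)
    (y : ι) : nui G C tl B y u ≤ kpl G C H tl B y := by
  by_cases hk : ikp tl y u = 0
  · rw [nui_zero (fun Q hQ => (inl_mem_pkf.1 (hQ ▸ hu)).2) hk]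
    exact Nat.zero_le _
  · obtain ⟨v, hv, hvy, hnu⟩ := h.nui_one hmin h32 hu h1 hk
    rw [hnu]
    by_cases hne : (frC G C tl B v).Nonempty
    · refine le_sup (f := fun v => (frC G C tl B v).card) ?_
      rcases u with P | e
      · obtain ⟨hP, -⟩ := inl_mem_pkf.1 hu
        refine mem_union_right _ (mem_filter.2 ⟨mem_Nend.2 ⟨mem_sdiff.2 ⟨h.sub P hP hv,
          fun h8 => ?_⟩, hne⟩, hvy⟩)
        obtain ⟨e, he, hev⟩ := mem_image.1 h8
        exact h.dw e he P hP (hev ▸ hv)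
      · have he := inr_mem_pkf.1 hu
        have hve : v = e.1 := mem_singleton.1 hv
        refine mem_union_left _ (mem_image.2 ⟨e, mem_btl.2 ⟨he, ?_⟩, hve.symm⟩)
        rw [← hve]
        exact hvy
    · rw [not_nonempty_iff_eq_empty.1 hne, card_empty]
      exact Nat.zero_le _

/-- an item of value one: free arcs towards at most one tail -/
lemma nui_two (h : Pk G C H tl B Ps)
    (hmin : ∀ B' Ps', Pk G C H tl B' Ps' → Ps.card ≤ Ps'.card)
    (h32 : ∀ v ∈ H, ∀ w ∈ H, ∀ a ∈ C, v ≠ w → tl v = tl w →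
      ¬ G.Adj v a → ¬ G.Adj w a → G.Adj v w) {u : Itm V} (hu : u ∈ pkf B Ps) (h1 : ivl u = 1)
    {y z : ι} (hyz : y ≠ z) : nui G C tl B y u = 0 ∨ nui G C tl B z u = 0 := by
  by_contra hcon
  push Not at hcon
  obtain ⟨a1, a2⟩ := hcon
  have h2 : ∀ Q, u = Sum.inl Q → 2 ≤ Q.card := fun Q hQ => (inl_mem_pkf.1 (hQ ▸ hu)).2
  have hky : ikp tl y u ≠ 0 := fun h3 => a1 (nui_zero h2 h3)
  have hkz : ikp tl z u ≠ 0 := fun h3 => a2 (nui_zero h2 h3)
  obtain ⟨v, hv, hvy, hnv⟩ := h.nui_one hmin h32 hu h1 hky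
  obtain ⟨w, hw, hwz, hnw⟩ := h.nui_one hmin h32 hu h1 hkz
  have hvw : v ≠ w := fun h3 => hyz (by rw [← hvy, ← hwz, h3])
  have b1 : (frC G C tl B v).Nonempty := card_pos.1 (by omega)
  have b2 : (frC G C tl B w).Nonempty := card_pos.1 (by omega)
  rcases u with P | e
  · obtain ⟨hP, -⟩ := inl_mem_pkf.1 hu
    have hc : P.card = 2 := by
      simp only [ivl] at h1
      have := h2 P rfl
      omega
    obtain ⟨x, hx, hx2⟩ := h.home hmin h32 hP
    have hP2 : ({v, w} : Finset V) = P := by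
      refine eq_of_subset_of_card_le ?_ ?_
      · intro a ha
        rcases mem_insert.1 ha with rfl | ha
        · exact hv
        · rw [mem_singleton.1 ha]
          exact hw
      · rw [hc, card_pair hvw]
    rw [← hP2] at hx
    rcases mem_insert.1 hx with rfl | hx
    · exact hx2 b1
    · exact hx2 (by rw [mem_singleton.1 hx]; exact b2)
  · exact hvw ((mem_singleton.1 hv).trans (mem_singleton.1 hw).symm)

end Pk

end Nu

section NuV

variable {V : Type*} {G : SimpleGraph V} {Z T : Finset V} {hm : V → V} {r m n p : ℕ}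
  {B : V → Finset (V × V)} {Ps : V → Finset (Finset V)}

/-- **T+ with a rectangle of class edges, the missing pairs kept** -/
theorem WCoreK.rowN_rect (h : WCoreK G Z T r m n p hm)
    (hB : ∀ x ∈ T, Pk G (cz G Z T hm x) (hz G Z T hm x) (tlo G T hm) (B x) (Ps x))
    {z y : V} (hz' : z ∈ T) (hy : y ∈ T) (hzy : z ≠ y) {K : Finset (Itm V)}
    (hK : K ⊆ (T.erase z).biUnion fun x => pkf (B x) (Ps x))
    (hk : ∀ u ∈ K, ikp (tlo G T hm) z u ≠ 0)
    {X : Finset V → Finset V} (hX : ∀ Q, X Q ⊆ oth (tlo G T hm) z Q)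
    {X1 Y1 : Finset V} (hX1 : X1 ⊆ cz G Z T hm z)
    (hX2 : ∀ e ∈ pcz (tlo G T hm) y (pkf (B z) (Ps z)), e.2 ∉ X1)
    (hY1 : Y1 ⊆ cz G Z T hm y \ K.biUnion (rpts (tlo G T hm) X z))
    (hXY : ∀ a ∈ X1, ∀ c ∈ Y1, G.Adj a c) :
    RowN G Z T hm r (fun x => Z.filter fun v => hm v = x) (fun x => pkf (B x) (Ps x)) K X z y
      (2 * ((X1.card : ℤ) * Y1.card)) := by
  have hfam : ∀ x ∈ T, Fam (co G) (cz G Z T hm) (hz G Z T hm) (tlo G T hm) x
      (pkf (B x) (Ps x)) := fun x hx => (hB x hx).fam (h.csys.dCH hx hx).symm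
  refine (Fam.rowN_of h.F.toPFrame h.gp.P h.csys h.wsysT hfam hz' hy hzy hK hk hX
    (F := X1) hX1 hX2).mono ?_
  have h1 := rect_dg (G := G) (D := X1) subset_rfl hY1 hXY
  have h2 : (0 : ℤ) ≤ ∑ v ∈ K.biUnion (rpts (tlo G T hm) X z) \ cz G Z T hm y,
      (dg G (hz G Z T hm z) v : ℤ) := sum_nonneg fun _ _ => Nat.cast_nonneg _
  linarith

/-- **T+ with the rectangle of any item, the missing pairs kept** -/
theorem WCoreK.rowN_item (h : WCoreK G Z T r m n p hm)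
    (hB : ∀ x ∈ T, Pk G (cz G Z T hm x) (hz G Z T hm x) (tlo G T hm) (B x) (Ps x))
    {z y : V} (hz' : z ∈ T) (hy : y ∈ T) (hzy : z ≠ y) {K : Finset (Itm V)}
    (hK : K ⊆ (T.erase z).biUnion fun x => pkf (B x) (Ps x))
    {w : Itm V} {x' : V} (hx' : x' ∈ T) (hw : w ∈ pkf (B x') (Ps x')) :
    RowN G Z T hm r (fun x => Z.filter fun v => hm v = x) (fun x => pkf (B x) (Ps x))
      (K.filter fun u => ikp (tlo G T hm) z u ≠ 0) (fun Q => one1 (oth (tlo G T hm) z Q)) z y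
      (2 * (max 0 ((ims G (cz G Z T hm) (tlo G T hm) z w : ℤ) - pcn (tlo G T hm) B z y)
        * max 0 ((ims G (cz G Z T hm) (tlo G T hm) y w : ℤ)
          - ∑ u ∈ K, (if u ∈ pkf (B y) (Ps y) then (ipc u : ℤ) * ikp (tlo G T hm) z u
            else 0)))) := by
  have hfam : ∀ x ∈ T, Fam (co G) (cz G Z T hm) (hz G Z T hm) (tlo G T hm) x
      (pkf (B x) (Ps x)) := fun x hx => (hB x hx).fam (h.csys.dCH hx hx).symm
  have hpcz : pcz (tlo G T hm) y (pkf (B z) (Ps z)) = pcs (tlo G T hm) (B z) y := by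
    ext e
    rw [mem_pcz, inr_mem_pkf, mem_pcs]
  set K0 := K.filter fun u => ikp (tlo G T hm) z u ≠ 0 with hK0
  set Wp := K0.biUnion (rpts (tlo G T hm) (fun Q => one1 (oth (tlo G T hm) z Q)) z) with hWp
  have hK0s : K0 ⊆ (T.erase z).biUnion fun x => pkf (B x) (Ps x) := (filter_subset _ _).trans hK
  have hk0 : ∀ u ∈ K0, ikp (tlo G T hm) z u ≠ 0 := fun u hu => (mem_filter.1 hu).2
  have h1 := Fam.card_colpts h.wsysT hfam hy hK0s hk0
    (X := fun Q => one1 (oth (tlo G T hm) z Q)) (fun Q => one1_sub _)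
  have h2 : ∑ u ∈ K0, (if u ∈ pkf (B y) (Ps y) then (ipc u : ℤ) else 0)
      ≤ ∑ u ∈ K, (if u ∈ pkf (B y) (Ps y) then (ipc u : ℤ) * ikp (tlo G T hm) z u else 0) := by
    refine le_trans (sum_le_sum (g := fun u => if u ∈ pkf (B y) (Ps y) then
      (ipc u : ℤ) * ikp (tlo G T hm) z u else 0) fun u hu => ?_)
      (sum_le_sum_of_subset_of_nonneg (filter_subset _ _) fun u _ _ => ?_)
    · split_ifs
      · have h3 : 1 ≤ ikp (tlo G T hm) z u := Nat.one_le_iff_ne_zero.2 (hk0 u hu)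
        have h4 : (1 : ℤ) ≤ ikp (tlo G T hm) z u := by exact_mod_cast h3
        have h5 : (0 : ℤ) ≤ ipc u := Nat.cast_nonneg _
        nlinarith
      · exact le_rfl
    · split_ifs
      · exact mul_nonneg (Nat.cast_nonneg _) (Nat.cast_nonneg _)
      · exact le_rfl
  have hE := h.rowN_rect hB hz' hy hzy hK0s hk0
    (X := fun Q => one1 (oth (tlo G T hm) z Q)) (fun Q => one1_sub _)
    (X1 := icl G (cz G Z T hm) (tlo G T hm) z w \ (pcs (tlo G T hm) (B z) y).image Prod.snd)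
    (Y1 := icl G (cz G Z T hm) (tlo G T hm) y w \ Wp)
    (fun a ha => rcl_sub (mem_sdiff.1 ha).1)
    (fun e he h3 => (mem_sdiff.1 h3).2 (mem_image_of_mem _ (hpcz ▸ he)))
    (sdiff_subset_sdiff rcl_sub subset_rfl)
    (fun a ha c hc => (hfam x' hx').icl_complete h.wsysT hx' hz' hy hzy hw a (mem_sdiff.1 ha).1
      c (mem_sdiff.1 hc).1)
  refine hE.mono ?_
  have a1 := card_sdiff_ge (icl G (cz G Z T hm) (tlo G T hm) z w)
    ((pcs (tlo G T hm) (B z) y).image Prod.snd) (q := pcn (tlo G T hm) B z y) (by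
      unfold pcn
      exact_mod_cast card_image_le)
  have a2 : max 0 (((icl G (cz G Z T hm) (tlo G T hm) y w).card : ℤ)
      - ∑ u ∈ K, (if u ∈ pkf (B y) (Ps y) then (ipc u : ℤ) * ikp (tlo G T hm) z u else 0))
      ≤ ((icl G (cz G Z T hm) (tlo G T hm) y w \ Wp).card : ℤ) := by
    have h3 : icl G (cz G Z T hm) (tlo G T hm) y w \ Wp
        = icl G (cz G Z T hm) (tlo G T hm) y w \ (cz G Z T hm y ∩ Wp) := by
      ext a
      rw [mem_sdiff, mem_sdiff, mem_inter]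
      constructor
      · rintro ⟨h4, h5⟩
        exact ⟨h4, fun h6 => h5 h6.2⟩
      · rintro ⟨h4, h5⟩
        exact ⟨h4, fun h6 => h5 ⟨rcl_sub h4, h6⟩⟩
    rw [h3]
    exact card_sdiff_ge _ _ (h1.trans h2)
  have a3 := mul_le_mul a1 a2 (le_max_left _ _) (Nat.cast_nonneg _)
  have e5 : ∀ v, (ims G (cz G Z T hm) (tlo G T hm) v w : ℤ)
      = ((icl G (cz G Z T hm) (tlo G T hm) v w).card : ℤ) := fun _ => rfl
  rw [e5, e5]
  linarith

/-- **T+ with the rectangle of an N-type of the row `y` with tail `z`, the missing pairs kept** -/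
theorem WCoreK.rowN_ntype (hp : 2 * r ≤ p) (h : WCoreK G Z T r m n p hm)
    (hB : ∀ x ∈ T, Pk G (cz G Z T hm x) (hz G Z T hm x) (tlo G T hm) (B x) (Ps x))
    (hmin : ∀ x ∈ T, ∀ B' Ps', Pk G (cz G Z T hm x) (hz G Z T hm x) (tlo G T hm) B' Ps' →
      (Ps x).card ≤ Ps'.card)
    {z y : V} (hz' : z ∈ T) (hy : y ∈ T) (hzy : z ≠ y) {K : Finset (Itm V)}
    (hK : K ⊆ (T.erase z).biUnion fun x => pkf (B x) (Ps x))
    {w : Itm V} (hw : w ∈ pkf (B y) (Ps y)) (hw1 : ivl w = 1) (hwk : ikp (tlo G T hm) z w ≠ 0) :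
    RowN G Z T hm r (fun x => Z.filter fun v => hm v = x) (fun x => pkf (B x) (Ps x))
      (K.filter fun u => ikp (tlo G T hm) z u ≠ 0) (fun Q => one1 (oth (tlo G T hm) z Q)) z y
      (2 * (max 0 ((nui G (cz G Z T hm y) (tlo G T hm) (B y) z w : ℤ) + ipc w
          - pcn (tlo G T hm) B z y)
        * nui G (cz G Z T hm y) (tlo G T hm) (B y) z w)) := by
  have hfam : ∀ x ∈ T, Fam (co G) (cz G Z T hm) (hz G Z T hm) (tlo G T hm) x
      (pkf (B x) (Ps x)) := fun x hx => (hB x hx).fam (h.csys.dCH hx hx).symm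
  have hpcz : pcz (tlo G T hm) y (pkf (B z) (Ps z)) = pcs (tlo G T hm) (B z) y := by
    ext e
    rw [mem_pcz, inr_mem_pkf, mem_pcs]
  obtain ⟨v, hv, hvH, hvz, hnu, h3⟩ := h.rep hy (hB y hy) (hmin y hy) hw hw1 hwk
  set K0 := K.filter fun u => ikp (tlo G T hm) z u ≠ 0 with hK0
  set Wp := K0.biUnion (rpts (tlo G T hm) (fun Q => one1 (oth (tlo G T hm) z Q)) z) with hWp
  have hK0s : K0 ⊆ (T.erase z).biUnion fun x => pkf (B x) (Ps x) := (filter_subset _ _).trans hK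
  have hk0 : ∀ u ∈ K0, ikp (tlo G T hm) z u ≠ 0 := fun u hu => (mem_filter.1 hu).2
  have c1 : frC G (cz G Z T hm y) (tlo G T hm) (B y) v ⊆ cz G Z T hm y \ Wp := by
    intro a ha
    obtain ⟨a1, a2, a3⟩ := mem_frC.1 ha
    refine mem_sdiff.2 ⟨a1, fun h4 => ?_⟩
    obtain ⟨u, hu, h7⟩ := mem_biUnion.1 h4
    obtain ⟨x', hx', hux'⟩ := mem_biUnion.1 (hK0s hu)
    obtain ⟨e, rfl, h8, h9, h10⟩ := Fam.cls_pt h.wsysT hfam (mem_of_mem_erase hx') hy hux'
      (hk0 u hu) (fun Q => one1_sub _) h7 a1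
    exact a3 e (inr_mem_pkf.1 (h10 ▸ hux')) h8 (h9.trans hvz.symm)
  have hcell := h.csys.cellD h.F.toPFrame hy hz' hzy.symm
  have hvD := h.csys.mem_Dbl_of_tlo h.hh hy hvH hvz
  have hE := h.rowN_rect hB hz' hy hzy hK0s hk0
    (X := fun Q => one1 (oth (tlo G T hm) z Q)) (fun Q => one1_sub _)
    (X1 := msd G (cz G Z T hm z) v \ (pcs (tlo G T hm) (B z) y).image Prod.snd)
    (Y1 := frC G (cz G Z T hm y) (tlo G T hm) (B y) v)
    (fun a ha => ((h.mem_msd hy hz' hvH).1 (mem_sdiff.1 ha).1).1)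
    (fun e he h4 => (mem_sdiff.1 h4).2 (mem_image_of_mem _ (hpcz ▸ he)))
    c1
    (fun a ha c hc => by
      obtain ⟨a1, a2⟩ := (h.mem_msd hy hz' hvH).1 (mem_sdiff.1 ha).1
      obtain ⟨a3, a4, -⟩ := mem_frC.1 hc
      exact (hcell.rect v hvD c a3 a a1 a4 a2).symm)
  refine hE.mono ?_
  have a1 := card_sdiff_ge (msd G (cz G Z T hm z) v)
    ((pcs (tlo G T hm) (B z) y).image Prod.snd) (q := pcn (tlo G T hm) B z y) (by
      unfold pcn
      exact_mod_cast card_image_le)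
  have a2 : ((nui G (cz G Z T hm y) (tlo G T hm) (B y) z w : ℤ) + ipc w)
      ≤ ((msd G (cz G Z T hm z) v).card : ℤ) := by
    have := h3.trans (h.msd_le hp hy hvH hvz)
    exact_mod_cast this
  rw [hnu] at a2 ⊢
  have a3 : max 0 (((frC G (cz G Z T hm y) (tlo G T hm) (B y) v).card : ℤ) + ipc w
      - pcn (tlo G T hm) B z y)
      ≤ ((msd G (cz G Z T hm z) v \ (pcs (tlo G T hm) (B z) y).image Prod.snd).card : ℤ) :=
    le_trans (max_le_max le_rfl (by linarith)) a1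
  have a4 := mul_le_mul_of_nonneg_right a3
    (Nat.cast_nonneg (α := ℤ) (frC G (cz G Z T hm y) (tlo G T hm) (B y) v).card)
  linarith

/-- **the pair inequality with the rectangle of an N-type** -/
theorem WCoreK.rectF (hp : 2 * r ≤ p) (h : WCoreK G Z T r m n p hm)
    (hB : ∀ x ∈ T, Pk G (cz G Z T hm x) (hz G Z T hm x) (tlo G T hm) (B x) (Ps x))
    (hmin : ∀ x ∈ T, ∀ B' Ps', Pk G (cz G Z T hm x) (hz G Z T hm x) (tlo G T hm) B' Ps' →
      (Ps x).card ≤ Ps'.card)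
    {x z : V} (hx : x ∈ T) (hz' : z ∈ T) (hxz : x ≠ z) {w : Itm V}
    (hw : w ∈ pkf (B x) (Ps x)) (hw1 : ivl w = 1) (hwk : ikp (tlo G T hm) z w ≠ 0) :
    ∑ u ∈ pkf (B x) (Ps x), iht G (cz G Z T hm) (tlo G T hm) z u
      + ∑ u ∈ pkf (B z) (Ps z), iht G (cz G Z T hm) (tlo G T hm) x u
      + (nui G (cz G Z T hm x) (tlo G T hm) (B x) z w : ℤ)
        * max 0 ((nui G (cz G Z T hm x) (tlo G T hm) (B x) z w : ℤ) + ipc w
          - pcn (tlo G T hm) B z x) ≤ EI G hm Z x z := by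
  have hfam : ∀ x ∈ T, Fam (co G) (cz G Z T hm) (hz G Z T hm) (tlo G T hm) x
      (pkf (B x) (Ps x)) := fun x hx => (hB x hx).fam (h.csys.dCH hx hx).symm
  obtain ⟨v, hv, hvH, hvz, hnu, h3⟩ := h.rep hx (hB x hx) (hmin x hx) hw hw1 hwk
  have h1 := Fam.pairK h.wsysT hfam hx hz' hxz (Wx := ∅) (Wz := ∅) (empty_subset _)
    (empty_subset _) (fun v hv => absurd hv (notMem_empty _))
    (fun v hv => absurd hv (notMem_empty _))
  rw [sum_empty, sum_empty] at h1
  have hpcz : ∀ x y, pcz (tlo G T hm) y (pkf (B x) (Ps x)) = pcs (tlo G T hm) (B x) y := by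
    intro x y
    ext e
    rw [mem_pcz, inr_mem_pkf, mem_pcs]
  have hcell := h.csys.cellD h.F.toPFrame hx hz' hxz
  have hvD := h.csys.mem_Dbl_of_tlo h.hh hx hvH hvz
  have h2 : frC G (cz G Z T hm x) (tlo G T hm) (B x) v
      ×ˢ (msd G (cz G Z T hm z) v \ (pcs (tlo G T hm) (B z) x).image Prod.snd)
      ⊆ KE G (cz G Z T hm) (tlo G T hm) (fun x => pkf (B x) (Ps x)) x z := by
    intro q hq
    obtain ⟨h4, h5⟩ := mem_product.1 hq
    obtain ⟨h6, h7⟩ := mem_sdiff.1 h5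
    obtain ⟨a1, a2, a3⟩ := mem_frC.1 h4
    obtain ⟨b1, b2⟩ := (h.mem_msd hx hz' hvH).1 h6
    unfold KE
    rw [hpcz, hpcz]
    refine mem_filter.2 ⟨mem_product.2 ⟨mem_sdiff.2 ⟨a1, fun h8 => ?_⟩,
      mem_sdiff.2 ⟨b1, h7⟩⟩, hcell.rect v hvD _ a1 _ b1 a2 b2⟩
    obtain ⟨e, he, hea⟩ := mem_image.1 h8
    obtain ⟨h9, h10⟩ := mem_pcs.1 he
    exact a3 e h9 hea (h10.trans hvz.symm)
  have h4 := card_le_card h2
  rw [card_product] at h4
  have a1 := card_sdiff_ge (msd G (cz G Z T hm z) v)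
    ((pcs (tlo G T hm) (B z) x).image Prod.snd) (q := pcn (tlo G T hm) B z x) (by
      unfold pcn
      exact_mod_cast card_image_le)
  have a2 : ((nui G (cz G Z T hm x) (tlo G T hm) (B x) z w : ℤ) + ipc w)
      ≤ ((msd G (cz G Z T hm z) v).card : ℤ) := by
    have := h3.trans (h.msd_le hp hx hvH hvz)
    exact_mod_cast this
  have a3 : max 0 ((nui G (cz G Z T hm x) (tlo G T hm) (B x) z w : ℤ) + ipc w
      - pcn (tlo G T hm) B z x)
      ≤ ((msd G (cz G Z T hm z) v \ (pcs (tlo G T hm) (B z) x).image Prod.snd).card : ℤ) :=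
    le_trans (max_le_max le_rfl (by linarith)) a1
  have a4 := mul_le_mul_of_nonneg_left a3
    (Nat.cast_nonneg (α := ℤ) (nui G (cz G Z T hm x) (tlo G T hm) (B x) z w))
  have h5 : ((frC G (cz G Z T hm x) (tlo G T hm) (B x) v).card : ℤ)
      * (msd G (cz G Z T hm z) v \ (pcs (tlo G T hm) (B z) x).image Prod.snd).card
      ≤ (KE G (cz G Z T hm) (tlo G T hm) (fun x => pkf (B x) (Ps x)) x z).card := by
    exact_mod_cast h4
  have h6 : EI G hm Z x z = ∑ v ∈ Z.filter (fun v => hm v = z),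
      (dg G (Z.filter fun v => hm v = x) v : ℤ) := rfl
  rw [h6]
  rw [← hnu] at h5
  linarith

end NuV

end Pool.Agent.Lib.MP_f04ccf_co
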