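import Pool.Agent.Lib.MP_f04ccf_co.M.CStar
import Pool.Agent.Lib.MP_f04ccf_co.M.PairC

/-!
MP_f04ccf_co, PLAN W, finite part: the N-excess of one cell.  A cell with the class parts `C`, `D`,
PC pairs `K` of the home `C` and `K'` of the home `D`, `M = |K| + |K'|`.

* `nex G C K`: twice the N-excess `|K| + (pairs with both arcs) + (free arcs)` of the pairs `K`.
* `fcl G C D K K'`: the class edges in the rectangles of the PC members outside the partners.
* `CellD.cell_P`: `(M - 1) R + |fcl| ≤ t_C t_D + M (M - 1) / 2 + (nex K + nex K') / 2`.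
* `CellD.one`, `CellD.one'`: a member with `a ≤ b` missed points on the two sides has
  `(a - 1) b ≤ t_C t_D + a` and `a (a - 2) ≤ t_C t_D`.
* `CellD.net1`, `CellD.net2`: `nex K + nex K' ≤ 2 |fcl| + 2 M` for `M ≤ 1` and `≤ 2 |fcl| + 6` for
  `M ≤ 2` (the missed sides at the homes are the smaller ones).
* `CellD.two`: `M ≥ 2` only for `R ≤ t_C t_D + 4`.
-/

set_option autoImplicit false

namespace Pool.Agent.Lib.MP_f04ccf_co

open Finset

attribute [local instance] Classical.propDecidable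

section NCell

variable {V : Type*} {G : SimpleGraph V} {C D I : Finset V} {K K' : Finset (V × V)} {r : ℕ}

/-- twice the N-excess of the PC pairs `K` with partners in `C` -/
noncomputable def nex (G : SimpleGraph V) (C : Finset V) (K : Finset (V × V)) : ℕ :=
  2 * K.card + both2 G K + 2 * ∑ e ∈ K, (msd G (C \ K.image Prod.snd) e.1).card

/-- the missed cells of the PC members outside the partners -/
noncomputable def fcl (G : SimpleGraph V) (C D : Finset V) (K K' : Finset (V × V)) :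
    Finset (V × V) :=
  fcell G C D (K.image Prod.fst ∪ K'.image Prod.fst) (K.image Prod.snd) (K'.image Prod.snd)

lemma msd_sdiff (C P : Finset V) (v : V) : msd G (C \ P) v = msd G C v \ P := by
  ext a
  simp only [msd, mem_filter, mem_sdiff]
  tauto

/-- the missed partners of a member -/
lemma ncell_used (hI : CellD G C D I) (h : PCm I (msd G C) K) {e : V × V} (he : e ∈ K) :
    (msd G C e.1).card = (msd G (C \ K.image Prod.snd) e.1).card + 1
      + ∑ f ∈ K, if e.1 ≠ f.1 ∧ ¬ G.Adj e.1 f.2 then 1 else 0 := by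
  have hPC : K.image Prod.snd ⊆ C := by
    intro a ha
    obtain ⟨f, hf, rfl⟩ := mem_image.1 ha
    exact ((hI.mem_msd (h.mem f hf)).1 (h.arc f hf)).1
  have h1 : (msd G C e.1).card
      = (msd G C e.1 \ K.image Prod.snd).card + (msd G C e.1 ∩ K.image Prod.snd).card :=
    (card_sdiff_add_card_inter _ _).symm
  have h2 : msd G C e.1 ∩ K.image Prod.snd = (K.filter fun f => ¬ G.Adj e.1 f.2).image Prod.snd := by
    ext a
    rw [mem_inter, hI.mem_msd (h.mem e he), mem_image, mem_image]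
    constructor
    · rintro ⟨⟨h3, h4⟩, f, hf, rfl⟩
      exact ⟨f, mem_filter.2 ⟨hf, h4⟩, rfl⟩
    · rintro ⟨f, hf, rfl⟩
      obtain ⟨hf1, hf2⟩ := mem_filter.1 hf
      exact ⟨⟨hPC (mem_image_of_mem _ hf1), hf2⟩, f, hf1, rfl⟩
  have h3 : ((K.filter fun f => ¬ G.Adj e.1 f.2).image Prod.snd).card
      = (K.filter fun f => ¬ G.Adj e.1 f.2).card := by
    refine card_image_of_injOn fun f hf g hg hfg => ?_
    exact h.i2 f (mem_filter.1 (by exact_mod_cast hf : f ∈ K.filter fun f => ¬ G.Adj e.1 f.2)).1 g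
      (mem_filter.1 (by exact_mod_cast hg : g ∈ K.filter fun f => ¬ G.Adj e.1 f.2)).1 hfg
  have h4 : (K.filter fun f => ¬ G.Adj e.1 f.2)
      = insert e (K.filter fun f => e.1 ≠ f.1 ∧ ¬ G.Adj e.1 f.2) := by
    ext f
    rw [mem_insert, mem_filter, mem_filter]
    constructor
    · rintro ⟨h5, h6⟩
      by_cases h7 : e.1 = f.1
      · exact Or.inl (h.i1 e he f h5 h7).symm
      · exact Or.inr ⟨h5, h7, h6⟩
    · rintro (rfl | ⟨h5, -, h6⟩)
      · exact ⟨he, ((hI.mem_msd (h.mem f he)).1 (h.arc f he)).2⟩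
      · exact ⟨h5, h6⟩
  have h5 : e ∉ K.filter fun f => e.1 ≠ f.1 ∧ ¬ G.Adj e.1 f.2 := fun h6 => (mem_filter.1 h6).2.1 rfl
  rw [h1, msd_sdiff, h2, h3, h4, card_insert_of_notMem h5, ← card_filter]
  omega

/-- the ordered missing pairs of the members -/
lemma ncell_NE (h : PCm I (msd G C) K) : NE G (K.image Prod.fst)
    = ∑ e ∈ K, ∑ f ∈ K, if e.1 ≠ f.1 ∧ ¬ G.Adj e.1 f.1 then 1 else 0 := by
  unfold NE
  rw [sum_image fun e he f hf hef => h.i1 e (by exact_mod_cast he) f (by exact_mod_cast hf) hef]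
  refine sum_congr rfl fun e _ => ?_
  unfold nd
  have h1 : (K.image Prod.fst).filter (fun y => y ≠ e.1 ∧ ¬ G.Adj e.1 y)
      = (K.filter fun f => e.1 ≠ f.1 ∧ ¬ G.Adj e.1 f.1).image Prod.fst := by
    ext a
    rw [mem_filter, mem_image, mem_image]
    constructor
    · rintro ⟨⟨f, hf, rfl⟩, h2, h3⟩
      exact ⟨f, mem_filter.2 ⟨hf, h2.symm, h3⟩, rfl⟩
    · rintro ⟨f, hf, rfl⟩
      obtain ⟨hf1, hf2, hf3⟩ := mem_filter.1 hf
      exact ⟨⟨f, hf1, rfl⟩, hf2.symm, hf3⟩
  rw [h1, card_image_of_injOn fun f hf g hg hfg =>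
    h.i1 f (mem_filter.1 (by exact_mod_cast hf)).1 g (mem_filter.1 (by exact_mod_cast hg)).1 hfg,
    ← card_filter]

lemma ncell_both : both2 G K = ∑ e ∈ K, ∑ f ∈ K,
    if e.1 ≠ f.1 ∧ ¬ G.Adj e.1 f.2 ∧ ¬ G.Adj f.1 e.2 then 1 else 0 := by
  unfold both2
  rw [card_filter, sum_product]

/-- **arcs and missing pairs of the PC members of one home** -/
theorem PCm.arcs_le (hI : CellD G C D I) (h : PCm I (msd G C) K) :
    2 * ∑ e ∈ K, ((msd G C e.1).card : ℤ) + NE G (K.image Prod.fst)
      ≤ nex G C K + (K.card : ℤ) * (K.card - 1) := by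
  have h1 : ∑ e ∈ K, (msd G C e.1).card
      = ∑ e ∈ K, (msd G (C \ K.image Prod.snd) e.1).card + K.card
        + ∑ e ∈ K, ∑ f ∈ K, if e.1 ≠ f.1 ∧ ¬ G.Adj e.1 f.2 then 1 else 0 := by
    rw [sum_congr rfl fun e he => ncell_used hI h he, sum_add_distrib, sum_add_distrib, sum_const,
      smul_eq_mul, mul_one]
  have h2 : ∑ e ∈ K, ∑ f ∈ K, (if e.1 ≠ f.1 ∧ ¬ G.Adj e.1 f.2 then 1 else 0)
      = ∑ e ∈ K, ∑ f ∈ K, if f.1 ≠ e.1 ∧ ¬ G.Adj f.1 e.2 then 1 else 0 := sum_comm
  have h3 : ∑ e ∈ K, ∑ f ∈ K, (if e.1 ≠ f.1 ∧ ¬ G.Adj e.1 f.2 then 1 else 0)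
      + ∑ e ∈ K, ∑ f ∈ K, (if f.1 ≠ e.1 ∧ ¬ G.Adj f.1 e.2 then 1 else 0)
      + ∑ e ∈ K, ∑ f ∈ K, (if e.1 ≠ f.1 ∧ ¬ G.Adj e.1 f.1 then 1 else 0)
      ≤ ∑ e ∈ K, ∑ f ∈ K, (if e.1 ≠ f.1 then 1 else 0)
        + ∑ e ∈ K, ∑ f ∈ K,
          (if e.1 ≠ f.1 ∧ ¬ G.Adj e.1 f.2 ∧ ¬ G.Adj f.1 e.2 then 1 else 0) := by
    simp only [← sum_add_distrib]
    refine sum_le_sum fun e he => sum_le_sum fun f hf => ?_
    by_cases h4 : e.1 = f.1
    · simp [h4]
    · have h4' : f.1 ≠ e.1 := fun h5 => h4 h5.symm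
      by_cases h5 : G.Adj e.1 f.1
      · by_cases h6 : G.Adj e.1 f.2 <;> by_cases h7 : G.Adj f.1 e.2 <;> simp [h4, h4', h5, h6, h7]
      · have h6 : G.Adj e.1 f.2 := by
          by_contra h7
          have h8 := (hI.mem_msd (h.mem f hf)).1 (h.arc f hf)
          exact h5 (hI.comC e.1 (h.mem e he) f.1 (h.mem f hf) h4 f.2 h8.1 h7 h8.2)
        have h7 : G.Adj f.1 e.2 := by
          by_contra h7
          have h8 := (hI.mem_msd (h.mem e he)).1 (h.arc e he)
          exact h5 (hI.comC e.1 (h.mem e he) f.1 (h.mem f hf) h4 e.2 h8.1 h8.2 h7)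
        simp [h4, h4', h5, h6, h7]
  have h4 : (∑ e ∈ K, ∑ f ∈ K, (if e.1 ≠ f.1 then 1 else 0) : ℕ) + K.card = K.card * K.card := by
    have h5 : ∀ e ∈ K, (∑ f ∈ K, (if e.1 ≠ f.1 then 1 else 0) : ℕ) + 1 = K.card := by
      intro e he
      rw [← card_filter]
      have h6 : (K.filter fun f => e.1 ≠ f.1) = K.erase e := by
        ext f
        rw [mem_filter, mem_erase]
        constructor
        · rintro ⟨h7, h8⟩
          exact ⟨fun h9 => h8 (by rw [h9]), h7⟩
        · rintro ⟨h7, h8⟩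
          exact ⟨h8, fun h9 => h7 (h.i1 e he f h8 h9).symm⟩
      rw [h6, card_erase_of_mem he]
      have := card_pos.2 ⟨e, he⟩
      omega
    have h6 : ∑ e ∈ K, ((∑ f ∈ K, (if e.1 ≠ f.1 then 1 else 0) : ℕ) + 1) = ∑ e ∈ K, K.card :=
      sum_congr rfl h5
    rw [sum_add_distrib, sum_const, sum_const, smul_eq_mul, smul_eq_mul, mul_one] at h6
    exact h6
  have h5 := ncell_NE h
  have h6 := ncell_both (G := G) (K := K)
  have h7 : 2 * ∑ e ∈ K, (msd G C e.1).card + NE G (K.image Prod.fst) + K.card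
      ≤ nex G C K + K.card * K.card := by
    unfold nex
    rw [h1, h5, h6]
    rw [← h2] at h3
    generalize (∑ e ∈ K, ∑ f ∈ K, if e.1 ≠ f.1 ∧ ¬ G.Adj e.1 f.2 then 1 else 0) = x1 at *
    generalize (∑ e ∈ K, ∑ f ∈ K, if e.1 ≠ f.1 ∧ ¬ G.Adj e.1 f.1 then 1 else 0) = x2 at *
    generalize (∑ e ∈ K, ∑ f ∈ K,
      if e.1 ≠ f.1 ∧ ¬ G.Adj e.1 f.2 ∧ ¬ G.Adj f.1 e.2 then 1 else 0) = x3 at *
    generalize (∑ e ∈ K, ∑ f ∈ K, if e.1 ≠ f.1 then 1 else 0) = x4 at *
    omega
  have h8 : 2 * ∑ e ∈ K, ((msd G C e.1).card : ℤ) + NE G (K.image Prod.fst) + K.card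
      ≤ nex G C K + (K.card : ℤ) * K.card := by exact_mod_cast h7
  linarith

/-- the N-excess is at most the number of the arcs -/
theorem PCm.nex_le (hI : CellD G C D I) (h : PCm I (msd G C) K) :
    nex G C K ≤ 2 * ∑ e ∈ K, (msd G C e.1).card := by
  have h1 : ∑ e ∈ K, (msd G C e.1).card
      = ∑ e ∈ K, (msd G (C \ K.image Prod.snd) e.1).card + K.card
        + ∑ e ∈ K, ∑ f ∈ K, if e.1 ≠ f.1 ∧ ¬ G.Adj e.1 f.2 then 1 else 0 := by
    rw [sum_congr rfl fun e he => ncell_used hI h he, sum_add_distrib, sum_add_distrib, sum_const,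
      smul_eq_mul, mul_one]
  have h2 : both2 G K ≤ ∑ e ∈ K, ∑ f ∈ K, if e.1 ≠ f.1 ∧ ¬ G.Adj e.1 f.2 then 1 else 0 := by
    rw [ncell_both]
    refine sum_le_sum fun e _ => sum_le_sum fun f _ => ?_
    by_cases h3 : e.1 ≠ f.1 ∧ ¬ G.Adj e.1 f.2
    · rw [if_pos h3]
      split_ifs <;> omega
    · rw [if_neg h3, if_neg fun h4 => h3 ⟨h4.1, h4.2.1⟩]
  unfold nex
  rw [h1]
  omega

/-- the adjacent pairs of members of the two homes -/
noncomputable def adn (G : SimpleGraph V) (K K' : Finset (V × V)) : ℕ :=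
  ((K ×ˢ K').filter fun q => G.Adj q.1.1 q.2.1).card

/-- **the class edges of the cell** -/
theorem CellD.eds_ge (hI : CellD G C D I) (h : PCm I (msd G C) K) (h' : PCm I (msd G D) K')
    (hKK : ∀ e ∈ K, ∀ f ∈ K', e.1 ≠ f.1) :
    ∑ e ∈ K, (msd G D e.1).card + ∑ e ∈ K', (msd G C e.1).card + (fcl G C D K K').card
      ≤ (eds G C D).card + adn G K K' := by
  have hW : K.image Prod.fst ∪ K'.image Prod.fst ⊆ I := by
    intro v hv
    rcases mem_union.1 hv with hv | hv
    · obtain ⟨e, he, rfl⟩ := mem_image.1 hv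
      exact h.mem e he
    · obtain ⟨e, he, rfl⟩ := mem_image.1 hv
      exact h'.mem e he
  set rows : Finset (V × V) := K.biUnion fun e => {e.2} ×ˢ msd G D e.1 with hrows
  set cols : Finset (V × V) := K'.biUnion fun e => msd G C e.1 ×ˢ {e.2} with hcols
  have c1 : rows.card = ∑ e ∈ K, (msd G D e.1).card := by
    rw [hrows, card_biUnion]
    · exact sum_congr rfl fun e _ => by rw [card_product, card_singleton, one_mul]
    · intro e he f hf hef
      rw [Function.onFun, disjoint_left]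
      intro p hp hp'
      have h1 := mem_singleton.1 (mem_product.1 hp).1
      have h2 := mem_singleton.1 (mem_product.1 hp').1
      exact hef (h.i2 e (by exact_mod_cast he) f (by exact_mod_cast hf) (h1.symm.trans h2))
  have c2 : cols.card = ∑ e ∈ K', (msd G C e.1).card := by
    rw [hcols, card_biUnion]
    · exact sum_congr rfl fun e _ => by rw [card_product, card_singleton, mul_one]
    · intro e he f hf hef
      rw [Function.onFun, disjoint_left]
      intro p hp hp'
      have h1 := mem_singleton.1 (mem_product.1 hp).2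
      have h2 := mem_singleton.1 (mem_product.1 hp').2
      exact hef (h'.i2 e (by exact_mod_cast he) f (by exact_mod_cast hf) (h1.symm.trans h2))
  have c3 : (rows ∩ cols).card ≤ adn G K K' := by
    unfold adn
    refine (card_le_card ?_).trans (card_image_le (f := fun q : (V × V) × (V × V) => (q.1.2, q.2.2)))
    intro p hp
    obtain ⟨hp1, hp2⟩ := mem_inter.1 hp
    obtain ⟨e, he, h1⟩ := mem_biUnion.1 hp1
    obtain ⟨f, hf, h2⟩ := mem_biUnion.1 hp2
    obtain ⟨h3, h4⟩ := mem_product.1 h1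
    obtain ⟨h5, h6⟩ := mem_product.1 h2
    rw [mem_singleton] at h3 h6
    refine mem_image.2 ⟨(e, f), mem_filter.2 ⟨mem_product.2 ⟨he, hf⟩, ?_⟩, Prod.ext h3.symm h6.symm⟩
    have h7 := (hI.mem_msd (h.mem e he)).1 (h.arc e he)
    have h8 := (hI.mem_msd (h'.mem f hf)).1 h5
    rw [h3] at h8
    exact hI.comC e.1 (h.mem e he) f.1 (h'.mem f hf) (hKK e he f hf) e.2 h7.1 h7.2 h8.2
  have c4 : Disjoint (rows ∪ cols) (fcl G C D K K') := by
    rw [disjoint_left]
    intro p hp hp'
    obtain ⟨-, h1, h2⟩ := hI.fcell_sub hW hp'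
    rcases mem_union.1 hp with hp | hp
    · obtain ⟨e, he, h3⟩ := mem_biUnion.1 hp
      have h4 := mem_singleton.1 (mem_product.1 h3).1
      exact h1 (h4 ▸ mem_image_of_mem _ he)
    · obtain ⟨e, he, h3⟩ := mem_biUnion.1 hp
      have h4 := mem_singleton.1 (mem_product.1 h3).2
      exact h2 (h4 ▸ mem_image_of_mem _ he)
  have c5 : (rows ∪ cols) ∪ fcl G C D K K' ⊆ eds G C D := by
    intro p hp
    have key : p.1 ∈ C ∧ p.2 ∈ D ∧ G.Adj p.1 p.2 := by
      rcases mem_union.1 hp with hp | hp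
      · rcases mem_union.1 hp with hp | hp
        · obtain ⟨e, he, h3⟩ := mem_biUnion.1 hp
          obtain ⟨h4, h5⟩ := mem_product.1 h3
          rw [mem_singleton] at h4
          have h6 := (hI.mem_msd (h.mem e he)).1 (h.arc e he)
          have h7 := (hI.symm.mem_msd (h.mem e he)).1 h5
          rw [h4]
          exact ⟨h6.1, h7.1, hI.rect e.1 (h.mem e he) _ h6.1 _ h7.1 h6.2 h7.2⟩
        · obtain ⟨e, he, h3⟩ := mem_biUnion.1 hp
          obtain ⟨h4, h5⟩ := mem_product.1 h3
          rw [mem_singleton] at h5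
          have h6 := (hI.mem_msd (h'.mem e he)).1 h4
          have h7 := (hI.symm.mem_msd (h'.mem e he)).1 (h'.arc e he)
          rw [h5]
          exact ⟨h6.1, h7.1, hI.rect e.1 (h'.mem e he) _ h6.1 _ h7.1 h6.2 h7.2⟩
      · exact (hI.fcell_sub hW hp).1
    exact mem_filter.2 ⟨mem_product.2 ⟨key.1, key.2.1⟩, key.2.2⟩
  have c6 := card_le_card c5
  rw [card_union_of_disjoint c4] at c6
  have c7 := card_union_add_card_inter rows cols
  omega

/-- **property (P) on the classes and the PC members of a cell** -/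
theorem CellD.cell_P (hP : PG G r) (hI : CellD G C D I) (hC : Clq G C) (hD : Clq G D)
    (dCD : Disjoint C D) (h : PCm I (msd G C) K) (h' : PCm I (msd G D) K')
    (hKK : ∀ e ∈ K, ∀ f ∈ K', e.1 ≠ f.1) :
    2 * (((K.card : ℤ) + K'.card - 1) * ((r : ℤ) - 1)) + 2 * (fcl G C D K K').card
      ≤ 2 * (((r : ℤ) - 1 - C.card) * ((r : ℤ) - 1 - D.card))
        + ((K.card : ℤ) + K'.card) * (K.card + K'.card - 1) + nex G C K + nex G D K' := by
  set W : Finset V := K.image Prod.fst with hWd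
  set W' : Finset V := K'.image Prod.fst with hWd'
  have hWI : W ⊆ I := by
    intro v hv
    obtain ⟨e, he, rfl⟩ := mem_image.1 hv
    exact h.mem e he
  have hWI' : W' ⊆ I := by
    intro v hv
    obtain ⟨e, he, rfl⟩ := mem_image.1 hv
    exact h'.mem e he
  have hd : Disjoint W W' := by
    rw [disjoint_left]
    intro v hv hv'
    obtain ⟨e, he, rfl⟩ := mem_image.1 hv
    obtain ⟨f, hf, h1⟩ := mem_image.1 hv'
    exact hKK e he f hf h1.symm
  have dC : Disjoint C (W ∪ W') := by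
    rw [disjoint_left]
    intro a ha ha'
    exact hI.nC a (union_subset hWI hWI' ha') ha
  have dD : Disjoint D (W ∪ W') := by
    rw [disjoint_left]
    intro a ha ha'
    exact hI.nD a (union_subset hWI hWI' ha') ha
  have h1 := hP.s1_ne hC hD dCD dC dD
  have hcW : (W.card : ℤ) = K.card := by exact_mod_cast h.card_fst
  have hcW' : (W'.card : ℤ) = K'.card := by exact_mod_cast h'.card_fst
  have hcu : ((W ∪ W').card : ℤ) = (K.card : ℤ) + K'.card := by
    rw [card_union_of_disjoint hd]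
    push_cast
    linarith
  have himg : ∀ g : V → ℤ, ∑ v ∈ W, g v = ∑ e ∈ K, g e.1 := fun g => by
    rw [hWd, sum_image fun e he f hf hef =>
      h.i1 e (by exact_mod_cast he) f (by exact_mod_cast hf) hef]
  have himg' : ∀ g : V → ℤ, ∑ v ∈ W', g v = ∑ e ∈ K', g e.1 := fun g => by
    rw [hWd', sum_image fun e he f hf hef =>
      h'.i1 e (by exact_mod_cast he) f (by exact_mod_cast hf) hef]
  have h2 : ∑ c ∈ D, (dg G C c : ℤ) = (eds G C D).card := by
    rw [card_eds_eq]
    have := dg_comm G D C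
    exact_mod_cast this
  have h3 : ∑ c ∈ D, (dg G (W ∪ W') c : ℤ)
      = ((K.card : ℤ) + K'.card) * D.card
        - (∑ e ∈ K, ((msd G D e.1).card : ℤ) + ∑ e ∈ K', ((msd G D e.1).card : ℤ)) := by
    have e1 : ∑ c ∈ D, (dg G (W ∪ W') c : ℤ) = ∑ w ∈ W ∪ W', (dg G D w : ℤ) := by
      have := dg_comm G D (W ∪ W')
      exact_mod_cast this
    have e2 : ∀ w ∈ W ∪ W', (dg G D w : ℤ) = (D.card : ℤ) - (msd G D w).card := by
      intro w hw
      have := nd_of_notMem (G := G) (A := D) (x := w) fun h4 => hI.nD w (union_subset hWI hWI' hw) h4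
      rw [msd_card]
      omega
    rw [e1, sum_congr rfl e2, sum_sub_distrib, sum_const, nsmul_eq_mul, hcu, sum_union hd,
      himg, himg']
  have h4 : ∑ w ∈ W ∪ W', (nd G C w : ℤ)
      = ∑ e ∈ K, ((msd G C e.1).card : ℤ) + ∑ e ∈ K', ((msd G C e.1).card : ℤ) := by
    rw [sum_union hd, himg, himg']
    rfl
  have h5 : (NE G (W ∪ W') : ℤ) + 2 * adn G K K'
      = NE G W + NE G W' + 2 * ((K.card : ℤ) * K'.card) := by
    have e1 := NE_union (G := G) hd
    have e2 : ∑ x ∈ W', nd G W x + adn G K K' = K.card * K'.card := by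
      have e3 : ∑ x ∈ W', nd G W x = ∑ f ∈ K', nd G W f.1 := by
        rw [hWd', sum_image fun e he f hf hef =>
          h'.i1 e (by exact_mod_cast he) f (by exact_mod_cast hf) hef]
      have e4 : adn G K K' = ∑ f ∈ K', dg G W f.1 := by
        unfold adn
        rw [card_filter, sum_product_right]
        refine sum_congr rfl fun f _ => ?_
        unfold dg
        rw [hWd, ← card_filter]
        have e5 : (K.image Prod.fst).filter (fun w => G.Adj f.1 w)
            = (K.filter fun e => G.Adj e.1 f.1).image Prod.fst := by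
          ext a
          rw [mem_filter, mem_image, mem_image]
          constructor
          · rintro ⟨⟨e, he, rfl⟩, h6⟩
            exact ⟨e, mem_filter.2 ⟨he, h6.symm⟩, rfl⟩
          · rintro ⟨e, he, rfl⟩
            obtain ⟨he1, he2⟩ := mem_filter.1 he
            exact ⟨⟨e, he1, rfl⟩, he2.symm⟩
        rw [e5, card_image_of_injOn fun e he g hg heg =>
          h.i1 e (mem_filter.1 (by exact_mod_cast he)).1 g
            (mem_filter.1 (by exact_mod_cast hg)).1 heg]
      rw [e3, e4, ← sum_add_distrib]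
      have e6 : ∀ f ∈ K', nd G W f.1 + dg G W f.1 = K.card := by
        intro f hf
        have e7 := nd_of_notMem (G := G) (A := W) (x := f.1) fun h6 => by
          obtain ⟨e, he, h7⟩ := mem_image.1 h6
          exact hKK e he f hf h7
        have e8 := h.card_fst
        omega
      rw [sum_congr rfl e6, sum_const, smul_eq_mul, Nat.mul_comm]
    have e3 : (NE G (W ∪ W') : ℤ) = NE G W + NE G W' + 2 * ∑ x ∈ W', (nd G W x : ℤ) := by
      exact_mod_cast e1
    have e4 : ∑ x ∈ W', (nd G W x : ℤ) + adn G K K' = (K.card : ℤ) * K'.card := by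
      exact_mod_cast e2
    linarith
  have h6 : ∑ e ∈ K, ((msd G D e.1).card : ℤ) + ∑ e ∈ K', ((msd G C e.1).card : ℤ)
      + (fcl G C D K K').card ≤ (eds G C D).card + adn G K K' := by
    exact_mod_cast hI.eds_ge h h' hKK
  have h7 := h.arcs_le hI
  have h8 := h'.arcs_le hI.symm
  rw [h2, h3, h4, hcu] at h1
  nlinarith

/-! ### the numbers of the cells with one, two or three pairs -/

lemma both2_le (K : Finset (V × V)) : both2 G K + K.card ≤ K.card * K.card := by
  have h1 : ((K ×ˢ K).filter fun q => q.1.1 ≠ q.2.1 ∧ ¬ G.Adj q.1.1 q.2.2 ∧ ¬ G.Adj q.2.1 q.1.2)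
      ⊆ K.offDiag := by
    intro q hq
    obtain ⟨h2, h3, -⟩ := mem_filter.1 hq
    obtain ⟨h4, h5⟩ := mem_product.1 h2
    exact mem_offDiag.2 ⟨h4, h5, fun h6 => h3 (by rw [h6])⟩
  have h2 := card_le_card h1
  rw [offDiag_card] at h2
  have h3 : K.card ≤ K.card * K.card := Nat.le_mul_self _
  unfold both2
  omega

lemma nex_empty (C : Finset V) : nex G C ∅ = 0 := by
  simp [nex, both2]

lemma fcl_swap (C D : Finset V) (K K' : Finset (V × V)) :
    (fcl G D C K' K).card = (fcl G C D K K').card := by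
  have h1 : fcl G D C K' K = (fcl G C D K K').image Prod.swap := by
    ext p
    constructor
    · intro hp
      unfold fcl at hp
      rw [mem_fcell] at hp
      obtain ⟨v, hv, h2, h3, h4⟩ := hp
      refine mem_image.2 ⟨(p.2, p.1), ?_, rfl⟩
      unfold fcl
      rw [mem_fcell]
      exact ⟨v, by rw [union_comm]; exact hv, ⟨h3, h4⟩, h2⟩
    · intro hp
      obtain ⟨q, hq, rfl⟩ := mem_image.1 hp
      unfold fcl at hq ⊢
      rw [mem_fcell] at hq ⊢
      obtain ⟨v, hv, h2, h3, h4⟩ := hq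
      exact ⟨v, by rw [union_comm]; exact hv, ⟨h3, h4⟩, h2⟩
  rw [h1, card_image_of_injective _ Prod.swap_injective]

/-- the rectangle of one pair -/
lemma fcl_ge {e : V × V} (he : e ∈ K) :
    (msd G (C \ K.image Prod.snd) e.1).card * ((msd G D e.1).card - K'.card)
      ≤ (fcl G C D K K').card := by
  have h1 : (msd G (C \ K.image Prod.snd) e.1) ×ˢ (msd G D e.1 \ K'.image Prod.snd)
      ⊆ fcl G C D K K' := by
    intro p hp
    obtain ⟨h2, h3⟩ := mem_product.1 hp
    rw [msd_sdiff] at h2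
    unfold fcl
    rw [mem_fcell]
    obtain ⟨h4, h5⟩ := mem_sdiff.1 h3
    exact ⟨e.1, mem_union_left _ (mem_image_of_mem _ he), mem_sdiff.1 h2, h4, h5⟩
  have h2 := card_le_card h1
  rw [card_product] at h2
  have h3 : (msd G D e.1).card - K'.card ≤ (msd G D e.1 \ K'.image Prod.snd).card := by
    have h4 := le_card_sdiff (K'.image Prod.snd) (msd G D e.1)
    have h5 : (K'.image Prod.snd).card ≤ K'.card := card_image_le
    omega
  exact (Nat.mul_le_mul_left _ h3).trans h2

/-- the rectangle of one pair, by the number of the free arcs -/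
lemma fcl_ge' (hI : CellD G C D I) (h : PCm I (msd G C) K)
    (hb : ∀ e ∈ K, (msd G C e.1).card ≤ (msd G D e.1).card) {e : V × V} (he : e ∈ K) :
    (msd G (C \ K.image Prod.snd) e.1).card
        * ((msd G (C \ K.image Prod.snd) e.1).card + 1 - K'.card)
      ≤ (fcl G C D K K').card := by
  have h1 := fcl_ge (G := G) (C := C) (D := D) (K' := K') he
  have h2 := ncell_used hI h he
  have h3 := hb e he
  refine le_trans (Nat.mul_le_mul_left _ ?_) h1
  omega

/-- the pairs and the free arcs -/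
lemma nex_le_free (C : Finset V) (K : Finset (V × V)) :
    nex G C K + K.card ≤ 2 * K.card + K.card * K.card
      + 2 * ∑ e ∈ K, (msd G (C \ K.image Prod.snd) e.1).card := by
  have := both2_le (G := G) K
  unfold nex
  omega

private lemma net_a (F f : ℕ) (h : f * (f + 1 - 0) ≤ F) : f ≤ F := by
  rcases Nat.eq_zero_or_pos f with h1 | h1
  · omega
  · have : f * 1 ≤ f * (f + 1 - 0) := Nat.mul_le_mul_left _ (by omega)
    omega

private lemma net_b (F f g : ℕ) (h : f * (f + 1 - 0) ≤ F) (h' : g * (g + 1 - 0) ≤ F) :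
    f + g ≤ F := by
  simp only [Nat.sub_zero] at h h'
  rcases le_total f g with h1 | h1
  · rcases Nat.eq_zero_or_pos g with h2 | h2
    · omega
    · nlinarith
  · rcases Nat.eq_zero_or_pos f with h2 | h2
    · omega
    · nlinarith

private lemma net_c (F f g : ℕ) (h : f * (f + 1 - 1) ≤ F) (h' : g * (g + 1 - 1) ≤ F) :
    f + g ≤ F + 1 := by
  simp only [Nat.add_sub_cancel] at h h'
  rcases le_total f g with h1 | h1
  · zify at *
    nlinarith [sq_nonneg ((g : ℤ) - 1)]
  · zify at *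
    nlinarith [sq_nonneg ((f : ℤ) - 1)]

/-- **one pair**: the N-excess is paid by the free cells, up to one -/
theorem CellD.net1' (hI : CellD G C D I) (h : PCm I (msd G C) K)
    (hb : ∀ e ∈ K, (msd G C e.1).card ≤ (msd G D e.1).card) (hK : K.card = 1) :
    nex G C K ≤ 2 * (fcl G C D K ∅).card + 2 := by
  obtain ⟨e, rfl⟩ := card_eq_one.1 hK
  have h1 := nex_le_free (G := G) C {e}
  have h2 := net_a _ _ (fcl_ge' (K' := ∅) hI h hb (mem_singleton_self e))
  rw [sum_singleton, card_singleton] at h1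
  omega

/-- **two pairs of one host** -/
theorem CellD.net2' (hI : CellD G C D I) (h : PCm I (msd G C) K)
    (hb : ∀ e ∈ K, (msd G C e.1).card ≤ (msd G D e.1).card) (hK : K.card = 2) :
    nex G C K ≤ 2 * (fcl G C D K ∅).card + 6 := by
  obtain ⟨e, f, hef, rfl⟩ := card_eq_two.1 hK
  have h1 := nex_le_free (G := G) C {e, f}
  have h2 := net_b _ _ _ (fcl_ge' (K' := ∅) hI h hb (mem_insert_self e {f}))
    (fcl_ge' (K' := ∅) hI h hb (mem_insert_of_mem (mem_singleton_self f)))
  rw [sum_pair hef, hK] at h1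
  omega

/-- **two pairs of the two hosts** -/
theorem CellD.net11 (hI : CellD G C D I) (h : PCm I (msd G C) K) (h' : PCm I (msd G D) K')
    (hb : ∀ e ∈ K, (msd G C e.1).card ≤ (msd G D e.1).card)
    (hb' : ∀ e ∈ K', (msd G D e.1).card ≤ (msd G C e.1).card)
    (hK : K.card = 1) (hK' : K'.card = 1) :
    nex G C K + nex G D K' ≤ 2 * (fcl G C D K K').card + 6 := by
  have h3 := fcl_swap (G := G) C D K K'
  obtain ⟨e, rfl⟩ := card_eq_one.1 hK
  obtain ⟨f, rfl⟩ := card_eq_one.1 hK'
  have h1 := nex_le_free (G := G) C {e}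
  have h2 := nex_le_free (G := G) D {f}
  have h4 := fcl_ge' (K' := {f}) hI h hb (mem_singleton_self e)
  have h5 := fcl_ge' (K' := {e}) hI.symm h' hb' (mem_singleton_self f)
  rw [h3] at h5
  rw [card_singleton] at h4 h5
  have h6 := net_c _ _ _ h4 h5
  rw [sum_singleton, card_singleton] at h1 h2
  omega

/-- **at most two pairs in a cell** -/
theorem CellD.net2 (hI : CellD G C D I) (h : PCm I (msd G C) K) (h' : PCm I (msd G D) K')
    (hb : ∀ e ∈ K, (msd G C e.1).card ≤ (msd G D e.1).card)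
    (hb' : ∀ e ∈ K', (msd G D e.1).card ≤ (msd G C e.1).card)
    (hM : K.card + K'.card ≤ 2) :
    nex G C K + nex G D K' ≤ 2 * (fcl G C D K K').card + 6 := by
  rcases Nat.eq_zero_or_pos K'.card with h1 | h1
  · rw [card_eq_zero] at h1
    subst h1
    rw [nex_empty]
    rcases Nat.lt_or_ge K.card 2 with h2 | h2
    · rcases Nat.eq_zero_or_pos K.card with h3 | h3
      · rw [card_eq_zero] at h3
        subst h3
        rw [nex_empty]
        omega
      · have := hI.net1' h hb (by omega)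
        omega
    · have := hI.net2' h hb (by rw [card_empty] at hM; omega)
      omega
  · rcases Nat.eq_zero_or_pos K.card with h2 | h2
    · rw [card_eq_zero] at h2
      subst h2
      rw [nex_empty, ← fcl_swap]
      rcases Nat.lt_or_ge K'.card 2 with h3 | h3
      · have := hI.symm.net1' h' hb' (by omega)
        omega
      · have := hI.symm.net2' h' hb' (by rw [card_empty] at hM; omega)
        omega
    · exact hI.net11 h h' hb hb' (by omega) (by omega)

/-- **one pair in a cell** -/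
theorem CellD.net1 (hI : CellD G C D I) (h : PCm I (msd G C) K) (h' : PCm I (msd G D) K')
    (hb : ∀ e ∈ K, (msd G C e.1).card ≤ (msd G D e.1).card)
    (hb' : ∀ e ∈ K', (msd G D e.1).card ≤ (msd G C e.1).card)
    (hM : K.card + K'.card ≤ 1) :
    nex G C K + nex G D K' ≤ 2 * (fcl G C D K K').card + 2 * (K.card + K'.card) := by
  rcases Nat.eq_zero_or_pos K'.card with h1 | h1
  · rw [card_eq_zero] at h1
    subst h1
    rw [nex_empty]
    rcases Nat.eq_zero_or_pos K.card with h3 | h3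
    · rw [card_eq_zero] at h3
      subst h3
      rw [nex_empty]
      omega
    · have := hI.net1' h hb (by rw [card_empty] at hM; omega)
      omega
  · have h2 : K = ∅ := card_eq_zero.1 (by omega)
    subst h2
    rw [nex_empty, ← fcl_swap]
    have := hI.symm.net1' h' hb' (by rw [card_empty] at hM; omega)
    omega

/-- **the number of the missed points of one member**: `(a - 1) b ≤ t_C t_D + a` -/
theorem CellD.one (hP : PG G r) (hI : CellD G C D I) (hC : Clq G C) (hD : Clq G D)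
    (dCD : Disjoint C D) {v a : V} (hv : v ∈ I) (ha : a ∈ msd G C v) :
    (((msd G C v).card : ℤ) - 1) * (msd G D v).card
      ≤ ((r : ℤ) - 1 - C.card) * ((r : ℤ) - 1 - D.card) + (msd G C v).card := by
  have h : PCm I (msd G C) {(v, a)} := by
    refine ⟨?_, ?_, ?_, ?_⟩
    · intro e he
      rw [mem_singleton.1 he]
      exact hv
    · intro e he
      rw [mem_singleton.1 he]
      exact ha
    · intro e he f hf _
      rw [mem_singleton.1 he, mem_singleton.1 hf]
    · intro e he f hf _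
      rw [mem_singleton.1 he, mem_singleton.1 hf]
  have h' : PCm I (msd G D) (∅ : Finset (V × V)) :=
    ⟨by simp, by simp, by simp, by simp⟩
  have h1 := hI.cell_P hP hC hD dCD h h' (by simp)
  have h2 := fcl_ge (G := G) (C := C) (D := D) (K := {(v, a)}) (K' := ∅) (mem_singleton_self _)
  have h3 := ncell_used hI h (mem_singleton_self (v, a))
  have h4 := nex_le_free (G := G) C {(v, a)}
  rw [nex_empty] at h1
  rw [sum_singleton, card_singleton] at h4
  rw [sum_singleton, if_neg (by simp)] at h3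
  rw [card_singleton, card_empty] at h1
  rw [card_empty, Nat.sub_zero] at h2
  simp only at h2 h3 h4
  have h5 : ((msd G (C \ ({(v, a)} : Finset (V × V)).image Prod.snd) v).card : ℤ)
      = (msd G C v).card - 1 := by
    rw [h3]
    push_cast
    ring
  have h6 : (((msd G C v).card : ℤ) - 1) * (msd G D v).card ≤ (fcl G C D {(v, a)} ∅).card := by
    rw [← h5]
    exact_mod_cast h2
  have h7 : (nex G C {(v, a)} : ℤ) ≤ 2 * (msd G C v).card := by
    have : (nex G C {(v, a)} : ℤ) + 1 ≤ 2 * 1 + 1 * 1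
        + 2 * (msd G (C \ ({(v, a)} : Finset (V × V)).image Prod.snd) v).card := by
      exact_mod_cast h4
    rw [h5] at this
    linarith
  push_cast at h1
  linarith

/-- `κ (κ - 2) ≤ t_C t_D` -/
theorem CellD.one' (hP : PG G r) (hI : CellD G C D I) (hC : Clq G C) (hD : Clq G D)
    (dCD : Disjoint C D) {v a : V} (hv : v ∈ I) (ha : a ∈ msd G C v)
    (hb : (msd G C v).card ≤ (msd G D v).card) :
    ((msd G C v).card : ℤ) * ((msd G C v).card - 2)
      ≤ ((r : ℤ) - 1 - C.card) * ((r : ℤ) - 1 - D.card) := by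
  have h1 := hI.one hP hC hD dCD hv ha
  have h2 : (1 : ℤ) ≤ (msd G C v).card := by
    exact_mod_cast card_pos.2 ⟨a, ha⟩
  have h3 : ((msd G C v).card : ℤ) ≤ (msd G D v).card := by exact_mod_cast hb
  nlinarith

lemma PCm.mono {X : Finset V} {A : V → Finset V} {P Q : Finset (V × V)} (h : PCm X A P)
    (hQ : Q ⊆ P) : PCm X A Q :=
  ⟨fun e he => h.mem e (hQ he), fun e he => h.arc e (hQ he),
    fun e he f hf => h.i1 e (hQ he) f (hQ hf), fun e he f hf => h.i2 e (hQ he) f (hQ hf)⟩

/-- **two pairs in a cell**: `R ≤ t_C t_D + 4` -/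
theorem CellD.two (hP : PG G r) (hI : CellD G C D I) (hC : Clq G C) (hD : Clq G D)
    (dCD : Disjoint C D) (h : PCm I (msd G C) K) (h' : PCm I (msd G D) K')
    (hKK : ∀ e ∈ K, ∀ f ∈ K', e.1 ≠ f.1)
    (hb : ∀ e ∈ K, (msd G C e.1).card ≤ (msd G D e.1).card)
    (hb' : ∀ e ∈ K', (msd G D e.1).card ≤ (msd G C e.1).card)
    (hM : 2 ≤ K.card + K'.card) :
    (r : ℤ) - 1 ≤ ((r : ℤ) - 1 - C.card) * ((r : ℤ) - 1 - D.card) + 4 := by
  obtain ⟨L, L', hL, hL', hLc⟩ : ∃ L L' : Finset (V × V), L ⊆ K ∧ L' ⊆ K'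
      ∧ L.card + L'.card = 2 := by
    rcases Nat.lt_or_ge K.card 2 with h1 | h1
    · obtain ⟨L', hL', h2⟩ := exists_subset_card_eq (s := K') (n := 2 - K.card) (by omega)
      exact ⟨K, L', Subset.refl _, hL', by omega⟩
    · obtain ⟨L, hL, h2⟩ := exists_subset_card_eq h1
      exact ⟨L, ∅, hL, empty_subset _, by rw [h2, card_empty]⟩
  have h1 := hI.cell_P hP hC hD dCD (h.mono hL) (h'.mono hL') fun e he f hf =>
    hKK e (hL he) f (hL' hf)
  have h2 := hI.net2 (h.mono hL) (h'.mono hL') (fun e he => hb e (hL he))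
    (fun e he => hb' e (hL' he)) hLc.le
  have h3 : (L.card : ℤ) + L'.card = 2 := by exact_mod_cast hLc
  have h4 : (nex G C L : ℤ) + nex G D L' ≤ 2 * (fcl G C D L L').card + 6 := by exact_mod_cast h2
  rw [h3] at h1
  linarith

end NCell

end Pool.Agent.Lib.MP_f04ccf_co
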