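import Pool.Agent.Lib.MP_f04ccf_co.M.FrQ

/-!
MP_f04ccf_co, note 17453: the joint cell test for missing pairs of both homes.

* `pay_two`: PROPOSITION PAY for two kinds of members: `W1` with own points in the sets `X v`,
  `W2` with own points in the sets `Y v`.
* `CellD.payB`: two classes, missing pairs of both kinds.
* `WCoreK.jntB`: `k` missing pairs of the home `x` with tail `y`, `k'` of the home `y` with tail `x`:
  `(k + k' - 1) R ≤ t_x t_y + (k + k')² - NE / 2`.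
* `WCoreK.jnG`, `WCoreK.jnB`: PC pairs of both homes; PC pairs and N-ends of both homes.
* `WItK.jgg`, `WItK.jgn`: the same over the integers.
-/

set_option autoImplicit false

namespace Pool.Agent.Lib.MP_f04ccf_co

open Finset

attribute [local instance] Classical.propDecidable

section Pure

variable {V α β : Type*} {G : SimpleGraph V}

/-- a greedy independent set -/
lemma greedy_ind (P : Finset V) (e : V → ℚ) : ∀ n : ℕ, ∀ S ⊆ P, S.card ≤ n → ∃ I ⊆ S, Ind G I ∧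
    ∑ v ∈ S, e v ≤ ∑ u ∈ I, ((1 + dg G P u : ℕ) : ℚ) * max 0 (e u) := by
  intro n
  induction n with
  | zero =>
    intro S _ hn
    have h0 : S = ∅ := card_eq_zero.1 (Nat.le_zero.1 hn)
    subst h0
    exact ⟨∅, Subset.rfl, fun x hx => absurd hx (notMem_empty x), by simp⟩
  | succ n ih =>
    intro S hS hn
    rcases S.eq_empty_or_nonempty with rfl | hne
    · exact ⟨∅, Subset.rfl, fun x hx => absurd hx (notMem_empty x), by simp⟩
    obtain ⟨u, hu, hmax⟩ := exists_max_image S e hne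
    set N := insert u (S.filter fun w => G.Adj u w) with hN
    have hNS : N ⊆ S := insert_subset hu (filter_subset _ _)
    obtain ⟨I, hI, hind, hle⟩ := ih (S \ N) (sdiff_subset.trans hS) (by
      have h1 := card_sdiff_of_subset hNS
      have h2 : 0 < N.card := card_pos.2 ⟨u, mem_insert_self _ _⟩
      omega)
    have hI2 : ∀ w ∈ I, w ≠ u ∧ ¬ G.Adj u w := by
      intro w hw
      obtain ⟨h1, h2⟩ := mem_sdiff.1 (hI hw)
      refine ⟨fun h3 => h2 (h3 ▸ mem_insert_self _ _), fun h3 => ?_⟩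
      exact h2 (mem_insert_of_mem (mem_filter.2 ⟨h1, h3⟩))
    have huI : u ∉ I := fun h => (hI2 u h).1 rfl
    refine ⟨insert u I, insert_subset hu (hI.trans sdiff_subset), ?_, ?_⟩
    · intro x hx y hy
      rcases mem_insert.1 hx with hx | hx <;> rcases mem_insert.1 hy with hy | hy
      · rw [hx, hy]
        exact G.irrefl
      · rw [hx]
        exact (hI2 y hy).2
      · rw [hy]
        exact fun h => (hI2 x hx).2 h.symm
      · exact hind x hx y hy
    · rw [sum_insert huI, ← sum_sdiff hNS, add_comm]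
      refine add_le_add ?_ hle
      have h1 : ∑ v ∈ N, e v ≤ ∑ _v ∈ N, max 0 (e u) := sum_le_sum fun v hv =>
        (hmax v (hNS hv)).trans (le_max_right _ _)
      rw [sum_const, nsmul_eq_mul] at h1
      refine h1.trans (mul_le_mul_of_nonneg_right ?_ (le_max_left _ _))
      have h2 : N.card ≤ 1 + dg G P u := by
        refine (card_insert_le _ _).trans ?_
        have h3 : (S.filter fun w => G.Adj u w).card ≤ dg G P u :=
          card_le_card (filter_subset_filter _ hS)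
        omega
      exact_mod_cast h2

/-- the numbers of one member -/
lemma pay_arith {A D o s κ : ℚ} (hA : 1 ≤ A) (ho : 0 ≤ o) (hoD : o ≤ D)
    (hκ : κ = o * A / (A + o)) {p q : ℚ} (hp : s - A ≤ p) (hq : s - D ≤ q) (hp0 : 0 ≤ p)
    (hq0 : 0 ≤ q) : (A + D) * max 0 (s - A - D + κ) ≤ p * q := by
  have h0 : 0 < A + o := by linarith
  have h1 : κ * (A + o) = o * A := by
    rw [hκ]
    field_simp
  have hκ0 : 0 ≤ κ := by
    rw [hκ]
    positivity
  have hκA : κ ≤ A := by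
    rw [hκ, div_le_iff₀ h0]
    nlinarith
  have hκo : κ ≤ o := by
    rw [hκ, div_le_iff₀ h0]
    nlinarith
  -- `κ (A + D) ≤ A D`
  have h2 : κ * (A + D) ≤ A * D := by
    have h3 : 0 ≤ (D - o) * (A - κ) := mul_nonneg (by linarith) (by linarith)
    nlinarith
  rcases le_total (s - A - D + κ) 0 with h3 | h3
  · rw [max_eq_left h3, mul_zero]
    exact mul_nonneg hp0 hq0
  · rw [max_eq_right h3]
    obtain ⟨e, he⟩ : ∃ e, e = s - A - D + κ := ⟨_, rfl⟩
    rw [← he] at h3 ⊢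
    have h4 : (s - A) * (s - D) ≤ p * q :=
      mul_le_mul hp hq (by linarith) hp0
    have h5 : s - A = e + D - κ := by linarith
    have h6 : s - D = e + A - κ := by linarith
    rw [h5, h6] at h4
    nlinarith [sq_nonneg (e - κ)]

/-- **PROPOSITION PAY for two kinds of members** -/
theorem pay_two {W1 W2 : Finset V} (hd : Disjoint W1 W2) {X : V → Finset α} {Y : V → Finset β}
    {o1 : V → α} {o2 : V → β} (h1 : ∀ v ∈ W1, o1 v ∈ X v)
    (j1 : ∀ u ∈ W1, ∀ v ∈ W1, o1 u = o1 v → u = v) (h2 : ∀ v ∈ W2, o2 v ∈ Y v)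
    (j2 : ∀ u ∈ W2, ∀ v ∈ W2, o2 u = o2 v → u = v)
    (hX : ∀ u ∈ W1 ∪ W2, ∀ v ∈ W1 ∪ W2, u ≠ v → ∀ a ∈ X u, a ∈ X v → G.Adj u v)
    (hY : ∀ u ∈ W1 ∪ W2, ∀ v ∈ W1 ∪ W2, u ≠ v → ∀ c ∈ Y u, c ∈ Y v → G.Adj u v)
    (l1 : ∀ v ∈ W1, (X v).card ≤ (Y v).card) (l2 : ∀ v ∈ W2, (Y v).card ≤ (X v).card) :
    ∑ v ∈ W1 ∪ W2, ((X v).card + (Y v).card)
      ≤ ((W1 ∪ W2).biUnion fun v => X v ×ˢ Y v).card
        + ∑ v ∈ W1 ∪ W2, (1 + dg G (W1 ∪ W2) v) := by
  obtain ⟨P, hP⟩ : ∃ P, P = W1 ∪ W2 := ⟨_, rfl⟩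
  rw [← hP] at hX hY ⊢
  have s1 : W1 ⊆ P := hP ▸ subset_union_left
  have s2 : W2 ⊆ P := hP ▸ subset_union_right
  have hn2 : ∀ v ∈ W2, v ∉ W1 := fun v hv h => disjoint_left.1 hd h hv
  obtain ⟨U, hU⟩ : ∃ U, U = P.biUnion fun v => X v ×ˢ Y v := ⟨_, rfl⟩
  rw [← hU]
  -- the own cells
  obtain ⟨O1, hO1⟩ : ∃ O : Finset (α × β), O = W1.biUnion fun v => (Y v).image fun c => (o1 v, c) :=
    ⟨_, rfl⟩
  obtain ⟨O2, hO2⟩ : ∃ O : Finset (α × β), O = W2.biUnion fun u => (X u).image fun a => (a, o2 u) :=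
    ⟨_, rfl⟩
  have c1 : O1.card = ∑ v ∈ W1, (Y v).card := by
    rw [hO1, card_biUnion]
    · refine sum_congr rfl fun v _ => card_image_of_injective _ fun c d h => (Prod.mk.inj h).2
    · intro u hu v hv huv
      change Disjoint ((Y u).image fun c => (o1 u, c)) ((Y v).image fun c => (o1 v, c))
      rw [disjoint_left]
      intro q hq hq'
      obtain ⟨c, -, rfl⟩ := mem_image.1 hq
      obtain ⟨d, -, hd'⟩ := mem_image.1 hq'
      exact huv (j1 u hu v hv (Prod.mk.inj hd').1.symm)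
  have c2 : O2.card = ∑ u ∈ W2, (X u).card := by
    rw [hO2, card_biUnion]
    · refine sum_congr rfl fun v _ => card_image_of_injective _ fun c d h => (Prod.mk.inj h).1
    · intro u hu v hv huv
      change Disjoint ((X u).image fun a => (a, o2 u)) ((X v).image fun a => (a, o2 v))
      rw [disjoint_left]
      intro q hq hq'
      obtain ⟨c, -, rfl⟩ := mem_image.1 hq
      obtain ⟨d, -, hd'⟩ := mem_image.1 hq'
      exact huv (j2 u hu v hv (Prod.mk.inj hd').2.symm)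
  obtain ⟨rel, hrel⟩ : ∃ rel : V → V → Prop, rel = fun v u => o1 v ∈ X u ∧ o2 u ∈ Y v := ⟨_, rfl⟩
  have c12 : ((O1 ∩ O2).card : ℚ) ≤ ∑ v ∈ W1, ∑ u ∈ W2, if rel v u then 1 else 0 := by
    have e1 : O1 ∩ O2 ⊆ ((W1 ×ˢ W2).filter fun p => rel p.1 p.2).image
        fun p => (o1 p.1, o2 p.2) := by
      intro q hq
      obtain ⟨hq1, hq2⟩ := mem_inter.1 hq
      rw [hO1] at hq1
      rw [hO2] at hq2
      obtain ⟨v, hv, hq1⟩ := mem_biUnion.1 hq1
      obtain ⟨u, hu, hq2⟩ := mem_biUnion.1 hq2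
      obtain ⟨c, hc, rfl⟩ := mem_image.1 hq1
      obtain ⟨a, ha, hac⟩ := mem_image.1 hq2
      obtain ⟨e1, e2⟩ := Prod.mk.inj hac
      refine mem_image.2 ⟨(v, u), mem_filter.2 ⟨mem_product.2 ⟨hv, hu⟩, ?_⟩, ?_⟩
      · rw [hrel]
        exact ⟨e1 ▸ ha, e2 ▸ hc⟩
      · rw [e2]
    have e2 := (card_le_card e1).trans card_image_le
    have e3 : (((W1 ×ˢ W2).filter fun p => rel p.1 p.2).card : ℚ)
        = ∑ v ∈ W1, ∑ u ∈ W2, if rel v u then 1 else 0 := by
      rw [card_filter, sum_product]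
      push_cast
      rfl
    rw [← e3]
    exact_mod_cast e2
  -- the numbers
  obtain ⟨A, hA⟩ : ∃ A : V → ℕ, A = fun v => if v ∈ W1 then 1 + dg G W1 v else 1 + dg G W2 v :=
    ⟨_, rfl⟩
  obtain ⟨D, hD⟩ : ∃ D : V → ℕ, D = fun v => if v ∈ W1 then dg G W2 v else dg G W1 v := ⟨_, rfl⟩
  obtain ⟨o, ho⟩ : ∃ o : V → ℕ, o = fun v => if v ∈ W1 then (W2.filter fun u => rel v u).card
    else (W1.filter fun u => rel u v).card := ⟨_, rfl⟩
  obtain ⟨s, hs⟩ : ∃ s : V → ℕ, s = fun v => if v ∈ W1 then (X v).card else (Y v).card := ⟨_, rfl⟩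
  obtain ⟨κ, hκ⟩ : ∃ κ : V → ℚ, κ = fun v => (o v : ℚ) * A v / ((A v : ℚ) + o v) := ⟨_, rfl⟩
  have A1 : ∀ v ∈ W1, A v = 1 + dg G W1 v := fun v hv => by rw [hA]; exact if_pos hv
  have A2 : ∀ v ∈ W2, A v = 1 + dg G W2 v := fun v hv => by rw [hA]; exact if_neg (hn2 v hv)
  have D1 : ∀ v ∈ W1, D v = dg G W2 v := fun v hv => by rw [hD]; exact if_pos hv
  have D2 : ∀ v ∈ W2, D v = dg G W1 v := fun v hv => by rw [hD]; exact if_neg (hn2 v hv)
  have O1' : ∀ v ∈ W1, o v = (W2.filter fun u => rel v u).card := fun v hv => by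
    rw [ho]; exact if_pos hv
  have O2' : ∀ v ∈ W2, o v = (W1.filter fun u => rel u v).card := fun v hv => by
    rw [ho]; exact if_neg (hn2 v hv)
  have S1 : ∀ v ∈ W1, s v = (X v).card := fun v hv => by rw [hs]; exact if_pos hv
  have S2 : ∀ v ∈ W2, s v = (Y v).card := fun v hv => by rw [hs]; exact if_neg (hn2 v hv)
  have hAone : ∀ v, 1 ≤ A v := by
    intro v
    rw [hA]
    dsimp only
    split_ifs <;> omega
  have hAD : ∀ v ∈ P, A v + D v = 1 + dg G P v := by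
    intro v hv
    have e1 : dg G P v = dg G W1 v + dg G W2 v := by
      rw [hP]
      unfold dg
      rw [filter_union, card_union_of_disjoint (disjoint_filter_filter hd)]
    rcases mem_union.1 (hP ▸ hv) with h | h
    · rw [A1 v h, D1 v h, e1]
      omega
    · rw [A2 v h, D2 v h, e1]
      omega
  -- partners
  have p1 : ∀ v ∈ W1, ∀ u ∈ W2, rel v u → G.Adj v u := by
    intro v hv u hu hvu
    rw [hrel] at hvu
    exact hX v (s1 hv) u (s2 hu) (fun h => hn2 u hu (h ▸ hv)) _ (h1 v hv) hvu.1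
  have hoD : ∀ v ∈ P, o v ≤ D v := by
    intro v hv
    rcases mem_union.1 (hP ▸ hv) with h | h
    · rw [O1' v h, D1 v h]
      refine card_le_card fun u hu => ?_
      obtain ⟨h3, h4⟩ := mem_filter.1 hu
      exact mem_filter.2 ⟨h3, p1 v h u h3 h4⟩
    · rw [O2' v h, D2 v h]
      refine card_le_card fun u hu => ?_
      obtain ⟨h3, h4⟩ := mem_filter.1 hu
      exact mem_filter.2 ⟨h3, (p1 u h3 v h h4).symm⟩
  have hoA1 : ∀ v ∈ W1, ∀ u ∈ W2, rel v u → o v ≤ A u := by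
    intro v hv u hu hvu
    rw [O1' v hv, A2 u hu]
    have e1 : (W2.filter fun w => rel v w) ⊆ insert u (W2.filter fun w => G.Adj u w) := by
      intro w hw
      obtain ⟨h3, h4⟩ := mem_filter.1 hw
      by_cases h5 : w = u
      · rw [h5]
        exact mem_insert_self _ _
      · refine mem_insert_of_mem (mem_filter.2 ⟨h3, ?_⟩)
        rw [hrel] at hvu h4
        exact hX u (s2 hu) w (s2 h3) (fun h => h5 h.symm) _ hvu.1 h4.1
    refine (card_le_card e1).trans ((card_insert_le _ _).trans ?_)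
    unfold dg
    omega
  have hoA2 : ∀ v ∈ W1, ∀ u ∈ W2, rel v u → o u ≤ A v := by
    intro v hv u hu hvu
    rw [O2' u hu, A1 v hv]
    have e1 : (W1.filter fun w => rel w u) ⊆ insert v (W1.filter fun w => G.Adj v w) := by
      intro w hw
      obtain ⟨h3, h4⟩ := mem_filter.1 hw
      by_cases h5 : w = v
      · rw [h5]
        exact mem_insert_self _ _
      · refine mem_insert_of_mem (mem_filter.2 ⟨h3, ?_⟩)
        rw [hrel] at hvu h4
        exact hY v (s1 hv) w (s1 h3) (fun h => h5 h.symm) _ hvu.2 h4.2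
    refine (card_le_card e1).trans ((card_insert_le _ _).trans ?_)
    unfold dg
    omega
  -- the sum of `κ`
  have hApos : ∀ v, (0 : ℚ) < (A v : ℚ) + o v := by
    intro v
    have e1 : (1 : ℚ) ≤ A v := by exact_mod_cast hAone v
    have e2 : (0 : ℚ) ≤ o v := Nat.cast_nonneg _
    linarith
  have k1 : ∑ v ∈ W1, κ v = ∑ v ∈ W1, ∑ u ∈ W2,
      if rel v u then (A v : ℚ) / ((A v : ℚ) + o v) else 0 := by
    refine sum_congr rfl fun v hv => ?_
    rw [← sum_filter, sum_const, nsmul_eq_mul, ← O1' v hv, hκ]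
    ring
  have k2 : ∑ u ∈ W2, κ u = ∑ v ∈ W1, ∑ u ∈ W2,
      if rel v u then (A u : ℚ) / ((A u : ℚ) + o u) else 0 := by
    rw [sum_comm]
    refine sum_congr rfl fun u hu => ?_
    rw [← sum_filter, sum_const, nsmul_eq_mul, ← O2' u hu, hκ]
    ring
  have k3 : ∑ v ∈ W1, ∑ u ∈ W2, (if rel v u then (1 : ℚ) else 0) ≤ ∑ v ∈ P, κ v := by
    have e0 : ∑ v ∈ P, κ v = ∑ v ∈ W1, κ v + ∑ v ∈ W2, κ v := by
      rw [hP, sum_union hd]
    rw [e0, k1, k2, ← sum_add_distrib]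
    refine sum_le_sum fun v hv => ?_
    rw [← sum_add_distrib]
    refine sum_le_sum fun u hu => ?_
    by_cases h3 : rel v u
    · rw [if_pos h3, if_pos h3, if_pos h3]
      have e1 : (o v : ℚ) ≤ A u := by exact_mod_cast hoA1 v hv u hu h3
      have e2 : (o u : ℚ) ≤ A v := by exact_mod_cast hoA2 v hv u hu h3
      have e3 : (1 : ℚ) ≤ A v := by exact_mod_cast hAone v
      have e4 : (1 : ℚ) ≤ A u := by exact_mod_cast hAone u
      have e5 : (A v : ℚ) / ((A v : ℚ) + A u) ≤ (A v : ℚ) / ((A v : ℚ) + o v) :=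
        div_le_div_of_nonneg_left (by linarith) (hApos v) (by linarith)
      have e6 : (A u : ℚ) / ((A v : ℚ) + A u) ≤ (A u : ℚ) / ((A u : ℚ) + o u) :=
        div_le_div_of_nonneg_left (by linarith) (hApos u) (by linarith)
      have e7 : (A v : ℚ) / ((A v : ℚ) + A u) + (A u : ℚ) / ((A v : ℚ) + A u) = 1 := by
        rw [← add_div]
        exact div_self (by linarith)
      linarith
    · rw [if_neg h3, if_neg h3, if_neg h3]
      linarith
  -- the greedy set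
  obtain ⟨e, he⟩ : ∃ e : V → ℚ, e = fun v => (s v : ℚ) - A v - D v + κ v := ⟨_, rfl⟩
  obtain ⟨I, hI, hind, hle⟩ := greedy_ind (G := G) P e P.card P Subset.rfl le_rfl
  obtain ⟨R, hR⟩ : ∃ R : V → Finset (α × β),
      R = fun u => (X u \ W1.image o1) ×ˢ (Y u \ W2.image o2) := ⟨_, rfl⟩
  have r1 : ∀ u ∈ P, ((1 + dg G P u : ℕ) : ℚ) * max 0 (e u) ≤ (R u).card := by
    intro u hu
    have x1 : ((X u).card : ℚ) - (if u ∈ W1 then A u else D u : ℕ)
        ≤ ((X u \ W1.image o1).card : ℚ) := by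
      have e1 : (X u ∩ W1.image o1).card ≤ (if u ∈ W1 then A u else D u : ℕ) := by
        have e2 : (X u ∩ W1.image o1) ⊆ (W1.filter fun w => w = u ∨ G.Adj u w).image o1 := by
          intro a ha
          obtain ⟨ha1, ha2⟩ := mem_inter.1 ha
          obtain ⟨w, hw, rfl⟩ := mem_image.1 ha2
          refine mem_image_of_mem _ (mem_filter.2 ⟨hw, ?_⟩)
          by_cases h5 : w = u
          · exact Or.inl h5
          · exact Or.inr (hX u hu w (s1 hw) (fun h => h5 h.symm) _ ha1 (h1 w hw))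
        refine (card_le_card e2).trans (card_image_le.trans ?_)
        split_ifs with h3
        · rw [A1 u h3]
          have e3 : (W1.filter fun w => w = u ∨ G.Adj u w)
              ⊆ insert u (W1.filter fun w => G.Adj u w) := by
            intro w hw
            obtain ⟨h4, h5⟩ := mem_filter.1 hw
            rcases h5 with h5 | h5
            · rw [h5]
              exact mem_insert_self _ _
            · exact mem_insert_of_mem (mem_filter.2 ⟨h4, h5⟩)
          refine (card_le_card e3).trans ((card_insert_le _ _).trans ?_)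
          unfold dg
          omega
        · rw [D2 u ((mem_union.1 (hP ▸ hu)).resolve_left h3)]
          refine card_le_card fun w hw => ?_
          obtain ⟨h4, h5⟩ := mem_filter.1 hw
          rcases h5 with h5 | h5
          · exact absurd (h5 ▸ h4) h3
          · exact mem_filter.2 ⟨h4, h5⟩
      have e2 := card_sdiff_add_card_inter (X u) (W1.image o1)
      have e3 : ((X u).card : ℚ) = ((X u \ W1.image o1).card : ℚ)
          + ((X u ∩ W1.image o1).card : ℚ) := by exact_mod_cast e2.symm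
      have e4 : ((X u ∩ W1.image o1).card : ℚ) ≤ (if u ∈ W1 then A u else D u : ℕ) := by
        exact_mod_cast e1
      linarith
    have x2 : ((Y u).card : ℚ) - (if u ∈ W1 then D u else A u : ℕ)
        ≤ ((Y u \ W2.image o2).card : ℚ) := by
      have e1 : (Y u ∩ W2.image o2).card ≤ (if u ∈ W1 then D u else A u : ℕ) := by
        have e2 : (Y u ∩ W2.image o2) ⊆ (W2.filter fun w => w = u ∨ G.Adj u w).image o2 := by
          intro a ha
          obtain ⟨ha1, ha2⟩ := mem_inter.1 ha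
          obtain ⟨w, hw, rfl⟩ := mem_image.1 ha2
          refine mem_image_of_mem _ (mem_filter.2 ⟨hw, ?_⟩)
          by_cases h5 : w = u
          · exact Or.inl h5
          · exact Or.inr (hY u hu w (s2 hw) (fun h => h5 h.symm) _ ha1 (h2 w hw))
        refine (card_le_card e2).trans (card_image_le.trans ?_)
        split_ifs with h3
        · rw [D1 u h3]
          refine card_le_card fun w hw => ?_
          obtain ⟨h4, h5⟩ := mem_filter.1 hw
          rcases h5 with h5 | h5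
          · exact absurd h3 (hn2 u (h5 ▸ h4))
          · exact mem_filter.2 ⟨h4, h5⟩
        · rw [A2 u ((mem_union.1 (hP ▸ hu)).resolve_left h3)]
          have e3 : (W2.filter fun w => w = u ∨ G.Adj u w)
              ⊆ insert u (W2.filter fun w => G.Adj u w) := by
            intro w hw
            obtain ⟨h4, h5⟩ := mem_filter.1 hw
            rcases h5 with h5 | h5
            · rw [h5]
              exact mem_insert_self _ _
            · exact mem_insert_of_mem (mem_filter.2 ⟨h4, h5⟩)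
          refine (card_le_card e3).trans ((card_insert_le _ _).trans ?_)
          unfold dg
          omega
      have e2 := card_sdiff_add_card_inter (Y u) (W2.image o2)
      have e3 : ((Y u).card : ℚ) = ((Y u \ W2.image o2).card : ℚ)
          + ((Y u ∩ W2.image o2).card : ℚ) := by exact_mod_cast e2.symm
      have e4 : ((Y u ∩ W2.image o2).card : ℚ) ≤ (if u ∈ W1 then D u else A u : ℕ) := by
        exact_mod_cast e1
      linarith
    have hRc : ((R u).card : ℚ) = ((X u \ W1.image o1).card : ℚ)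
        * ((Y u \ W2.image o2).card : ℚ) := by
      rw [hR, card_product]
      push_cast
      rfl
    have hA1 : (1 : ℚ) ≤ A u := by exact_mod_cast hAone u
    have hoD' : (o u : ℚ) ≤ D u := by exact_mod_cast hoD u hu
    have hADu : ((1 + dg G P u : ℕ) : ℚ) = (A u : ℚ) + D u := by exact_mod_cast (hAD u hu).symm
    rw [hADu, hRc, he]
    by_cases h3 : u ∈ W1
    · rw [if_pos h3] at x1 x2
      have e1 : (s u : ℚ) = (X u).card := by rw [S1 u h3]
      have e2 : ((X u).card : ℚ) ≤ (Y u).card := by exact_mod_cast l1 u h3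
      exact pay_arith hA1 (Nat.cast_nonneg _) hoD' (by rw [hκ]) (by rw [e1]; exact x1)
        (by rw [e1]; linarith) (Nat.cast_nonneg _) (Nat.cast_nonneg _)
    · rw [if_neg h3] at x1 x2
      have h4 : u ∈ W2 := (mem_union.1 (hP ▸ hu)).resolve_left h3
      have e1 : (s u : ℚ) = (Y u).card := by rw [S2 u h4]
      have e2 : ((Y u).card : ℚ) ≤ (X u).card := by exact_mod_cast l2 u h4
      rw [mul_comm ((X u \ W1.image o1).card : ℚ)]
      exact pay_arith hA1 (Nat.cast_nonneg _) hoD' (by rw [hκ]) (by rw [e1]; exact x2)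
        (by rw [e1]; linarith) (Nat.cast_nonneg _) (Nat.cast_nonneg _)
  -- the cells
  have u1 : (O1 ∪ O2).card + ∑ u ∈ I, (R u).card ≤ U.card := by
    have e1 : (I.biUnion R).card = ∑ u ∈ I, (R u).card := by
      refine card_biUnion fun u hu v hv huv => ?_
      change Disjoint (R u) (R v)
      rw [disjoint_left]
      intro q hq hq'
      rw [hR] at hq hq'
      have a1 := (mem_sdiff.1 (mem_product.1 hq).1).1
      have a2 := (mem_sdiff.1 (mem_product.1 hq').1).1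
      exact hind u hu v hv (hX u (hI hu) v (hI hv) huv _ a1 a2)
    have e2 : Disjoint (O1 ∪ O2) (I.biUnion R) := by
      rw [disjoint_left]
      intro q hq hq'
      obtain ⟨u, hu, hqu⟩ := mem_biUnion.1 hq'
      rw [hR] at hqu
      obtain ⟨a1, a2⟩ := mem_product.1 hqu
      rcases mem_union.1 hq with h3 | h3
      · rw [hO1] at h3
        obtain ⟨v, hv, h3⟩ := mem_biUnion.1 h3
        obtain ⟨c, hc, rfl⟩ := mem_image.1 h3
        exact (mem_sdiff.1 a1).2 (mem_image_of_mem _ hv)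
      · rw [hO2] at h3
        obtain ⟨v, hv, h3⟩ := mem_biUnion.1 h3
        obtain ⟨c, hc, rfl⟩ := mem_image.1 h3
        exact (mem_sdiff.1 a2).2 (mem_image_of_mem _ hv)
    rw [← e1, ← card_union_of_disjoint e2]
    refine card_le_card (union_subset (union_subset ?_ ?_) ?_)
    · intro q hq
      rw [hO1] at hq
      obtain ⟨v, hv, hq⟩ := mem_biUnion.1 hq
      obtain ⟨c, hc, rfl⟩ := mem_image.1 hq
      rw [hU]
      exact mem_biUnion.2 ⟨v, s1 hv, mem_product.2 ⟨h1 v hv, hc⟩⟩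
    · intro q hq
      rw [hO2] at hq
      obtain ⟨v, hv, hq⟩ := mem_biUnion.1 hq
      obtain ⟨c, hc, rfl⟩ := mem_image.1 hq
      rw [hU]
      exact mem_biUnion.2 ⟨v, s2 hv, mem_product.2 ⟨hc, h2 v hv⟩⟩
    · intro q hq
      obtain ⟨u, hu, hqu⟩ := mem_biUnion.1 hq
      rw [hR] at hqu
      obtain ⟨a1, a2⟩ := mem_product.1 hqu
      rw [hU]
      exact mem_biUnion.2 ⟨u, hI hu, mem_product.2 ⟨(mem_sdiff.1 a1).1, (mem_sdiff.1 a2).1⟩⟩
  have u2 := card_union_add_card_inter O1 O2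
  have u3 : ∑ u ∈ I, ((1 + dg G P u : ℕ) : ℚ) * max 0 (e u) ≤ ∑ u ∈ I, ((R u).card : ℚ) :=
    sum_le_sum fun u hu => r1 u (hI hu)
  have u4 : ∑ v ∈ P, e v = ∑ v ∈ P, (s v : ℚ) - ∑ v ∈ P, ((1 + dg G P v : ℕ) : ℚ)
      + ∑ v ∈ P, κ v := by
    rw [← sum_sub_distrib, ← sum_add_distrib]
    refine sum_congr rfl fun v hv => ?_
    have e1 : ((1 + dg G P v : ℕ) : ℚ) = (A v : ℚ) + D v := by exact_mod_cast (hAD v hv).symm
    rw [e1, he]
    ring
  have u5 : ∑ v ∈ P, (s v : ℚ) = ∑ v ∈ W1, ((X v).card : ℚ) + ∑ v ∈ W2, ((Y v).card : ℚ) := by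
    rw [hP, sum_union hd]
    congr 1
    · exact sum_congr rfl fun v hv => by rw [S1 v hv]
    · exact sum_congr rfl fun v hv => by rw [S2 v hv]
  have u6 : ∑ v ∈ P, (((X v).card : ℚ) + (Y v).card) = (∑ v ∈ W1, ((X v).card : ℚ)
      + ∑ v ∈ W1, ((Y v).card : ℚ)) + (∑ v ∈ W2, ((X v).card : ℚ)
      + ∑ v ∈ W2, ((Y v).card : ℚ)) := by
    rw [hP, sum_union hd, sum_add_distrib, sum_add_distrib]
  have u7 : (O1.card : ℚ) = ∑ v ∈ W1, ((Y v).card : ℚ) := by exact_mod_cast c1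
  have u8 : (O2.card : ℚ) = ∑ v ∈ W2, ((X v).card : ℚ) := by exact_mod_cast c2
  have u9 : ((O1 ∪ O2).card : ℚ) + ((O1 ∩ O2).card : ℚ) = (O1.card : ℚ) + O2.card := by
    exact_mod_cast u2
  have u10 : ((O1 ∪ O2).card : ℚ) + ∑ u ∈ I, ((R u).card : ℚ) ≤ U.card := by exact_mod_cast u1
  have u11 : ∑ v ∈ P, (((X v).card : ℚ) + (Y v).card)
      ≤ (U.card : ℚ) + ∑ v ∈ P, ((1 + dg G P v : ℕ) : ℚ) := by
    linarith
  exact_mod_cast u11

end Pure

section Gen

variable {V : Type*} {G : SimpleGraph V} {r : ℕ} {C D I : Finset V}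

/-- **the cell test for missing pairs of both kinds** -/
theorem CellD.payB (hI : CellD G C D I) (hP : PG G r) (hC : Clq G C) (hD : Clq G D)
    (dCD : Disjoint C D) {K K' : Finset (V × V)} (k1 : ∀ e ∈ K, e.1 ∈ I) (k2 : ∀ e ∈ K, e.2 ∈ C)
    (k3 : ∀ e ∈ K, ¬ G.Adj e.1 e.2) (i1 : ∀ e ∈ K, ∀ f ∈ K, e.1 = f.1 → e = f)
    (i2 : ∀ e ∈ K, ∀ f ∈ K, e.2 = f.2 → e = f) (k1' : ∀ e ∈ K', e.1 ∈ I)
    (k2' : ∀ e ∈ K', e.2 ∈ D) (k3' : ∀ e ∈ K', ¬ G.Adj e.1 e.2)
    (i1' : ∀ e ∈ K', ∀ f ∈ K', e.1 = f.1 → e = f) (i2' : ∀ e ∈ K', ∀ f ∈ K', e.2 = f.2 → e = f)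
    (hd : ∀ e ∈ K, ∀ f ∈ K', e.1 ≠ f.1)
    (l1 : ∀ e ∈ K, (msC G C e.1).card ≤ (msC G D e.1).card)
    (l2 : ∀ e ∈ K', (msC G D e.1).card ≤ (msC G C e.1).card) :
    2 * (((K.card : ℤ) + K'.card - 1) * ((r : ℤ) - 1))
        + NE G (K.image Prod.fst ∪ K'.image Prod.fst)
      ≤ 2 * (((r : ℤ) - 1 - C.card) * ((r : ℤ) - 1 - D.card))
        + 2 * ((K.card : ℤ) + K'.card) ^ 2 := by
  obtain ⟨W1, hW1⟩ : ∃ W, W = K.image Prod.fst := ⟨_, rfl⟩
  obtain ⟨W2, hW2⟩ : ∃ W, W = K'.image Prod.fst := ⟨_, rfl⟩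
  rw [← hW1, ← hW2]
  have m1 : ∀ v ∈ W1, ∃ e ∈ K, e.1 = v := fun v hv => mem_image.1 (hW1 ▸ hv)
  have m2 : ∀ v ∈ W2, ∃ e ∈ K', e.1 = v := fun v hv => mem_image.1 (hW2 ▸ hv)
  have c1 : W1.card = K.card := by
    rw [hW1]
    exact card_image_of_injOn fun e he f hf hef =>
      i1 e (by exact_mod_cast he) f (by exact_mod_cast hf) hef
  have c2 : W2.card = K'.card := by
    rw [hW2]
    exact card_image_of_injOn fun e he f hf hef =>
      i1' e (by exact_mod_cast he) f (by exact_mod_cast hf) hef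
  have hdis : Disjoint W1 W2 := by
    rw [disjoint_left]
    intro v hv hv'
    obtain ⟨e, he, h1⟩ := m1 v hv
    obtain ⟨f, hf, h2⟩ := m2 v hv'
    exact hd e he f hf (h1.trans h2.symm)
  have hWI : W1 ∪ W2 ⊆ I := by
    intro v hv
    rcases mem_union.1 hv with hv | hv
    · obtain ⟨e, he, rfl⟩ := m1 v hv
      exact k1 e he
    · obtain ⟨e, he, rfl⟩ := m2 v hv
      exact k1' e he
  have own1 : ∀ v, ∃ a, v ∈ W1 → (v, a) ∈ K := by
    intro v
    by_cases h : v ∈ W1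
    · obtain ⟨e, he, rfl⟩ := m1 v h
      exact ⟨e.2, fun _ => he⟩
    · exact ⟨v, fun h' => absurd h' h⟩
  have own2 : ∀ v, ∃ a, v ∈ W2 → (v, a) ∈ K' := by
    intro v
    by_cases h : v ∈ W2
    · obtain ⟨e, he, rfl⟩ := m2 v h
      exact ⟨e.2, fun _ => he⟩
    · exact ⟨v, fun h' => absurd h' h⟩
  choose o1 ho1 using own1
  choose o2 ho2 using own2
  have h1 := pay_two (G := G) hdis (X := msC G C) (Y := msC G D) (o1 := o1) (o2 := o2)
    (fun v hv => mem_filter.2 ⟨k2 _ (ho1 v hv), k3 _ (ho1 v hv)⟩)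
    (fun u hu v hv huv => congrArg Prod.fst (i2 _ (ho1 u hu) _ (ho1 v hv) huv))
    (fun v hv => mem_filter.2 ⟨k2' _ (ho2 v hv), k3' _ (ho2 v hv)⟩)
    (fun u hu v hv huv => congrArg Prod.fst (i2' _ (ho2 u hu) _ (ho2 v hv) huv))
    (fun u hu v hv huv a ha ha' => hI.comC u (hWI hu) v (hWI hv) huv a (mem_filter.1 ha).1
      (mem_filter.1 ha).2 (mem_filter.1 ha').2)
    (fun u hu v hv huv a ha ha' => hI.comD u (hWI hu) v (hWI hv) huv a (mem_filter.1 ha).1
      (mem_filter.1 ha).2 (mem_filter.1 ha').2)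
    (fun v hv => by
      obtain ⟨e, he, rfl⟩ := m1 v hv
      exact l1 e he)
    (fun v hv => by
      obtain ⟨e, he, rfl⟩ := m2 v hv
      exact l2 e he)
  have h2 : ((W1 ∪ W2).biUnion fun v => msC G C v ×ˢ msC G D v).card ≤ (eds G C D).card := by
    refine card_le_card (biUnion_subset.2 fun v hv q hq => ?_)
    obtain ⟨h3, h4⟩ := mem_product.1 hq
    obtain ⟨h5, h6⟩ := mem_filter.1 h3
    obtain ⟨h7, h8⟩ := mem_filter.1 h4
    exact mem_filter.2 ⟨mem_product.2 ⟨h5, h7⟩, hI.rect v (hWI hv) _ h5 _ h7 h6 h8⟩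
  have h3 := hP.s1_cell (W := W1 ∪ W2) hC hD dCD
    (disjoint_right.2 fun w hw h => hI.nC w (hWI hw) h)
    (disjoint_right.2 fun w hw h => hI.nD w (hWI hw) h)
  have h4 : ∑ w ∈ W1 ∪ W2, ((nd G C w : ℤ) + nd G D w)
      = ((∑ v ∈ W1 ∪ W2, ((msC G C v).card + (msC G D v).card) : ℕ) : ℤ) := by
    push_cast
    refine sum_congr rfl fun v hv => ?_
    have e1 : ∀ E : Finset V, v ∉ E → nd G E v = (msC G E v).card := by
      intro E hE
      unfold nd msC
      congr 1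
      ext a
      rw [mem_filter, mem_filter]
      exact ⟨fun h => ⟨h.1, h.2.2⟩, fun h => ⟨h.1, fun h' => hE (h' ▸ h.1), h.2⟩⟩
    rw [e1 C (hI.nC v (hWI hv)), e1 D (hI.nD v (hWI hv))]
  have h5 : ∑ v ∈ W1 ∪ W2, (1 + dg G (W1 ∪ W2) v) = (W1 ∪ W2).card + E G (W1 ∪ W2) := by
    rw [sum_add_distrib, sum_const, smul_eq_mul, mul_one]
    rfl
  have h6 := E_add_NE (G := G) (W1 ∪ W2)
  have h7 : (W1 ∪ W2).card = K.card + K'.card := by
    rw [card_union_of_disjoint hdis, c1, c2]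
  rw [h5] at h1
  have h8 := h1.trans (Nat.add_le_add_right h2 _)
  rw [h4] at h3
  rw [h7] at h3 h6 h8
  zify at h8
  push_cast at h3 h6 h8
  nlinarith [h3, h6, h8]

end Gen

section Frame

variable {V : Type*} {G : SimpleGraph V} {Z T : Finset V} {hm : V → V} {r m n p : ℕ}

/-- **the joint cell test, missing pairs of both homes** -/
theorem WCoreK.jntB (hp : 2 * r ≤ p) (h : WCoreK G Z T r m n p hm) {x y : V} (hx : x ∈ T)
    (hy : y ∈ T) (hxy : x ≠ y) {K K' : Finset (V × V)} (k0 : ∀ e ∈ K, e.1 ∈ hz G Z T hm x)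
    (k1 : ∀ e ∈ K, tlo G T hm e.1 = y) (k2 : ∀ e ∈ K, e.2 ∈ cz G Z T hm x)
    (k3 : ∀ e ∈ K, ¬ G.Adj e.1 e.2) (i1 : ∀ e ∈ K, ∀ f ∈ K, e.1 = f.1 → e = f)
    (i2 : ∀ e ∈ K, ∀ f ∈ K, e.2 = f.2 → e = f) (k0' : ∀ e ∈ K', e.1 ∈ hz G Z T hm y)
    (k1' : ∀ e ∈ K', tlo G T hm e.1 = x) (k2' : ∀ e ∈ K', e.2 ∈ cz G Z T hm y)
    (k3' : ∀ e ∈ K', ¬ G.Adj e.1 e.2) (i1' : ∀ e ∈ K', ∀ f ∈ K', e.1 = f.1 → e = f)
    (i2' : ∀ e ∈ K', ∀ f ∈ K', e.2 = f.2 → e = f) :
    2 * (((K.card : ℤ) + K'.card - 1) * ((r : ℤ) - 1))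
        + NE G (K.image Prod.fst ∪ K'.image Prod.fst)
      ≤ 2 * (tI G Z T hm r Z x * tI G Z T hm r Z y) + 2 * ((K.card : ℤ) + K'.card) ^ 2 := by
  have hF := h.F.toPFrame
  have hC := h.csys
  have hcell := hC.cellD hF hx hy hxy
  have h1 := hcell.payB h.gp.P (hC.CP_clq hF hx) (hC.CP_clq hF hy)
    (h.wsysT.dCC x hx y hy hxy) (K := K) (K' := K')
    (fun e he => hC.mem_Dbl_of_tlo h.hh hx (k0 e he) (k1 e he)) k2 k3 i1 i2
    (fun e he => by
      rw [Dbl_comm]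
      exact hC.mem_Dbl_of_tlo h.hh hy (k0' e he) (k1' e he)) k2' k3' i1' i2'
    (fun e he f hf hef => disjoint_left.1 (h.wsysT.dHH x hx y hy hxy) (k0 e he)
      (hef ▸ k0' f hf))
    (fun e he => h.ms_le hp hx hy hxy (k0 e he) (k1 e he))
    (fun e he => h.ms_le hp hy hx hxy.symm (k0' e he) (k1' e he))
  have e1 : ((cz G Z T hm x).card : ℤ) = (r : ℤ) - 1 - tI G Z T hm r Z x := card_CP_eq Z x
  have e2 : ((cz G Z T hm y).card : ℤ) = (r : ℤ) - 1 - tI G Z T hm r Z y := card_CP_eq Z y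
  rw [e1, e2] at h1
  have e3 : ((r : ℤ) - 1 - ((r : ℤ) - 1 - tI G Z T hm r Z x))
      * ((r : ℤ) - 1 - ((r : ℤ) - 1 - tI G Z T hm r Z y))
      = tI G Z T hm r Z x * tI G Z T hm r Z y := by ring
  rw [e3] at h1
  exact h1

/-- **missing pairs from the PC pairs and N-ends of one tail** -/
theorem Pk.exists_pairs {C H : Finset V} {tl : V → V} {Q : Finset (V × V)} {Ps : Finset (Finset V)}
    (hQ : Pk G C H tl Q Ps) {y : V} {N : Finset V} {f : ℕ} (hN : N ⊆ nez G C H tl Q y)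
    (hNf : ∀ v ∈ N, f ≤ (frC G C tl Q v).card) :
    ∃ K : Finset (V × V), (∀ e ∈ K, e.1 ∈ H) ∧ (∀ e ∈ K, tl e.1 = y) ∧ (∀ e ∈ K, e.2 ∈ C) ∧
      (∀ e ∈ K, ¬ G.Adj e.1 e.2) ∧ (∀ e ∈ K, ∀ f ∈ K, e.1 = f.1 → e = f) ∧
      (∀ e ∈ K, ∀ f ∈ K, e.2 = f.2 → e = f) ∧
      K.card = (pcs tl Q y).card + min N.card f := by
  obtain ⟨P, hPd⟩ : ∃ P, P = pcs tl Q y := ⟨_, rfl⟩
  have hmem : ∀ f ∈ P, f ∈ Q ∧ tl f.1 = y := fun f hf => mem_pcs.1 (hPd ▸ hf)
  have hNH : ∀ w ∈ N, w ∈ H ∧ tl w = y ∧ ∀ e ∈ Q, e.1 ≠ w := by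
    intro w hw
    obtain ⟨h1, h2⟩ := mem_filter.1 (hN hw)
    obtain ⟨h3, h4⟩ := mem_sdiff.1 (mem_Nend.1 h1).1
    exact ⟨h3, h2, fun e he hew => h4 (hew ▸ mem_image_of_mem _ he)⟩
  obtain ⟨K, hPK, k1, k2, k3, j1, j2, hUf⟩ := exists_ext (G := G)
    (X := P.image Prod.fst ∪ N) (C := C) (K0 := P)
    (fun e he => mem_union_left _ (mem_image_of_mem _ he))
    (fun e he => hQ.bC e (hmem e he).1) (fun e he => hQ.bN e (hmem e he).1)
    (fun e he g hg heg => hQ.b1 e (hmem e he).1 g (hmem g hg).1 heg)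
    (fun e he g hg heg => hQ.b2 e (hmem e he).1 g (hmem g hg).1 heg
      ((hmem e he).2.trans (hmem g hg).2.symm))
  have hXH : ∀ w ∈ P.image Prod.fst ∪ N, w ∈ H ∧ tl w = y := by
    intro w hw
    rcases mem_union.1 hw with hw | hw
    · obtain ⟨e, he, rfl⟩ := mem_image.1 hw
      exact ⟨hQ.bH e (hmem e he).1, (hmem e he).2⟩
    · exact ⟨(hNH w hw).1, (hNH w hw).2.1⟩
  have hkK : P.card + min N.card f ≤ K.card := by
    have e1 : P.card + (K \ P).card = K.card := by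
      rw [card_sdiff_of_subset hPK]
      have := card_le_card hPK
      omega
    suffices min N.card f ≤ (K \ P).card by omega
    by_cases h1 : N ⊆ K.image Prod.fst
    · have h2 : N.card ≤ (K \ P).card := by
        have h3 : N ⊆ (K \ P).image Prod.fst := by
          intro w hw
          obtain ⟨e, he, hew⟩ := mem_image.1 (h1 hw)
          refine mem_image.2 ⟨e, mem_sdiff.2 ⟨he, fun h4 => ?_⟩, hew⟩
          exact (hNH w hw).2.2 e (hmem e h4).1 hew
        exact (card_le_card h3).trans card_image_le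
      exact (min_le_left _ _).trans h2
    · obtain ⟨w, hw, hwK⟩ := not_subset.1 h1
      have h2 : frC G C tl Q w ⊆ (K \ P).image Prod.snd := by
        intro b hb
        obtain ⟨hb1, hb2, hb3⟩ := mem_frC.1 hb
        obtain ⟨e, he, heb⟩ := hUf w (mem_sdiff.2 ⟨mem_union_right _ hw, hwK⟩) b hb1 hb2
        refine mem_image.2 ⟨e, mem_sdiff.2 ⟨he, fun h4 => ?_⟩, heb⟩
        exact hb3 e (hmem e h4).1 heb ((hmem e h4).2.trans (hNH w hw).2.1.symm)
      have h3 := (hNf w hw).trans ((card_le_card h2).trans card_image_le)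
      exact (min_le_right _ _).trans h3
  obtain ⟨L, hL0, hLK, hLc⟩ := exists_subsuperset_card_eq hPK (Nat.le_add_right _ _) hkK
  exact ⟨L, fun e he => (hXH _ (k1 e (hLK he))).1, fun e he => (hXH _ (k1 e (hLK he))).2,
    fun e he => k2 e (hLK he), fun e he => k3 e (hLK he),
    fun e he g hg => j1 e (hLK he) g (hLK hg), fun e he g hg => j2 e (hLK he) g (hLK hg),
    by rw [hLc, hPd]⟩

/-- **the joint cell test over the items, both homes, any numbers**: the PC pairs of both homes, and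
cliques with one N-end of the cell each, with at least `f` (`f'`) free arcs -/
theorem WCoreK.jnB (hp : 2 * r ≤ p) (h : WCoreK G Z T r m n p hm) {x y : V} (hx : x ∈ T)
    (hy : y ∈ T) (hxy : x ≠ y) {Q : Finset (V × V)} {Ps : Finset (Finset V)}
    (hQ : Pk G (cz G Z T hm x) (hz G Z T hm x) (tlo G T hm) Q Ps)
    {Q' : Finset (V × V)} {Ps' : Finset (Finset V)}
    (hQ' : Pk G (cz G Z T hm y) (hz G Z T hm y) (tlo G T hm) Q' Ps') {K K' : Finset (Itm V)}
    (hK : K ⊆ pkf Q Ps) (hK' : K' ⊆ pkf Q' Ps') {f f' : ℕ}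
    (h1 : ∀ u ∈ K, ipc u = 0 ∧ nuC G (cz G Z T hm x) (tlo G T hm) Q y u = 1
      ∧ f ≤ nuF G (cz G Z T hm x) (tlo G T hm) Q y u)
    (h1' : ∀ u ∈ K', ipc u = 0 ∧ nuC G (cz G Z T hm y) (tlo G T hm) Q' x u = 1
      ∧ f' ≤ nuF G (cz G Z T hm y) (tlo G T hm) Q' x u) {k : ℕ}
    (hk : k = (pcs (tlo G T hm) Q y).card + min K.card f
      + ((pcs (tlo G T hm) Q' x).card + min K'.card f')) :
    ((k : ℤ) - 1) * ((r : ℤ) - 1)
      ≤ tI G Z T hm r Z x * tI G Z T hm r Z y + (k : ℤ) ^ 2 := by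
  have key : ∀ {x y : V} {Q : Finset (V × V)} {Ps : Finset (Finset V)} {K : Finset (Itm V)}
      {f : ℕ}, x ∈ T → y ∈ T → Pk G (cz G Z T hm x) (hz G Z T hm x) (tlo G T hm) Q Ps →
      K ⊆ pkf Q Ps →
      (∀ u ∈ K, ipc u = 0 ∧ nuC G (cz G Z T hm x) (tlo G T hm) Q y u = 1
        ∧ f ≤ nuF G (cz G Z T hm x) (tlo G T hm) Q y u) →
      ∃ L : Finset (V × V), (∀ e ∈ L, e.1 ∈ hz G Z T hm x) ∧ (∀ e ∈ L, tlo G T hm e.1 = y) ∧
        (∀ e ∈ L, e.2 ∈ cz G Z T hm x) ∧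
        (∀ e ∈ L, ¬ G.Adj e.1 e.2) ∧ (∀ e ∈ L, ∀ f ∈ L, e.1 = f.1 → e = f) ∧
        (∀ e ∈ L, ∀ f ∈ L, e.2 = f.2 → e = f) ∧
        L.card = (pcs (tlo G T hm) Q y).card + min K.card f := by
    intro x y Q Ps K f hx hy hQ hK hK1
    have h1 : K.biUnion (nuS G (cz G Z T hm x) (tlo G T hm) Q y)
        ⊆ nez G (cz G Z T hm x) (hz G Z T hm x) (tlo G T hm) Q y := by
      intro v hv
      obtain ⟨w, hw, hvw⟩ := mem_biUnion.1 hv
      obtain ⟨a1, a2, -, -⟩ := h.nuS_mem hx hQ (hK hw) hvw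
      rcases w with P | e
      · obtain ⟨b1, b2, b3⟩ := mem_filter.1 hvw
        refine mem_filter.2 ⟨mem_Nend.2 ⟨mem_sdiff.2 ⟨a1, fun h5 => ?_⟩, b3⟩, a2⟩
        obtain ⟨e, he, hev⟩ := mem_image.1 h5
        exact hQ.dw e he P (inl_mem_pkf.1 (hK hw)).1 (hev ▸ b1)
      · have := (hK1 _ hw).1
        simp [ipc] at this
    have h2 : ∀ v ∈ K.biUnion (nuS G (cz G Z T hm x) (tlo G T hm) Q y),
        f ≤ (frC G (cz G Z T hm x) (tlo G T hm) Q v).card := by
      intro v hv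
      obtain ⟨w, hw, hvw⟩ := mem_biUnion.1 hv
      obtain ⟨-, -, a3, -⟩ := h.nuS_mem hx hQ (hK hw) hvw
      rw [← a3 (hK1 w hw).2.1]
      exact (hK1 w hw).2.2
    obtain ⟨L, l1, l2, l3, l4, l5, l6, l7⟩ := hQ.exists_pairs h1 h2
    refine ⟨L, l1, l2, l3, l4, l5, l6, ?_⟩
    rw [l7, card_biUnion_nuS1 hQ hK fun w hw => (hK1 w hw).2.1]
  obtain ⟨L, l1, l2, l3, l4, l5, l6, l7⟩ := key hx hy hQ hK h1
  obtain ⟨L', m1, m2, m3, m4, m5, m6, m7⟩ := key hy hx hQ' hK' h1'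
  have h2 := h.jntB hp hx hy hxy l1 l2 l3 l4 l5 l6 m1 m2 m3 m4 m5 m6
  have h3 : ((L.card : ℤ) + L'.card) = k := by
    rw [hk, l7, m7]
    push_cast
    rfl
  rw [h3] at h2
  have h4 : (0 : ℤ) ≤ NE G (L.image Prod.fst ∪ L'.image Prod.fst) := Int.natCast_nonneg _
  linarith

/-- **the joint cell test, PC pairs of both homes** -/
theorem WCoreK.jnG (hp : 2 * r ≤ p) (h : WCoreK G Z T r m n p hm) {x y : V} (hx : x ∈ T)
    (hy : y ∈ T) (hxy : x ≠ y) {Q : Finset (V × V)} {Ps : Finset (Finset V)}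
    (hQ : Pk G (cz G Z T hm x) (hz G Z T hm x) (tlo G T hm) Q Ps)
    {Q' : Finset (V × V)} {Ps' : Finset (Finset V)}
    (hQ' : Pk G (cz G Z T hm y) (hz G Z T hm y) (tlo G T hm) Q' Ps') :
    (((pcs (tlo G T hm) Q y).card : ℤ) + (pcs (tlo G T hm) Q' x).card - 1) * ((r : ℤ) - 1)
      ≤ tI G Z T hm r Z x * tI G Z T hm r Z y
        + (((pcs (tlo G T hm) Q y).card : ℤ) + (pcs (tlo G T hm) Q' x).card) ^ 2 := by
  have h1 := h.jnB hp hx hy hxy hQ hQ' (K := ∅) (K' := ∅) (empty_subset _) (empty_subset _)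
    (f := 0) (f' := 0) (fun u hu => absurd hu (notMem_empty u))
    (fun u hu => absurd hu (notMem_empty u)) rfl
  rw [card_empty] at h1
  push_cast at h1
  simpa using h1

end Frame

section Trans

variable {V : Type*} {G : SimpleGraph V} {Z T : Finset V} {hm : V → V} {r m n p : ℕ}
  {φ : Finset (V × V) → Finset (Finset V) → ℕ} {B : V → Finset (V × V)}
  {Ps : V → Finset (Finset V)} {host : Itm V → V} {ρ : V → ℕ} {σ : ℕ → V}

/-- **over the integers: the PC pairs of both homes** -/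
theorem WItK.jgg (hp : 2 * r ≤ p) (h : WCoreK G Z T r m n p hm)
    (H : WItK G Z T hm r n φ B Ps host ρ σ) {i j : ℕ} (hi : i < n) (hj : j < n) (hij : i ≠ j) :
    (pcn (tlo G T hm) B (σ i) (σ j) + pcn (tlo G T hm) B (σ j) (σ i) - 1) * ((r : ℤ) - 1)
      ≤ tI G Z T hm r Z (σ i) * tI G Z T hm r Z (σ j)
        + (pcn (tlo G T hm) B (σ i) (σ j) + pcn (tlo G T hm) B (σ j) (σ i)) ^ 2 := by
  have hcard := h.cardT
  have hmem : ∀ i < n, σ i ∈ T := fun i hi => H.rk.mem i (by rw [hcard]; exact hi)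
  have hne : σ i ≠ σ j := fun h1 =>
    hij (H.rk.sinj (by rw [hcard]; exact hi) (by rw [hcard]; exact hj) h1)
  exact h.jnG hp (hmem i hi) (hmem j hj) hne (H.pk _ (hmem i hi)).toPk (H.pk _ (hmem j hj)).toPk

/-- **over the integers: PC pairs and N-ends of both homes** -/
theorem WItK.jgn (hp : 2 * r ≤ p) (h : WCoreK G Z T r m n p hm)
    (H : WItK G Z T hm r n φ B Ps host ρ σ) {i j : ℕ} (hi : i < n) (hj : j < n) (hij : i ≠ j)
    {f f' : ℤ} (hf : 0 ≤ f) (hf' : 0 ≤ f') {K K' : Finset (Itm V)}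
    (hKU : K ⊆ T.biUnion fun x => pkf (B x) (Ps x))
    (hK : ∀ u ∈ K, ρ (host u) = i ∧ (ipc u : ℤ) = 0
      ∧ (nuC G (cz G Z T hm (host u)) (tlo G T hm) (B (host u)) (σ j) u : ℤ) = 1
      ∧ f ≤ (nuF G (cz G Z T hm (host u)) (tlo G T hm) (B (host u)) (σ j) u : ℤ))
    (hKU' : K' ⊆ T.biUnion fun x => pkf (B x) (Ps x))
    (hK' : ∀ u ∈ K', ρ (host u) = j ∧ (ipc u : ℤ) = 0
      ∧ (nuC G (cz G Z T hm (host u)) (tlo G T hm) (B (host u)) (σ i) u : ℤ) = 1
      ∧ f' ≤ (nuF G (cz G Z T hm (host u)) (tlo G T hm) (B (host u)) (σ i) u : ℤ)) {k : ℤ}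
    (hk : k = pcn (tlo G T hm) B (σ i) (σ j) + min (K.card : ℤ) f
      + (pcn (tlo G T hm) B (σ j) (σ i) + min (K'.card : ℤ) f')) :
    (k - 1) * ((r : ℤ) - 1)
      ≤ tI G Z T hm r Z (σ i) * tI G Z T hm r Z (σ j) + k ^ 2 := by
  have hcard := h.cardT
  have hmem : ∀ i < n, σ i ∈ T := fun i hi => H.rk.mem i (by rw [hcard]; exact hi)
  have hne : σ i ≠ σ j := fun h1 =>
    hij (H.rk.sinj (by rw [hcard]; exact hi) (by rw [hcard]; exact hj) h1)
  have hfil : ∀ i < n, (T.biUnion fun x => pkf (B x) (Ps x)).filter (fun u => ρ (host u) = i)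
      = pkf (B (σ i)) (Ps (σ i)) := fun i hi => fil_host H.hst H.rk (by rw [hcard]; exact hi)
  have hsub : ∀ i < n, ∀ K ⊆ T.biUnion fun x => pkf (B x) (Ps x), (∀ u ∈ K, ρ (host u) = i) →
      K ⊆ pkf (B (σ i)) (Ps (σ i)) := fun i hi K hK hKi u hu => by
    rw [← hfil i hi, mem_filter]
    exact ⟨hK hu, hKi u hu⟩
  have h1 := hsub i hi K hKU fun u hu => (hK u hu).1
  have h1' := hsub j hj K' hKU' fun u hu => (hK' u hu).1
  have hh1 : ∀ u ∈ K, host u = σ i := fun u hu => H.hst _ (hmem i hi) u (h1 hu)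
  have hh2 : ∀ u ∈ K', host u = σ j := fun u hu => H.hst _ (hmem j hj) u (h1' hu)
  have h2 := h.jnB hp (hmem i hi) (hmem j hj) hne (H.pk _ (hmem i hi)).toPk
    (H.pk _ (hmem j hj)).toPk h1 h1' (f := f.toNat) (f' := f'.toNat)
    (fun u hu => by
      obtain ⟨-, h4, h5, h6⟩ := hK u hu
      rw [hh1 u hu] at h5 h6
      exact ⟨by exact_mod_cast h4, by exact_mod_cast h5, by omega⟩)
    (fun u hu => by
      obtain ⟨-, h4, h5, h6⟩ := hK' u hu
      rw [hh2 u hu] at h5 h6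
      exact ⟨by exact_mod_cast h4, by exact_mod_cast h5, by omega⟩) rfl
  have h3 : ((((pcs (tlo G T hm) (B (σ i)) (σ j)).card + min K.card f.toNat
      + ((pcs (tlo G T hm) (B (σ j)) (σ i)).card + min K'.card f'.toNat) : ℕ)) : ℤ) = k := by
    rw [hk]
    unfold pcn
    push_cast
    rw [Int.toNat_of_nonneg hf, Int.toNat_of_nonneg hf']
  rw [h3] at h2
  exact h2

end Trans

end Pool.Agent.Lib.MP_f04ccf_co
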