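import Pool.Agent.Lib.MP_f04ccf_co.M.RowN
import Pool.Agent.Lib.MP_f04ccf_co.M.ItY

/-!
MP_f04ccf_co, note 17083 (LEMMA N+): the exact slack of the row test (with the whole N-excess in `e`) is
at most twice the slack of the row test without N-excess (LEMMA N), for homes of least weight
(`2 r ≤ p`) and packings `PkPP`.  Hence in every test which contains the slot of `z` the gain counts at
least one half and no N-excess of the host `z` is left.

* `slk_int`, `slk_pc`, `slk_ne`: pure integers.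
* `Pk.bothB_le_us`, `Pk.usC_le`, `Pk.nd_ge`, `Pk.excess2`, `Pk.card_ntp_le`: the N-types of a host.
* `WCoreK.slk`, `WCoreK.slkI`: `e + k t + 2 k (s + 1) + k (2 k - 1) + R (s + k)
  ≤ 2 (mu + k) (t + 2 (s + k) + 1) + ∑ rmr`.
* `ItY.tplusN`: T+ without N-excess.
-/

set_option autoImplicit false

namespace Pool.Agent.Lib.MP_f04ccf_co

open Finset

attribute [local instance] Classical.propDecidable

section SlkInt

/-- the choice of the N-type with the largest excess -/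
theorem slk_int {ι : Type*} (N : Finset ι) (om : ι → ℤ) {D S : ℤ} (hD : 0 ≤ D)
    (h1 : D ≤ S + ∑ v ∈ N, om v) (h2 : ∀ v ∈ N, 1 ≤ om v → 2 * ((N.card : ℤ) * om v) ≤ D) :
    D ≤ 2 * S := by
  rcases N.eq_empty_or_nonempty with h0 | h0
  · rw [h0, sum_empty, add_zero] at h1
    linarith
  obtain ⟨w, hw, hmax⟩ := exists_max_image N om h0
  have h3 : ∑ v ∈ N, om v ≤ (N.card : ℤ) * om w := by
    rw [← nsmul_eq_mul, ← sum_const]
    exact sum_le_sum hmax
  by_cases h4 : 1 ≤ om w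
  · have := h2 w hw h4
    linarith
  · have h5 : (N.card : ℤ) * om w ≤ 0 :=
      mul_nonpos_of_nonneg_of_nonpos (Nat.cast_nonneg _) (by omega)
    linarith

/-- a member of a PC pair -/
lemma slk_pc {x u g c m d y D : ℤ} (hu : 0 ≤ u) (hug : u + 1 ≤ g) (hgc : g ≤ c) (hd : 0 ≤ d)
    (hdm : d ≤ m) (hom : 1 ≤ 2 * x + 1 + u - c) (hy : m + x + u + 1 - d ≤ y)
    (hD : 2 * (y * (g + (m + x) + d - 1 - m)) ≤ D) : 2 * (c * (2 * x + 1 + u - c)) ≤ D := by
  have hx : 1 ≤ x := by omega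
  have h1 : (x + u + 1) * (x + u) ≤ y * (g + (m + x) + d - 1 - m) :=
    mul_le_mul (by linarith) (by linarith) (by linarith) (by linarith)
  obtain ⟨e, he⟩ : ∃ e, e = c - u - 1 := ⟨_, rfl⟩
  have he0 : 0 ≤ e := by linarith
  have h2 : 0 ≤ (x - e) * (x - e - 1) := by
    rcases le_or_gt (x - e) 0 with h3 | h3
    · exact mul_nonneg_of_nonpos_of_nonpos h3 (by linarith)
    · exact mul_nonneg h3.le (by omega)
  have h3 : 0 ≤ e * u := mul_nonneg he0 hu
  have h4 : c = e + u + 1 := by linarith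
  rw [h4]
  nlinarith [mul_nonneg hu hu]

/-- an N-end -/
lemma slk_ne {x g c m d y D : ℤ} (hg : 0 ≤ g) (hc : 1 ≤ c) (hd : 0 ≤ d)
    (hdm : d ≤ m) (hom : 1 ≤ 2 * x - 1 - c) (hy : m + x - d ≤ y)
    (hD : 2 * (y * (g + (m + x) + d - 1 - m)) ≤ D) : 2 * (c * (2 * x - 1 - c)) ≤ D := by
  have hx : 1 ≤ x := by omega
  have h1 : x * (x - 1) ≤ y * (g + (m + x) + d - 1 - m) :=
    mul_le_mul (by linarith) (by linarith) (by linarith) (by linarith)
  have h2 : 0 ≤ (x - c) * (x - c - 1) := by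
    rcases le_or_gt (x - c) 0 with h3 | h3
    · exact mul_nonneg_of_nonpos_of_nonpos h3 (by linarith)
    · exact mul_nonneg h3.le (by omega)
  nlinarith

end SlkInt

section NT2

variable {ι V : Type*} {G : SimpleGraph V} {C H : Finset V} {tl : V → ι}
  {B : Finset (V × V)} {Ps : Finset (Finset V)}

/-- the ordered pairs with both arcs are used points -/
lemma Pk.bothB_le_us (h : Pk G C H tl B Ps) :
    bothB G tl B ≤ ∑ e ∈ B, (usC G C tl B e.1).card := by
  have h1 : ∑ e ∈ B, (usC G C tl B e.1).card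
      = (B.sigma fun e => usC G C tl B e.1).card := (card_sigma _ _).symm
  rw [h1]
  unfold bothB
  refine card_le_card_of_injOn (fun q => (⟨q.1, q.2.2⟩ : Σ _ : V × V, V)) ?_ ?_
  · intro q hq
    have hq' : q ∈ (B ×ˢ B).filter fun q => q.1.1 ≠ q.2.1 ∧ tl q.1.1 = tl q.2.1 ∧
      ¬ G.Adj q.1.1 q.2.2 ∧ ¬ G.Adj q.2.1 q.1.2 := by exact_mod_cast hq
    obtain ⟨h2, h3, h4, h5, -⟩ := mem_filter.1 hq'
    obtain ⟨h6, h7⟩ := mem_product.1 h2
    have : (⟨q.1, q.2.2⟩ : Σ _ : V × V, V) ∈ B.sigma fun e => usC G C tl B e.1 :=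
      mem_sigma.2 ⟨h6, mem_usC.2 ⟨h.bC _ h7, h5, q.2, h7, h3.symm, rfl, h4.symm⟩⟩
    exact_mod_cast this
  · intro q hq q' hq' hqq
    have hq1 : q ∈ (B ×ˢ B).filter fun q => q.1.1 ≠ q.2.1 ∧ tl q.1.1 = tl q.2.1 ∧
      ¬ G.Adj q.1.1 q.2.2 ∧ ¬ G.Adj q.2.1 q.1.2 := by exact_mod_cast hq
    have hq2 : q' ∈ (B ×ˢ B).filter fun q => q.1.1 ≠ q.2.1 ∧ tl q.1.1 = tl q.2.1 ∧
      ¬ G.Adj q.1.1 q.2.2 ∧ ¬ G.Adj q.2.1 q.1.2 := by exact_mod_cast hq'
    obtain ⟨h2, -, h4, -⟩ := mem_filter.1 hq1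
    obtain ⟨h2', -, h4', -⟩ := mem_filter.1 hq2
    simp only [Sigma.mk.injEq] at hqq
    obtain ⟨h5, h6⟩ := hqq
    have h7 : q.2.2 = q'.2.2 := eq_of_heq h6
    have h8 : q.2 = q'.2 := h.b2 _ (mem_product.1 h2).2 _ (mem_product.1 h2').2 h7
      (by rw [← h4, ← h4', h5])
    exact Prod.ext h5 h8

/-- the used copies missed by the member of a PC pair: at most one for each other PC pair of the
tail -/
lemma Pk.usC_le (h : Pk G C H tl B Ps) {e : V × V} (he : e ∈ B) :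
    (usC G C tl B e.1).card + 1 ≤ (btl tl B (tl e.1)).card := by
  have h1 : (usC G C tl B e.1).card ≤ ((btl tl B (tl e.1)).erase e).card := by
    have h2 : ∀ a ∈ usC G C tl B e.1, ∃ f ∈ B, f.1 ≠ e.1 ∧ f.2 = a ∧ tl f.1 = tl e.1 :=
      fun a ha => (mem_usC.1 ha).2.2
    choose! f hf1 hf2 hf3 hf4 using h2
    refine card_le_card_of_injOn f ?_ ?_
    · intro a ha
      have ha' : a ∈ usC G C tl B e.1 := by exact_mod_cast ha
      have : f a ∈ (btl tl B (tl e.1)).erase e :=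
        mem_erase.2 ⟨fun h3 => hf2 a ha' (by rw [h3]), mem_btl.2 ⟨hf1 a ha', hf4 a ha'⟩⟩
      exact_mod_cast this
    · intro a ha b hb hab
      have ha' : a ∈ usC G C tl B e.1 := by exact_mod_cast ha
      have hb' : b ∈ usC G C tl B e.1 := by exact_mod_cast hb
      rw [← hf3 a ha', ← hf3 b hb', hab]
  have h2 : e ∈ btl tl B (tl e.1) := mem_btl.2 ⟨he, rfl⟩
  have h3 := card_erase_add_one h2
  omega

/-- all misses of a member: free, used, own partner -/
lemma Pk.nd_ge (h : Pk G C H tl B Ps) (hHC : Disjoint H C) {v : V} (hv : v ∈ H) :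
    (frC G C tl B v).card + (usC G C tl B v).card + (if v ∈ B.image Prod.fst then 1 else 0)
      ≤ nd G C v := by
  have hne : ∀ a ∈ C, a ≠ v := fun a ha h1 => disjoint_left.1 hHC hv (h1 ▸ ha)
  have hd : Disjoint (frC G C tl B v) (usC G C tl B v) := by
    rw [disjoint_left]
    intro a ha ha'
    obtain ⟨-, -, h1⟩ := mem_frC.1 ha
    obtain ⟨-, -, e, he, -, h2, h3⟩ := mem_usC.1 ha'
    exact h1 e he h2 h3
  rw [← card_union_of_disjoint hd]
  split_ifs with h1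
  · obtain ⟨e, he, hev⟩ := mem_image.1 h1
    have h2 : e.2 ∉ frC G C tl B v ∪ usC G C tl B v := by
      intro h3
      rcases mem_union.1 h3 with h3 | h3
      · exact (mem_frC.1 h3).2.2 e he rfl (by rw [hev])
      · obtain ⟨-, -, f, hf, h4, h5, h6⟩ := mem_usC.1 h3
        have h7 := h.b2 f hf e he h5 (by rw [h6, hev])
        exact h4 (by rw [h7, hev])
    rw [← card_insert_of_notMem h2]
    refine card_le_card fun a ha => ?_
    rcases mem_insert.1 ha with rfl | ha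
    · have h3 := h.bN e he
      rw [hev] at h3
      exact mem_filter.2 ⟨h.bC e he, hne _ (h.bC e he), h3⟩
    · rcases mem_union.1 ha with ha | ha
      · obtain ⟨h3, h4, -⟩ := mem_frC.1 ha
        exact mem_filter.2 ⟨h3, hne a h3, h4⟩
      · obtain ⟨h3, h4, -⟩ := mem_usC.1 ha
        exact mem_filter.2 ⟨h3, hne a h3, h4⟩
  · rw [add_zero]
    refine card_le_card fun a ha => ?_
    rcases mem_union.1 ha with ha | ha
    · obtain ⟨h3, h4, -⟩ := mem_frC.1 ha
      exact mem_filter.2 ⟨h3, hne a h3, h4⟩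
    · obtain ⟨h3, h4, -⟩ := mem_usC.1 ha
      exact mem_filter.2 ⟨h3, hne a h3, h4⟩

variable (G) in
/-- the N-types: the members of the PC pairs and the N-ends -/
noncomputable def ntp (C H : Finset V) (tl : V → ι) (B : Finset (V × V)) : Finset V :=
  B.image Prod.fst ∪ Nend G C H tl B

lemma ntp_disj : Disjoint (B.image Prod.fst) (Nend G C H tl B) := by
  rw [disjoint_left]
  intro v hv hv'
  exact (mem_sdiff.1 (mem_Nend.1 hv').1).2 hv

lemma Pk.card_ntp (h : Pk G C H tl B Ps) :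
    (ntp G C H tl B).card = B.card + (Nend G C H tl B).card := by
  unfold ntp
  rw [card_union_of_disjoint ntp_disj, h.card_W]

lemma Pk.ntp_sub (h : Pk G C H tl B Ps) : ntp G C H tl B ⊆ H :=
  union_subset h.W_sub fun _ hv => (mem_sdiff.1 (mem_Nend.1 hv).1).1

/-- the number of N-types is at most the value -/
theorem Pk.card_ntp_le (h : Pk G C H tl B Ps)
    (hmin : ∀ B' Ps', Pk G C H tl B' Ps' → Ps.card ≤ Ps'.card)
    (h32 : ∀ v ∈ H, ∀ w ∈ H, ∀ a ∈ C, v ≠ w → tl v = tl w →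
      ¬ G.Adj v a → ¬ G.Adj w a → G.Adj v w) {Y : Finset ι} (hY : ∀ v ∈ H, tl v ∈ Y) :
    (ntp G C H tl B).card + Ps.card ≤ H.card := by
  have h1 := h.sum_card_ntl hmin h32 hY
  have h2 : ∑ j ∈ Y, (ntl G C H tl B j).card = B.card + (Nend G C H tl B).card := by
    rw [sum_congr rfl fun j _ => h.card_ntl j, sum_add_distrib]
    congr 1
    · exact (card_eq_sum_card_fiberwise (f := fun e : V × V => tl e.1) (t := Y) fun e he => by
        exact_mod_cast hY _ (h.bH e (by exact_mod_cast he))).symm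
    · exact (card_eq_sum_card_fiberwise (f := tl) (t := Y) fun v hv => by
        have h2 : v ∈ Nend G C H tl B := by exact_mod_cast hv
        exact_mod_cast hY _ (mem_sdiff.1 (mem_Nend.1 h2).1).1).symm
  rw [h.card_ntp, ← h2]
  exact h1

/-- **the excess, N-type by N-type** -/
theorem Pk.excess2 (h : Pk G C H tl B Ps) {Y : Finset ι} (hY : ∀ v ∈ H, tl v ∈ Y) :
    nbk G C H tl B Ps + 2 * ∑ j ∈ Y, nxk G C H tl B j
      ≤ ∑ v ∈ ntp G C H tl B, (2 * ((frC G C tl B v).card : ℤ)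
        + if v ∈ B.image Prod.fst then 2 + ((usC G C tl B v).card : ℤ) else 0) := by
  have h1 : (bothB G tl B : ℤ) ≤ ∑ e ∈ B, ((usC G C tl B e.1).card : ℤ) := by
    exact_mod_cast h.bothB_le_us
  have h3 : (0 : ℤ) ≤ ∑ e ∈ B, ((Ps.card - Pk.uin G tl (H \ B.image Prod.fst) e : ℕ) : ℤ) :=
    sum_nonneg fun _ _ => Nat.cast_nonneg _
  have hN : ∀ v ∈ Nend G C H tl B, tl v ∈ Y := fun v hv =>
    hY v (mem_sdiff.1 (mem_Nend.1 hv).1).1
  have h4 : 2 * ∑ j ∈ Y, nxk G C H tl B j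
      ≤ 2 * ∑ v ∈ Nend G C H tl B, ((frC G C tl B v).card : ℤ) := by
    have h5 : ∑ v ∈ Nend G C H tl B, ((frC G C tl B v).card : ℤ)
        = ∑ j ∈ Y, ∑ v ∈ nez G C H tl B j, ((frC G C tl B v).card : ℤ) :=
      (sum_fiberwise_of_maps_to hN fun v => ((frC G C tl B v).card : ℤ)).symm
    rw [h5, mul_sum, mul_sum]
    refine sum_le_sum fun j _ => ?_
    have e2 := two_nxk (G := G) C H tl B j
    have e4 : (0 : ℤ) ≤ E G (nez G C H tl B j) := Nat.cast_nonneg _
    linarith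
  have h5 : ∑ v ∈ ntp G C H tl B, (2 * ((frC G C tl B v).card : ℤ)
        + if v ∈ B.image Prod.fst then 2 + ((usC G C tl B v).card : ℤ) else 0)
      = ∑ e ∈ B, (2 * ((frC G C tl B e.1).card : ℤ) + (2 + ((usC G C tl B e.1).card : ℤ)))
        + ∑ v ∈ Nend G C H tl B, 2 * ((frC G C tl B v).card : ℤ) := by
    unfold ntp
    rw [sum_union ntp_disj]
    congr 1
    · rw [sum_image fun e he f hf hef =>
        h.b1 e (by exact_mod_cast he) f (by exact_mod_cast hf) hef]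
      exact sum_congr rfl fun e he => by rw [if_pos (mem_image_of_mem _ he)]
    · exact sum_congr rfl fun v hv => by
        rw [if_neg fun h6 => disjoint_left.1 ntp_disj h6 hv, add_zero]
  rw [h5]
  unfold nbk
  simp only [sum_add_distrib, ← mul_sum, sum_const, nsmul_eq_mul, mul_one]
  linarith

end NT2

section Slk

variable {V : Type*} {G : SimpleGraph V} {Z T : Finset V} {hm : V → V} {r m n p : ℕ}
  {φ : Finset (V × V) → Finset (Finset V) → ℕ}

/-- all misses of a member at home are at most the misses at the tail -/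
lemma WCoreK.nd_le_tail (hp : 2 * r ≤ p) (h : WCoreK G Z T r m n p hm) {z v : V} (hzT : z ∈ T)
    (hv : v ∈ hz G Z T hm z) :
    nd G (cz G Z T hm z) v ≤ (msd G (cz G Z T hm (tlo G T hm v)) v).card := by
  have h0 := h.toWHom.ht z hzT v hv
  obtain ⟨h2, h3⟩ := mem_filter.1 (mem_HP.1 hv).1
  have h4 := h.csys.ends_of_tlo h.hh hzT hv rfl
  have h5 : tlo G T hm v ∈ rws G T v := by
    rw [rws_BB (h.hsys.HP_BB h.F.toPFrame h.ok hv), h4.2]
    simp
  rw [msd_card]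
  exact h.H.kap_plain h.F.toPFrame h.hmr hp h.hsys h2 h3 (mem_of_mem_erase h0)
    (ne_of_mem_erase h0) h5

/-- **LEMMA N+**: the exact slack of the row test (with all N-excess) is at most twice the slack of
the row test without N-excess.  So every gain in a test which contains the slot of `z` counts at least
one half -/
theorem WCoreK.slk (hp : 2 * r ≤ p) (h : WCoreK G Z T r m n p hm) {B : V → Finset (V × V)}
    {Ps : V → Finset (Finset V)}
    (hB : ∀ x ∈ T, PkPP G (cz G Z T hm x) (hz G Z T hm x) (tlo G T hm) φ (B x) (Ps x))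
    {z : V} (hzT : z ∈ T) {K : Finset (Itm V)}
    (hK : K ⊆ (T.erase z).biUnion fun x => pkf (B x) (Ps x))
    (h0 : 0 ≤ sI hm r Z z + ∑ u ∈ K, (ikp (tlo G T hm) z u : ℤ)) :
    eI G hm Z z + (∑ u ∈ K, (ikp (tlo G T hm) z u : ℤ)) * tI G Z T hm r Z z
        + 2 * (∑ u ∈ K, (ikp (tlo G T hm) z u : ℤ)) * (sI hm r Z z + 1)
        + (∑ u ∈ K, (ikp (tlo G T hm) z u : ℤ))
          * (2 * (∑ u ∈ K, (ikp (tlo G T hm) z u : ℤ)) - 1)
        + ((r : ℤ) - 1) * (sI hm r Z z + ∑ u ∈ K, (ikp (tlo G T hm) z u : ℤ))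
      ≤ 2 * ((∑ u ∈ pkf (B z) (Ps z), (ivl u : ℤ) + ∑ u ∈ K, (ikp (tlo G T hm) z u : ℤ))
          * (tI G Z T hm r Z z
            + 2 * (sI hm r Z z + ∑ u ∈ K, (ikp (tlo G T hm) z u : ℤ)) + 1))
        + ∑ u ∈ K, (rmr G (cz G Z T hm) (tlo G T hm) z u : ℤ) := by
  set C := cz G Z T hm with hCdef
  set H := hz G Z T hm with hHdef
  set tl := tlo G T hm with htl
  have hF := h.F.toPFrame
  have hfam : ∀ x ∈ T, Fam (co G) C H tl x (pkf (B x) (Ps x)) := fun x hx =>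
    (hB x hx).toPk.fam (h.csys.dCH hx hx).symm
  have hpk := hB z hzT
  have hcard : ((C z).card : ℤ) = (r : ℤ) - 1 - tI G Z T hm r Z z := card_CP_eq Z z
  have hmu0 : 0 ≤ ∑ u ∈ pkf (B z) (Ps z), (ivl u : ℤ) := sum_nonneg fun _ _ => Nat.cast_nonneg _
  have hk0 : 0 ≤ ∑ u ∈ K, (ikp tl z u : ℤ) := sum_nonneg fun _ _ => Nat.cast_nonneg _
  set K' := K.filter fun u => ikp tl z u ≠ 0 with hK'
  have e1 : ∑ u ∈ K, (rmr G C tl z u : ℤ) = ∑ u ∈ K', (rmr G C tl z u : ℤ) := by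
    rw [hK', sum_filter]
    refine sum_congr rfl fun u hu => ?_
    by_cases h1 : ikp tl z u = 0
    · have h2 := rcl_card_le (G := G) (C := C) (tl := tl) (X := fun Q => one1 (oth tl z Q))
        (z := z) (u := u)
      rw [h1, Nat.zero_mul] at h2
      have h3 : rmr G C tl z u = 0 := Nat.le_zero.1 h2
      rw [h3, h1]
      simp
    · simp only [ne_eq, h1, not_false_iff, if_true]
  have e2 : ∑ u ∈ K, (ikp tl z u : ℤ) = ∑ u ∈ K', (ikp tl z u : ℤ) := by
    rw [hK', sum_filter]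
    refine sum_congr rfl fun u _ => ?_
    by_cases h1 : ikp tl z u = 0
    · rw [h1]
      simp
    · simp only [ne_eq, h1, not_false_iff, if_true]
  have hK'K : K' ⊆ (T.erase z).biUnion fun x => pkf (B x) (Ps x) := (filter_subset _ _).trans hK
  have hk' : ∀ u ∈ K', ikp tl z u ≠ 0 := fun u hu => (mem_filter.1 hu).2
  rw [e1]
  rw [e2] at h0 hk0 ⊢
  have h5 := two_eI (G := G) (hm := hm) Z z
  have h6 : (((Z.filter fun v => hm v = z).card : ℤ) - r) = sI hm r Z z := rfl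
  have e3 : ∑ u ∈ K', (((C z).card : ℤ) * ikp tl z u
      - (rcl G C tl (fun Q => one1 (oth tl z Q)) z u).card)
      = ((r : ℤ) - 1 - tI G Z T hm r Z z) * ∑ u ∈ K', (ikp tl z u : ℤ)
        - ∑ u ∈ K', (rmr G C tl z u : ℤ) := by
    rw [sum_sub_distrib, ← mul_sum, hcard]
    rfl
  have hh0 : 0 ≤ ((Z.filter fun v => hm v = z).card : ℤ) - r + 1
      + ∑ u ∈ K', (ikp tl z u : ℤ) := by
    rw [h6]
    linarith
  have h1 := Fam.row_one h.gp.P h.csys h.wsysT hfam hzT hK'K hk'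
    (X := fun Q => one1 (oth tl z Q)) (fun Q => one1_sub _) (fun Q => card_one1 _) hh0
  -- the energy
  have hYt : ∀ v ∈ H z, tl v ∈ T.erase z := h.toWHom.ht z hzT
  have hHC : Disjoint (H z) (C z) := (h.csys.dCH hzT hzT).symm
  have h32 := h.csys.h32 hF h.hh h.toWHom.ht hzT
  have en := PkPP.energyK hF h.hh h.csys h.toWHom.ht hzT hpk
  have hex := hpk.toPk.excess2 hYt
  have hcn := hpk.toPk.card_ntp_le hpk.min h32 hYt
  have hiv := hpk.toPk.sum_ivl
  have hmu : ((ntp G (C z) (H z) tl (B z)).card : ℤ)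
      ≤ ∑ u ∈ pkf (B z) (Ps z), (ivl u : ℤ) := by
    have h2 : (ntp G (C z) (H z) tl (B z)).card
        ≤ ∑ u ∈ pkf (B z) (Ps z), ivl u := by omega
    exact_mod_cast h2
  have hh := hI_eq (G := G) (Z := Z) (T := T) (hm := hm) (r := r) Z z
  obtain ⟨Δ, hΔ⟩ : ∃ Δ : ℤ, Δ = 2 * eI G hm Z z
      + 4 * (∑ u ∈ K', (ikp tl z u : ℤ)) * (sI hm r Z z + 1)
      + 2 * (∑ u ∈ K', (ikp tl z u : ℤ)) * (2 * (∑ u ∈ K', (ikp tl z u : ℤ)) - 1)
      - 2 * ((r : ℤ) - 1) * sI hm r Z z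
      - 2 * (((r : ℤ) - 1 - tI G Z T hm r Z z) * ∑ u ∈ K', (ikp tl z u : ℤ)
        - ∑ u ∈ K', (rmr G C tl z u : ℤ)) :=
    ⟨_, rfl⟩
  have hΔ0 : 0 ≤ Δ := by
    rw [e3, h6, ← h5] at h1
    linarith
  set N := ntp G (C z) (H z) tl (B z) with hN
  obtain ⟨om, hom⟩ : ∃ om : V → ℤ, om = fun v => (2 * ((frC G (C z) tl (B z) v).card : ℤ)
      + if v ∈ (B z).image Prod.fst then 2 + ((usC G (C z) tl (B z) v).card : ℤ) else 0)
      - 2 * (sI hm r Z z + 2 * ∑ u ∈ K', (ikp tl z u : ℤ)) - (N.card + 1) := ⟨_, rfl⟩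
  have hsum : ∑ v ∈ N, om v = ∑ v ∈ N, (2 * ((frC G (C z) tl (B z) v).card : ℤ)
      + if v ∈ (B z).image Prod.fst then 2 + ((usC G (C z) tl (B z) v).card : ℤ) else 0)
      - N.card * (2 * (sI hm r Z z + 2 * ∑ u ∈ K', (ikp tl z u : ℤ)) + (N.card + 1)) := by
    rw [hom]
    simp only [sum_sub_distrib, sum_const, nsmul_eq_mul]
    ring
  have key := slk_int N om (D := Δ)
    (S := 2 * ((∑ u ∈ pkf (B z) (Ps z), (ivl u : ℤ) + ∑ u ∈ K', (ikp tl z u : ℤ))
        * (tI G Z T hm r Z z + 2 * (sI hm r Z z + ∑ u ∈ K', (ikp tl z u : ℤ)) + 1))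
      + 2 * ∑ u ∈ K', (rmr G C tl z u : ℤ)
      - 2 * (((r : ℤ) - 1) * (sI hm r Z z + ∑ u ∈ K', (ikp tl z u : ℤ)))) hΔ0 ?_ ?_
  · rw [hΔ] at key
    generalize ∑ u ∈ pkf (B z) (Ps z), (ivl u : ℤ) = μ at *
    generalize ∑ u ∈ K', (ikp tl z u : ℤ) = k at *
    generalize ∑ u ∈ K', (rmr G C tl z u : ℤ) = ρ at *
    generalize tI G Z T hm r Z z = τ at *
    generalize sI hm r Z z = s at *
    generalize eI G hm Z z = e at *
    nlinarith
  · rw [hsum]
    rw [hh] at en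
    have en' : 2 * eI G hm Z z + (∑ u ∈ pkf (B z) (Ps z), (ivl u : ℤ))
        * (∑ u ∈ pkf (B z) (Ps z), (ivl u : ℤ) + 1)
      ≤ 2 * ((∑ u ∈ pkf (B z) (Ps z), (ivl u : ℤ))
          * (tI G Z T hm r Z z + sI hm r Z z + 1))
        + nbk G (C z) (H z) tl (B z) (Ps z)
        + 2 * ∑ j ∈ T.erase z, nxk G (C z) (H z) tl (B z) j := en
    have hc0 : (0 : ℤ) ≤ N.card := Nat.cast_nonneg _
    generalize ∑ v ∈ N, (2 * ((frC G (C z) tl (B z) v).card : ℤ)
      + if v ∈ (B z).image Prod.fst then 2 + ((usC G (C z) tl (B z) v).card : ℤ) else 0)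
        = a1 at *
    generalize ∑ j ∈ T.erase z, nxk G (C z) (H z) tl (B z) j = a3 at *
    generalize nbk G (C z) (H z) tl (B z) (Ps z) = a4 at *
    generalize ((N.card : ℕ) : ℤ) = c at *
    generalize ∑ u ∈ pkf (B z) (Ps z), (ivl u : ℤ) = μ at *
    generalize ∑ u ∈ K', (ikp tl z u : ℤ) = k at *
    generalize ∑ u ∈ K', (rmr G C tl z u : ℤ) = ρ at *
    generalize tI G Z T hm r Z z = τ at *
    generalize sI hm r Z z = s at *
    generalize eI G hm Z z = e at *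
    rw [hΔ]
    have h7 : 0 ≤ (μ - c) * (μ + c + 1 + 2 * (s + 2 * k)) :=
      mul_nonneg (by linarith) (by linarith)
    nlinarith
  · intro v hv hv1
    have hvH : v ∈ H z := hpk.toPk.ntp_sub hv
    have hnd := h.nd_le_tail hp hzT hvH
    have hge := hpk.toPk.nd_ge hHC hvH
    have hj := hYt v hvH
    set W : Finset V := K'.biUnion (rpts tl (fun Q => one1 (oth tl z Q)) z) with hW
    set Y : Finset V := msd G (C (tl v)) v \ W with hY
    have hYC : Y ⊆ C (tl v) := fun y hy => (mem_filter.1 (mem_sdiff.1 hy).1).1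
    have hYW : Disjoint W Y := disjoint_sdiff
    have hgk := Fam.card_cls h.wsysT hfam (z := z) (mem_of_mem_erase hj) hK'K hk'
      (X := fun Q => one1 (oth tl z Q)) (fun Q => one1_sub _)
    have hq : ∀ y ∈ Y, ((btl tl (B z) (tl v)).card : ℤ) + (frC G (C z) tl (B z) v).card
        ≤ (dg G (Z.filter fun w => hm w = z) y : ℤ) := by
      intro y hy
      have h7 : ¬ G.Adj v y := (mem_filter.1 (mem_sdiff.1 hy).1).2.2
      have h8 := hpk.toPk.slot_hits h.wsysT hzT hvH (y := y) (hYC hy) h7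
      have h9 : (btl tl (B z) (tl v)).card + (frC G (C z) tl (B z) v).card
          ≤ dg G (Z.filter fun w => hm w = z) y := h8
      exact_mod_cast h9
    have h2 := Fam.row_x hF h.gp.P h.csys h.wsysT hfam hzT hj hK'K hk'
      (X := fun Q => one1 (oth tl z Q)) (fun Q => one1_sub _) (fun Q => card_one1 _) hYC hYW hq hh0
    have hYc : (msd G (C (tl v)) v).card ≤ Y.card + (W ∩ C (tl v)).card := by
      have h3 : msd G (C (tl v)) v ⊆ Y ∪ (W ∩ C (tl v)) := by
        intro y hy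
        by_cases hyW : y ∈ W
        · exact mem_union_right _ (mem_inter.2 ⟨hyW, (mem_filter.1 hy).1⟩)
        · exact mem_union_left _ (mem_sdiff.2 ⟨hy, hyW⟩)
      exact (card_le_card h3).trans (card_union_le _ _)
    have hgk' : ((W ∩ C (tl v)).card : ℤ) ≤ ∑ u ∈ K', (ikp tl z u : ℤ) := by exact_mod_cast hgk
    rw [e3, h6, ← h5] at h2
    have h2' : 2 * (Y.card * (((btl tl (B z) (tl v)).card : ℤ)
        + (sI hm r Z z + 2 * ∑ u ∈ K', (ikp tl z u : ℤ) + (((frC G (C z) tl (B z) v).card : ℤ)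
          - (sI hm r Z z + 2 * ∑ u ∈ K', (ikp tl z u : ℤ))))
        + ((W ∩ C (tl v)).card : ℤ) - 1 - (sI hm r Z z + 2 * ∑ u ∈ K', (ikp tl z u : ℤ))))
        ≤ Δ := by
      have e4 : ((btl tl (B z) (tl v)).card : ℤ)
        + (sI hm r Z z + 2 * ∑ u ∈ K', (ikp tl z u : ℤ) + (((frC G (C z) tl (B z) v).card : ℤ)
          - (sI hm r Z z + 2 * ∑ u ∈ K', (ikp tl z u : ℤ))))
        + ((W ∩ C (tl v)).card : ℤ) - 1 - (sI hm r Z z + 2 * ∑ u ∈ K', (ikp tl z u : ℤ))
        = ((btl tl (B z) (tl v)).card : ℤ) + (frC G (C z) tl (B z) v).card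
          + ((W ∩ C (tl v)).card : ℤ) - (sI hm r Z z + 1)
          - 2 * ∑ u ∈ K', (ikp tl z u : ℤ) := by ring
      rw [e4, hΔ]
      have h2'' : 2 * ((r : ℤ) - 1) * sI hm r Z z
        + 2 * (((r : ℤ) - 1 - tI G Z T hm r Z z) * ∑ u ∈ K', (ikp tl z u : ℤ)
          - ∑ u ∈ K', (rmr G C tl z u : ℤ))
        + 2 * (Y.card * (((btl tl (B z) (tl v)).card : ℤ) + (frC G (C z) tl (B z) v).card
          + ((W ∩ C (tl v)).card : ℤ) - (sI hm r Z z + 1) - 2 * ∑ u ∈ K', (ikp tl z u : ℤ)))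
        ≤ 2 * eI G hm Z z + 4 * (∑ u ∈ K', (ikp tl z u : ℤ)) * (sI hm r Z z + 1)
          + 2 * (∑ u ∈ K', (ikp tl z u : ℤ)) * (2 * (∑ u ∈ K', (ikp tl z u : ℤ)) - 1) := h2
      linarith
    have hd0 : (0 : ℤ) ≤ ((W ∩ C (tl v)).card : ℤ) := Nat.cast_nonneg _
    have hdm : ((W ∩ C (tl v)).card : ℤ) ≤ sI hm r Z z + 2 * ∑ u ∈ K', (ikp tl z u : ℤ) := by
      linarith
    have hu0 : (0 : ℤ) ≤ ((usC G (C z) tl (B z) v).card : ℤ) := Nat.cast_nonneg _
    have hc1 : 1 ≤ N.card := card_pos.2 ⟨v, hv⟩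
    rw [hom] at hv1 ⊢
    by_cases hpc : v ∈ (B z).image Prod.fst
    · simp only [hpc, if_true] at hv1 hge ⊢
      obtain ⟨e, he, hev⟩ := mem_image.1 hpc
      have hus := hpk.toPk.usC_le (e := e) he
      rw [hev] at hus
      have hbt : (btl tl (B z) (tl v)).card ≤ N.card := by
        have h7 : N.card = (B z).card + (Nend G (C z) (H z) tl (B z)).card :=
          hpk.toPk.card_ntp
        have h8 : (btl tl (B z) (tl v)).card ≤ (B z).card := card_filter_le _ _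
        omega
      have hY1 : ((frC G (C z) tl (B z) v).card : ℤ) + (usC G (C z) tl (B z) v).card + 1
          - (W ∩ C (tl v)).card ≤ Y.card := by
        have h9 : (frC G (C z) tl (B z) v).card + (usC G (C z) tl (B z) v).card + 1
          ≤ Y.card + (W ∩ C (tl v)).card := by
          have : (frC G (C z) tl (B z) v).card + (usC G (C z) tl (B z) v).card + 1
            ≤ nd G (C z) v := hge
          exact this.trans (hnd.trans hYc)
        have h10 : ((frC G (C z) tl (B z) v).card : ℤ) + (usC G (C z) tl (B z) v).card + 1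
          ≤ Y.card + (W ∩ C (tl v)).card := by exact_mod_cast h9
        linarith
      have h11 := slk_pc (x := ((frC G (C z) tl (B z) v).card : ℤ)
          - (sI hm r Z z + 2 * ∑ u ∈ K', (ikp tl z u : ℤ)))
        (u := ((usC G (C z) tl (B z) v).card : ℤ)) (g := ((btl tl (B z) (tl v)).card : ℤ))
        (c := (N.card : ℤ)) (m := sI hm r Z z + 2 * ∑ u ∈ K', (ikp tl z u : ℤ))
        (d := ((W ∩ C (tl v)).card : ℤ)) (y := (Y.card : ℤ)) (D := Δ) hu0
        (by exact_mod_cast hus) (by exact_mod_cast hbt) hd0 hdm (by linarith) (by linarith) h2'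
      have e5 : ∀ a b c m : ℤ, 2 * (c * (2 * a + (2 + b) - 2 * m - (c + 1)))
          = 2 * (c * (2 * (a - m) + 1 + b - c)) := fun a b c m => by ring
      rw [e5]
      exact h11
    · simp only [hpc, if_false] at hv1 hge ⊢
      have hY1 : ((frC G (C z) tl (B z) v).card : ℤ) - (W ∩ C (tl v)).card ≤ Y.card := by
        have h9 : (frC G (C z) tl (B z) v).card ≤ Y.card + (W ∩ C (tl v)).card := by
          have : (frC G (C z) tl (B z) v).card + (usC G (C z) tl (B z) v).card + 0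
            ≤ nd G (C z) v := hge
          exact (by omega : (frC G (C z) tl (B z) v).card ≤ nd G (C z) v).trans
            (hnd.trans hYc)
        have h10 : ((frC G (C z) tl (B z) v).card : ℤ)
          ≤ Y.card + (W ∩ C (tl v)).card := by exact_mod_cast h9
        linarith
      have h11 := slk_ne (x := ((frC G (C z) tl (B z) v).card : ℤ)
          - (sI hm r Z z + 2 * ∑ u ∈ K', (ikp tl z u : ℤ)))
        (g := ((btl tl (B z) (tl v)).card : ℤ))
        (c := (N.card : ℤ)) (m := sI hm r Z z + 2 * ∑ u ∈ K', (ikp tl z u : ℤ))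
        (d := ((W ∩ C (tl v)).card : ℤ)) (y := (Y.card : ℤ)) (D := Δ)
        (Nat.cast_nonneg _) (by exact_mod_cast hc1) hd0 hdm (by linarith) (by linarith) h2'
      have e5 : ∀ a c m : ℤ, 2 * (c * (2 * a + 0 - 2 * m - (c + 1)))
          = 2 * (c * (2 * (a - m) - 1 - c)) := fun a c m => by ring
      rw [e5]
      exact h11

end Slk

section SlkI

variable {V : Type*} {G : SimpleGraph V} {Z T : Finset V} {hm : V → V} {r m n p : ℕ}
  {φ : Finset (V × V) → Finset (Finset V) → ℕ} {B : V → Finset (V × V)}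
  {Ps : V → Finset (Finset V)} {host : Itm V → V} {ρ : V → ℕ} {σ : ℕ → V}

/-- **LEMMA N+ over the integers of `WItK`** -/
theorem WCoreK.slkI (hp : 2 * r ≤ p) (h : WCoreK G Z T r m n p hm)
    (W : WItK G Z T hm r n φ B Ps host ρ σ) {i : ℕ} (hi : i < n) {K : Finset (Itm V)}
    (hK : K ⊆ T.biUnion fun x => pkf (B x) (Ps x)) (hho : ∀ u ∈ K, ρ (host u) ≠ i)
    (h0 : 0 ≤ sI hm r Z (σ i) + ∑ u ∈ K, (ikp (tlo G T hm) (σ i) u : ℤ)) :
    eI G hm Z (σ i)
        + (∑ u ∈ K, (ikp (tlo G T hm) (σ i) u : ℤ)) * tI G Z T hm r Z (σ i)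
        + 2 * (∑ u ∈ K, (ikp (tlo G T hm) (σ i) u : ℤ)) * (sI hm r Z (σ i) + 1)
        + (∑ u ∈ K, (ikp (tlo G T hm) (σ i) u : ℤ))
          * (2 * (∑ u ∈ K, (ikp (tlo G T hm) (σ i) u : ℤ)) - 1)
        + ((r : ℤ) - 1) * (sI hm r Z (σ i) + ∑ u ∈ K, (ikp (tlo G T hm) (σ i) u : ℤ))
      ≤ 2 * ((∑ u ∈ pkf (B (σ i)) (Ps (σ i)), (ivl u : ℤ)
          + ∑ u ∈ K, (ikp (tlo G T hm) (σ i) u : ℤ))
          * (tI G Z T hm r Z (σ i)
            + 2 * (sI hm r Z (σ i) + ∑ u ∈ K, (ikp (tlo G T hm) (σ i) u : ℤ)) + 1))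
        + ∑ u ∈ K, (rmr G (cz G Z T hm) (tlo G T hm) (σ i) u : ℤ) := by
  have hiT : i < T.card := by
    rw [W.cT]
    exact hi
  refine h.slk hp W.pk (W.rk.mem i hiT) (fun u hu => ?_) h0
  obtain ⟨x, hx, hux⟩ := mem_biUnion.1 (hK hu)
  refine mem_biUnion.2 ⟨x, mem_erase.2 ⟨fun h1 => hho u hu ?_, hx⟩, hux⟩
  rw [W.hst x hx u hux, h1]
  exact W.rk.right i hiT

end SlkI

section TPlusN

variable {ι : Type*} {R : ℤ} {n : ℕ} {t s h e : ℕ → ℤ} {E : ℕ → ℕ → ℤ} {U : Finset ι} {ho : ι → ℕ}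
  {vl : ι → ℤ} {kp ms mr : ℕ → ι → ℤ} {mu Nb : ℕ → ℤ} {Nx : ℕ → ℕ → ℤ} {be : ℕ → ℕ → ℤ}
  {ls : ℕ → ℤ → ℤ} {pc ar : ι → ℤ} {aT : ℕ → ℤ}

/-- **T+ without N-excess (LEMMA N+), items of the row `j` only**: `k` the load of the items `K`, `q`
the PC pairs among them.  The gain counts one half -/
theorem ItY.tplusN (H : ItY R n t s h e E U ho vl kp ms mr mu Nb Nx be ls pc ar aT) {i j : ℕ}
    (hi : i < n) (hj : j < n) (hij : i ≠ j) {K : Finset ι} (hK : K ⊆ U)
    (hKh : ∀ u ∈ K, ho u = j) {k q : ℤ} (hk : k = ∑ u ∈ K, kp i u)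
    (hq : q = ∑ u ∈ K, pc u * kp i u) (h0 : 0 ≤ s i + k)
    (hs : e i + k * t i + 2 * k * (s i + 1) + k * (2 * k - 1) + R * (s i + k)
      ≤ 2 * ((mu i + k) * (t i + 2 * (s i + k) + 1)) + ∑ u ∈ K, mr i u) :
    2 * (R * (s i + k)) + (∑ u ∈ U.filter (fun u => ho u = i), (kp j u * (R - t j) - ms j u)
        - (R - t j) * (s i + 1))
      ≤ 2 * ((mu i + k) * (t i + 2 * (s i + k) + 1)) + 2 * ∑ u ∈ K, mr i u
        + ∑ u ∈ K, ar u + q * be i j := by
  have h1 := H.rowc i hi j hj hij K hK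
    (fun u hu h2 => hij (h2.symm.trans (hKh u hu))) (by rw [← hk]; exact h0)
  have e0 : ∀ f g : ι → ℤ, ∑ u ∈ K, (if ho u = j then f u else g u) = ∑ u ∈ K, f u :=
    fun f g => sum_congr rfl fun u hu => if_pos (hKh u hu)
  have e1 : ∑ u ∈ K, (2 * kp i u - if ho u = j then pc u * kp i u else 0) = 2 * k - q := by
    rw [sum_sub_distrib, ← mul_sum, ← hk, e0, hq]
  have e2 : ∑ u ∈ K, (kp i u * (R - t i) - mr i u) = k * (R - t i) - ∑ u ∈ K, mr i u := by
    rw [sum_sub_distrib, ← sum_mul, ← hk]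
  rw [e1, e0, e0, ← hq, e2] at h1
  have hkp : ∀ u ∈ K, 0 ≤ kp i u := fun u hu => H.k0 u (hK hu) i hi
  have hq1 : q ≤ k := by
    rw [hk, hq]
    refine sum_le_sum fun u hu => ?_
    have h2 := H.pc1 u (hK hu)
    have h3 := hkp u hu
    nlinarith
  have hq0 : 0 ≤ q := by
    rw [hq]
    exact sum_nonneg fun u hu => mul_nonneg (H.pc0 u (hK hu)) (hkp u hu)
  have h4 : 0 ≤ q * (2 * (s i + k) + (2 * k - q) + 1) := mul_nonneg hq0 (by linarith)
  generalize ∑ u ∈ U.filter (fun u => ho u = i), (kp j u * (R - t j) - ms j u) = a1 at *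
  generalize ∑ u ∈ K, mr i u = a2 at *
  generalize ∑ u ∈ K, ar u = a3 at *
  generalize s i = x1 at *
  generalize t i = x2 at *
  generalize t j = x3 at *
  generalize mu i = x4 at *
  generalize e i = x5 at *
  generalize be i j = x6 at *
  nlinarith

end TPlusN

end Pool.Agent.Lib.MP_f04ccf_co
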