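import Pool.Agent.Lib.MP_f04ccf_co.M.MatI
import Pool.Agent.Lib.MP_f04ccf_co.M.TurE

/-!
MP_f04ccf_co, PLAN W (note 16765 ff.): the row test of the items with Turan's bound on the points used.
`xmn`: the best point outside (least number of misses), `imn`: the misses with it.  `rpts_xmn`: exactly
`load + 1` points.  `Fam.row_ne`: the row test with the missing pairs of the points, `Fam.row_mn`:
with Turan's bound over the tails of `T`.
-/

set_option autoImplicit false

namespace Pool.Agent.Lib.MP_f04ccf_co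

open Finset

attribute [local instance] Classical.propDecidable

section Mn

variable {ι V : Type*} {G F : SimpleGraph V}

/-- the columns which miss a point of `Q` with tail `z` and the point `v` -/
noncomputable def dcl (G : SimpleGraph V) (C : ι → Finset V) (tl : V → ι) (z : ι) (Q : Finset V)
    (v : V) : Finset V := (C z).filter fun c => Dfc G tl Q {v} z c

/-- the best point outside -/
noncomputable def xmn (G : SimpleGraph V) (C : ι → Finset V) (tl : V → ι) (z : ι) (Q : Finset V) :
    Finset V :=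
  if h : (oth tl z Q).Nonempty then
    {(exists_min_image (oth tl z Q) (fun v => (dcl G C tl z Q v).card) h).choose} else ∅

lemma xmn_sub {C : ι → Finset V} {tl : V → ι} {z : ι} {Q : Finset V} :
    xmn G C tl z Q ⊆ oth tl z Q := by
  unfold xmn
  split_ifs with h
  · exact singleton_subset_iff.2
      (exists_min_image (oth tl z Q) (fun v => (dcl G C tl z Q v).card) h).choose_spec.1
  · exact empty_subset _

lemma xmn_card {C : ι → Finset V} {tl : V → ι} {z : ι} {Q : Finset V}
    (h : (oth tl z Q).Nonempty) : (xmn G C tl z Q).card = 1 := by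
  unfold xmn
  rw [dif_pos h, card_singleton]

lemma xmn_le {C : ι → Finset V} {tl : V → ι} {z : ι} {Q : Finset V} {v : V}
    (hv : v ∈ oth tl z Q) :
    ((C z).filter fun c => Dfc G tl Q (xmn G C tl z Q) z c).card ≤ (dcl G C tl z Q v).card := by
  have h : (oth tl z Q).Nonempty := ⟨v, hv⟩
  unfold xmn
  rw [dif_pos h]
  exact (exists_min_image (oth tl z Q) (fun v => (dcl G C tl z Q v).card) h).choose_spec.2 v hv

/-- the misses with the best point outside -/
noncomputable def imn (G : SimpleGraph V) (C : ι → Finset V) (tl : V → ι) (z : ι) (u : Itm V) : ℕ :=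
  (rcl G C tl (xmn G C tl z) z u).card

lemma ims_le_imn {C : ι → Finset V} {tl : V → ι} {z : ι} {u : Itm V} :
    ims G C tl z u ≤ imn G C tl z u := by
  refine card_le_card ?_
  rcases u with Q | e
  · unfold icl
    simp only [rcl]
    split_ifs
    · exact subset_rfl
    · intro c hc
      obtain ⟨h1, h2, h3⟩ := mem_filter.1 hc
      exact mem_filter.2 ⟨h1, h2, fun v hv => h3 v (xmn_sub hv)⟩
  · exact subset_rfl

lemma imn_load {C : ι → Finset V} {tl : V → ι} {z : ι} {u : Itm V} :
    imn G C tl z u ≤ ikp tl z u * (C z).card := rcl_card_le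

/-- for pairs the misses are the same -/
lemma imn_eq {C : ι → Finset V} {tl : V → ι} {z : ι} {u : Itm V} (h : ivl u = 1)
    (hk : ikp tl z u ≠ 0) : imn G C tl z u = ims G C tl z u := by
  rcases u with Q | e
  · unfold imn ims icl
    have h1 : (oth tl z Q).card ≤ 1 := by
      simp only [ivl] at h
      by_cases hone : tlp tl Q z = Q
      · unfold oth
        rw [hone, sdiff_self]
        simp
      · simp only [ikp, hone, if_false] at hk
        have h2 : (oth tl z Q).card = Q.card - (tlp tl Q z).card := card_sdiff_of_subset tlp_sub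
        omega
    have h2 : xmn G C tl z Q = oth tl z Q := by
      rcases (oth tl z Q).eq_empty_or_nonempty with h3 | h3
      · unfold xmn
        rw [dif_neg (by rw [h3]; simp), h3]
      · exact eq_of_subset_of_card_le xmn_sub (by rw [xmn_card h3]; exact h1)
    simp only [rcl, h2]
  · rfl

/-- no misses at a row which serves the item alone -/
lemma imn_one {C : ι → Finset V} {tl : V → ι} {z : ι} {Q : Finset V} (h : tlp tl Q z = Q) :
    imn G C tl z (Sum.inl Q) = 0 := by
  unfold imn
  simp only [rcl, h, if_true, card_empty]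

lemma imn_pc {C : ι → Finset V} {tl : V → ι} {z : ι} {e : V × V} :
    imn G C tl z (Sum.inr e) = 0 := by
  unfold imn
  simp only [rcl, card_empty]

/-- **exactly `load + 1` points** -/
lemma rpts_xmn {A : Finset ι} {C H : ι → Finset V} {tl : V → ι} {x z : ι} {U : Finset (Itm V)}
    (h : Fam F C H tl x U) {u : Itm V} (hu : u ∈ U) (hk : ikp tl z u ≠ 0) :
    (rpts tl (xmn G C tl z) z u).card = ikp tl z u + 1 := by
  rcases u with Q | e
  · have h2 := h.two Q hu
    by_cases hone : tlp tl Q z = Q
    · have h3 : oth tl z Q = ∅ := by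
        unfold oth
        rw [hone]
        exact sdiff_eq_empty_iff_subset.2 subset_rfl
      have h4 : xmn G C tl z Q = ∅ := by
        have := xmn_sub (G := G) (C := C) (tl := tl) (z := z) (Q := Q)
        rw [h3] at this
        exact subset_empty.1 this
      simp only [rpts, ikp, hone, if_true, h4, union_empty]
      omega
    · have h3 : (oth tl z Q).Nonempty := by
        unfold oth
        rw [sdiff_nonempty]
        intro h4
        exact hone (Subset.antisymm tlp_sub h4)
      have h4 : Disjoint (tlp tl Q z) (xmn G C tl z Q) := by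
        rw [disjoint_left]
        intro v hv hv'
        exact (mem_oth.1 (xmn_sub hv')).2 (mem_tlp.1 hv).2
      simp only [rpts, ikp, hone, if_false]
      rw [card_union_of_disjoint h4, xmn_card h3]
  · have h2 : e.1 ≠ e.2 := (h.pcF e hu).ne
    simp only [ikp] at hk
    simp only [rpts, ikp, card_pair h2]
    split_ifs at hk ⊢ with h3
    · rfl
    · exact absurd rfl hk

end Mn

section MT

variable {V : Type*} {G : SimpleGraph V} {Z T : Finset V} {hm : V → V} {r m t : ℕ}
  {A : Finset V} {S : V → Finset V} {U : V → Finset (Itm V)}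

/-- **(row), general form, with the missing pairs of the points used** -/
theorem Fam.row_ne (hP : PG G r) (hC : CSys G Z T hm A S)
    (hW : WSysT G (co G) A (CP G Z T S) (HP G Z T S) (tlo G T hm))
    (h : ∀ x ∈ A, Fam (co G) (CP G Z T S) (HP G Z T S) (tlo G T hm) x (U x))
    {z : V} (hz : z ∈ A) {K : Finset (Itm V)} (hK : K ⊆ (A.erase z).biUnion U)
    (hk : ∀ u ∈ K, ikp (tlo G T hm) z u ≠ 0)
    {X : Finset V → Finset V} (hX : ∀ Q, X Q ⊆ oth (tlo G T hm) z Q) :
    2 * ((r : ℤ) - 1) * (((S z).card : ℤ) - r)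
      + 2 * ∑ u ∈ K, (((CP G Z T S z).card : ℤ) * ikp (tlo G T hm) z u
          - (rcl G (CP G Z T S) (tlo G T hm) X z u).card)
      ≤ NE G (S z) + 2 * (∑ u ∈ K, ((rpts (tlo G T hm) X z u).card : ℤ))
          * (((S z).card : ℤ) - r + 1)
        + NE G (K.biUnion (rpts (tlo G T hm) X z)) := by
  have hK' : K ⊆ (A \ {z}).biUnion U := by
    rwa [sdiff_singleton_eq_erase]
  have hfil : (K.filter fun u => ikp (tlo G T hm) z u ≠ 0) = K := filter_true_of_mem hk
  have hg := Fam.grp hW h (D := A.erase z) (erase_subset _ _) hK (z := z) hX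
  rw [hfil] at hg
  have hsb : ({z} : Finset V) ⊆ A := by
    simpa using hz
  have h1 := hC.tst_grp hP (B := {z}) hsb
    (W := K.biUnion (rpts (tlo G T hm) X z)) (fun x hx => by
      have h2 := Fam.disj_pts hC h hsb hK' hx
      refine h2.mono_right (biUnion_mono fun u hu => ?_)
      obtain ⟨y, hy, huy⟩ := mem_biUnion.1 (hK hu)
      exact (h y (mem_of_mem_erase hy)).rpts_sub hX)
    (I := fun _ => K) (P := fun _ => rpts (tlo G T hm) X z)
    (k := fun _ u => (ikp (tlo G T hm) z u : ℤ))
    (df := fun _ u c => if c ∈ rcl G (CP G Z T S) (tlo G T hm) X z u then 1 else 0)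
    (fun x hx => by
      rw [mem_singleton.1 hx]
      exact hg) (fun x _ => subset_rfl)
  have h3 : (K.biUnion (rpts (tlo G T hm) X z)).card
      = ∑ u ∈ K, (rpts (tlo G T hm) X z u).card := card_biUnion hg.dis
  have h4 : ((K.biUnion (rpts (tlo G T hm) X z)).card : ℤ)
      = ∑ u ∈ K, ((rpts (tlo G T hm) X z u).card : ℤ) := by
    rw [h3]
    push_cast
    rfl
  rw [h4] at h1
  simp only [sum_singleton, card_singleton, erase_singleton, sum_empty, Nat.cast_one, sub_self,
    mul_zero, zero_mul, add_zero, sum_rcl] at h1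
  linarith

/-- **the row test with Turan's bound** -/
theorem Fam.row_mn (hF : PFrame G r m t Z T) (hP : PG G r) (hC : CSys G Z T hm A S)
    (hW : WSysT G (co G) A (CP G Z T S) (HP G Z T S) (tlo G T hm))
    (h : ∀ x ∈ A, Fam (co G) (CP G Z T S) (HP G Z T S) (tlo G T hm) x (U x))
    {z : V} (hz : z ∈ A) {K : Finset (Itm V)} (hK : K ⊆ (A.erase z).biUnion U)
    (hk : ∀ u ∈ K, ikp (tlo G T hm) z u ≠ 0) (q : ℤ) :
    2 * ((r : ℤ) - 1) * (((S z).card : ℤ) - r)
      + 2 * ∑ u ∈ K, (((CP G Z T S z).card : ℤ) * ikp (tlo G T hm) z u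
          - imn G (CP G Z T S) (tlo G T hm) z u)
      ≤ NE G (S z) + 2 * (∑ u ∈ K, ((ikp (tlo G T hm) z u : ℤ) + 1))
          * (((S z).card : ℤ) - r + 1)
        + (∑ u ∈ K, ((ikp (tlo G T hm) z u : ℤ) + 1))
          * ((∑ u ∈ K, ((ikp (tlo G T hm) z u : ℤ) + 1)) - 1)
        - 2 * q * (∑ u ∈ K, ((ikp (tlo G T hm) z u : ℤ) + 1)) + T.card * (q * (q + 1)) := by
  have h1 := Fam.row_ne hP hC hW h hz hK hk (X := xmn G (CP G Z T S) (tlo G T hm) z)
    fun Q => xmn_sub
  have hg := Fam.grp hW h (D := A.erase z) (erase_subset _ _) hK (z := z)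
    (X := xmn G (CP G Z T S) (tlo G T hm) z) fun Q => xmn_sub
  have hfil : (K.filter fun u => ikp (tlo G T hm) z u ≠ 0) = K := filter_true_of_mem hk
  rw [hfil] at hg
  have h3 : (K.biUnion (rpts (tlo G T hm) (xmn G (CP G Z T S) (tlo G T hm) z) z)).card
      = ∑ u ∈ K, (rpts (tlo G T hm) (xmn G (CP G Z T S) (tlo G T hm) z) z u).card :=
    card_biUnion hg.dis
  have h4 : ∑ u ∈ K, ((rpts (tlo G T hm) (xmn G (CP G Z T S) (tlo G T hm) z) z u).card : ℤ)
      = ∑ u ∈ K, ((ikp (tlo G T hm) z u : ℤ) + 1) := by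
    refine sum_congr rfl fun u hu => ?_
    obtain ⟨y, hy, huy⟩ := mem_biUnion.1 (hK hu)
    have h5 := rpts_xmn (G := G) (A := A) (h y (mem_of_mem_erase hy)) huy (hk u hu)
    exact_mod_cast h5
  have h5 : ((K.biUnion (rpts (tlo G T hm) (xmn G (CP G Z T S) (tlo G T hm) z) z)).card : ℤ)
      = ∑ u ∈ K, ((ikp (tlo G T hm) z u : ℤ) + 1) := by
    rw [h3, ← h4]
    push_cast
    rfl
  have hWZ : K.biUnion (rpts (tlo G T hm) (xmn G (CP G Z T S) (tlo G T hm) z) z) ⊆ Z := by
    refine biUnion_subset.2 fun u hu => ?_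
    obtain ⟨y, hy, huy⟩ := mem_biUnion.1 (hK hu)
    have hyA := mem_of_mem_erase hy
    refine ((h y hyA).rpts_sub fun Q => xmn_sub).trans (((h y hyA).ipts_sub huy).trans ?_)
    rw [union_comm, CP_union_HP]
    exact (hC.slot y hyA).trans MM_sub
  have h6 := hF.NE_rows (I := T) hWZ (fun v _ => rws_sub) q
  rw [h5] at h6
  rw [h4] at h1
  unfold imn
  linarith

end MT

end Pool.Agent.Lib.MP_f04ccf_co
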