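import Pool.Agent.Lib.MP_f04ccf_co.M.CellK
import Pool.Agent.Lib.MP_f04ccf_co.M.MatT

/-!
MP_f04ccf_co, notes 17034, 17072: the cell test with the best points outside (`imn`) and Turan's bound
for the missing pairs of the points.  `Fam.cell_tur`: `I` any set of rows which contains the host rows
and all rows where the items have a load, `q` any integer.
-/

set_option autoImplicit false

namespace Pool.Agent.Lib.MP_f04ccf_co

open Finset

attribute [local instance] Classical.propDecidable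

section CellT

variable {V : Type*} {G : SimpleGraph V} {Z T : Finset V} {hm : V → V} {r m t : ℕ}
  {A : Finset V} {S : V → Finset V} {U : V → Finset (Itm V)}

/-- the rows of a member -/
lemma CSys.rws_HP (hh : Homes G Z T hm) (hC : CSys G Z T hm A S) {x v : V} (hx : x ∈ A)
    (hv : v ∈ HP G Z T S x) : rws G T v = {x, tlo G T hm v} := by
  obtain ⟨h1, h2⟩ := mem_Dbl.1 (hC.mem_Dbl_of_tlo hh hx hv rfl)
  rw [rws_of_notMem (mem_BB.1 h1).1.2, h2]

/-- the points of items of one host: number, arcs, copies; any choice of points with `kp + 1` points -/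
theorem Fam.own_sumsX (hW : WSysT G (co G) A (CP G Z T S) (HP G Z T S) (tlo G T hm))
    (h : ∀ x ∈ A, Fam (co G) (CP G Z T S) (HP G Z T S) (tlo G T hm) x (U x))
    {x z : V} (hx : x ∈ A) {K : Finset (Itm V)} (hK : K ⊆ U x)
    (hk : ∀ u ∈ K, ikp (tlo G T hm) z u ≠ 0) {X : Finset V → Finset V}
    (hX : ∀ Q, X Q ⊆ oth (tlo G T hm) z Q)
    (hc : ∀ u ∈ K, (rpts (tlo G T hm) X z u).card = ikp (tlo G T hm) z u + 1) :
    ((K.biUnion (rpts (tlo G T hm) X z) \ CP G Z T S x).card : ℤ)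
      = ∑ u ∈ K, ((ikp (tlo G T hm) z u : ℤ) + 1 - ipc u)
    ∧ ∑ v ∈ K.biUnion (rpts (tlo G T hm) X z) \ CP G Z T S x, (nd G (CP G Z T S x) v : ℤ)
      ≤ ∑ u ∈ K, (iar G (CP G Z T S x) u : ℤ)
    ∧ ((CP G Z T S x ∩ K.biUnion (rpts (tlo G T hm) X z)).card : ℤ) ≤ ∑ u ∈ K, (ipc u : ℤ) := by
  have hf := h x hx
  have hHC : ∀ v, v ∈ HP G Z T S x → v ∉ CP G Z T S x := fun v h1 h2 =>
    disjoint_left.1 (hW.dHC x hx x hx) h1 h2
  have hdis : ∀ u ∈ K, ∀ v ∈ K, u ≠ v → Disjoint (rpts (tlo G T hm) X z u)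
      (rpts (tlo G T hm) X z v) := fun u hu v hv huv =>
    (Fam.dis_row hW h hx hx (hK hu) (hK hv) huv (hk u hu) (hk v hv)).mono (hf.rpts_sub hX)
      (hf.rpts_sub hX)
  have hsd : K.biUnion (rpts (tlo G T hm) X z) \ CP G Z T S x
      = K.biUnion fun u => rpts (tlo G T hm) X z u \ CP G Z T S x := by
    ext v
    simp only [mem_sdiff, mem_biUnion]
    constructor
    · rintro ⟨⟨u, hu, hv⟩, hv'⟩
      exact ⟨u, hu, hv, hv'⟩
    · rintro ⟨u, hu, hv, hv'⟩
      exact ⟨⟨u, hu, hv⟩, hv'⟩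
  have hdis' : ∀ u ∈ K, ∀ v ∈ K, u ≠ v → Disjoint (rpts (tlo G T hm) X z u \ CP G Z T S x)
      (rpts (tlo G T hm) X z v \ CP G Z T S x) := fun u hu v hv huv =>
    (hdis u hu v hv huv).mono sdiff_subset sdiff_subset
  have hpc : ∀ e, Sum.inr e ∈ K → ikp (tlo G T hm) z (Sum.inr e : Itm V) = 1 := by
    intro e he
    by_cases h4 : tlo G T hm e.1 = z
    · simp only [ikp, h4, if_true]
    · exact absurd (by simp only [ikp, h4, if_false]) (hk _ he)
  have hinter : ∀ u ∈ K, (CP G Z T S x ∩ rpts (tlo G T hm) X z u).card = ipc u := by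
    intro u hu
    rcases u with Q | e
    · have h5 : CP G Z T S x ∩ rpts (tlo G T hm) X z (Sum.inl Q) = ∅ := by
        rw [← disjoint_iff_inter_eq_empty, disjoint_left]
        intro v hv hv'
        exact hHC v (hf.sub Q (hK hu) (hf.rpts_sub hX hv')) hv
      rw [h5]
      rfl
    · have h5 : CP G Z T S x ∩ rpts (tlo G T hm) X z (Sum.inr e) = {e.2} := by
        ext v
        simp only [rpts, mem_inter, mem_insert, mem_singleton]
        constructor
        · rintro ⟨h6, h7 | h7⟩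
          · exact absurd h6 (h7 ▸ hHC _ (hf.pcH e (hK hu)))
          · exact h7
        · rintro rfl
          exact ⟨hf.pcC e (hK hu), Or.inr rfl⟩
      rw [h5, card_singleton]
      rfl
  refine ⟨?_, ?_, ?_⟩
  · rw [hsd, card_biUnion hdis']
    push_cast
    refine sum_congr rfl fun u hu => ?_
    have h1 : (rpts (tlo G T hm) X z u \ CP G Z T S x).card + ipc u
        = ikp (tlo G T hm) z u + 1 := by
      rw [← hinter u hu, ← hc u hu, inter_comm]
      exact card_sdiff_add_card_inter _ _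
    have h2 : ((rpts (tlo G T hm) X z u \ CP G Z T S x).card : ℤ) + ipc u
        = ikp (tlo G T hm) z u + 1 := by exact_mod_cast h1
    linarith
  · rw [hsd, sum_biUnion (fun u hu v hv huv => hdis' u hu v hv huv)]
    refine sum_le_sum fun u hu => ?_
    have h4 := Fam.nd_own (z := z) h hx (hK hu) hX
    exact_mod_cast h4
  · have h2 : CP G Z T S x ∩ K.biUnion (rpts (tlo G T hm) X z)
        ⊆ K.biUnion fun u => CP G Z T S x ∩ rpts (tlo G T hm) X z u := by
      intro v hv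
      obtain ⟨h3, h4⟩ := mem_inter.1 hv
      obtain ⟨u, hu, h5⟩ := mem_biUnion.1 h4
      exact mem_biUnion.2 ⟨u, hu, mem_inter.2 ⟨h3, h5⟩⟩
    have h3 := (card_le_card h2).trans card_biUnion_le
    have h4 : ((CP G Z T S x ∩ K.biUnion (rpts (tlo G T hm) X z)).card : ℤ)
        ≤ ∑ u ∈ K, ((CP G Z T S x ∩ rpts (tlo G T hm) X z u).card : ℤ) := by exact_mod_cast h3
    refine h4.trans (sum_le_sum fun u hu => ?_)
    rw [hinter u hu]

/-- **THE CELL TEST WITH TURAN'S BOUND**, best points outside -/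
theorem Fam.cell_tur (hF : PFrame G r m t Z T) (hh : Homes G Z T hm) (hP : PG G r)
    (hC : CSys G Z T hm A S)
    (hW : WSysT G (co G) A (CP G Z T S) (HP G Z T S) (tlo G T hm))
    (h : ∀ x ∈ A, Fam (co G) (CP G Z T S) (HP G Z T S) (tlo G T hm) x (U x))
    {x z : V} (hx : x ∈ A) (hz : z ∈ A) (hxz : x ≠ z) {K K' : Finset (Itm V)}
    (hK : K ⊆ U x) (hK' : K' ⊆ U z) (hk : ∀ u ∈ K, ikp (tlo G T hm) z u ≠ 0)
    (hk' : ∀ u ∈ K', ikp (tlo G T hm) x u ≠ 0) {I : Finset V} (hxI : x ∈ I) (hzI : z ∈ I)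
    (hI : ∀ u ∈ K ∪ K', ∀ j, ikp (tlo G T hm) j u ≠ 0 → j ∈ I) (q : ℤ) :
    2 * ∑ u ∈ K, (((r : ℤ) - 1) * ikp (tlo G T hm) z u
          + (1 - ipc u) * ((r : ℤ) - 1 - (CP G Z T S z).card)
          - imn G (CP G Z T S) (tlo G T hm) z u - iar G (CP G Z T S x) u)
      + 2 * ∑ u ∈ K', (((r : ℤ) - 1) * ikp (tlo G T hm) x u
          + (1 - ipc u) * ((r : ℤ) - 1 - (CP G Z T S x).card)
          - imn G (CP G Z T S) (tlo G T hm) x u - iar G (CP G Z T S z) u)
      ≤ 2 * ((r : ℤ) - 1 + ((r : ℤ) - 1 - (CP G Z T S x).card)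
            * ((r : ℤ) - 1 - (CP G Z T S z).card))
        + (∑ u ∈ K, ((ikp (tlo G T hm) z u : ℤ) + 1 - ipc u)
            + ∑ u ∈ K', ((ikp (tlo G T hm) x u : ℤ) + 1 - ipc u))
          * (∑ u ∈ K, ((ikp (tlo G T hm) z u : ℤ) + 1 - ipc u)
            + ∑ u ∈ K', ((ikp (tlo G T hm) x u : ℤ) + 1 - ipc u) - 1)
        - 2 * q * (∑ u ∈ K, ((ikp (tlo G T hm) z u : ℤ) + 1 - ipc u)
            + ∑ u ∈ K', ((ikp (tlo G T hm) x u : ℤ) + 1 - ipc u))
        + I.card * (q * (q + 1))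
        + 2 * (∑ u ∈ K, (ipc u : ℤ)) * ∑ u ∈ K', (ipc u : ℤ) := by
  have hX : ∀ Q, xmn G (CP G Z T S) (tlo G T hm) z Q ⊆ oth (tlo G T hm) z Q := fun Q => xmn_sub
  have hX' : ∀ Q, xmn G (CP G Z T S) (tlo G T hm) x Q ⊆ oth (tlo G T hm) x Q := fun Q => xmn_sub
  have h1 := Fam.cell_k hF hP hC hW h hx hz hxz hK hK' hk hk' hX hX'
  obtain ⟨a1, a2, a3⟩ := Fam.own_sumsX hW h hx hK hk hX fun u hu =>
    rpts_xmn (A := A) (h x hx) (hK hu) (hk u hu)
  obtain ⟨b1, b2, b3⟩ := Fam.own_sumsX hW h hz hK' hk' hX' fun u hu =>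
    rpts_xmn (A := A) (h z hz) (hK' hu) (hk' u hu)
  set X := xmn G (CP G Z T S) (tlo G T hm) z with hXd
  set X' := xmn G (CP G Z T S) (tlo G T hm) x with hXd'
  have hpt : ∀ v ∈ K.biUnion (rpts (tlo G T hm) X z) \ CP G Z T S x,
      v ∈ HP G Z T S x ∧ tlo G T hm v ∈ I := by
    intro v hv
    obtain ⟨v1, v2⟩ := mem_sdiff.1 hv
    obtain ⟨u, hu, hvu⟩ := mem_biUnion.1 v1
    have hvi := (h x hx).rpts_sub hX hvu
    have c1 := (mem_union.1 ((h x hx).ipts_sub (hK hu) hvi)).resolve_right v2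
    refine ⟨c1, hI u (mem_union_left _ hu) _ ?_⟩
    rcases u with Q | e
    · have h3 : v ∈ tlp (tlo G T hm) Q (tlo G T hm v) := mem_tlp.2 ⟨hvi, rfl⟩
      have h4 := (h x hx).two Q (hK hu)
      have h5 : 0 < (tlp (tlo G T hm) Q (tlo G T hm v)).card := card_pos.2 ⟨v, h3⟩
      simp only [ikp]
      split_ifs
      · omega
      · omega
    · simp only [ipts] at hvi
      rcases mem_insert.1 hvi with h3 | h3
      · subst h3
        simp only [ikp, if_true]
        norm_num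
      · rw [mem_singleton] at h3
        exact absurd (h3 ▸ (h x hx).pcC e (hK hu)) v2
  have hpt' : ∀ v ∈ K'.biUnion (rpts (tlo G T hm) X' x) \ CP G Z T S z,
      v ∈ HP G Z T S z ∧ tlo G T hm v ∈ I := by
    intro v hv
    obtain ⟨v1, v2⟩ := mem_sdiff.1 hv
    obtain ⟨u, hu, hvu⟩ := mem_biUnion.1 v1
    have hvi := (h z hz).rpts_sub hX' hvu
    have c1 := (mem_union.1 ((h z hz).ipts_sub (hK' hu) hvi)).resolve_right v2
    refine ⟨c1, hI u (mem_union_right _ hu) _ ?_⟩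
    rcases u with Q | e
    · have h3 : v ∈ tlp (tlo G T hm) Q (tlo G T hm v) := mem_tlp.2 ⟨hvi, rfl⟩
      have h4 := (h z hz).two Q (hK' hu)
      have h5 : 0 < (tlp (tlo G T hm) Q (tlo G T hm v)).card := card_pos.2 ⟨v, h3⟩
      simp only [ikp]
      split_ifs
      · omega
      · omega
    · simp only [ipts] at hvi
      rcases mem_insert.1 hvi with h3 | h3
      · subst h3
        simp only [ikp, if_true]
        norm_num
      · rw [mem_singleton] at h3
        exact absurd (h3 ▸ (h z hz).pcC e (hK' hu)) v2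
  have dW : Disjoint (K.biUnion (rpts (tlo G T hm) X z) \ CP G Z T S x)
      (K'.biUnion (rpts (tlo G T hm) X' x) \ CP G Z T S z) := by
    rw [disjoint_left]
    intro v hv hv'
    exact disjoint_left.1 (hW.dHH x hx z hz hxz) (hpt v hv).1 (hpt' v hv').1
  have hWZ : K.biUnion (rpts (tlo G T hm) X z) \ CP G Z T S x
      ∪ K'.biUnion (rpts (tlo G T hm) X' x) \ CP G Z T S z ⊆ Z := by
    intro v hv
    rcases mem_union.1 hv with h3 | h3
    · exact hC.subZ hx (HP_sub (hpt v h3).1)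
    · exact hC.subZ hz (HP_sub (hpt' v h3).1)
  have h2 := hF.NE_rows (I := I) hWZ (fun v hv => by
    rcases mem_union.1 hv with h3 | h3
    · rw [hC.rws_HP hh hx (hpt v h3).1]
      intro j hj
      rcases mem_insert.1 hj with h4 | h4
      · exact h4 ▸ hxI
      · rw [mem_singleton.1 h4]
        exact (hpt v h3).2
    · rw [hC.rws_HP hh hz (hpt' v h3).1]
      intro j hj
      rcases mem_insert.1 hj with h4 | h4
      · exact h4 ▸ hzI
      · rw [mem_singleton.1 h4]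
        exact (hpt' v h3).2) q
  have h3 : ((K.biUnion (rpts (tlo G T hm) X z) \ CP G Z T S x
            ∪ K'.biUnion (rpts (tlo G T hm) X' x) \ CP G Z T S z).card : ℤ)
      = ∑ u ∈ K, ((ikp (tlo G T hm) z u : ℤ) + 1 - ipc u)
        + ∑ u ∈ K', ((ikp (tlo G T hm) x u : ℤ) + 1 - ipc u) := by
    rw [card_union_of_disjoint dW, ← a1, ← b1]
    push_cast
    rfl
  rw [h3] at h2
  rw [a1, b1] at h1
  have h4 : ((CP G Z T S x ∩ K.biUnion (rpts (tlo G T hm) X z)).card : ℤ)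
      * (CP G Z T S z ∩ K'.biUnion (rpts (tlo G T hm) X' x)).card
      ≤ (∑ u ∈ K, (ipc u : ℤ)) * ∑ u ∈ K', (ipc u : ℤ) :=
    mul_le_mul a3 b3 (Nat.cast_nonneg _) (sum_nonneg fun u _ => Nat.cast_nonneg _)
  have h5 : (0 : ℤ) ≤ ∑ c ∈ CP G Z T S z \ (CP G Z T S z ∩ K'.biUnion (rpts (tlo G T hm) X' x)),
      (dg G (CP G Z T S x \ (CP G Z T S x ∩ K.biUnion (rpts (tlo G T hm) X z))) c : ℤ) :=
    sum_nonneg fun c _ => Nat.cast_nonneg _
  have e1 : ∑ u ∈ K, (((r : ℤ) - 1) * ikp (tlo G T hm) z u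
          + (1 - ipc u) * ((r : ℤ) - 1 - (CP G Z T S z).card)
          - imn G (CP G Z T S) (tlo G T hm) z u - iar G (CP G Z T S x) u)
      = ∑ u ∈ K, (((CP G Z T S z).card : ℤ) * ikp (tlo G T hm) z u
          - (rcl G (CP G Z T S) (tlo G T hm) X z u).card)
        + (∑ u ∈ K, ((ikp (tlo G T hm) z u : ℤ) + 1 - ipc u)) * ((r : ℤ) - 1 - (CP G Z T S z).card)
        - ∑ u ∈ K, (iar G (CP G Z T S x) u : ℤ) := by
    rw [sum_mul, ← sum_add_distrib, ← sum_sub_distrib]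
    refine sum_congr rfl fun u _ => ?_
    unfold imn
    ring
  have e2 : ∑ u ∈ K', (((r : ℤ) - 1) * ikp (tlo G T hm) x u
          + (1 - ipc u) * ((r : ℤ) - 1 - (CP G Z T S x).card)
          - imn G (CP G Z T S) (tlo G T hm) x u - iar G (CP G Z T S z) u)
      = ∑ u ∈ K', (((CP G Z T S x).card : ℤ) * ikp (tlo G T hm) x u
          - (rcl G (CP G Z T S) (tlo G T hm) X' x u).card)
        + (∑ u ∈ K', ((ikp (tlo G T hm) x u : ℤ) + 1 - ipc u)) * ((r : ℤ) - 1 - (CP G Z T S x).card)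
        - ∑ u ∈ K', (iar G (CP G Z T S z) u : ℤ) := by
    rw [sum_mul, ← sum_add_distrib, ← sum_sub_distrib]
    refine sum_congr rfl fun u _ => ?_
    unfold imn
    ring
  rw [e1, e2]
  linarith

end CellT

end Pool.Agent.Lib.MP_f04ccf_co
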