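import Pool.Agent.Lib.MP_f04ccf_co.M.CellR
import Pool.Agent.Lib.MP_f04ccf_co.M.CellT
import Pool.Agent.Lib.MP_f04ccf_co.M.WNumK

/-!
MP_f04ccf_co: the cell test with better bounds of the missing pairs of the points.
`Fam.cellNE`: the missing pairs kept, with the rectangle of any item.  `Fam.cellTR`: with Turan's bound.
`WHom.cell2`: for packings with the fewest PC pairs, units of value one: two items of one host which are
not both PC pairs have an edge between them.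
-/

set_option autoImplicit false

namespace Pool.Agent.Lib.MP_f04ccf_co

open Finset

attribute [local instance] Classical.propDecidable

section CellS

variable {V : Type*} {G : SimpleGraph V} {Z T : Finset V} {hm : V → V} {r m t : ℕ}
  {A : Finset V} {S : V → Finset V} {U : V → Finset (Itm V)}

/-- the points of the items `K` of the host `x` in the cell test with `z` -/
noncomputable def cpt (C : V → Finset V) (tl : V → V) (K : Finset (Itm V)) (x z : V) : Finset V :=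
  K.biUnion (rpts tl (fun Q => one1 (oth tl z Q)) z) \ C x

/-- **(CELL) over the basic integers, the missing pairs of the points kept** -/
theorem Fam.cellNE {S : Finset V} (hF : PFrame G r m t Z T) (hP : PG G r)
    (hC : CSys G Z T hm A fun x => S.filter fun v => hm v = x)
    (hW : WSysT G (co G) A (CP G Z T fun x => S.filter fun v => hm v = x)
      (HP G Z T fun x => S.filter fun v => hm v = x) (tlo G T hm)) {U : V → Finset (Itm V)}
    (h : ∀ x ∈ A, Fam (co G) (CP G Z T fun x => S.filter fun v => hm v = x)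
      (HP G Z T fun x => S.filter fun v => hm v = x) (tlo G T hm) x (U x))
    {x z : V} (hx : x ∈ A) (hz : z ∈ A) (hxz : x ≠ z) {K K' : Finset (Itm V)}
    (hK : K ⊆ U x) (hK' : K' ⊆ U z) (hk : ∀ u ∈ K, ikp (tlo G T hm) z u ≠ 0)
    (hk' : ∀ u ∈ K', ikp (tlo G T hm) x u ≠ 0) {y : V} (hy : y ∈ A) {w : Itm V} (hw : w ∈ U y) :
    2 * ∑ u ∈ K, (((r : ℤ) - 1) * ikp (tlo G T hm) z u + (1 - ipc u) * tI G Z T hm r S z
          - rmr G (CP G Z T fun x => S.filter fun v => hm v = x) (tlo G T hm) z u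
          - iar G (CP G Z T (fun x => S.filter fun v => hm v = x) x) u)
      + 2 * ∑ u ∈ K', (((r : ℤ) - 1) * ikp (tlo G T hm) x u + (1 - ipc u) * tI G Z T hm r S x
          - rmr G (CP G Z T fun x => S.filter fun v => hm v = x) (tlo G T hm) x u
          - iar G (CP G Z T (fun x => S.filter fun v => hm v = x) z) u)
      + 2 * (max 0 ((ims G (CP G Z T fun x => S.filter fun v => hm v = x) (tlo G T hm) x w : ℤ)
              - ∑ u ∈ K, (ipc u : ℤ))
          * max 0 ((ims G (CP G Z T fun x => S.filter fun v => hm v = x) (tlo G T hm) z w : ℤ)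
              - ∑ u ∈ K', (ipc u : ℤ)))
      ≤ 2 * ((r : ℤ) - 1 + tI G Z T hm r S x * tI G Z T hm r S z)
        + NE G (cpt (CP G Z T fun x => S.filter fun v => hm v = x) (tlo G T hm) K x z
            ∪ cpt (CP G Z T fun x => S.filter fun v => hm v = x) (tlo G T hm) K' z x)
        + 2 * (∑ u ∈ K, (ipc u : ℤ)) * ∑ u ∈ K', (ipc u : ℤ) := by
  set C := CP G Z T fun x => S.filter fun v => hm v = x with hCdef
  set tl := tlo G T hm with htl
  have hcard : ∀ x, ((C x).card : ℤ) = (r : ℤ) - 1 - tI G Z T hm r S x := fun x => card_CP_eq S x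
  have h1 := Fam.cell_k hF hP hC hW h hx hz hxz hK hK' hk hk'
    (X := fun Q => one1 (oth tl z Q)) (X' := fun Q => one1 (oth tl x Q))
    (fun Q => one1_sub _) (fun Q => one1_sub _)
  obtain ⟨a1, a2, a3⟩ := Fam.own_sums hW h hx hK hk
  obtain ⟨b1, b2, b3⟩ := Fam.own_sums hW h hz hK' hk'
  rw [a1, b1] at h1
  have h4 : ((C x ∩ K.biUnion (rpts tl (fun Q => one1 (oth tl z Q)) z)).card : ℤ)
      * (C z ∩ K'.biUnion (rpts tl (fun Q => one1 (oth tl x Q)) x)).card
      ≤ (∑ u ∈ K, (ipc u : ℤ)) * ∑ u ∈ K', (ipc u : ℤ) :=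
    mul_le_mul a3 b3 (Nat.cast_nonneg _) (sum_nonneg fun u _ => Nat.cast_nonneg _)
  have h5 : max 0 ((ims G C tl x w : ℤ) - ∑ u ∈ K, (ipc u : ℤ))
          * max 0 ((ims G C tl z w : ℤ) - ∑ u ∈ K', (ipc u : ℤ))
      ≤ ∑ c ∈ C z \ (C z ∩ K'.biUnion (rpts tl (fun Q => one1 (oth tl x Q)) x)),
          (dg G (C x \ (C x ∩ K.biUnion (rpts tl (fun Q => one1 (oth tl z Q)) z))) c : ℤ) := by
    set P := C x ∩ K.biUnion (rpts tl (fun Q => one1 (oth tl z Q)) z) with hP'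
    set P' := C z ∩ K'.biUnion (rpts tl (fun Q => one1 (oth tl x Q)) x) with hP''
    have c1 : ∀ c ∈ icl G C tl z w \ P', ((icl G C tl x w \ P).card : ℤ)
        ≤ (dg G (C x \ P) c : ℤ) := by
      intro c hc
      have : (icl G C tl x w \ P).card ≤ dg G (C x \ P) c := by
        refine card_le_card fun a ha => ?_
        obtain ⟨a1', a2'⟩ := mem_sdiff.1 ha
        exact mem_filter.2 ⟨mem_sdiff.2 ⟨rcl_sub a1', a2'⟩,
          ((h y hy).icl_complete hW hy hx hz hxz hw a a1' c (mem_sdiff.1 hc).1).symm⟩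
      exact_mod_cast this
    have c2 : ∑ c ∈ icl G C tl z w \ P', (dg G (C x \ P) c : ℤ)
        ≤ ∑ c ∈ C z \ P', (dg G (C x \ P) c : ℤ) :=
      sum_le_sum_of_subset_of_nonneg (sdiff_subset_sdiff rcl_sub subset_rfl)
        fun _ _ _ => Nat.cast_nonneg _
    have c3 := (sum_le_sum c1).trans c2
    rw [sum_const, nsmul_eq_mul] at c3
    have key : ∀ (D K : Finset V) (q : ℤ), (K.card : ℤ) ≤ q →
        max 0 ((D.card : ℤ) - q) ≤ ((D \ K).card : ℤ) := by
      intro D K q hq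
      refine max_le (Nat.cast_nonneg _) ?_
      have h2 : D.card ≤ (D \ K).card + K.card := card_le_card_sdiff_add_card
      have h3 : (D.card : ℤ) ≤ (D \ K).card + K.card := by exact_mod_cast h2
      linarith
    have c4 := mul_le_mul (key (icl G C tl x w) P _ a3) (key (icl G C tl z w) P' _ b3)
      (le_max_left _ _) (Nat.cast_nonneg _)
    have c5 : ((icl G C tl z w \ P').card : ℤ) * ((icl G C tl x w \ P).card : ℤ)
        = ((icl G C tl x w \ P).card : ℤ) * ((icl G C tl z w \ P').card : ℤ) := mul_comm _ _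
    have e5 : ∀ v, (ims G C tl v w : ℤ) = ((icl G C tl v w).card : ℤ) := fun _ => rfl
    rw [e5, e5]
    linarith
  have e1 : ∑ u ∈ K, (((r : ℤ) - 1) * ikp tl z u + (1 - ipc u) * tI G Z T hm r S z
          - rmr G C tl z u - iar G (C x) u)
      = ∑ u ∈ K, (((C z).card : ℤ) * ikp tl z u
          - (rcl G C tl (fun Q => one1 (oth tl z Q)) z u).card)
        + (∑ u ∈ K, ((ikp tl z u : ℤ) + 1 - ipc u)) * ((r : ℤ) - 1 - (C z).card)
        - ∑ u ∈ K, (iar G (C x) u : ℤ) := by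
    rw [sum_mul, ← sum_add_distrib, ← sum_sub_distrib]
    refine sum_congr rfl fun u _ => ?_
    rw [hcard]
    unfold rmr
    ring
  have e2 : ∑ u ∈ K', (((r : ℤ) - 1) * ikp tl x u + (1 - ipc u) * tI G Z T hm r S x
          - rmr G C tl x u - iar G (C z) u)
      = ∑ u ∈ K', (((C x).card : ℤ) * ikp tl x u
          - (rcl G C tl (fun Q => one1 (oth tl x Q)) x u).card)
        + (∑ u ∈ K', ((ikp tl x u : ℤ) + 1 - ipc u)) * ((r : ℤ) - 1 - (C x).card)
        - ∑ u ∈ K', (iar G (C z) u : ℤ) := by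
    rw [sum_mul, ← sum_add_distrib, ← sum_sub_distrib]
    refine sum_congr rfl fun u _ => ?_
    rw [hcard]
    unfold rmr
    ring
  have e3 : (r : ℤ) - 1 - (C x).card = tI G Z T hm r S x := by
    rw [hcard]
    ring
  have e4 : (r : ℤ) - 1 - (C z).card = tI G Z T hm r S z := by
    rw [hcard]
    ring
  rw [e1, e2]
  rw [e3, e4] at h1
  rw [e3, e4]
  have h6 : (NE G (cpt C tl K x z ∪ cpt C tl K' z x) : ℤ)
      = NE G (K.biUnion (rpts tl (fun Q => one1 (oth tl z Q)) z) \ C x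
            ∪ K'.biUnion (rpts tl (fun Q => one1 (oth tl x Q)) x) \ C z) := rfl
  rw [h6]
  linarith

/-- the points are members of the host -/
lemma Fam.cpt_HP (hW : WSysT G (co G) A (CP G Z T S) (HP G Z T S) (tlo G T hm))
    (h : ∀ x ∈ A, Fam (co G) (CP G Z T S) (HP G Z T S) (tlo G T hm) x (U x))
    {x z : V} (hx : x ∈ A) {K : Finset (Itm V)} (hK : K ⊆ U x) {v : V}
    (hv : v ∈ cpt (CP G Z T S) (tlo G T hm) K x z) :
    v ∈ HP G Z T S x ∧ ∃ u ∈ K, v ∈ imem u ∧ v ∈ rpts (tlo G T hm)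
      (fun Q => one1 (oth (tlo G T hm) z Q)) z u := by
  obtain ⟨v1, v2⟩ := mem_sdiff.1 hv
  obtain ⟨u, hu, hvu⟩ := mem_biUnion.1 v1
  have hvi := (h x hx).rpts_sub (fun Q => one1_sub _) hvu
  have c1 := (mem_union.1 ((h x hx).ipts_sub (hK hu) hvi)).resolve_right v2
  refine ⟨c1, u, hu, ?_, hvu⟩
  rcases u with Q | e
  · exact hvi
  · simp only [ipts] at hvi
    rcases mem_insert.1 hvi with h3 | h3
    · exact h3 ▸ mem_singleton_self _
    · rw [mem_singleton] at h3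
      exact absurd (h3 ▸ (h x hx).pcC e (hK hu)) v2

/-- a load at the tail of a member -/
lemma ikp_tail_ne {tl : V → V} {u : Itm V} (h2 : ∀ Q, u = Sum.inl Q → 2 ≤ Q.card) {v : V}
    (hv : v ∈ imem u) : ikp tl (tl v) u ≠ 0 := by
  rcases u with Q | e
  · have h3 : v ∈ tlp tl Q (tl v) := mem_tlp.2 ⟨hv, rfl⟩
    have h4 := h2 Q rfl
    have h5 : 0 < (tlp tl Q (tl v)).card := card_pos.2 ⟨v, h3⟩
    simp only [ikp]
    split_ifs
    · omega
    · omega
  · simp only [imem, mem_singleton] at hv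
    subst hv
    simp only [ikp, if_true]
    norm_num

/-- the number of the points -/
lemma Fam.card_cpt (hW : WSysT G (co G) A (CP G Z T S) (HP G Z T S) (tlo G T hm))
    (h : ∀ x ∈ A, Fam (co G) (CP G Z T S) (HP G Z T S) (tlo G T hm) x (U x))
    {x z : V} (hx : x ∈ A) (hz : z ∈ A) (hxz : x ≠ z) {K K' : Finset (Itm V)}
    (hK : K ⊆ U x) (hK' : K' ⊆ U z) (hk : ∀ u ∈ K, ikp (tlo G T hm) z u ≠ 0)
    (hk' : ∀ u ∈ K', ikp (tlo G T hm) x u ≠ 0) :
    Disjoint (cpt (CP G Z T S) (tlo G T hm) K x z) (cpt (CP G Z T S) (tlo G T hm) K' z x) ∧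
    ((cpt (CP G Z T S) (tlo G T hm) K x z ∪ cpt (CP G Z T S) (tlo G T hm) K' z x).card : ℤ)
      = ∑ u ∈ K, ((ikp (tlo G T hm) z u : ℤ) + 1 - ipc u)
        + ∑ u ∈ K', ((ikp (tlo G T hm) x u : ℤ) + 1 - ipc u) := by
  obtain ⟨a1, -, -⟩ := Fam.own_sums hW h hx hK hk
  obtain ⟨b1, -, -⟩ := Fam.own_sums hW h hz hK' hk'
  have dW : Disjoint (cpt (CP G Z T S) (tlo G T hm) K x z)
      (cpt (CP G Z T S) (tlo G T hm) K' z x) := by
    rw [disjoint_left]
    intro v hv hv'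
    exact disjoint_left.1 (hW.dHH x hx z hz hxz) (Fam.cpt_HP hW h hx hK hv).1
      (Fam.cpt_HP hW h hz hK' hv').1
  refine ⟨dW, ?_⟩
  rw [card_union_of_disjoint dW, ← a1, ← b1]
  push_cast
  rfl

/-- **Turan's bound of the missing pairs** -/
theorem Fam.NE_cptT (hF : PFrame G r m t Z T) (hh : Homes G Z T hm) (hC : CSys G Z T hm A S)
    (hW : WSysT G (co G) A (CP G Z T S) (HP G Z T S) (tlo G T hm))
    (h : ∀ x ∈ A, Fam (co G) (CP G Z T S) (HP G Z T S) (tlo G T hm) x (U x))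
    {x z : V} (hx : x ∈ A) (hz : z ∈ A) (hxz : x ≠ z) {K K' : Finset (Itm V)}
    (hK : K ⊆ U x) (hK' : K' ⊆ U z) (hk : ∀ u ∈ K, ikp (tlo G T hm) z u ≠ 0)
    (hk' : ∀ u ∈ K', ikp (tlo G T hm) x u ≠ 0) {I : Finset V} (hxI : x ∈ I) (hzI : z ∈ I)
    (hI : ∀ u ∈ K, ∀ j, ikp (tlo G T hm) j u ≠ 0 → j ∈ I)
    (hI' : ∀ u ∈ K', ∀ j, ikp (tlo G T hm) j u ≠ 0 → j ∈ I) (q : ℤ) :
    (NE G (cpt (CP G Z T S) (tlo G T hm) K x z ∪ cpt (CP G Z T S) (tlo G T hm) K' z x) : ℤ)
      ≤ (∑ u ∈ K, ((ikp (tlo G T hm) z u : ℤ) + 1 - ipc u)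
            + ∑ u ∈ K', ((ikp (tlo G T hm) x u : ℤ) + 1 - ipc u))
          * (∑ u ∈ K, ((ikp (tlo G T hm) z u : ℤ) + 1 - ipc u)
            + ∑ u ∈ K', ((ikp (tlo G T hm) x u : ℤ) + 1 - ipc u) - 1)
        - 2 * q * (∑ u ∈ K, ((ikp (tlo G T hm) z u : ℤ) + 1 - ipc u)
            + ∑ u ∈ K', ((ikp (tlo G T hm) x u : ℤ) + 1 - ipc u))
        + I.card * (q * (q + 1)) := by
  obtain ⟨-, h3⟩ := Fam.card_cpt hW h hx hz hxz hK hK' hk hk'
  rw [← h3]
  refine hF.NE_rows (I := I) ?_ (fun v hv => ?_) q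
  · intro v hv
    rcases mem_union.1 hv with h3 | h3
    · exact hC.subZ hx (HP_sub (Fam.cpt_HP hW h hx hK h3).1)
    · exact hC.subZ hz (HP_sub (Fam.cpt_HP hW h hz hK' h3).1)
  · rcases mem_union.1 hv with h3 | h3
    · obtain ⟨c1, u, hu, c2, -⟩ := Fam.cpt_HP hW h hx hK h3
      rw [hC.rws_HP hh hx c1]
      intro j hj
      rcases mem_insert.1 hj with h4 | h4
      · exact h4 ▸ hxI
      · rw [mem_singleton.1 h4]
        exact hI u hu _ (ikp_tail_ne (fun Q hQ => (h x hx).two Q (hQ ▸ hK hu)) c2)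
    · obtain ⟨c1, u, hu, c2, -⟩ := Fam.cpt_HP hW h hz hK' h3
      rw [hC.rws_HP hh hz c1]
      intro j hj
      rcases mem_insert.1 hj with h4 | h4
      · exact h4 ▸ hzI
      · rw [mem_singleton.1 h4]
        exact hI' u hu _ (ikp_tail_ne (fun Q hQ => (h z hz).two Q (hQ ▸ hK' hu)) c2)

/-- a unit of value one is used with both points -/
lemma rpts_two {tl : V → V} {z : V} {Q : Finset V} (h2 : Q.card = 2)
    (hk : ikp tl z (Sum.inl Q : Itm V) ≠ 0) :
    Q ⊆ rpts tl (fun Q => one1 (oth tl z Q)) z (Sum.inl Q : Itm V) := by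
  intro v hv
  show v ∈ tlp tl Q z ∪ one1 (oth tl z Q)
  rw [mem_union]
  by_cases h : tl v = z
  · exact Or.inl (mem_tlp.2 ⟨hv, h⟩)
  · right
    have hne : tlp tl Q z ≠ Q := fun h' => h (mem_tlp.1 (h'.symm ▸ hv)).2
    have h3 : (tlp tl Q z).card ≠ 0 := by
      intro h4
      apply hk
      simp only [ikp, hne, if_false]
      exact h4
    have hvo : v ∈ oth tl z Q := mem_oth.2 ⟨hv, h⟩
    have h4 : (oth tl z Q).card + (tlp tl Q z).card = Q.card :=
      card_sdiff_add_card_eq_card tlp_sub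
    have h5 : (oth tl z Q).card = 1 := by
      have := card_pos.2 ⟨v, hvo⟩
      omega
    have h6 : one1 (oth tl z Q) = oth tl z Q :=
      eq_of_subset_of_card_le (one1_sub _) (by rw [h5, card_one1_eq ⟨v, hvo⟩])
    rw [h6]
    exact hvo

/-- **adjacent pairs between the items of one host**: packings with the fewest PC pairs, units of value
one -/
theorem PkPP.E_cpt {C H : V → Finset V} {tl : V → V} {x z : V}
    {φ : Finset (V × V) → Finset (Finset V) → ℕ} {Q : Finset (V × V)} {Ps : Finset (Finset V)}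
    (h : PkPP G (C x) (H x) tl φ Q Ps)
    (h32 : ∀ v ∈ H x, ∀ w ∈ H x, ∀ a ∈ C x, v ≠ w → tl v = tl w →
      ¬ G.Adj v a → ¬ G.Adj w a → G.Adj v w) (hHC : Disjoint (H x) (C x))
    {K : Finset (Itm V)} (hK : K ⊆ pkf Q Ps) (hk : ∀ u ∈ K, ikp tl z u ≠ 0)
    (h1 : ∀ u ∈ K, ivl u = 1) :
    (K.card : ℤ) * (K.card - 1) - (∑ u ∈ K, (ipc u : ℤ)) * (∑ u ∈ K, (ipc u : ℤ) - 1)
      ≤ E G (cpt C tl K x z) := by
  have hcard : ∀ P : Finset V, (Sum.inl P : Itm V) ∈ K → P.card = 2 := by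
    intro P hP
    have h2 := (inl_mem_pkf.1 (hK hP)).2
    have h3 : P.card - 1 = 1 := h1 _ hP
    omega
  have hin : ∀ P : Finset V, (Sum.inl P : Itm V) ∈ K → ∀ v ∈ P, v ∈ cpt C tl K x z := by
    intro P hP v hv
    have h2 := rpts_two (hcard P hP) (hk _ hP) hv
    refine mem_sdiff.2 ⟨mem_biUnion.2 ⟨_, hP, h2⟩, fun h3 => ?_⟩
    exact disjoint_left.1 hHC (h.sub P (inl_mem_pkf.1 (hK hP)).1 hv) h3
  have hin' : ∀ e : V × V, (Sum.inr e : Itm V) ∈ K → e.1 ∈ cpt C tl K x z := by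
    intro e he
    refine mem_sdiff.2 ⟨mem_biUnion.2 ⟨_, he, mem_insert_self _ _⟩, fun h3 => ?_⟩
    exact disjoint_left.1 hHC (h.bH e (inr_mem_pkf.1 (hK he))) h3
  set L : Finset (Itm V × Itm V) := (K ×ˢ K).filter fun q => q.1 ≠ q.2 ∧
    ¬ (ipc q.1 = 1 ∧ ipc q.2 = 1) with hL
  -- the adjacent pairs
  have key : ∀ q ∈ L, ∃ p : V × V, (p.1 ∈ imem q.1 ∧ p.2 ∈ imem q.2) ∧
      (p.1 ∈ cpt C tl K x z ∧ p.2 ∈ cpt C tl K x z) ∧ G.Adj p.1 p.2 := by
    rintro ⟨u, v⟩ hq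
    obtain ⟨hq1, hne, hpc⟩ := mem_filter.1 hq
    obtain ⟨hu, hv⟩ := mem_product.1 hq1
    simp only at hne hpc hu hv
    rcases u with P | e <;> rcases v with P' | e'
    · obtain ⟨a, ha, b, hb, hab, -⟩ := h.toPk.edgeN h.min h32 (inl_mem_pkf.1 (hK hu)).1
        (inl_mem_pkf.1 (hK hv)).1 (fun h2 => hne (by rw [h2]))
      exact ⟨(a, b), ⟨ha, hb⟩, ⟨hin P hu a ha, hin P' hv b hb⟩, hab⟩
    · obtain ⟨a, ha, hab⟩ := h.nbr (inr_mem_pkf.1 (hK hv)) (inl_mem_pkf.1 (hK hu)).1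
      exact ⟨(a, e'.1), ⟨ha, mem_singleton_self _⟩, ⟨hin P hu a ha, hin' e' hv⟩, hab.symm⟩
    · obtain ⟨a, ha, hab⟩ := h.nbr (inr_mem_pkf.1 (hK hu)) (inl_mem_pkf.1 (hK hv)).1
      exact ⟨(e.1, a), ⟨mem_singleton_self _, ha⟩, ⟨hin' e hu, hin P' hv a ha⟩, hab⟩
    · exact absurd ⟨rfl, rfl⟩ hpc
  have huniq : ∀ u ∈ K, ∀ v ∈ K, ∀ w, w ∈ imem u → w ∈ imem v → u = v := by
    intro u hu v hv w hwu hwv
    rcases u with P | e <;> rcases v with P' | e'
    · rw [h.toPk.part_eq (inl_mem_pkf.1 (hK hu)).1 (inl_mem_pkf.1 (hK hv)).1 hwu hwv]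
    · simp only [imem, mem_singleton] at hwu hwv
      exact absurd (hwv ▸ hwu) (h.dw e' (inr_mem_pkf.1 (hK hv)) P (inl_mem_pkf.1 (hK hu)).1)
    · simp only [imem, mem_singleton] at hwu hwv
      exact absurd (hwu ▸ hwv) (h.dw e (inr_mem_pkf.1 (hK hu)) P' (inl_mem_pkf.1 (hK hv)).1)
    · simp only [imem, mem_singleton] at hwu hwv
      rw [h.b1 e (inr_mem_pkf.1 (hK hu)) e' (inr_mem_pkf.1 (hK hv)) (hwu.symm.trans hwv)]
  have hEc : (L.card : ℤ) ≤ E G (cpt C tl K x z) := by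
    have h2 : L.card ≤ E G (cpt C tl K x z) := by
      have h3 : E G (cpt C tl K x z)
          = ((cpt C tl K x z ×ˢ cpt C tl K x z).filter fun p => G.Adj p.1 p.2).card := by
        unfold E dg
        rw [card_filter, sum_product]
        exact sum_congr rfl fun v _ => card_filter _ _
      rw [h3]
      rcases L.eq_empty_or_nonempty with h0 | ⟨q0, hq0⟩
      · rw [h0, card_empty]
        exact Nat.zero_le _
      obtain ⟨p0, -⟩ := key q0 hq0
      have : Nonempty V := ⟨p0.1⟩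
      choose! f hf1 hf2 hf3 using key
      refine card_le_card_of_injOn f ?_ ?_
      · intro q hq
        have hq' : q ∈ L := by exact_mod_cast hq
        have : f q ∈ (cpt C tl K x z ×ˢ cpt C tl K x z).filter fun p => G.Adj p.1 p.2 :=
          mem_filter.2 ⟨mem_product.2 (hf2 q hq'), hf3 q hq'⟩
        exact_mod_cast this
      · intro q hq q' hq' hqq
        have h4 : q ∈ L := by exact_mod_cast hq
        have h5 : q' ∈ L := by exact_mod_cast hq'
        obtain ⟨a1, a2⟩ := mem_product.1 (mem_filter.1 h4).1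
        obtain ⟨b1, b2⟩ := mem_product.1 (mem_filter.1 h5).1
        obtain ⟨c1, c2⟩ := hf1 q h4
        obtain ⟨d1, d2⟩ := hf1 q' h5
        rw [← hqq] at d1 d2
        exact Prod.ext (huniq _ a1 _ b1 _ c1 d1) (huniq _ a2 _ b2 _ c2 d2)
    exact_mod_cast h2
  -- the number of these pairs
  set Kp : Finset (Itm V) := K.filter fun u => ipc u = 1 with hKp
  have h01 : ∀ u : Itm V, ipc u = 0 ∨ ipc u = 1 := by
    intro u
    rcases u with P | e <;> simp [ipc]
  have hs : ∑ u ∈ K, (ipc u : ℤ) = (Kp.card : ℤ) := by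
    rw [hKp, card_filter]
    push_cast
    refine sum_congr rfl fun u _ => ?_
    rcases h01 u with h2 | h2 <;> simp [h2]
  have hLc : L.card + Kp.offDiag.card = K.offDiag.card := by
    have h2 : K.offDiag = L ∪ Kp.offDiag := by
      ext q
      simp only [hL, hKp, mem_union, mem_filter, mem_product, mem_offDiag]
      constructor
      · rintro ⟨a1, a2, a3⟩
        by_cases h3 : ipc q.1 = 1 ∧ ipc q.2 = 1
        · exact Or.inr ⟨⟨a1, h3.1⟩, ⟨a2, h3.2⟩, a3⟩
        · exact Or.inl ⟨⟨a1, a2⟩, a3, h3⟩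
      · rintro (⟨⟨a1, a2⟩, a3, -⟩ | ⟨⟨a1, -⟩, ⟨a2, -⟩, a3⟩)
        · exact ⟨a1, a2, a3⟩
        · exact ⟨a1, a2, a3⟩
    have h3 : Disjoint L Kp.offDiag := by
      rw [disjoint_left]
      intro q hq hq'
      obtain ⟨a1, a2, -⟩ := mem_offDiag.1 hq'
      exact (mem_filter.1 hq).2.2 ⟨(mem_filter.1 a1).2, (mem_filter.1 a2).2⟩
    rw [h2, card_union_of_disjoint h3]
  have hoff : ∀ D : Finset (Itm V), (D.offDiag.card : ℤ) = (D.card : ℤ) * (D.card - 1) := by
    intro D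
    rw [offDiag_card, Nat.cast_sub (Nat.le_mul_self _)]
    push_cast
    ring
  have h5 : (L.card : ℤ) + Kp.offDiag.card = K.offDiag.card := by exact_mod_cast hLc
  rw [hoff, hoff] at h5
  rw [hs]
  linarith

/-- adjacent pairs of a union -/
lemma E_union_ge {X Y : Finset V} (h : Disjoint X Y) : E G X + E G Y ≤ E G (X ∪ Y) := by
  unfold E
  rw [sum_union h]
  refine Nat.add_le_add (sum_le_sum fun v _ => ?_) (sum_le_sum fun v _ => ?_)
  · exact card_le_card (filter_subset_filter _ subset_union_left)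
  · exact card_le_card (filter_subset_filter _ subset_union_right)

/-- a load at `j` comes from a member with tail `j` -/
lemma ikp_ne_tail {tl : V → V} {u : Itm V} (h2 : ∀ Q, u = Sum.inl Q → 2 ≤ Q.card) {j : V}
    (h : ikp tl j u ≠ 0) : ∃ v ∈ imem u, tl v = j := by
  rcases u with Q | e
  · have h3 := h2 Q rfl
    by_cases h4 : tlp tl Q j = Q
    · obtain ⟨v, hv⟩ := card_pos.1 (show 0 < Q.card by omega)
      exact ⟨v, hv, (mem_tlp.1 (h4.symm ▸ hv)).2⟩
    · simp only [ikp, h4, if_false] at h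
      obtain ⟨v, hv⟩ := card_pos.1 (Nat.pos_of_ne_zero h)
      exact ⟨v, (mem_tlp.1 hv).1, (mem_tlp.1 hv).2⟩
  · by_cases h4 : tl e.1 = j
    · exact ⟨e.1, mem_singleton_self _, h4⟩
    · simp only [ikp, h4, if_false] at h
      exact absurd rfl h

end CellS

end Pool.Agent.Lib.MP_f04ccf_co
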