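import Pool.Agent.Lib.MP_f04ccf_co.M.ItY
import Pool.Agent.Lib.MP_f04ccf_co.M.CellS

/-!
MP_f04ccf_co, finite part: the test of any set `B` of rows with clique items hosted outside `B`, all
their points used, with Turan's bound for the missing pairs of these points (`I` any set of rows which
contains the host rows of the items and all rows where they have a load, `q` any integer).
`Fam.tstT`: over the frames, `Fam.tstTI`: over the basic integers, `WHom.tstT`: over the sorted rows.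
-/

set_option autoImplicit false

namespace Pool.Agent.Lib.MP_f04ccf_co

open Finset

attribute [local instance] Classical.propDecidable

section SlotT

variable {V : Type*} {G : SimpleGraph V} {Z T : Finset V} {hm : V → V} {r m t : ℕ}
  {A : Finset V} {S : V → Finset V} {U : V → Finset (Itm V)}

/-- **(tst) with Turan's bound**, clique items -/
theorem Fam.tstT (hF : PFrame G r m t Z T) (hh : Homes G Z T hm) (hP : PG G r)
    (hC : CSys G Z T hm A S)
    (hW : WSysT G (co G) A (CP G Z T S) (HP G Z T S) (tlo G T hm))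
    (h : ∀ x ∈ A, Fam (co G) (CP G Z T S) (HP G Z T S) (tlo G T hm) x (U x))
    {B : Finset V} (hB : B ⊆ A) {K : Finset (Itm V)} (hK : K ⊆ (A \ B).biUnion U)
    (hpc : ∀ u ∈ K, ipc u = 0) {I : Finset V}
    (hI : ∀ x ∈ A, ∀ u ∈ K, u ∈ U x → x ∈ I)
    (hIt : ∀ u ∈ K, ∀ j, ikp (tlo G T hm) j u ≠ 0 → j ∈ I) (q : ℤ) :
    2 * ((r : ℤ) - B.card) * ∑ x ∈ B, (((S x).card : ℤ) - r)
      + ∑ x ∈ B, ∑ y ∈ B.erase x, ∑ v ∈ S y, (dg G (S x) v : ℤ)
      + ∑ x ∈ B, (((S x).card : ℤ) - r) ^ 2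
      + 2 * ∑ u ∈ K, ∑ z ∈ B, iht G (CP G Z T S) (tlo G T hm) z u
      ≤ ∑ x ∈ B, (NE G (S x) : ℤ) + B.card * (B.card - 1) * r
        + (∑ x ∈ B, (((S x).card : ℤ) - r)) ^ 2
        + (∑ u ∈ K, ((ivl u : ℤ) + 1)) * (∑ u ∈ K, ((ivl u : ℤ) + 1) - 1)
        - 2 * q * (∑ u ∈ K, ((ivl u : ℤ) + 1)) + I.card * (q * (q + 1))
        + 2 * (∑ u ∈ K, ((ivl u : ℤ) + 1)) * (B.card + ∑ x ∈ B, (((S x).card : ℤ) - r)) := by
  have key : ∀ u ∈ K, ∃ x ∈ A, u ∈ U x := fun u hu => by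
    obtain ⟨x, hx, hux⟩ := mem_biUnion.1 (hK hu)
    exact ⟨x, (mem_sdiff.1 hx).1, hux⟩
  have h1 := hC.tst_grp hP hB (W := K.biUnion ipts) (fun x hx => Fam.disj_pts hC h hB hK hx)
    (I := fun z => K.filter fun u => ikp (tlo G T hm) z u ≠ 0)
    (P := fun z => rpts (tlo G T hm) (oth (tlo G T hm) z) z)
    (k := fun z u => (ikp (tlo G T hm) z u : ℤ))
    (df := fun z u c => if c ∈ rcl G (CP G Z T S) (tlo G T hm) (oth (tlo G T hm) z) z u
      then 1 else 0)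
    (fun z _ => Fam.grp hW h (D := A \ B) sdiff_subset hK fun _ => subset_rfl)
    (fun z _ => by
      refine biUnion_subset.2 fun u hu => ?_
      rw [rpts_oth]
      exact subset_biUnion_of_mem ipts (mem_filter.1 hu).1)
  simp only [← sum_iht_filter] at h1
  rw [sum_comm (s := B) (t := K)] at h1
  -- the items are cliques
  have hinl : ∀ u ∈ K, ipts u = imem u := by
    intro u hu
    have h2 := hpc u hu
    rcases u with Q | e
    · rfl
    · simp [ipc] at h2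
  have hmem : ∀ u ∈ K, ∀ x ∈ A, u ∈ U x → ∀ v ∈ ipts u, v ∈ HP G Z T S x := by
    intro u hu x hx hux v hv
    rw [hinl u hu] at hv
    exact (h x hx).imem_sub hux hv
  have hdis : ∀ u ∈ K, ∀ v ∈ K, u ≠ v → Disjoint (ipts u) (ipts v) := by
    intro u hu v hv huv
    obtain ⟨x, hx, hux⟩ := key u hu
    obtain ⟨y, hy, hvy⟩ := key v hv
    by_cases hxy : x = y
    · subst hxy
      rw [hinl u hu, hinl v hv]
      exact (h x hx).dis u hux v hvy huv
    · rw [disjoint_left]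
      intro w hw hw'
      exact disjoint_left.1 (hW.dHH x hx y hy hxy) (hmem u hu x hx hux w hw)
        (hmem v hv y hy hvy w hw')
  have hcard : ((K.biUnion ipts).card : ℤ) = ∑ u ∈ K, ((ivl u : ℤ) + 1) := by
    rw [card_biUnion hdis]
    push_cast
    refine sum_congr rfl fun u hu => ?_
    obtain ⟨x, hx, hux⟩ := key u hu
    have h2 := hpc u hu
    rcases u with Q | e
    · have h3 := (h x hx).two Q hux
      simp only [ipts, ivl]
      have h4 : Q.card - 1 + 1 = Q.card := by omega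
      exact_mod_cast h4.symm
    · simp [ipc] at h2
  have hWZ : K.biUnion ipts ⊆ Z := by
    refine biUnion_subset.2 fun u hu v hv => ?_
    obtain ⟨x, hx, hux⟩ := key u hu
    exact hC.subZ hx (HP_sub (hmem u hu x hx hux v hv))
  have h2 := hF.NE_rows (I := I) hWZ (fun v hv => by
    obtain ⟨u, hu, hvu⟩ := mem_biUnion.1 hv
    obtain ⟨x, hx, hux⟩ := key u hu
    have h3 := hmem u hu x hx hux v hvu
    rw [hC.rws_HP hh hx h3]
    intro j hj
    rcases mem_insert.1 hj with h4 | h4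
    · exact h4 ▸ hI x hx u hu hux
    · rw [mem_singleton.1 h4]
      refine hIt u hu _ ?_
      have h5 := hpc u hu
      rcases u with Q | e
      · have h6 : v ∈ tlp (tlo G T hm) Q (tlo G T hm v) := mem_tlp.2 ⟨hvu, rfl⟩
        have h7 := (h x hx).two Q hux
        have h8 : 0 < (tlp (tlo G T hm) Q (tlo G T hm v)).card := card_pos.2 ⟨v, h6⟩
        simp only [ikp]
        split_ifs <;> omega
      · simp [ipc] at h5) q
  rw [hcard] at h1 h2
  linarith

/-- **over the basic integers** -/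
theorem Fam.tstTI {S : Finset V} (hF : PFrame G r m t Z T) (hh : Homes G Z T hm) (hP : PG G r)
    (hC : CSys G Z T hm A fun x => S.filter fun v => hm v = x)
    (hW : WSysT G (co G) A (CP G Z T fun x => S.filter fun v => hm v = x)
      (HP G Z T fun x => S.filter fun v => hm v = x) (tlo G T hm)) {U : V → Finset (Itm V)}
    (h : ∀ x ∈ A, Fam (co G) (CP G Z T fun x => S.filter fun v => hm v = x)
      (HP G Z T fun x => S.filter fun v => hm v = x) (tlo G T hm) x (U x))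
    {B : Finset V} (hB : B ⊆ A) {K : Finset (Itm V)} (hK : K ⊆ (A \ B).biUnion U)
    (hpc : ∀ u ∈ K, ipc u = 0) {I : Finset V}
    (hI : ∀ x ∈ A, ∀ u ∈ K, u ∈ U x → x ∈ I)
    (hIt : ∀ u ∈ K, ∀ j, ikp (tlo G T hm) j u ≠ 0 → j ∈ I) (q : ℤ) :
    2 * ((r : ℤ) - B.card) * ∑ x ∈ B, sI hm r S x
      + ∑ x ∈ B, ∑ y ∈ B.erase x, EI G hm S x y + ∑ x ∈ B, sI hm r S x ^ 2
      + 2 * ∑ u ∈ K, ∑ z ∈ B, ((ikp (tlo G T hm) z u : ℤ) * ((r : ℤ) - 1 - tI G Z T hm r S z)
          - ims G (CP G Z T fun x => S.filter fun v => hm v = x) (tlo G T hm) z u)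
      ≤ 2 * ∑ x ∈ B, eI G hm S x + B.card * (B.card - 1) * r + (∑ x ∈ B, sI hm r S x) ^ 2
        + (∑ u ∈ K, ((ivl u : ℤ) + 1)) * (∑ u ∈ K, ((ivl u : ℤ) + 1) - 1)
        - 2 * q * (∑ u ∈ K, ((ivl u : ℤ) + 1)) + I.card * (q * (q + 1))
        + 2 * (∑ u ∈ K, ((ivl u : ℤ) + 1)) * (B.card + ∑ x ∈ B, sI hm r S x) := by
  have hcard : ∀ x, ((CP G Z T (fun x => S.filter fun v => hm v = x) x).card : ℤ)
      = (r : ℤ) - 1 - tI G Z T hm r S x := fun x => card_CP_eq S x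
  have hht : ∀ (z : V) (u : Itm V), (ikp (tlo G T hm) z u : ℤ)
        * ((r : ℤ) - 1 - tI G Z T hm r S z)
        - (ims G (CP G Z T fun x => S.filter fun v => hm v = x) (tlo G T hm) z u : ℤ)
      = iht G (CP G Z T fun x => S.filter fun v => hm v = x) (tlo G T hm) z u := by
    intro z u
    unfold iht
    rw [← hcard z]
    ring
  have h4 := Fam.tstT hF hh hP hC hW h hB hK hpc hI hIt q
  have h5 : ∑ x ∈ B, (NE G (S.filter fun v => hm v = x) : ℤ) = 2 * ∑ x ∈ B, eI G hm S x := by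
    rw [mul_sum]
    exact sum_congr rfl fun x _ => (two_eI S x).symm
  rw [h5] at h4
  have h6 : ∑ u ∈ K, ∑ z ∈ B, ((ikp (tlo G T hm) z u : ℤ) * ((r : ℤ) - 1 - tI G Z T hm r S z)
      - (ims G (CP G Z T fun x => S.filter fun v => hm v = x) (tlo G T hm) z u : ℤ))
      = ∑ u ∈ K, ∑ z ∈ B,
        iht G (CP G Z T fun x => S.filter fun v => hm v = x) (tlo G T hm) z u :=
    sum_congr rfl fun u _ => sum_congr rfl fun z _ => hht z u
  rw [h6]
  exact h4

end SlotT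

section TransT

variable {V : Type*} {G : SimpleGraph V} {Z T : Finset V} {hm : V → V} {r m n : ℕ}
  {B : V → Finset (V × V)} {Ps : V → Finset (Finset V)} {host : Itm V → V} {ρ : V → ℕ} {σ : ℕ → V}

/-- **over the sorted rows**: `D` the set of rows, `K` clique items hosted outside `D`, `I` contains
their hosts and all rows where they have a load -/
theorem WHom.tstT (h : WHom G Z T r m n hm)
    (hpk : ∀ x ∈ T, Pk G (cz G Z T hm x) (hz G Z T hm x) (tlo G T hm) (B x) (Ps x))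
    (hst : ∀ x ∈ T, ∀ u ∈ pkf (B x) (Ps x), host u = x)
    (rk : Rank T (tI G Z T hm r Z) ρ σ) {D : Finset ℕ} (hD : D ⊆ range n) {K : Finset (Itm V)}
    (hK : K ⊆ T.biUnion fun x => pkf (B x) (Ps x)) (hKh : ∀ u ∈ K, ρ (host u) ∉ D)
    (hpc : ∀ u ∈ K, (ipc u : ℤ) = 0) {I : Finset ℕ} (hI : ∀ u ∈ K, ρ (host u) ∈ I)
    (hIt : ∀ u ∈ K, ∀ l < n, (ikp (tlo G T hm) (σ l) u : ℤ) ≠ 0 → l ∈ I) (q : ℤ) :
    2 * ((r : ℤ) - 1 + 1 - D.card) * ∑ i ∈ D, sI hm r Z (σ i)
      + ∑ i ∈ D, ∑ j ∈ D.erase i, EI G hm Z (σ i) (σ j) + ∑ i ∈ D, sI hm r Z (σ i) ^ 2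
      + 2 * ∑ u ∈ K, ∑ i ∈ D, ((ikp (tlo G T hm) (σ i) u : ℤ)
            * ((r : ℤ) - 1 - tI G Z T hm r Z (σ i))
          - ims G (cz G Z T hm) (tlo G T hm) (σ i) u)
      ≤ 2 * ∑ i ∈ D, eI G hm Z (σ i) + D.card * (D.card - 1) * ((r : ℤ) - 1 + 1)
        + (∑ i ∈ D, sI hm r Z (σ i)) ^ 2
        + (∑ u ∈ K, ((ivl u : ℤ) + 1)) * (∑ u ∈ K, ((ivl u : ℤ) + 1) - 1)
        - 2 * q * (∑ u ∈ K, ((ivl u : ℤ) + 1)) + I.card * (q * (q + 1))
        + 2 * (∑ u ∈ K, ((ivl u : ℤ) + 1)) * (D.card + ∑ i ∈ D, sI hm r Z (σ i)) := by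
  have hcard := h.cardT
  have hfam : ∀ x ∈ T, Fam (co G) (cz G Z T hm) (hz G Z T hm) (tlo G T hm) x
      (pkf (B x) (Ps x)) := fun x hx => (hpk x hx).fam (h.csys.dCH hx hx).symm
  have hD' : D ⊆ range T.card := by rw [hcard]; exact hD
  have hsub : D.image σ ⊆ T := rk.image_sub hD'
  have hKx : ∀ u ∈ K, ∀ x ∈ T, u ∈ pkf (B x) (Ps x) → host u = x := fun u _ x hx hux =>
    hst x hx u hux
  have hK' : K ⊆ (T \ D.image σ).biUnion fun x => pkf (B x) (Ps x) := by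
    intro u hu
    obtain ⟨x, hx, hux⟩ := mem_biUnion.1 (hK hu)
    refine mem_biUnion.2 ⟨x, mem_sdiff.2 ⟨hx, fun h1 => ?_⟩, hux⟩
    obtain ⟨i, hi, h2⟩ := mem_image.1 h1
    apply hKh u hu
    rw [hKx u hu x hx hux, ← h2, rk.right i (mem_range.1 (hD' hi))]
    exact hi
  have hT : ∀ x ∈ T, ∀ u ∈ pkf (B x) (Ps x), ∀ y, ikp (tlo G T hm) y u ≠ 0 →
      ρ y < n ∧ σ (ρ y) = y := by
    intro x hx u hu y hy
    obtain ⟨v, hv, hvy⟩ := ikp_ne_tail (fun Q hQ => (hfam x hx).two Q (hQ ▸ hu)) hy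
    have hvH : v ∈ hz G Z T hm x := by
      rcases u with Q | e
      · exact (hfam x hx).sub Q hu hv
      · simp only [imem, mem_singleton] at hv
        exact hv ▸ (hfam x hx).pcH e hu
    have h5 := mem_of_mem_erase (h.ht x hx v hvH)
    rw [hvy] at h5
    exact ⟨by rw [← hcard]; exact rk.lt y h5, rk.left y h5⟩
  have h1 := Fam.tstTI h.F.toPFrame h.hh h.gp.P h.csys h.wsysT hfam hsub hK'
    (fun u hu => by exact_mod_cast hpc u hu) (I := I.image σ)
    (fun x hx u hu hux => by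
      refine mem_image.2 ⟨ρ (host u), hI u hu, ?_⟩
      rw [hKx u hu x hx hux]
      exact rk.left x hx)
    (fun u hu y hy => by
      obtain ⟨x, hx, hux⟩ := mem_biUnion.1 (hK hu)
      obtain ⟨b1, b2⟩ := hT x hx u hux y hy
      refine mem_image.2 ⟨ρ y, hIt u hu (ρ y) b1 ?_, b2⟩
      rw [b2]
      exact_mod_cast hy) q
  rw [rk.card_image hD', rk.sum2_im hD' (EI G hm Z), rk.sum_im hD' (sI hm r Z),
    rk.sum_im hD' (eI G hm Z), rk.sum_im hD' fun x => sI hm r Z x ^ 2] at h1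
  have e1 : ∀ u ∈ K, ∑ z ∈ D.image σ,
      ((ikp (tlo G T hm) z u : ℤ) * ((r : ℤ) - 1 - tI G Z T hm r Z z)
        - ims G (CP G Z T fun x => Z.filter fun v => hm v = x) (tlo G T hm) z u)
      = ∑ i ∈ D, ((ikp (tlo G T hm) (σ i) u : ℤ) * ((r : ℤ) - 1 - tI G Z T hm r Z (σ i))
        - ims G (CP G Z T fun x => Z.filter fun v => hm v = x) (tlo G T hm) (σ i) u) :=
    fun u _ => rk.sum_im hD' _
  rw [sum_congr rfl e1] at h1
  have h2 : ((I.image σ).card : ℤ) * (q * (q + 1)) ≤ (I.card : ℤ) * (q * (q + 1)) := by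
    refine mul_le_mul_of_nonneg_right (by exact_mod_cast card_image_le) ?_
    rcases le_or_gt 0 q with h3 | h3
    · exact mul_nonneg h3 (by linarith)
    · have h4 : 0 ≤ (-q) * (-(q + 1)) := mul_nonneg (by linarith) (by linarith)
      linarith
  have er : (r : ℤ) - 1 + 1 = r := by ring
  rw [er]
  have h3 : ∑ u ∈ K, ∑ i ∈ D, ((ikp (tlo G T hm) (σ i) u : ℤ)
            * ((r : ℤ) - 1 - tI G Z T hm r Z (σ i))
          - ims G (cz G Z T hm) (tlo G T hm) (σ i) u)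
      = ∑ u ∈ K, ∑ i ∈ D, ((ikp (tlo G T hm) (σ i) u : ℤ)
            * ((r : ℤ) - 1 - tI G Z T hm r Z (σ i))
        - ims G (CP G Z T fun x => Z.filter fun v => hm v = x) (tlo G T hm) (σ i) u) := rfl
  rw [h3]
  linarith

end TransT

end Pool.Agent.Lib.MP_f04ccf_co
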