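import Pool.Agent.Lib.MP_f04ccf_co.S2Top

/-!
MP_f04ccf_co, the star worlds (notes 17913, 17963): the system of the hub.  `S` is the slot of the hub
(its class `C` and the doubles of the hub), `rows` are the four other rows, all with classes of size `R`,
`tl v` is the tail of the double `v`, `d z v` is the number of neighbours of `v` in the class of `z`.
-/

set_option autoImplicit false

namespace Pool.Agent.Lib.MP_f04ccf_co

open Finset

attribute [local instance] Classical.propDecidable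

variable {V : Type*}

/-- the system of the hub -/
structure StarSys (R : ℕ) (G : SimpleGraph V) (S C rows : Finset V) (act : V → Prop) (tl : V → V)
    (d : V → V → ℕ) : Prop where
  cs : C ⊆ S
  tlr : ∀ v ∈ S, v ∉ C → tl v ∈ rows
  low : ∀ W ⊆ S, 2 * (R : ℤ) * ((W.card : ℤ) - R - 1) ≤ NE G W
  up : ∀ z ∈ rows, act z → ∀ W ⊆ S, 2 * ∑ v ∈ W, d z v ≤ 2 * R + NE G W
  tot : ∀ z ∈ rows, act z → ∀ W ⊆ S,
    2 * ∑ v ∈ W, (d z v : ℤ) + 2 * R * ((W.card : ℤ) - R - 3) ≤ NE G W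
  ina : ∀ z ∈ rows, ¬ act z → ∀ p ∈ S, ∀ q ∈ S, p ≠ q → d z p + d z q ≤ 5
  eqt : ∀ p ∈ S, p ∉ C → ∀ q ∈ S, q ∉ C → p ≠ q → ¬ G.Adj p q → tl p = tl q →
    R ≤ d (tl p) p + d (tl p) q
  arc : ∀ p ∈ S, p ∉ C → ∀ a ∈ C, ¬ G.Adj p a → R ≤ d (tl p) p + d (tl p) a
  crs : ∀ p ∈ S, p ∉ C → ∀ q ∈ S, q ∉ C → ¬ G.Adj p q → tl p ≠ tl q →
    (R - (d (tl p) p + d (tl p) q)) * (R - (d (tl q) p + d (tl q) q)) ≤ R
  clq : Clq G C
  tri : ∀ p ∈ S, p ∉ C → ∀ q ∈ S, q ∉ C → p ≠ q → tl p = tl q → ∀ y ∈ S, y ≠ p → y ≠ q →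
    (y ∈ C ∨ tl y = tl p) → G.Adj p q ∨ G.Adj p y ∨ G.Adj q y
  /-- the hub itself -/
  hub : ∃ x ∈ C, (∀ v ∈ S, v ≠ x → G.Adj x v) ∧ ∀ z ∈ rows, d z x = 0
  /-- the doubles with a given tail -/
  hl : ∀ z ∈ rows, (S.filter fun v => v ∉ C ∧ tl v = z).card + 3 ≤ R
  /-- no six points are independent -/
  al : AlphaLe G S 5

end Pool.Agent.Lib.MP_f04ccf_co
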