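import Pool.Agent.Lib.MP_f04ccf_co.M.StarR
import Pool.Agent.Lib.MP_f04ccf_co.M.StarS

/-!
MP_f04ccf_co, the star worlds (notes 17871, 17910): the counting.

`StarSys` (M/StarS): the facts about the slot `S = C u H` of the hub and the four other rows: `d z v` is
the number of neighbours of `v` in the clique of the row `z`, `tl v` the tail of the point `v` of `H`.
`StarSys.false`: there is none with few missing pairs, `R = 9 .. 12`.

Each missing pair is paid by the rows of its tails (`wz`, two units), each row with a missing pair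
between a point with this tail and `C` is a star, the other rows by the finite check of `M/StarR`.
-/

set_option autoImplicit false

namespace Pool.Agent.Lib.MP_f04ccf_co

open Finset

attribute [local instance] Classical.propDecidable

section StarD

variable {V : Type*} {G : SimpleGraph V} {R : ℕ} {S C rows : Finset V} {act : V → Prop}
  {tl : V → V} {d : V → V → ℕ}

/-- the tail of `v` is the row `z` -/
def Dz (C : Finset V) (tl : V → V) (z v : V) : Prop := v ∉ C ∧ tl v = z

variable (G R C tl d) in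
/-- what the row `z` pays for the pair `p`, `q` -/
noncomputable def wz (z p q : V) : ℕ :=
  if p ≠ q ∧ ¬ G.Adj p q then
    (if Dz C tl z p then (if Dz C tl z q then 2 else StR.wt R (d z p + d z q))
     else (if Dz C tl z q then StR.wt R (d z p + d z q) else 0))
  else 0

lemma wt_ne {R u : ℕ} (h : StR.wt R u ≠ 0) : R ≤ u + 3 := by
  rw [StR.wt_val] at h
  by_contra hcon
  rw [if_neg (by omega), if_neg (by omega)] at h
  exact h rfl

lemma wt_two {R u : ℕ} (h : R ≤ u + 2) : StR.wt R u = 2 := by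
  rw [StR.wt_val, if_pos h]

lemma wt_one {R u : ℕ} (h : R ≤ u + 3) : 1 ≤ StR.wt R u := by
  rw [StR.wt_val]
  split_ifs <;> omega

lemma wt_le {R u : ℕ} : StR.wt R u ≤ 2 := by
  rw [StR.wt_val]
  split_ifs <;> omega

lemma wt_pair {R u u' : ℕ} (h9 : 9 ≤ R) (h12 : R ≤ 12) (h : (R - u) * (R - u') ≤ R) :
    2 ≤ StR.wt R u + StR.wt R u' := by
  by_cases h1 : R ≤ u + 2
  · rw [wt_two h1]; omega
  by_cases h2 : R ≤ u' + 2
  · rw [wt_two h2]; omega
  obtain ⟨x, hx⟩ : ∃ x, R - u = x := ⟨_, rfl⟩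
  obtain ⟨y, hy⟩ : ∃ y, R - u' = y := ⟨_, rfl⟩
  rw [hx, hy] at h
  have h3 : 3 ≤ x := by omega
  have h4 : 3 ≤ y := by omega
  by_cases h5 : R ≤ 11
  · have h6 : x = 3 := by nlinarith
    have h7 : y = 3 := by nlinarith
    have h8 := wt_one (R := R) (u := u) (by omega)
    have h9 := wt_one (R := R) (u := u') (by omega)
    omega
  · have h6 : R = 12 := by omega
    have h7 : x ≤ 3 ∨ y ≤ 3 := by
      by_contra hcon
      push Not at hcon
      nlinarith [hcon.1, hcon.2]
    rcases h7 with h7 | h7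
    · have h8 : StR.wt R u = 2 := by
        rw [StR.wt_val, if_neg h1, if_pos (by omega), if_pos (by omega)]
      omega
    · have h8 : StR.wt R u' = 2 := by
        rw [StR.wt_val, if_neg h2, if_pos (by omega), if_pos (by omega)]
      omega

lemma NE_adj_le {W : Finset V} {p q : V} (hp : p ∈ W) (hq : q ∈ W) (h : G.Adj p q) :
    NE G W + 2 ≤ W.card * (W.card - 1) := by
  have h1 := E_add_NE (G := G) W
  have h2 : 2 ≤ E G W := by
    have hne : p ≠ q := h.ne
    have h3 : ∑ v ∈ ({p, q} : Finset V), dg G W v ≤ E G W :=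
      sum_le_sum_of_subset (by
        intro v hv
        rw [mem_insert, mem_singleton] at hv
        rcases hv with rfl | rfl
        · exact hp
        · exact hq)
    rw [sum_pair hne] at h3
    have h4 : 1 ≤ dg G W p := card_pos.2 ⟨q, mem_filter.2 ⟨hq, h⟩⟩
    have h5 : 1 ≤ dg G W q := card_pos.2 ⟨p, mem_filter.2 ⟨hp, h.symm⟩⟩
    omega
  have h3 : 1 ≤ W.card := card_pos.2 ⟨p, hp⟩
  obtain ⟨k, hk⟩ : ∃ k, W.card = k + 1 := ⟨W.card - 1, by omega⟩
  rw [hk] at h1 ⊢
  have h4 : (NE G W : ℤ) + 2 ≤ ((k + 1 : ℕ) : ℤ) * k := by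
    have h5 : (2 : ℤ) ≤ E G W := by exact_mod_cast h2
    push_cast at h1 ⊢
    linarith
  have h6 : k + 1 - 1 = k := rfl
  rw [h6]
  exact_mod_cast h4

lemma nd_eq_sum (W : Finset V) (p : V) :
    nd G W p = ∑ q ∈ W, if p ≠ q ∧ ¬ G.Adj p q then 1 else 0 := by
  unfold nd
  rw [card_filter]
  exact sum_congr rfl fun q _ => by simp only [ne_comm]

/-- three points of a row -/
lemma StarSys.three (H : StarSys R G S C rows act tl d) {z : V} (hz : z ∈ rows) (ha : act z)
    {c p q : V} (hc : c ∈ S) (hp : p ∈ S) (hq : q ∈ S) (h1 : c ≠ p) (h2 : c ≠ q) (h3 : p ≠ q) :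
    d z c + d z p + d z q ≤ R + 3 ∧
      ((G.Adj c p ∨ G.Adj c q ∨ G.Adj p q) → d z c + d z p + d z q ≤ R + 2) := by
  have hc' : ({c, p, q} : Finset V).card = 3 := card_eq_three.2 ⟨c, p, q, h1, h2, h3, rfl⟩
  have hs : ({c, p, q} : Finset V) ⊆ S := by
    intro v hv
    rw [mem_insert, mem_insert, mem_singleton] at hv
    rcases hv with rfl | rfl | rfl <;> assumption
  have h4 := H.up z hz ha _ hs
  have h5 : ∑ v ∈ ({c, p, q} : Finset V), d z v = d z c + (d z p + d z q) := by
    rw [sum_insert (by simp [h1, h2]), sum_pair h3]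
  rw [h5] at h4
  have h6 := NE_le (G := G) ({c, p, q} : Finset V)
  rw [hc'] at h6
  refine ⟨by omega, fun h => ?_⟩
  have m1 : c ∈ ({c, p, q} : Finset V) := by simp
  have m2 : p ∈ ({c, p, q} : Finset V) := by simp
  have m3 : q ∈ ({c, p, q} : Finset V) := by simp
  have h7 : NE G ({c, p, q} : Finset V) + 2 ≤ 6 := by
    rcases h with h | h | h
    · have := NE_adj_le m1 m2 h; rw [hc'] at this; omega
    · have := NE_adj_le m1 m3 h; rw [hc'] at this; omega
    · have := NE_adj_le m2 m3 h; rw [hc'] at this; omega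
  omega

/-- four points of a row -/
lemma StarSys.four (H : StarSys R G S C rows act tl d) {z : V} (hz : z ∈ rows) (ha : act z)
    {a b p q : V} (hha : a ∈ S) (hb : b ∈ S) (hp : p ∈ S) (hq : q ∈ S) (h1 : a ≠ b) (h2 : a ≠ p)
    (h3 : a ≠ q) (h4 : b ≠ p) (h5 : b ≠ q) (h6 : p ≠ q) :
    d z a + d z b + (d z p + d z q) ≤ R + 6 ∧
      ((G.Adj a b ∨ G.Adj a p ∨ G.Adj b p) → d z a + d z b + (d z p + d z q) ≤ R + 5) := by
  have hc' : ({a, b, p, q} : Finset V).card = 4 := by
    rw [card_insert_of_notMem (by simp [h1, h2, h3]),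
      card_eq_three.2 ⟨b, p, q, h4, h5, h6, rfl⟩]
  have hs : ({a, b, p, q} : Finset V) ⊆ S := by
    intro v hv
    rw [mem_insert, mem_insert, mem_insert, mem_singleton] at hv
    rcases hv with rfl | rfl | rfl | rfl <;> assumption
  have h7 := H.up z hz ha _ hs
  have h8 : ∑ v ∈ ({a, b, p, q} : Finset V), d z v = d z a + (d z b + (d z p + d z q)) := by
    rw [sum_insert (by simp [h1, h2, h3]), sum_insert (by simp [h4, h5]), sum_pair h6]
  rw [h8] at h7
  have h9 := NE_le (G := G) ({a, b, p, q} : Finset V)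
  rw [hc'] at h9
  refine ⟨by omega, fun h => ?_⟩
  have m1 : a ∈ ({a, b, p, q} : Finset V) := by simp
  have m2 : b ∈ ({a, b, p, q} : Finset V) := by simp
  have m3 : p ∈ ({a, b, p, q} : Finset V) := by simp
  have h7 : NE G ({a, b, p, q} : Finset V) + 2 ≤ 12 := by
    rcases h with h | h | h
    · have := NE_adj_le m1 m2 h; rw [hc'] at this; omega
    · have := NE_adj_le m1 m3 h; rw [hc'] at this; omega
    · have := NE_adj_le m2 m3 h; rw [hc'] at this; omega
  omega

/-- what a paid pair satisfies -/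
lemma StarSys.wz_ne (H : StarSys R G S C rows act tl d) {z p q : V}
    (hp : p ∈ S) (hq : q ∈ S) (h : wz G R C tl d z p q ≠ 0) :
    p ≠ q ∧ ¬ G.Adj p q ∧ (Dz C tl z p ∨ Dz C tl z q) ∧ R ≤ d z p + d z q + 3 ∧
      ((Dz C tl z p ∧ Dz C tl z q) → R ≤ d z p + d z q) := by
  unfold wz at h
  by_cases h1 : p ≠ q ∧ ¬ G.Adj p q
  · rw [if_pos h1] at h
    have hfull : (Dz C tl z p ∧ Dz C tl z q) → R ≤ d z p + d z q := by
      rintro ⟨⟨h2, h3⟩, h4, h5⟩
      have h6 := H.eqt p hp h2 q hq h4 h1.1 h1.2 (h3.trans h5.symm)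
      rwa [h3] at h6
    by_cases h2 : Dz C tl z p
    · rw [if_pos h2] at h
      by_cases h3 : Dz C tl z q
      · have := hfull ⟨h2, h3⟩
        exact ⟨h1.1, h1.2, Or.inl h2, by omega, hfull⟩
      · rw [if_neg h3] at h
        exact ⟨h1.1, h1.2, Or.inl h2, wt_ne h, hfull⟩
    · rw [if_neg h2] at h
      by_cases h3 : Dz C tl z q
      · rw [if_pos h3] at h
        exact ⟨h1.1, h1.2, Or.inr h3, wt_ne h, hfull⟩
      · rw [if_neg h3] at h
        exact absurd rfl h
  · rw [if_neg h1] at h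
    exact absurd rfl h

/-- **a missing pair is paid** -/
lemma StarSys.paid (H : StarSys R G S C rows act tl d) (h9 : 9 ≤ R) (h12 : R ≤ 12) {p q : V}
    (hp : p ∈ S) (hq : q ∈ S) (hpq : p ≠ q) (hn : ¬ G.Adj p q) :
    2 ≤ ∑ z ∈ rows.filter act, wz G R C tl d z p q := by
  have one : ∀ z, z ∈ rows → act z → 2 ≤ wz G R C tl d z p q →
      2 ≤ ∑ z ∈ rows.filter act, wz G R C tl d z p q := fun z hz ha h =>
    h.trans (single_le_sum (f := fun z => wz G R C tl d z p q) (fun _ _ => Nat.zero_le _)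
      (mem_filter.2 ⟨hz, ha⟩))
  have isact : ∀ z ∈ rows, R ≤ d z p + d z q → act z := by
    intro z hz h
    by_contra hcon
    have := H.ina z hz hcon p hp q hq hpq
    omega
  by_cases hpC : p ∈ C
  · by_cases hqC : q ∈ C
    · exact absurd (H.clq p hpC q hqC hpq) hn
    · have h1 := H.arc q hq hqC p hpC (fun h => hn h.symm)
      have h2 := H.tlr q hq hqC
      have h3 := isact _ h2 (by omega)
      refine one _ h2 h3 ?_
      unfold wz
      rw [if_pos ⟨hpq, hn⟩, if_neg (fun h => h.1 hpC), if_pos ⟨hqC, rfl⟩, wt_two (by omega)]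
  · by_cases hqC : q ∈ C
    · have h1 := H.arc p hp hpC q hqC hn
      have h2 := H.tlr p hp hpC
      have h3 := isact _ h2 (by omega)
      refine one _ h2 h3 ?_
      unfold wz
      rw [if_pos ⟨hpq, hn⟩, if_pos ⟨hpC, rfl⟩, if_neg (fun h => h.1 hqC), wt_two (by omega)]
    · by_cases ht : tl p = tl q
      · have h1 := H.eqt p hp hpC q hq hqC hpq hn ht
        have h2 := H.tlr p hp hpC
        have h3 := isact _ h2 (by omega)
        refine one _ h2 h3 ?_
        unfold wz
        rw [if_pos ⟨hpq, hn⟩, if_pos ⟨hpC, rfl⟩, if_pos ⟨hqC, ht.symm⟩]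
      · have h1 := H.crs p hp hpC q hq hqC hn ht
        have hz := H.tlr p hp hpC
        have hz' := H.tlr q hq hqC
        have w1 : wz G R C tl d (tl p) p q = StR.wt R (d (tl p) p + d (tl p) q) := by
          unfold wz
          rw [if_pos ⟨hpq, hn⟩, if_pos ⟨hpC, rfl⟩, if_neg (fun h => ht h.2.symm)]
        have w2 : wz G R C tl d (tl q) p q = StR.wt R (d (tl q) p + d (tl q) q) := by
          unfold wz
          rw [if_pos ⟨hpq, hn⟩, if_neg (fun h => ht h.2), if_pos ⟨hqC, rfl⟩]
        by_cases a1 : act (tl p)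
        · by_cases a2 : act (tl q)
          · have h4 := wt_pair h9 h12 h1
            have h5 : wz G R C tl d (tl p) p q + wz G R C tl d (tl q) p q
                ≤ ∑ z ∈ rows.filter act, wz G R C tl d z p q := by
              rw [← sum_pair (f := fun z => wz G R C tl d z p q) ht]
              refine sum_le_sum_of_subset fun v hv => ?_
              rw [mem_insert, mem_singleton] at hv
              rcases hv with rfl | rfl
              · exact mem_filter.2 ⟨hz, a1⟩
              · exact mem_filter.2 ⟨hz', a2⟩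
            rw [w1, w2] at h5
            omega
          · refine one _ hz a1 ?_
            rw [w1]
            have h4 := H.ina _ hz' a2 p hp q hq hpq
            obtain ⟨x, hx⟩ : ∃ x, R - (d (tl p) p + d (tl p) q) = x := ⟨_, rfl⟩
            obtain ⟨y, hy⟩ : ∃ y, R - (d (tl q) p + d (tl q) q) = y := ⟨_, rfl⟩
            rw [hx, hy] at h1
            have h5 : R - 5 ≤ y := by omega
            have h6 : x ≤ 2 := by
              by_contra hcon
              have h7 : 3 ≤ x := by omega
              have h8 : 3 * (R - 5) ≤ x * y := Nat.mul_le_mul h7 h5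
              omega
            rw [wt_two (by omega)]
        · by_cases a2 : act (tl q)
          · refine one _ hz' a2 ?_
            rw [w2]
            have h4 := H.ina _ hz a1 p hp q hq hpq
            obtain ⟨x, hx⟩ : ∃ x, R - (d (tl p) p + d (tl p) q) = x := ⟨_, rfl⟩
            obtain ⟨y, hy⟩ : ∃ y, R - (d (tl q) p + d (tl q) q) = y := ⟨_, rfl⟩
            rw [hx, hy] at h1
            have h5 : R - 5 ≤ x := by omega
            have h6 : y ≤ 2 := by
              by_contra hcon
              have h7 : 3 ≤ y := by omega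
              have h8 : (R - 5) * 3 ≤ x * y := Nat.mul_le_mul h5 h7
              omega
            rw [wt_two (by omega)]
          · exfalso
            have h4 := H.ina _ hz a1 p hp q hq hpq
            have h5 := H.ina _ hz' a2 p hp q hq hpq
            have h6 : (R - 5) * (R - 5) ≤ (R - (d (tl p) p + d (tl p) q))
                * (R - (d (tl q) p + d (tl q) q)) := Nat.mul_le_mul (by omega) (by omega)
            have h7 : 4 * (R - 5) ≤ (R - 5) * (R - 5) := Nat.mul_le_mul_right _ (by omega)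
            omega

/-- the missing pairs are paid by the active rows -/
lemma StarSys.NE_paid (H : StarSys R G S C rows act tl d) (h9 : 9 ≤ R) (h12 : R ≤ 12)
    {W : Finset V} (hW : W ⊆ S) :
    2 * NE G W ≤ ∑ z ∈ rows.filter act, ∑ p ∈ W, ∑ q ∈ W, wz G R C tl d z p q := by
  have h1 : ∑ z ∈ rows.filter act, ∑ p ∈ W, ∑ q ∈ W, wz G R C tl d z p q
      = ∑ p ∈ W, ∑ q ∈ W, ∑ z ∈ rows.filter act, wz G R C tl d z p q := by
    rw [sum_comm]
    exact sum_congr rfl fun p _ => sum_comm
  rw [h1]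
  unfold NE
  rw [mul_sum]
  refine sum_le_sum fun p hp => ?_
  rw [nd_eq_sum, mul_sum]
  refine sum_le_sum fun q hq => ?_
  split_ifs with h
  · exact H.paid h9 h12 (hW hp) (hW hq) h.1 h.2
  · exact Nat.zero_le _

/-- a row with a point of value seven is a star -/
lemma StarSys.seven (H : StarSys R G S C rows act tl d) {z c : V} (hz : z ∈ rows)
    (ha : act z) (hc : c ∈ S) (h7 : 7 ≤ d z c) :
    ∑ p ∈ S.erase c, ∑ q ∈ S.erase c, wz G R C tl d z p q = 0 := by
  refine sum_eq_zero fun p hp => sum_eq_zero fun q hq => ?_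
  by_contra hcon
  obtain ⟨hpc, hp⟩ := mem_erase.1 hp
  obtain ⟨hqc, hq⟩ := mem_erase.1 hq
  obtain ⟨h1, -, -, h2, -⟩ := H.wz_ne hp hq hcon
  have h3 := (H.three hz ha hc hp hq hpc.symm hqc.symm h1).1
  omega

/-- **a row with a missing pair between a point with this tail and `C` is a star** -/
lemma StarSys.arc_star (H : StarSys R G S C rows act tl d) (h9 : 9 ≤ R) {z v a : V}
    (hz : z ∈ rows) (ha : act z) (hv : v ∈ S) (hvC : v ∉ C) (ht : tl v = z) (haC : a ∈ C)
    (hn : ¬ G.Adj v a) :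
    ∃ c ∈ S, ∑ p ∈ S.erase c, ∑ q ∈ S.erase c, wz G R C tl d z p q = 0 := by
  by_cases h7 : ∃ c ∈ S, 7 ≤ d z c
  · obtain ⟨c, hc, h7⟩ := h7
    exact ⟨c, hc, H.seven hz ha hc h7⟩
  push Not at h7
  have haS := H.cs haC
  have hva : v ≠ a := fun h => hvC (h ▸ haC)
  have h1 : R ≤ d z v + d z a := by
    have := H.arc v hv hvC a haC hn
    rwa [ht] at this
  -- a second missing pair at `a`
  have key : ∀ w ∈ S, Dz C tl z w → w ≠ v → w ≠ a → ¬ G.Adj w a → False := by
    rintro w hw ⟨hwC, hwz⟩ hwv hwa hwn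
    have h2 : R ≤ d z w + d z a := by
      have := H.arc w hw hwC a haC hwn
      rwa [hwz] at this
    have h3 := H.tri v hv hvC w hw hwC hwv.symm (ht.trans hwz.symm) a haS hva.symm hwa.symm
      (Or.inl haC)
    have h4 : G.Adj v w := by
      rcases h3 with h3 | h3 | h3
      · exact h3
      · exact absurd h3 hn
      · exact absurd h3 hwn
    have h5 := (H.three hz ha hv hw haS hwv.symm hva hwa).2 (Or.inl h4)
    have h6 := h7 a haS
    omega
  refine ⟨v, hv, sum_eq_zero fun p hp => sum_eq_zero fun q hq => ?_⟩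
  by_contra hcon
  obtain ⟨hpv, hp⟩ := mem_erase.1 hp
  obtain ⟨hqv, hq⟩ := mem_erase.1 hq
  obtain ⟨hpq, hnpq, hD, hs, -⟩ := H.wz_ne hp hq hcon
  by_cases hpa : p = a
  · subst hpa
    rcases hD with hD | hD
    · exact hD.1 haC
    · exact key q hq hD hqv hpq.symm (fun h => hnpq h.symm)
  by_cases hqa : q = a
  · subst hqa
    rcases hD with hD | hD
    · exact key p hp hD hpv hpq hnpq
    · exact hD.1 haC
  have h4 := H.four hz ha hv haS hp hq hva hpv.symm hqv.symm (Ne.symm hpa) (Ne.symm hqa) hpq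
  have h5 : R = 9 := by omega
  rcases hD with hD | hD
  · have h6 := H.tri v hv hvC p hp hD.1 hpv.symm (ht.trans hD.2.symm) a haS hva.symm
      (Ne.symm hpa) (Or.inl haC)
    have h8 : G.Adj v a ∨ G.Adj v p ∨ G.Adj a p := by
      rcases h6 with h6 | h6 | h6
      · exact Or.inr (Or.inl h6)
      · exact Or.inl h6
      · exact Or.inr (Or.inr h6.symm)
    have := h4.2 h8
    omega
  · have h4' := H.four hz ha hv haS hq hp hva hqv.symm hpv.symm (Ne.symm hqa) (Ne.symm hpa)
      hpq.symm
    have h6 := H.tri v hv hvC q hq hD.1 hqv.symm (ht.trans hD.2.symm) a haS hva.symm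
      (Ne.symm hqa) (Or.inl haC)
    have h8 : G.Adj v a ∨ G.Adj v q ∨ G.Adj a q := by
      rcases h6 with h6 | h6 | h6
      · exact Or.inr (Or.inl h6)
      · exact Or.inl h6
      · exact Or.inr (Or.inr h6.symm)
    have := h4'.2 h8
    omega

variable (G R C tl d) in
/-- the sum of the payments of a row -/
noncomputable def GG (z : V) (W : Finset V) : ℕ := ∑ p ∈ W, ∑ q ∈ W, wz G R C tl d z p q

lemma GG_mono (z : V) {W W' : Finset V} (h : W ⊆ W') : GG G R C tl d z W ≤ GG G R C tl d z W' := by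
  unfold GG
  exact (sum_le_sum fun p _ => sum_le_sum_of_subset h).trans (sum_le_sum_of_subset h)

/-- the payments: pairs inside the set with tail `z`, cross pairs -/
lemma GG_le (z : V) (W : Finset V) :
    GG G R C tl d z W ≤ 2 * NE G (W.filter (Dz C tl z))
      + 2 * ∑ p ∈ W.filter (Dz C tl z), ∑ q ∈ W.filter (fun v => ¬ Dz C tl z v),
          StR.wt R (d z p + d z q) := by
  set X := W.filter (Dz C tl z) with hX
  set Y := W.filter (fun v => ¬ Dz C tl z v) with hY
  have sp : ∀ g : V → ℕ, ∑ p ∈ W, g p = ∑ p ∈ X, g p + ∑ p ∈ Y, g p :=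
    fun g => (sum_filter_add_sum_filter_not W _ g).symm
  have t0 : GG G R C tl d z W
      = (∑ p ∈ X, ∑ q ∈ X, wz G R C tl d z p q + ∑ p ∈ X, ∑ q ∈ Y, wz G R C tl d z p q)
        + (∑ p ∈ Y, ∑ q ∈ X, wz G R C tl d z p q + ∑ p ∈ Y, ∑ q ∈ Y, wz G R C tl d z p q) := by
    unfold GG
    rw [sp, ← sum_add_distrib, ← sum_add_distrib]
    exact congrArg₂ _ (sum_congr rfl fun p _ => sp _) (sum_congr rfl fun p _ => sp _)
  have t1 : ∑ p ∈ X, ∑ q ∈ X, wz G R C tl d z p q ≤ 2 * NE G X := by
    unfold NE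
    rw [mul_sum]
    refine sum_le_sum fun p hp => ?_
    rw [nd_eq_sum, mul_sum]
    refine sum_le_sum fun q hq => ?_
    unfold wz
    rw [if_pos (mem_filter.1 hp).2, if_pos (mem_filter.1 hq).2]
    split_ifs <;> omega
  have t2 : ∑ p ∈ X, ∑ q ∈ Y, wz G R C tl d z p q
      ≤ ∑ p ∈ X, ∑ q ∈ Y, StR.wt R (d z p + d z q) := by
    refine sum_le_sum fun p hp => sum_le_sum fun q hq => ?_
    unfold wz
    rw [if_pos (mem_filter.1 hp).2, if_neg (mem_filter.1 hq).2]
    split_ifs
    · exact le_rfl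
    · exact Nat.zero_le _
  have t3 : ∑ p ∈ Y, ∑ q ∈ X, wz G R C tl d z p q
      ≤ ∑ p ∈ X, ∑ q ∈ Y, StR.wt R (d z p + d z q) := by
    rw [sum_comm]
    refine sum_le_sum fun p hp => sum_le_sum fun q hq => ?_
    unfold wz
    rw [if_neg (mem_filter.1 hq).2, if_pos (mem_filter.1 hp).2, Nat.add_comm (d z q)]
    split_ifs
    · exact le_rfl
    · exact Nat.zero_le _
  have t4 : ∑ p ∈ Y, ∑ q ∈ Y, wz G R C tl d z p q = 0 := by
    refine sum_eq_zero fun p hp => sum_eq_zero fun q hq => ?_
    unfold wz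
    rw [if_neg (mem_filter.1 hp).2, if_neg (mem_filter.1 hq).2]
    split_ifs <;> rfl
  omega

/-- **at most one missing pair among the points with tail `z`**, if all values are at most six -/
lemma StarSys.inside_le (H : StarSys R G S C rows act tl d) (h9 : 9 ≤ R) {z : V}
    (hz : z ∈ rows) (ha : act z) (h6 : ∀ c ∈ S, d z c ≤ 6) :
    NE G (S.filter (Dz C tl z)) ≤ 2 := by
  by_cases hc : Clq G (S.filter (Dz C tl z))
  · rw [NE_clq hc]; omega
  unfold Clq at hc
  push Not at hc
  obtain ⟨p, hp, q, hq, hpq, hn⟩ := hc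
  obtain ⟨hpS, hpC, hpz⟩ := mem_filter.1 hp
  obtain ⟨hqS, hqC, hqz⟩ := mem_filter.1 hq
  have full : ∀ a b : V, a ∈ S → b ∈ S → Dz C tl z a → Dz C tl z b → a ≠ b → ¬ G.Adj a b →
      R ≤ d z a + d z b := by
    rintro a b haS hbS ⟨haC, haz⟩ ⟨hbC, hbz⟩ hab hnab
    have := H.eqt a haS haC b hbS hbC hab hnab (haz.trans hbz.symm)
    rwa [haz] at this
  have f1 := full p q hpS hqS ⟨hpC, hpz⟩ ⟨hqC, hqz⟩ hpq hn
  -- no two missing pairs with a common point
  have com : ∀ a b e : V, a ∈ S → b ∈ S → e ∈ S → Dz C tl z a → Dz C tl z b → Dz C tl z e →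
      a ≠ b → a ≠ e → b ≠ e → ¬ G.Adj a b → ¬ G.Adj a e → False := by
    intro a b e haS hbS heS hDa hDb hDe hab hae hbe h1 h2
    have g1 := full a b haS hbS hDa hDb hab h1
    have g2 := full a e haS heS hDa hDe hae h2
    have g3 := H.tri a haS hDa.1 b hbS hDb.1 hab (hDa.2.trans hDb.2.symm) e heS hae.symm hbe.symm
      (Or.inr (hDe.2.trans hDa.2.symm))
    have g4 : G.Adj b e := by
      rcases g3 with g3 | g3 | g3
      · exact absurd g3 h1
      · exact absurd g3 h2
      · exact g3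
    have g5 := (H.three hz ha haS hbS heS hab hae hbe).2 (Or.inr (Or.inr g4))
    have g6 := h6 a haS
    omega
  have key : ∀ e : V × V, e ∈ ((S.filter (Dz C tl z) ×ˢ S.filter (Dz C tl z)).filter
      fun e => e.2 ≠ e.1 ∧ ¬ G.Adj e.1 e.2) → e ∈ ({(p, q), (q, p)} : Finset (V × V)) := by
    rintro ⟨a, b⟩ he
    obtain ⟨he1, hab, hnab⟩ := mem_filter.1 he
    obtain ⟨haF, hbF⟩ := mem_product.1 he1
    obtain ⟨haS, hDa⟩ := mem_filter.1 haF
    obtain ⟨hbS, hDb⟩ := mem_filter.1 hbF
    have hab' : a ≠ b := fun h => hab h.symm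
    have hnba : ¬ G.Adj b a := fun h => hnab h.symm
    have hnqp : ¬ G.Adj q p := fun h => hn h.symm
    simp only at hnab
    rw [mem_insert, mem_singleton]
    by_cases hap : a = p
    · subst hap
      by_cases hbq : b = q
      · left; rw [hbq]
      · exact (com a q b haS hqS hbS hDa ⟨hqC, hqz⟩ hDb hpq hab' (Ne.symm hbq) hn hnab).elim
    by_cases haq : a = q
    · subst haq
      by_cases hbp : b = p
      · right; rw [hbp]
      · exact (com a p b haS hpS hbS hDa ⟨hpC, hpz⟩ hDb hpq.symm hab' (Ne.symm hbp) hnqp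
          hnab).elim
    by_cases hbp : b = p
    · subst hbp
      exact (com b q a hbS hqS haS hDb ⟨hqC, hqz⟩ hDa hpq hab'.symm (Ne.symm haq) hn hnba).elim
    by_cases hbq : b = q
    · subst hbq
      exact (com b p a hbS hpS haS hDb ⟨hpC, hpz⟩ hDa hpq.symm hab'.symm (Ne.symm hap) hnqp
        hnba).elim
    · exfalso
      have g1 := full a b haS hbS hDa hDb hab' hnab
      have g2 := (H.four (a := p) (b := q) (p := a) (q := b) hz ha hpS hqS haS hbS hpq
        (Ne.symm hap) (Ne.symm hbp) (Ne.symm haq) (Ne.symm hbq) hab').1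
      omega
  have h1 : NE G (S.filter (Dz C tl z)) = ((S.filter (Dz C tl z) ×ˢ S.filter (Dz C tl z)).filter
      fun e => e.2 ≠ e.1 ∧ ¬ G.Adj e.1 e.2).card := by
    unfold NE nd
    rw [card_filter, sum_product]
    refine sum_congr rfl fun x _ => ?_
    rw [card_filter]
  rw [h1]
  exact (card_le_card key).trans card_le_two

/-- caps of the sets of points -/
lemma StarSys.cap (H : StarSys R G S C rows act tl d) {z : V} (hz : z ∈ rows) (ha : act z)
    {W : Finset V} (hW : W ⊆ S) : ∑ p ∈ W, d z p ≤ StR.cp R W.card := by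
  have h1 := H.up z hz ha W hW
  have h2 := NE_le (G := G) W
  unfold StR.cp
  omega

/-- **the row lemma** -/
lemma StarSys.row (H : StarSys R G S C rows act tl d) (h9 : 9 ≤ R) (h12 : R ≤ 12) {g : ℕ}
    (hg : g ≤ 3) {z : V} (hz : z ∈ rows) (ha : act z)
    (hE : ∑ v ∈ S, d z v ≤ StR.tE R g) :
    (∃ c ∈ S, GG G R C tl d z (S.erase c) ≤ 2 * StR.tD R g) ∨
      GG G R C tl d z S ≤ 4 * R + 2 * StR.tD R g := by
  by_cases h7 : ∃ c ∈ S, 7 ≤ d z c
  · obtain ⟨c, hc, h7⟩ := h7
    left
    refine ⟨c, hc, ?_⟩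
    unfold GG
    rw [H.seven hz ha hc h7]
    exact Nat.zero_le _
  push Not at h7
  have h6 : ∀ c ∈ S, d z c ≤ 6 := fun c hc => by have := h7 c hc; omega
  obtain ⟨k1, k2, -, k4⟩ := StR.chk_all h9 h12 hg
  have hw : ∀ u ≤ 4, StR.wt R u = 0 := by
    intro u hu
    rw [StR.wt_val, if_neg (by omega), if_neg (by omega)]
  by_cases h5 : R = 9 ∧ ∃ c ∈ S, d z c = 6
  · obtain ⟨hR, c, hc, hc6⟩ := h5
    left
    refine ⟨c, hc, ?_⟩
    refine (GG_le z (S.erase c)).trans ?_
    -- no missing pairs inside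
    have hin : NE G ((S.erase c).filter (Dz C tl z)) = 0 := by
      refine NE_clq ?_
      intro a haF b hbF hab
      by_contra hn
      obtain ⟨haE, haC, haz⟩ := mem_filter.1 haF
      obtain ⟨hbE, hbC, hbz⟩ := mem_filter.1 hbF
      obtain ⟨hac, haS⟩ := mem_erase.1 haE
      obtain ⟨hbc, hbS⟩ := mem_erase.1 hbE
      have h1 := H.eqt a haS haC b hbS hbC hab hn (haz.trans hbz.symm)
      rw [haz] at h1
      have h2 := (H.three hz ha hc haS hbS hac.symm hbc.symm hab).1
      omega
    rw [hin]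
    have hU : (S.erase c).filter (Dz C tl z) ∪ (S.erase c).filter (fun v => ¬ Dz C tl z v)
        = S.erase c := filter_union_filter_not_eq _ _
    have h3 := StR.cross_le (X := (S.erase c).filter (Dz C tl z))
      (Y := (S.erase c).filter (fun v => ¬ Dz C tl z v)) (disjoint_filter_filter_not _ _ _)
      (d := d z) (w := StR.wt R) (cap := StR.cq) (L := 2) (E := StR.tE R g - 6) (km := 4)
      (B := StR.tD R g) hw (by
        rw [hU]
        intro p hp
        obtain ⟨hpc, hpS⟩ := mem_erase.1 hp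
        have h4 := H.cap hz ha (W := {c, p}) (by
          intro v hv
          rw [mem_insert, mem_singleton] at hv
          rcases hv with rfl | rfl <;> assumption)
        rw [sum_pair hpc.symm, card_pair hpc.symm] at h4
        have h5 : StR.cp R 2 = R + 1 := rfl
        omega) (by
        rw [hU]
        intro W hW hWc
        have hcW : c ∉ W := fun h => (mem_erase.1 (hW h)).1 rfl
        have h4 := H.cap hz ha (W := insert c W) (insert_subset hc (hW.trans (erase_subset _ _)))
        rw [sum_insert hcW, card_insert_of_notMem hcW, hc6] at h4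
        unfold StR.cp at h4
        unfold StR.cq
        have h5 : W.card + 1 - 1 = W.card := rfl
        rw [h5] at h4
        omega) (by
        rw [hU]
        have h4 := add_sum_erase S (d z) hc
        rw [hc6] at h4
        omega) (k4 hR)
    omega
  · right
    refine (GG_le z S).trans ?_
    have h1 := H.inside_le h9 hz ha h6
    have hU : S.filter (Dz C tl z) ∪ S.filter (fun v => ¬ Dz C tl z v) = S :=
      filter_union_filter_not_eq _ _
    have h3 := StR.cross_le (X := S.filter (Dz C tl z))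
      (Y := S.filter (fun v => ¬ Dz C tl z v)) (disjoint_filter_filter_not _ _ _)
      (d := d z) (w := StR.wt R) (cap := StR.cp R) (L := if R = 9 then 3 else 4)
      (E := StR.tE R g) (km := 5) (B := StR.tB R g) hw (by
        rw [hU]
        intro p hp
        have h8 := h6 p hp
        by_cases hR : R = 9
        · rw [if_pos hR]
          have : d z p ≠ 6 := fun h => h5 ⟨hR, p, hp, h⟩
          omega
        · rw [if_neg hR]
          omega) (by
        rw [hU]
        intro W hW _
        exact H.cap hz ha hW) (by rw [hU]; exact hE) k1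
    omega

/-- the slack of the star worlds -/
def StR.cs : ℕ → ℤ
  | 9 => 0
  | 10 => 5
  | 11 => 11
  | _ => 8

variable (G S C tl) in
/-- the row has a missing pair between a point with this tail and `C` -/
def Arc (z : V) : Prop := ∃ v ∈ S, Dz C tl z v ∧ ∃ a ∈ C, ¬ G.Adj v a

/-- **there are no star worlds** -/
theorem StarSys.false (H : StarSys R G S C rows act tl d) (h9 : 9 ≤ R) (h12 : R ≤ 12)
    (hr : rows.card ≤ 4) {k : ℕ} (hk : (rows.filter act).card = k) (hS : S.card = R + k + 2)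
    (hNE : (NE G S : ℤ) ≤ 2 * (((k : ℤ) + 1) * R + StR.cs R
      + 2 * ((rows.filter (Arc G S C tl)).card : ℤ))) : False := by
  -- rows with arcs are active
  have harc : ∀ z ∈ rows, Arc G S C tl z → act z := by
    rintro z hz ⟨v, hv, ⟨hvC, hvz⟩, a, haC, hn⟩
    by_contra hcon
    have h1 := H.arc v hv hvC a haC hn
    rw [hvz] at h1
    have h2 := H.ina z hz hcon v hv a (H.cs haC) (fun h => hvC (h ▸ haC))
    omega
  set g := (rows.filter (Arc G S C tl)).card with hg
  set A := rows.filter act with hA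
  have hAr : ∀ z ∈ A, z ∈ rows ∧ act z := fun z hz => mem_filter.1 hz
  have hgA : rows.filter (Arc G S C tl) = A.filter (Arc G S C tl) := by
    ext z
    simp only [hA, mem_filter]
    constructor
    · rintro ⟨h1, h2⟩
      exact ⟨⟨h1, harc z h1 h2⟩, h2⟩
    · rintro ⟨⟨h1, -⟩, h2⟩
      exact ⟨h1, h2⟩
  have hgk : g + (A.filter fun z => ¬ Arc G S C tl z).card = k := by
    rw [hg, hgA, ← hk]
    exact card_filter_add_card_filter_not _
  have hk4 : k ≤ 4 := by
    rw [← hk]
    exact (card_filter_le _ _).trans hr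
  have hlowS := H.low S subset_rfl
  rw [hS] at hlowS
  push_cast at hlowS
  have hR0 : (9 : ℤ) ≤ R := by exact_mod_cast h9
  -- the excess of a row
  obtain ⟨D, hD1, hD2⟩ : ∃ D : ℕ, (4 - g) * D < 2 * R ∧ ∀ z ∈ A, ¬ Arc G S C tl z →
      (∃ c ∈ S, GG G R C tl d z (S.erase c) ≤ 2 * D) ∨ GG G R C tl d z S ≤ 4 * R + 2 * D := by
    by_cases hg3 : g ≤ 3
    · refine ⟨StR.tD R g, (StR.chk_all h9 h12 hg3).2.2.1, fun z hz _ => ?_⟩
      obtain ⟨hzr, ha⟩ := hAr z hz
      refine H.row h9 h12 hg3 hzr ha ?_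
      have h1 := H.tot z hzr ha S subset_rfl
      rw [hS] at h1
      push_cast at h1
      have h2 : (∑ v ∈ S, (d z v : ℤ)) ≤ 2 * R + StR.cs R + 2 * g := by nlinarith
      have h3 : (2 * (R : ℤ) + StR.cs R + 2 * g) = StR.tE R g := by
        interval_cases R <;> simp [StR.cs, StR.tE]
      rw [h3] at h2
      exact_mod_cast h2
    · refine ⟨0, by omega, fun z hz hn => ?_⟩
      exfalso
      have h1 : 0 < (A.filter fun z => ¬ Arc G S C tl z).card :=
        card_pos.2 ⟨z, mem_filter.2 ⟨hz, hn⟩⟩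
      omega
  -- the excess of every row
  set e : V → ℕ := fun z => if Arc G S C tl z then 0 else 2 * D with he
  have hrow : ∀ z ∈ A, (∃ c ∈ S, GG G R C tl d z (S.erase c) ≤ e z) ∨
      GG G R C tl d z S ≤ 4 * R + e z := by
    intro z hz
    by_cases h1 : Arc G S C tl z
    · left
      obtain ⟨hzr, ha⟩ := hAr z hz
      obtain ⟨v, hv, ⟨hvC, hvz⟩, a, haC, hn⟩ := h1
      obtain ⟨c, hc, h2⟩ := H.arc_star h9 hzr ha hv hvC hvz haC hn
      refine ⟨c, hc, ?_⟩
      unfold GG
      rw [h2]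
      exact Nat.zero_le _
    · have h2 : e z = 2 * D := by rw [he]; exact if_neg h1
      rw [h2]
      exact hD2 z hz h1
  -- the centres
  have hsne : S.Nonempty := by
    rw [← card_pos, hS]; omega
  obtain ⟨c0, hc0⟩ := hsne
  have hcz : ∀ z, ∃ c ∈ S, (∃ c' ∈ S, GG G R C tl d z (S.erase c') ≤ e z) →
      GG G R C tl d z (S.erase c) ≤ e z := by
    intro z
    by_cases h1 : ∃ c' ∈ S, GG G R C tl d z (S.erase c') ≤ e z
    · obtain ⟨c', hc', h2⟩ := h1
      exact ⟨c', hc', fun _ => h2⟩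
    · exact ⟨c0, hc0, fun h => absurd h h1⟩
  choose cen hcen hcen2 using hcz
  set A1 := A.filter fun z => ∃ c' ∈ S, GG G R C tl d z (S.erase c') ≤ e z with hA1
  set A2 := A.filter fun z => ¬ ∃ c' ∈ S, GG G R C tl d z (S.erase c') ≤ e z with hA2
  have hcard : A1.card + A2.card = k := by
    rw [hA1, hA2, ← hk]
    exact card_filter_add_card_filter_not _
  set P := A1.image cen with hP
  have hPS : P ⊆ S := by
    intro v hv
    obtain ⟨z, -, rfl⟩ := mem_image.1 hv
    exact hcen z
  have hPc : P.card ≤ A1.card := card_image_le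
  have hWc : (S \ P).card + P.card = S.card := card_sdiff_add_card_eq_card hPS
  have hlow := H.low (S \ P) sdiff_subset
  have hpaid := H.NE_paid h9 h12 (W := S \ P) sdiff_subset
  have hsum : ∑ z ∈ A, GG G R C tl d z (S \ P) ≤ 4 * R * A2.card + ∑ z ∈ A, e z := by
    have h1 : ∑ z ∈ A, GG G R C tl d z (S \ P)
        = ∑ z ∈ A1, GG G R C tl d z (S \ P) + ∑ z ∈ A2, GG G R C tl d z (S \ P) :=
      (sum_filter_add_sum_filter_not A _ _).symm
    have h2 : ∑ z ∈ A, e z = ∑ z ∈ A1, e z + ∑ z ∈ A2, e z :=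
      (sum_filter_add_sum_filter_not A _ _).symm
    have h3 : ∑ z ∈ A1, GG G R C tl d z (S \ P) ≤ ∑ z ∈ A1, e z := by
      refine sum_le_sum fun z hz => ?_
      refine (GG_mono z ?_).trans (hcen2 z (mem_filter.1 hz).2)
      intro v hv
      obtain ⟨hvS, hvP⟩ := mem_sdiff.1 hv
      refine mem_erase.2 ⟨?_, hvS⟩
      rintro rfl
      exact hvP (mem_image.2 ⟨z, hz, rfl⟩)
    have h4 : ∑ z ∈ A2, GG G R C tl d z (S \ P) ≤ ∑ z ∈ A2, (4 * R + e z) := by
      refine sum_le_sum fun z hz => ?_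
      obtain ⟨hzA, hzn⟩ := mem_filter.1 hz
      refine (GG_mono z sdiff_subset).trans ?_
      rcases hrow z hzA with h5 | h5
      · exact absurd h5 hzn
      · exact h5
    rw [sum_add_distrib, sum_const, smul_eq_mul] at h4
    rw [h1, h2]
    have h5 : A2.card * (4 * R) = 4 * R * A2.card := Nat.mul_comm _ _
    omega
  have hes : ∑ z ∈ A, e z ≤ (4 - g) * D * 2 := by
    have h1 : ∑ z ∈ A, e z = (A.filter fun z => ¬ Arc G S C tl z).card * (2 * D) := by
      rw [he, sum_ite, sum_const_zero, zero_add, sum_const, smul_eq_mul]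
    rw [h1]
    have h2 : (A.filter fun z => ¬ Arc G S C tl z).card ≤ 4 - g := by omega
    calc (A.filter fun z => ¬ Arc G S C tl z).card * (2 * D) ≤ (4 - g) * (2 * D) :=
          Nat.mul_le_mul_right _ h2
      _ = (4 - g) * D * 2 := by ring
  have hpaid' : 2 * (NE G (S \ P) : ℤ) ≤ 4 * R * A2.card + ∑ z ∈ A, (e z : ℤ) := by
    have : 2 * NE G (S \ P) ≤ 4 * R * A2.card + ∑ z ∈ A, e z := hpaid.trans hsum
    exact_mod_cast this
  have hes' : (∑ z ∈ A, (e z : ℤ)) < 4 * R := by
    have : ∑ z ∈ A, e z < 4 * R := by omega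
    exact_mod_cast this
  have h1 : ((S \ P).card : ℤ) - R - 1 ≥ A2.card + 1 := by
    have : R + 1 + (A2.card + 1) ≤ (S \ P).card := by omega
    have h2 : ((R + 1 + (A2.card + 1) : ℕ) : ℤ) ≤ (S \ P).card := by exact_mod_cast this
    push_cast at h2
    linarith
  nlinarith

end StarD

end Pool.Agent.Lib.MP_f04ccf_co
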