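import Pool.Agent.Lib.MP_f04ccf_co.M.WNum

/-!
MP_f04ccf_co, PLAN W: the PC pairs of the packings of `WIt` by cells.  `pcn B x z`: the number of PC
pairs of the host `x` with tail `z`, `bth B x z`: ordered pairs of them with both arcs.
`WIt.Nb_eq`: the unpaid N-excess `Nb` is `∑ (2 pcn + bth)` over the cells, `bth_le`:
`bth ≤ pcn (pcn - 1)`, `pcn_le`: the PC pairs are items of value one with full load at their tail,
`WIt.mu_pos`: a row with `0 ≤ s` hosts an item.
-/

set_option autoImplicit false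

namespace Pool.Agent.Lib.MP_f04ccf_co

open Finset

attribute [local instance] Classical.propDecidable

section PcCell

variable {V : Type*} {G : SimpleGraph V} {Z T : Finset V} {hm : V → V} {r m n : ℕ}
  {φ : Finset (V × V) → Finset (Finset V) → ℕ}

/-- the PC pairs with tail `z` -/
noncomputable def pcs {ι : Type*} (tl : V → ι) (B : Finset (V × V)) (z : ι) : Finset (V × V) :=
  B.filter fun e => tl e.1 = z

lemma mem_pcs {ι : Type*} {tl : V → ι} {B : Finset (V × V)} {z : ι} {e : V × V} :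
    e ∈ pcs tl B z ↔ e ∈ B ∧ tl e.1 = z := mem_filter

/-- ordered pairs of PC pairs of one tail with both arcs, by tails -/
lemma bothB_split {ι : Type*} {tl : V → ι} {B : Finset (V × V)} {A : Finset ι}
    (ht : ∀ e ∈ B, tl e.1 ∈ A) :
    bothB G tl B = ∑ z ∈ A, bothB G tl (pcs tl B z) := by
  unfold bothB
  rw [← card_biUnion]
  · congr 1
    ext q
    simp only [mem_filter, mem_product, mem_biUnion, mem_pcs]
    constructor
    · rintro ⟨⟨h1, h2⟩, h3, h4, h5⟩
      exact ⟨tl q.1.1, ht _ h1, ⟨⟨h1, rfl⟩, h2, h4.symm⟩, h3, h4, h5⟩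
    · rintro ⟨z, -, ⟨⟨h1, -⟩, h2, -⟩, h3⟩
      exact ⟨⟨h1, h2⟩, h3⟩
  · intro y _ z _ hyz
    rw [Function.onFun, disjoint_left]
    intro q hq hq'
    have h1 := (mem_pcs.1 (mem_product.1 (mem_filter.1 hq).1).1).2
    have h2 := (mem_pcs.1 (mem_product.1 (mem_filter.1 hq').1).1).2
    exact hyz (h1.symm.trans h2)

/-- at most `b (b - 1)` ordered pairs with both arcs -/
lemma bothB_le {ι : Type*} {tl : V → ι} (B : Finset (V × V)) :
    (bothB G tl B : ℤ) ≤ (B.card : ℤ) * (B.card - 1) := by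
  have h1 : bothB G tl B ≤ B.offDiag.card := by
    unfold bothB
    refine card_le_card fun q hq => ?_
    obtain ⟨h1, h2, -⟩ := mem_filter.1 hq
    obtain ⟨h3, h4⟩ := mem_product.1 h1
    exact mem_offDiag.2 ⟨h3, h4, fun h5 => h2 (by rw [h5])⟩
  rw [offDiag_card] at h1
  have h2 : B.card ≤ B.card * B.card := Nat.le_mul_self _
  have h3 : ((B.card * B.card - B.card : ℕ) : ℤ) = (B.card : ℤ) * B.card - B.card := by
    rw [Nat.cast_sub h2]
    push_cast
    ring
  have h4 : (bothB G tl B : ℤ) ≤ ((B.card * B.card - B.card : ℕ) : ℤ) := by exact_mod_cast h1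
  rw [h3] at h4
  linarith

/-- the number of PC pairs of the host `x` with tail `z` -/
noncomputable def pcn (tl : V → V) (B : V → Finset (V × V)) (x z : V) : ℤ :=
  ((pcs tl (B x) z).card : ℤ)

variable (G) in
/-- ordered pairs of PC pairs of the host `x` with tail `z` with both arcs -/
noncomputable def bth (tl : V → V) (B : V → Finset (V × V)) (x z : V) : ℤ :=
  (bothB G tl (pcs tl (B x) z) : ℤ)

lemma pcn_nonneg (tl : V → V) (B : V → Finset (V × V)) (x z : V) : 0 ≤ pcn tl B x z :=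
  Nat.cast_nonneg _

lemma bth_nonneg (tl : V → V) (B : V → Finset (V × V)) (x z : V) : 0 ≤ bth G tl B x z :=
  Nat.cast_nonneg _

lemma bth_le (tl : V → V) (B : V → Finset (V × V)) (x z : V) :
    bth G tl B x z ≤ pcn tl B x z * (pcn tl B x z - 1) := bothB_le _

lemma far_nonneg (B : V → Finset (V × V)) (x z : V) : 0 ≤ far G Z T hm B x z :=
  Nat.cast_nonneg _

variable {B : V → Finset (V × V)} {Ps : V → Finset (Finset V)} {host : Itm V → V} {ρ : V → ℕ}
  {σ : ℕ → V}

/-- the sum of the PC pairs over the tails -/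
lemma WHom.sum_pcn (h : WHom G Z T r m n hm) {x : V} (hx : x ∈ T)
    (hB : Pk G (cz G Z T hm x) (hz G Z T hm x) (tlo G T hm) (B x) (Ps x)) :
    ((B x).card : ℤ) = ∑ z ∈ T.erase x, pcn (tlo G T hm) B x z := by
  have h1 := card_eq_sum_card_fiberwise (s := B x) (t := T.erase x)
    (f := fun e => tlo G T hm e.1) fun e he => h.ht x hx e.1 (hB.bH e he)
  rw [h1, Nat.cast_sum]
  rfl

/-- **the unpaid N-excess by cells** -/
lemma WHom.Nb_eq (h : WHom G Z T r m n hm) {x : V} (hx : x ∈ T)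
    (hB : Pk G (cz G Z T hm x) (hz G Z T hm x) (tlo G T hm) (B x) (Ps x)) :
    2 * ((B x).card : ℤ) + bothB G (tlo G T hm) (B x)
      = ∑ z ∈ T.erase x, (2 * pcn (tlo G T hm) B x z + bth G (tlo G T hm) B x z) := by
  have h1 := bothB_split (G := G) (tl := tlo G T hm) (B := B x) (A := T.erase x)
    fun e he => h.ht x hx e.1 (hB.bH e he)
  rw [sum_add_distrib, ← mul_sum, ← h.sum_pcn hx hB, h1, Nat.cast_sum]
  rfl

/-- the PC pairs are items: at most the load of the items of `x` at `z` -/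
lemma WHom.pcn_le (tl : V → V) {x z : V} {Q : Finset (V × V)} {Ps : Finset (Finset V)} :
    ((pcs tl Q z).card : ℤ) ≤ ∑ u ∈ pkf Q Ps, (ikp tl z u : ℤ) := by
  have e1 : ∑ u ∈ pkf Q Ps, (ikp tl z u : ℤ)
      = ∑ P ∈ Ps.filter (fun P => 2 ≤ P.card), (ikp tl z (Sum.inl P : Itm V) : ℤ)
        + ∑ e ∈ Q, (ikp tl z (Sum.inr e : Itm V) : ℤ) := by
    unfold pkf
    rw [sum_disjSum]
  have h1 : ∑ e ∈ Q, (ikp tl z (Sum.inr e : Itm V) : ℤ) = ((pcs tl Q z).card : ℤ) := by
    unfold pcs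
    rw [card_filter, Nat.cast_sum]
    refine sum_congr rfl fun e _ => ?_
    by_cases h2 : tl e.1 = z
    · simp only [ikp, h2, if_true]
    · simp only [ikp, h2, if_false]
  have h2 : 0 ≤ ∑ P ∈ Ps.filter (fun P => 2 ≤ P.card), (ikp tl z (Sum.inl P : Itm V) : ℤ) :=
    sum_nonneg fun _ _ => Nat.cast_nonneg _
  rw [e1, h1]
  linarith

/-- at most `mu` PC pairs -/
lemma Pk.card_le_mu {ι : Type*} {C H : Finset V} {tl : V → ι} {Q : Finset (V × V)}
    {Ps : Finset (Finset V)} (_h : Pk G C H tl Q Ps) :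
    (Q.card : ℤ) ≤ ∑ u ∈ pkf Q Ps, (ivl u : ℤ) := by
  have e1 : ∑ u ∈ pkf Q Ps, (ivl u : ℤ)
      = ∑ P ∈ Ps.filter (fun P => 2 ≤ P.card), (ivl (Sum.inl P : Itm V) : ℤ)
        + ∑ e ∈ Q, (ivl (Sum.inr e : Itm V) : ℤ) := by
    unfold pkf
    rw [sum_disjSum]
  have h1 : ∑ e ∈ Q, (ivl (Sum.inr e : Itm V) : ℤ) = (Q.card : ℤ) := by
    simp only [ivl, sum_const, nsmul_eq_mul]
    push_cast
    ring
  have h2 : 0 ≤ ∑ P ∈ Ps.filter (fun P => 2 ≤ P.card), (ivl (Sum.inl P : Itm V) : ℤ) :=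
    sum_nonneg fun _ _ => Nat.cast_nonneg _
  rw [e1, h1]
  linarith

/-- **an optimal packing of value zero: the slot is a clique** -/
theorem PkOpt.clq_of_zero {ι : Type*} {C H : Finset V} {tl : V → ι} {Q : Finset (V × V)}
    {Ps : Finset (Finset V)} (h : PkOpt G C H tl φ Q Ps) (hC : Clq G C)
    (h0 : ∑ u ∈ pkf Q Ps, (ivl u : ℤ) ≤ 0) : Clq G (C ∪ H) := by
  have h1 := h.toPk.card_le_mu
  have hQ : Q = ∅ := card_eq_zero.1 (by
    have : (Q.card : ℤ) ≤ 0 := h1.trans h0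
    omega)
  have h2 := h.toPk.sum_ivl
  have h3 : Ps.card = H.card := by
    have h4 : (∑ u ∈ pkf Q Ps, (ivl u : ℤ)) + Ps.card = (H.card : ℤ) := by exact_mod_cast h2
    have h5 : 0 ≤ ∑ u ∈ pkf Q Ps, (ivl u : ℤ) := sum_nonneg fun _ _ => Nat.cast_nonneg _
    have h6 : (Ps.card : ℤ) = H.card := by linarith
    exact_mod_cast h6
  have hmiss : ∀ v ∈ H, ∀ a ∈ C, G.Adj v a := by
    intro v hv a ha
    by_contra hva
    rcases h.cov v hv with ⟨e, he, -⟩ | ⟨P, hP, hvP⟩
    · rw [hQ] at he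
      exact absurd he (notMem_empty e)
    · obtain ⟨e, he, -, -⟩ := h.used hP hvP ha hva
      rw [hQ] at he
      exact absurd he (notMem_empty e)
  have hone : ∀ P ∈ Ps, P.card = 1 := by
    have h4 := h.toPk.card_H
    rw [hQ, card_empty, zero_add, ← h3] at h4
    have h5 : ∀ P ∈ Ps, 1 ≤ P.card := fun P hP => card_pos.2 (h.ne P hP)
    have h6 : ∑ P ∈ Ps, 1 = ∑ P ∈ Ps, P.card := by
      rw [← h4, card_eq_sum_ones]
    have h7 := (sum_eq_sum_iff_of_le h5).1 h6
    exact fun P hP => (h7 P hP).symm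
  intro u hu v hv huv
  rcases mem_union.1 hu with hu | hu <;> rcases mem_union.1 hv with hv | hv
  · exact hC u hu v hv huv
  · exact (hmiss v hv u hu).symm
  · exact hmiss u hu v hv
  · obtain ⟨P, hP, huP⟩ : ∃ P ∈ Ps, u ∈ P := by
      rcases h.cov u hu with ⟨e, he, -⟩ | h4
      · rw [hQ] at he
        exact absurd he (notMem_empty e)
      · exact h4
    obtain ⟨P', hP', hvP⟩ : ∃ P ∈ Ps, v ∈ P := by
      rcases h.cov v hv with ⟨e, he, -⟩ | h4
      · rw [hQ] at he
        exact absurd he (notMem_empty e)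
      · exact h4
    obtain ⟨w, hw⟩ := card_eq_one.1 (hone P hP)
    obtain ⟨w', hw'⟩ := card_eq_one.1 (hone P' hP')
    rw [hw, mem_singleton] at huP
    rw [hw', mem_singleton] at hvP
    subst huP
    subst hvP
    have hPP : P ≠ P' := by
      rintro rfl
      rw [hw] at hw'
      exact huv (singleton_injective hw')
    obtain ⟨a, ha, b, hb, hab⟩ := h.edge hP hP' hPP
    rw [hw, mem_singleton] at ha
    rw [hw', mem_singleton] at hb
    rwa [ha, hb] at hab

/-- **a row with `0 ≤ s` hosts an item** -/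
theorem WIt.mu_pos (h : WHom G Z T r m n hm) (H : WIt G Z T hm r n φ B Ps host ρ σ) {i : ℕ}
    (hi : i < n) (hs : 0 ≤ sI hm r Z (σ i)) :
    1 ≤ ∑ u ∈ pkf (B (σ i)) (Ps (σ i)), (ivl u : ℤ) := by
  by_contra hcon
  have hx : σ i ∈ T := H.rk.mem i (by rw [H.cT]; exact hi)
  have h1 := (H.pk _ hx).clq_of_zero (h.csys.CP_clq h.F.toPFrame hx) (by linarith)
  have h2 : CP G Z T (fun x => Z.filter fun v => hm v = x) (σ i)
      ∪ HP G Z T (fun x => Z.filter fun v => hm v = x) (σ i) = Z.filter fun v => hm v = σ i :=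
    CP_union_HP
  rw [h2] at h1
  have h3 := h.hom _ (filter_subset _ _) h1
  have h4 : sI hm r Z (σ i) = ((Z.filter fun v => hm v = σ i).card : ℤ) - r := rfl
  rw [h4] at hs
  have h5 := h.hr
  omega

end PcCell

end Pool.Agent.Lib.MP_f04ccf_co
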