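import Pool.Agent.Lib.MP_f04ccf_co.M.StarA
import Pool.Agent.Lib.MP_f04ccf_co.M.StarD
import Pool.Agent.Lib.MP_f04ccf_co.M.WNumB

/-!
MP_f04ccf_co, the star worlds: the numeric statement.  In a frame with five rows, `10 <= r <= 13`, let all
rows besides `x` have classes of `r - 1` points and slots with `r - 1` points, or with `r` points and at most
two missing pairs.  Then the slot of `x` has many missing pairs (`WHom.star`).
-/

set_option autoImplicit false

namespace Pool.Agent.Lib.MP_f04ccf_co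

open Finset

attribute [local instance] Classical.propDecidable

/-- the slack of the star worlds over the integers -/
def csZ (R : ℤ) : ℤ := if R = 9 then 0 else if R = 10 then 5 else if R = 11 then 11 else 8

lemma cs_csZ {R : ℕ} (h9 : 9 ≤ R) (h12 : R ≤ 12) : StR.cs R = csZ R := by
  interval_cases R <;> simp [StR.cs, csZ]

section StarW

variable {V : Type*} {G : SimpleGraph V} {Z T : Finset V} {hm : V → V} {r m n : ℕ}

lemma WHom.cl_slotZ (h : WHom G Z T r m n hm) {z : V} (hz : z ∈ T) :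
    Cl G Z T z ⊆ Z.filter fun v => hm v = z := by
  intro v hv
  have h1 := (mem_Cl_iff_rws (G := G) hz).1 hv
  have h2 := (h.ok v h1.1).2
  rw [h1.2, mem_singleton] at h2
  exact mem_filter.2 ⟨h1.1, h2⟩

lemma WHom.CP_ClZ (h : WHom G Z T r m n hm) {z : V} (hz : z ∈ T) :
    CP G Z T (fun x => Z.filter fun v => hm v = x) z = Cl G Z T z := by
  ext v
  rw [mem_CP]
  exact ⟨fun h1 => h1.2, fun h1 => ⟨h.cl_slotZ hz h1, h1⟩⟩

lemma WHom.stX (h : WHom G Z T r m n hm) {x : V} (hx : x ∈ T)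
    (ht : ∀ z ∈ T, z ≠ x → tI G Z T hm r Z z = 0) :
    StX G Z T (Z.filter fun v => hm v = x) r x := by
  refine ⟨hx, filter_subset _ _, h.cl_slotZ hx, ?_, ?_⟩
  · intro v hv hvC
    obtain ⟨h1, h2⟩ := mem_Ph.1 (h.csys.HP_Ph hx (mem_HP.2 ⟨hv, hvC⟩))
    refine ⟨h1, ?_⟩
    have h3 := h.hh v h1
    rw [h2] at h3
    exact (mem_ends.1 h3).2
  · intro z hz
    obtain ⟨hzx, hzT⟩ := mem_erase.1 hz
    have h1 := ht z hzT hzx
    unfold tI at h1
    rw [h.CP_ClZ hzT] at h1
    omega

/-- **the star worlds, numbers** -/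
theorem WHom.star (h : WHom G Z T r m n hm) (hn : n = 5) (h13 : r ≤ 13) {x : V} (hx : x ∈ T)
    {B : V → Finset (V × V)}
    (bH : ∀ e ∈ B x, e.1 ∈ HP G Z T (fun x => Z.filter fun v => hm v = x) x)
    (bC : ∀ e ∈ B x, e.2 ∈ CP G Z T (fun x => Z.filter fun v => hm v = x) x)
    (bN : ∀ e ∈ B x, ¬ G.Adj e.1 e.2)
    (hst : ∀ z ∈ T, z ≠ x → tI G Z T hm r Z z = 0 ∧
      (sI hm r Z z = -1 ∨ (sI hm r Z z = 0 ∧ eI G hm Z z ≤ 2))) :
    sI hm r Z x * ((r : ℤ) - 1) + csZ ((r : ℤ) - 1)
      + 2 * (((T.erase x).filter fun z => pcn (tlo G T hm) B x z ≠ 0).card : ℤ)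
      < eI G hm Z x := by
  subst hn
  by_contra hcon
  have hr := h.toWBase.nr
  have hX := h.stX hx fun z hz hzx => (hst z hz hzx).1
  have hR : ((r - 1 : ℕ) : ℤ) = (r : ℤ) - 1 := by omega
  set S := Z.filter fun v => hm v = x with hSd
  have hsys := hX.starSys h.F h.gp.P h.toWBase.bb.2 (by omega)
    (act := fun z => sI hm r Z z = -1) (by
      intro z hz hza
      obtain ⟨hzx, hzT⟩ := mem_erase.1 hz
      have h1 := (hst z hzT hzx).2.resolve_left hza
      refine ⟨Z.filter fun v => hm v = z, h.cl_slotZ hzT, ?_, ?_, ?_⟩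
      · rw [disjoint_left]
        intro v hv hv'
        exact hzx ((mem_filter.1 hv').2.symm.trans (mem_filter.1 hv).2)
      · have h2 := h1.1
        unfold sI at h2
        omega
      · have h2 := two_eI (G := G) (hm := hm) Z z
        omega)
  have hcardT := h.toWBase.cardT
  -- the number of points of the slot
  have hsum : ∑ z ∈ T, ((Z.filter fun v => hm v = z).card : ℤ) = 5 * r + 1 := by
    have h1 := card_eq_sum_card_fiberwise (f := hm) (s := Z) (t := T)
      (fun v hv => (h.ok v hv).1)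
    rw [h.toWBase.cardZ] at h1
    exact_mod_cast h1.symm
  rw [← add_sum_erase T _ hx] at hsum
  set k := ((T.erase x).filter fun z => sI hm r Z z = -1).card with hk
  have hsum2 : ∑ z ∈ T.erase x, ((Z.filter fun v => hm v = z).card : ℤ) = 4 * r - k := by
    have h1 : ∀ z ∈ T.erase x, ((Z.filter fun v => hm v = z).card : ℤ)
        = r - if sI hm r Z z = -1 then 1 else 0 := by
      intro z hz
      obtain ⟨hzx, hzT⟩ := mem_erase.1 hz
      rcases (hst z hzT hzx).2 with h2 | h2
      · rw [if_pos h2, card_slot_eq (r := r) Z z, h2]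
        ring
      · rw [if_neg (by rw [h2.1]; norm_num), card_slot_eq (r := r) Z z, h2.1]
        ring
    rw [sum_congr rfl h1, sum_sub_distrib, sum_const, card_erase_of_mem hx, hcardT, nsmul_eq_mul]
    have h2 : ∑ z ∈ T.erase x, (if sI hm r Z z = -1 then (1 : ℤ) else 0) = k := by
      rw [hk, card_filter]
      push_cast
      rfl
    rw [h2]
    push_cast
    ring
  have hScard : (S.card : ℤ) = r + k + 1 := by
    rw [hsum2] at hsum
    linarith
  have hsx : sI hm r Z x = k + 1 := by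
    have h1 := card_slot_eq (hm := hm) (r := r) Z x
    have h2 : ((Z.filter fun v => hm v = x).card : ℤ) = S.card := rfl
    rw [h2, hScard] at h1
    linarith
  -- the rows with PC pairs
  have hpc : ((T.erase x).filter fun z => pcn (tlo G T hm) B x z ≠ 0).card
      ≤ ((T.erase x).filter (Arc G S (Cl G Z T x) (tlS G T x))).card := by
    refine card_le_card fun z hz => ?_
    obtain ⟨hz1, hz2⟩ := mem_filter.1 hz
    refine mem_filter.2 ⟨hz1, ?_⟩
    unfold pcn at hz2
    have h1 : (pcs (tlo G T hm) (B x) z).Nonempty := by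
      rw [nonempty_iff_ne_empty]
      intro h2
      rw [h2] at hz2
      exact hz2 (by simp)
    obtain ⟨e, he⟩ := h1
    obtain ⟨he1, he2⟩ := mem_pcs.1 he
    have h2 := mem_HP.1 (bH e he1)
    have h3 := mem_CP.1 (bC e he1)
    have h4 := hX.tl h2.1 h2.2
    have h5 := tlo_eq h4.2 (mem_filter.1 h2.1).2 (mem_erase.1 h4.1).1.symm
    exact ⟨e.1, h2.1, ⟨h2.2, h5.symm.trans he2⟩, e.2, h3.2, bN e he1⟩
  have hcs := cs_csZ (R := r - 1) (by omega) (by omega)
  refine hsys.false (by omega) (by omega) (by rw [card_erase_of_mem hx, hcardT]) (k := k)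
    (by rw [hk]; congr) (by omega) ?_
  have h1 := two_eI (G := G) (hm := hm) Z x
  have h2 : (NE G S : ℤ) = 2 * eI G hm Z x := h1.symm
  rw [h2, hcs, hR]
  push Not at hcon
  have h3 : (((T.erase x).filter fun z => pcn (tlo G T hm) B x z ≠ 0).card : ℤ)
      ≤ (((T.erase x).filter (Arc G S (Cl G Z T x) (tlS G T x))).card : ℤ) := by
    exact_mod_cast hpc
  rw [hsx] at hcon
  linarith

/-- **the star worlds over the row indices** -/
theorem WHom.starI (h : WHom G Z T r m n hm) {B : V → Finset (V × V)}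
    {Ps : V → Finset (Finset V)}
    (hB : ∀ x ∈ T, Pk G (cz G Z T hm x) (hz G Z T hm x) (tlo G T hm) (B x) (Ps x))
    {ρ : V → ℕ} {σ : ℕ → V} (hσ : Rank T (tI G Z T hm r Z) ρ σ) :
    n = 5 → (9 : ℤ) ≤ (r : ℤ) - 1 → (r : ℤ) - 1 ≤ 12 → ∀ i < n,
    (∀ j < n, j ≠ i → tI G Z T hm r Z (σ j) = 0 ∧
      (sI hm r Z (σ j) = -1 ∨ (sI hm r Z (σ j) = 0 ∧ eI G hm Z (σ j) ≤ 2))) →
    sI hm r Z (σ i) * ((r : ℤ) - 1) + csZ ((r : ℤ) - 1)
      + 2 * ∑ j ∈ (range n).erase i, min (pcn (tlo G T hm) B (σ i) (σ j)) 1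
      < eI G hm Z (σ i) := by
  intro hn h9 h12 i hi hst
  have hcard := h.toWBase.cardT
  have hx : σ i ∈ T := hσ.mem i (by rw [hcard]; exact hi)
  have h1 := h.star hn (by omega) hx (B := B) (hB _ hx).bH (hB _ hx).bC (hB _ hx).bN (by
    intro z hz hzx
    have h2 := hσ.left z hz
    have h3 := hσ.lt z hz
    rw [hcard] at h3
    have h4 := hst (ρ z) h3 (fun h5 => hzx (by rw [← h2, h5]))
    rw [h2] at h4
    exact h4)
  have h2 := hσ.sum_er (i := i) (by rw [hcard]; exact hi) fun z =>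
    min (pcn (tlo G T hm) B (σ i) z) 1
  rw [hcard] at h2
  have h3 : ∑ z ∈ T.erase (σ i), min (pcn (tlo G T hm) B (σ i) z) 1
      ≤ (((T.erase (σ i)).filter fun z => pcn (tlo G T hm) B (σ i) z ≠ 0).card : ℤ) := by
    rw [card_filter, Nat.cast_sum]
    refine sum_le_sum fun z _ => ?_
    split_ifs with h4
    · exact min_le_right _ _
    · rw [not_not.1 h4]
      exact min_le_left _ _
  rw [← h2]
  linarith

end StarW

end Pool.Agent.Lib.MP_f04ccf_co
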