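import Pool.Agent.Lib.MP_f04ccf_co.M.CellC
import Pool.Agent.Lib.MP_f04ccf_co.M.NuV
import Pool.Agent.Lib.MP_f04ccf_co.M.SlotT
import Pool.Agent.Lib.MP_f04ccf_co.M.RowNC
import Pool.Agent.Lib.MP_f04ccf_co.M.EnTi
import Pool.Agent.Lib.MP_f04ccf_co.M.StarW

/-!
MP_f04ccf_co, PLAN W, finite part, version [C]: homes of least weight (`WCoreK`) and packings with the
most PC pairs (`PkOpt`), so no N-ends: the N-excess of a host is the sum over its tails of the excess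
`NN i j` of the PC pairs of `i` with tail `j`.
`WItC`: the items over the basic integers; `WHom.witc`, `WHom.exists_witcM`: they exist.
`ItC` extends `ItY`: `NN` twice the excess of a cell, `FF` the free class edges in the rectangles of the
PC members of the cell, `pw` the part of the free arcs paid in the row test with columns, `nu j u` the
free arcs of the member of the PC pair `u` with tail `j` (`0` for all other items).
`tzN`, `slk` the tests without excess (LEMMA N, N+), `jsub` the joint cell test for some of the PC pairs of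
a cell, `lowD` the test with the degree sum with the arcs inside paid, `enT` the energy with the
independence number, `star` the star worlds.
`WItC.itc`: the transport.
-/

set_option autoImplicit false

namespace Pool.Agent.Lib.MP_f04ccf_co

open Finset

attribute [local instance] Classical.propDecidable

section WC

variable {V : Type*} {G : SimpleGraph V} {Z T : Finset V} {hm : V → V} {r m n p : ℕ}
  {φ : Finset (V × V) → Finset (Finset V) → ℕ}

variable (G Z T hm r n) in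
/-- the items of the packings with the most PC pairs, with the excess cell by cell -/
structure WItC (φ : Finset (V × V) → Finset (Finset V) → ℕ) (B : V → Finset (V × V))
    (Ps : V → Finset (Finset V)) (host : Itm V → V) (ρ : V → ℕ) (σ : ℕ → V) : Prop where
  pk : ∀ x ∈ T, PkOpt G (cz G Z T hm x) (hz G Z T hm x) (tlo G T hm) φ (B x) (Ps x)
  hst : ∀ x ∈ T, ∀ u ∈ pkf (B x) (Ps x), host u = x
  rk : Rank T (tI G Z T hm r Z) ρ σ
  cT : T.card = n
  bic : BIC ((r : ℤ) - 1) n (fun i => tI G Z T hm r Z (σ i)) (fun i => sI hm r Z (σ i))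
    (fun i => hI G Z T hm Z (σ i)) (fun i => eI G hm Z (σ i))
    (fun i j => EI G hm Z (σ i) (σ j))
  it : ItE ((r : ℤ) - 1) n (fun i => tI G Z T hm r Z (σ i)) (fun i => sI hm r Z (σ i))
    (fun i => hI G Z T hm Z (σ i)) (fun i => eI G hm Z (σ i))
    (fun i j => EI G hm Z (σ i) (σ j)) (T.biUnion fun x => pkf (B x) (Ps x))
    (fun u => ρ (host u)) (fun u => (ivl u : ℤ)) (fun i u => (ikp (tlo G T hm) (σ i) u : ℤ))
    (fun i u => (ims G (cz G Z T hm) (tlo G T hm) (σ i) u : ℤ))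
    (fun i u => (rmr G (cz G Z T hm) (tlo G T hm) (σ i) u : ℤ))
    (fun i => ∑ u ∈ pkf (B (σ i)) (Ps (σ i)), (ivl u : ℤ))
    (fun i => ∑ z ∈ T.erase (σ i), nxw G Z T hm B (σ i) z) (fun _ _ => 0)

/-- **the bridge, version [C]**, for any packings `PkOpt`, hosts and rank -/
theorem WHom.witc (h : WHom G Z T r m n hm) {B : V → Finset (V × V)}
    {Ps : V → Finset (Finset V)} {host : Itm V → V}
    (hB : ∀ x ∈ T, PkOpt G (cz G Z T hm x) (hz G Z T hm x) (tlo G T hm) φ (B x) (Ps x))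
    (hhost : ∀ x ∈ T, ∀ u ∈ pkf (B x) (Ps x), host u = x) {ρ : V → ℕ} {σ : ℕ → V}
    (hσ : Rank T (tI G Z T hm r Z) ρ σ) : WItC G Z T hm r n φ B Ps host ρ σ := by
  have hbic := h.bic_rank hσ
  have hfam : ∀ x ∈ T, Fam (co G) (cz G Z T hm) (hz G Z T hm) (tlo G T hm) x
      (pkf (B x) (Ps x)) := fun x hx =>
    (hB x hx).toPk.fam (h.csys.dCH hx hx).symm
  have his := h.isys hfam hhost
  have hfil : ∀ x ∈ T, (T.biUnion fun x => pkf (B x) (Ps x)).filter (fun u => host u = x)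
      = pkf (B x) (Ps x) := by
    intro x hx
    ext u
    simp only [mem_filter, mem_biUnion]
    constructor
    · rintro ⟨⟨y, hy, hu⟩, h1⟩
      have h2 : x = y := h1.symm.trans (hhost y hy u hu)
      rw [h2]
      exact hu
    · intro hu
      exact ⟨⟨x, hx, hu⟩, hhost x hx u hu⟩
  have hcard := h.cardT
  have hbi := hbic.toBI
  rw [← hcard] at hbi
  have hite := his.ite hσ hbi (muX := fun x => ∑ u ∈ pkf (B x) (Ps x), (ivl u : ℤ))
    (NbX := fun x => ∑ z ∈ T.erase x, nxw G Z T hm B x z)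
    (NxX := fun _ _ => 0)
    (fun x hx => by rw [hfil x hx])
    (fun x hx => (hB x hx).toPk.mu_le)
    (fun x hx => by
      have h1 := PkOpt.energyW h hx hB
      rw [sum_const_zero]
      linarith)
    (fun x hx z hz' hxz => by
      have h1 := h.pairFc (fun x hx => (hB x hx).toPk) hx hz' hxz
      have h3 := fcw_nonneg (G := G) (Z := Z) (T := T) (hm := hm) B x z
      rw [hfil x hx, hfil z hz']
      have h2 : ∀ (y : V) (u : Itm V), (ikp (tlo G T hm) y u : ℤ)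
          * ((r : ℤ) - 1 - tI G Z T hm r Z y) - (ims G (cz G Z T hm) (tlo G T hm) y u : ℤ)
          = iht G (cz G Z T hm) (tlo G T hm) y u := by
        intro y u
        unfold iht tI
        ring
      simp only [h2]
      linarith)
  rw [hcard] at hite
  exact ⟨hB, hhost, hσ, hcard, hbic, hite⟩

/-- **the bridge, version [C], with the rank `(t, h, mu)`** -/
theorem WHom.exists_witcM (h : WHom G Z T r m n hm)
    (φ : Finset (V × V) → Finset (Finset V) → ℕ) :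
    ∃ B Ps host ρ σ, WItC G Z T hm r n φ B Ps host ρ σ ∧
      ∀ i j, i ≤ j → j < n → tI G Z T hm r Z (σ j) < tI G Z T hm r Z (σ i) ∨
        tI G Z T hm r Z (σ j) = tI G Z T hm r Z (σ i) ∧
          (hI G Z T hm Z (σ j) < hI G Z T hm Z (σ i) ∨
            hI G Z T hm Z (σ j) = hI G Z T hm Z (σ i) ∧
            ∑ u ∈ pkf (B (σ j)) (Ps (σ j)), (ivl u : ℤ)
              ≤ ∑ u ∈ pkf (B (σ i)) (Ps (σ i)), (ivl u : ℤ)) := by
  obtain ⟨B, Ps, host, hB, hhost⟩ := h.exists_packs φ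
  have hne : T.Nonempty := by
    rw [← card_pos, h.cardT]
    have := h.five
    omega
  obtain ⟨ρ, σ, hσ, hlex⟩ := exists_rank3 T hne (tI G Z T hm r Z) (hI G Z T hm Z)
    fun x => ∑ u ∈ pkf (B x) (Ps x), (ivl u : ℤ)
  rw [h.cardT] at hlex
  exact ⟨B, Ps, host, ρ, σ, h.witc hB hhost hσ, hlex⟩

end WC

section StrC

variable {ι : Type*}

/-- **the items, version [C]** -/
structure ItC (R : ℤ) (n : ℕ) (t s h e : ℕ → ℤ) (E : ℕ → ℕ → ℤ) (U : Finset ι)
    (ho : ι → ℕ) (vl : ι → ℤ) (kp ms mr : ℕ → ι → ℤ) (mu Nb : ℕ → ℤ) (Nx : ℕ → ℕ → ℤ)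
    (be : ℕ → ℕ → ℤ) (ls : ℕ → ℤ → ℤ) (pc ar : ι → ℤ) (aT : ℕ → ℤ)
    (NN FF pw : ℕ → ℕ → ℤ) (nu : ℕ → ι → ℤ) : Prop
    extends ItY R n t s h e E U ho vl kp ms mr mu Nb Nx be ls pc ar aT where
  pcf : ∀ u ∈ U, pc u = 0 ∨ pc u = 1
  nbC : ∀ i < n, Nb i = ∑ j ∈ (range n).erase i, NN i j
  nxC : ∀ i < n, ∀ j < n, Nx i j = 0
  NN0 : ∀ i < n, ∀ j < n, 0 ≤ NN i j
  NNz : ∀ i < n, ∀ j < n, be i j = 0 → NN i j = 0
  NNb : ∀ i < n, ∀ j < n, NN i j ≤ be i j * (be i j + 1)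
    + 2 * ∑ u ∈ U.filter (fun u => ho u = i), nu j u
  FF0 : ∀ i < n, ∀ j < n, 0 ≤ FF i j
  FFs : ∀ i < n, ∀ j < n, FF i j = FF j i
  FFg : ∀ u ∈ U, pc u = 1 → ∀ j < n, kp j u ≠ 0 →
    nu j u * (nu j u + 1 - be j (ho u)) ≤ FF (ho u) j
  nu0 : ∀ u ∈ U, ∀ j < n, 0 ≤ nu j u
  nup : ∀ u ∈ U, pc u = 0 → ∀ j < n, nu j u = 0
  nuz : ∀ u ∈ U, ∀ j < n, kp j u = 0 → nu j u = 0
  nus : ∀ u ∈ U, vl u = 1 → ∀ j < n, kp j u ≠ 0 →
    (nu j u + pc u - 1) * ms j u ≤ t (ho u) * t j + (nu j u + pc u)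
  nuq : ∀ u ∈ U, vl u = 1 → ∀ j < n, kp j u ≠ 0 →
    (nu j u + pc u) * (nu j u + pc u - 2) ≤ t (ho u) * t j
  cellP : ∀ i < n, ∀ j < n, i ≠ j →
    2 * ((be i j + be j i - 1) * R) + 2 * FF i j
      ≤ 2 * (t i * t j) + (be i j + be j i) * (be i j + be j i - 1) + NN i j + NN j i
  pairF : ∀ i < n, ∀ j < n, i ≠ j →
    ∑ u ∈ U.filter (fun u => ho u = i), (kp j u * (R - t j) - ms j u)
      + ∑ u ∈ U.filter (fun u => ho u = j), (kp i u * (R - t i) - ms i u)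
      + FF i j ≤ E i j
  pw0 : ∀ i < n, ∀ j < n, 0 ≤ pw i j
  fpw : ∀ i < n, ∀ j < n, ∑ u ∈ U.filter (fun u => ho u = i), nu j u
    ≤ pw i j + be i j * (be i j - 1)
  arU : ∀ u ∈ U, ar u ≤ pc u + ∑ j ∈ (range n).erase (ho u), (nu j u
    + if kp j u = 0 then 0 else be (ho u) j - pc u)
  lsf : ∀ i < n, ∀ q, 0 ≤ q → ls i q ≤ q * (∑ j ∈ (range n).erase i, be i j
    + ∑ u ∈ U.filter (fun u => ho u = i), ∑ j ∈ (range n).erase i, nu j u)
  sumk : ∀ u ∈ U, ∑ i ∈ range n, kp i u ≤ vl u + 1 - pc u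
  msc : ∀ u ∈ U, ∀ i < n, ms i u ≤ R - t i
  jntp : ∀ u ∈ U, pc u = 1 → ∀ j < n, kp j u ≠ 0 →
    (be (ho u) j - 1) * R + (max 0 (nu j u + 1 - be (ho u) j)) ^ 2
      ≤ t (ho u) * t j + be (ho u) j ^ 2
  rectf : ∀ i < n, ∀ j < n, i ≠ j → ∀ w ∈ U, ho w = i → vl w = 1 → kp j w ≠ 0 →
    ∑ u ∈ U.filter (fun u => ho u = i), (kp j u * (R - t j) - ms j u)
      + ∑ u ∈ U.filter (fun u => ho u = j), (kp i u * (R - t i) - ms i u)
      + nu j w * max 0 (nu j w + pc w - be j i) ≤ E i j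
  cellf : ∀ i < n, ∀ j < n, i ≠ j → ∀ K ⊆ U, (∀ u ∈ K, ho u = i ∧ kp j u ≠ 0) →
    ∀ K' ⊆ U, (∀ u ∈ K', ho u = j ∧ kp i u ≠ 0) →
    ∀ w ∈ U, ho w = i → vl w = 1 → kp j w ≠ 0 → ∀ I ⊆ range n, i ∈ I → j ∈ I →
    (∀ u ∈ K, ∀ l < n, kp l u ≠ 0 → l ∈ I) → (∀ u ∈ K', ∀ l < n, kp l u ≠ 0 → l ∈ I) → ∀ q : ℤ,
    2 * ∑ u ∈ K, (R * kp j u + (1 - pc u) * t j - mr j u - ar u)
      + 2 * ∑ u ∈ K', (R * kp i u + (1 - pc u) * t i - mr i u - ar u)
      + 2 * (nu j w * max 0 (nu j w + pc w - ∑ u ∈ K', pc u))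
      ≤ 2 * (R + t i * t j)
        + (∑ u ∈ K, (kp j u + 1 - pc u) + ∑ u ∈ K', (kp i u + 1 - pc u))
          * (∑ u ∈ K, (kp j u + 1 - pc u) + ∑ u ∈ K', (kp i u + 1 - pc u) - 1)
        - 2 * q * (∑ u ∈ K, (kp j u + 1 - pc u) + ∑ u ∈ K', (kp i u + 1 - pc u))
        + I.card * (q * (q + 1)) + 2 * (∑ u ∈ K, pc u) * ∑ u ∈ K', pc u
  rows : ∀ i < n, ∀ K ⊆ U, (∀ u ∈ K, ho u ≠ i) → 0 ≤ s i + 1 + ∑ u ∈ K, kp i u →
    2 * (R * s i) + 2 * ∑ u ∈ K, (kp i u * (R - t i) - mr i u)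
      + ∑ x ∈ range n, ((K.filter fun u => ho u = x ∧ kp i u = vl u).card : ℤ)
        * (((K.filter fun u => ho u = x ∧ kp i u = vl u).card : ℤ) - 1)
      ≤ 2 * e i + 4 * (∑ u ∈ K, kp i u) * (s i + 1)
        + 2 * (∑ u ∈ K, kp i u) * (2 * ∑ u ∈ K, kp i u - 1)
  rowp : ∀ i < n, ∀ j < n, i ≠ j → ∀ K ⊆ U, (∀ u ∈ K, ho u ≠ i) →
    0 ≤ s i + ∑ u ∈ K, kp i u →
    2 * R * s i + 2 * ∑ u ∈ K, (kp i u * (R - t i) - mr i u)
      + 2 * ∑ u ∈ U.filter (fun u => ho u = i), (kp j u * (R - t j) - ms j u)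
      + 2 * pw i j
      + ∑ x ∈ range n,
        ((K.filter fun u => ho u = x ∧ kp i u = vl u ∧ (x = j → pc u = 0)).card : ℤ)
        * (((K.filter fun u => ho u = x ∧ kp i u = vl u ∧ (x = j → pc u = 0)).card : ℤ) - 1)
      ≤ 2 * e i
        + 2 * (∑ u ∈ K, (2 * kp i u - if ho u = j then pc u * kp i u else 0) + (R - t j))
          * (s i + 1)
        + (∑ u ∈ K, (2 * kp i u - if ho u = j then pc u * kp i u else 0))
          * (∑ u ∈ K, (2 * kp i u - if ho u = j then pc u * kp i u else 0) - 1)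
        + 2 * ∑ u ∈ K, (if ho u = j then ar u else 2 * (R - t j) * kp i u)
        + 2 * (∑ u ∈ K, (if ho u = j then pc u * kp i u else 0)) * be i j
  rowr : ∀ i < n, ∀ j < n, i ≠ j → ∀ K ⊆ U, (∀ u ∈ K, ho u ≠ i) →
    0 ≤ s i + ∑ u ∈ K, kp i u → ∀ w ∈ U,
    2 * R * s i + 2 * ∑ u ∈ K, (kp i u * (R - t i) - mr i u)
      + 2 * ∑ u ∈ U.filter (fun u => ho u = i), (kp j u * (R - t j) - ms j u)
      + 2 * (max 0 (ms i w - be i j)
        * max 0 (ms j w - ∑ u ∈ K, (if ho u = j then pc u * kp i u else 0)))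
      + ∑ x ∈ range n,
        ((K.filter fun u => ho u = x ∧ kp i u = vl u ∧ (x = j → pc u = 0)).card : ℤ)
        * (((K.filter fun u => ho u = x ∧ kp i u = vl u ∧ (x = j → pc u = 0)).card : ℤ) - 1)
      ≤ 2 * e i
        + 2 * (∑ u ∈ K, (2 * kp i u - if ho u = j then pc u * kp i u else 0) + (R - t j))
          * (s i + 1)
        + (∑ u ∈ K, (2 * kp i u - if ho u = j then pc u * kp i u else 0))
          * (∑ u ∈ K, (2 * kp i u - if ho u = j then pc u * kp i u else 0) - 1)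
        + 2 * ∑ u ∈ K, (if ho u = j then ar u else 2 * (R - t j) * kp i u)
        + 2 * (∑ u ∈ K, (if ho u = j then pc u * kp i u else 0)) * be i j
  rowf : ∀ i < n, ∀ j < n, i ≠ j → ∀ K ⊆ U, (∀ u ∈ K, ho u ≠ i) →
    0 ≤ s i + ∑ u ∈ K, kp i u → ∀ w ∈ U, ho w = j → vl w = 1 → kp i w ≠ 0 →
    2 * R * s i + 2 * ∑ u ∈ K, (kp i u * (R - t i) - mr i u)
      + 2 * ∑ u ∈ U.filter (fun u => ho u = i), (kp j u * (R - t j) - ms j u)
      + 2 * (max 0 (nu i w + pc w - be i j) * nu i w)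
      + ∑ x ∈ range n,
        ((K.filter fun u => ho u = x ∧ kp i u = vl u ∧ (x = j → pc u = 0)).card : ℤ)
        * (((K.filter fun u => ho u = x ∧ kp i u = vl u ∧ (x = j → pc u = 0)).card : ℤ) - 1)
      ≤ 2 * e i
        + 2 * (∑ u ∈ K, (2 * kp i u - if ho u = j then pc u * kp i u else 0) + (R - t j))
          * (s i + 1)
        + (∑ u ∈ K, (2 * kp i u - if ho u = j then pc u * kp i u else 0))
          * (∑ u ∈ K, (2 * kp i u - if ho u = j then pc u * kp i u else 0) - 1)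
        + 2 * ∑ u ∈ K, (if ho u = j then ar u else 2 * (R - t j) * kp i u)
        + 2 * (∑ u ∈ K, (if ho u = j then pc u * kp i u else 0)) * be i j
  row3 : ∀ i < n, ∀ K ⊆ U, (∀ u ∈ K, ho u ≠ i ∧ kp i u ≠ 0) → ∀ K3 ⊆ K, ∀ y : ι → ℕ,
    (∀ u ∈ K3, y u < n ∧ y u ≠ i ∧ ((K3.filter fun v => y v = y u).card : ℤ)
      + ∑ v ∈ K.filter (fun v => ho v = y u), pc v ≤ ms (y u) u) →
    0 ≤ s i + ∑ u ∈ K, kp i u →
    2 * (R * s i) + 2 * (∑ u ∈ K, (kp i u * (R - t i) - mr i u) + ∑ u ∈ K3, mr i u)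
      ≤ 2 * e i
        + 2 * (∑ u ∈ K, 2 * kp i u + ∑ u ∈ K3, (vl u + 2 - 2 * kp i u)) * (s i + 1)
        + (∑ u ∈ K, 2 * kp i u + ∑ u ∈ K3, (vl u + 2 - 2 * kp i u))
          * (∑ u ∈ K, 2 * kp i u + ∑ u ∈ K3, (vl u + 2 - 2 * kp i u) - 1)
  tstT : ∀ D ⊆ range n, ∀ K ⊆ U, (∀ u ∈ K, ho u ∉ D) → (∀ u ∈ K, pc u = 0) → ∀ I : Finset ℕ,
    (∀ u ∈ K, ho u ∈ I) → (∀ u ∈ K, ∀ l < n, kp l u ≠ 0 → l ∈ I) → ∀ q : ℤ,
    2 * (R + 1 - D.card) * ∑ i ∈ D, s i + ∑ i ∈ D, ∑ j ∈ D.erase i, E i j + ∑ i ∈ D, s i ^ 2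
      + 2 * ∑ u ∈ K, ∑ i ∈ D, (kp i u * (R - t i) - ms i u)
      ≤ 2 * ∑ i ∈ D, e i + D.card * (D.card - 1) * (R + 1) + (∑ i ∈ D, s i) ^ 2
        + (∑ u ∈ K, (vl u + 1)) * (∑ u ∈ K, (vl u + 1) - 1)
        - 2 * q * (∑ u ∈ K, (vl u + 1)) + I.card * (q * (q + 1))
        + 2 * (∑ u ∈ K, (vl u + 1)) * (D.card + ∑ i ∈ D, s i)
  tzN : ∀ i < n, ∀ K ⊆ U, (∀ u ∈ K, ho u ≠ i) → 0 ≤ s i + ∑ u ∈ K, kp i u →
    R * (s i + ∑ u ∈ K, kp i u)
      ≤ (mu i + ∑ u ∈ K, kp i u) * (t i + 2 * (s i + ∑ u ∈ K, kp i u) + 1) + ∑ u ∈ K, mr i u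
  slk : ∀ i < n, ∀ K ⊆ U, (∀ u ∈ K, ho u ≠ i) → 0 ≤ s i + ∑ u ∈ K, kp i u →
    e i + (∑ u ∈ K, kp i u) * t i + 2 * (∑ u ∈ K, kp i u) * (s i + 1)
        + (∑ u ∈ K, kp i u) * (2 * (∑ u ∈ K, kp i u) - 1) + R * (s i + ∑ u ∈ K, kp i u)
      ≤ 2 * ((mu i + ∑ u ∈ K, kp i u) * (t i + 2 * (s i + ∑ u ∈ K, kp i u) + 1))
        + ∑ u ∈ K, mr i u
  jsub : ∀ i < n, ∀ j < n, i ≠ j → ∀ m : ℕ, (m : ℤ) ≤ be i j + be j i →
    ((m : ℤ) - 1) * R ≤ t i * t j + (m : ℤ) ^ 2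
  lowD : ∃ us : ℕ → ℤ, (∀ i < n, 0 ≤ us i ∧ us i ≤ ∑ j ∈ (range n).erase i, be i j) ∧
    ∀ B ⊆ range n, 1 ≤ B.card → ∀ D ⊆ B,
    ((B.card : ℤ) - 1) * (2 * (R + 1 - B.card) * ∑ i ∈ B, s i + ∑ i ∈ B, ∑ j ∈ B.erase i, E i j
        + ∑ i ∈ B, s i ^ 2)
      + 2 * ∑ i ∈ D, ((R - t i - us i)
          * (∑ j ∈ B.erase i, ∑ u ∈ U.filter (fun u => ho u = j), kp i u
            - ((B.card : ℤ) - 1 + ∑ j ∈ B.erase i, s j))
        - ∑ j ∈ B.erase i, ∑ u ∈ U.filter (fun u => ho u = j), ms i u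
        - ∑ j ∈ range n \ B, ∑ u ∈ U.filter (fun u => ho u = i), nu j u)
      ≤ ((B.card : ℤ) - 1) * (2 * ∑ i ∈ B, e i + B.card * (B.card - 1) * (R + 1)
        + (∑ i ∈ B, s i) ^ 2)
        + ∑ i ∈ D, ∑ j ∈ B.erase i, (be i j * (be i j - 1) + 2 * be i j * be j i)
  enT : ∀ i < n, ∀ q : ℤ, 0 ≤ q →
    2 * e i + mu i * (mu i + 1) + 2 * (q * (mu i - ∑ j ∈ (range n).erase i, be i j))
      ≤ 2 * (mu i * h i) + ∑ j ∈ (range n).erase i, NN i j + ((n : ℤ) - 1) * (q * (q + 1))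
  star : n = 5 → 9 ≤ R → R ≤ 12 → ∀ i < n,
    (∀ j < n, j ≠ i → t j = 0 ∧ (s j = -1 ∨ (s j = 0 ∧ e j ≤ 2))) →
    s i * R + csZ R + 2 * ∑ j ∈ (range n).erase i, min (be i j) 1 < e i

end StrC

section TransC

variable {V : Type*} {G : SimpleGraph V} {Z T : Finset V} {hm : V → V} {r m n p : ℕ}
  {φ : Finset (V × V) → Finset (Finset V) → ℕ} {B : V → Finset (V × V)}
  {Ps : V → Finset (Finset V)} {host : Itm V → V} {ρ : V → ℕ} {σ : ℕ → V}

/-- the members outside the PC pairs have no free arcs -/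
lemma PkOpt.nui_inl_zero {κ : Type*} {C H : Finset V} {tl : V → κ} {Q : Finset (V × V)}
    {Qs : Finset (Finset V)} (h : PkOpt G C H tl φ Q Qs) {P : Finset V}
    (hP : (Sum.inl P : Itm V) ∈ pkf Q Qs) (y : κ) :
    nui G C tl Q y (Sum.inl P) = 0 := by
  rw [nui_inl]
  refine sum_eq_zero fun v hv => ?_
  have hvP := (mem_filter.1 hv).1
  have hP' := (inl_mem_pkf.1 hP).1
  by_contra h1
  obtain ⟨a, ha⟩ := card_pos.1 (Nat.pos_of_ne_zero h1)
  have h2 : v ∈ Nend G C H tl Q := mem_Nend.2 ⟨mem_sdiff.2 ⟨h.sub P hP' hvP, fun h3 => by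
    obtain ⟨e, he, hev⟩ := mem_image.1 h3
    exact h.dw e he P hP' (hev ▸ hvP)⟩, a, ha⟩
  rw [h.frC_zero] at h2
  exact notMem_empty v h2

/-- no N-ends, no paid excess -/
lemma PkOpt.nxk_zero {κ : Type*} {C H : Finset V} {tl : V → κ} {Q : Finset (V × V)}
    {Qs : Finset (Finset V)} (h : PkOpt G C H tl φ Q Qs) (y : κ) :
    nxk G C H tl Q y = 0 := by
  have h1 : nez G C H tl Q y = ∅ := by
    unfold nez
    rw [h.frC_zero, filter_empty]
  have h2 : E G (∅ : Finset V) = 0 := rfl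
  unfold nxk
  rw [h1, h2, sum_empty]
  rfl

/-- `ItX`, version [C] -/
theorem WItC.itx (h : WHom G Z T r m n hm) (H : WItC G Z T hm r n φ B Ps host ρ σ) :
    ItX ((r : ℤ) - 1) n (fun i => tI G Z T hm r Z (σ i)) (fun i => sI hm r Z (σ i))
      (fun i => hI G Z T hm Z (σ i)) (fun i => eI G hm Z (σ i))
      (fun i j => EI G hm Z (σ i) (σ j)) (T.biUnion fun x => pkf (B x) (Ps x))
      (fun u => ρ (host u)) (fun u => (ivl u : ℤ)) (fun i u => (ikp (tlo G T hm) (σ i) u : ℤ))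
      (fun i u => (ims G (cz G Z T hm) (tlo G T hm) (σ i) u : ℤ))
      (fun i u => (rmr G (cz G Z T hm) (tlo G T hm) (σ i) u : ℤ))
      (fun i => ∑ u ∈ pkf (B (σ i)) (Ps (σ i)), (ivl u : ℤ))
      (fun i => ∑ z ∈ T.erase (σ i), nxw G Z T hm B (σ i) z) (fun _ _ => 0)
      (fun i j => pcn (tlo G T hm) B (σ i) (σ j))
      (fun i q => lsx G (cz G Z T hm (σ i)) (hz G Z T hm (σ i)) q) := by
  refine h.itx (fun x hx => (H.pk x hx).toPk) H.hst H.rk H.bic H.it fun x hx hs => ?_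
  by_contra hcon
  have h32 := h.csys.h32 h.F.toPFrame h.hh h.ht hx
  have h1 := (H.pk x hx).toPk.clq_of_zero (H.pk x hx).min h32
    (h.csys.CP_clq h.F.toPFrame hx) (by linarith)
  have h2 : CP G Z T (fun x => Z.filter fun v => hm v = x) x
      ∪ HP G Z T (fun x => Z.filter fun v => hm v = x) x = Z.filter fun v => hm v = x :=
    CP_union_HP
  rw [h2] at h1
  have h3 := h.hom _ (filter_subset _ _) h1
  have h4 : sI hm r Z x = ((Z.filter fun v => hm v = x).card : ℤ) - r := rfl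
  rw [h4] at hs
  have h5 := h.hr
  omega

/-- `ItY`, version [C] -/
theorem WItC.ity (h : WHom G Z T r m n hm) (H : WItC G Z T hm r n φ B Ps host ρ σ) :
    ItY ((r : ℤ) - 1) n (fun i => tI G Z T hm r Z (σ i)) (fun i => sI hm r Z (σ i))
      (fun i => hI G Z T hm Z (σ i)) (fun i => eI G hm Z (σ i))
      (fun i j => EI G hm Z (σ i) (σ j)) (T.biUnion fun x => pkf (B x) (Ps x))
      (fun u => ρ (host u)) (fun u => (ivl u : ℤ)) (fun i u => (ikp (tlo G T hm) (σ i) u : ℤ))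
      (fun i u => (ims G (cz G Z T hm) (tlo G T hm) (σ i) u : ℤ))
      (fun i u => (rmr G (cz G Z T hm) (tlo G T hm) (σ i) u : ℤ))
      (fun i => ∑ u ∈ pkf (B (σ i)) (Ps (σ i)), (ivl u : ℤ))
      (fun i => ∑ z ∈ T.erase (σ i), nxw G Z T hm B (σ i) z) (fun _ _ => 0)
      (fun i j => pcn (tlo G T hm) B (σ i) (σ j))
      (fun i q => lsx G (cz G Z T hm (σ i)) (hz G Z T hm (σ i)) q)
      (fun u => (ipc u : ℤ)) (fun u => (iar G (cz G Z T hm (host u)) u : ℤ))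
      (fun i => ∑ v ∈ hz G Z T hm (σ i), (nd G (cz G Z T hm (σ i)) v : ℤ)) :=
  h.ity (fun x hx => (H.pk x hx).toPk) H.hst H.rk (H.itx h)

/-- **the transport to `ItC`** -/
theorem WItC.itc (hp : 2 * r ≤ p) (h : WCoreK G Z T r m n p hm)
    (H : WItC G Z T hm r n φ B Ps host ρ σ) :
    ItC ((r : ℤ) - 1) n (fun i => tI G Z T hm r Z (σ i)) (fun i => sI hm r Z (σ i))
      (fun i => hI G Z T hm Z (σ i)) (fun i => eI G hm Z (σ i))
      (fun i j => EI G hm Z (σ i) (σ j)) (T.biUnion fun x => pkf (B x) (Ps x))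
      (fun u => ρ (host u)) (fun u => (ivl u : ℤ)) (fun i u => (ikp (tlo G T hm) (σ i) u : ℤ))
      (fun i u => (ims G (cz G Z T hm) (tlo G T hm) (σ i) u : ℤ))
      (fun i u => (rmr G (cz G Z T hm) (tlo G T hm) (σ i) u : ℤ))
      (fun i => ∑ u ∈ pkf (B (σ i)) (Ps (σ i)), (ivl u : ℤ))
      (fun i => ∑ z ∈ T.erase (σ i), nxw G Z T hm B (σ i) z) (fun _ _ => 0)
      (fun i j => pcn (tlo G T hm) B (σ i) (σ j))
      (fun i q => lsx G (cz G Z T hm (σ i)) (hz G Z T hm (σ i)) q)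
      (fun u => (ipc u : ℤ)) (fun u => (iar G (cz G Z T hm (host u)) u : ℤ))
      (fun i => ∑ v ∈ hz G Z T hm (σ i), (nd G (cz G Z T hm (σ i)) v : ℤ))
      (fun i j => nxw G Z T hm B (σ i) (σ j)) (fun i j => fcw G Z T hm B (σ i) (σ j))
      (fun i j => pfw G (cz G Z T hm (σ i)) (tlo G T hm) (B (σ i)) (σ j))
      (fun j u => (nui G (cz G Z T hm (host u)) (tlo G T hm) (B (host u)) (σ j) u : ℤ)) := by
  have hcard := h.cardT
  have hmem : ∀ i < n, σ i ∈ T := fun i hi => H.rk.mem i (by rw [hcard]; exact hi)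
  have hne : ∀ i < n, ∀ j < n, i ≠ j → σ i ≠ σ j := fun i hi j hj hij h1 =>
    hij (H.rk.sinj (by rw [hcard]; exact hi) (by rw [hcard]; exact hj) h1)
  have her : ∀ i < n, ∀ g : V → ℤ, ∑ z ∈ T.erase (σ i), g z = ∑ j ∈ (range n).erase i, g (σ j) := by
    intro i hi g
    have := H.rk.sum_er (i := i) (by rw [hcard]; exact hi) g
    rw [hcard] at this
    exact this
  have hpk := fun x hx => (H.pk x hx).toPk
  have hmin := fun x hx => (H.pk x hx).min
  have h32 := fun x (hx : x ∈ T) => h.csys.h32 h.F.toPFrame h.hh h.toWHom.ht hx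
  have hfam : ∀ x ∈ T, Fam (co G) (cz G Z T hm) (hz G Z T hm) (tlo G T hm) x
      (pkf (B x) (Ps x)) := fun x hx => (hpk x hx).fam (h.csys.dCH hx hx).symm
  have hfil : ∀ i < n, (T.biUnion fun x => pkf (B x) (Ps x)).filter (fun u => ρ (host u) = i)
      = pkf (B (σ i)) (Ps (σ i)) := fun i hi => fil_host H.hst H.rk (by rw [hcard]; exact hi)
  have hmemU : ∀ u ∈ T.biUnion fun x => pkf (B x) (Ps x), ∀ j < n,
      (ρ (host u) = j ↔ u ∈ pkf (B (σ j)) (Ps (σ j))) := by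
    intro u hu j hj
    rw [← hfil j hj, mem_filter]
    exact ⟨fun h1 => ⟨hu, h1⟩, fun h1 => h1.2⟩
  -- the host of an item
  have hho : ∀ u ∈ T.biUnion fun x => pkf (B x) (Ps x), host u ∈ T ∧
      u ∈ pkf (B (host u)) (Ps (host u)) ∧ ρ (host u) < n ∧ σ (ρ (host u)) = host u := by
    intro u hu
    obtain ⟨x, hx, hux⟩ := mem_biUnion.1 hu
    have h1 := H.hst x hx u hux
    refine ⟨h1 ▸ hx, h1 ▸ hux, ?_, ?_⟩
    · rw [← hcard]
      exact H.rk.lt _ (h1 ▸ hx)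
    · exact H.rk.left _ (h1 ▸ hx)
  have htwo : ∀ u ∈ T.biUnion fun x => pkf (B x) (Ps x), ∀ Q, u = Sum.inl Q → 2 ≤ Q.card := by
    intro u hu Q hQ
    exact (inl_mem_pkf.1 (hQ ▸ (hho u hu).2.1)).2
  -- sums over the items of a host
  have hsum : ∀ i < n, ∀ f : Itm V → V → ℤ,
      ∑ u ∈ (T.biUnion fun x => pkf (B x) (Ps x)).filter (fun u => ρ (host u) = i), f u (host u)
        = ∑ u ∈ pkf (B (σ i)) (Ps (σ i)), f u (σ i) := by
    intro i hi f
    rw [hfil i hi]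
    exact sum_congr rfl fun u hu => by rw [H.hst _ (hmem i hi) u hu]
  have hmulS : ∀ i < n, (∑ u ∈ pkf (B (σ i)) (Ps (σ i)), (ivl u : ℤ)) + (Ps (σ i)).card
      = hI G Z T hm Z (σ i) := by
    intro i hi
    have h1 := (hpk _ (hmem i hi)).sum_ivl
    have h2 : (∑ u ∈ pkf (B (σ i)) (Ps (σ i)), (ivl u : ℤ)) + (Ps (σ i)).card
        = ((hz G Z T hm (σ i)).card : ℤ) := by exact_mod_cast h1
    exact h2
  have hBc : ∀ i < n, ((B (σ i)).card : ℤ) = ∑ j ∈ (range n).erase i, pcn (tlo G T hm) B (σ i) (σ j) := by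
    intro i hi
    rw [← her i hi fun z => pcn (tlo G T hm) B (σ i) z, ← h.toWHom.sum_pcn (hmem i hi)
      (hpk _ (hmem i hi))]
  have hYt : ∀ i < n, ∀ v ∈ hz G Z T hm (σ i), tlo G T hm v ∈ T.erase (σ i) := fun i hi v hv =>
    h.toWHom.ht _ (hmem i hi) v hv
  have hpcf : ∀ u : Itm V, (ipc u : ℤ) = 0 ∨ (ipc u : ℤ) = 1 := by
    intro u
    rcases u with P | e
    · left
      simp [ipc]
    · right
      simp [ipc]
  have hnup : ∀ u ∈ T.biUnion fun x => pkf (B x) (Ps x), (ipc u : ℤ) = 0 → ∀ y : V,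
      nui G (cz G Z T hm (host u)) (tlo G T hm) (B (host u)) y u = 0 := by
    intro u hu hpc y
    obtain ⟨a1, a2, a3, a4⟩ := hho u hu
    rcases u with P | e
    · exact (H.pk _ a1).nui_inl_zero a2 y
    · exact absurd hpc (by simp [ipc])
  -- all free arcs
  have hnua : ∀ i < n, ∑ u ∈ (T.biUnion fun x => pkf (B x) (Ps x)).filter
        (fun u => ρ (host u) = i), ∑ j ∈ (range n).erase i,
          (nui G (cz G Z T hm (host u)) (tlo G T hm) (B (host u)) (σ j) u : ℤ)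
      = ∑ u ∈ pkf (B (σ i)) (Ps (σ i)), ∑ z ∈ T.erase (σ i),
          (nui G (cz G Z T hm (σ i)) (tlo G T hm) (B (σ i)) z u : ℤ) := by
    intro i hi
    rw [hsum i hi fun u x => ∑ j ∈ (range n).erase i,
      (nui G (cz G Z T hm x) (tlo G T hm) (B x) (σ j) u : ℤ)]
    exact sum_congr rfl fun u _ => (her i hi fun z =>
      (nui G (cz G Z T hm (σ i)) (tlo G T hm) (B (σ i)) z u : ℤ)).symm
  -- the free arcs of the PC pairs with one tail
  have hnuc : ∀ i < n, ∀ j < n, ∑ u ∈ (T.biUnion fun x => pkf (B x) (Ps x)).filter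
        (fun u => ρ (host u) = i), (nui G (cz G Z T hm (host u)) (tlo G T hm) (B (host u)) (σ j) u : ℤ)
      = ∑ e ∈ pcs (tlo G T hm) (B (σ i)) (σ j),
        ((frC G (cz G Z T hm (σ i)) (tlo G T hm) (B (σ i)) e.1).card : ℤ) := by
    intro i hi j hj
    rw [hsum i hi fun u x => (nui G (cz G Z T hm x) (tlo G T hm) (B x) (σ j) u : ℤ)]
    have h1 := sum_ipc_nui (G := G) (C := cz G Z T hm (σ i)) (tl := tlo G T hm) (B := B (σ i))
      (Ps := Ps (σ i)) (σ j)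
    refine Eq.trans ?_ h1
    refine sum_congr rfl fun u hu => ?_
    rcases u with P | e
    · rw [(H.pk _ (hmem i hi)).nui_inl_zero hu (σ j)]
      simp
    · simp [ipc]
  refine ⟨H.ity h.toWHom, fun u _ => hpcf u, fun i hi => her i hi _, fun _ _ _ _ => rfl,
    fun _ _ _ _ => nxw_nonneg _ _ _, fun _ _ _ _ h0 => nxw_zero h0, fun i hi j hj => ?_,
    fun _ _ _ _ => fcw_nonneg _ _ _, fun _ _ _ _ => fcw_comm _ _ _,
    fun u hu hpc j hj hk => ?_, fun _ _ _ _ => Nat.cast_nonneg _, fun u hu hpc j hj => ?_,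
    ?_, ?_, ?_, ?_, ?_, ?_, ?_, ?_, ?_, ?_, ?_, ?_, ?_, ?_, ?_, ?_, ?_, ?_, ?_, ?_,
    ?_, ?_, ?_, ?_, h.toWHom.enTi H.pk H.rk, h.toWHom.starI hpk H.rk⟩
  · -- NNb
    show nxw G Z T hm B (σ i) (σ j) ≤ pcn (tlo G T hm) B (σ i) (σ j)
        * (pcn (tlo G T hm) B (σ i) (σ j) + 1)
      + 2 * ∑ u ∈ (T.biUnion fun x => pkf (B x) (Ps x)).filter
        (fun u => ρ (host u) = i), (nui G (cz G Z T hm (host u)) (tlo G T hm) (B (host u)) (σ j) u : ℤ)
    rw [hnuc i hi j hj]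
    exact h.toWHom.nxw_le hpk (σ j) (hmem i hi)
  · -- FFg
    obtain ⟨a1, a2, a3, a4⟩ := hho u hu
    rcases u with P | e
    · exact absurd hpc (by simp [ipc])
    · have he := inr_mem_pkf.1 a2
      have hey : tlo G T hm e.1 = σ j := by
        by_contra h1
        exact hk (by simp [ikp, h1])
      have hjT := hmem j hj
      have hxj : host (Sum.inr e) ≠ σ j := by
        have h1 := h.toWHom.ht _ a1 e.1 ((hpk _ a1).bH e he)
        rw [hey] at h1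
        exact (ne_of_mem_erase h1).symm
      have h1 := h.fcw_ge hp hpk a1 hjT hxj (mem_pcs.2 ⟨he, hey⟩)
      show (nui G (cz G Z T hm (host (Sum.inr e))) (tlo G T hm) (B (host (Sum.inr e))) (σ j)
            (Sum.inr e) : ℤ)
          * ((nui G (cz G Z T hm (host (Sum.inr e))) (tlo G T hm) (B (host (Sum.inr e))) (σ j)
            (Sum.inr e) : ℤ) + 1 - pcn (tlo G T hm) B (σ j) (σ (ρ (host (Sum.inr e)))))
        ≤ fcw G Z T hm B (σ (ρ (host (Sum.inr e)))) (σ j)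
      rw [a4, nui_inr, if_pos hey]
      exact h1
  · show (nui G (cz G Z T hm (host u)) (tlo G T hm) (B (host u)) (σ j) u : ℤ) = 0
    rw [hnup u hu hpc]
    rfl
  · -- nuz
    intro u hu j hj hk
    have hk' : ikp (tlo G T hm) (σ j) u = 0 := by
      have : (ikp (tlo G T hm) (σ j) u : ℤ) = 0 := hk
      exact_mod_cast this
    show (nui G (cz G Z T hm (host u)) (tlo G T hm) (B (host u)) (σ j) u : ℤ) = 0
    rw [nui_zero (htwo u hu) hk']
    rfl
  · -- nus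
    intro u hu hv j hj hk
    obtain ⟨a1, a2, a3, a4⟩ := hho u hu
    have hv' : ivl u = 1 := by
      have : (ivl u : ℤ) = 1 := hv
      exact_mod_cast this
    have hk' : ikp (tlo G T hm) (σ j) u ≠ 0 := fun h1 => hk (by
      show (ikp (tlo G T hm) (σ j) u : ℤ) = 0
      rw [h1]
      rfl)
    have h1 := h.nu_ms hp a1 (hpk _ a1) (hmin _ a1) a2 hv' hk'
    show ((nui G (cz G Z T hm (host u)) (tlo G T hm) (B (host u)) (σ j) u : ℤ) + (ipc u : ℤ) - 1)
        * (ims G (cz G Z T hm) (tlo G T hm) (σ j) u : ℤ)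
      ≤ tI G Z T hm r Z (σ (ρ (host u))) * tI G Z T hm r Z (σ j)
        + ((nui G (cz G Z T hm (host u)) (tlo G T hm) (B (host u)) (σ j) u : ℤ) + (ipc u : ℤ))
    rw [a4]
    exact h1
  · -- nuq
    intro u hu hv j hj hk
    obtain ⟨a1, a2, a3, a4⟩ := hho u hu
    have hv' : ivl u = 1 := by
      have : (ivl u : ℤ) = 1 := hv
      exact_mod_cast this
    have hk' : ikp (tlo G T hm) (σ j) u ≠ 0 := fun h1 => hk (by
      show (ikp (tlo G T hm) (σ j) u : ℤ) = 0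
      rw [h1]
      rfl)
    have h1 := h.nu_sq hp a1 (hpk _ a1) (hmin _ a1) a2 hv' hk'
    show ((nui G (cz G Z T hm (host u)) (tlo G T hm) (B (host u)) (σ j) u : ℤ) + (ipc u : ℤ))
        * ((nui G (cz G Z T hm (host u)) (tlo G T hm) (B (host u)) (σ j) u : ℤ) + (ipc u : ℤ) - 2)
      ≤ tI G Z T hm r Z (σ (ρ (host u))) * tI G Z T hm r Z (σ j)
    rw [a4]
    exact h1
  · -- cellP
    exact fun i hi j hj hij => h.toWHom.cellPc hpk (hmem i hi) (hmem j hj) (hne i hi j hj hij)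
  · -- pairF
    intro i hi j hj hij
    show ∑ u ∈ (T.biUnion fun x => pkf (B x) (Ps x)).filter (fun u => ρ (host u) = i), _
      + ∑ u ∈ (T.biUnion fun x => pkf (B x) (Ps x)).filter (fun u => ρ (host u) = j), _ + _ ≤ _
    rw [hfil i hi, hfil j hj]
    have h1 := h.toWHom.pairFc hpk (hmem i hi) (hmem j hj) (hne i hi j hj hij)
    have h2 : ∀ (y : V) (u : Itm V), (ikp (tlo G T hm) y u : ℤ)
        * ((r : ℤ) - 1 - tI G Z T hm r Z y) - (ims G (cz G Z T hm) (tlo G T hm) y u : ℤ)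
        = iht G (cz G Z T hm) (tlo G T hm) y u := by
      intro y u
      unfold iht tI
      ring
    simp only [h2]
    exact h1
  · exact fun i _ j _ => pfw_nonneg
  · -- fpw
    intro i hi j hj
    show ∑ u ∈ (T.biUnion fun x => pkf (B x) (Ps x)).filter
        (fun u => ρ (host u) = i), (nui G (cz G Z T hm (host u)) (tlo G T hm) (B (host u)) (σ j) u : ℤ)
      ≤ pfw G (cz G Z T hm (σ i)) (tlo G T hm) (B (σ i)) (σ j)
        + pcn (tlo G T hm) B (σ i) (σ j) * (pcn (tlo G T hm) B (σ i) (σ j) - 1)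
    rw [hnuc i hi j hj]
    exact frt_le (hpk _ (hmem i hi)) (σ j)
  · -- arU
    intro u hu
    obtain ⟨a1, a2, a3, a4⟩ := hho u hu
    have h1 := (hpk _ a1).iar_nui (h32 _ a1) (Y := T.erase (host u))
      (fun v hv => h.toWHom.ht _ a1 v hv) a2
    show (iar G (cz G Z T hm (host u)) u : ℤ) ≤ (ipc u : ℤ)
      + ∑ j ∈ (range n).erase (ρ (host u)),
        ((nui G (cz G Z T hm (host u)) (tlo G T hm) (B (host u)) (σ j) u : ℤ)
        + if (ikp (tlo G T hm) (σ j) u : ℤ) = 0 then 0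
          else pcn (tlo G T hm) B (σ (ρ (host u))) (σ j) - (ipc u : ℤ))
    have h2 := her (ρ (host u)) a3 fun z =>
      ((nui G (cz G Z T hm (host u)) (tlo G T hm) (B (host u)) z u : ℤ)
        + if (ikp (tlo G T hm) z u : ℤ) = 0 then 0
          else pcn (tlo G T hm) B (σ (ρ (host u))) z - (ipc u : ℤ))
    rw [← h2, a4]
    refine h1.trans (le_of_eq ?_)
    congr 1
    refine sum_congr rfl fun z _ => ?_
    congr 1
    by_cases h3 : ikp (tlo G T hm) z u = 0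
    · rw [if_pos h3, if_pos (by exact_mod_cast h3)]
    · rw [if_neg h3, if_neg (by exact_mod_cast h3)]
      rfl
  · -- lsf
    intro i hi q hq
    have hx := hmem i hi
    show lsx G (cz G Z T hm (σ i)) (hz G Z T hm (σ i)) q
      ≤ q * (∑ j ∈ (range n).erase i, pcn (tlo G T hm) B (σ i) (σ j)
        + ∑ u ∈ (T.biUnion fun x => pkf (B x) (Ps x)).filter
        (fun u => ρ (host u) = i), ∑ j ∈ (range n).erase i,
          (nui G (cz G Z T hm (host u)) (tlo G T hm) (B (host u)) (σ j) u : ℤ))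
    rw [hnua i hi, ← hBc i hi]
    refine (lsx_le_q hq).trans (mul_le_mul_of_nonneg_left ?_ hq)
    have h1 : (bst G (cz G Z T hm (σ i)) (hz G Z T hm (σ i))).card
        ≤ (B (σ i)).card + (∑ e ∈ B (σ i), (frC G (cz G Z T hm (σ i)) (tlo G T hm) (B (σ i)) e.1).card
          + ∑ v ∈ Nend G (cz G Z T hm (σ i)) (hz G Z T hm (σ i)) (tlo G T hm) (B (σ i)),
            (frC G (cz G Z T hm (σ i)) (tlo G T hm) (B (σ i)) v).card) := by
      refine (card_le_card (hpk _ hx).bst_sub).trans ((card_union_le _ _).trans ?_)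
      have h2 := card_union_le ((B (σ i)).image Prod.snd)
        ((B (σ i)).biUnion fun e => frC G (cz G Z T hm (σ i)) (tlo G T hm) (B (σ i)) e.1)
      have h3 : ((B (σ i)).image Prod.snd).card ≤ (B (σ i)).card := card_image_le
      have h4 : ((B (σ i)).biUnion fun e => frC G (cz G Z T hm (σ i)) (tlo G T hm) (B (σ i))
        e.1).card ≤ _ := card_biUnion_le
      have h5 : ((Nend G (cz G Z T hm (σ i)) (hz G Z T hm (σ i)) (tlo G T hm)
        (B (σ i))).biUnion fun v => frC G (cz G Z T hm (σ i)) (tlo G T hm) (B (σ i)) v).card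
        ≤ _ := card_biUnion_le
      omega
    have h2 : ((bst G (cz G Z T hm (σ i)) (hz G Z T hm (σ i))).card : ℤ)
        ≤ (B (σ i)).card
          + (∑ e ∈ B (σ i), ((frC G (cz G Z T hm (σ i)) (tlo G T hm) (B (σ i)) e.1).card : ℤ)
          + ∑ v ∈ Nend G (cz G Z T hm (σ i)) (hz G Z T hm (σ i)) (tlo G T hm) (B (σ i)),
            ((frC G (cz G Z T hm (σ i)) (tlo G T hm) (B (σ i)) v).card : ℤ)) := by
      exact_mod_cast h1
    have h3 := (hpk _ hx).sum_frC_all (hmin _ hx) (h32 _ hx) (Y := T.erase (σ i)) (hYt i hi)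
    linarith
  · -- sumk
    intro u hu
    have h1 := sum_ikp_le (tl := tlo G T hm) T (htwo u hu)
    have h2 : ∑ z ∈ T, (ikp (tlo G T hm) z u : ℤ)
        = ∑ i ∈ range n, (ikp (tlo G T hm) (σ i) u : ℤ) := by
      have h3 := add_sum_erase T (fun z => (ikp (tlo G T hm) z u : ℤ))
        (hmem 0 (by have := h.five; omega))
      have h4 := add_sum_erase (range n) (fun i => (ikp (tlo G T hm) (σ i) u : ℤ))
        (mem_range.2 (by have := h.five; omega : 0 < n))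
      have h5 := her 0 (by have := h.five; omega) fun z => (ikp (tlo G T hm) z u : ℤ)
      linarith
    show ∑ i ∈ range n, (ikp (tlo G T hm) (σ i) u : ℤ) ≤ (ivl u : ℤ) + 1 - (ipc u : ℤ)
    rw [← h2]
    have h3 : (∑ z ∈ T, (ikp (tlo G T hm) z u : ℤ)) + ipc u ≤ ivl u + 1 := by exact_mod_cast h1
    linarith
  · -- msc
    intro u hu i hi
    show (ims G (cz G Z T hm) (tlo G T hm) (σ i) u : ℤ) ≤ (r : ℤ) - 1 - tI G Z T hm r Z (σ i)
    have h1 : ims G (cz G Z T hm) (tlo G T hm) (σ i) u ≤ (cz G Z T hm (σ i)).card :=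
      card_le_card rcl_sub
    have h2 := card_CP_eq (G := G) (Z := Z) (T := T) (hm := hm) (r := r) Z (σ i)
    rw [← h2]
    exact_mod_cast h1
  · -- jntp
    intro u hu hpc j hj hk
    obtain ⟨a1, a2, a3, a4⟩ := hho u hu
    rcases u with P | e
    · exact absurd hpc (by simp [ipc])
    · have he := inr_mem_pkf.1 a2
      have hey : tlo G T hm e.1 = σ j := by
        by_contra h1
        exact hk (by simp [ikp, h1])
      have hjT := hmem j hj
      have hxj : host (Sum.inr e) ≠ σ j := by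
        have h1 := h.toWHom.ht _ a1 e.1 ((hpk _ a1).bH e he)
        rw [hey] at h1
        exact (ne_of_mem_erase h1).symm
      have h1 := h.jntP hp a1 hjT hxj (hpk _ a1) he hey
      show (pcn (tlo G T hm) B (σ (ρ (host (Sum.inr e)))) (σ j) - 1) * ((r : ℤ) - 1)
        + (max 0 ((nui G (cz G Z T hm (host (Sum.inr e))) (tlo G T hm) (B (host (Sum.inr e))) (σ j)
            (Sum.inr e) : ℤ) + 1 - pcn (tlo G T hm) B (σ (ρ (host (Sum.inr e)))) (σ j))) ^ 2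
        ≤ tI G Z T hm r Z (σ (ρ (host (Sum.inr e)))) * tI G Z T hm r Z (σ j)
          + pcn (tlo G T hm) B (σ (ρ (host (Sum.inr e)))) (σ j) ^ 2
      rw [a4, nui_inr, if_pos hey]
      have h2 : (max 0 (((frC G (cz G Z T hm (host (Sum.inr e))) (tlo G T hm)
            (B (host (Sum.inr e))) e.1).card : ℤ) + 1
            - pcn (tlo G T hm) B (host (Sum.inr e)) (σ j)))
          = ((((frC G (cz G Z T hm (host (Sum.inr e))) (tlo G T hm)
            (B (host (Sum.inr e))) e.1).card + 1)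
            - (pcs (tlo G T hm) (B (host (Sum.inr e))) (σ j)).card : ℕ) : ℤ) := by
        unfold pcn
        omega
      rw [h2]
      exact h1
  · -- rectf
    intro i hi j hj hij w hw hwi hw1 hwk
    have hwx : w ∈ pkf (B (σ i)) (Ps (σ i)) := (hmemU w hw i hi).1 hwi
    have hw1' : ivl w = 1 := by
      have : (ivl w : ℤ) = 1 := hw1
      exact_mod_cast this
    have hwk' : ikp (tlo G T hm) (σ j) w ≠ 0 := fun h1 => hwk (by
      show (ikp (tlo G T hm) (σ j) w : ℤ) = 0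
      rw [h1]
      rfl)
    have h1 := h.rectF hp hpk hmin (hmem i hi) (hmem j hj) (hne i hi j hj hij) hwx hw1' hwk'
    have e1 : ∀ (k l : ℕ), ∀ u : Itm V, iht G (cz G Z T hm) (tlo G T hm) (σ k) u
        = (ikp (tlo G T hm) (σ k) u : ℤ) * ((r : ℤ) - 1 - tI G Z T hm r Z (σ k))
          - (ims G (cz G Z T hm) (tlo G T hm) (σ k) u : ℤ) := by
      intro k l u
      have h2 := card_CP_eq (G := G) (Z := Z) (T := T) (hm := hm) (r := r) Z (σ k)
      unfold iht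
      rw [h2]
      ring
    show ∑ u ∈ (T.biUnion fun x => pkf (B x) (Ps x)).filter (fun u => ρ (host u) = i),
        ((ikp (tlo G T hm) (σ j) u : ℤ) * ((r : ℤ) - 1 - tI G Z T hm r Z (σ j))
          - (ims G (cz G Z T hm) (tlo G T hm) (σ j) u : ℤ))
      + ∑ u ∈ (T.biUnion fun x => pkf (B x) (Ps x)).filter (fun u => ρ (host u) = j),
        ((ikp (tlo G T hm) (σ i) u : ℤ) * ((r : ℤ) - 1 - tI G Z T hm r Z (σ i))
          - (ims G (cz G Z T hm) (tlo G T hm) (σ i) u : ℤ))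
      + (nui G (cz G Z T hm (host w)) (tlo G T hm) (B (host w)) (σ j) w : ℤ)
        * max 0 ((nui G (cz G Z T hm (host w)) (tlo G T hm) (B (host w)) (σ j) w : ℤ)
          + (ipc w : ℤ) - pcn (tlo G T hm) B (σ j) (σ i)) ≤ EI G hm Z (σ i) (σ j)
    rw [hfil i hi, hfil j hj, H.hst _ (hmem i hi) w hwx]
    rw [sum_congr rfl fun u _ => e1 j j u, sum_congr rfl fun u _ => e1 i i u] at h1
    exact h1
  · -- cellf
    intro i hi j hj hij K hK hKi K' hK' hKj w hw hwi hw1 hwk I hI hiI hjI hIK hIK' q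
    have hKx : K ⊆ pkf (B (σ i)) (Ps (σ i)) := fun u hu => (hmemU u (hK hu) i hi).1 (hKi u hu).1
    have hKz : K' ⊆ pkf (B (σ j)) (Ps (σ j)) := fun u hu => (hmemU u (hK' hu) j hj).1 (hKj u hu).1
    have hk : ∀ u ∈ K, ikp (tlo G T hm) (σ j) u ≠ 0 := fun u hu h2 => (hKi u hu).2 (by
      show (ikp (tlo G T hm) (σ j) u : ℤ) = 0
      rw [h2]
      rfl)
    have hk' : ∀ u ∈ K', ikp (tlo G T hm) (σ i) u ≠ 0 := fun u hu h2 => (hKj u hu).2 (by
      show (ikp (tlo G T hm) (σ i) u : ℤ) = 0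
      rw [h2]
      rfl)
    have hwx : w ∈ pkf (B (σ i)) (Ps (σ i)) := (hmemU w hw i hi).1 hwi
    have hw1' : ivl w = 1 := by
      have : (ivl w : ℤ) = 1 := hw1
      exact_mod_cast this
    have hwk' : ikp (tlo G T hm) (σ j) w ≠ 0 := fun h1 => hwk (by
      show (ikp (tlo G T hm) (σ j) w : ℤ) = 0
      rw [h1]
      rfl)
    have h1 := h.cellF hp hpk hmin (hmem i hi) (hmem j hj) (hne i hi j hj hij) hKx hKz hk hk'
      hwx hw1' hwk'
    have e1 : ∑ u ∈ K, (((r : ℤ) - 1) * (ikp (tlo G T hm) (σ j) u : ℤ)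
          + (1 - (ipc u : ℤ)) * tI G Z T hm r Z (σ j)
          - (rmr G (cz G Z T hm) (tlo G T hm) (σ j) u : ℤ)
          - (iar G (cz G Z T hm (host u)) u : ℤ))
        = ∑ u ∈ K, (((r : ℤ) - 1) * (ikp (tlo G T hm) (σ j) u : ℤ)
          + (1 - (ipc u : ℤ)) * tI G Z T hm r Z (σ j)
          - (rmr G (cz G Z T hm) (tlo G T hm) (σ j) u : ℤ)
          - (iar G (cz G Z T hm (σ i)) u : ℤ)) :=
      sum_congr rfl fun u hu => by rw [H.hst _ (hmem i hi) u (hKx hu)]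
    have e2 : ∑ u ∈ K', (((r : ℤ) - 1) * (ikp (tlo G T hm) (σ i) u : ℤ)
          + (1 - (ipc u : ℤ)) * tI G Z T hm r Z (σ i)
          - (rmr G (cz G Z T hm) (tlo G T hm) (σ i) u : ℤ)
          - (iar G (cz G Z T hm (host u)) u : ℤ))
        = ∑ u ∈ K', (((r : ℤ) - 1) * (ikp (tlo G T hm) (σ i) u : ℤ)
          + (1 - (ipc u : ℤ)) * tI G Z T hm r Z (σ i)
          - (rmr G (cz G Z T hm) (tlo G T hm) (σ i) u : ℤ)
          - (iar G (cz G Z T hm (σ j)) u : ℤ)) :=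
      sum_congr rfl fun u hu => by rw [H.hst _ (hmem j hj) u (hKz hu)]
    have hT : ∀ x ∈ T, ∀ u ∈ pkf (B x) (Ps x), ∀ y, ikp (tlo G T hm) y u ≠ 0 →
        ρ y < n ∧ σ (ρ y) = y := by
      intro x hx u hu y hy
      obtain ⟨v, hv, hvy⟩ := ikp_ne_tail (fun Q hQ => (hfam x hx).two Q (hQ ▸ hu)) hy
      have hvH : v ∈ hz G Z T hm x := by
        rcases u with Q | e
        · exact (hfam x hx).sub Q hu hv
        · simp only [imem, mem_singleton] at hv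
          exact hv ▸ (hfam x hx).pcH e hu
      have h5 := mem_of_mem_erase (h.toWHom.ht x hx v hvH)
      rw [hvy] at h5
      exact ⟨by rw [← hcard]; exact H.rk.lt y h5, H.rk.left y h5⟩
    have h2 := Fam.NE_cptT h.F.toPFrame h.hh h.csys h.wsysT hfam (hmem i hi) (hmem j hj)
      (hne i hi j hj hij) hKx hKz hk hk' (I := I.image σ) (mem_image_of_mem σ hiI)
      (mem_image_of_mem σ hjI) (fun u hu y hy => by
        obtain ⟨b1, b2⟩ := hT _ (hmem i hi) u (hKx hu) y hy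
        refine mem_image.2 ⟨ρ y, hIK u hu (ρ y) b1 ?_, b2⟩
        show (ikp (tlo G T hm) (σ (ρ y)) u : ℤ) ≠ 0
        rw [b2]
        exact_mod_cast hy) (fun u hu y hy => by
        obtain ⟨b1, b2⟩ := hT _ (hmem j hj) u (hKz hu) y hy
        refine mem_image.2 ⟨ρ y, hIK' u hu (ρ y) b1 ?_, b2⟩
        show (ikp (tlo G T hm) (σ (ρ y)) u : ℤ) ≠ 0
        rw [b2]
        exact_mod_cast hy) q
    have h3 : (I.image σ).card = I.card := H.rk.card_image (by rw [hcard]; exact hI)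
    rw [h3] at h2
    show 2 * ∑ u ∈ K, (((r : ℤ) - 1) * (ikp (tlo G T hm) (σ j) u : ℤ)
          + (1 - (ipc u : ℤ)) * tI G Z T hm r Z (σ j)
          - (rmr G (cz G Z T hm) (tlo G T hm) (σ j) u : ℤ)
          - (iar G (cz G Z T hm (host u)) u : ℤ))
      + 2 * ∑ u ∈ K', (((r : ℤ) - 1) * (ikp (tlo G T hm) (σ i) u : ℤ)
          + (1 - (ipc u : ℤ)) * tI G Z T hm r Z (σ i)
          - (rmr G (cz G Z T hm) (tlo G T hm) (σ i) u : ℤ)
          - (iar G (cz G Z T hm (host u)) u : ℤ))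
      + 2 * ((nui G (cz G Z T hm (host w)) (tlo G T hm) (B (host w)) (σ j) w : ℤ)
        * max 0 ((nui G (cz G Z T hm (host w)) (tlo G T hm) (B (host w)) (σ j) w : ℤ)
          + (ipc w : ℤ) - ∑ u ∈ K', (ipc u : ℤ))) ≤ _
    rw [e1, e2, H.hst _ (hmem i hi) w hwx]
    linarith
  · -- rows
    intro i hi K hK hKh h0
    have h1 := h.toWHom.row_sameI hpk hmin H.hst H.rk hi hK hKh h0
    have e1 : ((r : ℤ) - 1) = (r : ℤ) - 1 := rfl
    exact h1
  · -- rowp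
    intro i hi j hj hij K hK hKh h0
    have h1 := h.rowc_samePay hp hpk hmin H.hst H.rk hi hj hij hK hKh h0
    have e1 : ∀ x : ℕ, (K.filter fun u => ρ (host u) = x
        ∧ (ikp (tlo G T hm) (σ i) u : ℤ) = (ivl u : ℤ) ∧ (x = j → (ipc u : ℤ) = 0))
        = K.filter fun u => ρ (host u) = x
        ∧ (ikp (tlo G T hm) (σ i) u : ℤ) = (ivl u : ℤ) ∧ (x = j → ipc u = 0) := by
      intro x
      refine filter_congr fun u _ => ?_
      rw [Int.natCast_eq_zero]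
    rw [(H.pk _ (hmem i hi)).nxk_zero (σ j), zero_add] at h1
    simp only [e1]
    exact h1
  · -- rowr
    intro i hi j hj hij K hK hKh h0 w hw
    have hK' : K ⊆ (T.erase (σ i)).biUnion fun x => pkf (B x) (Ps x) := by
      intro u hu
      obtain ⟨x, hx, hux⟩ := mem_biUnion.1 (hK hu)
      refine mem_biUnion.2 ⟨x, mem_erase.2 ⟨fun h1 => hKh u hu ?_, hx⟩, hux⟩
      show ρ (host u) = i
      rw [H.hst x hx u hux, h1]
      exact H.rk.right i (by rw [hcard]; exact hi)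
    obtain ⟨x', hx', hwx⟩ := mem_biUnion.1 hw
    have h1 := h.toWHom.rowc_sameI hpk hmin H.hst H.rk hi hj hij hK hKh h0
      (h.rowN_item hpk (hmem i hi) (hmem j hj) (hne i hi j hj hij) hK' hx' hwx)
    have e1 : ∀ x : ℕ, (K.filter fun u => ρ (host u) = x
        ∧ (ikp (tlo G T hm) (σ i) u : ℤ) = (ivl u : ℤ) ∧ (x = j → (ipc u : ℤ) = 0))
        = K.filter fun u => ρ (host u) = x
        ∧ (ikp (tlo G T hm) (σ i) u : ℤ) = (ivl u : ℤ) ∧ (x = j → ipc u = 0) := by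
      intro x
      refine filter_congr fun u _ => ?_
      rw [Int.natCast_eq_zero]
    have e2 : ∑ u ∈ K, (if ρ (host u) = j then (ipc u : ℤ) * (ikp (tlo G T hm) (σ i) u : ℤ) else 0)
        = ∑ u ∈ K, (if u ∈ pkf (B (σ j)) (Ps (σ j)) then
          (ipc u : ℤ) * (ikp (tlo G T hm) (σ i) u : ℤ) else 0) := by
      refine sum_congr rfl fun u hu => ?_
      by_cases h2 : ρ (host u) = j
      · rw [if_pos h2, if_pos ((hmemU u (hK hu) j hj).1 h2)]
      · rw [if_neg h2, if_neg fun h3 => h2 ((hmemU u (hK hu) j hj).2 h3)]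
    rw [← e2] at h1
    simp only [e1]
    exact h1
  · -- rowf
    intro i hi j hj hij K hK hKh h0 w hw hwj hw1 hwk
    have hK' : K ⊆ (T.erase (σ i)).biUnion fun x => pkf (B x) (Ps x) := by
      intro u hu
      obtain ⟨x, hx, hux⟩ := mem_biUnion.1 (hK hu)
      refine mem_biUnion.2 ⟨x, mem_erase.2 ⟨fun h1 => hKh u hu ?_, hx⟩, hux⟩
      show ρ (host u) = i
      rw [H.hst x hx u hux, h1]
      exact H.rk.right i (by rw [hcard]; exact hi)
    have hwx : w ∈ pkf (B (σ j)) (Ps (σ j)) := (hmemU w hw j hj).1 hwj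
    have hw1' : ivl w = 1 := by
      have : (ivl w : ℤ) = 1 := hw1
      exact_mod_cast this
    have hwk' : ikp (tlo G T hm) (σ i) w ≠ 0 := fun h1 => hwk (by
      show (ikp (tlo G T hm) (σ i) w : ℤ) = 0
      rw [h1]
      rfl)
    have h1 := h.toWHom.rowc_sameI hpk hmin H.hst H.rk hi hj hij hK hKh h0
      (h.rowN_ntype hp hpk hmin (hmem i hi) (hmem j hj) (hne i hi j hj hij) hK' hwx hw1' hwk')
    have e1 : ∀ x : ℕ, (K.filter fun u => ρ (host u) = x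
        ∧ (ikp (tlo G T hm) (σ i) u : ℤ) = (ivl u : ℤ) ∧ (x = j → (ipc u : ℤ) = 0))
        = K.filter fun u => ρ (host u) = x
        ∧ (ikp (tlo G T hm) (σ i) u : ℤ) = (ivl u : ℤ) ∧ (x = j → ipc u = 0) := by
      intro x
      refine filter_congr fun u _ => ?_
      rw [Int.natCast_eq_zero]
    simp only [e1]
    rw [H.hst _ (hmem j hj) w hwx]
    exact h1
  · -- row3
    intro i hi K hK hKi K3 hK3 y hy h0
    have hK' : K ⊆ (T.erase (σ i)).biUnion fun x => pkf (B x) (Ps x) := by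
      intro u hu
      obtain ⟨x, hx, hux⟩ := mem_biUnion.1 (hK hu)
      refine mem_biUnion.2 ⟨x, mem_erase.2 ⟨fun h1 => (hKi u hu).1 ?_, hx⟩, hux⟩
      show ρ (host u) = i
      rw [H.hst x hx u hux, h1]
      exact H.rk.right i (by rw [hcard]; exact hi)
    have hσ : ∀ a < n, ∀ b < n, (σ a = σ b ↔ a = b) := fun a ha b hb =>
      ⟨fun h1 => H.rk.sinj (by rw [hcard]; exact ha) (by rw [hcard]; exact hb) h1,
        fun h1 => by rw [h1]⟩
    have h1 := Fam.row3I h.gp.P h.csys h.wsysT hfam (hmem i hi) hK' (fun u hu h2 =>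
      (hKi u hu).2 (by
        show (ikp (tlo G T hm) (σ i) u : ℤ) = 0
        rw [h2]
        rfl)) hK3 (y := fun u => σ (y u)) (fun u hu => by
      obtain ⟨a1, a2, -⟩ := hy u hu
      exact mem_erase.2 ⟨fun h2 => a2 ((hσ _ a1 _ hi).1 h2), hmem _ a1⟩) (fun u hu => by
      obtain ⟨a1, a2, a3⟩ := hy u hu
      have b1 : K3.filter (fun v => σ (y v) = σ (y u)) = K3.filter fun v => y v = y u := by
        ext v
        rw [mem_filter, mem_filter]
        constructor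
        · rintro ⟨b2, b3⟩
          exact ⟨b2, (hσ _ (hy v b2).1 _ a1).1 b3⟩
        · rintro ⟨b2, b3⟩
          exact ⟨b2, by rw [b3]⟩
      have b2 : K.filter (fun v => v ∈ pkf (B (σ (y u))) (Ps (σ (y u))))
          = K.filter fun v => ρ (host v) = y u := by
        ext v
        rw [mem_filter, mem_filter]
        constructor
        · rintro ⟨b2, b3⟩
          exact ⟨b2, (hmemU v (hK b2) _ a1).2 b3⟩
        · rintro ⟨b2, b3⟩
          exact ⟨b2, (hmemU v (hK b2) _ a1).1 b3⟩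
      show (K3.filter (fun v => σ (y v) = σ (y u))).card
        + ∑ v ∈ K.filter (fun v => v ∈ pkf (B (σ (y u))) (Ps (σ (y u)))), ipc v
        ≤ ims G (cz G Z T hm) (tlo G T hm) (σ (y u)) u
      rw [b1, b2]
      have b3 : ((K3.filter fun v => y v = y u).card : ℤ)
        + ∑ v ∈ K.filter (fun v => ρ (host v) = y u), (ipc v : ℤ)
        ≤ (ims G (cz G Z T hm) (tlo G T hm) (σ (y u)) u : ℤ) := a3
      exact_mod_cast b3) h0
    have d1 : ∀ f : Itm V → ℤ, ∑ u ∈ K \ K3, f u = ∑ u ∈ K, f u - ∑ u ∈ K3, f u :=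
      fun f => sum_sdiff_eq_sub hK3
    have d2 : ∑ u ∈ K3, ((ivl u : ℤ) + 2 - 2 * (ikp (tlo G T hm) (σ i) u : ℤ))
        = ∑ u ∈ K3, ((ivl u : ℤ) + 2) - ∑ u ∈ K3, 2 * (ikp (tlo G T hm) (σ i) u : ℤ) :=
      sum_sub_distrib _ _
    have d3 : ∑ u ∈ K, ((ikp (tlo G T hm) (σ i) u : ℤ) * ((r : ℤ) - 1 - tI G Z T hm r Z (σ i))
          - (rmr G (cz G Z T hm) (tlo G T hm) (σ i) u : ℤ))
        = ∑ u ∈ K, (ikp (tlo G T hm) (σ i) u : ℤ) * ((r : ℤ) - 1 - tI G Z T hm r Z (σ i))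
          - ∑ u ∈ K, (rmr G (cz G Z T hm) (tlo G T hm) (σ i) u : ℤ) := sum_sub_distrib _ _
    have d4 := d1 fun u => 2 * (ikp (tlo G T hm) (σ i) u : ℤ)
    have d5 := d1 fun u => (rmr G (cz G Z T hm) (tlo G T hm) (σ i) u : ℤ)
    rw [d4] at h1
    have h2 : 2 * (((r : ℤ) - 1) * sI hm r Z (σ i))
      + 2 * (∑ u ∈ K, (ikp (tlo G T hm) (σ i) u : ℤ) * ((r : ℤ) - 1 - tI G Z T hm r Z (σ i))
          - ∑ u ∈ K \ K3, (rmr G (cz G Z T hm) (tlo G T hm) (σ i) u : ℤ)) ≤ _ := h1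
    rw [d5] at h2
    show 2 * (((r : ℤ) - 1) * sI hm r Z (σ i))
      + 2 * (∑ u ∈ K, ((ikp (tlo G T hm) (σ i) u : ℤ) * ((r : ℤ) - 1 - tI G Z T hm r Z (σ i))
          - (rmr G (cz G Z T hm) (tlo G T hm) (σ i) u : ℤ))
        + ∑ u ∈ K3, (rmr G (cz G Z T hm) (tlo G T hm) (σ i) u : ℤ))
      ≤ 2 * eI G hm Z (σ i)
        + 2 * (∑ u ∈ K, 2 * (ikp (tlo G T hm) (σ i) u : ℤ)
          + ∑ u ∈ K3, ((ivl u : ℤ) + 2 - 2 * (ikp (tlo G T hm) (σ i) u : ℤ)))
          * (sI hm r Z (σ i) + 1)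
        + (∑ u ∈ K, 2 * (ikp (tlo G T hm) (σ i) u : ℤ)
          + ∑ u ∈ K3, ((ivl u : ℤ) + 2 - 2 * (ikp (tlo G T hm) (σ i) u : ℤ)))
          * (∑ u ∈ K, 2 * (ikp (tlo G T hm) (σ i) u : ℤ)
          + ∑ u ∈ K3, ((ivl u : ℤ) + 2 - 2 * (ikp (tlo G T hm) (σ i) u : ℤ)) - 1)
    rw [d2, d3]
    have d6 : ∑ u ∈ K, 2 * (ikp (tlo G T hm) (σ i) u : ℤ)
          + (∑ u ∈ K3, ((ivl u : ℤ) + 2) - ∑ u ∈ K3, 2 * (ikp (tlo G T hm) (σ i) u : ℤ))
        = ∑ u ∈ K, 2 * (ikp (tlo G T hm) (σ i) u : ℤ) - ∑ u ∈ K3, 2 * (ikp (tlo G T hm) (σ i) u : ℤ)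
          + ∑ u ∈ K3, ((ivl u : ℤ) + 2) := by ring
    rw [d6]
    linarith
  · -- tstT
    exact fun D hD K hK hKh hpc I hI hIt q =>
      h.toWHom.tstT hpk H.hst H.rk hD hK hKh hpc hI hIt q
  · -- tzN
    intro i hi K hK hKh h0
    have hx := hmem i hi
    refine h.tzlM hp hpk hx (hmin _ hx) (fun u hu => ?_) h0
    obtain ⟨x, hxT, hux⟩ := mem_biUnion.1 (hK hu)
    refine mem_biUnion.2 ⟨x, mem_erase.2 ⟨fun h1 => hKh u hu ?_, hxT⟩, hux⟩
    show ρ (host u) = i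
    rw [H.hst x hxT u hux, h1]
    exact H.rk.right i (by rw [hcard]; exact hi)
  · -- slk
    intro i hi K hK hKh h0
    have hx := hmem i hi
    refine h.slkM hp hpk hx (hmin _ hx) (fun u hu => ?_) h0
    obtain ⟨x, hxT, hux⟩ := mem_biUnion.1 (hK hu)
    refine mem_biUnion.2 ⟨x, mem_erase.2 ⟨fun h1 => hKh u hu ?_, hxT⟩, hux⟩
    show ρ (host u) = i
    rw [H.hst x hxT u hux, h1]
    exact H.rk.right i (by rw [hcard]; exact hi)
  · -- jsub
    intro i hi j hj hij k hk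
    refine h.jnSub hp (hmem i hi) (hmem j hj) (hne i hi j hj hij) (hpk _ (hmem i hi))
      (hpk _ (hmem j hj)) ?_
    have h1 : (k : ℤ) ≤ ((pcs (tlo G T hm) (B (σ i)) (σ j)).card : ℤ)
        + ((pcs (tlo G T hm) (B (σ j)) (σ i)).card : ℤ) := hk
    exact_mod_cast h1
  · -- lowD
    obtain ⟨hL, hus, hfa, had⟩ := h.itlU hp hpk H.hst H.rk
    refine ⟨fun i => ((usd B (σ i)).card : ℤ), fun i hi => ⟨Nat.cast_nonneg _, hus i hi⟩, ?_⟩
    intro Bs hBs hB1 D hD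
    have h1 := hL.lowD Bs hBs hB1 D hD
    have hlt : ∀ i ∈ D, i < n := fun i hi => mem_range.1 (hBs (hD hi))
    have hnz : ∀ i < n, ∀ y : V,
        nez G (cz G Z T hm (σ i)) (hz G Z T hm (σ i)) (tlo G T hm) (B (σ i)) y = ∅ := by
      intro i hi y
      unfold nez
      rw [(H.pk _ (hmem i hi)).frC_zero, filter_empty]
    have h2 : ∀ i ∈ D, ∀ j ∈ range n \ Bs, faN G Z T hm (usd B) (σ i) (σ j)
        ≤ ∑ u ∈ (T.biUnion fun x => pkf (B x) (Ps x)).filter (fun u => ρ (host u) = i),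
          (nui G (cz G Z T hm (host u)) (tlo G T hm) (B (host u)) (σ j) u : ℤ) := by
      intro i hi j hj
      have hjn := mem_range.1 (mem_sdiff.1 hj).1
      have h4 := hfa i (hlt i hi) j hjn
      rw [hnz i (hlt i hi), sum_empty, add_zero] at h4
      rw [hnuc i (hlt i hi) j hjn]
      exact h4
    have h3 : ∀ i ∈ D, ∀ j ∈ Bs.erase i, adN G Z T hm B (usd B) (σ i) (σ j)
        ≤ pcn (tlo G T hm) B (σ i) (σ j) * (pcn (tlo G T hm) B (σ i) (σ j) - 1)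
          + 2 * pcn (tlo G T hm) B (σ i) (σ j) * pcn (tlo G T hm) B (σ j) (σ i) := by
      intro i hi j hj
      have hjn := mem_range.1 (hBs (mem_of_mem_erase hj))
      refine had i (hlt i hi) j hjn _ ?_
      rw [hnz i (hlt i hi), card_empty]
      simp
    have h4 : ∑ i ∈ D, (((r : ℤ) - 1 - tI G Z T hm r Z (σ i) - ((usd B (σ i)).card : ℤ))
          * (∑ j ∈ Bs.erase i, ∑ u ∈ (T.biUnion fun x => pkf (B x) (Ps x)).filter
              (fun u => ρ (host u) = j), (ikp (tlo G T hm) (σ i) u : ℤ)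
            - ((Bs.card : ℤ) - 1 + ∑ j ∈ Bs.erase i, sI hm r Z (σ j)))
        - ∑ j ∈ Bs.erase i, ∑ u ∈ (T.biUnion fun x => pkf (B x) (Ps x)).filter
              (fun u => ρ (host u) = j), (ims G (cz G Z T hm) (tlo G T hm) (σ i) u : ℤ)
        - ∑ j ∈ range n \ Bs, ∑ u ∈ (T.biUnion fun x => pkf (B x) (Ps x)).filter
            (fun u => ρ (host u) = i),
            (nui G (cz G Z T hm (host u)) (tlo G T hm) (B (host u)) (σ j) u : ℤ))
        ≤ ∑ i ∈ D, (((r : ℤ) - 1 - tI G Z T hm r Z (σ i) - ((usd B (σ i)).card : ℤ))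
          * (∑ j ∈ Bs.erase i, ∑ u ∈ (T.biUnion fun x => pkf (B x) (Ps x)).filter
              (fun u => ρ (host u) = j), (ikp (tlo G T hm) (σ i) u : ℤ)
            - ((Bs.card : ℤ) - 1 + ∑ j ∈ Bs.erase i, sI hm r Z (σ j)))
        - ∑ j ∈ Bs.erase i, ∑ u ∈ (T.biUnion fun x => pkf (B x) (Ps x)).filter
              (fun u => ρ (host u) = j), (ims G (cz G Z T hm) (tlo G T hm) (σ i) u : ℤ)
        - ∑ j ∈ range n \ Bs, faN G Z T hm (usd B) (σ i) (σ j)) := by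
      refine sum_le_sum fun i hi => ?_
      have := sum_le_sum (h2 i hi)
      linarith
    have h5 := sum_le_sum fun i (hi : i ∈ D) => sum_le_sum (h3 i hi)
    have h6 : ((Bs.card : ℤ) - 1) * (2 * (((r : ℤ) - 1) + 1 - Bs.card) * ∑ i ∈ Bs, sI hm r Z (σ i)
        + ∑ i ∈ Bs, ∑ j ∈ Bs.erase i, EI G hm Z (σ i) (σ j) + ∑ i ∈ Bs, sI hm r Z (σ i) ^ 2)
      + 2 * ∑ i ∈ D, (((r : ℤ) - 1 - tI G Z T hm r Z (σ i) - ((usd B (σ i)).card : ℤ))
          * (∑ j ∈ Bs.erase i, ∑ u ∈ (T.biUnion fun x => pkf (B x) (Ps x)).filter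
              (fun u => ρ (host u) = j), (ikp (tlo G T hm) (σ i) u : ℤ)
            - ((Bs.card : ℤ) - 1 + ∑ j ∈ Bs.erase i, sI hm r Z (σ j)))
        - ∑ j ∈ Bs.erase i, ∑ u ∈ (T.biUnion fun x => pkf (B x) (Ps x)).filter
              (fun u => ρ (host u) = j), (ims G (cz G Z T hm) (tlo G T hm) (σ i) u : ℤ)
        - ∑ j ∈ range n \ Bs, faN G Z T hm (usd B) (σ i) (σ j))
      ≤ ((Bs.card : ℤ) - 1) * (2 * ∑ i ∈ Bs, eI G hm Z (σ i)
          + Bs.card * (Bs.card - 1) * (((r : ℤ) - 1) + 1)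
        + (∑ i ∈ Bs, sI hm r Z (σ i)) ^ 2)
        + ∑ i ∈ D, ∑ j ∈ Bs.erase i, adN G Z T hm B (usd B) (σ i) (σ j) := h1
    show ((Bs.card : ℤ) - 1) * (2 * (((r : ℤ) - 1) + 1 - Bs.card) * ∑ i ∈ Bs, sI hm r Z (σ i)
        + ∑ i ∈ Bs, ∑ j ∈ Bs.erase i, EI G hm Z (σ i) (σ j) + ∑ i ∈ Bs, sI hm r Z (σ i) ^ 2)
      + 2 * _ ≤ _ + _
    linarith

end TransC

end Pool.Agent.Lib.MP_f04ccf_co
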