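import Mathlib

/-!
MP_f04ccf_co, TEXT D, **THE CONTRACT BETWEEN THE FIELDS AND THE PURE ROW LEMMAS** (STATE 11, note 17814).

Letters: `R`, rows `i < n`, `A i = t i + 1`, `∑ A ≤ R`, items `u ∈ U` of host `ho u` and value `vl u`,
`kp i u` pieces at the row `i`, `mn i u` misses, `pc u = 1` for PC pairs (one end, no misses), `be i j` PC
pairs of host `i` and tail `j`, `kq i j` those of them which leave free (Konig, 59), the other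
`be i j - kq i j` are the block pairs, `ar u` arcs of the members of `u` to their own class, `NN i j` the
excess of the PC pairs of host `i` and tail `j`.

**p-form**: a row `z` uses the items of `K` at the levels `g` (`1 ≤ g u ≤ kp z u`, `k = ∑ g` pieces,
`w = ∑ (g + 1)` points, `B` the misses: `mn z u` at full level, nothing below it) and keeps all hosted items
but the plain items of `D` (price `vl + 1` points each), the Konig pairs of the tails in `X` (one point each)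
and, for the tails `l ∈ Y ⊆ X`, the block pairs (one point each, the arcs of the single parts with tail `l`
(`sg z l` of them) and of the kept plain items with an end `l` to the `be z l - kq z l` class points are
paid); `p = s + k`, `W = mu + w`.

* `PCon`: everything the pure side may use; `PCon.tN` (tzN), `PCon.tK` (tzN after Konig pairs and plain items
  left), `PCon.tTg`, `PCon.tT` (exact row test, any saving `SvT`, 23's saving), `PCon.tPg`, `PCon.tP` (row test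
  with the columns of `j`, PC pairs of the cell joint, rowG), `PCon.tXg`, `PCon.tPX` (the same with the rectangle
  of an item of value one, PC pairs of the cell not joint), `PCon.cap`, `PCon.capM` (K2 of a cell);
* `PCon.false_of_table`: **the closing**: pieces `g i u`, complements `co i u` of the shares
  (`∑_i co i u ≤ ∑_i g i u`), `s z + ∑_u g z u ≤ ∑_u co z u + δ z`, `∑ δ < 1`.
-/

set_option autoImplicit false

namespace Pool.Agent.Lib.MP_f04ccf_co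

open Finset

attribute [local instance] Classical.propDecidable

section PConS

variable {ι : Type*}

/-- **a test in p-form** (slope `R - c`, `c = 0` or `c = R - t_j`): `k` pieces, `w` points, `B` misses,
`m` the kept hosted value, `q` the points which left, `SA` the hits of the kept hosted items in the columns,
`sv` a saving, `N` the excess, `co` further costs -/
def TstP (R c A s k w B m q SA sv N co : ℤ) : Prop :=
  2 * ((R - c - (m + w)) * (s - q + k))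
    ≤ 2 * (A * (m + k) + B) - 2 * (c * (k - 1)) - 2 * SA - (m + 2 * k - w) * (m + w + 1) - sv + N + co

/-- 23's saving: the used items of one host which are used with their whole value -/
def svP (n : ℕ) (ho : ι → ℕ) (vl : ι → ℤ) (K : Finset ι) (g : ι → ℕ) : ℤ :=
  ∑ x ∈ range n, ((K.filter fun u => ho u = x ∧ (g u : ℤ) = vl u).card : ℤ)
    * (((K.filter fun u => ho u = x ∧ (g u : ℤ) = vl u).card : ℤ) - 1)

/-- misses charged at level `g` -/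
def msP (kp mn : ℕ → ι → ℤ) (z : ℕ) (g : ι → ℕ) (u : ι) : ℤ :=
  if kp z u ≤ (g u : ℤ) then mn z u else 0

/-- **a saving of a row test** (used items `K`): 23's saving, or classes `cl u` of the used items with Turan's bound
(the rows of a class with `q ≠ 0` are in `I`) and one ordered pair for two items of one host and of different
classes which are used with their whole value -/
def SvT (n : ℕ) (ho : ι → ℕ) (vl : ι → ℤ) (kp : ℕ → ι → ℤ) (g : ι → ℕ) (K : Finset ι) (sv : ℤ) : Prop :=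
  sv ≤ svP n ho vl K g
  ∨ ∃ (cl : ι → ℕ) (M : ℕ) (q : ℕ → ℤ) (I : ℕ → Finset ℕ), (∀ c, I c ⊆ range n) ∧
    (∀ u ∈ K, q (cl u) ≠ 0 → ho u ∈ I (cl u) ∧ ∀ l < n, kp l u ≠ 0 → l ∈ I (cl u)) ∧
    sv ≤ ∑ c ∈ range M, (2 * q c * ∑ u ∈ K.filter (fun u => cl u = c), ((g u : ℤ) + 1)
          - (I c).card * (q c * (q c + 1)))
        + ((K ×ˢ K).filter fun e => e.1 ≠ e.2 ∧ ho e.1 = ho e.2 ∧ cl e.1 ≠ cl e.2
          ∧ (g e.1 : ℤ) = vl e.1 ∧ (g e.2 : ℤ) = vl e.2).card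

/-- the number of the kept hosted full items of `z` with the end `l` -/
noncomputable def fulP (n : ℕ) (U : Finset ι) (ho : ι → ℕ) (kp : ℕ → ι → ℤ) (pc : ι → ℤ) (z : ℕ) (D : Finset ι)
    (l : ℕ) : ℤ :=
  ((U.filter fun u => ho u = z ∧ u ∉ D ∧ pc u = 0 ∧ ∀ l' < n, l' ≠ l → kp l' u = 0).card : ℤ)

/-- **the excess of a row test**: the Konig pairs of the tails `X`, the block pairs of the tails `Y ⊆ X` and the
plain items `D` leave; `S` the tails which are counted; minus 35's hosted gain -/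
noncomputable def NP (n : ℕ) (U : Finset ι) (ho : ι → ℕ) (kp : ℕ → ι → ℤ) (pc : ι → ℤ)
    (be kq NN sg : ℕ → ℕ → ℤ) (z : ℕ) (S X Y : Finset ℕ) (D : Finset ι) : ℤ :=
  ∑ l ∈ X \ Y, (be z l - kq z l) * (be z l - kq z l + 1) + ∑ l ∈ S \ X, NN z l
    + 2 * ∑ l ∈ Y, (be z l - kq z l) * (sg z l
      + ((U.filter fun u => ho u = z ∧ u ∉ D ∧ pc u = 0 ∧ kp l u ≠ 0).card : ℤ))
    - ∑ l ∈ range n, fulP n U ho kp pc z D l * (fulP n U ho kp pc z D l - 1)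

/-- savings in the cell tests: Turan (`I` the rows of all ends), or the pairs of one host used with their whole
value -/
def SvC (n : ℕ) (vl : ι → ℤ) (kp : ℕ → ι → ℤ) (pc : ι → ℤ) (i j : ℕ) (g g' : ι → ℕ)
    (K K' : Finset ι) (sv : ℤ) : Prop :=
  sv ≤ 0
  ∨ (∃ I ⊆ range n, i ∈ I ∧ j ∈ I ∧ (∀ u ∈ K, ∀ l < n, kp l u ≠ 0 → l ∈ I) ∧
      (∀ u ∈ K', ∀ l < n, kp l u ≠ 0 → l ∈ I) ∧ ∃ q : ℤ,
        sv ≤ 2 * q * (∑ u ∈ K, ((g u : ℤ) + 1 - pc u) + ∑ u ∈ K', ((g' u : ℤ) + 1 - pc u))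
          - I.card * (q * (q + 1)))
  ∨ sv ≤ ((K.filter fun u => (g u : ℤ) = vl u ∧ pc u = 0).card : ℤ)
        * ((K.filter fun u => (g u : ℤ) = vl u ∧ pc u = 0).card - 1)
      + ((K'.filter fun u => (g' u : ℤ) = vl u ∧ pc u = 0).card : ℤ)
        * ((K'.filter fun u => (g' u : ℤ) = vl u ∧ pc u = 0).card - 1)

/-- the rectangle `EX` of an item of value one (any host, misses at both rows) in the cell `{i, j}` -/
def RcC (U : Finset ι) (vl : ι → ℤ) (mn : ℕ → ι → ℤ) (i j : ℕ) (p q EX : ℤ) : Prop :=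
  EX ≤ 0 ∨ ∃ w ∈ U, vl w = 1 ∧ EX ≤ max 0 (mn i w - p) * max 0 (mn j w - q)

/-- **all facts for the pure row lemmas** -/
structure PCon (R : ℤ) (n : ℕ) (t s mu : ℕ → ℤ) (U : Finset ι) (ho : ι → ℕ) (vl : ι → ℤ)
    (kp mn : ℕ → ι → ℤ) (pc ar : ι → ℤ) (be kq NN sg : ℕ → ℕ → ℤ) (nu : ℕ → ι → ℤ) : Prop where
  /- the rows -/
  n5 : 5 ≤ n
  anti : ∀ i j, i ≤ j → j < n → t j ≤ t i
  t0 : ∀ i < n, 0 ≤ t i
  tsum : ∑ i ∈ range n, (t i + 1) ≤ R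
  ss : ∑ i ∈ range n, s i = 1
  hmu : ∀ i < n, mu i = ∑ u ∈ U.filter (fun u => ho u = i), vl u
  dt : ∀ i < n, mu i - s i - 1 ≤ t i
  mup : ∀ i < n, 0 ≤ s i → 1 ≤ mu i
  /- the items -/
  hlt : ∀ u ∈ U, ho u < n
  v1 : ∀ u ∈ U, 1 ≤ vl u
  k0 : ∀ u ∈ U, ∀ i < n, 0 ≤ kp i u
  kh : ∀ u ∈ U, kp (ho u) u = 0
  kv : ∀ u ∈ U, ∀ i < n, kp i u ≤ vl u
  k2 : ∀ u ∈ U, ∀ i < n, kp i u ≤ 2
  k21 : ∀ u ∈ U, ∀ i < n, ∀ j < n, i ≠ j → kp i u = 2 → kp j u ≤ 1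
  one : ∀ u ∈ U, (∃ i < n, kp i u = 1 ∧ vl u = 1 ∧ mn i u = 0 ∧ ∀ j < n, j ≠ i → kp j u = 0) ∨
    (pc u = 0 ∧ ∑ i ∈ range n, kp i u = vl u + 1)
  m0 : ∀ u ∈ U, ∀ i < n, 0 ≤ mn i u
  mnc : ∀ u ∈ U, ∀ i < n, mn i u ≤ R - t i
  mnk : ∀ u ∈ U, ∀ i < n, mn i u ≤ kp i u * (R - t i)
  mnz : ∀ u ∈ U, ∀ i < n, kp i u = 0 → mn i u = 0
  mpr : ∀ u ∈ U, ∀ i < n, ∀ j < n, i ≠ j → mn i u * mn j u ≤ R + t i * t j
  m1 : ∀ u ∈ U, vl u = 1 → ∑ i ∈ range n, mn i u ≤ R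
  pc01 : ∀ u ∈ U, pc u = 0 ∨ pc u = 1
  pcv : ∀ u ∈ U, pc u ≠ 0 → vl u = 1
  pcb : ∀ i < n, ∀ j < n, ∑ u ∈ U.filter (fun u => ho u = i), pc u * kp j u = be i j
  /- the PC pairs -/
  be0 : ∀ i < n, ∀ j < n, 0 ≤ be i j
  kq0 : ∀ i < n, ∀ j < n, 0 ≤ kq i j
  kqb : ∀ i < n, ∀ j < n, kq i j ≤ be i j
  sg0 : ∀ i < n, ∀ j < n, 0 ≤ sg i j
  sgs : ∀ i < n, ∑ l ∈ (range n).erase i, sg i l
    + ((U.filter fun u => ho u = i ∧ pc u = 0).card : ℤ) ≤ t i + 1 - (mu i - s i)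
  nn0 : ∀ i < n, ∀ j < n, 0 ≤ NN i j
  nnz : ∀ i < n, ∀ j < n, be i j = 0 → NN i j = 0
  nnb : ∀ i < n, ∀ j < n, NN i j ≤ be i j * (be i j + 1)
    + 2 * ∑ u ∈ U.filter (fun u => ho u = i), nu j u
  nu0 : ∀ u ∈ U, ∀ j < n, 0 ≤ nu j u
  nup : ∀ u ∈ U, pc u = 0 → ∀ j < n, nu j u = 0
  nuz : ∀ u ∈ U, ∀ j < n, kp j u = 0 → nu j u = 0
  nuq : ∀ u ∈ U, vl u = 1 → ∀ j < n, kp j u ≠ 0 →
    (nu j u + pc u) * (nu j u + pc u - 2) ≤ t (ho u) * t j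
  jsub : ∀ i < n, ∀ j < n, i ≠ j → ∀ m : ℕ, (m : ℤ) ≤ be i j + be j i →
    ((m : ℤ) - 1) * R ≤ t i * t j + (m : ℤ) ^ 2
  jntp : ∀ u ∈ U, pc u = 1 → ∀ j < n, kp j u ≠ 0 →
    (be (ho u) j - 1) * R + (max 0 (nu j u + 1 - be (ho u) j)) ^ 2
      ≤ t (ho u) * t j + be (ho u) j ^ 2
  ar0 : ∀ u ∈ U, 0 ≤ ar u
  arU : ∀ u ∈ U, ar u ≤ pc u + ∑ j ∈ (range n).erase (ho u), (nu j u
    + if kp j u = 0 then 0 else be (ho u) j - pc u)
  /- the caps of the cells (K2 at levels, 15; with the PC pairs of both homes joint, 72) -/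
  cap : ∀ i < n, ∀ j < n, i ≠ j → ∀ K ⊆ U, (∀ u ∈ K, ho u = i) → ∀ K' ⊆ U,
    (∀ u ∈ K', ho u = j) → ∀ g g' : ι → ℕ, (∀ u ∈ K, 1 ≤ g u) →
    (∀ u ∈ K, (g u : ℤ) ≤ kp j u) → (∀ u ∈ K', 1 ≤ g' u) → (∀ u ∈ K', (g' u : ℤ) ≤ kp i u) →
    ∀ EX : ℤ, RcC U vl mn i j (∑ u ∈ K, pc u) (∑ u ∈ K', pc u) EX →
    ∀ sv : ℤ, SvC n vl kp pc i j g g' K K' sv →
    2 * ∑ u ∈ K, (R * g u + (1 - pc u) * t j - msP kp mn j g u - ar u)
      + 2 * ∑ u ∈ K', (R * g' u + (1 - pc u) * t i - msP kp mn i g' u - ar u)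
      + 2 * EX + sv
      ≤ 2 * (R + t i * t j)
        + (∑ u ∈ K, ((g u : ℤ) + 1 - pc u) + ∑ u ∈ K', ((g' u : ℤ) + 1 - pc u))
          * (∑ u ∈ K, ((g u : ℤ) + 1 - pc u) + ∑ u ∈ K', ((g' u : ℤ) + 1 - pc u) - 1)
        + 2 * (∑ u ∈ K, pc u) * ∑ u ∈ K', pc u
  capM : ∀ i < n, ∀ j < n, i ≠ j →
    ∀ K ⊆ U, (∀ u ∈ K, ho u = i ∧ pc u = 0) → ∀ K' ⊆ U, (∀ u ∈ K', ho u = j ∧ pc u = 0) →
    ∀ g g' : ι → ℕ, (∀ u ∈ K, 1 ≤ g u) →
    (∀ u ∈ K, (g u : ℤ) ≤ kp j u) → (∀ u ∈ K', 1 ≤ g' u) → (∀ u ∈ K', (g' u : ℤ) ≤ kp i u) →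
    ∀ sv : ℤ, SvC n vl kp pc i j g g' K K' sv →
    2 * ((be i j + be j i - 1) * R)
      + 2 * ∑ u ∈ K, (R * g u + t j - msP kp mn j g u
        - ∑ l ∈ ((range n).erase i).erase j, kp l u * be i l)
      + 2 * ∑ u ∈ K', (R * g' u + t i - msP kp mn i g' u
        - ∑ l ∈ ((range n).erase i).erase j, kp l u * be j l)
      + sv
      ≤ 2 * (t i * t j) + 2 * (be i j + be j i) ^ 2
        + 2 * (be i j + be j i) * (∑ u ∈ K, ((g u : ℤ) + 1) + ∑ u ∈ K', ((g' u : ℤ) + 1))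
        + (∑ u ∈ K, ((g u : ℤ) + 1) + ∑ u ∈ K', ((g' u : ℤ) + 1))
          * (∑ u ∈ K, ((g u : ℤ) + 1) + ∑ u ∈ K', ((g' u : ℤ) + 1) - 1)
  /- tzN -/
  tN : ∀ z < n, ∀ K ⊆ U, (∀ u ∈ K, ho u ≠ z) → ∀ g : ι → ℕ, (∀ u ∈ K, 1 ≤ g u) →
    (∀ u ∈ K, (g u : ℤ) ≤ kp z u) → 2 * (mu z + ∑ u ∈ K, (g u : ℤ)) ≤ R →
    (R - 2 * (mu z + ∑ u ∈ K, (g u : ℤ))) * (s z + ∑ u ∈ K, (g u : ℤ))
      ≤ (t z + 1) * (mu z + ∑ u ∈ K, (g u : ℤ)) + ∑ u ∈ K, msP kp mn z g u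
  /- tzN, some Konig pairs (`q`) and plain items (`D`) of the host left -/
  tK : ∀ z < n, ∀ q : ℤ, 0 ≤ q → q ≤ ∑ l ∈ range n, kq z l →
    ∀ D ⊆ U, (∀ u ∈ D, ho u = z ∧ pc u = 0) →
    ∀ K ⊆ U, (∀ u ∈ K, ho u ≠ z) → ∀ g : ι → ℕ, (∀ u ∈ K, 1 ≤ g u) →
    (∀ u ∈ K, (g u : ℤ) ≤ kp z u) →
    2 * (mu z - q - ∑ u ∈ D, vl u + ∑ u ∈ K, (g u : ℤ)) ≤ R →
    (R - 2 * (mu z - q - ∑ u ∈ D, vl u + ∑ u ∈ K, (g u : ℤ)))
        * (s z - q - ∑ u ∈ D, (vl u + 1) + ∑ u ∈ K, (g u : ℤ))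
      ≤ (t z + 1) * (mu z - q - ∑ u ∈ D, vl u + ∑ u ∈ K, (g u : ℤ)) + ∑ u ∈ K, msP kp mn z g u
  /- the exact row test, any saving -/
  tTg : ∀ z < n, ∀ X ⊆ range n, ∀ Y ⊆ X, ∀ D ⊆ U, (∀ u ∈ D, ho u = z ∧ pc u = 0) →
    ∀ K ⊆ U, (∀ u ∈ K, ho u ≠ z) → ∀ g : ι → ℕ, (∀ u ∈ K, 1 ≤ g u) →
    (∀ u ∈ K, (g u : ℤ) ≤ kp z u) → ∀ sv : ℤ, SvT n ho vl kp g K sv →
    TstP R 0 (t z + 1) (s z) (∑ u ∈ K, (g u : ℤ)) (∑ u ∈ K, ((g u : ℤ) + 1))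
      (∑ u ∈ K, msP kp mn z g u)
      (mu z - ∑ l ∈ X, kq z l - ∑ l ∈ Y, (be z l - kq z l) - ∑ u ∈ D, vl u)
      (∑ l ∈ X, kq z l + ∑ l ∈ Y, (be z l - kq z l) + ∑ u ∈ D, (vl u + 1))
      0 sv (NP n U ho kp pc be kq NN sg z ((range n).erase z) X Y D) 0
  /- the row test with the columns of `j`, any saving -/
  tPg : ∀ z < n, ∀ j < n, j ≠ z → ∀ X ⊆ range n, j ∉ X → ∀ Y ⊆ X, ∀ D ⊆ U,
    (∀ u ∈ D, ho u = z ∧ pc u = 0) →
    ∀ K ⊆ U, (∀ u ∈ K, ho u ≠ z) → ∀ g : ι → ℕ, (∀ u ∈ K, 1 ≤ g u) →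
    (∀ u ∈ K, (g u : ℤ) ≤ kp z u) →
    ∀ sv : ℤ, SvT n ho vl kp g (K.filter fun u => ho u = j → pc u = 0) sv →
    TstP R (R - t j) (t z + 1) (s z) (∑ u ∈ K, (g u : ℤ))
      (∑ u ∈ K, ((g u : ℤ) + 1 - if ho u = j then pc u else 0))
      (∑ u ∈ K, msP kp mn z g u)
      (mu z - ∑ l ∈ X, kq z l - ∑ l ∈ Y, (be z l - kq z l) - ∑ u ∈ D, vl u)
      (∑ l ∈ X, kq z l + ∑ l ∈ Y, (be z l - kq z l) + ∑ u ∈ D, (vl u + 1))
      (∑ u ∈ U.filter (fun u => ho u = z ∧ u ∉ D), (kp j u * (R - t j) - mn j u))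
      (sv + 2 * ((∑ u ∈ K, if ho u = j then pc u else 0)
          * ((K.filter fun u => ho u = j ∧ pc u = 0 ∧ ∀ l < n, l ≠ z → kp l u = 0).card : ℤ)))
      (NP n U ho kp pc be kq NN sg z (((range n).erase z).erase j) X Y D)
      ((be z j + ∑ u ∈ K, if ho u = j then pc u else 0)
          * (be z j + (∑ u ∈ K, if ho u = j then pc u else 0) + 1)
        + 2 * ∑ u ∈ K, if ho u = j then (1 - pc u) * ar u else ((g u : ℤ) + 1) * (R - t j))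

  /- the row test with the columns of `j` and a rectangle, any saving -/
  tXg : ∀ z < n, ∀ j < n, j ≠ z → ∀ X ⊆ range n, j ∉ X → ∀ Y ⊆ X, ∀ D ⊆ U,
    (∀ u ∈ D, ho u = z ∧ pc u = 0) →
    ∀ K ⊆ U, (∀ u ∈ K, ho u ≠ z) → ∀ g : ι → ℕ, (∀ u ∈ K, 1 ≤ g u) →
    (∀ u ∈ K, (g u : ℤ) ≤ kp z u) →
    ∀ EX : ℤ, RcC U vl mn z j (be z j) (∑ u ∈ K, if ho u = j then pc u else 0) EX →
    ∀ sv : ℤ, SvT n ho vl kp g (K.filter fun u => ho u = j → pc u = 0) sv →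
    TstP R (R - t j) (t z + 1) (s z) (∑ u ∈ K, (g u : ℤ))
      (∑ u ∈ K, ((g u : ℤ) + 1 - if ho u = j then pc u else 0))
      (∑ u ∈ K, msP kp mn z g u)
      (mu z - ∑ l ∈ X, kq z l - ∑ l ∈ Y, (be z l - kq z l) - ∑ u ∈ D, vl u)
      (∑ l ∈ X, kq z l + ∑ l ∈ Y, (be z l - kq z l) + ∑ u ∈ D, (vl u + 1))
      (∑ u ∈ U.filter (fun u => ho u = z ∧ u ∉ D), (kp j u * (R - t j) - mn j u))
      (sv + 2 * ((∑ u ∈ K, if ho u = j then pc u else 0)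
          * ((K.filter fun u => ho u = j ∧ pc u = 0 ∧ ∀ l < n, l ≠ z → kp l u = 0).card : ℤ))
        + 2 * EX)
      (NP n U ho kp pc be kq NN sg z ((range n).erase z) X Y D)
      (2 * ((∑ u ∈ K, if ho u = j then pc u else 0) * be z j)
        + 2 * ∑ u ∈ K, if ho u = j then ar u else ((g u : ℤ) + 1) * (R - t j))

variable {R : ℤ} {n : ℕ} {t s mu : ℕ → ℤ} {U : Finset ι} {ho : ι → ℕ} {vl : ι → ℤ}
  {kp mn : ℕ → ι → ℤ} {pc ar : ι → ℤ} {be kq NN sg : ℕ → ℕ → ℤ} {nu : ℕ → ι → ℤ}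

/-- the hosted gain is not negative -/
lemma NP_le (n : ℕ) (U : Finset ι) (ho : ι → ℕ) (kp : ℕ → ι → ℤ) (pc : ι → ℤ)
    (be kq NN sg : ℕ → ℕ → ℤ) (z : ℕ) (S X Y : Finset ℕ) (D : Finset ι) :
    NP n U ho kp pc be kq NN sg z S X Y D
      ≤ ∑ l ∈ X \ Y, (be z l - kq z l) * (be z l - kq z l + 1) + ∑ l ∈ S \ X, NN z l
        + 2 * ∑ l ∈ Y, (be z l - kq z l) * (sg z l
          + ((U.filter fun u => ho u = z ∧ u ∉ D ∧ pc u = 0 ∧ kp l u ≠ 0).card : ℤ)) := by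
  unfold NP
  have h1 : 0 ≤ ∑ l ∈ range n, fulP n U ho kp pc z D l * (fulP n U ho kp pc z D l - 1) := by
    refine sum_nonneg fun l _ => ?_
    unfold fulP
    generalize (U.filter fun u => ho u = z ∧ u ∉ D ∧ pc u = 0
      ∧ ∀ l' < n, l' ≠ l → kp l' u = 0).card = a
    rcases Nat.eq_zero_or_pos a with h2 | h2
    · rw [h2]
      simp
    · have h3 : (1 : ℤ) ≤ a := by exact_mod_cast h2
      exact mul_nonneg (by linarith) (by linarith)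
  linarith

lemma TstP.leN {R c A s k w B m q SA sv N N' co : ℤ} (h : TstP R c A s k w B m q SA sv N co)
    (hN : N ≤ N') : TstP R c A s k w B m q SA sv N' co := by
  unfold TstP at *
  linarith

/-- **the exact row test**, 23's saving -/
theorem PCon.tT (H : PCon R n t s mu U ho vl kp mn pc ar be kq NN sg nu) :
    ∀ z < n, ∀ X ⊆ range n, ∀ Y ⊆ X, ∀ D ⊆ U, (∀ u ∈ D, ho u = z ∧ pc u = 0) →
    ∀ K ⊆ U, (∀ u ∈ K, ho u ≠ z) → ∀ g : ι → ℕ, (∀ u ∈ K, 1 ≤ g u) →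
    (∀ u ∈ K, (g u : ℤ) ≤ kp z u) →
    TstP R 0 (t z + 1) (s z) (∑ u ∈ K, (g u : ℤ)) (∑ u ∈ K, ((g u : ℤ) + 1))
      (∑ u ∈ K, msP kp mn z g u)
      (mu z - ∑ l ∈ X, kq z l - ∑ l ∈ Y, (be z l - kq z l) - ∑ u ∈ D, vl u)
      (∑ l ∈ X, kq z l + ∑ l ∈ Y, (be z l - kq z l) + ∑ u ∈ D, (vl u + 1))
      0 (svP n ho vl K g)
      (∑ l ∈ X \ Y, (be z l - kq z l) * (be z l - kq z l + 1)
        + ∑ l ∈ (range n).erase z \ X, NN z l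
        + 2 * ∑ l ∈ Y, (be z l - kq z l) * (sg z l
          + ((U.filter fun u => ho u = z ∧ u ∉ D ∧ pc u = 0 ∧ kp l u ≠ 0).card : ℤ))) 0 :=
  fun z hz X hX Y hY D hD hD' K hK hKh g hg1 hg2 =>
    (H.tTg z hz X hX Y hY D hD hD' K hK hKh g hg1 hg2 _ (Or.inl le_rfl)).leN
      (NP_le n U ho kp pc be kq NN sg z _ X Y D)

/-- **the row test with the columns of `j`**, 23's saving -/
theorem PCon.tP (H : PCon R n t s mu U ho vl kp mn pc ar be kq NN sg nu) :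
    ∀ z < n, ∀ j < n, j ≠ z → ∀ X ⊆ range n, j ∉ X → ∀ Y ⊆ X, ∀ D ⊆ U,
    (∀ u ∈ D, ho u = z ∧ pc u = 0) →
    ∀ K ⊆ U, (∀ u ∈ K, ho u ≠ z) → ∀ g : ι → ℕ, (∀ u ∈ K, 1 ≤ g u) →
    (∀ u ∈ K, (g u : ℤ) ≤ kp z u) →
    TstP R (R - t j) (t z + 1) (s z) (∑ u ∈ K, (g u : ℤ))
      (∑ u ∈ K, ((g u : ℤ) + 1 - if ho u = j then pc u else 0))
      (∑ u ∈ K, msP kp mn z g u)
      (mu z - ∑ l ∈ X, kq z l - ∑ l ∈ Y, (be z l - kq z l) - ∑ u ∈ D, vl u)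
      (∑ l ∈ X, kq z l + ∑ l ∈ Y, (be z l - kq z l) + ∑ u ∈ D, (vl u + 1))
      (∑ u ∈ U.filter (fun u => ho u = z ∧ u ∉ D), (kp j u * (R - t j) - mn j u))
      (svP n ho vl (K.filter fun u => ho u = j → pc u = 0) g
        + 2 * ((∑ u ∈ K, if ho u = j then pc u else 0)
          * ((K.filter fun u => ho u = j ∧ pc u = 0 ∧ ∀ l < n, l ≠ z → kp l u = 0).card : ℤ)))
      (∑ l ∈ X \ Y, (be z l - kq z l) * (be z l - kq z l + 1)
        + ∑ l ∈ ((range n).erase z).erase j \ X, NN z l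
        + 2 * ∑ l ∈ Y, (be z l - kq z l) * (sg z l
          + ((U.filter fun u => ho u = z ∧ u ∉ D ∧ pc u = 0 ∧ kp l u ≠ 0).card : ℤ)))
      ((be z j + ∑ u ∈ K, if ho u = j then pc u else 0)
          * (be z j + (∑ u ∈ K, if ho u = j then pc u else 0) + 1)
        + 2 * ∑ u ∈ K, if ho u = j then (1 - pc u) * ar u else ((g u : ℤ) + 1) * (R - t j)) :=
  fun z hz j hj hjz X hX hjX Y hY D hD hD' K hK hKh g hg1 hg2 =>
    (H.tPg z hz j hj hjz X hX hjX Y hY D hD hD' K hK hKh g hg1 hg2 _ (Or.inl le_rfl)).leN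
      (NP_le n U ho kp pc be kq NN sg z _ X Y D)

/-- **the row test with the columns of `j` and a rectangle** (an item of value one, any host, used or not), 23's
saving; the PC pairs of the cell are not joint here -/
theorem PCon.tPX (H : PCon R n t s mu U ho vl kp mn pc ar be kq NN sg nu) :
    ∀ z < n, ∀ j < n, j ≠ z → ∀ X ⊆ range n, j ∉ X → ∀ Y ⊆ X, ∀ D ⊆ U,
    (∀ u ∈ D, ho u = z ∧ pc u = 0) →
    ∀ K ⊆ U, (∀ u ∈ K, ho u ≠ z) → ∀ g : ι → ℕ, (∀ u ∈ K, 1 ≤ g u) →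
    (∀ u ∈ K, (g u : ℤ) ≤ kp z u) →
    ∀ EX : ℤ, RcC U vl mn z j (be z j) (∑ u ∈ K, if ho u = j then pc u else 0) EX →
    TstP R (R - t j) (t z + 1) (s z) (∑ u ∈ K, (g u : ℤ))
      (∑ u ∈ K, ((g u : ℤ) + 1 - if ho u = j then pc u else 0))
      (∑ u ∈ K, msP kp mn z g u)
      (mu z - ∑ l ∈ X, kq z l - ∑ l ∈ Y, (be z l - kq z l) - ∑ u ∈ D, vl u)
      (∑ l ∈ X, kq z l + ∑ l ∈ Y, (be z l - kq z l) + ∑ u ∈ D, (vl u + 1))
      (∑ u ∈ U.filter (fun u => ho u = z ∧ u ∉ D), (kp j u * (R - t j) - mn j u))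
      (svP n ho vl (K.filter fun u => ho u = j → pc u = 0) g
        + 2 * ((∑ u ∈ K, if ho u = j then pc u else 0)
          * ((K.filter fun u => ho u = j ∧ pc u = 0 ∧ ∀ l < n, l ≠ z → kp l u = 0).card : ℤ))
        + 2 * EX)
      (∑ l ∈ X \ Y, (be z l - kq z l) * (be z l - kq z l + 1)
        + ∑ l ∈ (range n).erase z \ X, NN z l
        + 2 * ∑ l ∈ Y, (be z l - kq z l) * (sg z l
          + ((U.filter fun u => ho u = z ∧ u ∉ D ∧ pc u = 0 ∧ kp l u ≠ 0).card : ℤ)))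
      (2 * ((∑ u ∈ K, if ho u = j then pc u else 0) * be z j)
        + 2 * ∑ u ∈ K, if ho u = j then ar u else ((g u : ℤ) + 1) * (R - t j)) :=
  fun z hz j hj hjz X hX hjX Y hY D hD hD' K hK hKh g hg1 hg2 EX hEX =>
    (H.tXg z hz j hj hjz X hX hjX Y hY D hD hD' K hK hKh g hg1 hg2 EX hEX _ (Or.inl le_rfl)).leN
      (NP_le n U ho kp pc be kq NN sg z _ X Y D)

/-- **the closing**: `co i u` the complement of the share of the row `i` in the item `u` (the row has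
`g i u` pieces, the host `vl u` units) -/
theorem PCon.false_of_table (H : PCon R n t s mu U ho vl kp mn pc ar be kq NN sg nu) {g : ℕ → ι → ℤ}
    {co : ℕ → ι → ℝ} {δ : ℕ → ℝ}
    (h1 : ∀ u ∈ U, ∑ i ∈ range n, co i u ≤ ∑ i ∈ range n, (g i u : ℝ))
    (h2 : ∀ z < n, (s z : ℝ) + ∑ u ∈ U, (g z u : ℝ) ≤ ∑ u ∈ U, co z u + δ z)
    (h3 : ∑ i ∈ range n, δ i < 1) : False := by
  have e1 : ∑ i ∈ range n, (s i : ℝ) = 1 := by
    have h4 := H.ss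
    have h5 : ((∑ i ∈ range n, s i : ℤ) : ℝ) = 1 := by rw [h4]; norm_num
    push_cast at h5
    exact h5
  have h4 := sum_le_sum fun i hi => h2 i (mem_range.1 hi)
  have h5 := sum_le_sum h1
  rw [sum_add_distrib, sum_add_distrib, e1, sum_comm, sum_comm (s := range n) (t := U)] at h4
  linarith

/-- **what the pure side delivers** -/
def PureNo (R : ℤ) : Prop :=
  ∀ (ι : Type) (n : ℕ) (t s mu : ℕ → ℤ) (U : Finset ι) (ho : ι → ℕ) (vl : ι → ℤ)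
    (kp mn : ℕ → ι → ℤ) (pc ar : ι → ℤ) (be kq NN sg : ℕ → ℕ → ℤ) (nu : ℕ → ι → ℤ),
    ¬ PCon R n t s mu U ho vl kp mn pc ar be kq NN sg nu

end PConS

end Pool.Agent.Lib.MP_f04ccf_co
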