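import Pool.Agent.Lib.MP_f04ccf_co.M.CellGL
import Pool.Agent.Lib.MP_f04ccf_co.M.PCon
import Pool.Agent.Lib.MP_f04ccf_co.M.ItC

/-!
MP_f04ccf_co, TEXT D: the mixed cap (`CapM`, `M/CellGL.lean`) in the letters of the contract `PCon`
(`M/PCon.lean`): all PC pairs of both homes of the cell, plain items at levels, savings `SvC`.

* `SvC.savK`: the savings of the contract are savings `SavK`;
* `CapMP`: the field `PCon.capM` (all PC pairs of the cell), `CapM.pcon`: the transport.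
-/

set_option autoImplicit false

namespace Pool.Agent.Lib.MP_f04ccf_co

open Finset

attribute [local instance] Classical.propDecidable

section CapP

variable {ι : Type*} {R : ℤ} {n : ℕ} {t : ℕ → ℤ} {U : Finset ι} {ho : ι → ℕ} {vl : ι → ℤ}
  {kp mn : ℕ → ι → ℤ} {be : ℕ → ℕ → ℤ} {pc : ι → ℤ} {nu : ℕ → ι → ℤ}

/-- the savings of the contract -/
lemma SvC.savK {i j : ℕ} {g g' : ι → ℕ} {K K' : Finset ι} {sv : ℤ}
    (h : SvC n vl kp pc i j g g' K K' sv) : SavK n vl kp pc i j g g' K K' sv := by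
  rcases h with h | ⟨I, hI, hi, hj, h1, h2, q, h⟩ | h
  · exact SavK.zero h
  · exact SavK.tur hI hi hj h1 h2 q h
  · exact SavK.prs h

/-- **the mixed cap of the contract**: all PC pairs of both homes of the cell `{i, j}` -/
def CapMP (R : ℤ) (n : ℕ) (t : ℕ → ℤ) (U : Finset ι) (ho : ι → ℕ) (vl : ι → ℤ)
    (kp mn : ℕ → ι → ℤ) (be : ℕ → ℕ → ℤ) (pc : ι → ℤ) : Prop :=
  ∀ i < n, ∀ j < n, i ≠ j →
    ∀ K ⊆ U, (∀ u ∈ K, ho u = i ∧ pc u = 0) → ∀ K' ⊆ U, (∀ u ∈ K', ho u = j ∧ pc u = 0) →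
    ∀ g g' : ι → ℕ, (∀ u ∈ K, 1 ≤ g u) →
    (∀ u ∈ K, (g u : ℤ) ≤ kp j u) → (∀ u ∈ K', 1 ≤ g' u) → (∀ u ∈ K', (g' u : ℤ) ≤ kp i u) →
    ∀ sv : ℤ, SvC n vl kp pc i j g g' K K' sv →
    2 * ((be i j + be j i - 1) * R)
      + 2 * ∑ u ∈ K, (R * g u + t j - msP kp mn j g u
        - ∑ l ∈ ((range n).erase i).erase j, kp l u * be i l)
      + 2 * ∑ u ∈ K', (R * g' u + t i - msP kp mn i g' u
        - ∑ l ∈ ((range n).erase i).erase j, kp l u * be j l)
      + sv
      ≤ 2 * (t i * t j) + 2 * (be i j + be j i) ^ 2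
        + 2 * (be i j + be j i) * (∑ u ∈ K, ((g u : ℤ) + 1) + ∑ u ∈ K', ((g' u : ℤ) + 1))
        + (∑ u ∈ K, ((g u : ℤ) + 1) + ∑ u ∈ K', ((g' u : ℤ) + 1))
          * (∑ u ∈ K, ((g u : ℤ) + 1) + ∑ u ∈ K', ((g' u : ℤ) + 1) - 1)

/-- **the transport to the contract**, no free arcs of the plain items (version [C]) -/
theorem CapM.pcon (H : CapM R n t U ho vl kp mn be pc nu)
    (h0 : ∀ u ∈ U, pc u = 0 → ∀ j < n, nu j u = 0) : CapMP R n t U ho vl kp mn be pc := by
  intro i hi j hj hij K hK hKi K' hK' hKj g g' hg1 hg2 hg1' hg2' sv hs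
  have h1 := H i hi j hj hij K hK hKi K' hK' hKj g g' hg1 hg2 hg1' hg2' sv _ hs.savK rfl
  have key : ∀ {i j : ℕ} {g : ι → ℕ} {K : Finset ι}, i < n → j < n → i ≠ j → K ⊆ U →
      (∀ u ∈ K, pc u = 0) →
      ∑ u ∈ K, (R * g u + t j - (if kp j u ≤ (g u : ℤ) then mn j u else 0)
          - ∑ l ∈ (range n).erase i, (nu l u + if l = j then 0 else kp l u * be i l))
        = ∑ u ∈ K, (R * g u + t j - msP kp mn j g u
          - ∑ l ∈ ((range n).erase i).erase j, kp l u * be i l) := by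
    intro i j g K hi hj hij hK hp
    refine sum_congr rfl fun u hu => ?_
    have h2 : ∑ l ∈ (range n).erase i, (nu l u + if l = j then 0 else kp l u * be i l)
        = ∑ l ∈ ((range n).erase i).erase j, kp l u * be i l := by
      rw [← add_sum_erase _ _ (mem_erase.2 ⟨Ne.symm hij, mem_range.2 hj⟩),
        h0 u (hK hu) (hp u hu) j hj, if_pos rfl, zero_add, zero_add]
      refine sum_congr rfl fun l hl => ?_
      have hl1 := mem_erase.1 hl
      rw [h0 u (hK hu) (hp u hu) l (mem_range.1 (mem_of_mem_erase hl1.2)), if_neg hl1.1, zero_add]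
    rw [h2]
    rfl
  have k1 := key (g := g) hi hj hij hK fun u hu => (hKi u hu).2
  have k2 := key (g := g') hj hi (Ne.symm hij) hK' fun u hu => (hKj u hu).2
  rw [erase_right_comm] at k2
  rw [k1, k2] at h1
  linarith

end CapP

section TrP

variable {V : Type*} {G : SimpleGraph V} {Z T : Finset V} {hm : V → V} {r m n p : ℕ}
  {φ : Finset (V × V) → Finset (Finset V) → ℕ} {B : V → Finset (V × V)}
  {Ps : V → Finset (Finset V)} {host : Itm V → V} {ρ : V → ℕ} {σ : ℕ → V}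

/-- **the mixed cap of version [C]** in the letters of the contract -/
theorem WItC.capMP (hp : 2 * r ≤ p) (h : WCoreK G Z T r m n p hm)
    (H : WItC G Z T hm r n φ B Ps host ρ σ) :
    CapMP ((r : ℤ) - 1) n (fun i => tI G Z T hm r Z (σ i)) (T.biUnion fun x => pkf (B x) (Ps x))
      (fun u => ρ (host u)) (fun u => (ivl u : ℤ))
      (fun i u => (ikp (tlo G T hm) (σ i) u : ℤ))
      (fun i u => (imn G (cz G Z T hm) (tlo G T hm) (σ i) u : ℤ))
      (fun i j => pcn (tlo G T hm) B (σ i) (σ j)) (fun u => (ipc u : ℤ)) := by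
  refine (h.capM hp (fun x hx => (H.pk x hx).toPk) (fun x hx => (H.pk x hx).min) H.hst H.rk).pcon ?_
  intro u hu hpc j _
  obtain ⟨x, hx, hux⟩ := mem_biUnion.1 hu
  have h1 := H.hst x hx u hux
  have hpc' : (ipc u : ℤ) = 0 := hpc
  show (nui G (cz G Z T hm (host u)) (tlo G T hm) (B (host u)) (σ j) u : ℤ) = 0
  rw [h1]
  rcases u with P | e
  · rw [(H.pk x hx).nui_inl_zero hux (σ j)]
    rfl
  · simp [ipc] at hpc'

end TrP

end Pool.Agent.Lib.MP_f04ccf_co
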