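import Pool.Agent.Lib.MP_f04ccf_co.M.RowJ

/-!
MP_f04ccf_co, note 17295 (helper59): the slot test of a set `B` of rows with the columns of a set `J` of
further rows.

* `CSys.tstJ`: raw form, any slope, any set `W` outside;
* `WCoreK.blkJV`, `WCoreK.blkJ`: slope `|B| + |J| - 1`, all cells `{x, j}`, `x ∈ B`, `j ∈ J`, paid, over the
  basic integers and over the row indices.
-/

set_option autoImplicit false

namespace Pool.Agent.Lib.MP_f04ccf_co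

open Finset

attribute [local instance] Classical.propDecidable

section BlkJ

variable {V : Type*} {G : SimpleGraph V} {Z T : Finset V} {hm : V → V} {r m t : ℕ}
  {A : Finset V} {S : V → Finset V}

/-- **the slot test of `B` with the columns of the rows of `J` and a set `W`**, any slope -/
theorem CSys.tstJ (hF : PFrame G r m t Z T) (hP : PG G r) (hC : CSys G Z T hm A S)
    {B : Finset V} (hB : B ⊆ A) {J : Finset V} (hJ : J ⊆ A) (hBJ : Disjoint B J) (k : ℤ)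
    {W : Finset V} (hWS : ∀ x ∈ B, Disjoint (S x) W) (hWC : ∀ j ∈ J, Disjoint (CP G Z T S j) W) :
    ((r : ℤ) - 1) * (2 * k * (∑ x ∈ B, ((S x).card : ℤ) + ∑ j ∈ J, ((CP G Z T S j).card : ℤ) + W.card)
        - r * k * (k + 1))
      + ∑ x ∈ B, ∑ y ∈ B.erase x, ∑ v ∈ S y, (dg G (S x) v : ℤ)
      + ∑ j ∈ J, ∑ i ∈ J.erase j, ∑ v ∈ CP G Z T S i, (dg G (CP G Z T S j) v : ℤ)
      + 2 * ∑ j ∈ J, ∑ x ∈ B, ∑ c ∈ CP G Z T S j, (dg G (S x) c : ℤ)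
      + 2 * ∑ x ∈ B, ∑ v ∈ W, (dg G (S x) v : ℤ)
      ≤ ∑ x ∈ B, (NE G (S x) : ℤ) + NE G W
        + ∑ x ∈ B, ∑ y ∈ B.erase x, ((S x).card : ℤ) * (S y).card
        + ∑ j ∈ J, ∑ i ∈ J.erase j, ((CP G Z T S i).card : ℤ) * (CP G Z T S j).card
        + 2 * (∑ x ∈ B, ((S x).card : ℤ)) * (∑ j ∈ J, ((CP G Z T S j).card : ℤ))
        + 2 * (W.card : ℤ) * (∑ x ∈ B, ((S x).card : ℤ))
        + 2 * ∑ j ∈ J, ∑ v ∈ W, (nd G (CP G Z T S j) v : ℤ) := by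
  have hd : ∀ x ∈ B, ∀ y ∈ B, x ≠ y → Disjoint (S x) (S y) := fun x hx y hy hxy =>
    hC.disj (hB hx) (hB hy) hxy
  have hCC : ∀ i ∈ J, ∀ j ∈ J, i ≠ j → Disjoint (CP G Z T S i) (CP G Z T S j) := fun i hi j hj hij =>
    (hC.disj (hJ hi) (hJ hj) hij).mono (fun v hv => (mem_CP.1 hv).1) fun v hv => (mem_CP.1 hv).1
  have hCS : ∀ j ∈ J, ∀ x ∈ B, Disjoint (CP G Z T S j) (S x) := fun j hj x hx =>
    ((hC.disj (hB hx) (hJ hj) (fun h0 => disjoint_left.1 hBJ hx (h0 ▸ hj))).mono_right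
      fun v hv => (mem_CP.1 hv).1).symm
  have hdW : Disjoint W (B.biUnion S) := by
    rw [disjoint_biUnion_right]
    exact fun x hx => (hWS x hx).symm
  have hD : ∀ j ∈ J, Disjoint (CP G Z T S j) (W ∪ B.biUnion S) := by
    intro j hj
    rw [disjoint_union_right, disjoint_biUnion_right]
    exact ⟨hWC j hj, fun x hx => hCS j hj x hx⟩
  have h1 := hP ((W ∪ B.biUnion S) ∪ J.biUnion (CP G Z T S)) k
  have h2 := E_add_NE (G := G) ((W ∪ B.biUnion S) ∪ J.biUnion (CP G Z T S))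
  have h3 := NE_biUnion (G := G) J (CP G Z T S) (W ∪ B.biUnion S) hCC hD
  have h4 := NE_biUnion (G := G) B S W hd hWS
  have h5 : (((W ∪ B.biUnion S) ∪ J.biUnion (CP G Z T S)).card : ℤ)
      = W.card + ∑ x ∈ B, ((S x).card : ℤ) + ∑ j ∈ J, ((CP G Z T S j).card : ℤ) := by
    rw [card_union_of_disjoint ((disjoint_biUnion_right _ _ _).2 fun j hj => (hD j hj).symm),
      card_union_of_disjoint hdW, card_biUnion hd, card_biUnion hCC]
    push_cast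
    rfl
  have h6 : ∑ j ∈ J, (NE G (CP G Z T S j) : ℤ) = 0 :=
    sum_eq_zero fun j hj => by
      have := NE_clq (hC.CP_clq hF (hJ hj))
      rw [this]
      rfl
  have h7 := hC.nd_cross hB fun _ => 1
  simp only [one_mul] at h7
  have h8 : ∑ x ∈ B, ∑ v ∈ W, (nd G (S x) v : ℤ)
      = W.card * ∑ x ∈ B, ((S x).card : ℤ) - ∑ x ∈ B, ∑ v ∈ W, (dg G (S x) v : ℤ) := by
    rw [mul_sum, ← sum_sub_distrib]
    refine sum_congr rfl fun x hx => ?_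
    rw [sum_dg_nd (hWS x hx)]
  have h9 : ∀ j ∈ J, ∑ v ∈ W ∪ B.biUnion S, (nd G (CP G Z T S j) v : ℤ)
      = ∑ v ∈ W, (nd G (CP G Z T S j) v : ℤ)
        + ((∑ x ∈ B, ((S x).card : ℤ)) * (CP G Z T S j).card
          - ∑ x ∈ B, ∑ c ∈ CP G Z T S j, (dg G (S x) c : ℤ)) := by
    intro j hj
    rw [sum_union hdW, sum_biUnion hd, sum_mul, ← sum_sub_distrib]
    congr 1
    refine sum_congr rfl fun x hx => ?_
    rw [sum_dg_nd (hCS j hj x hx)]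
    congr 1
    have := dg_comm G (S x) (CP G Z T S j)
    exact_mod_cast this
  have h10 : ∑ j ∈ J, ∑ v ∈ W ∪ B.biUnion S, (nd G (CP G Z T S j) v : ℤ)
      = ∑ j ∈ J, ∑ v ∈ W, (nd G (CP G Z T S j) v : ℤ)
        + ((∑ x ∈ B, ((S x).card : ℤ)) * (∑ j ∈ J, ((CP G Z T S j).card : ℤ))
          - ∑ j ∈ J, ∑ x ∈ B, ∑ c ∈ CP G Z T S j, (dg G (S x) c : ℤ)) := by
    rw [sum_congr rfl h9, sum_add_distrib, sum_sub_distrib, ← mul_sum]
  have h11 : ∑ j ∈ J, ∑ i ∈ J.erase j, ∑ v ∈ CP G Z T S i, (nd G (CP G Z T S j) v : ℤ)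
      = ∑ j ∈ J, ∑ i ∈ J.erase j, ((CP G Z T S i).card : ℤ) * (CP G Z T S j).card
        - ∑ j ∈ J, ∑ i ∈ J.erase j, ∑ v ∈ CP G Z T S i, (dg G (CP G Z T S j) v : ℤ) := by
    rw [← sum_sub_distrib]
    refine sum_congr rfl fun j hj => ?_
    rw [← sum_sub_distrib]
    refine sum_congr rfl fun i hi => ?_
    rw [sum_dg_nd (hCC j hj i (mem_of_mem_erase hi) (ne_of_mem_erase hi).symm)]
  rw [h7, h8] at h4
  rw [h6, h4, h10, h11] at h3
  rw [h5] at h1 h2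
  generalize ∑ x ∈ B, ((S x).card : ℤ) = σ at *
  generalize ∑ j ∈ J, ((CP G Z T S j).card : ℤ) = c at *
  generalize (NE G ((W ∪ B.biUnion S) ∪ J.biUnion (CP G Z T S)) : ℤ) = n1 at *
  generalize (E G ((W ∪ B.biUnion S) ∪ J.biUnion (CP G Z T S)) : ℤ) = n2 at *
  clear h4 h5 h6 h7 h8 h9 h10 h11 hWS hWC hdW hD hd hCC hCS
  linarith

end BlkJ

section BlkI

variable {V : Type*} {G : SimpleGraph V} {Z T : Finset V} {hm : V → V} {r m n p : ℕ}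
  {B : V → Finset (V × V)} {Ps : V → Finset (Finset V)}

/-- **the slot test of `Q` with the columns of `J`, all cells paid**, version [B] -/
theorem WCoreK.blkJV (hp : 2 * r ≤ p) (h : WCoreK G Z T r m n p hm)
    (hpk : ∀ x ∈ T, Pk G (cz G Z T hm x) (hz G Z T hm x) (tlo G T hm) (B x) (Ps x))
    {Q J : Finset V} (hQ : Q ⊆ T) (hJ : J ⊆ T) (hQJ : Disjoint Q J) :
    2 * ((r : ℤ) - Q.card) * ∑ x ∈ Q, sI hm r Z x
      + ∑ x ∈ Q, ∑ y ∈ Q.erase x, EI G hm Z x y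
      + ∑ x ∈ Q, sI hm r Z x ^ 2
      + 2 * ((J.card : ℤ) - 1) * ((r : ℤ) - 1) * ∑ x ∈ Q, sI hm r Z x
      - (J.card : ℤ) * (J.card - 1) * ((r : ℤ) - 1)
      - ((∑ j ∈ J, tI G Z T hm r Z j) ^ 2 - ∑ j ∈ J, tI G Z T hm r Z j ^ 2)
      + 2 * ∑ j ∈ J, ∑ x ∈ Q, (∑ u ∈ pkf (B x) (Ps x), ((ikp (tlo G T hm) j u : ℤ)
          * ((r : ℤ) - 1 - tI G Z T hm r Z j) - ims G (cz G Z T hm) (tlo G T hm) j u)
        + nxk G (cz G Z T hm x) (hz G Z T hm x) (tlo G T hm) (B x) j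
        + pfw G (cz G Z T hm x) (tlo G T hm) (B x) j)
      ≤ 2 * ∑ x ∈ Q, eI G hm Z x + Q.card * (Q.card - 1) * r + (∑ x ∈ Q, sI hm r Z x) ^ 2
        + 2 * ((J.card : ℤ) * ((r : ℤ) - 1) - ∑ j ∈ J, tI G Z T hm r Z j)
          * (Q.card + ∑ x ∈ Q, sI hm r Z x) := by
  have hfam : ∀ x ∈ T, Fam (co G) (cz G Z T hm) (hz G Z T hm) (tlo G T hm) x
      (pkf (B x) (Ps x)) := fun x hx => (hpk x hx).fam (h.csys.dCH hx hx).symm
  have hcard : ∀ x, ((cz G Z T hm x).card : ℤ) = (r : ℤ) - 1 - tI G Z T hm r Z x := fun x =>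
    card_CP_eq Z x
  -- the columns
  have h1 : ∀ j ∈ J, ∀ x ∈ Q, ∑ u ∈ pkf (B x) (Ps x), ((ikp (tlo G T hm) j u : ℤ)
          * ((r : ℤ) - 1 - tI G Z T hm r Z j) - ims G (cz G Z T hm) (tlo G T hm) j u)
        + nxk G (cz G Z T hm x) (hz G Z T hm x) (tlo G T hm) (B x) j
        + pfw G (cz G Z T hm x) (tlo G T hm) (B x) j
      ≤ ∑ c ∈ cz G Z T hm j, (dg G (Z.filter fun v => hm v = x) c : ℤ) := by
    intro j hj x hx
    have hxj : x ≠ j := fun h0 => disjoint_left.1 hQJ hx (h0 ▸ hj)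
    have h2 := h.cellP hp hpk (hQ hx) (hJ hj) hxj (K := ∅) (empty_subset _)
      (fun u hu => absurd hu (notMem_empty _)) (X := fun Q => oth (tlo G T hm) x Q)
      (fun _ => subset_rfl)
    simp only [biUnion_empty, sdiff_empty, empty_sdiff, sum_empty, mul_zero, add_zero] at h2
    have h3 : ∑ c ∈ cz G Z T hm j, (∑ u ∈ pkf (B x) (Ps x), ((ikp (tlo G T hm) j u : ℤ)
          - if c ∈ icl G (cz G Z T hm) (tlo G T hm) j u then 1 else 0))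
        + ∑ c ∈ cz G Z T hm j, (dg G (cz G Z T hm x
            \ (pcz (tlo G T hm) j (pkf (B x) (Ps x))).image Prod.snd) c : ℤ)
        ≤ ∑ c ∈ cz G Z T hm j, (dg G (Z.filter fun v => hm v = x) c : ℤ) := by
      rw [← sum_add_distrib]
      refine sum_le_sum fun c hc => ?_
      have h8 := Fam.col_see h.wsysT hfam (hQ hx) (z := j) (W := ∅)
        (F := cz G Z T hm x \ (pcz (tlo G T hm) j (pkf (B x) (Ps x))).image Prod.snd)
        (empty_subset _) (fun v hv => absurd hv (notMem_empty _)) sdiff_subset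
        (fun e he h0 => (mem_sdiff.1 h0).2 (mem_image_of_mem _ he)) hc
      have h9 : (0 : ℤ) ≤ dg G (∅ : Finset V) c := by positivity
      linarith
    rw [sum_cols] at h3
    have h4 : ∑ u ∈ pkf (B x) (Ps x), (((cz G Z T hm j).card : ℤ) * ikp (tlo G T hm) j u
        - (cz G Z T hm j ∩ icl G (cz G Z T hm) (tlo G T hm) j u).card)
        = ∑ u ∈ pkf (B x) (Ps x), ((ikp (tlo G T hm) j u : ℤ)
          * ((r : ℤ) - 1 - tI G Z T hm r Z j) - ims G (cz G Z T hm) (tlo G T hm) j u) := by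
      refine sum_congr rfl fun u _ => ?_
      have h5 : cz G Z T hm j ∩ icl G (cz G Z T hm) (tlo G T hm) j u
          = icl G (cz G Z T hm) (tlo G T hm) j u := inter_eq_right.2 rcl_sub
      rw [h5, hcard]
      unfold ims
      ring
    rw [h4] at h3
    linarith
  have h2 := h.csys.tstJ h.F.toPFrame h.gp.P hQ hJ hQJ ((Q.card : ℤ) + J.card - 1) (W := ∅)
    (fun x _ => disjoint_empty_right _) (fun x _ => disjoint_empty_right _)
  have h3 : ∑ j ∈ J, ∑ x ∈ Q, (∑ u ∈ pkf (B x) (Ps x), ((ikp (tlo G T hm) j u : ℤ)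
          * ((r : ℤ) - 1 - tI G Z T hm r Z j) - ims G (cz G Z T hm) (tlo G T hm) j u)
        + nxk G (cz G Z T hm x) (hz G Z T hm x) (tlo G T hm) (B x) j
        + pfw G (cz G Z T hm x) (tlo G T hm) (B x) j)
      ≤ ∑ j ∈ J, ∑ x ∈ Q, ∑ c ∈ cz G Z T hm j, (dg G (Z.filter fun v => hm v = x) c : ℤ) :=
    sum_le_sum fun j hj => sum_le_sum fun x hx => h1 j hj x hx
  have hs : ∀ x, ((Z.filter fun v => hm v = x).card : ℤ) = sI hm r Z x + r := fun x => by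
    unfold sI
    ring
  have h4 : ∑ x ∈ Q, ((Z.filter fun v => hm v = x).card : ℤ)
      = ∑ x ∈ Q, sI hm r Z x + Q.card * r := by
    rw [sum_congr rfl fun x _ => hs x, sum_add_distrib, sum_const, nsmul_eq_mul]
  have h5 : ∑ j ∈ J, ((cz G Z T hm j).card : ℤ)
      = (J.card : ℤ) * ((r : ℤ) - 1) - ∑ j ∈ J, tI G Z T hm r Z j := by
    rw [sum_congr rfl fun j _ => hcard j, sum_sub_distrib, sum_const, nsmul_eq_mul]
  have h6 : ∑ x ∈ Q, ∑ y ∈ Q.erase x, ((Z.filter fun v => hm v = x).card : ℤ)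
        * (Z.filter fun v => hm v = y).card
      = (∑ x ∈ Q, sI hm r Z x + Q.card * r) ^ 2
        - (∑ x ∈ Q, sI hm r Z x ^ 2 + 2 * r * ∑ x ∈ Q, sI hm r Z x + Q.card * (r : ℤ) ^ 2) := by
    rw [sum_offdiag Q fun x y => ((Z.filter fun v => hm v = x).card : ℤ)
      * (Z.filter fun v => hm v = y).card, ← sum_mul_sum, ← sq, h4]
    have h7 : ∀ x ∈ Q, ((Z.filter fun v => hm v = x).card : ℤ) * (Z.filter fun v => hm v = x).card
        = sI hm r Z x ^ 2 + 2 * r * sI hm r Z x + (r : ℤ) ^ 2 := fun x _ => by rw [hs]; ring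
    rw [sum_congr rfl h7, sum_add_distrib, sum_add_distrib, sum_const, nsmul_eq_mul, ← mul_sum]
  have h7 : ∑ j ∈ J, ∑ i ∈ J.erase j, ((cz G Z T hm i).card : ℤ) * (cz G Z T hm j).card
      = (J.card : ℤ) * (J.card - 1) * ((r : ℤ) - 1) ^ 2
        - 2 * ((J.card : ℤ) - 1) * ((r : ℤ) - 1) * ∑ j ∈ J, tI G Z T hm r Z j
        + ((∑ j ∈ J, tI G Z T hm r Z j) ^ 2 - ∑ j ∈ J, tI G Z T hm r Z j ^ 2) := by
    rw [sum_offdiag J fun j i => ((cz G Z T hm i).card : ℤ) * (cz G Z T hm j).card]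
    have h7 : ∑ j ∈ J, ∑ i ∈ J, ((cz G Z T hm i).card : ℤ) * (cz G Z T hm j).card
        = (∑ j ∈ J, ((cz G Z T hm j).card : ℤ)) ^ 2 := by
      rw [sq, sum_mul_sum, sum_comm]
    have h8 : ∑ j ∈ J, ((cz G Z T hm j).card : ℤ) * (cz G Z T hm j).card
        = (J.card : ℤ) * ((r : ℤ) - 1) ^ 2 - 2 * ((r : ℤ) - 1) * ∑ j ∈ J, tI G Z T hm r Z j
          + ∑ j ∈ J, tI G Z T hm r Z j ^ 2 := by
      have h9 : ∀ j ∈ J, ((cz G Z T hm j).card : ℤ) * (cz G Z T hm j).card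
          = ((r : ℤ) - 1) ^ 2 - 2 * ((r : ℤ) - 1) * tI G Z T hm r Z j + tI G Z T hm r Z j ^ 2 :=
        fun j _ => by rw [hcard]; ring
      rw [sum_congr rfl h9, sum_add_distrib, sum_sub_distrib, sum_const, nsmul_eq_mul, ← mul_sum]
    rw [h7, h8, h5]
    ring
  have h8 : (0 : ℤ) ≤ ∑ j ∈ J, ∑ i ∈ J.erase j, ∑ v ∈ cz G Z T hm i, (dg G (cz G Z T hm j) v : ℤ) :=
    sum_nonneg fun _ _ => sum_nonneg fun _ _ => sum_nonneg fun _ _ => Nat.cast_nonneg _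
  have h9 : ∑ x ∈ Q, (NE G (Z.filter fun v => hm v = x) : ℤ) = 2 * ∑ x ∈ Q, eI G hm Z x := by
    rw [mul_sum]
    exact sum_congr rfl fun x _ => (two_eI (G := G) (hm := hm) Z x).symm
  have h10 : ∑ x ∈ Q, ∑ y ∈ Q.erase x, EI G hm Z x y = ∑ x ∈ Q, ∑ y ∈ Q.erase x,
      ∑ v ∈ Z.filter (fun v => hm v = y), (dg G (Z.filter fun v => hm v = x) v : ℤ) := rfl
  have h11 : ((r : ℤ) - 1) * (2 * ((Q.card : ℤ) + J.card - 1)
        * (∑ x ∈ Q, ((Z.filter fun v => hm v = x).card : ℤ) + ∑ j ∈ J, ((cz G Z T hm j).card : ℤ)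
          + ((∅ : Finset V).card : ℤ))
        - r * ((Q.card : ℤ) + J.card - 1) * (((Q.card : ℤ) + J.card - 1) + 1))
      + ∑ x ∈ Q, ∑ y ∈ Q.erase x,
        ∑ v ∈ Z.filter (fun v => hm v = y), (dg G (Z.filter fun v => hm v = x) v : ℤ)
      + ∑ j ∈ J, ∑ i ∈ J.erase j, ∑ v ∈ cz G Z T hm i, (dg G (cz G Z T hm j) v : ℤ)
      + 2 * ∑ j ∈ J, ∑ x ∈ Q, ∑ c ∈ cz G Z T hm j, (dg G (Z.filter fun v => hm v = x) c : ℤ)
      + 2 * ∑ x ∈ Q, ∑ v ∈ (∅ : Finset V), (dg G (Z.filter fun v => hm v = x) v : ℤ)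
      ≤ ∑ x ∈ Q, (NE G (Z.filter fun v => hm v = x) : ℤ) + NE G (∅ : Finset V)
        + ∑ x ∈ Q, ∑ y ∈ Q.erase x, ((Z.filter fun v => hm v = x).card : ℤ)
          * (Z.filter fun v => hm v = y).card
        + ∑ j ∈ J, ∑ i ∈ J.erase j, ((cz G Z T hm i).card : ℤ) * (cz G Z T hm j).card
        + 2 * (∑ x ∈ Q, ((Z.filter fun v => hm v = x).card : ℤ))
          * (∑ j ∈ J, ((cz G Z T hm j).card : ℤ))
        + 2 * ((∅ : Finset V).card : ℤ) * (∑ x ∈ Q, ((Z.filter fun v => hm v = x).card : ℤ))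
        + 2 * ∑ j ∈ J, ∑ v ∈ (∅ : Finset V), (nd G (cz G Z T hm j) v : ℤ) := h2
  have h12 : NE G (∅ : Finset V) = 0 := by simp [NE]
  simp only [sum_empty, sum_const_zero, card_empty, Nat.cast_zero, mul_zero, zero_mul, add_zero,
    h12] at h11
  rw [h10]
  rw [h4, h5, h6, h7, h9] at h11
  clear h2 h1 hfam hcard hs
  generalize ∑ x ∈ Q, ∑ y ∈ Q.erase x,
    ∑ v ∈ Z.filter (fun v => hm v = y), (dg G (Z.filter fun v => hm v = x) v : ℤ) = a1 at *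
  generalize ∑ j ∈ J, ∑ i ∈ J.erase j, ∑ v ∈ cz G Z T hm i, (dg G (cz G Z T hm j) v : ℤ) = a2 at *
  generalize ∑ j ∈ J, ∑ x ∈ Q, ∑ c ∈ cz G Z T hm j,
    (dg G (Z.filter fun v => hm v = x) c : ℤ) = a3 at *
  generalize ∑ x ∈ Q, sI hm r Z x ^ 2 = a4 at *
  generalize ∑ x ∈ Q, sI hm r Z x = a5 at *
  generalize ∑ x ∈ Q, eI G hm Z x = a6 at *
  generalize ∑ j ∈ J, tI G Z T hm r Z j ^ 2 = a7 at *
  generalize ∑ j ∈ J, tI G Z T hm r Z j = a8 at *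
  linarith

/-- **the same over the row indices** -/
theorem WCoreK.blkJ (hp : 2 * r ≤ p) (h : WCoreK G Z T r m n p hm)
    {host : Itm V → V} {ρ : V → ℕ} {σ : ℕ → V}
    (hpk : ∀ x ∈ T, Pk G (cz G Z T hm x) (hz G Z T hm x) (tlo G T hm) (B x) (Ps x))
    (hst : ∀ x ∈ T, ∀ u ∈ pkf (B x) (Ps x), host u = x)
    (rk : Rank T (tI G Z T hm r Z) ρ σ) {Q J : Finset ℕ} (hQ : ∀ i ∈ Q, i < n) (hJ : ∀ j ∈ J, j < n)
    (hQJ : Disjoint Q J) :
    2 * ((r : ℤ) - Q.card) * ∑ i ∈ Q, sI hm r Z (σ i)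
      + ∑ i ∈ Q, ∑ l ∈ Q.erase i, EI G hm Z (σ i) (σ l)
      + ∑ i ∈ Q, sI hm r Z (σ i) ^ 2
      + 2 * ((J.card : ℤ) - 1) * ((r : ℤ) - 1) * ∑ i ∈ Q, sI hm r Z (σ i)
      - (J.card : ℤ) * (J.card - 1) * ((r : ℤ) - 1)
      - ((∑ j ∈ J, tI G Z T hm r Z (σ j)) ^ 2 - ∑ j ∈ J, tI G Z T hm r Z (σ j) ^ 2)
      + 2 * ∑ j ∈ J, ∑ i ∈ Q, (∑ u ∈ (T.biUnion fun x => pkf (B x) (Ps x)).filter
            (fun u => ρ (host u) = i), ((ikp (tlo G T hm) (σ j) u : ℤ)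
          * ((r : ℤ) - 1 - tI G Z T hm r Z (σ j)) - (ims G (cz G Z T hm) (tlo G T hm) (σ j) u : ℤ))
        + nxk G (cz G Z T hm (σ i)) (hz G Z T hm (σ i)) (tlo G T hm) (B (σ i)) (σ j)
        + pfw G (cz G Z T hm (σ i)) (tlo G T hm) (B (σ i)) (σ j))
      ≤ 2 * ∑ i ∈ Q, eI G hm Z (σ i) + Q.card * (Q.card - 1) * r + (∑ i ∈ Q, sI hm r Z (σ i)) ^ 2
        + 2 * ((J.card : ℤ) * ((r : ℤ) - 1) - ∑ j ∈ J, tI G Z T hm r Z (σ j))
          * (Q.card + ∑ i ∈ Q, sI hm r Z (σ i)) := by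
  have hcard := h.toWHom.cardT
  have hfil : ∀ i < n, (T.biUnion fun x => pkf (B x) (Ps x)).filter (fun u => ρ (host u) = i)
      = pkf (B (σ i)) (Ps (σ i)) := fun i hi => fil_host hst rk (by rw [hcard]; exact hi)
  have hmem : ∀ i < n, σ i ∈ T := fun i hi => rk.mem i (by rw [hcard]; exact hi)
  have hinj : ∀ i < n, ∀ j < n, σ i = σ j → i = j := fun i hi j hj h1 =>
    rk.sinj (by rw [hcard]; exact hi) (by rw [hcard]; exact hj) h1
  have hc : ∀ P : Finset ℕ, (∀ i ∈ P, i < n) → (P.image σ).card = P.card := fun P hP =>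
    card_image_of_injOn fun i hi j hj h1 => hinj i (hP i hi) j (hP j hj) h1
  have hs : ∀ P : Finset ℕ, (∀ i ∈ P, i < n) → ∀ f : V → ℤ,
      ∑ x ∈ P.image σ, f x = ∑ i ∈ P, f (σ i) := fun P hP f =>
    sum_image fun i hi j hj h1 => hinj i (hP i hi) j (hP j hj) h1
  have he : ∀ i ∈ Q, (Q.image σ).erase (σ i) = (Q.erase i).image σ := by
    intro i hi
    ext x
    simp only [mem_erase, mem_image]
    constructor
    · rintro ⟨h1, l, hl, rfl⟩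
      exact ⟨l, ⟨fun h2 => h1 (h2 ▸ rfl), hl⟩, rfl⟩
    · rintro ⟨l, ⟨h1, hl⟩, rfl⟩
      exact ⟨fun h2 => h1 (hinj l (hQ l hl) i (hQ i hi) h2), l, hl, rfl⟩
  have hsub : ∀ P : Finset ℕ, (∀ i ∈ P, i < n) → P.image σ ⊆ T := by
    intro P hP x hx
    obtain ⟨i, hi, rfl⟩ := mem_image.1 hx
    exact hmem i (hP i hi)
  have hdis : Disjoint (Q.image σ) (J.image σ) := by
    rw [disjoint_left]
    intro x hx hx'
    obtain ⟨i, hi, rfl⟩ := mem_image.1 hx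
    obtain ⟨j, hj, h1⟩ := mem_image.1 hx'
    exact disjoint_left.1 hQJ hi (hinj j (hJ j hj) i (hQ i hi) h1 ▸ hj)
  have h1 := h.blkJV hp hpk (hsub Q hQ) (hsub J hJ) hdis
  have h2 : ∑ x ∈ Q.image σ, ∑ y ∈ (Q.image σ).erase x, EI G hm Z x y
      = ∑ i ∈ Q, ∑ l ∈ Q.erase i, EI G hm Z (σ i) (σ l) := by
    rw [hs Q hQ]
    refine sum_congr rfl fun i hi => ?_
    rw [he i hi, hs _ fun l hl => hQ l (mem_of_mem_erase hl)]
  have h3 : ∑ j ∈ J.image σ, ∑ x ∈ Q.image σ, (∑ u ∈ pkf (B x) (Ps x), ((ikp (tlo G T hm) j u : ℤ)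
          * ((r : ℤ) - 1 - tI G Z T hm r Z j) - ims G (cz G Z T hm) (tlo G T hm) j u)
        + nxk G (cz G Z T hm x) (hz G Z T hm x) (tlo G T hm) (B x) j
        + pfw G (cz G Z T hm x) (tlo G T hm) (B x) j)
      = ∑ j ∈ J, ∑ i ∈ Q, (∑ u ∈ (T.biUnion fun x => pkf (B x) (Ps x)).filter
            (fun u => ρ (host u) = i), ((ikp (tlo G T hm) (σ j) u : ℤ)
          * ((r : ℤ) - 1 - tI G Z T hm r Z (σ j)) - (ims G (cz G Z T hm) (tlo G T hm) (σ j) u : ℤ))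
        + nxk G (cz G Z T hm (σ i)) (hz G Z T hm (σ i)) (tlo G T hm) (B (σ i)) (σ j)
        + pfw G (cz G Z T hm (σ i)) (tlo G T hm) (B (σ i)) (σ j)) := by
    rw [hs J hJ]
    refine sum_congr rfl fun j _ => ?_
    rw [hs Q hQ]
    refine sum_congr rfl fun i hi => ?_
    rw [hfil i (hQ i hi)]
  rw [h2, h3, hc Q hQ, hc J hJ, hs Q hQ, hs Q hQ, hs Q hQ, hs J hJ, hs J hJ] at h1
  exact h1

end BlkI

end Pool.Agent.Lib.MP_f04ccf_co
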