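import Pool.Agent.Lib.MP_f04ccf_co.M.PayT
import Pool.Agent.Lib.MP_f04ccf_co.M.WNumK
import Pool.Agent.Lib.MP_f04ccf_co.M.EnP

/-!
MP_f04ccf_co, notes 16810 and 16902: LEMMA T for the packings of the whole frame with homes of least
weight (`κ ≤ β`).

* `PG.cu_fam`: `g` missing pairs of one cell and a clique of `u` further members of the cell: `g + u ≤ tx`
  and (CU) with `g` (the clique may have free misses: N-ends).
* `Pk.lemT_tail`: one host, one tail `y`: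
  `(R - tx) (both_y - 2 ∑_{B_y} (p - uin)) ≤ (ty + 1) (tx - p)⁺²`.
* `WCoreK.lemT`: one host: `both ≤ 2 ∑_B (p - uin) + (tx - p)⁺²`.
* `WCoreK.nbk_le`, `WItK.nbk_le`: `nbk ≤ 2 |B| + 2 ∑_B |frC| + (tx - p)⁺²`, `p = h - mu`.
-/

set_option autoImplicit false

namespace Pool.Agent.Lib.MP_f04ccf_co

open Finset

attribute [local instance] Classical.propDecidable

section Arith

/-- no `b` with `2 ≤ b` between: `k ≤ tx` -/
lemma cu_le {R tx ty k : ℤ} (hR : 5 ≤ R) (hD : 4 ≤ R - tx - ty) (htx : 0 ≤ tx)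
    (hk : 2 ≤ k) (h : ∀ b : ℤ, 2 ≤ b → b ≤ k → b * (R - b) ≤ R + tx * ty) : k ≤ tx := by
  by_contra hcon
  push Not at hcon
  rcases le_or_gt 1 tx with h1 | h1
  · have h2 := h (tx + 1) (by linarith) (by linarith)
    have h3 : 0 ≤ (tx - 1) * (R - tx - ty - 4) := mul_nonneg (by linarith) (by linarith)
    nlinarith
  · have h2 : tx = 0 := by linarith
    have h3 := h 2 le_rfl hk
    rw [h2] at h3
    linarith

/-- with the unpinned members -/
lemma cu_w {R tx ty k w : ℤ} (hR : 5 ≤ R) (hD : 4 ≤ R - tx - ty) (htx : 0 ≤ tx) (hty : 0 ≤ ty)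
    (hk : 2 ≤ k) (h : ∀ b : ℤ, 2 ≤ b → b ≤ k → b * (R - b) ≤ R + tx * ty)
    (hw : ty * (w - tx) + k * (R - ty - w) + (w - k) ≤ R) (hkw : k ≤ w) :
    k ≤ tx ∧ k ≤ ty ∧ w ≤ tx := by
  have h1 := cu_le hR hD htx hk h
  have h2 : k ≤ ty := cu_le (ty := tx) hR (by linarith) hty hk (fun b hb hb' => by
    have := h b hb hb'
    linarith [mul_comm tx ty])
  refine ⟨h1, h2, ?_⟩
  by_contra hcon
  push Not at hcon
  -- `j = w - tx ≥ 1`
  obtain ⟨j, hj⟩ : ∃ j, j = w - tx := ⟨_, rfl⟩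
  have hj1 : 1 ≤ j := by linarith
  obtain ⟨D, hDe⟩ : ∃ D, D = R - tx - ty := ⟨_, rfl⟩
  have hw' : w = tx + j := by linarith
  have hRe : R = D + tx + ty := by linarith
  subst hw'
  subst hRe
  have h3 : 0 ≤ (ty - k) * (j - 1) := mul_nonneg (by linarith) (by linarith)
  have h4 : 0 ≤ (k - 2) * (D - 4) := mul_nonneg (by linarith) (by linarith)
  nlinarith

/-- (CU) for the smaller number `g` of pairs -/
lemma cu_mono {R tx ty k w g : ℤ} (hD : 4 ≤ R - tx - ty) (hg : g ≤ k) (hw : w ≤ tx)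
    (h : ty * (w - tx) + k * (R - ty - w) + (w - k) ≤ R) :
    ty * (w - tx) + g * (R - ty - w) + (w - g) ≤ R := by
  have h1 : 0 ≤ (k - g) * (R - ty - w - 1) := mul_nonneg (by linarith) (by linarith)
  nlinarith

/-- **LEMMA T for one tail** -/
lemma lemT_tail {R tx ty g u p : ℤ} (hty : 0 ≤ ty) (hQ : 0 ≤ R - tx) (hg : 2 ≤ g) (hup : u ≤ p)
    (hgu : g + u ≤ tx) (hu : 0 ≤ u)
    (h : ty * (g + u - tx) + g * (R - ty - (g + u)) + (g + u - g) ≤ R) :
    (R - tx) * (g * (g - 1) - 2 * (g * (p - u))) ≤ (ty + 1) * (max 0 (tx - p)) ^ 2 := by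
  obtain ⟨a, ha⟩ : ∃ a, a = p - u := ⟨_, rfl⟩
  obtain ⟨x, hx⟩ : ∃ x, x = tx - g - u := ⟨_, rfl⟩
  obtain ⟨Q, hQe⟩ : ∃ Q, Q = R - tx := ⟨_, rfl⟩
  have ha0 : 0 ≤ a := by linarith
  have hx0 : 0 ≤ x := by linarith
  rw [← ha, ← hQe]
  rw [← hQe] at hQ
  have hR0 : 0 ≤ (ty + 1) * (max 0 (tx - p)) ^ 2 := mul_nonneg (by linarith) (sq_nonneg _)
  rcases le_or_gt (g - 1) (2 * a) with h1 | h1
  · have h2 : g * (g - 1) - 2 * (g * a) ≤ 0 := by
      have : 0 ≤ g * (2 * a - (g - 1)) := mul_nonneg (by linarith) (by linarith)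
      linarith
    have h3 : 0 ≤ Q * (-(g * (g - 1) - 2 * (g * a))) := mul_nonneg hQ (by linarith)
    linarith
  · have h2 : tx - p = g + x - a := by linarith
    have h3 : max 0 (tx - p) = g + x - a := by
      rw [h2]
      exact max_eq_right (by linarith)
    rw [h3]
    have hRe : R = Q + tx := by linarith
    have htx : tx = g + u + x := by linarith
    rw [hRe, htx] at h
    have h4 : (g - 1) * Q ≤ (ty + 1) * (g + x) := by
      have h5 : 0 ≤ (g - 1) * x := mul_nonneg (by linarith) hx0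
      have h6 : 0 ≤ u * 1 := by linarith
      nlinarith
    have h5 : 0 ≤ g - 2 * a := by linarith
    have h6 : ((g - 1) * Q) * (g - 2 * a) ≤ ((ty + 1) * (g + x)) * (g - 2 * a) :=
      mul_le_mul_of_nonneg_right h4 h5
    have h7 : Q * (g * (g - 1) - 2 * (g * a)) ≤ ((g - 1) * Q) * (g - 2 * a) := by
      have : 0 ≤ Q * a := mul_nonneg hQ ha0
      nlinarith
    have h8 : (ty + 1) * ((g + x) * (g - 2 * a)) ≤ (ty + 1) * (g + x - a) ^ 2 := by
      refine mul_le_mul_of_nonneg_left ?_ (by linarith)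
      have h9 : 0 ≤ (g + x) * x := mul_nonneg (by linarith) hx0
      nlinarith [sq_nonneg a]
    linarith [mul_assoc (ty + 1) (g + x) (g - 2 * a)]

end Arith

section Gen

variable {V : Type*} {G : SimpleGraph V} {r : ℕ}

/-- missing pairs can be extended until the members outside miss only points of the pairs -/
lemma exists_ext {X C : Finset V} {K0 : Finset (V × V)} (a1 : ∀ e ∈ K0, e.1 ∈ X)
    (a2 : ∀ e ∈ K0, e.2 ∈ C) (a3 : ∀ e ∈ K0, ¬ G.Adj e.1 e.2)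
    (i1 : ∀ e ∈ K0, ∀ f ∈ K0, e.1 = f.1 → e = f) (i2 : ∀ e ∈ K0, ∀ f ∈ K0, e.2 = f.2 → e = f) :
    ∃ K : Finset (V × V), K0 ⊆ K ∧ (∀ e ∈ K, e.1 ∈ X) ∧ (∀ e ∈ K, e.2 ∈ C) ∧
      (∀ e ∈ K, ¬ G.Adj e.1 e.2) ∧ (∀ e ∈ K, ∀ f ∈ K, e.1 = f.1 → e = f) ∧
      (∀ e ∈ K, ∀ f ∈ K, e.2 = f.2 → e = f) ∧
      ∀ v ∈ X \ K.image Prod.fst, ∀ a ∈ C, ¬ G.Adj v a → ∃ e ∈ K, e.2 = a := by
  set F : Finset (Finset (V × V)) := (X ×ˢ C).powerset.filter fun K => K0 ⊆ K ∧
    (∀ e ∈ K, ¬ G.Adj e.1 e.2) ∧ (∀ e ∈ K, ∀ f ∈ K, e.1 = f.1 → e = f) ∧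
    (∀ e ∈ K, ∀ f ∈ K, e.2 = f.2 → e = f) with hF
  have h0 : K0 ∈ F := by
    rw [hF, mem_filter, mem_powerset]
    exact ⟨fun e he => mem_product.2 ⟨a1 e he, a2 e he⟩, Subset.rfl, a3, i1, i2⟩
  obtain ⟨K, hK, hmax⟩ := exists_max_image F (fun K => K.card) ⟨K0, h0⟩
  obtain ⟨h1, h2, h3, h4, h5⟩ := mem_filter.1 hK
  rw [mem_powerset] at h1
  refine ⟨K, h2, fun e he => (mem_product.1 (h1 he)).1, fun e he => (mem_product.1 (h1 he)).2,
    h3, h4, h5, fun v hv a ha hva => ?_⟩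
  by_contra hcon
  push Not at hcon
  obtain ⟨hvX, hvK⟩ := mem_sdiff.1 hv
  have hvK' : ∀ e ∈ K, e.1 ≠ v := fun e he h => hvK (h ▸ mem_image_of_mem _ he)
  have h6 : insert (v, a) K ∈ F := by
    rw [hF, mem_filter, mem_powerset]
    refine ⟨insert_subset (mem_product.2 ⟨hvX, ha⟩) h1, h2.trans (subset_insert _ _), ?_, ?_, ?_⟩
    · intro e he
      rcases mem_insert.1 he with rfl | he
      · exact hva
      · exact h3 e he
    · intro e he f hf hef
      rcases mem_insert.1 he with rfl | he <;> rcases mem_insert.1 hf with rfl | hf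
      · rfl
      · exact absurd hef.symm (hvK' f hf)
      · exact absurd hef (hvK' e he)
      · exact h4 e he f hf hef
    · intro e he f hf hef
      rcases mem_insert.1 he with rfl | he <;> rcases mem_insert.1 hf with rfl | hf
      · rfl
      · exact absurd hef.symm (hcon f hf)
      · exact absurd hef (hcon e he)
      · exact h5 e he f hf hef
  have h7 := hmax _ h6
  have h8 : (v, a) ∉ K := fun h => hvK' _ h rfl
  rw [card_insert_of_notMem h8] at h7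
  omega

/-- **(CU) for missing pairs and a clique of further members** of one cell -/
theorem PG.cu_fam (hP : PG G r) {Cx Cy X : Finset V} (hx : Clq G Cx) (hy : Clq G Cy)
    (dxy : Disjoint Cx Cy) (dxX : Disjoint Cx X) (dyX : Disjoint Cy X)
    (hr : ∀ w ∈ X, ∀ a ∈ Cx, ∀ c ∈ Cy, ¬ G.Adj w a → ¬ G.Adj w c → G.Adj a c)
    (hcx : ∀ w ∈ X, ∀ w' ∈ X, w ≠ w' → ∀ a ∈ Cx, ¬ G.Adj w a → ¬ G.Adj w' a → G.Adj w w')
    (hcy : ∀ w ∈ X, ∀ w' ∈ X, w ≠ w' → ∀ c ∈ Cy, ¬ G.Adj w c → ¬ G.Adj w' c → G.Adj w w')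
    (hle : ∀ v ∈ X, (msC G Cx v).card ≤ (msC G Cy v).card)
    {y0 : V} (hy0 : y0 ∈ Cy) (hyX : ∀ w ∈ X, G.Adj y0 w)
    {K0 : Finset (V × V)} (a1 : ∀ e ∈ K0, e.1 ∈ X) (a2 : ∀ e ∈ K0, e.2 ∈ Cx)
    (a3 : ∀ e ∈ K0, ¬ G.Adj e.1 e.2)
    (i1 : ∀ e ∈ K0, ∀ f ∈ K0, e.1 = f.1 → e = f) (i2 : ∀ e ∈ K0, ∀ f ∈ K0, e.2 = f.2 → e = f)
    {U : Finset V} (hUX : U ⊆ X) (hUK : ∀ e ∈ K0, e.1 ∉ U) (hU : Clq G U)
    {R tx ty : ℤ} (hR : R = (r : ℤ) - 1) (htx : tx = R - Cx.card) (hty : ty = R - Cy.card)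
    (hR5 : 5 ≤ R) (hD : 4 ≤ R - tx - ty) (ht0 : 0 ≤ tx) (ht1 : 0 ≤ ty) (hg : 2 ≤ K0.card) :
    (K0.card : ℤ) + U.card ≤ tx ∧
      ty * ((K0.card : ℤ) + U.card - tx) + K0.card * (R - ty - (K0.card + U.card))
        + ((K0.card : ℤ) + U.card - K0.card) ≤ R := by
  have hc1 : (Cx.card : ℤ) = R - tx := by linarith
  have hc2 : (Cy.card : ℤ) = R - ty := by linarith
  set W : Finset V := K0.image Prod.fst ∪ U with hW
  have hWX : W ⊆ X := by
    refine union_subset (fun v hv => ?_) hUX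
    obtain ⟨e, he, rfl⟩ := mem_image.1 hv
    exact a1 e he
  have hWc : W.card = K0.card + U.card := by
    rw [hW, card_union_of_disjoint, card_image_of_injOn fun e he f hf hef =>
      i1 e (by exact_mod_cast he) f (by exact_mod_cast hf) hef]
    rw [disjoint_left]
    intro v hv
    obtain ⟨e, he, rfl⟩ := mem_image.1 hv
    exact hUK e he
  obtain ⟨K, hK0, k1, k2, k3, j1, j2, hUf⟩ := exists_ext (G := G) (X := W) (C := Cx) (K0 := K0)
    (fun e he => mem_union_left _ (mem_image_of_mem _ he)) a2 a3 i1 i2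
  have hgk : K0.card ≤ K.card := card_le_card hK0
  have hkw : K.card ≤ W.card := by
    have h1 : (K.image Prod.fst).card = K.card := card_image_of_injOn fun e he f hf hef =>
      j1 e (by exact_mod_cast he) f (by exact_mod_cast hf) hef
    rw [← h1]
    refine card_le_card fun v hv => ?_
    obtain ⟨e, he, rfl⟩ := mem_image.1 hv
    exact k1 e he
  -- the whole family
  have h1 := hP.cu hx hy dxy (dxX.mono_right hWX) (dyX.mono_right hWX) k1 k2 k3 j1 j2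
    (fun w hw => hr w (hWX hw)) (fun w hw w' hw' => hcx w (hWX hw) w' (hWX hw'))
    (fun w hw w' hw' => hcy w (hWX hw) w' (hWX hw')) (fun e he => hle e.1 (hWX (k1 e he)))
    (fun v hv w hw hvw => by
      have h2 : ∀ v ∈ W \ K.image Prod.fst, v ∈ U := by
        intro v hv
        obtain ⟨h3, h4⟩ := mem_sdiff.1 hv
        rcases mem_union.1 h3 with h5 | h5
        · exact absurd (image_subset_image hK0 h5) h4
        · exact h5
      exact hU v (h2 v hv) w (h2 w hw) hvw) hUf hy0 (fun w hw => hyX w (hWX hw))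
  -- the subfamilies
  have h2 : ∀ b : ℤ, 2 ≤ b → b ≤ K.card → b * (R - b) ≤ R + tx * ty := by
    intro b hb hb'
    obtain ⟨c, rfl⟩ : ∃ c : ℕ, b = c := ⟨b.toNat, by omega⟩
    obtain ⟨L, hL, hLc⟩ := exists_subset_card_eq (show c ≤ K.card by exact_mod_cast hb')
    have hLX : L.image Prod.fst ⊆ X := by
      intro v hv
      obtain ⟨e, he, rfl⟩ := mem_image.1 hv
      exact hWX (k1 e (hL he))
    have hLi : (L.image Prod.fst).card = c := by
      rw [← hLc]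
      exact card_image_of_injOn fun e he f hf hef =>
        j1 e (hL (by exact_mod_cast he)) f (hL (by exact_mod_cast hf)) hef
    have h3 := hP.cu (W := L.image Prod.fst) (K := L) hx hy dxy (dxX.mono_right hLX)
      (dyX.mono_right hLX) (fun e he => mem_image_of_mem _ he) (fun e he => k2 e (hL he))
      (fun e he => k3 e (hL he)) (fun e he f hf => j1 e (hL he) f (hL hf))
      (fun e he f hf => j2 e (hL he) f (hL hf)) (fun w hw => hr w (hLX hw))
      (fun w hw w' hw' => hcx w (hLX hw) w' (hLX hw'))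
      (fun w hw w' hw' => hcy w (hLX hw) w' (hLX hw'))
      (fun e he => hle e.1 (hWX (k1 e (hL he))))
      (fun v hv => by
        rw [sdiff_self] at hv
        exact absurd hv (notMem_empty v))
      (fun v hv => by
        rw [sdiff_self] at hv
        exact absurd hv (notMem_empty v)) hy0 (fun w hw => hyX w (hLX hw))
    rw [hLi, hLc, hc1, hc2, ← hR] at h3
    linarith
  rw [hc1, hc2, ← hR] at h1
  have h1' : ty * ((W.card : ℤ) - tx) + (K.card : ℤ) * (R - ty - W.card)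
      + ((W.card : ℤ) - K.card) ≤ R := by linarith
  have h3 := cu_w hR5 hD ht0 ht1 (by exact_mod_cast hg.trans hgk) h2 h1' (by exact_mod_cast hkw)
  have h4 := cu_mono hD (g := (K0.card : ℤ)) (by exact_mod_cast hgk) h3.2.2 h1'
  rw [hWc] at h3 h4
  push_cast at h3 h4
  exact ⟨h3.2.2, h4⟩

end Gen

section Tail

variable {ι V : Type*} {G : SimpleGraph V} {C H : Finset V} {tl : V → ι}
  {B : Finset (V × V)} {Ps : Finset (Finset V)} {r : ℕ}

/-- **LEMMA T, one host and one tail** -/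
theorem Pk.lemT_tail (h : Pk G C H tl B Ps) (h32 : ∀ v ∈ H, ∀ w ∈ H, ∀ a ∈ C, v ≠ w →
      tl v = tl w → ¬ G.Adj v a → ¬ G.Adj w a → G.Adj v w) (hP : PG G r) (hx : Clq G C)
    {y : ι} {Cy : Finset V} (hy : Clq G Cy) (dxy : Disjoint C Cy) (dx : Disjoint C H)
    (dy : Disjoint Cy H)
    (hr : ∀ w ∈ H, tl w = y → ∀ a ∈ C, ∀ c ∈ Cy, ¬ G.Adj w a → ¬ G.Adj w c → G.Adj a c)
    (hcy : ∀ w ∈ H, ∀ w' ∈ H, tl w = y → tl w' = y → w ≠ w' → ∀ c ∈ Cy,
      ¬ G.Adj w c → ¬ G.Adj w' c → G.Adj w w')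
    (hle : ∀ v ∈ H, tl v = y → (msC G C v).card ≤ (msC G Cy v).card)
    {y0 : V} (hy0 : y0 ∈ Cy) (hyX : ∀ w ∈ H, tl w = y → G.Adj y0 w)
    {R tx ty : ℤ} (hR : R = (r : ℤ) - 1) (htx : tx = R - C.card) (hty : ty = R - Cy.card)
    (hR5 : 5 ≤ R) (hD : 4 ≤ R - tx - ty) (ht0 : 0 ≤ tx) (ht1 : 0 ≤ ty) :
    (R - tx) * ((bothB G tl (btl tl B y) : ℤ)
      - 2 * ∑ e ∈ btl tl B y, ((Ps.card - uin G tl (H \ B.image Prod.fst) e : ℕ) : ℤ))
      ≤ (ty + 1) * (max 0 (tx - Ps.card)) ^ 2 := by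
  have hR0 : 0 ≤ (ty + 1) * (max 0 (tx - (Ps.card : ℤ))) ^ 2 :=
    mul_nonneg (by linarith) (sq_nonneg _)
  have hQ : 0 ≤ R - tx := by linarith
  have hS0 : 0 ≤ ∑ e ∈ btl tl B y, ((Ps.card - uin G tl (H \ B.image Prod.fst) e : ℕ) : ℤ) :=
    sum_nonneg fun e _ => Nat.cast_nonneg _
  have hb := bothB_le (G := G) (tl := tl) (btl tl B y)
  rcases Nat.lt_or_ge 1 (btl tl B y).card with hg | hg
  swap
  · have h1 : (bothB G tl (btl tl B y) : ℤ) ≤ 0 := by
      have h2 : ((btl tl B y).card : ℤ) ≤ 1 := by exact_mod_cast hg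
      have h3 : (0 : ℤ) ≤ (btl tl B y).card := Nat.cast_nonneg _
      nlinarith
    have h2 : 0 ≤ (R - tx) * (-((bothB G tl (btl tl B y) : ℤ)
      - 2 * ∑ e ∈ btl tl B y, ((Ps.card - uin G tl (H \ B.image Prod.fst) e : ℕ) : ℤ))) :=
      mul_nonneg hQ (by linarith)
    linarith
  -- one pair
  have key : ∀ e ∈ btl tl B y, (R - tx) * (((btl tl B y).card : ℤ) * ((btl tl B y).card - 1)
      - 2 * (((btl tl B y).card : ℤ)
        * ((Ps.card : ℤ) - uin G tl (H \ B.image Prod.fst) e)))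
      ≤ (ty + 1) * (max 0 (tx - Ps.card)) ^ 2 := by
    intro e he
    obtain ⟨heB, hey⟩ := mem_btl.1 he
    have hU : ∀ v ∈ (H \ B.image Prod.fst).filter (fun v => tl v = tl e.1 ∧ ¬ G.Adj v e.2),
        v ∈ H.filter fun v => tl v = y := by
      intro v hv
      obtain ⟨h1, h2, -⟩ := mem_filter.1 hv
      exact mem_filter.2 ⟨(mem_sdiff.1 h1).1, h2.trans hey⟩
    have hX : H.filter (fun v => tl v = y) ⊆ H := filter_subset _ _
    have h1 := hP.cu_fam (X := H.filter fun v => tl v = y) (K0 := btl tl B y)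
      (U := (H \ B.image Prod.fst).filter (fun v => tl v = tl e.1 ∧ ¬ G.Adj v e.2)) hx hy dxy
      (dx.mono_right hX) (dy.mono_right hX)
      (fun w hw => hr w (mem_filter.1 hw).1 (mem_filter.1 hw).2)
      (fun w hw w' hw' hne a ha => h32 w (mem_filter.1 hw).1 w' (mem_filter.1 hw').1 a ha hne
        ((mem_filter.1 hw).2.trans (mem_filter.1 hw').2.symm))
      (fun w hw w' hw' => hcy w (mem_filter.1 hw).1 w' (mem_filter.1 hw').1
        (mem_filter.1 hw).2 (mem_filter.1 hw').2)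
      (fun v hv => hle v (mem_filter.1 hv).1 (mem_filter.1 hv).2) hy0
      (fun w hw => hyX w (mem_filter.1 hw).1 (mem_filter.1 hw).2)
      (fun f hf => mem_filter.2 ⟨h.bH f (mem_btl.1 hf).1, (mem_btl.1 hf).2⟩)
      (fun f hf => h.bC f (mem_btl.1 hf).1) (fun f hf => h.bN f (mem_btl.1 hf).1)
      (fun f hf g hg' => h.b1 f (mem_btl.1 hf).1 g (mem_btl.1 hg').1)
      (fun f hf g hg' hfg => h.b2 f (mem_btl.1 hf).1 g (mem_btl.1 hg').1 hfg
        ((mem_btl.1 hf).2.trans (mem_btl.1 hg').2.symm)) hU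
      (fun f hf hfU => (mem_sdiff.1 (mem_filter.1 hfU).1).2
        (mem_image_of_mem _ (mem_btl.1 hf).1))
      (fun v hv w hw hvw => h.uin_clq h32 heB hv hw hvw) hR htx hty hR5 hD ht0 ht1 hg
    have h2 := h.uin_le_card h32 heB
    exact Pool.Agent.Lib.MP_f04ccf_co.lemT_tail ht1 hQ (by exact_mod_cast hg)
      (by exact_mod_cast h2) h1.1 (Nat.cast_nonneg _) h1.2
  have h1 := sum_le_sum key
  rw [← mul_sum, sum_sub_distrib, sum_const, sum_const, nsmul_eq_mul, nsmul_eq_mul, ← mul_sum,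
    ← mul_sum] at h1
  have h2 : ∑ e ∈ btl tl B y, ((Ps.card : ℤ) - uin G tl (H \ B.image Prod.fst) e)
      = ∑ e ∈ btl tl B y, ((Ps.card - uin G tl (H \ B.image Prod.fst) e : ℕ) : ℤ) := by
    refine sum_congr rfl fun e he => ?_
    have h3 := h.uin_le_card h32 (mem_btl.1 he).1
    push_cast [Nat.cast_sub h3]
    rfl
  rw [h2] at h1
  set g : ℤ := ((btl tl B y).card : ℤ) with hgd
  set S : ℤ := ∑ e ∈ btl tl B y, ((Ps.card - uin G tl (H \ B.image Prod.fst) e : ℕ) : ℤ) with hSd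
  have hg0 : 0 < g := by
    have h3 : (1 : ℤ) < g := by
      rw [hgd]
      exact_mod_cast hg
    linarith
  have h3 : (R - tx) * (g * (g - 1) - 2 * S) ≤ (ty + 1) * (max 0 (tx - (Ps.card : ℤ))) ^ 2 := by
    have h4 : g * ((R - tx) * (g * (g - 1) - 2 * S))
        ≤ g * ((ty + 1) * (max 0 (tx - (Ps.card : ℤ))) ^ 2) := by
      linarith
    exact le_of_mul_le_mul_left h4 hg0
  have h4 : 0 ≤ (R - tx) * (g * (g - 1) - bothB G tl (btl tl B y)) :=
    mul_nonneg hQ (by linarith)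
  linarith

end Tail

section Frame

variable {V : Type*} {G : SimpleGraph V} {Z T : Finset V} {hm : V → V} {r m n p : ℕ}
  {φ : Finset (V × V) → Finset (Finset V) → ℕ}

/-- **LEMMA T, one host** -/
theorem WCoreK.lemT (hp : 2 * r ≤ p) (h : WCoreK G Z T r m n p hm) {x : V} (hx : x ∈ T)
    {Q : Finset (V × V)} {Ps : Finset (Finset V)}
    (hQ : Pk G (cz G Z T hm x) (hz G Z T hm x) (tlo G T hm) Q Ps) :
    (bothB G (tlo G T hm) Q : ℤ)
      ≤ 2 * ∑ e ∈ Q, ((Ps.card - Pk.uin G (tlo G T hm) (hz G Z T hm x \ Q.image Prod.fst) e : ℕ) : ℤ)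
        + (max 0 (tI G Z T hm r Z x - Ps.card)) ^ 2 := by
  have hF := h.F.toPFrame
  have hC := h.csys
  have h0 : ∀ y ∈ T, 0 ≤ tI G Z T hm r Z y := fun y hy => h.hsys.tI_nonneg h.F h.ok hy
  have hmass : ∑ y ∈ T, tI G Z T hm r Z y ≤ (r : ℤ) - 1 - n := by
    have h1 := h.hsys.sum_tI hF h.ok (by rw [h.cardT]; exact h.cardZ)
    rw [h.cardT] at h1
    have h2 := h.bb.2
    have h3 : ((BB G Z T).card : ℤ) ≤ r := by exact_mod_cast h2
    linarith
  have hn : (5 : ℤ) ≤ n := by exact_mod_cast h.five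
  have hsum : tI G Z T hm r Z x + ∑ y ∈ T.erase x, tI G Z T hm r Z y
      = ∑ y ∈ T, tI G Z T hm r Z y := add_sum_erase _ _ hx
  have hR5 : (5 : ℤ) ≤ (r : ℤ) - 1 := by
    have h1 : 0 ≤ ∑ y ∈ T, tI G Z T hm r Z y := sum_nonneg h0
    linarith
  have htail : ∀ v ∈ hz G Z T hm x, tlo G T hm v ∈ T.erase x := fun v hv =>
    h.toWHom.ht x hx v hv
  have h32 := hC.h32 hF h.hh h.toWHom.ht hx
  have hself : ∀ y ∈ T, y ∈ cz G Z T hm y := by
    intro y hy
    refine hC.ctr_CP hF (fun y hy => ?_) hy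
    have h1 := (h.ok y (hF.sub hy)).2
    rw [rws_of_mem hy, mem_singleton] at h1
    exact mem_filter.2 ⟨hF.sub hy, h1⟩
  have key : ∀ y ∈ T.erase x, ((r : ℤ) - 1 - tI G Z T hm r Z x)
      * ((bothB G (tlo G T hm) (btl (tlo G T hm) Q y) : ℤ)
        - 2 * ∑ e ∈ btl (tlo G T hm) Q y,
          ((Ps.card - Pk.uin G (tlo G T hm) (hz G Z T hm x \ Q.image Prod.fst) e : ℕ) : ℤ))
      ≤ (tI G Z T hm r Z y + 1) * (max 0 (tI G Z T hm r Z x - Ps.card)) ^ 2 := by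
    intro y hy
    obtain ⟨hyx, hyT⟩ := mem_erase.1 hy
    have hcell := hC.cellD hF hx hyT hyx.symm
    have hD : tI G Z T hm r Z x + tI G Z T hm r Z y ≤ ∑ y ∈ T, tI G Z T hm r Z y := by
      rw [← hsum]
      have h1 := single_le_sum (f := fun y => tI G Z T hm r Z y)
        (fun z hz' => h0 z (mem_of_mem_erase hz')) hy
      linarith
    refine hQ.lemT_tail h32 h.gp.P (hC.CP_clq hF hx) (Cy := cz G Z T hm y)
      (hC.CP_clq hF hyT) (h.wsysT.dCC x hx y hyT hyx.symm) (hC.dCH hx hx) (hC.dCH hyT hx)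
      (fun w hw hwy => hcell.rect w (hC.mem_Dbl_of_tlo h.hh hx hw hwy))
      (fun w hw w' hw' hwy hwy' => hcell.comD w (hC.mem_Dbl_of_tlo h.hh hx hw hwy) w'
        (hC.mem_Dbl_of_tlo h.hh hx hw' hwy')) (fun v hv hvy => ?_) (hself y hyT)
      (fun w hw hwy => ?_) rfl ?_ ?_ hR5 (by linarith) (h0 x hx) (h0 y hyT)
    · have h1 : v ∈ Z.filter fun v => hm v = x := (mem_HP.1 hv).1
      obtain ⟨h2, h3⟩ := mem_filter.1 h1
      have h4 := hC.ends_of_tlo h.hh hx hv hvy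
      have h5 : y ∈ rws G T v := by
        rw [rws_BB (h.hsys.HP_BB hF h.ok hv), h4.2]
        simp
      have h6 := h.H.kap_plain hF h.hmr hp h.hsys h2 h3 hyT hyx h5
      have h7 : ∀ D : Finset V, v ∉ D → nd G D v = (msC G D v).card := by
        intro D hD'
        unfold nd msC
        congr 1
        ext a
        rw [mem_filter, mem_filter]
        exact ⟨fun h => ⟨h.1, h.2.2⟩, fun h => ⟨h.1, fun h' => hD' (h' ▸ h.1), h.2⟩⟩
      rw [h7 _ fun h8 => disjoint_left.1 (hC.dCH hx hx) h8 hv,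
        h7 _ fun h8 => disjoint_left.1 (hC.dCH hyT hx) h8 hv] at h6
      exact h6
    · have h4 := hC.ends_of_tlo h.hh hx hw hwy
      have h5 : y ∈ rws G T w := by
        rw [rws_BB (h.hsys.HP_BB hF h.ok hw), h4.2]
        simp
      rcases (mem_rws.1 h5).2 with h6 | h6
      · exact absurd (h6 ▸ hself y hyT) fun h8 => disjoint_left.1 (hC.dCH hyT hx) h8 hw
      · exact h6.2.symm
    · unfold tI
      ring
    · unfold tI
      ring
  have h1 := sum_le_sum key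
  rw [← mul_sum, sum_sub_distrib, ← mul_sum, ← sum_mul, sum_add_distrib, sum_const,
    nsmul_eq_mul, mul_one] at h1
  have hQt : ∀ e ∈ Q, tlo G T hm e.1 ∈ T.erase x := fun e he => htail _ (hQ.bH e he)
  have h2 : (bothB G (tlo G T hm) Q : ℤ)
      = ∑ y ∈ T.erase x, (bothB G (tlo G T hm) (btl (tlo G T hm) Q y) : ℤ) := by
    exact_mod_cast bothB_tail (G := G) (T.erase x) hQt
  have h3 := sum_B_tail (T.erase x) hQt (fun e =>
    ((Ps.card - Pk.uin G (tlo G T hm) (hz G Z T hm x \ Q.image Prod.fst) e : ℕ) : ℤ))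
  rw [← h2, ← h3] at h1
  have hcard : ((T.erase x).card : ℤ) = n - 1 := by
    rw [card_erase_of_mem hx, h.cardT]
    have := h.five
    push_cast [Nat.cast_sub (show 1 ≤ n by omega)]
    ring
  rw [hcard] at h1
  set τ : ℤ := (max 0 (tI G Z T hm r Z x - Ps.card)) ^ 2 with hτ
  have hτ0 : 0 ≤ τ := sq_nonneg _
  set b : ℤ := (bothB G (tlo G T hm) Q : ℤ)
    - 2 * ∑ e ∈ Q, ((Ps.card - Pk.uin G (tlo G T hm) (hz G Z T hm x \ Q.image Prod.fst) e : ℕ) : ℤ)
    with hb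
  set M : ℤ := ∑ y ∈ T.erase x, tI G Z T hm r Z y with hM
  have h4 : 0 < (r : ℤ) - 1 - tI G Z T hm r Z x := by
    have h5 : 0 ≤ M := sum_nonneg fun z hz' => h0 z (mem_of_mem_erase hz')
    linarith
  have h5 : (M + (n - 1)) * τ ≤ ((r : ℤ) - 1 - tI G Z T hm r Z x) * τ :=
    mul_le_mul_of_nonneg_right (by linarith) hτ0
  have h6 : ((r : ℤ) - 1 - tI G Z T hm r Z x) * b ≤ ((r : ℤ) - 1 - tI G Z T hm r Z x) * τ :=
    h1.trans h5
  have h7 := le_of_mul_le_mul_left h6 h4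
  linarith

/-- **the unpaid excess of a host**: PC pairs, their free arcs and a square -/
theorem WCoreK.nbk_le (hp : 2 * r ≤ p) (h : WCoreK G Z T r m n p hm) {x : V} (hx : x ∈ T)
    {Q : Finset (V × V)} {Ps : Finset (Finset V)}
    (hQ : Pk G (cz G Z T hm x) (hz G Z T hm x) (tlo G T hm) Q Ps) :
    nbk G (cz G Z T hm x) (hz G Z T hm x) (tlo G T hm) Q Ps
      ≤ 2 * (Q.card : ℤ) + 2 * ∑ e ∈ Q, ((frC G (cz G Z T hm x) (tlo G T hm) Q e.1).card : ℤ)
        + (max 0 (tI G Z T hm r Z x - Ps.card)) ^ 2 := by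
  have h1 := h.lemT hp hx hQ
  unfold nbk
  rw [sum_add_distrib, sum_const, nsmul_eq_mul, mul_one]
  linarith

/-- the same over the integers of `WItK` -/
theorem WItK.nbk_le (hp : 2 * r ≤ p) (h : WCoreK G Z T r m n p hm) {B : V → Finset (V × V)}
    {Ps : V → Finset (Finset V)} {host : Itm V → V} {ρ : V → ℕ} {σ : ℕ → V}
    (hw : WItK G Z T hm r n φ B Ps host ρ σ) {i : ℕ} (hi : i < n) :
    nbk G (cz G Z T hm (σ i)) (hz G Z T hm (σ i)) (tlo G T hm) (B (σ i)) (Ps (σ i))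
      ≤ 2 * ((B (σ i)).card : ℤ)
        + 2 * ∑ e ∈ B (σ i), ((frC G (cz G Z T hm (σ i)) (tlo G T hm) (B (σ i)) e.1).card : ℤ)
        + (max 0 (tI G Z T hm r Z (σ i)
          - (hI G Z T hm Z (σ i) - ∑ u ∈ pkf (B (σ i)) (Ps (σ i)), (ivl u : ℤ)))) ^ 2 := by
  have hx : σ i ∈ T := hw.rk.mem i (by rw [hw.cT]; exact hi)
  have h1 := h.nbk_le hp hx (hw.pk _ hx).toPk
  have h2 := (hw.pk _ hx).toPk.sum_ivl
  have h3 : hI G Z T hm Z (σ i) = ((hz G Z T hm (σ i)).card : ℤ) := rfl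
  have h4 : ∑ u ∈ pkf (B (σ i)) (Ps (σ i)), (ivl u : ℤ) + (Ps (σ i)).card
      = ((hz G Z T hm (σ i)).card : ℤ) := by exact_mod_cast h2
  have h5 : hI G Z T hm Z (σ i) - ∑ u ∈ pkf (B (σ i)) (Ps (σ i)), (ivl u : ℤ)
      = (Ps (σ i)).card := by linarith
  rw [h5]
  exact h1

end Frame

end Pool.Agent.Lib.MP_f04ccf_co
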