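import Pool.Agent.Lib.MP_f04ccf_co.M.Row3
import Pool.Agent.Lib.MP_f04ccf_co.M.RowCol

/-!
MP_f04ccf_co, notes 16946 (e), 17039 (2): the row test with third points over the basic integers
(`Fam.row3I`).  The third point of an item of `K3` is a column of the row `y u` which misses the item;
there are enough of them if the number of items of `K3` with the same row and the number of PC pairs of
`K` hosted there together are at most the misses of the item at `y u`.
-/

set_option autoImplicit false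

namespace Pool.Agent.Lib.MP_f04ccf_co

open Finset

attribute [local instance] Classical.propDecidable

section Choice

/-- large sets have different representatives -/
lemma exists_inj_choice {α β : Type*} [Inhabited β] (K : Finset α) (f : α → Finset β)
    (h : ∀ a ∈ K, K.card ≤ (f a).card) :
    ∃ q : α → β, (∀ a ∈ K, q a ∈ f a) ∧ ∀ a ∈ K, ∀ b ∈ K, q a = q b → a = b := by
  induction K using Finset.induction_on with
  | empty => exact ⟨fun _ => default, fun a ha => absurd ha (notMem_empty a),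
      fun a ha => absurd ha (notMem_empty a)⟩
  | insert a K ha ih =>
    obtain ⟨q, hq1, hq2⟩ := ih fun b hb => by
      have h1 := h b (mem_insert_of_mem hb)
      rw [card_insert_of_notMem ha] at h1
      omega
    have h1 := h a (mem_insert_self a K)
    rw [card_insert_of_notMem ha] at h1
    have h2 : (f a \ K.image q).Nonempty := by
      rw [← card_pos]
      have h3 := le_card_sdiff (K.image q) (f a)
      have h4 : (K.image q).card ≤ K.card := card_image_le
      omega
    obtain ⟨b, hb⟩ := h2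
    obtain ⟨hb1, hb2⟩ := mem_sdiff.1 hb
    refine ⟨fun x => if x = a then b else q x, fun x hx => ?_, fun x hx y hy hxy => ?_⟩
    · by_cases hxa : x = a
      · simp only [hxa, if_true]
        exact hb1
      · simp only [hxa, if_false]
        exact hq1 x ((mem_insert.1 hx).resolve_left hxa)
    · by_cases hxa : x = a <;> by_cases hya : y = a
      · rw [hxa, hya]
      · simp only [hxa, if_true, hya, if_false] at hxy
        exact absurd (hxy ▸ mem_image_of_mem q ((mem_insert.1 hy).resolve_left hya)) hb2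
      · simp only [hxa, if_false, hya, if_true] at hxy
        exact absurd (hxy ▸ mem_image_of_mem q ((mem_insert.1 hx).resolve_left hxa)) hb2
      · simp only [hxa, hya, if_false] at hxy
        exact hq2 x ((mem_insert.1 hx).resolve_left hxa) y ((mem_insert.1 hy).resolve_left hya) hxy

end Choice

section Row3I

variable {V : Type*} {G : SimpleGraph V} {Z T : Finset V} {hm : V → V} {r m t : ℕ}
  {A : Finset V} {S : V → Finset V} {U : V → Finset (Itm V)}

/-- **(row) with third points, counted** -/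
theorem Fam.row3N (hP : PG G r) (hC : CSys G Z T hm A S)
    (hW : WSysT G (co G) A (CP G Z T S) (HP G Z T S) (tlo G T hm))
    (h : ∀ x ∈ A, Fam (co G) (CP G Z T S) (HP G Z T S) (tlo G T hm) x (U x))
    {z : V} (hz : z ∈ A) {K K3 : Finset (Itm V)} (hK : K ⊆ (A.erase z).biUnion U)
    (hk : ∀ u ∈ K, ikp (tlo G T hm) z u ≠ 0) (hK3 : K3 ⊆ K)
    {y : Itm V → V} (hy : ∀ u ∈ K3, y u ∈ A.erase z)
    (hn : ∀ u ∈ K3, (K3.filter fun v => y v = y u).card
      + (∑ v ∈ K.filter (fun v => v ∈ U (y u)), ipc v)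
      ≤ ims G (CP G Z T S) (tlo G T hm) (y u) u)
    (h0 : 0 ≤ ((S z).card : ℤ) - r + ∑ u ∈ K, (ikp (tlo G T hm) z u : ℤ)) :
    2 * ((r : ℤ) - 1) * (((S z).card : ℤ) - r)
      + 2 * (∑ u ∈ K, ((CP G Z T S z).card : ℤ) * ikp (tlo G T hm) z u
          - ∑ u ∈ K \ K3, (rmr G (CP G Z T S) (tlo G T hm) z u : ℤ))
      ≤ NE G (S z)
        + 2 * (∑ u ∈ K \ K3, 2 * (ikp (tlo G T hm) z u : ℤ) + ∑ u ∈ K3, ((ivl u : ℤ) + 2))
          * (((S z).card : ℤ) - r + 1)
        + (∑ u ∈ K \ K3, 2 * (ikp (tlo G T hm) z u : ℤ) + ∑ u ∈ K3, ((ivl u : ℤ) + 2))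
          * (∑ u ∈ K \ K3, 2 * (ikp (tlo G T hm) z u : ℤ) + ∑ u ∈ K3, ((ivl u : ℤ) + 2)
            - 1) := by
  set tl := tlo G T hm with htl
  set C := CP G Z T S with hCd
  have hinh : Inhabited V := ⟨z⟩
  have key : ∀ u ∈ K, ∃ x ∈ A, u ∈ U x := fun u hu => by
    obtain ⟨x, hx, hux⟩ := mem_biUnion.1 (hK hu)
    exact ⟨x, mem_of_mem_erase hx, hux⟩
  -- the items of `K3` are cliques
  have hinl : ∀ u ∈ K3, ∃ Q, u = Sum.inl Q := by
    intro u hu
    rcases u with Q | e
    · exact ⟨Q, rfl⟩
    · exfalso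
      have h1 := hn _ hu
      have h2 : 1 ≤ (K3.filter fun v => y v = y (Sum.inr e)).card :=
        card_pos.2 ⟨Sum.inr e, mem_filter.2 ⟨hu, rfl⟩⟩
      have h3 : ims G C tl (y (Sum.inr e)) (Sum.inr e : Itm V) = 0 := by
        unfold ims icl
        simp only [rcl, card_empty]
      omega
  -- the choice of the third points, row by row
  set cop : V → Finset V := fun x =>
    ((K.filter fun v => v ∈ U x).toRight).image Prod.snd with hcop
  have hcopc : ∀ x, (cop x).card ≤ ∑ v ∈ K.filter (fun v => v ∈ U x), ipc v := by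
    intro x
    refine card_image_le.trans ?_
    have e1 : ∑ v ∈ K.filter (fun v => v ∈ U x), ipc v
        = ∑ v ∈ ((K.filter fun v => v ∈ U x).toLeft.disjSum (K.filter fun v => v ∈ U x).toRight),
          ipc v := by
      rw [toLeft_disjSum_toRight]
    rw [e1, sum_disjSum]
    simp only [ipc, sum_const_zero, zero_add, sum_const, smul_eq_mul, mul_one]
    exact le_rfl
  have hch : ∀ x : V, ∃ q : Itm V → V,
      (∀ u ∈ K3.filter (fun v => y v = x), q u ∈ icl G C tl (y u) u \ cop x) ∧
      ∀ u ∈ K3.filter (fun v => y v = x), ∀ v ∈ K3.filter (fun v => y v = x),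
        q u = q v → u = v := by
    intro x
    refine exists_inj_choice _ _ fun u hu => ?_
    obtain ⟨hu1, hu2⟩ := mem_filter.1 hu
    have h1 := hn u hu1
    have h2 := hcopc x
    have h3 := le_card_sdiff (cop x) (icl G C tl (y u) u)
    rw [hu2] at h1
    have h4 : ims G C tl x u = (icl G C tl (y u) u).card := by rw [hu2]; rfl
    omega
  choose q hq1 hq2 using hch
  have hqi : ∀ u ∈ K3, q (y u) u ∈ icl G C tl (y u) u \ cop (y u) := fun u hu =>
    hq1 (y u) u (mem_filter.2 ⟨hu, rfl⟩)
  have hqC : ∀ u ∈ K3, q (y u) u ∈ C (y u) := fun u hu => rcl_sub (mem_sdiff.1 (hqi u hu)).1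
  -- the selection
  set XX : Finset V → Finset V := fun Q =>
    if (Sum.inl Q : Itm V) ∈ K3 then oth tl z Q else one1 (oth tl z Q) with hXX
  have hXs : ∀ Q, XX Q ⊆ oth tl z Q := by
    intro Q
    simp only [hXX]
    split_ifs
    · exact subset_rfl
    · exact one1_sub _
  have h1 := Fam.row3 hP hC hW h hz hK hk hK3 (X := XX) hXs
    (fun Q hQ => by simp only [hXX, if_pos hQ]; rfl) (q := fun u => q (y u) u) (y := y) hy
    (fun u hu => (mem_sdiff.1 (hqi u hu)).1)
    (fun u hu v hv huv => by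
      by_cases hyy : y u = y v
      · have h2 : q (y u) u = q (y u) v := by
          rw [huv, hyy]
        exact hq2 (y u) u (mem_filter.2 ⟨hu, rfl⟩) v (mem_filter.2 ⟨hv, hyy.symm⟩) h2
      · exfalso
        have h2 := hW.dCC (y u) (mem_of_mem_erase (hy u hu)) (y v) (mem_of_mem_erase (hy v hv)) hyy
        exact disjoint_left.1 h2 (hqC u hu) (huv ▸ hqC v hv))
    (fun u hu e he hue => by
      obtain ⟨x, hx, hex⟩ := key _ he
      have h2 : e.2 ∈ C x := (h x hx).pcC e hex
      have h3 : x = y u := by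
        by_contra hne
        exact disjoint_left.1 (hW.dCC x hx (y u) (mem_of_mem_erase (hy u hu)) hne) h2
          (hue ▸ hqC u hu)
      refine (mem_sdiff.1 (hqi u hu)).2 ?_
      rw [hue, hcop]
      refine mem_image_of_mem _ ?_
      rw [mem_toRight]
      exact mem_filter.2 ⟨he, h3 ▸ hex⟩)
  -- the number of points
  have hpts1 : ∀ u ∈ K \ K3, (rpts tl XX z u).card ≤ 2 * ikp tl z u := by
    intro u hu
    obtain ⟨hu1, hu2⟩ := mem_sdiff.1 hu
    obtain ⟨x, hx, hux⟩ := key u hu1
    have hf := h x hx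
    have hku := hk u hu1
    rcases u with Q | e
    · have e2 := hf.two Q hux
      have e3 : XX Q = one1 (oth tl z Q) := by simp only [hXX, if_neg hu2]
      have e4 : (rpts tl XX z (Sum.inl Q)).card ≤ (tlp tl Q z).card + (XX Q).card :=
        card_union_le _ _
      have e5 : (XX Q).card ≤ 1 := by rw [e3]; exact card_one1 _
      by_cases hone : tlp tl Q z = Q
      · have e6 : XX Q = ∅ := by
          have e7 : oth tl z Q = ∅ := by
            unfold oth
            rw [hone, sdiff_self]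
            rfl
          have := hXs Q
          rw [e7] at this
          exact subset_empty.1 this
        have e7 : ikp tl z (Sum.inl Q) = Q.card - 1 := by
          simp only [ikp, hone, if_true]
        rw [e7]
        rw [e6, card_empty, hone] at e4
        omega
      · have e7 : ikp tl z (Sum.inl Q) = (tlp tl Q z).card := by
          simp only [ikp, hone, if_false]
        rw [e7] at hku ⊢
        omega
    · have e3 : ikp tl z (Sum.inr e) = 1 := by
        by_cases h4 : tl e.1 = z
        · simp only [ikp, h4, if_true]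
        · exact absurd (by simp only [ikp, h4, if_false]) hku
      rw [e3]
      simp only [rpts]
      exact card_le_two
  have hpts3 : ∀ u ∈ K3, (rpts tl XX z u).card ≤ ivl u + 1 := by
    intro u hu
    obtain ⟨x, hx, hux⟩ := key u (hK3 hu)
    obtain ⟨Q, rfl⟩ := hinl u hu
    have e2 := (h x hx).two Q hux
    have e3 : (rpts tl XX z (Sum.inl Q)).card ≤ Q.card :=
      card_le_card (union_subset tlp_sub fun v hv => (mem_oth.1 (hXs Q hv)).1)
    simp only [ivl]
    omega
  have hw1 : ∑ u ∈ K, ((rpts tl XX z u).card : ℤ) + K3.card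
      ≤ ∑ u ∈ K \ K3, 2 * (ikp tl z u : ℤ) + ∑ u ∈ K3, ((ivl u : ℤ) + 2) := by
    rw [← sum_sdiff hK3]
    have e1 : ∑ u ∈ K \ K3, ((rpts tl XX z u).card : ℤ) ≤ ∑ u ∈ K \ K3, 2 * (ikp tl z u : ℤ) :=
      sum_le_sum fun u hu => by exact_mod_cast hpts1 u hu
    have e2 : ∑ u ∈ K3, ((rpts tl XX z u).card : ℤ) + K3.card ≤ ∑ u ∈ K3, ((ivl u : ℤ) + 2) := by
      have e3 : (K3.card : ℤ) = ∑ u ∈ K3, (1 : ℤ) := by
        rw [sum_const, nsmul_eq_mul, mul_one]
      rw [e3, ← sum_add_distrib]
      refine sum_le_sum fun u hu => ?_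
      have : ((rpts tl XX z u).card : ℤ) ≤ ivl u + 1 := by exact_mod_cast hpts3 u hu
      linarith
    linarith
  have hw0 : ∑ u ∈ K, (ikp tl z u : ℤ)
      ≤ ∑ u ∈ K \ K3, 2 * (ikp tl z u : ℤ) + ∑ u ∈ K3, ((ivl u : ℤ) + 2) := by
    rw [← sum_sdiff hK3]
    have e1 : ∑ u ∈ K \ K3, (ikp tl z u : ℤ) ≤ ∑ u ∈ K \ K3, 2 * (ikp tl z u : ℤ) :=
      sum_le_sum fun u hu => by
        have : (0 : ℤ) ≤ ikp tl z u := Int.natCast_nonneg _
        linarith
    have e2 : ∑ u ∈ K3, (ikp tl z u : ℤ) ≤ ∑ u ∈ K3, ((ivl u : ℤ) + 2) :=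
      sum_le_sum fun u _ => by
        have h9 : ikp tl z u ≤ ivl u := ikp_le_ivl
        have : (ikp tl z u : ℤ) ≤ ivl u := by exact_mod_cast h9
        linarith
    linarith
  -- compare
  have hrc : ∑ u ∈ K \ K3, ((rcl G C tl XX z u).card : ℤ)
      = ∑ u ∈ K \ K3, (rmr G C tl z u : ℤ) := by
    refine sum_congr rfl fun u hu => ?_
    unfold rmr
    rcases u with Q | e
    · have e3 : XX Q = one1 (oth tl z Q) := by simp only [hXX, if_neg (mem_sdiff.1 hu).2]
      simp only [rcl, e3]
    · simp only [rcl]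
  rw [hrc] at h1
  refine h1.trans ?_
  set w : ℤ := ∑ u ∈ K, ((rpts tl XX z u).card : ℤ) + K3.card with hw
  set v : ℤ := ∑ u ∈ K \ K3, 2 * (ikp tl z u : ℤ) + ∑ u ∈ K3, ((ivl u : ℤ) + 2) with hv
  set s : ℤ := ((S z).card : ℤ) - r with hs
  have hwn : 0 ≤ w := by
    rw [hw]
    have e1 : 0 ≤ ∑ u ∈ K, ((rpts tl XX z u).card : ℤ) := sum_nonneg fun u _ => Int.natCast_nonneg _
    have e2 : (0 : ℤ) ≤ K3.card := Int.natCast_nonneg _
    linarith
  -- `w ≤ v`, `0 ≤ s + v`
  have h5 : 0 ≤ (v - w) * (2 * (s + 1) + v + w - 1) := by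
    refine mul_nonneg (by linarith) ?_
    have e1 : 0 ≤ s + v := by linarith
    have e2 : 0 ≤ s + w + 1 := by
      have e3 : ∑ u ∈ K, (ikp tl z u : ℤ) ≤ w := by
        rw [hw]
        have e4 : ∑ u ∈ K, (ikp tl z u : ℤ) ≤ ∑ u ∈ K, ((rpts tl XX z u).card : ℤ) := by
          refine sum_le_sum fun u hu => ?_
          obtain ⟨x, hx, hux⟩ := key u hu
          have hku := hk u hu
          rcases u with Q | e
          · have e5 : (tlp tl Q z).card ≤ (rpts tl XX z (Sum.inl Q)).card :=
              card_le_card subset_union_left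
            have e6 : ikp tl z (Sum.inl Q) ≤ (tlp tl Q z).card := by
              simp only [ikp]
              split_ifs with h7
              · rw [h7]
                omega
              · exact le_rfl
            exact_mod_cast e6.trans e5
          · have e5 : ikp tl z (Sum.inr e) ≤ 1 := by
              simp only [ikp]
              split_ifs <;> omega
            have e6 : 1 ≤ (rpts tl XX z (Sum.inr e)).card := by
              simp only [rpts]
              exact card_pos.2 ⟨e.1, mem_insert_self _ _⟩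
            exact_mod_cast e5.trans e6
        have e5 : (0 : ℤ) ≤ K3.card := Int.natCast_nonneg _
        linarith
      linarith
    linarith
  nlinarith

/-- **(row) with third points over the basic integers** -/
theorem Fam.row3I {S : Finset V} (hP : PG G r)
    (hC : CSys G Z T hm A fun x => S.filter fun v => hm v = x)
    (hW : WSysT G (co G) A (CP G Z T fun x => S.filter fun v => hm v = x)
      (HP G Z T fun x => S.filter fun v => hm v = x) (tlo G T hm)) {U : V → Finset (Itm V)}
    (h : ∀ x ∈ A, Fam (co G) (CP G Z T fun x => S.filter fun v => hm v = x)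
      (HP G Z T fun x => S.filter fun v => hm v = x) (tlo G T hm) x (U x))
    {z : V} (hz : z ∈ A) {K K3 : Finset (Itm V)} (hK : K ⊆ (A.erase z).biUnion U)
    (hk : ∀ u ∈ K, ikp (tlo G T hm) z u ≠ 0) (hK3 : K3 ⊆ K)
    {y : Itm V → V} (hy : ∀ u ∈ K3, y u ∈ A.erase z)
    (hn : ∀ u ∈ K3, (K3.filter fun v => y v = y u).card
      + (∑ v ∈ K.filter (fun v => v ∈ U (y u)), ipc v)
      ≤ ims G (CP G Z T fun x => S.filter fun v => hm v = x) (tlo G T hm) (y u) u)
    (h0 : 0 ≤ sI hm r S z + ∑ u ∈ K, (ikp (tlo G T hm) z u : ℤ)) :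
    2 * (((r : ℤ) - 1) * sI hm r S z)
      + 2 * (∑ u ∈ K, (ikp (tlo G T hm) z u : ℤ) * ((r : ℤ) - 1 - tI G Z T hm r S z)
          - ∑ u ∈ K \ K3,
            (rmr G (CP G Z T fun x => S.filter fun v => hm v = x) (tlo G T hm) z u : ℤ))
      ≤ 2 * eI G hm S z
        + 2 * (∑ u ∈ K \ K3, 2 * (ikp (tlo G T hm) z u : ℤ) + ∑ u ∈ K3, ((ivl u : ℤ) + 2))
          * (sI hm r S z + 1)
        + (∑ u ∈ K \ K3, 2 * (ikp (tlo G T hm) z u : ℤ) + ∑ u ∈ K3, ((ivl u : ℤ) + 2))
          * (∑ u ∈ K \ K3, 2 * (ikp (tlo G T hm) z u : ℤ) + ∑ u ∈ K3, ((ivl u : ℤ) + 2)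
            - 1) := by
  have hcard : ((CP G Z T (fun x => S.filter fun v => hm v = x) z).card : ℤ)
      = (r : ℤ) - 1 - tI G Z T hm r S z := card_CP_eq S z
  have h5 := two_eI (G := G) (hm := hm) S z
  have h6 : (((S.filter fun v => hm v = z).card : ℤ) - r) = sI hm r S z := rfl
  have h1 := Fam.row3N hP hC hW h hz hK hk hK3 hy hn (by rw [h6]; exact h0)
  rw [h6, ← h5, hcard] at h1
  have e1 : ∑ u ∈ K, ((r : ℤ) - 1 - tI G Z T hm r S z) * (ikp (tlo G T hm) z u : ℤ)
      = ∑ u ∈ K, (ikp (tlo G T hm) z u : ℤ) * ((r : ℤ) - 1 - tI G Z T hm r S z) :=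
    sum_congr rfl fun u _ => mul_comm _ _
  rw [e1] at h1
  linarith

end Row3I

end Pool.Agent.Lib.MP_f04ccf_co
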