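import Pool.Agent.Lib.MP_f04ccf_co.M.ItY
import Pool.Agent.Lib.MP_f04ccf_co.M.LemT
import Pool.Agent.Lib.MP_f04ccf_co.M.RowN
import Pool.Agent.Lib.MP_f04ccf_co.M.NCell
import Pool.Agent.Lib.MP_f04ccf_co.M.CellS
import Pool.Agent.Lib.MP_f04ccf_co.M.RowP
import Pool.Agent.Lib.MP_f04ccf_co.M.Row3I

/-!
MP_f04ccf_co, PLAN W, version [B]: the items with the bounds of the N-excess.
`ItZ` extends `ItY`: `gn i j` the number of the N-types (members of PC pairs and N-ends) of the host `i`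
with tail `j`, `ka i j` their largest number of free arcs, `fr i` the free arcs of the PC pairs of `i`;
`tzN` is the row test without any excess of the host, `nbT` the bound of the unpaid excess (LEMMA T),
`exc` the whole excess tail by tail, `kat` the bound of the free arcs by property (P), `cellk` the cell
test with the rectangle of any item (`cellt`: with Turan's bound, `cell2`: for units of value one with the
edges between the items of one host), `row3` the row test with third points, `slk` the energy with all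
its excess against the slack of `tzN`.
`WItK.itz`: the transport.
-/

set_option autoImplicit false

namespace Pool.Agent.Lib.MP_f04ccf_co

open Finset

attribute [local instance] Classical.propDecidable

section StrZ

variable {ι : Type*}

/-- **the items with the bounds of the N-excess** -/
structure ItZ (R : ℤ) (n : ℕ) (t s h e : ℕ → ℤ) (E : ℕ → ℕ → ℤ) (U : Finset ι)
    (ho : ι → ℕ) (vl : ι → ℤ) (kp ms mr : ℕ → ι → ℤ) (mu Nb : ℕ → ℤ) (Nx : ℕ → ℕ → ℤ)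
    (be : ℕ → ℕ → ℤ) (ls : ℕ → ℤ → ℤ) (pc ar : ι → ℤ) (aT : ℕ → ℤ) (fr : ℕ → ℤ)
    (gn ka : ℕ → ℕ → ℤ) : Prop
    extends ItY R n t s h e E U ho vl kp ms mr mu Nb Nx be ls pc ar aT where
  tzN : ∀ i < n, ∀ K ⊆ U, (∀ u ∈ K, ho u ≠ i) → 0 ≤ s i + ∑ u ∈ K, kp i u →
    R * (s i + ∑ u ∈ K, kp i u)
      ≤ (mu i + ∑ u ∈ K, kp i u) * (t i + 2 * (s i + ∑ u ∈ K, kp i u) + 1) + ∑ u ∈ K, mr i u
  fr0 : ∀ i < n, 0 ≤ fr i
  frk : ∀ i < n, fr i ≤ ∑ j ∈ (range n).erase i, be i j * ka i j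
  nbT : ∀ i < n, Nb i ≤ 2 * ∑ j ∈ (range n).erase i, be i j + 2 * fr i
    + (max 0 (t i - (h i - mu i))) ^ 2
  bg : ∀ i < n, ∀ j < n, be i j ≤ gn i j
  gmu : ∀ i < n, ∑ j ∈ (range n).erase i, gn i j ≤ mu i
  ka0 : ∀ i < n, ∀ j < n, 0 ≤ ka i j
  kaz : ∀ i < n, ∀ j < n, gn i j = 0 → ka i j = 0
  kat : ∀ i < n, ∀ j < n, i ≠ j → ka i j * (ka i j - 2) ≤ t i * t j
  exc : ∀ i < n, Nb i + 2 * ∑ j ∈ (range n).erase i, Nx i j
    ≤ ∑ j ∈ (range n).erase i, be i j * (be i j + 1)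
      + 2 * ∑ j ∈ (range n).erase i, gn i j * ka i j
  nxb : ∀ i < n, ∀ j < n, Nx i j ≤ (gn i j - be i j) * ka i j
  lsq : ∀ i < n, ∀ q, 0 ≤ q →
    ls i q ≤ q * ∑ j ∈ (range n).erase i, (be i j + gn i j * ka i j)
  cellk : ∀ i < n, ∀ j < n, i ≠ j → ∀ K ⊆ U, (∀ u ∈ K, ho u = i ∧ kp j u ≠ 0) →
    ∀ K' ⊆ U, (∀ u ∈ K', ho u = j ∧ kp i u ≠ 0) → ∀ w ∈ U,
    2 * ∑ u ∈ K, (R * kp j u + (1 - pc u) * t j - mr j u - ar u)
      + 2 * ∑ u ∈ K', (R * kp i u + (1 - pc u) * t i - mr i u - ar u)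
      + 2 * (max 0 (ms i w - ∑ u ∈ K, pc u) * max 0 (ms j w - ∑ u ∈ K', pc u))
      ≤ 2 * (R + t i * t j)
        + (∑ u ∈ K, (kp j u + 1 - pc u) + ∑ u ∈ K', (kp i u + 1 - pc u))
          * (∑ u ∈ K, (kp j u + 1 - pc u) + ∑ u ∈ K', (kp i u + 1 - pc u) - 1)
        + 2 * (∑ u ∈ K, pc u) * ∑ u ∈ K', pc u
  cellt : ∀ i < n, ∀ j < n, i ≠ j → ∀ K ⊆ U, (∀ u ∈ K, ho u = i ∧ kp j u ≠ 0) →
    ∀ K' ⊆ U, (∀ u ∈ K', ho u = j ∧ kp i u ≠ 0) → ∀ w ∈ U, ∀ I ⊆ range n, i ∈ I → j ∈ I →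
    (∀ u ∈ K, ∀ l < n, kp l u ≠ 0 → l ∈ I) → (∀ u ∈ K', ∀ l < n, kp l u ≠ 0 → l ∈ I) → ∀ q : ℤ,
    2 * ∑ u ∈ K, (R * kp j u + (1 - pc u) * t j - mr j u - ar u)
      + 2 * ∑ u ∈ K', (R * kp i u + (1 - pc u) * t i - mr i u - ar u)
      + 2 * (max 0 (ms i w - ∑ u ∈ K, pc u) * max 0 (ms j w - ∑ u ∈ K', pc u))
      ≤ 2 * (R + t i * t j)
        + (∑ u ∈ K, (kp j u + 1 - pc u) + ∑ u ∈ K', (kp i u + 1 - pc u))
          * (∑ u ∈ K, (kp j u + 1 - pc u) + ∑ u ∈ K', (kp i u + 1 - pc u) - 1)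
        - 2 * q * (∑ u ∈ K, (kp j u + 1 - pc u) + ∑ u ∈ K', (kp i u + 1 - pc u))
        + I.card * (q * (q + 1)) + 2 * (∑ u ∈ K, pc u) * ∑ u ∈ K', pc u
  cell2 : ∀ i < n, ∀ j < n, i ≠ j → ∀ K ⊆ U, (∀ u ∈ K, ho u = i ∧ kp j u ≠ 0 ∧ vl u = 1) →
    ∀ K' ⊆ U, (∀ u ∈ K', ho u = j ∧ kp i u ≠ 0 ∧ vl u = 1) → ∀ w ∈ U,
    2 * ∑ u ∈ K, (R * kp j u + (1 - pc u) * t j - mr j u - ar u)
      + 2 * ∑ u ∈ K', (R * kp i u + (1 - pc u) * t i - mr i u - ar u)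
      + 2 * (max 0 (ms i w - ∑ u ∈ K, pc u) * max 0 (ms j w - ∑ u ∈ K', pc u))
      ≤ 2 * (R + t i * t j)
        + (∑ u ∈ K, (kp j u + 1 - pc u) + ∑ u ∈ K', (kp i u + 1 - pc u))
          * (∑ u ∈ K, (kp j u + 1 - pc u) + ∑ u ∈ K', (kp i u + 1 - pc u) - 1)
        - ((K.card : ℤ) * (K.card - 1) - (∑ u ∈ K, pc u) * (∑ u ∈ K, pc u - 1))
        - ((K'.card : ℤ) * (K'.card - 1) - (∑ u ∈ K', pc u) * (∑ u ∈ K', pc u - 1))
        + 2 * (∑ u ∈ K, pc u) * ∑ u ∈ K', pc u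
  slk : ∀ i < n, ∀ K ⊆ U, (∀ u ∈ K, ho u ≠ i) → 0 ≤ s i + ∑ u ∈ K, kp i u →
    e i + (∑ u ∈ K, kp i u) * t i + 2 * (∑ u ∈ K, kp i u) * (s i + 1)
        + (∑ u ∈ K, kp i u) * (2 * (∑ u ∈ K, kp i u) - 1) + R * (s i + ∑ u ∈ K, kp i u)
      ≤ 2 * ((mu i + ∑ u ∈ K, kp i u) * (t i + 2 * (s i + ∑ u ∈ K, kp i u) + 1))
        + ∑ u ∈ K, mr i u
  row3 : ∀ i < n, ∀ K ⊆ U, (∀ u ∈ K, ho u ≠ i ∧ kp i u ≠ 0) → ∀ K3 ⊆ K, ∀ y : ι → ℕ,
    (∀ u ∈ K3, y u < n ∧ y u ≠ i ∧ ((K3.filter fun v => y v = y u).card : ℤ)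
      + ∑ v ∈ K.filter (fun v => ho v = y u), pc v ≤ ms (y u) u) →
    0 ≤ s i + ∑ u ∈ K, kp i u →
    2 * (R * s i) + 2 * (∑ u ∈ K, (kp i u * (R - t i) - mr i u) + ∑ u ∈ K3, mr i u)
      ≤ 2 * e i
        + 2 * (∑ u ∈ K, 2 * kp i u + ∑ u ∈ K3, (vl u + 2 - 2 * kp i u)) * (s i + 1)
        + (∑ u ∈ K, 2 * kp i u + ∑ u ∈ K3, (vl u + 2 - 2 * kp i u))
          * (∑ u ∈ K, 2 * kp i u + ∑ u ∈ K3, (vl u + 2 - 2 * kp i u) - 1)

end StrZ

section TransZ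

variable {V : Type*} {G : SimpleGraph V} {Z T : Finset V} {hm : V → V} {r m n p : ℕ}
  {φ : Finset (V × V) → Finset (Finset V) → ℕ} {B : V → Finset (V × V)}
  {Ps : V → Finset (Finset V)} {host : Itm V → V} {ρ : V → ℕ} {σ : ℕ → V}

/-- the missed class points at home are at most the missed points at the tail -/
lemma WCoreK.msd_le (hp : 2 * r ≤ p) (h : WCoreK G Z T r m n p hm) {x y v : V} (hx : x ∈ T)
    (hv : v ∈ hz G Z T hm x) (hy : tlo G T hm v = y) :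
    (msd G (cz G Z T hm x) v).card ≤ (msd G (cz G Z T hm y) v).card := by
  obtain ⟨h2, h3⟩ := mem_filter.1 (mem_HP.1 hv).1
  have h0 := h.toWHom.ht x hx v hv
  rw [hy] at h0
  have h4 := h.csys.ends_of_tlo h.hh hx hv hy
  have h5 : y ∈ rws G T v := by
    rw [rws_BB (h.hsys.HP_BB h.F.toPFrame h.ok hv), h4.2]
    simp
  rw [msd_card, msd_card]
  exact h.H.kap_plain h.F.toPFrame h.hmr hp h.hsys h2 h3 (mem_of_mem_erase h0)
    (ne_of_mem_erase h0) h5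

/-- **the free arcs of one member**: `κ (κ - 2) ≤ tx ty` -/
lemma WCoreK.kap_sq (hp : 2 * r ≤ p) (h : WCoreK G Z T r m n p hm) {x y v : V} (hx : x ∈ T)
    (hv : v ∈ hz G Z T hm x) (hy : tlo G T hm v = y) {Q : Finset (V × V)} :
    ((frC G (cz G Z T hm x) (tlo G T hm) Q v).card : ℤ)
        * ((frC G (cz G Z T hm x) (tlo G T hm) Q v).card - 2)
      ≤ tI G Z T hm r Z x * tI G Z T hm r Z y := by
  have h0 := h.toWHom.ht x hx v hv
  rw [hy] at h0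
  obtain ⟨hyx, hyT⟩ := mem_erase.1 h0
  have ht : ∀ z ∈ T, 0 ≤ tI G Z T hm r Z z := fun z hz' => h.hsys.tI_nonneg h.F h.ok hz'
  have hF := h.F.toPFrame
  have hcell := h.csys.cellD hF hx hyT hyx.symm
  have hvD := h.csys.mem_Dbl_of_tlo h.hh hx hv hy
  set k : ℤ := ((frC G (cz G Z T hm x) (tlo G T hm) Q v).card : ℤ) with hk
  have hk0 : 0 ≤ k := Nat.cast_nonneg _
  rcases Nat.eq_zero_or_pos (frC G (cz G Z T hm x) (tlo G T hm) Q v).card with h1 | h1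
  · have h2 : k = 0 := by rw [hk, h1]; rfl
    rw [h2]
    have := mul_nonneg (ht x hx) (ht y hyT)
    linarith
  · obtain ⟨a, ha⟩ := card_pos.1 h1
    obtain ⟨h2, h3, -⟩ := mem_frC.1 ha
    have h4 : a ∈ msd G (cz G Z T hm x) v := (hcell.mem_msd hvD).2 ⟨h2, h3⟩
    have h5 := hcell.one' h.gp.P (h.csys.CP_clq hF hx) (h.csys.CP_clq hF hyT)
      (h.wsysT.dCC x hx y hyT hyx.symm) hvD h4 (h.msd_le hp hx hv hy)
    have h6 : k ≤ ((msd G (cz G Z T hm x) v).card : ℤ) := by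
      rw [hk]
      have : (frC G (cz G Z T hm x) (tlo G T hm) Q v).card ≤ (msd G (cz G Z T hm x) v).card := by
        refine card_le_card fun b hb => ?_
        obtain ⟨h7, h8, -⟩ := mem_frC.1 hb
        exact (hcell.mem_msd hvD).2 ⟨h7, h8⟩
      exact_mod_cast this
    have h7 : (1 : ℤ) ≤ k := by
      rw [hk]
      exact_mod_cast h1
    have h8 : ((r : ℤ) - 1 - (cz G Z T hm x).card) * ((r : ℤ) - 1 - (cz G Z T hm y).card)
        = tI G Z T hm r Z x * tI G Z T hm r Z y := by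
      unfold tI
      ring
    have h9 : ((msd G (cz G Z T hm x) v).card : ℤ) * ((msd G (cz G Z T hm x) v).card - 2)
        ≤ tI G Z T hm r Z x * tI G Z T hm r Z y := by
      rw [← h8]
      exact h5
    nlinarith

/-- **the transport to `ItZ`, version [B]** -/
theorem WItK.itz (hp : 2 * r ≤ p) (h : WCoreK G Z T r m n p hm)
    (H : WItK G Z T hm r n φ B Ps host ρ σ) :
    ItZ ((r : ℤ) - 1) n (fun i => tI G Z T hm r Z (σ i)) (fun i => sI hm r Z (σ i))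
      (fun i => hI G Z T hm Z (σ i)) (fun i => eI G hm Z (σ i))
      (fun i j => EI G hm Z (σ i) (σ j)) (T.biUnion fun x => pkf (B x) (Ps x))
      (fun u => ρ (host u)) (fun u => (ivl u : ℤ)) (fun i u => (ikp (tlo G T hm) (σ i) u : ℤ))
      (fun i u => (ims G (cz G Z T hm) (tlo G T hm) (σ i) u : ℤ))
      (fun i u => (rmr G (cz G Z T hm) (tlo G T hm) (σ i) u : ℤ))
      (fun i => ∑ u ∈ pkf (B (σ i)) (Ps (σ i)), (ivl u : ℤ))
      (fun i => nbk G (cz G Z T hm (σ i)) (hz G Z T hm (σ i)) (tlo G T hm) (B (σ i)) (Ps (σ i)))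
      (fun i j => nxk G (cz G Z T hm (σ i)) (hz G Z T hm (σ i)) (tlo G T hm) (B (σ i)) (σ j))
      (fun i j => pcn (tlo G T hm) B (σ i) (σ j))
      (fun i q => lsx G (cz G Z T hm (σ i)) (hz G Z T hm (σ i)) q)
      (fun u => (ipc u : ℤ)) (fun u => (iar G (cz G Z T hm (host u)) u : ℤ))
      (fun i => ∑ v ∈ hz G Z T hm (σ i), (nd G (cz G Z T hm (σ i)) v : ℤ))
      (fun i => ∑ e ∈ B (σ i), ((frC G (cz G Z T hm (σ i)) (tlo G T hm) (B (σ i)) e.1).card : ℤ))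
      (fun i j => ((ntl G (cz G Z T hm (σ i)) (hz G Z T hm (σ i)) (tlo G T hm) (B (σ i))
        (σ j)).card : ℤ))
      (fun i j => (kpl G (cz G Z T hm (σ i)) (hz G Z T hm (σ i)) (tlo G T hm) (B (σ i))
        (σ j) : ℤ)) := by
  have hcard := h.cardT
  have hmem : ∀ i < n, σ i ∈ T := fun i hi => H.rk.mem i (by rw [hcard]; exact hi)
  have hne : ∀ i < n, ∀ j < n, i ≠ j → σ i ≠ σ j := fun i hi j hj hij h1 =>
    hij (H.rk.sinj (by rw [hcard]; exact hi) (by rw [hcard]; exact hj) h1)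
  have her : ∀ i < n, ∀ g : V → ℤ, ∑ z ∈ T.erase (σ i), g z = ∑ j ∈ (range n).erase i, g (σ j) := by
    intro i hi g
    have := H.rk.sum_er (i := i) (by rw [hcard]; exact hi) g
    rw [hcard] at this
    exact this
  have hpk := fun x hx => (H.pk x hx).toPk
  have hbt : ∀ x z : V, btl (tlo G T hm) (B x) z = pcs (tlo G T hm) (B x) z := fun _ _ => rfl
  have hfam : ∀ x ∈ T, Fam (co G) (cz G Z T hm) (hz G Z T hm) (tlo G T hm) x
      (pkf (B x) (Ps x)) := fun x hx => (hpk x hx).fam (h.csys.dCH hx hx).symm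
  have hfil : ∀ i < n, (T.biUnion fun x => pkf (B x) (Ps x)).filter (fun u => ρ (host u) = i)
      = pkf (B (σ i)) (Ps (σ i)) := fun i hi => fil_host H.hst H.rk (by rw [hcard]; exact hi)
  have hmemU : ∀ u ∈ T.biUnion fun x => pkf (B x) (Ps x), ∀ j < n,
      (ρ (host u) = j ↔ u ∈ pkf (B (σ j)) (Ps (σ j))) := by
    intro u hu j hj
    rw [← hfil j hj, mem_filter]
    exact ⟨fun h1 => ⟨hu, h1⟩, fun h1 => h1.2⟩
  have hcell : ∀ i < n, ∀ j < n, i ≠ j → ∀ K ⊆ pkf (B (σ i)) (Ps (σ i)),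
      ∀ K' ⊆ pkf (B (σ j)) (Ps (σ j)), (∀ u ∈ K, ikp (tlo G T hm) (σ j) u ≠ 0) →
      (∀ u ∈ K', ikp (tlo G T hm) (σ i) u ≠ 0) → ∀ w ∈ T.biUnion fun x => pkf (B x) (Ps x),
      2 * ∑ u ∈ K, (((r : ℤ) - 1) * (ikp (tlo G T hm) (σ j) u : ℤ)
          + (1 - (ipc u : ℤ)) * tI G Z T hm r Z (σ j)
          - (rmr G (cz G Z T hm) (tlo G T hm) (σ j) u : ℤ)
          - (iar G (cz G Z T hm (host u)) u : ℤ))
      + 2 * ∑ u ∈ K', (((r : ℤ) - 1) * (ikp (tlo G T hm) (σ i) u : ℤ)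
          + (1 - (ipc u : ℤ)) * tI G Z T hm r Z (σ i)
          - (rmr G (cz G Z T hm) (tlo G T hm) (σ i) u : ℤ)
          - (iar G (cz G Z T hm (host u)) u : ℤ))
      + 2 * (max 0 ((ims G (cz G Z T hm) (tlo G T hm) (σ i) w : ℤ) - ∑ u ∈ K, (ipc u : ℤ))
        * max 0 ((ims G (cz G Z T hm) (tlo G T hm) (σ j) w : ℤ) - ∑ u ∈ K', (ipc u : ℤ)))
      ≤ 2 * ((r : ℤ) - 1 + tI G Z T hm r Z (σ i) * tI G Z T hm r Z (σ j))
        + NE G (cpt (cz G Z T hm) (tlo G T hm) K (σ i) (σ j)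
            ∪ cpt (cz G Z T hm) (tlo G T hm) K' (σ j) (σ i))
        + 2 * (∑ u ∈ K, (ipc u : ℤ)) * ∑ u ∈ K', (ipc u : ℤ) := by
    intro i hi j hj hij K hKx K' hKz hk hk' w hw
    obtain ⟨y, hy, hwy⟩ := mem_biUnion.1 hw
    have h1 := Fam.cellNE h.F.toPFrame h.gp.P h.csys h.wsysT hfam (hmem i hi) (hmem j hj)
      (hne i hi j hj hij) hKx hKz hk hk' hy hwy
    have e1 : ∑ u ∈ K, (((r : ℤ) - 1) * (ikp (tlo G T hm) (σ j) u : ℤ)
          + (1 - (ipc u : ℤ)) * tI G Z T hm r Z (σ j)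
          - (rmr G (cz G Z T hm) (tlo G T hm) (σ j) u : ℤ)
          - (iar G (cz G Z T hm (host u)) u : ℤ))
        = ∑ u ∈ K, (((r : ℤ) - 1) * (ikp (tlo G T hm) (σ j) u : ℤ)
          + (1 - (ipc u : ℤ)) * tI G Z T hm r Z (σ j)
          - (rmr G (cz G Z T hm) (tlo G T hm) (σ j) u : ℤ)
          - (iar G (cz G Z T hm (σ i)) u : ℤ)) :=
      sum_congr rfl fun u hu => by rw [H.hst _ (hmem i hi) u (hKx hu)]
    have e2 : ∑ u ∈ K', (((r : ℤ) - 1) * (ikp (tlo G T hm) (σ i) u : ℤ)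
          + (1 - (ipc u : ℤ)) * tI G Z T hm r Z (σ i)
          - (rmr G (cz G Z T hm) (tlo G T hm) (σ i) u : ℤ)
          - (iar G (cz G Z T hm (host u)) u : ℤ))
        = ∑ u ∈ K', (((r : ℤ) - 1) * (ikp (tlo G T hm) (σ i) u : ℤ)
          + (1 - (ipc u : ℤ)) * tI G Z T hm r Z (σ i)
          - (rmr G (cz G Z T hm) (tlo G T hm) (σ i) u : ℤ)
          - (iar G (cz G Z T hm (σ j)) u : ℤ)) :=
      sum_congr rfl fun u hu => by rw [H.hst _ (hmem j hj) u (hKz hu)]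
    rw [e1, e2]
    exact h1
  refine ⟨H.ity h.toWHom, fun i hi K hK hKh h0 => h.tzI hp H hi hK hKh h0,
    fun i _ => sum_nonneg fun _ _ => Nat.cast_nonneg _, fun i hi => ?_, fun i hi => ?_,
    fun i hi j hj => ?_, fun i hi => ?_, fun i hi j hj => Nat.cast_nonneg _,
    fun i hi j hj h0 => ?_, fun i hi j hj hij => ?_, fun i hi => ?_, fun i hi j hj => ?_,
    fun i hi q hq => ?_, fun i hi j hj hij K hK hKi K' hK' hKj w hw => ?_,
    fun i hi j hj hij K hK hKi K' hK' hKj w hw I hI hiI hjI hIK hIK' q => ?_,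
    fun i hi j hj hij K hK hKi K' hK' hKj w hw => ?_, fun i hi K hK hKh h0 => ?_,
    fun i hi K hK hKi K3 hK3 y hy h0 => ?_⟩
  · have hx := hmem i hi
    show ∑ e ∈ B (σ i), ((frC G (cz G Z T hm (σ i)) (tlo G T hm) (B (σ i)) e.1).card : ℤ)
      ≤ ∑ j ∈ (range n).erase i, pcn (tlo G T hm) B (σ i) (σ j)
        * (kpl G (cz G Z T hm (σ i)) (hz G Z T hm (σ i)) (tlo G T hm) (B (σ i)) (σ j) : ℤ)
    rw [← her i hi fun z => pcn (tlo G T hm) B (σ i) z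
        * (kpl G (cz G Z T hm (σ i)) (hz G Z T hm (σ i)) (tlo G T hm) (B (σ i)) z : ℤ),
      sum_B_tail (tl := tlo G T hm) (B := B (σ i)) (T.erase (σ i))
        (fun e he => h.toWHom.ht _ hx _ ((hpk _ hx).bH e he))]
    refine sum_le_sum fun z _ => ?_
    have h1 : ∀ e ∈ btl (tlo G T hm) (B (σ i)) z,
        ((frC G (cz G Z T hm (σ i)) (tlo G T hm) (B (σ i)) e.1).card : ℤ)
        ≤ (kpl G (cz G Z T hm (σ i)) (hz G Z T hm (σ i)) (tlo G T hm) (B (σ i)) z : ℤ) := by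
      intro e he
      have : (frC G (cz G Z T hm (σ i)) (tlo G T hm) (B (σ i)) e.1).card
          ≤ kpl G (cz G Z T hm (σ i)) (hz G Z T hm (σ i)) (tlo G T hm) (B (σ i)) z :=
        le_sup (f := fun v => (frC G (cz G Z T hm (σ i)) (tlo G T hm) (B (σ i)) v).card)
          (mem_union_left _ (mem_image_of_mem _ he))
      exact_mod_cast this
    refine (sum_le_sum h1).trans ?_
    rw [sum_const, nsmul_eq_mul, hbt]
    rfl
  · have hx := hmem i hi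
    have h1 := H.nbk_le hp h hi
    show nbk G (cz G Z T hm (σ i)) (hz G Z T hm (σ i)) (tlo G T hm) (B (σ i)) (Ps (σ i))
      ≤ 2 * ∑ j ∈ (range n).erase i, pcn (tlo G T hm) B (σ i) (σ j) + 2 * _ + _
    rw [← her i hi fun z => pcn (tlo G T hm) B (σ i) z, ← h.toWHom.sum_pcn hx (hpk _ hx)]
    exact h1
  · have h1 := (hpk _ (hmem i hi)).card_ntl (σ j)
    show pcn (tlo G T hm) B (σ i) (σ j) ≤ ((ntl G (cz G Z T hm (σ i)) (hz G Z T hm (σ i))
      (tlo G T hm) (B (σ i)) (σ j)).card : ℤ)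
    unfold pcn
    rw [h1, ← hbt]
    push_cast
    linarith [Nat.cast_nonneg (α := ℤ) (nez G (cz G Z T hm (σ i)) (hz G Z T hm (σ i))
      (tlo G T hm) (B (σ i)) (σ j)).card]
  · have hx := hmem i hi
    have h32 := h.csys.h32 h.F.toPFrame h.hh h.toWHom.ht hx
    have h1 := (hpk _ hx).sum_card_ntl (H.pk _ hx).min h32 (Y := T.erase (σ i))
      (fun v hv => h.toWHom.ht _ hx v hv)
    have h2 := (hpk _ hx).sum_ivl
    show ∑ j ∈ (range n).erase i, ((ntl G (cz G Z T hm (σ i)) (hz G Z T hm (σ i))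
      (tlo G T hm) (B (σ i)) (σ j)).card : ℤ) ≤ ∑ u ∈ pkf (B (σ i)) (Ps (σ i)), (ivl u : ℤ)
    rw [← her i hi fun z => ((ntl G (cz G Z T hm (σ i)) (hz G Z T hm (σ i))
      (tlo G T hm) (B (σ i)) z).card : ℤ)]
    have h3 : (∑ z ∈ T.erase (σ i), ((ntl G (cz G Z T hm (σ i)) (hz G Z T hm (σ i))
      (tlo G T hm) (B (σ i)) z).card : ℤ)) + (Ps (σ i)).card ≤ (hz G Z T hm (σ i)).card := by
      exact_mod_cast h1
    have h4 : (∑ u ∈ pkf (B (σ i)) (Ps (σ i)), (ivl u : ℤ)) + (Ps (σ i)).card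
        = (hz G Z T hm (σ i)).card := by exact_mod_cast h2
    linarith
  · have h1 : ntl G (cz G Z T hm (σ i)) (hz G Z T hm (σ i)) (tlo G T hm) (B (σ i)) (σ j) = ∅ :=
      card_eq_zero.1 (by exact_mod_cast h0)
    show (kpl G (cz G Z T hm (σ i)) (hz G Z T hm (σ i)) (tlo G T hm) (B (σ i)) (σ j) : ℤ) = 0
    unfold kpl
    rw [h1, sup_empty]
    rfl
  · have hx := hmem i hi
    show (kpl G (cz G Z T hm (σ i)) (hz G Z T hm (σ i)) (tlo G T hm) (B (σ i)) (σ j) : ℤ)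
      * ((kpl G (cz G Z T hm (σ i)) (hz G Z T hm (σ i)) (tlo G T hm) (B (σ i)) (σ j) : ℤ) - 2)
      ≤ tI G Z T hm r Z (σ i) * tI G Z T hm r Z (σ j)
    rcases (ntl G (cz G Z T hm (σ i)) (hz G Z T hm (σ i)) (tlo G T hm) (B (σ i))
      (σ j)).eq_empty_or_nonempty with h1 | h1
    · have h2 : kpl G (cz G Z T hm (σ i)) (hz G Z T hm (σ i)) (tlo G T hm) (B (σ i)) (σ j) = 0 := by
        unfold kpl
        rw [h1, sup_empty]
        rfl
      rw [h2]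
      have h3 := h.hsys.tI_nonneg h.F h.ok hx
      have h4 := h.hsys.tI_nonneg h.F h.ok (hmem j hj)
      have := mul_nonneg h3 h4
      simpa using this
    · obtain ⟨v, hv, h2⟩ := exists_mem_eq_sup _ h1
        fun v => (frC G (cz G Z T hm (σ i)) (tlo G T hm) (B (σ i)) v).card
      have h3 : kpl G (cz G Z T hm (σ i)) (hz G Z T hm (σ i)) (tlo G T hm) (B (σ i)) (σ j)
          = (frC G (cz G Z T hm (σ i)) (tlo G T hm) (B (σ i)) v).card := h2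
      rw [h3]
      obtain ⟨hvH, hvj⟩ := (hpk _ hx).ntl_sub hv
      exact h.kap_sq hp hx hvH hvj
  · have hx := hmem i hi
    have h1 := (hpk _ hx).excess (Y := T.erase (σ i)) (fun v hv => h.toWHom.ht _ hx v hv)
    rw [her i hi, her i hi, her i hi] at h1
    exact h1
  · have hx := hmem i hi
    have h1 := (hpk _ hx).card_ntl (σ j)
    show nxk G (cz G Z T hm (σ i)) (hz G Z T hm (σ i)) (tlo G T hm) (B (σ i)) (σ j)
      ≤ (((ntl G (cz G Z T hm (σ i)) (hz G Z T hm (σ i)) (tlo G T hm) (B (σ i)) (σ j)).card : ℤ)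
        - pcn (tlo G T hm) B (σ i) (σ j))
        * (kpl G (cz G Z T hm (σ i)) (hz G Z T hm (σ i)) (tlo G T hm) (B (σ i)) (σ j) : ℤ)
    have e1 : ((ntl G (cz G Z T hm (σ i)) (hz G Z T hm (σ i)) (tlo G T hm) (B (σ i))
        (σ j)).card : ℤ) - pcn (tlo G T hm) B (σ i) (σ j)
        = ((nez G (cz G Z T hm (σ i)) (hz G Z T hm (σ i)) (tlo G T hm) (B (σ i)) (σ j)).card : ℤ) := by
      unfold pcn
      rw [h1, ← hbt]
      push_cast
      ring
    rw [e1]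
    have h2 : ∀ v ∈ nez G (cz G Z T hm (σ i)) (hz G Z T hm (σ i)) (tlo G T hm) (B (σ i)) (σ j),
        ((frC G (cz G Z T hm (σ i)) (tlo G T hm) (B (σ i)) v).card : ℤ)
        ≤ (kpl G (cz G Z T hm (σ i)) (hz G Z T hm (σ i)) (tlo G T hm) (B (σ i)) (σ j) : ℤ) := by
      intro v hv
      have : (frC G (cz G Z T hm (σ i)) (tlo G T hm) (B (σ i)) v).card
          ≤ kpl G (cz G Z T hm (σ i)) (hz G Z T hm (σ i)) (tlo G T hm) (B (σ i)) (σ j) :=
        le_sup (f := fun v => (frC G (cz G Z T hm (σ i)) (tlo G T hm) (B (σ i)) v).card)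
          (mem_union_right _ hv)
      exact_mod_cast this
    have h3 := sum_le_sum h2
    rw [sum_const, nsmul_eq_mul] at h3
    have h4 : (0 : ℤ) ≤ (E G (nez G (cz G Z T hm (σ i)) (hz G Z T hm (σ i)) (tlo G T hm)
      (B (σ i)) (σ j)) : ℤ) / 2 := Int.ediv_nonneg (Nat.cast_nonneg _) (by norm_num)
    unfold nxk
    linarith
  · have hx := hmem i hi
    show lsx G (cz G Z T hm (σ i)) (hz G Z T hm (σ i)) q ≤ q * ∑ j ∈ (range n).erase i,
      (pcn (tlo G T hm) B (σ i) (σ j) + ((ntl G (cz G Z T hm (σ i)) (hz G Z T hm (σ i))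
        (tlo G T hm) (B (σ i)) (σ j)).card : ℤ)
        * (kpl G (cz G Z T hm (σ i)) (hz G Z T hm (σ i)) (tlo G T hm) (B (σ i)) (σ j) : ℤ))
    refine (lsx_le_q hq).trans (mul_le_mul_of_nonneg_left ?_ hq)
    rw [← her i hi fun z => pcn (tlo G T hm) B (σ i) z
      + ((ntl G (cz G Z T hm (σ i)) (hz G Z T hm (σ i)) (tlo G T hm) (B (σ i)) z).card : ℤ)
        * (kpl G (cz G Z T hm (σ i)) (hz G Z T hm (σ i)) (tlo G T hm) (B (σ i)) z : ℤ),
      sum_add_distrib, ← h.toWHom.sum_pcn hx (hpk _ hx)]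
    have h1 : (bst G (cz G Z T hm (σ i)) (hz G Z T hm (σ i))).card
        ≤ (B (σ i)).card + (∑ e ∈ B (σ i), (frC G (cz G Z T hm (σ i)) (tlo G T hm) (B (σ i)) e.1).card
          + ∑ v ∈ Nend G (cz G Z T hm (σ i)) (hz G Z T hm (σ i)) (tlo G T hm) (B (σ i)),
            (frC G (cz G Z T hm (σ i)) (tlo G T hm) (B (σ i)) v).card) := by
      refine (card_le_card (hpk _ hx).bst_sub).trans ((card_union_le _ _).trans ?_)
      have h2 := card_union_le ((B (σ i)).image Prod.snd)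
        ((B (σ i)).biUnion fun e => frC G (cz G Z T hm (σ i)) (tlo G T hm) (B (σ i)) e.1)
      have h3 : ((B (σ i)).image Prod.snd).card ≤ (B (σ i)).card := card_image_le
      have h4 : ((B (σ i)).biUnion fun e => frC G (cz G Z T hm (σ i)) (tlo G T hm) (B (σ i))
        e.1).card ≤ _ := card_biUnion_le
      have h5 : ((Nend G (cz G Z T hm (σ i)) (hz G Z T hm (σ i)) (tlo G T hm)
        (B (σ i))).biUnion fun v => frC G (cz G Z T hm (σ i)) (tlo G T hm) (B (σ i)) v).card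
        ≤ _ := card_biUnion_le
      omega
    have h2 : ((bst G (cz G Z T hm (σ i)) (hz G Z T hm (σ i))).card : ℤ)
        ≤ (B (σ i)).card
          + (∑ e ∈ B (σ i), ((frC G (cz G Z T hm (σ i)) (tlo G T hm) (B (σ i)) e.1).card : ℤ)
          + ∑ v ∈ Nend G (cz G Z T hm (σ i)) (hz G Z T hm (σ i)) (tlo G T hm) (B (σ i)),
            ((frC G (cz G Z T hm (σ i)) (tlo G T hm) (B (σ i)) v).card : ℤ)) := by
      exact_mod_cast h1
    have h3 := sum_B_tail (tl := tlo G T hm) (B := B (σ i)) (T.erase (σ i))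
      (fun e he => h.toWHom.ht _ hx _ ((hpk _ hx).bH e he))
      (fun e => ((frC G (cz G Z T hm (σ i)) (tlo G T hm) (B (σ i)) e.1).card : ℤ))
    have h4 := sum_N_tail (tl := tlo G T hm)
      (N := Nend G (cz G Z T hm (σ i)) (hz G Z T hm (σ i)) (tlo G T hm) (B (σ i)))
      (T.erase (σ i)) (fun v hv => h.toWHom.ht _ hx v (mem_sdiff.1 (mem_Nend.1 hv).1).1)
      (fun v => ((frC G (cz G Z T hm (σ i)) (tlo G T hm) (B (σ i)) v).card : ℤ))
    have h5 : ∀ z ∈ T.erase (σ i), ∑ e ∈ btl (tlo G T hm) (B (σ i)) z,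
          ((frC G (cz G Z T hm (σ i)) (tlo G T hm) (B (σ i)) e.1).card : ℤ)
        + ∑ v ∈ (Nend G (cz G Z T hm (σ i)) (hz G Z T hm (σ i)) (tlo G T hm) (B (σ i))).filter
            (fun v => tlo G T hm v = z),
          ((frC G (cz G Z T hm (σ i)) (tlo G T hm) (B (σ i)) v).card : ℤ)
        ≤ ((ntl G (cz G Z T hm (σ i)) (hz G Z T hm (σ i)) (tlo G T hm) (B (σ i)) z).card : ℤ)
          * (kpl G (cz G Z T hm (σ i)) (hz G Z T hm (σ i)) (tlo G T hm) (B (σ i)) z : ℤ) :=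
      fun z _ => (hpk _ hx).sum_ntl z
    have h6 := sum_le_sum h5
    rw [sum_add_distrib] at h6
    linarith
  · have hKx : K ⊆ pkf (B (σ i)) (Ps (σ i)) := fun u hu => (hmemU u (hK hu) i hi).1 (hKi u hu).1
    have hKz : K' ⊆ pkf (B (σ j)) (Ps (σ j)) := fun u hu => (hmemU u (hK' hu) j hj).1 (hKj u hu).1
    have hk : ∀ u ∈ K, ikp (tlo G T hm) (σ j) u ≠ 0 := fun u hu h2 => (hKi u hu).2 (by
      show (ikp (tlo G T hm) (σ j) u : ℤ) = 0
      rw [h2]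
      rfl)
    have hk' : ∀ u ∈ K', ikp (tlo G T hm) (σ i) u ≠ 0 := fun u hu h2 => (hKj u hu).2 (by
      show (ikp (tlo G T hm) (σ i) u : ℤ) = 0
      rw [h2]
      rfl)
    have h1 := hcell i hi j hj hij K hKx K' hKz hk hk' w hw
    have h2 := NE_le_self (G := G) (cpt (cz G Z T hm) (tlo G T hm) K (σ i) (σ j)
      ∪ cpt (cz G Z T hm) (tlo G T hm) K' (σ j) (σ i))
    obtain ⟨-, h3⟩ := Fam.card_cpt h.wsysT hfam (hmem i hi) (hmem j hj) (hne i hi j hj hij)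
      hKx hKz hk hk'
    rw [h3] at h2
    linarith
  · have hKx : K ⊆ pkf (B (σ i)) (Ps (σ i)) := fun u hu => (hmemU u (hK hu) i hi).1 (hKi u hu).1
    have hKz : K' ⊆ pkf (B (σ j)) (Ps (σ j)) := fun u hu => (hmemU u (hK' hu) j hj).1 (hKj u hu).1
    have hk : ∀ u ∈ K, ikp (tlo G T hm) (σ j) u ≠ 0 := fun u hu h2 => (hKi u hu).2 (by
      show (ikp (tlo G T hm) (σ j) u : ℤ) = 0
      rw [h2]
      rfl)
    have hk' : ∀ u ∈ K', ikp (tlo G T hm) (σ i) u ≠ 0 := fun u hu h2 => (hKj u hu).2 (by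
      show (ikp (tlo G T hm) (σ i) u : ℤ) = 0
      rw [h2]
      rfl)
    have h1 := hcell i hi j hj hij K hKx K' hKz hk hk' w hw
    have hT : ∀ x ∈ T, ∀ u ∈ pkf (B x) (Ps x), ∀ y, ikp (tlo G T hm) y u ≠ 0 →
        ρ y < n ∧ σ (ρ y) = y := by
      intro x hx u hu y hy
      obtain ⟨v, hv, hvy⟩ := ikp_ne_tail (fun Q hQ => (hfam x hx).two Q (hQ ▸ hu)) hy
      have hvH : v ∈ hz G Z T hm x := by
        rcases u with Q | e
        · exact (hfam x hx).sub Q hu hv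
        · simp only [imem, mem_singleton] at hv
          exact hv ▸ (hfam x hx).pcH e hu
      have h5 := mem_of_mem_erase (h.toWHom.ht x hx v hvH)
      rw [hvy] at h5
      exact ⟨by rw [← hcard]; exact H.rk.lt y h5, H.rk.left y h5⟩
    have h2 := Fam.NE_cptT h.F.toPFrame h.hh h.csys h.wsysT hfam (hmem i hi) (hmem j hj)
      (hne i hi j hj hij) hKx hKz hk hk' (I := I.image σ) (mem_image_of_mem σ hiI)
      (mem_image_of_mem σ hjI) (fun u hu y hy => by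
        obtain ⟨b1, b2⟩ := hT _ (hmem i hi) u (hKx hu) y hy
        refine mem_image.2 ⟨ρ y, hIK u hu (ρ y) b1 ?_, b2⟩
        show (ikp (tlo G T hm) (σ (ρ y)) u : ℤ) ≠ 0
        rw [b2]
        exact_mod_cast hy) (fun u hu y hy => by
        obtain ⟨b1, b2⟩ := hT _ (hmem j hj) u (hKz hu) y hy
        refine mem_image.2 ⟨ρ y, hIK' u hu (ρ y) b1 ?_, b2⟩
        show (ikp (tlo G T hm) (σ (ρ y)) u : ℤ) ≠ 0
        rw [b2]
        exact_mod_cast hy) q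
    have h3 : (I.image σ).card = I.card := H.rk.card_image (by rw [hcard]; exact hI)
    rw [h3] at h2
    linarith
  · have hKx : K ⊆ pkf (B (σ i)) (Ps (σ i)) := fun u hu => (hmemU u (hK hu) i hi).1 (hKi u hu).1
    have hKz : K' ⊆ pkf (B (σ j)) (Ps (σ j)) := fun u hu => (hmemU u (hK' hu) j hj).1 (hKj u hu).1
    have hk : ∀ u ∈ K, ikp (tlo G T hm) (σ j) u ≠ 0 := fun u hu h2 => (hKi u hu).2.1 (by
      show (ikp (tlo G T hm) (σ j) u : ℤ) = 0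
      rw [h2]
      rfl)
    have hk' : ∀ u ∈ K', ikp (tlo G T hm) (σ i) u ≠ 0 := fun u hu h2 => (hKj u hu).2.1 (by
      show (ikp (tlo G T hm) (σ i) u : ℤ) = 0
      rw [h2]
      rfl)
    have h1 := hcell i hi j hj hij K hKx K' hKz hk hk' w hw
    obtain ⟨hd, h3⟩ := Fam.card_cpt h.wsysT hfam (hmem i hi) (hmem j hj) (hne i hi j hj hij)
      hKx hKz hk hk'
    have h4 := E_add_NE (G := G) (cpt (cz G Z T hm) (tlo G T hm) K (σ i) (σ j)
      ∪ cpt (cz G Z T hm) (tlo G T hm) K' (σ j) (σ i))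
    have h5 : (E G (cpt (cz G Z T hm) (tlo G T hm) K (σ i) (σ j)) : ℤ)
        + E G (cpt (cz G Z T hm) (tlo G T hm) K' (σ j) (σ i))
        ≤ E G (cpt (cz G Z T hm) (tlo G T hm) K (σ i) (σ j)
          ∪ cpt (cz G Z T hm) (tlo G T hm) K' (σ j) (σ i)) := by
      exact_mod_cast E_union_ge (G := G) hd
    have h6 := (H.pk _ (hmem i hi)).E_cpt (C := cz G Z T hm) (H := hz G Z T hm) (z := σ j)
      (h.csys.h32 h.F.toPFrame h.hh h.toWHom.ht (hmem i hi))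
      (h.csys.dCH (hmem i hi) (hmem i hi)).symm hKx hk (fun u hu => by
        have : (ivl u : ℤ) = 1 := (hKi u hu).2.2
        exact_mod_cast this)
    have h7 := (H.pk _ (hmem j hj)).E_cpt (C := cz G Z T hm) (H := hz G Z T hm) (z := σ i)
      (h.csys.h32 h.F.toPFrame h.hh h.toWHom.ht (hmem j hj))
      (h.csys.dCH (hmem j hj) (hmem j hj)).symm hKz hk' (fun u hu => by
        have : (ivl u : ℤ) = 1 := (hKj u hu).2.2
        exact_mod_cast this)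
    rw [h3] at h4
    linarith
  · exact h.slkI hp H hi hK hKh h0
  · have hK' : K ⊆ (T.erase (σ i)).biUnion fun x => pkf (B x) (Ps x) := by
      intro u hu
      obtain ⟨x, hx, hux⟩ := mem_biUnion.1 (hK hu)
      refine mem_biUnion.2 ⟨x, mem_erase.2 ⟨fun h1 => (hKi u hu).1 ?_, hx⟩, hux⟩
      show ρ (host u) = i
      rw [H.hst x hx u hux, h1]
      exact H.rk.right i (by rw [hcard]; exact hi)
    have hσ : ∀ a < n, ∀ b < n, (σ a = σ b ↔ a = b) := fun a ha b hb =>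
      ⟨fun h1 => H.rk.sinj (by rw [hcard]; exact ha) (by rw [hcard]; exact hb) h1,
        fun h1 => by rw [h1]⟩
    have h1 := Fam.row3I h.gp.P h.csys h.wsysT hfam (hmem i hi) hK' (fun u hu h2 =>
      (hKi u hu).2 (by
        show (ikp (tlo G T hm) (σ i) u : ℤ) = 0
        rw [h2]
        rfl)) hK3 (y := fun u => σ (y u)) (fun u hu => by
      obtain ⟨a1, a2, -⟩ := hy u hu
      exact mem_erase.2 ⟨fun h2 => a2 ((hσ _ a1 _ hi).1 h2), hmem _ a1⟩) (fun u hu => by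
      obtain ⟨a1, a2, a3⟩ := hy u hu
      have b1 : K3.filter (fun v => σ (y v) = σ (y u)) = K3.filter fun v => y v = y u := by
        ext v
        rw [mem_filter, mem_filter]
        constructor
        · rintro ⟨b2, b3⟩
          exact ⟨b2, (hσ _ (hy v b2).1 _ a1).1 b3⟩
        · rintro ⟨b2, b3⟩
          exact ⟨b2, by rw [b3]⟩
      have b2 : K.filter (fun v => v ∈ pkf (B (σ (y u))) (Ps (σ (y u))))
          = K.filter fun v => ρ (host v) = y u := by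
        ext v
        rw [mem_filter, mem_filter]
        constructor
        · rintro ⟨b2, b3⟩
          exact ⟨b2, (hmemU v (hK b2) _ a1).2 b3⟩
        · rintro ⟨b2, b3⟩
          exact ⟨b2, (hmemU v (hK b2) _ a1).1 b3⟩
      show (K3.filter (fun v => σ (y v) = σ (y u))).card
        + ∑ v ∈ K.filter (fun v => v ∈ pkf (B (σ (y u))) (Ps (σ (y u)))), ipc v
        ≤ ims G (cz G Z T hm) (tlo G T hm) (σ (y u)) u
      rw [b1, b2]
      have b3 : ((K3.filter fun v => y v = y u).card : ℤ)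
        + ∑ v ∈ K.filter (fun v => ρ (host v) = y u), (ipc v : ℤ)
        ≤ (ims G (cz G Z T hm) (tlo G T hm) (σ (y u)) u : ℤ) := a3
      exact_mod_cast b3) h0
    have d1 : ∀ f : Itm V → ℤ, ∑ u ∈ K \ K3, f u = ∑ u ∈ K, f u - ∑ u ∈ K3, f u :=
      fun f => sum_sdiff_eq_sub hK3
    have d2 : ∑ u ∈ K3, ((ivl u : ℤ) + 2 - 2 * (ikp (tlo G T hm) (σ i) u : ℤ))
        = ∑ u ∈ K3, ((ivl u : ℤ) + 2) - ∑ u ∈ K3, 2 * (ikp (tlo G T hm) (σ i) u : ℤ) :=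
      sum_sub_distrib _ _
    have d3 : ∑ u ∈ K, ((ikp (tlo G T hm) (σ i) u : ℤ) * ((r : ℤ) - 1 - tI G Z T hm r Z (σ i))
          - (rmr G (cz G Z T hm) (tlo G T hm) (σ i) u : ℤ))
        = ∑ u ∈ K, (ikp (tlo G T hm) (σ i) u : ℤ) * ((r : ℤ) - 1 - tI G Z T hm r Z (σ i))
          - ∑ u ∈ K, (rmr G (cz G Z T hm) (tlo G T hm) (σ i) u : ℤ) := sum_sub_distrib _ _
    have d4 := d1 fun u => 2 * (ikp (tlo G T hm) (σ i) u : ℤ)
    have d5 := d1 fun u => (rmr G (cz G Z T hm) (tlo G T hm) (σ i) u : ℤ)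
    rw [d4] at h1
    have h2 : 2 * (((r : ℤ) - 1) * sI hm r Z (σ i))
      + 2 * (∑ u ∈ K, (ikp (tlo G T hm) (σ i) u : ℤ) * ((r : ℤ) - 1 - tI G Z T hm r Z (σ i))
          - ∑ u ∈ K \ K3, (rmr G (cz G Z T hm) (tlo G T hm) (σ i) u : ℤ)) ≤ _ := h1
    rw [d5] at h2
    show 2 * (((r : ℤ) - 1) * sI hm r Z (σ i))
      + 2 * (∑ u ∈ K, ((ikp (tlo G T hm) (σ i) u : ℤ) * ((r : ℤ) - 1 - tI G Z T hm r Z (σ i))
          - (rmr G (cz G Z T hm) (tlo G T hm) (σ i) u : ℤ))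
        + ∑ u ∈ K3, (rmr G (cz G Z T hm) (tlo G T hm) (σ i) u : ℤ))
      ≤ 2 * eI G hm Z (σ i)
        + 2 * (∑ u ∈ K, 2 * (ikp (tlo G T hm) (σ i) u : ℤ)
          + ∑ u ∈ K3, ((ivl u : ℤ) + 2 - 2 * (ikp (tlo G T hm) (σ i) u : ℤ)))
          * (sI hm r Z (σ i) + 1)
        + (∑ u ∈ K, 2 * (ikp (tlo G T hm) (σ i) u : ℤ)
          + ∑ u ∈ K3, ((ivl u : ℤ) + 2 - 2 * (ikp (tlo G T hm) (σ i) u : ℤ)))
          * (∑ u ∈ K, 2 * (ikp (tlo G T hm) (σ i) u : ℤ)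
          + ∑ u ∈ K3, ((ivl u : ℤ) + 2 - 2 * (ikp (tlo G T hm) (σ i) u : ℤ)) - 1)
    rw [d2, d3]
    have d6 : ∑ u ∈ K, 2 * (ikp (tlo G T hm) (σ i) u : ℤ)
          + (∑ u ∈ K3, ((ivl u : ℤ) + 2) - ∑ u ∈ K3, 2 * (ikp (tlo G T hm) (σ i) u : ℤ))
        = ∑ u ∈ K, 2 * (ikp (tlo G T hm) (σ i) u : ℤ) - ∑ u ∈ K3, 2 * (ikp (tlo G T hm) (σ i) u : ℤ)
          + ∑ u ∈ K3, ((ivl u : ℤ) + 2) := by ring
    rw [d6]
    linarith

end TransZ

end Pool.Agent.Lib.MP_f04ccf_co
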