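import Pool.Agent.Lib.MP_f04ccf_co.M.TieC
import Pool.Agent.Lib.MP_f04ccf_co.M.ItZ

/-!
MP_f04ccf_co, PLAN W, version [C]: the tests without N-excess (LEMMA N, LEMMA N+) over the indices,
`WItC.tzN`, `WItC.slk` (also the fields `tzN`, `slk` of `ItC`; the file RowNC has them for packings).
-/

set_option autoImplicit false

namespace Pool.Agent.Lib.MP_f04ccf_co

open Finset

attribute [local instance] Classical.propDecidable

section TzC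

variable {V : Type*} {G : SimpleGraph V} {Z T : Finset V} {hm : V → V} {r m n p : ℕ}
  {φ : Finset (V × V) → Finset (Finset V) → ℕ} {B : V → Finset (V × V)}
  {Ps : V → Finset (Finset V)} {host : Itm V → V} {ρ : V → ℕ} {σ : ℕ → V}

/-- **LEMMA N over the indices, version [C]** -/
theorem WItC.tzN (hp : 2 * r ≤ p) (h : WCoreK G Z T r m n p hm)
    (W : WItC G Z T hm r n φ B Ps host ρ σ) {i : ℕ} (hi : i < n) {K : Finset (Itm V)}
    (hK : K ⊆ T.biUnion fun x => pkf (B x) (Ps x)) (hho : ∀ u ∈ K, ρ (host u) ≠ i)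
    (h0 : 0 ≤ sI hm r Z (σ i) + ∑ u ∈ K, (ikp (tlo G T hm) (σ i) u : ℤ)) :
    ((r : ℤ) - 1) * (sI hm r Z (σ i) + ∑ u ∈ K, (ikp (tlo G T hm) (σ i) u : ℤ))
      ≤ (∑ u ∈ pkf (B (σ i)) (Ps (σ i)), (ivl u : ℤ)
          + ∑ u ∈ K, (ikp (tlo G T hm) (σ i) u : ℤ))
          * (tI G Z T hm r Z (σ i)
            + 2 * (sI hm r Z (σ i) + ∑ u ∈ K, (ikp (tlo G T hm) (σ i) u : ℤ)) + 1)
        + ∑ u ∈ K, (rmr G (cz G Z T hm) (tlo G T hm) (σ i) u : ℤ) := by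
  have hiT : i < T.card := by
    rw [W.cT]
    exact hi
  refine h.tzlM hp (fun x hx => (W.pk x hx).toPk) (W.rk.mem i hiT)
    (W.pk _ (W.rk.mem i hiT)).min (fun u hu => ?_) h0
  obtain ⟨x, hx, hux⟩ := mem_biUnion.1 (hK hu)
  refine mem_biUnion.2 ⟨x, mem_erase.2 ⟨fun h1 => hho u hu ?_, hx⟩, hux⟩
  rw [W.hst x hx u hux, h1]
  exact W.rk.right i hiT

/-- **LEMMA N+ over the indices, version [C]** -/
theorem WItC.slk (hp : 2 * r ≤ p) (h : WCoreK G Z T r m n p hm)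
    (W : WItC G Z T hm r n φ B Ps host ρ σ) {i : ℕ} (hi : i < n) {K : Finset (Itm V)}
    (hK : K ⊆ T.biUnion fun x => pkf (B x) (Ps x)) (hho : ∀ u ∈ K, ρ (host u) ≠ i)
    (h0 : 0 ≤ sI hm r Z (σ i) + ∑ u ∈ K, (ikp (tlo G T hm) (σ i) u : ℤ)) :
    eI G hm Z (σ i)
        + (∑ u ∈ K, (ikp (tlo G T hm) (σ i) u : ℤ)) * tI G Z T hm r Z (σ i)
        + 2 * (∑ u ∈ K, (ikp (tlo G T hm) (σ i) u : ℤ)) * (sI hm r Z (σ i) + 1)
        + (∑ u ∈ K, (ikp (tlo G T hm) (σ i) u : ℤ))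
          * (2 * (∑ u ∈ K, (ikp (tlo G T hm) (σ i) u : ℤ)) - 1)
        + ((r : ℤ) - 1) * (sI hm r Z (σ i) + ∑ u ∈ K, (ikp (tlo G T hm) (σ i) u : ℤ))
      ≤ 2 * ((∑ u ∈ pkf (B (σ i)) (Ps (σ i)), (ivl u : ℤ)
          + ∑ u ∈ K, (ikp (tlo G T hm) (σ i) u : ℤ))
          * (tI G Z T hm r Z (σ i)
            + 2 * (sI hm r Z (σ i) + ∑ u ∈ K, (ikp (tlo G T hm) (σ i) u : ℤ)) + 1))
        + ∑ u ∈ K, (rmr G (cz G Z T hm) (tlo G T hm) (σ i) u : ℤ) := by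
  have hiT : i < T.card := by
    rw [W.cT]
    exact hi
  refine h.slkM hp (fun x hx => (W.pk x hx).toPk) (W.rk.mem i hiT)
    (W.pk _ (W.rk.mem i hiT)).min (fun u hu => ?_) h0
  obtain ⟨x, hx, hux⟩ := mem_biUnion.1 (hK hu)
  refine mem_biUnion.2 ⟨x, mem_erase.2 ⟨fun h1 => hho u hu ?_, hx⟩, hux⟩
  rw [W.hst x hx u hux, h1]
  exact W.rk.right i hiT

end TzC

end Pool.Agent.Lib.MP_f04ccf_co
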