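import Pool.Agent.Lib.MP_f04ccf_co.M.RecU
import Pool.Agent.Lib.MP_f04ccf_co.M.ItCn
import Pool.Agent.Lib.MP_f04ccf_co.M.PayTwo
import Pool.Agent.Lib.MP_f04ccf_co.M.BlkJ
import Pool.Agent.Lib.MP_f04ccf_co.M.SlotT

/-!
MP_f04ccf_co, PLAN W: the tests over the row indices, for ANY packings with the least number of parts (so for
version [B] and for version [C]).

* `RecI`: the rectangles of class edges in the cell `{i, j}`; `PayR`: the payments of the cell;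
* `TsU`: LEMMA N (`tzN`, `slk`), `(G)` for both homes (`jgg`), the row test with the columns of any set `J` of
  rows at any levels (`rowj`: no sign condition, any payments, any saving), with partial columns (`rowa`),
  the tests of sets of rows (`blkJ`, `tstT`);
* `WCoreK.tsu`: the transport.
-/

set_option autoImplicit false

namespace Pool.Agent.Lib.MP_f04ccf_co

open Finset

attribute [local instance] Classical.propDecidable

section StrT

variable {ι : Type*}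

/-- **a rectangle `a × b` of class edges** of the cell `{i, j}`: `a` points of the class of `i` which are not
copies of PC pairs of `i` with tail `j`, `b` points of the class of `j` off `q` used ones: the misses of any
item, or of a representative of an item `w` of value one of either home (`nu` its free points, for a PC pair
`ar` all its missed points at home) -/
def RecI (U : Finset ι) (ho : ι → ℕ) (vl : ι → ℤ) (kp ms : ℕ → ι → ℤ) (be : ℕ → ℕ → ℤ)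
    (pc ar : ι → ℤ) (nu : ℕ → ι → ℤ) (i j : ℕ) (q a b : ℤ) : Prop :=
  0 ≤ a ∧ 0 ≤ b ∧ ∃ w ∈ U,
    (a ≤ ms i w - be i j ∧ b ≤ ms j w - q)
    ∨ (ho w = i ∧ vl w = 1 ∧ kp j w ≠ 0 ∧ a ≤ nu j w
        ∧ (b ≤ nu j w + pc w - q ∨ b ≤ ms j w - q ∨ pc w = 1 ∧ b ≤ ar w - q))
    ∨ (ho w = j ∧ vl w = 1 ∧ kp i w ≠ 0
        ∧ (a ≤ nu i w + pc w - be i j ∨ a ≤ ms i w - be i j ∨ pc w = 1 ∧ a ≤ ar w - be i j)
        ∧ (b ≤ nu i w ∨ pc w = 1 ∧ b ≤ ar w - q))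

/-- **the payment `P` of the cell `{i, j}`** in a test of the row `i` with the column of `j`, `q` used class
points: the arcs of the cell, or a rectangle -/
def PayR (U : Finset ι) (ho : ι → ℕ) (vl : ι → ℤ) (kp ms : ℕ → ι → ℤ) (Nx be : ℕ → ℕ → ℤ)
    (pc ar : ι → ℤ) (pw : ℕ → ℕ → ℤ) (nu : ℕ → ι → ℤ) (i j : ℕ) (q P : ℤ) : Prop :=
  P ≤ Nx i j + pw i j
  ∨ ∃ a b : ℤ, RecI U ho vl kp ms be pc ar nu i j q a b ∧ P ≤ a * b

/-- **the tests**, for any packings with the least number of parts -/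
structure TsU (R : ℤ) (n : ℕ) (t s h e : ℕ → ℤ) (E : ℕ → ℕ → ℤ) (U : Finset ι)
    (ho : ι → ℕ) (vl : ι → ℤ) (kp ms mr mn : ℕ → ι → ℤ) (mu : ℕ → ℤ) (Nx : ℕ → ℕ → ℤ)
    (be : ℕ → ℕ → ℤ) (pc ar : ι → ℤ) (pw : ℕ → ℕ → ℤ) (nu : ℕ → ι → ℤ) : Prop where
  tzN : ∀ i < n, ∀ K ⊆ U, (∀ u ∈ K, ho u ≠ i) → 0 ≤ s i + ∑ u ∈ K, kp i u →
    R * (s i + ∑ u ∈ K, kp i u)
      ≤ (mu i + ∑ u ∈ K, kp i u) * (t i + 2 * (s i + ∑ u ∈ K, kp i u) + 1) + ∑ u ∈ K, mr i u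
  slk : ∀ i < n, ∀ K ⊆ U, (∀ u ∈ K, ho u ≠ i) → 0 ≤ s i + ∑ u ∈ K, kp i u →
    e i + (∑ u ∈ K, kp i u) * t i + 2 * (∑ u ∈ K, kp i u) * (s i + 1)
        + (∑ u ∈ K, kp i u) * (2 * (∑ u ∈ K, kp i u) - 1) + R * (s i + ∑ u ∈ K, kp i u)
      ≤ 2 * ((mu i + ∑ u ∈ K, kp i u) * (t i + 2 * (s i + ∑ u ∈ K, kp i u) + 1))
        + ∑ u ∈ K, mr i u
  jgg : ∀ i < n, ∀ j < n, i ≠ j →
    (be i j + be j i - 1) * R ≤ t i * t j + (be i j + be j i) ^ 2
  rowj : ∀ i < n, ∀ J ⊆ range n, i ∉ J → ∀ K ⊆ U, (∀ u ∈ K, ho u ≠ i) → ∀ g : ι → ℕ,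
    (∀ u ∈ K, 1 ≤ g u) → (∀ u ∈ K, (g u : ℤ) ≤ kp i u) → ∀ P : ℕ → ℤ,
    (∀ j ∈ J, PayR U ho vl kp ms Nx be pc ar pw nu i j
      (∑ u ∈ K, if ho u = j then pc u else 0) (P j)) →
    ∀ sv : ℤ, SavJ n ho vl kp pc i g J K sv →
    2 * R * J.card * s i - J.card * (J.card - 1) * R - ((∑ j ∈ J, t j) ^ 2 - ∑ j ∈ J, t j ^ 2)
      + 2 * ∑ u ∈ K, (g u * (R - t i) - if kp i u ≤ (g u : ℤ) then mn i u else 0)
      + 2 * ∑ j ∈ J, ∑ u ∈ U.filter (fun u => ho u = i), (kp j u * (R - t j) - ms j u)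
      + 2 * ∑ j ∈ J, P j + sv
      ≤ 2 * e i
        + 2 * (∑ u ∈ K, ((g u : ℤ) + 1 - if ho u ∈ J then pc u else 0)
            + (J.card * R - ∑ j ∈ J, t j)) * (s i + 1)
        + (∑ u ∈ K, ((g u : ℤ) + 1 - if ho u ∈ J then pc u else 0))
          * (∑ u ∈ K, ((g u : ℤ) + 1 - if ho u ∈ J then pc u else 0) - 1)
        + 2 * ∑ u ∈ K, (if ho u ∈ J
            then ar u - ((g u : ℤ) + 1 - pc u) * (∑ j ∈ J, t j - t (ho u))
            else ((g u : ℤ) + 1) * (R - ∑ j ∈ J, t j))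
        + 2 * ∑ j ∈ J, (∑ u ∈ K, if ho u = j then pc u else 0) * be i j
  rowa : ∀ i < n, ∀ j < n, i ≠ j → ∀ K ⊆ U, (∀ u ∈ K, ho u ≠ i) → ∀ g : ι → ℕ,
    (∀ u ∈ K, 1 ≤ g u) → (∀ u ∈ K, (g u : ℤ) ≤ kp i u) → ∀ a b : ℤ,
    RecI U ho vl kp ms be pc ar nu i j (∑ u ∈ K, if ho u = j then pc u else 0) a b →
    ∀ sv : ℤ, SavJ n ho vl kp pc i g ∅ K sv →
    2 * R * s i
      + 2 * ∑ u ∈ K, (g u * (R - t i) - if kp i u ≤ (g u : ℤ) then mn i u else 0)
      + 2 * ∑ u ∈ U.filter (fun u => ho u = i), (b * kp j u - min b (ms j u))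
      + 2 * (a * b) + sv
      ≤ 2 * e i
        + 2 * (∑ u ∈ K, ((g u : ℤ) + 1) + b) * (s i + 1)
        + (∑ u ∈ K, ((g u : ℤ) + 1)) * (∑ u ∈ K, ((g u : ℤ) + 1) - 1)
        + 2 * ∑ u ∈ K, (if ho u = j then min (ar u) (b * ((g u : ℤ) + 1))
            else b * ((g u : ℤ) + 1))
  blkJ : ∀ Q ⊆ range n, ∀ J ⊆ range n, Disjoint Q J →
    2 * (R + 1 - Q.card) * ∑ i ∈ Q, s i + ∑ i ∈ Q, ∑ l ∈ Q.erase i, E i l + ∑ i ∈ Q, s i ^ 2
      + 2 * (J.card - 1) * R * ∑ i ∈ Q, s i - J.card * (J.card - 1) * R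
      - ((∑ j ∈ J, t j) ^ 2 - ∑ j ∈ J, t j ^ 2)
      + 2 * ∑ j ∈ J, ∑ i ∈ Q, (∑ u ∈ U.filter (fun u => ho u = i), (kp j u * (R - t j) - ms j u)
        + Nx i j + pw i j)
      ≤ 2 * ∑ i ∈ Q, e i + Q.card * (Q.card - 1) * (R + 1) + (∑ i ∈ Q, s i) ^ 2
        + 2 * (J.card * R - ∑ j ∈ J, t j) * (Q.card + ∑ i ∈ Q, s i)
  tstT : ∀ D ⊆ range n, ∀ K ⊆ U, (∀ u ∈ K, ho u ∉ D) → (∀ u ∈ K, pc u = 0) → ∀ I : Finset ℕ,
    (∀ u ∈ K, ho u ∈ I) → (∀ u ∈ K, ∀ l < n, kp l u ≠ 0 → l ∈ I) → ∀ q : ℤ,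
    2 * (R + 1 - D.card) * ∑ i ∈ D, s i + ∑ i ∈ D, ∑ j ∈ D.erase i, E i j + ∑ i ∈ D, s i ^ 2
      + 2 * ∑ u ∈ K, ∑ i ∈ D, (kp i u * (R - t i) - ms i u)
      ≤ 2 * ∑ i ∈ D, e i + D.card * (D.card - 1) * (R + 1) + (∑ i ∈ D, s i) ^ 2
        + (∑ u ∈ K, (vl u + 1)) * (∑ u ∈ K, (vl u + 1) - 1)
        - 2 * q * (∑ u ∈ K, (vl u + 1)) + I.card * (q * (q + 1))
        + 2 * (∑ u ∈ K, (vl u + 1)) * (D.card + ∑ i ∈ D, s i)

end StrT

section TransT

variable {V : Type*} {G : SimpleGraph V} {Z T : Finset V} {hm : V → V} {r m n p : ℕ}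
  {B : V → Finset (V × V)} {Ps : V → Finset (Finset V)} {host : Itm V → V} {ρ : V → ℕ}
  {σ : ℕ → V}

/-- the rectangles over the row indices -/
theorem WCoreK.recI (hp : 2 * r ≤ p) (h : WCoreK G Z T r m n p hm)
    (hpk : ∀ x ∈ T, Pk G (cz G Z T hm x) (hz G Z T hm x) (tlo G T hm) (B x) (Ps x))
    (hmin : ∀ x ∈ T, ∀ B' Ps', Pk G (cz G Z T hm x) (hz G Z T hm x) (tlo G T hm) B' Ps' →
      (Ps x).card ≤ Ps'.card)
    (hst : ∀ x ∈ T, ∀ u ∈ pkf (B x) (Ps x), host u = x)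
    (rk : Rank T (tI G Z T hm r Z) ρ σ) {i j : ℕ} (hi : i < n) (hj : j < n) (hij : i ≠ j)
    {K : Finset (Itm V)}
    (hK : K ⊆ (T.erase (σ i)).biUnion fun x => pkf (B x) (Ps x))
    (hk : ∀ u ∈ K, ikp (tlo G T hm) (σ i) u ≠ 0) {X : Finset V → Finset V}
    (hX : ∀ Q, X Q ⊆ oth (tlo G T hm) (σ i) Q) {a b : ℤ}
    (hR : RecI (T.biUnion fun x => pkf (B x) (Ps x)) (fun u => ρ (host u))
      (fun u => (ivl u : ℤ)) (fun i u => (ikp (tlo G T hm) (σ i) u : ℤ))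
      (fun i u => (ims G (cz G Z T hm) (tlo G T hm) (σ i) u : ℤ))
      (fun i j => pcn (tlo G T hm) B (σ i) (σ j)) (fun u => (ipc u : ℤ))
      (fun u => (iar G (cz G Z T hm (host u)) u : ℤ))
      (fun j u => (nui G (cz G Z T hm (host u)) (tlo G T hm) (B (host u)) (σ j) u : ℤ)) i j
      (∑ u ∈ K, if ρ (host u) = j then (ipc u : ℤ) else 0) a b) :
    RecF G Z T hm B (K.biUnion (rpts (tlo G T hm) X (σ i))) (σ i) (σ j) a b := by
  have hcard := h.toWHom.cardT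
  have hmem : ∀ i < n, σ i ∈ T := fun i hi => rk.mem i (by rw [hcard]; exact hi)
  have hzj : σ i ≠ σ j := fun h1 =>
    hij (rk.sinj (by rw [hcard]; exact hi) (by rw [hcard]; exact hj) h1)
  have hmemU : ∀ u ∈ T.biUnion fun x => pkf (B x) (Ps x), ∀ j < n,
      (ρ (host u) = j ↔ u ∈ pkf (B (σ j)) (Ps (σ j))) := by
    intro u hu j hj
    rw [← fil_host hst rk (by rw [hcard]; exact hj), mem_filter]
    exact ⟨fun h1 => ⟨hu, h1⟩, fun h1 => h1.2⟩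
  have hKU : K ⊆ T.biUnion fun x => pkf (B x) (Ps x) :=
    hK.trans (biUnion_subset_biUnion_of_subset_left _ (erase_subset _ _))
  have hq : ∑ u ∈ K, (if ρ (host u) = j then (ipc u : ℤ) else 0)
      = ∑ u ∈ K, (if u ∈ pkf (B (σ j)) (Ps (σ j)) then (ipc u : ℤ) else 0) := by
    refine sum_congr rfl fun u hu => ?_
    have h1 := hmemU u (hKU hu) j hj
    by_cases h2 : ρ (host u) = j
    · rw [if_pos h2, if_pos (h1.1 h2)]
    · rw [if_neg h2, if_neg fun h3 => h2 (h1.2 h3)]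
  rw [hq] at hR
  obtain ⟨ha, hb, w, hw, hR⟩ := hR
  rcases hR with ⟨h1, h2⟩ | ⟨h1, h2, h3, h4, h5⟩ | ⟨h1, h2, h3, h4, h5⟩
  · obtain ⟨x', hx', hwx⟩ := mem_biUnion.1 hw
    exact (h.recF_item hpk (hmem i hi) (hmem j hj) hzj hK hk hX hx' hwx).mono h1 h2
  · have hwi := (hmemU w hw i hi).1 h1
    have hwh := hst _ (hmem i hi) w hwi
    beta_reduce at h2 h3 h4 h5
    rw [hwh] at h4 h5
    exact (h.recF_home hp hpk hmin (hmem i hi) (hmem j hj) hzj hK hk hX hwi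
      (by exact_mod_cast h2) (by exact_mod_cast h3) (b := b)
      (h5.imp_right (Or.imp_right fun h6 => ⟨by exact_mod_cast h6.1, h6.2⟩))).mono h4 le_rfl
  · have hwj := (hmemU w hw j hj).1 h1
    have hwh := hst _ (hmem j hj) w hwj
    beta_reduce at h2 h3 h4 h5
    rw [hwh] at h4 h5
    exact h.recF_tail hp hpk hmin (hmem i hi) (hmem j hj) hzj hK hk hX hwj
      (by exact_mod_cast h2) (by exact_mod_cast h3)
      (h4.imp_right (Or.imp_right fun h6 => ⟨by exact_mod_cast h6.1, h6.2⟩))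
      (h5.imp_right fun h6 => ⟨by exact_mod_cast h6.1, h6.2⟩)

/-- the misses at a level, as an integer -/
lemma ilm_cast {C : V → Finset V} {tl : V → V} {z : V} {g : Itm V → ℕ} {u : Itm V} :
    (ilm G C tl z g u : ℤ) = if (ikp tl z u : ℤ) ≤ (g u : ℤ) then (imn G C tl z u : ℤ) else 0 := by
  unfold ilm
  by_cases h1 : ikp tl z u ≤ g u
  · rw [if_pos h1, if_pos (by exact_mod_cast h1)]
  · rw [if_neg h1, if_neg (by exact_mod_cast h1)]
    rfl

/-- **the transport to `TsU`**, any packings with the least number of parts -/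
theorem WCoreK.tsu (hp : 2 * r ≤ p) (h : WCoreK G Z T r m n p hm)
    (hpk : ∀ x ∈ T, Pk G (cz G Z T hm x) (hz G Z T hm x) (tlo G T hm) (B x) (Ps x))
    (hmin : ∀ x ∈ T, ∀ B' Ps', Pk G (cz G Z T hm x) (hz G Z T hm x) (tlo G T hm) B' Ps' →
      (Ps x).card ≤ Ps'.card)
    (hst : ∀ x ∈ T, ∀ u ∈ pkf (B x) (Ps x), host u = x)
    (rk : Rank T (tI G Z T hm r Z) ρ σ) :
    TsU ((r : ℤ) - 1) n (fun i => tI G Z T hm r Z (σ i)) (fun i => sI hm r Z (σ i))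
      (fun i => hI G Z T hm Z (σ i)) (fun i => eI G hm Z (σ i))
      (fun i j => EI G hm Z (σ i) (σ j)) (T.biUnion fun x => pkf (B x) (Ps x))
      (fun u => ρ (host u)) (fun u => (ivl u : ℤ)) (fun i u => (ikp (tlo G T hm) (σ i) u : ℤ))
      (fun i u => (ims G (cz G Z T hm) (tlo G T hm) (σ i) u : ℤ))
      (fun i u => (rmr G (cz G Z T hm) (tlo G T hm) (σ i) u : ℤ))
      (fun i u => (imn G (cz G Z T hm) (tlo G T hm) (σ i) u : ℤ))
      (fun i => ∑ u ∈ pkf (B (σ i)) (Ps (σ i)), (ivl u : ℤ))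
      (fun i j => nxk G (cz G Z T hm (σ i)) (hz G Z T hm (σ i)) (tlo G T hm) (B (σ i)) (σ j))
      (fun i j => pcn (tlo G T hm) B (σ i) (σ j))
      (fun u => (ipc u : ℤ)) (fun u => (iar G (cz G Z T hm (host u)) u : ℤ))
      (fun i j => pfw G (cz G Z T hm (σ i)) (tlo G T hm) (B (σ i)) (σ j))
      (fun j u => (nui G (cz G Z T hm (host u)) (tlo G T hm) (B (host u)) (σ j) u : ℤ)) := by
  have hcard := h.toWHom.cardT
  have hmem : ∀ i < n, σ i ∈ T := fun i hi => rk.mem i (by rw [hcard]; exact hi)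
  have hne : ∀ i < n, ∀ j < n, i ≠ j → σ i ≠ σ j := fun i hi j hj hij h1 =>
    hij (rk.sinj (by rw [hcard]; exact hi) (by rw [hcard]; exact hj) h1)
  have hKe : ∀ i < n, ∀ K ⊆ T.biUnion fun x => pkf (B x) (Ps x), (∀ u ∈ K, ρ (host u) ≠ i) →
      K ⊆ (T.erase (σ i)).biUnion fun x => pkf (B x) (Ps x) := by
    intro i hi K hK hKh u hu
    obtain ⟨x, hx, hux⟩ := mem_biUnion.1 (hK hu)
    refine mem_biUnion.2 ⟨x, mem_erase.2 ⟨fun h1 => hKh u hu ?_, hx⟩, hux⟩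
    show ρ (host u) = i
    rw [hst x hx u hux, h1]
    exact rk.right i (by rw [hcard]; exact hi)
  have hfil : ∀ i < n, (T.biUnion fun x => pkf (B x) (Ps x)).filter (fun u => ρ (host u) = i)
      = pkf (B (σ i)) (Ps (σ i)) := fun i hi => fil_host hst rk (by rw [hcard]; exact hi)
  refine ⟨?_, ?_, ?_, ?_, ?_, ?_, ?_⟩
  · -- tzN
    intro i hi K hK hKh h0
    exact h.tzlM hp hpk (hmem i hi) (hmin _ (hmem i hi)) (hKe i hi K hK hKh) h0
  · -- slk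
    intro i hi K hK hKh h0
    exact h.slkM hp hpk (hmem i hi) (hmin _ (hmem i hi)) (hKe i hi K hK hKh) h0
  · -- jgg
    intro i hi j hj hij
    exact h.jnG hp (hmem i hi) (hmem j hj) (hne i hi j hj hij) (hpk _ (hmem i hi))
      (hpk _ (hmem j hj))
  · -- rowj
    intro i hi J hJ hiJ K hK hKh g hg1 hg2 P hP sv hsv
    have hJ' : ∀ j ∈ J, j < n := fun j hj => mem_range.1 (hJ hj)
    have hg2' : ∀ u ∈ K, g u ≤ ikp (tlo G T hm) (σ i) u := fun u hu => by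
      exact_mod_cast hg2 u hu
    have hk : ∀ u ∈ K, ikp (tlo G T hm) (σ i) u ≠ 0 := fun u hu h3 => by
      have := hg1 u hu
      have := hg2' u hu
      omega
    have hK' := hKe i hi K hK hKh
    have hX : ∀ Q, xlv G (cz G Z T hm) (tlo G T hm) (σ i) g Q ⊆ oth (tlo G T hm) (σ i) Q :=
      fun Q => xlv_sub
    have hJT : J.image σ ⊆ T := by
      intro x hx
      obtain ⟨j, hj, rfl⟩ := mem_image.1 hx
      exact hmem j (hJ' j hj)
    have hzJ : σ i ∉ J.image σ := by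
      intro hx
      obtain ⟨j, hj, h1⟩ := mem_image.1 hx
      exact hne j (hJ' j hj) i hi (fun h2 => hiJ (h2 ▸ hj)) h1
    have hpay : ∀ x ∈ J.image σ, PayC G Z T hm B Ps K
        (xlv G (cz G Z T hm) (tlo G T hm) (σ i) g) (σ i) x (P (ρ x)) := by
      intro x hx
      obtain ⟨j, hj, rfl⟩ := mem_image.1 hx
      have hjn := hJ' j hj
      rw [rk.right j (by rw [hcard]; exact hjn)]
      have hij : i ≠ j := fun h2 => hiJ (h2 ▸ hj)
      rcases hP j hj with h1 | ⟨a, b, h1, h2⟩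
      · exact (h.payC_cell hp hpk (hmem i hi) (hmem j hjn) (hne i hi j hjn hij) hK' hk hX).mono h1
      · exact (WCoreK.payC_rec h1.2.1
          (h.recI hp hpk hmin hst rk hi hjn hij hK' hk hX h1)).mono h2
    have hE := h.rowM_pay hpk (J.image σ).card (hmem i hi) hJT hzJ hK' hk hX hpay
    have h1 := h.toWHom.rowLS hpk hst rk hi hJ' hiJ hK hKh hg1 hg2' hE
      (h.savJJ hpk hmin hst rk hi hJ' hK hKh hg1 hg2' hsv)
    have e1 : ∑ x ∈ J.image σ, P (ρ x) = ∑ j ∈ J, P j := by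
      rw [sum_image fun i hi j hj h1 => rk.sinj (by rw [hcard]; exact hJ' i hi)
        (by rw [hcard]; exact hJ' j hj) h1]
      exact sum_congr rfl fun j hj => by rw [rk.right j (by rw [hcard]; exact hJ' j hj)]
    have e2 : ∑ u ∈ K, (if ρ (host u) ∈ J
          then (iar G (cz G Z T hm (host u)) u : ℤ) - ((g u : ℤ) + 1 - ipc u)
            * (∑ j ∈ J, tI G Z T hm r Z (σ j) - tI G Z T hm r Z (host u))
          else ((g u : ℤ) + 1) * ((r : ℤ) - 1 - ∑ j ∈ J, tI G Z T hm r Z (σ j)))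
        = ∑ u ∈ K, (if ρ (host u) ∈ J
          then (iar G (cz G Z T hm (host u)) u : ℤ) - ((g u : ℤ) + 1 - ipc u)
            * (∑ j ∈ J, tI G Z T hm r Z (σ j) - tI G Z T hm r Z (σ (ρ (host u))))
          else ((g u : ℤ) + 1) * ((r : ℤ) - 1 - ∑ j ∈ J, tI G Z T hm r Z (σ j))) := by
      refine sum_congr rfl fun u hu => ?_
      obtain ⟨x, hx, hux⟩ := mem_biUnion.1 (hK hu)
      have h3 : σ (ρ (host u)) = host u := by
        rw [hst x hx u hux]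
        exact rk.left x hx
      rw [h3]
    rw [e1, e2] at h1
    simp only [ilm_cast] at h1
    exact h1
  · -- rowa
    intro i hi j hj hij K hK hKh g hg1 hg2 a b hR sv hsv
    have hg2' : ∀ u ∈ K, g u ≤ ikp (tlo G T hm) (σ i) u := fun u hu => by
      exact_mod_cast hg2 u hu
    have hk : ∀ u ∈ K, ikp (tlo G T hm) (σ i) u ≠ 0 := fun u hu h3 => by
      have := hg1 u hu
      have := hg2' u hu
      omega
    have hK' := hKe i hi K hK hKh
    have h1 := h.savJJ hpk hmin hst rk hi (J := ∅) (fun j hj => absurd hj (notMem_empty _)) hK hKh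
      hg1 hg2' hsv
    rw [image_empty, biUnion_empty, sdiff_empty] at h1
    have h2 := h.rowALI hpk (hmem i hi) (hmem j hj) (hne i hi j hj hij) hK' hg1 hg2' hR.1 hR.2.1
      (h.recI hp hpk hmin hst rk hi hj hij hK' hk (fun Q => xlv_sub) hR) h1
    simp only [ilm_cast] at h2
    beta_reduce
    rw [hfil i hi]
    have e1 : ∑ u ∈ K, (if u ∈ pkf (B (σ j)) (Ps (σ j))
          then min (iar G (cz G Z T hm (σ j)) u : ℤ) (b * ((g u : ℤ) + 1))
          else b * ((g u : ℤ) + 1))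
        = ∑ u ∈ K, (if ρ (host u) = j
          then min (iar G (cz G Z T hm (host u)) u : ℤ) (b * ((g u : ℤ) + 1))
          else b * ((g u : ℤ) + 1)) := by
      refine sum_congr rfl fun u hu => ?_
      have h3 : ρ (host u) = j ↔ u ∈ pkf (B (σ j)) (Ps (σ j)) := by
        rw [← hfil j hj, mem_filter]
        exact ⟨fun h1 => ⟨hK hu, h1⟩, fun h1 => h1.2⟩
      by_cases h4 : ρ (host u) = j
      · rw [if_pos h4, if_pos (h3.1 h4), hst _ (hmem j hj) u (h3.1 h4)]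
      · rw [if_neg h4, if_neg fun h5 => h4 (h3.2 h5)]
    rw [e1] at h2
    exact h2
  · -- blkJ
    intro Q hQ J hJ hQJ
    have h1 := h.blkJ hp hpk hst rk (Q := Q) (J := J) (fun i hi => mem_range.1 (hQ hi))
      (fun j hj => mem_range.1 (hJ hj)) hQJ
    have e1 : (r : ℤ) - 1 + 1 = r := by ring
    beta_reduce
    rw [e1]
    exact h1
  · -- tstT
    intro D hD K hK hKh hpc I hI hIt q
    exact h.toWHom.tstT hpk hst rk hD hK hKh hpc hI hIt q

end TransT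

end Pool.Agent.Lib.MP_f04ccf_co
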