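import Pool.Agent.Lib.MP_f04ccf_co.M.SubDP
import Pool.Agent.Lib.MP_f04ccf_co.M.EnDI
import Pool.Agent.Lib.MP_f04ccf_co.M.TsU

/-!
MP_f04ccf_co, notes 17622 (L1), 17700: the row test on a sub-slot over the row indices, at any levels: a set `D` of
hosted items is dropped (the members; the class points of dropped missing pairs stay).

* `keepX_kpU`, `CP_keep0`, `pcs_kp`: the sub-slot over the items;
* `WHom.rowLSD`, `WHom.rowLD`: T, T+, T++ with `D` dropped at any levels, any payment, any saving, no sign condition;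
-/

set_option autoImplicit false

namespace Pool.Agent.Lib.MP_f04ccf_co

open Finset

attribute [local instance] Classical.propDecidable

section DrU

variable {V : Type*} {G : SimpleGraph V} {Z T : Finset V} {hm : V → V} {r m n p : ℕ}
  {B : V → Finset (V × V)} {Ps : V → Finset (Finset V)}

/-- the dropped points -/
lemma keepX_kpU {z : V} {D : Finset (Itm V)} {XC : Finset V}
    (h : Pk G (cz G Z T hm z) (hz G Z T hm z) (tlo G T hm) (B z) (Ps z))
    (hD : D ⊆ pkf (B z) (Ps z)) :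
    keepX G Z T hm z (kpB (B z) D) (kpP (Ps z) D) XC = D.biUnion imem ∪ XC := by
  unfold keepX keepH
  rw [← h.home_kp hD, Finset.sdiff_sdiff_eq_self (h.drop_sub hD)]

/-- the class points stay -/
lemma CP_keep0 {z : V} {B1 : Finset (V × V)} {P1 : Finset (Finset V)} :
    CP G Z T (fun x => (Z \ keepX G Z T hm z B1 P1 ∅).filter fun v => hm v = x)
      = cz G Z T hm := by
  funext x
  rw [CP_sub']
  refine Finset.sdiff_eq_self_of_disjoint (disjoint_left.2 fun v hv hv' => ?_)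
  unfold keepX at hv'
  rw [union_empty] at hv'
  have h1 := (mem_sdiff.1 hv').1
  have h2 : x = z := ((mem_filter.1 (mem_CP.1 hv).1).2).symm.trans (mem_filter.1 (mem_HP.1 h1).1).2
  subst h2
  exact (mem_HP.1 h1).2 (mem_CP.1 hv).2

/-- the kept PC pairs of a tail -/
lemma pcs_kp {Q : Finset (V × V)} {Pt : Finset (Finset V)} {D : Finset (Itm V)}
    (tl : V → V) (hD : D ⊆ pkf Q Pt) (y : V) :
    ((pcs tl (kpB Q D) y).card : ℤ)
      = ((pcs tl Q y).card : ℤ) - ∑ u ∈ D, (ipc u : ℤ) * ikp tl y u := by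
  rw [← sum_ipc tl y (kpB Q D) (kpP Pt D), ← sum_ipc tl y Q Pt, pkf_kp]
  have h1 := sum_sdiff (f := fun u => (ipc u : ℤ) * ikp tl y u) hD
  linarith

/-- **T, T+, T++ of a sub-slot at any levels over the items**: members `X` leave, the class points stay -/
theorem WHom.rowLSD (h : WHom G Z T r m n hm) {host : Itm V → V} {z : V} {X : Finset V}
    (hX : X ⊆ Z.filter fun v => hm v = z) (hzX : z ∉ X)
    (hCP : CP G Z T (fun x => (Z \ X).filter fun v => hm v = x) = cz G Z T hm)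
    {U : V → Finset (Itm V)}
    (hfam : ∀ x ∈ T, Fam (co G) (CP G Z T fun x => (Z \ X).filter fun v => hm v = x)
      (HP G Z T fun x => (Z \ X).filter fun v => hm v = x) (tlo G T hm) x (U x))
    (hst : ∀ x ∈ T, ∀ u ∈ U x, host u = x)
    {J : Finset V} (hJ : J ⊆ T) {K : Finset (Itm V)}
    (hK : K ⊆ (T.erase z).biUnion U) {g : Itm V → ℕ}
    (hg1 : ∀ u ∈ K, 1 ≤ g u) (hg2 : ∀ u ∈ K, g u ≤ ikp (tlo G T hm) z u) {EX : ℤ}
    (hE : RowM G Z T hm r (fun x => (Z \ X).filter fun v => hm v = x) U J.card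
      K (xlv G (cz G Z T hm) (tlo G T hm) z g) z J EX)
    {sv : ℤ}
    (hsv : (NE G (K.biUnion (rpts (tlo G T hm) (xlv G (cz G Z T hm) (tlo G T hm) z g) z)
          \ J.biUnion (cz G Z T hm)) : ℤ) + sv
      + (K.biUnion (rpts (tlo G T hm) (xlv G (cz G Z T hm) (tlo G T hm) z g) z)
          \ J.biUnion (cz G Z T hm)).card
      ≤ ((K.biUnion (rpts (tlo G T hm) (xlv G (cz G Z T hm) (tlo G T hm) z g) z)
          \ J.biUnion (cz G Z T hm)).card : ℤ)
        * (K.biUnion (rpts (tlo G T hm) (xlv G (cz G Z T hm) (tlo G T hm) z g) z)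
          \ J.biUnion (cz G Z T hm)).card) :
    2 * ((r : ℤ) - 1) * J.card * (sI hm r Z z - X.card) - (J.card : ℤ) * (J.card - 1) * ((r : ℤ) - 1)
      - ((∑ j ∈ J, tI G Z T hm r Z j) ^ 2 - ∑ j ∈ J, tI G Z T hm r Z j ^ 2)
      + 2 * ∑ u ∈ K, ((g u : ℤ) * ((r : ℤ) - 1 - tI G Z T hm r Z z)
          - ilm G (cz G Z T hm) (tlo G T hm) z g u)
      + 2 * ∑ j ∈ J, ∑ u ∈ U z, ((ikp (tlo G T hm) j u : ℤ)
          * ((r : ℤ) - 1 - tI G Z T hm r Z j) - ims G (cz G Z T hm) (tlo G T hm) j u)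
      + EX + sv
      ≤ 2 * eI G hm (Z \ X) z
        + 2 * (∑ u ∈ K, ((g u : ℤ) + 1 - if host u ∈ J then (ipc u : ℤ) else 0)
            + ((J.card : ℤ) * ((r : ℤ) - 1) - ∑ j ∈ J, tI G Z T hm r Z j))
          * (sI hm r Z z - X.card + 1)
        + (∑ u ∈ K, ((g u : ℤ) + 1 - if host u ∈ J then (ipc u : ℤ) else 0))
          * (∑ u ∈ K, ((g u : ℤ) + 1
              - if host u ∈ J then (ipc u : ℤ) else 0) - 1)
        + 2 * ∑ u ∈ K, (if host u ∈ J
            then (iar G (cz G Z T hm (host u)) u : ℤ)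
              - ((g u : ℤ) + 1 - ipc u)
                * (∑ j ∈ J, tI G Z T hm r Z j - tI G Z T hm r Z (host u))
            else ((g u : ℤ) + 1)
              * ((r : ℤ) - 1 - ∑ j ∈ J, tI G Z T hm r Z j))
        + 2 * ∑ j ∈ J, (∑ u ∈ K, (if host u = j then (ipc u : ℤ) else 0))
          * (∑ u ∈ U z, (ipc u : ℤ) * ikp (tlo G T hm) j u) := by
  obtain ⟨S, hSd⟩ : ∃ S : V → Finset V, S = fun x => (Z \ X).filter fun v => hm v = x := ⟨_, rfl⟩
  have hC := h.csysD X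
  have hW := h.wsysD hX hzX
  rw [← hSd] at hfam hE hC hW hCP
  obtain ⟨C, hCd⟩ : ∃ C : V → Finset V, C = cz G Z T hm := ⟨_, rfl⟩
  obtain ⟨tl, htl⟩ : ∃ tl : V → V, tl = tlo G T hm := ⟨_, rfl⟩
  rw [← hCP] at hE hsv
  have h1 := Fam.rowLS_of h.F.toPFrame h.hh hW hC hfam hst hJ hK hg1 hg2 hE hsv
  clear hE hsv
  rw [hCP] at h1
  rw [← hCd, ← htl] at h1 ⊢
  have hcard : ∀ x, ((C x).card : ℤ) = (r : ℤ) - 1 - tI G Z T hm r Z x := fun x => by
    rw [hCd]
    exact card_CP_eq Z x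
  have e1 : ∑ u ∈ K, ((g u : ℤ) * ((r : ℤ) - 1 - tI G Z T hm r Z z) - ilm G C tl z g u)
      = ∑ u ∈ K, (((C z).card : ℤ) * g u - ilm G C tl z g u) := by
    refine sum_congr rfl fun u _ => ?_
    rw [← hcard]
    ring
  have hq0 : ∀ j ∈ J, ((J.card : ℤ) - 1) * ((r : ℤ) - 1) = ∑ l ∈ J.erase j, ((r : ℤ) - 1) := by
    intro j hj
    have h1 : ((J.erase j).card : ℤ) + 1 = J.card := by exact_mod_cast card_erase_add_one hj
    rw [sum_const, nsmul_eq_mul]
    have h2 : ((J.erase j).card : ℤ) = (J.card : ℤ) - 1 := by linarith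
    rw [h2]
  have hsc : ∑ j ∈ J, ((C j).card : ℤ)
      = (J.card : ℤ) * ((r : ℤ) - 1) - ∑ j ∈ J, tI G Z T hm r Z j := by
    rw [sum_congr rfl fun j _ => hcard j, sum_sub_distrib, sum_const, nsmul_eq_mul]
  have e5 : ∑ u ∈ K, (if host u ∈ J
        then (iar G (C (host u)) u : ℤ) + ((g u : ℤ) + 1 - ipc u)
          * (∑ l ∈ J.erase (host u), ((C l).card : ℤ) - ((J.card : ℤ) - 1) * ((r : ℤ) - 1))
        else ((g u : ℤ) + 1)
          * (∑ j ∈ J, ((C j).card : ℤ) - ((J.card : ℤ) - 1) * ((r : ℤ) - 1)))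
      = ∑ u ∈ K, (if host u ∈ J
        then (iar G (C (host u)) u : ℤ) - ((g u : ℤ) + 1 - ipc u)
          * (∑ j ∈ J, tI G Z T hm r Z j - tI G Z T hm r Z (host u))
        else ((g u : ℤ) + 1) * ((r : ℤ) - 1 - ∑ j ∈ J, tI G Z T hm r Z j)) := by
    refine sum_congr rfl fun u _ => ?_
    by_cases h4 : host u ∈ J
    · rw [if_pos h4, if_pos h4, hq0 _ h4, ← sum_sub_distrib]
      have h5 : ∑ l ∈ J.erase (host u), (((C l).card : ℤ) - ((r : ℤ) - 1))
          = - (∑ j ∈ J, tI G Z T hm r Z j - tI G Z T hm r Z (host u)) := by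
        rw [← add_sum_erase J _ h4, add_sub_cancel_left, ← sum_neg_distrib]
        refine sum_congr rfl fun l _ => ?_
        rw [hcard]
        ring
      rw [h5]
      ring
    · rw [if_neg h4, if_neg h4, hsc]
      have h5 : (J.card : ℤ) * ((r : ℤ) - 1) - ∑ j ∈ J, tI G Z T hm r Z j
          - ((J.card : ℤ) - 1) * ((r : ℤ) - 1) = (r : ℤ) - 1 - ∑ j ∈ J, tI G Z T hm r Z j := by
        ring
      rw [h5]
  have e6 : ∀ j, ∑ u ∈ U z, iht G C tl j u
      = ∑ u ∈ U z, ((ikp tl j u : ℤ) * ((r : ℤ) - 1 - tI G Z T hm r Z j)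
        - ims G C tl j u) := by
    intro j
    refine sum_congr rfl fun u _ => ?_
    unfold iht
    rw [hcard]
    ring
  have h5 := two_eI (G := G) (hm := hm) (Z \ X) z
  have h6 : (((Z.filter fun v => hm v = z).card : ℤ) - r) = sI hm r Z z := rfl
  have h7 := slot_sub hX
  have hdg : (0 : ℤ) ≤ ∑ j ∈ J, ∑ i ∈ J.erase j, ∑ v ∈ C i, (dg G (C j) v : ℤ) :=
    sum_nonneg fun _ _ => sum_nonneg fun _ _ => sum_nonneg fun _ _ => Nat.cast_nonneg _
  have hcc : ∑ j ∈ J, ∑ i ∈ J.erase j, ((C i).card : ℤ) * (C j).card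
      = (J.card : ℤ) * (J.card - 1) * ((r : ℤ) - 1) ^ 2
        - 2 * ((J.card : ℤ) - 1) * ((r : ℤ) - 1) * ∑ j ∈ J, tI G Z T hm r Z j
        + ((∑ j ∈ J, tI G Z T hm r Z j) ^ 2 - ∑ j ∈ J, tI G Z T hm r Z j ^ 2) := by
    rw [sum_offdiag J fun j i => ((C i).card : ℤ) * (C j).card]
    have h7 : ∑ j ∈ J, ∑ i ∈ J, ((C i).card : ℤ) * (C j).card = (∑ j ∈ J, ((C j).card : ℤ)) ^ 2 := by
      rw [sq, sum_mul_sum, sum_comm]
    have h8 : ∑ j ∈ J, ((C j).card : ℤ) * (C j).card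
        = (J.card : ℤ) * ((r : ℤ) - 1) ^ 2 - 2 * ((r : ℤ) - 1) * ∑ j ∈ J, tI G Z T hm r Z j
          + ∑ j ∈ J, tI G Z T hm r Z j ^ 2 := by
      have h9 : ∀ j ∈ J, ((C j).card : ℤ) * (C j).card
          = ((r : ℤ) - 1) ^ 2 - 2 * ((r : ℤ) - 1) * tI G Z T hm r Z j + tI G Z T hm r Z j ^ 2 :=
        fun j _ => by rw [hcard]; ring
      rw [sum_congr rfl h9, sum_add_distrib, sum_sub_distrib, sum_const, nsmul_eq_mul, ← mul_sum]
    rw [h7, h8, hsc]
    ring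
  have hzc : ((S z).card : ℤ) = sI hm r Z z - X.card + r := by
    rw [hSd]
    show (((Z \ X).filter fun v => hm v = z).card : ℤ) = _
    rw [h7, ← h6]
    ring
  have hne : (NE G (S z) : ℤ) = 2 * eI G hm (Z \ X) z := by
    rw [h5, hSd]
  rw [hcc, hsc, hzc, hne] at h1
  simp only [e6] at h1
  rw [hsc] at e5
  rw [e5] at h1
  rw [e1]
  generalize ∑ u ∈ K, ((g u : ℤ) + 1 - if host u ∈ J then (ipc u : ℤ) else 0) = w at *
  generalize ∑ j ∈ J, tI G Z T hm r Z j = τ at *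
  generalize ∑ j ∈ J, tI G Z T hm r Z j ^ 2 = τ2 at *
  generalize (X.card : ℤ) = x at *
  clear e5 hcc hsc
  linarith

/-- **T, T+, T++ of the sub-slot over the row indices, at any levels**: the items `D` of the row `i` are dropped
(the class points stay), columns of a set `J` of rows, any payment `EX`, any saving `sv` -/
theorem WHom.rowLD (h : WHom G Z T r m n hm)
    {host : Itm V → V} {ρ : V → ℕ} {σ : ℕ → V}
    (hpk : ∀ x ∈ T, Pk G (cz G Z T hm x) (hz G Z T hm x) (tlo G T hm) (B x) (Ps x))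
    (hst : ∀ x ∈ T, ∀ u ∈ pkf (B x) (Ps x), host u = x)
    (rk : Rank T (tI G Z T hm r Z) ρ σ) {i : ℕ} (hi : i < n) {J : Finset ℕ} (hJ : ∀ j ∈ J, j < n)
    (hiJ : i ∉ J) {D : Finset (Itm V)} (hD : D ⊆ pkf (B (σ i)) (Ps (σ i))) {K : Finset (Itm V)}
    (hK : K ⊆ T.biUnion fun x => pkf (B x) (Ps x)) (hKh : ∀ u ∈ K, ρ (host u) ≠ i)
    {g : Itm V → ℕ} (hg1 : ∀ u ∈ K, 1 ≤ g u) (hg2 : ∀ u ∈ K, g u ≤ ikp (tlo G T hm) (σ i) u)
    {EX : ℤ}
    (hE : RowM G Z T hm r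
      (fun x => (Z \ keepX G Z T hm (σ i) (kpB (B (σ i)) D) (kpP (Ps (σ i)) D) ∅).filter
        fun v => hm v = x)
      (keepU B Ps (σ i) (kpB (B (σ i)) D) (kpP (Ps (σ i)) D))
      (J.image σ).card K (xlv G (cz G Z T hm) (tlo G T hm) (σ i) g) (σ i) (J.image σ) EX) {sv : ℤ}
    (hsv : (NE G (K.biUnion (rpts (tlo G T hm) (xlv G (cz G Z T hm) (tlo G T hm) (σ i) g) (σ i))
          \ (J.image σ).biUnion (CP G Z T fun x => Z.filter fun v => hm v = x)) : ℤ) + sv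
        + (K.biUnion (rpts (tlo G T hm) (xlv G (cz G Z T hm) (tlo G T hm) (σ i) g) (σ i))
          \ (J.image σ).biUnion (CP G Z T fun x => Z.filter fun v => hm v = x)).card
      ≤ ((K.biUnion (rpts (tlo G T hm) (xlv G (cz G Z T hm) (tlo G T hm) (σ i) g) (σ i))
          \ (J.image σ).biUnion (CP G Z T fun x => Z.filter fun v => hm v = x)).card : ℤ)
        * (K.biUnion (rpts (tlo G T hm) (xlv G (cz G Z T hm) (tlo G T hm) (σ i) g) (σ i))
          \ (J.image σ).biUnion (CP G Z T fun x => Z.filter fun v => hm v = x)).card) :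
    2 * ((r : ℤ) - 1) * J.card
        * (sI hm r Z (σ i) - ∑ u ∈ D, ((ivl u : ℤ) + 1 - ipc u))
      - (J.card : ℤ) * (J.card - 1) * ((r : ℤ) - 1)
      - ((∑ j ∈ J, tI G Z T hm r Z (σ j)) ^ 2 - ∑ j ∈ J, tI G Z T hm r Z (σ j) ^ 2)
      + 2 * ∑ u ∈ K, ((g u : ℤ) * ((r : ℤ) - 1 - tI G Z T hm r Z (σ i))
        - (ilm G (cz G Z T hm) (tlo G T hm) (σ i) g u : ℤ))
      + 2 * ∑ j ∈ J, ∑ u ∈ pkf (B (σ i)) (Ps (σ i)) \ D,
        ((ikp (tlo G T hm) (σ j) u : ℤ) * ((r : ℤ) - 1 - tI G Z T hm r Z (σ j))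
          - (ims G (cz G Z T hm) (tlo G T hm) (σ j) u : ℤ))
      + EX + sv
      ≤ 2 * eI G hm (Z \ D.biUnion imem) (σ i)
        + 2 * (∑ u ∈ K, ((g u : ℤ) + 1
            - if ρ (host u) ∈ J then (ipc u : ℤ) else 0)
            + ((J.card : ℤ) * ((r : ℤ) - 1) - ∑ j ∈ J, tI G Z T hm r Z (σ j)))
          * (sI hm r Z (σ i) - ∑ u ∈ D, ((ivl u : ℤ) + 1 - ipc u) + 1)
        + (∑ u ∈ K, ((g u : ℤ) + 1
            - if ρ (host u) ∈ J then (ipc u : ℤ) else 0))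
          * (∑ u ∈ K, ((g u : ℤ) + 1
            - if ρ (host u) ∈ J then (ipc u : ℤ) else 0) - 1)
        + 2 * ∑ u ∈ K, (if ρ (host u) ∈ J
            then (iar G (cz G Z T hm (host u)) u : ℤ)
              - ((g u : ℤ) + 1 - ipc u)
                * (∑ j ∈ J, tI G Z T hm r Z (σ j) - tI G Z T hm r Z (host u))
            else ((g u : ℤ) + 1)
              * ((r : ℤ) - 1 - ∑ j ∈ J, tI G Z T hm r Z (σ j)))
        + 2 * ∑ j ∈ J, (∑ u ∈ K, (if ρ (host u) = j then (ipc u : ℤ) else 0))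
          * (pcn (tlo G T hm) B (σ i) (σ j)
            - ∑ u ∈ D, (ipc u : ℤ) * ikp (tlo G T hm) (σ j) u) := by
  have hcard := h.cardT
  have hmem : ∀ i < n, σ i ∈ T := fun i hi => rk.mem i (by rw [hcard]; exact hi)
  have hsinj : ∀ i ∈ J, ∀ j ∈ J, σ i = σ j → i = j := fun i hi j hj h1 =>
    rk.sinj (by rw [hcard]; exact hJ i hi) (by rw [hcard]; exact hJ j hj) h1
  have hmK : ∀ u ∈ K, ∃ x ∈ T, u ∈ pkf (B x) (Ps x) ∧ host u = x := by
    intro u hu
    obtain ⟨x, hx, hux⟩ := mem_biUnion.1 (hK hu)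
    exact ⟨x, hx, hux, hst x hx u hux⟩
  have hK' : K ⊆ (T.erase (σ i)).biUnion fun x => pkf (B x) (Ps x) := by
    intro u hu
    obtain ⟨x, hx, hux⟩ := mem_biUnion.1 (hK hu)
    refine mem_biUnion.2 ⟨x, mem_erase.2 ⟨fun h1 => hKh u hu ?_, hx⟩, hux⟩
    show ρ (host u) = i
    rw [hst x hx u hux, h1]
    exact rk.right i (by rw [hcard]; exact hi)
  -- the rows of `J`
  obtain ⟨J', hJ'⟩ : ∃ J', J' = J.image σ := ⟨_, rfl⟩
  have hJc : J'.card = J.card := by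
    rw [hJ']
    exact card_image_of_injOn fun i hi j hj h1 => hsinj i hi j hj h1
  have hJs : ∀ f : V → ℤ, ∑ j ∈ J', f j = ∑ j ∈ J, f (σ j) := by
    intro f
    rw [hJ', sum_image fun i hi j hj h1 => hsinj i hi j hj h1]
  have hJT : J' ⊆ T := by
    intro x hx
    rw [hJ'] at hx
    obtain ⟨j, hj, rfl⟩ := mem_image.1 hx
    exact hmem j (hJ j hj)
  have hmJ : ∀ x ∈ T, (x ∈ J' ↔ ρ x ∈ J) := by
    intro x hx
    rw [hJ', mem_image]
    constructor
    · rintro ⟨j, hj, rfl⟩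
      rw [rk.right j (by rw [hcard]; exact hJ j hj)]
      exact hj
    · intro h1
      exact ⟨ρ x, h1, rk.left x hx⟩
  have heJ : ∀ x ∈ T, ∀ j < n, (x = σ j ↔ ρ x = j) := by
    intro x hx j hj
    constructor
    · rintro rfl
      exact rk.right j (by rw [hcard]; exact hj)
    · rintro rfl
      exact (rk.left x hx).symm
  rw [← hJ'] at hE hsv
  have hpz := hpk _ (hmem i hi)
  have hX := keepX_kpU (G := G) (XC := ∅) hpz hD
  rw [union_empty] at hX
  have hkH := keepH_sub hpz (kpB_sub (D := D)) (kpP_sub (D := D))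
  have h1 := h.rowLSD (z := σ i) (X := keepX G Z T hm (σ i) (kpB (B (σ i)) D) (kpP (Ps (σ i)) D) ∅)
    (keepX_sub (empty_subset _)) (h.z_notMem_keepX (hmem i hi) (notMem_empty _)) CP_keep0
    (U := keepU B Ps (σ i) (kpB (B (σ i)) D) (kpP (Ps (σ i)) D))
    (h.famK hpk (hmem i hi) kpB_sub kpP_sub (empty_subset _) fun e _ => notMem_empty _)
    (keepU_host hst kpB_sub kpP_sub) hJT (keepU_sub hK') hg1 hg2 hE hsv
  have h2 := card_keepX (G := G) (XC := ∅) (empty_subset _) hkH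
  have h3 := hpz.card_kp hD
  have h4 : (keepH (kpB (B (σ i)) D) (kpP (Ps (σ i)) D)).card
      = ((kpB (B (σ i)) D).image Prod.fst ∪ (kpP (Ps (σ i)) D).biUnion id).card := rfl
  have h5 : hI G Z T hm Z (σ i) = ((hz G Z T hm (σ i)).card : ℤ) := rfl
  have h6 : ((keepX G Z T hm (σ i) (kpB (B (σ i)) D) (kpP (Ps (σ i)) D) ∅).card : ℤ)
      = ∑ u ∈ D, ((ivl u : ℤ) + 1 - ipc u) := by
    rw [h2, h4, h3, h5, card_empty]
    push_cast
    ring
  rw [hJs, hJs, hJs, hJs, hJc, h6, hX, keepU_self, pkf_kp] at h1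
  have e5 : ∀ f g : Itm V → ℤ, ∑ u ∈ K, (if host u ∈ J' then f u else g u)
      = ∑ u ∈ K, (if ρ (host u) ∈ J then f u else g u) := by
    intro f g
    refine sum_congr rfl fun u hu => ?_
    obtain ⟨x, hx, -, hxx⟩ := hmK u hu
    rw [hxx]
    by_cases h2 : x ∈ J'
    · rw [if_pos h2, if_pos ((hmJ x hx).1 h2)]
    · rw [if_neg h2, if_neg fun h3 => h2 ((hmJ x hx).2 h3)]
  have e6 : ∑ u ∈ K, ((g u : ℤ) + 1
        - if host u ∈ J' then (ipc u : ℤ) else 0)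
      = ∑ u ∈ K, ((g u : ℤ) + 1
        - if ρ (host u) ∈ J then (ipc u : ℤ) else 0) := by
    rw [sum_sub_distrib, sum_sub_distrib, e5]
  have e7 : ∑ j ∈ J, (∑ u ∈ K, (if host u = σ j then (ipc u : ℤ) else 0))
          * (∑ u ∈ pkf (B (σ i)) (Ps (σ i)) \ D, (ipc u : ℤ) * ikp (tlo G T hm) (σ j) u)
      = ∑ j ∈ J, (∑ u ∈ K, (if ρ (host u) = j then (ipc u : ℤ) else 0))
          * (pcn (tlo G T hm) B (σ i) (σ j)
            - ∑ u ∈ D, (ipc u : ℤ) * ikp (tlo G T hm) (σ j) u) := by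
    refine sum_congr rfl fun j hj => ?_
    have e8 : ∑ u ∈ K, (if host u = σ j then (ipc u : ℤ) else 0)
        = ∑ u ∈ K, (if ρ (host u) = j then (ipc u : ℤ) else 0) := by
      refine sum_congr rfl fun u hu => ?_
      obtain ⟨x, hx, -, hxx⟩ := hmK u hu
      rw [hxx]
      by_cases h2 : x = σ j
      · rw [if_pos h2, if_pos ((heJ x hx j (hJ j hj)).1 h2)]
      · rw [if_neg h2, if_neg fun h3 => h2 ((heJ x hx j (hJ j hj)).2 h3)]
    have e9 : ∑ u ∈ pkf (B (σ i)) (Ps (σ i)) \ D, (ipc u : ℤ) * ikp (tlo G T hm) (σ j) u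
        = pcn (tlo G T hm) B (σ i) (σ j)
            - ∑ u ∈ D, (ipc u : ℤ) * ikp (tlo G T hm) (σ j) u := by
      have e10 := sum_sdiff (f := fun u => (ipc u : ℤ) * ikp (tlo G T hm) (σ j) u) hD
      have e11 := sum_ipc (tlo G T hm) (σ j) (B (σ i)) (Ps (σ i))
      unfold pcn
      linarith
    rw [e8, e9]
  rw [e6, e5, e7] at h1
  exact h1

end DrU

end Pool.Agent.Lib.MP_f04ccf_co
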