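import Pool.Agent.Lib.MP_f04ccf_co.M.RowXY
import Pool.Agent.Lib.MP_f04ccf_co.M.SubDU

/-!
MP_f04ccf_co, note 18110 (b): **the row test of `z` with the columns of `j` and the rectangle of an item of value
one** (any item, any host), dropped items as in `RowPX` (Konig pairs of the tails in `X`, all PC pairs of the tails
in `Y ⊆ X`, plain items `D`), any saving, version [C].

The PC pairs of the cell are not joint here: the kept PC pairs of `z` with tail `j` have the excess `NN z j`, a used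
item of the host `j` pays all its arcs `ar u`, and every used PC pair of the host `j` pays `be z j`.

* `RcP`: the rectangle `EX ≤ max 0 (mn z w - be z j) * max 0 (mn j w - q)`, `q` the number of used PC pairs of `j`;
* `RowEX`: the statement over numbers; `RowEX.tPE`: with the saving `svP` and without the Mantel gain;
* `WItC.rowEX`: the transport.
-/

set_option autoImplicit false

namespace Pool.Agent.Lib.MP_f04ccf_co

open Finset

attribute [local instance] Classical.propDecidable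

section Defs

variable {ι : Type*}

/-- **the rectangle of an item of value one** (any host) in the row test of `z` with the columns of `j`, `q` used
PC pairs of the host `j` -/
def RcP (U : Finset ι) (vl : ι → ℤ) (mn : ℕ → ι → ℤ) (be : ℕ → ℕ → ℤ) (z j : ℕ) (q EX : ℤ) :
    Prop :=
  EX ≤ 0 ∨ ∃ w ∈ U, vl w = 1 ∧ EX ≤ max 0 (mn z w - be z j) * max 0 (mn j w - q)

/-- **the row test with the columns of `j`, a rectangle and dropped items**, any saving -/
def RowEX (R : ℤ) (n : ℕ) (t s mu : ℕ → ℤ) (U : Finset ι) (ho : ι → ℕ) (vl : ι → ℤ)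
    (kp mn : ℕ → ι → ℤ) (pc ar : ι → ℤ) (be kq NN sg : ℕ → ℕ → ℤ) : Prop :=
  ∀ z < n, ∀ j < n, j ≠ z → ∀ X ⊆ range n, j ∉ X → ∀ Y ⊆ X, ∀ D ⊆ U,
    (∀ u ∈ D, ho u = z ∧ pc u = 0) →
    ∀ K ⊆ U, (∀ u ∈ K, ho u ≠ z) → ∀ g : ι → ℕ, (∀ u ∈ K, 1 ≤ g u) →
    (∀ u ∈ K, (g u : ℤ) ≤ kp z u) → ∀ EX : ℤ,
    RcP U vl mn be z j (∑ u ∈ K, if ho u = j then pc u else 0) EX → ∀ sv : ℤ,
    SavJ n ho vl kp pc z g {j} (K.filter fun u => ho u = j → pc u = 0) sv →
    TstP R (R - t j) (t z + 1) (s z) (∑ u ∈ K, (g u : ℤ))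
      (∑ u ∈ K, ((g u : ℤ) + 1 - if ho u = j then pc u else 0))
      (∑ u ∈ K, msP kp mn z g u)
      (mu z - ∑ l ∈ X, kq z l - ∑ l ∈ Y, (be z l - kq z l) - ∑ u ∈ D, vl u)
      (∑ l ∈ X, kq z l + ∑ l ∈ Y, (be z l - kq z l) + ∑ u ∈ D, (vl u + 1))
      (∑ u ∈ U.filter (fun u => ho u = z ∧ u ∉ D), (kp j u * (R - t j) - mn j u))
      (sv + 2 * ((∑ u ∈ K, if ho u = j then pc u else 0)
          * ((K.filter fun u => ho u = j ∧ pc u = 0 ∧ ∀ l < n, l ≠ z → kp l u = 0).card : ℤ))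
        + 2 * EX)
      (NXY n U ho kp pc be kq NN sg z ((range n).erase z) X Y D)
      (2 * ((∑ u ∈ K, if ho u = j then pc u else 0) * be z j)
        + 2 * ∑ u ∈ K, if ho u = j then ar u else ((g u : ℤ) + 1) * (R - t j))

variable {R : ℤ} {n : ℕ} {t s mu : ℕ → ℤ} {U : Finset ι} {ho : ι → ℕ} {vl : ι → ℤ}
  {kp ms mn : ℕ → ι → ℤ} {pc ar : ι → ℤ} {be kq NN sg : ℕ → ℕ → ℤ}

/-- **the field over the letters of `PCon`** -/
lemma RowEX.tPE (H : RowEX R n t s mu U ho vl kp mn pc ar be kq NN sg) :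
    ∀ z < n, ∀ j < n, j ≠ z → ∀ X ⊆ range n, j ∉ X → ∀ Y ⊆ X, ∀ D ⊆ U,
    (∀ u ∈ D, ho u = z ∧ pc u = 0) →
    ∀ K ⊆ U, (∀ u ∈ K, ho u ≠ z) → ∀ g : ι → ℕ, (∀ u ∈ K, 1 ≤ g u) →
    (∀ u ∈ K, (g u : ℤ) ≤ kp z u) → ∀ EX : ℤ,
    RcP U vl mn be z j (∑ u ∈ K, if ho u = j then pc u else 0) EX →
    TstP R (R - t j) (t z + 1) (s z) (∑ u ∈ K, (g u : ℤ))
      (∑ u ∈ K, ((g u : ℤ) + 1 - if ho u = j then pc u else 0))
      (∑ u ∈ K, msP kp mn z g u)
      (mu z - ∑ l ∈ X, kq z l - ∑ l ∈ Y, (be z l - kq z l) - ∑ u ∈ D, vl u)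
      (∑ l ∈ X, kq z l + ∑ l ∈ Y, (be z l - kq z l) + ∑ u ∈ D, (vl u + 1))
      (∑ u ∈ U.filter (fun u => ho u = z ∧ u ∉ D), (kp j u * (R - t j) - mn j u))
      (svP n ho vl (K.filter fun u => ho u = j → pc u = 0) g
        + 2 * ((∑ u ∈ K, if ho u = j then pc u else 0)
          * ((K.filter fun u => ho u = j ∧ pc u = 0 ∧ ∀ l < n, l ≠ z → kp l u = 0).card : ℤ))
        + 2 * EX)
      (∑ l ∈ X \ Y, (be z l - kq z l) * (be z l - kq z l + 1)
        + ∑ l ∈ (range n).erase z \ X, NN z l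
        + 2 * ∑ l ∈ Y, (be z l - kq z l) * (sg z l
          + ((U.filter fun u => ho u = z ∧ u ∉ D ∧ pc u = 0 ∧ kp l u ≠ 0).card : ℤ)))
      (2 * ((∑ u ∈ K, if ho u = j then pc u else 0) * be z j)
        + 2 * ∑ u ∈ K, if ho u = j then ar u else ((g u : ℤ) + 1) * (R - t j)) :=
  fun z hz j hj hjz X hX hjX Y hY D hD hD' K hK hKh g hg1 hg2 EX hEX =>
  (H z hz j hj hjz X hX hjX Y hY D hD hD' K hK hKh g hg1 hg2 EX hEX _
    (SavJ.of_svP fun _ hu h2 => (mem_filter.1 hu).2 (mem_singleton.1 h2))).monoN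
      (NXY_le _ _ _ _ _)

/-- the algebra of the test with a payment `P` -/
private lemma pFormE {R τ s m h t E2 k w B SA SA' sv N Ar Q b q P EX : ℤ}
    (hT : 2 * R * 1 * (s - q) - 1 * (1 - 1) * R - (τ ^ 2 - τ ^ 2) + 2 * (k * (R - t) - B)
        + 2 * SA' + 2 * P + sv
      ≤ E2 + 2 * (w + (1 * R - τ)) * (s - q + 1) + w * (w - 1) + 2 * Ar + 2 * (Q * b))
    (hSA : SA ≤ SA') (hP : EX ≤ P)
    (he : E2 + m * (m + 1) ≤ 2 * (m * (h - q)) + N) (hh : h = t + s + 1) :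
    TstP R (R - τ) (t + 1) s k w B m q SA (sv + 2 * EX) N (2 * (Q * b) + 2 * Ar) := by
  refine pForm2 (E2 := E2) (h := h) ?_ he hh
  linarith

end Defs

section World

variable {V : Type*} {G : SimpleGraph V} {Z T : Finset V} {hm : V → V} {r m n p : ℕ}
  {φ : Finset (V × V) → Finset (Finset V) → ℕ} {B : V → Finset (V × V)}
  {Ps : V → Finset (Finset V)} {host : Itm V → V} {ρ : V → ℕ} {σ : ℕ → V}

/-- the plain dropped items as items of the home -/
private lemma drop_home (h : WCoreK G Z T r m n p hm) (H : WItC G Z T hm r n φ B Ps host ρ σ)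
    {z : ℕ} (hz : z < n) {D : Finset (Itm V)}
    (hD : D ⊆ T.biUnion fun x => pkf (B x) (Ps x))
    (hD' : ∀ u ∈ D, ρ (host u) = z ∧ (ipc u : ℤ) = 0) :
    D ⊆ pkf (B (σ z)) (Ps (σ z)) ∧ ∀ u ∈ D, ipc u = 0 := by
  have hcard := h.toWHom.cardT
  have hfil : (T.biUnion fun x => pkf (B x) (Ps x)).filter (fun u => ρ (host u) = z)
      = pkf (B (σ z)) (Ps (σ z)) := fil_host H.hst H.rk (by rw [hcard]; exact hz)
  refine ⟨fun u hu => ?_, fun u hu => by exact_mod_cast (hD' u hu).2⟩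
  rw [← hfil]
  exact mem_filter.2 ⟨hD hu, (hD' u hu).1⟩

/-- the misses of an item of value one -/
private lemma imn_le_ims {C : V → Finset V} {tl : V → V} {z : V} {u : Itm V} (h : ivl u = 1) :
    imn G C tl z u ≤ ims G C tl z u := by
  by_cases hk : ikp tl z u = 0
  · have h1 := imn_load (G := G) (C := C) (tl := tl) (z := z) (u := u)
    rw [hk, zero_mul] at h1
    omega
  · exact (imn_eq h hk).le

/-- **the row test with a rectangle, version [C]** -/
theorem WItC.rowEX (h : WCoreK G Z T r m n p hm)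
    (H : WItC G Z T hm r n φ B Ps host ρ σ) :
    RowEX ((r : ℤ) - 1) n (fun i => tI G Z T hm r Z (σ i)) (fun i => sI hm r Z (σ i))
      (fun i => ∑ u ∈ pkf (B (σ i)) (Ps (σ i)), (ivl u : ℤ))
      (T.biUnion fun x => pkf (B x) (Ps x)) (fun u => ρ (host u)) (fun u => (ivl u : ℤ))
      (fun i u => (ikp (tlo G T hm) (σ i) u : ℤ))
      (fun i u => (imn G (cz G Z T hm) (tlo G T hm) (σ i) u : ℤ)) (fun u => (ipc u : ℤ))
      (fun u => (iar G (cz G Z T hm (host u)) u : ℤ))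
      (fun i j => pcn (tlo G T hm) B (σ i) (σ j)) (fun i j => kqw G Z T hm B (σ i) (σ j))
      (fun i j => nxw G Z T hm B (σ i) (σ j)) (fun i j => ssw G T hm Ps (σ i) (σ j)) := by
  intro z hzn j hj hjz X hX hjX Y hY D hD hD' K hK hKh g hg1 hg2 EX hEX sv hS
  beta_reduce at hD' hKh hEX
  have hcard := h.toWHom.cardT
  have hpk : ∀ x ∈ T, Pk G (cz G Z T hm x) (hz G Z T hm x) (tlo G T hm) (B x) (Ps x) :=
    fun x hx => (H.pk x hx).toPk
  have hmem : ∀ i < n, σ i ∈ T := fun i hi => H.rk.mem i (by rw [hcard]; exact hi)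
  have hinj : ∀ a < n, ∀ b < n, σ a = σ b → a = b := fun a ha b hb hab =>
    H.rk.sinj (by rw [hcard]; exact ha) (by rw [hcard]; exact hb) hab
  have hzj : σ z ≠ σ j := fun h1 => hjz (hinj z hzn j hj h1).symm
  have hg2' : ∀ u ∈ K, g u ≤ ikp (tlo G T hm) (σ z) u := fun u hu => by
    have h5 : (g u : ℤ) ≤ (ikp (tlo G T hm) (σ z) u : ℤ) := hg2 u hu
    exact_mod_cast h5
  have hk : ∀ u ∈ K, ikp (tlo G T hm) (σ z) u ≠ 0 := fun u hu h3 => by
    have := hg1 u hu
    have := hg2' u hu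
    omega
  have hmK : ∀ u ∈ K, ∃ x ∈ T, u ∈ pkf (B x) (Ps x) ∧ host u = x := by
    intro u hu
    obtain ⟨x, hx, hux⟩ := mem_biUnion.1 (hK hu)
    exact ⟨x, hx, hux, H.hst x hx u hux⟩
  have hK' : K ⊆ (T.erase (σ z)).biUnion fun x => pkf (B x) (Ps x) := by
    intro u hu
    obtain ⟨x, hx, hux⟩ := mem_biUnion.1 (hK hu)
    refine mem_biUnion.2 ⟨x, mem_erase.2 ⟨fun h1 => hKh u hu ?_, hx⟩, hux⟩
    show ρ (host u) = z
    rw [H.hst x hx u hux, h1]
    exact H.rk.right z (by rw [hcard]; exact hzn)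
  have hsty : ∀ u ∈ K, (u ∈ pkf (B (σ j)) (Ps (σ j)) ↔ ρ (host u) = j) := by
    intro u hu
    obtain ⟨x, hx, hux, hxx⟩ := hmK u hu
    constructor
    · intro h1
      rw [H.hst _ (hmem j hj) u h1]
      exact H.rk.right j (by rw [hcard]; exact hj)
    · intro h1
      rw [hxx] at h1
      have h2 := H.rk.left x hx
      rw [h1] at h2
      exact h2 ▸ hux
  obtain ⟨hDh, hpc⟩ := drop_home h H hzn hD hD'
  obtain ⟨Dd, hDd⟩ : ∃ Dd, Dd = dpcI G (cz G Z T hm (σ z)) (tlo G T hm) (B (σ z))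
    ((X \ Y).image σ) (Y.image σ) ∪ D := ⟨_, rfl⟩
  have e0 := sum_sdiff hY (f := fun l => kqw G Z T hm B (σ z) (σ l))
  beta_reduce at e0
  obtain ⟨e1, e2, e3⟩ := WItC.enXY h H hzn (σ z) (X := X \ Y) (Y := Y)
    (L := (range n).erase z \ X) (sdiff_subset.trans hX) (hY.trans hX) sdiff_disjoint
    (sdiff_subset.trans (erase_subset _ _))
    (fun l hl _ h2 h3 => mem_sdiff.2 ⟨hl, fun h4 => h2 (mem_sdiff.2 ⟨h4, h3⟩)⟩) hDh hpc hDd
    (M := ∑ u ∈ pkf (B (σ z)) (Ps (σ z)), (ivl u : ℤ) - ∑ l ∈ X, kqw G Z T hm B (σ z) (σ l)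
      - ∑ l ∈ Y, (pcn (tlo G T hm) B (σ z) (σ l) - kqw G Z T hm B (σ z) (σ l))
      - ∑ u ∈ D, (ivl u : ℤ))
    (q := ∑ l ∈ X, kqw G Z T hm B (σ z) (σ l)
      + ∑ l ∈ Y, (pcn (tlo G T hm) B (σ z) (σ l) - kqw G Z T hm B (σ z) (σ l))
      + ∑ u ∈ D, ((ivl u : ℤ) + 1))
    (by
      rw [sum_sub_distrib]
      linarith)
    (by
      rw [sum_sub_distrib]
      linarith)
  -- the dropped items have no end at `j`, or are plain
  have hkp : ∀ u ∈ dpcI G (cz G Z T hm (σ z)) (tlo G T hm) (B (σ z)) ((X \ Y).image σ)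
      (Y.image σ), ikp (tlo G T hm) (σ j) u = 0 := by
    intro u hu
    rcases u with P | e
    · have h1 := (dpc_ipc hu).1
      simp [ipc] at h1
    · have h1 := (inr_mem_dpc.1 hu).2
      have h2 : ∃ l ∈ X, tlo G T hm e.1 = σ l := by
        rcases h1 with ⟨h1, -⟩ | h1
        · obtain ⟨l, hl, h2⟩ := mem_image.1 h1
          exact ⟨l, (mem_sdiff.1 hl).1, h2.symm⟩
        · obtain ⟨l, hl, h2⟩ := mem_image.1 h1
          exact ⟨l, hY hl, h2.symm⟩
      obtain ⟨l, hl, h2⟩ := h2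
      simp only [ikp]
      rw [if_neg]
      intro h3
      exact hjX (hinj l (mem_range.1 (hX hl)) j hj (h2.symm.trans h3) ▸ hl)
  have hDj : ∑ u ∈ Dd, (ipc u : ℤ) * (ikp (tlo G T hm) (σ j) u : ℤ) = 0 := by
    rw [hDd]
    refine sum_eq_zero fun u hu => ?_
    rcases mem_union.1 hu with h2 | h2
    · rw [hkp u h2]
      simp
    · rw [hpc u h2]
      simp
  -- the payment
  have hpay : ∃ P : ℤ, EX ≤ P ∧ PayS G Z T hm B Ps (kpB (B (σ z)) Dd) (kpP (Ps (σ z)) Dd) ∅ K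
      (xlv G (cz G Z T hm) (tlo G T hm) (σ z) g) (σ z) (σ j) P := by
    rcases hEX with h1 | ⟨w, hw, h1, h2⟩
    · exact ⟨0, h1, payS_zero⟩
    · have h1' : ivl w = 1 := by
        have h3 : (ivl w : ℤ) = 1 := h1
        exact_mod_cast h3
      obtain ⟨x', hx', hwx⟩ := mem_biUnion.1 hw
      refine ⟨_, ?_, h.toWHom.payS_item hpk (hmem z hzn) (hmem j hj) hzj hK' hk
        (fun Q => xlv_sub) hx' hwx⟩
      refine h2.trans (mul_le_mul (max_le_max le_rfl ?_) (max_le_max le_rfl ?_)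
        (le_max_left _ _) (le_max_left _ _))
      · have h3 := card_pcs_kp (tl := tlo G T hm) (y := σ j) e1
        have h4 : ((pcs (tlo G T hm) (B (σ z)) (σ j)).card : ℤ)
          = pcn (tlo G T hm) B (σ z) (σ j) := rfl
        have h5 := imn_le_ims (G := G) (C := cz G Z T hm) (tl := tlo G T hm) (z := σ z)
          (u := w) h1'
        have h6 : (imn G (cz G Z T hm) (tlo G T hm) (σ z) w : ℤ)
          ≤ (ims G (cz G Z T hm) (tlo G T hm) (σ z) w : ℤ) := by exact_mod_cast h5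
        rw [hDj] at h3
        rw [card_empty, h3, h4]
        push_cast
        linarith
      · have h5 := imn_le_ims (G := G) (C := cz G Z T hm) (tl := tlo G T hm) (z := σ j)
          (u := w) h1'
        have h6 : (imn G (cz G Z T hm) (tlo G T hm) (σ j) w : ℤ)
          ≤ (ims G (cz G Z T hm) (tlo G T hm) (σ j) w : ℤ) := by exact_mod_cast h5
        have h7 : ∑ u ∈ K, (if u ∈ pkf (B (σ j)) (Ps (σ j)) then (ipc u : ℤ) else 0)
            = ∑ u ∈ K, (if ρ (host u) = j then (ipc u : ℤ) else 0) := by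
          refine sum_congr rfl fun u hu => ?_
          by_cases h8 : ρ (host u) = j
          · rw [if_pos h8, if_pos ((hsty u hu).2 h8)]
          · rw [if_neg h8, if_neg fun h9 => h8 ((hsty u hu).1 h9)]
        rw [h7]
        linarith
  obtain ⟨P, hEP, hP⟩ := hpay
  have hE := h.toWHom.rowM_keep hpk (({j} : Finset ℕ).image σ).card (hmem z hzn)
    (kpB_sub (B := B (σ z)) (D := Dd)) (kpP_sub (Ps := Ps (σ z)) (D := Dd)) (empty_subset _)
    (fun e _ => notMem_empty _) (notMem_empty _) (J := ({j} : Finset ℕ).image σ)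
    (by
      rw [image_singleton, singleton_subset_iff]
      exact hmem j hj)
    (by
      rw [image_singleton, mem_singleton]
      exact hzj) hK' hk (X := xlv G (cz G Z T hm) (tlo G T hm) (σ z) g) (fun Q => xlv_sub)
    (P := fun _ => P)
    (by
      intro l hl
      rw [image_singleton, mem_singleton] at hl
      rw [hl]
      exact hP)
  have hsv := h.savGL hpk (fun x hx => (H.pk x hx).min) H.hst H.rk hzn hj hK hKh hg1 hg2' hS
  have hE0 : (0 : ℤ) ≤ (E G ((upc (tlo G T hm) (σ z) (pkf (B (σ j)) (Ps (σ j))) K).image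
    Prod.fst) : ℤ) := Int.natCast_nonneg _
  obtain ⟨sv', hsv'⟩ : ∃ sv' : ℤ, sv'
      = sv + 2 * ((∑ u ∈ K, if ρ (host u) = j then (ipc u : ℤ) else 0)
        * ((K.filter fun u => ρ (host u) = j ∧ (ipc u : ℤ) = 0
          ∧ ∀ l < n, l ≠ z → (ikp (tlo G T hm) (σ l) u : ℤ) = 0).card : ℤ)) := ⟨_, rfl⟩
  have h1 := h.toWHom.rowLD hpk H.hst H.rk hzn (J := {j})
    (fun l hl => by
      rw [mem_singleton.1 hl]
      exact hj) (fun hl => hjz (mem_singleton.1 hl).symm) e1 hK hKh hg1 hg2'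
    (EX := 2 * ∑ l ∈ ({j} : Finset ℕ).image σ, P) hE (sv := sv')
    (by
      rw [image_singleton, singleton_biUnion, hsv']
      have h2 : CP G Z T (fun x => Z.filter fun v => hm v = x) (σ j) = cz G Z T hm (σ j) := rfl
      rw [h2]
      linarith)
  simp only [sum_singleton, card_singleton, mem_singleton, Nat.cast_one, image_singleton] at h1
  rw [e2] at h1
  simp only [ilm_cast] at h1
  have e4 : ∀ u ∈ K, (if ρ (host u) = j then
          (iar G (cz G Z T hm (host u)) u : ℤ)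
            - ((g u : ℤ) + 1 - ipc u) * (tI G Z T hm r Z (σ j) - tI G Z T hm r Z (host u))
          else ((g u : ℤ) + 1) * ((r : ℤ) - 1 - tI G Z T hm r Z (σ j)))
      = if ρ (host u) = j then (iar G (cz G Z T hm (host u)) u : ℤ)
          else ((g u : ℤ) + 1) * ((r : ℤ) - 1 - tI G Z T hm r Z (σ j)) := by
    intro u hu
    by_cases h2 : ρ (host u) = j
    · have h3 : host u = σ j := by
        obtain ⟨x, hx, -, hxx⟩ := hmK u hu
        rw [hxx] at h2 ⊢
        rw [← h2]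
        exact (H.rk.left x hx).symm
      rw [if_pos h2, if_pos h2, h3, sub_self, mul_zero, sub_zero]
    · rw [if_neg h2, if_neg h2]
  rw [sum_congr rfl e4, hDj, sub_zero] at h1
  have hfil : (T.biUnion fun x => pkf (B x) (Ps x)).filter (fun u => ρ (host u) = z)
      = pkf (B (σ z)) (Ps (σ z)) := fil_host H.hst H.rk (by rw [hcard]; exact hzn)
  have h8 : ∀ inst : DecidablePred fun u : Itm V => ρ (host u) = z ∧ u ∉ Dd,
      @filter (Itm V) (fun u => ρ (host u) = z ∧ u ∉ Dd) inst (T.biUnion fun x => pkf (B x) (Ps x))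
      = pkf (B (σ z)) (Ps (σ z)) \ Dd := by
    intro inst
    ext u
    rw [mem_sdiff, ← hfil]
    simp only [mem_filter]
    tauto
  have hSA := sum_hits_le (U := T.biUnion fun x => pkf (B x) (Ps x))
    (kp := fun i u => (ikp (tlo G T hm) (σ i) u : ℤ))
    (mn := fun i u => (imn G (cz G Z T hm) (tlo G T hm) (σ i) u : ℤ))
    (ms := fun i u => (ims G (cz G Z T hm) (tlo G T hm) (σ i) u : ℤ))
    (ho := fun u => ρ (host u)) (z := z) (j := j) (c := (r : ℤ) - 1 - tI G Z T hm r Z (σ j))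
    (D := Dd) (D' := D) (fun u hu => hDd ▸ mem_union_right _ hu)
    (fun u hu hu' => by
      rw [hDd] at hu
      rcases mem_union.1 hu with h2 | h2
      · have h3 := hkp u h2
        show (ikp (tlo G T hm) (σ j) u : ℤ) = 0
        rw [h3]
        rfl
      · exact absurd h2 hu')
    (fun u => Int.natCast_nonneg _)
    (fun u => by
      show (ims G (cz G Z T hm) (tlo G T hm) (σ j) u : ℤ)
          ≤ (imn G (cz G Z T hm) (tlo G T hm) (σ j) u : ℤ)
      exact_mod_cast ims_le_imn (G := G) (C := cz G Z T hm) (tl := tlo G T hm) (z := σ j)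
        (u := u))
  rw [h8] at hSA
  have hms : ∑ u ∈ K, ((g u : ℤ) * ((r : ℤ) - 1 - tI G Z T hm r Z (σ z))
        - if (ikp (tlo G T hm) (σ z) u : ℤ) ≤ (g u : ℤ)
          then (imn G (cz G Z T hm) (tlo G T hm) (σ z) u : ℤ) else 0)
      = (∑ u ∈ K, (g u : ℤ)) * ((r : ℤ) - 1 - tI G Z T hm r Z (σ z))
        - ∑ u ∈ K, msP (fun i u => (ikp (tlo G T hm) (σ i) u : ℤ))
          (fun i u => (imn G (cz G Z T hm) (tlo G T hm) (σ i) u : ℤ)) z g u := by
    rw [sum_sub_distrib, sum_mul]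
    rfl
  rw [hms] at h1
  have h2 : pcs (tlo G T hm) (kpB (B (σ z)) Dd) (σ z) = ∅ := by
    rw [eq_empty_iff_forall_notMem]
    intro e he
    obtain ⟨h3, h4⟩ := mem_pcs.1 he
    have h5 := h.toWHom.ht _ (hmem z hzn) e.1 ((H.pk _ (hmem z hzn)).bH e (kpB_sub h3))
    exact (mem_erase.1 h5).1 h4
  have h3 : (0 : ℤ) ≤ (E G ((pcs (tlo G T hm) (kpB (B (σ z)) Dd) (σ z)).image Prod.fst) : ℤ) :=
    Int.natCast_nonneg _
  rw [h2, sum_empty, mul_zero, add_zero] at e3
  rw [h2] at h3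
  rw [hsv'] at h1
  clear hsv hE hP hsv' hE0 hS e0
  refine pFormE (h := sI hm r Z (σ z) + tI G Z T hm r Z (σ z) + 1) h1 hSA hEP ?_ (by ring)
  unfold NXY
  beta_reduce
  linarith

end World

end Pool.Agent.Lib.MP_f04ccf_co
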