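import Pool.Agent.Lib.MP_f04ccf_co.M.EnDK

/-!
MP_f04ccf_co, TEXT D, note 17818: the hosted Mantel gain in the energy of a home.

Two parts of a home all of whose members have the same tail `y` and which are not single have two edges between
them (no three points of one tail are independent), the plain count has one.
* `Pk.energy_dropX`: the energy of a part of a home (helper9's `Pk.energy_drop`) with any number `X` of further
  edges inside the kept parts.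
* `fullT`: the kept parts of one tail; `Pk.E_partsM`: `X = ∑_y m_y (m_y - 1)`.
* `Pk.energy_M`: the energy with this gain.
-/

set_option autoImplicit false

namespace Pool.Agent.Lib.MP_f04ccf_co

open Finset

attribute [local instance] Classical.propDecidable

section EnM

variable {ι V : Type*} {G : SimpleGraph V} {C H : Finset V} {tl : V → ι}
  {B B1 : Finset (V × V)} {Ps P1 : Finset (Finset V)}

/-- the unpaid arcs, counted at the members -/
private lemma sum_drC2 (C1 X : Finset V) :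
    ∑ v ∈ X, (C1.filter fun a => ¬ G.Adj v a ∧ ∃ e ∈ B \ B1, e.2 = a ∧ tl e.1 = tl v).card
      ≤ losD G tl C1 B B1 X := by
  have h1 : ∀ v ∈ X,
      (C1.filter fun a => ¬ G.Adj v a ∧ ∃ e ∈ B \ B1, e.2 = a ∧ tl e.1 = tl v).card ≤
      (((B \ B1).filter (fun e => e.2 ∈ C1)).filter fun e => tl v = tl e.1 ∧ ¬ G.Adj v e.2).card := by
    intro v _
    have h2 : ∀ a ∈ C1.filter (fun a => ¬ G.Adj v a ∧ ∃ e ∈ B \ B1, e.2 = a ∧ tl e.1 = tl v),
        ∃ e ∈ B \ B1, e.2 = a ∧ tl e.1 = tl v := fun a ha => (mem_filter.1 ha).2.2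
    choose! f hf1 hf3 hf4 using h2
    refine card_le_card_of_injOn f ?_ ?_
    · intro a ha
      have ha' : a ∈ C1.filter fun a => ¬ G.Adj v a ∧ ∃ e ∈ B \ B1, e.2 = a ∧ tl e.1 = tl v := by
        exact_mod_cast ha
      have h3 : ¬ G.Adj v (f a).2 := by
        rw [hf3 a ha']
        exact (mem_filter.1 ha').2.1
      have h4 : (f a).2 ∈ C1 := by
        rw [hf3 a ha']
        exact (mem_filter.1 ha').1
      have : f a ∈ ((B \ B1).filter (fun e => e.2 ∈ C1)).filter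
          fun e => tl v = tl e.1 ∧ ¬ G.Adj v e.2 :=
        mem_filter.2 ⟨mem_filter.2 ⟨hf1 a ha', h4⟩, (hf4 a ha').symm, h3⟩
      exact_mod_cast this
    · intro a ha b hb hab
      have ha' : a ∈ C1.filter fun a => ¬ G.Adj v a ∧ ∃ e ∈ B \ B1, e.2 = a ∧ tl e.1 = tl v := by
        exact_mod_cast ha
      have hb' : b ∈ C1.filter fun a => ¬ G.Adj v a ∧ ∃ e ∈ B \ B1, e.2 = a ∧ tl e.1 = tl v := by
        exact_mod_cast hb
      rw [← hf3 a ha', ← hf3 b hb', hab]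
  refine (sum_le_sum h1).trans (le_of_eq ?_)
  have h2 := sum_card_bipartiteAbove_eq_sum_card_bipartiteBelow (s := X)
    (t := (B \ B1).filter (fun e => e.2 ∈ C1)) (fun v e => tl v = tl e.1 ∧ ¬ G.Adj v e.2)
  simp only [bipartiteAbove, bipartiteBelow] at h2
  exact h2

/-- the used arcs: to kept PC pairs or to dropped ones -/
private lemma usC_keep2 {C1 : Finset V} (hC1 : C1 ⊆ C) (v : V) :
    (usC G C1 tl B v).card ≤ (usC G C tl B1 v).card
      + (C1.filter fun a => ¬ G.Adj v a ∧ ∃ e ∈ B \ B1, e.2 = a ∧ tl e.1 = tl v).card := by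
  refine le_trans (card_le_card fun a ha => ?_) (card_union_le _ _)
  obtain ⟨h1, h2, e, he, h3, h4, h5⟩ := mem_usC.1 ha
  by_cases h6 : e ∈ B1
  · exact mem_union_left _ (mem_usC.2 ⟨hC1 h1, h2, e, h6, h3, h4, h5⟩)
  · exact mem_union_right _ (mem_filter.2 ⟨h1, h2, e, mem_sdiff.2 ⟨he, h6⟩, h4, h5⟩)

/-- the missed points of a member of a PC pair, any class points -/
private lemma nd_W2 (h : Pk G C H tl B Ps) (C1 : Finset V) {e : V × V} (he : e ∈ B) :
    nd G C1 e.1 ≤ 1 + (frC G C1 tl B e.1).card + (usC G C1 tl B e.1).card := by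
  have h0 : C1.filter (fun a => a ≠ e.1 ∧ ¬ G.Adj e.1 a) ⊆
      {e.2} ∪ (frC G C1 tl B e.1 ∪ usC G C1 tl B e.1) := by
    intro a ha
    obtain ⟨h1, -, h2⟩ := mem_filter.1 ha
    by_cases h3 : ∀ f ∈ B, f.2 = a → tl f.1 ≠ tl e.1
    · exact mem_union_right _ (mem_union_left _ (mem_frC.2 ⟨h1, h2, h3⟩))
    · push Not at h3
      obtain ⟨f, hf, h4, h5⟩ := h3
      by_cases h6 : f.1 = e.1
      · have h7 := h.b1 f hf e he h6
        rw [← h4, h7]
        exact mem_union_left _ (mem_singleton_self _)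
      · exact mem_union_right _ (mem_union_right _ (mem_usC.2 ⟨h1, h2, f, hf, h6, h4, h5⟩))
  have h1 := card_le_card h0
  have h2 := card_union_le {e.2} (frC G C1 tl B e.1 ∪ usC G C1 tl B e.1)
  have h3 := card_union_le (frC G C1 tl B e.1) (usC G C1 tl B e.1)
  have h4 : ({e.2} : Finset V).card = 1 := card_singleton _
  unfold nd
  omega

/-- **the energy of a part of a home, any number `X` of edges inside the parts**: kept PC pairs `B1`, kept parts
`P1`, kept class points `C1`; the PC pairs of the tail `y` kept exactly -/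
theorem Pk.energy_dropX (h : Pk G C H tl B Ps)
    (h32 : ∀ v ∈ H, ∀ w ∈ H, ∀ a ∈ C, v ≠ w → tl v = tl w →
      ¬ G.Adj v a → ¬ G.Adj w a → G.Adj v w) (hC : Clq G C) (hHC : Disjoint H C)
    (hB : B1 ⊆ B) (hP : P1 ⊆ Ps) {C1 : Finset V} (hC1 : C1 ⊆ C) (y : ι) {D : ℕ}
    (hD : ∑ e ∈ B1, Pk.uin G tl (P1.biUnion id) e + D ≤ ∑ e ∈ B1, dg G (P1.biUnion id) e.1)
    {X : ℕ} (hX : P1.card * P1.card + X ≤ E G (P1.biUnion id) + P1.card) :
    (NE G ((B1.image Prod.fst ∪ P1.biUnion id) ∪ C1) : ℤ) + P1.card * (P1.card - 1)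
        + X + 2 * D
        + E G ((pcs tl B1 y).image Prod.fst)
      ≤ ((B1.image Prod.fst ∪ P1.biUnion id).card : ℤ)
          * ((B1.image Prod.fst ∪ P1.biUnion id).card - 1)
        + 2 * ∑ v ∈ P1.biUnion id, ((frC G C1 tl B v).card : ℤ)
        + 2 * ∑ e ∈ B1 \ pcs tl B1 y, (1 + (frC G C1 tl B e.1).card : ℤ)
        + bothB G tl (B1 \ pcs tl B1 y) + 2 * ∑ e ∈ pcs tl B1 y, (nd G C1 e.1 : ℤ)
        + 2 * losD G tl C1 B B1 (P1.biUnion id ∪ (B1 \ pcs tl B1 y).image Prod.fst) := by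
  have hk := h.keep hB hP
  have hs := h.keep_sub hB hP
  have hUe := hk.union_eq
  obtain ⟨H1, hH1⟩ : ∃ X, X = B1.image Prod.fst ∪ P1.biUnion id := ⟨_, rfl⟩
  rw [← hH1] at hk hs hUe ⊢
  obtain ⟨By, hBy⟩ : ∃ By, By = pcs tl B1 y := ⟨_, rfl⟩
  obtain ⟨Bo, hBo⟩ : ∃ Bo, Bo = B1 \ pcs tl B1 y := ⟨_, rfl⟩
  obtain ⟨W, hW⟩ : ∃ W, W = B1.image Prod.fst := ⟨_, rfl⟩
  obtain ⟨Wy, hWy⟩ : ∃ W, W = By.image Prod.fst := ⟨_, rfl⟩
  obtain ⟨Wo, hWo⟩ : ∃ W, W = Bo.image Prod.fst := ⟨_, rfl⟩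
  obtain ⟨U, hU⟩ : ∃ U, U = P1.biUnion id := ⟨_, rfl⟩
  have hBB : B1 = By ∪ Bo := by
    rw [hBy, hBo, union_sdiff_of_subset]
    exact filter_subset _ _
  have hdB : Disjoint By Bo := by
    rw [hBy, hBo]
    exact disjoint_sdiff
  have hWH : W ⊆ H1 := hW ▸ hk.W_sub
  have hUe' : H1 \ W = U := by rw [hW, hU, hUe]
  have hd : Disjoint U W := hUe' ▸ sdiff_disjoint
  have hUW : U ∪ W = H1 := hUe' ▸ sdiff_union_of_subset hWH
  have hWW : W = Wy ∪ Wo := by rw [hW, hBB, image_union, hWy, hWo]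
  have hdW : Disjoint Wy Wo := by
    rw [disjoint_left]
    intro v hv hv'
    rw [hWy] at hv
    rw [hWo] at hv'
    obtain ⟨e, he, h1⟩ := mem_image.1 hv
    obtain ⟨f, hf, h2⟩ := mem_image.1 hv'
    have h3 := hk.b1 e (hBB ▸ mem_union_left _ he) f (hBB ▸ mem_union_right _ hf)
      (h1.trans h2.symm)
    exact disjoint_left.1 hdB he (h3 ▸ hf)
  have hHC1 : Disjoint H1 C1 := (hHC.mono_left hs).mono_right hC1
  have hC1c : Clq G C1 := fun a ha b hb hab => hC a (hC1 ha) b (hC1 hb) hab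
  have h1 := NE_union (G := G) hHC1
  rw [NE_clq hC1c, nd_comm, add_zero] at h1
  have h2 : ∑ v ∈ H1, nd G C1 v = ∑ v ∈ U, nd G C1 v + ∑ v ∈ W, nd G C1 v := by
    rw [← sum_union hd, hUW]
  have himg : ∀ f : V → ℕ, ∑ v ∈ W, f v = ∑ e ∈ B1, f e.1 := by
    intro f
    rw [hW, sum_image fun e he f hf hef =>
      hk.b1 e (by exact_mod_cast he) f (by exact_mod_cast hf) hef]
  have himo : ∀ f : V → ℕ, ∑ v ∈ Wo, f v = ∑ e ∈ Bo, f e.1 := by
    intro f
    rw [hWo, sum_image fun e he f hf hef =>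
      hk.b1 e (hBB ▸ mem_union_right _ (by exact_mod_cast he)) f
        (hBB ▸ mem_union_right _ (by exact_mod_cast hf)) hef]
  have h3 : ∑ v ∈ W, nd G C1 v = ∑ e ∈ By, nd G C1 e.1 + ∑ e ∈ Bo, nd G C1 e.1 := by
    rw [himg, ← sum_union hdB, ← hBB]
  have h4 := E_add_NE (G := G) H1
  have hdgU : ∀ (X Y : Finset V), Disjoint X Y → ∀ v, dg G (X ∪ Y) v = dg G X v + dg G Y v := by
    intro X Y hXY v
    unfold dg
    rw [filter_union, card_union_of_disjoint (disjoint_filter_filter hXY)]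
  have h5 : E G U + 2 * ∑ e ∈ B1, dg G U e.1 + E G W = E G H1 := by
    have h6 : E G H1 = ∑ v ∈ U, dg G (U ∪ W) v + ∑ v ∈ W, dg G (U ∪ W) v := by
      rw [← sum_union hd, hUW]
      rfl
    have h8 : ∑ v ∈ W, dg G U v = ∑ v ∈ U, dg G W v := by
      have h9 := sum_card_bipartiteAbove_eq_sum_card_bipartiteBelow (s := W) (t := U)
        (fun a b => G.Adj a b)
      unfold dg
      simp only [bipartiteAbove, bipartiteBelow] at h9
      rw [h9]
      refine sum_congr rfl fun b _ => ?_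
      congr 1
      ext a
      simp [G.adj_comm]
    rw [h6]
    simp only [hdgU U W hd, sum_add_distrib]
    rw [← h8, himg]
    have h10 : E G U = ∑ v ∈ U, dg G U v := rfl
    have h11 : E G W = ∑ v ∈ W, dg G W v := rfl
    rw [h10, h11]
    ring
  have h5' : E G Wy + E G Wo ≤ E G W := by
    have h6 : E G W = ∑ v ∈ Wy, dg G (Wy ∪ Wo) v + ∑ v ∈ Wo, dg G (Wy ∪ Wo) v := by
      rw [← sum_union hdW, ← hWW]
      rfl
    rw [h6]
    simp only [hdgU Wy Wo hdW, sum_add_distrib]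
    have h10 : E G Wy = ∑ v ∈ Wy, dg G Wy v := rfl
    have h11 : E G Wo = ∑ v ∈ Wo, dg G Wo v := rfl
    rw [h10, h11]
    omega
  have h6 := hX
  have hUn : ∀ v ∈ U, v ∈ H \ B.image Prod.fst := by
    intro v hv
    rw [hU] at hv
    obtain ⟨P, hP', hvP⟩ := mem_biUnion.1 hv
    refine mem_sdiff.2 ⟨h.sub P (hP hP') hvP, fun h7 => ?_⟩
    obtain ⟨e, he, hev⟩ := mem_image.1 h7
    exact h.dw e he P (hP hP') (hev ▸ hvP)
  have h7 : ∑ v ∈ U, nd G C1 v ≤ ∑ v ∈ U, (frC G C1 tl B v).card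
      + (∑ v ∈ U, (usC G C tl B1 v).card + ∑ v ∈ U,
        (C1.filter fun a => ¬ G.Adj v a ∧ ∃ e ∈ B \ B1, e.2 = a ∧ tl e.1 = tl v).card) := by
    rw [← sum_add_distrib, ← sum_add_distrib]
    refine sum_le_sum fun v hv => ?_
    have h8 := Pk.nd_U (C := C1) (G := G) (tl := tl) (hUn v hv)
    have h9 := usC_keep2 (G := G) (tl := tl) (B := B) (B1 := B1) hC1 v
    omega
  have hBo1 : ∀ e ∈ Bo, e ∈ B1 ∧ tl e.1 ≠ y := fun e he => mem_sdp.1 (hBo ▸ he)
  have h8 : ∑ e ∈ Bo, nd G C1 e.1 ≤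
      ∑ e ∈ Bo, (1 + (frC G C1 tl B e.1).card) + (∑ e ∈ Bo, (usC G C tl B1 e.1).card
        + ∑ e ∈ Bo, (C1.filter fun a => ¬ G.Adj e.1 a ∧ ∃ f ∈ B \ B1, f.2 = a
          ∧ tl f.1 = tl e.1).card) := by
    rw [← sum_add_distrib, ← sum_add_distrib]
    refine sum_le_sum fun e he => ?_
    have h8 := nd_W2 h C1 (hB (hBo1 e he).1)
    have h9 := usC_keep2 (G := G) (tl := tl) (B := B) (B1 := B1) hC1 e.1
    omega
  have h9 := Pk.sum_usC (G := G) (C := C) (H := H1) (tl := tl) (B := B1)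
  rw [← hW, hUe'] at h9
  have h10 : 2 * ∑ e ∈ Bo, (usC G C tl B1 e.1).card ≤ E G Wo + bothB G tl Bo := by
    have h11 := (hk.sdp y).sum_usC_W fun v hv w hw => h32 v (hs (mem_sdiff.1 hv).1) w
      (hs (mem_sdiff.1 hw).1)
    rw [← hBo, ← hWo] at h11
    have h12 : ∑ e ∈ Bo, (usC G C tl Bo e.1).card = ∑ e ∈ Bo, (usC G C tl B1 e.1).card := by
      refine sum_congr rfl fun e he => ?_
      rw [hBo, usC_sdp (hBo1 e he).2]
    rwa [h12] at h11
  have h13 : ∑ v ∈ U, (C1.filter fun a => ¬ G.Adj v a ∧ ∃ e ∈ B \ B1, e.2 = a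
        ∧ tl e.1 = tl v).card
      + ∑ e ∈ Bo, (C1.filter fun a => ¬ G.Adj e.1 a ∧ ∃ f ∈ B \ B1, f.2 = a
          ∧ tl f.1 = tl e.1).card
      ≤ losD G tl C1 B B1 (U ∪ Wo) := by
    have h14 := sum_drC2 (G := G) (tl := tl) (B := B) (B1 := B1) C1 (U ∪ Wo)
    have h15 : Disjoint U Wo := hd.mono_right (hWW ▸ subset_union_right)
    rw [sum_union h15, himo] at h14
    exact h14
  rw [← hU] at h6 hD ⊢
  rw [← hBo, ← hBy, ← hWy, ← hWo]
  have e11 : ((∑ v ∈ U, (frC G C1 tl B v).card : ℕ) : ℤ)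
      = ∑ v ∈ U, ((frC G C1 tl B v).card : ℤ) := by
    push_cast; rfl
  have e12 : ((∑ e ∈ Bo, (1 + (frC G C1 tl B e.1).card) : ℕ) : ℤ) =
      ∑ e ∈ Bo, (1 + (frC G C1 tl B e.1).card : ℤ) := by push_cast; rfl
  have e13 : ((∑ e ∈ By, nd G C1 e.1 : ℕ) : ℤ) = ∑ e ∈ By, (nd G C1 e.1 : ℤ) := by
    push_cast; rfl
  rw [← e11, ← e12, ← e13, h1, h2, h3]
  have h16 : (P1.card : ℤ) * (P1.card - 1) = ((P1.card * P1.card : ℕ) : ℤ) - P1.card := by
    push_cast
    ring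
  rw [← h4, h16]
  push_cast
  have h6' : ((P1.card * P1.card : ℕ) : ℤ) + X ≤ E G U + P1.card := by
    exact_mod_cast h6
  push_cast at h6'
  zify at h5 h5' h7 h8 h9 h10 hD h13
  linarith

variable (tl) in
/-- the parts which are not single and all of whose members have the tail `y` -/
noncomputable def fullT (P1 : Finset (Finset V)) (y : ι) : Finset (Finset V) :=
  P1.filter fun P => 2 ≤ P.card ∧ ∀ v ∈ P, tl v = y

lemma mem_fullT {P : Finset V} {y : ι} :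
    P ∈ fullT tl P1 y ↔ P ∈ P1 ∧ 2 ≤ P.card ∧ ∀ v ∈ P, tl v = y := mem_filter

private lemma E_filter2 (X : Finset V) :
    E G X = ((X ×ˢ X).filter fun e => G.Adj e.1 e.2).card := by
  unfold E
  rw [card_filter, sum_product]
  refine sum_congr rfl fun x _ => ?_
  unfold dg
  rw [card_filter]

/-- two edges between two sets which are not single and not independent with a third point -/
lemma two_edges {P Q : Finset V} (hP : 2 ≤ P.card) (hQ : 2 ≤ Q.card)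
    (iP : ∀ a ∈ P, ∀ b ∈ P, ¬ G.Adj a b)
    (h33 : ∀ a ∈ P, ∀ b ∈ P, ∀ c ∈ Q, a ≠ b → ¬ G.Adj a b → ¬ G.Adj a c → ¬ G.Adj b c → False) :
    2 ≤ ((P ×ˢ Q).filter fun e => G.Adj e.1 e.2).card := by
  obtain ⟨a, ha, b, hb, hab⟩ := one_lt_card.1 (lt_of_lt_of_le one_lt_two hP)
  obtain ⟨c, hc, d, hd', hcd⟩ := one_lt_card.1 (lt_of_lt_of_le one_lt_two hQ)
  have h1 : ∀ c ∈ Q, ∃ x ∈ P, G.Adj x c := by
    intro c hc
    by_contra h2
    exact h33 a ha b hb c hc hab (iP a ha b hb) (fun h3 => h2 ⟨a, ha, h3⟩)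
      (fun h3 => h2 ⟨b, hb, h3⟩)
  obtain ⟨x, hx, hxc⟩ := h1 c hc
  obtain ⟨y, hy, hyd⟩ := h1 d hd'
  have h2 : ({(x, c), (y, d)} : Finset (V × V)) ⊆ (P ×ˢ Q).filter fun e => G.Adj e.1 e.2 := by
    intro e he
    rcases mem_insert.1 he with h3 | h3
    · rw [h3]
      exact mem_filter.2 ⟨mem_product.2 ⟨hx, hc⟩, hxc⟩
    · rw [mem_singleton.1 h3]
      exact mem_filter.2 ⟨mem_product.2 ⟨hy, hd'⟩, hyd⟩
  have h3 : ({(x, c), (y, d)} : Finset (V × V)).card = 2 :=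
    card_pair fun h4 => hcd (Prod.ext_iff.1 h4).2
  rw [← h3]
  exact card_le_card h2

/-- **the edges inside the kept parts, with the hosted Mantel gain** -/
theorem Pk.E_partsM (h : Pk G C H tl B Ps)
    (hmin : ∀ B' Ps', Pk G C H tl B' Ps' → Ps.card ≤ Ps'.card)
    (h32 : ∀ v ∈ H, ∀ w ∈ H, ∀ a ∈ C, v ≠ w → tl v = tl w → ¬ G.Adj v a → ¬ G.Adj w a → G.Adj v w)
    (h33 : ∀ a ∈ H, ∀ b ∈ H, ∀ c ∈ H, tl a = tl b → tl a = tl c → a ≠ b → a ≠ c → b ≠ c →
      ¬ G.Adj a b → ¬ G.Adj a c → ¬ G.Adj b c → False) (hP : P1 ⊆ Ps) (Y : Finset ι) :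
    P1.card * P1.card + ∑ y ∈ Y, (fullT tl P1 y).card * ((fullT tl P1 y).card - 1)
      ≤ E G (P1.biUnion id) + P1.card := by
  obtain ⟨f, hf⟩ : ∃ f : Finset V × Finset V → Finset (V × V),
      f = fun PQ => (PQ.1 ×ˢ PQ.2).filter fun e => G.Adj e.1 e.2 := ⟨_, rfl⟩
  obtain ⟨D, hD⟩ : ∃ D, D = Y.biUnion fun y => (fullT tl P1 y).offDiag := ⟨_, rfl⟩
  have hDP : D ⊆ P1.offDiag := by
    rw [hD]
    exact biUnion_subset.2 fun y _ => offDiag_mono (filter_subset _ _)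
  have hDc : D.card = ∑ y ∈ Y, (fullT tl P1 y).card * ((fullT tl P1 y).card - 1) := by
    rw [hD, card_biUnion]
    · refine sum_congr rfl fun y _ => ?_
      rw [offDiag_card, Nat.mul_sub, mul_one]
    · intro y _ y' _ hne
      show Disjoint _ _
      rw [disjoint_left]
      rintro ⟨P, Q⟩ h1 h2
      obtain ⟨-, h3, h4⟩ := mem_fullT.1 (mem_offDiag.1 h1).1
      obtain ⟨-, -, h5⟩ := mem_fullT.1 (mem_offDiag.1 h2).1
      obtain ⟨v, hv⟩ := card_pos.1 (lt_of_lt_of_le two_pos h3)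
      exact hne ((h4 v hv).symm.trans (h5 v hv))
  -- one edge, two edges
  have h1 : ∀ e ∈ P1.offDiag, 1 + (if e ∈ D then 1 else 0) ≤ (f e).card := by
    rintro ⟨P, Q⟩ he
    obtain ⟨hP', hQ', hne⟩ := mem_offDiag.1 he
    have hdis : Disjoint P Q := h.dis P (hP hP') Q (hP hQ') hne
    by_cases h2 : (P, Q) ∈ D
    · rw [if_pos h2]
      rw [hD] at h2
      obtain ⟨y, -, h3⟩ := mem_biUnion.1 h2
      obtain ⟨h4, h5, -⟩ := mem_offDiag.1 h3
      obtain ⟨-, c1, t1⟩ := mem_fullT.1 h4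
      obtain ⟨-, c2, t2⟩ := mem_fullT.1 h5
      rw [hf]
      exact two_edges c1 c2 (fun a ha b hb => h.ind P (hP hP') a ha b hb)
        fun a ha b hb c hc hab nab nac nbc =>
          h33 a (h.sub P (hP hP') ha) b (h.sub P (hP hP') hb) c (h.sub Q (hP hQ') hc)
            ((t1 a ha).trans (t1 b hb).symm) ((t1 a ha).trans (t2 c hc).symm) hab
            (fun h6 => disjoint_left.1 hdis ha (h6 ▸ hc))
            (fun h6 => disjoint_left.1 hdis hb (h6 ▸ hc)) nab nac nbc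
    · rw [if_neg h2, hf]
      obtain ⟨x, hx, y, hy, hxy, -⟩ := h.edgeN hmin h32 (hP hP') (hP hQ') hne
      exact card_pos.2 ⟨(x, y), mem_filter.2 ⟨mem_product.2 ⟨hx, hy⟩, hxy⟩⟩
  have h2 := sum_le_sum h1
  rw [sum_add_distrib, sum_const, smul_eq_mul, mul_one, ← card_filter, filter_mem_eq_inter,
    inter_eq_right.2 hDP] at h2
  have h3 : ∑ e ∈ P1.offDiag, (f e).card ≤ E G (P1.biUnion id) := by
    rw [E_filter2, ← card_biUnion]
    · refine card_le_card (biUnion_subset.2 ?_)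
      rintro ⟨P, Q⟩ he
      obtain ⟨hP', hQ', -⟩ := mem_offDiag.1 he
      rw [hf]
      exact filter_subset_filter _ (product_subset_product
        (fun v hv => mem_biUnion.2 ⟨P, hP', hv⟩) fun v hv => mem_biUnion.2 ⟨Q, hQ', hv⟩)
    · rintro ⟨P, Q⟩ he ⟨P', Q'⟩ he' hne
      show Disjoint _ _
      obtain ⟨a1, a2, -⟩ := mem_offDiag.1 (mem_coe.1 he)
      obtain ⟨b1, b2, -⟩ := mem_offDiag.1 (mem_coe.1 he')
      rw [disjoint_left]
      intro e h3 h4
      rw [hf] at h3 h4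
      obtain ⟨h5, h6⟩ := mem_product.1 (mem_filter.1 h3).1
      obtain ⟨h7, h8⟩ := mem_product.1 (mem_filter.1 h4).1
      exact hne (Prod.ext (h.part_eq (hP a1) (hP b1) h5 h7) (h.part_eq (hP a2) (hP b2) h6 h8))
  rw [offDiag_card, hDc] at h2
  have h4 : P1.card ≤ P1.card * P1.card := by
    rcases Nat.eq_zero_or_pos P1.card with h5 | h5
    · rw [h5]
    · exact Nat.le_mul_of_pos_left _ h5
  omega

end EnM

section EnMW

variable {V : Type*} {G : SimpleGraph V} {Z T : Finset V} {hm : V → V} {r m n p : ℕ}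
  {φ : Finset (V × V) → Finset (Finset V) → ℕ}
  {B : V → Finset (V × V)} {Ps : V → Finset (Finset V)}
  {B1 : Finset (V × V)} {P1 : Finset (Finset V)} {XC : Finset V}

/-- three members of one home with the same tail are not independent -/
theorem WHom.h33 (h : WHom G Z T r m n hm) {x : V} (hx : x ∈ T) :
    ∀ a ∈ hz G Z T hm x, ∀ b ∈ hz G Z T hm x, ∀ c ∈ hz G Z T hm x,
      tlo G T hm a = tlo G T hm b → tlo G T hm a = tlo G T hm c → a ≠ b → a ≠ c → b ≠ c →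
      ¬ G.Adj a b → ¬ G.Adj a c → ¬ G.Adj b c → False := by
  intro a ha b hb c hc tb tc hab hac hbc nab nac nbc
  have hC := h.csys
  obtain ⟨h1, e1⟩ := hC.ends_of_tlo h.hh hx ha rfl
  obtain ⟨-, e2⟩ := hC.ends_of_tlo h.hh hx hb (z := tlo G T hm a) tb.symm
  obtain ⟨-, e3⟩ := hC.ends_of_tlo h.hh hx hc (z := tlo G T hm a) tc.symm
  have hT : tlo G T hm a ∈ T := mem_of_mem_erase (h.ht x hx a ha)
  have hI : ({x, tlo G T hm a} : Finset V) ⊆ T := by
    intro v hv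
    rcases mem_insert.1 hv with rfl | hv
    · exact hx
    · rw [mem_singleton.1 hv]
      exact hT
  exact h.F.toPFrame.no3 hI card_le_two
    (PFrame.mem_ZI_of_BB (mem_Ph.1 (hC.HP_Ph hx ha)).1 e1.subset)
    (PFrame.mem_ZI_of_BB (mem_Ph.1 (hC.HP_Ph hx hb)).1 e2.subset)
    (PFrame.mem_ZI_of_BB (mem_Ph.1 (hC.HP_Ph hx hc)).1 e3.subset) hab hac hbc nab nac nbc

/-- the energy of the sub-slot, raw form, `X` further edges inside the kept parts -/
private lemma energy_rawX (h : WHom G Z T r m n hm) {z : V} (y : V) (hz' : z ∈ T)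
    (hB : Pk G (cz G Z T hm z) (hz G Z T hm z) (tlo G T hm) (B z) (Ps z))
    {X : ℕ} (hX : P1.card * P1.card + X ≤ E G (P1.biUnion id) + P1.card)
    (hB1 : B1 ⊆ B z) (hP1 : P1 ⊆ Ps z) (hXC : XC ⊆ cz G Z T hm z) :
    2 * eI G hm (Z \ keepX G Z T hm z B1 P1 XC) z + (∑ u ∈ pkf B1 P1, (ivl u : ℤ))
        * (∑ u ∈ pkf B1 P1, (ivl u : ℤ) + 1) + X
        + E G ((pcs (tlo G T hm) B1 y).image Prod.fst)
      ≤ 2 * ((∑ u ∈ pkf B1 P1, (ivl u : ℤ)) * ((keepH B1 P1).card : ℤ))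
        + 2 * ∑ v ∈ P1.biUnion id, ((frC G (cz G Z T hm z \ XC) (tlo G T hm) (B z) v).card : ℤ)
        + 2 * ∑ e ∈ B1 \ pcs (tlo G T hm) B1 y,
          (1 + (frC G (cz G Z T hm z \ XC) (tlo G T hm) (B z) e.1).card : ℤ)
        + bothB G (tlo G T hm) (B1 \ pcs (tlo G T hm) B1 y)
        + 2 * ∑ e ∈ pcs (tlo G T hm) B1 y, (nd G (cz G Z T hm z \ XC) e.1 : ℤ)
        + 2 * losD G (tlo G T hm) (cz G Z T hm z \ XC) (B z) B1
          (P1.biUnion id ∪ (B1 \ pcs (tlo G T hm) B1 y).image Prod.fst) := by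
  have hF := h.F.toPFrame
  have hCH : Disjoint (hz G Z T hm z) (cz G Z T hm z) := (h.csys.dCH hz' hz').symm
  have h32 := h.csys.h32 hF h.hh h.ht hz'
  have hk := hB.keep hB1 hP1
  have hks := hB.keep_sub hB1 hP1
  have hUe := hk.union_eq
  have h1 := hB.energy_dropX h32 (h.csys.CP_clq hF hz') hCH hB1 hP1
    (sdiff_subset : cz G Z T hm z \ XC ⊆ cz G Z T hm z) y (D := 0) (by
      rw [add_zero]
      refine sum_le_sum fun e he => ?_
      have h2 := hk.uin_le (fun v hv w hw => h32 v (hks hv) w (hks hw)) he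
      rwa [hUe] at h2) hX
  have h2 := hk.sum_ivl
  have h3 : ∑ u ∈ pkf B1 P1, (ivl u : ℤ) + (P1.card : ℤ)
      = ((B1.image Prod.fst ∪ P1.biUnion id).card : ℤ) := by
    exact_mod_cast h2
  have h5 := two_eI (G := G) (hm := hm) (Z \ keepX G Z T hm z B1 P1 XC) z
  have h10 := slot_keep (B1 := B1) (P1 := P1) hXC hks
  rw [h10] at h5
  unfold keepH at h5
  rw [h5]
  unfold keepH
  obtain ⟨μ, hμ⟩ : ∃ μ : ℤ, μ = ∑ u ∈ pkf B1 P1, (ivl u : ℤ) := ⟨_, rfl⟩
  rw [← hμ] at h3 ⊢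
  have h14 : (P1.card : ℤ) = ((B1.image Prod.fst ∪ P1.biUnion id).card : ℤ) - μ := by linarith
  rw [h14] at h1
  have h15 : (0 : ℤ) ≤ (E G ((P1.biUnion id).filter fun v =>
    (frC G (cz G Z T hm z) (tlo G T hm) (B z) v).Nonempty) : ℤ) := Int.natCast_nonneg _
  generalize ((B1.image Prod.fst ∪ P1.biUnion id).card : ℤ) = nH at *
  push_cast at h1
  nlinarith

/-- **the energy of the sub-slot, version [C]**, `X` further edges inside the kept parts -/
theorem PkOpt.energySX (h : WHom G Z T r m n hm) {z : V} (y : V) (hz' : z ∈ T)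
    (hB : ∀ x ∈ T, PkOpt G (cz G Z T hm x) (hz G Z T hm x) (tlo G T hm) φ (B x) (Ps x))
    {X : ℕ} (hX : P1.card * P1.card + X ≤ E G (P1.biUnion id) + P1.card)
    (hB1 : B1 ⊆ B z) (hP1 : P1 ⊆ Ps z) (hXC : XC ⊆ cz G Z T hm z)
    {L : Finset V} (hL : ∀ e ∈ B1, tlo G T hm e.1 ≠ y → tlo G T hm e.1 ∈ L) :
    2 * eI G hm (Z \ keepX G Z T hm z B1 P1 XC) z + (∑ u ∈ pkf B1 P1, (ivl u : ℤ))
        * (∑ u ∈ pkf B1 P1, (ivl u : ℤ) + 1) + X
        + E G ((pcs (tlo G T hm) B1 y).image Prod.fst)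
      ≤ 2 * ((∑ u ∈ pkf B1 P1, (ivl u : ℤ)) * ((keepH B1 P1).card : ℤ))
        + ∑ l ∈ L, nxw G Z T hm B z l
        + 2 * ∑ e ∈ pcs (tlo G T hm) B1 y, (nd G (cz G Z T hm z \ XC) e.1 : ℤ)
        + 2 * losD G (tlo G T hm) (cz G Z T hm z \ XC) (B z) B1
          (P1.biUnion id ∪ (B1 \ pcs (tlo G T hm) B1 y).image Prod.fst) := by
  have hpk := hB z hz'
  have h1 := energy_rawX (B := B) (Ps := Ps) h y hz' hpk.toPk hX hB1 hP1 hXC
  -- no N-ends
  have h0 : Nend G (cz G Z T hm z) (hz G Z T hm z) (tlo G T hm) (B z) = ∅ := hpk.frC_zero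
  have h11 : ∑ v ∈ P1.biUnion id,
      ((frC G (cz G Z T hm z \ XC) (tlo G T hm) (B z) v).card : ℤ) = 0 := by
    refine sum_eq_zero fun v hv => ?_
    obtain ⟨P, hP, hvP⟩ := mem_biUnion.1 hv
    have hP' := hP1 hP
    have h12 : v ∈ hz G Z T hm z \ (B z).image Prod.fst := by
      refine mem_sdiff.2 ⟨hpk.sub P hP' hvP, fun h7 => ?_⟩
      obtain ⟨e, he, hev⟩ := mem_image.1 h7
      exact hpk.dw e he P hP' (hev ▸ hvP)
    have h13 : frC G (cz G Z T hm z \ XC) (tlo G T hm) (B z) v = ∅ := by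
      by_contra h14
      obtain ⟨a, ha⟩ := nonempty_iff_ne_empty.2 h14
      have h15 := mem_frC.1 ha
      have h16 : v ∈ Nend G (cz G Z T hm z) (hz G Z T hm z) (tlo G T hm) (B z) :=
        mem_Nend.2 ⟨h12, a, mem_frC.2 ⟨(mem_sdiff.1 h15.1).1, h15.2⟩⟩
      rw [h0] at h16
      exact notMem_empty v h16
    rw [h13, card_empty]
    rfl
  -- the other tails
  have hlt : ∀ e ∈ B1 \ pcs (tlo G T hm) B1 y, tlo G T hm e.1 ∈ L := by
    intro e he
    obtain ⟨h6, h7⟩ := mem_sdp.1 he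
    exact hL e h6 h7
  have h6 : 2 * ∑ e ∈ B1 \ pcs (tlo G T hm) B1 y,
        (1 + ((frC G (cz G Z T hm z \ XC) (tlo G T hm) (B z) e.1).card : ℤ))
      + bothB G (tlo G T hm) (B1 \ pcs (tlo G T hm) B1 y)
      ≤ ∑ l ∈ L, nxw G Z T hm B z l := by
    have hsub : ∀ x, pcs (tlo G T hm) (B1 \ pcs (tlo G T hm) B1 y) x
        ⊆ pcs (tlo G T hm) (B z) x := by
      intro x e he
      obtain ⟨h8, h9⟩ := mem_pcs.1 he
      exact mem_pcs.2 ⟨hB1 (mem_sdp.1 h8).1, h9⟩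
    have h7 : ∑ e ∈ B1 \ pcs (tlo G T hm) B1 y,
        (1 + ((frC G (cz G Z T hm z \ XC) (tlo G T hm) (B z) e.1).card : ℤ))
        = ∑ x ∈ L, ∑ e ∈ pcs (tlo G T hm) (B1 \ pcs (tlo G T hm) B1 y) x,
          (1 + ((frC G (cz G Z T hm z \ XC) (tlo G T hm) (B z) e.1).card : ℤ)) :=
      (sum_fiberwise_of_maps_to (g := fun e : V × V => tlo G T hm e.1)
        (fun e he => hlt e he) _).symm
    have h8 := bothB_split (G := G) hlt
    rw [h7, h8, mul_sum, Nat.cast_sum, ← sum_add_distrib]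
    refine sum_le_sum fun x _ => ?_
    refine le_trans ?_ (h.nbc_le_nxw (fun x hx => (hB x hx).toPk) hz' x)
    unfold nbc
    have h9 : ∑ e ∈ pcs (tlo G T hm) (B1 \ pcs (tlo G T hm) B1 y) x,
          (1 + ((frC G (cz G Z T hm z \ XC) (tlo G T hm) (B z) e.1).card : ℤ))
        ≤ ∑ e ∈ pcs (tlo G T hm) (B z) x,
          (1 + ((frC G (cz G Z T hm z) (tlo G T hm) (B z) e.1).card : ℤ)) := by
      refine le_trans (sum_le_sum fun e _ => ?_)
        (sum_le_sum_of_subset_of_nonneg (hsub x) fun _ _ _ => by positivity)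
      have h11 : ((frC G (cz G Z T hm z \ XC) (tlo G T hm) (B z) e.1).card : ℤ)
          ≤ ((frC G (cz G Z T hm z) (tlo G T hm) (B z) e.1).card : ℤ) := by
        exact_mod_cast frC_card_mono (G := G) (tl := tlo G T hm) (B := B z)
          (sdiff_subset : cz G Z T hm z \ XC ⊆ cz G Z T hm z) e.1
      linarith
    have h10 : (bothB G (tlo G T hm) (pcs (tlo G T hm)
          (B1 \ pcs (tlo G T hm) B1 y) x) : ℤ)
        ≤ (bothB G (tlo G T hm) (pcs (tlo G T hm) (B z) x) : ℤ) := by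
      exact_mod_cast bothB_mono (hsub x)
    linarith
  rw [h11] at h1
  linarith

/-- **the energy of the sub-slot, version [C], with the hosted Mantel gain**: `fullT tl P1 l` are the kept parts
which are not single and all of whose members have the tail `l` -/
theorem PkOpt.energySM (h : WHom G Z T r m n hm) {z : V} (y : V) (hz' : z ∈ T)
    (hB : ∀ x ∈ T, PkOpt G (cz G Z T hm x) (hz G Z T hm x) (tlo G T hm) φ (B x) (Ps x))
    (hB1 : B1 ⊆ B z) (hP1 : P1 ⊆ Ps z) (hXC : XC ⊆ cz G Z T hm z)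
    {L : Finset V} (hL : ∀ e ∈ B1, tlo G T hm e.1 ≠ y → tlo G T hm e.1 ∈ L) (L' : Finset V) :
    2 * eI G hm (Z \ keepX G Z T hm z B1 P1 XC) z + (∑ u ∈ pkf B1 P1, (ivl u : ℤ))
        * (∑ u ∈ pkf B1 P1, (ivl u : ℤ) + 1)
        + ∑ l ∈ L', ((fullT (tlo G T hm) P1 l).card : ℤ) * ((fullT (tlo G T hm) P1 l).card - 1)
        + E G ((pcs (tlo G T hm) B1 y).image Prod.fst)
      ≤ 2 * ((∑ u ∈ pkf B1 P1, (ivl u : ℤ)) * ((keepH B1 P1).card : ℤ))
        + ∑ l ∈ L, nxw G Z T hm B z l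
        + 2 * ∑ e ∈ pcs (tlo G T hm) B1 y, (nd G (cz G Z T hm z \ XC) e.1 : ℤ)
        + 2 * losD G (tlo G T hm) (cz G Z T hm z \ XC) (B z) B1
          (P1.biUnion id ∪ (B1 \ pcs (tlo G T hm) B1 y).image Prod.fst) := by
  have hF := h.F.toPFrame
  have h32 := h.csys.h32 hF h.hh h.ht hz'
  have hpk := hB z hz'
  have h1 := hpk.toPk.E_partsM hpk.min h32 (h.h33 hz') hP1 L'
  have h2 := PkOpt.energySX h y hz' hB h1 hB1 hP1 hXC hL
  have h3 : ((∑ l ∈ L', (fullT (tlo G T hm) P1 l).card * ((fullT (tlo G T hm) P1 l).card - 1) : ℕ) : ℤ)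
      = ∑ l ∈ L', ((fullT (tlo G T hm) P1 l).card : ℤ) * ((fullT (tlo G T hm) P1 l).card - 1) := by
    push_cast
    refine sum_congr rfl fun l _ => ?_
    rcases Nat.eq_zero_or_pos (fullT (tlo G T hm) P1 l).card with h4 | h4
    · rw [h4]
      simp
    · rw [Nat.cast_sub h4]
      rfl
  rw [h3] at h2
  exact h2

end EnMW

end Pool.Agent.Lib.MP_f04ccf_co
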