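import Pool.Agent.Lib.MP_f04ccf_co.M.KonE
import Pool.Agent.Lib.MP_f04ccf_co.M.EnM
import Pool.Agent.Lib.MP_f04ccf_co.M.SubT

/-!
MP_f04ccf_co, TEXT D, notes 17758, 17824, 17838: **the energy of a home without the free PC pairs of some tails**,
version [C], over the row indices.

* `PkOpt.enX`: helper59's `PkOpt.enK` for any set `X` of tails: the free PC pairs (`konQ`) of the tails in `X` are
  dropped, the kept PC pairs of a tail in `X` cost `p (p + 1)`, those of the other tails `nxw`; any saving among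
  the kept parts (helper35's `Pk.energy_dropX`);
* `KonD`: the sets `D` of dropped items of the host `i`: all free PC pairs with tails in `X`, besides only items
  which are not PC pairs; `EnKD`: the energy, with the hosted Mantel gain of the kept full items;
* `WCoreK.enKD`: the energy over the row indices with the PC pairs of the tail `j` in joint form (for `RowGD1`);
  `WCoreK.enKT`: without a joint tail (for `RowTD1` and `rowLD`);
* `TsK`: the tests over numbers; `WItC.tsk`: the transport.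
-/

set_option autoImplicit false

namespace Pool.Agent.Lib.MP_f04ccf_co

open Finset

attribute [local instance] Classical.propDecidable

section EnX

variable {V : Type*} {G : SimpleGraph V} {Z T : Finset V} {hm : V → V} {r m n p : ℕ}
  {φ : Finset (V × V) → Finset (Finset V) → ℕ}
  {B : V → Finset (V × V)} {Ps : V → Finset (Finset V)}
  {B1 : Finset (V × V)} {P1 : Finset (Finset V)} {XC : Finset V}

/-- **the energy of the home `z` without its free PC pairs of the tails in `X`**, any saving `A` among the kept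
parts -/
theorem PkOpt.enX (h : WHom G Z T r m n hm) {z : V} (y : V) (hz' : z ∈ T)
    (hB : ∀ x ∈ T, PkOpt G (cz G Z T hm x) (hz G Z T hm x) (tlo G T hm) φ (B x) (Ps x))
    (X : V → Prop) {Q : Finset (V × V)}
    (hQ : Q = (konQ G (cz G Z T hm z) (tlo G T hm) (B z)).filter fun e => X (tlo G T hm e.1))
    (hB1 : B1 ⊆ B z \ Q) (hP1 : P1 ⊆ Ps z) (hXC : XC ⊆ cz G Z T hm z) {L : Finset V}
    (hL : ∀ e ∈ B1, tlo G T hm e.1 ≠ y → tlo G T hm e.1 ∈ L) {A : ℕ}
    (hA : P1.card * P1.card + A ≤ E G (P1.biUnion id) + P1.card) :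
    2 * eI G hm (Z \ keepX G Z T hm z B1 P1 XC) z
        + (∑ u ∈ pkf B1 P1, (ivl u : ℤ)) * (∑ u ∈ pkf B1 P1, (ivl u : ℤ) + 1) + A
        + E G ((pcs (tlo G T hm) B1 y).image Prod.fst)
      ≤ 2 * ((∑ u ∈ pkf B1 P1, (ivl u : ℤ)) * (keepH B1 P1).card)
        + ∑ l ∈ L, (if X l then ((pcs (tlo G T hm) B1 l).card : ℤ)
            * ((pcs (tlo G T hm) B1 l).card + 1) else nxw G Z T hm B z l)
        + 2 * ∑ e ∈ pcs (tlo G T hm) B1 y, (nd G (cz G Z T hm z \ XC) e.1 : ℤ)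
        + 2 * losD G (tlo G T hm) (cz G Z T hm z \ XC) (B z \ Q) B1
          (P1.biUnion id ∪ (B1 \ pcs (tlo G T hm) B1 y).image Prod.fst) := by
  have hF := h.F.toPFrame
  have hCH : Disjoint (hz G Z T hm z) (cz G Z T hm z) := (h.csys.dCH hz' hz').symm
  have h32 := h.csys.h32 hF h.hh h.ht hz'
  have hpk := hB z hz'
  have hQB : Q ⊆ B z := by
    rw [hQ]
    exact (filter_subset _ _).trans konQ_sub
  obtain ⟨hp, hM⟩ := hpk.konX X hQ
  have hk := hp.toPk.keep hB1 hP1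
  have hks := hp.toPk.keep_sub hB1 hP1
  have hUe := hk.union_eq
  have h32' : ∀ v ∈ hz G Z T hm z \ Q.image Prod.fst, ∀ w ∈ hz G Z T hm z \ Q.image Prod.fst,
      ∀ a ∈ cz G Z T hm z, v ≠ w → tlo G T hm v = tlo G T hm w → ¬ G.Adj v a → ¬ G.Adj w a →
      G.Adj v w := fun v hv w hw =>
    h32 v (mem_sdiff.1 hv).1 w (mem_sdiff.1 hw).1
  have h1 := hp.toPk.energy_dropX h32' (h.csys.CP_clq hF hz') (hCH.mono_left sdiff_subset)
    hB1 hP1 (sdiff_subset : cz G Z T hm z \ XC ⊆ cz G Z T hm z) y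
    (D := 0) (X := A) (hX := hA) (hD := by
      rw [add_zero]
      refine sum_le_sum fun e he => ?_
      have h2 := hk.uin_le (fun v hv w hw => h32' v (hks hv) w (hks hw)) he
      rwa [hUe] at h2)
  -- no N-ends
  have h0 : Nend G (cz G Z T hm z) (hz G Z T hm z \ Q.image Prod.fst) (tlo G T hm) (B z \ Q) = ∅ :=
    hp.frC_zero
  have h11 : ∑ v ∈ P1.biUnion id,
      ((frC G (cz G Z T hm z \ XC) (tlo G T hm) (B z \ Q) v).card : ℤ) = 0 := by
    refine sum_eq_zero fun v hv => ?_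
    obtain ⟨P, hP, hvP⟩ := mem_biUnion.1 hv
    have h12 : v ∈ (hz G Z T hm z \ Q.image Prod.fst) \ (B z \ Q).image Prod.fst := by
      refine mem_sdiff.2 ⟨hp.sub P (hP1 hP) hvP, fun h7 => ?_⟩
      obtain ⟨e, he, hev⟩ := mem_image.1 h7
      exact hp.dw e he P (hP1 hP) (hev ▸ hvP)
    have h13 : frC G (cz G Z T hm z \ XC) (tlo G T hm) (B z \ Q) v = ∅ := by
      by_contra h14
      obtain ⟨a, ha⟩ := nonempty_iff_ne_empty.2 h14
      have h15 := mem_frC.1 ha
      have h16 : v ∈ Nend G (cz G Z T hm z) (hz G Z T hm z \ Q.image Prod.fst) (tlo G T hm)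
          (B z \ Q) := mem_Nend.2 ⟨h12, a, mem_frC.2 ⟨(mem_sdiff.1 h15.1).1, h15.2⟩⟩
      rw [h0] at h16
      exact notMem_empty v h16
    rw [h13, card_empty]
    rfl
  -- the other tails
  have hlt : ∀ e ∈ B1 \ pcs (tlo G T hm) B1 y, tlo G T hm e.1 ∈ L := by
    intro e he
    obtain ⟨h6, h7⟩ := mem_sdp.1 he
    exact hL e h6 h7
  have hmem1 : ∀ e ∈ B1, e.1 ∈ hz G Z T hm z \ Q.image Prod.fst := fun e he =>
    hp.toPk.bH e (hB1 he)
  have h6 : 2 * ∑ e ∈ B1 \ pcs (tlo G T hm) B1 y,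
        (1 + ((frC G (cz G Z T hm z \ XC) (tlo G T hm) (B z \ Q) e.1).card : ℤ))
      + bothB G (tlo G T hm) (B1 \ pcs (tlo G T hm) B1 y)
      ≤ ∑ l ∈ L, (if X l then ((pcs (tlo G T hm) B1 l).card : ℤ)
            * ((pcs (tlo G T hm) B1 l).card + 1) else nxw G Z T hm B z l) := by
    have h7 : ∑ e ∈ B1 \ pcs (tlo G T hm) B1 y,
        (1 + ((frC G (cz G Z T hm z \ XC) (tlo G T hm) (B z \ Q) e.1).card : ℤ))
        = ∑ x ∈ L, ∑ e ∈ pcs (tlo G T hm) (B1 \ pcs (tlo G T hm) B1 y) x,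
          (1 + ((frC G (cz G Z T hm z \ XC) (tlo G T hm) (B z \ Q) e.1).card : ℤ)) :=
      (sum_fiberwise_of_maps_to (g := fun e : V × V => tlo G T hm e.1)
        (fun e he => hlt e he) _).symm
    have h8 := bothB_split (G := G) hlt
    rw [h7, h8, mul_sum, Nat.cast_sum, ← sum_add_distrib]
    refine sum_le_sum fun x _ => ?_
    by_cases hx : X x
    · -- a tail in `X`: no free arcs
      rw [if_pos hx]
      obtain ⟨Q', hQ'⟩ : ∃ Q', Q' = pcs (tlo G T hm) (B1 \ pcs (tlo G T hm) B1 y) x := ⟨_, rfl⟩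
      have hQ1 : Q' ⊆ pcs (tlo G T hm) B1 x := by
        intro e he
        rw [hQ'] at he
        obtain ⟨h8, h9⟩ := mem_pcs.1 he
        exact mem_pcs.2 ⟨(mem_sdp.1 h8).1, h9⟩
      rw [← hQ']
      have h9 := bothB_le (G := G) (tl := tlo G T hm) Q'
      have h12 : (Q'.card : ℤ) ≤ ((pcs (tlo G T hm) B1 x).card : ℤ) := by
        exact_mod_cast card_le_card hQ1
      have h13 : (0 : ℤ) ≤ (Q'.card : ℤ) := Int.natCast_nonneg _
      have h15 : ∑ e ∈ Q', (1 + ((frC G (cz G Z T hm z \ XC) (tlo G T hm) (B z \ Q) e.1).card : ℤ))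
          = Q'.card := by
        rw [card_eq_sum_ones, Nat.cast_sum]
        refine sum_congr rfl fun e he => ?_
        obtain ⟨h2, h3⟩ := mem_pcs.1 (hQ1 he)
        have h4 : frC G (cz G Z T hm z \ XC) (tlo G T hm) (B z \ Q) e.1 = ∅ := by
          by_contra h14
          obtain ⟨a, ha⟩ := nonempty_iff_ne_empty.2 h14
          obtain ⟨g1, g2, g3⟩ := mem_frC.1 ha
          obtain ⟨f, hf, g4, g5⟩ := hM e.1 (hmem1 e h2) (by rw [h3]; exact hx) a
            (mem_sdiff.1 g1).1 g2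
          exact g3 f hf g4 g5
        rw [h4, card_empty]
        rfl
      rw [h15]
      nlinarith
    · -- another tail
      rw [if_neg hx]
      have hsub : pcs (tlo G T hm) (B1 \ pcs (tlo G T hm) B1 y) x
          ⊆ pcs (tlo G T hm) (B z) x := by
        intro e he
        obtain ⟨h8, h9⟩ := mem_pcs.1 he
        exact mem_pcs.2 ⟨(mem_sdiff.1 (hB1 (mem_sdp.1 h8).1)).1, h9⟩
      refine le_trans ?_ (h.nbc_le_nxw (fun x hx => (hB x hx).toPk) hz' x)
      unfold nbc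
      have h9 : ∑ e ∈ pcs (tlo G T hm) (B1 \ pcs (tlo G T hm) B1 y) x,
            (1 + ((frC G (cz G Z T hm z \ XC) (tlo G T hm) (B z \ Q) e.1).card : ℤ))
          ≤ ∑ e ∈ pcs (tlo G T hm) (B z) x,
            (1 + ((frC G (cz G Z T hm z) (tlo G T hm) (B z) e.1).card : ℤ)) := by
        refine le_trans (sum_le_sum fun e he => ?_)
          (sum_le_sum_of_subset_of_nonneg hsub fun _ _ _ => by positivity)
        have h10 : frC G (cz G Z T hm z \ XC) (tlo G T hm) (B z \ Q) e.1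
            ⊆ frC G (cz G Z T hm z) (tlo G T hm) (B z) e.1 := by
          intro a ha
          obtain ⟨g1, g2, g3⟩ := mem_frC.1 ha
          refine mem_frC.2 ⟨(mem_sdiff.1 g1).1, g2, fun f hf g4 g5 => ?_⟩
          refine g3 f (mem_sdiff.2 ⟨hf, fun g6 => ?_⟩) g4 g5
          rw [hQ] at g6
          have g7 := (mem_filter.1 g6).2
          rw [g5, (mem_pcs.1 he).2] at g7
          exact hx g7
        have h11 := card_le_card h10
        have h12 : ((frC G (cz G Z T hm z \ XC) (tlo G T hm) (B z \ Q) e.1).card : ℤ)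
            ≤ ((frC G (cz G Z T hm z) (tlo G T hm) (B z) e.1).card : ℤ) := by
          exact_mod_cast h11
        linarith
      have h10 : (bothB G (tlo G T hm) (pcs (tlo G T hm)
            (B1 \ pcs (tlo G T hm) B1 y) x) : ℤ)
          ≤ (bothB G (tlo G T hm) (pcs (tlo G T hm) (B z) x) : ℤ) := by
        exact_mod_cast bothB_mono hsub
      linarith
  rw [h11] at h1
  have h2 := hk.sum_ivl
  have h3 : ∑ u ∈ pkf B1 P1, (ivl u : ℤ) + (P1.card : ℤ) = ((keepH B1 P1).card : ℤ) := by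
    exact_mod_cast h2
  have hkH : keepH B1 P1 ⊆ hz G Z T hm z :=
    keepH_sub hpk.toPk (hB1.trans sdiff_subset) hP1
  have h5 := two_eI (G := G) (hm := hm) (Z \ keepX G Z T hm z B1 P1 XC) z
  rw [slot_keep hXC hkH] at h5
  rw [h5]
  unfold keepH
  unfold keepH at h3
  obtain ⟨μ, hμ⟩ : ∃ μ : ℤ, μ = ∑ u ∈ pkf B1 P1, (ivl u : ℤ) := ⟨_, rfl⟩
  rw [← hμ] at h3 ⊢
  have h14 : (P1.card : ℤ) = ((B1.image Prod.fst ∪ P1.biUnion id).card : ℤ) - μ := by linarith
  rw [h14] at h1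
  generalize ((B1.image Prod.fst ∪ P1.biUnion id).card : ℤ) = nH at *
  push_cast at h1
  nlinarith

end EnX

section Defs

variable {ι : Type*}

/-- **the dropped items `D` of the host `i`**: all free PC pairs (`KQ`) with tails in `X`, besides only items which
are not PC pairs -/
def KonD (n : ℕ) (U KQ : Finset ι) (ho : ι → ℕ) (kp : ℕ → ι → ℤ) (pc : ι → ℤ) (i : ℕ)
    (X : Finset ℕ) (D : Finset ι) : Prop :=
  X ⊆ range n ∧ D ⊆ U.filter (fun u => ho u = i)
    ∧ (∀ u ∈ D, pc u ≠ 0 → u ∈ KQ ∧ ∃ l ∈ X, kp l u ≠ 0)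
    ∧ ∀ u ∈ KQ, ho u = i → (∃ l ∈ X, kp l u ≠ 0) → u ∈ D

/-- the number of the kept full items of the host `i` with the tail `l` -/
noncomputable def fllK (n : ℕ) (U : Finset ι) (ho : ι → ℕ) (kp : ℕ → ι → ℤ) (pc : ι → ℤ)
    (i : ℕ) (D : Finset ι) (l : ℕ) : ℤ :=
  ((U.filter fun u => ho u = i ∧ u ∉ D ∧ pc u = 0 ∧ ∀ l' < n, l' ≠ l → kp l' u = 0).card : ℤ)

/-- **the energy of the home `i` without the items `D`**; the PC pairs with tails in `J` are not counted -/
noncomputable def EnKD (n : ℕ) (h mu : ℕ → ℤ) (U : Finset ι) (ho : ι → ℕ) (vl : ι → ℤ)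
    (kp : ℕ → ι → ℤ) (be NN : ℕ → ℕ → ℤ) (pc : ι → ℤ) (i : ℕ) (J X : Finset ℕ)
    (D : Finset ι) : ℤ :=
  2 * ((mu i - ∑ u ∈ D, vl u) * (h i - ∑ u ∈ D, (vl u + 1 - pc u)))
    - (mu i - ∑ u ∈ D, vl u) * (mu i - ∑ u ∈ D, vl u + 1)
    - ∑ l ∈ range n, fllK n U ho kp pc i D l * (fllK n U ho kp pc i D l - 1)
    + ∑ l ∈ ((range n).erase i) \ J, (if l ∈ X then (be i l - ∑ u ∈ D, pc u * kp l u)
        * (be i l - ∑ u ∈ D, pc u * kp l u + 1) else NN i l)

/-- **the tests of a row with dropped items of the host, the free PC pairs (`KQ`) of any tails among them**: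
`rgk` the row test of `i` with the columns of `j`, the PC pairs of both homes in joint form; `rtk` the row test
without columns; `kqa` a PC pair which is not free misses at most as many points of its class as there are PC
pairs of the same kind -/
structure TsK (R : ℤ) (n : ℕ) (t s h : ℕ → ℤ) (U : Finset ι) (ho : ι → ℕ) (vl : ι → ℤ)
    (kp ms mn : ℕ → ι → ℤ) (mu : ℕ → ℤ) (be : ℕ → ℕ → ℤ) (pc ar : ι → ℤ) (NN : ℕ → ℕ → ℤ)
    (KQ : Finset ι) : Prop where
  kqU : KQ ⊆ U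
  kqp : ∀ u ∈ KQ, pc u = 1
  kqa : ∀ u ∈ U, pc u = 1 → u ∉ KQ → ∀ l < n, kp l u ≠ 0 →
    ar u ≤ be (ho u) l - ∑ w ∈ KQ.filter (fun w => ho w = ho u), kp l w
  rgk : ∀ i < n, ∀ j < n, i ≠ j → ∀ X : Finset ℕ, ∀ D : Finset ι, KonD n U KQ ho kp pc i X D →
    RowGD1 R n t s U ho vl kp ms mn be pc ar i j D
      (EnKD n h mu U ho vl kp be NN pc i {j} X D)
  rtk : ∀ i < n, ∀ X : Finset ℕ, ∀ D : Finset ι, KonD n U KQ ho kp pc i X D →
    RowTD1 R n t s U ho vl kp mn pc i D (EnKD n h mu U ho vl kp be NN pc i ∅ X D)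

end Defs

section EnKI

variable {V : Type*} {G : SimpleGraph V} {Z T : Finset V} {hm : V → V} {r m n p : ℕ}
  {φ : Finset (V × V) → Finset (Finset V) → ℕ} {B : V → Finset (V × V)}
  {Ps : V → Finset (Finset V)} {host : Itm V → V} {ρ : V → ℕ} {σ : ℕ → V}

variable (G Z T hm B) in
/-- the free PC pairs of all homes -/
noncomputable def konI : Finset (Itm V) :=
  T.biUnion fun x => (konQ G (cz G Z T hm x) (tlo G T hm) (B x)).image Sum.inr

lemma konI_sub : konI G Z T hm B ⊆ T.biUnion fun x => pkf (B x) (Ps x) := by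
  intro u hu
  obtain ⟨x, hx, h1⟩ := mem_biUnion.1 hu
  obtain ⟨e, he, rfl⟩ := mem_image.1 h1
  exact mem_biUnion.2 ⟨x, hx, inr_mem_pkf.2 (konQ_sub he)⟩

lemma konI_pc : ∀ u ∈ konI G Z T hm B, ipc u = 1 := by
  intro u hu
  obtain ⟨x, hx, h1⟩ := mem_biUnion.1 hu
  obtain ⟨e, he, rfl⟩ := mem_image.1 h1
  rfl

/-- a member with the tail `x`, so `ikp` is not zero -/
lemma ikp_of_tail {tl : V → V} {P : Finset V} (hP : 2 ≤ P.card) {v x : V} (hv : v ∈ P)
    (hx : tl v = x) : ikp tl x (Sum.inl P : Itm V) ≠ 0 := by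
  simp only [ikp]
  split_ifs with h1
  · omega
  · have h2 : v ∈ tlp tl P x := mem_filter.2 ⟨hv, hx⟩
    have := card_pos.2 ⟨v, h2⟩
    omega

/-- **the energy over the row indices**, the joint tail `y` any vertex -/
private lemma enKI (h : WCoreK G Z T r m n p hm)
    (hB : ∀ x ∈ T, PkOpt G (cz G Z T hm x) (hz G Z T hm x) (tlo G T hm) φ (B x) (Ps x))
    (hst : ∀ x ∈ T, ∀ u ∈ pkf (B x) (Ps x), host u = x)
    (rk : Rank T (tI G Z T hm r Z) ρ σ) {i : ℕ} (hi : i < n) (y : V) {J X : Finset ℕ}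
    (hJ : ∀ l < n, l ≠ i → (l ∈ J ↔ σ l = y)) {D : Finset (Itm V)}
    (hD : KonD n (T.biUnion fun x => pkf (B x) (Ps x)) (konI G Z T hm B) (fun u => ρ (host u))
      (fun i u => (ikp (tlo G T hm) (σ i) u : ℤ)) (fun u => (ipc u : ℤ)) i X D) :
    2 * eI G hm (Z \ D.biUnion imem) (σ i)
        + E G ((pcs (tlo G T hm) (kpB (B (σ i)) D) y).image Prod.fst)
      ≤ EnKD n (fun i => hI G Z T hm Z (σ i)) (fun i => ∑ u ∈ pkf (B (σ i)) (Ps (σ i)), (ivl u : ℤ))
          (T.biUnion fun x => pkf (B x) (Ps x)) (fun u => ρ (host u)) (fun u => (ivl u : ℤ))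
          (fun i u => (ikp (tlo G T hm) (σ i) u : ℤ)) (fun i j => pcn (tlo G T hm) B (σ i) (σ j))
          (fun i j => nxw G Z T hm B (σ i) (σ j)) (fun u => (ipc u : ℤ)) i J X D
        + 2 * ∑ e ∈ pcs (tlo G T hm) (kpB (B (σ i)) D) y, (nd G (cz G Z T hm (σ i)) e.1 : ℤ) := by
  obtain ⟨hXn, hDU, hD1, hD2⟩ := hD
  have hcard := h.toWHom.cardT
  have hmem : ∀ i < n, σ i ∈ T := fun i hi => rk.mem i (by rw [hcard]; exact hi)
  have hsinj : ∀ i < n, ∀ j < n, σ i = σ j → i = j := fun i hi j hj h1 =>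
    rk.sinj (by rw [hcard]; exact hi) (by rw [hcard]; exact hj) h1
  have hfil : (T.biUnion fun x => pkf (B x) (Ps x)).filter (fun u => ρ (host u) = i)
      = pkf (B (σ i)) (Ps (σ i)) := fil_host hst rk (by rw [hcard]; exact hi)
  have hDp : D ⊆ pkf (B (σ i)) (Ps (σ i)) := by
    rw [← hfil]
    exact hDU
  have hpk := hB _ (hmem i hi)
  have hidx : ∀ v ∈ hz G Z T hm (σ i), ∃ l < n, l ≠ i ∧ tlo G T hm v = σ l := by
    intro v hv
    obtain ⟨h1, h2⟩ := mem_erase.1 (h.toWHom.ht _ (hmem i hi) v hv)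
    have h3 := rk.lt _ h2
    rw [hcard] at h3
    refine ⟨_, h3, fun h4 => h1 ?_, (rk.left _ h2).symm⟩
    rw [← rk.left _ h2, h4]
  obtain ⟨X', hX'⟩ : ∃ X' : V → Prop, X' = fun v => ∃ l ∈ X, v = σ l := ⟨_, rfl⟩
  obtain ⟨Q, hQ⟩ : ∃ Q, Q = (konQ G (cz G Z T hm (σ i)) (tlo G T hm) (B (σ i))).filter
      fun e => X' (tlo G T hm e.1) := ⟨_, rfl⟩
  have hkp1 : ∀ (e : V × V) (l : ℕ), (ikp (tlo G T hm) (σ l) (Sum.inr e : Itm V) : ℤ) ≠ 0
      ↔ tlo G T hm e.1 = σ l := by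
    intro e l
    simp only [ikp]
    split_ifs with h1
    · simp [h1]
    · simp [h1]
  -- the kept PC pairs
  have hB1 : kpB (B (σ i)) D = B (σ i) \ Q := by
    ext e
    rw [mem_kpB, mem_sdiff]
    refine and_congr_right fun he => not_congr ⟨fun h1 => ?_, fun h1 => ?_⟩
    · obtain ⟨h2, l, hl, h3⟩ := hD1 _ h1 (by simp [ipc])
      obtain ⟨x, hx, h4⟩ := mem_biUnion.1 h2
      obtain ⟨f, hf, h5⟩ := mem_image.1 h4
      have h6 := Sum.inr_injective h5
      subst h6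
      have h7 := hst x hx _ (inr_mem_pkf.2 (konQ_sub hf))
      have h8 := hst _ (hmem i hi) _ (inr_mem_pkf.2 he)
      have h9 : x = σ i := h7.symm.trans h8
      subst h9
      rw [hQ]
      refine mem_filter.2 ⟨hf, ?_⟩
      rw [hX']
      exact ⟨l, hl, (hkp1 f l).1 h3⟩
    · rw [hQ] at h1
      obtain ⟨h2, h3⟩ := mem_filter.1 h1
      rw [hX'] at h3
      obtain ⟨l, hl, h4⟩ := h3
      refine hD2 _ (mem_biUnion.2 ⟨σ i, hmem i hi, mem_image_of_mem _ h2⟩) ?_
        ⟨l, hl, (hkp1 e l).2 h4⟩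
      show ρ (host (Sum.inr e)) = i
      rw [hst _ (hmem i hi) _ (inr_mem_pkf.2 he)]
      exact rk.right i (by rw [hcard]; exact hi)
  have h32 := h.toWHom.csys.h32 h.F.toPFrame h.hh h.toWHom.ht (hmem i hi)
  have hM := hpk.toPk.E_partsM hpk.min h32 (h.toWHom.h33 (hmem i hi))
    (kpP_sub (Ps := Ps (σ i)) (D := D)) ((range n).image σ)
  have h1 := PkOpt.enX h.toWHom y (hmem i hi) hB X' hQ (B1 := kpB (B (σ i)) D)
    (P1 := kpP (Ps (σ i)) D) (XC := ∅) (hB1 ▸ subset_rfl) kpP_sub (empty_subset _)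
    (L := (((range n).erase i) \ J).image σ) (fun e he h2 => by
      obtain ⟨l, hl, hli, h3⟩ := hidx e.1 (hpk.toPk.bH e (kpB_sub he))
      rw [h3]
      refine mem_image_of_mem _ (mem_sdiff.2 ⟨mem_erase.2 ⟨hli, mem_range.2 hl⟩, fun h4 => ?_⟩)
      exact h2 (h3.trans ((hJ l hl hli).1 h4))) hM
  rw [← hB1, losD_self, keepX_kp hpk.toPk hDp, union_empty, pkf_kp, sdiff_empty] at h1
  -- the sums over the tails
  have e1 : ∑ l ∈ (((range n).erase i) \ J).image σ, (if X' l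
        then ((pcs (tlo G T hm) (kpB (B (σ i)) D) l).card : ℤ)
          * ((pcs (tlo G T hm) (kpB (B (σ i)) D) l).card + 1) else nxw G Z T hm B (σ i) l)
      = ∑ l ∈ ((range n).erase i) \ J, (if l ∈ X
        then (pcn (tlo G T hm) B (σ i) (σ l)
            - ∑ u ∈ D, (ipc u : ℤ) * (ikp (tlo G T hm) (σ l) u : ℤ))
          * (pcn (tlo G T hm) B (σ i) (σ l)
            - ∑ u ∈ D, (ipc u : ℤ) * (ikp (tlo G T hm) (σ l) u : ℤ) + 1)
        else nxw G Z T hm B (σ i) (σ l)) := by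
    rw [sum_image fun a ha b hb h2 => hsinj a
      (mem_range.1 (mem_of_mem_erase (mem_sdiff.1 (mem_coe.1 ha)).1)) b
      (mem_range.1 (mem_of_mem_erase (mem_sdiff.1 (mem_coe.1 hb)).1)) h2]
    refine sum_congr rfl fun l hl => ?_
    have hln : l < n := mem_range.1 (mem_of_mem_erase (mem_sdiff.1 hl).1)
    have h2 : X' (σ l) ↔ l ∈ X := by
      rw [hX']
      constructor
      · rintro ⟨l', hl', h3⟩
        rwa [hsinj l hln l' (mem_range.1 (hXn hl')) h3]
      · exact fun h3 => ⟨l, h3, rfl⟩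
    by_cases h3 : l ∈ X
    · rw [if_pos (h2.2 h3), if_pos h3, card_pcs_kp hDp]
      rfl
    · rw [if_neg fun h4 => h3 (h2.1 h4), if_neg h3]
  -- the full items
  have e2 : ∑ l ∈ range n, fllK n (T.biUnion fun x => pkf (B x) (Ps x)) (fun u => ρ (host u))
        (fun i u => (ikp (tlo G T hm) (σ i) u : ℤ)) (fun u => (ipc u : ℤ)) i D l
        * (fllK n (T.biUnion fun x => pkf (B x) (Ps x)) (fun u => ρ (host u))
          (fun i u => (ikp (tlo G T hm) (σ i) u : ℤ)) (fun u => (ipc u : ℤ)) i D l - 1)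
      ≤ ((∑ y ∈ (range n).image σ, (fullT (tlo G T hm) (kpP (Ps (σ i)) D) y).card
        * ((fullT (tlo G T hm) (kpP (Ps (σ i)) D) y).card - 1) : ℕ) : ℤ) := by
    rw [sum_image fun a ha b hb h2 => hsinj a (mem_range.1 (mem_coe.1 ha)) b
      (mem_range.1 (mem_coe.1 hb)) h2]
    push_cast
    refine sum_le_sum fun l hl => ?_
    have hln : l < n := mem_range.1 hl
    obtain ⟨k, hk⟩ : ∃ k : ℕ, fllK n (T.biUnion fun x => pkf (B x) (Ps x)) (fun u => ρ (host u))
        (fun i u => (ikp (tlo G T hm) (σ i) u : ℤ)) (fun u => (ipc u : ℤ)) i D l = k := ⟨_, rfl⟩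
    have h3 : (k : ℤ) ≤ (fullT (tlo G T hm) (kpP (Ps (σ i)) D) (σ l)).card := by
      rw [← hk]
      unfold fllK
      rw [← card_image_of_injective (fullT (tlo G T hm) (kpP (Ps (σ i)) D) (σ l))
        (Sum.inl_injective (β := V × V))]
      refine Nat.cast_le.2 (card_le_card fun u hu => ?_)
      obtain ⟨h3, h4, h5, h6, h7⟩ := (@mem_filter _ _ (_) _ _).1 hu
      beta_reduce at h4 h6 h7
      have h8 : u ∈ pkf (B (σ i)) (Ps (σ i)) := by
        rw [← hfil]
        exact mem_filter.2 ⟨h3, h4⟩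
      rcases u with P | e
      · obtain ⟨h9, h10⟩ := inl_mem_pkf.1 h8
        refine mem_image_of_mem _ (mem_fullT.2 ⟨mem_kpP.2 ⟨h9, h5⟩, h10, fun v hv => ?_⟩)
        obtain ⟨l', hl', -, h11⟩ := hidx v (hpk.toPk.sub P h9 hv)
        by_contra h12
        have h13 : l' ≠ l := fun h14 => h12 (h14 ▸ h11)
        have h14 := h7 l' hl' h13
        exact ikp_of_tail h10 hv h11 (by exact_mod_cast h14)
      · simp [ipc] at h6
    rw [hk]
    rcases Nat.eq_zero_or_pos k with h4 | h4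
    · rw [h4]
      simp only [Nat.cast_zero, zero_mul]
      positivity
    · have h3' : k ≤ (fullT (tlo G T hm) (kpP (Ps (σ i)) D) (σ l)).card := by exact_mod_cast h3
      have h5 : 1 ≤ (fullT (tlo G T hm) (kpP (Ps (σ i)) D) (σ l)).card := by omega
      rw [Nat.cast_sub h5, Nat.cast_one]
      have h6 : (1 : ℤ) ≤ k := by exact_mod_cast h4
      nlinarith
  have h2 := hpk.toPk.card_kp hDp
  have h3 : ((keepH (kpB (B (σ i)) D) (kpP (Ps (σ i)) D)).card : ℤ)
      = hI G Z T hm Z (σ i) - ∑ u ∈ D, ((ivl u : ℤ) + 1 - (ipc u : ℤ)) := h2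
  have h4 : ∑ u ∈ pkf (B (σ i)) (Ps (σ i)) \ D, (ivl u : ℤ)
      = ∑ u ∈ pkf (B (σ i)) (Ps (σ i)), (ivl u : ℤ) - ∑ u ∈ D, (ivl u : ℤ) := by
    rw [← sum_sdiff hDp]
    ring
  rw [h3, h4, e1] at h1
  unfold EnKD
  simp only [Nat.cast_zero, mul_zero, add_zero] at h1
  beta_reduce
  linarith

/-- **the energy over the row indices, the PC pairs of the tail `j` in joint form** -/
theorem WCoreK.enKD (h : WCoreK G Z T r m n p hm)
    (hB : ∀ x ∈ T, PkOpt G (cz G Z T hm x) (hz G Z T hm x) (tlo G T hm) φ (B x) (Ps x))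
    (hst : ∀ x ∈ T, ∀ u ∈ pkf (B x) (Ps x), host u = x)
    (rk : Rank T (tI G Z T hm r Z) ρ σ) {i j : ℕ} (hi : i < n) (hj : j < n) {X : Finset ℕ}
    {D : Finset (Itm V)}
    (hD : KonD n (T.biUnion fun x => pkf (B x) (Ps x)) (konI G Z T hm B) (fun u => ρ (host u))
      (fun i u => (ikp (tlo G T hm) (σ i) u : ℤ)) (fun u => (ipc u : ℤ)) i X D) :
    2 * eI G hm (Z \ D.biUnion imem) (σ i)
        + E G ((pcs (tlo G T hm) (kpB (B (σ i)) D) (σ j)).image Prod.fst)
      ≤ EnKD n (fun i => hI G Z T hm Z (σ i)) (fun i => ∑ u ∈ pkf (B (σ i)) (Ps (σ i)), (ivl u : ℤ))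
          (T.biUnion fun x => pkf (B x) (Ps x)) (fun u => ρ (host u)) (fun u => (ivl u : ℤ))
          (fun i u => (ikp (tlo G T hm) (σ i) u : ℤ)) (fun i j => pcn (tlo G T hm) B (σ i) (σ j))
          (fun i j => nxw G Z T hm B (σ i) (σ j)) (fun u => (ipc u : ℤ)) i {j} X D
        + 2 * ∑ e ∈ pcs (tlo G T hm) (kpB (B (σ i)) D) (σ j),
          (nd G (cz G Z T hm (σ i)) e.1 : ℤ) := by
  have hcard := h.toWHom.cardT
  refine enKI h hB hst rk hi (σ j) (fun l hl _ => ?_) hD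
  rw [mem_singleton]
  exact ⟨fun h1 => by rw [h1], fun h1 => rk.sinj (by rw [hcard]; exact hl)
    (by rw [hcard]; exact hj) h1⟩

/-- **the energy over the row indices**, no tail in joint form -/
theorem WCoreK.enKT (h : WCoreK G Z T r m n p hm)
    (hB : ∀ x ∈ T, PkOpt G (cz G Z T hm x) (hz G Z T hm x) (tlo G T hm) φ (B x) (Ps x))
    (hst : ∀ x ∈ T, ∀ u ∈ pkf (B x) (Ps x), host u = x)
    (rk : Rank T (tI G Z T hm r Z) ρ σ) {i : ℕ} (hi : i < n) {X : Finset ℕ} {D : Finset (Itm V)}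
    (hD : KonD n (T.biUnion fun x => pkf (B x) (Ps x)) (konI G Z T hm B) (fun u => ρ (host u))
      (fun i u => (ikp (tlo G T hm) (σ i) u : ℤ)) (fun u => (ipc u : ℤ)) i X D) :
    2 * eI G hm (Z \ D.biUnion imem) (σ i)
      ≤ EnKD n (fun i => hI G Z T hm Z (σ i)) (fun i => ∑ u ∈ pkf (B (σ i)) (Ps (σ i)), (ivl u : ℤ))
          (T.biUnion fun x => pkf (B x) (Ps x)) (fun u => ρ (host u)) (fun u => (ivl u : ℤ))
          (fun i u => (ikp (tlo G T hm) (σ i) u : ℤ)) (fun i j => pcn (tlo G T hm) B (σ i) (σ j))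
          (fun i j => nxw G Z T hm B (σ i) (σ j)) (fun u => (ipc u : ℤ)) i ∅ X D := by
  have hcard := h.toWHom.cardT
  have hmem : ∀ i < n, σ i ∈ T := fun i hi => rk.mem i (by rw [hcard]; exact hi)
  have h1 := enKI h hB hst rk hi (σ i) (J := ∅) (fun l hl hli => by
    refine ⟨fun h1 => absurd h1 (notMem_empty _), fun h1 => absurd ?_ hli⟩
    exact rk.sinj (by rw [hcard]; exact hl) (by rw [hcard]; exact hi) h1) hD
  have h2 : pcs (tlo G T hm) (kpB (B (σ i)) D) (σ i) = ∅ := by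
    rw [eq_empty_iff_forall_notMem]
    intro e he
    obtain ⟨h3, h4⟩ := mem_pcs.1 he
    have h5 := h.toWHom.ht _ (hmem i hi) e.1 ((hB _ (hmem i hi)).bH e (kpB_sub h3))
    exact (mem_erase.1 h5).1 h4
  have h3 : (0 : ℤ) ≤ (E G ((pcs (tlo G T hm) (kpB (B (σ i)) D) (σ i)).image Prod.fst) : ℤ) :=
    Int.natCast_nonneg _
  rw [h2, sum_empty, mul_zero, add_zero] at h1
  rw [h2] at h3
  linarith

/-- **the transport to `TsK`** -/
theorem WItC.tsk (hp : 2 * r ≤ p) (h : WCoreK G Z T r m n p hm)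
    (H : WItC G Z T hm r n φ B Ps host ρ σ) :
    TsK ((r : ℤ) - 1) n (fun i => tI G Z T hm r Z (σ i)) (fun i => sI hm r Z (σ i))
      (fun i => hI G Z T hm Z (σ i)) (T.biUnion fun x => pkf (B x) (Ps x))
      (fun u => ρ (host u)) (fun u => (ivl u : ℤ))
      (fun i u => (ikp (tlo G T hm) (σ i) u : ℤ))
      (fun i u => (ims G (cz G Z T hm) (tlo G T hm) (σ i) u : ℤ))
      (fun i u => (imn G (cz G Z T hm) (tlo G T hm) (σ i) u : ℤ))
      (fun i => ∑ u ∈ pkf (B (σ i)) (Ps (σ i)), (ivl u : ℤ))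
      (fun i j => pcn (tlo G T hm) B (σ i) (σ j)) (fun u => (ipc u : ℤ))
      (fun u => (iar G (cz G Z T hm (host u)) u : ℤ))
      (fun i j => nxw G Z T hm B (σ i) (σ j)) (konI G Z T hm B) := by
  have hcard := h.toWHom.cardT
  have hmem : ∀ i < n, σ i ∈ T := fun i hi => H.rk.mem i (by rw [hcard]; exact hi)
  have hfil : ∀ i < n, (T.biUnion fun x => pkf (B x) (Ps x)).filter (fun u => ρ (host u) = i)
      = pkf (B (σ i)) (Ps (σ i)) := fun i hi => fil_host H.hst H.rk (by rw [hcard]; exact hi)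
  have hDp : ∀ i < n, ∀ X : Finset ℕ, ∀ D : Finset (Itm V),
      KonD n (T.biUnion fun x => pkf (B x) (Ps x)) (konI G Z T hm B) (fun u => ρ (host u))
      (fun i u => (ikp (tlo G T hm) (σ i) u : ℤ)) (fun u => (ipc u : ℤ)) i X D →
      D ⊆ pkf (B (σ i)) (Ps (σ i)) := by
    intro i hi X D hD
    rw [← hfil i hi]
    exact hD.2.1
  refine ⟨konI_sub, fun u hu => by exact_mod_cast konI_pc u hu, ?_, ?_, ?_⟩
  · -- kqa
    intro u hu hpc hQ l hl hkp
    obtain ⟨x, hx, hux⟩ := mem_biUnion.1 hu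
    have hxu := H.hst x hx u hux
    rcases u with P | e
    · simp [ipc] at hpc
    have he := inr_mem_pkf.1 hux
    have hxi : σ (ρ x) = x := H.rk.left x hx
    have hte : tlo G T hm e.1 = σ l := by
      by_contra h1
      exact hkp (by simp only [ikp, h1, if_false, Nat.cast_zero])
    rw [hxu]
    have hxT := (hmem l hl)
    have hlx : σ l ≠ x := by
      have h5 := h.toWHom.ht _ hx e.1 ((H.pk x hx).bH e he)
      rw [hte] at h5
      exact (mem_erase.1 h5).1
    have h1 : e.1 ∈ hz G Z T hm x \ konW G (cz G Z T hm x) (tlo G T hm) (B x) x := by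
      refine konB_mem (H.pk x hx).toPk (mem_konB.2 ⟨he, fun h2 => ?_⟩)
      exact absurd (mem_biUnion.2 ⟨x, hx, mem_image_of_mem _ h2⟩) hQ
    have h2 := (H.pk x hx).nd_kon h1 (by rw [hte]; exact hlx)
    rw [hte] at h2
    have h3 : (iar G (cz G Z T hm x) (Sum.inr e : Itm V) : ℤ) = (nd G (cz G Z T hm x) e.1 : ℤ) := by
      exact_mod_cast iar_inr (G := G) (C := cz G Z T hm x) (e := e)
    rw [h3]
    refine le_trans (Nat.cast_le.2 h2) (le_of_eq ?_)
    have h4 : (konI G Z T hm B).filter (fun w => ρ (host w) = ρ x)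
        = (konQ G (cz G Z T hm x) (tlo G T hm) (B x)).image Sum.inr := by
      ext w
      rw [mem_filter]
      constructor
      · rintro ⟨h5, h6⟩
        obtain ⟨y, hy, h7⟩ := mem_biUnion.1 h5
        obtain ⟨f, hf, rfl⟩ := mem_image.1 h7
        rw [H.hst y hy _ (inr_mem_pkf.2 (konQ_sub hf))] at h6
        have h8 : y = x := by rw [← H.rk.left y hy, h6, hxi]
        subst h8
        exact mem_image_of_mem _ hf
      · intro h5
        obtain ⟨f, hf, rfl⟩ := mem_image.1 h5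
        refine ⟨mem_biUnion.2 ⟨x, hx, mem_image_of_mem _ hf⟩, ?_⟩
        rw [H.hst x hx _ (inr_mem_pkf.2 (konQ_sub hf))]
    have h5 : ∑ w ∈ (konQ G (cz G Z T hm x) (tlo G T hm) (B x)).image Sum.inr,
          (ikp (tlo G T hm) (σ l) w : ℤ)
        = ((pcs (tlo G T hm) (konQ G (cz G Z T hm x) (tlo G T hm) (B x)) (σ l)).card : ℤ) := by
      rw [sum_image fun a _ b _ h6 => Sum.inr_injective h6]
      unfold pcs
      rw [card_filter]
      push_cast
      refine sum_congr rfl fun f _ => ?_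
      simp only [ikp]
      split_ifs <;> rfl
    have h6 : pcs (tlo G T hm) (B x \ konQ G (cz G Z T hm x) (tlo G T hm) (B x)) (σ l)
        = pcs (tlo G T hm) (B x) (σ l)
          \ pcs (tlo G T hm) (konQ G (cz G Z T hm x) (tlo G T hm) (B x)) (σ l) := by
      ext f
      simp only [mem_pcs, mem_sdiff]
      tauto
    have h7 : pcs (tlo G T hm) (konQ G (cz G Z T hm x) (tlo G T hm) (B x)) (σ l)
        ⊆ pcs (tlo G T hm) (B x) (σ l) := fun f hf =>
      mem_pcs.2 ⟨konQ_sub (mem_pcs.1 hf).1, (mem_pcs.1 hf).2⟩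
    rw [h4, h5, h6, hxi]
    have h8 := card_sdiff_add_card_eq_card h7
    unfold pcn
    push_cast [← h8]
    ring
  · -- rgk
    intro i hi j hj hij X D hD
    exact h.rowgD1 hp (fun x hx => (H.pk x hx).toPk) (fun x hx => (H.pk x hx).min) H.hst H.rk hi hj
      hij (hDp i hi X D hD) (h.enKD H.pk H.hst H.rk hi hj hD)
  · -- rtk
    intro i hi X D hD
    exact h.rowtD1 (fun x hx => (H.pk x hx).toPk) (fun x hx => (H.pk x hx).min) H.hst H.rk hi
      (hDp i hi X D hD) (h.enKT H.pk H.hst H.rk hi hD)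

end EnKI

end Pool.Agent.Lib.MP_f04ccf_co
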