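import Pool.Agent.Lib.MP_f04ccf_co.M.TzLv
import Pool.Agent.Lib.MP_f04ccf_co.M.EnKon

/-!
MP_f04ccf_co, TEXT D (question of helper82, note 18028): **LEMMA N (`tzN`) ON THE SUB-SLOTS**.

* `Pk.restr`: the parts restricted to fewer members; `PkOpt.min_kon`: the least number of parts does not
  change if any free PC pairs leave, and drops by one for every part which leaves;
* `WCoreK.tzlXS`: LEMMA N for the slot without any set of members, any packing with the fewest PC pairs of it;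
* `WCoreK.tzKoD`: at levels, with the items `D` of the home dropped (free PC pairs and any parts);
* `WCoreK.tzKoN`: over the row indices.
-/

set_option autoImplicit false

namespace Pool.Agent.Lib.MP_f04ccf_co

open Finset

attribute [local instance] Classical.propDecidable

section Restr

variable {ι V : Type*} {G : SimpleGraph V} {C H : Finset V} {tl : V → ι}
  {B : Finset (V × V)} {Ps : Finset (Finset V)} {φ : Finset (V × V) → Finset (Finset V) → ℕ}

/-- **a packing restricted to fewer members** -/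
lemma Pk.restr (h : Pk G C H tl B Ps) {H' : Finset V} (hH : H' ⊆ H) :
    ∃ B' Ps', Pk G C H' tl B' Ps' ∧ Ps'.card ≤ Ps.card := by
  refine ⟨B.filter fun e => e.1 ∈ H', (Ps.image fun P => P ∩ H').erase ∅, ?_,
    (card_erase_le).trans card_image_le⟩
  have hm : ∀ P ∈ (Ps.image fun P => P ∩ H').erase ∅, P.Nonempty ∧ ∃ Q ∈ Ps, Q ∩ H' = P := by
    intro P hP
    obtain ⟨h1, h2⟩ := mem_erase.1 hP
    obtain ⟨Q, hQ, h3⟩ := mem_image.1 h2
    exact ⟨nonempty_iff_ne_empty.2 h1, Q, hQ, h3⟩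
  exact {
    bH := fun e he => (mem_filter.1 he).2
    bC := fun e he => h.bC e (mem_filter.1 he).1
    bN := fun e he => h.bN e (mem_filter.1 he).1
    b1 := fun e he f hf => h.b1 e (mem_filter.1 he).1 f (mem_filter.1 hf).1
    b2 := fun e he f hf => h.b2 e (mem_filter.1 he).1 f (mem_filter.1 hf).1
    ne := fun P hP => (hm P hP).1
    sub := fun P hP => by
      obtain ⟨-, Q, hQ, rfl⟩ := hm P hP
      exact inter_subset_right
    ind := fun P hP => by
      obtain ⟨-, Q, hQ, rfl⟩ := hm P hP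
      exact fun v hv w hw => h.ind Q hQ v (mem_inter.1 hv).1 w (mem_inter.1 hw).1
    dis := fun P hP P' hP' hne => by
      obtain ⟨-, Q, hQ, rfl⟩ := hm P hP
      obtain ⟨-, Q', hQ', rfl⟩ := hm P' hP'
      exact (h.dis Q hQ Q' hQ' fun h1 => hne (by rw [h1])).mono inter_subset_left
        inter_subset_left
    dw := fun e he P hP => by
      obtain ⟨-, Q, hQ, rfl⟩ := hm P hP
      exact fun h1 => h.dw e (mem_filter.1 he).1 Q hQ (mem_inter.1 h1).1
    cov := fun v hv => by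
      rcases h.cov v (hH hv) with ⟨e, he, rfl⟩ | ⟨P, hP, hvP⟩
      · exact Or.inl ⟨e, mem_filter.2 ⟨he, hv⟩, rfl⟩
      · refine Or.inr ⟨P ∩ H', mem_erase.2 ⟨?_, mem_image_of_mem _ hP⟩, mem_inter.2 ⟨hvP, hv⟩⟩
        exact (nonempty_iff_ne_empty.1 ⟨v, mem_inter.2 ⟨hvP, hv⟩⟩) }

/-- **the least number of parts without some free PC pairs and some parts** -/
theorem PkOpt.min_kon (h : PkOpt G C H tl φ B Ps) {B1 : Finset (V × V)} {P1 : Finset (Finset V)}
    (hB : B \ konQ G C tl B ⊆ B1) (hP : P1 ⊆ Ps) :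
    ∀ B' P', Pk G C (B1.image Prod.fst ∪ P1.biUnion id) tl B' P' → P1.card ≤ P'.card := by
  intro B' P' hk
  obtain ⟨B2, P2, h1, h2⟩ := hk.restr (H' := (B \ konQ G C tl B).image Prod.fst ∪ P1.biUnion id)
    (union_subset_union (image_subset_image hB) subset_rfl)
  have h3 := (h.konX (fun _ => True) (Q := konQ G C tl B) (by
    ext e
    simp only [mem_filter, and_true])).1
  exact (h3.toPk.keep_min h3.min subset_rfl hP subset_rfl (fun e he => by
    rw [sdiff_self] at he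
    exact absurd he (notMem_empty e)) B2 P2 h1).trans h2

end Restr

section Sub

variable {V : Type*} {G : SimpleGraph V} {Z T : Finset V} {hm : V → V} {r m n p : ℕ}
  {φ : Finset (V × V) → Finset (Finset V) → ℕ}

/-- **LEMMA N on a sub-slot**: the slot of `z` without the members `X0`, any choice of the other points -/
theorem WCoreK.tzlXS (hp : 2 * r ≤ p) (h : WCoreK G Z T r m n p hm)
    {Uf : V → Finset (Itm V)}
    (hfam : ∀ x ∈ T, Fam (co G) (cz G Z T hm) (hz G Z T hm) (tlo G T hm) x (Uf x))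
    {z : V} (hzT : z ∈ T) {X0 : Finset V} (hX0 : X0 ⊆ hz G Z T hm z)
    {B1 : Finset (V × V)} {P1 : Finset (Finset V)}
    (hpk : PkPP G (cz G Z T hm z) (hz G Z T hm z \ X0) (tlo G T hm) φ B1 P1)
    {K : Finset (Itm V)}
    (hK : K ⊆ (T.erase z).biUnion Uf)
    {X : Finset V → Finset V} (hX : ∀ Q, X Q ⊆ oth (tlo G T hm) z Q)
    (hX1 : ∀ Q, (X Q).card ≤ 1)
    (h0 : 0 ≤ sI hm r Z z - X0.card + ∑ u ∈ K, (ikp (tlo G T hm) z u : ℤ)) :
    ((r : ℤ) - 1) * (sI hm r Z z - X0.card + ∑ u ∈ K, (ikp (tlo G T hm) z u : ℤ))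
      ≤ (∑ u ∈ pkf B1 P1, (ivl u : ℤ) + ∑ u ∈ K, (ikp (tlo G T hm) z u : ℤ))
          * (tI G Z T hm r Z z
            + 2 * (sI hm r Z z - X0.card + ∑ u ∈ K, (ikp (tlo G T hm) z u : ℤ)) + 1)
        + ∑ u ∈ K, ((rcl G (cz G Z T hm) (tlo G T hm) X z u).card : ℤ) := by
  have hF := h.F.toPFrame
  have hXs : X0 ⊆ Z.filter fun v => hm v = z := fun v hv => (mem_HP.1 (hX0 hv)).1
  have hzX : z ∉ X0 := fun h1 => (mem_HP.1 (hX0 h1)).2 (hF.self_mem_Cl hzT)
  obtain ⟨S, hS⟩ : ∃ S : V → Finset V, S = fun x => (Z \ X0).filter fun v => hm v = x := ⟨_, rfl⟩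
  have hCP : CP G Z T S = cz G Z T hm := by
    funext x
    rw [hS, CP_sub']
    refine Finset.sdiff_eq_self_of_disjoint (disjoint_left.2 fun v hv hv' => ?_)
    have h1 := (mem_HP.1 (hX0 hv'))
    have h2 := mem_CP.1 hv
    have h3 : x = z := (mem_filter.1 h2.1).2.symm.trans (mem_filter.1 h1.1).2
    subst h3
    exact h1.2 h2.2
  have hHP : HP G Z T S z = hz G Z T hm z \ X0 := by
    rw [hS, HP_sub']
  have hCs : CSys G Z T hm T S := by
    rw [hS]
    exact h.toWHom.csysD X0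
  have hWs : WSysT G (co G) T (CP G Z T S) (HP G Z T S) (tlo G T hm) := by
    rw [hS]
    exact h.toWHom.wsysD hXs hzX
  obtain ⟨Us, hUs⟩ : ∃ Us : V → Finset (Itm V), Us = fun x => if x = z then ∅ else Uf x := ⟨_, rfl⟩
  have hfamS : ∀ x ∈ T, Fam (co G) (CP G Z T S) (HP G Z T S) (tlo G T hm) x (Us x) := by
    intro x hx
    by_cases hxz : x = z
    · have h1 : Us x = ∅ := by rw [hUs]; simp [hxz]
      rw [h1]
      exact ⟨fun _ h => absurd h (notMem_empty _), fun _ h => absurd h (notMem_empty _),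
        fun _ h => absurd h (notMem_empty _), fun _ h => absurd h (notMem_empty _),
        fun _ h => absurd h (notMem_empty _), fun _ h => absurd h (notMem_empty _),
        fun _ h => absurd h (notMem_empty _), fun _ h => absurd h (notMem_empty _)⟩
    · have h1 : Us x = Uf x := by rw [hUs]; simp [hxz]
      rw [h1]
      have h2 := hfam x hx
      have h3 : HP G Z T S x = hz G Z T hm x := by
        rw [hS]
        exact HP_sub_ne hXs hxz
      refine ⟨?_, h2.two, h2.clq, ?_, ?_, h2.pcF, h2.dis, h2.cop⟩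
      · rw [h3]
        exact h2.sub
      · rw [h3]
        exact h2.pcH
      · rw [hCP]
        exact h2.pcC
  have hKs : K ⊆ (T.erase z).biUnion Us := by
    intro u hu
    obtain ⟨x, hx, hux⟩ := mem_biUnion.1 (hK hu)
    refine mem_biUnion.2 ⟨x, hx, ?_⟩
    rw [hUs]
    simp only [ne_of_mem_erase hx, if_false]
    exact hux
  have hsz : ((S z).card : ℤ) - r = sI hm r Z z - X0.card := by
    have h1 := slot_sub hXs
    have h2 : (((Z.filter fun v => hm v = z).card : ℤ) - r) = sI hm r Z z := rfl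
    rw [hS]
    beta_reduce
    rw [h1, ← h2]
    ring
  set C := cz G Z T hm with hCdef
  set tl := tlo G T hm with htl
  have hcard : ((C z).card : ℤ) = (r : ℤ) - 1 - tI G Z T hm r Z z := card_CP_eq Z z
  have ht0 : 0 ≤ tI G Z T hm r Z z := by
    have h1 := h.hom (C z) (fun c hc => (mem_filter.1 (mem_CP.1 hc).1).1)
      (h.csys.CP_clq hF hzT)
    have := h.hr
    have h2 : ((C z).card : ℤ) ≤ (r : ℤ) - 1 := by omega
    linarith
  have hmu0 : 0 ≤ ∑ u ∈ pkf B1 P1, (ivl u : ℤ) := sum_nonneg fun _ _ => Nat.cast_nonneg _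
  have hrm0 : 0 ≤ ∑ u ∈ K, ((rcl G C tl X z u).card : ℤ) := sum_nonneg fun _ _ => Nat.cast_nonneg _
  have hk0 : 0 ≤ ∑ u ∈ K, (ikp tl z u : ℤ) := sum_nonneg fun _ _ => Nat.cast_nonneg _
  set K' := K.filter fun u => ikp tl z u ≠ 0 with hK'
  have e1 : ∑ u ∈ K, ((rcl G C tl X z u).card : ℤ) = ∑ u ∈ K', ((rcl G C tl X z u).card : ℤ) := by
    rw [hK', sum_filter]
    refine sum_congr rfl fun u hu => ?_
    by_cases h1 : ikp tl z u = 0
    · have h2 := rcl_card_le (G := G) (C := C) (tl := tl) (X := X)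
        (z := z) (u := u)
      rw [h1, Nat.zero_mul] at h2
      have h3 : (rcl G C tl X z u).card = 0 := Nat.le_zero.1 h2
      rw [h3, h1]
      simp
    · simp only [ne_eq, h1, not_false_iff, if_true]
  have e2 : ∑ u ∈ K, (ikp tl z u : ℤ) = ∑ u ∈ K', (ikp tl z u : ℤ) := by
    rw [hK', sum_filter]
    refine sum_congr rfl fun u _ => ?_
    by_cases h1 : ikp tl z u = 0
    · rw [h1]
      simp
    · simp only [ne_eq, h1, not_false_iff, if_true]
  have hK'K : K' ⊆ (T.erase z).biUnion Us := (filter_subset _ _).trans hKs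
  have hk' : ∀ u ∈ K', ikp tl z u ≠ 0 := fun u hu => (mem_filter.1 hu).2
  rw [e1] at hrm0 ⊢
  rw [e2] at h0 hk0 ⊢
  obtain ⟨s, hs⟩ : ∃ s : ℤ, s = sI hm r Z z - X0.card := ⟨_, rfl⟩
  rw [← hs] at h0 hsz ⊢
  -- the test without extra points
  have h5 : 2 * eI G hm (Z \ X0) z = (NE G (S z) : ℤ) := by
    rw [hS]
    exact two_eI (G := G) (hm := hm) (Z \ X0) z
  have e3 : ∑ u ∈ K', (((C z).card : ℤ) * ikp tl z u
      - (rcl G C tl X z u).card)
      = ((r : ℤ) - 1 - tI G Z T hm r Z z) * ∑ u ∈ K', (ikp tl z u : ℤ)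
        - ∑ u ∈ K', ((rcl G C tl X z u).card : ℤ) := by
    rw [sum_sub_distrib, ← mul_sum, hcard]
  have hh0 : 0 ≤ ((S z).card : ℤ) - r + 1 + ∑ u ∈ K', (ikp tl z u : ℤ) := by
    rw [hsz]
    linarith
  have h1 := Fam.row_one h.gp.P hCs hWs hfamS hzT hK'K hk' (X := X) hX hX1 hh0
  rw [hCP, hsz, ← h5] at h1
  -- the energy
  have hYt : ∀ v ∈ hz G Z T hm z \ X0, tl v ∈ T.erase z := fun v hv =>
    h.toWHom.ht z hzT v (mem_sdiff.1 hv).1
  have h32 : ∀ v ∈ hz G Z T hm z \ X0, ∀ w ∈ hz G Z T hm z \ X0, ∀ a ∈ C z, v ≠ w →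
      tl v = tl w → ¬ G.Adj v a → ¬ G.Adj w a → G.Adj v w := fun v hv w hw =>
    h.csys.h32 hF h.hh h.toWHom.ht hzT v (mem_sdiff.1 hv).1 w (mem_sdiff.1 hw).1
  have en := PkPP.energyK hF h.hh (A := T) (S := Z \ X0) (hS ▸ hCs) (fun x hx v hv => by
      refine h.toWHom.ht x hx v ?_
      rw [HP_sub'] at hv
      exact (mem_sdiff.1 hv).1) hzT (φ := φ) (Q := B1) (Ps := P1) (by
      rw [← hS, hCP, hHP]
      exact hpk)
  rw [← hS, hCP, hHP] at en
  have hex := hpk.toPk.excess hYt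
  have hcn := hpk.toPk.sum_card_ntl hpk.min h32 hYt
  have hiv := hpk.toPk.sum_ivl
  have hmu : ∑ j ∈ T.erase z, ((ntl G (C z) (hz G Z T hm z \ X0) tl B1 j).card : ℤ)
      ≤ ∑ u ∈ pkf B1 P1, (ivl u : ℤ) := by
    have h2 : ∑ j ∈ T.erase z, (ntl G (C z) (hz G Z T hm z \ X0) tl B1 j).card
        ≤ ∑ u ∈ pkf B1 P1, ivl u := by omega
    exact_mod_cast h2
  have hh : hI G Z T hm (Z \ X0) z = tI G Z T hm r Z z + s + 1 := by
    have h2 := hI_eq (G := G) (Z := Z) (T := T) (hm := hm) (r := r) (Z \ X0) z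
    have h3 : tI G Z T hm r (Z \ X0) z = tI G Z T hm r Z z := by
      unfold tI
      rw [← hS, hCP]
    have h4 : sI hm r (Z \ X0) z = s := by
      rw [← hsz, hS]
      rfl
    rw [h2, h3, h4]
  set H := hz G Z T hm z \ X0 with hHdef
  by_contra hcon
  push Not at hcon
  by_cases hm1 : 1 ≤ s + 2 * ∑ u ∈ K', (ikp tl z u : ℤ)
  swap
  · have h2 : ∑ u ∈ K', (ikp tl z u : ℤ) = 0 := by omega
    have h3 : s = 0 := by omega
    rw [h2, h3] at hcon
    simp only [add_zero, mul_zero] at hcon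
    have h4 := mul_nonneg hmu0 (by linarith : 0 ≤ tI G Z T hm r Z z + 1)
    linarith
  obtain ⟨Δ, hΔ⟩ : ∃ Δ : ℤ, Δ = 2 * ((r : ℤ) - 1) * s
      + 2 * (((r : ℤ) - 1 - tI G Z T hm r Z z) * ∑ u ∈ K', (ikp tl z u : ℤ)
        - ∑ u ∈ K', ((rcl G C tl X z u).card : ℤ))
      - (2 * eI G hm (Z \ X0) z + 4 * (∑ u ∈ K', (ikp tl z u : ℤ)) * (s + 1)
        + 2 * (∑ u ∈ K', (ikp tl z u : ℤ)) * (2 * (∑ u ∈ K', (ikp tl z u : ℤ)) - 1)) :=
    ⟨_, rfl⟩
  have hΔ0 : Δ ≤ 0 := by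
    rw [e3] at h1
    linarith
  refine tail_final (T.erase z) (fun j => ((btl tl B1 j).card : ℤ))
    (fun j => ((ntl G (C z) H tl B1 j).card : ℤ))
    (fun j => (kpl G (C z) H tl B1 j : ℤ)) (Δ := Δ - 1)
    (fun j _ => Nat.cast_nonneg _) (fun j _ => ?_) hm1 hmu ?_ (by linarith) ?_
  · show ((btl tl B1 j).card : ℤ) ≤ ((ntl G (C z) H tl B1 j).card : ℤ)
    have h2 := hpk.toPk.card_ntl j
    have h3 : (btl tl B1 j).card ≤ (ntl G (C z) H tl B1 j).card := by omega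
    exact_mod_cast h3
  · show _ ≤ Δ - 1 + ∑ j ∈ T.erase z, ((btl tl B1 j).card : ℤ) * ((btl tl B1 j).card + 1)
      + 2 * ∑ j ∈ T.erase z, ((ntl G (C z) H tl B1 j).card : ℤ)
        * kpl G (C z) H tl B1 j
    rw [hh] at en
    have en' : 2 * eI G hm (Z \ X0) z + (∑ u ∈ pkf B1 P1, (ivl u : ℤ))
        * (∑ u ∈ pkf B1 P1, (ivl u : ℤ) + 1)
      ≤ 2 * ((∑ u ∈ pkf B1 P1, (ivl u : ℤ))
          * (tI G Z T hm r Z z + s + 1))
        + nbk G (C z) H tl B1 P1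
        + 2 * ∑ j ∈ T.erase z, nxk G (C z) H tl B1 j := en
    generalize ∑ j ∈ T.erase z, ((btl tl B1 j).card : ℤ) * ((btl tl B1 j).card + 1) = a1 at *
    generalize ∑ j ∈ T.erase z, ((ntl G (C z) H tl B1 j).card : ℤ)
        * kpl G (C z) H tl B1 j = a2 at *
    generalize ∑ j ∈ T.erase z, nxk G (C z) H tl B1 j = a3 at *
    generalize nbk G (C z) H tl B1 P1 = a4 at *
    generalize ∑ u ∈ pkf B1 P1, (ivl u : ℤ) = μ at *
    generalize ∑ u ∈ K', (ikp tl z u : ℤ) = k at *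
    generalize ∑ u ∈ K', ((rcl G C tl X z u).card : ℤ) = ρ at *
    generalize tI G Z T hm r Z z = τ at *
    generalize eI G hm (Z \ X0) z = e at *
    rw [hΔ]
    nlinarith
  · intro j hj hG1 hκ
    have hG1' : (1 : ℤ) ≤ ((ntl G (C z) H tl B1 j).card : ℤ) := hG1
    have hne : (ntl G (C z) H tl B1 j).Nonempty := by
      rw [← card_pos]
      have : (0 : ℤ) < ((ntl G (C z) H tl B1 j).card : ℤ) := by linarith
      exact_mod_cast this
    obtain ⟨v, hv, hvκ⟩ := exists_mem_eq_sup _ hne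
      fun v => (frC G (C z) tl B1 v).card
    have hvκ' : kpl G (C z) H tl B1 j = (frC G (C z) tl B1 v).card := hvκ
    obtain ⟨hvH, hvj⟩ := hpk.toPk.ntl_sub hv
    have hfr := h.frC_le hp (B := B1) hzT (mem_sdiff.1 hvH).1
    have hfr' : (frC G (C z) tl B1 v).card ≤ (msd G (C j) v).card := by
      rw [← hvj]
      exact hfr
    set W : Finset V := K'.biUnion (rpts tl X z) with hW
    set Y : Finset V := msd G (C j) v \ W with hY
    have hYC : Y ⊆ C j := fun y hy => (mem_filter.1 (mem_sdiff.1 hy).1).1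
    have hYW : Disjoint W Y := disjoint_sdiff
    have hgk := Fam.card_cls hWs hfamS (z := z) (mem_of_mem_erase hj) hK'K hk'
      (X := X) hX
    rw [hCP] at hgk
    have hq : ∀ y ∈ Y, ((btl tl B1 j).card : ℤ) + (frC G (C z) tl B1 v).card
        ≤ (dg G (S z) y : ℤ) := by
      intro y hy
      have h7 : ¬ G.Adj v y := (mem_filter.1 (mem_sdiff.1 hy).1).2.2
      have h8 := Pk.slot_hits hWs hzT (B := B1) (Ps := P1) (by
        rw [hCP, hHP]
        exact hpk.toPk) (v := v) (y := y) (by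
        rw [hHP]
        exact hvH) (by
        rw [hCP]
        show y ∈ C (tl v)
        rw [hvj]
        exact hYC hy) h7
      have h9 : (btl tl B1 j).card + (frC G (C z) tl B1 v).card
          ≤ dg G (S z) y := by
        rw [hCP] at h8
        rw [← hvj]
        exact h8
      exact_mod_cast h9
    have h2 := Fam.row_x hF h.gp.P hCs hWs hfamS hzT hj hK'K hk'
      (X := X) hX hX1 (by
        rw [hCP]
        exact hYC) hYW hq hh0
    rw [hCP, hsz, ← h5] at h2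
    have hYc : (msd G (C j) v).card ≤ Y.card + (W ∩ C j).card := by
      have h3 : msd G (C j) v ⊆ Y ∪ (W ∩ C j) := by
        intro y hy
        by_cases hyW : y ∈ W
        · exact mem_union_right _ (mem_inter.2 ⟨hyW, (mem_filter.1 hy).1⟩)
        · exact mem_union_left _ (mem_sdiff.2 ⟨hy, hyW⟩)
      exact (card_le_card h3).trans (card_union_le _ _)
    have hκ' : s + 2 * ∑ u ∈ K', (ikp tl z u : ℤ)
        < ((frC G (C z) tl B1 v).card : ℤ) := by
      rw [← hvκ']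
      exact hκ
    refine ⟨((W ∩ C j).card : ℤ), Nat.cast_nonneg _, ?_, ?_⟩
    · have h3 : ((W ∩ C j).card : ℤ) ≤ ∑ u ∈ K', (ikp tl z u : ℤ) := by exact_mod_cast hgk
      linarith
    · show Δ - 1 + 2 * (((kpl G (C z) H tl B1 j : ℕ) - (W ∩ C j).card : ℤ)
        * ((kpl G (C z) H tl B1 j : ℕ) - 1
          - (s + 2 * ∑ u ∈ K', (ikp tl z u : ℤ))
          + (btl tl B1 j).card + (W ∩ C j).card)) < 0
      rw [hvκ']
      rw [e3] at h2
      have h2' : 2 * ((r : ℤ) - 1) * s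
        + 2 * (((r : ℤ) - 1 - tI G Z T hm r Z z) * ∑ u ∈ K', (ikp tl z u : ℤ)
          - ∑ u ∈ K', ((rcl G C tl X z u).card : ℤ))
        + 2 * (Y.card * (((btl tl B1 j).card : ℤ) + (frC G (C z) tl B1 v).card
          + ((W ∩ C j).card : ℤ) - (s + 1) - 2 * ∑ u ∈ K', (ikp tl z u : ℤ)))
        ≤ 2 * eI G hm (Z \ X0) z + 4 * (∑ u ∈ K', (ikp tl z u : ℤ)) * (s + 1)
          + 2 * (∑ u ∈ K', (ikp tl z u : ℤ)) * (2 * (∑ u ∈ K', (ikp tl z u : ℤ)) - 1) := h2
      have h7 : ((frC G (C z) tl B1 v).card : ℤ) - (W ∩ C j).card ≤ Y.card := by omega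
      have h8 : (0 : ℤ) ≤ (btl tl B1 j).card := Nat.cast_nonneg _
      have h9 : (0 : ℤ) ≤ (W ∩ C j).card := Nat.cast_nonneg _
      have h10 : (((frC G (C z) tl B1 v).card : ℤ) - (W ∩ C j).card)
          * (((btl tl B1 j).card : ℤ) + (frC G (C z) tl B1 v).card
          + ((W ∩ C j).card : ℤ) - (s + 1) - 2 * ∑ u ∈ K', (ikp tl z u : ℤ))
          ≤ Y.card * (((btl tl B1 j).card : ℤ) + (frC G (C z) tl B1 v).card
          + ((W ∩ C j).card : ℤ) - (s + 1) - 2 * ∑ u ∈ K', (ikp tl z u : ℤ)) :=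
        mul_le_mul_of_nonneg_right h7 (by linarith)
      generalize (((W ∩ C j).card : ℕ) : ℤ) = d at *
      generalize ((Y.card : ℕ) : ℤ) = y at *
      generalize (((btl tl B1 j).card : ℕ) : ℤ) = g at *
      generalize (((frC G (C z) tl B1 v).card : ℕ) : ℤ) = κ at *
      generalize ∑ u ∈ K', (ikp tl z u : ℤ) = k at *
      generalize ∑ u ∈ K', ((rcl G C tl X z u).card : ℤ) = ρ at *
      generalize tI G Z T hm r Z z = τ at *
      generalize eI G hm (Z \ X0) z = e at *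
      have e4 : (κ - d) * (κ - 1 - (s + 2 * k) + g + d)
          = (κ - d) * (g + κ + d - (s + 1) - 2 * k) := by ring
      rw [e4]
      linarith

/-- **LEMMA N AT LEVELS ON A SUB-SLOT**: the free PC pairs and the parts `D` of the home are dropped -/
theorem WCoreK.tzKoD (hp : 2 * r ≤ p) (h : WCoreK G Z T r m n p hm) {B : V → Finset (V × V)}
    {Ps : V → Finset (Finset V)}
    (hB : ∀ x ∈ T, Pk G (cz G Z T hm x) (hz G Z T hm x) (tlo G T hm) (B x) (Ps x))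
    {z : V} (hzT : z ∈ T)
    (hop : PkOpt G (cz G Z T hm z) (hz G Z T hm z) (tlo G T hm) φ (B z) (Ps z))
    {D : Finset (Itm V)} (hD : D ⊆ pkf (B z) (Ps z))
    (hDq : ∀ e, Sum.inr e ∈ D → e ∈ konQ G (cz G Z T hm z) (tlo G T hm) (B z))
    {K : Finset (Itm V)}
    (hK : K ⊆ (T.erase z).biUnion fun x => pkf (B x) (Ps x)) {g : Itm V → ℕ}
    (hg1 : ∀ u ∈ K, 1 ≤ g u) (hg2 : ∀ u ∈ K, g u ≤ ikp (tlo G T hm) z u)
    (h0 : 0 ≤ sI hm r Z z - ∑ u ∈ D, ((ivl u : ℤ) + 1 - (ipc u : ℤ)) + ∑ u ∈ K, (g u : ℤ)) :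
    ((r : ℤ) - 1) * (sI hm r Z z - ∑ u ∈ D, ((ivl u : ℤ) + 1 - (ipc u : ℤ)) + ∑ u ∈ K, (g u : ℤ))
      ≤ (∑ u ∈ pkf (B z) (Ps z), (ivl u : ℤ) - ∑ u ∈ D, (ivl u : ℤ) + ∑ u ∈ K, (g u : ℤ))
          * (tI G Z T hm r Z z + 2 * (sI hm r Z z - ∑ u ∈ D, ((ivl u : ℤ) + 1 - (ipc u : ℤ))
            + ∑ u ∈ K, (g u : ℤ)) + 1)
        + ∑ u ∈ K, (if (ikp (tlo G T hm) z u : ℤ) ≤ (g u : ℤ)
            then (imn G (cz G Z T hm) (tlo G T hm) z u : ℤ) else 0) := by
  obtain ⟨g', hg'⟩ : ∃ g' : Itm V → ℕ, g' = fun u => if u ∈ K then g u else ikp (tlo G T hm) z u :=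
    ⟨_, rfl⟩
  have hgK : ∀ u ∈ K, g' u = g u := fun u hu => by rw [hg']; simp only [hu, if_true]
  have hdr := hop.toPk.drop_sub hD
  have hho := hop.toPk.home_kp hD
  obtain ⟨B', Ps', hpk⟩ := exists_pkpp (G := G) (C := cz G Z T hm z)
    (H := hz G Z T hm z \ D.biUnion imem) (tl := tlo G T hm) fun _ _ => 0
  have hkeep := hop.toPk.keep (kpB_sub (B := B z) (D := D)) (kpP_sub (Ps := Ps z) (D := D))
  have hmin := hop.min_kon (B1 := kpB (B z) D) (P1 := kpP (Ps z) D) (fun e he => by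
      obtain ⟨h1, h2⟩ := mem_sdiff.1 he
      exact mem_kpB.2 ⟨h1, fun h3 => h2 (hDq e h3)⟩) kpP_sub
  rw [← hho] at hmin hkeep
  have hc : (kpP (Ps z) D).card = Ps'.card :=
    le_antisymm (hmin _ _ hpk.toPk) (hpk.min _ _ hkeep)
  have e1 : ∑ u ∈ pkf (B z) (Ps z), (ivl u : ℤ) - ∑ u ∈ D, (ivl u : ℤ)
      = ∑ u ∈ pkf B' Ps', (ivl u : ℤ) := by
    have h1 := hkeep.sum_ivl
    have h2 := hpk.toPk.sum_ivl
    have h3 : ∑ u ∈ pkf (kpB (B z) D) (kpP (Ps z) D), ivl u = ∑ u ∈ pkf B' Ps', ivl u := by omega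
    rw [pkf_kp] at h3
    have h4 : ∑ u ∈ pkf (B z) (Ps z), (ivl u : ℤ)
        = ∑ u ∈ pkf (B z) (Ps z) \ D, (ivl u : ℤ) + ∑ u ∈ D, (ivl u : ℤ) :=
      (sum_sdiff hD).symm
    have h5 : ∑ u ∈ pkf (B z) (Ps z) \ D, (ivl u : ℤ) = ∑ u ∈ pkf B' Ps', (ivl u : ℤ) := by
      exact_mod_cast h3
    linarith
  have e0 : (((D.biUnion imem).card : ℕ) : ℤ) = ∑ u ∈ D, ((ivl u : ℤ) + 1 - (ipc u : ℤ)) := by
    have h1 := hop.toPk.card_kp hD
    rw [← hho] at h1
    have h2 := card_sdiff_add_card_eq_card hdr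
    have h3 : (((hz G Z T hm z \ D.biUnion imem).card : ℕ) : ℤ) + ((D.biUnion imem).card : ℕ)
        = (hz G Z T hm z).card := by exact_mod_cast h2
    linarith
  have e2 : ∑ u ∈ K.image (cutI (tlo G T hm) z g'), (ikp (tlo G T hm) z u : ℤ)
      = ∑ u ∈ K, (g u : ℤ) := by
    rw [sum_cut h hB hK]
    refine sum_congr rfl fun u hu => ?_
    rw [cutI_ikp (by rw [hgK u hu]; exact hg1 u hu) (by rw [hgK u hu]; exact hg2 u hu), hgK u hu]
  have e3 : ∑ u ∈ K.image (cutI (tlo G T hm) z g'),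
      ((rcl G (cz G Z T hm) (tlo G T hm) (xmn G (cz G Z T hm) (tlo G T hm) z) z u).card : ℤ)
      = ∑ u ∈ K, (if (ikp (tlo G T hm) z u : ℤ) ≤ (g u : ℤ)
            then (imn G (cz G Z T hm) (tlo G T hm) z u : ℤ) else 0) := by
    rw [sum_cut h hB hK]
    refine sum_congr rfl fun u hu => ?_
    rw [cutI_rcl (by rw [hgK u hu]; exact hg2 u hu), hgK u hu]
  have h1 := h.tzlXS hp (φ := fun _ _ => 0)
    (Uf := fun x => (pkf (B x) (Ps x)).image (cutI (tlo G T hm) z g'))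
    (fun x hx => by
      rw [hg']
      exact fam_cut h hB hg1 hx) hzT hdr hpk (K := K.image (cutI (tlo G T hm) z g'))
    (fun u hu1 => by
      obtain ⟨v, hv, rfl⟩ := mem_image.1 hu1
      obtain ⟨x, hx, hvx⟩ := mem_biUnion.1 (hK hv)
      exact mem_biUnion.2 ⟨x, hx, mem_image_of_mem _ hvx⟩)
    (X := xmn G (cz G Z T hm) (tlo G T hm) z) (fun Q => xmn_sub) (fun Q => card_xmn_le)
    (by rw [e2, e0]; exact h0)
  rw [← e1, e2, e3, e0] at h1
  exact h1

end Sub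

section Idx

/-- **the field of the contract**: LEMMA N at levels, `q` free PC pairs (any tails) and the plain items `D` of the
row dropped (`kq z l` free PC pairs of host `z` and tail `l`) -/
def RowNQ {ι : Type*} (R : ℤ) (n : ℕ) (t s mu : ℕ → ℤ) (U : Finset ι) (ho : ι → ℕ) (vl : ι → ℤ)
    (kp mn : ℕ → ι → ℤ) (pc : ι → ℤ) (kq : ℕ → ℕ → ℤ) : Prop :=
  ∀ z < n, ∀ q : ℤ, 0 ≤ q → q ≤ ∑ l ∈ range n, kq z l →
    ∀ D ⊆ U, (∀ u ∈ D, ho u = z ∧ pc u = 0) →
    ∀ K ⊆ U, (∀ u ∈ K, ho u ≠ z) → ∀ g : ι → ℕ, (∀ u ∈ K, 1 ≤ g u) →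
    (∀ u ∈ K, (g u : ℤ) ≤ kp z u) →
    2 * (mu z - q - ∑ u ∈ D, vl u + ∑ u ∈ K, (g u : ℤ)) ≤ R →
    (R - 2 * (mu z - q - ∑ u ∈ D, vl u + ∑ u ∈ K, (g u : ℤ)))
        * (s z - q - ∑ u ∈ D, (vl u + 1) + ∑ u ∈ K, (g u : ℤ))
      ≤ (t z + 1) * (mu z - q - ∑ u ∈ D, vl u + ∑ u ∈ K, (g u : ℤ))
        + ∑ u ∈ K, (if kp z u ≤ (g u : ℤ) then mn z u else 0)

/-- LEMMA N in p-form -/
private lemma tzN_p' {R tz sz M k B : ℤ} (ht : 0 ≤ tz) (hM : 0 ≤ M + k) (hB : 0 ≤ B)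
    (h : 0 ≤ sz + k → R * (sz + k) ≤ (M + k) * (tz + 2 * (sz + k) + 1) + B)
    (h2 : 2 * (M + k) ≤ R) :
    (R - 2 * (M + k)) * (sz + k) ≤ (tz + 1) * (M + k) + B := by
  rcases le_or_gt 0 (sz + k) with h0 | h0
  · have := h h0
    nlinarith
  · have h3 : (R - 2 * (M + k)) * (sz + k) ≤ 0 :=
      mul_nonpos_of_nonneg_of_nonpos (by linarith) h0.le
    have h4 : 0 ≤ (tz + 1) * (M + k) := mul_nonneg (by linarith) hM
    linarith

variable {V : Type*} {G : SimpleGraph V} {Z T : Finset V} {hm : V → V} {r m n p : ℕ}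
  {φ : Finset (V × V) → Finset (Finset V) → ℕ} {B : V → Finset (V × V)}
  {Ps : V → Finset (Finset V)} {host : Itm V → V} {ρ : V → ℕ} {σ : ℕ → V}

/-- **LEMMA N after free PC pairs and plain items have left, for every world of version [C]** -/
theorem WItC.rowNQ (hp : 2 * r ≤ p) (h : WCoreK G Z T r m n p hm)
    (H : WItC G Z T hm r n φ B Ps host ρ σ) :
    RowNQ ((r : ℤ) - 1) n (fun i => tI G Z T hm r Z (σ i)) (fun i => sI hm r Z (σ i))
      (fun i => ∑ u ∈ pkf (B (σ i)) (Ps (σ i)), (ivl u : ℤ))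
      (T.biUnion fun x => pkf (B x) (Ps x)) (fun u => ρ (host u)) (fun u => (ivl u : ℤ))
      (fun i u => (ikp (tlo G T hm) (σ i) u : ℤ))
      (fun i u => (imn G (cz G Z T hm) (tlo G T hm) (σ i) u : ℤ)) (fun u => (ipc u : ℤ))
      (fun i l => ((pcs (tlo G T hm) (konQ G (cz G Z T hm (σ i)) (tlo G T hm) (B (σ i)))
        (σ l)).card : ℤ)) := by
  intro z hz q hq0 hq D hDU hDz K hKU hKz g hg1 hg2 h2
  have hcard := h.toWHom.cardT
  have hmem : ∀ i < n, σ i ∈ T := fun i hi => H.rk.mem i (by rw [hcard]; exact hi)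
  have hfil := fil_host H.hst H.rk (i := z) (by rw [hcard]; exact hz)
  have hzT := hmem z hz
  have hDp : D ⊆ pkf (B (σ z)) (Ps (σ z)) := fun u hu => by
    rw [← hfil]
    exact mem_filter.2 ⟨hDU hu, (hDz u hu).1⟩
  -- the free PC pairs which leave
  have hQc : ∑ l ∈ range n, ((pcs (tlo G T hm) (konQ G (cz G Z T hm (σ z)) (tlo G T hm)
      (B (σ z))) (σ l)).card : ℤ) ≤ (konQ G (cz G Z T hm (σ z)) (tlo G T hm) (B (σ z))).card := by
    have h3 : ((range n).biUnion fun l => pcs (tlo G T hm) (konQ G (cz G Z T hm (σ z))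
        (tlo G T hm) (B (σ z))) (σ l)).card
        = ∑ l ∈ range n, (pcs (tlo G T hm) (konQ G (cz G Z T hm (σ z)) (tlo G T hm)
          (B (σ z))) (σ l)).card := by
      refine card_biUnion fun a ha b hb hab => disjoint_left.2 fun e he he' => hab ?_
      have h4 := (mem_pcs.1 he).2
      have h5 := (mem_pcs.1 he').2
      exact H.rk.sinj (by rw [hcard]; exact mem_range.1 ha) (by rw [hcard]; exact mem_range.1 hb)
        (h4.symm.trans h5)
    have h4 : ((range n).biUnion fun l => pcs (tlo G T hm) (konQ G (cz G Z T hm (σ z))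
        (tlo G T hm) (B (σ z))) (σ l)) ⊆ konQ G (cz G Z T hm (σ z)) (tlo G T hm) (B (σ z)) := by
      intro e he
      obtain ⟨l, -, he'⟩ := mem_biUnion.1 he
      exact (mem_pcs.1 he').1
    have h5 := card_le_card h4
    rw [h3] at h5
    exact_mod_cast h5
  obtain ⟨Q, hQ1, hQ2⟩ := exists_subset_card_eq (s := konQ G (cz G Z T hm (σ z)) (tlo G T hm)
    (B (σ z))) (n := q.toNat) (by
      have := hq.trans hQc
      omega)
  have hQ3 : (Q.card : ℤ) = q := by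
    rw [hQ2]
    exact Int.toNat_of_nonneg hq0
  obtain ⟨Di, hDi⟩ : ∃ Di : Finset (Itm V), Di = Q.image Sum.inr := ⟨_, rfl⟩
  have hdis : Disjoint D Di := by
    rw [disjoint_left]
    intro u hu hu'
    rw [hDi] at hu'
    obtain ⟨e, he, rfl⟩ := mem_image.1 hu'
    have := (hDz _ hu).2
    simp [ipc] at this
  have hDip : Di ⊆ pkf (B (σ z)) (Ps (σ z)) := by
    intro u hu
    rw [hDi] at hu
    obtain ⟨e, he, rfl⟩ := mem_image.1 hu
    exact inr_mem_pkf.2 (konQ_sub (hQ1 he))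
  have e1 : ∀ f : Itm V → ℤ, ∑ u ∈ Di, f u = ∑ e ∈ Q, f (Sum.inr e) := fun f => by
    rw [hDi]
    exact sum_image fun a _ b _ hab => Sum.inr_injective hab
  have e2 : ∑ u ∈ D ∪ Di, ((ivl u : ℤ) + 1 - (ipc u : ℤ)) = q + ∑ u ∈ D, ((ivl u : ℤ) + 1) := by
    rw [sum_union hdis, e1]
    have h3 : ∑ e ∈ Q, (((ivl (Sum.inr e : Itm V) : ℕ) : ℤ) + 1
        - ((ipc (Sum.inr e : Itm V) : ℕ) : ℤ)) = q := by
      rw [← hQ3]
      simp [ivl, ipc]
    have h4 : ∑ u ∈ D, ((ivl u : ℤ) + 1 - (ipc u : ℤ)) = ∑ u ∈ D, ((ivl u : ℤ) + 1) := by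
      refine sum_congr rfl fun u hu => ?_
      have h5 : (ipc u : ℤ) = 0 := (hDz u hu).2
      rw [h5, sub_zero]
    rw [h3, h4]
    ring
  have e3 : ∑ u ∈ D ∪ Di, (ivl u : ℤ) = q + ∑ u ∈ D, (ivl u : ℤ) := by
    rw [sum_union hdis, e1]
    have h3 : ∑ e ∈ Q, ((ivl (Sum.inr e : Itm V) : ℕ) : ℤ) = q := by
      rw [← hQ3]
      simp [ivl]
    rw [h3]
    ring
  have hK' : K ⊆ (T.erase (σ z)).biUnion fun x => pkf (B x) (Ps x) := by
    intro u hu
    obtain ⟨x, hx, hux⟩ := mem_biUnion.1 (hKU hu)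
    refine mem_biUnion.2 ⟨x, mem_erase.2 ⟨fun h1 => hKz u hu ?_, hx⟩, hux⟩
    show ρ (host u) = z
    rw [H.hst x hx u hux, h1]
    exact H.rk.right z (by rw [hcard]; exact hz)
  have hg2' : ∀ u ∈ K, g u ≤ ikp (tlo G T hm) (σ z) u := fun u hu => by
    have h5 : (g u : ℤ) ≤ (ikp (tlo G T hm) (σ z) u : ℤ) := hg2 u hu
    exact_mod_cast h5
  have key := fun h0 => h.tzKoD hp (fun x hx => (H.pk x hx).toPk) hzT (H.pk _ hzT)
    (D := D ∪ Di) (union_subset hDp hDip) (fun e he => by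
      rcases mem_union.1 he with h1 | h1
      · have := (hDz _ h1).2
        simp [ipc] at this
      · rw [hDi] at h1
        obtain ⟨f, hf, h3⟩ := mem_image.1 h1
        exact Sum.inr_injective h3 ▸ hQ1 hf) hK' hg1 hg2' h0
  rw [e2, e3] at key
  have ht0 : 0 ≤ tI G Z T hm r Z (σ z) := by
    have h1 := h.hom (cz G Z T hm (σ z)) (fun c hc => (mem_filter.1 (mem_CP.1 hc).1).1)
      (h.csys.CP_clq h.F.toPFrame hzT)
    have := h.hr
    have h2 : ((cz G Z T hm (σ z)).card : ℤ) ≤ (r : ℤ) - 1 := by omega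
    have h3 : ((cz G Z T hm (σ z)).card : ℤ) = (r : ℤ) - 1 - tI G Z T hm r Z (σ z) :=
      card_CP_eq Z _
    linarith
  have hk0 : (0 : ℤ) ≤ ∑ u ∈ K, (g u : ℤ) := sum_nonneg fun u _ => Int.natCast_nonneg _
  have hm0 : 0 ≤ ∑ u ∈ pkf (B (σ z)) (Ps (σ z)), (ivl u : ℤ) - (q + ∑ u ∈ D, (ivl u : ℤ)) := by
    rw [← e3, ← sum_sdiff (union_subset hDp hDip), add_sub_cancel_right]
    exact sum_nonneg fun u _ => Int.natCast_nonneg _
  have hB0 : (0 : ℤ) ≤ ∑ u ∈ K, (if (ikp (tlo G T hm) (σ z) u : ℤ) ≤ (g u : ℤ)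
      then (imn G (cz G Z T hm) (tlo G T hm) (σ z) u : ℤ) else 0) := by
    refine sum_nonneg fun u _ => ?_
    split_ifs
    · exact Int.natCast_nonneg _
    · exact le_rfl
  have h3 := tzN_p' (R := (r : ℤ) - 1) (tz := tI G Z T hm r Z (σ z))
    (sz := sI hm r Z (σ z) - (q + ∑ u ∈ D, ((ivl u : ℤ) + 1)))
    (M := ∑ u ∈ pkf (B (σ z)) (Ps (σ z)), (ivl u : ℤ) - (q + ∑ u ∈ D, (ivl u : ℤ)))
    (k := ∑ u ∈ K, (g u : ℤ)) ht0 (add_nonneg hm0 hk0) hB0 key (by
      beta_reduce at h2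
      linarith)
  beta_reduce
  have e4 : ∀ a b c : ℤ, a - (b + c) = a - b - c := fun a b c => by ring
  simp only [e4] at h3
  exact h3

end Idx

end Pool.Agent.Lib.MP_f04ccf_co
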