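import Pool.Agent.Lib.MP_f04ccf_co.M.PConU
import Pool.Agent.Lib.MP_f04ccf_co.M.CellGP
import Pool.Agent.Lib.MP_f04ccf_co.M.RowEX
import Pool.Agent.Lib.MP_f04ccf_co.M.TzKo

/-!
MP_f04ccf_co, TEXT D (assembly): **the contract `PCon` from a world of version [C]**.

* `SvT.savJ`: the savings of the contract are savings of the fields;
* `WItC.pconU`: `PCon` for every world of version [C] (fields of `ItCU`, 72's `capMP`, 55's `TsY`, 59's `RowNQ`,
  9's `RowXY`, `RowEX`).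
-/

set_option autoImplicit false

namespace Pool.Agent.Lib.MP_f04ccf_co

open Finset

attribute [local instance] Classical.propDecidable

section DefsW

variable {ι : Type*}

/-- the savings of the contract are savings of the fields -/
lemma SvT.savJ {n : ℕ} {ho : ι → ℕ} {vl : ι → ℤ} {kp : ℕ → ι → ℤ} {pc : ι → ℤ} {i : ℕ} {g : ι → ℕ}
    {J : Finset ℕ} {K : Finset ι} {sv : ℤ} (h : SvT n ho vl kp g K sv)
    (hJ : ∀ u ∈ K, ho u ∈ J → pc u = 0) : SavJ n ho vl kp pc i g J K sv := by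
  rcases h with h | ⟨cl, M, q, I, h1, h2, h3⟩
  · rcases SavJ.of_svP (n := n) (vl := vl) (kp := kp) (i := i) (g := g) hJ with h4 | h4 | h4
    · exact Or.inl (h.trans h4)
    · obtain ⟨cl, M, q, I, h5, h6, h7⟩ := h4
      exact Or.inr (Or.inl ⟨cl, M, q, I, h5, h6, h.trans h7⟩)
    · obtain ⟨h5, a, h6⟩ := h4
      exact Or.inr (Or.inr ⟨h5, a, h.trans h6⟩)
  · refine Or.inr (Or.inl ⟨cl, M, q, I, h1, h2, h3.trans ?_⟩)
    refine add_le_add (sum_le_sum fun c _ => ?_) ?_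
    · have h4 : ∑ u ∈ K.filter (fun u => cl u = c), ((g u : ℤ) + 1 - if ho u ∈ J then pc u else 0)
          = ∑ u ∈ K.filter (fun u => cl u = c), ((g u : ℤ) + 1) := by
        refine sum_congr rfl fun u hu => ?_
        by_cases h5 : ho u ∈ J
        · rw [if_pos h5, hJ u (mem_filter.1 hu).1 h5, sub_zero]
        · rw [if_neg h5, sub_zero]
      rw [h4]
    · refine Nat.cast_le.2 (card_le_card fun e he => ?_)
      obtain ⟨h4, h5, h6, h7, h8, h9⟩ := mem_filter.1 he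
      obtain ⟨h10, h11⟩ := mem_product.1 h4
      exact mem_filter.2 ⟨h4, h5, h6, h7, h8, h9, fun h12 =>
        ⟨hJ _ h10 h12, hJ _ h11 (by rw [← h6]; exact h12)⟩⟩

/-- LEMMA N at levels in p-form -/
lemma tzN_p {R tz sz M k B : ℤ} (ht : 0 ≤ tz) (hM : 0 ≤ M + k) (hB : 0 ≤ B)
    (h : 0 ≤ sz + k → R * (sz + k) ≤ (M + k) * (tz + 2 * (sz + k) + 1) + B)
    (h2 : 2 * (M + k) ≤ R) :
    (R - 2 * (M + k)) * (sz + k) ≤ (tz + 1) * (M + k) + B := by
  rcases le_or_gt 0 (sz + k) with h0 | h0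
  · have := h h0
    nlinarith
  · have h3 : (R - 2 * (M + k)) * (sz + k) ≤ 0 :=
      mul_nonpos_of_nonneg_of_nonpos (by linarith) h0.le
    have h4 : 0 ≤ (tz + 1) * (M + k) := mul_nonneg (by linarith) hM
    linarith

end DefsW

section TransW

variable {V : Type*} {G : SimpleGraph V} {Z T : Finset V} {hm : V → V} {r m n p : ℕ}
  {φ : Finset (V × V) → Finset (Finset V) → ℕ} {B : V → Finset (V × V)}
  {Ps : V → Finset (Finset V)} {host : Itm V → V} {ρ : V → ℕ} {σ : ℕ → V}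

/-- **the contract from a world of version [C]** -/
theorem WItC.pconU (hp : 2 * r ≤ p) (h : WCoreK G Z T r m n p hm)
    (H : WItC G Z T hm r n φ B Ps host ρ σ) :
    PCon ((r : ℤ) - 1) n (fun i => tI G Z T hm r Z (σ i)) (fun i => sI hm r Z (σ i))
      (fun i => ∑ u ∈ pkf (B (σ i)) (Ps (σ i)), (ivl u : ℤ))
      (T.biUnion fun x => pkf (B x) (Ps x)) (fun u => ρ (host u)) (fun u => (ivl u : ℤ))
      (fun i u => (ikp (tlo G T hm) (σ i) u : ℤ))
      (fun i u => (imn G (cz G Z T hm) (tlo G T hm) (σ i) u : ℤ)) (fun u => (ipc u : ℤ))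
      (fun u => (iar G (cz G Z T hm (host u)) u : ℤ))
      (fun i j => pcn (tlo G T hm) B (σ i) (σ j)) (fun i j => kqw G Z T hm B (σ i) (σ j))
      (fun i j => nxw G Z T hm B (σ i) (σ j)) (fun i j => ssw G T hm Ps (σ i) (σ j))
      (fun j u => (nui G (cz G Z T hm (host u)) (tlo G T hm) (B (host u)) (σ j) u : ℤ)) := by
  have h1 := H.itcu hp h
  have h2 := H.rowXY hp h
  refine h1.pcon h2.kq0 h2.kqb h2.sg0 h2.sgs (H.capMP hp h) ?_ (H.rowNQ hp h) ?_ ?_ ?_
  · intro z hz K hK hKh g hg1 hg2 h3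
    have hk0 : (0 : ℤ) ≤ ∑ u ∈ K, (g u : ℤ) := sum_nonneg fun u _ => Int.natCast_nonneg _
    refine tzN_p (h1.c.t0 z hz) (add_nonneg (sum_nonneg fun u _ => Int.natCast_nonneg _) hk0)
      (sum_nonneg fun u hu => ?_) (fun h0 => h1.ty.tzL z hz K hK hKh g hg1 hg2 h0) h3
    unfold msP
    split_ifs
    · exact h1.mn0 (hK hu) hz
    · exact le_rfl
  · intro z hz X hX Y hY D hD hD' K hK hKh g hg1 hg2 sv hsv
    exact h2.tx z hz X hX Y hY D hD hD' K hK hKh g hg1 hg2 sv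
      (hsv.savJ fun _ _ h4 => absurd h4 (notMem_empty _))
  · intro z hz j hj hjz X hX hjX Y hY D hD hD' K hK hKh g hg1 hg2 sv hsv
    exact h2.px z hz j hj hjz X hX hjX Y hY D hD hD' K hK hKh g hg1 hg2 sv
      (hsv.savJ fun _ hu h4 => (mem_filter.1 hu).2 (mem_singleton.1 h4))
  · intro z hz j hj hjz X hX hjX Y hY D hD hD' K hK hKh g hg1 hg2 EX hEX sv hsv
    exact (WItC.rowEX h H) z hz j hj hjz X hX hjX Y hY D hD hD' K hK hKh g hg1 hg2 EX hEX sv
      (hsv.savJ fun _ hu h4 => (mem_filter.1 hu).2 (mem_singleton.1 h4))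

end TransW

end Pool.Agent.Lib.MP_f04ccf_co
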