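import Pool.Agent.Lib.MP_f04ccf_co.M.MatT

/-!
MP_f04ccf_co, PLAN W, finite part (notes 16709, 16794, 17036): the misses with the best point outside
have the product bound, so one threshold for every row serves all items, cliques included.
`Fam.sum_ikp`: the loads of a clique with two or more tails have sum `value + 1`.  `Fam.prodr`:
`imn y u * imn z u ≤ R + t_y t_z` for two rows with a load.  `ival`: the value of an item at a row for
the threshold `θ`.  `Fam.sum_ival`: the values of an item at all rows have sum at least its value.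
`Fam.row_val`: the row test in the values, with Turan's bound, `value + 1` points and at most `θ` misses
for every item.
-/

set_option autoImplicit false

namespace Pool.Agent.Lib.MP_f04ccf_co

open Finset

attribute [local instance] Classical.propDecidable

section Mu

variable {V : Type*} {G : SimpleGraph V} {Z T : Finset V} {hm : V → V} {r m t : ℕ}
  {A : Finset V} {S : V → Finset V} {U : V → Finset (Itm V)}

/-- **the loads of a clique with two or more tails** -/
theorem Fam.sum_ikp {U : Finset (Itm V)}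
    (hW : WSysT G (co G) A (CP G Z T S) (HP G Z T S) (tlo G T hm)) {x : V} (hx : x ∈ A)
    (h : Fam (co G) (CP G Z T S) (HP G Z T S) (tlo G T hm) x U) {Q : Finset V}
    (hu : Sum.inl Q ∈ U) (hex : ∀ y ∈ A, tlp (tlo G T hm) Q y ≠ Q) :
    ∑ z ∈ A, ikp (tlo G T hm) z (Sum.inl Q) = ivl (Sum.inl Q : Itm V) + 1 := by
  have h2 := h.two Q hu
  have h4 : ∀ z ∈ A, ikp (tlo G T hm) z (Sum.inl Q) = (tlp (tlo G T hm) Q z).card := by
    intro z hz
    have := hex z hz
    simp only [ikp, this, if_false]
  rw [sum_congr rfl h4]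
  have h3 : ∑ z ∈ A, (tlp (tlo G T hm) Q z).card = Q.card :=
    (card_eq_sum_card_fiberwise fun v hv =>
      mem_of_mem_erase (hW.tlA x hx v (h.sub Q hu hv))).symm
  rw [h3]
  simp only [ivl]
  omega

/-- the product of the misses, one tail of `z` -/
private theorem prodr_aux (hF : PFrame G r m t Z T) (hP : PG G r) (hC : CSys G Z T hm A S)
    (hW : WSysT G (co G) A (CP G Z T S) (HP G Z T S) (tlo G T hm)) {x : V} (hx : x ∈ A)
    {U : Finset (Itm V)} (h : Fam (co G) (CP G Z T S) (HP G Z T S) (tlo G T hm) x U)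
    {Q : Finset V} (hu : Sum.inl Q ∈ U) {y z : V} (hy : y ∈ A) (hz : z ∈ A) (hyz : y ≠ z)
    {v : V} (hv : v ∈ Q) (hvz : tlo G T hm v = z)
    (hone : ∀ v' ∈ Q, tlo G T hm v' = z → v' = v) :
    (imn G (CP G Z T S) (tlo G T hm) y (Sum.inl Q) : ℤ)
        * imn G (CP G Z T S) (tlo G T hm) z (Sum.inl Q)
      ≤ (r : ℤ) - 1 + ((r : ℤ) - 1 - (CP G Z T S y).card)
        * ((r : ℤ) - 1 - (CP G Z T S z).card) := by
  set C := CP G Z T S with hCd
  set tl := tlo G T hm with htl
  have hvy : tl v ≠ y := fun h1 => hyz (h1.symm.trans hvz)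
  have h1 : imn G C tl y (Sum.inl Q) ≤ (dcl G C tl y Q v).card := by
    unfold imn
    simp only [rcl]
    split_ifs
    · rw [card_empty]
      exact Nat.zero_le _
    · exact xmn_le (mem_oth.2 ⟨hv, hvy⟩)
  have hex : ∀ c ∈ dcl G C tl y Q v, ∃ w ∈ Q, tl w = y ∧ ¬ G.Adj c w := by
    intro c hc
    obtain ⟨-, h2, -⟩ := mem_filter.1 hc
    exact h2
  choose! w hwQ hwy hwc using hex
  have h2 : ∀ c ∈ dcl G C tl y Q v,
      imn G C tl z (Sum.inl Q) ≤ (dcl G C tl z Q (w c)).card := by
    intro c hc
    unfold imn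
    simp only [rcl]
    split_ifs
    · rw [card_empty]
      exact Nat.zero_le _
    · exact xmn_le (mem_oth.2 ⟨hwQ c hc, fun h3 => hyz ((hwy c hc).symm.trans h3)⟩)
  set W : Finset (V × V) := (dcl G C tl y Q v).biUnion fun c => {c} ×ˢ dcl G C tl z Q (w c)
    with hWd
  have hcard : (dcl G C tl y Q v).card * imn G C tl z (Sum.inl Q) ≤ W.card := by
    rw [hWd, card_biUnion]
    · rw [← smul_eq_mul, ← sum_const]
      refine sum_le_sum fun c hc => ?_
      rw [card_product, card_singleton, one_mul]
      exact h2 c hc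
    · intro c _ c' _ hcc'
      show Disjoint ({c} ×ˢ dcl G C tl z Q (w c)) ({c'} ×ˢ dcl G C tl z Q (w c'))
      rw [disjoint_left]
      rintro ⟨a, b⟩ ha hb
      rw [mem_product, mem_singleton] at ha hb
      exact hcc' (ha.1.symm.trans hb.1)
  have hadj : ∀ p ∈ W, p.1 ∈ C y ∧ p.2 ∈ C z ∧ G.Adj p.1 p.2 := by
    rintro ⟨c, d⟩ hp
    rw [hWd, mem_biUnion] at hp
    obtain ⟨c', hc', hp⟩ := hp
    rw [mem_product, mem_singleton] at hp
    obtain ⟨hp1, hp2⟩ := hp
    simp only at hp1 hp2
    subst hp1
    obtain ⟨hcC, -, hcv⟩ := mem_filter.1 hc'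
    obtain ⟨hdC, ⟨v', hv', hv'z, hdv'⟩, hdw⟩ := mem_filter.1 hp2
    have hv'v := hone v' hv' hv'z
    subst hv'v
    refine ⟨hcC, hdC, ?_⟩
    have hne : w c ≠ v' := fun h3 => hyz (((hwy c hc').symm.trans (congrArg tl h3)).trans hvz)
    have h4 := hW.tlA x hx (w c) (h.sub Q hu (hwQ c hc'))
    have h5 := hW.tlA x hx v' (h.sub Q hu hv)
    refine hW.half x hx (w c) (h.sub Q hu (hwQ c hc')) v' (h.sub Q hu hv)
      (h.clq Q hu _ (hwQ c hc') _ hv hne) h4 h5 (fun h6 => hyz ((hwy c hc').symm.trans
        (h6.trans hvz))) c ?_ d ?_ (hwc c hc') (hcv v' (mem_singleton_self _))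
      (hdw _ (mem_singleton_self _)) hdv'
    · rw [hwy c hc']
      exact hcC
    · rw [hvz]
      exact hdC
  have h3 := hC.cells_le hF hP hy hz hyz
  have h4 : (W.card : ℤ) ≤ ∑ a ∈ C y, (dg G (C z) a : ℤ) := by
    exact_mod_cast cells_ge hadj
  have h5 : ((imn G C tl y (Sum.inl Q) : ℕ) : ℤ) * imn G C tl z (Sum.inl Q) ≤ W.card := by
    exact_mod_cast (Nat.mul_le_mul_right _ h1).trans hcard
  linarith

/-- **the product of the misses of an item at two rows where it has a load** -/
theorem Fam.prodr (hF : PFrame G r m t Z T) (hh : Homes G Z T hm) (hP : PG G r)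
    (hC : CSys G Z T hm A S)
    (hW : WSysT G (co G) A (CP G Z T S) (HP G Z T S) (tlo G T hm)) {x : V} (hx : x ∈ A)
    {U : Finset (Itm V)} (h : Fam (co G) (CP G Z T S) (HP G Z T S) (tlo G T hm) x U)
    {u : Itm V} (hu : u ∈ U) {y z : V} (hy : y ∈ A) (hz : z ∈ A) (hyz : y ≠ z)
    (hky : ikp (tlo G T hm) y u ≠ 0) (hkz : ikp (tlo G T hm) z u ≠ 0) :
    (imn G (CP G Z T S) (tlo G T hm) y u : ℤ) * imn G (CP G Z T S) (tlo G T hm) z u
      ≤ (r : ℤ) - 1 + ((r : ℤ) - 1 - (CP G Z T S y).card)
        * ((r : ℤ) - 1 - (CP G Z T S z).card) := by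
  have hnn : 0 ≤ (r : ℤ) - 1 + ((r : ℤ) - 1 - (CP G Z T S y).card)
        * ((r : ℤ) - 1 - (CP G Z T S z).card) :=
    (sum_nonneg fun _ _ => Nat.cast_nonneg _).trans (hC.cells_le hF hP hy hz hyz)
  rcases u with Q | e
  · have hQ2 := h.two Q hu
    -- the tails
    have hne : ∀ z' : V, ikp (tlo G T hm) z' (Sum.inl Q) ≠ 0 → ∃ v ∈ Q, tlo G T hm v = z' := by
      intro z' hk
      by_contra hcon
      push Not at hcon
      have h1 : tlp (tlo G T hm) Q z' = ∅ := by
        unfold tlp
        rw [filter_eq_empty_iff]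
        exact fun v hv => hcon v hv
      have h2 : tlp (tlo G T hm) Q z' ≠ Q := by
        rw [h1]
        rintro rfl
        simp at hQ2
      have h3 : ikp (tlo G T hm) z' (Sum.inl Q) = (tlp (tlo G T hm) Q z').card := by
        simp only [ikp, h2, if_false]
      exact hk (by rw [h3, h1, card_empty])
    obtain ⟨v, hv, hvz⟩ := hne z hkz
    obtain ⟨w, hw, hwy⟩ := hne y hky
    by_cases h1 : ∀ v' ∈ Q, tlo G T hm v' = z → v' = v
    · exact prodr_aux hF hP hC hW hx h hu hy hz hyz hv hvz h1
    by_cases h2 : ∀ w' ∈ Q, tlo G T hm w' = y → w' = w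
    · have h3 := prodr_aux hF hP hC hW hx h hu hz hy hyz.symm hw hwy h2
      nlinarith
    · exfalso
      push Not at h1 h2
      obtain ⟨v', hv', hv'z, hvv'⟩ := h1
      obtain ⟨w', hw', hw'y, hww'⟩ := h2
      have hind : Ind G Q := by
        intro a ha b hb hab
        exact (co_adj.1 (h.clq Q hu a ha b hb hab.ne)).2 hab
      have hZ : Q ⊆ Z := fun a ha => MM_sub (hC.slot x hx (HP_sub (h.sub Q hu ha)))
      have h3 := hF.ind_rws hZ hind
      have h4 : (Q.biUnion fun v => rws G T v)
          ⊆ insert x (insert y (insert z ((Q \ {v, v', w, w'}).image (tlo G T hm)))) := by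
        intro b hb
        obtain ⟨a, ha, hba⟩ := mem_biUnion.1 hb
        have h5 := h.sub Q hu ha
        have h6 := (hC.ends_of_tlo hh hx h5 rfl).2
        have h7 := (mem_BB.1 (mem_Ph.1 (hC.HP_Ph hx h5)).1).1.2
        rw [rws_of_notMem h7, h6] at hba
        rcases mem_insert.1 hba with h8 | h8
        · rw [h8]
          exact mem_insert_self _ _
        · rw [mem_singleton.1 h8]
          by_cases h9 : a ∈ ({v, v', w, w'} : Finset V)
          · simp only [mem_insert, mem_singleton] at h9 ⊢
            rcases h9 with rfl | rfl | rfl | rfl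
            · exact Or.inr (Or.inr (Or.inl hvz))
            · exact Or.inr (Or.inr (Or.inl hv'z))
            · exact Or.inr (Or.inl hwy)
            · exact Or.inr (Or.inl hw'y)
          · exact mem_insert_of_mem (mem_insert_of_mem (mem_insert_of_mem
              (mem_image_of_mem _ (mem_sdiff.2 ⟨ha, h9⟩))))
      have h5 := card_insert_le x (insert y (insert z ((Q \ {v, v', w, w'}).image (tlo G T hm))))
      have h6 := card_insert_le y (insert z ((Q \ {v, v', w, w'}).image (tlo G T hm)))
      have h7 := card_insert_le z ((Q \ {v, v', w, w'}).image (tlo G T hm))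
      have h8 := card_image_le (s := Q \ {v, v', w, w'}) (f := tlo G T hm)
      have h9 : ({v, v', w, w'} : Finset V) ⊆ Q := by
        intro a ha
        simp only [mem_insert, mem_singleton] at ha
        rcases ha with rfl | rfl | rfl | rfl <;> assumption
      have h10 := card_sdiff_add_card_eq_card h9
      have h11 : ({v, v', w, w'} : Finset V).card = 4 := by
        have e1 : v ≠ w := fun e => hyz (hwy.symm.trans ((congrArg _ e.symm).trans hvz))
        have e2 : v ≠ w' := fun e => hyz (hw'y.symm.trans ((congrArg _ e.symm).trans hvz))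
        have e3 : v' ≠ w := fun e => hyz (hwy.symm.trans ((congrArg _ e.symm).trans hv'z))
        have e4 : v' ≠ w' := fun e => hyz (hw'y.symm.trans ((congrArg _ e.symm).trans hv'z))
        rw [card_insert_of_notMem, card_insert_of_notMem, card_pair hww'.symm]
        · simp only [mem_insert, mem_singleton, not_or]
          exact ⟨e3, e4⟩
        · simp only [mem_insert, mem_singleton, not_or]
          exact ⟨hvv'.symm, e1, e2⟩
      have h12 := card_le_card h4
      omega
  · have h1 : imn G (CP G Z T S) (tlo G T hm) y (Sum.inr e) = 0 := imn_pc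
    rw [h1, Nat.cast_zero, zero_mul]
    exact hnn

/-- **the value of an item at the row `z`** for the threshold `θ` of the misses -/
noncomputable def ival {ι V : Type*} (G : SimpleGraph V) (C : ι → Finset V) (tl : V → ι) (θ : ℕ)
    (z : ι) (u : Itm V) : ℕ :=
  if imn G C tl z u ≤ θ then ikp tl z u else ikp tl z u - 1

/-- the misses which are charged -/
noncomputable def imv {ι V : Type*} (G : SimpleGraph V) (C : ι → Finset V) (tl : V → ι) (θ : ℕ)
    (z : ι) (u : Itm V) : ℕ :=
  if imn G C tl z u ≤ θ then imn G C tl z u else 0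

lemma imv_le {ι V : Type*} {G : SimpleGraph V} {C : ι → Finset V} {tl : V → ι} {θ : ℕ} {z : ι}
    {u : Itm V} : imv G C tl θ z u ≤ θ := by
  unfold imv
  split_ifs with h
  · exact h
  · exact Nat.zero_le _

lemma ival_le {ι V : Type*} {G : SimpleGraph V} {C : ι → Finset V} {tl : V → ι} {θ : ℕ} {z : ι}
    {u : Itm V} : ival G C tl θ z u ≤ ikp tl z u := by
  unfold ival
  split_ifs <;> omega

/-- **the values of an item have sum at least its value** -/
theorem Fam.sum_ival (hF : PFrame G r m t Z T) (hh : Homes G Z T hm) (hP : PG G r)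
    (hC : CSys G Z T hm A S)
    (hW : WSysT G (co G) A (CP G Z T S) (HP G Z T S) (tlo G T hm)) {x : V} (hx : x ∈ A)
    {U : Finset (Itm V)} (h : Fam (co G) (CP G Z T S) (HP G Z T S) (tlo G T hm) x U)
    {u : Itm V} (hu : u ∈ U) {θ : V → ℕ}
    (hθ : ∀ y ∈ A, ∀ z ∈ A, y ≠ z → (r : ℤ) - 1 + ((r : ℤ) - 1 - (CP G Z T S y).card)
        * ((r : ℤ) - 1 - (CP G Z T S z).card) < ((θ y : ℤ) + 1) * ((θ z : ℤ) + 1)) :
    ivl u ≤ ∑ z ∈ A, ival G (CP G Z T S) (tlo G T hm) (θ z) z u := by
  set C := CP G Z T S with hCd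
  set tl := tlo G T hm with htl
  have hsingle : ∀ y ∈ A, imn G C tl y u = 0 → ivl u ≤ ikp tl y u →
      ivl u ≤ ∑ z ∈ A, ival G C tl (θ z) z u := by
    intro y hy h1 h2
    have h3 := single_le_sum (f := fun z => ival G C tl (θ z) z u) (fun _ _ => Nat.zero_le _) hy
    have h4 : ival G C tl (θ y) y u = ikp tl y u := by
      unfold ival
      rw [h1, if_pos (Nat.zero_le _)]
    simp only [h4] at h3
    exact h2.trans h3
  rcases u with Q | e
  · by_cases hex : ∃ y ∈ A, tlp tl Q y = Q
    · obtain ⟨y, hy, hyQ⟩ := hex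
      refine hsingle y hy (imn_one hyQ) ?_
      simp only [ivl, ikp, hyQ, if_true]
      exact le_rfl
    · push Not at hex
      have h1 : ∑ z ∈ A, ikp tl z (Sum.inl Q) = ivl (Sum.inl Q : Itm V) + 1 :=
        Fam.sum_ikp hW hx h hu hex
      by_cases hbad : ∃ y ∈ A, θ y < imn G C tl y (Sum.inl Q)
      · obtain ⟨y, hy, hyb⟩ := hbad
        have h2 : ∀ z ∈ A.erase y, ival G C tl (θ z) z (Sum.inl Q) = ikp tl z (Sum.inl Q) := by
          intro z hz
          obtain ⟨hzy, hzA⟩ := mem_erase.1 hz
          unfold ival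
          rw [if_pos]
          by_contra hcon
          push Not at hcon
          have hk : ∀ z' : V, imn G C tl z' (Sum.inl Q) ≠ 0 → ikp tl z' (Sum.inl Q) ≠ 0 := by
            intro z' h3 h4
            have h5 := imn_load (G := G) (C := C) (tl := tl) (z := z') (u := Sum.inl Q)
            rw [h4, Nat.zero_mul] at h5
            exact h3 (Nat.le_zero.1 h5)
          have h3 := h.prodr hF hh hP hC hW hx hu hy hzA hzy.symm (hk y (by omega))
            (hk z (by omega))
          have h4 := hθ y hy z hzA hzy.symm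
          have h5 : ((θ y : ℤ) + 1) ≤ imn G C tl y (Sum.inl Q) := by exact_mod_cast hyb
          have h6 : ((θ z : ℤ) + 1) ≤ imn G C tl z (Sum.inl Q) := by exact_mod_cast hcon
          have h7 := mul_le_mul h5 h6 (by positivity) (by positivity)
          linarith
        have h3 : ikp tl y (Sum.inl Q) - 1 ≤ ival G C tl (θ y) y (Sum.inl Q) := by
          unfold ival
          split_ifs <;> omega
        rw [← add_sum_erase A _ hy] at h1 ⊢
        rw [sum_congr rfl h2]
        omega
      · push Not at hbad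
        have h2 : ∀ z ∈ A, ival G C tl (θ z) z (Sum.inl Q) = ikp tl z (Sum.inl Q) := by
          intro z hz
          unfold ival
          rw [if_pos (hbad z hz)]
        rw [sum_congr rfl h2, h1]
        omega
  · have h1 := hW.tlA x hx e.1 (h.pcH e hu)
    refine hsingle _ (mem_of_mem_erase h1) imn_pc ?_
    simp only [ivl, ikp, if_true]
    exact le_rfl

/-- **the row test in the values**, Turan's bound, `value + 1` points for every item -/
theorem Fam.row_val (hF : PFrame G r m t Z T) (hP : PG G r) (hC : CSys G Z T hm A S)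
    (hW : WSysT G (co G) A (CP G Z T S) (HP G Z T S) (tlo G T hm))
    (h : ∀ x ∈ A, Fam (co G) (CP G Z T S) (HP G Z T S) (tlo G T hm) x (U x))
    {z : V} (hz : z ∈ A) {K : Finset (Itm V)} (hK : K ⊆ (A.erase z).biUnion U) {θ : ℕ}
    (hk : ∀ u ∈ K, ival G (CP G Z T S) (tlo G T hm) θ z u ≠ 0) (q : ℤ) :
    2 * ((r : ℤ) - 1) * (((S z).card : ℤ) - r)
      + 2 * ∑ u ∈ K, (((CP G Z T S z).card : ℤ) * ival G (CP G Z T S) (tlo G T hm) θ z u
          - imv G (CP G Z T S) (tlo G T hm) θ z u)
      ≤ NE G (S z)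
        + 2 * (∑ u ∈ K, ((ival G (CP G Z T S) (tlo G T hm) θ z u : ℤ) + 1))
          * (((S z).card : ℤ) - r + 1)
        + (∑ u ∈ K, ((ival G (CP G Z T S) (tlo G T hm) θ z u : ℤ) + 1))
          * ((∑ u ∈ K, ((ival G (CP G Z T S) (tlo G T hm) θ z u : ℤ) + 1)) - 1)
        - 2 * q * (∑ u ∈ K, ((ival G (CP G Z T S) (tlo G T hm) θ z u : ℤ) + 1))
        + T.card * (q * (q + 1)) := by
  set C := CP G Z T S with hCd
  set tl := tlo G T hm with htl
  have hkp : ∀ u ∈ K, ikp tl z u ≠ 0 := by
    intro u hu h1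
    have := ival_le (G := G) (C := C) (tl := tl) (θ := θ) (z := z) (u := u)
    exact hk u hu (by omega)
  set X : Finset V → Finset V := fun Q =>
    if imn G C tl z (Sum.inl Q) ≤ θ then xmn G C tl z Q else ∅ with hXd
  have hX : ∀ Q, X Q ⊆ oth tl z Q := by
    intro Q
    rw [hXd]
    simp only
    split_ifs
    · exact xmn_sub
    · exact empty_subset _
  have h1 := Fam.row_ne hP hC hW h hz hK hkp hX
  have hg := Fam.grp hW h (D := A.erase z) (erase_subset _ _) hK (z := z) hX
  have hfil : (K.filter fun u => ikp tl z u ≠ 0) = K := filter_true_of_mem hkp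
  rw [hfil] at hg
  have key : ∀ u ∈ K, (rpts tl X z u).card = ival G C tl θ z u + 1 ∧
      ((C z).card : ℤ) * ival G C tl θ z u - imv G C tl θ z u
        ≤ ((C z).card : ℤ) * ikp tl z u - (rcl G C tl X z u).card := by
    intro u hu
    obtain ⟨y, hy, huy⟩ := mem_biUnion.1 (hK hu)
    have hfam := h y (mem_of_mem_erase hy)
    by_cases hgood : imn G C tl z u ≤ θ
    · have e1 : ival G C tl θ z u = ikp tl z u := if_pos hgood
      have e2 : imv G C tl θ z u = imn G C tl z u := if_pos hgood
      have e3 : rpts tl X z u = rpts tl (xmn G C tl z) z u := by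
        rcases u with Q | e
        · have : X Q = xmn G C tl z Q := if_pos hgood
          simp only [rpts, this]
        · rfl
      have e4 : rcl G C tl X z u = rcl G C tl (xmn G C tl z) z u := by
        rcases u with Q | e
        · have : X Q = xmn G C tl z Q := if_pos hgood
          simp only [rcl, this]
        · rfl
      refine ⟨?_, ?_⟩
      · rw [e1, e3]
        exact rpts_xmn (G := G) (A := A) hfam huy (hkp u hu)
      · rw [e1, e2, e4]
        exact le_rfl
    · have e1 : ival G C tl θ z u = ikp tl z u - 1 := if_neg hgood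
      have e2 : imv G C tl θ z u = 0 := if_neg hgood
      have hi := hk u hu
      rcases u with Q | e
      · have hone : tlp tl Q z ≠ Q := by
          intro h2
          exact hgood (by rw [imn_one h2]; exact Nat.zero_le _)
        have hXQ : X Q = ∅ := if_neg hgood
        have e3 : ikp tl z (Sum.inl Q) = (tlp tl Q z).card := by simp only [ikp, hone, if_false]
        rw [e1] at hi
        refine ⟨?_, ?_⟩
        · simp only [rpts, hXQ, union_empty]
          rw [e1, ← e3]
          omega
        · rw [e1, e2]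
          have e4 : (rcl G C tl X z (Sum.inl Q)).card ≤ (C z).card := card_le_card rcl_sub
          have e5 : ((rcl G C tl X z (Sum.inl Q)).card : ℤ) ≤ (C z).card := by exact_mod_cast e4
          have e6 : ((ikp tl z (Sum.inl Q) - 1 : ℕ) : ℤ) = (ikp tl z (Sum.inl Q) : ℤ) - 1 := by
            rw [Nat.cast_sub (by omega)]
            simp
          rw [e6]
          push_cast
          linarith
      · exact absurd (by rw [imn_pc]; exact Nat.zero_le _) hgood
  have h3 : (K.biUnion (rpts tl X z)).card = ∑ u ∈ K, (rpts tl X z u).card :=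
    card_biUnion hg.dis
  have h4 : ∑ u ∈ K, ((rpts tl X z u).card : ℤ) = ∑ u ∈ K, ((ival G C tl θ z u : ℤ) + 1) := by
    refine sum_congr rfl fun u hu => ?_
    rw [(key u hu).1]
    push_cast
    rfl
  have h5 : ((K.biUnion (rpts tl X z)).card : ℤ) = ∑ u ∈ K, ((ival G C tl θ z u : ℤ) + 1) := by
    rw [h3, ← h4]
    push_cast
    rfl
  have hWZ : K.biUnion (rpts tl X z) ⊆ Z := by
    refine biUnion_subset.2 fun u hu => ?_
    obtain ⟨y, hy, huy⟩ := mem_biUnion.1 (hK hu)
    have hyA := mem_of_mem_erase hy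
    refine ((h y hyA).rpts_sub hX).trans (((h y hyA).ipts_sub huy).trans ?_)
    rw [union_comm, CP_union_HP]
    exact (hC.slot y hyA).trans MM_sub
  have h6 := hF.NE_rows (I := T) hWZ (fun v _ => rws_sub) q
  have h7 : ∑ u ∈ K, (((C z).card : ℤ) * ival G C tl θ z u - imv G C tl θ z u)
      ≤ ∑ u ∈ K, (((C z).card : ℤ) * ikp tl z u - (rcl G C tl X z u).card) :=
    sum_le_sum fun u hu => (key u hu).2
  rw [h5] at h6
  rw [h4] at h1
  linarith

end Mu

end Pool.Agent.Lib.MP_f04ccf_co
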