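import Pool.Agent.Lib.MP_f04ccf_co.M.SubDP
import Pool.Agent.Lib.MP_f04ccf_co.M.MatU

/-!
MP_f04ccf_co, note 18292: **the rectangle of the misses `imn` of ANY item** (cliques included) as a payment of the
cell in the row test on a sub-slot.

* `Fam.fib`: if `v` is the only point of `Q` with tail `z`, every column of `y` which misses `v` (and a point with
  tail `y`) is completely joined to at least `imn z Q` columns of `z`;
* `WHom.payS_fib`, `WHom.payS_fib'`: a fibred set of class edges pays like a rectangle;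
* `Fam.two_one`: two rows with a load: one of the loads is one point;
* `WHom.payS_item_mn`: `payS_item` with `imn` in place of `ims`, for every item of every home.
-/

set_option autoImplicit false

namespace Pool.Agent.Lib.MP_f04ccf_co

open Finset

attribute [local instance] Classical.propDecidable

section PayMn

variable {V : Type*} {G : SimpleGraph V} {Z T : Finset V} {hm : V → V} {r m n p : ℕ}
  {B : V → Finset (V × V)} {Ps : V → Finset (Finset V)}
  {B1 : Finset (V × V)} {P1 : Finset (Finset V)} {XC : Finset V}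

/-- the columns which miss a point and the point `v` outside are at least the misses -/
lemma imn_le_dcl {C : V → Finset V} {tl : V → V} {y : V} {Q : Finset V} {v : V} (hv : v ∈ Q)
    (hvy : tl v ≠ y) : imn G C tl y (Sum.inl Q) ≤ (dcl G C tl y Q v).card := by
  unfold imn
  simp only [rcl]
  split_ifs
  · rw [card_empty]
    exact Nat.zero_le _
  · exact xmn_le (mem_oth.2 ⟨hv, hvy⟩)

/-- **the fibres**: `v` the only point of `Q` with tail `z` -/
theorem Fam.fib {A : Finset V} {C H : V → Finset V} {tl : V → V}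
    (hW : WSysT G (co G) A C H tl) {x : V} (hx : x ∈ A) {U : Finset (Itm V)}
    (h : Fam (co G) C H tl x U) {Q : Finset V} (hu : Sum.inl Q ∈ U) {y z : V}
    (hyz : y ≠ z) {v : V} (hv : v ∈ Q) (hvz : tl v = z)
    (hone : ∀ v' ∈ Q, tl v' = z → v' = v) :
    ∃ D : V → Finset V, ∀ c ∈ dcl G C tl y Q v, D c ⊆ C z
      ∧ imn G C tl z (Sum.inl Q) ≤ (D c).card ∧ ∀ d ∈ D c, G.Adj c d := by
  have hex : ∀ c ∈ dcl G C tl y Q v, ∃ w ∈ Q, tl w = y ∧ ¬ G.Adj c w := by
    intro c hc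
    obtain ⟨-, h2, -⟩ := mem_filter.1 hc
    exact h2
  choose! w hwQ hwy hwc using hex
  refine ⟨fun c => dcl G C tl z Q (w c), fun c hc => ⟨filter_subset _ _,
    imn_le_dcl (hwQ c hc) (fun h3 => hyz ((hwy c hc).symm.trans h3)), fun d hd => ?_⟩⟩
  obtain ⟨hcC, -, hcv⟩ := mem_filter.1 hc
  obtain ⟨hdC, ⟨v', hv', hv'z, hdv'⟩, hdw⟩ := mem_filter.1 hd
  have hv'v := hone v' hv' hv'z
  subst hv'v
  have hne : w c ≠ v' := fun h3 => hyz (((hwy c hc).symm.trans (congrArg tl h3)).trans hvz)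
  have h4 := hW.tlA x hx (w c) (h.sub Q hu (hwQ c hc))
  have h5 := hW.tlA x hx v' (h.sub Q hu hv)
  refine hW.half x hx (w c) (h.sub Q hu (hwQ c hc)) v' (h.sub Q hu hv)
    (h.clq Q hu _ (hwQ c hc) _ hv hne) h4 h5 (fun h6 => hyz ((hwy c hc).symm.trans
      (h6.trans hvz))) c ?_ d ?_ (hwc c hc) (hcv v' (mem_singleton_self _))
    (hdw _ (mem_singleton_self _)) hdv'
  · rw [hwy c hc]
    exact hcC
  · rw [hvz]
    exact hdC

/-- **two rows with a load**: one of the loads is one point -/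
theorem Fam.two_one {A : Finset V} {S : V → Finset V} {t : ℕ} (hF : PFrame G r m t Z T)
    (hh : Homes G Z T hm) (hC : CSys G Z T hm A S) {x : V} (hx : x ∈ A) {U : Finset (Itm V)}
    (h : Fam (co G) (CP G Z T S) (HP G Z T S) (tlo G T hm) x U) {Q : Finset V}
    (hu : Sum.inl Q ∈ U) {y z : V} (hyz : y ≠ z)
    {v : V} (hv : v ∈ Q) (hvz : tlo G T hm v = z) {w : V} (hw : w ∈ Q)
    (hwy : tlo G T hm w = y) :
    (∀ v' ∈ Q, tlo G T hm v' = z → v' = v) ∨ (∀ w' ∈ Q, tlo G T hm w' = y → w' = w) := by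
  by_contra hcon
  push Not at hcon
  obtain ⟨⟨v', hv', hv'z, hvv'⟩, w', hw', hw'y, hww'⟩ := hcon
  have hind : Ind G Q := by
    intro a ha b hb hab
    exact (co_adj.1 (h.clq Q hu a ha b hb hab.ne)).2 hab
  have hZ : Q ⊆ Z := fun a ha => MM_sub (hC.slot x hx (HP_sub (h.sub Q hu ha)))
  have h3 := hF.ind_rws hZ hind
  have h4 : (Q.biUnion fun v => rws G T v)
      ⊆ insert x (insert y (insert z ((Q \ {v, v', w, w'}).image (tlo G T hm)))) := by
    intro b hb
    obtain ⟨a, ha, hba⟩ := mem_biUnion.1 hb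
    have h5 := h.sub Q hu ha
    have h6 := (hC.ends_of_tlo hh hx h5 rfl).2
    have h7 := (mem_BB.1 (mem_Ph.1 (hC.HP_Ph hx h5)).1).1.2
    rw [rws_of_notMem h7, h6] at hba
    rcases mem_insert.1 hba with h8 | h8
    · rw [h8]
      exact mem_insert_self _ _
    · rw [mem_singleton.1 h8]
      by_cases h9 : a ∈ ({v, v', w, w'} : Finset V)
      · simp only [mem_insert, mem_singleton] at h9 ⊢
        rcases h9 with rfl | rfl | rfl | rfl
        · exact Or.inr (Or.inr (Or.inl hvz))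
        · exact Or.inr (Or.inr (Or.inl hv'z))
        · exact Or.inr (Or.inl hwy)
        · exact Or.inr (Or.inl hw'y)
      · exact mem_insert_of_mem (mem_insert_of_mem (mem_insert_of_mem
          (mem_image_of_mem _ (mem_sdiff.2 ⟨ha, h9⟩))))
  have h5 := card_insert_le x (insert y (insert z ((Q \ {v, v', w, w'}).image (tlo G T hm))))
  have h6 := card_insert_le y (insert z ((Q \ {v, v', w, w'}).image (tlo G T hm)))
  have h7 := card_insert_le z ((Q \ {v, v', w, w'}).image (tlo G T hm))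
  have h8 := card_image_le (s := Q \ {v, v', w, w'}) (f := tlo G T hm)
  have h9 : ({v, v', w, w'} : Finset V) ⊆ Q := by
    intro a ha
    simp only [mem_insert, mem_singleton] at ha
    rcases ha with rfl | rfl | rfl | rfl <;> assumption
  have h10 := card_sdiff_add_card_eq_card h9
  have h11 : ({v, v', w, w'} : Finset V).card = 4 := by
    have e1 : v ≠ w := fun e => hyz (hwy.symm.trans ((congrArg _ e.symm).trans hvz))
    have e2 : v ≠ w' := fun e => hyz (hw'y.symm.trans ((congrArg _ e.symm).trans hvz))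
    have e3 : v' ≠ w := fun e => hyz (hwy.symm.trans ((congrArg _ e.symm).trans hv'z))
    have e4 : v' ≠ w' := fun e => hyz (hw'y.symm.trans ((congrArg _ e.symm).trans hv'z))
    rw [card_insert_of_notMem, card_insert_of_notMem, card_pair hww'.symm]
    · simp only [mem_insert, mem_singleton, not_or]
      exact ⟨e3, e4⟩
    · simp only [mem_insert, mem_singleton, not_or]
      exact ⟨hvv'.symm, e1, e2⟩
  have h12 := card_le_card h4
  omega

/-- **a fibred set of class edges** over the class of `z` -/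
theorem WHom.payS_fib (h : WHom G Z T r m n hm)
    (hpk : ∀ x ∈ T, Pk G (cz G Z T hm x) (hz G Z T hm x) (tlo G T hm) (B x) (Ps x))
    {z j : V} (hj : j ∈ T) {K : Finset (Itm V)}
    (hK : K ⊆ (T.erase z).biUnion fun x => pkf (B x) (Ps x))
    (hk : ∀ u ∈ K, ikp (tlo G T hm) z u ≠ 0)
    {X : Finset V → Finset V} (hX : ∀ Q, X Q ⊆ oth (tlo G T hm) z Q) {A : Finset V}
    {D : V → Finset V} {d : ℕ} (hA : A ⊆ cz G Z T hm z)
    (hD : ∀ a ∈ A, D a ⊆ cz G Z T hm j ∧ d ≤ (D a).card ∧ ∀ c ∈ D a, G.Adj a c) :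
    PayS G Z T hm B Ps B1 P1 XC K X z j
      (max 0 ((A.card : ℤ) - (XC.card + (pcs (tlo G T hm) B1 j).card))
        * max 0 ((d : ℤ)
          - ∑ u ∈ K, (if u ∈ pkf (B j) (Ps j) then (ipc u : ℤ) else 0))) := by
  obtain ⟨F, hF⟩ : ∃ F, F = (cz G Z T hm z \ XC) \ (pcs (tlo G T hm) B1 j).image Prod.snd :=
    ⟨_, rfl⟩
  obtain ⟨Y, hY⟩ : ∃ Y, Y = cz G Z T hm j \ K.biUnion (rpts (tlo G T hm) X z) := ⟨_, rfl⟩
  obtain ⟨A', hA'⟩ : ∃ A', A' = A \ (XC ∪ (pcs (tlo G T hm) B1 j).image Prod.snd) := ⟨_, rfl⟩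
  unfold PayS
  rw [← hF, ← hY]
  have h2 : (0 : ℤ) ≤ ∑ v ∈ (K.filter fun u => u ∈ pkf (B j) (Ps j)).biUnion
      (rpts (tlo G T hm) X z) \ cz G Z T hm j, (dg G (keepH B1 P1) v : ℤ) :=
    sum_nonneg fun _ _ => Nat.cast_nonneg _
  have h3 : ∑ c ∈ Y, (dg G F c : ℤ) = ∑ a ∈ F, (dg G Y a : ℤ) := by
    exact_mod_cast dg_comm (G := G) Y F
  have h4 : ∀ a ∈ A', max 0 ((d : ℤ)
      - ∑ u ∈ K, (if u ∈ pkf (B j) (Ps j) then (ipc u : ℤ) else 0)) ≤ (dg G Y a : ℤ) := by
    intro a ha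
    rw [hA'] at ha
    obtain ⟨e1, e2, e3⟩ := hD a (mem_sdiff.1 ha).1
    have e4 := h.outS_ge hpk hj hK hk hX e1
    have e5 : D a \ K.biUnion (rpts (tlo G T hm) X z) ⊆ Y.filter fun w => G.Adj a w := by
      intro c hc
      obtain ⟨c1, c2⟩ := mem_sdiff.1 hc
      exact mem_filter.2 ⟨hY ▸ mem_sdiff.2 ⟨e1 c1, c2⟩, e3 c c1⟩
    have e6 : ((D a \ K.biUnion (rpts (tlo G T hm) X z)).card : ℤ) ≤ (dg G Y a : ℤ) := by
      exact_mod_cast card_le_card e5
    have e7 : (d : ℤ) ≤ ((D a).card : ℤ) := by exact_mod_cast e2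
    exact (max_le_max le_rfl (sub_le_sub_right e7 _)).trans (e4.trans e6)
  have h5 : A' ⊆ F := by
    intro a ha
    rw [hA'] at ha
    obtain ⟨a1, a2⟩ := mem_sdiff.1 ha
    rw [mem_union, not_or] at a2
    rw [hF]
    exact mem_sdiff.2 ⟨mem_sdiff.2 ⟨hA a1, a2.1⟩, a2.2⟩
  have h6 : ∑ a ∈ A', (dg G Y a : ℤ) ≤ ∑ a ∈ F, (dg G Y a : ℤ) :=
    sum_le_sum_of_subset_of_nonneg h5 fun _ _ _ => Nat.cast_nonneg _
  have h7 := card_nsmul_le_sum A' (fun a => (dg G Y a : ℤ)) _ h4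
  rw [nsmul_eq_mul] at h7
  have a1 := card_sdiff_ge A (XC ∪ (pcs (tlo G T hm) B1 j).image Prod.snd)
    (q := (XC.card : ℤ) + (pcs (tlo G T hm) B1 j).card) (by
      have h1 := card_union_le XC ((pcs (tlo G T hm) B1 j).image Prod.snd)
      have h2 : ((pcs (tlo G T hm) B1 j).image Prod.snd).card ≤ (pcs (tlo G T hm) B1 j).card :=
        card_image_le
      have h3 := h1.trans (Nat.add_le_add_left h2 _)
      exact_mod_cast h3)
  rw [← hA'] at a1
  have h8 := mul_le_mul_of_nonneg_right a1 (le_max_left 0 ((d : ℤ)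
      - ∑ u ∈ K, (if u ∈ pkf (B j) (Ps j) then (ipc u : ℤ) else 0)))
  linarith

/-- **a fibred set of class edges** over the class of `j` -/
theorem WHom.payS_fib' (h : WHom G Z T r m n hm)
    (hpk : ∀ x ∈ T, Pk G (cz G Z T hm x) (hz G Z T hm x) (tlo G T hm) (B x) (Ps x))
    {z j : V} (hj : j ∈ T) {K : Finset (Itm V)}
    (hK : K ⊆ (T.erase z).biUnion fun x => pkf (B x) (Ps x))
    (hk : ∀ u ∈ K, ikp (tlo G T hm) z u ≠ 0)
    {X : Finset V → Finset V} (hX : ∀ Q, X Q ⊆ oth (tlo G T hm) z Q) {A : Finset V}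
    {D : V → Finset V} {d : ℕ} (hA : A ⊆ cz G Z T hm j)
    (hD : ∀ c ∈ A, D c ⊆ cz G Z T hm z ∧ d ≤ (D c).card ∧ ∀ a ∈ D c, G.Adj c a) :
    PayS G Z T hm B Ps B1 P1 XC K X z j
      (max 0 ((d : ℤ) - (XC.card + (pcs (tlo G T hm) B1 j).card))
        * max 0 ((A.card : ℤ)
          - ∑ u ∈ K, (if u ∈ pkf (B j) (Ps j) then (ipc u : ℤ) else 0))) := by
  obtain ⟨F, hF⟩ : ∃ F, F = (cz G Z T hm z \ XC) \ (pcs (tlo G T hm) B1 j).image Prod.snd :=
    ⟨_, rfl⟩
  obtain ⟨Y, hY⟩ : ∃ Y, Y = cz G Z T hm j \ K.biUnion (rpts (tlo G T hm) X z) := ⟨_, rfl⟩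
  obtain ⟨A', hA'⟩ : ∃ A', A' = A \ K.biUnion (rpts (tlo G T hm) X z) := ⟨_, rfl⟩
  unfold PayS
  rw [← hF, ← hY]
  have h2 : (0 : ℤ) ≤ ∑ v ∈ (K.filter fun u => u ∈ pkf (B j) (Ps j)).biUnion
      (rpts (tlo G T hm) X z) \ cz G Z T hm j, (dg G (keepH B1 P1) v : ℤ) :=
    sum_nonneg fun _ _ => Nat.cast_nonneg _
  have h4 : ∀ c ∈ A', max 0 ((d : ℤ) - (XC.card + (pcs (tlo G T hm) B1 j).card))
      ≤ (dg G F c : ℤ) := by
    intro c hc
    rw [hA'] at hc
    obtain ⟨e1, e2, e3⟩ := hD c (mem_sdiff.1 hc).1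
    have e4 := card_sdiff_ge (D c) (XC ∪ (pcs (tlo G T hm) B1 j).image Prod.snd)
      (q := (XC.card : ℤ) + (pcs (tlo G T hm) B1 j).card) (by
        have h1 := card_union_le XC ((pcs (tlo G T hm) B1 j).image Prod.snd)
        have h2 : ((pcs (tlo G T hm) B1 j).image Prod.snd).card
            ≤ (pcs (tlo G T hm) B1 j).card := card_image_le
        have h3 := h1.trans (Nat.add_le_add_left h2 _)
        exact_mod_cast h3)
    have e5 : D c \ (XC ∪ (pcs (tlo G T hm) B1 j).image Prod.snd)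
        ⊆ F.filter fun w => G.Adj c w := by
      intro a ha
      obtain ⟨a1, a2⟩ := mem_sdiff.1 ha
      rw [mem_union, not_or] at a2
      exact mem_filter.2 ⟨hF ▸ mem_sdiff.2 ⟨mem_sdiff.2 ⟨e1 a1, a2.1⟩, a2.2⟩, e3 a a1⟩
    have e6 : ((D c \ (XC ∪ (pcs (tlo G T hm) B1 j).image Prod.snd)).card : ℤ)
        ≤ (dg G F c : ℤ) := by exact_mod_cast card_le_card e5
    have e7 : (d : ℤ) ≤ ((D c).card : ℤ) := by exact_mod_cast e2
    exact (max_le_max le_rfl (sub_le_sub_right e7 _)).trans (e4.trans e6)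
  have h5 : A' ⊆ Y := by
    rw [hA', hY]
    exact sdiff_subset_sdiff hA subset_rfl
  have h6 : ∑ c ∈ A', (dg G F c : ℤ) ≤ ∑ c ∈ Y, (dg G F c : ℤ) :=
    sum_le_sum_of_subset_of_nonneg h5 fun _ _ _ => Nat.cast_nonneg _
  have h7 := card_nsmul_le_sum A' (fun c => (dg G F c : ℤ)) _ h4
  rw [nsmul_eq_mul] at h7
  have a1 := h.outS_ge hpk hj hK hk hX hA
  rw [← hA'] at a1
  have h8 := mul_le_mul_of_nonneg_right a1
    (le_max_left 0 ((d : ℤ) - (XC.card + (pcs (tlo G T hm) B1 j).card)))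
  rw [mul_comm]
  linarith

/-- **the rectangle of the misses `imn` of any item** -/
theorem WHom.payS_item_mn (h : WHom G Z T r m n hm)
    (hpk : ∀ x ∈ T, Pk G (cz G Z T hm x) (hz G Z T hm x) (tlo G T hm) (B x) (Ps x))
    {z j : V} (hj : j ∈ T) (hzj : z ≠ j) {K : Finset (Itm V)}
    (hK : K ⊆ (T.erase z).biUnion fun x => pkf (B x) (Ps x))
    (hk : ∀ u ∈ K, ikp (tlo G T hm) z u ≠ 0)
    {X : Finset V → Finset V} (hX : ∀ Q, X Q ⊆ oth (tlo G T hm) z Q)
    {w : Itm V} {x' : V} (hx' : x' ∈ T) (hw : w ∈ pkf (B x') (Ps x')) :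
    PayS G Z T hm B Ps B1 P1 XC K X z j
      (max 0 ((imn G (cz G Z T hm) (tlo G T hm) z w : ℤ)
          - (XC.card + (pcs (tlo G T hm) B1 j).card))
        * max 0 ((imn G (cz G Z T hm) (tlo G T hm) j w : ℤ)
          - ∑ u ∈ K, (if u ∈ pkf (B j) (Ps j) then (ipc u : ℤ) else 0))) := by
  have hfam : ∀ x ∈ T, Fam (co G) (cz G Z T hm) (hz G Z T hm) (tlo G T hm) x
      (pkf (B x) (Ps x)) := fun x hx => (hpk x hx).fam (h.csys.dCH hx hx).symm
  have hq : (0 : ℤ) ≤ ∑ u ∈ K, (if u ∈ pkf (B j) (Ps j) then (ipc u : ℤ) else 0) :=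
    sum_nonneg fun u _ => by split_ifs <;> positivity
  by_cases hkz : ikp (tlo G T hm) z w = 0
  · have h1 := imn_load (G := G) (C := cz G Z T hm) (tl := tlo G T hm) (z := z) (u := w)
    rw [hkz, zero_mul] at h1
    have h2 : (imn G (cz G Z T hm) (tlo G T hm) z w : ℤ) = 0 := by
      exact_mod_cast Nat.le_zero.1 h1
    rw [h2, max_eq_left (by
      have : (0 : ℤ) ≤ (XC.card : ℤ) + (pcs (tlo G T hm) B1 j).card := by positivity
      linarith), zero_mul]
    exact payS_zero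
  by_cases hkj : ikp (tlo G T hm) j w = 0
  · have h1 := imn_load (G := G) (C := cz G Z T hm) (tl := tlo G T hm) (z := j) (u := w)
    rw [hkj, zero_mul] at h1
    have h2 : (imn G (cz G Z T hm) (tlo G T hm) j w : ℤ) = 0 := by
      exact_mod_cast Nat.le_zero.1 h1
    rw [h2, max_eq_left (b := 0 - _) (by linarith), mul_zero]
    exact payS_zero
  rcases w with Q | e
  · have hf := hfam x' hx'
    have hQ2 := hf.two Q hw
    -- the tails
    have hne : ∀ z' : V, ikp (tlo G T hm) z' (Sum.inl Q) ≠ 0 → ∃ v ∈ Q, tlo G T hm v = z' := by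
      intro z' hk'
      by_contra hcon
      push Not at hcon
      have h1 : tlp (tlo G T hm) Q z' = ∅ := by
        unfold tlp
        rw [filter_eq_empty_iff]
        exact fun v hv => hcon v hv
      have h2 : tlp (tlo G T hm) Q z' ≠ Q := by
        rw [h1]
        rintro rfl
        simp at hQ2
      have h3 : ikp (tlo G T hm) z' (Sum.inl Q) = (tlp (tlo G T hm) Q z').card := by
        simp only [ikp, h2, if_false]
      exact hk' (by rw [h3, h1, card_empty])
    obtain ⟨v, hv, hvj⟩ := hne j hkj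
    obtain ⟨w, hw', hwz⟩ := hne z hkz
    rcases hf.two_one h.F.toPFrame h.hh h.csys hx' hw hzj hv hvj hw' hwz with h1 | h1
    · obtain ⟨D, hD⟩ := hf.fib h.wsysT hx' hw hzj hv hvj h1
      refine (h.payS_fib hpk hj hK hk hX (A := dcl G (cz G Z T hm) (tlo G T hm) z Q v)
        (filter_subset _ _) hD).mono ?_
      have h2 : (imn G (cz G Z T hm) (tlo G T hm) z (Sum.inl Q) : ℤ)
          ≤ ((dcl G (cz G Z T hm) (tlo G T hm) z Q v).card : ℤ) := by
        exact_mod_cast imn_le_dcl hv fun h3 => hzj (h3.symm.trans hvj)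
      exact mul_le_mul_of_nonneg_right (max_le_max le_rfl (sub_le_sub_right h2 _))
        (le_max_left _ _)
    · obtain ⟨D, hD⟩ := hf.fib h.wsysT hx' hw hzj.symm hw' hwz h1
      refine (h.payS_fib' hpk hj hK hk hX (A := dcl G (cz G Z T hm) (tlo G T hm) j Q w)
        (filter_subset _ _) hD).mono ?_
      have h2 : (imn G (cz G Z T hm) (tlo G T hm) j (Sum.inl Q) : ℤ)
          ≤ ((dcl G (cz G Z T hm) (tlo G T hm) j Q w).card : ℤ) := by
        exact_mod_cast imn_le_dcl hw' fun h3 => hzj (hwz.symm.trans h3)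
      exact mul_le_mul_of_nonneg_left (max_le_max le_rfl (sub_le_sub_right h2 _))
        (le_max_left _ _)
  · have h0 : imn G (cz G Z T hm) (tlo G T hm) z (Sum.inr e) = 0 := imn_pc
    have h1 : (imn G (cz G Z T hm) (tlo G T hm) z (Sum.inr e) : ℤ) = 0 := by
      rw [h0]
      rfl
    rw [h1, max_eq_left (by
      have : (0 : ℤ) ≤ (XC.card : ℤ) + (pcs (tlo G T hm) B1 j).card := by positivity
      linarith), zero_mul]
    exact payS_zero

end PayMn

end Pool.Agent.Lib.MP_f04ccf_co
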