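import Pool.Agent.Lib.MP_f04ccf_co.M.FalP
import Pool.Agent.Lib.MP_f04ccf_co.M.CapC
import Pool.Agent.Lib.MP_f04ccf_co.M.ConcF

/-!
MP_f04ccf_co, TEXT D, **the last step over the contract `PConC`** (concentrated packings).

* `WItC.pconC`: the contract from a world of version [C] whose packings maximise `sqf`;
* `PureNoC.wcoreK`, `good_of_pureC`: the statement at `r` from `PureNoC (r - 1)`;
* `final_of_partsC`: finite part one by one, the middle range by `NoItU` or `PureNoC`, the rest by `PureNoC`;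
* `pureNoC_of_LH`: `PureNoC` from the two regimes.
-/

set_option autoImplicit false

namespace Pool.Agent.Lib.MP_f04ccf_co

open Finset

attribute [local instance] Classical.propDecidable

section TransC

variable {V : Type*} {G : SimpleGraph V} {Z T : Finset V} {hm : V → V} {r m n p : ℕ}
  {B : V → Finset (V × V)} {Ps : V → Finset (Finset V)} {host : Itm V → V} {ρ : V → ℕ} {σ : ℕ → V}

/-- **the contract from a world of version [C], concentrated packings** -/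
theorem WItC.pconC (hp : 2 * r ≤ p) (h : WCoreK G Z T r m n p hm)
    (H : WItC G Z T hm r n sqf B Ps host ρ σ) :
    PConC ((r : ℤ) - 1) n (fun i => tI G Z T hm r Z (σ i)) (fun i => sI hm r Z (σ i))
      (fun i => ∑ u ∈ pkf (B (σ i)) (Ps (σ i)), (ivl u : ℤ))
      (T.biUnion fun x => pkf (B x) (Ps x)) (fun u => ρ (host u)) (fun u => (ivl u : ℤ))
      (fun i u => (ikp (tlo G T hm) (σ i) u : ℤ))
      (fun i u => (imn G (cz G Z T hm) (tlo G T hm) (σ i) u : ℤ)) (fun u => (ipc u : ℤ))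
      (fun u => (iar G (cz G Z T hm (host u)) u : ℤ))
      (fun i j => pcn (tlo G T hm) B (σ i) (σ j)) (fun i j => kqw G Z T hm B (σ i) (σ j))
      (fun i j => nxw G Z T hm B (σ i) (σ j)) (fun i j => ssw G T hm Ps (σ i) (σ j))
      (fun j u => (nui G (cz G Z T hm (host u)) (tlo G T hm) (B (host u)) (σ j) u : ℤ)) where
  toPCon := H.pconU hp h
  capC := WItC.cap2 hp h H
  capMC := WItC.capMP2 hp h H
  tTc := H.fldT h
  tPc := H.fldP hp h
  tXc := H.fldX h

end TransC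

section FalC

/-- no world from the absence of data of the contract -/
lemma PureNoC.wcoreK {r m n : ℕ} {G : SimpleGraph (Fin (r ^ 2 + 1))}
    {Z T : Finset (Fin (r ^ 2 + 1))} {hm : Fin (r ^ 2 + 1) → Fin (r ^ 2 + 1)}
    (hS : PureNoC ((r : ℤ) - 1)) : ¬ WCoreK G Z T r m n (2 * r) hm := by
  intro h
  obtain ⟨B, Ps, host, ρ, σ, B', Ps', host', H, H', h1, h2⟩ :=
    h.exists_both le_rfl (fun _ _ => 0) sqf
  exact hS _ _ _ _ _ _ _ _ _ _ _ _ _ _ _ _ _ (H'.pconC le_rfl h)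

/-- **the statement at `r` from the absence of data of the contract over `r - 1`** -/
theorem good_of_pureC (r : ℕ) (hr : 9 ≤ r) (hS : PureNoC ((r : ℤ) - 1)) : Good r (r ^ 2 + 1) :=
  good_of_wcoreK r (2 * r) hr fun _ _ _ _ _ _ => hS.wcoreK

/-- **three parts**: `10 ≤ r < M` one by one, `M ≤ R + 1 < N` (the items or the contract),
`N ≤ R + 1` (the contract) -/
theorem final_of_partsC (M N : ℕ) (hM : 10 ≤ M)
    (h1 : ∀ r : ℕ, 10 ≤ r → r < M → Good r (r ^ 2 + 1))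
    (h2 : ∀ R : ℤ, (M : ℤ) ≤ R + 1 → R + 1 < (N : ℤ) → NoItU R ∨ PureNoC R)
    (h3 : ∀ R : ℤ, (N : ℤ) ≤ R + 1 → PureNoC R) :
    ∀ r : ℕ, 3 ≤ r → ∀ c : Fin (r ^ 2 + 1) → Fin (r ^ 2 + 1) → Fin r,
      (∀ x y, c x y = c y x) →
      ∃ S : Finset (Fin (r ^ 2 + 1)), S.card = r + 1 ∧
        ∃ k : Fin r, ∀ x ∈ S, ∀ y ∈ S, x ≠ y → c x y ≠ k := by
  refine final_of_good fun r hr => ?_
  rcases Nat.lt_or_ge r M with h4 | h4
  · exact h1 r hr h4
  · have h5 : (M : ℤ) ≤ (r : ℤ) - 1 + 1 := by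
      have : (M : ℤ) ≤ r := by exact_mod_cast h4
      linarith
    rcases lt_or_ge ((r : ℤ) - 1 + 1) (N : ℤ) with h6 | h6
    · rcases h2 _ h5 h6 with h7 | h7
      · exact good_of_noitU r (by omega) h7
      · exact good_of_pureC r (by omega) h7
    · exact good_of_pureC r (by omega) (h3 _ h6)

/-- **`PureNoC` regime by regime**: `A_1 ≤ R/2` (regime L), `A_1 > R/2` (regime H) -/
theorem pureNoC_of_LH {R : ℤ}
    (hL : ∀ (ι : Type) (n : ℕ) (t s mu : ℕ → ℤ) (U : Finset ι) (ho : ι → ℕ) (vl : ι → ℤ)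
      (kp mn : ℕ → ι → ℤ) (pc ar : ι → ℤ) (be kq NN sg : ℕ → ℕ → ℤ) (nu : ℕ → ι → ℤ),
      PConC R n t s mu U ho vl kp mn pc ar be kq NN sg nu → 2 * (t 0 + 1) ≤ R → False)
    (hH : ∀ (ι : Type) (n : ℕ) (t s mu : ℕ → ℤ) (U : Finset ι) (ho : ι → ℕ) (vl : ι → ℤ)
      (kp mn : ℕ → ι → ℤ) (pc ar : ι → ℤ) (be kq NN sg : ℕ → ℕ → ℤ) (nu : ℕ → ι → ℤ),
      PConC R n t s mu U ho vl kp mn pc ar be kq NN sg nu → R < 2 * (t 0 + 1) → False) :
    PureNoC R := by
  intro ι n t s mu U ho vl kp mn pc ar be kq NN sg nu H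
  rcases le_or_gt (2 * (t 0 + 1)) R with h1 | h1
  · exact hL ι n t s mu U ho vl kp mn pc ar be kq NN sg nu H h1
  · exact hH ι n t s mu U ho vl kp mn pc ar be kq NN sg nu H h1

end FalC

end Pool.Agent.Lib.MP_f04ccf_co
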