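import Pool.Agent.Lib.MP_f04ccf_co.M.ClosM5

/-!
MP_f04ccf_co, TEXT D, regime L: **the closing of table L6** (factor `1 - ρ m u * b` of the main end `m` of a unit of the
item `u`, so that cliques may have their own factor).

* `rnHr`, `rnSr`: the weighted misses of the hosted and of the served units of a cell; `LevC.rnHl_r`, `LevC.rnSl_r`;
* `fL6`, `rL6`: the factor of table L6 (`0` for `2 A³ < R`, `3/2` up to `R / 8`, `2 (1 - 4 A / R)` up to `R / 4`, then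
  `0`; value at least two: at most `fc`); `rL6_nonneg`, `LevC.rL6_le`;
* `fLc`, `rL6c`, `LevC.rL6c_le`, `LevC.rL6c_host`: the same with the full ramp for the cliques;
* `LevC.close_M6`: only the rows with `R ≤ 2 A³` have a claim, and its sum runs over the cells with `R ≤ 2 B³`.
-/

set_option autoImplicit false

namespace Pool.Agent.Lib.MP_f04ccf_co

open Finset

attribute [local instance] Classical.propDecidable

section ClosM6

variable {ι : Type*} {R : ℤ} {n : ℕ} {t s mu : ℕ → ℤ} {U : Finset ι} {ho : ι → ℕ} {vl : ι → ℤ}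
  {kp mn : ℕ → ι → ℤ} {pc ar : ι → ℤ} {be kq NN sg : ℕ → ℕ → ℤ} {nu : ℕ → ι → ℤ} {z y : ℕ}
  {φ : ι → ℕ → ℤ} {g : ℕ → ι → ℕ} {f : ι → ℕ}

/-- the weighted misses of the hosted units of the cell `{z, y}` -/
noncomputable def rnHr (U : Finset ι) (ho : ι → ℕ) (vl : ι → ℤ) (kp mn : ℕ → ι → ℤ) (pc : ι → ℤ)
    (g : ℕ → ι → ℕ) (ρ : ℕ → ι → ℝ) (z y : ℕ) : ℝ :=
  ∑ u ∈ rnM U ho vl pc g z y, ρ y u * (mn y u : ℝ)
    + ∑ u ∈ (rnC U ho vl pc z).filter (fun u => g y u ≠ 0), ρ y u * (msP kp mn y (g y) u : ℝ)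

/-- the weighted misses of the served units of the cell `{z, y}` -/
noncomputable def rnSr (U : Finset ι) (ho : ι → ℕ) (kp mn : ℕ → ι → ℤ) (pc : ι → ℤ)
    (g : ℕ → ι → ℕ) (ρ : ℕ → ι → ℝ) (z y : ℕ) : ℝ :=
  ∑ u ∈ rnK U ho pc g z y, ρ z u * (msP kp mn z (g z) u : ℝ)

/-- the misses of the units of an item, weighted -/
lemma unb_sumR (g : ℕ → ι → ℕ) (r : ℝ) (u : ι) (i : ℕ) :
    ∑ j ∈ range (g i u), r * (unb kp mn g (u, i, j) : ℝ)
      = if g i u = 0 then 0 else r * (msP kp mn i (g i) u : ℝ) := by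
  rw [← mul_sum]
  have h1 := unb_sum (kp := kp) (mn := mn) g u i
  have h2 : ∑ j ∈ range (g i u), (unb kp mn g (u, i, j) : ℝ)
      = (((if g i u = 0 then 0 else msP kp mn i (g i) u : ℤ)) : ℝ) := by
    rw [← h1]
    push_cast
    rfl
  rw [h2]
  split_ifs
  · simp
  · rfl

/-- **the weighted misses of the hosted units of a cell** -/
theorem LevC.rnHl_r (C : LevC n U ho vl kp mn pc φ g f)
    (H : PCon R n t s mu U ho vl kp mn pc ar be kq NN sg nu) (hy : y < n) (ρ : ℕ → ι → ℝ)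
    (z : ℕ) :
    rnHl n U ho g (fun v => 1 - ρ v.2.1 v.1 * (unb kp mn g v : ℝ)) z y
      = rnHr U ho vl kp mn pc g ρ z y := by
  have h1 := unit_fib (M := ℝ) (C.two H) (filter_subset (fun u => ho u = z) U) hy
    fun v => ρ y v.1 * (unb kp mn g v : ℝ)
  have h2 : (unV n U g).filter (fun v => v.1 ∈ U.filter (fun u => ho u = z) ∧ v.2.1 = y)
      = (unV n U g).filter fun v => ho v.1 = z ∧ v.2.1 = y := by
    refine filter_congr fun v hv => ?_
    rw [mem_filter]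
    exact ⟨fun h => ⟨h.1.2, h.2⟩, fun h => ⟨⟨(LevC.mem_unV hv).1, h.1⟩, h.2⟩⟩
  rw [h2] at h1
  unfold rnHl rnHr
  have h0 : ∑ v ∈ (unV n U g).filter (fun v => ho v.1 = z ∧ v.2.1 = y),
      (1 - (fun v : ι × ℕ × ℕ => 1 - ρ v.2.1 v.1 * (unb kp mn g v : ℝ)) v)
      = ∑ v ∈ (unV n U g).filter (fun v => ho v.1 = z ∧ v.2.1 = y),
        ρ y v.1 * (unb kp mn g v : ℝ) := by
    refine sum_congr rfl fun v hv => ?_
    beta_reduce
    rw [(mem_filter.1 hv).2.2]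
    ring
  rw [h0, h1, sum_congr rfl fun u _ => unb_sumR (kp := kp) (mn := mn) g (ρ y u) u y]
  have e1 : rnM U ho vl pc g z y ⊆ U.filter fun u => ho u = z := fun u hu => by
    obtain ⟨h3, h4, -⟩ := mem_filter.1 hu
    exact mem_filter.2 ⟨h3, h4⟩
  have e2 : (rnC U ho vl pc z).filter (fun u => g y u ≠ 0)
      ⊆ (U.filter fun u => ho u = z) \ rnM U ho vl pc g z y := fun u hu => by
    obtain ⟨h3, h4, h5, h6⟩ := mem_filter.1 (mem_filter.1 hu).1
    exact mem_sdiff.2 ⟨mem_filter.2 ⟨h3, h4⟩, fun h7 => h6 (mem_filter.1 h7).2.2.2.1⟩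
  rw [← sum_sdiff e1, add_comm]
  congr 1
  · refine sum_congr rfl fun u hu => ?_
    obtain ⟨h3, h4, h5, h6, h7⟩ := mem_filter.1 hu
    rw [h7, if_neg one_ne_zero]
    unfold msP
    have h9 := H.kv u h3 y hy
    rw [if_pos]
    rw [h7, Nat.cast_one]
    rw [h6] at h9
    exact h9
  · refine (sum_subset e2 fun u hu hu' => ?_).symm.trans ?_
    · obtain ⟨h3, h4⟩ := mem_sdiff.1 hu
      obtain ⟨h5, h6⟩ := mem_filter.1 h3
      by_cases h7 : g y u = 0
      · rw [if_pos h7]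
      · rw [if_neg h7]
        rcases C.typ u h5 with ⟨h8, h9, h10, h11, h12⟩ | ⟨h8, -⟩
        · have h13 : y = f u := by
            by_contra h14
            have h15 := C.le u h5 y hy
            rw [h12 y hy h14] at h15
            omega
          unfold msP
          rw [h13, h11]
          simp
        · exfalso
          by_cases h9 : vl u = 1
          · rcases C.lev01 H h5 h9 hy with h10 | h10
            · exact h7 h10
            · exact h4 (mem_filter.2 ⟨h5, h6, h8, h9, h10⟩)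
          · exact hu' (mem_filter.2 ⟨mem_filter.2 ⟨h5, h6, h8, h9⟩, h7⟩)
    · exact sum_congr rfl fun u hu => by rw [if_neg (mem_filter.1 hu).2]

/-- **the weighted misses of the served units of a cell** -/
theorem LevC.rnSl_r (C : LevC n U ho vl kp mn pc φ g f)
    (H : PCon R n t s mu U ho vl kp mn pc ar be kq NN sg nu) (hz : z < n) (ρ : ℕ → ι → ℝ)
    (y : ℕ) :
    rnSl n U ho g (fun v => 1 - ρ v.2.1 v.1 * (unb kp mn g v : ℝ)) z y
      = rnSr U ho kp mn pc g ρ z y := by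
  have h1 := unit_fib (M := ℝ) (C.two H) (filter_subset (fun u => ho u = y) U) hz
    fun v => ρ z v.1 * (unb kp mn g v : ℝ)
  have h2 : (unV n U g).filter (fun v => v.1 ∈ U.filter (fun u => ho u = y) ∧ v.2.1 = z)
      = (unV n U g).filter fun v => ho v.1 = y ∧ v.2.1 = z := by
    refine filter_congr fun v hv => ?_
    rw [mem_filter]
    exact ⟨fun h => ⟨h.1.2, h.2⟩, fun h => ⟨⟨(LevC.mem_unV hv).1, h.1⟩, h.2⟩⟩
  rw [h2] at h1
  unfold rnSl rnSr
  have h0 : ∑ v ∈ (unV n U g).filter (fun v => ho v.1 = y ∧ v.2.1 = z),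
      (1 - (fun v : ι × ℕ × ℕ => 1 - ρ v.2.1 v.1 * (unb kp mn g v : ℝ)) v)
      = ∑ v ∈ (unV n U g).filter (fun v => ho v.1 = y ∧ v.2.1 = z),
        ρ z v.1 * (unb kp mn g v : ℝ) := by
    refine sum_congr rfl fun v hv => ?_
    beta_reduce
    rw [(mem_filter.1 hv).2.2]
    ring
  rw [h0, h1, sum_congr rfl fun u _ => unb_sumR (kp := kp) (mn := mn) g (ρ z u) u z]
  have e1 : rnK U ho pc g z y ⊆ U.filter fun u => ho u = y := fun u hu => by
    obtain ⟨h3, h4, -⟩ := mem_filter.1 hu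
    exact mem_filter.2 ⟨h3, h4⟩
  refine (sum_subset e1 fun u hu hu' => ?_).symm.trans ?_
  · obtain ⟨h5, h6⟩ := mem_filter.1 hu
    by_cases h7 : g z u = 0
    · rw [if_pos h7]
    · rw [if_neg h7]
      rcases C.typ u h5 with ⟨h8, h9, h10, h11, h12⟩ | ⟨h8, -⟩
      · have h13 : z = f u := by
          by_contra h14
          have h15 := C.le u h5 z hz
          rw [h12 z hz h14] at h15
          omega
        unfold msP
        rw [h13, h11]
        simp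
      · exact absurd (mem_filter.2 ⟨h5, h6, h8, h7⟩) hu'
  · exact sum_congr rfl fun u hu => by rw [if_neg (mem_filter.1 hu).2.2.2]

/-- **the row claim of table L6 in numbers** -/
def RowM6 (R : ℤ) (P : Finset ℕ) (A d : ℤ) (B e : ℕ → ℤ) (hr sr : ℕ → ℝ) : Prop :=
  ∑ y ∈ P, ((B y : ℝ) / ((A : ℝ) + B y) * (e y : ℝ)
      + ((1 - (B y : ℝ) / ((A : ℝ) + B y)) * hr y - (B y : ℝ) / ((A : ℝ) + B y) * sr y))
    ≤ (d : ℝ) + (A : ℝ) / ((R : ℝ) + 1)

/-- **REGIME L, TABLE L6, factor `1 - ρ m u * b`**: fewest misses at the main end; only the rows with `R ≤ 2 A³` have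
a claim, and its sum runs over the cells with `R ≤ 2 B³` -/
theorem LevC.close_M6 (Lv : LevC n U ho vl kp mn pc (fun u i => mn i u) g f)
    (H : PCon R n t s mu U ho vl kp mn pc ar be kq NN sg nu) (hR : 65 ≤ R)
    (hA : ∀ i < n, 2 * (t i + 1) ≤ R) {ρ : ℕ → ι → ℝ} (hρ : ∀ y < n, ∀ u ∈ U, 0 ≤ ρ y u)
    (hρ1 : ∀ v ∈ unV n U g, ρ v.2.1 v.1 * (unb kp mn g v : ℝ) ≤ 1)
    (h2 : ∀ z < n, R ≤ 2 * (t z + 1) ^ 3 →
      mu z - s z + 1 ≤ ∑ y ∈ (range n).erase z, rnE U ho vl pc be g z y →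
      RowM6 R (((range n).erase z).filter fun y => R ≤ 2 * (t y + 1) ^ 3) (t z + 1)
        (mu z - s z) (fun y => t y + 1) (rnE U ho vl pc be g z)
        (rnHr U ho vl kp mn pc g ρ z) (rnSr U ho kp mn pc g ρ z)) : False := by
  refine Lv.close_theta5 H (fun v => 1 - ρ v.2.1 v.1 * (unb kp mn g v : ℝ)) rfl ?_
    (H.sum_A_lt _)
  intro z hz hzL hz1
  have hz3 : ∀ y < n, y ∉ lightU n s (unV n U g) (fun v => {v.2.1}) → R ≤ 2 * (t y + 1) ^ 3 := by
    intro y hy hyL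
    by_contra hcon
    push Not at hcon
    exact hyL (Lv.light5 H hR hA hy hcon)
  have h4 := h2 z hz (hz3 z hz hzL) hz1
  unfold RowM6 at h4
  push_cast at h4
  have hθ : ∀ v ∈ unV n U g, 0 ≤ 1 - ρ v.2.1 v.1 * (unb kp mn g v : ℝ)
      ∧ 1 - ρ v.2.1 v.1 * (unb kp mn g v : ℝ) ≤ 1 := fun v hv => by
    have h5 : (0 : ℝ) ≤ unb kp mn g v := by exact_mod_cast LevC.unb_nonneg H hv
    have h6 := hρ _ (LevC.mem_unV hv).2.1 _ (LevC.mem_unV hv).1
    exact ⟨by linarith [hρ1 v hv], by nlinarith [mul_nonneg h6 h5]⟩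
  have hw : ∀ y < n, (0 : ℝ) ≤ ((t y : ℝ) + 1) / ((t z : ℝ) + 1 + ((t y : ℝ) + 1))
      ∧ ((t y : ℝ) + 1) / ((t z : ℝ) + 1 + ((t y : ℝ) + 1)) ≤ 1 := fun y hy => by
    have h6 : (0 : ℝ) ≤ t z := by exact_mod_cast H.t0 z hz
    have h7 : (0 : ℝ) ≤ t y := by exact_mod_cast H.t0 y hy
    refine ⟨by positivity, ?_⟩
    rw [div_le_one (by positivity)]
    linarith
  refine le_trans ?_ h4
  refine (sum_le_sum_of_subset_of_nonneg
    (t := ((range n).erase z).filter fun y => R ≤ 2 * (t y + 1) ^ 3) ?_ fun y hy _ => ?_).trans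
    (le_of_eq (sum_congr rfl fun y hy => ?_))
  · intro y hy
    obtain ⟨h5, h6⟩ := mem_filter.1 hy
    exact mem_filter.2 ⟨h5, hz3 y (mem_range.1 (mem_of_mem_erase h5)) h6⟩
  · have hyn := mem_range.1 (mem_of_mem_erase (mem_filter.1 hy).1)
    exact Lv.cell_nonneg H hz hyn hθ (hw y hyn).1 (hw y hyn).2
  · have hyn := mem_range.1 (mem_of_mem_erase (mem_filter.1 hy).1)
    rw [Lv.rnHl_r H hyn ρ z, Lv.rnSl_r H hz ρ y]

/-! ### the factor of table L6 -/

/-- `f(A)` of table L6: `0` for `2 A³ < R`, `3/2` up to `R / 8`, `2 (1 - 4 A / R)` up to `R / 4`, then `0` -/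
noncomputable def fL6 (R A : ℤ) : ℝ :=
  if 2 * A ^ 3 < R then 0 else if 8 * A ≤ R then 3 / 2
    else if 4 * A ≤ R then 2 * (1 - 4 * (A : ℝ) / (R : ℝ)) else 0

lemma fL6_facts {A : ℤ} (hR : 0 < R) :
    0 ≤ fL6 R A ∧ fL6 R A ≤ 3 / 2 ∧ (R < 8 * A → fL6 R A ≤ 1) := by
  have h1 : (0 : ℝ) < R := by exact_mod_cast hR
  unfold fL6
  split_ifs with h2 h3 h4
  · exact ⟨le_rfl, by norm_num, fun _ => by norm_num⟩
  · exact ⟨by norm_num, le_rfl, fun h => absurd h (not_lt.2 h3)⟩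
  · push Not at h3
    have h5 : (4 : ℝ) * A ≤ R := by exact_mod_cast h4
    have h6 : (R : ℝ) < 8 * A := by exact_mod_cast h3
    have h7 : 4 * (A : ℝ) / (R : ℝ) ≤ 1 := (div_le_one h1).2 h5
    have h8 : 1 / 2 ≤ 4 * (A : ℝ) / (R : ℝ) := by
      rw [le_div_iff₀ h1]
      linarith
    exact ⟨by linarith, by linarith, fun _ => by linarith⟩
  · exact ⟨le_rfl, by norm_num, fun _ => by norm_num⟩

/-- the factor of a unit in table L6 over `R`; value at least two: at most `fc` -/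
noncomputable def rL6 (R : ℤ) (t : ℕ → ℤ) (vl : ι → ℤ) (fc : ℝ) (m : ℕ) (u : ι) : ℝ :=
  (if vl u = 1 then fL6 R (t m + 1) else min (fL6 R (t m + 1)) fc) / (R : ℝ)

lemma rL6_nonneg {fc : ℝ} (hR : 0 < R) (hf : 0 ≤ fc) (m : ℕ) (u : ι) : 0 ≤ rL6 R t vl fc m u := by
  have h1 : (0 : ℝ) < R := by exact_mod_cast hR
  have h2 := fL6_facts (R := R) (A := t m + 1) hR
  unfold rL6
  refine div_nonneg ?_ h1.le
  split_ifs
  · exact h2.1
  · exact le_min h2.1 hf

/-- **the factors are not negative** -/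
lemma LevC.rL6_le (Lv : LevC n U ho vl kp mn pc (fun u i => mn i u) g f)
    (H : PCon R n t s mu U ho vl kp mn pc ar be kq NN sg nu) {fc : ℝ}
    (h2 : ∀ i < n, 2 * t i ≤ R) {v : ι × ℕ × ℕ} (hv : v ∈ unV n U g) :
    rL6 R t vl fc v.2.1 v.1 * (unb kp mn g v : ℝ) ≤ 1 := by
  have hR := R_pos H
  have hR' : (0 : ℝ) < R := by exact_mod_cast hR
  obtain ⟨h3, h4, h5⟩ := fL6_facts (R := R) (A := t v.2.1 + 1) hR
  have h6 : (0 : ℝ) ≤ unb kp mn g v := by exact_mod_cast LevC.unb_nonneg H hv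
  have h7 : rL6 R t vl fc v.2.1 v.1 ≤ fL6 R (t v.2.1 + 1) / (R : ℝ) := by
    unfold rL6
    refine (div_le_div_iff_of_pos_right hR').2 ?_
    split_ifs
    · exact le_rfl
    · exact min_le_left _ _
  have h8 : fL6 R (t v.2.1 + 1) / (R : ℝ) * (unb kp mn g v : ℝ) ≤ 1 := by
    rcases le_or_gt (8 * (t v.2.1 + 1)) R with h9 | h9
    · have h10 := Lv.rho32 H h2 hv
      rw [if_pos h9] at h10
      refine le_trans (mul_le_mul_of_nonneg_right ?_ h6) h10
      rw [div_le_div_iff₀ hR' (by positivity)]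
      nlinarith
    · have h10 := LevC.unb_le H hv
      have h11 := H.t0 _ (LevC.mem_unV hv).2.1
      have h12 : (unb kp mn g v : ℝ) ≤ R := by
        have : unb kp mn g v ≤ R := by linarith
        exact_mod_cast this
      rw [div_mul_eq_mul_div, div_le_one hR']
      nlinarith [h5 h9]
  exact (mul_le_mul_of_nonneg_right h7 h6).trans h8

/-! ### table L6 with the full ramp for the cliques -/

/-- **the sign of any factor** `F ≤ 3/2`, `F ≤ 1` for `8 A > R` -/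
lemma LevC.fac_le (Lv : LevC n U ho vl kp mn pc (fun u i => mn i u) g f)
    (H : PCon R n t s mu U ho vl kp mn pc ar be kq NN sg nu)
    (h2 : ∀ i < n, 2 * t i ≤ R) {v : ι × ℕ × ℕ} (hv : v ∈ unV n U g) {F : ℝ} (hF0 : 0 ≤ F)
    (hF1 : F ≤ 3 / 2) (hF2 : R < 8 * (t v.2.1 + 1) → F ≤ 1) :
    F / (R : ℝ) * (unb kp mn g v : ℝ) ≤ 1 := by
  have hR := R_pos H
  have hR' : (0 : ℝ) < R := by exact_mod_cast hR
  have h6 : (0 : ℝ) ≤ unb kp mn g v := by exact_mod_cast LevC.unb_nonneg H hv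
  rcases le_or_gt (8 * (t v.2.1 + 1)) R with h9 | h9
  · have h10 := Lv.rho32 H h2 hv
    rw [if_pos h9] at h10
    refine le_trans (mul_le_mul_of_nonneg_right ?_ h6) h10
    rw [div_le_div_iff₀ hR' (by positivity)]
    nlinarith
  · have h10 := LevC.unb_le H hv
    have h11 := H.t0 _ (LevC.mem_unV hv).2.1
    have h12 : (unb kp mn g v : ℝ) ≤ R := by
      have : unb kp mn g v ≤ R := by linarith
      exact_mod_cast this
    rw [div_mul_eq_mul_div, div_le_one hR']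
    nlinarith [hF2 h9]

/-- the factor for value at least two: `min (3/2) (2 (1 - 4 A / R))` up to `R / 4`, `0` for `2 A³ < R` -/
noncomputable def fLc (R A : ℤ) : ℝ :=
  if 2 * A ^ 3 < R then 0 else if 4 * A ≤ R then min (3 / 2) (2 * (1 - 4 * (A : ℝ) / (R : ℝ)))
    else 0

lemma fLc_facts {A : ℤ} (hR : 0 < R) :
    0 ≤ fLc R A ∧ fLc R A ≤ 3 / 2 ∧ (R < 8 * A → fLc R A ≤ 1) := by
  have h1 : (0 : ℝ) < R := by exact_mod_cast hR
  unfold fLc
  split_ifs with h2 h3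
  · exact ⟨le_rfl, by norm_num, fun _ => by norm_num⟩
  · have h5 : (4 : ℝ) * A ≤ R := by exact_mod_cast h3
    have h7 : 4 * (A : ℝ) / (R : ℝ) ≤ 1 := (div_le_one h1).2 h5
    refine ⟨le_min (by norm_num) (by linarith), min_le_left _ _, fun h4 => ?_⟩
    have h6 : (R : ℝ) < 8 * A := by exact_mod_cast h4
    have h8 : 1 / 2 ≤ 4 * (A : ℝ) / (R : ℝ) := by
      rw [le_div_iff₀ h1]
      linarith
    exact (min_le_right _ _).trans (by linarith)
  · exact ⟨le_rfl, by norm_num, fun _ => by norm_num⟩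

/-- rows with `R ≤ 2 A³`, `40 A ≤ 3 R` have factors at least `7/5` -/
lemma fL_ge {A : ℤ} (hR : 0 < R) (h1 : R ≤ 2 * A ^ 3) (h2 : 40 * A ≤ 3 * R) :
    7 / 5 ≤ fL6 R A ∧ 7 / 5 ≤ fLc R A := by
  have h0 : (0 : ℝ) < R := by exact_mod_cast hR
  constructor
  · unfold fL6
    rw [if_neg (not_lt.2 h1), if_pos (by linarith)]
    norm_num
  · unfold fLc
    rw [if_neg (not_lt.2 h1), if_pos (by linarith)]
    refine le_min (by norm_num) ?_
    have h3 : (40 : ℝ) * A ≤ 3 * R := by exact_mod_cast h2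
    have h4 : 4 * (A : ℝ) / (R : ℝ) ≤ 3 / 10 := by
      rw [div_le_iff₀ h0]
      linarith
    linarith

/-- **the factor of a unit over `R`**: `fL6` for value one, `fLc` for the cliques -/
noncomputable def rL6c (R : ℤ) (t : ℕ → ℤ) (vl : ι → ℤ) (m : ℕ) (u : ι) : ℝ :=
  (if vl u = 1 then fL6 R (t m + 1) else fLc R (t m + 1)) / (R : ℝ)

lemma rL6c_facts (hR : 0 < R) (m : ℕ) (u : ι) :
    ∃ F : ℝ, rL6c R t vl m u = F / (R : ℝ) ∧ 0 ≤ F ∧ F ≤ 3 / 2
      ∧ (R < 8 * (t m + 1) → F ≤ 1) ∧ (R < 4 * (t m + 1) → F = 0)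
      ∧ (R ≤ 2 * (t m + 1) ^ 3 → 40 * (t m + 1) ≤ 3 * R → 7 / 5 ≤ F) := by
  have h1 := fL6_facts (R := R) (A := t m + 1) hR
  have h2 := fLc_facts (R := R) (A := t m + 1) hR
  refine ⟨if vl u = 1 then fL6 R (t m + 1) else fLc R (t m + 1), rfl, ?_⟩
  have h3 : R < 4 * (t m + 1) → fL6 R (t m + 1) = 0 ∧ fLc R (t m + 1) = 0 := fun h => by
    unfold fL6 fLc
    constructor
    · split_ifs with h4 h5 h6
      · rfl
      · exfalso
        linarith
      · exfalso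
        linarith
      · rfl
    · split_ifs with h4 h5
      · rfl
      · exfalso
        linarith
      · rfl
  by_cases h4 : vl u = 1
  · rw [if_pos h4]
    exact ⟨h1.1, h1.2.1, h1.2.2, fun h => (h3 h).1, fun h5 h6 => (fL_ge hR h5 h6).1⟩
  · rw [if_neg h4]
    exact ⟨h2.1, h2.2.1, h2.2.2, fun h => (h3 h).2, fun h5 h6 => (fL_ge hR h5 h6).2⟩

lemma rL6c_nonneg (hR : 0 < R) (m : ℕ) (u : ι) : 0 ≤ rL6c R t vl m u := by
  obtain ⟨F, h1, h2, -⟩ := rL6c_facts (t := t) (vl := vl) hR m u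
  have h3 : (0 : ℝ) < R := by exact_mod_cast hR
  rw [h1]
  exact div_nonneg h2 h3.le

/-- **the factors are not negative** -/
lemma LevC.rL6c_le (Lv : LevC n U ho vl kp mn pc (fun u i => mn i u) g f)
    (H : PCon R n t s mu U ho vl kp mn pc ar be kq NN sg nu)
    (h2 : ∀ i < n, 2 * t i ≤ R) {v : ι × ℕ × ℕ} (hv : v ∈ unV n U g) :
    rL6c R t vl v.2.1 v.1 * (unb kp mn g v : ℝ) ≤ 1 := by
  obtain ⟨F, h1, h3, h4, h5, -⟩ := rL6c_facts (t := t) (vl := vl) (R_pos H) v.2.1 v.1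
  rw [h1]
  exact Lv.fac_le H h2 hv h3 h4 h5

/-- **the share of the main end of a unit hosted at a row `40 A ≤ 3 R`** is at least `2 A / (R + 2 A)` -/
lemma LevC.rL6c_host (Lv : LevC n U ho vl kp mn pc (fun u i => mn i u) g f)
    (H : PCon R n t s mu U ho vl kp mn pc ar be kq NN sg nu) (hR : 65 ≤ R)
    (h2 : ∀ i < n, 2 * (t i + 1) ≤ R) {v : ι × ℕ × ℕ} (hv : v ∈ unV n U g)
    (hz : 40 * (t (ho v.1) + 1) ≤ 3 * R) :
    2 * ((t (ho v.1) : ℝ) + 1) / ((R : ℝ) + 2 * ((t (ho v.1) : ℝ) + 1))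
      ≤ ((t (ho v.1) : ℝ) + 1) / ((t (ho v.1) : ℝ) + 1 + ((t v.2.1 : ℝ) + 1))
        * (1 - rL6c R t vl v.2.1 v.1 * (unb kp mn g v : ℝ)) := by
  have hR0 : 0 < R := by linarith
  have hR' : (65 : ℝ) ≤ R := by exact_mod_cast hR
  obtain ⟨F, h1, h3, h4, h5, h6, -⟩ := rL6c_facts (t := t) (vl := vl) hR0 v.2.1 v.1
  obtain ⟨h7, h8, -⟩ := LevC.mem_unV hv
  have hb := Lv.unb_sq H hv
  have hb0 := LevC.unb_nonneg H hv
  have htm := H.t0 _ h8
  have htf := H.t0 _ (Lv.fn _ h7)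
  have htz := H.t0 _ (H.hlt _ h7)
  have h9 := h2 _ (Lv.fn _ h7)
  have h10 := h2 _ h8
  obtain ⟨b, hbe⟩ : ∃ b, b = unb kp mn g v := ⟨_, rfl⟩
  rw [← hbe] at hb hb0 ⊢
  obtain ⟨B, hB⟩ : ∃ B, B = t v.2.1 + 1 := ⟨_, rfl⟩
  obtain ⟨A, hA⟩ : ∃ A, A = t (ho v.1) + 1 := ⟨_, rfl⟩
  have eB : (t v.2.1 : ℝ) + 1 = B := by rw [hB]; push_cast; ring
  have eA : (t (ho v.1) : ℝ) + 1 = A := by rw [hA]; push_cast; ring
  rw [← hB] at h5 h6 h10
  rw [← hA] at hz
  have hA1 : 1 ≤ A := by linarith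
  have hB1 : 1 ≤ B := by linarith
  rw [h1, eA, eB]
  have hA' : (1 : ℝ) ≤ A := by exact_mod_cast hA1
  have hB' : (1 : ℝ) ≤ B := by exact_mod_cast hB1
  have hz' : (40 : ℝ) * A ≤ 3 * R := by exact_mod_cast hz
  have hB2 : (2 : ℝ) * B ≤ R := by exact_mod_cast h10
  have hb0' : (0 : ℝ) ≤ b := by exact_mod_cast hb0
  -- the lost factor
  have key : F * b * (R + 2 * A) ≤ R * (R - 2 * B) := by
    rcases lt_or_ge R (4 * B) with h11 | h11
    · rw [h6 h11]
      nlinarith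
    · have h11' : (4 : ℝ) * B ≤ R := by exact_mod_cast h11
      rcases lt_or_ge R (8 * B) with h12 | h12
      · have h13 : 5 * b ≤ 2 * R := by
          by_contra hcon
          push Not at hcon
          nlinarith [mul_nonneg htm (by linarith : (0 : ℤ) ≤ R - 2 * (t (f v.1) + 1)),
            mul_nonneg (by linarith : (0 : ℤ) ≤ R) (by linarith : (0 : ℤ) ≤ R - 4 * B)]
        have h14 : (5 : ℝ) * b ≤ 2 * R := by exact_mod_cast h13
        have h15 : F * b ≤ b := by nlinarith [h5 h12]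
        nlinarith [mul_nonneg hb0' (by linarith : (0 : ℝ) ≤ (R : ℝ) + 2 * A)]
      · have h12' : (8 : ℝ) * B ≤ R := by exact_mod_cast h12
        have h13 : 3 * b ≤ R := by
          by_contra hcon
          push Not at hcon
          nlinarith [mul_nonneg htm (by linarith : (0 : ℤ) ≤ R - 2 * (t (f v.1) + 1)),
            mul_nonneg (by linarith : (0 : ℤ) ≤ R) (by linarith : (0 : ℤ) ≤ R - 8 * B)]
        have h14 : (3 : ℝ) * b ≤ R := by exact_mod_cast h13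
        have h15 : F * b ≤ 3 / 2 * b := by nlinarith
        nlinarith [mul_nonneg hb0' (by linarith : (0 : ℝ) ≤ (R : ℝ) + 2 * A)]
  rw [div_mul_eq_mul_div, div_le_div_iff₀ (by linarith) (by linarith)]
  have h16 : 1 - F / (R : ℝ) * (b : ℝ) = (R - F * b) / R := by
    field_simp
  rw [h16, mul_div_assoc', div_mul_eq_mul_div, le_div_iff₀ (by linarith)]
  nlinarith [mul_nonneg (by linarith : (0 : ℝ) ≤ (A : ℝ)) (sub_nonneg.2 key)]

end ClosM6

end Pool.Agent.Lib.MP_f04ccf_co
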