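import Pool.Agent.Lib.MP_f04ccf_co.M.RowSm
import Pool.Agent.Lib.MP_f04ccf_co.M.ClosM6

/-!
MP_f04ccf_co, TEXT D, regime L, **the rows `40 A ≤ 3 R` for any factors** `F m u` with `F ≤ 3/2` (`8 A_m ≤ R`) or
`F ≤ (9/5) (1 - 2 A_m / R)`.

* `LevC.unb_geo`: a unit with misses has three different rows (host, main end, cut end);
* `host_num`, `LevC.host_F`: the host pays at most `R / (R + 2 A)`; `LevC.fac_F`: the factors are not negative;
* `LevC.rowM_F`: the rows `40 A ≤ 3 R` with `7/5 ≤ F z u`.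
-/

set_option autoImplicit false

namespace Pool.Agent.Lib.MP_f04ccf_co

open Finset

attribute [local instance] Classical.propDecidable

section RowSmD

variable {ι : Type*} {R : ℤ} {n : ℕ} {t s mu : ℕ → ℤ} {U : Finset ι} {ho : ι → ℕ} {vl : ι → ℤ}
  {kp mn : ℕ → ι → ℤ} {pc ar : ι → ℤ} {be kq NN sg : ℕ → ℕ → ℤ} {nu : ℕ → ι → ℤ} {z y : ℕ}
  {g : ℕ → ι → ℕ} {f : ι → ℕ}

/-- **a unit with misses has three different rows** -/
theorem LevC.unb_geo (Lv : LevC n U ho vl kp mn pc (fun u i => mn i u) g f)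
    (H : PCon R n t s mu U ho vl kp mn pc ar be kq NN sg nu) {v : ι × ℕ × ℕ} (hv : v ∈ unV n U g) :
    unb kp mn g v = 0 ∨ (unb kp mn g v ^ 2 ≤ R + t v.2.1 * t (f v.1) ∧
      (t (ho v.1) + 1) + (t v.2.1 + 1) + (t (f v.1) + 1) ≤ R) := by
  obtain ⟨h1, h2, -⟩ := LevC.mem_unV hv
  rcases Lv.utyp H hv with h3 | ⟨-, h4, -⟩
  · exact Or.inl h3
  · refine Or.inr ⟨Lv.unb_sq H hv, ?_⟩
    have h5 := Lv.fh v.1 h1
    have h6 := Lv.main_ne hv
    have h7 := H.hlt v.1 h1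
    have h8 := Lv.fn v.1 h1
    have h9 : ({ho v.1, v.2.1, f v.1} : Finset ℕ) ⊆ range n := by
      intro i hi
      rw [mem_insert, mem_insert, mem_singleton] at hi
      rcases hi with rfl | rfl | rfl
      · exact mem_range.2 h7
      · exact mem_range.2 h2
      · exact mem_range.2 h8
    have a1 : v.2.1 ∉ ({f v.1} : Finset ℕ) := by
      rw [mem_singleton]
      exact h4
    have a2 : ho v.1 ∉ ({v.2.1, f v.1} : Finset ℕ) := by
      rw [mem_insert, mem_singleton]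
      rintro (h11 | h11)
      · exact h6 h11.symm
      · exact h5 h11.symm
    have h10 : ∑ i ∈ ({ho v.1, v.2.1, f v.1} : Finset ℕ), (t i + 1)
        = (t (ho v.1) + 1) + (t v.2.1 + 1) + (t (f v.1) + 1) := by
      rw [sum_insert a2, sum_insert a1, sum_singleton]
      ring
    rw [← h10]
    refine le_trans (sum_le_sum_of_subset_of_nonneg h9 fun i hi _ => ?_) H.tsum
    have := H.t0 i (mem_range.1 hi)
    linarith

/-- four times the square of the misses -/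
lemma geo_num {R A B W b : ℤ} (_hA : 1 ≤ A) (hB : 1 ≤ B) (hW : 1 ≤ W) (hs : A + B + W ≤ R)
    (hb : b ^ 2 ≤ R + (B - 1) * (W - 1)) : 4 * b ^ 2 ≤ (R - A) ^ 2 + 4 * (A + 1) := by
  have h1 : 4 * ((B - 1) * (W - 1)) ≤ (B + W - 2) ^ 2 := by nlinarith [sq_nonneg (B - W)]
  have h2 : (B + W - 2) ^ 2 ≤ (R - A - 2) ^ 2 :=
    pow_le_pow_left₀ (by linarith) (by linarith) 2
  nlinarith

/-- **numbers**: `9 b (R + 2 A) ≤ 5 R²` -/
lemma host_num {R A B W b : ℤ} (hR : 65 ≤ R) (hA : 1 ≤ A) (hA2 : 40 * A ≤ 3 * R) (hB : 1 ≤ B)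
    (hW : 1 ≤ W) (hs : A + B + W ≤ R) (_hb0 : 0 ≤ b) (hb : b ^ 2 ≤ R + (B - 1) * (W - 1)) :
    9 * (b * (R + 2 * A)) ≤ 5 * R ^ 2 := by
  have h1 := geo_num hA hB hW hs hb
  have hR0 : 0 ≤ R := by linarith
  obtain ⟨P, hP⟩ : ∃ P : ℤ, P = (R - A) * (R + 2 * A) := ⟨_, rfl⟩
  have hP0 : 0 ≤ P := by
    rw [hP]
    exact mul_nonneg (by linarith) (by linarith)
  have h2 : 1600 * P ≤ 1702 * R ^ 2 := by
    rw [hP]
    nlinarith [mul_nonneg (by linarith : (0 : ℤ) ≤ 3 * R - 40 * A)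
      (by linarith : (0 : ℤ) ≤ 34 * R - 80 * A)]
  have h3 : (1600 * P) ^ 2 ≤ (1702 * R ^ 2) ^ 2 := pow_le_pow_left₀ (by linarith) h2 2
  have h4 : (20 * (R + 2 * A)) ^ 2 ≤ (23 * R) ^ 2 :=
    pow_le_pow_left₀ (by linarith) (by linarith) 2
  have h5 : 10 * (A + 1) ≤ R := by linarith
  have h6 : (10 * (A + 1)) * (20 * (R + 2 * A)) ^ 2 ≤ R * (23 * R) ^ 2 :=
    mul_le_mul h5 h4 (sq_nonneg _) hR0
  have h7 : 4 * (b * (R + 2 * A)) ^ 2 ≤ P ^ 2 + 4 * (A + 1) * (R + 2 * A) ^ 2 := by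
    have := mul_le_mul_of_nonneg_right h1 (sq_nonneg (R + 2 * A))
    rw [hP]
    nlinarith
  have h8 : R ^ 3 * 65 ≤ R ^ 4 := by
    have := mul_le_mul_of_nonneg_left hR (pow_nonneg hR0 3)
    nlinarith
  have h9 : (9 * (b * (R + 2 * A))) ^ 2 ≤ (5 * R ^ 2) ^ 2 := by
    nlinarith
  exact (abs_le_of_sq_le_sq' h9 (by positivity)).2

/-- what is used about the factor `F` of a main end of size `B` -/
def FacF (R B : ℤ) (F : ℝ) : Prop :=
  (8 * B ≤ R ∧ F ≤ 3 / 2) ∨ F ≤ 9 / 5 * (1 - 2 * (B : ℝ) / (R : ℝ))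

/-- the misses at a light main end -/
lemma third_num {R B W b : ℤ} (hR : 65 ≤ R) (hB : 1 ≤ B) (hB8 : 8 * B ≤ R) (_hW : 1 ≤ W)
    (hW2 : 2 * W ≤ R) (hb : b ^ 2 ≤ R + (B - 1) * (W - 1)) : 3 * b ≤ R := by
  by_contra hcon
  push Not at hcon
  nlinarith [mul_nonneg (by linarith : (0 : ℤ) ≤ B - 1) (by linarith : (0 : ℤ) ≤ R - 2 * W),
    mul_nonneg (by linarith : (0 : ℤ) ≤ R) (by linarith : (0 : ℤ) ≤ R - 8 * B)]

/-- **the factors are not negative** -/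
lemma LevC.fac_F (Lv : LevC n U ho vl kp mn pc (fun u i => mn i u) g f)
    (H : PCon R n t s mu U ho vl kp mn pc ar be kq NN sg nu) (hR : 65 ≤ R)
    (h2 : ∀ i < n, 2 * (t i + 1) ≤ R) {v : ι × ℕ × ℕ} (hv : v ∈ unV n U g) {F : ℝ} (hF0 : 0 ≤ F)
    (hF : FacF R (t v.2.1 + 1) F) : F / (R : ℝ) * (unb kp mn g v : ℝ) ≤ 1 := by
  have hR' : (65 : ℝ) ≤ R := by exact_mod_cast hR
  have hb0 := LevC.unb_nonneg H hv
  have hb0' : (0 : ℝ) ≤ unb kp mn g v := by exact_mod_cast hb0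
  obtain ⟨h7, h8, -⟩ := LevC.mem_unV hv
  rw [div_mul_eq_mul_div, div_le_one (by linarith)]
  rcases Lv.unb_geo H hv with h1 | ⟨h1, h3⟩
  · rw [h1]
    push_cast
    linarith
  · have htm := H.t0 _ h8
    have htf := H.t0 _ (Lv.fn _ h7)
    have htz := H.t0 _ (H.hlt _ h7)
    have h9 := h2 _ (Lv.fn _ h7)
    have h10 := h2 _ h8
    generalize unb kp mn g v = b at *
    rcases hF with ⟨h4, h5⟩ | h5
    · have h6 := third_num (b := b) hR (by linarith : 1 ≤ t v.2.1 + 1) h4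
        (by linarith : 1 ≤ t (f v.1) + 1) h9 (by
          rw [add_sub_cancel_right, add_sub_cancel_right]
          exact h1)
      have h6' : (3 : ℝ) * b ≤ R := by exact_mod_cast h6
      nlinarith
    · have h6 := geo_num (b := b) (by linarith : 1 ≤ t (ho v.1) + 1)
        (by linarith : 1 ≤ t v.2.1 + 1) (by linarith : 1 ≤ t (f v.1) + 1) h3 (by
          rw [add_sub_cancel_right, add_sub_cancel_right]
          exact h1)
      have h11 : 9 * b ≤ 5 * R := by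
        by_contra hcon
        push Not at hcon
        nlinarith [mul_nonneg htz (by linarith : (0 : ℤ) ≤ R - 1)]
      have h11' : (9 : ℝ) * b ≤ 5 * R := by exact_mod_cast h11
      have h12 : (0 : ℝ) ≤ 2 * ((t v.2.1 + 1 : ℤ) : ℝ) / (R : ℝ) := by
        have : (0 : ℝ) ≤ ((t v.2.1 + 1 : ℤ) : ℝ) := by exact_mod_cast (by linarith)
        positivity
      have h13 : F ≤ 9 / 5 := by linarith
      nlinarith

/-- **the host pays at most `R / (R + 2 A)`** in a row `40 A ≤ 3 R` -/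
lemma LevC.host_F (Lv : LevC n U ho vl kp mn pc (fun u i => mn i u) g f)
    (H : PCon R n t s mu U ho vl kp mn pc ar be kq NN sg nu) (hR : 65 ≤ R)
    (h2 : ∀ i < n, 2 * (t i + 1) ≤ R) {v : ι × ℕ × ℕ} (hv : v ∈ unV n U g)
    (hz : 40 * (t (ho v.1) + 1) ≤ 3 * R) {F : ℝ} (hF0 : 0 ≤ F) (hF : FacF R (t v.2.1 + 1) F) :
    2 * ((t (ho v.1) : ℝ) + 1) / ((R : ℝ) + 2 * ((t (ho v.1) : ℝ) + 1))
      ≤ ((t (ho v.1) : ℝ) + 1) / ((t (ho v.1) : ℝ) + 1 + ((t v.2.1 : ℝ) + 1))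
        * (1 - F / (R : ℝ) * (unb kp mn g v : ℝ)) := by
  have hR' : (65 : ℝ) ≤ R := by exact_mod_cast hR
  obtain ⟨h7, h8, -⟩ := LevC.mem_unV hv
  have hb0 := LevC.unb_nonneg H hv
  have hg := Lv.unb_geo H hv
  have htm := H.t0 _ h8
  have htf := H.t0 _ (Lv.fn _ h7)
  have htz := H.t0 _ (H.hlt _ h7)
  have h9 := h2 _ (Lv.fn _ h7)
  have h10 := h2 _ h8
  generalize unb kp mn g v = b at *
  obtain ⟨B, hB⟩ : ∃ B, B = t v.2.1 + 1 := ⟨_, rfl⟩
  obtain ⟨A, hA⟩ : ∃ A, A = t (ho v.1) + 1 := ⟨_, rfl⟩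
  obtain ⟨W, hW⟩ : ∃ W, W = t (f v.1) + 1 := ⟨_, rfl⟩
  have eB : (t v.2.1 : ℝ) + 1 = B := by rw [hB]; push_cast; ring
  have eA : (t (ho v.1) : ℝ) + 1 = A := by rw [hA]; push_cast; ring
  have hB1 : 1 ≤ B := by linarith
  have hA1 : 1 ≤ A := by linarith
  have hW1 : 1 ≤ W := by linarith
  have hA' : (1 : ℝ) ≤ A := by exact_mod_cast hA1
  have hB' : (1 : ℝ) ≤ B := by exact_mod_cast hB1
  rw [← hB] at hF h10
  rw [← hA] at hz
  rw [← hW] at h9
  have hz' : (40 : ℝ) * A ≤ 3 * R := by exact_mod_cast hz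
  have hB2 : (2 : ℝ) * B ≤ R := by exact_mod_cast h10
  have hb0' : (0 : ℝ) ≤ b := by exact_mod_cast hb0
  rw [eA, eB]
  have key : F * b * (R + 2 * A) ≤ R * (R - 2 * B) := by
    rcases hg with h1 | ⟨h1, h3⟩
    · rw [h1]
      push_cast
      nlinarith
    · have h1' : b ^ 2 ≤ R + (B - 1) * (W - 1) := by
        rw [hB, hW, add_sub_cancel_right, add_sub_cancel_right]
        exact h1
      have h3' : A + B + W ≤ R := by
        rw [hA, hB, hW]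
        exact h3
      rcases hF with ⟨h4, h5⟩ | h5
      · have h6 := third_num hR hB1 h4 hW1 h9 h1'
        have h6' : (3 : ℝ) * b ≤ R := by exact_mod_cast h6
        have h4' : (8 : ℝ) * B ≤ R := by exact_mod_cast h4
        have h11 : F * b ≤ 3 / 2 * b := mul_le_mul_of_nonneg_right h5 hb0'
        have h12 : F * b ≤ R / 2 := by linarith
        have h13 : F * b * (R + 2 * A) ≤ R / 2 * (R + 2 * A) :=
          mul_le_mul_of_nonneg_right h12 (by linarith)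
        nlinarith
      · have h6 := host_num hR hA1 hz hB1 hW1 h3' hb0 h1'
        have h6' : (9 : ℝ) * (b * (R + 2 * A)) ≤ 5 * (R : ℝ) ^ 2 := by exact_mod_cast h6
        have h11 : F * (b * (R + 2 * A))
            ≤ 9 / 5 * (1 - 2 * (B : ℝ) / (R : ℝ)) * (b * (R + 2 * A)) :=
          mul_le_mul_of_nonneg_right h5 (mul_nonneg hb0' (by linarith))
        have h12 : (0 : ℝ) ≤ 1 - 2 * (B : ℝ) / (R : ℝ) := by
          rw [sub_nonneg, div_le_one (by linarith)]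
          exact hB2
        have h13 : (1 - 2 * (B : ℝ) / (R : ℝ)) * (9 * (b * (R + 2 * A)))
            ≤ (1 - 2 * (B : ℝ) / (R : ℝ)) * (5 * (R : ℝ) ^ 2) :=
          mul_le_mul_of_nonneg_left h6' h12
        have h14 : (1 - 2 * (B : ℝ) / (R : ℝ)) * (5 * (R : ℝ) ^ 2) = 5 * (R * (R - 2 * B)) := by
          field_simp
        nlinarith
  rw [div_mul_eq_mul_div, div_le_div_iff₀ (by linarith) (by linarith)]
  have h16 : 1 - F / (R : ℝ) * (b : ℝ) = (R - F * b) / R := by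
    field_simp
  rw [h16, mul_div_assoc', div_mul_eq_mul_div, le_div_iff₀ (by linarith)]
  nlinarith [mul_nonneg (by linarith : (0 : ℝ) ≤ (A : ℝ)) (sub_nonneg.2 key)]

/-- **the rows `40 A ≤ 3 R`, any factors** -/
theorem LevC.rowM_F (Lv : LevC n U ho vl kp mn pc (fun u i => mn i u) g f)
    (H : PCon R n t s mu U ho vl kp mn pc ar be kq NN sg nu) (hR : 65 ≤ R)
    (hA : ∀ i < n, 2 * (t i + 1) ≤ R) (hz : z < n) (h40 : 40 * (t z + 1) ≤ 3 * R)
    {F : ℕ → ι → ℝ} (hF0 : ∀ m < n, ∀ u ∈ U, 0 ≤ F m u)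
    (hF : ∀ m < n, ∀ u ∈ U, FacF R (t m + 1) (F m u)) (hFz : ∀ u ∈ U, 7 / 5 ≤ F z u)
    (he : mu z - s z + 1 ≤ ∑ y ∈ (range n).erase z, rnE U ho vl pc be g z y) (P : Finset ℕ)
    (hP : P ⊆ (range n).erase z) :
    RowM6 R P (t z + 1) (mu z - s z) (fun y => t y + 1) (rnE U ho vl pc be g z)
      (rnHr U ho vl kp mn pc g (fun m u => F m u / (R : ℝ)) z)
      (rnSr U ho kp mn pc g (fun m u => F m u / (R : ℝ)) z) := by
  have hR0 := R_pos H
  have hR0' : (0 : ℝ) < R := by exact_mod_cast hR0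
  have htz : (0 : ℝ) ≤ t z := by exact_mod_cast H.t0 z hz
  have hub : ∀ v ∈ unV n U g, (0 : ℝ) ≤ unb kp mn g v := fun v hv => by
    exact_mod_cast LevC.unb_nonneg H hv
  have hθ : ∀ v ∈ unV n U g, 0 ≤ 1 - F v.2.1 v.1 / (R : ℝ) * (unb kp mn g v : ℝ)
      ∧ 1 - F v.2.1 v.1 / (R : ℝ) * (unb kp mn g v : ℝ) ≤ 1 := fun v hv => by
    obtain ⟨h7, h8, -⟩ := LevC.mem_unV hv
    have h6 := hF0 _ h8 _ h7
    have h9 := Lv.fac_F H hR hA hv h6 (hF _ h8 _ h7)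
    have h10 : (0 : ℝ) ≤ F v.2.1 v.1 / (R : ℝ) := div_nonneg h6 hR0'.le
    exact ⟨by linarith, by nlinarith [mul_nonneg h10 (hub v hv)]⟩
  have h1 := Lv.row_sm75 H hz (by linarith) h40 hA
    (θ := fun v => 1 - F v.2.1 v.1 / (R : ℝ) * (unb kp mn g v : ℝ)) (fun v hv => (hθ v hv).1)
    (fun v hv hvz => by
      have k7 := hFz v.1 (LevC.mem_unV hv).1
      rw [hvz]
      have k8 : 7 / 5 / (R : ℝ) * (unb kp mn g v : ℝ) ≤ F z v.1 / (R : ℝ) * (unb kp mn g v : ℝ) :=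
        mul_le_mul_of_nonneg_right ((div_le_div_iff_of_pos_right hR0').2 k7) (hub v hv)
      linarith)
    (fun v hv hvz => by
      obtain ⟨h7, h8, -⟩ := LevC.mem_unV hv
      have k1 := Lv.host_F H hR hA hv (by rw [hvz]; exact h40) (hF0 _ h8 _ h7) (hF _ h8 _ h7)
      rw [hvz] at k1
      refine k1.trans (le_of_eq ?_)
      have htm : (0 : ℝ) ≤ t v.2.1 := by exact_mod_cast H.t0 _ h8
      have k2 : (t z : ℝ) + 1 + ((t v.2.1 : ℝ) + 1) ≠ 0 := by positivity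
      have k3 : 1 - ((t v.2.1 : ℝ) + 1) / ((t z : ℝ) + 1 + ((t v.2.1 : ℝ) + 1))
          = ((t z : ℝ) + 1) / ((t z : ℝ) + 1 + ((t v.2.1 : ℝ) + 1)) := by
        field_simp
        ring
      rw [k3]) he
  have h2 : (0 : ℝ) ≤ ((t z : ℝ) + 1) / ((R : ℝ) + 1) := by positivity
  unfold RowM6
  push_cast
  have h4 : ∀ y ∈ (range n).erase z,
      ((t y : ℝ) + 1) / ((t z : ℝ) + 1 + ((t y : ℝ) + 1)) * (rnE U ho vl pc be g z y : ℝ)
        + ((1 - ((t y : ℝ) + 1) / ((t z : ℝ) + 1 + ((t y : ℝ) + 1)))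
            * rnHr U ho vl kp mn pc g (fun m u => F m u / (R : ℝ)) z y
          - ((t y : ℝ) + 1) / ((t z : ℝ) + 1 + ((t y : ℝ) + 1))
            * rnSr U ho kp mn pc g (fun m u => F m u / (R : ℝ)) z y)
      = ((t y : ℝ) + 1) / ((t z : ℝ) + 1 + ((t y : ℝ) + 1)) * (rnE U ho vl pc be g z y : ℝ)
        + ((1 - ((t y : ℝ) + 1) / ((t z : ℝ) + 1 + ((t y : ℝ) + 1)))
            * rnHl n U ho g (fun v => 1 - F v.2.1 v.1 / (R : ℝ) * (unb kp mn g v : ℝ)) z y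
          - ((t y : ℝ) + 1) / ((t z : ℝ) + 1 + ((t y : ℝ) + 1))
            * rnSl n U ho g (fun v => 1 - F v.2.1 v.1 / (R : ℝ) * (unb kp mn g v : ℝ)) z y) := by
    intro y hy
    have hyn := mem_range.1 (mem_of_mem_erase hy)
    rw [Lv.rnHl_r H hyn (fun m u => F m u / (R : ℝ)) z,
      Lv.rnSl_r H hz (fun m u => F m u / (R : ℝ)) y]
  have h5 : ∑ y ∈ P,
      (((t y : ℝ) + 1) / ((t z : ℝ) + 1 + ((t y : ℝ) + 1)) * (rnE U ho vl pc be g z y : ℝ)
        + ((1 - ((t y : ℝ) + 1) / ((t z : ℝ) + 1 + ((t y : ℝ) + 1)))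
            * rnHr U ho vl kp mn pc g (fun m u => F m u / (R : ℝ)) z y
          - ((t y : ℝ) + 1) / ((t z : ℝ) + 1 + ((t y : ℝ) + 1))
            * rnSr U ho kp mn pc g (fun m u => F m u / (R : ℝ)) z y)) ≤ (mu z : ℝ) - s z := by
    refine (sum_le_sum_of_subset_of_nonneg hP fun y hy _ => ?_).trans
      ((le_of_eq (sum_congr rfl fun y hy => h4 y hy)).trans h1)
    rw [h4 y hy]
    have hyn := mem_range.1 (mem_of_mem_erase hy)
    have hty : (0 : ℝ) ≤ t y := by exact_mod_cast H.t0 y hyn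
    refine Lv.cell_nonneg H hz hyn hθ (by positivity) ?_
    rw [div_le_one (by positivity)]
    linarith
  linarith

end RowSmD

end Pool.Agent.Lib.MP_f04ccf_co
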