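import Pool.Agent.Lib.MP_f04ccf_co.M.CsL
import Pool.Agent.Lib.MP_f04ccf_co.M.RowSmD
import Pool.Agent.Lib.MP_f04ccf_co.M.FalPC

/-!
MP_f04ccf_co, TEXT D, **REGIME L, THE ASSEMBLY, ANY FACTOR FUNCTIONS** `fr` (value one), `fc` (cliques) of the mass of
the main end: for `65 ≤ R`, all `2 A i ≤ R`, the contract is impossible as soon as the row claim holds for the rows with
`3 R < 40 A`.

* `FacOK R fr fc`: what the closing and the light rows need; `facOK_L6` (table L6), `facOK_L8` (table L8: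
  `3/2` up to `R / 8`, then `(9/5) (1 - 2 A / R)`; cliques as in L6);
* `rLg`, `thLg`; `RowCLg R fr fc`: the row claim which is left; `pureL_of_rowg`: the assembly;
* `RowCL R`: the row claim of TABLE L8 (`fL8` for value one, `fLc` for the cliques); `pureL_of_row`: the assembly in
  the form wanted by `pureNoC_of_LH`.
-/

set_option autoImplicit false

namespace Pool.Agent.Lib.MP_f04ccf_co

open Finset

attribute [local instance] Classical.propDecidable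

/-- **what is used about the factor functions** -/
structure FacOK (R : ℤ) (fr fc : ℤ → ℝ) : Prop where
  r0 : ∀ A, 0 ≤ fr A
  c0 : ∀ A, 0 ≤ fc A
  rF : ∀ A, 1 ≤ A → 2 * A ≤ R → FacF R A (fr A)
  cF : ∀ A, 1 ≤ A → 2 * A ≤ R → FacF R A (fc A)
  r75 : ∀ A, R ≤ 2 * A ^ 3 → 40 * A ≤ 3 * R → 7 / 5 ≤ fr A
  c75 : ∀ A, R ≤ 2 * A ^ 3 → 40 * A ≤ 3 * R → 7 / 5 ≤ fc A

/-- **table L8**: `0` for `2 A³ < R`, `3/2` up to `R / 8`, `(9/5) (1 - 2 A / R)` up to `R / 2`, then `0` -/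
noncomputable def fL8 (R A : ℤ) : ℝ :=
  if 2 * A ^ 3 < R then 0 else if 8 * A ≤ R then 3 / 2
    else if 2 * A ≤ R then 9 / 5 * (1 - 2 * (A : ℝ) / (R : ℝ)) else 0

/-- the ramp of table L6 is below the curve -/
lemma ramp_le {R A : ℤ} (hR : 0 < R) (h8 : R ≤ 8 * A) :
    2 * (1 - 4 * (A : ℝ) / (R : ℝ)) ≤ 9 / 5 * (1 - 2 * (A : ℝ) / (R : ℝ)) := by
  have h1 : (0 : ℝ) < R := by exact_mod_cast hR
  have h2 : (R : ℝ) ≤ 8 * A := by exact_mod_cast h8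
  have h3 : 1 / 8 ≤ (A : ℝ) / (R : ℝ) := by
    rw [le_div_iff₀ h1]
    linarith
  have h4 : 4 * (A : ℝ) / (R : ℝ) = 4 * ((A : ℝ) / (R : ℝ)) := by ring
  have h5 : 2 * (A : ℝ) / (R : ℝ) = 2 * ((A : ℝ) / (R : ℝ)) := by ring
  rw [h4, h5]
  linarith

lemma curve_nonneg {R A : ℤ} (hR : 0 < R) (h2 : 2 * A ≤ R) :
    0 ≤ 9 / 5 * (1 - 2 * (A : ℝ) / (R : ℝ)) := by
  have h1 : (0 : ℝ) < R := by exact_mod_cast hR
  have h3 : 2 * (A : ℝ) / (R : ℝ) ≤ 1 := (div_le_one h1).2 (by exact_mod_cast h2)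
  linarith

/-- the cliques of tables L6 and L8 -/
lemma facOK_fc {R : ℤ} (hR : 0 < R) :
    (∀ A, 0 ≤ fLc R A) ∧ (∀ A, 1 ≤ A → 2 * A ≤ R → FacF R A (fLc R A)) := by
  refine ⟨fun A => (fLc_facts hR).1, fun A _ h2 => ?_⟩
  rcases le_or_gt (8 * A) R with h8 | h8
  · exact Or.inl ⟨h8, (fLc_facts hR).2.1⟩
  · right
    have h9 := curve_nonneg hR h2
    unfold fLc
    split_ifs with h3 h4
    · exact h9
    · exact (min_le_right _ _).trans (ramp_le hR h8.le)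
    · exact h9

/-- **table L6** -/
theorem facOK_L6 {R : ℤ} (hR : 0 < R) : FacOK R (fL6 R) (fLc R) where
  r0 := fun A => (fL6_facts hR).1
  c0 := (facOK_fc hR).1
  rF := fun A _ h2 => by
    rcases le_or_gt (8 * A) R with h8 | h8
    · exact Or.inl ⟨h8, (fL6_facts hR).2.1⟩
    · right
      have h9 := curve_nonneg hR h2
      unfold fL6
      split_ifs with h3 h4 h5
      · exact h9
      · exact absurd h4 (not_le.2 h8)
      · exact ramp_le hR h8.le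
      · exact h9
  cF := (facOK_fc hR).2
  r75 := fun A h1 h2 => (fL_ge hR h1 h2).1
  c75 := fun A h1 h2 => (fL_ge hR h1 h2).2

/-- **table L8** -/
theorem facOK_L8 {R : ℤ} (hR : 0 < R) : FacOK R (fL8 R) (fLc R) where
  r0 := fun A => by
    unfold fL8
    split_ifs with h3 h4 h5
    · exact le_rfl
    · norm_num
    · exact curve_nonneg hR h5
    · exact le_rfl
  c0 := (facOK_fc hR).1
  rF := fun A _ h2 => by
    have h9 := curve_nonneg hR h2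
    unfold fL8
    split_ifs with h3 h4
    · exact Or.inr h9
    · exact Or.inl ⟨h4, le_rfl⟩
    · exact Or.inr le_rfl
  cF := (facOK_fc hR).2
  r75 := fun A h1 h2 => by
    unfold fL8
    rw [if_neg (not_lt.2 h1), if_pos (by linarith)]
    norm_num
  c75 := fun A h1 h2 => (fL_ge hR h1 h2).2

section AsmL

variable {ι : Type*} {R : ℤ} {n : ℕ} {t s mu : ℕ → ℤ} {U : Finset ι} {ho : ι → ℕ} {vl : ι → ℤ}
  {kp mn : ℕ → ι → ℤ} {pc ar : ι → ℤ} {be kq NN sg : ℕ → ℕ → ℤ} {nu : ℕ → ι → ℤ} {z y : ℕ}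
  {g : ℕ → ι → ℕ} {f : ι → ℕ} {fr fc : ℤ → ℝ}

/-- the factor of a unit of `u` with main end `m`, not divided by `R` -/
noncomputable def fLg (t : ℕ → ℤ) (vl : ι → ℤ) (fr fc : ℤ → ℝ) (m : ℕ) (u : ι) : ℝ :=
  if vl u = 1 then fr (t m + 1) else fc (t m + 1)

/-- the factor of a unit over `R` -/
noncomputable def rLg (R : ℤ) (t : ℕ → ℤ) (vl : ι → ℤ) (fr fc : ℤ → ℝ) (m : ℕ) (u : ι) : ℝ :=
  fLg t vl fr fc m u / (R : ℝ)

/-- **the factor of a unit**, factor functions `fr`, `fc` -/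
noncomputable def thLg (R : ℤ) (t : ℕ → ℤ) (vl : ι → ℤ) (kp mn : ℕ → ι → ℤ) (g : ℕ → ι → ℕ)
    (fr fc : ℤ → ℝ) : ι × ℕ × ℕ → ℝ :=
  thL R vl kp mn g (fun i => fr (t i + 1)) fun i => fc (t i + 1)

lemma thLg_eq (v : ι × ℕ × ℕ) :
    thLg R t vl kp mn g fr fc v = 1 - rLg R t vl fr fc v.2.1 v.1 * (unb kp mn g v : ℝ) := by
  unfold thLg thL facL rLg fLg
  ring

lemma FacOK.nonneg (hF : FacOK R fr fc) (m : ℕ) (u : ι) : 0 ≤ fLg t vl fr fc m u := by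
  unfold fLg
  split_ifs
  · exact hF.r0 _
  · exact hF.c0 _

lemma FacOK.fac (hF : FacOK R fr fc) {m : ℕ} (h1 : 1 ≤ t m + 1) (h2 : 2 * (t m + 1) ≤ R) (u : ι) :
    FacF R (t m + 1) (fLg t vl fr fc m u) := by
  unfold fLg
  split_ifs
  · exact hF.rF _ h1 h2
  · exact hF.cF _ h1 h2

/-- the factors of the units lie between `0` and `1` -/
lemma LevC.thLg_ok (Lv : LevC n U ho vl kp mn pc (fun u i => mn i u) g f)
    (H : PCon R n t s mu U ho vl kp mn pc ar be kq NN sg nu) (hR : 65 ≤ R)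
    (hA : ∀ i < n, 2 * (t i + 1) ≤ R) (hF : FacOK R fr fc) {v : ι × ℕ × ℕ}
    (hv : v ∈ unV n U g) :
    0 ≤ thLg R t vl kp mn g fr fc v ∧ thLg R t vl kp mn g fr fc v ≤ 1 := by
  have hR0 : (0 : ℝ) < R := by exact_mod_cast R_pos H
  have hm := (LevC.mem_unV hv).2.1
  have h1 := Lv.fac_F H hR hA hv (hF.nonneg (t := t) (vl := vl) v.2.1 v.1)
    (hF.fac (vl := vl) (by linarith [H.t0 _ hm]) (hA _ hm) v.1)
  have h2 : (0 : ℝ) ≤ unb kp mn g v := by exact_mod_cast LevC.unb_nonneg H hv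
  have h3 : 0 ≤ rLg R t vl fr fc v.2.1 v.1 :=
    div_nonneg (hF.nonneg (t := t) (vl := vl) v.2.1 v.1) hR0.le
  rw [thLg_eq]
  exact ⟨by unfold rLg; linarith, by nlinarith [mul_nonneg h3 h2]⟩

/-- **THE ROW CLAIM OF REGIME L WHICH IS LEFT**, factor functions `fr`, `fc`: rows with `3 R < 40 A`, the cells which
are not light -/
def RowCLg (R : ℤ) (fr fc : ℤ → ℝ) : Prop :=
  ∀ (ι : Type) (n : ℕ) (t s mu : ℕ → ℤ) (U : Finset ι) (ho : ι → ℕ) (vl : ι → ℤ)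
    (kp mn : ℕ → ι → ℤ) (pc ar : ι → ℤ) (be kq NN sg : ℕ → ℕ → ℤ) (nu : ℕ → ι → ℤ)
    (g : ℕ → ι → ℕ) (f : ι → ℕ) (L : Finset ℕ) (z : ℕ),
    PConC R n t s mu U ho vl kp mn pc ar be kq NN sg nu → (∀ i < n, 2 * (t i + 1) ≤ R) →
    LevC n U ho vl kp mn pc (fun u i => mn i u) g f → z < n → z ∉ L →
    (∀ y < n, y ∉ L → R ≤ 2 * (t y + 1) ^ 3) → 3 * R < 40 * (t z + 1) →
    mu z - s z + 1 ≤ ∑ y ∈ (range n).erase z, rnE U ho vl pc be g z y →
    ∑ y ∈ ((range n).erase z).filter (fun y => y ∉ L),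
        (((t y : ℝ) + 1) / ((t z : ℝ) + 1 + ((t y : ℝ) + 1)) * (rnE U ho vl pc be g z y : ℝ)
        + ((1 - ((t y : ℝ) + 1) / ((t z : ℝ) + 1 + ((t y : ℝ) + 1)))
            * rnHl n U ho g (thLg R t vl kp mn g fr fc) z y
          - ((t y : ℝ) + 1) / ((t z : ℝ) + 1 + ((t y : ℝ) + 1))
            * rnSl n U ho g (thLg R t vl kp mn g fr fc) z y))
      ≤ (mu z : ℝ) - s z + ((t z : ℝ) + 1) / ((R : ℝ) + 1)

/-- **THE ROW CLAIM OF REGIME L WHICH IS LEFT, TABLE L8** -/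
def RowCL (R : ℤ) : Prop := RowCLg R (fL8 R) (fLc R)

/-- **the rows `R ≤ 2 A³`, `40 A ≤ 3 R`**, any factor functions -/
theorem LevC.row_smallg (Lv : LevC n U ho vl kp mn pc (fun u i => mn i u) g f)
    (H : PCon R n t s mu U ho vl kp mn pc ar be kq NN sg nu) (hR : 65 ≤ R)
    (hA : ∀ i < n, 2 * (t i + 1) ≤ R) (hF : FacOK R fr fc) (hz : z < n)
    (h3 : R ≤ 2 * (t z + 1) ^ 3) (h40 : 40 * (t z + 1) ≤ 3 * R)
    (he : mu z - s z + 1 ≤ ∑ y ∈ (range n).erase z, rnE U ho vl pc be g z y) {L : Finset ℕ} :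
    ∑ y ∈ ((range n).erase z).filter (fun y => y ∉ L),
        (((t y : ℝ) + 1) / ((t z : ℝ) + 1 + ((t y : ℝ) + 1)) * (rnE U ho vl pc be g z y : ℝ)
        + ((1 - ((t y : ℝ) + 1) / ((t z : ℝ) + 1 + ((t y : ℝ) + 1)))
            * rnHl n U ho g (thLg R t vl kp mn g fr fc) z y
          - ((t y : ℝ) + 1) / ((t z : ℝ) + 1 + ((t y : ℝ) + 1))
            * rnSl n U ho g (thLg R t vl kp mn g fr fc) z y))
      ≤ (mu z : ℝ) - s z + ((t z : ℝ) + 1) / ((R : ℝ) + 1) := by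
  have h1 := Lv.rowM_F H hR hA hz h40 (F := fLg t vl fr fc)
    (fun m _ u _ => hF.nonneg (t := t) (vl := vl) m u)
    (fun m hm u _ => hF.fac (vl := vl) (by linarith [H.t0 _ hm]) (hA _ hm) u)
    (fun u _ => by
      unfold fLg
      split_ifs
      · exact hF.r75 _ h3 h40
      · exact hF.c75 _ h3 h40) he (((range n).erase z).filter fun y => y ∉ L)
    (filter_subset _ _)
  unfold RowM6 at h1
  push_cast at h1
  refine le_trans (le_of_eq (sum_congr rfl fun y hy => ?_)) h1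
  have hyn := mem_range.1 (mem_of_mem_erase (mem_filter.1 hy).1)
  have e0 : thLg R t vl kp mn g fr fc
      = fun v : ι × ℕ × ℕ => 1 - rLg R t vl fr fc v.2.1 v.1 * (unb kp mn g v : ℝ) :=
    funext fun v => thLg_eq v
  rw [e0, Lv.rnHl_r H hyn (rLg R t vl fr fc) z, Lv.rnSl_r H hz (rLg R t vl fr fc) y]
  rfl

/-- **REGIME L, THE ASSEMBLY, any factor functions** -/
theorem pureL_of_rowg {R : ℤ} {fr fc : ℤ → ℝ} (hR : 65 ≤ R) (hF : FacOK R fr fc)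
    (hC : RowCLg R fr fc) (ι : Type) (n : ℕ)
    (t s mu : ℕ → ℤ) (U : Finset ι) (ho : ι → ℕ) (vl : ι → ℤ)
    (kp mn : ℕ → ι → ℤ) (pc ar : ι → ℤ) (be kq NN sg : ℕ → ℕ → ℤ) (nu : ℕ → ι → ℤ)
    (H : PConC R n t s mu U ho vl kp mn pc ar be kq NN sg nu) (h0 : 2 * (t 0 + 1) ≤ R) :
    False := by
  have hA : ∀ i < n, 2 * (t i + 1) ≤ R := fun i hi => by
    have := H.anti 0 i (Nat.zero_le i) hi
    linarith
  obtain ⟨g, f, Lv⟩ := H.exists_lev fun u i => mn i u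
  refine Lv.close_L6 H.toPCon hR hA (fun i => fr (t i + 1)) (fun i => fc (t i + 1)) rfl
    fun z hz hzL h3 h4 h5 => ?_
  rcases le_or_gt (40 * (t z + 1)) (3 * R) with h6 | h6
  · exact Lv.row_smallg H.toPCon hR hA hF hz h3 h6 h5
  · exact hC ι n t s mu U ho vl kp mn pc ar be kq NN sg nu g f _ z H hA Lv hz hzL h4 h6 h5

/-- **REGIME L, THE ASSEMBLY**, table L8 -/
theorem pureL_of_row {R : ℤ} (hR : 65 ≤ R) (hC : RowCL R) (ι : Type) (n : ℕ)
    (t s mu : ℕ → ℤ) (U : Finset ι) (ho : ι → ℕ) (vl : ι → ℤ)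
    (kp mn : ℕ → ι → ℤ) (pc ar : ι → ℤ) (be kq NN sg : ℕ → ℕ → ℤ) (nu : ℕ → ι → ℤ)
    (H : PConC R n t s mu U ho vl kp mn pc ar be kq NN sg nu) (h0 : 2 * (t 0 + 1) ≤ R) :
    False :=
  pureL_of_rowg hR (facOK_L8 (by linarith)) hC ι n t s mu U ho vl kp mn pc ar be kq NN sg nu H h0

end AsmL

end Pool.Agent.Lib.MP_f04ccf_co
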