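import Pool.Agent.Lib.MP_f04ccf_co.M.AsmL

/-!
MP_f04ccf_co, TEXT D, **REGIME L, THE ASSEMBLY FROM WINDOWS**: `W A d` says which rows (mass `A`, budget `d = mu - s`)
a theorem treats.

* `RowCLw R fr fc W`: the row claim for the rows with `W A d`; `rowCLg_of_w`: all rows (`3 R < 40 A`, `2 A ≤ R`,
  `0 ≤ d ≤ A`) are treated, so `RowCLg`; `RowCLw.or`: two windows; `RowCLw.mono`: a smaller window;
* `RowLw R W`: table L8; `rowCL_of_w`: `RowCL R`.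
-/

set_option autoImplicit false

namespace Pool.Agent.Lib.MP_f04ccf_co

open Finset

attribute [local instance] Classical.propDecidable

/-- **THE ROW CLAIM OF REGIME L FOR THE ROWS OF A WINDOW** `W A d`: mass `A = t z + 1`, budget `d = mu z - s z` -/
def RowCLw (R : ℤ) (fr fc : ℤ → ℝ) (W : ℤ → ℤ → Prop) : Prop :=
  ∀ (ι : Type) (n : ℕ) (t s mu : ℕ → ℤ) (U : Finset ι) (ho : ι → ℕ) (vl : ι → ℤ)
    (kp mn : ℕ → ι → ℤ) (pc ar : ι → ℤ) (be kq NN sg : ℕ → ℕ → ℤ) (nu : ℕ → ι → ℤ)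
    (g : ℕ → ι → ℕ) (f : ι → ℕ) (L : Finset ℕ) (z : ℕ),
    PConC R n t s mu U ho vl kp mn pc ar be kq NN sg nu → (∀ i < n, 2 * (t i + 1) ≤ R) →
    LevC n U ho vl kp mn pc (fun u i => mn i u) g f → z < n → z ∉ L →
    (∀ y < n, y ∉ L → R ≤ 2 * (t y + 1) ^ 3) → 3 * R < 40 * (t z + 1) →
    W (t z + 1) (mu z - s z) →
    mu z - s z + 1 ≤ ∑ y ∈ (range n).erase z, rnE U ho vl pc be g z y →
    ∑ y ∈ ((range n).erase z).filter (fun y => y ∉ L),
        (((t y : ℝ) + 1) / ((t z : ℝ) + 1 + ((t y : ℝ) + 1)) * (rnE U ho vl pc be g z y : ℝ)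
        + ((1 - ((t y : ℝ) + 1) / ((t z : ℝ) + 1 + ((t y : ℝ) + 1)))
            * rnHl n U ho g (thLg R t vl kp mn g fr fc) z y
          - ((t y : ℝ) + 1) / ((t z : ℝ) + 1 + ((t y : ℝ) + 1))
            * rnSl n U ho g (thLg R t vl kp mn g fr fc) z y))
      ≤ (mu z : ℝ) - s z + ((t z : ℝ) + 1) / ((R : ℝ) + 1)

/-- **all rows are treated** -/
theorem rowCLg_of_w {R : ℤ} {fr fc : ℤ → ℝ} {W : ℤ → ℤ → Prop} (h : RowCLw R fr fc W)
    (hW : ∀ A d : ℤ, 3 * R < 40 * A → 2 * A ≤ R → 0 ≤ d → d ≤ A → W A d) : RowCLg R fr fc := by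
  intro ι n t s mu U ho vl kp mn pc ar be kq NN sg nu g f L z H hA Lv hz hzL h3 h40 he
  exact h ι n t s mu U ho vl kp mn pc ar be kq NN sg nu g f L z H hA Lv hz hzL h3 h40
    (hW _ _ h40 (hA z hz) (H.d_nonneg hz) (by have := H.dt z hz; linarith)) he

/-- **two windows** -/
theorem RowCLw.or {R : ℤ} {fr fc : ℤ → ℝ} {V W : ℤ → ℤ → Prop} (hV : RowCLw R fr fc V)
    (hW : RowCLw R fr fc W) : RowCLw R fr fc fun A d => V A d ∨ W A d := by
  intro ι n t s mu U ho vl kp mn pc ar be kq NN sg nu g f L z H hA Lv hz hzL h3 h40 h he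
  rcases h with h | h
  · exact hV ι n t s mu U ho vl kp mn pc ar be kq NN sg nu g f L z H hA Lv hz hzL h3 h40 h he
  · exact hW ι n t s mu U ho vl kp mn pc ar be kq NN sg nu g f L z H hA Lv hz hzL h3 h40 h he

/-- **a smaller window** -/
theorem RowCLw.mono {R : ℤ} {fr fc : ℤ → ℝ} {V W : ℤ → ℤ → Prop} (hV : RowCLw R fr fc V)
    (h : ∀ A d : ℤ, 3 * R < 40 * A → 2 * A ≤ R → 0 ≤ d → d ≤ A → W A d → V A d) :
    RowCLw R fr fc W := by
  intro ι n t s mu U ho vl kp mn pc ar be kq NN sg nu g f L z H hA Lv hz hzL h3 h40 hW he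
  exact hV ι n t s mu U ho vl kp mn pc ar be kq NN sg nu g f L z H hA Lv hz hzL h3 h40
    (h _ _ h40 (hA z hz) (H.d_nonneg hz) (by have := H.dt z hz; linarith) hW) he

/-- **many windows** -/
theorem RowCLw.ex {R : ℤ} {fr fc : ℤ → ℝ} {κ : Type*} {W : κ → ℤ → ℤ → Prop}
    (h : ∀ i, RowCLw R fr fc (W i)) : RowCLw R fr fc fun A d => ∃ i, W i A d := by
  intro ι n t s mu U ho vl kp mn pc ar be kq NN sg nu g f L z H hA Lv hz hzL h3 h40 hW he
  obtain ⟨i, hi⟩ := hW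
  exact h i ι n t s mu U ho vl kp mn pc ar be kq NN sg nu g f L z H hA Lv hz hzL h3 h40 hi he

/-- the row claim of a window, table L8 -/
def RowLw (R : ℤ) (W : ℤ → ℤ → Prop) : Prop := RowCLw R (fL8 R) (fLc R) W

/-- **`RowCL R` from the windows** -/
theorem rowCL_of_w {R : ℤ} {W : ℤ → ℤ → Prop} (h : RowLw R W)
    (hW : ∀ A d : ℤ, 3 * R < 40 * A → 2 * A ≤ R → 0 ≤ d → d ≤ A → W A d) : RowCL R :=
  rowCLg_of_w h hW

end Pool.Agent.Lib.MP_f04ccf_co
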