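import Pool.Agent.Lib.MP_f04ccf_co.M.Asm
import Pool.Agent.Lib.MP_f04ccf_co.M.EnumU

/-!
MP_f04ccf_co: the basic integers with covers of a `Core` with at least four rows.
-/

set_option autoImplicit false

namespace Pool.Agent.Lib.MP_f04ccf_co

open Finset

attribute [local instance] Classical.propDecidable

section AsmT

variable {V : Type*} {G : SimpleGraph V} {Z T : Finset V} {hm : V → V} {r m t j p : ℕ}
  {A S : Finset V}

/-- **minimum split covers and the basic integers with covers, in sorted order** -/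
theorem Core.bt (h : Core G Z T r m t j p A S hm) (h4 : 4 ≤ A.card) :
    ∃ (X : V → Finset V) (Y : V → V → Finset V) (ρ : V → ℕ) (σ : ℕ → V),
      (∀ x, MinSp G Z T hm A (fun x => S.filter fun v => hm v = x) x (X x) (Y x)) ∧
      Rank A (tI G Z T hm r S) ρ σ ∧
      BT ((r : ℤ) - 1) A.card (fun i => tI G Z T hm r S (σ i)) (fun i => sI hm r S (σ i))
        (fun i => hI G Z T hm S (σ i)) (fun i => eI G hm S (σ i))
        (fun i j => EI G hm S (σ i) (σ j)) (fun i => tauI G Z T hm A S (σ i))
        (fun i => aI X (σ i)) (fun i => nI G Z T hm S X (σ i))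
        (fun i => wI G Z T hm A S X Y (σ i)) := by
  obtain ⟨ρ, σ, hσ, hB⟩ := h.bi
  obtain ⟨X, Y, hM⟩ := exists_minSp_fun (G := G) (Z := Z) (T := T) (hm := hm) A
    (fun x => S.filter fun v => hm v = x)
  exact ⟨X, Y, ρ, σ, hM, hσ, h.hsys.bt (by have := h.hr; omega) h.F h.gp.P h.H.hh h4 h.H.ok
    (fun x _ => hM x) hσ hB⟩

end AsmT

end Pool.Agent.Lib.MP_f04ccf_co
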