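import Pool.Agent.Lib.MP_f04ccf_co.M.RowQC

/-!
MP_f04ccf_co, TEXT D, middle range: **the caps of a cell, both hosts, in numbers** (`PConC`).

`N` plain items of value one of the host `i` with an end at `j` and `N'` of the host `j` with an end at `i`:

* `PConC.cap2N`: without the PC pairs of the cell; `PConC.cap2MN`: with them;
* `PConC.cap2F`, `PConC.cap2MF`: all items full (their only ends are `i`, `j`): the whole saving.
-/

set_option autoImplicit false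

namespace Pool.Agent.Lib.MP_f04ccf_co

open Finset

attribute [local instance] Classical.propDecidable

section CapVS

variable {ι : Type*} {R : ℤ} {n : ℕ} {t s mu : ℕ → ℤ} {U : Finset ι} {ho : ι → ℕ} {vl : ι → ℤ}
  {kp mn : ℕ → ι → ℤ} {pc ar : ι → ℤ} {be kq NN sg : ℕ → ℕ → ℤ} {nu : ℕ → ι → ℤ}

/-- the cap with any saving -/
theorem PConC.cap2S (H : PConC R n t s mu U ho vl kp mn pc ar be kq NN sg nu) {i j : ℕ}
    (hi : i < n) (hj : j < n) (hij : i ≠ j) {K K' : Finset ι} (hK : K ⊆ U) (hK' : K' ⊆ U)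
    (hKi : ∀ u ∈ K, ho u = i ∧ pc u = 0 ∧ vl u = 1 ∧ kp j u ≠ 0)
    (hKj : ∀ u ∈ K', ho u = j ∧ pc u = 0 ∧ vl u = 1 ∧ kp i u ≠ 0) {N N' sv : ℤ}
    (hN : N = (K.card : ℤ)) (hN' : N' = (K'.card : ℤ))
    (hsv : SvC2 n vl kp pc i j (fun _ => 1) (fun _ => 1) K K' sv) :
    2 * ∑ u ∈ K, (R + t j - mn j u - ar u) + 2 * ∑ u ∈ K', (R + t i - mn i u - ar u) + sv
      ≤ 2 * (R + t i * t j) + 2 * (N + N') * (2 * (N + N') - 1) := by
  have h1 : ∀ u ∈ K, kp j u = 1 := fun u hu =>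
    H.kp_one (hK hu) (hKi u hu).2.2.1 hj (hKi u hu).2.2.2
  have h2 : ∀ u ∈ K', kp i u = 1 := fun u hu =>
    H.kp_one (hK' hu) (hKj u hu).2.2.1 hi (hKj u hu).2.2.2
  have h0 := H.capC i hi j hj hij K hK (fun u hu => (hKi u hu).1) K' hK'
    (fun u hu => (hKj u hu).1) (fun _ => 1) (fun _ => 1) (fun _ _ => le_rfl)
    (fun u hu => by rw [h1 u hu]; norm_num) (fun _ _ => le_rfl)
    (fun u hu => by rw [h2 u hu]; norm_num) 0 (Or.inl le_rfl) sv hsv
  have e1 : ∑ u ∈ K, (R * ((fun _ : ι => (1 : ℕ)) u : ℤ) + (1 - pc u) * t j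
      - msP kp mn j (fun _ => 1) u - ar u) = ∑ u ∈ K, (R + t j - mn j u - ar u) := by
    refine sum_congr rfl fun u hu => ?_
    have h3 : msP kp mn j (fun _ => 1) u = mn j u := by
      unfold msP
      rw [if_pos (by rw [h1 u hu]; norm_num)]
    rw [h3, (hKi u hu).2.1]
    push_cast
    ring
  have e2 : ∑ u ∈ K', (R * ((fun _ : ι => (1 : ℕ)) u : ℤ) + (1 - pc u) * t i
      - msP kp mn i (fun _ => 1) u - ar u) = ∑ u ∈ K', (R + t i - mn i u - ar u) := by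
    refine sum_congr rfl fun u hu => ?_
    have h3 : msP kp mn i (fun _ => 1) u = mn i u := by
      unfold msP
      rw [if_pos (by rw [h2 u hu]; norm_num)]
    rw [h3, (hKj u hu).2.1]
    push_cast
    ring
  have e3 : ∑ u ∈ K, (((fun _ : ι => (1 : ℕ)) u : ℤ) + 1 - pc u) = 2 * N := by
    rw [hN, mul_comm, ← nsmul_eq_mul, ← sum_const]
    exact sum_congr rfl fun u hu => by rw [(hKi u hu).2.1]; norm_num
  have e4 : ∑ u ∈ K', (((fun _ : ι => (1 : ℕ)) u : ℤ) + 1 - pc u) = 2 * N' := by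
    rw [hN', mul_comm, ← nsmul_eq_mul, ← sum_const]
    exact sum_congr rfl fun u hu => by rw [(hKj u hu).2.1]; norm_num
  have e5 : ∑ u ∈ K, pc u = 0 := sum_eq_zero fun u hu => (hKi u hu).2.1
  rw [e1, e2, e3, e4, e5] at h0
  linarith [h0]

/-- the cap with the PC pairs, any saving -/
theorem PConC.cap2MS (H : PConC R n t s mu U ho vl kp mn pc ar be kq NN sg nu) {i j : ℕ}
    (hi : i < n) (hj : j < n) (hij : i ≠ j) {K K' : Finset ι} (hK : K ⊆ U) (hK' : K' ⊆ U)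
    (hKi : ∀ u ∈ K, ho u = i ∧ pc u = 0 ∧ vl u = 1 ∧ kp j u ≠ 0)
    (hKj : ∀ u ∈ K', ho u = j ∧ pc u = 0 ∧ vl u = 1 ∧ kp i u ≠ 0) {N N' β sv : ℤ}
    (hN : N = (K.card : ℤ)) (hN' : N' = (K'.card : ℤ)) (hβ : β = be i j + be j i)
    (hsv : SvC2 n vl kp pc i j (fun _ => 1) (fun _ => 1) K K' sv) :
    2 * ((β - 1) * R)
      + 2 * ∑ u ∈ K, (R + t j - mn j u - ∑ l ∈ ((range n).erase i).erase j, kp l u * be i l)
      + 2 * ∑ u ∈ K', (R + t i - mn i u - ∑ l ∈ ((range n).erase i).erase j, kp l u * be j l) + sv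
      ≤ 2 * (t i * t j) + 2 * β ^ 2 + 4 * β * (N + N')
        + 2 * (N + N') * (2 * (N + N') - 1) := by
  have h1 : ∀ u ∈ K, kp j u = 1 := fun u hu =>
    H.kp_one (hK hu) (hKi u hu).2.2.1 hj (hKi u hu).2.2.2
  have h2 : ∀ u ∈ K', kp i u = 1 := fun u hu =>
    H.kp_one (hK' hu) (hKj u hu).2.2.1 hi (hKj u hu).2.2.2
  have h0 := H.capMC i hi j hj hij K hK (fun u hu => ⟨(hKi u hu).1, (hKi u hu).2.1⟩) K' hK'
    (fun u hu => ⟨(hKj u hu).1, (hKj u hu).2.1⟩) (fun _ => 1) (fun _ => 1) (fun _ _ => le_rfl)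
    (fun u hu => by rw [h1 u hu]; norm_num) (fun _ _ => le_rfl)
    (fun u hu => by rw [h2 u hu]; norm_num) sv hsv
  have e1 : ∑ u ∈ K, (R * ((fun _ : ι => (1 : ℕ)) u : ℤ) + t j - msP kp mn j (fun _ => 1) u
      - ∑ l ∈ ((range n).erase i).erase j, kp l u * be i l)
      = ∑ u ∈ K, (R + t j - mn j u - ∑ l ∈ ((range n).erase i).erase j, kp l u * be i l) := by
    refine sum_congr rfl fun u hu => ?_
    have h3 : msP kp mn j (fun _ => 1) u = mn j u := by
      unfold msP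
      rw [if_pos (by rw [h1 u hu]; norm_num)]
    rw [h3]
    push_cast
    ring
  have e2 : ∑ u ∈ K', (R * ((fun _ : ι => (1 : ℕ)) u : ℤ) + t i - msP kp mn i (fun _ => 1) u
      - ∑ l ∈ ((range n).erase i).erase j, kp l u * be j l)
      = ∑ u ∈ K', (R + t i - mn i u - ∑ l ∈ ((range n).erase i).erase j, kp l u * be j l) := by
    refine sum_congr rfl fun u hu => ?_
    have h3 : msP kp mn i (fun _ => 1) u = mn i u := by
      unfold msP
      rw [if_pos (by rw [h2 u hu]; norm_num)]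
    rw [h3]
    push_cast
    ring
  have e3 : ∑ u ∈ K, (((fun _ : ι => (1 : ℕ)) u : ℤ) + 1) = 2 * N := by
    rw [hN, mul_comm, ← nsmul_eq_mul, ← sum_const]
    exact sum_congr rfl fun u hu => by norm_num
  have e4 : ∑ u ∈ K', (((fun _ : ι => (1 : ℕ)) u : ℤ) + 1) = 2 * N' := by
    rw [hN', mul_comm, ← nsmul_eq_mul, ← sum_const]
    exact sum_congr rfl fun u hu => by norm_num
  rw [e1, e2, e3, e4, ← hβ] at h0
  linarith [h0]

/-- the saving of two concentrated families -/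
lemma svc_two {K K' : Finset ι} {i j : ℕ} (hKi : ∀ u ∈ K, pc u = 0 ∧ vl u = 1)
    (hKj : ∀ u ∈ K', pc u = 0 ∧ vl u = 1) {N N' : ℤ}
    (hN : N = (K.card : ℤ)) (hN' : N' = (K'.card : ℤ)) :
    SvC2 n vl kp pc i j (fun _ => 1) (fun _ => 1) K K'
      (2 * (N * (N - 1)) + 2 * (N' * (N' - 1))) := by
  refine Or.inr (Or.inr ?_)
  have h2 : K.filter (fun u => ((fun _ : ι => (1 : ℕ)) u : ℤ) = vl u ∧ pc u = 0) = K :=
    filter_true_of_mem fun u hu => ⟨by rw [(hKi u hu).2]; norm_num, (hKi u hu).1⟩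
  have h3 : K'.filter (fun u => ((fun _ : ι => (1 : ℕ)) u : ℤ) = vl u ∧ pc u = 0) = K' :=
    filter_true_of_mem fun u hu => ⟨by rw [(hKj u hu).2]; norm_num, (hKj u hu).1⟩
  rw [h2, h3, ← hN, ← hN']

/-- the saving of full items -/
lemma svc_full {K K' : Finset ι} {i j : ℕ} (hi : i < n) (hj : j < n) (hij : i ≠ j)
    (hKi : ∀ u ∈ K, pc u = 0 ∧ ∀ l < n, l ≠ i → l ≠ j → kp l u = 0)
    (hKj : ∀ u ∈ K', pc u = 0 ∧ ∀ l < n, l ≠ i → l ≠ j → kp l u = 0) {N N' : ℤ}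
    (hN : N = (K.card : ℤ)) (hN' : N' = (K'.card : ℤ)) :
    SvC2 n vl kp pc i j (fun _ => 1) (fun _ => 1) K K' (2 * ((N + N') * (N + N' - 1))) := by
  refine Or.inr (Or.inl ⟨{i, j}, ?_, by simp, by simp, ?_, ?_, N + N' - 1, ?_⟩)
  · intro x hx
    rcases mem_insert.1 hx with h | h
    · rw [h]; exact mem_range.2 hi
    · rw [mem_singleton.1 h]; exact mem_range.2 hj
  · intro u hu l hl h1
    by_contra h2
    rw [mem_insert, mem_singleton] at h2
    push Not at h2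
    exact h1 ((hKi u hu).2 l hl h2.1 h2.2)
  · intro u hu l hl h1
    by_contra h2
    rw [mem_insert, mem_singleton] at h2
    push Not at h2
    exact h1 ((hKj u hu).2 l hl h2.1 h2.2)
  · have e3 : ∑ u ∈ K, (((fun _ : ι => (1 : ℕ)) u : ℤ) + 1 - pc u) = 2 * N := by
      rw [hN, mul_comm, ← nsmul_eq_mul, ← sum_const]
      exact sum_congr rfl fun u hu => by rw [(hKi u hu).1]; norm_num
    have e4 : ∑ u ∈ K', (((fun _ : ι => (1 : ℕ)) u : ℤ) + 1 - pc u) = 2 * N' := by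
      rw [hN', mul_comm, ← nsmul_eq_mul, ← sum_const]
      exact sum_congr rfl fun u hu => by rw [(hKj u hu).1]; norm_num
    rw [e3, e4, card_pair hij]
    push_cast
    linarith

end CapVS

end Pool.Agent.Lib.MP_f04ccf_co
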