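import Pool.Agent.Lib.MP_f04ccf_co.M.VShr
import Pool.Agent.Lib.MP_f04ccf_co.M.CapV

/-!
MP_f04ccf_co, TEXT D, middle range: **ALL FACTS OF ONE ROW AS NATURAL NUMBERS** (`RowV`), for the kernel loops; no
table is fixed here.

Row of mass `A`, deficiency `d`, the other rows `y ∈ P` with the numbers of the cell:

* `B` mass; `p` block pairs, `x` Konig pairs (hosted, tail `y`), `q` PC pairs of the host `y` (served);
* hosted plain items booked at `y`: `mf` full, `mh` halves with `mhb` misses (and `mha` arcs for the caps), cliques: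
  `mc` units, `mcb` misses, `mcn` items, `mcv` their whole value; `hn` all plain hosted items, `h` their value;
* served plain items of the host `y`: `kf` full, `kh` halves (`khb` misses, `kha` arcs at the other end), cliques:
  `kc` units, `kca` items, `kcb` misses, `kcr` arcs (all);
* `sg` single parts, `en` plain hosted items with the end `y`, `nn` the excess of the PC pairs.

`LevC.rowV`: every row of `PConC` with levels (main end = fewer misses) satisfies `RowV` (`S y` any set of served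
halves of the host `y`: all of them for RULE Q, those with main end `z` for a one-ended table).
-/

set_option autoImplicit false

namespace Pool.Agent.Lib.MP_f04ccf_co

open Finset

attribute [local instance] Classical.propDecidable

/-- possible numbers of PC pairs of two rows of masses `A`, `B` -/
def JOk (R A B m : ℕ) : Prop :=
  m ≤ A ∧ m ≤ B ∧ ∀ m' : ℕ, m' ≤ m → ((m' : ℤ) - 1) * R ≤ ((A : ℤ) - 1) * ((B : ℤ) - 1) + (m' : ℤ) ^ 2

/-- the cap with the `M` PC pairs of the cell, saving `sv` -/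
def CapVM (R A B M a k b w sv : ℤ) : Prop :=
  2 * ((M - 1) * R) + 2 * (a * (R + B - 1) + k * (R + A - 1) - b - w) + sv
    ≤ 2 * ((A - 1) * (B - 1)) + 2 * M ^ 2 + 4 * M * (a + k) + 2 * (a + k) * (2 * (a + k) - 1)

/-- the cap without the PC pairs of the cell (`p` hosted, `q` served), saving `sv` -/
def CapVO (R A B p q a k b w sv : ℤ) : Prop :=
  2 * (a * (R + B - 1 - p) + k * (R + A - 1 - q) - b - w) + sv
    ≤ 2 * (R + (A - 1) * (B - 1)) + 2 * (a + k) * (2 * (a + k) - 1)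

/-- **all facts of one row** -/
structure RowV (R : ℕ) (P : Finset ℕ) (A d hn h : ℕ)
    (B p x q mf mh mhb mha mc mcb mcn mcv kf kh khb kha kc kca kcb kcr sg en nn : ℕ → ℕ) : Prop where
  A1 : 1 ≤ A
  B1 : ∀ y ∈ P, 1 ≤ B y
  P4 : 4 ≤ P.card
  mass : A + ∑ y ∈ P, B y ≤ R
  dA : d ≤ A
  bqB : ∀ y ∈ P, p y + x y + q y ≤ B y ∧ p y + x y + q y ≤ A
  jsub : ∀ y ∈ P, ∀ m : ℕ, m ≤ p y + x y + q y →
    ((m : ℤ) - 1) * R ≤ ((A : ℤ) - 1) * ((B y : ℤ) - 1) + (m : ℤ) ^ 2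
  hS : h = ∑ y ∈ P, (mf y + mh y + mc y)
  hn1 : ∑ y ∈ P, (mf y + mh y) ≤ hn
  hn2 : hn ≤ h
  mcn1 : ∀ y ∈ P, mcn y ≤ mc y ∧ mc y ≤ mcv y ∧ 2 * mcn y ≤ mcv y
  kca1 : ∀ y ∈ P, kca y ≤ kc y ∧ kc y ≤ 2 * kca y
  mhbM : ∀ y ∈ P, ∀ N : ℕ, (∀ w ∈ P, w ≠ y → ∀ b b' : ℕ, HOk R A (B y) b (B w) b' → b ≤ N) →
    mhb y ≤ mh y * N
  mcbM : ∀ y ∈ P, ∀ N : ℕ, (∀ w ∈ P, w ≠ y → ∀ b : ℕ, b * b ≤ R + (B y - 1) * (B w - 1) → b ≤ N) →
    mcb y ≤ mcn y * N
  kcbM : ∀ y ∈ P, ∀ N : ℕ, (∀ w ∈ P, w ≠ y → ∀ b : ℕ, b * b ≤ R + (A - 1) * (B w - 1) → b ≤ N) →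
    kcb y ≤ kca y * N
  sgs : ∑ y ∈ P, sg y + hn + d ≤ A
  ens : ∑ y ∈ P, (en y + mf y) ≤ h + hn
  enb : ∀ y ∈ P, mf y + mh y + mcn y ≤ en y
  khaM : ∀ y ∈ P, ∀ N : ℕ, (∀ w ∈ P, w ≠ y → ∀ m : ℕ, JOk R (B y) (B w) m → m ≤ N) →
    kha y ≤ kh y * N
  mhaM : ∀ y ∈ P, ∀ N : ℕ, (∀ w ∈ P, w ≠ y → ∀ m : ℕ, JOk R A (B w) m → m ≤ N) →
    mha y ≤ mh y * N
  khbM : ∀ y ∈ P, ∀ N : ℕ, (∀ w ∈ P, w ≠ y → ∀ b b' : ℕ, SOk R A (B y) b (B w) b' → b ≤ b' →
    b ≤ N) → khb y ≤ kh y * N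
  nnz : ∀ y ∈ P, p y + x y = 0 → nn y = 0
  nnb : ∀ y ∈ P, ∀ v : ℕ, (1 + (A - 1) * (B y - 1) < (v + 1) ^ 2 ∨
      ((A : ℤ) - 1) * ((B y : ℤ) - 1) + ((p y : ℤ) + x y) ^ 2
        < ((p y : ℤ) + x y - 1) * R + (max 0 ((v : ℤ) + 2 - (p y + x y))) ^ 2) →
    nn y ≤ (p y + x y) * (p y + x y + 1) + 2 * ((p y + x y) * v)
  /- the caps -/
  cap : ∀ y ∈ P, ∀ a1 a2 k1 k2 : ℕ, a1 ≤ mf y → a2 ≤ mh y → k1 ≤ kf y → k2 ≤ kh y →
    ∃ b' w' : ℤ, 0 ≤ b' ∧ b' ≤ (mhb y : ℤ) + mha y ∧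
      (mh y : ℤ) * b' ≤ a2 * ((mhb y : ℤ) + mha y) ∧ 0 ≤ w' ∧ w' ≤ (khb y : ℤ) + kha y ∧
      (kh y : ℤ) * w' ≤ k2 * ((khb y : ℤ) + kha y) ∧
      ∀ sv : ℤ, (sv = 2 * (((a1 : ℤ) + a2) * (a1 + a2 - 1)) + 2 * (((k1 : ℤ) + k2) * (k1 + k2 - 1)) ∨
        (a2 = 0 ∧ k2 = 0 ∧ sv = 2 * (((a1 : ℤ) + k1) * (a1 + k1 - 1)))) →
      CapVM R A (B y) ((p y : ℤ) + x y + q y) ((a1 : ℤ) + a2) ((k1 : ℤ) + k2) b' w' sv ∧
      CapVO R A (B y) ((p y : ℤ) + x y) (q y) ((a1 : ℤ) + a2) ((k1 : ℤ) + k2) b' w' sv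
  /- the column tests, everything kept -/
  colK : ∀ y ∈ P, ∀ q' kf' kh' c : ℕ, q' ≤ q y → kf' ≤ kf y → kh' ≤ kh y → c ≤ 1 → ∃ w' : ℤ,
    0 ≤ w' ∧ w' ≤ (khb y : ℤ) + kha y ∧ (kh y : ℤ) * w' ≤ kh' * ((khb y : ℤ) + kha y) ∧
    ∀ Y ⊆ P.erase y,
    ColN R A (B y) d h (∑ l ∈ P.erase y \ Y, (p l : ℤ))
      (((mf y : ℤ) + mh y + mc y) * (R + 1 - B y) - ((mhb y : ℤ) + mcb y)) ((p y : ℤ) + x y + q')
      ((kf' : ℤ) + kh' + c * kc y) ((kf' : ℤ) + kh' + c * kca y) ((kf' : ℤ) + kh')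
      (w' + kh' * q y + c * ((kcb y : ℤ) + kcr y)) ((hn : ℤ) * (hn - 1))
      (blkE (fun l => (p l : ℤ)) (fun l => (sg l : ℤ)) (fun l => (en l : ℤ)) (P.erase y) Y)
      (((q y : ℤ) - q') * kf')
  /- the column tests, the items booked at `y` kept -/
  colO : ∀ y ∈ P, ∀ q' kf' kh' c : ℕ, q' ≤ q y → kf' ≤ kf y → kh' ≤ kh y → c ≤ 1 → ∃ w' : ℤ,
    0 ≤ w' ∧ w' ≤ (khb y : ℤ) + kha y ∧ (kh y : ℤ) * w' ≤ kh' * ((khb y : ℤ) + kha y) ∧
    ∀ Y ⊆ P.erase y,
    ColN R A (B y) ((d : ℤ) + hn - ((mf y : ℤ) + mh y + mcn y)) ((mf y : ℤ) + mh y + mcv y)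
      (∑ l ∈ P.erase y \ Y, (p l : ℤ))
      (((mf y : ℤ) + mh y + mc y) * (R + 1 - B y) - ((mhb y : ℤ) + mcb y)) ((p y : ℤ) + x y + q')
      ((kf' : ℤ) + kh' + c * kc y) ((kf' : ℤ) + kh' + c * kca y) ((kf' : ℤ) + kh')
      (w' + kh' * q y + c * ((kcb y : ℤ) + kcr y))
      (((mf y : ℤ) + mh y + mcn y) * (((mf y : ℤ) + mh y + mcn y) - 1))
      (blkE (fun l => (p l : ℤ)) (fun l => (sg l : ℤ)) (fun l => (en l : ℤ)) (P.erase y) Y)
      (((q y : ℤ) - q') * kf')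
  /- the column tests, `mf'` full items and `mh'` halves booked at `y` kept; `pm` bounds the block pairs -/
  colD : ∀ y ∈ P, ∀ pm : ℕ, (∀ l ∈ P, l ≠ y → p l ≤ pm) → ∀ mf' mh' : ℕ, mf' ≤ mf y →
    mh' ≤ mh y → ∀ q' kf' kh' c : ℕ, q' ≤ q y → kf' ≤ kf y → kh' ≤ kh y → c ≤ 1 → ∃ b' w' : ℤ,
    0 ≤ b' ∧ b' ≤ mhb y ∧ (mh y : ℤ) * b' ≤ mh' * (mhb y : ℤ) ∧
    0 ≤ w' ∧ w' ≤ (khb y : ℤ) + kha y ∧ (kh y : ℤ) * w' ≤ kh' * ((khb y : ℤ) + kha y) ∧
    ∀ Y ⊆ P.erase y,
    ColN R A (B y) ((d : ℤ) + hn - ((mf' : ℤ) + mh')) ((mf' : ℤ) + mh')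
      (∑ l ∈ P.erase y \ Y, (p l : ℤ))
      (((mf' : ℤ) + mh') * (R + 1 - B y) - b') ((p y : ℤ) + x y + q')
      ((kf' : ℤ) + kh' + c * kc y) ((kf' : ℤ) + kh' + c * kca y) ((kf' : ℤ) + kh')
      (w' + kh' * q y + c * ((kcb y : ℤ) + kcr y)) (((mf' : ℤ) + mh') * (((mf' : ℤ) + mh') - 1))
      (∑ l ∈ P.erase y \ Y, (p l : ℤ) * (p l + 1) + 2 * ∑ l ∈ Y, (p l : ℤ) * sg l
        + 2 * (if Y = ∅ then 0 else (mh' : ℤ) * pm))
      (((q y : ℤ) - q') * kf')
  /- the exact row test, tzN and the global bound -/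
  row : ∀ q' kf' kh' c : ℕ → ℕ,
    (∀ y ∈ P, q' y ≤ q y ∧ kf' y ≤ kf y ∧ kh' y ≤ kh y ∧ c y ≤ 1) → ∃ b' : ℕ → ℤ,
    (∀ y ∈ P, 0 ≤ b' y ∧ b' y ≤ khb y ∧ (kh y : ℤ) * b' y ≤ kh' y * (khb y : ℤ)) ∧
    (∀ X ⊆ P, ∀ Y ⊆ X, TesC R A d
      ((h : ℤ) + ∑ l ∈ P \ X, (x l : ℤ) + ∑ l ∈ P \ Y, (p l : ℤ))
      (∑ y ∈ P, ((q' y : ℤ) + (kf' y + kh' y + c y * kc y)))
      (∑ y ∈ P, ((q' y : ℤ) + (kf' y + kh' y + c y * kca y)))
      (∑ y ∈ P, (b' y + c y * kcb y))
      (∑ y ∈ P, (((q' y : ℤ) + (kf' y + kh' y)) * ((q' y : ℤ) + (kf' y + kh' y) - 1)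
        + ((kf' y : ℤ) + kh' y) * ((kf' y : ℤ) + kh' y - 1)) + (hn : ℤ) * (hn - 1))
      (blkE (fun l => (p l : ℤ)) (fun l => (sg l : ℤ)) (fun l => (en l : ℤ)) X Y
        + ∑ l ∈ P \ X, (nn l : ℤ))) ∧
    (∀ X ⊆ P, ∀ Y ⊆ X, TesC R A ((d : ℤ) + hn)
      (∑ l ∈ P \ X, (x l : ℤ) + ∑ l ∈ P \ Y, (p l : ℤ))
      (∑ y ∈ P, ((q' y : ℤ) + (kf' y + kh' y + c y * kc y)))
      (∑ y ∈ P, ((q' y : ℤ) + (kf' y + kh' y + c y * kca y)))
      (∑ y ∈ P, (b' y + c y * kcb y))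
      (∑ y ∈ P, (((q' y : ℤ) + (kf' y + kh' y)) * ((q' y : ℤ) + (kf' y + kh' y) - 1)
        + ((kf' y : ℤ) + kh' y) * ((kf' y : ℤ) + kh' y - 1)) + 0)
      (blkE (fun l => (p l : ℤ)) (fun l => (sg l : ℤ)) (fun _ => 0) X Y
        + ∑ l ∈ P \ X, (nn l : ℤ))) ∧
    (∀ xx : ℕ, xx ≤ ∑ l ∈ P, x l → ∀ e : ℤ,
      e = (h : ℤ) + ∑ l ∈ P, ((p l : ℤ) + x l) - xx
        + ∑ y ∈ P, ((q' y : ℤ) + (kf' y + kh' y + c y * kc y)) → 2 * e ≤ R →
      (R - 2 * e) * (e - d) ≤ A * e + ∑ y ∈ P, (b' y + c y * kcb y)) ∧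
    (∀ xx : ℕ, xx ≤ ∑ l ∈ P, x l → ∀ e : ℤ,
      e = ∑ l ∈ P, ((p l : ℤ) + x l) - xx
        + ∑ y ∈ P, ((q' y : ℤ) + (kf' y + kh' y + c y * kc y)) → 2 * e ≤ R →
      (R - 2 * e) * (e - ((d : ℤ) + hn)) ≤ A * e + ∑ y ∈ P, (b' y + c y * kcb y)) ∧
    (h : ℤ) + ∑ l ∈ P, ((p l : ℤ) + x l) + ∑ y ∈ P, ((q' y : ℤ) + (kf' y + kh' y + c y * kc y))
      - 1 - (R - A) ≤ d

section RowVS

variable {ι : Type*} {R : ℕ} {n : ℕ} {t s mu : ℕ → ℤ} {U : Finset ι} {ho : ι → ℕ} {vl : ι → ℤ}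
  {kp mn : ℕ → ι → ℤ} {pc ar : ι → ℤ} {be kq NN sg : ℕ → ℕ → ℤ} {nu : ℕ → ι → ℤ} {z : ℕ}
  {g : ℕ → ι → ℕ} {f : ι → ℕ}

/-! ### the numbers -/

/-- the deficiency -/
def nD (s mu : ℕ → ℤ) (z : ℕ) : ℕ := (mu z - s z).toNat

/-- block pairs -/
def nP (be kq : ℕ → ℕ → ℤ) (z y : ℕ) : ℕ := (be z y - kq z y).toNat

/-- Konig pairs -/
def nX (kq : ℕ → ℕ → ℤ) (z y : ℕ) : ℕ := (kq z y).toNat

/-- served PC pairs -/
def nQ (be : ℕ → ℕ → ℤ) (z y : ℕ) : ℕ := (be y z).toNat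

/-- the whole value of the plain hosted items -/
noncomputable def nH (U : Finset ι) (ho : ι → ℕ) (vl pc : ι → ℤ) (z : ℕ) : ℕ :=
  (∑ u ∈ vP0 U ho pc z, vl u).toNat

/-- misses of the hosted halves -/
noncomputable def nMhb (U : Finset ι) (ho : ι → ℕ) (vl : ι → ℤ) (kp mn : ℕ → ι → ℤ) (pc : ι → ℤ)
    (g : ℕ → ι → ℕ) (f : ι → ℕ) (z y : ℕ) : ℕ :=
  ∑ u ∈ vHH U ho vl kp pc g f z y, rb mn y u

/-- arcs of the hosted halves (for the caps) -/
noncomputable def nMha (n : ℕ) (U : Finset ι) (ho : ι → ℕ) (vl : ι → ℤ) (kp : ℕ → ι → ℤ)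
    (pc : ι → ℤ) (be : ℕ → ℕ → ℤ) (g : ℕ → ι → ℕ) (f : ι → ℕ) (z y : ℕ) : ℕ :=
  (∑ u ∈ vHH U ho vl kp pc g f z y, ∑ l ∈ ((range n).erase z).erase y, kp l u * be z l).toNat

/-- units of the hosted cliques -/
noncomputable def nMc (U : Finset ι) (ho : ι → ℕ) (vl : ι → ℤ) (pc : ι → ℤ)
    (g : ℕ → ι → ℕ) (z y : ℕ) : ℕ := ∑ u ∈ vHC U ho vl pc g z y, g y u

/-- misses of the hosted cliques -/
noncomputable def nMcb (U : Finset ι) (ho : ι → ℕ) (vl : ι → ℤ) (kp mn : ℕ → ι → ℤ) (pc : ι → ℤ)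
    (g : ℕ → ι → ℕ) (z y : ℕ) : ℕ := (∑ u ∈ vHC U ho vl pc g z y, msP kp mn y (g y) u).toNat

/-- value of the hosted cliques with a unit at `y` -/
noncomputable def nMcv (U : Finset ι) (ho : ι → ℕ) (vl : ι → ℤ) (pc : ι → ℤ)
    (g : ℕ → ι → ℕ) (z y : ℕ) : ℕ := (∑ u ∈ vHC U ho vl pc g z y, vl u).toNat

/-- misses of served halves -/
noncomputable def nKhb (mn : ℕ → ι → ℤ) (S : ℕ → Finset ι) (z y : ℕ) : ℕ := ∑ u ∈ S y, rb mn z u

/-- arcs of a served half at its other end -/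
noncomputable def arW (n : ℕ) (kp : ℕ → ι → ℤ) (be : ℕ → ℕ → ℤ) (z y : ℕ) (u : ι) : ℤ :=
  ∑ l ∈ ((range n).erase z).erase y, kp l u * be y l

/-- arcs of served halves -/
noncomputable def nKha (n : ℕ) (kp : ℕ → ι → ℤ) (be : ℕ → ℕ → ℤ) (S : ℕ → Finset ι) (z y : ℕ) : ℕ :=
  (∑ u ∈ S y, arW n kp be z y u).toNat

/-- units of served cliques -/
noncomputable def nKc (U : Finset ι) (ho : ι → ℕ) (vl : ι → ℤ) (pc : ι → ℤ)
    (g : ℕ → ι → ℕ) (z y : ℕ) : ℕ := ∑ u ∈ vSC U ho vl pc g z y, g z u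

/-- misses of served cliques -/
noncomputable def nKcb (U : Finset ι) (ho : ι → ℕ) (vl : ι → ℤ) (kp mn : ℕ → ι → ℤ) (pc : ι → ℤ)
    (g : ℕ → ι → ℕ) (z y : ℕ) : ℕ := (∑ u ∈ vSC U ho vl pc g z y, msP kp mn z (g z) u).toNat

/-- arcs of served cliques -/
noncomputable def nKcr (n : ℕ) (U : Finset ι) (ho : ι → ℕ) (vl : ι → ℤ) (kp : ℕ → ι → ℤ)
    (pc : ι → ℤ) (be : ℕ → ℕ → ℤ) (g : ℕ → ι → ℕ) (z y : ℕ) : ℕ :=
  (∑ u ∈ vSC U ho vl pc g z y, rnA n kp be z y u).toNat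

/-- plain hosted items with the end `y` -/
noncomputable def nE (U : Finset ι) (ho : ι → ℕ) (kp : ℕ → ι → ℤ) (pc : ι → ℤ) (z y : ℕ) : ℕ :=
  (U.filter fun u => ho u = z ∧ pc u = 0 ∧ kp y u ≠ 0).card

lemma PConC.nums (H : PConC (R : ℤ) n t s mu U ho vl kp mn pc ar be kq NN sg nu) (hz : z < n) :
    ((nD s mu z : ℕ) : ℤ) = mu z - s z ∧
    (∀ y < n, ((nP be kq z y : ℕ) : ℤ) = be z y - kq z y) ∧
    (∀ y < n, ((nX kq z y : ℕ) : ℤ) = kq z y) ∧
    (∀ y < n, ((nQ be z y : ℕ) : ℤ) = be y z) ∧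
    ((nH U ho vl pc z : ℕ) : ℤ) = ∑ u ∈ vP0 U ho pc z, vl u := by
  refine ⟨?_, fun y hy => ?_, fun y hy => ?_, fun y hy => ?_, ?_⟩
  · exact Int.toNat_of_nonneg (H.d_nonneg hz)
  · exact Int.toNat_of_nonneg (by linarith [H.kqb z hz y hy])
  · exact Int.toNat_of_nonneg (H.kq0 z hz y hy)
  · exact Int.toNat_of_nonneg (H.be0 y hy z hz)
  · exact Int.toNat_of_nonneg (sum_nonneg fun u hu => by
      have := H.v1 u (mem_filter.1 hu).1
      linarith)

lemma PConC.rnA0 (H : PConC (R : ℤ) n t s mu U ho vl kp mn pc ar be kq NN sg nu) {y : ℕ}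
    (hy : y < n) (u : ι) : 0 ≤ rnA n kp be z y u := by
  unfold rnA
  split_ifs
  · exact sum_nonneg fun l hl => H.be0 y hy l (mem_range.1 (mem_of_mem_erase (mem_filter.1 hl).1))
  · exact le_rfl

lemma PConC.arW0 (H : PConC (R : ℤ) n t s mu U ho vl kp mn pc ar be kq NN sg nu) {y : ℕ}
    (hy : y < n) {u : ι} (hu : u ∈ U) : 0 ≤ arW n kp be z y u := by
  unfold arW
  exact sum_nonneg fun l hl => by
    have hl' : l < n := mem_range.1 (mem_of_mem_erase (mem_of_mem_erase hl))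
    exact mul_nonneg (H.k0 u hu l hl') (H.be0 y hy l hl')

/-- all arcs of a served half -/
lemma LevC.rnA_half {φ : ι → ℕ → ℤ} (Lv : LevC n U ho vl kp mn pc φ g f)
    (H : PConC (R : ℤ) n t s mu U ho vl kp mn pc ar be kq NN sg nu) (hz : z < n) {y : ℕ}
    (hyz : y ≠ z) {u : ι} (hu : u ∈ vSH U ho vl kp pc g f z y) :
    rnA n kp be z y u = be y z + arW n kp be z y u := by
  have h0 := ((Lv.use_fact (be := be) H.toPCon hz y).2.1 u hu).2.2.2
  obtain ⟨h1, h2, h3, h4, h5, h6⟩ := mem_filter.1 hu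
  unfold rnA arW
  rw [if_pos h0, sum_filter]
  have e1 : ∀ l ∈ (range n).erase y, (if kp l u ≠ 0 then be y l else 0) = kp l u * be y l := by
    intro l hl
    by_cases h7 : kp l u = 0
    · rw [h7, if_neg (fun h => h rfl), zero_mul]
    · rw [if_pos h7, H.kp_one h1 h4 (mem_range.1 (mem_of_mem_erase hl)) h7, one_mul]
  rw [sum_congr rfl e1, erase_right_comm,
    ← add_sum_erase ((range n).erase y) (fun l => kp l u * be y l)
      (mem_erase.2 ⟨hyz.symm, mem_range.2 hz⟩), H.kp_one h1 h4 hz h5, one_mul]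

lemma PConC.msP0 (H : PConC (R : ℤ) n t s mu U ho vl kp mn pc ar be kq NN sg nu) {y : ℕ}
    (hy : y < n) (a : ι → ℕ) {u : ι} (hu : u ∈ U) : 0 ≤ msP kp mn y a u := by
  unfold msP
  split_ifs
  · exact H.m0 u hu y hy
  · exact le_rfl

/-- the numbers of the plain items -/
lemma PConC.nums2 (H : PConC (R : ℤ) n t s mu U ho vl kp mn pc ar be kq NN sg nu) (hz : z < n)
    {y : ℕ} (hy : y < n) {S : ℕ → Finset ι} (hS : ∀ y, S y ⊆ U) :
    ((nMhb U ho vl kp mn pc g f z y : ℕ) : ℤ) = ∑ u ∈ vHH U ho vl kp pc g f z y, mn y u ∧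
    ((nMc U ho vl pc g z y : ℕ) : ℤ) = ∑ u ∈ vHC U ho vl pc g z y, (g y u : ℤ) ∧
    ((nMcb U ho vl kp mn pc g z y : ℕ) : ℤ) = ∑ u ∈ vHC U ho vl pc g z y, msP kp mn y (g y) u ∧
    ((nMcv U ho vl pc g z y : ℕ) : ℤ) = ∑ u ∈ vHC U ho vl pc g z y, vl u ∧
    ((nKhb mn S z y : ℕ) : ℤ) = ∑ u ∈ S y, mn z u ∧
    ((nKha n kp be S z y : ℕ) : ℤ) = ∑ u ∈ S y, arW n kp be z y u ∧
    ((nKc U ho vl pc g z y : ℕ) : ℤ) = ∑ u ∈ vSC U ho vl pc g z y, (g z u : ℤ) ∧
    ((nKcb U ho vl kp mn pc g z y : ℕ) : ℤ) = ∑ u ∈ vSC U ho vl pc g z y, msP kp mn z (g z) u ∧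
    ((nKcr n U ho vl kp pc be g z y : ℕ) : ℤ) = ∑ u ∈ vSC U ho vl pc g z y, rnA n kp be z y u := by
  refine ⟨?_, ?_, ?_, ?_, ?_, ?_, ?_, ?_, ?_⟩
  · unfold nMhb
    rw [Nat.cast_sum]
    exact sum_congr rfl fun u hu => H.rb_eq (mem_filter.1 hu).1 hy
  · unfold nMc
    rw [Nat.cast_sum]
  · exact Int.toNat_of_nonneg (sum_nonneg fun u hu => H.msP0 hy _ (mem_filter.1 hu).1)
  · exact Int.toNat_of_nonneg (sum_nonneg fun u hu => by
      have := H.v1 u (mem_filter.1 hu).1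
      linarith)
  · unfold nKhb
    rw [Nat.cast_sum]
    exact sum_congr rfl fun u hu => H.rb_eq (hS y hu) hz
  · exact Int.toNat_of_nonneg (sum_nonneg fun u hu => H.arW0 hy (hS y hu))
  · unfold nKc
    rw [Nat.cast_sum]
  · exact Int.toNat_of_nonneg (sum_nonneg fun u hu => H.msP0 hz _ (mem_filter.1 hu).1)
  · exact Int.toNat_of_nonneg (sum_nonneg fun u _ => H.rnA0 hy u)

/-- the plain hosted value by cells -/
lemma LevC.nH_sum {φ : ι → ℕ → ℤ} (Lv : LevC n U ho vl kp mn pc φ g f)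
    (H : PConC (R : ℤ) n t s mu U ho vl kp mn pc ar be kq NN sg nu) (hz : z < n) :
    ∑ u ∈ vP0 U ho pc z, vl u = ∑ y ∈ (range n).erase z,
      (((vHF U ho vl kp pc g f z y).card : ℤ) + ((vHH U ho vl kp pc g f z y).card : ℤ)
        + ∑ u ∈ vHC U ho vl pc g z y, (g y u : ℤ)) := by
  have h1 := H.bk_sum hz Lv.sum Lv.home
  unfold vP0
  rw [h1]
  refine sum_congr rfl fun y hy => ?_
  have hyn : y < n := mem_range.1 (mem_of_mem_erase hy)
  have h2 := Lv.bk_split (z := z) (pc := pc) (ho := ho) H.toPCon hyn (G := fun u => (g y u : ℤ))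
    fun u _ h => by rw [h]; rfl
  unfold vP0 at h2
  rw [h2, sum_congr rfl fun u hu => by rw [(Lv.hf_fact hyn hu).2.2.2.2.1],
    sum_congr (s₁ := vHH U ho vl kp pc g f z y) rfl fun u hu => by
      rw [(Lv.hh_fact H.toPCon hyn hu).2.2.2.1]]
  simp

/-- the hosted value -/
lemma PConC.mu_nums (H : PConC (R : ℤ) n t s mu U ho vl kp mn pc ar be kq NN sg nu) (hz : z < n) :
    mu z = ∑ l ∈ (range n).erase z, be z l + ∑ u ∈ vP0 U ho pc z, vl u := H.mu_plain hz

/-- misses of a clique unit at a main end -/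
lemma LevC.cl_miss (Lv : LevC n U ho vl kp mn pc (fun u i => mn i u) g f)
    (H : PConC (R : ℤ) n t s mu U ho vl kp mn pc ar be kq NN sg nu) {y : ℕ} (hy : y < n) {u : ι}
    (hu : u ∈ U) (hg : g y u ≠ 0) :
    msP kp mn y (g y) u = 0 ∨ (f u ≠ y ∧ msP kp mn y (g y) u = mn y u ∧
      mn y u * mn y u ≤ R + t y * t (f u)) := by
  by_cases h1 : y = f u
  · left
    rcases Lv.typ u hu with ⟨-, -, -, h2, -⟩ | ⟨-, h2, -⟩
    · unfold msP
      rw [h1, h2, ite_self]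
    · unfold msP
      rw [h1, if_neg]
      rw [← h2]
      push Not
      linarith
  · right
    have h3 : kp y u ≠ 0 := by
      intro h4
      have := Lv.le u hu y hy
      rw [h4] at this
      omega
    rcases Lv.typ u hu with ⟨-, -, -, -, h2⟩ | ⟨-, -, h2, h4⟩
    · exact absurd (h2 y hy h1) h3
    · refine ⟨fun h => h1 h.symm, ?_, ?_⟩
      · unfold msP
        rw [h2 y hy h1, if_pos le_rfl]
      · have h5 := h4 y hy h3
        have h6 := H.mpr u hu y hy (f u) (Lv.fn u hu) h1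
        have h7 := H.m0 u hu y hy
        nlinarith

/-- the used items of a cell, the halves chosen by the weight `w0` -/
lemma LevC.useN (Lv : LevC n U ho vl kp mn pc (fun u i => mn i u) g f)
    (H : PConC (R : ℤ) n t s mu U ho vl kp mn pc ar be kq NN sg nu) (hz : z < n) {y : ℕ}
    (hy : y ∈ (range n).erase z) {S : ℕ → Finset ι}
    (hS : ∀ y, S y ⊆ vSH U ho vl kp pc g f z y) {q' kf' kh' c : ℕ} (h1 : q' ≤ nQ be z y)
    (h2 : kf' ≤ (vSF U ho vl kp pc g f z y).card) (h3 : kh' ≤ (S y).card) (h4 : c ≤ 1) :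
    (∃ b' w' : ℤ, 0 ≤ b' ∧ b' ≤ (nKhb mn S z y : ℤ) ∧
      ((S y).card : ℤ) * b' ≤ kh' * (nKhb mn S z y : ℤ) ∧
      UseC n U ho vl kp mn pc be (lvQ vl kp g z) z y q'
        (kf' + kh' + c * (nKc U ho vl pc g z y : ℤ))
        (kf' + kh' + c * ((vSC U ho vl pc g z y).card : ℤ)) (kf' + kh')
        (b' + c * (nKcb U ho vl kp mn pc g z y : ℤ)) w' kf') ∧
    (∃ b' w' : ℤ, 0 ≤ w' ∧ w' ≤ (nKhb mn S z y : ℤ) + nKha n kp be S z y ∧
      ((S y).card : ℤ) * w' ≤ kh' * ((nKhb mn S z y : ℤ) + nKha n kp be S z y) ∧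
      UseC n U ho vl kp mn pc be (lvQ vl kp g z) z y q'
        (kf' + kh' + c * (nKc U ho vl pc g z y : ℤ))
        (kf' + kh' + c * ((vSC U ho vl pc g z y).card : ℤ)) (kf' + kh')
        b' (w' + kh' * (nQ be z y : ℤ)
          + c * ((nKcb U ho vl kp mn pc g z y : ℤ) + nKcr n U ho vl kp pc be g z y)) kf') := by
  have hyn : y < n := mem_range.1 (mem_of_mem_erase hy)
  have hSU : ∀ y, S y ⊆ U := fun y => (hS y).trans (filter_subset _ _)
  obtain ⟨-, -, -, e1, -⟩ := H.nums hz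
  obtain ⟨-, -, -, -, e5, e6, e7, e8, e9⟩ := H.nums2 (g := g) (f := f) hz hyn hSU
  have hq : (q' : ℤ) ≤ be y z := by
    rw [← e1 y hyn]
    exact_mod_cast h1
  have hyz : y ≠ z := ne_of_mem_erase hy
  constructor
  · obtain ⟨K, hK, hKc, hKs, hU⟩ := Lv.use_s H.toPCon hz hyn (fun u => mn z u) (hS y) hq h2 h3 h4
    rw [← e7, ← e8] at hU
    rw [← e5] at hKs
    refine ⟨_, _, sum_nonneg fun u hu => H.m0 u (hSU y (hK hu)) z hz, ?_, hKs, hU⟩
    rw [e5]
    exact sum_le_sum_of_subset_of_nonneg hK fun u hu _ => H.m0 u (hSU y hu) z hz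
  · obtain ⟨K, hK, hKc, hKs, hU⟩ := Lv.use_s H.toPCon hz hyn
      (fun u => mn z u + arW n kp be z y u) (hS y) hq h2 h3 h4
    have h0 : ∀ u ∈ S y, 0 ≤ mn z u + arW n kp be z y u := fun u hu =>
      add_nonneg (H.m0 u (hSU y hu) z hz) (H.arW0 hyn (hSU y hu))
    have e10 : ∑ u ∈ K, (mn z u + rnA n kp be z y u)
        = ∑ u ∈ K, (mn z u + arW n kp be z y u) + kh' * (nQ be z y : ℤ) := by
      rw [e1 y hyn, ← hKc, ← nsmul_eq_mul, ← sum_const, ← sum_add_distrib]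
      refine sum_congr rfl fun u hu => ?_
      rw [Lv.rnA_half H hz hyz (hS y (hK hu))]
      ring
    rw [← e7, ← e8, ← e9, e10] at hU
    rw [sum_add_distrib (s := S y), ← e5, ← e6] at hKs
    refine ⟨_, _, sum_nonneg fun u hu => h0 u (hK hu), ?_, hKs, hU⟩
    rw [e5, e6, ← sum_add_distrib]
    exact sum_le_sum_of_subset_of_nonneg hK fun u hu _ => h0 u hu

/-- the ends of the plain hosted items, full items once more -/
lemma LevC.en_sum2 {φ : ι → ℕ → ℤ} (Lv : LevC n U ho vl kp mn pc φ g f)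
    (H : PConC (R : ℤ) n t s mu U ho vl kp mn pc ar be kq NN sg nu) (hz : z < n) :
    ∑ y ∈ (range n).erase z, (((nE U ho kp pc z y : ℕ) : ℤ) + ((vHF U ho vl kp pc g f z y).card : ℤ))
      ≤ ∑ u ∈ vP0 U ho pc z, vl u + ((vP0 U ho pc z).card : ℤ) := by
  have e1 : ∀ y ∈ (range n).erase z, ((nE U ho kp pc z y : ℕ) : ℤ)
      + ((vHF U ho vl kp pc g f z y).card : ℤ)
      = ∑ u ∈ vP0 U ho pc z, ((if kp y u ≠ 0 then (1 : ℤ) else 0)
        + if vl u = 1 ∧ g y u = 1 ∧ ¬ twoE vl kp g f u then (1 : ℤ) else 0) := by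
    intro y _
    have k1 : (vP0 U ho pc z).filter (fun u => kp y u ≠ 0)
        = U.filter fun u => ho u = z ∧ pc u = 0 ∧ kp y u ≠ 0 := by
      unfold vP0
      rw [filter_filter]
      exact filter_congr fun u _ => by tauto
    have k2 : (vP0 U ho pc z).filter (fun u => vl u = 1 ∧ g y u = 1 ∧ ¬ twoE vl kp g f u)
        = vHF U ho vl kp pc g f z y := by
      unfold vP0 vHF
      rw [filter_filter]
      exact filter_congr fun u _ => by tauto
    rw [sum_add_distrib, ← sum_filter, ← sum_filter, k1, k2]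
    simp only [sum_const, nsmul_eq_mul, mul_one]
    rfl
  rw [sum_congr rfl e1, sum_comm, card_eq_sum_ones, Nat.cast_sum, ← sum_add_distrib]
  refine sum_le_sum fun u hu => ?_
  obtain ⟨hU, hh, hp⟩ := mem_filter.1 hu
  rw [sum_add_distrib]
  have h4 : ∀ y ∈ (range n).erase z, (if kp y u ≠ 0 then (1 : ℤ) else 0) ≤ kp y u := by
    intro y hy
    have := H.k0 u hU y (mem_range.1 (mem_of_mem_erase hy))
    split_ifs with h
    · omega
    · exact this
  have h5 : ∑ y ∈ (range n).erase z, kp y u = ∑ y ∈ range n, kp y u := by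
    have := add_sum_erase (range n) (fun y => kp y u) (mem_range.2 hz)
    have h6 := H.kh u hU
    rw [hh] at h6
    beta_reduce at this
    rw [h6, zero_add] at this
    exact this
  have h6 : ∑ y ∈ (range n).erase z, (if kp y u ≠ 0 then (1 : ℤ) else 0) ≤ vl u + 1 := by
    refine (sum_le_sum h4).trans ?_
    rw [h5]
    rcases H.one u hU with ⟨i, hi, h7, h8, -, h9⟩ | ⟨-, h7⟩
    · rw [sum_eq_single i (fun j hj hji => h9 j (mem_range.1 hj) hji)
        (fun h => absurd (mem_range.2 hi) h), h7]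
      linarith
    · exact h7.le
  push_cast
  by_cases h7 : vl u = 1 ∧ ¬ twoE vl kp g f u
  · obtain ⟨h8, h9, h10, h11⟩ := Lv.full_fact hU h7.1 h7.2
    have hf : f u ∈ (range n).erase z := mem_erase.2 ⟨by
      have := Lv.fh u hU
      rw [hh] at this
      exact this, mem_range.2 (Lv.fn u hU)⟩
    have e2 : ∑ y ∈ (range n).erase z, (if kp y u ≠ 0 then (1 : ℤ) else 0) = 1 := by
      rw [sum_eq_single (f u) (fun j hj hji => by
        rw [if_neg (fun h => h (h11 j (mem_range.1 (mem_of_mem_erase hj)) hji))])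
        (fun h => absurd hf h), if_pos (by rw [h9]; norm_num)]
    have e3 : ∑ y ∈ (range n).erase z,
        (if vl u = 1 ∧ g y u = 1 ∧ ¬ twoE vl kp g f u then (1 : ℤ) else 0) ≤ 1 := by
      have h12 : ∀ y ∈ (range n).erase z,
          (if vl u = 1 ∧ g y u = 1 ∧ ¬ twoE vl kp g f u then (1 : ℤ) else 0) ≤ (g y u : ℤ) := by
        intro y _
        split_ifs with h
        · rw [h.2.1]
          norm_num
        · exact Nat.cast_nonneg _
      refine (sum_le_sum h12).trans ?_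
      have h13 := Lv.sum u hU
      rw [h7.1] at h13
      have h14 : ∑ y ∈ (range n).erase z, (g y u : ℤ) ≤ ∑ y ∈ range n, (g y u : ℤ) :=
        sum_le_sum_of_subset_of_nonneg (erase_subset _ _) fun _ _ _ => Nat.cast_nonneg _
      linarith
    rw [e2]
    have h13 := h7.1
    linarith
  · have e3 : ∑ y ∈ (range n).erase z,
        (if vl u = 1 ∧ g y u = 1 ∧ ¬ twoE vl kp g f u then (1 : ℤ) else 0) = 0 :=
      sum_eq_zero fun y _ => if_neg fun h => h7 ⟨h.1, h.2.2⟩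
    rw [e3, add_zero]
    exact h6

/-- the booked items have the end `y` -/
lemma LevC.en_ge {φ : ι → ℕ → ℤ} (Lv : LevC n U ho vl kp mn pc φ g f)
    (H : PConC (R : ℤ) n t s mu U ho vl kp mn pc ar be kq NN sg nu) {y : ℕ} (hy : y < n) :
    (vHF U ho vl kp pc g f z y).card + (vHH U ho vl kp pc g f z y).card
      + (vHC U ho vl pc g z y).card ≤ nE U ho kp pc z y := by
  obtain ⟨d1, d2⟩ := vH_disj U ho vl kp pc g f z y
  rw [← card_union_of_disjoint d1, ← card_union_of_disjoint d2]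
  refine card_le_card fun u hu => ?_
  rcases mem_union.1 hu with h1 | h1
  · rcases mem_union.1 h1 with h2 | h2
    · obtain ⟨h3, h4, -⟩ := Lv.hf_fact hy h2
      obtain ⟨h5, h6, h7, -⟩ := mem_filter.1 h2
      exact mem_filter.2 ⟨h5, h6, h7, by rw [h4]; norm_num⟩
    · obtain ⟨h3, h4, -⟩ := Lv.hh_fact H.toPCon hy h2
      obtain ⟨h5, h6, h7, -⟩ := mem_filter.1 h2
      exact mem_filter.2 ⟨h5, h6, h7, by rw [h4]; norm_num⟩
  · obtain ⟨h5, h6, h7, -, h8⟩ := mem_filter.1 h1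
    have h9 := Lv.le u h5 y hy
    refine mem_filter.2 ⟨h5, h6, h7, fun h10 => ?_⟩
    rw [h10] at h9
    omega

/-- possible PC pairs -/
lemma PConC.jOk (H : PConC (R : ℤ) n t s mu U ho vl kp mn pc ar be kq NN sg nu) {i j : ℕ}
    (hi : i < n) (hj : j < n) (hij : i ≠ j) : JOk R (rA t i) (rA t j) (be i j).toNat := by
  have h1 := H.be_le hi hj hij
  have h2 := H.be_le hj hi hij.symm
  have h3 := H.be0 i hi j hj
  have h4 := H.be0 j hj i hi
  obtain ⟨e1, g1⟩ := H.rA_eq hi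
  obtain ⟨e2, g2⟩ := H.rA_eq hj
  have h5 : (((be i j).toNat : ℕ) : ℤ) = be i j := Int.toNat_of_nonneg h3
  refine ⟨?_, ?_, fun m' hm => ?_⟩
  · have h6 : (((be i j).toNat : ℕ) : ℤ) ≤ rA t i := by
      rw [h5, e1]
      linarith
    exact_mod_cast h6
  · have h6 : (((be i j).toNat : ℕ) : ℤ) ≤ rA t j := by
      rw [h5, e2]
      linarith
    exact_mod_cast h6
  · have h6 : ((m' : ℕ) : ℤ) ≤ be i j := by
      rw [← h5]
      exact_mod_cast hm
    have h7 := H.jsub i hi j hj hij m' (by linarith)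
    rw [e1, e2]
    linarith

/-- the arcs of a served half at its other end -/
lemma LevC.arW_eq {φ : ι → ℕ → ℤ} (Lv : LevC n U ho vl kp mn pc φ g f)
    (H : PConC (R : ℤ) n t s mu U ho vl kp mn pc ar be kq NN sg nu) (hz : z < n) {y : ℕ}
    (hyz : y ≠ z) {u : ι} (hu : u ∈ vSH U ho vl kp pc g f z y) :
    arW n kp be z y u = be y (oE n kp z u) := by
  have h0 := ((Lv.use_fact (be := be) H.toPCon hz y).2.1 u hu).2.2.2
  obtain ⟨w1, w2, w3⟩ := oE_spec h0
  obtain ⟨h1, h2, h3, h4, h5, h6⟩ := mem_filter.1 hu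
  have hwy : oE n kp z u ≠ y := by
    intro h7
    rw [h7] at w3
    have h8 := H.kh u h1
    rw [h2] at h8
    exact w3 h8
  unfold arW
  have hs : ∑ i ∈ range n, kp i u = 2 := by
    rcases H.one u h1 with ⟨i, hi, h7, h8, -, h9⟩ | ⟨-, h7⟩
    · exfalso
      have h10 : z = i := by
        by_contra h
        exact h5 (h9 z hz h)
      have h11 : oE n kp z u = i := by
        by_contra h
        exact w3 (h9 _ w1 h)
      exact w2 (h11.trans h10.symm)
    · rw [h7, h4]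
      norm_num
  have e1 := add_sum_erase (range n) (fun i => kp i u) (mem_range.2 hz)
  have e2 := add_sum_erase ((range n).erase z) (fun i => kp i u)
    (mem_erase.2 ⟨w2, mem_range.2 w1⟩)
  beta_reduce at e1 e2
  have e3 := H.kp_one h1 h4 hz h5
  have e4 := H.kp_one h1 h4 w1 w3
  have h7 : ∑ i ∈ ((range n).erase z).erase (oE n kp z u), kp i u = 0 := by linarith
  have h8 : ∀ i ∈ ((range n).erase z).erase (oE n kp z u), kp i u = 0 :=
    (sum_eq_zero_iff_of_nonneg fun i hi =>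
      H.k0 u h1 i (mem_range.1 (mem_of_mem_erase (mem_of_mem_erase hi)))).1 h7
  rw [sum_eq_single (oE n kp z u) (fun l hl hlw => ?_) (fun h => ?_), e4, one_mul]
  · obtain ⟨h9, h10⟩ := mem_erase.1 hl
    rw [h8 l (mem_erase.2 ⟨hlw, h10⟩), zero_mul]
  · exact absurd (mem_erase.2 ⟨hwy, mem_erase.2 ⟨w2, mem_range.2 w1⟩⟩) h

/-- the arcs of the hosted halves as an integer -/
lemma PConC.nMha_eq (H : PConC (R : ℤ) n t s mu U ho vl kp mn pc ar be kq NN sg nu) (hz : z < n)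
    {y : ℕ} : ((nMha n U ho vl kp pc be g f z y : ℕ) : ℤ)
      = ∑ u ∈ vHH U ho vl kp pc g f z y, ∑ l ∈ ((range n).erase z).erase y, kp l u * be z l := by
  unfold nMha
  refine Int.toNat_of_nonneg (sum_nonneg fun u hu => sum_nonneg fun l hl => ?_)
  have hl' : l < n := mem_range.1 (mem_of_mem_erase (mem_of_mem_erase hl))
  exact mul_nonneg (H.k0 u (mem_filter.1 hu).1 l hl') (H.be0 z hz l hl')

/-- the arcs of a hosted half at its cut end -/
lemma LevC.arH_eq {φ : ι → ℕ → ℤ} (Lv : LevC n U ho vl kp mn pc φ g f)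
    (H : PConC (R : ℤ) n t s mu U ho vl kp mn pc ar be kq NN sg nu) {y : ℕ}
    (hy : y ∈ (range n).erase z) {u : ι} (hu : u ∈ vHH U ho vl kp pc g f z y) :
    ∑ l ∈ ((range n).erase z).erase y, kp l u * be z l = be z (f u) := by
  have hyn : y < n := mem_range.1 (mem_of_mem_erase hy)
  have hyz : y ≠ z := ne_of_mem_erase hy
  obtain ⟨h1, h2, h3, h4, h5⟩ := Lv.hh_fact H.toPCon hyn hu
  have h6 := (mem_filter.1 hu).2.1
  have hfn := Lv.fn u h1
  have hfz : f u ≠ z := by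
    have := Lv.fh u h1
    rw [h6] at this
    exact this
  have hf1 := Lv.f1 u h1
  have e4 : kp (f u) u = 1 := H.kp_one h1 h3 hfn (by omega)
  have hs : ∑ i ∈ range n, kp i u = 2 := by
    rcases H.one u h1 with ⟨i, hi, h7, h8, -, h9⟩ | ⟨-, h7⟩
    · exfalso
      have h10 : y = i := by
        by_contra h
        have := h9 y hyn h
        rw [h2] at this
        norm_num at this
      have h11 : f u = i := by
        by_contra h
        have := h9 _ hfn h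
        rw [e4] at this
        norm_num at this
      exact h5 (by rw [h10, h11])
    · rw [h7, h3]
      norm_num
  have e1 := add_sum_erase (range n) (fun i => kp i u) (mem_range.2 hyn)
  have e2 := add_sum_erase ((range n).erase y) (fun i => kp i u)
    (mem_erase.2 ⟨h5.symm, mem_range.2 hfn⟩)
  beta_reduce at e1 e2
  have h7 : ∑ i ∈ ((range n).erase y).erase (f u), kp i u = 0 := by linarith
  have h8 : ∀ i ∈ ((range n).erase y).erase (f u), kp i u = 0 :=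
    (sum_eq_zero_iff_of_nonneg fun i hi =>
      H.k0 u h1 i (mem_range.1 (mem_of_mem_erase (mem_of_mem_erase hi)))).1 h7
  rw [sum_eq_single (f u) (fun l hl hlw => ?_) (fun h => ?_), e4, one_mul]
  · obtain ⟨h9, h10⟩ := mem_erase.1 hl
    rw [h8 l (mem_erase.2 ⟨hlw, mem_erase.2 ⟨h9, mem_of_mem_erase h10⟩⟩), zero_mul]
  · exact absurd (mem_erase.2 ⟨h5.symm, mem_erase.2 ⟨hfz, mem_range.2 hfn⟩⟩) h

/-- **the caps of the cell in numbers** -/
lemma LevC.capN (Lv : LevC n U ho vl kp mn pc (fun u i => mn i u) g f)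
    (H : PConC (R : ℤ) n t s mu U ho vl kp mn pc ar be kq NN sg nu) (hz : z < n) {y : ℕ}
    (hy : y ∈ (range n).erase z) {S : Finset ι}
    (hS : S ⊆ vSH U ho vl kp pc g f z y) {m1 m2 k1 k2 : ℕ}
    (g1 : m1 ≤ (vHF U ho vl kp pc g f z y).card) (g2 : m2 ≤ (vHH U ho vl kp pc g f z y).card)
    (g3 : k1 ≤ (vSF U ho vl kp pc g f z y).card) (g4 : k2 ≤ S.card) :
    ∃ b' w' : ℤ, 0 ≤ b' ∧
      b' ≤ ∑ u ∈ vHH U ho vl kp pc g f z y, mn y u
        + ∑ u ∈ vHH U ho vl kp pc g f z y, ∑ l ∈ ((range n).erase z).erase y, kp l u * be z l ∧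
      ((vHH U ho vl kp pc g f z y).card : ℤ) * b' ≤ m2 * (∑ u ∈ vHH U ho vl kp pc g f z y, mn y u
        + ∑ u ∈ vHH U ho vl kp pc g f z y, ∑ l ∈ ((range n).erase z).erase y, kp l u * be z l) ∧
      0 ≤ w' ∧ w' ≤ ∑ u ∈ S, mn z u + ∑ u ∈ S, arW n kp be z y u ∧
      (S.card : ℤ) * w' ≤ k2 * (∑ u ∈ S, mn z u + ∑ u ∈ S, arW n kp be z y u) ∧
      ∀ sv : ℤ, (sv = 2 * (((m1 : ℤ) + m2) * (m1 + m2 - 1)) + 2 * (((k1 : ℤ) + k2) * (k1 + k2 - 1)) ∨
        (m2 = 0 ∧ k2 = 0 ∧ sv = 2 * (((m1 : ℤ) + k1) * (m1 + k1 - 1)))) →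
      CapVM R (t z + 1) (t y + 1) (be z y + be y z) ((m1 : ℤ) + m2) ((k1 : ℤ) + k2) b' w' sv ∧
      CapVO R (t z + 1) (t y + 1) (be z y) (be y z) ((m1 : ℤ) + m2) ((k1 : ℤ) + k2) b' w' sv := by
  have hyn : y < n := mem_range.1 (mem_of_mem_erase hy)
  have hyz : y ≠ z := ne_of_mem_erase hy
  obtain ⟨F, hF, hFc⟩ := exists_subset_card_eq g1
  obtain ⟨G, hG, hGc⟩ := exists_subset_card_eq g3
  obtain ⟨K, hK, hKc, hKs⟩ := exists_lowN
    (fun u => mn y u + ∑ l ∈ ((range n).erase z).erase y, kp l u * be z l) m2 _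
    (vHH U ho vl kp pc g f z y) rfl g2
  obtain ⟨L, hL, hLc, hLs⟩ := exists_lowN (fun u => mn z u + arW n kp be z y u) k2 _ S rfl g4
  have hsub : ∀ (i : ℕ) (u : ι), i < n → u ∈ U →
      0 ≤ ∑ l ∈ ((range n).erase z).erase y, kp l u * be i l := by
    intro i u hi hu
    refine sum_nonneg fun l hl => ?_
    have hl' : l < n := mem_range.1 (mem_of_mem_erase (mem_of_mem_erase hl))
    exact mul_nonneg (H.k0 u hu l hl') (H.be0 i hi l hl')
  have n1 : ∀ u ∈ vHH U ho vl kp pc g f z y,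
      0 ≤ mn y u + ∑ l ∈ ((range n).erase z).erase y, kp l u * be z l := fun u hu =>
    add_nonneg (H.m0 u (mem_filter.1 hu).1 y hyn) (hsub z u hz (mem_filter.1 hu).1)
  have n2 : ∀ u ∈ S, 0 ≤ mn z u + arW n kp be z y u := fun u hu =>
    add_nonneg (H.m0 u (mem_filter.1 (hS hu)).1 z hz) (H.arW0 hyn (mem_filter.1 (hS hu)).1)
  have dFK : Disjoint F K :=
    disjoint_of_subset_left hF (disjoint_of_subset_right hK (vH_disj U ho vl kp pc g f z y).1)
  have dGL : Disjoint G L := disjoint_of_subset_left hG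
    (disjoint_of_subset_right (hL.trans hS) (vS_disj U ho vl kp pc g f z y).1)
  have hFK : ∀ u ∈ F ∪ K, u ∈ U ∧ (ho u = z ∧ pc u = 0 ∧ vl u = 1 ∧ kp y u ≠ 0) := by
    intro u hu
    rcases mem_union.1 hu with h1 | h1
    · obtain ⟨h3, h4, -⟩ := Lv.hf_fact hyn (hF h1)
      obtain ⟨-, h6, h7, h8, -⟩ := mem_filter.1 (hF h1)
      exact ⟨h3, h6, h7, h8, by rw [h4]; norm_num⟩
    · obtain ⟨h3, h4, -⟩ := Lv.hh_fact H.toPCon hyn (hK h1)
      obtain ⟨-, h6, h7, h8, -⟩ := mem_filter.1 (hK h1)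
      exact ⟨h3, h6, h7, h8, by rw [h4]; norm_num⟩
  have hGL : ∀ u ∈ G ∪ L, u ∈ U ∧ (ho u = y ∧ pc u = 0 ∧ vl u = 1 ∧ kp z u ≠ 0) := by
    intro u hu
    rcases mem_union.1 hu with h1 | h1
    · obtain ⟨h3, h6, h7, h8, h9, -⟩ := mem_filter.1 (hG h1)
      exact ⟨h3, h6, h7, h8, h9⟩
    · obtain ⟨h3, h6, h7, h8, h9, -⟩ := mem_filter.1 (hS (hL h1))
      exact ⟨h3, h6, h7, h8, h9⟩
  have cFK : ((m1 : ℤ) + m2) = ((F ∪ K).card : ℤ) := by
    rw [card_union_of_disjoint dFK, hFc, hKc]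
    push_cast
    rfl
  have cGL : ((k1 : ℤ) + k2) = ((G ∪ L).card : ℤ) := by
    rw [card_union_of_disjoint dGL, hGc, hLc]
    push_cast
    rfl
  refine ⟨∑ u ∈ K, (mn y u + ∑ l ∈ ((range n).erase z).erase y, kp l u * be z l),
    ∑ u ∈ L, (mn z u + arW n kp be z y u), sum_nonneg fun u hu => n1 u (hK hu), ?_, ?_,
    sum_nonneg fun u hu => n2 u (hL hu), ?_, ?_, fun sv hsv => ?_⟩
  · rw [← sum_add_distrib (s := vHH U ho vl kp pc g f z y)]
    exact sum_le_sum_of_subset_of_nonneg hK fun u hu _ => n1 u hu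
  · rw [← sum_add_distrib (s := vHH U ho vl kp pc g f z y)]
    exact hKs
  · rw [← sum_add_distrib (s := S)]
    exact sum_le_sum_of_subset_of_nonneg hL fun u hu _ => n2 u hu
  · rw [← sum_add_distrib (s := S)]
    exact hLs
  · have hsv2 : SvC2 n vl kp pc z y (fun _ => 1) (fun _ => 1) (F ∪ K) (G ∪ L) sv := by
      rcases hsv with h1 | ⟨h1, h2, h3⟩
      · rw [h1]
        exact svc_two (fun u hu => ⟨(hFK u hu).2.2.1, (hFK u hu).2.2.2.1⟩)
          (fun u hu => ⟨(hGL u hu).2.2.1, (hGL u hu).2.2.2.1⟩) cFK cGL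
      · have hK0 : K = ∅ := card_eq_zero.1 (by rw [hKc, h1])
        have hL0 : L = ∅ := card_eq_zero.1 (by rw [hLc, h2])
        rw [hK0, union_empty] at cFK ⊢
        rw [hL0, union_empty] at cGL ⊢
        rw [h1, Nat.cast_zero, add_zero] at cFK
        rw [h2, Nat.cast_zero, add_zero] at cGL
        rw [h3]
        refine svc_full hz hyn hyz.symm (fun u hu => ⟨(mem_filter.1 (hF hu)).2.2.1, fun l hl _ h6 =>
          (Lv.hf_fact hyn (hF hu)).2.2.2.2.2 l hl h6⟩) (fun u hu => ?_) cFK cGL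
        obtain ⟨h4, h5, h6, h7, h8, h9⟩ := mem_filter.1 (hG hu)
        refine ⟨h6, fun l hl h10 _ => ?_⟩
        obtain ⟨h11, -⟩ := Lv.full_at h4 h7 h9 hz h8
        exact (Lv.full_fact h4 h7 h9).2.2.2 l hl (by rw [← h11]; exact h10)
    have hFKU : F ∪ K ⊆ U := fun u hu => (hFK u hu).1
    have hGLU : G ∪ L ⊆ U := fun u hu => (hGL u hu).1
    have hA := H.cap2S hz hyn hyz.symm hFKU hGLU (fun u hu => (hFK u hu).2)
      (fun u hu => (hGL u hu).2) cFK cGL hsv2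
    have hB := H.cap2MS hz hyn hyz.symm hFKU hGLU (fun u hu => (hFK u hu).2)
      (fun u hu => (hGL u hu).2) cFK cGL rfl hsv2
    have fF : ∀ u ∈ F, mn y u = 0 ∧ (∑ l ∈ ((range n).erase z).erase y, kp l u * be z l) = 0 ∧
        ar u ≤ be z y := by
      intro u hu
      obtain ⟨h1, h2, h3, h4, h5, h6⟩ := Lv.hf_fact hyn (hF hu)
      obtain ⟨-, h7, h8, -⟩ := mem_filter.1 (hF hu)
      refine ⟨h3, sum_eq_zero fun l hl => ?_, ?_⟩
      · obtain ⟨h9, h10⟩ := mem_erase.1 hl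
        rw [h6 l (mem_range.1 (mem_of_mem_erase h10)) h9, zero_mul]
      · have h9 := H.ar_in h1 h8 (L := {y}) (by
          rw [singleton_subset_iff]
          exact mem_range.2 hyn) fun l hl h10 => by
            rw [mem_singleton]
            by_contra h11
            exact h10 (h6 l hl h11)
        rw [sum_singleton, h7] at h9
        exact h9
    have fK : ∀ u ∈ K, ar u ≤ be z y + ∑ l ∈ ((range n).erase z).erase y, kp l u * be z l := by
      intro u hu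
      obtain ⟨h1, h2, h3, h4, h5⟩ := Lv.hh_fact H.toPCon hyn (hK hu)
      obtain ⟨-, h7, h8, -⟩ := mem_filter.1 (hK hu)
      have h9 := H.ar_le h1 h8
      rw [h7] at h9
      have e1 : ∑ l ∈ ((range n).erase z).filter (fun l => kp l u ≠ 0), be z l
          = ∑ l ∈ (range n).erase z, kp l u * be z l := by
        rw [sum_filter]
        refine sum_congr rfl fun l hl => ?_
        by_cases h10 : kp l u = 0
        · rw [h10, if_neg (fun h => h rfl), zero_mul]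
        · rw [if_pos h10, H.kp_one h1 h3 (mem_range.1 (mem_of_mem_erase hl)) h10, one_mul]
      have e2 := add_sum_erase ((range n).erase z) (fun l => kp l u * be z l) hy
      beta_reduce at e2
      rw [h2, one_mul] at e2
      linarith
    have fG : ∀ u ∈ G, mn z u = 0 ∧ (∑ l ∈ ((range n).erase z).erase y, kp l u * be y l) = 0 ∧
        ar u ≤ be y z := by
      intro u hu
      obtain ⟨h4, h5, h6, h7, h8, h9⟩ := mem_filter.1 (hG hu)
      obtain ⟨h10, h11, -⟩ := Lv.full_at h4 h7 h9 hz h8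
      have h12 := (Lv.full_fact h4 h7 h9).2.2.2
      rw [← h10] at h12
      refine ⟨h11, sum_eq_zero fun l hl => ?_, ?_⟩
      · obtain ⟨h13, h14⟩ := mem_erase.1 (mem_of_mem_erase hl)
        rw [h12 l (mem_range.1 h14) h13, zero_mul]
      · have h13 := H.ar_in h4 h6 (L := {z}) (by
          rw [singleton_subset_iff]
          exact mem_range.2 hz) fun l hl h14 => by
            rw [mem_singleton]
            by_contra h15
            exact h14 (h12 l hl h15)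
        rw [sum_singleton, h5] at h13
        exact h13
    have fL : ∀ u ∈ L, ar u ≤ be y z + arW n kp be z y u := by
      intro u hu
      obtain ⟨h4, h5, h6, h7, h8, h9⟩ := mem_filter.1 (hS (hL hu))
      have h10 := H.ar_le h4 h6
      rw [h5] at h10
      have e1 : ∑ l ∈ ((range n).erase y).filter (fun l => kp l u ≠ 0), be y l
          = ∑ l ∈ (range n).erase y, kp l u * be y l := by
        rw [sum_filter]
        refine sum_congr rfl fun l hl => ?_
        by_cases h11 : kp l u = 0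
        · rw [h11, if_neg (fun h => h rfl), zero_mul]
        · rw [if_pos h11, H.kp_one h4 h7 (mem_range.1 (mem_of_mem_erase hl)) h11, one_mul]
      have e2 := add_sum_erase ((range n).erase y) (fun l => kp l u * be y l)
        (mem_erase.2 ⟨hyz.symm, mem_range.2 hz⟩)
      beta_reduce at e2
      rw [H.kp_one h4 h7 hz h8, one_mul, erase_right_comm] at e2
      unfold arW
      linarith
    have s1 : (((m1 : ℤ) + m2) * ((R : ℤ) + t y)
        - ∑ u ∈ K, (mn y u + ∑ l ∈ ((range n).erase z).erase y, kp l u * be z l))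
        = ∑ u ∈ F ∪ K, ((R : ℤ) + t y - mn y u
          - ∑ l ∈ ((range n).erase z).erase y, kp l u * be z l) := by
      rw [cFK, ← nsmul_eq_mul, ← sum_const, sum_union dFK, sum_union dFK]
      have e1 : ∑ u ∈ F, ((R : ℤ) + t y - mn y u
          - ∑ l ∈ ((range n).erase z).erase y, kp l u * be z l) = ∑ _u ∈ F, ((R : ℤ) + t y) :=
        sum_congr rfl fun u hu => by
          rw [(fF u hu).1, (fF u hu).2.1]
          ring
      rw [e1, add_sub_assoc, ← sum_sub_distrib]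
      congr 1
      exact sum_congr rfl fun u _ => by ring
    have s2 : (((k1 : ℤ) + k2) * ((R : ℤ) + t z) - ∑ u ∈ L, (mn z u + arW n kp be z y u))
        = ∑ u ∈ G ∪ L, ((R : ℤ) + t z - mn z u
          - ∑ l ∈ ((range n).erase z).erase y, kp l u * be y l) := by
      rw [cGL, ← nsmul_eq_mul, ← sum_const, sum_union dGL, sum_union dGL]
      have e1 : ∑ u ∈ G, ((R : ℤ) + t z - mn z u
          - ∑ l ∈ ((range n).erase z).erase y, kp l u * be y l) = ∑ _u ∈ G, ((R : ℤ) + t z) :=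
        sum_congr rfl fun u hu => by
          rw [(fG u hu).1, (fG u hu).2.1]
          ring
      rw [e1, add_sub_assoc, ← sum_sub_distrib]
      congr 1
      refine sum_congr rfl fun u _ => ?_
      unfold arW
      ring
    have s3 : ∑ u ∈ F ∪ K, ((R : ℤ) + t y - mn y u
          - ∑ l ∈ ((range n).erase z).erase y, kp l u * be z l) - ((m1 : ℤ) + m2) * be z y
        ≤ ∑ u ∈ F ∪ K, ((R : ℤ) + t y - mn y u - ar u) := by
      rw [cFK, ← nsmul_eq_mul, ← sum_const, ← sum_sub_distrib]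
      refine sum_le_sum fun u hu => ?_
      rcases mem_union.1 hu with h1 | h1
      · have := fF u h1
        linarith [this.2.1, this.2.2]
      · have := fK u h1
        linarith
    have s4 : ∑ u ∈ G ∪ L, ((R : ℤ) + t z - mn z u
          - ∑ l ∈ ((range n).erase z).erase y, kp l u * be y l) - ((k1 : ℤ) + k2) * be y z
        ≤ ∑ u ∈ G ∪ L, ((R : ℤ) + t z - mn z u - ar u) := by
      rw [cGL, ← nsmul_eq_mul, ← sum_const, ← sum_sub_distrib]
      refine sum_le_sum fun u hu => ?_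
      rcases mem_union.1 hu with h1 | h1
      · have := fG u h1
        linarith [this.2.1, this.2.2]
      · have h2 := fL u h1
        unfold arW at h2
        linarith
    rw [← s1] at s3 hB
    rw [← s2] at s4 hB
    constructor
    · unfold CapVM
      linarith
    · unfold CapVO
      linarith

/-- **THE ROW IN NATURAL NUMBERS** -/
theorem LevC.rowV (Lv : LevC n U ho vl kp mn pc (fun u i => mn i u) g f)
    (H : PConC (R : ℤ) n t s mu U ho vl kp mn pc ar be kq NN sg nu) (hz : z < n)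
    {S : ℕ → Finset ι} (hS : ∀ y, S y ⊆ vSH U ho vl kp pc g f z y)
    (hSz : ∀ y, ∀ u ∈ S y, g z u = 1) :
    RowV R ((range n).erase z) (rA t z) (nD s mu z) (vP0 U ho pc z).card (nH U ho vl pc z)
      (rA t) (nP be kq z) (nX kq z) (nQ be z)
      (fun y => (vHF U ho vl kp pc g f z y).card) (fun y => (vHH U ho vl kp pc g f z y).card)
      (nMhb U ho vl kp mn pc g f z) (nMha n U ho vl kp pc be g f z) (nMc U ho vl pc g z)
      (nMcb U ho vl kp mn pc g z) (fun y => (vHC U ho vl pc g z y).card) (nMcv U ho vl pc g z)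
      (fun y => (vSF U ho vl kp pc g f z y).card) (fun y => (S y).card)
      (nKhb mn S z) (nKha n kp be S z) (nKc U ho vl pc g z)
      (fun y => (vSC U ho vl pc g z y).card) (nKcb U ho vl kp mn pc g z)
      (nKcr n U ho vl kp pc be g z)
      (fun y => (sg z y).toNat) (nE U ho kp pc z) (fun y => (NN z y).toNat) := by
  have hP : ∀ y ∈ (range n).erase z, y < n ∧ y ≠ z := fun y hy =>
    ⟨mem_range.1 (mem_of_mem_erase hy), ne_of_mem_erase hy⟩
  have hSU : ∀ y, S y ⊆ U := fun y => (hS y).trans (filter_subset _ _)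
  obtain ⟨a1, a2, a3, a4, a5⟩ := H.nums hz
  obtain ⟨eA, gA⟩ := H.rA_eq hz
  have eB : ∀ y ∈ (range n).erase z, ((rA t y : ℕ) : ℤ) = t y + 1 := fun y hy =>
    (H.rA_eq (hP y hy).1).1
  have eM : ∀ y ∈ (range n).erase z,
      ((nP be kq z y : ℕ) : ℤ) + (nX kq z y : ℕ) = be z y := fun y hy => by
    rw [a2 y (hP y hy).1, a3 y (hP y hy).1]
    ring
  have esg : ∀ y ∈ (range n).erase z, (((sg z y).toNat : ℕ) : ℤ) = sg z y := fun y hy =>
    Int.toNat_of_nonneg (H.sg0 z hz y (hP y hy).1)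
  have enn : ∀ y ∈ (range n).erase z, (((NN z y).toNat : ℕ) : ℤ) = NN z y := fun y hy =>
    Int.toNat_of_nonneg (H.nn0 z hz y (hP y hy).1)
  have ePc : (((vP0 U ho pc z).card : ℕ) : ℤ)
      = ((U.filter fun u => ho u = z ∧ pc u = 0).card : ℤ) := rfl
  -- sums of the block pairs and Konig pairs
  have eps : ∀ X ⊆ (range n).erase z, ∑ l ∈ X, ((nP be kq z l : ℕ) : ℤ)
      = ∑ l ∈ X, (be z l - kq z l) := fun X hX =>
    sum_congr rfl fun l hl => a2 l (hP l (hX hl)).1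
  have exs : ∀ X ⊆ (range n).erase z, ∑ l ∈ X, ((nX kq z l : ℕ) : ℤ)
      = ∑ l ∈ X, kq z l := fun X hX => sum_congr rfl fun l hl => a3 l (hP l (hX hl)).1
  have eblk : ∀ (T Y : Finset ℕ) (en en' : ℕ → ℤ), T ⊆ (range n).erase z → Y ⊆ T →
      (∀ l ∈ Y, en l = en' l) →
      blkE (fun l => be z l - kq z l) (sg z) en T Y
        = blkE (fun l => ((nP be kq z l : ℕ) : ℤ)) (fun l => (((sg z l).toNat : ℕ) : ℤ)) en' T Y := by
    intro T Y en en' hT hY hen
    unfold blkE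
    congr 1
    · exact sum_congr rfl fun l hl => by
        beta_reduce
        rw [a2 l (hP l (hT (mem_sdiff.1 hl).1)).1]
    · congr 1
      exact sum_congr rfl fun l hl => by
        beta_reduce
        rw [a2 l (hP l (hT (hY hl))).1, esg l (hT (hY hl)), hen l hl]
  have hmu : mu z = ∑ l ∈ (range n).erase z, be z l + ((nH U ho vl pc z : ℕ) : ℤ) := by
    rw [a5]
    exact H.mu_nums hz
  have hcount : ((nH U ho vl pc z : ℕ) : ℤ) = ∑ y ∈ (range n).erase z,
      (((vHF U ho vl kp pc g f z y).card : ℤ) + ((vHH U ho vl kp pc g f z y).card : ℤ)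
        + (nMc U ho vl pc g z y : ℤ)) := by
    rw [a5, Lv.nH_sum H hz]
    refine sum_congr rfl fun y hy => ?_
    rw [(H.nums2 (g := g) (f := f) hz (hP y hy).1 hSU).2.1]
  refine ⟨gA, fun y hy => (H.rA_eq (hP y hy).1).2, ?_, ?_, ?_, ?_, ?_, ?_, ?_, ?_, ?_, ?_, ?_, ?_,
    ?_, ?_, ?_, ?_, ?_, ?_, ?_, ?_, ?_, ?_, ?_, ?_, ?_, ?_⟩
  · -- P4
    rw [card_erase_of_mem (mem_range.2 hz), card_range]
    have := H.n5
    omega
  · -- mass
    have h1 := add_sum_erase (range n) (fun i => t i + 1) (mem_range.2 hz)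
    have h2 := H.tsum
    beta_reduce at h1
    have h3 : ((rA t z + ∑ y ∈ (range n).erase z, rA t y : ℕ) : ℤ) ≤ R := by
      push_cast
      rw [eA, sum_congr rfl eB]
      linarith
    exact_mod_cast h3
  · -- dA
    have h1 := H.dt z hz
    have h2 : ((nD s mu z : ℕ) : ℤ) ≤ rA t z := by
      rw [a1, eA]
      linarith
    exact_mod_cast h2
  · -- bqB
    intro y hy
    have h1 := H.be_le hz (hP y hy).1 (Ne.symm (hP y hy).2)
    have h2 := H.be_le (hP y hy).1 hz (hP y hy).2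
    have h3 := eM y hy
    have h4 := a4 y (hP y hy).1
    constructor
    · have h5 : ((nP be kq z y : ℕ) : ℤ) + (nX kq z y : ℕ) + (nQ be z y : ℕ) ≤ rA t y := by
        rw [h3, h4, eB y hy]
        linarith
      exact_mod_cast h5
    · have h5 : ((nP be kq z y : ℕ) : ℤ) + (nX kq z y : ℕ) + (nQ be z y : ℕ) ≤ rA t z := by
        rw [h3, h4, eA]
        linarith
      exact_mod_cast h5
  · -- jsub
    intro y hy m hm
    have h1 := H.jsub z hz y (hP y hy).1 (Ne.symm (hP y hy).2) m (by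
      rw [← eM y hy, ← a4 y (hP y hy).1]
      exact_mod_cast hm)
    rw [eA, eB y hy]
    linarith
  · -- hS
    have h1 : ((nH U ho vl pc z : ℕ) : ℤ) = ((∑ y ∈ (range n).erase z,
      ((vHF U ho vl kp pc g f z y).card + (vHH U ho vl kp pc g f z y).card
        + nMc U ho vl pc g z y) : ℕ) : ℤ) := by
      rw [hcount]
      push_cast
      rfl
    exact_mod_cast h1
  · -- hn1
    have h1 : ∀ y ∈ (range n).erase z, (vHF U ho vl kp pc g f z y).card
        + (vHH U ho vl kp pc g f z y).card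
        = ((vP0 U ho pc z).filter fun u => vl u = 1 ∧ g y u = 1).card := by
      intro y _
      rw [← card_union_of_disjoint (vH_disj U ho vl kp pc g f z y).1]
      congr 1
      ext u
      simp only [vHF, vHH, vP0, mem_union, mem_filter]
      tauto
    rw [sum_congr rfl h1, ← card_biUnion]
    · refine card_le_card fun u hu => ?_
      obtain ⟨y, -, h2⟩ := mem_biUnion.1 hu
      exact (mem_filter.1 h2).1
    · intro a ha b hb hab
      rw [Function.onFun, disjoint_left]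
      intro u h2 h3
      obtain ⟨h4, h5, h6⟩ := mem_filter.1 h2
      obtain ⟨-, -, h7⟩ := mem_filter.1 h3
      have h8 := (mem_filter.1 h4).1
      have h9 := Lv.sum u h8
      have h10 : (2 : ℤ) ≤ ∑ i ∈ range n, (g i u : ℤ) := by
        have h11 := add_sum_erase (range n) (fun i => (g i u : ℤ)) (mem_of_mem_erase ha)
        have h12 := add_sum_erase ((range n).erase a) (fun i => (g i u : ℤ))
          (mem_erase.2 ⟨fun h => hab h.symm, mem_of_mem_erase hb⟩)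
        have h13 : (0 : ℤ) ≤ ∑ i ∈ ((range n).erase a).erase b, (g i u : ℤ) :=
          sum_nonneg fun i _ => Nat.cast_nonneg _
        beta_reduce at h11 h12
        rw [h6] at h11
        rw [h7] at h12
        push_cast at h11 h12
        linarith
      rw [h9, h5] at h10
      norm_num at h10
  · -- hn2
    have h1 : (((vP0 U ho pc z).card : ℕ) : ℤ) ≤ (nH U ho vl pc z : ℕ) := by
      rw [a5, card_eq_sum_ones, Nat.cast_sum]
      refine sum_le_sum fun u hu => ?_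
      have := H.v1 u (mem_filter.1 hu).1
      push_cast
      linarith
    exact_mod_cast h1
  · -- mcn1
    intro y hy
    obtain ⟨-, e2, -, e4, -⟩ := H.nums2 (g := g) (f := f) hz (hP y hy).1 hSU
    refine ⟨?_, ?_, ?_⟩
    · unfold nMc
      rw [card_eq_sum_ones]
      refine sum_le_sum fun u hu => ?_
      have := (mem_filter.1 hu).2.2.2.2
      omega
    · have h1 : ((nMc U ho vl pc g z y : ℕ) : ℤ) ≤ (nMcv U ho vl pc g z y : ℕ) := by
        rw [e2, e4]
        refine sum_le_sum fun u hu => ?_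
        have h2 := (mem_filter.1 hu).1
        rw [← Lv.sum u h2]
        exact single_le_sum (f := fun i => (g i u : ℤ)) (fun i _ => Nat.cast_nonneg _)
          (mem_range.2 (hP y hy).1)
      exact_mod_cast h1
    · have h1 : 2 * (((vHC U ho vl pc g z y).card : ℕ) : ℤ) ≤ (nMcv U ho vl pc g z y : ℕ) := by
        rw [e4, card_eq_sum_ones, Nat.cast_sum, mul_sum]
        refine sum_le_sum fun u hu => ?_
        obtain ⟨h2, -, -, h3, -⟩ := mem_filter.1 hu
        have h4 := H.v1 u h2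
        push_cast
        omega
      exact_mod_cast h1
  · -- kca1
    intro y hy
    constructor
    · unfold nKc
      rw [card_eq_sum_ones]
      refine sum_le_sum fun u hu => ?_
      have := (mem_filter.1 hu).2.2.2.2
      omega
    · unfold nKc
      rw [card_eq_sum_ones, mul_sum]
      refine sum_le_sum fun u hu => ?_
      have := Lv.two H.toPCon u (mem_filter.1 hu).1 z hz
      omega
  · -- mhbM
    intro y hy N hN
    unfold nMhb
    rw [← smul_eq_mul, ← sum_const]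
    refine sum_le_sum fun u hu => ?_
    obtain ⟨h1, h2, h3⟩ := Lv.hh_ok H.toPCon hz hy hu
    exact hN (f u) h1 h2 _ _ h3
  · -- mcbM
    intro y hy N hN
    have hyn := (hP y hy).1
    have h1 : ((nMcb U ho vl kp mn pc g z y : ℕ) : ℤ)
        ≤ (((vHC U ho vl pc g z y).card * N : ℕ) : ℤ) := by
      rw [(H.nums2 (g := g) (f := f) hz hyn hSU).2.2.1, Nat.cast_mul, ← nsmul_eq_mul, ← sum_const]
      refine sum_le_sum fun u hu => ?_
      obtain ⟨h2, h3, -, -, h4⟩ := mem_filter.1 hu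
      rcases Lv.cl_miss H hyn h2 h4 with h5 | ⟨h5, h6, h7⟩
      · rw [h5]
        exact Nat.cast_nonneg _
      · rw [h6]
        have hfn := Lv.fn u h2
        have hfz : f u ≠ z := by
          have := Lv.fh u h2
          rw [h3] at this
          exact this
        have hfP : f u ∈ (range n).erase z := mem_erase.2 ⟨hfz, mem_range.2 hfn⟩
        have h8 := hN (f u) hfP h5 (rb mn y u) (by
          have h9 : ((rb mn y u : ℕ) : ℤ) * (rb mn y u : ℕ)
              ≤ (R : ℤ) + ((rA t y - 1 : ℕ) : ℤ) * ((rA t (f u) - 1 : ℕ) : ℤ) := by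
            rw [Nat.cast_sub (H.rA_eq hyn).2, Nat.cast_sub (H.rA_eq hfn).2, (H.rA_eq hyn).1,
              (H.rA_eq hfn).1, H.rb_eq h2 hyn]
            push_cast
            linarith
          exact_mod_cast h9)
        rw [← H.rb_eq h2 hyn]
        exact_mod_cast h8
    exact_mod_cast h1
  · -- kcbM
    intro y hy N hN
    have hyn := (hP y hy).1
    have h1 : ((nKcb U ho vl kp mn pc g z y : ℕ) : ℤ)
        ≤ (((vSC U ho vl pc g z y).card * N : ℕ) : ℤ) := by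
      rw [(H.nums2 (g := g) (f := f) hz hyn hSU).2.2.2.2.2.2.2.1, Nat.cast_mul, ← nsmul_eq_mul,
        ← sum_const]
      refine sum_le_sum fun u hu => ?_
      obtain ⟨h2, h3, -, -, h4⟩ := mem_filter.1 hu
      rcases Lv.cl_miss H hz h2 h4 with h5 | ⟨h5, h6, h7⟩
      · rw [h5]
        exact Nat.cast_nonneg _
      · rw [h6]
        have hfn := Lv.fn u h2
        have hfy : f u ≠ y := by
          have := Lv.fh u h2
          rw [h3] at this
          exact this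
        have hfP : f u ∈ (range n).erase z := mem_erase.2 ⟨h5, mem_range.2 hfn⟩
        have h8 := hN (f u) hfP hfy (rb mn z u) (by
          have h9 : ((rb mn z u : ℕ) : ℤ) * (rb mn z u : ℕ)
              ≤ (R : ℤ) + ((rA t z - 1 : ℕ) : ℤ) * ((rA t (f u) - 1 : ℕ) : ℤ) := by
            rw [Nat.cast_sub gA, Nat.cast_sub (H.rA_eq hfn).2, eA,
              (H.rA_eq hfn).1, H.rb_eq h2 hz]
            push_cast
            linarith
          exact_mod_cast h9)
        rw [← H.rb_eq h2 hz]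
        exact_mod_cast h8
    exact_mod_cast h1
  · -- sgs
    have h1 := H.sgs z hz
    have h2 : ((∑ y ∈ (range n).erase z, (sg z y).toNat + (vP0 U ho pc z).card + nD s mu z : ℕ) : ℤ)
        ≤ rA t z := by
      push_cast
      rw [sum_congr rfl esg, a1, eA, ePc]
      linarith
    exact_mod_cast h2
  · -- ens
    have h1 := Lv.en_sum2 H hz
    have h2 : ((∑ y ∈ (range n).erase z, (nE U ho kp pc z y + (vHF U ho vl kp pc g f z y).card) : ℕ)
        : ℤ) ≤ ((nH U ho vl pc z + (vP0 U ho pc z).card : ℕ) : ℤ) := by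
      push_cast
      rw [a5]
      exact h1
    exact_mod_cast h2
  · -- enb
    exact fun y hy => Lv.en_ge H (hP y hy).1
  · -- khaM
    intro y hy N hN
    have hyn := (hP y hy).1
    have h1 : ((nKha n kp be S z y : ℕ) : ℤ) ≤ (((S y).card * N : ℕ) : ℤ) := by
      rw [(H.nums2 (g := g) (f := f) hz hyn hSU).2.2.2.2.2.1, Nat.cast_mul, ← nsmul_eq_mul,
        ← sum_const]
      refine sum_le_sum fun u hu => ?_
      obtain ⟨h2, h3, -, -⟩ := Lv.sh_ok (be := be) H.toPCon hz hy (hS y hu)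
      obtain ⟨k1, k2, k3, k4, k5, k6⟩ := mem_filter.1 (hS y hu)
      have h4 : oE n kp z u < n := mem_range.1 (mem_of_mem_erase h2)
      rw [Lv.arW_eq H hz (hP y hy).2 (hS y hu)]
      have h5 := hN _ h2 h3 (be y (oE n kp z u)).toNat (H.jOk hyn h4 h3.symm)
      have h6 := H.be0 y hyn _ h4
      have h7 : (((be y (oE n kp z u)).toNat : ℕ) : ℤ) ≤ N := by exact_mod_cast h5
      rw [Int.toNat_of_nonneg h6] at h7
      exact h7
    exact_mod_cast h1
  · -- mhaM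
    intro y hy N hN
    have hyn := (hP y hy).1
    have h1 : ((nMha n U ho vl kp pc be g f z y : ℕ) : ℤ)
        ≤ (((vHH U ho vl kp pc g f z y).card * N : ℕ) : ℤ) := by
      rw [H.nMha_eq hz, Nat.cast_mul, ← nsmul_eq_mul, ← sum_const]
      refine sum_le_sum fun u hu => ?_
      obtain ⟨h2, h3, -⟩ := Lv.hh_ok H.toPCon hz hy hu
      have h4 := Lv.fn u (mem_filter.1 hu).1
      rw [Lv.arH_eq H hy hu]
      have h5 := hN _ h2 h3 (be z (f u)).toNat (H.jOk hz h4 (ne_of_mem_erase h2).symm)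
      have h6 := H.be0 z hz _ h4
      have h7 : (((be z (f u)).toNat : ℕ) : ℤ) ≤ N := by exact_mod_cast h5
      rw [Int.toNat_of_nonneg h6] at h7
      exact h7
    exact_mod_cast h1
  · -- khbM
    intro y hy N hN
    unfold nKhb
    rw [← smul_eq_mul, ← sum_const]
    refine sum_le_sum fun u hu => ?_
    obtain ⟨h1, h2, h3, h4⟩ := Lv.sh_ok (be := be) H.toPCon hz hy (hS y hu)
    rcases h4 with ⟨-, -, -, h5⟩ | ⟨h5, -, -⟩
    · exact hN _ h1 h2 _ _ h3 h5
    · exfalso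
      have h6 := hSz y u hu
      obtain ⟨k1, k2, k3, k4, k5, k6⟩ := mem_filter.1 (hS y hu)
      have h7 := (Lv.half_at H.toPCon k1 k6 hz k5).2
      rcases h7 with h8 | h8
      · exact h8.1 h5
      · rw [h8.2] at h6
        norm_num at h6
  · -- nnz
    intro y hy h1
    have h2 : be z y = 0 := by
      rw [← eM y hy]
      exact_mod_cast h1
    rw [H.nnz z hz y (hP y hy).1 h2]
    rfl
  · -- nnb
    intro y hy v hv
    have hyn := (hP y hy).1
    have h1 := H.nnb z hz y hyn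
    have h2 : ∑ u ∈ U.filter (fun u => ho u = z), nu y u
        ≤ ∑ u ∈ U.filter (fun u => ho u = z), pc u * kp y u * (v : ℤ) := by
      refine sum_le_sum fun u hu => ?_
      obtain ⟨h3, h4⟩ := mem_filter.1 hu
      by_cases h5 : kp y u = 0
      · rw [H.nuz u h3 y hyn h5, h5]
        simp
      · rcases H.pc01 u h3 with h6 | h6
        · rw [H.nup u h3 h6 y hyn, h6]
          simp
        · have h7 := H.pcv u h3 (by rw [h6]; norm_num)
          have h8 := H.nuq u h3 h7 y hyn h5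
          rw [h6, h4] at h8
          rw [h6, H.kp_one h3 h7 hyn h5]
          have h9 := H.nu0 u h3 y hyn
          have h13 := H.jntp u h3 h6 y hyn h5
          rw [h4] at h13
          by_contra hcon
          push Not at hcon
          have hv0 : (0 : ℤ) ≤ v := Nat.cast_nonneg _
          rcases hv with hv | hv
          · have h10 : (1 : ℤ) + t z * t y < ((v : ℤ) + 1) ^ 2 := by
              have h11 : ((1 + (rA t z - 1) * (rA t y - 1) : ℕ) : ℤ) < (((v + 1) ^ 2 : ℕ) : ℤ) := by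
                exact_mod_cast hv
              push_cast [Nat.cast_sub gA, Nat.cast_sub (H.rA_eq hyn).2] at h11
              rw [eA, eB y hy] at h11
              have e10 : t z + 1 - 1 = t z := by ring
              have e11 : t y + 1 - 1 = t y := by ring
              rw [e10, e11] at h11
              exact h11
            nlinarith
          · rw [eA, eB y hy, eM y hy] at hv
            have h14 : (max 0 ((v : ℤ) + 2 - be z y)) ^ 2 ≤ (max 0 (nu y u + 1 - be z y)) ^ 2 := by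
              refine pow_le_pow_left₀ (le_max_left _ _) (max_le_max le_rfl ?_) 2
              linarith
            have e10 : t z + 1 - 1 = t z := by ring
            have e11 : t y + 1 - 1 = t y := by ring
            rw [e10, e11] at hv
            linarith
    rw [← sum_mul, H.pcb z hz y hyn] at h2
    have h3 : (((NN z y).toNat : ℕ) : ℤ) ≤ ((nP be kq z y + nX kq z y) * (nP be kq z y
        + nX kq z y + 1) + 2 * ((nP be kq z y + nX kq z y) * v) : ℕ) := by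
      push_cast
      rw [enn y hy, eM y hy]
      linarith
    exact_mod_cast h3
  · -- cap
    intro y hy m1 m2 k1 k2 g1 g2 g3 g4
    have hyn := (hP y hy).1
    obtain ⟨e1, e2, e3, e4, e5, e6, -⟩ := H.nums2 (g := g) (f := f) hz hyn hSU
    obtain ⟨b', w', c1, c2, c3, c4, c5, c6, c7⟩ := Lv.capN H hz hy (hS y) g1 g2 g3 g4
    rw [← H.nMha_eq hz, ← e1] at c2 c3
    rw [← e5, ← e6] at c5 c6
    refine ⟨b', w', c1, c2, c3, c4, c5, c6, fun sv hsv => ?_⟩
    have c8 := c7 sv hsv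
    rw [← eM y hy, ← a4 y hyn, ← eA, ← eB y hy] at c8
    exact c8
  · -- colK
    intro y hy q' kf' kh' c h1 h2 h3 h4
    have hyn := (hP y hy).1
    obtain ⟨e1, e2, e3, e4, -⟩ := H.nums2 (g := g) (f := f) hz hyn hSU
    obtain ⟨-, b', w', h5, h5b, h6, h7⟩ := Lv.useN H hz hy hS h1 h2 h3 h4
    refine ⟨w', h5, h5b, h6, fun Y hY => ?_⟩
    have h8 := H.colU hz hy (Lv.lvQ_le H.toPCon hz) h7 (Lv.kep_v H hyn) hY
    have e5 : ((nMhb U ho vl kp mn pc g f z y : ℕ) : ℤ) + (nMcb U ho vl kp mn pc g z y : ℕ)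
        = ∑ u ∈ vHH U ho vl kp pc g f z y, mn y u
          + ∑ u ∈ vHC U ho vl pc g z y, msP kp mn y (g y) u := by rw [e1, e3]
    have e6 : (R : ℤ) + 1 - (rA t y : ℕ) = R - t y := by rw [eB y hy]; ring
    rw [add_zero] at h8
    rw [eblk _ Y (rnEl U ho kp pc z) (fun l => ((nE U ho kp pc z l : ℕ) : ℤ)) (erase_subset _ _) hY
      (fun _ _ => rfl)] at h8
    rw [← eB y hy, ← eA, ← a1, ← a5, ← e5, ← e2, ← eM y hy, ← a4 y hyn,
      ← eps _ (sdiff_subset.trans (erase_subset _ _)), ← e6] at h8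
    exact h8
  · -- colO
    intro y hy q' kf' kh' c h1 h2 h3 h4
    have hyn := (hP y hy).1
    obtain ⟨e1, e2, e3, e4, -⟩ := H.nums2 (g := g) (f := f) hz hyn hSU
    obtain ⟨-, b', w', h5, h5b, h6, h7⟩ := Lv.useN H hz hy hS h1 h2 h3 h4
    refine ⟨w', h5, h5b, h6, fun Y hY => ?_⟩
    have h8 := H.colU hz hy (Lv.lvQ_le H.toPCon hz) h7 (Lv.kep_o H hyn) hY
    have e5 : ((nMhb U ho vl kp mn pc g f z y : ℕ) : ℤ) + (nMcb U ho vl kp mn pc g z y : ℕ)
        = ∑ u ∈ vHH U ho vl kp pc g f z y, mn y u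
          + ∑ u ∈ vHC U ho vl pc g z y, msP kp mn y (g y) u := by rw [e1, e3]
    have e6 : (R : ℤ) + 1 - (rA t y : ℕ) = R - t y := by rw [eB y hy]; ring
    rw [eblk _ Y (rnEl U ho kp pc z) (fun l => ((nE U ho kp pc z l : ℕ) : ℤ)) (erase_subset _ _) hY
      (fun _ _ => rfl), ← add_sub_assoc] at h8
    rw [← eB y hy, ← eA, ← a1, ← e5, ← e4, ← e2, ← eM y hy, ← a4 y hyn,
      ← eps _ (sdiff_subset.trans (erase_subset _ _)), ← e6] at h8
    exact h8
  · -- colD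
    intro y hy pm hpm mf' mh' g1 g2 q' kf' kh' c h1 h2 h3 h4
    have hyn := (hP y hy).1
    obtain ⟨e1, e2, e3, e4, -⟩ := H.nums2 (g := g) (f := f) hz hyn hSU
    obtain ⟨-, b', w', h5, h5b, h6, h7⟩ := Lv.useN H hz hy hS h1 h2 h3 h4
    obtain ⟨bb, k1, k1b, k2, en, k3, k4, k5⟩ := Lv.kep_p H hyn g1 g2
    rw [← e1] at k2 k1b
    refine ⟨bb, w', k1, k1b, k2, h5, h5b, h6, fun Y hY => ?_⟩
    have h8 := H.colU hz hy (Lv.lvQ_le H.toPCon hz) h7 k5 hY
    have e6 : (R : ℤ) + 1 - (rA t y : ℕ) = R - t y := by rw [eB y hy]; ring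
    rw [eblk _ Y en en (erase_subset _ _) hY (fun _ _ => rfl), ← add_sub_assoc] at h8
    rw [← eB y hy, ← eA, ← a1, ← eM y hy, ← a4 y hyn,
      ← eps _ (sdiff_subset.trans (erase_subset _ _)), ← e6] at h8
    have h9 : ∑ l ∈ Y, ((nP be kq z l : ℕ) : ℤ) * en l ≤ mh' * pm := by
      have h10 : ∑ l ∈ Y, ((nP be kq z l : ℕ) : ℤ) * en l ≤ ∑ l ∈ Y, (pm : ℤ) * en l := by
        refine sum_le_sum fun l hl => mul_le_mul_of_nonneg_right ?_ (k3 l)
        obtain ⟨h11, h12⟩ := mem_erase.1 (hY hl)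
        exact_mod_cast hpm l h12 h11
      rw [← mul_sum] at h10
      have h11 : ∑ l ∈ Y, en l ≤ ∑ l ∈ ((range n).erase z).erase y, en l :=
        sum_le_sum_of_subset_of_nonneg hY fun l _ _ => k3 l
      have h12 := mul_le_mul_of_nonneg_left (h11.trans k4) (show (0 : ℤ) ≤ pm from Nat.cast_nonneg _)
      linarith
    have h9 : ∑ l ∈ Y, ((nP be kq z l : ℕ) : ℤ) * en l ≤ if Y = ∅ then 0 else (mh' : ℤ) * pm := by
      split_ifs with hY0
      · rw [hY0, sum_empty]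
      · exact h9
    have h10 : blkE (fun l => ((nP be kq z l : ℕ) : ℤ)) (fun l => (((sg z l).toNat : ℕ) : ℤ)) en
        (((range n).erase z).erase y) Y
        ≤ ∑ l ∈ ((range n).erase z).erase y \ Y, ((nP be kq z l : ℕ) : ℤ) * ((nP be kq z l : ℕ) + 1)
          + 2 * ∑ l ∈ Y, ((nP be kq z l : ℕ) : ℤ) * ((sg z l).toNat : ℕ)
          + 2 * (if Y = ∅ then 0 else (mh' : ℤ) * pm) := by
      unfold blkE
      have h11 : ∑ l ∈ Y, ((nP be kq z l : ℕ) : ℤ) * ((((sg z l).toNat : ℕ) : ℤ) + en l)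
          = ∑ l ∈ Y, ((nP be kq z l : ℕ) : ℤ) * ((sg z l).toNat : ℕ)
            + ∑ l ∈ Y, ((nP be kq z l : ℕ) : ℤ) * en l := by
        rw [← sum_add_distrib]
        exact sum_congr rfl fun l _ => by ring
      rw [h11]
      linarith
    unfold ColN at h8 ⊢
    linarith
  · -- row
    intro q' kf' kh' c hle
    have h1 : ∀ y, ∃ b' w' : ℤ, y ∈ (range n).erase z → 0 ≤ b' ∧ b' ≤ (nKhb mn S z y : ℤ) ∧
        ((S y).card : ℤ) * b' ≤ kh' y * (nKhb mn S z y : ℤ) ∧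
        UseC n U ho vl kp mn pc be (lvQ vl kp g z) z y (q' y)
          (kf' y + kh' y + c y * (nKc U ho vl pc g z y : ℤ))
          (kf' y + kh' y + c y * ((vSC U ho vl pc g z y).card : ℤ)) (kf' y + kh' y)
          (b' + c y * (nKcb U ho vl kp mn pc g z y : ℤ)) w' (kf' y) := by
      intro y
      by_cases hy : y ∈ (range n).erase z
      · obtain ⟨h2, h3, h4, h5⟩ := hle y hy
        obtain ⟨⟨b', w', h6⟩, -⟩ := Lv.useN H hz hy hS h2 h3 h4 h5
        exact ⟨b', w', fun _ => h6⟩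
      · exact ⟨0, 0, fun h => absurd h hy⟩
    choose b' w' hb using h1
    have hU := fun y hy => (hb y hy).2.2.2
    have hxs : ∀ xx : ℕ, xx ≤ ∑ l ∈ (range n).erase z, nX kq z l →
        (0 : ℤ) ≤ (xx : ℤ) ∧ (xx : ℤ) ≤ ∑ l ∈ (range n).erase z, kq z l := by
      intro xx hxx
      refine ⟨Nat.cast_nonneg _, ?_⟩
      rw [← exs _ (Subset.refl _)]
      exact_mod_cast hxx
    have hmu2 : mu z = ((nH U ho vl pc z : ℕ) : ℤ)
        + ∑ l ∈ (range n).erase z, (((nP be kq z l : ℕ) : ℤ) + (nX kq z l : ℕ)) := by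
      rw [hmu, sum_congr rfl eM]
      ring
    have hpx : ∀ X ⊆ (range n).erase z, ∀ Y ⊆ X,
        ∑ l ∈ (range n).erase z, be z l - ∑ l ∈ X, kq z l - ∑ l ∈ Y, (be z l - kq z l)
        = ∑ l ∈ (range n).erase z \ X, ((nX kq z l : ℕ) : ℤ)
          + ∑ l ∈ (range n).erase z \ Y, ((nP be kq z l : ℕ) : ℤ) := by
      intro X hX Y hY
      have h2 := sum_sdiff (f := fun l => kq z l) hX
      have h3 := sum_sdiff (f := fun l => be z l - kq z l) (hY.trans hX)
      rw [sum_sub_distrib (s := (range n).erase z)] at h3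
      rw [eps _ sdiff_subset, exs _ sdiff_subset]
      linarith
    refine ⟨b', fun y hy => ⟨(hb y hy).1, (hb y hy).2.1, (hb y hy).2.2.1⟩, fun X hX Y hY => ?_,
      fun X hX Y hY => ?_, fun xx hxx e he he2 => ?_, fun xx hxx e he he2 => ?_, ?_⟩
    · have h2 := H.rowU hz (Lv.lvQ_le H.toPCon hz) hU (Lv.kep_v H hz) hX hY
      have e1 : mu z - ∑ l ∈ X, kq z l - ∑ l ∈ Y, (be z l - kq z l)
          - (∑ u ∈ U.filter (fun u => ho u = z ∧ pc u = 0), vl u
            - ∑ u ∈ vP0 U ho pc z, vl u)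
          = ((nH U ho vl pc z : ℕ) : ℤ) + ∑ l ∈ (range n).erase z \ X, ((nX kq z l : ℕ) : ℤ)
            + ∑ l ∈ (range n).erase z \ Y, ((nP be kq z l : ℕ) : ℤ) := by
        have h3 : ∑ u ∈ U.filter (fun u => ho u = z ∧ pc u = 0), vl u
          = ∑ u ∈ vP0 U ho pc z, vl u := rfl
        rw [h3]
        have h4 := hpx X hX Y hY
        linarith
      rw [e1, add_zero] at h2
      rw [eblk _ Y (rnEl U ho kp pc z) (fun l => ((nE U ho kp pc z l : ℕ) : ℤ)) hX hY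
        (fun _ _ => rfl)] at h2
      rw [← eA, ← a1, ← sum_congr rfl (fun l hl => enn l (mem_sdiff.1 hl).1)] at h2
      exact h2
    · have h2 := H.rowU hz (Lv.lvQ_le H.toPCon hz) hU
        (kep_none (R : ℤ) n t U ho vl kp mn pc z z) hX hY
      have e1 : mu z - ∑ l ∈ X, kq z l - ∑ l ∈ Y, (be z l - kq z l)
          - (∑ u ∈ U.filter (fun u => ho u = z ∧ pc u = 0), vl u - 0)
          = ∑ l ∈ (range n).erase z \ X, ((nX kq z l : ℕ) : ℤ)
            + ∑ l ∈ (range n).erase z \ Y, ((nP be kq z l : ℕ) : ℤ) := by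
        have h3 : ∑ u ∈ U.filter (fun u => ho u = z ∧ pc u = 0), vl u
          = ((nH U ho vl pc z : ℕ) : ℤ) := a5.symm
        rw [h3]
        have h4 := hpx X hX Y hY
        linarith
      rw [e1] at h2
      rw [eblk _ Y (fun _ => 0) (fun _ => 0) hX hY (fun _ _ => rfl)] at h2
      rw [← eA, ← a1, ← ePc, ← sum_congr rfl (fun l hl => enn l (mem_sdiff.1 hl).1)] at h2
      exact h2
    · obtain ⟨h2, h3⟩ := hxs xx hxx
      have h4 := H.tenU hz (Lv.lvQ_le H.toPCon hz) hU h2 h3 (e := e) (by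
        rw [he, hmu2]) he2
      rw [← eA, ← a1] at h4
      exact h4
    · obtain ⟨h2, h3⟩ := hxs xx hxx
      have h4 := H.tenU0 hz (Lv.lvQ_le H.toPCon hz) hU h2 h3 (e := e) (by
        have h5 : ∑ u ∈ U.filter (fun u => ho u = z ∧ pc u = 0), vl u
          = ((nH U ho vl pc z : ℕ) : ℤ) := a5.symm
        rw [he, hmu2, h5]
        ring) he2
      rw [← eA, ← a1, ← ePc] at h4
      exact h4
    · have h2 := H.gloU hz (Lv.lvQ_le H.toPCon hz) hU
      rw [hmu2, ← eA] at h2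
      rw [a1, hmu2]
      exact h2

end RowVS

end Pool.Agent.Lib.MP_f04ccf_co
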