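import Pool.Agent.Lib.MP_f04ccf_co.M.BudW
import Pool.Agent.Lib.MP_f04ccf_co.M.RowV

/-!
MP_f04ccf_co, TEXT D, middle range: **TABLE G** (92's note 6): any share, linear in the misses of the main end.

`D > 0` and `S G P : ℕ → ℕ → ℕ` (size of the host, size of the main end).  A plain unit with `b` misses at its main
end is paid by the main end with `(S x m - G x m * b) / D` and by the host with the rest, a PC pair with `P x m / D`;
the cut end pays nothing.

* `payG`: the numerator of what the row `z` (size `A`) pays in the cell of `y` (size `B`);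
* `LevC.rowG_sum`: the payments of a row are exactly the sum over the other rows which are not light;
* `LevC.close_G`: the closing with budgets `δ`;
* `PCon.wbud_lt1`: the budgets of ONE world (`Kern.wone`); **`LevC.close_GW`**: the closing for one triple of sizes, in
  integers; `S, P ≤ D`, `G x m * Q ≤ 2 * S x m`;
* `LevC.rnHu_num`, ...: the numbers of a cell in the letters of `RowV`.
-/

set_option autoImplicit false

namespace Pool.Agent.Lib.MP_f04ccf_co

open Finset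

attribute [local instance] Classical.propDecidable

/-- **numerator of a cell**: `ph` hosted PC pairs, `hu` hosted plain units with `hb` misses, `qs` served PC pairs,
`su` served plain units with `sb` misses -/
def payG (D : ℕ) (S G P : ℕ → ℕ → ℕ) (A B : ℕ) (ph hu hb qs su sb : ℤ) : ℤ :=
  ((D : ℤ) - P A B) * ph + ((D : ℤ) - S A B) * hu + (G A B : ℤ) * hb
    + (P B A : ℤ) * qs + (S B A : ℤ) * su - (G B A : ℤ) * sb

section TabG

variable {ι : Type*} {R : ℤ} {n : ℕ} {t s mu : ℕ → ℤ} {U : Finset ι} {ho : ι → ℕ} {vl : ι → ℤ}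
  {kp mn : ℕ → ι → ℤ} {pc ar : ι → ℤ} {be kq NN sg : ℕ → ℕ → ℤ} {nu : ℕ → ι → ℤ} {z y : ℕ}
  {φ : ι → ℕ → ℤ} {g : ℕ → ι → ℕ} {f : ι → ℕ} {D : ℕ} {S G P : ℕ → ℕ → ℕ}

/-- the hosted plain units of the cell -/
noncomputable def rnHu (U : Finset ι) (ho : ι → ℕ) (vl pc : ι → ℤ) (g : ℕ → ι → ℕ) (z y : ℕ) : ℤ :=
  ((rnM U ho vl pc g z y).card : ℤ) + ∑ u ∈ rnC U ho vl pc z, (g y u : ℤ)

/-- the served plain units of the cell -/
noncomputable def rnSu (U : Finset ι) (ho : ι → ℕ) (pc : ι → ℤ) (g : ℕ → ι → ℕ) (z y : ℕ) : ℤ :=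
  ∑ u ∈ rnK U ho pc g z y, (g z u : ℤ)

/-- **the payment of the row `z` in the cell of `y`** (numerator) -/
noncomputable def payGc (D : ℕ) (S G P : ℕ → ℕ → ℕ) (t : ℕ → ℤ) (U : Finset ι) (ho : ι → ℕ)
    (vl : ι → ℤ) (kp mn : ℕ → ι → ℤ) (pc : ι → ℤ) (be : ℕ → ℕ → ℤ) (g : ℕ → ι → ℕ) (z y : ℕ) : ℤ :=
  payG D S G P (rA t z) (rA t y) (be z y) (rnHu U ho vl pc g z y) (rnHb U ho vl kp mn pc g z y)
    (be y z) (rnSu U ho pc g z y) (rnSb U ho kp mn pc g z y)

/-- **TABLE G, the part of the main end** (numerator) -/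
noncomputable def TGn (S G P : ℕ → ℕ → ℕ) (t : ℕ → ℤ) (ho : ι → ℕ) (kp mn : ℕ → ι → ℤ) (pc : ι → ℤ)
    (g : ℕ → ι → ℕ) (v : ι × ℕ × ℕ) : ℤ :=
  if pc v.1 = 0 then (S (rA t (ho v.1)) (rA t v.2.1) : ℤ)
      - (G (rA t (ho v.1)) (rA t v.2.1) : ℤ) * unb kp mn g v
    else (P (rA t (ho v.1)) (rA t v.2.1) : ℤ)

/-- PC units have no misses -/
lemma LevC.pc_unb (Lv : LevC n U ho vl kp mn pc φ g f) {v : ι × ℕ × ℕ} (hv : v ∈ unV n U g)
    (h : pc v.1 ≠ 0) : unb kp mn g v = 0 := by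
  obtain ⟨h1, h2, h3⟩ := LevC.mem_unV hv
  rcases Lv.typ v.1 h1 with ⟨-, h5, h6, h7, h8⟩ | ⟨h4, -⟩
  · have h9 : v.2.1 = f v.1 := by
      by_contra h10
      have h11 := Lv.le v.1 h1 v.2.1 h2
      rw [h8 v.2.1 h2 h10] at h11
      omega
    unfold unb
    rw [h9, h7, ite_self]
  · exact absurd h4 h

/-- the PC pairs of a cell as units -/
lemma LevC.card_pcu (Lv : LevC n U ho vl kp mn pc φ g f)
    (H : PCon R n t s mu U ho vl kp mn pc ar be kq NN sg nu) {i j : ℕ} (hi : i < n) (hj : j < n) :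
    ((((unV n U g).filter fun v => ho v.1 = i ∧ v.2.1 = j).filter fun v => ¬ pc v.1 = 0).card : ℤ)
      = be i j := by
  have h1 := unit_fib (M := ℤ) (Lv.two H)
    (filter_subset (fun u => ho u = i ∧ ¬ pc u = 0) U) hj fun _ => 1
  have h2 : (unV n U g).filter (fun v => v.1 ∈ U.filter (fun u => ho u = i ∧ ¬ pc u = 0)
      ∧ v.2.1 = j)
      = ((unV n U g).filter fun v => ho v.1 = i ∧ v.2.1 = j).filter fun v => ¬ pc v.1 = 0 := by
    rw [filter_filter]
    refine filter_congr fun v hv => ?_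
    rw [mem_filter]
    exact ⟨fun h => ⟨⟨h.1.2.1, h.2⟩, h.1.2.2⟩,
      fun h => ⟨⟨(LevC.mem_unV hv).1, h.1.1, h.2⟩, h.1.2⟩⟩
  rw [h2] at h1
  simp only [sum_const, nsmul_eq_mul, mul_one, card_range] at h1
  rw [h1, ← H.pcb i hi j hj, ← sum_filter_add_sum_filter_not (U.filter fun u => ho u = i)
    (fun u => pc u = 0) (fun u => pc u * kp j u)]
  have e2 : ∑ u ∈ (U.filter fun u => ho u = i).filter (fun u => pc u = 0), pc u * kp j u = 0 :=
    sum_eq_zero fun u hu => by rw [(mem_filter.1 hu).2, zero_mul]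
  rw [e2, zero_add, filter_filter]
  refine sum_congr rfl fun u hu => ?_
  obtain ⟨h3, h4, h5⟩ := mem_filter.1 hu
  rw [Lv.lev_pc H h3 h5 hj]
  rcases H.pc01 u h3 with h6 | h6
  · exact absurd h6 h5
  · rw [h6, one_mul]

/-- a sum over the units of a cell, plain units and PC pairs apart -/
lemma LevC.cell_sum (Lv : LevC n U ho vl kp mn pc φ g f)
    (H : PCon R n t s mu U ho vl kp mn pc ar be kq NN sg nu) {i j : ℕ} (hi : i < n) (hj : j < n) :
    ∑ v ∈ (unV n U g).filter (fun v => ho v.1 = i ∧ v.2.1 = j), TGn S G P t ho kp mn pc g v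
      = (S (rA t i) (rA t j) : ℤ)
          * ((((unV n U g).filter fun v => ho v.1 = i ∧ v.2.1 = j).card : ℤ) - be i j)
        - (G (rA t i) (rA t j) : ℤ)
          * ∑ v ∈ (unV n U g).filter (fun v => ho v.1 = i ∧ v.2.1 = j), unb kp mn g v
        + (P (rA t i) (rA t j) : ℤ) * be i j := by
  obtain ⟨C, hC⟩ : ∃ C : Finset (ι × ℕ × ℕ),
    C = (unV n U g).filter fun v => ho v.1 = i ∧ v.2.1 = j := ⟨_, rfl⟩
  have hc := Lv.card_pcu H hi hj
  rw [← hC] at hc ⊢
  have hC' : ∀ v ∈ C, v ∈ unV n U g ∧ ho v.1 = i ∧ v.2.1 = j := fun v hv => by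
    rw [hC] at hv
    exact mem_filter.1 hv
  have h1 := sum_filter_add_sum_filter_not C (fun v => pc v.1 = 0)
    (fun v => TGn S G P t ho kp mn pc g v)
  have h2 := sum_filter_add_sum_filter_not C (fun v => pc v.1 = 0) (fun v => unb kp mn g v)
  have h3 : (((C.filter fun v => pc v.1 = 0).card : ℕ) : ℤ)
      + (((C.filter fun v => ¬ pc v.1 = 0).card : ℕ) : ℤ) = (C.card : ℤ) := by
    exact_mod_cast card_filter_add_card_filter_not (s := C) (fun v => pc v.1 = 0)
  have h4 : ∑ v ∈ C.filter (fun v => ¬ pc v.1 = 0), unb kp mn g v = 0 :=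
    sum_eq_zero fun v hv => by
      obtain ⟨h5, h6⟩ := mem_filter.1 hv
      exact Lv.pc_unb (hC' v h5).1 h6
  have h5 : ∑ v ∈ C.filter (fun v => pc v.1 = 0), TGn S G P t ho kp mn pc g v
      = (S (rA t i) (rA t j) : ℤ) * (((C.filter fun v => pc v.1 = 0).card : ℕ) : ℤ)
        - (G (rA t i) (rA t j) : ℤ) * ∑ v ∈ C.filter (fun v => pc v.1 = 0), unb kp mn g v := by
    have h6 : ∀ v ∈ C.filter (fun v => pc v.1 = 0), TGn S G P t ho kp mn pc g v
        = (S (rA t i) (rA t j) : ℤ) - (G (rA t i) (rA t j) : ℤ) * unb kp mn g v := by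
      intro v hv
      obtain ⟨h7, h8⟩ := mem_filter.1 hv
      obtain ⟨-, h9, h10⟩ := hC' v h7
      unfold TGn
      rw [if_pos h8, h9, h10]
    rw [sum_congr rfl h6, sum_sub_distrib, sum_const, nsmul_eq_mul, ← mul_sum]
    ring
  have h6 : ∑ v ∈ C.filter (fun v => ¬ pc v.1 = 0), TGn S G P t ho kp mn pc g v
      = (P (rA t i) (rA t j) : ℤ) * be i j := by
    have h7 : ∀ v ∈ C.filter (fun v => ¬ pc v.1 = 0), TGn S G P t ho kp mn pc g v
        = (P (rA t i) (rA t j) : ℤ) := by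
      intro v hv
      obtain ⟨h8, h9⟩ := mem_filter.1 hv
      obtain ⟨-, h10, h11⟩ := hC' v h8
      unfold TGn
      rw [if_neg h9, h10, h11]
    rw [sum_congr rfl h7, sum_const, nsmul_eq_mul, hc]
    ring
  rw [h4, add_zero] at h2
  rw [← h1, h5, h6, ← h2, ← h3, hc]
  ring

/-- **the payments of a cell** -/
lemma LevC.cellG (Lv : LevC n U ho vl kp mn pc φ g f)
    (H : PCon R n t s mu U ho vl kp mn pc ar be kq NN sg nu) (hz : z < n) (hy : y < n) :
    ∑ v ∈ (unV n U g).filter (fun v => ho v.1 = z ∧ v.2.1 = y),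
        ((D : ℤ) - TGn S G P t ho kp mn pc g v)
      + ∑ v ∈ (unV n U g).filter (fun v => ho v.1 = y ∧ v.2.1 = z), TGn S G P t ho kp mn pc g v
      = payGc D S G P t U ho vl kp mn pc be g z y := by
  rw [sum_sub_distrib, Lv.cell_sum H hz hy, Lv.cell_sum H hy hz, sum_const, nsmul_eq_mul,
    Lv.unb_host H hy, Lv.unb_serv H hz, Lv.card_host H hz hy, Lv.card_serv H hz hy]
  unfold payGc payG rnHu rnSu rnHb rnSb
  ring

/-- **the payments of a row by cells, exactly** -/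
theorem LevC.rowG_sum (Lv : LevC n U ho vl kp mn pc φ g f)
    (H : PCon R n t s mu U ho vl kp mn pc ar be kq NN sg nu) (hz : z < n)
    (hzL : NLz n s mu U ho vl pc be g z) {F : Finset (ι × ℕ × ℕ)}
    (hF : F = freeU (unV n U g) (fun v => ho v.1) (fun v => {v.2.1})
      (lightU n s (unV n U g) fun v => {v.2.1})) :
    ∑ v ∈ F.filter (fun v => ho v.1 = z), ((D : ℤ) - TGn S G P t ho kp mn pc g v)
        + ∑ v ∈ F.filter (fun v => v.2.1 = z), TGn S G P t ho kp mn pc g v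
      = ∑ y ∈ ((range n).erase z).filter (fun y => NLz n s mu U ho vl pc be g y),
        payGc D S G P t U ho vl kp mn pc be g z y := by
  have h0 : ∀ v ∈ unV n U g, v.2.1 < n ∧ ho v.1 < n ∧ v.2.1 ≠ ho v.1 := by
    intro v hv
    obtain ⟨h1, h2, h3⟩ := LevC.mem_unV hv
    refine ⟨h2, H.hlt _ h1, fun h4 => ?_⟩
    have h5 := Lv.home v.1 h1
    rw [← h4] at h5
    omega
  have hmF : ∀ v, v ∈ F ↔ v ∈ unV n U g ∧ NLz n s mu U ho vl pc be g (ho v.1)
      ∧ NLz n s mu U ho vl pc be g v.2.1 := by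
    intro v
    rw [hF]
    unfold freeU
    rw [mem_filter]
    constructor
    · rintro ⟨h1, h2, h3⟩
      obtain ⟨h4, h5, h6⟩ := h0 v h1
      exact ⟨h1, (Lv.nl_iff H h5).1 h2, (Lv.nl_iff H h4).1 (disjoint_singleton_left.1 h3)⟩
    · rintro ⟨h1, h2, h3⟩
      obtain ⟨h4, h5, h6⟩ := h0 v h1
      exact ⟨h1, (Lv.nl_iff H h5).2 h2, disjoint_singleton_left.2 ((Lv.nl_iff H h4).2 h3)⟩
  have e1 : ∑ v ∈ F.filter (fun v => ho v.1 = z), ((D : ℤ) - TGn S G P t ho kp mn pc g v)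
      = ∑ y ∈ ((range n).erase z).filter (fun y => NLz n s mu U ho vl pc be g y),
        ∑ v ∈ (unV n U g).filter (fun v => ho v.1 = z ∧ v.2.1 = y),
          ((D : ℤ) - TGn S G P t ho kp mn pc g v) := by
    rw [← sum_fiberwise_of_maps_to (s := F.filter (fun v => ho v.1 = z))
      (t := ((range n).erase z).filter (fun y => NLz n s mu U ho vl pc be g y))
      (g := fun v : ι × ℕ × ℕ => v.2.1) fun v hv => ?_]
    · refine sum_congr rfl fun y hy => ?_
      refine sum_congr ?_ fun _ _ => rfl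
      have hyL := (mem_filter.1 hy).2
      ext v
      rw [mem_filter, mem_filter, mem_filter, hmF v]
      constructor
      · rintro ⟨⟨⟨h1, -, -⟩, h2⟩, h3⟩
        exact ⟨h1, h2, h3⟩
      · rintro ⟨h1, h2, h3⟩
        refine ⟨⟨⟨h1, ?_, ?_⟩, h2⟩, h3⟩
        · rw [h2]
          exact hzL
        · rw [h3]
          exact hyL
    · obtain ⟨h1, h2⟩ := mem_filter.1 hv
      obtain ⟨h3, -, h4⟩ := (hmF v).1 h1
      obtain ⟨h5, -, h6⟩ := h0 v h3
      exact mem_filter.2 ⟨mem_erase.2 ⟨fun h7 => h6 (by rw [h7, h2]), mem_range.2 h5⟩, h4⟩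
  have e2 : ∑ v ∈ F.filter (fun v => v.2.1 = z), TGn S G P t ho kp mn pc g v
      = ∑ y ∈ ((range n).erase z).filter (fun y => NLz n s mu U ho vl pc be g y),
        ∑ v ∈ (unV n U g).filter (fun v => ho v.1 = y ∧ v.2.1 = z),
          TGn S G P t ho kp mn pc g v := by
    rw [← sum_fiberwise_of_maps_to (s := F.filter (fun v => v.2.1 = z))
      (t := ((range n).erase z).filter (fun y => NLz n s mu U ho vl pc be g y))
      (g := fun v : ι × ℕ × ℕ => ho v.1) fun v hv => ?_]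
    · refine sum_congr rfl fun y hy => ?_
      refine sum_congr ?_ fun _ _ => rfl
      have hyL := (mem_filter.1 hy).2
      ext v
      rw [mem_filter, mem_filter, mem_filter, hmF v]
      constructor
      · rintro ⟨⟨⟨h1, -, -⟩, h2⟩, h3⟩
        exact ⟨h1, h3, h2⟩
      · rintro ⟨h1, h2, h3⟩
        refine ⟨⟨⟨h1, ?_, ?_⟩, h3⟩, h2⟩
        · rw [h2]
          exact hyL
        · rw [h3]
          exact hzL
    · obtain ⟨h1, h2⟩ := mem_filter.1 hv
      obtain ⟨h3, h4, -⟩ := (hmF v).1 h1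
      obtain ⟨-, h5, h6⟩ := h0 v h3
      exact mem_filter.2 ⟨mem_erase.2 ⟨fun h7 => h6 (by rw [h7, h2]), mem_range.2 h5⟩, h4⟩
  rw [e1, e2, ← sum_add_distrib]
  refine sum_congr rfl fun y hy => ?_
  exact Lv.cellG H hz (mem_range.1 (mem_of_mem_erase (mem_filter.1 hy).1))

/-- **TABLE G, the closing**: only the rows which are not light have a claim, and only the cells of rows which are not
light count -/
theorem LevC.close_G (Lv : LevC n U ho vl kp mn pc φ g f)
    (H : PCon R n t s mu U ho vl kp mn pc ar be kq NN sg nu) (hD : 0 < D) {δ : ℕ → ℝ}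
    (h2 : ∀ z < n, NLz n s mu U ho vl pc be g z →
      ((∑ y ∈ ((range n).erase z).filter (fun y => NLz n s mu U ho vl pc be g y),
        payGc D S G P t U ho vl kp mn pc be g z y : ℤ) : ℝ) / D ≤ (mu z : ℝ) - s z + δ z)
    (h3 : ∑ i ∈ (range n).filter (fun i => i ∉ lightU n s (unV n U g) fun v => {v.2.1}), δ i < 1) :
    False := by
  have hD' : (D : ℝ) ≠ 0 := by
    have : (0 : ℝ) < D := by exact_mod_cast hD
    exact this.ne'
  refine Lv.close_M H (T := fun v => (TGn S G P t ho kp mn pc g v : ℝ) / D) (δ := δ) rfl rfl ?_ h3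
  intro z hz hzL _
  have h4 := (Lv.nl_iff H hz).1 hzL
  refine le_trans (le_of_eq ?_) (h2 z hz h4)
  rw [← Lv.rowG_sum H hz h4 rfl]
  push_cast
  rw [add_div, sum_div, sum_div]
  congr 1
  refine sum_congr rfl fun v _ => ?_
  rw [sub_div, div_self hD']

/-- **the budgets of one world have sum less than one** -/
theorem PCon.wbud_lt1 (H : PCon R n t s mu U ho vl kp mn pc ar be kq NN sg nu) {Q N : ℕ}
    (hR : R = Q) {V : ℕ → ℕ → ℕ → ℕ} (hk : Kern.wone V Q N (rA t 0) (rA t 1) (rA t 2) = true)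
    {L : Finset ℕ} (hL : L ⊆ range n) :
    ∑ z ∈ L, ((V (rA t z) (rA t (y1W z)) (rA t (y2W z)) : ℕ) : ℝ) / N < 1 := by
  have hn := H.n5
  obtain ⟨a, ha⟩ : ∃ a : ℕ → ℕ, a = rA t := ⟨_, rfl⟩
  rw [← ha] at hk ⊢
  have ha' : ∀ z < n, (a z : ℤ) = t z + 1 := fun z hz => by
    rw [ha]
    exact Int.toNat_of_nonneg (by linarith [H.t0 z hz])
  have hmono : ∀ i j, i ≤ j → j < n → a j ≤ a i := fun i j hij hj => by
    have h1 := H.anti i j hij hj
    have h2 := ha' i (by omega)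
    have h3 := ha' j hj
    omega
  have hpos : ∀ z < n, 1 ≤ a z := fun z hz => by
    have h1 := ha' z hz
    have h2 := H.t0 z hz
    omega
  have hsum : ∑ z ∈ range n, a z ≤ Q := by
    have h3 : ((∑ z ∈ range n, a z : ℕ) : ℤ) = ∑ z ∈ range n, (t z + 1) := by
      rw [Nat.cast_sum]
      exact sum_congr rfl fun z hz => ha' z (mem_range.1 hz)
    have h4 : ((∑ z ∈ range n, a z : ℕ) : ℤ) ≤ Q := by
      rw [h3, ← hR]
      exact H.tsum
    exact_mod_cast h4
  obtain ⟨C, hC⟩ : ∃ C : Finset ℕ, C = (range n).filter fun z => 3 ≤ z := ⟨_, rfl⟩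
  have hrange : range n = insert 0 (insert 1 (insert 2 C)) := by
    ext x
    rw [hC]
    simp only [mem_insert, mem_filter, mem_range]
    omega
  have h0S : (0 : ℕ) ∉ insert 1 (insert 2 C) := by
    rw [hC]
    simp
  have h1S : (1 : ℕ) ∉ insert 2 C := by
    rw [hC]
    simp
  have h2S : (2 : ℕ) ∉ C := by
    rw [hC]
    simp
  have hSn : ∀ z ∈ C, z < n ∧ 3 ≤ z := fun z hz => by
    rw [hC] at hz
    exact ⟨mem_range.1 (mem_filter.1 hz).1, (mem_filter.1 hz).2⟩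
  have hScard : 2 ≤ C.card := by
    have h1 : ({3, 4} : Finset ℕ) ⊆ C := by
      intro x hx
      rw [hC]
      rw [mem_insert, mem_singleton] at hx
      rw [mem_filter, mem_range]
      omega
    have h2 := card_le_card h1
    rw [card_pair (by norm_num)] at h2
    exact h2
  have hsum3 : a 0 + (a 1 + (a 2 + ∑ z ∈ C, a z)) ≤ Q := by
    rw [hrange, sum_insert h0S, sum_insert h1S, sum_insert h2S] at hsum
    exact hsum
  have hS2 : 2 ≤ ∑ z ∈ C, a z := by
    calc 2 ≤ C.card := hScard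
      _ = ∑ z ∈ C, 1 := card_eq_sum_ones C
      _ ≤ ∑ z ∈ C, a z := sum_le_sum fun z hz => hpos z (hSn z hz).1
  have h1 : V (a 0) (a 1) (a 2) + V (a 1) (a 0) (a 2) + V (a 2) (a 0) (a 1)
      + (Kern.kit (Kern.vls V (a 0) (a 1) 0 (a 2)) (Q - a 0 - a 1 - a 2) 2).headD 0 < N := by
    unfold Kern.wone at hk
    rw [Bool.or_eq_true] at hk
    rcases hk with hk | hk
    · unfold Nat.blt at hk
      have := Nat.le_of_ble_eq_true hk
      omega
    · unfold Nat.blt at hk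
      exact Nat.le_of_ble_eq_true hk
  have hle : ∀ z ∈ C, a z ≤ a 2 := fun z hz => hmono 2 z (by have := (hSn z hz).2; omega) (hSn z hz).1
  have h2 := Kern.bud_le' (Kern.vls V (a 0) (a 1) 0 (a 2)) (Q - a 0 - a 1 - a 2) (S := C)
    (τ := fun z => a z - 1) (fun z hz => by
      rw [Kern.vls_length]
      have h3 := hle z hz
      have h4 := hpos z (hSn z hz).1
      show a z - 1 < a 2
      omega) 2 hScard 0 (by
      have h3 : ∑ z ∈ C, (a z - 1 + 1) = ∑ z ∈ C, a z := sum_congr rfl fun z hz => by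
        have h4 := hpos z (hSn z hz).1
        omega
      rw [h3]
      omega)
  have h3 : ∑ z ∈ C, (Kern.vls V (a 0) (a 1) 0 (a 2)).getD (a z - 1) 0
      = ∑ z ∈ C, V (a z) (a 0) (a 1) := sum_congr rfl fun z hz => by
    have h4 := hle z hz
    have h5 := hpos z (hSn z hz).1
    rw [Kern.vls_get V (a 0) (a 1) 0 (a 2) (a z - 1) (by omega)]
    congr 1
    omega
  have h4 : (Kern.kit (Kern.vls V (a 0) (a 1) 0 (a 2)) (Q - a 0 - a 1 - a 2) 2).headD 0
      = (Kern.kit (Kern.vls V (a 0) (a 1) 0 (a 2)) (Q - a 0 - a 1 - a 2) 2).getD 0 0 := by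
    cases Kern.kit (Kern.vls V (a 0) (a 1) 0 (a 2)) (Q - a 0 - a 1 - a 2) 2 <;> rfl
  have h5 : ∑ z ∈ range n, V (a z) (a (y1W z)) (a (y2W z))
      = V (a 0) (a 1) (a 2) + (V (a 1) (a 0) (a 2) + (V (a 2) (a 0) (a 1)
        + ∑ z ∈ C, V (a z) (a 0) (a 1))) := by
    rw [hrange, sum_insert h0S, sum_insert h1S, sum_insert h2S]
    have e3 : ∑ z ∈ C, V (a z) (a (y1W z)) (a (y2W z)) = ∑ z ∈ C, V (a z) (a 0) (a 1) :=
      sum_congr rfl fun z hz => by
        have h6 := (hSn z hz).2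
        unfold y1W y2W
        rw [if_neg (by omega), if_neg (by omega)]
    rw [e3]
    rfl
  have h6 : ∑ z ∈ range n, V (a z) (a (y1W z)) (a (y2W z)) < N := by
    rw [h5]
    have h7 : ∑ z ∈ C, V (a z) (a 0) (a 1)
        ≤ (Kern.kit (Kern.vls V (a 0) (a 1) 0 (a 2)) (Q - a 0 - a 1 - a 2) 2).headD 0 := by
      rw [h4, ← h3]
      exact h2
    omega
  have h7 : ∑ z ∈ L, V (a z) (a (y1W z)) (a (y2W z))
      ≤ ∑ z ∈ range n, V (a z) (a (y1W z)) (a (y2W z)) := sum_le_sum_of_subset hL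
  have h8 : ∑ z ∈ L, V (a z) (a (y1W z)) (a (y2W z)) < N := lt_of_le_of_lt h7 h6
  have h9 : (0 : ℝ) < N := by
    have : 0 < N := by omega
    exact_mod_cast this
  rw [← sum_div, div_lt_one h9, ← Nat.cast_sum]
  exact_mod_cast h8

/-- the payments of a cell are not negative -/
lemma LevC.payG_nonneg (Lv : LevC n U ho vl kp mn pc φ g f)
    (H : PCon R n t s mu U ho vl kp mn pc ar be kq NN sg nu) (hz : z < n) (hy : y < n)
    (hT : ∀ v ∈ unV n U g, 0 ≤ TGn S G P t ho kp mn pc g v ∧ TGn S G P t ho kp mn pc g v ≤ D) :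
    0 ≤ payGc D S G P t U ho vl kp mn pc be g z y := by
  rw [← Lv.cellG H hz hy]
  refine add_nonneg (sum_nonneg fun v hv => ?_) (sum_nonneg fun v hv => ?_)
  · have := (hT v (mem_filter.1 hv).1).2
    linarith
  · exact (hT v (mem_filter.1 hv).1).1

/-- **TABLE G, THE CLOSING FOR ONE TRIPLE OF SIZES** (`φ = mn`), in integers -/
theorem LevC.close_GW (Lv : LevC n U ho vl kp mn pc (fun u i => mn i u) g f)
    (H : PConC R n t s mu U ho vl kp mn pc ar be kq NN sg nu) {Q N : ℕ}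
    (hR : R = Q) {V : ℕ → ℕ → ℕ → ℕ} (hk : Kern.wone V Q N (rA t 0) (rA t 1) (rA t 2) = true)
    (hN : 0 < N) (hD : 0 < D) (hS : ∀ i < n, ∀ j < n, S (rA t i) (rA t j) ≤ D)
    (hP : ∀ i < n, ∀ j < n, P (rA t i) (rA t j) ≤ D)
    (hG : ∀ i < n, ∀ j < n, G (rA t i) (rA t j) * Q ≤ 2 * S (rA t i) (rA t j))
    (h2 : ∀ z < n, mu z - s z + 1 ≤ ∑ y ∈ (range n).erase z, rnE U ho vl pc be g z y →
      (N : ℤ) * ∑ y ∈ (range n).erase z, payGc D S G P t U ho vl kp mn pc be g z y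
        ≤ (D : ℤ) * ((N : ℤ) * (mu z - s z) + (V (rA t z) (rA t (y1W z)) (rA t (y2W z)) : ℕ))) :
    False := by
  have hD' : (0 : ℝ) < D := by exact_mod_cast hD
  have hN' : (0 : ℝ) < N := by exact_mod_cast hN
  refine Lv.close_G H.toPCon hD (S := S) (G := G) (P := P)
    (δ := fun z => ((V (rA t z) (rA t (y1W z)) (rA t (y2W z)) : ℕ) : ℝ) / N) ?_
    (H.toPCon.wbud_lt1 hR hk (filter_subset _ _))
  intro z hz hzL
  have hT : ∀ v ∈ unV n U g, 0 ≤ TGn S G P t ho kp mn pc g v ∧ TGn S G P t ho kp mn pc g v ≤ D := by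
    intro v hv
    obtain ⟨k1, k2, k3⟩ := LevC.mem_unV hv
    have k4 := H.hlt _ k1
    have k5 := Lv.two_unb H.toPCon hv
    have k6 := LevC.unb_nonneg H.toPCon hv
    have k7 : (G (rA t (ho v.1)) (rA t v.2.1) : ℤ) * Q ≤ 2 * (S (rA t (ho v.1)) (rA t v.2.1) : ℤ) := by
      exact_mod_cast hG _ k4 _ k2
    have k8 : (S (rA t (ho v.1)) (rA t v.2.1) : ℤ) ≤ D := by exact_mod_cast hS _ k4 _ k2
    have k9 : (P (rA t (ho v.1)) (rA t v.2.1) : ℤ) ≤ D := by exact_mod_cast hP _ k4 _ k2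
    have k10 : (0 : ℤ) ≤ G (rA t (ho v.1)) (rA t v.2.1) := Nat.cast_nonneg _
    have k11 : (0 : ℤ) ≤ P (rA t (ho v.1)) (rA t v.2.1) := Nat.cast_nonneg _
    rw [hR] at k5
    unfold TGn
    split_ifs
    · constructor
      · have := mul_le_mul_of_nonneg_left k5 k10
        linarith
      · have := mul_nonneg k10 k6
        linarith
    · exact ⟨k11, k9⟩
  have h3 : ∑ y ∈ ((range n).erase z).filter (fun y => NLz n s mu U ho vl pc be g y),
      payGc D S G P t U ho vl kp mn pc be g z y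
      ≤ ∑ y ∈ (range n).erase z, payGc D S G P t U ho vl kp mn pc be g z y :=
    sum_le_sum_of_subset_of_nonneg (filter_subset _ _) fun y hy _ =>
      Lv.payG_nonneg H.toPCon hz (mem_range.1 (mem_of_mem_erase hy)) hT
  have h4 := h2 z hz hzL
  rw [div_le_iff₀ hD']
  have h5 : ((∑ y ∈ ((range n).erase z).filter (fun y => NLz n s mu U ho vl pc be g y),
      payGc D S G P t U ho vl kp mn pc be g z y : ℤ) : ℝ)
      ≤ ((∑ y ∈ (range n).erase z, payGc D S G P t U ho vl kp mn pc be g z y : ℤ) : ℝ) := by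
    exact_mod_cast h3
  refine h5.trans ?_
  have h6 : (N : ℝ) * ((∑ y ∈ (range n).erase z, payGc D S G P t U ho vl kp mn pc be g z y : ℤ) : ℝ)
      ≤ (D : ℝ) * ((N : ℝ) * ((mu z : ℝ) - s z)
        + ((V (rA t z) (rA t (y1W z)) (rA t (y2W z)) : ℕ) : ℝ)) := by
    exact_mod_cast h4
  have h7 : (N : ℝ) * (((mu z : ℝ) - s z
      + ((V (rA t z) (rA t (y1W z)) (rA t (y2W z)) : ℕ) : ℝ) / N) * D)
      = (D : ℝ) * ((N : ℝ) * ((mu z : ℝ) - s z)
        + ((V (rA t z) (rA t (y1W z)) (rA t (y2W z)) : ℕ) : ℝ)) := by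
    field_simp
  rw [← h7] at h6
  exact le_of_mul_le_mul_left h6 hN'

end TabG

/-! ### the numbers of a cell in the letters of `RowV` -/

section TabGN

variable {ι : Type*} {R : ℕ} {n : ℕ} {t s mu : ℕ → ℤ} {U : Finset ι} {ho : ι → ℕ} {vl : ι → ℤ}
  {kp mn : ℕ → ι → ℤ} {pc ar : ι → ℤ} {be kq NN sg : ℕ → ℕ → ℤ} {nu : ℕ → ι → ℤ} {z y : ℕ}
  {g : ℕ → ι → ℕ} {f : ι → ℕ}

/-- the served halves with the main end `z` -/
noncomputable def vS1 (U : Finset ι) (ho : ι → ℕ) (vl : ι → ℤ) (kp : ℕ → ι → ℤ) (pc : ι → ℤ)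
    (g : ℕ → ι → ℕ) (f : ι → ℕ) (z y : ℕ) : Finset ι :=
  (vSH U ho vl kp pc g f z y).filter fun u => g z u = 1

/-- the hosted plain items of value one: full or half -/
lemma rnM_split (U : Finset ι) (ho : ι → ℕ) (vl : ι → ℤ) (kp : ℕ → ι → ℤ) (pc : ι → ℤ)
    (g : ℕ → ι → ℕ) (f : ι → ℕ) (z y : ℕ) :
    rnM U ho vl pc g z y = vHF U ho vl kp pc g f z y ∪ vHH U ho vl kp pc g f z y := by
  unfold rnM vHF vHH
  ext u
  simp only [mem_filter, mem_union]
  tauto

/-- the cliques with a unit at `y` -/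
lemma rnC_filter (U : Finset ι) (ho : ι → ℕ) (vl : ι → ℤ) (pc : ι → ℤ) (g : ℕ → ι → ℕ) (z y : ℕ) :
    (rnC U ho vl pc z).filter (fun u => g y u ≠ 0) = vHC U ho vl pc g z y := by
  unfold rnC vHC
  ext u
  simp only [mem_filter]
  tauto

/-- the served plain items by types -/
lemma LevC.rnK_types {φ : ι → ℕ → ℤ} (Lv : LevC n U ho vl kp mn pc φ g f)
    (H : PConC (R : ℤ) n t s mu U ho vl kp mn pc ar be kq NN sg nu) (hz : z < n) :
    rnK U ho pc g z y
      = (vSF U ho vl kp pc g f z y ∪ vS1 U ho vl kp pc g f z y) ∪ vSC U ho vl pc g z y := by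
  ext u
  simp only [rnK, vSF, vS1, vSH, vSC, mem_union, mem_filter]
  constructor
  · rintro ⟨h1, h2, h3, h4⟩
    by_cases h5 : vl u = 1
    · have h6 : kp z u ≠ 0 := by
        intro h7
        have h8 := Lv.le u h1 z hz
        rw [h7] at h8
        omega
      by_cases h7 : twoE vl kp g f u
      · refine Or.inl (Or.inr ⟨⟨h1, h2, h3, h5, h6, h7⟩, ?_⟩)
        rcases (Lv.half_at H.toPCon h1 h7 hz h6).2 with ⟨-, h8⟩ | ⟨-, h8⟩
        · exact h8
        · exact absurd h8 h4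
      · exact Or.inl (Or.inl ⟨h1, h2, h3, h5, h6, h7⟩)
    · exact Or.inr ⟨h1, h2, h3, h5, h4⟩
  · rintro ((⟨h1, h2, h3, h4, h5, h6⟩ | ⟨⟨h1, h2, h3, h4, h5, h6⟩, h7⟩) | ⟨h1, h2, h3, h4, h5⟩)
    · refine ⟨h1, h2, h3, ?_⟩
      rw [(Lv.full_at h1 h4 h6 hz h5).2.2.2]
      norm_num
    · exact ⟨h1, h2, h3, by rw [h7]; norm_num⟩
    · exact ⟨h1, h2, h3, h5⟩

/-- **the numbers of the cell in the letters of `RowV`** (`S y` = the served halves with the main end `z`) -/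
theorem LevC.cell_num {φ : ι → ℕ → ℤ} (Lv : LevC n U ho vl kp mn pc φ g f)
    (H : PConC (R : ℤ) n t s mu U ho vl kp mn pc ar be kq NN sg nu) (hz : z < n) (hy : y < n)
    {S : ℕ → Finset ι} (hS : ∀ y, S y = vS1 U ho vl kp pc g f z y) :
    be z y = (nP be kq z y : ℤ) + nX kq z y ∧ be y z = (nQ be z y : ℤ) ∧
    rnHu U ho vl pc g z y = ((vHF U ho vl kp pc g f z y).card : ℤ)
      + (vHH U ho vl kp pc g f z y).card + nMc U ho vl pc g z y ∧
    rnHb U ho vl kp mn pc g z y = (nMhb U ho vl kp mn pc g f z y : ℤ)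
      + nMcb U ho vl kp mn pc g z y ∧
    rnSu U ho pc g z y = ((vSF U ho vl kp pc g f z y).card : ℤ) + (S y).card
      + nKc U ho vl pc g z y ∧
    rnSb U ho kp mn pc g z y = (nKhb mn S z y : ℤ) + nKcb U ho vl kp mn pc g z y := by
  have hSU : ∀ y, S y ⊆ U := fun y => by
    rw [hS]
    exact (filter_subset _ _).trans (filter_subset _ _)
  obtain ⟨a1, a2, a3, a4, a5⟩ := H.nums hz
  obtain ⟨e1, e2, e3, e4, e5, e6, e7, e8, e9⟩ := H.nums2 (g := g) (f := f) hz hy hSU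
  obtain ⟨d1, d2⟩ := vS_disj U ho vl kp pc g f z y
  have d3 : Disjoint (vSF U ho vl kp pc g f z y) (vS1 U ho vl kp pc g f z y) :=
    disjoint_of_subset_right (filter_subset _ _) d1
  have d4 : Disjoint (vSF U ho vl kp pc g f z y ∪ vS1 U ho vl kp pc g f z y)
      (vSC U ho vl pc g z y) :=
    disjoint_of_subset_left (union_subset_union (Subset.refl _) (filter_subset _ _)) d2
  refine ⟨?_, (a4 y hy).symm, ?_, ?_, ?_, ?_⟩
  · rw [a2 y hy, a3 y hy]
    ring
  · unfold rnHu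
    rw [rnM_split U ho vl kp pc g f z y,
      card_union_of_disjoint (vH_disj U ho vl kp pc g f z y).1, e2, ← rnC_filter]
    have h1 : ∑ u ∈ rnC U ho vl pc z, (g y u : ℤ)
        = ∑ u ∈ (rnC U ho vl pc z).filter (fun u => g y u ≠ 0), (g y u : ℤ) := by
      refine (sum_subset (filter_subset _ _) fun u hu hu' => ?_).symm
      by_contra h4
      exact hu' (mem_filter.2 ⟨hu, fun h5 => h4 (by rw [h5]; rfl)⟩)
    rw [h1]
    push_cast
    ring
  · unfold rnHb
    rw [rnM_split U ho vl kp pc g f z y, sum_union (vH_disj U ho vl kp pc g f z y).1, rnC_filter,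
      e1, e3]
    have h1 : ∑ u ∈ vHF U ho vl kp pc g f z y, mn y u = 0 :=
      sum_eq_zero fun u hu => (Lv.hf_fact hy hu).2.2.1
    rw [h1, zero_add]
  · unfold rnSu
    rw [Lv.rnK_types H hz, sum_union d4, sum_union d3, e7, hS]
    congr 1
    have h1 : ∑ u ∈ vSF U ho vl kp pc g f z y, (g z u : ℤ)
        = ((vSF U ho vl kp pc g f z y).card : ℤ) := by
      rw [card_eq_sum_ones, Nat.cast_sum]
      refine sum_congr rfl fun u hu => ?_
      obtain ⟨h1, h2, h3, h4, h5, h6⟩ := mem_filter.1 hu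
      rw [(Lv.full_at h1 h4 h6 hz h5).2.2.2]
    have h2 : ∑ u ∈ vS1 U ho vl kp pc g f z y, (g z u : ℤ)
        = ((vS1 U ho vl kp pc g f z y).card : ℤ) := by
      rw [card_eq_sum_ones, Nat.cast_sum]
      refine sum_congr rfl fun u hu => ?_
      rw [(mem_filter.1 hu).2]
    rw [h1, h2]
  · unfold rnSb
    rw [Lv.rnK_types H hz, sum_union d4, sum_union d3, e8, e5, hS]
    congr 1
    have h1 : ∑ u ∈ vSF U ho vl kp pc g f z y, msP kp mn z (g z) u = 0 :=
      sum_eq_zero fun u hu => by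
        obtain ⟨h1, h2, h3, h4, h5, h6⟩ := mem_filter.1 hu
        unfold msP
        rw [(Lv.full_at h1 h4 h6 hz h5).2.1, ite_self]
    have h2 : ∑ u ∈ vS1 U ho vl kp pc g f z y, msP kp mn z (g z) u
        = ∑ u ∈ vS1 U ho vl kp pc g f z y, mn z u := by
      refine sum_congr rfl fun u hu => ?_
      obtain ⟨h3, h4⟩ := mem_filter.1 hu
      obtain ⟨h5, h6, h7, h8, h9, h10⟩ := mem_filter.1 h3
      unfold msP
      rw [if_pos]
      rw [h4, H.kp_one h5 h8 hz h9]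
      norm_num
    rw [h1, h2, zero_add]

end TabGN

end Pool.Agent.Lib.MP_f04ccf_co
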