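import Pool.Agent.Lib.MP_f04ccf_co.M.AsmL
import Pool.Agent.Lib.MP_f04ccf_co.M.TabG

/-!
MP_f04ccf_co, TEXT D, **REGIME L: the row claim which is left, in natural numbers** (`RowV`).

* `payLg`: what the row pays in a cell, any factor functions, in the letters of `RowV`; `RowVLg`: the row claim in
  numbers; `rowCLg_of_rowV`: it gives `RowCLg`;
* `RowVL R`, `rowCL_of_rowV`: the same for TABLE L8 (with `pureL_of_row`: regime L at `R`).
-/

set_option autoImplicit false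

namespace Pool.Agent.Lib.MP_f04ccf_co

open Finset

attribute [local instance] Classical.propDecidable

/-- **the payment of a row of mass `A` in a cell of mass `B`**, any factor functions: `e` units, misses of the hosted
halves `hb`, of the hosted cliques `hc`, of the served halves `sb`, of the served cliques `sc` -/
noncomputable def payLg (fr fc : ℤ → ℝ) (R A B e hb hc sb sc : ℕ) : ℝ :=
  (B : ℝ) / ((A : ℝ) + B) * e
    + ((1 - (B : ℝ) / ((A : ℝ) + B)) * (fr B / (R : ℝ) * hb + fc B / (R : ℝ) * hc)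
      - (B : ℝ) / ((A : ℝ) + B) * (fr A / (R : ℝ) * sb + fc A / (R : ℝ) * sc))

/-- **THE ROW CLAIM OF REGIME L IN NATURAL NUMBERS**, any factor functions -/
def RowVLg (R : ℕ) (fr fc : ℤ → ℝ) : Prop :=
  ∀ (P : Finset ℕ) (A d hn h : ℕ)
    (B p x q mf mh mhb mha mc mcb mcn mcv kf kh khb kha kc kca kcb kcr sg en nn : ℕ → ℕ),
    RowV R P A d hn h B p x q mf mh mhb mha mc mcb mcn mcv kf kh khb kha kc kca kcb kcr sg en nn →
    2 * A ≤ R → (∀ y ∈ P, 2 * B y ≤ R) → 3 * R < 40 * A →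
    d + 1 ≤ ∑ y ∈ P, (p y + x y + q y + (mf y + mh y + mc y) + (kf y + kh y + kc y)) →
    ∑ y ∈ P.filter (fun y => R ≤ 2 * B y ^ 3), payLg fr fc R A (B y)
        (p y + x y + q y + (mf y + mh y + mc y) + (kf y + kh y + kc y)) (mhb y) (mcb y) (khb y) (kcb y)
      ≤ (d : ℝ) + (A : ℝ) / ((R : ℝ) + 1)

section AsmV

variable {ι : Type*} {R : ℕ} {n : ℕ} {t s mu : ℕ → ℤ} {U : Finset ι} {ho : ι → ℕ} {vl : ι → ℤ}
  {kp mn : ℕ → ι → ℤ} {pc ar : ι → ℤ} {be kq NN sg : ℕ → ℕ → ℤ} {nu : ℕ → ι → ℤ} {z y : ℕ}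
  {g : ℕ → ι → ℕ} {f : ι → ℕ} {fr fc : ℤ → ℝ}

/-- the weighted misses of the hosted units in the letters of `RowV` -/
lemma LevC.rnHg_num (Lv : LevC n U ho vl kp mn pc (fun u i => mn i u) g f)
    (H : PConC (R : ℤ) n t s mu U ho vl kp mn pc ar be kq NN sg nu) (hz : z < n) (hy : y < n) :
    rnHr U ho vl kp mn pc g (rLg R t vl fr fc) z y
      = fr (t y + 1) / (R : ℝ) * (nMhb U ho vl kp mn pc g f z y : ℝ)
        + fc (t y + 1) / (R : ℝ) * (nMcb U ho vl kp mn pc g z y : ℝ) := by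
  obtain ⟨e1, -, e3, -⟩ := H.nums2 (g := g) (f := f) (S := fun _ => ∅) hz hy
    fun _ => empty_subset _
  have e1' : (nMhb U ho vl kp mn pc g f z y : ℝ)
      = ∑ u ∈ vHH U ho vl kp pc g f z y, (mn y u : ℝ) := by
    have h1 : (((nMhb U ho vl kp mn pc g f z y : ℕ) : ℤ) : ℝ)
        = ((∑ u ∈ vHH U ho vl kp pc g f z y, mn y u : ℤ) : ℝ) := by rw [e1]
    push_cast at h1
    exact h1
  have e3' : (nMcb U ho vl kp mn pc g z y : ℝ)
      = ∑ u ∈ vHC U ho vl pc g z y, (msP kp mn y (g y) u : ℝ) := by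
    have h1 : (((nMcb U ho vl kp mn pc g z y : ℕ) : ℤ) : ℝ)
        = ((∑ u ∈ vHC U ho vl pc g z y, msP kp mn y (g y) u : ℤ) : ℝ) := by rw [e3]
    push_cast at h1
    exact h1
  unfold rnHr
  rw [rnM_split U ho vl kp pc g f z y, sum_union (vH_disj U ho vl kp pc g f z y).1, rnC_filter,
    e1', e3', mul_sum, mul_sum]
  have h1 : ∑ u ∈ vHF U ho vl kp pc g f z y, rLg (R : ℤ) t vl fr fc y u * (mn y u : ℝ) = 0 :=
    sum_eq_zero fun u hu => by rw [(Lv.hf_fact hy hu).2.2.1, Int.cast_zero, mul_zero]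
  rw [h1, zero_add]
  congr 1
  · refine sum_congr rfl fun u hu => ?_
    obtain ⟨-, -, -, h2, -⟩ := mem_filter.1 hu
    unfold rLg fLg
    rw [if_pos h2]
    push_cast
    rfl
  · refine sum_congr rfl fun u hu => ?_
    obtain ⟨-, -, -, h2, -⟩ := mem_filter.1 hu
    unfold rLg fLg
    rw [if_neg h2]
    push_cast
    rfl

/-- the weighted misses of the served units in the letters of `RowV` -/
lemma LevC.rnSg_num (Lv : LevC n U ho vl kp mn pc (fun u i => mn i u) g f)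
    (H : PConC (R : ℤ) n t s mu U ho vl kp mn pc ar be kq NN sg nu) (hz : z < n) (hy : y < n)
    {S : ℕ → Finset ι} (hS : ∀ y, S y = vS1 U ho vl kp pc g f z y) :
    rnSr U ho kp mn pc g (rLg R t vl fr fc) z y
      = fr (t z + 1) / (R : ℝ) * (nKhb mn S z y : ℝ)
        + fc (t z + 1) / (R : ℝ) * (nKcb U ho vl kp mn pc g z y : ℝ) := by
  have hSU : ∀ y, S y ⊆ U := fun y => by
    rw [hS]
    exact (filter_subset _ _).trans (filter_subset _ _)
  obtain ⟨-, -, -, -, e5, -, -, e8, -⟩ := H.nums2 (g := g) (f := f) hz hy hSU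
  have e5' : (nKhb mn S z y : ℝ) = ∑ u ∈ S y, (mn z u : ℝ) := by
    have h1 : (((nKhb mn S z y : ℕ) : ℤ) : ℝ) = ((∑ u ∈ S y, mn z u : ℤ) : ℝ) := by rw [e5]
    push_cast at h1
    exact h1
  have e8' : (nKcb U ho vl kp mn pc g z y : ℝ)
      = ∑ u ∈ vSC U ho vl pc g z y, (msP kp mn z (g z) u : ℝ) := by
    have h1 : (((nKcb U ho vl kp mn pc g z y : ℕ) : ℤ) : ℝ)
        = ((∑ u ∈ vSC U ho vl pc g z y, msP kp mn z (g z) u : ℤ) : ℝ) := by rw [e8]
    push_cast at h1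
    exact h1
  obtain ⟨d1, d2⟩ := vS_disj U ho vl kp pc g f z y
  have d3 : Disjoint (vSF U ho vl kp pc g f z y) (vS1 U ho vl kp pc g f z y) :=
    disjoint_of_subset_right (filter_subset _ _) d1
  have d4 : Disjoint (vSF U ho vl kp pc g f z y ∪ vS1 U ho vl kp pc g f z y)
      (vSC U ho vl pc g z y) :=
    disjoint_of_subset_left (union_subset_union (Subset.refl _) (filter_subset _ _)) d2
  unfold rnSr
  rw [Lv.rnK_types H hz, sum_union d4, sum_union d3, e5', e8', hS, mul_sum, mul_sum]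
  have h1 : ∑ u ∈ vSF U ho vl kp pc g f z y,
      rLg (R : ℤ) t vl fr fc z u * (msP kp mn z (g z) u : ℝ) = 0 :=
    sum_eq_zero fun u hu => by
      obtain ⟨h1, h2, h3, h4, h5, h6⟩ := mem_filter.1 hu
      unfold msP
      rw [(Lv.full_at h1 h4 h6 hz h5).2.1, ite_self, Int.cast_zero, mul_zero]
  rw [h1, zero_add]
  congr 1
  · refine sum_congr rfl fun u hu => ?_
    obtain ⟨h3, h4⟩ := mem_filter.1 hu
    obtain ⟨h5, h6, h7, h8, h9, h10⟩ := mem_filter.1 h3
    unfold msP rLg fLg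
    rw [if_pos h8, if_pos]
    · push_cast
      rfl
    · rw [h4, H.kp_one h5 h8 hz h9]
      norm_num
  · refine sum_congr rfl fun u hu => ?_
    obtain ⟨-, -, -, h2, -⟩ := mem_filter.1 hu
    unfold rLg fLg
    rw [if_neg h2]
    push_cast
    rfl

end AsmV

/-- **`RowVLg` gives the row claim of regime L** -/
theorem rowCLg_of_rowV {R : ℕ} {fr fc : ℤ → ℝ} (hR : 65 ≤ R) (hF : FacOK (R : ℤ) fr fc)
    (hV : RowVLg R fr fc) : RowCLg (R : ℤ) fr fc := by
  intro ι n t s mu U ho vl kp mn pc ar be kq NN sg nu g f L z H hA Lv hz hzL h3 h40 he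
  have hRi : (65 : ℤ) ≤ (R : ℤ) := by exact_mod_cast hR
  have hR0 : (0 : ℤ) < R := R_pos H.toPCon
  have hR0' : (0 : ℝ) < ((R : ℤ) : ℝ) := by exact_mod_cast hR0
  obtain ⟨S, hSd⟩ : ∃ S : ℕ → Finset ι, S = fun y => vS1 U ho vl kp pc g f z y := ⟨_, rfl⟩
  have hS : ∀ y, S y = vS1 U ho vl kp pc g f z y := fun y => by rw [hSd]
  have hSs : ∀ y, S y ⊆ vSH U ho vl kp pc g f z y := fun y => by
    rw [hS]
    exact filter_subset _ _
  have hSz : ∀ y, ∀ u ∈ S y, g z u = 1 := fun y u hu => by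
    rw [hS] at hu
    exact (mem_filter.1 hu).2
  have hrow := Lv.rowV H hz hSs hSz
  obtain ⟨a1, a2, a3, a4, a5⟩ := H.nums hz
  have eA : ((rA t z : ℕ) : ℤ) = t z + 1 := (H.rA_eq hz).1
  have eB : ∀ y < n, ((rA t y : ℕ) : ℤ) = t y + 1 := fun y hy => (H.rA_eq hy).1
  have hu : ∀ y < n, (((nP be kq z y + nX kq z y + nQ be z y
      + ((vHF U ho vl kp pc g f z y).card + (vHH U ho vl kp pc g f z y).card + nMc U ho vl pc g z y)
      + ((vSF U ho vl kp pc g f z y).card + (S y).card + nKc U ho vl pc g z y) : ℕ)) : ℤ)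
      = rnE U ho vl pc be g z y := by
    intro y hy
    obtain ⟨c1, c2, c3, -, c5, -⟩ := Lv.cell_num H hz hy hS
    unfold rnHu at c3
    unfold rnSu at c5
    unfold rnE
    rw [c1, c2, c5]
    push_cast
    linarith [c3]
  have h1 := hV _ _ _ _ _ _ _ _ _ _ _ _ _ _ _ _ _ _ _ _ _ _ _ _ _ _ _ _ hrow
    (by
      have := hA z hz
      rw [← eA] at this
      exact_mod_cast this)
    (fun y hy => by
      have hyn := mem_range.1 (mem_of_mem_erase hy)
      have := hA y hyn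
      rw [← eB y hyn] at this
      exact_mod_cast this)
    (by
      rw [← eA] at h40
      exact_mod_cast h40)
    (by
      have h5 : ((nD s mu z + 1 : ℕ) : ℤ) ≤ ((∑ y ∈ (range n).erase z,
          (nP be kq z y + nX kq z y + nQ be z y
      + ((vHF U ho vl kp pc g f z y).card + (vHH U ho vl kp pc g f z y).card + nMc U ho vl pc g z y)
      + ((vSF U ho vl kp pc g f z y).card + (S y).card + nKc U ho vl pc g z y)) : ℕ) : ℤ) := by
        rw [Nat.cast_sum, sum_congr rfl fun y hy => hu y (mem_range.1 (mem_of_mem_erase hy))]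
        push_cast
        rw [a1]
        exact he
      exact_mod_cast h5)
  have hw : ∀ y < n, (0 : ℝ) ≤ ((t y : ℝ) + 1) / ((t z : ℝ) + 1 + ((t y : ℝ) + 1))
      ∧ ((t y : ℝ) + 1) / ((t z : ℝ) + 1 + ((t y : ℝ) + 1)) ≤ 1 := fun y hy => by
    have h6 : (0 : ℝ) ≤ t z := by exact_mod_cast H.t0 z hz
    have h7 : (0 : ℝ) ≤ t y := by exact_mod_cast H.t0 y hy
    refine ⟨by positivity, ?_⟩
    rw [div_le_one (by positivity)]
    linarith
  have hth : ∀ v ∈ unV n U g, 0 ≤ thLg (R : ℤ) t vl kp mn g fr fc v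
      ∧ thLg (R : ℤ) t vl kp mn g fr fc v ≤ 1 := fun v hv =>
    Lv.thLg_ok H.toPCon hRi hA hF hv
  have e0 : thLg (R : ℤ) t vl kp mn g fr fc
      = fun v : ι × ℕ × ℕ => 1 - rLg (R : ℤ) t vl fr fc v.2.1 v.1 * (unb kp mn g v : ℝ) :=
    funext fun v => thLg_eq v
  -- from the cells outside `L` to the cells `R ≤ 2 B³`
  have h5 : ∑ y ∈ ((range n).erase z).filter (fun y => y ∉ L),
        (((t y : ℝ) + 1) / ((t z : ℝ) + 1 + ((t y : ℝ) + 1)) * (rnE U ho vl pc be g z y : ℝ)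
        + ((1 - ((t y : ℝ) + 1) / ((t z : ℝ) + 1 + ((t y : ℝ) + 1)))
            * rnHl n U ho g (thLg R t vl kp mn g fr fc) z y
          - ((t y : ℝ) + 1) / ((t z : ℝ) + 1 + ((t y : ℝ) + 1))
            * rnSl n U ho g (thLg R t vl kp mn g fr fc) z y))
      ≤ ∑ y ∈ ((range n).erase z).filter (fun y => R ≤ 2 * rA t y ^ 3),
        (((t y : ℝ) + 1) / ((t z : ℝ) + 1 + ((t y : ℝ) + 1)) * (rnE U ho vl pc be g z y : ℝ)
        + ((1 - ((t y : ℝ) + 1) / ((t z : ℝ) + 1 + ((t y : ℝ) + 1)))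
            * rnHl n U ho g (thLg R t vl kp mn g fr fc) z y
          - ((t y : ℝ) + 1) / ((t z : ℝ) + 1 + ((t y : ℝ) + 1))
            * rnSl n U ho g (thLg R t vl kp mn g fr fc) z y)) := by
    refine sum_le_sum_of_subset_of_nonneg (fun y hy => ?_) fun y hy _ => ?_
    · obtain ⟨h6, h7⟩ := mem_filter.1 hy
      have hyn := mem_range.1 (mem_of_mem_erase h6)
      refine mem_filter.2 ⟨h6, ?_⟩
      have h8 := h3 y hyn h7
      rw [← eB y hyn] at h8
      exact_mod_cast h8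
    · have hyn := mem_range.1 (mem_of_mem_erase (mem_filter.1 hy).1)
      exact Lv.cell_nonneg H.toPCon hz hyn hth (hw y hyn).1 (hw y hyn).2
  refine h5.trans ?_
  have e5 : ((nD s mu z : ℕ) : ℝ) = (mu z : ℝ) - s z := by
    have h6 : (((nD s mu z : ℕ) : ℤ) : ℝ) = ((mu z - s z : ℤ) : ℝ) := by rw [a1]
    push_cast at h6
    exact h6
  have e6 : ((rA t z : ℕ) : ℝ) = (t z : ℝ) + 1 := by
    have h6 : (((rA t z : ℕ) : ℤ) : ℝ) = ((t z + 1 : ℤ) : ℝ) := by rw [eA]
    push_cast at h6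
    exact h6
  rw [e5, e6] at h1
  refine le_trans (le_of_eq (sum_congr rfl fun y hy => ?_)) (h1.trans (le_of_eq ?_))
  · have hyn := mem_range.1 (mem_of_mem_erase (mem_filter.1 hy).1)
    have e7 : ((rA t y : ℕ) : ℝ) = (t y : ℝ) + 1 := by
      have h6 : (((rA t y : ℕ) : ℤ) : ℝ) = ((t y + 1 : ℤ) : ℝ) := by rw [eB y hyn]
      push_cast at h6
      exact h6
    have e8 : (((nP be kq z y + nX kq z y + nQ be z y
      + ((vHF U ho vl kp pc g f z y).card + (vHH U ho vl kp pc g f z y).card + nMc U ho vl pc g z y)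
      + ((vSF U ho vl kp pc g f z y).card + (S y).card + nKc U ho vl pc g z y) : ℕ)) : ℝ)
        = (rnE U ho vl pc be g z y : ℝ) := by
      have h6 := congrArg (fun a : ℤ => (a : ℝ)) (hu y hyn)
      beta_reduce at h6
      rw [← h6]
      push_cast
      rfl
    rw [e0, Lv.rnHl_r H.toPCon hyn (rLg (R : ℤ) t vl fr fc) z,
      Lv.rnSl_r H.toPCon hz (rLg (R : ℤ) t vl fr fc) y,
      Lv.rnHg_num H hz hyn, Lv.rnSg_num H hz hyn hS]
    unfold payLg
    rw [e8, e6, e7, ← eB y hyn, ← eA]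
  · push_cast
    ring

/-- **THE ROW CLAIM OF REGIME L IN NATURAL NUMBERS, TABLE L8** -/
def RowVL (R : ℕ) : Prop := RowVLg R (fL8 (R : ℤ)) (fLc (R : ℤ))

/-- **`RowVL` gives the row claim of regime L** -/
theorem rowCL_of_rowV {R : ℕ} (hR : 65 ≤ R) (hV : RowVL R) : RowCL (R : ℤ) :=
  rowCLg_of_rowV hR (facOK_L8 (by exact_mod_cast (by omega : 0 < R))) hV

end Pool.Agent.Lib.MP_f04ccf_co
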