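import Pool.Agent.Lib.MP_f04ccf_co.M.WgtL
import Pool.Agent.Lib.MP_f04ccf_co.M.WgtS
import Pool.Agent.Lib.MP_f04ccf_co.M.AlfM

/-!
MP_f04ccf_co: deletion sets of legal shape in `j`-closed systems (note 15873 (2)).  `JSys.leg`: the
points with home in `B` which are not deleted form a `j`-closed system on `B`, for every `j` and every
choice of homes.  `MQSys.leg_val`: the law for sets of legal shape.
-/

set_option autoImplicit false

namespace Pool.Agent.Lib.MP_f04ccf_co

open Finset

attribute [local instance] Classical.propDecidable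

section Loops

variable {V ι : Type*}

/-- a minimal family of points with one or two rows and more points than rows has one point more
than rows and at most two points with one row only -/
theorem two_loops {J : Finset V} {R : V → Finset ι} (h1 : ∀ v ∈ J, (R v).Nonempty)
    (h2 : ∀ v ∈ J, (R v).card ≤ 2) (hbig : (J.biUnion R).card < J.card)
    (hmin : ∀ v ∈ J, (J.erase v).card ≤ ((J.erase v).biUnion R).card) :
    J.card = (J.biUnion R).card + 1 ∧ (J.filter (fun v => (R v).card = 1)).card ≤ 2 := by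
  obtain ⟨v0, hv0⟩ := card_pos.1 (lt_of_le_of_lt (Nat.zero_le _) hbig)
  have hc : J.card = (J.biUnion R).card + 1 := by
    have h3 := hmin v0 hv0
    have h4 : ((J.erase v0).biUnion R).card ≤ (J.biUnion R).card :=
      card_le_card (biUnion_subset_biUnion_of_subset_left _ (erase_subset _ _))
    rw [card_erase_of_mem hv0] at h3
    omega
  refine ⟨hc, ?_⟩
  have hdeg : ∀ x ∈ J.biUnion R, 2 ≤ (J.filter (fun v => x ∈ R v)).card := by
    intro x hx
    by_contra hcon
    obtain ⟨v, hv, hxv⟩ := mem_biUnion.1 hx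
    have h9 : (J.filter (fun v => x ∈ R v)).card ≤ 1 := by omega
    have hone : ∀ u ∈ J, x ∈ R u → u = v := fun u hu hxu =>
      card_le_one.1 h9 u (mem_filter.2 ⟨hu, hxu⟩) v (mem_filter.2 ⟨hv, hxv⟩)
    have h3 : (J.erase v).biUnion R ⊆ (J.biUnion R).erase x := by
      intro y hy
      obtain ⟨u, hu, hyu⟩ := mem_biUnion.1 hy
      refine mem_erase.2 ⟨?_, mem_biUnion.2 ⟨u, mem_of_mem_erase hu, hyu⟩⟩
      rintro rfl
      exact ne_of_mem_erase hu (hone u (mem_of_mem_erase hu) hyu)
    have h4 := (hmin v hv).trans (card_le_card h3)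
    rw [card_erase_of_mem hv, card_erase_of_mem hx] at h4
    have h5 := card_pos.2 ⟨x, hx⟩
    omega
  have hsum : ∑ v ∈ J, (R v).card = ∑ x ∈ J.biUnion R, (J.filter (fun v => x ∈ R v)).card := by
    have h3 : ∀ v ∈ J, (R v).card = ∑ x ∈ J.biUnion R, (if x ∈ R v then 1 else 0) := by
      intro v hv
      rw [← card_filter]
      congr 1
      ext x
      rw [mem_filter]
      exact ⟨fun h => ⟨mem_biUnion.2 ⟨v, hv, h⟩, h⟩, fun h => h.2⟩
    rw [sum_congr rfl h3, sum_comm]
    exact sum_congr rfl fun x _ => by rw [card_filter]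
  have h3 : 2 * (J.biUnion R).card ≤ ∑ v ∈ J, (R v).card := by
    rw [hsum, mul_comm, ← smul_eq_mul, ← sum_const]
    exact sum_le_sum hdeg
  have h4 : ∑ v ∈ J, (R v).card + (J.filter (fun v => (R v).card = 1)).card ≤ 2 * J.card := by
    rw [card_filter, ← sum_add_distrib, mul_comm, ← smul_eq_mul, ← sum_const]
    refine sum_le_sum fun v hv => ?_
    have := h2 v hv
    split_ifs <;> omega
  omega

end Loops

section LegJ

variable {V : Type*} {G : SimpleGraph V} {Z T : Finset V} {hm : V → V} {r m t j : ℕ}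

/-- independent points have at most as many points as rows -/
lemma PFrame.ind_rwsU (h : PFrame G r m t Z T) {K : Finset V} (hK : K ⊆ Z) (hi : Ind G K) :
    K.card ≤ (rwsU G T K).card :=
  ((h.jsys K.card).ind_card hK hi le_rfl).trans (card_le_card inter_subset_left)

lemma Ind.ins {J : Finset V} (h : Ind G J) {p : V} (hp : ∀ u ∈ J, ¬ G.Adj p u) :
    Ind G (insert p J) := by
  intro a ha b hb hab
  rcases mem_insert.1 ha with h1 | h1
  · rcases mem_insert.1 hb with h2 | h2
    · rw [h1, h2] at hab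
      exact G.loopless.irrefl _ hab
    · rw [h1] at hab
      exact hp b h2 hab
  · rcases mem_insert.1 hb with h2 | h2
    · rw [h2] at hab
      exact hp a h1 hab.symm
    · exact h a h1 b h2 hab

/-- the slots of homes -/
noncomputable def slt (S : Finset V) (hm : V → V) (x : V) : Finset V := S.filter fun v => hm v = x

lemma mem_slt {S : Finset V} {x v : V} : v ∈ slt S hm x ↔ v ∈ S ∧ hm v = x := mem_filter

/-- **the rest of a `j`-closed system after a deletion of legal shape is `j`-closed** -/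
theorem JSys.leg (hF : PFrame G r m t Z T) {A S : Finset V}
    (h : JSys G Z T j A S) (hS : ∀ v ∈ S, hm v ∈ A ∧ hm v ∈ rws G T v) {B : Finset V}
    (hB : B ⊆ A) {X : V → V → Finset V} {w : V → V → V → V}
    (hX : ∀ z ∈ A, ∀ y ∈ A, z ≠ y → ∀ a ∈ X z y, w z y a ∈ S ∧ hm (w z y a) = z ∧
      w z y a ∈ BB G Z T ∧ ends G T (w z y a) = {z, y} ∧ ¬ G.Adj (w z y a) a)
    {c : V → V} (hc : ∀ z ∈ A \ B, c z ∈ S ∧ c z ∈ Cl G Z T z) {D : Finset V}
    (hD : LegD G (CP G Z T (slt S hm)) (HP G Z T (slt S hm)) (tlo G T hm) X w A B c D) :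
    JSys G Z T j B (S.filter fun v => hm v ∈ B ∧ (v ∈ B ∨ v ∉ D)) := by
  have hctr : ∀ z ∈ A, hm z = z := by
    intro z hz
    have h1 := (hS z (h.ctr hz)).2
    rw [rws_of_mem (h.sub hz), mem_singleton] at h1
    exact h1
  refine ⟨hB.trans h.sub, fun z hz => ?_, (filter_subset _ _).trans h.subZ, fun v hv => ?_, ?_⟩
  · refine mem_filter.2 ⟨h.ctr (hB hz), ?_, Or.inl hz⟩
    rw [hctr z (hB hz)]
    exact hz
  · obtain ⟨h1, h2, -⟩ := mem_filter.1 hv
    exact ⟨_, h2, (hS v h1).2⟩
  set S' := S.filter fun v => hm v ∈ B ∧ (v ∈ B ∨ v ∉ D) with hS'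
  by_contra hcon
  push Not at hcon
  obtain ⟨J0, hJ0, hJ0i, hJ0c, hJ0b⟩ := hcon
  -- a minimal bad set
  obtain ⟨J, hJmem, hJmin⟩ := exists_min_image (S'.powerset.filter fun J => Ind G J ∧
    (J ∩ BB G Z T).card ≤ j ∧ (rwsU G T J ∩ B).card < J.card) (fun J => J.card)
    ⟨J0, mem_filter.2 ⟨mem_powerset.2 hJ0, hJ0i, hJ0c, hJ0b⟩⟩
  obtain ⟨hJp, hJi, hJc, hJb⟩ := mem_filter.1 hJmem
  have hJS' := mem_powerset.1 hJp
  have hJS : J ⊆ S := fun v hv => (mem_filter.1 (hJS' hv)).1
  have hJB : ∀ v ∈ J, hm v ∈ B := fun v hv => (mem_filter.1 (hJS' hv)).2.1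
  have hJD : ∀ v ∈ J, v ∈ B ∨ v ∉ D := fun v hv => (mem_filter.1 (hJS' hv)).2.2
  -- rows
  have hcase : ∀ v ∈ J, rws G T v = {hm v} ∨ (v ∈ BB G Z T ∧ ∃ y ∈ T.erase (hm v),
      ends G T v = {hm v, y} ∧ rws G T v = {hm v, y}) := fun v hv =>
    hF.rws_cases (h.subZ (hJS hv)) (hS v (hJS hv)).2
  have hU : J.biUnion (fun v => rws G T v ∩ B) = rwsU G T J ∩ B := by
    ext x
    simp only [mem_biUnion, mem_inter, mem_rwsU]
    constructor
    · rintro ⟨v, hv, h1, h2⟩
      exact ⟨⟨v, hv, h1⟩, h2⟩
    · rintro ⟨⟨v, hv, h1⟩, h2⟩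
      exact ⟨v, hv, h1, h2⟩
  obtain ⟨hcard, hloops⟩ := two_loops (J := J) (R := fun v => rws G T v ∩ B)
    (fun v hv => ⟨hm v, mem_inter.2 ⟨(hS v (hJS hv)).2, hJB v hv⟩⟩)
    (fun v hv => by
      refine (card_le_card inter_subset_left).trans ?_
      rcases hcase v hv with h1 | ⟨-, y, -, -, h1⟩
      · rw [h1, card_singleton]
        omega
      · rw [h1]
        exact card_le_two)
    (by rw [hU]; exact hJb)
    (fun v hv => by
      by_contra hlt
      have h1 := hJmin (J.erase v) (mem_filter.2 ⟨mem_powerset.2 ((erase_subset _ _).trans hJS'),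
        fun a ha b hb => hJi a (mem_of_mem_erase ha) b (mem_of_mem_erase hb),
        (card_le_card (inter_subset_inter (erase_subset _ _) (Subset.refl _))).trans hJc, by
          have h2 : (J.erase v).biUnion (fun v => rws G T v ∩ B) = rwsU G T (J.erase v) ∩ B := by
            ext x
            simp only [mem_biUnion, mem_inter, mem_rwsU]
            constructor
            · rintro ⟨u, hu, h1, h2⟩
              exact ⟨⟨u, hu, h1⟩, h2⟩
            · rintro ⟨⟨u, hu, h1⟩, h2⟩
              exact ⟨u, hu, h1, h2⟩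
          rw [h2] at hlt
          exact not_le.1 hlt⟩)
      rw [card_erase_of_mem hv] at h1
      have := card_pos.2 ⟨v, hv⟩
      omega)
  rw [hU] at hcard
  set U := rwsU G T J ∩ B with hUdef
  have hUB : U ⊆ B := inter_subset_right
  -- doubles of `J`
  have hdbl : ∀ v ∈ J, ∀ y, y ∈ rws G T v → y ≠ hm v → v ∈ BB G Z T ∧ v ∉ D ∧
      v ∈ HP G Z T (slt S hm) (hm v) ∧ tlo G T hm v = y ∧ rws G T v = {hm v, y} := by
    intro v hv y hy hne
    rcases hcase v hv with h1 | ⟨hvB, y', hy', he, h1⟩
    · rw [h1, mem_singleton] at hy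
      exact absurd hy hne
    · have hyy : y' = y := by
        rw [h1, mem_insert, mem_singleton] at hy
        rcases hy with h2 | h2
        · exact absurd h2 hne
        · exact h2.symm
      subst hyy
      refine ⟨hvB, ?_, mem_HP.2 ⟨mem_slt.2 ⟨hJS hv, rfl⟩, fun h' =>
        Cl_notMem_BB (h.sub (hS v (hJS hv)).1) h' hvB⟩, tlo_eq he rfl (ne_of_mem_erase hy').symm, h1⟩
      rcases hJD v hv with h2 | h2
      · exact absurd (h.sub (hB h2)) (mem_BB.1 hvB).1.2
      · exact h2
  -- a double of `J` is not seen by the transversal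
  have hnsD : ∀ v ∈ J, ∀ z ∈ A \ B, v ∈ BB G Z T → ¬ G.Adj (c z) v := by
    intro v hv z hz hvB hcv
    rcases hcase v hv with h1 | ⟨-, y, hy, he, h1⟩
    · have h2 := (mem_BB.1 hvB).2
      rw [← card_ends, ← rws_BB hvB, h1, card_singleton] at h2
      omega
    · obtain ⟨-, h3, h4, -⟩ := hdbl v hv y (by rw [h1]; simp) (ne_of_mem_erase hy)
      exact h3 (hD.seen z hz _ (hJB v hv) v h4 hcv)
  -- a loop with the far row outside `B`
  have hloop : ∀ v ∈ J, ∀ z, z ∈ rws G T v → z ∉ B → v ∈ J.filter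
      (fun v => (rws G T v ∩ B).card = 1) := by
    intro v hv z hz hzB
    have hne : z ≠ hm v := fun h' => hzB (h' ▸ hJB v hv)
    obtain ⟨-, -, -, -, h1⟩ := hdbl v hv z hz hne
    refine mem_filter.2 ⟨hv, ?_⟩
    have h2 : rws G T v ∩ B = {hm v} := by
      rw [h1]
      ext x
      simp only [mem_inter, mem_insert, mem_singleton]
      constructor
      · rintro ⟨h3 | h3, h4⟩
        · exact h3
        · exact absurd (h3 ▸ h4) hzB
      · rintro rfl
        exact ⟨Or.inl rfl, hJB v hv⟩
    rw [h2, card_singleton]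
  have hcl : ∀ z ∈ A \ B, hm (c z) = z := by
    intro z hz
    have h1 := (hS _ (hc z hz).1).2
    rw [rws_Cl (h.sub (mem_sdiff.1 hz).1) (hc z hz).2, mem_singleton] at h1
    exact h1
  have hcr : ∀ z ∈ A \ B, rws G T (c z) = {z} := fun z hz =>
    rws_Cl (h.sub (mem_sdiff.1 hz).1) (hc z hz).2
  have hcJ : ∀ z ∈ A \ B, c z ∉ J := fun z hz h' =>
    (mem_sdiff.1 hz).2 (by rw [← hcl z hz]; exact hJB _ h')
  -- the partner
  have hwp : ∀ z ∈ A \ B, ∀ y ∈ A, z ≠ y → c z ∈ X z y →
      w z y (c z) ∈ Z ∧ w z y (c z) ∉ J ∧ w z y (c z) ≠ c z ∧ rws G T (w z y (c z)) = {z, y} ∧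
        ¬ G.Adj (w z y (c z)) (c z) := by
    intro z hz y hy hzy hcX
    obtain ⟨h1, h2, h3, h4, h5⟩ := hX z (mem_sdiff.1 hz).1 y hy hzy _ hcX
    refine ⟨h.subZ h1, fun h' => (mem_sdiff.1 hz).2 (by rw [← h2]; exact hJB _ h'), ?_,
      by rw [rws_BB h3, h4], h5⟩
    intro h'
    exact Cl_notMem_BB (h.sub (mem_sdiff.1 hz).1) (hc z hz).2 (h' ▸ h3)
  -- the far rows outside `B`
  obtain ⟨z, hzA, hzB, hzJ⟩ : ∃ z ∈ A, z ∉ B ∧ z ∈ rwsU G T J := by
    by_contra hno
    push Not at hno
    have h1 := h.ind J hJS hJi hJc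
    have h2 : rwsU G T J ∩ A ⊆ U := by
      intro x hx
      obtain ⟨h3, h4⟩ := mem_inter.1 hx
      refine mem_inter.2 ⟨h3, ?_⟩
      by_contra h5
      exact hno x h4 h5 h3
    have h3 := h1.trans (card_le_card h2)
    omega
  have hzQ : z ∈ A \ B := mem_sdiff.2 ⟨hzA, hzB⟩
  obtain ⟨v, hvJ, hzv⟩ := mem_rwsU.1 hzJ
  have hzne : z ≠ hm v := fun h' => hzB (h' ▸ hJB v hvJ)
  obtain ⟨hvBB, hvD, hvH, hvt, hvr⟩ := hdbl v hvJ z hzv hzne
  have hvL := hloop v hvJ z hzv hzB
  by_cases hone : ∀ z' ∈ A, z' ∉ B → z' ∈ rwsU G T J → z' = z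
  · -- one far row
    by_cases hunseen : ∀ b ∈ J, ¬ G.Adj (c z) b
    · have h1 := h.ind (insert (c z) J) (insert_subset (hc z hzQ).1 hJS) (hJi.ins hunseen) (by
        refine le_trans (card_le_card ?_) hJc
        intro a ha
        obtain ⟨h2, h3⟩ := mem_inter.1 ha
        rcases mem_insert.1 h2 with rfl | h2
        · exact absurd h3 (Cl_notMem_BB (h.sub hzA) (hc z hzQ).2)
        · exact mem_inter.2 ⟨h2, h3⟩)
      have h2 : rwsU G T (insert (c z) J) ∩ A ⊆ insert z U := by
        intro x hx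
        obtain ⟨h3, h4⟩ := mem_inter.1 hx
        obtain ⟨a, ha, hxa⟩ := mem_rwsU.1 h3
        rcases mem_insert.1 ha with rfl | ha
        · rw [hcr z hzQ, mem_singleton] at hxa
          rw [hxa]
          exact mem_insert_self _ _
        · have h5 : x ∈ rwsU G T J := mem_rwsU.2 ⟨a, ha, hxa⟩
          by_cases hxB : x ∈ B
          · exact mem_insert_of_mem (mem_inter.2 ⟨h5, hxB⟩)
          · rw [hone x h4 hxB h5]
            exact mem_insert_self _ _
      have h3 := (h1.trans (card_le_card h2)).trans (card_insert_le _ _)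
      rw [card_insert_of_notMem (hcJ z hzQ)] at h3
      omega
    · push Not at hunseen
      obtain ⟨b, hbJ, hcb⟩ := hunseen
      have hbN : b ∉ BB G Z T := fun h' => hnsD b hbJ z hzQ h' hcb
      have hbr : rws G T b = {hm b} := by
        rcases hcase b hbJ with h1 | ⟨h1, -⟩
        · exact h1
        · exact absurd h1 hbN
      set y := hm b with hy
      have hyB : y ∈ B := hJB b hbJ
      have hyA := hB hyB
      have hzy : z ≠ y := fun h' => hzB (h' ▸ hyB)
      have hbC : b ∈ Cl G Z T y := (mem_Cl_iff_rws (h.sub hyA)).2 ⟨h.subZ (hJS hbJ), hbr⟩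
      have hbD : b ∉ D := by
        rcases hJD b hbJ with h1 | h1
        · exfalso
          exact hF.Cl_not_adj (h.sub hzA) (h.sub (hB h1)) (fun h' => hzB (h' ▸ h1)) (hc z hzQ).2 hcb
        · exact h1
      have hcX : c z ∈ X z y := by
        by_contra hcX
        exact hbD (hD.cls z hzQ y hyB hcX b (mem_CP.2 ⟨mem_slt.2 ⟨hJS hbJ, rfl⟩, hbC⟩) hcb)
      obtain ⟨w1, w2, w3, w4, w5⟩ := hwp z hzQ y hyA hzy hcX
      -- all other points are inner doubles
      have hbL : b ∈ J.filter (fun v => (rws G T v ∩ B).card = 1) := by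
        refine mem_filter.2 ⟨hbJ, ?_⟩
        have h1 : rws G T b ∩ B = {y} := by
          rw [hbr]
          exact inter_eq_left.2 (singleton_subset_iff.2 hyB)
        rw [h1, card_singleton]
      have hbv : b ≠ v := by
        rintro rfl
        exact hbN hvBB
      have hrest : ∀ u ∈ J.erase b, u ∈ BB G Z T ∧ rws G T u ⊆ insert z U ∧
          tlo G T hm u ∈ insert z B ∧ u ∈ HP G Z T (slt S hm) (hm u) ∧ u ∉ D := by
        intro u hu
        have huJ := mem_of_mem_erase hu
        by_cases huv : u = v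
        · subst huv
          refine ⟨hvBB, ?_, by rw [hvt]; exact mem_insert_self _ _, hvH, hvD⟩
          rw [hvr]
          intro x hx
          rcases mem_insert.1 hx with rfl | hx
          · exact mem_insert_of_mem (mem_inter.2 ⟨mem_rwsU.2 ⟨u, huJ, (hS u (hJS huJ)).2⟩,
              hJB u huJ⟩)
          · rw [mem_singleton.1 hx]
            exact mem_insert_self _ _
        · -- not a loop
          have hnl : (rws G T u ∩ B).card ≠ 1 := by
            intro h1
            have h2 : ({b, v, u} : Finset V) ⊆ J.filter (fun v => (rws G T v ∩ B).card = 1) := by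
              intro a ha
              simp only [mem_insert, mem_singleton] at ha
              rcases ha with rfl | rfl | rfl
              · exact hbL
              · exact hvL
              · exact mem_filter.2 ⟨huJ, h1⟩
            have h3 := (card_le_card h2).trans hloops
            rw [card_triple hbv (ne_of_mem_erase hu).symm (fun h' => huv h'.symm)] at h3
            omega
          rcases hcase u huJ with h1 | ⟨h1, x, hx, he, h2⟩
          · exfalso
            apply hnl
            rw [h1, inter_eq_left.2 (singleton_subset_iff.2 (hJB u huJ)), card_singleton]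
          · have hxB : x ∈ B := by
              by_contra hxB
              apply hnl
              have h3 := (mem_filter.1 (hloop u huJ x (by rw [h2]; simp) hxB)).2
              exact h3
            obtain ⟨-, h4, h5, h6, -⟩ := hdbl u huJ x (by rw [h2]; simp) (ne_of_mem_erase hx)
            refine ⟨h1, ?_, by rw [h6]; exact mem_insert_of_mem hxB, h5, h4⟩
            rw [h2]
            intro a ha
            refine mem_insert_of_mem (mem_inter.2 ⟨mem_rwsU.2 ⟨u, huJ, by rw [h2]; exact ha⟩, ?_⟩)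
            rcases mem_insert.1 ha with rfl | ha
            · exact hJB u huJ
            · rw [mem_singleton.1 ha]
              exact hxB
      have hwn : ∀ u ∈ J.erase b, ¬ G.Adj (w z y (c z)) u := fun u hu hwu =>
        (hrest u hu).2.2.2.2 (hD.prt z hzQ y hyB hcX _ (hJB u (mem_of_mem_erase hu)) u
          (mem_Hin.2 ⟨(hrest u hu).2.2.2.1, (hrest u hu).2.2.1⟩) hwu)
      have hcn : ∀ u ∈ J.erase b, ¬ G.Adj (c z) u := fun u hu =>
        hnsD u (mem_of_mem_erase hu) z hzQ (hrest u hu).1
      have hK : Ind G (insert (w z y (c z)) (insert (c z) (J.erase b))) := by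
        refine Ind.ins (Ind.ins (fun a ha a' ha' => hJi a (mem_of_mem_erase ha) a'
          (mem_of_mem_erase ha')) hcn) fun u hu => ?_
        rcases mem_insert.1 hu with h1 | h1
        · rw [h1]
          exact w5
        · exact hwn u h1
      have hKZ : insert (w z y (c z)) (insert (c z) (J.erase b)) ⊆ Z := insert_subset w1
        (insert_subset (h.subZ (hc z hzQ).1) (((erase_subset _ _).trans hJS).trans h.subZ))
      have h1 := hF.ind_rwsU hKZ hK
      have h2 : rwsU G T (insert (w z y (c z)) (insert (c z) (J.erase b))) ⊆ insert z U := by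
        intro x hx
        obtain ⟨a, ha, hxa⟩ := mem_rwsU.1 hx
        rcases mem_insert.1 ha with rfl | ha
        · rw [w4] at hxa
          rcases mem_insert.1 hxa with rfl | hxa
          · exact mem_insert_self _ _
          · rw [mem_singleton.1 hxa]
            exact mem_insert_of_mem (mem_inter.2 ⟨mem_rwsU.2 ⟨b, hbJ, by rw [hbr]; simp⟩, hyB⟩)
        · rcases mem_insert.1 ha with rfl | ha
          · rw [hcr z hzQ, mem_singleton] at hxa
            rw [hxa]
            exact mem_insert_self _ _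
          · exact (hrest a ha).2.1 hxa
      have h3 := (h1.trans (card_le_card h2)).trans (card_insert_le _ _)
      rw [card_insert_of_notMem (by
          rw [mem_insert, not_or]
          exact ⟨w3, fun h' => w2 (mem_of_mem_erase h')⟩),
        card_insert_of_notMem (fun h' => hcJ z hzQ (mem_of_mem_erase h')),
        card_erase_of_mem hbJ] at h3
      have := card_pos.2 ⟨b, hbJ⟩
      omega
  · -- two far rows
    push Not at hone
    obtain ⟨z', hz'A, hz'B, hz'J, hzz⟩ := hone
    have hz'Q : z' ∈ A \ B := mem_sdiff.2 ⟨hz'A, hz'B⟩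
    obtain ⟨v', hv'J, hzv'⟩ := mem_rwsU.1 hz'J
    have hz'ne : z' ≠ hm v' := fun h' => hz'B (h' ▸ hJB v' hv'J)
    obtain ⟨hvBB', hvD', hvH', hvt', hvr'⟩ := hdbl v' hv'J z' hzv' hz'ne
    have hvL' := hloop v' hv'J z' hzv' hz'B
    have hvv : v ≠ v' := by
      rintro rfl
      rw [hvr, mem_insert, mem_singleton] at hzv'
      rcases hzv' with h1 | h1
      · exact hz'ne h1
      · exact hzz h1
    -- all points are inner doubles
    have hrest : ∀ u ∈ J, u ∈ BB G Z T ∧ rws G T u ⊆ insert z' (insert z U) ∧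
        tlo G T hm u ∈ insert z' (insert z B) ∧ u ∈ HP G Z T (slt S hm) (hm u) ∧ u ∉ D := by
      intro u huJ
      have hmU : hm u ∈ insert z' (insert z U) := mem_insert_of_mem (mem_insert_of_mem
        (mem_inter.2 ⟨mem_rwsU.2 ⟨u, huJ, (hS u (hJS huJ)).2⟩, hJB u huJ⟩))
      by_cases huv : u = v
      · subst huv
        refine ⟨hvBB, ?_, by rw [hvt]; exact mem_insert_of_mem (mem_insert_self _ _), hvH, hvD⟩
        rw [hvr]
        intro x hx
        rcases mem_insert.1 hx with rfl | hx
        · exact hmU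
        · rw [mem_singleton.1 hx]
          exact mem_insert_of_mem (mem_insert_self _ _)
      by_cases huv' : u = v'
      · subst huv'
        refine ⟨hvBB', ?_, by rw [hvt']; exact mem_insert_self _ _, hvH', hvD'⟩
        rw [hvr']
        intro x hx
        rcases mem_insert.1 hx with rfl | hx
        · exact hmU
        · rw [mem_singleton.1 hx]
          exact mem_insert_self _ _
      have hnl : (rws G T u ∩ B).card ≠ 1 := by
        intro h1
        have h2 : ({v, v', u} : Finset V) ⊆ J.filter (fun v => (rws G T v ∩ B).card = 1) := by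
          intro a ha
          simp only [mem_insert, mem_singleton] at ha
          rcases ha with rfl | rfl | rfl
          · exact hvL
          · exact hvL'
          · exact mem_filter.2 ⟨huJ, h1⟩
        have h3 := (card_le_card h2).trans hloops
        rw [card_triple hvv (fun h' => huv h'.symm) (fun h' => huv' h'.symm)] at h3
        omega
      rcases hcase u huJ with h1 | ⟨h1, x, hx, he, h2⟩
      · exfalso
        apply hnl
        rw [h1, inter_eq_left.2 (singleton_subset_iff.2 (hJB u huJ)), card_singleton]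
      · have hxB : x ∈ B := by
          by_contra hxB
          apply hnl
          exact (mem_filter.1 (hloop u huJ x (by rw [h2]; simp) hxB)).2
        obtain ⟨-, h4, h5, h6, -⟩ := hdbl u huJ x (by rw [h2]; simp) (ne_of_mem_erase hx)
        refine ⟨h1, ?_, by rw [h6]; exact mem_insert_of_mem (mem_insert_of_mem hxB), h5, h4⟩
        rw [h2]
        intro a ha
        refine mem_insert_of_mem (mem_insert_of_mem
          (mem_inter.2 ⟨mem_rwsU.2 ⟨u, huJ, by rw [h2]; exact ha⟩, ?_⟩))
        rcases mem_insert.1 ha with rfl | ha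
        · exact hJB u huJ
        · rw [mem_singleton.1 ha]
          exact hxB
    have hcn : ∀ u ∈ J, ∀ y ∈ A \ B, ¬ G.Adj (c y) u := fun u hu y hy =>
      hnsD u hu y hy (hrest u hu).1
    -- two more points on two more rows
    have key : ∀ p q : V, p ∈ Z → q ∈ Z → p ∉ J → q ∉ J → p ≠ q → ¬ G.Adj p q →
        (∀ u ∈ J, ¬ G.Adj p u) → (∀ u ∈ J, ¬ G.Adj q u) → rws G T p ⊆ {z, z'} →
        rws G T q ⊆ {z, z'} → False := by
      intro p q hpZ hqZ hpJ hqJ hpq hnpq hp hq hpr hqr
      have hK : Ind G (insert p (insert q J)) := by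
        refine Ind.ins (Ind.ins hJi hq) fun u hu => ?_
        rcases mem_insert.1 hu with h1 | h1
        · rw [h1]
          exact hnpq
        · exact hp u h1
      have h1 := hF.ind_rwsU (insert_subset hpZ (insert_subset hqZ (hJS.trans h.subZ))) hK
      have hsub : ∀ x, x ∈ ({z, z'} : Finset V) → x ∈ insert z' (insert z U) := by
        intro x hx
        rcases mem_insert.1 hx with rfl | hx
        · exact mem_insert_of_mem (mem_insert_self _ _)
        · rw [mem_singleton.1 hx]
          exact mem_insert_self _ _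
      have h2 : rwsU G T (insert p (insert q J)) ⊆ insert z' (insert z U) := by
        intro x hx
        obtain ⟨a, ha, hxa⟩ := mem_rwsU.1 hx
        rcases mem_insert.1 ha with rfl | ha
        · exact hsub x (hpr hxa)
        · rcases mem_insert.1 ha with rfl | ha
          · exact hsub x (hqr hxa)
          · exact (hrest a ha).2.1 hxa
      have h3 := h1.trans (card_le_card h2)
      have h4 : (insert z' (insert z U)).card ≤ U.card + 2 :=
        (card_insert_le _ _).trans (Nat.succ_le_succ (card_insert_le _ _))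
      rw [card_insert_of_notMem (by
        rw [mem_insert, not_or]
        exact ⟨hpq, hpJ⟩), card_insert_of_notMem hqJ] at h3
      omega
    have hprt : ∀ y ∈ A \ B, ∀ y' ∈ A \ B, y ≠ y' → ({y, y'} : Finset V) ⊆ {z, z'} →
        c y ∈ X y y' → ∀ B' : Finset V, insert z' (insert z B) ⊆ B' →
        (∀ x ∈ B, ∀ v ∈ Hin (HP G Z T (slt S hm)) (tlo G T hm) B' x,
          G.Adj (w y y' (c y)) v → v ∈ D) → False := by
      intro y hy y' hy' hyy hsub hcX B' hB' hdel
      obtain ⟨w1, w2, w3, w4, w5⟩ := hwp y hy y' (mem_sdiff.1 hy').1 hyy hcX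
      refine key (w y y' (c y)) (c y) w1 (h.subZ (hc y hy).1) w2 (hcJ y hy) w3 w5
        (fun u hu hwu => (hrest u hu).2.2.2.2 (hdel _ (hJB u hu) u
          (mem_Hin.2 ⟨(hrest u hu).2.2.2.1, hB' (hrest u hu).2.2.1⟩) hwu))
        (fun u hu => hcn u hu y hy) (by rw [w4]; exact hsub) ?_
      rw [hcr y hy]
      exact (singleton_subset_iff.2 (mem_insert_self _ _)).trans hsub
    by_cases hadj : G.Adj (c z) (c z')
    · rcases hD.two z hzQ z' hz'Q (fun h' => hzz h'.symm) hadj with ⟨c1, h1⟩ | ⟨c1, h1⟩ | h1 | h1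
      · exact hprt z hzQ z' hz'Q (fun h' => hzz h'.symm) (Subset.refl _) c1 _
          (by rw [insert_comm]) h1
      · exact hprt z' hz'Q z hzQ hzz (by rw [pair_comm]) c1 _ (by rw [insert_comm]) h1
      · exact hvD (h1 _ (hJB v hvJ) v hvH hvt)
      · exact hvD' (h1 _ (hJB v' hv'J) v' hvH' hvt')
    · refine key (c z) (c z') (h.subZ (hc z hzQ).1) (h.subZ (hc z' hz'Q).1) (hcJ z hzQ)
        (hcJ z' hz'Q) ?_ hadj (fun u hu => hcn u hu z hzQ) (fun u hu => hcn u hu z' hz'Q) ?_ ?_
      · intro h'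
        have h1 := hcl z hzQ
        rw [h', hcl z' hz'Q] at h1
        exact hzz h1
      · rw [hcr z hzQ]
        exact singleton_subset_iff.2 (mem_insert_self _ _)
      · rw [hcr z' hz'Q]
        exact singleton_subset_iff.2 (mem_insert_of_mem (mem_singleton_self _))

/-- the size of the slots of the rows `B` -/
lemma sum_slots_B {S B : Finset V} :
    ∑ x ∈ B, (S.filter fun v => hm v = x).card = (S.filter fun v => hm v ∈ B).card := by
  rw [card_eq_sum_card_fiberwise (f := hm) (s := S.filter fun v => hm v ∈ B) (t := B)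
    fun v hv => (mem_filter.1 (mem_coe.1 hv)).2]
  refine sum_congr rfl fun x hx => ?_
  congr 1
  ext v
  simp only [mem_filter]
  constructor
  · rintro ⟨h1, h2⟩
    exact ⟨⟨h1, by rw [h2]; exact hx⟩, h2⟩
  · rintro ⟨⟨h1, -⟩, h2⟩
    exact ⟨h1, h2⟩

/-- the value of the rows `B` from a bound for the rest -/
lemma leg_num {S B D : Finset V}
    (h : (S.filter fun v => hm v ∈ B ∧ (v ∈ B ∨ v ∉ D)).card ≤ B.card * r) :
    ∑ x ∈ B, (((S.filter fun v => hm v = x).card : ℚ) - r) ≤ D.card := by
  have h1 : (S.filter fun v => hm v ∈ B) ⊆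
      (S.filter fun v => hm v ∈ B ∧ (v ∈ B ∨ v ∉ D)) ∪ D := by
    intro v hv
    obtain ⟨h2, h3⟩ := mem_filter.1 hv
    by_cases h4 : v ∈ D
    · exact mem_union_right _ h4
    · exact mem_union_left _ (mem_filter.2 ⟨h2, h3, Or.inr h4⟩)
  have h2 := ((card_le_card h1).trans (card_union_le _ _)).trans (Nat.add_le_add_right h _)
  rw [← sum_slots_B] at h2
  have h4 : ((∑ x ∈ B, (S.filter fun v => hm v = x).card : ℕ) : ℚ)
      ≤ ((B.card * r + D.card : ℕ) : ℚ) := by
    exact_mod_cast h2
  rw [sum_sub_distrib, sum_const, nsmul_eq_mul]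
  push_cast at h4
  linarith

/-- the partners in the frame -/
lemma CSys.part_frame (hh : Homes G Z T hm) {A S : Finset V}
    (h : CSys G Z T hm A (fun x => S.filter fun v => hm v = x)) {X L : V → V → Finset V}
    {w : V → V → V → V}
    (hK : KDs (co G) A (CP G Z T (fun x => S.filter fun v => hm v = x))
      (HP G Z T (fun x => S.filter fun v => hm v = x)) (tlo G T hm) X L w) :
    ∀ z ∈ A, ∀ y ∈ A, z ≠ y → ∀ a ∈ X z y, w z y a ∈ S ∧ hm (w z y a) = z ∧
      w z y a ∈ BB G Z T ∧ ends G T (w z y a) = {z, y} ∧ ¬ G.Adj (w z y a) a := by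
  intro z hz y hy hzy a ha
  obtain ⟨h1, h2, h3, h4⟩ := hK.part hz hy hzy ha
  have h5 := mem_filter.1 (mem_HP.1 h1).1
  exact ⟨h5.1, h5.2, (mem_Ph.1 (h.HP_Ph hz h1)).1, (h.ends_of_tlo hh hz h1 h2).2,
    (co_adj.1 h3).2⟩

/-- **the law of a minimal `j`-closed system for deletion sets of legal shape** -/
theorem MQSys.leg_val (hF : PFrame G r m t Z T) (hh : Homes G Z T hm) (hj : 2 ≤ j)
    {A S : Finset V} (h : MQSys r (JSys G Z T j) A S) (hS : ∀ v ∈ S, hm v ∈ A ∧ hm v ∈ rws G T v)
    {X L : V → V → Finset V} {w : V → V → V → V}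
    (hK : KDs (co G) A (CP G Z T (fun x => S.filter fun v => hm v = x))
      (HP G Z T (fun x => S.filter fun v => hm v = x)) (tlo G T hm) X L w)
    {B : Finset V} (hB : B ⊂ A) {c : V → V}
    (hc : ∀ z ∈ A \ B, c z ∈ CP G Z T (fun x => S.filter fun v => hm v = x) z) {D : Finset V}
    (hD : LegD G (CP G Z T (fun x => S.filter fun v => hm v = x))
      (HP G Z T (fun x => S.filter fun v => hm v = x)) (tlo G T hm) X w A B c D) :
    ∑ x ∈ B, (((S.filter fun v => hm v = x).card : ℚ) - r) ≤ D.card := by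
  have h1 := (h.q.hsys hF hj).csys hF hS
  exact leg_num (h.min B _ (h.q.leg hF hS hB.1 (h1.part_frame hh hK)
    (fun z hz => ⟨(mem_filter.1 (mem_CP.1 (hc z hz)).1).1, (mem_CP.1 (hc z hz)).2⟩) hD)
    (card_lt_card hB))

/-- the same for minimal home-free systems -/
theorem MHSys.leg_val (hF : PFrame G r m t Z T) (hh : Homes G Z T hm)
    {A S : Finset V} (h : MHSys G Z T r A S) (hS : ∀ v ∈ S, hm v ∈ A ∧ hm v ∈ rws G T v)
    {X L : V → V → Finset V} {w : V → V → V → V}
    (hK : KDs (co G) A (CP G Z T (fun x => S.filter fun v => hm v = x))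
      (HP G Z T (fun x => S.filter fun v => hm v = x)) (tlo G T hm) X L w)
    {B : Finset V} (hB : B ⊂ A) {c : V → V}
    (hc : ∀ z ∈ A \ B, c z ∈ CP G Z T (fun x => S.filter fun v => hm v = x) z) {D : Finset V}
    (hD : LegD G (CP G Z T (fun x => S.filter fun v => hm v = x))
      (HP G Z T (fun x => S.filter fun v => hm v = x)) (tlo G T hm) X w A B c D) :
    ∑ x ∈ B, (((S.filter fun v => hm v = x).card : ℚ) - r) ≤ D.card := by
  have h1 := h.toHSys.csys hF hS
  refine leg_num (h.min B _ (((h.toHSys.jsys hF).leg hF hS hB.1 (h1.part_frame hh hK)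
    (fun z hz => ⟨(mem_filter.1 (mem_CP.1 (hc z hz)).1).1, (mem_CP.1 (hc z hz)).2⟩) hD).hsys hF
    le_rfl) (card_lt_card hB))

/-- the same for minimal closed systems with fixed homes -/
theorem MSys.leg_val (hF : PFrame G r m t Z T) (hh : Homes G Z T hm) {A : Finset V}
    {S : V → Finset V} (h : MSys G Z T hm r A S) (hctr : ∀ y ∈ A, y ∈ S y)
    {X L : V → V → Finset V} {w : V → V → V → V}
    (hK : KDs (co G) A (CP G Z T S) (HP G Z T S) (tlo G T hm) X L w)
    {B : Finset V} (hB : B ⊂ A) {c : V → V} (hc : ∀ z ∈ A \ B, c z ∈ CP G Z T S z) {D : Finset V}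
    (hD : LegD G (CP G Z T S) (HP G Z T S) (tlo G T hm) X w A B c D) :
    ∑ x ∈ B, (((S x).card : ℚ) - r) ≤ D.card :=
  h.clo_val hh hB (hD.clo (h.toCSys.wsys hF hh hctr) hK hB.1 hc)

end LegJ

end Pool.Agent.Lib.MP_f04ccf_co
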