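import Pool.Agent.Lib.MP_f04ccf_co.M.WgtC

/-!
MP_f04ccf_co: the combined load statement (*_L), one host with arbitrary column covers.  `UDs`: column
covers `KP`, `LP` of every arc with at most `|Us|` points, `Us x z c` adjacent class points of the row
`x`.  `KZ`, `LZ`, `LJ`: the split cover of the host `x` given by a transversal; `WSys.single_cov`,
`WSys.single'`; `job_avg'`: the average.
-/

set_option autoImplicit false

namespace Pool.Agent.Lib.MP_f04ccf_co

open Finset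

attribute [local instance] Classical.propDecidable

section DefD

variable {ι V : Type*}

/-- the member side of the Koenig cover of the arc `x`, `z` -/
noncomputable def KX (X L : ι → ι → Finset V) (w : ι → ι → V → V) (x z : ι) : Finset V :=
  (X x z \ L x z).image (w x z)

/-- the neighbours of the partner of `a` in the home `x` with tail `s` or `t`, outside the Koenig
covers -/
noncomputable def NF (G : SimpleGraph V) (H : ι → Finset V) (tl : V → ι) (X L : ι → ι → Finset V)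
    (w : ι → ι → V → V) (x s t : ι) (a : V) : Finset V :=
  (H x).filter (fun q => G.Adj (w s t a) q ∧
    ((tl q = s ∧ q ∉ KX X L w x s) ∨ (tl q = t ∧ q ∉ KX X L w x t)))

/-- column covers of all arcs -/
structure UDs (G F : SimpleGraph V) (A : Finset ι) (C H : ι → Finset V) (tl : V → ι)
    (X L : ι → ι → Finset V) (w : ι → ι → V → V) (KP LP Us : ι → ι → V → Finset V) : Prop where
  cov : ∀ x ∈ A, ∀ z ∈ A, x ≠ z → ∀ c ∈ C z, ∀ v ∈ arc H tl x z, ¬ G.Adj c v →
    ∀ a ∈ C x, F.Adj v a → v ∈ KP x z c ∨ a ∈ LP x z c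
  free : ∀ x ∈ A, ∀ z ∈ A, x ≠ z → ∀ c ∈ C z, ∀ v ∈ KX X L w x z, ¬ G.Adj c v → v ∈ KP x z c
  card : ∀ x ∈ A, ∀ z ∈ A, x ≠ z → ∀ c ∈ C z,
    (KP x z c).card + (LP x z c).card ≤ (Us x z c).card
  sub : ∀ x ∈ A, ∀ z ∈ A, x ≠ z → ∀ c ∈ C z, ∀ a ∈ Us x z c, a ∈ X x z ∧ G.Adj c a

/-- the members which the server `z` adds to the cover of the host `x` -/
noncomputable def KZ (G F : SimpleGraph V) (C H : ι → Finset V) (tl : V → ι) (ρ : ι → ℕ)
    (X : ι → ι → Finset V) (KP : ι → ι → V → Finset V) (x z : ι) (c : V) : Finset V :=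
  if ρ x < ρ z ∧ c ∈ X z x then
    (arc H tl x z).filter (fun v => ¬ G.Adj c v ∧ ∃ a ∈ C x, F.Adj v a)
  else KP x z c

/-- the class points which the server `z` adds to the cover of the host `x` -/
noncomputable def LZ (ρ : ι → ℕ) (X : ι → ι → Finset V) (LP : ι → ι → V → Finset V) (x z : ι)
    (c : V) : Finset V :=
  if ρ x < ρ z ∧ c ∈ X z x then ∅ else LP x z c

/-- the members which are added for the half-served pairs -/
noncomputable def LJ (G : SimpleGraph V) (A : Finset ι) (H : ι → Finset V) (tl : V → ι)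
    (ρ : ι → ℕ) (X L : ι → ι → Finset V) (w : ι → ι → V → V) (Lm : ι → ι → ι → Finset V) (x : ι)
    (c : ι → V) : Finset V :=
  (A.erase x).biUnion (fun z => (A.erase x).biUnion (fun y => if ρ y < ρ z ∧ c z ∈ X z y then
      NF G H tl X L w x z y (c z) else ∅)) ∪
    (A.erase x).biUnion (fun y => (A.erase x).biUnion (fun z =>
      if ρ y < ρ z ∧ G.Adj (c y) (c z) ∧ c z ∉ X z y then
        (if c y ∈ X y z then NF G H tl X L w x y z (c y) else Lm x y z) else ∅))

end DefD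

section Single

variable {ι V : Type*} {G F : SimpleGraph V} {A : Finset ι} {C H : ι → Finset V} {tl : V → ι}
  {ρ : ι → ℕ} {X L : ι → ι → Finset V} {w : ι → ι → V → V} {Lm : ι → ι → ι → Finset V}
  {KP LP Us : ι → ι → V → Finset V}

lemma mem_NF {x s t : ι} {a q : V} : q ∈ NF G H tl X L w x s t a ↔ q ∈ H x ∧ G.Adj (w s t a) q ∧
    ((tl q = s ∧ q ∉ KX X L w x s) ∨ (tl q = t ∧ q ∉ KX X L w x t)) := mem_filter

/-- column covers exist: `|Us|` is at most the number of N-types which the column does not see, and a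
point of `Us` outside `L` has an unseen partner -/
theorem exists_uds (h : WSys G F A C H tl) (hK : KDs F A C H tl X L w) :
    ∃ KP LP Us : ι → ι → V → Finset V, UDs G F A C H tl X L w KP LP Us ∧
      ∀ x ∈ A, ∀ z ∈ A, x ≠ z → ∀ c ∈ C z,
        (Us x z c).card ≤ ((arc H tl x z).filter
          (fun v => ¬ G.Adj c v ∧ ∃ a ∈ C x, F.Adj v a)).card ∧
        ∀ a ∈ Us x z c, (a ∉ L x z → ¬ G.Adj c (w x z a)) ∧
          (a ∈ L x z → ∃ v ∈ arc H tl x z, F.Adj v a ∧ ¬ G.Adj c v) := by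
  have key : ∀ x z : ι, ∀ c : V, ∃ K' L' U' : Finset V, x ∈ A → z ∈ A → x ≠ z → c ∈ C z →
      (∀ v ∈ arc H tl x z, ¬ G.Adj c v → ∀ a ∈ C x, F.Adj v a → v ∈ K' ∨ a ∈ L') ∧
      (∀ v ∈ KX X L w x z, ¬ G.Adj c v → v ∈ K') ∧ K'.card + L'.card ≤ U'.card ∧
      (∀ a ∈ U', a ∈ X x z ∧ G.Adj c a) ∧
      U'.card ≤ ((arc H tl x z).filter (fun v => ¬ G.Adj c v ∧ ∃ a ∈ C x, F.Adj v a)).card ∧
      ∀ a ∈ U', (a ∉ L x z → ¬ G.Adj c (w x z a)) ∧
        (a ∈ L x z → ∃ v ∈ arc H tl x z, F.Adj v a ∧ ¬ G.Adj c v) := by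
    intro x z c
    by_cases hall : x ∈ A ∧ z ∈ A ∧ x ≠ z ∧ c ∈ C z
    · obtain ⟨hx, hz, hxz, hc⟩ := hall
      set M := (arc H tl x z).filter (fun v => ¬ G.Adj c v ∧ ∃ a ∈ C x, F.Adj v a) with hM
      set K1 := (KX X L w x z).filter (fun v => ¬ G.Adj c v) with hK1
      set L1 := (L x z).filter (fun a => ∃ v ∈ arc H tl x z, F.Adj v a ∧ ¬ G.Adj c v) with hL1
      set U1 := (X x z).filter (fun a => G.Adj c a ∧ (a ∉ L x z → ¬ G.Adj c (w x z a)) ∧
        (a ∈ L x z → ∃ v ∈ arc H tl x z, F.Adj v a ∧ ¬ G.Adj c v)) with hU1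
      have hkd := hK x hx z hz hxz
      have hs : ∀ v ∈ arc H tl x z, ∀ a ∈ C x, F.Adj v a → G.Adj c v ∨ G.Adj c a := by
        intro v hv a ha hva
        obtain ⟨v1, v2⟩ := mem_arc.1 hv
        have h3 := (h.pc x hx v v1 a ha hva).2
        rw [v2] at h3
        exact h3 _ hc
      have hcov : ∀ v ∈ arc H tl x z, ¬ G.Adj c v → ∀ a ∈ C x, F.Adj v a →
          v ∈ K1 ∨ a ∈ L1 := by
        intro v hv hcv a ha hva
        rcases hkd.cov v hv a ha hva with h1 | h1
        · exact Or.inl (mem_filter.2 ⟨h1, hcv⟩)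
        · exact Or.inr (mem_filter.2 ⟨h1, v, hv, hva, hcv⟩)
      have hKM : K1 ⊆ M := by
        intro v hv
        obtain ⟨v1, v2⟩ := mem_filter.1 hv
        obtain ⟨a, ha, rfl⟩ := mem_image.1 v1
        obtain ⟨a1, a2⟩ := hkd.mem a (mem_sdiff.1 ha).1
        exact mem_filter.2 ⟨a1, v2, a, hkd.XP (mem_sdiff.1 ha).1, a2⟩
      have hcard : K1.card + L1.card ≤ U1.card := by
        have e1 : K1.card ≤ ((X x z \ L x z).filter (fun a => ¬ G.Adj c (w x z a))).card := by
          rw [hK1]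
          unfold KX
          rw [filter_image]
          exact card_image_le
        have e2 : Disjoint ((X x z \ L x z).filter (fun a => ¬ G.Adj c (w x z a))) L1 := by
          rw [disjoint_left]
          intro a ha ha'
          exact (mem_sdiff.1 (mem_filter.1 ha).1).2 (mem_filter.1 ha').1
        have e3 : (X x z \ L x z).filter (fun a => ¬ G.Adj c (w x z a)) ∪ L1 ⊆ U1 := by
          refine union_subset ?_ ?_
          · intro a ha
            obtain ⟨a1, a2⟩ := mem_filter.1 ha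
            obtain ⟨a3, a4⟩ := mem_sdiff.1 a1
            obtain ⟨b1, b2⟩ := hkd.mem a a3
            exact mem_filter.2 ⟨a3, (hs _ b1 a (hkd.XP a3) b2).resolve_left a2, fun _ => a2,
              fun h' => absurd h' a4⟩
          · intro a ha
            obtain ⟨a1, v, hv, hva, hcv⟩ := mem_filter.1 ha
            exact mem_filter.2 ⟨hkd.LX a1,
              (hs v hv a (hkd.XP (hkd.LX a1)) hva).resolve_left hcv, fun h' => absurd a1 h',
              fun _ => ⟨v, hv, hva, hcv⟩⟩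
        have e4 := card_le_card e3
        rw [card_union_of_disjoint e2] at e4
        omega
      by_cases hlt : M.card ≤ K1.card + L1.card
      · obtain ⟨U', hU', hc'⟩ := exists_subset_card_eq (hlt.trans hcard)
        refine ⟨M, ∅, U', fun _ _ _ _ => ⟨fun v hv hcv a ha hva => Or.inl
          (mem_filter.2 ⟨hv, hcv, a, ha, hva⟩), fun v hv hcv => hKM (mem_filter.2 ⟨hv, hcv⟩),
          by rw [card_empty, hc', add_zero], fun a ha => ?_, hc'.le, fun a ha => ?_⟩⟩
        · obtain ⟨a1, a2, -⟩ := mem_filter.1 (hU' ha)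
          exact ⟨a1, a2⟩
        · obtain ⟨-, -, a3⟩ := mem_filter.1 (hU' ha)
          exact a3
      · obtain ⟨U', hU', hc'⟩ := exists_subset_card_eq hcard
        refine ⟨K1, L1, U', fun _ _ _ _ => ⟨hcov, fun v hv hcv => mem_filter.2 ⟨hv, hcv⟩,
          hc'.ge, fun a ha => ?_, by omega, fun a ha => ?_⟩⟩
        · obtain ⟨a1, a2, -⟩ := mem_filter.1 (hU' ha)
          exact ⟨a1, a2⟩
        · obtain ⟨-, -, a3⟩ := mem_filter.1 (hU' ha)
          exact a3
    · exact ⟨∅, ∅, ∅, fun h1 h2 h3 h4 => absurd ⟨h1, h2, h3, h4⟩ hall⟩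
  choose KP LP Us hall using key
  refine ⟨KP, LP, Us, ⟨fun x hx z hz hxz c hc => (hall x z c hx hz hxz hc).1,
    fun x hx z hz hxz c hc => (hall x z c hx hz hxz hc).2.1,
    fun x hx z hz hxz c hc => (hall x z c hx hz hxz hc).2.2.1,
    fun x hx z hz hxz c hc => (hall x z c hx hz hxz hc).2.2.2.1⟩,
    fun x hx z hz hxz c hc => (hall x z c hx hz hxz hc).2.2.2.2⟩

/-- **the split cover of the host `x`** given by a transversal of the other rows -/
theorem WSys.single_cov (h : WSys G F A C H tl) (hK : KDs F A C H tl X L w)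
    (hU : UDs G F A C H tl X L w KP LP Us)
    (hρ : ∀ x ∈ A, ∀ y ∈ A, ρ x = ρ y → x = y) (hLm : LMs F A H tl ρ Lm) {x : ι} (hx : x ∈ A)
    {c : ι → V} (hc : ∀ z ∈ A.erase x, c z ∈ C z) :
    SpCov F tl (H x) (C x) ((A.erase x).biUnion (fun z => (H x).filter (fun v => G.Adj (c z) v)
      ∪ KZ G F C H tl ρ X KP x z (c z)) ∪ LJ G A H tl ρ X L w Lm x c)
      (fun z => LZ ρ X LP x z (c z)) := by
  set Xc : Finset V := (A.erase x).biUnion (fun z => (H x).filter (fun v => G.Adj (c z) v)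
      ∪ KZ G F C H tl ρ X KP x z (c z)) ∪ LJ G A H tl ρ X L w Lm x c with hXc
  have iS : ∀ z ∈ A.erase x, ∀ v ∈ H x, G.Adj (c z) v → v ∈ Xc := fun z hz v hv hcv =>
    mem_union_left _ (mem_biUnion.2 ⟨z, hz, mem_union_left _ (mem_filter.2 ⟨hv, hcv⟩)⟩)
  have iK : ∀ z ∈ A.erase x, ∀ v ∈ KZ G F C H tl ρ X KP x z (c z), v ∈ Xc := fun z hz v hv =>
    mem_union_left _ (mem_biUnion.2 ⟨z, hz, mem_union_right _ hv⟩)
  have i1 : ∀ z ∈ A.erase x, ∀ y ∈ A.erase x, ρ y < ρ z ∧ c z ∈ X z y →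
      ∀ v ∈ NF G H tl X L w x z y (c z), v ∈ Xc := by
    intro z hz y hy hcond v hv
    refine mem_union_right _ (mem_union_left _ (mem_biUnion.2 ⟨z, hz, mem_biUnion.2 ⟨y, hy, ?_⟩⟩))
    rw [if_pos hcond]
    exact hv
  have i2 : ∀ y ∈ A.erase x, ∀ z ∈ A.erase x, ρ y < ρ z ∧ G.Adj (c y) (c z) ∧ c z ∉ X z y →
      ∀ v ∈ (if c y ∈ X y z then NF G H tl X L w x y z (c y) else Lm x y z), v ∈ Xc := by
    intro y hy z hz hcond v hv
    refine mem_union_right _ (mem_union_right _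
      (mem_biUnion.2 ⟨y, hy, mem_biUnion.2 ⟨z, hz, ?_⟩⟩))
    rw [if_pos hcond]
    exact hv
  -- members of the Koenig cover which are not seen
  have iK' : ∀ z ∈ A.erase x, ∀ v ∈ KX X L w x z, ¬ G.Adj (c z) v → v ∈ Xc := by
    intro z hz v hv hcv
    refine iK z hz v ?_
    unfold KZ
    by_cases h1 : ρ x < ρ z ∧ c z ∈ X z x
    · rw [if_pos h1]
      obtain ⟨a, ha, rfl⟩ := mem_image.1 hv
      obtain ⟨w1, w2, w3, w4⟩ := hK.part hx (mem_of_mem_erase hz) (ne_of_mem_erase hz).symm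
        (mem_sdiff.1 ha).1
      exact mem_filter.2 ⟨mem_arc.2 ⟨w1, w2⟩, hcv, a, w4, w3⟩
    · rw [if_neg h1]
      exact hU.free x hx z (mem_of_mem_erase hz) (ne_of_mem_erase hz).symm _ (hc z hz) v hv hcv
  have halfc : ∀ p ∈ H x, ∀ q ∈ H x, F.Adj p q → tl p ∈ A.erase x → tl q ∈ A.erase x →
      ρ (tl p) < ρ (tl q) → p ∈ Xc ∨ q ∈ Xc := by
    intro p hp q hq hpq hy hz hlt
    have hne : tl p ≠ tl q := fun h' => by
      rw [h'] at hlt
      exact lt_irrefl _ hlt
    by_cases s1 : G.Adj (c (tl p)) p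
    · exact Or.inl (iS _ hy p hp s1)
    by_cases s2 : G.Adj (c (tl p)) q
    · exact Or.inr (iS _ hy q hq s2)
    by_cases s3 : G.Adj (c (tl q)) p
    · exact Or.inl (iS _ hz p hp s3)
    by_cases s4 : G.Adj (c (tl q)) q
    · exact Or.inr (iS _ hz q hq s4)
    have had := h.half x hx p hp q hq hpq hy hz hne _ (hc _ hy) _ (hc _ hz) s1 s2 s3 s4
    have hyA := mem_of_mem_erase hy
    have hzA := mem_of_mem_erase hz
    have hxy := (ne_of_mem_erase hy).symm
    have hxz := (ne_of_mem_erase hz).symm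
    by_cases hpK : p ∈ KX X L w x (tl p)
    · exact Or.inl (iK' _ hy p hpK s1)
    by_cases hqK : q ∈ KX X L w x (tl q)
    · exact Or.inr (iK' _ hz q hqK s4)
    by_cases c1 : c (tl q) ∈ X (tl q) (tl p)
    · rcases h.hit hK hx hzA hyA hxz hxy hne.symm hq hp hpq.symm rfl rfl c1 s4 s3 with h1 | h1
      · exact Or.inr (i1 _ hz _ hy ⟨hlt, c1⟩ q (mem_NF.2 ⟨hq, h1, Or.inl ⟨rfl, hqK⟩⟩))
      · exact Or.inl (i1 _ hz _ hy ⟨hlt, c1⟩ p (mem_NF.2 ⟨hp, h1, Or.inr ⟨rfl, hpK⟩⟩))
    · by_cases c2 : c (tl p) ∈ X (tl p) (tl q)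
      · have hm : ∀ v ∈ NF G H tl X L w x (tl p) (tl q) (c (tl p)), v ∈ Xc := fun v hv =>
          i2 _ hy _ hz ⟨hlt, had, c1⟩ v (by
            rw [if_pos c2]
            exact hv)
        rcases h.hit hK hx hyA hzA hxy hxz hne hp hq hpq rfl rfl c2 s1 s2 with h1 | h1
        · exact Or.inl (hm p (mem_NF.2 ⟨hp, h1, Or.inl ⟨rfl, hpK⟩⟩))
        · exact Or.inr (hm q (mem_NF.2 ⟨hq, h1, Or.inr ⟨rfl, hqK⟩⟩))
      · have hm : ∀ v ∈ Lm x (tl p) (tl q), v ∈ Xc := fun v hv =>
          i2 _ hy _ hz ⟨hlt, had, c1⟩ v (by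
            rw [if_neg c2]
            exact hv)
        rcases (hLm x hx _ hyA _ hzA hxy hxz hlt).2 p hp q hq hpq rfl rfl with h1 | h1
        · exact Or.inl (hm p h1)
        · exact Or.inr (hm q h1)
  refine ⟨fun p hp q hq hpq => ?_, fun v hv a ha hva => ?_⟩
  · rcases h.pp x hx p hp q hq hpq with ⟨y, hy, h1⟩ | ⟨hy, hz, hne⟩
    · rcases h1 _ (hc y hy) with h2 | h2
      · exact Or.inl (iS y hy p hp h2)
      · exact Or.inr (iS y hy q hq h2)
    · rcases lt_trichotomy (ρ (tl p)) (ρ (tl q)) with h1 | h1 | h1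
      · exact halfc p hp q hq hpq hy hz h1
      · exact absurd (hρ _ (mem_of_mem_erase hy) _ (mem_of_mem_erase hz) h1) hne
      · exact (halfc q hq p hp hpq.symm hz hy h1).symm
  · obtain ⟨hz, h1⟩ := h.pc x hx v hv a ha hva
    by_cases h2 : G.Adj (c (tl v)) v
    · exact Or.inl (iS _ hz v hv h2)
    have hxz := (ne_of_mem_erase hz).symm
    by_cases h3 : ρ x < ρ (tl v) ∧ c (tl v) ∈ X (tl v) x
    · left
      refine iK _ hz v ?_
      unfold KZ
      rw [if_pos h3]
      exact mem_filter.2 ⟨mem_arc.2 ⟨hv, rfl⟩, h2, a, ha, hva⟩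
    · rcases hU.cov x hx _ (mem_of_mem_erase hz) hxz _ (hc _ hz) v (mem_arc.2 ⟨hv, rfl⟩) h2 a ha
        hva with h4 | h4
      · left
        refine iK _ hz v ?_
        unfold KZ
        rw [if_neg h3]
        exact h4
      · right
        show a ∈ LZ ρ X LP x (tl v) (c (tl v))
        unfold LZ
        rw [if_neg h3]
        exact h4

/-- the cost of the server `z` -/
lemma WSys.card_KZ (h : WSys G F A C H tl) (hK : KDs F A C H tl X L w)
    (hU : UDs G F A C H tl X L w KP LP Us) {x z : ι} (hx : x ∈ A) (hz : z ∈ A) (hxz : x ≠ z)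
    {c : V} (hc : c ∈ C z) : (KZ G F C H tl ρ X KP x z c).card + (LZ ρ X LP x z c).card
      ≤ (if ρ x < ρ z ∧ c ∈ X z x then dg G (arc H tl x z) (w z x c) else (Us x z c).card) := by
  unfold KZ LZ
  by_cases h2 : ρ x < ρ z ∧ c ∈ X z x
  · rw [if_pos h2, if_pos h2, if_pos h2, card_empty, add_zero]
    unfold dg
    refine card_le_card fun v hv => ?_
    obtain ⟨v1, v2, -⟩ := mem_filter.1 hv
    exact mem_filter.2 ⟨v1, h.hit3 hK hx hz hxz h2.2 (mem_arc.1 v1).1 (mem_arc.1 v1).2 v2⟩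
  · rw [if_neg h2, if_neg h2, if_neg h2]
    exact hU.card x hx z hz hxz c hc

/-- the size of the correction -/
lemma card_LJ {x : ι} {c : ι → V} : (LJ G A H tl ρ X L w Lm x c).card
      ≤ ∑ z ∈ A.erase x, ∑ y ∈ A.erase x,
          (if ρ y < ρ z ∧ c z ∈ X z y then (NF G H tl X L w x z y (c z)).card else 0)
        + ∑ y ∈ A.erase x, ∑ z ∈ A.erase x,
          (if ρ y < ρ z ∧ G.Adj (c y) (c z) ∧ c z ∉ X z y then
            (if c y ∈ X y z then (NF G H tl X L w x y z (c y)).card else (Lm x y z).card)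
            else 0) := by
  unfold LJ
  refine (card_union_le _ _).trans (add_le_add ?_ ?_)
  · refine card_biUnion_le.trans (sum_le_sum fun z _ => card_biUnion_le.trans
      (sum_le_sum fun y _ => ?_))
    split_ifs
    · exact le_refl _
    · rw [card_empty]
  · refine card_biUnion_le.trans (sum_le_sum fun z _ => card_biUnion_le.trans
      (sum_le_sum fun y _ => ?_))
    split_ifs
    · exact le_refl _
    · exact le_refl _
    · rw [card_empty]

/-- **one host**: the split cover number -/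
theorem WSys.single' (h : WSys G F A C H tl) (hK : KDs F A C H tl X L w)
    (hU : UDs G F A C H tl X L w KP LP Us)
    (hρ : ∀ x ∈ A, ∀ y ∈ A, ρ x = ρ y → x = y) (hLm : LMs F A H tl ρ Lm) {x : ι} (hx : x ∈ A)
    {c : ι → V} (hc : ∀ z ∈ A.erase x, c z ∈ C z) :
    spn F tl (H x) (C x) (A.erase x) ≤ ∑ z ∈ A.erase x, (dg G (H x) (c z)
        + (if ρ x < ρ z ∧ c z ∈ X z x then dg G (arc H tl x z) (w z x (c z))
            else (Us x z (c z)).card)
        + ∑ y ∈ A.erase x, (if ρ y < ρ z ∧ c z ∈ X z y then (NF G H tl X L w x z y (c z)).card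
            else 0))
      + ∑ y ∈ A.erase x, ∑ z ∈ A.erase x,
          (if ρ y < ρ z ∧ G.Adj (c y) (c z) ∧ c z ∉ X z y then
            (if c y ∈ X y z then (NF G H tl X L w x y z (c y)).card else (Lm x y z).card)
            else 0) := by
  have h1 := spn_le (B := A.erase x) (h.single_cov hK hU hρ hLm hx hc)
  have h2 : ((A.erase x).biUnion (fun z => (H x).filter (fun v => G.Adj (c z) v)
      ∪ KZ G F C H tl ρ X KP x z (c z)) ∪ LJ G A H tl ρ X L w Lm x c).card
      ≤ ∑ z ∈ A.erase x, (dg G (H x) (c z) + (KZ G F C H tl ρ X KP x z (c z)).card)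
        + (LJ G A H tl ρ X L w Lm x c).card := by
    refine (card_union_le _ _).trans (Nat.add_le_add_right ?_ _)
    refine card_biUnion_le.trans (sum_le_sum fun z _ => ?_)
    exact card_union_le _ _
  have h3 := card_LJ (G := G) (A := A) (H := H) (tl := tl) (ρ := ρ) (X := X) (L := L) (w := w)
    (Lm := Lm) (x := x) (c := c)
  have h4 := sum_le_sum fun z (hz : z ∈ A.erase x) => h.card_KZ hK hU (ρ := ρ) hx
    (mem_of_mem_erase hz) (ne_of_mem_erase hz).symm (hc z hz)
  rw [sum_add_distrib] at h4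
  simp only [sum_add_distrib] at h2 h3 ⊢
  omega

end Single

end Pool.Agent.Lib.MP_f04ccf_co
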