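import Pool.Agent.Lib.MP_f04ccf_co.M.AsmT
import Pool.Agent.Lib.MP_f04ccf_co.M.LegJ
import Pool.Agent.Lib.MP_f04ccf_co.M.WgtD

/-!
MP_f04ccf_co: the load data of a `Core`: the slots form a `WSys`, Koenig data for all arcs exist, column
covers exist, the layers have the values of the minimal system.
-/

set_option autoImplicit false

namespace Pool.Agent.Lib.MP_f04ccf_co

open Finset

attribute [local instance] Classical.propDecidable

section AsmW

variable {V : Type*} {G : SimpleGraph V} {Z T : Finset V} {hm : V → V} {r m t j p : ℕ}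
  {A S : Finset V}

/-- Koenig data for all arcs exist -/
theorem exists_kds {ι : Type*} (F : SimpleGraph V) (A : Finset ι) (C H : ι → Finset V)
    (tl : V → ι) : ∃ (X L : ι → ι → Finset V) (w : ι → ι → V → V), KDs F A C H tl X L w := by
  choose X L w h using fun s t : ι => exists_kd F (C s) (arc H tl s t)
  exact ⟨X, L, w, fun s _ t _ _ => h s t⟩

lemma Core.csys (h : Core G Z T r m t j p A S hm) :
    CSys G Z T hm A (fun x => S.filter fun v => hm v = x) :=
  h.hsys.csys h.F.toPFrame h.H.ok

lemma Core.ctr (h : Core G Z T r m t j p A S hm) :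
    ∀ y ∈ A, y ∈ (fun x => S.filter fun v => hm v = x) y :=
  h.hsys.ctr_slot h.F.toPFrame h.H.ok

/-- the slots form a `WSys` -/
theorem Core.wsys (h : Core G Z T r m t j p A S hm) :
    WSys G (co G) A (CP G Z T (fun x => S.filter fun v => hm v = x))
      (HP G Z T (fun x => S.filter fun v => hm v = x)) (tlo G T hm) :=
  h.csys.wsys h.F.toPFrame h.H.hh h.ctr

/-- Koenig data and column covers -/
theorem Core.exists_wdata (h : Core G Z T r m t j p A S hm) :
    ∃ (X L : V → V → Finset V) (w : V → V → V → V) (KP LP Us : V → V → V → Finset V),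
      KDs (co G) A (CP G Z T (fun x => S.filter fun v => hm v = x))
        (HP G Z T (fun x => S.filter fun v => hm v = x)) (tlo G T hm) X L w ∧
      UDs G (co G) A (CP G Z T (fun x => S.filter fun v => hm v = x))
        (HP G Z T (fun x => S.filter fun v => hm v = x)) (tlo G T hm) X L w KP LP Us := by
  obtain ⟨X, L, w, hK⟩ := exists_kds (co G) A
    (CP G Z T (fun x => S.filter fun v => hm v = x))
    (HP G Z T (fun x => S.filter fun v => hm v = x)) (tlo G T hm)
  obtain ⟨KP, LP, Us, hU, -⟩ := exists_uds h.wsys hK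
  exact ⟨X, L, w, KP, LP, Us, hK, hU⟩

/-- the law for deletion sets of legal shape -/
theorem Core.leg_val (h : Core G Z T r m t j p A S hm) {X L : V → V → Finset V}
    {w : V → V → V → V}
    (hK : KDs (co G) A (CP G Z T (fun x => S.filter fun v => hm v = x))
      (HP G Z T (fun x => S.filter fun v => hm v = x)) (tlo G T hm) X L w)
    {B : Finset V} (hB : B ⊂ A) {c : V → V}
    (hc : ∀ z ∈ A \ B, c z ∈ CP G Z T (fun x => S.filter fun v => hm v = x) z) {D : Finset V}
    (hD : LegD G (CP G Z T (fun x => S.filter fun v => hm v = x))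
      (HP G Z T (fun x => S.filter fun v => hm v = x)) (tlo G T hm) X w A B c D) :
    ∑ x ∈ B, (((S.filter fun v => hm v = x).card : ℚ) - r) ≤ D.card :=
  h.Q.leg_val h.F.toPFrame h.H.hh h.hj h.H.ok hK hB hc hD

end AsmW

end Pool.Agent.Lib.MP_f04ccf_co
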