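import Mathlib

/-!
MP_f04ccf_co: averaging over the sub-selections of `j` elements.  `exists_top`: a finite set `K` has a
subset of `j` elements whose sum of `h` is at least `j / |K|` of the whole sum.  `avg_one`, `avg_two`,
`avg_three`: a linear inequality which holds for all sub-selections of given sizes (in one, two, three
disjoint classes) holds for the whole sums with the factors `j / |K|`.  `exists_low` : the same with the
smallest values.
-/

set_option autoImplicit false

namespace Pool.Agent.Lib.MP_f04ccf_co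

open Finset

section Avg

variable {ι : Type*}

/-- **a sub-selection of `j` elements with at least its share of the sum** -/
theorem exists_top (h : ι → ℤ) (K : Finset ι) {j : ℕ} (hj : j ≤ K.card) :
    ∃ A ⊆ K, A.card = j ∧ (j : ℤ) * ∑ u ∈ K, h u ≤ (K.card : ℤ) * ∑ u ∈ A, h u := by
  classical
  induction K using Finset.strongInduction with
  | H K ih =>
    rcases Nat.lt_or_ge j K.card with h1 | h1
    · have hne : K.Nonempty := card_pos.1 (by omega)
      obtain ⟨u, hu, hmin⟩ := exists_min_image K h hne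
      have hc : (K.erase u).card = K.card - 1 := card_erase_of_mem hu
      obtain ⟨A, hA, hAj, hs⟩ := ih (K.erase u) (erase_ssubset hu) (by omega)
      refine ⟨A, hA.trans (erase_subset _ _), hAj, ?_⟩
      have h2 : (K.card : ℤ) * h u ≤ ∑ v ∈ K, h v := by
        have := card_nsmul_le_sum K h (h u) hmin
        rwa [nsmul_eq_mul] at this
      have h3 : h u + ∑ v ∈ K.erase u, h v = ∑ v ∈ K, h v := add_sum_erase K h hu
      have h4 : ((K.erase u).card : ℤ) = (K.card : ℤ) - 1 := by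
        rw [hc, Nat.cast_sub (by omega)]
        rfl
      rw [h4] at hs
      rcases Nat.eq_zero_or_pos j with h5 | h5
      · subst h5
        rw [card_eq_zero.1 hAj]
        simp
      · have hk : (1 : ℤ) ≤ (K.card : ℤ) - 1 := by
          have : 2 ≤ K.card := by omega
          have : (2 : ℤ) ≤ K.card := by exact_mod_cast this
          linarith
        have hj0 : (0 : ℤ) ≤ j := Nat.cast_nonneg _
        have h6 : ((K.card : ℤ) - 1) * ∑ v ∈ K, h v ≤ (K.card : ℤ) * ∑ v ∈ K.erase u, h v := by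
          have : ∑ v ∈ K.erase u, h v = ∑ v ∈ K, h v - h u := by linarith
          rw [this]
          nlinarith
        have h7 : ((K.card : ℤ) - 1) * (j * ∑ v ∈ K, h v)
            ≤ ((K.card : ℤ) - 1) * (K.card * ∑ v ∈ A, h v) := by
          have h8 := mul_le_mul_of_nonneg_left h6 hj0
          have h9 := mul_le_mul_of_nonneg_left hs (Nat.cast_nonneg (α := ℤ) K.card)
          nlinarith
        exact le_of_mul_le_mul_left h7 (by linarith)
    · have h2 : j = K.card := le_antisymm hj h1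
      exact ⟨K, Subset.rfl, h2.symm, by rw [h2]⟩

/-- the same with the smallest values -/
theorem exists_low (h : ι → ℤ) (K : Finset ι) {j : ℕ} (hj : j ≤ K.card) :
    ∃ A ⊆ K, A.card = j ∧ (K.card : ℤ) * ∑ u ∈ A, h u ≤ (j : ℤ) * ∑ u ∈ K, h u := by
  obtain ⟨A, h1, h2, h3⟩ := exists_top (fun u => - h u) K hj
  refine ⟨A, h1, h2, ?_⟩
  simp only [sum_neg_distrib] at h3
  linarith

/-- **one class** -/
theorem avg_one {h : ι → ℤ} {K : Finset ι} {j : ℕ} {f g : ℤ} (hj : j ≤ K.card)
    (H : ∀ A ⊆ K, A.card = j → f + ∑ u ∈ A, h u ≤ g) :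
    (K.card : ℤ) * f + j * ∑ u ∈ K, h u ≤ K.card * g := by
  obtain ⟨A, h1, h2, h3⟩ := exists_top h K hj
  have h4 := mul_le_mul_of_nonneg_left (H A h1 h2) (Nat.cast_nonneg (α := ℤ) K.card)
  linarith

/-- **two classes** -/
theorem avg_two {h h' : ι → ℤ} {K K' : Finset ι} {j j' : ℕ} {f g : ℤ} (hj : j ≤ K.card)
    (hj' : j' ≤ K'.card)
    (H : ∀ A ⊆ K, A.card = j → ∀ A' ⊆ K', A'.card = j' →
      f + ∑ u ∈ A, h u + ∑ u ∈ A', h' u ≤ g) :
    (K.card : ℤ) * K'.card * f + (j : ℤ) * K'.card * ∑ u ∈ K, h u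
      + (j' : ℤ) * K.card * ∑ u ∈ K', h' u ≤ K.card * K'.card * g := by
  have h1 : ∀ A ⊆ K, A.card = j →
      (K'.card : ℤ) * (f + ∑ u ∈ A, h u) + j' * ∑ u ∈ K', h' u ≤ K'.card * g :=
    fun A hA hAj => avg_one hj' fun A' hA' hAj' => H A hA hAj A' hA' hAj'
  obtain ⟨A, h2, h3, h4⟩ := exists_top h K hj
  have h5 := h1 A h2 h3
  have h6 := mul_le_mul_of_nonneg_left h5 (Nat.cast_nonneg (α := ℤ) K.card)
  have h7 := mul_le_mul_of_nonneg_left h4 (Nat.cast_nonneg (α := ℤ) K'.card)
  nlinarith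

/-- **three classes** -/
theorem avg_three {h h' h'' : ι → ℤ} {K K' K'' : Finset ι} {j j' j'' : ℕ} {f g : ℤ}
    (hj : j ≤ K.card) (hj' : j' ≤ K'.card) (hj'' : j'' ≤ K''.card)
    (H : ∀ A ⊆ K, A.card = j → ∀ A' ⊆ K', A'.card = j' → ∀ A'' ⊆ K'', A''.card = j'' →
      f + ∑ u ∈ A, h u + ∑ u ∈ A', h' u + ∑ u ∈ A'', h'' u ≤ g) :
    (K.card : ℤ) * K'.card * K''.card * f + (j : ℤ) * K'.card * K''.card * ∑ u ∈ K, h u
      + (j' : ℤ) * K.card * K''.card * ∑ u ∈ K', h' u
      + (j'' : ℤ) * K.card * K'.card * ∑ u ∈ K'', h'' u ≤ K.card * K'.card * K''.card * g := by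
  obtain ⟨A'', h1, h2, h3⟩ := exists_top h'' K'' hj''
  have h4 := avg_two (f := f + ∑ u ∈ A'', h'' u) (g := g) hj hj' fun A hA hAj A' hA' hAj' => by
    have := H A hA hAj A' hA' hAj' A'' h1 h2
    linarith
  have h5 : (0 : ℤ) ≤ (K.card : ℤ) * K'.card :=
    mul_nonneg (Nat.cast_nonneg _) (Nat.cast_nonneg _)
  have h6 := mul_le_mul_of_nonneg_left h3 h5
  have h7 := mul_le_mul_of_nonneg_left h4 (Nat.cast_nonneg (α := ℤ) K''.card)
  nlinarith

end Avg

end Pool.Agent.Lib.MP_f04ccf_co
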