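import Pool.Agent.Lib.MP_f04ccf_co.M.Thr
import Pool.Agent.Lib.MP_f04ccf_co.S2Safe

/-!
MP_f04ccf_co: the clean model of helper38 (note 15094 (2)).  In a frame `S2` with at most `r` doubles
there is an edge between different classes or between a double and a foreign class.
-/

set_option autoImplicit false

namespace Pool.Agent.Lib.MP_f04ccf_co

open Finset

attribute [local instance] Classical.propDecidable

section Thr2

variable {V : Type*} {G : SimpleGraph V} {r : ℕ}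

/-- the threshold set, exact value -/
lemma thr_exists (C : Finset V) {H L : Finset V} (hHL : Disjoint H L)
    (hη : ∀ w ∈ L, ∀ w' ∈ L, w ≠ w' → ¬ G.Adj w w' →
      -1 ≤ etaT G r C (H ∪ L) w + etaT G r C (H ∪ L) w') :
    ∃ Z' ⊆ L, 2 * ∑ v ∈ H ∪ Z', (((r : ℤ) - 1) - nd G C v) - NE G (H ∪ Z')
      = 2 * ∑ v ∈ H, (((r : ℤ) - 1) - nd G C v) - NE G H + NE G L
        + 2 * ∑ v ∈ L, max (etaT G r C (H ∪ L) v) 0 := by
  set Z' := L.filter (fun w => 0 ≤ etaT G r C (H ∪ L) w) with hZ'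
  have hZL : Z' ⊆ L := filter_subset _ _
  refine ⟨Z', hZL, ?_⟩
  rw [val_union C hHL hZL]
  have h1 : ∑ v ∈ L, max (etaT G r C (H ∪ L) v) 0 = ∑ v ∈ Z', etaT G r C (H ∪ L) v := by
    rw [hZ', sum_filter]
    refine sum_congr rfl fun v _ => ?_
    split_ifs with h
    · exact max_eq_left h
    · exact max_eq_right (not_le.1 h).le
  have h2 : NE G (L \ Z') = 0 := by
    apply NE_clq
    intro w hw w' hw' hne
    by_contra hn
    obtain ⟨a1, a2⟩ := mem_sdiff.1 hw
    obtain ⟨b1, b2⟩ := mem_sdiff.1 hw'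
    have h3 := hη w a1 w' b1 hne hn
    have h4 : etaT G r C (H ∪ L) w < 0 := by
      by_contra h
      exact a2 (mem_filter.2 ⟨a1, not_lt.1 h⟩)
    have h5 : etaT G r C (H ∪ L) w' < 0 := by
      by_contra h
      exact b2 (mem_filter.2 ⟨b1, not_lt.1 h⟩)
    omega
  have h3 : (NE G L : ℤ) = NE G Z' + 2 * ∑ v ∈ Z', (nd G (L \ Z') v : ℤ) := by
    have h4 := NE_union (G := G) (sdiff_disjoint : Disjoint (L \ Z') Z')
    rw [sdiff_union_of_subset hZL, h2] at h4
    rw [h4]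
    push_cast
    ring
  rw [h1, h3]
  ring

/-- the surplus of the threshold set -/
lemma surplus (L : Finset V) (f : V → ℤ) (hf : ∀ v ∈ L, 0 ≤ f v) (μ : ℤ)
    (hμ : ∀ w ∈ L, ∀ w' ∈ L, w ≠ w' → ¬ G.Adj w w' → μ ≤ f w + f w') :
    (NE G L : ℤ) * μ ≤ 2 * (((L.card : ℤ) - 1) * ∑ v ∈ L, f v) := by
  have h1 : ∑ w ∈ L, ∑ w' ∈ L.filter (fun y => y ≠ w ∧ ¬ G.Adj w y), μ ≤
      ∑ w ∈ L, ∑ w' ∈ L.filter (fun y => y ≠ w ∧ ¬ G.Adj w y), (f w + f w') :=
    sum_le_sum fun w hw => sum_le_sum fun w' hw' => by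
      obtain ⟨a, b, c⟩ := mem_filter.1 hw'
      exact hμ w hw w' a b.symm c
  have h2 : ∑ w ∈ L, ∑ w' ∈ L.filter (fun y => y ≠ w ∧ ¬ G.Adj w y), μ = (NE G L : ℤ) * μ := by
    unfold NE nd
    push_cast
    rw [sum_mul]
    refine sum_congr rfl fun w _ => ?_
    rw [sum_const, nsmul_eq_mul]
  have h3 : ∑ w ∈ L, ∑ w' ∈ L.filter (fun y => y ≠ w ∧ ¬ G.Adj w y), f w' =
      ∑ w ∈ L, ∑ w' ∈ L.filter (fun y => y ≠ w ∧ ¬ G.Adj w y), f w := by
    rw [sum_comm' (t' := L) (s' := fun y => L.filter (fun w => w ≠ y ∧ ¬ G.Adj y w))]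
    intro x y
    simp only [mem_filter]
    constructor
    · rintro ⟨a, b, c, d⟩
      exact ⟨⟨a, c.symm, fun h => d h.symm⟩, b⟩
    · rintro ⟨⟨a, c, d⟩, b⟩
      exact ⟨a, b, c.symm, fun h => d h.symm⟩
  have h4 : ∑ w ∈ L, ∑ w' ∈ L.filter (fun y => y ≠ w ∧ ¬ G.Adj w y), f w
      ≤ ((L.card : ℤ) - 1) * ∑ v ∈ L, f v := by
    rw [mul_sum]
    refine sum_le_sum fun w hw => ?_
    rw [sum_const, nsmul_eq_mul]
    have h5 := dg_add_nd (G := G) hw
    have h6 : ((L.filter (fun y => y ≠ w ∧ ¬ G.Adj w y)).card : ℤ) ≤ (L.card : ℤ) - 1 := by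
      have h7 : nd G L w = (L.filter (fun y => y ≠ w ∧ ¬ G.Adj w y)).card := rfl
      rw [← h7]
      omega
    exact mul_le_mul_of_nonneg_right h6 (hf w hw)
  simp only [sum_add_distrib] at h1
  rw [h2, h3] at h1
  linarith

/-- truncated sums -/
lemma sum_pred_le {ι : Type*} (A : Finset ι) (n : ι → ℕ) :
    ∑ x ∈ A, (n x - 1) ≤ (∑ x ∈ A, n x) - 1 := by
  induction A using Finset.induction_on with
  | empty => simp
  | insert a A ha ih =>
    rw [sum_insert ha, sum_insert ha]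
    omega

end Thr2

section Clean

variable {V : Type*} (G : SimpleGraph V) (Z T : Finset V)

/-- `w` sees the whole class of `y` -/
def Fu (y w : V) : Prop := ∀ c ∈ Cl G Z T y, G.Adj w c

/-- no edges between different classes, no foreign coverage -/
structure Clean : Prop where
  cc : ∀ x ∈ T, ∀ y ∈ T, x ≠ y → ∀ c ∈ Cl G Z T x, ∀ c' ∈ Cl G Z T y, ¬ G.Adj c c'
  bc : ∀ w ∈ BB G Z T, ∀ y ∈ T, y ∉ ends G T w → ∀ c ∈ Cl G Z T y, ¬ G.Adj w c

/-- full at both ends -/
noncomputable def cA : Finset V := (BB G Z T).filter (fun w => ∀ y ∈ ends G T w, Fu G Z T y w)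

/-- full at both ends, one of them is `y` -/
noncomputable def cAy (y : V) : Finset V := (cA G Z T).filter (fun w => y ∈ ends G T w)

/-- full at `y` only -/
noncomputable def cB (y : V) : Finset V := (BB G Z T).filter (fun w => y ∈ ends G T w ∧
  Fu G Z T y w ∧ ¬ ∀ y ∈ ends G T w, Fu G Z T y w)

/-- full at `x` only, the other end is `y` -/
noncomputable def cP (x y : V) : Finset V := (cB G Z T x).filter (fun w => y ∈ ends G T w)

variable {G Z T} {r m t : ℕ}

lemma mem_cA {w : V} : w ∈ cA G Z T ↔ w ∈ BB G Z T ∧ ∀ y ∈ ends G T w, Fu G Z T y w := mem_filter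

lemma mem_cAy {y w : V} : w ∈ cAy G Z T y ↔ w ∈ cA G Z T ∧ y ∈ ends G T w := mem_filter

lemma mem_cB {y w : V} : w ∈ cB G Z T y ↔ w ∈ BB G Z T ∧ y ∈ ends G T w ∧
  Fu G Z T y w ∧ ¬ ∀ y ∈ ends G T w, Fu G Z T y w := mem_filter

lemma mem_cP {x y w : V} : w ∈ cP G Z T x y ↔ w ∈ cB G Z T x ∧ y ∈ ends G T w := mem_filter

lemma PFrame.no3 (h : PFrame G r m t Z T) {I : Finset V} (hI : I ⊆ T) (hc : I.card ≤ 2)
    {a b c : V} (ha : a ∈ ZI G Z T I) (hb : b ∈ ZI G Z T I) (hc' : c ∈ ZI G Z T I)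
    (hab : a ≠ b) (hac : a ≠ c) (hbc : b ≠ c) (nab : ¬ G.Adj a b) (nac : ¬ G.Adj a c)
    (nbc : ¬ G.Adj b c) : False := by
  have h1 := h.alpha_ZI hI {a, b, c} (by
    intro x hx
    simp only [mem_insert, mem_singleton] at hx
    rcases hx with rfl | rfl | rfl <;> assumption) (by
    intro x hx y hy
    simp only [mem_insert, mem_singleton] at hx hy
    rcases hx with rfl | rfl | rfl <;> rcases hy with rfl | rfl | rfl <;>
      first
      | exact G.loopless.irrefl _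
      | exact nab
      | exact nac
      | exact nbc
      | exact fun h => nab h.symm
      | exact fun h => nac h.symm
      | exact fun h => nbc h.symm)
  have h2 : ({a, b, c} : Finset V).card = 3 := card_eq_three.2 ⟨a, b, c, hab, hac, hbc, rfl⟩
  omega

lemma PFrame.no4 (h : PFrame G r m t Z T) {I : Finset V} (hI : I ⊆ T) (hc : I.card ≤ 3)
    {a b c d : V} (ha : a ∈ ZI G Z T I) (hb : b ∈ ZI G Z T I) (hc' : c ∈ ZI G Z T I)
    (hd : d ∈ ZI G Z T I)
    (hab : a ≠ b) (hac : a ≠ c) (hbc : b ≠ c) (had : a ≠ d) (hbd : b ≠ d) (hcd : c ≠ d)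
    (nab : ¬ G.Adj a b) (nac : ¬ G.Adj a c) (nbc : ¬ G.Adj b c) (nad : ¬ G.Adj a d)
    (nbd : ¬ G.Adj b d) (ncd : ¬ G.Adj c d) : False := by
  have h1 := h.alpha_ZI hI {a, b, c, d} (by
    intro x hx
    simp only [mem_insert, mem_singleton] at hx
    rcases hx with rfl | rfl | rfl | rfl <;> assumption) (by
    intro x hx y hy
    simp only [mem_insert, mem_singleton] at hx hy
    rcases hx with rfl | rfl | rfl | rfl <;> rcases hy with rfl | rfl | rfl | rfl <;>
      first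
      | exact G.loopless.irrefl _
      | exact nab
      | exact nac
      | exact nbc
      | exact nad
      | exact nbd
      | exact ncd
      | exact fun h => nab h.symm
      | exact fun h => nac h.symm
      | exact fun h => nbc h.symm
      | exact fun h => nad h.symm
      | exact fun h => nbd h.symm
      | exact fun h => ncd h.symm)
  have h2 : ({a, b, c, d} : Finset V).card = 4 := by
    rw [card_insert_of_notMem, card_eq_three.2 ⟨b, c, d, hbc, hbd, hcd, rfl⟩]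
    simp only [mem_insert, mem_singleton, not_or]
    exact ⟨hab, hac, had⟩
  omega

lemma ends_other {w x : V} (hw : w ∈ BB G Z T) (hx : x ∈ ends G T w) :
    ∃ y, y ≠ x ∧ y ∈ ends G T w ∧ ends G T w = {x, y} := by
  have h1 : (ends G T w).card = 2 := (mem_BB.1 hw).2
  obtain ⟨p, q, hpq, he⟩ := card_eq_two.1 h1
  rw [he, mem_insert, mem_singleton] at hx
  rcases hx with rfl | rfl
  · exact ⟨q, hpq.symm, by rw [he]; simp, he⟩
  · exact ⟨p, hpq, by rw [he]; simp, by rw [he, pair_comm]⟩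

lemma BB_ne_Cl {w c y : V} (hw : w ∈ BB G Z T) (hy : y ∈ T) (hc : c ∈ Cl G Z T y) : w ≠ c := by
  rintro rfl
  exact disjoint_left.1 (PFrame.BB_disjoint_Cl hy) hc hw

lemma ends_sub {w : V} : ends G T w ⊆ T := filter_subset _ _

/-- every double is full at one of its ends -/
lemma Clean.full_or (hC : Clean G Z T) (h : PFrame G r m t Z T) {w x y : V}
    (hw : w ∈ BB G Z T) (hx : x ∈ ends G T w) (hy : y ∈ ends G T w) (hxy : x ≠ y) :
    Fu G Z T x w ∨ Fu G Z T y w := by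
  by_contra hcon
  unfold Fu at hcon
  push Not at hcon
  obtain ⟨⟨c, hc, hwc⟩, c', hc', hwc'⟩ := hcon
  have he := ends_eq_pair hw hx hy hxy
  have hxT := ends_sub hx
  have hyT := ends_sub hy
  have hI : ({x, y} : Finset V) ⊆ T := by
    rw [← he]
    exact ends_sub
  refine h.no3 hI (card_le_two) (PFrame.mem_ZI_of_BB hw he.subset)
    (h.Cl_sub_ZI' hxT (mem_insert_self _ _) hc)
    (h.Cl_sub_ZI' hyT (mem_insert_of_mem (mem_singleton_self _)) hc')
    (BB_ne_Cl hw hxT hc) (BB_ne_Cl hw hyT hc') ?_ hwc hwc' (hC.cc x hxT y hyT hxy c hc c' hc')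
  rintro rfl
  exact disjoint_left.1 (PFrame.Cl_disjoint hxT hyT hxy) hc hc'

lemma host_unique {w x y : V} (hx : w ∈ cB G Z T x) (hy : w ∈ cB G Z T y) : x = y := by
  by_contra hxy
  obtain ⟨h1, h2, h3, h4⟩ := mem_cB.1 hx
  obtain ⟨_, h5, h6, _⟩ := mem_cB.1 hy
  apply h4
  intro z hz
  rw [ends_eq_pair h1 h2 h5 hxy, mem_insert, mem_singleton] at hz
  rcases hz with rfl | rfl
  · exact h3
  · exact h6

/-- the far end is not full -/
lemma far_not {w x y : V} (hw : w ∈ cP G Z T x y) (hxy : x ≠ y) : ¬ Fu G Z T y w := by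
  obtain ⟨h1, h2⟩ := mem_cP.1 hw
  obtain ⟨h3, h4, h5, h6⟩ := mem_cB.1 h1
  intro h7
  apply h6
  intro z hz
  rw [ends_eq_pair h3 h4 h2 hxy, mem_insert, mem_singleton] at hz
  rcases hz with rfl | rfl
  · exact h5
  · exact h7

/-- missing pairs of one host are parallel -/
lemma Clean.parallel (hC : Clean G Z T) (h : PFrame G r m t Z T) {w w' x y : V} (hxy : x ≠ y)
    (hw : w ∈ cP G Z T x y) (hw' : w' ∈ cB G Z T x) (hne : w' ≠ w) (hn : ¬ G.Adj w w') :
    w' ∈ cP G Z T x y := by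
  obtain ⟨h1, h2⟩ := mem_cP.1 hw
  obtain ⟨h3, h4, h5, h6⟩ := mem_cB.1 h1
  obtain ⟨g3, g4, g5, g6⟩ := mem_cB.1 hw'
  rw [mem_cP]
  refine ⟨hw', ?_⟩
  by_contra hy'
  obtain ⟨z, hzx, hz, hez⟩ := ends_other g3 g4
  have hyz : y ≠ z := fun e => hy' (e ▸ hz)
  have hew := ends_eq_pair h3 h4 h2 hxy
  have n1 := far_not hw hxy
  have n2 : ¬ Fu G Z T z w' := far_not (mem_cP.2 ⟨hw', hz⟩) hzx.symm
  unfold Fu at n1 n2
  push Not at n1 n2
  obtain ⟨a, ha, hwa⟩ := n1
  obtain ⟨a', ha', hwa'⟩ := n2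
  have hxT := ends_sub h4
  have hyT := ends_sub h2
  have hzT := ends_sub hz
  have hI : ({x, y, z} : Finset V) ⊆ T := by
    intro v hv
    simp only [mem_insert, mem_singleton] at hv
    rcases hv with rfl | rfl | rfl <;> assumption
  refine h.no4 hI card_le_three (a := w) (b := w') (c := a) (d := a')
    (PFrame.mem_ZI_of_BB h3 ?_) (PFrame.mem_ZI_of_BB g3 ?_) (h.Cl_sub_ZI' hyT (by simp) ha)
    (h.Cl_sub_ZI' hzT (by simp) ha') hne.symm (BB_ne_Cl h3 hyT ha) (BB_ne_Cl g3 hyT ha)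
    (BB_ne_Cl h3 hzT ha') (BB_ne_Cl g3 hzT ha') ?_ hn hwa ?_ ?_ hwa' ?_
  · rw [hew]
    intro v hv
    simp only [mem_insert, mem_singleton] at hv ⊢
    tauto
  · rw [hez]
    intro v hv
    simp only [mem_insert, mem_singleton] at hv ⊢
    tauto
  · rintro rfl
    exact disjoint_left.1 (PFrame.Cl_disjoint hyT hzT hyz) ha ha'
  · exact hC.bc w' g3 y hyT hy' a ha
  · refine hC.bc w h3 z hzT ?_ a' ha'
    rw [hew, mem_insert, mem_singleton]
    push Not
    exact ⟨hzx, hyz.symm⟩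
  · exact hC.cc y hyT z hzT hyz a ha a' ha'

/-- a missing pair with the same host and the same far row is served there -/
lemma served (h : PFrame G r m t Z T) {w w' x y : V} (hxy : x ≠ y)
    (hw : w ∈ cP G Z T x y) (hw' : w' ∈ cP G Z T x y) (hne : w ≠ w') (hn : ¬ G.Adj w w')
    {c : V} (hc : c ∈ Cl G Z T y) : G.Adj w c ∨ G.Adj w' c := by
  obtain ⟨h1, h2⟩ := mem_cP.1 hw
  obtain ⟨h3, h4, _, _⟩ := mem_cB.1 h1
  obtain ⟨g1, g2⟩ := mem_cP.1 hw'
  obtain ⟨g3, g4, _, _⟩ := mem_cB.1 g1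
  by_contra hcon
  push Not at hcon
  have hxT := ends_sub h4
  have hyT := ends_sub h2
  have hI : ({x, y} : Finset V) ⊆ T := by
    rw [← ends_eq_pair h3 h4 h2 hxy]
    exact ends_sub
  exact h.no3 hI card_le_two (PFrame.mem_ZI_of_BB h3 (ends_eq_pair h3 h4 h2 hxy).subset)
    (PFrame.mem_ZI_of_BB g3 (ends_eq_pair g3 g4 g2 hxy).subset)
    (h.Cl_sub_ZI' hyT (by simp) hc) hne (BB_ne_Cl h3 hyT hc) (BB_ne_Cl g3 hyT hc) hn
    hcon.1 hcon.2

/-- no common missing neighbour hosted at the far row or parallel -/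
lemma Clean.no_common (hC : Clean G Z T) (h : PFrame G r m t Z T) {w w' x y u : V} (hxy : x ≠ y)
    (hw : w ∈ cP G Z T x y) (hw' : w' ∈ cP G Z T x y) (hne : w ≠ w') (hn : ¬ G.Adj w w')
    (hu : u ∈ cB G Z T y ∨ (u ∈ BB G Z T ∧ x ∈ ends G T u ∧ y ∈ ends G T u))
    (huw : u ≠ w) (nuw : ¬ G.Adj w u) (huw' : u ≠ w') (nuw' : ¬ G.Adj w' u) : False := by
  obtain ⟨h1, h2⟩ := mem_cP.1 hw
  obtain ⟨h3, h4, _, _⟩ := mem_cB.1 h1
  obtain ⟨g1, g2⟩ := mem_cP.1 hw'
  obtain ⟨g3, g4, _, _⟩ := mem_cB.1 g1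
  have hxT := ends_sub h4
  have hyT := ends_sub h2
  have hew := ends_eq_pair h3 h4 h2 hxy
  have hew' := ends_eq_pair g3 g4 g2 hxy
  have hI : ({x, y} : Finset V) ⊆ T := by
    rw [← hew]
    exact ends_sub
  have key : ¬ (u ∈ BB G Z T ∧ x ∈ ends G T u ∧ y ∈ ends G T u) := by
    rintro ⟨k1, k2, k3⟩
    exact h.no3 hI card_le_two (PFrame.mem_ZI_of_BB h3 hew.subset)
      (PFrame.mem_ZI_of_BB g3 hew'.subset)
      (PFrame.mem_ZI_of_BB k1 (ends_eq_pair k1 k2 k3 hxy).subset) hne huw.symm huw'.symm hn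
      nuw nuw'
  rcases hu with hu | hu
  · obtain ⟨k1, k2, k3, k4⟩ := mem_cB.1 hu
    obtain ⟨z, hzy, hz, hez⟩ := ends_other k1 k2
    by_cases hzx : z = x
    · subst hzx
      exact key ⟨k1, hz, k2⟩
    · have n1 : ¬ Fu G Z T z u := far_not (mem_cP.2 ⟨hu, hz⟩) hzy.symm
      unfold Fu at n1
      push Not at n1
      obtain ⟨a, ha, hua⟩ := n1
      have hzT := ends_sub hz
      have hI' : ({x, y, z} : Finset V) ⊆ T := by
        intro v hv
        simp only [mem_insert, mem_singleton] at hv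
        rcases hv with rfl | rfl | rfl <;> assumption
      have hzw : z ∉ ends G T w := by
        rw [hew, mem_insert, mem_singleton]
        push Not
        exact ⟨hzx, hzy⟩
      have hzw' : z ∉ ends G T w' := by
        rw [hew', mem_insert, mem_singleton]
        push Not
        exact ⟨hzx, hzy⟩
      refine h.no4 hI' card_le_three (a := w) (b := w') (c := u) (d := a)
        (PFrame.mem_ZI_of_BB h3 ?_) (PFrame.mem_ZI_of_BB g3 ?_) (PFrame.mem_ZI_of_BB k1 ?_)
        (h.Cl_sub_ZI' hzT (by simp) ha) hne huw.symm huw'.symm (BB_ne_Cl h3 hzT ha)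
        (BB_ne_Cl g3 hzT ha) (BB_ne_Cl k1 hzT ha) hn nuw nuw'
        (hC.bc w h3 z hzT hzw a ha) (hC.bc w' g3 z hzT hzw' a ha) hua
      · rw [hew]
        intro v hv
        simp only [mem_insert, mem_singleton] at hv ⊢
        tauto
      · rw [hew']
        intro v hv
        simp only [mem_insert, mem_singleton] at hv ⊢
        tauto
      · rw [hez]
        intro v hv
        simp only [mem_insert, mem_singleton] at hv ⊢
        tauto
  · exact key hu

/-- the doubles are the double full ones and the hosted ones -/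
lemma Clean.card_BB (hC : Clean G Z T) (h : PFrame G r m t Z T) :
    (BB G Z T).card = (cA G Z T).card + ∑ x ∈ T, (cB G Z T x).card := by
  have h1 : BB G Z T = cA G Z T ∪ T.biUnion (fun x => cB G Z T x) := by
    ext w
    simp only [mem_union, mem_biUnion]
    constructor
    · intro hw
      by_cases hA : ∀ y ∈ ends G T w, Fu G Z T y w
      · exact Or.inl (mem_cA.2 ⟨hw, hA⟩)
      · right
        have hc : (ends G T w).card = 2 := (mem_BB.1 hw).2
        obtain ⟨p, q, hpq, he⟩ := card_eq_two.1 hc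
        have hp : p ∈ ends G T w := by rw [he]; simp
        have hq : q ∈ ends G T w := by rw [he]; simp
        rcases hC.full_or h hw hp hq hpq with h2 | h2
        · exact ⟨p, ends_sub hp, mem_cB.2 ⟨hw, hp, h2, hA⟩⟩
        · exact ⟨q, ends_sub hq, mem_cB.2 ⟨hw, hq, h2, hA⟩⟩
    · rintro (hw | ⟨x, _, hw⟩)
      · exact (mem_cA.1 hw).1
      · exact (mem_cB.1 hw).1
  have h2 : Disjoint (cA G Z T) (T.biUnion (fun x => cB G Z T x)) := by
    rw [disjoint_biUnion_right]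
    intro x _
    rw [disjoint_left]
    intro w hw hw'
    exact (mem_cB.1 hw').2.2.2 (mem_cA.1 hw).2
  have h3 : (T : Set V).PairwiseDisjoint (fun x => cB G Z T x) := by
    intro x _ y _ hxy
    rw [Function.onFun, disjoint_left]
    intro w hw hw'
    exact hxy (host_unique hw hw')
  rw [congrArg Finset.card h1, card_union_of_disjoint h2, card_biUnion h3]

lemma sum_cAy : ∑ y ∈ T, (cAy G Z T y).card = 2 * (cA G Z T).card := by
  have h1 : ∑ y ∈ T, (cAy G Z T y).card = ∑ w ∈ cA G Z T, (ends G T w).card := by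
    have h2 := Finset.sum_card_bipartiteAbove_eq_sum_card_bipartiteBelow (s := T)
      (t := cA G Z T) (fun y w => y ∈ ends G T w)
    simp only [bipartiteAbove, bipartiteBelow] at h2
    have h3 : ∀ w ∈ cA G Z T, (T.filter (fun y => y ∈ ends G T w)).card = (ends G T w).card := by
      intro w _
      congr 1
      ext y
      rw [mem_filter]
      exact ⟨fun h => h.2, fun h => ⟨ends_sub h, h⟩⟩
    rw [sum_congr rfl h3] at h2
    exact h2
  have h4 : ∀ w ∈ cA G Z T, (ends G T w).card = 2 := fun w hw => (mem_BB.1 (mem_cA.1 hw).1).2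
  rw [h1, sum_congr rfl h4, sum_const, smul_eq_mul, mul_comm]

/-- the missing pairs with a common host -/
lemma Clean.NE_cB (hC : Clean G Z T) (h : PFrame G r m t Z T) (x : V) :
    NE G (cB G Z T x) = ∑ y ∈ T.erase x, NE G (cP G Z T x y) := by
  have h1 : cB G Z T x = (T.erase x).biUnion (fun y => cP G Z T x y) := by
    ext w
    rw [mem_biUnion]
    constructor
    · intro hw
      obtain ⟨h2, h3, _, _⟩ := mem_cB.1 hw
      obtain ⟨y, hyx, hy, _⟩ := ends_other h2 h3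
      exact ⟨y, mem_erase.2 ⟨hyx, ends_sub hy⟩, mem_cP.2 ⟨hw, hy⟩⟩
    · rintro ⟨y, _, hw⟩
      exact (mem_cP.1 hw).1
  have h2 : ((T.erase x : Finset V) : Set V).PairwiseDisjoint (fun y => cP G Z T x y) := by
    intro y hy y' hy' hyy
    rw [Function.onFun, disjoint_left]
    intro w hw hw'
    obtain ⟨h3, h4⟩ := mem_cP.1 hw
    obtain ⟨_, h5⟩ := mem_cP.1 hw'
    obtain ⟨h6, h7, _, _⟩ := mem_cB.1 h3
    have h8 := ends_eq_pair h6 h7 h4 (ne_of_mem_erase hy).symm
    rw [h8, mem_insert, mem_singleton] at h5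
    rcases h5 with h5 | h5
    · exact (ne_of_mem_erase hy') h5
    · exact hyy h5.symm
  have h3 : NE G (cB G Z T x) = ∑ w ∈ (T.erase x).biUnion (fun y => cP G Z T x y),
      nd G (cB G Z T x) w := by
    rw [← h1]
    rfl
  rw [h3, sum_biUnion h2]
  refine sum_congr rfl fun y hy => sum_congr rfl fun w hw => ?_
  unfold nd
  congr 1
  ext w'
  rw [mem_filter, mem_filter]
  constructor
  · rintro ⟨a, b, c⟩
    exact ⟨hC.parallel h (ne_of_mem_erase hy).symm hw a b c, b, c⟩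
  · rintro ⟨a, b, c⟩
    exact ⟨(mem_cP.1 a).1, b, c⟩

end Clean

end Pool.Agent.Lib.MP_f04ccf_co
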