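import Pool.Agent.Lib.MP_f04ccf_co.M.Load
import Pool.Agent.Lib.MP_f04ccf_co.M.Clean

/-!
MP_f04ccf_co: the back-load of helper12 (note 15086 (1)).  `N` is a graph of missing pairs on the slot
`S` which are served by the clique `C`: every point of `C` sees an end of every edge of `N`.  Then the
clique `C` itself is a tester for `S`: every point of `C` sees a vertex cover of `N`, and it sees all
the leaves of the centres which it misses.  Nothing is assumed about foreign coverage.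
-/

set_option autoImplicit false

namespace Pool.Agent.Lib.MP_f04ccf_co

open Finset

attribute [local instance] Classical.propDecidable

section Back

variable {V : Type*} {G N : SimpleGraph V} {r : ℕ} {S C : Finset V}

/-- the edges of `N` inside `S` are served by `C` -/
def SrvBy (G N : SimpleGraph V) (S C : Finset V) : Prop :=
  ∀ p ∈ S, ∀ q ∈ S, N.Adj p q → ∀ c ∈ C, G.Adj p c ∨ G.Adj q c

/-- `K` is a vertex cover of `N` inside `S` -/
def CovN (N : SimpleGraph V) (S K : Finset V) : Prop :=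
  ∀ p ∈ S, ∀ q ∈ S, N.Adj p q → p ∈ K ∨ q ∈ K

lemma SrvBy.mono_left (h : SrvBy G N S C) {S' : Finset V} (hs : S' ⊆ S) : SrvBy G N S' C :=
  fun p hp q hq => h p (hs hp) q (hs hq)

lemma SrvBy.mono_right (h : SrvBy G N S C) {C' : Finset V} (hs : C' ⊆ C) : SrvBy G N S C' :=
  fun p hp q hq hpq c hc => h p hp q hq hpq c (hs hc)

/-- the neighbours in `S` of a point of `C` cover `N` -/
lemma SrvBy.cov (h : SrvBy G N S C) {c : V} (hc : c ∈ C) :
    CovN N S (S.filter (fun v => G.Adj c v)) := by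
  intro p hp q hq hpq
  rcases h p hp q hq hpq c hc with h1 | h1
  · exact Or.inl (mem_filter.2 ⟨hp, h1.symm⟩)
  · exact Or.inr (mem_filter.2 ⟨hq, h1.symm⟩)

lemma SrvBy.le_dg (h : SrvBy G N S C) {β : ℕ}
    (hβ : ∀ K : Finset V, K ⊆ S → CovN N S K → β ≤ K.card) {c : V} (hc : c ∈ C) :
    β ≤ dg G S c := hβ _ (filter_subset _ _) (h.cov hc)

/-- stars: `L p` are leaves of the centre `p`; a point of `C` sees a centre or all its leaves -/
lemma SrvBy.star_dg (h : SrvBy G N S C) {P : Finset V} (hP : P ⊆ S) {L : V → Finset V}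
    (hL : ∀ p ∈ P, L p ⊆ S) (hN : ∀ p ∈ P, ∀ v ∈ L p, N.Adj p v)
    (hd : ∀ p ∈ P, ∀ q ∈ P, p ≠ q → Disjoint (L p) (L q)) (hPL : ∀ p ∈ P, Disjoint P (L p))
    {c : V} (hc : c ∈ C) :
    ∑ p ∈ P, (if G.Adj p c then 1 else (L p).card) ≤ dg G S c := by
  have h1 : P.filter (fun p => G.Adj p c) ∪ (P.filter (fun p => ¬ G.Adj p c)).biUnion L
      ⊆ S.filter (fun v => G.Adj c v) := by
    intro v hv
    rcases mem_union.1 hv with hv | hv
    · obtain ⟨h1, h2⟩ := mem_filter.1 hv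
      exact mem_filter.2 ⟨hP h1, h2.symm⟩
    · obtain ⟨p, hp, hvp⟩ := mem_biUnion.1 hv
      obtain ⟨h1, h2⟩ := mem_filter.1 hp
      have h3 := hL p h1 hvp
      rcases h p (hP h1) v h3 (hN p h1 v hvp) c hc with h4 | h4
      · exact absurd h4 h2
      · exact mem_filter.2 ⟨h3, h4.symm⟩
  have h2 := card_le_card h1
  have h3 : Disjoint (P.filter (fun p => G.Adj p c))
      ((P.filter (fun p => ¬ G.Adj p c)).biUnion L) := by
    rw [disjoint_biUnion_right]
    intro p hp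
    exact (hPL p (mem_filter.1 hp).1).mono_left (filter_subset _ _)
  rw [card_union_of_disjoint h3, card_biUnion (by
    intro p hp q hq hpq
    exact hd p (mem_filter.1 hp).1 q (mem_filter.1 hq).1 hpq), card_eq_sum_ones] at h2
  rw [← sum_filter_add_sum_filter_not P (fun p => G.Adj p c)]
  have h4 : ∑ p ∈ P.filter (fun p => G.Adj p c), (if G.Adj p c then 1 else (L p).card)
      = ∑ p ∈ P.filter (fun p => G.Adj p c), 1 :=
    sum_congr rfl fun p hp => if_pos (mem_filter.1 hp).2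
  have h5 : ∑ p ∈ P.filter (fun p => ¬ G.Adj p c), (if G.Adj p c then 1 else (L p).card)
      = ∑ p ∈ P.filter (fun p => ¬ G.Adj p c), (L p).card :=
    sum_congr rfl fun p hp => if_neg (mem_filter.1 hp).2
  rw [h4, h5]
  exact h2

/-- the sum over the points of `C` -/
lemma SrvBy.star_sum (h : SrvBy G N S C) (hSC : Disjoint S C) {P : Finset V} (hP : P ⊆ S)
    {L : V → Finset V} (hL : ∀ p ∈ P, L p ⊆ S) (hN : ∀ p ∈ P, ∀ v ∈ L p, N.Adj p v)
    (hd : ∀ p ∈ P, ∀ q ∈ P, p ≠ q → Disjoint (L p) (L q)) (hPL : ∀ p ∈ P, Disjoint P (L p)) :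
    (P.card : ℤ) * C.card + ∑ p ∈ P, (nd G C p : ℤ) * ((L p).card - 1)
      ≤ ∑ c ∈ C, (dg G S c : ℤ) := by
  have h1 := sum_le_sum fun c hc => h.star_dg hP hL hN hd hPL (c := c) hc
  rw [sum_comm] at h1
  have h2 : ∀ p ∈ P, ((∑ c ∈ C, (if G.Adj p c then 1 else (L p).card) : ℕ) : ℤ)
      = C.card + (nd G C p : ℤ) * ((L p).card - 1) := by
    intro p hp
    have hpC : p ∉ C := fun h' => disjoint_left.1 hSC (hP hp) h'
    have e1 := nd_of_notMem (G := G) hpC
    have e2 : (C.filter (fun c => ¬ G.Adj p c)).card = nd G C p := by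
      unfold nd
      congr 1
      ext c
      rw [mem_filter, mem_filter]
      constructor
      · rintro ⟨a, b⟩
        exact ⟨a, fun h' => hpC (h' ▸ a), b⟩
      · rintro ⟨a, b⟩
        exact ⟨a, b.2⟩
    have e3 : ∑ c ∈ C, (if G.Adj p c then 1 else (L p).card)
        = dg G C p + nd G C p * (L p).card := by
      rw [sum_ite, sum_const, sum_const, smul_eq_mul, smul_eq_mul, mul_one, e2]
      rfl
    rw [e3]
    have e4 : (dg G C p : ℤ) + nd G C p = C.card := by exact_mod_cast e1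
    push_cast
    linarith
  have h3 : ((∑ p ∈ P, ∑ c ∈ C, (if G.Adj p c then 1 else (L p).card) : ℕ) : ℤ)
      = (P.card : ℤ) * C.card + ∑ p ∈ P, (nd G C p : ℤ) * ((L p).card - 1) := by
    rw [Nat.cast_sum, sum_congr rfl h2, sum_add_distrib, sum_const, nsmul_eq_mul]
  rw [← h3]
  exact_mod_cast h1

/-- test the slot `S` with the clique `C` and further testers `Q`, exact -/
theorem PG.test_clq (hP : PG G r) {Q : Finset V} (hSC : Disjoint S C) (hSQ : Disjoint S Q)
    (hCQ : Disjoint C Q) (hC : Clq G C) :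
    2 * ∑ c ∈ C, ((dg G S c : ℤ) - 1 - (S.card - r))
      + 2 * ∑ q ∈ Q, ((dg G S q : ℤ) - 1 - (S.card - r) - nd G C q) - NE G Q
      ≤ NE G S - 2 * ((r : ℤ) - 1) * (S.card - r) := by
  have h1 := Mn.load_le hP (L := S) (J := C ∪ Q) (disjoint_union_right.2 ⟨hSC, hSQ⟩)
  rw [sum_union hCQ, NE_union hCQ, NE_clq hC, card_union_of_disjoint hCQ] at h1
  simp only [sum_sub_distrib, sum_const, nsmul_eq_mul]
  push_cast at h1
  nlinarith

/-- **BACK-LOAD**: `(β - 1 - w) |C| ≤ M - R w` with further testers `Q` -/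
theorem PG.back_load (hP : PG G r) {Q : Finset V} (hSC : Disjoint S C) (hSQ : Disjoint S Q)
    (hCQ : Disjoint C Q) (hC : Clq G C) (h : SrvBy G N S C) {β : ℕ}
    (hβ : ∀ K : Finset V, K ⊆ S → CovN N S K → β ≤ K.card) :
    2 * ((β : ℤ) - 1 - (S.card - r)) * C.card
      + 2 * ∑ q ∈ Q, ((dg G S q : ℤ) - 1 - (S.card - r) - nd G C q) - NE G Q
      ≤ NE G S - 2 * ((r : ℤ) - 1) * (S.card - r) := by
  have h1 := hP.test_clq hSC hSQ hCQ hC
  have h2 : ∑ c ∈ C, ((β : ℤ) - 1 - (S.card - r)) ≤ ∑ c ∈ C, ((dg G S c : ℤ) - 1 - (S.card - r)) := by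
    refine sum_le_sum fun c hc => ?_
    have : (β : ℤ) ≤ dg G S c := by exact_mod_cast h.le_dg hβ hc
    linarith
  rw [sum_const, nsmul_eq_mul] at h2
  linarith

/-- **BACK-LOAD, partial servers**: `m` centres `p` with disjoint sets of leaves `L p`, each of them
misses `nd G C p` points of `C` -/
theorem PG.back_star (hP : PG G r) {Q : Finset V} (hSC : Disjoint S C) (hSQ : Disjoint S Q)
    (hCQ : Disjoint C Q) (hC : Clq G C) (h : SrvBy G N S C) {P : Finset V} (hPS : P ⊆ S)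
    {L : V → Finset V} (hL : ∀ p ∈ P, L p ⊆ S) (hN : ∀ p ∈ P, ∀ v ∈ L p, N.Adj p v)
    (hd : ∀ p ∈ P, ∀ q ∈ P, p ≠ q → Disjoint (L p) (L q)) (hPL : ∀ p ∈ P, Disjoint P (L p)) :
    2 * ((P.card : ℤ) - 1 - (S.card - r)) * C.card
      + 2 * ∑ p ∈ P, (nd G C p : ℤ) * ((L p).card - 1)
      + 2 * ∑ q ∈ Q, ((dg G S q : ℤ) - 1 - (S.card - r) - nd G C q) - NE G Q
      ≤ NE G S - 2 * ((r : ℤ) - 1) * (S.card - r) := by
  have h1 := hP.test_clq hSC hSQ hCQ hC
  have h2 := h.star_sum hSC hPS hL hN hd hPL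
  simp only [sum_sub_distrib, sum_const, nsmul_eq_mul] at h1 ⊢
  nlinarith

/-- one partial server: only the points of `C` which it misses are used -/
theorem PG.back_one (hP : PG G r) (hSC : Disjoint S C) (hC : Clq G C) (h : SrvBy G N S C)
    {p : V} (hp : p ∈ S) :
    2 * (nd G C p : ℤ) * ((dg N S p : ℤ) - 1 - (S.card - r))
      ≤ NE G S - 2 * ((r : ℤ) - 1) * (S.card - r) := by
  set B := C.filter (fun c => c ≠ p ∧ ¬ G.Adj p c) with hB
  have hBC : B ⊆ C := filter_subset _ _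
  have h1 := hP.test_clq (S := S) (C := B) (Q := ∅) (hSC.mono_right hBC) (disjoint_empty_right _)
    (disjoint_empty_right _) (hC.mono hBC)
  have h2 : ∑ c ∈ B, ((dg N S p : ℤ) - 1 - (S.card - r))
      ≤ ∑ c ∈ B, ((dg G S c : ℤ) - 1 - (S.card - r)) := by
    refine sum_le_sum fun c hc => ?_
    obtain ⟨hcC, -, hpc⟩ := mem_filter.1 hc
    have e1 : dg N S p ≤ dg G S c := by
      unfold dg
      refine card_le_card fun v hv => ?_
      obtain ⟨a1, a2⟩ := mem_filter.1 hv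
      rcases h p hp v a1 a2 c hcC with h4 | h4
      · exact absurd h4 hpc
      · exact mem_filter.2 ⟨a1, h4.symm⟩
    have e2 : (dg N S p : ℤ) ≤ dg G S c := by exact_mod_cast e1
    linarith
  rw [sum_const, nsmul_eq_mul] at h2
  have h3 : (nd G C p : ℤ) = B.card := rfl
  rw [sum_empty, show NE G (∅ : Finset V) = 0 from rfl] at h1
  rw [h3]
  push_cast at h1
  linarith

/-- a cover with `β` elements bounds the number of missing pairs -/
lemma NE_le_cover {B K : Finset V} (hK : K ⊆ B)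
    (hcov : ∀ p ∈ B, ∀ q ∈ B, p ≠ q → ¬ G.Adj p q → p ∈ K ∨ q ∈ K) :
    (NE G B : ℤ) ≤ 2 * (K.card : ℤ) * B.card - K.card * (K.card + 1) := by
  have h1 := NE_union (G := G) (sdiff_disjoint : Disjoint (B \ K) K)
  rw [sdiff_union_of_subset hK] at h1
  have h2 : NE G (B \ K) = 0 := by
    apply NE_clq
    intro p hp q hq hpq
    by_contra hn
    obtain ⟨a1, a2⟩ := mem_sdiff.1 hp
    obtain ⟨b1, b2⟩ := mem_sdiff.1 hq
    rcases hcov p a1 q b1 hpq hn with h | h
    · exact a2 h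
    · exact b2 h
  have h3 : ∑ x ∈ K, (nd G (B \ K) x : ℤ) ≤ (K.card : ℤ) * (B.card - K.card) := by
    have e1 : ∀ x ∈ K, (nd G (B \ K) x : ℤ) ≤ B.card - K.card := by
      intro x _
      have e2 : nd G (B \ K) x ≤ (B \ K).card := card_filter_le _ _
      have e3 := card_sdiff_add_card_eq_card hK
      omega
    have e4 := sum_le_sum e1
    rw [sum_const, nsmul_eq_mul] at e4
    exact e4
  have h4 : (NE G K : ℤ) ≤ (K.card : ℤ) * (K.card - 1) := by
    have e1 := E_add_NE (G := G) K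
    have e2 : (0 : ℤ) ≤ E G K := by positivity
    linarith
  rw [h1, h2]
  push_cast
  nlinarith

/-- **one far row**: if all missing pairs of the home `A ∪ B` (`A` a clique, complete to `B`) are served
by one clique `C` with `|B| + s ≤ |C|`, then `β (β + 1) + 2 s (β - 1) ≤ 2 |B|` -/
theorem PG.one_far (hP : PG G r) {A B : Finset V} (hA : Clq G A) (hAB : Disjoint A B)
    (hfull : ∀ a ∈ A, ∀ b ∈ B, G.Adj a b) (hSC : Disjoint (A ∪ B) C) (hC : Clq G C)
    (hr : (A ∪ B).card = r)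
    (hsrv : ∀ p ∈ B, ∀ q ∈ B, p ≠ q → ¬ G.Adj p q → ∀ c ∈ C, G.Adj p c ∨ G.Adj q c)
    {K : Finset V} (hK : K ⊆ B)
    (hcov : ∀ p ∈ B, ∀ q ∈ B, p ≠ q → ¬ G.Adj p q → p ∈ K ∨ q ∈ K)
    (hmin : ∀ K' : Finset V, K' ⊆ B →
      (∀ p ∈ B, ∀ q ∈ B, p ≠ q → ¬ G.Adj p q → p ∈ K' ∨ q ∈ K') → K.card ≤ K'.card)
    (hK1 : 1 ≤ K.card) {s : ℤ} (hs : (B.card : ℤ) + s ≤ C.card) :
    (K.card : ℤ) * (K.card + 1) + 2 * s * (K.card - 1) ≤ 2 * B.card := by
  have hNE : NE G (A ∪ B) = NE G B := by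
    rw [NE_union hAB, NE_clq hA, sum_eq_zero, mul_zero, add_zero, zero_add]
    intro b hb
    unfold nd
    rw [card_eq_zero, filter_eq_empty_iff]
    exact fun a ha h' => h'.2 (hfull a ha b hb).symm
  have hadj : ∀ p ∈ A ∪ B, ∀ q ∈ A ∪ B, (co G).Adj p q → p ∈ B ∧ q ∈ B := by
    intro p hp q hq hpq
    rcases mem_union.1 hp with h1 | h1 <;> rcases mem_union.1 hq with h2 | h2
    · exact absurd (hA p h1 q h2 hpq.1) hpq.2
    · exact absurd (hfull p h1 q h2) hpq.2
    · exact absurd (hfull q h2 p h1).symm hpq.2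
    · exact ⟨h1, h2⟩
  have hS : SrvBy G (co G) (A ∪ B) C := by
    intro p hp q hq hpq c hc
    obtain ⟨h1, h2⟩ := hadj p hp q hq hpq
    exact hsrv p h1 q h2 hpq.1 hpq.2 c hc
  have h1 := hP.back_load (Q := ∅) hSC (disjoint_empty_right _) (disjoint_empty_right _) hC hS
    (β := K.card) (by
      intro K' hK' hc'
      have e1 : K' ∩ B ⊆ B := inter_subset_right
      refine (hmin (K' ∩ B) e1 ?_).trans (card_le_card inter_subset_left)
      intro p hp q hq hpq hn
      rcases hc' p (mem_union_right _ hp) q (mem_union_right _ hq) ⟨hpq, hn⟩ with h | h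
      · exact Or.inl (mem_inter.2 ⟨h, hp⟩)
      · exact Or.inr (mem_inter.2 ⟨h, hq⟩))
  rw [hNE, hr, sum_empty, show NE G (∅ : Finset V) = 0 from rfl] at h1
  have h2 := NE_le_cover (G := G) hK hcov
  have h3 : (1 : ℤ) ≤ K.card := by exact_mod_cast hK1
  have h4 : ((K.card : ℤ) - 1) * (B.card + s) ≤ (K.card - 1) * C.card :=
    mul_le_mul_of_nonneg_left hs (by linarith)
  push_cast at h1
  nlinarith

end Back

section BackFrame

variable {V : Type*} {G : SimpleGraph V} {Z T : Finset V} {hm : V → V} {r m t : ℕ}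

variable (G T) in
/-- the missing pairs with both ends `x`, `y` -/
def parN (x y : V) : SimpleGraph V where
  Adj p q := (co G).Adj p q ∧ ends G T p = {x, y} ∧ ends G T q = {x, y}
  symm := ⟨fun _ _ h => ⟨h.1.symm, h.2.2, h.2.1⟩⟩
  loopless := ⟨fun p h => (co G).loopless.irrefl p h.1⟩

/-- the parallel missing pairs of the home `x` are served by the class of the other end -/
lemma PFrame.srv_par (h : PFrame G r m t Z T) {x y : V} (hx : x ∈ T)
    (hy : y ∈ T) (hxy : x ≠ y) : SrvBy G (parN G T x y) (MM G Z T hm x) (Cl G Z T y) := by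
  have hBB : ∀ p ∈ MM G Z T hm x, ends G T p = {x, y} → p ∈ BB G Z T := by
    intro p hp he
    rcases mem_union.1 hp with h1 | h1
    · exfalso
      have h2 : (ends G T p).card = 2 := by rw [he, card_pair hxy]
      rcases (mem_Cl.1 h1).2 with h3 | ⟨_, h3⟩
      · rw [h3, h.ends_T hx] at h2
        simp at h2
      · rw [h3, card_singleton] at h2
        omega
    · exact (mem_Ph.1 h1).1
  intro p hp q hq hpq c hc
  obtain ⟨h1, h2, h3⟩ := hpq
  by_contra hcon
  push Not at hcon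
  have hI : ({x, y} : Finset V) ⊆ T := by
    intro v hv
    rcases mem_insert.1 hv with rfl | hv
    · exact hx
    · rw [mem_singleton.1 hv]; exact hy
  have hpB := hBB p hp h2
  have hqB := hBB q hq h3
  exact h.no3 hI card_le_two (PFrame.mem_ZI_of_BB hpB h2.subset)
    (PFrame.mem_ZI_of_BB hqB h3.subset) (h.Cl_sub_ZI' hy (by simp) hc) h1.1
    (BB_ne_Cl hpB hy hc) (BB_ne_Cl hqB hy hc) h1.2 hcon.1 hcon.2

lemma PFrame.MM_Cl_disj {x y : V} (hx : x ∈ T) (hy : y ∈ T) (hxy : x ≠ y) :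
    Disjoint (MM G Z T hm x) (Cl G Z T y) := by
  rw [MM, disjoint_union_left]
  exact ⟨Cl_Cl_disjoint hx hy hxy,
    (disjoint_of_subset_right (filter_subset _ _) (Cl_BB_disjoint hy)).symm⟩

/-- **BACK-LOAD in the frame**: home `x`, far row `y`, any family `N` of missing pairs of `MM x` which
is served at `y` (for instance `parN G T x y`), cover number at least `β` -/
theorem PFrame.back_load (h : PFrame G r m t Z T) (hP : PG G r) {x y : V} (hx : x ∈ T)
    (hy : y ∈ T) (hxy : x ≠ y) {N : SimpleGraph V} (hN : SrvBy G N (MM G Z T hm x) (Cl G Z T y))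
    {β : ℕ} (hβ : ∀ K : Finset V, K ⊆ MM G Z T hm x → CovN N (MM G Z T hm x) K → β ≤ K.card) :
    2 * ((β : ℤ) - 1 - ((MM G Z T hm x).card - r)) * (Cl G Z T y).card
      ≤ NE G (MM G Z T hm x) - 2 * ((r : ℤ) - 1) * ((MM G Z T hm x).card - r) := by
  have h1 := hP.back_load (Q := ∅) (PFrame.MM_Cl_disj hx hy hxy) (disjoint_empty_right _)
    (disjoint_empty_right _) (h.Cl_clq hy) hN hβ
  rw [sum_empty, show NE G (∅ : Finset V) = 0 from rfl] at h1
  push_cast at h1
  linarith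

/-- **BACK-LOAD in the frame, partial servers** -/
theorem PFrame.back_star (h : PFrame G r m t Z T) (hP : PG G r) {x y : V} (hx : x ∈ T)
    (hy : y ∈ T) (hxy : x ≠ y) {N : SimpleGraph V} (hN : SrvBy G N (MM G Z T hm x) (Cl G Z T y))
    {P : Finset V} (hPS : P ⊆ MM G Z T hm x) {L : V → Finset V}
    (hL : ∀ p ∈ P, L p ⊆ MM G Z T hm x) (hNL : ∀ p ∈ P, ∀ v ∈ L p, N.Adj p v)
    (hd : ∀ p ∈ P, ∀ q ∈ P, p ≠ q → Disjoint (L p) (L q)) (hPL : ∀ p ∈ P, Disjoint P (L p)) :
    2 * ((P.card : ℤ) - 1 - ((MM G Z T hm x).card - r)) * (Cl G Z T y).card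
      + 2 * ∑ p ∈ P, (nd G (Cl G Z T y) p : ℤ) * ((L p).card - 1)
      ≤ NE G (MM G Z T hm x) - 2 * ((r : ℤ) - 1) * ((MM G Z T hm x).card - r) := by
  have h1 := hP.back_star (Q := ∅) (PFrame.MM_Cl_disj hx hy hxy) (disjoint_empty_right _)
    (disjoint_empty_right _) (h.Cl_clq hy) hN hPS hL hNL hd hPL
  rw [sum_empty, show NE G (∅ : Finset V) = 0 from rfl] at h1
  push_cast at h1
  linarith

/-- one partial server `p` with home `x`: `b (n_p - 1 - w) ≤ M_x - R w` -/
theorem PFrame.back_one (h : PFrame G r m t Z T) (hP : PG G r) {x y : V} (hx : x ∈ T)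
    (hy : y ∈ T) (hxy : x ≠ y) {N : SimpleGraph V} (hN : SrvBy G N (MM G Z T hm x) (Cl G Z T y))
    {p : V} (hp : p ∈ MM G Z T hm x) :
    2 * (nd G (Cl G Z T y) p : ℤ) * ((dg N (MM G Z T hm x) p : ℤ) - 1
      - ((MM G Z T hm x).card - r))
      ≤ NE G (MM G Z T hm x) - 2 * ((r : ℤ) - 1) * ((MM G Z T hm x).card - r) :=
  hP.back_one (PFrame.MM_Cl_disj hx hy hxy) (h.Cl_clq hy) hN hp

end BackFrame

end Pool.Agent.Lib.MP_f04ccf_co
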