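import Mathlib.Tactic
import Mathlib.Data.ZMod.Basic
import Mathlib.Algebra.BigOperators.Group.Finset.Basic

/-!
# Tutte - Berge in the form needed for the energy of a host (helper3)

Matchings of a symmetric relation inside a finite set are involutions.  No components are used:
the labels are the classes of the relation 'no maximum matching misses both points'
(Gallai's lemma).
-/

namespace Pool.Agent.Lib.MP_f04ccf_co
namespace Bg

open Finset

variable {α : Type*} [DecidableEq α]

/-- `σ` is a matching of the relation `R` inside `S`, written as an involution -/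
structure Mt (R : α → α → Prop) (S : Finset α) (σ : α → α) : Prop where
  inv : ∀ v, σ (σ v) = v
  mem : ∀ v, σ v ≠ v → v ∈ S
  adj : ∀ v, σ v ≠ v → R v (σ v)

/-- the covered points -/
def cov (S : Finset α) (σ : α → α) : Finset α := S.filter fun v => σ v ≠ v

/-- maximum matchings -/
def IsMx (R : α → α → Prop) (S : Finset α) (σ : α → α) : Prop :=
  Mt R S σ ∧ ∀ τ, Mt R S τ → (cov S τ).card ≤ (cov S σ).card

variable {R : α → α → Prop} {S : Finset α}

theorem mem_cov {σ : α → α} {v : α} : v ∈ cov S σ ↔ v ∈ S ∧ σ v ≠ v := by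
  unfold cov
  rw [mem_filter]

theorem Mt.id : Mt R S (fun v => v) :=
  ⟨fun _ => rfl, fun _ h => absurd rfl h, fun _ h => absurd rfl h⟩

theorem Mt.mono {T : Finset α} {σ : α → α} (h : Mt R S σ) (hST : S ⊆ T) : Mt R T σ :=
  ⟨h.inv, fun v hv => hST (h.mem v hv), h.adj⟩

theorem Mt.ne {σ : α → α} (h : Mt R S σ) {v : α} (hv : σ v ≠ v) : σ (σ v) ≠ σ v := by
  rw [h.inv v]
  exact fun e => hv e.symm

theorem Mt.mem' {σ : α → α} (h : Mt R S σ) {v : α} (hv : σ v ≠ v) : σ v ∈ S :=
  h.mem _ (h.ne hv)

theorem Mt.inj {σ : α → α} (h : Mt R S σ) {u v : α} (huv : σ u = σ v) : u = v := by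
  rw [← h.inv u, huv, h.inv v]

/-- the number of covered points is even -/
theorem Mt.even {σ : α → α} (h : Mt R S σ) : Even (cov S σ).card := by
  have h1 : ∑ _v ∈ cov S σ, (1 : ZMod 2) = 0 := by
    refine Finset.sum_involution (fun v _ => σ v) ?_ ?_ ?_ ?_
    · intro v _
      decide
    · intro v hv _
      exact (mem_cov.1 hv).2
    · intro v hv
      have hv2 := (mem_cov.1 hv).2
      exact mem_cov.2 ⟨h.mem' hv2, h.ne hv2⟩
    · intro v _
      exact h.inv v
  rw [Finset.sum_const, nsmul_eq_mul, mul_one] at h1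
  exact even_iff_two_dvd.2 ((ZMod.natCast_eq_zero_iff _ 2).1 h1)

theorem exists_mx (R : α → α → Prop) (S : Finset α) : ∃ σ, IsMx R S σ := by
  classical
  have hb : ∀ σ : α → α, (cov S σ).card ≤ S.card := fun σ => card_filter_le _ _
  let P : ℕ → Prop := fun n => ∃ σ, Mt R S σ ∧ (cov S σ).card = n
  have hP0 : P (cov S (fun v : α => v)).card := ⟨_, Mt.id, rfl⟩
  have h1 := Nat.findGreatest_spec (P := P) (hb (fun v : α => v)) hP0
  obtain ⟨σ, hσ, hc⟩ := h1
  refine ⟨σ, hσ, fun τ hτ => ?_⟩
  rw [hc]
  exact Nat.le_findGreatest (hb τ) ⟨τ, hτ, rfl⟩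

theorem IsMx.card_eq {σ τ : α → α} (h1 : IsMx R S σ) (h2 : IsMx R S τ) :
    (cov S σ).card = (cov S τ).card :=
  le_antisymm (h2.2 _ h1.1) (h1.2 _ h2.1)

/-- adding an edge between two missed points -/
theorem Mt.add (hs : ∀ u v, R u v → R v u) {σ : α → α} (h : Mt R S σ) {u v : α}
    (hu : u ∈ S) (hv : v ∈ S) (huv : R u v) (hne : u ≠ v) (h1 : σ u = u) (h2 : σ v = v) :
    ∃ τ, Mt R S τ ∧ (cov S τ).card = (cov S σ).card + 2 := by
  refine ⟨fun w => if w = u then v else if w = v then u else σ w, ⟨?_, ?_, ?_⟩, ?_⟩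
  · intro w
    by_cases hw : w = u
    · simp only [hw, if_true, if_neg hne.symm]
    · by_cases hw2 : w = v
      · simp only [hw2, if_neg hne.symm, if_true]
      · have e1 : σ w ≠ u := fun e => hw (h.inj (e.trans h1.symm))
        have e2 : σ w ≠ v := fun e => hw2 (h.inj (e.trans h2.symm))
        simp only [if_neg hw, if_neg hw2, if_neg e1, if_neg e2]
        exact h.inv w
  · intro w hw
    by_cases hw1 : w = u
    · rw [hw1]
      exact hu
    · by_cases hw2 : w = v
      · rw [hw2]
        exact hv
      · simp only [if_neg hw1, if_neg hw2] at hw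
        exact h.mem w hw
  · intro w hw
    by_cases hw1 : w = u
    · simp only [hw1, if_true]
      exact huv
    · by_cases hw2 : w = v
      · simp only [hw2, if_neg hne.symm, if_true]
        exact hs _ _ huv
      · simp only [if_neg hw1, if_neg hw2] at hw ⊢
        exact h.adj w hw
  · have e : cov S (fun w => if w = u then v else if w = v then u else σ w) =
        insert u (insert v (cov S σ)) := by
      ext w
      rw [mem_cov, mem_insert, mem_insert, mem_cov]
      by_cases hw1 : w = u
      · simp only [hw1, if_true, true_or, iff_true]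
        exact ⟨hu, hne.symm⟩
      · by_cases hw2 : w = v
        · simp only [hw2, if_neg hne.symm, if_true, true_or, or_true, iff_true]
          exact ⟨hv, hne⟩
        · simp only [hw1, hw2, if_false, false_or]
    rw [e, card_insert_of_notMem, card_insert_of_notMem]
    · rw [mem_cov]
      exact fun hh => hh.2 h2
    · rw [mem_insert, mem_cov]
      rintro (hh | hh)
      · exact hne hh
      · exact hh.2 h1

/-- two adjacent points are not both missed by a maximum matching -/
theorem IsMx.not_adj (hs : ∀ u v, R u v → R v u) {σ : α → α} (h : IsMx R S σ) {u v : α}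
    (hu : u ∈ S) (hv : v ∈ S) (huv : R u v) (hne : u ≠ v) (h1 : σ u = u) : σ v ≠ v := by
  intro h2
  obtain ⟨τ, hτ, hc⟩ := h.1.add hs hu hv huv hne h1 h2
  have := h.2 τ hτ
  omega

/-- the two points are not both missed by a maximum matching -/
def Eqv (R : α → α → Prop) (S : Finset α) (u v : α) : Prop :=
  ∀ σ, IsMx R S σ → σ u = u → σ v ≠ v

/-- the common edges of two matchings -/
def com (S : Finset α) (σ τ : α → α) : Finset α := S.filter fun v => σ v = τ v ∧ σ v ≠ v

/-- exchange of an edge: `x` is missed by `τ`, `y = σ x`, `z = τ y` -/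
theorem Mt.exch (hs : ∀ u v, R u v → R v u) (hir : ∀ u, ¬ R u u) {σ τ : α → α}
    (hσ : Mt R S σ) (hτ : Mt R S τ) {x : α} (hx : σ x ≠ x) (hx' : τ x = x)
    (hy : τ (σ x) ≠ σ x) :
    ∃ τ', Mt R S τ' ∧ (cov S τ').card = (cov S τ).card ∧ (com S σ τ).card < (com S σ τ').card ∧
      ∀ t, τ t = t → t ≠ x → τ' t = t := by
  set y := σ x with hyd
  set z := τ y with hzd
  have hyx : y ≠ x := hx
  have hzy : z ≠ y := hy
  have hτz : τ z = y := hτ.inv y
  have hσy : σ y = x := hσ.inv x
  have hzx : z ≠ x := by
    intro e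
    rw [e, hx'] at hτz
    exact hyx hτz.symm
  have hxS : x ∈ S := hσ.mem x hx
  have hyS : y ∈ S := hσ.mem' hx
  have hzS : z ∈ S := hτ.mem' hy
  have hRxy : R x y := hσ.adj x hx
  let τ' : α → α := fun w => if w = x then y else if w = y then x else if w = z then z else τ w
  have t1 : τ' x = y := by simp only [τ', if_true]
  have t2 : τ' y = x := by simp only [τ', if_neg hyx, if_true]
  have t3 : τ' z = z := by simp only [τ', if_neg hzx, if_neg hzy, if_true]
  have t4 : ∀ w, w ≠ x → w ≠ y → w ≠ z → τ' w = τ w := by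
    intro w a b c
    simp only [τ', if_neg a, if_neg b, if_neg c]
  have n1 : ∀ w, w ≠ x → τ w ≠ x := fun w a e => a (hτ.inj (e.trans hx'.symm))
  have n2 : ∀ w, w ≠ z → τ w ≠ y := fun w a e => a (hτ.inj (e.trans hτz.symm))
  have n3 : ∀ w, w ≠ y → τ w ≠ z := fun w a e => a (hτ.inj e)
  have hmt : Mt R S τ' := by
    refine ⟨?_, ?_, ?_⟩
    · intro w
      by_cases a : w = x
      · rw [a, t1, t2]
      · by_cases b : w = y
        · rw [b, t2, t1]
        · by_cases c : w = z
          · rw [c, t3, t3]
          · rw [t4 w a b c, t4 (τ w) (n1 w a) (n2 w c) (n3 w b)]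
            exact hτ.inv w
    · intro w hw
      by_cases a : w = x
      · rw [a]; exact hxS
      · by_cases b : w = y
        · rw [b]; exact hyS
        · by_cases c : w = z
          · rw [c]; exact hzS
          · rw [t4 w a b c] at hw
            exact hτ.mem w hw
    · intro w hw
      by_cases a : w = x
      · rw [a, t1]; exact hRxy
      · by_cases b : w = y
        · rw [b, t2]; exact hs _ _ hRxy
        · by_cases c : w = z
          · rw [c, t3] at hw
            exact absurd rfl hw
          · rw [t4 w a b c] at hw ⊢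
            exact hτ.adj w hw
  refine ⟨τ', hmt, ?_, ?_, ?_⟩
  · have e : insert z (cov S τ') = insert x (cov S τ) := by
      ext w
      rw [mem_insert, mem_insert, mem_cov, mem_cov]
      by_cases a : w = x
      · rw [a, t1]
        simp only [true_or, iff_true]
        exact Or.inr ⟨hxS, hyx⟩
      · by_cases b : w = y
        · rw [b, t2]
          constructor
          · intro _
            exact Or.inr ⟨hyS, hzy⟩
          · intro _
            exact Or.inr ⟨hyS, hyx.symm⟩
        · by_cases c : w = z
          · rw [c, hτz]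
            simp only [true_or, true_iff]
            exact Or.inr ⟨hzS, hzy.symm⟩
          · rw [t4 w a b c]
            simp only [a, c, false_or]
    have c1 : (insert z (cov S τ')).card = (cov S τ').card + 1 := by
      rw [card_insert_of_notMem]
      rw [mem_cov]
      exact fun hh => hh.2 t3
    have c2 : (insert x (cov S τ)).card = (cov S τ).card + 1 := by
      rw [card_insert_of_notMem]
      rw [mem_cov]
      exact fun hh => hh.2 hx'
    rw [e, c2] at c1
    omega
  · refine card_lt_card (Finset.ssubset_iff_subset_ne.2 ⟨?_, ?_⟩)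
    · intro w hw
      unfold com at hw ⊢
      rw [mem_filter] at hw ⊢
      obtain ⟨hwS, h1, h2⟩ := hw
      have a : w ≠ x := by
        intro e
        rw [e, hx'] at h1
        exact hx h1
      have b : w ≠ y := by
        intro e
        rw [e, hσy] at h1
        exact hzx h1.symm
      have c : w ≠ z := by
        intro e
        rw [e, hτz] at h1
        have : σ z = σ x := h1
        exact hzx (hσ.inj this)
      exact ⟨hwS, by rw [t4 w a b c]; exact h1, h2⟩
    · intro e
      have hxm : x ∈ com S σ τ' := by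
        unfold com
        rw [mem_filter]
        exact ⟨hxS, t1.symm, hx⟩
      rw [← e] at hxm
      unfold com at hxm
      rw [mem_filter] at hxm
      rw [hx'] at hxm
      exact hx hxm.2.1
  · intro t ht htx
    by_cases b : t = y
    · rw [b] at ht
      exact absurd ht hy
    · by_cases c : t = z
      · rw [c, t3]
      · rw [t4 t htx b c]
        exact ht

/-- Gallai's lemma: the relation is transitive through points missed by a maximum matching -/
theorem gallai (hs : ∀ u v, R u v → R v u) (hir : ∀ u, ¬ R u u) {u v t : α} (hu : u ∈ S)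
    (hv : v ∈ S) (ht : t ∈ S) (huv : u ≠ v)
    (hmt : ∃ σ, IsMx R S σ ∧ σ t = t) (h1 : Eqv R S u t) (h2 : Eqv R S t v) :
    Eqv R S u v := by
  classical
  intro σ hσ hσu hσv
  -- a maximum matching missing t with the most common edges
  have hb : ∀ τ : α → α, (com S σ τ).card ≤ S.card := fun τ => card_filter_le _ _
  let P : ℕ → Prop := fun n => ∃ τ, IsMx R S τ ∧ τ t = t ∧ (com S σ τ).card = n
  obtain ⟨τ0, hτ0, hτ0t⟩ := hmt
  have hP0 : P (com S σ τ0).card := ⟨τ0, hτ0, hτ0t, rfl⟩
  obtain ⟨τ, hτ, hτt, hc⟩ := Nat.findGreatest_spec (P := P) (hb τ0) hP0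
  have hmax : ∀ τ', IsMx R S τ' → τ' t = t → (com S σ τ').card ≤ (com S σ τ).card := by
    intro τ' a b
    rw [hc]
    exact Nat.le_findGreatest (hb τ') ⟨τ', a, b, rfl⟩
  have hτu : τ u ≠ u := fun e => h1 τ hτ e hτt
  have hτv : τ v ≠ v := h2 τ hτ hτt
  have hσt : σ t ≠ t := h1 σ hσ hσu
  -- a second point covered by σ and missed by τ
  obtain ⟨x, hx, hxt⟩ : ∃ x ∈ cov S σ \ cov S τ, x ≠ t := by
    by_contra hcon'
    have hcon : ∀ x ∈ cov S σ \ cov S τ, x = t := by
      intro x hx
      by_contra hne
      exact hcon' ⟨x, hx, hne⟩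
    have e1 : (cov S σ \ cov S τ).card ≤ 1 := by
      rw [card_le_one]
      intro a ha b hb'
      rw [hcon a ha, hcon b hb']
    have e2 : 2 ≤ (cov S τ \ cov S σ).card := by
      have : ({u, v} : Finset α) ⊆ cov S τ \ cov S σ := by
        intro w hw
        rw [mem_insert, mem_singleton] at hw
        rw [mem_sdiff, mem_cov, mem_cov]
        rcases hw with rfl | rfl
        · exact ⟨⟨hu, hτu⟩, fun hh => hh.2 hσu⟩
        · exact ⟨⟨hv, hτv⟩, fun hh => hh.2 hσv⟩
      have h3 := card_le_card this
      rw [card_pair huv] at h3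
      exact h3
    have e3 := hσ.card_eq hτ
    have e4 := card_sdiff_add_card_inter (cov S σ) (cov S τ)
    have e5 := card_sdiff_add_card_inter (cov S τ) (cov S σ)
    rw [inter_comm] at e5
    omega
  rw [mem_sdiff, mem_cov, mem_cov] at hx
  obtain ⟨⟨hxS, hx1⟩, hx2⟩ := hx
  have hx3 : τ x = x := by
    by_contra hh
    exact hx2 ⟨hxS, hh⟩
  have hy : τ (σ x) ≠ σ x :=
    hτ.not_adj hs hxS (hσ.1.mem' hx1) (hσ.1.adj x hx1) (fun e => hx1 e.symm) hx3
  obtain ⟨τ', a1, a2, a3, a4⟩ := hσ.1.exch hs hir hτ.1 hx1 hx3 hy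
  have hτ' : IsMx R S τ' := ⟨a1, fun ρ hρ => by rw [a2]; exact hτ.2 ρ hρ⟩
  have := hmax τ' hτ' (a4 t hτt hxt.symm)
  omega

/-- a matching of `S` which misses `v` is a matching of `S.erase v` -/
theorem Mt.erase {σ : α → α} (h : Mt R S σ) {v : α} (hv : σ v = v) : Mt R (S.erase v) σ :=
  ⟨h.inv, fun w hw => mem_erase.2 ⟨fun e => hw (by rw [e]; exact hv), h.mem w hw⟩, h.adj⟩

theorem Mt.fix {σ : α → α} (h : Mt R S σ) {v : α} (hv : v ∉ S) : σ v = v := by
  by_contra hne
  exact hv (h.mem v hne)

theorem cov_erase {σ : α → α} {v : α} (hv : σ v = v) : cov (S.erase v) σ = cov S σ := by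
  ext w
  rw [mem_cov, mem_cov, mem_erase]
  constructor
  · rintro ⟨⟨_, h1⟩, h2⟩
    exact ⟨h1, h2⟩
  · rintro ⟨h1, h2⟩
    exact ⟨⟨fun e => h2 (by rw [e]; exact hv), h1⟩, h2⟩

/-- **Tutte - Berge**: a barrier `A` and labels of the other points such that the relation keeps
the labels; `(cov S σ).card = 2 ν`. -/
theorem berge (hs : ∀ u v, R u v → R v u) (hir : ∀ u, ¬ R u u) :
    ∀ (n : ℕ) (S : Finset α), S.card = n → ∀ σ, IsMx R S σ →
      ∃ A ⊆ S, ∃ lb : α → α, (∀ u ∈ S \ A, ∀ v ∈ S \ A, R u v → lb u = lb v) ∧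
        2 * A.card + (S \ A).card ≤ (cov S σ).card + ((S \ A).image lb).card := by
  classical
  intro n
  induction n with
  | zero =>
    intro S hS σ _
    have hS0 : S = ∅ := card_eq_zero.1 hS
    refine ⟨∅, empty_subset _, fun v => v, ?_, ?_⟩
    · intro u hu
      rw [hS0] at hu
      simp at hu
    · rw [hS0]
      simp
  | succ n ih =>
    intro S hS σ hσ
    by_cases hall : ∀ t ∈ S, ∃ τ, IsMx R S τ ∧ τ t = t
    · -- every point is missed by a maximum matching
      let E : Setoid α :=
        { r := fun u v => u = v ∨ (u ∈ S ∧ v ∈ S ∧ Eqv R S u v)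
          iseqv := by
            refine ⟨fun u => Or.inl rfl, ?_, ?_⟩
            · rintro u v (h | ⟨h1, h2, h3⟩)
              · exact Or.inl h.symm
              · exact Or.inr ⟨h2, h1, fun τ hτ a b => h3 τ hτ b a⟩
            · rintro u t v (h | ⟨h1, h2, h3⟩) (h' | ⟨h4, h5, h6⟩)
              · exact Or.inl (h.trans h')
              · rw [h]
                exact Or.inr ⟨h4, h5, h6⟩
              · rw [← h']
                exact Or.inr ⟨h1, h2, h3⟩
              · by_cases huv : u = v
                · exact Or.inl huv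
                · exact Or.inr ⟨h1, h5, gallai hs hir h1 h5 h2 huv (hall t h2) h3 h6⟩ }
      refine ⟨∅, empty_subset _, fun v => (Quotient.mk E v).out, ?_, ?_⟩
      · intro u hu v hv huv
        rw [sdiff_empty] at hu hv
        have h1 : (Quotient.mk E u) = (Quotient.mk E v) := by
          refine Quotient.sound (s := E) ?_
          by_cases hne : u = v
          · exact Or.inl hne
          · exact Or.inr ⟨hu, hv, fun τ hτ a => hτ.not_adj hs hu hv huv hne a⟩
        show (Quotient.mk E u).out = (Quotient.mk E v).out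
        rw [h1]
      · rw [sdiff_empty, card_empty, mul_zero, zero_add]
        have h1 : (S.filter fun v => ¬ σ v ≠ v).card ≤
            (S.image fun v => (Quotient.mk E v).out).card := by
          refine card_le_card_of_injOn (fun v => (Quotient.mk E v).out) ?_ ?_
          · intro v hv
            rw [mem_coe, mem_filter] at hv
            exact mem_coe.2 (mem_image.2 ⟨v, hv.1, rfl⟩)
          · intro u hu v hv huv
            rw [mem_coe, mem_filter, not_not] at hu hv
            have h2 : Quotient.mk E u = Quotient.mk E v := Quotient.out_injective huv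
            have h3 : u = v ∨ (u ∈ S ∧ v ∈ S ∧ Eqv R S u v) := Quotient.exact h2
            rcases h3 with h3 | ⟨_, _, h3⟩
            · exact h3
            · exact absurd hv.2 (h3 σ hσ hu.2)
        have h2 := card_filter_add_card_filter_not (s := S) (fun v => σ v ≠ v)
        unfold cov
        omega
    · -- a point covered by every maximum matching
      have hall' : ∃ t ∈ S, ∀ τ, IsMx R S τ → τ t ≠ t := by
        by_contra hcon
        refine hall fun t ht => ?_
        by_contra h2
        exact hcon ⟨t, ht, fun τ hτ e => h2 ⟨τ, hτ, e⟩⟩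
      obtain ⟨t, ht, hcovt⟩ := hall'
      obtain ⟨τ, hτ⟩ := exists_mx R (S.erase t)
      have hτt : τ t = t := hτ.1.fix (notMem_erase t S)
      have hτS : Mt R S τ := hτ.1.mono (erase_subset _ _)
      have hlt : (cov (S.erase t) τ).card + 2 ≤ (cov S σ).card := by
        have h1 : (cov S τ).card ≤ (cov S σ).card := hσ.2 τ hτS
        rw [cov_erase hτt]
        have h2 : (cov S τ).card ≠ (cov S σ).card := by
          intro e
          exact hcovt τ ⟨hτS, fun ρ hρ => by rw [e]; exact hσ.2 ρ hρ⟩ hτt
        have h3 := hτS.even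
        have h4 := hσ.1.even
        obtain ⟨a, ha⟩ := h3
        obtain ⟨b, hb⟩ := h4
        omega
      have hcard : (S.erase t).card = n := by
        rw [card_erase_of_mem ht, hS]
        rfl
      obtain ⟨A, hA, lb, h1, h2⟩ := ih (S.erase t) hcard τ hτ
      have htA : t ∉ A := fun h => notMem_erase t S (hA h)
      have hsd : S \ insert t A = (S.erase t) \ A := by
        ext w
        simp only [mem_sdiff, mem_insert, mem_erase, not_or]
        tauto
      refine ⟨insert t A, ?_, lb, ?_, ?_⟩
      · intro w hw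
        rcases mem_insert.1 hw with rfl | hw
        · exact ht
        · exact mem_of_mem_erase (hA hw)
      · rw [hsd]
        exact h1
      · rw [hsd, card_insert_of_notMem htA]
        omega

/-- ordered adjacent pairs inside a set -/
def EE (R : α → α → Prop) [DecidableRel R] (S : Finset α) : ℕ :=
  ∑ u ∈ S, (S.filter fun v => R u v).card

/-- sizes of the label classes: `∑ k (k - 1) ≤ D (D + 1)` -/
theorem classes_le {β : Type*} [DecidableEq β] (T : Finset α) (lb : α → β) (D : ℕ)
    (h : T.card ≤ D + (T.image lb).card) :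
    ∑ u ∈ T, ((T.filter fun v => lb u = lb v).card - 1) ≤ D * (D + 1) := by
  classical
  have h1 : T.card = ∑ l ∈ T.image lb, (T.filter fun v => lb v = l).card :=
    card_eq_sum_card_image lb T
  have hpos : ∀ l ∈ T.image lb, 1 ≤ (T.filter fun v => lb v = l).card := by
    intro l hl
    obtain ⟨v, hv, rfl⟩ := mem_image.1 hl
    exact card_pos.2 ⟨v, mem_filter.2 ⟨hv, rfl⟩⟩
  have h2 : ∑ l ∈ T.image lb, ((T.filter fun v => lb v = l).card - 1) ≤ D := by
    have h3 : ∑ l ∈ T.image lb, ((T.filter fun v => lb v = l).card - 1) + (T.image lb).card =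
        T.card := by
      rw [h1, card_eq_sum_ones, ← sum_add_distrib]
      exact sum_congr rfl fun l hl => Nat.sub_add_cancel (hpos l hl)
    omega
  have h4 : ∑ u ∈ T, ((T.filter fun v => lb u = lb v).card - 1) =
      ∑ l ∈ T.image lb, (T.filter fun v => lb v = l).card *
        ((T.filter fun v => lb v = l).card - 1) := by
    have e0 : ∀ u ∈ T, (T.filter fun v => lb u = lb v) = T.filter fun v => lb v = lb u := by
      intro u _
      exact filter_congr fun v _ => eq_comm
    rw [sum_congr rfl fun u hu => by rw [e0 u hu]]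
    rw [← sum_fiberwise_of_maps_to (s := T) (t := T.image lb) (g := lb)
      (fun u hu => mem_image_of_mem lb hu)]
    refine sum_congr rfl fun l _ => ?_
    rw [sum_congr rfl (g := fun _ => ((T.filter fun v => lb v = l).card - 1)) ?_]
    · rw [sum_const, smul_eq_mul]
    · intro u hu
      rw [(mem_filter.1 hu).2]
  rw [h4]
  calc ∑ l ∈ T.image lb, (T.filter fun v => lb v = l).card *
        ((T.filter fun v => lb v = l).card - 1)
      ≤ ∑ l ∈ T.image lb, (D + 1) * ((T.filter fun v => lb v = l).card - 1) := by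
        refine sum_le_sum fun l hl => Nat.mul_le_mul_right _ ?_
        have h5 : (T.filter fun v => lb v = l).card - 1 ≤ D :=
          le_trans (single_le_sum (f := fun l => (T.filter fun v => lb v = l).card - 1)
            (fun _ _ => Nat.zero_le _) hl) h2
        omega
    _ = (D + 1) * ∑ l ∈ T.image lb, ((T.filter fun v => lb v = l).card - 1) := by
        rw [mul_sum]
    _ ≤ (D + 1) * D := Nat.mul_le_mul_left _ h2
    _ = D * (D + 1) := Nat.mul_comm _ _

/-- ordered pairs: barrier and labels -/
theorem EE_le [DecidableRel R] (hs : ∀ u v, R u v → R v u) (hir : ∀ u, ¬ R u u)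
    {A : Finset α} (hA : A ⊆ S) {β : Type*} [DecidableEq β] (lb : α → β)
    (hlb : ∀ u ∈ S \ A, ∀ v ∈ S \ A, R u v → lb u = lb v) :
    EE R S ≤ EE R A + 2 * ∑ u ∈ A, ((S \ A).filter fun v => R u v).card +
      ∑ u ∈ S \ A, (((S \ A).filter fun v => lb u = lb v).card - 1) := by
  classical
  have hsplit : ∀ (f : α → ℕ), ∑ u ∈ S, f u = ∑ u ∈ A, f u + ∑ u ∈ S \ A, f u := by
    intro f
    rw [← sum_sdiff hA, add_comm]
  have hc : ∀ u, (S.filter fun v => R u v).card =
      (A.filter fun v => R u v).card + ((S \ A).filter fun v => R u v).card := by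
    intro u
    rw [card_filter, card_filter, card_filter]
    exact hsplit _
  have hsw : ∑ u ∈ S \ A, (A.filter fun v => R u v).card =
      ∑ u ∈ A, ((S \ A).filter fun v => R u v).card := by
    simp only [card_filter]
    rw [sum_comm]
    refine sum_congr rfl fun u _ => sum_congr rfl fun v _ => ?_
    by_cases h : R v u
    · rw [if_pos h, if_pos (hs _ _ h)]
    · rw [if_neg h, if_neg fun hh => h (hs _ _ hh)]
  have hin : ∑ u ∈ S \ A, ((S \ A).filter fun v => R u v).card ≤
      ∑ u ∈ S \ A, (((S \ A).filter fun v => lb u = lb v).card - 1) := by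
    refine sum_le_sum fun u hu => ?_
    have h1 : ((S \ A).filter fun v => R u v) ⊆
        ((S \ A).filter fun v => lb u = lb v).erase u := by
      intro v hv
      rw [mem_filter] at hv
      rw [mem_erase, mem_filter]
      refine ⟨fun e => hir u ?_, hv.1, hlb u hu v hv.1 hv.2⟩
      have h0 := hv.2
      rwa [e] at h0
    have h2 := card_le_card h1
    have h3 : u ∈ (S \ A).filter fun v => lb u = lb v := mem_filter.2 ⟨hu, rfl⟩
    rw [card_erase_of_mem h3] at h2
    exact h2
  unfold EE
  rw [hsplit, sum_congr rfl fun u _ => hc u, sum_add_distrib,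
    sum_congr (s₁ := S \ A) rfl fun u _ => hc u, sum_add_distrib, hsw]
  omega

/-- **the energy of a set with a given matching number** (Erdos - Gallai with a free barrier
size): `2 e ≤ a (a - 1) + 2 a (h - a) + 2 (ν - a) (2 (ν - a) + 1)` for some `a ≤ ν`. -/
theorem eg_energy [DecidableRel R] (hs : ∀ u v, R u v → R v u) (hir : ∀ u, ¬ R u u)
    {σ : α → α} (hσ : IsMx R S σ) {ν : ℕ} (hν : (cov S σ).card = 2 * ν) :
    ∃ a ≤ ν, EE R S ≤ a * (a - 1) + 2 * (a * (S.card - a)) +
      (2 * (ν - a)) * (2 * (ν - a) + 1) := by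
  classical
  obtain ⟨A, hA, lb, h1, h2⟩ := berge hs hir S.card S rfl σ hσ
  have hcA : A.card ≤ S.card := card_le_card hA
  have hsd : (S \ A).card = S.card - A.card := card_sdiff_of_subset hA
  have him : ((S \ A).image lb).card ≤ (S \ A).card := card_image_le
  have ha : A.card ≤ ν := by omega
  refine ⟨A.card, ha, ?_⟩
  have h3 := EE_le hs hir hA lb h1
  have h4 : ∑ u ∈ S \ A, (((S \ A).filter fun v => lb u = lb v).card - 1) ≤
      (2 * (ν - A.card)) * (2 * (ν - A.card) + 1) := by
    refine classes_le (S \ A) lb (2 * (ν - A.card)) ?_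
    omega
  have h5 : EE R A ≤ A.card * (A.card - 1) := by
    unfold EE
    rw [← smul_eq_mul, ← sum_const]
    refine sum_le_sum fun u hu => ?_
    have : (A.filter fun v => R u v) ⊆ A.erase u := by
      intro v hv
      rw [mem_filter] at hv
      rw [mem_erase]
      refine ⟨fun e => hir u ?_, hv.1⟩
      have := hv.2
      rwa [e] at this
    have h6 := card_le_card this
    rwa [card_erase_of_mem hu] at h6
  have h6 : ∑ u ∈ A, ((S \ A).filter fun v => R u v).card ≤ A.card * (S.card - A.card) := by
    rw [← smul_eq_mul, ← sum_const]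
    refine sum_le_sum fun u _ => ?_
    rw [← hsd]
    exact card_filter_le _ _
  omega

/-- the two extreme forms -/
theorem eg_max {h ν a : ℕ} (ha : a ≤ ν) (h2 : 2 * ν ≤ h) :
    (a : ℤ) * (a - 1) + 2 * (a * (h - a)) + (2 * (ν - a)) * (2 * (ν - a) + 1) ≤
      max ((ν : ℤ) * (ν - 1) + 2 * (ν * (h - ν))) ((2 * ν) * (2 * ν + 1)) := by
  have ha' : (a : ℤ) ≤ ν := by exact_mod_cast ha
  have ha0 : (0 : ℤ) ≤ a := by positivity
  by_cases hc : (5 * (ν : ℤ) + 3) ≤ 2 * h + 3 * a
  · refine le_trans ?_ (le_max_left _ _)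
    nlinarith
  · refine le_trans ?_ (le_max_right _ _)
    nlinarith

end Bg
end Pool.Agent.Lib.MP_f04ccf_co
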