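import Mathlib

/-!
MP_f04ccf_co: polynomial inequalities on boxes by a kernel check, the packed version.
All the Bernstein coefficients of a polynomial are the digits (`K` bits each) of ONE natural number;
halving the box in a variable of degree `n` costs about `10 n` operations on big numbers, the test of
the signs is one `land`.
`BernK.run K d bx gs t = true` (by `decide +kernel`) gives `BernK.no_point`: no real point `r` of the box
`lo / den ≤ r k ≤ hi / den`, `bx = [(lo, hi, den), ..]`, satisfies `0 ≤ g.ev r` for all `(g, bias)` in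
`gs`.  `g : Ex` are expressions (naturals, variables, `add`, `sub`, `mul`), the bias is any number with
`|coefficients| ≤ bias` in Bernstein form on the box, `t : Tr` is the tree of the halvings, its leaves
`neg i` say that the polynomial `i` is negative there.
-/

set_option autoImplicit false

namespace Pool.Agent.Lib.MP_f04ccf_co.BernK

open Finset

/-! ### packed numbers -/

/-- the number with the digits `c` in base `B` -/
def pk (B L : ℕ) (c : ℕ → ℕ) : ℕ := ∑ i ∈ range L, c i * B ^ i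

lemma pk_succ' (B L : ℕ) (c : ℕ → ℕ) :
    pk B (L + 1) c = c 0 + B * pk B L (fun i => c (i + 1)) := by
  unfold pk
  rw [sum_range_succ', mul_sum]
  simp only [pow_zero, mul_one]
  rw [add_comm]
  congr 1
  apply sum_congr rfl
  intro i _
  rw [pow_succ]
  ring

lemma pk_congr {B L : ℕ} {c d : ℕ → ℕ} (h : ∀ i < L, c i = d i) : pk B L c = pk B L d := by
  unfold pk
  apply sum_congr rfl
  intro i hi
  rw [h i (mem_range.1 hi)]

lemma pk_lt {B : ℕ} : ∀ (L : ℕ) (c : ℕ → ℕ), (∀ i < L, c i < B) → pk B L c < B ^ L := by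
  intro L
  induction L with
  | zero => intro c _; simp [pk]
  | succ L ih =>
    intro c hc
    have h1 : pk B (L + 1) c = pk B L c + c L * B ^ L := by
      unfold pk
      rw [sum_range_succ]
    have h2 := ih c (fun i hi => hc i (by omega))
    have h3 : c L + 1 ≤ B := hc L (by omega)
    have h4 : (c L + 1) * B ^ L ≤ B * B ^ L := Nat.mul_le_mul_right _ h3
    rw [h1, pow_succ]
    calc pk B L c + c L * B ^ L < B ^ L + c L * B ^ L := by omega
      _ = (c L + 1) * B ^ L := by ring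
      _ ≤ B * B ^ L := h4
      _ = B ^ L * B := by ring

lemma pk_add (B L : ℕ) (c d : ℕ → ℕ) : pk B L (fun i => c i + d i) = pk B L c + pk B L d := by
  unfold pk
  rw [← sum_add_distrib]
  apply sum_congr rfl
  intro i _
  ring

lemma pk_smul (B L a : ℕ) (c : ℕ → ℕ) : pk B L (fun i => a * c i) = a * pk B L c := by
  unfold pk
  rw [mul_sum]
  apply sum_congr rfl
  intro i _
  ring

lemma pk_split (B s m : ℕ) (c : ℕ → ℕ) :
    pk B (s + m) c = pk B s c + B ^ s * pk B m (fun i => c (i + s)) := by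
  induction m with
  | zero => simp [pk]
  | succ m ih =>
    have h1 : pk B (s + (m + 1)) c = pk B (s + m) c + c (s + m) * B ^ (s + m) := by
      unfold pk
      rw [← add_assoc, sum_range_succ]
    have h2 : pk B (m + 1) (fun i => c (i + s)) = pk B m (fun i => c (i + s)) + c (m + s) * B ^ m := by
      unfold pk
      rw [sum_range_succ]
    rw [h1, h2, ih, pow_add, add_comm m s]
    ring

/-- extension beyond the length -/
lemma pk_ext {B L : ℕ} {c : ℕ → ℕ} (h : ∀ i, L ≤ i → c i = 0) (m : ℕ) : pk B (L + m) c = pk B L c := by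
  rw [pk_split]
  have h1 : pk B m (fun i => c (i + L)) = 0 := by
    unfold pk
    apply sum_eq_zero
    intro i _
    show c (i + L) * B ^ i = 0
    rw [h (i + L) (by omega), zero_mul]
  rw [h1, mul_zero, add_zero]

lemma pk_div {B L : ℕ} (hB : 0 < B) {c : ℕ → ℕ} (hc : ∀ i, c i < B) (h0 : ∀ i, L ≤ i → c i = 0)
    (s : ℕ) : pk B L c / B ^ s = pk B L (fun i => c (i + s)) := by
  rw [← pk_ext h0 s, add_comm, pk_split]
  rw [Nat.add_mul_div_left _ _ (pow_pos hB s), Nat.div_eq_of_lt (pk_lt s c fun i _ => hc i), zero_add]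

lemma and_add (K a b a' b' : ℕ) (ha : a < 2 ^ K) (ha' : a' < 2 ^ K) :
    (a + 2 ^ K * b) &&& (a' + 2 ^ K * b') = (a &&& a') + 2 ^ K * (b &&& b') := by
  apply Nat.eq_of_testBit_eq
  intro j
  rw [Nat.testBit_and, add_comm a, add_comm a', add_comm (a &&& a'),
    Nat.testBit_two_pow_mul_add _ ha, Nat.testBit_two_pow_mul_add _ ha',
    Nat.testBit_two_pow_mul_add _ (Nat.and_lt_two_pow _ ha')]
  by_cases hj : j < K
  · simp [hj, Nat.testBit_and]
  · simp [hj, Nat.testBit_and]

lemma pk_land (K : ℕ) : ∀ (L : ℕ) (c m : ℕ → ℕ), (∀ i < L, c i < 2 ^ K) → (∀ i < L, m i < 2 ^ K) →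
    pk (2 ^ K) L c &&& pk (2 ^ K) L m = pk (2 ^ K) L (fun i => c i &&& m i) := by
  intro L
  induction L with
  | zero => intro c m _ _; simp [pk]
  | succ L ih =>
    intro c m hc hm
    rw [pk_succ', pk_succ', pk_succ', and_add K _ _ _ _ (hc 0 (by omega)) (hm 0 (by omega)),
      ih (fun i => c (i + 1)) (fun i => m (i + 1)) (fun i hi => hc (i + 1) (by omega))
        (fun i hi => hm (i + 1) (by omega))]

lemma pk_inj {B : ℕ} : ∀ (L : ℕ) (a b : ℕ → ℕ), (∀ i < L, a i < B) → (∀ i < L, b i < B) →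
    pk B L a = pk B L b → ∀ i < L, a i = b i := by
  intro L
  induction L with
  | zero => intro a b _ _ _ i hi; omega
  | succ L ih =>
    intro a b ha hb h i hi
    have hB : 0 < B := lt_of_le_of_lt (Nat.zero_le _) (ha 0 (by omega))
    rw [pk_succ', pk_succ'] at h
    have h0 : a 0 = b 0 := by
      have h1 := congrArg (fun z => z % B) h
      simp only [Nat.add_mul_mod_self_left] at h1
      rwa [Nat.mod_eq_of_lt (ha 0 (by omega)), Nat.mod_eq_of_lt (hb 0 (by omega))] at h1
    have h2 : pk B L (fun i => a (i + 1)) = pk B L (fun i => b (i + 1)) := by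
      rw [h0] at h
      exact Nat.eq_of_mul_eq_mul_left hB (by omega)
    rcases i with _ | i
    · exact h0
    · exact ih (fun i => a (i + 1)) (fun i => b (i + 1)) (fun i hi => ha (i + 1) (by omega))
        (fun i hi => hb (i + 1) (by omega)) h2 i (by omega)

/-- the digitwise comparison by one `land` -/
lemma pk_le {K L : ℕ} (hK : 0 < K) {a b : ℕ → ℕ} (ha : ∀ i < L, a i < 2 ^ (K - 1))
    (hb : ∀ i < L, b i < 2 ^ (K - 1))
    (h : (pk (2 ^ K) L b + pk (2 ^ K) L (fun _ => 2 ^ (K - 1)) - pk (2 ^ K) L a)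
      &&& pk (2 ^ K) L (fun _ => 2 ^ (K - 1)) = pk (2 ^ K) L (fun _ => 2 ^ (K - 1))) :
    ∀ i < L, a i ≤ b i := by
  have hT : 2 ^ (K - 1) * 2 = 2 ^ K := by
    rw [← pow_succ]; congr 1; omega
  have h1 : pk (2 ^ K) L b + pk (2 ^ K) L (fun _ => 2 ^ (K - 1)) - pk (2 ^ K) L a
      = pk (2 ^ K) L (fun i => b i + 2 ^ (K - 1) - a i) := by
    have h2 : pk (2 ^ K) L (fun i => b i + 2 ^ (K - 1) - a i) + pk (2 ^ K) L a
        = pk (2 ^ K) L b + pk (2 ^ K) L (fun _ => 2 ^ (K - 1)) := by
      rw [← pk_add, ← pk_add]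
      apply pk_congr
      intro i hi
      have := ha i hi
      show b i + 2 ^ (K - 1) - a i + a i = b i + 2 ^ (K - 1)
      omega
    omega
  rw [h1, pk_land K L _ _ (fun i hi => by
      have := hb i hi
      show b i + 2 ^ (K - 1) - a i < 2 ^ K
      omega) (fun i hi => by
      show 2 ^ (K - 1) < 2 ^ K
      have : 0 < 2 ^ (K - 1) := by positivity
      omega)] at h
  have h3 := pk_inj L _ _ (fun i hi => by
      have h4 : (b i + 2 ^ (K - 1) - a i) &&& 2 ^ (K - 1) ≤ 2 ^ (K - 1) := Nat.and_le_right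
      have : 0 < 2 ^ (K - 1) := by positivity
      show (b i + 2 ^ (K - 1) - a i) &&& 2 ^ (K - 1) < 2 ^ K
      omega) (fun i hi => by
      show 2 ^ (K - 1) < 2 ^ K
      have : 0 < 2 ^ (K - 1) := by positivity
      omega) h
  intro i hi
  have h5 : (b i + 2 ^ (K - 1) - a i) &&& 2 ^ (K - 1) ≤ b i + 2 ^ (K - 1) - a i := Nat.and_le_left
  have h6 : (b i + 2 ^ (K - 1) - a i) &&& 2 ^ (K - 1) = 2 ^ (K - 1) := h3 i hi
  have := ha i hi
  omega

/-! ### shifts -/

/-- the array moved by `s` places -/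
def shf (s : ℕ) (c : ℕ → ℕ) : ℕ → ℕ := fun i => if i < s then 0 else c (i - s)

lemma sum_shf {R : Type*} [CommSemiring R] (L s : ℕ) (c : ℕ → ℕ) (h : ∀ i, c i ≠ 0 → i + s < L)
    (F : ℕ → R) :
    ∑ i ∈ range L, ((shf s c i : ℕ) : R) * F i = ∑ i ∈ range L, (c i : R) * F (i + s) := by
  by_cases hs : s ≤ L
  · obtain ⟨m, rfl⟩ := Nat.exists_eq_add_of_le hs
    have h1 : ∑ i ∈ range (s + m), ((shf s c i : ℕ) : R) * F i
        = ∑ i ∈ range m, (c i : R) * F (i + s) := by
      rw [sum_range_add]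
      have h2 : ∑ i ∈ range s, ((shf s c i : ℕ) : R) * F i = 0 := by
        apply sum_eq_zero
        intro i hi
        simp [shf, mem_range.1 hi]
      rw [h2, zero_add]
      apply sum_congr rfl
      intro i _
      simp [shf, add_comm s i]
    have h3 : ∑ i ∈ range (m + s), (c i : R) * F (i + s) = ∑ i ∈ range m, (c i : R) * F (i + s) := by
      rw [sum_range_add]
      have h2 : ∑ i ∈ range s, (c (m + i) : R) * F (m + i + s) = 0 := by
        apply sum_eq_zero
        intro i _
        have h4 : c (m + i) = 0 := by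
          by_contra h5
          have := h _ h5
          omega
        simp [h4]
      rw [h2, add_zero]
    rw [h1, add_comm s m, h3]
  · have hc : ∀ i, c i = 0 := by
      intro i
      by_contra h5
      have := h _ h5
      omega
    have h1 : ∀ i, shf s c i = 0 := by
      intro i
      unfold shf
      split_ifs
      · rfl
      · exact hc _
    simp [h1, hc]

lemma pk_shf (B L s : ℕ) (c : ℕ → ℕ) (h : ∀ i, c i ≠ 0 → i + s < L) :
    pk B L (shf s c) = pk B L c * B ^ s := by
  unfold pk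
  have h1 := sum_shf (R := ℕ) L s c h (fun i => B ^ i)
  simp only [Nat.cast_id] at h1
  rw [h1, sum_mul]
  apply sum_congr rfl
  intro i _
  rw [pow_add]
  ring

/-! ### the layout -/

/-- the strides of the variables of degrees `n` -/
def st (n : ℕ → ℕ) : ℕ → ℕ
  | 0 => 1
  | k + 1 => st n k * (n k + 1)

/-- the exponent of the variable `k` at the place `i` -/
def J (n : ℕ → ℕ) (k i : ℕ) : ℕ := i / st n k % (n k + 1)

lemma st_pos (n : ℕ → ℕ) (k : ℕ) : 0 < st n k := by
  induction k with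
  | zero => exact Nat.one_pos
  | succ k ih => exact Nat.mul_pos ih (Nat.succ_pos _)

lemma J_le (n : ℕ → ℕ) (k i : ℕ) : J n k i ≤ n k := by
  have := Nat.mod_lt (i / st n k) (Nat.succ_pos (n k))
  exact Nat.lt_succ_iff.1 this

lemma mod_st (n : ℕ → ℕ) (k i : ℕ) : i % st n (k + 1) = i % st n k + st n k * J n k i := by
  show i % (st n k * (n k + 1)) = _
  rw [Nat.mod_mul]
  rfl

/-- no carry -/
lemma nocarry (n : ℕ → ℕ) (a b : ℕ) : ∀ d, (∀ k < d, J n k a + J n k b ≤ n k) →
    a % st n d + b % st n d < st n d := by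
  intro d
  induction d with
  | zero => intro _; simp [st, Nat.mod_one]
  | succ d ih =>
    intro h
    have h1 := ih (fun k hk => h k (by omega))
    have h2 := h d (by omega)
    rw [mod_st, mod_st]
    show _ < st n d * (n d + 1)
    have h3 : st n d * (J n d a + J n d b) ≤ st n d * n d := Nat.mul_le_mul_left _ h2
    have h4 : st n d * (J n d a + J n d b) = st n d * J n d a + st n d * J n d b := by ring
    have h5 : st n d * (n d + 1) = st n d * n d + st n d := by ring
    omega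

lemma J_add (n : ℕ → ℕ) (d a b : ℕ) (h : ∀ k < d, J n k a + J n k b ≤ n k) :
    ∀ k < d, J n k (a + b) = J n k a + J n k b := by
  intro k hk
  have h1 := nocarry n a b k (fun l hl => h l (by omega))
  have h2 : (a + b) / st n k = a / st n k + b / st n k := by
    rw [Nat.add_div (st_pos n k), if_neg (by omega), add_zero]
  show (a + b) / st n k % (n k + 1) = _
  rw [h2, Nat.add_mod_of_add_mod_lt]
  · rfl
  · exact Nat.lt_succ_iff.2 (h k hk)

lemma add_lt_st (n : ℕ → ℕ) (d a b : ℕ) (ha : a < st n d) (hb : b < st n d)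
    (h : ∀ k < d, J n k a + J n k b ≤ n k) : a + b < st n d := by
  have h1 := nocarry n a b d h
  rwa [Nat.mod_eq_of_lt ha, Nat.mod_eq_of_lt hb] at h1

lemma st_dvd (n : ℕ → ℕ) {k l : ℕ} (h : k < l) : ∃ m, st n l = st n k * ((n k + 1) * m) := by
  induction l with
  | zero => omega
  | succ l ih =>
    by_cases hk : k = l
    · subst hk
      exact ⟨1, by show st n k * (n k + 1) = _; ring⟩
    · obtain ⟨m, hm⟩ := ih (by omega)
      exact ⟨m * (n l + 1), by show st n l * (n l + 1) = _; rw [hm]; ring⟩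

lemma J_mul_self (n : ℕ → ℕ) (k j : ℕ) (hj : j ≤ n k) : J n k (j * st n k) = j := by
  show j * st n k / st n k % (n k + 1) = j
  rw [Nat.mul_div_cancel _ (st_pos n k), Nat.mod_eq_of_lt (by omega)]

lemma J_mul_ne (n : ℕ → ℕ) {k l : ℕ} (j : ℕ) (hj : j ≤ n k) (h : l ≠ k) : J n l (j * st n k) = 0 := by
  show j * st n k / st n l % (n l + 1) = 0
  rcases lt_or_gt_of_ne h with h1 | h1
  · obtain ⟨m, hm⟩ := st_dvd n h1
    rw [hm, show j * (st n l * ((n l + 1) * m)) = st n l * ((n l + 1) * (j * m)) by ring,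
      Nat.mul_div_cancel_left _ (st_pos n l), Nat.mul_mod_right]
  · obtain ⟨m, hm⟩ := st_dvd n h1
    have hm0 : 0 < m := by
      rcases Nat.eq_zero_or_pos m with h2 | h2
      · have := st_pos n l
        rw [hm, h2] at this
        simp at this
      · exact h2
    have h3 : j * st n k < st n l := by
      rw [hm]
      have h4 : j * st n k < (n k + 1) * st n k := Nat.mul_lt_mul_of_pos_right (by omega) (st_pos n k)
      have h5 : st n k * ((n k + 1) * 1) ≤ st n k * ((n k + 1) * m) :=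
        Nat.mul_le_mul_left _ (Nat.mul_le_mul_left _ hm0)
      calc j * st n k < (n k + 1) * st n k := h4
        _ = st n k * ((n k + 1) * 1) := by ring
        _ ≤ _ := h5
    rw [Nat.div_eq_of_lt h3, Nat.zero_mod]

lemma mul_lt_st (n : ℕ → ℕ) {d k j : ℕ} (hk : k < d) (hj : j ≤ n k) : j * st n k < st n d := by
  obtain ⟨m, hm⟩ := st_dvd n hk
  have hm0 : 0 < m := by
    rcases Nat.eq_zero_or_pos m with h2 | h2
    · have := st_pos n d
      rw [hm, h2] at this
      simp at this
    · exact h2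
  rw [hm]
  have h4 : j * st n k < (n k + 1) * st n k := Nat.mul_lt_mul_of_pos_right (by omega) (st_pos n k)
  have h5 : st n k * ((n k + 1) * 1) ≤ st n k * ((n k + 1) * m) :=
    Nat.mul_le_mul_left _ (Nat.mul_le_mul_left _ hm0)
  calc j * st n k < (n k + 1) * st n k := h4
    _ = st n k * ((n k + 1) * 1) := by ring
    _ ≤ _ := h5

/-- moving a place by `j` in the direction `k` -/
lemma move (n : ℕ → ℕ) {d k i j : ℕ} (hk : k < d) (hi : i < st n d) (hj : J n k i + j ≤ n k) :
    i + j * st n k < st n d ∧ J n k (i + j * st n k) = J n k i + j ∧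
      ∀ l < d, l ≠ k → J n l (i + j * st n k) = J n l i := by
  have h1 : ∀ l < d, J n l i + J n l (j * st n k) ≤ n l := by
    intro l _
    by_cases hlk : l = k
    · subst hlk
      rw [J_mul_self n l j (by omega)]
      exact hj
    · rw [J_mul_ne n j (by omega) hlk, add_zero]
      exact J_le n l i
  refine ⟨add_lt_st n d _ _ hi (mul_lt_st n hk (by omega)) h1, ?_, ?_⟩
  · rw [J_add n d _ _ h1 k hk, J_mul_self n k j (by omega)]
  · intro l hl hlk
    rw [J_add n d _ _ h1 l hl, J_mul_ne n j (by omega) hlk, add_zero]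

/-- the slice `j` in the direction `k`, at its place -/
def sl (n : ℕ → ℕ) (k j : ℕ) (c : ℕ → ℕ) : ℕ → ℕ := fun i => if J n k i = j then c i else 0

/-- the slice `j` in the direction `k`, moved to the place `0` -/
def ex (n : ℕ → ℕ) (k j : ℕ) (c : ℕ → ℕ) : ℕ → ℕ :=
  fun i => if J n k i = 0 then c (i + j * st n k) else 0

lemma shf_ex (n : ℕ → ℕ) (k j : ℕ) (c : ℕ → ℕ) (hj : j ≤ n k) :
    shf (j * st n k) (ex n k j c) = sl n k j c := by
  funext i
  unfold shf sl ex
  by_cases hi : i < j * st n k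
  · rw [if_pos hi, if_neg]
    intro h
    have h1 : j ≤ i / st n k := by
      rw [← h]
      exact Nat.mod_le _ _
    have h2 : j * st n k ≤ i := (Nat.le_div_iff_mul_le (st_pos n k)).1 h1
    omega
  · rw [if_neg hi]
    have hi' : i - j * st n k + j * st n k = i := by omega
    rw [hi']
    have h3 : J n k i = (J n k (i - j * st n k) + j) % (n k + 1) := by
      have h4 : J n k i = (i - j * st n k + j * st n k) / st n k % (n k + 1) := by rw [hi']; rfl
      rw [h4, Nat.add_mul_div_right _ _ (st_pos n k), Nat.add_mod]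
      show (J n k (i - j * st n k) + j % (n k + 1)) % (n k + 1) = _
      rw [Nat.mod_eq_of_lt (show j < n k + 1 by omega)]
    have h5 := J_le n k (i - j * st n k)
    by_cases h6 : J n k (i - j * st n k) = 0
    · rw [if_pos h6, h3, h6, zero_add, Nat.mod_eq_of_lt (by omega), if_pos rfl]
    · rw [if_neg h6, if_neg]
      rw [h3]
      intro h7
      by_cases h8 : J n k (i - j * st n k) + j < n k + 1
      · rw [Nat.mod_eq_of_lt h8] at h7
        omega
      · rw [Nat.mod_eq_sub_mod (by omega), Nat.mod_eq_of_lt (by omega)] at h7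
        omega

/-! ### the two halves, arrays -/

/-- left half: `X^J Y^(n-J)` at `(x, x + 2 w)` -/
def gl (n : ℕ → ℕ) (k : ℕ) (c : ℕ → ℕ) : ℕ → ℕ → ℕ
  | 0 => sl n k 0 c
  | j + 1 => fun i => 2 * gl n k c j i + shf (st n k) (gl n k c j) i + sl n k (j + 1) c i

/-- right half: `X^J Y^(n-J)` at `(y + 2 v, y)` -/
def gr (n : ℕ → ℕ) (k : ℕ) (c : ℕ → ℕ) : ℕ → ℕ → ℕ
  | 0 => ex n k (n k) c
  | m + 1 => fun i => gr n k c m i + 2 * shf (st n k) (gr n k c m) i + ex n k (n k - 1 - m) c i

lemma shf_sp {n : ℕ → ℕ} {d k m : ℕ} (hk : k < d) (hm : m + 1 ≤ n k) {G : ℕ → ℕ}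
    (hG : ∀ i, G i ≠ 0 → i < st n d ∧ J n k i ≤ m) :
    (∀ i, G i ≠ 0 → i + st n k < st n d) ∧
    (∀ i, shf (st n k) G i ≠ 0 → i < st n d ∧ J n k i ≤ m + 1) := by
  constructor
  · intro i hi
    obtain ⟨h1, h2⟩ := hG i hi
    have h3 := move n (j := 1) hk h1 (by omega)
    rw [one_mul] at h3
    exact h3.1
  · intro i hi
    unfold shf at hi
    split_ifs at hi with h0
    · exact absurd rfl hi
    · obtain ⟨h1, h2⟩ := hG _ hi
      have h3 := move n (j := 1) hk h1 (by omega)
      rw [one_mul, show i - st n k + st n k = i by omega] at h3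
      exact ⟨h3.1, by rw [h3.2.1]; omega⟩

lemma ex_sp {n : ℕ → ℕ} {d k j : ℕ} {c : ℕ → ℕ} (hc : ∀ i, c i ≠ 0 → i < st n d) (i : ℕ)
    (hi : ex n k j c i ≠ 0) : i + j * st n k < st n d ∧ J n k i = 0 := by
  unfold ex at hi
  split_ifs at hi with h0
  · exact ⟨hc _ hi, h0⟩
  · exact absurd rfl hi

lemma gl_sp {n : ℕ → ℕ} {d k : ℕ} (hk : k < d) {c : ℕ → ℕ} (hc : ∀ i, c i ≠ 0 → i < st n d) :
    ∀ j, j ≤ n k → ∀ i, gl n k c j i ≠ 0 → i < st n d ∧ J n k i ≤ j := by
  intro j
  induction j with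
  | zero =>
    intro _ i hi
    have hi' : sl n k 0 c i ≠ 0 := hi
    unfold sl at hi'
    split_ifs at hi' with h0
    · exact ⟨hc _ hi', h0.le⟩
    · exact absurd rfl hi'
  | succ j ih =>
    intro hj i hi
    have hi' : 2 * gl n k c j i + shf (st n k) (gl n k c j) i + sl n k (j + 1) c i ≠ 0 := hi
    have h1 := ih (by omega)
    by_cases ha : gl n k c j i = 0
    · by_cases hb : shf (st n k) (gl n k c j) i = 0
      · have h2 : sl n k (j + 1) c i ≠ 0 := by omega
        unfold sl at h2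
        split_ifs at h2 with h0
        · exact ⟨hc _ h2, h0.le⟩
        · exact absurd rfl h2
      · exact (shf_sp hk hj h1).2 i hb
    · obtain ⟨h2, h3⟩ := h1 i ha
      exact ⟨h2, by omega⟩

lemma gr_sp {n : ℕ → ℕ} {d k : ℕ} (hk : k < d) {c : ℕ → ℕ} (hc : ∀ i, c i ≠ 0 → i < st n d) :
    ∀ m, m ≤ n k → ∀ i, gr n k c m i ≠ 0 → i < st n d ∧ J n k i ≤ m := by
  intro m
  induction m with
  | zero =>
    intro _ i hi
    obtain ⟨h1, h2⟩ := ex_sp hc i hi
    exact ⟨by omega, h2.le⟩
  | succ m ih =>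
    intro hm i hi
    have hi' : gr n k c m i + 2 * shf (st n k) (gr n k c m) i + ex n k (n k - 1 - m) c i ≠ 0 := hi
    have h1 := ih (by omega)
    by_cases ha : gr n k c m i = 0
    · by_cases hb : shf (st n k) (gr n k c m) i = 0
      · have h2 : ex n k (n k - 1 - m) c i ≠ 0 := by omega
        obtain ⟨h3, h4⟩ := ex_sp hc i h2
        exact ⟨by omega, by omega⟩
      · exact (shf_sp hk hm h1).2 i hb
    · obtain ⟨h2, h3⟩ := h1 i ha
      exact ⟨h2, by omega⟩

/-- `V` does not depend on the variable `k` -/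
def Inv (n : ℕ → ℕ) (d k : ℕ) (V : ℕ → ℝ) : Prop :=
  ∀ i < st n d, ∀ j, J n k i + j ≤ n k → V (i + j * st n k) = V i

lemma sum_sl {n : ℕ → ℕ} {d k j : ℕ} (hj : j ≤ n k) {c : ℕ → ℕ}
    (hc : ∀ i, c i ≠ 0 → i < st n d) {V : ℕ → ℝ} (hV : Inv n d k V) :
    ∑ i ∈ range (st n d), (ex n k j c i : ℝ) * V i = ∑ i ∈ range (st n d), (sl n k j c i : ℝ) * V i := by
  rw [← shf_ex n k j c hj, sum_shf (R := ℝ) (st n d) (j * st n k) (ex n k j c)
    (fun i hi => (ex_sp hc i hi).1) V]
  apply sum_congr rfl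
  intro i hi
  by_cases h : ex n k j c i = 0
  · simp [h]
  · rw [hV i (mem_range.1 hi) j (by rw [(ex_sp hc i h).2]; omega)]

lemma gl_sem {n : ℕ → ℕ} {d k : ℕ} (hk : k < d) {c : ℕ → ℕ} (hc : ∀ i, c i ≠ 0 → i < st n d)
    {V : ℕ → ℝ} (hV : Inv n d k V) (X w : ℝ) : ∀ j, j ≤ n k →
    ∑ i ∈ range (st n d), (gl n k c j i : ℝ) * (V i * (X ^ J n k i * w ^ (j - J n k i)))
      = ∑ i ∈ range (st n d), (c i : ℝ) * (if J n k i ≤ j then
          V i * (X ^ J n k i * (X + 2 * w) ^ (j - J n k i)) else 0) := by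
  intro j
  induction j with
  | zero =>
    intro _
    apply sum_congr rfl
    intro i _
    show ((sl n k 0 c i : ℕ) : ℝ) * _ = _
    unfold sl
    by_cases h : J n k i = 0
    · simp [h]
    · simp [h]
  | succ j ih =>
    intro hj
    have ih' := ih (by omega)
    have hsp := gl_sp hk hc j (by omega)
    have hs := shf_sp hk hj hsp
    have e1 : ∑ i ∈ range (st n d), (gl n k c (j + 1) i : ℝ)
          * (V i * (X ^ J n k i * w ^ (j + 1 - J n k i)))
        = 2 * ∑ i ∈ range (st n d), (gl n k c j i : ℝ)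
            * (V i * (X ^ J n k i * w ^ (j + 1 - J n k i)))
          + ∑ i ∈ range (st n d), ((shf (st n k) (gl n k c j) i : ℕ) : ℝ)
            * (V i * (X ^ J n k i * w ^ (j + 1 - J n k i)))
          + ∑ i ∈ range (st n d), (sl n k (j + 1) c i : ℝ)
            * (V i * (X ^ J n k i * w ^ (j + 1 - J n k i))) := by
      rw [mul_sum, ← sum_add_distrib, ← sum_add_distrib]
      apply sum_congr rfl
      intro i _
      show ((2 * gl n k c j i + shf (st n k) (gl n k c j) i + sl n k (j + 1) c i : ℕ) : ℝ) * _ = _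
      push_cast
      ring
    have e2 : ∑ i ∈ range (st n d), (gl n k c j i : ℝ)
            * (V i * (X ^ J n k i * w ^ (j + 1 - J n k i)))
        = w * ∑ i ∈ range (st n d), (gl n k c j i : ℝ)
            * (V i * (X ^ J n k i * w ^ (j - J n k i))) := by
      rw [mul_sum]
      apply sum_congr rfl
      intro i _
      by_cases h : gl n k c j i = 0
      · simp [h]
      · have h1 := (hsp i h).2
        rw [show j + 1 - J n k i = (j - J n k i) + 1 by omega, pow_succ]
        ring
    have e3 : ∑ i ∈ range (st n d), ((shf (st n k) (gl n k c j) i : ℕ) : ℝ)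
            * (V i * (X ^ J n k i * w ^ (j + 1 - J n k i)))
        = X * ∑ i ∈ range (st n d), (gl n k c j i : ℝ)
            * (V i * (X ^ J n k i * w ^ (j - J n k i))) := by
      rw [sum_shf (R := ℝ) (st n d) (st n k) (gl n k c j) hs.1
        (fun i => V i * (X ^ J n k i * w ^ (j + 1 - J n k i))), mul_sum]
      apply sum_congr rfl
      intro i hi
      by_cases h : gl n k c j i = 0
      · simp [h]
      · obtain ⟨h1, h2⟩ := hsp i h
        have h3 := move n (j := 1) hk h1 (by omega)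
        have h4 := hV i h1 1 (by omega)
        rw [one_mul] at h3 h4
        rw [h4, h3.2.1, show j + 1 - (J n k i + 1) = j - J n k i by omega, pow_succ]
        ring
    have e4 : ∑ i ∈ range (st n d), (c i : ℝ) * (if J n k i ≤ j + 1 then
          V i * (X ^ J n k i * (X + 2 * w) ^ (j + 1 - J n k i)) else 0)
        = (X + 2 * w) * ∑ i ∈ range (st n d), (c i : ℝ) * (if J n k i ≤ j then
          V i * (X ^ J n k i * (X + 2 * w) ^ (j - J n k i)) else 0)
          + ∑ i ∈ range (st n d), (sl n k (j + 1) c i : ℝ)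
            * (V i * (X ^ J n k i * w ^ (j + 1 - J n k i))) := by
      rw [mul_sum, ← sum_add_distrib]
      apply sum_congr rfl
      intro i _
      unfold sl
      by_cases h : J n k i ≤ j
      · rw [if_pos h, if_pos (by omega), if_neg (by omega),
          show j + 1 - J n k i = (j - J n k i) + 1 by omega, pow_succ]
        push_cast
        ring
      · by_cases h2 : J n k i = j + 1
        · rw [if_pos (by omega), if_neg h, if_pos h2, h2]
          simp
        · rw [if_neg (by omega), if_neg h, if_neg h2]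
          simp
    rw [e1, e2, e3, e4, ← ih']
    ring

lemma gr_sem {n : ℕ → ℕ} {d k : ℕ} (hk : k < d) {c : ℕ → ℕ} (hc : ∀ i, c i ≠ 0 → i < st n d)
    {V : ℕ → ℝ} (hV : Inv n d k V) (v y : ℝ) : ∀ m, m ≤ n k →
    ∑ i ∈ range (st n d), (gr n k c m i : ℝ) * (V i * (v ^ J n k i * y ^ (m - J n k i)))
      = ∑ i ∈ range (st n d), (c i : ℝ) * (if n k - m ≤ J n k i then
          V i * ((y + 2 * v) ^ (J n k i - (n k - m)) * y ^ (n k - J n k i)) else 0) := by
  have hex : ∀ j a, j ≤ n k → ∑ i ∈ range (st n d), (ex n k j c i : ℝ)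
        * (V i * (v ^ J n k i * y ^ (a - J n k i)))
      = y ^ a * ∑ i ∈ range (st n d), (sl n k j c i : ℝ) * V i := by
    intro j a hj
    rw [← sum_sl hj hc hV, mul_sum]
    apply sum_congr rfl
    intro i _
    by_cases h : ex n k j c i = 0
    · simp [h]
    · rw [(ex_sp hc i h).2]
      simp
      ring
  intro m
  induction m with
  | zero =>
    intro _
    show ∑ i ∈ range (st n d), (ex n k (n k) c i : ℝ) * (V i * (v ^ J n k i * y ^ (0 - J n k i))) = _
    rw [hex (n k) 0 le_rfl, pow_zero, one_mul]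
    apply sum_congr rfl
    intro i _
    unfold sl
    have h1 := J_le n k i
    by_cases h : J n k i = n k
    · rw [if_pos h, if_pos (by omega), h]
      simp
    · rw [if_neg h, if_neg (by omega)]
      simp
  | succ m ih =>
    intro hm
    have ih' := ih (by omega)
    have hsp := gr_sp hk hc m (by omega)
    have hs := shf_sp hk hm hsp
    have e1 : ∑ i ∈ range (st n d), (gr n k c (m + 1) i : ℝ)
          * (V i * (v ^ J n k i * y ^ (m + 1 - J n k i)))
        = ∑ i ∈ range (st n d), (gr n k c m i : ℝ)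
            * (V i * (v ^ J n k i * y ^ (m + 1 - J n k i)))
          + 2 * ∑ i ∈ range (st n d), ((shf (st n k) (gr n k c m) i : ℕ) : ℝ)
            * (V i * (v ^ J n k i * y ^ (m + 1 - J n k i)))
          + ∑ i ∈ range (st n d), (ex n k (n k - 1 - m) c i : ℝ)
            * (V i * (v ^ J n k i * y ^ (m + 1 - J n k i))) := by
      rw [mul_sum, ← sum_add_distrib, ← sum_add_distrib]
      apply sum_congr rfl
      intro i _
      show ((gr n k c m i + 2 * shf (st n k) (gr n k c m) i + ex n k (n k - 1 - m) c i : ℕ) : ℝ) * _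
        = _
      push_cast
      ring
    have e2 : ∑ i ∈ range (st n d), (gr n k c m i : ℝ)
            * (V i * (v ^ J n k i * y ^ (m + 1 - J n k i)))
        = y * ∑ i ∈ range (st n d), (gr n k c m i : ℝ)
            * (V i * (v ^ J n k i * y ^ (m - J n k i))) := by
      rw [mul_sum]
      apply sum_congr rfl
      intro i _
      by_cases h : gr n k c m i = 0
      · simp [h]
      · have h1 := (hsp i h).2
        rw [show m + 1 - J n k i = (m - J n k i) + 1 by omega, pow_succ]
        ring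
    have e3 : ∑ i ∈ range (st n d), ((shf (st n k) (gr n k c m) i : ℕ) : ℝ)
            * (V i * (v ^ J n k i * y ^ (m + 1 - J n k i)))
        = v * ∑ i ∈ range (st n d), (gr n k c m i : ℝ)
            * (V i * (v ^ J n k i * y ^ (m - J n k i))) := by
      rw [sum_shf (R := ℝ) (st n d) (st n k) (gr n k c m) hs.1
        (fun i => V i * (v ^ J n k i * y ^ (m + 1 - J n k i))), mul_sum]
      apply sum_congr rfl
      intro i hi
      by_cases h : gr n k c m i = 0
      · simp [h]
      · obtain ⟨h1, h2⟩ := hsp i h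
        have h3 := move n (j := 1) hk h1 (by omega)
        have h4 := hV i h1 1 (by omega)
        rw [one_mul] at h3 h4
        rw [h4, h3.2.1, show m + 1 - (J n k i + 1) = m - J n k i by omega, pow_succ]
        ring
    have e4 : ∑ i ∈ range (st n d), (c i : ℝ) * (if n k - (m + 1) ≤ J n k i then
          V i * ((y + 2 * v) ^ (J n k i - (n k - (m + 1))) * y ^ (n k - J n k i)) else 0)
        = (y + 2 * v) * ∑ i ∈ range (st n d), (c i : ℝ) * (if n k - m ≤ J n k i then
          V i * ((y + 2 * v) ^ (J n k i - (n k - m)) * y ^ (n k - J n k i)) else 0)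
          + y ^ (m + 1) * ∑ i ∈ range (st n d), (sl n k (n k - 1 - m) c i : ℝ) * V i := by
      rw [mul_sum, mul_sum, ← sum_add_distrib]
      apply sum_congr rfl
      intro i _
      unfold sl
      have h0 := J_le n k i
      by_cases h : n k - m ≤ J n k i
      · rw [if_pos h, if_pos (by omega), if_neg (by omega),
          show J n k i - (n k - (m + 1)) = (J n k i - (n k - m)) + 1 by omega, pow_succ]
        push_cast
        ring
      · by_cases h2 : J n k i = n k - 1 - m
        · rw [if_pos (by omega), if_neg h, if_pos h2, h2,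
            show n k - 1 - m - (n k - (m + 1)) = 0 by omega,
            show n k - (n k - 1 - m) = m + 1 by omega]
          simp
          ring
        · rw [if_neg (by omega), if_neg h, if_neg h2]
          simp
    rw [e1, e2, e3, e4, ← ih', hex (n k - 1 - m) (m + 1) (by omega)]
    ring

/-! ### bounds for the halves -/

lemma shf_le {s a : ℕ} {c u : ℕ → ℕ} (h : ∀ i, c i ≤ a * u i) (i : ℕ) : shf s c i ≤ a * shf s u i := by
  unfold shf
  split_ifs
  · exact Nat.zero_le _
  · exact h _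

lemma gl_le {n : ℕ → ℕ} {k a : ℕ} {c u : ℕ → ℕ} (h : ∀ i, c i ≤ a * u i) :
    ∀ j i, gl n k c j i ≤ a * gl n k u j i := by
  have hsl : ∀ j i, sl n k j c i ≤ a * sl n k j u i := by
    intro j i
    unfold sl
    split_ifs
    · exact h i
    · exact Nat.zero_le _
  intro j
  induction j with
  | zero => intro i; exact hsl 0 i
  | succ j ih =>
    intro i
    have h1 := ih i
    have h2 := shf_le (s := st n k) ih i
    have h3 := hsl (j + 1) i
    show 2 * gl n k c j i + shf (st n k) (gl n k c j) i + sl n k (j + 1) c i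
      ≤ a * (2 * gl n k u j i + shf (st n k) (gl n k u j) i + sl n k (j + 1) u i)
    have h4 : a * (2 * gl n k u j i + shf (st n k) (gl n k u j) i + sl n k (j + 1) u i)
      = 2 * (a * gl n k u j i) + a * shf (st n k) (gl n k u j) i + a * sl n k (j + 1) u i := by ring
    omega

lemma gr_le {n : ℕ → ℕ} {k a : ℕ} {c u : ℕ → ℕ} (h : ∀ i, c i ≤ a * u i) :
    ∀ j i, gr n k c j i ≤ a * gr n k u j i := by
  have hex : ∀ j i, ex n k j c i ≤ a * ex n k j u i := by
    intro j i
    unfold ex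
    split_ifs
    · exact h _
    · exact Nat.zero_le _
  intro j
  induction j with
  | zero => intro i; exact hex _ i
  | succ j ih =>
    intro i
    have h1 := ih i
    have h2 := shf_le (s := st n k) ih i
    have h3 := hex (n k - 1 - j) i
    show gr n k c j i + 2 * shf (st n k) (gr n k c j) i + ex n k (n k - 1 - j) c i
      ≤ a * (gr n k u j i + 2 * shf (st n k) (gr n k u j) i + ex n k (n k - 1 - j) u i)
    have h4 : a * (gr n k u j i + 2 * shf (st n k) (gr n k u j) i + ex n k (n k - 1 - j) u i)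
      = a * gr n k u j i + 2 * (a * shf (st n k) (gr n k u j) i) + a * ex n k (n k - 1 - j) u i := by
      ring
    omega

lemma gl_bd {n : ℕ → ℕ} {k S : ℕ} {u : ℕ → ℕ} (h : ∀ i, u i ≤ S) :
    ∀ j i, gl n k u j i ≤ 4 ^ j * S := by
  have hsl : ∀ j i, sl n k j u i ≤ S := by
    intro j i
    unfold sl
    split_ifs
    · exact h i
    · exact Nat.zero_le _
  intro j
  induction j with
  | zero => intro i; rw [pow_zero, one_mul]; exact hsl 0 i
  | succ j ih =>
    intro i
    have h1 := ih i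
    have h2 : shf (st n k) (gl n k u j) i ≤ 4 ^ j * S := by
      unfold shf
      split_ifs
      · exact Nat.zero_le _
      · exact ih _
    have h3 := hsl (j + 1) i
    have h5 : S ≤ 4 ^ j * S := Nat.le_mul_of_pos_left S (by positivity)
    show 2 * gl n k u j i + shf (st n k) (gl n k u j) i + sl n k (j + 1) u i ≤ 4 ^ (j + 1) * S
    rw [pow_succ, show 4 ^ j * 4 * S = 4 * (4 ^ j * S) by ring]
    omega

lemma gr_bd {n : ℕ → ℕ} {k S : ℕ} {u : ℕ → ℕ} (h : ∀ i, u i ≤ S) :
    ∀ j i, gr n k u j i ≤ 4 ^ j * S := by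
  have hex : ∀ j i, ex n k j u i ≤ S := by
    intro j i
    unfold ex
    split_ifs
    · exact h _
    · exact Nat.zero_le _
  intro j
  induction j with
  | zero => intro i; rw [pow_zero, one_mul]; exact hex _ i
  | succ j ih =>
    intro i
    have h1 := ih i
    have h2 : shf (st n k) (gr n k u j) i ≤ 4 ^ j * S := by
      unfold shf
      split_ifs
      · exact Nat.zero_le _
      · exact ih _
    have h3 := hex (n k - 1 - j) i
    have h5 : S ≤ 4 ^ j * S := Nat.le_mul_of_pos_left S (by positivity)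
    show gr n k u j i + 2 * shf (st n k) (gr n k u j) i + ex n k (n k - 1 - j) u i ≤ 4 ^ (j + 1) * S
    rw [pow_succ, show 4 ^ j * 4 * S = 4 * (4 ^ j * S) by ring]
    omega

/-! ### masks -/

lemma pk_const (B L a : ℕ) (hB : 0 < B) : pk B L (fun _ => a) * (B - 1) = a * (B ^ L - 1) := by
  obtain ⟨b, rfl⟩ := Nat.exists_eq_add_of_le' hB
  rw [Nat.add_sub_cancel]
  have h1 : pk (b + 1) L (fun _ => a) * b + a = a * (b + 1) ^ L := by
    induction L with
    | zero => simp [pk]
    | succ L ih =>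
      have h2 : pk (b + 1) (L + 1) (fun _ => a) = pk (b + 1) L (fun _ => a) + a * (b + 1) ^ L := by
        unfold pk
        rw [sum_range_succ]
      rw [h2, pow_succ]
      calc (pk (b + 1) L (fun _ => a) + a * (b + 1) ^ L) * b + a
          = (pk (b + 1) L (fun _ => a) * b + a) + a * (b + 1) ^ L * b := by ring
        _ = a * (b + 1) ^ L + a * (b + 1) ^ L * b := by rw [ih]
        _ = a * ((b + 1) ^ L * (b + 1)) := by ring
  rw [Nat.mul_sub, mul_one, ← h1, Nat.add_sub_cancel]

/-- all the digits are `a` -/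
lemma pk_const' {K L a : ℕ} (hK : 0 < K) :
    pk (2 ^ K) L (fun _ => a) = a * ((2 ^ (K * L) - 1) / (2 ^ K - 1)) := by
  have h0 : 0 < 2 ^ K - 1 := by
    have : 2 ^ 1 ≤ 2 ^ K := Nat.pow_le_pow_right (by norm_num) hK
    omega
  have h1 := pk_const (2 ^ K) L 1 (by positivity)
  have h2 : pk (2 ^ K) L (fun _ => 1) = (2 ^ (K * L) - 1) / (2 ^ K - 1) := by
    rw [pow_mul, ← one_mul ((2 ^ K) ^ L - 1), ← h1, Nat.mul_div_cancel _ h0]
  rw [← h2, ← pk_smul]
  apply pk_congr
  intro i _
  rw [mul_one]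

/-- the mask of the places with exponent zero in the direction `k` -/
def msk (K : ℕ) (n : ℕ → ℕ) (d k : ℕ) : ℕ :=
  (2 ^ (K * st n k) - 1) * ((2 ^ (K * st n d) - 1) / (2 ^ (K * st n (k + 1)) - 1))

lemma pk_msk {K : ℕ} (hK : 0 < K) (n : ℕ → ℕ) {d k : ℕ} (hk : k < d) :
    pk (2 ^ K) (st n d) (fun i => if J n k i = 0 then 2 ^ K - 1 else 0) = msk K n d k := by
  set B := 2 ^ K with hBdef
  have hB2 : 2 ≤ B := by
    rw [hBdef]
    calc 2 = 2 ^ 1 := by norm_num
      _ ≤ 2 ^ K := Nat.pow_le_pow_right (by norm_num) hK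
  set m : ℕ → ℕ := fun i => if J n k i = 0 then B - 1 else 0 with hm
  set P := st n (k + 1) with hP
  have hPk : P = st n k + st n k * n k := by
    rw [hP]
    show st n k * (n k + 1) = _
    ring
  -- one period
  have h1 : pk B P m = B ^ st n k - 1 := by
    rw [hPk, pk_split]
    have h2 : pk B (st n k) m = B ^ st n k - 1 := by
      have h3 : pk B (st n k) m = pk B (st n k) (fun _ => B - 1) := by
        apply pk_congr
        intro i hi
        have h4 : J n k i = 0 := by
          show i / st n k % (n k + 1) = 0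
          rw [Nat.div_eq_of_lt hi, Nat.zero_mod]
        rw [hm]
        simp only [h4, if_true]
      have h5 := pk_const B (st n k) (B - 1) (by omega)
      rw [h3]
      have h6 : 0 < B - 1 := by omega
      rw [mul_comm] at h5
      exact Nat.eq_of_mul_eq_mul_left h6 h5
    have h7 : pk B (st n k * n k) (fun i => m (i + st n k)) = 0 := by
      unfold pk
      apply sum_eq_zero
      intro i hi
      have hi' := mem_range.1 hi
      have h8 : J n k (i + st n k) ≠ 0 := by
        show (i + st n k) / st n k % (n k + 1) ≠ 0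
        have h9 : i / st n k < n k := Nat.div_lt_of_lt_mul hi'
        rw [Nat.add_div_right _ (st_pos n k), Nat.mod_eq_of_lt (Nat.succ_lt_succ h9)]
        exact Nat.succ_ne_zero _
      show m (i + st n k) * B ^ i = 0
      rw [hm]
      simp only [h8, if_false, zero_mul]
    rw [h2, h7, mul_zero, add_zero]
  -- all periods
  have h10 : ∀ H, pk B (P * H) m * (B ^ P - 1) = (B ^ st n k - 1) * (B ^ (P * H) - 1) := by
    intro H
    have h11 : pk B (P * H) m = pk (B ^ P) H (fun _ => pk B P m) := by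
      induction H with
      | zero => simp [pk]
      | succ H ih =>
        have h12 : pk (B ^ P) (H + 1) (fun _ => pk B P m)
            = pk (B ^ P) H (fun _ => pk B P m) + pk B P m * (B ^ P) ^ H := by
          unfold pk
          rw [sum_range_succ]
        rw [h12, ← ih, Nat.mul_succ, pk_split, ← pow_mul]
        have h13 : pk B P (fun i => m (i + P * H)) = pk B P m := by
          apply pk_congr
          intro i _
          have h14 : J n k (i + P * H) = J n k i := by
            show (i + P * H) / st n k % (n k + 1) = i / st n k % (n k + 1)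
            have h15 : i + P * H = i + st n k * ((n k + 1) * H) := by
              rw [hP]
              show i + st n k * (n k + 1) * H = _
              ring
            rw [h15, Nat.add_mul_div_left _ _ (st_pos n k), Nat.add_mul_mod_self_left]
          show (if J n k (i + P * H) = 0 then B - 1 else 0) = if J n k i = 0 then B - 1 else 0
          rw [h14]
        rw [h13]
        ring
    rw [h11, pk_const (B ^ P) H _ (by positivity), h1, ← pow_mul B P H]
  obtain ⟨H, hH⟩ : ∃ H, st n d = P * H := by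
    obtain ⟨q, hq⟩ := st_dvd n hk
    refine ⟨q, ?_⟩
    rw [hq, hP]
    show _ = st n k * (n k + 1) * q
    ring
  have hBP : 0 < B ^ P - 1 := by
    have hP1 : 1 ≤ P := st_pos n (k + 1)
    have : B ^ 1 ≤ B ^ P := Nat.pow_le_pow_right (by omega) hP1
    rw [pow_one] at this
    omega
  have hdiv : (B ^ P - 1) ∣ (B ^ (P * H) - 1) := by
    have h16 := pk_const (B ^ P) H 1 (by positivity)
    rw [← pow_mul B P H, one_mul] at h16
    exact ⟨pk (B ^ P) H (fun _ => 1), by rw [← h16, mul_comm]⟩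
  obtain ⟨q, hq⟩ := hdiv
  have h17 := h10 H
  rw [hH]
  have h18 : msk K n d k = (B ^ st n k - 1) * ((B ^ (P * H) - 1) / (B ^ P - 1)) := by
    unfold msk
    rw [pow_mul, pow_mul, pow_mul, ← hH]
  rw [h18, hq, Nat.mul_div_cancel_left _ hBP]
  rw [hq] at h17
  apply Nat.eq_of_mul_eq_mul_right hBP
  rw [h17]
  ring

/-! ### packed operations -/

/-- the slice `j`, at the place `0`; `s` the bit length of the stride, `M` the mask -/
def pe (s M N j : ℕ) : ℕ := Nat.land (Nat.shiftRight N (Nat.mul s j)) M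

/-- left half -/
def pl (s M N j : ℕ) : ℕ :=
  Nat.rec (motive := fun _ => ℕ) (pe s M N 0)
    (fun j G => Nat.add (Nat.add (Nat.mul 2 G) (Nat.shiftLeft G s))
      (Nat.shiftLeft (pe s M N (Nat.succ j)) (Nat.mul s (Nat.succ j)))) j

/-- right half -/
def pr (s M N n m : ℕ) : ℕ :=
  Nat.rec (motive := fun _ => ℕ) (pe s M N n)
    (fun m G => Nat.add (Nat.add G (Nat.shiftLeft G (Nat.succ s)))
      (pe s M N (Nat.sub (Nat.sub n 1) m))) m

lemma pk_ex {K : ℕ} (hK : 0 < K) {n : ℕ → ℕ} {d k : ℕ} (hk : k < d) {c : ℕ → ℕ}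
    (hc : ∀ i, c i < 2 ^ K) (h0 : ∀ i, c i ≠ 0 → i < st n d) (j : ℕ) :
    pk (2 ^ K) (st n d) (ex n k j c)
      = pe (K * st n k) (msk K n d k) (pk (2 ^ K) (st n d) c) j := by
  show _ = (pk (2 ^ K) (st n d) c >>> (K * st n k * j)) &&& msk K n d k
  rw [Nat.shiftRight_eq_div_pow, show K * st n k * j = K * (j * st n k) by ring, pow_mul,
    pk_div (by positivity) hc (fun i hi => by
      by_contra h
      have := h0 i h
      omega), ← pk_msk hK n hk, pk_land K _ _ _ (fun i _ => hc _) (fun i _ => by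
      split_ifs
      · have : 0 < 2 ^ K := by positivity
        omega
      · positivity)]
  apply pk_congr
  intro i _
  unfold ex
  by_cases h : J n k i = 0
  · rw [if_pos h, if_pos h, Nat.and_two_pow_sub_one_eq_mod, Nat.mod_eq_of_lt (hc _)]
  · rw [if_neg h, if_neg h, Nat.and_zero]

lemma pk_shf' (K : ℕ) {n : ℕ → ℕ} {d k j : ℕ} {c : ℕ → ℕ}
    (h : ∀ i, c i ≠ 0 → i + j * st n k < st n d) :
    pk (2 ^ K) (st n d) (shf (j * st n k) c)
      = Nat.shiftLeft (pk (2 ^ K) (st n d) c) (K * st n k * j) := by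
  rw [pk_shf _ _ _ _ h]
  show _ = pk (2 ^ K) (st n d) c <<< (K * st n k * j)
  rw [Nat.shiftLeft_eq, show K * st n k * j = K * (j * st n k) by ring, pow_mul 2 K]

lemma pk_gl {K : ℕ} (hK : 0 < K) {n : ℕ → ℕ} {d k : ℕ} (hk : k < d) {c : ℕ → ℕ}
    (hc : ∀ i, c i < 2 ^ K) (h0 : ∀ i, c i ≠ 0 → i < st n d) : ∀ j, j ≤ n k →
    pk (2 ^ K) (st n d) (gl n k c j)
      = pl (K * st n k) (msk K n d k) (pk (2 ^ K) (st n d) c) j := by
  have hsl : ∀ j, j ≤ n k → pk (2 ^ K) (st n d) (sl n k j c)
      = Nat.shiftLeft (pe (K * st n k) (msk K n d k) (pk (2 ^ K) (st n d) c) j) (K * st n k * j) := by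
    intro j hj
    rw [← shf_ex n k j c hj, pk_shf' K (fun i hi => (ex_sp h0 i hi).1), pk_ex hK hk hc h0]
  intro j
  induction j with
  | zero =>
    intro _
    show pk (2 ^ K) (st n d) (sl n k 0 c) = pe _ _ _ 0
    rw [hsl 0 (Nat.zero_le _), mul_zero]
    rfl
  | succ j ih =>
    intro hj
    have ih' := ih (by omega)
    have hs := (shf_sp hk hj (gl_sp hk h0 j (by omega))).1
    have h1 : pk (2 ^ K) (st n d) (gl n k c (j + 1))
        = 2 * pk (2 ^ K) (st n d) (gl n k c j)
          + pk (2 ^ K) (st n d) (shf (1 * st n k) (gl n k c j))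
          + pk (2 ^ K) (st n d) (sl n k (j + 1) c) := by
      rw [← pk_smul, ← pk_add, ← pk_add, one_mul]
      rfl
    rw [h1, pk_shf' K (by intro i hi; rw [one_mul]; exact hs i hi), hsl (j + 1) hj, ih', mul_one]
    rfl

lemma pk_gr {K : ℕ} (hK : 0 < K) {n : ℕ → ℕ} {d k : ℕ} (hk : k < d) {c : ℕ → ℕ}
    (hc : ∀ i, c i < 2 ^ K) (h0 : ∀ i, c i ≠ 0 → i < st n d) : ∀ m, m ≤ n k →
    pk (2 ^ K) (st n d) (gr n k c m)
      = pr (K * st n k) (msk K n d k) (pk (2 ^ K) (st n d) c) (n k) m := by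
  intro m
  induction m with
  | zero =>
    intro _
    show pk (2 ^ K) (st n d) (ex n k (n k) c) = pe _ _ _ (n k)
    rw [pk_ex hK hk hc h0]
  | succ m ih =>
    intro hm
    have ih' := ih (by omega)
    have hs := (shf_sp hk hm (gr_sp hk h0 m (by omega))).1
    have h1 : pk (2 ^ K) (st n d) (gr n k c (m + 1))
        = pk (2 ^ K) (st n d) (gr n k c m)
          + 2 * pk (2 ^ K) (st n d) (shf (1 * st n k) (gr n k c m))
          + pk (2 ^ K) (st n d) (ex n k (n k - 1 - m) c) := by
      rw [← pk_smul, ← pk_add, ← pk_add, one_mul]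
      rfl
    rw [h1, pk_shf' K (by intro i hi; rw [one_mul]; exact hs i hi), pk_ex hK hk hc h0, ih', mul_one]
    show _ + 2 * (pr (K * st n k) (msk K n d k) (pk (2 ^ K) (st n d) c) (n k) m <<< (K * st n k)) + _
      = (pr (K * st n k) (msk K n d k) (pk (2 ^ K) (st n d) c) (n k) m
        + pr (K * st n k) (msk K n d k) (pk (2 ^ K) (st n d) c) (n k) m <<< (K * st n k + 1)) + _
    rw [Nat.shiftLeft_eq, Nat.shiftLeft_eq, pow_succ]
    have h2 : Nat.sub (Nat.sub (n k) 1) m = n k - 1 - m := rfl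
    rw [h2]
    ring

/-! ### the values -/

/-- the weight of the place `i` at the point `(x, y)`, degrees `t` -/
noncomputable def W (n : ℕ → ℕ) (d : ℕ) (x y : ℕ → ℝ) (t : ℕ → ℕ) (i : ℕ) : ℝ :=
  ∏ k ∈ range d, (x k ^ J n k i * y k ^ (t k - J n k i))

/-- the value of the array `c` -/
noncomputable def sem (n : ℕ → ℕ) (d : ℕ) (x y : ℕ → ℝ) (c : ℕ → ℕ) : ℝ :=
  ∑ i ∈ range (st n d), (c i : ℝ) * W n d x y n i

/-- the part of the weight without the variable `k` -/
noncomputable def Vk (n : ℕ → ℕ) (d k : ℕ) (x y : ℕ → ℝ) (i : ℕ) : ℝ :=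
  ∏ l ∈ (range d).erase k, (x l ^ J n l i * y l ^ (n l - J n l i))

lemma W_eq {n : ℕ → ℕ} {d k : ℕ} (hk : k < d) (x y : ℕ → ℝ) (i : ℕ) :
    W n d x y n i = Vk n d k x y i * (x k ^ J n k i * y k ^ (n k - J n k i)) := by
  unfold W Vk
  rw [mul_comm]
  exact (mul_prod_erase (range d) (fun l => x l ^ J n l i * y l ^ (n l - J n l i))
    (mem_range.2 hk)).symm

lemma Vk_inv (n : ℕ → ℕ) (d k : ℕ) (hk : k < d) (x y : ℕ → ℝ) : Inv n d k (Vk n d k x y) := by
  intro i hi j hj
  unfold Vk
  apply prod_congr rfl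
  intro l hl
  obtain ⟨h1, h2⟩ := mem_erase.1 hl
  rw [(move n hk hi hj).2.2 l (mem_range.1 h2) h1]

lemma Vk_congr {n : ℕ → ℕ} {d k : ℕ} {x y x' y' : ℕ → ℝ} (hx : ∀ l, l ≠ k → x' l = x l)
    (hy : ∀ l, l ≠ k → y' l = y l) (i : ℕ) : Vk n d k x' y' i = Vk n d k x y i := by
  unfold Vk
  apply prod_congr rfl
  intro l hl
  rw [hx l (ne_of_mem_erase hl), hy l (ne_of_mem_erase hl)]

/-- the left half -/
lemma sem_gl {n : ℕ → ℕ} {d k : ℕ} (hk : k < d) {c : ℕ → ℕ} (hc : ∀ i, c i ≠ 0 → i < st n d)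
    {x y x' y' : ℕ → ℝ} (hx : ∀ l, l ≠ k → x' l = x l) (hy : ∀ l, l ≠ k → y' l = y l)
    (h1 : x k = x' k) (h2 : y k = x' k + 2 * y' k) :
    sem n d x' y' (gl n k c (n k)) = sem n d x y c := by
  have h3 := gl_sem hk hc (Vk_inv n d k hk x' y') (x' k) (y' k) (n k) le_rfl
  unfold sem
  have h4 : ∑ i ∈ range (st n d), (gl n k c (n k) i : ℝ) * W n d x' y' n i
      = ∑ i ∈ range (st n d), (gl n k c (n k) i : ℝ)
        * (Vk n d k x' y' i * (x' k ^ J n k i * y' k ^ (n k - J n k i))) :=
    sum_congr rfl fun i _ => by rw [W_eq hk x' y']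
  rw [h4, h3]
  apply sum_congr rfl
  intro i _
  rw [if_pos (J_le n k i), W_eq hk x y, Vk_congr hx hy, h1, h2]

/-- the right half -/
lemma sem_gr {n : ℕ → ℕ} {d k : ℕ} (hk : k < d) {c : ℕ → ℕ} (hc : ∀ i, c i ≠ 0 → i < st n d)
    {x y x' y' : ℕ → ℝ} (hx : ∀ l, l ≠ k → x' l = x l) (hy : ∀ l, l ≠ k → y' l = y l)
    (h1 : y k = y' k) (h2 : x k = y' k + 2 * x' k) :
    sem n d x' y' (gr n k c (n k)) = sem n d x y c := by
  have h3 := gr_sem hk hc (Vk_inv n d k hk x' y') (x' k) (y' k) (n k) le_rfl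
  unfold sem
  have h4 : ∑ i ∈ range (st n d), (gr n k c (n k) i : ℝ) * W n d x' y' n i
      = ∑ i ∈ range (st n d), (gr n k c (n k) i : ℝ)
        * (Vk n d k x' y' i * (x' k ^ J n k i * y' k ^ (n k - J n k i))) :=
    sum_congr rfl fun i _ => by rw [W_eq hk x' y']
  rw [h4, h3]
  apply sum_congr rfl
  intro i _
  rw [if_pos (by omega), W_eq hk x y, Vk_congr hx hy, h1, h2]
  have h5 : J n k i - (n k - n k) = J n k i := by omega
  rw [h5]

/-! ### the tree -/

/-- digitwise comparison -/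
def le (T a b : ℕ) : Bool := Nat.beq (Nat.land (Nat.sub (Nat.add b T) a) T) T

lemma le_sound {K L a b : ℕ} (hK : 0 < K) {ca cb : ℕ → ℕ} (ha : a = pk (2 ^ K) L ca)
    (hb : b = pk (2 ^ K) L cb) (ba : ∀ i, ca i < 2 ^ (K - 1)) (bb : ∀ i, cb i < 2 ^ (K - 1))
    (h : le (pk (2 ^ K) L (fun _ => 2 ^ (K - 1))) a b = true) : ∀ i < L, ca i ≤ cb i := by
  unfold le at h
  have h1 := Nat.eq_of_beq_eq_true h
  rw [ha, hb] at h1
  exact pk_le hK (fun i _ => ba i) (fun i _ => bb i) h1

/-- the state of a polynomial: degrees, `(bit stride, degree, mask)` of the variables, the array `U` of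
the constant one, a bound `S` of its digits, the top bits `T`, the array `D`, the bias `b` -/
structure Ps where
  n : ℕ → ℕ
  vs : List (ℕ × ℕ × ℕ)
  U : ℕ
  S : ℕ
  T : ℕ
  D : ℕ
  b : ℕ

/-- left half -/
def Ps.lft (k : ℕ) (p : Ps) : Ps :=
  ⟨p.n, p.vs, p.U, p.S, p.T,
    pl (p.vs.getD k (0, 0, 0)).1 (p.vs.getD k (0, 0, 0)).2.2 p.D (p.vs.getD k (0, 0, 0)).2.1,
    Nat.mul p.b (Nat.pow 2 (p.vs.getD k (0, 0, 0)).2.1)⟩

/-- right half -/
def Ps.rgt (k : ℕ) (p : Ps) : Ps :=
  ⟨p.n, p.vs, p.U, p.S, p.T,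
    pr (p.vs.getD k (0, 0, 0)).1 (p.vs.getD k (0, 0, 0)).2.2 p.D (p.vs.getD k (0, 0, 0)).2.1
      (p.vs.getD k (0, 0, 0)).2.1,
    Nat.mul p.b (Nat.pow 2 (p.vs.getD k (0, 0, 0)).2.1)⟩

/-- no overflow -/
def Ps.nov (K : ℕ) (p : Ps) : Bool :=
  Nat.blt (Nat.mul (Nat.succ (Nat.mul 2 p.b)) p.S) (Nat.pow 2 (Nat.sub K 1))

/-- the polynomial is negative -/
def Ps.neg (K : ℕ) (p : Ps) : Bool :=
  (p.nov K) && le p.T (Nat.add p.D p.U) (Nat.mul p.b p.U)

/-- the tree of boxes -/
inductive Tr
  | neg (i : ℕ)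
  | split (k : ℕ) (l r : Tr)

/-- the check -/
noncomputable def chk (K d : ℕ) (t : Tr) : List Ps → Bool :=
  Tr.rec (motive := fun _ => List Ps → Bool)
    (fun i ps => match ps[i]? with
      | some p => p.neg K
      | none => false)
    (fun k _ _ cl cr ps => Nat.blt k d && ps.all (Ps.nov K) && cl (ps.map (Ps.lft k))
      && cr (ps.map (Ps.rgt k))) t

/-- what a state says at a point -/
structure Good (K d : ℕ) (x y : ℕ → ℝ) (p : Ps) : Prop where
  vs : ∀ k < d, p.vs.getD k (0, 0, 0) = (K * st p.n k, p.n k, msk K p.n d k)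
  T : p.T = pk (2 ^ K) (st p.n d) (fun _ => 2 ^ (K - 1))
  ex : ∃ c u : ℕ → ℕ, (∀ i, c i ≠ 0 → i < st p.n d) ∧ (∀ i, u i ≠ 0 → i < st p.n d) ∧
    p.D = pk (2 ^ K) (st p.n d) c ∧ p.U = pk (2 ^ K) (st p.n d) u ∧ (∀ i, u i ≤ p.S) ∧
    (∀ i, c i ≤ 2 * p.b * u i) ∧
    (∀ k < d, ∀ i, gl p.n k u (p.n k) i = 2 ^ p.n k * u i) ∧
    (∀ k < d, ∀ i, gr p.n k u (p.n k) i = 2 ^ p.n k * u i) ∧
    (p.b : ℝ) * sem p.n d x y u ≤ sem p.n d x y c ∧ 0 < sem p.n d x y u

lemma W_nonneg {n : ℕ → ℕ} {d : ℕ} {x y : ℕ → ℝ} (hx : ∀ k, 0 ≤ x k) (hy : ∀ k, 0 ≤ y k)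
    (t : ℕ → ℕ) (i : ℕ) : 0 ≤ W n d x y t i :=
  prod_nonneg fun k _ => mul_nonneg (pow_nonneg (hx k) _) (pow_nonneg (hy k) _)

lemma sem_smul (n : ℕ → ℕ) (d : ℕ) (x y : ℕ → ℝ) (a : ℕ) (c : ℕ → ℕ) :
    sem n d x y (fun i => a * c i) = a * sem n d x y c := by
  unfold sem
  rw [mul_sum]
  apply sum_congr rfl
  intro i _
  push_cast
  ring

lemma Good.no_neg {K d : ℕ} (hK : 0 < K) {x y : ℕ → ℝ} (hx : ∀ k, 0 ≤ x k) (hy : ∀ k, 0 ≤ y k)
    {p : Ps} (h : Good K d x y p) (hn : p.neg K = true) : False := by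
  obtain ⟨c, u, hc0, hu0, hD, hU, hS, hcu, _, _, hsem, hpos⟩ := h.ex
  unfold Ps.neg Ps.nov at hn
  rw [Bool.and_eq_true] at hn
  obtain ⟨h1, h2⟩ := hn
  have h1' : (2 * p.b + 1) * p.S < 2 ^ (K - 1) := by
    have := Nat.blt_eq.mp h1
    exact this
  have h2' : le (pk (2 ^ K) (st p.n d) (fun _ => 2 ^ (K - 1))) (p.D + p.U) (p.b * p.U) = true := by
    rw [← h.T]
    exact h2
  have h3 : (2 * p.b + 1) * p.S = 2 * (p.b * p.S) + p.S := by ring
  have h4 : ∀ i, p.b * u i ≤ p.b * p.S := fun i => Nat.mul_le_mul_left _ (hS i)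
  have h5 := le_sound (ca := fun i => c i + u i) (cb := fun i => p.b * u i) hK
    (by rw [pk_add, hD, hU]) (by rw [pk_smul, hU])
    (by
      intro i
      have h6 := hcu i
      have h7 := h4 i
      have h8 := hS i
      have h9 : 2 * p.b * u i = 2 * (p.b * u i) := by ring
      show c i + u i < _
      omega)
    (by
      intro i
      have h7 := h4 i
      show p.b * u i < _
      omega) h2'
  have h6 : sem p.n d x y c + sem p.n d x y u ≤ p.b * sem p.n d x y u := by
    rw [← sem_smul]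
    unfold sem
    rw [← sum_add_distrib]
    apply sum_le_sum
    intro i hi
    have h7 := h5 i (mem_range.1 hi)
    have h8 : ((c i : ℝ) + u i) ≤ ((p.b * u i : ℕ) : ℝ) := by exact_mod_cast h7
    have h9 := mul_le_mul_of_nonneg_right h8 (W_nonneg (n := p.n) (d := d) hx hy p.n i)
    linarith
  linarith

lemma nov_lt {K : ℕ} {p : Ps} (hK : 0 < K) (h : p.nov K = true) {c u : ℕ → ℕ} (hS : ∀ i, u i ≤ p.S)
    (hcu : ∀ i, c i ≤ 2 * p.b * u i) (i : ℕ) : c i < 2 ^ K := by
  have h1' : (2 * p.b + 1) * p.S < 2 ^ (K - 1) := by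
    have := Nat.blt_eq.mp h
    exact this
  have h3 : (2 * p.b + 1) * p.S = 2 * (p.b * p.S) + p.S := by ring
  have h4 : p.b * u i ≤ p.b * p.S := Nat.mul_le_mul_left _ (hS i)
  have h6 := hcu i
  have h9 : 2 * p.b * u i = 2 * (p.b * u i) := by ring
  have h10 : 2 ^ (K - 1) ≤ 2 ^ K := Nat.pow_le_pow_right (by norm_num) (by omega)
  omega

lemma Good.left {K d k : ℕ} (hK : 0 < K) (hk : k < d) {x y x' y' : ℕ → ℝ} {p : Ps}
    (h : Good K d x y p) (hn : p.nov K = true) (hx : ∀ l, l ≠ k → x' l = x l)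
    (hy : ∀ l, l ≠ k → y' l = y l) (h1 : x k = x' k) (h2 : y k = x' k + 2 * y' k) :
    Good K d x' y' (p.lft k) := by
  obtain ⟨c, u, hc0, hu0, hD, hU, hS, hcu, hul, hur, hsem, hpos⟩ := h.ex
  have hlt := nov_lt hK hn hS hcu
  have hv := h.vs k hk
  have hb : (p.lft k).b = p.b * 2 ^ p.n k := by
    show Nat.mul p.b (Nat.pow 2 (p.vs.getD k (0, 0, 0)).2.1) = _
    rw [hv]
    rfl
  have hsu : sem p.n d x y u = 2 ^ p.n k * sem p.n d x' y' u := by
    rw [← sem_gl hk hu0 hx hy h1 h2]
    have h3 : gl p.n k u (p.n k) = fun i => 2 ^ p.n k * u i := funext fun i => hul k hk i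
    rw [h3, sem_smul]
    push_cast
    ring
  refine ⟨h.vs, h.T, gl p.n k c (p.n k), u, ?_, hu0, ?_, hU, hS, ?_, hul, hur, ?_, ?_⟩
  · intro i hi
    exact (gl_sp hk hc0 (p.n k) le_rfl i hi).1
  · show pl (p.vs.getD k (0, 0, 0)).1 (p.vs.getD k (0, 0, 0)).2.2 p.D (p.vs.getD k (0, 0, 0)).2.1 = _
    rw [hv, hD]
    exact (pk_gl hK hk hlt hc0 (p.n k) le_rfl).symm
  · intro i
    have h3 := gl_le (n := p.n) (k := k) hcu (p.n k) i
    rw [hul k hk i] at h3
    rw [hb]
    calc gl p.n k c (p.n k) i ≤ 2 * p.b * (2 ^ p.n k * u i) := h3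
      _ = 2 * (p.b * 2 ^ p.n k) * u i := by ring
  · show ((p.lft k).b : ℝ) * sem p.n d x' y' u ≤ sem p.n d x' y' (gl p.n k c (p.n k))
    rw [sem_gl hk hc0 hx hy h1 h2, hb]
    push_cast
    rw [hsu] at hsem
    linarith
  · show 0 < sem p.n d x' y' u
    rw [hsu] at hpos
    exact (mul_pos_iff_of_pos_left (by positivity)).1 hpos

lemma Good.right {K d k : ℕ} (hK : 0 < K) (hk : k < d) {x y x' y' : ℕ → ℝ} {p : Ps}
    (h : Good K d x y p) (hn : p.nov K = true) (hx : ∀ l, l ≠ k → x' l = x l)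
    (hy : ∀ l, l ≠ k → y' l = y l) (h1 : y k = y' k) (h2 : x k = y' k + 2 * x' k) :
    Good K d x' y' (p.rgt k) := by
  obtain ⟨c, u, hc0, hu0, hD, hU, hS, hcu, hul, hur, hsem, hpos⟩ := h.ex
  have hlt := nov_lt hK hn hS hcu
  have hv := h.vs k hk
  have hb : (p.rgt k).b = p.b * 2 ^ p.n k := by
    show Nat.mul p.b (Nat.pow 2 (p.vs.getD k (0, 0, 0)).2.1) = _
    rw [hv]
    rfl
  have hsu : sem p.n d x y u = 2 ^ p.n k * sem p.n d x' y' u := by
    rw [← sem_gr hk hu0 hx hy h1 h2]
    have h3 : gr p.n k u (p.n k) = fun i => 2 ^ p.n k * u i := funext fun i => hur k hk i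
    rw [h3, sem_smul]
    push_cast
    ring
  refine ⟨h.vs, h.T, gr p.n k c (p.n k), u, ?_, hu0, ?_, hU, hS, ?_, hul, hur, ?_, ?_⟩
  · intro i hi
    exact (gr_sp hk hc0 (p.n k) le_rfl i hi).1
  · show pr (p.vs.getD k (0, 0, 0)).1 (p.vs.getD k (0, 0, 0)).2.2 p.D (p.vs.getD k (0, 0, 0)).2.1
      (p.vs.getD k (0, 0, 0)).2.1 = _
    rw [hv, hD]
    exact (pk_gr hK hk hlt hc0 (p.n k) le_rfl).symm
  · intro i
    have h3 := gr_le (n := p.n) (k := k) hcu (p.n k) i
    rw [hur k hk i] at h3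
    rw [hb]
    calc gr p.n k c (p.n k) i ≤ 2 * p.b * (2 ^ p.n k * u i) := h3
      _ = 2 * (p.b * 2 ^ p.n k) * u i := by ring
  · show ((p.rgt k).b : ℝ) * sem p.n d x' y' u ≤ sem p.n d x' y' (gr p.n k c (p.n k))
    rw [sem_gr hk hc0 hx hy h1 h2, hb]
    push_cast
    rw [hsu] at hsem
    linarith
  · show 0 < sem p.n d x' y' u
    rw [hsu] at hpos
    exact (mul_pos_iff_of_pos_left (by positivity)).1 hpos

theorem chk_sound {K d : ℕ} (hK : 0 < K) : ∀ (t : Tr) (ps : List Ps), chk K d t ps = true →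
    ∀ x y : ℕ → ℝ, (∀ k, 0 ≤ x k) → (∀ k, 0 ≤ y k) → (∀ p ∈ ps, Good K d x y p) → False := by
  intro t
  induction t with
  | neg i =>
    intro ps h x y hx hy hg
    have h' : (match ps[i]? with
      | some p => p.neg K
      | none => false) = true := h
    cases hp : ps[i]? with
    | none => rw [hp] at h'; exact Bool.false_ne_true h'
    | some p =>
      rw [hp] at h'
      exact (hg p (List.mem_of_getElem? hp)).no_neg hK hx hy h'
  | split k l r ihl ihr =>
    intro ps h x y hx hy hg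
    have h' : (Nat.blt k d && ps.all (Ps.nov K) && chk K d l (ps.map (Ps.lft k))
      && chk K d r (ps.map (Ps.rgt k))) = true := h
    simp only [Bool.and_eq_true] at h'
    obtain ⟨⟨⟨h1, h2⟩, h3⟩, h4⟩ := h'
    have hk : k < d := Nat.blt_eq.mp h1
    rw [List.all_eq_true] at h2
    rcases le_total (x k) (y k) with hle | hle
    · apply ihl _ h3 x (Function.update y k ((y k - x k) / 2)) hx
      · intro l
        by_cases hl : l = k
        · subst hl
          rw [Function.update_self]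
          linarith
        · rw [Function.update_of_ne hl]
          exact hy l
      · intro q hq
        obtain ⟨p, hp, rfl⟩ := List.mem_map.1 hq
        apply (hg p hp).left hK hk (h2 p hp) (fun _ _ => rfl)
        · intro l hl
          rw [Function.update_of_ne hl]
        · rfl
        · rw [Function.update_self]
          ring
    · apply ihr _ h4 (Function.update x k ((x k - y k) / 2)) y
      · intro l
        by_cases hl : l = k
        · subst hl
          rw [Function.update_self]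
          linarith
        · rw [Function.update_of_ne hl]
          exact hx l
      · exact hy
      · intro q hq
        obtain ⟨p, hp, rfl⟩ := List.mem_map.1 hq
        apply (hg p hp).right hK hk (h2 p hp)
        · intro l hl
          rw [Function.update_of_ne hl]
        · intro _ _
          rfl
        · rfl
        · rw [Function.update_self]
          ring

/-! ### formal sums -/

/-- `N B` is the packed form (base `B`) of a polynomial of degrees at most `t`, with the value `v` -/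
def FS (n : ℕ → ℕ) (d : ℕ) (x y : ℕ → ℝ) (t : ℕ → ℕ) (N : ℕ → ℕ) (v : ℝ) : Prop :=
  ∃ l : List (ℕ × ℕ), (∀ p ∈ l, p.1 < st n d ∧ ∀ k < d, J n k p.1 ≤ t k) ∧
    (∀ B, N B = (l.map fun p => p.2 * B ^ p.1).sum) ∧
    v = (l.map fun p => (p.2 : ℝ) * W n d x y t p.1).sum

lemma FS.congr {n : ℕ → ℕ} {d : ℕ} {x y : ℕ → ℝ} {t t' : ℕ → ℕ} {N : ℕ → ℕ} {v : ℝ}
    (h : FS n d x y t N v) (ht : ∀ k < d, t k = t' k) : FS n d x y t' N v := by
  obtain ⟨l, h1, h2, h3⟩ := h
  refine ⟨l, fun p hp => ⟨(h1 p hp).1, fun k hk => by rw [← ht k hk]; exact (h1 p hp).2 k hk⟩, h2, ?_⟩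
  rw [h3]
  congr 1
  apply List.map_congr_left
  intro p _
  congr 1
  unfold W
  apply prod_congr rfl
  intro k hk
  rw [ht k (mem_range.1 hk)]

lemma FS.add {n : ℕ → ℕ} {d : ℕ} {x y : ℕ → ℝ} {t : ℕ → ℕ} {N M : ℕ → ℕ} {v w : ℝ}
    (h : FS n d x y t N v) (h' : FS n d x y t M w) : FS n d x y t (fun B => N B + M B) (v + w) := by
  obtain ⟨l, h1, h2, h3⟩ := h
  obtain ⟨l', h1', h2', h3'⟩ := h'
  refine ⟨l ++ l', ?_, ?_, ?_⟩
  · intro p hp
    rcases List.mem_append.1 hp with hp | hp
    · exact h1 p hp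
    · exact h1' p hp
  · intro B
    rw [List.map_append, List.sum_append, ← h2, ← h2']
  · rw [List.map_append, List.sum_append, ← h3, ← h3']

lemma sum_prod {R : Type*} [CommSemiring R] (l l' : List (ℕ × ℕ)) (F G H : ℕ × ℕ → R)
    (h : ∀ p ∈ l, ∀ q ∈ l', H (p.1 + q.1, p.2 * q.2) = F p * G q) :
    ((l.flatMap fun p => l'.map fun q => (p.1 + q.1, p.2 * q.2)).map H).sum
      = (l.map F).sum * (l'.map G).sum := by
  induction l with
  | nil => simp
  | cons p l ih =>
    rw [List.flatMap_cons, List.map_append, List.sum_append,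
      ih (fun a ha => h a (List.mem_cons_of_mem _ ha)), List.map_cons, List.sum_cons, add_mul]
    congr 1
    rw [List.map_map]
    have h1 : ∀ m : List (ℕ × ℕ), (∀ q ∈ m, q ∈ l') →
        (m.map (H ∘ fun q => (p.1 + q.1, p.2 * q.2))).sum = F p * (m.map G).sum := by
      intro m
      induction m with
      | nil => simp
      | cons q m ihm =>
        intro hm
        rw [List.map_cons, List.sum_cons, List.map_cons, List.sum_cons, mul_add,
          ihm (fun a ha => hm a (List.mem_cons_of_mem _ ha))]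
        congr 1
        exact h p (List.mem_cons_self) q (hm q (List.mem_cons_self))
    exact h1 l' (fun q hq => hq)

lemma FS.mul {n : ℕ → ℕ} {d : ℕ} {x y : ℕ → ℝ} {t s : ℕ → ℕ} {N M : ℕ → ℕ} {v w : ℝ}
    (h : FS n d x y t N v) (h' : FS n d x y s M w) (hn : ∀ k < d, t k + s k ≤ n k) :
    FS n d x y (fun k => t k + s k) (fun B => N B * M B) (v * w) := by
  obtain ⟨l, h1, h2, h3⟩ := h
  obtain ⟨l', h1', h2', h3'⟩ := h'
  refine ⟨l.flatMap fun p => l'.map fun q => (p.1 + q.1, p.2 * q.2), ?_, ?_, ?_⟩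
  · intro a ha
    obtain ⟨p, hp, ha⟩ := List.mem_flatMap.1 ha
    obtain ⟨q, hq, rfl⟩ := List.mem_map.1 ha
    have h4 : ∀ k < d, J n k p.1 + J n k q.1 ≤ n k := fun k hk =>
      le_trans (Nat.add_le_add ((h1 p hp).2 k hk) ((h1' q hq).2 k hk)) (hn k hk)
    refine ⟨add_lt_st n d _ _ (h1 p hp).1 (h1' q hq).1 h4, fun k hk => ?_⟩
    rw [J_add n d _ _ h4 k hk]
    exact Nat.add_le_add ((h1 p hp).2 k hk) ((h1' q hq).2 k hk)
  · intro B
    show N B * M B = _
    rw [h2, h2', sum_prod l l' (fun p => p.2 * B ^ p.1) (fun p => p.2 * B ^ p.1)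
      (fun p => p.2 * B ^ p.1)]
    intro p _ q _
    show p.2 * q.2 * B ^ (p.1 + q.1) = _
    rw [pow_add]
    ring
  · rw [h3, h3', sum_prod l l' (fun p => (p.2 : ℝ) * W n d x y t p.1)
      (fun p => (p.2 : ℝ) * W n d x y s p.1)
      (fun p => (p.2 : ℝ) * W n d x y (fun k => t k + s k) p.1)]
    intro p hp q hq
    have h4 : ∀ k < d, J n k p.1 + J n k q.1 ≤ n k := fun k hk =>
      le_trans (Nat.add_le_add ((h1 p hp).2 k hk) ((h1' q hq).2 k hk)) (hn k hk)
    have h5 : W n d x y (fun k => t k + s k) (p.1 + q.1) = W n d x y t p.1 * W n d x y s q.1 := by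
      unfold W
      rw [← prod_mul_distrib]
      apply prod_congr rfl
      intro k hk
      have hk' := mem_range.1 hk
      have h6 := (h1 p hp).2 k hk'
      have h7 := (h1' q hq).2 k hk'
      rw [J_add n d _ _ h4 k hk', show t k + s k - (J n k p.1 + J n k q.1)
        = (t k - J n k p.1) + (s k - J n k q.1) by omega, pow_add, pow_add]
      ring
    show ((p.2 * q.2 : ℕ) : ℝ) * W n d x y (fun k => t k + s k) (p.1 + q.1) = _
    rw [h5]
    push_cast
    ring

lemma J_zero (n : ℕ → ℕ) (k : ℕ) : J n k 0 = 0 := by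
  show 0 / st n k % (n k + 1) = 0
  rw [Nat.zero_div, Nat.zero_mod]

lemma FS.con (n : ℕ → ℕ) (d : ℕ) (x y : ℕ → ℝ) (c : ℕ) :
    FS n d x y (fun _ => 0) (fun _ => c) c := by
  refine ⟨[(0, c)], ?_, ?_, ?_⟩
  · intro p hp
    rw [List.mem_singleton] at hp
    subst hp
    exact ⟨st_pos n d, fun k _ => (J_zero n k).le⟩
  · intro B
    simp
  · simp [W, J_zero]

lemma FS.lin (n : ℕ → ℕ) {d m : ℕ} (hm : m < d) (hn : 1 ≤ n m) (x y : ℕ → ℝ) (a b : ℕ) :
    FS n d x y (fun k => if k = m then 1 else 0) (fun B => a + b * B ^ st n m)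
      (a * y m + b * x m) := by
  have h1 : ∀ k, J n k (1 * st n m) = if k = m then 1 else 0 := by
    intro k
    split_ifs with h
    · subst h
      exact J_mul_self n k 1 hn
    · exact J_mul_ne n 1 hn h
  rw [one_mul] at h1
  have hW0 : W n d x y (fun k => if k = m then 1 else 0) 0 = y m := by
    unfold W
    rw [prod_eq_single m]
    · simp [J_zero]
    · intro k _ hk
      simp [J_zero, hk]
    · intro h
      exact absurd (mem_range.2 hm) h
  have hW1 : W n d x y (fun k => if k = m then 1 else 0) (st n m) = x m := by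
    unfold W
    rw [prod_eq_single m]
    · simp [h1]
    · intro k _ hk
      simp [h1, hk]
    · intro h
      exact absurd (mem_range.2 hm) h
  refine ⟨[(0, a), (st n m, b)], ?_, ?_, ?_⟩
  · intro p hp
    simp only [List.mem_cons, List.not_mem_nil, or_false] at hp
    rcases hp with rfl | rfl
    · exact ⟨st_pos n d, fun k _ => by rw [J_zero]; exact Nat.zero_le _⟩
    · refine ⟨?_, fun k _ => (h1 k).le⟩
      have := mul_lt_st n hm hn
      rwa [one_mul] at this
  · intro B
    simp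
  · simp only [List.map_cons, List.map_nil, List.sum_cons, List.sum_nil, add_zero]
    rw [hW0, hW1]

lemma FS.powlin (n : ℕ → ℕ) {d m : ℕ} (hm : m < d) (x y : ℕ → ℝ) (a : ℕ) : ∀ e, e ≤ n m →
    FS n d x y (fun k => if k = m then e else 0) (fun B => (a * (1 + B ^ st n m)) ^ e)
      ((a * (x m + y m)) ^ e) := by
  intro e
  induction e with
  | zero =>
    intro _
    have h := FS.con n d x y 1
    apply (show FS n d x y (fun _ => 0) (fun B => (a * (1 + B ^ st n m)) ^ 0)
      ((a * (x m + y m)) ^ 0) by simpa using h).congr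
    intro k _
    split_ifs <;> rfl
  | succ e ih =>
    intro he
    have h1 := (ih (by omega)).mul (FS.lin n hm (by omega) x y a a) (by
      intro k _
      show (if k = m then e else 0) + (if k = m then 1 else 0) ≤ n k
      split_ifs with h
      · subst h; exact he
      · exact Nat.zero_le _)
    have h2 := h1.congr (t' := fun k => if k = m then e + 1 else 0) (by
      intro k _
      show (if k = m then e else 0) + (if k = m then 1 else 0) = _
      split_ifs <;> rfl)
    obtain ⟨l, h3, h4, h5⟩ := h2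
    refine ⟨l, h3, ?_, ?_⟩
    · intro B
      rw [← h4 B]
      show (a * (1 + B ^ st n m)) ^ (e + 1) = (a * (1 + B ^ st n m)) ^ e * (a + a * B ^ st n m)
      rw [pow_succ]
      ring
    · rw [← h5, pow_succ]
      ring

/-- the product of the denominators -/
def rs (B : ℕ) (n dn t : ℕ → ℕ) : ℕ → ℕ
  | 0 => 1
  | m + 1 => rs B n dn t m * (dn m * (1 + B ^ st n m)) ^ t m

lemma FS.rs (n : ℕ → ℕ) (d : ℕ) (x y : ℕ → ℝ) (dn t : ℕ → ℕ) (ht : ∀ k < d, t k ≤ n k) :
    ∀ m, m ≤ d → FS n d x y (fun k => if k < m then t k else 0) (fun B => BernK.rs B n dn t m)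
      (∏ k ∈ range m, (dn k * (x k + y k)) ^ t k) := by
  intro m
  induction m with
  | zero =>
    intro _
    have h := FS.con n d x y 1
    apply (show FS n d x y (fun _ => 0) (fun B => BernK.rs B n dn t 0)
      (∏ k ∈ range 0, (dn k * (x k + y k)) ^ t k) by simpa [BernK.rs] using h).congr
    intro k _
    rw [if_neg (Nat.not_lt_zero _)]
  | succ m ih =>
    intro hm
    have h1 := (ih (by omega)).mul (FS.powlin n (show m < d by omega) x y (dn m) (t m)
      (ht m (by omega))) (by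
      intro k hk
      show (if k < m then t k else 0) + (if k = m then t m else 0) ≤ n k
      have := ht k hk
      by_cases h2 : k = m
      · subst h2
        rw [if_neg (lt_irrefl _), if_pos rfl]
        omega
      · rw [if_neg h2]
        split_ifs <;> omega)
    rw [prod_range_succ]
    apply h1.congr
    intro k _
    show (if k < m then t k else 0) + (if k = m then t m else 0) = if k < m + 1 then t k else 0
    by_cases h2 : k = m
    · subst h2
      rw [if_neg (lt_irrefl _), if_pos rfl, if_pos (by omega), zero_add]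
    · rw [if_neg h2, add_zero]
      by_cases h3 : k < m
      · rw [if_pos h3, if_pos (by omega)]
      · rw [if_neg h3, if_neg (by omega)]

/-- the digits of a formal sum -/
lemma FS.digits {n : ℕ → ℕ} {d : ℕ} {x y : ℕ → ℝ} {N : ℕ → ℕ} {v : ℝ} (h : FS n d x y n N v) :
    ∃ c : ℕ → ℕ, (∀ i, c i ≠ 0 → i < st n d) ∧ (∀ B, N B = pk B (st n d) c) ∧ (∀ i, c i ≤ N 1) ∧
      v = sem n d x y c := by
  obtain ⟨l, h1, h2, h3⟩ := h
  have key : ∀ {R : Type} [CommSemiring R] (F : ℕ → R) (l : List (ℕ × ℕ)),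
      (∀ p ∈ l, p.1 < st n d) →
      ∑ i ∈ range (st n d), (((l.map fun p => if p.1 = i then p.2 else 0).sum : ℕ) : R) * F i
        = (l.map fun p => (p.2 : R) * F p.1).sum := by
    intro R _ F l
    induction l with
    | nil => simp
    | cons p l ih =>
      intro hl
      rw [List.map_cons, List.sum_cons, ← ih (fun q hq => hl q (List.mem_cons_of_mem _ hq))]
      have h4 : ∀ i ∈ range (st n d), ((((p :: l).map fun p => if p.1 = i then p.2 else 0).sum : ℕ) : R)
          * F i = (if p.1 = i then (p.2 : R) * F i else 0)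
          + (((l.map fun p => if p.1 = i then p.2 else 0).sum : ℕ) : R) * F i := by
        intro i _
        rw [List.map_cons, List.sum_cons]
        push_cast
        split_ifs <;> ring
      rw [sum_congr rfl h4, sum_add_distrib, sum_ite_eq, if_pos (mem_range.2 (hl p List.mem_cons_self))]
  refine ⟨fun i => (l.map fun p => if p.1 = i then p.2 else 0).sum, ?_, ?_, ?_, ?_⟩
  · intro i hi
    by_contra h4
    apply hi
    apply List.sum_eq_zero
    intro a ha
    obtain ⟨p, hp, rfl⟩ := List.mem_map.1 ha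
    rw [if_neg]
    intro h5
    exact h4 (h5 ▸ (h1 p hp).1)
  · intro B
    rw [h2 B]
    have h4 := key (R := ℕ) (fun i => B ^ i) l (fun p hp => (h1 p hp).1)
    simp only [Nat.cast_id] at h4
    exact h4.symm
  · intro i
    rw [h2 1]
    apply List.sum_le_sum
    intro p _
    rw [one_pow, mul_one]
    split_ifs
    · exact le_rfl
    · exact Nat.zero_le _
  · rw [h3]
    exact (key (R := ℝ) (W n d x y n) l (fun p hp => (h1 p hp).1)).symm

/-! ### expressions -/

/-- polynomial expressions -/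
inductive Ex
  | con (c : ℕ)
  | var (k : ℕ)
  | add (a b : Ex)
  | sub (a b : Ex)
  | mul (a b : Ex)

/-- the value -/
noncomputable def Ex.ev (r : ℕ → ℝ) : Ex → ℝ
  | con c => c
  | var k => r k
  | add a b => a.ev r + b.ev r
  | sub a b => a.ev r - b.ev r
  | mul a b => a.ev r * b.ev r

/-- the degrees -/
def Ex.deg : Ex → ℕ → ℕ
  | con _, _ => 0
  | var l, k => if k = l then 1 else 0
  | add a b, k => max (a.deg k) (b.deg k)
  | sub a b, k => max (a.deg k) (b.deg k)
  | mul a b, k => a.deg k + b.deg k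

/-- only the variables below `d` occur -/
def Ex.ok (d : ℕ) : Ex → Bool
  | con _ => true
  | var k => Nat.blt k d
  | add a b => a.ok d && b.ok d
  | sub a b => a.ok d && b.ok d
  | mul a b => a.ok d && b.ok d

/-- the packed form on the box `bx`, the positive and the negative part -/
def Ex.pev (B : ℕ) (n : ℕ → ℕ) (d : ℕ) (bx : ℕ → ℕ × ℕ × ℕ) : Ex → ℕ × ℕ
  | con c => (c, 0)
  | var k => ((bx k).1 + (bx k).2.1 * B ^ st n k, 0)
  | add a b =>
    (rs B n (fun k => (bx k).2.2) (fun k => max (a.deg k) (b.deg k) - a.deg k) d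
        * (a.pev B n d bx).1
      + rs B n (fun k => (bx k).2.2) (fun k => max (a.deg k) (b.deg k) - b.deg k) d
        * (b.pev B n d bx).1,
     rs B n (fun k => (bx k).2.2) (fun k => max (a.deg k) (b.deg k) - a.deg k) d
        * (a.pev B n d bx).2
      + rs B n (fun k => (bx k).2.2) (fun k => max (a.deg k) (b.deg k) - b.deg k) d
        * (b.pev B n d bx).2)
  | sub a b =>
    (rs B n (fun k => (bx k).2.2) (fun k => max (a.deg k) (b.deg k) - a.deg k) d
        * (a.pev B n d bx).1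
      + rs B n (fun k => (bx k).2.2) (fun k => max (a.deg k) (b.deg k) - b.deg k) d
        * (b.pev B n d bx).2,
     rs B n (fun k => (bx k).2.2) (fun k => max (a.deg k) (b.deg k) - a.deg k) d
        * (a.pev B n d bx).2
      + rs B n (fun k => (bx k).2.2) (fun k => max (a.deg k) (b.deg k) - b.deg k) d
        * (b.pev B n d bx).1)
  | mul a b =>
    ((a.pev B n d bx).1 * (b.pev B n d bx).1 + (a.pev B n d bx).2 * (b.pev B n d bx).2,
     (a.pev B n d bx).1 * (b.pev B n d bx).2 + (a.pev B n d bx).2 * (b.pev B n d bx).1)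

/-- what `pev` says -/
def PV (n : ℕ → ℕ) (d : ℕ) (bx : ℕ → ℕ × ℕ × ℕ) (x y r : ℕ → ℝ) (e : Ex) : Prop :=
  ∃ v w : ℝ, FS n d x y e.deg (fun B => (e.pev B n d bx).1) v ∧
    FS n d x y e.deg (fun B => (e.pev B n d bx).2) w ∧
    v - w = (∏ k ∈ range d, (((bx k).2.2 : ℕ) * (x k + y k)) ^ e.deg k) * e.ev r

lemma FS.raise {n : ℕ → ℕ} {d : ℕ} {x y : ℕ → ℝ} {t s : ℕ → ℕ} {N : ℕ → ℕ} {v : ℝ}
    (h : FS n d x y t N v) (dn : ℕ → ℕ) (hts : ∀ k < d, t k ≤ s k) (hs : ∀ k < d, s k ≤ n k) :
    FS n d x y s (fun B => BernK.rs B n dn (fun k => s k - t k) d * N B)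
      ((∏ k ∈ range d, (dn k * (x k + y k)) ^ (s k - t k)) * v) := by
  have h1 := (FS.rs n d x y dn (fun k => s k - t k) (fun k hk => by
    have := hs k hk
    show s k - t k ≤ n k
    omega) d le_rfl).mul h (by
    intro k hk
    show (if k < d then s k - t k else 0) + t k ≤ n k
    rw [if_pos hk]
    have := hts k hk
    have := hs k hk
    omega)
  apply h1.congr
  intro k hk
  show (if k < d then s k - t k else 0) + t k = s k
  rw [if_pos hk]
  have := hts k hk
  omega

lemma prod_raise (d : ℕ) (z : ℕ → ℝ) (t s : ℕ → ℕ) (hts : ∀ k < d, t k ≤ s k) :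
    (∏ k ∈ range d, z k ^ (s k - t k)) * ∏ k ∈ range d, z k ^ t k = ∏ k ∈ range d, z k ^ s k := by
  rw [← prod_mul_distrib]
  apply prod_congr rfl
  intro k hk
  have := hts k (mem_range.1 hk)
  rw [← pow_add]
  congr 1
  omega

lemma pv (n : ℕ → ℕ) (d : ℕ) (bx : ℕ → ℕ × ℕ × ℕ) (x y r : ℕ → ℝ)
    (hr : ∀ k < d, r k * (((bx k).2.2 : ℕ) * (x k + y k)) = (bx k).1 * y k + (bx k).2.1 * x k) :
    ∀ e : Ex, e.ok d = true → (∀ k < d, e.deg k ≤ n k) → PV n d bx x y r e := by
  intro e
  induction e with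
  | con c =>
    intro _ _
    refine ⟨c, 0, FS.con n d x y c, ?_, ?_⟩
    · have := FS.con n d x y 0
      rw [Nat.cast_zero] at this
      exact this
    · simp [Ex.deg, Ex.ev]
  | var m =>
    intro hok hdeg
    have hm : m < d := Nat.blt_eq.mp hok
    have hn : 1 ≤ n m := by
      have := hdeg m hm
      simp only [Ex.deg, if_true] at this
      exact this
    refine ⟨_, 0, FS.lin n hm hn x y (bx m).1 (bx m).2.1, ?_, ?_⟩
    · obtain ⟨l, h1, h2, h3⟩ := FS.con n d x y 0
      exact ⟨[], by simp, by intro B; simp [Ex.pev], by simp⟩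
    · have h1 : (∏ k ∈ range d, (((bx k).2.2 : ℕ) * (x k + y k)) ^ (Ex.var m).deg k)
          = (((bx m).2.2 : ℕ) : ℝ) * (x m + y m) := by
        rw [prod_eq_single m]
        · simp [Ex.deg]
        · intro k _ hk
          simp [Ex.deg, hk]
        · intro h
          exact absurd (mem_range.2 hm) h
      rw [h1]
      show _ = _ * r m
      have := hr m hm
      linarith
  | add a b iha ihb =>
    intro hok hdeg
    have hok' : a.ok d = true ∧ b.ok d = true := Bool.and_eq_true_iff.1 hok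
    have hda : ∀ k < d, a.deg k ≤ max (a.deg k) (b.deg k) := fun k _ => le_max_left _ _
    have hdb : ∀ k < d, b.deg k ≤ max (a.deg k) (b.deg k) := fun k _ => le_max_right _ _
    have hdeg' : ∀ k < d, max (a.deg k) (b.deg k) ≤ n k := hdeg
    obtain ⟨v, w, h1, h2, h3⟩ := iha hok'.1 (fun k hk => le_trans (hda k hk) (hdeg' k hk))
    obtain ⟨v', w', h1', h2', h3'⟩ := ihb hok'.2 (fun k hk => le_trans (hdb k hk) (hdeg' k hk))
    have e1 := prod_raise d (fun k => ((bx k).2.2 : ℕ) * (x k + y k)) a.deg _ hda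
    have e2 := prod_raise d (fun k => ((bx k).2.2 : ℕ) * (x k + y k)) b.deg _ hdb
    refine ⟨_, _, (h1.raise (fun k => (bx k).2.2) hda hdeg').add
      (h1'.raise (fun k => (bx k).2.2) hdb hdeg'),
      (h2.raise (fun k => (bx k).2.2) hda hdeg').add (h2'.raise (fun k => (bx k).2.2) hdb hdeg'), ?_⟩
    show _ = (∏ k ∈ range d, (((bx k).2.2 : ℕ) * (x k + y k)) ^ max (a.deg k) (b.deg k))
      * (a.ev r + b.ev r)
    rw [mul_add]
    nth_rewrite 1 [← e1]
    rw [← e2, mul_assoc, mul_assoc, ← h3, ← h3']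
    ring
  | sub a b iha ihb =>
    intro hok hdeg
    have hok' : a.ok d = true ∧ b.ok d = true := Bool.and_eq_true_iff.1 hok
    have hda : ∀ k < d, a.deg k ≤ max (a.deg k) (b.deg k) := fun k _ => le_max_left _ _
    have hdb : ∀ k < d, b.deg k ≤ max (a.deg k) (b.deg k) := fun k _ => le_max_right _ _
    have hdeg' : ∀ k < d, max (a.deg k) (b.deg k) ≤ n k := hdeg
    obtain ⟨v, w, h1, h2, h3⟩ := iha hok'.1 (fun k hk => le_trans (hda k hk) (hdeg' k hk))
    obtain ⟨v', w', h1', h2', h3'⟩ := ihb hok'.2 (fun k hk => le_trans (hdb k hk) (hdeg' k hk))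
    have e1 := prod_raise d (fun k => ((bx k).2.2 : ℕ) * (x k + y k)) a.deg _ hda
    have e2 := prod_raise d (fun k => ((bx k).2.2 : ℕ) * (x k + y k)) b.deg _ hdb
    refine ⟨_, _, (h1.raise (fun k => (bx k).2.2) hda hdeg').add
      (h2'.raise (fun k => (bx k).2.2) hdb hdeg'),
      (h2.raise (fun k => (bx k).2.2) hda hdeg').add (h1'.raise (fun k => (bx k).2.2) hdb hdeg'), ?_⟩
    show _ = (∏ k ∈ range d, (((bx k).2.2 : ℕ) * (x k + y k)) ^ max (a.deg k) (b.deg k))
      * (a.ev r - b.ev r)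
    rw [mul_sub]
    nth_rewrite 1 [← e1]
    rw [← e2, mul_assoc, mul_assoc, ← h3, ← h3']
    ring
  | mul a b iha ihb =>
    intro hok hdeg
    have hok' : a.ok d = true ∧ b.ok d = true := Bool.and_eq_true_iff.1 hok
    have hdeg' : ∀ k < d, a.deg k + b.deg k ≤ n k := hdeg
    obtain ⟨v, w, h1, h2, h3⟩ := iha hok'.1 (fun k hk => by have := hdeg' k hk; omega)
    obtain ⟨v', w', h1', h2', h3'⟩ := ihb hok'.2 (fun k hk => by have := hdeg' k hk; omega)
    refine ⟨_, _, (h1.mul h1' hdeg').add (h2.mul h2' hdeg'), (h1.mul h2' hdeg').add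
      (h2.mul h1' hdeg'), ?_⟩
    show _ = (∏ k ∈ range d, (((bx k).2.2 : ℕ) * (x k + y k)) ^ (a.deg k + b.deg k))
      * (a.ev r * b.ev r)
    have e1 : (∏ k ∈ range d, (((bx k).2.2 : ℕ) * (x k + y k)) ^ (a.deg k + b.deg k))
        = (∏ k ∈ range d, (((bx k).2.2 : ℕ) * (x k + y k)) ^ a.deg k)
          * ∏ k ∈ range d, (((bx k).2.2 : ℕ) * (x k + y k)) ^ b.deg k := by
      rw [← prod_mul_distrib]
      apply prod_congr rfl
      intro k _
      rw [pow_add]
    rw [e1]
    calc v * v' + w * w' - (v * w' + w * v') = (v - w) * (v' - w') := by ring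
      _ = _ := by rw [h3, h3']; ring

/-! ### the check -/

/-- the initial state of the polynomial `e` with the bias `b` -/
def mkPs (K d : ℕ) (bx : ℕ → ℕ × ℕ × ℕ) (e : Ex) (b : ℕ) : Ps :=
  ⟨e.deg, (List.range d).map fun k => (K * st e.deg k, e.deg k, msk K e.deg d k),
    rs (2 ^ K) e.deg (fun _ => 1) e.deg d, rs 1 e.deg (fun _ => 1) e.deg d,
    2 ^ (K - 1) * ((2 ^ (K * st e.deg d) - 1) / (2 ^ K - 1)),
    (e.pev (2 ^ K) e.deg d bx).1 + b * rs (2 ^ K) e.deg (fun _ => 1) e.deg d
      - (e.pev (2 ^ K) e.deg d bx).2, b⟩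

/-- the conditions at the root -/
def root (K d : ℕ) (bx : ℕ → ℕ × ℕ × ℕ) (e : Ex) (b : ℕ) : Bool :=
  e.ok d &&
  Nat.blt ((e.pev 1 e.deg d bx).1 + (e.pev 1 e.deg d bx).2 + 2 * b * (mkPs K d bx e b).S)
    (2 ^ (K - 1)) &&
  le (mkPs K d bx e b).T (e.pev (2 ^ K) e.deg d bx).2 (b * (mkPs K d bx e b).U) &&
  le (mkPs K d bx e b).T (mkPs K d bx e b).D (2 * b * (mkPs K d bx e b).U) &&
  (List.range d).all (fun k =>
    Nat.blt (4 ^ e.deg k * (mkPs K d bx e b).S) (2 ^ K) &&
    Nat.beq (pl (K * st e.deg k) (msk K e.deg d k) (mkPs K d bx e b).U (e.deg k))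
      (2 ^ e.deg k * (mkPs K d bx e b).U) &&
    Nat.beq (pr (K * st e.deg k) (msk K e.deg d k) (mkPs K d bx e b).U (e.deg k) (e.deg k))
      (2 ^ e.deg k * (mkPs K d bx e b).U))

/-- **the check**: `K` bits per digit, `d` variables, the box `(lo, hi, denominator)`, the polynomials
with their biases, the tree -/
noncomputable def run (K d : ℕ) (bx : List (ℕ × ℕ × ℕ)) (gs : List (Ex × ℕ)) (t : Tr) : Bool :=
  Nat.blt 0 K &&
  (List.range d).all (fun k => Nat.blt (bx.getD k (0, 1, 1)).1 (bx.getD k (0, 1, 1)).2.1 &&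
    Nat.blt 0 (bx.getD k (0, 1, 1)).2.2) &&
  gs.all (fun g => root K d (fun k => bx.getD k (0, 1, 1)) g.1 g.2) &&
  chk K d t (gs.map fun g => mkPs K d (fun k => bx.getD k (0, 1, 1)) g.1 g.2)

lemma digits_eq {K : ℕ} {n : ℕ → ℕ} {d : ℕ} {c u : ℕ → ℕ} (hc : ∀ i, c i ≠ 0 → i < st n d)
    (hu : ∀ i, u i ≠ 0 → i < st n d) (bc : ∀ i, c i < 2 ^ K) (bu : ∀ i, u i < 2 ^ K)
    (h : pk (2 ^ K) (st n d) c = pk (2 ^ K) (st n d) u) (i : ℕ) : c i = u i := by
  by_cases hi : i < st n d
  · exact pk_inj _ _ _ (fun i _ => bc i) (fun i _ => bu i) h i hi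
  · have h1 : c i = 0 := by
      by_contra h2
      exact hi (hc i h2)
    have h2 : u i = 0 := by
      by_contra h2
      exact hi (hu i h2)
    rw [h1, h2]

lemma good_root {K d : ℕ} (hK : 0 < K) (bx : ℕ → ℕ × ℕ × ℕ) (x y r : ℕ → ℝ)
    (hxy : ∀ k < d, 0 < x k + y k)
    (hr : ∀ k < d, r k * (((bx k).2.2 : ℕ) * (x k + y k)) = (bx k).1 * y k + (bx k).2.1 * x k)
    {e : Ex} {b : ℕ} (h : root K d bx e b = true) (he : 0 ≤ e.ev r) :
    Good K d x y (mkPs K d bx e b) := by
  unfold root at h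
  simp only [Bool.and_eq_true] at h
  obtain ⟨⟨⟨⟨hok, hbd⟩, hq⟩, hD⟩, hall⟩ := h
  have hbd' := Nat.blt_eq.mp hbd
  set n := e.deg with hn
  obtain ⟨v, w, hv, hw, hvw⟩ := pv n d bx x y r hr e hok (fun k _ => le_rfl)
  obtain ⟨cp, cp0, cpk, cpb, cpv⟩ := hv.digits
  obtain ⟨cq, cq0, cqk, cqb, cqv⟩ := hw.digits
  have hU := (FS.rs n d x y (fun _ => 1) n (fun k _ => le_rfl) d le_rfl).congr (t' := n) (by
    intro k hk
    show (if k < d then n k else 0) = n k
    rw [if_pos hk])
  obtain ⟨u, u0, uk, ub, uv⟩ := hU.digits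
  have hS : ∀ i, u i ≤ (mkPs K d bx e b).S := ub
  have hUk : (mkPs K d bx e b).U = pk (2 ^ K) (st n d) u := uk (2 ^ K)
  have hT : (mkPs K d bx e b).T = pk (2 ^ K) (st n d) (fun _ => 2 ^ (K - 1)) := by
    rw [pk_const' hK]
    rfl
  have hP : (e.pev (2 ^ K) n d bx).1 = pk (2 ^ K) (st n d) cp := cpk (2 ^ K)
  have hQ : (e.pev (2 ^ K) n d bx).2 = pk (2 ^ K) (st n d) cq := cqk (2 ^ K)
  have cpb' : ∀ i, cp i ≤ (e.pev 1 n d bx).1 := cpb
  have cqb' : ∀ i, cq i ≤ (e.pev 1 n d bx).2 := cqb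
  have h2b : ∀ i, 2 * b * u i ≤ 2 * b * (mkPs K d bx e b).S := fun i => Nat.mul_le_mul_left _ (hS i)
  have h2b' : ∀ i, 2 * b * u i = 2 * (b * u i) := fun i => by ring
  -- the negative part is below the bias
  have hqb : ∀ i, cq i ≤ b * u i := by
    intro i
    by_cases hi : i < st n d
    · refine le_sound (ca := cq) (cb := fun i => b * u i) hK hQ (by rw [pk_smul, ← hUk]) ?_ ?_
        (by rw [← hT]; exact hq) i hi
      · intro i
        have := cqb' i
        omega
      · intro i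
        have h3 := h2b i
        have h4 := h2b' i
        show b * u i < _
        omega
    · have h1 : cq i = 0 := by
        by_contra h2
        exact hi (cq0 i h2)
      rw [h1]
      exact Nat.zero_le _
  have hDk : (mkPs K d bx e b).D = pk (2 ^ K) (st n d) (fun i => cp i + b * u i - cq i) := by
    have h3 : pk (2 ^ K) (st n d) (fun i => cp i + b * u i - cq i) + pk (2 ^ K) (st n d) cq
        = pk (2 ^ K) (st n d) cp + b * pk (2 ^ K) (st n d) u := by
      rw [← pk_add, ← pk_smul, ← pk_add]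
      apply pk_congr
      intro i _
      have := hqb i
      show cp i + b * u i - cq i + cq i = cp i + b * u i
      omega
    have h4 : (mkPs K d bx e b).D = (e.pev (2 ^ K) n d bx).1 + b * (mkPs K d bx e b).U
        - (e.pev (2 ^ K) n d bx).2 := rfl
    rw [h4, hP, hQ, hUk]
    omega
  have hc2 : ∀ i, cp i + b * u i - cq i ≤ 2 * b * u i := by
    intro i
    by_cases hi : i < st n d
    · refine le_sound (ca := fun i => cp i + b * u i - cq i) (cb := fun i => 2 * b * u i) hK hDk
        (by rw [pk_smul, ← hUk]) ?_ ?_ (by rw [← hT]; exact hD) i hi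
      · intro i
        have h3 := cpb' i
        have h4 := h2b i
        have h5 := h2b' i
        show cp i + b * u i - cq i < _
        omega
      · intro i
        have h4 := h2b i
        show 2 * b * u i < _
        omega
    · have h1 : cp i = 0 := by
        by_contra h2
        exact hi (cp0 i h2)
      have h2 : u i = 0 := by
        by_contra h2
        exact hi (u0 i h2)
      rw [h1, h2]
      simp
  have hu4 : ∀ k < d, 4 ^ n k * (mkPs K d bx e b).S < 2 ^ K ∧
      pl (K * st n k) (msk K n d k) (mkPs K d bx e b).U (n k) = 2 ^ n k * (mkPs K d bx e b).U ∧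
      pr (K * st n k) (msk K n d k) (mkPs K d bx e b).U (n k) (n k)
        = 2 ^ n k * (mkPs K d bx e b).U := by
    intro k hk
    rw [List.all_eq_true] at hall
    have h3 := hall k (List.mem_range.2 hk)
    simp only [Bool.and_eq_true] at h3
    exact ⟨Nat.blt_eq.mp h3.1.1, Nat.eq_of_beq_eq_true h3.1.2, Nat.eq_of_beq_eq_true h3.2⟩
  have hulk : 0 < d → ∀ i, u i < 2 ^ K := by
    intro hd i
    have h3 := (hu4 0 hd).1
    have h4 : (mkPs K d bx e b).S ≤ 4 ^ n 0 * (mkPs K d bx e b).S :=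
      Nat.le_mul_of_pos_left _ (by positivity)
    exact lt_of_le_of_lt (hS i) (by omega)
  have h24 : ∀ k, 2 ^ n k ≤ 4 ^ n k := fun k => Nat.pow_le_pow_left (by norm_num) _
  refine ⟨?_, hT, fun i => cp i + b * u i - cq i, u, ?_, u0, hDk, hUk, hS, hc2, ?_, ?_, ?_, ?_⟩
  · intro k hk
    show ((List.range d).map fun k => (K * st n k, n k, msk K n d k)).getD k (0, 0, 0) = _
    rw [List.getD_eq_getElem?_getD, List.getElem?_map, List.getElem?_range hk]
    rfl
  · intro i hi
    by_contra h3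
    apply hi
    have h1 : cp i = 0 := by
      by_contra h2
      exact h3 (cp0 i h2)
    have h2 : u i = 0 := by
      by_contra h2
      exact h3 (u0 i h2)
    show cp i + b * u i - cq i = 0
    rw [h1, h2]
    simp
  · intro k hk
    obtain ⟨h3, h4, h5⟩ := hu4 k hk
    have hul := hulk (by omega)
    apply digits_eq (n := n) (d := d) (K := K)
    · intro i hi
      exact (gl_sp hk u0 (n k) le_rfl i hi).1
    · intro i hi
      exact u0 i (fun h6 => hi (by rw [h6, mul_zero]))
    · intro i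
      exact lt_of_le_of_lt (gl_bd hS (n k) i) h3
    · intro i
      exact lt_of_le_of_lt (Nat.mul_le_mul (h24 k) (hS i)) h3
    · show pk (2 ^ K) (st n d) (gl n k u (n k)) = pk (2 ^ K) (st n d) (fun i => 2 ^ n k * u i)
      rw [pk_gl hK hk hul u0 (n k) le_rfl, pk_smul, ← hUk]
      exact h4
  · intro k hk
    obtain ⟨h3, h4, h5⟩ := hu4 k hk
    have hul := hulk (by omega)
    apply digits_eq (n := n) (d := d) (K := K)
    · intro i hi
      exact (gr_sp hk u0 (n k) le_rfl i hi).1
    · intro i hi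
      exact u0 i (fun h6 => hi (by rw [h6, mul_zero]))
    · intro i
      exact lt_of_le_of_lt (gr_bd hS (n k) i) h3
    · intro i
      exact lt_of_le_of_lt (Nat.mul_le_mul (h24 k) (hS i)) h3
    · show pk (2 ^ K) (st n d) (gr n k u (n k)) = pk (2 ^ K) (st n d) (fun i => 2 ^ n k * u i)
      rw [pk_gr hK hk hul u0 (n k) le_rfl, pk_smul, ← hUk]
      exact h5
  · show (b : ℝ) * sem n d x y u ≤ sem n d x y (fun i => cp i + b * u i - cq i)
    have h3 : sem n d x y (fun i => cp i + b * u i - cq i) + sem n d x y cq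
        = sem n d x y cp + b * sem n d x y u := by
      unfold sem
      rw [mul_sum, ← sum_add_distrib, ← sum_add_distrib]
      apply sum_congr rfl
      intro i _
      have h4 := hqb i
      have h5 : ((cp i + b * u i - cq i : ℕ) : ℝ) = cp i + b * u i - cq i := by
        rw [Nat.cast_sub (by omega)]
        push_cast
        ring
      rw [h5]
      ring
    have h4 : 0 ≤ v - w := by
      rw [hvw]
      apply mul_nonneg _ he
      apply prod_nonneg
      intro k hk
      have h5 := hxy k (mem_range.1 hk)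
      positivity
    rw [cpv, cqv] at h4
    linarith
  · show 0 < sem n d x y u
    rw [← uv]
    apply prod_pos
    intro k hk
    have h5 := hxy k (mem_range.1 hk)
    rw [Nat.cast_one, one_mul]
    exact pow_pos h5 _

/-- **no point of the box satisfies all the inequalities `0 ≤ g`** -/
theorem no_point {K d : ℕ} {bx : List (ℕ × ℕ × ℕ)} {gs : List (Ex × ℕ)} {t : Tr}
    (h : run K d bx gs t = true) (r : ℕ → ℝ)
    (hr : ∀ k < d, ((bx.getD k (0, 1, 1)).1 : ℝ) ≤ (bx.getD k (0, 1, 1)).2.2 * r k ∧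
      (bx.getD k (0, 1, 1)).2.2 * r k ≤ (bx.getD k (0, 1, 1)).2.1)
    (hg : ∀ g ∈ gs, 0 ≤ g.1.ev r) : False := by
  unfold run at h
  simp only [Bool.and_eq_true] at h
  obtain ⟨⟨⟨hK, hbx⟩, hroot⟩, hchk⟩ := h
  have hK' : 0 < K := Nat.blt_eq.mp hK
  rw [List.all_eq_true] at hbx hroot
  have hbx' : ∀ k < d, (bx.getD k (0, 1, 1)).1 < (bx.getD k (0, 1, 1)).2.1 ∧
      0 < (bx.getD k (0, 1, 1)).2.2 := by
    intro k hk
    have h1 := hbx k (List.mem_range.2 hk)
    simp only [Bool.and_eq_true] at h1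
    exact ⟨Nat.blt_eq.mp h1.1, Nat.blt_eq.mp h1.2⟩
  set f : ℕ → ℕ × ℕ × ℕ := fun k => bx.getD k (0, 1, 1) with hf
  set x : ℕ → ℝ := fun k => if k < d then (f k).2.2 * r k - (f k).1 else 0 with hx
  set y : ℕ → ℝ := fun k => if k < d then (f k).2.1 - (f k).2.2 * r k else 0 with hy
  have hx0 : ∀ k, 0 ≤ x k := by
    intro k
    by_cases hk : k < d
    · have := (hr k hk).1
      have h1 : x k = (f k).2.2 * r k - (f k).1 := by rw [hx]; simp only [hk, if_true]
      rw [h1]
      linarith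
    · have h1 : x k = 0 := by rw [hx]; simp only [hk, if_false]
      rw [h1]
  have hy0 : ∀ k, 0 ≤ y k := by
    intro k
    by_cases hk : k < d
    · have := (hr k hk).2
      have h1 : y k = (f k).2.1 - (f k).2.2 * r k := by rw [hy]; simp only [hk, if_true]
      rw [h1]
      linarith
    · have h1 : y k = 0 := by rw [hy]; simp only [hk, if_false]
      rw [h1]
  apply chk_sound hK' t _ hchk x y hx0 hy0
  intro p hp
  obtain ⟨g, hgm, rfl⟩ := List.mem_map.1 hp
  have hxk : ∀ k < d, x k = (f k).2.2 * r k - (f k).1 := by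
    intro k hk
    rw [hx]
    simp only [hk, if_true]
  have hyk : ∀ k < d, y k = (f k).2.1 - (f k).2.2 * r k := by
    intro k hk
    rw [hy]
    simp only [hk, if_true]
  apply good_root hK' f x y r _ _ (hroot g hgm) (hg g hgm)
  · intro k hk
    rw [hxk k hk, hyk k hk]
    have h1 : ((f k).1 : ℝ) < (f k).2.1 := by exact_mod_cast (hbx' k hk).1
    linarith
  · intro k hk
    rw [hxk k hk, hyk k hk]
    ring

end Pool.Agent.Lib.MP_f04ccf_co.BernK
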