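import Pool.Agent.Lib.MP_f04ccf_co.M.BernK

/-!
MP_f04ccf_co: polynomial inequalities on boxes by a kernel check, with combined leaves.
As `BernK`, but a leaf may be `lin ls`: the combination of the polynomials with the nonnegative
multipliers `ls` has only negative Bernstein coefficients.  This needs far fewer boxes (a factor 10 to
100).  All polynomials must have the same degrees; raise them by adding `0 * monomial`.
`BernL.run K d bx gs t = true` (by `decide +kernel`) gives `BernL.no_point`: no real point of the box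
satisfies `0 ≤ g` for all `g`.
-/

set_option autoImplicit false

namespace Pool.Agent.Lib.MP_f04ccf_co.BernL

open Finset BernK

/-- the tree of boxes -/
inductive Tr
  | neg (i : ℕ)
  | lin (ls : List ℕ)
  | split (k : ℕ) (l r : Tr)

/-- the combination of the arrays -/
def cD : List ℕ → List Ps → ℕ
  | l :: ls, p :: ps => Nat.add (Nat.mul l p.D) (cD ls ps)
  | _, _ => 0

/-- the combination of the biases -/
def cb : List ℕ → List Ps → ℕ
  | l :: ls, p :: ps => Nat.add (Nat.mul l p.b) (cb ls ps)
  | _, _ => 0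

/-- the combination is negative -/
def negL (K : ℕ) (ls : List ℕ) (ps : List Ps) : Bool :=
  match ps with
  | [] => false
  | p :: _ => Ps.neg K ⟨p.n, p.vs, p.U, p.S, p.T, cD ls ps, cb ls ps⟩

/-- the check -/
noncomputable def chk (K d : ℕ) (t : Tr) : List Ps → Bool :=
  Tr.rec (motive := fun _ => List Ps → Bool)
    (fun i ps => match ps[i]? with
      | some p => p.neg K
      | none => false)
    (fun ls ps => negL K ls ps)
    (fun k _ _ cl cr ps => Nat.blt k d && ps.all (Ps.nov K) && cl (ps.map (Ps.lft k))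
      && cr (ps.map (Ps.rgt k))) t

/-- the common data -/
structure Sh (n : ℕ → ℕ) (vs : List (ℕ × ℕ × ℕ)) (U S T : ℕ) (p : Ps) : Prop where
  n : p.n = n
  vs : p.vs = vs
  U : p.U = U
  S : p.S = S
  T : p.T = T

lemma sem_add (n : ℕ → ℕ) (d : ℕ) (x y : ℕ → ℝ) (c c' : ℕ → ℕ) :
    sem n d x y (fun i => c i + c' i) = sem n d x y c + sem n d x y c' := by
  unfold sem
  rw [← sum_add_distrib]
  apply sum_congr rfl
  intro i _
  push_cast
  ring

lemma comb {K d : ℕ} {x y : ℕ → ℝ} {n : ℕ → ℕ} {vs : List (ℕ × ℕ × ℕ)} {U S T : ℕ}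
    {u : ℕ → ℕ} (hu0 : ∀ i, u i ≠ 0 → i < st n d) (hU : U = pk (2 ^ K) (st n d) u)
    (hS : ∀ i, u i ≤ S) (hSK : S < 2 ^ K) : ∀ (ps : List Ps) (ls : List ℕ),
    (∀ p ∈ ps, Good K d x y p) → (∀ p ∈ ps, Sh n vs U S T p) →
    ∃ c : ℕ → ℕ, (∀ i, c i ≠ 0 → i < st n d) ∧ cD ls ps = pk (2 ^ K) (st n d) c ∧
      (∀ i, c i ≤ 2 * cb ls ps * u i) ∧ (cb ls ps : ℝ) * sem n d x y u ≤ sem n d x y c := by
  intro ps
  have hzero : ∃ c : ℕ → ℕ, (∀ i, c i ≠ 0 → i < st n d) ∧ 0 = pk (2 ^ K) (st n d) c ∧
      (∀ i, c i ≤ 2 * 0 * u i) ∧ ((0 : ℕ) : ℝ) * sem n d x y u ≤ sem n d x y c := by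
    refine ⟨fun _ => 0, fun i hi => absurd rfl hi, ?_, fun i => by simp, ?_⟩
    · unfold pk
      simp
    · unfold sem
      simp
  induction ps with
  | nil =>
    intro ls _ _
    cases ls with
    | nil => exact hzero
    | cons l ls => exact hzero
  | cons p ps ih =>
    intro ls hg hs
    cases ls with
    | nil => exact hzero
    | cons l ls =>
      obtain ⟨c', hc0', hD', hcu', hsem'⟩ := ih ls (fun q hq => hg q (List.mem_cons_of_mem _ hq))
        (fun q hq => hs q (List.mem_cons_of_mem _ hq))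
      have hsp := hs p List.mem_cons_self
      obtain ⟨c, v, hc0, hv0, hD, hUv, hSv, hcu, _, _, hsem, _⟩ := (hg p List.mem_cons_self).ex
      rw [hsp.n] at hc0 hv0 hD hUv hsem
      rw [hsp.S] at hSv
      have huv : ∀ i, v i = u i := by
        intro i
        apply digits_eq (n := n) (d := d) (K := K) hv0 hu0
        · intro i
          exact lt_of_le_of_lt (hSv i) hSK
        · intro i
          exact lt_of_le_of_lt (hS i) hSK
        · rw [← hUv, ← hU, hsp.U]
      have huv' : v = u := funext huv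
      subst huv'
      refine ⟨fun i => l * c i + c' i, ?_, ?_, ?_, ?_⟩
      · intro i hi
        by_cases h1 : c i = 0
        · apply hc0'
          intro h2
          apply hi
          show l * c i + c' i = 0
          rw [h1, h2]
          simp
        · exact hc0 i h1
      · show l * p.D + cD ls ps = _
        rw [pk_add, pk_smul, ← hD, ← hD']
      · intro i
        show l * c i + c' i ≤ 2 * (l * p.b + cb ls ps) * v i
        have h1 := hcu i
        have h2 := hcu' i
        calc l * c i + c' i ≤ l * (2 * p.b * v i) + 2 * cb ls ps * v i :=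
              Nat.add_le_add (Nat.mul_le_mul_left _ h1) h2
          _ = 2 * (l * p.b + cb ls ps) * v i := by ring
      · show ((l * p.b + cb ls ps : ℕ) : ℝ) * sem n d x y v ≤ _
        rw [sem_add, sem_smul]
        push_cast
        have h1 := mul_le_mul_of_nonneg_left hsem (Nat.cast_nonneg (α := ℝ) l)
        linarith

lemma no_negL {K d : ℕ} (hK : 0 < K) {x y : ℕ → ℝ} (hx : ∀ k, 0 ≤ x k) (hy : ∀ k, 0 ≤ y k)
    {n : ℕ → ℕ} {vs : List (ℕ × ℕ × ℕ)} {U S T : ℕ} {ps : List Ps} {ls : List ℕ}
    (hg : ∀ p ∈ ps, Good K d x y p) (hs : ∀ p ∈ ps, Sh n vs U S T p)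
    (h : negL K ls ps = true) : False := by
  cases ps with
  | nil => exact Bool.false_ne_true h
  | cons p ps =>
    have hsp := hs p List.mem_cons_self
    have hgp := hg p List.mem_cons_self
    have h' : Ps.neg K ⟨p.n, p.vs, p.U, p.S, p.T, cD ls (p :: ps), cb ls (p :: ps)⟩ = true := h
    have hSK : S < 2 ^ K := by
      have h1 := h'
      unfold Ps.neg Ps.nov at h1
      rw [Bool.and_eq_true] at h1
      have h2 : (2 * cb ls (p :: ps) + 1) * p.S < 2 ^ (K - 1) := Nat.blt_eq.mp h1.1
      rw [hsp.S] at h2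
      have h3 : (2 * cb ls (p :: ps) + 1) * S = 2 * (cb ls (p :: ps) * S) + S := by ring
      have h10 : 2 ^ (K - 1) ≤ 2 ^ K := Nat.pow_le_pow_right (by norm_num) (by omega)
      omega
    obtain ⟨c, u, hc0, hu0, hD, hU, hS, hcu, hul, hur, hsem, hpos⟩ := hgp.ex
    obtain ⟨c', hc0', hD', hcu', hsem'⟩ := comb (x := x) (y := y) (n := n) (vs := vs) (U := U)
      (S := S) (T := T) (u := u) (by rw [← hsp.n]; exact hu0) (by rw [← hsp.n, ← hsp.U]; exact hU)
      (by rw [← hsp.S]; exact hS) hSK (p :: ps) ls hg hs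
    refine Good.no_neg (K := K) (d := d) hK hx hy
      (p := ⟨p.n, p.vs, p.U, p.S, p.T, cD ls (p :: ps), cb ls (p :: ps)⟩) ?_ h'
    refine ⟨hgp.vs, hgp.T, c', u, ?_, hu0, ?_, hU, hS, hcu', hul, hur, ?_, hpos⟩
    · show ∀ i, c' i ≠ 0 → i < st p.n d
      rw [hsp.n]
      exact hc0'
    · show cD ls (p :: ps) = pk (2 ^ K) (st p.n d) c'
      rw [hsp.n]
      exact hD'
    · show (cb ls (p :: ps) : ℝ) * sem p.n d x y u ≤ sem p.n d x y c'
      rw [hsp.n]
      exact hsem'

theorem chk_sound {K d : ℕ} (hK : 0 < K) {n : ℕ → ℕ} {vs : List (ℕ × ℕ × ℕ)} {U S T : ℕ} :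
    ∀ (t : Tr) (ps : List Ps), chk K d t ps = true →
    ∀ x y : ℕ → ℝ, (∀ k, 0 ≤ x k) → (∀ k, 0 ≤ y k) → (∀ p ∈ ps, Good K d x y p) →
    (∀ p ∈ ps, Sh n vs U S T p) → False := by
  intro t
  induction t with
  | neg i =>
    intro ps h x y hx hy hg _
    have h' : (match ps[i]? with
      | some p => p.neg K
      | none => false) = true := h
    cases hp : ps[i]? with
    | none => rw [hp] at h'; exact Bool.false_ne_true h'
    | some p =>
      rw [hp] at h'
      exact (hg p (List.mem_of_getElem? hp)).no_neg hK hx hy h'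
  | lin ls =>
    intro ps h x y hx hy hg hs
    exact no_negL hK hx hy hg hs h
  | split k l r ihl ihr =>
    intro ps h x y hx hy hg hs
    have h' : (Nat.blt k d && ps.all (Ps.nov K) && chk K d l (ps.map (Ps.lft k))
      && chk K d r (ps.map (Ps.rgt k))) = true := h
    simp only [Bool.and_eq_true] at h'
    obtain ⟨⟨⟨h1, h2⟩, h3⟩, h4⟩ := h'
    have hk : k < d := Nat.blt_eq.mp h1
    rw [List.all_eq_true] at h2
    rcases le_total (x k) (y k) with hle | hle
    · refine ihl _ h3 x (Function.update y k ((y k - x k) / 2)) hx ?_ ?_ ?_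
      · intro l
        by_cases hl : l = k
        · subst hl
          rw [Function.update_self]
          linarith
        · rw [Function.update_of_ne hl]
          exact hy l
      · intro q hq
        obtain ⟨p, hp, rfl⟩ := List.mem_map.1 hq
        apply (hg p hp).left hK hk (h2 p hp) (fun _ _ => rfl)
        · intro l hl
          rw [Function.update_of_ne hl]
        · rfl
        · rw [Function.update_self]
          ring
      · intro q hq
        obtain ⟨p, hp, rfl⟩ := List.mem_map.1 hq
        exact ⟨(hs p hp).n, (hs p hp).vs, (hs p hp).U, (hs p hp).S, (hs p hp).T⟩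
    · refine ihr _ h4 (Function.update x k ((x k - y k) / 2)) y ?_ hy ?_ ?_
      · intro l
        by_cases hl : l = k
        · subst hl
          rw [Function.update_self]
          linarith
        · rw [Function.update_of_ne hl]
          exact hx l
      · intro q hq
        obtain ⟨p, hp, rfl⟩ := List.mem_map.1 hq
        apply (hg p hp).right hK hk (h2 p hp)
        · intro l hl
          rw [Function.update_of_ne hl]
        · intro _ _
          rfl
        · rfl
        · rw [Function.update_self]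
          ring
      · intro q hq
        obtain ⟨p, hp, rfl⟩ := List.mem_map.1 hq
        exact ⟨(hs p hp).n, (hs p hp).vs, (hs p hp).U, (hs p hp).S, (hs p hp).T⟩

lemma deg_ge (d : ℕ) : ∀ e : Ex, e.ok d = true → ∀ k, d ≤ k → e.deg k = 0 := by
  intro e
  induction e with
  | con c => intro _ k _; rfl
  | var l =>
    intro h k hk
    have h1 : l < d := Nat.blt_eq.mp h
    show (if k = l then 1 else 0) = 0
    rw [if_neg (by omega)]
  | add a b iha ihb =>
    intro h k hk
    have h' : (a.ok d && b.ok d) = true := h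
    rw [Bool.and_eq_true] at h'
    show max (a.deg k) (b.deg k) = 0
    rw [iha h'.1 k hk, ihb h'.2 k hk]
    rfl
  | sub a b iha ihb =>
    intro h k hk
    have h' : (a.ok d && b.ok d) = true := h
    rw [Bool.and_eq_true] at h'
    show max (a.deg k) (b.deg k) = 0
    rw [iha h'.1 k hk, ihb h'.2 k hk]
    rfl
  | mul a b iha ihb =>
    intro h k hk
    have h' : (a.ok d && b.ok d) = true := h
    rw [Bool.and_eq_true] at h'
    show a.deg k + b.deg k = 0
    rw [iha h'.1 k hk, ihb h'.2 k hk]

/-- **the check**: `K` bits per digit, `d` variables, the box `(lo, hi, denominator)`, the polynomials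
with their biases, the tree; all polynomials have the degrees of the first -/
noncomputable def run (K d : ℕ) (bx : List (ℕ × ℕ × ℕ)) (gs : List (Ex × ℕ)) (t : Tr) : Bool :=
  Nat.blt 0 K &&
  (List.range d).all (fun k => Nat.blt (bx.getD k (0, 1, 1)).1 (bx.getD k (0, 1, 1)).2.1 &&
    Nat.blt 0 (bx.getD k (0, 1, 1)).2.2) &&
  gs.all (fun g => root K d (fun k => bx.getD k (0, 1, 1)) g.1 g.2) &&
  gs.all (fun g => (List.range d).all fun k => Nat.beq (g.1.deg k)
    ((gs.headD (Ex.con 0, 0)).1.deg k)) &&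
  chk K d t (gs.map fun g => mkPs K d (fun k => bx.getD k (0, 1, 1)) g.1 g.2)

/-- **no point of the box satisfies all the inequalities `0 ≤ g`** -/
theorem no_point {K d : ℕ} {bx : List (ℕ × ℕ × ℕ)} {gs : List (Ex × ℕ)} {t : Tr}
    (h : run K d bx gs t = true) (r : ℕ → ℝ)
    (hr : ∀ k < d, ((bx.getD k (0, 1, 1)).1 : ℝ) ≤ (bx.getD k (0, 1, 1)).2.2 * r k ∧
      (bx.getD k (0, 1, 1)).2.2 * r k ≤ (bx.getD k (0, 1, 1)).2.1)
    (hg : ∀ g ∈ gs, 0 ≤ g.1.ev r) : False := by
  unfold run at h
  simp only [Bool.and_eq_true] at h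
  obtain ⟨⟨⟨⟨hK, hbx⟩, hroot⟩, hdeg⟩, hchk⟩ := h
  have hK' : 0 < K := Nat.blt_eq.mp hK
  rw [List.all_eq_true] at hbx hroot hdeg
  have hbx' : ∀ k < d, (bx.getD k (0, 1, 1)).1 < (bx.getD k (0, 1, 1)).2.1 ∧
      0 < (bx.getD k (0, 1, 1)).2.2 := by
    intro k hk
    have h1 := hbx k (List.mem_range.2 hk)
    simp only [Bool.and_eq_true] at h1
    exact ⟨Nat.blt_eq.mp h1.1, Nat.blt_eq.mp h1.2⟩
  set f : ℕ → ℕ × ℕ × ℕ := fun k => bx.getD k (0, 1, 1) with hf
  set x : ℕ → ℝ := fun k => if k < d then (f k).2.2 * r k - (f k).1 else 0 with hx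
  set y : ℕ → ℝ := fun k => if k < d then (f k).2.1 - (f k).2.2 * r k else 0 with hy
  have hx0 : ∀ k, 0 ≤ x k := by
    intro k
    by_cases hk : k < d
    · have := (hr k hk).1
      have h1 : x k = (f k).2.2 * r k - (f k).1 := by rw [hx]; simp only [hk, if_true]
      rw [h1]
      linarith
    · have h1 : x k = 0 := by rw [hx]; simp only [hk, if_false]
      rw [h1]
  have hy0 : ∀ k, 0 ≤ y k := by
    intro k
    by_cases hk : k < d
    · have := (hr k hk).2
      have h1 : y k = (f k).2.1 - (f k).2.2 * r k := by rw [hy]; simp only [hk, if_true]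
      rw [h1]
      linarith
    · have h1 : y k = 0 := by rw [hy]; simp only [hk, if_false]
      rw [h1]
  have hxk : ∀ k < d, x k = (f k).2.2 * r k - (f k).1 := by
    intro k hk
    rw [hx]
    simp only [hk, if_true]
  have hyk : ∀ k < d, y k = (f k).2.1 - (f k).2.2 * r k := by
    intro k hk
    rw [hy]
    simp only [hk, if_true]
  -- the common degrees
  set e0 : Ex := (gs.headD (Ex.con 0, 0)).1 with he0
  have hok0 : gs ≠ [] → e0.ok d = true := by
    intro hne
    cases gs with
    | nil => exact absurd rfl hne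
    | cons g gs' =>
      have h1 := hroot g List.mem_cons_self
      unfold root at h1
      simp only [Bool.and_eq_true] at h1
      exact h1.1.1.1.1
  have hdg : ∀ g ∈ gs, g.1.deg = e0.deg := by
    intro g hgm
    funext k
    by_cases hk : k < d
    · have h1 := hdeg g hgm
      rw [List.all_eq_true] at h1
      exact Nat.eq_of_beq_eq_true (h1 k (List.mem_range.2 hk))
    · have h1 := hroot g hgm
      unfold root at h1
      simp only [Bool.and_eq_true] at h1
      rw [deg_ge d g.1 h1.1.1.1.1 k (by omega),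
        deg_ge d e0 (hok0 (List.ne_nil_of_mem hgm)) k (by omega)]
  apply chk_sound hK' (n := e0.deg)
    (vs := (List.range d).map fun k => (K * st e0.deg k, e0.deg k, msk K e0.deg d k))
    (U := rs (2 ^ K) e0.deg (fun _ => 1) e0.deg d) (S := rs 1 e0.deg (fun _ => 1) e0.deg d)
    (T := 2 ^ (K - 1) * ((2 ^ (K * st e0.deg d) - 1) / (2 ^ K - 1))) t _ hchk x y hx0 hy0
  · intro p hp
    obtain ⟨g, hgm, rfl⟩ := List.mem_map.1 hp
    apply good_root hK' f x y r _ _ (hroot g hgm) (hg g hgm)
    · intro k hk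
      rw [hxk k hk, hyk k hk]
      have h1 : ((f k).1 : ℝ) < (f k).2.1 := by exact_mod_cast (hbx' k hk).1
      linarith
    · intro k hk
      rw [hxk k hk, hyk k hk]
      ring
  · intro p hp
    obtain ⟨g, hgm, rfl⟩ := List.mem_map.1 hp
    have h1 := hdg g hgm
    unfold mkPs
    rw [h1]
    exact ⟨rfl, rfl, rfl, rfl, rfl⟩

end Pool.Agent.Lib.MP_f04ccf_co.BernL
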