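import Mathlib

/-!
MP_f04ccf_co, TEXT S: BLIND ENDS (pure).  An item with the misses `b ≤ c`, `b' ≤ c'` at two rows and
`b * b' ≤ K` has, for all weights `A, B ≥ 0` of its hits, at least the value it has when blind at one end.

* `Bl.left`, `Bl.right`, `Bl.two`: hits form; `Bl.load`: loads form, weights `w, w'` per load;
* `Bl.three`: three ends with pairwise products.
-/

set_option autoImplicit false

namespace Pool.Agent.Lib.MP_f04ccf_co

namespace Bl

variable {F : Type*} [Field F] [LinearOrder F] [IsStrictOrderedRing F]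

/-- **division free**: the heavier end (`B * c' ≤ A * c`) may be taken as blind -/
theorem left {A B b b' c c' K : F} (hB : 0 ≤ B) (hb : b ≤ c) (hb' : b' ≤ c') (hp : b * b' ≤ K)
    (h : B * c' ≤ A * c) :
    B * (c * c' - K) ≤ c * (A * (c - b) + B * (c' - b')) := by
  have h1 := mul_nonneg (sub_nonneg.2 h) (sub_nonneg.2 hb)
  have h2 := mul_nonneg hB (sub_nonneg.2 hp)
  have h3 := mul_nonneg hB (mul_nonneg (sub_nonneg.2 hb) (sub_nonneg.2 hb'))
  nlinarith

/-- the same with the two ends exchanged -/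
theorem right {A B b b' c c' K : F} (hA : 0 ≤ A) (hb : b ≤ c) (hb' : b' ≤ c') (hp : b * b' ≤ K)
    (h : A * c ≤ B * c') :
    A * (c * c' - K) ≤ c' * (A * (c - b) + B * (c' - b')) := by
  have h1 := left (A := B) (B := A) (b := b') (b' := b) (c := c') (c' := c) (K := K) hA hb' hb
    (by rw [mul_comm]; exact hp) h
  rw [mul_comm c' c, add_comm (B * (c' - b')) (A * (c - b))] at h1
  exact h1

/-- **the two blind ends** -/
theorem two {A B b b' c c' K : F} (hA : 0 ≤ A) (hB : 0 ≤ B) (hc : 0 < c) (hc' : 0 < c')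
    (hb : b ≤ c) (hb' : b' ≤ c') (hp : b * b' ≤ K) :
    min (A * (c - K / c')) (B * (c' - K / c)) ≤ A * (c - b) + B * (c' - b') := by
  rcases le_total (B * c') (A * c) with h | h
  · refine (min_le_right _ _).trans ?_
    have h1 := left hB hb hb' hp h
    have h2 : c * (B * (c' - K / c)) = B * (c * c' - K) := by
      field_simp
    exact le_of_mul_le_mul_left (h2.le.trans h1) hc
  · refine (min_le_left _ _).trans ?_
    have h1 := right hA hb hb' hp h
    have h2 : c' * (A * (c - K / c')) = A * (c * c' - K) := by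
      field_simp
    exact le_of_mul_le_mul_left (h2.le.trans h1) hc'

/-- **loads form**: `w, w'` the weights of the loads `1 - b / c`, `1 - b' / c'` -/
theorem load {w w' b b' c c' K : F} (hw : 0 ≤ w) (hw' : 0 ≤ w') (hc : 0 < c) (hc' : 0 < c')
    (hb : b ≤ c) (hb' : b' ≤ c') (hp : b * b' ≤ K) :
    min w w' * (1 - K / (c * c')) ≤ w * (1 - b / c) + w' * (1 - b' / c') := by
  have h1 := two (A := w / c) (B := w' / c') (div_nonneg hw hc.le) (div_nonneg hw' hc'.le) hc hc'
    hb hb' hp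
  have e1 : w / c * (c - K / c') = w * (1 - K / (c * c')) := by
    field_simp
  have e2 : w' / c' * (c' - K / c) = w' * (1 - K / (c * c')) := by
    field_simp
  have e3 : w / c * (c - b) + w' / c' * (c' - b') = w * (1 - b / c) + w' * (1 - b' / c') := by
    field_simp
  rw [e1, e2, e3] at h1
  rcases le_total w w' with h | h
  · rw [min_eq_left h]
    rcases le_total 0 (1 - K / (c * c')) with h2 | h2
    · rw [min_eq_left (mul_le_mul_of_nonneg_right h h2)] at h1
      exact h1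
    · have h3 : 0 ≤ w * (1 - b / c) := mul_nonneg hw (sub_nonneg.2 ((div_le_one hc).2 hb))
      have h4 : 0 ≤ w' * (1 - b' / c') := mul_nonneg hw' (sub_nonneg.2 ((div_le_one hc').2 hb'))
      have h5 := mul_nonneg hw (neg_nonneg.2 h2)
      linarith
  · rw [min_eq_right h]
    rcases le_total 0 (1 - K / (c * c')) with h2 | h2
    · rw [min_eq_right (mul_le_mul_of_nonneg_right h h2)] at h1
      exact h1
    · have h3 : 0 ≤ w * (1 - b / c) := mul_nonneg hw (sub_nonneg.2 ((div_le_one hc).2 hb))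
      have h4 : 0 ≤ w' * (1 - b' / c') := mul_nonneg hw' (sub_nonneg.2 ((div_le_one hc').2 hb'))
      have h5 := mul_nonneg hw' (neg_nonneg.2 h2)
      linarith

/-- the sum of the loads of the two ends -/
theorem sum_load {b b' c c' K : F} (hc : 0 < c) (hc' : 0 < c') (hb : b ≤ c) (hb' : b' ≤ c')
    (hp : b * b' ≤ K) : 1 - K / (c * c') ≤ (1 - b / c) + (1 - b' / c') := by
  have h1 := load (w := (1 : F)) (w' := 1) zero_le_one zero_le_one hc hc' hb hb' hp
  simpa using h1

/-- **three ends with pairwise products** (an item of value two): every pair of ends counts one half -/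
theorem three {w₁ w₂ w₃ b₁ b₂ b₃ c₁ c₂ c₃ K₁₂ K₁₃ K₂₃ : F} (h1 : 0 ≤ w₁) (h2 : 0 ≤ w₂)
    (h3 : 0 ≤ w₃) (hc₁ : 0 < c₁) (hc₂ : 0 < c₂) (hc₃ : 0 < c₃) (hb₁ : b₁ ≤ c₁) (hb₂ : b₂ ≤ c₂)
    (hb₃ : b₃ ≤ c₃) (h12 : b₁ * b₂ ≤ K₁₂) (h13 : b₁ * b₃ ≤ K₁₃) (h23 : b₂ * b₃ ≤ K₂₃) :
    min w₁ w₂ * (1 - K₁₂ / (c₁ * c₂)) + min w₁ w₃ * (1 - K₁₃ / (c₁ * c₃))
      + min w₂ w₃ * (1 - K₂₃ / (c₂ * c₃))
      ≤ 2 * (w₁ * (1 - b₁ / c₁) + w₂ * (1 - b₂ / c₂) + w₃ * (1 - b₃ / c₃)) := by
  have e1 := load h1 h2 hc₁ hc₂ hb₁ hb₂ h12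
  have e2 := load h1 h3 hc₁ hc₃ hb₁ hb₃ h13
  have e3 := load h2 h3 hc₂ hc₃ hb₂ hb₃ h23
  linarith

end Bl

end Pool.Agent.Lib.MP_f04ccf_co
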