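import Pool.Agent.Lib.MP_f04ccf_co.M.FinQ

/-!
MP_f04ccf_co, PLAN W, finite part: **the enumeration for larger `R`, by the two largest shares**.
`Kern.okGe`: the row filter for any number of PC pairs in a cell (`Kern.okJ`: at most `bf t`);
`ItC.okGe`; `PartC.enumG`: `PartC` from the enumeration in blocks with this filter.
`NoItCP R H n p`: no items with `p (t 0) (t 1)`; `NoItC.of_parts`; `Kern.sel p leaf`: the leaf is needed
only if `p (t 0) (t 1)`; `PartC.sel`, `PartC.sel_ld4`.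
-/

set_option autoImplicit false

namespace Pool.Agent.Lib.MP_f04ccf_co

open Finset

attribute [local instance] Classical.propDecidable

namespace Kern

/-- **the row filter**, at most `bf t` PC pairs in a cell -/
def okGe (R : ℕ) (kf bf : ℕ → ℕ) (t h mu : ℕ) : Bool :=
  Nat.ble mu h && ((Nat.ble h t || Nat.ble 1 mu) &&
    Nat.ble (2 * R * h + mu * (mu + 1)) (2 * R * (t + 1) + 2 * mu * h + 2 * (mu * kf t)
      + mu * (bf t - 1)))

/-- the condition for `bf` -/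
def okJ (Q M : ℕ) (bf : ℕ → ℕ) : Bool :=
  (List.range (M + 1)).all fun t => Nat.ble 1 (bf t) &&
    Nat.blt (t * (M - t) + (bf t + 1) * (bf t + 1)) (bf t * Q)

lemma okJ_spec {Q M : ℕ} {bf : ℕ → ℕ} (h : okJ Q M bf = true) {t : ℕ} (ht : t ≤ M) :
    1 ≤ bf t ∧ t * (M - t) + (bf t + 1) * (bf t + 1) < bf t * Q := by
  rw [okJ, List.all_eq_true] at h
  have h1 := h t (List.mem_range.2 (by omega))
  rwa [Bool.and_eq_true, Nat.ble_eq, Nat.blt_eq] at h1

end Kern

section Filter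

variable {ι : Type*} {R : ℤ} {n : ℕ} {t s h e : ℕ → ℤ} {E : ℕ → ℕ → ℤ} {U : Finset ι}
  {ho : ι → ℕ} {vl : ι → ℤ} {kp ms mr : ℕ → ι → ℤ} {mu Nb : ℕ → ℤ} {Nx : ℕ → ℕ → ℤ}
  {be : ℕ → ℕ → ℤ} {ls : ℕ → ℤ → ℤ} {pc ar : ι → ℤ} {aT : ℕ → ℤ} {NN FF pw : ℕ → ℕ → ℤ}
  {nu : ℕ → ι → ℤ}

/-- few PC pairs in a cell, general form -/
lemma ItC.fewG (H : ItC R n t s h e E U ho vl kp ms mr mu Nb Nx be ls pc ar aT NN FF pw nu)
    {Q M K : ℕ} (hQ : R = Q) (hK : ∑ i ∈ range n, h i ≤ K) (hM : K ≤ M + (n + 1))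
    {bf : ℕ → ℕ} (hF : Kern.okJ Q M bf = true) {i : ℕ} (hi : i < n) {j : ℕ} (hj : j < n)
    (hij : i ≠ j) : be i j ≤ bf (t i).toNat := by
  obtain ⟨h1, h2⟩ := H.toItN.toBI.prod_t hK hM hi hj hij.symm
  obtain ⟨h3, h4⟩ := Kern.okJ_spec hF h1
  by_contra h5
  push Not at h5
  have b0 := H.be0 j hj i hi
  have h6 := H.jsub i hi j hj hij (bf (t i).toNat + 1) (by push_cast; linarith)
  have h7 : ((((t i).toNat * (M - (t i).toNat)
      + (bf (t i).toNat + 1) * (bf (t i).toNat + 1) : ℕ)) : ℤ) < (bf (t i).toNat * Q : ℕ) := by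
    exact_mod_cast h4
  push_cast at h6 h7
  rw [hQ] at h6
  have h8 : t i * t j ≤ ((t i).toNat : ℤ) * ((M - (t i).toNat : ℕ) : ℤ) := by
    have := h2
    push_cast at this
    exact this
  nlinarith

/-- the excess of a host, general form -/
lemma ItC.NN_sumG (H : ItC R n t s h e E U ho vl kp ms mr mu Nb Nx be ls pc ar aT NN FF pw nu)
    {i : ℕ} (hi : i < n) {b : ℤ} (hb1 : 1 ≤ b) (few : ∀ j < n, i ≠ j → be i j ≤ b) {k : ℤ}
    (hk0 : 0 ≤ k) (hk : ∀ j < n, j ≠ i → t i * t j + 1 < (k + 1) ^ 2) :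
    ∑ j ∈ (range n).erase i, NN i j ≤ 2 * ((k + 1) * mu i) + (b - 1) * mu i := by
  have h1 : ∀ j ∈ (range n).erase i, NN i j ≤ (2 * (k + 1) + (b - 1)) * be i j := by
    intro j hj
    have hjn := mem_range.1 (mem_of_mem_erase hj)
    have hji := ne_of_mem_erase hj
    have h2 := H.NNb i hi j hjn
    have h3 := H.nu_sum hi hjn hk0 (hk j hjn hji)
    have h4 := few j hjn hji.symm
    have h6 := H.be0 i hi j hjn
    nlinarith
  have h2 := sum_le_sum h1
  rw [← mul_sum] at h2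
  have h3 := H.be_sum hi
  rw [← add_sum_erase _ _ (mem_range.2 hi)] at h3
  have h4 := H.be0 i hi i hi
  have h5 : (2 * (k + 1) + (b - 1)) * ∑ j ∈ (range n).erase i, be i j
      ≤ (2 * (k + 1) + (b - 1)) * mu i :=
    mul_le_mul_of_nonneg_left (by linarith) (by linarith)
  linarith

/-- **every row passes the filter**, general form -/
lemma ItC.okGe (H : ItC R n t s h e E U ho vl kp ms mr mu Nb Nx be ls pc ar aT NN FF pw nu)
    {Q M K : ℕ} (hQ : R = Q) (hK : ∑ i ∈ range n, h i ≤ K) (hM : K ≤ M + (n + 1))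
    {kf bf : ℕ → ℕ} (hkf : Kern.okK M kf = true) (hF : Kern.okJ Q M bf = true) {i : ℕ}
    (hi : i < n) : Kern.okGe Q kf bf (t i).toNat (h i).toNat (mu i).toNat = true := by
  have hpr := fun j (hj : j < n) (hji : j ≠ i) => H.toItN.toBI.prod_t hK hM hi hj hji
  have h2' : (t i).toNat ≤ M := by
    have h1 := H.toItN.toBI.sum_t hK hM
    rw [← add_sum_erase _ _ (mem_range.2 hi)] at h1
    have h3 : 0 ≤ ∑ x ∈ (range n).erase i, t x := sum_nonneg fun x hx =>
      H.t0 x (mem_range.1 (mem_of_mem_erase hx))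
    have h4 := H.t0 i hi
    omega
  have few := fun j (hj : j < n) (hij : i ≠ j) => H.fewG hQ hK hM hF hi hj hij
  obtain ⟨hb1, -⟩ := Kern.okJ_spec hF h2'
  have h3 := Kern.okK_spec hkf h2'
  obtain ⟨a, ha⟩ := Int.eq_ofNat_of_zero_le (H.t0 i hi)
  obtain ⟨b, hb⟩ := Int.eq_ofNat_of_zero_le (H.h0 i hi)
  obtain ⟨c, hc⟩ := Int.eq_ofNat_of_zero_le (H.mu0 hi)
  have haT : (t i).toNat = a := by rw [ha]; exact Int.toNat_natCast a
  rw [haT] at hpr few hb1 h3
  have h3' : ((a * (M - a) : ℕ) : ℤ) + 1 < (kf a : ℤ) * kf a := by exact_mod_cast h3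
  have hk1 : 1 ≤ kf a := by
    by_contra h4
    have h5 : kf a = 0 := by omega
    rw [h5] at h3
    omega
  have h6 := H.NN_sumG hi (b := bf a) (by exact_mod_cast hb1) few (k := (kf a : ℤ) - 1) (by
      have : (1 : ℤ) ≤ kf a := by exact_mod_cast hk1
      linarith)
    (fun j hj hji => by
      have h4 := (hpr j hj hji).2
      have h5 : ((kf a : ℤ) - 1 + 1) ^ 2 = (kf a : ℤ) * kf a := by ring
      rw [h5]
      linarith)
  have h7 := H.en i hi
  rw [H.nbC i hi, sum_congr rfl fun j hj => H.nxC i hi j (mem_range.1 (mem_of_mem_erase hj)),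
    sum_const_zero] at h7
  have h8 : R * s i ≤ e i := by
    have h10 := H.row i hi ∅ (empty_subset _) (fun u hu => absurd hu (by simp))
    simp only [sum_empty] at h10
    linarith
  have h9 := H.hh i hi
  have h10 := H.muh i hi
  have h11 := H.mup i hi
  rw [ha, hb, hc, Int.toNat_natCast, Int.toNat_natCast, Int.toNat_natCast]
  rw [ha, hb] at h9
  rw [hc, hb] at h10
  rw [hc] at h11 h6
  have h12 : s i = b - a - 1 := by linarith
  rw [h12] at h8 h11
  rw [hc, hb] at h7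
  rw [Kern.okGe, Bool.and_eq_true, Bool.and_eq_true, Bool.or_eq_true, Nat.ble_eq, Nat.ble_eq,
    Nat.ble_eq, Nat.ble_eq]
  refine ⟨by exact_mod_cast h10, ?_, ?_⟩
  · by_cases h20 : b ≤ a
    · exact Or.inl h20
    · right
      have h21 : (a : ℤ) + 1 ≤ b := by
        have : a + 1 ≤ b := by omega
        exact_mod_cast this
      have h22 := h11 (by linarith)
      exact_mod_cast h22
  · have h13 : ((bf a - 1 : ℕ) : ℤ) = bf a - 1 := by
      rw [Nat.cast_sub hb1]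
      norm_num
    have h14 : (2 * Q * b + c * (c + 1) : ℤ) ≤ 2 * Q * (a + 1) + 2 * c * b + 2 * (c * kf a)
        + c * ((bf a - 1 : ℕ) : ℤ) := by
      rw [h13]
      rw [hQ] at h8
      nlinarith
    exact_mod_cast h14

end Filter

section Enum

theorem PartC.enumG {Q K n M N : ℕ} {kf bf : ℕ → ℕ} {tab : List (ℕ × ℕ × ℕ × ℕ)}
    {leaf : List (ℕ × ℕ × ℕ) → Bool} (hM : K ≤ M + (n + 1)) (hN : K < N)
    (hF : Kern.okJ Q M bf = true) (hkf : Kern.okK M kf = true)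
    (hs : Kern.srt (Kern.keyF N) tab = true)
    (ht : Kern.allTab M K K (Kern.okGe Q kf bf)
      (fun a b c => (Kern.lookF tab a b c).isSome) = true)
    (he : Kern.EnS (fun a : ℕ × ℕ × ℕ × ℕ => a.1) (fun a => a.2.1) (fun _ => 0) (fun _ => 0) M K
      (n + 1) (fun l => leaf (Kern.revT l)) n tab) :
    PartC Q K n leaf := by
  intro ι t s h e E U ho vl kp ms mr mu Nb Nx be ls pc ar aT NN FF pw nu H hh lex
  obtain ⟨x, hx, hl⟩ := H.toItE.enumS3 lex hh hN hM
    (fun i hi => H.okGe rfl hh hM hkf hF hi) hs ht he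
  have h1 : Kern.revT ((List.range n).map x).reverse
      = (List.range n).map fun i => ((t i).toNat, (h i).toNat, (mu i).toNat) := by
    rw [Kern.revT_eq, List.map_reverse, List.reverse_reverse, List.map_map]
    refine List.map_congr_left fun i hi => ?_
    obtain ⟨-, h2, h3, h4⟩ := hx i (List.mem_range.1 hi)
    show ((x i).1, (x i).2.1, (x i).2.2.1) = _
    rw [← h2, ← h3, ← h4, Int.toNat_natCast, Int.toNat_natCast, Int.toNat_natCast]
  rw [h1] at hl
  exact hl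

/-- **no items whose two largest shares are in `p`** -/
def NoItCP (R H : ℤ) (n : ℕ) (p : ℕ → ℕ → Bool) : Prop :=
  ∀ (ι : Type) (t s h e : ℕ → ℤ) (E : ℕ → ℕ → ℤ) (U : Finset ι) (ho : ι → ℕ) (vl : ι → ℤ)
    (kp ms mr mn : ℕ → ι → ℤ) (mu Nb : ℕ → ℤ) (Nx : ℕ → ℕ → ℤ) (be : ℕ → ℕ → ℤ) (ls : ℕ → ℤ → ℤ)
    (pc ar : ι → ℤ) (aT : ℕ → ℤ) (NN FF pw : ℕ → ℕ → ℤ) (nu : ℕ → ι → ℤ),
    ItC R n t s h e E U ho vl kp ms mr mu Nb Nx be ls pc ar aT NN FF pw nu →
    LvI R n t s h e U ho vl kp ms mr mn mu be pc ar →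
    ∑ i ∈ range n, h i ≤ H →
    (∀ i j, i ≤ j → j < n → t j < t i ∨ t j = t i ∧ (h j < h i ∨ h j = h i ∧ mu j ≤ mu i)) →
    p (t 0).toNat (t 1).toNat = true → False

lemma NoItC.of_parts {R H : ℤ} {n : ℕ} {p : ℕ → ℕ → Bool} (h1 : NoItCP R H n p)
    (h2 : NoItCP R H n fun a b => !(p a b)) : NoItC R H n := by
  intro ι t s h0 e E U ho vl kp ms mr mn mu Nb Nx be ls pc ar aT NN FF pw nu H L hh lex
  rcases h3 : p (t 0).toNat (t 1).toNat with _ | _
  · exact h2 _ _ _ _ _ _ _ _ _ _ _ _ _ _ _ _ _ _ _ _ _ _ _ _ _ H L hh lex (by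
      show (!(p (t 0).toNat (t 1).toNat)) = true
      rw [h3]
      rfl)
  · exact h1 _ _ _ _ _ _ _ _ _ _ _ _ _ _ _ _ _ _ _ _ _ _ _ _ _ H L hh lex h3

/-- at most two PC pairs in the cell of the two largest shares -/
def Kern.sml (R a b : ℕ) : Bool := Nat.ble (Nat.add (Nat.mul a b) 10) (Nat.mul 2 R)

/-- the leaf is needed only if the two first shares are in `p` -/
noncomputable def Kern.sel (p : ℕ → ℕ → Bool) (leaf : List (ℕ × ℕ × ℕ) → Bool)
    (l : List (ℕ × ℕ × ℕ)) : Bool :=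
  List.rec (motive := fun _ => Bool) true (fun x l' _ =>
    List.rec (motive := fun _ => Bool) true (fun y _ _ =>
      Bool.rec (motive := fun _ => Bool) true (leaf l) (p x.1 y.1)) l') l

theorem PartC.sel {R : ℤ} {K n : ℕ} {p : ℕ → ℕ → Bool} {leaf : List (ℕ × ℕ × ℕ) → Bool}
    (n2 : 2 ≤ n) (h : PartC R K n (Kern.sel p leaf)) (hl : LeafC R n leaf) : NoItCP R K n p := by
  intro ι t s h0 e E U ho vl kp ms mr mn mu Nb Nx be ls pc ar aT NN FF pw nu H L hh lex hp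
  have h1 := h _ _ _ _ _ _ _ _ _ _ _ _ _ _ _ _ _ _ _ _ _ _ _ _ H hh lex
  obtain ⟨k, rfl⟩ : ∃ k, n = k + 2 := ⟨n - 2, by omega⟩
  refine hl _ _ _ _ _ _ _ _ _ _ _ _ _ _ _ _ _ _ _ _ _ _ _ _ _ H L
    (fun i => ((t i).toNat, (h0 i).toNat, (mu i).toNat)) (fun i hi => ?_) ?_
  · exact ⟨Int.toNat_of_nonneg (H.t0 i hi), Int.toNat_of_nonneg (H.h0 i hi),
      Int.toNat_of_nonneg (H.mu0 hi)⟩
  · have h2 : (List.range (k + 2)).map (fun i => ((t i).toNat, (h0 i).toNat, (mu i).toNat))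
        = ((t 0).toNat, (h0 0).toNat, (mu 0).toNat) :: ((t 1).toNat, (h0 1).toNat, (mu 1).toNat)
          :: ((List.range' 2 k).map fun i => ((t i).toNat, (h0 i).toNat, (mu i).toNat)) := by
      rw [List.range_eq_range']
      rfl
    have h3 : Kern.sel p leaf ((List.range (k + 2)).map
        (fun i => ((t i).toNat, (h0 i).toNat, (mu i).toNat)))
        = Bool.rec (motive := fun _ => Bool) true (leaf ((List.range (k + 2)).map
          (fun i => ((t i).toNat, (h0 i).toNat, (mu i).toNat)))) (p (t 0).toNat (t 1).toNat) := by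
      rw [h2]
      rfl
    rw [h3, hp] at h1
    exact h1

/-- **the second loads checker for the pairs in `p`** -/
theorem PartC.sel_ld4 {R K n : ℕ} {p : ℕ → ℕ → Bool} (hR : 2 ≤ R) (n5 : 5 ≤ n)
    (h : PartC (R : ℤ) K n (Kern.sel p (Le.ld4 R n))) : NoItCP (R : ℤ) K n p :=
  h.sel (by omega) (leafC_ld4 hR n5)

end Enum

end Pool.Agent.Lib.MP_f04ccf_co
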