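import Pool.Agent.Lib.MP_f04ccf_co.M.BlkF
import Pool.Agent.Lib.MP_f04ccf_co.M.FinG

/-!
MP_f04ccf_co, PLAN W, block certificate: **the assembly**.
`NoNd R H n a b p`: no items over `R` with `n` rows, `∑ h ≤ H`, `t 0 = a`, `t 1 = b` and
`p (h 0) (mu 0) (h 1) (mu 1) (PC pairs of the host 0) (PC pairs of the host 1)`.
`BkW`: the facts of such a world in naturals; `BkA.thr`: the thresholds (host 0: `m01` at the row 1,
`th0 (t z)` at the rest rows; host 1: `m10` at the row 0, `th1 (t z)`; all others `R`).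
`NoNd.of_wd`: the loads of such a world in naturals.  `NoNd.all_k`, `NoNd.or`, `NoPr`, `NoItC.of_pr`,
`NoItCP.of_pr`, `NoPr.of_itCP`: the union of the cases.
-/

set_option autoImplicit false

namespace Pool.Agent.Lib.MP_f04ccf_co

open Finset

attribute [local instance] Classical.propDecidable

/-- **no items with given `t 0`, `t 1` and `p`** -/
def NoNd (R H : ℤ) (n a b : ℕ) (p : ℕ → ℕ → ℕ → ℕ → ℕ → ℕ → Bool) : Prop :=
  ∀ (ι : Type) (t s h e : ℕ → ℤ) (E : ℕ → ℕ → ℤ) (U : Finset ι) (ho : ι → ℕ) (vl : ι → ℤ)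
    (kp ms mr mn : ℕ → ι → ℤ) (mu Nb : ℕ → ℤ) (Nx : ℕ → ℕ → ℤ) (be : ℕ → ℕ → ℤ) (ls : ℕ → ℤ → ℤ)
    (pc ar : ι → ℤ) (aT : ℕ → ℤ) (NN FF pw : ℕ → ℕ → ℤ) (nu : ℕ → ι → ℤ),
    ItC R n t s h e E U ho vl kp ms mr mu Nb Nx be ls pc ar aT NN FF pw nu →
    LvI R n t s h e U ho vl kp ms mr mn mu be pc ar →
    ∑ i ∈ range n, h i ≤ H →
    (∀ i j, i ≤ j → j < n → t j < t i ∨ t j = t i ∧ (h j < h i ∨ h j = h i ∧ mu j ≤ mu i)) →
    t 0 = a → t 1 = b → p (h 0).toNat (mu 0).toNat (h 1).toNat (mu 1).toNat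
      (∑ j ∈ (range n).erase 0, be 0 j).toNat (∑ j ∈ (range n).erase 1, be 1 j).toNat = true → False

/-- **no items with given `t 0`, `t 1`** -/
def NoPr (R H : ℤ) (n a b : ℕ) : Prop := NoNd R H n a b fun _ _ _ _ _ _ => true

/-- the thresholds of the block certificate -/
def BkA.thr (R m01 m10 : ℕ) (th0 th1 : ℕ → ℕ) (t : ℕ → ℕ) (x z : ℕ) : ℕ :=
  if x = 0 then (if z = 1 then m01 else th0 (t z))
  else if x = 1 then (if z = 0 then m10 else th1 (t z)) else R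

/-- the facts of a sorted world with `t 0 = a`, `t 1 = b` in naturals -/
structure BkW (H n q a b : ℕ) (p : ℕ → ℕ → ℕ → ℕ → ℕ → ℕ → Bool) (t h mu : ℕ → ℕ)
    (P : ℕ → ℕ → ℕ) : Prop where
  q2 : q + 2 ≤ n
  ta : t 0 = a
  tb : t 1 = b
  ba : b ≤ a
  lex : ∀ i j, i ≤ j → j < n → t j < t i ∨ t j = t i ∧ (h j < h i ∨ h j = h i ∧ mu j ≤ mu i)
  muh : ∀ i < n, mu i ≤ h i
  sh : ∑ i ∈ range n, h i ≤ H
  sum : ∑ i ∈ range n, h i = a + b + 3 + ∑ z ∈ Ico 2 n, (t z + 1)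
  pp : p (h 0) (mu 0) (h 1) (mu 1) (∑ j ∈ (range n).erase 0, P 0 j)
    (∑ j ∈ (range n).erase 1, P 1 j) = true

namespace BkW

variable {H n q a b : ℕ} {p : ℕ → ℕ → ℕ → ℕ → ℕ → ℕ → Bool} {t h mu : ℕ → ℕ} {P : ℕ → ℕ → ℕ}

/-- the shares of the rest rows -/
lemma tz (F : BkW H n q a b p t h mu P) {z : ℕ} (h1 : 1 ≤ z) (hz : z < n) : t z ≤ b := by
  have := F.lex 1 z h1 hz
  have := F.tb
  omega

/-- the capacity of the rest rows -/
lemma cap (F : BkW H n q a b p t h mu P) : a + b + 3 + ∑ z ∈ Ico 2 n, (t z + 1) ≤ H :=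
  F.sum.symm.le.trans F.sh

/-- the capacity for one rest row -/
lemma cap1 (F : BkW H n q a b p t h mu P) {z : ℕ} (h2 : 2 ≤ z) (hz : z < n) :
    a + b + 3 + (t z + q) ≤ H := by
  have h1 := F.cap
  have hm : z ∈ Ico 2 n := mem_Ico.2 ⟨h2, hz⟩
  rw [← add_sum_erase _ _ hm] at h1
  have h3 : ((Ico 2 n).erase z).card • 1 ≤ ∑ x ∈ (Ico 2 n).erase z, (t x + 1) :=
    card_nsmul_le_sum _ _ _ fun x _ => by omega
  rw [card_erase_of_mem hm, Nat.card_Ico, smul_eq_mul, mul_one] at h3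
  have h4 := F.q2
  omega

/-- the capacity for two rest rows -/
lemma cap2 (F : BkW H n q a b p t h mu P) {z y : ℕ} (h2 : 2 ≤ z) (hz : z < n) (hy : 2 ≤ y)
    (hyn : y < n) (hzy : z ≠ y) : a + b + 3 + (t z + t y + q) ≤ H := by
  have h1 := F.cap
  have hm : z ∈ Ico 2 n := mem_Ico.2 ⟨h2, hz⟩
  have hm' : y ∈ (Ico 2 n).erase z := mem_erase.2 ⟨hzy.symm, mem_Ico.2 ⟨hy, hyn⟩⟩
  rw [← add_sum_erase _ _ hm, ← add_sum_erase _ _ hm'] at h1
  have h3 : (((Ico 2 n).erase z).erase y).card • 1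
      ≤ ∑ x ∈ ((Ico 2 n).erase z).erase y, (t x + 1) :=
    card_nsmul_le_sum _ _ _ fun x _ => by omega
  rw [card_erase_of_mem hm', card_erase_of_mem hm, Nat.card_Ico, smul_eq_mul, mul_one] at h3
  have h4 := F.q2
  omega

/-- the capacity of the other rest rows -/
lemma cape (F : BkW H n q a b p t h mu P) {z : ℕ} (h2 : 2 ≤ z) (hz : z < n) :
    a + b + 3 + (t z + 1) + ∑ y ∈ (Ico 2 n).erase z, (t y + 1) ≤ H := by
  have h1 := F.cap
  have hm : z ∈ Ico 2 n := mem_Ico.2 ⟨h2, hz⟩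
  rw [← add_sum_erase _ _ hm] at h1
  omega

/-- the doubles of the first rows -/
lemma h01 (F : BkW H n q a b p t h mu P) : h 0 + h 1 + ∑ z ∈ Ico 2 n, h z ≤ H := by
  have h1 := F.sh
  have h2 : ∑ i ∈ range n, h i = h 0 + h 1 + ∑ z ∈ Ico 2 n, h z := by
    have h3 := F.q2
    rw [range_eq_Ico, sum_eq_sum_Ico_succ_bot (by omega), sum_eq_sum_Ico_succ_bot (by omega)]
    exact (add_assoc _ _ _).symm
  omega

/-- the doubles of a rest row -/
lemma hz (F : BkW H n q a b p t h mu P) {z : ℕ} (h2 : 2 ≤ z) (hz : z < n) :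
    h 0 + h 1 + h z ≤ H := by
  have h1 := F.h01
  have h3 := single_le_sum (f := h) (fun i _ => Nat.zero_le _) (mem_Ico.2 ⟨h2, hz⟩)
  omega

end BkW

section Congr

variable {R : ℤ} {n : ℕ} {t s h e mu t' h' mu' : ℕ → ℤ} {m m' : ℕ → ℕ → ℤ} {P A D : ℕ → ℕ → ℕ}
  {N W : ℕ → ℕ → ℤ}

/-- the loads depend only on the first `n` rows -/
theorem LdG.congr (C : LdG R n t s h e mu m P A D N W) (ht : ∀ i < n, t i = t' i)
    (hh : ∀ i < n, h i = h' i) (hmu : ∀ i < n, mu i = mu' i)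
    (hm : ∀ x < n, ∀ z < n, m x z = m' x z) : LdG R n t' s h' e mu' m' P A D N W where
  t0 i hi := ht i hi ▸ C.t0 i hi
  tR i hi := ht i hi ▸ C.tR i hi
  h0 i hi := hh i hi ▸ C.h0 i hi
  hh i hi := by rw [← ht i hi, ← hh i hi]; exact C.hh i hi
  mu0 i hi := hmu i hi ▸ C.mu0 i hi
  muh i hi := by rw [← hmu i hi, ← hh i hi]; exact C.muh i hi
  mup i hi := by rw [← hmu i hi]; exact C.mup i hi
  en i hi := by rw [← hmu i hi, ← hh i hi]; exact C.en i hi
  pm i hi := by rw [← hmu i hi]; exact C.pm i hi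
  cap x hx z hz hxz := by rw [← hmu x hx]; exact C.cap x hx z hz hxz
  prt x hx z hz hxz := by rw [← hmu x hx, ← hh x hx]; exact C.prt x hx z hz hxz
  prv x hx := by rw [← hmu x hx, ← hh x hx]; exact C.prv x hx
  sup x hx := by rw [← hmu x hx]; exact C.sup x hx
  row z hz p a d d' hp q := by
    have h1 := C.row z hz p a d d' hp q
    have e1 : ∑ x ∈ (range n).erase z, (((p x : ℤ) + d' x) * (R - t z)
        + a x * max 0 (R - t z - m x z) + d x * (R - t z + max 0 (R - t z - m x z)))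
        = ∑ x ∈ (range n).erase z, (((p x : ℤ) + d' x) * (R - t' z)
        + a x * max 0 (R - t' z - m' x z) + d x * (R - t' z + max 0 (R - t' z - m' x z))) :=
      sum_congr rfl fun x hx => by
        rw [← ht z hz, ← hm x (mem_range.1 (mem_of_mem_erase hx)) z hz]
    rw [← e1]
    exact h1
  pair x hx z hz hxz := by
    rw [← ht x hx, ← ht z hz, ← hm x hx z hz, ← hm z hz x hx]
    exact C.pair x hx z hz hxz
  W0 := C.W0
  Ws := C.Ws
  N0 := C.N0
  jn x hx z hz hxz k hk := by rw [← ht x hx, ← ht z hz]; exact C.jn x hx z hz hxz k hk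
  cel x hx z hz hxz := by rw [← ht x hx, ← ht z hz]; exact C.cel x hx z hz hxz
  exc x hx z hz hxz := by rw [← ht x hx, ← ht z hz]; exact C.exc x hx z hz hxz

end Congr

section BkA

/-- one pair of thresholds is fine -/
def BkA.okp (R t m t' m' : ℕ) : Bool :=
  Nat.ble (Nat.add R 0) (Nat.add t m) || (Nat.ble (Nat.add R 0) (Nat.add t' m')
    || Nat.blt (Nat.add R (Nat.mul t t')) (Nat.mul (Nat.succ m) (Nat.succ m')))

lemma BkA.okp_spec {R t m t' m' : ℕ} (h : BkA.okp R t m t' m' = true) (h1 : (m : ℤ) + 1 ≤ R - t)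
    (h2 : (m' : ℤ) + 1 ≤ R - t') : (R : ℤ) + t * t' < (m + 1) * (m' + 1) := by
  rw [BkA.okp, Bool.or_eq_true, Bool.or_eq_true] at h
  rcases h with h | h | h
  · have := Nat.le_of_ble_eq_true h
    simp only [Nat.add_eq, Nat.add_zero] at this
    omega
  · have := Nat.le_of_ble_eq_true h
    simp only [Nat.add_eq, Nat.add_zero] at this
    omega
  · rw [Nat.blt_eq] at h
    simp only [Nat.add_eq, Nat.mul_eq, Nat.succ_eq_add_one] at h
    exact_mod_cast h

/-- the thresholds are fine: at the row of share `c` (`mc`) and the rest rows (`th`), shares at most `b`,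
two of them at most `X` in sum -/
def BkA.okth (R c mc b X : ℕ) (th : ℕ → ℕ) : Bool :=
  (List.range (Nat.succ b)).all fun i =>
    BkA.okp R c mc i (th i) && (List.range (Nat.succ i)).all fun j =>
      Nat.blt X (Nat.add i j) || BkA.okp R i (th i) j (th j)

lemma BkA.okp_symm {R t m t' m' : ℕ} (h : BkA.okp R t m t' m' = true) :
    BkA.okp R t' m' t m = true := by
  unfold BkA.okp at h ⊢
  rw [Bool.or_eq_true, Bool.or_eq_true] at h ⊢
  rcases h with h | h | h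
  · exact Or.inr (Or.inl h)
  · exact Or.inl h
  · refine Or.inr (Or.inr ?_)
    simp only [Nat.add_eq, Nat.mul_eq] at h ⊢
    rw [Nat.mul_comm t', Nat.mul_comm (Nat.succ m')]
    exact h

lemma BkA.okth_one {R c mc b X : ℕ} {th : ℕ → ℕ} (h : BkA.okth R c mc b X th = true) {i : ℕ}
    (hi : i ≤ b) : BkA.okp R c mc i (th i) = true := by
  rw [BkA.okth, List.all_eq_true] at h
  have h1 := h i (List.mem_range.2 (Nat.lt_succ_of_le hi))
  rw [Bool.and_eq_true] at h1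
  exact h1.1

lemma BkA.okth_two {R c mc b X : ℕ} {th : ℕ → ℕ} (h : BkA.okth R c mc b X th = true) {i j : ℕ}
    (hi : i ≤ b) (hj : j ≤ b) (hX : i + j ≤ X) : BkA.okp R i (th i) j (th j) = true := by
  have key : ∀ i j : ℕ, i ≤ b → j ≤ i → i + j ≤ X → BkA.okp R i (th i) j (th j) = true := by
    intro i j hi hj hX
    rw [BkA.okth, List.all_eq_true] at h
    have h1 := h i (List.mem_range.2 (Nat.lt_succ_of_le hi))
    rw [Bool.and_eq_true, List.all_eq_true] at h1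
    have h2 := h1.2 j (List.mem_range.2 (Nat.lt_succ_of_le hj))
    rw [Bool.or_eq_true] at h2
    rcases h2 with h2 | h2
    · rw [Nat.blt_eq] at h2
      simp only [Nat.add_eq] at h2
      omega
    · exact h2
  rcases Nat.le_total j i with h1 | h1
  · exact key i j hi h1 hX
  · exact BkA.okp_symm (key j i hj h1 (by omega))

variable {R H n q a b : ℕ} {p : ℕ → ℕ → ℕ → ℕ → ℕ → ℕ → Bool}

/-- the facts of a sorted world -/
lemma BkW.of {t s h mu : ℕ → ℤ} {P : ℕ → ℕ → ℕ} (q2 : q + 2 ≤ n)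
    (t0 : ∀ i < n, 0 ≤ t i) (mu0 : ∀ i < n, 0 ≤ mu i) (muh : ∀ i < n, mu i ≤ h i)
    (hh : ∀ i < n, h i = t i + s i + 1) (ss : ∑ i ∈ range n, s i = 1)
    (sh : ∑ i ∈ range n, h i ≤ H)
    (lex : ∀ i j, i ≤ j → j < n → t j < t i ∨ t j = t i ∧ (h j < h i ∨ h j = h i ∧ mu j ≤ mu i))
    (ha : t 0 = a) (hb : t 1 = b)
    (pp : p (h 0).toNat (mu 0).toNat (h 1).toNat (mu 1).toNat (∑ j ∈ (range n).erase 0, P 0 j)
      (∑ j ∈ (range n).erase 1, P 1 j) = true) :
    BkW H n q a b p (fun i => (t i).toNat) (fun i => (h i).toNat) (fun i => (mu i).toNat) P := by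
  have h0 : ∀ i < n, 0 ≤ h i := fun i hi => (mu0 i hi).trans (muh i hi)
  have e1 : ((∑ i ∈ range n, (h i).toNat : ℕ) : ℤ) = ∑ i ∈ range n, h i := by
    push_cast
    exact sum_congr rfl fun i hi => Int.toNat_of_nonneg (h0 i (mem_range.1 hi))
  have e2 : ((∑ z ∈ Ico 2 n, ((t z).toNat + 1) : ℕ) : ℤ) = ∑ z ∈ Ico 2 n, (t z + 1) := by
    push_cast
    exact sum_congr rfl fun i hi => by rw [Int.toNat_of_nonneg (t0 i (mem_Ico.1 hi).2)]
  have e3 : ∑ i ∈ range n, h i = a + b + 3 + ∑ z ∈ Ico 2 n, (t z + 1) := by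
    have h1 : ∑ i ∈ range n, h i = ∑ i ∈ range n, (t i + 1) + ∑ i ∈ range n, s i := by
      rw [← sum_add_distrib]
      exact sum_congr rfl fun i hi => by
        have := hh i (mem_range.1 hi)
        linarith
    rw [h1, ss, LdG.sum_all (by omega), ha, hb]
    ring
  refine ⟨q2, show (t 0).toNat = a by omega, show (t 1).toNat = b by omega, ?_, fun i j hij hj => ?_,
    fun i hi => ?_, ?_, ?_, pp⟩
  · have := lex 0 1 (by norm_num) (by omega)
    omega
  · have h1 := lex i j hij hj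
    have h2 := t0 j hj
    have h3 := t0 i (by omega)
    have h4 := h0 j hj
    have h5 := h0 i (by omega)
    have h6 := mu0 j hj
    have h7 := mu0 i (by omega)
    show (t j).toNat < (t i).toNat ∨ (t j).toNat = (t i).toNat ∧ ((h j).toNat < (h i).toNat ∨
      (h j).toNat = (h i).toNat ∧ (mu j).toNat ≤ (mu i).toNat)
    omega
  · have := muh i hi
    have := mu0 i hi
    show (mu i).toNat ≤ (h i).toNat
    omega
  · have : ((∑ i ∈ range n, (h i).toNat : ℕ) : ℤ) ≤ H := by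
      rw [e1]
      exact sh
    exact_mod_cast this
  · have : ((∑ i ∈ range n, (h i).toNat : ℕ) : ℤ)
        = ((a + b + 3 + ∑ z ∈ Ico 2 n, ((t z).toNat + 1) : ℕ) : ℤ) := by
      rw [e1, e3]
      push_cast at e2 ⊢
      rw [e2]
    exact_mod_cast this

/-- **a world with given `t 0`, `t 1` gives the loads with the thresholds `thr`** -/
theorem NoNd.of_wd (q1 : 1 ≤ q) (q2 : q + 2 ≤ n) {m01 m10 : ℕ} {th0 th1 : ℕ → ℕ}
    (ok0 : BkA.okth R b m01 b (H - (a + b + 3 + q)) th0 = true)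
    (ok1 : BkA.okth R a m10 b (H - (a + b + 3 + q)) th1 = true)
    (main : ∀ (t h mu : ℕ → ℕ) (s e : ℕ → ℤ) (P A D : ℕ → ℕ → ℕ) (N W : ℕ → ℕ → ℤ),
      Bk.Wd R n t h mu (BkA.thr R m01 m10 th0 th1 t) s e P A D N W →
      BkW H n q a b p t h mu P → ∑ i ∈ range n, s i = 1 → False) :
    NoNd (R : ℤ) H n a b p := by
  intro ι t s h e E U ho vl kp ms mr mn mu Nb Nx be ls pc ar aT NN FF pw nu I L hh lex ha hb hp
  have hbe : ∀ x < n, (∑ j ∈ (range n).erase x, be x j).toNat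
      = ∑ j ∈ (range n).erase x, (lgP U ho kp pc x j).card := by
    intro x hx
    have h1 : ∑ j ∈ (range n).erase x, be x j
        = ((∑ j ∈ (range n).erase x, (lgP U ho kp pc x j).card : ℕ) : ℤ) := by
      push_cast
      exact sum_congr rfl fun j hj => (I.card_lgP hx (mem_range.1 (mem_of_mem_erase hj))).symm
    rw [h1, Int.toNat_natCast]
  rw [hbe 0 (by omega), hbe 1 (by omega)] at hp
  have F := BkW.of (P := fun x j => (lgP U ho kp pc x j).card) q2 I.t0 (fun i hi => I.mu0 hi) I.muh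
    I.hh I.ss hh lex ha hb hp
  set q' : ℕ → ℕ → ℕ := BkA.thr R m01 m10 th0 th1 fun i => (t i).toNat with hq'
  have G := I.ldg L (m := fun x z => (q' x z : ℤ)) (fun x _ i _ => Int.natCast_nonneg _) ?_
  · refine main (fun i => (t i).toNat) (fun i => (h i).toNat) (fun i => (mu i).toNat) s e
      (fun x z => (lgP U ho kp pc x z).card)
      (fun x z => (lgA U ho kp mn pc (fun x z => (q' x z : ℤ)) x z).card)
      (fun x z => (lgD U ho kp mn pc (fun x z => (q' x z : ℤ)) x z).card) NN FF ⟨?_, by omega⟩ F I.ss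
    exact G.congr (fun i hi => (Int.toNat_of_nonneg (I.t0 i hi)).symm)
      (fun i hi => (Int.toNat_of_nonneg (I.h0 i hi)).symm)
      (fun i hi => (Int.toNat_of_nonneg (I.mu0 hi)).symm) fun _ _ _ _ => rfl
  · intro x hx i hi j hj hix hjx hij h1 h2
    simp only [hq', BkA.thr] at h1 h2 ⊢
    have ht : ∀ z, 2 ≤ z → z < n → ∃ k : ℕ, (t z).toNat = k ∧ t z = k ∧ k ≤ b ∧
        k + (a + b + 3 + q) ≤ H := fun z hz hzn => by
      have g1 : (t z).toNat ≤ b := F.tz (show 1 ≤ z by omega) hzn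
      have g2 : a + b + 3 + ((t z).toNat + q) ≤ H := F.cap1 hz hzn
      exact ⟨_, rfl, (Int.toNat_of_nonneg (I.t0 z hzn)).symm, g1, by omega⟩
    by_cases hx0 : x = 0
    · subst hx0
      simp only [if_true] at h1 h2 ⊢
      rcases Nat.lt_or_ge i 2 with i2 | i2
      · have hi1 : i = 1 := by omega
        subst hi1
        obtain ⟨k, k1, k2, k3, k4⟩ := ht j (by omega) hj
        rw [if_pos rfl] at h1 ⊢
        rw [if_neg (by omega), k1, k2] at h2 ⊢
        rw [hb] at h1 ⊢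
        exact BkA.okp_spec (BkA.okth_one ok0 k3) h1 h2
      · obtain ⟨k, k1, k2, k3, k4⟩ := ht i i2 hi
        rw [if_neg (by omega), k1, k2] at h1 ⊢
        rcases Nat.lt_or_ge j 2 with j2 | j2
        · have hj1 : j = 1 := by omega
          subst hj1
          rw [if_pos rfl, hb] at h2 ⊢
          exact BkA.okp_spec (BkA.okp_symm (BkA.okth_one ok0 k3)) h1 h2
        · obtain ⟨l, l1, l2, l3, l4⟩ := ht j j2 hj
          rw [if_neg (by omega), l1, l2] at h2 ⊢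
          have h5 : a + b + 3 + ((t i).toNat + (t j).toNat + q) ≤ H := F.cap2 i2 hi j2 hj hij
          rw [k1, l1] at h5
          exact BkA.okp_spec (BkA.okth_two ok0 k3 l3 (by omega)) h1 h2
    · by_cases hx1 : x = 1
      · subst hx1
        simp only [one_ne_zero, if_false, if_true] at h1 h2 ⊢
        rcases Nat.lt_or_ge i 2 with i2 | i2
        · have hi1 : i = 0 := by omega
          subst hi1
          obtain ⟨k, k1, k2, k3, k4⟩ := ht j (by omega) hj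
          rw [if_pos rfl] at h1 ⊢
          rw [if_neg (by omega), k1, k2] at h2 ⊢
          rw [ha] at h1 ⊢
          exact BkA.okp_spec (BkA.okth_one ok1 k3) h1 h2
        · obtain ⟨k, k1, k2, k3, k4⟩ := ht i i2 hi
          rw [if_neg (by omega), k1, k2] at h1 ⊢
          rcases Nat.lt_or_ge j 2 with j2 | j2
          · have hj1 : j = 0 := by omega
            subst hj1
            rw [if_pos rfl, ha] at h2 ⊢
            exact BkA.okp_spec (BkA.okp_symm (BkA.okth_one ok1 k3)) h1 h2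
          · obtain ⟨l, l1, l2, l3, l4⟩ := ht j j2 hj
            rw [if_neg (by omega), l1, l2] at h2 ⊢
            have h5 : a + b + 3 + ((t i).toNat + (t j).toNat + q) ≤ H := F.cap2 i2 hi j2 hj hij
            rw [k1, l1] at h5
            exact BkA.okp_spec (BkA.okth_two ok1 k3 l3 (by omega)) h1 h2
      · rw [if_neg hx0, if_neg hx1] at h1
        have h3 := I.t0 i hi
        linarith

/-- **one node of the block certificate** -/
theorem NoNd.of_blk (q1 : 1 ≤ q) (q2 : q + 2 ≤ n) {m01 m10 : ℕ} {th0 th1 : ℕ → ℕ}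
    (ok0 : BkA.okth R b m01 b (H - (a + b + 3 + q)) th0 = true)
    (ok1 : BkA.okth R a m10 b (H - (a + b + 3 + q)) th1 = true)
    {den al ga be L0 L1 V0 V1 W0 W1 VC : ℕ}
    (rest : ∀ (t h mu : ℕ → ℕ) (s e : ℕ → ℤ) (P A D : ℕ → ℕ → ℕ) (N W : ℕ → ℕ → ℤ),
      Bk.Wd R n t h mu (BkA.thr R m01 m10 th0 th1 t) s e P A D N W →
      BkW H n q a b p t h mu P → ∀ z ∈ Ico 2 n,
      den * h z + (L0 * (A 0 z + 2 * D 0 z) + L1 * (A 1 z + 2 * D 1 z))
          + (V0 * P 0 z + V1 * P 1 z + VC * ∑ y ∈ (Ico 2 n).erase z, P y z) + ga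
        ≤ (den + al) * (t z + 1)
          + (W0 * P z 0 + W1 * P z 1 + VC * ∑ y ∈ (Ico 2 n).erase z, P z y))
    (block : ∀ (t h mu : ℕ → ℕ) (s e : ℕ → ℤ) (P A D : ℕ → ℕ → ℕ) (N W : ℕ → ℕ → ℤ),
      Bk.Wd R n t h mu (BkA.thr R m01 m10 th0 th1 t) s e P A D N W →
      BkW H n q a b p t h mu P →
      den * (h 0 + h 1) + (W0 * ∑ z ∈ Ico 2 n, P z 0 + W1 * ∑ z ∈ Ico 2 n, P z 1)
        + (L0 * (P 0 1 + ∑ z ∈ Ico 2 n, P 0 z + A 0 1 + 2 * D 0 1)
          + L1 * (P 1 0 + ∑ z ∈ Ico 2 n, P 1 z + A 1 0 + 2 * D 1 0))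
        ≤ be + (L0 * mu 0 + L1 * mu 1)
          + (V0 * ∑ z ∈ Ico 2 n, P 0 z + V1 * ∑ z ∈ Ico 2 n, P 1 z))
    (fin : be + al * (H - (a + b + 3)) < den * (a + b + 3) + ga * q) (hH : a + b + 3 ≤ H) :
    NoNd (R : ℤ) H n a b p := by
  refine NoNd.of_wd q1 q2 ok0 ok1 fun t h mu s e P A D N W C F ss => ?_
  refine C.C.blk ss (by omega) (den := den) (al := al) (ga := ga) (be := be) (L0 := L0)
    (L1 := L1) (V0 := V0) (V1 := V1) (W0 := W0) (W1 := W1) (VC := VC) (by positivity)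
    (by positivity) (fun z hz => ?_) ?_ ?_
  · have h1 := rest t h mu s e P A D N W C F z hz
    zify at h1
    linarith
  · have h1 := block t h mu s e P A D N W C F
    zify at h1
    linarith
  · rw [F.ta, F.tb]
    have h1 := F.cap
    have h2 := F.q2
    obtain ⟨B, hB⟩ := Nat.exists_eq_add_of_le hH
    have h3 : H - (a + b + 3) = B := by omega
    rw [h3] at fin
    have h5 : ∑ z ∈ Ico 2 n, (t z + 1) ≤ B := by omega
    have h6 := Nat.mul_le_mul_left al h5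
    obtain ⟨k, rfl⟩ : ∃ k, n = q + 2 + k := ⟨n - (q + 2), by omega⟩
    zify at h6 fin
    push_cast
    nlinarith [Nat.zero_le (ga * k)]

/-- the union over the number of parts of the host 0 -/
theorem NoNd.all_k (n1 : 1 ≤ n) {p' : ℕ → ℕ → ℕ → ℕ → ℕ → ℕ → Bool}
    (h : ∀ k, k ≤ H → NoNd (R : ℤ) H n a b fun x y z w u v =>
      p' x y z w u v && Nat.beq x (Nat.add y k)) :
    NoNd (R : ℤ) H n a b p' := by
  intro ι t s h0 e E U ho vl kp ms mr mn mu Nb Nx be ls pc ar aT NN FF pw nu I L hh lex ha hb hp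
  have h1 := I.muh 0 (by omega)
  have h2 := I.mu0 (i := 0) (by omega)
  have h3 : h0 0 ≤ H := by
    have := single_le_sum (f := h0) (fun i hi => I.h0 i (mem_range.1 hi))
      (mem_range.2 (show 0 < n by omega))
    linarith
  refine h ((h0 0).toNat - (mu 0).toNat) (by omega) _ _ _ _ _ _ _ _ _ _ _ _ _ _ _ _ _ _ _ _ _ _ _ _ _
    I L hh lex ha hb ?_
  rw [Bool.and_eq_true]
  refine ⟨hp, ?_⟩
  rw [Nat.beq_eq]
  show (h0 0).toNat = (mu 0).toNat + ((h0 0).toNat - (mu 0).toNat)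
  omega

/-- a weaker case -/
theorem NoNd.mono {p' : ℕ → ℕ → ℕ → ℕ → ℕ → ℕ → Bool} (h1 : NoNd (R : ℤ) H n a b p')
    (hp : ∀ x y z w u v, p x y z w u v = true → p' x y z w u v = true) :
    NoNd (R : ℤ) H n a b p := by
  intro ι t s h0 e E U ho vl kp ms mr mn mu Nb Nx be ls pc ar aT NN FF pw nu I L hh lex ha hb h3
  exact h1 _ _ _ _ _ _ _ _ _ _ _ _ _ _ _ _ _ _ _ _ _ _ _ _ _ I L hh lex ha hb (hp _ _ _ _ _ _ h3)

/-- the union of two cases -/
theorem NoNd.or {p' p'' : ℕ → ℕ → ℕ → ℕ → ℕ → ℕ → Bool} (h1 : NoNd (R : ℤ) H n a b p')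
    (h2 : NoNd (R : ℤ) H n a b p'')
    (hp : ∀ x y z w u v, p x y z w u v = true → p' x y z w u v = true ∨ p'' x y z w u v = true) :
    NoNd (R : ℤ) H n a b p := by
  intro ι t s h0 e E U ho vl kp ms mr mn mu Nb Nx be ls pc ar aT NN FF pw nu I L hh lex ha hb h3
  rcases hp _ _ _ _ _ _ h3 with h4 | h4
  · exact h1 _ _ _ _ _ _ _ _ _ _ _ _ _ _ _ _ _ _ _ _ _ _ _ _ _ I L hh lex ha hb h4
  · exact h2 _ _ _ _ _ _ _ _ _ _ _ _ _ _ _ _ _ _ _ _ _ _ _ _ _ I L hh lex ha hb h4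

/-- the pairs in `p` by `NoPr` -/
theorem NoItCP.of_pr {p' : ℕ → ℕ → Bool} (n2 : q + 2 ≤ n)
    (h : ∀ a b : ℕ, b ≤ a → a + b + q + 3 ≤ H → p' a b = true → NoPr (R : ℤ) H n a b) :
    NoItCP (R : ℤ) H n p' := by
  intro ι t s h0 e E U ho vl kp ms mr mn mu Nb Nx be ls pc ar aT NN FF pw nu I L hh lex hp
  have t0 := I.t0 0 (by omega)
  have t1 := I.t0 1 (by omega)
  have hba := lex 0 1 (by norm_num) (by omega)
  have F := BkW.of (P := fun _ _ => 0) (a := (t 0).toNat) (b := (t 1).toNat)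
    (p := fun _ _ _ _ _ _ => true) n2 I.t0 (fun i hi => I.mu0 hi) I.muh
    I.hh I.ss hh lex (Int.toNat_of_nonneg t0).symm (Int.toNat_of_nonneg t1).symm rfl
  refine h (t 0).toNat (t 1).toNat (by omega) ?_ hp _ _ _ _ _ _ _ _ _ _ _ _ _ _ _ _ _ _ _ _ _ _ _ _ _
    I L hh lex (Int.toNat_of_nonneg t0).symm (Int.toNat_of_nonneg t1).symm rfl
  have h1 := F.cap
  have h3 : (Ico 2 n).card • 1 ≤ ∑ x ∈ Ico 2 n, ((t x).toNat + 1) :=
    card_nsmul_le_sum _ _ _ fun x _ => by omega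
  rw [Nat.card_Ico, smul_eq_mul, mul_one] at h3
  omega

/-- **the union over the pairs of the two largest shares** -/
theorem NoItC.of_pr (n2 : q + 2 ≤ n)
    (h : ∀ a b : ℕ, b ≤ a → a + b + q + 3 ≤ H → NoPr (R : ℤ) H n a b) : NoItC (R : ℤ) H n := by
  refine NoItC.of_parts (p := fun _ _ => true) (NoItCP.of_pr n2 fun a b h1 h2 _ => h a b h1 h2)
    fun ι t s h e E U ho vl kp ms mr mn mu Nb Nx be ls pc ar aT NN FF pw nu _ _ _ _ hp => ?_
  simp at hp

/-- the pair from the enumeration -/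
theorem NoPr.of_itCP {p' : ℕ → ℕ → Bool} (h : NoItCP (R : ℤ) H n p') (hp : p' a b = true) :
    NoPr (R : ℤ) H n a b := by
  intro ι t s h0 e E U ho vl kp ms mr mn mu Nb Nx be ls pc ar aT NN FF pw nu I L hh lex ha hb _
  refine h _ _ _ _ _ _ _ _ _ _ _ _ _ _ _ _ _ _ _ _ _ _ _ _ _ I L hh lex ?_
  rw [ha, hb, Int.toNat_natCast, Int.toNat_natCast]
  exact hp

end BkA

end Pool.Agent.Lib.MP_f04ccf_co
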