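import Mathlib

/-!
MP_f04ccf_co, TEXT D, middle range (note 18114): **the sum over the partners and the loops of the driver**.

* `Mid.sum_cells`: the bound of the share sum of a row by one vector of multipliers;
* `Mid.allN`, `Mid.allL`: bounded conjunctions with the recursors (kernel);
* `Mid.lp`: the loop `x, x + 1, ..` as long as the guard holds (`Mid.lp_sound`): every number whose
  smaller ones satisfy the guard is reached;
* `Mid.frN`: forced evaluation.
-/

set_option autoImplicit false

namespace Pool.Agent.Lib.MP_f04ccf_co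

open Finset

namespace Mid

section pure

variable {ι : Type*}

/-- **the share sum of a row by one vector of multipliers** -/
theorem sum_cells {P : Finset ι} {B M K : ι → ℤ} {sh : ι → ℝ} {den al bt ga X : ℤ}
    (h : ∀ y ∈ P, (den : ℝ) * sh y ≤ al * B y + bt * M y + ga * K y)
    (hX : ∑ y ∈ P, B y ≤ X) (ha : 0 ≤ al) :
    (den : ℝ) * ∑ y ∈ P, sh y
      ≤ ((al * X + bt * ∑ y ∈ P, M y + ga * ∑ y ∈ P, K y : ℤ) : ℝ) := by
  have h1 : (den : ℝ) * ∑ y ∈ P, sh y
      ≤ ((∑ y ∈ P, (al * B y + bt * M y + ga * K y) : ℤ) : ℝ) := by
    rw [mul_sum]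
    push_cast
    exact sum_le_sum fun y hy => h y hy
  refine h1.trans ?_
  have h2 : ∑ y ∈ P, (al * B y + bt * M y + ga * K y)
      = al * ∑ y ∈ P, B y + bt * ∑ y ∈ P, M y + ga * ∑ y ∈ P, K y := by
    rw [sum_add_distrib, sum_add_distrib, mul_sum, mul_sum, mul_sum]
  rw [h2]
  have h3 := mul_le_mul_of_nonneg_left hX ha
  exact_mod_cast (by linarith :
    al * ∑ y ∈ P, B y + bt * ∑ y ∈ P, M y + ga * ∑ y ∈ P, K y
      ≤ al * X + bt * ∑ y ∈ P, M y + ga * ∑ y ∈ P, K y)

end pure

/-! ### the loops -/

/-- forced evaluation -/
noncomputable def frN {β : Type} (n : ℕ) (k : ℕ → β) : β :=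
  Nat.casesOn (motive := fun _ => β) n (k 0) (fun m => k (Nat.succ m))

lemma frN_eq {β : Type} (n : ℕ) (k : ℕ → β) : frN n k = k n := by
  cases n <;> rfl

/-- `f i` for all `i < n` -/
noncomputable def allN (f : ℕ → Bool) (n : ℕ) : Bool :=
  Nat.rec (motive := fun _ => Bool) true
    (fun i ih => Bool.rec (motive := fun _ => Bool) false ih (f i)) n

lemma allN_sound {f : ℕ → Bool} {n : ℕ} (h : allN f n = true) : ∀ i < n, f i = true := by
  induction n with
  | zero => intro i hi; omega
  | succ n ih =>
    have h1 : (Bool.rec (motive := fun _ => Bool) false (allN f n) (f n) : Bool) = true := h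
    cases h2 : f n with
    | false => rw [h2] at h1; exact absurd h1 Bool.false_ne_true
    | true =>
      rw [h2] at h1
      intro i hi
      rcases Nat.lt_succ_iff_lt_or_eq.1 hi with h3 | h3
      · exact ih h1 i h3
      · rw [h3]; exact h2

/-- `f a` for all `a` in the list -/
noncomputable def allL {α : Type} (f : α → Bool) (l : List α) : Bool :=
  List.rec (motive := fun _ => Bool) true
    (fun a _ ih => Bool.rec (motive := fun _ => Bool) false ih (f a)) l

lemma allL_sound {α : Type} {f : α → Bool} {l : List α} (h : allL f l = true) :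
    ∀ a ∈ l, f a = true := by
  induction l with
  | nil => intro a ha; simp at ha
  | cons b l ih =>
    have h1 : (Bool.rec (motive := fun _ => Bool) false (allL f l) (f b) : Bool) = true := h
    cases h2 : f b with
    | false => rw [h2] at h1; exact absurd h1 Bool.false_ne_true
    | true =>
      rw [h2] at h1
      intro a ha
      rcases List.mem_cons.1 ha with h3 | h3
      · rw [h3]; exact h2
      · exact ih h1 a h3

/-- **the loop `x, x + 1, ..` as long as the guard `g` holds, with the body `f`** (`n` the fuel) -/
noncomputable def lp (g f : ℕ → Bool) (n : ℕ) : ℕ → Bool :=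
  Nat.rec (motive := fun _ => ℕ → Bool) (fun _ => false)
    (fun _ ih x => Bool.rec (motive := fun _ => Bool) true
      (Bool.rec (motive := fun _ => Bool) false (frN (Nat.succ x) ih) (f x)) (g x)) n

lemma lp_sound {g f : ℕ → Bool} {n : ℕ} : ∀ {x : ℕ}, lp g f n x = true →
    ∀ y, x ≤ y → (∀ w, x ≤ w → w ≤ y → g w = true) → f y = true := by
  induction n with
  | zero => intro x h; exact absurd h Bool.false_ne_true
  | succ n ih =>
    intro x h y hxy hg
    have h1 : (Bool.rec (motive := fun _ => Bool) true
      (Bool.rec (motive := fun _ => Bool) false (frN (Nat.succ x) (lp g f n)) (f x)) (g x) : Bool)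
        = true := h
    rw [hg x le_rfl hxy] at h1
    cases h2 : f x with
    | false => rw [h2] at h1; exact absurd h1 Bool.false_ne_true
    | true =>
      rw [h2] at h1
      have h3 : lp g f n (x + 1) = true := by
        rw [← frN_eq (Nat.succ x) (lp g f n)]
        exact h1
      rcases Nat.lt_or_ge x y with h4 | h4
      · exact ih h3 y h4 fun w hw hw2 => hg w (by omega) hw2
      · have : x = y := by omega
        rw [← this]; exact h2

end Mid

end Pool.Agent.Lib.MP_f04ccf_co
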