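import Pool.Agent.Lib.MP_f04ccf_co.M.LdG
import Pool.Agent.Lib.MP_f04ccf_co.M.MidD

/-!
MP_f04ccf_co, PLAN W, block certificate: **the block of two hosts in the kernel**.
-/

set_option autoImplicit false

namespace Pool.Agent.Lib.MP_f04ccf_co

open Finset Mid

namespace BlkB

/-! ### the loops -/

/-- short-circuit or -/
noncomputable def orb (a b : Bool) : Bool := Bool.rec (motive := fun _ => Bool) b true a

/-- short-circuit and -/
noncomputable def anb (a b : Bool) : Bool := Bool.rec (motive := fun _ => Bool) false b a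

lemma orb_true {a b : Bool} (h : orb a b = true) : a = true ∨ b = true := by
  cases a
  · exact Or.inr h
  · exact Or.inl rfl

lemma anb_true {a b : Bool} (h : anb a b = true) : a = true ∧ b = true := by
  cases a
  · exact absurd h Bool.false_ne_true
  · exact ⟨rfl, h⟩

/-- the smaller number -/
noncomputable def mnb (a b : ℕ) : ℕ := Bool.rec (motive := fun _ => ℕ) b a (Nat.ble a b)

lemma mnb_eq (a b : ℕ) : mnb a b = min a b := by
  unfold mnb
  rcases h : Nat.ble a b with _ | _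
  · have h1 : ¬ a ≤ b := fun h2 => by
      rw [Nat.ble_eq_true_of_le h2] at h
      exact Bool.noConfusion h
    rw [min_eq_right (by omega)]
  · have h1 : a ≤ b := Nat.le_of_ble_eq_true h
    rw [min_eq_left h1]

/-- the row test: `X` the left side, `W` the points -/
noncomputable def tk (r g X W : ℕ) : Bool := Nat.ble X (Nat.add r (Nat.mul W (Nat.add g W)))

lemma tk_eq {r g X W : ℕ} : tk r g X W = true ↔ X ≤ r + W * (g + W) :=
  ⟨fun h => Nat.le_of_ble_eq_true h, fun h => Nat.ble_eq_true_of_le h⟩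

/-- the largest `y ≤ n` with the test true; `X`, `W` the values at `y = n` -/
noncomputable def dn (c r g : ℕ) (k : ℕ → Bool) (n : ℕ) : ℕ → ℕ → Bool :=
  Nat.rec (motive := fun _ => ℕ → ℕ → Bool)
    (fun X W => Bool.rec (motive := fun _ => Bool) true (k 0) (tk r g X W))
    (fun n ih X W => Bool.rec (motive := fun _ => Bool)
      (frN (Nat.sub X c) fun X' => frN (Nat.sub W 2) fun W' => ih X' W')
      (k (Nat.succ n)) (tk r g X W)) n

lemma dn_sound {c r g : ℕ} {k : ℕ → Bool} (X W : ℕ) : ∀ n : ℕ,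
    dn c r g k n (X + n * c) (W + 2 * n) = true → ∀ y ≤ n,
    tk r g (X + y * c) (W + 2 * y) = true → ∃ y', y ≤ y' ∧ y' ≤ n ∧ k y' = true := by
  intro n
  induction n with
  | zero =>
    intro h y hy ht
    have hy0 : y = 0 := by omega
    subst hy0
    have h1 : (Bool.rec (motive := fun _ => Bool) true (k 0)
      (tk r g (X + 0 * c) (W + 2 * 0)) : Bool) = true := h
    rw [ht] at h1
    exact ⟨0, le_rfl, le_rfl, h1⟩
  | succ n ih =>
    intro h y hy ht
    have h1 : (Bool.rec (motive := fun _ => Bool)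
      (frN (Nat.sub (X + (n + 1) * c) c) fun X' => frN (Nat.sub (W + 2 * (n + 1)) 2)
        fun W' => dn c r g k n X' W')
      (k (Nat.succ n)) (tk r g (X + (n + 1) * c) (W + 2 * (n + 1))) : Bool) = true := h
    rcases h2 : tk r g (X + (n + 1) * c) (W + 2 * (n + 1)) with _ | _
    · rw [h2] at h1
      have h3 : y ≤ n := by
        by_contra h4
        have h5 : y = n + 1 := by omega
        rw [h5, h2] at ht
        exact Bool.noConfusion ht
      have h6 : Nat.sub (X + (n + 1) * c) c = X + n * c := by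
        show X + (n + 1) * c - c = X + n * c
        rw [Nat.succ_mul, ← Nat.add_assoc, Nat.add_sub_cancel]
      have h7 : Nat.sub (W + 2 * (n + 1)) 2 = W + 2 * n := by
        show W + 2 * (n + 1) - 2 = W + 2 * n
        omega
      rw [h6, h7] at h1
      simp only [frN_eq] at h1
      obtain ⟨y', h8, h9, h10⟩ := ih h1 y h3 ht
      exact ⟨y', h8, by omega, h10⟩
    · rw [h2] at h1
      exact ⟨n + 1, hy, le_rfl, h1⟩

/-- the last `y' ≤ y + n` before the test fails; `X`, `W` the values at `y` -/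
noncomputable def up (c r g : ℕ) (k : ℕ → Bool) (n : ℕ) : ℕ → ℕ → ℕ → Bool :=
  Nat.rec (motive := fun _ => ℕ → ℕ → ℕ → Bool) (fun y _ _ => k y)
    (fun _ ih y X W => frN (Nat.add X c) fun X' => frN (Nat.add W 2) fun W' =>
      Bool.rec (motive := fun _ => Bool) (k y) (ih (Nat.succ y) X' W') (tk r g X' W')) n

lemma up_sound {c r g : ℕ} {k : ℕ → Bool} : ∀ n y X W : ℕ, up c r g k n y X W = true →
    ∀ y1, y ≤ y1 → y1 ≤ y + n →
    (∀ i, i < y1 - y → tk r g (X + (i + 1) * c) (W + 2 * (i + 1)) = true) →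
    ∃ y', y1 ≤ y' ∧ k y' = true := by
  intro n
  induction n with
  | zero =>
    intro y X W h y1 h1 h2 _
    have h3 : y1 = y := by omega
    exact ⟨y, by omega, h⟩
  | succ n ih =>
    intro y X W h y1 h1 h2 h3
    have h4 : (frN (Nat.add X c) fun X' => frN (Nat.add W 2) fun W' =>
      (Bool.rec (motive := fun _ => Bool) (k y) (up c r g k n (Nat.succ y) X' W')
        (tk r g X' W') : Bool)) = true := h
    simp only [frN_eq] at h4
    rcases Nat.eq_or_lt_of_le h1 with h5 | h5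
    · subst h5
      rcases h6 : tk r g (Nat.add X c) (Nat.add W 2) with _ | _
      · rw [h6] at h4
        exact ⟨y, le_rfl, h4⟩
      · rw [h6] at h4
        obtain ⟨y', h7, h8⟩ := ih (y + 1) _ _ h4 (y + 1) le_rfl (by omega)
          (fun i hi => absurd hi (by omega))
        exact ⟨y', by omega, h8⟩
    · have h6 := h3 0 (by omega)
      have h7 : tk r g (Nat.add X c) (Nat.add W 2) = true := by
        have h8 : X + (0 + 1) * c = Nat.add X c := by
          show X + (0 + 1) * c = X + c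
          ring
        have h9 : W + 2 * (0 + 1) = Nat.add W 2 := rfl
        rw [h8, h9] at h6
        exact h6
      rw [h7] at h4
      refine ih (y + 1) _ _ h4 y1 (by omega) (by omega) fun i hi => ?_
      have h10 := h3 (i + 1) (by omega)
      have h11 : X + (i + 1 + 1) * c = Nat.add X c + (i + 1) * c := by
        show X + (i + 1 + 1) * c = X + c + (i + 1) * c
        ring
      have h12 : W + 2 * (i + 1 + 1) = Nat.add W 2 + 2 * (i + 1) := by
        show W + 2 * (i + 1 + 1) = W + 2 + 2 * (i + 1)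
        ring
      rw [h11, h12] at h10
      exact h10

/-- the contents `a, a + 1, .., a + n`; `X`, `W` the values at `y = 0` -/
noncomputable def lpA (c ca r g : ℕ) (body : ℕ → ℕ → Bool) (n : ℕ) : ℕ → ℕ → ℕ → ℕ → Bool :=
  Nat.rec (motive := fun _ => ℕ → ℕ → ℕ → ℕ → Bool)
    (fun a y X W => dn c r g (fun y' => body a y') y (Nat.add X (Nat.mul y c))
      (Nat.add W (Nat.mul 2 y)))
    (fun _ ih a y X W => dn c r g (fun y' => Bool.rec (motive := fun _ => Bool) false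
        (frN (Nat.add X ca) fun X' => frN (Nat.add W 2) fun W' => ih (Nat.succ a) y' X' W')
        (body a y')) y (Nat.add X (Nat.mul y c)) (Nat.add W (Nat.mul 2 y))) n

lemma lpA_sound {c ca r g : ℕ} {body : ℕ → ℕ → Bool} : ∀ n a y X W : ℕ,
    lpA c ca r g body n a y X W = true → ∀ i ≤ n, ∀ y1 ≤ y,
    (∀ j ≤ i, tk r g (X + j * ca + y1 * c) (W + 2 * j + 2 * y1) = true) →
    ∃ y', y1 ≤ y' ∧ body (a + i) y' = true := by
  intro n
  induction n with
  | zero =>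
    intro a y X W h i hi y1 hy1 ht
    have hi0 : i = 0 := by omega
    subst hi0
    have h1 : dn c r g (fun y' => body a y') y (X + y * c) (W + 2 * y) = true := h
    have h2 := ht 0 le_rfl
    simp only [Nat.zero_mul, Nat.mul_zero, Nat.add_zero] at h2
    obtain ⟨y', h3, -, h4⟩ := dn_sound X W y h1 y1 hy1 h2
    exact ⟨y', h3, h4⟩
  | succ n ih =>
    intro a y X W h i hi y1 hy1 ht
    have h1 : dn c r g (fun y' => (Bool.rec (motive := fun _ => Bool) false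
        (frN (Nat.add X ca) fun X' => frN (Nat.add W 2) fun W' =>
          lpA c ca r g body n (Nat.succ a) y' X' W')
        (body a y') : Bool)) y (X + y * c) (W + 2 * y) = true := h
    have h2 := ht 0 (Nat.zero_le _)
    simp only [Nat.zero_mul, Nat.mul_zero, Nat.add_zero] at h2
    obtain ⟨y', h3, h3', h4⟩ := dn_sound X W y h1 y1 hy1 h2
    simp only [frN_eq] at h4
    rcases h5 : body a y' with _ | _
    · rw [h5] at h4
      exact absurd h4 Bool.false_ne_true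
    · rw [h5] at h4
      rcases Nat.eq_zero_or_pos i with h6 | h6
      · subst h6
        exact ⟨y', h3, h5⟩
      · obtain ⟨i', rfl⟩ : ∃ i', i = i' + 1 := ⟨i - 1, by omega⟩
        have h7 : lpA c ca r g body n (Nat.succ a) y' (Nat.add X ca) (Nat.add W 2) = true := h4
        obtain ⟨y2, h8, h9⟩ := ih (a + 1) y' _ _ h7 i' (by omega) y1 h3 (fun j hj => by
          have h10 := ht (j + 1) (by omega)
          have h11 : X + (j + 1) * ca + y1 * c = Nat.add X ca + j * ca + y1 * c := by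
            show X + (j + 1) * ca + y1 * c = X + ca + j * ca + y1 * c
            ring
          have h12 : W + 2 * (j + 1) + 2 * y1 = Nat.add W 2 + 2 * j + 2 * y1 := by
            show W + 2 * (j + 1) + 2 * y1 = W + 2 + 2 * j + 2 * y1
            ring
          rw [h11, h12] at h10
          exact h10)
        refine ⟨y2, h8, ?_⟩
        have h13 : a + (i' + 1) = a + 1 + i' := by ring
        rw [h13]
        exact h9

/-- the contents `d, .., d + n` with `a ≤ min kk cc` for `d` -/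
noncomputable def lpD (c ca cd r g : ℕ) (body : ℕ → ℕ → ℕ → Bool) (n : ℕ) :
    ℕ → ℕ → ℕ → ℕ → ℕ → ℕ → Bool :=
  Nat.rec (motive := fun _ => ℕ → ℕ → ℕ → ℕ → ℕ → ℕ → Bool)
    (fun d y X W kk cc => frN (mnb kk cc) fun na => lpA c ca r g (body d) na 0 y X W)
    (fun _ ih d y X W kk cc => dn c r g (fun y' => Bool.rec (motive := fun _ => Bool) false
        (frN (Nat.add X cd) fun X' => frN (Nat.add W 3) fun W' => frN (Nat.pred kk) fun kk' =>
          frN (Nat.sub cc 2) fun cc' => ih (Nat.succ d) y' X' W' kk' cc')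
        (frN (mnb kk cc) fun na => lpA c ca r g (body d) na 0 y' X W))
        y (Nat.add X (Nat.mul y c)) (Nat.add W (Nat.mul 2 y))) n

lemma lpD_sound {c ca cd r g : ℕ} {body : ℕ → ℕ → ℕ → Bool} : ∀ n d y X W kk cc : ℕ,
    lpD c ca cd r g body n d y X W kk cc = true → ∀ i ≤ n, ∀ a y1 : ℕ, y1 ≤ y →
    a + i ≤ kk → a + 2 * i ≤ cc →
    (∀ l ≤ i, ∀ j ≤ a, tk r g (X + l * cd + j * ca + y1 * c)
      (W + 3 * l + 2 * j + 2 * y1) = true) →
    ∃ y', y1 ≤ y' ∧ body (d + i) a y' = true := by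
  intro n
  induction n with
  | zero =>
    intro d y X W kk cc h i hi a y1 hy1 ha ha2 ht
    have hi0 : i = 0 := by omega
    subst hi0
    have h1 : (frN (mnb kk cc) fun na => lpA c ca r g (body d) na 0 y X W) = true := h
    rw [frN_eq, mnb_eq] at h1
    have h2 := lpA_sound _ _ _ _ _ h1 a (by omega) y1 hy1 (fun j hj => by
      have := ht 0 le_rfl j hj
      simpa using this)
    simpa using h2
  | succ n ih =>
    intro d y X W kk cc h i hi a y1 hy1 ha ha2 ht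
    have h1 : dn c r g (fun y' => (Bool.rec (motive := fun _ => Bool) false
        (frN (Nat.add X cd) fun X' => frN (Nat.add W 3) fun W' => frN (Nat.pred kk) fun kk' =>
          frN (Nat.sub cc 2) fun cc' => lpD c ca cd r g body n (Nat.succ d) y' X' W' kk' cc')
        (frN (mnb kk cc) fun na => lpA c ca r g (body d) na 0 y' X W) : Bool))
        y (X + y * c) (W + 2 * y) = true := h
    have h2 := ht 0 (Nat.zero_le _) 0 (Nat.zero_le _)
    simp only [Nat.zero_mul, Nat.mul_zero, Nat.add_zero] at h2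
    obtain ⟨y', h3, h3', h4⟩ := dn_sound X W y h1 y1 hy1 h2
    simp only [frN_eq] at h4
    rcases h5 : lpA c ca r g (body d) (mnb kk cc) 0 y' X W with _ | _
    · rw [h5] at h4
      exact absurd h4 Bool.false_ne_true
    · rw [h5] at h4
      rcases Nat.eq_zero_or_pos i with h6 | h6
      · subst h6
        rw [mnb_eq] at h5
        have h7 := lpA_sound _ _ _ _ _ h5 a (by omega) y1 h3 (fun j hj => by
          have := ht 0 le_rfl j hj
          simpa using this)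
        simpa using h7
      · obtain ⟨i', rfl⟩ : ∃ i', i = i' + 1 := ⟨i - 1, by omega⟩
        have h7 : lpD c ca cd r g body n (Nat.succ d) y' (Nat.add X cd) (Nat.add W 3)
            (Nat.pred kk) (Nat.sub cc 2) = true := h4
        have e1 : Nat.pred kk = kk - 1 := rfl
        have e2 : Nat.sub cc 2 = cc - 2 := rfl
        rw [e1, e2] at h7
        obtain ⟨y2, h8, h9⟩ := ih (d + 1) y' _ _ _ _ h7 i' (by omega) a y1 h3 (by omega)
          (by omega) (fun l hl j hj => by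
          have h10 := ht (l + 1) (by omega) j hj
          have h11 : X + (l + 1) * cd + j * ca + y1 * c
              = Nat.add X cd + l * cd + j * ca + y1 * c := by
            show X + (l + 1) * cd + j * ca + y1 * c = X + cd + l * cd + j * ca + y1 * c
            ring
          have h12 : W + 3 * (l + 1) + 2 * j + 2 * y1
              = Nat.add W 3 + 3 * l + 2 * j + 2 * y1 := by
            show W + 3 * (l + 1) + 2 * j + 2 * y1 = W + 3 + 3 * l + 2 * j + 2 * y1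
            ring
          rw [h11, h12] at h10
          exact h10)
        refine ⟨y2, h8, ?_⟩
        have h13 : d + (i' + 1) = d + 1 + i' := by ring
        rw [h13]
        exact h9

/-- all elements of a list with their index -/
noncomputable def lsN (f : ℕ → ℕ → Bool) (l : List ℕ) : ℕ → Bool :=
  List.rec (motive := fun _ => ℕ → Bool) (fun _ => true)
    (fun v _ ih m => Bool.rec (motive := fun _ => Bool) false (frN (Nat.succ m) ih) (f m v)) l

lemma lsN_sound {f : ℕ → ℕ → Bool} : ∀ (l : List ℕ) (m : ℕ), lsN f l m = true →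
    ∀ i (h : i < l.length), f (m + i) l[i] = true := by
  intro l
  induction l with
  | nil => intro m h i hi; exact absurd hi (by simp)
  | cons v l ih =>
    intro m h i hi
    have h1 : (Bool.rec (motive := fun _ => Bool) false (frN (Nat.succ m) (lsN f l)) (f m v) : Bool)
      = true := h
    rcases h2 : f m v with _ | _
    · rw [h2] at h1
      exact absurd h1 Bool.false_ne_true
    · rw [h2, frN_eq] at h1
      rcases i with _ | i
      · exact h2
      · have h3 := ih (m + 1) h1 i (by simpa using hi)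
        have h4 : m + (i + 1) = m + 1 + i := by ring
        rw [h4]
        exact h3

/-- the tests for `b = 0, .., n` PC ends -/
noncomputable def pre (c r g : ℕ) (K : ℕ → ℕ → Bool) (n : ℕ) : ℕ → ℕ → Bool :=
  Nat.rec (motive := fun _ => ℕ → ℕ → Bool)
    (fun X W => Bool.rec (motive := fun _ => Bool) true (K X W) (tk r g X W))
    (fun _ ih X W => Bool.rec (motive := fun _ => Bool) true
      (frN (Nat.add X c) fun X' => frN (Nat.add W 2) fun W' => ih X' W') (tk r g X W)) n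

lemma pre_sound {c r g : ℕ} {K : ℕ → ℕ → Bool} : ∀ n X W : ℕ, pre c r g K n X W = true →
    (∀ b ≤ n, tk r g (X + b * c) (W + 2 * b) = true) → K (X + n * c) (W + 2 * n) = true := by
  intro n
  induction n with
  | zero =>
    intro X W h ht
    have h1 : (Bool.rec (motive := fun _ => Bool) true (K X W) (tk r g X W) : Bool) = true := h
    have h2 := ht 0 le_rfl
    simp only [Nat.zero_mul, Nat.mul_zero, Nat.add_zero] at h2 ⊢
    rw [h2] at h1
    exact h1
  | succ n ih =>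
    intro X W h ht
    have h1 : (Bool.rec (motive := fun _ => Bool) true
      (frN (Nat.add X c) fun X' => frN (Nat.add W 2) fun W' => pre c r g K n X' W')
      (tk r g X W) : Bool) = true := h
    have h2 := ht 0 (Nat.zero_le _)
    simp only [Nat.zero_mul, Nat.mul_zero, Nat.add_zero] at h2
    rw [h2] at h1
    simp only [frN_eq] at h1
    have h3 := ih _ _ h1 fun b hb => by
      have h4 := ht (b + 1) (by omega)
      have h5 : X + (b + 1) * c = Nat.add X c + b * c := by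
        show X + (b + 1) * c = X + c + b * c
        ring
      have h6 : W + 2 * (b + 1) = Nat.add W 2 + 2 * b := by
        show W + 2 * (b + 1) = W + 2 + 2 * b
        ring
      rw [h5, h6] at h4
      exact h4
    have h5 : X + (n + 1) * c = Nat.add X c + n * c := by
      show X + (n + 1) * c = X + c + n * c
      ring
    have h6 : W + 2 * (n + 1) = Nat.add W 2 + 2 * n := by
      show W + 2 * (n + 1) = W + 2 + 2 * n
      ring
    rw [h5, h6]
    exact h3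

/-- one state of one row: `K r g X W` with the numbers of the test after the `Qn` PC ends of the other host -/
noncomputable def st (R2 a nm c Pn Qn h mu m k N : ℕ) (K : ℕ → ℕ → ℕ → ℕ → Bool) : Bool :=
  orb (anb (Nat.ble a h) (Nat.beq mu 0))
    (orb (Nat.ble (Nat.succ (Nat.add (Nat.add Pn m) (Nat.mul k nm))) mu)
      (frN (Nat.pred (Nat.mul 2 h)) fun g =>
        frN (Nat.add (Nat.mul mu (Nat.sub g mu)) (Nat.add N (Nat.mul R2 a))) fun r =>
          frN (Nat.mul R2 h) fun X => pre c r g (K r g) Qn X 0))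

/-- the row tests of one row in numbers -/
def TF (R2 a c ca cd Q y A D mu h N : ℕ) : Prop :=
  ∀ b ≤ Q + y, ∀ i ≤ A, ∀ l ≤ D, R2 * h + b * c + i * ca + l * cd
    ≤ mu * (2 * h - 1 - mu) + (N + R2 * a)
      + (2 * b + 2 * i + 3 * l) * (2 * h - 1 + (2 * b + 2 * i + 3 * l))

lemma st_sound {R2 a nm c Pn Qn h mu m k N : ℕ} {K : ℕ → ℕ → ℕ → ℕ → Bool}
    (hc : st R2 a nm c Pn Qn h mu m k N K = true) {ca cd y A D : ℕ}
    (ht : TF R2 a c ca cd Qn y A D mu h N) (hm : a ≤ h → 1 ≤ mu) (hp : mu ≤ Pn + m + k * nm) :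
    K (mu * (2 * h - 1 - mu) + (N + R2 * a)) (2 * h - 1) (R2 * h + Qn * c) (2 * Qn) = true := by
  rcases orb_true hc with h1 | h1
  · obtain ⟨h2, h3⟩ := anb_true h1
    have h4 := hm (Nat.le_of_ble_eq_true h2)
    have h5 : mu = 0 := Nat.eq_of_beq_eq_true h3
    omega
  · rcases orb_true h1 with h2 | h2
    · have h3 : Pn + m + k * nm + 1 ≤ mu := Nat.le_of_ble_eq_true h2
      omega
    · simp only [frN_eq] at h2
      have h3 := pre_sound _ _ _ h2 fun b hb => by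
        rw [tk_eq]
        have h4 := ht b (by omega) 0 (Nat.zero_le _) 0 (Nat.zero_le _)
        have e1 : Nat.pred (Nat.mul 2 h) = 2 * h - 1 := rfl
        have e2 : Nat.add (Nat.mul mu (Nat.sub (Nat.pred (Nat.mul 2 h)) mu))
            (Nat.add N (Nat.mul R2 a)) = mu * (2 * h - 1 - mu) + (N + R2 * a) := rfl
        have e3 : Nat.mul R2 h = R2 * h := rfl
        rw [e2, e1, e3]
        simpa using h4
      have e4 : (0 : ℕ) + 2 * Qn = 2 * Qn := by ring
      rw [e4] at h3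
      exact h3

lemma TF.tk {R2 a c ca cd Q y A D mu h N : ℕ} (ht : TF R2 a c ca cd Q y A D mu h N) {b i l : ℕ}
    (hb : b ≤ Q + y) (hi : i ≤ A) (hl : l ≤ D) {X W : ℕ}
    (hX : X = R2 * h + b * c + i * ca + l * cd) (hW : W = 2 * b + 2 * i + 3 * l) :
    BlkB.tk (mu * (2 * h - 1 - mu) + (N + R2 * a)) (2 * h - 1) X W = true := by
  rw [tk_eq, hX, hW]
  exact ht b hb i hi l hl

lemma up_TF {R2 a c ca cd Q y A D mu h N : ℕ} (ht : TF R2 a c ca cd Q y A D mu h N)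
    {k : ℕ → Bool} {n : ℕ} (hy : y ≤ n)
    (hc : up c (mu * (2 * h - 1 - mu) + (N + R2 * a)) (2 * h - 1) k n 0 (R2 * h + Q * c) (2 * Q)
      = true) : ∃ y', y ≤ y' ∧ k y' = true := by
  refine up_sound n 0 _ _ hc y (Nat.zero_le _) (by omega) fun i hi => ?_
  refine ht.tk (b := Q + i + 1) (i := 0) (l := 0) (by omega) (Nat.zero_le _) (Nat.zero_le _) ?_ ?_
  · ring
  · ring

lemma lpD_TF {R2 a c ca cd Q y A D mu h N : ℕ} (ht : TF R2 a c ca cd Q y A D mu h N)
    {body : ℕ → ℕ → ℕ → Bool} {n ys kk cc : ℕ} (hy : y ≤ ys) (hn : D ≤ n) (h1 : A + D ≤ kk)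
    (h2 : A + 2 * D ≤ cc)
    (hc : lpD c ca cd (mu * (2 * h - 1 - mu) + (N + R2 * a)) (2 * h - 1) body n 0 ys
      (R2 * h + Q * c) (2 * Q) kk cc = true) : ∃ y', y ≤ y' ∧ body D A y' = true := by
  obtain ⟨y', h3, h4⟩ := lpD_sound n 0 ys _ _ kk cc hc D hn A y hy h1 h2 fun l hl j hj => by
    refine ht.tk (b := Q + y) (i := j) (l := l) le_rfl hj hl ?_ ?_
    · ring
    · ring
  rw [Nat.zero_add] at h4
  exact ⟨y', h3, h4⟩

/-- a pair of states -/
noncomputable def pr (cP0 cA0 cD0 hA0 hD0 cP1 cA1 cD1 hA1 hD1 L0 L1 W0 W1 : ℕ)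
    (r0 g0 X0 Q0 ys0 kk0 cc0 r1 g1 X1 Q1 ys1 kk1 cc1 vb rb lim lb : ℕ) : Bool :=
  lpD cP0 cA0 cD0 r0 g0 (fun d a y =>
    frN (Nat.add vb (Nat.add (Nat.mul W0 y) (Nat.mul L1 (Nat.add a (Nat.mul 2 d))))) fun v =>
    frN (Nat.add lb (Nat.add (Nat.mul a hA0) (Nat.mul d hD0))) fun l =>
    lpD cP1 cA1 cD1 r1 g1 (fun d' a' y' =>
      orb (Nat.ble (Nat.add v (Nat.add (Nat.mul W1 y') (Nat.mul L0 (Nat.add a' (Nat.mul 2 d')))))
          rb)
        (Nat.ble lim (Nat.add l (Nat.add (Nat.mul a' hA1) (Nat.mul d' hD1)))))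
      (mnb kk1 (Nat.div cc1 2)) 0 ys1 X1 Q1 kk1 cc1)
    (mnb kk0 (Nat.div cc0 2)) 0 ys0 X0 Q0 kk0 cc0

/-- **the numbers of the two rows of the block** -/
structure TwoR (R2 Rm Kc a0 a1 nm cP0 cA0 cD0 hP0 hA0 hD0 cP1 cA1 cD1 hP1 hA1 hD1 H G0 G1 : ℕ)
    (nt0 nt1 : List ℕ) (P Q x0 x1 nt : ℕ)
    (h0 mu0 k h1 mu1 k1 m0 m1 A01 D01 A10 D10 y0 y1 : ℕ) : Prop where
  e0 : h0 = mu0 + k
  e1 : h1 = mu1 + k1
  hH : h0 + h1 ≤ H
  mup0 : a0 ≤ h0 → 1 ≤ mu0
  mup1 : a1 ≤ h1 → 1 ≤ mu1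
  prv0 : mu0 ≤ P + m0 + k * nm
  prv1 : mu1 ≤ Q + m1 + k1 * nm
  cap0 : A01 + D01 ≤ k
  cap1 : A10 + D10 ≤ k1
  vc0 : P + m0 + A01 + 2 * D01 ≤ mu0
  vc1 : Q + m1 + A10 + 2 * D10 ≤ mu1
  ml0 : m0 < nt0.length
  ml1 : m1 < nt1.length
  g0 : m0 + y0 ≤ G0
  g1 : m1 + y1 ≤ G1
  t0 : TF R2 a0 cP0 cA0 cD0 Q y0 A10 D10 mu0 h0 (x0 + nt0[m0])
  t1 : TF R2 a1 cP1 cA1 cD1 P y1 A01 D01 mu1 h1 (x1 + nt1[m1])
  ld : Rm * (h0 + h1) + 2 * (h0 * a1 + h1 * a0) + (P * hP1 + Q * hP0)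
      + (A10 * hA0 + D10 * hD0) + (A01 * hA1 + D01 * hD1)
    ≤ mu0 * (2 * h0 - 1 - mu0) + mu1 * (2 * h1 - 1 - mu1) + (nt + nt0[m0] + nt1[m1])
      + 2 * (h0 * h1) + Kc

lemma pr_sound {R2 Rm Kc a0 a1 nm cP0 cA0 cD0 hP0 hA0 hD0 cP1 cA1 cD1 hP1 hA1 hD1 H G0 G1 : ℕ}
    {nt0 nt1 : List ℕ} {P Q x0 x1 nt : ℕ}
    {h0 mu0 k h1 mu1 k1 m0 m1 A01 D01 A10 D10 y0 y1 : ℕ}
    (C : TwoR R2 Rm Kc a0 a1 nm cP0 cA0 cD0 hP0 hA0 hD0 cP1 cA1 cD1 hP1 hA1 hD1 H G0 G1
      nt0 nt1 P Q x0 x1 nt h0 mu0 k h1 mu1 k1 m0 m1 A01 D01 A10 D10 y0 y1)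
    {L0 L1 W0 W1 ys0 ys1 vb rb lim lb : ℕ} (hy0 : y0 ≤ ys0) (hy1 : y1 ≤ ys1)
    (hlb : lb = Rm * (h0 + h1) + 2 * (h0 * a1 + h1 * a0) + (P * hP1 + Q * hP0))
    (hlim : lim = mu0 * (2 * h0 - 1 - mu0) + mu1 * (2 * h1 - 1 - mu1)
      + (nt + nt0[m0]'C.ml0 + nt1[m1]'C.ml1) + 2 * (h0 * h1) + Kc + 1)
    (hc : pr cP0 cA0 cD0 hA0 hD0 cP1 cA1 cD1 hA1 hD1 L0 L1 W0 W1
      (mu0 * (2 * h0 - 1 - mu0) + (x0 + nt0[m0]'C.ml0 + R2 * a0)) (2 * h0 - 1)
      (R2 * h0 + Q * cP0) (2 * Q) ys0 k1 (mu1 - (Q + m1))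
      (mu1 * (2 * h1 - 1 - mu1) + (x1 + nt1[m1]'C.ml1 + R2 * a1)) (2 * h1 - 1)
      (R2 * h1 + P * cP1) (2 * P) ys1 k (mu0 - (P + m0)) vb rb lim lb = true) :
    vb + W0 * y0 + L1 * (A10 + 2 * D10) + W1 * y1 + L0 * (A01 + 2 * D01) ≤ rb := by
  have c0 := C.cap0
  have c1 := C.cap1
  have v0 := C.vc0
  have v1 := C.vc1
  unfold pr at hc
  obtain ⟨y', h2, h3⟩ := lpD_TF C.t0 hy0 (by
    rw [mnb_eq]
    have : (mu1 - (Q + m1)).div 2 = (mu1 - (Q + m1)) / 2 := rfl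
    omega) (by omega) (by omega) hc
  simp only [frN_eq] at h3
  obtain ⟨y'', h4, h5⟩ := lpD_TF C.t1 hy1 (by
    rw [mnb_eq]
    have : (mu0 - (P + m0)).div 2 = (mu0 - (P + m0)) / 2 := rfl
    omega) (by omega) (by omega) h3
  rcases orb_true h5 with h6 | h6
  · have h7 : vb + (W0 * y' + L1 * (A10 + 2 * D10)) + (W1 * y'' + L0 * (A01 + 2 * D01)) ≤ rb :=
      Nat.le_of_ble_eq_true h6
    have h8 := Nat.mul_le_mul_left W0 h2
    have h9 := Nat.mul_le_mul_left W1 h4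
    omega
  · have h7 : lim ≤ lb + (A10 * hA0 + D10 * hD0) + (A01 * hA1 + D01 * hD1) :=
      Nat.le_of_ble_eq_true h6
    have h8 := C.ld
    omega

/-- all states of row 1 for one state of row 0 -/
noncomputable def ch1 (R2 Rm Kc a0 a1 nm cP0 cA0 cD0 hA0 hD0 cP1 cA1 cD1 hA1 hD1 H G1 : ℕ)
    (nt1 : List ℕ) (P Q x1 nt hPQ den L0 L1 V1 W0 W1 ka1 nk1 ua1 nu1 : ℕ)
    (h mu v k ys cc1 vb0 rb0 ub0 r g X q0 : ℕ) : Bool :=
  allN (fun i1 => frN (Nat.add ka1 i1) fun k1 =>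
    allN (fun j1 => frN (Nat.add ua1 j1) fun mu1 => frN (Nat.add mu1 k1) fun h1 =>
      orb (Nat.ble (Nat.succ H) (Nat.add h h1))
        (lsN (fun m1 v1 => orb (Nat.ble (Nat.succ mu1) (Nat.add Q m1))
          (frN (Nat.sub mu1 (Nat.add Q m1)) fun cc0 =>
            frN (Nat.add (Nat.mul den h1) (Nat.mul L1 (Nat.add Q m1))) fun vb1 =>
            frN (Nat.add rb0 (Nat.add (Nat.mul L1 mu1) (Nat.mul V1 m1))) fun rb =>
            frN (Nat.add (Nat.add ub0 vb1) (Nat.mul L1 (mnb (Nat.mul 2 k1) cc0))) fun ub =>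
            orb (Nat.ble (Nat.add ub (Nat.mul W1 (Nat.sub G1 m1))) rb)
              (st R2 a1 nm cP1 Q P h1 mu1 m1 k1 (Nat.add x1 v1) fun r1 g1 X1 q1 =>
                up cP1 r1 g1 (fun ys1 => orb (Nat.ble (Nat.add ub (Nat.mul W1 ys1)) rb)
                  (frN (Nat.add vb0 vb1) fun vb =>
                   frN (Nat.add (Nat.mul Rm (Nat.add h h1)) (Nat.add
                    (Nat.mul 2 (Nat.add (Nat.mul h a1) (Nat.mul h1 a0))) hPQ)) fun lb =>
                   frN (Nat.add (Nat.add (Nat.mul mu (Nat.sub g mu)) (Nat.mul mu1 (Nat.sub g1 mu1)))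
                    (Nat.add (Nat.add nt (Nat.add v v1))
                      (Nat.add (Nat.mul 2 (Nat.mul h h1)) (Nat.succ Kc)))) fun lim =>
                   pr cP0 cA0 cD0 hA0 hD0 cP1 cA1 cD1 hA1 hD1 L0 L1 W0 W1
                    r g X q0 ys k1 cc0 r1 g1 X1 q1 ys1 k cc1 vb rb lim lb))
                  (Nat.sub G1 m1) 0 X1 q1)))
          nt1 0)) nu1) nk1

/-- **the check of the block**: the states `k ∈ [ka, ka + nk)`, `mu ∈ [ua, ua + nu)` of row 0 and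
`k1 ∈ [ka1, ka1 + nk1)`, `mu1 ∈ [ua1, ua1 + nu1)` of row 1, `P` and `Q` PC pairs in the cell -/
noncomputable def chk (R2 Rm Kc a0 a1 nm cP0 cA0 cD0 hA0 hD0 cP1 cA1 cD1 hA1 hD1 H G0 G1 : ℕ)
    (nt0 nt1 : List ℕ) (P Q x0 x1 nt hPQ den be L0 L1 V0 V1 W0 W1 : ℕ)
    (ka nk ua nu ka1 nk1 ua1 nu1 : ℕ) : Bool :=
  allN (fun i => frN (Nat.add ka i) fun k =>
    allN (fun j => frN (Nat.add ua j) fun mu => frN (Nat.add mu k) fun h =>
      lsN (fun m v => orb (Nat.ble (Nat.succ mu) (Nat.add P m))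
        (st R2 a0 nm cP0 P Q h mu m k (Nat.add x0 v) fun r g X q0 =>
          up cP0 r g (fun ys => frN (Nat.sub mu (Nat.add P m)) fun cc1 =>
            frN (Nat.add (Nat.mul den h) (Nat.mul L0 (Nat.add P m))) fun vb0 =>
            frN (Nat.add be (Nat.add (Nat.mul L0 mu) (Nat.mul V0 m))) fun rb0 =>
            frN (Nat.add vb0 (Nat.add (Nat.mul W0 ys) (Nat.mul L0 (mnb (Nat.mul 2 k) cc1)))) fun ub0 =>
            ch1 R2 Rm Kc a0 a1 nm cP0 cA0 cD0 hA0 hD0 cP1 cA1 cD1 hA1 hD1 H G1 nt1 P Q x1 nt hPQ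
              den L0 L1 V1 W0 W1 ka1 nk1 ua1 nu1 h mu v k ys cc1 vb0 rb0 ub0 r g X q0)
            (Nat.sub G0 m) 0 X q0))
        nt0 0) nu) nk

lemma ch1_sound {R2 Rm Kc a0 a1 nm cP0 cA0 cD0 hP0 hA0 hD0 cP1 cA1 cD1 hP1 hA1 hD1 H G0 G1 : ℕ}
    {nt0 nt1 : List ℕ} {P Q x0 x1 nt : ℕ}
    {h0 mu0 k h1 mu1 k1 m0 m1 A01 D01 A10 D10 y0 y1 : ℕ}
    (C : TwoR R2 Rm Kc a0 a1 nm cP0 cA0 cD0 hP0 hA0 hD0 cP1 cA1 cD1 hP1 hA1 hD1 H G0 G1
      nt0 nt1 P Q x0 x1 nt h0 mu0 k h1 mu1 k1 m0 m1 A01 D01 A10 D10 y0 y1)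
    {den L0 L1 V1 W0 W1 ka1 nk1 ua1 nu1 ys vb0 rb0 : ℕ} (hy0 : y0 ≤ ys)
    (hk : ka1 ≤ k1) (hk' : k1 < ka1 + nk1) (hu : ua1 ≤ mu1) (hu' : mu1 < ua1 + nu1)
    (hc : ch1 R2 Rm Kc a0 a1 nm cP0 cA0 cD0 hA0 hD0 cP1 cA1 cD1 hA1 hD1 H G1 nt1 P Q x1 nt
      (P * hP1 + Q * hP0) den L0 L1 V1 W0 W1 ka1 nk1 ua1 nu1 h0 mu0 (nt0[m0]'C.ml0) k ys
      (mu0 - (P + m0)) vb0 rb0 (vb0 + (W0 * ys + L0 * mnb (2 * k) (mu0 - (P + m0))))
      (mu0 * (2 * h0 - 1 - mu0) + (x0 + nt0[m0]'C.ml0 + R2 * a0)) (2 * h0 - 1)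
      (R2 * h0 + Q * cP0) (2 * Q) = true) :
    vb0 + W0 * y0 + L0 * (A01 + 2 * D01) + (den * h1 + L1 * (Q + m1)) + L1 * (A10 + 2 * D10)
      + W1 * y1 ≤ rb0 + (L1 * mu1 + V1 * m1) := by
  have c0 := C.cap0
  have c1 := C.cap1
  have v0 := C.vc0
  have v1 := C.vc1
  have hg := C.g1
  unfold ch1 at hc
  have h2 := allN_sound hc (k1 - ka1) (by omega)
  simp only [frN_eq] at h2
  have e1 : Nat.add ka1 (k1 - ka1) = k1 := by
    show ka1 + (k1 - ka1) = k1
    omega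
  rw [e1] at h2
  have h3 := allN_sound h2 (mu1 - ua1) (by omega)
  have e2 : Nat.add ua1 (mu1 - ua1) = mu1 := by
    show ua1 + (mu1 - ua1) = mu1
    omega
  have e3 : Nat.add mu1 k1 = h1 := by
    show mu1 + k1 = h1
    rw [C.e1]
  simp only [e2, e3] at h3
  rcases orb_true h3 with h4 | h4
  · have h5 : H + 1 ≤ h0 + h1 := Nat.le_of_ble_eq_true h4
    have := C.hH
    omega
  have h5 := lsN_sound _ _ h4 m1 C.ml1
  rw [Nat.zero_add] at h5
  rcases orb_true h5 with h6 | h6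
  · have h7 : mu1 + 1 ≤ Q + m1 := Nat.le_of_ble_eq_true h6
    omega
  have k0 : L0 * (A01 + 2 * D01) ≤ L0 * mnb (2 * k) (mu0 - (P + m0)) :=
    Nat.mul_le_mul_left _ (by rw [mnb_eq]; omega)
  have k1' : L1 * (A10 + 2 * D10) ≤ L1 * mnb (2 * k1) (mu1 - (Q + m1)) :=
    Nat.mul_le_mul_left _ (by rw [mnb_eq]; omega)
  have k2 : W0 * y0 ≤ W0 * ys := Nat.mul_le_mul_left _ hy0
  rcases orb_true h6 with h7 | h7
  · have h8 : vb0 + (W0 * ys + L0 * mnb (2 * k) (mu0 - (P + m0))) + (den * h1 + L1 * (Q + m1))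
        + L1 * mnb (2 * k1) (mu1 - (Q + m1)) + W1 * (G1 - m1) ≤ rb0 + (L1 * mu1 + V1 * m1) :=
      Nat.le_of_ble_eq_true h7
    have k3 : W1 * y1 ≤ W1 * (G1 - m1) := Nat.mul_le_mul_left _ (by omega)
    omega
  have h8 := st_sound h7 C.t1 C.mup1 C.prv1
  obtain ⟨ys1, h9, h10⟩ := up_TF C.t1 (n := G1 - m1) (by omega) h8
  rcases orb_true h10 with h11 | h11
  · have h12 : vb0 + (W0 * ys + L0 * mnb (2 * k) (mu0 - (P + m0))) + (den * h1 + L1 * (Q + m1))
        + L1 * mnb (2 * k1) (mu1 - (Q + m1)) + W1 * ys1 ≤ rb0 + (L1 * mu1 + V1 * m1) :=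
      Nat.le_of_ble_eq_true h11
    have k3 : W1 * y1 ≤ W1 * ys1 := Nat.mul_le_mul_left _ h9
    omega
  have h12 : vb0 + (den * h1 + L1 * (Q + m1)) + W0 * y0 + L1 * (A10 + 2 * D10) + W1 * y1
      + L0 * (A01 + 2 * D01) ≤ rb0 + (L1 * mu1 + V1 * m1) := by
    refine pr_sound C hy0 h9 ?_ ?_ h11
    · show Rm * (h0 + h1) + (2 * (h0 * a1 + h1 * a0) + (P * hP1 + Q * hP0)) = _
      ring
    · show mu0 * (2 * h0 - 1 - mu0) + mu1 * (2 * h1 - 1 - mu1)
        + (nt + (nt0[m0]'C.ml0 + nt1[m1]'C.ml1) + (2 * (h0 * h1) + (Kc + 1))) = _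
      ring
  omega

/-- **the block of two hosts** -/
theorem chk_sound {R2 Rm Kc a0 a1 nm cP0 cA0 cD0 hP0 hA0 hD0 cP1 cA1 cD1 hP1 hA1 hD1 H G0 G1 : ℕ}
    {nt0 nt1 : List ℕ} {P Q x0 x1 nt : ℕ}
    {h0 mu0 k h1 mu1 k1 m0 m1 A01 D01 A10 D10 y0 y1 : ℕ}
    (C : TwoR R2 Rm Kc a0 a1 nm cP0 cA0 cD0 hP0 hA0 hD0 cP1 cA1 cD1 hP1 hA1 hD1 H G0 G1
      nt0 nt1 P Q x0 x1 nt h0 mu0 k h1 mu1 k1 m0 m1 A01 D01 A10 D10 y0 y1)
    {den be L0 L1 V0 V1 W0 W1 ka nk ua nu ka1 nk1 ua1 nu1 : ℕ}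
    (hk0 : ka ≤ k) (hk0' : k < ka + nk) (hu0 : ua ≤ mu0) (hu0' : mu0 < ua + nu)
    (hk : ka1 ≤ k1) (hk' : k1 < ka1 + nk1) (hu : ua1 ≤ mu1) (hu' : mu1 < ua1 + nu1)
    (hc : chk R2 Rm Kc a0 a1 nm cP0 cA0 cD0 hA0 hD0 cP1 cA1 cD1 hA1 hD1 H G0 G1 nt0 nt1
      P Q x0 x1 nt (P * hP1 + Q * hP0) den be L0 L1 V0 V1 W0 W1 ka nk ua nu ka1 nk1 ua1 nu1
      = true) :
    den * (h0 + h1) + (W0 * y0 + W1 * y1) + L0 * (P + m0 + A01 + 2 * D01)
        + L1 * (Q + m1 + A10 + 2 * D10)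
      ≤ be + L0 * mu0 + L1 * mu1 + (V0 * m0 + V1 * m1) := by
  have hg := C.g0
  have v0 := C.vc0
  unfold chk at hc
  have h2 := allN_sound hc (k - ka) (by omega)
  simp only [frN_eq] at h2
  have e1 : Nat.add ka (k - ka) = k := by
    show ka + (k - ka) = k
    omega
  rw [e1] at h2
  have h3 := allN_sound h2 (mu0 - ua) (by omega)
  have e2 : Nat.add ua (mu0 - ua) = mu0 := by
    show ua + (mu0 - ua) = mu0
    omega
  have e3 : Nat.add mu0 k = h0 := by
    show mu0 + k = h0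
    rw [C.e0]
  simp only [e2, e3] at h3
  have h5 := lsN_sound _ _ h3 m0 C.ml0
  rw [Nat.zero_add] at h5
  rcases orb_true h5 with h6 | h6
  · have h7 : mu0 + 1 ≤ P + m0 := Nat.le_of_ble_eq_true h6
    omega
  have h8 := st_sound h6 C.t0 C.mup0 C.prv0
  obtain ⟨ys, h9, h10⟩ := up_TF C.t0 (n := G0 - m0) (by omega) h8
  have h11 := ch1_sound C (V1 := V1) (W0 := W0) (W1 := W1) (den := den) (L0 := L0) (L1 := L1)
    (vb0 := den * h0 + L0 * (P + m0)) (rb0 := be + (L0 * mu0 + V0 * m0)) h9 hk hk' hu hu' h10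
  have e4 : L0 * (P + m0 + A01 + 2 * D01) = L0 * (P + m0) + L0 * (A01 + 2 * D01) := by ring
  have e5 : L1 * (Q + m1 + A10 + 2 * D10) = L1 * (Q + m1) + L1 * (A10 + 2 * D10) := by ring
  have e6 : den * (h0 + h1) = den * h0 + den * h1 := by ring
  rw [e4, e5, e6]
  omega

end BlkB

end Pool.Agent.Lib.MP_f04ccf_co
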