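import Pool.Agent.Lib.MP_f04ccf_co.M.BlkT

/-!
MP_f04ccf_co, block certificate, data `R = 13`, `H = 14`, part 1 (generated, helper99:
bd10.cpp, gen2.py).
-/

set_option autoImplicit false
set_option maxRecDepth 100000

namespace Pool.Agent.Lib.MP_f04ccf_co

namespace BlkC

/-- the numbers of the pair `(0, 0)`, `R = 13`, `H = 14` -/
def d13_14_0_0 : BlkD.Pd :=
  ⟨13, 14, 4, 0, 0, 11, 0, 1, 0, 4, 4, 0, 0, 4, 4, 0, [0, 4, 8, 12, 16, 20, 24, 28, 32, 36, 40,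
    44], [0, 4, 8, 12, 16, 20, 24, 28, 32, 36, 40, 44], [⟨1, 1, 1, 4, 8, [0, 4], [0, 4]⟩]⟩

/-- the certificates of the pair `(0, 0)` -/
def t13_14_0_0 : BlkD.Tr :=
  .S 0 0 (.S 2 0 (.L 3 3 [3] [] [] 100000 0 0 100000 0 0 100000 0 0 0 0) (.E 1)) (.E 0)

lemma pr13_14_0_0 {n : ℕ} (hn : 6 ≤ n) : NoPr ((13 : ℕ) : ℤ) ((14 : ℕ) : ℤ) n 0 0 :=
  BlkD.pair_sound (d := d13_14_0_0) (by decide +kernel) hn (by decide) (tr := t13_14_0_0)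
    (by decide +kernel) rfl rfl rfl rfl

/-- the numbers of the pair `(1, 0)`, `R = 13`, `H = 14` -/
def d13_14_1_0 : BlkD.Pd :=
  ⟨13, 14, 4, 1, 0, 10, 0, 1, 0, 4, 4, 0, 0, 4, 4, 0, [0, 4, 8, 12, 16, 20, 24, 28, 32, 36, 40],
    [0, 4, 8, 12, 16, 20, 24, 28, 32, 36, 40], [⟨1, 1, 1, 4, 8, [0, 4], [0, 4]⟩]⟩

/-- the certificates of the pair `(1, 0)` -/
def t13_14_1_0 : BlkD.Tr :=
  .S 0 1 (.S 2 0 (.L 3 3 [3] [] [] 100000 0 0 200000 0 0 0 100000 0 0 0) (.E 1)) (.E 0)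

lemma pr13_14_1_0 {n : ℕ} (hn : 6 ≤ n) : NoPr ((13 : ℕ) : ℤ) ((14 : ℕ) : ℤ) n 1 0 :=
  BlkD.pair_sound (d := d13_14_1_0) (by decide +kernel) hn (by decide) (tr := t13_14_1_0)
    (by decide +kernel) rfl rfl rfl rfl

/-- the numbers of the pair `(1, 1)`, `R = 13`, `H = 14` -/
def d13_14_1_1 : BlkD.Pd :=
  ⟨13, 14, 4, 1, 1, 9, 1, 1, 0, 4, 4, 0, 0, 4, 4, 0, [0, 4, 8, 12, 16, 20, 24, 28, 32, 36], [0, 4,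
    8, 12, 16, 20, 24, 28, 32, 36], [⟨1, 1, 1, 4, 8, [0, 4], [0, 4]⟩, ⟨1, 1, 1, 4, 8, [0, 4], [0,
    4]⟩]⟩

/-- the certificates of the pair `(1, 1)` -/
def t13_14_1_1 : BlkD.Tr :=
  .S 0 1 (.S 2 1 (.L 3 3 [3, 3] [] [] 100000 0 0 400000 0 0 0 0 0 0 0) (.E 1)) (.E 0)

lemma pr13_14_1_1 {n : ℕ} (hn : 6 ≤ n) : NoPr ((13 : ℕ) : ℤ) ((14 : ℕ) : ℤ) n 1 1 :=
  BlkD.pair_sound (d := d13_14_1_1) (by decide +kernel) hn (by decide) (tr := t13_14_1_1)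
    (by decide +kernel) rfl rfl rfl rfl

/-- the numbers of the pair `(2, 0)`, `R = 13`, `H = 14` -/
def d13_14_2_0 : BlkD.Pd :=
  ⟨13, 14, 4, 2, 0, 9, 0, 1, 0, 4, 4, 0, 0, 4, 4, 0, [0, 4, 8, 12, 16, 20, 24, 28, 32, 36], [0, 4,
    8, 12, 16, 20, 24, 28, 32, 36], [⟨1, 1, 1, 4, 8, [0, 4], [0, 4]⟩]⟩

/-- the certificates of the pair `(2, 0)` -/
def t13_14_2_0 : BlkD.Tr :=
  .S 0 2 (.S 2 0 (.L 3 3 [3] [] [] 100000 0 0 325000 0 0 25000 75000 0 0 0) (.E 1)) (.E 0)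

lemma pr13_14_2_0 {n : ℕ} (hn : 6 ≤ n) : NoPr ((13 : ℕ) : ℤ) ((14 : ℕ) : ℤ) n 2 0 :=
  BlkD.pair_sound (d := d13_14_2_0) (by decide +kernel) hn (by decide) (tr := t13_14_2_0)
    (by decide +kernel) rfl rfl rfl rfl

/-- the numbers of the pair `(2, 1)`, `R = 13`, `H = 14` -/
def d13_14_2_1 : BlkD.Pd :=
  ⟨13, 14, 4, 2, 1, 8, 1, 1, 0, 4, 4, 0, 0, 4, 4, 0, [0, 4, 8, 12, 16, 20, 24, 28, 32], [0, 4, 8,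
    12, 16, 20, 24, 28, 32], [⟨1, 1, 1, 4, 8, [0, 4], [0, 4]⟩, ⟨1, 1, 1, 4, 8, [0, 4], [0, 4]⟩]⟩

/-- the certificates of the pair `(2, 1)` -/
def t13_14_2_1 : BlkD.Tr :=
  .S 0 2 (.S 2 1 (.L 3 3 [3, 3] [] [] 100000 0 0 500000 0 0 25000 0 0 0 0) (.E 1)) (.E 0)

lemma pr13_14_2_1 {n : ℕ} (hn : 6 ≤ n) : NoPr ((13 : ℕ) : ℤ) ((14 : ℕ) : ℤ) n 2 1 :=
  BlkD.pair_sound (d := d13_14_2_1) (by decide +kernel) hn (by decide) (tr := t13_14_2_1)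
    (by decide +kernel) rfl rfl rfl rfl

/-- the numbers of the pair `(2, 2)`, `R = 13`, `H = 14` -/
def d13_14_2_2 : BlkD.Pd :=
  ⟨13, 14, 4, 2, 2, 7, 2, 1, 3, 1, 6, 0, 3, 1, 6, 0, [0, 6, 12, 16, 19, 22, 25, 28], [0, 6, 12, 16,
    19, 22, 25, 28], [⟨1, 1, 1, 4, 8, [0, 4], [0, 4]⟩, ⟨1, 1, 1, 4, 8, [0, 4], [0, 4]⟩, ⟨1, 1, 1,
    4, 12, [0, 6], [0, 6]⟩]⟩

/-- the certificates of the pair `(2, 2)` -/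
def t13_14_2_2 : BlkD.Tr :=
  .S 0 2 (.S 2 2 (.L 3 3 [3, 3, 4] [] [] 100000 12963 12963 600002 0 0 33333 33333 22222 22222
    29630) (.E 1)) (.E 0)

lemma pr13_14_2_2 {n : ℕ} (hn : 6 ≤ n) : NoPr ((13 : ℕ) : ℤ) ((14 : ℕ) : ℤ) n 2 2 :=
  BlkD.pair_sound (d := d13_14_2_2) (by decide +kernel) hn (by decide) (tr := t13_14_2_2)
    (by decide +kernel) rfl rfl rfl rfl

/-- the numbers of the pair `(3, 0)`, `R = 13`, `H = 14` -/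
def d13_14_3_0 : BlkD.Pd :=
  ⟨13, 14, 4, 3, 0, 8, 0, 1, 0, 4, 4, 0, 0, 4, 4, 0, [0, 4, 8, 12, 16, 20, 24, 28, 32], [0, 4, 8,
    12, 16, 20, 24, 28, 32], [⟨1, 1, 1, 4, 8, [0, 4], [0, 4]⟩]⟩

/-- the certificates of the pair `(3, 0)` -/
def t13_14_3_0 : BlkD.Tr :=
  .S 0 3 (.S 2 0 (.L 3 3 [3] [] [] 100000 0 0 450000 0 0 50000 50000 0 0 0) (.E 1)) (.E 0)

lemma pr13_14_3_0 {n : ℕ} (hn : 6 ≤ n) : NoPr ((13 : ℕ) : ℤ) ((14 : ℕ) : ℤ) n 3 0 :=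
  BlkD.pair_sound (d := d13_14_3_0) (by decide +kernel) hn (by decide) (tr := t13_14_3_0)
    (by decide +kernel) rfl rfl rfl rfl

/-- the numbers of the pair `(3, 1)`, `R = 13`, `H = 14` -/
def d13_14_3_1 : BlkD.Pd :=
  ⟨13, 14, 4, 3, 1, 7, 1, 1, 2, 2, 6, 0, 0, 4, 4, 0, [0, 6, 12, 18, 22, 24, 26, 28], [0, 4, 8, 12,
    16, 20, 24, 28], [⟨1, 1, 1, 4, 8, [0, 4], [0, 4]⟩, ⟨1, 1, 1, 4, 10, [0, 6], [0, 4]⟩]⟩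

/-- the certificates of the pair `(3, 1)` -/
def t13_14_3_1 : BlkD.Tr :=
  .S 0 3 (.S 2 1 (.L 3 4 [3, 3] [] [] 100000 795 795 597223 16667 0 52778 0 13889 1984 1984) (.E
    1)) (.E 0)

lemma pr13_14_3_1 {n : ℕ} (hn : 6 ≤ n) : NoPr ((13 : ℕ) : ℤ) ((14 : ℕ) : ℤ) n 3 1 :=
  BlkD.pair_sound (d := d13_14_3_1) (by decide +kernel) hn (by decide) (tr := t13_14_3_1)
    (by decide +kernel) rfl rfl rfl rfl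

/-- the numbers of the pair `(3, 2)`, `R = 13`, `H = 14` -/
def d13_14_3_2 : BlkD.Pd :=
  ⟨13, 14, 4, 3, 2, 6, 2, 1, 2, 2, 6, 0, 3, 1, 6, 0, [0, 6, 12, 18, 20, 22, 24], [0, 6, 12, 15, 18,
    21, 24], [⟨1, 1, 1, 4, 8, [0, 4], [0, 4]⟩, ⟨1, 1, 1, 4, 10, [0, 6], [0, 4]⟩, ⟨1, 1, 1, 4, 12,
    [0, 6], [0, 6]⟩]⟩

/-- the certificates of the pair `(3, 2)` -/
def t13_14_3_2 : BlkD.Tr :=
  .S 0 3 (.S 2 2 (.L 3 4 [3, 3, 4] [] [] 100000 22223 22223 716668 0 0 83333 41667 16667 19444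
    19444) (.E 1)) (.E 0)

lemma pr13_14_3_2 {n : ℕ} (hn : 6 ≤ n) : NoPr ((13 : ℕ) : ℤ) ((14 : ℕ) : ℤ) n 3 2 :=
  BlkD.pair_sound (d := d13_14_3_2) (by decide +kernel) hn (by decide) (tr := t13_14_3_2)
    (by decide +kernel) rfl rfl rfl rfl

/-- the numbers of the pair `(3, 3)`, `R = 13`, `H = 14` -/
def d13_14_3_3 : BlkD.Pd :=
  ⟨13, 14, 4, 3, 3, 5, 1, 2, 2, 2, 6, 0, 2, 2, 6, 0, [0, 6, 12, 16, 18, 20], [0, 6, 12, 16, 18,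
    20], [⟨1, 1, 1, 4, 8, [0, 4], [0, 4]⟩, ⟨1, 1, 1, 4, 12, [0, 6], [0, 6]⟩]⟩

/-- the certificates of the pair `(3, 3)` -/
def t13_14_3_3 : BlkD.Tr :=
  .S 0 3 (.S 2 3 (.L 4 4 [3, 3, 13, 13] [] [] 100000 0 0 800000 0 0 100000 100000 0 0 0) (.E 1))
    (.E 0)

lemma pr13_14_3_3 {n : ℕ} (hn : 6 ≤ n) : NoPr ((13 : ℕ) : ℤ) ((14 : ℕ) : ℤ) n 3 3 :=
  BlkD.pair_sound (d := d13_14_3_3) (by decide +kernel) hn (by decide) (tr := t13_14_3_3)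
    (by decide +kernel) rfl rfl rfl rfl

/-- the numbers of the pair `(4, 0)`, `R = 13`, `H = 14` -/
def d13_14_4_0 : BlkD.Pd :=
  ⟨13, 14, 4, 4, 0, 7, 0, 1, 0, 4, 4, 0, 0, 4, 4, 0, [0, 4, 8, 12, 16, 20, 24, 28], [0, 4, 8, 12,
    16, 20, 24, 28], [⟨1, 1, 1, 4, 8, [0, 4], [0, 4]⟩]⟩

/-- the certificates of the pair `(4, 0)` -/
def t13_14_4_0 : BlkD.Tr :=
  .S 0 4 (.S 2 0 (.L 3 3 [3] [] [] 100000 0 0 533335 33333 0 66667 33333 0 0 0) (.E 1)) (.E 0)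

lemma pr13_14_4_0 {n : ℕ} (hn : 6 ≤ n) : NoPr ((13 : ℕ) : ℤ) ((14 : ℕ) : ℤ) n 4 0 :=
  BlkD.pair_sound (d := d13_14_4_0) (by decide +kernel) hn (by decide) (tr := t13_14_4_0)
    (by decide +kernel) rfl rfl rfl rfl

/-- the numbers of the pair `(4, 1)`, `R = 13`, `H = 14` -/
def d13_14_4_1 : BlkD.Pd :=
  ⟨13, 14, 4, 4, 1, 6, 1, 1, 2, 2, 6, 0, 0, 4, 4, 0, [0, 6, 12, 18, 20, 22, 24], [0, 4, 8, 12, 16,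
    20, 24], [⟨1, 1, 1, 4, 8, [0, 4], [0, 4]⟩, ⟨1, 1, 1, 4, 10, [0, 6], [0, 4]⟩]⟩

/-- the certificates of the pair `(4, 1)` -/
def t13_14_4_1 : BlkD.Tr :=
  .S 0 4 (.S 2 1 (.L 3 4 [3, 3] [] [] 100000 1 1 725583 18605 0 59302 18605 8140 33721 33721) (.E
    1)) (.E 0)

lemma pr13_14_4_1 {n : ℕ} (hn : 6 ≤ n) : NoPr ((13 : ℕ) : ℤ) ((14 : ℕ) : ℤ) n 4 1 :=
  BlkD.pair_sound (d := d13_14_4_1) (by decide +kernel) hn (by decide) (tr := t13_14_4_1)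
    (by decide +kernel) rfl rfl rfl rfl

/-- the numbers of the pair `(4, 2)`, `R = 13`, `H = 14` -/
def d13_14_4_2 : BlkD.Pd :=
  ⟨13, 14, 4, 4, 2, 5, 1, 1, 2, 2, 6, 0, 0, 4, 4, 0, [0, 6, 12, 16, 18, 20], [0, 4, 8, 12, 16, 20],
    [⟨1, 1, 1, 4, 8, [0, 4], [0, 4]⟩, ⟨1, 1, 1, 4, 10, [0, 6], [0, 4]⟩]⟩

/-- the certificates of the pair `(4, 2)` -/
def t13_14_4_2 : BlkD.Tr :=
  .S 0 4 (.S 2 2 (.L 3 4 [3, 3, 13] [] [] 100000 0 0 864448 8889 0 54444 27222 0 25556 25556) (.E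
    1)) (.E 0)

lemma pr13_14_4_2 {n : ℕ} (hn : 6 ≤ n) : NoPr ((13 : ℕ) : ℤ) ((14 : ℕ) : ℤ) n 4 2 :=
  BlkD.pair_sound (d := d13_14_4_2) (by decide +kernel) hn (by decide) (tr := t13_14_4_2)
    (by decide +kernel) rfl rfl rfl rfl

/-- the numbers of the pair `(4, 3)`, `R = 13`, `H = 14` -/
def d13_14_4_3 : BlkD.Pd :=
  ⟨13, 14, 4, 4, 3, 4, 0, 2, 0, 4, 4, 0, 0, 4, 4, 0, [0, 4, 8, 12, 16], [0, 4, 8, 12, 16], [⟨1, 1,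
    1, 4, 8, [0, 4], [0, 4]⟩]⟩

/-- the certificates of the pair `(4, 3)` -/
def t13_14_4_3 : BlkD.Tr :=
  .S 0 4 (.S 2 3 (.L 3 3 [3, 13, 13, 13] [] [] 100000 0 0 900001 33333 33333 66667 66667 0 0 0) (.E
    1)) (.E 0)

lemma pr13_14_4_3 {n : ℕ} (hn : 6 ≤ n) : NoPr ((13 : ℕ) : ℤ) ((14 : ℕ) : ℤ) n 4 3 :=
  BlkD.pair_sound (d := d13_14_4_3) (by decide +kernel) hn (by decide) (tr := t13_14_4_3)
    (by decide +kernel) rfl rfl rfl rfl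

/-- the numbers of the pair `(5, 0)`, `R = 13`, `H = 14` -/
def d13_14_5_0 : BlkD.Pd :=
  ⟨13, 14, 4, 5, 0, 6, 0, 1, 0, 4, 4, 0, 0, 4, 4, 0, [0, 4, 8, 12, 16, 20, 24], [0, 4, 8, 12, 16,
    20, 24], [⟨1, 1, 1, 4, 8, [0, 4], [0, 4]⟩]⟩

/-- the certificates of the pair `(5, 0)` -/
def t13_14_5_0 : BlkD.Tr :=
  .S 0 5 (.S 2 0 (.L 3 3 [3] [] [] 100000 0 0 671431 42857 0 85714 0 0 0 0) (.E 1)) (.E 0)

lemma pr13_14_5_0 {n : ℕ} (hn : 6 ≤ n) : NoPr ((13 : ℕ) : ℤ) ((14 : ℕ) : ℤ) n 5 0 :=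
  BlkD.pair_sound (d := d13_14_5_0) (by decide +kernel) hn (by decide) (tr := t13_14_5_0)
    (by decide +kernel) rfl rfl rfl rfl

/-- the numbers of the pair `(5, 1)`, `R = 13`, `H = 14` -/
def d13_14_5_1 : BlkD.Pd :=
  ⟨13, 14, 4, 5, 1, 5, 1, 1, 2, 2, 6, 0, 0, 4, 4, 0, [0, 6, 12, 16, 18, 20], [0, 4, 8, 12, 16, 20],
    [⟨1, 1, 1, 4, 8, [0, 4], [0, 4]⟩, ⟨1, 1, 1, 4, 10, [0, 6], [0, 4]⟩]⟩

/-- the certificates of the pair `(5, 1)` -/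
def t13_14_5_1 : BlkD.Tr :=
  .S 0 5 (.S 2 1 (.S 0 2 (.L 3 4 [3, 3] [] [] 100000 41667 41667 741668 50000 0 83333 8333 0 41667
    41667) (.L 3 4 [3, 3] [] [] 100000 0 0 868422 10526 0 94737 10526 0 47368 47368)) (.E 1)) (.E
    0)

lemma pr13_14_5_1 {n : ℕ} (hn : 6 ≤ n) : NoPr ((13 : ℕ) : ℤ) ((14 : ℕ) : ℤ) n 5 1 :=
  BlkD.pair_sound (d := d13_14_5_1) (by decide +kernel) hn (by decide) (tr := t13_14_5_1)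
    (by decide +kernel) rfl rfl rfl rfl

/-- the numbers of the pair `(5, 2)`, `R = 13`, `H = 14` -/
def d13_14_5_2 : BlkD.Pd :=
  ⟨13, 14, 4, 5, 2, 4, 0, 2, 0, 4, 4, 0, 0, 4, 4, 0, [0, 4, 8, 12, 16], [0, 4, 8, 12, 16], [⟨1, 1,
    1, 4, 8, [0, 4], [0, 4]⟩]⟩

/-- the certificates of the pair `(5, 2)` -/
def t13_14_5_2 : BlkD.Tr :=
  .S 0 5 (.S 2 2 (.L 3 3 [3, 13, 13] [] [] 100000 0 0 900000 50000 25000 75000 50000 0 0 0) (.E 1))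
    (.E 0)

lemma pr13_14_5_2 {n : ℕ} (hn : 6 ≤ n) : NoPr ((13 : ℕ) : ℤ) ((14 : ℕ) : ℤ) n 5 2 :=
  BlkD.pair_sound (d := d13_14_5_2) (by decide +kernel) hn (by decide) (tr := t13_14_5_2)
    (by decide +kernel) rfl rfl rfl rfl

/-- the numbers of the pair `(6, 0)`, `R = 13`, `H = 14` -/
def d13_14_6_0 : BlkD.Pd :=
  ⟨13, 14, 4, 6, 0, 5, 0, 1, 0, 4, 4, 0, 0, 4, 4, 0, [0, 4, 8, 12, 16, 20], [0, 4, 8, 12, 16, 20],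
    [⟨1, 1, 1, 4, 8, [0, 4], [0, 4]⟩]⟩

/-- the certificates of the pair `(6, 0)` -/
def t13_14_6_0 : BlkD.Tr :=
  .S 0 6 (.S 2 0 (.L 3 3 [3] [] [] 100000 0 0 700000 100000 0 100000 0 0 0 0) (.E 1)) (.E 0)

lemma pr13_14_6_0 {n : ℕ} (hn : 6 ≤ n) : NoPr ((13 : ℕ) : ℤ) ((14 : ℕ) : ℤ) n 6 0 :=
  BlkD.pair_sound (d := d13_14_6_0) (by decide +kernel) hn (by decide) (tr := t13_14_6_0)
    (by decide +kernel) rfl rfl rfl rfl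

/-- the numbers of the pair `(6, 1)`, `R = 13`, `H = 14` -/
def d13_14_6_1 : BlkD.Pd :=
  ⟨13, 14, 4, 6, 1, 4, 0, 1, 0, 4, 4, 0, 0, 4, 4, 0, [0, 4, 8, 12, 16], [0, 4, 8, 12, 16], [⟨1, 1,
    1, 4, 8, [0, 4], [0, 4]⟩]⟩

/-- the certificates of the pair `(6, 1)` -/
def t13_14_6_1 : BlkD.Tr :=
  .S 0 6 (.S 2 1 (.L 3 3 [3, 13] [] [] 100000 0 0 900000 60000 0 100000 40000 0 0 0) (.E 1)) (.E 0)

lemma pr13_14_6_1 {n : ℕ} (hn : 6 ≤ n) : NoPr ((13 : ℕ) : ℤ) ((14 : ℕ) : ℤ) n 6 1 :=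
  BlkD.pair_sound (d := d13_14_6_1) (by decide +kernel) hn (by decide) (tr := t13_14_6_1)
    (by decide +kernel) rfl rfl rfl rfl

/-- the numbers of the pair `(7, 0)`, `R = 13`, `H = 14` -/
def d13_14_7_0 : BlkD.Pd :=
  ⟨13, 14, 4, 7, 0, 4, 0, 1, 0, 4, 4, 0, 0, 4, 4, 0, [0, 4, 8, 12, 16], [0, 4, 8, 12, 16], [⟨1, 1,
    1, 4, 8, [0, 4], [0, 4]⟩]⟩

/-- the certificates of the pair `(7, 0)` -/
def t13_14_7_0 : BlkD.Tr :=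
  .S 0 7 (.S 2 0 (.L 3 3 [3] [] [] 100000 0 0 800000 100000 0 100000 0 0 0 0) (.E 1)) (.E 0)

lemma pr13_14_7_0 {n : ℕ} (hn : 6 ≤ n) : NoPr ((13 : ℕ) : ℤ) ((14 : ℕ) : ℤ) n 7 0 :=
  BlkD.pair_sound (d := d13_14_7_0) (by decide +kernel) hn (by decide) (tr := t13_14_7_0)
    (by decide +kernel) rfl rfl rfl rfl

end BlkC

end Pool.Agent.Lib.MP_f04ccf_co
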