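import Pool.Agent.Lib.MP_f04ccf_co.M.BlkT

/-!
MP_f04ccf_co, block certificate, data `R = 14`, `H = 15`, part 1 (generated, helper99:
bd10.cpp, gen2.py).
-/

set_option autoImplicit false
set_option maxRecDepth 100000

namespace Pool.Agent.Lib.MP_f04ccf_co

namespace BlkC

/-- the numbers of the pair `(0, 0)`, `R = 14`, `H = 15` -/
def d14_15_0_0 : BlkD.Pd :=
  ⟨14, 15, 4, 0, 0, 12, 0, 1, 0, 4, 4, 0, 0, 4, 4, 0, [0, 4, 8, 12, 16, 20, 24, 28, 32, 36, 40, 44,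
    48], [0, 4, 8, 12, 16, 20, 24, 28, 32, 36, 40, 44, 48], [⟨1, 1, 1, 4, 8, [0, 4], [0, 4]⟩]⟩

/-- the certificates of the pair `(0, 0)` -/
def t14_15_0_0 : BlkD.Tr :=
  .S 0 0 (.S 2 0 (.L 3 3 [3] [] [] 100000 0 0 100000 0 0 100000 0 0 0 0) (.E 1)) (.E 0)

lemma pr14_15_0_0 {n : ℕ} (hn : 6 ≤ n) : NoPr ((14 : ℕ) : ℤ) ((15 : ℕ) : ℤ) n 0 0 :=
  BlkD.pair_sound (d := d14_15_0_0) (by decide +kernel) hn (by decide) (tr := t14_15_0_0)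
    (by decide +kernel) rfl rfl rfl rfl

/-- the numbers of the pair `(1, 0)`, `R = 14`, `H = 15` -/
def d14_15_1_0 : BlkD.Pd :=
  ⟨14, 15, 4, 1, 0, 11, 0, 1, 0, 4, 4, 0, 0, 4, 4, 0, [0, 4, 8, 12, 16, 20, 24, 28, 32, 36, 40,
    44], [0, 4, 8, 12, 16, 20, 24, 28, 32, 36, 40, 44], [⟨1, 1, 1, 4, 8, [0, 4], [0, 4]⟩]⟩

/-- the certificates of the pair `(1, 0)` -/
def t14_15_1_0 : BlkD.Tr :=
  .S 0 1 (.S 2 0 (.L 3 3 [3] [] [] 100000 0 0 200000 0 0 0 100000 0 0 0) (.E 1)) (.E 0)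

lemma pr14_15_1_0 {n : ℕ} (hn : 6 ≤ n) : NoPr ((14 : ℕ) : ℤ) ((15 : ℕ) : ℤ) n 1 0 :=
  BlkD.pair_sound (d := d14_15_1_0) (by decide +kernel) hn (by decide) (tr := t14_15_1_0)
    (by decide +kernel) rfl rfl rfl rfl

/-- the numbers of the pair `(1, 1)`, `R = 14`, `H = 15` -/
def d14_15_1_1 : BlkD.Pd :=
  ⟨14, 15, 4, 1, 1, 10, 1, 1, 0, 4, 4, 0, 0, 4, 4, 0, [0, 4, 8, 12, 16, 20, 24, 28, 32, 36, 40],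
    [0, 4, 8, 12, 16, 20, 24, 28, 32, 36, 40], [⟨1, 1, 1, 4, 8, [0, 4], [0, 4]⟩, ⟨1, 1, 1, 4, 8,
    [0, 4], [0, 4]⟩]⟩

/-- the certificates of the pair `(1, 1)` -/
def t14_15_1_1 : BlkD.Tr :=
  .S 0 1 (.S 2 1 (.L 3 3 [3, 3] [] [] 100000 0 0 400000 0 0 0 0 0 0 0) (.E 1)) (.E 0)

lemma pr14_15_1_1 {n : ℕ} (hn : 6 ≤ n) : NoPr ((14 : ℕ) : ℤ) ((15 : ℕ) : ℤ) n 1 1 :=
  BlkD.pair_sound (d := d14_15_1_1) (by decide +kernel) hn (by decide) (tr := t14_15_1_1)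
    (by decide +kernel) rfl rfl rfl rfl

/-- the numbers of the pair `(2, 0)`, `R = 14`, `H = 15` -/
def d14_15_2_0 : BlkD.Pd :=
  ⟨14, 15, 4, 2, 0, 10, 0, 1, 0, 4, 4, 0, 0, 4, 4, 0, [0, 4, 8, 12, 16, 20, 24, 28, 32, 36, 40],
    [0, 4, 8, 12, 16, 20, 24, 28, 32, 36, 40], [⟨1, 1, 1, 4, 8, [0, 4], [0, 4]⟩]⟩

/-- the certificates of the pair `(2, 0)` -/
def t14_15_2_0 : BlkD.Tr :=
  .S 0 2 (.S 2 0 (.L 3 3 [3] [] [] 100000 0 0 325000 0 0 25000 75000 0 0 0) (.E 1)) (.E 0)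

lemma pr14_15_2_0 {n : ℕ} (hn : 6 ≤ n) : NoPr ((14 : ℕ) : ℤ) ((15 : ℕ) : ℤ) n 2 0 :=
  BlkD.pair_sound (d := d14_15_2_0) (by decide +kernel) hn (by decide) (tr := t14_15_2_0)
    (by decide +kernel) rfl rfl rfl rfl

/-- the numbers of the pair `(2, 1)`, `R = 14`, `H = 15` -/
def d14_15_2_1 : BlkD.Pd :=
  ⟨14, 15, 4, 2, 1, 9, 1, 1, 0, 4, 4, 0, 0, 4, 4, 0, [0, 4, 8, 12, 16, 20, 24, 28, 32, 36], [0, 4,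
    8, 12, 16, 20, 24, 28, 32, 36], [⟨1, 1, 1, 4, 8, [0, 4], [0, 4]⟩, ⟨1, 1, 1, 4, 8, [0, 4], [0,
    4]⟩]⟩

/-- the certificates of the pair `(2, 1)` -/
def t14_15_2_1 : BlkD.Tr :=
  .S 0 2 (.S 2 1 (.L 3 4 [3, 3] [] [] 100000 0 0 500000 0 0 25000 0 0 0 0) (.E 1)) (.E 0)

lemma pr14_15_2_1 {n : ℕ} (hn : 6 ≤ n) : NoPr ((14 : ℕ) : ℤ) ((15 : ℕ) : ℤ) n 2 1 :=
  BlkD.pair_sound (d := d14_15_2_1) (by decide +kernel) hn (by decide) (tr := t14_15_2_1)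
    (by decide +kernel) rfl rfl rfl rfl

/-- the numbers of the pair `(2, 2)`, `R = 14`, `H = 15` -/
def d14_15_2_2 : BlkD.Pd :=
  ⟨14, 15, 4, 2, 2, 8, 2, 1, 3, 1, 6, 0, 3, 1, 6, 0, [0, 6, 12, 17, 20, 23, 26, 29, 32], [0, 6, 12,
    17, 20, 23, 26, 29, 32], [⟨1, 1, 1, 4, 8, [0, 4], [0, 4]⟩, ⟨1, 1, 1, 4, 8, [0, 4], [0, 4]⟩, ⟨1,
    1, 1, 6, 12, [0, 6], [0, 6]⟩]⟩

/-- the certificates of the pair `(2, 2)` -/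
def t14_15_2_2 : BlkD.Tr :=
  .S 0 2 (.S 2 2 (.L 4 4 [3, 3, 4] [] [] 100000 17708 17707 600002 0 0 33333 33333 20833 20833
    22917) (.E 1)) (.E 0)

lemma pr14_15_2_2 {n : ℕ} (hn : 6 ≤ n) : NoPr ((14 : ℕ) : ℤ) ((15 : ℕ) : ℤ) n 2 2 :=
  BlkD.pair_sound (d := d14_15_2_2) (by decide +kernel) hn (by decide) (tr := t14_15_2_2)
    (by decide +kernel) rfl rfl rfl rfl

/-- the numbers of the pair `(3, 0)`, `R = 14`, `H = 15` -/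
def d14_15_3_0 : BlkD.Pd :=
  ⟨14, 15, 4, 3, 0, 9, 0, 1, 0, 4, 4, 0, 0, 4, 4, 0, [0, 4, 8, 12, 16, 20, 24, 28, 32, 36], [0, 4,
    8, 12, 16, 20, 24, 28, 32, 36], [⟨1, 1, 1, 4, 8, [0, 4], [0, 4]⟩]⟩

/-- the certificates of the pair `(3, 0)` -/
def t14_15_3_0 : BlkD.Tr :=
  .S 0 3 (.S 2 0 (.L 3 3 [3] [] [] 100000 0 0 420000 20000 0 40000 60000 0 0 0) (.E 1)) (.E 0)

lemma pr14_15_3_0 {n : ℕ} (hn : 6 ≤ n) : NoPr ((14 : ℕ) : ℤ) ((15 : ℕ) : ℤ) n 3 0 :=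
  BlkD.pair_sound (d := d14_15_3_0) (by decide +kernel) hn (by decide) (tr := t14_15_3_0)
    (by decide +kernel) rfl rfl rfl rfl

/-- the numbers of the pair `(3, 1)`, `R = 14`, `H = 15` -/
def d14_15_3_1 : BlkD.Pd :=
  ⟨14, 15, 4, 3, 1, 8, 1, 1, 0, 4, 6, 0, 0, 4, 4, 0, [0, 6, 12, 18, 24, 30, 32, 32, 32], [0, 4, 8,
    12, 16, 20, 24, 28, 32], [⟨1, 1, 1, 4, 8, [0, 4], [0, 4]⟩, ⟨1, 1, 1, 4, 10, [0, 6], [0, 4]⟩]⟩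

/-- the certificates of the pair `(3, 1)` -/
def t14_15_3_1 : BlkD.Tr :=
  .S 0 3 (.S 2 1 (.L 3 4 [3, 3] [] [] 100000 0 0 600000 0 0 50000 0 0 0 0) (.E 1)) (.E 0)

lemma pr14_15_3_1 {n : ℕ} (hn : 6 ≤ n) : NoPr ((14 : ℕ) : ℤ) ((15 : ℕ) : ℤ) n 3 1 :=
  BlkD.pair_sound (d := d14_15_3_1) (by decide +kernel) hn (by decide) (tr := t14_15_3_1)
    (by decide +kernel) rfl rfl rfl rfl

/-- the numbers of the pair `(3, 2)`, `R = 14`, `H = 15` -/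
def d14_15_3_2 : BlkD.Pd :=
  ⟨14, 15, 4, 3, 2, 7, 2, 1, 2, 2, 6, 0, 3, 1, 6, 0, [0, 6, 12, 18, 22, 24, 26, 28], [0, 6, 12, 16,
    19, 22, 25, 28], [⟨1, 1, 1, 4, 8, [0, 4], [0, 4]⟩, ⟨1, 1, 1, 4, 10, [0, 6], [0, 4]⟩, ⟨1, 1, 1,
    4, 12, [0, 6], [0, 6]⟩]⟩

/-- the certificates of the pair `(3, 2)` -/
def t14_15_3_2 : BlkD.Tr :=
  .S 0 3 (.S 2 2 (.L 4 4 [3, 3, 4] [] [] 100000 13453 13453 700003 0 0 58333 33333 16667 22619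
    33810) (.E 1)) (.E 0)

lemma pr14_15_3_2 {n : ℕ} (hn : 6 ≤ n) : NoPr ((14 : ℕ) : ℤ) ((15 : ℕ) : ℤ) n 3 2 :=
  BlkD.pair_sound (d := d14_15_3_2) (by decide +kernel) hn (by decide) (tr := t14_15_3_2)
    (by decide +kernel) rfl rfl rfl rfl

/-- the numbers of the pair `(3, 3)`, `R = 14`, `H = 15` -/
def d14_15_3_3 : BlkD.Pd :=
  ⟨14, 15, 4, 3, 3, 6, 2, 1, 2, 2, 6, 0, 2, 2, 6, 0, [0, 6, 12, 18, 20, 22, 24], [0, 6, 12, 18, 20,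
    22, 24], [⟨1, 1, 1, 4, 8, [0, 4], [0, 4]⟩, ⟨1, 1, 1, 4, 12, [0, 6], [0, 6]⟩, ⟨1, 1, 1, 4, 12,
    [0, 6], [0, 6]⟩]⟩

/-- the certificates of the pair `(3, 3)` -/
def t14_15_3_3 : BlkD.Tr :=
  .S 0 3 (.S 2 3 (.L 4 4 [3, 3, 4, 14] [] [] 100000 17500 17500 820000 0 0 80000 80000 20000 20000
    25000) (.E 1)) (.E 0)

lemma pr14_15_3_3 {n : ℕ} (hn : 6 ≤ n) : NoPr ((14 : ℕ) : ℤ) ((15 : ℕ) : ℤ) n 3 3 :=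
  BlkD.pair_sound (d := d14_15_3_3) (by decide +kernel) hn (by decide) (tr := t14_15_3_3)
    (by decide +kernel) rfl rfl rfl rfl

/-- the numbers of the pair `(4, 0)`, `R = 14`, `H = 15` -/
def d14_15_4_0 : BlkD.Pd :=
  ⟨14, 15, 4, 4, 0, 8, 0, 1, 0, 4, 4, 0, 0, 4, 4, 0, [0, 4, 8, 12, 16, 20, 24, 28, 32], [0, 4, 8,
    12, 16, 20, 24, 28, 32], [⟨1, 1, 1, 4, 8, [0, 4], [0, 4]⟩]⟩

/-- the certificates of the pair `(4, 0)` -/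
def t14_15_4_0 : BlkD.Tr :=
  .S 0 4 (.S 2 0 (.L 3 3 [3] [] [] 100000 0 0 500000 50000 0 50000 50000 0 0 0) (.E 1)) (.E 0)

lemma pr14_15_4_0 {n : ℕ} (hn : 6 ≤ n) : NoPr ((14 : ℕ) : ℤ) ((15 : ℕ) : ℤ) n 4 0 :=
  BlkD.pair_sound (d := d14_15_4_0) (by decide +kernel) hn (by decide) (tr := t14_15_4_0)
    (by decide +kernel) rfl rfl rfl rfl

/-- the numbers of the pair `(4, 1)`, `R = 14`, `H = 15` -/
def d14_15_4_1 : BlkD.Pd :=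
  ⟨14, 15, 4, 4, 1, 7, 1, 1, 2, 2, 6, 0, 0, 4, 4, 0, [0, 6, 12, 18, 22, 24, 26, 28], [0, 4, 8, 12,
    16, 20, 24, 28], [⟨1, 1, 1, 4, 8, [0, 4], [0, 4]⟩, ⟨1, 1, 1, 4, 10, [0, 6], [0, 4]⟩]⟩

/-- the certificates of the pair `(4, 1)` -/
def t14_15_4_1 : BlkD.Tr :=
  .S 0 4 (.S 2 1 (.L 3 4 [3, 3] [] [] 100000 0 0 700000 25000 0 50000 0 0 0 0) (.E 1)) (.E 0)

lemma pr14_15_4_1 {n : ℕ} (hn : 6 ≤ n) : NoPr ((14 : ℕ) : ℤ) ((15 : ℕ) : ℤ) n 4 1 :=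
  BlkD.pair_sound (d := d14_15_4_1) (by decide +kernel) hn (by decide) (tr := t14_15_4_1)
    (by decide +kernel) rfl rfl rfl rfl

/-- the numbers of the pair `(4, 2)`, `R = 14`, `H = 15` -/
def d14_15_4_2 : BlkD.Pd :=
  ⟨14, 15, 4, 4, 2, 6, 2, 1, 2, 2, 8, 0, 3, 1, 6, 0, [0, 8, 16, 18, 20, 22, 24], [0, 6, 12, 15, 18,
    21, 24], [⟨1, 1, 1, 4, 8, [0, 4], [0, 4]⟩, ⟨1, 1, 1, 4, 10, [0, 6], [0, 4]⟩, ⟨1, 1, 1, 4, 14,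
    [0, 8], [0, 6]⟩]⟩

/-- the certificates of the pair `(4, 2)` -/
def t14_15_4_2 : BlkD.Tr :=
  .S 0 4 (.S 2 2 (.S 0 2 (.L 4 4 [3, 3, 4] [] [] 100000 15705 15705 866670 8333 0 59615 38462 12821
    22436 33333) (.L 4 4 [3, 3, 4] [] [] 100000 14584 14584 816668 0 0 83333 41667 16667 19444
    34722)) (.E 1)) (.E 0)

lemma pr14_15_4_2 {n : ℕ} (hn : 6 ≤ n) : NoPr ((14 : ℕ) : ℤ) ((15 : ℕ) : ℤ) n 4 2 :=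
  BlkD.pair_sound (d := d14_15_4_2) (by decide +kernel) hn (by decide) (tr := t14_15_4_2)
    (by decide +kernel) rfl rfl rfl rfl

/-- the numbers of the pair `(4, 3)`, `R = 14`, `H = 15` -/
def d14_15_4_3 : BlkD.Pd :=
  ⟨14, 15, 4, 4, 3, 5, 1, 2, 2, 2, 6, 0, 2, 2, 6, 0, [0, 6, 12, 16, 18, 20], [0, 6, 12, 16, 18,
    20], [⟨1, 1, 1, 4, 8, [0, 4], [0, 4]⟩, ⟨1, 1, 1, 4, 12, [0, 6], [0, 6]⟩]⟩

/-- the certificates of the pair `(4, 3)` -/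
def t14_15_4_3 : BlkD.Tr :=
  .S 0 4 (.S 2 3 (.L 4 4 [3, 3, 14, 14] [] [] 100000 0 0 969232 7692 7692 57692 57692 0 7692 0) (.E
    1)) (.E 0)

lemma pr14_15_4_3 {n : ℕ} (hn : 6 ≤ n) : NoPr ((14 : ℕ) : ℤ) ((15 : ℕ) : ℤ) n 4 3 :=
  BlkD.pair_sound (d := d14_15_4_3) (by decide +kernel) hn (by decide) (tr := t14_15_4_3)
    (by decide +kernel) rfl rfl rfl rfl

/-- the numbers of the pair `(4, 4)`, `R = 14`, `H = 15` -/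
def d14_15_4_4 : BlkD.Pd :=
  ⟨14, 15, 4, 4, 4, 4, 0, 2, 0, 4, 4, 0, 0, 4, 4, 0, [0, 4, 8, 12, 16], [0, 4, 8, 12, 16], [⟨1, 1,
    1, 4, 8, [0, 4], [0, 4]⟩]⟩

/-- the certificates of the pair `(4, 4)` -/
def t14_15_4_4 : BlkD.Tr :=
  .S 0 4 (.S 2 4 (.L 3 3 [3, 14, 14, 14, 14] [] [] 100000 0 0 1000000 50000 50000 50000 50000 0 0
    0) (.E 1)) (.E 0)

lemma pr14_15_4_4 {n : ℕ} (hn : 6 ≤ n) : NoPr ((14 : ℕ) : ℤ) ((15 : ℕ) : ℤ) n 4 4 :=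
  BlkD.pair_sound (d := d14_15_4_4) (by decide +kernel) hn (by decide) (tr := t14_15_4_4)
    (by decide +kernel) rfl rfl rfl rfl

/-- the numbers of the pair `(5, 0)`, `R = 14`, `H = 15` -/
def d14_15_5_0 : BlkD.Pd :=
  ⟨14, 15, 4, 5, 0, 7, 0, 1, 0, 4, 4, 0, 0, 4, 4, 0, [0, 4, 8, 12, 16, 20, 24, 28], [0, 4, 8, 12,
    16, 20, 24, 28], [⟨1, 1, 1, 4, 8, [0, 4], [0, 4]⟩]⟩

/-- the certificates of the pair `(5, 0)` -/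
def t14_15_5_0 : BlkD.Tr :=
  .S 0 5 (.S 2 0 (.L 3 3 [3] [] [] 100000 0 0 625000 50000 0 75000 25000 0 0 0) (.E 1)) (.E 0)

lemma pr14_15_5_0 {n : ℕ} (hn : 6 ≤ n) : NoPr ((14 : ℕ) : ℤ) ((15 : ℕ) : ℤ) n 5 0 :=
  BlkD.pair_sound (d := d14_15_5_0) (by decide +kernel) hn (by decide) (tr := t14_15_5_0)
    (by decide +kernel) rfl rfl rfl rfl

/-- the numbers of the pair `(5, 1)`, `R = 14`, `H = 15` -/
def d14_15_5_1 : BlkD.Pd :=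
  ⟨14, 15, 4, 5, 1, 6, 1, 1, 2, 2, 6, 0, 0, 4, 4, 0, [0, 6, 12, 18, 20, 22, 24], [0, 4, 8, 12, 16,
    20, 24], [⟨1, 1, 1, 4, 8, [0, 4], [0, 4]⟩, ⟨1, 1, 1, 4, 10, [0, 6], [0, 4]⟩]⟩

/-- the certificates of the pair `(5, 1)` -/
def t14_15_5_1 : BlkD.Tr :=
  .S 0 5 (.S 2 1 (.L 3 4 [3, 3] [] [] 100000 0 0 851518 21212 0 72727 0 6061 6061 6061) (.E 1)) (.E
    0)

lemma pr14_15_5_1 {n : ℕ} (hn : 6 ≤ n) : NoPr ((14 : ℕ) : ℤ) ((15 : ℕ) : ℤ) n 5 1 :=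
  BlkD.pair_sound (d := d14_15_5_1) (by decide +kernel) hn (by decide) (tr := t14_15_5_1)
    (by decide +kernel) rfl rfl rfl rfl

/-- the numbers of the pair `(5, 2)`, `R = 14`, `H = 15` -/
def d14_15_5_2 : BlkD.Pd :=
  ⟨14, 15, 4, 5, 2, 5, 1, 2, 2, 2, 6, 0, 0, 4, 4, 0, [0, 6, 12, 16, 18, 20], [0, 4, 8, 12, 16, 20],
    [⟨1, 1, 1, 4, 8, [0, 4], [0, 4]⟩, ⟨1, 1, 1, 4, 10, [0, 6], [0, 4]⟩]⟩

/-- the certificates of the pair `(5, 2)` -/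
def t14_15_5_2 : BlkD.Tr :=
  .S 0 5 (.S 2 2 (.S 0 2 (.L 4 4 [3, 3, 14] [] [] 100000 75000 75000 875000 50000 0 75000 0 0 0 0)
    (.L 4 4 [3, 3, 14] [] [] 100000 0 0 982354 5882 0 94118 47059 0 0 0)) (.E 1)) (.E 0)

lemma pr14_15_5_2 {n : ℕ} (hn : 6 ≤ n) : NoPr ((14 : ℕ) : ℤ) ((15 : ℕ) : ℤ) n 5 2 :=
  BlkD.pair_sound (d := d14_15_5_2) (by decide +kernel) hn (by decide) (tr := t14_15_5_2)
    (by decide +kernel) rfl rfl rfl rfl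

/-- the numbers of the pair `(5, 3)`, `R = 14`, `H = 15` -/
def d14_15_5_3 : BlkD.Pd :=
  ⟨14, 15, 4, 5, 3, 4, 0, 2, 0, 4, 4, 0, 0, 4, 4, 0, [0, 4, 8, 12, 16], [0, 4, 8, 12, 16], [⟨1, 1,
    1, 4, 8, [0, 4], [0, 4]⟩]⟩

/-- the certificates of the pair `(5, 3)` -/
def t14_15_5_3 : BlkD.Tr :=
  .S 0 5 (.S 2 3 (.L 3 3 [3, 14, 14, 14] [] [] 100000 0 0 1000000 50000 50000 100000 50000 0 0 0)
    (.E 1)) (.E 0)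

lemma pr14_15_5_3 {n : ℕ} (hn : 6 ≤ n) : NoPr ((14 : ℕ) : ℤ) ((15 : ℕ) : ℤ) n 5 3 :=
  BlkD.pair_sound (d := d14_15_5_3) (by decide +kernel) hn (by decide) (tr := t14_15_5_3)
    (by decide +kernel) rfl rfl rfl rfl

/-- the numbers of the pair `(6, 0)`, `R = 14`, `H = 15` -/
def d14_15_6_0 : BlkD.Pd :=
  ⟨14, 15, 4, 6, 0, 6, 0, 1, 0, 4, 4, 0, 0, 4, 4, 0, [0, 4, 8, 12, 16, 20, 24], [0, 4, 8, 12, 16,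
    20, 24], [⟨1, 1, 1, 4, 8, [0, 4], [0, 4]⟩]⟩

/-- the certificates of the pair `(6, 0)` -/
def t14_15_6_0 : BlkD.Tr :=
  .S 0 6 (.S 2 0 (.L 3 3 [3] [] [] 100000 0 0 750000 75000 0 75000 0 0 0 0) (.E 1)) (.E 0)

lemma pr14_15_6_0 {n : ℕ} (hn : 6 ≤ n) : NoPr ((14 : ℕ) : ℤ) ((15 : ℕ) : ℤ) n 6 0 :=
  BlkD.pair_sound (d := d14_15_6_0) (by decide +kernel) hn (by decide) (tr := t14_15_6_0)
    (by decide +kernel) rfl rfl rfl rfl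

/-- the numbers of the pair `(6, 1)`, `R = 14`, `H = 15` -/
def d14_15_6_1 : BlkD.Pd :=
  ⟨14, 15, 4, 6, 1, 5, 1, 1, 2, 2, 6, 0, 0, 4, 4, 0, [0, 6, 12, 16, 18, 20], [0, 4, 8, 12, 16, 20],
    [⟨1, 1, 1, 4, 8, [0, 4], [0, 4]⟩, ⟨1, 1, 1, 4, 10, [0, 6], [0, 4]⟩]⟩

/-- the certificates of the pair `(6, 1)` -/
def t14_15_6_1 : BlkD.Tr :=
  .S 0 6 (.S 2 1 (.S 0 3 (.L 3 5 [3, 3] [] [] 100000 200000 200000 700000 100000 0 100000 0 0 0 0)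
    (.S 0 5 (.S 0 4 (.L 3 5 [3, 3] [] [] 100000 33332 33332 933335 33333 0 100000 0 0 0 0) (.L 3 5
    [3, 3] [] [] 100000 0 0 940000 20000 0 100000 0 0 0 0)) (.L 3 5 [3, 3] [] [] 100000 2 2 900000
    16667 0 83333 0 0 0 0))) (.E 1)) (.E 0)

lemma pr14_15_6_1 {n : ℕ} (hn : 6 ≤ n) : NoPr ((14 : ℕ) : ℤ) ((15 : ℕ) : ℤ) n 6 1 :=
  BlkD.pair_sound (d := d14_15_6_1) (by decide +kernel) hn (by decide) (tr := t14_15_6_1)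
    (by decide +kernel) rfl rfl rfl rfl

/-- the numbers of the pair `(6, 2)`, `R = 14`, `H = 15` -/
def d14_15_6_2 : BlkD.Pd :=
  ⟨14, 15, 4, 6, 2, 4, 0, 2, 0, 4, 4, 0, 0, 4, 4, 0, [0, 4, 8, 12, 16], [0, 4, 8, 12, 16], [⟨1, 1,
    1, 4, 8, [0, 4], [0, 4]⟩]⟩

/-- the certificates of the pair `(6, 2)` -/
def t14_15_6_2 : BlkD.Tr :=
  .S 0 6 (.S 2 2 (.L 3 3 [3, 14, 14] [] [] 100000 0 0 1000000 50000 0 100000 50000 0 0 0) (.E 1))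
    (.E 0)

lemma pr14_15_6_2 {n : ℕ} (hn : 6 ≤ n) : NoPr ((14 : ℕ) : ℤ) ((15 : ℕ) : ℤ) n 6 2 :=
  BlkD.pair_sound (d := d14_15_6_2) (by decide +kernel) hn (by decide) (tr := t14_15_6_2)
    (by decide +kernel) rfl rfl rfl rfl

/-- the numbers of the pair `(7, 0)`, `R = 14`, `H = 15` -/
def d14_15_7_0 : BlkD.Pd :=
  ⟨14, 15, 4, 7, 0, 5, 0, 1, 0, 4, 4, 0, 0, 4, 4, 0, [0, 4, 8, 12, 16, 20], [0, 4, 8, 12, 16, 20],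
    [⟨1, 1, 1, 4, 8, [0, 4], [0, 4]⟩]⟩

/-- the certificates of the pair `(7, 0)` -/
def t14_15_7_0 : BlkD.Tr :=
  .S 0 7 (.S 2 0 (.L 3 3 [3] [] [] 100000 0 0 800000 100000 0 100000 0 0 0 0) (.E 1)) (.E 0)

lemma pr14_15_7_0 {n : ℕ} (hn : 6 ≤ n) : NoPr ((14 : ℕ) : ℤ) ((15 : ℕ) : ℤ) n 7 0 :=
  BlkD.pair_sound (d := d14_15_7_0) (by decide +kernel) hn (by decide) (tr := t14_15_7_0)
    (by decide +kernel) rfl rfl rfl rfl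

/-- the numbers of the pair `(7, 1)`, `R = 14`, `H = 15` -/
def d14_15_7_1 : BlkD.Pd :=
  ⟨14, 15, 4, 7, 1, 4, 0, 1, 0, 4, 4, 0, 0, 4, 4, 0, [0, 4, 8, 12, 16], [0, 4, 8, 12, 16], [⟨1, 1,
    1, 4, 8, [0, 4], [0, 4]⟩]⟩

/-- the certificates of the pair `(7, 1)` -/
def t14_15_7_1 : BlkD.Tr :=
  .S 0 7 (.S 2 1 (.L 3 3 [3, 14] [] [] 100000 0 0 1000000 66667 0 100000 33333 0 0 0) (.E 1)) (.E
    0)

lemma pr14_15_7_1 {n : ℕ} (hn : 6 ≤ n) : NoPr ((14 : ℕ) : ℤ) ((15 : ℕ) : ℤ) n 7 1 :=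
  BlkD.pair_sound (d := d14_15_7_1) (by decide +kernel) hn (by decide) (tr := t14_15_7_1)
    (by decide +kernel) rfl rfl rfl rfl

/-- the numbers of the pair `(8, 0)`, `R = 14`, `H = 15` -/
def d14_15_8_0 : BlkD.Pd :=
  ⟨14, 15, 4, 8, 0, 4, 0, 1, 0, 4, 4, 0, 0, 4, 4, 0, [0, 4, 8, 12, 16], [0, 4, 8, 12, 16], [⟨1, 1,
    1, 4, 8, [0, 4], [0, 4]⟩]⟩

/-- the certificates of the pair `(8, 0)` -/
def t14_15_8_0 : BlkD.Tr :=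
  .S 0 8 (.S 2 0 (.L 3 3 [3] [] [] 100000 0 0 900000 100000 0 100000 0 0 0 0) (.E 1)) (.E 0)

lemma pr14_15_8_0 {n : ℕ} (hn : 6 ≤ n) : NoPr ((14 : ℕ) : ℤ) ((15 : ℕ) : ℤ) n 8 0 :=
  BlkD.pair_sound (d := d14_15_8_0) (by decide +kernel) hn (by decide) (tr := t14_15_8_0)
    (by decide +kernel) rfl rfl rfl rfl

end BlkC

end Pool.Agent.Lib.MP_f04ccf_co
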