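import Pool.Agent.Lib.MP_f04ccf_co.M.BlkC14a1
import Pool.Agent.Lib.MP_f04ccf_co.M.BlkC14b1

/-!
MP_f04ccf_co, block certificate, **`R = 14`**: all pairs of shares together (generated, helper11; generator of helper99).
-/

set_option autoImplicit false

namespace Pool.Agent.Lib.MP_f04ccf_co

/-- **`R = 14`, `∑ h ≤ 14`, at least 5 rows: no items** -/
theorem noItC14_14 {n : ℕ} (hn : 5 ≤ n) : NoItC ((14 : ℕ) : ℤ) ((14 : ℕ) : ℤ) n := by
  refine NoItC.of_pr (q := 3) hn fun a b hba hs => ?_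
  have ha : a ≤ 8 := by omega
  interval_cases a
  · have hb : b ≤ 0 := by omega
    interval_cases b
    · exact BlkC.pr14_14_0_0 hn
  · have hb : b ≤ 1 := by omega
    interval_cases b
    · exact BlkC.pr14_14_1_0 hn
    · exact BlkC.pr14_14_1_1 hn
  · have hb : b ≤ 2 := by omega
    interval_cases b
    · exact BlkC.pr14_14_2_0 hn
    · exact BlkC.pr14_14_2_1 hn
    · exact BlkC.pr14_14_2_2 hn
  · have hb : b ≤ 3 := by omega
    interval_cases b
    · exact BlkC.pr14_14_3_0 hn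
    · exact BlkC.pr14_14_3_1 hn
    · exact BlkC.pr14_14_3_2 hn
    · exact BlkC.pr14_14_3_3 hn
  · have hb : b ≤ 4 := by omega
    interval_cases b
    · exact BlkC.pr14_14_4_0 hn
    · exact BlkC.pr14_14_4_1 hn
    · exact BlkC.pr14_14_4_2 hn
    · exact BlkC.pr14_14_4_3 hn
    · exact BlkC.pr14_14_4_4 hn
  · have hb : b ≤ 3 := by omega
    interval_cases b
    · exact BlkC.pr14_14_5_0 hn
    · exact BlkC.pr14_14_5_1 hn
    · exact BlkC.pr14_14_5_2 hn
    · exact BlkC.pr14_14_5_3 hn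
  · have hb : b ≤ 2 := by omega
    interval_cases b
    · exact BlkC.pr14_14_6_0 hn
    · exact BlkC.pr14_14_6_1 hn
    · exact BlkC.pr14_14_6_2 hn
  · have hb : b ≤ 1 := by omega
    interval_cases b
    · exact BlkC.pr14_14_7_0 hn
    · exact BlkC.pr14_14_7_1 hn
  · have hb : b ≤ 0 := by omega
    interval_cases b
    · exact BlkC.pr14_14_8_0 hn

/-- **`R = 14`, `∑ h ≤ 15`, at least 6 rows: no items** -/
theorem noItC14_15 {n : ℕ} (hn : 6 ≤ n) : NoItC ((14 : ℕ) : ℤ) ((15 : ℕ) : ℤ) n := by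
  refine NoItC.of_pr (q := 4) hn fun a b hba hs => ?_
  have ha : a ≤ 8 := by omega
  interval_cases a
  · have hb : b ≤ 0 := by omega
    interval_cases b
    · exact BlkC.pr14_15_0_0 hn
  · have hb : b ≤ 1 := by omega
    interval_cases b
    · exact BlkC.pr14_15_1_0 hn
    · exact BlkC.pr14_15_1_1 hn
  · have hb : b ≤ 2 := by omega
    interval_cases b
    · exact BlkC.pr14_15_2_0 hn
    · exact BlkC.pr14_15_2_1 hn
    · exact BlkC.pr14_15_2_2 hn
  · have hb : b ≤ 3 := by omega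
    interval_cases b
    · exact BlkC.pr14_15_3_0 hn
    · exact BlkC.pr14_15_3_1 hn
    · exact BlkC.pr14_15_3_2 hn
    · exact BlkC.pr14_15_3_3 hn
  · have hb : b ≤ 4 := by omega
    interval_cases b
    · exact BlkC.pr14_15_4_0 hn
    · exact BlkC.pr14_15_4_1 hn
    · exact BlkC.pr14_15_4_2 hn
    · exact BlkC.pr14_15_4_3 hn
    · exact BlkC.pr14_15_4_4 hn
  · have hb : b ≤ 3 := by omega
    interval_cases b
    · exact BlkC.pr14_15_5_0 hn
    · exact BlkC.pr14_15_5_1 hn
    · exact BlkC.pr14_15_5_2 hn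
    · exact BlkC.pr14_15_5_3 hn
  · have hb : b ≤ 2 := by omega
    interval_cases b
    · exact BlkC.pr14_15_6_0 hn
    · exact BlkC.pr14_15_6_1 hn
    · exact BlkC.pr14_15_6_2 hn
  · have hb : b ≤ 1 := by omega
    interval_cases b
    · exact BlkC.pr14_15_7_0 hn
    · exact BlkC.pr14_15_7_1 hn
  · have hb : b ≤ 0 := by omega
    interval_cases b
    · exact BlkC.pr14_15_8_0 hn

end Pool.Agent.Lib.MP_f04ccf_co
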