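import Pool.Agent.Lib.MP_f04ccf_co.M.BlkT

/-!
MP_f04ccf_co, block certificate, data `R = 15`, `H = 16`, part 1 (generated, helper99:
bd10.cpp, gen2.py).
-/

set_option autoImplicit false
set_option maxRecDepth 100000

namespace Pool.Agent.Lib.MP_f04ccf_co

namespace BlkC

/-- the numbers of the pair `(0, 0)`, `R = 15`, `H = 16` -/
def d15_16_0_0 : BlkD.Pd :=
  ⟨15, 16, 4, 0, 0, 13, 0, 1, 0, 4, 4, 0, 0, 4, 4, 0, [0, 4, 8, 12, 16, 20, 24, 28, 32, 36, 40, 44,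
    48, 52], [0, 4, 8, 12, 16, 20, 24, 28, 32, 36, 40, 44, 48, 52], [⟨1, 1, 1, 4, 8, [0, 4], [0,
    4]⟩]⟩

/-- the certificates of the pair `(0, 0)` -/
def t15_16_0_0 : BlkD.Tr :=
  .S 0 0 (.S 2 0 (.L 3 3 [3] [] [] 100000 0 0 100000 0 0 100000 0 0 0 0) (.E 1)) (.E 0)

lemma pr15_16_0_0 {n : ℕ} (hn : 6 ≤ n) : NoPr ((15 : ℕ) : ℤ) ((16 : ℕ) : ℤ) n 0 0 :=
  BlkD.pair_sound (d := d15_16_0_0) (by decide +kernel) hn (by decide) (tr := t15_16_0_0)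
    (by decide +kernel) rfl rfl rfl rfl

/-- the numbers of the pair `(1, 0)`, `R = 15`, `H = 16` -/
def d15_16_1_0 : BlkD.Pd :=
  ⟨15, 16, 4, 1, 0, 12, 0, 1, 0, 4, 4, 0, 0, 4, 4, 0, [0, 4, 8, 12, 16, 20, 24, 28, 32, 36, 40, 44,
    48], [0, 4, 8, 12, 16, 20, 24, 28, 32, 36, 40, 44, 48], [⟨1, 1, 1, 4, 8, [0, 4], [0, 4]⟩]⟩

/-- the certificates of the pair `(1, 0)` -/
def t15_16_1_0 : BlkD.Tr :=
  .S 0 1 (.S 2 0 (.L 3 3 [3] [] [] 100000 0 0 200000 0 0 0 100000 0 0 0) (.E 1)) (.E 0)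

lemma pr15_16_1_0 {n : ℕ} (hn : 6 ≤ n) : NoPr ((15 : ℕ) : ℤ) ((16 : ℕ) : ℤ) n 1 0 :=
  BlkD.pair_sound (d := d15_16_1_0) (by decide +kernel) hn (by decide) (tr := t15_16_1_0)
    (by decide +kernel) rfl rfl rfl rfl

/-- the numbers of the pair `(1, 1)`, `R = 15`, `H = 16` -/
def d15_16_1_1 : BlkD.Pd :=
  ⟨15, 16, 4, 1, 1, 11, 1, 1, 0, 4, 4, 0, 0, 4, 4, 0, [0, 4, 8, 12, 16, 20, 24, 28, 32, 36, 40,
    44], [0, 4, 8, 12, 16, 20, 24, 28, 32, 36, 40, 44], [⟨1, 1, 1, 4, 8, [0, 4], [0, 4]⟩, ⟨1, 1, 1,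
    4, 8, [0, 4], [0, 4]⟩]⟩

/-- the certificates of the pair `(1, 1)` -/
def t15_16_1_1 : BlkD.Tr :=
  .S 0 1 (.S 2 1 (.L 3 3 [3, 4] [] [] 100000 0 0 400000 0 0 0 0 0 0 0) (.E 1)) (.E 0)

lemma pr15_16_1_1 {n : ℕ} (hn : 6 ≤ n) : NoPr ((15 : ℕ) : ℤ) ((16 : ℕ) : ℤ) n 1 1 :=
  BlkD.pair_sound (d := d15_16_1_1) (by decide +kernel) hn (by decide) (tr := t15_16_1_1)
    (by decide +kernel) rfl rfl rfl rfl

/-- the numbers of the pair `(2, 0)`, `R = 15`, `H = 16` -/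
def d15_16_2_0 : BlkD.Pd :=
  ⟨15, 16, 4, 2, 0, 11, 0, 1, 0, 4, 4, 0, 0, 4, 4, 0, [0, 4, 8, 12, 16, 20, 24, 28, 32, 36, 40,
    44], [0, 4, 8, 12, 16, 20, 24, 28, 32, 36, 40, 44], [⟨1, 1, 1, 4, 8, [0, 4], [0, 4]⟩]⟩

/-- the certificates of the pair `(2, 0)` -/
def t15_16_2_0 : BlkD.Tr :=
  .S 0 2 (.S 2 0 (.L 3 3 [3] [] [] 100000 0 0 300000 0 0 0 100000 0 0 0) (.E 1)) (.E 0)

lemma pr15_16_2_0 {n : ℕ} (hn : 6 ≤ n) : NoPr ((15 : ℕ) : ℤ) ((16 : ℕ) : ℤ) n 2 0 :=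
  BlkD.pair_sound (d := d15_16_2_0) (by decide +kernel) hn (by decide) (tr := t15_16_2_0)
    (by decide +kernel) rfl rfl rfl rfl

/-- the numbers of the pair `(2, 1)`, `R = 15`, `H = 16` -/
def d15_16_2_1 : BlkD.Pd :=
  ⟨15, 16, 4, 2, 1, 10, 1, 1, 0, 4, 4, 0, 0, 4, 4, 0, [0, 4, 8, 12, 16, 20, 24, 28, 32, 36, 40],
    [0, 4, 8, 12, 16, 20, 24, 28, 32, 36, 40], [⟨1, 1, 1, 4, 8, [0, 4], [0, 4]⟩, ⟨1, 1, 1, 4, 8,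
    [0, 4], [0, 4]⟩]⟩

/-- the certificates of the pair `(2, 1)` -/
def t15_16_2_1 : BlkD.Tr :=
  .S 0 2 (.S 2 1 (.L 3 3 [3, 4] [] [] 100000 0 0 500000 0 0 0 0 0 0 0) (.E 1)) (.E 0)

lemma pr15_16_2_1 {n : ℕ} (hn : 6 ≤ n) : NoPr ((15 : ℕ) : ℤ) ((16 : ℕ) : ℤ) n 2 1 :=
  BlkD.pair_sound (d := d15_16_2_1) (by decide +kernel) hn (by decide) (tr := t15_16_2_1)
    (by decide +kernel) rfl rfl rfl rfl

/-- the numbers of the pair `(2, 2)`, `R = 15`, `H = 16` -/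
def d15_16_2_2 : BlkD.Pd :=
  ⟨15, 16, 4, 2, 2, 9, 2, 1, 0, 4, 6, 0, 0, 4, 6, 0, [0, 6, 12, 18, 24, 30, 36, 36, 36, 36], [0, 6,
    12, 18, 24, 30, 36, 36, 36, 36], [⟨1, 1, 1, 4, 8, [0, 4], [0, 4]⟩, ⟨1, 1, 1, 4, 8, [0, 4], [0,
    4]⟩, ⟨1, 1, 1, 6, 12, [0, 6], [0, 6]⟩]⟩

/-- the certificates of the pair `(2, 2)` -/
def t15_16_2_2 : BlkD.Tr :=
  .S 0 2 (.S 2 2 (.L 3 3 [3, 4, 4] [] [] 100000 9496 9495 600000 0 0 34884 34884 25581 25581 29845)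
    (.E 1)) (.E 0)

lemma pr15_16_2_2 {n : ℕ} (hn : 6 ≤ n) : NoPr ((15 : ℕ) : ℤ) ((16 : ℕ) : ℤ) n 2 2 :=
  BlkD.pair_sound (d := d15_16_2_2) (by decide +kernel) hn (by decide) (tr := t15_16_2_2)
    (by decide +kernel) rfl rfl rfl rfl

/-- the numbers of the pair `(3, 0)`, `R = 15`, `H = 16` -/
def d15_16_3_0 : BlkD.Pd :=
  ⟨15, 16, 4, 3, 0, 10, 0, 1, 0, 4, 4, 0, 0, 4, 4, 0, [0, 4, 8, 12, 16, 20, 24, 28, 32, 36, 40],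
    [0, 4, 8, 12, 16, 20, 24, 28, 32, 36, 40], [⟨1, 1, 1, 4, 8, [0, 4], [0, 4]⟩]⟩

/-- the certificates of the pair `(3, 0)` -/
def t15_16_3_0 : BlkD.Tr :=
  .S 0 3 (.S 2 0 (.L 3 3 [3] [] [] 100000 0 0 433334 0 0 33333 66667 0 0 0) (.E 1)) (.E 0)

lemma pr15_16_3_0 {n : ℕ} (hn : 6 ≤ n) : NoPr ((15 : ℕ) : ℤ) ((16 : ℕ) : ℤ) n 3 0 :=
  BlkD.pair_sound (d := d15_16_3_0) (by decide +kernel) hn (by decide) (tr := t15_16_3_0)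
    (by decide +kernel) rfl rfl rfl rfl

/-- the numbers of the pair `(3, 1)`, `R = 15`, `H = 16` -/
def d15_16_3_1 : BlkD.Pd :=
  ⟨15, 16, 4, 3, 1, 9, 1, 1, 0, 4, 6, 0, 0, 4, 4, 0, [0, 6, 12, 18, 24, 30, 36, 36, 36, 36], [0, 4,
    8, 12, 16, 20, 24, 28, 32, 36], [⟨1, 1, 1, 4, 8, [0, 4], [0, 4]⟩, ⟨1, 1, 1, 4, 10, [0, 6], [0,
    4]⟩]⟩

/-- the certificates of the pair `(3, 1)` -/
def t15_16_3_1 : BlkD.Tr :=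
  .S 0 3 (.S 2 1 (.L 3 3 [3, 4] [] [] 100000 0 0 600000 0 0 50000 0 0 0 0) (.E 1)) (.E 0)

lemma pr15_16_3_1 {n : ℕ} (hn : 6 ≤ n) : NoPr ((15 : ℕ) : ℤ) ((16 : ℕ) : ℤ) n 3 1 :=
  BlkD.pair_sound (d := d15_16_3_1) (by decide +kernel) hn (by decide) (tr := t15_16_3_1)
    (by decide +kernel) rfl rfl rfl rfl

/-- the numbers of the pair `(3, 2)`, `R = 15`, `H = 16` -/
def d15_16_3_2 : BlkD.Pd :=
  ⟨15, 16, 4, 3, 2, 8, 2, 1, 0, 4, 6, 0, 3, 1, 6, 0, [0, 6, 12, 18, 24, 30, 32, 32, 32], [0, 6, 12,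
    17, 20, 23, 26, 29, 32], [⟨1, 1, 1, 4, 8, [0, 4], [0, 4]⟩, ⟨1, 1, 1, 4, 10, [0, 6], [0, 4]⟩,
    ⟨1, 1, 1, 6, 12, [0, 6], [0, 6]⟩]⟩

/-- the certificates of the pair `(3, 2)` -/
def t15_16_3_2 : BlkD.Tr :=
  .S 0 3 (.S 2 2 (.L 3 4 [3, 4, 4] [] [] 100000 10670 10669 700000 0 0 50000 40625 18750 27232
    32679) (.E 1)) (.E 0)

lemma pr15_16_3_2 {n : ℕ} (hn : 6 ≤ n) : NoPr ((15 : ℕ) : ℤ) ((16 : ℕ) : ℤ) n 3 2 :=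
  BlkD.pair_sound (d := d15_16_3_2) (by decide +kernel) hn (by decide) (tr := t15_16_3_2)
    (by decide +kernel) rfl rfl rfl rfl

/-- the numbers of the pair `(3, 3)`, `R = 15`, `H = 16` -/
def d15_16_3_3 : BlkD.Pd :=
  ⟨15, 16, 4, 3, 3, 7, 3, 1, 4, 1, 8, 0, 4, 1, 8, 0, [0, 8, 15, 19, 23, 27, 31, 35], [0, 8, 15, 19,
    23, 27, 31, 35], [⟨1, 1, 1, 4, 8, [0, 4], [0, 4]⟩, ⟨1, 1, 1, 4, 12, [0, 6], [0, 6]⟩, ⟨1, 1, 1,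
    4, 12, [0, 6], [0, 6]⟩, ⟨1, 1, 1, 4, 16, [0, 8], [0, 8]⟩]⟩

/-- the certificates of the pair `(3, 3)` -/
def t15_16_3_3 : BlkD.Tr :=
  .S 0 3 (.S 2 3 (.L 4 4 [3, 4, 4, 4] [] [] 100000 19643 19643 800000 0 0 65179 68750 22321 18750
    25000) (.E 1)) (.E 0)

lemma pr15_16_3_3 {n : ℕ} (hn : 6 ≤ n) : NoPr ((15 : ℕ) : ℤ) ((16 : ℕ) : ℤ) n 3 3 :=
  BlkD.pair_sound (d := d15_16_3_3) (by decide +kernel) hn (by decide) (tr := t15_16_3_3)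
    (by decide +kernel) rfl rfl rfl rfl

/-- the numbers of the pair `(4, 0)`, `R = 15`, `H = 16` -/
def d15_16_4_0 : BlkD.Pd :=
  ⟨15, 16, 4, 4, 0, 9, 0, 1, 0, 4, 4, 0, 0, 4, 4, 0, [0, 4, 8, 12, 16, 20, 24, 28, 32, 36], [0, 4,
    8, 12, 16, 20, 24, 28, 32, 36], [⟨1, 1, 1, 4, 8, [0, 4], [0, 4]⟩]⟩

/-- the certificates of the pair `(4, 0)` -/
def t15_16_4_0 : BlkD.Tr :=
  .S 0 4 (.S 2 0 (.L 3 3 [3] [] [] 100000 0 0 525000 25000 0 50000 50000 0 0 0) (.E 1)) (.E 0)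

lemma pr15_16_4_0 {n : ℕ} (hn : 6 ≤ n) : NoPr ((15 : ℕ) : ℤ) ((16 : ℕ) : ℤ) n 4 0 :=
  BlkD.pair_sound (d := d15_16_4_0) (by decide +kernel) hn (by decide) (tr := t15_16_4_0)
    (by decide +kernel) rfl rfl rfl rfl

/-- the numbers of the pair `(4, 1)`, `R = 15`, `H = 16` -/
def d15_16_4_1 : BlkD.Pd :=
  ⟨15, 16, 4, 4, 1, 8, 1, 1, 2, 2, 6, 0, 0, 4, 4, 0, [0, 6, 12, 18, 24, 26, 28, 30, 32], [0, 4, 8,
    12, 16, 20, 24, 28, 32], [⟨1, 1, 1, 4, 8, [0, 4], [0, 4]⟩, ⟨1, 1, 1, 4, 10, [0, 6], [0, 4]⟩]⟩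

/-- the certificates of the pair `(4, 1)` -/
def t15_16_4_1 : BlkD.Tr :=
  .S 0 4 (.S 2 1 (.L 3 3 [3, 4] [] [] 100000 0 0 700000 25000 0 50000 0 0 0 0) (.E 1)) (.E 0)

lemma pr15_16_4_1 {n : ℕ} (hn : 6 ≤ n) : NoPr ((15 : ℕ) : ℤ) ((16 : ℕ) : ℤ) n 4 1 :=
  BlkD.pair_sound (d := d15_16_4_1) (by decide +kernel) hn (by decide) (tr := t15_16_4_1)
    (by decide +kernel) rfl rfl rfl rfl

/-- the numbers of the pair `(4, 2)`, `R = 15`, `H = 16` -/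
def d15_16_4_2 : BlkD.Pd :=
  ⟨15, 16, 4, 4, 2, 7, 2, 1, 2, 2, 8, 0, 3, 1, 6, 0, [0, 8, 16, 20, 22, 24, 26, 28], [0, 6, 12, 16,
    19, 22, 25, 28], [⟨1, 1, 1, 4, 8, [0, 4], [0, 4]⟩, ⟨1, 1, 1, 4, 10, [0, 6], [0, 4]⟩, ⟨1, 1, 1,
    4, 14, [0, 8], [0, 6]⟩]⟩

/-- the certificates of the pair `(4, 2)` -/
def t15_16_4_2 : BlkD.Tr :=
  .S 0 4 (.S 2 2 (.L 4 5 [3, 4, 3] [] [] 100000 24574 24574 825678 14865 0 50000 39047 9673 27454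
    13727) (.E 1)) (.E 0)

lemma pr15_16_4_2 {n : ℕ} (hn : 6 ≤ n) : NoPr ((15 : ℕ) : ℤ) ((16 : ℕ) : ℤ) n 4 2 :=
  BlkD.pair_sound (d := d15_16_4_2) (by decide +kernel) hn (by decide) (tr := t15_16_4_2)
    (by decide +kernel) rfl rfl rfl rfl

/-- the numbers of the pair `(4, 3)`, `R = 15`, `H = 16` -/
def d15_16_4_3 : BlkD.Pd :=
  ⟨15, 16, 4, 4, 3, 6, 2, 2, 2, 2, 8, 0, 2, 2, 6, 0, [0, 8, 16, 18, 20, 22, 24], [0, 6, 12, 18, 20,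
    22, 24], [⟨1, 1, 1, 4, 8, [0, 4], [0, 4]⟩, ⟨1, 1, 1, 4, 12, [0, 6], [0, 6]⟩, ⟨1, 1, 1, 4, 14,
    [0, 8], [0, 6]⟩]⟩

/-- the certificates of the pair `(4, 3)` -/
def t15_16_4_3 : BlkD.Tr :=
  .S 0 4 (.S 2 3 (.S 0 2 (.L 4 4 [3, 4, 4, 15] [] [] 100000 25215 25215 928204 17949 0 74359 47863
    7692 13675 28205) (.L 4 4 [3, 4, 4, 15] [] [] 100000 18889 18889 920000 0 0 80000 80000 3333
    20000 38889)) (.E 1)) (.E 0)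

lemma pr15_16_4_3 {n : ℕ} (hn : 6 ≤ n) : NoPr ((15 : ℕ) : ℤ) ((16 : ℕ) : ℤ) n 4 3 :=
  BlkD.pair_sound (d := d15_16_4_3) (by decide +kernel) hn (by decide) (tr := t15_16_4_3)
    (by decide +kernel) rfl rfl rfl rfl

/-- the numbers of the pair `(4, 4)`, `R = 15`, `H = 16` -/
def d15_16_4_4 : BlkD.Pd :=
  ⟨15, 16, 4, 4, 4, 5, 1, 2, 2, 2, 6, 0, 2, 2, 6, 0, [0, 6, 12, 16, 18, 20], [0, 6, 12, 16, 18,
    20], [⟨1, 1, 1, 4, 8, [0, 4], [0, 4]⟩, ⟨1, 1, 1, 4, 12, [0, 6], [0, 6]⟩]⟩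

/-- the certificates of the pair `(4, 4)` -/
def t15_16_4_4 : BlkD.Tr :=
  .S 0 4 (.S 2 4 (.L 4 4 [3, 3, 15, 15, 15] [] [] 100000 1 1 1090625 2344 19531 42188 60937 0 0 0)
    (.E 1)) (.E 0)

lemma pr15_16_4_4 {n : ℕ} (hn : 6 ≤ n) : NoPr ((15 : ℕ) : ℤ) ((16 : ℕ) : ℤ) n 4 4 :=
  BlkD.pair_sound (d := d15_16_4_4) (by decide +kernel) hn (by decide) (tr := t15_16_4_4)
    (by decide +kernel) rfl rfl rfl rfl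

/-- the numbers of the pair `(5, 0)`, `R = 15`, `H = 16` -/
def d15_16_5_0 : BlkD.Pd :=
  ⟨15, 16, 4, 5, 0, 8, 0, 1, 0, 4, 4, 0, 0, 4, 4, 0, [0, 4, 8, 12, 16, 20, 24, 28, 32], [0, 4, 8,
    12, 16, 20, 24, 28, 32], [⟨1, 1, 1, 4, 8, [0, 4], [0, 4]⟩]⟩

/-- the certificates of the pair `(5, 0)` -/
def t15_16_5_0 : BlkD.Tr :=
  .S 0 5 (.S 2 0 (.L 3 3 [3] [] [] 100000 0 0 625000 50000 0 75000 25000 0 0 0) (.E 1)) (.E 0)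

lemma pr15_16_5_0 {n : ℕ} (hn : 6 ≤ n) : NoPr ((15 : ℕ) : ℤ) ((16 : ℕ) : ℤ) n 5 0 :=
  BlkD.pair_sound (d := d15_16_5_0) (by decide +kernel) hn (by decide) (tr := t15_16_5_0)
    (by decide +kernel) rfl rfl rfl rfl

/-- the numbers of the pair `(5, 1)`, `R = 15`, `H = 16` -/
def d15_16_5_1 : BlkD.Pd :=
  ⟨15, 16, 4, 5, 1, 7, 1, 1, 2, 2, 6, 0, 0, 4, 4, 0, [0, 6, 12, 18, 22, 24, 26, 28], [0, 4, 8, 12,
    16, 20, 24, 28], [⟨1, 1, 1, 4, 8, [0, 4], [0, 4]⟩, ⟨1, 1, 1, 4, 10, [0, 6], [0, 4]⟩]⟩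

/-- the certificates of the pair `(5, 1)` -/
def t15_16_5_1 : BlkD.Tr :=
  .S 0 5 (.S 2 1 (.L 3 4 [3, 4] [] [] 100000 2 2 833332 16667 16667 83333 16667 0 0 0) (.E 1)) (.E
    0)

lemma pr15_16_5_1 {n : ℕ} (hn : 6 ≤ n) : NoPr ((15 : ℕ) : ℤ) ((16 : ℕ) : ℤ) n 5 1 :=
  BlkD.pair_sound (d := d15_16_5_1) (by decide +kernel) hn (by decide) (tr := t15_16_5_1)
    (by decide +kernel) rfl rfl rfl rfl

/-- the numbers of the pair `(5, 2)`, `R = 15`, `H = 16` -/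
def d15_16_5_2 : BlkD.Pd :=
  ⟨15, 16, 4, 5, 2, 6, 2, 1, 2, 2, 8, 0, 3, 1, 6, 0, [0, 8, 16, 18, 20, 22, 24], [0, 6, 12, 15, 18,
    21, 24], [⟨1, 1, 1, 4, 8, [0, 4], [0, 4]⟩, ⟨1, 1, 1, 4, 10, [0, 6], [0, 4]⟩, ⟨1, 1, 1, 4, 14,
    [0, 8], [0, 6]⟩]⟩

/-- the certificates of the pair `(5, 2)` -/
def t15_16_5_2 : BlkD.Tr :=
  .S 0 5 (.S 2 2 (.S 0 2 (.L 4 6 [3, 4, 3] [] [] 100000 39394 39394 866668 33333 0 66667 39394 0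
    21212 10606) (.S 0 4 (.S 0 3 (.L 4 6 [3, 4, 3] [] [] 100000 26704 26704 931866 17034 0 76453
    41483 4709 25251 16633) (.L 4 6 [3, 4, 3] [] [] 100000 2 2 993618 2128 0 57979 25000 15426
    34574 50000)) (.L 4 6 [3, 4, 3] [] [] 100000 9445 9445 900002 0 0 100000 50000 16667 30000
    34444))) (.E 1)) (.E 0)

lemma pr15_16_5_2 {n : ℕ} (hn : 6 ≤ n) : NoPr ((15 : ℕ) : ℤ) ((16 : ℕ) : ℤ) n 5 2 :=
  BlkD.pair_sound (d := d15_16_5_2) (by decide +kernel) hn (by decide) (tr := t15_16_5_2)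
    (by decide +kernel) rfl rfl rfl rfl

/-- the numbers of the pair `(5, 3)`, `R = 15`, `H = 16` -/
def d15_16_5_3 : BlkD.Pd :=
  ⟨15, 16, 4, 5, 3, 5, 1, 2, 2, 2, 6, 0, 2, 2, 6, 0, [0, 6, 12, 16, 18, 20], [0, 6, 12, 16, 18,
    20], [⟨1, 1, 1, 4, 8, [0, 4], [0, 4]⟩, ⟨1, 1, 1, 4, 12, [0, 6], [0, 6]⟩]⟩

/-- the certificates of the pair `(5, 3)` -/
def t15_16_5_3 : BlkD.Tr :=
  .S 0 5 (.S 2 3 (.S 0 2 (.L 4 5 [3, 3, 15, 15] [] [] 100000 80000 80000 1000000 40000 0 80000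
    40000 0 0 0) (.S 0 4 (.S 0 3 (.L 4 5 [3, 3, 15, 15] [] [] 100000 2 2 1092856 14286 0 64286
    50000 0 0 0) (.L 4 5 [3, 3, 15, 15] [] [] 100000 0 0 1079488 10256 5128 57692 44872 0 0 0)) (.L
    4 5 [3, 3, 15, 15] [] [] 100000 0 0 1000000 0 25000 50000 75000 0 0 0))) (.E 1)) (.E 0)

lemma pr15_16_5_3 {n : ℕ} (hn : 6 ≤ n) : NoPr ((15 : ℕ) : ℤ) ((16 : ℕ) : ℤ) n 5 3 :=
  BlkD.pair_sound (d := d15_16_5_3) (by decide +kernel) hn (by decide) (tr := t15_16_5_3)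
    (by decide +kernel) rfl rfl rfl rfl

/-- the numbers of the pair `(5, 4)`, `R = 15`, `H = 16` -/
def d15_16_5_4 : BlkD.Pd :=
  ⟨15, 16, 4, 5, 4, 4, 0, 2, 0, 4, 4, 0, 0, 4, 4, 0, [0, 4, 8, 12, 16], [0, 4, 8, 12, 16], [⟨1, 1,
    1, 4, 8, [0, 4], [0, 4]⟩]⟩

lemma k15_16_5_4 : BlkD.pairOk d15_16_5_4 = true := by decide +kernel

/-- certificates of the pair `(5, 4)`, part 1 -/
def t15_16_5_4_1 : BlkD.Tr :=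
  .S 0 2 (.L 3 3 [3, 15, 15, 15, 15] [] [] 100000 0 0 1100000 50000 50000 66667 50000 0 0 0) (.L 3
    3 [3, 15, 15, 15, 15] [] [] 100000 0 0 1100000 50000 50000 66667 50000 0 0 0)

lemma s15_16_5_4_1 {n : ℕ} (hn : 6 ≤ n) : NoNd (d15_16_5_4.R : ℤ) d15_16_5_4.H n d15_16_5_4.a d15_16_5_4.b
    (BlkD.inB (fun _ => 0)
      (BlkD.upd (BlkD.upd (fun _ => 16) 0 5) 2 4)) :=
  BlkD.tree_sound (BlkD.pairOk_sound k15_16_5_4) (by decide) hn t15_16_5_4_1 _ _ (by decide +kernel)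

/-- certificates of the pair `(5, 4)`, part 2 -/
def t15_16_5_4_2 : BlkD.Tr :=
  .E 1

lemma s15_16_5_4_2 {n : ℕ} (hn : 6 ≤ n) : NoNd (d15_16_5_4.R : ℤ) d15_16_5_4.H n d15_16_5_4.a d15_16_5_4.b
    (BlkD.inB (BlkD.upd (fun _ => 0) 2 5)
      (BlkD.upd (fun _ => 16) 0 5)) :=
  BlkD.tree_sound (BlkD.pairOk_sound k15_16_5_4) (by decide) hn t15_16_5_4_2 _ _ (by decide +kernel)

/-- certificates of the pair `(5, 4)`, part 3 -/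
def t15_16_5_4_3 : BlkD.Tr :=
  .E 0

lemma s15_16_5_4_3 {n : ℕ} (hn : 6 ≤ n) : NoNd (d15_16_5_4.R : ℤ) d15_16_5_4.H n d15_16_5_4.a d15_16_5_4.b
    (BlkD.inB (BlkD.upd (fun _ => 0) 0 6)
      (fun _ => 16)) :=
  BlkD.tree_sound (BlkD.pairOk_sound k15_16_5_4) (by decide) hn t15_16_5_4_3 _ _ (by decide +kernel)

lemma pr15_16_5_4 {n : ℕ} (hn : 6 ≤ n) : NoPr ((15 : ℕ) : ℤ) ((16 : ℕ) : ℤ) n 5 4 :=
  BlkD.of_root (R := d15_16_5_4.R) (H := d15_16_5_4.H) (a := d15_16_5_4.a) (b := d15_16_5_4.b) (q := 4) (by decide) hn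
    (BlkD.sp 0 5 (BlkD.sp 2 4 (s15_16_5_4_1 hn) (s15_16_5_4_2 hn)) (s15_16_5_4_3 hn))

/-- the numbers of the pair `(6, 0)`, `R = 15`, `H = 16` -/
def d15_16_6_0 : BlkD.Pd :=
  ⟨15, 16, 4, 6, 0, 7, 0, 1, 0, 4, 4, 0, 0, 4, 4, 0, [0, 4, 8, 12, 16, 20, 24, 28], [0, 4, 8, 12,
    16, 20, 24, 28], [⟨1, 1, 1, 4, 8, [0, 4], [0, 4]⟩]⟩

/-- the certificates of the pair `(6, 0)` -/
def t15_16_6_0 : BlkD.Tr :=
  .S 0 6 (.S 2 0 (.L 3 3 [3] [] [] 100000 0 0 775862 44828 0 79310 0 0 0 0) (.E 1)) (.E 0)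

lemma pr15_16_6_0 {n : ℕ} (hn : 6 ≤ n) : NoPr ((15 : ℕ) : ℤ) ((16 : ℕ) : ℤ) n 6 0 :=
  BlkD.pair_sound (d := d15_16_6_0) (by decide +kernel) hn (by decide) (tr := t15_16_6_0)
    (by decide +kernel) rfl rfl rfl rfl

/-- the numbers of the pair `(6, 1)`, `R = 15`, `H = 16` -/
def d15_16_6_1 : BlkD.Pd :=
  ⟨15, 16, 4, 6, 1, 6, 1, 1, 2, 2, 6, 0, 0, 4, 4, 0, [0, 6, 12, 18, 20, 22, 24], [0, 4, 8, 12, 16,
    20, 24], [⟨1, 1, 1, 4, 8, [0, 4], [0, 4]⟩, ⟨1, 1, 1, 4, 10, [0, 6], [0, 4]⟩]⟩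

/-- the certificates of the pair `(6, 1)` -/
def t15_16_6_1 : BlkD.Tr :=
  .S 0 6 (.S 2 1 (.S 0 3 (.L 3 4 [3, 4] [] [] 100000 0 0 900002 33333 0 100000 0 0 0 0) (.S 0 5 (.S
    0 4 (.L 3 4 [3, 4] [] [] 100000 0 0 975000 25000 0 62500 0 0 0 0) (.L 3 4 [3, 4] [] [] 100000 0
    0 940000 20000 0 60000 0 0 0 0)) (.L 3 4 [3, 4] [] [] 100000 2 2 900000 16667 0 83333 0 0 0
    0))) (.E 1)) (.E 0)

lemma pr15_16_6_1 {n : ℕ} (hn : 6 ≤ n) : NoPr ((15 : ℕ) : ℤ) ((16 : ℕ) : ℤ) n 6 1 :=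
  BlkD.pair_sound (d := d15_16_6_1) (by decide +kernel) hn (by decide) (tr := t15_16_6_1)
    (by decide +kernel) rfl rfl rfl rfl

/-- the numbers of the pair `(6, 2)`, `R = 15`, `H = 16` -/
def d15_16_6_2 : BlkD.Pd :=
  ⟨15, 16, 4, 6, 2, 5, 1, 2, 2, 2, 6, 0, 0, 4, 4, 0, [0, 6, 12, 16, 18, 20], [0, 4, 8, 12, 16, 20],
    [⟨1, 1, 1, 4, 8, [0, 4], [0, 4]⟩, ⟨1, 1, 1, 4, 10, [0, 6], [0, 4]⟩]⟩

lemma k15_16_6_2 : BlkD.pairOk d15_16_6_2 = true := by decide +kernel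

/-- certificates of the pair `(6, 2)`, part 1 -/
def t15_16_6_2_1 : BlkD.Tr :=
  .S 0 1 (.L 4 5 [3, 3, 15] [] [] 100000 77779 77779 955555 55556 0 77778 33333 0 0 0) (.L 4 5 [3,
    3, 15] [] [] 100000 77779 77779 955555 55556 0 77778 33333 0 0 0)

lemma s15_16_6_2_1 {n : ℕ} (hn : 6 ≤ n) : NoNd (d15_16_6_2.R : ℤ) d15_16_6_2.H n d15_16_6_2.a d15_16_6_2.b
    (BlkD.inB (fun _ => 0)
      (BlkD.upd (BlkD.upd (BlkD.upd (fun _ => 16) 0 6) 2 2) 0 3)) :=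
  BlkD.tree_sound (BlkD.pairOk_sound k15_16_6_2) (by decide) hn t15_16_6_2_1 _ _ (by decide +kernel)

/-- certificates of the pair `(6, 2)`, part 2 -/
def t15_16_6_2_2 : BlkD.Tr :=
  .S 0 5 (.S 0 4 (.S 1 12 (.S 1 6 (.S 1 3 (.L 4 5 [3, 3, 15] [] [] 100000 0 0 1000001 33333 0 33333
    0 0 0 0) (.S 1 5 (.S 1 4 (.L 4 5 [3, 3, 15] [70, 64, 58, 52, 44, 0] [] 100000 0 0 1011112 33333
    0 44444 55556 0 0 0) (.L 4 5 [3, 3, 15] [90, 86, 80, 74, 68, 60] [] 100000 50000 50000 1000001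
    50000 0 66667 33333 0 0 0)) (.L 4 5 [3, 3, 15] [110, 108, 104, 98, 92, 86] [] 100000 75000
    75000 975000 50000 0 100000 25000 0 0 0))) (.L 4 5 [3, 3, 15] [] [] 100000 11765 0 941177 17647
    0 111765 41176 0 0 0)) (.E 0)) (.L 4 5 [3, 3, 15] [] [] 100000 0 0 1062500 18750 0 93750 12500
    0 0 0)) (.L 4 5 [3, 3, 15] [] [] 100000 1 1 1000001 14286 0 85714 28571 0 0 0)

lemma s15_16_6_2_2 {n : ℕ} (hn : 6 ≤ n) : NoNd (d15_16_6_2.R : ℤ) d15_16_6_2.H n d15_16_6_2.a d15_16_6_2.b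
    (BlkD.inB (BlkD.upd (fun _ => 0) 0 4)
      (BlkD.upd (BlkD.upd (fun _ => 16) 0 6) 2 2)) :=
  BlkD.tree_sound (BlkD.pairOk_sound k15_16_6_2) (by decide) hn t15_16_6_2_2 _ _ (by decide +kernel)

/-- certificates of the pair `(6, 2)`, part 3 -/
def t15_16_6_2_3 : BlkD.Tr :=
  .E 1

lemma s15_16_6_2_3 {n : ℕ} (hn : 6 ≤ n) : NoNd (d15_16_6_2.R : ℤ) d15_16_6_2.H n d15_16_6_2.a d15_16_6_2.b
    (BlkD.inB (BlkD.upd (fun _ => 0) 2 3)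
      (BlkD.upd (fun _ => 16) 0 6)) :=
  BlkD.tree_sound (BlkD.pairOk_sound k15_16_6_2) (by decide) hn t15_16_6_2_3 _ _ (by decide +kernel)

/-- certificates of the pair `(6, 2)`, part 4 -/
def t15_16_6_2_4 : BlkD.Tr :=
  .E 0

lemma s15_16_6_2_4 {n : ℕ} (hn : 6 ≤ n) : NoNd (d15_16_6_2.R : ℤ) d15_16_6_2.H n d15_16_6_2.a d15_16_6_2.b
    (BlkD.inB (BlkD.upd (fun _ => 0) 0 7)
      (fun _ => 16)) :=
  BlkD.tree_sound (BlkD.pairOk_sound k15_16_6_2) (by decide) hn t15_16_6_2_4 _ _ (by decide +kernel)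

lemma pr15_16_6_2 {n : ℕ} (hn : 6 ≤ n) : NoPr ((15 : ℕ) : ℤ) ((16 : ℕ) : ℤ) n 6 2 :=
  BlkD.of_root (R := d15_16_6_2.R) (H := d15_16_6_2.H) (a := d15_16_6_2.a) (b := d15_16_6_2.b) (q := 4) (by decide) hn
    (BlkD.sp 0 6 (BlkD.sp 2 2 (BlkD.sp 0 3 (s15_16_6_2_1 hn) (s15_16_6_2_2 hn)) (s15_16_6_2_3 hn))
      (s15_16_6_2_4 hn))

/-- the numbers of the pair `(6, 3)`, `R = 15`, `H = 16` -/
def d15_16_6_3 : BlkD.Pd :=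
  ⟨15, 16, 4, 6, 3, 4, 0, 2, 0, 4, 4, 0, 0, 4, 4, 0, [0, 4, 8, 12, 16], [0, 4, 8, 12, 16], [⟨1, 1,
    1, 4, 8, [0, 4], [0, 4]⟩]⟩

lemma k15_16_6_3 : BlkD.pairOk d15_16_6_3 = true := by decide +kernel

/-- certificates of the pair `(6, 3)`, part 1 -/
def t15_16_6_3_1 : BlkD.Tr :=
  .S 0 1 (.L 3 3 [3, 15, 15, 15] [] [] 100000 0 0 1100000 50000 25000 100000 50000 0 0 0) (.L 3 3
    [3, 15, 15, 15] [] [] 100000 0 0 1100000 50000 25000 100000 50000 0 0 0)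

lemma s15_16_6_3_1 {n : ℕ} (hn : 6 ≤ n) : NoNd (d15_16_6_3.R : ℤ) d15_16_6_3.H n d15_16_6_3.a d15_16_6_3.b
    (BlkD.inB (fun _ => 0)
      (BlkD.upd (BlkD.upd (BlkD.upd (fun _ => 16) 0 6) 2 3) 0 3)) :=
  BlkD.tree_sound (BlkD.pairOk_sound k15_16_6_3) (by decide) hn t15_16_6_3_1 _ _ (by decide +kernel)

/-- certificates of the pair `(6, 3)`, part 2 -/
def t15_16_6_3_2 : BlkD.Tr :=
  .L 3 3 [3, 15, 15, 15] [] [] 100000 0 0 1100000 50000 25000 100000 50000 0 0 0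

lemma s15_16_6_3_2 {n : ℕ} (hn : 6 ≤ n) : NoNd (d15_16_6_3.R : ℤ) d15_16_6_3.H n d15_16_6_3.a d15_16_6_3.b
    (BlkD.inB (BlkD.upd (fun _ => 0) 0 4)
      (BlkD.upd (BlkD.upd (fun _ => 16) 0 6) 2 3)) :=
  BlkD.tree_sound (BlkD.pairOk_sound k15_16_6_3) (by decide) hn t15_16_6_3_2 _ _ (by decide +kernel)

/-- certificates of the pair `(6, 3)`, part 3 -/
def t15_16_6_3_3 : BlkD.Tr :=
  .E 1

lemma s15_16_6_3_3 {n : ℕ} (hn : 6 ≤ n) : NoNd (d15_16_6_3.R : ℤ) d15_16_6_3.H n d15_16_6_3.a d15_16_6_3.b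
    (BlkD.inB (BlkD.upd (fun _ => 0) 2 4)
      (BlkD.upd (fun _ => 16) 0 6)) :=
  BlkD.tree_sound (BlkD.pairOk_sound k15_16_6_3) (by decide) hn t15_16_6_3_3 _ _ (by decide +kernel)

/-- certificates of the pair `(6, 3)`, part 4 -/
def t15_16_6_3_4 : BlkD.Tr :=
  .E 0

lemma s15_16_6_3_4 {n : ℕ} (hn : 6 ≤ n) : NoNd (d15_16_6_3.R : ℤ) d15_16_6_3.H n d15_16_6_3.a d15_16_6_3.b
    (BlkD.inB (BlkD.upd (fun _ => 0) 0 7)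
      (fun _ => 16)) :=
  BlkD.tree_sound (BlkD.pairOk_sound k15_16_6_3) (by decide) hn t15_16_6_3_4 _ _ (by decide +kernel)

lemma pr15_16_6_3 {n : ℕ} (hn : 6 ≤ n) : NoPr ((15 : ℕ) : ℤ) ((16 : ℕ) : ℤ) n 6 3 :=
  BlkD.of_root (R := d15_16_6_3.R) (H := d15_16_6_3.H) (a := d15_16_6_3.a) (b := d15_16_6_3.b) (q := 4) (by decide) hn
    (BlkD.sp 0 6 (BlkD.sp 2 3 (BlkD.sp 0 3 (s15_16_6_3_1 hn) (s15_16_6_3_2 hn)) (s15_16_6_3_3 hn))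
      (s15_16_6_3_4 hn))

/-- the numbers of the pair `(7, 0)`, `R = 15`, `H = 16` -/
def d15_16_7_0 : BlkD.Pd :=
  ⟨15, 16, 4, 7, 0, 6, 0, 1, 0, 4, 4, 0, 0, 4, 4, 0, [0, 4, 8, 12, 16, 20, 24], [0, 4, 8, 12, 16,
    20, 24], [⟨1, 1, 1, 4, 8, [0, 4], [0, 4]⟩]⟩

/-- the certificates of the pair `(7, 0)` -/
def t15_16_7_0 : BlkD.Tr :=
  .S 0 7 (.S 2 0 (.L 3 3 [3] [] [] 100000 0 0 800000 100000 0 100000 0 0 0 0) (.E 1)) (.E 0)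

lemma pr15_16_7_0 {n : ℕ} (hn : 6 ≤ n) : NoPr ((15 : ℕ) : ℤ) ((16 : ℕ) : ℤ) n 7 0 :=
  BlkD.pair_sound (d := d15_16_7_0) (by decide +kernel) hn (by decide) (tr := t15_16_7_0)
    (by decide +kernel) rfl rfl rfl rfl

/-- the numbers of the pair `(7, 1)`, `R = 15`, `H = 16` -/
def d15_16_7_1 : BlkD.Pd :=
  ⟨15, 16, 4, 7, 1, 5, 1, 1, 2, 2, 6, 0, 0, 4, 4, 0, [0, 6, 12, 16, 18, 20], [0, 4, 8, 12, 16, 20],
    [⟨1, 1, 1, 4, 8, [0, 4], [0, 4]⟩, ⟨1, 1, 1, 4, 10, [0, 6], [0, 4]⟩]⟩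

/-- the certificates of the pair `(7, 1)` -/
def t15_16_7_1 : BlkD.Tr :=
  .S 0 7 (.S 2 1 (.S 0 3 (.L 4 5 [3, 3] [] [] 100000 200000 200000 700000 100000 0 100000 0 0 0 0)
    (.S 0 5 (.S 0 4 (.L 3 4 [3, 4] [] [] 100000 185716 185716 900000 71429 0 100000 0 0 0 0) (.S 1
    11 (.S 1 5 (.S 1 2 (.L 3 4 [3, 4] [] [] 100000 0 0 800000 50000 0 50000 0 0 0 0) (.S 1 4 (.L 3
    4 [3, 4] [] [] 100000 0 0 1000000 25000 0 25000 0 0 0 0) (.L 3 4 [3, 4] [94, 92, 88, 82, 76,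
    70] [] 100000 100000 100000 950000 50000 0 75000 0 0 0 0))) (.S 1 8 (.S 1 7 (.S 1 6 (.S 2 0 (.L
    4 5 [3, 3] [116, 114, 112, 108, 102, 96] [] 100000 28571 28571 1028572 42857 0 57143 42857 0 0
    0) (.L 3 4 [3, 4] [116, 114, 112, 108, 102, 96] [] 100000 300000 300000 700000 100000 0 100000
    0 0 0 0)) (.L 3 4 [3, 4] [140, 138, 136, 134, 130, 124] [] 100000 100000 100000 950000 50000 0
    100000 0 0 0 0)) (.L 3 4 [3, 4] [166, 164, 162, 160, 158, 154] [] 100000 40000 40000 1000000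
    40000 0 100000 0 0 20000 20000)) (.S 1 10 (.S 1 9 (.L 3 4 [3, 4] [194, 192, 190, 188, 186, 184]
    [] 100000 200000 200000 800000 100000 0 100000 0 0 0 0) (.L 3 4 [3, 4] [224, 222, 220, 218,
    216, 214] [] 100000 542858 428572 0 214286 0 214286 0 0 0 0)) (.L 3 4 [3, 4] [256, 254, 252,
    250, 248, 246] [] 100000 280001 100001 0 126667 0 280000 0 0 0 0)))) (.E 0))) (.S 0 6 (.S 1 10
    (.S 1 5 (.S 1 2 (.L 3 4 [3, 4] [] [] 100000 0 0 900000 50000 0 50000 0 0 0 0) (.S 1 4 (.L 4 5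
    [3, 3] [] [] 100000 0 0 1085717 28571 0 85714 0 14286 0 0) (.L 4 5 [3, 3] [104, 102, 98, 92,
    86, 80] [] 100000 0 0 1000001 33333 0 100000 0 0 0 0))) (.L 4 5 [3, 3] [] [] 100000 2 2 1049999
    16667 0 100000 0 0 0 0)) (.E 0)) (.L 4 5 [3, 3] [] [] 100000 2 2 1066668 16667 0 83333 0 16667
    0 0)))) (.E 1)) (.E 0)

lemma pr15_16_7_1 {n : ℕ} (hn : 6 ≤ n) : NoPr ((15 : ℕ) : ℤ) ((16 : ℕ) : ℤ) n 7 1 :=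
  BlkD.pair_sound (d := d15_16_7_1) (by decide +kernel) hn (by decide) (tr := t15_16_7_1)
    (by decide +kernel) rfl rfl rfl rfl

/-- the numbers of the pair `(7, 2)`, `R = 15`, `H = 16` -/
def d15_16_7_2 : BlkD.Pd :=
  ⟨15, 16, 4, 7, 2, 4, 0, 2, 0, 4, 4, 0, 0, 4, 4, 0, [0, 4, 8, 12, 16], [0, 4, 8, 12, 16], [⟨1, 1,
    1, 4, 8, [0, 4], [0, 4]⟩]⟩

lemma k15_16_7_2 : BlkD.pairOk d15_16_7_2 = true := by decide +kernel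

/-- certificates of the pair `(7, 2)`, part 1 -/
def t15_16_7_2_1 : BlkD.Tr :=
  .L 3 3 [3, 15, 15] [] [] 100000 0 0 1100000 100000 0 100000 0 0 0 0

lemma s15_16_7_2_1 {n : ℕ} (hn : 6 ≤ n) : NoNd (d15_16_7_2.R : ℤ) d15_16_7_2.H n d15_16_7_2.a d15_16_7_2.b
    (BlkD.inB (fun _ => 0)
      (BlkD.upd (BlkD.upd (BlkD.upd (fun _ => 16) 0 7) 2 2) 0 3)) :=
  BlkD.tree_sound (BlkD.pairOk_sound k15_16_7_2) (by decide) hn t15_16_7_2_1 _ _ (by decide +kernel)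

/-- certificates of the pair `(7, 2)`, part 2 -/
def t15_16_7_2_2 : BlkD.Tr :=
  .L 3 3 [3, 15, 15] [] [] 100000 0 0 1100000 100000 0 100000 0 0 0 0

lemma s15_16_7_2_2 {n : ℕ} (hn : 6 ≤ n) : NoNd (d15_16_7_2.R : ℤ) d15_16_7_2.H n d15_16_7_2.a d15_16_7_2.b
    (BlkD.inB (BlkD.upd (fun _ => 0) 0 4)
      (BlkD.upd (BlkD.upd (fun _ => 16) 0 7) 2 2)) :=
  BlkD.tree_sound (BlkD.pairOk_sound k15_16_7_2) (by decide) hn t15_16_7_2_2 _ _ (by decide +kernel)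

/-- certificates of the pair `(7, 2)`, part 3 -/
def t15_16_7_2_3 : BlkD.Tr :=
  .E 1

lemma s15_16_7_2_3 {n : ℕ} (hn : 6 ≤ n) : NoNd (d15_16_7_2.R : ℤ) d15_16_7_2.H n d15_16_7_2.a d15_16_7_2.b
    (BlkD.inB (BlkD.upd (fun _ => 0) 2 3)
      (BlkD.upd (fun _ => 16) 0 7)) :=
  BlkD.tree_sound (BlkD.pairOk_sound k15_16_7_2) (by decide) hn t15_16_7_2_3 _ _ (by decide +kernel)

/-- certificates of the pair `(7, 2)`, part 4 -/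
def t15_16_7_2_4 : BlkD.Tr :=
  .E 0

lemma s15_16_7_2_4 {n : ℕ} (hn : 6 ≤ n) : NoNd (d15_16_7_2.R : ℤ) d15_16_7_2.H n d15_16_7_2.a d15_16_7_2.b
    (BlkD.inB (BlkD.upd (fun _ => 0) 0 8)
      (fun _ => 16)) :=
  BlkD.tree_sound (BlkD.pairOk_sound k15_16_7_2) (by decide) hn t15_16_7_2_4 _ _ (by decide +kernel)

lemma pr15_16_7_2 {n : ℕ} (hn : 6 ≤ n) : NoPr ((15 : ℕ) : ℤ) ((16 : ℕ) : ℤ) n 7 2 :=
  BlkD.of_root (R := d15_16_7_2.R) (H := d15_16_7_2.H) (a := d15_16_7_2.a) (b := d15_16_7_2.b) (q := 4) (by decide) hn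
    (BlkD.sp 0 7 (BlkD.sp 2 2 (BlkD.sp 0 3 (s15_16_7_2_1 hn) (s15_16_7_2_2 hn)) (s15_16_7_2_3 hn))
      (s15_16_7_2_4 hn))

/-- the numbers of the pair `(8, 0)`, `R = 15`, `H = 16` -/
def d15_16_8_0 : BlkD.Pd :=
  ⟨15, 16, 4, 8, 0, 5, 0, 1, 0, 4, 4, 0, 0, 4, 4, 0, [0, 4, 8, 12, 16, 20], [0, 4, 8, 12, 16, 20],
    [⟨1, 1, 1, 4, 8, [0, 4], [0, 4]⟩]⟩

/-- the certificates of the pair `(8, 0)` -/
def t15_16_8_0 : BlkD.Tr :=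
  .S 0 8 (.S 2 0 (.L 3 3 [3] [] [] 100000 0 0 900000 100000 0 100000 0 0 0 0) (.E 1)) (.E 0)

lemma pr15_16_8_0 {n : ℕ} (hn : 6 ≤ n) : NoPr ((15 : ℕ) : ℤ) ((16 : ℕ) : ℤ) n 8 0 :=
  BlkD.pair_sound (d := d15_16_8_0) (by decide +kernel) hn (by decide) (tr := t15_16_8_0)
    (by decide +kernel) rfl rfl rfl rfl

/-- the numbers of the pair `(8, 1)`, `R = 15`, `H = 16` -/
def d15_16_8_1 : BlkD.Pd :=
  ⟨15, 16, 4, 8, 1, 4, 0, 1, 0, 4, 4, 0, 0, 4, 4, 0, [0, 4, 8, 12, 16], [0, 4, 8, 12, 16], [⟨1, 1,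
    1, 4, 8, [0, 4], [0, 4]⟩]⟩

/-- the certificates of the pair `(8, 1)` -/
def t15_16_8_1 : BlkD.Tr :=
  .S 0 8 (.S 2 1 (.L 3 3 [3, 15] [] [] 100000 0 0 1100002 83333 0 83333 0 0 0 0) (.E 1)) (.E 0)

lemma pr15_16_8_1 {n : ℕ} (hn : 6 ≤ n) : NoPr ((15 : ℕ) : ℤ) ((16 : ℕ) : ℤ) n 8 1 :=
  BlkD.pair_sound (d := d15_16_8_1) (by decide +kernel) hn (by decide) (tr := t15_16_8_1)
    (by decide +kernel) rfl rfl rfl rfl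

/-- the numbers of the pair `(9, 0)`, `R = 15`, `H = 16` -/
def d15_16_9_0 : BlkD.Pd :=
  ⟨15, 16, 4, 9, 0, 4, 0, 1, 0, 4, 4, 0, 0, 4, 4, 0, [0, 4, 8, 12, 16], [0, 4, 8, 12, 16], [⟨1, 1,
    1, 4, 8, [0, 4], [0, 4]⟩]⟩

/-- the certificates of the pair `(9, 0)` -/
def t15_16_9_0 : BlkD.Tr :=
  .S 0 9 (.S 2 0 (.L 3 3 [3] [] [] 100000 0 0 1000000 100000 0 100000 0 0 0 0) (.E 1)) (.E 0)

lemma pr15_16_9_0 {n : ℕ} (hn : 6 ≤ n) : NoPr ((15 : ℕ) : ℤ) ((16 : ℕ) : ℤ) n 9 0 :=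
  BlkD.pair_sound (d := d15_16_9_0) (by decide +kernel) hn (by decide) (tr := t15_16_9_0)
    (by decide +kernel) rfl rfl rfl rfl

end BlkC

end Pool.Agent.Lib.MP_f04ccf_co
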