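import Pool.Agent.Lib.MP_f04ccf_co.M.BlkT

/-!
MP_f04ccf_co, block certificate, data `R = 15`, `H = 15`, part 1 (generated, helper99:
bd10.cpp, gen2.py).
-/

set_option autoImplicit false
set_option maxRecDepth 100000

namespace Pool.Agent.Lib.MP_f04ccf_co

namespace BlkC

/-- the numbers of the pair `(0, 0)`, `R = 15`, `H = 15` -/
def d15_15_0_0 : BlkD.Pd :=
  ⟨15, 15, 3, 0, 0, 12, 0, 1, 0, 4, 4, 0, 0, 4, 4, 0, [0, 4, 8, 12, 16, 20, 24, 28, 32, 36, 40, 44,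
    48], [0, 4, 8, 12, 16, 20, 24, 28, 32, 36, 40, 44, 48], [⟨1, 1, 1, 4, 8, [0, 4], [0, 4]⟩]⟩

/-- the certificates of the pair `(0, 0)` -/
def t15_15_0_0 : BlkD.Tr :=
  .S 0 0 (.S 2 0 (.L 3 3 [3] [] [] 100000 0 0 100000 0 0 100000 0 0 0 0) (.E 1)) (.E 0)

lemma pr15_15_0_0 {n : ℕ} (hn : 5 ≤ n) : NoPr ((15 : ℕ) : ℤ) ((15 : ℕ) : ℤ) n 0 0 :=
  BlkD.pair_sound (d := d15_15_0_0) (by decide +kernel) hn (by decide) (tr := t15_15_0_0)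
    (by decide +kernel) rfl rfl rfl rfl

/-- the numbers of the pair `(1, 0)`, `R = 15`, `H = 15` -/
def d15_15_1_0 : BlkD.Pd :=
  ⟨15, 15, 3, 1, 0, 11, 0, 1, 0, 4, 4, 0, 0, 4, 4, 0, [0, 4, 8, 12, 16, 20, 24, 28, 32, 36, 40,
    44], [0, 4, 8, 12, 16, 20, 24, 28, 32, 36, 40, 44], [⟨1, 1, 1, 4, 8, [0, 4], [0, 4]⟩]⟩

/-- the certificates of the pair `(1, 0)` -/
def t15_15_1_0 : BlkD.Tr :=
  .S 0 1 (.S 2 0 (.L 3 3 [3] [] [] 100000 0 0 200000 0 0 0 100000 0 0 0) (.E 1)) (.E 0)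

lemma pr15_15_1_0 {n : ℕ} (hn : 5 ≤ n) : NoPr ((15 : ℕ) : ℤ) ((15 : ℕ) : ℤ) n 1 0 :=
  BlkD.pair_sound (d := d15_15_1_0) (by decide +kernel) hn (by decide) (tr := t15_15_1_0)
    (by decide +kernel) rfl rfl rfl rfl

/-- the numbers of the pair `(1, 1)`, `R = 15`, `H = 15` -/
def d15_15_1_1 : BlkD.Pd :=
  ⟨15, 15, 3, 1, 1, 10, 1, 1, 0, 4, 4, 0, 0, 4, 4, 0, [0, 4, 8, 12, 16, 20, 24, 28, 32, 36, 40],
    [0, 4, 8, 12, 16, 20, 24, 28, 32, 36, 40], [⟨1, 1, 1, 4, 8, [0, 4], [0, 4]⟩, ⟨1, 1, 1, 4, 8,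
    [0, 4], [0, 4]⟩]⟩

/-- the certificates of the pair `(1, 1)` -/
def t15_15_1_1 : BlkD.Tr :=
  .S 0 1 (.S 2 1 (.L 3 3 [3, 4] [] [] 100000 0 0 400000 0 0 0 0 0 0 0) (.E 1)) (.E 0)

lemma pr15_15_1_1 {n : ℕ} (hn : 5 ≤ n) : NoPr ((15 : ℕ) : ℤ) ((15 : ℕ) : ℤ) n 1 1 :=
  BlkD.pair_sound (d := d15_15_1_1) (by decide +kernel) hn (by decide) (tr := t15_15_1_1)
    (by decide +kernel) rfl rfl rfl rfl

/-- the numbers of the pair `(2, 0)`, `R = 15`, `H = 15` -/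
def d15_15_2_0 : BlkD.Pd :=
  ⟨15, 15, 3, 2, 0, 10, 0, 1, 0, 4, 4, 0, 0, 4, 4, 0, [0, 4, 8, 12, 16, 20, 24, 28, 32, 36, 40],
    [0, 4, 8, 12, 16, 20, 24, 28, 32, 36, 40], [⟨1, 1, 1, 4, 8, [0, 4], [0, 4]⟩]⟩

/-- the certificates of the pair `(2, 0)` -/
def t15_15_2_0 : BlkD.Tr :=
  .S 0 2 (.S 2 0 (.L 3 3 [3] [] [] 100000 0 0 300000 0 0 0 100000 0 0 0) (.E 1)) (.E 0)

lemma pr15_15_2_0 {n : ℕ} (hn : 5 ≤ n) : NoPr ((15 : ℕ) : ℤ) ((15 : ℕ) : ℤ) n 2 0 :=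
  BlkD.pair_sound (d := d15_15_2_0) (by decide +kernel) hn (by decide) (tr := t15_15_2_0)
    (by decide +kernel) rfl rfl rfl rfl

/-- the numbers of the pair `(2, 1)`, `R = 15`, `H = 15` -/
def d15_15_2_1 : BlkD.Pd :=
  ⟨15, 15, 3, 2, 1, 9, 1, 1, 0, 4, 4, 0, 0, 4, 4, 0, [0, 4, 8, 12, 16, 20, 24, 28, 32, 36], [0, 4,
    8, 12, 16, 20, 24, 28, 32, 36], [⟨1, 1, 1, 4, 8, [0, 4], [0, 4]⟩, ⟨1, 1, 1, 4, 8, [0, 4], [0,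
    4]⟩]⟩

/-- the certificates of the pair `(2, 1)` -/
def t15_15_2_1 : BlkD.Tr :=
  .S 0 2 (.S 2 1 (.L 3 3 [3, 4] [] [] 100000 0 0 500000 0 0 0 0 0 0 0) (.E 1)) (.E 0)

lemma pr15_15_2_1 {n : ℕ} (hn : 5 ≤ n) : NoPr ((15 : ℕ) : ℤ) ((15 : ℕ) : ℤ) n 2 1 :=
  BlkD.pair_sound (d := d15_15_2_1) (by decide +kernel) hn (by decide) (tr := t15_15_2_1)
    (by decide +kernel) rfl rfl rfl rfl

/-- the numbers of the pair `(2, 2)`, `R = 15`, `H = 15` -/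
def d15_15_2_2 : BlkD.Pd :=
  ⟨15, 15, 3, 2, 2, 8, 2, 1, 3, 1, 6, 0, 3, 1, 6, 0, [0, 6, 12, 17, 20, 23, 26, 29, 32], [0, 6, 12,
    17, 20, 23, 26, 29, 32], [⟨1, 1, 1, 4, 8, [0, 4], [0, 4]⟩, ⟨1, 1, 1, 4, 8, [0, 4], [0, 4]⟩, ⟨1,
    1, 1, 6, 12, [0, 6], [0, 6]⟩]⟩

/-- the certificates of the pair `(2, 2)` -/
def t15_15_2_2 : BlkD.Tr :=
  .S 0 2 (.S 2 2 (.L 3 3 [3, 4, 4] [] [] 100000 3685 3685 600000 0 0 34211 34211 28947 28947 34737)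
    (.E 1)) (.E 0)

lemma pr15_15_2_2 {n : ℕ} (hn : 5 ≤ n) : NoPr ((15 : ℕ) : ℤ) ((15 : ℕ) : ℤ) n 2 2 :=
  BlkD.pair_sound (d := d15_15_2_2) (by decide +kernel) hn (by decide) (tr := t15_15_2_2)
    (by decide +kernel) rfl rfl rfl rfl

/-- the numbers of the pair `(3, 0)`, `R = 15`, `H = 15` -/
def d15_15_3_0 : BlkD.Pd :=
  ⟨15, 15, 3, 3, 0, 9, 0, 1, 0, 4, 4, 0, 0, 4, 4, 0, [0, 4, 8, 12, 16, 20, 24, 28, 32, 36], [0, 4,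
    8, 12, 16, 20, 24, 28, 32, 36], [⟨1, 1, 1, 4, 8, [0, 4], [0, 4]⟩]⟩

/-- the certificates of the pair `(3, 0)` -/
def t15_15_3_0 : BlkD.Tr :=
  .S 0 3 (.S 2 0 (.L 3 3 [3] [] [] 100000 0 0 433334 0 0 33333 66667 0 0 0) (.E 1)) (.E 0)

lemma pr15_15_3_0 {n : ℕ} (hn : 5 ≤ n) : NoPr ((15 : ℕ) : ℤ) ((15 : ℕ) : ℤ) n 3 0 :=
  BlkD.pair_sound (d := d15_15_3_0) (by decide +kernel) hn (by decide) (tr := t15_15_3_0)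
    (by decide +kernel) rfl rfl rfl rfl

/-- the numbers of the pair `(3, 1)`, `R = 15`, `H = 15` -/
def d15_15_3_1 : BlkD.Pd :=
  ⟨15, 15, 3, 3, 1, 8, 1, 1, 0, 4, 6, 0, 0, 4, 4, 0, [0, 6, 12, 18, 24, 30, 32, 32, 32], [0, 4, 8,
    12, 16, 20, 24, 28, 32], [⟨1, 1, 1, 4, 8, [0, 4], [0, 4]⟩, ⟨1, 1, 1, 4, 10, [0, 6], [0, 4]⟩]⟩

/-- the certificates of the pair `(3, 1)` -/
def t15_15_3_1 : BlkD.Tr :=
  .S 0 3 (.S 2 1 (.L 3 3 [3, 4] [] [] 100000 0 0 600000 0 0 50000 0 0 0 0) (.E 1)) (.E 0)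

lemma pr15_15_3_1 {n : ℕ} (hn : 5 ≤ n) : NoPr ((15 : ℕ) : ℤ) ((15 : ℕ) : ℤ) n 3 1 :=
  BlkD.pair_sound (d := d15_15_3_1) (by decide +kernel) hn (by decide) (tr := t15_15_3_1)
    (by decide +kernel) rfl rfl rfl rfl

/-- the numbers of the pair `(3, 2)`, `R = 15`, `H = 15` -/
def d15_15_3_2 : BlkD.Pd :=
  ⟨15, 15, 3, 3, 2, 7, 2, 1, 2, 2, 6, 0, 3, 1, 6, 0, [0, 6, 12, 18, 22, 24, 26, 28], [0, 6, 12, 16,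
    19, 22, 25, 28], [⟨1, 1, 1, 4, 8, [0, 4], [0, 4]⟩, ⟨1, 1, 1, 4, 10, [0, 6], [0, 4]⟩, ⟨1, 1, 1,
    6, 12, [0, 6], [0, 6]⟩]⟩

/-- the certificates of the pair `(3, 2)` -/
def t15_15_3_2 : BlkD.Tr :=
  .S 0 3 (.S 2 2 (.L 3 4 [3, 4, 4] [] [] 100000 3795 3794 700005 0 0 50000 39286 21429 31548 39435)
    (.E 1)) (.E 0)

lemma pr15_15_3_2 {n : ℕ} (hn : 5 ≤ n) : NoPr ((15 : ℕ) : ℤ) ((15 : ℕ) : ℤ) n 3 2 :=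
  BlkD.pair_sound (d := d15_15_3_2) (by decide +kernel) hn (by decide) (tr := t15_15_3_2)
    (by decide +kernel) rfl rfl rfl rfl

/-- the numbers of the pair `(3, 3)`, `R = 15`, `H = 15` -/
def d15_15_3_3 : BlkD.Pd :=
  ⟨15, 15, 3, 3, 3, 6, 3, 1, 2, 2, 8, 0, 2, 2, 8, 0, [0, 8, 16, 18, 20, 22, 24], [0, 8, 16, 18, 20,
    22, 24], [⟨1, 1, 1, 4, 8, [0, 4], [0, 4]⟩, ⟨1, 1, 1, 4, 12, [0, 6], [0, 6]⟩, ⟨1, 1, 1, 4, 12,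
    [0, 6], [0, 6]⟩, ⟨1, 1, 1, 4, 16, [0, 8], [0, 8]⟩]⟩

/-- the certificates of the pair `(3, 3)` -/
def t15_15_3_3 : BlkD.Tr :=
  .S 0 3 (.S 2 3 (.L 4 4 [3, 4, 4, 4] [] [] 100000 16667 16667 800000 0 0 75000 75000 25000 25000
    25000) (.E 1)) (.E 0)

lemma pr15_15_3_3 {n : ℕ} (hn : 5 ≤ n) : NoPr ((15 : ℕ) : ℤ) ((15 : ℕ) : ℤ) n 3 3 :=
  BlkD.pair_sound (d := d15_15_3_3) (by decide +kernel) hn (by decide) (tr := t15_15_3_3)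
    (by decide +kernel) rfl rfl rfl rfl

/-- the numbers of the pair `(4, 0)`, `R = 15`, `H = 15` -/
def d15_15_4_0 : BlkD.Pd :=
  ⟨15, 15, 3, 4, 0, 8, 0, 1, 0, 4, 4, 0, 0, 4, 4, 0, [0, 4, 8, 12, 16, 20, 24, 28, 32], [0, 4, 8,
    12, 16, 20, 24, 28, 32], [⟨1, 1, 1, 4, 8, [0, 4], [0, 4]⟩]⟩

/-- the certificates of the pair `(4, 0)` -/
def t15_15_4_0 : BlkD.Tr :=
  .S 0 4 (.S 2 0 (.L 3 3 [3] [] [] 100000 0 0 525000 25000 0 50000 50000 0 0 0) (.E 1)) (.E 0)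

lemma pr15_15_4_0 {n : ℕ} (hn : 5 ≤ n) : NoPr ((15 : ℕ) : ℤ) ((15 : ℕ) : ℤ) n 4 0 :=
  BlkD.pair_sound (d := d15_15_4_0) (by decide +kernel) hn (by decide) (tr := t15_15_4_0)
    (by decide +kernel) rfl rfl rfl rfl

/-- the numbers of the pair `(4, 1)`, `R = 15`, `H = 15` -/
def d15_15_4_1 : BlkD.Pd :=
  ⟨15, 15, 3, 4, 1, 7, 1, 1, 2, 2, 6, 0, 0, 4, 4, 0, [0, 6, 12, 18, 22, 24, 26, 28], [0, 4, 8, 12,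
    16, 20, 24, 28], [⟨1, 1, 1, 4, 8, [0, 4], [0, 4]⟩, ⟨1, 1, 1, 4, 10, [0, 6], [0, 4]⟩]⟩

/-- the certificates of the pair `(4, 1)` -/
def t15_15_4_1 : BlkD.Tr :=
  .S 0 4 (.S 2 1 (.L 3 3 [3, 4] [] [] 100000 0 0 675000 25000 0 75000 0 0 0 0) (.E 1)) (.E 0)

lemma pr15_15_4_1 {n : ℕ} (hn : 5 ≤ n) : NoPr ((15 : ℕ) : ℤ) ((15 : ℕ) : ℤ) n 4 1 :=
  BlkD.pair_sound (d := d15_15_4_1) (by decide +kernel) hn (by decide) (tr := t15_15_4_1)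
    (by decide +kernel) rfl rfl rfl rfl

/-- the numbers of the pair `(4, 2)`, `R = 15`, `H = 15` -/
def d15_15_4_2 : BlkD.Pd :=
  ⟨15, 15, 3, 4, 2, 6, 2, 1, 2, 2, 8, 0, 3, 1, 6, 0, [0, 8, 16, 18, 20, 22, 24], [0, 6, 12, 15, 18,
    21, 24], [⟨1, 1, 1, 4, 8, [0, 4], [0, 4]⟩, ⟨1, 1, 1, 4, 10, [0, 6], [0, 4]⟩, ⟨1, 1, 1, 4, 14,
    [0, 8], [0, 6]⟩]⟩

/-- the certificates of the pair `(4, 2)` -/
def t15_15_4_2 : BlkD.Tr :=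
  .S 0 4 (.S 2 2 (.L 3 4 [3, 4, 4] [] [] 100000 8945 8945 857315 8537 0 60569 25610 13821 36585
    31707) (.E 1)) (.E 0)

lemma pr15_15_4_2 {n : ℕ} (hn : 5 ≤ n) : NoPr ((15 : ℕ) : ℤ) ((15 : ℕ) : ℤ) n 4 2 :=
  BlkD.pair_sound (d := d15_15_4_2) (by decide +kernel) hn (by decide) (tr := t15_15_4_2)
    (by decide +kernel) rfl rfl rfl rfl

/-- the numbers of the pair `(4, 3)`, `R = 15`, `H = 15` -/
def d15_15_4_3 : BlkD.Pd :=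
  ⟨15, 15, 3, 4, 3, 5, 2, 2, 2, 2, 8, 0, 2, 2, 6, 0, [0, 8, 14, 16, 18, 20], [0, 6, 12, 16, 18,
    20], [⟨1, 1, 1, 4, 8, [0, 4], [0, 4]⟩, ⟨1, 1, 1, 4, 12, [0, 6], [0, 6]⟩, ⟨1, 1, 1, 4, 14, [0,
    8], [0, 6]⟩]⟩

/-- the certificates of the pair `(4, 3)` -/
def t15_15_4_3 : BlkD.Tr :=
  .S 0 4 (.S 2 3 (.L 4 4 [3, 4, 4, 15] [] [] 100000 7194 7194 982456 3509 1754 77544 49123 17193
    19298 49123) (.E 1)) (.E 0)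

lemma pr15_15_4_3 {n : ℕ} (hn : 5 ≤ n) : NoPr ((15 : ℕ) : ℤ) ((15 : ℕ) : ℤ) n 4 3 :=
  BlkD.pair_sound (d := d15_15_4_3) (by decide +kernel) hn (by decide) (tr := t15_15_4_3)
    (by decide +kernel) rfl rfl rfl rfl

/-- the numbers of the pair `(4, 4)`, `R = 15`, `H = 15` -/
def d15_15_4_4 : BlkD.Pd :=
  ⟨15, 15, 3, 4, 4, 4, 1, 2, 2, 2, 6, 0, 2, 2, 6, 0, [0, 6, 12, 14, 16], [0, 6, 12, 14, 16], [⟨1,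
    1, 1, 4, 8, [0, 4], [0, 4]⟩, ⟨1, 1, 1, 4, 12, [0, 6], [0, 6]⟩]⟩

/-- the certificates of the pair `(4, 4)` -/
def t15_15_4_4 : BlkD.Tr :=
  .S 0 4 (.S 2 4 (.L 3 3 [3, 4, 15, 15, 15] [] [] 100000 16000 16000 1080000 0 24000 48000 72000
    8000 0 0) (.E 1)) (.E 0)

lemma pr15_15_4_4 {n : ℕ} (hn : 5 ≤ n) : NoPr ((15 : ℕ) : ℤ) ((15 : ℕ) : ℤ) n 4 4 :=
  BlkD.pair_sound (d := d15_15_4_4) (by decide +kernel) hn (by decide) (tr := t15_15_4_4)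
    (by decide +kernel) rfl rfl rfl rfl

/-- the numbers of the pair `(5, 0)`, `R = 15`, `H = 15` -/
def d15_15_5_0 : BlkD.Pd :=
  ⟨15, 15, 3, 5, 0, 7, 0, 1, 0, 4, 4, 0, 0, 4, 4, 0, [0, 4, 8, 12, 16, 20, 24, 28], [0, 4, 8, 12,
    16, 20, 24, 28], [⟨1, 1, 1, 4, 8, [0, 4], [0, 4]⟩]⟩

/-- the certificates of the pair `(5, 0)` -/
def t15_15_5_0 : BlkD.Tr :=
  .S 0 5 (.S 2 0 (.L 3 3 [3] [] [] 100000 0 0 625000 50000 0 75000 25000 0 0 0) (.E 1)) (.E 0)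

lemma pr15_15_5_0 {n : ℕ} (hn : 5 ≤ n) : NoPr ((15 : ℕ) : ℤ) ((15 : ℕ) : ℤ) n 5 0 :=
  BlkD.pair_sound (d := d15_15_5_0) (by decide +kernel) hn (by decide) (tr := t15_15_5_0)
    (by decide +kernel) rfl rfl rfl rfl

/-- the numbers of the pair `(5, 1)`, `R = 15`, `H = 15` -/
def d15_15_5_1 : BlkD.Pd :=
  ⟨15, 15, 3, 5, 1, 6, 1, 1, 2, 2, 6, 0, 0, 4, 4, 0, [0, 6, 12, 18, 20, 22, 24], [0, 4, 8, 12, 16,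
    20, 24], [⟨1, 1, 1, 4, 8, [0, 4], [0, 4]⟩, ⟨1, 1, 1, 4, 10, [0, 6], [0, 4]⟩]⟩

/-- the certificates of the pair `(5, 1)` -/
def t15_15_5_1 : BlkD.Tr :=
  .S 0 5 (.S 2 1 (.L 3 4 [3, 4] [] [] 100000 1 0 833332 16667 16667 83333 16667 0 0 0) (.E 1)) (.E
    0)

lemma pr15_15_5_1 {n : ℕ} (hn : 5 ≤ n) : NoPr ((15 : ℕ) : ℤ) ((15 : ℕ) : ℤ) n 5 1 :=
  BlkD.pair_sound (d := d15_15_5_1) (by decide +kernel) hn (by decide) (tr := t15_15_5_1)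
    (by decide +kernel) rfl rfl rfl rfl

/-- the numbers of the pair `(5, 2)`, `R = 15`, `H = 15` -/
def d15_15_5_2 : BlkD.Pd :=
  ⟨15, 15, 3, 5, 2, 5, 2, 1, 2, 2, 8, 0, 3, 1, 6, 0, [0, 8, 14, 16, 18, 20], [0, 6, 11, 14, 17,
    20], [⟨1, 1, 1, 4, 8, [0, 4], [0, 4]⟩, ⟨1, 1, 1, 4, 10, [0, 6], [0, 4]⟩, ⟨1, 1, 1, 4, 14, [0,
    8], [0, 6]⟩]⟩

/-- the certificates of the pair `(5, 2)` -/
def t15_15_5_2 : BlkD.Tr :=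
  .S 0 5 (.S 2 2 (.S 0 2 (.L 3 5 [3, 4, 4] [] [] 100000 35264 35264 894738 26316 0 73684 44211 5263
    29474 26316) (.L 3 5 [3, 4, 4] [] [] 100000 1 1 991732 2756 0 81890 45276 18110 36614 45276))
    (.E 1)) (.E 0)

lemma pr15_15_5_2 {n : ℕ} (hn : 5 ≤ n) : NoPr ((15 : ℕ) : ℤ) ((15 : ℕ) : ℤ) n 5 2 :=
  BlkD.pair_sound (d := d15_15_5_2) (by decide +kernel) hn (by decide) (tr := t15_15_5_2)
    (by decide +kernel) rfl rfl rfl rfl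

/-- the numbers of the pair `(5, 3)`, `R = 15`, `H = 15` -/
def d15_15_5_3 : BlkD.Pd :=
  ⟨15, 15, 3, 5, 3, 4, 1, 2, 2, 2, 6, 0, 2, 2, 6, 0, [0, 6, 12, 14, 16], [0, 6, 12, 14, 16], [⟨1,
    1, 1, 4, 8, [0, 4], [0, 4]⟩, ⟨1, 1, 1, 4, 12, [0, 6], [0, 6]⟩]⟩

/-- the certificates of the pair `(5, 3)` -/
def t15_15_5_3 : BlkD.Tr :=
  .S 0 5 (.S 2 3 (.S 0 2 (.L 3 4 [3, 4, 15, 15] [] [] 100000 125000 125000 950000 50000 0 75000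
    50000 0 0 0) (.S 0 4 (.S 0 3 (.L 3 4 [3, 4, 15, 15] [] [] 100000 2 2 1092856 14286 0 64286
    50000 0 14286 0) (.L 3 4 [3, 4, 15, 15] [] [] 100000 0 0 1073554 7438 11570 59504 46281 0 11570
    0)) (.L 3 4 [3, 4, 15, 15] [] [] 100000 1 1 1000001 0 16667 66667 83333 0 16667 0))) (.E 1))
    (.E 0)

lemma pr15_15_5_3 {n : ℕ} (hn : 5 ≤ n) : NoPr ((15 : ℕ) : ℤ) ((15 : ℕ) : ℤ) n 5 3 :=
  BlkD.pair_sound (d := d15_15_5_3) (by decide +kernel) hn (by decide) (tr := t15_15_5_3)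
    (by decide +kernel) rfl rfl rfl rfl

/-- the numbers of the pair `(5, 4)`, `R = 15`, `H = 15` -/
def d15_15_5_4 : BlkD.Pd :=
  ⟨15, 15, 3, 5, 4, 3, 0, 2, 0, 4, 4, 0, 0, 4, 4, 0, [0, 4, 8, 12], [0, 4, 8, 12], [⟨1, 1, 1, 4, 8,
    [0, 4], [0, 4]⟩]⟩

/-- the certificates of the pair `(5, 4)` -/
def t15_15_5_4 : BlkD.Tr :=
  .S 0 5 (.S 2 4 (.L 3 3 [3, 15, 15, 15, 15] [] [] 100000 0 0 1100000 50000 50000 66667 50000 0 0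
    0) (.E 1)) (.E 0)

lemma pr15_15_5_4 {n : ℕ} (hn : 5 ≤ n) : NoPr ((15 : ℕ) : ℤ) ((15 : ℕ) : ℤ) n 5 4 :=
  BlkD.pair_sound (d := d15_15_5_4) (by decide +kernel) hn (by decide) (tr := t15_15_5_4)
    (by decide +kernel) rfl rfl rfl rfl

/-- the numbers of the pair `(6, 0)`, `R = 15`, `H = 15` -/
def d15_15_6_0 : BlkD.Pd :=
  ⟨15, 15, 3, 6, 0, 6, 0, 1, 0, 4, 4, 0, 0, 4, 4, 0, [0, 4, 8, 12, 16, 20, 24], [0, 4, 8, 12, 16,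
    20, 24], [⟨1, 1, 1, 4, 8, [0, 4], [0, 4]⟩]⟩

/-- the certificates of the pair `(6, 0)` -/
def t15_15_6_0 : BlkD.Tr :=
  .S 0 6 (.S 2 0 (.L 3 3 [3] [] [] 100000 0 0 757144 42857 0 71429 28571 0 0 0) (.E 1)) (.E 0)

lemma pr15_15_6_0 {n : ℕ} (hn : 5 ≤ n) : NoPr ((15 : ℕ) : ℤ) ((15 : ℕ) : ℤ) n 6 0 :=
  BlkD.pair_sound (d := d15_15_6_0) (by decide +kernel) hn (by decide) (tr := t15_15_6_0)
    (by decide +kernel) rfl rfl rfl rfl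

/-- the numbers of the pair `(6, 1)`, `R = 15`, `H = 15` -/
def d15_15_6_1 : BlkD.Pd :=
  ⟨15, 15, 3, 6, 1, 5, 1, 1, 2, 2, 6, 0, 0, 4, 4, 0, [0, 6, 12, 16, 18, 20], [0, 4, 8, 12, 16, 20],
    [⟨1, 1, 1, 4, 8, [0, 4], [0, 4]⟩, ⟨1, 1, 1, 4, 10, [0, 6], [0, 4]⟩]⟩

/-- the certificates of the pair `(6, 1)` -/
def t15_15_6_1 : BlkD.Tr :=
  .S 0 6 (.S 2 1 (.S 0 3 (.L 3 4 [3, 4] [] [] 100000 0 0 900002 33333 0 100000 0 0 0 0) (.S 0 5 (.S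
    0 4 (.L 3 4 [3, 4] [] [] 100000 0 0 975000 25000 0 62500 0 0 0 0) (.L 3 4 [3, 4] [] [] 100000 0
    0 940000 20000 0 60000 0 0 0 0)) (.L 3 4 [3, 4] [] [] 100000 2 2 900000 16667 0 83333 0 0 0
    0))) (.E 1)) (.E 0)

lemma pr15_15_6_1 {n : ℕ} (hn : 5 ≤ n) : NoPr ((15 : ℕ) : ℤ) ((15 : ℕ) : ℤ) n 6 1 :=
  BlkD.pair_sound (d := d15_15_6_1) (by decide +kernel) hn (by decide) (tr := t15_15_6_1)
    (by decide +kernel) rfl rfl rfl rfl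

/-- the numbers of the pair `(6, 2)`, `R = 15`, `H = 15` -/
def d15_15_6_2 : BlkD.Pd :=
  ⟨15, 15, 3, 6, 2, 4, 1, 2, 2, 2, 6, 0, 0, 4, 4, 0, [0, 6, 12, 14, 16], [0, 4, 8, 12, 16], [⟨1, 1,
    1, 4, 8, [0, 4], [0, 4]⟩, ⟨1, 1, 1, 4, 10, [0, 6], [0, 4]⟩]⟩

/-- the certificates of the pair `(6, 2)` -/
def t15_15_6_2 : BlkD.Tr :=
  .S 0 6 (.S 2 2 (.S 0 3 (.L 4 5 [3, 3, 15] [] [] 100000 77779 77779 955555 55556 0 77778 33333 0 0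
    0) (.S 0 5 (.S 0 4 (.S 1 11 (.S 1 5 (.S 1 2 (.L 4 5 [3, 3, 15] [] [] 100000 0 0 900000 50000 0
    50000 0 0 0 0) (.S 1 4 (.L 4 5 [3, 3, 15] [] [] 100000 0 0 1025000 25000 0 37500 75000 0 0 0)
    (.L 4 5 [3, 3, 15] [88, 86, 80, 74, 68, 60] [] 100000 50000 50000 1000001 50000 0 66667 33333 0
    0 0))) (.S 1 8 (.S 1 7 (.S 1 6 (.L 4 5 [3, 3, 15] [108, 106, 104, 98, 92, 86] [] 100000 75000
    75000 975000 50000 0 100000 25000 0 0 0) (.L 4 5 [3, 3, 15] [130, 128, 126, 124, 118, 112] []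
    100000 100000 0 600000 100000 0 200000 0 0 0 0)) (.L 4 5 [3, 3, 15] [154, 152, 150, 148, 146,
    140] [] 100000 250000 0 0 0 0 350000 0 0 0 0)) (.E 0))) (.E 0)) (.L 4 5 [3, 3, 15] [] [] 100000
    0 0 1062500 18750 0 93750 12500 0 0 0)) (.L 4 5 [3, 3, 15] [] [] 100000 1 1 1000001 14286 0
    85714 28571 0 0 0))) (.E 1)) (.E 0)

lemma pr15_15_6_2 {n : ℕ} (hn : 5 ≤ n) : NoPr ((15 : ℕ) : ℤ) ((15 : ℕ) : ℤ) n 6 2 :=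
  BlkD.pair_sound (d := d15_15_6_2) (by decide +kernel) hn (by decide) (tr := t15_15_6_2)
    (by decide +kernel) rfl rfl rfl rfl

/-- the numbers of the pair `(6, 3)`, `R = 15`, `H = 15` -/
def d15_15_6_3 : BlkD.Pd :=
  ⟨15, 15, 3, 6, 3, 3, 0, 2, 0, 4, 4, 0, 0, 4, 4, 0, [0, 4, 8, 12], [0, 4, 8, 12], [⟨1, 1, 1, 4, 8,
    [0, 4], [0, 4]⟩]⟩

/-- the certificates of the pair `(6, 3)` -/
def t15_15_6_3 : BlkD.Tr :=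
  .S 0 6 (.S 2 3 (.L 3 3 [3, 15, 15, 15] [] [] 100000 0 0 1100000 50000 25000 100000 50000 0 0 0)
    (.E 1)) (.E 0)

lemma pr15_15_6_3 {n : ℕ} (hn : 5 ≤ n) : NoPr ((15 : ℕ) : ℤ) ((15 : ℕ) : ℤ) n 6 3 :=
  BlkD.pair_sound (d := d15_15_6_3) (by decide +kernel) hn (by decide) (tr := t15_15_6_3)
    (by decide +kernel) rfl rfl rfl rfl

/-- the numbers of the pair `(7, 0)`, `R = 15`, `H = 15` -/
def d15_15_7_0 : BlkD.Pd :=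
  ⟨15, 15, 3, 7, 0, 5, 0, 1, 0, 4, 4, 0, 0, 4, 4, 0, [0, 4, 8, 12, 16, 20], [0, 4, 8, 12, 16, 20],
    [⟨1, 1, 1, 4, 8, [0, 4], [0, 4]⟩]⟩

/-- the certificates of the pair `(7, 0)` -/
def t15_15_7_0 : BlkD.Tr :=
  .S 0 7 (.S 2 0 (.L 3 3 [3] [] [] 100000 0 0 800000 100000 0 100000 0 0 0 0) (.E 1)) (.E 0)

lemma pr15_15_7_0 {n : ℕ} (hn : 5 ≤ n) : NoPr ((15 : ℕ) : ℤ) ((15 : ℕ) : ℤ) n 7 0 :=
  BlkD.pair_sound (d := d15_15_7_0) (by decide +kernel) hn (by decide) (tr := t15_15_7_0)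
    (by decide +kernel) rfl rfl rfl rfl

/-- the numbers of the pair `(7, 1)`, `R = 15`, `H = 15` -/
def d15_15_7_1 : BlkD.Pd :=
  ⟨15, 15, 3, 7, 1, 4, 1, 1, 2, 2, 6, 0, 0, 4, 4, 0, [0, 6, 12, 14, 16], [0, 4, 8, 12, 16], [⟨1, 1,
    1, 4, 8, [0, 4], [0, 4]⟩, ⟨1, 1, 1, 4, 10, [0, 6], [0, 4]⟩]⟩

/-- the certificates of the pair `(7, 1)` -/
def t15_15_7_1 : BlkD.Tr :=
  .S 0 7 (.S 2 1 (.S 0 3 (.L 4 5 [3, 3] [] [] 100000 200000 200000 700000 100000 0 100000 0 0 0 0)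
    (.S 0 5 (.S 0 4 (.L 3 4 [3, 4] [] [] 100000 166668 166668 900000 66667 0 100000 0 0 0 0) (.S 1
    10 (.S 1 5 (.S 1 2 (.L 3 4 [3, 4] [] [] 100000 0 0 800000 50000 0 50000 0 0 0 0) (.S 1 4 (.L 3
    4 [3, 4] [] [] 100000 0 0 1000000 25000 0 25000 0 0 0 0) (.L 3 4 [3, 4] [92, 90, 88, 82, 76,
    70] [] 100000 100000 100000 950000 50000 0 75000 0 0 0 0))) (.S 1 8 (.S 1 7 (.S 1 6 (.S 2 0 (.L
    4 5 [3, 3] [114, 112, 110, 108, 102, 96] [] 100000 28571 28571 1028572 42857 0 57143 42857 0 0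
    0) (.L 3 4 [3, 4] [114, 112, 110, 108, 102, 96] [] 100000 300000 300000 700000 100000 0 100000
    0 0 0 0)) (.L 3 4 [3, 4] [138, 136, 134, 132, 130, 124] [] 100000 40000 40000 1000000 40000 0
    100000 0 0 20000 20000)) (.L 3 4 [3, 4] [164, 162, 160, 158, 156, 154] [] 100000 50000 50000
    950000 50000 0 100000 0 0 0 0)) (.S 1 9 (.L 3 4 [3, 4] [192, 190, 188, 186, 184, 182] [] 100000
    200000 200000 800000 100000 0 100000 0 0 0 0) (.L 3 4 [3, 4] [222, 220, 218, 216, 214, 212] []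
    100000 172729 2 0 136364 0 272727 0 0 0 0)))) (.E 0))) (.S 0 6 (.S 1 9 (.S 1 4 (.L 4 5 [3, 3]
    [] [] 100000 1 1 1082352 29412 0 82353 0 17647 0 0) (.L 4 5 [3, 3] [] [] 100000 2 2 1049999
    16667 0 100000 0 0 0 0)) (.E 0)) (.L 4 5 [3, 3] [] [] 100000 0 0 1065519 17241 0 79310 0 20690
    0 0)))) (.E 1)) (.E 0)

lemma pr15_15_7_1 {n : ℕ} (hn : 5 ≤ n) : NoPr ((15 : ℕ) : ℤ) ((15 : ℕ) : ℤ) n 7 1 :=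
  BlkD.pair_sound (d := d15_15_7_1) (by decide +kernel) hn (by decide) (tr := t15_15_7_1)
    (by decide +kernel) rfl rfl rfl rfl

/-- the numbers of the pair `(7, 2)`, `R = 15`, `H = 15` -/
def d15_15_7_2 : BlkD.Pd :=
  ⟨15, 15, 3, 7, 2, 3, 0, 2, 0, 4, 4, 0, 0, 4, 4, 0, [0, 4, 8, 12], [0, 4, 8, 12], [⟨1, 1, 1, 4, 8,
    [0, 4], [0, 4]⟩]⟩

/-- the certificates of the pair `(7, 2)` -/
def t15_15_7_2 : BlkD.Tr :=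
  .S 0 7 (.S 2 2 (.L 3 3 [3, 15, 15] [] [] 100000 0 0 1100000 100000 0 100000 0 0 0 0) (.E 1)) (.E
    0)

lemma pr15_15_7_2 {n : ℕ} (hn : 5 ≤ n) : NoPr ((15 : ℕ) : ℤ) ((15 : ℕ) : ℤ) n 7 2 :=
  BlkD.pair_sound (d := d15_15_7_2) (by decide +kernel) hn (by decide) (tr := t15_15_7_2)
    (by decide +kernel) rfl rfl rfl rfl

/-- the numbers of the pair `(8, 0)`, `R = 15`, `H = 15` -/
def d15_15_8_0 : BlkD.Pd :=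
  ⟨15, 15, 3, 8, 0, 4, 0, 1, 0, 4, 4, 0, 0, 4, 4, 0, [0, 4, 8, 12, 16], [0, 4, 8, 12, 16], [⟨1, 1,
    1, 4, 8, [0, 4], [0, 4]⟩]⟩

/-- the certificates of the pair `(8, 0)` -/
def t15_15_8_0 : BlkD.Tr :=
  .S 0 8 (.S 2 0 (.L 3 3 [3] [] [] 100000 0 0 900000 100000 0 100000 0 0 0 0) (.E 1)) (.E 0)

lemma pr15_15_8_0 {n : ℕ} (hn : 5 ≤ n) : NoPr ((15 : ℕ) : ℤ) ((15 : ℕ) : ℤ) n 8 0 :=
  BlkD.pair_sound (d := d15_15_8_0) (by decide +kernel) hn (by decide) (tr := t15_15_8_0)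
    (by decide +kernel) rfl rfl rfl rfl

/-- the numbers of the pair `(8, 1)`, `R = 15`, `H = 15` -/
def d15_15_8_1 : BlkD.Pd :=
  ⟨15, 15, 3, 8, 1, 3, 0, 1, 0, 4, 4, 0, 0, 4, 4, 0, [0, 4, 8, 12], [0, 4, 8, 12], [⟨1, 1, 1, 4, 8,
    [0, 4], [0, 4]⟩]⟩

/-- the certificates of the pair `(8, 1)` -/
def t15_15_8_1 : BlkD.Tr :=
  .S 0 8 (.S 2 1 (.L 3 3 [3, 15] [] [] 100000 0 0 1100000 80000 0 80000 0 0 0 0) (.E 1)) (.E 0)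

lemma pr15_15_8_1 {n : ℕ} (hn : 5 ≤ n) : NoPr ((15 : ℕ) : ℤ) ((15 : ℕ) : ℤ) n 8 1 :=
  BlkD.pair_sound (d := d15_15_8_1) (by decide +kernel) hn (by decide) (tr := t15_15_8_1)
    (by decide +kernel) rfl rfl rfl rfl

/-- the numbers of the pair `(9, 0)`, `R = 15`, `H = 15` -/
def d15_15_9_0 : BlkD.Pd :=
  ⟨15, 15, 3, 9, 0, 3, 0, 1, 0, 4, 4, 0, 0, 4, 4, 0, [0, 4, 8, 12], [0, 4, 8, 12], [⟨1, 1, 1, 4, 8,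
    [0, 4], [0, 4]⟩]⟩

/-- the certificates of the pair `(9, 0)` -/
def t15_15_9_0 : BlkD.Tr :=
  .S 0 9 (.S 2 0 (.L 3 3 [3] [] [] 100000 0 0 1000000 100000 0 100000 0 0 0 0) (.E 1)) (.E 0)

lemma pr15_15_9_0 {n : ℕ} (hn : 5 ≤ n) : NoPr ((15 : ℕ) : ℤ) ((15 : ℕ) : ℤ) n 9 0 :=
  BlkD.pair_sound (d := d15_15_9_0) (by decide +kernel) hn (by decide) (tr := t15_15_9_0)
    (by decide +kernel) rfl rfl rfl rfl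

end BlkC

end Pool.Agent.Lib.MP_f04ccf_co
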