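import Pool.Agent.Lib.MP_f04ccf_co.M.BlkT

/-!
MP_f04ccf_co, block certificate, data `R = 16`, `H = 17`, part 1 (generated, helper99, bd9.cpp, gen.py):
the pairs (5, 5), (6, 4).
-/

set_option autoImplicit false
set_option maxRecDepth 100000

namespace Pool.Agent.Lib.MP_f04ccf_co

namespace BlkC

/-- the numbers of the pair `(5, 5)`, `R = 16`, `H = 17` -/
def d16_17_5_5 : BlkD.Pd :=
  ⟨16, 17, 4, 5, 5, 4, 0, 3, 0, 4, 4, 0, 0, 4, 4, 0, [0, 4, 8, 12, 16], [0, 4, 8, 12, 16], [⟨1, 1,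
    1, 4, 8, [0, 4], [0, 4]⟩]⟩

/-- the certificates of the pair `(5, 5)` -/
def t16_17_5_5 : BlkD.Tr :=
  .S 0 5 (.S 2 5 (.L 3 3 [4, 16, 16, 16, 16, 16] [] [] 100000 0 0 1200000 50000 50000 50000 50000 0
    0 0) (.E 1)) (.E 0)

lemma pr16_17_5_5 {n : ℕ} (hn : 6 ≤ n) : NoPr ((16 : ℕ) : ℤ) ((17 : ℕ) : ℤ) n 5 5 :=
  BlkD.pair_sound (d := d16_17_5_5) (by decide +kernel) hn (by decide) (tr := t16_17_5_5)
    (by decide +kernel) rfl rfl rfl rfl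

/-- the numbers of the pair `(6, 4)`, `R = 16`, `H = 17` -/
def d16_17_6_4 : BlkD.Pd :=
  ⟨16, 17, 4, 6, 4, 4, 0, 3, 0, 4, 4, 0, 0, 4, 4, 0, [0, 4, 8, 12, 16], [0, 4, 8, 12, 16], [⟨1, 1,
    1, 4, 8, [0, 4], [0, 4]⟩]⟩

/-- the certificates of the pair `(6, 4)` -/
def t16_17_6_4 : BlkD.Tr :=
  .S 0 6 (.S 2 4 (.L 3 3 [4, 16, 16, 16, 16] [] [] 100000 0 0 1200000 50000 50000 100000 50000 0 0
    0) (.E 1)) (.E 0)

lemma pr16_17_6_4 {n : ℕ} (hn : 6 ≤ n) : NoPr ((16 : ℕ) : ℤ) ((17 : ℕ) : ℤ) n 6 4 :=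
  BlkD.pair_sound (d := d16_17_6_4) (by decide +kernel) hn (by decide) (tr := t16_17_6_4)
    (by decide +kernel) rfl rfl rfl rfl

end BlkC

end Pool.Agent.Lib.MP_f04ccf_co
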