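import Pool.Agent.Lib.MP_f04ccf_co.M.FinQ

/-!
MP_f04ccf_co, PLAN W, finite part: `R = 16`, `n = 12` rows, `∑ h ≤ 17` (loads).
Generated (helper11, gen.py, mk4.py): the table of all rows `(t, h, mu, b)` which pass the row filter `Kern.okE`,
`b` a bound for `h - t` on the rest of the table; the enumeration in blocks of first rows with the leaf
`(Le.ld4 16 12)`, checked by the kernel.
-/

set_option autoImplicit false

namespace Pool.Agent.Lib.MP_f04ccf_co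

namespace FinK

/-- the table -/
def gs16_12_17 : List (ℕ × List (ℕ × ℕ × ℕ × ℕ)) :=
  [(4, [(4, 7, 7, 3), (4, 7, 6, 3), (4, 6, 6, 3), (4, 6, 5, 3), (4, 6, 4, 3), (4, 6, 3, 3),
    (4, 5, 5, 3), (4, 5, 4, 3), (4, 5, 3, 3), (4, 5, 2, 3), (4, 5, 1, 3), (4, 4, 4, 3),
    (4, 4, 3, 3), (4, 4, 2, 3), (4, 4, 1, 3), (4, 4, 0, 3), (4, 3, 3, 3), (4, 3, 2, 3),
    (4, 3, 1, 3), (4, 3, 0, 3), (4, 2, 2, 3), (4, 2, 1, 3), (4, 2, 0, 3), (4, 1, 1, 3),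
    (4, 1, 0, 3), (4, 0, 0, 3)]),
  (3, [(3, 6, 6, 3), (3, 5, 5, 2), (3, 5, 4, 2), (3, 5, 3, 2), (3, 4, 4, 2), (3, 4, 3, 2),
    (3, 4, 2, 2), (3, 4, 1, 2), (3, 3, 3, 2), (3, 3, 2, 2), (3, 3, 1, 2), (3, 3, 0, 2),
    (3, 2, 2, 2), (3, 2, 1, 2), (3, 2, 0, 2), (3, 1, 1, 2), (3, 1, 0, 2), (3, 0, 0, 2)]),
  (2, [(2, 4, 4, 2), (2, 3, 3, 1), (2, 3, 2, 1), (2, 3, 1, 1), (2, 2, 2, 1), (2, 2, 1, 1),
    (2, 2, 0, 1), (2, 1, 1, 1), (2, 1, 0, 1), (2, 0, 0, 1)]),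
  (1, [(1, 2, 2, 1), (1, 2, 1, 1), (1, 1, 1, 1), (1, 1, 0, 1), (1, 0, 0, 1)]),
  (0, [(0, 1, 1, 1), (0, 0, 0, 0)])]

/-- the squares `kf t ^ 2` are larger than `t (M - t) + 1` -/
def kf16_12_17 (t : ℕ) : ℕ := ([2, 3, 3, 3, 2] : List ℕ).getD t 0

lemma ok16_12_17 : Kern.okF 16 4 = true ∧ Kern.okK 4 kf16_12_17 = true ∧
    Kern.srt (Kern.keyF 18) (Kern.flt gs16_12_17) = true ∧
    Kern.allTab 4 17 17 (Kern.okE 16 4 kf16_12_17)
      (fun a b c => (Kern.lookF (Kern.flt gs16_12_17) a b c).isSome) = true := by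
  decide +kernel

/-- a block -/
noncomputable def bk16_12_17 (j p k : ℕ) : Bool :=
  Kern.blk (fun a : ℕ × ℕ × ℕ × ℕ => a.1) (fun a => a.2.1) (fun a => a.2.2.2) (fun _ => 0)
    (fun _ => 0) (fun _ => 0) 4 17 13 (fun l => (Le.ld4 16 12) (Kern.revT l)) 11 gs16_12_17 j p k

lemma b16_12_17_0_0 : bk16_12_17 0 0 26 = true := by decide +kernel

lemma b16_12_17_1_0 : bk16_12_17 1 0 18 = true := by decide +kernel

lemma b16_12_17_2_0 : bk16_12_17 2 0 10 = true := by decide +kernel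

lemma b16_12_17_3_0 : bk16_12_17 3 0 5 = true := by decide +kernel

lemma b16_12_17_4_0 : bk16_12_17 4 0 2 = true := by decide +kernel

lemma c16_12_17_0 : bk16_12_17 0 0 26 = true := b16_12_17_0_0

lemma c16_12_17_1 : bk16_12_17 1 0 18 = true := b16_12_17_1_0

lemma c16_12_17_2 : bk16_12_17 2 0 10 = true := b16_12_17_2_0

lemma c16_12_17_3 : bk16_12_17 3 0 5 = true := b16_12_17_3_0

lemma c16_12_17_4 : bk16_12_17 4 0 2 = true := b16_12_17_4_0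

lemma e16_12_17 : Kern.EnS (fun a : ℕ × ℕ × ℕ × ℕ => a.1) (fun a => a.2.1) (fun _ => 0) (fun _ => 0)
    4 17 (12 + 1) (fun l => (Le.ld4 16 12) (Kern.revT l)) (11 + 1) (Kern.flt gs16_12_17) := by
  refine Kern.EnS.of_blk (b := fun a => a.2.2.2) (bg := fun _ => 0) (by decide +kernel) fun j hj => ?_
  have hj' : j < 5 := hj
  interval_cases j
  · exact c16_12_17_0
  · exact c16_12_17_1
  · exact c16_12_17_2
  · exact c16_12_17_3
  · exact c16_12_17_4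

theorem part16_12_17 : PartC ((16 : ℕ) : ℤ) 17 12 (Le.ld4 16 12) := by
  obtain ⟨h1, h2, h3, h4⟩ := ok16_12_17
  exact PartC.enumS (N := 18) (by norm_num) (by norm_num) h1 h2 h3 h4 e16_12_17

end FinK

/-- **`R = 16`, `n = 12`, `∑ h ≤ 17`: no items** -/
theorem noItC16_12_17 : NoItC 16 17 12 :=
  NoItC.of_l4 (by norm_num) (by norm_num) FinK.part16_12_17

end Pool.Agent.Lib.MP_f04ccf_co
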