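import Pool.Agent.Lib.MP_f04ccf_co.M.FinB16_6t

/-!
MP_f04ccf_co, PLAN W, finite part: `R = 16`, `n = 6` rows, `∑ h ≤ 17` (loads, second form).
Generated (gen.py, mk4.py): blocks of first rows, part 12 of 15.
-/

set_option autoImplicit false

namespace Pool.Agent.Lib.MP_f04ccf_co

namespace FinK

lemma b16_6_17_7_19 : bk16_6_17 7 19 1 = true := by decide +kernel

lemma b16_6_17_7_20 : bk16_6_17 7 20 1 = true := by decide +kernel

lemma b16_6_17_7_21 : bk16_6_17 7 21 1 = true := by decide +kernel

end FinK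

end Pool.Agent.Lib.MP_f04ccf_co
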