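import Pool.Agent.Lib.MP_f04ccf_co.M.FinB16_6t

/-!
MP_f04ccf_co, PLAN W, finite part: `R = 16`, `n = 6` rows, `∑ h ≤ 17` (loads, second form).
Generated (gen.py, mk4.py): blocks of first rows, part 14 of 15.
-/

set_option autoImplicit false

namespace Pool.Agent.Lib.MP_f04ccf_co

namespace FinK

lemma b16_6_17_7_26 : bk16_6_17 7 26 1 = true := by decide +kernel

lemma b16_6_17_7_27 : bk16_6_17 7 27 1 = true := by decide +kernel

lemma b16_6_17_7_28 : bk16_6_17 7 28 1 = true := by decide +kernel

lemma b16_6_17_7_29 : bk16_6_17 7 29 1 = true := by decide +kernel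

lemma b16_6_17_7_30 : bk16_6_17 7 30 1 = true := by decide +kernel

lemma b16_6_17_7_31 : bk16_6_17 7 31 1 = true := by decide +kernel

lemma b16_6_17_7_32 : bk16_6_17 7 32 1 = true := by decide +kernel

lemma b16_6_17_7_33 : bk16_6_17 7 33 2 = true := by decide +kernel

end FinK

end Pool.Agent.Lib.MP_f04ccf_co
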