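import Pool.Agent.Lib.MP_f04ccf_co.M.FinB16_6t

/-!
MP_f04ccf_co, PLAN W, finite part: `R = 16`, `n = 6` rows, `∑ h ≤ 17` (loads, second form).
Generated (gen.py, mk4.py): blocks of first rows, part 15 of 15.
-/

set_option autoImplicit false

namespace Pool.Agent.Lib.MP_f04ccf_co

namespace FinK

lemma b16_6_17_7_35 : bk16_6_17 7 35 2 = true := by decide +kernel

lemma b16_6_17_7_37 : bk16_6_17 7 37 4 = true := by decide +kernel

lemma b16_6_17_7_41 : bk16_6_17 7 41 2 = true := by decide +kernel

lemma b16_6_17_8_0 : bk16_6_17 8 0 3 = true := by decide +kernel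

lemma b16_6_17_8_3 : bk16_6_17 8 3 1 = true := by decide +kernel

lemma b16_6_17_8_4 : bk16_6_17 8 4 1 = true := by decide +kernel

lemma b16_6_17_8_5 : bk16_6_17 8 5 1 = true := by decide +kernel

lemma b16_6_17_8_6 : bk16_6_17 8 6 2 = true := by decide +kernel

lemma b16_6_17_8_8 : bk16_6_17 8 8 10 = true := by decide +kernel

lemma b16_6_17_9_0 : bk16_6_17 9 0 5 = true := by decide +kernel

lemma b16_6_17_10_0 : bk16_6_17 10 0 2 = true := by decide +kernel

end FinK

end Pool.Agent.Lib.MP_f04ccf_co
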