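import Pool.Agent.Lib.MP_f04ccf_co.M.FinB16_6t

/-!
MP_f04ccf_co, PLAN W, finite part: `R = 16`, `n = 6` rows, `∑ h ≤ 17` (loads, second form).
Generated (gen.py, mk4.py): blocks of first rows, part 2 of 15.
-/

set_option autoImplicit false

namespace Pool.Agent.Lib.MP_f04ccf_co

namespace FinK

lemma b16_6_17_4_74 : bk16_6_17 4 74 14 = true := by decide +kernel

lemma b16_6_17_4_88 : bk16_6_17 4 88 25 = true := by decide +kernel

lemma b16_6_17_5_0 : bk16_6_17 5 0 28 = true := by decide +kernel

lemma b16_6_17_5_28 : bk16_6_17 5 28 6 = true := by decide +kernel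

lemma b16_6_17_5_34 : bk16_6_17 5 34 4 = true := by decide +kernel

lemma b16_6_17_5_38 : bk16_6_17 5 38 3 = true := by decide +kernel

lemma b16_6_17_5_41 : bk16_6_17 5 41 3 = true := by decide +kernel

lemma b16_6_17_5_44 : bk16_6_17 5 44 2 = true := by decide +kernel

lemma b16_6_17_5_46 : bk16_6_17 5 46 2 = true := by decide +kernel

lemma b16_6_17_5_48 : bk16_6_17 5 48 2 = true := by decide +kernel

end FinK

end Pool.Agent.Lib.MP_f04ccf_co
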