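import Pool.Agent.Lib.MP_f04ccf_co.M.FinB16_6t

/-!
MP_f04ccf_co, PLAN W, finite part: `R = 16`, `n = 6` rows, `∑ h ≤ 17` (loads, second form).
Generated (gen.py, mk4.py): blocks of first rows, part 4 of 15.
-/

set_option autoImplicit false

namespace Pool.Agent.Lib.MP_f04ccf_co

namespace FinK

lemma b16_6_17_5_70 : bk16_6_17 5 70 2 = true := by decide +kernel

lemma b16_6_17_5_72 : bk16_6_17 5 72 3 = true := by decide +kernel

lemma b16_6_17_5_75 : bk16_6_17 5 75 3 = true := by decide +kernel

lemma b16_6_17_5_78 : bk16_6_17 5 78 4 = true := by decide +kernel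

lemma b16_6_17_5_82 : bk16_6_17 5 82 5 = true := by decide +kernel

lemma b16_6_17_5_87 : bk16_6_17 5 87 6 = true := by decide +kernel

lemma b16_6_17_5_93 : bk16_6_17 5 93 7 = true := by decide +kernel

lemma b16_6_17_6_0 : bk16_6_17 6 0 21 = true := by decide +kernel

lemma b16_6_17_6_21 : bk16_6_17 6 21 5 = true := by decide +kernel

lemma b16_6_17_6_26 : bk16_6_17 6 26 3 = true := by decide +kernel

end FinK

end Pool.Agent.Lib.MP_f04ccf_co
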