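import Pool.Agent.Lib.MP_f04ccf_co.M.FinB16_6t

/-!
MP_f04ccf_co, PLAN W, finite part: `R = 16`, `n = 6` rows, `∑ h ≤ 17` (loads, second form).
Generated (gen.py, mk4.py): blocks of first rows, part 5 of 15.
-/

set_option autoImplicit false

namespace Pool.Agent.Lib.MP_f04ccf_co

namespace FinK

lemma b16_6_17_6_29 : bk16_6_17 6 29 2 = true := by decide +kernel

lemma b16_6_17_6_31 : bk16_6_17 6 31 1 = true := by decide +kernel

lemma b16_6_17_6_32 : bk16_6_17 6 32 1 = true := by decide +kernel

lemma b16_6_17_6_33 : bk16_6_17 6 33 1 = true := by decide +kernel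

lemma b16_6_17_6_34 : bk16_6_17 6 34 1 = true := by decide +kernel

lemma b16_6_17_6_35 : bk16_6_17 6 35 1 = true := by decide +kernel

lemma b16_6_17_6_36 : bk16_6_17 6 36 1 = true := by decide +kernel

lemma b16_6_17_6_37 : bk16_6_17 6 37 1 = true := by decide +kernel

lemma b16_6_17_6_38 : bk16_6_17 6 38 1 = true := by decide +kernel

lemma b16_6_17_6_39 : bk16_6_17 6 39 1 = true := by decide +kernel

lemma b16_6_17_6_40 : bk16_6_17 6 40 1 = true := by decide +kernel

end FinK

end Pool.Agent.Lib.MP_f04ccf_co
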