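import Pool.Agent.Lib.MP_f04ccf_co.M.FinB16_6t

/-!
MP_f04ccf_co, PLAN W, finite part: `R = 16`, `n = 6` rows, `∑ h ≤ 17` (loads, second form).
Generated (gen.py, mk4.py): blocks of first rows, part 7 of 15.
-/

set_option autoImplicit false

namespace Pool.Agent.Lib.MP_f04ccf_co

namespace FinK

lemma b16_6_17_6_48 : bk16_6_17 6 48 1 = true := by decide +kernel

lemma b16_6_17_6_49 : bk16_6_17 6 49 1 = true := by decide +kernel

lemma b16_6_17_6_50 : bk16_6_17 6 50 1 = true := by decide +kernel

lemma b16_6_17_6_51 : bk16_6_17 6 51 1 = true := by decide +kernel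

lemma b16_6_17_6_52 : bk16_6_17 6 52 1 = true := by decide +kernel

lemma b16_6_17_6_53 : bk16_6_17 6 53 1 = true := by decide +kernel

end FinK

end Pool.Agent.Lib.MP_f04ccf_co
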