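import Pool.Agent.Lib.MP_f04ccf_co.M.FinB16_6t

/-!
MP_f04ccf_co, PLAN W, finite part: `R = 16`, `n = 6` rows, `∑ h ≤ 17` (loads, second form).
Generated (gen.py, mk4.py): blocks of first rows, part 8 of 15.
-/

set_option autoImplicit false

namespace Pool.Agent.Lib.MP_f04ccf_co

namespace FinK

lemma b16_6_17_6_54 : bk16_6_17 6 54 1 = true := by decide +kernel

lemma b16_6_17_6_55 : bk16_6_17 6 55 1 = true := by decide +kernel

lemma b16_6_17_6_56 : bk16_6_17 6 56 1 = true := by decide +kernel

lemma b16_6_17_6_57 : bk16_6_17 6 57 1 = true := by decide +kernel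

lemma b16_6_17_6_58 : bk16_6_17 6 58 1 = true := by decide +kernel

lemma b16_6_17_6_59 : bk16_6_17 6 59 1 = true := by decide +kernel

lemma b16_6_17_6_60 : bk16_6_17 6 60 1 = true := by decide +kernel

end FinK

end Pool.Agent.Lib.MP_f04ccf_co
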