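import Pool.Agent.Lib.MP_f04ccf_co.M.FinB16_6t

/-!
MP_f04ccf_co, PLAN W, finite part: `R = 16`, `n = 6` rows, `∑ h ≤ 17` (loads, second form).
Generated (gen.py, mk4.py): blocks of first rows, part 9 of 15.
-/

set_option autoImplicit false

namespace Pool.Agent.Lib.MP_f04ccf_co

namespace FinK

lemma b16_6_17_6_61 : bk16_6_17 6 61 1 = true := by decide +kernel

lemma b16_6_17_6_62 : bk16_6_17 6 62 1 = true := by decide +kernel

lemma b16_6_17_6_63 : bk16_6_17 6 63 1 = true := by decide +kernel

lemma b16_6_17_6_64 : bk16_6_17 6 64 1 = true := by decide +kernel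

lemma b16_6_17_6_65 : bk16_6_17 6 65 1 = true := by decide +kernel

lemma b16_6_17_6_66 : bk16_6_17 6 66 1 = true := by decide +kernel

lemma b16_6_17_6_67 : bk16_6_17 6 67 1 = true := by decide +kernel

lemma b16_6_17_6_68 : bk16_6_17 6 68 1 = true := by decide +kernel

lemma b16_6_17_6_69 : bk16_6_17 6 69 1 = true := by decide +kernel

lemma b16_6_17_6_70 : bk16_6_17 6 70 1 = true := by decide +kernel

lemma b16_6_17_6_71 : bk16_6_17 6 71 1 = true := by decide +kernel

end FinK

end Pool.Agent.Lib.MP_f04ccf_co
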