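import Pool.Agent.Lib.MP_f04ccf_co.M.FinB16_6p1
import Pool.Agent.Lib.MP_f04ccf_co.M.FinB16_6p2
import Pool.Agent.Lib.MP_f04ccf_co.M.FinB16_6p3
import Pool.Agent.Lib.MP_f04ccf_co.M.FinB16_6p4
import Pool.Agent.Lib.MP_f04ccf_co.M.FinB16_6p5
import Pool.Agent.Lib.MP_f04ccf_co.M.FinB16_6p6
import Pool.Agent.Lib.MP_f04ccf_co.M.FinB16_6p7
import Pool.Agent.Lib.MP_f04ccf_co.M.FinB16_6p8
import Pool.Agent.Lib.MP_f04ccf_co.M.FinB16_6p9
import Pool.Agent.Lib.MP_f04ccf_co.M.FinB16_6p10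
import Pool.Agent.Lib.MP_f04ccf_co.M.FinB16_6p11
import Pool.Agent.Lib.MP_f04ccf_co.M.FinB16_6p12
import Pool.Agent.Lib.MP_f04ccf_co.M.FinB16_6p13
import Pool.Agent.Lib.MP_f04ccf_co.M.FinB16_6p14
import Pool.Agent.Lib.MP_f04ccf_co.M.FinB16_6p15

/-!
MP_f04ccf_co, PLAN W, finite part: `R = 16`, `n = 6` rows, `∑ h ≤ 17` (loads, second form).
Generated (gen.py, mk4.py): the parts together.
-/

set_option autoImplicit false

namespace Pool.Agent.Lib.MP_f04ccf_co

namespace FinK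

lemma c16_6_17_0 : bk16_6_17 0 0 143 = true := b16_6_17_0_0

lemma c16_6_17_1 : bk16_6_17 1 0 138 = true := b16_6_17_1_0

lemma c16_6_17_2 : bk16_6_17 2 0 132 = true := b16_6_17_2_0

lemma c16_6_17_3 : bk16_6_17 3 0 121 = true := by
  have h0 := Kern.blk_join b16_6_17_3_0 b16_6_17_3_50
  have h1 := Kern.blk_join h0 b16_6_17_3_77
  exact h1

lemma c16_6_17_4 : bk16_6_17 4 0 113 = true := by
  have h0 := Kern.blk_join b16_6_17_4_0 b16_6_17_4_37
  have h1 := Kern.blk_join h0 b16_6_17_4_46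
  have h2 := Kern.blk_join h1 b16_6_17_4_53
  have h3 := Kern.blk_join h2 b16_6_17_4_59
  have h4 := Kern.blk_join h3 b16_6_17_4_66
  have h5 := Kern.blk_join h4 b16_6_17_4_74
  have h6 := Kern.blk_join h5 b16_6_17_4_88
  exact h6

lemma c16_6_17_5 : bk16_6_17 5 0 100 = true := by
  have h0 := Kern.blk_join b16_6_17_5_0 b16_6_17_5_28
  have h1 := Kern.blk_join h0 b16_6_17_5_34
  have h2 := Kern.blk_join h1 b16_6_17_5_38
  have h3 := Kern.blk_join h2 b16_6_17_5_41
  have h4 := Kern.blk_join h3 b16_6_17_5_44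
  have h5 := Kern.blk_join h4 b16_6_17_5_46
  have h6 := Kern.blk_join h5 b16_6_17_5_48
  have h7 := Kern.blk_join h6 b16_6_17_5_50
  have h8 := Kern.blk_join h7 b16_6_17_5_52
  have h9 := Kern.blk_join h8 b16_6_17_5_54
  have h10 := Kern.blk_join h9 b16_6_17_5_56
  have h11 := Kern.blk_join h10 b16_6_17_5_58
  have h12 := Kern.blk_join h11 b16_6_17_5_60
  have h13 := Kern.blk_join h12 b16_6_17_5_62
  have h14 := Kern.blk_join h13 b16_6_17_5_64
  have h15 := Kern.blk_join h14 b16_6_17_5_66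
  have h16 := Kern.blk_join h15 b16_6_17_5_68
  have h17 := Kern.blk_join h16 b16_6_17_5_70
  have h18 := Kern.blk_join h17 b16_6_17_5_72
  have h19 := Kern.blk_join h18 b16_6_17_5_75
  have h20 := Kern.blk_join h19 b16_6_17_5_78
  have h21 := Kern.blk_join h20 b16_6_17_5_82
  have h22 := Kern.blk_join h21 b16_6_17_5_87
  have h23 := Kern.blk_join h22 b16_6_17_5_93
  exact h23

lemma c16_6_17_6 : bk16_6_17 6 0 85 = true := by
  have h0 := Kern.blk_join b16_6_17_6_0 b16_6_17_6_21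
  have h1 := Kern.blk_join h0 b16_6_17_6_26
  have h2 := Kern.blk_join h1 b16_6_17_6_29
  have h3 := Kern.blk_join h2 b16_6_17_6_31
  have h4 := Kern.blk_join h3 b16_6_17_6_32
  have h5 := Kern.blk_join h4 b16_6_17_6_33
  have h6 := Kern.blk_join h5 b16_6_17_6_34
  have h7 := Kern.blk_join h6 b16_6_17_6_35
  have h8 := Kern.blk_join h7 b16_6_17_6_36
  have h9 := Kern.blk_join h8 b16_6_17_6_37
  have h10 := Kern.blk_join h9 b16_6_17_6_38
  have h11 := Kern.blk_join h10 b16_6_17_6_39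
  have h12 := Kern.blk_join h11 b16_6_17_6_40
  have h13 := Kern.blk_join h12 b16_6_17_6_41
  have h14 := Kern.blk_join h13 b16_6_17_6_42
  have h15 := Kern.blk_join h14 b16_6_17_6_43
  have h16 := Kern.blk_join h15 b16_6_17_6_44
  have h17 := Kern.blk_join h16 b16_6_17_6_45
  have h18 := Kern.blk_join h17 b16_6_17_6_46
  have h19 := Kern.blk_join h18 b16_6_17_6_47
  have h20 := Kern.blk_join h19 b16_6_17_6_48
  have h21 := Kern.blk_join h20 b16_6_17_6_49
  have h22 := Kern.blk_join h21 b16_6_17_6_50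
  have h23 := Kern.blk_join h22 b16_6_17_6_51
  have h24 := Kern.blk_join h23 b16_6_17_6_52
  have h25 := Kern.blk_join h24 b16_6_17_6_53
  have h26 := Kern.blk_join h25 b16_6_17_6_54
  have h27 := Kern.blk_join h26 b16_6_17_6_55
  have h28 := Kern.blk_join h27 b16_6_17_6_56
  have h29 := Kern.blk_join h28 b16_6_17_6_57
  have h30 := Kern.blk_join h29 b16_6_17_6_58
  have h31 := Kern.blk_join h30 b16_6_17_6_59
  have h32 := Kern.blk_join h31 b16_6_17_6_60
  have h33 := Kern.blk_join h32 b16_6_17_6_61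
  have h34 := Kern.blk_join h33 b16_6_17_6_62
  have h35 := Kern.blk_join h34 b16_6_17_6_63
  have h36 := Kern.blk_join h35 b16_6_17_6_64
  have h37 := Kern.blk_join h36 b16_6_17_6_65
  have h38 := Kern.blk_join h37 b16_6_17_6_66
  have h39 := Kern.blk_join h38 b16_6_17_6_67
  have h40 := Kern.blk_join h39 b16_6_17_6_68
  have h41 := Kern.blk_join h40 b16_6_17_6_69
  have h42 := Kern.blk_join h41 b16_6_17_6_70
  have h43 := Kern.blk_join h42 b16_6_17_6_71
  have h44 := Kern.blk_join h43 b16_6_17_6_72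
  have h45 := Kern.blk_join h44 b16_6_17_6_73
  have h46 := Kern.blk_join h45 b16_6_17_6_74
  have h47 := Kern.blk_join h46 b16_6_17_6_75
  have h48 := Kern.blk_join h47 b16_6_17_6_77
  have h49 := Kern.blk_join h48 b16_6_17_6_79
  have h50 := Kern.blk_join h49 b16_6_17_6_81
  have h51 := Kern.blk_join h50 b16_6_17_6_84
  exact h51

lemma c16_6_17_7 : bk16_6_17 7 0 43 = true := by
  have h0 := Kern.blk_join b16_6_17_7_0 b16_6_17_7_12
  have h1 := Kern.blk_join h0 b16_6_17_7_13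
  have h2 := Kern.blk_join h1 b16_6_17_7_14
  have h3 := Kern.blk_join h2 b16_6_17_7_15
  have h4 := Kern.blk_join h3 b16_6_17_7_16
  have h5 := Kern.blk_join h4 b16_6_17_7_17
  have h6 := Kern.blk_join h5 b16_6_17_7_18
  have h7 := Kern.blk_join h6 b16_6_17_7_19
  have h8 := Kern.blk_join h7 b16_6_17_7_20
  have h9 := Kern.blk_join h8 b16_6_17_7_21
  have h10 := Kern.blk_join h9 b16_6_17_7_22
  have h11 := Kern.blk_join h10 b16_6_17_7_23
  have h12 := Kern.blk_join h11 b16_6_17_7_24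
  have h13 := Kern.blk_join h12 b16_6_17_7_25
  have h14 := Kern.blk_join h13 b16_6_17_7_26
  have h15 := Kern.blk_join h14 b16_6_17_7_27
  have h16 := Kern.blk_join h15 b16_6_17_7_28
  have h17 := Kern.blk_join h16 b16_6_17_7_29
  have h18 := Kern.blk_join h17 b16_6_17_7_30
  have h19 := Kern.blk_join h18 b16_6_17_7_31
  have h20 := Kern.blk_join h19 b16_6_17_7_32
  have h21 := Kern.blk_join h20 b16_6_17_7_33
  have h22 := Kern.blk_join h21 b16_6_17_7_35
  have h23 := Kern.blk_join h22 b16_6_17_7_37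
  have h24 := Kern.blk_join h23 b16_6_17_7_41
  exact h24

lemma c16_6_17_8 : bk16_6_17 8 0 18 = true := by
  have h0 := Kern.blk_join b16_6_17_8_0 b16_6_17_8_3
  have h1 := Kern.blk_join h0 b16_6_17_8_4
  have h2 := Kern.blk_join h1 b16_6_17_8_5
  have h3 := Kern.blk_join h2 b16_6_17_8_6
  have h4 := Kern.blk_join h3 b16_6_17_8_8
  exact h4

lemma c16_6_17_9 : bk16_6_17 9 0 5 = true := b16_6_17_9_0

lemma c16_6_17_10 : bk16_6_17 10 0 2 = true := b16_6_17_10_0

lemma e16_6_17 : Kern.EnS (fun a : ℕ × ℕ × ℕ × ℕ => a.1) (fun a => a.2.1) (fun _ => 0) (fun _ => 0)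
    10 17 (6 + 1) (fun l => (Kern.sel (Kern.sml 16) (Le.ld4 16 6)) (Kern.revT l)) (5 + 1) (Kern.flt gs16_6_17) := by
  refine Kern.EnS.of_blk (b := fun a => a.2.2.2) (bg := fun _ => 0) (by decide +kernel) fun j hj => ?_
  have hj' : j < 11 := hj
  interval_cases j
  · exact c16_6_17_0
  · exact c16_6_17_1
  · exact c16_6_17_2
  · exact c16_6_17_3
  · exact c16_6_17_4
  · exact c16_6_17_5
  · exact c16_6_17_6
  · exact c16_6_17_7
  · exact c16_6_17_8
  · exact c16_6_17_9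
  · exact c16_6_17_10

theorem part16_6_17 : PartC ((16 : ℕ) : ℤ) 17 6 (Kern.sel (Kern.sml 16) (Le.ld4 16 6)) := by
  obtain ⟨h1, h2, h3, h4⟩ := ok16_6_17
  exact PartC.enumG (N := 18) (by norm_num) (by norm_num) h1 h2 h3 h4 e16_6_17

end FinK

/-- **`R = 16`, `n = 6`, `∑ h ≤ 17`: no items for the pairs in `(Kern.sml 16)`** -/
theorem noItCP16_6_17 : NoItCP 16 17 6 (Kern.sml 16) :=
  PartC.sel_ld4 (by norm_num) (by norm_num) FinK.part16_6_17

end Pool.Agent.Lib.MP_f04ccf_co
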