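import Pool.Agent.Lib.MP_f04ccf_co.M.FinB16_7t

/-!
MP_f04ccf_co, PLAN W, finite part: `R = 16`, `n = 7` rows, `∑ h ≤ 17` (loads).
Generated (helper11, gen.py, mk4.py): blocks of first rows, part 2 of 5.
-/

set_option autoImplicit false

namespace Pool.Agent.Lib.MP_f04ccf_co

namespace FinK

lemma b16_7_17_5_16 : bk16_7_17 5 16 1 = true := by decide +kernel

lemma b16_7_17_5_17 : bk16_7_17 5 17 1 = true := by decide +kernel

lemma b16_7_17_5_18 : bk16_7_17 5 18 1 = true := by decide +kernel

lemma b16_7_17_5_19 : bk16_7_17 5 19 1 = true := by decide +kernel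

lemma b16_7_17_5_20 : bk16_7_17 5 20 1 = true := by decide +kernel

lemma b16_7_17_5_21 : bk16_7_17 5 21 1 = true := by decide +kernel

lemma b16_7_17_5_22 : bk16_7_17 5 22 1 = true := by decide +kernel

lemma b16_7_17_5_23 : bk16_7_17 5 23 1 = true := by decide +kernel

lemma b16_7_17_5_24 : bk16_7_17 5 24 1 = true := by decide +kernel

lemma b16_7_17_5_25 : bk16_7_17 5 25 1 = true := by decide +kernel

lemma b16_7_17_5_26 : bk16_7_17 5 26 1 = true := by decide +kernel

lemma b16_7_17_5_27 : bk16_7_17 5 27 1 = true := by decide +kernel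

lemma b16_7_17_5_28 : bk16_7_17 5 28 1 = true := by decide +kernel

lemma b16_7_17_5_29 : bk16_7_17 5 29 1 = true := by decide +kernel

lemma b16_7_17_5_30 : bk16_7_17 5 30 1 = true := by decide +kernel

lemma b16_7_17_5_31 : bk16_7_17 5 31 1 = true := by decide +kernel

lemma b16_7_17_5_32 : bk16_7_17 5 32 1 = true := by decide +kernel

lemma b16_7_17_5_33 : bk16_7_17 5 33 1 = true := by decide +kernel

lemma b16_7_17_5_34 : bk16_7_17 5 34 1 = true := by decide +kernel

lemma b16_7_17_5_35 : bk16_7_17 5 35 1 = true := by decide +kernel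

lemma b16_7_17_5_36 : bk16_7_17 5 36 1 = true := by decide +kernel

lemma b16_7_17_5_37 : bk16_7_17 5 37 1 = true := by decide +kernel

lemma b16_7_17_5_38 : bk16_7_17 5 38 1 = true := by decide +kernel

lemma b16_7_17_5_39 : bk16_7_17 5 39 1 = true := by decide +kernel

lemma b16_7_17_5_40 : bk16_7_17 5 40 1 = true := by decide +kernel

lemma b16_7_17_5_41 : bk16_7_17 5 41 1 = true := by decide +kernel

lemma b16_7_17_5_42 : bk16_7_17 5 42 1 = true := by decide +kernel

end FinK

end Pool.Agent.Lib.MP_f04ccf_co
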