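import Pool.Agent.Lib.MP_f04ccf_co.M.FinB16_7t

/-!
MP_f04ccf_co, PLAN W, finite part: `R = 16`, `n = 7` rows, `∑ h ≤ 17` (loads).
Generated (helper11, gen.py, mk4.py): blocks of first rows, part 3 of 5.
-/

set_option autoImplicit false

namespace Pool.Agent.Lib.MP_f04ccf_co

namespace FinK

lemma b16_7_17_5_43 : bk16_7_17 5 43 1 = true := by decide +kernel

lemma b16_7_17_5_44 : bk16_7_17 5 44 1 = true := by decide +kernel

lemma b16_7_17_5_45 : bk16_7_17 5 45 1 = true := by decide +kernel

lemma b16_7_17_5_46 : bk16_7_17 5 46 1 = true := by decide +kernel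

lemma b16_7_17_5_47 : bk16_7_17 5 47 1 = true := by decide +kernel

lemma b16_7_17_5_48 : bk16_7_17 5 48 1 = true := by decide +kernel

lemma b16_7_17_5_49 : bk16_7_17 5 49 1 = true := by decide +kernel

lemma b16_7_17_5_50 : bk16_7_17 5 50 1 = true := by decide +kernel

lemma b16_7_17_5_51 : bk16_7_17 5 51 1 = true := by decide +kernel

lemma b16_7_17_5_52 : bk16_7_17 5 52 1 = true := by decide +kernel

lemma b16_7_17_5_53 : bk16_7_17 5 53 1 = true := by decide +kernel

lemma b16_7_17_5_54 : bk16_7_17 5 54 1 = true := by decide +kernel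

lemma b16_7_17_5_55 : bk16_7_17 5 55 1 = true := by decide +kernel

lemma b16_7_17_5_56 : bk16_7_17 5 56 1 = true := by decide +kernel

lemma b16_7_17_5_57 : bk16_7_17 5 57 1 = true := by decide +kernel

lemma b16_7_17_5_58 : bk16_7_17 5 58 1 = true := by decide +kernel

lemma b16_7_17_5_59 : bk16_7_17 5 59 1 = true := by decide +kernel

lemma b16_7_17_5_60 : bk16_7_17 5 60 1 = true := by decide +kernel

lemma b16_7_17_5_61 : bk16_7_17 5 61 1 = true := by decide +kernel

lemma b16_7_17_5_62 : bk16_7_17 5 62 2 = true := by decide +kernel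

lemma b16_7_17_5_64 : bk16_7_17 5 64 2 = true := by decide +kernel

lemma b16_7_17_5_66 : bk16_7_17 5 66 2 = true := by decide +kernel

lemma b16_7_17_5_68 : bk16_7_17 5 68 2 = true := by decide +kernel

lemma b16_7_17_5_70 : bk16_7_17 5 70 2 = true := by decide +kernel

lemma b16_7_17_6_0 : bk16_7_17 6 0 9 = true := by decide +kernel

lemma b16_7_17_6_9 : bk16_7_17 6 9 1 = true := by decide +kernel

lemma b16_7_17_6_10 : bk16_7_17 6 10 1 = true := by decide +kernel

lemma b16_7_17_6_11 : bk16_7_17 6 11 1 = true := by decide +kernel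

lemma b16_7_17_6_12 : bk16_7_17 6 12 1 = true := by decide +kernel

lemma b16_7_17_6_13 : bk16_7_17 6 13 1 = true := by decide +kernel

lemma b16_7_17_6_14 : bk16_7_17 6 14 1 = true := by decide +kernel

lemma b16_7_17_6_15 : bk16_7_17 6 15 1 = true := by decide +kernel

lemma b16_7_17_6_16 : bk16_7_17 6 16 1 = true := by decide +kernel

end FinK

end Pool.Agent.Lib.MP_f04ccf_co
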