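import Pool.Agent.Lib.MP_f04ccf_co.M.FinB16_7t

/-!
MP_f04ccf_co, PLAN W, finite part: `R = 16`, `n = 7` rows, `∑ h ≤ 17` (loads).
Generated (helper11, gen.py, mk4.py): blocks of first rows, part 4 of 5.
-/

set_option autoImplicit false

namespace Pool.Agent.Lib.MP_f04ccf_co

namespace FinK

lemma b16_7_17_6_17 : bk16_7_17 6 17 1 = true := by decide +kernel

lemma b16_7_17_6_18 : bk16_7_17 6 18 1 = true := by decide +kernel

lemma b16_7_17_6_19 : bk16_7_17 6 19 1 = true := by decide +kernel

lemma b16_7_17_6_20 : bk16_7_17 6 20 1 = true := by decide +kernel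

lemma b16_7_17_6_21 : bk16_7_17 6 21 1 = true := by decide +kernel

lemma b16_7_17_6_22 : bk16_7_17 6 22 1 = true := by decide +kernel

lemma b16_7_17_6_23 : bk16_7_17 6 23 1 = true := by decide +kernel

lemma b16_7_17_6_24 : bk16_7_17 6 24 1 = true := by decide +kernel

lemma b16_7_17_6_25 : bk16_7_17 6 25 1 = true := by decide +kernel

lemma b16_7_17_6_26 : bk16_7_17 6 26 1 = true := by decide +kernel

lemma b16_7_17_6_27 : bk16_7_17 6 27 1 = true := by decide +kernel

lemma b16_7_17_6_28 : bk16_7_17 6 28 1 = true := by decide +kernel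

lemma b16_7_17_6_29 : bk16_7_17 6 29 1 = true := by decide +kernel

lemma b16_7_17_6_30 : bk16_7_17 6 30 1 = true := by decide +kernel

lemma b16_7_17_6_31 : bk16_7_17 6 31 1 = true := by decide +kernel

end FinK

end Pool.Agent.Lib.MP_f04ccf_co
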