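import Pool.Agent.Lib.MP_f04ccf_co.M.FinB16_7t

/-!
MP_f04ccf_co, PLAN W, finite part: `R = 16`, `n = 7` rows, `∑ h ≤ 17` (loads).
Generated (helper11, gen.py, mk4.py): blocks of first rows, part 5 of 5.
-/

set_option autoImplicit false

namespace Pool.Agent.Lib.MP_f04ccf_co

namespace FinK

lemma b16_7_17_6_32 : bk16_7_17 6 32 2 = true := by decide +kernel

lemma b16_7_17_6_34 : bk16_7_17 6 34 5 = true := by decide +kernel

lemma b16_7_17_6_39 : bk16_7_17 6 39 4 = true := by decide +kernel

lemma b16_7_17_7_0 : bk16_7_17 7 0 1 = true := by decide +kernel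

lemma b16_7_17_7_1 : bk16_7_17 7 1 1 = true := by decide +kernel

lemma b16_7_17_7_2 : bk16_7_17 7 2 10 = true := by decide +kernel

lemma b16_7_17_8_0 : bk16_7_17 8 0 5 = true := by decide +kernel

lemma b16_7_17_9_0 : bk16_7_17 9 0 2 = true := by decide +kernel

end FinK

end Pool.Agent.Lib.MP_f04ccf_co
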