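import Pool.Agent.Lib.MP_f04ccf_co.M.FinB16_7p1
import Pool.Agent.Lib.MP_f04ccf_co.M.FinB16_7p2
import Pool.Agent.Lib.MP_f04ccf_co.M.FinB16_7p3
import Pool.Agent.Lib.MP_f04ccf_co.M.FinB16_7p4
import Pool.Agent.Lib.MP_f04ccf_co.M.FinB16_7p5

/-!
MP_f04ccf_co, PLAN W, finite part: `R = 16`, `n = 7` rows, `∑ h ≤ 17` (loads).
Generated (helper11, gen.py, mk4.py): the parts together.
-/

set_option autoImplicit false

namespace Pool.Agent.Lib.MP_f04ccf_co

namespace FinK

lemma c16_7_17_0 : bk16_7_17 0 0 135 = true := b16_7_17_0_0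

lemma c16_7_17_1 : bk16_7_17 1 0 128 = true := b16_7_17_1_0

lemma c16_7_17_2 : bk16_7_17 2 0 118 = true := by
  have h0 := Kern.blk_join b16_7_17_2_0 b16_7_17_2_36
  have h1 := Kern.blk_join h0 b16_7_17_2_53
  exact h1

lemma c16_7_17_3 : bk16_7_17 3 0 108 = true := by
  have h0 := Kern.blk_join b16_7_17_3_0 b16_7_17_3_24
  have h1 := Kern.blk_join h0 b16_7_17_3_31
  have h2 := Kern.blk_join h1 b16_7_17_3_36
  have h3 := Kern.blk_join h2 b16_7_17_3_40
  have h4 := Kern.blk_join h3 b16_7_17_3_44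
  have h5 := Kern.blk_join h4 b16_7_17_3_48
  have h6 := Kern.blk_join h5 b16_7_17_3_52
  have h7 := Kern.blk_join h6 b16_7_17_3_56
  have h8 := Kern.blk_join h7 b16_7_17_3_61
  have h9 := Kern.blk_join h8 b16_7_17_3_67
  have h10 := Kern.blk_join h9 b16_7_17_3_79
  exact h10

lemma c16_7_17_4 : bk16_7_17 4 0 92 = true := by
  have h0 := Kern.blk_join b16_7_17_4_0 b16_7_17_4_17
  have h1 := Kern.blk_join h0 b16_7_17_4_22
  have h2 := Kern.blk_join h1 b16_7_17_4_25
  have h3 := Kern.blk_join h2 b16_7_17_4_27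
  have h4 := Kern.blk_join h3 b16_7_17_4_29
  have h5 := Kern.blk_join h4 b16_7_17_4_31
  have h6 := Kern.blk_join h5 b16_7_17_4_32
  have h7 := Kern.blk_join h6 b16_7_17_4_33
  have h8 := Kern.blk_join h7 b16_7_17_4_34
  have h9 := Kern.blk_join h8 b16_7_17_4_35
  have h10 := Kern.blk_join h9 b16_7_17_4_36
  have h11 := Kern.blk_join h10 b16_7_17_4_37
  have h12 := Kern.blk_join h11 b16_7_17_4_38
  have h13 := Kern.blk_join h12 b16_7_17_4_39
  have h14 := Kern.blk_join h13 b16_7_17_4_40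
  have h15 := Kern.blk_join h14 b16_7_17_4_41
  have h16 := Kern.blk_join h15 b16_7_17_4_42
  have h17 := Kern.blk_join h16 b16_7_17_4_43
  have h18 := Kern.blk_join h17 b16_7_17_4_44
  have h19 := Kern.blk_join h18 b16_7_17_4_45
  have h20 := Kern.blk_join h19 b16_7_17_4_46
  have h21 := Kern.blk_join h20 b16_7_17_4_47
  have h22 := Kern.blk_join h21 b16_7_17_4_48
  have h23 := Kern.blk_join h22 b16_7_17_4_49
  have h24 := Kern.blk_join h23 b16_7_17_4_50
  have h25 := Kern.blk_join h24 b16_7_17_4_51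
  have h26 := Kern.blk_join h25 b16_7_17_4_52
  have h27 := Kern.blk_join h26 b16_7_17_4_53
  have h28 := Kern.blk_join h27 b16_7_17_4_54
  have h29 := Kern.blk_join h28 b16_7_17_4_55
  have h30 := Kern.blk_join h29 b16_7_17_4_56
  have h31 := Kern.blk_join h30 b16_7_17_4_57
  have h32 := Kern.blk_join h31 b16_7_17_4_58
  have h33 := Kern.blk_join h32 b16_7_17_4_59
  have h34 := Kern.blk_join h33 b16_7_17_4_61
  have h35 := Kern.blk_join h34 b16_7_17_4_63
  have h36 := Kern.blk_join h35 b16_7_17_4_65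
  have h37 := Kern.blk_join h36 b16_7_17_4_68
  have h38 := Kern.blk_join h37 b16_7_17_4_71
  have h39 := Kern.blk_join h38 b16_7_17_4_76
  have h40 := Kern.blk_join h39 b16_7_17_4_82
  have h41 := Kern.blk_join h40 b16_7_17_4_88
  exact h41

lemma c16_7_17_5 : bk16_7_17 5 0 72 = true := by
  have h0 := Kern.blk_join b16_7_17_5_0 b16_7_17_5_12
  have h1 := Kern.blk_join h0 b16_7_17_5_15
  have h2 := Kern.blk_join h1 b16_7_17_5_16
  have h3 := Kern.blk_join h2 b16_7_17_5_17
  have h4 := Kern.blk_join h3 b16_7_17_5_18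
  have h5 := Kern.blk_join h4 b16_7_17_5_19
  have h6 := Kern.blk_join h5 b16_7_17_5_20
  have h7 := Kern.blk_join h6 b16_7_17_5_21
  have h8 := Kern.blk_join h7 b16_7_17_5_22
  have h9 := Kern.blk_join h8 b16_7_17_5_23
  have h10 := Kern.blk_join h9 b16_7_17_5_24
  have h11 := Kern.blk_join h10 b16_7_17_5_25
  have h12 := Kern.blk_join h11 b16_7_17_5_26
  have h13 := Kern.blk_join h12 b16_7_17_5_27
  have h14 := Kern.blk_join h13 b16_7_17_5_28
  have h15 := Kern.blk_join h14 b16_7_17_5_29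
  have h16 := Kern.blk_join h15 b16_7_17_5_30
  have h17 := Kern.blk_join h16 b16_7_17_5_31
  have h18 := Kern.blk_join h17 b16_7_17_5_32
  have h19 := Kern.blk_join h18 b16_7_17_5_33
  have h20 := Kern.blk_join h19 b16_7_17_5_34
  have h21 := Kern.blk_join h20 b16_7_17_5_35
  have h22 := Kern.blk_join h21 b16_7_17_5_36
  have h23 := Kern.blk_join h22 b16_7_17_5_37
  have h24 := Kern.blk_join h23 b16_7_17_5_38
  have h25 := Kern.blk_join h24 b16_7_17_5_39
  have h26 := Kern.blk_join h25 b16_7_17_5_40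
  have h27 := Kern.blk_join h26 b16_7_17_5_41
  have h28 := Kern.blk_join h27 b16_7_17_5_42
  have h29 := Kern.blk_join h28 b16_7_17_5_43
  have h30 := Kern.blk_join h29 b16_7_17_5_44
  have h31 := Kern.blk_join h30 b16_7_17_5_45
  have h32 := Kern.blk_join h31 b16_7_17_5_46
  have h33 := Kern.blk_join h32 b16_7_17_5_47
  have h34 := Kern.blk_join h33 b16_7_17_5_48
  have h35 := Kern.blk_join h34 b16_7_17_5_49
  have h36 := Kern.blk_join h35 b16_7_17_5_50
  have h37 := Kern.blk_join h36 b16_7_17_5_51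
  have h38 := Kern.blk_join h37 b16_7_17_5_52
  have h39 := Kern.blk_join h38 b16_7_17_5_53
  have h40 := Kern.blk_join h39 b16_7_17_5_54
  have h41 := Kern.blk_join h40 b16_7_17_5_55
  have h42 := Kern.blk_join h41 b16_7_17_5_56
  have h43 := Kern.blk_join h42 b16_7_17_5_57
  have h44 := Kern.blk_join h43 b16_7_17_5_58
  have h45 := Kern.blk_join h44 b16_7_17_5_59
  have h46 := Kern.blk_join h45 b16_7_17_5_60
  have h47 := Kern.blk_join h46 b16_7_17_5_61
  have h48 := Kern.blk_join h47 b16_7_17_5_62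
  have h49 := Kern.blk_join h48 b16_7_17_5_64
  have h50 := Kern.blk_join h49 b16_7_17_5_66
  have h51 := Kern.blk_join h50 b16_7_17_5_68
  have h52 := Kern.blk_join h51 b16_7_17_5_70
  exact h52

lemma c16_7_17_6 : bk16_7_17 6 0 43 = true := by
  have h0 := Kern.blk_join b16_7_17_6_0 b16_7_17_6_9
  have h1 := Kern.blk_join h0 b16_7_17_6_10
  have h2 := Kern.blk_join h1 b16_7_17_6_11
  have h3 := Kern.blk_join h2 b16_7_17_6_12
  have h4 := Kern.blk_join h3 b16_7_17_6_13
  have h5 := Kern.blk_join h4 b16_7_17_6_14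
  have h6 := Kern.blk_join h5 b16_7_17_6_15
  have h7 := Kern.blk_join h6 b16_7_17_6_16
  have h8 := Kern.blk_join h7 b16_7_17_6_17
  have h9 := Kern.blk_join h8 b16_7_17_6_18
  have h10 := Kern.blk_join h9 b16_7_17_6_19
  have h11 := Kern.blk_join h10 b16_7_17_6_20
  have h12 := Kern.blk_join h11 b16_7_17_6_21
  have h13 := Kern.blk_join h12 b16_7_17_6_22
  have h14 := Kern.blk_join h13 b16_7_17_6_23
  have h15 := Kern.blk_join h14 b16_7_17_6_24
  have h16 := Kern.blk_join h15 b16_7_17_6_25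
  have h17 := Kern.blk_join h16 b16_7_17_6_26
  have h18 := Kern.blk_join h17 b16_7_17_6_27
  have h19 := Kern.blk_join h18 b16_7_17_6_28
  have h20 := Kern.blk_join h19 b16_7_17_6_29
  have h21 := Kern.blk_join h20 b16_7_17_6_30
  have h22 := Kern.blk_join h21 b16_7_17_6_31
  have h23 := Kern.blk_join h22 b16_7_17_6_32
  have h24 := Kern.blk_join h23 b16_7_17_6_34
  have h25 := Kern.blk_join h24 b16_7_17_6_39
  exact h25

lemma c16_7_17_7 : bk16_7_17 7 0 12 = true := by
  have h0 := Kern.blk_join b16_7_17_7_0 b16_7_17_7_1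
  have h1 := Kern.blk_join h0 b16_7_17_7_2
  exact h1

lemma c16_7_17_8 : bk16_7_17 8 0 5 = true := b16_7_17_8_0

lemma c16_7_17_9 : bk16_7_17 9 0 2 = true := b16_7_17_9_0

lemma e16_7_17 : Kern.EnS (fun a : ℕ × ℕ × ℕ × ℕ => a.1) (fun a => a.2.1) (fun _ => 0) (fun _ => 0)
    9 17 (7 + 1) (fun l => (Le.ld4 16 7) (Kern.revT l)) (6 + 1) (Kern.flt gs16_7_17) := by
  refine Kern.EnS.of_blk (b := fun a => a.2.2.2) (bg := fun _ => 0) (by decide +kernel) fun j hj => ?_
  have hj' : j < 10 := hj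
  interval_cases j
  · exact c16_7_17_0
  · exact c16_7_17_1
  · exact c16_7_17_2
  · exact c16_7_17_3
  · exact c16_7_17_4
  · exact c16_7_17_5
  · exact c16_7_17_6
  · exact c16_7_17_7
  · exact c16_7_17_8
  · exact c16_7_17_9

theorem part16_7_17 : PartC ((16 : ℕ) : ℤ) 17 7 (Le.ld4 16 7) := by
  obtain ⟨h1, h2, h3, h4⟩ := ok16_7_17
  exact PartC.enumS (N := 18) (by norm_num) (by norm_num) h1 h2 h3 h4 e16_7_17

end FinK

/-- **`R = 16`, `n = 7`, `∑ h ≤ 17`: no items** -/
theorem noItC16_7_17 : NoItC 16 17 7 :=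
  NoItC.of_l4 (by norm_num) (by norm_num) FinK.part16_7_17

end Pool.Agent.Lib.MP_f04ccf_co
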