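import Pool.Agent.Lib.MP_f04ccf_co.M.FinB16_8t

/-!
MP_f04ccf_co, PLAN W, finite part: `R = 16`, `n = 8` rows, `∑ h ≤ 17` (loads).
Generated (helper11, gen.py, mk4.py): blocks of first rows, part 2 of 2.
-/

set_option autoImplicit false

namespace Pool.Agent.Lib.MP_f04ccf_co

namespace FinK

lemma b16_8_17_5_14 : bk16_8_17 5 14 1 = true := by decide +kernel

lemma b16_8_17_5_15 : bk16_8_17 5 15 1 = true := by decide +kernel

lemma b16_8_17_5_16 : bk16_8_17 5 16 1 = true := by decide +kernel

lemma b16_8_17_5_17 : bk16_8_17 5 17 1 = true := by decide +kernel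

lemma b16_8_17_5_18 : bk16_8_17 5 18 1 = true := by decide +kernel

lemma b16_8_17_5_19 : bk16_8_17 5 19 1 = true := by decide +kernel

lemma b16_8_17_5_20 : bk16_8_17 5 20 1 = true := by decide +kernel

lemma b16_8_17_5_21 : bk16_8_17 5 21 1 = true := by decide +kernel

lemma b16_8_17_5_22 : bk16_8_17 5 22 1 = true := by decide +kernel

lemma b16_8_17_5_23 : bk16_8_17 5 23 1 = true := by decide +kernel

lemma b16_8_17_5_24 : bk16_8_17 5 24 1 = true := by decide +kernel

lemma b16_8_17_5_25 : bk16_8_17 5 25 1 = true := by decide +kernel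

lemma b16_8_17_5_26 : bk16_8_17 5 26 1 = true := by decide +kernel

lemma b16_8_17_5_27 : bk16_8_17 5 27 1 = true := by decide +kernel

lemma b16_8_17_5_28 : bk16_8_17 5 28 2 = true := by decide +kernel

lemma b16_8_17_5_30 : bk16_8_17 5 30 5 = true := by decide +kernel

lemma b16_8_17_5_35 : bk16_8_17 5 35 8 = true := by decide +kernel

lemma b16_8_17_6_0 : bk16_8_17 6 0 1 = true := by decide +kernel

lemma b16_8_17_6_1 : bk16_8_17 6 1 1 = true := by decide +kernel

lemma b16_8_17_6_2 : bk16_8_17 6 2 10 = true := by decide +kernel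

lemma b16_8_17_7_0 : bk16_8_17 7 0 5 = true := by decide +kernel

lemma b16_8_17_8_0 : bk16_8_17 8 0 2 = true := by decide +kernel

end FinK

end Pool.Agent.Lib.MP_f04ccf_co
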