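import Pool.Agent.Lib.MP_f04ccf_co.M.FinB16_8p1
import Pool.Agent.Lib.MP_f04ccf_co.M.FinB16_8p2

/-!
MP_f04ccf_co, PLAN W, finite part: `R = 16`, `n = 8` rows, `∑ h ≤ 17` (loads).
Generated (helper11, gen.py, mk4.py): the parts together.
-/

set_option autoImplicit false

namespace Pool.Agent.Lib.MP_f04ccf_co

namespace FinK

lemma c16_8_17_0 : bk16_8_17 0 0 120 = true := b16_8_17_0_0

lemma c16_8_17_1 : bk16_8_17 1 0 110 = true := b16_8_17_1_0

lemma c16_8_17_2 : bk16_8_17 2 0 103 = true := by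
  have h0 := Kern.blk_join b16_8_17_2_0 b16_8_17_2_33
  have h1 := Kern.blk_join h0 b16_8_17_2_49
  exact h1

lemma c16_8_17_3 : bk16_8_17 3 0 92 = true := by
  have h0 := Kern.blk_join b16_8_17_3_0 b16_8_17_3_21
  have h1 := Kern.blk_join h0 b16_8_17_3_27
  have h2 := Kern.blk_join h1 b16_8_17_3_32
  have h3 := Kern.blk_join h2 b16_8_17_3_36
  have h4 := Kern.blk_join h3 b16_8_17_3_39
  have h5 := Kern.blk_join h4 b16_8_17_3_42
  have h6 := Kern.blk_join h5 b16_8_17_3_45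
  have h7 := Kern.blk_join h6 b16_8_17_3_49
  have h8 := Kern.blk_join h7 b16_8_17_3_53
  have h9 := Kern.blk_join h8 b16_8_17_3_58
  have h10 := Kern.blk_join h9 b16_8_17_3_67
  exact h10

lemma c16_8_17_4 : bk16_8_17 4 0 72 = true := by
  have h0 := Kern.blk_join b16_8_17_4_0 b16_8_17_4_14
  have h1 := Kern.blk_join h0 b16_8_17_4_17
  have h2 := Kern.blk_join h1 b16_8_17_4_19
  have h3 := Kern.blk_join h2 b16_8_17_4_20
  have h4 := Kern.blk_join h3 b16_8_17_4_21
  have h5 := Kern.blk_join h4 b16_8_17_4_22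
  have h6 := Kern.blk_join h5 b16_8_17_4_23
  have h7 := Kern.blk_join h6 b16_8_17_4_24
  have h8 := Kern.blk_join h7 b16_8_17_4_25
  have h9 := Kern.blk_join h8 b16_8_17_4_26
  have h10 := Kern.blk_join h9 b16_8_17_4_27
  have h11 := Kern.blk_join h10 b16_8_17_4_28
  have h12 := Kern.blk_join h11 b16_8_17_4_29
  have h13 := Kern.blk_join h12 b16_8_17_4_30
  have h14 := Kern.blk_join h13 b16_8_17_4_31
  have h15 := Kern.blk_join h14 b16_8_17_4_32
  have h16 := Kern.blk_join h15 b16_8_17_4_33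
  have h17 := Kern.blk_join h16 b16_8_17_4_34
  have h18 := Kern.blk_join h17 b16_8_17_4_35
  have h19 := Kern.blk_join h18 b16_8_17_4_36
  have h20 := Kern.blk_join h19 b16_8_17_4_37
  have h21 := Kern.blk_join h20 b16_8_17_4_38
  have h22 := Kern.blk_join h21 b16_8_17_4_39
  have h23 := Kern.blk_join h22 b16_8_17_4_40
  have h24 := Kern.blk_join h23 b16_8_17_4_41
  have h25 := Kern.blk_join h24 b16_8_17_4_42
  have h26 := Kern.blk_join h25 b16_8_17_4_43
  have h27 := Kern.blk_join h26 b16_8_17_4_44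
  have h28 := Kern.blk_join h27 b16_8_17_4_45
  have h29 := Kern.blk_join h28 b16_8_17_4_46
  have h30 := Kern.blk_join h29 b16_8_17_4_47
  have h31 := Kern.blk_join h30 b16_8_17_4_49
  have h32 := Kern.blk_join h31 b16_8_17_4_51
  have h33 := Kern.blk_join h32 b16_8_17_4_54
  have h34 := Kern.blk_join h33 b16_8_17_4_58
  have h35 := Kern.blk_join h34 b16_8_17_4_64
  exact h35

lemma c16_8_17_5 : bk16_8_17 5 0 43 = true := by
  have h0 := Kern.blk_join b16_8_17_5_0 b16_8_17_5_9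
  have h1 := Kern.blk_join h0 b16_8_17_5_11
  have h2 := Kern.blk_join h1 b16_8_17_5_12
  have h3 := Kern.blk_join h2 b16_8_17_5_13
  have h4 := Kern.blk_join h3 b16_8_17_5_14
  have h5 := Kern.blk_join h4 b16_8_17_5_15
  have h6 := Kern.blk_join h5 b16_8_17_5_16
  have h7 := Kern.blk_join h6 b16_8_17_5_17
  have h8 := Kern.blk_join h7 b16_8_17_5_18
  have h9 := Kern.blk_join h8 b16_8_17_5_19
  have h10 := Kern.blk_join h9 b16_8_17_5_20
  have h11 := Kern.blk_join h10 b16_8_17_5_21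
  have h12 := Kern.blk_join h11 b16_8_17_5_22
  have h13 := Kern.blk_join h12 b16_8_17_5_23
  have h14 := Kern.blk_join h13 b16_8_17_5_24
  have h15 := Kern.blk_join h14 b16_8_17_5_25
  have h16 := Kern.blk_join h15 b16_8_17_5_26
  have h17 := Kern.blk_join h16 b16_8_17_5_27
  have h18 := Kern.blk_join h17 b16_8_17_5_28
  have h19 := Kern.blk_join h18 b16_8_17_5_30
  have h20 := Kern.blk_join h19 b16_8_17_5_35
  exact h20

lemma c16_8_17_6 : bk16_8_17 6 0 12 = true := by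
  have h0 := Kern.blk_join b16_8_17_6_0 b16_8_17_6_1
  have h1 := Kern.blk_join h0 b16_8_17_6_2
  exact h1

lemma c16_8_17_7 : bk16_8_17 7 0 5 = true := b16_8_17_7_0

lemma c16_8_17_8 : bk16_8_17 8 0 2 = true := b16_8_17_8_0

lemma e16_8_17 : Kern.EnS (fun a : ℕ × ℕ × ℕ × ℕ => a.1) (fun a => a.2.1) (fun _ => 0) (fun _ => 0)
    8 17 (8 + 1) (fun l => (Le.ld4 16 8) (Kern.revT l)) (7 + 1) (Kern.flt gs16_8_17) := by
  refine Kern.EnS.of_blk (b := fun a => a.2.2.2) (bg := fun _ => 0) (by decide +kernel) fun j hj => ?_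
  have hj' : j < 9 := hj
  interval_cases j
  · exact c16_8_17_0
  · exact c16_8_17_1
  · exact c16_8_17_2
  · exact c16_8_17_3
  · exact c16_8_17_4
  · exact c16_8_17_5
  · exact c16_8_17_6
  · exact c16_8_17_7
  · exact c16_8_17_8

theorem part16_8_17 : PartC ((16 : ℕ) : ℤ) 17 8 (Le.ld4 16 8) := by
  obtain ⟨h1, h2, h3, h4⟩ := ok16_8_17
  exact PartC.enumS (N := 18) (by norm_num) (by norm_num) h1 h2 h3 h4 e16_8_17

end FinK

/-- **`R = 16`, `n = 8`, `∑ h ≤ 17`: no items** -/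
theorem noItC16_8_17 : NoItC 16 17 8 :=
  NoItC.of_l4 (by norm_num) (by norm_num) FinK.part16_8_17

end Pool.Agent.Lib.MP_f04ccf_co
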