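import Pool.Agent.Lib.MP_f04ccf_co.M.FinQ

/-!
MP_f04ccf_co, PLAN W, finite part: `R = 16`, `n = 9` rows, `∑ h ≤ 17` (loads).
Generated (helper11, gen.py, mk4.py): the table of all rows `(t, h, mu, b)` which pass the row filter `Kern.okE`,
`b` a bound for `h - t` on the rest of the table; the enumeration in blocks of first rows with the leaf
`(Le.ld4 16 9)`, checked by the kernel.
-/

set_option autoImplicit false

namespace Pool.Agent.Lib.MP_f04ccf_co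

namespace FinK

/-- the table -/
def gs16_9_17 : List (ℕ × List (ℕ × ℕ × ℕ × ℕ)) :=
  [(7, [(7, 17, 17, 14), (7, 17, 16, 14), (7, 17, 15, 14), (7, 17, 14, 14), (7, 17, 13, 14),
    (7, 17, 12, 14), (7, 16, 16, 14), (7, 16, 15, 14), (7, 16, 14, 14), (7, 16, 13, 14),
    (7, 16, 12, 14), (7, 16, 11, 14), (7, 15, 15, 14), (7, 15, 14, 14), (7, 15, 13, 14),
    (7, 15, 12, 14), (7, 15, 11, 14), (7, 15, 10, 14), (7, 14, 14, 14), (7, 14, 13, 14),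
    (7, 14, 12, 14), (7, 14, 11, 14), (7, 14, 10, 14), (7, 14, 9, 14), (7, 13, 13, 14),
    (7, 13, 12, 14), (7, 13, 11, 14), (7, 13, 10, 14), (7, 13, 9, 14), (7, 13, 8, 14),
    (7, 12, 12, 14), (7, 12, 11, 14), (7, 12, 10, 14), (7, 12, 9, 14), (7, 12, 8, 14),
    (7, 12, 7, 14), (7, 11, 11, 14), (7, 11, 10, 14), (7, 11, 9, 14), (7, 11, 8, 14),
    (7, 11, 7, 14), (7, 11, 6, 14), (7, 11, 5, 14), (7, 10, 10, 14), (7, 10, 9, 14),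
    (7, 10, 8, 14), (7, 10, 7, 14), (7, 10, 6, 14), (7, 10, 5, 14), (7, 10, 4, 14),
    (7, 9, 9, 14), (7, 9, 8, 14), (7, 9, 7, 14), (7, 9, 6, 14), (7, 9, 5, 14), (7, 9, 4, 14),
    (7, 9, 3, 14), (7, 9, 2, 14), (7, 8, 8, 14), (7, 8, 7, 14), (7, 8, 6, 14), (7, 8, 5, 14),
    (7, 8, 4, 14), (7, 8, 3, 14), (7, 8, 2, 14), (7, 8, 1, 14), (7, 7, 7, 14), (7, 7, 6, 14),
    (7, 7, 5, 14), (7, 7, 4, 14), (7, 7, 3, 14), (7, 7, 2, 14), (7, 7, 1, 14), (7, 7, 0, 14),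
    (7, 6, 6, 14), (7, 6, 5, 14), (7, 6, 4, 14), (7, 6, 3, 14), (7, 6, 2, 14), (7, 6, 1, 14),
    (7, 6, 0, 14), (7, 5, 5, 14), (7, 5, 4, 14), (7, 5, 3, 14), (7, 5, 2, 14), (7, 5, 1, 14),
    (7, 5, 0, 14), (7, 4, 4, 14), (7, 4, 3, 14), (7, 4, 2, 14), (7, 4, 1, 14), (7, 4, 0, 14),
    (7, 3, 3, 14), (7, 3, 2, 14), (7, 3, 1, 14), (7, 3, 0, 14), (7, 2, 2, 14), (7, 2, 1, 14),
    (7, 2, 0, 14), (7, 1, 1, 14), (7, 1, 0, 14), (7, 0, 0, 14)]),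
  (6, [(6, 17, 17, 14), (6, 17, 16, 14), (6, 17, 15, 14), (6, 17, 14, 14), (6, 17, 13, 14),
    (6, 17, 12, 14), (6, 16, 16, 14), (6, 16, 15, 14), (6, 16, 14, 14), (6, 16, 13, 14),
    (6, 16, 12, 14), (6, 15, 15, 14), (6, 15, 14, 14), (6, 15, 13, 14), (6, 15, 12, 14),
    (6, 15, 11, 14), (6, 14, 14, 14), (6, 14, 13, 14), (6, 14, 12, 14), (6, 14, 11, 14),
    (6, 14, 10, 14), (6, 13, 13, 14), (6, 13, 12, 14), (6, 13, 11, 14), (6, 13, 10, 14),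
    (6, 13, 9, 14), (6, 12, 12, 14), (6, 12, 11, 14), (6, 12, 10, 14), (6, 12, 9, 14),
    (6, 12, 8, 14), (6, 11, 11, 14), (6, 11, 10, 14), (6, 11, 9, 14), (6, 11, 8, 14),
    (6, 11, 7, 14), (6, 10, 10, 14), (6, 10, 9, 14), (6, 10, 8, 14), (6, 10, 7, 14),
    (6, 10, 6, 14), (6, 10, 5, 14), (6, 9, 9, 14), (6, 9, 8, 14), (6, 9, 7, 14),
    (6, 9, 6, 14), (6, 9, 5, 14), (6, 9, 4, 14), (6, 8, 8, 14), (6, 8, 7, 14), (6, 8, 6, 14),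
    (6, 8, 5, 14), (6, 8, 4, 14), (6, 8, 3, 14), (6, 8, 2, 14), (6, 7, 7, 14), (6, 7, 6, 14),
    (6, 7, 5, 14), (6, 7, 4, 14), (6, 7, 3, 14), (6, 7, 2, 14), (6, 7, 1, 14), (6, 6, 6, 14),
    (6, 6, 5, 14), (6, 6, 4, 14), (6, 6, 3, 14), (6, 6, 2, 14), (6, 6, 1, 14), (6, 6, 0, 14),
    (6, 5, 5, 14), (6, 5, 4, 14), (6, 5, 3, 14), (6, 5, 2, 14), (6, 5, 1, 14), (6, 5, 0, 14),
    (6, 4, 4, 14), (6, 4, 3, 14), (6, 4, 2, 14), (6, 4, 1, 14), (6, 4, 0, 14), (6, 3, 3, 14),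
    (6, 3, 2, 14), (6, 3, 1, 14), (6, 3, 0, 14), (6, 2, 2, 14), (6, 2, 1, 14), (6, 2, 0, 14),
    (6, 1, 1, 14), (6, 1, 0, 14), (6, 0, 0, 14)]),
  (5, [(5, 17, 17, 14), (5, 17, 16, 14), (5, 17, 15, 14), (5, 17, 14, 14), (5, 17, 13, 14),
    (5, 16, 16, 14), (5, 16, 15, 14), (5, 16, 14, 14), (5, 16, 13, 14), (5, 16, 12, 14),
    (5, 15, 15, 14), (5, 15, 14, 14), (5, 15, 13, 14), (5, 15, 12, 14), (5, 14, 14, 14),
    (5, 14, 13, 14), (5, 14, 12, 14), (5, 14, 11, 14), (5, 13, 13, 14), (5, 13, 12, 14),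
    (5, 13, 11, 14), (5, 13, 10, 14), (5, 12, 12, 14), (5, 12, 11, 14), (5, 12, 10, 14),
    (5, 12, 9, 14), (5, 11, 11, 14), (5, 11, 10, 14), (5, 11, 9, 14), (5, 11, 8, 14),
    (5, 10, 10, 14), (5, 10, 9, 14), (5, 10, 8, 14), (5, 10, 7, 14), (5, 9, 9, 14),
    (5, 9, 8, 14), (5, 9, 7, 14), (5, 9, 6, 14), (5, 9, 5, 14), (5, 8, 8, 14), (5, 8, 7, 14),
    (5, 8, 6, 14), (5, 8, 5, 14), (5, 8, 4, 14), (5, 7, 7, 14), (5, 7, 6, 14), (5, 7, 5, 14),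
    (5, 7, 4, 14), (5, 7, 3, 14), (5, 7, 2, 14), (5, 6, 6, 14), (5, 6, 5, 14), (5, 6, 4, 14),
    (5, 6, 3, 14), (5, 6, 2, 14), (5, 6, 1, 14), (5, 5, 5, 14), (5, 5, 4, 14), (5, 5, 3, 14),
    (5, 5, 2, 14), (5, 5, 1, 14), (5, 5, 0, 14), (5, 4, 4, 14), (5, 4, 3, 14), (5, 4, 2, 14),
    (5, 4, 1, 14), (5, 4, 0, 14), (5, 3, 3, 14), (5, 3, 2, 14), (5, 3, 1, 14), (5, 3, 0, 14),
    (5, 2, 2, 14), (5, 2, 1, 14), (5, 2, 0, 14), (5, 1, 1, 14), (5, 1, 0, 14), (5, 0, 0, 14)]),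
  (4, [(4, 17, 17, 14), (4, 17, 16, 14), (4, 17, 15, 14), (4, 17, 14, 14), (4, 16, 16, 14),
    (4, 16, 15, 14), (4, 16, 14, 14), (4, 15, 15, 14), (4, 15, 14, 14), (4, 15, 13, 14),
    (4, 14, 14, 14), (4, 14, 13, 14), (4, 14, 12, 14), (4, 13, 13, 14), (4, 13, 12, 14),
    (4, 12, 12, 14), (4, 12, 11, 14), (4, 11, 11, 14), (4, 11, 10, 14), (4, 10, 10, 14),
    (4, 10, 9, 14), (4, 10, 8, 14), (4, 9, 9, 14), (4, 9, 8, 14), (4, 9, 7, 14),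
    (4, 8, 8, 14), (4, 8, 7, 14), (4, 8, 6, 14), (4, 7, 7, 14), (4, 7, 6, 14), (4, 7, 5, 14),
    (4, 7, 4, 14), (4, 6, 6, 14), (4, 6, 5, 14), (4, 6, 4, 14), (4, 6, 3, 14), (4, 6, 2, 14),
    (4, 5, 5, 14), (4, 5, 4, 14), (4, 5, 3, 14), (4, 5, 2, 14), (4, 5, 1, 14), (4, 4, 4, 14),
    (4, 4, 3, 14), (4, 4, 2, 14), (4, 4, 1, 14), (4, 4, 0, 14), (4, 3, 3, 14), (4, 3, 2, 14),
    (4, 3, 1, 14), (4, 3, 0, 14), (4, 2, 2, 14), (4, 2, 1, 14), (4, 2, 0, 14), (4, 1, 1, 14),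
    (4, 1, 0, 14), (4, 0, 0, 14)]),
  (3, [(3, 17, 17, 14), (3, 17, 16, 14), (3, 16, 16, 13), (3, 8, 8, 5), (3, 7, 7, 4),
    (3, 7, 6, 4), (3, 6, 6, 3), (3, 6, 5, 3), (3, 6, 4, 3), (3, 5, 5, 2), (3, 5, 4, 2),
    (3, 5, 3, 2), (3, 5, 2, 2), (3, 4, 4, 2), (3, 4, 3, 2), (3, 4, 2, 2), (3, 4, 1, 2),
    (3, 3, 3, 2), (3, 3, 2, 2), (3, 3, 1, 2), (3, 3, 0, 2), (3, 2, 2, 2), (3, 2, 1, 2),
    (3, 2, 0, 2), (3, 1, 1, 2), (3, 1, 0, 2), (3, 0, 0, 2)]),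
  (2, [(2, 4, 4, 2), (2, 4, 3, 2), (2, 3, 3, 1), (2, 3, 2, 1), (2, 3, 1, 1), (2, 2, 2, 1),
    (2, 2, 1, 1), (2, 2, 0, 1), (2, 1, 1, 1), (2, 1, 0, 1), (2, 0, 0, 1)]),
  (1, [(1, 2, 2, 1), (1, 2, 1, 1), (1, 1, 1, 1), (1, 1, 0, 1), (1, 0, 0, 1)]),
  (0, [(0, 1, 1, 1), (0, 0, 0, 0)])]

/-- the squares `kf t ^ 2` are larger than `t (M - t) + 1` -/
def kf16_9_17 (t : ℕ) : ℕ := ([2, 3, 4, 4, 4, 4, 3, 2] : List ℕ).getD t 0

lemma ok16_9_17 : Kern.okF 16 7 = true ∧ Kern.okK 7 kf16_9_17 = true ∧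
    Kern.srt (Kern.keyF 18) (Kern.flt gs16_9_17) = true ∧
    Kern.allTab 7 17 17 (Kern.okE 16 7 kf16_9_17)
      (fun a b c => (Kern.lookF (Kern.flt gs16_9_17) a b c).isSome) = true := by
  decide +kernel

/-- a block -/
noncomputable def bk16_9_17 (j p k : ℕ) : Bool :=
  Kern.blk (fun a : ℕ × ℕ × ℕ × ℕ => a.1) (fun a => a.2.1) (fun a => a.2.2.2) (fun _ => 0)
    (fun _ => 0) (fun _ => 0) 7 17 10 (fun l => (Le.ld4 16 9) (Kern.revT l)) 8 gs16_9_17 j p k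

lemma b16_9_17_0_0 : bk16_9_17 0 0 102 = true := by decide +kernel

lemma b16_9_17_1_0 : bk16_9_17 1 0 90 = true := by decide +kernel

lemma b16_9_17_2_0 : bk16_9_17 2 0 26 = true := by decide +kernel

lemma b16_9_17_2_26 : bk16_9_17 2 26 16 = true := by decide +kernel

lemma b16_9_17_2_42 : bk16_9_17 2 42 35 = true := by decide +kernel

lemma b16_9_17_3_0 : bk16_9_17 3 0 13 = true := by decide +kernel

lemma b16_9_17_3_13 : bk16_9_17 3 13 4 = true := by decide +kernel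

lemma b16_9_17_3_17 : bk16_9_17 3 17 3 = true := by decide +kernel

lemma b16_9_17_3_20 : bk16_9_17 3 20 3 = true := by decide +kernel

lemma b16_9_17_3_23 : bk16_9_17 3 23 3 = true := by decide +kernel

lemma b16_9_17_3_26 : bk16_9_17 3 26 5 = true := by decide +kernel

lemma b16_9_17_3_31 : bk16_9_17 3 31 15 = true := by decide +kernel

lemma b16_9_17_3_46 : bk16_9_17 3 46 11 = true := by decide +kernel

lemma b16_9_17_4_0 : bk16_9_17 4 0 4 = true := by decide +kernel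

lemma b16_9_17_4_4 : bk16_9_17 4 4 1 = true := by decide +kernel

lemma b16_9_17_4_5 : bk16_9_17 4 5 1 = true := by decide +kernel

lemma b16_9_17_4_6 : bk16_9_17 4 6 2 = true := by decide +kernel

lemma b16_9_17_4_8 : bk16_9_17 4 8 3 = true := by decide +kernel

lemma b16_9_17_4_11 : bk16_9_17 4 11 16 = true := by decide +kernel

lemma b16_9_17_5_0 : bk16_9_17 5 0 11 = true := by decide +kernel

lemma b16_9_17_6_0 : bk16_9_17 6 0 5 = true := by decide +kernel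

lemma b16_9_17_7_0 : bk16_9_17 7 0 2 = true := by decide +kernel

lemma c16_9_17_0 : bk16_9_17 0 0 102 = true := b16_9_17_0_0

lemma c16_9_17_1 : bk16_9_17 1 0 90 = true := b16_9_17_1_0

lemma c16_9_17_2 : bk16_9_17 2 0 77 = true := by
  have h0 := Kern.blk_join b16_9_17_2_0 b16_9_17_2_26
  have h1 := Kern.blk_join h0 b16_9_17_2_42
  exact h1

lemma c16_9_17_3 : bk16_9_17 3 0 57 = true := by
  have h0 := Kern.blk_join b16_9_17_3_0 b16_9_17_3_13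
  have h1 := Kern.blk_join h0 b16_9_17_3_17
  have h2 := Kern.blk_join h1 b16_9_17_3_20
  have h3 := Kern.blk_join h2 b16_9_17_3_23
  have h4 := Kern.blk_join h3 b16_9_17_3_26
  have h5 := Kern.blk_join h4 b16_9_17_3_31
  have h6 := Kern.blk_join h5 b16_9_17_3_46
  exact h6

lemma c16_9_17_4 : bk16_9_17 4 0 27 = true := by
  have h0 := Kern.blk_join b16_9_17_4_0 b16_9_17_4_4
  have h1 := Kern.blk_join h0 b16_9_17_4_5
  have h2 := Kern.blk_join h1 b16_9_17_4_6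
  have h3 := Kern.blk_join h2 b16_9_17_4_8
  have h4 := Kern.blk_join h3 b16_9_17_4_11
  exact h4

lemma c16_9_17_5 : bk16_9_17 5 0 11 = true := b16_9_17_5_0

lemma c16_9_17_6 : bk16_9_17 6 0 5 = true := b16_9_17_6_0

lemma c16_9_17_7 : bk16_9_17 7 0 2 = true := b16_9_17_7_0

lemma e16_9_17 : Kern.EnS (fun a : ℕ × ℕ × ℕ × ℕ => a.1) (fun a => a.2.1) (fun _ => 0) (fun _ => 0)
    7 17 (9 + 1) (fun l => (Le.ld4 16 9) (Kern.revT l)) (8 + 1) (Kern.flt gs16_9_17) := by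
  refine Kern.EnS.of_blk (b := fun a => a.2.2.2) (bg := fun _ => 0) (by decide +kernel) fun j hj => ?_
  have hj' : j < 8 := hj
  interval_cases j
  · exact c16_9_17_0
  · exact c16_9_17_1
  · exact c16_9_17_2
  · exact c16_9_17_3
  · exact c16_9_17_4
  · exact c16_9_17_5
  · exact c16_9_17_6
  · exact c16_9_17_7

theorem part16_9_17 : PartC ((16 : ℕ) : ℤ) 17 9 (Le.ld4 16 9) := by
  obtain ⟨h1, h2, h3, h4⟩ := ok16_9_17
  exact PartC.enumS (N := 18) (by norm_num) (by norm_num) h1 h2 h3 h4 e16_9_17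

end FinK

/-- **`R = 16`, `n = 9`, `∑ h ≤ 17`: no items** -/
theorem noItC16_9_17 : NoItC 16 17 9 :=
  NoItC.of_l4 (by norm_num) (by norm_num) FinK.part16_9_17

end Pool.Agent.Lib.MP_f04ccf_co
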