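import Pool.Agent.Lib.MP_f04ccf_co.M.FinA16
import Pool.Agent.Lib.MP_f04ccf_co.M.FinB16_6
import Pool.Agent.Lib.MP_f04ccf_co.M.FinB16_7
import Pool.Agent.Lib.MP_f04ccf_co.M.FinB16_8
import Pool.Agent.Lib.MP_f04ccf_co.M.FinB16_9
import Pool.Agent.Lib.MP_f04ccf_co.M.FinB16_10
import Pool.Agent.Lib.MP_f04ccf_co.M.FinB16_11
import Pool.Agent.Lib.MP_f04ccf_co.M.FinB16_12
import Pool.Agent.Lib.MP_f04ccf_co.M.BlkC16a1
import Pool.Agent.Lib.MP_f04ccf_co.M.BlkC16b1

/-!
MP_f04ccf_co, block certificate, **`R = 16`**: the two pairs of shares with large product by the block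
certificate, all others by the enumeration.
-/

set_option autoImplicit false

namespace Pool.Agent.Lib.MP_f04ccf_co

/-- **`R = 16`, `∑ h ≤ 16`, five rows: no items** -/
theorem noItC16_5_16 : NoItC 16 16 5 := by
  refine NoItC.of_parts noItCP16_5_16 ?_
  have key : NoItCP ((16 : ℕ) : ℤ) ((16 : ℕ) : ℤ) 5 fun a b => !(Kern.sml 16 a b) := by
    refine NoItCP.of_pr (q := 3) (by norm_num) fun a b hba hs hp => ?_
    have ha : a ≤ 10 := by omega
    have hb : b ≤ 5 := by omega
    interval_cases a <;> interval_cases b <;>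
      first
        | exact absurd hp (by decide)
        | exact absurd hs (by decide)
        | exact absurd hba (by decide)
        | exact BlkC.pr16_16_5_5 (by norm_num)
        | exact BlkC.pr16_16_6_4 (by norm_num)
  exact key

/-- **`R = 16`, `∑ h ≤ 17`, six rows: no items** -/
theorem noItC16_6_17 : NoItC 16 17 6 := by
  refine NoItC.of_parts noItCP16_6_17 ?_
  have key : NoItCP ((16 : ℕ) : ℤ) ((17 : ℕ) : ℤ) 6 fun a b => !(Kern.sml 16 a b) := by
    refine NoItCP.of_pr (q := 4) (by norm_num) fun a b hba hs hp => ?_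
    have ha : a ≤ 10 := by omega
    have hb : b ≤ 5 := by omega
    interval_cases a <;> interval_cases b <;>
      first
        | exact absurd hp (by decide)
        | exact absurd hs (by decide)
        | exact absurd hba (by decide)
        | exact BlkC.pr16_17_5_5 (by norm_num)
        | exact BlkC.pr16_17_6_4 (by norm_num)
  exact key

end Pool.Agent.Lib.MP_f04ccf_co
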