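import Pool.Agent.Lib.MP_f04ccf_co.M.BlkT

/-!
MP_f04ccf_co, block certificate, data `R = 17`, `H = 17`, part 2 (generated, helper99, bd9.cpp, gen.py):
the pairs (5, 5), (6, 0), (6, 1), (6, 2), (6, 3), (6, 4), (6, 5), (7, 0), (7, 1).
-/

set_option autoImplicit false
set_option maxRecDepth 100000

namespace Pool.Agent.Lib.MP_f04ccf_co

namespace BlkC

/-- the numbers of the pair `(5, 5)`, `R = 17`, `H = 17` -/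
def d17_17_5_5 : BlkD.Pd :=
  ⟨17, 17, 3, 5, 5, 4, 1, 3, 2, 2, 6, 0, 2, 2, 6, 0, [0, 6, 12, 14, 16], [0, 6, 12, 14, 16], [⟨1,
    1, 1, 4, 8, [0, 4], [0, 4]⟩, ⟨1, 1, 1, 4, 12, [0, 6], [0, 6]⟩]⟩

/-- the certificates of the pair `(5, 5)` -/
def t17_17_5_5 : BlkD.Tr :=
  .S 0 5 (.S 2 5 (.S 0 2 (.L 5 5 [4, 3, 17, 17, 17, 17] [] [] 100000 2 2 1245454 27273 18182 63636
    54545 0 0 0) (.L 5 5 [4, 3, 17, 17, 17, 17] [] [] 100000 0 0 1292000 4000 32000 64000 64000 0 0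
    0)) (.E 1)) (.E 0)

lemma pr17_17_5_5 {n : ℕ} (hn : 5 ≤ n) : NoPr ((17 : ℕ) : ℤ) ((17 : ℕ) : ℤ) n 5 5 :=
  BlkD.pair_sound (d := d17_17_5_5) (by decide +kernel) hn (by decide) (tr := t17_17_5_5)
    (by decide +kernel) rfl rfl rfl rfl

/-- the numbers of the pair `(6, 0)`, `R = 17`, `H = 17` -/
def d17_17_6_0 : BlkD.Pd :=
  ⟨17, 17, 3, 6, 0, 8, 0, 1, 0, 4, 4, 0, 0, 4, 4, 0, [0, 4, 8, 12, 16, 20, 24, 28, 32], [0, 4, 8,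
    12, 16, 20, 24, 28, 32], [⟨1, 1, 1, 4, 8, [0, 4], [0, 4]⟩]⟩

/-- the certificates of the pair `(6, 0)` -/
def t17_17_6_0 : BlkD.Tr :=
  .S 0 6 (.S 2 0 (.L 3 3 [4] [] [] 100000 0 0 725000 50000 0 75000 25000 0 0 0) (.E 1)) (.E 0)

lemma pr17_17_6_0 {n : ℕ} (hn : 5 ≤ n) : NoPr ((17 : ℕ) : ℤ) ((17 : ℕ) : ℤ) n 6 0 :=
  BlkD.pair_sound (d := d17_17_6_0) (by decide +kernel) hn (by decide) (tr := t17_17_6_0)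
    (by decide +kernel) rfl rfl rfl rfl

/-- the numbers of the pair `(6, 1)`, `R = 17`, `H = 17` -/
def d17_17_6_1 : BlkD.Pd :=
  ⟨17, 17, 3, 6, 1, 7, 1, 1, 2, 2, 6, 0, 0, 4, 4, 0, [0, 6, 12, 18, 22, 24, 26, 28], [0, 4, 8, 12,
    16, 20, 24, 28], [⟨1, 1, 1, 4, 8, [0, 4], [0, 4]⟩, ⟨1, 1, 1, 4, 10, [0, 6], [0, 4]⟩]⟩

/-- the certificates of the pair `(6, 1)` -/
def t17_17_6_1 : BlkD.Tr :=
  .S 0 6 (.S 2 1 (.L 3 4 [4, 4] [] [] 100000 2 1 933331 23810 0 57143 0 0 0 0) (.E 1)) (.E 0)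

lemma pr17_17_6_1 {n : ℕ} (hn : 5 ≤ n) : NoPr ((17 : ℕ) : ℤ) ((17 : ℕ) : ℤ) n 6 1 :=
  BlkD.pair_sound (d := d17_17_6_1) (by decide +kernel) hn (by decide) (tr := t17_17_6_1)
    (by decide +kernel) rfl rfl rfl rfl

/-- the numbers of the pair `(6, 2)`, `R = 17`, `H = 17` -/
def d17_17_6_2 : BlkD.Pd :=
  ⟨17, 17, 3, 6, 2, 6, 2, 1, 2, 2, 8, 0, 3, 1, 6, 0, [0, 8, 16, 18, 20, 22, 24], [0, 6, 12, 15, 18,
    21, 24], [⟨1, 1, 1, 4, 8, [0, 4], [0, 4]⟩, ⟨1, 1, 1, 4, 10, [0, 6], [0, 4]⟩, ⟨1, 1, 1, 4, 14,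
    [0, 8], [0, 6]⟩]⟩

/-- the certificates of the pair `(6, 2)` -/
def t17_17_6_2 : BlkD.Tr :=
  .S 0 6 (.S 2 2 (.S 0 3 (.L 4 5 [4, 4, 4] [] [] 100000 3142 3142 1064398 19372 0 59686 30366 2618
    30366 30366) (.L 4 5 [4, 4, 4] [] [] 100000 2 2 1080360 6548 0 93452 27976 13988 30060 27976))
    (.E 1)) (.E 0)

lemma pr17_17_6_2 {n : ℕ} (hn : 5 ≤ n) : NoPr ((17 : ℕ) : ℤ) ((17 : ℕ) : ℤ) n 6 2 :=
  BlkD.pair_sound (d := d17_17_6_2) (by decide +kernel) hn (by decide) (tr := t17_17_6_2)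
    (by decide +kernel) rfl rfl rfl rfl

/-- the numbers of the pair `(6, 3)`, `R = 17`, `H = 17` -/
def d17_17_6_3 : BlkD.Pd :=
  ⟨17, 17, 3, 6, 3, 5, 2, 2, 2, 2, 8, 0, 2, 2, 6, 0, [0, 8, 14, 16, 18, 20], [0, 6, 12, 16, 18,
    20], [⟨1, 1, 1, 4, 8, [0, 4], [0, 4]⟩, ⟨1, 1, 1, 4, 12, [0, 6], [0, 6]⟩, ⟨1, 1, 1, 4, 14, [0,
    8], [0, 6]⟩]⟩

/-- the certificates of the pair `(6, 3)` -/
def t17_17_6_3 : BlkD.Tr :=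
  .S 0 6 (.S 2 3 (.S 0 3 (.S 0 1 (.L 5 7 [4, 4, 3, 17] [] [] 100000 75000 75000 650000 100000 0
    100000 50000 0 0 0) (.S 0 2 (.L 5 7 [4, 4, 3, 17] [] [] 100000 56250 56250 1025000 50000 0
    75000 37500 0 12500 25000) (.S 1 14 (.S 1 7 (.S 1 3 (.L 5 7 [4, 4, 3, 17] [] [] 100000 0 0
    1100000 0 0 0 0 0 0 50000) (.S 1 5 (.S 1 4 (.L 5 7 [4, 4, 3, 17] [68, 62, 54, 46, 36, 0] []
    100000 13044 13044 1078260 30435 0 60870 30435 0 21739 26087) (.L 5 7 [4, 4, 3, 17] [84, 82,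
    76, 68, 60, 50] [] 100000 30771 30771 1107692 38462 0 69231 38462 0 23077 30769)) (.S 1 6 (.L 5
    7 [4, 4, 3, 17] [102, 100, 98, 92, 84, 76] [] 100000 15943 15943 1118842 36232 0 68116 40580 0
    24638 21739) (.L 5 7 [4, 4, 3, 17] [122, 120, 118, 116, 110, 102] [] 100000 25001 25001 1075002
    48437 0 79687 25000 2083 11458 18229)))) (.L 5 7 [4, 4, 3, 17] [] [] 100000 0 0 1100000 0 0
    100000 100000 0 0 50000)) (.E 0)))) (.L 5 7 [4, 4, 3, 17] [] [] 100000 2 2 1188888 3704 3704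
    96296 48148 0 25926 37037)) (.E 1)) (.E 0)

lemma pr17_17_6_3 {n : ℕ} (hn : 5 ≤ n) : NoPr ((17 : ℕ) : ℤ) ((17 : ℕ) : ℤ) n 6 3 :=
  BlkD.pair_sound (d := d17_17_6_3) (by decide +kernel) hn (by decide) (tr := t17_17_6_3)
    (by decide +kernel) rfl rfl rfl rfl

/-- the numbers of the pair `(6, 4)`, `R = 17`, `H = 17` -/
def d17_17_6_4 : BlkD.Pd :=
  ⟨17, 17, 3, 6, 4, 4, 1, 2, 2, 2, 6, 0, 2, 2, 6, 0, [0, 6, 12, 14, 16], [0, 6, 12, 14, 16], [⟨1,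
    1, 1, 4, 8, [0, 4], [0, 4]⟩, ⟨1, 1, 1, 4, 12, [0, 6], [0, 6]⟩]⟩

/-- the certificates of the pair `(6, 4)` -/
def t17_17_6_4 : BlkD.Tr :=
  .S 0 6 (.S 2 4 (.L 5 5 [4, 3, 17, 17, 17] [] [] 100000 2 2 1284615 23077 15385 76923 69231 0 0 0)
    (.E 1)) (.E 0)

lemma pr17_17_6_4 {n : ℕ} (hn : 5 ≤ n) : NoPr ((17 : ℕ) : ℤ) ((17 : ℕ) : ℤ) n 6 4 :=
  BlkD.pair_sound (d := d17_17_6_4) (by decide +kernel) hn (by decide) (tr := t17_17_6_4)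
    (by decide +kernel) rfl rfl rfl rfl

/-- the numbers of the pair `(6, 5)`, `R = 17`, `H = 17` -/
def d17_17_6_5 : BlkD.Pd :=
  ⟨17, 17, 3, 6, 5, 3, 0, 3, 0, 4, 4, 0, 0, 4, 4, 0, [0, 4, 8, 12], [0, 4, 8, 12], [⟨1, 1, 1, 4, 8,
    [0, 4], [0, 4]⟩]⟩

/-- the certificates of the pair `(6, 5)` -/
def t17_17_6_5 : BlkD.Tr :=
  .S 0 6 (.S 2 5 (.L 3 3 [4, 17, 17, 17, 17, 17] [] [] 100000 0 0 1300000 50000 50000 66667 55556 0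
    0 0) (.E 1)) (.E 0)

lemma pr17_17_6_5 {n : ℕ} (hn : 5 ≤ n) : NoPr ((17 : ℕ) : ℤ) ((17 : ℕ) : ℤ) n 6 5 :=
  BlkD.pair_sound (d := d17_17_6_5) (by decide +kernel) hn (by decide) (tr := t17_17_6_5)
    (by decide +kernel) rfl rfl rfl rfl

/-- the numbers of the pair `(7, 0)`, `R = 17`, `H = 17` -/
def d17_17_7_0 : BlkD.Pd :=
  ⟨17, 17, 3, 7, 0, 7, 0, 1, 0, 4, 4, 0, 0, 4, 4, 0, [0, 4, 8, 12, 16, 20, 24, 28], [0, 4, 8, 12,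
    16, 20, 24, 28], [⟨1, 1, 1, 4, 8, [0, 4], [0, 4]⟩]⟩

/-- the certificates of the pair `(7, 0)` -/
def t17_17_7_0 : BlkD.Tr :=
  .S 0 7 (.S 2 0 (.L 3 3 [4] [] [] 100000 0 0 893333 46667 0 60000 0 0 0 0) (.E 1)) (.E 0)

lemma pr17_17_7_0 {n : ℕ} (hn : 5 ≤ n) : NoPr ((17 : ℕ) : ℤ) ((17 : ℕ) : ℤ) n 7 0 :=
  BlkD.pair_sound (d := d17_17_7_0) (by decide +kernel) hn (by decide) (tr := t17_17_7_0)
    (by decide +kernel) rfl rfl rfl rfl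

/-- the numbers of the pair `(7, 1)`, `R = 17`, `H = 17` -/
def d17_17_7_1 : BlkD.Pd :=
  ⟨17, 17, 3, 7, 1, 6, 1, 1, 2, 2, 6, 0, 0, 4, 4, 0, [0, 6, 12, 18, 20, 22, 24], [0, 4, 8, 12, 16,
    20, 24], [⟨1, 1, 1, 4, 8, [0, 4], [0, 4]⟩, ⟨1, 1, 1, 4, 10, [0, 6], [0, 4]⟩]⟩

/-- the certificates of the pair `(7, 1)` -/
def t17_17_7_1 : BlkD.Tr :=
  .S 0 7 (.S 2 1 (.S 0 3 (.L 3 4 [4, 4] [] [] 100000 21429 0 871427 57143 0 71429 0 0 0 0) (.S 0 5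
    (.L 3 4 [4, 4] [] [] 100000 1 1 1072727 27273 0 63636 0 0 0 0) (.L 3 4 [4, 4] [] [] 100000 0 0
    1040000 20000 0 60000 0 0 0 0))) (.E 1)) (.E 0)

lemma pr17_17_7_1 {n : ℕ} (hn : 5 ≤ n) : NoPr ((17 : ℕ) : ℤ) ((17 : ℕ) : ℤ) n 7 1 :=
  BlkD.pair_sound (d := d17_17_7_1) (by decide +kernel) hn (by decide) (tr := t17_17_7_1)
    (by decide +kernel) rfl rfl rfl rfl

end BlkC

end Pool.Agent.Lib.MP_f04ccf_co
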