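import Pool.Agent.Lib.MP_f04ccf_co.M.BlkT

/-!
MP_f04ccf_co, block certificate, data `R = 17`, `H = 17`, part 4 (generated, helper99, bd9.cpp, gen.py):
the pairs (9, 1), (9, 2), (10, 0), (10, 1), (11, 0).
-/

set_option autoImplicit false
set_option maxRecDepth 100000

namespace Pool.Agent.Lib.MP_f04ccf_co

namespace BlkC

/-- the numbers of the pair `(9, 1)`, `R = 17`, `H = 17` -/
def d17_17_9_1 : BlkD.Pd :=
  ⟨17, 17, 3, 9, 1, 4, 1, 1, 0, 4, 8, 0, 0, 4, 4, 0, [0, 8, 16, 16, 16], [0, 4, 8, 12, 16], [⟨1, 1,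
    1, 4, 8, [0, 4], [0, 4]⟩, ⟨1, 1, 1, 4, 12, [0, 8], [0, 4]⟩]⟩

/-- the certificates of the pair `(9, 1)` -/
def t17_17_9_1 : BlkD.Tr :=
  .S 0 9 (.S 2 1 (.S 0 4 (.L 4 6 [4, 3] [] [] 100000 100000 100000 1025000 75000 0 100000 0 0 0 0)
    (.S 0 7 (.S 0 6 (.S 0 5 (.L 4 6 [4, 3] [] [] 100000 175000 175000 1100000 75000 0 100000 0 0 0
    0) (.S 1 11 (.S 1 5 (.L 4 6 [4, 3] [] [] 100000 0 0 1175000 25000 0 25000 0 0 0 0) (.S 1 8 (.S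
    1 7 (.L 4 6 [4, 3] [] [] 100000 0 0 1266669 33333 0 33333 0 0 0 0) (.L 4 6 [4, 3] [176, 176,
    176, 176, 176, 176] [] 100000 50000 50000 1200000 50000 0 100000 0 0 0 0)) (.S 1 10 (.S 1 9 (.L
    4 6 [4, 3] [204, 204, 204, 204, 204, 204] [] 100000 200000 200000 1000000 100000 0 100000 0 0 0
    0) (.L 4 6 [4, 3] [234, 234, 234, 234, 234, 234] [] 100000 200000 200000 1000000 100000 0
    100000 0 0 0 0)) (.L 4 6 [4, 3] [266, 266, 266, 266, 266, 266] [] 100000 450000 200000 0 225000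
    0 350000 0 0 0 0)))) (.E 0))) (.S 1 10 (.S 1 5 (.L 4 6 [4, 3] [] [] 100000 0 0 1220000 40000 0
    40000 0 0 0 0) (.S 1 8 (.S 1 7 (.S 1 6 (.L 4 6 [4, 3] [138, 138, 138, 138, 130, 122] [] 100000
    50000 50000 1200000 50000 0 100000 0 0 0 0) (.L 4 6 [4, 3] [164, 164, 164, 164, 164, 156] []
    100000 0 0 1250000 50000 0 75000 0 0 0 0)) (.L 4 6 [4, 3] [192, 192, 192, 192, 192, 192] []
    100000 0 0 1250000 50000 0 100000 0 0 0 0)) (.S 1 9 (.L 4 6 [4, 3] [222, 222, 222, 222, 222,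
    222] [] 100000 66668 66668 1199999 66667 0 100000 0 0 0 0) (.L 4 6 [4, 3] [254, 254, 254, 254,
    254, 254] [] 100000 385714 242857 1 242857 0 242857 0 0 0 0)))) (.E 0))) (.S 0 8 (.S 1 9 (.S 1
    4 (.L 4 6 [4, 3] [] [] 100000 0 0 1200000 50000 0 50000 0 0 0 0) (.S 1 7 (.S 1 6 (.L 4 6 [4, 3]
    [] [] 100000 0 0 1266668 33333 0 100000 0 0 0 0) (.L 4 6 [4, 3] [178, 178, 178, 178, 178, 170]
    [] 100000 100000 100000 1100000 100000 0 100000 0 0 0 0)) (.S 1 8 (.L 4 6 [4, 3] [208, 208,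
    208, 208, 208, 208] [] 100000 540000 320000 0 320000 0 320000 0 0 0 0) (.L 4 6 [4, 3] [240,
    240, 240, 240, 240, 240] [] 100000 466666 283333 2 283333 0 283333 0 0 0 0)))) (.E 0)) (.L 4 6
    [4, 3] [] [] 100000 0 0 1255556 22222 0 100000 0 0 0 0)))) (.E 1)) (.E 0)

lemma pr17_17_9_1 {n : ℕ} (hn : 5 ≤ n) : NoPr ((17 : ℕ) : ℤ) ((17 : ℕ) : ℤ) n 9 1 :=
  BlkD.pair_sound (d := d17_17_9_1) (by decide +kernel) hn (by decide) (tr := t17_17_9_1)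
    (by decide +kernel) rfl rfl rfl rfl

/-- the numbers of the pair `(9, 2)`, `R = 17`, `H = 17` -/
def d17_17_9_2 : BlkD.Pd :=
  ⟨17, 17, 3, 9, 2, 3, 0, 2, 0, 4, 4, 0, 0, 4, 4, 0, [0, 4, 8, 12], [0, 4, 8, 12], [⟨1, 1, 1, 4, 8,
    [0, 4], [0, 4]⟩]⟩

/-- the certificates of the pair `(9, 2)` -/
def t17_17_9_2 : BlkD.Tr :=
  .S 0 9 (.S 2 2 (.L 3 3 [4, 17, 17] [] [] 100000 0 0 1300000 66667 0 100000 33333 0 0 0) (.E 1))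
    (.E 0)

lemma pr17_17_9_2 {n : ℕ} (hn : 5 ≤ n) : NoPr ((17 : ℕ) : ℤ) ((17 : ℕ) : ℤ) n 9 2 :=
  BlkD.pair_sound (d := d17_17_9_2) (by decide +kernel) hn (by decide) (tr := t17_17_9_2)
    (by decide +kernel) rfl rfl rfl rfl

/-- the numbers of the pair `(10, 0)`, `R = 17`, `H = 17` -/
def d17_17_10_0 : BlkD.Pd :=
  ⟨17, 17, 3, 10, 0, 4, 0, 1, 0, 4, 4, 0, 0, 4, 4, 0, [0, 4, 8, 12, 16], [0, 4, 8, 12, 16], [⟨1, 1,
    1, 4, 8, [0, 4], [0, 4]⟩]⟩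

/-- the certificates of the pair `(10, 0)` -/
def t17_17_10_0 : BlkD.Tr :=
  .S 0 10 (.S 2 0 (.L 3 3 [4] [] [] 100000 0 0 1100000 100000 0 100000 0 0 0 0) (.E 1)) (.E 0)

lemma pr17_17_10_0 {n : ℕ} (hn : 5 ≤ n) : NoPr ((17 : ℕ) : ℤ) ((17 : ℕ) : ℤ) n 10 0 :=
  BlkD.pair_sound (d := d17_17_10_0) (by decide +kernel) hn (by decide) (tr := t17_17_10_0)
    (by decide +kernel) rfl rfl rfl rfl

/-- the numbers of the pair `(10, 1)`, `R = 17`, `H = 17` -/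
def d17_17_10_1 : BlkD.Pd :=
  ⟨17, 17, 3, 10, 1, 3, 0, 1, 0, 4, 4, 0, 0, 4, 4, 0, [0, 4, 8, 12], [0, 4, 8, 12], [⟨1, 1, 1, 4,
    8, [0, 4], [0, 4]⟩]⟩

/-- the certificates of the pair `(10, 1)` -/
def t17_17_10_1 : BlkD.Tr :=
  .S 0 10 (.S 2 1 (.L 3 3 [4, 17] [] [] 100000 0 0 1300000 80000 0 100000 0 0 0 0) (.E 1)) (.E 0)

lemma pr17_17_10_1 {n : ℕ} (hn : 5 ≤ n) : NoPr ((17 : ℕ) : ℤ) ((17 : ℕ) : ℤ) n 10 1 :=
  BlkD.pair_sound (d := d17_17_10_1) (by decide +kernel) hn (by decide) (tr := t17_17_10_1)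
    (by decide +kernel) rfl rfl rfl rfl

/-- the numbers of the pair `(11, 0)`, `R = 17`, `H = 17` -/
def d17_17_11_0 : BlkD.Pd :=
  ⟨17, 17, 3, 11, 0, 3, 0, 1, 0, 4, 4, 0, 0, 4, 4, 0, [0, 4, 8, 12], [0, 4, 8, 12], [⟨1, 1, 1, 4,
    8, [0, 4], [0, 4]⟩]⟩

/-- the certificates of the pair `(11, 0)` -/
def t17_17_11_0 : BlkD.Tr :=
  .S 0 11 (.S 2 0 (.L 3 3 [4] [] [] 100000 0 0 1200000 100000 0 100000 0 0 0 0) (.E 1)) (.E 0)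

lemma pr17_17_11_0 {n : ℕ} (hn : 5 ≤ n) : NoPr ((17 : ℕ) : ℤ) ((17 : ℕ) : ℤ) n 11 0 :=
  BlkD.pair_sound (d := d17_17_11_0) (by decide +kernel) hn (by decide) (tr := t17_17_11_0)
    (by decide +kernel) rfl rfl rfl rfl

end BlkC

end Pool.Agent.Lib.MP_f04ccf_co
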