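import Pool.Agent.Lib.MP_f04ccf_co.M.BlkT

/-!
MP_f04ccf_co, block certificate, data `R = 17`, `H = 18`, part 1 (generated, helper99, bd9.cpp, gen.py):
the pairs (0, 0), (1, 0), (1, 1), (2, 0), (2, 1), (2, 2), (3, 0), (3, 1), (3, 2), (3, 3), (4, 0), (4, 1), (4, 2), (4, 3), (4, 4), (5, 0), (5, 1), (5, 2), (5, 3).
-/

set_option autoImplicit false
set_option maxRecDepth 100000

namespace Pool.Agent.Lib.MP_f04ccf_co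

namespace BlkC

/-- the numbers of the pair `(0, 0)`, `R = 17`, `H = 18` -/
def d17_18_0_0 : BlkD.Pd :=
  ⟨17, 18, 4, 0, 0, 15, 0, 1, 0, 4, 4, 0, 0, 4, 4, 0, [0, 4, 8, 12, 16, 20, 24, 28, 32, 36, 40, 44,
    48, 52, 56, 60], [0, 4, 8, 12, 16, 20, 24, 28, 32, 36, 40, 44, 48, 52, 56, 60], [⟨1, 1, 1, 4,
    8, [0, 4], [0, 4]⟩]⟩

/-- the certificates of the pair `(0, 0)` -/
def t17_18_0_0 : BlkD.Tr :=
  .S 0 0 (.S 2 0 (.L 3 3 [4] [] [] 100000 0 0 100000 0 0 100000 0 0 0 0) (.E 1)) (.E 0)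

lemma pr17_18_0_0 {n : ℕ} (hn : 6 ≤ n) : NoPr ((17 : ℕ) : ℤ) ((18 : ℕ) : ℤ) n 0 0 :=
  BlkD.pair_sound (d := d17_18_0_0) (by decide +kernel) hn (by decide) (tr := t17_18_0_0)
    (by decide +kernel) rfl rfl rfl rfl

/-- the numbers of the pair `(1, 0)`, `R = 17`, `H = 18` -/
def d17_18_1_0 : BlkD.Pd :=
  ⟨17, 18, 4, 1, 0, 14, 0, 1, 0, 4, 4, 0, 0, 4, 4, 0, [0, 4, 8, 12, 16, 20, 24, 28, 32, 36, 40, 44,
    48, 52, 56], [0, 4, 8, 12, 16, 20, 24, 28, 32, 36, 40, 44, 48, 52, 56], [⟨1, 1, 1, 4, 8, [0,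
    4], [0, 4]⟩]⟩

/-- the certificates of the pair `(1, 0)` -/
def t17_18_1_0 : BlkD.Tr :=
  .S 0 1 (.S 2 0 (.L 3 3 [4] [] [] 100000 0 0 200000 0 0 0 100000 0 0 0) (.E 1)) (.E 0)

lemma pr17_18_1_0 {n : ℕ} (hn : 6 ≤ n) : NoPr ((17 : ℕ) : ℤ) ((18 : ℕ) : ℤ) n 1 0 :=
  BlkD.pair_sound (d := d17_18_1_0) (by decide +kernel) hn (by decide) (tr := t17_18_1_0)
    (by decide +kernel) rfl rfl rfl rfl

/-- the numbers of the pair `(1, 1)`, `R = 17`, `H = 18` -/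
def d17_18_1_1 : BlkD.Pd :=
  ⟨17, 18, 4, 1, 1, 13, 1, 1, 0, 4, 4, 0, 0, 4, 4, 0, [0, 4, 8, 12, 16, 20, 24, 28, 32, 36, 40, 44,
    48, 52], [0, 4, 8, 12, 16, 20, 24, 28, 32, 36, 40, 44, 48, 52], [⟨1, 1, 1, 4, 8, [0, 4], [0,
    4]⟩, ⟨1, 1, 1, 4, 8, [0, 4], [0, 4]⟩]⟩

/-- the certificates of the pair `(1, 1)` -/
def t17_18_1_1 : BlkD.Tr :=
  .S 0 1 (.S 2 1 (.L 3 3 [4, 4] [] [] 100000 0 0 400000 0 0 0 0 0 0 0) (.E 1)) (.E 0)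

lemma pr17_18_1_1 {n : ℕ} (hn : 6 ≤ n) : NoPr ((17 : ℕ) : ℤ) ((18 : ℕ) : ℤ) n 1 1 :=
  BlkD.pair_sound (d := d17_18_1_1) (by decide +kernel) hn (by decide) (tr := t17_18_1_1)
    (by decide +kernel) rfl rfl rfl rfl

/-- the numbers of the pair `(2, 0)`, `R = 17`, `H = 18` -/
def d17_18_2_0 : BlkD.Pd :=
  ⟨17, 18, 4, 2, 0, 13, 0, 1, 0, 4, 4, 0, 0, 4, 4, 0, [0, 4, 8, 12, 16, 20, 24, 28, 32, 36, 40, 44,
    48, 52], [0, 4, 8, 12, 16, 20, 24, 28, 32, 36, 40, 44, 48, 52], [⟨1, 1, 1, 4, 8, [0, 4], [0,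
    4]⟩]⟩

/-- the certificates of the pair `(2, 0)` -/
def t17_18_2_0 : BlkD.Tr :=
  .S 0 2 (.S 2 0 (.L 3 3 [4] [] [] 100000 0 0 300000 0 0 0 100000 0 0 0) (.E 1)) (.E 0)

lemma pr17_18_2_0 {n : ℕ} (hn : 6 ≤ n) : NoPr ((17 : ℕ) : ℤ) ((18 : ℕ) : ℤ) n 2 0 :=
  BlkD.pair_sound (d := d17_18_2_0) (by decide +kernel) hn (by decide) (tr := t17_18_2_0)
    (by decide +kernel) rfl rfl rfl rfl

/-- the numbers of the pair `(2, 1)`, `R = 17`, `H = 18` -/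
def d17_18_2_1 : BlkD.Pd :=
  ⟨17, 18, 4, 2, 1, 12, 1, 1, 0, 4, 4, 0, 0, 4, 4, 0, [0, 4, 8, 12, 16, 20, 24, 28, 32, 36, 40, 44,
    48], [0, 4, 8, 12, 16, 20, 24, 28, 32, 36, 40, 44, 48], [⟨1, 1, 1, 4, 8, [0, 4], [0, 4]⟩, ⟨1,
    1, 1, 4, 8, [0, 4], [0, 4]⟩]⟩

/-- the certificates of the pair `(2, 1)` -/
def t17_18_2_1 : BlkD.Tr :=
  .S 0 2 (.S 2 1 (.L 3 3 [4, 4] [] [] 100000 0 0 500000 0 0 0 0 0 0 0) (.E 1)) (.E 0)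

lemma pr17_18_2_1 {n : ℕ} (hn : 6 ≤ n) : NoPr ((17 : ℕ) : ℤ) ((18 : ℕ) : ℤ) n 2 1 :=
  BlkD.pair_sound (d := d17_18_2_1) (by decide +kernel) hn (by decide) (tr := t17_18_2_1)
    (by decide +kernel) rfl rfl rfl rfl

/-- the numbers of the pair `(2, 2)`, `R = 17`, `H = 18` -/
def d17_18_2_2 : BlkD.Pd :=
  ⟨17, 18, 4, 2, 2, 11, 2, 1, 0, 4, 6, 0, 0, 4, 6, 0, [0, 6, 12, 18, 24, 30, 36, 42, 44, 44, 44,
    44], [0, 6, 12, 18, 24, 30, 36, 42, 44, 44, 44, 44], [⟨1, 1, 1, 4, 8, [0, 4], [0, 4]⟩, ⟨1, 1,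
    1, 4, 8, [0, 4], [0, 4]⟩, ⟨1, 1, 1, 6, 12, [0, 6], [0, 6]⟩]⟩

/-- the certificates of the pair `(2, 2)` -/
def t17_18_2_2 : BlkD.Tr :=
  .S 0 2 (.S 2 2 (.L 4 4 [4, 4, 4] [] [] 100000 0 0 600000 0 0 25000 25000 25000 12500 31250) (.E
    1)) (.E 0)

lemma pr17_18_2_2 {n : ℕ} (hn : 6 ≤ n) : NoPr ((17 : ℕ) : ℤ) ((18 : ℕ) : ℤ) n 2 2 :=
  BlkD.pair_sound (d := d17_18_2_2) (by decide +kernel) hn (by decide) (tr := t17_18_2_2)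
    (by decide +kernel) rfl rfl rfl rfl

/-- the numbers of the pair `(3, 0)`, `R = 17`, `H = 18` -/
def d17_18_3_0 : BlkD.Pd :=
  ⟨17, 18, 4, 3, 0, 12, 0, 1, 0, 4, 4, 0, 0, 4, 4, 0, [0, 4, 8, 12, 16, 20, 24, 28, 32, 36, 40, 44,
    48], [0, 4, 8, 12, 16, 20, 24, 28, 32, 36, 40, 44, 48], [⟨1, 1, 1, 4, 8, [0, 4], [0, 4]⟩]⟩

/-- the certificates of the pair `(3, 0)` -/
def t17_18_3_0 : BlkD.Tr :=
  .S 0 3 (.S 2 0 (.L 3 3 [4] [] [] 100000 0 0 425000 0 0 25000 75000 0 0 0) (.E 1)) (.E 0)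

lemma pr17_18_3_0 {n : ℕ} (hn : 6 ≤ n) : NoPr ((17 : ℕ) : ℤ) ((18 : ℕ) : ℤ) n 3 0 :=
  BlkD.pair_sound (d := d17_18_3_0) (by decide +kernel) hn (by decide) (tr := t17_18_3_0)
    (by decide +kernel) rfl rfl rfl rfl

/-- the numbers of the pair `(3, 1)`, `R = 17`, `H = 18` -/
def d17_18_3_1 : BlkD.Pd :=
  ⟨17, 18, 4, 3, 1, 11, 1, 1, 0, 4, 6, 0, 0, 4, 4, 0, [0, 6, 12, 18, 24, 30, 36, 42, 44, 44, 44,
    44], [0, 4, 8, 12, 16, 20, 24, 28, 32, 36, 40, 44], [⟨1, 1, 1, 4, 8, [0, 4], [0, 4]⟩, ⟨1, 1, 1,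
    4, 10, [0, 6], [0, 4]⟩]⟩

/-- the certificates of the pair `(3, 1)` -/
def t17_18_3_1 : BlkD.Tr :=
  .S 0 3 (.S 2 1 (.L 3 4 [4, 4] [] [] 100000 0 0 600001 0 0 33333 0 0 0 0) (.E 1)) (.E 0)

lemma pr17_18_3_1 {n : ℕ} (hn : 6 ≤ n) : NoPr ((17 : ℕ) : ℤ) ((18 : ℕ) : ℤ) n 3 1 :=
  BlkD.pair_sound (d := d17_18_3_1) (by decide +kernel) hn (by decide) (tr := t17_18_3_1)
    (by decide +kernel) rfl rfl rfl rfl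

/-- the numbers of the pair `(3, 2)`, `R = 17`, `H = 18` -/
def d17_18_3_2 : BlkD.Pd :=
  ⟨17, 18, 4, 3, 2, 10, 2, 1, 0, 4, 6, 0, 0, 4, 6, 0, [0, 6, 12, 18, 24, 30, 36, 40, 40, 40, 40],
    [0, 6, 12, 18, 24, 30, 36, 40, 40, 40, 40], [⟨1, 1, 1, 4, 8, [0, 4], [0, 4]⟩, ⟨1, 1, 1, 4, 10,
    [0, 6], [0, 4]⟩, ⟨1, 1, 1, 6, 12, [0, 6], [0, 6]⟩]⟩

/-- the certificates of the pair `(3, 2)` -/
def t17_18_3_2 : BlkD.Tr :=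
  .S 0 3 (.S 2 2 (.L 4 4 [4, 4, 4] [] [] 100000 1 1 700001 0 0 33333 25000 23148 7804 34524) (.E
    1)) (.E 0)

lemma pr17_18_3_2 {n : ℕ} (hn : 6 ≤ n) : NoPr ((17 : ℕ) : ℤ) ((18 : ℕ) : ℤ) n 3 2 :=
  BlkD.pair_sound (d := d17_18_3_2) (by decide +kernel) hn (by decide) (tr := t17_18_3_2)
    (by decide +kernel) rfl rfl rfl rfl

/-- the numbers of the pair `(3, 3)`, `R = 17`, `H = 18` -/
def d17_18_3_3 : BlkD.Pd :=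
  ⟨17, 18, 4, 3, 3, 9, 3, 1, 4, 1, 8, 0, 4, 1, 8, 0, [0, 8, 16, 21, 25, 29, 33, 37, 41, 45], [0, 8,
    16, 21, 25, 29, 33, 37, 41, 45], [⟨1, 1, 1, 4, 8, [0, 4], [0, 4]⟩, ⟨1, 1, 1, 6, 12, [0, 6], [0,
    6]⟩, ⟨1, 1, 1, 6, 12, [0, 6], [0, 6]⟩, ⟨1, 1, 1, 6, 16, [0, 8], [0, 8]⟩]⟩

/-- the certificates of the pair `(3, 3)` -/
def t17_18_3_3 : BlkD.Tr :=
  .S 0 3 (.S 2 3 (.L 4 4 [4, 4, 4, 5] [] [] 100000 18333 18332 800001 0 0 55000 50000 22857 22143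
    25000) (.E 1)) (.E 0)

lemma pr17_18_3_3 {n : ℕ} (hn : 6 ≤ n) : NoPr ((17 : ℕ) : ℤ) ((18 : ℕ) : ℤ) n 3 3 :=
  BlkD.pair_sound (d := d17_18_3_3) (by decide +kernel) hn (by decide) (tr := t17_18_3_3)
    (by decide +kernel) rfl rfl rfl rfl

/-- the numbers of the pair `(4, 0)`, `R = 17`, `H = 18` -/
def d17_18_4_0 : BlkD.Pd :=
  ⟨17, 18, 4, 4, 0, 11, 0, 1, 0, 4, 4, 0, 0, 4, 4, 0, [0, 4, 8, 12, 16, 20, 24, 28, 32, 36, 40,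
    44], [0, 4, 8, 12, 16, 20, 24, 28, 32, 36, 40, 44], [⟨1, 1, 1, 4, 8, [0, 4], [0, 4]⟩]⟩

/-- the certificates of the pair `(4, 0)` -/
def t17_18_4_0 : BlkD.Tr :=
  .S 0 4 (.S 2 0 (.L 3 3 [4] [] [] 100000 0 0 520000 20000 0 40000 60000 0 0 0) (.E 1)) (.E 0)

lemma pr17_18_4_0 {n : ℕ} (hn : 6 ≤ n) : NoPr ((17 : ℕ) : ℤ) ((18 : ℕ) : ℤ) n 4 0 :=
  BlkD.pair_sound (d := d17_18_4_0) (by decide +kernel) hn (by decide) (tr := t17_18_4_0)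
    (by decide +kernel) rfl rfl rfl rfl

/-- the numbers of the pair `(4, 1)`, `R = 17`, `H = 18` -/
def d17_18_4_1 : BlkD.Pd :=
  ⟨17, 18, 4, 4, 1, 10, 1, 1, 0, 4, 6, 0, 0, 4, 4, 0, [0, 6, 12, 18, 24, 30, 36, 40, 40, 40, 40],
    [0, 4, 8, 12, 16, 20, 24, 28, 32, 36, 40], [⟨1, 1, 1, 4, 8, [0, 4], [0, 4]⟩, ⟨1, 1, 1, 4, 10,
    [0, 6], [0, 4]⟩]⟩

/-- the certificates of the pair `(4, 1)` -/
def t17_18_4_1 : BlkD.Tr :=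
  .S 0 4 (.S 2 1 (.L 3 4 [4, 4] [] [] 100000 0 0 675000 25000 0 50000 0 0 0 0) (.E 1)) (.E 0)

lemma pr17_18_4_1 {n : ℕ} (hn : 6 ≤ n) : NoPr ((17 : ℕ) : ℤ) ((18 : ℕ) : ℤ) n 4 1 :=
  BlkD.pair_sound (d := d17_18_4_1) (by decide +kernel) hn (by decide) (tr := t17_18_4_1)
    (by decide +kernel) rfl rfl rfl rfl

/-- the numbers of the pair `(4, 2)`, `R = 17`, `H = 18` -/
def d17_18_4_2 : BlkD.Pd :=
  ⟨17, 18, 4, 4, 2, 9, 2, 1, 2, 2, 8, 0, 0, 4, 6, 0, [0, 8, 16, 24, 26, 28, 30, 32, 34, 36], [0, 6,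
    12, 18, 24, 30, 36, 36, 36, 36], [⟨1, 1, 1, 4, 8, [0, 4], [0, 4]⟩, ⟨1, 1, 1, 4, 10, [0, 6], [0,
    4]⟩, ⟨1, 1, 1, 6, 14, [0, 8], [0, 6]⟩]⟩

/-- the certificates of the pair `(4, 2)` -/
def t17_18_4_2 : BlkD.Tr :=
  .S 0 4 (.S 2 2 (.L 4 5 [4, 4, 4] [] [] 100000 1 0 810529 3509 0 78947 26316 21053 23392 27778)
    (.E 1)) (.E 0)

lemma pr17_18_4_2 {n : ℕ} (hn : 6 ≤ n) : NoPr ((17 : ℕ) : ℤ) ((18 : ℕ) : ℤ) n 4 2 :=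
  BlkD.pair_sound (d := d17_18_4_2) (by decide +kernel) hn (by decide) (tr := t17_18_4_2)
    (by decide +kernel) rfl rfl rfl rfl

/-- the numbers of the pair `(4, 3)`, `R = 17`, `H = 18` -/
def d17_18_4_3 : BlkD.Pd :=
  ⟨17, 18, 4, 4, 3, 8, 3, 1, 2, 2, 8, 0, 4, 1, 8, 0, [0, 8, 16, 22, 24, 26, 28, 30, 32], [0, 8, 16,
    20, 24, 28, 32, 36, 40], [⟨1, 1, 1, 4, 8, [0, 4], [0, 4]⟩, ⟨1, 1, 1, 6, 12, [0, 6], [0, 6]⟩,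
    ⟨1, 1, 1, 6, 14, [0, 8], [0, 6]⟩, ⟨1, 1, 1, 6, 16, [0, 8], [0, 8]⟩]⟩

/-- the certificates of the pair `(4, 3)` -/
def t17_18_4_3 : BlkD.Tr :=
  .S 0 4 (.S 2 3 (.S 0 2 (.S 0 1 (.L 4 5 [4, 4, 4, 5] [] [] 100000 50463 50463 750002 50000 0 66667
    50000 5556 8333 34722) (.L 4 5 [4, 4, 4, 5] [] [] 100000 19944 19944 916296 0 0 83708 50000
    20787 19382 26124)) (.L 4 5 [4, 4, 4, 5] [] [] 100000 17857 17856 900000 0 0 67857 57143 17857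
    28571 28571)) (.E 1)) (.E 0)

lemma pr17_18_4_3 {n : ℕ} (hn : 6 ≤ n) : NoPr ((17 : ℕ) : ℤ) ((18 : ℕ) : ℤ) n 4 3 :=
  BlkD.pair_sound (d := d17_18_4_3) (by decide +kernel) hn (by decide) (tr := t17_18_4_3)
    (by decide +kernel) rfl rfl rfl rfl

/-- the numbers of the pair `(4, 4)`, `R = 17`, `H = 18` -/
def d17_18_4_4 : BlkD.Pd :=
  ⟨17, 18, 4, 4, 4, 7, 3, 2, 2, 2, 8, 0, 2, 2, 8, 0, [0, 8, 16, 20, 22, 24, 26, 28], [0, 8, 16, 20,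
    22, 24, 26, 28], [⟨1, 1, 1, 4, 8, [0, 4], [0, 4]⟩, ⟨1, 1, 1, 4, 12, [0, 6], [0, 6]⟩, ⟨1, 1, 1,
    4, 16, [0, 8], [0, 8]⟩, ⟨1, 1, 1, 4, 16, [0, 8], [0, 8]⟩]⟩

/-- the certificates of the pair `(4, 4)` -/
def t17_18_4_4 : BlkD.Tr :=
  .S 0 4 (.S 2 4 (.S 0 2 (.S 0 1 (.L 5 5 [4, 4, 4, 4, 17] [] [] 100000 48955 48955 905439 64854 0
    76569 68201 0 8368 25523) (.S 1 16 (.S 1 8 (.S 1 4 (.S 1 2 (.L 5 5 [4, 4, 4, 4, 17] [] []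
    100000 25974 25974 975760 13636 9091 33333 59740 3030 19048 21212) (.S 1 3 (.L 5 5 [4, 4, 4, 4,
    17] [44, 36, 28, 18, 0, 0] [] 100000 23932 23932 989747 10256 2564 100000 84615 15385 12821
    23077) (.L 5 5 [4, 4, 4, 4, 17] [58, 54, 46, 38, 28, 0] [] 100000 21429 21429 1020833 20833
    4167 62500 64286 20833 14881 20833))) (.L 5 5 [4, 4, 4, 4, 17] [] [] 100000 20385 0 857309 1923
    1923 120385 50000 18077 385 38462)) (.E 0)) (.E 0))) (.S 0 3 (.S 1 15 (.S 1 7 (.S 1 3 (.S 1 1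
    (.L 5 5 [4, 4, 4, 4, 17] [] [] 100000 25706 25706 980585 22330 9709 36893 59639 2913 19972
    20388) (.L 5 5 [4, 4, 4, 4, 17] [] [] 100000 7241 7241 1064385 1370 8219 36986 53229 63014
    15264 31507)) (.E 0)) (.E 0)) (.E 0)) (.L 5 5 [4, 4, 4, 4, 17] [] [] 100000 3449 3449 1026438 0
    1149 68966 70115 62069 27586 31034))) (.E 1)) (.E 0)

lemma pr17_18_4_4 {n : ℕ} (hn : 6 ≤ n) : NoPr ((17 : ℕ) : ℤ) ((18 : ℕ) : ℤ) n 4 4 :=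
  BlkD.pair_sound (d := d17_18_4_4) (by decide +kernel) hn (by decide) (tr := t17_18_4_4)
    (by decide +kernel) rfl rfl rfl rfl

/-- the numbers of the pair `(5, 0)`, `R = 17`, `H = 18` -/
def d17_18_5_0 : BlkD.Pd :=
  ⟨17, 18, 4, 5, 0, 10, 0, 1, 0, 4, 4, 0, 0, 4, 4, 0, [0, 4, 8, 12, 16, 20, 24, 28, 32, 36, 40],
    [0, 4, 8, 12, 16, 20, 24, 28, 32, 36, 40], [⟨1, 1, 1, 4, 8, [0, 4], [0, 4]⟩]⟩

/-- the certificates of the pair `(5, 0)` -/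
def t17_18_5_0 : BlkD.Tr :=
  .S 0 5 (.S 2 0 (.L 3 3 [4] [] [] 100000 0 0 600000 50000 0 50000 50000 0 0 0) (.E 1)) (.E 0)

lemma pr17_18_5_0 {n : ℕ} (hn : 6 ≤ n) : NoPr ((17 : ℕ) : ℤ) ((18 : ℕ) : ℤ) n 5 0 :=
  BlkD.pair_sound (d := d17_18_5_0) (by decide +kernel) hn (by decide) (tr := t17_18_5_0)
    (by decide +kernel) rfl rfl rfl rfl

/-- the numbers of the pair `(5, 1)`, `R = 17`, `H = 18` -/
def d17_18_5_1 : BlkD.Pd :=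
  ⟨17, 18, 4, 5, 1, 9, 1, 1, 2, 2, 6, 0, 0, 4, 4, 0, [0, 6, 12, 18, 24, 28, 30, 32, 34, 36], [0, 4,
    8, 12, 16, 20, 24, 28, 32, 36], [⟨1, 1, 1, 4, 8, [0, 4], [0, 4]⟩, ⟨1, 1, 1, 4, 10, [0, 6], [0,
    4]⟩]⟩

/-- the certificates of the pair `(5, 1)` -/
def t17_18_5_1 : BlkD.Tr :=
  .S 0 5 (.S 2 1 (.L 3 4 [4, 4] [] [] 100000 0 0 785716 28571 0 57143 0 0 0 0) (.E 1)) (.E 0)

lemma pr17_18_5_1 {n : ℕ} (hn : 6 ≤ n) : NoPr ((17 : ℕ) : ℤ) ((18 : ℕ) : ℤ) n 5 1 :=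
  BlkD.pair_sound (d := d17_18_5_1) (by decide +kernel) hn (by decide) (tr := t17_18_5_1)
    (by decide +kernel) rfl rfl rfl rfl

/-- the numbers of the pair `(5, 2)`, `R = 17`, `H = 18` -/
def d17_18_5_2 : BlkD.Pd :=
  ⟨17, 18, 4, 5, 2, 8, 2, 1, 2, 2, 8, 0, 3, 1, 6, 0, [0, 8, 16, 22, 24, 26, 28, 30, 32], [0, 6, 12,
    17, 20, 23, 26, 29, 32], [⟨1, 1, 1, 4, 8, [0, 4], [0, 4]⟩, ⟨1, 1, 1, 4, 10, [0, 6], [0, 4]⟩,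
    ⟨1, 1, 1, 6, 14, [0, 8], [0, 6]⟩]⟩

/-- the certificates of the pair `(5, 2)` -/
def t17_18_5_2 : BlkD.Tr :=
  .S 0 5 (.S 2 2 (.L 4 5 [4, 4, 4] [] [] 100000 1 1 970988 7253 0 50000 16925 7253 28530 32108) (.E
    1)) (.E 0)

lemma pr17_18_5_2 {n : ℕ} (hn : 6 ≤ n) : NoPr ((17 : ℕ) : ℤ) ((18 : ℕ) : ℤ) n 5 2 :=
  BlkD.pair_sound (d := d17_18_5_2) (by decide +kernel) hn (by decide) (tr := t17_18_5_2)
    (by decide +kernel) rfl rfl rfl rfl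

/-- the numbers of the pair `(5, 3)`, `R = 17`, `H = 18` -/
def d17_18_5_3 : BlkD.Pd :=
  ⟨17, 18, 4, 5, 3, 7, 3, 2, 1, 3, 10, 0, 4, 1, 8, 0, [0, 10, 20, 24, 25, 26, 27, 28], [0, 8, 15,
    19, 23, 27, 31, 35], [⟨1, 1, 1, 4, 8, [0, 4], [0, 4]⟩, ⟨1, 1, 1, 4, 12, [0, 6], [0, 6]⟩, ⟨1, 1,
    1, 4, 14, [0, 8], [0, 6]⟩, ⟨2, 1, 1, 4, 22, [0, 10, 14], [0, 8]⟩]⟩

/-- the certificates of the pair `(5, 3)` -/
def t17_18_5_3 : BlkD.Tr :=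
  .S 0 5 (.S 2 3 (.S 0 2 (.S 0 1 (.L 4 5 [4, 4, 4, 5] [] [] 100000 100000 100000 600000 100000 0
    100000 100000 0 0 0) (.S 1 16 (.S 1 8 (.S 1 4 (.S 1 2 (.L 4 5 [4, 4, 4, 5] [] [] 100000 33334
    33334 900000 0 0 0 0 0 0 16667) (.S 1 3 (.L 4 5 [4, 4, 4, 5] [48, 38, 28, 18, 0, 0] [] 100000
    33334 33334 962500 12500 0 12500 62500 0 37500 18750) (.L 5 6 [4, 4, 3, 4] [62, 58, 48, 38, 28,
    0] [] 100000 30752 30752 1007073 23232 0 46465 54377 3872 22391 25589))) (.S 1 6 (.S 1 5 (.S 2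
    1 (.L 4 5 [4, 4, 4, 5] [78, 74, 70, 60, 50, 40] [] 100000 62697 62697 909928 33747 27543 67494
    61290 248 6452 3226) (.L 4 5 [4, 4, 4, 5] [78, 74, 70, 60, 50, 40] [] 100000 38195 38195 967708
    31250 0 69792 37500 5208 37500 18750)) (.L 4 5 [4, 4, 4, 5] [93, 92, 88, 84, 74, 64] [] 100000
    35803 35803 979631 14198 0 91975 66049 1235 12346 7407)) (.L 4 5 [4, 4, 4, 5] [] [] 100000
    32693 32693 905769 0 0 100000 94231 25000 5769 1923))) (.E 0)) (.E 0))) (.S 0 4 (.S 0 3 (.S 1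
    15 (.S 1 7 (.S 1 3 (.L 4 5 [4, 4, 4, 5] [] [] 100000 32064 32064 1000004 8889 0 93651 73333
    1905 26667 13333) (.S 1 5 (.S 1 4 (.S 2 1 (.S 2 0 (.L 4 5 [4, 4, 4, 5] [70, 66, 56, 46, 36, 0]
    [] 100000 50000 50000 700000 0 0 100000 100000 0 0 0) (.S 3 10 (.S 3 5 (.S 3 2 (.L 4 5 [4, 4,
    4, 5] [70, 66, 56, 46, 36, 0] [] 100000 28966 28966 981035 862 17241 78966 82759 7414 16379
    9138) (.S 3 4 (.S 3 3 (.L 4 5 [4, 4, 4, 5] [70, 66, 56, 46, 36, 0] [37, 30, 22, 12, 0, 0]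
    100000 33334 33334 994445 5556 27778 66667 44444 0 33333 16667) (.S 4 4 (.S 4 2 (.L 4 5 [4, 4,
    4, 5] [56, 46, 36, 0, 0, 0] [49, 45, 38, 30, 20, 0] 100000 66667 66667 866668 33333 33333
    100000 66667 0 33333 0) (.L 4 5 [4, 4, 4, 5] [70, 66, 56, 46, 36, 0] [49, 45, 38, 30, 20, 0]
    100000 33334 28890 882224 0 2222 104444 4444 0 15556 6667)) (.E 2))) (.E 1))) (.E 1)) (.E 1)))
    (.S 2 2 (.S 3 9 (.S 3 4 (.S 3 2 (.S 3 1 (.L 4 5 [4, 4, 4, 5] [70, 66, 56, 46, 36, 0] [] 100000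
    25510 25510 1000002 510 11224 81633 22959 11735 11735 12755) (.L 4 5 [4, 4, 4, 5] [70, 66, 56,
    46, 36, 0] [28, 20, 10, 0, 0, 0] 100000 33334 33334 996552 20690 10345 58621 41379 0 55172
    27586)) (.L 4 5 [4, 4, 4, 5] [70, 66, 56, 46, 36, 0] [] 100000 33334 33334 900000 0 0 100000
    100000 0 33333 0)) (.E 1)) (.E 1)) (.L 4 5 [4, 4, 4, 5] [70, 66, 56, 46, 36, 0] [] 100000 33334
    33334 976924 30769 0 46154 30769 0 61538 30769))) (.L 4 5 [4, 4, 4, 5] [88, 84, 80, 70, 60, 50]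
    [] 100000 32639 32639 994794 6250 0 98958 56250 1042 25000 12500)) (.L 4 5 [4, 4, 4, 5] [] []
    100000 50000 0 650000 0 0 150000 100000 0 0 0))) (.E 0)) (.E 0)) (.S 1 14 (.S 1 7 (.S 1 3 (.L 5
    6 [4, 4, 3, 4] [] [] 100000 31973 31973 1001023 13265 0 85714 72449 2041 26531 13265) (.L 5 6
    [4, 4, 3, 4] [] [] 100000 33334 33334 900000 0 0 100000 100000 33333 0 0)) (.E 0)) (.E 0))) (.L
    5 6 [4, 4, 3, 4] [] [] 100000 6250 6250 1000000 0 0 56250 50000 56250 25000 28125))) (.E 1))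
    (.E 0)

lemma pr17_18_5_3 {n : ℕ} (hn : 6 ≤ n) : NoPr ((17 : ℕ) : ℤ) ((18 : ℕ) : ℤ) n 5 3 :=
  BlkD.pair_sound (d := d17_18_5_3) (by decide +kernel) hn (by decide) (tr := t17_18_5_3)
    (by decide +kernel) rfl rfl rfl rfl

end BlkC

end Pool.Agent.Lib.MP_f04ccf_co
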