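import Pool.Agent.Lib.MP_f04ccf_co.M.BlkT

/-!
MP_f04ccf_co, block certificate, data `R = 17`, `H = 18`, part 2 (generated, helper99, bd9.cpp, gen.py):
the pairs (5, 4), (5, 5), (6, 0), (6, 1), (6, 2), (6, 3), (6, 4), (6, 5), (7, 0).
-/

set_option autoImplicit false
set_option maxRecDepth 100000

namespace Pool.Agent.Lib.MP_f04ccf_co

namespace BlkC

/-- the numbers of the pair `(5, 4)`, `R = 17`, `H = 18` -/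
def d17_18_5_4 : BlkD.Pd :=
  ⟨17, 18, 4, 5, 4, 6, 2, 2, 2, 2, 8, 0, 2, 2, 8, 0, [0, 8, 16, 18, 20, 22, 24], [0, 8, 16, 18, 20,
    22, 24], [⟨1, 1, 1, 4, 8, [0, 4], [0, 4]⟩, ⟨1, 1, 1, 4, 12, [0, 6], [0, 6]⟩, ⟨1, 1, 1, 4, 16,
    [0, 8], [0, 8]⟩]⟩

/-- the certificates of the pair `(5, 4)` -/
def t17_18_5_4 : BlkD.Tr :=
  .S 0 5 (.S 2 4 (.S 0 2 (.L 5 5 [4, 4, 4, 17, 17] [] [] 100000 10638 10638 1176598 12766 0 85106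
    72340 2128 14894 30851) (.S 0 4 (.S 0 3 (.L 5 5 [4, 4, 4, 17, 17] [] [] 100000 689 689 1196790
    5046 0 88073 83028 14985 16972 33333) (.L 5 5 [4, 4, 4, 17, 17] [] [] 100000 1 1 1186586 4573
    4268 63963 55549 9207 17622 36585)) (.L 5 5 [4, 4, 4, 17, 17] [] [] 100000 0 0 1108001 0 3333
    88667 88667 18000 18000 32000))) (.E 1)) (.E 0)

lemma pr17_18_5_4 {n : ℕ} (hn : 6 ≤ n) : NoPr ((17 : ℕ) : ℤ) ((18 : ℕ) : ℤ) n 5 4 :=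
  BlkD.pair_sound (d := d17_18_5_4) (by decide +kernel) hn (by decide) (tr := t17_18_5_4)
    (by decide +kernel) rfl rfl rfl rfl

/-- the numbers of the pair `(5, 5)`, `R = 17`, `H = 18` -/
def d17_18_5_5 : BlkD.Pd :=
  ⟨17, 18, 4, 5, 5, 5, 1, 3, 2, 2, 6, 0, 2, 2, 6, 0, [0, 6, 12, 16, 18, 20], [0, 6, 12, 16, 18,
    20], [⟨1, 1, 1, 4, 8, [0, 4], [0, 4]⟩, ⟨1, 1, 1, 4, 12, [0, 6], [0, 6]⟩]⟩

/-- the certificates of the pair `(5, 5)` -/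
def t17_18_5_5 : BlkD.Tr :=
  .S 0 5 (.S 2 5 (.S 0 2 (.L 5 5 [4, 3, 17, 17, 17, 17] [] [] 100000 2 2 1245454 27273 18182 63636
    54545 0 0 0) (.L 5 5 [4, 3, 17, 17, 17, 17] [] [] 100000 0 0 1292000 4000 32000 64000 64000 0 0
    0)) (.E 1)) (.E 0)

lemma pr17_18_5_5 {n : ℕ} (hn : 6 ≤ n) : NoPr ((17 : ℕ) : ℤ) ((18 : ℕ) : ℤ) n 5 5 :=
  BlkD.pair_sound (d := d17_18_5_5) (by decide +kernel) hn (by decide) (tr := t17_18_5_5)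
    (by decide +kernel) rfl rfl rfl rfl

/-- the numbers of the pair `(6, 0)`, `R = 17`, `H = 18` -/
def d17_18_6_0 : BlkD.Pd :=
  ⟨17, 18, 4, 6, 0, 9, 0, 1, 0, 4, 4, 0, 0, 4, 4, 0, [0, 4, 8, 12, 16, 20, 24, 28, 32, 36], [0, 4,
    8, 12, 16, 20, 24, 28, 32, 36], [⟨1, 1, 1, 4, 8, [0, 4], [0, 4]⟩]⟩

/-- the certificates of the pair `(6, 0)` -/
def t17_18_6_0 : BlkD.Tr :=
  .S 0 6 (.S 2 0 (.L 3 3 [4] [] [] 100000 0 0 725000 50000 0 75000 25000 0 0 0) (.E 1)) (.E 0)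

lemma pr17_18_6_0 {n : ℕ} (hn : 6 ≤ n) : NoPr ((17 : ℕ) : ℤ) ((18 : ℕ) : ℤ) n 6 0 :=
  BlkD.pair_sound (d := d17_18_6_0) (by decide +kernel) hn (by decide) (tr := t17_18_6_0)
    (by decide +kernel) rfl rfl rfl rfl

/-- the numbers of the pair `(6, 1)`, `R = 17`, `H = 18` -/
def d17_18_6_1 : BlkD.Pd :=
  ⟨17, 18, 4, 6, 1, 8, 1, 1, 2, 2, 6, 0, 0, 4, 4, 0, [0, 6, 12, 18, 24, 26, 28, 30, 32], [0, 4, 8,
    12, 16, 20, 24, 28, 32], [⟨1, 1, 1, 4, 8, [0, 4], [0, 4]⟩, ⟨1, 1, 1, 4, 10, [0, 6], [0, 4]⟩]⟩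

/-- the certificates of the pair `(6, 1)` -/
def t17_18_6_1 : BlkD.Tr :=
  .S 0 6 (.S 2 1 (.L 3 4 [4, 4] [] [] 100000 2 1 933331 23810 0 57143 0 0 0 0) (.E 1)) (.E 0)

lemma pr17_18_6_1 {n : ℕ} (hn : 6 ≤ n) : NoPr ((17 : ℕ) : ℤ) ((18 : ℕ) : ℤ) n 6 1 :=
  BlkD.pair_sound (d := d17_18_6_1) (by decide +kernel) hn (by decide) (tr := t17_18_6_1)
    (by decide +kernel) rfl rfl rfl rfl

/-- the numbers of the pair `(6, 2)`, `R = 17`, `H = 18` -/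
def d17_18_6_2 : BlkD.Pd :=
  ⟨17, 18, 4, 6, 2, 7, 2, 1, 2, 2, 8, 0, 3, 1, 6, 0, [0, 8, 16, 20, 22, 24, 26, 28], [0, 6, 12, 16,
    19, 22, 25, 28], [⟨1, 1, 1, 4, 8, [0, 4], [0, 4]⟩, ⟨1, 1, 1, 4, 10, [0, 6], [0, 4]⟩, ⟨1, 1, 1,
    4, 14, [0, 8], [0, 6]⟩]⟩

/-- the certificates of the pair `(6, 2)` -/
def t17_18_6_2 : BlkD.Tr :=
  .S 0 6 (.S 2 2 (.S 0 3 (.L 4 5 [4, 4, 4] [] [] 100000 13055 13055 1037932 23153 0 61576 25616 0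
    24138 24877) (.L 4 5 [4, 4, 4] [] [] 100000 0 0 1085944 4687 0 95312 10937 4688 26563 34375))
    (.E 1)) (.E 0)

lemma pr17_18_6_2 {n : ℕ} (hn : 6 ≤ n) : NoPr ((17 : ℕ) : ℤ) ((18 : ℕ) : ℤ) n 6 2 :=
  BlkD.pair_sound (d := d17_18_6_2) (by decide +kernel) hn (by decide) (tr := t17_18_6_2)
    (by decide +kernel) rfl rfl rfl rfl

/-- the numbers of the pair `(6, 3)`, `R = 17`, `H = 18` -/
def d17_18_6_3 : BlkD.Pd :=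
  ⟨17, 18, 4, 6, 3, 6, 2, 2, 2, 2, 8, 0, 2, 2, 6, 0, [0, 8, 16, 18, 20, 22, 24], [0, 6, 12, 18, 20,
    22, 24], [⟨1, 1, 1, 4, 8, [0, 4], [0, 4]⟩, ⟨1, 1, 1, 4, 12, [0, 6], [0, 6]⟩, ⟨1, 1, 1, 4, 14,
    [0, 8], [0, 6]⟩]⟩

/-- the certificates of the pair `(6, 3)` -/
def t17_18_6_3 : BlkD.Tr :=
  .S 0 6 (.S 2 3 (.S 0 3 (.S 0 1 (.L 5 7 [4, 4, 3, 17] [] [] 100000 75000 75000 650000 100000 0
    100000 50000 0 0 0) (.S 0 2 (.L 5 7 [4, 4, 3, 17] [] [] 100000 56250 56250 1025000 50000 0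
    75000 37500 0 12500 25000) (.S 1 15 (.S 1 7 (.S 1 3 (.L 5 7 [4, 4, 3, 17] [] [] 100000 9375
    9375 1062500 12500 0 12500 25000 0 0 40625) (.S 1 5 (.S 1 4 (.L 5 7 [4, 4, 3, 17] [70, 62, 54,
    46, 36, 0] [] 100000 16146 16146 1075000 31250 0 61458 32292 0 17708 25000) (.L 5 7 [4, 4, 3,
    17] [86, 84, 76, 68, 60, 50] [] 100000 38235 38235 1094120 41176 0 70588 41176 0 17647 29412))
    (.S 1 6 (.L 5 7 [4, 4, 3, 17] [104, 102, 100, 92, 84, 76] [] 100000 13847 13847 1138460 32308 0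
    66154 32308 0 20000 26154) (.L 5 7 [4, 4, 3, 17] [124, 122, 120, 118, 110, 102] [] 100000 33334
    33334 1066668 50000 0 83333 33333 0 0 16667)))) (.L 5 7 [4, 4, 3, 17] [] [] 100000 7335 7335
    1098668 6667 0 100000 74667 0 18667 33333)) (.E 0)))) (.L 5 7 [4, 4, 3, 17] [] [] 100000 0 0
    1192107 3947 0 98026 46053 0 27632 36184)) (.E 1)) (.E 0)

lemma pr17_18_6_3 {n : ℕ} (hn : 6 ≤ n) : NoPr ((17 : ℕ) : ℤ) ((18 : ℕ) : ℤ) n 6 3 :=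
  BlkD.pair_sound (d := d17_18_6_3) (by decide +kernel) hn (by decide) (tr := t17_18_6_3)
    (by decide +kernel) rfl rfl rfl rfl

/-- the numbers of the pair `(6, 4)`, `R = 17`, `H = 18` -/
def d17_18_6_4 : BlkD.Pd :=
  ⟨17, 18, 4, 6, 4, 5, 1, 2, 2, 2, 6, 0, 2, 2, 6, 0, [0, 6, 12, 16, 18, 20], [0, 6, 12, 16, 18,
    20], [⟨1, 1, 1, 4, 8, [0, 4], [0, 4]⟩, ⟨1, 1, 1, 4, 12, [0, 6], [0, 6]⟩]⟩

/-- the certificates of the pair `(6, 4)` -/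
def t17_18_6_4 : BlkD.Tr :=
  .S 0 6 (.S 2 4 (.L 5 5 [4, 3, 17, 17, 17] [] [] 100000 2 2 1284615 23077 15385 76923 69231 0 0 0)
    (.E 1)) (.E 0)

lemma pr17_18_6_4 {n : ℕ} (hn : 6 ≤ n) : NoPr ((17 : ℕ) : ℤ) ((18 : ℕ) : ℤ) n 6 4 :=
  BlkD.pair_sound (d := d17_18_6_4) (by decide +kernel) hn (by decide) (tr := t17_18_6_4)
    (by decide +kernel) rfl rfl rfl rfl

/-- the numbers of the pair `(6, 5)`, `R = 17`, `H = 18` -/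
def d17_18_6_5 : BlkD.Pd :=
  ⟨17, 18, 4, 6, 5, 4, 0, 3, 0, 4, 4, 0, 0, 4, 4, 0, [0, 4, 8, 12, 16], [0, 4, 8, 12, 16], [⟨1, 1,
    1, 4, 8, [0, 4], [0, 4]⟩]⟩

/-- the certificates of the pair `(6, 5)` -/
def t17_18_6_5 : BlkD.Tr :=
  .S 0 6 (.S 2 5 (.L 3 3 [4, 17, 17, 17, 17, 17] [] [] 100000 0 0 1300000 50000 50000 66667 55556 0
    0 0) (.E 1)) (.E 0)

lemma pr17_18_6_5 {n : ℕ} (hn : 6 ≤ n) : NoPr ((17 : ℕ) : ℤ) ((18 : ℕ) : ℤ) n 6 5 :=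
  BlkD.pair_sound (d := d17_18_6_5) (by decide +kernel) hn (by decide) (tr := t17_18_6_5)
    (by decide +kernel) rfl rfl rfl rfl

/-- the numbers of the pair `(7, 0)`, `R = 17`, `H = 18` -/
def d17_18_7_0 : BlkD.Pd :=
  ⟨17, 18, 4, 7, 0, 8, 0, 1, 0, 4, 4, 0, 0, 4, 4, 0, [0, 4, 8, 12, 16, 20, 24, 28, 32], [0, 4, 8,
    12, 16, 20, 24, 28, 32], [⟨1, 1, 1, 4, 8, [0, 4], [0, 4]⟩]⟩

/-- the certificates of the pair `(7, 0)` -/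
def t17_18_7_0 : BlkD.Tr :=
  .S 0 7 (.S 2 0 (.L 3 3 [4] [] [] 100000 0 0 838889 61111 0 66667 33333 0 0 0) (.E 1)) (.E 0)

lemma pr17_18_7_0 {n : ℕ} (hn : 6 ≤ n) : NoPr ((17 : ℕ) : ℤ) ((18 : ℕ) : ℤ) n 7 0 :=
  BlkD.pair_sound (d := d17_18_7_0) (by decide +kernel) hn (by decide) (tr := t17_18_7_0)
    (by decide +kernel) rfl rfl rfl rfl

end BlkC

end Pool.Agent.Lib.MP_f04ccf_co
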