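import Pool.Agent.Lib.MP_f04ccf_co.M.BlkC17a1
import Pool.Agent.Lib.MP_f04ccf_co.M.BlkC17a2
import Pool.Agent.Lib.MP_f04ccf_co.M.BlkC17a3
import Pool.Agent.Lib.MP_f04ccf_co.M.BlkC17a4
import Pool.Agent.Lib.MP_f04ccf_co.M.BlkC17b1
import Pool.Agent.Lib.MP_f04ccf_co.M.BlkC17b2
import Pool.Agent.Lib.MP_f04ccf_co.M.BlkC17b3
import Pool.Agent.Lib.MP_f04ccf_co.M.BlkC17b4

/-!
MP_f04ccf_co, block certificate, **`R = 17`**: all pairs of shares together (generated, helper99).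
-/

set_option autoImplicit false

namespace Pool.Agent.Lib.MP_f04ccf_co

/-- **`R = 17`, `∑ h ≤ 17`, at least 5 rows: no items** -/
theorem noItC17_17 {n : ℕ} (hn : 5 ≤ n) : NoItC ((17 : ℕ) : ℤ) ((17 : ℕ) : ℤ) n := by
  refine NoItC.of_pr (q := 3) hn fun a b hba hs => ?_
  have ha : a ≤ 11 := by omega
  interval_cases a
  · have hb : b ≤ 0 := by omega
    interval_cases b
    · exact BlkC.pr17_17_0_0 hn
  · have hb : b ≤ 1 := by omega
    interval_cases b
    · exact BlkC.pr17_17_1_0 hn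
    · exact BlkC.pr17_17_1_1 hn
  · have hb : b ≤ 2 := by omega
    interval_cases b
    · exact BlkC.pr17_17_2_0 hn
    · exact BlkC.pr17_17_2_1 hn
    · exact BlkC.pr17_17_2_2 hn
  · have hb : b ≤ 3 := by omega
    interval_cases b
    · exact BlkC.pr17_17_3_0 hn
    · exact BlkC.pr17_17_3_1 hn
    · exact BlkC.pr17_17_3_2 hn
    · exact BlkC.pr17_17_3_3 hn
  · have hb : b ≤ 4 := by omega
    interval_cases b
    · exact BlkC.pr17_17_4_0 hn
    · exact BlkC.pr17_17_4_1 hn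
    · exact BlkC.pr17_17_4_2 hn
    · exact BlkC.pr17_17_4_3 hn
    · exact BlkC.pr17_17_4_4 hn
  · have hb : b ≤ 5 := by omega
    interval_cases b
    · exact BlkC.pr17_17_5_0 hn
    · exact BlkC.pr17_17_5_1 hn
    · exact BlkC.pr17_17_5_2 hn
    · exact BlkC.pr17_17_5_3 hn
    · exact BlkC.pr17_17_5_4 hn
    · exact BlkC.pr17_17_5_5 hn
  · have hb : b ≤ 5 := by omega
    interval_cases b
    · exact BlkC.pr17_17_6_0 hn
    · exact BlkC.pr17_17_6_1 hn
    · exact BlkC.pr17_17_6_2 hn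
    · exact BlkC.pr17_17_6_3 hn
    · exact BlkC.pr17_17_6_4 hn
    · exact BlkC.pr17_17_6_5 hn
  · have hb : b ≤ 4 := by omega
    interval_cases b
    · exact BlkC.pr17_17_7_0 hn
    · exact BlkC.pr17_17_7_1 hn
    · exact BlkC.pr17_17_7_2 hn
    · exact BlkC.pr17_17_7_3 hn
    · exact BlkC.pr17_17_7_4 hn
  · have hb : b ≤ 3 := by omega
    interval_cases b
    · exact BlkC.pr17_17_8_0 hn
    · exact BlkC.pr17_17_8_1 hn
    · exact BlkC.pr17_17_8_2 hn
    · exact BlkC.pr17_17_8_3 hn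
  · have hb : b ≤ 2 := by omega
    interval_cases b
    · exact BlkC.pr17_17_9_0 hn
    · exact BlkC.pr17_17_9_1 hn
    · exact BlkC.pr17_17_9_2 hn
  · have hb : b ≤ 1 := by omega
    interval_cases b
    · exact BlkC.pr17_17_10_0 hn
    · exact BlkC.pr17_17_10_1 hn
  · have hb : b ≤ 0 := by omega
    interval_cases b
    · exact BlkC.pr17_17_11_0 hn

/-- **`R = 17`, `∑ h ≤ 18`, at least 6 rows: no items** -/
theorem noItC17_18 {n : ℕ} (hn : 6 ≤ n) : NoItC ((17 : ℕ) : ℤ) ((18 : ℕ) : ℤ) n := by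
  refine NoItC.of_pr (q := 4) hn fun a b hba hs => ?_
  have ha : a ≤ 11 := by omega
  interval_cases a
  · have hb : b ≤ 0 := by omega
    interval_cases b
    · exact BlkC.pr17_18_0_0 hn
  · have hb : b ≤ 1 := by omega
    interval_cases b
    · exact BlkC.pr17_18_1_0 hn
    · exact BlkC.pr17_18_1_1 hn
  · have hb : b ≤ 2 := by omega
    interval_cases b
    · exact BlkC.pr17_18_2_0 hn
    · exact BlkC.pr17_18_2_1 hn
    · exact BlkC.pr17_18_2_2 hn
  · have hb : b ≤ 3 := by omega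
    interval_cases b
    · exact BlkC.pr17_18_3_0 hn
    · exact BlkC.pr17_18_3_1 hn
    · exact BlkC.pr17_18_3_2 hn
    · exact BlkC.pr17_18_3_3 hn
  · have hb : b ≤ 4 := by omega
    interval_cases b
    · exact BlkC.pr17_18_4_0 hn
    · exact BlkC.pr17_18_4_1 hn
    · exact BlkC.pr17_18_4_2 hn
    · exact BlkC.pr17_18_4_3 hn
    · exact BlkC.pr17_18_4_4 hn
  · have hb : b ≤ 5 := by omega
    interval_cases b
    · exact BlkC.pr17_18_5_0 hn
    · exact BlkC.pr17_18_5_1 hn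
    · exact BlkC.pr17_18_5_2 hn
    · exact BlkC.pr17_18_5_3 hn
    · exact BlkC.pr17_18_5_4 hn
    · exact BlkC.pr17_18_5_5 hn
  · have hb : b ≤ 5 := by omega
    interval_cases b
    · exact BlkC.pr17_18_6_0 hn
    · exact BlkC.pr17_18_6_1 hn
    · exact BlkC.pr17_18_6_2 hn
    · exact BlkC.pr17_18_6_3 hn
    · exact BlkC.pr17_18_6_4 hn
    · exact BlkC.pr17_18_6_5 hn
  · have hb : b ≤ 4 := by omega
    interval_cases b
    · exact BlkC.pr17_18_7_0 hn
    · exact BlkC.pr17_18_7_1 hn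
    · exact BlkC.pr17_18_7_2 hn
    · exact BlkC.pr17_18_7_3 hn
    · exact BlkC.pr17_18_7_4 hn
  · have hb : b ≤ 3 := by omega
    interval_cases b
    · exact BlkC.pr17_18_8_0 hn
    · exact BlkC.pr17_18_8_1 hn
    · exact BlkC.pr17_18_8_2 hn
    · exact BlkC.pr17_18_8_3 hn
  · have hb : b ≤ 2 := by omega
    interval_cases b
    · exact BlkC.pr17_18_9_0 hn
    · exact BlkC.pr17_18_9_1 hn
    · exact BlkC.pr17_18_9_2 hn
  · have hb : b ≤ 1 := by omega
    interval_cases b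
    · exact BlkC.pr17_18_10_0 hn
    · exact BlkC.pr17_18_10_1 hn
  · have hb : b ≤ 0 := by omega
    interval_cases b
    · exact BlkC.pr17_18_11_0 hn

end Pool.Agent.Lib.MP_f04ccf_co
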