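import Pool.Agent.Lib.MP_f04ccf_co.M.BlkT

/-!
MP_f04ccf_co, block certificate, data `R = 17`, `H = 17`, part 1 (generated, helper99, bd9.cpp, gen.py):
the pairs (0, 0), (1, 0), (1, 1), (2, 0), (2, 1), (2, 2), (3, 0), (3, 1), (3, 2), (3, 3), (4, 0), (4, 1), (4, 2), (4, 3), (4, 4), (5, 0), (5, 1), (5, 2), (5, 3), (5, 4).
-/

set_option autoImplicit false
set_option maxRecDepth 100000

namespace Pool.Agent.Lib.MP_f04ccf_co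

namespace BlkC

/-- the numbers of the pair `(0, 0)`, `R = 17`, `H = 17` -/
def d17_17_0_0 : BlkD.Pd :=
  ⟨17, 17, 3, 0, 0, 14, 0, 1, 0, 4, 4, 0, 0, 4, 4, 0, [0, 4, 8, 12, 16, 20, 24, 28, 32, 36, 40, 44,
    48, 52, 56], [0, 4, 8, 12, 16, 20, 24, 28, 32, 36, 40, 44, 48, 52, 56], [⟨1, 1, 1, 4, 8, [0,
    4], [0, 4]⟩]⟩

/-- the certificates of the pair `(0, 0)` -/
def t17_17_0_0 : BlkD.Tr :=
  .S 0 0 (.S 2 0 (.L 3 3 [4] [] [] 100000 0 0 100000 0 0 100000 0 0 0 0) (.E 1)) (.E 0)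

lemma pr17_17_0_0 {n : ℕ} (hn : 5 ≤ n) : NoPr ((17 : ℕ) : ℤ) ((17 : ℕ) : ℤ) n 0 0 :=
  BlkD.pair_sound (d := d17_17_0_0) (by decide +kernel) hn (by decide) (tr := t17_17_0_0)
    (by decide +kernel) rfl rfl rfl rfl

/-- the numbers of the pair `(1, 0)`, `R = 17`, `H = 17` -/
def d17_17_1_0 : BlkD.Pd :=
  ⟨17, 17, 3, 1, 0, 13, 0, 1, 0, 4, 4, 0, 0, 4, 4, 0, [0, 4, 8, 12, 16, 20, 24, 28, 32, 36, 40, 44,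
    48, 52], [0, 4, 8, 12, 16, 20, 24, 28, 32, 36, 40, 44, 48, 52], [⟨1, 1, 1, 4, 8, [0, 4], [0,
    4]⟩]⟩

/-- the certificates of the pair `(1, 0)` -/
def t17_17_1_0 : BlkD.Tr :=
  .S 0 1 (.S 2 0 (.L 3 3 [4] [] [] 100000 0 0 200000 0 0 0 100000 0 0 0) (.E 1)) (.E 0)

lemma pr17_17_1_0 {n : ℕ} (hn : 5 ≤ n) : NoPr ((17 : ℕ) : ℤ) ((17 : ℕ) : ℤ) n 1 0 :=
  BlkD.pair_sound (d := d17_17_1_0) (by decide +kernel) hn (by decide) (tr := t17_17_1_0)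
    (by decide +kernel) rfl rfl rfl rfl

/-- the numbers of the pair `(1, 1)`, `R = 17`, `H = 17` -/
def d17_17_1_1 : BlkD.Pd :=
  ⟨17, 17, 3, 1, 1, 12, 1, 1, 0, 4, 4, 0, 0, 4, 4, 0, [0, 4, 8, 12, 16, 20, 24, 28, 32, 36, 40, 44,
    48], [0, 4, 8, 12, 16, 20, 24, 28, 32, 36, 40, 44, 48], [⟨1, 1, 1, 4, 8, [0, 4], [0, 4]⟩, ⟨1,
    1, 1, 4, 8, [0, 4], [0, 4]⟩]⟩

/-- the certificates of the pair `(1, 1)` -/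
def t17_17_1_1 : BlkD.Tr :=
  .S 0 1 (.S 2 1 (.L 3 3 [4, 4] [] [] 100000 0 0 400000 0 0 0 0 0 0 0) (.E 1)) (.E 0)

lemma pr17_17_1_1 {n : ℕ} (hn : 5 ≤ n) : NoPr ((17 : ℕ) : ℤ) ((17 : ℕ) : ℤ) n 1 1 :=
  BlkD.pair_sound (d := d17_17_1_1) (by decide +kernel) hn (by decide) (tr := t17_17_1_1)
    (by decide +kernel) rfl rfl rfl rfl

/-- the numbers of the pair `(2, 0)`, `R = 17`, `H = 17` -/
def d17_17_2_0 : BlkD.Pd :=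
  ⟨17, 17, 3, 2, 0, 12, 0, 1, 0, 4, 4, 0, 0, 4, 4, 0, [0, 4, 8, 12, 16, 20, 24, 28, 32, 36, 40, 44,
    48], [0, 4, 8, 12, 16, 20, 24, 28, 32, 36, 40, 44, 48], [⟨1, 1, 1, 4, 8, [0, 4], [0, 4]⟩]⟩

/-- the certificates of the pair `(2, 0)` -/
def t17_17_2_0 : BlkD.Tr :=
  .S 0 2 (.S 2 0 (.L 3 3 [4] [] [] 100000 0 0 300000 0 0 0 100000 0 0 0) (.E 1)) (.E 0)

lemma pr17_17_2_0 {n : ℕ} (hn : 5 ≤ n) : NoPr ((17 : ℕ) : ℤ) ((17 : ℕ) : ℤ) n 2 0 :=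
  BlkD.pair_sound (d := d17_17_2_0) (by decide +kernel) hn (by decide) (tr := t17_17_2_0)
    (by decide +kernel) rfl rfl rfl rfl

/-- the numbers of the pair `(2, 1)`, `R = 17`, `H = 17` -/
def d17_17_2_1 : BlkD.Pd :=
  ⟨17, 17, 3, 2, 1, 11, 1, 1, 0, 4, 4, 0, 0, 4, 4, 0, [0, 4, 8, 12, 16, 20, 24, 28, 32, 36, 40,
    44], [0, 4, 8, 12, 16, 20, 24, 28, 32, 36, 40, 44], [⟨1, 1, 1, 4, 8, [0, 4], [0, 4]⟩, ⟨1, 1, 1,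
    4, 8, [0, 4], [0, 4]⟩]⟩

/-- the certificates of the pair `(2, 1)` -/
def t17_17_2_1 : BlkD.Tr :=
  .S 0 2 (.S 2 1 (.L 3 3 [4, 4] [] [] 100000 0 0 500000 0 0 0 0 0 0 0) (.E 1)) (.E 0)

lemma pr17_17_2_1 {n : ℕ} (hn : 5 ≤ n) : NoPr ((17 : ℕ) : ℤ) ((17 : ℕ) : ℤ) n 2 1 :=
  BlkD.pair_sound (d := d17_17_2_1) (by decide +kernel) hn (by decide) (tr := t17_17_2_1)
    (by decide +kernel) rfl rfl rfl rfl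

/-- the numbers of the pair `(2, 2)`, `R = 17`, `H = 17` -/
def d17_17_2_2 : BlkD.Pd :=
  ⟨17, 17, 3, 2, 2, 10, 2, 1, 0, 4, 6, 0, 0, 4, 6, 0, [0, 6, 12, 18, 24, 30, 36, 40, 40, 40, 40],
    [0, 6, 12, 18, 24, 30, 36, 40, 40, 40, 40], [⟨1, 1, 1, 4, 8, [0, 4], [0, 4]⟩, ⟨1, 1, 1, 4, 8,
    [0, 4], [0, 4]⟩, ⟨1, 1, 1, 6, 12, [0, 6], [0, 6]⟩]⟩

/-- the certificates of the pair `(2, 2)` -/
def t17_17_2_2 : BlkD.Tr :=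
  .S 0 2 (.S 2 2 (.L 4 4 [4, 4, 4] [] [] 100000 1 1 600000 0 0 25000 25000 27500 1071 35714) (.E
    1)) (.E 0)

lemma pr17_17_2_2 {n : ℕ} (hn : 5 ≤ n) : NoPr ((17 : ℕ) : ℤ) ((17 : ℕ) : ℤ) n 2 2 :=
  BlkD.pair_sound (d := d17_17_2_2) (by decide +kernel) hn (by decide) (tr := t17_17_2_2)
    (by decide +kernel) rfl rfl rfl rfl

/-- the numbers of the pair `(3, 0)`, `R = 17`, `H = 17` -/
def d17_17_3_0 : BlkD.Pd :=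
  ⟨17, 17, 3, 3, 0, 11, 0, 1, 0, 4, 4, 0, 0, 4, 4, 0, [0, 4, 8, 12, 16, 20, 24, 28, 32, 36, 40,
    44], [0, 4, 8, 12, 16, 20, 24, 28, 32, 36, 40, 44], [⟨1, 1, 1, 4, 8, [0, 4], [0, 4]⟩]⟩

/-- the certificates of the pair `(3, 0)` -/
def t17_17_3_0 : BlkD.Tr :=
  .S 0 3 (.S 2 0 (.L 3 3 [4] [] [] 100000 0 0 425000 0 0 25000 75000 0 0 0) (.E 1)) (.E 0)

lemma pr17_17_3_0 {n : ℕ} (hn : 5 ≤ n) : NoPr ((17 : ℕ) : ℤ) ((17 : ℕ) : ℤ) n 3 0 :=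
  BlkD.pair_sound (d := d17_17_3_0) (by decide +kernel) hn (by decide) (tr := t17_17_3_0)
    (by decide +kernel) rfl rfl rfl rfl

/-- the numbers of the pair `(3, 1)`, `R = 17`, `H = 17` -/
def d17_17_3_1 : BlkD.Pd :=
  ⟨17, 17, 3, 3, 1, 10, 1, 1, 0, 4, 6, 0, 0, 4, 4, 0, [0, 6, 12, 18, 24, 30, 36, 40, 40, 40, 40],
    [0, 4, 8, 12, 16, 20, 24, 28, 32, 36, 40], [⟨1, 1, 1, 4, 8, [0, 4], [0, 4]⟩, ⟨1, 1, 1, 4, 10,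
    [0, 6], [0, 4]⟩]⟩

/-- the certificates of the pair `(3, 1)` -/
def t17_17_3_1 : BlkD.Tr :=
  .S 0 3 (.S 2 1 (.L 3 4 [4, 4] [] [] 100000 0 0 600001 0 0 33333 0 0 0 0) (.E 1)) (.E 0)

lemma pr17_17_3_1 {n : ℕ} (hn : 5 ≤ n) : NoPr ((17 : ℕ) : ℤ) ((17 : ℕ) : ℤ) n 3 1 :=
  BlkD.pair_sound (d := d17_17_3_1) (by decide +kernel) hn (by decide) (tr := t17_17_3_1)
    (by decide +kernel) rfl rfl rfl rfl

/-- the numbers of the pair `(3, 2)`, `R = 17`, `H = 17` -/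
def d17_17_3_2 : BlkD.Pd :=
  ⟨17, 17, 3, 3, 2, 9, 2, 1, 0, 4, 6, 0, 0, 4, 6, 0, [0, 6, 12, 18, 24, 30, 36, 36, 36, 36], [0, 6,
    12, 18, 24, 30, 36, 36, 36, 36], [⟨1, 1, 1, 4, 8, [0, 4], [0, 4]⟩, ⟨1, 1, 1, 4, 10, [0, 6], [0,
    4]⟩, ⟨1, 1, 1, 6, 12, [0, 6], [0, 6]⟩]⟩

/-- the certificates of the pair `(3, 2)` -/
def t17_17_3_2 : BlkD.Tr :=
  .S 0 3 (.S 2 2 (.L 4 4 [4, 4, 4] [] [] 100000 1 1 700001 0 0 33333 25000 19444 0 40278) (.E 1))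
    (.E 0)

lemma pr17_17_3_2 {n : ℕ} (hn : 5 ≤ n) : NoPr ((17 : ℕ) : ℤ) ((17 : ℕ) : ℤ) n 3 2 :=
  BlkD.pair_sound (d := d17_17_3_2) (by decide +kernel) hn (by decide) (tr := t17_17_3_2)
    (by decide +kernel) rfl rfl rfl rfl

/-- the numbers of the pair `(3, 3)`, `R = 17`, `H = 17` -/
def d17_17_3_3 : BlkD.Pd :=
  ⟨17, 17, 3, 3, 3, 8, 3, 1, 4, 1, 8, 0, 4, 1, 8, 0, [0, 8, 16, 20, 24, 28, 32, 36, 40], [0, 8, 16,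
    20, 24, 28, 32, 36, 40], [⟨1, 1, 1, 4, 8, [0, 4], [0, 4]⟩, ⟨1, 1, 1, 6, 12, [0, 6], [0, 6]⟩,
    ⟨1, 1, 1, 6, 12, [0, 6], [0, 6]⟩, ⟨1, 1, 1, 6, 16, [0, 8], [0, 8]⟩]⟩

/-- the certificates of the pair `(3, 3)` -/
def t17_17_3_3 : BlkD.Tr :=
  .S 0 3 (.S 2 3 (.L 4 4 [4, 4, 4, 5] [] [] 100000 14286 14286 800000 0 0 57143 57143 28571 28571
    28571) (.E 1)) (.E 0)

lemma pr17_17_3_3 {n : ℕ} (hn : 5 ≤ n) : NoPr ((17 : ℕ) : ℤ) ((17 : ℕ) : ℤ) n 3 3 :=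
  BlkD.pair_sound (d := d17_17_3_3) (by decide +kernel) hn (by decide) (tr := t17_17_3_3)
    (by decide +kernel) rfl rfl rfl rfl

/-- the numbers of the pair `(4, 0)`, `R = 17`, `H = 17` -/
def d17_17_4_0 : BlkD.Pd :=
  ⟨17, 17, 3, 4, 0, 10, 0, 1, 0, 4, 4, 0, 0, 4, 4, 0, [0, 4, 8, 12, 16, 20, 24, 28, 32, 36, 40],
    [0, 4, 8, 12, 16, 20, 24, 28, 32, 36, 40], [⟨1, 1, 1, 4, 8, [0, 4], [0, 4]⟩]⟩

/-- the certificates of the pair `(4, 0)` -/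
def t17_17_4_0 : BlkD.Tr :=
  .S 0 4 (.S 2 0 (.L 3 3 [4] [] [] 100000 0 0 520000 20000 0 40000 60000 0 0 0) (.E 1)) (.E 0)

lemma pr17_17_4_0 {n : ℕ} (hn : 5 ≤ n) : NoPr ((17 : ℕ) : ℤ) ((17 : ℕ) : ℤ) n 4 0 :=
  BlkD.pair_sound (d := d17_17_4_0) (by decide +kernel) hn (by decide) (tr := t17_17_4_0)
    (by decide +kernel) rfl rfl rfl rfl

/-- the numbers of the pair `(4, 1)`, `R = 17`, `H = 17` -/
def d17_17_4_1 : BlkD.Pd :=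
  ⟨17, 17, 3, 4, 1, 9, 1, 1, 2, 2, 6, 0, 0, 4, 4, 0, [0, 6, 12, 18, 24, 28, 30, 32, 34, 36], [0, 4,
    8, 12, 16, 20, 24, 28, 32, 36], [⟨1, 1, 1, 4, 8, [0, 4], [0, 4]⟩, ⟨1, 1, 1, 4, 10, [0, 6], [0,
    4]⟩]⟩

/-- the certificates of the pair `(4, 1)` -/
def t17_17_4_1 : BlkD.Tr :=
  .S 0 4 (.S 2 1 (.L 3 4 [4, 4] [] [] 100000 0 0 675000 25000 0 50000 0 0 0 0) (.E 1)) (.E 0)

lemma pr17_17_4_1 {n : ℕ} (hn : 5 ≤ n) : NoPr ((17 : ℕ) : ℤ) ((17 : ℕ) : ℤ) n 4 1 :=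
  BlkD.pair_sound (d := d17_17_4_1) (by decide +kernel) hn (by decide) (tr := t17_17_4_1)
    (by decide +kernel) rfl rfl rfl rfl

/-- the numbers of the pair `(4, 2)`, `R = 17`, `H = 17` -/
def d17_17_4_2 : BlkD.Pd :=
  ⟨17, 17, 3, 4, 2, 8, 2, 1, 2, 2, 8, 0, 3, 1, 6, 0, [0, 8, 16, 22, 24, 26, 28, 30, 32], [0, 6, 12,
    17, 20, 23, 26, 29, 32], [⟨1, 1, 1, 4, 8, [0, 4], [0, 4]⟩, ⟨1, 1, 1, 4, 10, [0, 6], [0, 4]⟩,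
    ⟨1, 1, 1, 6, 14, [0, 8], [0, 6]⟩]⟩

/-- the certificates of the pair `(4, 2)` -/
def t17_17_4_2 : BlkD.Tr :=
  .S 0 4 (.S 2 2 (.L 4 5 [4, 4, 4] [] [] 100000 2 1 800001 8205 0 75386 22394 20367 25000 27317)
    (.E 1)) (.E 0)

lemma pr17_17_4_2 {n : ℕ} (hn : 5 ≤ n) : NoPr ((17 : ℕ) : ℤ) ((17 : ℕ) : ℤ) n 4 2 :=
  BlkD.pair_sound (d := d17_17_4_2) (by decide +kernel) hn (by decide) (tr := t17_17_4_2)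
    (by decide +kernel) rfl rfl rfl rfl

/-- the numbers of the pair `(4, 3)`, `R = 17`, `H = 17` -/
def d17_17_4_3 : BlkD.Pd :=
  ⟨17, 17, 3, 4, 3, 7, 3, 1, 2, 2, 8, 0, 4, 1, 8, 0, [0, 8, 16, 20, 22, 24, 26, 28], [0, 8, 15, 19,
    23, 27, 31, 35], [⟨1, 1, 1, 4, 8, [0, 4], [0, 4]⟩, ⟨1, 1, 1, 6, 12, [0, 6], [0, 6]⟩, ⟨1, 1, 1,
    6, 14, [0, 8], [0, 6]⟩, ⟨1, 1, 1, 6, 16, [0, 8], [0, 8]⟩]⟩

/-- the certificates of the pair `(4, 3)` -/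
def t17_17_4_3 : BlkD.Tr :=
  .S 0 4 (.S 2 3 (.L 4 5 [4, 4, 4, 5] [] [] 100000 13080 13079 930380 0 0 69620 69620 27848 32911
    32911) (.E 1)) (.E 0)

lemma pr17_17_4_3 {n : ℕ} (hn : 5 ≤ n) : NoPr ((17 : ℕ) : ℤ) ((17 : ℕ) : ℤ) n 4 3 :=
  BlkD.pair_sound (d := d17_17_4_3) (by decide +kernel) hn (by decide) (tr := t17_17_4_3)
    (by decide +kernel) rfl rfl rfl rfl

/-- the numbers of the pair `(4, 4)`, `R = 17`, `H = 17` -/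
def d17_17_4_4 : BlkD.Pd :=
  ⟨17, 17, 3, 4, 4, 6, 3, 2, 2, 2, 8, 0, 2, 2, 8, 0, [0, 8, 16, 18, 20, 22, 24], [0, 8, 16, 18, 20,
    22, 24], [⟨1, 1, 1, 4, 8, [0, 4], [0, 4]⟩, ⟨1, 1, 1, 4, 12, [0, 6], [0, 6]⟩, ⟨1, 1, 1, 4, 16,
    [0, 8], [0, 8]⟩, ⟨1, 1, 1, 4, 16, [0, 8], [0, 8]⟩]⟩

/-- the certificates of the pair `(4, 4)` -/
def t17_17_4_4 : BlkD.Tr :=
  .S 0 4 (.S 2 4 (.S 0 2 (.S 0 1 (.L 5 5 [4, 4, 4, 4, 17] [] [] 100000 50000 49999 900000 66667 0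
    75000 66667 0 8333 25000) (.S 1 15 (.S 1 7 (.S 1 3 (.L 5 5 [4, 4, 4, 4, 17] [] [] 100000 23997
    23997 988890 12500 8333 77778 73380 13889 14120 29167) (.L 5 5 [4, 4, 4, 4, 17] [] [] 100000
    19381 19381 1032557 6977 11628 51163 60465 25581 16279 25581)) (.E 0)) (.E 0))) (.L 5 5 [4, 4,
    4, 4, 17] [] [] 100000 22322 22322 1030358 0 17411 52232 52232 16518 16518 23214)) (.E 1)) (.E
    0)

lemma pr17_17_4_4 {n : ℕ} (hn : 5 ≤ n) : NoPr ((17 : ℕ) : ℤ) ((17 : ℕ) : ℤ) n 4 4 :=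
  BlkD.pair_sound (d := d17_17_4_4) (by decide +kernel) hn (by decide) (tr := t17_17_4_4)
    (by decide +kernel) rfl rfl rfl rfl

/-- the numbers of the pair `(5, 0)`, `R = 17`, `H = 17` -/
def d17_17_5_0 : BlkD.Pd :=
  ⟨17, 17, 3, 5, 0, 9, 0, 1, 0, 4, 4, 0, 0, 4, 4, 0, [0, 4, 8, 12, 16, 20, 24, 28, 32, 36], [0, 4,
    8, 12, 16, 20, 24, 28, 32, 36], [⟨1, 1, 1, 4, 8, [0, 4], [0, 4]⟩]⟩

/-- the certificates of the pair `(5, 0)` -/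
def t17_17_5_0 : BlkD.Tr :=
  .S 0 5 (.S 2 0 (.L 3 3 [4] [] [] 100000 0 0 600000 50000 0 50000 50000 0 0 0) (.E 1)) (.E 0)

lemma pr17_17_5_0 {n : ℕ} (hn : 5 ≤ n) : NoPr ((17 : ℕ) : ℤ) ((17 : ℕ) : ℤ) n 5 0 :=
  BlkD.pair_sound (d := d17_17_5_0) (by decide +kernel) hn (by decide) (tr := t17_17_5_0)
    (by decide +kernel) rfl rfl rfl rfl

/-- the numbers of the pair `(5, 1)`, `R = 17`, `H = 17` -/
def d17_17_5_1 : BlkD.Pd :=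
  ⟨17, 17, 3, 5, 1, 8, 1, 1, 2, 2, 6, 0, 0, 4, 4, 0, [0, 6, 12, 18, 24, 26, 28, 30, 32], [0, 4, 8,
    12, 16, 20, 24, 28, 32], [⟨1, 1, 1, 4, 8, [0, 4], [0, 4]⟩, ⟨1, 1, 1, 4, 10, [0, 6], [0, 4]⟩]⟩

/-- the certificates of the pair `(5, 1)` -/
def t17_17_5_1 : BlkD.Tr :=
  .S 0 5 (.S 2 1 (.L 3 4 [4, 4] [] [] 100000 0 0 785716 28571 0 57143 0 0 0 0) (.E 1)) (.E 0)

lemma pr17_17_5_1 {n : ℕ} (hn : 5 ≤ n) : NoPr ((17 : ℕ) : ℤ) ((17 : ℕ) : ℤ) n 5 1 :=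
  BlkD.pair_sound (d := d17_17_5_1) (by decide +kernel) hn (by decide) (tr := t17_17_5_1)
    (by decide +kernel) rfl rfl rfl rfl

/-- the numbers of the pair `(5, 2)`, `R = 17`, `H = 17` -/
def d17_17_5_2 : BlkD.Pd :=
  ⟨17, 17, 3, 5, 2, 7, 2, 1, 2, 2, 8, 0, 3, 1, 6, 0, [0, 8, 16, 20, 22, 24, 26, 28], [0, 6, 12, 16,
    19, 22, 25, 28], [⟨1, 1, 1, 4, 8, [0, 4], [0, 4]⟩, ⟨1, 1, 1, 4, 10, [0, 6], [0, 4]⟩, ⟨1, 1, 1,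
    6, 14, [0, 8], [0, 6]⟩]⟩

/-- the certificates of the pair `(5, 2)` -/
def t17_17_5_2 : BlkD.Tr :=
  .S 0 5 (.S 2 2 (.L 4 5 [4, 4, 4] [] [] 100000 1 1 955844 11039 0 50000 16667 7792 30736 30736)
    (.E 1)) (.E 0)

lemma pr17_17_5_2 {n : ℕ} (hn : 5 ≤ n) : NoPr ((17 : ℕ) : ℤ) ((17 : ℕ) : ℤ) n 5 2 :=
  BlkD.pair_sound (d := d17_17_5_2) (by decide +kernel) hn (by decide) (tr := t17_17_5_2)
    (by decide +kernel) rfl rfl rfl rfl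

/-- the numbers of the pair `(5, 3)`, `R = 17`, `H = 17` -/
def d17_17_5_3 : BlkD.Pd :=
  ⟨17, 17, 3, 5, 3, 6, 3, 2, 1, 3, 10, 0, 2, 2, 8, 0, [0, 10, 20, 21, 22, 23, 24], [0, 8, 16, 18,
    20, 22, 24], [⟨1, 1, 1, 4, 8, [0, 4], [0, 4]⟩, ⟨1, 1, 1, 4, 12, [0, 6], [0, 6]⟩, ⟨1, 1, 1, 4,
    14, [0, 8], [0, 6]⟩, ⟨2, 1, 1, 4, 22, [0, 10, 14], [0, 8]⟩]⟩

/-- the certificates of the pair `(5, 3)` -/
def t17_17_5_3 : BlkD.Tr :=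
  .S 0 5 (.S 2 3 (.S 0 2 (.S 0 1 (.L 4 5 [4, 4, 4, 5] [] [] 100000 100000 100000 600000 100000 0
    100000 100000 0 0 0) (.S 1 15 (.S 1 7 (.S 1 3 (.L 4 5 [4, 4, 4, 5] [] [] 100000 33334 33334
    957142 14286 0 14286 57143 0 42857 21429) (.S 1 5 (.S 1 4 (.L 5 6 [4, 4, 3, 4] [62, 58, 48, 38,
    28, 0] [] 100000 29941 29941 1005344 23664 0 49109 51145 5089 25191 25445) (.L 5 6 [4, 4, 3, 4]
    [75, 74, 70, 60, 50, 40] [] 100000 38889 38889 966669 33333 0 66667 50000 0 16667 16667)) (.L 5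
    6 [4, 4, 3, 4] [] [] 100000 33334 33334 997676 6977 0 90698 81395 0 18605 9302))) (.E 0)) (.E
    0))) (.S 0 4 (.S 0 3 (.S 1 14 (.S 1 7 (.S 1 3 (.L 5 6 [4, 4, 3, 4] [] [] 100000 32452 32452
    979366 20635 0 85979 71429 1323 28571 33333) (.S 1 5 (.S 1 4 (.S 2 1 (.S 2 0 (.L 5 6 [4, 4, 3,
    4] [70, 66, 56, 46, 36, 0] [] 100000 50000 50000 700000 0 0 100000 100000 0 0 0) (.S 3 9 (.S 3
    4 (.S 3 2 (.L 5 6 [4, 4, 3, 4] [70, 66, 56, 46, 36, 0] [] 100000 33333 33332 950000 0 50000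
    50000 50000 0 0 50000) (.S 3 3 (.L 5 6 [4, 4, 3, 4] [70, 66, 56, 46, 36, 0] [38, 30, 22, 12, 0,
    0] 100000 32420 32420 997261 23288 16438 49315 46575 1370 13699 26027) (.S 4 4 (.S 4 2 (.L 5 6
    [4, 4, 3, 4] [56, 46, 36, 0, 0, 0] [50, 46, 38, 30, 20, 0] 100000 33333 33332 960000 40000 0
    80000 40000 0 40000 20000) (.L 5 6 [4, 4, 3, 4] [70, 66, 56, 46, 36, 0] [50, 46, 38, 30, 20, 0]
    100000 42858 1 742858 0 14286 142857 28571 0 42857 14286)) (.E 2)))) (.E 1)) (.E 1))) (.L 5 6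
    [4, 4, 3, 4] [70, 66, 56, 46, 36, 0] [] 100000 24445 24445 1020000 20000 0 66667 60000 13333
    20000 17778)) (.L 5 6 [4, 4, 3, 4] [85, 84, 80, 70, 60, 50] [] 100000 31765 31765 990588 11765
    0 97647 52941 2353 23529 11765)) (.L 5 6 [4, 4, 3, 4] [] [] 100000 150000 0 100000 0 0 250000
    100000 0 0 0))) (.E 0)) (.E 0)) (.S 1 13 (.S 1 6 (.S 1 3 (.L 5 6 [4, 4, 3, 4] [] [] 100000
    30887 30887 1000002 22018 0 79358 55963 3670 27064 38991) (.L 5 6 [4, 4, 3, 4] [] [] 100000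
    22727 22726 929090 0 0 85455 85455 21818 10909 10909)) (.E 0)) (.E 0))) (.L 5 6 [4, 4, 3, 4] []
    [] 100000 3333 3332 1000000 0 0 60000 60000 60000 30000 30000))) (.E 1)) (.E 0)

lemma pr17_17_5_3 {n : ℕ} (hn : 5 ≤ n) : NoPr ((17 : ℕ) : ℤ) ((17 : ℕ) : ℤ) n 5 3 :=
  BlkD.pair_sound (d := d17_17_5_3) (by decide +kernel) hn (by decide) (tr := t17_17_5_3)
    (by decide +kernel) rfl rfl rfl rfl

/-- the numbers of the pair `(5, 4)`, `R = 17`, `H = 17` -/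
def d17_17_5_4 : BlkD.Pd :=
  ⟨17, 17, 3, 5, 4, 5, 2, 2, 2, 2, 8, 0, 2, 2, 8, 0, [0, 8, 14, 16, 18, 20], [0, 8, 14, 16, 18,
    20], [⟨1, 1, 1, 4, 8, [0, 4], [0, 4]⟩, ⟨1, 1, 1, 4, 12, [0, 6], [0, 6]⟩, ⟨1, 1, 1, 4, 16, [0,
    8], [0, 8]⟩]⟩

/-- the certificates of the pair `(5, 4)` -/
def t17_17_5_4 : BlkD.Tr :=
  .S 0 5 (.S 2 4 (.S 0 2 (.L 5 5 [4, 4, 4, 17, 17] [] [] 100000 6034 6034 1184485 17241 0 63793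
    46552 3448 20690 32759) (.L 5 5 [4, 4, 4, 17, 17] [] [] 100000 1 1 1196001 1333 6000 82000
    80667 18000 19333 31333)) (.E 1)) (.E 0)

lemma pr17_17_5_4 {n : ℕ} (hn : 5 ≤ n) : NoPr ((17 : ℕ) : ℤ) ((17 : ℕ) : ℤ) n 5 4 :=
  BlkD.pair_sound (d := d17_17_5_4) (by decide +kernel) hn (by decide) (tr := t17_17_5_4)
    (by decide +kernel) rfl rfl rfl rfl

end BlkC

end Pool.Agent.Lib.MP_f04ccf_co
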