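import Pool.Agent.Lib.MP_f04ccf_co.M.BlkTp

/-!
MP_f04ccf_co, block certificate, data `R = 18`, `H = 18`, part 2 (certificates: helper99, bd9.cpp).
-/

set_option autoImplicit false
set_option maxRecDepth 100000

namespace Pool.Agent.Lib.MP_f04ccf_co

namespace BlkC

/-- the numbers of the pair `(6, 5)`, `R = 18`, `H = 18` -/
def d18_18_6_5 : BlkD.Pd :=
  ⟨18, 18, 3, 6, 5, 4, 1, 3, 2, 2, 6, 0, 2, 2, 6, 0, [0, 6, 12, 14, 16], [0, 6, 12, 14, 16], [⟨1,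
    1, 1, 4, 8, [0, 4], [0, 4]⟩, ⟨1, 1, 1, 4, 12, [0, 6], [0, 6]⟩]⟩

lemma dk18_18_6_5 : BlkD.pairOk d18_18_6_5 = true := by decide +kernel

/-- the certificates of the part 1 of the pair `(6, 5)` -/
def t18_18_6_5_1 : BlkD.Tr :=
  .S 0 1 (.L 4 4 [4, 4, 18, 18, 18, 18] [] [] 100000 87502 87502 1124999 62500 16667 79167 50000 0
    0 0) (.S 0 2 (.L 4 4 [4, 4, 18, 18, 18, 18] [] [] 100000 75000 75000 1300000 50000 0 75000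
    50000 0 0 0) (.L 5 6 [4, 3, 18, 18, 18, 18] [] [] 100000 0 0 1394119 23529 11765 76471 64706 0
    0 0))

lemma n18_18_6_5_1 {n : ℕ} (hn : 5 ≤ n) : NoNd ((18 : ℕ) : ℤ) ((18 : ℕ) : ℤ) n 6 5
    (BlkD.inB (fun _ => 0)
      (BlkD.upd (BlkD.upd (BlkD.upd (fun _ => 18) 0 6) 2 5) 0 3)) :=
  BlkD.part_sound (d := d18_18_6_5) dk18_18_6_5 hn (by decide) (tr := t18_18_6_5_1)
    (by decide +kernel) rfl rfl rfl rfl

/-- the certificates of the part 2 of the pair `(6, 5)` -/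
def t18_18_6_5_2 : BlkD.Tr :=
  .S 1 14 (.S 1 7 (.S 1 3 (.L 5 6 [4, 3, 18, 18, 18, 18] [] [] 100000 0 0 1340001 33333 20000 53333
    50000 0 0 0) (.S 1 5 (.L 5 6 [4, 3, 18, 18, 18, 18] [] [] 100000 0 0 1393335 26667 13333 58333
    50000 0 0 0) (.L 5 6 [4, 3, 18, 18, 18, 18] [] [] 100000 1 1 1336842 21053 10526 100000 78947 0
    0 0))) (.E 0)) (.E 0)

lemma n18_18_6_5_2 {n : ℕ} (hn : 5 ≤ n) : NoNd ((18 : ℕ) : ℤ) ((18 : ℕ) : ℤ) n 6 5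
    (BlkD.inB (BlkD.upd (fun _ => 0) 0 4)
      (BlkD.upd (BlkD.upd (BlkD.upd (BlkD.upd (fun _ => 18) 0 6) 2 5) 0 5) 0 4)) :=
  BlkD.part_sound (d := d18_18_6_5) dk18_18_6_5 hn (by decide) (tr := t18_18_6_5_2)
    (by decide +kernel) rfl rfl rfl rfl

/-- the certificates of the part 3 of the pair `(6, 5)` -/
def t18_18_6_5_3 : BlkD.Tr :=
  .L 5 6 [4, 3, 18, 18, 18, 18] [] [] 100000 0 0 1382859 8571 22857 77143 54286 0 0 0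

lemma n18_18_6_5_3 {n : ℕ} (hn : 5 ≤ n) : NoNd ((18 : ℕ) : ℤ) ((18 : ℕ) : ℤ) n 6 5
    (BlkD.inB (BlkD.upd (BlkD.upd (fun _ => 0) 0 4) 0 5)
      (BlkD.upd (BlkD.upd (BlkD.upd (fun _ => 18) 0 6) 2 5) 0 5)) :=
  BlkD.part_sound (d := d18_18_6_5) dk18_18_6_5 hn (by decide) (tr := t18_18_6_5_3)
    (by decide +kernel) rfl rfl rfl rfl

/-- the certificates of the part 4 of the pair `(6, 5)` -/
def t18_18_6_5_4 : BlkD.Tr :=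
  .L 5 6 [4, 3, 18, 18, 18, 18] [] [] 100000 0 0 1360000 0 40000 50000 50000 0 0 0

lemma n18_18_6_5_4 {n : ℕ} (hn : 5 ≤ n) : NoNd ((18 : ℕ) : ℤ) ((18 : ℕ) : ℤ) n 6 5
    (BlkD.inB (BlkD.upd (BlkD.upd (fun _ => 0) 0 4) 0 6)
      (BlkD.upd (BlkD.upd (fun _ => 18) 0 6) 2 5)) :=
  BlkD.part_sound (d := d18_18_6_5) dk18_18_6_5 hn (by decide) (tr := t18_18_6_5_4)
    (by decide +kernel) rfl rfl rfl rfl

/-- the certificates of the part 5 of the pair `(6, 5)` -/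
def t18_18_6_5_5 : BlkD.Tr :=
  .E 1

lemma n18_18_6_5_5 {n : ℕ} (hn : 5 ≤ n) : NoNd ((18 : ℕ) : ℤ) ((18 : ℕ) : ℤ) n 6 5
    (BlkD.inB (BlkD.upd (fun _ => 0) 2 6)
      (BlkD.upd (fun _ => 18) 0 6)) :=
  BlkD.part_sound (d := d18_18_6_5) dk18_18_6_5 hn (by decide) (tr := t18_18_6_5_5)
    (by decide +kernel) rfl rfl rfl rfl

/-- the certificates of the part 6 of the pair `(6, 5)` -/
def t18_18_6_5_6 : BlkD.Tr :=
  .E 0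

lemma n18_18_6_5_6 {n : ℕ} (hn : 5 ≤ n) : NoNd ((18 : ℕ) : ℤ) ((18 : ℕ) : ℤ) n 6 5
    (BlkD.inB (BlkD.upd (fun _ => 0) 0 7)
      (fun _ => 18)) :=
  BlkD.part_sound (d := d18_18_6_5) dk18_18_6_5 hn (by decide) (tr := t18_18_6_5_6)
    (by decide +kernel) rfl rfl rfl rfl

lemma pr18_18_6_5 {n : ℕ} (hn : 5 ≤ n) : NoPr ((18 : ℕ) : ℤ) ((18 : ℕ) : ℤ) n 6 5 :=
  BlkD.of_root (q := 3) (by decide) hn (BlkD.sp 0 6 (BlkD.sp 2 5 (BlkD.sp 0 3 (n18_18_6_5_1 hn)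
    (BlkD.sp 0 5 (BlkD.sp 0 4 (n18_18_6_5_2 hn)
    (n18_18_6_5_3 hn))
    (n18_18_6_5_4 hn)))
    (n18_18_6_5_5 hn))
    (n18_18_6_5_6 hn))

/-- the numbers of the pair `(6, 6)`, `R = 18`, `H = 18` -/
def d18_18_6_6 : BlkD.Pd :=
  ⟨18, 18, 3, 6, 6, 3, 0, 3, 0, 4, 4, 0, 0, 4, 4, 0, [0, 4, 8, 12], [0, 4, 8, 12], [⟨1, 1, 1, 4, 8,
    [0, 4], [0, 4]⟩]⟩

lemma dk18_18_6_6 : BlkD.pairOk d18_18_6_6 = true := by decide +kernel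

/-- the certificates of the part 1 of the pair `(6, 6)` -/
def t18_18_6_6_1 : BlkD.Tr :=
  .L 3 3 [4, 18, 18, 18, 18, 18, 18] [] [] 100000 0 0 1400000 50000 50000 100000 100000 0 0 0

lemma n18_18_6_6_1 {n : ℕ} (hn : 5 ≤ n) : NoNd ((18 : ℕ) : ℤ) ((18 : ℕ) : ℤ) n 6 6
    (BlkD.inB (fun _ => 0)
      (BlkD.upd (BlkD.upd (BlkD.upd (BlkD.upd (fun _ => 18) 0 6) 2 6) 0 3) 0 1)) :=
  BlkD.part_sound (d := d18_18_6_6) dk18_18_6_6 hn (by decide) (tr := t18_18_6_6_1)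
    (by decide +kernel) rfl rfl rfl rfl

/-- the certificates of the part 2 of the pair `(6, 6)` -/
def t18_18_6_6_2 : BlkD.Tr :=
  .L 3 3 [4, 18, 18, 18, 18, 18, 18] [] [] 100000 0 0 1400000 50000 50000 100000 100000 0 0 0

lemma n18_18_6_6_2 {n : ℕ} (hn : 5 ≤ n) : NoNd ((18 : ℕ) : ℤ) ((18 : ℕ) : ℤ) n 6 6
    (BlkD.inB (BlkD.upd (fun _ => 0) 0 2)
      (BlkD.upd (BlkD.upd (BlkD.upd (fun _ => 18) 0 6) 2 6) 0 3)) :=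
  BlkD.part_sound (d := d18_18_6_6) dk18_18_6_6 hn (by decide) (tr := t18_18_6_6_2)
    (by decide +kernel) rfl rfl rfl rfl

/-- the certificates of the part 3 of the pair `(6, 6)` -/
def t18_18_6_6_3 : BlkD.Tr :=
  .L 3 3 [4, 18, 18, 18, 18, 18, 18] [] [] 100000 0 0 1400000 50000 50000 100000 100000 0 0 0

lemma n18_18_6_6_3 {n : ℕ} (hn : 5 ≤ n) : NoNd ((18 : ℕ) : ℤ) ((18 : ℕ) : ℤ) n 6 6
    (BlkD.inB (BlkD.upd (fun _ => 0) 0 4)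
      (BlkD.upd (BlkD.upd (BlkD.upd (fun _ => 18) 0 6) 2 6) 0 5)) :=
  BlkD.part_sound (d := d18_18_6_6) dk18_18_6_6 hn (by decide) (tr := t18_18_6_6_3)
    (by decide +kernel) rfl rfl rfl rfl

/-- the certificates of the part 4 of the pair `(6, 6)` -/
def t18_18_6_6_4 : BlkD.Tr :=
  .L 3 3 [4, 18, 18, 18, 18, 18, 18] [] [] 100000 0 0 1400000 50000 50000 100000 100000 0 0 0

lemma n18_18_6_6_4 {n : ℕ} (hn : 5 ≤ n) : NoNd ((18 : ℕ) : ℤ) ((18 : ℕ) : ℤ) n 6 6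
    (BlkD.inB (BlkD.upd (BlkD.upd (fun _ => 0) 0 4) 0 6)
      (BlkD.upd (BlkD.upd (fun _ => 18) 0 6) 2 6)) :=
  BlkD.part_sound (d := d18_18_6_6) dk18_18_6_6 hn (by decide) (tr := t18_18_6_6_4)
    (by decide +kernel) rfl rfl rfl rfl

/-- the certificates of the part 5 of the pair `(6, 6)` -/
def t18_18_6_6_5 : BlkD.Tr :=
  .E 1

lemma n18_18_6_6_5 {n : ℕ} (hn : 5 ≤ n) : NoNd ((18 : ℕ) : ℤ) ((18 : ℕ) : ℤ) n 6 6
    (BlkD.inB (BlkD.upd (fun _ => 0) 2 7)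
      (BlkD.upd (fun _ => 18) 0 6)) :=
  BlkD.part_sound (d := d18_18_6_6) dk18_18_6_6 hn (by decide) (tr := t18_18_6_6_5)
    (by decide +kernel) rfl rfl rfl rfl

/-- the certificates of the part 6 of the pair `(6, 6)` -/
def t18_18_6_6_6 : BlkD.Tr :=
  .E 0

lemma n18_18_6_6_6 {n : ℕ} (hn : 5 ≤ n) : NoNd ((18 : ℕ) : ℤ) ((18 : ℕ) : ℤ) n 6 6
    (BlkD.inB (BlkD.upd (fun _ => 0) 0 7)
      (fun _ => 18)) :=
  BlkD.part_sound (d := d18_18_6_6) dk18_18_6_6 hn (by decide) (tr := t18_18_6_6_6)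
    (by decide +kernel) rfl rfl rfl rfl

lemma pr18_18_6_6 {n : ℕ} (hn : 5 ≤ n) : NoPr ((18 : ℕ) : ℤ) ((18 : ℕ) : ℤ) n 6 6 :=
  BlkD.of_root (q := 3) (by decide) hn (BlkD.sp 0 6 (BlkD.sp 2 6 (BlkD.sp 0 3 (BlkD.sp 0 1 (n18_18_6_6_1 hn)
    (n18_18_6_6_2 hn))
    (BlkD.sp 0 5 (n18_18_6_6_3 hn)
    (n18_18_6_6_4 hn)))
    (n18_18_6_6_5 hn))
    (n18_18_6_6_6 hn))

/-- the numbers of the pair `(7, 0)`, `R = 18`, `H = 18` -/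
def d18_18_7_0 : BlkD.Pd :=
  ⟨18, 18, 3, 7, 0, 8, 0, 1, 0, 4, 4, 0, 0, 4, 4, 0, [0, 4, 8, 12, 16, 20, 24, 28, 32], [0, 4, 8,
    12, 16, 20, 24, 28, 32], [⟨1, 1, 1, 4, 8, [0, 4], [0, 4]⟩]⟩

lemma dk18_18_7_0 : BlkD.pairOk d18_18_7_0 = true := by decide +kernel

/-- the certificates of the part 1 of the pair `(7, 0)` -/
def t18_18_7_0_1 : BlkD.Tr :=
  .S 0 7 (.S 2 0 (.L 3 3 [4] [] [] 100000 0 0 825000 50000 0 75000 25000 0 0 0) (.E 1)) (.E 0)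

lemma n18_18_7_0_1 {n : ℕ} (hn : 5 ≤ n) : NoNd ((18 : ℕ) : ℤ) ((18 : ℕ) : ℤ) n 7 0
    (BlkD.inB (fun _ => 0)
      (fun _ => 18)) :=
  BlkD.part_sound (d := d18_18_7_0) dk18_18_7_0 hn (by decide) (tr := t18_18_7_0_1)
    (by decide +kernel) rfl rfl rfl rfl

lemma pr18_18_7_0 {n : ℕ} (hn : 5 ≤ n) : NoPr ((18 : ℕ) : ℤ) ((18 : ℕ) : ℤ) n 7 0 :=
  BlkD.of_root (q := 3) (by decide) hn (n18_18_7_0_1 hn)

/-- the numbers of the pair `(7, 1)`, `R = 18`, `H = 18` -/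
def d18_18_7_1 : BlkD.Pd :=
  ⟨18, 18, 3, 7, 1, 7, 1, 1, 2, 2, 6, 0, 0, 4, 4, 0, [0, 6, 12, 18, 22, 24, 26, 28], [0, 4, 8, 12,
    16, 20, 24, 28], [⟨1, 1, 1, 4, 8, [0, 4], [0, 4]⟩, ⟨1, 1, 1, 4, 10, [0, 6], [0, 4]⟩]⟩

lemma dk18_18_7_1 : BlkD.pairOk d18_18_7_1 = true := by decide +kernel

/-- the certificates of the part 1 of the pair `(7, 1)` -/
def t18_18_7_1_1 : BlkD.Tr :=
  .S 0 7 (.S 2 1 (.S 0 3 (.L 3 5 [4, 4] [] [] 100000 26316 0 815789 57895 0 78947 0 0 0 0) (.L 3 5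
    [4, 4] [] [] 100000 0 0 1080000 20000 0 60000 0 0 0 0)) (.E 1)) (.E 0)

lemma n18_18_7_1_1 {n : ℕ} (hn : 5 ≤ n) : NoNd ((18 : ℕ) : ℤ) ((18 : ℕ) : ℤ) n 7 1
    (BlkD.inB (fun _ => 0)
      (fun _ => 18)) :=
  BlkD.part_sound (d := d18_18_7_1) dk18_18_7_1 hn (by decide) (tr := t18_18_7_1_1)
    (by decide +kernel) rfl rfl rfl rfl

lemma pr18_18_7_1 {n : ℕ} (hn : 5 ≤ n) : NoPr ((18 : ℕ) : ℤ) ((18 : ℕ) : ℤ) n 7 1 :=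
  BlkD.of_root (q := 3) (by decide) hn (n18_18_7_1_1 hn)

/-- the numbers of the pair `(7, 2)`, `R = 18`, `H = 18` -/
def d18_18_7_2 : BlkD.Pd :=
  ⟨18, 18, 3, 7, 2, 6, 2, 2, 2, 2, 8, 0, 3, 1, 6, 0, [0, 8, 16, 18, 20, 22, 24], [0, 6, 12, 15, 18,
    21, 24], [⟨1, 1, 1, 4, 8, [0, 4], [0, 4]⟩, ⟨1, 1, 1, 4, 10, [0, 6], [0, 4]⟩, ⟨2, 1, 1, 4, 16,
    [0, 8, 10], [0, 6]⟩]⟩

lemma dk18_18_7_2 : BlkD.pairOk d18_18_7_2 = true := by decide +kernel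

/-- the certificates of the part 1 of the pair `(7, 2)` -/
def t18_18_7_2_1 : BlkD.Tr :=
  .S 0 1 (.L 4 6 [4, 4, 4] [] [] 100000 50000 50000 500000 100000 0 100000 0 0 0 0) (.S 0 2 (.L 4 6
    [4, 4, 4] [] [] 100000 80000 80000 880000 60000 0 80000 40000 0 0 0) (.S 1 15 (.S 1 7 (.L 4 6
    [4, 4, 4] [] [] 100000 14285 14284 1100003 28571 0 28571 28571 0 0 0) (.S 1 11 (.S 1 9 (.S 1 8
    (.L 4 6 [4, 4, 4] [138, 136, 134, 132, 130, 128] [] 100000 33333 33332 1000000 50000 0 66667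
    33333 0 16667 16667) (.L 4 6 [4, 4, 4] [162, 160, 158, 156, 154, 152] [] 100000 27273 9093
    963639 54545 0 81818 27273 0 18182 18182)) (.L 4 6 [4, 4, 4] [] [] 100000 100000 0 500001 33333
    0 200000 0 0 0 0)) (.E 0))) (.E 0)))

lemma n18_18_7_2_1 {n : ℕ} (hn : 5 ≤ n) : NoNd ((18 : ℕ) : ℤ) ((18 : ℕ) : ℤ) n 7 2
    (BlkD.inB (fun _ => 0)
      (BlkD.upd (BlkD.upd (BlkD.upd (fun _ => 18) 0 7) 2 2) 0 3)) :=
  BlkD.part_sound (d := d18_18_7_2) dk18_18_7_2 hn (by decide) (tr := t18_18_7_2_1)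
    (by decide +kernel) rfl rfl rfl rfl

/-- the certificates of the part 2 of the pair `(7, 2)` -/
def t18_18_7_2_2 : BlkD.Tr :=
  .S 0 5 (.S 0 4 (.S 1 14 (.S 1 7 (.S 1 3 (.L 4 6 [4, 4, 4] [] [] 100000 0 0 1000000 0 0 0 0 0 0 0)
    (.S 1 5 (.L 4 6 [4, 4, 4] [] [] 100000 6250 6250 1075000 25000 0 25000 25000 0 12500 12500) (.S
    1 6 (.L 4 6 [4, 4, 4] [108, 106, 104, 102, 94, 86] [] 100000 8974 8974 1100002 33333 0 58974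
    19231 0 30769 15385) (.L 4 6 [4, 4, 4] [130, 128, 126, 124, 122, 114] [] 100000 8333 8333
    1100002 33333 0 66667 33333 0 16667 16667)))) (.L 4 6 [4, 4, 4] [] [] 100000 0 0 1193750 6250 0
    87500 50000 0 12500 12500)) (.E 0)) (.L 4 6 [4, 4, 4] [] [] 100000 1 0 1187235 8511 0 78723
    19149 2128 19149 19149)) (.L 4 6 [4, 4, 4] [] [] 100000 1 1 1173334 8889 0 54444 12593 4074
    12593 12593)

lemma n18_18_7_2_2 {n : ℕ} (hn : 5 ≤ n) : NoNd ((18 : ℕ) : ℤ) ((18 : ℕ) : ℤ) n 7 2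
    (BlkD.inB (BlkD.upd (fun _ => 0) 0 4)
      (BlkD.upd (BlkD.upd (fun _ => 18) 0 7) 2 2)) :=
  BlkD.part_sound (d := d18_18_7_2) dk18_18_7_2 hn (by decide) (tr := t18_18_7_2_2)
    (by decide +kernel) rfl rfl rfl rfl

/-- the certificates of the part 3 of the pair `(7, 2)` -/
def t18_18_7_2_3 : BlkD.Tr :=
  .E 1

lemma n18_18_7_2_3 {n : ℕ} (hn : 5 ≤ n) : NoNd ((18 : ℕ) : ℤ) ((18 : ℕ) : ℤ) n 7 2
    (BlkD.inB (BlkD.upd (fun _ => 0) 2 3)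
      (BlkD.upd (fun _ => 18) 0 7)) :=
  BlkD.part_sound (d := d18_18_7_2) dk18_18_7_2 hn (by decide) (tr := t18_18_7_2_3)
    (by decide +kernel) rfl rfl rfl rfl

/-- the certificates of the part 4 of the pair `(7, 2)` -/
def t18_18_7_2_4 : BlkD.Tr :=
  .E 0

lemma n18_18_7_2_4 {n : ℕ} (hn : 5 ≤ n) : NoNd ((18 : ℕ) : ℤ) ((18 : ℕ) : ℤ) n 7 2
    (BlkD.inB (BlkD.upd (fun _ => 0) 0 8)
      (fun _ => 18)) :=
  BlkD.part_sound (d := d18_18_7_2) dk18_18_7_2 hn (by decide) (tr := t18_18_7_2_4)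
    (by decide +kernel) rfl rfl rfl rfl

lemma pr18_18_7_2 {n : ℕ} (hn : 5 ≤ n) : NoPr ((18 : ℕ) : ℤ) ((18 : ℕ) : ℤ) n 7 2 :=
  BlkD.of_root (q := 3) (by decide) hn (BlkD.sp 0 7 (BlkD.sp 2 2 (BlkD.sp 0 3 (n18_18_7_2_1 hn)
    (n18_18_7_2_2 hn))
    (n18_18_7_2_3 hn))
    (n18_18_7_2_4 hn))

/-- the numbers of the pair `(7, 3)`, `R = 18`, `H = 18` -/
def d18_18_7_3 : BlkD.Pd :=
  ⟨18, 18, 3, 7, 3, 5, 2, 2, 2, 2, 8, 0, 2, 2, 6, 0, [0, 8, 14, 16, 18, 20], [0, 6, 12, 16, 18,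
    20], [⟨1, 1, 1, 4, 8, [0, 4], [0, 4]⟩, ⟨1, 1, 1, 4, 12, [0, 6], [0, 6]⟩, ⟨2, 1, 1, 4, 16, [0,
    8, 10], [0, 6]⟩]⟩

lemma dk18_18_7_3 : BlkD.pairOk d18_18_7_3 = true := by decide +kernel

/-- the certificates of the part 1 of the pair `(7, 3)` -/
def t18_18_7_3_1 : BlkD.Tr :=
  .S 0 1 (.L 4 6 [4, 4, 4, 18] [] [] 100000 100000 100000 700000 100000 0 100000 0 0 0 0) (.S 0 2
    (.L 4 6 [4, 4, 4, 18] [] [] 100000 143750 143750 925000 75000 0 87500 75000 0 0 0) (.S 1 15 (.S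
    1 7 (.S 1 3 (.L 4 6 [4, 4, 4, 18] [] [] 100000 0 0 1100000 0 0 0 0 0 0 0) (.S 1 5 (.L 4 6 [4,
    4, 4, 18] [] [] 100000 3573 3573 1192856 21429 0 32143 14286 0 14286 14286) (.S 1 6 (.L 4 6 [4,
    4, 4, 18] [102, 100, 98, 92, 84, 76] [] 100000 33334 33334 1166667 38889 0 50000 22222 0 0
    11111) (.L 4 6 [4, 4, 4, 18] [122, 120, 118, 116, 110, 102] [] 100000 80000 80000 1080000 60000
    0 80000 40000 0 0 20000)))) (.S 1 11 (.S 1 9 (.S 1 8 (.L 4 6 [4, 4, 4, 18] [144, 142, 140, 138,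
    136, 130] [] 100000 100001 100001 1050000 66667 0 83333 50000 0 0 0) (.L 4 6 [4, 4, 4, 18]
    [168, 166, 164, 162, 160, 158] [] 100000 76666 76666 1036668 63333 0 86667 60000 0 0 6667)) (.S
    1 10 (.L 4 6 [4, 4, 4, 18] [194, 192, 190, 188, 186, 184] [] 100000 160000 120000 660000 120000
    0 140000 20000 0 0 0) (.E 0))) (.E 0))) (.E 0)))

lemma n18_18_7_3_1 {n : ℕ} (hn : 5 ≤ n) : NoNd ((18 : ℕ) : ℤ) ((18 : ℕ) : ℤ) n 7 3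
    (BlkD.inB (fun _ => 0)
      (BlkD.upd (BlkD.upd (BlkD.upd (fun _ => 18) 0 7) 2 3) 0 3)) :=
  BlkD.part_sound (d := d18_18_7_3) dk18_18_7_3 hn (by decide) (tr := t18_18_7_3_1)
    (by decide +kernel) rfl rfl rfl rfl

/-- the certificates of the part 2 of the pair `(7, 3)` -/
def t18_18_7_3_2 : BlkD.Tr :=
  .S 1 14 (.S 1 7 (.S 1 3 (.L 4 6 [4, 4, 4, 18] [] [] 100000 0 0 1200000 0 0 0 0 0 0 0) (.S 1 5 (.S
    1 4 (.L 4 6 [4, 4, 4, 18] [76, 70, 62, 54, 44, 0] [] 100000 4546 4546 1190908 27273 0 27273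
    18182 0 18182 18182) (.L 4 6 [4, 4, 4, 18] [94, 92, 86, 78, 70, 60] [] 100000 21429 21429
    1221430 35714 0 39286 21429 0 21429 21429)) (.S 1 6 (.L 4 6 [4, 4, 4, 18] [114, 112, 110, 104,
    96, 88] [] 100000 35213 35213 1222534 42254 0 66197 25352 0 22535 23944) (.L 4 6 [4, 4, 4, 18]
    [136, 134, 132, 130, 124, 116] [] 100000 56250 56250 1175000 50000 0 87500 25000 0 12500 0))))
    (.S 1 11 (.S 1 9 (.S 1 8 (.L 4 6 [4, 4, 4, 18] [160, 158, 156, 154, 152, 146] [] 100000 50000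
    50000 1100000 50000 0 100000 50000 0 0 0) (.L 4 6 [4, 4, 4, 18] [186, 184, 182, 180, 178, 176]
    [] 100000 225000 0 1 100000 0 325000 33333 0 0 0)) (.E 0)) (.E 0))) (.E 0)

lemma n18_18_7_3_2 {n : ℕ} (hn : 5 ≤ n) : NoNd ((18 : ℕ) : ℤ) ((18 : ℕ) : ℤ) n 7 3
    (BlkD.inB (BlkD.upd (fun _ => 0) 0 4)
      (BlkD.upd (BlkD.upd (BlkD.upd (BlkD.upd (fun _ => 18) 0 7) 2 3) 0 5) 0 4)) :=
  BlkD.part_sound (d := d18_18_7_3) dk18_18_7_3 hn (by decide) (tr := t18_18_7_3_2)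
    (by decide +kernel) rfl rfl rfl rfl

/-- the certificates of the part 3 of the pair `(7, 3)` -/
def t18_18_7_3_3 : BlkD.Tr :=
  .S 1 13 (.S 1 6 (.S 1 3 (.L 4 6 [4, 4, 4, 18] [] [] 100000 6250 6250 1187500 37500 0 37500 25000
    0 25000 25000) (.S 1 5 (.S 1 4 (.S 2 1 (.L 4 6 [4, 4, 4, 18] [84, 78, 70, 62, 52, 0] [] 100000
    0 0 1283335 20833 16667 37500 33333 0 33333 33333) (.S 2 2 (.S 3 7 (.S 3 3 (.S 3 1 (.L 4 6 [4,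
    4, 4, 18] [84, 78, 70, 62, 52, 0] [] 100000 0 0 1200000 0 0 0 0 0 0 0) (.S 3 2 (.L 4 6 [4, 4,
    4, 18] [84, 78, 70, 62, 52, 0] [28, 20, 10, 0, 0, 0] 100000 0 0 1225000 25000 0 25000 25000 0
    25000 25000) (.L 6 8 [4, 4, 3, 18] [84, 78, 70, 62, 52, 0] [42, 36, 28, 18, 0, 0] 100000 0 0
    1266668 33333 0 33333 0 0 33333 33333))) (.E 1)) (.E 1)) (.L 6 8 [4, 4, 3, 18] [84, 78, 70, 62,
    52, 0] [] 100000 0 0 1233334 33333 0 33333 0 0 33333 33333))) (.L 6 8 [4, 4, 3, 18] [104, 102,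
    96, 88, 80, 70] [] 100000 6251 6251 1249040 27885 0 83654 39423 0 15385 22115)) (.L 6 8 [4, 4,
    3, 18] [126, 124, 122, 116, 108, 100] [] 100000 10651 10651 1239646 43195 0 73964 30769 7692
    14201 13018))) (.L 6 8 [4, 4, 3, 18] [] [] 100000 0 0 1200000 0 0 100000 100000 0 0 0)) (.E 0)

lemma n18_18_7_3_3 {n : ℕ} (hn : 5 ≤ n) : NoNd ((18 : ℕ) : ℤ) ((18 : ℕ) : ℤ) n 7 3
    (BlkD.inB (BlkD.upd (BlkD.upd (fun _ => 0) 0 4) 0 5)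
      (BlkD.upd (BlkD.upd (BlkD.upd (fun _ => 18) 0 7) 2 3) 0 5)) :=
  BlkD.part_sound (d := d18_18_7_3) dk18_18_7_3 hn (by decide) (tr := t18_18_7_3_3)
    (by decide +kernel) rfl rfl rfl rfl

/-- the certificates of the part 4 of the pair `(7, 3)` -/
def t18_18_7_3_4 : BlkD.Tr :=
  .L 6 8 [4, 4, 3, 18] [] [] 100000 1 1 1285715 7143 0 53571 46429 0 7143 7143

lemma n18_18_7_3_4 {n : ℕ} (hn : 5 ≤ n) : NoNd ((18 : ℕ) : ℤ) ((18 : ℕ) : ℤ) n 7 3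
    (BlkD.inB (BlkD.upd (BlkD.upd (fun _ => 0) 0 4) 0 6)
      (BlkD.upd (BlkD.upd (fun _ => 18) 0 7) 2 3)) :=
  BlkD.part_sound (d := d18_18_7_3) dk18_18_7_3 hn (by decide) (tr := t18_18_7_3_4)
    (by decide +kernel) rfl rfl rfl rfl

/-- the certificates of the part 5 of the pair `(7, 3)` -/
def t18_18_7_3_5 : BlkD.Tr :=
  .E 1

lemma n18_18_7_3_5 {n : ℕ} (hn : 5 ≤ n) : NoNd ((18 : ℕ) : ℤ) ((18 : ℕ) : ℤ) n 7 3
    (BlkD.inB (BlkD.upd (fun _ => 0) 2 4)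
      (BlkD.upd (fun _ => 18) 0 7)) :=
  BlkD.part_sound (d := d18_18_7_3) dk18_18_7_3 hn (by decide) (tr := t18_18_7_3_5)
    (by decide +kernel) rfl rfl rfl rfl

/-- the certificates of the part 6 of the pair `(7, 3)` -/
def t18_18_7_3_6 : BlkD.Tr :=
  .E 0

lemma n18_18_7_3_6 {n : ℕ} (hn : 5 ≤ n) : NoNd ((18 : ℕ) : ℤ) ((18 : ℕ) : ℤ) n 7 3
    (BlkD.inB (BlkD.upd (fun _ => 0) 0 8)
      (fun _ => 18)) :=
  BlkD.part_sound (d := d18_18_7_3) dk18_18_7_3 hn (by decide) (tr := t18_18_7_3_6)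
    (by decide +kernel) rfl rfl rfl rfl

lemma pr18_18_7_3 {n : ℕ} (hn : 5 ≤ n) : NoPr ((18 : ℕ) : ℤ) ((18 : ℕ) : ℤ) n 7 3 :=
  BlkD.of_root (q := 3) (by decide) hn (BlkD.sp 0 7 (BlkD.sp 2 3 (BlkD.sp 0 3 (n18_18_7_3_1 hn)
    (BlkD.sp 0 5 (BlkD.sp 0 4 (n18_18_7_3_2 hn)
    (n18_18_7_3_3 hn))
    (n18_18_7_3_4 hn)))
    (n18_18_7_3_5 hn))
    (n18_18_7_3_6 hn))

/-- the numbers of the pair `(7, 4)`, `R = 18`, `H = 18` -/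
def d18_18_7_4 : BlkD.Pd :=
  ⟨18, 18, 3, 7, 4, 4, 1, 3, 2, 2, 6, 0, 2, 2, 6, 0, [0, 6, 12, 14, 16], [0, 6, 12, 14, 16], [⟨1,
    1, 1, 4, 8, [0, 4], [0, 4]⟩, ⟨1, 1, 1, 4, 12, [0, 6], [0, 6]⟩]⟩

lemma dk18_18_7_4 : BlkD.pairOk d18_18_7_4 = true := by decide +kernel

/-- the certificates of the part 1 of the pair `(7, 4)` -/
def t18_18_7_4_1 : BlkD.Tr :=
  .L 6 8 [4, 3, 18, 18, 18] [] [] 100000 0 0 1300000 62500 3125 75000 34375 0 0 0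

lemma n18_18_7_4_1 {n : ℕ} (hn : 5 ≤ n) : NoNd ((18 : ℕ) : ℤ) ((18 : ℕ) : ℤ) n 7 4
    (BlkD.inB (fun _ => 0)
      (BlkD.upd (BlkD.upd (BlkD.upd (fun _ => 18) 0 7) 2 4) 0 3)) :=
  BlkD.part_sound (d := d18_18_7_4) dk18_18_7_4 hn (by decide) (tr := t18_18_7_4_1)
    (by decide +kernel) rfl rfl rfl rfl

/-- the certificates of the part 2 of the pair `(7, 4)` -/
def t18_18_7_4_2 : BlkD.Tr :=
  .L 5 6 [4, 3, 18, 18, 18] [] [] 100000 0 0 1382354 35294 5882 70588 44118 0 0 0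

lemma n18_18_7_4_2 {n : ℕ} (hn : 5 ≤ n) : NoNd ((18 : ℕ) : ℤ) ((18 : ℕ) : ℤ) n 7 4
    (BlkD.inB (BlkD.upd (fun _ => 0) 0 4)
      (BlkD.upd (BlkD.upd (BlkD.upd (fun _ => 18) 0 7) 2 4) 0 5)) :=
  BlkD.part_sound (d := d18_18_7_4) dk18_18_7_4 hn (by decide) (tr := t18_18_7_4_2)
    (by decide +kernel) rfl rfl rfl rfl

/-- the certificates of the part 3 of the pair `(7, 4)` -/
def t18_18_7_4_3 : BlkD.Tr :=
  .L 5 6 [4, 3, 18, 18, 18] [] [] 100000 2 2 1363636 18182 18182 100000 81818 0 0 0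

lemma n18_18_7_4_3 {n : ℕ} (hn : 5 ≤ n) : NoNd ((18 : ℕ) : ℤ) ((18 : ℕ) : ℤ) n 7 4
    (BlkD.inB (BlkD.upd (BlkD.upd (fun _ => 0) 0 4) 0 6)
      (BlkD.upd (BlkD.upd (fun _ => 18) 0 7) 2 4)) :=
  BlkD.part_sound (d := d18_18_7_4) dk18_18_7_4 hn (by decide) (tr := t18_18_7_4_3)
    (by decide +kernel) rfl rfl rfl rfl

/-- the certificates of the part 4 of the pair `(7, 4)` -/
def t18_18_7_4_4 : BlkD.Tr :=
  .E 1

lemma n18_18_7_4_4 {n : ℕ} (hn : 5 ≤ n) : NoNd ((18 : ℕ) : ℤ) ((18 : ℕ) : ℤ) n 7 4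
    (BlkD.inB (BlkD.upd (fun _ => 0) 2 5)
      (BlkD.upd (fun _ => 18) 0 7)) :=
  BlkD.part_sound (d := d18_18_7_4) dk18_18_7_4 hn (by decide) (tr := t18_18_7_4_4)
    (by decide +kernel) rfl rfl rfl rfl

/-- the certificates of the part 5 of the pair `(7, 4)` -/
def t18_18_7_4_5 : BlkD.Tr :=
  .E 0

lemma n18_18_7_4_5 {n : ℕ} (hn : 5 ≤ n) : NoNd ((18 : ℕ) : ℤ) ((18 : ℕ) : ℤ) n 7 4
    (BlkD.inB (BlkD.upd (fun _ => 0) 0 8)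
      (fun _ => 18)) :=
  BlkD.part_sound (d := d18_18_7_4) dk18_18_7_4 hn (by decide) (tr := t18_18_7_4_5)
    (by decide +kernel) rfl rfl rfl rfl

lemma pr18_18_7_4 {n : ℕ} (hn : 5 ≤ n) : NoPr ((18 : ℕ) : ℤ) ((18 : ℕ) : ℤ) n 7 4 :=
  BlkD.of_root (q := 3) (by decide) hn (BlkD.sp 0 7 (BlkD.sp 2 4 (BlkD.sp 0 3 (n18_18_7_4_1 hn)
    (BlkD.sp 0 5 (n18_18_7_4_2 hn)
    (n18_18_7_4_3 hn)))
    (n18_18_7_4_4 hn))
    (n18_18_7_4_5 hn))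

end BlkC

end Pool.Agent.Lib.MP_f04ccf_co
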