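import Pool.Agent.Lib.MP_f04ccf_co.M.BlkTp

/-!
MP_f04ccf_co, block certificate, data `R = 18`, `H = 18`, part 3 (certificates: helper99, bd9.cpp).
-/

set_option autoImplicit false
set_option maxRecDepth 100000

namespace Pool.Agent.Lib.MP_f04ccf_co

namespace BlkC

/-- the numbers of the pair `(7, 5)`, `R = 18`, `H = 18` -/
def d18_18_7_5 : BlkD.Pd :=
  ⟨18, 18, 3, 7, 5, 3, 0, 3, 0, 4, 4, 0, 0, 4, 4, 0, [0, 4, 8, 12], [0, 4, 8, 12], [⟨1, 1, 1, 4, 8,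
    [0, 4], [0, 4]⟩]⟩

lemma dk18_18_7_5 : BlkD.pairOk d18_18_7_5 = true := by decide +kernel

/-- the certificates of the part 1 of the pair `(7, 5)` -/
def t18_18_7_5_1 : BlkD.Tr :=
  .L 3 3 [4, 18, 18, 18, 18, 18] [] [] 100000 0 0 1400000 50000 50000 100000 50000 0 0 0

lemma n18_18_7_5_1 {n : ℕ} (hn : 5 ≤ n) : NoNd ((18 : ℕ) : ℤ) ((18 : ℕ) : ℤ) n 7 5
    (BlkD.inB (fun _ => 0)
      (BlkD.upd (BlkD.upd (BlkD.upd (BlkD.upd (fun _ => 18) 0 7) 2 5) 0 3) 0 1)) :=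
  BlkD.part_sound (d := d18_18_7_5) dk18_18_7_5 hn (by decide) (tr := t18_18_7_5_1)
    (by decide +kernel) rfl rfl rfl rfl

/-- the certificates of the part 2 of the pair `(7, 5)` -/
def t18_18_7_5_2 : BlkD.Tr :=
  .L 3 3 [4, 18, 18, 18, 18, 18] [] [] 100000 0 0 1400000 50000 50000 100000 50000 0 0 0

lemma n18_18_7_5_2 {n : ℕ} (hn : 5 ≤ n) : NoNd ((18 : ℕ) : ℤ) ((18 : ℕ) : ℤ) n 7 5
    (BlkD.inB (BlkD.upd (fun _ => 0) 0 2)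
      (BlkD.upd (BlkD.upd (BlkD.upd (fun _ => 18) 0 7) 2 5) 0 3)) :=
  BlkD.part_sound (d := d18_18_7_5) dk18_18_7_5 hn (by decide) (tr := t18_18_7_5_2)
    (by decide +kernel) rfl rfl rfl rfl

/-- the certificates of the part 3 of the pair `(7, 5)` -/
def t18_18_7_5_3 : BlkD.Tr :=
  .L 3 3 [4, 18, 18, 18, 18, 18] [] [] 100000 0 0 1400000 50000 50000 100000 50000 0 0 0

lemma n18_18_7_5_3 {n : ℕ} (hn : 5 ≤ n) : NoNd ((18 : ℕ) : ℤ) ((18 : ℕ) : ℤ) n 7 5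
    (BlkD.inB (BlkD.upd (fun _ => 0) 0 4)
      (BlkD.upd (BlkD.upd (BlkD.upd (fun _ => 18) 0 7) 2 5) 0 5)) :=
  BlkD.part_sound (d := d18_18_7_5) dk18_18_7_5 hn (by decide) (tr := t18_18_7_5_3)
    (by decide +kernel) rfl rfl rfl rfl

/-- the certificates of the part 4 of the pair `(7, 5)` -/
def t18_18_7_5_4 : BlkD.Tr :=
  .L 3 3 [4, 18, 18, 18, 18, 18] [] [] 100000 0 0 1400000 50000 50000 100000 50000 0 0 0

lemma n18_18_7_5_4 {n : ℕ} (hn : 5 ≤ n) : NoNd ((18 : ℕ) : ℤ) ((18 : ℕ) : ℤ) n 7 5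
    (BlkD.inB (BlkD.upd (BlkD.upd (fun _ => 0) 0 4) 0 6)
      (BlkD.upd (BlkD.upd (fun _ => 18) 0 7) 2 5)) :=
  BlkD.part_sound (d := d18_18_7_5) dk18_18_7_5 hn (by decide) (tr := t18_18_7_5_4)
    (by decide +kernel) rfl rfl rfl rfl

/-- the certificates of the part 5 of the pair `(7, 5)` -/
def t18_18_7_5_5 : BlkD.Tr :=
  .E 1

lemma n18_18_7_5_5 {n : ℕ} (hn : 5 ≤ n) : NoNd ((18 : ℕ) : ℤ) ((18 : ℕ) : ℤ) n 7 5
    (BlkD.inB (BlkD.upd (fun _ => 0) 2 6)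
      (BlkD.upd (fun _ => 18) 0 7)) :=
  BlkD.part_sound (d := d18_18_7_5) dk18_18_7_5 hn (by decide) (tr := t18_18_7_5_5)
    (by decide +kernel) rfl rfl rfl rfl

/-- the certificates of the part 6 of the pair `(7, 5)` -/
def t18_18_7_5_6 : BlkD.Tr :=
  .E 0

lemma n18_18_7_5_6 {n : ℕ} (hn : 5 ≤ n) : NoNd ((18 : ℕ) : ℤ) ((18 : ℕ) : ℤ) n 7 5
    (BlkD.inB (BlkD.upd (fun _ => 0) 0 8)
      (fun _ => 18)) :=
  BlkD.part_sound (d := d18_18_7_5) dk18_18_7_5 hn (by decide) (tr := t18_18_7_5_6)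
    (by decide +kernel) rfl rfl rfl rfl

lemma pr18_18_7_5 {n : ℕ} (hn : 5 ≤ n) : NoPr ((18 : ℕ) : ℤ) ((18 : ℕ) : ℤ) n 7 5 :=
  BlkD.of_root (q := 3) (by decide) hn (BlkD.sp 0 7 (BlkD.sp 2 5 (BlkD.sp 0 3 (BlkD.sp 0 1 (n18_18_7_5_1 hn)
    (n18_18_7_5_2 hn))
    (BlkD.sp 0 5 (n18_18_7_5_3 hn)
    (n18_18_7_5_4 hn)))
    (n18_18_7_5_5 hn))
    (n18_18_7_5_6 hn))

/-- the numbers of the pair `(8, 0)`, `R = 18`, `H = 18` -/
def d18_18_8_0 : BlkD.Pd :=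
  ⟨18, 18, 3, 8, 0, 7, 0, 1, 0, 4, 4, 0, 0, 4, 4, 0, [0, 4, 8, 12, 16, 20, 24, 28], [0, 4, 8, 12,
    16, 20, 24, 28], [⟨1, 1, 1, 4, 8, [0, 4], [0, 4]⟩]⟩

lemma dk18_18_8_0 : BlkD.pairOk d18_18_8_0 = true := by decide +kernel

/-- the certificates of the part 1 of the pair `(8, 0)` -/
def t18_18_8_0_1 : BlkD.Tr :=
  .S 0 8 (.S 2 0 (.L 3 3 [4] [] [] 100000 0 0 973333 60000 0 66667 0 0 0 0) (.E 1)) (.E 0)

lemma n18_18_8_0_1 {n : ℕ} (hn : 5 ≤ n) : NoNd ((18 : ℕ) : ℤ) ((18 : ℕ) : ℤ) n 8 0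
    (BlkD.inB (fun _ => 0)
      (fun _ => 18)) :=
  BlkD.part_sound (d := d18_18_8_0) dk18_18_8_0 hn (by decide) (tr := t18_18_8_0_1)
    (by decide +kernel) rfl rfl rfl rfl

lemma pr18_18_8_0 {n : ℕ} (hn : 5 ≤ n) : NoPr ((18 : ℕ) : ℤ) ((18 : ℕ) : ℤ) n 8 0 :=
  BlkD.of_root (q := 3) (by decide) hn (n18_18_8_0_1 hn)

/-- the numbers of the pair `(8, 1)`, `R = 18`, `H = 18` -/
def d18_18_8_1 : BlkD.Pd :=
  ⟨18, 18, 3, 8, 1, 6, 1, 1, 0, 4, 8, 0, 0, 4, 4, 0, [0, 8, 16, 24, 24, 24, 24], [0, 4, 8, 12, 16,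
    20, 24], [⟨1, 1, 1, 4, 8, [0, 4], [0, 4]⟩, ⟨1, 1, 1, 4, 12, [0, 8], [0, 4]⟩]⟩

lemma dk18_18_8_1 : BlkD.pairOk d18_18_8_1 = true := by decide +kernel

/-- the certificates of the part 1 of the pair `(8, 1)` -/
def t18_18_8_1_1 : BlkD.Tr :=
  .S 0 8 (.S 2 1 (.S 0 4 (.S 0 2 (.L 3 5 [4, 4] [] [] 100000 50000 0 500000 100000 0 100000 0 0 0
    0) (.S 0 3 (.S 1 15 (.S 1 7 (.L 3 5 [4, 4] [] [] 100000 71428 0 671430 85714 0 85714 0 0 0 0)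
    (.S 1 11 (.L 3 5 [4, 4] [] [] 100000 33334 0 899997 66667 0 66667 0 0 0 0) (.S 1 13 (.L 3 5 [4,
    4] [] [] 100000 25000 0 1000000 50000 0 100000 0 0 0 0) (.S 1 14 (.L 3 5 [4, 4] [298, 298, 298,
    298, 298, 298] [] 100000 131818 1 5 154545 0 154545 0 0 0 0) (.L 3 5 [4, 4] [332, 332, 332,
    332, 332, 332] [] 100000 125000 0 0 150000 0 150000 0 0 0 0))))) (.E 0)) (.S 1 14 (.S 1 7 (.L 3
    5 [4, 4] [] [] 100000 25000 0 950000 50000 0 50000 0 0 0 0) (.S 1 11 (.S 1 9 (.L 3 5 [4, 4] []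
    [] 100000 0 0 1140000 40000 0 40000 0 0 0 0) (.S 1 10 (.L 3 5 [4, 4] [202, 202, 202, 202, 202,
    202] [] 100000 0 0 1100000 50000 0 50000 0 0 0 0) (.L 3 5 [4, 4] [230, 230, 230, 230, 230, 230]
    [] 100000 100000 0 500000 100000 0 200000 0 0 0 0))) (.S 1 13 (.S 1 12 (.L 3 5 [4, 4] [260,
    260, 260, 260, 260, 260] [] 100000 166667 0 0 177778 0 177778 0 0 0 0) (.L 3 5 [4, 4] [292,
    292, 292, 292, 292, 292] [] 100000 131818 1 5 154545 0 154545 0 0 0 0)) (.L 3 5 [4, 4] [326,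
    326, 326, 326, 326, 326] [] 100000 125000 0 0 150000 0 150000 0 0 0 0)))) (.E 0)))) (.S 0 6 (.S
    0 5 (.S 1 13 (.S 1 6 (.L 3 5 [4, 4] [] [] 100000 0 0 1100002 33333 0 33333 0 0 0 0) (.S 1 10
    (.S 1 8 (.S 1 7 (.L 3 5 [4, 4] [144, 144, 144, 144, 136, 128] [] 100000 0 0 1120000 40000 0
    40000 0 0 0 0) (.L 3 5 [4, 4] [168, 168, 168, 168, 168, 160] [] 100000 0 0 1100000 50000 0
    50000 0 0 0 0)) (.L 3 5 [4, 4] [] [] 100000 0 0 1180000 20000 0 100000 0 0 0 0)) (.S 1 12 (.S 1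
    11 (.L 3 5 [4, 4] [252, 252, 252, 252, 252, 252] [] 100000 166667 0 0 177778 0 177778 0 0 0 0)
    (.E 0)) (.E 0)))) (.E 0)) (.S 1 12 (.S 1 6 (.S 1 3 (.L 3 5 [4, 4] [] [] 100000 0 0 950000 50000
    0 50000 0 0 0 0) (.S 1 5 (.L 3 5 [4, 4] [] [] 100000 0 0 1100000 40000 0 40000 0 0 0 0) (.L 3 5
    [4, 4] [134, 134, 134, 126, 118, 110] [] 100000 0 0 1100000 50000 0 50000 0 0 0 0))) (.L 3 5
    [4, 4] [] [] 100000 1 0 1133332 16667 0 100000 0 0 0 0)) (.E 0))) (.L 3 5 [4, 4] [] [] 100000 0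
    0 1162500 12500 0 100000 0 0 0 0))) (.E 1)) (.E 0)

lemma n18_18_8_1_1 {n : ℕ} (hn : 5 ≤ n) : NoNd ((18 : ℕ) : ℤ) ((18 : ℕ) : ℤ) n 8 1
    (BlkD.inB (fun _ => 0)
      (fun _ => 18)) :=
  BlkD.part_sound (d := d18_18_8_1) dk18_18_8_1 hn (by decide) (tr := t18_18_8_1_1)
    (by decide +kernel) rfl rfl rfl rfl

lemma pr18_18_8_1 {n : ℕ} (hn : 5 ≤ n) : NoPr ((18 : ℕ) : ℤ) ((18 : ℕ) : ℤ) n 8 1 :=
  BlkD.of_root (q := 3) (by decide) hn (n18_18_8_1_1 hn)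

/-- the numbers of the pair `(8, 2)`, `R = 18`, `H = 18` -/
def d18_18_8_2 : BlkD.Pd :=
  ⟨18, 18, 3, 8, 2, 5, 2, 2, 1, 4, 10, 0, 3, 1, 6, 0, [0, 10, 20, 23, 24, 25], [0, 6, 11, 14, 17,
    20], [⟨1, 1, 1, 4, 8, [0, 4], [0, 4]⟩, ⟨1, 1, 1, 4, 12, [0, 8], [0, 4]⟩, ⟨2, 1, 1, 4, 20, [0,
    10, 14], [0, 6]⟩]⟩

lemma dk18_18_8_2 : BlkD.pairOk d18_18_8_2 = true := by decide +kernel

/-- the certificates of the part 1 of the pair `(8, 2)` -/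
def t18_18_8_2_1 : BlkD.Tr :=
  .S 0 2 (.L 4 6 [4, 4, 4] [] [] 100000 150000 150000 700000 100000 0 100000 0 0 0 0) (.S 0 3 (.S 1
    15 (.S 1 7 (.L 4 6 [4, 4, 4] [] [] 100000 50002 50002 1069228 38462 0 38462 30769 0 0 0) (.S 1
    11 (.S 1 9 (.L 4 6 [4, 4, 4] [] [] 100000 64285 64285 1157145 42857 0 42857 28571 0 0 0) (.S 1
    10 (.L 4 6 [4, 4, 4] [192, 191, 190, 189, 188, 187] [] 100000 100000 100000 975000 75000 0
    75000 50000 0 0 0) (.L 4 6 [4, 4, 4] [219, 218, 217, 216, 215, 214] [] 100000 100000 100000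
    1000000 75000 0 75000 0 0 0 0))) (.S 1 13 (.S 1 12 (.L 4 6 [4, 4, 4] [248, 247, 246, 245, 244,
    243] [] 100000 66668 66668 1066664 66667 0 66667 33333 0 0 0) (.L 4 6 [4, 4, 4] [279, 278, 277,
    276, 275, 274] [] 100000 433334 355556 0 177778 0 177778 100000 0 0 0)) (.L 4 6 [4, 4, 4] [] []
    100000 495000 425000 0 170000 0 170000 0 0 0 0)))) (.E 0)) (.S 1 14 (.S 1 7 (.L 4 6 [4, 4, 4]
    [] [] 100000 33334 33334 1200003 33333 0 33333 33333 0 33333 0) (.S 1 11 (.S 1 9 (.S 1 8 (.L 4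
    6 [4, 4, 4] [160, 159, 158, 157, 154, 150] [] 100000 48101 48101 1172156 46835 0 60759 26582 0
    12658 17722) (.S 2 1 (.S 2 0 (.L 4 6 [4, 4, 4] [185, 184, 183, 182, 181, 178] [] 100000 68423
    68423 1126314 52632 0 57895 52632 0 0 26316) (.S 3 4 (.S 3 2 (.S 3 1 (.L 4 6 [4, 4, 4] [185,
    184, 183, 182, 181, 178] [] 100000 52083 52083 1179169 45833 0 68750 45833 0 4167 25000) (.L 5
    8 [4, 4, 3] [185, 184, 183, 182, 181, 178] [22, 16, 6, 0, 0, 0] 100000 14286 14286 1257144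
    42857 0 42857 0 0 42857 0)) (.E 1)) (.E 1))) (.L 4 6 [4, 4, 4] [185, 184, 183, 182, 181, 178]
    [] 100000 50000 50000 1150000 50000 0 50000 0 0 0 0))) (.S 1 10 (.L 4 6 [4, 4, 4] [212, 211,
    210, 209, 208, 207] [] 100000 88890 88890 1088888 66667 0 88889 22222 0 0 0) (.L 4 6 [4, 4, 4]
    [241, 240, 239, 238, 237, 236] [] 100000 100001 100001 1066665 66667 0 100000 33333 0 0 0)))
    (.S 1 13 (.S 1 12 (.L 4 6 [4, 4, 4] [272, 271, 270, 269, 268, 267] [] 100000 200000 166667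
    733335 100000 0 133333 33333 0 0 0) (.L 4 6 [4, 4, 4] [305, 304, 303, 302, 301, 300] [] 100000
    333335 200002 0 166667 0 233333 0 0 0 0)) (.L 4 6 [4, 4, 4] [340, 339, 338, 337, 336, 335] []
    100000 390908 327272 4 163636 0 163636 0 0 0 0)))) (.E 0)))

lemma n18_18_8_2_1 {n : ℕ} (hn : 5 ≤ n) : NoNd ((18 : ℕ) : ℤ) ((18 : ℕ) : ℤ) n 8 2
    (BlkD.inB (fun _ => 0)
      (BlkD.upd (BlkD.upd (BlkD.upd (fun _ => 18) 0 8) 2 2) 0 4)) :=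
  BlkD.part_sound (d := d18_18_8_2) dk18_18_8_2 hn (by decide) (tr := t18_18_8_2_1)
    (by decide +kernel) rfl rfl rfl rfl

/-- the certificates of the part 2 of the pair `(8, 2)` -/
def t18_18_8_2_2 : BlkD.Tr :=
  .S 1 13 (.S 1 6 (.S 1 3 (.L 4 6 [4, 4, 4] [] [] 100000 50000 50000 1000000 50000 0 50000 25000 0
    0 0) (.S 1 5 (.L 4 6 [4, 4, 4] [] [] 100000 7144 7144 1242857 14286 0 14286 42857 0 47619
    38095) (.L 4 6 [4, 4, 4] [128, 127, 124, 120, 110, 100] [] 100000 50000 50000 1185716 42857 0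
    50000 28571 0 14286 14286))) (.S 1 10 (.S 1 8 (.S 1 7 (.S 2 1 (.S 2 0 (.S 3 6 (.S 3 3 (.S 3 1
    (.L 4 6 [4, 4, 4] [151, 150, 149, 146, 142, 132] [] 100000 33334 33334 1166668 33333 0 66667
    33333 0 0 33333) (.S 3 2 (.L 4 6 [4, 4, 4] [151, 150, 149, 146, 142, 132] [18, 12, 2, 0, 0, 0]
    100000 57143 57143 1142858 42857 0 85714 42857 0 0 0) (.L 5 8 [4, 4, 3] [151, 150, 149, 146,
    142, 132] [27, 22, 16, 6, 0, 0] 100000 18184 18184 1245454 36364 0 54545 36364 0 13636 4545)))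
    (.L 5 8 [4, 4, 3] [151, 150, 149, 146, 142, 132] [] 100000 11111 11111 1244446 22222 0 22222
    100000 0 0 0)) (.E 1)) (.S 3 5 (.S 3 2 (.S 3 1 (.L 5 8 [4, 4, 3] [151, 150, 149, 146, 142, 132]
    [] 100000 22223 22223 1251852 37037 0 74074 0 0 31481 24074) (.L 5 8 [4, 4, 3] [151, 150, 149,
    146, 142, 132] [22, 16, 6, 0, 0, 0] 100000 22222 22222 1233336 44444 0 44444 0 0 33333 0)) (.E
    1)) (.E 1))) (.L 5 8 [4, 4, 3] [151, 150, 149, 146, 142, 132] [] 100000 20000 20000 1240000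
    40000 0 60000 0 0 40000 20000)) (.S 2 1 (.S 2 0 (.S 3 5 (.S 3 2 (.L 5 8 [4, 4, 3] [176, 175,
    174, 173, 170, 166] [] 100000 27587 27587 1234483 37931 0 62931 37931 0 12069 32759) (.S 3 4
    (.S 3 3 (.S 4 8 (.S 4 4 (.L 5 8 [4, 4, 3] [170, 166, 156, 146, 136, 0] [27, 22, 16, 6, 0, 0]
    100000 50000 50000 1150000 50000 0 100000 50000 0 0 0) (.L 5 8 [4, 4, 3] [176, 175, 174, 173,
    170, 166] [27, 22, 16, 6, 0, 0] 100000 220001 1 0 106667 0 320000 0 0 0 0)) (.E 2)) (.L 5 8 [4,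
    4, 3] [176, 175, 174, 173, 170, 166] [37, 33, 28, 22, 12, 0] 100000 42857 42857 1200003 28571 0
    100000 100000 0 0 0)) (.E 1))) (.E 1)) (.S 3 4 (.S 3 2 (.S 3 1 (.L 5 8 [4, 4, 3] [176, 175,
    174, 173, 170, 166] [] 100000 26882 26882 1238713 41935 0 93548 9677 0 29032 17204) (.S 4 8 (.S
    4 4 (.L 5 8 [4, 4, 3] [170, 166, 156, 146, 136, 0] [22, 16, 6, 0, 0, 0] 100000 40000 40000
    1180000 60000 0 60000 0 0 60000 0) (.L 5 8 [4, 4, 3] [176, 175, 174, 173, 170, 166] [22, 16, 6,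
    0, 0, 0] 100000 220000 0 0 0 0 320000 0 0 0 0)) (.E 2))) (.E 1)) (.E 1))) (.L 5 8 [4, 4, 3]
    [176, 175, 174, 173, 170, 166] [] 100000 22223 22223 1244446 44444 0 77778 0 0 33333 0))) (.S 1
    9 (.L 4 6 [4, 4, 4] [203, 202, 201, 200, 199, 196] [] 100000 50000 50000 1150000 50000 0 100000
    50000 0 0 0) (.L 4 6 [4, 4, 4] [232, 231, 230, 229, 228, 227] [] 100000 133334 66667 766666
    100000 0 166667 0 0 0 0))) (.S 1 12 (.S 1 11 (.L 4 6 [4, 4, 4] [263, 262, 261, 260, 259, 258]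
    [] 100000 311764 152940 0 205882 0 258824 0 0 0 0) (.L 4 6 [4, 4, 4] [296, 295, 294, 293, 292,
    291] [] 100000 300000 200000 0 200000 0 200000 0 0 0 0)) (.L 4 6 [4, 4, 4] [331, 330, 329, 328,
    327, 326] [] 100000 260000 180000 0 180000 0 180000 0 0 0 0)))) (.E 0)

lemma n18_18_8_2_2 {n : ℕ} (hn : 5 ≤ n) : NoNd ((18 : ℕ) : ℤ) ((18 : ℕ) : ℤ) n 8 2
    (BlkD.inB (BlkD.upd (fun _ => 0) 0 5)
      (BlkD.upd (BlkD.upd (BlkD.upd (BlkD.upd (fun _ => 18) 0 8) 2 2) 0 6) 0 5)) :=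
  BlkD.part_sound (d := d18_18_8_2) dk18_18_8_2 hn (by decide) (tr := t18_18_8_2_2)
    (by decide +kernel) rfl rfl rfl rfl

/-- the certificates of the part 3 of the pair `(8, 2)` -/
def t18_18_8_2_3 : BlkD.Tr :=
  .S 1 12 (.S 1 6 (.S 1 3 (.L 4 6 [4, 4, 4] [] [] 100000 37500 37500 1100000 50000 0 50000 25000 0
    0 25000) (.S 1 5 (.S 1 4 (.L 4 6 [4, 4, 4] [94, 90, 80, 70, 60, 0] [] 100000 10000 10000
    1240000 20000 0 20000 40000 0 40000 40000) (.S 2 1 (.S 2 0 (.L 4 6 [4, 4, 4] [117, 114, 110,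
    100, 90, 80] [] 100000 38889 38889 1200001 33333 0 33333 66667 0 0 22222) (.L 4 6 [4, 4, 4]
    [117, 114, 110, 100, 90, 80] [] 100000 17858 17858 1246429 32143 0 57143 25000 0 39286 25000))
    (.L 4 6 [4, 4, 4] [117, 114, 110, 100, 90, 80] [] 100000 16667 16667 1233335 33333 0 33333 0 0
    33333 33333))) (.S 2 1 (.S 2 0 (.S 3 6 (.S 3 3 (.S 3 1 (.L 4 6 [4, 4, 4] [140, 139, 136, 132,
    122, 112] [] 100000 33334 33334 1180000 40000 0 70000 10000 0 0 33333) (.S 3 2 (.L 4 6 [4, 4,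
    4] [140, 139, 136, 132, 122, 112] [18, 12, 2, 0, 0, 0] 100000 27587 27587 1210345 37931 0 65517
    37931 0 17241 27586) (.L 5 8 [4, 4, 3] [140, 139, 136, 132, 122, 112] [27, 22, 16, 6, 0, 0]
    100000 18184 18184 1245453 36364 0 72727 36364 0 18182 18182))) (.L 5 8 [4, 4, 3] [140, 139,
    136, 132, 122, 112] [] 100000 53846 53846 1146155 30769 0 100000 100000 0 0 15385)) (.E 1)) (.S
    3 5 (.S 3 2 (.S 3 1 (.L 5 8 [4, 4, 3] [140, 139, 136, 132, 122, 112] [] 100000 24075 24075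
    1237036 40741 0 85185 0 0 31481 20370) (.S 4 6 (.S 4 3 (.L 5 8 [4, 4, 3] [132, 122, 112, 102,
    0, 0] [22, 16, 6, 0, 0, 0] 100000 25000 25000 1225000 50000 0 75000 0 0 50000 0) (.L 5 8 [4, 4,
    3] [140, 139, 136, 132, 122, 112] [22, 16, 6, 0, 0, 0] 100000 200000 0 200000 100000 0 300000 0
    0 0 0)) (.E 2))) (.E 1)) (.E 1))) (.L 5 8 [4, 4, 3] [140, 139, 136, 132, 122, 112] [] 100000
    18183 18183 1236363 36364 0 90909 0 0 45455 18182)))) (.S 1 9 (.S 1 8 (.S 1 7 (.L 5 8 [4, 4, 3]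
    [165, 164, 163, 160, 156, 146] [] 100000 40001 40001 1213332 46667 0 100000 26667 0 13333
    13333) (.L 5 8 [4, 4, 3] [192, 191, 190, 189, 186, 182] [] 100000 50000 50000 1150000 50000 0
    100000 50000 0 0 0)) (.L 5 8 [4, 4, 3] [221, 220, 219, 218, 217, 214] [] 100000 100000 0 700000
    100000 0 200000 0 0 0 0)) (.E 0))) (.E 0)

lemma n18_18_8_2_3 {n : ℕ} (hn : 5 ≤ n) : NoNd ((18 : ℕ) : ℤ) ((18 : ℕ) : ℤ) n 8 2
    (BlkD.inB (BlkD.upd (BlkD.upd (fun _ => 0) 0 5) 0 6)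
      (BlkD.upd (BlkD.upd (BlkD.upd (fun _ => 18) 0 8) 2 2) 0 6)) :=
  BlkD.part_sound (d := d18_18_8_2) dk18_18_8_2 hn (by decide) (tr := t18_18_8_2_3)
    (by decide +kernel) rfl rfl rfl rfl

/-- the certificates of the part 4 of the pair `(8, 2)` -/
def t18_18_8_2_4 : BlkD.Tr :=
  .S 0 7 (.S 1 11 (.S 1 5 (.S 1 2 (.L 5 8 [4, 4, 3] [] [] 100000 0 0 1200000 0 0 0 50000 0 50000
    50000) (.S 1 4 (.L 5 8 [4, 4, 3] [] [] 100000 18750 18750 1250000 25000 0 100000 37500 0 37500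
    25000) (.L 5 8 [4, 4, 3] [127, 124, 120, 110, 100, 90] [] 100000 25000 25000 1233335 33333 0
    100000 33333 0 33333 16667))) (.S 1 8 (.S 1 7 (.S 1 6 (.L 5 8 [4, 4, 3] [152, 151, 148, 144,
    134, 124] [] 100000 33334 33334 1162501 45833 0 100000 50000 0 8333 25000) (.E 0)) (.E 0)) (.E
    0))) (.E 0)) (.L 5 8 [4, 4, 3] [] [] 100000 0 0 1200001 2454 0 98773 32515 2454 65644 30675)

lemma n18_18_8_2_4 {n : ℕ} (hn : 5 ≤ n) : NoNd ((18 : ℕ) : ℤ) ((18 : ℕ) : ℤ) n 8 2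
    (BlkD.inB (BlkD.upd (BlkD.upd (fun _ => 0) 0 5) 0 7)
      (BlkD.upd (BlkD.upd (fun _ => 18) 0 8) 2 2)) :=
  BlkD.part_sound (d := d18_18_8_2) dk18_18_8_2 hn (by decide) (tr := t18_18_8_2_4)
    (by decide +kernel) rfl rfl rfl rfl

/-- the certificates of the part 5 of the pair `(8, 2)` -/
def t18_18_8_2_5 : BlkD.Tr :=
  .E 1

lemma n18_18_8_2_5 {n : ℕ} (hn : 5 ≤ n) : NoNd ((18 : ℕ) : ℤ) ((18 : ℕ) : ℤ) n 8 2
    (BlkD.inB (BlkD.upd (fun _ => 0) 2 3)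
      (BlkD.upd (fun _ => 18) 0 8)) :=
  BlkD.part_sound (d := d18_18_8_2) dk18_18_8_2 hn (by decide) (tr := t18_18_8_2_5)
    (by decide +kernel) rfl rfl rfl rfl

/-- the certificates of the part 6 of the pair `(8, 2)` -/
def t18_18_8_2_6 : BlkD.Tr :=
  .E 0

lemma n18_18_8_2_6 {n : ℕ} (hn : 5 ≤ n) : NoNd ((18 : ℕ) : ℤ) ((18 : ℕ) : ℤ) n 8 2
    (BlkD.inB (BlkD.upd (fun _ => 0) 0 9)
      (fun _ => 18)) :=
  BlkD.part_sound (d := d18_18_8_2) dk18_18_8_2 hn (by decide) (tr := t18_18_8_2_6)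
    (by decide +kernel) rfl rfl rfl rfl

lemma pr18_18_8_2 {n : ℕ} (hn : 5 ≤ n) : NoPr ((18 : ℕ) : ℤ) ((18 : ℕ) : ℤ) n 8 2 :=
  BlkD.of_root (q := 3) (by decide) hn (BlkD.sp 0 8 (BlkD.sp 2 2 (BlkD.sp 0 4 (n18_18_8_2_1 hn)
    (BlkD.sp 0 6 (BlkD.sp 0 5 (n18_18_8_2_2 hn)
    (n18_18_8_2_3 hn))
    (n18_18_8_2_4 hn)))
    (n18_18_8_2_5 hn))
    (n18_18_8_2_6 hn))

/-- the numbers of the pair `(8, 3)`, `R = 18`, `H = 18` -/
def d18_18_8_3 : BlkD.Pd :=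
  ⟨18, 18, 3, 8, 3, 4, 1, 2, 0, 4, 8, 0, 2, 2, 6, 0, [0, 8, 16, 16, 16], [0, 6, 12, 14, 16], [⟨1,
    1, 1, 4, 8, [0, 4], [0, 4]⟩, ⟨1, 1, 1, 4, 14, [0, 8], [0, 6]⟩]⟩

lemma dk18_18_8_3 : BlkD.pairOk d18_18_8_3 = true := by decide +kernel

/-- the certificates of the part 1 of the pair `(8, 3)` -/
def t18_18_8_3_1 : BlkD.Tr :=
  .L 5 8 [4, 3, 18, 18] [] [] 100000 66668 66668 1233333 66667 0 100000 50000 0 0 0

lemma n18_18_8_3_1 {n : ℕ} (hn : 5 ≤ n) : NoNd ((18 : ℕ) : ℤ) ((18 : ℕ) : ℤ) n 8 3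
    (BlkD.inB (fun _ => 0)
      (BlkD.upd (BlkD.upd (BlkD.upd (fun _ => 18) 0 8) 2 3) 0 4)) :=
  BlkD.part_sound (d := d18_18_8_3) dk18_18_8_3 hn (by decide) (tr := t18_18_8_3_1)
    (by decide +kernel) rfl rfl rfl rfl

/-- the certificates of the part 2 of the pair `(8, 3)` -/
def t18_18_8_3_2 : BlkD.Tr :=
  .S 1 13 (.S 1 6 (.L 5 8 [4, 3, 18, 18] [] [] 100000 50000 50000 1300000 50000 0 100000 50000 0 0
    0) (.S 1 10 (.S 1 8 (.S 1 7 (.S 2 1 (.L 5 8 [4, 3, 18, 18] [150, 150, 150, 150, 142, 134] []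
    100000 100002 100002 1288890 55556 22222 81481 48148 0 0 0) (.S 2 2 (.S 3 4 (.S 3 2 (.S 3 1 (.L
    5 8 [4, 3, 18, 18] [150, 150, 150, 150, 142, 134] [] 100000 0 0 1366668 33333 33333 66667 33333
    0 0 0) (.L 3 4 [4, 5, 18, 18] [150, 150, 150, 150, 142, 134] [32, 22, 10, 0, 0, 0] 100000
    166668 166668 1199999 66667 0 100000 33333 0 66667 0)) (.L 3 4 [4, 5, 18, 18] [150, 150, 150,
    150, 142, 134] [] 100000 300000 300000 1000000 100000 0 100000 0 0 100000 0)) (.E 1)) (.L 3 4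
    [4, 5, 18, 18] [150, 150, 150, 150, 142, 134] [] 100000 300000 300000 1000000 100000 0 100000 0
    0 100000 0))) (.L 4 5 [4, 4, 18, 18] [174, 174, 174, 174, 174, 166] [] 100000 116668 116668
    1233332 66667 0 100000 50000 0 0 0)) (.S 1 9 (.L 4 5 [4, 4, 18, 18] [200, 200, 200, 200, 200,
    200] [] 100000 200000 200000 1100000 100000 0 100000 0 0 0 0) (.L 4 5 [4, 4, 18, 18] [228, 228,
    228, 228, 228, 228] [] 100000 100000 0 900000 100000 0 200000 0 0 0 0))) (.L 5 6 [4, 3, 18, 18]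
    [] [] 100000 150000 0 700000 100000 0 250000 0 0 0 0))) (.E 0)

lemma n18_18_8_3_2 {n : ℕ} (hn : 5 ≤ n) : NoNd ((18 : ℕ) : ℤ) ((18 : ℕ) : ℤ) n 8 3
    (BlkD.inB (BlkD.upd (fun _ => 0) 0 5)
      (BlkD.upd (BlkD.upd (BlkD.upd (BlkD.upd (fun _ => 18) 0 8) 2 3) 0 6) 0 5)) :=
  BlkD.part_sound (d := d18_18_8_3) dk18_18_8_3 hn (by decide) (tr := t18_18_8_3_2)
    (by decide +kernel) rfl rfl rfl rfl

/-- the certificates of the part 3 of the pair `(8, 3)` -/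
def t18_18_8_3_3 : BlkD.Tr :=
  .S 1 12 (.S 1 6 (.S 1 3 (.L 5 6 [4, 3, 18, 18] [] [] 100000 0 0 1300001 33333 33333 33333 33333 0
    0 0) (.S 1 5 (.S 1 4 (.L 5 6 [4, 3, 18, 18] [98, 90, 82, 72, 60, 0] [] 100000 0 0 1300000 50000
    0 100000 50000 0 0 0) (.S 2 1 (.L 5 6 [4, 3, 18, 18] [118, 118, 110, 102, 92, 80] [] 100000 0 0
    1366669 33333 33333 66667 66667 0 0 0) (.S 2 2 (.S 3 5 (.S 3 2 (.L 5 6 [4, 3, 18, 18] [118,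
    118, 110, 102, 92, 80] [] 100000 0 0 1380000 40000 0 40000 40000 0 0 0) (.S 3 4 (.S 3 3 (.L 7 8
    [6, 2, 18, 18] [118, 118, 110, 102, 92, 80] [46, 40, 30, 18, 0, 0] 100000 0 0 1350000 50000 0
    50000 75000 0 0 0) (.E 1)) (.E 1))) (.E 1)) (.S 3 4 (.S 3 2 (.S 3 1 (.L 4 5 [4, 4, 18, 18]
    [118, 118, 110, 102, 92, 80] [] 100000 0 0 1350000 37500 0 50000 0 0 0 0) (.L 7 8 [6, 2, 18,
    18] [118, 118, 110, 102, 92, 80] [36, 26, 14, 0, 0, 0] 100000 0 0 1350000 50000 0 50000 0 0 0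
    0)) (.E 1)) (.E 1))))) (.L 7 8 [6, 2, 18, 18] [140, 140, 140, 132, 124, 114] [] 100000 0 0
    1350000 50000 25000 100000 50000 0 0 0))) (.L 7 8 [6, 2, 18, 18] [] [] 100000 0 0 1350001 50000
    0 100000 33333 0 0 0)) (.E 0)

lemma n18_18_8_3_3 {n : ℕ} (hn : 5 ≤ n) : NoNd ((18 : ℕ) : ℤ) ((18 : ℕ) : ℤ) n 8 3
    (BlkD.inB (BlkD.upd (BlkD.upd (fun _ => 0) 0 5) 0 6)
      (BlkD.upd (BlkD.upd (BlkD.upd (fun _ => 18) 0 8) 2 3) 0 6)) :=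
  BlkD.part_sound (d := d18_18_8_3) dk18_18_8_3 hn (by decide) (tr := t18_18_8_3_3)
    (by decide +kernel) rfl rfl rfl rfl

/-- the certificates of the part 4 of the pair `(8, 3)` -/
def t18_18_8_3_4 : BlkD.Tr :=
  .L 7 8 [6, 2, 18, 18] [] [] 100000 0 0 1350000 50000 25000 100000 50000 0 0 0

lemma n18_18_8_3_4 {n : ℕ} (hn : 5 ≤ n) : NoNd ((18 : ℕ) : ℤ) ((18 : ℕ) : ℤ) n 8 3
    (BlkD.inB (BlkD.upd (BlkD.upd (fun _ => 0) 0 5) 0 7)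
      (BlkD.upd (BlkD.upd (fun _ => 18) 0 8) 2 3)) :=
  BlkD.part_sound (d := d18_18_8_3) dk18_18_8_3 hn (by decide) (tr := t18_18_8_3_4)
    (by decide +kernel) rfl rfl rfl rfl

/-- the certificates of the part 5 of the pair `(8, 3)` -/
def t18_18_8_3_5 : BlkD.Tr :=
  .E 1

lemma n18_18_8_3_5 {n : ℕ} (hn : 5 ≤ n) : NoNd ((18 : ℕ) : ℤ) ((18 : ℕ) : ℤ) n 8 3
    (BlkD.inB (BlkD.upd (fun _ => 0) 2 4)
      (BlkD.upd (fun _ => 18) 0 8)) :=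
  BlkD.part_sound (d := d18_18_8_3) dk18_18_8_3 hn (by decide) (tr := t18_18_8_3_5)
    (by decide +kernel) rfl rfl rfl rfl

/-- the certificates of the part 6 of the pair `(8, 3)` -/
def t18_18_8_3_6 : BlkD.Tr :=
  .E 0

lemma n18_18_8_3_6 {n : ℕ} (hn : 5 ≤ n) : NoNd ((18 : ℕ) : ℤ) ((18 : ℕ) : ℤ) n 8 3
    (BlkD.inB (BlkD.upd (fun _ => 0) 0 9)
      (fun _ => 18)) :=
  BlkD.part_sound (d := d18_18_8_3) dk18_18_8_3 hn (by decide) (tr := t18_18_8_3_6)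
    (by decide +kernel) rfl rfl rfl rfl

lemma pr18_18_8_3 {n : ℕ} (hn : 5 ≤ n) : NoPr ((18 : ℕ) : ℤ) ((18 : ℕ) : ℤ) n 8 3 :=
  BlkD.of_root (q := 3) (by decide) hn (BlkD.sp 0 8 (BlkD.sp 2 3 (BlkD.sp 0 4 (n18_18_8_3_1 hn)
    (BlkD.sp 0 6 (BlkD.sp 0 5 (n18_18_8_3_2 hn)
    (n18_18_8_3_3 hn))
    (n18_18_8_3_4 hn)))
    (n18_18_8_3_5 hn))
    (n18_18_8_3_6 hn))

/-- the numbers of the pair `(8, 4)`, `R = 18`, `H = 18` -/
def d18_18_8_4 : BlkD.Pd :=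
  ⟨18, 18, 3, 8, 4, 3, 0, 3, 0, 4, 4, 0, 0, 4, 4, 0, [0, 4, 8, 12], [0, 4, 8, 12], [⟨1, 1, 1, 4, 8,
    [0, 4], [0, 4]⟩]⟩

lemma dk18_18_8_4 : BlkD.pairOk d18_18_8_4 = true := by decide +kernel

/-- the certificates of the part 1 of the pair `(8, 4)` -/
def t18_18_8_4_1 : BlkD.Tr :=
  .L 3 3 [4, 18, 18, 18, 18] [] [] 100000 0 0 1400000 75000 25000 100000 50000 0 0 0

lemma n18_18_8_4_1 {n : ℕ} (hn : 5 ≤ n) : NoNd ((18 : ℕ) : ℤ) ((18 : ℕ) : ℤ) n 8 4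
    (BlkD.inB (fun _ => 0)
      (BlkD.upd (BlkD.upd (BlkD.upd (BlkD.upd (fun _ => 18) 0 8) 2 4) 0 4) 0 2)) :=
  BlkD.part_sound (d := d18_18_8_4) dk18_18_8_4 hn (by decide) (tr := t18_18_8_4_1)
    (by decide +kernel) rfl rfl rfl rfl

/-- the certificates of the part 2 of the pair `(8, 4)` -/
def t18_18_8_4_2 : BlkD.Tr :=
  .L 3 3 [4, 18, 18, 18, 18] [] [] 100000 0 0 1400000 75000 25000 100000 50000 0 0 0

lemma n18_18_8_4_2 {n : ℕ} (hn : 5 ≤ n) : NoNd ((18 : ℕ) : ℤ) ((18 : ℕ) : ℤ) n 8 4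
    (BlkD.inB (BlkD.upd (fun _ => 0) 0 3)
      (BlkD.upd (BlkD.upd (BlkD.upd (fun _ => 18) 0 8) 2 4) 0 4)) :=
  BlkD.part_sound (d := d18_18_8_4) dk18_18_8_4 hn (by decide) (tr := t18_18_8_4_2)
    (by decide +kernel) rfl rfl rfl rfl

/-- the certificates of the part 3 of the pair `(8, 4)` -/
def t18_18_8_4_3 : BlkD.Tr :=
  .L 3 3 [4, 18, 18, 18, 18] [] [] 100000 0 0 1400000 75000 25000 100000 50000 0 0 0

lemma n18_18_8_4_3 {n : ℕ} (hn : 5 ≤ n) : NoNd ((18 : ℕ) : ℤ) ((18 : ℕ) : ℤ) n 8 4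
    (BlkD.inB (BlkD.upd (fun _ => 0) 0 5)
      (BlkD.upd (BlkD.upd (BlkD.upd (fun _ => 18) 0 8) 2 4) 0 6)) :=
  BlkD.part_sound (d := d18_18_8_4) dk18_18_8_4 hn (by decide) (tr := t18_18_8_4_3)
    (by decide +kernel) rfl rfl rfl rfl

/-- the certificates of the part 4 of the pair `(8, 4)` -/
def t18_18_8_4_4 : BlkD.Tr :=
  .L 3 3 [4, 18, 18, 18, 18] [] [] 100000 0 0 1400000 75000 25000 100000 50000 0 0 0

lemma n18_18_8_4_4 {n : ℕ} (hn : 5 ≤ n) : NoNd ((18 : ℕ) : ℤ) ((18 : ℕ) : ℤ) n 8 4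
    (BlkD.inB (BlkD.upd (BlkD.upd (fun _ => 0) 0 5) 0 7)
      (BlkD.upd (BlkD.upd (fun _ => 18) 0 8) 2 4)) :=
  BlkD.part_sound (d := d18_18_8_4) dk18_18_8_4 hn (by decide) (tr := t18_18_8_4_4)
    (by decide +kernel) rfl rfl rfl rfl

/-- the certificates of the part 5 of the pair `(8, 4)` -/
def t18_18_8_4_5 : BlkD.Tr :=
  .E 1

lemma n18_18_8_4_5 {n : ℕ} (hn : 5 ≤ n) : NoNd ((18 : ℕ) : ℤ) ((18 : ℕ) : ℤ) n 8 4
    (BlkD.inB (BlkD.upd (fun _ => 0) 2 5)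
      (BlkD.upd (fun _ => 18) 0 8)) :=
  BlkD.part_sound (d := d18_18_8_4) dk18_18_8_4 hn (by decide) (tr := t18_18_8_4_5)
    (by decide +kernel) rfl rfl rfl rfl

/-- the certificates of the part 6 of the pair `(8, 4)` -/
def t18_18_8_4_6 : BlkD.Tr :=
  .E 0

lemma n18_18_8_4_6 {n : ℕ} (hn : 5 ≤ n) : NoNd ((18 : ℕ) : ℤ) ((18 : ℕ) : ℤ) n 8 4
    (BlkD.inB (BlkD.upd (fun _ => 0) 0 9)
      (fun _ => 18)) :=
  BlkD.part_sound (d := d18_18_8_4) dk18_18_8_4 hn (by decide) (tr := t18_18_8_4_6)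
    (by decide +kernel) rfl rfl rfl rfl

lemma pr18_18_8_4 {n : ℕ} (hn : 5 ≤ n) : NoPr ((18 : ℕ) : ℤ) ((18 : ℕ) : ℤ) n 8 4 :=
  BlkD.of_root (q := 3) (by decide) hn (BlkD.sp 0 8 (BlkD.sp 2 4 (BlkD.sp 0 4 (BlkD.sp 0 2 (n18_18_8_4_1 hn)
    (n18_18_8_4_2 hn))
    (BlkD.sp 0 6 (n18_18_8_4_3 hn)
    (n18_18_8_4_4 hn)))
    (n18_18_8_4_5 hn))
    (n18_18_8_4_6 hn))

/-- the numbers of the pair `(9, 0)`, `R = 18`, `H = 18` -/
def d18_18_9_0 : BlkD.Pd :=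
  ⟨18, 18, 3, 9, 0, 6, 0, 1, 0, 4, 4, 0, 0, 4, 4, 0, [0, 4, 8, 12, 16, 20, 24], [0, 4, 8, 12, 16,
    20, 24], [⟨1, 1, 1, 4, 8, [0, 4], [0, 4]⟩]⟩

lemma dk18_18_9_0 : BlkD.pairOk d18_18_9_0 = true := by decide +kernel

/-- the certificates of the part 1 of the pair `(9, 0)` -/
def t18_18_9_0_1 : BlkD.Tr :=
  .S 0 9 (.S 2 0 (.L 3 3 [4] [] [] 100000 0 0 1000000 100000 0 100000 0 0 0 0) (.E 1)) (.E 0)

lemma n18_18_9_0_1 {n : ℕ} (hn : 5 ≤ n) : NoNd ((18 : ℕ) : ℤ) ((18 : ℕ) : ℤ) n 9 0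
    (BlkD.inB (fun _ => 0)
      (fun _ => 18)) :=
  BlkD.part_sound (d := d18_18_9_0) dk18_18_9_0 hn (by decide) (tr := t18_18_9_0_1)
    (by decide +kernel) rfl rfl rfl rfl

lemma pr18_18_9_0 {n : ℕ} (hn : 5 ≤ n) : NoPr ((18 : ℕ) : ℤ) ((18 : ℕ) : ℤ) n 9 0 :=
  BlkD.of_root (q := 3) (by decide) hn (n18_18_9_0_1 hn)

/-- the numbers of the pair `(9, 1)`, `R = 18`, `H = 18` -/
def d18_18_9_1 : BlkD.Pd :=
  ⟨18, 18, 3, 9, 1, 5, 1, 1, 0, 4, 8, 0, 0, 4, 4, 0, [0, 8, 16, 20, 20, 20], [0, 4, 8, 12, 16, 20],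
    [⟨1, 1, 1, 4, 8, [0, 4], [0, 4]⟩, ⟨1, 1, 1, 4, 12, [0, 8], [0, 4]⟩]⟩

lemma dk18_18_9_1 : BlkD.pairOk d18_18_9_1 = true := by decide +kernel

/-- the certificates of the part 1 of the pair `(9, 1)` -/
def t18_18_9_1_1 : BlkD.Tr :=
  .S 0 2 (.L 3 5 [4, 4] [] [] 100000 100000 100000 500000 100000 0 100000 0 0 0 0) (.S 0 3 (.L 3 5
    [4, 4] [] [] 100000 200000 200000 600000 100000 0 100000 0 0 0 0) (.S 1 14 (.S 1 7 (.L 3 5 [4,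
    4] [] [] 100000 50000 50000 950000 50000 0 50000 0 0 0 0) (.S 1 11 (.L 3 5 [4, 4] [] [] 100000
    50000 50000 1150000 50000 0 50000 0 0 0 0) (.S 1 13 (.S 1 12 (.L 3 5 [4, 4] [256, 256, 256,
    256, 256, 256] [] 100000 0 0 1200000 50000 0 50000 0 0 0 0) (.L 3 5 [4, 4] [288, 288, 288, 288,
    288, 288] [] 100000 466667 377778 0 188889 0 188889 0 0 0 0)) (.L 3 5 [4, 4] [322, 322, 322,
    322, 322, 322] [] 100000 440000 360000 0 180000 0 180000 0 0 0 0)))) (.E 0)))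

lemma n18_18_9_1_1 {n : ℕ} (hn : 5 ≤ n) : NoNd ((18 : ℕ) : ℤ) ((18 : ℕ) : ℤ) n 9 1
    (BlkD.inB (fun _ => 0)
      (BlkD.upd (BlkD.upd (BlkD.upd (fun _ => 18) 0 9) 2 1) 0 4)) :=
  BlkD.part_sound (d := d18_18_9_1) dk18_18_9_1 hn (by decide) (tr := t18_18_9_1_1)
    (by decide +kernel) rfl rfl rfl rfl

/-- the certificates of the part 2 of the pair `(9, 1)` -/
def t18_18_9_1_2 : BlkD.Tr :=
  .S 0 7 (.S 0 6 (.S 0 5 (.S 1 13 (.S 1 6 (.L 3 5 [4, 4] [] [] 100000 40000 40000 1060000 40000 0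
    40000 0 0 0 0) (.S 1 10 (.S 1 8 (.L 3 5 [4, 4] [] [] 100000 0 0 1233336 33333 0 33333 0 0 0 0)
    (.S 1 9 (.L 3 5 [4, 4] [190, 190, 190, 190, 190, 190] [] 100000 0 0 1240000 40000 0 40000 0 0 0
    0) (.S 2 0 (.S 3 3 (.S 3 1 (.L 3 5 [4, 4] [218, 218, 218, 218, 218, 218] [] 100000 0 0 1280000
    40000 0 40000 0 0 0 0) (.S 3 2 (.S 4 10 (.S 4 5 (.S 4 2 (.L 3 5 [4, 4] [206, 198, 190, 0, 0, 0]
    [14, 10, 2, 0, 0, 0] 100000 410000 340000 0 170000 0 170000 0 0 0 0) (.L 3 5 [4, 4] [218, 218,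
    214, 206, 198, 190] [14, 10, 2, 0, 0, 0] 100000 292307 130769 3 130769 0 261538 0 0 0 0)) (.E
    2)) (.E 2)) (.E 1))) (.E 1)) (.S 3 2 (.S 3 1 (.S 3 0 (.L 3 5 [4, 4] [218, 218, 218, 218, 218,
    218] [0, 0, 0, 0, 0, 0] 100000 0 0 1240000 40000 0 40000 0 0 0 0) (.S 4 10 (.S 4 5 (.S 4 2 (.L
    3 5 [4, 4] [206, 198, 190, 0, 0, 0] [10, 2, 0, 0, 0, 0] 100000 410000 340000 0 170000 0 170000
    0 0 0 0) (.L 3 5 [4, 4] [218, 218, 214, 206, 198, 190] [10, 2, 0, 0, 0, 0] 100000 292307 130769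
    3 130769 0 261538 0 0 0 0)) (.E 2)) (.E 2))) (.E 1)) (.E 1))))) (.S 1 12 (.S 1 11 (.L 3 5 [4,
    4] [248, 248, 248, 248, 248, 248] [] 100000 0 0 1250000 50000 0 50000 0 0 0 0) (.L 3 5 [4, 4]
    [280, 280, 280, 280, 280, 280] [] 100000 140000 140000 1000000 80000 0 100000 0 0 0 0)) (.L 3 5
    [4, 4] [314, 314, 314, 314, 314, 314] [] 100000 440000 360000 0 180000 0 180000 0 0 0 0)))) (.E
    0)) (.S 1 12 (.S 1 6 (.L 3 5 [4, 4] [] [] 100000 0 0 1200002 33333 0 33333 0 0 0 0) (.S 1 9 (.S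
    1 8 (.S 1 7 (.L 3 5 [4, 4] [154, 154, 154, 154, 150, 142] [] 100000 0 0 1220000 40000 0 40000 0
    0 0 0) (.L 3 5 [4, 4] [180, 180, 180, 180, 180, 176] [] 100000 0 0 1280000 40000 0 40000 0 0 0
    0)) (.L 3 5 [4, 4] [208, 208, 208, 208, 208, 208] [] 100000 0 0 1250000 50000 0 50000 0 0 0 0))
    (.S 1 11 (.S 1 10 (.S 2 0 (.S 3 2 (.S 3 1 (.S 3 0 (.L 3 5 [4, 4] [238, 238, 238, 238, 238, 238]
    [0, 0, 0, 0, 0, 0] 100000 0 0 1250000 50000 0 50000 0 0 0 0) (.S 4 10 (.S 4 5 (.S 4 2 (.L 3 5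
    [4, 4] [226, 218, 210, 0, 0, 0] [8, 0, 0, 0, 0, 0] 100000 0 0 1250000 50000 0 100000 0 0 0 0)
    (.L 3 5 [4, 4] [238, 238, 234, 226, 218, 210] [8, 0, 0, 0, 0, 0] 100000 0 0 1233336 33333 0
    100000 33333 0 0 0)) (.L 3 5 [4, 4] [238, 238, 238, 238, 238, 238] [8, 0, 0, 0, 0, 0] 100000
    168422 1 0 89474 0 268421 0 0 0 0)) (.E 2))) (.L 3 5 [4, 4] [238, 238, 238, 238, 238, 238] [14,
    10, 2, 0, 0, 0] 100000 440000 360000 0 180000 0 180000 0 0 0 0)) (.E 1)) (.L 3 5 [4, 4] [238,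
    238, 238, 238, 238, 238] [] 100000 466667 377778 0 188889 0 188889 0 0 0 0)) (.S 2 0 (.S 3 1
    (.S 3 0 (.S 4 11 (.S 4 5 (.S 4 2 (.L 3 5 [4, 4] [258, 250, 242, 0, 0, 0] [0, 0, 0, 0, 0, 0]
    100000 353334 226667 0 226667 0 170000 0 0 0 0) (.S 4 4 (.L 3 5 [4, 4] [270, 266, 258, 250,
    242, 0] [0, 0, 0, 0, 0, 0] 100000 240000 0 0 170000 0 340000 0 0 0 0) (.L 3 5 [4, 4] [270, 270,
    266, 258, 250, 242] [0, 0, 0, 0, 0, 0] 100000 218750 0 0 106250 0 318750 0 0 0 0))) (.L 3 5 [4,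
    4] [270, 270, 270, 270, 270, 270] [0, 0, 0, 0, 0, 0] 100000 183333 0 3 94444 0 283333 0 0 0 0))
    (.E 2)) (.S 4 11 (.S 4 5 (.S 4 2 (.L 3 5 [4, 4] [258, 250, 242, 0, 0, 0] [8, 0, 0, 0, 0, 0]
    100000 353334 226667 0 226667 0 106667 0 0 0 0) (.S 4 4 (.L 3 5 [4, 4] [270, 266, 258, 250,
    242, 0] [8, 0, 0, 0, 0, 0] 100000 200000 0 0 150000 0 300000 0 0 0 0) (.L 3 5 [4, 4] [270, 270,
    266, 258, 250, 242] [8, 0, 0, 0, 0, 0] 100000 200000 0 0 100000 0 300000 0 0 0 0))) (.L 3 5 [4,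
    4] [270, 270, 270, 270, 270, 270] [8, 0, 0, 0, 0, 0] 100000 170000 0 0 90000 0 270000 0 0 0 0))
    (.E 2))) (.L 3 5 [4, 4] [270, 270, 270, 270, 270, 270] [] 100000 0 100000 0 0 0 0 0 0 0 0)) (.L
    3 5 [4, 4] [270, 270, 270, 270, 270, 270] [] 100000 440000 360000 0 180000 0 180000 0 0 0 0)))
    (.L 3 5 [4, 4] [304, 304, 304, 304, 304, 304] [] 100000 275000 70000 0 170000 0 305000 0 0 0
    0)))) (.E 0))) (.S 1 11 (.S 1 5 (.L 3 5 [4, 4] [] [] 100000 0 0 1200000 40000 0 40000 0 0 0 0)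
    (.S 1 8 (.S 1 7 (.S 1 6 (.L 3 5 [4, 4] [142, 142, 142, 138, 130, 122] [] 100000 0 0 1260000
    40000 0 40000 0 0 0 0) (.L 3 5 [4, 4] [168, 168, 168, 168, 164, 156] [] 100000 0 0 1250000
    50000 0 50000 0 0 0 0)) (.S 2 0 (.L 3 5 [4, 4] [196, 196, 196, 196, 196, 192] [] 100000 0 0
    1266669 33333 0 100000 33333 0 0 0) (.S 3 2 (.S 3 1 (.S 3 0 (.L 3 5 [4, 4] [196, 196, 196, 196,
    196, 192] [0, 0, 0, 0, 0, 0] 100000 0 0 1250000 50000 0 50000 0 0 0 0) (.S 4 8 (.S 4 4 (.L 3 5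
    [4, 4] [196, 192, 184, 176, 168, 0] [10, 2, 0, 0, 0, 0] 100000 240000 0 0 170000 0 340000 0 0 0
    0) (.L 3 5 [4, 4] [196, 196, 196, 196, 196, 192] [10, 2, 0, 0, 0, 0] 100000 183333 0 3 94444 0
    283333 0 0 0 0)) (.E 2))) (.E 1)) (.E 1)))) (.S 1 10 (.S 1 9 (.L 3 5 [4, 4] [226, 226, 226,
    226, 226, 226] [] 100000 0 0 1200000 50000 0 100000 0 0 0 0) (.L 3 5 [4, 4] [258, 258, 258,
    258, 258, 258] [] 100000 240000 0 0 170000 0 340000 0 0 0 0)) (.L 3 5 [4, 4] [292, 292, 292,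
    292, 292, 292] [] 100000 300000 200000 0 200000 0 200000 0 0 0 0)))) (.E 0))) (.S 0 8 (.S 1 10
    (.S 1 5 (.S 1 2 (.L 3 5 [4, 4] [] [] 100000 0 0 1100000 50000 0 50000 0 0 0 0) (.S 1 4 (.L 3 5
    [4, 4] [] [] 100000 0 0 1200000 50000 0 50000 0 0 0 0) (.L 3 5 [4, 4] [128, 128, 124, 116, 108,
    100] [] 100000 0 0 1250000 50000 0 50000 0 0 0 0))) (.L 3 5 [4, 4] [] [] 100000 0 0 1262500
    12500 0 100000 0 0 0 0)) (.E 0)) (.L 3 5 [4, 4] [] [] 100000 0 0 1268422 15789 0 57895 0 0 0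
    0))

lemma n18_18_9_1_2 {n : ℕ} (hn : 5 ≤ n) : NoNd ((18 : ℕ) : ℤ) ((18 : ℕ) : ℤ) n 9 1
    (BlkD.inB (BlkD.upd (fun _ => 0) 0 5)
      (BlkD.upd (BlkD.upd (fun _ => 18) 0 9) 2 1)) :=
  BlkD.part_sound (d := d18_18_9_1) dk18_18_9_1 hn (by decide) (tr := t18_18_9_1_2)
    (by decide +kernel) rfl rfl rfl rfl

/-- the certificates of the part 3 of the pair `(9, 1)` -/
def t18_18_9_1_3 : BlkD.Tr :=
  .E 1

lemma n18_18_9_1_3 {n : ℕ} (hn : 5 ≤ n) : NoNd ((18 : ℕ) : ℤ) ((18 : ℕ) : ℤ) n 9 1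
    (BlkD.inB (BlkD.upd (fun _ => 0) 2 2)
      (BlkD.upd (fun _ => 18) 0 9)) :=
  BlkD.part_sound (d := d18_18_9_1) dk18_18_9_1 hn (by decide) (tr := t18_18_9_1_3)
    (by decide +kernel) rfl rfl rfl rfl

/-- the certificates of the part 4 of the pair `(9, 1)` -/
def t18_18_9_1_4 : BlkD.Tr :=
  .E 0

lemma n18_18_9_1_4 {n : ℕ} (hn : 5 ≤ n) : NoNd ((18 : ℕ) : ℤ) ((18 : ℕ) : ℤ) n 9 1
    (BlkD.inB (BlkD.upd (fun _ => 0) 0 10)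
      (fun _ => 18)) :=
  BlkD.part_sound (d := d18_18_9_1) dk18_18_9_1 hn (by decide) (tr := t18_18_9_1_4)
    (by decide +kernel) rfl rfl rfl rfl

lemma pr18_18_9_1 {n : ℕ} (hn : 5 ≤ n) : NoPr ((18 : ℕ) : ℤ) ((18 : ℕ) : ℤ) n 9 1 :=
  BlkD.of_root (q := 3) (by decide) hn (BlkD.sp 0 9 (BlkD.sp 2 1 (BlkD.sp 0 4 (n18_18_9_1_1 hn)
    (n18_18_9_1_2 hn))
    (n18_18_9_1_3 hn))
    (n18_18_9_1_4 hn))

/-- the numbers of the pair `(9, 2)`, `R = 18`, `H = 18` -/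
def d18_18_9_2 : BlkD.Pd :=
  ⟨18, 18, 3, 9, 2, 4, 1, 2, 0, 4, 8, 0, 0, 4, 4, 0, [0, 8, 16, 16, 16], [0, 4, 8, 12, 16], [⟨1, 1,
    1, 4, 8, [0, 4], [0, 4]⟩, ⟨1, 1, 1, 4, 12, [0, 8], [0, 4]⟩]⟩

lemma dk18_18_9_2 : BlkD.pairOk d18_18_9_2 = true := by decide +kernel

/-- the certificates of the part 1 of the pair `(9, 2)` -/
def t18_18_9_2_1 : BlkD.Tr :=
  .L 4 5 [4, 4, 18] [] [] 100000 172726 172726 1145457 72727 0 81818 63636 0 0 0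

lemma n18_18_9_2_1 {n : ℕ} (hn : 5 ≤ n) : NoNd ((18 : ℕ) : ℤ) ((18 : ℕ) : ℤ) n 9 2
    (BlkD.inB (fun _ => 0)
      (BlkD.upd (BlkD.upd (BlkD.upd (fun _ => 18) 0 9) 2 2) 0 4)) :=
  BlkD.part_sound (d := d18_18_9_2) dk18_18_9_2 hn (by decide) (tr := t18_18_9_2_1)
    (by decide +kernel) rfl rfl rfl rfl

/-- the certificates of the part 2 of the pair `(9, 2)` -/
def t18_18_9_2_2 : BlkD.Tr :=
  .S 0 5 (.S 1 13 (.S 1 6 (.L 4 5 [4, 4, 18] [] [] 100000 0 0 1266668 33333 0 33333 16667 0 0 0)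
    (.S 1 10 (.S 1 8 (.L 4 5 [4, 4, 18] [] [] 100000 0 0 1366670 33333 0 33333 33333 0 0 0) (.S 1 9
    (.S 2 1 (.S 2 0 (.L 4 5 [4, 4, 18] [196, 196, 196, 196, 196, 196] [] 100000 100000 100000
    1250000 50000 0 100000 50000 0 0 0) (.S 3 3 (.S 3 1 (.S 3 0 (.L 4 5 [4, 4, 18] [196, 196, 196,
    196, 196, 196] [0, 0, 0, 0, 0, 0] 100000 0 0 1333335 33333 0 66667 0 0 0 0) (.L 3 4 [4, 5, 18]
    [196, 196, 196, 196, 196, 196] [12, 2, 0, 0, 0, 0] 100000 300000 300000 1000000 100000 0 100000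
    0 0 0 0)) (.L 3 4 [4, 5, 18] [196, 196, 196, 196, 196, 196] [] 100000 750000 637500 0 212500 0
    212500 0 0 0 0)) (.E 1))) (.L 3 4 [4, 5, 18] [196, 196, 196, 196, 196, 196] [] 100000 700000
    600000 0 200000 0 200000 0 0 0 0)) (.L 3 4 [4, 5, 18] [224, 224, 224, 224, 224, 224] [] 100000
    300000 300000 1000000 100000 0 100000 0 0 0 0))) (.S 1 12 (.S 1 11 (.L 3 4 [4, 5, 18] [254,
    254, 254, 254, 254, 254] [] 100000 300000 300000 1000000 100000 0 100000 0 0 0 0) (.L 3 4 [4,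
    5, 18] [286, 286, 286, 286, 286, 286] [] 100000 650000 437500 0 212500 0 312500 0 0 0 0)) (.L 3
    4 [4, 5, 18] [320, 320, 320, 320, 320, 320] [] 100000 440000 180000 0 180000 0 360000 0 0 0
    0)))) (.E 0)) (.S 1 12 (.S 1 6 (.L 4 5 [4, 4, 18] [] [] 100000 2 2 1363635 27273 0 27273 36364
    0 0 0) (.S 1 9 (.S 1 8 (.S 1 7 (.L 4 5 [4, 4, 18] [160, 160, 160, 160, 152, 144] [] 100000
    42856 42856 1342859 42857 0 57143 28571 0 0 0) (.S 2 1 (.S 2 0 (.L 4 5 [4, 4, 18] [186, 186,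
    186, 186, 186, 178] [] 100000 140000 140000 1240000 60000 0 100000 40000 0 0 0) (.S 3 3 (.S 3 1
    (.S 3 0 (.L 4 5 [4, 4, 18] [186, 186, 186, 186, 186, 178] [0, 0, 0, 0, 0, 0] 100000 1 1 1354546
    36364 0 54545 0 0 0 0) (.L 3 4 [4, 5, 18] [186, 186, 186, 186, 186, 178] [12, 2, 0, 0, 0, 0]
    100000 166668 166668 1199999 66667 0 100000 0 0 0 0)) (.L 3 4 [4, 5, 18] [186, 186, 186, 186,
    186, 178] [] 100000 300000 300000 1000000 100000 0 100000 0 0 0 0)) (.E 1))) (.L 3 4 [4, 5, 18]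
    [186, 186, 186, 186, 186, 178] [] 100000 300000 300000 900000 100000 0 100000 0 0 0 0))) (.S 2
    1 (.S 2 0 (.L 3 4 [4, 5, 18] [214, 214, 214, 214, 214, 214] [] 100000 200000 200000 1175000
    75000 0 100000 25000 0 0 0) (.S 3 2 (.S 3 1 (.S 3 0 (.L 6 6 [4, 3, 18] [214, 214, 214, 214,
    214, 214] [0, 0, 0, 0, 0, 0] 100000 0 0 1350000 50000 0 100000 0 0 0 0) (.L 3 3 [4, 6, 18]
    [214, 214, 214, 214, 214, 214] [12, 2, 0, 0, 0, 0] 100000 366667 366667 1000000 100000 0 100000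
    0 0 33333 33333)) (.L 3 3 [4, 6, 18] [214, 214, 214, 214, 214, 214] [24, 16, 6, 0, 0, 0] 100000
    800000 675000 0 225000 0 225000 0 0 0 0)) (.E 1))) (.L 3 3 [4, 6, 18] [214, 214, 214, 214, 214,
    214] [] 100000 816667 704167 0 212500 0 212500 0 0 33333 33333))) (.S 1 11 (.S 1 10 (.L 4 5 [4,
    4, 18] [244, 244, 244, 244, 244, 244] [] 100000 200000 200000 1100000 100000 0 100000 0 0 0 0)
    (.L 4 5 [4, 4, 18] [276, 276, 276, 276, 276, 276] [] 100000 628571 435714 1 242857 0 292857 0 0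
    0 0)) (.L 4 5 [4, 4, 18] [310, 310, 310, 310, 310, 310] [] 100000 575000 450000 0 225000 0
    225000 0 0 0 0)))) (.E 0))

lemma n18_18_9_2_2 {n : ℕ} (hn : 5 ≤ n) : NoNd ((18 : ℕ) : ℤ) ((18 : ℕ) : ℤ) n 9 2
    (BlkD.inB (BlkD.upd (fun _ => 0) 0 5)
      (BlkD.upd (BlkD.upd (BlkD.upd (BlkD.upd (fun _ => 18) 0 9) 2 2) 0 7) 0 6)) :=
  BlkD.part_sound (d := d18_18_9_2) dk18_18_9_2 hn (by decide) (tr := t18_18_9_2_2)
    (by decide +kernel) rfl rfl rfl rfl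

/-- the certificates of the part 3 of the pair `(9, 2)` -/
def t18_18_9_2_3 : BlkD.Tr :=
  .S 1 11 (.S 1 5 (.L 4 5 [4, 4, 18] [] [] 100000 0 0 1366669 33333 0 33333 33333 0 0 0) (.S 1 8
    (.S 1 7 (.S 1 6 (.S 2 1 (.S 2 0 (.S 3 5 (.S 3 2 (.L 4 5 [4, 4, 18] [148, 148, 148, 140, 132,
    124] [] 100000 0 0 1358824 35294 0 58824 23529 0 0 0) (.S 3 4 (.S 3 3 (.L 6 6 [4, 3, 18] [148,
    148, 148, 140, 132, 124] [28, 24, 16, 6, 0, 0] 100000 0 0 1300000 40000 0 60000 100000 0 0 0)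
    (.L 6 6 [4, 3, 18] [148, 148, 148, 140, 132, 124] [38, 34, 30, 22, 12, 0] 100000 286364 0 2
    154545 0 154545 386364 0 0 0)) (.E 1))) (.E 1)) (.S 3 4 (.S 3 2 (.S 3 1 (.L 4 5 [4, 4, 18]
    [148, 148, 148, 140, 132, 124] [] 100000 0 0 1366668 33333 0 66667 33333 0 0 0) (.L 6 9 [6, 2,
    18] [148, 148, 148, 140, 132, 124] [24, 16, 6, 0, 0, 0] 100000 0 0 1350000 50000 0 75000 50000
    0 0 0)) (.E 1)) (.E 1))) (.L 6 9 [6, 2, 18] [148, 148, 148, 140, 132, 124] [] 100000 0 0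
    1350000 50000 0 100000 0 0 0 0)) (.L 6 9 [6, 2, 18] [174, 174, 174, 174, 166, 158] [] 100000 0
    0 1350000 50000 0 100000 50000 0 0 0)) (.L 6 9 [6, 2, 18] [202, 202, 202, 202, 202, 194] []
    100000 0 0 1350000 50000 0 100000 50000 0 0 0)) (.S 1 10 (.S 1 9 (.L 4 5 [4, 4, 18] [232, 232,
    232, 232, 232, 232] [] 100000 200000 200000 1100000 100000 0 100000 0 0 0 0) (.L 4 5 [4, 4, 18]
    [264, 264, 264, 264, 264, 264] [] 100000 475000 200000 0 237500 0 375000 0 0 0 0)) (.L 4 5 [4,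
    4, 18] [298, 298, 298, 298, 298, 298] [] 100000 350000 225000 0 225000 0 225000 0 0 0 0)))) (.E
    0)

lemma n18_18_9_2_3 {n : ℕ} (hn : 5 ≤ n) : NoNd ((18 : ℕ) : ℤ) ((18 : ℕ) : ℤ) n 9 2
    (BlkD.inB (BlkD.upd (BlkD.upd (fun _ => 0) 0 5) 0 7)
      (BlkD.upd (BlkD.upd (BlkD.upd (fun _ => 18) 0 9) 2 2) 0 7)) :=
  BlkD.part_sound (d := d18_18_9_2) dk18_18_9_2 hn (by decide) (tr := t18_18_9_2_3)
    (by decide +kernel) rfl rfl rfl rfl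

/-- the certificates of the part 4 of the pair `(9, 2)` -/
def t18_18_9_2_4 : BlkD.Tr :=
  .S 0 8 (.S 1 10 (.S 1 5 (.S 1 2 (.L 4 5 [4, 4, 18] [] [] 100000 0 0 1300000 0 0 0 50000 0 0 0)
    (.S 1 4 (.L 4 5 [4, 4, 18] [] [] 100000 0 0 1350000 37500 0 75000 50000 0 0 0) (.L 4 5 [4, 4,
    18] [134, 134, 126, 118, 110, 100] [] 100000 50000 50000 1300000 50000 0 100000 50000 0 0 0)))
    (.S 1 8 (.S 1 7 (.S 1 6 (.L 4 5 [4, 4, 18] [160, 160, 160, 152, 144, 136] [] 100000 50000 50000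
    1300000 50000 0 100000 50000 0 0 0) (.L 4 5 [4, 4, 18] [188, 188, 188, 188, 180, 172] [] 100000
    0 0 1340000 40000 0 100000 40000 0 0 0)) (.L 4 5 [4, 4, 18] [218, 218, 218, 218, 218, 210] []
    100000 460000 180000 0 280000 0 380000 100000 0 0 0)) (.E 0))) (.E 0)) (.L 4 5 [4, 4, 18] [] []
    100000 0 0 1368422 15789 0 57895 50000 0 0 0)

lemma n18_18_9_2_4 {n : ℕ} (hn : 5 ≤ n) : NoNd ((18 : ℕ) : ℤ) ((18 : ℕ) : ℤ) n 9 2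
    (BlkD.inB (BlkD.upd (BlkD.upd (fun _ => 0) 0 5) 0 8)
      (BlkD.upd (BlkD.upd (fun _ => 18) 0 9) 2 2)) :=
  BlkD.part_sound (d := d18_18_9_2) dk18_18_9_2 hn (by decide) (tr := t18_18_9_2_4)
    (by decide +kernel) rfl rfl rfl rfl

/-- the certificates of the part 5 of the pair `(9, 2)` -/
def t18_18_9_2_5 : BlkD.Tr :=
  .E 1

lemma n18_18_9_2_5 {n : ℕ} (hn : 5 ≤ n) : NoNd ((18 : ℕ) : ℤ) ((18 : ℕ) : ℤ) n 9 2
    (BlkD.inB (BlkD.upd (fun _ => 0) 2 3)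
      (BlkD.upd (fun _ => 18) 0 9)) :=
  BlkD.part_sound (d := d18_18_9_2) dk18_18_9_2 hn (by decide) (tr := t18_18_9_2_5)
    (by decide +kernel) rfl rfl rfl rfl

/-- the certificates of the part 6 of the pair `(9, 2)` -/
def t18_18_9_2_6 : BlkD.Tr :=
  .E 0

lemma n18_18_9_2_6 {n : ℕ} (hn : 5 ≤ n) : NoNd ((18 : ℕ) : ℤ) ((18 : ℕ) : ℤ) n 9 2
    (BlkD.inB (BlkD.upd (fun _ => 0) 0 10)
      (fun _ => 18)) :=
  BlkD.part_sound (d := d18_18_9_2) dk18_18_9_2 hn (by decide) (tr := t18_18_9_2_6)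
    (by decide +kernel) rfl rfl rfl rfl

lemma pr18_18_9_2 {n : ℕ} (hn : 5 ≤ n) : NoPr ((18 : ℕ) : ℤ) ((18 : ℕ) : ℤ) n 9 2 :=
  BlkD.of_root (q := 3) (by decide) hn (BlkD.sp 0 9 (BlkD.sp 2 2 (BlkD.sp 0 4 (n18_18_9_2_1 hn)
    (BlkD.sp 0 7 (BlkD.sp 0 6 (n18_18_9_2_2 hn)
    (n18_18_9_2_3 hn))
    (n18_18_9_2_4 hn)))
    (n18_18_9_2_5 hn))
    (n18_18_9_2_6 hn))

end BlkC

end Pool.Agent.Lib.MP_f04ccf_co
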