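import Pool.Agent.Lib.MP_f04ccf_co.M.BlkTp

/-!
MP_f04ccf_co, block certificate, data `R = 18`, `H = 18`, part 4 (certificates: helper99, bd9.cpp).
-/

set_option autoImplicit false
set_option maxRecDepth 100000

namespace Pool.Agent.Lib.MP_f04ccf_co

namespace BlkC

/-- the numbers of the pair `(9, 3)`, `R = 18`, `H = 18` -/
def d18_18_9_3 : BlkD.Pd :=
  ⟨18, 18, 3, 9, 3, 3, 0, 3, 0, 4, 4, 0, 0, 4, 4, 0, [0, 4, 8, 12], [0, 4, 8, 12], [⟨1, 1, 1, 4, 8,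
    [0, 4], [0, 4]⟩]⟩

lemma dk18_18_9_3 : BlkD.pairOk d18_18_9_3 = true := by decide +kernel

/-- the certificates of the part 1 of the pair `(9, 3)` -/
def t18_18_9_3_1 : BlkD.Tr :=
  .L 3 3 [4, 18, 18, 18] [] [] 100000 0 0 1400001 100000 0 100000 33333 0 0 0

lemma n18_18_9_3_1 {n : ℕ} (hn : 5 ≤ n) : NoNd ((18 : ℕ) : ℤ) ((18 : ℕ) : ℤ) n 9 3
    (BlkD.inB (fun _ => 0)
      (BlkD.upd (BlkD.upd (BlkD.upd (BlkD.upd (fun _ => 18) 0 9) 2 3) 0 4) 0 2)) :=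
  BlkD.part_sound (d := d18_18_9_3) dk18_18_9_3 hn (by decide) (tr := t18_18_9_3_1)
    (by decide +kernel) rfl rfl rfl rfl

/-- the certificates of the part 2 of the pair `(9, 3)` -/
def t18_18_9_3_2 : BlkD.Tr :=
  .L 3 3 [4, 18, 18, 18] [] [] 100000 0 0 1400001 100000 0 100000 33333 0 0 0

lemma n18_18_9_3_2 {n : ℕ} (hn : 5 ≤ n) : NoNd ((18 : ℕ) : ℤ) ((18 : ℕ) : ℤ) n 9 3
    (BlkD.inB (BlkD.upd (fun _ => 0) 0 3)
      (BlkD.upd (BlkD.upd (BlkD.upd (fun _ => 18) 0 9) 2 3) 0 4)) :=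
  BlkD.part_sound (d := d18_18_9_3) dk18_18_9_3 hn (by decide) (tr := t18_18_9_3_2)
    (by decide +kernel) rfl rfl rfl rfl

/-- the certificates of the part 3 of the pair `(9, 3)` -/
def t18_18_9_3_3 : BlkD.Tr :=
  .L 3 3 [4, 18, 18, 18] [] [] 100000 0 0 1400001 100000 0 100000 33333 0 0 0

lemma n18_18_9_3_3 {n : ℕ} (hn : 5 ≤ n) : NoNd ((18 : ℕ) : ℤ) ((18 : ℕ) : ℤ) n 9 3
    (BlkD.inB (BlkD.upd (fun _ => 0) 0 5)
      (BlkD.upd (BlkD.upd (BlkD.upd (fun _ => 18) 0 9) 2 3) 0 7)) :=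
  BlkD.part_sound (d := d18_18_9_3) dk18_18_9_3 hn (by decide) (tr := t18_18_9_3_3)
    (by decide +kernel) rfl rfl rfl rfl

/-- the certificates of the part 4 of the pair `(9, 3)` -/
def t18_18_9_3_4 : BlkD.Tr :=
  .L 3 3 [4, 18, 18, 18] [] [] 100000 0 0 1400001 100000 0 100000 33333 0 0 0

lemma n18_18_9_3_4 {n : ℕ} (hn : 5 ≤ n) : NoNd ((18 : ℕ) : ℤ) ((18 : ℕ) : ℤ) n 9 3
    (BlkD.inB (BlkD.upd (BlkD.upd (fun _ => 0) 0 5) 0 8)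
      (BlkD.upd (BlkD.upd (fun _ => 18) 0 9) 2 3)) :=
  BlkD.part_sound (d := d18_18_9_3) dk18_18_9_3 hn (by decide) (tr := t18_18_9_3_4)
    (by decide +kernel) rfl rfl rfl rfl

/-- the certificates of the part 5 of the pair `(9, 3)` -/
def t18_18_9_3_5 : BlkD.Tr :=
  .E 1

lemma n18_18_9_3_5 {n : ℕ} (hn : 5 ≤ n) : NoNd ((18 : ℕ) : ℤ) ((18 : ℕ) : ℤ) n 9 3
    (BlkD.inB (BlkD.upd (fun _ => 0) 2 4)
      (BlkD.upd (fun _ => 18) 0 9)) :=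
  BlkD.part_sound (d := d18_18_9_3) dk18_18_9_3 hn (by decide) (tr := t18_18_9_3_5)
    (by decide +kernel) rfl rfl rfl rfl

/-- the certificates of the part 6 of the pair `(9, 3)` -/
def t18_18_9_3_6 : BlkD.Tr :=
  .E 0

lemma n18_18_9_3_6 {n : ℕ} (hn : 5 ≤ n) : NoNd ((18 : ℕ) : ℤ) ((18 : ℕ) : ℤ) n 9 3
    (BlkD.inB (BlkD.upd (fun _ => 0) 0 10)
      (fun _ => 18)) :=
  BlkD.part_sound (d := d18_18_9_3) dk18_18_9_3 hn (by decide) (tr := t18_18_9_3_6)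
    (by decide +kernel) rfl rfl rfl rfl

lemma pr18_18_9_3 {n : ℕ} (hn : 5 ≤ n) : NoPr ((18 : ℕ) : ℤ) ((18 : ℕ) : ℤ) n 9 3 :=
  BlkD.of_root (q := 3) (by decide) hn (BlkD.sp 0 9 (BlkD.sp 2 3 (BlkD.sp 0 4 (BlkD.sp 0 2 (n18_18_9_3_1 hn)
    (n18_18_9_3_2 hn))
    (BlkD.sp 0 7 (n18_18_9_3_3 hn)
    (n18_18_9_3_4 hn)))
    (n18_18_9_3_5 hn))
    (n18_18_9_3_6 hn))

/-- the numbers of the pair `(10, 0)`, `R = 18`, `H = 18` -/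
def d18_18_10_0 : BlkD.Pd :=
  ⟨18, 18, 3, 10, 0, 5, 0, 1, 0, 4, 4, 0, 0, 4, 4, 0, [0, 4, 8, 12, 16, 20], [0, 4, 8, 12, 16, 20],
    [⟨1, 1, 1, 4, 8, [0, 4], [0, 4]⟩]⟩

lemma dk18_18_10_0 : BlkD.pairOk d18_18_10_0 = true := by decide +kernel

/-- the certificates of the part 1 of the pair `(10, 0)` -/
def t18_18_10_0_1 : BlkD.Tr :=
  .S 0 10 (.S 2 0 (.L 3 3 [4] [] [] 100000 0 0 1100000 100000 0 100000 0 0 0 0) (.E 1)) (.E 0)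

lemma n18_18_10_0_1 {n : ℕ} (hn : 5 ≤ n) : NoNd ((18 : ℕ) : ℤ) ((18 : ℕ) : ℤ) n 10 0
    (BlkD.inB (fun _ => 0)
      (fun _ => 18)) :=
  BlkD.part_sound (d := d18_18_10_0) dk18_18_10_0 hn (by decide) (tr := t18_18_10_0_1)
    (by decide +kernel) rfl rfl rfl rfl

lemma pr18_18_10_0 {n : ℕ} (hn : 5 ≤ n) : NoPr ((18 : ℕ) : ℤ) ((18 : ℕ) : ℤ) n 10 0 :=
  BlkD.of_root (q := 3) (by decide) hn (n18_18_10_0_1 hn)

/-- the numbers of the pair `(10, 1)`, `R = 18`, `H = 18` -/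
def d18_18_10_1 : BlkD.Pd :=
  ⟨18, 18, 3, 10, 1, 4, 1, 1, 0, 4, 8, 0, 0, 4, 4, 0, [0, 8, 16, 16, 16], [0, 4, 8, 12, 16], [⟨1,
    1, 1, 4, 8, [0, 4], [0, 4]⟩, ⟨1, 1, 1, 4, 12, [0, 8], [0, 4]⟩]⟩

lemma dk18_18_10_1 : BlkD.pairOk d18_18_10_1 = true := by decide +kernel

/-- the certificates of the part 1 of the pair `(10, 1)` -/
def t18_18_10_1_1 : BlkD.Tr :=
  .S 0 10 (.S 2 1 (.S 0 5 (.L 4 7 [4, 3] [] [] 100000 200000 200000 1140000 80000 0 100000 0 0 0 0)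
    (.S 0 8 (.S 0 7 (.S 0 6 (.S 1 12 (.S 1 6 (.L 4 7 [4, 3] [] [] 100000 0 0 1200002 33333 0 33333
    0 0 0 0) (.S 1 9 (.L 4 7 [4, 3] [] [] 100000 40000 40000 1340000 40000 0 40000 0 0 0 0) (.S 1
    11 (.S 1 10 (.L 4 7 [4, 3] [234, 234, 234, 234, 234, 234] [] 100000 50000 50000 1300000 50000 0
    100000 0 0 0 0) (.L 4 7 [4, 3] [266, 266, 266, 266, 266, 266] [] 100000 133335 133335 1233332
    66667 0 100000 0 0 0 0)) (.L 3 5 [4, 4] [300, 300, 300, 300, 300, 300] [] 100000 800000 675000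
    0 225000 0 225000 0 0 0 0)))) (.E 0)) (.S 1 11 (.S 1 5 (.L 3 5 [4, 4] [] [] 100000 0 0 1200000
    40000 0 40000 0 0 0 0) (.S 1 8 (.S 1 7 (.S 1 6 (.L 3 5 [4, 4] [138, 138, 138, 138, 130, 122] []
    100000 0 0 1300002 33333 0 33333 0 0 0 0) (.L 3 5 [4, 4] [164, 164, 164, 164, 164, 156] []
    100000 100000 100000 1250000 50000 0 100000 0 0 0 0)) (.L 3 5 [4, 4] [192, 192, 192, 192, 192,
    192] [] 100000 50000 50000 1300000 50000 0 50000 0 0 0 0)) (.S 1 10 (.S 1 9 (.L 4 7 [4, 3]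
    [222, 222, 222, 222, 222, 222] [] 100000 66668 66668 1266666 66667 0 100000 0 0 0 0) (.L 4 7
    [4, 3] [254, 254, 254, 254, 254, 254] [] 100000 200000 200000 1100000 100000 0 100000 0 0 0 0))
    (.L 4 7 [4, 3] [288, 288, 288, 288, 288, 288] [] 100000 671429 514286 0 257143 0 257143 0 0 0
    0)))) (.E 0))) (.S 1 10 (.S 1 5 (.L 4 7 [4, 3] [] [] 100000 0 0 1300000 40000 0 40000 0 0 0 0)
    (.S 1 8 (.S 1 7 (.S 1 6 (.L 4 7 [4, 3] [150, 150, 150, 150, 142, 134] [] 100000 50000 50000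
    1300000 50000 0 50000 0 0 0 0) (.L 4 7 [4, 3] [178, 178, 178, 178, 178, 170] [] 100000 0 0
    1350000 50000 0 50000 0 0 0 0)) (.L 4 7 [4, 3] [208, 208, 208, 208, 208, 208] [] 100000 66668
    66668 1299999 66667 0 100000 0 0 0 0)) (.S 1 9 (.L 4 7 [4, 3] [240, 240, 240, 240, 240, 240] []
    100000 100000 100000 1275000 75000 0 100000 0 0 0 0) (.L 3 5 [4, 4] [274, 274, 274, 274, 274,
    274] [] 100000 671429 514286 0 257143 0 257143 0 0 0 0)))) (.E 0))) (.S 0 9 (.S 1 9 (.S 1 4 (.L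
    3 5 [4, 4] [] [] 100000 0 0 1300000 50000 0 50000 0 0 0 0) (.S 1 7 (.S 1 6 (.S 1 5 (.L 3 5 [4,
    4] [134, 134, 134, 126, 118, 110] [] 100000 0 0 1350000 50000 0 50000 0 0 0 0) (.L 4 7 [4, 3]
    [162, 162, 162, 162, 154, 146] [] 100000 0 0 1350000 50000 0 100000 0 0 0 0)) (.L 4 7 [4, 3]
    [192, 192, 192, 192, 192, 184] [] 100000 100000 100000 1200000 100000 0 100000 0 0 0 0)) (.S 1
    8 (.L 4 7 [4, 3] [224, 224, 224, 224, 224, 224] [] 100000 580000 340000 0 340000 0 340000 0 0 0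
    0) (.L 4 7 [4, 3] [258, 258, 258, 258, 258, 258] [] 100000 500000 300000 0 300000 0 300000 0 0
    0 0)))) (.E 0)) (.L 4 7 [4, 3] [] [] 100000 0 0 1360000 20000 0 100000 0 0 0 0)))) (.E 1)) (.E
    0)

lemma n18_18_10_1_1 {n : ℕ} (hn : 5 ≤ n) : NoNd ((18 : ℕ) : ℤ) ((18 : ℕ) : ℤ) n 10 1
    (BlkD.inB (fun _ => 0)
      (fun _ => 18)) :=
  BlkD.part_sound (d := d18_18_10_1) dk18_18_10_1 hn (by decide) (tr := t18_18_10_1_1)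
    (by decide +kernel) rfl rfl rfl rfl

lemma pr18_18_10_1 {n : ℕ} (hn : 5 ≤ n) : NoPr ((18 : ℕ) : ℤ) ((18 : ℕ) : ℤ) n 10 1 :=
  BlkD.of_root (q := 3) (by decide) hn (n18_18_10_1_1 hn)

/-- the numbers of the pair `(10, 2)`, `R = 18`, `H = 18` -/
def d18_18_10_2 : BlkD.Pd :=
  ⟨18, 18, 3, 10, 2, 3, 0, 2, 0, 4, 4, 0, 0, 4, 4, 0, [0, 4, 8, 12], [0, 4, 8, 12], [⟨1, 1, 1, 4,
    8, [0, 4], [0, 4]⟩]⟩

lemma dk18_18_10_2 : BlkD.pairOk d18_18_10_2 = true := by decide +kernel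

/-- the certificates of the part 1 of the pair `(10, 2)` -/
def t18_18_10_2_1 : BlkD.Tr :=
  .L 3 3 [4, 18, 18] [] [] 100000 0 0 1400000 100000 0 100000 0 0 0 0

lemma n18_18_10_2_1 {n : ℕ} (hn : 5 ≤ n) : NoNd ((18 : ℕ) : ℤ) ((18 : ℕ) : ℤ) n 10 2
    (BlkD.inB (fun _ => 0)
      (BlkD.upd (BlkD.upd (BlkD.upd (fun _ => 18) 0 10) 2 2) 0 5)) :=
  BlkD.part_sound (d := d18_18_10_2) dk18_18_10_2 hn (by decide) (tr := t18_18_10_2_1)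
    (by decide +kernel) rfl rfl rfl rfl

/-- the certificates of the part 2 of the pair `(10, 2)` -/
def t18_18_10_2_2 : BlkD.Tr :=
  .L 3 3 [4, 18, 18] [] [] 100000 0 0 1400000 100000 0 100000 0 0 0 0

lemma n18_18_10_2_2 {n : ℕ} (hn : 5 ≤ n) : NoNd ((18 : ℕ) : ℤ) ((18 : ℕ) : ℤ) n 10 2
    (BlkD.inB (BlkD.upd (fun _ => 0) 0 6)
      (BlkD.upd (BlkD.upd (fun _ => 18) 0 10) 2 2)) :=
  BlkD.part_sound (d := d18_18_10_2) dk18_18_10_2 hn (by decide) (tr := t18_18_10_2_2)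
    (by decide +kernel) rfl rfl rfl rfl

/-- the certificates of the part 3 of the pair `(10, 2)` -/
def t18_18_10_2_3 : BlkD.Tr :=
  .E 1

lemma n18_18_10_2_3 {n : ℕ} (hn : 5 ≤ n) : NoNd ((18 : ℕ) : ℤ) ((18 : ℕ) : ℤ) n 10 2
    (BlkD.inB (BlkD.upd (fun _ => 0) 2 3)
      (BlkD.upd (fun _ => 18) 0 10)) :=
  BlkD.part_sound (d := d18_18_10_2) dk18_18_10_2 hn (by decide) (tr := t18_18_10_2_3)
    (by decide +kernel) rfl rfl rfl rfl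

/-- the certificates of the part 4 of the pair `(10, 2)` -/
def t18_18_10_2_4 : BlkD.Tr :=
  .E 0

lemma n18_18_10_2_4 {n : ℕ} (hn : 5 ≤ n) : NoNd ((18 : ℕ) : ℤ) ((18 : ℕ) : ℤ) n 10 2
    (BlkD.inB (BlkD.upd (fun _ => 0) 0 11)
      (fun _ => 18)) :=
  BlkD.part_sound (d := d18_18_10_2) dk18_18_10_2 hn (by decide) (tr := t18_18_10_2_4)
    (by decide +kernel) rfl rfl rfl rfl

lemma pr18_18_10_2 {n : ℕ} (hn : 5 ≤ n) : NoPr ((18 : ℕ) : ℤ) ((18 : ℕ) : ℤ) n 10 2 :=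
  BlkD.of_root (q := 3) (by decide) hn (BlkD.sp 0 10 (BlkD.sp 2 2 (BlkD.sp 0 5 (n18_18_10_2_1 hn)
    (n18_18_10_2_2 hn))
    (n18_18_10_2_3 hn))
    (n18_18_10_2_4 hn))

/-- the numbers of the pair `(11, 0)`, `R = 18`, `H = 18` -/
def d18_18_11_0 : BlkD.Pd :=
  ⟨18, 18, 3, 11, 0, 4, 0, 1, 0, 4, 4, 0, 0, 4, 4, 0, [0, 4, 8, 12, 16], [0, 4, 8, 12, 16], [⟨1, 1,
    1, 4, 8, [0, 4], [0, 4]⟩]⟩

lemma dk18_18_11_0 : BlkD.pairOk d18_18_11_0 = true := by decide +kernel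

/-- the certificates of the part 1 of the pair `(11, 0)` -/
def t18_18_11_0_1 : BlkD.Tr :=
  .S 0 11 (.S 2 0 (.L 3 3 [4] [] [] 100000 0 0 1200000 100000 0 100000 0 0 0 0) (.E 1)) (.E 0)

lemma n18_18_11_0_1 {n : ℕ} (hn : 5 ≤ n) : NoNd ((18 : ℕ) : ℤ) ((18 : ℕ) : ℤ) n 11 0
    (BlkD.inB (fun _ => 0)
      (fun _ => 18)) :=
  BlkD.part_sound (d := d18_18_11_0) dk18_18_11_0 hn (by decide) (tr := t18_18_11_0_1)
    (by decide +kernel) rfl rfl rfl rfl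

lemma pr18_18_11_0 {n : ℕ} (hn : 5 ≤ n) : NoPr ((18 : ℕ) : ℤ) ((18 : ℕ) : ℤ) n 11 0 :=
  BlkD.of_root (q := 3) (by decide) hn (n18_18_11_0_1 hn)

/-- the numbers of the pair `(11, 1)`, `R = 18`, `H = 18` -/
def d18_18_11_1 : BlkD.Pd :=
  ⟨18, 18, 3, 11, 1, 3, 0, 1, 0, 4, 4, 0, 0, 4, 4, 0, [0, 4, 8, 12], [0, 4, 8, 12], [⟨1, 1, 1, 4,
    8, [0, 4], [0, 4]⟩]⟩

lemma dk18_18_11_1 : BlkD.pairOk d18_18_11_1 = true := by decide +kernel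

/-- the certificates of the part 1 of the pair `(11, 1)` -/
def t18_18_11_1_1 : BlkD.Tr :=
  .S 0 11 (.S 2 1 (.L 3 3 [4, 18] [] [] 100000 0 0 1400000 100000 0 100000 0 0 0 0) (.E 1)) (.E 0)

lemma n18_18_11_1_1 {n : ℕ} (hn : 5 ≤ n) : NoNd ((18 : ℕ) : ℤ) ((18 : ℕ) : ℤ) n 11 1
    (BlkD.inB (fun _ => 0)
      (fun _ => 18)) :=
  BlkD.part_sound (d := d18_18_11_1) dk18_18_11_1 hn (by decide) (tr := t18_18_11_1_1)
    (by decide +kernel) rfl rfl rfl rfl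

lemma pr18_18_11_1 {n : ℕ} (hn : 5 ≤ n) : NoPr ((18 : ℕ) : ℤ) ((18 : ℕ) : ℤ) n 11 1 :=
  BlkD.of_root (q := 3) (by decide) hn (n18_18_11_1_1 hn)

/-- the numbers of the pair `(12, 0)`, `R = 18`, `H = 18` -/
def d18_18_12_0 : BlkD.Pd :=
  ⟨18, 18, 3, 12, 0, 3, 0, 1, 0, 4, 4, 0, 0, 4, 4, 0, [0, 4, 8, 12], [0, 4, 8, 12], [⟨1, 1, 1, 4,
    8, [0, 4], [0, 4]⟩]⟩

lemma dk18_18_12_0 : BlkD.pairOk d18_18_12_0 = true := by decide +kernel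

/-- the certificates of the part 1 of the pair `(12, 0)` -/
def t18_18_12_0_1 : BlkD.Tr :=
  .S 0 12 (.S 2 0 (.L 3 3 [4] [] [] 100000 0 0 1300000 100000 0 100000 0 0 0 0) (.E 1)) (.E 0)

lemma n18_18_12_0_1 {n : ℕ} (hn : 5 ≤ n) : NoNd ((18 : ℕ) : ℤ) ((18 : ℕ) : ℤ) n 12 0
    (BlkD.inB (fun _ => 0)
      (fun _ => 18)) :=
  BlkD.part_sound (d := d18_18_12_0) dk18_18_12_0 hn (by decide) (tr := t18_18_12_0_1)
    (by decide +kernel) rfl rfl rfl rfl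

lemma pr18_18_12_0 {n : ℕ} (hn : 5 ≤ n) : NoPr ((18 : ℕ) : ℤ) ((18 : ℕ) : ℤ) n 12 0 :=
  BlkD.of_root (q := 3) (by decide) hn (n18_18_12_0_1 hn)

end BlkC

end Pool.Agent.Lib.MP_f04ccf_co
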