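import Pool.Agent.Lib.MP_f04ccf_co.M.BlkTp

/-!
MP_f04ccf_co, block certificate, data `R = 18`, `H = 19`, part 1 (certificates: helper99, bd9.cpp).
-/

set_option autoImplicit false
set_option maxRecDepth 100000

namespace Pool.Agent.Lib.MP_f04ccf_co

namespace BlkC

/-- the numbers of the pair `(0, 0)`, `R = 18`, `H = 19` -/
def d18_19_0_0 : BlkD.Pd :=
  ⟨18, 19, 4, 0, 0, 16, 0, 1, 0, 4, 4, 0, 0, 4, 4, 0, [0, 4, 8, 12, 16, 20, 24, 28, 32, 36, 40, 44,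
    48, 52, 56, 60, 64], [0, 4, 8, 12, 16, 20, 24, 28, 32, 36, 40, 44, 48, 52, 56, 60, 64], [⟨1, 1,
    1, 4, 8, [0, 4], [0, 4]⟩]⟩

lemma dk18_19_0_0 : BlkD.pairOk d18_19_0_0 = true := by decide +kernel

/-- the certificates of the part 1 of the pair `(0, 0)` -/
def t18_19_0_0_1 : BlkD.Tr :=
  .S 0 0 (.S 2 0 (.L 3 3 [4] [] [] 100000 0 0 100000 0 0 100000 0 0 0 0) (.E 1)) (.E 0)

lemma n18_19_0_0_1 {n : ℕ} (hn : 6 ≤ n) : NoNd ((18 : ℕ) : ℤ) ((19 : ℕ) : ℤ) n 0 0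
    (BlkD.inB (fun _ => 0)
      (fun _ => 19)) :=
  BlkD.part_sound (d := d18_19_0_0) dk18_19_0_0 hn (by decide) (tr := t18_19_0_0_1)
    (by decide +kernel) rfl rfl rfl rfl

lemma pr18_19_0_0 {n : ℕ} (hn : 6 ≤ n) : NoPr ((18 : ℕ) : ℤ) ((19 : ℕ) : ℤ) n 0 0 :=
  BlkD.of_root (q := 4) (by decide) hn (n18_19_0_0_1 hn)

/-- the numbers of the pair `(1, 0)`, `R = 18`, `H = 19` -/
def d18_19_1_0 : BlkD.Pd :=
  ⟨18, 19, 4, 1, 0, 15, 0, 1, 0, 4, 4, 0, 0, 4, 4, 0, [0, 4, 8, 12, 16, 20, 24, 28, 32, 36, 40, 44,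
    48, 52, 56, 60], [0, 4, 8, 12, 16, 20, 24, 28, 32, 36, 40, 44, 48, 52, 56, 60], [⟨1, 1, 1, 4,
    8, [0, 4], [0, 4]⟩]⟩

lemma dk18_19_1_0 : BlkD.pairOk d18_19_1_0 = true := by decide +kernel

/-- the certificates of the part 1 of the pair `(1, 0)` -/
def t18_19_1_0_1 : BlkD.Tr :=
  .S 0 1 (.S 2 0 (.L 3 3 [4] [] [] 100000 0 0 200000 0 0 0 100000 0 0 0) (.E 1)) (.E 0)

lemma n18_19_1_0_1 {n : ℕ} (hn : 6 ≤ n) : NoNd ((18 : ℕ) : ℤ) ((19 : ℕ) : ℤ) n 1 0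
    (BlkD.inB (fun _ => 0)
      (fun _ => 19)) :=
  BlkD.part_sound (d := d18_19_1_0) dk18_19_1_0 hn (by decide) (tr := t18_19_1_0_1)
    (by decide +kernel) rfl rfl rfl rfl

lemma pr18_19_1_0 {n : ℕ} (hn : 6 ≤ n) : NoPr ((18 : ℕ) : ℤ) ((19 : ℕ) : ℤ) n 1 0 :=
  BlkD.of_root (q := 4) (by decide) hn (n18_19_1_0_1 hn)

/-- the numbers of the pair `(1, 1)`, `R = 18`, `H = 19` -/
def d18_19_1_1 : BlkD.Pd :=
  ⟨18, 19, 4, 1, 1, 14, 1, 1, 0, 4, 4, 0, 0, 4, 4, 0, [0, 4, 8, 12, 16, 20, 24, 28, 32, 36, 40, 44,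
    48, 52, 56], [0, 4, 8, 12, 16, 20, 24, 28, 32, 36, 40, 44, 48, 52, 56], [⟨1, 1, 1, 4, 8, [0,
    4], [0, 4]⟩, ⟨1, 1, 1, 4, 8, [0, 4], [0, 4]⟩]⟩

lemma dk18_19_1_1 : BlkD.pairOk d18_19_1_1 = true := by decide +kernel

/-- the certificates of the part 1 of the pair `(1, 1)` -/
def t18_19_1_1_1 : BlkD.Tr :=
  .S 0 1 (.S 2 1 (.L 3 3 [4, 4] [] [] 100000 0 0 400000 0 0 0 0 0 0 0) (.E 1)) (.E 0)

lemma n18_19_1_1_1 {n : ℕ} (hn : 6 ≤ n) : NoNd ((18 : ℕ) : ℤ) ((19 : ℕ) : ℤ) n 1 1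
    (BlkD.inB (fun _ => 0)
      (fun _ => 19)) :=
  BlkD.part_sound (d := d18_19_1_1) dk18_19_1_1 hn (by decide) (tr := t18_19_1_1_1)
    (by decide +kernel) rfl rfl rfl rfl

lemma pr18_19_1_1 {n : ℕ} (hn : 6 ≤ n) : NoPr ((18 : ℕ) : ℤ) ((19 : ℕ) : ℤ) n 1 1 :=
  BlkD.of_root (q := 4) (by decide) hn (n18_19_1_1_1 hn)

/-- the numbers of the pair `(2, 0)`, `R = 18`, `H = 19` -/
def d18_19_2_0 : BlkD.Pd :=
  ⟨18, 19, 4, 2, 0, 14, 0, 1, 0, 4, 4, 0, 0, 4, 4, 0, [0, 4, 8, 12, 16, 20, 24, 28, 32, 36, 40, 44,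
    48, 52, 56], [0, 4, 8, 12, 16, 20, 24, 28, 32, 36, 40, 44, 48, 52, 56], [⟨1, 1, 1, 4, 8, [0,
    4], [0, 4]⟩]⟩

lemma dk18_19_2_0 : BlkD.pairOk d18_19_2_0 = true := by decide +kernel

/-- the certificates of the part 1 of the pair `(2, 0)` -/
def t18_19_2_0_1 : BlkD.Tr :=
  .S 0 2 (.S 2 0 (.L 3 3 [4] [] [] 100000 0 0 300000 0 0 0 100000 0 0 0) (.E 1)) (.E 0)

lemma n18_19_2_0_1 {n : ℕ} (hn : 6 ≤ n) : NoNd ((18 : ℕ) : ℤ) ((19 : ℕ) : ℤ) n 2 0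
    (BlkD.inB (fun _ => 0)
      (fun _ => 19)) :=
  BlkD.part_sound (d := d18_19_2_0) dk18_19_2_0 hn (by decide) (tr := t18_19_2_0_1)
    (by decide +kernel) rfl rfl rfl rfl

lemma pr18_19_2_0 {n : ℕ} (hn : 6 ≤ n) : NoPr ((18 : ℕ) : ℤ) ((19 : ℕ) : ℤ) n 2 0 :=
  BlkD.of_root (q := 4) (by decide) hn (n18_19_2_0_1 hn)

/-- the numbers of the pair `(2, 1)`, `R = 18`, `H = 19` -/
def d18_19_2_1 : BlkD.Pd :=
  ⟨18, 19, 4, 2, 1, 13, 1, 1, 0, 4, 4, 0, 0, 4, 4, 0, [0, 4, 8, 12, 16, 20, 24, 28, 32, 36, 40, 44,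
    48, 52], [0, 4, 8, 12, 16, 20, 24, 28, 32, 36, 40, 44, 48, 52], [⟨1, 1, 1, 4, 8, [0, 4], [0,
    4]⟩, ⟨1, 1, 1, 4, 8, [0, 4], [0, 4]⟩]⟩

lemma dk18_19_2_1 : BlkD.pairOk d18_19_2_1 = true := by decide +kernel

/-- the certificates of the part 1 of the pair `(2, 1)` -/
def t18_19_2_1_1 : BlkD.Tr :=
  .S 0 2 (.S 2 1 (.L 3 4 [4, 4] [] [] 100000 0 0 500000 0 0 0 0 0 0 0) (.E 1)) (.E 0)

lemma n18_19_2_1_1 {n : ℕ} (hn : 6 ≤ n) : NoNd ((18 : ℕ) : ℤ) ((19 : ℕ) : ℤ) n 2 1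
    (BlkD.inB (fun _ => 0)
      (fun _ => 19)) :=
  BlkD.part_sound (d := d18_19_2_1) dk18_19_2_1 hn (by decide) (tr := t18_19_2_1_1)
    (by decide +kernel) rfl rfl rfl rfl

lemma pr18_19_2_1 {n : ℕ} (hn : 6 ≤ n) : NoPr ((18 : ℕ) : ℤ) ((19 : ℕ) : ℤ) n 2 1 :=
  BlkD.of_root (q := 4) (by decide) hn (n18_19_2_1_1 hn)

/-- the numbers of the pair `(2, 2)`, `R = 18`, `H = 19` -/
def d18_19_2_2 : BlkD.Pd :=
  ⟨18, 19, 4, 2, 2, 12, 2, 1, 0, 4, 6, 0, 0, 4, 6, 0, [0, 6, 12, 18, 24, 30, 36, 42, 48, 48, 48,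
    48, 48], [0, 6, 12, 18, 24, 30, 36, 42, 48, 48, 48, 48, 48], [⟨1, 1, 1, 4, 8, [0, 4], [0, 4]⟩,
    ⟨1, 1, 1, 4, 8, [0, 4], [0, 4]⟩, ⟨1, 1, 1, 6, 12, [0, 6], [0, 6]⟩]⟩

lemma dk18_19_2_2 : BlkD.pairOk d18_19_2_2 = true := by decide +kernel

/-- the certificates of the part 1 of the pair `(2, 2)` -/
def t18_19_2_2_1 : BlkD.Tr :=
  .S 0 2 (.S 2 2 (.L 4 4 [4, 4, 4] [] [] 100000 0 0 600000 0 0 25000 25000 0 0 50000) (.E 1)) (.E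
    0)

lemma n18_19_2_2_1 {n : ℕ} (hn : 6 ≤ n) : NoNd ((18 : ℕ) : ℤ) ((19 : ℕ) : ℤ) n 2 2
    (BlkD.inB (fun _ => 0)
      (fun _ => 19)) :=
  BlkD.part_sound (d := d18_19_2_2) dk18_19_2_2 hn (by decide) (tr := t18_19_2_2_1)
    (by decide +kernel) rfl rfl rfl rfl

lemma pr18_19_2_2 {n : ℕ} (hn : 6 ≤ n) : NoPr ((18 : ℕ) : ℤ) ((19 : ℕ) : ℤ) n 2 2 :=
  BlkD.of_root (q := 4) (by decide) hn (n18_19_2_2_1 hn)

/-- the numbers of the pair `(3, 0)`, `R = 18`, `H = 19` -/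
def d18_19_3_0 : BlkD.Pd :=
  ⟨18, 19, 4, 3, 0, 13, 0, 1, 0, 4, 4, 0, 0, 4, 4, 0, [0, 4, 8, 12, 16, 20, 24, 28, 32, 36, 40, 44,
    48, 52], [0, 4, 8, 12, 16, 20, 24, 28, 32, 36, 40, 44, 48, 52], [⟨1, 1, 1, 4, 8, [0, 4], [0,
    4]⟩]⟩

lemma dk18_19_3_0 : BlkD.pairOk d18_19_3_0 = true := by decide +kernel

/-- the certificates of the part 1 of the pair `(3, 0)` -/
def t18_19_3_0_1 : BlkD.Tr :=
  .S 0 3 (.S 2 0 (.L 3 3 [4] [] [] 100000 0 0 425000 0 0 25000 75000 0 0 0) (.E 1)) (.E 0)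

lemma n18_19_3_0_1 {n : ℕ} (hn : 6 ≤ n) : NoNd ((18 : ℕ) : ℤ) ((19 : ℕ) : ℤ) n 3 0
    (BlkD.inB (fun _ => 0)
      (fun _ => 19)) :=
  BlkD.part_sound (d := d18_19_3_0) dk18_19_3_0 hn (by decide) (tr := t18_19_3_0_1)
    (by decide +kernel) rfl rfl rfl rfl

lemma pr18_19_3_0 {n : ℕ} (hn : 6 ≤ n) : NoPr ((18 : ℕ) : ℤ) ((19 : ℕ) : ℤ) n 3 0 :=
  BlkD.of_root (q := 4) (by decide) hn (n18_19_3_0_1 hn)

/-- the numbers of the pair `(3, 1)`, `R = 18`, `H = 19` -/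
def d18_19_3_1 : BlkD.Pd :=
  ⟨18, 19, 4, 3, 1, 12, 1, 1, 0, 4, 6, 0, 0, 4, 4, 0, [0, 6, 12, 18, 24, 30, 36, 42, 48, 48, 48,
    48, 48], [0, 4, 8, 12, 16, 20, 24, 28, 32, 36, 40, 44, 48], [⟨1, 1, 1, 4, 8, [0, 4], [0, 4]⟩,
    ⟨1, 1, 1, 4, 10, [0, 6], [0, 4]⟩]⟩

lemma dk18_19_3_1 : BlkD.pairOk d18_19_3_1 = true := by decide +kernel

/-- the certificates of the part 1 of the pair `(3, 1)` -/
def t18_19_3_1_1 : BlkD.Tr :=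
  .S 0 3 (.S 2 1 (.L 3 4 [4, 4] [] [] 100000 0 0 600001 0 0 33333 0 0 0 0) (.E 1)) (.E 0)

lemma n18_19_3_1_1 {n : ℕ} (hn : 6 ≤ n) : NoNd ((18 : ℕ) : ℤ) ((19 : ℕ) : ℤ) n 3 1
    (BlkD.inB (fun _ => 0)
      (fun _ => 19)) :=
  BlkD.part_sound (d := d18_19_3_1) dk18_19_3_1 hn (by decide) (tr := t18_19_3_1_1)
    (by decide +kernel) rfl rfl rfl rfl

lemma pr18_19_3_1 {n : ℕ} (hn : 6 ≤ n) : NoPr ((18 : ℕ) : ℤ) ((19 : ℕ) : ℤ) n 3 1 :=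
  BlkD.of_root (q := 4) (by decide) hn (n18_19_3_1_1 hn)

/-- the numbers of the pair `(3, 2)`, `R = 18`, `H = 19` -/
def d18_19_3_2 : BlkD.Pd :=
  ⟨18, 19, 4, 3, 2, 11, 2, 1, 0, 4, 6, 0, 0, 4, 6, 0, [0, 6, 12, 18, 24, 30, 36, 42, 44, 44, 44,
    44], [0, 6, 12, 18, 24, 30, 36, 42, 44, 44, 44, 44], [⟨1, 1, 1, 4, 8, [0, 4], [0, 4]⟩, ⟨1, 1,
    1, 4, 10, [0, 6], [0, 4]⟩, ⟨1, 1, 1, 6, 12, [0, 6], [0, 6]⟩]⟩

lemma dk18_19_3_2 : BlkD.pairOk d18_19_3_2 = true := by decide +kernel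

/-- the certificates of the part 1 of the pair `(3, 2)` -/
def t18_19_3_2_1 : BlkD.Tr :=
  .S 0 3 (.S 2 2 (.L 4 4 [4, 4, 4] [] [] 100000 0 0 700001 0 0 33333 25000 0 0 50000) (.E 1)) (.E
    0)

lemma n18_19_3_2_1 {n : ℕ} (hn : 6 ≤ n) : NoNd ((18 : ℕ) : ℤ) ((19 : ℕ) : ℤ) n 3 2
    (BlkD.inB (fun _ => 0)
      (fun _ => 19)) :=
  BlkD.part_sound (d := d18_19_3_2) dk18_19_3_2 hn (by decide) (tr := t18_19_3_2_1)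
    (by decide +kernel) rfl rfl rfl rfl

lemma pr18_19_3_2 {n : ℕ} (hn : 6 ≤ n) : NoPr ((18 : ℕ) : ℤ) ((19 : ℕ) : ℤ) n 3 2 :=
  BlkD.of_root (q := 4) (by decide) hn (n18_19_3_2_1 hn)

/-- the numbers of the pair `(3, 3)`, `R = 18`, `H = 19` -/
def d18_19_3_3 : BlkD.Pd :=
  ⟨18, 19, 4, 3, 3, 10, 3, 1, 4, 1, 8, 0, 4, 1, 8, 0, [0, 8, 16, 22, 26, 30, 34, 38, 42, 46, 50],
    [0, 8, 16, 22, 26, 30, 34, 38, 42, 46, 50], [⟨1, 1, 1, 4, 8, [0, 4], [0, 4]⟩, ⟨1, 1, 1, 6, 12,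
    [0, 6], [0, 6]⟩, ⟨1, 1, 1, 6, 12, [0, 6], [0, 6]⟩, ⟨1, 1, 1, 8, 16, [0, 8], [0, 8]⟩]⟩

lemma dk18_19_3_3 : BlkD.pairOk d18_19_3_3 = true := by decide +kernel

/-- the certificates of the part 1 of the pair `(3, 3)` -/
def t18_19_3_3_1 : BlkD.Tr :=
  .S 0 3 (.S 2 3 (.S 0 1 (.S 0 0 (.L 4 4 [4, 4, 4, 5] [] [] 100000 40000 40000 500000 0 0 100000 0
    0 0 20000) (.S 1 18 (.S 1 9 (.S 1 4 (.S 1 2 (.L 4 4 [4, 4, 4, 5] [] [] 100000 21759 21758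
    722222 0 0 12500 77778 12500 22222 25000) (.S 1 3 (.S 2 1 (.S 2 0 (.L 4 4 [4, 4, 4, 5] [36, 28,
    20, 12, 0, 0] [] 100000 38096 38096 400000 0 0 50000 100000 0 0 21429) (.S 3 14 (.S 3 7 (.S 3 3
    (.L 4 4 [4, 4, 4, 5] [36, 28, 20, 12, 0, 0] [] 100000 17648 17648 756471 196 14314 14510 23529
    28627 18431 28627) (.S 3 5 (.S 3 4 (.S 4 3 (.S 4 1 (.L 4 4 [4, 4, 4, 5] [20, 12, 0, 0, 0, 0]
    [50, 44, 36, 28, 20, 0] 100000 25000 25000 700000 0 0 0 100000 25000 0 25000) (.L 4 4 [4, 4, 4,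
    5] [36, 28, 20, 12, 0, 0] [50, 44, 36, 28, 20, 0] 100000 25000 25000 700000 0 0 100000 0 0
    25000 25000)) (.E 2)) (.E 1)) (.E 1))) (.E 1)) (.E 1))) (.L 4 4 [4, 4, 4, 5] [36, 28, 20, 12,
    0, 0] [] 100000 15151 15150 786366 4545 0 21212 33333 27273 27273 27273)) (.S 2 1 (.S 2 0 (.L 4
    4 [4, 4, 4, 5] [50, 44, 36, 28, 20, 0] [] 100000 33333 33332 500000 0 0 0 100000 0 0 25000) (.S
    3 13 (.S 3 6 (.S 3 3 (.S 3 1 (.L 4 4 [4, 4, 4, 5] [50, 44, 36, 28, 20, 0] [] 100000 25000 25000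
    625000 0 0 75000 0 25000 0 25000) (.S 3 2 (.L 4 4 [4, 4, 4, 5] [50, 44, 36, 28, 20, 0] [22, 14,
    6, 0, 0, 0] 100000 20833 20832 725000 0 0 75000 12500 25000 12500 25000) (.S 4 4 (.S 4 2 (.S 4
    1 (.E 2) (.S 5 3 (.S 5 1 (.L 4 4 [4, 4, 4, 5] [36, 28, 20, 0, 0, 0] [20, 12, 0, 0, 0, 0] 100000
    25000 25000 700000 0 0 100000 0 0 25000 25000) (.L 4 4 [4, 4, 4, 5] [36, 28, 20, 0, 0, 0] [36,
    28, 20, 12, 0, 0] 100000 25000 25000 700000 0 0 0 100000 25000 0 25000)) (.E 2))) (.L 4 4 [4,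
    4, 4, 5] [50, 44, 36, 28, 20, 0] [36, 28, 20, 12, 0, 0] 100000 35417 35417 600000 0 0 100000
    50000 0 18750 18750)) (.E 2)))) (.L 4 4 [4, 4, 4, 5] [50, 44, 36, 28, 20, 0] [] 100000 47619
    47618 600000 0 0 100000 100000 0 0 14286)) (.E 1)) (.E 1))) (.S 2 2 (.S 3 12 (.S 3 6 (.S 3 3
    (.S 3 1 (.L 4 4 [4, 4, 4, 5] [50, 44, 36, 28, 20, 0] [] 100000 20833 20832 725000 0 0 75000
    12500 25000 12500 25000) (.S 3 2 (.S 4 4 (.S 4 2 (.S 4 1 (.E 2) (.S 5 2 (.S 5 1 (.L 4 4 [4, 4,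
    4, 5] [36, 28, 20, 0, 0, 0] [18, 10, 0, 0, 0, 0] 100000 25000 25000 700000 0 0 100000 0 0 25000
    25000) (.L 4 4 [4, 4, 4, 5] [36, 28, 20, 0, 0, 0] [26, 18, 10, 0, 0, 0] 100000 25000 25000
    700000 0 0 0 100000 25000 0 25000)) (.E 2))) (.L 4 4 [4, 4, 4, 5] [50, 44, 36, 28, 20, 0] [26,
    18, 10, 0, 0, 0] 100000 35417 35417 600000 0 0 100000 50000 0 18750 18750)) (.E 2)) (.L 4 4 [4,
    4, 4, 5] [50, 44, 36, 28, 20, 0] [42, 34, 26, 18, 0, 0] 100000 52381 38094 428570 0 0 114286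
    114286 0 0 14286))) (.E 1)) (.E 1)) (.E 1)) (.L 4 4 [4, 4, 4, 5] [50, 44, 36, 28, 20, 0] []
    100000 25000 25000 700000 0 0 100000 0 0 25000 25000))))) (.E 0)) (.E 0)) (.E 0))) (.S 0 2 (.S
    1 17 (.S 1 8 (.S 1 4 (.S 1 2 (.S 1 1 (.L 4 4 [4, 4, 4, 5] [] [] 100000 16667 16667 750000 0 0
    25000 50000 25000 25000 25000) (.S 2 1 (.S 2 0 (.L 4 4 [4, 4, 4, 5] [26, 18, 10, 0, 0, 0] []
    100000 38096 38096 400000 0 0 50000 100000 0 0 21429) (.S 3 14 (.S 3 7 (.S 3 3 (.L 4 4 [4, 4,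
    4, 5] [26, 18, 10, 0, 0, 0] [] 100000 17628 17627 756672 165 14333 14498 23558 28666 18451
    28666) (.S 3 5 (.S 3 4 (.S 4 2 (.S 4 1 (.L 4 4 [4, 4, 4, 5] [18, 10, 0, 0, 0, 0] [50, 44, 36,
    28, 20, 0] 100000 25000 25000 700000 0 0 0 100000 25000 0 25000) (.L 4 4 [4, 4, 4, 5] [26, 18,
    10, 0, 0, 0] [50, 44, 36, 28, 20, 0] 100000 25000 25000 700000 0 0 100000 0 0 25000 25000)) (.E
    2)) (.E 1)) (.E 1))) (.E 1)) (.E 1))) (.L 4 4 [4, 4, 4, 5] [26, 18, 10, 0, 0, 0] [] 100000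
    14815 14815 788890 5556 0 19444 36111 27778 27778 27778))) (.L 4 4 [4, 4, 4, 5] [] [] 100000
    35715 35715 600003 0 0 100000 50000 0 16667 19048)) (.E 0)) (.E 0)) (.E 0)) (.L 4 4 [4, 4, 4,
    5] [] [] 100000 13889 13888 800002 0 0 0 50000 30556 27778 30556))) (.E 1)) (.E 0)

lemma n18_19_3_3_1 {n : ℕ} (hn : 6 ≤ n) : NoNd ((18 : ℕ) : ℤ) ((19 : ℕ) : ℤ) n 3 3
    (BlkD.inB (fun _ => 0)
      (fun _ => 19)) :=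
  BlkD.part_sound (d := d18_19_3_3) dk18_19_3_3 hn (by decide) (tr := t18_19_3_3_1)
    (by decide +kernel) rfl rfl rfl rfl

lemma pr18_19_3_3 {n : ℕ} (hn : 6 ≤ n) : NoPr ((18 : ℕ) : ℤ) ((19 : ℕ) : ℤ) n 3 3 :=
  BlkD.of_root (q := 4) (by decide) hn (n18_19_3_3_1 hn)

/-- the numbers of the pair `(4, 0)`, `R = 18`, `H = 19` -/
def d18_19_4_0 : BlkD.Pd :=
  ⟨18, 19, 4, 4, 0, 12, 0, 1, 0, 4, 4, 0, 0, 4, 4, 0, [0, 4, 8, 12, 16, 20, 24, 28, 32, 36, 40, 44,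
    48], [0, 4, 8, 12, 16, 20, 24, 28, 32, 36, 40, 44, 48], [⟨1, 1, 1, 4, 8, [0, 4], [0, 4]⟩]⟩

lemma dk18_19_4_0 : BlkD.pairOk d18_19_4_0 = true := by decide +kernel

/-- the certificates of the part 1 of the pair `(4, 0)` -/
def t18_19_4_0_1 : BlkD.Tr :=
  .S 0 4 (.S 2 0 (.L 3 3 [4] [] [] 100000 0 0 520000 20000 0 40000 60000 0 0 0) (.E 1)) (.E 0)

lemma n18_19_4_0_1 {n : ℕ} (hn : 6 ≤ n) : NoNd ((18 : ℕ) : ℤ) ((19 : ℕ) : ℤ) n 4 0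
    (BlkD.inB (fun _ => 0)
      (fun _ => 19)) :=
  BlkD.part_sound (d := d18_19_4_0) dk18_19_4_0 hn (by decide) (tr := t18_19_4_0_1)
    (by decide +kernel) rfl rfl rfl rfl

lemma pr18_19_4_0 {n : ℕ} (hn : 6 ≤ n) : NoPr ((18 : ℕ) : ℤ) ((19 : ℕ) : ℤ) n 4 0 :=
  BlkD.of_root (q := 4) (by decide) hn (n18_19_4_0_1 hn)

/-- the numbers of the pair `(4, 1)`, `R = 18`, `H = 19` -/
def d18_19_4_1 : BlkD.Pd :=
  ⟨18, 19, 4, 4, 1, 11, 1, 1, 0, 4, 6, 0, 0, 4, 4, 0, [0, 6, 12, 18, 24, 30, 36, 42, 44, 44, 44,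
    44], [0, 4, 8, 12, 16, 20, 24, 28, 32, 36, 40, 44], [⟨1, 1, 1, 4, 8, [0, 4], [0, 4]⟩, ⟨1, 1, 1,
    4, 10, [0, 6], [0, 4]⟩]⟩

lemma dk18_19_4_1 : BlkD.pairOk d18_19_4_1 = true := by decide +kernel

/-- the certificates of the part 1 of the pair `(4, 1)` -/
def t18_19_4_1_1 : BlkD.Tr :=
  .S 0 4 (.S 2 1 (.L 3 4 [4, 4] [] [] 100000 0 0 683333 16667 0 50000 0 0 0 0) (.E 1)) (.E 0)

lemma n18_19_4_1_1 {n : ℕ} (hn : 6 ≤ n) : NoNd ((18 : ℕ) : ℤ) ((19 : ℕ) : ℤ) n 4 1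
    (BlkD.inB (fun _ => 0)
      (fun _ => 19)) :=
  BlkD.part_sound (d := d18_19_4_1) dk18_19_4_1 hn (by decide) (tr := t18_19_4_1_1)
    (by decide +kernel) rfl rfl rfl rfl

lemma pr18_19_4_1 {n : ℕ} (hn : 6 ≤ n) : NoPr ((18 : ℕ) : ℤ) ((19 : ℕ) : ℤ) n 4 1 :=
  BlkD.of_root (q := 4) (by decide) hn (n18_19_4_1_1 hn)

/-- the numbers of the pair `(4, 2)`, `R = 18`, `H = 19` -/
def d18_19_4_2 : BlkD.Pd :=
  ⟨18, 19, 4, 4, 2, 10, 2, 1, 2, 2, 8, 0, 0, 4, 6, 0, [0, 8, 16, 24, 28, 30, 32, 34, 36, 38, 40],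
    [0, 6, 12, 18, 24, 30, 36, 40, 40, 40, 40], [⟨1, 1, 1, 4, 8, [0, 4], [0, 4]⟩, ⟨1, 1, 1, 4, 10,
    [0, 6], [0, 4]⟩, ⟨1, 1, 1, 6, 14, [0, 8], [0, 6]⟩]⟩

lemma dk18_19_4_2 : BlkD.pairOk d18_19_4_2 = true := by decide +kernel

/-- the certificates of the part 1 of the pair `(4, 2)` -/
def t18_19_4_2_1 : BlkD.Tr :=
  .S 0 4 (.S 2 2 (.L 4 5 [4, 4, 4] [] [] 100000 1875 1875 787500 12500 0 75000 25000 16250 0 40000)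
    (.E 1)) (.E 0)

lemma n18_19_4_2_1 {n : ℕ} (hn : 6 ≤ n) : NoNd ((18 : ℕ) : ℤ) ((19 : ℕ) : ℤ) n 4 2
    (BlkD.inB (fun _ => 0)
      (fun _ => 19)) :=
  BlkD.part_sound (d := d18_19_4_2) dk18_19_4_2 hn (by decide) (tr := t18_19_4_2_1)
    (by decide +kernel) rfl rfl rfl rfl

lemma pr18_19_4_2 {n : ℕ} (hn : 6 ≤ n) : NoPr ((18 : ℕ) : ℤ) ((19 : ℕ) : ℤ) n 4 2 :=
  BlkD.of_root (q := 4) (by decide) hn (n18_19_4_2_1 hn)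

/-- the numbers of the pair `(4, 3)`, `R = 18`, `H = 19` -/
def d18_19_4_3 : BlkD.Pd :=
  ⟨18, 19, 4, 4, 3, 9, 3, 1, 2, 2, 8, 0, 4, 1, 8, 0, [0, 8, 16, 24, 26, 28, 30, 32, 34, 36], [0, 8,
    16, 21, 25, 29, 33, 37, 41, 45], [⟨1, 1, 1, 4, 8, [0, 4], [0, 4]⟩, ⟨1, 1, 1, 6, 12, [0, 6], [0,
    6]⟩, ⟨1, 1, 1, 6, 14, [0, 8], [0, 6]⟩, ⟨1, 1, 1, 6, 16, [0, 8], [0, 8]⟩]⟩

lemma dk18_19_4_3 : BlkD.pairOk d18_19_4_3 = true := by decide +kernel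

/-- the certificates of the part 1 of the pair `(4, 3)` -/
def t18_19_4_3_1 : BlkD.Tr :=
  .S 0 4 (.S 2 3 (.L 4 5 [4, 4, 4, 5] [] [] 100000 19825 19825 897750 2252 0 95497 73907 19073
    21457 18013) (.E 1)) (.E 0)

lemma n18_19_4_3_1 {n : ℕ} (hn : 6 ≤ n) : NoNd ((18 : ℕ) : ℤ) ((19 : ℕ) : ℤ) n 4 3
    (BlkD.inB (fun _ => 0)
      (fun _ => 19)) :=
  BlkD.part_sound (d := d18_19_4_3) dk18_19_4_3 hn (by decide) (tr := t18_19_4_3_1)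
    (by decide +kernel) rfl rfl rfl rfl

lemma pr18_19_4_3 {n : ℕ} (hn : 6 ≤ n) : NoPr ((18 : ℕ) : ℤ) ((19 : ℕ) : ℤ) n 4 3 :=
  BlkD.of_root (q := 4) (by decide) hn (n18_19_4_3_1 hn)

/-- the numbers of the pair `(5, 0)`, `R = 18`, `H = 19` -/
def d18_19_5_0 : BlkD.Pd :=
  ⟨18, 19, 4, 5, 0, 11, 0, 1, 0, 4, 4, 0, 0, 4, 4, 0, [0, 4, 8, 12, 16, 20, 24, 28, 32, 36, 40,
    44], [0, 4, 8, 12, 16, 20, 24, 28, 32, 36, 40, 44], [⟨1, 1, 1, 4, 8, [0, 4], [0, 4]⟩]⟩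

lemma dk18_19_5_0 : BlkD.pairOk d18_19_5_0 = true := by decide +kernel

/-- the certificates of the part 1 of the pair `(5, 0)` -/
def t18_19_5_0_1 : BlkD.Tr :=
  .S 0 5 (.S 2 0 (.L 6 6 [4] [] [] 100000 0 0 633335 33333 0 50000 33333 0 0 0) (.E 1)) (.E 0)

lemma n18_19_5_0_1 {n : ℕ} (hn : 6 ≤ n) : NoNd ((18 : ℕ) : ℤ) ((19 : ℕ) : ℤ) n 5 0
    (BlkD.inB (fun _ => 0)
      (fun _ => 19)) :=
  BlkD.part_sound (d := d18_19_5_0) dk18_19_5_0 hn (by decide) (tr := t18_19_5_0_1)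
    (by decide +kernel) rfl rfl rfl rfl

lemma pr18_19_5_0 {n : ℕ} (hn : 6 ≤ n) : NoPr ((18 : ℕ) : ℤ) ((19 : ℕ) : ℤ) n 5 0 :=
  BlkD.of_root (q := 4) (by decide) hn (n18_19_5_0_1 hn)

/-- the numbers of the pair `(5, 1)`, `R = 18`, `H = 19` -/
def d18_19_5_1 : BlkD.Pd :=
  ⟨18, 19, 4, 5, 1, 10, 1, 1, 2, 2, 6, 0, 0, 4, 4, 0, [0, 6, 12, 18, 24, 30, 32, 34, 36, 38, 40],
    [0, 4, 8, 12, 16, 20, 24, 28, 32, 36, 40], [⟨1, 1, 1, 4, 8, [0, 4], [0, 4]⟩, ⟨1, 1, 1, 4, 10,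
    [0, 6], [0, 4]⟩]⟩

lemma dk18_19_5_1 : BlkD.pairOk d18_19_5_1 = true := by decide +kernel

/-- the certificates of the part 1 of the pair `(5, 1)` -/
def t18_19_5_1_1 : BlkD.Tr :=
  .S 0 5 (.S 2 1 (.L 6 6 [4, 4] [] [] 100000 0 0 793750 31250 0 43750 0 0 0 0) (.E 1)) (.E 0)

lemma n18_19_5_1_1 {n : ℕ} (hn : 6 ≤ n) : NoNd ((18 : ℕ) : ℤ) ((19 : ℕ) : ℤ) n 5 1
    (BlkD.inB (fun _ => 0)
      (fun _ => 19)) :=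
  BlkD.part_sound (d := d18_19_5_1) dk18_19_5_1 hn (by decide) (tr := t18_19_5_1_1)
    (by decide +kernel) rfl rfl rfl rfl

lemma pr18_19_5_1 {n : ℕ} (hn : 6 ≤ n) : NoPr ((18 : ℕ) : ℤ) ((19 : ℕ) : ℤ) n 5 1 :=
  BlkD.of_root (q := 4) (by decide) hn (n18_19_5_1_1 hn)

/-- the numbers of the pair `(5, 2)`, `R = 18`, `H = 19` -/
def d18_19_5_2 : BlkD.Pd :=
  ⟨18, 19, 4, 5, 2, 9, 2, 1, 2, 2, 8, 0, 0, 4, 6, 0, [0, 8, 16, 24, 26, 28, 30, 32, 34, 36], [0, 6,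
    12, 18, 24, 30, 36, 36, 36, 36], [⟨1, 1, 1, 4, 8, [0, 4], [0, 4]⟩, ⟨1, 1, 1, 4, 10, [0, 6], [0,
    4]⟩, ⟨1, 1, 1, 6, 14, [0, 8], [0, 6]⟩]⟩

lemma dk18_19_5_2 : BlkD.pairOk d18_19_5_2 = true := by decide +kernel

/-- the certificates of the part 1 of the pair `(5, 2)` -/
def t18_19_5_2_1 : BlkD.Tr :=
  .S 0 5 (.S 2 2 (.L 6 6 [4, 4, 4] [] [] 100000 0 0 944447 11111 11111 72222 27778 16667 27778
    27778) (.E 1)) (.E 0)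

lemma n18_19_5_2_1 {n : ℕ} (hn : 6 ≤ n) : NoNd ((18 : ℕ) : ℤ) ((19 : ℕ) : ℤ) n 5 2
    (BlkD.inB (fun _ => 0)
      (fun _ => 19)) :=
  BlkD.part_sound (d := d18_19_5_2) dk18_19_5_2 hn (by decide) (tr := t18_19_5_2_1)
    (by decide +kernel) rfl rfl rfl rfl

lemma pr18_19_5_2 {n : ℕ} (hn : 6 ≤ n) : NoPr ((18 : ℕ) : ℤ) ((19 : ℕ) : ℤ) n 5 2 :=
  BlkD.of_root (q := 4) (by decide) hn (n18_19_5_2_1 hn)

/-- the numbers of the pair `(5, 3)`, `R = 18`, `H = 19` -/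
def d18_19_5_3 : BlkD.Pd :=
  ⟨18, 19, 4, 5, 3, 8, 3, 2, 3, 2, 10, 0, 4, 1, 8, 0, [0, 10, 20, 25, 28, 31, 34, 37, 40], [0, 8,
    16, 20, 24, 28, 32, 36, 40], [⟨1, 1, 1, 4, 8, [0, 4], [0, 4]⟩, ⟨1, 1, 1, 6, 12, [0, 6], [0,
    6]⟩, ⟨1, 1, 1, 6, 14, [0, 8], [0, 6]⟩, ⟨2, 1, 1, 6, 22, [0, 10, 14], [0, 8]⟩]⟩

lemma dk18_19_5_3 : BlkD.pairOk d18_19_5_3 = true := by decide +kernel

/-- the certificates of the part 1 of the pair `(5, 3)` -/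
def t18_19_5_3_1 : BlkD.Tr :=
  .S 0 1 (.L 6 6 [4, 4, 4, 4] [] [] 100000 63415 63415 785365 65854 0 82927 34146 0 4878 19512) (.S
    1 17 (.S 1 8 (.S 1 4 (.L 6 6 [4, 4, 4, 4] [] [] 100000 25397 25397 990480 11111 0 11111 65079 0
    23810 33333) (.S 1 6 (.S 1 5 (.S 2 1 (.S 2 0 (.L 6 6 [4, 4, 4, 4] [79, 75, 70, 60, 50, 40] []
    100000 50000 49999 700000 0 0 100000 100000 0 0 16667) (.S 3 11 (.S 3 5 (.S 3 2 (.L 6 6 [4, 4,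
    4, 4] [79, 75, 70, 60, 50, 40] [] 100000 30022 30021 945697 23841 6623 33775 23841 0 9934
    27152) (.S 3 4 (.S 3 3 (.L 4 5 [4, 4, 4, 5] [79, 75, 70, 60, 50, 40] [38, 30, 22, 12, 0, 0]
    100000 28986 28986 969566 26087 0 39130 26087 0 26087 21739) (.L 6 8 [4, 5, 4, 3] [79, 75, 70,
    60, 50, 40] [50, 46, 38, 30, 20, 0] 100000 40964 40964 928918 30120 0 60241 60241 0 53012
    6024)) (.E 1))) (.E 1)) (.E 1))) (.S 2 2 (.S 3 10 (.S 3 5 (.S 3 2 (.L 4 5 [4, 4, 4, 5] [79, 75,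
    70, 60, 50, 40] [] 100000 28986 28986 969566 26087 0 39130 26087 0 26087 21739) (.L 4 5 [4, 4,
    4, 5] [79, 75, 70, 60, 50, 40] [] 100000 33333 33332 960000 0 0 80000 80000 0 20000 20000)) (.E
    1)) (.E 1)) (.L 4 5 [4, 4, 4, 5] [79, 75, 70, 60, 50, 40] [] 100000 31579 31579 942106 31579 0
    47368 0 0 31579 26316))) (.S 2 1 (.S 2 0 (.L 4 5 [4, 4, 4, 5] [96, 93, 89, 84, 74, 64] []
    100000 50000 49999 700000 0 0 100000 100000 0 0 16667) (.S 3 10 (.S 3 5 (.S 3 2 (.L 4 5 [4, 4,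
    4, 5] [96, 93, 89, 84, 74, 64] [] 100000 27834 27834 970750 22368 5263 56883 22368 8603 7895
    25000) (.L 4 5 [4, 4, 4, 5] [96, 93, 89, 84, 74, 64] [] 100000 66146 66146 831250 46875 0 90625
    50000 9375 0 8854)) (.E 1)) (.E 1))) (.L 4 5 [4, 4, 4, 5] [96, 93, 89, 84, 74, 64] [] 100000
    38889 38889 933335 33333 0 66667 33333 0 16667 16667))) (.L 4 5 [4, 4, 4, 5] [] [] 100000 31633
    22449 836736 0 0 109184 35714 40816 14286 16667))) (.E 0)) (.E 0))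

lemma n18_19_5_3_1 {n : ℕ} (hn : 6 ≤ n) : NoNd ((18 : ℕ) : ℤ) ((19 : ℕ) : ℤ) n 5 3
    (BlkD.inB (fun _ => 0)
      (BlkD.upd (BlkD.upd (BlkD.upd (fun _ => 19) 0 5) 2 3) 0 2)) :=
  BlkD.part_sound (d := d18_19_5_3) dk18_19_5_3 hn (by decide) (tr := t18_19_5_3_1)
    (by decide +kernel) rfl rfl rfl rfl

/-- the certificates of the part 2 of the pair `(5, 3)` -/
def t18_19_5_3_2 : BlkD.Tr :=
  .S 1 16 (.S 1 8 (.S 1 4 (.S 1 2 (.L 4 5 [4, 4, 4, 5] [] [] 100000 25000 25000 900000 12500 0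
    12500 75000 0 25000 25000) (.S 1 3 (.L 4 5 [4, 4, 4, 5] [54, 44, 34, 24, 0, 0] [] 100000 23661
    23661 991519 15625 0 34375 61607 6250 22768 25000) (.S 2 1 (.S 2 0 (.L 4 5 [4, 4, 4, 5] [71,
    66, 56, 46, 36, 0] [] 100000 41667 41667 750000 0 0 50000 100000 0 0 18750) (.S 3 11 (.S 3 5
    (.S 3 2 (.L 4 5 [4, 4, 4, 5] [71, 66, 56, 46, 36, 0] [] 100000 27135 27135 954443 14979 15599
    48864 28719 6715 11880 25000) (.S 3 4 (.S 3 3 (.S 4 4 (.S 4 2 (.L 4 5 [4, 4, 4, 5] [56, 46, 36,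
    0, 0, 0] [38, 30, 22, 12, 0, 0] 100000 13280 13280 1004066 17886 8130 39837 34959 35772 26829
    24390) (.L 4 5 [4, 4, 4, 5] [71, 66, 56, 46, 36, 0] [38, 30, 22, 12, 0, 0] 100000 50000 49999
    800000 0 0 100000 100000 0 0 16667)) (.E 2)) (.L 6 8 [4, 5, 4, 3] [71, 66, 56, 46, 36, 0] [50,
    46, 38, 30, 20, 0] 100000 28149 28149 977776 18519 0 55556 74074 7407 57778 12593)) (.E 1)))
    (.E 1)) (.E 1))) (.S 2 2 (.S 3 10 (.S 3 5 (.S 3 2 (.S 3 1 (.L 6 8 [4, 5, 4, 3] [71, 66, 56, 46,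
    36, 0] [] 100000 21774 21773 997581 27419 0 42742 27419 9677 25000 25000) (.S 4 4 (.S 4 2 (.L 6
    8 [4, 5, 4, 3] [56, 46, 36, 0, 0, 0] [28, 20, 10, 0, 0, 0] 100000 10256 10255 1030770 23077 0
    34615 46154 46154 30769 23077) (.L 6 8 [4, 5, 4, 3] [71, 66, 56, 46, 36, 0] [28, 20, 10, 0, 0,
    0] 100000 50000 49999 800000 0 0 100000 100000 0 0 16667)) (.E 2))) (.L 6 8 [4, 5, 4, 3] [71,
    66, 56, 46, 36, 0] [] 100000 23611 23611 979168 8333 0 70833 62500 12500 50000 16667)) (.E 1))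
    (.E 1)) (.L 6 8 [4, 5, 4, 3] [71, 66, 56, 46, 36, 0] [] 100000 19951 19950 1004381 25547 0
    59854 18978 16788 29927 23358))))) (.L 6 8 [4, 5, 4, 3] [] [] 100000 27473 27473 952749 0 0
    82418 64835 32967 14286 17582)) (.E 0)) (.E 0)

lemma n18_19_5_3_2 {n : ℕ} (hn : 6 ≤ n) : NoNd ((18 : ℕ) : ℤ) ((19 : ℕ) : ℤ) n 5 3
    (BlkD.inB (BlkD.upd (fun _ => 0) 0 3)
      (BlkD.upd (BlkD.upd (BlkD.upd (BlkD.upd (fun _ => 19) 0 5) 2 3) 0 4) 0 3)) :=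
  BlkD.part_sound (d := d18_19_5_3) dk18_19_5_3 hn (by decide) (tr := t18_19_5_3_2)
    (by decide +kernel) rfl rfl rfl rfl

/-- the certificates of the part 3 of the pair `(5, 3)` -/
def t18_19_5_3_3 : BlkD.Tr :=
  .S 1 15 (.S 1 7 (.S 1 3 (.S 1 1 (.L 6 8 [4, 5, 4, 3] [] [] 100000 25000 25000 900000 25000 0
    25000 75000 0 25000 25000) (.S 1 2 (.L 6 8 [4, 5, 4, 3] [38, 28, 18, 0, 0, 0] [] 100000 24206
    24205 971432 28571 0 64286 35714 5952 21429 25000) (.S 2 1 (.L 4 5 [4, 4, 4, 5] [60, 50, 40,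
    30, 0, 0] [] 100000 36865 36864 948346 0 25828 74172 62914 9934 15894 15894) (.L 4 5 [4, 4, 4,
    5] [60, 50, 40, 30, 0, 0] [] 100000 22222 22221 993336 13333 0 80000 40000 15556 46667
    17778)))) (.L 4 5 [4, 4, 4, 5] [] [] 100000 16667 16667 950000 0 0 75000 50000 66667 16667
    16667)) (.E 0)) (.E 0)

lemma n18_19_5_3_3 {n : ℕ} (hn : 6 ≤ n) : NoNd ((18 : ℕ) : ℤ) ((19 : ℕ) : ℤ) n 5 3
    (BlkD.inB (BlkD.upd (BlkD.upd (fun _ => 0) 0 3) 0 4)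
      (BlkD.upd (BlkD.upd (BlkD.upd (fun _ => 19) 0 5) 2 3) 0 4)) :=
  BlkD.part_sound (d := d18_19_5_3) dk18_19_5_3 hn (by decide) (tr := t18_19_5_3_3)
    (by decide +kernel) rfl rfl rfl rfl

/-- the certificates of the part 4 of the pair `(5, 3)` -/
def t18_19_5_3_4 : BlkD.Tr :=
  .L 4 5 [4, 4, 4, 5] [] [] 100000 9260 9260 1000003 0 0 50794 50000 50794 21429 25397

lemma n18_19_5_3_4 {n : ℕ} (hn : 6 ≤ n) : NoNd ((18 : ℕ) : ℤ) ((19 : ℕ) : ℤ) n 5 3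
    (BlkD.inB (BlkD.upd (BlkD.upd (fun _ => 0) 0 3) 0 5)
      (BlkD.upd (BlkD.upd (fun _ => 19) 0 5) 2 3)) :=
  BlkD.part_sound (d := d18_19_5_3) dk18_19_5_3 hn (by decide) (tr := t18_19_5_3_4)
    (by decide +kernel) rfl rfl rfl rfl

/-- the certificates of the part 5 of the pair `(5, 3)` -/
def t18_19_5_3_5 : BlkD.Tr :=
  .E 1

lemma n18_19_5_3_5 {n : ℕ} (hn : 6 ≤ n) : NoNd ((18 : ℕ) : ℤ) ((19 : ℕ) : ℤ) n 5 3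
    (BlkD.inB (BlkD.upd (fun _ => 0) 2 4)
      (BlkD.upd (fun _ => 19) 0 5)) :=
  BlkD.part_sound (d := d18_19_5_3) dk18_19_5_3 hn (by decide) (tr := t18_19_5_3_5)
    (by decide +kernel) rfl rfl rfl rfl

/-- the certificates of the part 6 of the pair `(5, 3)` -/
def t18_19_5_3_6 : BlkD.Tr :=
  .E 0

lemma n18_19_5_3_6 {n : ℕ} (hn : 6 ≤ n) : NoNd ((18 : ℕ) : ℤ) ((19 : ℕ) : ℤ) n 5 3
    (BlkD.inB (BlkD.upd (fun _ => 0) 0 6)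
      (fun _ => 19)) :=
  BlkD.part_sound (d := d18_19_5_3) dk18_19_5_3 hn (by decide) (tr := t18_19_5_3_6)
    (by decide +kernel) rfl rfl rfl rfl

lemma pr18_19_5_3 {n : ℕ} (hn : 6 ≤ n) : NoPr ((18 : ℕ) : ℤ) ((19 : ℕ) : ℤ) n 5 3 :=
  BlkD.of_root (q := 4) (by decide) hn (BlkD.sp 0 5 (BlkD.sp 2 3 (BlkD.sp 0 2 (n18_19_5_3_1 hn)
    (BlkD.sp 0 4 (BlkD.sp 0 3 (n18_19_5_3_2 hn)
    (n18_19_5_3_3 hn))
    (n18_19_5_3_4 hn)))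
    (n18_19_5_3_5 hn))
    (n18_19_5_3_6 hn))

/-- the numbers of the pair `(5, 4)`, `R = 18`, `H = 19` -/
def d18_19_5_4 : BlkD.Pd :=
  ⟨18, 19, 4, 5, 4, 7, 3, 2, 1, 3, 10, 0, 2, 2, 8, 0, [0, 10, 20, 24, 25, 26, 27, 28], [0, 8, 16,
    20, 22, 24, 26, 28], [⟨1, 1, 1, 4, 8, [0, 4], [0, 4]⟩, ⟨1, 1, 1, 4, 12, [0, 6], [0, 6]⟩, ⟨1, 1,
    1, 4, 16, [0, 8], [0, 8]⟩, ⟨2, 1, 1, 4, 22, [0, 10, 14], [0, 8]⟩]⟩

lemma dk18_19_5_4 : BlkD.pairOk d18_19_5_4 = true := by decide +kernel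

/-- the certificates of the part 1 of the pair `(5, 4)` -/
def t18_19_5_4_1 : BlkD.Tr :=
  .S 0 1 (.L 5 5 [4, 4, 4, 5, 18] [] [] 100000 100000 100000 800000 100000 0 100000 100000 0 0 0)
    (.S 1 17 (.S 1 8 (.S 1 4 (.S 1 2 (.L 5 5 [4, 4, 4, 5, 18] [] [] 100000 29546 29546 1000000 0 0
    0 50000 0 13636 13636) (.S 1 3 (.L 5 5 [4, 4, 4, 5, 18] [48, 38, 28, 18, 0, 0] [] 100000 26544
    26544 1072223 9259 9259 13889 50000 0 20370 35185) (.S 2 2 (.S 2 1 (.L 5 5 [4, 4, 4, 5, 18]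
    [66, 58, 48, 38, 28, 0] [] 100000 60418 60418 945311 32813 45313 65625 79687 0 1562 14062) (.L
    5 5 [4, 4, 4, 5, 18] [66, 58, 48, 38, 28, 0] [] 100000 26698 26698 1119121 20221 0 58452 40442
    3002 16904 19115)) (.L 5 5 [4, 4, 4, 5, 18] [66, 58, 48, 38, 28, 0] [] 100000 34524 34524
    1050003 25000 0 75000 50000 0 21429 25000)))) (.S 1 6 (.S 1 5 (.S 2 2 (.S 2 1 (.L 5 5 [4, 4, 4,
    5, 18] [82, 78, 70, 60, 50, 40] [] 100000 60685 60685 984615 38462 30769 69231 53846 0 0 12821)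
    (.S 3 10 (.S 3 5 (.S 3 2 (.L 5 5 [4, 4, 4, 5, 18] [82, 78, 70, 60, 50, 40] [] 100000 31792
    31792 1059011 14514 14354 42265 20335 2233 2392 27751) (.S 3 4 (.S 3 3 (.L 4 4 [4, 4, 5, 6, 18]
    [82, 78, 70, 60, 50, 40] [44, 36, 28, 18, 0, 0] 100000 53181 53181 1030153 26718 20992 74427
    62977 0 11450 24427) (.L 4 4 [4, 4, 5, 6, 18] [82, 78, 70, 60, 50, 40] [62, 54, 46, 38, 28, 0]
    100000 40000 40000 1060000 40000 0 60000 40000 0 40000 20000)) (.L 4 4 [4, 4, 5, 6, 18] [82,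
    78, 70, 60, 50, 40] [78, 74, 66, 58, 50, 40] 100000 33334 33334 1000000 0 0 100000 100000 0
    33333 0))) (.E 1)) (.E 1))) (.L 4 4 [4, 4, 5, 6, 18] [82, 78, 70, 60, 50, 40] [] 100000 41587
    41587 1066669 33333 0 66667 33333 0 14286 30476)) (.S 2 2 (.L 4 4 [4, 4, 5, 6, 18] [97, 96, 92,
    84, 74, 64] [] 100000 46528 46528 1059422 30072 10145 69928 50181 7428 3351 18750) (.L 4 4 [4,
    4, 5, 6, 18] [97, 96, 92, 84, 74, 64] [] 100000 38572 38572 1061434 27857 0 82857 44286 16429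
    6429 22143))) (.L 4 4 [4, 4, 5, 6, 18] [] [] 100000 28889 28889 1100000 0 0 100000 80000 15556
    13333 6667))) (.E 0)) (.E 0))

lemma n18_19_5_4_1 {n : ℕ} (hn : 6 ≤ n) : NoNd ((18 : ℕ) : ℤ) ((19 : ℕ) : ℤ) n 5 4
    (BlkD.inB (fun _ => 0)
      (BlkD.upd (BlkD.upd (BlkD.upd (fun _ => 19) 0 5) 2 4) 0 2)) :=
  BlkD.part_sound (d := d18_19_5_4) dk18_19_5_4 hn (by decide) (tr := t18_19_5_4_1)
    (by decide +kernel) rfl rfl rfl rfl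

/-- the certificates of the part 2 of the pair `(5, 4)` -/
def t18_19_5_4_2 : BlkD.Tr :=
  .S 1 2 (.L 4 4 [4, 4, 5, 6, 18] [] [] 100000 25000 25000 1075000 25000 0 25000 75000 0 25000
    50000) (.S 1 3 (.S 2 2 (.S 2 1 (.L 4 4 [4, 4, 5, 6, 18] [54, 44, 34, 24, 0, 0] [] 100000 52157
    52157 984857 20347 53155 68139 68770 4416 3785 24763) (.S 3 11 (.S 3 5 (.S 3 2 (.L 4 4 [4, 4,
    5, 6, 18] [54, 44, 34, 24, 0, 0] [] 100000 33334 33334 1000000 0 0 0 0 0 0 16667) (.S 3 4 (.S 3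
    3 (.L 4 4 [4, 4, 5, 6, 18] [54, 44, 34, 24, 0, 0] [44, 36, 28, 18, 0, 0] 100000 24679 24679
    1087019 15439 7719 53684 66667 8070 17895 38246) (.L 4 4 [4, 4, 5, 6, 18] [54, 44, 34, 24, 0,
    0] [62, 54, 46, 38, 28, 0] 100000 11112 11112 1147501 17500 0 74167 39167 19167 56667 28333))
    (.L 4 4 [4, 4, 5, 6, 18] [54, 44, 34, 24, 0, 0] [78, 74, 66, 58, 50, 40] 100000 26191 19048
    992859 7143 0 78571 107143 14286 0 14286))) (.E 1)) (.E 1))) (.L 4 4 [4, 4, 5, 6, 18] [54, 44,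
    34, 24, 0, 0] [] 100000 23810 23810 1100000 20000 0 60000 40000 8000 20571 32000)) (.S 2 2 (.S
    2 1 (.L 4 4 [4, 4, 5, 6, 18] [74, 66, 56, 46, 36, 0] [] 100000 36549 36549 1036607 8929 42679
    60179 61786 6429 4821 24286) (.S 3 10 (.S 3 5 (.S 3 2 (.L 4 4 [4, 4, 5, 6, 18] [74, 66, 56, 46,
    36, 0] [] 100000 30924 30924 1070282 16064 9237 49398 27711 4819 2410 33333) (.S 3 4 (.S 3 3
    (.L 4 4 [4, 4, 5, 6, 18] [74, 66, 56, 46, 36, 0] [44, 36, 28, 18, 0, 0] 100000 28096 28096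
    1110001 13333 16667 46667 70952 6667 15714 33333) (.L 7 8 [4, 5, 3, 3, 18] [74, 66, 56, 46, 36,
    0] [62, 54, 46, 38, 28, 0] 100000 25957 25957 1116394 26230 0 65574 78689 3279 18852 15574))
    (.L 7 8 [4, 5, 3, 3, 18] [74, 66, 56, 46, 36, 0] [78, 74, 66, 58, 50, 40] 100000 100000 0
    400000 0 0 200000 200000 0 0 0))) (.E 1)) (.E 1))) (.S 2 3 (.S 3 9 (.S 3 4 (.S 3 2 (.L 5 5 [4,
    4, 4, 5, 18] [74, 66, 56, 46, 36, 0] [] 100000 24524 24524 1125003 25000 0 50000 50000 10000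
    16429 25000) (.L 5 5 [4, 4, 4, 5, 18] [74, 66, 56, 46, 36, 0] [] 100000 38889 38889 1033334
    16667 0 83333 100000 0 0 16667)) (.E 1)) (.E 1)) (.L 5 5 [4, 4, 4, 5, 18] [74, 66, 56, 46, 36,
    0] [] 100000 18342 18342 1121532 19617 0 65072 58852 9091 40191 26794))))

lemma n18_19_5_4_2 {n : ℕ} (hn : 6 ≤ n) : NoNd ((18 : ℕ) : ℤ) ((19 : ℕ) : ℤ) n 5 4
    (BlkD.inB (BlkD.upd (fun _ => 0) 0 3)
      (BlkD.upd (BlkD.upd (BlkD.upd (BlkD.upd (BlkD.upd (BlkD.upd (BlkD.upd (fun _ => 19) 0 5) 2 4) 0 4) 0 3) 1 16) 1 8) 1 4)) :=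
  BlkD.part_sound (d := d18_19_5_4) dk18_19_5_4 hn (by decide) (tr := t18_19_5_4_2)
    (by decide +kernel) rfl rfl rfl rfl

/-- the certificates of the part 3 of the pair `(5, 4)` -/
def t18_19_5_4_3 : BlkD.Tr :=
  .L 5 5 [4, 4, 4, 5, 18] [] [] 100000 23060 23060 1109095 0 0 90909 75831 18182 12639 11530

lemma n18_19_5_4_3 {n : ℕ} (hn : 6 ≤ n) : NoNd ((18 : ℕ) : ℤ) ((19 : ℕ) : ℤ) n 5 4
    (BlkD.inB (BlkD.upd (BlkD.upd (fun _ => 0) 0 3) 1 5)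
      (BlkD.upd (BlkD.upd (BlkD.upd (BlkD.upd (BlkD.upd (BlkD.upd (fun _ => 19) 0 5) 2 4) 0 4) 0 3) 1 16) 1 8)) :=
  BlkD.part_sound (d := d18_19_5_4) dk18_19_5_4 hn (by decide) (tr := t18_19_5_4_3)
    (by decide +kernel) rfl rfl rfl rfl

/-- the certificates of the part 4 of the pair `(5, 4)` -/
def t18_19_5_4_4 : BlkD.Tr :=
  .E 0

lemma n18_19_5_4_4 {n : ℕ} (hn : 6 ≤ n) : NoNd ((18 : ℕ) : ℤ) ((19 : ℕ) : ℤ) n 5 4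
    (BlkD.inB (BlkD.upd (BlkD.upd (fun _ => 0) 0 3) 1 9)
      (BlkD.upd (BlkD.upd (BlkD.upd (BlkD.upd (BlkD.upd (fun _ => 19) 0 5) 2 4) 0 4) 0 3) 1 16)) :=
  BlkD.part_sound (d := d18_19_5_4) dk18_19_5_4 hn (by decide) (tr := t18_19_5_4_4)
    (by decide +kernel) rfl rfl rfl rfl

/-- the certificates of the part 5 of the pair `(5, 4)` -/
def t18_19_5_4_5 : BlkD.Tr :=
  .E 0

lemma n18_19_5_4_5 {n : ℕ} (hn : 6 ≤ n) : NoNd ((18 : ℕ) : ℤ) ((19 : ℕ) : ℤ) n 5 4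
    (BlkD.inB (BlkD.upd (BlkD.upd (fun _ => 0) 0 3) 1 17)
      (BlkD.upd (BlkD.upd (BlkD.upd (BlkD.upd (fun _ => 19) 0 5) 2 4) 0 4) 0 3)) :=
  BlkD.part_sound (d := d18_19_5_4) dk18_19_5_4 hn (by decide) (tr := t18_19_5_4_5)
    (by decide +kernel) rfl rfl rfl rfl

/-- the certificates of the part 6 of the pair `(5, 4)` -/
def t18_19_5_4_6 : BlkD.Tr :=
  .L 5 5 [4, 4, 4, 5, 18] [] [] 100000 23042 23042 1122584 0 0 80184 97235 16590 14286 11521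

lemma n18_19_5_4_6 {n : ℕ} (hn : 6 ≤ n) : NoNd ((18 : ℕ) : ℤ) ((19 : ℕ) : ℤ) n 5 4
    (BlkD.inB (BlkD.upd (BlkD.upd (fun _ => 0) 0 3) 0 4)
      (BlkD.upd (BlkD.upd (BlkD.upd (fun _ => 19) 0 5) 2 4) 0 4)) :=
  BlkD.part_sound (d := d18_19_5_4) dk18_19_5_4 hn (by decide) (tr := t18_19_5_4_6)
    (by decide +kernel) rfl rfl rfl rfl

/-- the certificates of the part 7 of the pair `(5, 4)` -/
def t18_19_5_4_7 : BlkD.Tr :=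
  .L 5 5 [4, 4, 4, 5, 18] [] [] 100000 6791 6791 1137039 0 0 62963 62963 62963 16667 31481

lemma n18_19_5_4_7 {n : ℕ} (hn : 6 ≤ n) : NoNd ((18 : ℕ) : ℤ) ((19 : ℕ) : ℤ) n 5 4
    (BlkD.inB (BlkD.upd (BlkD.upd (fun _ => 0) 0 3) 0 5)
      (BlkD.upd (BlkD.upd (fun _ => 19) 0 5) 2 4)) :=
  BlkD.part_sound (d := d18_19_5_4) dk18_19_5_4 hn (by decide) (tr := t18_19_5_4_7)
    (by decide +kernel) rfl rfl rfl rfl

/-- the certificates of the part 8 of the pair `(5, 4)` -/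
def t18_19_5_4_8 : BlkD.Tr :=
  .E 1

lemma n18_19_5_4_8 {n : ℕ} (hn : 6 ≤ n) : NoNd ((18 : ℕ) : ℤ) ((19 : ℕ) : ℤ) n 5 4
    (BlkD.inB (BlkD.upd (fun _ => 0) 2 5)
      (BlkD.upd (fun _ => 19) 0 5)) :=
  BlkD.part_sound (d := d18_19_5_4) dk18_19_5_4 hn (by decide) (tr := t18_19_5_4_8)
    (by decide +kernel) rfl rfl rfl rfl

/-- the certificates of the part 9 of the pair `(5, 4)` -/
def t18_19_5_4_9 : BlkD.Tr :=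
  .E 0

lemma n18_19_5_4_9 {n : ℕ} (hn : 6 ≤ n) : NoNd ((18 : ℕ) : ℤ) ((19 : ℕ) : ℤ) n 5 4
    (BlkD.inB (BlkD.upd (fun _ => 0) 0 6)
      (fun _ => 19)) :=
  BlkD.part_sound (d := d18_19_5_4) dk18_19_5_4 hn (by decide) (tr := t18_19_5_4_9)
    (by decide +kernel) rfl rfl rfl rfl

lemma pr18_19_5_4 {n : ℕ} (hn : 6 ≤ n) : NoPr ((18 : ℕ) : ℤ) ((19 : ℕ) : ℤ) n 5 4 :=
  BlkD.of_root (q := 4) (by decide) hn (BlkD.sp 0 5 (BlkD.sp 2 4 (BlkD.sp 0 2 (n18_19_5_4_1 hn)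
    (BlkD.sp 0 4 (BlkD.sp 0 3 (BlkD.sp 1 16 (BlkD.sp 1 8 (BlkD.sp 1 4 (n18_19_5_4_2 hn)
    (n18_19_5_4_3 hn))
    (n18_19_5_4_4 hn))
    (n18_19_5_4_5 hn))
    (n18_19_5_4_6 hn))
    (n18_19_5_4_7 hn)))
    (n18_19_5_4_8 hn))
    (n18_19_5_4_9 hn))

/-- the numbers of the pair `(5, 5)`, `R = 18`, `H = 19` -/
def d18_19_5_5 : BlkD.Pd :=
  ⟨18, 19, 4, 5, 5, 6, 2, 2, 2, 2, 8, 0, 2, 2, 8, 0, [0, 8, 16, 18, 20, 22, 24], [0, 8, 16, 18, 20,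
    22, 24], [⟨1, 1, 1, 4, 8, [0, 4], [0, 4]⟩, ⟨1, 1, 1, 4, 12, [0, 6], [0, 6]⟩, ⟨1, 1, 1, 4, 16,
    [0, 8], [0, 8]⟩]⟩

lemma dk18_19_5_5 : BlkD.pairOk d18_19_5_5 = true := by decide +kernel

/-- the certificates of the part 1 of the pair `(5, 5)` -/
def t18_19_5_5_1 : BlkD.Tr :=
  .S 0 1 (.L 5 5 [4, 4, 4, 18, 18, 18] [] [] 100000 31668 31668 1133332 66667 0 66667 50000 0 3333
    33333) (.S 1 17 (.S 1 8 (.S 1 4 (.L 5 5 [4, 4, 4, 18, 18, 18] [] [] 100000 9772 9772 1272987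
    8621 8621 75287 75287 0 13793 33333) (.S 1 6 (.S 1 5 (.S 2 2 (.L 5 5 [4, 4, 4, 18, 18, 18] [80,
    78, 70, 62, 52, 40] [] 100000 41047 41047 1137192 31818 33884 68182 63223 413 5372 12121) (.L 5
    5 [4, 4, 4, 18, 18, 18] [80, 78, 70, 62, 52, 40] [] 100000 12583 12583 1259272 28146 0 56291
    56291 5629 7285 30960)) (.L 5 5 [4, 4, 4, 18, 18, 18] [96, 94, 92, 84, 76, 66] [] 100000 16667
    16667 1250002 33333 0 83333 50000 16667 0 25000)) (.L 5 5 [4, 4, 4, 18, 18, 18] [] [] 100000 0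
    0 1200000 0 0 100000 100000 0 0 50000))) (.E 0)) (.E 0))

lemma n18_19_5_5_1 {n : ℕ} (hn : 6 ≤ n) : NoNd ((18 : ℕ) : ℤ) ((19 : ℕ) : ℤ) n 5 5
    (BlkD.inB (fun _ => 0)
      (BlkD.upd (BlkD.upd (BlkD.upd (fun _ => 19) 0 5) 2 5) 0 2)) :=
  BlkD.part_sound (d := d18_19_5_5) dk18_19_5_5 hn (by decide) (tr := t18_19_5_5_1)
    (by decide +kernel) rfl rfl rfl rfl

/-- the certificates of the part 2 of the pair `(5, 5)` -/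
def t18_19_5_5_2 : BlkD.Tr :=
  .S 0 4 (.S 0 3 (.S 1 16 (.S 1 8 (.S 1 4 (.S 1 2 (.L 5 5 [4, 4, 4, 18, 18, 18] [] [] 100000 11112
    11112 1233334 22222 11111 27778 55556 0 11111 33333) (.S 1 3 (.L 5 5 [4, 4, 4, 18, 18, 18] [54,
    46, 36, 24, 0, 0] [] 100000 8622 8622 1275863 10345 10345 72414 72414 4598 11494 33333) (.S 2 2
    (.L 5 5 [4, 4, 4, 18, 18, 18] [74, 66, 58, 48, 36, 0] [] 100000 14783 14783 1198695 4783 43478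
    56522 71739 11739 2174 31739) (.S 2 4 (.S 2 3 (.L 5 5 [4, 4, 4, 18, 18, 18] [74, 66, 58, 48,
    36, 0] [] 100000 4497 4497 1280744 10850 18964 67742 51515 9482 14858 33333) (.L 5 5 [4, 4, 4,
    18, 18, 18] [74, 66, 58, 48, 36, 0] [] 100000 1 1 1265159 14027 10407 58371 57919 23077 9502
    33710)) (.L 5 5 [4, 4, 4, 18, 18, 18] [74, 66, 58, 48, 36, 0] [] 100000 0 0 1218448 27184 0
    64078 54369 11650 39806 24272))))) (.L 5 5 [4, 4, 4, 18, 18, 18] [] [] 100000 0 0 1281397 4651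
    4651 53488 95349 23256 0 38372)) (.E 0)) (.E 0)) (.L 5 5 [4, 4, 4, 18, 18, 18] [] [] 100000 0 0
    1284485 0 15517 53448 58621 13793 8621 38793)) (.L 5 5 [4, 4, 4, 18, 18, 18] [] [] 100000 0 0
    1239535 0 20155 40310 58915 26357 7752 33333)

lemma n18_19_5_5_2 {n : ℕ} (hn : 6 ≤ n) : NoNd ((18 : ℕ) : ℤ) ((19 : ℕ) : ℤ) n 5 5
    (BlkD.inB (BlkD.upd (fun _ => 0) 0 3)
      (BlkD.upd (BlkD.upd (fun _ => 19) 0 5) 2 5)) :=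
  BlkD.part_sound (d := d18_19_5_5) dk18_19_5_5 hn (by decide) (tr := t18_19_5_5_2)
    (by decide +kernel) rfl rfl rfl rfl

/-- the certificates of the part 3 of the pair `(5, 5)` -/
def t18_19_5_5_3 : BlkD.Tr :=
  .E 1

lemma n18_19_5_5_3 {n : ℕ} (hn : 6 ≤ n) : NoNd ((18 : ℕ) : ℤ) ((19 : ℕ) : ℤ) n 5 5
    (BlkD.inB (BlkD.upd (fun _ => 0) 2 6)
      (BlkD.upd (fun _ => 19) 0 5)) :=
  BlkD.part_sound (d := d18_19_5_5) dk18_19_5_5 hn (by decide) (tr := t18_19_5_5_3)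
    (by decide +kernel) rfl rfl rfl rfl

/-- the certificates of the part 4 of the pair `(5, 5)` -/
def t18_19_5_5_4 : BlkD.Tr :=
  .E 0

lemma n18_19_5_5_4 {n : ℕ} (hn : 6 ≤ n) : NoNd ((18 : ℕ) : ℤ) ((19 : ℕ) : ℤ) n 5 5
    (BlkD.inB (BlkD.upd (fun _ => 0) 0 6)
      (fun _ => 19)) :=
  BlkD.part_sound (d := d18_19_5_5) dk18_19_5_5 hn (by decide) (tr := t18_19_5_5_4)
    (by decide +kernel) rfl rfl rfl rfl

lemma pr18_19_5_5 {n : ℕ} (hn : 6 ≤ n) : NoPr ((18 : ℕ) : ℤ) ((19 : ℕ) : ℤ) n 5 5 :=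
  BlkD.of_root (q := 4) (by decide) hn (BlkD.sp 0 5 (BlkD.sp 2 5 (BlkD.sp 0 2 (n18_19_5_5_1 hn)
    (n18_19_5_5_2 hn))
    (n18_19_5_5_3 hn))
    (n18_19_5_5_4 hn))

/-- the numbers of the pair `(6, 0)`, `R = 18`, `H = 19` -/
def d18_19_6_0 : BlkD.Pd :=
  ⟨18, 19, 4, 6, 0, 10, 0, 1, 0, 4, 4, 0, 0, 4, 4, 0, [0, 4, 8, 12, 16, 20, 24, 28, 32, 36, 40],
    [0, 4, 8, 12, 16, 20, 24, 28, 32, 36, 40], [⟨1, 1, 1, 4, 8, [0, 4], [0, 4]⟩]⟩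

lemma dk18_19_6_0 : BlkD.pairOk d18_19_6_0 = true := by decide +kernel

/-- the certificates of the part 1 of the pair `(6, 0)` -/
def t18_19_6_0_1 : BlkD.Tr :=
  .S 0 6 (.S 2 0 (.L 3 3 [4] [] [] 100000 0 0 700000 50000 0 50000 50000 0 0 0) (.E 1)) (.E 0)

lemma n18_19_6_0_1 {n : ℕ} (hn : 6 ≤ n) : NoNd ((18 : ℕ) : ℤ) ((19 : ℕ) : ℤ) n 6 0
    (BlkD.inB (fun _ => 0)
      (fun _ => 19)) :=
  BlkD.part_sound (d := d18_19_6_0) dk18_19_6_0 hn (by decide) (tr := t18_19_6_0_1)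
    (by decide +kernel) rfl rfl rfl rfl

lemma pr18_19_6_0 {n : ℕ} (hn : 6 ≤ n) : NoPr ((18 : ℕ) : ℤ) ((19 : ℕ) : ℤ) n 6 0 :=
  BlkD.of_root (q := 4) (by decide) hn (n18_19_6_0_1 hn)

/-- the numbers of the pair `(6, 1)`, `R = 18`, `H = 19` -/
def d18_19_6_1 : BlkD.Pd :=
  ⟨18, 19, 4, 6, 1, 9, 1, 1, 2, 2, 6, 0, 0, 4, 4, 0, [0, 6, 12, 18, 24, 28, 30, 32, 34, 36], [0, 4,
    8, 12, 16, 20, 24, 28, 32, 36], [⟨1, 1, 1, 4, 8, [0, 4], [0, 4]⟩, ⟨1, 1, 1, 4, 10, [0, 6], [0,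
    4]⟩]⟩

lemma dk18_19_6_1 : BlkD.pairOk d18_19_6_1 = true := by decide +kernel

/-- the certificates of the part 1 of the pair `(6, 1)` -/
def t18_19_6_1_1 : BlkD.Tr :=
  .S 0 6 (.S 2 1 (.L 3 4 [4, 4] [] [] 100000 0 0 920000 20000 20000 60000 20000 0 0 0) (.E 1)) (.E
    0)

lemma n18_19_6_1_1 {n : ℕ} (hn : 6 ≤ n) : NoNd ((18 : ℕ) : ℤ) ((19 : ℕ) : ℤ) n 6 1
    (BlkD.inB (fun _ => 0)
      (fun _ => 19)) :=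
  BlkD.part_sound (d := d18_19_6_1) dk18_19_6_1 hn (by decide) (tr := t18_19_6_1_1)
    (by decide +kernel) rfl rfl rfl rfl

lemma pr18_19_6_1 {n : ℕ} (hn : 6 ≤ n) : NoPr ((18 : ℕ) : ℤ) ((19 : ℕ) : ℤ) n 6 1 :=
  BlkD.of_root (q := 4) (by decide) hn (n18_19_6_1_1 hn)

/-- the numbers of the pair `(6, 2)`, `R = 18`, `H = 19` -/
def d18_19_6_2 : BlkD.Pd :=
  ⟨18, 19, 4, 6, 2, 8, 2, 1, 2, 2, 8, 0, 3, 1, 6, 0, [0, 8, 16, 22, 24, 26, 28, 30, 32], [0, 6, 12,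
    17, 20, 23, 26, 29, 32], [⟨1, 1, 1, 4, 8, [0, 4], [0, 4]⟩, ⟨1, 1, 1, 4, 10, [0, 6], [0, 4]⟩,
    ⟨1, 1, 1, 6, 14, [0, 8], [0, 6]⟩]⟩

lemma dk18_19_6_2 : BlkD.pairOk d18_19_6_2 = true := by decide +kernel

/-- the certificates of the part 1 of the pair `(6, 2)` -/
def t18_19_6_2_1 : BlkD.Tr :=
  .S 0 6 (.S 2 2 (.S 0 3 (.L 4 6 [4, 4, 4] [] [] 100000 17011 17011 969072 28866 0 86598 28866 7216
    19588 19588) (.L 4 6 [4, 4, 4] [] [] 100000 2 2 1065624 8594 8594 54297 29948 10156 29948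
    29948)) (.E 1)) (.E 0)

lemma n18_19_6_2_1 {n : ℕ} (hn : 6 ≤ n) : NoNd ((18 : ℕ) : ℤ) ((19 : ℕ) : ℤ) n 6 2
    (BlkD.inB (fun _ => 0)
      (fun _ => 19)) :=
  BlkD.part_sound (d := d18_19_6_2) dk18_19_6_2 hn (by decide) (tr := t18_19_6_2_1)
    (by decide +kernel) rfl rfl rfl rfl

lemma pr18_19_6_2 {n : ℕ} (hn : 6 ≤ n) : NoPr ((18 : ℕ) : ℤ) ((19 : ℕ) : ℤ) n 6 2 :=
  BlkD.of_root (q := 4) (by decide) hn (n18_19_6_2_1 hn)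

end BlkC

end Pool.Agent.Lib.MP_f04ccf_co
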