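import Pool.Agent.Lib.MP_f04ccf_co.M.BlkTp

/-!
MP_f04ccf_co, block certificate, data `R = 18`, `H = 19`, part 2 (certificates: helper99, bd9.cpp).
-/

set_option autoImplicit false
set_option maxRecDepth 100000

namespace Pool.Agent.Lib.MP_f04ccf_co

namespace BlkC

/-- the numbers of the pair `(6, 3)`, `R = 18`, `H = 19` -/
def d18_19_6_3 : BlkD.Pd :=
  ⟨18, 19, 4, 6, 3, 7, 3, 2, 1, 4, 10, 0, 4, 1, 8, 0, [0, 10, 20, 30, 32, 33, 34, 35], [0, 8, 15,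
    19, 23, 27, 31, 35], [⟨1, 1, 1, 4, 8, [0, 4], [0, 4]⟩, ⟨1, 1, 1, 4, 12, [0, 6], [0, 6]⟩, ⟨1, 1,
    1, 4, 14, [0, 8], [0, 6]⟩, ⟨2, 1, 1, 4, 26, [0, 10, 18], [0, 8]⟩]⟩

lemma dk18_19_6_3 : BlkD.pairOk d18_19_6_3 = true := by decide +kernel

/-- the certificates of the part 1 of the pair `(6, 3)` -/
def t18_19_6_3_1 : BlkD.Tr :=
  .L 4 6 [4, 4, 4, 5] [] [] 100000 100000 100000 600000 100000 0 100000 100000 0 0 0

lemma n18_19_6_3_1 {n : ℕ} (hn : 6 ≤ n) : NoNd ((18 : ℕ) : ℤ) ((19 : ℕ) : ℤ) n 6 3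
    (BlkD.inB (fun _ => 0)
      (BlkD.upd (BlkD.upd (BlkD.upd (BlkD.upd (fun _ => 19) 0 6) 2 3) 0 3) 0 1)) :=
  BlkD.part_sound (d := d18_19_6_3) dk18_19_6_3 hn (by decide) (tr := t18_19_6_3_1)
    (by decide +kernel) rfl rfl rfl rfl

/-- the certificates of the part 2 of the pair `(6, 3)` -/
def t18_19_6_3_2 : BlkD.Tr :=
  .S 1 17 (.S 1 8 (.S 1 4 (.L 4 6 [4, 4, 4, 5] [] [] 100000 33334 33334 1035716 16071 0 16071 35714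
    0 28571 35714) (.S 1 6 (.S 1 5 (.L 4 6 [4, 4, 4, 5] [88, 80, 70, 60, 50, 40] [] 100000 68794
    68794 955322 48936 0 74468 36170 0 14894 25532) (.L 4 6 [4, 4, 4, 5] [104, 102, 94, 84, 74, 64]
    [] 100000 83334 83334 928262 58696 0 78261 39130 0 4348 19565)) (.S 1 7 (.L 4 6 [4, 4, 4, 5]
    [121, 120, 118, 110, 100, 90] [] 100000 85526 85526 923686 60526 0 86842 34211 0 5263 6579) (.L
    4 6 [4, 4, 4, 5] [140, 139, 138, 136, 128, 118] [] 100000 83669 83669 887250 67785 0 91275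
    50336 0 5369 14765)))) (.L 5 7 [4, 4, 4, 4] [] [] 100000 45239 45239 1057144 14286 0 100000
    71429 0 14286 7143)) (.E 0)

lemma n18_19_6_3_2 {n : ℕ} (hn : 6 ≤ n) : NoNd ((18 : ℕ) : ℤ) ((19 : ℕ) : ℤ) n 6 3
    (BlkD.inB (BlkD.upd (fun _ => 0) 0 2)
      (BlkD.upd (BlkD.upd (BlkD.upd (BlkD.upd (fun _ => 19) 0 6) 2 3) 0 3) 0 2)) :=
  BlkD.part_sound (d := d18_19_6_3) dk18_19_6_3 hn (by decide) (tr := t18_19_6_3_2)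
    (by decide +kernel) rfl rfl rfl rfl

/-- the certificates of the part 3 of the pair `(6, 3)` -/
def t18_19_6_3_3 : BlkD.Tr :=
  .S 1 2 (.L 5 7 [4, 4, 4, 4] [] [] 100000 33334 33334 1000000 0 0 0 0 0 0 0) (.S 1 3 (.L 5 7 [4,
    4, 4, 4] [54, 44, 34, 24, 0, 0] [] 100000 33334 33334 1016667 27778 0 27778 27778 0 16667
    33333) (.L 5 7 [4, 4, 4, 4] [76, 66, 56, 46, 36, 0] [] 100000 33334 33334 1096630 25843 0 25843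
    46067 0 28090 24719))

lemma n18_19_6_3_3 {n : ℕ} (hn : 6 ≤ n) : NoNd ((18 : ℕ) : ℤ) ((19 : ℕ) : ℤ) n 6 3
    (BlkD.inB (BlkD.upd (BlkD.upd (fun _ => 0) 0 2) 0 3)
      (BlkD.upd (BlkD.upd (BlkD.upd (BlkD.upd (BlkD.upd (BlkD.upd (fun _ => 19) 0 6) 2 3) 0 3) 1 16) 1 8) 1 4)) :=
  BlkD.part_sound (d := d18_19_6_3) dk18_19_6_3 hn (by decide) (tr := t18_19_6_3_3)
    (by decide +kernel) rfl rfl rfl rfl

/-- the certificates of the part 4 of the pair `(6, 3)` -/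
def t18_19_6_3_4 : BlkD.Tr :=
  .S 2 1 (.S 2 0 (.L 5 7 [4, 4, 4, 4] [98, 90, 80, 70, 60, 50] [] 100000 33334 33334 925000 0 0
    75000 100000 0 0 0) (.S 3 10 (.S 3 5 (.S 3 2 (.L 5 7 [4, 4, 4, 4] [98, 90, 80, 70, 60, 50] []
    100000 33334 33334 1057895 21053 10526 31579 21053 0 0 26316) (.S 3 4 (.S 3 3 (.L 3 5 [4, 5, 6,
    6] [98, 90, 80, 70, 60, 50] [38, 30, 22, 12, 0, 0] 100000 57143 57143 1025002 43750 0 79464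
    46875 4911 50000 25000) (.L 5 7 [4, 4, 4, 4] [98, 90, 80, 70, 60, 50] [53, 46, 38, 30, 20, 0]
    100000 55121 55121 1033332 47059 0 86275 31373 1307 48366 20261)) (.E 1))) (.E 1)) (.E 1))) (.S
    2 2 (.S 3 9 (.S 3 4 (.S 3 2 (.L 5 7 [4, 4, 4, 4] [98, 90, 80, 70, 60, 50] [] 100000 31841 31841
    1101493 32836 0 55224 23881 2239 33582 22388) (.L 5 7 [4, 4, 4, 4] [98, 90, 80, 70, 60, 50] []
    100000 57318 57318 1025609 50610 0 86585 21341 2439 57317 21341)) (.E 1)) (.E 1)) (.L 5 7 [4,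
    4, 4, 4] [98, 90, 80, 70, 60, 50] [] 100000 35633 35633 1048276 37931 0 58621 3448 3448 41379
    20690))

lemma n18_19_6_3_4 {n : ℕ} (hn : 6 ≤ n) : NoNd ((18 : ℕ) : ℤ) ((19 : ℕ) : ℤ) n 6 3
    (BlkD.inB (BlkD.upd (BlkD.upd (BlkD.upd (fun _ => 0) 0 2) 0 3) 1 5)
      (BlkD.upd (BlkD.upd (BlkD.upd (BlkD.upd (BlkD.upd (BlkD.upd (BlkD.upd (fun _ => 19) 0 6) 2 3) 0 3) 1 16) 1 8) 1 6) 1 5)) :=
  BlkD.part_sound (d := d18_19_6_3) dk18_19_6_3 hn (by decide) (tr := t18_19_6_3_4)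
    (by decide +kernel) rfl rfl rfl rfl

/-- the certificates of the part 5 of the pair `(6, 3)` -/
def t18_19_6_3_5 : BlkD.Tr :=
  .S 2 1 (.S 2 0 (.L 5 7 [4, 4, 4, 4] [116, 114, 106, 96, 86, 76] [] 100000 33334 33334 900000 0 0
    100000 100000 0 0 0) (.S 3 9 (.S 3 4 (.S 3 2 (.L 5 7 [4, 4, 4, 4] [116, 114, 106, 96, 86, 76]
    [] 100000 34524 34524 1091667 25000 16667 55952 41667 2381 8333 25000) (.S 3 3 (.L 4 6 [4, 4,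
    4, 5] [116, 114, 106, 96, 86, 76] [38, 30, 22, 12, 0, 0] 100000 36264 36264 1089013 28571 0
    68132 42857 2198 28571 15385) (.S 4 6 (.S 4 3 (.L 4 6 [4, 4, 4, 5] [96, 86, 76, 66, 0, 0] [53,
    46, 38, 30, 20, 0] 100000 57693 57693 996154 55769 0 90385 18590 0 65385 6410) (.L 4 6 [4, 4,
    4, 5] [116, 114, 106, 96, 86, 76] [53, 46, 38, 30, 20, 0] 100000 33334 1 866668 0 0 133333 0 0
    33333 16667)) (.E 2)))) (.E 1)) (.E 1))) (.S 2 2 (.S 3 8 (.S 3 4 (.S 3 2 (.L 5 7 [4, 4, 4, 4]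
    [116, 114, 106, 96, 86, 76] [] 100000 30371 30371 1108000 30667 0 76444 27111 4444 34667 19111)
    (.L 5 7 [4, 4, 4, 4] [116, 114, 106, 96, 86, 76] [] 100000 62501 62501 1000000 50000 0 100000
    16667 0 54167 20833)) (.E 1)) (.E 1)) (.L 5 7 [4, 4, 4, 4] [116, 114, 106, 96, 86, 76] []
    100000 37635 37635 1045162 38710 0 77419 22581 3226 38710 19355))

lemma n18_19_6_3_5 {n : ℕ} (hn : 6 ≤ n) : NoNd ((18 : ℕ) : ℤ) ((19 : ℕ) : ℤ) n 6 3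
    (BlkD.inB (BlkD.upd (BlkD.upd (BlkD.upd (BlkD.upd (fun _ => 0) 0 2) 0 3) 1 5) 1 6)
      (BlkD.upd (BlkD.upd (BlkD.upd (BlkD.upd (BlkD.upd (BlkD.upd (fun _ => 19) 0 6) 2 3) 0 3) 1 16) 1 8) 1 6)) :=
  BlkD.part_sound (d := d18_19_6_3) dk18_19_6_3 hn (by decide) (tr := t18_19_6_3_5)
    (by decide +kernel) rfl rfl rfl rfl

/-- the certificates of the part 6 of the pair `(6, 3)` -/
def t18_19_6_3_6 : BlkD.Tr :=
  .S 1 7 (.S 2 1 (.S 2 0 (.L 5 7 [4, 4, 4, 4] [135, 134, 132, 124, 114, 104] [] 100000 33334 33334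
    900000 0 0 100000 100000 0 0 0) (.S 3 8 (.S 3 4 (.S 3 2 (.L 5 7 [4, 4, 4, 4] [135, 134, 132,
    124, 114, 104] [] 100000 47808 47808 1036842 34211 5263 92105 34211 0 5263 17105) (.L 5 7 [4,
    4, 4, 4] [135, 134, 132, 124, 114, 104] [] 100000 54762 54762 1028573 42857 0 100000 28571 0
    42857 7143)) (.E 1)) (.E 1))) (.L 5 7 [4, 4, 4, 4] [135, 134, 132, 124, 114, 104] [] 100000
    50834 50834 1020000 40000 0 100000 20000 0 30000 12500)) (.L 5 7 [4, 4, 4, 4] [156, 155, 154,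
    152, 144, 134] [] 100000 33334 33334 1056666 21667 0 100000 31667 0 18333 25000)

lemma n18_19_6_3_6 {n : ℕ} (hn : 6 ≤ n) : NoNd ((18 : ℕ) : ℤ) ((19 : ℕ) : ℤ) n 6 3
    (BlkD.inB (BlkD.upd (BlkD.upd (BlkD.upd (BlkD.upd (fun _ => 0) 0 2) 0 3) 1 5) 1 7)
      (BlkD.upd (BlkD.upd (BlkD.upd (BlkD.upd (BlkD.upd (fun _ => 19) 0 6) 2 3) 0 3) 1 16) 1 8)) :=
  BlkD.part_sound (d := d18_19_6_3) dk18_19_6_3 hn (by decide) (tr := t18_19_6_3_6)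
    (by decide +kernel) rfl rfl rfl rfl

/-- the certificates of the part 7 of the pair `(6, 3)` -/
def t18_19_6_3_7 : BlkD.Tr :=
  .E 0

lemma n18_19_6_3_7 {n : ℕ} (hn : 6 ≤ n) : NoNd ((18 : ℕ) : ℤ) ((19 : ℕ) : ℤ) n 6 3
    (BlkD.inB (BlkD.upd (BlkD.upd (BlkD.upd (fun _ => 0) 0 2) 0 3) 1 9)
      (BlkD.upd (BlkD.upd (BlkD.upd (BlkD.upd (fun _ => 19) 0 6) 2 3) 0 3) 1 16)) :=
  BlkD.part_sound (d := d18_19_6_3) dk18_19_6_3 hn (by decide) (tr := t18_19_6_3_7)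
    (by decide +kernel) rfl rfl rfl rfl

/-- the certificates of the part 8 of the pair `(6, 3)` -/
def t18_19_6_3_8 : BlkD.Tr :=
  .E 0

lemma n18_19_6_3_8 {n : ℕ} (hn : 6 ≤ n) : NoNd ((18 : ℕ) : ℤ) ((19 : ℕ) : ℤ) n 6 3
    (BlkD.inB (BlkD.upd (BlkD.upd (BlkD.upd (fun _ => 0) 0 2) 0 3) 1 17)
      (BlkD.upd (BlkD.upd (BlkD.upd (fun _ => 19) 0 6) 2 3) 0 3)) :=
  BlkD.part_sound (d := d18_19_6_3) dk18_19_6_3 hn (by decide) (tr := t18_19_6_3_8)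
    (by decide +kernel) rfl rfl rfl rfl

/-- the certificates of the part 9 of the pair `(6, 3)` -/
def t18_19_6_3_9 : BlkD.Tr :=
  .S 1 15 (.S 1 7 (.S 1 3 (.S 1 1 (.L 5 7 [4, 4, 4, 4] [] [] 100000 33334 33334 1000000 0 0 0 0 0 0
    0) (.S 1 2 (.L 5 7 [4, 4, 4, 4] [38, 28, 18, 0, 0, 0] [] 100000 33334 33334 1016667 41667 0
    41667 41667 0 16667 33333) (.S 2 1 (.S 2 0 (.L 5 7 [4, 4, 4, 4] [60, 50, 40, 30, 0, 0] []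
    100000 33334 33334 900000 0 0 0 100000 0 0 0) (.S 3 11 (.S 3 5 (.S 3 2 (.L 5 7 [4, 4, 4, 4]
    [60, 50, 40, 30, 0, 0] [] 100000 33334 33334 1000000 0 0 0 0 0 0 0) (.S 3 4 (.S 3 3 (.L 5 7 [4,
    4, 4, 4] [60, 50, 40, 30, 0, 0] [38, 30, 22, 12, 0, 0] 100000 33334 33334 1062500 25000 12500
    37500 37500 0 12500 25000) (.L 6 9 [4, 5, 3, 3] [60, 50, 40, 30, 0, 0] [53, 46, 38, 30, 20, 0]
    100000 33334 33334 1087500 37500 0 37500 37500 0 37500 25000)) (.E 1))) (.E 1)) (.E 1))) (.L 6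
    9 [4, 5, 3, 3] [60, 50, 40, 30, 0, 0] [] 100000 33334 33334 1097562 34146 2439 34146 34146 0
    31707 21951)))) (.S 1 5 (.S 1 4 (.S 2 1 (.L 6 9 [4, 5, 3, 3] [84, 74, 64, 54, 44, 0] [] 100000
    33162 33162 1098451 22997 16279 70284 62274 258 8269 18088) (.L 4 6 [4, 4, 4, 5] [84, 74, 64,
    54, 44, 0] [] 100000 31035 31035 1103449 24138 0 82759 41379 3448 34483 20690)) (.L 4 6 [4, 4,
    4, 5] [108, 100, 90, 80, 70, 60] [] 100000 33334 33334 1096611 9322 0 94915 75424 0 13559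
    6780)) (.L 4 6 [4, 4, 4, 5] [] [] 100000 26667 26667 1100000 0 0 100000 70000 10000 20000
    10000))) (.E 0)) (.E 0)

lemma n18_19_6_3_9 {n : ℕ} (hn : 6 ≤ n) : NoNd ((18 : ℕ) : ℤ) ((19 : ℕ) : ℤ) n 6 3
    (BlkD.inB (BlkD.upd (fun _ => 0) 0 4)
      (BlkD.upd (BlkD.upd (BlkD.upd (BlkD.upd (fun _ => 19) 0 6) 2 3) 0 5) 0 4)) :=
  BlkD.part_sound (d := d18_19_6_3) dk18_19_6_3 hn (by decide) (tr := t18_19_6_3_9)
    (by decide +kernel) rfl rfl rfl rfl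

/-- the certificates of the part 10 of the pair `(6, 3)` -/
def t18_19_6_3_10 : BlkD.Tr :=
  .S 1 14 (.S 1 7 (.S 1 3 (.S 1 1 (.L 4 6 [4, 4, 4, 5] [] [] 100000 33334 33334 1062500 37500 0
    37500 62500 0 37500 18750) (.S 1 2 (.L 4 6 [4, 4, 4, 5] [42, 32, 22, 0, 0, 0] [] 100000 30953
    30953 1100000 25000 0 96429 50000 3571 25000 12500) (.S 2 1 (.L 4 6 [4, 4, 4, 5] [66, 56, 46,
    36, 0, 0] [] 100000 41667 41667 1050001 16667 33333 87500 58333 0 16667 8333) (.L 4 6 [4, 4, 4,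
    5] [66, 56, 46, 36, 0, 0] [] 100000 29413 29413 1105882 31373 0 96078 33333 5882 35294
    17647)))) (.L 4 6 [4, 4, 4, 5] [] [] 100000 24445 24445 1100002 0 0 100000 60000 13333 26667
    13333)) (.E 0)) (.E 0)

lemma n18_19_6_3_10 {n : ℕ} (hn : 6 ≤ n) : NoNd ((18 : ℕ) : ℤ) ((19 : ℕ) : ℤ) n 6 3
    (BlkD.inB (BlkD.upd (BlkD.upd (fun _ => 0) 0 4) 0 5)
      (BlkD.upd (BlkD.upd (BlkD.upd (fun _ => 19) 0 6) 2 3) 0 5)) :=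
  BlkD.part_sound (d := d18_19_6_3) dk18_19_6_3 hn (by decide) (tr := t18_19_6_3_10)
    (by decide +kernel) rfl rfl rfl rfl

/-- the certificates of the part 11 of the pair `(6, 3)` -/
def t18_19_6_3_11 : BlkD.Tr :=
  .L 4 6 [4, 4, 4, 5] [] [] 100000 1588 1588 1133334 0 0 66667 38095 66667 28571 33333

lemma n18_19_6_3_11 {n : ℕ} (hn : 6 ≤ n) : NoNd ((18 : ℕ) : ℤ) ((19 : ℕ) : ℤ) n 6 3
    (BlkD.inB (BlkD.upd (BlkD.upd (fun _ => 0) 0 4) 0 6)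
      (BlkD.upd (BlkD.upd (fun _ => 19) 0 6) 2 3)) :=
  BlkD.part_sound (d := d18_19_6_3) dk18_19_6_3 hn (by decide) (tr := t18_19_6_3_11)
    (by decide +kernel) rfl rfl rfl rfl

/-- the certificates of the part 12 of the pair `(6, 3)` -/
def t18_19_6_3_12 : BlkD.Tr :=
  .E 1

lemma n18_19_6_3_12 {n : ℕ} (hn : 6 ≤ n) : NoNd ((18 : ℕ) : ℤ) ((19 : ℕ) : ℤ) n 6 3
    (BlkD.inB (BlkD.upd (fun _ => 0) 2 4)
      (BlkD.upd (fun _ => 19) 0 6)) :=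
  BlkD.part_sound (d := d18_19_6_3) dk18_19_6_3 hn (by decide) (tr := t18_19_6_3_12)
    (by decide +kernel) rfl rfl rfl rfl

/-- the certificates of the part 13 of the pair `(6, 3)` -/
def t18_19_6_3_13 : BlkD.Tr :=
  .E 0

lemma n18_19_6_3_13 {n : ℕ} (hn : 6 ≤ n) : NoNd ((18 : ℕ) : ℤ) ((19 : ℕ) : ℤ) n 6 3
    (BlkD.inB (BlkD.upd (fun _ => 0) 0 7)
      (fun _ => 19)) :=
  BlkD.part_sound (d := d18_19_6_3) dk18_19_6_3 hn (by decide) (tr := t18_19_6_3_13)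
    (by decide +kernel) rfl rfl rfl rfl

lemma pr18_19_6_3 {n : ℕ} (hn : 6 ≤ n) : NoPr ((18 : ℕ) : ℤ) ((19 : ℕ) : ℤ) n 6 3 :=
  BlkD.of_root (q := 4) (by decide) hn (BlkD.sp 0 6 (BlkD.sp 2 3 (BlkD.sp 0 3 (BlkD.sp 0 1 (n18_19_6_3_1 hn)
    (BlkD.sp 0 2 (n18_19_6_3_2 hn)
    (BlkD.sp 1 16 (BlkD.sp 1 8 (BlkD.sp 1 4 (n18_19_6_3_3 hn)
    (BlkD.sp 1 6 (BlkD.sp 1 5 (n18_19_6_3_4 hn)
    (n18_19_6_3_5 hn))
    (n18_19_6_3_6 hn)))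
    (n18_19_6_3_7 hn))
    (n18_19_6_3_8 hn))))
    (BlkD.sp 0 5 (BlkD.sp 0 4 (n18_19_6_3_9 hn)
    (n18_19_6_3_10 hn))
    (n18_19_6_3_11 hn)))
    (n18_19_6_3_12 hn))
    (n18_19_6_3_13 hn))

/-- the numbers of the pair `(6, 4)`, `R = 18`, `H = 19` -/
def d18_19_6_4 : BlkD.Pd :=
  ⟨18, 19, 4, 6, 4, 6, 2, 2, 2, 2, 8, 0, 2, 2, 8, 0, [0, 8, 16, 18, 20, 22, 24], [0, 8, 16, 18, 20,
    22, 24], [⟨1, 1, 1, 4, 8, [0, 4], [0, 4]⟩, ⟨1, 1, 1, 4, 12, [0, 6], [0, 6]⟩, ⟨1, 1, 1, 4, 16,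
    [0, 8], [0, 8]⟩]⟩

lemma dk18_19_6_4 : BlkD.pairOk d18_19_6_4 = true := by decide +kernel

/-- the certificates of the part 1 of the pair `(6, 4)` -/
def t18_19_6_4_1 : BlkD.Tr :=
  .L 5 6 [4, 4, 4, 18, 18] [] [] 100000 100000 100000 800000 100000 0 100000 100000 0 0 0

lemma n18_19_6_4_1 {n : ℕ} (hn : 6 ≤ n) : NoNd ((18 : ℕ) : ℤ) ((19 : ℕ) : ℤ) n 6 4
    (BlkD.inB (fun _ => 0)
      (BlkD.upd (BlkD.upd (BlkD.upd (BlkD.upd (fun _ => 19) 0 6) 2 4) 0 3) 0 1)) :=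
  BlkD.part_sound (d := d18_19_6_4) dk18_19_6_4 hn (by decide) (tr := t18_19_6_4_1)
    (by decide +kernel) rfl rfl rfl rfl

/-- the certificates of the part 2 of the pair `(6, 4)` -/
def t18_19_6_4_2 : BlkD.Tr :=
  .L 5 6 [4, 4, 4, 18, 18] [] [] 100000 75000 75000 1125000 50000 0 75000 75000 0 0 25000

lemma n18_19_6_4_2 {n : ℕ} (hn : 6 ≤ n) : NoNd ((18 : ℕ) : ℤ) ((19 : ℕ) : ℤ) n 6 4
    (BlkD.inB (BlkD.upd (fun _ => 0) 0 2)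
      (BlkD.upd (BlkD.upd (BlkD.upd (BlkD.upd (fun _ => 19) 0 6) 2 4) 0 3) 0 2)) :=
  BlkD.part_sound (d := d18_19_6_4) dk18_19_6_4 hn (by decide) (tr := t18_19_6_4_2)
    (by decide +kernel) rfl rfl rfl rfl

/-- the certificates of the part 3 of the pair `(6, 4)` -/
def t18_19_6_4_3 : BlkD.Tr :=
  .S 1 16 (.S 1 8 (.S 1 4 (.L 5 6 [4, 4, 4, 18, 18] [] [] 100000 10417 10417 1245833 25000 0 29167
    54167 0 12500 33333) (.S 1 6 (.S 1 5 (.S 2 2 (.L 5 6 [4, 4, 4, 18, 18] [90, 88, 80, 72, 62, 50]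
    [] 100000 31470 31470 1223776 32168 15385 59441 48951 1399 11888 11888) (.L 5 6 [4, 4, 4, 18,
    18] [90, 88, 80, 72, 62, 50] [] 100000 20568 20568 1240426 31915 0 59574 36170 0 23404 22695))
    (.L 5 6 [4, 4, 4, 18, 18] [108, 106, 104, 96, 88, 78] [] 100000 0 0 1293621 12766 0 80851 68085
    2128 14894 41489)) (.L 5 6 [4, 4, 4, 18, 18] [] [] 100000 1 1 1284211 3509 1754 100000 71930 0
    14035 42982))) (.E 0)) (.E 0)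

lemma n18_19_6_4_3 {n : ℕ} (hn : 6 ≤ n) : NoNd ((18 : ℕ) : ℤ) ((19 : ℕ) : ℤ) n 6 4
    (BlkD.inB (BlkD.upd (BlkD.upd (fun _ => 0) 0 2) 0 3)
      (BlkD.upd (BlkD.upd (BlkD.upd (fun _ => 19) 0 6) 2 4) 0 3)) :=
  BlkD.part_sound (d := d18_19_6_4) dk18_19_6_4 hn (by decide) (tr := t18_19_6_4_3)
    (by decide +kernel) rfl rfl rfl rfl

/-- the certificates of the part 4 of the pair `(6, 4)` -/
def t18_19_6_4_4 : BlkD.Tr :=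
  .S 0 5 (.S 0 4 (.S 1 15 (.S 1 7 (.S 1 3 (.L 5 6 [4, 4, 4, 18, 18] [] [] 100000 10001 10001
    1246668 33333 0 33333 53333 0 13333 33333) (.S 1 5 (.L 5 6 [4, 4, 4, 18, 18] [] [] 100000 0 0
    1297471 8861 0 75949 75949 2532 15190 41139) (.L 5 6 [4, 4, 4, 18, 18] [] [] 100000 0 0 1278191
    4362 4362 100000 56376 22819 10403 33389))) (.E 0)) (.E 0)) (.L 5 6 [4, 4, 4, 18, 18] [] []
    100000 0 0 1292217 3893 2595 62366 88321 10916 15802 36641)) (.L 5 6 [4, 4, 4, 18, 18] [] []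
    100000 0 0 1200000 0 0 100000 100000 0 0 50000)

lemma n18_19_6_4_4 {n : ℕ} (hn : 6 ≤ n) : NoNd ((18 : ℕ) : ℤ) ((19 : ℕ) : ℤ) n 6 4
    (BlkD.inB (BlkD.upd (fun _ => 0) 0 4)
      (BlkD.upd (BlkD.upd (fun _ => 19) 0 6) 2 4)) :=
  BlkD.part_sound (d := d18_19_6_4) dk18_19_6_4 hn (by decide) (tr := t18_19_6_4_4)
    (by decide +kernel) rfl rfl rfl rfl

/-- the certificates of the part 5 of the pair `(6, 4)` -/
def t18_19_6_4_5 : BlkD.Tr :=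
  .E 1

lemma n18_19_6_4_5 {n : ℕ} (hn : 6 ≤ n) : NoNd ((18 : ℕ) : ℤ) ((19 : ℕ) : ℤ) n 6 4
    (BlkD.inB (BlkD.upd (fun _ => 0) 2 5)
      (BlkD.upd (fun _ => 19) 0 6)) :=
  BlkD.part_sound (d := d18_19_6_4) dk18_19_6_4 hn (by decide) (tr := t18_19_6_4_5)
    (by decide +kernel) rfl rfl rfl rfl

/-- the certificates of the part 6 of the pair `(6, 4)` -/
def t18_19_6_4_6 : BlkD.Tr :=
  .E 0

lemma n18_19_6_4_6 {n : ℕ} (hn : 6 ≤ n) : NoNd ((18 : ℕ) : ℤ) ((19 : ℕ) : ℤ) n 6 4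
    (BlkD.inB (BlkD.upd (fun _ => 0) 0 7)
      (fun _ => 19)) :=
  BlkD.part_sound (d := d18_19_6_4) dk18_19_6_4 hn (by decide) (tr := t18_19_6_4_6)
    (by decide +kernel) rfl rfl rfl rfl

lemma pr18_19_6_4 {n : ℕ} (hn : 6 ≤ n) : NoPr ((18 : ℕ) : ℤ) ((19 : ℕ) : ℤ) n 6 4 :=
  BlkD.of_root (q := 4) (by decide) hn (BlkD.sp 0 6 (BlkD.sp 2 4 (BlkD.sp 0 3 (BlkD.sp 0 1 (n18_19_6_4_1 hn)
    (BlkD.sp 0 2 (n18_19_6_4_2 hn)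
    (n18_19_6_4_3 hn)))
    (n18_19_6_4_4 hn))
    (n18_19_6_4_5 hn))
    (n18_19_6_4_6 hn))

/-- the numbers of the pair `(6, 5)`, `R = 18`, `H = 19` -/
def d18_19_6_5 : BlkD.Pd :=
  ⟨18, 19, 4, 6, 5, 5, 1, 3, 2, 2, 6, 0, 2, 2, 6, 0, [0, 6, 12, 16, 18, 20], [0, 6, 12, 16, 18,
    20], [⟨1, 1, 1, 4, 8, [0, 4], [0, 4]⟩, ⟨1, 1, 1, 4, 12, [0, 6], [0, 6]⟩]⟩

lemma dk18_19_6_5 : BlkD.pairOk d18_19_6_5 = true := by decide +kernel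

/-- the certificates of the part 1 of the pair `(6, 5)` -/
def t18_19_6_5_1 : BlkD.Tr :=
  .L 4 4 [4, 4, 18, 18, 18, 18] [] [] 100000 59089 59089 1152274 62500 11742 75379 50000 0 0 0

lemma n18_19_6_5_1 {n : ℕ} (hn : 6 ≤ n) : NoNd ((18 : ℕ) : ℤ) ((19 : ℕ) : ℤ) n 6 5
    (BlkD.inB (fun _ => 0)
      (BlkD.upd (BlkD.upd (BlkD.upd (BlkD.upd (fun _ => 19) 0 6) 2 5) 0 3) 0 1)) :=
  BlkD.part_sound (d := d18_19_6_5) dk18_19_6_5 hn (by decide) (tr := t18_19_6_5_1)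
    (by decide +kernel) rfl rfl rfl rfl

/-- the certificates of the part 2 of the pair `(6, 5)` -/
def t18_19_6_5_2 : BlkD.Tr :=
  .S 0 2 (.L 4 4 [4, 4, 18, 18, 18, 18] [] [] 100000 75000 75000 1300000 50000 0 75000 50000 0 0 0)
    (.L 5 6 [4, 3, 18, 18, 18, 18] [] [] 100000 0 0 1394119 23529 11765 88235 64706 0 0 0)

lemma n18_19_6_5_2 {n : ℕ} (hn : 6 ≤ n) : NoNd ((18 : ℕ) : ℤ) ((19 : ℕ) : ℤ) n 6 5
    (BlkD.inB (BlkD.upd (fun _ => 0) 0 2)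
      (BlkD.upd (BlkD.upd (BlkD.upd (fun _ => 19) 0 6) 2 5) 0 3)) :=
  BlkD.part_sound (d := d18_19_6_5) dk18_19_6_5 hn (by decide) (tr := t18_19_6_5_2)
    (by decide +kernel) rfl rfl rfl rfl

/-- the certificates of the part 3 of the pair `(6, 5)` -/
def t18_19_6_5_3 : BlkD.Tr :=
  .L 5 6 [4, 3, 18, 18, 18, 18] [] [] 100000 0 0 1340001 33333 20000 53333 50000 0 0 0

lemma n18_19_6_5_3 {n : ℕ} (hn : 6 ≤ n) : NoNd ((18 : ℕ) : ℤ) ((19 : ℕ) : ℤ) n 6 5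
    (BlkD.inB (BlkD.upd (fun _ => 0) 0 4)
      (BlkD.upd (BlkD.upd (BlkD.upd (BlkD.upd (BlkD.upd (BlkD.upd (BlkD.upd (fun _ => 19) 0 6) 2 5) 0 5) 0 4) 1 15) 1 7) 1 3)) :=
  BlkD.part_sound (d := d18_19_6_5) dk18_19_6_5 hn (by decide) (tr := t18_19_6_5_3)
    (by decide +kernel) rfl rfl rfl rfl

/-- the certificates of the part 4 of the pair `(6, 5)` -/
def t18_19_6_5_4 : BlkD.Tr :=
  .S 1 5 (.L 5 6 [4, 3, 18, 18, 18, 18] [] [] 100000 0 0 1393336 26667 13333 63333 50000 0 0 0) (.L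
    5 6 [4, 3, 18, 18, 18, 18] [] [] 100000 1 1 1336842 21053 10526 100000 78947 0 0 0)

lemma n18_19_6_5_4 {n : ℕ} (hn : 6 ≤ n) : NoNd ((18 : ℕ) : ℤ) ((19 : ℕ) : ℤ) n 6 5
    (BlkD.inB (BlkD.upd (BlkD.upd (fun _ => 0) 0 4) 1 4)
      (BlkD.upd (BlkD.upd (BlkD.upd (BlkD.upd (BlkD.upd (BlkD.upd (fun _ => 19) 0 6) 2 5) 0 5) 0 4) 1 15) 1 7)) :=
  BlkD.part_sound (d := d18_19_6_5) dk18_19_6_5 hn (by decide) (tr := t18_19_6_5_4)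
    (by decide +kernel) rfl rfl rfl rfl

/-- the certificates of the part 5 of the pair `(6, 5)` -/
def t18_19_6_5_5 : BlkD.Tr :=
  .E 0

lemma n18_19_6_5_5 {n : ℕ} (hn : 6 ≤ n) : NoNd ((18 : ℕ) : ℤ) ((19 : ℕ) : ℤ) n 6 5
    (BlkD.inB (BlkD.upd (BlkD.upd (fun _ => 0) 0 4) 1 8)
      (BlkD.upd (BlkD.upd (BlkD.upd (BlkD.upd (BlkD.upd (fun _ => 19) 0 6) 2 5) 0 5) 0 4) 1 15)) :=
  BlkD.part_sound (d := d18_19_6_5) dk18_19_6_5 hn (by decide) (tr := t18_19_6_5_5)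
    (by decide +kernel) rfl rfl rfl rfl

/-- the certificates of the part 6 of the pair `(6, 5)` -/
def t18_19_6_5_6 : BlkD.Tr :=
  .E 0

lemma n18_19_6_5_6 {n : ℕ} (hn : 6 ≤ n) : NoNd ((18 : ℕ) : ℤ) ((19 : ℕ) : ℤ) n 6 5
    (BlkD.inB (BlkD.upd (BlkD.upd (fun _ => 0) 0 4) 1 16)
      (BlkD.upd (BlkD.upd (BlkD.upd (BlkD.upd (fun _ => 19) 0 6) 2 5) 0 5) 0 4)) :=
  BlkD.part_sound (d := d18_19_6_5) dk18_19_6_5 hn (by decide) (tr := t18_19_6_5_6)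
    (by decide +kernel) rfl rfl rfl rfl

/-- the certificates of the part 7 of the pair `(6, 5)` -/
def t18_19_6_5_7 : BlkD.Tr :=
  .L 5 6 [4, 3, 18, 18, 18, 18] [] [] 100000 0 0 1382859 8571 22857 77143 54286 0 0 0

lemma n18_19_6_5_7 {n : ℕ} (hn : 6 ≤ n) : NoNd ((18 : ℕ) : ℤ) ((19 : ℕ) : ℤ) n 6 5
    (BlkD.inB (BlkD.upd (BlkD.upd (fun _ => 0) 0 4) 0 5)
      (BlkD.upd (BlkD.upd (BlkD.upd (fun _ => 19) 0 6) 2 5) 0 5)) :=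
  BlkD.part_sound (d := d18_19_6_5) dk18_19_6_5 hn (by decide) (tr := t18_19_6_5_7)
    (by decide +kernel) rfl rfl rfl rfl

/-- the certificates of the part 8 of the pair `(6, 5)` -/
def t18_19_6_5_8 : BlkD.Tr :=
  .L 5 6 [4, 3, 18, 18, 18, 18] [] [] 100000 0 0 1360000 0 40000 50000 50000 0 0 0

lemma n18_19_6_5_8 {n : ℕ} (hn : 6 ≤ n) : NoNd ((18 : ℕ) : ℤ) ((19 : ℕ) : ℤ) n 6 5
    (BlkD.inB (BlkD.upd (BlkD.upd (fun _ => 0) 0 4) 0 6)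
      (BlkD.upd (BlkD.upd (fun _ => 19) 0 6) 2 5)) :=
  BlkD.part_sound (d := d18_19_6_5) dk18_19_6_5 hn (by decide) (tr := t18_19_6_5_8)
    (by decide +kernel) rfl rfl rfl rfl

/-- the certificates of the part 9 of the pair `(6, 5)` -/
def t18_19_6_5_9 : BlkD.Tr :=
  .E 1

lemma n18_19_6_5_9 {n : ℕ} (hn : 6 ≤ n) : NoNd ((18 : ℕ) : ℤ) ((19 : ℕ) : ℤ) n 6 5
    (BlkD.inB (BlkD.upd (fun _ => 0) 2 6)
      (BlkD.upd (fun _ => 19) 0 6)) :=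
  BlkD.part_sound (d := d18_19_6_5) dk18_19_6_5 hn (by decide) (tr := t18_19_6_5_9)
    (by decide +kernel) rfl rfl rfl rfl

/-- the certificates of the part 10 of the pair `(6, 5)` -/
def t18_19_6_5_10 : BlkD.Tr :=
  .E 0

lemma n18_19_6_5_10 {n : ℕ} (hn : 6 ≤ n) : NoNd ((18 : ℕ) : ℤ) ((19 : ℕ) : ℤ) n 6 5
    (BlkD.inB (BlkD.upd (fun _ => 0) 0 7)
      (fun _ => 19)) :=
  BlkD.part_sound (d := d18_19_6_5) dk18_19_6_5 hn (by decide) (tr := t18_19_6_5_10)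
    (by decide +kernel) rfl rfl rfl rfl

lemma pr18_19_6_5 {n : ℕ} (hn : 6 ≤ n) : NoPr ((18 : ℕ) : ℤ) ((19 : ℕ) : ℤ) n 6 5 :=
  BlkD.of_root (q := 4) (by decide) hn (BlkD.sp 0 6 (BlkD.sp 2 5 (BlkD.sp 0 3 (BlkD.sp 0 1 (n18_19_6_5_1 hn)
    (n18_19_6_5_2 hn))
    (BlkD.sp 0 5 (BlkD.sp 0 4 (BlkD.sp 1 15 (BlkD.sp 1 7 (BlkD.sp 1 3 (n18_19_6_5_3 hn)
    (n18_19_6_5_4 hn))
    (n18_19_6_5_5 hn))
    (n18_19_6_5_6 hn))
    (n18_19_6_5_7 hn))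
    (n18_19_6_5_8 hn)))
    (n18_19_6_5_9 hn))
    (n18_19_6_5_10 hn))

/-- the numbers of the pair `(6, 6)`, `R = 18`, `H = 19` -/
def d18_19_6_6 : BlkD.Pd :=
  ⟨18, 19, 4, 6, 6, 4, 0, 3, 0, 4, 4, 0, 0, 4, 4, 0, [0, 4, 8, 12, 16], [0, 4, 8, 12, 16], [⟨1, 1,
    1, 4, 8, [0, 4], [0, 4]⟩]⟩

lemma dk18_19_6_6 : BlkD.pairOk d18_19_6_6 = true := by decide +kernel

/-- the certificates of the part 1 of the pair `(6, 6)` -/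
def t18_19_6_6_1 : BlkD.Tr :=
  .L 3 3 [4, 18, 18, 18, 18, 18, 18] [] [] 100000 0 0 1400000 50000 50000 100000 100000 0 0 0

lemma n18_19_6_6_1 {n : ℕ} (hn : 6 ≤ n) : NoNd ((18 : ℕ) : ℤ) ((19 : ℕ) : ℤ) n 6 6
    (BlkD.inB (fun _ => 0)
      (BlkD.upd (BlkD.upd (BlkD.upd (BlkD.upd (fun _ => 19) 0 6) 2 6) 0 3) 0 1)) :=
  BlkD.part_sound (d := d18_19_6_6) dk18_19_6_6 hn (by decide) (tr := t18_19_6_6_1)
    (by decide +kernel) rfl rfl rfl rfl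

/-- the certificates of the part 2 of the pair `(6, 6)` -/
def t18_19_6_6_2 : BlkD.Tr :=
  .L 3 3 [4, 18, 18, 18, 18, 18, 18] [] [] 100000 0 0 1400000 50000 50000 100000 100000 0 0 0

lemma n18_19_6_6_2 {n : ℕ} (hn : 6 ≤ n) : NoNd ((18 : ℕ) : ℤ) ((19 : ℕ) : ℤ) n 6 6
    (BlkD.inB (BlkD.upd (fun _ => 0) 0 2)
      (BlkD.upd (BlkD.upd (BlkD.upd (fun _ => 19) 0 6) 2 6) 0 3)) :=
  BlkD.part_sound (d := d18_19_6_6) dk18_19_6_6 hn (by decide) (tr := t18_19_6_6_2)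
    (by decide +kernel) rfl rfl rfl rfl

/-- the certificates of the part 3 of the pair `(6, 6)` -/
def t18_19_6_6_3 : BlkD.Tr :=
  .L 3 3 [4, 18, 18, 18, 18, 18, 18] [] [] 100000 0 0 1400000 50000 50000 100000 100000 0 0 0

lemma n18_19_6_6_3 {n : ℕ} (hn : 6 ≤ n) : NoNd ((18 : ℕ) : ℤ) ((19 : ℕ) : ℤ) n 6 6
    (BlkD.inB (BlkD.upd (fun _ => 0) 0 4)
      (BlkD.upd (BlkD.upd (BlkD.upd (fun _ => 19) 0 6) 2 6) 0 5)) :=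
  BlkD.part_sound (d := d18_19_6_6) dk18_19_6_6 hn (by decide) (tr := t18_19_6_6_3)
    (by decide +kernel) rfl rfl rfl rfl

/-- the certificates of the part 4 of the pair `(6, 6)` -/
def t18_19_6_6_4 : BlkD.Tr :=
  .L 3 3 [4, 18, 18, 18, 18, 18, 18] [] [] 100000 0 0 1400000 50000 50000 100000 100000 0 0 0

lemma n18_19_6_6_4 {n : ℕ} (hn : 6 ≤ n) : NoNd ((18 : ℕ) : ℤ) ((19 : ℕ) : ℤ) n 6 6
    (BlkD.inB (BlkD.upd (BlkD.upd (fun _ => 0) 0 4) 0 6)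
      (BlkD.upd (BlkD.upd (fun _ => 19) 0 6) 2 6)) :=
  BlkD.part_sound (d := d18_19_6_6) dk18_19_6_6 hn (by decide) (tr := t18_19_6_6_4)
    (by decide +kernel) rfl rfl rfl rfl

/-- the certificates of the part 5 of the pair `(6, 6)` -/
def t18_19_6_6_5 : BlkD.Tr :=
  .E 1

lemma n18_19_6_6_5 {n : ℕ} (hn : 6 ≤ n) : NoNd ((18 : ℕ) : ℤ) ((19 : ℕ) : ℤ) n 6 6
    (BlkD.inB (BlkD.upd (fun _ => 0) 2 7)
      (BlkD.upd (fun _ => 19) 0 6)) :=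
  BlkD.part_sound (d := d18_19_6_6) dk18_19_6_6 hn (by decide) (tr := t18_19_6_6_5)
    (by decide +kernel) rfl rfl rfl rfl

/-- the certificates of the part 6 of the pair `(6, 6)` -/
def t18_19_6_6_6 : BlkD.Tr :=
  .E 0

lemma n18_19_6_6_6 {n : ℕ} (hn : 6 ≤ n) : NoNd ((18 : ℕ) : ℤ) ((19 : ℕ) : ℤ) n 6 6
    (BlkD.inB (BlkD.upd (fun _ => 0) 0 7)
      (fun _ => 19)) :=
  BlkD.part_sound (d := d18_19_6_6) dk18_19_6_6 hn (by decide) (tr := t18_19_6_6_6)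
    (by decide +kernel) rfl rfl rfl rfl

lemma pr18_19_6_6 {n : ℕ} (hn : 6 ≤ n) : NoPr ((18 : ℕ) : ℤ) ((19 : ℕ) : ℤ) n 6 6 :=
  BlkD.of_root (q := 4) (by decide) hn (BlkD.sp 0 6 (BlkD.sp 2 6 (BlkD.sp 0 3 (BlkD.sp 0 1 (n18_19_6_6_1 hn)
    (n18_19_6_6_2 hn))
    (BlkD.sp 0 5 (n18_19_6_6_3 hn)
    (n18_19_6_6_4 hn)))
    (n18_19_6_6_5 hn))
    (n18_19_6_6_6 hn))

/-- the numbers of the pair `(7, 0)`, `R = 18`, `H = 19` -/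
def d18_19_7_0 : BlkD.Pd :=
  ⟨18, 19, 4, 7, 0, 9, 0, 1, 0, 4, 4, 0, 0, 4, 4, 0, [0, 4, 8, 12, 16, 20, 24, 28, 32, 36], [0, 4,
    8, 12, 16, 20, 24, 28, 32, 36], [⟨1, 1, 1, 4, 8, [0, 4], [0, 4]⟩]⟩

lemma dk18_19_7_0 : BlkD.pairOk d18_19_7_0 = true := by decide +kernel

/-- the certificates of the part 1 of the pair `(7, 0)` -/
def t18_19_7_0_1 : BlkD.Tr :=
  .S 0 7 (.S 2 0 (.L 3 3 [4] [] [] 100000 0 0 825000 50000 0 75000 25000 0 0 0) (.E 1)) (.E 0)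

lemma n18_19_7_0_1 {n : ℕ} (hn : 6 ≤ n) : NoNd ((18 : ℕ) : ℤ) ((19 : ℕ) : ℤ) n 7 0
    (BlkD.inB (fun _ => 0)
      (fun _ => 19)) :=
  BlkD.part_sound (d := d18_19_7_0) dk18_19_7_0 hn (by decide) (tr := t18_19_7_0_1)
    (by decide +kernel) rfl rfl rfl rfl

lemma pr18_19_7_0 {n : ℕ} (hn : 6 ≤ n) : NoPr ((18 : ℕ) : ℤ) ((19 : ℕ) : ℤ) n 7 0 :=
  BlkD.of_root (q := 4) (by decide) hn (n18_19_7_0_1 hn)

/-- the numbers of the pair `(7, 1)`, `R = 18`, `H = 19` -/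
def d18_19_7_1 : BlkD.Pd :=
  ⟨18, 19, 4, 7, 1, 8, 1, 1, 2, 2, 6, 0, 0, 4, 4, 0, [0, 6, 12, 18, 24, 26, 28, 30, 32], [0, 4, 8,
    12, 16, 20, 24, 28, 32], [⟨1, 1, 1, 4, 8, [0, 4], [0, 4]⟩, ⟨1, 1, 1, 4, 10, [0, 6], [0, 4]⟩]⟩

lemma dk18_19_7_1 : BlkD.pairOk d18_19_7_1 = true := by decide +kernel

/-- the certificates of the part 1 of the pair `(7, 1)` -/
def t18_19_7_1_1 : BlkD.Tr :=
  .S 0 7 (.S 2 1 (.S 0 3 (.L 3 5 [4, 4] [] [] 100000 19231 1 846155 53846 0 76923 0 0 0 0) (.L 3 5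
    [4, 4] [] [] 100000 0 0 1080000 20000 0 60000 0 0 0 0)) (.E 1)) (.E 0)

lemma n18_19_7_1_1 {n : ℕ} (hn : 6 ≤ n) : NoNd ((18 : ℕ) : ℤ) ((19 : ℕ) : ℤ) n 7 1
    (BlkD.inB (fun _ => 0)
      (fun _ => 19)) :=
  BlkD.part_sound (d := d18_19_7_1) dk18_19_7_1 hn (by decide) (tr := t18_19_7_1_1)
    (by decide +kernel) rfl rfl rfl rfl

lemma pr18_19_7_1 {n : ℕ} (hn : 6 ≤ n) : NoPr ((18 : ℕ) : ℤ) ((19 : ℕ) : ℤ) n 7 1 :=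
  BlkD.of_root (q := 4) (by decide) hn (n18_19_7_1_1 hn)

end BlkC

end Pool.Agent.Lib.MP_f04ccf_co
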