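import Pool.Agent.Lib.MP_f04ccf_co.M.BlkTp

/-!
MP_f04ccf_co, block certificate, data `R = 18`, `H = 19`, part 3 (certificates: helper99, bd9.cpp).
-/

set_option autoImplicit false
set_option maxRecDepth 100000

namespace Pool.Agent.Lib.MP_f04ccf_co

namespace BlkC

/-- the numbers of the pair `(7, 2)`, `R = 18`, `H = 19` -/
def d18_19_7_2 : BlkD.Pd :=
  ⟨18, 19, 4, 7, 2, 7, 2, 2, 2, 2, 8, 0, 3, 1, 6, 0, [0, 8, 16, 20, 22, 24, 26, 28], [0, 6, 12, 16,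
    19, 22, 25, 28], [⟨1, 1, 1, 4, 8, [0, 4], [0, 4]⟩, ⟨1, 1, 1, 4, 10, [0, 6], [0, 4]⟩, ⟨2, 1, 1,
    4, 16, [0, 8, 10], [0, 6]⟩]⟩

lemma dk18_19_7_2 : BlkD.pairOk d18_19_7_2 = true := by decide +kernel

/-- the certificates of the part 1 of the pair `(7, 2)` -/
def t18_19_7_2_1 : BlkD.Tr :=
  .L 4 6 [4, 4, 4] [] [] 100000 50000 50000 500000 100000 0 100000 0 0 0 0

lemma n18_19_7_2_1 {n : ℕ} (hn : 6 ≤ n) : NoNd ((18 : ℕ) : ℤ) ((19 : ℕ) : ℤ) n 7 2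
    (BlkD.inB (fun _ => 0)
      (BlkD.upd (BlkD.upd (BlkD.upd (BlkD.upd (fun _ => 19) 0 7) 2 2) 0 3) 0 1)) :=
  BlkD.part_sound (d := d18_19_7_2) dk18_19_7_2 hn (by decide) (tr := t18_19_7_2_1)
    (by decide +kernel) rfl rfl rfl rfl

/-- the certificates of the part 2 of the pair `(7, 2)` -/
def t18_19_7_2_2 : BlkD.Tr :=
  .L 4 6 [4, 4, 4] [] [] 100000 80000 80000 880000 60000 0 80000 40000 0 0 0

lemma n18_19_7_2_2 {n : ℕ} (hn : 6 ≤ n) : NoNd ((18 : ℕ) : ℤ) ((19 : ℕ) : ℤ) n 7 2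
    (BlkD.inB (BlkD.upd (fun _ => 0) 0 2)
      (BlkD.upd (BlkD.upd (BlkD.upd (BlkD.upd (fun _ => 19) 0 7) 2 2) 0 3) 0 2)) :=
  BlkD.part_sound (d := d18_19_7_2) dk18_19_7_2 hn (by decide) (tr := t18_19_7_2_2)
    (by decide +kernel) rfl rfl rfl rfl

/-- the certificates of the part 3 of the pair `(7, 2)` -/
def t18_19_7_2_3 : BlkD.Tr :=
  .S 1 16 (.S 1 8 (.S 1 4 (.L 4 6 [4, 4, 4] [] [] 100000 16667 16667 866669 33333 0 33333 33333 0 0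
    0) (.S 1 6 (.L 4 6 [4, 4, 4] [] [] 100000 16667 16667 1000003 33333 0 33333 33333 0 0 0) (.S 1
    7 (.L 4 6 [4, 4, 4] [118, 116, 114, 112, 108, 100] [] 100000 7143 7143 1066670 33333 0 33333
    33333 0 19048 19048) (.L 4 6 [4, 4, 4] [140, 138, 136, 134, 132, 128] [] 100000 33334 33334
    1000000 50000 0 66667 33333 0 16667 16667)))) (.L 4 6 [4, 4, 4] [] [] 100000 5556 5556 1166668
    11111 0 88889 44444 0 11111 11111)) (.E 0)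

lemma n18_19_7_2_3 {n : ℕ} (hn : 6 ≤ n) : NoNd ((18 : ℕ) : ℤ) ((19 : ℕ) : ℤ) n 7 2
    (BlkD.inB (BlkD.upd (BlkD.upd (fun _ => 0) 0 2) 0 3)
      (BlkD.upd (BlkD.upd (BlkD.upd (fun _ => 19) 0 7) 2 2) 0 3)) :=
  BlkD.part_sound (d := d18_19_7_2) dk18_19_7_2 hn (by decide) (tr := t18_19_7_2_3)
    (by decide +kernel) rfl rfl rfl rfl

/-- the certificates of the part 4 of the pair `(7, 2)` -/
def t18_19_7_2_4 : BlkD.Tr :=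
  .S 1 15 (.S 1 7 (.S 1 3 (.L 4 6 [4, 4, 4] [] [] 100000 16667 16667 900002 33333 0 33333 33333 0 0
    0) (.S 1 5 (.L 4 6 [4, 4, 4] [] [] 100000 5357 5357 1075001 25000 0 25000 33333 0 14286 22619)
    (.S 1 6 (.L 4 6 [4, 4, 4] [110, 108, 106, 102, 94, 86] [] 100000 1 1 1142104 26316 0 60526
    32456 5263 32456 32456) (.L 4 6 [4, 4, 4] [132, 130, 128, 126, 122, 114] [] 100000 8333 8333
    1100002 33333 0 66667 33333 0 16667 16667)))) (.L 4 6 [4, 4, 4] [] [] 100000 0 0 1193750 6250 0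
    87500 50000 0 12500 12500)) (.E 0)

lemma n18_19_7_2_4 {n : ℕ} (hn : 6 ≤ n) : NoNd ((18 : ℕ) : ℤ) ((19 : ℕ) : ℤ) n 7 2
    (BlkD.inB (BlkD.upd (fun _ => 0) 0 4)
      (BlkD.upd (BlkD.upd (BlkD.upd (BlkD.upd (fun _ => 19) 0 7) 2 2) 0 5) 0 4)) :=
  BlkD.part_sound (d := d18_19_7_2) dk18_19_7_2 hn (by decide) (tr := t18_19_7_2_4)
    (by decide +kernel) rfl rfl rfl rfl

/-- the certificates of the part 5 of the pair `(7, 2)` -/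
def t18_19_7_2_5 : BlkD.Tr :=
  .L 4 6 [4, 4, 4] [] [] 100000 2 2 1189090 7273 0 81818 27273 0 18182 18182

lemma n18_19_7_2_5 {n : ℕ} (hn : 6 ≤ n) : NoNd ((18 : ℕ) : ℤ) ((19 : ℕ) : ℤ) n 7 2
    (BlkD.inB (BlkD.upd (BlkD.upd (fun _ => 0) 0 4) 0 5)
      (BlkD.upd (BlkD.upd (BlkD.upd (fun _ => 19) 0 7) 2 2) 0 5)) :=
  BlkD.part_sound (d := d18_19_7_2) dk18_19_7_2 hn (by decide) (tr := t18_19_7_2_5)
    (by decide +kernel) rfl rfl rfl rfl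

/-- the certificates of the part 6 of the pair `(7, 2)` -/
def t18_19_7_2_6 : BlkD.Tr :=
  .L 4 6 [4, 4, 4] [] [] 100000 0 0 1174158 8614 0 54307 33333 11423 3184 3184

lemma n18_19_7_2_6 {n : ℕ} (hn : 6 ≤ n) : NoNd ((18 : ℕ) : ℤ) ((19 : ℕ) : ℤ) n 7 2
    (BlkD.inB (BlkD.upd (BlkD.upd (fun _ => 0) 0 4) 0 6)
      (BlkD.upd (BlkD.upd (fun _ => 19) 0 7) 2 2)) :=
  BlkD.part_sound (d := d18_19_7_2) dk18_19_7_2 hn (by decide) (tr := t18_19_7_2_6)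
    (by decide +kernel) rfl rfl rfl rfl

/-- the certificates of the part 7 of the pair `(7, 2)` -/
def t18_19_7_2_7 : BlkD.Tr :=
  .E 1

lemma n18_19_7_2_7 {n : ℕ} (hn : 6 ≤ n) : NoNd ((18 : ℕ) : ℤ) ((19 : ℕ) : ℤ) n 7 2
    (BlkD.inB (BlkD.upd (fun _ => 0) 2 3)
      (BlkD.upd (fun _ => 19) 0 7)) :=
  BlkD.part_sound (d := d18_19_7_2) dk18_19_7_2 hn (by decide) (tr := t18_19_7_2_7)
    (by decide +kernel) rfl rfl rfl rfl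

/-- the certificates of the part 8 of the pair `(7, 2)` -/
def t18_19_7_2_8 : BlkD.Tr :=
  .E 0

lemma n18_19_7_2_8 {n : ℕ} (hn : 6 ≤ n) : NoNd ((18 : ℕ) : ℤ) ((19 : ℕ) : ℤ) n 7 2
    (BlkD.inB (BlkD.upd (fun _ => 0) 0 8)
      (fun _ => 19)) :=
  BlkD.part_sound (d := d18_19_7_2) dk18_19_7_2 hn (by decide) (tr := t18_19_7_2_8)
    (by decide +kernel) rfl rfl rfl rfl

lemma pr18_19_7_2 {n : ℕ} (hn : 6 ≤ n) : NoPr ((18 : ℕ) : ℤ) ((19 : ℕ) : ℤ) n 7 2 :=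
  BlkD.of_root (q := 4) (by decide) hn (BlkD.sp 0 7 (BlkD.sp 2 2 (BlkD.sp 0 3 (BlkD.sp 0 1 (n18_19_7_2_1 hn)
    (BlkD.sp 0 2 (n18_19_7_2_2 hn)
    (n18_19_7_2_3 hn)))
    (BlkD.sp 0 5 (BlkD.sp 0 4 (n18_19_7_2_4 hn)
    (n18_19_7_2_5 hn))
    (n18_19_7_2_6 hn)))
    (n18_19_7_2_7 hn))
    (n18_19_7_2_8 hn))

/-- the numbers of the pair `(7, 3)`, `R = 18`, `H = 19` -/
def d18_19_7_3 : BlkD.Pd :=
  ⟨18, 19, 4, 7, 3, 6, 2, 2, 2, 2, 8, 0, 2, 2, 6, 0, [0, 8, 16, 18, 20, 22, 24], [0, 6, 12, 18, 20,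
    22, 24], [⟨1, 1, 1, 4, 8, [0, 4], [0, 4]⟩, ⟨1, 1, 1, 4, 12, [0, 6], [0, 6]⟩, ⟨2, 1, 1, 4, 16,
    [0, 8, 10], [0, 6]⟩]⟩

lemma dk18_19_7_3 : BlkD.pairOk d18_19_7_3 = true := by decide +kernel

/-- the certificates of the part 1 of the pair `(7, 3)` -/
def t18_19_7_3_1 : BlkD.Tr :=
  .L 4 6 [4, 4, 4, 18] [] [] 100000 100000 100000 700000 100000 0 100000 0 0 0 0

lemma n18_19_7_3_1 {n : ℕ} (hn : 6 ≤ n) : NoNd ((18 : ℕ) : ℤ) ((19 : ℕ) : ℤ) n 7 3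
    (BlkD.inB (fun _ => 0)
      (BlkD.upd (BlkD.upd (BlkD.upd (BlkD.upd (fun _ => 19) 0 7) 2 3) 0 3) 0 1)) :=
  BlkD.part_sound (d := d18_19_7_3) dk18_19_7_3 hn (by decide) (tr := t18_19_7_3_1)
    (by decide +kernel) rfl rfl rfl rfl

/-- the certificates of the part 2 of the pair `(7, 3)` -/
def t18_19_7_3_2 : BlkD.Tr :=
  .L 4 6 [4, 4, 4, 18] [] [] 100000 143750 143750 925000 75000 0 87500 75000 0 0 0

lemma n18_19_7_3_2 {n : ℕ} (hn : 6 ≤ n) : NoNd ((18 : ℕ) : ℤ) ((19 : ℕ) : ℤ) n 7 3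
    (BlkD.inB (BlkD.upd (fun _ => 0) 0 2)
      (BlkD.upd (BlkD.upd (BlkD.upd (BlkD.upd (fun _ => 19) 0 7) 2 3) 0 3) 0 2)) :=
  BlkD.part_sound (d := d18_19_7_3) dk18_19_7_3 hn (by decide) (tr := t18_19_7_3_2)
    (by decide +kernel) rfl rfl rfl rfl

/-- the certificates of the part 3 of the pair `(7, 3)` -/
def t18_19_7_3_3 : BlkD.Tr :=
  .S 1 16 (.S 1 8 (.S 1 4 (.L 4 6 [4, 4, 4, 18] [] [] 100000 12500 12500 1100000 25000 0 25000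
    25000 0 0 0) (.S 1 6 (.S 1 5 (.L 4 6 [4, 4, 4, 18] [86, 84, 76, 68, 60, 50] [] 100000 3573 3573
    1192856 21429 0 32143 14286 0 14286 14286) (.L 4 6 [4, 4, 4, 18] [104, 102, 100, 92, 84, 76] []
    100000 33334 33334 1166667 38889 0 50000 22222 0 0 11111)) (.S 1 7 (.L 4 6 [4, 4, 4, 18] [124,
    122, 120, 118, 110, 102] [] 100000 85000 85000 1080000 60000 0 80000 40000 0 0 10000) (.L 4 6
    [4, 4, 4, 18] [146, 144, 142, 140, 138, 130] [] 100000 100001 100001 1050000 66667 0 83333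
    50000 0 0 0)))) (.S 1 12 (.S 1 10 (.S 1 9 (.L 4 6 [4, 4, 4, 18] [170, 168, 166, 164, 162, 160]
    [] 100000 50000 50000 1100000 50000 0 100000 50000 0 0 0) (.L 4 6 [4, 4, 4, 18] [196, 194, 192,
    190, 188, 186] [] 100000 71429 71429 1014285 57143 0 100000 50000 0 0 0)) (.L 4 6 [4, 4, 4, 18]
    [] [] 100000 200000 0 1 33333 0 300000 66667 0 0 0)) (.E 0))) (.E 0)

lemma n18_19_7_3_3 {n : ℕ} (hn : 6 ≤ n) : NoNd ((18 : ℕ) : ℤ) ((19 : ℕ) : ℤ) n 7 3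
    (BlkD.inB (BlkD.upd (BlkD.upd (fun _ => 0) 0 2) 0 3)
      (BlkD.upd (BlkD.upd (BlkD.upd (fun _ => 19) 0 7) 2 3) 0 3)) :=
  BlkD.part_sound (d := d18_19_7_3) dk18_19_7_3 hn (by decide) (tr := t18_19_7_3_3)
    (by decide +kernel) rfl rfl rfl rfl

/-- the certificates of the part 4 of the pair `(7, 3)` -/
def t18_19_7_3_4 : BlkD.Tr :=
  .S 1 15 (.S 1 7 (.S 1 3 (.L 4 6 [4, 4, 4, 18] [] [] 100000 0 0 1200000 0 0 0 0 0 0 0) (.S 1 5 (.S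
    1 4 (.L 4 6 [4, 4, 4, 18] [78, 70, 62, 54, 44, 0] [] 100000 4546 4546 1190908 27273 0 27273
    18182 0 18182 18182) (.L 4 6 [4, 4, 4, 18] [96, 94, 86, 78, 70, 60] [] 100000 21429 21429
    1221430 35714 0 39286 21429 0 21429 21429)) (.S 1 6 (.S 2 1 (.L 4 6 [4, 4, 4, 18] [116, 114,
    112, 104, 96, 88] [] 100000 47826 47826 1195655 39130 17391 73913 34783 0 13043 13043) (.L 4 6
    [4, 4, 4, 18] [116, 114, 112, 104, 96, 88] [] 100000 37500 37500 1218750 43750 0 62500 12500 0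
    18750 18750)) (.L 4 6 [4, 4, 4, 18] [138, 136, 134, 132, 124, 116] [] 100000 59757 59757
    1168292 51220 0 87805 26829 0 9756 9756)))) (.S 1 11 (.S 1 9 (.S 1 8 (.L 4 6 [4, 4, 4, 18]
    [162, 160, 158, 156, 154, 146] [] 100000 50000 50000 1100000 50000 0 100000 50000 0 0 0) (.L 4
    6 [4, 4, 4, 18] [188, 186, 184, 182, 180, 178] [] 100000 92593 55556 866668 74074 0 137037
    33333 0 0 0)) (.E 0)) (.E 0))) (.E 0)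

lemma n18_19_7_3_4 {n : ℕ} (hn : 6 ≤ n) : NoNd ((18 : ℕ) : ℤ) ((19 : ℕ) : ℤ) n 7 3
    (BlkD.inB (BlkD.upd (fun _ => 0) 0 4)
      (BlkD.upd (BlkD.upd (BlkD.upd (BlkD.upd (fun _ => 19) 0 7) 2 3) 0 5) 0 4)) :=
  BlkD.part_sound (d := d18_19_7_3) dk18_19_7_3 hn (by decide) (tr := t18_19_7_3_4)
    (by decide +kernel) rfl rfl rfl rfl

/-- the certificates of the part 5 of the pair `(7, 3)` -/
def t18_19_7_3_5 : BlkD.Tr :=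
  .S 1 14 (.S 1 7 (.S 1 3 (.L 4 6 [4, 4, 4, 18] [] [] 100000 10000 10000 1180000 40000 0 60000
    20000 0 20000 20000) (.S 1 5 (.S 1 4 (.S 2 1 (.L 4 6 [4, 4, 4, 18] [86, 78, 70, 62, 52, 0] []
    100000 1 1 1284615 21154 15385 38462 30769 0 30769 30769) (.S 2 2 (.S 3 8 (.S 3 4 (.S 3 2 (.L 4
    6 [4, 4, 4, 18] [86, 78, 70, 62, 52, 0] [] 100000 0 0 1225000 25000 0 37500 25000 0 25000
    25000) (.S 3 3 (.L 6 8 [4, 4, 3, 18] [86, 78, 70, 62, 52, 0] [42, 36, 28, 18, 0, 0] 100000 0 0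
    1266668 33333 0 33333 0 0 33333 33333) (.E 1))) (.E 1)) (.E 1)) (.L 6 8 [4, 4, 3, 18] [86, 78,
    70, 62, 52, 0] [] 100000 0 0 1233334 33333 0 33333 0 0 33333 33333))) (.L 6 8 [4, 4, 3, 18]
    [106, 104, 96, 88, 80, 70] [] 100000 7813 7813 1246875 28125 0 84375 40625 0 12500 21875)) (.L
    6 8 [4, 4, 3, 18] [] [] 100000 1 1 1296365 9091 0 85455 67273 7273 16364 16364))) (.E 0)) (.E
    0)

lemma n18_19_7_3_5 {n : ℕ} (hn : 6 ≤ n) : NoNd ((18 : ℕ) : ℤ) ((19 : ℕ) : ℤ) n 7 3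
    (BlkD.inB (BlkD.upd (BlkD.upd (fun _ => 0) 0 4) 0 5)
      (BlkD.upd (BlkD.upd (BlkD.upd (fun _ => 19) 0 7) 2 3) 0 5)) :=
  BlkD.part_sound (d := d18_19_7_3) dk18_19_7_3 hn (by decide) (tr := t18_19_7_3_5)
    (by decide +kernel) rfl rfl rfl rfl

/-- the certificates of the part 6 of the pair `(7, 3)` -/
def t18_19_7_3_6 : BlkD.Tr :=
  .L 6 8 [4, 4, 3, 18] [] [] 100000 1 1 1285716 7143 0 53571 46429 0 7143 7143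

lemma n18_19_7_3_6 {n : ℕ} (hn : 6 ≤ n) : NoNd ((18 : ℕ) : ℤ) ((19 : ℕ) : ℤ) n 7 3
    (BlkD.inB (BlkD.upd (BlkD.upd (fun _ => 0) 0 4) 0 6)
      (BlkD.upd (BlkD.upd (fun _ => 19) 0 7) 2 3)) :=
  BlkD.part_sound (d := d18_19_7_3) dk18_19_7_3 hn (by decide) (tr := t18_19_7_3_6)
    (by decide +kernel) rfl rfl rfl rfl

/-- the certificates of the part 7 of the pair `(7, 3)` -/
def t18_19_7_3_7 : BlkD.Tr :=
  .E 1

lemma n18_19_7_3_7 {n : ℕ} (hn : 6 ≤ n) : NoNd ((18 : ℕ) : ℤ) ((19 : ℕ) : ℤ) n 7 3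
    (BlkD.inB (BlkD.upd (fun _ => 0) 2 4)
      (BlkD.upd (fun _ => 19) 0 7)) :=
  BlkD.part_sound (d := d18_19_7_3) dk18_19_7_3 hn (by decide) (tr := t18_19_7_3_7)
    (by decide +kernel) rfl rfl rfl rfl

/-- the certificates of the part 8 of the pair `(7, 3)` -/
def t18_19_7_3_8 : BlkD.Tr :=
  .E 0

lemma n18_19_7_3_8 {n : ℕ} (hn : 6 ≤ n) : NoNd ((18 : ℕ) : ℤ) ((19 : ℕ) : ℤ) n 7 3
    (BlkD.inB (BlkD.upd (fun _ => 0) 0 8)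
      (fun _ => 19)) :=
  BlkD.part_sound (d := d18_19_7_3) dk18_19_7_3 hn (by decide) (tr := t18_19_7_3_8)
    (by decide +kernel) rfl rfl rfl rfl

lemma pr18_19_7_3 {n : ℕ} (hn : 6 ≤ n) : NoPr ((18 : ℕ) : ℤ) ((19 : ℕ) : ℤ) n 7 3 :=
  BlkD.of_root (q := 4) (by decide) hn (BlkD.sp 0 7 (BlkD.sp 2 3 (BlkD.sp 0 3 (BlkD.sp 0 1 (n18_19_7_3_1 hn)
    (BlkD.sp 0 2 (n18_19_7_3_2 hn)
    (n18_19_7_3_3 hn)))
    (BlkD.sp 0 5 (BlkD.sp 0 4 (n18_19_7_3_4 hn)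
    (n18_19_7_3_5 hn))
    (n18_19_7_3_6 hn)))
    (n18_19_7_3_7 hn))
    (n18_19_7_3_8 hn))

/-- the numbers of the pair `(7, 4)`, `R = 18`, `H = 19` -/
def d18_19_7_4 : BlkD.Pd :=
  ⟨18, 19, 4, 7, 4, 5, 1, 3, 2, 2, 6, 0, 2, 2, 6, 0, [0, 6, 12, 16, 18, 20], [0, 6, 12, 16, 18,
    20], [⟨1, 1, 1, 4, 8, [0, 4], [0, 4]⟩, ⟨1, 1, 1, 4, 12, [0, 6], [0, 6]⟩]⟩

lemma dk18_19_7_4 : BlkD.pairOk d18_19_7_4 = true := by decide +kernel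

/-- the certificates of the part 1 of the pair `(7, 4)` -/
def t18_19_7_4_1 : BlkD.Tr :=
  .L 6 8 [4, 3, 18, 18, 18] [] [] 100000 0 0 1300000 62500 3125 75000 34375 0 0 0

lemma n18_19_7_4_1 {n : ℕ} (hn : 6 ≤ n) : NoNd ((18 : ℕ) : ℤ) ((19 : ℕ) : ℤ) n 7 4
    (BlkD.inB (fun _ => 0)
      (BlkD.upd (BlkD.upd (BlkD.upd (BlkD.upd (fun _ => 19) 0 7) 2 4) 0 3) 0 1)) :=
  BlkD.part_sound (d := d18_19_7_4) dk18_19_7_4 hn (by decide) (tr := t18_19_7_4_1)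
    (by decide +kernel) rfl rfl rfl rfl

/-- the certificates of the part 2 of the pair `(7, 4)` -/
def t18_19_7_4_2 : BlkD.Tr :=
  .L 6 8 [4, 3, 18, 18, 18] [] [] 100000 0 0 1300000 62500 3125 75000 34375 0 0 0

lemma n18_19_7_4_2 {n : ℕ} (hn : 6 ≤ n) : NoNd ((18 : ℕ) : ℤ) ((19 : ℕ) : ℤ) n 7 4
    (BlkD.inB (BlkD.upd (fun _ => 0) 0 2)
      (BlkD.upd (BlkD.upd (BlkD.upd (fun _ => 19) 0 7) 2 4) 0 3)) :=
  BlkD.part_sound (d := d18_19_7_4) dk18_19_7_4 hn (by decide) (tr := t18_19_7_4_2)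
    (by decide +kernel) rfl rfl rfl rfl

/-- the certificates of the part 3 of the pair `(7, 4)` -/
def t18_19_7_4_3 : BlkD.Tr :=
  .L 5 6 [4, 3, 18, 18, 18] [] [] 100000 0 0 1382354 35294 5882 70588 44118 0 0 0

lemma n18_19_7_4_3 {n : ℕ} (hn : 6 ≤ n) : NoNd ((18 : ℕ) : ℤ) ((19 : ℕ) : ℤ) n 7 4
    (BlkD.inB (BlkD.upd (fun _ => 0) 0 4)
      (BlkD.upd (BlkD.upd (BlkD.upd (BlkD.upd (fun _ => 19) 0 7) 2 4) 0 5) 0 4)) :=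
  BlkD.part_sound (d := d18_19_7_4) dk18_19_7_4 hn (by decide) (tr := t18_19_7_4_3)
    (by decide +kernel) rfl rfl rfl rfl

/-- the certificates of the part 4 of the pair `(7, 4)` -/
def t18_19_7_4_4 : BlkD.Tr :=
  .L 5 6 [4, 3, 18, 18, 18] [] [] 100000 0 0 1382354 35294 5882 70588 44118 0 0 0

lemma n18_19_7_4_4 {n : ℕ} (hn : 6 ≤ n) : NoNd ((18 : ℕ) : ℤ) ((19 : ℕ) : ℤ) n 7 4
    (BlkD.inB (BlkD.upd (BlkD.upd (fun _ => 0) 0 4) 0 5)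
      (BlkD.upd (BlkD.upd (BlkD.upd (fun _ => 19) 0 7) 2 4) 0 5)) :=
  BlkD.part_sound (d := d18_19_7_4) dk18_19_7_4 hn (by decide) (tr := t18_19_7_4_4)
    (by decide +kernel) rfl rfl rfl rfl

/-- the certificates of the part 5 of the pair `(7, 4)` -/
def t18_19_7_4_5 : BlkD.Tr :=
  .L 5 6 [4, 3, 18, 18, 18] [] [] 100000 2 2 1363636 18182 18182 100000 81818 0 0 0

lemma n18_19_7_4_5 {n : ℕ} (hn : 6 ≤ n) : NoNd ((18 : ℕ) : ℤ) ((19 : ℕ) : ℤ) n 7 4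
    (BlkD.inB (BlkD.upd (BlkD.upd (fun _ => 0) 0 4) 0 6)
      (BlkD.upd (BlkD.upd (BlkD.upd (fun _ => 19) 0 7) 2 4) 0 6)) :=
  BlkD.part_sound (d := d18_19_7_4) dk18_19_7_4 hn (by decide) (tr := t18_19_7_4_5)
    (by decide +kernel) rfl rfl rfl rfl

/-- the certificates of the part 6 of the pair `(7, 4)` -/
def t18_19_7_4_6 : BlkD.Tr :=
  .L 5 6 [4, 3, 18, 18, 18] [] [] 100000 2 2 1363636 18182 18182 100000 81818 0 0 0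

lemma n18_19_7_4_6 {n : ℕ} (hn : 6 ≤ n) : NoNd ((18 : ℕ) : ℤ) ((19 : ℕ) : ℤ) n 7 4
    (BlkD.inB (BlkD.upd (BlkD.upd (BlkD.upd (fun _ => 0) 0 4) 0 6) 0 7)
      (BlkD.upd (BlkD.upd (fun _ => 19) 0 7) 2 4)) :=
  BlkD.part_sound (d := d18_19_7_4) dk18_19_7_4 hn (by decide) (tr := t18_19_7_4_6)
    (by decide +kernel) rfl rfl rfl rfl

/-- the certificates of the part 7 of the pair `(7, 4)` -/
def t18_19_7_4_7 : BlkD.Tr :=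
  .E 1

lemma n18_19_7_4_7 {n : ℕ} (hn : 6 ≤ n) : NoNd ((18 : ℕ) : ℤ) ((19 : ℕ) : ℤ) n 7 4
    (BlkD.inB (BlkD.upd (fun _ => 0) 2 5)
      (BlkD.upd (fun _ => 19) 0 7)) :=
  BlkD.part_sound (d := d18_19_7_4) dk18_19_7_4 hn (by decide) (tr := t18_19_7_4_7)
    (by decide +kernel) rfl rfl rfl rfl

/-- the certificates of the part 8 of the pair `(7, 4)` -/
def t18_19_7_4_8 : BlkD.Tr :=
  .E 0

lemma n18_19_7_4_8 {n : ℕ} (hn : 6 ≤ n) : NoNd ((18 : ℕ) : ℤ) ((19 : ℕ) : ℤ) n 7 4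
    (BlkD.inB (BlkD.upd (fun _ => 0) 0 8)
      (fun _ => 19)) :=
  BlkD.part_sound (d := d18_19_7_4) dk18_19_7_4 hn (by decide) (tr := t18_19_7_4_8)
    (by decide +kernel) rfl rfl rfl rfl

lemma pr18_19_7_4 {n : ℕ} (hn : 6 ≤ n) : NoPr ((18 : ℕ) : ℤ) ((19 : ℕ) : ℤ) n 7 4 :=
  BlkD.of_root (q := 4) (by decide) hn (BlkD.sp 0 7 (BlkD.sp 2 4 (BlkD.sp 0 3 (BlkD.sp 0 1 (n18_19_7_4_1 hn)
    (n18_19_7_4_2 hn))
    (BlkD.sp 0 5 (BlkD.sp 0 4 (n18_19_7_4_3 hn)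
    (n18_19_7_4_4 hn))
    (BlkD.sp 0 6 (n18_19_7_4_5 hn)
    (n18_19_7_4_6 hn))))
    (n18_19_7_4_7 hn))
    (n18_19_7_4_8 hn))

/-- the numbers of the pair `(7, 5)`, `R = 18`, `H = 19` -/
def d18_19_7_5 : BlkD.Pd :=
  ⟨18, 19, 4, 7, 5, 4, 0, 3, 0, 4, 4, 0, 0, 4, 4, 0, [0, 4, 8, 12, 16], [0, 4, 8, 12, 16], [⟨1, 1,
    1, 4, 8, [0, 4], [0, 4]⟩]⟩

lemma dk18_19_7_5 : BlkD.pairOk d18_19_7_5 = true := by decide +kernel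

/-- the certificates of the part 1 of the pair `(7, 5)` -/
def t18_19_7_5_1 : BlkD.Tr :=
  .L 3 3 [4, 18, 18, 18, 18, 18] [] [] 100000 0 0 1400000 50000 50000 100000 50000 0 0 0

lemma n18_19_7_5_1 {n : ℕ} (hn : 6 ≤ n) : NoNd ((18 : ℕ) : ℤ) ((19 : ℕ) : ℤ) n 7 5
    (BlkD.inB (fun _ => 0)
      (BlkD.upd (BlkD.upd (BlkD.upd (BlkD.upd (BlkD.upd (fun _ => 19) 0 7) 2 5) 0 3) 0 1) 0 0)) :=
  BlkD.part_sound (d := d18_19_7_5) dk18_19_7_5 hn (by decide) (tr := t18_19_7_5_1)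
    (by decide +kernel) rfl rfl rfl rfl

/-- the certificates of the part 2 of the pair `(7, 5)` -/
def t18_19_7_5_2 : BlkD.Tr :=
  .L 3 3 [4, 18, 18, 18, 18, 18] [] [] 100000 0 0 1400000 50000 50000 100000 50000 0 0 0

lemma n18_19_7_5_2 {n : ℕ} (hn : 6 ≤ n) : NoNd ((18 : ℕ) : ℤ) ((19 : ℕ) : ℤ) n 7 5
    (BlkD.inB (BlkD.upd (fun _ => 0) 0 1)
      (BlkD.upd (BlkD.upd (BlkD.upd (BlkD.upd (fun _ => 19) 0 7) 2 5) 0 3) 0 1)) :=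
  BlkD.part_sound (d := d18_19_7_5) dk18_19_7_5 hn (by decide) (tr := t18_19_7_5_2)
    (by decide +kernel) rfl rfl rfl rfl

/-- the certificates of the part 3 of the pair `(7, 5)` -/
def t18_19_7_5_3 : BlkD.Tr :=
  .L 3 3 [4, 18, 18, 18, 18, 18] [] [] 100000 0 0 1400000 50000 50000 100000 50000 0 0 0

lemma n18_19_7_5_3 {n : ℕ} (hn : 6 ≤ n) : NoNd ((18 : ℕ) : ℤ) ((19 : ℕ) : ℤ) n 7 5
    (BlkD.inB (BlkD.upd (fun _ => 0) 0 2)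
      (BlkD.upd (BlkD.upd (BlkD.upd (BlkD.upd (fun _ => 19) 0 7) 2 5) 0 3) 0 2)) :=
  BlkD.part_sound (d := d18_19_7_5) dk18_19_7_5 hn (by decide) (tr := t18_19_7_5_3)
    (by decide +kernel) rfl rfl rfl rfl

/-- the certificates of the part 4 of the pair `(7, 5)` -/
def t18_19_7_5_4 : BlkD.Tr :=
  .L 3 3 [4, 18, 18, 18, 18, 18] [] [] 100000 0 0 1400000 50000 50000 100000 50000 0 0 0

lemma n18_19_7_5_4 {n : ℕ} (hn : 6 ≤ n) : NoNd ((18 : ℕ) : ℤ) ((19 : ℕ) : ℤ) n 7 5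
    (BlkD.inB (BlkD.upd (BlkD.upd (fun _ => 0) 0 2) 0 3)
      (BlkD.upd (BlkD.upd (BlkD.upd (fun _ => 19) 0 7) 2 5) 0 3)) :=
  BlkD.part_sound (d := d18_19_7_5) dk18_19_7_5 hn (by decide) (tr := t18_19_7_5_4)
    (by decide +kernel) rfl rfl rfl rfl

/-- the certificates of the part 5 of the pair `(7, 5)` -/
def t18_19_7_5_5 : BlkD.Tr :=
  .L 3 3 [4, 18, 18, 18, 18, 18] [] [] 100000 0 0 1400000 50000 50000 100000 50000 0 0 0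

lemma n18_19_7_5_5 {n : ℕ} (hn : 6 ≤ n) : NoNd ((18 : ℕ) : ℤ) ((19 : ℕ) : ℤ) n 7 5
    (BlkD.inB (BlkD.upd (fun _ => 0) 0 4)
      (BlkD.upd (BlkD.upd (BlkD.upd (BlkD.upd (fun _ => 19) 0 7) 2 5) 0 5) 0 4)) :=
  BlkD.part_sound (d := d18_19_7_5) dk18_19_7_5 hn (by decide) (tr := t18_19_7_5_5)
    (by decide +kernel) rfl rfl rfl rfl

/-- the certificates of the part 6 of the pair `(7, 5)` -/
def t18_19_7_5_6 : BlkD.Tr :=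
  .L 3 3 [4, 18, 18, 18, 18, 18] [] [] 100000 0 0 1400000 50000 50000 100000 50000 0 0 0

lemma n18_19_7_5_6 {n : ℕ} (hn : 6 ≤ n) : NoNd ((18 : ℕ) : ℤ) ((19 : ℕ) : ℤ) n 7 5
    (BlkD.inB (BlkD.upd (BlkD.upd (fun _ => 0) 0 4) 0 5)
      (BlkD.upd (BlkD.upd (BlkD.upd (fun _ => 19) 0 7) 2 5) 0 5)) :=
  BlkD.part_sound (d := d18_19_7_5) dk18_19_7_5 hn (by decide) (tr := t18_19_7_5_6)
    (by decide +kernel) rfl rfl rfl rfl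

/-- the certificates of the part 7 of the pair `(7, 5)` -/
def t18_19_7_5_7 : BlkD.Tr :=
  .L 3 3 [4, 18, 18, 18, 18, 18] [] [] 100000 0 0 1400000 50000 50000 100000 50000 0 0 0

lemma n18_19_7_5_7 {n : ℕ} (hn : 6 ≤ n) : NoNd ((18 : ℕ) : ℤ) ((19 : ℕ) : ℤ) n 7 5
    (BlkD.inB (BlkD.upd (BlkD.upd (fun _ => 0) 0 4) 0 6)
      (BlkD.upd (BlkD.upd (BlkD.upd (fun _ => 19) 0 7) 2 5) 0 6)) :=
  BlkD.part_sound (d := d18_19_7_5) dk18_19_7_5 hn (by decide) (tr := t18_19_7_5_7)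
    (by decide +kernel) rfl rfl rfl rfl

/-- the certificates of the part 8 of the pair `(7, 5)` -/
def t18_19_7_5_8 : BlkD.Tr :=
  .L 3 3 [4, 18, 18, 18, 18, 18] [] [] 100000 0 0 1400000 50000 50000 100000 50000 0 0 0

lemma n18_19_7_5_8 {n : ℕ} (hn : 6 ≤ n) : NoNd ((18 : ℕ) : ℤ) ((19 : ℕ) : ℤ) n 7 5
    (BlkD.inB (BlkD.upd (BlkD.upd (BlkD.upd (fun _ => 0) 0 4) 0 6) 0 7)
      (BlkD.upd (BlkD.upd (fun _ => 19) 0 7) 2 5)) :=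
  BlkD.part_sound (d := d18_19_7_5) dk18_19_7_5 hn (by decide) (tr := t18_19_7_5_8)
    (by decide +kernel) rfl rfl rfl rfl

/-- the certificates of the part 9 of the pair `(7, 5)` -/
def t18_19_7_5_9 : BlkD.Tr :=
  .E 1

lemma n18_19_7_5_9 {n : ℕ} (hn : 6 ≤ n) : NoNd ((18 : ℕ) : ℤ) ((19 : ℕ) : ℤ) n 7 5
    (BlkD.inB (BlkD.upd (fun _ => 0) 2 6)
      (BlkD.upd (fun _ => 19) 0 7)) :=
  BlkD.part_sound (d := d18_19_7_5) dk18_19_7_5 hn (by decide) (tr := t18_19_7_5_9)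
    (by decide +kernel) rfl rfl rfl rfl

/-- the certificates of the part 10 of the pair `(7, 5)` -/
def t18_19_7_5_10 : BlkD.Tr :=
  .E 0

lemma n18_19_7_5_10 {n : ℕ} (hn : 6 ≤ n) : NoNd ((18 : ℕ) : ℤ) ((19 : ℕ) : ℤ) n 7 5
    (BlkD.inB (BlkD.upd (fun _ => 0) 0 8)
      (fun _ => 19)) :=
  BlkD.part_sound (d := d18_19_7_5) dk18_19_7_5 hn (by decide) (tr := t18_19_7_5_10)
    (by decide +kernel) rfl rfl rfl rfl

lemma pr18_19_7_5 {n : ℕ} (hn : 6 ≤ n) : NoPr ((18 : ℕ) : ℤ) ((19 : ℕ) : ℤ) n 7 5 :=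
  BlkD.of_root (q := 4) (by decide) hn (BlkD.sp 0 7 (BlkD.sp 2 5 (BlkD.sp 0 3 (BlkD.sp 0 1 (BlkD.sp 0 0 (n18_19_7_5_1 hn)
    (n18_19_7_5_2 hn))
    (BlkD.sp 0 2 (n18_19_7_5_3 hn)
    (n18_19_7_5_4 hn)))
    (BlkD.sp 0 5 (BlkD.sp 0 4 (n18_19_7_5_5 hn)
    (n18_19_7_5_6 hn))
    (BlkD.sp 0 6 (n18_19_7_5_7 hn)
    (n18_19_7_5_8 hn))))
    (n18_19_7_5_9 hn))
    (n18_19_7_5_10 hn))

/-- the numbers of the pair `(8, 0)`, `R = 18`, `H = 19` -/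
def d18_19_8_0 : BlkD.Pd :=
  ⟨18, 19, 4, 8, 0, 8, 0, 1, 0, 4, 4, 0, 0, 4, 4, 0, [0, 4, 8, 12, 16, 20, 24, 28, 32], [0, 4, 8,
    12, 16, 20, 24, 28, 32], [⟨1, 1, 1, 4, 8, [0, 4], [0, 4]⟩]⟩

lemma dk18_19_8_0 : BlkD.pairOk d18_19_8_0 = true := by decide +kernel

/-- the certificates of the part 1 of the pair `(8, 0)` -/
def t18_19_8_0_1 : BlkD.Tr :=
  .S 0 8 (.S 2 0 (.L 3 3 [4] [] [] 100000 0 0 935135 64865 0 72973 27027 0 0 0) (.E 1)) (.E 0)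

lemma n18_19_8_0_1 {n : ℕ} (hn : 6 ≤ n) : NoNd ((18 : ℕ) : ℤ) ((19 : ℕ) : ℤ) n 8 0
    (BlkD.inB (fun _ => 0)
      (fun _ => 19)) :=
  BlkD.part_sound (d := d18_19_8_0) dk18_19_8_0 hn (by decide) (tr := t18_19_8_0_1)
    (by decide +kernel) rfl rfl rfl rfl

lemma pr18_19_8_0 {n : ℕ} (hn : 6 ≤ n) : NoPr ((18 : ℕ) : ℤ) ((19 : ℕ) : ℤ) n 8 0 :=
  BlkD.of_root (q := 4) (by decide) hn (n18_19_8_0_1 hn)

end BlkC

end Pool.Agent.Lib.MP_f04ccf_co
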