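import Pool.Agent.Lib.MP_f04ccf_co.M.BlkTp

/-!
MP_f04ccf_co, block certificate, data `R = 18`, `H = 19`, part 4 (certificates: helper99, bd9.cpp).
-/

set_option autoImplicit false
set_option maxRecDepth 100000

namespace Pool.Agent.Lib.MP_f04ccf_co

namespace BlkC

/-- the numbers of the pair `(8, 1)`, `R = 18`, `H = 19` -/
def d18_19_8_1 : BlkD.Pd :=
  ⟨18, 19, 4, 8, 1, 7, 1, 1, 0, 4, 8, 0, 0, 4, 4, 0, [0, 8, 16, 24, 28, 28, 28, 28], [0, 4, 8, 12,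
    16, 20, 24, 28], [⟨1, 1, 1, 4, 8, [0, 4], [0, 4]⟩, ⟨1, 1, 1, 4, 12, [0, 8], [0, 4]⟩]⟩

lemma dk18_19_8_1 : BlkD.pairOk d18_19_8_1 = true := by decide +kernel

/-- the certificates of the part 1 of the pair `(8, 1)` -/
def t18_19_8_1_1 : BlkD.Tr :=
  .S 0 2 (.L 3 5 [4, 4] [] [] 100000 100000 100000 500000 100000 0 100000 0 0 0 0) (.S 0 3 (.S 1 16
    (.S 1 8 (.L 3 5 [4, 4] [] [] 100000 100000 100000 750000 75000 0 75000 0 0 0 0) (.S 1 12 (.L 3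
    5 [4, 4] [] [] 100000 0 0 1100000 50000 0 50000 0 0 0 0) (.S 1 14 (.S 1 13 (.L 3 5 [4, 4] [270,
    270, 270, 270, 270, 270] [] 100000 0 0 1150000 50000 0 50000 0 0 0 0) (.L 3 5 [4, 4] [302, 302,
    302, 302, 302, 302] [] 100000 209090 154545 5 154545 0 154545 0 0 0 0)) (.S 1 15 (.L 3 5 [4, 4]
    [336, 336, 336, 336, 336, 336] [] 100000 200000 150000 0 150000 0 150000 0 0 0 0) (.L 3 5 [4,
    4] [372, 372, 372, 372, 372, 372] [] 100000 192308 146154 0 146154 0 146154 0 0 0 0))))) (.E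
    0)) (.S 1 15 (.S 1 7 (.L 3 5 [4, 4] [] [] 100000 38095 38095 966667 47619 0 47619 0 0 0 0) (.S
    1 11 (.S 1 9 (.L 3 5 [4, 4] [] [] 100000 0 0 1140000 40000 0 40000 0 0 0 0) (.S 1 10 (.L 3 5
    [4, 4] [206, 206, 206, 206, 206, 206] [] 100000 0 0 1100000 50000 0 50000 0 0 0 0) (.L 3 5 [4,
    4] [234, 234, 234, 234, 234, 234] [] 100000 0 0 1133336 33333 0 100000 0 0 0 0))) (.S 1 13 (.S
    1 12 (.L 3 5 [4, 4] [264, 264, 264, 264, 264, 264] [] 100000 100000 0 400000 100000 0 200000 0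
    0 0 0) (.L 3 5 [4, 4] [296, 296, 296, 296, 296, 296] [] 100000 240000 170000 0 170000 0 170000
    0 0 0 0)) (.S 1 14 (.L 3 5 [4, 4] [330, 330, 330, 330, 330, 330] [] 100000 200000 150000 0
    150000 0 150000 0 0 0 0) (.L 3 5 [4, 4] [366, 366, 366, 366, 366, 366] [] 100000 192308 146154
    0 146154 0 146154 0 0 0 0))))) (.E 0)))

lemma n18_19_8_1_1 {n : ℕ} (hn : 6 ≤ n) : NoNd ((18 : ℕ) : ℤ) ((19 : ℕ) : ℤ) n 8 1
    (BlkD.inB (fun _ => 0)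
      (BlkD.upd (BlkD.upd (BlkD.upd (fun _ => 19) 0 8) 2 1) 0 4)) :=
  BlkD.part_sound (d := d18_19_8_1) dk18_19_8_1 hn (by decide) (tr := t18_19_8_1_1)
    (by decide +kernel) rfl rfl rfl rfl

/-- the certificates of the part 2 of the pair `(8, 1)` -/
def t18_19_8_1_2 : BlkD.Tr :=
  .S 0 6 (.S 0 5 (.S 1 14 (.S 1 7 (.L 3 5 [4, 4] [] [] 100000 0 0 1166669 33333 0 33333 0 0 0 0)
    (.S 1 11 (.S 1 9 (.S 1 8 (.L 3 5 [4, 4] [172, 172, 172, 172, 168, 160] [] 100000 0 0 1100000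
    50000 0 50000 0 0 0 0) (.L 3 5 [4, 4] [198, 198, 198, 198, 198, 194] [] 100000 0 0 1100002
    33333 0 100000 0 0 0 0)) (.S 1 10 (.L 3 5 [4, 4] [226, 226, 226, 226, 226, 226] [] 100000 50000
    0 750000 75000 0 150000 0 0 0 0) (.L 3 5 [4, 4] [256, 256, 256, 256, 256, 256] [] 100000 100000
    0 400000 100000 0 200000 0 0 0 0))) (.S 1 13 (.S 1 12 (.L 3 5 [4, 4] [288, 288, 288, 288, 288,
    288] [] 100000 240000 170000 0 170000 0 170000 0 0 0 0) (.E 0)) (.E 0)))) (.E 0)) (.S 1 13 (.S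
    1 6 (.S 1 3 (.L 3 5 [4, 4] [] [] 100000 0 0 950000 50000 0 50000 0 0 0 0) (.S 1 5 (.L 3 5 [4,
    4] [] [] 100000 0 0 1100000 40000 0 40000 0 0 0 0) (.L 3 5 [4, 4] [138, 138, 134, 126, 118,
    110] [] 100000 0 0 1120000 40000 0 80000 0 0 0 0))) (.L 3 5 [4, 4] [] [] 100000 2 2 1133332
    16667 0 100000 0 0 0 0)) (.E 0))) (.L 3 5 [4, 4] [] [] 100000 0 0 1162500 12500 0 100000 0 0 0
    0)

lemma n18_19_8_1_2 {n : ℕ} (hn : 6 ≤ n) : NoNd ((18 : ℕ) : ℤ) ((19 : ℕ) : ℤ) n 8 1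
    (BlkD.inB (BlkD.upd (fun _ => 0) 0 5)
      (BlkD.upd (BlkD.upd (fun _ => 19) 0 8) 2 1)) :=
  BlkD.part_sound (d := d18_19_8_1) dk18_19_8_1 hn (by decide) (tr := t18_19_8_1_2)
    (by decide +kernel) rfl rfl rfl rfl

/-- the certificates of the part 3 of the pair `(8, 1)` -/
def t18_19_8_1_3 : BlkD.Tr :=
  .E 1

lemma n18_19_8_1_3 {n : ℕ} (hn : 6 ≤ n) : NoNd ((18 : ℕ) : ℤ) ((19 : ℕ) : ℤ) n 8 1
    (BlkD.inB (BlkD.upd (fun _ => 0) 2 2)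
      (BlkD.upd (fun _ => 19) 0 8)) :=
  BlkD.part_sound (d := d18_19_8_1) dk18_19_8_1 hn (by decide) (tr := t18_19_8_1_3)
    (by decide +kernel) rfl rfl rfl rfl

/-- the certificates of the part 4 of the pair `(8, 1)` -/
def t18_19_8_1_4 : BlkD.Tr :=
  .E 0

lemma n18_19_8_1_4 {n : ℕ} (hn : 6 ≤ n) : NoNd ((18 : ℕ) : ℤ) ((19 : ℕ) : ℤ) n 8 1
    (BlkD.inB (BlkD.upd (fun _ => 0) 0 9)
      (fun _ => 19)) :=
  BlkD.part_sound (d := d18_19_8_1) dk18_19_8_1 hn (by decide) (tr := t18_19_8_1_4)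
    (by decide +kernel) rfl rfl rfl rfl

lemma pr18_19_8_1 {n : ℕ} (hn : 6 ≤ n) : NoPr ((18 : ℕ) : ℤ) ((19 : ℕ) : ℤ) n 8 1 :=
  BlkD.of_root (q := 4) (by decide) hn (BlkD.sp 0 8 (BlkD.sp 2 1 (BlkD.sp 0 4 (n18_19_8_1_1 hn)
    (n18_19_8_1_2 hn))
    (n18_19_8_1_3 hn))
    (n18_19_8_1_4 hn))

/-- the numbers of the pair `(8, 2)`, `R = 18`, `H = 19` -/
def d18_19_8_2 : BlkD.Pd :=
  ⟨18, 19, 4, 8, 2, 6, 2, 2, 4, 2, 10, 0, 3, 1, 6, 0, [0, 10, 20, 24, 28, 32, 36], [0, 6, 12, 15,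
    18, 21, 24], [⟨1, 1, 1, 4, 8, [0, 4], [0, 4]⟩, ⟨1, 1, 1, 4, 12, [0, 8], [0, 4]⟩, ⟨2, 1, 1, 4,
    20, [0, 10, 14], [0, 6]⟩]⟩

lemma dk18_19_8_2 : BlkD.pairOk d18_19_8_2 = true := by decide +kernel

/-- the certificates of the part 1 of the pair `(8, 2)` -/
def t18_19_8_2_1 : BlkD.Tr :=
  .L 4 6 [4, 4, 4] [] [] 100000 150000 150000 700000 100000 0 100000 0 0 0 0

lemma n18_19_8_2_1 {n : ℕ} (hn : 6 ≤ n) : NoNd ((18 : ℕ) : ℤ) ((19 : ℕ) : ℤ) n 8 2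
    (BlkD.inB (fun _ => 0)
      (BlkD.upd (BlkD.upd (BlkD.upd (BlkD.upd (fun _ => 19) 0 8) 2 2) 0 4) 0 2)) :=
  BlkD.part_sound (d := d18_19_8_2) dk18_19_8_2 hn (by decide) (tr := t18_19_8_2_1)
    (by decide +kernel) rfl rfl rfl rfl

/-- the certificates of the part 2 of the pair `(8, 2)` -/
def t18_19_8_2_2 : BlkD.Tr :=
  .S 1 16 (.S 1 8 (.L 4 6 [4, 4, 4] [] [] 100000 64285 64285 1100002 42857 0 42857 28571 0 0 0) (.S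
    1 12 (.S 1 10 (.S 1 9 (.L 4 6 [4, 4, 4] [180, 176, 172, 168, 164, 160] [] 100000 50000 50000
    1100000 50000 0 50000 50000 0 0 0) (.L 4 6 [4, 4, 4] [208, 204, 200, 196, 192, 188] [] 100000
    88890 88890 1022221 66667 0 77778 33333 0 0 0)) (.S 1 11 (.L 4 6 [4, 4, 4] [238, 234, 230, 226,
    222, 218] [] 100000 116667 116667 966668 77778 0 83333 38889 0 0 0) (.L 4 6 [4, 4, 4] [270,
    266, 262, 258, 254, 250] [] 100000 100000 100000 1000000 70000 0 90000 30000 0 0 0))) (.S 1 14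
    (.S 1 13 (.L 4 6 [4, 4, 4] [304, 300, 296, 292, 288, 284] [] 100000 200000 166667 666668 100000
    0 133333 66667 0 0 0) (.L 4 6 [4, 4, 4] [340, 336, 332, 328, 324, 320] [] 100000 385715 283334
    0 161905 0 202381 19048 0 0 0)) (.S 1 15 (.L 4 6 [4, 4, 4] [378, 374, 370, 366, 362, 358] []
    100000 350000 250000 0 150000 0 200000 0 0 0 0) (.L 4 6 [4, 4, 4] [418, 414, 410, 406, 402,
    398] [] 100000 327500 237500 0 142500 0 190000 0 0 0 0))))) (.E 0)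

lemma n18_19_8_2_2 {n : ℕ} (hn : 6 ≤ n) : NoNd ((18 : ℕ) : ℤ) ((19 : ℕ) : ℤ) n 8 2
    (BlkD.inB (BlkD.upd (fun _ => 0) 0 3)
      (BlkD.upd (BlkD.upd (BlkD.upd (BlkD.upd (fun _ => 19) 0 8) 2 2) 0 4) 0 3)) :=
  BlkD.part_sound (d := d18_19_8_2) dk18_19_8_2 hn (by decide) (tr := t18_19_8_2_2)
    (by decide +kernel) rfl rfl rfl rfl

/-- the certificates of the part 3 of the pair `(8, 2)` -/
def t18_19_8_2_3 : BlkD.Tr :=
  .L 4 6 [4, 4, 4] [] [] 100000 33334 33334 1200003 33333 0 33333 33333 0 33333 0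

lemma n18_19_8_2_3 {n : ℕ} (hn : 6 ≤ n) : NoNd ((18 : ℕ) : ℤ) ((19 : ℕ) : ℤ) n 8 2
    (BlkD.inB (BlkD.upd (BlkD.upd (fun _ => 0) 0 3) 0 4)
      (BlkD.upd (BlkD.upd (BlkD.upd (BlkD.upd (BlkD.upd (fun _ => 19) 0 8) 2 2) 0 4) 1 15) 1 7)) :=
  BlkD.part_sound (d := d18_19_8_2) dk18_19_8_2 hn (by decide) (tr := t18_19_8_2_3)
    (by decide +kernel) rfl rfl rfl rfl

/-- the certificates of the part 4 of the pair `(8, 2)` -/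
def t18_19_8_2_4 : BlkD.Tr :=
  .S 1 9 (.S 1 8 (.L 4 6 [4, 4, 4] [170, 166, 162, 158, 154, 150] [] 100000 66667 66667 1150000
    50000 0 66667 33333 0 0 0) (.S 2 1 (.S 2 0 (.L 4 6 [4, 4, 4] [198, 194, 190, 186, 182, 178] []
    100000 77358 77358 1116983 52830 0 66038 60377 0 0 16981) (.S 3 5 (.S 3 2 (.S 3 1 (.L 4 6 [4,
    4, 4] [198, 194, 190, 186, 182, 178] [] 100000 61905 61905 1166667 47619 0 71429 47619 0 0
    14286) (.S 4 9 (.S 4 4 (.L 4 6 [4, 4, 4] [178, 174, 164, 154, 144, 0] [22, 16, 6, 0, 0, 0]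
    100000 100000 100000 1000000 75000 0 75000 0 0 0 0) (.L 4 6 [4, 4, 4] [198, 194, 190, 186, 182,
    178] [22, 16, 6, 0, 0, 0] 100000 183333 0 2 61111 0 283333 0 0 0 0)) (.E 2))) (.E 1)) (.E 1)))
    (.L 4 6 [4, 4, 4] [198, 194, 190, 186, 182, 178] [] 100000 50000 50000 1150000 50000 0 50000 0
    0 0 0))) (.S 1 10 (.S 2 1 (.S 2 0 (.S 3 5 (.S 3 2 (.L 4 6 [4, 4, 4] [228, 224, 220, 216, 212,
    208] [] 100000 54547 54547 1181816 45455 0 72727 54545 0 0 27273) (.S 3 4 (.S 3 3 (.S 4 10 (.S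
    4 5 (.L 4 6 [4, 4, 4] [208, 204, 200, 190, 180, 170] [28, 22, 16, 6, 0, 0] 100000 50000 50000
    1150000 50000 0 100000 50000 0 0 0) (.L 4 6 [4, 4, 4] [228, 224, 220, 216, 212, 208] [28, 22,
    16, 6, 0, 0] 100000 189474 0 0 63158 0 289474 0 0 0 0)) (.E 2)) (.L 4 6 [4, 4, 4] [228, 224,
    220, 216, 212, 208] [38, 34, 28, 22, 12, 0] 100000 500000 450000 0 150000 0 150000 150000 0 0
    0)) (.E 1))) (.E 1)) (.S 3 4 (.S 3 2 (.S 3 1 (.S 3 0 (.S 4 10 (.S 4 5 (.L 4 6 [4, 4, 4] [208,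
    204, 200, 190, 180, 170] [0, 0, 0, 0, 0, 0] 100000 100000 100000 1050000 75000 0 75000 0 0 0 0)
    (.L 4 6 [4, 4, 4] [228, 224, 220, 216, 212, 208] [0, 0, 0, 0, 0, 0] 100000 75000 0 750000 25000
    0 175000 0 0 0 0)) (.E 2)) (.S 4 10 (.S 4 5 (.L 4 6 [4, 4, 4] [208, 204, 200, 190, 180, 170]
    [12, 2, 0, 0, 0, 0] 100000 50000 50000 1150000 50000 0 100000 50000 0 0 0) (.L 4 6 [4, 4, 4]
    [228, 224, 220, 216, 212, 208] [12, 2, 0, 0, 0, 0] 100000 183333 0 2 61111 0 283333 0 0 0 0))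
    (.E 2))) (.S 4 10 (.S 4 5 (.L 4 6 [4, 4, 4] [208, 204, 200, 190, 180, 170] [22, 16, 6, 0, 0, 0]
    100000 200000 200000 800000 100000 0 100000 0 0 0 0) (.L 4 6 [4, 4, 4] [228, 224, 220, 216,
    212, 208] [22, 16, 6, 0, 0, 0] 100000 157143 0 0 52381 0 257143 0 0 0 0)) (.E 2))) (.E 1)) (.E
    1))) (.S 3 3 (.S 3 1 (.S 3 0 (.S 4 10 (.S 4 5 (.L 4 6 [4, 4, 4] [208, 204, 200, 190, 180, 170]
    [0, 0, 0, 0, 0, 0] 100000 100000 100000 1000000 75000 0 75000 0 0 0 0) (.L 4 6 [4, 4, 4] [228,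
    224, 220, 216, 212, 208] [0, 0, 0, 0, 0, 0] 100000 173685 1 0 57895 0 273684 0 0 0 0)) (.E 2))
    (.S 4 10 (.S 4 5 (.L 4 6 [4, 4, 4] [208, 204, 200, 190, 180, 170] [14, 4, 0, 0, 0, 0] 100000
    410000 340000 0 170000 0 170000 0 0 0 0) (.L 4 6 [4, 4, 4] [228, 224, 220, 216, 212, 208] [14,
    4, 0, 0, 0, 0] 100000 150000 0 0 50000 0 250000 0 0 0 0)) (.E 2))) (.E 1)) (.E 1))) (.L 4 6 [4,
    4, 4] [260, 256, 252, 248, 244, 240] [] 100000 100001 100001 1066665 66667 0 100000 33333 0 0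
    0))

lemma n18_19_8_2_4 {n : ℕ} (hn : 6 ≤ n) : NoNd ((18 : ℕ) : ℤ) ((19 : ℕ) : ℤ) n 8 2
    (BlkD.inB (BlkD.upd (BlkD.upd (BlkD.upd (fun _ => 0) 0 3) 0 4) 1 8)
      (BlkD.upd (BlkD.upd (BlkD.upd (BlkD.upd (BlkD.upd (fun _ => 19) 0 8) 2 2) 0 4) 1 15) 1 11)) :=
  BlkD.part_sound (d := d18_19_8_2) dk18_19_8_2 hn (by decide) (tr := t18_19_8_2_4)
    (by decide +kernel) rfl rfl rfl rfl

/-- the certificates of the part 5 of the pair `(8, 2)` -/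
def t18_19_8_2_5 : BlkD.Tr :=
  .S 1 13 (.S 1 12 (.L 4 6 [4, 4, 4] [294, 290, 286, 282, 278, 274] [] 100000 100001 100001 1066665
    66667 0 100000 33333 0 0 0) (.S 2 1 (.S 2 0 (.S 3 2 (.S 3 1 (.L 4 6 [4, 4, 4] [330, 326, 322,
    318, 314, 310] [] 100000 100001 100001 1033332 66667 0 100000 33333 0 0 0) (.S 4 13 (.S 4 6 (.L
    3 4 [4, 5, 6] [302, 298, 294, 290, 280, 270] [18, 12, 2, 0, 0, 0] 100000 225000 50000 0 150000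
    0 275000 0 0 0 0) (.L 3 4 [4, 5, 6] [330, 326, 322, 318, 314, 310] [18, 12, 2, 0, 0, 0] 100000
    162069 0 1 65517 0 262069 0 0 0 0)) (.E 2))) (.L 3 4 [4, 5, 6] [330, 326, 322, 318, 314, 310]
    [] 100000 0 100000 0 0 0 0 0 0 0 0)) (.L 4 6 [4, 4, 4] [330, 326, 322, 318, 314, 310] [] 100000
    299999 233332 400002 133333 0 166667 33333 0 0 0)) (.L 4 6 [4, 4, 4] [330, 326, 322, 318, 314,
    310] [] 100000 338462 219231 0 146154 0 219231 0 0 0 0))) (.S 1 14 (.L 4 6 [4, 4, 4] [368, 364,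
    360, 356, 352, 348] [] 100000 395651 289129 3 165217 0 206522 41304 0 0 0) (.L 4 6 [4, 4, 4]
    [408, 404, 400, 396, 392, 388] [] 100000 350000 250000 0 150000 0 200000 0 0 0 0))

lemma n18_19_8_2_5 {n : ℕ} (hn : 6 ≤ n) : NoNd ((18 : ℕ) : ℤ) ((19 : ℕ) : ℤ) n 8 2
    (BlkD.inB (BlkD.upd (BlkD.upd (BlkD.upd (BlkD.upd (fun _ => 0) 0 3) 0 4) 1 8) 1 12)
      (BlkD.upd (BlkD.upd (BlkD.upd (BlkD.upd (fun _ => 19) 0 8) 2 2) 0 4) 1 15)) :=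
  BlkD.part_sound (d := d18_19_8_2) dk18_19_8_2 hn (by decide) (tr := t18_19_8_2_5)
    (by decide +kernel) rfl rfl rfl rfl

/-- the certificates of the part 6 of the pair `(8, 2)` -/
def t18_19_8_2_6 : BlkD.Tr :=
  .E 0

lemma n18_19_8_2_6 {n : ℕ} (hn : 6 ≤ n) : NoNd ((18 : ℕ) : ℤ) ((19 : ℕ) : ℤ) n 8 2
    (BlkD.inB (BlkD.upd (BlkD.upd (BlkD.upd (fun _ => 0) 0 3) 0 4) 1 16)
      (BlkD.upd (BlkD.upd (BlkD.upd (fun _ => 19) 0 8) 2 2) 0 4)) :=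
  BlkD.part_sound (d := d18_19_8_2) dk18_19_8_2 hn (by decide) (tr := t18_19_8_2_6)
    (by decide +kernel) rfl rfl rfl rfl

/-- the certificates of the part 7 of the pair `(8, 2)` -/
def t18_19_8_2_7 : BlkD.Tr :=
  .S 1 3 (.L 4 6 [4, 4, 4] [] [] 100000 50000 50000 1000000 50000 0 50000 25000 0 0 0) (.S 1 5 (.L
    4 6 [4, 4, 4] [] [] 100000 7144 7144 1242857 14286 0 14286 42857 0 47619 38095) (.S 1 6 (.S 2 1
    (.S 2 0 (.L 4 6 [4, 4, 4] [132, 128, 124, 120, 110, 100] [] 100000 50000 50000 1166668 33333 0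
    50000 66667 0 0 33333) (.S 3 7 (.S 3 3 (.S 3 1 (.L 4 6 [4, 4, 4] [132, 128, 124, 120, 110, 100]
    [] 100000 18750 18750 1225000 25000 0 25000 25000 0 25000 37500) (.S 3 2 (.L 5 8 [4, 4, 3]
    [132, 128, 124, 120, 110, 100] [22, 16, 6, 0, 0, 0] 100000 50000 50000 1150000 50000 0 50000 0
    0 50000 0) (.E 1))) (.E 1)) (.E 1))) (.L 5 8 [4, 4, 3] [132, 128, 124, 120, 110, 100] [] 100000
    16667 16667 1233334 33333 0 33333 0 0 44444 22222)) (.S 2 1 (.S 2 0 (.S 3 7 (.S 3 3 (.L 5 8 [4,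
    4, 3] [158, 154, 150, 146, 142, 132] [] 100000 34147 34147 1226832 39024 0 58537 39024 0 14634
    17073) (.L 5 8 [4, 4, 3] [158, 154, 150, 146, 142, 132] [] 100000 11111 11111 1244446 22222 0
    22222 100000 0 0 0)) (.E 1)) (.S 3 6 (.S 3 3 (.S 3 1 (.L 4 6 [4, 4, 4] [158, 154, 150, 146,
    142, 132] [] 100000 30000 30000 1225000 35000 0 52500 35000 0 15000 25000) (.S 3 2 (.S 4 7 (.S
    4 3 (.L 4 6 [4, 4, 4] [142, 132, 122, 112, 0, 0] [22, 16, 6, 0, 0, 0] 100000 20000 20000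
    1240000 40000 0 60000 20000 0 40000 20000) (.L 4 6 [4, 4, 4] [158, 154, 150, 146, 142, 132]
    [22, 16, 6, 0, 0, 0] 100000 75000 0 750000 25000 0 175000 0 0 0 0)) (.E 2)) (.E 1))) (.E 1))
    (.E 1))) (.L 4 6 [4, 4, 4] [158, 154, 150, 146, 142, 132] [] 100000 66667 66667 1150000 50000 0
    50000 0 0 16667 16667))))

lemma n18_19_8_2_7 {n : ℕ} (hn : 6 ≤ n) : NoNd ((18 : ℕ) : ℤ) ((19 : ℕ) : ℤ) n 8 2
    (BlkD.inB (BlkD.upd (fun _ => 0) 0 5)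
      (BlkD.upd (BlkD.upd (BlkD.upd (BlkD.upd (BlkD.upd (BlkD.upd (fun _ => 19) 0 8) 2 2) 0 6) 0 5) 1 14) 1 7)) :=
  BlkD.part_sound (d := d18_19_8_2) dk18_19_8_2 hn (by decide) (tr := t18_19_8_2_7)
    (by decide +kernel) rfl rfl rfl rfl

/-- the certificates of the part 8 of the pair `(8, 2)` -/
def t18_19_8_2_8 : BlkD.Tr :=
  .S 1 9 (.S 1 8 (.S 2 1 (.S 2 0 (.S 3 6 (.S 3 3 (.S 3 1 (.L 4 6 [4, 4, 4] [186, 182, 178, 174,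
    170, 166] [] 100000 57143 57143 1142858 42857 0 85714 42857 0 0 0) (.S 3 2 (.L 5 8 [4, 4, 3]
    [186, 182, 178, 174, 170, 166] [18, 12, 2, 0, 0, 0] 100000 27500 27500 1237500 35000 0 70000
    52500 0 17500 27500) (.S 4 8 (.S 4 4 (.L 5 8 [4, 4, 3] [170, 166, 156, 146, 136, 0] [28, 22,
    16, 6, 0, 0] 100000 50000 50000 1150000 50000 0 100000 50000 0 0 0) (.L 5 8 [4, 4, 3] [186,
    182, 178, 174, 170, 166] [28, 22, 16, 6, 0, 0] 100000 200001 1 0 66667 0 300000 100000 0 0 0))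
    (.E 2)))) (.L 5 8 [4, 4, 3] [186, 182, 178, 174, 170, 166] [] 100000 53846 53846 1184617 30769
    0 100000 100000 0 0 15385)) (.E 1)) (.S 3 5 (.S 3 2 (.S 3 1 (.S 3 0 (.L 5 8 [4, 4, 3] [186,
    182, 178, 174, 170, 166] [0, 0, 0, 0, 0, 0] 100000 40000 40000 1200000 40000 0 80000 0 0 0
    20000) (.S 4 8 (.S 4 4 (.L 5 8 [4, 4, 3] [170, 166, 156, 146, 136, 0] [12, 2, 0, 0, 0, 0]
    100000 23810 23810 1228572 47619 0 80952 14286 0 33333 19048) (.L 5 8 [4, 4, 3] [186, 182, 178,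
    174, 170, 166] [12, 2, 0, 0, 0, 0] 100000 60000 0 840000 20000 0 160000 0 0 0 0)) (.E 2))) (.S
    4 8 (.S 4 4 (.L 5 8 [4, 4, 3] [170, 166, 156, 146, 136, 0] [22, 16, 6, 0, 0, 0] 100000 40000
    40000 1180000 60000 0 60000 0 0 60000 0) (.L 5 8 [4, 4, 3] [186, 182, 178, 174, 170, 166] [22,
    16, 6, 0, 0, 0] 100000 200000 0 0 50000 0 300000 0 0 0 0)) (.E 2))) (.E 1)) (.E 1))) (.S 3 4
    (.S 3 2 (.S 3 1 (.S 3 0 (.L 4 6 [4, 4, 4] [186, 182, 178, 174, 170, 166] [0, 0, 0, 0, 0, 0]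
    100000 37500 37500 1222500 40000 0 77500 0 0 25000 25000) (.L 5 8 [4, 4, 3] [186, 182, 178,
    174, 170, 166] [14, 4, 0, 0, 0, 0] 100000 22222 22222 1244448 44444 0 44444 0 0 33333 0)) (.E
    1)) (.E 1)) (.E 1))) (.S 2 1 (.S 2 0 (.S 3 5 (.S 3 2 (.L 5 8 [4, 4, 3] [216, 212, 208, 204,
    200, 196] [] 100000 33334 33334 1227777 38889 0 100000 38889 0 22222 11111) (.S 3 4 (.S 3 3 (.S
    4 9 (.S 4 4 (.L 5 8 [4, 4, 3] [196, 192, 182, 172, 162, 0] [28, 22, 16, 6, 0, 0] 100000 33333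
    33333 1177780 44444 0 100000 55556 0 0 22222) (.L 5 8 [4, 4, 3] [216, 212, 208, 204, 200, 196]
    [28, 22, 16, 6, 0, 0] 100000 200000 0 0 50000 0 300000 150000 0 0 0)) (.E 2)) (.L 5 8 [4, 4, 3]
    [216, 212, 208, 204, 200, 196] [38, 34, 28, 22, 12, 0] 100000 42857 42857 1200003 28571 0
    100000 100000 0 0 0)) (.E 1))) (.E 1)) (.S 3 4 (.S 3 2 (.S 3 1 (.L 5 8 [4, 4, 3] [216, 212,
    208, 204, 200, 196] [] 100000 33334 33334 1228572 42857 0 100000 14286 0 23810 19048) (.S 4 9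
    (.S 4 4 (.L 5 8 [4, 4, 3] [196, 192, 182, 172, 162, 0] [22, 16, 6, 0, 0, 0] 100000 40000 40000
    1140000 60000 0 100000 0 0 0 0) (.L 5 8 [4, 4, 3] [216, 212, 208, 204, 200, 196] [22, 16, 6, 0,
    0, 0] 100000 184616 1 1 92308 0 284615 0 0 0 0)) (.E 2))) (.E 1)) (.E 1))) (.L 5 8 [4, 4, 3]
    [216, 212, 208, 204, 200, 196] [] 100000 33334 33334 1228572 42857 0 100000 0 0 23810 19048)))
    (.S 1 10 (.L 4 6 [4, 4, 4] [248, 244, 240, 236, 232, 228] [] 100000 78572 78572 1114285 57143 0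
    100000 50000 0 0 21429) (.L 4 6 [4, 4, 4] [282, 278, 274, 270, 266, 262] [] 100000 50000 50000
    1150000 50000 0 100000 50000 0 0 0))

lemma n18_19_8_2_8 {n : ℕ} (hn : 6 ≤ n) : NoNd ((18 : ℕ) : ℤ) ((19 : ℕ) : ℤ) n 8 2
    (BlkD.inB (BlkD.upd (BlkD.upd (fun _ => 0) 0 5) 1 8)
      (BlkD.upd (BlkD.upd (BlkD.upd (BlkD.upd (BlkD.upd (BlkD.upd (fun _ => 19) 0 8) 2 2) 0 6) 0 5) 1 14) 1 11)) :=
  BlkD.part_sound (d := d18_19_8_2) dk18_19_8_2 hn (by decide) (tr := t18_19_8_2_8)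
    (by decide +kernel) rfl rfl rfl rfl

/-- the certificates of the part 9 of the pair `(8, 2)` -/
def t18_19_8_2_9 : BlkD.Tr :=
  .S 1 13 (.S 1 12 (.L 4 6 [4, 4, 4] [318, 314, 310, 306, 302, 298] [] 100000 50000 50000 1150000
    50000 0 100000 50000 0 0 0) (.S 2 1 (.S 2 0 (.L 4 6 [4, 4, 4] [356, 352, 348, 344, 340, 336] []
    100000 350000 250000 150000 150000 0 200000 50000 0 0 0) (.S 3 0 (.S 4 13 (.S 4 6 (.L 4 6 [4,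
    4, 4] [328, 324, 320, 316, 306, 296] [0, 0, 0, 0, 0, 0] 100000 280000 190000 0 190000 0 190000
    0 0 0 0) (.L 4 6 [4, 4, 4] [356, 352, 348, 344, 340, 336] [0, 0, 0, 0, 0, 0] 100000 185000 0 0
    95000 0 285000 0 0 0 0)) (.E 2)) (.L 4 6 [4, 4, 4] [356, 352, 348, 344, 340, 336] [] 100000 0
    100000 0 0 0 0 0 0 0 0))) (.L 4 6 [4, 4, 4] [356, 352, 348, 344, 340, 336] [] 100000 0 100000 0
    0 0 0 0 0 0 0))) (.L 4 6 [4, 4, 4] [396, 392, 388, 384, 380, 376] [] 100000 418181 345454 3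
    172727 0 172727 0 0 0 0)

lemma n18_19_8_2_9 {n : ℕ} (hn : 6 ≤ n) : NoNd ((18 : ℕ) : ℤ) ((19 : ℕ) : ℤ) n 8 2
    (BlkD.inB (BlkD.upd (BlkD.upd (BlkD.upd (fun _ => 0) 0 5) 1 8) 1 12)
      (BlkD.upd (BlkD.upd (BlkD.upd (BlkD.upd (BlkD.upd (fun _ => 19) 0 8) 2 2) 0 6) 0 5) 1 14)) :=
  BlkD.part_sound (d := d18_19_8_2) dk18_19_8_2 hn (by decide) (tr := t18_19_8_2_9)
    (by decide +kernel) rfl rfl rfl rfl

/-- the certificates of the part 10 of the pair `(8, 2)` -/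
def t18_19_8_2_10 : BlkD.Tr :=
  .E 0

lemma n18_19_8_2_10 {n : ℕ} (hn : 6 ≤ n) : NoNd ((18 : ℕ) : ℤ) ((19 : ℕ) : ℤ) n 8 2
    (BlkD.inB (BlkD.upd (BlkD.upd (fun _ => 0) 0 5) 1 15)
      (BlkD.upd (BlkD.upd (BlkD.upd (BlkD.upd (fun _ => 19) 0 8) 2 2) 0 6) 0 5)) :=
  BlkD.part_sound (d := d18_19_8_2) dk18_19_8_2 hn (by decide) (tr := t18_19_8_2_10)
    (by decide +kernel) rfl rfl rfl rfl

/-- the certificates of the part 11 of the pair `(8, 2)` -/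
def t18_19_8_2_11 : BlkD.Tr :=
  .S 1 13 (.S 1 6 (.S 1 3 (.L 4 6 [4, 4, 4] [] [] 100000 37500 37500 1100000 50000 0 50000 25000 0
    0 25000) (.S 1 5 (.S 1 4 (.L 4 6 [4, 4, 4] [94, 90, 80, 70, 60, 0] [] 100000 10000 10000
    1240001 20000 0 20000 40000 0 46667 33333) (.S 2 1 (.S 2 0 (.L 4 6 [4, 4, 4] [118, 114, 110,
    100, 90, 80] [] 100000 38889 38889 1200001 33333 0 33333 66667 0 0 22222) (.L 4 6 [4, 4, 4]
    [118, 114, 110, 100, 90, 80] [] 100000 17858 17858 1246429 32143 0 57143 25000 0 39286 25000))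
    (.L 4 6 [4, 4, 4] [118, 114, 110, 100, 90, 80] [] 100000 25000 25000 1225000 35000 0 35000 0 0
    25000 25000))) (.S 2 1 (.S 2 0 (.S 3 7 (.S 3 3 (.S 3 1 (.L 4 6 [4, 4, 4] [144, 140, 136, 132,
    122, 112] [] 100000 40000 40000 1180000 40000 0 80000 0 0 0 20000) (.S 3 2 (.L 4 6 [4, 4, 4]
    [144, 140, 136, 132, 122, 112] [18, 12, 2, 0, 0, 0] 100000 16667 16667 1233335 33333 0 66667
    33333 0 33333 33333) (.L 5 8 [4, 4, 3] [144, 140, 136, 132, 122, 112] [28, 22, 16, 6, 0, 0]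
    100000 22729 22729 1236362 36364 0 77273 40909 0 36364 18182))) (.L 5 8 [4, 4, 3] [144, 140,
    136, 132, 122, 112] [] 100000 53846 53846 1146155 30769 0 100000 100000 0 0 15385)) (.E 1)) (.S
    3 6 (.S 3 3 (.S 3 1 (.L 5 8 [4, 4, 3] [144, 140, 136, 132, 122, 112] [] 100000 24592 24592
    1236066 40984 0 85246 0 0 31148 19672) (.S 3 2 (.S 4 6 (.S 4 3 (.L 5 8 [4, 4, 3] [132, 122,
    112, 102, 0, 0] [22, 16, 6, 0, 0, 0] 100000 25001 25001 1225000 50000 0 75000 0 0 33333 16667)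
    (.L 5 8 [4, 4, 3] [144, 140, 136, 132, 122, 112] [22, 16, 6, 0, 0, 0] 100000 66667 0 799999
    33333 0 166667 0 0 0 0)) (.E 2)) (.E 1))) (.E 1)) (.E 1))) (.L 5 8 [4, 4, 3] [144, 140, 136,
    132, 122, 112] [] 100000 18183 18183 1236363 36364 0 90909 0 0 45455 18182)))) (.S 1 10 (.S 1 8
    (.S 1 7 (.L 5 8 [4, 4, 3] [172, 168, 164, 160, 156, 146] [] 100000 40001 40001 1213332 46667 0
    100000 26667 0 13333 13333) (.L 5 8 [4, 4, 3] [202, 198, 194, 190, 186, 182] [] 100000 50000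
    50000 1150000 50000 0 100000 50000 0 0 0)) (.S 1 9 (.L 5 8 [4, 4, 3] [234, 230, 226, 222, 218,
    214] [] 100000 42308 42308 1138462 53846 0 100000 26923 0 23077 3846) (.L 5 8 [4, 4, 3] [268,
    264, 260, 256, 252, 248] [] 100000 100000 0 600000 100000 0 200000 0 0 0 0))) (.S 1 12 (.L 5 8
    [4, 4, 3] [] [] 100000 5000 0 1255000 5000 0 105000 30000 0 25000 25000) (.L 5 8 [4, 4, 3]
    [382, 378, 374, 370, 366, 362] [] 100000 137500 0 0 118750 0 237500 0 0 0 0)))) (.E 0)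

lemma n18_19_8_2_11 {n : ℕ} (hn : 6 ≤ n) : NoNd ((18 : ℕ) : ℤ) ((19 : ℕ) : ℤ) n 8 2
    (BlkD.inB (BlkD.upd (BlkD.upd (fun _ => 0) 0 5) 0 6)
      (BlkD.upd (BlkD.upd (BlkD.upd (fun _ => 19) 0 8) 2 2) 0 6)) :=
  BlkD.part_sound (d := d18_19_8_2) dk18_19_8_2 hn (by decide) (tr := t18_19_8_2_11)
    (by decide +kernel) rfl rfl rfl rfl

/-- the certificates of the part 12 of the pair `(8, 2)` -/
def t18_19_8_2_12 : BlkD.Tr :=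
  .S 0 7 (.S 1 12 (.S 1 6 (.S 1 3 (.L 5 8 [4, 4, 3] [] [] 100000 20000 20000 1220000 40000 0 40000
    30000 0 20000 40000) (.S 1 5 (.S 1 4 (.L 5 8 [4, 4, 3] [102, 98, 88, 78, 68, 0] [] 100000 25000
    25000 1233335 33333 0 100000 33333 0 33333 16667) (.L 5 8 [4, 4, 3] [128, 124, 120, 110, 100,
    90] [] 100000 25000 25000 1233335 33333 0 100000 33333 0 33333 16667)) (.L 5 8 [4, 4, 3] [156,
    152, 148, 144, 134, 124] [] 100000 33334 33334 1162501 45833 0 100000 50000 0 8333 25000))) (.L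
    5 8 [4, 4, 3] [] [] 100000 50000 0 900000 0 0 150000 25000 0 0 0)) (.E 0)) (.L 5 8 [4, 4, 3] []
    [] 100000 0 0 1200001 2454 0 98773 32515 2454 65644 30675)

lemma n18_19_8_2_12 {n : ℕ} (hn : 6 ≤ n) : NoNd ((18 : ℕ) : ℤ) ((19 : ℕ) : ℤ) n 8 2
    (BlkD.inB (BlkD.upd (BlkD.upd (fun _ => 0) 0 5) 0 7)
      (BlkD.upd (BlkD.upd (fun _ => 19) 0 8) 2 2)) :=
  BlkD.part_sound (d := d18_19_8_2) dk18_19_8_2 hn (by decide) (tr := t18_19_8_2_12)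
    (by decide +kernel) rfl rfl rfl rfl

/-- the certificates of the part 13 of the pair `(8, 2)` -/
def t18_19_8_2_13 : BlkD.Tr :=
  .E 1

lemma n18_19_8_2_13 {n : ℕ} (hn : 6 ≤ n) : NoNd ((18 : ℕ) : ℤ) ((19 : ℕ) : ℤ) n 8 2
    (BlkD.inB (BlkD.upd (fun _ => 0) 2 3)
      (BlkD.upd (fun _ => 19) 0 8)) :=
  BlkD.part_sound (d := d18_19_8_2) dk18_19_8_2 hn (by decide) (tr := t18_19_8_2_13)
    (by decide +kernel) rfl rfl rfl rfl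

/-- the certificates of the part 14 of the pair `(8, 2)` -/
def t18_19_8_2_14 : BlkD.Tr :=
  .E 0

lemma n18_19_8_2_14 {n : ℕ} (hn : 6 ≤ n) : NoNd ((18 : ℕ) : ℤ) ((19 : ℕ) : ℤ) n 8 2
    (BlkD.inB (BlkD.upd (fun _ => 0) 0 9)
      (fun _ => 19)) :=
  BlkD.part_sound (d := d18_19_8_2) dk18_19_8_2 hn (by decide) (tr := t18_19_8_2_14)
    (by decide +kernel) rfl rfl rfl rfl

lemma pr18_19_8_2 {n : ℕ} (hn : 6 ≤ n) : NoPr ((18 : ℕ) : ℤ) ((19 : ℕ) : ℤ) n 8 2 :=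
  BlkD.of_root (q := 4) (by decide) hn (BlkD.sp 0 8 (BlkD.sp 2 2 (BlkD.sp 0 4 (BlkD.sp 0 2 (n18_19_8_2_1 hn)
    (BlkD.sp 0 3 (n18_19_8_2_2 hn)
    (BlkD.sp 1 15 (BlkD.sp 1 7 (n18_19_8_2_3 hn)
    (BlkD.sp 1 11 (n18_19_8_2_4 hn)
    (n18_19_8_2_5 hn)))
    (n18_19_8_2_6 hn))))
    (BlkD.sp 0 6 (BlkD.sp 0 5 (BlkD.sp 1 14 (BlkD.sp 1 7 (n18_19_8_2_7 hn)
    (BlkD.sp 1 11 (n18_19_8_2_8 hn)
    (n18_19_8_2_9 hn)))
    (n18_19_8_2_10 hn))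
    (n18_19_8_2_11 hn))
    (n18_19_8_2_12 hn)))
    (n18_19_8_2_13 hn))
    (n18_19_8_2_14 hn))

/-- the numbers of the pair `(8, 3)`, `R = 18`, `H = 19` -/
def d18_19_8_3 : BlkD.Pd :=
  ⟨18, 19, 4, 8, 3, 5, 1, 2, 0, 4, 8, 0, 2, 2, 6, 0, [0, 8, 16, 20, 20, 20], [0, 6, 12, 16, 18,
    20], [⟨1, 1, 1, 4, 8, [0, 4], [0, 4]⟩, ⟨1, 1, 1, 4, 14, [0, 8], [0, 6]⟩]⟩

lemma dk18_19_8_3 : BlkD.pairOk d18_19_8_3 = true := by decide +kernel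

/-- the certificates of the part 1 of the pair `(8, 3)` -/
def t18_19_8_3_1 : BlkD.Tr :=
  .L 5 8 [4, 3, 18, 18] [] [] 100000 66668 66668 1233333 66667 0 100000 50000 0 0 0

lemma n18_19_8_3_1 {n : ℕ} (hn : 6 ≤ n) : NoNd ((18 : ℕ) : ℤ) ((19 : ℕ) : ℤ) n 8 3
    (BlkD.inB (fun _ => 0)
      (BlkD.upd (BlkD.upd (BlkD.upd (fun _ => 19) 0 8) 2 3) 0 4)) :=
  BlkD.part_sound (d := d18_19_8_3) dk18_19_8_3 hn (by decide) (tr := t18_19_8_3_1)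
    (by decide +kernel) rfl rfl rfl rfl

/-- the certificates of the part 2 of the pair `(8, 3)` -/
def t18_19_8_3_2 : BlkD.Tr :=
  .S 1 3 (.L 5 8 [4, 3, 18, 18] [] [] 100000 0 0 1300000 0 0 0 0 0 0 0) (.S 1 5 (.L 5 8 [4, 3, 18,
    18] [] [] 100000 0 0 1320001 40000 0 66667 33333 0 0 0) (.S 1 6 (.L 5 8 [4, 3, 18, 18] [132,
    132, 128, 120, 112, 102] [] 100000 50000 50000 1300000 50000 0 100000 50000 0 0 0) (.S 2 1 (.L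
    5 8 [4, 3, 18, 18] [154, 154, 154, 150, 142, 134] [] 100000 100002 100002 1288890 55556 22222
    81481 48148 0 0 0) (.S 2 2 (.S 3 5 (.S 3 2 (.S 3 1 (.L 5 8 [4, 3, 18, 18] [154, 154, 154, 150,
    142, 134] [] 100000 0 0 1366668 33333 33333 66667 33333 0 0 0) (.L 3 4 [4, 5, 18, 18] [154,
    154, 154, 150, 142, 134] [32, 22, 10, 0, 0, 0] 100000 166668 166668 1199999 66667 0 100000
    33333 0 66667 0)) (.L 3 4 [4, 5, 18, 18] [154, 154, 154, 150, 142, 134] [] 100000 300000 300000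
    1000000 100000 0 100000 0 0 100000 0)) (.E 1)) (.L 3 4 [4, 5, 18, 18] [154, 154, 154, 150, 142,
    134] [] 100000 300000 300000 1000000 100000 0 100000 0 0 100000 0)))))

lemma n18_19_8_3_2 {n : ℕ} (hn : 6 ≤ n) : NoNd ((18 : ℕ) : ℤ) ((19 : ℕ) : ℤ) n 8 3
    (BlkD.inB (BlkD.upd (fun _ => 0) 0 5)
      (BlkD.upd (BlkD.upd (BlkD.upd (BlkD.upd (BlkD.upd (BlkD.upd (fun _ => 19) 0 8) 2 3) 0 6) 0 5) 1 14) 1 7)) :=
  BlkD.part_sound (d := d18_19_8_3) dk18_19_8_3 hn (by decide) (tr := t18_19_8_3_2)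
    (by decide +kernel) rfl rfl rfl rfl

/-- the certificates of the part 3 of the pair `(8, 3)` -/
def t18_19_8_3_3 : BlkD.Tr :=
  .S 1 11 (.S 1 9 (.S 1 8 (.L 5 6 [4, 3, 18, 18] [178, 178, 178, 178, 174, 166] [] 100000 66668
    66668 1266667 66667 0 100000 33333 0 0 0) (.L 5 6 [4, 3, 18, 18] [204, 204, 204, 204, 204, 200]
    [] 100000 66668 66668 1266666 66667 0 100000 25000 0 0 0)) (.S 1 10 (.L 5 6 [4, 3, 18, 18]
    [232, 232, 232, 232, 232, 232] [] 100000 77779 38890 1044445 88889 16667 138889 33333 0 0 0)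
    (.L 5 6 [4, 3, 18, 18] [262, 262, 262, 262, 262, 262] [] 100000 433334 266667 0 266667 0 266667
    0 0 0 0))) (.L 5 6 [4, 3, 18, 18] [] [] 100000 200000 100000 700000 100000 0 200000 100000 0 0
    0)

lemma n18_19_8_3_3 {n : ℕ} (hn : 6 ≤ n) : NoNd ((18 : ℕ) : ℤ) ((19 : ℕ) : ℤ) n 8 3
    (BlkD.inB (BlkD.upd (BlkD.upd (fun _ => 0) 0 5) 1 8)
      (BlkD.upd (BlkD.upd (BlkD.upd (BlkD.upd (BlkD.upd (fun _ => 19) 0 8) 2 3) 0 6) 0 5) 1 14)) :=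
  BlkD.part_sound (d := d18_19_8_3) dk18_19_8_3 hn (by decide) (tr := t18_19_8_3_3)
    (by decide +kernel) rfl rfl rfl rfl

/-- the certificates of the part 4 of the pair `(8, 3)` -/
def t18_19_8_3_4 : BlkD.Tr :=
  .E 0

lemma n18_19_8_3_4 {n : ℕ} (hn : 6 ≤ n) : NoNd ((18 : ℕ) : ℤ) ((19 : ℕ) : ℤ) n 8 3
    (BlkD.inB (BlkD.upd (BlkD.upd (fun _ => 0) 0 5) 1 15)
      (BlkD.upd (BlkD.upd (BlkD.upd (BlkD.upd (fun _ => 19) 0 8) 2 3) 0 6) 0 5)) :=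
  BlkD.part_sound (d := d18_19_8_3) dk18_19_8_3 hn (by decide) (tr := t18_19_8_3_4)
    (by decide +kernel) rfl rfl rfl rfl

/-- the certificates of the part 5 of the pair `(8, 3)` -/
def t18_19_8_3_5 : BlkD.Tr :=
  .L 5 6 [4, 3, 18, 18] [] [] 100000 0 0 1300001 33333 33333 33333 33333 0 0 0

lemma n18_19_8_3_5 {n : ℕ} (hn : 6 ≤ n) : NoNd ((18 : ℕ) : ℤ) ((19 : ℕ) : ℤ) n 8 3
    (BlkD.inB (BlkD.upd (BlkD.upd (fun _ => 0) 0 5) 0 6)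
      (BlkD.upd (BlkD.upd (BlkD.upd (BlkD.upd (BlkD.upd (BlkD.upd (fun _ => 19) 0 8) 2 3) 0 6) 1 13) 1 6) 1 3)) :=
  BlkD.part_sound (d := d18_19_8_3) dk18_19_8_3 hn (by decide) (tr := t18_19_8_3_5)
    (by decide +kernel) rfl rfl rfl rfl

/-- the certificates of the part 6 of the pair `(8, 3)` -/
def t18_19_8_3_6 : BlkD.Tr :=
  .S 1 5 (.S 1 4 (.L 5 6 [4, 3, 18, 18] [98, 90, 82, 72, 60, 0] [] 100000 0 0 1300000 50000 0
    100000 50000 0 0 0) (.S 2 1 (.L 5 6 [4, 3, 18, 18] [122, 118, 110, 102, 92, 80] [] 100000 0 0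
    1366669 33333 33333 66667 66667 0 0 0) (.S 2 2 (.S 3 6 (.S 3 3 (.S 3 1 (.L 5 6 [4, 3, 18, 18]
    [122, 118, 110, 102, 92, 80] [] 100000 0 0 1333334 33333 33333 66667 33333 0 0 0) (.S 3 2 (.L 5
    6 [4, 3, 18, 18] [122, 118, 110, 102, 92, 80] [32, 22, 10, 0, 0, 0] 100000 0 0 1380000 40000 0
    40000 40000 0 0 0) (.L 7 8 [6, 2, 18, 18] [122, 118, 110, 102, 92, 80] [46, 40, 30, 18, 0, 0]
    100000 0 0 1350000 50000 0 75000 50000 0 0 0))) (.E 1)) (.E 1)) (.S 3 5 (.S 3 2 (.S 3 1 (.L 4 5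
    [4, 4, 18, 18] [122, 118, 110, 102, 92, 80] [] 100000 0 0 1350000 37500 0 50000 0 0 0 0) (.L 7
    8 [6, 2, 18, 18] [122, 118, 110, 102, 92, 80] [36, 26, 14, 0, 0, 0] 100000 0 0 1350000 50000 0
    50000 0 0 0 0)) (.E 1)) (.E 1))))) (.L 7 8 [6, 2, 18, 18] [144, 144, 140, 132, 124, 114] []
    100000 0 0 1350000 50000 25000 100000 50000 0 0 0)

lemma n18_19_8_3_6 {n : ℕ} (hn : 6 ≤ n) : NoNd ((18 : ℕ) : ℤ) ((19 : ℕ) : ℤ) n 8 3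
    (BlkD.inB (BlkD.upd (BlkD.upd (BlkD.upd (fun _ => 0) 0 5) 0 6) 1 4)
      (BlkD.upd (BlkD.upd (BlkD.upd (BlkD.upd (BlkD.upd (fun _ => 19) 0 8) 2 3) 0 6) 1 13) 1 6)) :=
  BlkD.part_sound (d := d18_19_8_3) dk18_19_8_3 hn (by decide) (tr := t18_19_8_3_6)
    (by decide +kernel) rfl rfl rfl rfl

/-- the certificates of the part 7 of the pair `(8, 3)` -/
def t18_19_8_3_7 : BlkD.Tr :=
  .L 7 8 [6, 2, 18, 18] [] [] 100000 0 0 1350000 50000 0 100000 50000 0 0 0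

lemma n18_19_8_3_7 {n : ℕ} (hn : 6 ≤ n) : NoNd ((18 : ℕ) : ℤ) ((19 : ℕ) : ℤ) n 8 3
    (BlkD.inB (BlkD.upd (BlkD.upd (BlkD.upd (fun _ => 0) 0 5) 0 6) 1 7)
      (BlkD.upd (BlkD.upd (BlkD.upd (BlkD.upd (fun _ => 19) 0 8) 2 3) 0 6) 1 13)) :=
  BlkD.part_sound (d := d18_19_8_3) dk18_19_8_3 hn (by decide) (tr := t18_19_8_3_7)
    (by decide +kernel) rfl rfl rfl rfl

/-- the certificates of the part 8 of the pair `(8, 3)` -/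
def t18_19_8_3_8 : BlkD.Tr :=
  .E 0

lemma n18_19_8_3_8 {n : ℕ} (hn : 6 ≤ n) : NoNd ((18 : ℕ) : ℤ) ((19 : ℕ) : ℤ) n 8 3
    (BlkD.inB (BlkD.upd (BlkD.upd (BlkD.upd (fun _ => 0) 0 5) 0 6) 1 14)
      (BlkD.upd (BlkD.upd (BlkD.upd (fun _ => 19) 0 8) 2 3) 0 6)) :=
  BlkD.part_sound (d := d18_19_8_3) dk18_19_8_3 hn (by decide) (tr := t18_19_8_3_8)
    (by decide +kernel) rfl rfl rfl rfl

/-- the certificates of the part 9 of the pair `(8, 3)` -/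
def t18_19_8_3_9 : BlkD.Tr :=
  .L 7 8 [6, 2, 18, 18] [] [] 100000 0 0 1350000 50000 25000 100000 50000 0 0 0

lemma n18_19_8_3_9 {n : ℕ} (hn : 6 ≤ n) : NoNd ((18 : ℕ) : ℤ) ((19 : ℕ) : ℤ) n 8 3
    (BlkD.inB (BlkD.upd (BlkD.upd (fun _ => 0) 0 5) 0 7)
      (BlkD.upd (BlkD.upd (fun _ => 19) 0 8) 2 3)) :=
  BlkD.part_sound (d := d18_19_8_3) dk18_19_8_3 hn (by decide) (tr := t18_19_8_3_9)
    (by decide +kernel) rfl rfl rfl rfl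

/-- the certificates of the part 10 of the pair `(8, 3)` -/
def t18_19_8_3_10 : BlkD.Tr :=
  .E 1

lemma n18_19_8_3_10 {n : ℕ} (hn : 6 ≤ n) : NoNd ((18 : ℕ) : ℤ) ((19 : ℕ) : ℤ) n 8 3
    (BlkD.inB (BlkD.upd (fun _ => 0) 2 4)
      (BlkD.upd (fun _ => 19) 0 8)) :=
  BlkD.part_sound (d := d18_19_8_3) dk18_19_8_3 hn (by decide) (tr := t18_19_8_3_10)
    (by decide +kernel) rfl rfl rfl rfl

/-- the certificates of the part 11 of the pair `(8, 3)` -/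
def t18_19_8_3_11 : BlkD.Tr :=
  .E 0

lemma n18_19_8_3_11 {n : ℕ} (hn : 6 ≤ n) : NoNd ((18 : ℕ) : ℤ) ((19 : ℕ) : ℤ) n 8 3
    (BlkD.inB (BlkD.upd (fun _ => 0) 0 9)
      (fun _ => 19)) :=
  BlkD.part_sound (d := d18_19_8_3) dk18_19_8_3 hn (by decide) (tr := t18_19_8_3_11)
    (by decide +kernel) rfl rfl rfl rfl

lemma pr18_19_8_3 {n : ℕ} (hn : 6 ≤ n) : NoPr ((18 : ℕ) : ℤ) ((19 : ℕ) : ℤ) n 8 3 :=
  BlkD.of_root (q := 4) (by decide) hn (BlkD.sp 0 8 (BlkD.sp 2 3 (BlkD.sp 0 4 (n18_19_8_3_1 hn)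
    (BlkD.sp 0 6 (BlkD.sp 0 5 (BlkD.sp 1 14 (BlkD.sp 1 7 (n18_19_8_3_2 hn)
    (n18_19_8_3_3 hn))
    (n18_19_8_3_4 hn))
    (BlkD.sp 1 13 (BlkD.sp 1 6 (BlkD.sp 1 3 (n18_19_8_3_5 hn)
    (n18_19_8_3_6 hn))
    (n18_19_8_3_7 hn))
    (n18_19_8_3_8 hn)))
    (n18_19_8_3_9 hn)))
    (n18_19_8_3_10 hn))
    (n18_19_8_3_11 hn))

/-- the numbers of the pair `(8, 4)`, `R = 18`, `H = 19` -/
def d18_19_8_4 : BlkD.Pd :=
  ⟨18, 19, 4, 8, 4, 4, 0, 3, 0, 4, 4, 0, 0, 4, 4, 0, [0, 4, 8, 12, 16], [0, 4, 8, 12, 16], [⟨1, 1,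
    1, 4, 8, [0, 4], [0, 4]⟩]⟩

lemma dk18_19_8_4 : BlkD.pairOk d18_19_8_4 = true := by decide +kernel

/-- the certificates of the part 1 of the pair `(8, 4)` -/
def t18_19_8_4_1 : BlkD.Tr :=
  .L 3 3 [4, 18, 18, 18, 18] [] [] 100000 0 0 1400000 75000 25000 100000 50000 0 0 0

lemma n18_19_8_4_1 {n : ℕ} (hn : 6 ≤ n) : NoNd ((18 : ℕ) : ℤ) ((19 : ℕ) : ℤ) n 8 4
    (BlkD.inB (fun _ => 0)
      (BlkD.upd (BlkD.upd (BlkD.upd (BlkD.upd (BlkD.upd (fun _ => 19) 0 8) 2 4) 0 4) 0 2) 0 1)) :=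
  BlkD.part_sound (d := d18_19_8_4) dk18_19_8_4 hn (by decide) (tr := t18_19_8_4_1)
    (by decide +kernel) rfl rfl rfl rfl

/-- the certificates of the part 2 of the pair `(8, 4)` -/
def t18_19_8_4_2 : BlkD.Tr :=
  .L 3 3 [4, 18, 18, 18, 18] [] [] 100000 0 0 1400000 75000 25000 100000 50000 0 0 0

lemma n18_19_8_4_2 {n : ℕ} (hn : 6 ≤ n) : NoNd ((18 : ℕ) : ℤ) ((19 : ℕ) : ℤ) n 8 4
    (BlkD.inB (BlkD.upd (fun _ => 0) 0 2)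
      (BlkD.upd (BlkD.upd (BlkD.upd (BlkD.upd (fun _ => 19) 0 8) 2 4) 0 4) 0 2)) :=
  BlkD.part_sound (d := d18_19_8_4) dk18_19_8_4 hn (by decide) (tr := t18_19_8_4_2)
    (by decide +kernel) rfl rfl rfl rfl

/-- the certificates of the part 3 of the pair `(8, 4)` -/
def t18_19_8_4_3 : BlkD.Tr :=
  .L 3 3 [4, 18, 18, 18, 18] [] [] 100000 0 0 1400000 75000 25000 100000 50000 0 0 0

lemma n18_19_8_4_3 {n : ℕ} (hn : 6 ≤ n) : NoNd ((18 : ℕ) : ℤ) ((19 : ℕ) : ℤ) n 8 4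
    (BlkD.inB (BlkD.upd (fun _ => 0) 0 3)
      (BlkD.upd (BlkD.upd (BlkD.upd (BlkD.upd (fun _ => 19) 0 8) 2 4) 0 4) 0 3)) :=
  BlkD.part_sound (d := d18_19_8_4) dk18_19_8_4 hn (by decide) (tr := t18_19_8_4_3)
    (by decide +kernel) rfl rfl rfl rfl

/-- the certificates of the part 4 of the pair `(8, 4)` -/
def t18_19_8_4_4 : BlkD.Tr :=
  .L 3 3 [4, 18, 18, 18, 18] [] [] 100000 0 0 1400000 75000 25000 100000 50000 0 0 0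

lemma n18_19_8_4_4 {n : ℕ} (hn : 6 ≤ n) : NoNd ((18 : ℕ) : ℤ) ((19 : ℕ) : ℤ) n 8 4
    (BlkD.inB (BlkD.upd (BlkD.upd (fun _ => 0) 0 3) 0 4)
      (BlkD.upd (BlkD.upd (BlkD.upd (fun _ => 19) 0 8) 2 4) 0 4)) :=
  BlkD.part_sound (d := d18_19_8_4) dk18_19_8_4 hn (by decide) (tr := t18_19_8_4_4)
    (by decide +kernel) rfl rfl rfl rfl

/-- the certificates of the part 5 of the pair `(8, 4)` -/
def t18_19_8_4_5 : BlkD.Tr :=
  .L 3 3 [4, 18, 18, 18, 18] [] [] 100000 0 0 1400000 75000 25000 100000 50000 0 0 0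

lemma n18_19_8_4_5 {n : ℕ} (hn : 6 ≤ n) : NoNd ((18 : ℕ) : ℤ) ((19 : ℕ) : ℤ) n 8 4
    (BlkD.inB (BlkD.upd (fun _ => 0) 0 5)
      (BlkD.upd (BlkD.upd (BlkD.upd (BlkD.upd (fun _ => 19) 0 8) 2 4) 0 6) 0 5)) :=
  BlkD.part_sound (d := d18_19_8_4) dk18_19_8_4 hn (by decide) (tr := t18_19_8_4_5)
    (by decide +kernel) rfl rfl rfl rfl

/-- the certificates of the part 6 of the pair `(8, 4)` -/
def t18_19_8_4_6 : BlkD.Tr :=
  .L 3 3 [4, 18, 18, 18, 18] [] [] 100000 0 0 1400000 75000 25000 100000 50000 0 0 0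

lemma n18_19_8_4_6 {n : ℕ} (hn : 6 ≤ n) : NoNd ((18 : ℕ) : ℤ) ((19 : ℕ) : ℤ) n 8 4
    (BlkD.inB (BlkD.upd (BlkD.upd (fun _ => 0) 0 5) 0 6)
      (BlkD.upd (BlkD.upd (BlkD.upd (fun _ => 19) 0 8) 2 4) 0 6)) :=
  BlkD.part_sound (d := d18_19_8_4) dk18_19_8_4 hn (by decide) (tr := t18_19_8_4_6)
    (by decide +kernel) rfl rfl rfl rfl

/-- the certificates of the part 7 of the pair `(8, 4)` -/
def t18_19_8_4_7 : BlkD.Tr :=
  .L 3 3 [4, 18, 18, 18, 18] [] [] 100000 0 0 1400000 75000 25000 100000 50000 0 0 0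

lemma n18_19_8_4_7 {n : ℕ} (hn : 6 ≤ n) : NoNd ((18 : ℕ) : ℤ) ((19 : ℕ) : ℤ) n 8 4
    (BlkD.inB (BlkD.upd (BlkD.upd (fun _ => 0) 0 5) 0 7)
      (BlkD.upd (BlkD.upd (BlkD.upd (fun _ => 19) 0 8) 2 4) 0 7)) :=
  BlkD.part_sound (d := d18_19_8_4) dk18_19_8_4 hn (by decide) (tr := t18_19_8_4_7)
    (by decide +kernel) rfl rfl rfl rfl

/-- the certificates of the part 8 of the pair `(8, 4)` -/
def t18_19_8_4_8 : BlkD.Tr :=
  .L 3 3 [4, 18, 18, 18, 18] [] [] 100000 0 0 1400000 75000 25000 100000 50000 0 0 0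

lemma n18_19_8_4_8 {n : ℕ} (hn : 6 ≤ n) : NoNd ((18 : ℕ) : ℤ) ((19 : ℕ) : ℤ) n 8 4
    (BlkD.inB (BlkD.upd (BlkD.upd (BlkD.upd (fun _ => 0) 0 5) 0 7) 0 8)
      (BlkD.upd (BlkD.upd (fun _ => 19) 0 8) 2 4)) :=
  BlkD.part_sound (d := d18_19_8_4) dk18_19_8_4 hn (by decide) (tr := t18_19_8_4_8)
    (by decide +kernel) rfl rfl rfl rfl

/-- the certificates of the part 9 of the pair `(8, 4)` -/
def t18_19_8_4_9 : BlkD.Tr :=
  .E 1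

lemma n18_19_8_4_9 {n : ℕ} (hn : 6 ≤ n) : NoNd ((18 : ℕ) : ℤ) ((19 : ℕ) : ℤ) n 8 4
    (BlkD.inB (BlkD.upd (fun _ => 0) 2 5)
      (BlkD.upd (fun _ => 19) 0 8)) :=
  BlkD.part_sound (d := d18_19_8_4) dk18_19_8_4 hn (by decide) (tr := t18_19_8_4_9)
    (by decide +kernel) rfl rfl rfl rfl

/-- the certificates of the part 10 of the pair `(8, 4)` -/
def t18_19_8_4_10 : BlkD.Tr :=
  .E 0

lemma n18_19_8_4_10 {n : ℕ} (hn : 6 ≤ n) : NoNd ((18 : ℕ) : ℤ) ((19 : ℕ) : ℤ) n 8 4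
    (BlkD.inB (BlkD.upd (fun _ => 0) 0 9)
      (fun _ => 19)) :=
  BlkD.part_sound (d := d18_19_8_4) dk18_19_8_4 hn (by decide) (tr := t18_19_8_4_10)
    (by decide +kernel) rfl rfl rfl rfl

lemma pr18_19_8_4 {n : ℕ} (hn : 6 ≤ n) : NoPr ((18 : ℕ) : ℤ) ((19 : ℕ) : ℤ) n 8 4 :=
  BlkD.of_root (q := 4) (by decide) hn (BlkD.sp 0 8 (BlkD.sp 2 4 (BlkD.sp 0 4 (BlkD.sp 0 2 (BlkD.sp 0 1 (n18_19_8_4_1 hn)
    (n18_19_8_4_2 hn))
    (BlkD.sp 0 3 (n18_19_8_4_3 hn)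
    (n18_19_8_4_4 hn)))
    (BlkD.sp 0 6 (BlkD.sp 0 5 (n18_19_8_4_5 hn)
    (n18_19_8_4_6 hn))
    (BlkD.sp 0 7 (n18_19_8_4_7 hn)
    (n18_19_8_4_8 hn))))
    (n18_19_8_4_9 hn))
    (n18_19_8_4_10 hn))

/-- the numbers of the pair `(9, 0)`, `R = 18`, `H = 19` -/
def d18_19_9_0 : BlkD.Pd :=
  ⟨18, 19, 4, 9, 0, 7, 0, 1, 0, 4, 4, 0, 0, 4, 4, 0, [0, 4, 8, 12, 16, 20, 24, 28], [0, 4, 8, 12,
    16, 20, 24, 28], [⟨1, 1, 1, 4, 8, [0, 4], [0, 4]⟩]⟩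

lemma dk18_19_9_0 : BlkD.pairOk d18_19_9_0 = true := by decide +kernel

/-- the certificates of the part 1 of the pair `(9, 0)` -/
def t18_19_9_0_1 : BlkD.Tr :=
  .S 0 9 (.S 2 0 (.L 3 3 [4] [] [] 100000 0 0 1000000 100000 0 100000 0 0 0 0) (.E 1)) (.E 0)

lemma n18_19_9_0_1 {n : ℕ} (hn : 6 ≤ n) : NoNd ((18 : ℕ) : ℤ) ((19 : ℕ) : ℤ) n 9 0
    (BlkD.inB (fun _ => 0)
      (fun _ => 19)) :=
  BlkD.part_sound (d := d18_19_9_0) dk18_19_9_0 hn (by decide) (tr := t18_19_9_0_1)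
    (by decide +kernel) rfl rfl rfl rfl

lemma pr18_19_9_0 {n : ℕ} (hn : 6 ≤ n) : NoPr ((18 : ℕ) : ℤ) ((19 : ℕ) : ℤ) n 9 0 :=
  BlkD.of_root (q := 4) (by decide) hn (n18_19_9_0_1 hn)

/-- the numbers of the pair `(9, 1)`, `R = 18`, `H = 19` -/
def d18_19_9_1 : BlkD.Pd :=
  ⟨18, 19, 4, 9, 1, 6, 1, 1, 0, 4, 8, 0, 0, 4, 4, 0, [0, 8, 16, 24, 24, 24, 24], [0, 4, 8, 12, 16,
    20, 24], [⟨1, 1, 1, 4, 8, [0, 4], [0, 4]⟩, ⟨1, 1, 1, 4, 12, [0, 8], [0, 4]⟩]⟩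

lemma dk18_19_9_1 : BlkD.pairOk d18_19_9_1 = true := by decide +kernel

/-- the certificates of the part 1 of the pair `(9, 1)` -/
def t18_19_9_1_1 : BlkD.Tr :=
  .S 0 2 (.L 3 5 [4, 4] [] [] 100000 100000 100000 500000 100000 0 100000 0 0 0 0) (.S 0 3 (.L 3 5
    [4, 4] [] [] 100000 200000 200000 600000 100000 0 100000 0 0 0 0) (.S 1 15 (.S 1 7 (.L 3 5 [4,
    4] [] [] 100000 50000 50000 950000 50000 0 50000 0 0 0 0) (.S 1 11 (.L 3 5 [4, 4] [] [] 100000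
    50000 50000 1150000 50000 0 50000 0 0 0 0) (.S 1 13 (.S 1 12 (.S 2 0 (.S 3 3 (.S 3 1 (.S 3 0
    (.L 3 5 [4, 4] [260, 260, 260, 260, 260, 260] [0, 0, 0, 0, 0, 0] 100000 0 0 1280000 40000 0
    40000 0 0 0 0) (.S 4 12 (.S 4 6 (.S 4 3 (.L 3 5 [4, 4] [252, 244, 236, 228, 0, 0] [8, 0, 0, 0,
    0, 0] 100000 410000 340000 0 170000 0 170000 0 0 0 0) (.L 3 5 [4, 4] [260, 260, 260, 252, 244,
    236] [8, 0, 0, 0, 0, 0] 100000 100000 0 600000 50000 0 200000 100000 0 0 0)) (.L 3 5 [4, 4]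
    [260, 260, 260, 260, 260, 260] [8, 0, 0, 0, 0, 0] 100000 134484 1 0 58621 0 234483 0 0 0 0))
    (.E 2))) (.L 3 5 [4, 4] [260, 260, 260, 260, 260, 260] [] 100000 453848 415386 0 138462 0
    138462 138462 0 0 0)) (.E 1)) (.L 3 5 [4, 4] [260, 260, 260, 260, 260, 260] [] 100000 300000
    300000 600000 100000 0 100000 0 0 0 0)) (.L 3 5 [4, 4] [292, 292, 292, 292, 292, 292] [] 100000
    200000 200000 800000 100000 0 100000 0 0 0 0)) (.S 1 14 (.L 3 5 [4, 4] [326, 326, 326, 326,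
    326, 326] [] 100000 440000 360000 0 180000 0 180000 0 0 0 0) (.L 3 5 [4, 4] [362, 362, 362,
    362, 362, 362] [] 100000 374999 263888 4 158333 0 211111 0 0 0 0))))) (.E 0)))

lemma n18_19_9_1_1 {n : ℕ} (hn : 6 ≤ n) : NoNd ((18 : ℕ) : ℤ) ((19 : ℕ) : ℤ) n 9 1
    (BlkD.inB (fun _ => 0)
      (BlkD.upd (BlkD.upd (BlkD.upd (fun _ => 19) 0 9) 2 1) 0 4)) :=
  BlkD.part_sound (d := d18_19_9_1) dk18_19_9_1 hn (by decide) (tr := t18_19_9_1_1)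
    (by decide +kernel) rfl rfl rfl rfl

/-- the certificates of the part 2 of the pair `(9, 1)` -/
def t18_19_9_1_2 : BlkD.Tr :=
  .S 1 14 (.S 1 7 (.L 3 5 [4, 4] [] [] 100000 18184 18184 1145452 36364 0 36364 0 0 0 0) (.S 1 11
    (.S 1 9 (.S 1 8 (.L 3 5 [4, 4] [168, 168, 168, 168, 168, 160] [] 100000 0 0 1180000 40000 0
    40000 0 0 0 0) (.L 3 5 [4, 4] [194, 194, 194, 194, 194, 194] [] 100000 0 0 1240000 40000 0
    40000 0 0 0 0)) (.S 1 10 (.S 2 0 (.S 3 4 (.S 3 2 (.S 3 1 (.L 3 5 [4, 4] [222, 222, 222, 222,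
    222, 222] [] 100000 0 0 1280000 40000 0 40000 0 0 0 0) (.S 4 10 (.S 4 5 (.S 4 2 (.L 3 5 [4, 4]
    [206, 198, 190, 0, 0, 0] [14, 10, 2, 0, 0, 0] 100000 410000 340000 0 170000 0 170000 0 0 0 0)
    (.L 3 5 [4, 4] [222, 222, 214, 206, 198, 190] [14, 10, 2, 0, 0, 0] 100000 100000 0 600000 50000
    0 200000 150000 0 0 0)) (.L 3 5 [4, 4] [222, 222, 222, 222, 222, 222] [14, 10, 2, 0, 0, 0]
    100000 142857 0 2 60714 0 242857 0 0 0 0)) (.E 2))) (.E 1)) (.E 1)) (.S 3 3 (.S 3 1 (.S 3 0 (.L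
    3 5 [4, 4] [222, 222, 222, 222, 222, 222] [0, 0, 0, 0, 0, 0] 100000 0 0 1240000 40000 0 40000 0
    0 0 0) (.S 4 10 (.S 4 5 (.S 4 2 (.L 3 5 [4, 4] [206, 198, 190, 0, 0, 0] [10, 2, 0, 0, 0, 0]
    100000 410000 340000 0 170000 0 170000 0 0 0 0) (.L 3 5 [4, 4] [222, 222, 214, 206, 198, 190]
    [10, 2, 0, 0, 0, 0] 100000 0 0 1225000 25000 0 100000 0 0 0 0)) (.L 3 5 [4, 4] [222, 222, 222,
    222, 222, 222] [10, 2, 0, 0, 0, 0] 100000 142857 0 2 60714 0 242857 0 0 0 0)) (.E 2))) (.E 1))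
    (.E 1))) (.S 2 0 (.S 3 3 (.S 3 1 (.S 3 0 (.L 3 5 [4, 4] [252, 252, 252, 252, 252, 252] [0, 0,
    0, 0, 0, 0] 100000 0 0 1280000 40000 0 60000 0 0 0 0) (.S 4 11 (.S 4 5 (.S 4 2 (.L 3 5 [4, 4]
    [236, 228, 220, 0, 0, 0] [8, 0, 0, 0, 0, 0] 100000 200000 200000 800000 100000 0 100000 0 0 0
    0) (.L 3 5 [4, 4] [252, 252, 244, 236, 228, 220] [8, 0, 0, 0, 0, 0] 100000 50000 50000 1100000
    50000 0 100000 0 0 0 0)) (.L 3 5 [4, 4] [252, 252, 252, 252, 252, 252] [8, 0, 0, 0, 0, 0]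
    100000 155000 0 0 85000 0 255000 0 0 0 0)) (.E 2))) (.S 3 2 (.S 4 11 (.S 4 5 (.S 4 2 (.L 3 5
    [4, 4] [236, 228, 220, 0, 0, 0] [14, 10, 2, 0, 0, 0] 100000 390908 327272 4 163636 0 163636 0 0
    0 0) (.L 3 5 [4, 4] [252, 252, 244, 236, 228, 220] [14, 10, 2, 0, 0, 0] 100000 200000 0 0
    100000 0 300000 100000 0 0 0)) (.L 3 5 [4, 4] [252, 252, 252, 252, 252, 252] [14, 10, 2, 0, 0,
    0] 100000 134783 0 0 78261 0 234783 0 0 0 0)) (.E 2)) (.E 1))) (.E 1)) (.S 3 2 (.S 3 1 (.S 3 0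
    (.S 4 11 (.S 4 5 (.S 4 2 (.L 3 5 [4, 4] [236, 228, 220, 0, 0, 0] [0, 0, 0, 0, 0, 0] 100000
    410000 340000 0 170000 0 170000 0 0 0 0) (.L 3 5 [4, 4] [252, 252, 244, 236, 228, 220] [0, 0,
    0, 0, 0, 0] 100000 50000 50000 1100000 50000 0 100000 0 0 0 0)) (.L 3 5 [4, 4] [252, 252, 252,
    252, 252, 252] [0, 0, 0, 0, 0, 0] 100000 155000 0 0 85000 0 255000 0 0 0 0)) (.E 2)) (.S 4 11
    (.S 4 5 (.S 4 2 (.L 3 5 [4, 4] [236, 228, 220, 0, 0, 0] [10, 2, 0, 0, 0, 0] 100000 390908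
    327272 4 163636 0 163636 0 0 0 0) (.L 3 5 [4, 4] [252, 252, 244, 236, 228, 220] [10, 2, 0, 0,
    0, 0] 100000 285713 128570 3 128571 0 257143 0 0 0 0)) (.L 3 5 [4, 4] [252, 252, 252, 252, 252,
    252] [10, 2, 0, 0, 0, 0] 100000 134783 0 0 78261 0 234783 0 0 0 0)) (.E 2))) (.E 1)) (.E 1)))))
    (.S 1 13 (.S 1 12 (.L 3 5 [4, 4] [284, 284, 284, 284, 284, 284] [] 100000 140000 140000 1000000
    80000 0 100000 0 0 0 0) (.S 2 0 (.S 3 1 (.S 3 0 (.S 4 13 (.S 4 6 (.S 4 3 (.L 3 5 [4, 4] [310,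
    302, 294, 286, 0, 0] [0, 0, 0, 0, 0, 0] 100000 100000 100000 1050000 75000 0 100000 0 0 0 0)
    (.L 3 5 [4, 4] [318, 318, 318, 310, 302, 294] [0, 0, 0, 0, 0, 0] 100000 50000 50000 1150000
    50000 0 100000 0 0 0 0)) (.L 3 5 [4, 4] [318, 318, 318, 318, 318, 318] [0, 0, 0, 0, 0, 0]
    100000 145455 0 0 81818 0 245455 0 0 0 0)) (.E 2)) (.L 3 5 [4, 4] [318, 318, 318, 318, 318,
    318] [8, 0, 0, 0, 0, 0] 100000 418181 345454 3 172727 0 172727 0 0 0 0)) (.L 3 5 [4, 4] [318,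
    318, 318, 318, 318, 318] [] 100000 0 100000 0 0 0 0 0 0 0 0)) (.L 3 5 [4, 4] [318, 318, 318,
    318, 318, 318] [] 100000 374999 316666 4 158333 0 158333 0 0 0 0))) (.L 3 5 [4, 4] [354, 354,
    354, 354, 354, 354] [] 100000 418181 345454 3 172727 0 172727 0 0 0 0)))) (.E 0)

lemma n18_19_9_1_2 {n : ℕ} (hn : 6 ≤ n) : NoNd ((18 : ℕ) : ℤ) ((19 : ℕ) : ℤ) n 9 1
    (BlkD.inB (BlkD.upd (fun _ => 0) 0 5)
      (BlkD.upd (BlkD.upd (BlkD.upd (BlkD.upd (BlkD.upd (fun _ => 19) 0 9) 2 1) 0 7) 0 6) 0 5)) :=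
  BlkD.part_sound (d := d18_19_9_1) dk18_19_9_1 hn (by decide) (tr := t18_19_9_1_2)
    (by decide +kernel) rfl rfl rfl rfl

/-- the certificates of the part 3 of the pair `(9, 1)` -/
def t18_19_9_1_3 : BlkD.Tr :=
  .S 1 13 (.S 1 6 (.L 3 5 [4, 4] [] [] 100000 0 0 1200002 33333 0 33333 0 0 0 0) (.S 1 10 (.S 1 8
    (.S 1 7 (.L 3 5 [4, 4] [158, 158, 158, 158, 150, 142] [] 100000 0 0 1220000 40000 0 40000 0 0 0
    0) (.L 3 5 [4, 4] [184, 184, 184, 184, 184, 176] [] 100000 0 0 1280000 40000 0 40000 0 0 0 0))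
    (.S 1 9 (.L 3 5 [4, 4] [212, 212, 212, 212, 212, 212] [] 100000 0 0 1250000 50000 0 50000 0 0 0
    0) (.S 2 0 (.S 3 3 (.S 3 1 (.S 3 0 (.L 3 5 [4, 4] [242, 242, 242, 242, 242, 242] [0, 0, 0, 0,
    0, 0] 100000 0 0 1276924 46154 0 61538 0 0 0 0) (.S 4 10 (.S 4 5 (.S 4 2 (.L 3 5 [4, 4] [226,
    218, 210, 0, 0, 0] [8, 0, 0, 0, 0, 0] 100000 0 0 1250000 50000 0 100000 0 0 0 0) (.L 3 5 [4, 4]
    [242, 242, 234, 226, 218, 210] [8, 0, 0, 0, 0, 0] 100000 0 0 1233336 33333 0 100000 33333 0 0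
    0)) (.L 3 5 [4, 4] [242, 242, 242, 242, 242, 242] [8, 0, 0, 0, 0, 0] 100000 168422 1 0 89474 0
    268421 0 0 0 0)) (.E 2))) (.L 3 5 [4, 4] [242, 242, 242, 242, 242, 242] [] 100000 440000 360000
    0 180000 0 180000 0 0 0 0)) (.E 1)) (.L 3 5 [4, 4] [242, 242, 242, 242, 242, 242] [] 100000
    200000 200000 800000 100000 0 100000 0 0 0 0)))) (.S 1 12 (.S 1 11 (.S 2 0 (.S 3 2 (.S 3 1 (.S
    3 0 (.S 4 11 (.S 4 5 (.S 4 2 (.L 3 5 [4, 4] [258, 250, 242, 0, 0, 0] [0, 0, 0, 0, 0, 0] 100000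
    325000 212500 0 212500 0 212500 0 0 0 0) (.S 4 4 (.L 3 5 [4, 4] [274, 266, 258, 250, 242, 0]
    [0, 0, 0, 0, 0, 0] 100000 0 0 1200000 50000 0 100000 0 0 0 0) (.L 3 5 [4, 4] [274, 274, 266,
    258, 250, 242] [0, 0, 0, 0, 0, 0] 100000 50000 0 900000 50000 0 150000 0 0 0 0))) (.L 3 5 [4,
    4] [274, 274, 274, 274, 274, 274] [0, 0, 0, 0, 0, 0] 100000 183333 0 3 94444 0 283333 0 0 0 0))
    (.E 2)) (.S 4 11 (.S 4 5 (.S 4 2 (.L 3 5 [4, 4] [258, 250, 242, 0, 0, 0] [8, 0, 0, 0, 0, 0]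
    100000 300000 200000 0 200000 0 200000 0 0 0 0) (.S 4 4 (.L 3 5 [4, 4] [274, 266, 258, 250,
    242, 0] [8, 0, 0, 0, 0, 0] 100000 200000 0 0 150000 0 300000 0 0 0 0) (.L 3 5 [4, 4] [274, 274,
    266, 258, 250, 242] [8, 0, 0, 0, 0, 0] 100000 200000 0 0 100000 0 300000 0 0 0 0))) (.L 3 5 [4,
    4] [274, 274, 274, 274, 274, 274] [8, 0, 0, 0, 0, 0] 100000 170000 0 0 90000 0 270000 0 0 0 0))
    (.E 2))) (.L 3 5 [4, 4] [274, 274, 274, 274, 274, 274] [14, 10, 2, 0, 0, 0] 100000 418181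
    345454 3 172727 0 172727 0 0 0 0)) (.E 1)) (.L 3 5 [4, 4] [274, 274, 274, 274, 274, 274] []
    100000 440000 360000 0 180000 0 180000 0 0 0 0)) (.S 2 0 (.S 3 1 (.S 3 0 (.S 4 12 (.S 4 6 (.S 4
    3 (.L 3 5 [4, 4] [300, 292, 284, 276, 0, 0] [0, 0, 0, 0, 0, 0] 100000 300000 200000 0 200000 0
    200000 0 0 0 0) (.S 4 5 (.S 4 4 (.L 3 5 [4, 4] [308, 300, 292, 284, 276, 0] [0, 0, 0, 0, 0, 0]
    100000 200000 0 0 150000 0 300000 0 0 0 0) (.L 3 5 [4, 4] [308, 308, 300, 292, 284, 276] [0, 0,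
    0, 0, 0, 0] 100000 0 0 1233335 33333 0 100000 0 0 0 0)) (.L 3 5 [4, 4] [308, 308, 308, 300,
    292, 284] [0, 0, 0, 0, 0, 0] 100000 184211 0 0 94737 0 284211 0 0 0 0))) (.L 3 5 [4, 4] [308,
    308, 308, 308, 308, 308] [0, 0, 0, 0, 0, 0] 100000 157143 0 0 85714 0 257143 0 0 0 0)) (.E 2))
    (.S 4 12 (.S 4 6 (.S 4 3 (.L 3 5 [4, 4] [300, 292, 284, 276, 0, 0] [8, 0, 0, 0, 0, 0] 100000
    280000 190000 0 190000 0 190000 0 0 0 0) (.S 4 5 (.S 4 4 (.L 3 5 [4, 4] [308, 300, 292, 284,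
    276, 0] [8, 0, 0, 0, 0, 0] 100000 171429 0 1 135714 0 271429 0 0 0 0) (.L 3 5 [4, 4] [308, 308,
    300, 292, 284, 276] [8, 0, 0, 0, 0, 0] 100000 200000 0 0 100000 0 300000 0 0 0 0)) (.L 3 5 [4,
    4] [308, 308, 308, 300, 292, 284] [8, 0, 0, 0, 0, 0] 100000 171429 0 0 90476 0 271429 0 0 0
    0))) (.L 3 5 [4, 4] [308, 308, 308, 308, 308, 308] [8, 0, 0, 0, 0, 0] 100000 147827 1 0 82609 0
    247826 0 0 0 0)) (.E 2))) (.L 3 5 [4, 4] [308, 308, 308, 308, 308, 308] [] 100000 0 100000 0 0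
    0 0 0 0 0 0)) (.L 3 5 [4, 4] [308, 308, 308, 308, 308, 308] [] 100000 418181 345454 3 172727 0
    172727 0 0 0 0))) (.S 2 0 (.S 3 0 (.S 4 13 (.S 4 6 (.S 4 3 (.L 3 5 [4, 4] [336, 328, 320, 312,
    0, 0] [0, 0, 0, 0, 0, 0] 100000 280000 190000 0 190000 0 190000 0 0 0 0) (.L 3 5 [4, 4] [344,
    344, 344, 336, 328, 320] [0, 0, 0, 0, 0, 0] 100000 192308 0 0 146154 0 292308 0 0 0 0)) (.L 3 5
    [4, 4] [344, 344, 344, 344, 344, 344] [0, 0, 0, 0, 0, 0] 100000 137500 0 0 118750 0 237500 0 0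
    0 0)) (.E 2)) (.L 3 5 [4, 4] [344, 344, 344, 344, 344, 344] [] 100000 0 100000 0 0 0 0 0 0 0
    0)) (.L 3 5 [4, 4] [344, 344, 344, 344, 344, 344] [] 100000 0 100000 0 0 0 0 0 0 0 0))))) (.E
    0)

lemma n18_19_9_1_3 {n : ℕ} (hn : 6 ≤ n) : NoNd ((18 : ℕ) : ℤ) ((19 : ℕ) : ℤ) n 9 1
    (BlkD.inB (BlkD.upd (BlkD.upd (fun _ => 0) 0 5) 0 6)
      (BlkD.upd (BlkD.upd (BlkD.upd (BlkD.upd (fun _ => 19) 0 9) 2 1) 0 7) 0 6)) :=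
  BlkD.part_sound (d := d18_19_9_1) dk18_19_9_1 hn (by decide) (tr := t18_19_9_1_3)
    (by decide +kernel) rfl rfl rfl rfl

/-- the certificates of the part 4 of the pair `(9, 1)` -/
def t18_19_9_1_4 : BlkD.Tr :=
  .S 1 12 (.S 1 6 (.S 1 3 (.L 3 5 [4, 4] [] [] 100000 0 0 1050000 50000 0 50000 0 0 0 0) (.S 1 5
    (.L 3 5 [4, 4] [] [] 100000 0 0 1200000 40000 0 40000 0 0 0 0) (.L 3 5 [4, 4] [146, 146, 146,
    138, 130, 122] [] 100000 0 0 1260000 40000 0 40000 0 0 0 0))) (.S 1 9 (.S 1 8 (.S 1 7 (.L 3 5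
    [4, 4] [172, 172, 172, 172, 164, 156] [] 100000 0 0 1250000 50000 0 50000 0 0 0 0) (.S 2 0 (.L
    3 5 [4, 4] [200, 200, 200, 200, 200, 192] [] 100000 0 0 1266669 33333 0 100000 33333 0 0 0) (.S
    3 3 (.S 3 1 (.S 3 0 (.L 3 5 [4, 4] [200, 200, 200, 200, 200, 192] [0, 0, 0, 0, 0, 0] 100000 0 0
    1250000 50000 0 50000 0 0 0 0) (.S 4 8 (.S 4 4 (.L 3 5 [4, 4] [200, 192, 184, 176, 168, 0] [10,
    2, 0, 0, 0, 0] 100000 0 0 1200000 50000 0 100000 0 0 0 0) (.L 3 5 [4, 4] [200, 200, 200, 200,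
    200, 192] [10, 2, 0, 0, 0, 0] 100000 183333 0 3 94444 0 283333 0 0 0 0)) (.E 2))) (.E 1)) (.E
    1)))) (.L 3 5 [4, 4] [230, 230, 230, 230, 230, 230] [] 100000 0 0 1200000 50000 0 100000 0 0 0
    0)) (.S 1 11 (.S 1 10 (.L 3 5 [4, 4] [262, 262, 262, 262, 262, 262] [] 100000 100000 100000
    1000000 100000 0 100000 0 0 0 0) (.L 3 5 [4, 4] [296, 296, 296, 296, 296, 296] [] 100000 350000
    225000 0 225000 0 225000 0 0 0 0)) (.L 3 5 [4, 4] [332, 332, 332, 332, 332, 332] [] 100000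
    322222 211111 1 211111 0 211111 0 0 0 0)))) (.E 0)

lemma n18_19_9_1_4 {n : ℕ} (hn : 6 ≤ n) : NoNd ((18 : ℕ) : ℤ) ((19 : ℕ) : ℤ) n 9 1
    (BlkD.inB (BlkD.upd (BlkD.upd (fun _ => 0) 0 5) 0 7)
      (BlkD.upd (BlkD.upd (BlkD.upd (fun _ => 19) 0 9) 2 1) 0 7)) :=
  BlkD.part_sound (d := d18_19_9_1) dk18_19_9_1 hn (by decide) (tr := t18_19_9_1_4)
    (by decide +kernel) rfl rfl rfl rfl

/-- the certificates of the part 5 of the pair `(9, 1)` -/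
def t18_19_9_1_5 : BlkD.Tr :=
  .S 0 8 (.S 1 11 (.S 1 5 (.S 1 2 (.L 3 5 [4, 4] [] [] 100000 0 0 1100000 50000 0 50000 0 0 0 0)
    (.S 1 4 (.L 3 5 [4, 4] [] [] 100000 0 0 1200000 50000 0 50000 0 0 0 0) (.L 3 5 [4, 4] [132,
    132, 124, 116, 108, 100] [] 100000 0 0 1250000 50000 0 50000 0 0 0 0))) (.S 1 8 (.S 1 7 (.L 3 5
    [4, 4] [] [] 100000 2 2 1249999 16667 0 100000 0 0 0 0) (.L 3 5 [4, 4] [216, 216, 216, 216,
    216, 208] [] 100000 0 0 1200000 50000 0 100000 0 0 0 0)) (.E 0))) (.E 0)) (.L 3 5 [4, 4] [] []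
    100000 3 3 1271428 14286 0 71429 0 0 0 0)

lemma n18_19_9_1_5 {n : ℕ} (hn : 6 ≤ n) : NoNd ((18 : ℕ) : ℤ) ((19 : ℕ) : ℤ) n 9 1
    (BlkD.inB (BlkD.upd (BlkD.upd (fun _ => 0) 0 5) 0 8)
      (BlkD.upd (BlkD.upd (fun _ => 19) 0 9) 2 1)) :=
  BlkD.part_sound (d := d18_19_9_1) dk18_19_9_1 hn (by decide) (tr := t18_19_9_1_5)
    (by decide +kernel) rfl rfl rfl rfl

/-- the certificates of the part 6 of the pair `(9, 1)` -/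
def t18_19_9_1_6 : BlkD.Tr :=
  .E 1

lemma n18_19_9_1_6 {n : ℕ} (hn : 6 ≤ n) : NoNd ((18 : ℕ) : ℤ) ((19 : ℕ) : ℤ) n 9 1
    (BlkD.inB (BlkD.upd (fun _ => 0) 2 2)
      (BlkD.upd (fun _ => 19) 0 9)) :=
  BlkD.part_sound (d := d18_19_9_1) dk18_19_9_1 hn (by decide) (tr := t18_19_9_1_6)
    (by decide +kernel) rfl rfl rfl rfl

/-- the certificates of the part 7 of the pair `(9, 1)` -/
def t18_19_9_1_7 : BlkD.Tr :=
  .E 0

lemma n18_19_9_1_7 {n : ℕ} (hn : 6 ≤ n) : NoNd ((18 : ℕ) : ℤ) ((19 : ℕ) : ℤ) n 9 1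
    (BlkD.inB (BlkD.upd (fun _ => 0) 0 10)
      (fun _ => 19)) :=
  BlkD.part_sound (d := d18_19_9_1) dk18_19_9_1 hn (by decide) (tr := t18_19_9_1_7)
    (by decide +kernel) rfl rfl rfl rfl

lemma pr18_19_9_1 {n : ℕ} (hn : 6 ≤ n) : NoPr ((18 : ℕ) : ℤ) ((19 : ℕ) : ℤ) n 9 1 :=
  BlkD.of_root (q := 4) (by decide) hn (BlkD.sp 0 9 (BlkD.sp 2 1 (BlkD.sp 0 4 (n18_19_9_1_1 hn)
    (BlkD.sp 0 7 (BlkD.sp 0 6 (BlkD.sp 0 5 (n18_19_9_1_2 hn)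
    (n18_19_9_1_3 hn))
    (n18_19_9_1_4 hn))
    (n18_19_9_1_5 hn)))
    (n18_19_9_1_6 hn))
    (n18_19_9_1_7 hn))

end BlkC

end Pool.Agent.Lib.MP_f04ccf_co
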