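import Pool.Agent.Lib.MP_f04ccf_co.M.BlkTp

/-!
MP_f04ccf_co, block certificate, data `R = 18`, `H = 19`, part 5 (certificates: helper99, bd9.cpp).
-/

set_option autoImplicit false
set_option maxRecDepth 100000

namespace Pool.Agent.Lib.MP_f04ccf_co

namespace BlkC

/-- the numbers of the pair `(9, 2)`, `R = 18`, `H = 19` -/
def d18_19_9_2 : BlkD.Pd :=
  ⟨18, 19, 4, 9, 2, 5, 1, 2, 0, 4, 8, 0, 0, 4, 4, 0, [0, 8, 16, 20, 20, 20], [0, 4, 8, 12, 16, 20],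
    [⟨1, 1, 1, 4, 8, [0, 4], [0, 4]⟩, ⟨1, 1, 1, 4, 12, [0, 8], [0, 4]⟩]⟩

lemma dk18_19_9_2 : BlkD.pairOk d18_19_9_2 = true := by decide +kernel

/-- the certificates of the part 1 of the pair `(9, 2)` -/
def t18_19_9_2_1 : BlkD.Tr :=
  .L 4 5 [4, 4, 18] [] [] 100000 194119 194119 1135295 76471 0 88235 52941 0 0 0

lemma n18_19_9_2_1 {n : ℕ} (hn : 6 ≤ n) : NoNd ((18 : ℕ) : ℤ) ((19 : ℕ) : ℤ) n 9 2
    (BlkD.inB (fun _ => 0)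
      (BlkD.upd (BlkD.upd (BlkD.upd (fun _ => 19) 0 9) 2 2) 0 4)) :=
  BlkD.part_sound (d := d18_19_9_2) dk18_19_9_2 hn (by decide) (tr := t18_19_9_2_1)
    (by decide +kernel) rfl rfl rfl rfl

/-- the certificates of the part 2 of the pair `(9, 2)` -/
def t18_19_9_2_2 : BlkD.Tr :=
  .S 1 14 (.S 1 7 (.L 4 5 [4, 4, 18] [] [] 100000 0 0 1300003 33333 0 33333 33333 0 0 0) (.S 1 11
    (.S 1 9 (.S 1 8 (.L 4 5 [4, 4, 18] [174, 174, 174, 174, 170, 162] [] 100000 0 0 1366670 33333 0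
    33333 33333 0 0 0) (.S 2 1 (.S 2 0 (.L 4 5 [4, 4, 18] [200, 200, 200, 200, 200, 196] [] 100000
    100000 100000 1250000 50000 0 100000 50000 0 0 0) (.S 3 4 (.S 3 2 (.S 3 1 (.S 3 0 (.L 4 5 [4,
    4, 18] [200, 200, 200, 200, 200, 196] [0, 0, 0, 0, 0, 0] 100000 0 0 1333335 33333 0 66667 0 0 0
    0) (.L 6 9 [6, 2, 18] [200, 200, 200, 200, 200, 196] [12, 2, 0, 0, 0, 0] 100000 0 0 1350000
    50000 0 100000 0 0 0 0)) (.L 6 9 [6, 2, 18] [200, 200, 200, 200, 200, 196] [24, 16, 6, 0, 0, 0]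
    100000 0 0 1350000 50000 0 100000 0 0 0 0)) (.E 1)) (.E 1))) (.L 6 9 [6, 2, 18] [200, 200, 200,
    200, 200, 196] [] 100000 0 0 1350000 50000 0 75000 0 0 0 0))) (.S 1 10 (.S 2 1 (.S 2 0 (.L 6 9
    [6, 2, 18] [228, 228, 228, 228, 228, 228] [] 100000 0 0 1300000 50000 0 100000 50000 0 0 0) (.S
    3 3 (.S 3 1 (.S 3 0 (.L 6 9 [6, 2, 18] [228, 228, 228, 228, 228, 228] [0, 0, 0, 0, 0, 0] 100000
    0 0 1350000 50000 0 50000 0 0 0 0) (.L 3 4 [4, 5, 18] [228, 228, 228, 228, 228, 228] [12, 2, 0,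
    0, 0, 0] 100000 300000 300000 1000000 100000 0 100000 0 0 0 0)) (.L 3 4 [4, 5, 18] [228, 228,
    228, 228, 228, 228] [] 100000 700000 600000 0 200000 0 200000 0 0 0 0)) (.E 1))) (.L 3 4 [4, 5,
    18] [228, 228, 228, 228, 228, 228] [] 100000 655556 566667 0 188889 0 188889 0 0 0 0)) (.L 3 4
    [4, 5, 18] [258, 258, 258, 258, 258, 258] [] 100000 300000 300000 1000000 100000 0 100000 0 0 0
    0))) (.S 1 13 (.S 1 12 (.L 3 4 [4, 5, 18] [290, 290, 290, 290, 290, 290] [] 100000 300000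
    300000 1000000 100000 0 100000 0 0 0 0) (.L 3 4 [4, 5, 18] [324, 324, 324, 324, 324, 324] []
    100000 572727 390909 1 190909 0 281818 0 0 0 0)) (.L 3 4 [4, 5, 18] [360, 360, 360, 360, 360,
    360] [] 100000 481820 277275 0 177273 0 304545 0 0 0 0)))) (.E 0)

lemma n18_19_9_2_2 {n : ℕ} (hn : 6 ≤ n) : NoNd ((18 : ℕ) : ℤ) ((19 : ℕ) : ℤ) n 9 2
    (BlkD.inB (BlkD.upd (fun _ => 0) 0 5)
      (BlkD.upd (BlkD.upd (BlkD.upd (BlkD.upd (BlkD.upd (fun _ => 19) 0 9) 2 2) 0 7) 0 6) 0 5)) :=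
  BlkD.part_sound (d := d18_19_9_2) dk18_19_9_2 hn (by decide) (tr := t18_19_9_2_2)
    (by decide +kernel) rfl rfl rfl rfl

/-- the certificates of the part 3 of the pair `(9, 2)` -/
def t18_19_9_2_3 : BlkD.Tr :=
  .S 1 13 (.S 1 6 (.L 4 5 [4, 4, 18] [] [] 100000 2 2 1363635 27273 0 27273 36364 0 0 0) (.S 1 10
    (.S 1 8 (.S 1 7 (.S 2 1 (.S 2 0 (.S 3 6 (.S 3 3 (.S 3 1 (.L 4 5 [4, 4, 18] [164, 164, 164, 160,
    152, 144] [] 100000 0 0 1314287 28571 0 28571 28571 0 0 0) (.S 3 2 (.L 4 5 [4, 4, 18] [164,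
    164, 164, 160, 152, 144] [20, 12, 2, 0, 0, 0] 100000 0 0 1357145 28571 0 42857 28571 0 0 0) (.L
    6 6 [4, 3, 18] [164, 164, 164, 160, 152, 144] [28, 24, 16, 6, 0, 0] 100000 0 0 1300001 40000 0
    53333 100000 0 0 0))) (.L 6 6 [4, 3, 18] [164, 164, 164, 160, 152, 144] [] 100000 254168 1 0
    141667 0 141667 354167 0 0 0)) (.E 1)) (.L 6 6 [4, 3, 18] [164, 164, 164, 160, 152, 144] []
    100000 0 0 1380000 40000 0 80000 20000 0 0 0)) (.L 6 6 [4, 3, 18] [164, 164, 164, 160, 152,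
    144] [] 100000 0 0 1380000 40000 0 60000 0 0 0 0)) (.S 2 1 (.S 2 0 (.L 6 6 [4, 3, 18] [190,
    190, 190, 190, 186, 178] [] 100000 50000 50000 1300000 50000 0 100000 50000 0 0 0) (.S 3 4 (.S
    3 2 (.S 3 1 (.S 3 0 (.L 6 6 [4, 3, 18] [190, 190, 190, 190, 186, 178] [0, 0, 0, 0, 0, 0] 100000
    0 0 1380000 40000 0 60000 0 0 0 0) (.S 4 8 (.S 4 4 (.L 3 4 [4, 5, 18] [186, 178, 170, 162, 152,
    0] [12, 2, 0, 0, 0, 0] 100000 166668 166668 1199999 66667 0 100000 0 0 0 0) (.L 3 4 [4, 5, 18]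
    [190, 190, 190, 190, 186, 178] [12, 2, 0, 0, 0, 0] 100000 255556 0 0 88889 0 355556 0 0 0 0))
    (.E 2))) (.L 4 5 [4, 4, 18] [190, 190, 190, 190, 186, 178] [24, 16, 6, 0, 0, 0] 100000 300000
    300000 1000000 100000 0 100000 0 0 0 0)) (.E 1)) (.E 1))) (.L 4 5 [4, 4, 18] [190, 190, 190,
    190, 186, 178] [] 100000 300000 300000 1000000 100000 0 100000 0 0 0 0))) (.S 1 9 (.S 2 1 (.S 2
    0 (.S 3 4 (.S 3 2 (.S 3 1 (.S 3 0 (.L 4 5 [4, 4, 18] [218, 218, 218, 218, 218, 214] [0, 0, 0,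
    0, 0, 0] 100000 0 0 1340000 40000 0 40000 0 0 0 0) (.L 6 6 [4, 3, 18] [218, 218, 218, 218, 218,
    214] [10, 0, 0, 0, 0, 0] 100000 100000 100000 1225000 75000 0 100000 75000 0 0 0)) (.L 6 6 [4,
    3, 18] [218, 218, 218, 218, 218, 214] [20, 12, 2, 0, 0, 0] 100000 66668 66668 1233332 66667 0
    100000 66667 0 0 0)) (.L 6 6 [4, 3, 18] [218, 218, 218, 218, 218, 214] [] 100000 260000 0 0
    180000 0 270000 360000 0 0 0)) (.E 1)) (.S 3 3 (.S 3 1 (.S 3 0 (.L 6 6 [4, 3, 18] [218, 218,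
    218, 218, 218, 214] [0, 0, 0, 0, 0, 0] 100000 0 0 1350000 50000 0 100000 0 0 0 0) (.L 3 4 [4,
    5, 18] [218, 218, 218, 218, 218, 214] [12, 2, 0, 0, 0, 0] 100000 200000 200000 1175000 75000 0
    100000 0 0 0 0)) (.L 3 4 [4, 5, 18] [218, 218, 218, 218, 218, 214] [] 100000 300000 300000
    1000000 100000 0 100000 0 0 0 0)) (.E 1))) (.L 3 4 [4, 5, 18] [218, 218, 218, 218, 218, 214] []
    100000 300000 300000 900000 100000 0 100000 0 0 0 0)) (.L 3 4 [4, 5, 18] [248, 248, 248, 248,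
    248, 248] [] 100000 175000 175000 1200000 75000 0 100000 0 0 0 0))) (.S 1 12 (.S 1 11 (.L 3 4
    [4, 5, 18] [280, 280, 280, 280, 280, 280] [] 100000 200001 200001 1177777 77778 0 100000 11111
    0 0 0) (.L 3 4 [4, 5, 18] [314, 314, 314, 314, 314, 314] [] 100000 575000 450000 0 225000 0
    225000 0 0 0 0)) (.L 3 4 [4, 5, 18] [350, 350, 350, 350, 350, 350] [] 100000 533333 422222 1
    211111 0 211111 0 0 0 0)))) (.E 0)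

lemma n18_19_9_2_3 {n : ℕ} (hn : 6 ≤ n) : NoNd ((18 : ℕ) : ℤ) ((19 : ℕ) : ℤ) n 9 2
    (BlkD.inB (BlkD.upd (BlkD.upd (fun _ => 0) 0 5) 0 6)
      (BlkD.upd (BlkD.upd (BlkD.upd (BlkD.upd (fun _ => 19) 0 9) 2 2) 0 7) 0 6)) :=
  BlkD.part_sound (d := d18_19_9_2) dk18_19_9_2 hn (by decide) (tr := t18_19_9_2_3)
    (by decide +kernel) rfl rfl rfl rfl

/-- the certificates of the part 4 of the pair `(9, 2)` -/
def t18_19_9_2_4 : BlkD.Tr :=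
  .S 1 12 (.S 1 6 (.S 1 3 (.L 3 4 [4, 5, 18] [] [] 100000 0 0 1233335 33333 0 33333 33333 0 0 0)
    (.S 1 5 (.L 4 5 [4, 4, 18] [] [] 100000 0 0 1366669 33333 0 33333 33333 0 0 0) (.S 2 1 (.S 2 0
    (.S 3 6 (.S 3 3 (.S 3 1 (.L 4 5 [4, 4, 18] [152, 152, 148, 140, 132, 124] [] 100000 0 0 1300001
    33333 0 66667 33333 0 0 0) (.S 3 2 (.L 4 5 [4, 4, 18] [152, 152, 148, 140, 132, 124] [20, 12,
    2, 0, 0, 0] 100000 0 0 1358824 35294 0 58824 23529 0 0 0) (.L 6 6 [4, 3, 18] [152, 152, 148,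
    140, 132, 124] [28, 24, 16, 6, 0, 0] 100000 0 0 1300000 40000 0 60000 100000 0 0 0))) (.L 6 6
    [4, 3, 18] [152, 152, 148, 140, 132, 124] [] 100000 66668 1 966664 66667 0 66667 166667 0 0 0))
    (.E 1)) (.S 3 5 (.S 3 2 (.S 3 1 (.L 4 5 [4, 4, 18] [152, 152, 148, 140, 132, 124] [] 100000 0 0
    1366668 33333 0 66667 33333 0 0 0) (.L 6 9 [6, 2, 18] [152, 152, 148, 140, 132, 124] [24, 16,
    6, 0, 0, 0] 100000 0 0 1350000 50000 0 75000 50000 0 0 0)) (.E 1)) (.E 1))) (.L 6 9 [6, 2, 18]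
    [152, 152, 148, 140, 132, 124] [] 100000 0 0 1350000 50000 0 100000 0 0 0 0)))) (.S 1 9 (.S 1 8
    (.L 6 9 [6, 2, 18] [] [] 100000 0 0 1350000 50000 0 100000 50000 0 0 0) (.L 4 5 [4, 4, 18]
    [236, 236, 236, 236, 236, 232] [] 100000 100001 100001 1266666 66667 0 100000 33333 0 0 0)) (.S
    1 11 (.S 1 10 (.L 4 5 [4, 4, 18] [268, 268, 268, 268, 268, 268] [] 100000 200000 200000 1100000
    100000 0 100000 0 0 0 0) (.L 4 5 [4, 4, 18] [302, 302, 302, 302, 302, 302] [] 100000 429413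
    211766 0 211765 0 317647 0 0 0 0)) (.L 4 5 [4, 4, 18] [338, 338, 338, 338, 338, 338] [] 100000
    322222 211111 1 211111 0 211111 0 0 0 0)))) (.E 0)

lemma n18_19_9_2_4 {n : ℕ} (hn : 6 ≤ n) : NoNd ((18 : ℕ) : ℤ) ((19 : ℕ) : ℤ) n 9 2
    (BlkD.inB (BlkD.upd (BlkD.upd (fun _ => 0) 0 5) 0 7)
      (BlkD.upd (BlkD.upd (BlkD.upd (fun _ => 19) 0 9) 2 2) 0 7)) :=
  BlkD.part_sound (d := d18_19_9_2) dk18_19_9_2 hn (by decide) (tr := t18_19_9_2_4)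
    (by decide +kernel) rfl rfl rfl rfl

/-- the certificates of the part 5 of the pair `(9, 2)` -/
def t18_19_9_2_5 : BlkD.Tr :=
  .S 0 8 (.S 1 11 (.S 1 5 (.S 1 2 (.L 4 5 [4, 4, 18] [] [] 100000 0 0 1300000 0 0 0 50000 0 0 0)
    (.S 1 4 (.L 4 5 [4, 4, 18] [] [] 100000 0 0 1350000 37500 0 75000 50000 0 0 0) (.L 4 5 [4, 4,
    18] [138, 134, 126, 118, 110, 100] [] 100000 0 0 1380000 30000 0 100000 50000 0 0 0))) (.S 1 8
    (.S 1 7 (.S 1 6 (.L 4 5 [4, 4, 18] [164, 164, 160, 152, 144, 136] [] 100000 50000 50000 1300000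
    50000 0 100000 50000 0 0 0) (.L 4 5 [4, 4, 18] [192, 192, 192, 188, 180, 172] [] 100000 0 0
    1340000 40000 0 100000 40000 0 0 0)) (.L 4 5 [4, 4, 18] [222, 222, 222, 222, 218, 210] []
    100000 0 0 1300000 50000 0 100000 50000 0 0 0)) (.S 1 10 (.S 1 9 (.L 4 5 [4, 4, 18] [254, 254,
    254, 254, 254, 250] [] 100000 366666 133333 2 233333 0 333333 0 0 0 0) (.L 4 5 [4, 4, 18] [288,
    288, 288, 288, 288, 288] [] 100000 260000 0 0 180000 0 360000 0 0 0 0)) (.L 4 5 [4, 4, 18]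
    [324, 324, 324, 324, 324, 324] [] 100000 375000 237500 0 237500 0 237500 0 0 0 0)))) (.E 0))
    (.L 4 5 [4, 4, 18] [] [] 100000 0 0 1368422 15789 0 57895 50000 0 0 0)

lemma n18_19_9_2_5 {n : ℕ} (hn : 6 ≤ n) : NoNd ((18 : ℕ) : ℤ) ((19 : ℕ) : ℤ) n 9 2
    (BlkD.inB (BlkD.upd (BlkD.upd (fun _ => 0) 0 5) 0 8)
      (BlkD.upd (BlkD.upd (fun _ => 19) 0 9) 2 2)) :=
  BlkD.part_sound (d := d18_19_9_2) dk18_19_9_2 hn (by decide) (tr := t18_19_9_2_5)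
    (by decide +kernel) rfl rfl rfl rfl

/-- the certificates of the part 6 of the pair `(9, 2)` -/
def t18_19_9_2_6 : BlkD.Tr :=
  .E 1

lemma n18_19_9_2_6 {n : ℕ} (hn : 6 ≤ n) : NoNd ((18 : ℕ) : ℤ) ((19 : ℕ) : ℤ) n 9 2
    (BlkD.inB (BlkD.upd (fun _ => 0) 2 3)
      (BlkD.upd (fun _ => 19) 0 9)) :=
  BlkD.part_sound (d := d18_19_9_2) dk18_19_9_2 hn (by decide) (tr := t18_19_9_2_6)
    (by decide +kernel) rfl rfl rfl rfl

/-- the certificates of the part 7 of the pair `(9, 2)` -/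
def t18_19_9_2_7 : BlkD.Tr :=
  .E 0

lemma n18_19_9_2_7 {n : ℕ} (hn : 6 ≤ n) : NoNd ((18 : ℕ) : ℤ) ((19 : ℕ) : ℤ) n 9 2
    (BlkD.inB (BlkD.upd (fun _ => 0) 0 10)
      (fun _ => 19)) :=
  BlkD.part_sound (d := d18_19_9_2) dk18_19_9_2 hn (by decide) (tr := t18_19_9_2_7)
    (by decide +kernel) rfl rfl rfl rfl

lemma pr18_19_9_2 {n : ℕ} (hn : 6 ≤ n) : NoPr ((18 : ℕ) : ℤ) ((19 : ℕ) : ℤ) n 9 2 :=
  BlkD.of_root (q := 4) (by decide) hn (BlkD.sp 0 9 (BlkD.sp 2 2 (BlkD.sp 0 4 (n18_19_9_2_1 hn)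
    (BlkD.sp 0 7 (BlkD.sp 0 6 (BlkD.sp 0 5 (n18_19_9_2_2 hn)
    (n18_19_9_2_3 hn))
    (n18_19_9_2_4 hn))
    (n18_19_9_2_5 hn)))
    (n18_19_9_2_6 hn))
    (n18_19_9_2_7 hn))

/-- the numbers of the pair `(9, 3)`, `R = 18`, `H = 19` -/
def d18_19_9_3 : BlkD.Pd :=
  ⟨18, 19, 4, 9, 3, 4, 0, 3, 0, 4, 4, 0, 0, 4, 4, 0, [0, 4, 8, 12, 16], [0, 4, 8, 12, 16], [⟨1, 1,
    1, 4, 8, [0, 4], [0, 4]⟩]⟩

lemma dk18_19_9_3 : BlkD.pairOk d18_19_9_3 = true := by decide +kernel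

/-- the certificates of the part 1 of the pair `(9, 3)` -/
def t18_19_9_3_1 : BlkD.Tr :=
  .L 3 3 [4, 18, 18, 18] [] [] 100000 0 0 1400001 100000 0 100000 33333 0 0 0

lemma n18_19_9_3_1 {n : ℕ} (hn : 6 ≤ n) : NoNd ((18 : ℕ) : ℤ) ((19 : ℕ) : ℤ) n 9 3
    (BlkD.inB (fun _ => 0)
      (BlkD.upd (BlkD.upd (BlkD.upd (BlkD.upd (fun _ => 19) 0 9) 2 3) 0 4) 0 2)) :=
  BlkD.part_sound (d := d18_19_9_3) dk18_19_9_3 hn (by decide) (tr := t18_19_9_3_1)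
    (by decide +kernel) rfl rfl rfl rfl

/-- the certificates of the part 2 of the pair `(9, 3)` -/
def t18_19_9_3_2 : BlkD.Tr :=
  .L 3 3 [4, 18, 18, 18] [] [] 100000 0 0 1400001 100000 0 100000 33333 0 0 0

lemma n18_19_9_3_2 {n : ℕ} (hn : 6 ≤ n) : NoNd ((18 : ℕ) : ℤ) ((19 : ℕ) : ℤ) n 9 3
    (BlkD.inB (BlkD.upd (fun _ => 0) 0 3)
      (BlkD.upd (BlkD.upd (BlkD.upd (fun _ => 19) 0 9) 2 3) 0 4)) :=
  BlkD.part_sound (d := d18_19_9_3) dk18_19_9_3 hn (by decide) (tr := t18_19_9_3_2)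
    (by decide +kernel) rfl rfl rfl rfl

/-- the certificates of the part 3 of the pair `(9, 3)` -/
def t18_19_9_3_3 : BlkD.Tr :=
  .L 3 3 [4, 18, 18, 18] [] [] 100000 0 0 1400001 100000 0 100000 33333 0 0 0

lemma n18_19_9_3_3 {n : ℕ} (hn : 6 ≤ n) : NoNd ((18 : ℕ) : ℤ) ((19 : ℕ) : ℤ) n 9 3
    (BlkD.inB (BlkD.upd (fun _ => 0) 0 5)
      (BlkD.upd (BlkD.upd (BlkD.upd (fun _ => 19) 0 9) 2 3) 0 7)) :=
  BlkD.part_sound (d := d18_19_9_3) dk18_19_9_3 hn (by decide) (tr := t18_19_9_3_3)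
    (by decide +kernel) rfl rfl rfl rfl

/-- the certificates of the part 4 of the pair `(9, 3)` -/
def t18_19_9_3_4 : BlkD.Tr :=
  .L 3 3 [4, 18, 18, 18] [] [] 100000 0 0 1400001 100000 0 100000 33333 0 0 0

lemma n18_19_9_3_4 {n : ℕ} (hn : 6 ≤ n) : NoNd ((18 : ℕ) : ℤ) ((19 : ℕ) : ℤ) n 9 3
    (BlkD.inB (BlkD.upd (BlkD.upd (fun _ => 0) 0 5) 0 8)
      (BlkD.upd (BlkD.upd (fun _ => 19) 0 9) 2 3)) :=
  BlkD.part_sound (d := d18_19_9_3) dk18_19_9_3 hn (by decide) (tr := t18_19_9_3_4)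
    (by decide +kernel) rfl rfl rfl rfl

/-- the certificates of the part 5 of the pair `(9, 3)` -/
def t18_19_9_3_5 : BlkD.Tr :=
  .E 1

lemma n18_19_9_3_5 {n : ℕ} (hn : 6 ≤ n) : NoNd ((18 : ℕ) : ℤ) ((19 : ℕ) : ℤ) n 9 3
    (BlkD.inB (BlkD.upd (fun _ => 0) 2 4)
      (BlkD.upd (fun _ => 19) 0 9)) :=
  BlkD.part_sound (d := d18_19_9_3) dk18_19_9_3 hn (by decide) (tr := t18_19_9_3_5)
    (by decide +kernel) rfl rfl rfl rfl

/-- the certificates of the part 6 of the pair `(9, 3)` -/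
def t18_19_9_3_6 : BlkD.Tr :=
  .E 0

lemma n18_19_9_3_6 {n : ℕ} (hn : 6 ≤ n) : NoNd ((18 : ℕ) : ℤ) ((19 : ℕ) : ℤ) n 9 3
    (BlkD.inB (BlkD.upd (fun _ => 0) 0 10)
      (fun _ => 19)) :=
  BlkD.part_sound (d := d18_19_9_3) dk18_19_9_3 hn (by decide) (tr := t18_19_9_3_6)
    (by decide +kernel) rfl rfl rfl rfl

lemma pr18_19_9_3 {n : ℕ} (hn : 6 ≤ n) : NoPr ((18 : ℕ) : ℤ) ((19 : ℕ) : ℤ) n 9 3 :=
  BlkD.of_root (q := 4) (by decide) hn (BlkD.sp 0 9 (BlkD.sp 2 3 (BlkD.sp 0 4 (BlkD.sp 0 2 (n18_19_9_3_1 hn)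
    (n18_19_9_3_2 hn))
    (BlkD.sp 0 7 (n18_19_9_3_3 hn)
    (n18_19_9_3_4 hn)))
    (n18_19_9_3_5 hn))
    (n18_19_9_3_6 hn))

/-- the numbers of the pair `(10, 0)`, `R = 18`, `H = 19` -/
def d18_19_10_0 : BlkD.Pd :=
  ⟨18, 19, 4, 10, 0, 6, 0, 1, 0, 4, 4, 0, 0, 4, 4, 0, [0, 4, 8, 12, 16, 20, 24], [0, 4, 8, 12, 16,
    20, 24], [⟨1, 1, 1, 4, 8, [0, 4], [0, 4]⟩]⟩

lemma dk18_19_10_0 : BlkD.pairOk d18_19_10_0 = true := by decide +kernel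

/-- the certificates of the part 1 of the pair `(10, 0)` -/
def t18_19_10_0_1 : BlkD.Tr :=
  .S 0 10 (.S 2 0 (.L 3 3 [4] [] [] 100000 0 0 1100000 100000 0 100000 0 0 0 0) (.E 1)) (.E 0)

lemma n18_19_10_0_1 {n : ℕ} (hn : 6 ≤ n) : NoNd ((18 : ℕ) : ℤ) ((19 : ℕ) : ℤ) n 10 0
    (BlkD.inB (fun _ => 0)
      (fun _ => 19)) :=
  BlkD.part_sound (d := d18_19_10_0) dk18_19_10_0 hn (by decide) (tr := t18_19_10_0_1)
    (by decide +kernel) rfl rfl rfl rfl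

lemma pr18_19_10_0 {n : ℕ} (hn : 6 ≤ n) : NoPr ((18 : ℕ) : ℤ) ((19 : ℕ) : ℤ) n 10 0 :=
  BlkD.of_root (q := 4) (by decide) hn (n18_19_10_0_1 hn)

/-- the numbers of the pair `(10, 1)`, `R = 18`, `H = 19` -/
def d18_19_10_1 : BlkD.Pd :=
  ⟨18, 19, 4, 10, 1, 5, 1, 1, 0, 4, 8, 0, 0, 4, 4, 0, [0, 8, 16, 20, 20, 20], [0, 4, 8, 12, 16,
    20], [⟨1, 1, 1, 4, 8, [0, 4], [0, 4]⟩, ⟨1, 1, 1, 4, 12, [0, 8], [0, 4]⟩]⟩

lemma dk18_19_10_1 : BlkD.pairOk d18_19_10_1 = true := by decide +kernel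

/-- the certificates of the part 1 of the pair `(10, 1)` -/
def t18_19_10_1_1 : BlkD.Tr :=
  .L 4 7 [4, 3] [] [] 100000 216665 216665 1133336 83333 0 100000 0 0 0 0

lemma n18_19_10_1_1 {n : ℕ} (hn : 6 ≤ n) : NoNd ((18 : ℕ) : ℤ) ((19 : ℕ) : ℤ) n 10 1
    (BlkD.inB (fun _ => 0)
      (BlkD.upd (BlkD.upd (BlkD.upd (fun _ => 19) 0 10) 2 1) 0 5)) :=
  BlkD.part_sound (d := d18_19_10_1) dk18_19_10_1 hn (by decide) (tr := t18_19_10_1_1)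
    (by decide +kernel) rfl rfl rfl rfl

/-- the certificates of the part 2 of the pair `(10, 1)` -/
def t18_19_10_1_2 : BlkD.Tr :=
  .S 0 7 (.S 0 6 (.S 1 13 (.S 1 6 (.L 4 7 [4, 3] [] [] 100000 0 0 1200002 33333 0 33333 0 0 0 0)
    (.S 1 10 (.S 1 8 (.L 4 7 [4, 3] [] [] 100000 40000 40000 1280000 40000 0 60000 0 0 0 0) (.S 1 9
    (.L 4 7 [4, 3] [208, 208, 208, 208, 208, 208] [] 100000 0 0 1340000 40000 0 40000 0 0 0 0) (.L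
    4 7 [4, 3] [238, 238, 238, 238, 238, 238] [] 100000 50000 50000 1300000 50000 0 100000 0 0 0
    0))) (.S 1 12 (.S 1 11 (.L 4 7 [4, 3] [270, 270, 270, 270, 270, 270] [] 100000 133335 133335
    1233332 66667 0 100000 0 0 0 0) (.L 3 5 [4, 4] [304, 304, 304, 304, 304, 304] [] 100000 300000
    300000 1000000 100000 0 100000 0 0 0 0)) (.L 3 5 [4, 4] [340, 340, 340, 340, 340, 340] []
    100000 744444 633333 1 211111 0 211111 0 0 0 0)))) (.E 0)) (.S 1 12 (.S 1 6 (.L 3 5 [4, 4] []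
    [] 100000 0 0 1300002 33333 0 33333 0 0 0 0) (.S 1 9 (.S 1 8 (.S 1 7 (.L 3 5 [4, 4] [168, 168,
    168, 168, 164, 156] [] 100000 100000 100000 1250000 50000 0 100000 0 0 0 0) (.L 3 5 [4, 4]
    [196, 196, 196, 196, 196, 192] [] 100000 66667 66667 1300000 50000 0 66667 0 0 0 0)) (.S 2 0
    (.S 3 3 (.S 3 1 (.S 3 0 (.S 4 9 (.S 4 4 (.S 4 2 (.L 4 7 [4, 3] [214, 206, 198, 0, 0, 0] [0, 0,
    0, 0, 0, 0] 100000 66668 66668 1266666 66667 0 100000 0 0 0 0) (.L 4 7 [4, 3] [226, 222, 214,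
    206, 198, 0] [0, 0, 0, 0, 0, 0] 100000 11111 0 1244446 44444 0 111111 0 0 0 0)) (.L 4 7 [4, 3]
    [226, 226, 226, 226, 226, 226] [0, 0, 0, 0, 0, 0] 100000 233333 0 133335 133333 0 333333 0 0 0
    0)) (.E 2)) (.L 4 7 [4, 3] [226, 226, 226, 226, 226, 226] [8, 0, 0, 0, 0, 0] 100000 300000
    300000 1000000 100000 0 100000 0 0 0 0)) (.L 4 7 [4, 3] [226, 226, 226, 226, 226, 226] []
    100000 390907 163634 3 163636 0 163636 327273 0 0 0)) (.E 1)) (.L 4 7 [4, 3] [226, 226, 226,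
    226, 226, 226] [] 100000 300000 300000 900000 100000 0 100000 0 0 0 0))) (.S 1 11 (.S 1 10 (.L
    4 7 [4, 3] [258, 258, 258, 258, 258, 258] [] 100000 200000 200000 1100000 100000 0 100000 0 0 0
    0) (.L 4 7 [4, 3] [292, 292, 292, 292, 292, 292] [] 100000 671429 514286 0 257143 0 257143 0 0
    0 0)) (.L 4 7 [4, 3] [328, 328, 328, 328, 328, 328] [] 100000 523530 329412 0 229412 0 294118 0
    0 0 0)))) (.E 0))) (.S 1 11 (.S 1 5 (.L 4 7 [4, 3] [] [] 100000 0 0 1300000 40000 0 40000 0 0 0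
    0) (.S 1 8 (.S 1 7 (.S 1 6 (.L 4 7 [4, 3] [154, 154, 154, 150, 142, 134] [] 100000 50000 50000
    1300000 50000 0 50000 0 0 0 0) (.L 4 7 [4, 3] [182, 182, 182, 182, 178, 170] [] 100000 0 0
    1350000 50000 0 50000 0 0 0 0)) (.L 4 7 [4, 3] [212, 212, 212, 212, 212, 208] [] 100000 66668
    66668 1299999 66667 0 100000 0 0 0 0)) (.S 1 10 (.S 1 9 (.L 4 7 [4, 3] [244, 244, 244, 244,
    244, 244] [] 100000 100000 100000 1275000 75000 0 100000 0 0 0 0) (.L 3 5 [4, 4] [278, 278,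
    278, 278, 278, 278] [] 100000 671429 514286 0 257143 0 257143 0 0 0 0)) (.L 3 5 [4, 4] [314,
    314, 314, 314, 314, 314] [] 100000 612500 475000 0 237500 0 237500 0 0 0 0)))) (.E 0))

lemma n18_19_10_1_2 {n : ℕ} (hn : 6 ≤ n) : NoNd ((18 : ℕ) : ℤ) ((19 : ℕ) : ℤ) n 10 1
    (BlkD.inB (BlkD.upd (fun _ => 0) 0 6)
      (BlkD.upd (BlkD.upd (BlkD.upd (fun _ => 19) 0 10) 2 1) 0 8)) :=
  BlkD.part_sound (d := d18_19_10_1) dk18_19_10_1 hn (by decide) (tr := t18_19_10_1_2)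
    (by decide +kernel) rfl rfl rfl rfl

/-- the certificates of the part 3 of the pair `(10, 1)` -/
def t18_19_10_1_3 : BlkD.Tr :=
  .S 0 9 (.S 1 10 (.S 1 5 (.S 1 2 (.L 3 5 [4, 4] [] [] 100000 0 0 1200000 50000 0 50000 0 0 0 0)
    (.S 1 4 (.L 3 5 [4, 4] [] [] 100000 0 0 1300000 50000 0 50000 0 0 0 0) (.L 4 7 [4, 3] [138,
    138, 134, 126, 118, 110] [] 100000 0 0 1350000 50000 0 50000 0 0 0 0))) (.S 1 8 (.S 1 7 (.S 1 6
    (.L 4 7 [4, 3] [166, 166, 166, 162, 154, 146] [] 100000 0 0 1350000 50000 0 100000 0 0 0 0) (.L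
    4 7 [4, 3] [196, 196, 196, 196, 192, 184] [] 100000 0 0 1350000 50000 0 100000 0 0 0 0)) (.L 4
    7 [4, 3] [228, 228, 228, 228, 228, 224] [] 100000 100000 100000 1200000 100000 0 100000 0 0 0
    0)) (.S 1 9 (.L 4 7 [4, 3] [262, 262, 262, 262, 262, 262] [] 100000 500000 300000 0 300000 0
    300000 0 0 0 0) (.L 4 7 [4, 3] [298, 298, 298, 298, 298, 298] [] 100000 442858 271429 0 271429
    0 271429 0 0 0 0)))) (.E 0)) (.L 4 7 [4, 3] [] [] 100000 0 0 1360000 20000 0 100000 0 0 0 0)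

lemma n18_19_10_1_3 {n : ℕ} (hn : 6 ≤ n) : NoNd ((18 : ℕ) : ℤ) ((19 : ℕ) : ℤ) n 10 1
    (BlkD.inB (BlkD.upd (BlkD.upd (fun _ => 0) 0 6) 0 9)
      (BlkD.upd (BlkD.upd (fun _ => 19) 0 10) 2 1)) :=
  BlkD.part_sound (d := d18_19_10_1) dk18_19_10_1 hn (by decide) (tr := t18_19_10_1_3)
    (by decide +kernel) rfl rfl rfl rfl

/-- the certificates of the part 4 of the pair `(10, 1)` -/
def t18_19_10_1_4 : BlkD.Tr :=
  .E 1

lemma n18_19_10_1_4 {n : ℕ} (hn : 6 ≤ n) : NoNd ((18 : ℕ) : ℤ) ((19 : ℕ) : ℤ) n 10 1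
    (BlkD.inB (BlkD.upd (fun _ => 0) 2 2)
      (BlkD.upd (fun _ => 19) 0 10)) :=
  BlkD.part_sound (d := d18_19_10_1) dk18_19_10_1 hn (by decide) (tr := t18_19_10_1_4)
    (by decide +kernel) rfl rfl rfl rfl

/-- the certificates of the part 5 of the pair `(10, 1)` -/
def t18_19_10_1_5 : BlkD.Tr :=
  .E 0

lemma n18_19_10_1_5 {n : ℕ} (hn : 6 ≤ n) : NoNd ((18 : ℕ) : ℤ) ((19 : ℕ) : ℤ) n 10 1
    (BlkD.inB (BlkD.upd (fun _ => 0) 0 11)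
      (fun _ => 19)) :=
  BlkD.part_sound (d := d18_19_10_1) dk18_19_10_1 hn (by decide) (tr := t18_19_10_1_5)
    (by decide +kernel) rfl rfl rfl rfl

lemma pr18_19_10_1 {n : ℕ} (hn : 6 ≤ n) : NoPr ((18 : ℕ) : ℤ) ((19 : ℕ) : ℤ) n 10 1 :=
  BlkD.of_root (q := 4) (by decide) hn (BlkD.sp 0 10 (BlkD.sp 2 1 (BlkD.sp 0 5 (n18_19_10_1_1 hn)
    (BlkD.sp 0 8 (n18_19_10_1_2 hn)
    (n18_19_10_1_3 hn)))
    (n18_19_10_1_4 hn))
    (n18_19_10_1_5 hn))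

/-- the numbers of the pair `(10, 2)`, `R = 18`, `H = 19` -/
def d18_19_10_2 : BlkD.Pd :=
  ⟨18, 19, 4, 10, 2, 4, 0, 2, 0, 4, 4, 0, 0, 4, 4, 0, [0, 4, 8, 12, 16], [0, 4, 8, 12, 16], [⟨1, 1,
    1, 4, 8, [0, 4], [0, 4]⟩]⟩

lemma dk18_19_10_2 : BlkD.pairOk d18_19_10_2 = true := by decide +kernel

/-- the certificates of the part 1 of the pair `(10, 2)` -/
def t18_19_10_2_1 : BlkD.Tr :=
  .L 3 3 [4, 18, 18] [] [] 100000 0 0 1400000 100000 0 100000 0 0 0 0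

lemma n18_19_10_2_1 {n : ℕ} (hn : 6 ≤ n) : NoNd ((18 : ℕ) : ℤ) ((19 : ℕ) : ℤ) n 10 2
    (BlkD.inB (fun _ => 0)
      (BlkD.upd (BlkD.upd (BlkD.upd (fun _ => 19) 0 10) 2 2) 0 5)) :=
  BlkD.part_sound (d := d18_19_10_2) dk18_19_10_2 hn (by decide) (tr := t18_19_10_2_1)
    (by decide +kernel) rfl rfl rfl rfl

/-- the certificates of the part 2 of the pair `(10, 2)` -/
def t18_19_10_2_2 : BlkD.Tr :=
  .L 3 3 [4, 18, 18] [] [] 100000 0 0 1400000 100000 0 100000 0 0 0 0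

lemma n18_19_10_2_2 {n : ℕ} (hn : 6 ≤ n) : NoNd ((18 : ℕ) : ℤ) ((19 : ℕ) : ℤ) n 10 2
    (BlkD.inB (BlkD.upd (fun _ => 0) 0 6)
      (BlkD.upd (BlkD.upd (fun _ => 19) 0 10) 2 2)) :=
  BlkD.part_sound (d := d18_19_10_2) dk18_19_10_2 hn (by decide) (tr := t18_19_10_2_2)
    (by decide +kernel) rfl rfl rfl rfl

/-- the certificates of the part 3 of the pair `(10, 2)` -/
def t18_19_10_2_3 : BlkD.Tr :=
  .E 1

lemma n18_19_10_2_3 {n : ℕ} (hn : 6 ≤ n) : NoNd ((18 : ℕ) : ℤ) ((19 : ℕ) : ℤ) n 10 2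
    (BlkD.inB (BlkD.upd (fun _ => 0) 2 3)
      (BlkD.upd (fun _ => 19) 0 10)) :=
  BlkD.part_sound (d := d18_19_10_2) dk18_19_10_2 hn (by decide) (tr := t18_19_10_2_3)
    (by decide +kernel) rfl rfl rfl rfl

/-- the certificates of the part 4 of the pair `(10, 2)` -/
def t18_19_10_2_4 : BlkD.Tr :=
  .E 0

lemma n18_19_10_2_4 {n : ℕ} (hn : 6 ≤ n) : NoNd ((18 : ℕ) : ℤ) ((19 : ℕ) : ℤ) n 10 2
    (BlkD.inB (BlkD.upd (fun _ => 0) 0 11)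
      (fun _ => 19)) :=
  BlkD.part_sound (d := d18_19_10_2) dk18_19_10_2 hn (by decide) (tr := t18_19_10_2_4)
    (by decide +kernel) rfl rfl rfl rfl

lemma pr18_19_10_2 {n : ℕ} (hn : 6 ≤ n) : NoPr ((18 : ℕ) : ℤ) ((19 : ℕ) : ℤ) n 10 2 :=
  BlkD.of_root (q := 4) (by decide) hn (BlkD.sp 0 10 (BlkD.sp 2 2 (BlkD.sp 0 5 (n18_19_10_2_1 hn)
    (n18_19_10_2_2 hn))
    (n18_19_10_2_3 hn))
    (n18_19_10_2_4 hn))

/-- the numbers of the pair `(11, 0)`, `R = 18`, `H = 19` -/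
def d18_19_11_0 : BlkD.Pd :=
  ⟨18, 19, 4, 11, 0, 5, 0, 1, 0, 4, 4, 0, 0, 4, 4, 0, [0, 4, 8, 12, 16, 20], [0, 4, 8, 12, 16, 20],
    [⟨1, 1, 1, 4, 8, [0, 4], [0, 4]⟩]⟩

lemma dk18_19_11_0 : BlkD.pairOk d18_19_11_0 = true := by decide +kernel

/-- the certificates of the part 1 of the pair `(11, 0)` -/
def t18_19_11_0_1 : BlkD.Tr :=
  .S 0 11 (.S 2 0 (.L 3 3 [4] [] [] 100000 0 0 1200000 100000 0 100000 0 0 0 0) (.E 1)) (.E 0)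

lemma n18_19_11_0_1 {n : ℕ} (hn : 6 ≤ n) : NoNd ((18 : ℕ) : ℤ) ((19 : ℕ) : ℤ) n 11 0
    (BlkD.inB (fun _ => 0)
      (fun _ => 19)) :=
  BlkD.part_sound (d := d18_19_11_0) dk18_19_11_0 hn (by decide) (tr := t18_19_11_0_1)
    (by decide +kernel) rfl rfl rfl rfl

lemma pr18_19_11_0 {n : ℕ} (hn : 6 ≤ n) : NoPr ((18 : ℕ) : ℤ) ((19 : ℕ) : ℤ) n 11 0 :=
  BlkD.of_root (q := 4) (by decide) hn (n18_19_11_0_1 hn)

/-- the numbers of the pair `(11, 1)`, `R = 18`, `H = 19` -/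
def d18_19_11_1 : BlkD.Pd :=
  ⟨18, 19, 4, 11, 1, 4, 0, 1, 0, 4, 4, 0, 0, 4, 4, 0, [0, 4, 8, 12, 16], [0, 4, 8, 12, 16], [⟨1, 1,
    1, 4, 8, [0, 4], [0, 4]⟩]⟩

lemma dk18_19_11_1 : BlkD.pairOk d18_19_11_1 = true := by decide +kernel

/-- the certificates of the part 1 of the pair `(11, 1)` -/
def t18_19_11_1_1 : BlkD.Tr :=
  .S 0 11 (.S 2 1 (.L 3 3 [4, 18] [] [] 100000 0 0 1400000 100000 0 100000 0 0 0 0) (.E 1)) (.E 0)

lemma n18_19_11_1_1 {n : ℕ} (hn : 6 ≤ n) : NoNd ((18 : ℕ) : ℤ) ((19 : ℕ) : ℤ) n 11 1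
    (BlkD.inB (fun _ => 0)
      (fun _ => 19)) :=
  BlkD.part_sound (d := d18_19_11_1) dk18_19_11_1 hn (by decide) (tr := t18_19_11_1_1)
    (by decide +kernel) rfl rfl rfl rfl

lemma pr18_19_11_1 {n : ℕ} (hn : 6 ≤ n) : NoPr ((18 : ℕ) : ℤ) ((19 : ℕ) : ℤ) n 11 1 :=
  BlkD.of_root (q := 4) (by decide) hn (n18_19_11_1_1 hn)

/-- the numbers of the pair `(12, 0)`, `R = 18`, `H = 19` -/
def d18_19_12_0 : BlkD.Pd :=
  ⟨18, 19, 4, 12, 0, 4, 0, 1, 0, 4, 4, 0, 0, 4, 4, 0, [0, 4, 8, 12, 16], [0, 4, 8, 12, 16], [⟨1, 1,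
    1, 4, 8, [0, 4], [0, 4]⟩]⟩

lemma dk18_19_12_0 : BlkD.pairOk d18_19_12_0 = true := by decide +kernel

/-- the certificates of the part 1 of the pair `(12, 0)` -/
def t18_19_12_0_1 : BlkD.Tr :=
  .S 0 12 (.S 2 0 (.L 3 3 [4] [] [] 100000 0 0 1300000 100000 0 100000 0 0 0 0) (.E 1)) (.E 0)

lemma n18_19_12_0_1 {n : ℕ} (hn : 6 ≤ n) : NoNd ((18 : ℕ) : ℤ) ((19 : ℕ) : ℤ) n 12 0
    (BlkD.inB (fun _ => 0)
      (fun _ => 19)) :=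
  BlkD.part_sound (d := d18_19_12_0) dk18_19_12_0 hn (by decide) (tr := t18_19_12_0_1)
    (by decide +kernel) rfl rfl rfl rfl

lemma pr18_19_12_0 {n : ℕ} (hn : 6 ≤ n) : NoPr ((18 : ℕ) : ℤ) ((19 : ℕ) : ℤ) n 12 0 :=
  BlkD.of_root (q := 4) (by decide) hn (n18_19_12_0_1 hn)

end BlkC

end Pool.Agent.Lib.MP_f04ccf_co
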