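import Pool.Agent.Lib.MP_f04ccf_co.M.BlkTp

/-!
MP_f04ccf_co, block certificate, data `R = 18`, `H = 18`, part 1 (certificates: helper99, bd9.cpp).
-/

set_option autoImplicit false
set_option maxRecDepth 100000

namespace Pool.Agent.Lib.MP_f04ccf_co

namespace BlkC

/-- the numbers of the pair `(0, 0)`, `R = 18`, `H = 18` -/
def d18_18_0_0 : BlkD.Pd :=
  ⟨18, 18, 3, 0, 0, 15, 0, 1, 0, 4, 4, 0, 0, 4, 4, 0, [0, 4, 8, 12, 16, 20, 24, 28, 32, 36, 40, 44,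
    48, 52, 56, 60], [0, 4, 8, 12, 16, 20, 24, 28, 32, 36, 40, 44, 48, 52, 56, 60], [⟨1, 1, 1, 4,
    8, [0, 4], [0, 4]⟩]⟩

lemma dk18_18_0_0 : BlkD.pairOk d18_18_0_0 = true := by decide +kernel

/-- the certificates of the part 1 of the pair `(0, 0)` -/
def t18_18_0_0_1 : BlkD.Tr :=
  .S 0 0 (.S 2 0 (.L 3 3 [4] [] [] 100000 0 0 100000 0 0 100000 0 0 0 0) (.E 1)) (.E 0)

lemma n18_18_0_0_1 {n : ℕ} (hn : 5 ≤ n) : NoNd ((18 : ℕ) : ℤ) ((18 : ℕ) : ℤ) n 0 0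
    (BlkD.inB (fun _ => 0)
      (fun _ => 18)) :=
  BlkD.part_sound (d := d18_18_0_0) dk18_18_0_0 hn (by decide) (tr := t18_18_0_0_1)
    (by decide +kernel) rfl rfl rfl rfl

lemma pr18_18_0_0 {n : ℕ} (hn : 5 ≤ n) : NoPr ((18 : ℕ) : ℤ) ((18 : ℕ) : ℤ) n 0 0 :=
  BlkD.of_root (q := 3) (by decide) hn (n18_18_0_0_1 hn)

/-- the numbers of the pair `(1, 0)`, `R = 18`, `H = 18` -/
def d18_18_1_0 : BlkD.Pd :=
  ⟨18, 18, 3, 1, 0, 14, 0, 1, 0, 4, 4, 0, 0, 4, 4, 0, [0, 4, 8, 12, 16, 20, 24, 28, 32, 36, 40, 44,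
    48, 52, 56], [0, 4, 8, 12, 16, 20, 24, 28, 32, 36, 40, 44, 48, 52, 56], [⟨1, 1, 1, 4, 8, [0,
    4], [0, 4]⟩]⟩

lemma dk18_18_1_0 : BlkD.pairOk d18_18_1_0 = true := by decide +kernel

/-- the certificates of the part 1 of the pair `(1, 0)` -/
def t18_18_1_0_1 : BlkD.Tr :=
  .S 0 1 (.S 2 0 (.L 3 3 [4] [] [] 100000 0 0 200000 0 0 0 100000 0 0 0) (.E 1)) (.E 0)

lemma n18_18_1_0_1 {n : ℕ} (hn : 5 ≤ n) : NoNd ((18 : ℕ) : ℤ) ((18 : ℕ) : ℤ) n 1 0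
    (BlkD.inB (fun _ => 0)
      (fun _ => 18)) :=
  BlkD.part_sound (d := d18_18_1_0) dk18_18_1_0 hn (by decide) (tr := t18_18_1_0_1)
    (by decide +kernel) rfl rfl rfl rfl

lemma pr18_18_1_0 {n : ℕ} (hn : 5 ≤ n) : NoPr ((18 : ℕ) : ℤ) ((18 : ℕ) : ℤ) n 1 0 :=
  BlkD.of_root (q := 3) (by decide) hn (n18_18_1_0_1 hn)

/-- the numbers of the pair `(1, 1)`, `R = 18`, `H = 18` -/
def d18_18_1_1 : BlkD.Pd :=
  ⟨18, 18, 3, 1, 1, 13, 1, 1, 0, 4, 4, 0, 0, 4, 4, 0, [0, 4, 8, 12, 16, 20, 24, 28, 32, 36, 40, 44,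
    48, 52], [0, 4, 8, 12, 16, 20, 24, 28, 32, 36, 40, 44, 48, 52], [⟨1, 1, 1, 4, 8, [0, 4], [0,
    4]⟩, ⟨1, 1, 1, 4, 8, [0, 4], [0, 4]⟩]⟩

lemma dk18_18_1_1 : BlkD.pairOk d18_18_1_1 = true := by decide +kernel

/-- the certificates of the part 1 of the pair `(1, 1)` -/
def t18_18_1_1_1 : BlkD.Tr :=
  .S 0 1 (.S 2 1 (.L 3 3 [4, 4] [] [] 100000 0 0 400000 0 0 0 0 0 0 0) (.E 1)) (.E 0)

lemma n18_18_1_1_1 {n : ℕ} (hn : 5 ≤ n) : NoNd ((18 : ℕ) : ℤ) ((18 : ℕ) : ℤ) n 1 1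
    (BlkD.inB (fun _ => 0)
      (fun _ => 18)) :=
  BlkD.part_sound (d := d18_18_1_1) dk18_18_1_1 hn (by decide) (tr := t18_18_1_1_1)
    (by decide +kernel) rfl rfl rfl rfl

lemma pr18_18_1_1 {n : ℕ} (hn : 5 ≤ n) : NoPr ((18 : ℕ) : ℤ) ((18 : ℕ) : ℤ) n 1 1 :=
  BlkD.of_root (q := 3) (by decide) hn (n18_18_1_1_1 hn)

/-- the numbers of the pair `(2, 0)`, `R = 18`, `H = 18` -/
def d18_18_2_0 : BlkD.Pd :=
  ⟨18, 18, 3, 2, 0, 13, 0, 1, 0, 4, 4, 0, 0, 4, 4, 0, [0, 4, 8, 12, 16, 20, 24, 28, 32, 36, 40, 44,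
    48, 52], [0, 4, 8, 12, 16, 20, 24, 28, 32, 36, 40, 44, 48, 52], [⟨1, 1, 1, 4, 8, [0, 4], [0,
    4]⟩]⟩

lemma dk18_18_2_0 : BlkD.pairOk d18_18_2_0 = true := by decide +kernel

/-- the certificates of the part 1 of the pair `(2, 0)` -/
def t18_18_2_0_1 : BlkD.Tr :=
  .S 0 2 (.S 2 0 (.L 3 3 [4] [] [] 100000 0 0 300000 0 0 0 100000 0 0 0) (.E 1)) (.E 0)

lemma n18_18_2_0_1 {n : ℕ} (hn : 5 ≤ n) : NoNd ((18 : ℕ) : ℤ) ((18 : ℕ) : ℤ) n 2 0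
    (BlkD.inB (fun _ => 0)
      (fun _ => 18)) :=
  BlkD.part_sound (d := d18_18_2_0) dk18_18_2_0 hn (by decide) (tr := t18_18_2_0_1)
    (by decide +kernel) rfl rfl rfl rfl

lemma pr18_18_2_0 {n : ℕ} (hn : 5 ≤ n) : NoPr ((18 : ℕ) : ℤ) ((18 : ℕ) : ℤ) n 2 0 :=
  BlkD.of_root (q := 3) (by decide) hn (n18_18_2_0_1 hn)

/-- the numbers of the pair `(2, 1)`, `R = 18`, `H = 18` -/
def d18_18_2_1 : BlkD.Pd :=
  ⟨18, 18, 3, 2, 1, 12, 1, 1, 0, 4, 4, 0, 0, 4, 4, 0, [0, 4, 8, 12, 16, 20, 24, 28, 32, 36, 40, 44,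
    48], [0, 4, 8, 12, 16, 20, 24, 28, 32, 36, 40, 44, 48], [⟨1, 1, 1, 4, 8, [0, 4], [0, 4]⟩, ⟨1,
    1, 1, 4, 8, [0, 4], [0, 4]⟩]⟩

lemma dk18_18_2_1 : BlkD.pairOk d18_18_2_1 = true := by decide +kernel

/-- the certificates of the part 1 of the pair `(2, 1)` -/
def t18_18_2_1_1 : BlkD.Tr :=
  .S 0 2 (.S 2 1 (.L 3 4 [4, 4] [] [] 100000 0 0 500000 0 0 0 0 0 0 0) (.E 1)) (.E 0)

lemma n18_18_2_1_1 {n : ℕ} (hn : 5 ≤ n) : NoNd ((18 : ℕ) : ℤ) ((18 : ℕ) : ℤ) n 2 1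
    (BlkD.inB (fun _ => 0)
      (fun _ => 18)) :=
  BlkD.part_sound (d := d18_18_2_1) dk18_18_2_1 hn (by decide) (tr := t18_18_2_1_1)
    (by decide +kernel) rfl rfl rfl rfl

lemma pr18_18_2_1 {n : ℕ} (hn : 5 ≤ n) : NoPr ((18 : ℕ) : ℤ) ((18 : ℕ) : ℤ) n 2 1 :=
  BlkD.of_root (q := 3) (by decide) hn (n18_18_2_1_1 hn)

/-- the numbers of the pair `(2, 2)`, `R = 18`, `H = 18` -/
def d18_18_2_2 : BlkD.Pd :=
  ⟨18, 18, 3, 2, 2, 11, 2, 1, 0, 4, 6, 0, 0, 4, 6, 0, [0, 6, 12, 18, 24, 30, 36, 42, 44, 44, 44,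
    44], [0, 6, 12, 18, 24, 30, 36, 42, 44, 44, 44, 44], [⟨1, 1, 1, 4, 8, [0, 4], [0, 4]⟩, ⟨1, 1,
    1, 4, 8, [0, 4], [0, 4]⟩, ⟨1, 1, 1, 6, 12, [0, 6], [0, 6]⟩]⟩

lemma dk18_18_2_2 : BlkD.pairOk d18_18_2_2 = true := by decide +kernel

/-- the certificates of the part 1 of the pair `(2, 2)` -/
def t18_18_2_2_1 : BlkD.Tr :=
  .S 0 2 (.S 2 2 (.L 4 4 [4, 4, 4] [] [] 100000 0 0 600000 0 0 25000 25000 0 0 50000) (.E 1)) (.E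
    0)

lemma n18_18_2_2_1 {n : ℕ} (hn : 5 ≤ n) : NoNd ((18 : ℕ) : ℤ) ((18 : ℕ) : ℤ) n 2 2
    (BlkD.inB (fun _ => 0)
      (fun _ => 18)) :=
  BlkD.part_sound (d := d18_18_2_2) dk18_18_2_2 hn (by decide) (tr := t18_18_2_2_1)
    (by decide +kernel) rfl rfl rfl rfl

lemma pr18_18_2_2 {n : ℕ} (hn : 5 ≤ n) : NoPr ((18 : ℕ) : ℤ) ((18 : ℕ) : ℤ) n 2 2 :=
  BlkD.of_root (q := 3) (by decide) hn (n18_18_2_2_1 hn)

/-- the numbers of the pair `(3, 0)`, `R = 18`, `H = 18` -/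
def d18_18_3_0 : BlkD.Pd :=
  ⟨18, 18, 3, 3, 0, 12, 0, 1, 0, 4, 4, 0, 0, 4, 4, 0, [0, 4, 8, 12, 16, 20, 24, 28, 32, 36, 40, 44,
    48], [0, 4, 8, 12, 16, 20, 24, 28, 32, 36, 40, 44, 48], [⟨1, 1, 1, 4, 8, [0, 4], [0, 4]⟩]⟩

lemma dk18_18_3_0 : BlkD.pairOk d18_18_3_0 = true := by decide +kernel

/-- the certificates of the part 1 of the pair `(3, 0)` -/
def t18_18_3_0_1 : BlkD.Tr :=
  .S 0 3 (.S 2 0 (.L 3 3 [4] [] [] 100000 0 0 425000 0 0 25000 75000 0 0 0) (.E 1)) (.E 0)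

lemma n18_18_3_0_1 {n : ℕ} (hn : 5 ≤ n) : NoNd ((18 : ℕ) : ℤ) ((18 : ℕ) : ℤ) n 3 0
    (BlkD.inB (fun _ => 0)
      (fun _ => 18)) :=
  BlkD.part_sound (d := d18_18_3_0) dk18_18_3_0 hn (by decide) (tr := t18_18_3_0_1)
    (by decide +kernel) rfl rfl rfl rfl

lemma pr18_18_3_0 {n : ℕ} (hn : 5 ≤ n) : NoPr ((18 : ℕ) : ℤ) ((18 : ℕ) : ℤ) n 3 0 :=
  BlkD.of_root (q := 3) (by decide) hn (n18_18_3_0_1 hn)

/-- the numbers of the pair `(3, 1)`, `R = 18`, `H = 18` -/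
def d18_18_3_1 : BlkD.Pd :=
  ⟨18, 18, 3, 3, 1, 11, 1, 1, 0, 4, 6, 0, 0, 4, 4, 0, [0, 6, 12, 18, 24, 30, 36, 42, 44, 44, 44,
    44], [0, 4, 8, 12, 16, 20, 24, 28, 32, 36, 40, 44], [⟨1, 1, 1, 4, 8, [0, 4], [0, 4]⟩, ⟨1, 1, 1,
    4, 10, [0, 6], [0, 4]⟩]⟩

lemma dk18_18_3_1 : BlkD.pairOk d18_18_3_1 = true := by decide +kernel

/-- the certificates of the part 1 of the pair `(3, 1)` -/
def t18_18_3_1_1 : BlkD.Tr :=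
  .S 0 3 (.S 2 1 (.L 3 4 [4, 4] [] [] 100000 0 0 600001 0 0 33333 0 0 0 0) (.E 1)) (.E 0)

lemma n18_18_3_1_1 {n : ℕ} (hn : 5 ≤ n) : NoNd ((18 : ℕ) : ℤ) ((18 : ℕ) : ℤ) n 3 1
    (BlkD.inB (fun _ => 0)
      (fun _ => 18)) :=
  BlkD.part_sound (d := d18_18_3_1) dk18_18_3_1 hn (by decide) (tr := t18_18_3_1_1)
    (by decide +kernel) rfl rfl rfl rfl

lemma pr18_18_3_1 {n : ℕ} (hn : 5 ≤ n) : NoPr ((18 : ℕ) : ℤ) ((18 : ℕ) : ℤ) n 3 1 :=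
  BlkD.of_root (q := 3) (by decide) hn (n18_18_3_1_1 hn)

/-- the numbers of the pair `(3, 2)`, `R = 18`, `H = 18` -/
def d18_18_3_2 : BlkD.Pd :=
  ⟨18, 18, 3, 3, 2, 10, 2, 1, 0, 4, 6, 0, 0, 4, 6, 0, [0, 6, 12, 18, 24, 30, 36, 40, 40, 40, 40],
    [0, 6, 12, 18, 24, 30, 36, 40, 40, 40, 40], [⟨1, 1, 1, 4, 8, [0, 4], [0, 4]⟩, ⟨1, 1, 1, 4, 10,
    [0, 6], [0, 4]⟩, ⟨1, 1, 1, 6, 12, [0, 6], [0, 6]⟩]⟩

lemma dk18_18_3_2 : BlkD.pairOk d18_18_3_2 = true := by decide +kernel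

/-- the certificates of the part 1 of the pair `(3, 2)` -/
def t18_18_3_2_1 : BlkD.Tr :=
  .S 0 3 (.S 2 2 (.L 4 4 [4, 4, 4] [] [] 100000 0 0 700001 0 0 33333 25000 0 0 50000) (.E 1)) (.E
    0)

lemma n18_18_3_2_1 {n : ℕ} (hn : 5 ≤ n) : NoNd ((18 : ℕ) : ℤ) ((18 : ℕ) : ℤ) n 3 2
    (BlkD.inB (fun _ => 0)
      (fun _ => 18)) :=
  BlkD.part_sound (d := d18_18_3_2) dk18_18_3_2 hn (by decide) (tr := t18_18_3_2_1)
    (by decide +kernel) rfl rfl rfl rfl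

lemma pr18_18_3_2 {n : ℕ} (hn : 5 ≤ n) : NoPr ((18 : ℕ) : ℤ) ((18 : ℕ) : ℤ) n 3 2 :=
  BlkD.of_root (q := 3) (by decide) hn (n18_18_3_2_1 hn)

/-- the numbers of the pair `(3, 3)`, `R = 18`, `H = 18` -/
def d18_18_3_3 : BlkD.Pd :=
  ⟨18, 18, 3, 3, 3, 9, 3, 1, 4, 1, 8, 0, 4, 1, 8, 0, [0, 8, 16, 21, 25, 29, 33, 37, 41, 45], [0, 8,
    16, 21, 25, 29, 33, 37, 41, 45], [⟨1, 1, 1, 4, 8, [0, 4], [0, 4]⟩, ⟨1, 1, 1, 6, 12, [0, 6], [0,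
    6]⟩, ⟨1, 1, 1, 6, 12, [0, 6], [0, 6]⟩, ⟨1, 1, 1, 8, 16, [0, 8], [0, 8]⟩]⟩

lemma dk18_18_3_3 : BlkD.pairOk d18_18_3_3 = true := by decide +kernel

/-- the certificates of the part 1 of the pair `(3, 3)` -/
def t18_18_3_3_1 : BlkD.Tr :=
  .S 0 3 (.S 2 3 (.S 0 1 (.S 0 0 (.L 4 4 [4, 4, 4, 5] [] [] 100000 44444 44444 500000 0 0 100000 0
    0 0 16667) (.S 1 17 (.S 1 8 (.S 1 4 (.S 1 2 (.L 4 4 [4, 4, 4, 5] [] [] 100000 20928 20928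
    708931 2538 0 17105 85996 14004 23214 28571) (.S 1 3 (.L 4 4 [4, 4, 4, 5] [36, 28, 20, 12, 0,
    0] [] 100000 15084 15083 784811 5063 0 30063 50000 27532 27215 27532) (.L 4 4 [4, 4, 4, 5] [49,
    44, 36, 28, 20, 0] [] 100000 23809 23807 742861 0 0 78571 50000 21429 21429 21429))) (.E 0))
    (.E 0)) (.E 0))) (.L 4 4 [4, 4, 4, 5] [] [] 100000 14352 14352 800001 0 0 33333 50000 29861
    27083 29861)) (.E 1)) (.E 0)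

lemma n18_18_3_3_1 {n : ℕ} (hn : 5 ≤ n) : NoNd ((18 : ℕ) : ℤ) ((18 : ℕ) : ℤ) n 3 3
    (BlkD.inB (fun _ => 0)
      (fun _ => 18)) :=
  BlkD.part_sound (d := d18_18_3_3) dk18_18_3_3 hn (by decide) (tr := t18_18_3_3_1)
    (by decide +kernel) rfl rfl rfl rfl

lemma pr18_18_3_3 {n : ℕ} (hn : 5 ≤ n) : NoPr ((18 : ℕ) : ℤ) ((18 : ℕ) : ℤ) n 3 3 :=
  BlkD.of_root (q := 3) (by decide) hn (n18_18_3_3_1 hn)

/-- the numbers of the pair `(4, 0)`, `R = 18`, `H = 18` -/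
def d18_18_4_0 : BlkD.Pd :=
  ⟨18, 18, 3, 4, 0, 11, 0, 1, 0, 4, 4, 0, 0, 4, 4, 0, [0, 4, 8, 12, 16, 20, 24, 28, 32, 36, 40,
    44], [0, 4, 8, 12, 16, 20, 24, 28, 32, 36, 40, 44], [⟨1, 1, 1, 4, 8, [0, 4], [0, 4]⟩]⟩

lemma dk18_18_4_0 : BlkD.pairOk d18_18_4_0 = true := by decide +kernel

/-- the certificates of the part 1 of the pair `(4, 0)` -/
def t18_18_4_0_1 : BlkD.Tr :=
  .S 0 4 (.S 2 0 (.L 3 3 [4] [] [] 100000 0 0 520000 20000 0 40000 60000 0 0 0) (.E 1)) (.E 0)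

lemma n18_18_4_0_1 {n : ℕ} (hn : 5 ≤ n) : NoNd ((18 : ℕ) : ℤ) ((18 : ℕ) : ℤ) n 4 0
    (BlkD.inB (fun _ => 0)
      (fun _ => 18)) :=
  BlkD.part_sound (d := d18_18_4_0) dk18_18_4_0 hn (by decide) (tr := t18_18_4_0_1)
    (by decide +kernel) rfl rfl rfl rfl

lemma pr18_18_4_0 {n : ℕ} (hn : 5 ≤ n) : NoPr ((18 : ℕ) : ℤ) ((18 : ℕ) : ℤ) n 4 0 :=
  BlkD.of_root (q := 3) (by decide) hn (n18_18_4_0_1 hn)

/-- the numbers of the pair `(4, 1)`, `R = 18`, `H = 18` -/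
def d18_18_4_1 : BlkD.Pd :=
  ⟨18, 18, 3, 4, 1, 10, 1, 1, 0, 4, 6, 0, 0, 4, 4, 0, [0, 6, 12, 18, 24, 30, 36, 40, 40, 40, 40],
    [0, 4, 8, 12, 16, 20, 24, 28, 32, 36, 40], [⟨1, 1, 1, 4, 8, [0, 4], [0, 4]⟩, ⟨1, 1, 1, 4, 10,
    [0, 6], [0, 4]⟩]⟩

lemma dk18_18_4_1 : BlkD.pairOk d18_18_4_1 = true := by decide +kernel

/-- the certificates of the part 1 of the pair `(4, 1)` -/
def t18_18_4_1_1 : BlkD.Tr :=
  .S 0 4 (.S 2 1 (.L 3 4 [4, 4] [] [] 100000 0 0 683333 16667 0 50000 0 0 0 0) (.E 1)) (.E 0)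

lemma n18_18_4_1_1 {n : ℕ} (hn : 5 ≤ n) : NoNd ((18 : ℕ) : ℤ) ((18 : ℕ) : ℤ) n 4 1
    (BlkD.inB (fun _ => 0)
      (fun _ => 18)) :=
  BlkD.part_sound (d := d18_18_4_1) dk18_18_4_1 hn (by decide) (tr := t18_18_4_1_1)
    (by decide +kernel) rfl rfl rfl rfl

lemma pr18_18_4_1 {n : ℕ} (hn : 5 ≤ n) : NoPr ((18 : ℕ) : ℤ) ((18 : ℕ) : ℤ) n 4 1 :=
  BlkD.of_root (q := 3) (by decide) hn (n18_18_4_1_1 hn)

/-- the numbers of the pair `(4, 2)`, `R = 18`, `H = 18` -/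
def d18_18_4_2 : BlkD.Pd :=
  ⟨18, 18, 3, 4, 2, 9, 2, 1, 2, 2, 8, 0, 0, 4, 6, 0, [0, 8, 16, 24, 26, 28, 30, 32, 34, 36], [0, 6,
    12, 18, 24, 30, 36, 36, 36, 36], [⟨1, 1, 1, 4, 8, [0, 4], [0, 4]⟩, ⟨1, 1, 1, 4, 10, [0, 6], [0,
    4]⟩, ⟨1, 1, 1, 6, 14, [0, 8], [0, 6]⟩]⟩

lemma dk18_18_4_2 : BlkD.pairOk d18_18_4_2 = true := by decide +kernel

/-- the certificates of the part 1 of the pair `(4, 2)` -/
def t18_18_4_2_1 : BlkD.Tr :=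
  .S 0 4 (.S 2 2 (.L 4 5 [4, 4, 4] [] [] 100000 1472 1 786757 13246 0 73507 25000 17973 0 38806)
    (.E 1)) (.E 0)

lemma n18_18_4_2_1 {n : ℕ} (hn : 5 ≤ n) : NoNd ((18 : ℕ) : ℤ) ((18 : ℕ) : ℤ) n 4 2
    (BlkD.inB (fun _ => 0)
      (fun _ => 18)) :=
  BlkD.part_sound (d := d18_18_4_2) dk18_18_4_2 hn (by decide) (tr := t18_18_4_2_1)
    (by decide +kernel) rfl rfl rfl rfl

lemma pr18_18_4_2 {n : ℕ} (hn : 5 ≤ n) : NoPr ((18 : ℕ) : ℤ) ((18 : ℕ) : ℤ) n 4 2 :=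
  BlkD.of_root (q := 3) (by decide) hn (n18_18_4_2_1 hn)

/-- the numbers of the pair `(4, 3)`, `R = 18`, `H = 18` -/
def d18_18_4_3 : BlkD.Pd :=
  ⟨18, 18, 3, 4, 3, 8, 3, 1, 2, 2, 8, 0, 4, 1, 8, 0, [0, 8, 16, 22, 24, 26, 28, 30, 32], [0, 8, 16,
    20, 24, 28, 32, 36, 40], [⟨1, 1, 1, 4, 8, [0, 4], [0, 4]⟩, ⟨1, 1, 1, 6, 12, [0, 6], [0, 6]⟩,
    ⟨1, 1, 1, 6, 14, [0, 8], [0, 6]⟩, ⟨1, 1, 1, 6, 16, [0, 8], [0, 8]⟩]⟩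

lemma dk18_18_4_3 : BlkD.pairOk d18_18_4_3 = true := by decide +kernel

/-- the certificates of the part 1 of the pair `(4, 3)` -/
def t18_18_4_3_1 : BlkD.Tr :=
  .S 0 4 (.S 2 3 (.L 4 5 [4, 4, 4, 5] [] [] 100000 17869 17868 897424 2577 0 94845 76289 21714
    24678 20619) (.E 1)) (.E 0)

lemma n18_18_4_3_1 {n : ℕ} (hn : 5 ≤ n) : NoNd ((18 : ℕ) : ℤ) ((18 : ℕ) : ℤ) n 4 3
    (BlkD.inB (fun _ => 0)
      (fun _ => 18)) :=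
  BlkD.part_sound (d := d18_18_4_3) dk18_18_4_3 hn (by decide) (tr := t18_18_4_3_1)
    (by decide +kernel) rfl rfl rfl rfl

lemma pr18_18_4_3 {n : ℕ} (hn : 5 ≤ n) : NoPr ((18 : ℕ) : ℤ) ((18 : ℕ) : ℤ) n 4 3 :=
  BlkD.of_root (q := 3) (by decide) hn (n18_18_4_3_1 hn)

/-- the numbers of the pair `(5, 0)`, `R = 18`, `H = 18` -/
def d18_18_5_0 : BlkD.Pd :=
  ⟨18, 18, 3, 5, 0, 10, 0, 1, 0, 4, 4, 0, 0, 4, 4, 0, [0, 4, 8, 12, 16, 20, 24, 28, 32, 36, 40],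
    [0, 4, 8, 12, 16, 20, 24, 28, 32, 36, 40], [⟨1, 1, 1, 4, 8, [0, 4], [0, 4]⟩]⟩

lemma dk18_18_5_0 : BlkD.pairOk d18_18_5_0 = true := by decide +kernel

/-- the certificates of the part 1 of the pair `(5, 0)` -/
def t18_18_5_0_1 : BlkD.Tr :=
  .S 0 5 (.S 2 0 (.L 8 8 [4] [] [] 100000 0 0 666668 33333 0 50000 0 0 0 0) (.E 1)) (.E 0)

lemma n18_18_5_0_1 {n : ℕ} (hn : 5 ≤ n) : NoNd ((18 : ℕ) : ℤ) ((18 : ℕ) : ℤ) n 5 0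
    (BlkD.inB (fun _ => 0)
      (fun _ => 18)) :=
  BlkD.part_sound (d := d18_18_5_0) dk18_18_5_0 hn (by decide) (tr := t18_18_5_0_1)
    (by decide +kernel) rfl rfl rfl rfl

lemma pr18_18_5_0 {n : ℕ} (hn : 5 ≤ n) : NoPr ((18 : ℕ) : ℤ) ((18 : ℕ) : ℤ) n 5 0 :=
  BlkD.of_root (q := 3) (by decide) hn (n18_18_5_0_1 hn)

/-- the numbers of the pair `(5, 1)`, `R = 18`, `H = 18` -/
def d18_18_5_1 : BlkD.Pd :=
  ⟨18, 18, 3, 5, 1, 9, 1, 1, 2, 2, 6, 0, 0, 4, 4, 0, [0, 6, 12, 18, 24, 28, 30, 32, 34, 36], [0, 4,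
    8, 12, 16, 20, 24, 28, 32, 36], [⟨1, 1, 1, 4, 8, [0, 4], [0, 4]⟩, ⟨1, 1, 1, 4, 10, [0, 6], [0,
    4]⟩]⟩

lemma dk18_18_5_1 : BlkD.pairOk d18_18_5_1 = true := by decide +kernel

/-- the certificates of the part 1 of the pair `(5, 1)` -/
def t18_18_5_1_1 : BlkD.Tr :=
  .S 0 5 (.S 2 1 (.L 8 8 [4, 4] [] [] 100000 0 0 800001 28571 0 42857 0 0 0 0) (.E 1)) (.E 0)

lemma n18_18_5_1_1 {n : ℕ} (hn : 5 ≤ n) : NoNd ((18 : ℕ) : ℤ) ((18 : ℕ) : ℤ) n 5 1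
    (BlkD.inB (fun _ => 0)
      (fun _ => 18)) :=
  BlkD.part_sound (d := d18_18_5_1) dk18_18_5_1 hn (by decide) (tr := t18_18_5_1_1)
    (by decide +kernel) rfl rfl rfl rfl

lemma pr18_18_5_1 {n : ℕ} (hn : 5 ≤ n) : NoPr ((18 : ℕ) : ℤ) ((18 : ℕ) : ℤ) n 5 1 :=
  BlkD.of_root (q := 3) (by decide) hn (n18_18_5_1_1 hn)

/-- the numbers of the pair `(5, 2)`, `R = 18`, `H = 18` -/
def d18_18_5_2 : BlkD.Pd :=
  ⟨18, 18, 3, 5, 2, 8, 2, 1, 2, 2, 8, 0, 3, 1, 6, 0, [0, 8, 16, 22, 24, 26, 28, 30, 32], [0, 6, 12,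
    17, 20, 23, 26, 29, 32], [⟨1, 1, 1, 4, 8, [0, 4], [0, 4]⟩, ⟨1, 1, 1, 4, 10, [0, 6], [0, 4]⟩,
    ⟨1, 1, 1, 6, 14, [0, 8], [0, 6]⟩]⟩

lemma dk18_18_5_2 : BlkD.pairOk d18_18_5_2 = true := by decide +kernel

/-- the certificates of the part 1 of the pair `(5, 2)` -/
def t18_18_5_2_1 : BlkD.Tr :=
  .S 0 5 (.S 2 2 (.L 8 8 [4, 4, 4] [] [] 100000 1 0 949400 12651 0 68675 37952 18675 27108 27108)
    (.E 1)) (.E 0)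

lemma n18_18_5_2_1 {n : ℕ} (hn : 5 ≤ n) : NoNd ((18 : ℕ) : ℤ) ((18 : ℕ) : ℤ) n 5 2
    (BlkD.inB (fun _ => 0)
      (fun _ => 18)) :=
  BlkD.part_sound (d := d18_18_5_2) dk18_18_5_2 hn (by decide) (tr := t18_18_5_2_1)
    (by decide +kernel) rfl rfl rfl rfl

lemma pr18_18_5_2 {n : ℕ} (hn : 5 ≤ n) : NoPr ((18 : ℕ) : ℤ) ((18 : ℕ) : ℤ) n 5 2 :=
  BlkD.of_root (q := 3) (by decide) hn (n18_18_5_2_1 hn)

/-- the numbers of the pair `(5, 3)`, `R = 18`, `H = 18` -/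
def d18_18_5_3 : BlkD.Pd :=
  ⟨18, 18, 3, 5, 3, 7, 3, 2, 1, 3, 10, 0, 4, 1, 8, 0, [0, 10, 20, 24, 25, 26, 27, 28], [0, 8, 15,
    19, 23, 27, 31, 35], [⟨1, 1, 1, 4, 8, [0, 4], [0, 4]⟩, ⟨1, 1, 1, 6, 12, [0, 6], [0, 6]⟩, ⟨1, 1,
    1, 6, 14, [0, 8], [0, 6]⟩, ⟨2, 1, 1, 6, 22, [0, 10, 14], [0, 8]⟩]⟩

lemma dk18_18_5_3 : BlkD.pairOk d18_18_5_3 = true := by decide +kernel

/-- the certificates of the part 1 of the pair `(5, 3)` -/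
def t18_18_5_3_1 : BlkD.Tr :=
  .S 0 1 (.L 8 8 [4, 5, 4, 3] [] [] 100000 72222 72221 743333 80000 0 80000 56667 0 3333 20000) (.S
    1 16 (.S 1 8 (.S 1 4 (.L 8 8 [4, 5, 4, 3] [] [] 100000 25253 25253 969696 18182 0 36364 57576 0
    24242 27273) (.S 1 6 (.S 1 5 (.L 4 5 [4, 4, 4, 5] [78, 74, 70, 60, 50, 40] [] 100000 29630
    29630 975001 25000 0 58333 33333 0 22222 22222) (.L 4 5 [4, 4, 4, 5] [93, 92, 88, 84, 74, 64]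
    [] 100000 34435 34435 938845 30785 0 69008 34504 7645 12190 19215)) (.L 4 5 [4, 4, 4, 5] [] []
    100000 35833 11665 784168 0 0 124167 43333 15833 16667 20000))) (.E 0)) (.E 0))

lemma n18_18_5_3_1 {n : ℕ} (hn : 5 ≤ n) : NoNd ((18 : ℕ) : ℤ) ((18 : ℕ) : ℤ) n 5 3
    (BlkD.inB (fun _ => 0)
      (BlkD.upd (BlkD.upd (BlkD.upd (fun _ => 18) 0 5) 2 3) 0 2)) :=
  BlkD.part_sound (d := d18_18_5_3) dk18_18_5_3 hn (by decide) (tr := t18_18_5_3_1)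
    (by decide +kernel) rfl rfl rfl rfl

/-- the certificates of the part 2 of the pair `(5, 3)` -/
def t18_18_5_3_2 : BlkD.Tr :=
  .S 0 3 (.S 1 15 (.S 1 7 (.S 1 3 (.L 4 5 [4, 4, 4, 5] [] [] 100000 22154 22154 980661 13786 0
    42593 77984 11523 22016 29835) (.S 1 5 (.S 1 4 (.S 2 1 (.S 2 0 (.L 4 5 [4, 4, 4, 5] [70, 66,
    56, 46, 36, 0] [] 100000 47619 47619 750000 0 0 50000 100000 0 0 14286) (.S 3 10 (.S 3 5 (.S 3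
    2 (.L 4 5 [4, 4, 4, 5] [70, 66, 56, 46, 36, 0] [] 100000 23889 23889 958338 5000 31667 58333
    53333 11667 16667 25000) (.S 3 4 (.S 3 3 (.L 4 5 [4, 4, 4, 5] [70, 66, 56, 46, 36, 0] [37, 30,
    22, 12, 0, 0] 100000 21934 21933 1004147 9585 19171 49352 33549 9197 25000 25000) (.L 4 5 [4,
    4, 4, 5] [70, 66, 56, 46, 36, 0] [49, 45, 38, 30, 20, 0] 100000 20000 20000 984000 0 0 72000
    72000 18000 34000 22000)) (.E 1))) (.E 1)) (.E 1))) (.S 2 2 (.S 3 9 (.S 3 4 (.S 3 2 (.L 4 5 [4,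
    4, 4, 5] [70, 66, 56, 46, 36, 0] [] 100000 21667 21667 1000000 25000 0 50000 25000 10000 25000
    25000) (.L 4 5 [4, 4, 4, 5] [70, 66, 56, 46, 36, 0] [] 100000 20000 20000 984000 0 0 72000
    72000 18000 34000 22000)) (.E 1)) (.E 1)) (.L 4 5 [4, 4, 4, 5] [70, 66, 56, 46, 36, 0] []
    100000 13889 13888 1008332 22917 0 66667 0 27083 50000 31250))) (.L 4 5 [4, 4, 4, 5] [88, 84,
    80, 70, 60, 50] [] 100000 15432 15432 977780 0 0 74074 48148 37037 16667 25000)) (.E 0))) (.E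
    0)) (.E 0)) (.L 4 5 [4, 4, 4, 5] [] [] 100000 18110 18109 1019686 0 0 80315 40157 19685 25984
    26772)

lemma n18_18_5_3_2 {n : ℕ} (hn : 5 ≤ n) : NoNd ((18 : ℕ) : ℤ) ((18 : ℕ) : ℤ) n 5 3
    (BlkD.inB (BlkD.upd (fun _ => 0) 0 3)
      (BlkD.upd (BlkD.upd (BlkD.upd (fun _ => 18) 0 5) 2 3) 0 4)) :=
  BlkD.part_sound (d := d18_18_5_3) dk18_18_5_3 hn (by decide) (tr := t18_18_5_3_2)
    (by decide +kernel) rfl rfl rfl rfl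

/-- the certificates of the part 3 of the pair `(5, 3)` -/
def t18_18_5_3_3 : BlkD.Tr :=
  .L 4 5 [4, 4, 4, 5] [] [] 100000 5883 5883 1000000 0 0 58824 41176 58824 23529 29412

lemma n18_18_5_3_3 {n : ℕ} (hn : 5 ≤ n) : NoNd ((18 : ℕ) : ℤ) ((18 : ℕ) : ℤ) n 5 3
    (BlkD.inB (BlkD.upd (BlkD.upd (fun _ => 0) 0 3) 0 5)
      (BlkD.upd (BlkD.upd (fun _ => 18) 0 5) 2 3)) :=
  BlkD.part_sound (d := d18_18_5_3) dk18_18_5_3 hn (by decide) (tr := t18_18_5_3_3)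
    (by decide +kernel) rfl rfl rfl rfl

/-- the certificates of the part 4 of the pair `(5, 3)` -/
def t18_18_5_3_4 : BlkD.Tr :=
  .E 1

lemma n18_18_5_3_4 {n : ℕ} (hn : 5 ≤ n) : NoNd ((18 : ℕ) : ℤ) ((18 : ℕ) : ℤ) n 5 3
    (BlkD.inB (BlkD.upd (fun _ => 0) 2 4)
      (BlkD.upd (fun _ => 18) 0 5)) :=
  BlkD.part_sound (d := d18_18_5_3) dk18_18_5_3 hn (by decide) (tr := t18_18_5_3_4)
    (by decide +kernel) rfl rfl rfl rfl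

/-- the certificates of the part 5 of the pair `(5, 3)` -/
def t18_18_5_3_5 : BlkD.Tr :=
  .E 0

lemma n18_18_5_3_5 {n : ℕ} (hn : 5 ≤ n) : NoNd ((18 : ℕ) : ℤ) ((18 : ℕ) : ℤ) n 5 3
    (BlkD.inB (BlkD.upd (fun _ => 0) 0 6)
      (fun _ => 18)) :=
  BlkD.part_sound (d := d18_18_5_3) dk18_18_5_3 hn (by decide) (tr := t18_18_5_3_5)
    (by decide +kernel) rfl rfl rfl rfl

lemma pr18_18_5_3 {n : ℕ} (hn : 5 ≤ n) : NoPr ((18 : ℕ) : ℤ) ((18 : ℕ) : ℤ) n 5 3 :=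
  BlkD.of_root (q := 3) (by decide) hn (BlkD.sp 0 5 (BlkD.sp 2 3 (BlkD.sp 0 2 (n18_18_5_3_1 hn)
    (BlkD.sp 0 4 (n18_18_5_3_2 hn)
    (n18_18_5_3_3 hn)))
    (n18_18_5_3_4 hn))
    (n18_18_5_3_5 hn))

/-- the numbers of the pair `(5, 4)`, `R = 18`, `H = 18` -/
def d18_18_5_4 : BlkD.Pd :=
  ⟨18, 18, 3, 5, 4, 6, 3, 2, 1, 3, 10, 0, 2, 2, 8, 0, [0, 10, 20, 21, 22, 23, 24], [0, 8, 16, 18,
    20, 22, 24], [⟨1, 1, 1, 4, 8, [0, 4], [0, 4]⟩, ⟨1, 1, 1, 4, 12, [0, 6], [0, 6]⟩, ⟨1, 1, 1, 4,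
    16, [0, 8], [0, 8]⟩, ⟨2, 1, 1, 4, 22, [0, 10, 14], [0, 8]⟩]⟩

lemma dk18_18_5_4 : BlkD.pairOk d18_18_5_4 = true := by decide +kernel

/-- the certificates of the part 1 of the pair `(5, 4)` -/
def t18_18_5_4_1 : BlkD.Tr :=
  .S 0 1 (.L 5 5 [4, 4, 4, 5, 18] [] [] 100000 100000 100000 800000 100000 0 100000 100000 0 0 0)
    (.S 1 16 (.S 1 8 (.S 1 4 (.S 1 2 (.L 5 5 [4, 4, 4, 5, 18] [] [] 100000 30000 29999 1000000 0 0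
    0 50000 0 13333 13333) (.S 1 3 (.L 5 5 [4, 4, 4, 5, 18] [48, 38, 28, 18, 0, 0] [] 100000 25124
    25123 1073135 8955 8955 13433 50000 0 24627 37313) (.S 2 2 (.S 2 1 (.L 5 5 [4, 4, 4, 5, 18]
    [66, 58, 48, 38, 28, 0] [] 100000 61111 61111 933334 33333 50000 66667 83333 0 0 16667) (.L 5 5
    [4, 4, 4, 5, 18] [66, 58, 48, 38, 28, 0] [] 100000 25563 25562 1119828 20044 0 59695 40087 3922
    19390 19826)) (.L 5 5 [4, 4, 4, 5, 18] [66, 58, 48, 38, 28, 0] [] 100000 33333 33332 1050000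
    25000 0 75000 50000 0 25000 25000)))) (.S 1 6 (.S 1 5 (.S 2 2 (.S 2 1 (.L 5 5 [4, 4, 4, 5, 18]
    [79, 78, 70, 60, 50, 40] [] 100000 53763 53763 993550 29032 45161 64516 54839 0 6452 17742) (.S
    3 9 (.S 3 4 (.S 3 2 (.L 5 5 [4, 4, 4, 5, 18] [79, 78, 70, 60, 50, 40] [] 100000 31494 31493
    1059383 14570 14349 42163 20088 2649 2870 27594) (.S 3 3 (.L 3 3 [4, 5, 7, 8, 18] [79, 78, 70,
    60, 50, 40] [44, 36, 28, 18, 0, 0] 100000 66432 66432 997153 33068 23525 82965 70576 569 12890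
    33500) (.L 3 3 [4, 5, 7, 8, 18] [79, 78, 70, 60, 50, 40] [62, 54, 46, 38, 28, 0] 100000 54688
    54688 1015625 46875 0 71875 50000 0 50000 26562))) (.L 3 3 [4, 5, 7, 8, 18] [79, 78, 70, 60,
    50, 40] [] 100000 44444 44443 966667 11111 0 100000 100000 0 0 5556)) (.E 1))) (.L 3 3 [4, 5,
    7, 8, 18] [79, 78, 70, 60, 50, 40] [] 100000 51852 51852 1033335 33333 0 83333 50000 0 11111
    33333)) (.L 3 3 [4, 5, 7, 8, 18] [94, 93, 92, 84, 74, 64] [] 100000 33334 33334 1090909 27273 0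
    68182 72727 13636 9091 40909)) (.L 3 3 [4, 5, 7, 8, 18] [] [] 100000 27778 27778 1100002 0 0
    100000 83333 0 16667 16667))) (.E 0)) (.E 0))

lemma n18_18_5_4_1 {n : ℕ} (hn : 5 ≤ n) : NoNd ((18 : ℕ) : ℤ) ((18 : ℕ) : ℤ) n 5 4
    (BlkD.inB (fun _ => 0)
      (BlkD.upd (BlkD.upd (BlkD.upd (fun _ => 18) 0 5) 2 4) 0 2)) :=
  BlkD.part_sound (d := d18_18_5_4) dk18_18_5_4 hn (by decide) (tr := t18_18_5_4_1)
    (by decide +kernel) rfl rfl rfl rfl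

/-- the certificates of the part 2 of the pair `(5, 4)` -/
def t18_18_5_4_2 : BlkD.Tr :=
  .S 0 4 (.S 0 3 (.S 1 15 (.S 1 7 (.S 1 3 (.S 1 1 (.L 3 3 [4, 5, 7, 8, 18] [] [] 100000 30000 29999
    1000000 0 0 0 50000 0 13333 13333) (.S 1 2 (.L 3 3 [4, 5, 7, 8, 18] [34, 24, 14, 0, 0, 0] []
    100000 22222 22221 1100000 0 0 0 66667 0 33333 33333) (.S 2 2 (.S 2 1 (.L 3 3 [4, 5, 7, 8, 18]
    [54, 44, 34, 24, 0, 0] [] 100000 73333 73332 920000 20000 80000 80000 80000 0 0 20000) (.S 3 10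
    (.S 3 5 (.S 3 2 (.L 3 3 [4, 5, 7, 8, 18] [54, 44, 34, 24, 0, 0] [] 100000 33333 33332 1000000 0
    0 0 0 0 0 16667) (.L 5 5 [4, 4, 4, 5, 18] [54, 44, 34, 24, 0, 0] [] 100000 16846 16845 1141936
    19355 0 61290 66667 16129 33333 41935)) (.E 1)) (.E 1))) (.L 5 5 [4, 4, 4, 5, 18] [54, 44, 34,
    24, 0, 0] [] 100000 22222 22221 1100000 22222 0 55556 38889 8333 25000 22222)))) (.S 1 5 (.S 1
    4 (.S 2 2 (.S 2 1 (.L 5 5 [4, 4, 4, 5, 18] [74, 66, 56, 46, 36, 0] [] 100000 42858 42858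
    1004762 9524 61905 52381 80952 4762 0 23810) (.S 3 9 (.S 3 4 (.S 3 2 (.L 5 5 [4, 4, 4, 5, 18]
    [74, 66, 56, 46, 36, 0] [] 100000 29592 29592 1075714 15204 14694 40204 25408 6122 5102 25000)
    (.S 3 3 (.L 5 5 [4, 4, 4, 5, 18] [74, 66, 56, 46, 36, 0] [44, 36, 28, 18, 0, 0] 100000 19156
    19156 1127276 649 24026 50649 70779 13312 29221 36039) (.L 5 5 [4, 4, 4, 5, 18] [74, 66, 56,
    46, 36, 0] [62, 54, 46, 38, 28, 0] 100000 24243 24243 1118184 18182 18182 63636 54545 18182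
    45455 27273))) (.E 2)) (.E 1))) (.S 2 3 (.S 3 8 (.S 3 4 (.S 3 2 (.L 5 5 [4, 4, 4, 5, 18] [74,
    66, 56, 46, 36, 0] [] 100000 22917 22917 1125000 25000 0 50000 50000 12500 18750 25000) (.L 5 5
    [4, 4, 4, 5, 18] [74, 66, 56, 46, 36, 0] [] 100000 33333 33332 1000000 25000 0 75000 100000
    25000 0 25000)) (.E 1)) (.E 1)) (.L 5 5 [4, 4, 4, 5, 18] [74, 66, 56, 46, 36, 0] [] 100000 1667
    1667 1140000 15000 0 60000 45000 40000 55000 27500))) (.L 5 5 [4, 4, 4, 5, 18] [89, 88, 80, 70,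
    60, 50] [] 100000 20370 20369 1111113 0 0 88889 83333 22222 16667 11111)) (.E 0))) (.E 0)) (.E
    0)) (.L 5 5 [4, 4, 4, 5, 18] [] [] 100000 21142 21141 1119446 0 463 80556 98611 19907 16667
    15278)) (.L 5 5 [4, 4, 4, 5, 18] [] [] 100000 0 0 1138462 0 0 61538 76923 76923 23077 38462)

lemma n18_18_5_4_2 {n : ℕ} (hn : 5 ≤ n) : NoNd ((18 : ℕ) : ℤ) ((18 : ℕ) : ℤ) n 5 4
    (BlkD.inB (BlkD.upd (fun _ => 0) 0 3)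
      (BlkD.upd (BlkD.upd (fun _ => 18) 0 5) 2 4)) :=
  BlkD.part_sound (d := d18_18_5_4) dk18_18_5_4 hn (by decide) (tr := t18_18_5_4_2)
    (by decide +kernel) rfl rfl rfl rfl

/-- the certificates of the part 3 of the pair `(5, 4)` -/
def t18_18_5_4_3 : BlkD.Tr :=
  .E 1

lemma n18_18_5_4_3 {n : ℕ} (hn : 5 ≤ n) : NoNd ((18 : ℕ) : ℤ) ((18 : ℕ) : ℤ) n 5 4
    (BlkD.inB (BlkD.upd (fun _ => 0) 2 5)
      (BlkD.upd (fun _ => 18) 0 5)) :=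
  BlkD.part_sound (d := d18_18_5_4) dk18_18_5_4 hn (by decide) (tr := t18_18_5_4_3)
    (by decide +kernel) rfl rfl rfl rfl

/-- the certificates of the part 4 of the pair `(5, 4)` -/
def t18_18_5_4_4 : BlkD.Tr :=
  .E 0

lemma n18_18_5_4_4 {n : ℕ} (hn : 5 ≤ n) : NoNd ((18 : ℕ) : ℤ) ((18 : ℕ) : ℤ) n 5 4
    (BlkD.inB (BlkD.upd (fun _ => 0) 0 6)
      (fun _ => 18)) :=
  BlkD.part_sound (d := d18_18_5_4) dk18_18_5_4 hn (by decide) (tr := t18_18_5_4_4)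
    (by decide +kernel) rfl rfl rfl rfl

lemma pr18_18_5_4 {n : ℕ} (hn : 5 ≤ n) : NoPr ((18 : ℕ) : ℤ) ((18 : ℕ) : ℤ) n 5 4 :=
  BlkD.of_root (q := 3) (by decide) hn (BlkD.sp 0 5 (BlkD.sp 2 4 (BlkD.sp 0 2 (n18_18_5_4_1 hn)
    (n18_18_5_4_2 hn))
    (n18_18_5_4_3 hn))
    (n18_18_5_4_4 hn))

/-- the numbers of the pair `(5, 5)`, `R = 18`, `H = 18` -/
def d18_18_5_5 : BlkD.Pd :=
  ⟨18, 18, 3, 5, 5, 5, 2, 2, 2, 2, 8, 0, 2, 2, 8, 0, [0, 8, 14, 16, 18, 20], [0, 8, 14, 16, 18,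
    20], [⟨1, 1, 1, 4, 8, [0, 4], [0, 4]⟩, ⟨1, 1, 1, 4, 12, [0, 6], [0, 6]⟩, ⟨1, 1, 1, 4, 16, [0,
    8], [0, 8]⟩]⟩

lemma dk18_18_5_5 : BlkD.pairOk d18_18_5_5 = true := by decide +kernel

/-- the certificates of the part 1 of the pair `(5, 5)` -/
def t18_18_5_5_1 : BlkD.Tr :=
  .S 0 1 (.L 5 5 [4, 4, 4, 18, 18, 18] [] [] 100000 31251 31251 1133334 66667 0 66667 50000 0 4167
    33333) (.S 1 16 (.S 1 8 (.S 1 4 (.L 5 5 [4, 4, 4, 18, 18, 18] [] [] 100000 8334 8334 1275003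
    8333 8333 75000 75000 0 16667 33333) (.S 1 6 (.S 1 5 (.S 2 2 (.L 5 5 [4, 4, 4, 18, 18, 18] [78,
    76, 70, 62, 52, 40] [] 100000 40351 40351 1138014 31579 33918 68421 62573 585 6433 12281) (.L 5
    5 [4, 4, 4, 18, 18, 18] [78, 76, 70, 62, 52, 40] [] 100000 10892 10892 1261387 27723 0 55446
    55446 6931 8911 31188)) (.L 5 5 [4, 4, 4, 18, 18, 18] [94, 92, 90, 84, 76, 66] [] 100000 8334
    8334 1262499 29167 0 79167 50000 33333 0 25000)) (.L 5 5 [4, 4, 4, 18, 18, 18] [] [] 100000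
    75002 2 824999 16667 16667 175000 83333 0 0 0))) (.E 0)) (.E 0))

lemma n18_18_5_5_1 {n : ℕ} (hn : 5 ≤ n) : NoNd ((18 : ℕ) : ℤ) ((18 : ℕ) : ℤ) n 5 5
    (BlkD.inB (fun _ => 0)
      (BlkD.upd (BlkD.upd (BlkD.upd (fun _ => 18) 0 5) 2 5) 0 2)) :=
  BlkD.part_sound (d := d18_18_5_5) dk18_18_5_5 hn (by decide) (tr := t18_18_5_5_1)
    (by decide +kernel) rfl rfl rfl rfl

/-- the certificates of the part 2 of the pair `(5, 5)` -/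
def t18_18_5_5_2 : BlkD.Tr :=
  .S 0 4 (.S 0 3 (.S 1 15 (.S 1 7 (.S 1 3 (.L 5 5 [4, 4, 4, 18, 18, 18] [] [] 100000 6869 6869
    1278572 9707 9707 72894 72894 3480 16117 33333) (.S 1 5 (.S 1 4 (.S 2 2 (.L 5 5 [4, 4, 4, 18,
    18, 18] [72, 66, 58, 48, 36, 0] [] 100000 15615 15615 1195018 3322 47508 52492 73754 15282 997
    32226) (.S 2 4 (.L 5 5 [4, 4, 4, 18, 18, 18] [72, 66, 58, 48, 36, 0] [] 100000 876 876 1294685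
    14196 12133 50594 54722 24953 6629 33333) (.L 5 5 [4, 4, 4, 18, 18, 18] [72, 66, 58, 48, 36, 0]
    [] 100000 0 0 1217242 27586 0 62069 55172 13793 37931 24138))) (.L 5 5 [4, 4, 4, 18, 18, 18]
    [88, 86, 80, 72, 62, 50] [] 100000 1 1 1266666 26667 0 66667 53333 46667 0 26667)) (.E 0))) (.E
    0)) (.E 0)) (.L 5 5 [4, 4, 4, 18, 18, 18] [] [] 100000 0 0 1282599 378 16646 50189 56747 16520
    9962 36759)) (.L 5 5 [4, 4, 4, 18, 18, 18] [] [] 100000 0 0 1238890 0 20370 40741 57407 25926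
    9259 33333)

lemma n18_18_5_5_2 {n : ℕ} (hn : 5 ≤ n) : NoNd ((18 : ℕ) : ℤ) ((18 : ℕ) : ℤ) n 5 5
    (BlkD.inB (BlkD.upd (fun _ => 0) 0 3)
      (BlkD.upd (BlkD.upd (fun _ => 18) 0 5) 2 5)) :=
  BlkD.part_sound (d := d18_18_5_5) dk18_18_5_5 hn (by decide) (tr := t18_18_5_5_2)
    (by decide +kernel) rfl rfl rfl rfl

/-- the certificates of the part 3 of the pair `(5, 5)` -/
def t18_18_5_5_3 : BlkD.Tr :=
  .E 1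

lemma n18_18_5_5_3 {n : ℕ} (hn : 5 ≤ n) : NoNd ((18 : ℕ) : ℤ) ((18 : ℕ) : ℤ) n 5 5
    (BlkD.inB (BlkD.upd (fun _ => 0) 2 6)
      (BlkD.upd (fun _ => 18) 0 5)) :=
  BlkD.part_sound (d := d18_18_5_5) dk18_18_5_5 hn (by decide) (tr := t18_18_5_5_3)
    (by decide +kernel) rfl rfl rfl rfl

/-- the certificates of the part 4 of the pair `(5, 5)` -/
def t18_18_5_5_4 : BlkD.Tr :=
  .E 0

lemma n18_18_5_5_4 {n : ℕ} (hn : 5 ≤ n) : NoNd ((18 : ℕ) : ℤ) ((18 : ℕ) : ℤ) n 5 5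
    (BlkD.inB (BlkD.upd (fun _ => 0) 0 6)
      (fun _ => 18)) :=
  BlkD.part_sound (d := d18_18_5_5) dk18_18_5_5 hn (by decide) (tr := t18_18_5_5_4)
    (by decide +kernel) rfl rfl rfl rfl

lemma pr18_18_5_5 {n : ℕ} (hn : 5 ≤ n) : NoPr ((18 : ℕ) : ℤ) ((18 : ℕ) : ℤ) n 5 5 :=
  BlkD.of_root (q := 3) (by decide) hn (BlkD.sp 0 5 (BlkD.sp 2 5 (BlkD.sp 0 2 (n18_18_5_5_1 hn)
    (n18_18_5_5_2 hn))
    (n18_18_5_5_3 hn))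
    (n18_18_5_5_4 hn))

/-- the numbers of the pair `(6, 0)`, `R = 18`, `H = 18` -/
def d18_18_6_0 : BlkD.Pd :=
  ⟨18, 18, 3, 6, 0, 9, 0, 1, 0, 4, 4, 0, 0, 4, 4, 0, [0, 4, 8, 12, 16, 20, 24, 28, 32, 36], [0, 4,
    8, 12, 16, 20, 24, 28, 32, 36], [⟨1, 1, 1, 4, 8, [0, 4], [0, 4]⟩]⟩

lemma dk18_18_6_0 : BlkD.pairOk d18_18_6_0 = true := by decide +kernel

/-- the certificates of the part 1 of the pair `(6, 0)` -/
def t18_18_6_0_1 : BlkD.Tr :=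
  .S 0 6 (.S 2 0 (.L 3 3 [4] [] [] 100000 0 0 700000 50000 0 50000 50000 0 0 0) (.E 1)) (.E 0)

lemma n18_18_6_0_1 {n : ℕ} (hn : 5 ≤ n) : NoNd ((18 : ℕ) : ℤ) ((18 : ℕ) : ℤ) n 6 0
    (BlkD.inB (fun _ => 0)
      (fun _ => 18)) :=
  BlkD.part_sound (d := d18_18_6_0) dk18_18_6_0 hn (by decide) (tr := t18_18_6_0_1)
    (by decide +kernel) rfl rfl rfl rfl

lemma pr18_18_6_0 {n : ℕ} (hn : 5 ≤ n) : NoPr ((18 : ℕ) : ℤ) ((18 : ℕ) : ℤ) n 6 0 :=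
  BlkD.of_root (q := 3) (by decide) hn (n18_18_6_0_1 hn)

/-- the numbers of the pair `(6, 1)`, `R = 18`, `H = 18` -/
def d18_18_6_1 : BlkD.Pd :=
  ⟨18, 18, 3, 6, 1, 8, 1, 1, 2, 2, 6, 0, 0, 4, 4, 0, [0, 6, 12, 18, 24, 26, 28, 30, 32], [0, 4, 8,
    12, 16, 20, 24, 28, 32], [⟨1, 1, 1, 4, 8, [0, 4], [0, 4]⟩, ⟨1, 1, 1, 4, 10, [0, 6], [0, 4]⟩]⟩

lemma dk18_18_6_1 : BlkD.pairOk d18_18_6_1 = true := by decide +kernel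

/-- the certificates of the part 1 of the pair `(6, 1)` -/
def t18_18_6_1_1 : BlkD.Tr :=
  .S 0 6 (.S 2 1 (.L 3 4 [4, 4] [] [] 100000 0 0 920000 20000 20000 60000 20000 0 0 0) (.E 1)) (.E
    0)

lemma n18_18_6_1_1 {n : ℕ} (hn : 5 ≤ n) : NoNd ((18 : ℕ) : ℤ) ((18 : ℕ) : ℤ) n 6 1
    (BlkD.inB (fun _ => 0)
      (fun _ => 18)) :=
  BlkD.part_sound (d := d18_18_6_1) dk18_18_6_1 hn (by decide) (tr := t18_18_6_1_1)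
    (by decide +kernel) rfl rfl rfl rfl

lemma pr18_18_6_1 {n : ℕ} (hn : 5 ≤ n) : NoPr ((18 : ℕ) : ℤ) ((18 : ℕ) : ℤ) n 6 1 :=
  BlkD.of_root (q := 3) (by decide) hn (n18_18_6_1_1 hn)

/-- the numbers of the pair `(6, 2)`, `R = 18`, `H = 18` -/
def d18_18_6_2 : BlkD.Pd :=
  ⟨18, 18, 3, 6, 2, 7, 2, 1, 2, 2, 8, 0, 3, 1, 6, 0, [0, 8, 16, 20, 22, 24, 26, 28], [0, 6, 12, 16,
    19, 22, 25, 28], [⟨1, 1, 1, 4, 8, [0, 4], [0, 4]⟩, ⟨1, 1, 1, 4, 10, [0, 6], [0, 4]⟩, ⟨1, 1, 1,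
    6, 14, [0, 8], [0, 6]⟩]⟩

lemma dk18_18_6_2 : BlkD.pairOk d18_18_6_2 = true := by decide +kernel

/-- the certificates of the part 1 of the pair `(6, 2)` -/
def t18_18_6_2_1 : BlkD.Tr :=
  .S 0 6 (.S 2 2 (.S 0 3 (.L 4 6 [4, 4, 4] [] [] 100000 16082 16082 970760 28655 0 85965 28655 8187
    19883 19883) (.L 4 6 [4, 4, 4] [] [] 100000 0 0 1064916 8772 8772 54386 29532 11404 29532
    29532)) (.E 1)) (.E 0)

lemma n18_18_6_2_1 {n : ℕ} (hn : 5 ≤ n) : NoNd ((18 : ℕ) : ℤ) ((18 : ℕ) : ℤ) n 6 2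
    (BlkD.inB (fun _ => 0)
      (fun _ => 18)) :=
  BlkD.part_sound (d := d18_18_6_2) dk18_18_6_2 hn (by decide) (tr := t18_18_6_2_1)
    (by decide +kernel) rfl rfl rfl rfl

lemma pr18_18_6_2 {n : ℕ} (hn : 5 ≤ n) : NoPr ((18 : ℕ) : ℤ) ((18 : ℕ) : ℤ) n 6 2 :=
  BlkD.of_root (q := 3) (by decide) hn (n18_18_6_2_1 hn)

/-- the numbers of the pair `(6, 3)`, `R = 18`, `H = 18` -/
def d18_18_6_3 : BlkD.Pd :=
  ⟨18, 18, 3, 6, 3, 6, 3, 2, 1, 4, 10, 0, 2, 2, 8, 0, [0, 10, 20, 27, 28, 29, 30], [0, 8, 16, 18,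
    20, 22, 24], [⟨1, 1, 1, 4, 8, [0, 4], [0, 4]⟩, ⟨1, 1, 1, 4, 12, [0, 6], [0, 6]⟩, ⟨1, 1, 1, 4,
    14, [0, 8], [0, 6]⟩, ⟨2, 1, 1, 4, 26, [0, 10, 18], [0, 8]⟩]⟩

lemma dk18_18_6_3 : BlkD.pairOk d18_18_6_3 = true := by decide +kernel

/-- the certificates of the part 1 of the pair `(6, 3)` -/
def t18_18_6_3_1 : BlkD.Tr :=
  .L 4 6 [4, 4, 4, 5] [] [] 100000 100000 100000 600000 100000 0 100000 100000 0 0 0

lemma n18_18_6_3_1 {n : ℕ} (hn : 5 ≤ n) : NoNd ((18 : ℕ) : ℤ) ((18 : ℕ) : ℤ) n 6 3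
    (BlkD.inB (fun _ => 0)
      (BlkD.upd (BlkD.upd (BlkD.upd (BlkD.upd (fun _ => 18) 0 6) 2 3) 0 3) 0 1)) :=
  BlkD.part_sound (d := d18_18_6_3) dk18_18_6_3 hn (by decide) (tr := t18_18_6_3_1)
    (by decide +kernel) rfl rfl rfl rfl

/-- the certificates of the part 2 of the pair `(6, 3)` -/
def t18_18_6_3_2 : BlkD.Tr :=
  .S 1 16 (.S 1 8 (.S 1 4 (.L 4 6 [4, 4, 4, 5] [] [] 100000 33334 33334 1033332 16667 0 16667 33333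
    0 33333 33333) (.S 1 6 (.S 1 5 (.L 4 6 [4, 4, 4, 5] [85, 78, 70, 60, 50, 40] [] 100000 69444
    69443 950002 50000 0 50000 50000 0 16667 25000) (.L 4 6 [4, 4, 4, 5] [100, 99, 92, 84, 74, 64]
    [] 100000 80142 80142 936172 57447 0 76596 48936 0 8511 19149)) (.S 1 7 (.L 4 6 [4, 4, 4, 5]
    [117, 116, 115, 108, 100, 90] [] 100000 80953 80953 928573 61905 0 80952 33333 0 4762 12698)
    (.L 4 6 [4, 4, 4, 5] [136, 135, 134, 133, 126, 118] [] 100000 77083 77082 893750 68750 0 87500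
    43750 0 6250 18750)))) (.L 5 7 [4, 4, 4, 4] [] [] 100000 49494 49493 1027277 24242 0 100000
    51515 0 15152 33333)) (.E 0)

lemma n18_18_6_3_2 {n : ℕ} (hn : 5 ≤ n) : NoNd ((18 : ℕ) : ℤ) ((18 : ℕ) : ℤ) n 6 3
    (BlkD.inB (BlkD.upd (fun _ => 0) 0 2)
      (BlkD.upd (BlkD.upd (BlkD.upd (BlkD.upd (fun _ => 18) 0 6) 2 3) 0 3) 0 2)) :=
  BlkD.part_sound (d := d18_18_6_3) dk18_18_6_3 hn (by decide) (tr := t18_18_6_3_2)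
    (by decide +kernel) rfl rfl rfl rfl

/-- the certificates of the part 3 of the pair `(6, 3)` -/
def t18_18_6_3_3 : BlkD.Tr :=
  .L 5 7 [4, 4, 4, 4] [] [] 100000 33334 33334 1016667 27778 0 27778 27778 0 16667 33333

lemma n18_18_6_3_3 {n : ℕ} (hn : 5 ≤ n) : NoNd ((18 : ℕ) : ℤ) ((18 : ℕ) : ℤ) n 6 3
    (BlkD.inB (BlkD.upd (BlkD.upd (fun _ => 0) 0 2) 0 3)
      (BlkD.upd (BlkD.upd (BlkD.upd (BlkD.upd (BlkD.upd (BlkD.upd (fun _ => 18) 0 6) 2 3) 0 3) 1 15) 1 7) 1 3)) :=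
  BlkD.part_sound (d := d18_18_6_3) dk18_18_6_3 hn (by decide) (tr := t18_18_6_3_3)
    (by decide +kernel) rfl rfl rfl rfl

/-- the certificates of the part 4 of the pair `(6, 3)` -/
def t18_18_6_3_4 : BlkD.Tr :=
  .S 1 4 (.L 5 7 [4, 4, 4, 4] [74, 66, 56, 46, 36, 0] [] 100000 33333 33332 1085716 28571 0 28571
    28571 0 28571 28571) (.S 2 1 (.S 2 0 (.L 5 7 [4, 4, 4, 4] [95, 88, 80, 70, 60, 50] [] 100000
    33333 33332 950000 0 0 50000 100000 0 0 0) (.S 3 9 (.S 3 4 (.S 3 2 (.L 5 7 [4, 4, 4, 4] [95,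
    88, 80, 70, 60, 50] [] 100000 33334 33334 1057895 21053 10526 31579 21053 0 0 26316) (.S 3 3
    (.L 5 7 [4, 4, 4, 4] [95, 88, 80, 70, 60, 50] [38, 30, 22, 12, 0, 0] 100000 30840 30840 1099999
    26531 10204 61565 42857 3741 22449 32653) (.L 5 7 [4, 4, 4, 4] [95, 88, 80, 70, 60, 50] [54,
    46, 38, 30, 20, 0] 100000 66667 66667 980000 60000 0 80000 40000 0 40000 20000))) (.E 1)) (.E
    1))) (.S 2 2 (.S 3 8 (.S 3 4 (.S 3 2 (.L 5 7 [4, 4, 4, 4] [95, 88, 80, 70, 60, 50] [] 100000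
    29604 29604 1101399 32867 0 60839 32867 5594 33566 31469) (.L 5 7 [4, 4, 4, 4] [95, 88, 80, 70,
    60, 50] [] 100000 44444 44443 1055558 44444 0 66667 22222 0 44444 22222)) (.E 1)) (.E 1)) (.L 5
    7 [4, 4, 4, 4] [95, 88, 80, 70, 60, 50] [] 100000 37265 37265 1035848 41038 0 69340 5660 5660
    50000 25000)))

lemma n18_18_6_3_4 {n : ℕ} (hn : 5 ≤ n) : NoNd ((18 : ℕ) : ℤ) ((18 : ℕ) : ℤ) n 6 3
    (BlkD.inB (BlkD.upd (BlkD.upd (BlkD.upd (fun _ => 0) 0 2) 0 3) 1 4)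
      (BlkD.upd (BlkD.upd (BlkD.upd (BlkD.upd (BlkD.upd (BlkD.upd (fun _ => 18) 0 6) 2 3) 0 3) 1 15) 1 7) 1 5)) :=
  BlkD.part_sound (d := d18_18_6_3) dk18_18_6_3 hn (by decide) (tr := t18_18_6_3_4)
    (by decide +kernel) rfl rfl rfl rfl

/-- the certificates of the part 5 of the pair `(6, 3)` -/
def t18_18_6_3_5 : BlkD.Tr :=
  .S 1 6 (.S 2 1 (.S 2 0 (.L 5 7 [4, 4, 4, 4] [112, 111, 104, 96, 86, 76] [] 100000 33333 33332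
    900000 0 0 100000 100000 0 0 0) (.S 3 8 (.S 3 4 (.S 3 2 (.L 5 7 [4, 4, 4, 4] [112, 111, 104,
    96, 86, 76] [] 100000 32046 32046 1088405 24638 18841 57488 47826 1932 10145 28986) (.S 3 3 (.L
    4 6 [4, 4, 4, 5] [112, 111, 104, 96, 86, 76] [38, 30, 22, 12, 0, 0] 100000 31429 31429 1088574
    28571 0 68571 42857 2857 28571 28571) (.L 5 7 [4, 4, 4, 4] [112, 111, 104, 96, 86, 76] [54, 46,
    38, 30, 20, 0] 100000 58667 58667 1008000 48000 0 100000 32000 0 45333 22667))) (.E 1)) (.E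
    1))) (.S 2 2 (.S 3 7 (.S 3 3 (.S 3 1 (.L 5 7 [4, 4, 4, 4] [112, 111, 104, 96, 86, 76] [] 100000
    30719 30718 1094120 35294 0 66667 23529 3922 23529 23529) (.S 3 2 (.L 5 7 [4, 4, 4, 4] [112,
    111, 104, 96, 86, 76] [28, 20, 10, 0, 0, 0] 100000 50000 50000 1033335 33333 0 100000 50000 0
    16667 33333) (.L 5 7 [4, 4, 4, 4] [112, 111, 104, 96, 86, 76] [44, 36, 28, 18, 0, 0] 100000
    55555 55554 1011112 47222 0 100000 17593 0 50000 25000))) (.E 1)) (.E 1)) (.L 5 7 [4, 4, 4, 4]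
    [112, 111, 104, 96, 86, 76] [] 100000 40833 40832 1032500 37500 0 92500 25000 7500 50000
    25000))) (.L 5 7 [4, 4, 4, 4] [131, 130, 129, 122, 114, 104] [] 100000 40001 40001 1048570
    31429 0 94286 37143 0 8571 22857)

lemma n18_18_6_3_5 {n : ℕ} (hn : 5 ≤ n) : NoNd ((18 : ℕ) : ℤ) ((18 : ℕ) : ℤ) n 6 3
    (BlkD.inB (BlkD.upd (BlkD.upd (BlkD.upd (BlkD.upd (fun _ => 0) 0 2) 0 3) 1 4) 1 6)
      (BlkD.upd (BlkD.upd (BlkD.upd (BlkD.upd (BlkD.upd (fun _ => 18) 0 6) 2 3) 0 3) 1 15) 1 7)) :=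
  BlkD.part_sound (d := d18_18_6_3) dk18_18_6_3 hn (by decide) (tr := t18_18_6_3_5)
    (by decide +kernel) rfl rfl rfl rfl

/-- the certificates of the part 6 of the pair `(6, 3)` -/
def t18_18_6_3_6 : BlkD.Tr :=
  .L 5 7 [4, 4, 4, 4] [] [] 100000 33333 33332 1000000 0 0 100000 100000 0 0 0

lemma n18_18_6_3_6 {n : ℕ} (hn : 5 ≤ n) : NoNd ((18 : ℕ) : ℤ) ((18 : ℕ) : ℤ) n 6 3
    (BlkD.inB (BlkD.upd (BlkD.upd (BlkD.upd (fun _ => 0) 0 2) 0 3) 1 8)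
      (BlkD.upd (BlkD.upd (BlkD.upd (BlkD.upd (fun _ => 18) 0 6) 2 3) 0 3) 1 15)) :=
  BlkD.part_sound (d := d18_18_6_3) dk18_18_6_3 hn (by decide) (tr := t18_18_6_3_6)
    (by decide +kernel) rfl rfl rfl rfl

/-- the certificates of the part 7 of the pair `(6, 3)` -/
def t18_18_6_3_7 : BlkD.Tr :=
  .E 0

lemma n18_18_6_3_7 {n : ℕ} (hn : 5 ≤ n) : NoNd ((18 : ℕ) : ℤ) ((18 : ℕ) : ℤ) n 6 3
    (BlkD.inB (BlkD.upd (BlkD.upd (BlkD.upd (fun _ => 0) 0 2) 0 3) 1 16)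
      (BlkD.upd (BlkD.upd (BlkD.upd (fun _ => 18) 0 6) 2 3) 0 3)) :=
  BlkD.part_sound (d := d18_18_6_3) dk18_18_6_3 hn (by decide) (tr := t18_18_6_3_7)
    (by decide +kernel) rfl rfl rfl rfl

/-- the certificates of the part 8 of the pair `(6, 3)` -/
def t18_18_6_3_8 : BlkD.Tr :=
  .S 1 14 (.S 1 7 (.S 1 3 (.S 1 1 (.L 5 7 [4, 4, 4, 4] [] [] 100000 33333 33332 1000000 0 0 0 0 0 0
    0) (.S 1 2 (.L 5 7 [4, 4, 4, 4] [38, 28, 18, 0, 0, 0] [] 100000 33334 33334 1016667 41667 0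
    41667 41667 0 16667 33333) (.S 2 1 (.S 2 0 (.L 5 7 [4, 4, 4, 4] [60, 50, 40, 30, 0, 0] []
    100000 33333 33332 900000 0 0 0 100000 0 0 0) (.S 3 10 (.S 3 5 (.S 3 2 (.L 5 7 [4, 4, 4, 4]
    [60, 50, 40, 30, 0, 0] [] 100000 33333 33332 1000000 0 0 0 0 0 0 0) (.S 3 4 (.S 3 3 (.L 5 7 [4,
    4, 4, 4] [60, 50, 40, 30, 0, 0] [38, 30, 22, 12, 0, 0] 100000 33333 33332 1062500 25000 12500
    37500 37500 0 12500 25000) (.L 6 9 [4, 5, 3, 3] [60, 50, 40, 30, 0, 0] [54, 46, 38, 30, 20, 0]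
    100000 33333 33332 1087500 37500 0 37500 37500 0 37500 25000)) (.E 1))) (.E 1)) (.E 1))) (.L 6
    9 [4, 5, 3, 3] [60, 50, 40, 30, 0, 0] [] 100000 33333 33332 1097562 34146 2439 34146 34146 0
    31707 21951)))) (.S 1 5 (.S 1 4 (.S 2 1 (.L 6 9 [4, 5, 3, 3] [82, 74, 64, 54, 44, 0] [] 100000
    31863 31863 1095588 22059 19118 75000 63235 2206 13971 25735) (.L 6 9 [4, 5, 3, 3] [82, 74, 64,
    54, 44, 0] [] 100000 28019 28018 1113044 21739 0 87681 65217 7971 13043 26087)) (.L 6 9 [4, 5,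
    3, 3] [105, 98, 90, 80, 70, 60] [] 100000 33334 33334 1094119 29412 0 82353 47059 0 14118
    15294)) (.L 6 9 [4, 5, 3, 3] [] [] 100000 26667 26666 1093333 6667 0 100000 46667 10000 20000
    33333))) (.E 0)) (.E 0)

lemma n18_18_6_3_8 {n : ℕ} (hn : 5 ≤ n) : NoNd ((18 : ℕ) : ℤ) ((18 : ℕ) : ℤ) n 6 3
    (BlkD.inB (BlkD.upd (fun _ => 0) 0 4)
      (BlkD.upd (BlkD.upd (BlkD.upd (BlkD.upd (fun _ => 18) 0 6) 2 3) 0 5) 0 4)) :=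
  BlkD.part_sound (d := d18_18_6_3) dk18_18_6_3 hn (by decide) (tr := t18_18_6_3_8)
    (by decide +kernel) rfl rfl rfl rfl

/-- the certificates of the part 9 of the pair `(6, 3)` -/
def t18_18_6_3_9 : BlkD.Tr :=
  .S 1 13 (.S 1 6 (.S 1 3 (.S 1 1 (.L 6 9 [4, 5, 3, 3] [] [] 100000 33334 33334 1033333 66667 0
    66667 66667 0 33333 33333) (.S 1 2 (.L 6 9 [4, 5, 3, 3] [42, 32, 22, 0, 0, 0] [] 100000 27407
    27406 1100001 44444 0 100000 53333 8889 24444 28889) (.S 2 1 (.L 4 6 [4, 4, 4, 5] [66, 56, 46,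
    36, 0, 0] [] 100000 43590 43590 1046155 23077 30769 92308 61538 3846 11538 13462) (.S 2 2 (.S 3
    8 (.S 3 4 (.S 3 2 (.L 4 6 [4, 4, 4, 5] [66, 56, 46, 36, 0, 0] [] 100000 23809 23808 1114288
    28571 0 85714 42857 14286 28571 21429) (.L 4 6 [4, 4, 4, 5] [66, 56, 46, 36, 0, 0] [] 100000
    33333 33332 1075000 25000 0 100000 50000 0 25000 12500)) (.E 1)) (.E 1)) (.L 4 6 [4, 4, 4, 5]
    [66, 56, 46, 36, 0, 0] [] 100000 14667 14667 1128000 24000 0 92000 0 28000 64000 32000))))) (.L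
    4 6 [4, 4, 4, 5] [] [] 100000 22222 22221 1100000 0 0 100000 66667 16667 33333 16667)) (.E 0))
    (.E 0)

lemma n18_18_6_3_9 {n : ℕ} (hn : 5 ≤ n) : NoNd ((18 : ℕ) : ℤ) ((18 : ℕ) : ℤ) n 6 3
    (BlkD.inB (BlkD.upd (BlkD.upd (fun _ => 0) 0 4) 0 5)
      (BlkD.upd (BlkD.upd (BlkD.upd (fun _ => 18) 0 6) 2 3) 0 5)) :=
  BlkD.part_sound (d := d18_18_6_3) dk18_18_6_3 hn (by decide) (tr := t18_18_6_3_9)
    (by decide +kernel) rfl rfl rfl rfl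

/-- the certificates of the part 10 of the pair `(6, 3)` -/
def t18_18_6_3_10 : BlkD.Tr :=
  .L 4 6 [4, 4, 4, 5] [] [] 100000 0 0 1130772 0 0 69231 61538 61538 38462 30769

lemma n18_18_6_3_10 {n : ℕ} (hn : 5 ≤ n) : NoNd ((18 : ℕ) : ℤ) ((18 : ℕ) : ℤ) n 6 3
    (BlkD.inB (BlkD.upd (BlkD.upd (fun _ => 0) 0 4) 0 6)
      (BlkD.upd (BlkD.upd (fun _ => 18) 0 6) 2 3)) :=
  BlkD.part_sound (d := d18_18_6_3) dk18_18_6_3 hn (by decide) (tr := t18_18_6_3_10)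
    (by decide +kernel) rfl rfl rfl rfl

/-- the certificates of the part 11 of the pair `(6, 3)` -/
def t18_18_6_3_11 : BlkD.Tr :=
  .E 1

lemma n18_18_6_3_11 {n : ℕ} (hn : 5 ≤ n) : NoNd ((18 : ℕ) : ℤ) ((18 : ℕ) : ℤ) n 6 3
    (BlkD.inB (BlkD.upd (fun _ => 0) 2 4)
      (BlkD.upd (fun _ => 18) 0 6)) :=
  BlkD.part_sound (d := d18_18_6_3) dk18_18_6_3 hn (by decide) (tr := t18_18_6_3_11)
    (by decide +kernel) rfl rfl rfl rfl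

/-- the certificates of the part 12 of the pair `(6, 3)` -/
def t18_18_6_3_12 : BlkD.Tr :=
  .E 0

lemma n18_18_6_3_12 {n : ℕ} (hn : 5 ≤ n) : NoNd ((18 : ℕ) : ℤ) ((18 : ℕ) : ℤ) n 6 3
    (BlkD.inB (BlkD.upd (fun _ => 0) 0 7)
      (fun _ => 18)) :=
  BlkD.part_sound (d := d18_18_6_3) dk18_18_6_3 hn (by decide) (tr := t18_18_6_3_12)
    (by decide +kernel) rfl rfl rfl rfl

lemma pr18_18_6_3 {n : ℕ} (hn : 5 ≤ n) : NoPr ((18 : ℕ) : ℤ) ((18 : ℕ) : ℤ) n 6 3 :=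
  BlkD.of_root (q := 3) (by decide) hn (BlkD.sp 0 6 (BlkD.sp 2 3 (BlkD.sp 0 3 (BlkD.sp 0 1 (n18_18_6_3_1 hn)
    (BlkD.sp 0 2 (n18_18_6_3_2 hn)
    (BlkD.sp 1 15 (BlkD.sp 1 7 (BlkD.sp 1 3 (n18_18_6_3_3 hn)
    (BlkD.sp 1 5 (n18_18_6_3_4 hn)
    (n18_18_6_3_5 hn)))
    (n18_18_6_3_6 hn))
    (n18_18_6_3_7 hn))))
    (BlkD.sp 0 5 (BlkD.sp 0 4 (n18_18_6_3_8 hn)
    (n18_18_6_3_9 hn))
    (n18_18_6_3_10 hn)))
    (n18_18_6_3_11 hn))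
    (n18_18_6_3_12 hn))

/-- the numbers of the pair `(6, 4)`, `R = 18`, `H = 18` -/
def d18_18_6_4 : BlkD.Pd :=
  ⟨18, 18, 3, 6, 4, 5, 2, 2, 2, 2, 8, 0, 2, 2, 8, 0, [0, 8, 14, 16, 18, 20], [0, 8, 14, 16, 18,
    20], [⟨1, 1, 1, 4, 8, [0, 4], [0, 4]⟩, ⟨1, 1, 1, 4, 12, [0, 6], [0, 6]⟩, ⟨1, 1, 1, 4, 16, [0,
    8], [0, 8]⟩]⟩

lemma dk18_18_6_4 : BlkD.pairOk d18_18_6_4 = true := by decide +kernel

/-- the certificates of the part 1 of the pair `(6, 4)` -/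
def t18_18_6_4_1 : BlkD.Tr :=
  .L 5 6 [4, 4, 4, 18, 18] [] [] 100000 100000 100000 866667 100000 0 100000 33333 0 0 0

lemma n18_18_6_4_1 {n : ℕ} (hn : 5 ≤ n) : NoNd ((18 : ℕ) : ℤ) ((18 : ℕ) : ℤ) n 6 4
    (BlkD.inB (fun _ => 0)
      (BlkD.upd (BlkD.upd (BlkD.upd (BlkD.upd (fun _ => 18) 0 6) 2 4) 0 3) 0 1)) :=
  BlkD.part_sound (d := d18_18_6_4) dk18_18_6_4 hn (by decide) (tr := t18_18_6_4_1)
    (by decide +kernel) rfl rfl rfl rfl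

/-- the certificates of the part 2 of the pair `(6, 4)` -/
def t18_18_6_4_2 : BlkD.Tr :=
  .S 0 2 (.L 5 6 [4, 4, 4, 18, 18] [] [] 100000 75000 75000 1125000 50000 0 75000 75000 0 0 25000)
    (.S 1 15 (.S 1 7 (.S 1 3 (.L 5 6 [4, 4, 4, 18, 18] [] [] 100000 7500 7500 1175000 25000 0 25000
    50000 0 10000 37500) (.S 1 5 (.S 1 4 (.L 5 6 [4, 4, 4, 18, 18] [72, 66, 58, 48, 36, 0] []
    100000 9167 9167 1248333 25000 0 26667 51667 0 15000 33333) (.S 2 2 (.L 5 6 [4, 4, 4, 18, 18]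
    [88, 86, 80, 72, 62, 50] [] 100000 37363 37363 1200000 36967 15166 64929 58768 4265 10427
    21011) (.L 5 6 [4, 4, 4, 18, 18] [88, 86, 80, 72, 62, 50] [] 100000 14287 14287 1242855 31429 0
    62857 34286 0 28571 31429))) (.S 1 6 (.L 5 6 [4, 4, 4, 18, 18] [106, 104, 102, 96, 88, 78] []
    100000 1 1 1292308 15385 0 76923 61538 2564 17949 39744) (.L 5 6 [4, 4, 4, 18, 18] [126, 124,
    122, 120, 114, 106] [] 100000 10001 10001 1233333 30000 0 76667 53333 0 13333 33333)))) (.L 5 6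
    [4, 4, 4, 18, 18] [] [] 100000 233333 0 33336 33333 33333 333333 66667 0 0 0)) (.E 0))

lemma n18_18_6_4_2 {n : ℕ} (hn : 5 ≤ n) : NoNd ((18 : ℕ) : ℤ) ((18 : ℕ) : ℤ) n 6 4
    (BlkD.inB (BlkD.upd (fun _ => 0) 0 2)
      (BlkD.upd (BlkD.upd (BlkD.upd (fun _ => 18) 0 6) 2 4) 0 3)) :=
  BlkD.part_sound (d := d18_18_6_4) dk18_18_6_4 hn (by decide) (tr := t18_18_6_4_2)
    (by decide +kernel) rfl rfl rfl rfl

/-- the certificates of the part 3 of the pair `(6, 4)` -/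
def t18_18_6_4_3 : BlkD.Tr :=
  .S 0 5 (.S 0 4 (.S 1 14 (.S 1 7 (.S 1 3 (.L 5 6 [4, 4, 4, 18, 18] [] [] 100000 8334 8334 1250002
    33333 0 33333 50000 0 16667 33333) (.S 1 5 (.L 5 6 [4, 4, 4, 18, 18] [] [] 100000 0 0 1296429
    10714 0 71429 71429 3571 17857 39286) (.L 5 6 [4, 4, 4, 18, 18] [] [] 100000 1 1 1277125 4575
    4575 100000 54248 20915 12418 33333))) (.E 0)) (.E 0)) (.L 5 6 [4, 4, 4, 18, 18] [] [] 100000 2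
    2 1291121 4440 2960 57082 86681 12051 18816 34567)) (.L 5 6 [4, 4, 4, 18, 18] [] [] 100000 0 0
    1200000 0 0 100000 100000 0 0 50000)

lemma n18_18_6_4_3 {n : ℕ} (hn : 5 ≤ n) : NoNd ((18 : ℕ) : ℤ) ((18 : ℕ) : ℤ) n 6 4
    (BlkD.inB (BlkD.upd (fun _ => 0) 0 4)
      (BlkD.upd (BlkD.upd (fun _ => 18) 0 6) 2 4)) :=
  BlkD.part_sound (d := d18_18_6_4) dk18_18_6_4 hn (by decide) (tr := t18_18_6_4_3)
    (by decide +kernel) rfl rfl rfl rfl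

/-- the certificates of the part 4 of the pair `(6, 4)` -/
def t18_18_6_4_4 : BlkD.Tr :=
  .E 1

lemma n18_18_6_4_4 {n : ℕ} (hn : 5 ≤ n) : NoNd ((18 : ℕ) : ℤ) ((18 : ℕ) : ℤ) n 6 4
    (BlkD.inB (BlkD.upd (fun _ => 0) 2 5)
      (BlkD.upd (fun _ => 18) 0 6)) :=
  BlkD.part_sound (d := d18_18_6_4) dk18_18_6_4 hn (by decide) (tr := t18_18_6_4_4)
    (by decide +kernel) rfl rfl rfl rfl

/-- the certificates of the part 5 of the pair `(6, 4)` -/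
def t18_18_6_4_5 : BlkD.Tr :=
  .E 0

lemma n18_18_6_4_5 {n : ℕ} (hn : 5 ≤ n) : NoNd ((18 : ℕ) : ℤ) ((18 : ℕ) : ℤ) n 6 4
    (BlkD.inB (BlkD.upd (fun _ => 0) 0 7)
      (fun _ => 18)) :=
  BlkD.part_sound (d := d18_18_6_4) dk18_18_6_4 hn (by decide) (tr := t18_18_6_4_5)
    (by decide +kernel) rfl rfl rfl rfl

lemma pr18_18_6_4 {n : ℕ} (hn : 5 ≤ n) : NoPr ((18 : ℕ) : ℤ) ((18 : ℕ) : ℤ) n 6 4 :=
  BlkD.of_root (q := 3) (by decide) hn (BlkD.sp 0 6 (BlkD.sp 2 4 (BlkD.sp 0 3 (BlkD.sp 0 1 (n18_18_6_4_1 hn)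
    (n18_18_6_4_2 hn))
    (n18_18_6_4_3 hn))
    (n18_18_6_4_4 hn))
    (n18_18_6_4_5 hn))

end BlkC

end Pool.Agent.Lib.MP_f04ccf_co
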