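import Pool.Agent.Lib.MP_f04ccf_co.M.BlkTp

/-!
MP_f04ccf_co, block certificate, data `R = 19`, `H = 19`, part 2 (certificates: helper99, bd9.cpp).
-/

set_option autoImplicit false
set_option maxRecDepth 100000

namespace Pool.Agent.Lib.MP_f04ccf_co

namespace BlkC

/-- the numbers of the pair `(5, 5)`, `R = 19`, `H = 19` -/
def d19_19_5_5 : BlkD.Pd :=
  ⟨19, 19, 3, 5, 5, 6, 3, 2, 2, 2, 10, 0, 2, 2, 10, 0, [0, 10, 16, 18, 20, 22, 24], [0, 10, 16, 18,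
    20, 22, 24], [⟨1, 1, 1, 4, 8, [0, 4], [0, 4]⟩, ⟨1, 1, 1, 4, 12, [0, 6], [0, 6]⟩, ⟨1, 1, 1, 4,
    16, [0, 8], [0, 8]⟩, ⟨2, 2, 1, 4, 20, [0, 10, 10], [0, 10, 10]⟩]⟩

lemma dk19_19_5_5 : BlkD.pairOk d19_19_5_5 = true := by decide +kernel

/-- the certificates of the part 1 of the pair `(5, 5)` -/
def t19_19_5_5_1 : BlkD.Tr :=
  .L 5 5 [4, 4, 4, 5, 19, 19] [] [] 100000 62500 62500 1050000 75000 0 75000 50000 0 0 37500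

lemma n19_19_5_5_1 {n : ℕ} (hn : 5 ≤ n) : NoNd ((19 : ℕ) : ℤ) ((19 : ℕ) : ℤ) n 5 5
    (BlkD.inB (fun _ => 0)
      (BlkD.upd (BlkD.upd (BlkD.upd (BlkD.upd (fun _ => 19) 0 5) 2 5) 0 2) 0 1)) :=
  BlkD.part_sound (d := d19_19_5_5) dk19_19_5_5 hn (by decide) (tr := t19_19_5_5_1)
    (by decide +kernel) rfl rfl rfl rfl

/-- the certificates of the part 2 of the pair `(5, 5)` -/
def t19_19_5_5_2 : BlkD.Tr :=
  .S 1 2 (.L 5 5 [4, 4, 4, 5, 19, 19] [] [] 100000 26667 26667 1131429 34286 0 34286 68571 0 20000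
    37143) (.S 1 3 (.L 5 5 [4, 4, 4, 5, 19, 19] [50, 40, 30, 18, 0, 0] [] 100000 28042 28041
    1200001 33333 0 53968 46032 0 15873 46032) (.S 2 2 (.S 2 1 (.L 5 5 [4, 4, 4, 5, 19, 19] [66,
    60, 50, 40, 28, 0] [] 100000 55556 55555 1033332 16667 66667 50000 66667 0 0 0) (.S 3 11 (.S 3
    5 (.L 5 5 [4, 4, 4, 5, 19, 19] [66, 60, 50, 40, 28, 0] [] 100000 28889 28889 1180002 20000
    20000 46667 46667 6667 6667 33333) (.L 5 5 [4, 4, 4, 5, 19, 19] [66, 60, 50, 40, 28, 0] []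
    100000 15833 15832 1250000 20000 10000 60000 40000 12500 40000 20000)) (.E 1))) (.S 2 4 (.S 2 3
    (.S 3 10 (.S 3 5 (.S 3 2 (.L 5 5 [4, 4, 4, 5, 19, 19] [66, 60, 50, 40, 28, 0] [] 100000 33333
    33332 1100000 0 0 0 0 0 0 0) (.S 3 4 (.L 5 5 [4, 4, 4, 5, 19, 19] [66, 60, 50, 40, 28, 0] []
    100000 26368 26367 1217912 16418 16418 58209 43284 10448 10448 41791) (.L 5 5 [4, 4, 4, 5, 19,
    19] [66, 60, 50, 40, 28, 0] [90, 88, 82, 72, 62, 50] 100000 12501 12501 1228571 21429 0 64286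
    42857 5357 57143 28571))) (.E 1)) (.E 1)) (.L 5 5 [4, 4, 4, 5, 19, 19] [66, 60, 50, 40, 28, 0]
    [] 100000 23771 23771 1200000 25000 0 72131 52869 9426 19262 27869)) (.L 5 5 [4, 4, 4, 5, 19,
    19] [66, 60, 50, 40, 28, 0] [] 100000 22222 22221 1133335 33333 0 66667 33333 0 33333 33333))))

lemma n19_19_5_5_2 {n : ℕ} (hn : 5 ≤ n) : NoNd ((19 : ℕ) : ℤ) ((19 : ℕ) : ℤ) n 5 5
    (BlkD.inB (BlkD.upd (fun _ => 0) 0 2)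
      (BlkD.upd (BlkD.upd (BlkD.upd (BlkD.upd (BlkD.upd (BlkD.upd (fun _ => 19) 0 5) 2 5) 0 2) 1 17) 1 8) 1 4)) :=
  BlkD.part_sound (d := d19_19_5_5) dk19_19_5_5 hn (by decide) (tr := t19_19_5_5_2)
    (by decide +kernel) rfl rfl rfl rfl

/-- the certificates of the part 3 of the pair `(5, 5)` -/
def t19_19_5_5_3 : BlkD.Tr :=
  .S 1 6 (.S 1 5 (.S 2 2 (.S 2 1 (.L 5 5 [4, 4, 4, 5, 19, 19] [80, 78, 72, 62, 52, 40] [] 100000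
    55556 55555 1033332 16667 66667 50000 66667 0 0 0) (.S 3 10 (.S 3 5 (.S 3 2 (.L 5 5 [4, 4, 4,
    5, 19, 19] [80, 78, 72, 62, 52, 40] [] 100000 33333 33332 1100000 0 0 0 0 0 0 0) (.S 3 4 (.L 5
    5 [4, 4, 4, 5, 19, 19] [80, 78, 72, 62, 52, 40] [] 100000 29412 29412 1176472 20588 20588 47059
    47059 5882 5882 29412) (.L 5 5 [4, 4, 4, 5, 19, 19] [80, 78, 72, 62, 52, 40] [80, 78, 72, 62,
    52, 40] 100000 37634 37634 1183873 21505 24731 55914 52688 8602 8602 18280))) (.L 5 5 [4, 4, 4,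
    5, 19, 19] [80, 78, 72, 62, 52, 40] [] 100000 66667 66667 1083333 33333 16667 100000 66667 0
    33333 0)) (.E 1))) (.S 2 4 (.S 2 3 (.S 3 9 (.S 3 4 (.S 3 2 (.L 5 5 [4, 4, 4, 5, 19, 19] [80,
    78, 72, 62, 52, 40] [] 100000 31250 31250 1137500 21875 21875 46875 46875 3125 3125 34375) (.S
    3 3 (.L 5 5 [4, 4, 4, 5, 19, 19] [80, 78, 72, 62, 52, 40] [56, 46, 36, 24, 0, 0] 100000 27371
    27370 1200001 22222 11111 55014 56098 12195 5691 32791) (.L 5 5 [4, 4, 4, 5, 19, 19] [80, 78,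
    72, 62, 52, 40] [74, 68, 58, 48, 36, 0] 100000 12943 12942 1257981 15957 15957 48404 46277
    12234 48936 30319))) (.L 5 5 [4, 4, 4, 5, 19, 19] [80, 78, 72, 62, 52, 40] [] 100000 33333
    33332 1100000 0 0 100000 100000 0 0 0)) (.E 1)) (.L 5 5 [4, 4, 4, 5, 19, 19] [80, 78, 72, 62,
    52, 40] [] 100000 25034 25034 1215139 28287 0 59363 50000 7769 17131 34861)) (.L 5 5 [4, 4, 4,
    5, 19, 19] [80, 78, 72, 62, 52, 40] [] 100000 16667 16666 1165518 34483 0 50000 31034 8621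
    58621 29310))) (.S 2 2 (.S 2 1 (.L 5 5 [4, 4, 4, 5, 19, 19] [96, 94, 92, 86, 76, 66] [] 100000
    61539 61539 1007691 15385 76923 38462 76923 7692 0 0) (.S 3 9 (.S 3 4 (.L 5 5 [4, 4, 4, 5, 19,
    19] [96, 94, 92, 86, 76, 66] [] 100000 23215 23215 1214286 20238 20238 46429 44048 32143 5952
    17262) (.L 5 5 [4, 4, 4, 5, 19, 19] [96, 94, 92, 86, 76, 66] [] 100000 1 1 1288461 0 14103
    28205 70513 48718 47436 23077)) (.E 1))) (.L 5 5 [4, 4, 4, 5, 19, 19] [96, 94, 92, 86, 76, 66]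
    [] 100000 14748 14748 1245456 24242 0 57576 48485 42424 13333 21212))) (.L 5 5 [4, 4, 4, 5, 19,
    19] [] [] 100000 196000 0 0 0 0 296000 20000 0 0 0)

lemma n19_19_5_5_3 {n : ℕ} (hn : 5 ≤ n) : NoNd ((19 : ℕ) : ℤ) ((19 : ℕ) : ℤ) n 5 5
    (BlkD.inB (BlkD.upd (BlkD.upd (fun _ => 0) 0 2) 1 5)
      (BlkD.upd (BlkD.upd (BlkD.upd (BlkD.upd (BlkD.upd (fun _ => 19) 0 5) 2 5) 0 2) 1 17) 1 8)) :=
  BlkD.part_sound (d := d19_19_5_5) dk19_19_5_5 hn (by decide) (tr := t19_19_5_5_3)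
    (by decide +kernel) rfl rfl rfl rfl

/-- the certificates of the part 4 of the pair `(5, 5)` -/
def t19_19_5_5_4 : BlkD.Tr :=
  .E 0

lemma n19_19_5_5_4 {n : ℕ} (hn : 5 ≤ n) : NoNd ((19 : ℕ) : ℤ) ((19 : ℕ) : ℤ) n 5 5
    (BlkD.inB (BlkD.upd (BlkD.upd (fun _ => 0) 0 2) 1 9)
      (BlkD.upd (BlkD.upd (BlkD.upd (BlkD.upd (fun _ => 19) 0 5) 2 5) 0 2) 1 17)) :=
  BlkD.part_sound (d := d19_19_5_5) dk19_19_5_5 hn (by decide) (tr := t19_19_5_5_4)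
    (by decide +kernel) rfl rfl rfl rfl

/-- the certificates of the part 5 of the pair `(5, 5)` -/
def t19_19_5_5_5 : BlkD.Tr :=
  .E 0

lemma n19_19_5_5_5 {n : ℕ} (hn : 5 ≤ n) : NoNd ((19 : ℕ) : ℤ) ((19 : ℕ) : ℤ) n 5 5
    (BlkD.inB (BlkD.upd (BlkD.upd (fun _ => 0) 0 2) 1 18)
      (BlkD.upd (BlkD.upd (BlkD.upd (fun _ => 19) 0 5) 2 5) 0 2)) :=
  BlkD.part_sound (d := d19_19_5_5) dk19_19_5_5 hn (by decide) (tr := t19_19_5_5_5)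
    (by decide +kernel) rfl rfl rfl rfl

/-- the certificates of the part 6 of the pair `(5, 5)` -/
def t19_19_5_5_6 : BlkD.Tr :=
  .S 1 2 (.L 5 5 [4, 4, 4, 5, 19, 19] [] [] 100000 27133 27133 1206978 43023 2326 77907 48837 6977
    11628 46512) (.S 1 3 (.S 2 2 (.S 2 1 (.L 5 5 [4, 4, 4, 5, 19, 19] [56, 46, 36, 24, 0, 0] []
    100000 51389 51389 1016667 0 66667 50000 83333 0 0 4167) (.S 3 11 (.S 3 5 (.L 5 5 [4, 4, 4, 5,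
    19, 19] [56, 46, 36, 24, 0, 0] [] 100000 31206 31206 1181917 8511 30851 41489 47872 2128 4255
    35106) (.L 5 5 [4, 4, 4, 5, 19, 19] [56, 46, 36, 24, 0, 0] [] 100000 8900 8899 1251942 14078
    15534 61165 43689 32524 40777 20388)) (.E 1))) (.S 2 4 (.S 2 3 (.S 3 10 (.S 3 5 (.S 3 2 (.L 5 5
    [4, 4, 4, 5, 19, 19] [56, 46, 36, 24, 0, 0] [] 100000 33333 33332 1100000 0 0 0 0 0 0 0) (.S 3
    4 (.L 5 5 [4, 4, 4, 5, 19, 19] [56, 46, 36, 24, 0, 0] [] 100000 23933 23932 1226681 2954 23456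
    46911 67413 12086 16115 46643) (.L 5 5 [4, 4, 4, 5, 19, 19] [56, 46, 36, 24, 0, 0] [90, 88, 82,
    72, 62, 50] 100000 7407 7406 1222224 25926 0 70370 50000 27778 50000 27778))) (.E 1)) (.E 1))
    (.L 5 5 [4, 4, 4, 5, 19, 19] [56, 46, 36, 24, 0, 0] [] 100000 22957 22957 1214859 28066 472
    64151 56604 15802 15330 42689)) (.L 5 5 [4, 4, 4, 5, 19, 19] [56, 46, 36, 24, 0, 0] [] 100000
    8445 8445 1180001 26667 0 66667 40000 14667 60000 40000))) (.S 2 2 (.S 2 1 (.L 5 5 [4, 4, 4, 5,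
    19, 19] [74, 68, 58, 48, 36, 0] [] 100000 66667 66667 1000000 0 100000 0 100000 0 0 0) (.S 3 10
    (.S 3 5 (.S 3 2 (.L 5 5 [4, 4, 4, 5, 19, 19] [74, 68, 58, 48, 36, 0] [] 100000 33333 33332
    1100000 0 0 0 0 0 0 0) (.S 3 4 (.L 5 5 [4, 4, 4, 5, 19, 19] [74, 68, 58, 48, 36, 0] [] 100000
    29243 29243 1200001 20000 20000 56364 40000 7273 5000 40000) (.L 5 5 [4, 4, 4, 5, 19, 19] [74,
    68, 58, 48, 36, 0] [80, 78, 72, 62, 52, 40] 100000 16667 16666 1245454 18182 18182 45455 54545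
    54545 13636 27273))) (.L 5 5 [4, 4, 4, 5, 19, 19] [74, 68, 58, 48, 36, 0] [] 100000 155000 0
    270000 0 5000 255000 195000 0 0 0)) (.E 1))) (.S 2 4 (.S 2 3 (.S 3 9 (.S 3 4 (.S 3 2 (.L 5 5
    [4, 4, 4, 5, 19, 19] [74, 68, 58, 48, 36, 0] [] 100000 28000 28000 1170000 20000 20000 60000
    60000 10000 6000 40000) (.S 3 3 (.L 5 5 [4, 4, 4, 5, 19, 19] [74, 68, 58, 48, 36, 0] [56, 46,
    36, 24, 0, 0] 100000 20533 20532 1228000 24000 0 72000 56000 22400 16000 28000) (.L 5 5 [4, 4,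
    4, 5, 19, 19] [74, 68, 58, 48, 36, 0] [74, 68, 58, 48, 36, 0] 100000 0 0 1267500 2500 2500
    62500 62500 60000 60000 20000))) (.L 5 5 [4, 4, 4, 5, 19, 19] [74, 68, 58, 48, 36, 0] [] 100000
    166667 0 0 0 0 266667 216667 0 0 0)) (.E 1)) (.L 5 5 [4, 4, 4, 5, 19, 19] [74, 68, 58, 48, 36,
    0] [] 100000 21876 21876 1214063 7422 391 85547 78125 19922 14453 9961)) (.L 5 5 [4, 4, 4, 5,
    19, 19] [74, 68, 58, 48, 36, 0] [] 100000 0 0 1200000 20000 0 60000 40000 46667 53333 26667))))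

lemma n19_19_5_5_6 {n : ℕ} (hn : 5 ≤ n) : NoNd ((19 : ℕ) : ℤ) ((19 : ℕ) : ℤ) n 5 5
    (BlkD.inB (BlkD.upd (fun _ => 0) 0 3)
      (BlkD.upd (BlkD.upd (BlkD.upd (BlkD.upd (BlkD.upd (BlkD.upd (BlkD.upd (fun _ => 19) 0 5) 2 5) 0 4) 0 3) 1 16) 1 8) 1 4)) :=
  BlkD.part_sound (d := d19_19_5_5) dk19_19_5_5 hn (by decide) (tr := t19_19_5_5_6)
    (by decide +kernel) rfl rfl rfl rfl

/-- the certificates of the part 7 of the pair `(5, 5)` -/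
def t19_19_5_5_7 : BlkD.Tr :=
  .L 5 5 [4, 4, 4, 5, 19, 19] [] [] 100000 1 1 1295833 0 0 54167 50000 91667 8333 45833

lemma n19_19_5_5_7 {n : ℕ} (hn : 5 ≤ n) : NoNd ((19 : ℕ) : ℤ) ((19 : ℕ) : ℤ) n 5 5
    (BlkD.inB (BlkD.upd (BlkD.upd (fun _ => 0) 0 3) 1 5)
      (BlkD.upd (BlkD.upd (BlkD.upd (BlkD.upd (BlkD.upd (BlkD.upd (fun _ => 19) 0 5) 2 5) 0 4) 0 3) 1 16) 1 8)) :=
  BlkD.part_sound (d := d19_19_5_5) dk19_19_5_5 hn (by decide) (tr := t19_19_5_5_7)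
    (by decide +kernel) rfl rfl rfl rfl

/-- the certificates of the part 8 of the pair `(5, 5)` -/
def t19_19_5_5_8 : BlkD.Tr :=
  .E 0

lemma n19_19_5_5_8 {n : ℕ} (hn : 5 ≤ n) : NoNd ((19 : ℕ) : ℤ) ((19 : ℕ) : ℤ) n 5 5
    (BlkD.inB (BlkD.upd (BlkD.upd (fun _ => 0) 0 3) 1 9)
      (BlkD.upd (BlkD.upd (BlkD.upd (BlkD.upd (BlkD.upd (fun _ => 19) 0 5) 2 5) 0 4) 0 3) 1 16)) :=
  BlkD.part_sound (d := d19_19_5_5) dk19_19_5_5 hn (by decide) (tr := t19_19_5_5_8)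
    (by decide +kernel) rfl rfl rfl rfl

/-- the certificates of the part 9 of the pair `(5, 5)` -/
def t19_19_5_5_9 : BlkD.Tr :=
  .E 0

lemma n19_19_5_5_9 {n : ℕ} (hn : 5 ≤ n) : NoNd ((19 : ℕ) : ℤ) ((19 : ℕ) : ℤ) n 5 5
    (BlkD.inB (BlkD.upd (BlkD.upd (fun _ => 0) 0 3) 1 17)
      (BlkD.upd (BlkD.upd (BlkD.upd (BlkD.upd (fun _ => 19) 0 5) 2 5) 0 4) 0 3)) :=
  BlkD.part_sound (d := d19_19_5_5) dk19_19_5_5 hn (by decide) (tr := t19_19_5_5_9)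
    (by decide +kernel) rfl rfl rfl rfl

/-- the certificates of the part 10 of the pair `(5, 5)` -/
def t19_19_5_5_10 : BlkD.Tr :=
  .S 1 15 (.S 1 7 (.S 1 3 (.S 1 1 (.S 1 0 (.L 5 5 [4, 4, 4, 5, 19, 19] [0, 0, 0, 0, 0, 0] [] 100000
    26667 26666 1161538 0 19231 0 38462 0 20000 34615) (.S 2 2 (.L 5 5 [4, 4, 4, 5, 19, 19] [20, 8,
    0, 0, 0, 0] [] 100000 30509 30508 1166103 28814 28814 47458 47458 0 8475 33898) (.L 5 5 [4, 4,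
    4, 5, 19, 19] [20, 8, 0, 0, 0, 0] [] 100000 21731 21730 1213925 2532 2532 84177 81013 15823
    18987 9494))) (.S 1 2 (.L 5 5 [4, 4, 4, 5, 19, 19] [40, 30, 18, 0, 0, 0] [] 100000 15080 15080
    1239287 25893 3571 70536 53571 46429 8333 23214) (.S 2 2 (.L 5 5 [4, 4, 4, 5, 19, 19] [62, 52,
    42, 30, 0, 0] [] 100000 16667 16667 1230000 10000 20000 50000 50000 40000 10000 20000) (.L 5 5
    [4, 4, 4, 5, 19, 19] [62, 52, 42, 30, 0, 0] [] 100000 0 0 1290000 5000 0 62500 47500 75000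
    25000 37500)))) (.L 5 5 [4, 4, 4, 5, 19, 19] [] [] 100000 1 1 1295833 0 0 54167 50000 91667
    8333 45833)) (.E 0)) (.E 0)

lemma n19_19_5_5_10 {n : ℕ} (hn : 5 ≤ n) : NoNd ((19 : ℕ) : ℤ) ((19 : ℕ) : ℤ) n 5 5
    (BlkD.inB (BlkD.upd (BlkD.upd (fun _ => 0) 0 3) 0 4)
      (BlkD.upd (BlkD.upd (BlkD.upd (fun _ => 19) 0 5) 2 5) 0 4)) :=
  BlkD.part_sound (d := d19_19_5_5) dk19_19_5_5 hn (by decide) (tr := t19_19_5_5_10)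
    (by decide +kernel) rfl rfl rfl rfl

/-- the certificates of the part 11 of the pair `(5, 5)` -/
def t19_19_5_5_11 : BlkD.Tr :=
  .L 5 5 [4, 4, 4, 5, 19, 19] [] [] 100000 1150 1150 1282760 0 3448 50000 43966 81034 15517 40517

lemma n19_19_5_5_11 {n : ℕ} (hn : 5 ≤ n) : NoNd ((19 : ℕ) : ℤ) ((19 : ℕ) : ℤ) n 5 5
    (BlkD.inB (BlkD.upd (BlkD.upd (fun _ => 0) 0 3) 0 5)
      (BlkD.upd (BlkD.upd (fun _ => 19) 0 5) 2 5)) :=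
  BlkD.part_sound (d := d19_19_5_5) dk19_19_5_5 hn (by decide) (tr := t19_19_5_5_11)
    (by decide +kernel) rfl rfl rfl rfl

/-- the certificates of the part 12 of the pair `(5, 5)` -/
def t19_19_5_5_12 : BlkD.Tr :=
  .E 1

lemma n19_19_5_5_12 {n : ℕ} (hn : 5 ≤ n) : NoNd ((19 : ℕ) : ℤ) ((19 : ℕ) : ℤ) n 5 5
    (BlkD.inB (BlkD.upd (fun _ => 0) 2 6)
      (BlkD.upd (fun _ => 19) 0 5)) :=
  BlkD.part_sound (d := d19_19_5_5) dk19_19_5_5 hn (by decide) (tr := t19_19_5_5_12)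
    (by decide +kernel) rfl rfl rfl rfl

/-- the certificates of the part 13 of the pair `(5, 5)` -/
def t19_19_5_5_13 : BlkD.Tr :=
  .E 0

lemma n19_19_5_5_13 {n : ℕ} (hn : 5 ≤ n) : NoNd ((19 : ℕ) : ℤ) ((19 : ℕ) : ℤ) n 5 5
    (BlkD.inB (BlkD.upd (fun _ => 0) 0 6)
      (fun _ => 19)) :=
  BlkD.part_sound (d := d19_19_5_5) dk19_19_5_5 hn (by decide) (tr := t19_19_5_5_13)
    (by decide +kernel) rfl rfl rfl rfl

lemma pr19_19_5_5 {n : ℕ} (hn : 5 ≤ n) : NoPr ((19 : ℕ) : ℤ) ((19 : ℕ) : ℤ) n 5 5 :=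
  BlkD.of_root (q := 3) (by decide) hn (BlkD.sp 0 5 (BlkD.sp 2 5 (BlkD.sp 0 2 (BlkD.sp 0 1 (n19_19_5_5_1 hn)
    (BlkD.sp 1 17 (BlkD.sp 1 8 (BlkD.sp 1 4 (n19_19_5_5_2 hn)
    (n19_19_5_5_3 hn))
    (n19_19_5_5_4 hn))
    (n19_19_5_5_5 hn)))
    (BlkD.sp 0 4 (BlkD.sp 0 3 (BlkD.sp 1 16 (BlkD.sp 1 8 (BlkD.sp 1 4 (n19_19_5_5_6 hn)
    (n19_19_5_5_7 hn))
    (n19_19_5_5_8 hn))
    (n19_19_5_5_9 hn))
    (n19_19_5_5_10 hn))
    (n19_19_5_5_11 hn)))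
    (n19_19_5_5_12 hn))
    (n19_19_5_5_13 hn))

/-- the numbers of the pair `(6, 0)`, `R = 19`, `H = 19` -/
def d19_19_6_0 : BlkD.Pd :=
  ⟨19, 19, 3, 6, 0, 10, 0, 1, 0, 4, 4, 0, 0, 4, 4, 0, [0, 4, 8, 12, 16, 20, 24, 28, 32, 36, 40],
    [0, 4, 8, 12, 16, 20, 24, 28, 32, 36, 40], [⟨1, 1, 1, 4, 8, [0, 4], [0, 4]⟩]⟩

lemma dk19_19_6_0 : BlkD.pairOk d19_19_6_0 = true := by decide +kernel

/-- the certificates of the part 1 of the pair `(6, 0)` -/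
def t19_19_6_0_1 : BlkD.Tr :=
  .S 0 6 (.S 2 0 (.L 3 3 [4] [] [] 100000 0 0 700000 50000 0 50000 50000 0 0 0) (.E 1)) (.E 0)

lemma n19_19_6_0_1 {n : ℕ} (hn : 5 ≤ n) : NoNd ((19 : ℕ) : ℤ) ((19 : ℕ) : ℤ) n 6 0
    (BlkD.inB (fun _ => 0)
      (fun _ => 19)) :=
  BlkD.part_sound (d := d19_19_6_0) dk19_19_6_0 hn (by decide) (tr := t19_19_6_0_1)
    (by decide +kernel) rfl rfl rfl rfl

lemma pr19_19_6_0 {n : ℕ} (hn : 5 ≤ n) : NoPr ((19 : ℕ) : ℤ) ((19 : ℕ) : ℤ) n 6 0 :=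
  BlkD.of_root (q := 3) (by decide) hn (n19_19_6_0_1 hn)

/-- the numbers of the pair `(6, 1)`, `R = 19`, `H = 19` -/
def d19_19_6_1 : BlkD.Pd :=
  ⟨19, 19, 3, 6, 1, 9, 1, 1, 2, 2, 6, 0, 0, 4, 4, 0, [0, 6, 12, 18, 24, 28, 30, 32, 34, 36], [0, 4,
    8, 12, 16, 20, 24, 28, 32, 36], [⟨1, 1, 1, 4, 8, [0, 4], [0, 4]⟩, ⟨1, 1, 1, 4, 10, [0, 6], [0,
    4]⟩]⟩

lemma dk19_19_6_1 : BlkD.pairOk d19_19_6_1 = true := by decide +kernel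

/-- the certificates of the part 1 of the pair `(6, 1)` -/
def t19_19_6_1_1 : BlkD.Tr :=
  .S 0 6 (.S 2 1 (.L 4 5 [4, 4] [] [] 100000 0 0 866668 33333 0 66667 0 0 0 0) (.E 1)) (.E 0)

lemma n19_19_6_1_1 {n : ℕ} (hn : 5 ≤ n) : NoNd ((19 : ℕ) : ℤ) ((19 : ℕ) : ℤ) n 6 1
    (BlkD.inB (fun _ => 0)
      (fun _ => 19)) :=
  BlkD.part_sound (d := d19_19_6_1) dk19_19_6_1 hn (by decide) (tr := t19_19_6_1_1)
    (by decide +kernel) rfl rfl rfl rfl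

lemma pr19_19_6_1 {n : ℕ} (hn : 5 ≤ n) : NoPr ((19 : ℕ) : ℤ) ((19 : ℕ) : ℤ) n 6 1 :=
  BlkD.of_root (q := 3) (by decide) hn (n19_19_6_1_1 hn)

/-- the numbers of the pair `(6, 2)`, `R = 19`, `H = 19` -/
def d19_19_6_2 : BlkD.Pd :=
  ⟨19, 19, 3, 6, 2, 8, 2, 1, 2, 2, 8, 0, 3, 1, 6, 0, [0, 8, 16, 22, 24, 26, 28, 30, 32], [0, 6, 12,
    17, 20, 23, 26, 29, 32], [⟨1, 1, 1, 4, 8, [0, 4], [0, 4]⟩, ⟨1, 1, 1, 4, 10, [0, 6], [0, 4]⟩,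
    ⟨1, 1, 1, 6, 14, [0, 8], [0, 6]⟩]⟩

lemma dk19_19_6_2 : BlkD.pairOk d19_19_6_2 = true := by decide +kernel

/-- the certificates of the part 1 of the pair `(6, 2)` -/
def t19_19_6_2_1 : BlkD.Tr :=
  .S 0 6 (.S 2 2 (.L 4 6 [4, 4, 4] [] [] 100000 1 1 1055000 11250 0 77500 11250 12500 29167 29167)
    (.E 1)) (.E 0)

lemma n19_19_6_2_1 {n : ℕ} (hn : 5 ≤ n) : NoNd ((19 : ℕ) : ℤ) ((19 : ℕ) : ℤ) n 6 2
    (BlkD.inB (fun _ => 0)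
      (fun _ => 19)) :=
  BlkD.part_sound (d := d19_19_6_2) dk19_19_6_2 hn (by decide) (tr := t19_19_6_2_1)
    (by decide +kernel) rfl rfl rfl rfl

lemma pr19_19_6_2 {n : ℕ} (hn : 5 ≤ n) : NoPr ((19 : ℕ) : ℤ) ((19 : ℕ) : ℤ) n 6 2 :=
  BlkD.of_root (q := 3) (by decide) hn (n19_19_6_2_1 hn)

/-- the numbers of the pair `(6, 3)`, `R = 19`, `H = 19` -/
def d19_19_6_3 : BlkD.Pd :=
  ⟨19, 19, 3, 6, 3, 7, 3, 2, 1, 3, 10, 0, 4, 1, 8, 0, [0, 10, 20, 24, 25, 26, 27, 28], [0, 8, 15,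
    19, 23, 27, 31, 35], [⟨1, 1, 1, 4, 8, [0, 4], [0, 4]⟩, ⟨1, 1, 1, 6, 12, [0, 6], [0, 6]⟩, ⟨1, 1,
    1, 6, 14, [0, 8], [0, 6]⟩, ⟨2, 1, 1, 6, 22, [0, 10, 14], [0, 8]⟩]⟩

lemma dk19_19_6_3 : BlkD.pairOk d19_19_6_3 = true := by decide +kernel

/-- the certificates of the part 1 of the pair `(6, 3)` -/
def t19_19_6_3_1 : BlkD.Tr :=
  .L 5 6 [4, 4, 4, 5] [] [] 100000 95238 95238 600000 100000 0 100000 50000 0 0 14286

lemma n19_19_6_3_1 {n : ℕ} (hn : 5 ≤ n) : NoNd ((19 : ℕ) : ℤ) ((19 : ℕ) : ℤ) n 6 3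
    (BlkD.inB (fun _ => 0)
      (BlkD.upd (BlkD.upd (BlkD.upd (BlkD.upd (fun _ => 19) 0 6) 2 3) 0 3) 0 1)) :=
  BlkD.part_sound (d := d19_19_6_3) dk19_19_6_3 hn (by decide) (tr := t19_19_6_3_1)
    (by decide +kernel) rfl rfl rfl rfl

/-- the certificates of the part 2 of the pair `(6, 3)` -/
def t19_19_6_3_2 : BlkD.Tr :=
  .S 1 17 (.S 1 8 (.S 1 4 (.L 5 6 [4, 4, 4, 5] [] [] 100000 25397 25396 966670 16667 0 16667 66667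
    0 23810 33333) (.S 1 6 (.L 5 7 [4, 4, 4, 4] [] [] 100000 37983 37983 1045239 34921 0 47846
    45238 2154 21429 33333) (.S 1 7 (.L 5 7 [4, 4, 4, 4] [110, 109, 108, 104, 100, 90] [] 100000
    51515 51514 963637 50000 0 68182 50000 0 9091 18182) (.L 5 7 [4, 4, 4, 4] [129, 128, 127, 126,
    122, 118] [] 100000 29012 29011 990741 44444 0 66667 42593 0 12963 22222)))) (.E 0)) (.E 0)

lemma n19_19_6_3_2 {n : ℕ} (hn : 5 ≤ n) : NoNd ((19 : ℕ) : ℤ) ((19 : ℕ) : ℤ) n 6 3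
    (BlkD.inB (BlkD.upd (fun _ => 0) 0 2)
      (BlkD.upd (BlkD.upd (BlkD.upd (BlkD.upd (fun _ => 19) 0 6) 2 3) 0 3) 0 2)) :=
  BlkD.part_sound (d := d19_19_6_3) dk19_19_6_3 hn (by decide) (tr := t19_19_6_3_2)
    (by decide +kernel) rfl rfl rfl rfl

/-- the certificates of the part 3 of the pair `(6, 3)` -/
def t19_19_6_3_3 : BlkD.Tr :=
  .S 1 16 (.S 1 8 (.S 1 4 (.L 5 7 [4, 4, 4, 4] [] [] 100000 25926 25926 1055556 25000 0 25000 44444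
    0 22222 33333) (.S 1 6 (.S 1 5 (.L 5 7 [4, 4, 4, 4] [88, 84, 80, 70, 60, 50] [] 100000 25000
    25000 1075003 33333 0 60526 31140 1754 23246 22807) (.L 5 7 [4, 4, 4, 4] [105, 104, 100, 96,
    86, 76] [] 100000 24883 24883 1087326 30986 0 57746 46479 8451 16901 19718)) (.L 5 7 [4, 4, 4,
    4] [] [] 100000 16512 16512 1119625 935 0 88785 49533 22430 28037 16822))) (.E 0)) (.E 0)

lemma n19_19_6_3_3 {n : ℕ} (hn : 5 ≤ n) : NoNd ((19 : ℕ) : ℤ) ((19 : ℕ) : ℤ) n 6 3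
    (BlkD.inB (BlkD.upd (BlkD.upd (fun _ => 0) 0 2) 0 3)
      (BlkD.upd (BlkD.upd (BlkD.upd (fun _ => 19) 0 6) 2 3) 0 3)) :=
  BlkD.part_sound (d := d19_19_6_3) dk19_19_6_3 hn (by decide) (tr := t19_19_6_3_3)
    (by decide +kernel) rfl rfl rfl rfl

/-- the certificates of the part 4 of the pair `(6, 3)` -/
def t19_19_6_3_4 : BlkD.Tr :=
  .S 0 5 (.S 0 4 (.S 1 15 (.S 1 7 (.S 1 3 (.L 5 7 [4, 4, 4, 4] [] [] 100000 22043 22042 1056608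
    30492 0 75192 51920 5300 28571 33333) (.S 1 5 (.S 1 4 (.L 5 7 [4, 4, 4, 4] [78, 74, 64, 54, 44,
    0] [] 100000 21795 21795 1100000 25000 0 63462 61538 7692 26923 26923) (.L 5 7 [4, 4, 4, 4]
    [98, 94, 90, 80, 70, 60] [] 100000 21022 21022 1086846 23684 0 71051 35526 14802 22134 14385))
    (.L 5 7 [4, 4, 4, 4] [] [] 100000 50000 0 750000 0 0 150000 100000 0 0 0))) (.E 0)) (.E 0)) (.L
    5 7 [4, 4, 4, 4] [] [] 100000 19495 19495 1119179 0 0 80821 80821 12944 28571 16022)) (.L 5 7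
    [4, 4, 4, 4] [] [] 100000 0 0 1105884 0 0 64706 33333 70588 29412 35294)

lemma n19_19_6_3_4 {n : ℕ} (hn : 5 ≤ n) : NoNd ((19 : ℕ) : ℤ) ((19 : ℕ) : ℤ) n 6 3
    (BlkD.inB (BlkD.upd (fun _ => 0) 0 4)
      (BlkD.upd (BlkD.upd (fun _ => 19) 0 6) 2 3)) :=
  BlkD.part_sound (d := d19_19_6_3) dk19_19_6_3 hn (by decide) (tr := t19_19_6_3_4)
    (by decide +kernel) rfl rfl rfl rfl

/-- the certificates of the part 5 of the pair `(6, 3)` -/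
def t19_19_6_3_5 : BlkD.Tr :=
  .E 1

lemma n19_19_6_3_5 {n : ℕ} (hn : 5 ≤ n) : NoNd ((19 : ℕ) : ℤ) ((19 : ℕ) : ℤ) n 6 3
    (BlkD.inB (BlkD.upd (fun _ => 0) 2 4)
      (BlkD.upd (fun _ => 19) 0 6)) :=
  BlkD.part_sound (d := d19_19_6_3) dk19_19_6_3 hn (by decide) (tr := t19_19_6_3_5)
    (by decide +kernel) rfl rfl rfl rfl

/-- the certificates of the part 6 of the pair `(6, 3)` -/
def t19_19_6_3_6 : BlkD.Tr :=
  .E 0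

lemma n19_19_6_3_6 {n : ℕ} (hn : 5 ≤ n) : NoNd ((19 : ℕ) : ℤ) ((19 : ℕ) : ℤ) n 6 3
    (BlkD.inB (BlkD.upd (fun _ => 0) 0 7)
      (fun _ => 19)) :=
  BlkD.part_sound (d := d19_19_6_3) dk19_19_6_3 hn (by decide) (tr := t19_19_6_3_6)
    (by decide +kernel) rfl rfl rfl rfl

lemma pr19_19_6_3 {n : ℕ} (hn : 5 ≤ n) : NoPr ((19 : ℕ) : ℤ) ((19 : ℕ) : ℤ) n 6 3 :=
  BlkD.of_root (q := 3) (by decide) hn (BlkD.sp 0 6 (BlkD.sp 2 3 (BlkD.sp 0 3 (BlkD.sp 0 1 (n19_19_6_3_1 hn)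
    (BlkD.sp 0 2 (n19_19_6_3_2 hn)
    (n19_19_6_3_3 hn)))
    (n19_19_6_3_4 hn))
    (n19_19_6_3_5 hn))
    (n19_19_6_3_6 hn))

/-- the numbers of the pair `(6, 4)`, `R = 19`, `H = 19` -/
def d19_19_6_4 : BlkD.Pd :=
  ⟨19, 19, 3, 6, 4, 6, 3, 2, 1, 3, 10, 0, 2, 2, 8, 0, [0, 10, 20, 21, 22, 23, 24], [0, 8, 16, 18,
    20, 22, 24], [⟨1, 1, 1, 4, 8, [0, 4], [0, 4]⟩, ⟨1, 1, 1, 4, 12, [0, 6], [0, 6]⟩, ⟨1, 1, 1, 4,
    16, [0, 8], [0, 8]⟩, ⟨2, 1, 1, 4, 22, [0, 10, 14], [0, 8]⟩]⟩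

lemma dk19_19_6_4 : BlkD.pairOk d19_19_6_4 = true := by decide +kernel

/-- the certificates of the part 1 of the pair `(6, 4)` -/
def t19_19_6_4_1 : BlkD.Tr :=
  .L 5 6 [4, 4, 4, 5, 19] [] [] 100000 88889 88889 800000 100000 0 100000 50000 0 0 33333

lemma n19_19_6_4_1 {n : ℕ} (hn : 5 ≤ n) : NoNd ((19 : ℕ) : ℤ) ((19 : ℕ) : ℤ) n 6 4
    (BlkD.inB (fun _ => 0)
      (BlkD.upd (BlkD.upd (BlkD.upd (BlkD.upd (fun _ => 19) 0 6) 2 4) 0 3) 0 1)) :=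
  BlkD.part_sound (d := d19_19_6_4) dk19_19_6_4 hn (by decide) (tr := t19_19_6_4_1)
    (by decide +kernel) rfl rfl rfl rfl

/-- the certificates of the part 2 of the pair `(6, 4)` -/
def t19_19_6_4_2 : BlkD.Tr :=
  .S 1 17 (.S 1 8 (.S 1 4 (.L 5 6 [4, 4, 4, 5, 19] [] [] 100000 24243 24243 1163638 18182 0 18182
    54545 0 27273 27273) (.S 1 6 (.S 1 5 (.L 5 6 [4, 4, 4, 5, 19] [83, 82, 72, 62, 52, 40] []
    100000 25000 25000 1200000 25000 0 50000 50000 0 25000 25000) (.L 5 6 [4, 4, 4, 5, 19] [98, 97,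
    96, 86, 76, 66] [] 100000 39583 39582 1175000 37500 0 56250 56250 0 18750 25000)) (.S 1 7 (.S 2
    2 (.L 5 6 [4, 4, 4, 5, 19] [115, 114, 113, 112, 102, 92] [] 100000 69048 69048 1078572 50000
    14286 78571 71429 0 7143 10714) (.L 5 6 [4, 4, 4, 5, 19] [115, 114, 113, 112, 102, 92] []
    100000 50000 50000 1100000 50000 0 75000 50000 0 0 25000)) (.L 5 6 [4, 4, 4, 5, 19] [134, 133,
    132, 131, 130, 120] [] 100000 71875 71875 1003125 65625 0 100000 50000 0 0 15625)))) (.L 5 6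
    [4, 4, 4, 5, 19] [] [] 100000 125000 0 450000 50000 0 225000 50000 0 8333 41667)) (.E 0)

lemma n19_19_6_4_2 {n : ℕ} (hn : 5 ≤ n) : NoNd ((19 : ℕ) : ℤ) ((19 : ℕ) : ℤ) n 6 4
    (BlkD.inB (BlkD.upd (fun _ => 0) 0 2)
      (BlkD.upd (BlkD.upd (BlkD.upd (BlkD.upd (fun _ => 19) 0 6) 2 4) 0 3) 0 2)) :=
  BlkD.part_sound (d := d19_19_6_4) dk19_19_6_4 hn (by decide) (tr := t19_19_6_4_2)
    (by decide +kernel) rfl rfl rfl rfl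

/-- the certificates of the part 3 of the pair `(6, 4)` -/
def t19_19_6_4_3 : BlkD.Tr :=
  .S 1 2 (.L 5 6 [4, 4, 4, 5, 19] [] [] 100000 33333 33332 1100000 0 0 0 50000 0 0 0) (.S 1 3 (.L 5
    6 [4, 4, 4, 5, 19] [56, 46, 36, 24, 0, 0] [] 100000 23810 23809 1171428 9524 9524 19048 71429 0
    28571 33333) (.S 2 2 (.S 2 1 (.L 5 6 [4, 4, 4, 5, 19] [78, 68, 58, 48, 36, 0] [] 100000 50000
    50000 1100000 25000 50000 50000 75000 0 0 25000) (.S 3 10 (.S 3 5 (.S 3 2 (.L 5 6 [4, 4, 4, 5,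
    19] [78, 68, 58, 48, 36, 0] [] 100000 33333 33332 1100000 0 0 0 0 0 0 0) (.S 3 4 (.S 3 3 (.L 5
    6 [4, 4, 4, 5, 19] [78, 68, 58, 48, 36, 0] [48, 40, 30, 18, 0, 0] 100000 33334 33334 1157895
    21053 10526 31579 21053 0 0 15789) (.L 7 7 [4, 5, 3, 4, 19] [78, 68, 58, 48, 36, 0] [66, 58,
    50, 40, 28, 0] 100000 26882 26882 1206452 22581 12903 45161 45161 0 19355 19355)) (.L 7 7 [4,
    5, 3, 4, 19] [78, 68, 58, 48, 36, 0] [80, 78, 70, 62, 52, 40] 100000 33333 33332 1111112 22222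
    0 44444 100000 0 0 11111))) (.E 1)) (.E 1))) (.L 5 6 [4, 4, 4, 5, 19] [78, 68, 58, 48, 36, 0]
    [] 100000 33333 33332 1166668 33333 0 66667 33333 0 33333 33333)))

lemma n19_19_6_4_3 {n : ℕ} (hn : 5 ≤ n) : NoNd ((19 : ℕ) : ℤ) ((19 : ℕ) : ℤ) n 6 4
    (BlkD.inB (BlkD.upd (BlkD.upd (fun _ => 0) 0 2) 0 3)
      (BlkD.upd (BlkD.upd (BlkD.upd (BlkD.upd (BlkD.upd (BlkD.upd (fun _ => 19) 0 6) 2 4) 0 3) 1 16) 1 8) 1 4)) :=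
  BlkD.part_sound (d := d19_19_6_4) dk19_19_6_4 hn (by decide) (tr := t19_19_6_4_3)
    (by decide +kernel) rfl rfl rfl rfl

/-- the certificates of the part 4 of the pair `(6, 4)` -/
def t19_19_6_4_4 : BlkD.Tr :=
  .S 1 6 (.S 1 5 (.S 2 2 (.S 2 1 (.L 5 6 [4, 4, 4, 5, 19] [93, 92, 82, 72, 62, 50] [] 100000 57843
    57842 1082353 29412 52941 64706 73529 0 0 32353) (.S 3 9 (.S 3 4 (.S 3 2 (.L 5 6 [4, 4, 4, 5,
    19] [93, 92, 82, 72, 62, 50] [] 100000 32110 32110 1159634 22018 9174 31193 27523 0 3670 15596)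
    (.S 3 3 (.L 4 5 [4, 4, 5, 6, 19] [93, 92, 82, 72, 62, 50] [48, 40, 30, 18, 0, 0] 100000 30371
    30371 1193334 26667 0 57778 53333 0 17778 28889) (.L 4 5 [4, 4, 5, 6, 19] [93, 92, 82, 72, 62,
    50] [66, 58, 50, 40, 28, 0] 100000 50667 50667 1144000 40000 0 96000 40000 4000 30000 30000)))
    (.L 4 5 [4, 4, 5, 6, 19] [93, 92, 82, 72, 62, 50] [] 100000 33333 33332 1100000 0 0 100000
    100000 0 0 0)) (.E 1))) (.L 4 5 [4, 4, 5, 6, 19] [93, 92, 82, 72, 62, 50] [] 100000 33333 33332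
    1166669 33333 0 66667 33333 0 33333 33333)) (.S 2 2 (.S 2 1 (.L 4 5 [4, 4, 5, 6, 19] [110, 109,
    108, 98, 88, 78] [] 100000 64855 64855 1070655 39130 40217 71739 66304 1087 0 20652) (.L 5 6
    [4, 4, 4, 5, 19] [110, 109, 108, 98, 88, 78] [] 100000 28739 28739 1210024 30326 2757 65915
    57895 2005 11779 32080)) (.L 5 6 [4, 4, 4, 5, 19] [110, 109, 108, 98, 88, 78] [] 100000 17007
    17006 1234693 26531 0 59184 53061 8163 40816 32653))) (.S 1 7 (.L 5 6 [4, 4, 4, 5, 19] [129,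
    128, 127, 126, 116, 106] [] 100000 33334 33334 1168422 36842 0 84211 44737 2632 10526 31579)
    (.E 0))

lemma n19_19_6_4_4 {n : ℕ} (hn : 5 ≤ n) : NoNd ((19 : ℕ) : ℤ) ((19 : ℕ) : ℤ) n 6 4
    (BlkD.inB (BlkD.upd (BlkD.upd (BlkD.upd (fun _ => 0) 0 2) 0 3) 1 5)
      (BlkD.upd (BlkD.upd (BlkD.upd (BlkD.upd (BlkD.upd (fun _ => 19) 0 6) 2 4) 0 3) 1 16) 1 8)) :=
  BlkD.part_sound (d := d19_19_6_4) dk19_19_6_4 hn (by decide) (tr := t19_19_6_4_4)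
    (by decide +kernel) rfl rfl rfl rfl

/-- the certificates of the part 5 of the pair `(6, 4)` -/
def t19_19_6_4_5 : BlkD.Tr :=
  .E 0

lemma n19_19_6_4_5 {n : ℕ} (hn : 5 ≤ n) : NoNd ((19 : ℕ) : ℤ) ((19 : ℕ) : ℤ) n 6 4
    (BlkD.inB (BlkD.upd (BlkD.upd (BlkD.upd (fun _ => 0) 0 2) 0 3) 1 9)
      (BlkD.upd (BlkD.upd (BlkD.upd (BlkD.upd (fun _ => 19) 0 6) 2 4) 0 3) 1 16)) :=
  BlkD.part_sound (d := d19_19_6_4) dk19_19_6_4 hn (by decide) (tr := t19_19_6_4_5)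
    (by decide +kernel) rfl rfl rfl rfl

/-- the certificates of the part 6 of the pair `(6, 4)` -/
def t19_19_6_4_6 : BlkD.Tr :=
  .E 0

lemma n19_19_6_4_6 {n : ℕ} (hn : 5 ≤ n) : NoNd ((19 : ℕ) : ℤ) ((19 : ℕ) : ℤ) n 6 4
    (BlkD.inB (BlkD.upd (BlkD.upd (BlkD.upd (fun _ => 0) 0 2) 0 3) 1 17)
      (BlkD.upd (BlkD.upd (BlkD.upd (fun _ => 19) 0 6) 2 4) 0 3)) :=
  BlkD.part_sound (d := d19_19_6_4) dk19_19_6_4 hn (by decide) (tr := t19_19_6_4_6)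
    (by decide +kernel) rfl rfl rfl rfl

/-- the certificates of the part 7 of the pair `(6, 4)` -/
def t19_19_6_4_7 : BlkD.Tr :=
  .S 1 15 (.S 1 7 (.S 1 3 (.L 5 6 [4, 4, 4, 5, 19] [] [] 100000 21124 21124 1229985 23119 659 84459
    68699 5327 31301 33333) (.S 1 5 (.S 1 4 (.S 2 2 (.S 2 1 (.L 5 6 [4, 4, 4, 5, 19] [86, 76, 66,
    56, 44, 0] [] 100000 42857 42856 1128572 17143 60000 68571 68571 0 0 34286) (.S 3 9 (.S 3 4 (.S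
    3 2 (.L 5 6 [4, 4, 4, 5, 19] [86, 76, 66, 56, 44, 0] [] 100000 28334 28334 1190000 20000 10000
    45000 40000 5000 10000 13333) (.S 3 3 (.L 5 6 [4, 4, 4, 5, 19] [86, 76, 66, 56, 44, 0] [48, 40,
    30, 18, 0, 0] 100000 23333 23332 1225002 25000 0 83333 51667 6667 23333 33333) (.L 5 6 [4, 4,
    4, 5, 19] [86, 76, 66, 56, 44, 0] [66, 58, 50, 40, 28, 0] 100000 21569 21569 1223530 29412 0
    88235 29412 11765 41176 29412))) (.L 5 6 [4, 4, 4, 5, 19] [86, 76, 66, 56, 44, 0] [] 100000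
    33333 33332 1100000 0 0 100000 100000 0 0 0)) (.E 1))) (.L 5 6 [4, 4, 4, 5, 19] [86, 76, 66,
    56, 44, 0] [] 100000 16667 16667 1237500 25000 0 81250 37500 12500 37500 31250)) (.S 2 2 (.L 5
    6 [4, 4, 4, 5, 19] [103, 102, 92, 82, 72, 60] [] 100000 29303 29303 1211767 25490 11765 70588
    44118 3922 8170 29412) (.L 5 6 [4, 4, 4, 5, 19] [103, 102, 92, 82, 72, 60] [] 100000 20988
    20988 1207408 22222 0 74074 48148 0 37037 37037))) (.L 5 6 [4, 4, 4, 5, 19] [] [] 100000 28736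
    28735 1182758 8621 0 100000 31897 8621 13793 43103))) (.E 0)) (.E 0)

lemma n19_19_6_4_7 {n : ℕ} (hn : 5 ≤ n) : NoNd ((19 : ℕ) : ℤ) ((19 : ℕ) : ℤ) n 6 4
    (BlkD.inB (BlkD.upd (fun _ => 0) 0 4)
      (BlkD.upd (BlkD.upd (BlkD.upd (BlkD.upd (fun _ => 19) 0 6) 2 4) 0 5) 0 4)) :=
  BlkD.part_sound (d := d19_19_6_4) dk19_19_6_4 hn (by decide) (tr := t19_19_6_4_7)
    (by decide +kernel) rfl rfl rfl rfl

/-- the certificates of the part 8 of the pair `(6, 4)` -/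
def t19_19_6_4_8 : BlkD.Tr :=
  .S 1 14 (.S 1 7 (.S 1 3 (.S 1 1 (.L 5 6 [4, 4, 4, 5, 19] [] [] 100000 23457 23457 1177780 22222
    11111 22222 70370 0 29630 33333) (.S 1 2 (.L 5 6 [4, 4, 4, 5, 19] [44, 34, 22, 0, 0, 0] []
    100000 21297 21297 1216667 40972 1389 80556 79167 19444 16667 31944) (.L 5 6 [4, 4, 4, 5, 19]
    [68, 58, 48, 36, 0, 0] [] 100000 23021 23021 1200798 24551 6587 84032 50100 16966 13972
    35928))) (.L 5 6 [4, 4, 4, 5, 19] [] [] 100000 21619 21618 1200420 3975 5649 89958 34937 20084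
    15063 42469)) (.E 0)) (.E 0)

lemma n19_19_6_4_8 {n : ℕ} (hn : 5 ≤ n) : NoNd ((19 : ℕ) : ℤ) ((19 : ℕ) : ℤ) n 6 4
    (BlkD.inB (BlkD.upd (BlkD.upd (fun _ => 0) 0 4) 0 5)
      (BlkD.upd (BlkD.upd (BlkD.upd (fun _ => 19) 0 6) 2 4) 0 5)) :=
  BlkD.part_sound (d := d19_19_6_4) dk19_19_6_4 hn (by decide) (tr := t19_19_6_4_8)
    (by decide +kernel) rfl rfl rfl rfl

/-- the certificates of the part 9 of the pair `(6, 4)` -/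
def t19_19_6_4_9 : BlkD.Tr :=
  .L 5 6 [4, 4, 4, 5, 19] [] [] 100000 0 0 1238463 0 12179 49359 52564 76923 23077 25641

lemma n19_19_6_4_9 {n : ℕ} (hn : 5 ≤ n) : NoNd ((19 : ℕ) : ℤ) ((19 : ℕ) : ℤ) n 6 4
    (BlkD.inB (BlkD.upd (BlkD.upd (fun _ => 0) 0 4) 0 6)
      (BlkD.upd (BlkD.upd (fun _ => 19) 0 6) 2 4)) :=
  BlkD.part_sound (d := d19_19_6_4) dk19_19_6_4 hn (by decide) (tr := t19_19_6_4_9)
    (by decide +kernel) rfl rfl rfl rfl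

/-- the certificates of the part 10 of the pair `(6, 4)` -/
def t19_19_6_4_10 : BlkD.Tr :=
  .E 1

lemma n19_19_6_4_10 {n : ℕ} (hn : 5 ≤ n) : NoNd ((19 : ℕ) : ℤ) ((19 : ℕ) : ℤ) n 6 4
    (BlkD.inB (BlkD.upd (fun _ => 0) 2 5)
      (BlkD.upd (fun _ => 19) 0 6)) :=
  BlkD.part_sound (d := d19_19_6_4) dk19_19_6_4 hn (by decide) (tr := t19_19_6_4_10)
    (by decide +kernel) rfl rfl rfl rfl

/-- the certificates of the part 11 of the pair `(6, 4)` -/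
def t19_19_6_4_11 : BlkD.Tr :=
  .E 0

lemma n19_19_6_4_11 {n : ℕ} (hn : 5 ≤ n) : NoNd ((19 : ℕ) : ℤ) ((19 : ℕ) : ℤ) n 6 4
    (BlkD.inB (BlkD.upd (fun _ => 0) 0 7)
      (fun _ => 19)) :=
  BlkD.part_sound (d := d19_19_6_4) dk19_19_6_4 hn (by decide) (tr := t19_19_6_4_11)
    (by decide +kernel) rfl rfl rfl rfl

lemma pr19_19_6_4 {n : ℕ} (hn : 5 ≤ n) : NoPr ((19 : ℕ) : ℤ) ((19 : ℕ) : ℤ) n 6 4 :=
  BlkD.of_root (q := 3) (by decide) hn (BlkD.sp 0 6 (BlkD.sp 2 4 (BlkD.sp 0 3 (BlkD.sp 0 1 (n19_19_6_4_1 hn)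
    (BlkD.sp 0 2 (n19_19_6_4_2 hn)
    (BlkD.sp 1 16 (BlkD.sp 1 8 (BlkD.sp 1 4 (n19_19_6_4_3 hn)
    (n19_19_6_4_4 hn))
    (n19_19_6_4_5 hn))
    (n19_19_6_4_6 hn))))
    (BlkD.sp 0 5 (BlkD.sp 0 4 (n19_19_6_4_7 hn)
    (n19_19_6_4_8 hn))
    (n19_19_6_4_9 hn)))
    (n19_19_6_4_10 hn))
    (n19_19_6_4_11 hn))

/-- the numbers of the pair `(6, 5)`, `R = 19`, `H = 19` -/
def d19_19_6_5 : BlkD.Pd :=
  ⟨19, 19, 3, 6, 5, 5, 2, 3, 2, 2, 8, 0, 2, 2, 8, 0, [0, 8, 14, 16, 18, 20], [0, 8, 14, 16, 18,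
    20], [⟨1, 1, 1, 4, 8, [0, 4], [0, 4]⟩, ⟨1, 1, 1, 4, 12, [0, 6], [0, 6]⟩, ⟨1, 1, 1, 4, 16, [0,
    8], [0, 8]⟩]⟩

lemma dk19_19_6_5 : BlkD.pairOk d19_19_6_5 = true := by decide +kernel

/-- the certificates of the part 1 of the pair `(6, 5)` -/
def t19_19_6_5_1 : BlkD.Tr :=
  .L 5 6 [4, 4, 4, 19, 19, 19] [] [] 100000 48386 48386 1129036 61290 9677 80645 45161 0 0 0

lemma n19_19_6_5_1 {n : ℕ} (hn : 5 ≤ n) : NoNd ((19 : ℕ) : ℤ) ((19 : ℕ) : ℤ) n 6 5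
    (BlkD.inB (fun _ => 0)
      (BlkD.upd (BlkD.upd (BlkD.upd (BlkD.upd (fun _ => 19) 0 6) 2 5) 0 3) 0 1)) :=
  BlkD.part_sound (d := d19_19_6_5) dk19_19_6_5 hn (by decide) (tr := t19_19_6_5_1)
    (by decide +kernel) rfl rfl rfl rfl

/-- the certificates of the part 2 of the pair `(6, 5)` -/
def t19_19_6_5_2 : BlkD.Tr :=
  .S 1 17 (.S 1 8 (.S 1 4 (.L 5 6 [4, 4, 4, 19, 19, 19] [] [] 100000 7143 7143 1314288 28571 0
    28571 50000 0 14286 7143) (.S 1 6 (.L 5 6 [4, 4, 4, 19, 19, 19] [] [] 100000 49167 49167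
    1300001 50000 0 56667 50000 1667 8333 8333) (.S 1 7 (.L 5 6 [4, 4, 4, 19, 19, 19] [118, 116,
    114, 108, 100, 92] [] 100000 10000 10000 1366668 33333 0 66667 50000 0 13333 30000) (.L 5 6 [4,
    4, 4, 19, 19, 19] [138, 136, 134, 132, 126, 118] [] 100000 33334 33334 1250001 50000 0 100000
    33333 0 0 16667)))) (.L 5 6 [4, 4, 4, 19, 19, 19] [] [] 100000 14286 0 1228573 28571 0 114286
    28571 0 0 14286)) (.E 0)

lemma n19_19_6_5_2 {n : ℕ} (hn : 5 ≤ n) : NoNd ((19 : ℕ) : ℤ) ((19 : ℕ) : ℤ) n 6 5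
    (BlkD.inB (BlkD.upd (fun _ => 0) 0 2)
      (BlkD.upd (BlkD.upd (BlkD.upd (BlkD.upd (fun _ => 19) 0 6) 2 5) 0 3) 0 2)) :=
  BlkD.part_sound (d := d19_19_6_5) dk19_19_6_5 hn (by decide) (tr := t19_19_6_5_2)
    (by decide +kernel) rfl rfl rfl rfl

/-- the certificates of the part 3 of the pair `(6, 5)` -/
def t19_19_6_5_3 : BlkD.Tr :=
  .S 1 2 (.L 5 6 [4, 4, 4, 19, 19, 19] [] [] 100000 0 0 1300000 0 0 0 50000 0 0 0) (.S 1 3 (.L 5 6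
    [4, 4, 4, 19, 19, 19] [54, 46, 36, 24, 0, 0] [] 100000 13014 13014 1290412 32877 5479 65753
    65753 0 6849 3425) (.S 2 2 (.L 5 6 [4, 4, 4, 19, 19, 19] [74, 66, 58, 48, 36, 0] [] 100000
    41666 41666 1233336 33333 33333 66667 66667 0 0 16667) (.L 5 6 [4, 4, 4, 19, 19, 19] [74, 66,
    58, 48, 36, 0] [] 100000 1517 1517 1351517 18182 6061 50000 69697 0 15152 7576)))

lemma n19_19_6_5_3 {n : ℕ} (hn : 5 ≤ n) : NoNd ((19 : ℕ) : ℤ) ((19 : ℕ) : ℤ) n 6 5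
    (BlkD.inB (BlkD.upd (BlkD.upd (fun _ => 0) 0 2) 0 3)
      (BlkD.upd (BlkD.upd (BlkD.upd (BlkD.upd (BlkD.upd (BlkD.upd (fun _ => 19) 0 6) 2 5) 0 3) 1 16) 1 8) 1 4)) :=
  BlkD.part_sound (d := d19_19_6_5) dk19_19_6_5 hn (by decide) (tr := t19_19_6_5_3)
    (by decide +kernel) rfl rfl rfl rfl

/-- the certificates of the part 4 of the pair `(6, 5)` -/
def t19_19_6_5_4 : BlkD.Tr :=
  .S 1 6 (.S 1 5 (.L 5 6 [4, 4, 4, 19, 19, 19] [94, 88, 80, 72, 62, 50] [] 100000 9575 9575 1377660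
    24468 0 74468 73404 0 5319 26596) (.S 2 2 (.L 5 6 [4, 4, 4, 19, 19, 19] [112, 110, 104, 96, 88,
    78] [] 100000 53174 53174 1233335 38095 38095 77778 58730 3704 1058 20635) (.L 5 6 [4, 4, 4,
    19, 19, 19] [112, 110, 104, 96, 88, 78] [] 100000 7693 7693 1346155 30769 0 61538 61538 7692
    7692 30769))) (.L 5 6 [4, 4, 4, 19, 19, 19] [] [] 100000 4167 4167 1375001 8333 0 100000 91667
    0 0 33333)

lemma n19_19_6_5_4 {n : ℕ} (hn : 5 ≤ n) : NoNd ((19 : ℕ) : ℤ) ((19 : ℕ) : ℤ) n 6 5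
    (BlkD.inB (BlkD.upd (BlkD.upd (BlkD.upd (fun _ => 0) 0 2) 0 3) 1 5)
      (BlkD.upd (BlkD.upd (BlkD.upd (BlkD.upd (BlkD.upd (fun _ => 19) 0 6) 2 5) 0 3) 1 16) 1 8)) :=
  BlkD.part_sound (d := d19_19_6_5) dk19_19_6_5 hn (by decide) (tr := t19_19_6_5_4)
    (by decide +kernel) rfl rfl rfl rfl

/-- the certificates of the part 5 of the pair `(6, 5)` -/
def t19_19_6_5_5 : BlkD.Tr :=
  .E 0

lemma n19_19_6_5_5 {n : ℕ} (hn : 5 ≤ n) : NoNd ((19 : ℕ) : ℤ) ((19 : ℕ) : ℤ) n 6 5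
    (BlkD.inB (BlkD.upd (BlkD.upd (BlkD.upd (fun _ => 0) 0 2) 0 3) 1 9)
      (BlkD.upd (BlkD.upd (BlkD.upd (BlkD.upd (fun _ => 19) 0 6) 2 5) 0 3) 1 16)) :=
  BlkD.part_sound (d := d19_19_6_5) dk19_19_6_5 hn (by decide) (tr := t19_19_6_5_5)
    (by decide +kernel) rfl rfl rfl rfl

/-- the certificates of the part 6 of the pair `(6, 5)` -/
def t19_19_6_5_6 : BlkD.Tr :=
  .E 0

lemma n19_19_6_5_6 {n : ℕ} (hn : 5 ≤ n) : NoNd ((19 : ℕ) : ℤ) ((19 : ℕ) : ℤ) n 6 5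
    (BlkD.inB (BlkD.upd (BlkD.upd (BlkD.upd (fun _ => 0) 0 2) 0 3) 1 17)
      (BlkD.upd (BlkD.upd (BlkD.upd (fun _ => 19) 0 6) 2 5) 0 3)) :=
  BlkD.part_sound (d := d19_19_6_5) dk19_19_6_5 hn (by decide) (tr := t19_19_6_5_6)
    (by decide +kernel) rfl rfl rfl rfl

/-- the certificates of the part 7 of the pair `(6, 5)` -/
def t19_19_6_5_7 : BlkD.Tr :=
  .S 0 4 (.S 1 15 (.S 1 7 (.S 1 3 (.L 5 6 [4, 4, 4, 19, 19, 19] [] [] 100000 3226 3226 1351614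
    19355 9677 80645 51613 0 12903 12903) (.S 1 5 (.S 1 4 (.S 2 2 (.L 5 6 [4, 4, 4, 19, 19, 19]
    [82, 74, 66, 56, 44, 0] [] 100000 15081 15081 1323809 14286 39683 52381 58730 3175 6349 3175)
    (.L 5 6 [4, 4, 4, 19, 19, 19] [82, 74, 66, 56, 44, 0] [] 100000 2 2 1372851 13575 9050 55204
    72851 3620 9955 14027)) (.L 5 6 [4, 4, 4, 19, 19, 19] [104, 98, 90, 82, 72, 60] [] 100000 2 2
    1374404 13393 8929 76488 67560 10119 3571 28869)) (.L 5 6 [4, 4, 4, 19, 19, 19] [] [] 100000 0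
    0 1300000 0 0 100000 100000 0 0 0))) (.E 0)) (.E 0)) (.L 5 6 [4, 4, 4, 19, 19, 19] [] [] 100000
    1 1 1391669 4167 8333 75000 66667 4167 4167 25000)

lemma n19_19_6_5_7 {n : ℕ} (hn : 5 ≤ n) : NoNd ((19 : ℕ) : ℤ) ((19 : ℕ) : ℤ) n 6 5
    (BlkD.inB (BlkD.upd (fun _ => 0) 0 4)
      (BlkD.upd (BlkD.upd (BlkD.upd (fun _ => 19) 0 6) 2 5) 0 5)) :=
  BlkD.part_sound (d := d19_19_6_5) dk19_19_6_5 hn (by decide) (tr := t19_19_6_5_7)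
    (by decide +kernel) rfl rfl rfl rfl

/-- the certificates of the part 8 of the pair `(6, 5)` -/
def t19_19_6_5_8 : BlkD.Tr :=
  .L 5 6 [4, 4, 4, 19, 19, 19] [] [] 100000 0 0 1336364 0 21212 63636 63636 33333 6061 33333

lemma n19_19_6_5_8 {n : ℕ} (hn : 5 ≤ n) : NoNd ((19 : ℕ) : ℤ) ((19 : ℕ) : ℤ) n 6 5
    (BlkD.inB (BlkD.upd (BlkD.upd (fun _ => 0) 0 4) 0 6)
      (BlkD.upd (BlkD.upd (fun _ => 19) 0 6) 2 5)) :=
  BlkD.part_sound (d := d19_19_6_5) dk19_19_6_5 hn (by decide) (tr := t19_19_6_5_8)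
    (by decide +kernel) rfl rfl rfl rfl

/-- the certificates of the part 9 of the pair `(6, 5)` -/
def t19_19_6_5_9 : BlkD.Tr :=
  .E 1

lemma n19_19_6_5_9 {n : ℕ} (hn : 5 ≤ n) : NoNd ((19 : ℕ) : ℤ) ((19 : ℕ) : ℤ) n 6 5
    (BlkD.inB (BlkD.upd (fun _ => 0) 2 6)
      (BlkD.upd (fun _ => 19) 0 6)) :=
  BlkD.part_sound (d := d19_19_6_5) dk19_19_6_5 hn (by decide) (tr := t19_19_6_5_9)
    (by decide +kernel) rfl rfl rfl rfl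

/-- the certificates of the part 10 of the pair `(6, 5)` -/
def t19_19_6_5_10 : BlkD.Tr :=
  .E 0

lemma n19_19_6_5_10 {n : ℕ} (hn : 5 ≤ n) : NoNd ((19 : ℕ) : ℤ) ((19 : ℕ) : ℤ) n 6 5
    (BlkD.inB (BlkD.upd (fun _ => 0) 0 7)
      (fun _ => 19)) :=
  BlkD.part_sound (d := d19_19_6_5) dk19_19_6_5 hn (by decide) (tr := t19_19_6_5_10)
    (by decide +kernel) rfl rfl rfl rfl

lemma pr19_19_6_5 {n : ℕ} (hn : 5 ≤ n) : NoPr ((19 : ℕ) : ℤ) ((19 : ℕ) : ℤ) n 6 5 :=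
  BlkD.of_root (q := 3) (by decide) hn (BlkD.sp 0 6 (BlkD.sp 2 5 (BlkD.sp 0 3 (BlkD.sp 0 1 (n19_19_6_5_1 hn)
    (BlkD.sp 0 2 (n19_19_6_5_2 hn)
    (BlkD.sp 1 16 (BlkD.sp 1 8 (BlkD.sp 1 4 (n19_19_6_5_3 hn)
    (n19_19_6_5_4 hn))
    (n19_19_6_5_5 hn))
    (n19_19_6_5_6 hn))))
    (BlkD.sp 0 5 (n19_19_6_5_7 hn)
    (n19_19_6_5_8 hn)))
    (n19_19_6_5_9 hn))
    (n19_19_6_5_10 hn))

end BlkC

end Pool.Agent.Lib.MP_f04ccf_co
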