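import Pool.Agent.Lib.MP_f04ccf_co.M.BlkTp

/-!
MP_f04ccf_co, block certificate, data `R = 19`, `H = 19`, part 3 (certificates: helper99, bd9.cpp).
-/

set_option autoImplicit false
set_option maxRecDepth 100000

namespace Pool.Agent.Lib.MP_f04ccf_co

namespace BlkC

/-- the numbers of the pair `(6, 6)`, `R = 19`, `H = 19` -/
def d19_19_6_6 : BlkD.Pd :=
  ⟨19, 19, 3, 6, 6, 4, 1, 3, 2, 2, 6, 0, 2, 2, 6, 0, [0, 6, 12, 14, 16], [0, 6, 12, 14, 16], [⟨1,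
    1, 1, 4, 8, [0, 4], [0, 4]⟩, ⟨1, 1, 1, 4, 12, [0, 6], [0, 6]⟩]⟩

lemma dk19_19_6_6 : BlkD.pairOk d19_19_6_6 = true := by decide +kernel

/-- the certificates of the part 1 of the pair `(6, 6)` -/
def t19_19_6_6_1 : BlkD.Tr :=
  .L 6 6 [4, 3, 19, 19, 19, 19, 19] [] [] 100000 1 1 1433333 66667 66667 66667 66667 0 0 0

lemma n19_19_6_6_1 {n : ℕ} (hn : 5 ≤ n) : NoNd ((19 : ℕ) : ℤ) ((19 : ℕ) : ℤ) n 6 6
    (BlkD.inB (fun _ => 0)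
      (BlkD.upd (BlkD.upd (BlkD.upd (BlkD.upd (fun _ => 19) 0 6) 2 6) 0 3) 0 1)) :=
  BlkD.part_sound (d := d19_19_6_6) dk19_19_6_6 hn (by decide) (tr := t19_19_6_6_1)
    (by decide +kernel) rfl rfl rfl rfl

/-- the certificates of the part 2 of the pair `(6, 6)` -/
def t19_19_6_6_2 : BlkD.Tr :=
  .L 6 6 [4, 3, 19, 19, 19, 19, 19] [] [] 100000 1 1 1433333 66667 66667 66667 66667 0 0 0

lemma n19_19_6_6_2 {n : ℕ} (hn : 5 ≤ n) : NoNd ((19 : ℕ) : ℤ) ((19 : ℕ) : ℤ) n 6 6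
    (BlkD.inB (BlkD.upd (fun _ => 0) 0 2)
      (BlkD.upd (BlkD.upd (BlkD.upd (fun _ => 19) 0 6) 2 6) 0 3)) :=
  BlkD.part_sound (d := d19_19_6_6) dk19_19_6_6 hn (by decide) (tr := t19_19_6_6_2)
    (by decide +kernel) rfl rfl rfl rfl

/-- the certificates of the part 3 of the pair `(6, 6)` -/
def t19_19_6_6_3 : BlkD.Tr :=
  .L 6 6 [4, 3, 19, 19, 19, 19, 19] [] [] 100000 1 1 1433333 66667 66667 66667 66667 0 0 0

lemma n19_19_6_6_3 {n : ℕ} (hn : 5 ≤ n) : NoNd ((19 : ℕ) : ℤ) ((19 : ℕ) : ℤ) n 6 6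
    (BlkD.inB (BlkD.upd (fun _ => 0) 0 4)
      (BlkD.upd (BlkD.upd (BlkD.upd (fun _ => 19) 0 6) 2 6) 0 5)) :=
  BlkD.part_sound (d := d19_19_6_6) dk19_19_6_6 hn (by decide) (tr := t19_19_6_6_3)
    (by decide +kernel) rfl rfl rfl rfl

/-- the certificates of the part 4 of the pair `(6, 6)` -/
def t19_19_6_6_4 : BlkD.Tr :=
  .L 6 6 [4, 3, 19, 19, 19, 19, 19] [] [] 100000 1 1 1433333 66667 66667 66667 66667 0 0 0

lemma n19_19_6_6_4 {n : ℕ} (hn : 5 ≤ n) : NoNd ((19 : ℕ) : ℤ) ((19 : ℕ) : ℤ) n 6 6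
    (BlkD.inB (BlkD.upd (BlkD.upd (fun _ => 0) 0 4) 0 6)
      (BlkD.upd (BlkD.upd (fun _ => 19) 0 6) 2 6)) :=
  BlkD.part_sound (d := d19_19_6_6) dk19_19_6_6 hn (by decide) (tr := t19_19_6_6_4)
    (by decide +kernel) rfl rfl rfl rfl

/-- the certificates of the part 5 of the pair `(6, 6)` -/
def t19_19_6_6_5 : BlkD.Tr :=
  .E 1

lemma n19_19_6_6_5 {n : ℕ} (hn : 5 ≤ n) : NoNd ((19 : ℕ) : ℤ) ((19 : ℕ) : ℤ) n 6 6
    (BlkD.inB (BlkD.upd (fun _ => 0) 2 7)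
      (BlkD.upd (fun _ => 19) 0 6)) :=
  BlkD.part_sound (d := d19_19_6_6) dk19_19_6_6 hn (by decide) (tr := t19_19_6_6_5)
    (by decide +kernel) rfl rfl rfl rfl

/-- the certificates of the part 6 of the pair `(6, 6)` -/
def t19_19_6_6_6 : BlkD.Tr :=
  .E 0

lemma n19_19_6_6_6 {n : ℕ} (hn : 5 ≤ n) : NoNd ((19 : ℕ) : ℤ) ((19 : ℕ) : ℤ) n 6 6
    (BlkD.inB (BlkD.upd (fun _ => 0) 0 7)
      (fun _ => 19)) :=
  BlkD.part_sound (d := d19_19_6_6) dk19_19_6_6 hn (by decide) (tr := t19_19_6_6_6)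
    (by decide +kernel) rfl rfl rfl rfl

lemma pr19_19_6_6 {n : ℕ} (hn : 5 ≤ n) : NoPr ((19 : ℕ) : ℤ) ((19 : ℕ) : ℤ) n 6 6 :=
  BlkD.of_root (q := 3) (by decide) hn (BlkD.sp 0 6 (BlkD.sp 2 6 (BlkD.sp 0 3 (BlkD.sp 0 1 (n19_19_6_6_1 hn)
    (n19_19_6_6_2 hn))
    (BlkD.sp 0 5 (n19_19_6_6_3 hn)
    (n19_19_6_6_4 hn)))
    (n19_19_6_6_5 hn))
    (n19_19_6_6_6 hn))

/-- the numbers of the pair `(7, 0)`, `R = 19`, `H = 19` -/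
def d19_19_7_0 : BlkD.Pd :=
  ⟨19, 19, 3, 7, 0, 9, 0, 1, 0, 4, 4, 0, 0, 4, 4, 0, [0, 4, 8, 12, 16, 20, 24, 28, 32, 36], [0, 4,
    8, 12, 16, 20, 24, 28, 32, 36], [⟨1, 1, 1, 4, 8, [0, 4], [0, 4]⟩]⟩

lemma dk19_19_7_0 : BlkD.pairOk d19_19_7_0 = true := by decide +kernel

/-- the certificates of the part 1 of the pair `(7, 0)` -/
def t19_19_7_0_1 : BlkD.Tr :=
  .S 0 7 (.S 2 0 (.L 3 3 [4] [] [] 100000 0 0 850000 50000 0 75000 0 0 0 0) (.E 1)) (.E 0)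

lemma n19_19_7_0_1 {n : ℕ} (hn : 5 ≤ n) : NoNd ((19 : ℕ) : ℤ) ((19 : ℕ) : ℤ) n 7 0
    (BlkD.inB (fun _ => 0)
      (fun _ => 19)) :=
  BlkD.part_sound (d := d19_19_7_0) dk19_19_7_0 hn (by decide) (tr := t19_19_7_0_1)
    (by decide +kernel) rfl rfl rfl rfl

lemma pr19_19_7_0 {n : ℕ} (hn : 5 ≤ n) : NoPr ((19 : ℕ) : ℤ) ((19 : ℕ) : ℤ) n 7 0 :=
  BlkD.of_root (q := 3) (by decide) hn (n19_19_7_0_1 hn)

/-- the numbers of the pair `(7, 1)`, `R = 19`, `H = 19` -/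
def d19_19_7_1 : BlkD.Pd :=
  ⟨19, 19, 3, 7, 1, 8, 1, 1, 2, 2, 6, 0, 0, 4, 4, 0, [0, 6, 12, 18, 24, 26, 28, 30, 32], [0, 4, 8,
    12, 16, 20, 24, 28, 32], [⟨1, 1, 1, 4, 8, [0, 4], [0, 4]⟩, ⟨1, 1, 1, 4, 10, [0, 6], [0, 4]⟩]⟩

lemma dk19_19_7_1 : BlkD.pairOk d19_19_7_1 = true := by decide +kernel

/-- the certificates of the part 1 of the pair `(7, 1)` -/
def t19_19_7_1_1 : BlkD.Tr :=
  .S 0 7 (.S 2 1 (.L 4 5 [4, 4] [] [] 100000 0 0 1028574 28571 0 57143 0 0 0 0) (.E 1)) (.E 0)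

lemma n19_19_7_1_1 {n : ℕ} (hn : 5 ≤ n) : NoNd ((19 : ℕ) : ℤ) ((19 : ℕ) : ℤ) n 7 1
    (BlkD.inB (fun _ => 0)
      (fun _ => 19)) :=
  BlkD.part_sound (d := d19_19_7_1) dk19_19_7_1 hn (by decide) (tr := t19_19_7_1_1)
    (by decide +kernel) rfl rfl rfl rfl

lemma pr19_19_7_1 {n : ℕ} (hn : 5 ≤ n) : NoPr ((19 : ℕ) : ℤ) ((19 : ℕ) : ℤ) n 7 1 :=
  BlkD.of_root (q := 3) (by decide) hn (n19_19_7_1_1 hn)

/-- the numbers of the pair `(7, 2)`, `R = 19`, `H = 19` -/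
def d19_19_7_2 : BlkD.Pd :=
  ⟨19, 19, 3, 7, 2, 7, 2, 1, 2, 2, 8, 0, 3, 1, 6, 0, [0, 8, 16, 20, 22, 24, 26, 28], [0, 6, 12, 16,
    19, 22, 25, 28], [⟨1, 1, 1, 4, 8, [0, 4], [0, 4]⟩, ⟨1, 1, 1, 4, 10, [0, 6], [0, 4]⟩, ⟨1, 1, 1,
    6, 14, [0, 8], [0, 6]⟩]⟩

lemma dk19_19_7_2 : BlkD.pairOk d19_19_7_2 = true := by decide +kernel

/-- the certificates of the part 1 of the pair `(7, 2)` -/
def t19_19_7_2_1 : BlkD.Tr :=
  .L 4 6 [4, 4, 4] [] [] 100000 13793 13793 1082762 31034 0 68966 24138 0 24138 24138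

lemma n19_19_7_2_1 {n : ℕ} (hn : 5 ≤ n) : NoNd ((19 : ℕ) : ℤ) ((19 : ℕ) : ℤ) n 7 2
    (BlkD.inB (fun _ => 0)
      (BlkD.upd (BlkD.upd (BlkD.upd (fun _ => 19) 0 7) 2 2) 0 3)) :=
  BlkD.part_sound (d := d19_19_7_2) dk19_19_7_2 hn (by decide) (tr := t19_19_7_2_1)
    (by decide +kernel) rfl rfl rfl rfl

/-- the certificates of the part 2 of the pair `(7, 2)` -/
def t19_19_7_2_2 : BlkD.Tr :=
  .S 0 5 (.S 0 4 (.L 4 6 [4, 4, 4] [] [] 100000 0 0 1185952 19008 0 59504 19008 11570 29477 29477)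
    (.L 4 6 [4, 4, 4] [] [] 100000 1 1 1160000 10000 0 100000 10000 0 33333 33333)) (.L 4 6 [4, 4,
    4] [] [] 100000 3 3 1165306 11565 0 55782 11565 17687 27438 27438)

lemma n19_19_7_2_2 {n : ℕ} (hn : 5 ≤ n) : NoNd ((19 : ℕ) : ℤ) ((19 : ℕ) : ℤ) n 7 2
    (BlkD.inB (BlkD.upd (fun _ => 0) 0 4)
      (BlkD.upd (BlkD.upd (fun _ => 19) 0 7) 2 2)) :=
  BlkD.part_sound (d := d19_19_7_2) dk19_19_7_2 hn (by decide) (tr := t19_19_7_2_2)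
    (by decide +kernel) rfl rfl rfl rfl

/-- the certificates of the part 3 of the pair `(7, 2)` -/
def t19_19_7_2_3 : BlkD.Tr :=
  .E 1

lemma n19_19_7_2_3 {n : ℕ} (hn : 5 ≤ n) : NoNd ((19 : ℕ) : ℤ) ((19 : ℕ) : ℤ) n 7 2
    (BlkD.inB (BlkD.upd (fun _ => 0) 2 3)
      (BlkD.upd (fun _ => 19) 0 7)) :=
  BlkD.part_sound (d := d19_19_7_2) dk19_19_7_2 hn (by decide) (tr := t19_19_7_2_3)
    (by decide +kernel) rfl rfl rfl rfl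

/-- the certificates of the part 4 of the pair `(7, 2)` -/
def t19_19_7_2_4 : BlkD.Tr :=
  .E 0

lemma n19_19_7_2_4 {n : ℕ} (hn : 5 ≤ n) : NoNd ((19 : ℕ) : ℤ) ((19 : ℕ) : ℤ) n 7 2
    (BlkD.inB (BlkD.upd (fun _ => 0) 0 8)
      (fun _ => 19)) :=
  BlkD.part_sound (d := d19_19_7_2) dk19_19_7_2 hn (by decide) (tr := t19_19_7_2_4)
    (by decide +kernel) rfl rfl rfl rfl

lemma pr19_19_7_2 {n : ℕ} (hn : 5 ≤ n) : NoPr ((19 : ℕ) : ℤ) ((19 : ℕ) : ℤ) n 7 2 :=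
  BlkD.of_root (q := 3) (by decide) hn (BlkD.sp 0 7 (BlkD.sp 2 2 (BlkD.sp 0 3 (n19_19_7_2_1 hn)
    (n19_19_7_2_2 hn))
    (n19_19_7_2_3 hn))
    (n19_19_7_2_4 hn))

/-- the numbers of the pair `(7, 3)`, `R = 19`, `H = 19` -/
def d19_19_7_3 : BlkD.Pd :=
  ⟨19, 19, 3, 7, 3, 6, 3, 2, 1, 4, 10, 0, 2, 2, 8, 0, [0, 10, 20, 27, 28, 29, 30], [0, 8, 16, 18,
    20, 22, 24], [⟨1, 1, 1, 4, 8, [0, 4], [0, 4]⟩, ⟨1, 1, 1, 4, 12, [0, 6], [0, 6]⟩, ⟨1, 1, 1, 4,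
    14, [0, 8], [0, 6]⟩, ⟨2, 1, 1, 4, 26, [0, 10, 18], [0, 8]⟩]⟩

lemma dk19_19_7_3 : BlkD.pairOk d19_19_7_3 = true := by decide +kernel

/-- the certificates of the part 1 of the pair `(7, 3)` -/
def t19_19_7_3_1 : BlkD.Tr :=
  .S 0 1 (.L 5 8 [4, 4, 4, 4] [] [] 100000 100000 100000 600000 100000 0 100000 50000 0 0 0) (.S 0
    2 (.L 5 8 [4, 4, 4, 4] [] [] 100000 109722 109721 925000 75000 0 87500 43750 0 0 29167) (.S 1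
    16 (.S 1 8 (.S 1 4 (.L 5 8 [4, 4, 4, 4] [] [] 100000 33333 33332 1100000 25000 0 25000 37500 0
    18750 18750) (.S 1 6 (.S 1 5 (.L 5 8 [4, 4, 4, 4] [95, 88, 80, 70, 60, 50] [] 100000 48611
    48610 1112500 37500 0 56250 37500 0 25000 20833) (.L 5 8 [4, 4, 4, 4] [112, 111, 104, 96, 86,
    76] [] 100000 40000 40000 1160000 40000 0 60000 20000 0 20000 20000)) (.S 1 7 (.L 5 8 [4, 4, 4,
    4] [131, 130, 129, 122, 114, 104] [] 100000 60000 60000 1106669 53333 0 73333 40000 0 13333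
    20000) (.L 5 8 [4, 4, 4, 4] [152, 151, 150, 149, 142, 134] [] 100000 48485 48484 1139394 51515
    0 75758 39394 0 12121 24242)))) (.S 1 12 (.S 1 10 (.S 1 9 (.L 5 8 [4, 4, 4, 4] [175, 174, 173,
    172, 171, 164] [] 100000 58333 58332 1050000 50000 0 100000 50000 0 0 25000) (.L 5 8 [4, 4, 4,
    4] [200, 199, 198, 197, 196, 195] [] 100000 133333 8332 425000 100000 0 225000 50000 0 0
    12500)) (.E 0)) (.E 0))) (.E 0)))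

lemma n19_19_7_3_1 {n : ℕ} (hn : 5 ≤ n) : NoNd ((19 : ℕ) : ℤ) ((19 : ℕ) : ℤ) n 7 3
    (BlkD.inB (fun _ => 0)
      (BlkD.upd (BlkD.upd (BlkD.upd (fun _ => 19) 0 7) 2 3) 0 3)) :=
  BlkD.part_sound (d := d19_19_7_3) dk19_19_7_3 hn (by decide) (tr := t19_19_7_3_1)
    (by decide +kernel) rfl rfl rfl rfl

/-- the certificates of the part 2 of the pair `(7, 3)` -/
def t19_19_7_3_2 : BlkD.Tr :=
  .L 5 8 [4, 4, 4, 4] [] [] 100000 33333 33332 1100001 33333 0 33333 33333 0 16667 16667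

lemma n19_19_7_3_2 {n : ℕ} (hn : 5 ≤ n) : NoNd ((19 : ℕ) : ℤ) ((19 : ℕ) : ℤ) n 7 3
    (BlkD.inB (BlkD.upd (fun _ => 0) 0 4)
      (BlkD.upd (BlkD.upd (BlkD.upd (BlkD.upd (BlkD.upd (BlkD.upd (BlkD.upd (fun _ => 19) 0 7) 2 3) 0 5) 0 4) 1 15) 1 7) 1 3)) :=
  BlkD.part_sound (d := d19_19_7_3) dk19_19_7_3 hn (by decide) (tr := t19_19_7_3_2)
    (by decide +kernel) rfl rfl rfl rfl

/-- the certificates of the part 3 of the pair `(7, 3)` -/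
def t19_19_7_3_3 : BlkD.Tr :=
  .S 1 4 (.L 5 8 [4, 4, 4, 4] [82, 74, 64, 54, 44, 0] [] 100000 33333 33332 1187060 28235 0 37647
    23529 0 31176 18235) (.S 2 1 (.S 2 0 (.L 5 8 [4, 4, 4, 4] [105, 98, 90, 80, 70, 60] [] 100000
    33333 33332 1100000 0 0 0 100000 0 0 0) (.S 3 9 (.S 3 4 (.S 3 2 (.L 5 8 [4, 4, 4, 4] [105, 98,
    90, 80, 70, 60] [] 100000 33333 33332 1160000 20000 20000 20000 20000 0 0 10000) (.S 3 3 (.L 5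
    8 [4, 4, 4, 4] [105, 98, 90, 80, 70, 60] [38, 30, 22, 12, 0, 0] 100000 33333 33332 1176924
    30769 3846 57692 44231 0 26923 28846) (.S 4 5 (.S 4 2 (.L 5 8 [4, 4, 4, 4] [80, 70, 60, 0, 0,
    0] [54, 46, 38, 30, 20, 0] 100000 44445 44445 1140740 51852 0 77778 25926 0 29630 22222) (.L 5
    8 [4, 4, 4, 4] [105, 98, 90, 80, 70, 60] [54, 46, 38, 30, 20, 0] 100000 48148 0 911112 22222 0
    148148 22222 0 3704 33333)) (.E 2)))) (.E 1)) (.E 1))) (.S 2 2 (.S 3 8 (.S 3 4 (.S 3 2 (.L 5 8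
    [4, 4, 4, 4] [105, 98, 90, 80, 70, 60] [] 100000 33333 33332 1173685 31579 0 52632 47368 0
    26316 26316) (.S 3 3 (.S 4 5 (.S 4 2 (.L 5 8 [4, 4, 4, 4] [80, 70, 60, 0, 0, 0] [44, 36, 28,
    18, 0, 0] 100000 56250 56250 1068750 62500 0 62500 18750 0 43750 18750) (.L 5 8 [4, 4, 4, 4]
    [105, 98, 90, 80, 70, 60] [44, 36, 28, 18, 0, 0] 100000 100000 0 600000 0 0 200000 200000 0 0
    0)) (.E 2)) (.E 1))) (.E 1)) (.E 1)) (.L 5 8 [4, 4, 4, 4] [105, 98, 90, 80, 70, 60] [] 100000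
    33333 33332 1166668 33333 0 33333 0 0 33333 16667)))

lemma n19_19_7_3_3 {n : ℕ} (hn : 5 ≤ n) : NoNd ((19 : ℕ) : ℤ) ((19 : ℕ) : ℤ) n 7 3
    (BlkD.inB (BlkD.upd (BlkD.upd (fun _ => 0) 0 4) 1 4)
      (BlkD.upd (BlkD.upd (BlkD.upd (BlkD.upd (BlkD.upd (BlkD.upd (BlkD.upd (fun _ => 19) 0 7) 2 3) 0 5) 0 4) 1 15) 1 7) 1 5)) :=
  BlkD.part_sound (d := d19_19_7_3) dk19_19_7_3 hn (by decide) (tr := t19_19_7_3_3)
    (by decide +kernel) rfl rfl rfl rfl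

/-- the certificates of the part 4 of the pair `(7, 3)` -/
def t19_19_7_3_4 : BlkD.Tr :=
  .S 1 6 (.S 2 1 (.S 2 0 (.L 5 8 [4, 4, 4, 4] [124, 123, 116, 108, 98, 88] [] 100000 33333 33332
    1076924 30769 0 61538 69231 0 0 23077) (.S 3 8 (.S 3 4 (.S 3 2 (.L 5 8 [4, 4, 4, 4] [124, 123,
    116, 108, 98, 88] [] 100000 33333 33332 1185716 28571 28571 57143 42857 0 14286 28571) (.S 3 3
    (.L 5 8 [4, 4, 4, 4] [124, 123, 116, 108, 98, 88] [38, 30, 22, 12, 0, 0] 100000 33334 33334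
    1189655 37931 0 58621 48276 0 31034 20690) (.S 4 6 (.S 4 3 (.L 5 8 [4, 4, 4, 4] [108, 98, 88,
    78, 0, 0] [54, 46, 38, 30, 20, 0] 100000 50736 50735 1111762 58824 0 94118 11765 0 44853 16912)
    (.L 5 8 [4, 4, 4, 4] [124, 123, 116, 108, 98, 88] [54, 46, 38, 30, 20, 0] 100000 110000 0
    540000 40000 40000 210000 40000 0 0 20000)) (.E 2)))) (.E 1)) (.E 1))) (.S 2 2 (.S 3 7 (.S 3 3
    (.S 3 1 (.L 5 8 [4, 4, 4, 4] [124, 123, 116, 108, 98, 88] [] 100000 32122 32122 1200454 33182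
    10455 65000 55909 1818 22727 22273) (.S 3 2 (.L 5 8 [4, 4, 4, 4] [124, 123, 116, 108, 98, 88]
    [28, 20, 10, 0, 0, 0] 100000 33334 33334 1189655 37931 0 58621 48276 0 31034 20690) (.S 4 6 (.S
    4 3 (.L 5 8 [4, 4, 4, 4] [108, 98, 88, 78, 0, 0] [44, 36, 28, 18, 0, 0] 100000 45000 45000
    1117500 55000 0 92500 15000 0 40000 15000) (.L 5 8 [4, 4, 4, 4] [124, 123, 116, 108, 98, 88]
    [44, 36, 28, 18, 0, 0] 100000 200000 0 0 50000 0 300000 200000 0 0 0)) (.E 2)))) (.E 1)) (.E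
    1)) (.L 5 8 [4, 4, 4, 4] [124, 123, 116, 108, 98, 88] [] 100000 33333 33332 1187500 37500 0
    75000 0 0 25000 25000))) (.L 5 8 [4, 4, 4, 4] [145, 144, 143, 136, 128, 118] [] 100000 50000
    49999 1134146 45122 0 95122 42683 0 7317 18293)

lemma n19_19_7_3_4 {n : ℕ} (hn : 5 ≤ n) : NoNd ((19 : ℕ) : ℤ) ((19 : ℕ) : ℤ) n 7 3
    (BlkD.inB (BlkD.upd (BlkD.upd (BlkD.upd (fun _ => 0) 0 4) 1 4) 1 6)
      (BlkD.upd (BlkD.upd (BlkD.upd (BlkD.upd (BlkD.upd (BlkD.upd (fun _ => 19) 0 7) 2 3) 0 5) 0 4) 1 15) 1 7)) :=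
  BlkD.part_sound (d := d19_19_7_3) dk19_19_7_3 hn (by decide) (tr := t19_19_7_3_4)
    (by decide +kernel) rfl rfl rfl rfl

/-- the certificates of the part 5 of the pair `(7, 3)` -/
def t19_19_7_3_5 : BlkD.Tr :=
  .L 5 8 [4, 4, 4, 4] [] [] 100000 33334 33334 1185714 4762 0 100000 95238 0 0 33333

lemma n19_19_7_3_5 {n : ℕ} (hn : 5 ≤ n) : NoNd ((19 : ℕ) : ℤ) ((19 : ℕ) : ℤ) n 7 3
    (BlkD.inB (BlkD.upd (BlkD.upd (fun _ => 0) 0 4) 1 8)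
      (BlkD.upd (BlkD.upd (BlkD.upd (BlkD.upd (BlkD.upd (fun _ => 19) 0 7) 2 3) 0 5) 0 4) 1 15)) :=
  BlkD.part_sound (d := d19_19_7_3) dk19_19_7_3 hn (by decide) (tr := t19_19_7_3_5)
    (by decide +kernel) rfl rfl rfl rfl

/-- the certificates of the part 6 of the pair `(7, 3)` -/
def t19_19_7_3_6 : BlkD.Tr :=
  .E 0

lemma n19_19_7_3_6 {n : ℕ} (hn : 5 ≤ n) : NoNd ((19 : ℕ) : ℤ) ((19 : ℕ) : ℤ) n 7 3
    (BlkD.inB (BlkD.upd (BlkD.upd (fun _ => 0) 0 4) 1 16)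
      (BlkD.upd (BlkD.upd (BlkD.upd (BlkD.upd (fun _ => 19) 0 7) 2 3) 0 5) 0 4)) :=
  BlkD.part_sound (d := d19_19_7_3) dk19_19_7_3 hn (by decide) (tr := t19_19_7_3_6)
    (by decide +kernel) rfl rfl rfl rfl

/-- the certificates of the part 7 of the pair `(7, 3)` -/
def t19_19_7_3_7 : BlkD.Tr :=
  .S 1 1 (.L 5 8 [4, 4, 4, 4] [] [] 100000 33333 33332 1100000 0 0 0 0 0 0 0) (.S 1 2 (.L 5 8 [4,
    4, 4, 4] [42, 32, 22, 0, 0, 0] [] 100000 33333 33332 1100000 50000 0 50000 50000 0 25000 25000)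
    (.S 2 1 (.S 2 0 (.L 5 8 [4, 4, 4, 4] [66, 56, 46, 36, 0, 0] [] 100000 33333 33332 1000000 0 0 0
    100000 0 0 0) (.S 3 10 (.S 3 5 (.S 3 2 (.L 5 8 [4, 4, 4, 4] [66, 56, 46, 36, 0, 0] [] 100000
    33333 33332 1100000 0 0 0 0 0 0 0) (.S 3 4 (.S 3 3 (.L 5 8 [4, 4, 4, 4] [66, 56, 46, 36, 0, 0]
    [38, 30, 22, 12, 0, 0] 100000 33333 33332 1150000 25000 25000 50000 50000 0 25000 25000) (.S 4
    3 (.S 4 1 (.L 5 8 [4, 4, 4, 4] [46, 36, 0, 0, 0, 0] [54, 46, 38, 30, 20, 0] 100000 33333 33332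
    1150000 50000 0 100000 25000 0 50000 25000) (.L 5 8 [4, 4, 4, 4] [66, 56, 46, 36, 0, 0] [54,
    46, 38, 30, 20, 0] 100000 28572 14286 1050000 21429 0 114286 10714 0 28571 14286)) (.E 2))) (.E
    1))) (.E 1)) (.E 1))) (.L 5 8 [4, 4, 4, 4] [66, 56, 46, 36, 0, 0] [] 100000 33333 33332 1166668
    33333 0 33333 33333 0 16667 16667)))

lemma n19_19_7_3_7 {n : ℕ} (hn : 5 ≤ n) : NoNd ((19 : ℕ) : ℤ) ((19 : ℕ) : ℤ) n 7 3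
    (BlkD.inB (BlkD.upd (BlkD.upd (fun _ => 0) 0 4) 0 5)
      (BlkD.upd (BlkD.upd (BlkD.upd (BlkD.upd (BlkD.upd (BlkD.upd (fun _ => 19) 0 7) 2 3) 0 5) 1 14) 1 7) 1 3)) :=
  BlkD.part_sound (d := d19_19_7_3) dk19_19_7_3 hn (by decide) (tr := t19_19_7_3_7)
    (by decide +kernel) rfl rfl rfl rfl

/-- the certificates of the part 8 of the pair `(7, 3)` -/
def t19_19_7_3_8 : BlkD.Tr :=
  .S 1 5 (.S 1 4 (.S 2 1 (.S 2 0 (.L 5 8 [4, 4, 4, 4] [90, 82, 72, 62, 52, 0] [] 100000 33333 33332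
    1050000 0 0 50000 100000 0 0 0) (.S 3 9 (.S 3 4 (.S 3 2 (.L 5 8 [4, 4, 4, 4] [90, 82, 72, 62,
    52, 0] [] 100000 30393 30393 1182354 22059 22059 44118 44118 4412 4412 16176) (.S 3 3 (.L 5 8
    [4, 4, 4, 4] [90, 82, 72, 62, 52, 0] [38, 30, 22, 12, 0, 0] 100000 31482 31482 1193751 35417 0
    75694 36806 2778 27778 21528) (.S 4 4 (.S 4 2 (.L 5 8 [4, 4, 4, 4] [72, 62, 52, 0, 0, 0] [54,
    46, 38, 30, 20, 0] 100000 28572 28572 1207144 42857 0 100000 21429 7143 57143 21429) (.L 5 8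
    [4, 4, 4, 4] [90, 82, 72, 62, 52, 0] [54, 46, 38, 30, 20, 0] 100000 38462 0 969230 7692 7692
    138462 7692 0 23077 11538)) (.E 2)))) (.E 1)) (.E 1))) (.L 5 8 [4, 4, 4, 4] [90, 82, 72, 62,
    52, 0] [] 100000 28889 28889 1206670 33333 0 93333 33333 6667 33333 33333)) (.S 2 1 (.S 2 0 (.L
    5 8 [4, 4, 4, 4] [115, 108, 100, 90, 80, 70] [] 100000 33333 33332 1000000 0 0 100000 100000 0
    0 0) (.S 3 8 (.S 3 4 (.S 3 2 (.L 5 8 [4, 4, 4, 4] [115, 108, 100, 90, 80, 70] [] 100000 29640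
    29640 1195216 28212 20151 76071 53401 5542 10327 23929) (.L 5 8 [4, 4, 4, 4] [115, 108, 100,
    90, 80, 70] [] 100000 33333 33332 1196156 28846 22115 86538 44231 0 21154 25962)) (.E 1)) (.E
    1))) (.L 5 8 [4, 4, 4, 4] [115, 108, 100, 90, 80, 70] [] 100000 32388 32387 1187234 37589 0
    78723 48227 1418 14184 21277))) (.L 5 8 [4, 4, 4, 4] [] [] 100000 33334 33334 1186666 6667 0
    100000 93333 0 0 33333)

lemma n19_19_7_3_8 {n : ℕ} (hn : 5 ≤ n) : NoNd ((19 : ℕ) : ℤ) ((19 : ℕ) : ℤ) n 7 3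
    (BlkD.inB (BlkD.upd (BlkD.upd (BlkD.upd (fun _ => 0) 0 4) 0 5) 1 4)
      (BlkD.upd (BlkD.upd (BlkD.upd (BlkD.upd (BlkD.upd (fun _ => 19) 0 7) 2 3) 0 5) 1 14) 1 7)) :=
  BlkD.part_sound (d := d19_19_7_3) dk19_19_7_3 hn (by decide) (tr := t19_19_7_3_8)
    (by decide +kernel) rfl rfl rfl rfl

/-- the certificates of the part 9 of the pair `(7, 3)` -/
def t19_19_7_3_9 : BlkD.Tr :=
  .E 0

lemma n19_19_7_3_9 {n : ℕ} (hn : 5 ≤ n) : NoNd ((19 : ℕ) : ℤ) ((19 : ℕ) : ℤ) n 7 3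
    (BlkD.inB (BlkD.upd (BlkD.upd (BlkD.upd (fun _ => 0) 0 4) 0 5) 1 8)
      (BlkD.upd (BlkD.upd (BlkD.upd (BlkD.upd (fun _ => 19) 0 7) 2 3) 0 5) 1 14)) :=
  BlkD.part_sound (d := d19_19_7_3) dk19_19_7_3 hn (by decide) (tr := t19_19_7_3_9)
    (by decide +kernel) rfl rfl rfl rfl

/-- the certificates of the part 10 of the pair `(7, 3)` -/
def t19_19_7_3_10 : BlkD.Tr :=
  .E 0

lemma n19_19_7_3_10 {n : ℕ} (hn : 5 ≤ n) : NoNd ((19 : ℕ) : ℤ) ((19 : ℕ) : ℤ) n 7 3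
    (BlkD.inB (BlkD.upd (BlkD.upd (BlkD.upd (fun _ => 0) 0 4) 0 5) 1 15)
      (BlkD.upd (BlkD.upd (BlkD.upd (fun _ => 19) 0 7) 2 3) 0 5)) :=
  BlkD.part_sound (d := d19_19_7_3) dk19_19_7_3 hn (by decide) (tr := t19_19_7_3_10)
    (by decide +kernel) rfl rfl rfl rfl

/-- the certificates of the part 11 of the pair `(7, 3)` -/
def t19_19_7_3_11 : BlkD.Tr :=
  .S 0 6 (.S 1 13 (.S 1 6 (.S 1 3 (.L 5 8 [4, 4, 4, 4] [] [] 100000 29629 29628 1200003 33333 0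
    94444 50000 5556 25000 25000) (.L 5 8 [4, 4, 4, 4] [] [] 100000 23334 23334 1203333 11667 0
    86667 73333 15000 15000 33333)) (.E 0)) (.E 0)) (.L 5 8 [4, 4, 4, 4] [] [] 100000 1278 1277
    1227204 4598 0 68199 36398 63602 32567 33333)

lemma n19_19_7_3_11 {n : ℕ} (hn : 5 ≤ n) : NoNd ((19 : ℕ) : ℤ) ((19 : ℕ) : ℤ) n 7 3
    (BlkD.inB (BlkD.upd (BlkD.upd (fun _ => 0) 0 4) 0 6)
      (BlkD.upd (BlkD.upd (fun _ => 19) 0 7) 2 3)) :=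
  BlkD.part_sound (d := d19_19_7_3) dk19_19_7_3 hn (by decide) (tr := t19_19_7_3_11)
    (by decide +kernel) rfl rfl rfl rfl

/-- the certificates of the part 12 of the pair `(7, 3)` -/
def t19_19_7_3_12 : BlkD.Tr :=
  .E 1

lemma n19_19_7_3_12 {n : ℕ} (hn : 5 ≤ n) : NoNd ((19 : ℕ) : ℤ) ((19 : ℕ) : ℤ) n 7 3
    (BlkD.inB (BlkD.upd (fun _ => 0) 2 4)
      (BlkD.upd (fun _ => 19) 0 7)) :=
  BlkD.part_sound (d := d19_19_7_3) dk19_19_7_3 hn (by decide) (tr := t19_19_7_3_12)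
    (by decide +kernel) rfl rfl rfl rfl

/-- the certificates of the part 13 of the pair `(7, 3)` -/
def t19_19_7_3_13 : BlkD.Tr :=
  .E 0

lemma n19_19_7_3_13 {n : ℕ} (hn : 5 ≤ n) : NoNd ((19 : ℕ) : ℤ) ((19 : ℕ) : ℤ) n 7 3
    (BlkD.inB (BlkD.upd (fun _ => 0) 0 8)
      (fun _ => 19)) :=
  BlkD.part_sound (d := d19_19_7_3) dk19_19_7_3 hn (by decide) (tr := t19_19_7_3_13)
    (by decide +kernel) rfl rfl rfl rfl

lemma pr19_19_7_3 {n : ℕ} (hn : 5 ≤ n) : NoPr ((19 : ℕ) : ℤ) ((19 : ℕ) : ℤ) n 7 3 :=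
  BlkD.of_root (q := 3) (by decide) hn (BlkD.sp 0 7 (BlkD.sp 2 3 (BlkD.sp 0 3 (n19_19_7_3_1 hn)
    (BlkD.sp 0 5 (BlkD.sp 0 4 (BlkD.sp 1 15 (BlkD.sp 1 7 (BlkD.sp 1 3 (n19_19_7_3_2 hn)
    (BlkD.sp 1 5 (n19_19_7_3_3 hn)
    (n19_19_7_3_4 hn)))
    (n19_19_7_3_5 hn))
    (n19_19_7_3_6 hn))
    (BlkD.sp 1 14 (BlkD.sp 1 7 (BlkD.sp 1 3 (n19_19_7_3_7 hn)
    (n19_19_7_3_8 hn))
    (n19_19_7_3_9 hn))
    (n19_19_7_3_10 hn)))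
    (n19_19_7_3_11 hn)))
    (n19_19_7_3_12 hn))
    (n19_19_7_3_13 hn))

/-- the numbers of the pair `(7, 4)`, `R = 19`, `H = 19` -/
def d19_19_7_4 : BlkD.Pd :=
  ⟨19, 19, 3, 7, 4, 5, 2, 2, 2, 2, 8, 0, 2, 2, 8, 0, [0, 8, 14, 16, 18, 20], [0, 8, 14, 16, 18,
    20], [⟨1, 1, 1, 4, 8, [0, 4], [0, 4]⟩, ⟨1, 1, 1, 4, 12, [0, 6], [0, 6]⟩, ⟨1, 1, 1, 4, 16, [0,
    8], [0, 8]⟩]⟩

lemma dk19_19_7_4 : BlkD.pairOk d19_19_7_4 = true := by decide +kernel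

/-- the certificates of the part 1 of the pair `(7, 4)` -/
def t19_19_7_4_1 : BlkD.Tr :=
  .L 5 6 [4, 4, 4, 19, 19] [] [] 100000 75000 75000 800000 100000 0 100000 50000 0 0 0

lemma n19_19_7_4_1 {n : ℕ} (hn : 5 ≤ n) : NoNd ((19 : ℕ) : ℤ) ((19 : ℕ) : ℤ) n 7 4
    (BlkD.inB (fun _ => 0)
      (BlkD.upd (BlkD.upd (BlkD.upd (BlkD.upd (fun _ => 19) 0 7) 2 4) 0 3) 0 1)) :=
  BlkD.part_sound (d := d19_19_7_4) dk19_19_7_4 hn (by decide) (tr := t19_19_7_4_1)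
    (by decide +kernel) rfl rfl rfl rfl

/-- the certificates of the part 2 of the pair `(7, 4)` -/
def t19_19_7_4_2 : BlkD.Tr :=
  .S 0 2 (.L 5 6 [4, 4, 4, 19, 19] [] [] 100000 103573 103573 1114286 71429 0 85714 57143 0 0
    21429) (.S 1 16 (.S 1 8 (.S 1 4 (.L 5 6 [4, 4, 4, 19, 19] [] [] 100000 10000 10000 1260000
    20000 10000 20000 30000 0 0 0) (.S 1 6 (.L 5 6 [4, 4, 4, 19, 19] [] [] 100000 12963 12963
    1370372 25926 0 34568 61728 0 29630 0) (.S 1 7 (.L 5 6 [4, 4, 4, 19, 19] [126, 124, 122, 120,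
    114, 106] [] 100000 2084 2084 1383332 29167 0 58333 41667 0 25000 12500) (.L 5 6 [4, 4, 4, 19,
    19] [148, 146, 144, 142, 140, 134] [] 100000 55557 55557 1233332 55556 0 100000 44444 0 11111
    0)))) (.S 1 12 (.S 1 10 (.S 1 9 (.L 5 6 [4, 4, 4, 19, 19] [172, 170, 168, 166, 164, 162] []
    100000 116667 83334 966668 100000 0 133333 33333 0 0 0) (.L 5 6 [4, 4, 4, 19, 19] [198, 196,
    194, 192, 190, 188] [] 100000 250000 0 0 100000 0 350000 0 0 0 0)) (.E 0)) (.E 0))) (.E 0))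

lemma n19_19_7_4_2 {n : ℕ} (hn : 5 ≤ n) : NoNd ((19 : ℕ) : ℤ) ((19 : ℕ) : ℤ) n 7 4
    (BlkD.inB (BlkD.upd (fun _ => 0) 0 2)
      (BlkD.upd (BlkD.upd (BlkD.upd (fun _ => 19) 0 7) 2 4) 0 3)) :=
  BlkD.part_sound (d := d19_19_7_4) dk19_19_7_4 hn (by decide) (tr := t19_19_7_4_2)
    (by decide +kernel) rfl rfl rfl rfl

/-- the certificates of the part 3 of the pair `(7, 4)` -/
def t19_19_7_4_3 : BlkD.Tr :=
  .S 1 15 (.S 1 7 (.S 1 3 (.L 5 6 [4, 4, 4, 19, 19] [] [] 100000 0 0 1300000 0 0 0 50000 0 0 0) (.S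
    1 5 (.L 5 6 [4, 4, 4, 19, 19] [] [] 100000 4167 4167 1375000 25000 0 50000 50000 0 25000 8333)
    (.S 1 6 (.S 2 2 (.L 5 6 [4, 4, 4, 19, 19] [118, 116, 114, 108, 100, 90] [] 100000 1 1 1399334
    25125 6323 68719 30948 1830 24126 12812) (.L 5 6 [4, 4, 4, 19, 19] [118, 116, 114, 108, 100,
    90] [] 100000 1 1 1371212 27273 0 62121 46970 1515 25758 18182)) (.L 5 6 [4, 4, 4, 19, 19]
    [140, 138, 136, 134, 128, 120] [] 100000 50000 50000 1250000 50000 0 100000 50000 0 0 0)))) (.L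
    5 6 [4, 4, 4, 19, 19] [] [] 100000 1 1 1352942 11765 0 100000 23529 0 11765 17647)) (.E 0)

lemma n19_19_7_4_3 {n : ℕ} (hn : 5 ≤ n) : NoNd ((19 : ℕ) : ℤ) ((19 : ℕ) : ℤ) n 7 4
    (BlkD.inB (BlkD.upd (fun _ => 0) 0 4)
      (BlkD.upd (BlkD.upd (BlkD.upd (BlkD.upd (fun _ => 19) 0 7) 2 4) 0 5) 0 4)) :=
  BlkD.part_sound (d := d19_19_7_4) dk19_19_7_4 hn (by decide) (tr := t19_19_7_4_3)
    (by decide +kernel) rfl rfl rfl rfl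

/-- the certificates of the part 4 of the pair `(7, 4)` -/
def t19_19_7_4_4 : BlkD.Tr :=
  .S 1 14 (.S 1 7 (.S 1 3 (.L 5 6 [4, 4, 4, 19, 19] [] [] 100000 1 1 1336365 27273 4545 31818 72727
    0 27273 13636) (.S 1 5 (.S 1 4 (.L 5 6 [4, 4, 4, 19, 19] [88, 82, 74, 64, 52, 0] [] 100000 1 1
    1390909 27273 0 72727 45455 9091 18182 9091) (.L 5 6 [4, 4, 4, 19, 19] [108, 106, 100, 92, 82,
    70] [] 100000 437 437 1373203 19390 6972 79521 49237 1089 17429 33333)) (.L 5 6 [4, 4, 4, 19,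
    19] [] [] 100000 1 1 1357144 14286 0 100000 28571 0 14286 14286))) (.E 0)) (.E 0)

lemma n19_19_7_4_4 {n : ℕ} (hn : 5 ≤ n) : NoNd ((19 : ℕ) : ℤ) ((19 : ℕ) : ℤ) n 7 4
    (BlkD.inB (BlkD.upd (BlkD.upd (fun _ => 0) 0 4) 0 5)
      (BlkD.upd (BlkD.upd (BlkD.upd (fun _ => 19) 0 7) 2 4) 0 5)) :=
  BlkD.part_sound (d := d19_19_7_4) dk19_19_7_4 hn (by decide) (tr := t19_19_7_4_4)
    (by decide +kernel) rfl rfl rfl rfl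

/-- the certificates of the part 5 of the pair `(7, 4)` -/
def t19_19_7_4_5 : BlkD.Tr :=
  .L 5 6 [4, 4, 4, 19, 19] [] [] 100000 3 3 1388157 5923 2961 51481 85194 11390 14806 31435

lemma n19_19_7_4_5 {n : ℕ} (hn : 5 ≤ n) : NoNd ((19 : ℕ) : ℤ) ((19 : ℕ) : ℤ) n 7 4
    (BlkD.inB (BlkD.upd (BlkD.upd (fun _ => 0) 0 4) 0 6)
      (BlkD.upd (BlkD.upd (fun _ => 19) 0 7) 2 4)) :=
  BlkD.part_sound (d := d19_19_7_4) dk19_19_7_4 hn (by decide) (tr := t19_19_7_4_5)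
    (by decide +kernel) rfl rfl rfl rfl

/-- the certificates of the part 6 of the pair `(7, 4)` -/
def t19_19_7_4_6 : BlkD.Tr :=
  .E 1

lemma n19_19_7_4_6 {n : ℕ} (hn : 5 ≤ n) : NoNd ((19 : ℕ) : ℤ) ((19 : ℕ) : ℤ) n 7 4
    (BlkD.inB (BlkD.upd (fun _ => 0) 2 5)
      (BlkD.upd (fun _ => 19) 0 7)) :=
  BlkD.part_sound (d := d19_19_7_4) dk19_19_7_4 hn (by decide) (tr := t19_19_7_4_6)
    (by decide +kernel) rfl rfl rfl rfl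

/-- the certificates of the part 7 of the pair `(7, 4)` -/
def t19_19_7_4_7 : BlkD.Tr :=
  .E 0

lemma n19_19_7_4_7 {n : ℕ} (hn : 5 ≤ n) : NoNd ((19 : ℕ) : ℤ) ((19 : ℕ) : ℤ) n 7 4
    (BlkD.inB (BlkD.upd (fun _ => 0) 0 8)
      (fun _ => 19)) :=
  BlkD.part_sound (d := d19_19_7_4) dk19_19_7_4 hn (by decide) (tr := t19_19_7_4_7)
    (by decide +kernel) rfl rfl rfl rfl

lemma pr19_19_7_4 {n : ℕ} (hn : 5 ≤ n) : NoPr ((19 : ℕ) : ℤ) ((19 : ℕ) : ℤ) n 7 4 :=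
  BlkD.of_root (q := 3) (by decide) hn (BlkD.sp 0 7 (BlkD.sp 2 4 (BlkD.sp 0 3 (BlkD.sp 0 1 (n19_19_7_4_1 hn)
    (n19_19_7_4_2 hn))
    (BlkD.sp 0 5 (BlkD.sp 0 4 (n19_19_7_4_3 hn)
    (n19_19_7_4_4 hn))
    (n19_19_7_4_5 hn)))
    (n19_19_7_4_6 hn))
    (n19_19_7_4_7 hn))

/-- the numbers of the pair `(7, 5)`, `R = 19`, `H = 19` -/
def d19_19_7_5 : BlkD.Pd :=
  ⟨19, 19, 3, 7, 5, 4, 1, 3, 2, 2, 6, 0, 2, 2, 6, 0, [0, 6, 12, 14, 16], [0, 6, 12, 14, 16], [⟨1,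
    1, 1, 4, 8, [0, 4], [0, 4]⟩, ⟨1, 1, 1, 4, 12, [0, 6], [0, 6]⟩]⟩

lemma dk19_19_7_5 : BlkD.pairOk d19_19_7_5 = true := by decide +kernel

/-- the certificates of the part 1 of the pair `(7, 5)` -/
def t19_19_7_5_1 : BlkD.Tr :=
  .L 6 6 [4, 3, 19, 19, 19, 19] [] [] 100000 1 1 1433333 66667 66667 66667 66667 0 0 0

lemma n19_19_7_5_1 {n : ℕ} (hn : 5 ≤ n) : NoNd ((19 : ℕ) : ℤ) ((19 : ℕ) : ℤ) n 7 5
    (BlkD.inB (fun _ => 0)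
      (BlkD.upd (BlkD.upd (BlkD.upd (BlkD.upd (fun _ => 19) 0 7) 2 5) 0 3) 0 1)) :=
  BlkD.part_sound (d := d19_19_7_5) dk19_19_7_5 hn (by decide) (tr := t19_19_7_5_1)
    (by decide +kernel) rfl rfl rfl rfl

/-- the certificates of the part 2 of the pair `(7, 5)` -/
def t19_19_7_5_2 : BlkD.Tr :=
  .L 6 6 [4, 3, 19, 19, 19, 19] [] [] 100000 1 1 1433333 66667 66667 66667 66667 0 0 0

lemma n19_19_7_5_2 {n : ℕ} (hn : 5 ≤ n) : NoNd ((19 : ℕ) : ℤ) ((19 : ℕ) : ℤ) n 7 5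
    (BlkD.inB (BlkD.upd (fun _ => 0) 0 2)
      (BlkD.upd (BlkD.upd (BlkD.upd (fun _ => 19) 0 7) 2 5) 0 3)) :=
  BlkD.part_sound (d := d19_19_7_5) dk19_19_7_5 hn (by decide) (tr := t19_19_7_5_2)
    (by decide +kernel) rfl rfl rfl rfl

/-- the certificates of the part 3 of the pair `(7, 5)` -/
def t19_19_7_5_3 : BlkD.Tr :=
  .L 6 6 [4, 3, 19, 19, 19, 19] [] [] 100000 1 1 1433333 66667 66667 66667 66667 0 0 0

lemma n19_19_7_5_3 {n : ℕ} (hn : 5 ≤ n) : NoNd ((19 : ℕ) : ℤ) ((19 : ℕ) : ℤ) n 7 5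
    (BlkD.inB (BlkD.upd (fun _ => 0) 0 4)
      (BlkD.upd (BlkD.upd (BlkD.upd (fun _ => 19) 0 7) 2 5) 0 5)) :=
  BlkD.part_sound (d := d19_19_7_5) dk19_19_7_5 hn (by decide) (tr := t19_19_7_5_3)
    (by decide +kernel) rfl rfl rfl rfl

/-- the certificates of the part 4 of the pair `(7, 5)` -/
def t19_19_7_5_4 : BlkD.Tr :=
  .L 6 6 [4, 3, 19, 19, 19, 19] [] [] 100000 1 1 1433333 66667 66667 66667 66667 0 0 0

lemma n19_19_7_5_4 {n : ℕ} (hn : 5 ≤ n) : NoNd ((19 : ℕ) : ℤ) ((19 : ℕ) : ℤ) n 7 5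
    (BlkD.inB (BlkD.upd (BlkD.upd (fun _ => 0) 0 4) 0 6)
      (BlkD.upd (BlkD.upd (fun _ => 19) 0 7) 2 5)) :=
  BlkD.part_sound (d := d19_19_7_5) dk19_19_7_5 hn (by decide) (tr := t19_19_7_5_4)
    (by decide +kernel) rfl rfl rfl rfl

/-- the certificates of the part 5 of the pair `(7, 5)` -/
def t19_19_7_5_5 : BlkD.Tr :=
  .E 1

lemma n19_19_7_5_5 {n : ℕ} (hn : 5 ≤ n) : NoNd ((19 : ℕ) : ℤ) ((19 : ℕ) : ℤ) n 7 5
    (BlkD.inB (BlkD.upd (fun _ => 0) 2 6)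
      (BlkD.upd (fun _ => 19) 0 7)) :=
  BlkD.part_sound (d := d19_19_7_5) dk19_19_7_5 hn (by decide) (tr := t19_19_7_5_5)
    (by decide +kernel) rfl rfl rfl rfl

/-- the certificates of the part 6 of the pair `(7, 5)` -/
def t19_19_7_5_6 : BlkD.Tr :=
  .E 0

lemma n19_19_7_5_6 {n : ℕ} (hn : 5 ≤ n) : NoNd ((19 : ℕ) : ℤ) ((19 : ℕ) : ℤ) n 7 5
    (BlkD.inB (BlkD.upd (fun _ => 0) 0 8)
      (fun _ => 19)) :=
  BlkD.part_sound (d := d19_19_7_5) dk19_19_7_5 hn (by decide) (tr := t19_19_7_5_6)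
    (by decide +kernel) rfl rfl rfl rfl

lemma pr19_19_7_5 {n : ℕ} (hn : 5 ≤ n) : NoPr ((19 : ℕ) : ℤ) ((19 : ℕ) : ℤ) n 7 5 :=
  BlkD.of_root (q := 3) (by decide) hn (BlkD.sp 0 7 (BlkD.sp 2 5 (BlkD.sp 0 3 (BlkD.sp 0 1 (n19_19_7_5_1 hn)
    (n19_19_7_5_2 hn))
    (BlkD.sp 0 5 (n19_19_7_5_3 hn)
    (n19_19_7_5_4 hn)))
    (n19_19_7_5_5 hn))
    (n19_19_7_5_6 hn))

end BlkC

end Pool.Agent.Lib.MP_f04ccf_co
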