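import Pool.Agent.Lib.MP_f04ccf_co.M.BlkTp

/-!
MP_f04ccf_co, block certificate, data `R = 19`, `H = 19`, part 4 (certificates: helper99, bd9.cpp).
-/

set_option autoImplicit false
set_option maxRecDepth 100000

namespace Pool.Agent.Lib.MP_f04ccf_co

namespace BlkC

/-- the numbers of the pair `(7, 6)`, `R = 19`, `H = 19` -/
def d19_19_7_6 : BlkD.Pd :=
  ⟨19, 19, 3, 7, 6, 3, 0, 4, 0, 4, 4, 0, 0, 4, 4, 0, [0, 4, 8, 12], [0, 4, 8, 12], [⟨1, 1, 1, 4, 8,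
    [0, 4], [0, 4]⟩]⟩

lemma dk19_19_7_6 : BlkD.pairOk d19_19_7_6 = true := by decide +kernel

/-- the certificates of the part 1 of the pair `(7, 6)` -/
def t19_19_7_6_1 : BlkD.Tr :=
  .L 3 3 [4, 19, 19, 19, 19, 19, 19] [] [] 100000 0 0 1500000 50000 50000 100000 100000 0 0 0

lemma n19_19_7_6_1 {n : ℕ} (hn : 5 ≤ n) : NoNd ((19 : ℕ) : ℤ) ((19 : ℕ) : ℤ) n 7 6
    (BlkD.inB (fun _ => 0)
      (BlkD.upd (BlkD.upd (BlkD.upd (BlkD.upd (BlkD.upd (fun _ => 19) 0 7) 2 6) 0 3) 0 1) 0 0)) :=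
  BlkD.part_sound (d := d19_19_7_6) dk19_19_7_6 hn (by decide) (tr := t19_19_7_6_1)
    (by decide +kernel) rfl rfl rfl rfl

/-- the certificates of the part 2 of the pair `(7, 6)` -/
def t19_19_7_6_2 : BlkD.Tr :=
  .L 3 3 [4, 19, 19, 19, 19, 19, 19] [] [] 100000 0 0 1500000 50000 50000 100000 100000 0 0 0

lemma n19_19_7_6_2 {n : ℕ} (hn : 5 ≤ n) : NoNd ((19 : ℕ) : ℤ) ((19 : ℕ) : ℤ) n 7 6
    (BlkD.inB (BlkD.upd (fun _ => 0) 0 1)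
      (BlkD.upd (BlkD.upd (BlkD.upd (BlkD.upd (fun _ => 19) 0 7) 2 6) 0 3) 0 1)) :=
  BlkD.part_sound (d := d19_19_7_6) dk19_19_7_6 hn (by decide) (tr := t19_19_7_6_2)
    (by decide +kernel) rfl rfl rfl rfl

/-- the certificates of the part 3 of the pair `(7, 6)` -/
def t19_19_7_6_3 : BlkD.Tr :=
  .L 3 3 [4, 19, 19, 19, 19, 19, 19] [] [] 100000 0 0 1500000 50000 50000 100000 100000 0 0 0

lemma n19_19_7_6_3 {n : ℕ} (hn : 5 ≤ n) : NoNd ((19 : ℕ) : ℤ) ((19 : ℕ) : ℤ) n 7 6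
    (BlkD.inB (BlkD.upd (fun _ => 0) 0 2)
      (BlkD.upd (BlkD.upd (BlkD.upd (BlkD.upd (fun _ => 19) 0 7) 2 6) 0 3) 0 2)) :=
  BlkD.part_sound (d := d19_19_7_6) dk19_19_7_6 hn (by decide) (tr := t19_19_7_6_3)
    (by decide +kernel) rfl rfl rfl rfl

/-- the certificates of the part 4 of the pair `(7, 6)` -/
def t19_19_7_6_4 : BlkD.Tr :=
  .L 3 3 [4, 19, 19, 19, 19, 19, 19] [] [] 100000 0 0 1500000 50000 50000 100000 100000 0 0 0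

lemma n19_19_7_6_4 {n : ℕ} (hn : 5 ≤ n) : NoNd ((19 : ℕ) : ℤ) ((19 : ℕ) : ℤ) n 7 6
    (BlkD.inB (BlkD.upd (BlkD.upd (fun _ => 0) 0 2) 0 3)
      (BlkD.upd (BlkD.upd (BlkD.upd (fun _ => 19) 0 7) 2 6) 0 3)) :=
  BlkD.part_sound (d := d19_19_7_6) dk19_19_7_6 hn (by decide) (tr := t19_19_7_6_4)
    (by decide +kernel) rfl rfl rfl rfl

/-- the certificates of the part 5 of the pair `(7, 6)` -/
def t19_19_7_6_5 : BlkD.Tr :=
  .L 3 3 [4, 19, 19, 19, 19, 19, 19] [] [] 100000 0 0 1500000 50000 50000 100000 100000 0 0 0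

lemma n19_19_7_6_5 {n : ℕ} (hn : 5 ≤ n) : NoNd ((19 : ℕ) : ℤ) ((19 : ℕ) : ℤ) n 7 6
    (BlkD.inB (BlkD.upd (fun _ => 0) 0 4)
      (BlkD.upd (BlkD.upd (BlkD.upd (BlkD.upd (fun _ => 19) 0 7) 2 6) 0 5) 0 4)) :=
  BlkD.part_sound (d := d19_19_7_6) dk19_19_7_6 hn (by decide) (tr := t19_19_7_6_5)
    (by decide +kernel) rfl rfl rfl rfl

/-- the certificates of the part 6 of the pair `(7, 6)` -/
def t19_19_7_6_6 : BlkD.Tr :=
  .L 3 3 [4, 19, 19, 19, 19, 19, 19] [] [] 100000 0 0 1500000 50000 50000 100000 100000 0 0 0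

lemma n19_19_7_6_6 {n : ℕ} (hn : 5 ≤ n) : NoNd ((19 : ℕ) : ℤ) ((19 : ℕ) : ℤ) n 7 6
    (BlkD.inB (BlkD.upd (BlkD.upd (fun _ => 0) 0 4) 0 5)
      (BlkD.upd (BlkD.upd (BlkD.upd (fun _ => 19) 0 7) 2 6) 0 5)) :=
  BlkD.part_sound (d := d19_19_7_6) dk19_19_7_6 hn (by decide) (tr := t19_19_7_6_6)
    (by decide +kernel) rfl rfl rfl rfl

/-- the certificates of the part 7 of the pair `(7, 6)` -/
def t19_19_7_6_7 : BlkD.Tr :=
  .L 3 3 [4, 19, 19, 19, 19, 19, 19] [] [] 100000 0 0 1500000 50000 50000 100000 100000 0 0 0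

lemma n19_19_7_6_7 {n : ℕ} (hn : 5 ≤ n) : NoNd ((19 : ℕ) : ℤ) ((19 : ℕ) : ℤ) n 7 6
    (BlkD.inB (BlkD.upd (BlkD.upd (fun _ => 0) 0 4) 0 6)
      (BlkD.upd (BlkD.upd (BlkD.upd (fun _ => 19) 0 7) 2 6) 0 6)) :=
  BlkD.part_sound (d := d19_19_7_6) dk19_19_7_6 hn (by decide) (tr := t19_19_7_6_7)
    (by decide +kernel) rfl rfl rfl rfl

/-- the certificates of the part 8 of the pair `(7, 6)` -/
def t19_19_7_6_8 : BlkD.Tr :=
  .L 3 3 [4, 19, 19, 19, 19, 19, 19] [] [] 100000 0 0 1500000 50000 50000 100000 100000 0 0 0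

lemma n19_19_7_6_8 {n : ℕ} (hn : 5 ≤ n) : NoNd ((19 : ℕ) : ℤ) ((19 : ℕ) : ℤ) n 7 6
    (BlkD.inB (BlkD.upd (BlkD.upd (BlkD.upd (fun _ => 0) 0 4) 0 6) 0 7)
      (BlkD.upd (BlkD.upd (fun _ => 19) 0 7) 2 6)) :=
  BlkD.part_sound (d := d19_19_7_6) dk19_19_7_6 hn (by decide) (tr := t19_19_7_6_8)
    (by decide +kernel) rfl rfl rfl rfl

/-- the certificates of the part 9 of the pair `(7, 6)` -/
def t19_19_7_6_9 : BlkD.Tr :=
  .E 1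

lemma n19_19_7_6_9 {n : ℕ} (hn : 5 ≤ n) : NoNd ((19 : ℕ) : ℤ) ((19 : ℕ) : ℤ) n 7 6
    (BlkD.inB (BlkD.upd (fun _ => 0) 2 7)
      (BlkD.upd (fun _ => 19) 0 7)) :=
  BlkD.part_sound (d := d19_19_7_6) dk19_19_7_6 hn (by decide) (tr := t19_19_7_6_9)
    (by decide +kernel) rfl rfl rfl rfl

/-- the certificates of the part 10 of the pair `(7, 6)` -/
def t19_19_7_6_10 : BlkD.Tr :=
  .E 0

lemma n19_19_7_6_10 {n : ℕ} (hn : 5 ≤ n) : NoNd ((19 : ℕ) : ℤ) ((19 : ℕ) : ℤ) n 7 6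
    (BlkD.inB (BlkD.upd (fun _ => 0) 0 8)
      (fun _ => 19)) :=
  BlkD.part_sound (d := d19_19_7_6) dk19_19_7_6 hn (by decide) (tr := t19_19_7_6_10)
    (by decide +kernel) rfl rfl rfl rfl

lemma pr19_19_7_6 {n : ℕ} (hn : 5 ≤ n) : NoPr ((19 : ℕ) : ℤ) ((19 : ℕ) : ℤ) n 7 6 :=
  BlkD.of_root (q := 3) (by decide) hn (BlkD.sp 0 7 (BlkD.sp 2 6 (BlkD.sp 0 3 (BlkD.sp 0 1 (BlkD.sp 0 0 (n19_19_7_6_1 hn)
    (n19_19_7_6_2 hn))
    (BlkD.sp 0 2 (n19_19_7_6_3 hn)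
    (n19_19_7_6_4 hn)))
    (BlkD.sp 0 5 (BlkD.sp 0 4 (n19_19_7_6_5 hn)
    (n19_19_7_6_6 hn))
    (BlkD.sp 0 6 (n19_19_7_6_7 hn)
    (n19_19_7_6_8 hn))))
    (n19_19_7_6_9 hn))
    (n19_19_7_6_10 hn))

/-- the numbers of the pair `(8, 0)`, `R = 19`, `H = 19` -/
def d19_19_8_0 : BlkD.Pd :=
  ⟨19, 19, 3, 8, 0, 8, 0, 1, 0, 4, 4, 0, 0, 4, 4, 0, [0, 4, 8, 12, 16, 20, 24, 28, 32], [0, 4, 8,
    12, 16, 20, 24, 28, 32], [⟨1, 1, 1, 4, 8, [0, 4], [0, 4]⟩]⟩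

lemma dk19_19_8_0 : BlkD.pairOk d19_19_8_0 = true := by decide +kernel

/-- the certificates of the part 1 of the pair `(8, 0)` -/
def t19_19_8_0_1 : BlkD.Tr :=
  .S 0 8 (.S 2 0 (.L 3 3 [4] [] [] 100000 0 0 994117 47059 0 58824 0 0 0 0) (.E 1)) (.E 0)

lemma n19_19_8_0_1 {n : ℕ} (hn : 5 ≤ n) : NoNd ((19 : ℕ) : ℤ) ((19 : ℕ) : ℤ) n 8 0
    (BlkD.inB (fun _ => 0)
      (fun _ => 19)) :=
  BlkD.part_sound (d := d19_19_8_0) dk19_19_8_0 hn (by decide) (tr := t19_19_8_0_1)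
    (by decide +kernel) rfl rfl rfl rfl

lemma pr19_19_8_0 {n : ℕ} (hn : 5 ≤ n) : NoPr ((19 : ℕ) : ℤ) ((19 : ℕ) : ℤ) n 8 0 :=
  BlkD.of_root (q := 3) (by decide) hn (n19_19_8_0_1 hn)

/-- the numbers of the pair `(8, 1)`, `R = 19`, `H = 19` -/
def d19_19_8_1 : BlkD.Pd :=
  ⟨19, 19, 3, 8, 1, 7, 1, 1, 0, 4, 8, 0, 0, 4, 4, 0, [0, 8, 16, 24, 28, 28, 28, 28], [0, 4, 8, 12,
    16, 20, 24, 28], [⟨1, 1, 1, 4, 8, [0, 4], [0, 4]⟩, ⟨1, 1, 1, 4, 12, [0, 8], [0, 4]⟩]⟩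

lemma dk19_19_8_1 : BlkD.pairOk d19_19_8_1 = true := by decide +kernel

/-- the certificates of the part 1 of the pair `(8, 1)` -/
def t19_19_8_1_1 : BlkD.Tr :=
  .S 0 8 (.S 2 1 (.S 0 4 (.L 4 5 [4, 4] [] [] 100000 20000 0 960000 60000 0 80000 0 0 0 0) (.L 4 5
    [4, 4] [] [] 100000 0 0 1175000 25000 0 87500 0 0 0 0)) (.E 1)) (.E 0)

lemma n19_19_8_1_1 {n : ℕ} (hn : 5 ≤ n) : NoNd ((19 : ℕ) : ℤ) ((19 : ℕ) : ℤ) n 8 1
    (BlkD.inB (fun _ => 0)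
      (fun _ => 19)) :=
  BlkD.part_sound (d := d19_19_8_1) dk19_19_8_1 hn (by decide) (tr := t19_19_8_1_1)
    (by decide +kernel) rfl rfl rfl rfl

lemma pr19_19_8_1 {n : ℕ} (hn : 5 ≤ n) : NoPr ((19 : ℕ) : ℤ) ((19 : ℕ) : ℤ) n 8 1 :=
  BlkD.of_root (q := 3) (by decide) hn (n19_19_8_1_1 hn)

/-- the numbers of the pair `(8, 2)`, `R = 19`, `H = 19` -/
def d19_19_8_2 : BlkD.Pd :=
  ⟨19, 19, 3, 8, 2, 6, 2, 2, 4, 2, 10, 0, 3, 1, 6, 0, [0, 10, 20, 24, 28, 32, 36], [0, 6, 12, 15,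
    18, 21, 24], [⟨1, 1, 1, 4, 8, [0, 4], [0, 4]⟩, ⟨1, 1, 1, 4, 12, [0, 8], [0, 4]⟩, ⟨2, 1, 1, 4,
    20, [0, 10, 14], [0, 6]⟩]⟩

lemma dk19_19_8_2 : BlkD.pairOk d19_19_8_2 = true := by decide +kernel

/-- the certificates of the part 1 of the pair `(8, 2)` -/
def t19_19_8_2_1 : BlkD.Tr :=
  .L 4 7 [4, 4, 4] [] [] 100000 100000 100000 840000 80000 0 90000 0 0 0 0

lemma n19_19_8_2_1 {n : ℕ} (hn : 5 ≤ n) : NoNd ((19 : ℕ) : ℤ) ((19 : ℕ) : ℤ) n 8 2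
    (BlkD.inB (fun _ => 0)
      (BlkD.upd (BlkD.upd (BlkD.upd (BlkD.upd (fun _ => 19) 0 8) 2 2) 0 4) 0 2)) :=
  BlkD.part_sound (d := d19_19_8_2) dk19_19_8_2 hn (by decide) (tr := t19_19_8_2_1)
    (by decide +kernel) rfl rfl rfl rfl

/-- the certificates of the part 2 of the pair `(8, 2)` -/
def t19_19_8_2_2 : BlkD.Tr :=
  .S 1 16 (.S 1 8 (.L 4 7 [4, 4, 4] [] [] 100000 19232 19231 1130766 38462 0 38462 30769 0 15385 0)
    (.S 1 12 (.S 1 10 (.S 1 9 (.L 4 7 [4, 4, 4] [180, 176, 172, 168, 164, 160] [] 100000 25000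
    25000 1100000 50000 0 50000 50000 0 50000 0) (.L 4 7 [4, 4, 4] [208, 204, 200, 196, 192, 188]
    [] 100000 25000 25000 1150000 50000 0 50000 50000 0 50000 0)) (.S 1 11 (.L 4 7 [4, 4, 4] [238,
    234, 230, 226, 222, 218] [] 100000 110000 110000 880000 80000 0 100000 40000 0 20000 20000) (.L
    4 7 [4, 4, 4] [270, 266, 262, 258, 254, 250] [] 100000 137037 125926 755556 88889 0 111111
    48148 0 3704 0))) (.S 1 14 (.S 1 13 (.L 4 7 [4, 4, 4] [304, 300, 296, 292, 288, 284] [] 100000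
    253333 166666 1 173333 0 186667 0 0 0 0) (.L 4 7 [4, 4, 4] [340, 336, 332, 328, 324, 320] []
    100000 226000 142000 0 156000 0 184000 0 0 0 0)) (.S 1 15 (.L 4 7 [4, 4, 4] [378, 374, 370,
    366, 362, 358] [] 100000 216666 158333 4 158333 0 158333 0 0 0 0) (.L 4 7 [4, 4, 4] [418, 414,
    410, 406, 402, 398] [] 100000 115909 1 5 129545 0 172727 0 0 0 0))))) (.E 0)

lemma n19_19_8_2_2 {n : ℕ} (hn : 5 ≤ n) : NoNd ((19 : ℕ) : ℤ) ((19 : ℕ) : ℤ) n 8 2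
    (BlkD.inB (BlkD.upd (fun _ => 0) 0 3)
      (BlkD.upd (BlkD.upd (BlkD.upd (BlkD.upd (fun _ => 19) 0 8) 2 2) 0 4) 0 3)) :=
  BlkD.part_sound (d := d19_19_8_2) dk19_19_8_2 hn (by decide) (tr := t19_19_8_2_2)
    (by decide +kernel) rfl rfl rfl rfl

/-- the certificates of the part 3 of the pair `(8, 2)` -/
def t19_19_8_2_3 : BlkD.Tr :=
  .S 1 15 (.S 1 7 (.L 4 7 [4, 4, 4] [] [] 100000 16666 16665 1200003 33333 0 33333 33333 0 33333 0)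
    (.S 1 11 (.S 1 9 (.S 1 8 (.L 4 7 [4, 4, 4] [170, 166, 162, 158, 154, 150] [] 100000 57692 57692
    1107694 53846 0 69231 30769 0 15385 0) (.L 4 7 [4, 4, 4] [198, 194, 190, 186, 182, 178] []
    100000 61112 61112 1111109 55556 0 77778 33333 0 11111 11111)) (.S 1 10 (.L 4 7 [4, 4, 4] [228,
    224, 220, 216, 212, 208] [] 100000 71429 71429 1057143 57143 0 100000 42857 0 14286 28571) (.L
    4 7 [4, 4, 4] [260, 256, 252, 248, 244, 240] [] 100000 75862 75860 986205 68966 0 100000 31034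
    0 10345 13793))) (.S 1 13 (.S 1 12 (.L 4 7 [4, 4, 4] [294, 290, 286, 282, 278, 274] [] 100000
    133333 66665 599999 100000 0 166667 0 0 0 0) (.L 4 7 [4, 4, 4] [330, 326, 322, 318, 314, 310]
    [] 100000 173334 0 0 136667 0 223333 0 0 0 0)) (.L 4 7 [4, 4, 4] [] [] 100000 186792 0 3 35849
    0 286792 0 0 0 0)))) (.E 0)

lemma n19_19_8_2_3 {n : ℕ} (hn : 5 ≤ n) : NoNd ((19 : ℕ) : ℤ) ((19 : ℕ) : ℤ) n 8 2
    (BlkD.inB (BlkD.upd (BlkD.upd (fun _ => 0) 0 3) 0 4)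
      (BlkD.upd (BlkD.upd (BlkD.upd (fun _ => 19) 0 8) 2 2) 0 4)) :=
  BlkD.part_sound (d := d19_19_8_2) dk19_19_8_2 hn (by decide) (tr := t19_19_8_2_3)
    (by decide +kernel) rfl rfl rfl rfl

/-- the certificates of the part 4 of the pair `(8, 2)` -/
def t19_19_8_2_4 : BlkD.Tr :=
  .S 1 14 (.S 1 7 (.S 1 3 (.L 4 7 [4, 4, 4] [] [] 100000 25000 25000 1000000 50000 0 50000 25000 0
    0 0) (.S 1 5 (.L 4 7 [4, 4, 4] [] [] 100000 12500 12500 1200000 25000 0 25000 37500 0 0 0) (.S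
    1 6 (.L 4 7 [4, 4, 4] [132, 128, 124, 120, 110, 100] [] 100000 16666 16665 1233336 33333 0
    33333 33333 0 16667 16667) (.L 4 7 [4, 4, 4] [158, 154, 150, 146, 142, 132] [] 100000 16666
    16665 1233335 33333 0 66667 50000 0 16667 16667)))) (.S 1 11 (.S 1 9 (.S 1 8 (.L 4 7 [4, 4, 4]
    [186, 182, 178, 174, 170, 166] [] 100000 45000 45000 1160000 40000 0 100000 50000 0 0 20000)
    (.L 4 7 [4, 4, 4] [216, 212, 208, 204, 200, 196] [] 100000 50000 50000 1100000 50000 0 100000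
    50000 0 0 0)) (.L 4 7 [4, 4, 4] [] [] 100000 2085 2085 1279165 4167 0 100000 50000 0 16667
    16667)) (.E 0))) (.E 0)

lemma n19_19_8_2_4 {n : ℕ} (hn : 5 ≤ n) : NoNd ((19 : ℕ) : ℤ) ((19 : ℕ) : ℤ) n 8 2
    (BlkD.inB (BlkD.upd (fun _ => 0) 0 5)
      (BlkD.upd (BlkD.upd (BlkD.upd (BlkD.upd (fun _ => 19) 0 8) 2 2) 0 6) 0 5)) :=
  BlkD.part_sound (d := d19_19_8_2) dk19_19_8_2 hn (by decide) (tr := t19_19_8_2_4)
    (by decide +kernel) rfl rfl rfl rfl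

/-- the certificates of the part 5 of the pair `(8, 2)` -/
def t19_19_8_2_5 : BlkD.Tr :=
  .S 1 13 (.S 1 6 (.S 1 3 (.L 4 7 [4, 4, 4] [] [] 100000 25000 25000 1100000 50000 0 50000 25000 0
    0 0) (.S 1 5 (.S 1 4 (.L 4 7 [4, 4, 4] [94, 90, 80, 70, 60, 0] [] 100000 16666 16665 1200002
    33333 0 33333 33333 0 0 0) (.L 4 7 [4, 4, 4] [118, 114, 110, 100, 90, 80] [] 100000 18292 18291
    1217075 36585 0 73171 31707 0 29268 19512)) (.L 4 7 [4, 4, 4] [144, 140, 136, 132, 122, 112] []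
    100000 13889 13889 1222222 27778 0 94444 38889 0 22222 16667))) (.L 4 7 [4, 4, 4] [] [] 100000
    1666 1665 1286668 3333 0 100000 50000 0 16667 16667)) (.E 0)

lemma n19_19_8_2_5 {n : ℕ} (hn : 5 ≤ n) : NoNd ((19 : ℕ) : ℤ) ((19 : ℕ) : ℤ) n 8 2
    (BlkD.inB (BlkD.upd (BlkD.upd (fun _ => 0) 0 5) 0 6)
      (BlkD.upd (BlkD.upd (BlkD.upd (fun _ => 19) 0 8) 2 2) 0 6)) :=
  BlkD.part_sound (d := d19_19_8_2) dk19_19_8_2 hn (by decide) (tr := t19_19_8_2_5)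
    (by decide +kernel) rfl rfl rfl rfl

/-- the certificates of the part 6 of the pair `(8, 2)` -/
def t19_19_8_2_6 : BlkD.Tr :=
  .L 4 7 [4, 4, 4] [] [] 100000 0 0 1291380 3448 0 98276 6034 1724 24138 24138

lemma n19_19_8_2_6 {n : ℕ} (hn : 5 ≤ n) : NoNd ((19 : ℕ) : ℤ) ((19 : ℕ) : ℤ) n 8 2
    (BlkD.inB (BlkD.upd (BlkD.upd (fun _ => 0) 0 5) 0 7)
      (BlkD.upd (BlkD.upd (fun _ => 19) 0 8) 2 2)) :=
  BlkD.part_sound (d := d19_19_8_2) dk19_19_8_2 hn (by decide) (tr := t19_19_8_2_6)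
    (by decide +kernel) rfl rfl rfl rfl

/-- the certificates of the part 7 of the pair `(8, 2)` -/
def t19_19_8_2_7 : BlkD.Tr :=
  .E 1

lemma n19_19_8_2_7 {n : ℕ} (hn : 5 ≤ n) : NoNd ((19 : ℕ) : ℤ) ((19 : ℕ) : ℤ) n 8 2
    (BlkD.inB (BlkD.upd (fun _ => 0) 2 3)
      (BlkD.upd (fun _ => 19) 0 8)) :=
  BlkD.part_sound (d := d19_19_8_2) dk19_19_8_2 hn (by decide) (tr := t19_19_8_2_7)
    (by decide +kernel) rfl rfl rfl rfl

/-- the certificates of the part 8 of the pair `(8, 2)` -/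
def t19_19_8_2_8 : BlkD.Tr :=
  .E 0

lemma n19_19_8_2_8 {n : ℕ} (hn : 5 ≤ n) : NoNd ((19 : ℕ) : ℤ) ((19 : ℕ) : ℤ) n 8 2
    (BlkD.inB (BlkD.upd (fun _ => 0) 0 9)
      (fun _ => 19)) :=
  BlkD.part_sound (d := d19_19_8_2) dk19_19_8_2 hn (by decide) (tr := t19_19_8_2_8)
    (by decide +kernel) rfl rfl rfl rfl

lemma pr19_19_8_2 {n : ℕ} (hn : 5 ≤ n) : NoPr ((19 : ℕ) : ℤ) ((19 : ℕ) : ℤ) n 8 2 :=
  BlkD.of_root (q := 3) (by decide) hn (BlkD.sp 0 8 (BlkD.sp 2 2 (BlkD.sp 0 4 (BlkD.sp 0 2 (n19_19_8_2_1 hn)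
    (BlkD.sp 0 3 (n19_19_8_2_2 hn)
    (n19_19_8_2_3 hn)))
    (BlkD.sp 0 6 (BlkD.sp 0 5 (n19_19_8_2_4 hn)
    (n19_19_8_2_5 hn))
    (n19_19_8_2_6 hn)))
    (n19_19_8_2_7 hn))
    (n19_19_8_2_8 hn))

/-- the numbers of the pair `(8, 3)`, `R = 19`, `H = 19` -/
def d19_19_8_3 : BlkD.Pd :=
  ⟨19, 19, 3, 8, 3, 5, 2, 2, 1, 4, 10, 0, 2, 2, 6, 0, [0, 10, 20, 23, 24, 25], [0, 6, 12, 16, 18,
    20], [⟨1, 1, 1, 4, 8, [0, 4], [0, 4]⟩, ⟨1, 1, 1, 4, 14, [0, 8], [0, 6]⟩, ⟨2, 1, 1, 4, 20, [0,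
    10, 14], [0, 6]⟩]⟩

lemma dk19_19_8_3 : BlkD.pairOk d19_19_8_3 = true := by decide +kernel

/-- the certificates of the part 1 of the pair `(8, 3)` -/
def t19_19_8_3_1 : BlkD.Tr :=
  .L 5 7 [4, 4, 4, 19] [] [] 100000 157142 157142 957146 85714 0 85714 42857 0 0 0

lemma n19_19_8_3_1 {n : ℕ} (hn : 5 ≤ n) : NoNd ((19 : ℕ) : ℤ) ((19 : ℕ) : ℤ) n 8 3
    (BlkD.inB (fun _ => 0)
      (BlkD.upd (BlkD.upd (BlkD.upd (BlkD.upd (fun _ => 19) 0 8) 2 3) 0 4) 0 2)) :=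
  BlkD.part_sound (d := d19_19_8_3) dk19_19_8_3 hn (by decide) (tr := t19_19_8_3_1)
    (by decide +kernel) rfl rfl rfl rfl

/-- the certificates of the part 2 of the pair `(8, 3)` -/
def t19_19_8_3_2 : BlkD.Tr :=
  .S 1 16 (.S 1 8 (.S 1 4 (.L 5 7 [4, 4, 4, 19] [] [] 100000 16667 16667 1066668 33333 0 33333
    50000 0 0 0) (.S 1 6 (.L 5 7 [4, 4, 4, 19] [] [] 100000 24999 24999 1200002 33333 0 33333 50000
    0 0 0) (.S 1 7 (.L 5 7 [4, 4, 4, 19] [131, 130, 129, 126, 116, 106] [] 100000 15385 15385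
    1284617 30769 0 30769 46154 0 0 0) (.L 5 7 [4, 4, 4, 19] [152, 151, 150, 149, 146, 136] []
    100000 35000 35000 1280000 40000 0 60000 30000 0 10000 20000)))) (.S 1 12 (.S 1 10 (.S 1 9 (.L
    5 7 [4, 4, 4, 19] [175, 174, 173, 172, 171, 168] [] 100000 112500 112500 1100000 75000 0 100000
    25000 0 0 0) (.L 5 7 [4, 4, 4, 19] [200, 199, 198, 197, 196, 195] [] 100000 150000 150000
    1000000 100000 0 100000 0 0 0 0)) (.S 1 11 (.L 5 7 [4, 4, 4, 19] [227, 226, 225, 224, 223, 222]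
    [] 100000 216666 183333 733336 133333 0 133333 33333 0 0 0) (.L 5 7 [4, 4, 4, 19] [256, 255,
    254, 253, 252, 251] [] 100000 357142 228571 3 228571 0 228571 0 0 0 0))) (.S 1 14 (.S 1 13 (.L
    5 7 [4, 4, 4, 19] [287, 286, 285, 284, 283, 282] [] 100000 300000 200000 0 200000 0 200000 0 0
    0 0) (.L 5 7 [4, 4, 4, 19] [320, 319, 318, 317, 316, 315] [] 100000 260000 180000 0 180000 0
    180000 0 0 0 0)) (.L 5 7 [4, 4, 4, 19] [] [] 100000 522726 459090 4 163636 0 163636 0 0 0 0))))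
    (.E 0)

lemma n19_19_8_3_2 {n : ℕ} (hn : 5 ≤ n) : NoNd ((19 : ℕ) : ℤ) ((19 : ℕ) : ℤ) n 8 3
    (BlkD.inB (BlkD.upd (fun _ => 0) 0 3)
      (BlkD.upd (BlkD.upd (BlkD.upd (BlkD.upd (fun _ => 19) 0 8) 2 3) 0 4) 0 3)) :=
  BlkD.part_sound (d := d19_19_8_3) dk19_19_8_3 hn (by decide) (tr := t19_19_8_3_2)
    (by decide +kernel) rfl rfl rfl rfl

/-- the certificates of the part 3 of the pair `(8, 3)` -/
def t19_19_8_3_3 : BlkD.Tr :=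
  .S 1 15 (.S 1 7 (.S 1 3 (.L 5 7 [4, 4, 4, 19] [] [] 100000 0 0 1200000 0 0 0 0 0 0 0) (.S 1 5 (.L
    5 7 [4, 4, 4, 19] [] [] 100000 12500 12500 1275000 25000 0 25000 37500 0 0 0) (.S 1 6 (.L 5 7
    [4, 4, 4, 19] [124, 123, 120, 110, 100, 90] [] 100000 14286 14286 1328574 28571 0 35714 25000 0
    21429 0) (.L 5 7 [4, 4, 4, 19] [145, 144, 143, 140, 130, 120] [] 100000 25000 25000 1337500
    37500 0 50000 25000 0 12500 12500)))) (.S 1 11 (.S 1 9 (.S 1 8 (.S 2 1 (.S 2 0 (.L 5 7 [4, 4,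
    4, 19] [168, 167, 166, 165, 162, 152] [] 100000 15000 15000 1270000 30000 0 40000 70000 0 0 0)
    (.S 3 6 (.S 3 3 (.S 3 1 (.L 5 7 [4, 4, 4, 19] [168, 167, 166, 165, 162, 152] [] 100000 12500
    12500 1300000 25000 12500 37500 25000 0 0 0) (.S 3 2 (.L 5 7 [4, 4, 4, 19] [168, 167, 166, 165,
    162, 152] [28, 18, 6, 0, 0, 0] 100000 68750 68750 1250000 50000 25000 75000 37500 0 12500 0)
    (.L 3 4 [4, 5, 7, 19] [168, 167, 166, 165, 162, 152] [40, 34, 24, 12, 0, 0] 100000 121430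
    121430 1149998 64286 0 64286 64286 0 14286 14286))) (.L 5 7 [4, 4, 4, 19] [168, 167, 166, 165,
    162, 152] [] 100000 120000 120000 1060000 80000 0 80000 40000 0 0 0)) (.E 1))) (.L 5 7 [4, 4,
    4, 19] [168, 167, 166, 165, 162, 152] [] 100000 57692 57692 1269232 53846 0 69231 30769 0 15385
    0)) (.S 2 1 (.S 2 0 (.L 5 7 [4, 4, 4, 19] [193, 192, 191, 190, 189, 186] [] 100000 85000 85000
    1120000 60000 0 80000 60000 0 0 10000) (.S 3 5 (.S 3 2 (.L 5 7 [4, 4, 4, 19] [193, 192, 191,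
    190, 189, 186] [] 100000 68750 68750 1250000 50000 25000 75000 50000 0 0 12500) (.L 5 7 [4, 4,
    4, 19] [193, 192, 191, 190, 189, 186] [] 100000 125000 125000 1125000 75000 0 100000 50000 0 0
    0)) (.E 1))) (.L 5 7 [4, 4, 4, 19] [193, 192, 191, 190, 189, 186] [] 100000 65219 65219 1265216
    56522 0 82609 30435 0 4348 8696))) (.S 1 10 (.L 5 7 [4, 4, 4, 19] [220, 219, 218, 217, 216,
    215] [] 100000 100000 100000 1125000 75000 0 100000 75000 0 0 0) (.L 5 7 [4, 4, 4, 19] [249,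
    248, 247, 246, 245, 244] [] 100000 150000 100000 850000 100000 0 150000 50000 0 0 0))) (.S 1 13
    (.S 1 12 (.L 5 7 [4, 4, 4, 19] [280, 279, 278, 277, 276, 275] [] 100000 266668 66668 166665
    166667 0 300000 0 0 0 0) (.L 5 7 [4, 4, 4, 19] [313, 312, 311, 310, 309, 308] [] 100000 238462
    100000 0 169231 0 238462 0 0 0 0)) (.E 0)))) (.E 0)

lemma n19_19_8_3_3 {n : ℕ} (hn : 5 ≤ n) : NoNd ((19 : ℕ) : ℤ) ((19 : ℕ) : ℤ) n 8 3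
    (BlkD.inB (BlkD.upd (BlkD.upd (fun _ => 0) 0 3) 0 4)
      (BlkD.upd (BlkD.upd (BlkD.upd (fun _ => 19) 0 8) 2 3) 0 4)) :=
  BlkD.part_sound (d := d19_19_8_3) dk19_19_8_3 hn (by decide) (tr := t19_19_8_3_3)
    (by decide +kernel) rfl rfl rfl rfl

/-- the certificates of the part 4 of the pair `(8, 3)` -/
def t19_19_8_3_4 : BlkD.Tr :=
  .L 5 7 [4, 4, 4, 19] [] [] 100000 0 0 1300000 0 0 0 0 0 0 0

lemma n19_19_8_3_4 {n : ℕ} (hn : 5 ≤ n) : NoNd ((19 : ℕ) : ℤ) ((19 : ℕ) : ℤ) n 8 3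
    (BlkD.inB (BlkD.upd (fun _ => 0) 0 5)
      (BlkD.upd (BlkD.upd (BlkD.upd (BlkD.upd (BlkD.upd (BlkD.upd (BlkD.upd (fun _ => 19) 0 8) 2 3) 0 6) 0 5) 1 14) 1 7) 1 3)) :=
  BlkD.part_sound (d := d19_19_8_3) dk19_19_8_3 hn (by decide) (tr := t19_19_8_3_4)
    (by decide +kernel) rfl rfl rfl rfl

/-- the certificates of the part 5 of the pair `(8, 3)` -/
def t19_19_8_3_5 : BlkD.Tr :=
  .S 1 4 (.L 5 7 [4, 4, 4, 19] [94, 84, 74, 64, 52, 0] [] 100000 16667 16667 1266668 33333 0 33333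
    33333 0 0 0) (.S 2 1 (.S 2 0 (.L 5 7 [4, 4, 4, 19] [115, 112, 102, 92, 82, 70] [] 100000 0 0
    1200000 0 0 0 100000 0 0 0) (.S 3 8 (.S 3 4 (.S 3 2 (.L 5 7 [4, 4, 4, 19] [115, 112, 102, 92,
    82, 70] [] 100000 0 0 1300000 0 0 0 0 0 0 0) (.S 3 3 (.L 5 7 [4, 4, 4, 19] [115, 112, 102, 92,
    82, 70] [40, 34, 24, 12, 0, 0] 100000 8334 8334 1333333 16667 16667 33333 25000 0 0 0) (.L 6 8
    [4, 4, 3, 19] [115, 112, 102, 92, 82, 70] [54, 48, 42, 32, 20, 0] 100000 20000 20000 1300000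
    40000 0 40000 40000 0 60000 0))) (.E 1)) (.E 1))) (.L 6 8 [4, 4, 3, 19] [115, 112, 102, 92, 82,
    70] [] 100000 0 0 1357145 28571 0 42857 7143 0 42857 28571))

lemma n19_19_8_3_5 {n : ℕ} (hn : 5 ≤ n) : NoNd ((19 : ℕ) : ℤ) ((19 : ℕ) : ℤ) n 8 3
    (BlkD.inB (BlkD.upd (BlkD.upd (fun _ => 0) 0 5) 1 4)
      (BlkD.upd (BlkD.upd (BlkD.upd (BlkD.upd (BlkD.upd (BlkD.upd (BlkD.upd (fun _ => 19) 0 8) 2 3) 0 6) 0 5) 1 14) 1 7) 1 5)) :=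
  BlkD.part_sound (d := d19_19_8_3) dk19_19_8_3 hn (by decide) (tr := t19_19_8_3_5)
    (by decide +kernel) rfl rfl rfl rfl

/-- the certificates of the part 6 of the pair `(8, 3)` -/
def t19_19_8_3_6 : BlkD.Tr :=
  .S 1 6 (.S 2 1 (.S 2 0 (.L 6 8 [4, 4, 3, 19] [136, 135, 132, 122, 112, 102] [] 100000 14286 14286
    1242858 28571 0 42857 71429 0 0 0) (.S 3 7 (.S 3 3 (.L 6 8 [4, 4, 3, 19] [136, 135, 132, 122,
    112, 102] [] 100000 5000 5000 1370000 30000 10000 50000 30000 0 20000 20000) (.S 3 5 (.S 3 4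
    (.S 4 6 (.S 4 3 (.L 6 8 [4, 4, 3, 19] [122, 112, 102, 90, 0, 0] [54, 48, 42, 32, 20, 0] 100000
    14286 14286 1342858 42857 0 64286 21429 0 14286 14286) (.L 6 8 [4, 4, 3, 19] [136, 135, 132,
    122, 112, 102] [54, 48, 42, 32, 20, 0] 100000 233334 1 133334 66667 0 333333 66667 0 0 0)) (.E
    2)) (.E 1)) (.E 1))) (.E 1))) (.S 2 2 (.S 3 6 (.S 3 3 (.S 3 1 (.L 6 8 [4, 4, 3, 19] [136, 135,
    132, 122, 112, 102] [] 100000 16667 16667 1333334 33333 0 66667 33333 0 0 0) (.L 6 8 [4, 4, 3,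
    19] [136, 135, 132, 122, 112, 102] [] 100000 15278 15278 1366667 38889 0 47222 27778 0 25000
    8333)) (.E 1)) (.E 1)) (.L 6 8 [4, 4, 3, 19] [136, 135, 132, 122, 112, 102] [] 100000 8333 8333
    1333335 33333 0 66667 0 0 16667 16667))) (.S 2 1 (.S 2 0 (.L 6 8 [4, 4, 3, 19] [159, 158, 157,
    154, 144, 134] [] 100000 14286 14286 1257145 28571 0 57143 85714 0 0 0) (.S 3 6 (.S 3 3 (.S 3 1
    (.L 6 8 [4, 4, 3, 19] [159, 158, 157, 154, 144, 134] [] 100000 18750 18750 1287500 37500 0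
    75000 37500 0 0 0) (.S 3 2 (.L 6 8 [4, 4, 3, 19] [159, 158, 157, 154, 144, 134] [28, 18, 6, 0,
    0, 0] 100000 16667 16667 1333335 33333 33333 66667 33333 0 0 0) (.S 4 7 (.S 4 3 (.L 6 8 [4, 4,
    3, 19] [144, 134, 124, 112, 0, 0] [40, 34, 24, 12, 0, 0] 100000 21429 21429 1335716 42857 0
    92857 28571 0 0 0) (.L 6 8 [4, 4, 3, 19] [159, 158, 157, 154, 144, 134] [40, 34, 24, 12, 0, 0]
    100000 71429 0 942857 28571 0 171429 57143 0 0 0)) (.E 2)))) (.S 3 5 (.S 3 4 (.S 4 7 (.S 4 3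
    (.L 6 8 [4, 4, 3, 19] [144, 134, 124, 112, 0, 0] [54, 48, 42, 32, 20, 0] 100000 55000 55000
    1240000 60000 0 100000 20000 0 0 10000) (.L 6 8 [4, 4, 3, 19] [159, 158, 157, 154, 144, 134]
    [54, 48, 42, 32, 20, 0] 100000 150000 0 550000 50000 0 250000 50000 0 0 0)) (.E 2)) (.E 1)) (.E
    1))) (.E 1))) (.S 2 2 (.S 3 5 (.S 3 2 (.S 3 1 (.L 6 8 [4, 4, 3, 19] [159, 158, 157, 154, 144,
    134] [] 100000 16667 16667 1344445 38889 0 83333 0 0 5556 5556) (.L 5 7 [4, 4, 4, 19] [159,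
    158, 157, 154, 144, 134] [32, 22, 10, 0, 0, 0] 100000 21053 21053 1347369 36842 0 68421 36842 0
    36842 21053)) (.S 3 4 (.S 3 3 (.S 4 7 (.S 4 3 (.L 5 7 [4, 4, 4, 19] [144, 134, 124, 112, 0, 0]
    [46, 40, 30, 18, 0, 0] 100000 80000 80000 1180000 70000 0 100000 0 0 10000 10000) (.L 5 7 [4,
    4, 4, 19] [159, 158, 157, 154, 144, 134] [46, 40, 30, 18, 0, 0] 100000 260001 1 0 86667 0
    360000 0 0 0 0)) (.E 2)) (.E 1)) (.E 1))) (.E 1)) (.L 5 7 [4, 4, 4, 19] [159, 158, 157, 154,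
    144, 134] [] 100000 50001 50001 1276471 47059 0 88235 0 0 29412 17647)))

lemma n19_19_8_3_6 {n : ℕ} (hn : 5 ≤ n) : NoNd ((19 : ℕ) : ℤ) ((19 : ℕ) : ℤ) n 8 3
    (BlkD.inB (BlkD.upd (BlkD.upd (BlkD.upd (fun _ => 0) 0 5) 1 4) 1 6)
      (BlkD.upd (BlkD.upd (BlkD.upd (BlkD.upd (BlkD.upd (BlkD.upd (fun _ => 19) 0 8) 2 3) 0 6) 0 5) 1 14) 1 7)) :=
  BlkD.part_sound (d := d19_19_8_3) dk19_19_8_3 hn (by decide) (tr := t19_19_8_3_6)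
    (by decide +kernel) rfl rfl rfl rfl

/-- the certificates of the part 7 of the pair `(8, 3)` -/
def t19_19_8_3_7 : BlkD.Tr :=
  .S 1 11 (.S 1 9 (.S 1 8 (.S 2 1 (.S 2 0 (.L 5 7 [4, 4, 4, 19] [184, 183, 182, 181, 178, 168] []
    100000 0 0 1300000 0 0 100000 100000 0 0 0) (.S 3 5 (.S 3 2 (.S 3 1 (.L 5 7 [4, 4, 4, 19] [184,
    183, 182, 181, 178, 168] [] 100000 16667 16667 1333335 33333 0 66667 0 0 0 0) (.L 6 8 [4, 4, 3,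
    19] [184, 183, 182, 181, 178, 168] [28, 18, 6, 0, 0, 0] 100000 29167 29167 1316666 50000 0
    91667 16667 0 0 8333)) (.L 6 8 [4, 4, 3, 19] [184, 183, 182, 181, 178, 168] [] 100000 41667
    41667 1300001 50000 0 100000 33333 0 0 0)) (.E 1))) (.L 6 8 [4, 4, 3, 19] [184, 183, 182, 181,
    178, 168] [] 100000 37500 37500 1300000 50000 0 100000 25000 0 0 0)) (.L 6 8 [4, 4, 3, 19]
    [211, 210, 209, 208, 207, 204] [] 100000 57144 57144 1242856 64286 0 100000 21429 0 0 0)) (.S 1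
    10 (.L 6 8 [4, 4, 3, 19] [240, 239, 238, 237, 236, 235] [] 100000 88889 22222 922222 88889 0
    166667 33333 0 0 0) (.L 6 8 [4, 4, 3, 19] [271, 270, 269, 268, 267, 266] [] 100000 250000 0 0
    100000 0 350000 0 0 0 0))) (.E 0)

lemma n19_19_8_3_7 {n : ℕ} (hn : 5 ≤ n) : NoNd ((19 : ℕ) : ℤ) ((19 : ℕ) : ℤ) n 8 3
    (BlkD.inB (BlkD.upd (BlkD.upd (fun _ => 0) 0 5) 1 8)
      (BlkD.upd (BlkD.upd (BlkD.upd (BlkD.upd (BlkD.upd (fun _ => 19) 0 8) 2 3) 0 6) 0 5) 1 14)) :=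
  BlkD.part_sound (d := d19_19_8_3) dk19_19_8_3 hn (by decide) (tr := t19_19_8_3_7)
    (by decide +kernel) rfl rfl rfl rfl

/-- the certificates of the part 8 of the pair `(8, 3)` -/
def t19_19_8_3_8 : BlkD.Tr :=
  .E 0

lemma n19_19_8_3_8 {n : ℕ} (hn : 5 ≤ n) : NoNd ((19 : ℕ) : ℤ) ((19 : ℕ) : ℤ) n 8 3
    (BlkD.inB (BlkD.upd (BlkD.upd (fun _ => 0) 0 5) 1 15)
      (BlkD.upd (BlkD.upd (BlkD.upd (BlkD.upd (fun _ => 19) 0 8) 2 3) 0 6) 0 5)) :=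
  BlkD.part_sound (d := d19_19_8_3) dk19_19_8_3 hn (by decide) (tr := t19_19_8_3_8)
    (by decide +kernel) rfl rfl rfl rfl

/-- the certificates of the part 9 of the pair `(8, 3)` -/
def t19_19_8_3_9 : BlkD.Tr :=
  .S 1 13 (.S 1 6 (.S 1 3 (.L 6 8 [4, 4, 3, 19] [] [] 100000 0 0 1300001 33333 0 33333 33333 0
    33333 33333) (.S 1 5 (.S 1 4 (.L 6 8 [4, 4, 3, 19] [102, 92, 82, 72, 60, 0] [] 100000 0 0
    1366668 33333 0 33333 33333 0 33333 33333) (.S 2 1 (.L 6 8 [4, 4, 3, 19] [125, 122, 112, 102,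
    92, 80] [] 100000 6818 6818 1381819 31818 9091 81818 27273 0 22727 18182) (.S 2 2 (.S 3 6 (.S 3
    3 (.S 3 1 (.L 6 8 [4, 4, 3, 19] [125, 122, 112, 102, 92, 80] [] 100000 0 0 1370835 25000 25000
    66667 25000 4167 20833 16667) (.L 6 8 [4, 4, 3, 19] [125, 122, 112, 102, 92, 80] [] 100000 6250
    6250 1375000 37500 0 75000 25000 0 37500 25000)) (.E 1)) (.E 1)) (.L 6 8 [4, 4, 3, 19] [125,
    122, 112, 102, 92, 80] [] 100000 1 1 1361538 38462 0 69231 0 7692 46154 23077)))) (.S 2 1 (.L 6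
    8 [4, 4, 3, 19] [148, 147, 144, 134, 124, 114] [] 100000 18056 18056 1361112 38889 11111 86111
    22222 0 16667 2778) (.L 6 8 [4, 4, 3, 19] [148, 147, 144, 134, 124, 114] [] 100000 14286 14286
    1357144 42857 0 85714 14286 0 28571 14286)))) (.S 1 10 (.S 1 8 (.S 1 7 (.L 6 8 [4, 4, 3, 19]
    [173, 172, 171, 168, 158, 148] [] 100000 16667 16667 1333335 33333 0 100000 33333 0 0 0) (.L 6
    8 [4, 4, 3, 19] [200, 199, 198, 197, 194, 184] [] 100000 25000 25000 1250001 50000 0 100000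
    33333 0 0 0)) (.E 0)) (.E 0))) (.E 0)

lemma n19_19_8_3_9 {n : ℕ} (hn : 5 ≤ n) : NoNd ((19 : ℕ) : ℤ) ((19 : ℕ) : ℤ) n 8 3
    (BlkD.inB (BlkD.upd (BlkD.upd (fun _ => 0) 0 5) 0 6)
      (BlkD.upd (BlkD.upd (BlkD.upd (fun _ => 19) 0 8) 2 3) 0 6)) :=
  BlkD.part_sound (d := d19_19_8_3) dk19_19_8_3 hn (by decide) (tr := t19_19_8_3_9)
    (by decide +kernel) rfl rfl rfl rfl

/-- the certificates of the part 10 of the pair `(8, 3)` -/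
def t19_19_8_3_10 : BlkD.Tr :=
  .L 6 8 [4, 4, 3, 19] [] [] 100000 1044 1044 1393750 4167 2083 97917 31250 0 2083 2083

lemma n19_19_8_3_10 {n : ℕ} (hn : 5 ≤ n) : NoNd ((19 : ℕ) : ℤ) ((19 : ℕ) : ℤ) n 8 3
    (BlkD.inB (BlkD.upd (BlkD.upd (fun _ => 0) 0 5) 0 7)
      (BlkD.upd (BlkD.upd (fun _ => 19) 0 8) 2 3)) :=
  BlkD.part_sound (d := d19_19_8_3) dk19_19_8_3 hn (by decide) (tr := t19_19_8_3_10)
    (by decide +kernel) rfl rfl rfl rfl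

/-- the certificates of the part 11 of the pair `(8, 3)` -/
def t19_19_8_3_11 : BlkD.Tr :=
  .E 1

lemma n19_19_8_3_11 {n : ℕ} (hn : 5 ≤ n) : NoNd ((19 : ℕ) : ℤ) ((19 : ℕ) : ℤ) n 8 3
    (BlkD.inB (BlkD.upd (fun _ => 0) 2 4)
      (BlkD.upd (fun _ => 19) 0 8)) :=
  BlkD.part_sound (d := d19_19_8_3) dk19_19_8_3 hn (by decide) (tr := t19_19_8_3_11)
    (by decide +kernel) rfl rfl rfl rfl

/-- the certificates of the part 12 of the pair `(8, 3)` -/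
def t19_19_8_3_12 : BlkD.Tr :=
  .E 0

lemma n19_19_8_3_12 {n : ℕ} (hn : 5 ≤ n) : NoNd ((19 : ℕ) : ℤ) ((19 : ℕ) : ℤ) n 8 3
    (BlkD.inB (BlkD.upd (fun _ => 0) 0 9)
      (fun _ => 19)) :=
  BlkD.part_sound (d := d19_19_8_3) dk19_19_8_3 hn (by decide) (tr := t19_19_8_3_12)
    (by decide +kernel) rfl rfl rfl rfl

lemma pr19_19_8_3 {n : ℕ} (hn : 5 ≤ n) : NoPr ((19 : ℕ) : ℤ) ((19 : ℕ) : ℤ) n 8 3 :=
  BlkD.of_root (q := 3) (by decide) hn (BlkD.sp 0 8 (BlkD.sp 2 3 (BlkD.sp 0 4 (BlkD.sp 0 2 (n19_19_8_3_1 hn)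
    (BlkD.sp 0 3 (n19_19_8_3_2 hn)
    (n19_19_8_3_3 hn)))
    (BlkD.sp 0 6 (BlkD.sp 0 5 (BlkD.sp 1 14 (BlkD.sp 1 7 (BlkD.sp 1 3 (n19_19_8_3_4 hn)
    (BlkD.sp 1 5 (n19_19_8_3_5 hn)
    (n19_19_8_3_6 hn)))
    (n19_19_8_3_7 hn))
    (n19_19_8_3_8 hn))
    (n19_19_8_3_9 hn))
    (n19_19_8_3_10 hn)))
    (n19_19_8_3_11 hn))
    (n19_19_8_3_12 hn))

end BlkC

end Pool.Agent.Lib.MP_f04ccf_co
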