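import Pool.Agent.Lib.MP_f04ccf_co.M.BlkTp

/-!
MP_f04ccf_co, block certificate, data `R = 19`, `H = 19`, part 5 (certificates: helper99, bd9.cpp).
-/

set_option autoImplicit false
set_option maxRecDepth 100000

namespace Pool.Agent.Lib.MP_f04ccf_co

namespace BlkC

/-- the numbers of the pair `(8, 4)`, `R = 19`, `H = 19` -/
def d19_19_8_4 : BlkD.Pd :=
  ⟨19, 19, 3, 8, 4, 4, 1, 3, 0, 4, 8, 0, 2, 2, 6, 0, [0, 8, 16, 16, 16], [0, 6, 12, 14, 16], [⟨1,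
    1, 1, 4, 8, [0, 4], [0, 4]⟩, ⟨1, 1, 1, 4, 14, [0, 8], [0, 6]⟩]⟩

lemma dk19_19_8_4 : BlkD.pairOk d19_19_8_4 = true := by decide +kernel

/-- the certificates of the part 1 of the pair `(8, 4)` -/
def t19_19_8_4_1 : BlkD.Tr :=
  .L 6 8 [4, 3, 19, 19, 19] [] [] 100000 1 1 1433333 66667 66667 100000 66667 0 0 0

lemma n19_19_8_4_1 {n : ℕ} (hn : 5 ≤ n) : NoNd ((19 : ℕ) : ℤ) ((19 : ℕ) : ℤ) n 8 4
    (BlkD.inB (fun _ => 0)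
      (BlkD.upd (BlkD.upd (BlkD.upd (BlkD.upd (fun _ => 19) 0 8) 2 4) 0 4) 0 2)) :=
  BlkD.part_sound (d := d19_19_8_4) dk19_19_8_4 hn (by decide) (tr := t19_19_8_4_1)
    (by decide +kernel) rfl rfl rfl rfl

/-- the certificates of the part 2 of the pair `(8, 4)` -/
def t19_19_8_4_2 : BlkD.Tr :=
  .L 6 8 [4, 3, 19, 19, 19] [] [] 100000 1 1 1433333 66667 66667 100000 66667 0 0 0

lemma n19_19_8_4_2 {n : ℕ} (hn : 5 ≤ n) : NoNd ((19 : ℕ) : ℤ) ((19 : ℕ) : ℤ) n 8 4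
    (BlkD.inB (BlkD.upd (fun _ => 0) 0 3)
      (BlkD.upd (BlkD.upd (BlkD.upd (fun _ => 19) 0 8) 2 4) 0 4)) :=
  BlkD.part_sound (d := d19_19_8_4) dk19_19_8_4 hn (by decide) (tr := t19_19_8_4_2)
    (by decide +kernel) rfl rfl rfl rfl

/-- the certificates of the part 3 of the pair `(8, 4)` -/
def t19_19_8_4_3 : BlkD.Tr :=
  .L 6 8 [4, 3, 19, 19, 19] [] [] 100000 1 1 1433333 66667 66667 100000 66667 0 0 0

lemma n19_19_8_4_3 {n : ℕ} (hn : 5 ≤ n) : NoNd ((19 : ℕ) : ℤ) ((19 : ℕ) : ℤ) n 8 4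
    (BlkD.inB (BlkD.upd (fun _ => 0) 0 5)
      (BlkD.upd (BlkD.upd (BlkD.upd (fun _ => 19) 0 8) 2 4) 0 6)) :=
  BlkD.part_sound (d := d19_19_8_4) dk19_19_8_4 hn (by decide) (tr := t19_19_8_4_3)
    (by decide +kernel) rfl rfl rfl rfl

/-- the certificates of the part 4 of the pair `(8, 4)` -/
def t19_19_8_4_4 : BlkD.Tr :=
  .L 6 8 [4, 3, 19, 19, 19] [] [] 100000 1 1 1433333 66667 66667 100000 66667 0 0 0

lemma n19_19_8_4_4 {n : ℕ} (hn : 5 ≤ n) : NoNd ((19 : ℕ) : ℤ) ((19 : ℕ) : ℤ) n 8 4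
    (BlkD.inB (BlkD.upd (BlkD.upd (fun _ => 0) 0 5) 0 7)
      (BlkD.upd (BlkD.upd (fun _ => 19) 0 8) 2 4)) :=
  BlkD.part_sound (d := d19_19_8_4) dk19_19_8_4 hn (by decide) (tr := t19_19_8_4_4)
    (by decide +kernel) rfl rfl rfl rfl

/-- the certificates of the part 5 of the pair `(8, 4)` -/
def t19_19_8_4_5 : BlkD.Tr :=
  .E 1

lemma n19_19_8_4_5 {n : ℕ} (hn : 5 ≤ n) : NoNd ((19 : ℕ) : ℤ) ((19 : ℕ) : ℤ) n 8 4
    (BlkD.inB (BlkD.upd (fun _ => 0) 2 5)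
      (BlkD.upd (fun _ => 19) 0 8)) :=
  BlkD.part_sound (d := d19_19_8_4) dk19_19_8_4 hn (by decide) (tr := t19_19_8_4_5)
    (by decide +kernel) rfl rfl rfl rfl

/-- the certificates of the part 6 of the pair `(8, 4)` -/
def t19_19_8_4_6 : BlkD.Tr :=
  .E 0

lemma n19_19_8_4_6 {n : ℕ} (hn : 5 ≤ n) : NoNd ((19 : ℕ) : ℤ) ((19 : ℕ) : ℤ) n 8 4
    (BlkD.inB (BlkD.upd (fun _ => 0) 0 9)
      (fun _ => 19)) :=
  BlkD.part_sound (d := d19_19_8_4) dk19_19_8_4 hn (by decide) (tr := t19_19_8_4_6)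
    (by decide +kernel) rfl rfl rfl rfl

lemma pr19_19_8_4 {n : ℕ} (hn : 5 ≤ n) : NoPr ((19 : ℕ) : ℤ) ((19 : ℕ) : ℤ) n 8 4 :=
  BlkD.of_root (q := 3) (by decide) hn (BlkD.sp 0 8 (BlkD.sp 2 4 (BlkD.sp 0 4 (BlkD.sp 0 2 (n19_19_8_4_1 hn)
    (n19_19_8_4_2 hn))
    (BlkD.sp 0 6 (n19_19_8_4_3 hn)
    (n19_19_8_4_4 hn)))
    (n19_19_8_4_5 hn))
    (n19_19_8_4_6 hn))

/-- the numbers of the pair `(8, 5)`, `R = 19`, `H = 19` -/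
def d19_19_8_5 : BlkD.Pd :=
  ⟨19, 19, 3, 8, 5, 3, 0, 3, 0, 4, 4, 0, 0, 4, 4, 0, [0, 4, 8, 12], [0, 4, 8, 12], [⟨1, 1, 1, 4, 8,
    [0, 4], [0, 4]⟩]⟩

lemma dk19_19_8_5 : BlkD.pairOk d19_19_8_5 = true := by decide +kernel

/-- the certificates of the part 1 of the pair `(8, 5)` -/
def t19_19_8_5_1 : BlkD.Tr :=
  .L 3 3 [4, 19, 19, 19, 19, 19] [] [] 100000 0 0 1500000 50000 50000 100000 50000 0 0 0

lemma n19_19_8_5_1 {n : ℕ} (hn : 5 ≤ n) : NoNd ((19 : ℕ) : ℤ) ((19 : ℕ) : ℤ) n 8 5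
    (BlkD.inB (fun _ => 0)
      (BlkD.upd (BlkD.upd (BlkD.upd (BlkD.upd (BlkD.upd (fun _ => 19) 0 8) 2 5) 0 4) 0 2) 0 1)) :=
  BlkD.part_sound (d := d19_19_8_5) dk19_19_8_5 hn (by decide) (tr := t19_19_8_5_1)
    (by decide +kernel) rfl rfl rfl rfl

/-- the certificates of the part 2 of the pair `(8, 5)` -/
def t19_19_8_5_2 : BlkD.Tr :=
  .L 3 3 [4, 19, 19, 19, 19, 19] [] [] 100000 0 0 1500000 50000 50000 100000 50000 0 0 0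

lemma n19_19_8_5_2 {n : ℕ} (hn : 5 ≤ n) : NoNd ((19 : ℕ) : ℤ) ((19 : ℕ) : ℤ) n 8 5
    (BlkD.inB (BlkD.upd (fun _ => 0) 0 2)
      (BlkD.upd (BlkD.upd (BlkD.upd (BlkD.upd (fun _ => 19) 0 8) 2 5) 0 4) 0 2)) :=
  BlkD.part_sound (d := d19_19_8_5) dk19_19_8_5 hn (by decide) (tr := t19_19_8_5_2)
    (by decide +kernel) rfl rfl rfl rfl

/-- the certificates of the part 3 of the pair `(8, 5)` -/
def t19_19_8_5_3 : BlkD.Tr :=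
  .L 3 3 [4, 19, 19, 19, 19, 19] [] [] 100000 0 0 1500000 50000 50000 100000 50000 0 0 0

lemma n19_19_8_5_3 {n : ℕ} (hn : 5 ≤ n) : NoNd ((19 : ℕ) : ℤ) ((19 : ℕ) : ℤ) n 8 5
    (BlkD.inB (BlkD.upd (fun _ => 0) 0 3)
      (BlkD.upd (BlkD.upd (BlkD.upd (BlkD.upd (fun _ => 19) 0 8) 2 5) 0 4) 0 3)) :=
  BlkD.part_sound (d := d19_19_8_5) dk19_19_8_5 hn (by decide) (tr := t19_19_8_5_3)
    (by decide +kernel) rfl rfl rfl rfl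

/-- the certificates of the part 4 of the pair `(8, 5)` -/
def t19_19_8_5_4 : BlkD.Tr :=
  .L 3 3 [4, 19, 19, 19, 19, 19] [] [] 100000 0 0 1500000 50000 50000 100000 50000 0 0 0

lemma n19_19_8_5_4 {n : ℕ} (hn : 5 ≤ n) : NoNd ((19 : ℕ) : ℤ) ((19 : ℕ) : ℤ) n 8 5
    (BlkD.inB (BlkD.upd (BlkD.upd (fun _ => 0) 0 3) 0 4)
      (BlkD.upd (BlkD.upd (BlkD.upd (fun _ => 19) 0 8) 2 5) 0 4)) :=
  BlkD.part_sound (d := d19_19_8_5) dk19_19_8_5 hn (by decide) (tr := t19_19_8_5_4)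
    (by decide +kernel) rfl rfl rfl rfl

/-- the certificates of the part 5 of the pair `(8, 5)` -/
def t19_19_8_5_5 : BlkD.Tr :=
  .L 3 3 [4, 19, 19, 19, 19, 19] [] [] 100000 0 0 1500000 50000 50000 100000 50000 0 0 0

lemma n19_19_8_5_5 {n : ℕ} (hn : 5 ≤ n) : NoNd ((19 : ℕ) : ℤ) ((19 : ℕ) : ℤ) n 8 5
    (BlkD.inB (BlkD.upd (fun _ => 0) 0 5)
      (BlkD.upd (BlkD.upd (BlkD.upd (BlkD.upd (fun _ => 19) 0 8) 2 5) 0 6) 0 5)) :=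
  BlkD.part_sound (d := d19_19_8_5) dk19_19_8_5 hn (by decide) (tr := t19_19_8_5_5)
    (by decide +kernel) rfl rfl rfl rfl

/-- the certificates of the part 6 of the pair `(8, 5)` -/
def t19_19_8_5_6 : BlkD.Tr :=
  .L 3 3 [4, 19, 19, 19, 19, 19] [] [] 100000 0 0 1500000 50000 50000 100000 50000 0 0 0

lemma n19_19_8_5_6 {n : ℕ} (hn : 5 ≤ n) : NoNd ((19 : ℕ) : ℤ) ((19 : ℕ) : ℤ) n 8 5
    (BlkD.inB (BlkD.upd (BlkD.upd (fun _ => 0) 0 5) 0 6)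
      (BlkD.upd (BlkD.upd (BlkD.upd (fun _ => 19) 0 8) 2 5) 0 6)) :=
  BlkD.part_sound (d := d19_19_8_5) dk19_19_8_5 hn (by decide) (tr := t19_19_8_5_6)
    (by decide +kernel) rfl rfl rfl rfl

/-- the certificates of the part 7 of the pair `(8, 5)` -/
def t19_19_8_5_7 : BlkD.Tr :=
  .L 3 3 [4, 19, 19, 19, 19, 19] [] [] 100000 0 0 1500000 50000 50000 100000 50000 0 0 0

lemma n19_19_8_5_7 {n : ℕ} (hn : 5 ≤ n) : NoNd ((19 : ℕ) : ℤ) ((19 : ℕ) : ℤ) n 8 5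
    (BlkD.inB (BlkD.upd (BlkD.upd (fun _ => 0) 0 5) 0 7)
      (BlkD.upd (BlkD.upd (BlkD.upd (fun _ => 19) 0 8) 2 5) 0 7)) :=
  BlkD.part_sound (d := d19_19_8_5) dk19_19_8_5 hn (by decide) (tr := t19_19_8_5_7)
    (by decide +kernel) rfl rfl rfl rfl

/-- the certificates of the part 8 of the pair `(8, 5)` -/
def t19_19_8_5_8 : BlkD.Tr :=
  .L 3 3 [4, 19, 19, 19, 19, 19] [] [] 100000 0 0 1500000 50000 50000 100000 50000 0 0 0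

lemma n19_19_8_5_8 {n : ℕ} (hn : 5 ≤ n) : NoNd ((19 : ℕ) : ℤ) ((19 : ℕ) : ℤ) n 8 5
    (BlkD.inB (BlkD.upd (BlkD.upd (BlkD.upd (fun _ => 0) 0 5) 0 7) 0 8)
      (BlkD.upd (BlkD.upd (fun _ => 19) 0 8) 2 5)) :=
  BlkD.part_sound (d := d19_19_8_5) dk19_19_8_5 hn (by decide) (tr := t19_19_8_5_8)
    (by decide +kernel) rfl rfl rfl rfl

/-- the certificates of the part 9 of the pair `(8, 5)` -/
def t19_19_8_5_9 : BlkD.Tr :=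
  .E 1

lemma n19_19_8_5_9 {n : ℕ} (hn : 5 ≤ n) : NoNd ((19 : ℕ) : ℤ) ((19 : ℕ) : ℤ) n 8 5
    (BlkD.inB (BlkD.upd (fun _ => 0) 2 6)
      (BlkD.upd (fun _ => 19) 0 8)) :=
  BlkD.part_sound (d := d19_19_8_5) dk19_19_8_5 hn (by decide) (tr := t19_19_8_5_9)
    (by decide +kernel) rfl rfl rfl rfl

/-- the certificates of the part 10 of the pair `(8, 5)` -/
def t19_19_8_5_10 : BlkD.Tr :=
  .E 0

lemma n19_19_8_5_10 {n : ℕ} (hn : 5 ≤ n) : NoNd ((19 : ℕ) : ℤ) ((19 : ℕ) : ℤ) n 8 5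
    (BlkD.inB (BlkD.upd (fun _ => 0) 0 9)
      (fun _ => 19)) :=
  BlkD.part_sound (d := d19_19_8_5) dk19_19_8_5 hn (by decide) (tr := t19_19_8_5_10)
    (by decide +kernel) rfl rfl rfl rfl

lemma pr19_19_8_5 {n : ℕ} (hn : 5 ≤ n) : NoPr ((19 : ℕ) : ℤ) ((19 : ℕ) : ℤ) n 8 5 :=
  BlkD.of_root (q := 3) (by decide) hn (BlkD.sp 0 8 (BlkD.sp 2 5 (BlkD.sp 0 4 (BlkD.sp 0 2 (BlkD.sp 0 1 (n19_19_8_5_1 hn)
    (n19_19_8_5_2 hn))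
    (BlkD.sp 0 3 (n19_19_8_5_3 hn)
    (n19_19_8_5_4 hn)))
    (BlkD.sp 0 6 (BlkD.sp 0 5 (n19_19_8_5_5 hn)
    (n19_19_8_5_6 hn))
    (BlkD.sp 0 7 (n19_19_8_5_7 hn)
    (n19_19_8_5_8 hn))))
    (n19_19_8_5_9 hn))
    (n19_19_8_5_10 hn))

/-- the numbers of the pair `(9, 0)`, `R = 19`, `H = 19` -/
def d19_19_9_0 : BlkD.Pd :=
  ⟨19, 19, 3, 9, 0, 7, 0, 1, 0, 4, 4, 0, 0, 4, 4, 0, [0, 4, 8, 12, 16, 20, 24, 28], [0, 4, 8, 12,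
    16, 20, 24, 28], [⟨1, 1, 1, 4, 8, [0, 4], [0, 4]⟩]⟩

lemma dk19_19_9_0 : BlkD.pairOk d19_19_9_0 = true := by decide +kernel

/-- the certificates of the part 1 of the pair `(9, 0)` -/
def t19_19_9_0_1 : BlkD.Tr :=
  .S 0 9 (.S 2 0 (.L 3 3 [4] [] [] 100000 0 0 1060000 70000 0 70000 0 0 0 0) (.E 1)) (.E 0)

lemma n19_19_9_0_1 {n : ℕ} (hn : 5 ≤ n) : NoNd ((19 : ℕ) : ℤ) ((19 : ℕ) : ℤ) n 9 0
    (BlkD.inB (fun _ => 0)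
      (fun _ => 19)) :=
  BlkD.part_sound (d := d19_19_9_0) dk19_19_9_0 hn (by decide) (tr := t19_19_9_0_1)
    (by decide +kernel) rfl rfl rfl rfl

lemma pr19_19_9_0 {n : ℕ} (hn : 5 ≤ n) : NoPr ((19 : ℕ) : ℤ) ((19 : ℕ) : ℤ) n 9 0 :=
  BlkD.of_root (q := 3) (by decide) hn (n19_19_9_0_1 hn)

/-- the numbers of the pair `(9, 1)`, `R = 19`, `H = 19` -/
def d19_19_9_1 : BlkD.Pd :=
  ⟨19, 19, 3, 9, 1, 6, 1, 1, 0, 4, 8, 0, 0, 4, 4, 0, [0, 8, 16, 24, 24, 24, 24], [0, 4, 8, 12, 16,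
    20, 24], [⟨1, 1, 1, 4, 8, [0, 4], [0, 4]⟩, ⟨1, 1, 1, 4, 12, [0, 8], [0, 4]⟩]⟩

lemma dk19_19_9_1 : BlkD.pairOk d19_19_9_1 = true := by decide +kernel

/-- the certificates of the part 1 of the pair `(9, 1)` -/
def t19_19_9_1_1 : BlkD.Tr :=
  .L 4 5 [4, 4] [] [] 100000 33334 0 1033330 66667 0 133333 0 0 0 0

lemma n19_19_9_1_1 {n : ℕ} (hn : 5 ≤ n) : NoNd ((19 : ℕ) : ℤ) ((19 : ℕ) : ℤ) n 9 1
    (BlkD.inB (fun _ => 0)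
      (BlkD.upd (BlkD.upd (BlkD.upd (fun _ => 19) 0 9) 2 1) 0 4)) :=
  BlkD.part_sound (d := d19_19_9_1) dk19_19_9_1 hn (by decide) (tr := t19_19_9_1_1)
    (by decide +kernel) rfl rfl rfl rfl

/-- the certificates of the part 2 of the pair `(9, 1)` -/
def t19_19_9_1_2 : BlkD.Tr :=
  .S 0 6 (.S 0 5 (.S 1 14 (.S 1 7 (.L 4 5 [4, 4] [] [] 100000 0 0 1120000 40000 0 40000 0 0 0 0)
    (.S 1 11 (.S 1 9 (.L 4 5 [4, 4] [] [] 100000 0 0 1240000 40000 0 40000 0 0 0 0) (.S 1 10 (.L 4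
    5 [4, 4] [222, 222, 222, 222, 222, 222] [] 100000 0 0 1200000 50000 0 50000 0 0 0 0) (.L 4 5
    [4, 4] [252, 252, 252, 252, 252, 252] [] 100000 0 0 1200000 50000 0 100000 0 0 0 0))) (.S 1 13
    (.S 1 12 (.L 4 5 [4, 4] [284, 284, 284, 284, 284, 284] [] 100000 0 0 1200000 50000 0 100000 0 0
    0 0) (.L 4 5 [4, 4] [318, 318, 318, 318, 318, 318] [] 100000 170000 0 0 180000 0 180000 0 0 0
    0)) (.L 4 5 [4, 4] [354, 354, 354, 354, 354, 354] [] 100000 159091 1 3 172727 0 172727 0 0 0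
    0)))) (.E 0)) (.S 1 13 (.S 1 6 (.L 4 5 [4, 4] [] [] 100000 0 0 1200002 33333 0 33333 0 0 0 0)
    (.S 1 10 (.S 1 8 (.S 1 7 (.L 4 5 [4, 4] [158, 158, 158, 158, 150, 142] [] 100000 0 0 1220000
    40000 0 40000 0 0 0 0) (.L 4 5 [4, 4] [184, 184, 184, 184, 184, 176] [] 100000 0 0 1200000
    50000 0 50000 0 0 0 0)) (.L 4 5 [4, 4] [] [] 100000 0 0 1266669 33333 0 100000 0 0 0 0)) (.S 1
    12 (.S 1 11 (.L 4 5 [4, 4] [274, 274, 274, 274, 274, 274] [] 100000 50000 0 900000 100000 0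
    100000 0 0 0 0) (.L 4 5 [4, 4] [308, 308, 308, 308, 308, 308] [] 100000 200000 0 0 200000 0
    200000 0 0 0 0)) (.L 4 5 [4, 4] [344, 344, 344, 344, 344, 344] [] 100000 159091 1 3 172727 0
    172727 0 0 0 0)))) (.E 0))) (.S 1 12 (.S 1 6 (.S 1 3 (.L 4 5 [4, 4] [] [] 100000 0 0 1050000
    50000 0 50000 0 0 0 0) (.S 1 5 (.L 4 5 [4, 4] [] [] 100000 0 0 1200000 40000 0 40000 0 0 0 0)
    (.L 4 5 [4, 4] [146, 146, 146, 138, 130, 122] [] 100000 0 0 1200000 50000 0 50000 0 0 0 0)))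
    (.L 4 5 [4, 4] [] [] 100000 0 0 1257145 28571 0 100000 0 0 0 0)) (.E 0))

lemma n19_19_9_1_2 {n : ℕ} (hn : 5 ≤ n) : NoNd ((19 : ℕ) : ℤ) ((19 : ℕ) : ℤ) n 9 1
    (BlkD.inB (BlkD.upd (fun _ => 0) 0 5)
      (BlkD.upd (BlkD.upd (BlkD.upd (fun _ => 19) 0 9) 2 1) 0 7)) :=
  BlkD.part_sound (d := d19_19_9_1) dk19_19_9_1 hn (by decide) (tr := t19_19_9_1_2)
    (by decide +kernel) rfl rfl rfl rfl

/-- the certificates of the part 3 of the pair `(9, 1)` -/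
def t19_19_9_1_3 : BlkD.Tr :=
  .S 0 8 (.S 1 11 (.S 1 5 (.L 4 5 [4, 4] [] [] 100000 0 0 1240000 40000 0 70000 0 0 0 0) (.L 4 5
    [4, 4] [] [] 100000 20000 0 1080000 30000 0 120000 0 0 0 0)) (.E 0)) (.L 4 5 [4, 4] [] []
    100000 0 0 1255556 22222 0 61111 0 0 0 0)

lemma n19_19_9_1_3 {n : ℕ} (hn : 5 ≤ n) : NoNd ((19 : ℕ) : ℤ) ((19 : ℕ) : ℤ) n 9 1
    (BlkD.inB (BlkD.upd (BlkD.upd (fun _ => 0) 0 5) 0 8)
      (BlkD.upd (BlkD.upd (fun _ => 19) 0 9) 2 1)) :=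
  BlkD.part_sound (d := d19_19_9_1) dk19_19_9_1 hn (by decide) (tr := t19_19_9_1_3)
    (by decide +kernel) rfl rfl rfl rfl

/-- the certificates of the part 4 of the pair `(9, 1)` -/
def t19_19_9_1_4 : BlkD.Tr :=
  .E 1

lemma n19_19_9_1_4 {n : ℕ} (hn : 5 ≤ n) : NoNd ((19 : ℕ) : ℤ) ((19 : ℕ) : ℤ) n 9 1
    (BlkD.inB (BlkD.upd (fun _ => 0) 2 2)
      (BlkD.upd (fun _ => 19) 0 9)) :=
  BlkD.part_sound (d := d19_19_9_1) dk19_19_9_1 hn (by decide) (tr := t19_19_9_1_4)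
    (by decide +kernel) rfl rfl rfl rfl

/-- the certificates of the part 5 of the pair `(9, 1)` -/
def t19_19_9_1_5 : BlkD.Tr :=
  .E 0

lemma n19_19_9_1_5 {n : ℕ} (hn : 5 ≤ n) : NoNd ((19 : ℕ) : ℤ) ((19 : ℕ) : ℤ) n 9 1
    (BlkD.inB (BlkD.upd (fun _ => 0) 0 10)
      (fun _ => 19)) :=
  BlkD.part_sound (d := d19_19_9_1) dk19_19_9_1 hn (by decide) (tr := t19_19_9_1_5)
    (by decide +kernel) rfl rfl rfl rfl

lemma pr19_19_9_1 {n : ℕ} (hn : 5 ≤ n) : NoPr ((19 : ℕ) : ℤ) ((19 : ℕ) : ℤ) n 9 1 :=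
  BlkD.of_root (q := 3) (by decide) hn (BlkD.sp 0 9 (BlkD.sp 2 1 (BlkD.sp 0 4 (n19_19_9_1_1 hn)
    (BlkD.sp 0 7 (n19_19_9_1_2 hn)
    (n19_19_9_1_3 hn)))
    (n19_19_9_1_4 hn))
    (n19_19_9_1_5 hn))

/-- the numbers of the pair `(9, 2)`, `R = 19`, `H = 19` -/
def d19_19_9_2 : BlkD.Pd :=
  ⟨19, 19, 3, 9, 2, 5, 2, 2, 1, 4, 10, 0, 3, 1, 6, 0, [0, 10, 20, 23, 24, 25], [0, 6, 11, 14, 17,
    20], [⟨1, 1, 1, 4, 8, [0, 4], [0, 4]⟩, ⟨1, 1, 1, 4, 12, [0, 8], [0, 4]⟩, ⟨2, 1, 1, 4, 20, [0,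
    10, 14], [0, 6]⟩]⟩

lemma dk19_19_9_2 : BlkD.pairOk d19_19_9_2 = true := by decide +kernel

/-- the certificates of the part 1 of the pair `(9, 2)` -/
def t19_19_9_2_1 : BlkD.Tr :=
  .S 0 2 (.L 4 7 [4, 4, 4] [] [] 100000 150000 150000 700000 100000 0 100000 0 0 0 0) (.S 0 3 (.L 4
    7 [4, 4, 4] [] [] 100000 150000 150000 1075000 75000 0 75000 0 0 0 0) (.S 1 15 (.S 1 7 (.L 4 7
    [4, 4, 4] [] [] 100000 12500 12500 1250000 25000 0 25000 0 0 0 0) (.S 1 11 (.S 1 9 (.L 4 7 [4,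
    4, 4] [] [] 100000 16667 16667 1333336 33333 0 33333 33333 0 33333 0) (.S 1 10 (.L 4 7 [4, 4,
    4] [212, 211, 210, 209, 208, 207] [] 100000 90625 90625 1162500 62500 0 75000 56250 0 18750
    18750) (.L 4 7 [4, 4, 4] [241, 240, 239, 238, 237, 236] [] 100000 133333 133333 1033336 83333 0
    100000 33333 0 0 0))) (.S 1 13 (.S 1 12 (.L 4 7 [4, 4, 4] [272, 271, 270, 269, 268, 267] []
    100000 180000 160000 880000 100000 0 120000 40000 0 0 0) (.L 4 7 [4, 4, 4] [305, 304, 303, 302,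
    301, 300] [] 100000 403704 251852 0 188889 0 251852 37037 0 0 0)) (.S 1 14 (.L 4 7 [4, 4, 4]
    [340, 339, 338, 337, 336, 335] [] 100000 390000 260000 0 180000 0 230000 0 0 0 0) (.L 4 7 [4,
    4, 4] [377, 376, 375, 374, 373, 372] [] 100000 418181 345454 3 172727 0 172727 0 0 0 0))))) (.E
    0)))

lemma n19_19_9_2_1 {n : ℕ} (hn : 5 ≤ n) : NoNd ((19 : ℕ) : ℤ) ((19 : ℕ) : ℤ) n 9 2
    (BlkD.inB (fun _ => 0)
      (BlkD.upd (BlkD.upd (BlkD.upd (fun _ => 19) 0 9) 2 2) 0 4)) :=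
  BlkD.part_sound (d := d19_19_9_2) dk19_19_9_2 hn (by decide) (tr := t19_19_9_2_1)
    (by decide +kernel) rfl rfl rfl rfl

/-- the certificates of the part 2 of the pair `(9, 2)` -/
def t19_19_9_2_2 : BlkD.Tr :=
  .S 1 14 (.S 1 7 (.L 4 7 [4, 4, 4] [] [] 100000 33333 33333 1300002 33333 0 33333 33333 0 33333 0)
    (.S 1 11 (.S 1 9 (.S 1 8 (.L 4 7 [4, 4, 4] [176, 175, 174, 173, 170, 166] [] 100000 33335 33335
    1308333 41667 0 58333 16667 0 20833 20833) (.S 2 1 (.S 2 0 (.L 4 7 [4, 4, 4] [203, 202, 201,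
    200, 199, 196] [] 100000 72727 72727 1218185 54545 0 72727 45455 0 0 27273) (.S 3 4 (.S 3 2 (.S
    3 1 (.L 4 7 [4, 4, 4] [203, 202, 201, 200, 199, 196] [] 100000 50000 50000 1275000 50000 0
    75000 0 0 25000 25000) (.L 5 9 [4, 4, 3] [203, 202, 201, 200, 199, 196] [22, 16, 6, 0, 0, 0]
    100000 14286 14286 1357144 42857 0 42857 0 0 42857 0)) (.E 1)) (.E 1))) (.L 5 9 [4, 4, 3] [203,
    202, 201, 200, 199, 196] [] 100000 14286 14286 1314287 42857 0 42857 0 0 42857 14286))) (.S 1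
    10 (.S 2 1 (.S 2 0 (.L 5 9 [4, 4, 3] [232, 231, 230, 229, 228, 227] [] 100000 70835 70835
    1229165 54167 0 91667 83333 0 0 12500) (.S 3 3 (.S 3 1 (.L 5 9 [4, 4, 3] [232, 231, 230, 229,
    228, 227] [] 100000 22222 22222 1344448 44444 0 66667 44444 0 0 22222) (.S 3 2 (.S 4 10 (.S 4 5
    (.L 5 9 [4, 4, 3] [227, 224, 220, 210, 200, 190] [22, 16, 6, 0, 0, 0] 100000 373685 189474 0
    189474 0 284211 94737 0 0 0) (.E 2)) (.E 2)) (.E 1))) (.E 1))) (.S 3 2 (.S 3 1 (.S 3 0 (.L 5 9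
    [4, 4, 3] [232, 231, 230, 229, 228, 227] [0, 0, 0, 0, 0, 0] 100000 14286 14286 1357144 42857 0
    42857 0 0 0 0) (.S 4 10 (.S 4 5 (.L 5 9 [4, 4, 3] [227, 224, 220, 210, 200, 190] [14, 4, 0, 0,
    0, 0] 100000 440000 360000 0 180000 0 180000 0 0 0 0) (.E 2)) (.E 2))) (.E 1)) (.E 1))) (.L 5 9
    [4, 4, 3] [263, 262, 261, 260, 259, 258] [] 100000 100000 100000 1150000 75000 0 100000 75000 0
    0 0))) (.S 1 13 (.S 1 12 (.L 5 9 [4, 4, 3] [296, 295, 294, 293, 292, 291] [] 100000 66668 66668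
    1199999 66667 0 100000 33333 0 0 0) (.L 5 9 [4, 4, 3] [331, 330, 329, 328, 327, 326] [] 100000
    260000 0 0 180000 0 360000 0 0 0 0)) (.L 5 9 [4, 4, 3] [368, 367, 366, 365, 364, 363] [] 100000
    390000 260000 0 180000 0 230000 0 0 0 0)))) (.E 0)

lemma n19_19_9_2_2 {n : ℕ} (hn : 5 ≤ n) : NoNd ((19 : ℕ) : ℤ) ((19 : ℕ) : ℤ) n 9 2
    (BlkD.inB (BlkD.upd (fun _ => 0) 0 5)
      (BlkD.upd (BlkD.upd (BlkD.upd (BlkD.upd (BlkD.upd (fun _ => 19) 0 9) 2 2) 0 7) 0 6) 0 5)) :=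
  BlkD.part_sound (d := d19_19_9_2) dk19_19_9_2 hn (by decide) (tr := t19_19_9_2_2)
    (by decide +kernel) rfl rfl rfl rfl

/-- the certificates of the part 3 of the pair `(9, 2)` -/
def t19_19_9_2_3 : BlkD.Tr :=
  .S 1 13 (.S 1 6 (.L 5 9 [4, 4, 3] [] [] 100000 2 2 1380952 23810 0 47619 0 0 42857 23810) (.S 1
    10 (.S 1 8 (.S 1 7 (.L 5 9 [4, 4, 3] [165, 164, 163, 160, 156, 146] [] 100000 36842 36842
    1315792 47368 0 68421 42105 0 15789 5263) (.S 2 1 (.S 2 0 (.L 5 9 [4, 4, 3] [192, 191, 190,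
    189, 186, 182] [] 100000 61365 61365 1256817 52273 0 86364 77273 0 0 15909) (.S 3 4 (.S 3 2 (.S
    3 1 (.L 5 9 [4, 4, 3] [192, 191, 190, 189, 186, 182] [] 100000 17309 17309 1346152 42308 0
    63462 42308 0 7692 19231) (.S 4 8 (.S 4 4 (.L 5 9 [4, 4, 3] [186, 182, 172, 162, 152, 0] [22,
    16, 6, 0, 0, 0] 100000 80000 80000 1180000 70000 0 100000 30000 0 10000 20000) (.L 5 9 [4, 4,
    3] [192, 191, 190, 189, 186, 182] [22, 16, 6, 0, 0, 0] 100000 240000 0 0 0 0 340000 0 0 0 0))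
    (.E 2))) (.E 1)) (.E 1))) (.L 5 9 [4, 4, 3] [192, 191, 190, 189, 186, 182] [] 100000 14286
    14286 1357144 42857 0 42857 0 0 14286 14286))) (.S 1 9 (.L 5 9 [4, 4, 3] [221, 220, 219, 218,
    217, 214] [] 100000 66668 66668 1233333 66667 0 100000 33333 0 0 0) (.L 5 9 [4, 4, 3] [252,
    251, 250, 249, 248, 247] [] 100000 66668 66668 1233332 66667 0 100000 33333 0 0 0))) (.S 1 12
    (.S 1 11 (.L 5 9 [4, 4, 3] [285, 284, 283, 282, 281, 280] [] 100000 125000 50000 850000 100000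
    0 175000 75000 0 0 0) (.L 5 9 [4, 4, 3] [320, 319, 318, 317, 316, 315] [] 100000 260000 0 0
    180000 0 360000 0 0 0 0)) (.L 5 9 [4, 4, 3] [357, 356, 355, 354, 353, 352] [] 100000 322222
    211111 1 211111 0 211111 0 0 0 0)))) (.E 0)

lemma n19_19_9_2_3 {n : ℕ} (hn : 5 ≤ n) : NoNd ((19 : ℕ) : ℤ) ((19 : ℕ) : ℤ) n 9 2
    (BlkD.inB (BlkD.upd (BlkD.upd (fun _ => 0) 0 5) 0 6)
      (BlkD.upd (BlkD.upd (BlkD.upd (BlkD.upd (fun _ => 19) 0 9) 2 2) 0 7) 0 6)) :=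
  BlkD.part_sound (d := d19_19_9_2) dk19_19_9_2 hn (by decide) (tr := t19_19_9_2_3)
    (by decide +kernel) rfl rfl rfl rfl

/-- the certificates of the part 4 of the pair `(9, 2)` -/
def t19_19_9_2_4 : BlkD.Tr :=
  .S 1 12 (.S 1 6 (.S 1 3 (.L 5 9 [4, 4, 3] [] [] 100000 0 0 1300000 0 0 0 0 0 0 0) (.S 1 5 (.L 5 9
    [4, 4, 3] [] [] 100000 1 1 1388889 27778 0 27778 0 0 38889 27778) (.L 5 9 [4, 4, 3] [152, 151,
    148, 144, 134, 124] [] 100000 14286 14286 1357143 42857 0 71429 14286 0 14286 14286))) (.S 1 9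
    (.S 1 8 (.S 1 7 (.L 5 9 [4, 4, 3] [179, 178, 177, 174, 170, 160] [] 100000 21429 21429 1328572
    42857 0 100000 14286 0 0 0) (.L 5 9 [4, 4, 3] [208, 207, 206, 205, 202, 198] [] 100000 35296
    35296 1264705 58824 0 100000 23529 0 5882 5882)) (.L 5 9 [4, 4, 3] [239, 238, 237, 236, 235,
    232] [] 100000 100000 100000 1100000 100000 0 100000 0 0 0 0)) (.S 1 11 (.S 1 10 (.L 5 9 [4, 4,
    3] [272, 271, 270, 269, 268, 267] [] 100000 260000 0 0 180000 0 360000 0 0 0 0) (.E 0)) (.E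
    0)))) (.E 0)

lemma n19_19_9_2_4 {n : ℕ} (hn : 5 ≤ n) : NoNd ((19 : ℕ) : ℤ) ((19 : ℕ) : ℤ) n 9 2
    (BlkD.inB (BlkD.upd (BlkD.upd (fun _ => 0) 0 5) 0 7)
      (BlkD.upd (BlkD.upd (BlkD.upd (fun _ => 19) 0 9) 2 2) 0 7)) :=
  BlkD.part_sound (d := d19_19_9_2) dk19_19_9_2 hn (by decide) (tr := t19_19_9_2_4)
    (by decide +kernel) rfl rfl rfl rfl

/-- the certificates of the part 5 of the pair `(9, 2)` -/
def t19_19_9_2_5 : BlkD.Tr :=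
  .S 0 8 (.S 1 11 (.S 1 5 (.L 5 9 [4, 4, 3] [] [] 100000 6000 6000 1380000 30000 0 86000 10000 4000
    34000 10000) (.L 5 9 [4, 4, 3] [] [] 100000 6250 6250 1375000 12500 0 100000 0 0 0 0)) (.E 0))
    (.L 5 9 [4, 4, 3] [] [] 100000 0 0 1378948 10526 0 58772 3509 10526 0 0)

lemma n19_19_9_2_5 {n : ℕ} (hn : 5 ≤ n) : NoNd ((19 : ℕ) : ℤ) ((19 : ℕ) : ℤ) n 9 2
    (BlkD.inB (BlkD.upd (BlkD.upd (fun _ => 0) 0 5) 0 8)
      (BlkD.upd (BlkD.upd (fun _ => 19) 0 9) 2 2)) :=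
  BlkD.part_sound (d := d19_19_9_2) dk19_19_9_2 hn (by decide) (tr := t19_19_9_2_5)
    (by decide +kernel) rfl rfl rfl rfl

/-- the certificates of the part 6 of the pair `(9, 2)` -/
def t19_19_9_2_6 : BlkD.Tr :=
  .E 1

lemma n19_19_9_2_6 {n : ℕ} (hn : 5 ≤ n) : NoNd ((19 : ℕ) : ℤ) ((19 : ℕ) : ℤ) n 9 2
    (BlkD.inB (BlkD.upd (fun _ => 0) 2 3)
      (BlkD.upd (fun _ => 19) 0 9)) :=
  BlkD.part_sound (d := d19_19_9_2) dk19_19_9_2 hn (by decide) (tr := t19_19_9_2_6)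
    (by decide +kernel) rfl rfl rfl rfl

/-- the certificates of the part 7 of the pair `(9, 2)` -/
def t19_19_9_2_7 : BlkD.Tr :=
  .E 0

lemma n19_19_9_2_7 {n : ℕ} (hn : 5 ≤ n) : NoNd ((19 : ℕ) : ℤ) ((19 : ℕ) : ℤ) n 9 2
    (BlkD.inB (BlkD.upd (fun _ => 0) 0 10)
      (fun _ => 19)) :=
  BlkD.part_sound (d := d19_19_9_2) dk19_19_9_2 hn (by decide) (tr := t19_19_9_2_7)
    (by decide +kernel) rfl rfl rfl rfl

lemma pr19_19_9_2 {n : ℕ} (hn : 5 ≤ n) : NoPr ((19 : ℕ) : ℤ) ((19 : ℕ) : ℤ) n 9 2 :=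
  BlkD.of_root (q := 3) (by decide) hn (BlkD.sp 0 9 (BlkD.sp 2 2 (BlkD.sp 0 4 (n19_19_9_2_1 hn)
    (BlkD.sp 0 7 (BlkD.sp 0 6 (BlkD.sp 0 5 (n19_19_9_2_2 hn)
    (n19_19_9_2_3 hn))
    (n19_19_9_2_4 hn))
    (n19_19_9_2_5 hn)))
    (n19_19_9_2_6 hn))
    (n19_19_9_2_7 hn))

/-- the numbers of the pair `(9, 3)`, `R = 19`, `H = 19` -/
def d19_19_9_3 : BlkD.Pd :=
  ⟨19, 19, 3, 9, 3, 4, 1, 2, 0, 4, 8, 0, 2, 2, 6, 0, [0, 8, 16, 16, 16], [0, 6, 12, 14, 16], [⟨1,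
    1, 1, 4, 8, [0, 4], [0, 4]⟩, ⟨1, 1, 1, 4, 14, [0, 8], [0, 6]⟩]⟩

lemma dk19_19_9_3 : BlkD.pairOk d19_19_9_3 = true := by decide +kernel

/-- the certificates of the part 1 of the pair `(9, 3)` -/
def t19_19_9_3_1 : BlkD.Tr :=
  .L 5 9 [4, 3, 19, 19] [] [] 100000 1 1 1433334 66667 16667 83333 50000 0 0 0

lemma n19_19_9_3_1 {n : ℕ} (hn : 5 ≤ n) : NoNd ((19 : ℕ) : ℤ) ((19 : ℕ) : ℤ) n 9 3
    (BlkD.inB (fun _ => 0)
      (BlkD.upd (BlkD.upd (BlkD.upd (BlkD.upd (fun _ => 19) 0 9) 2 3) 0 4) 0 2)) :=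
  BlkD.part_sound (d := d19_19_9_3) dk19_19_9_3 hn (by decide) (tr := t19_19_9_3_1)
    (by decide +kernel) rfl rfl rfl rfl

/-- the certificates of the part 2 of the pair `(9, 3)` -/
def t19_19_9_3_2 : BlkD.Tr :=
  .L 5 9 [4, 3, 19, 19] [] [] 100000 1 1 1433334 66667 16667 83333 50000 0 0 0

lemma n19_19_9_3_2 {n : ℕ} (hn : 5 ≤ n) : NoNd ((19 : ℕ) : ℤ) ((19 : ℕ) : ℤ) n 9 3
    (BlkD.inB (BlkD.upd (fun _ => 0) 0 3)
      (BlkD.upd (BlkD.upd (BlkD.upd (fun _ => 19) 0 9) 2 3) 0 4)) :=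
  BlkD.part_sound (d := d19_19_9_3) dk19_19_9_3 hn (by decide) (tr := t19_19_9_3_2)
    (by decide +kernel) rfl rfl rfl rfl

/-- the certificates of the part 3 of the pair `(9, 3)` -/
def t19_19_9_3_3 : BlkD.Tr :=
  .L 5 9 [4, 3, 19, 19] [] [] 100000 1 1 1433334 66667 16667 83333 50000 0 0 0

lemma n19_19_9_3_3 {n : ℕ} (hn : 5 ≤ n) : NoNd ((19 : ℕ) : ℤ) ((19 : ℕ) : ℤ) n 9 3
    (BlkD.inB (BlkD.upd (fun _ => 0) 0 5)
      (BlkD.upd (BlkD.upd (BlkD.upd (fun _ => 19) 0 9) 2 3) 0 7)) :=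
  BlkD.part_sound (d := d19_19_9_3) dk19_19_9_3 hn (by decide) (tr := t19_19_9_3_3)
    (by decide +kernel) rfl rfl rfl rfl

/-- the certificates of the part 4 of the pair `(9, 3)` -/
def t19_19_9_3_4 : BlkD.Tr :=
  .L 5 9 [4, 3, 19, 19] [] [] 100000 1 1 1433334 66667 16667 83333 50000 0 0 0

lemma n19_19_9_3_4 {n : ℕ} (hn : 5 ≤ n) : NoNd ((19 : ℕ) : ℤ) ((19 : ℕ) : ℤ) n 9 3
    (BlkD.inB (BlkD.upd (BlkD.upd (fun _ => 0) 0 5) 0 8)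
      (BlkD.upd (BlkD.upd (fun _ => 19) 0 9) 2 3)) :=
  BlkD.part_sound (d := d19_19_9_3) dk19_19_9_3 hn (by decide) (tr := t19_19_9_3_4)
    (by decide +kernel) rfl rfl rfl rfl

/-- the certificates of the part 5 of the pair `(9, 3)` -/
def t19_19_9_3_5 : BlkD.Tr :=
  .E 1

lemma n19_19_9_3_5 {n : ℕ} (hn : 5 ≤ n) : NoNd ((19 : ℕ) : ℤ) ((19 : ℕ) : ℤ) n 9 3
    (BlkD.inB (BlkD.upd (fun _ => 0) 2 4)
      (BlkD.upd (fun _ => 19) 0 9)) :=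
  BlkD.part_sound (d := d19_19_9_3) dk19_19_9_3 hn (by decide) (tr := t19_19_9_3_5)
    (by decide +kernel) rfl rfl rfl rfl

/-- the certificates of the part 6 of the pair `(9, 3)` -/
def t19_19_9_3_6 : BlkD.Tr :=
  .E 0

lemma n19_19_9_3_6 {n : ℕ} (hn : 5 ≤ n) : NoNd ((19 : ℕ) : ℤ) ((19 : ℕ) : ℤ) n 9 3
    (BlkD.inB (BlkD.upd (fun _ => 0) 0 10)
      (fun _ => 19)) :=
  BlkD.part_sound (d := d19_19_9_3) dk19_19_9_3 hn (by decide) (tr := t19_19_9_3_6)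
    (by decide +kernel) rfl rfl rfl rfl

lemma pr19_19_9_3 {n : ℕ} (hn : 5 ≤ n) : NoPr ((19 : ℕ) : ℤ) ((19 : ℕ) : ℤ) n 9 3 :=
  BlkD.of_root (q := 3) (by decide) hn (BlkD.sp 0 9 (BlkD.sp 2 3 (BlkD.sp 0 4 (BlkD.sp 0 2 (n19_19_9_3_1 hn)
    (n19_19_9_3_2 hn))
    (BlkD.sp 0 7 (n19_19_9_3_3 hn)
    (n19_19_9_3_4 hn)))
    (n19_19_9_3_5 hn))
    (n19_19_9_3_6 hn))

end BlkC

end Pool.Agent.Lib.MP_f04ccf_co
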