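import Pool.Agent.Lib.MP_f04ccf_co.M.BlkTp

/-!
MP_f04ccf_co, block certificate, data `R = 19`, `H = 19`, part 6 (certificates: helper99, bd9.cpp).
-/

set_option autoImplicit false
set_option maxRecDepth 100000

namespace Pool.Agent.Lib.MP_f04ccf_co

namespace BlkC

/-- the numbers of the pair `(9, 4)`, `R = 19`, `H = 19` -/
def d19_19_9_4 : BlkD.Pd :=
  ⟨19, 19, 3, 9, 4, 3, 0, 3, 0, 4, 4, 0, 0, 4, 4, 0, [0, 4, 8, 12], [0, 4, 8, 12], [⟨1, 1, 1, 4, 8,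
    [0, 4], [0, 4]⟩]⟩

lemma dk19_19_9_4 : BlkD.pairOk d19_19_9_4 = true := by decide +kernel

/-- the certificates of the part 1 of the pair `(9, 4)` -/
def t19_19_9_4_1 : BlkD.Tr :=
  .L 3 3 [4, 19, 19, 19, 19] [] [] 100000 0 0 1500000 100000 25000 100000 50000 0 0 0

lemma n19_19_9_4_1 {n : ℕ} (hn : 5 ≤ n) : NoNd ((19 : ℕ) : ℤ) ((19 : ℕ) : ℤ) n 9 4
    (BlkD.inB (fun _ => 0)
      (BlkD.upd (BlkD.upd (BlkD.upd (BlkD.upd (fun _ => 19) 0 9) 2 4) 0 4) 0 2)) :=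
  BlkD.part_sound (d := d19_19_9_4) dk19_19_9_4 hn (by decide) (tr := t19_19_9_4_1)
    (by decide +kernel) rfl rfl rfl rfl

/-- the certificates of the part 2 of the pair `(9, 4)` -/
def t19_19_9_4_2 : BlkD.Tr :=
  .L 3 3 [4, 19, 19, 19, 19] [] [] 100000 0 0 1500000 100000 25000 100000 50000 0 0 0

lemma n19_19_9_4_2 {n : ℕ} (hn : 5 ≤ n) : NoNd ((19 : ℕ) : ℤ) ((19 : ℕ) : ℤ) n 9 4
    (BlkD.inB (BlkD.upd (fun _ => 0) 0 3)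
      (BlkD.upd (BlkD.upd (BlkD.upd (fun _ => 19) 0 9) 2 4) 0 4)) :=
  BlkD.part_sound (d := d19_19_9_4) dk19_19_9_4 hn (by decide) (tr := t19_19_9_4_2)
    (by decide +kernel) rfl rfl rfl rfl

/-- the certificates of the part 3 of the pair `(9, 4)` -/
def t19_19_9_4_3 : BlkD.Tr :=
  .L 3 3 [4, 19, 19, 19, 19] [] [] 100000 0 0 1500000 100000 25000 100000 50000 0 0 0

lemma n19_19_9_4_3 {n : ℕ} (hn : 5 ≤ n) : NoNd ((19 : ℕ) : ℤ) ((19 : ℕ) : ℤ) n 9 4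
    (BlkD.inB (BlkD.upd (fun _ => 0) 0 5)
      (BlkD.upd (BlkD.upd (BlkD.upd (fun _ => 19) 0 9) 2 4) 0 7)) :=
  BlkD.part_sound (d := d19_19_9_4) dk19_19_9_4 hn (by decide) (tr := t19_19_9_4_3)
    (by decide +kernel) rfl rfl rfl rfl

/-- the certificates of the part 4 of the pair `(9, 4)` -/
def t19_19_9_4_4 : BlkD.Tr :=
  .L 3 3 [4, 19, 19, 19, 19] [] [] 100000 0 0 1500000 100000 25000 100000 50000 0 0 0

lemma n19_19_9_4_4 {n : ℕ} (hn : 5 ≤ n) : NoNd ((19 : ℕ) : ℤ) ((19 : ℕ) : ℤ) n 9 4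
    (BlkD.inB (BlkD.upd (BlkD.upd (fun _ => 0) 0 5) 0 8)
      (BlkD.upd (BlkD.upd (fun _ => 19) 0 9) 2 4)) :=
  BlkD.part_sound (d := d19_19_9_4) dk19_19_9_4 hn (by decide) (tr := t19_19_9_4_4)
    (by decide +kernel) rfl rfl rfl rfl

/-- the certificates of the part 5 of the pair `(9, 4)` -/
def t19_19_9_4_5 : BlkD.Tr :=
  .E 1

lemma n19_19_9_4_5 {n : ℕ} (hn : 5 ≤ n) : NoNd ((19 : ℕ) : ℤ) ((19 : ℕ) : ℤ) n 9 4
    (BlkD.inB (BlkD.upd (fun _ => 0) 2 5)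
      (BlkD.upd (fun _ => 19) 0 9)) :=
  BlkD.part_sound (d := d19_19_9_4) dk19_19_9_4 hn (by decide) (tr := t19_19_9_4_5)
    (by decide +kernel) rfl rfl rfl rfl

/-- the certificates of the part 6 of the pair `(9, 4)` -/
def t19_19_9_4_6 : BlkD.Tr :=
  .E 0

lemma n19_19_9_4_6 {n : ℕ} (hn : 5 ≤ n) : NoNd ((19 : ℕ) : ℤ) ((19 : ℕ) : ℤ) n 9 4
    (BlkD.inB (BlkD.upd (fun _ => 0) 0 10)
      (fun _ => 19)) :=
  BlkD.part_sound (d := d19_19_9_4) dk19_19_9_4 hn (by decide) (tr := t19_19_9_4_6)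
    (by decide +kernel) rfl rfl rfl rfl

lemma pr19_19_9_4 {n : ℕ} (hn : 5 ≤ n) : NoPr ((19 : ℕ) : ℤ) ((19 : ℕ) : ℤ) n 9 4 :=
  BlkD.of_root (q := 3) (by decide) hn (BlkD.sp 0 9 (BlkD.sp 2 4 (BlkD.sp 0 4 (BlkD.sp 0 2 (n19_19_9_4_1 hn)
    (n19_19_9_4_2 hn))
    (BlkD.sp 0 7 (n19_19_9_4_3 hn)
    (n19_19_9_4_4 hn)))
    (n19_19_9_4_5 hn))
    (n19_19_9_4_6 hn))

/-- the numbers of the pair `(10, 0)`, `R = 19`, `H = 19` -/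
def d19_19_10_0 : BlkD.Pd :=
  ⟨19, 19, 3, 10, 0, 6, 0, 1, 0, 4, 4, 0, 0, 4, 4, 0, [0, 4, 8, 12, 16, 20, 24], [0, 4, 8, 12, 16,
    20, 24], [⟨1, 1, 1, 4, 8, [0, 4], [0, 4]⟩]⟩

lemma dk19_19_10_0 : BlkD.pairOk d19_19_10_0 = true := by decide +kernel

/-- the certificates of the part 1 of the pair `(10, 0)` -/
def t19_19_10_0_1 : BlkD.Tr :=
  .S 0 10 (.S 2 0 (.L 3 3 [4] [] [] 100000 0 0 1100000 100000 0 100000 0 0 0 0) (.E 1)) (.E 0)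

lemma n19_19_10_0_1 {n : ℕ} (hn : 5 ≤ n) : NoNd ((19 : ℕ) : ℤ) ((19 : ℕ) : ℤ) n 10 0
    (BlkD.inB (fun _ => 0)
      (fun _ => 19)) :=
  BlkD.part_sound (d := d19_19_10_0) dk19_19_10_0 hn (by decide) (tr := t19_19_10_0_1)
    (by decide +kernel) rfl rfl rfl rfl

lemma pr19_19_10_0 {n : ℕ} (hn : 5 ≤ n) : NoPr ((19 : ℕ) : ℤ) ((19 : ℕ) : ℤ) n 10 0 :=
  BlkD.of_root (q := 3) (by decide) hn (n19_19_10_0_1 hn)

/-- the numbers of the pair `(10, 1)`, `R = 19`, `H = 19` -/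
def d19_19_10_1 : BlkD.Pd :=
  ⟨19, 19, 3, 10, 1, 5, 1, 1, 0, 4, 8, 0, 0, 4, 4, 0, [0, 8, 16, 20, 20, 20], [0, 4, 8, 12, 16,
    20], [⟨1, 1, 1, 4, 8, [0, 4], [0, 4]⟩, ⟨1, 1, 1, 4, 12, [0, 8], [0, 4]⟩]⟩

lemma dk19_19_10_1 : BlkD.pairOk d19_19_10_1 = true := by decide +kernel

/-- the certificates of the part 1 of the pair `(10, 1)` -/
def t19_19_10_1_1 : BlkD.Tr :=
  .S 0 2 (.L 4 5 [4, 4] [] [] 100000 100000 100000 500000 100000 0 100000 0 0 0 0) (.S 0 4 (.L 4 5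
    [4, 4] [] [] 100000 200000 200000 800000 100000 0 100000 0 0 0 0) (.S 1 14 (.S 1 7 (.L 4 5 [4,
    4] [] [] 100000 0 0 1120000 40000 0 40000 0 0 0 0) (.S 1 11 (.L 4 5 [4, 4] [] [] 100000 50000
    50000 1250000 50000 0 100000 0 0 0 0) (.S 1 13 (.S 1 12 (.S 2 0 (.S 3 2 (.S 3 1 (.S 3 0 (.L 4 5
    [4, 4] [280, 280, 280, 280, 280, 280] [0, 0, 0, 0, 0, 0] 100000 0 0 1380000 40000 0 60000 0 0 0
    0) (.L 3 4 [4, 5] [280, 280, 280, 280, 280, 280] [8, 0, 0, 0, 0, 0] 100000 554544 490908 4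
    163636 0 163636 0 0 0 0)) (.L 3 4 [4, 5] [280, 280, 280, 280, 280, 280] [14, 10, 2, 0, 0, 0]
    100000 533332 474999 4 158333 0 158333 0 0 0 0)) (.E 1)) (.L 3 4 [4, 5] [280, 280, 280, 280,
    280, 280] [] 100000 554544 490908 4 163636 0 163636 0 0 0 0)) (.S 2 0 (.S 3 1 (.S 3 0 (.S 4 13
    (.S 4 6 (.S 4 3 (.S 4 1 (.L 3 4 [4, 5] [294, 286, 0, 0, 0, 0] [0, 0, 0, 0, 0, 0] 100000 440000
    360000 0 180000 0 180000 0 0 0 0) (.L 3 4 [4, 5] [310, 302, 294, 286, 0, 0] [0, 0, 0, 0, 0, 0]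
    100000 350000 150000 0 150000 0 300000 0 0 0 0)) (.L 3 4 [4, 5] [314, 314, 314, 310, 302, 294]
    [0, 0, 0, 0, 0, 0] 100000 260000 0 0 90000 0 360000 0 0 0 0)) (.E 2)) (.E 2)) (.L 3 4 [4, 5]
    [314, 314, 314, 314, 314, 314] [8, 0, 0, 0, 0, 0] 100000 533332 474999 4 158333 0 158333 0 0 0
    0)) (.L 3 4 [4, 5] [314, 314, 314, 314, 314, 314] [] 100000 0 100000 0 0 0 0 0 0 0 0)) (.L 3 4
    [4, 5] [314, 314, 314, 314, 314, 314] [] 100000 533332 474999 4 158333 0 158333 0 0 0 0))) (.S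
    2 0 (.S 3 0 (.L 2 3 [6, 7] [350, 350, 350, 350, 350, 350] [0, 0, 0, 0, 0, 0] 100000 533332
    474999 4 158333 0 158333 0 0 0 0) (.L 2 3 [6, 7] [350, 350, 350, 350, 350, 350] [] 100000 0
    100000 0 0 0 0 0 0 0 0)) (.L 2 3 [6, 7] [350, 350, 350, 350, 350, 350] [] 100000 0 100000 0 0 0
    0 0 0 0 0))))) (.E 0)))

lemma n19_19_10_1_1 {n : ℕ} (hn : 5 ≤ n) : NoNd ((19 : ℕ) : ℤ) ((19 : ℕ) : ℤ) n 10 1
    (BlkD.inB (fun _ => 0)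
      (BlkD.upd (BlkD.upd (BlkD.upd (fun _ => 19) 0 10) 2 1) 0 5)) :=
  BlkD.part_sound (d := d19_19_10_1) dk19_19_10_1 hn (by decide) (tr := t19_19_10_1_1)
    (by decide +kernel) rfl rfl rfl rfl

/-- the certificates of the part 2 of the pair `(10, 1)` -/
def t19_19_10_1_2 : BlkD.Tr :=
  .S 0 8 (.S 0 7 (.S 0 6 (.S 1 13 (.S 1 6 (.L 2 3 [6, 7] [] [] 100000 2 2 1299998 16667 0 16667 0 0
    0 0) (.S 1 10 (.S 1 8 (.L 4 5 [4, 4] [] [] 100000 0 0 1333336 33333 0 33333 0 0 0 0) (.S 1 9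
    (.L 4 5 [4, 4] [208, 208, 208, 208, 208, 208] [] 100000 0 0 1340000 40000 0 40000 0 0 0 0) (.S
    2 0 (.L 4 5 [4, 4] [238, 238, 238, 238, 238, 238] [] 100000 0 0 1380000 40000 0 46667 20000 0 0
    0) (.S 3 2 (.S 3 1 (.S 3 0 (.L 4 5 [4, 4] [238, 238, 238, 238, 238, 238] [0, 0, 0, 0, 0, 0]
    100000 0 0 1340000 40000 0 40000 0 0 0 0) (.S 4 10 (.S 4 5 (.S 4 2 (.L 4 5 [4, 4] [226, 218,
    210, 0, 0, 0] [10, 2, 0, 0, 0, 0] 100000 440000 360000 0 180000 0 180000 0 0 0 0) (.L 4 5 [4,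
    4] [238, 238, 234, 226, 218, 210] [10, 2, 0, 0, 0, 0] 100000 210345 0 0 124138 0 310345 0 0 0
    0)) (.E 2)) (.E 2))) (.E 1)) (.E 1))))) (.S 1 12 (.S 1 11 (.S 2 0 (.S 3 2 (.S 3 1 (.S 3 0 (.L 3
    4 [4, 5] [270, 270, 270, 270, 270, 270] [0, 0, 0, 0, 0, 0] 100000 0 0 1380000 40000 0 40000 0 0
    0 0) (.S 4 11 (.S 4 5 (.S 4 2 (.L 4 5 [4, 4] [258, 250, 242, 0, 0, 0] [8, 0, 0, 0, 0, 0] 100000
    500000 400000 0 200000 0 200000 0 0 0 0) (.L 4 5 [4, 4] [270, 270, 266, 258, 250, 242] [8, 0,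
    0, 0, 0, 0] 100000 296000 72000 0 144000 0 324000 0 0 0 0)) (.L 4 5 [4, 4] [270, 270, 270, 270,
    270, 270] [8, 0, 0, 0, 0, 0] 100000 157143 0 0 102857 0 257143 0 0 0 0)) (.E 2))) (.L 4 5 [4,
    4] [270, 270, 270, 270, 270, 270] [14, 10, 2, 0, 0, 0] 100000 304000 88000 0 144000 0 144000
    316000 0 0 0)) (.E 1)) (.S 3 1 (.S 3 0 (.S 4 11 (.S 4 5 (.S 4 2 (.L 4 5 [4, 4] [258, 250, 242,
    0, 0, 0] [0, 0, 0, 0, 0, 0] 100000 440000 360000 0 180000 0 180000 0 0 0 0) (.L 4 5 [4, 4]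
    [270, 270, 266, 258, 250, 242] [0, 0, 0, 0, 0, 0] 100000 296000 72000 0 144000 0 324000 0 0 0
    0)) (.L 4 5 [4, 4] [270, 270, 270, 270, 270, 270] [0, 0, 0, 0, 0, 0] 100000 157143 0 0 102857 0
    257143 0 0 0 0)) (.E 2)) (.S 4 11 (.S 4 5 (.S 4 2 (.L 4 5 [4, 4] [258, 250, 242, 0, 0, 0] [10,
    2, 0, 0, 0, 0] 100000 440000 360000 0 180000 0 140000 0 0 0 0) (.L 4 5 [4, 4] [270, 270, 266,
    258, 250, 242] [10, 2, 0, 0, 0, 0] 100000 206453 1 0 122581 0 306452 0 0 0 0)) (.E 2)) (.E 2)))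
    (.E 1))) (.L 4 5 [4, 4] [304, 304, 304, 304, 304, 304] [] 100000 66668 66668 1233331 66667 0
    100000 0 0 0 0)) (.S 2 0 (.S 3 0 (.S 4 13 (.S 4 6 (.S 4 3 (.L 3 4 [4, 5] [336, 328, 320, 312,
    0, 0] [0, 0, 0, 0, 0, 0] 100000 470000 380000 0 190000 0 190000 0 0 0 0) (.L 3 4 [4, 5] [340,
    340, 340, 336, 328, 320] [0, 0, 0, 0, 0, 0] 100000 307142 135713 1 135714 0 271429 0 0 0 0))
    (.E 2)) (.E 2)) (.L 3 4 [4, 5] [340, 340, 340, 340, 340, 340] [] 100000 0 100000 0 0 0 0 0 0 0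
    0)) (.L 3 4 [4, 5] [340, 340, 340, 340, 340, 340] [] 100000 0 100000 0 0 0 0 0 0 0 0))))) (.E
    0)) (.S 1 12 (.S 1 6 (.L 3 4 [4, 5] [] [] 100000 0 0 1300002 33333 0 33333 0 0 0 0) (.S 1 9 (.S
    1 8 (.S 1 7 (.L 3 4 [4, 5] [168, 168, 168, 168, 164, 156] [] 100000 0 0 1366669 33333 0 33333 0
    0 0 0) (.L 3 4 [4, 5] [196, 196, 196, 196, 196, 192] [] 100000 0 0 1380000 40000 0 40000 0 0 0
    0)) (.L 4 5 [4, 4] [226, 226, 226, 226, 226, 226] [] 100000 0 0 1350000 50000 0 50000 0 0 0 0))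
    (.S 1 11 (.S 1 10 (.S 2 0 (.S 3 2 (.S 3 1 (.S 3 0 (.L 4 5 [4, 4] [258, 258, 258, 258, 258, 258]
    [0, 0, 0, 0, 0, 0] 100000 0 0 1350000 50000 0 75000 0 0 0 0) (.S 4 10 (.S 4 5 (.S 4 2 (.L 3 4
    [4, 5] [246, 238, 230, 0, 0, 0] [8, 0, 0, 0, 0, 0] 100000 500000 400000 0 200000 0 200000 0 0 0
    0) (.L 3 4 [4, 5] [258, 258, 254, 246, 238, 230] [8, 0, 0, 0, 0, 0] 100000 0 0 1333336 33333 0
    100000 33333 0 0 0)) (.L 3 4 [4, 5] [258, 258, 258, 258, 258, 258] [8, 0, 0, 0, 0, 0] 100000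
    184211 0 0 94737 0 284211 0 0 0 0)) (.E 2))) (.L 4 5 [4, 4] [258, 258, 258, 258, 258, 258] [14,
    10, 2, 0, 0, 0] 100000 440000 360000 0 180000 0 180000 100000 0 0 0)) (.E 1)) (.L 4 5 [4, 4]
    [258, 258, 258, 258, 258, 258] [] 100000 500000 400000 0 200000 0 200000 0 0 0 0)) (.S 2 0 (.S
    3 1 (.S 3 0 (.S 4 11 (.S 4 5 (.S 4 2 (.L 2 4 [6, 6] [280, 272, 264, 0, 0, 0] [0, 0, 0, 0, 0, 0]
    100000 500000 400000 0 200000 0 200000 0 0 0 0) (.L 2 4 [6, 6] [292, 292, 288, 280, 272, 264]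
    [0, 0, 0, 0, 0, 0] 100000 0 0 1366669 33333 0 100000 0 0 33333 33333)) (.L 2 4 [6, 6] [292,
    292, 292, 292, 292, 292] [0, 0, 0, 0, 0, 0] 100000 184211 0 0 94737 0 284211 0 0 0 0)) (.E 2))
    (.L 3 4 [4, 5] [292, 292, 292, 292, 292, 292] [8, 0, 0, 0, 0, 0] 100000 470000 380000 0 190000
    0 190000 0 0 0 0)) (.L 3 4 [4, 5] [292, 292, 292, 292, 292, 292] [] 100000 0 100000 0 0 0 0 0 0
    0 0)) (.L 3 4 [4, 5] [292, 292, 292, 292, 292, 292] [] 100000 470000 380000 0 190000 0 190000 0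
    0 0 0))) (.S 2 0 (.S 3 0 (.S 4 12 (.S 4 6 (.S 4 3 (.L 2 4 [6, 6] [324, 316, 308, 300, 0, 0] [0,
    0, 0, 0, 0, 0] 100000 470000 380000 0 190000 0 190000 0 0 0 0) (.L 2 4 [6, 6] [328, 328, 328,
    324, 316, 308] [0, 0, 0, 0, 0, 0] 100000 290000 60000 0 130000 0 330000 0 0 0 0)) (.E 2)) (.E
    2)) (.L 2 4 [6, 6] [328, 328, 328, 328, 328, 328] [] 100000 0 100000 0 0 0 0 0 0 0 0)) (.L 2 4
    [6, 6] [328, 328, 328, 328, 328, 328] [] 100000 0 100000 0 0 0 0 0 0 0 0))))) (.E 0))) (.S 1 11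
    (.S 1 5 (.L 4 5 [4, 4] [] [] 100000 0 0 1300000 40000 0 40000 0 0 0 0) (.S 1 8 (.S 1 7 (.S 1 6
    (.L 4 5 [4, 4] [154, 154, 154, 150, 142, 134] [] 100000 0 0 1360000 40000 0 40000 0 0 0 0) (.L
    4 5 [4, 4] [182, 182, 182, 182, 178, 170] [] 100000 0 0 1350000 50000 0 50000 0 0 0 0)) (.L 4 5
    [4, 4] [212, 212, 212, 212, 212, 208] [] 100000 0 0 1350000 50000 0 100000 0 0 0 0)) (.S 1 10
    (.S 1 9 (.L 4 5 [4, 4] [244, 244, 244, 244, 244, 244] [] 100000 0 0 1350000 50000 0 100000 0 0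
    0 0) (.L 4 5 [4, 4] [278, 278, 278, 278, 278, 278] [] 100000 414286 257143 0 257143 0 257143 0
    0 0 0)) (.L 4 5 [4, 4] [314, 314, 314, 314, 314, 314] [] 100000 375000 237500 0 237500 0 237500
    0 0 0 0)))) (.E 0))) (.S 0 9 (.S 1 10 (.S 1 5 (.L 4 5 [4, 4] [] [] 100000 0 0 1340000 40000 0
    100000 0 0 0 0) (.S 1 8 (.S 1 7 (.L 4 5 [4, 4] [] [] 100000 0 0 1385716 28571 0 100000 0 0 0 0)
    (.L 4 5 [4, 4] [228, 228, 228, 228, 228, 224] [] 100000 0 0 1300000 50000 0 100000 0 0 0 0))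
    (.E 0))) (.E 0)) (.L 4 5 [4, 4] [] [] 100000 0 0 1360000 20000 0 60000 0 0 0 0))

lemma n19_19_10_1_2 {n : ℕ} (hn : 5 ≤ n) : NoNd ((19 : ℕ) : ℤ) ((19 : ℕ) : ℤ) n 10 1
    (BlkD.inB (BlkD.upd (fun _ => 0) 0 6)
      (BlkD.upd (BlkD.upd (fun _ => 19) 0 10) 2 1)) :=
  BlkD.part_sound (d := d19_19_10_1) dk19_19_10_1 hn (by decide) (tr := t19_19_10_1_2)
    (by decide +kernel) rfl rfl rfl rfl

/-- the certificates of the part 3 of the pair `(10, 1)` -/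
def t19_19_10_1_3 : BlkD.Tr :=
  .E 1

lemma n19_19_10_1_3 {n : ℕ} (hn : 5 ≤ n) : NoNd ((19 : ℕ) : ℤ) ((19 : ℕ) : ℤ) n 10 1
    (BlkD.inB (BlkD.upd (fun _ => 0) 2 2)
      (BlkD.upd (fun _ => 19) 0 10)) :=
  BlkD.part_sound (d := d19_19_10_1) dk19_19_10_1 hn (by decide) (tr := t19_19_10_1_3)
    (by decide +kernel) rfl rfl rfl rfl

/-- the certificates of the part 4 of the pair `(10, 1)` -/
def t19_19_10_1_4 : BlkD.Tr :=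
  .E 0

lemma n19_19_10_1_4 {n : ℕ} (hn : 5 ≤ n) : NoNd ((19 : ℕ) : ℤ) ((19 : ℕ) : ℤ) n 10 1
    (BlkD.inB (BlkD.upd (fun _ => 0) 0 11)
      (fun _ => 19)) :=
  BlkD.part_sound (d := d19_19_10_1) dk19_19_10_1 hn (by decide) (tr := t19_19_10_1_4)
    (by decide +kernel) rfl rfl rfl rfl

lemma pr19_19_10_1 {n : ℕ} (hn : 5 ≤ n) : NoPr ((19 : ℕ) : ℤ) ((19 : ℕ) : ℤ) n 10 1 :=
  BlkD.of_root (q := 3) (by decide) hn (BlkD.sp 0 10 (BlkD.sp 2 1 (BlkD.sp 0 5 (n19_19_10_1_1 hn)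
    (n19_19_10_1_2 hn))
    (n19_19_10_1_3 hn))
    (n19_19_10_1_4 hn))

/-- the numbers of the pair `(10, 2)`, `R = 19`, `H = 19` -/
def d19_19_10_2 : BlkD.Pd :=
  ⟨19, 19, 3, 10, 2, 4, 1, 2, 0, 4, 8, 0, 0, 4, 4, 0, [0, 8, 16, 16, 16], [0, 4, 8, 12, 16], [⟨1,
    1, 1, 4, 8, [0, 4], [0, 4]⟩, ⟨1, 1, 1, 4, 12, [0, 8], [0, 4]⟩]⟩

lemma dk19_19_10_2 : BlkD.pairOk d19_19_10_2 = true := by decide +kernel

/-- the certificates of the part 1 of the pair `(10, 2)` -/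
def t19_19_10_2_1 : BlkD.Tr :=
  .L 4 5 [4, 4, 19] [] [] 100000 175000 175000 1250000 75000 0 100000 25000 0 0 0

lemma n19_19_10_2_1 {n : ℕ} (hn : 5 ≤ n) : NoNd ((19 : ℕ) : ℤ) ((19 : ℕ) : ℤ) n 10 2
    (BlkD.inB (fun _ => 0)
      (BlkD.upd (BlkD.upd (BlkD.upd (fun _ => 19) 0 10) 2 2) 0 5)) :=
  BlkD.part_sound (d := d19_19_10_2) dk19_19_10_2 hn (by decide) (tr := t19_19_10_2_1)
    (by decide +kernel) rfl rfl rfl rfl

/-- the certificates of the part 2 of the pair `(10, 2)` -/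
def t19_19_10_2_2 : BlkD.Tr :=
  .S 0 6 (.S 1 13 (.S 1 6 (.L 4 5 [4, 4, 19] [] [] 100000 0 0 1366668 33333 0 33333 16667 0 0 0)
    (.S 1 10 (.S 1 8 (.L 4 5 [4, 4, 19] [] [] 100000 100000 100000 1350000 50000 0 100000 50000 0 0
    0) (.S 1 9 (.L 4 5 [4, 4, 19] [214, 214, 214, 214, 214, 214] [] 100000 50000 50000 1400000
    50000 0 75000 25000 0 0 0) (.L 4 5 [4, 4, 19] [244, 244, 244, 244, 244, 244] [] 100000 133335
    133335 1333332 66667 0 100000 33333 0 0 0))) (.S 1 12 (.S 1 11 (.L 4 5 [4, 4, 19] [276, 276,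
    276, 276, 276, 276] [] 100000 133335 133335 1333332 66667 0 100000 33333 0 0 0) (.L 4 5 [4, 4,
    19] [310, 310, 310, 310, 310, 310] [] 100000 300000 300000 1100000 100000 0 100000 0 0 0 0))
    (.L 4 5 [4, 4, 19] [346, 346, 346, 346, 346, 346] [] 100000 475000 250000 0 225000 0 325000 0 0
    0 0)))) (.E 0)) (.S 1 12 (.S 1 6 (.L 4 5 [4, 4, 19] [] [] 100000 0 0 1433336 33333 0 33333
    33333 0 0 0) (.S 1 9 (.S 1 8 (.S 1 7 (.L 4 5 [4, 4, 19] [174, 174, 174, 174, 166, 158] []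
    100000 50000 50000 1400000 50000 0 75000 25000 0 0 0) (.S 2 1 (.S 2 0 (.L 4 5 [4, 4, 19] [202,
    202, 202, 202, 202, 194] [] 100000 50000 50000 1400000 50000 0 75000 50000 0 0 0) (.S 3 3 (.S 3
    1 (.S 3 0 (.L 4 5 [4, 4, 19] [202, 202, 202, 202, 202, 194] [0, 0, 0, 0, 0, 0] 100000 0 0
    1440000 40000 0 60000 0 0 0 0) (.L 7 7 [4, 3, 19] [202, 202, 202, 202, 202, 194] [12, 2, 0, 0,
    0, 0] 100000 1 1 1433333 66667 33333 100000 33333 0 0 0)) (.L 7 7 [4, 3, 19] [202, 202, 202,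
    202, 202, 194] [] 100000 500000 300000 0 300000 0 300000 300000 0 0 0)) (.E 1))) (.L 7 7 [4, 3,
    19] [202, 202, 202, 202, 202, 194] [] 100000 1 1 1466666 66667 0 100000 0 0 0 0))) (.L 7 7 [4,
    3, 19] [232, 232, 232, 232, 232, 232] [] 100000 1 1 1466666 66667 0 100000 16667 0 0 0)) (.L 7
    7 [4, 3, 19] [] [] 100000 25000 25000 1425000 75000 25000 100000 50000 0 0 0))) (.E 0))

lemma n19_19_10_2_2 {n : ℕ} (hn : 5 ≤ n) : NoNd ((19 : ℕ) : ℤ) ((19 : ℕ) : ℤ) n 10 2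
    (BlkD.inB (BlkD.upd (fun _ => 0) 0 6)
      (BlkD.upd (BlkD.upd (BlkD.upd (BlkD.upd (fun _ => 19) 0 10) 2 2) 0 8) 0 7)) :=
  BlkD.part_sound (d := d19_19_10_2) dk19_19_10_2 hn (by decide) (tr := t19_19_10_2_2)
    (by decide +kernel) rfl rfl rfl rfl

/-- the certificates of the part 3 of the pair `(10, 2)` -/
def t19_19_10_2_3 : BlkD.Tr :=
  .S 1 11 (.S 1 5 (.L 4 5 [4, 4, 19] [] [] 100000 0 0 1440000 40000 0 40000 30000 0 0 0) (.S 1 8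
    (.S 1 7 (.S 1 6 (.S 2 1 (.S 2 0 (.L 4 5 [4, 4, 19] [160, 160, 160, 152, 144, 136] [] 100000 0 0
    1440000 40000 0 40000 60000 0 0 0) (.S 3 4 (.S 3 2 (.S 3 1 (.L 4 5 [4, 4, 19] [160, 160, 160,
    152, 144, 136] [] 100000 0 0 1440000 40000 0 80000 0 0 0 0) (.L 7 7 [4, 3, 19] [160, 160, 160,
    152, 144, 136] [24, 16, 6, 0, 0, 0] 100000 1 1 1399999 66667 0 100000 66667 0 0 0)) (.E 1)) (.E
    1))) (.L 7 7 [4, 3, 19] [160, 160, 160, 152, 144, 136] [] 100000 1 1 1466666 66667 0 66667 0 0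
    0 0)) (.L 7 7 [4, 3, 19] [188, 188, 188, 188, 180, 172] [] 100000 1 1 1466667 66667 33333
    100000 33333 0 0 0)) (.L 7 7 [4, 3, 19] [218, 218, 218, 218, 218, 210] [] 100000 1 1 1466666
    66667 33333 100000 33333 0 0 0)) (.S 1 10 (.S 1 9 (.L 4 5 [4, 4, 19] [250, 250, 250, 250, 250,
    250] [] 100000 66668 66668 1399999 66667 0 100000 16667 0 0 0) (.L 4 5 [4, 4, 19] [284, 284,
    284, 284, 284, 284] [] 100000 200000 200000 1200000 100000 0 100000 0 0 0 0)) (.L 4 5 [4, 4,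
    19] [320, 320, 320, 320, 320, 320] [] 100000 493750 237500 0 237500 0 356250 0 0 0 0)))) (.E 0)

lemma n19_19_10_2_3 {n : ℕ} (hn : 5 ≤ n) : NoNd ((19 : ℕ) : ℤ) ((19 : ℕ) : ℤ) n 10 2
    (BlkD.inB (BlkD.upd (BlkD.upd (fun _ => 0) 0 6) 0 8)
      (BlkD.upd (BlkD.upd (BlkD.upd (fun _ => 19) 0 10) 2 2) 0 8)) :=
  BlkD.part_sound (d := d19_19_10_2) dk19_19_10_2 hn (by decide) (tr := t19_19_10_2_3)
    (by decide +kernel) rfl rfl rfl rfl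

/-- the certificates of the part 4 of the pair `(10, 2)` -/
def t19_19_10_2_4 : BlkD.Tr :=
  .S 0 9 (.S 1 10 (.S 1 5 (.L 4 5 [4, 4, 19] [] [] 100000 0 0 1480000 40000 0 100000 30000 0 0 0)
    (.S 1 8 (.S 1 7 (.S 1 6 (.L 4 5 [4, 4, 19] [172, 172, 172, 164, 156, 148] [] 100000 0 0 1450000
    50000 0 100000 25000 0 0 0) (.L 4 5 [4, 4, 19] [202, 202, 202, 202, 194, 186] [] 100000 0 0
    1450000 50000 0 100000 0 0 0 0)) (.L 4 5 [4, 4, 19] [234, 234, 234, 234, 234, 226] [] 100000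
    620000 360000 0 360000 0 360000 0 0 0 0)) (.S 1 9 (.L 4 5 [4, 4, 19] [268, 268, 268, 268, 268,
    268] [] 100000 500000 300000 0 300000 0 300000 0 0 0 0) (.L 4 5 [4, 4, 19] [304, 304, 304, 304,
    304, 304] [] 100000 442858 271429 0 271429 0 271429 0 0 0 0)))) (.E 0)) (.L 4 5 [4, 4, 19] []
    [] 100000 0 0 1460000 20000 0 70000 40000 0 0 0)

lemma n19_19_10_2_4 {n : ℕ} (hn : 5 ≤ n) : NoNd ((19 : ℕ) : ℤ) ((19 : ℕ) : ℤ) n 10 2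
    (BlkD.inB (BlkD.upd (BlkD.upd (fun _ => 0) 0 6) 0 9)
      (BlkD.upd (BlkD.upd (fun _ => 19) 0 10) 2 2)) :=
  BlkD.part_sound (d := d19_19_10_2) dk19_19_10_2 hn (by decide) (tr := t19_19_10_2_4)
    (by decide +kernel) rfl rfl rfl rfl

/-- the certificates of the part 5 of the pair `(10, 2)` -/
def t19_19_10_2_5 : BlkD.Tr :=
  .E 1

lemma n19_19_10_2_5 {n : ℕ} (hn : 5 ≤ n) : NoNd ((19 : ℕ) : ℤ) ((19 : ℕ) : ℤ) n 10 2
    (BlkD.inB (BlkD.upd (fun _ => 0) 2 3)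
      (BlkD.upd (fun _ => 19) 0 10)) :=
  BlkD.part_sound (d := d19_19_10_2) dk19_19_10_2 hn (by decide) (tr := t19_19_10_2_5)
    (by decide +kernel) rfl rfl rfl rfl

/-- the certificates of the part 6 of the pair `(10, 2)` -/
def t19_19_10_2_6 : BlkD.Tr :=
  .E 0

lemma n19_19_10_2_6 {n : ℕ} (hn : 5 ≤ n) : NoNd ((19 : ℕ) : ℤ) ((19 : ℕ) : ℤ) n 10 2
    (BlkD.inB (BlkD.upd (fun _ => 0) 0 11)
      (fun _ => 19)) :=
  BlkD.part_sound (d := d19_19_10_2) dk19_19_10_2 hn (by decide) (tr := t19_19_10_2_6)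
    (by decide +kernel) rfl rfl rfl rfl

lemma pr19_19_10_2 {n : ℕ} (hn : 5 ≤ n) : NoPr ((19 : ℕ) : ℤ) ((19 : ℕ) : ℤ) n 10 2 :=
  BlkD.of_root (q := 3) (by decide) hn (BlkD.sp 0 10 (BlkD.sp 2 2 (BlkD.sp 0 5 (n19_19_10_2_1 hn)
    (BlkD.sp 0 8 (BlkD.sp 0 7 (n19_19_10_2_2 hn)
    (n19_19_10_2_3 hn))
    (n19_19_10_2_4 hn)))
    (n19_19_10_2_5 hn))
    (n19_19_10_2_6 hn))

/-- the numbers of the pair `(10, 3)`, `R = 19`, `H = 19` -/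
def d19_19_10_3 : BlkD.Pd :=
  ⟨19, 19, 3, 10, 3, 3, 0, 3, 0, 4, 4, 0, 0, 4, 4, 0, [0, 4, 8, 12], [0, 4, 8, 12], [⟨1, 1, 1, 4,
    8, [0, 4], [0, 4]⟩]⟩

lemma dk19_19_10_3 : BlkD.pairOk d19_19_10_3 = true := by decide +kernel

/-- the certificates of the part 1 of the pair `(10, 3)` -/
def t19_19_10_3_1 : BlkD.Tr :=
  .L 3 3 [4, 19, 19, 19] [] [] 100000 0 0 1500001 100000 0 100000 33333 0 0 0

lemma n19_19_10_3_1 {n : ℕ} (hn : 5 ≤ n) : NoNd ((19 : ℕ) : ℤ) ((19 : ℕ) : ℤ) n 10 3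
    (BlkD.inB (fun _ => 0)
      (BlkD.upd (BlkD.upd (BlkD.upd (BlkD.upd (fun _ => 19) 0 10) 2 3) 0 5) 0 2)) :=
  BlkD.part_sound (d := d19_19_10_3) dk19_19_10_3 hn (by decide) (tr := t19_19_10_3_1)
    (by decide +kernel) rfl rfl rfl rfl

/-- the certificates of the part 2 of the pair `(10, 3)` -/
def t19_19_10_3_2 : BlkD.Tr :=
  .L 3 3 [4, 19, 19, 19] [] [] 100000 0 0 1500001 100000 0 100000 33333 0 0 0

lemma n19_19_10_3_2 {n : ℕ} (hn : 5 ≤ n) : NoNd ((19 : ℕ) : ℤ) ((19 : ℕ) : ℤ) n 10 3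
    (BlkD.inB (BlkD.upd (fun _ => 0) 0 3)
      (BlkD.upd (BlkD.upd (BlkD.upd (fun _ => 19) 0 10) 2 3) 0 5)) :=
  BlkD.part_sound (d := d19_19_10_3) dk19_19_10_3 hn (by decide) (tr := t19_19_10_3_2)
    (by decide +kernel) rfl rfl rfl rfl

/-- the certificates of the part 3 of the pair `(10, 3)` -/
def t19_19_10_3_3 : BlkD.Tr :=
  .L 3 3 [4, 19, 19, 19] [] [] 100000 0 0 1500001 100000 0 100000 33333 0 0 0

lemma n19_19_10_3_3 {n : ℕ} (hn : 5 ≤ n) : NoNd ((19 : ℕ) : ℤ) ((19 : ℕ) : ℤ) n 10 3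
    (BlkD.inB (BlkD.upd (fun _ => 0) 0 6)
      (BlkD.upd (BlkD.upd (BlkD.upd (fun _ => 19) 0 10) 2 3) 0 8)) :=
  BlkD.part_sound (d := d19_19_10_3) dk19_19_10_3 hn (by decide) (tr := t19_19_10_3_3)
    (by decide +kernel) rfl rfl rfl rfl

/-- the certificates of the part 4 of the pair `(10, 3)` -/
def t19_19_10_3_4 : BlkD.Tr :=
  .L 3 3 [4, 19, 19, 19] [] [] 100000 0 0 1500001 100000 0 100000 33333 0 0 0

lemma n19_19_10_3_4 {n : ℕ} (hn : 5 ≤ n) : NoNd ((19 : ℕ) : ℤ) ((19 : ℕ) : ℤ) n 10 3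
    (BlkD.inB (BlkD.upd (BlkD.upd (fun _ => 0) 0 6) 0 9)
      (BlkD.upd (BlkD.upd (fun _ => 19) 0 10) 2 3)) :=
  BlkD.part_sound (d := d19_19_10_3) dk19_19_10_3 hn (by decide) (tr := t19_19_10_3_4)
    (by decide +kernel) rfl rfl rfl rfl

/-- the certificates of the part 5 of the pair `(10, 3)` -/
def t19_19_10_3_5 : BlkD.Tr :=
  .E 1

lemma n19_19_10_3_5 {n : ℕ} (hn : 5 ≤ n) : NoNd ((19 : ℕ) : ℤ) ((19 : ℕ) : ℤ) n 10 3
    (BlkD.inB (BlkD.upd (fun _ => 0) 2 4)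
      (BlkD.upd (fun _ => 19) 0 10)) :=
  BlkD.part_sound (d := d19_19_10_3) dk19_19_10_3 hn (by decide) (tr := t19_19_10_3_5)
    (by decide +kernel) rfl rfl rfl rfl

/-- the certificates of the part 6 of the pair `(10, 3)` -/
def t19_19_10_3_6 : BlkD.Tr :=
  .E 0

lemma n19_19_10_3_6 {n : ℕ} (hn : 5 ≤ n) : NoNd ((19 : ℕ) : ℤ) ((19 : ℕ) : ℤ) n 10 3
    (BlkD.inB (BlkD.upd (fun _ => 0) 0 11)
      (fun _ => 19)) :=
  BlkD.part_sound (d := d19_19_10_3) dk19_19_10_3 hn (by decide) (tr := t19_19_10_3_6)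
    (by decide +kernel) rfl rfl rfl rfl

lemma pr19_19_10_3 {n : ℕ} (hn : 5 ≤ n) : NoPr ((19 : ℕ) : ℤ) ((19 : ℕ) : ℤ) n 10 3 :=
  BlkD.of_root (q := 3) (by decide) hn (BlkD.sp 0 10 (BlkD.sp 2 3 (BlkD.sp 0 5 (BlkD.sp 0 2 (n19_19_10_3_1 hn)
    (n19_19_10_3_2 hn))
    (BlkD.sp 0 8 (n19_19_10_3_3 hn)
    (n19_19_10_3_4 hn)))
    (n19_19_10_3_5 hn))
    (n19_19_10_3_6 hn))

/-- the numbers of the pair `(11, 0)`, `R = 19`, `H = 19` -/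
def d19_19_11_0 : BlkD.Pd :=
  ⟨19, 19, 3, 11, 0, 5, 0, 1, 0, 4, 4, 0, 0, 4, 4, 0, [0, 4, 8, 12, 16, 20], [0, 4, 8, 12, 16, 20],
    [⟨1, 1, 1, 4, 8, [0, 4], [0, 4]⟩]⟩

lemma dk19_19_11_0 : BlkD.pairOk d19_19_11_0 = true := by decide +kernel

/-- the certificates of the part 1 of the pair `(11, 0)` -/
def t19_19_11_0_1 : BlkD.Tr :=
  .S 0 11 (.S 2 0 (.L 3 3 [4] [] [] 100000 0 0 1200000 100000 0 100000 0 0 0 0) (.E 1)) (.E 0)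

lemma n19_19_11_0_1 {n : ℕ} (hn : 5 ≤ n) : NoNd ((19 : ℕ) : ℤ) ((19 : ℕ) : ℤ) n 11 0
    (BlkD.inB (fun _ => 0)
      (fun _ => 19)) :=
  BlkD.part_sound (d := d19_19_11_0) dk19_19_11_0 hn (by decide) (tr := t19_19_11_0_1)
    (by decide +kernel) rfl rfl rfl rfl

lemma pr19_19_11_0 {n : ℕ} (hn : 5 ≤ n) : NoPr ((19 : ℕ) : ℤ) ((19 : ℕ) : ℤ) n 11 0 :=
  BlkD.of_root (q := 3) (by decide) hn (n19_19_11_0_1 hn)

/-- the numbers of the pair `(11, 1)`, `R = 19`, `H = 19` -/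
def d19_19_11_1 : BlkD.Pd :=
  ⟨19, 19, 3, 11, 1, 4, 1, 1, 0, 4, 8, 0, 0, 4, 4, 0, [0, 8, 16, 16, 16], [0, 4, 8, 12, 16], [⟨1,
    1, 1, 4, 8, [0, 4], [0, 4]⟩, ⟨1, 1, 1, 4, 12, [0, 8], [0, 4]⟩]⟩

lemma dk19_19_11_1 : BlkD.pairOk d19_19_11_1 = true := by decide +kernel

/-- the certificates of the part 1 of the pair `(11, 1)` -/
def t19_19_11_1_1 : BlkD.Tr :=
  .S 0 11 (.S 2 1 (.S 0 5 (.L 4 6 [4, 4] [] [] 100000 300000 300000 1000000 100000 0 100000 0 0 0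
    0) (.S 0 8 (.S 0 7 (.S 0 6 (.S 1 13 (.S 1 6 (.L 4 6 [4, 4] [] [] 100000 0 0 1200002 33333 0
    33333 0 0 0 0) (.S 1 10 (.L 4 6 [4, 4] [] [] 100000 40000 40000 1400000 40000 0 80000 0 0 0 0)
    (.S 1 12 (.S 1 11 (.S 2 0 (.S 3 2 (.S 3 1 (.S 3 0 (.L 2 2 [6, 10] [266, 266, 266, 266, 266,
    266] [0, 0, 0, 0, 0, 0] 100000 449998 449998 950003 83333 0 83333 0 0 50000 50000) (.L 2 2 [6,
    10] [266, 266, 266, 266, 266, 266] [8, 0, 0, 0, 0, 0] 100000 457141 457141 942860 85714 0 85714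
    0 0 42857 42857)) (.L 2 2 [6, 10] [266, 266, 266, 266, 266, 266] [14, 10, 2, 0, 0, 0] 100000
    936362 863635 3 172727 0 172727 0 0 0 0)) (.E 1)) (.L 2 2 [6, 10] [266, 266, 266, 266, 266,
    266] [] 100000 600000 600000 800000 100000 0 100000 0 0 0 0)) (.L 2 2 [6, 10] [300, 300, 300,
    300, 300, 300] [] 100000 600000 600000 800000 100000 0 100000 0 0 0 0)) (.L 2 2 [6, 10] [336,
    336, 336, 336, 336, 336] [] 100000 600000 600000 800000 100000 0 100000 0 0 0 0)))) (.E 0)) (.S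
    1 12 (.S 1 6 (.L 2 2 [6, 10] [] [] 100000 10000 10000 1440000 10000 0 10000 0 0 50000 50000)
    (.S 1 9 (.S 1 8 (.L 4 6 [4, 4] [] [] 100000 80000 80000 1380000 40000 0 80000 0 0 0 0) (.L 4 6
    [4, 4] [222, 222, 222, 222, 222, 222] [] 100000 40000 40000 1440000 40000 0 40000 0 0 0 0)) (.S
    1 11 (.S 1 10 (.S 2 0 (.S 3 2 (.S 3 1 (.S 3 0 (.L 7 7 [4, 3] [254, 254, 254, 254, 254, 254] [0,
    0, 0, 0, 0, 0] 100000 1 1 1433333 66667 0 100000 0 0 0 0) (.L 7 7 [4, 3] [254, 254, 254, 254,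
    254, 254] [8, 0, 0, 0, 0, 0] 100000 100000 100000 1300000 100000 0 100000 100000 0 0 0)) (.L 7
    7 [4, 3] [254, 254, 254, 254, 254, 254] [14, 10, 2, 0, 0, 0] 100000 280000 190000 0 190000 0
    190000 0 0 0 0)) (.E 1)) (.L 7 7 [4, 3] [254, 254, 254, 254, 254, 254] [] 100000 1 1 1466666
    66667 0 100000 0 0 0 0)) (.L 7 7 [4, 3] [288, 288, 288, 288, 288, 288] [] 100000 620000 360000
    0 360000 0 360000 100000 0 0 0)) (.L 7 7 [4, 3] [324, 324, 324, 324, 324, 324] [] 100000 533334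
    316667 0 316667 0 316667 0 0 0 0)))) (.E 0))) (.S 1 11 (.S 1 5 (.L 7 7 [4, 3] [] [] 100000 0 0
    1400000 20000 0 20000 0 0 0 0) (.S 1 8 (.L 7 7 [4, 3] [] [] 100000 1 1 1466666 66667 0 100000
    33333 0 0 0) (.S 1 10 (.S 1 9 (.S 2 0 (.L 7 7 [4, 3] [240, 240, 240, 240, 240, 240] [] 100000 1
    1 1466666 66667 0 100000 33333 0 0 0) (.L 4 6 [4, 4] [240, 240, 240, 240, 240, 240] [] 100000
    800000 675000 0 225000 0 225000 0 0 0 0)) (.S 2 0 (.S 3 1 (.S 3 0 (.L 7 7 [4, 3] [274, 274,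
    274, 274, 274, 274] [0, 0, 0, 0, 0, 0] 100000 1 1 1466666 66667 0 100000 0 0 0 0) (.L 7 7 [4,
    3] [274, 274, 274, 274, 274, 274] [8, 0, 0, 0, 0, 0] 100000 400000 100000 0 300000 0 400000
    300000 0 0 0)) (.L 7 7 [4, 3] [274, 274, 274, 274, 274, 274] [] 100000 0 100000 0 0 0 0 0 0 0
    0)) (.L 4 6 [4, 4] [274, 274, 274, 274, 274, 274] [] 100000 744444 633333 1 211111 0 211111 0 0
    0 0))) (.S 2 0 (.S 3 0 (.L 2 3 [6, 7] [310, 310, 310, 310, 310, 310] [0, 0, 0, 0, 0, 0] 100000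
    400000 400000 1000000 100000 0 100000 0 0 0 0) (.L 2 3 [6, 7] [310, 310, 310, 310, 310, 310] []
    100000 0 100000 0 0 0 0 0 0 0 0)) (.L 2 3 [6, 7] [310, 310, 310, 310, 310, 310] [] 100000 0
    100000 0 0 0 0 0 0 0 0))))) (.E 0))) (.S 0 10 (.S 0 9 (.S 1 10 (.S 1 5 (.L 4 6 [4, 4] [] []
    100000 0 0 1400000 40000 0 40000 0 0 0 0) (.S 1 8 (.S 1 7 (.S 1 6 (.L 4 6 [4, 4] [162, 162,
    162, 162, 154, 146] [] 100000 50000 50000 1400000 50000 0 50000 0 0 0 0) (.S 2 0 (.S 3 3 (.S 3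
    1 (.S 3 0 (.L 4 6 [4, 4] [192, 192, 192, 192, 192, 184] [0, 0, 0, 0, 0, 0] 100000 0 0 1480000
    40000 0 40000 0 0 0 0) (.L 7 7 [4, 3] [192, 192, 192, 192, 192, 184] [8, 0, 0, 0, 0, 0] 100000
    1 1 1433333 66667 0 100000 66667 0 0 0)) (.L 7 7 [4, 3] [192, 192, 192, 192, 192, 184] []
    100000 414286 257143 0 257143 0 257143 0 0 0 0)) (.E 1)) (.L 4 6 [4, 4] [192, 192, 192, 192,
    192, 184] [] 100000 300000 300000 1100000 100000 0 100000 0 0 0 0))) (.S 2 0 (.S 3 2 (.S 3 1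
    (.S 3 0 (.L 2 4 [6, 6] [224, 224, 224, 224, 224, 224] [0, 0, 0, 0, 0, 0] 100000 300000 300000
    1100000 100000 0 100000 0 0 0 0) (.L 2 4 [6, 6] [224, 224, 224, 224, 224, 224] [8, 0, 0, 0, 0,
    0] 100000 300000 300000 1100000 100000 0 100000 0 0 0 0)) (.L 2 4 [6, 6] [224, 224, 224, 224,
    224, 224] [14, 10, 2, 0, 0, 0] 100000 850000 712500 0 237500 0 237500 0 0 0 0)) (.E 1)) (.L 2 4
    [6, 6] [224, 224, 224, 224, 224, 224] [] 100000 300000 300000 1100000 100000 0 100000 0 0 0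
    0))) (.S 1 9 (.L 2 4 [6, 6] [258, 258, 258, 258, 258, 258] [] 100000 300000 300000 1100000
    100000 0 100000 0 0 0 0) (.L 2 4 [6, 6] [294, 294, 294, 294, 294, 294] [] 100000 850000 712500
    0 237500 0 237500 0 0 0 0)))) (.E 0)) (.S 1 9 (.S 1 4 (.L 4 6 [4, 4] [] [] 100000 0 0 1400000
    50000 0 50000 0 0 0 0) (.S 1 7 (.S 1 6 (.S 1 5 (.L 4 6 [4, 4] [144, 144, 144, 136, 128, 120] []
    100000 0 0 1450000 50000 0 50000 0 0 0 0) (.L 4 6 [4, 4] [174, 174, 174, 174, 166, 158] []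
    100000 0 0 1450000 50000 0 100000 0 0 0 0)) (.S 2 0 (.S 3 2 (.S 3 1 (.S 3 0 (.L 2 4 [6, 6]
    [206, 206, 206, 206, 206, 198] [0, 0, 0, 0, 0, 0] 100000 250000 250000 1200000 100000 0 100000
    0 0 50000 50000) (.L 2 4 [6, 6] [206, 206, 206, 206, 206, 198] [8, 0, 0, 0, 0, 0] 100000 250000
    250000 1200000 100000 0 100000 0 0 50000 50000)) (.L 2 4 [6, 6] [206, 206, 206, 206, 206, 198]
    [14, 10, 2, 0, 0, 0] 100000 714287 542858 0 271429 0 271429 0 0 0 0)) (.E 1)) (.L 2 4 [6, 6]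
    [206, 206, 206, 206, 206, 198] [] 100000 250000 250000 1200000 100000 0 100000 0 0 50000
    50000))) (.S 1 8 (.L 2 4 [6, 6] [240, 240, 240, 240, 240, 240] [] 100000 200000 200000 1200000
    100000 0 100000 0 0 0 0) (.L 2 4 [6, 6] [276, 276, 276, 276, 276, 276] [] 100000 714287 542858
    0 271429 0 271429 0 0 0 0)))) (.E 0))) (.L 2 4 [6, 6] [] [] 100000 1 1 1481818 9091 0 100000 0
    0 0 0)))) (.E 1)) (.E 0)

lemma n19_19_11_1_1 {n : ℕ} (hn : 5 ≤ n) : NoNd ((19 : ℕ) : ℤ) ((19 : ℕ) : ℤ) n 11 1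
    (BlkD.inB (fun _ => 0)
      (fun _ => 19)) :=
  BlkD.part_sound (d := d19_19_11_1) dk19_19_11_1 hn (by decide) (tr := t19_19_11_1_1)
    (by decide +kernel) rfl rfl rfl rfl

lemma pr19_19_11_1 {n : ℕ} (hn : 5 ≤ n) : NoPr ((19 : ℕ) : ℤ) ((19 : ℕ) : ℤ) n 11 1 :=
  BlkD.of_root (q := 3) (by decide) hn (n19_19_11_1_1 hn)

/-- the numbers of the pair `(11, 2)`, `R = 19`, `H = 19` -/
def d19_19_11_2 : BlkD.Pd :=
  ⟨19, 19, 3, 11, 2, 3, 0, 2, 0, 4, 4, 0, 0, 4, 4, 0, [0, 4, 8, 12], [0, 4, 8, 12], [⟨1, 1, 1, 4,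
    8, [0, 4], [0, 4]⟩]⟩

lemma dk19_19_11_2 : BlkD.pairOk d19_19_11_2 = true := by decide +kernel

/-- the certificates of the part 1 of the pair `(11, 2)` -/
def t19_19_11_2_1 : BlkD.Tr :=
  .L 2 4 [6, 19, 19] [] [] 100000 0 0 1500000 100000 0 100000 0 0 0 0

lemma n19_19_11_2_1 {n : ℕ} (hn : 5 ≤ n) : NoNd ((19 : ℕ) : ℤ) ((19 : ℕ) : ℤ) n 11 2
    (BlkD.inB (fun _ => 0)
      (BlkD.upd (BlkD.upd (BlkD.upd (fun _ => 19) 0 11) 2 2) 0 5)) :=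
  BlkD.part_sound (d := d19_19_11_2) dk19_19_11_2 hn (by decide) (tr := t19_19_11_2_1)
    (by decide +kernel) rfl rfl rfl rfl

/-- the certificates of the part 2 of the pair `(11, 2)` -/
def t19_19_11_2_2 : BlkD.Tr :=
  .L 2 4 [6, 19, 19] [] [] 100000 0 0 1500000 100000 0 100000 0 0 0 0

lemma n19_19_11_2_2 {n : ℕ} (hn : 5 ≤ n) : NoNd ((19 : ℕ) : ℤ) ((19 : ℕ) : ℤ) n 11 2
    (BlkD.inB (BlkD.upd (fun _ => 0) 0 6)
      (BlkD.upd (BlkD.upd (fun _ => 19) 0 11) 2 2)) :=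
  BlkD.part_sound (d := d19_19_11_2) dk19_19_11_2 hn (by decide) (tr := t19_19_11_2_2)
    (by decide +kernel) rfl rfl rfl rfl

/-- the certificates of the part 3 of the pair `(11, 2)` -/
def t19_19_11_2_3 : BlkD.Tr :=
  .E 1

lemma n19_19_11_2_3 {n : ℕ} (hn : 5 ≤ n) : NoNd ((19 : ℕ) : ℤ) ((19 : ℕ) : ℤ) n 11 2
    (BlkD.inB (BlkD.upd (fun _ => 0) 2 3)
      (BlkD.upd (fun _ => 19) 0 11)) :=
  BlkD.part_sound (d := d19_19_11_2) dk19_19_11_2 hn (by decide) (tr := t19_19_11_2_3)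
    (by decide +kernel) rfl rfl rfl rfl

/-- the certificates of the part 4 of the pair `(11, 2)` -/
def t19_19_11_2_4 : BlkD.Tr :=
  .E 0

lemma n19_19_11_2_4 {n : ℕ} (hn : 5 ≤ n) : NoNd ((19 : ℕ) : ℤ) ((19 : ℕ) : ℤ) n 11 2
    (BlkD.inB (BlkD.upd (fun _ => 0) 0 12)
      (fun _ => 19)) :=
  BlkD.part_sound (d := d19_19_11_2) dk19_19_11_2 hn (by decide) (tr := t19_19_11_2_4)
    (by decide +kernel) rfl rfl rfl rfl

lemma pr19_19_11_2 {n : ℕ} (hn : 5 ≤ n) : NoPr ((19 : ℕ) : ℤ) ((19 : ℕ) : ℤ) n 11 2 :=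
  BlkD.of_root (q := 3) (by decide) hn (BlkD.sp 0 11 (BlkD.sp 2 2 (BlkD.sp 0 5 (n19_19_11_2_1 hn)
    (n19_19_11_2_2 hn))
    (n19_19_11_2_3 hn))
    (n19_19_11_2_4 hn))

/-- the numbers of the pair `(12, 0)`, `R = 19`, `H = 19` -/
def d19_19_12_0 : BlkD.Pd :=
  ⟨19, 19, 3, 12, 0, 4, 0, 1, 0, 4, 4, 0, 0, 4, 4, 0, [0, 4, 8, 12, 16], [0, 4, 8, 12, 16], [⟨1, 1,
    1, 4, 8, [0, 4], [0, 4]⟩]⟩

lemma dk19_19_12_0 : BlkD.pairOk d19_19_12_0 = true := by decide +kernel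

/-- the certificates of the part 1 of the pair `(12, 0)` -/
def t19_19_12_0_1 : BlkD.Tr :=
  .S 0 12 (.S 2 0 (.L 2 4 [6] [] [] 100000 0 0 1300000 100000 0 100000 0 0 0 0) (.E 1)) (.E 0)

lemma n19_19_12_0_1 {n : ℕ} (hn : 5 ≤ n) : NoNd ((19 : ℕ) : ℤ) ((19 : ℕ) : ℤ) n 12 0
    (BlkD.inB (fun _ => 0)
      (fun _ => 19)) :=
  BlkD.part_sound (d := d19_19_12_0) dk19_19_12_0 hn (by decide) (tr := t19_19_12_0_1)
    (by decide +kernel) rfl rfl rfl rfl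

lemma pr19_19_12_0 {n : ℕ} (hn : 5 ≤ n) : NoPr ((19 : ℕ) : ℤ) ((19 : ℕ) : ℤ) n 12 0 :=
  BlkD.of_root (q := 3) (by decide) hn (n19_19_12_0_1 hn)

/-- the numbers of the pair `(12, 1)`, `R = 19`, `H = 19` -/
def d19_19_12_1 : BlkD.Pd :=
  ⟨19, 19, 3, 12, 1, 3, 0, 1, 0, 4, 4, 0, 0, 4, 4, 0, [0, 4, 8, 12], [0, 4, 8, 12], [⟨1, 1, 1, 4,
    8, [0, 4], [0, 4]⟩]⟩

lemma dk19_19_12_1 : BlkD.pairOk d19_19_12_1 = true := by decide +kernel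

/-- the certificates of the part 1 of the pair `(12, 1)` -/
def t19_19_12_1_1 : BlkD.Tr :=
  .S 0 12 (.S 2 1 (.L 2 4 [6, 19] [] [] 100000 0 0 1400000 100000 0 100000 0 0 0 0) (.E 1)) (.E 0)

lemma n19_19_12_1_1 {n : ℕ} (hn : 5 ≤ n) : NoNd ((19 : ℕ) : ℤ) ((19 : ℕ) : ℤ) n 12 1
    (BlkD.inB (fun _ => 0)
      (fun _ => 19)) :=
  BlkD.part_sound (d := d19_19_12_1) dk19_19_12_1 hn (by decide) (tr := t19_19_12_1_1)
    (by decide +kernel) rfl rfl rfl rfl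

lemma pr19_19_12_1 {n : ℕ} (hn : 5 ≤ n) : NoPr ((19 : ℕ) : ℤ) ((19 : ℕ) : ℤ) n 12 1 :=
  BlkD.of_root (q := 3) (by decide) hn (n19_19_12_1_1 hn)

/-- the numbers of the pair `(13, 0)`, `R = 19`, `H = 19` -/
def d19_19_13_0 : BlkD.Pd :=
  ⟨19, 19, 3, 13, 0, 3, 0, 1, 0, 4, 4, 0, 0, 4, 4, 0, [0, 4, 8, 12], [0, 4, 8, 12], [⟨1, 1, 1, 4,
    8, [0, 4], [0, 4]⟩]⟩

lemma dk19_19_13_0 : BlkD.pairOk d19_19_13_0 = true := by decide +kernel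

/-- the certificates of the part 1 of the pair `(13, 0)` -/
def t19_19_13_0_1 : BlkD.Tr :=
  .S 0 13 (.S 2 0 (.L 2 4 [6] [] [] 100000 0 0 1400000 100000 0 100000 0 0 0 0) (.E 1)) (.E 0)

lemma n19_19_13_0_1 {n : ℕ} (hn : 5 ≤ n) : NoNd ((19 : ℕ) : ℤ) ((19 : ℕ) : ℤ) n 13 0
    (BlkD.inB (fun _ => 0)
      (fun _ => 19)) :=
  BlkD.part_sound (d := d19_19_13_0) dk19_19_13_0 hn (by decide) (tr := t19_19_13_0_1)
    (by decide +kernel) rfl rfl rfl rfl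

lemma pr19_19_13_0 {n : ℕ} (hn : 5 ≤ n) : NoPr ((19 : ℕ) : ℤ) ((19 : ℕ) : ℤ) n 13 0 :=
  BlkD.of_root (q := 3) (by decide) hn (n19_19_13_0_1 hn)

end BlkC

end Pool.Agent.Lib.MP_f04ccf_co
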