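import Pool.Agent.Lib.MP_f04ccf_co.M.BlkTp

/-!
MP_f04ccf_co, block certificate, data `R = 19`, `H = 20`, part 1 (certificates: helper99, bd9.cpp).
-/

set_option autoImplicit false
set_option maxRecDepth 100000

namespace Pool.Agent.Lib.MP_f04ccf_co

namespace BlkC

/-- the numbers of the pair `(0, 0)`, `R = 19`, `H = 20` -/
def d19_20_0_0 : BlkD.Pd :=
  ⟨19, 20, 4, 0, 0, 17, 0, 1, 0, 4, 4, 0, 0, 4, 4, 0, [0, 4, 8, 12, 16, 20, 24, 28, 32, 36, 40, 44,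
    48, 52, 56, 60, 64, 68], [0, 4, 8, 12, 16, 20, 24, 28, 32, 36, 40, 44, 48, 52, 56, 60, 64, 68],
    [⟨1, 1, 1, 4, 8, [0, 4], [0, 4]⟩]⟩

lemma dk19_20_0_0 : BlkD.pairOk d19_20_0_0 = true := by decide +kernel

/-- the certificates of the part 1 of the pair `(0, 0)` -/
def t19_20_0_0_1 : BlkD.Tr :=
  .S 0 0 (.S 2 0 (.L 3 3 [4] [] [] 100000 0 0 100000 0 0 100000 0 0 0 0) (.E 1)) (.E 0)

lemma n19_20_0_0_1 {n : ℕ} (hn : 6 ≤ n) : NoNd ((19 : ℕ) : ℤ) ((20 : ℕ) : ℤ) n 0 0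
    (BlkD.inB (fun _ => 0)
      (fun _ => 20)) :=
  BlkD.part_sound (d := d19_20_0_0) dk19_20_0_0 hn (by decide) (tr := t19_20_0_0_1)
    (by decide +kernel) rfl rfl rfl rfl

lemma pr19_20_0_0 {n : ℕ} (hn : 6 ≤ n) : NoPr ((19 : ℕ) : ℤ) ((20 : ℕ) : ℤ) n 0 0 :=
  BlkD.of_root (q := 4) (by decide) hn (n19_20_0_0_1 hn)

/-- the numbers of the pair `(1, 0)`, `R = 19`, `H = 20` -/
def d19_20_1_0 : BlkD.Pd :=
  ⟨19, 20, 4, 1, 0, 16, 0, 1, 0, 4, 4, 0, 0, 4, 4, 0, [0, 4, 8, 12, 16, 20, 24, 28, 32, 36, 40, 44,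
    48, 52, 56, 60, 64], [0, 4, 8, 12, 16, 20, 24, 28, 32, 36, 40, 44, 48, 52, 56, 60, 64], [⟨1, 1,
    1, 4, 8, [0, 4], [0, 4]⟩]⟩

lemma dk19_20_1_0 : BlkD.pairOk d19_20_1_0 = true := by decide +kernel

/-- the certificates of the part 1 of the pair `(1, 0)` -/
def t19_20_1_0_1 : BlkD.Tr :=
  .S 0 1 (.S 2 0 (.L 3 3 [4] [] [] 100000 0 0 200000 0 0 0 100000 0 0 0) (.E 1)) (.E 0)

lemma n19_20_1_0_1 {n : ℕ} (hn : 6 ≤ n) : NoNd ((19 : ℕ) : ℤ) ((20 : ℕ) : ℤ) n 1 0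
    (BlkD.inB (fun _ => 0)
      (fun _ => 20)) :=
  BlkD.part_sound (d := d19_20_1_0) dk19_20_1_0 hn (by decide) (tr := t19_20_1_0_1)
    (by decide +kernel) rfl rfl rfl rfl

lemma pr19_20_1_0 {n : ℕ} (hn : 6 ≤ n) : NoPr ((19 : ℕ) : ℤ) ((20 : ℕ) : ℤ) n 1 0 :=
  BlkD.of_root (q := 4) (by decide) hn (n19_20_1_0_1 hn)

/-- the numbers of the pair `(1, 1)`, `R = 19`, `H = 20` -/
def d19_20_1_1 : BlkD.Pd :=
  ⟨19, 20, 4, 1, 1, 15, 1, 1, 0, 4, 4, 0, 0, 4, 4, 0, [0, 4, 8, 12, 16, 20, 24, 28, 32, 36, 40, 44,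
    48, 52, 56, 60], [0, 4, 8, 12, 16, 20, 24, 28, 32, 36, 40, 44, 48, 52, 56, 60], [⟨1, 1, 1, 4,
    8, [0, 4], [0, 4]⟩, ⟨1, 1, 1, 4, 8, [0, 4], [0, 4]⟩]⟩

lemma dk19_20_1_1 : BlkD.pairOk d19_20_1_1 = true := by decide +kernel

/-- the certificates of the part 1 of the pair `(1, 1)` -/
def t19_20_1_1_1 : BlkD.Tr :=
  .S 0 1 (.S 2 1 (.L 4 4 [4, 4] [] [] 100000 0 0 400000 0 0 0 0 0 0 0) (.E 1)) (.E 0)

lemma n19_20_1_1_1 {n : ℕ} (hn : 6 ≤ n) : NoNd ((19 : ℕ) : ℤ) ((20 : ℕ) : ℤ) n 1 1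
    (BlkD.inB (fun _ => 0)
      (fun _ => 20)) :=
  BlkD.part_sound (d := d19_20_1_1) dk19_20_1_1 hn (by decide) (tr := t19_20_1_1_1)
    (by decide +kernel) rfl rfl rfl rfl

lemma pr19_20_1_1 {n : ℕ} (hn : 6 ≤ n) : NoPr ((19 : ℕ) : ℤ) ((20 : ℕ) : ℤ) n 1 1 :=
  BlkD.of_root (q := 4) (by decide) hn (n19_20_1_1_1 hn)

/-- the numbers of the pair `(2, 0)`, `R = 19`, `H = 20` -/
def d19_20_2_0 : BlkD.Pd :=
  ⟨19, 20, 4, 2, 0, 15, 0, 1, 0, 4, 4, 0, 0, 4, 4, 0, [0, 4, 8, 12, 16, 20, 24, 28, 32, 36, 40, 44,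
    48, 52, 56, 60], [0, 4, 8, 12, 16, 20, 24, 28, 32, 36, 40, 44, 48, 52, 56, 60], [⟨1, 1, 1, 4,
    8, [0, 4], [0, 4]⟩]⟩

lemma dk19_20_2_0 : BlkD.pairOk d19_20_2_0 = true := by decide +kernel

/-- the certificates of the part 1 of the pair `(2, 0)` -/
def t19_20_2_0_1 : BlkD.Tr :=
  .S 0 2 (.S 2 0 (.L 3 3 [4] [] [] 100000 0 0 300000 0 0 0 100000 0 0 0) (.E 1)) (.E 0)

lemma n19_20_2_0_1 {n : ℕ} (hn : 6 ≤ n) : NoNd ((19 : ℕ) : ℤ) ((20 : ℕ) : ℤ) n 2 0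
    (BlkD.inB (fun _ => 0)
      (fun _ => 20)) :=
  BlkD.part_sound (d := d19_20_2_0) dk19_20_2_0 hn (by decide) (tr := t19_20_2_0_1)
    (by decide +kernel) rfl rfl rfl rfl

lemma pr19_20_2_0 {n : ℕ} (hn : 6 ≤ n) : NoPr ((19 : ℕ) : ℤ) ((20 : ℕ) : ℤ) n 2 0 :=
  BlkD.of_root (q := 4) (by decide) hn (n19_20_2_0_1 hn)

/-- the numbers of the pair `(2, 1)`, `R = 19`, `H = 20` -/
def d19_20_2_1 : BlkD.Pd :=
  ⟨19, 20, 4, 2, 1, 14, 1, 1, 0, 4, 4, 0, 0, 4, 4, 0, [0, 4, 8, 12, 16, 20, 24, 28, 32, 36, 40, 44,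
    48, 52, 56], [0, 4, 8, 12, 16, 20, 24, 28, 32, 36, 40, 44, 48, 52, 56], [⟨1, 1, 1, 4, 8, [0,
    4], [0, 4]⟩, ⟨1, 1, 1, 4, 8, [0, 4], [0, 4]⟩]⟩

lemma dk19_20_2_1 : BlkD.pairOk d19_20_2_1 = true := by decide +kernel

/-- the certificates of the part 1 of the pair `(2, 1)` -/
def t19_20_2_1_1 : BlkD.Tr :=
  .S 0 2 (.S 2 1 (.L 4 4 [4, 4] [] [] 100000 0 0 500000 0 0 0 0 0 0 0) (.E 1)) (.E 0)

lemma n19_20_2_1_1 {n : ℕ} (hn : 6 ≤ n) : NoNd ((19 : ℕ) : ℤ) ((20 : ℕ) : ℤ) n 2 1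
    (BlkD.inB (fun _ => 0)
      (fun _ => 20)) :=
  BlkD.part_sound (d := d19_20_2_1) dk19_20_2_1 hn (by decide) (tr := t19_20_2_1_1)
    (by decide +kernel) rfl rfl rfl rfl

lemma pr19_20_2_1 {n : ℕ} (hn : 6 ≤ n) : NoPr ((19 : ℕ) : ℤ) ((20 : ℕ) : ℤ) n 2 1 :=
  BlkD.of_root (q := 4) (by decide) hn (n19_20_2_1_1 hn)

/-- the numbers of the pair `(2, 2)`, `R = 19`, `H = 20` -/
def d19_20_2_2 : BlkD.Pd :=
  ⟨19, 20, 4, 2, 2, 13, 2, 1, 0, 4, 6, 0, 0, 4, 6, 0, [0, 6, 12, 18, 24, 30, 36, 42, 48, 52, 52,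
    52, 52, 52], [0, 6, 12, 18, 24, 30, 36, 42, 48, 52, 52, 52, 52, 52], [⟨1, 1, 1, 4, 8, [0, 4],
    [0, 4]⟩, ⟨1, 1, 1, 4, 8, [0, 4], [0, 4]⟩, ⟨1, 1, 1, 6, 12, [0, 6], [0, 6]⟩]⟩

lemma dk19_20_2_2 : BlkD.pairOk d19_20_2_2 = true := by decide +kernel

/-- the certificates of the part 1 of the pair `(2, 2)` -/
def t19_20_2_2_1 : BlkD.Tr :=
  .S 0 2 (.S 2 2 (.L 4 4 [4, 4, 4] [] [] 100000 0 0 600000 0 0 0 0 0 0 0) (.E 1)) (.E 0)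

lemma n19_20_2_2_1 {n : ℕ} (hn : 6 ≤ n) : NoNd ((19 : ℕ) : ℤ) ((20 : ℕ) : ℤ) n 2 2
    (BlkD.inB (fun _ => 0)
      (fun _ => 20)) :=
  BlkD.part_sound (d := d19_20_2_2) dk19_20_2_2 hn (by decide) (tr := t19_20_2_2_1)
    (by decide +kernel) rfl rfl rfl rfl

lemma pr19_20_2_2 {n : ℕ} (hn : 6 ≤ n) : NoPr ((19 : ℕ) : ℤ) ((20 : ℕ) : ℤ) n 2 2 :=
  BlkD.of_root (q := 4) (by decide) hn (n19_20_2_2_1 hn)

/-- the numbers of the pair `(3, 0)`, `R = 19`, `H = 20` -/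
def d19_20_3_0 : BlkD.Pd :=
  ⟨19, 20, 4, 3, 0, 14, 0, 1, 0, 4, 4, 0, 0, 4, 4, 0, [0, 4, 8, 12, 16, 20, 24, 28, 32, 36, 40, 44,
    48, 52, 56], [0, 4, 8, 12, 16, 20, 24, 28, 32, 36, 40, 44, 48, 52, 56], [⟨1, 1, 1, 4, 8, [0,
    4], [0, 4]⟩]⟩

lemma dk19_20_3_0 : BlkD.pairOk d19_20_3_0 = true := by decide +kernel

/-- the certificates of the part 1 of the pair `(3, 0)` -/
def t19_20_3_0_1 : BlkD.Tr :=
  .S 0 3 (.S 2 0 (.L 3 3 [4] [] [] 100000 0 0 420000 0 0 20000 80000 0 0 0) (.E 1)) (.E 0)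

lemma n19_20_3_0_1 {n : ℕ} (hn : 6 ≤ n) : NoNd ((19 : ℕ) : ℤ) ((20 : ℕ) : ℤ) n 3 0
    (BlkD.inB (fun _ => 0)
      (fun _ => 20)) :=
  BlkD.part_sound (d := d19_20_3_0) dk19_20_3_0 hn (by decide) (tr := t19_20_3_0_1)
    (by decide +kernel) rfl rfl rfl rfl

lemma pr19_20_3_0 {n : ℕ} (hn : 6 ≤ n) : NoPr ((19 : ℕ) : ℤ) ((20 : ℕ) : ℤ) n 3 0 :=
  BlkD.of_root (q := 4) (by decide) hn (n19_20_3_0_1 hn)

/-- the numbers of the pair `(3, 1)`, `R = 19`, `H = 20` -/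
def d19_20_3_1 : BlkD.Pd :=
  ⟨19, 20, 4, 3, 1, 13, 1, 1, 0, 4, 6, 0, 0, 4, 4, 0, [0, 6, 12, 18, 24, 30, 36, 42, 48, 52, 52,
    52, 52, 52], [0, 4, 8, 12, 16, 20, 24, 28, 32, 36, 40, 44, 48, 52], [⟨1, 1, 1, 4, 8, [0, 4],
    [0, 4]⟩, ⟨1, 1, 1, 4, 10, [0, 6], [0, 4]⟩]⟩

lemma dk19_20_3_1 : BlkD.pairOk d19_20_3_1 = true := by decide +kernel

/-- the certificates of the part 1 of the pair `(3, 1)` -/
def t19_20_3_1_1 : BlkD.Tr :=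
  .S 0 3 (.S 2 1 (.L 4 4 [4, 4] [] [] 100000 0 0 600001 0 0 33333 0 0 0 0) (.E 1)) (.E 0)

lemma n19_20_3_1_1 {n : ℕ} (hn : 6 ≤ n) : NoNd ((19 : ℕ) : ℤ) ((20 : ℕ) : ℤ) n 3 1
    (BlkD.inB (fun _ => 0)
      (fun _ => 20)) :=
  BlkD.part_sound (d := d19_20_3_1) dk19_20_3_1 hn (by decide) (tr := t19_20_3_1_1)
    (by decide +kernel) rfl rfl rfl rfl

lemma pr19_20_3_1 {n : ℕ} (hn : 6 ≤ n) : NoPr ((19 : ℕ) : ℤ) ((20 : ℕ) : ℤ) n 3 1 :=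
  BlkD.of_root (q := 4) (by decide) hn (n19_20_3_1_1 hn)

/-- the numbers of the pair `(3, 2)`, `R = 19`, `H = 20` -/
def d19_20_3_2 : BlkD.Pd :=
  ⟨19, 20, 4, 3, 2, 12, 2, 1, 0, 4, 6, 0, 0, 4, 6, 0, [0, 6, 12, 18, 24, 30, 36, 42, 48, 48, 48,
    48, 48], [0, 6, 12, 18, 24, 30, 36, 42, 48, 48, 48, 48, 48], [⟨1, 1, 1, 4, 8, [0, 4], [0, 4]⟩,
    ⟨1, 1, 1, 4, 10, [0, 6], [0, 4]⟩, ⟨1, 1, 1, 6, 12, [0, 6], [0, 6]⟩]⟩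

lemma dk19_20_3_2 : BlkD.pairOk d19_20_3_2 = true := by decide +kernel

/-- the certificates of the part 1 of the pair `(3, 2)` -/
def t19_20_3_2_1 : BlkD.Tr :=
  .S 0 3 (.S 2 2 (.L 4 5 [4, 4, 4] [] [] 100000 0 0 700001 0 0 33333 0 0 0 0) (.E 1)) (.E 0)

lemma n19_20_3_2_1 {n : ℕ} (hn : 6 ≤ n) : NoNd ((19 : ℕ) : ℤ) ((20 : ℕ) : ℤ) n 3 2
    (BlkD.inB (fun _ => 0)
      (fun _ => 20)) :=
  BlkD.part_sound (d := d19_20_3_2) dk19_20_3_2 hn (by decide) (tr := t19_20_3_2_1)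
    (by decide +kernel) rfl rfl rfl rfl

lemma pr19_20_3_2 {n : ℕ} (hn : 6 ≤ n) : NoPr ((19 : ℕ) : ℤ) ((20 : ℕ) : ℤ) n 3 2 :=
  BlkD.of_root (q := 4) (by decide) hn (n19_20_3_2_1 hn)

/-- the numbers of the pair `(3, 3)`, `R = 19`, `H = 20` -/
def d19_20_3_3 : BlkD.Pd :=
  ⟨19, 20, 4, 3, 3, 11, 3, 1, 4, 1, 8, 0, 4, 1, 8, 0, [0, 8, 16, 23, 27, 31, 35, 39, 43, 47, 51,
    55], [0, 8, 16, 23, 27, 31, 35, 39, 43, 47, 51, 55], [⟨1, 1, 1, 4, 8, [0, 4], [0, 4]⟩, ⟨1, 1,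
    1, 6, 12, [0, 6], [0, 6]⟩, ⟨1, 1, 1, 6, 12, [0, 6], [0, 6]⟩, ⟨1, 1, 1, 8, 16, [0, 8], [0, 8]⟩]⟩

lemma dk19_20_3_3 : BlkD.pairOk d19_20_3_3 = true := by decide +kernel

/-- the certificates of the part 1 of the pair `(3, 3)` -/
def t19_20_3_3_1 : BlkD.Tr :=
  .S 0 3 (.S 2 3 (.L 5 5 [4, 4, 4, 5] [] [] 100000 8305 8304 800002 0 0 33333 33333 24242 24242
    31650) (.E 1)) (.E 0)

lemma n19_20_3_3_1 {n : ℕ} (hn : 6 ≤ n) : NoNd ((19 : ℕ) : ℤ) ((20 : ℕ) : ℤ) n 3 3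
    (BlkD.inB (fun _ => 0)
      (fun _ => 20)) :=
  BlkD.part_sound (d := d19_20_3_3) dk19_20_3_3 hn (by decide) (tr := t19_20_3_3_1)
    (by decide +kernel) rfl rfl rfl rfl

lemma pr19_20_3_3 {n : ℕ} (hn : 6 ≤ n) : NoPr ((19 : ℕ) : ℤ) ((20 : ℕ) : ℤ) n 3 3 :=
  BlkD.of_root (q := 4) (by decide) hn (n19_20_3_3_1 hn)

/-- the numbers of the pair `(4, 0)`, `R = 19`, `H = 20` -/
def d19_20_4_0 : BlkD.Pd :=
  ⟨19, 20, 4, 4, 0, 13, 0, 1, 0, 4, 4, 0, 0, 4, 4, 0, [0, 4, 8, 12, 16, 20, 24, 28, 32, 36, 40, 44,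
    48, 52], [0, 4, 8, 12, 16, 20, 24, 28, 32, 36, 40, 44, 48, 52], [⟨1, 1, 1, 4, 8, [0, 4], [0,
    4]⟩]⟩

lemma dk19_20_4_0 : BlkD.pairOk d19_20_4_0 = true := by decide +kernel

/-- the certificates of the part 1 of the pair `(4, 0)` -/
def t19_20_4_0_1 : BlkD.Tr :=
  .S 0 4 (.S 2 0 (.L 3 3 [4] [] [] 100000 0 0 516667 16667 0 33333 66667 0 0 0) (.E 1)) (.E 0)

lemma n19_20_4_0_1 {n : ℕ} (hn : 6 ≤ n) : NoNd ((19 : ℕ) : ℤ) ((20 : ℕ) : ℤ) n 4 0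
    (BlkD.inB (fun _ => 0)
      (fun _ => 20)) :=
  BlkD.part_sound (d := d19_20_4_0) dk19_20_4_0 hn (by decide) (tr := t19_20_4_0_1)
    (by decide +kernel) rfl rfl rfl rfl

lemma pr19_20_4_0 {n : ℕ} (hn : 6 ≤ n) : NoPr ((19 : ℕ) : ℤ) ((20 : ℕ) : ℤ) n 4 0 :=
  BlkD.of_root (q := 4) (by decide) hn (n19_20_4_0_1 hn)

/-- the numbers of the pair `(4, 1)`, `R = 19`, `H = 20` -/
def d19_20_4_1 : BlkD.Pd :=
  ⟨19, 20, 4, 4, 1, 12, 1, 1, 0, 4, 6, 0, 0, 4, 4, 0, [0, 6, 12, 18, 24, 30, 36, 42, 48, 48, 48,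
    48, 48], [0, 4, 8, 12, 16, 20, 24, 28, 32, 36, 40, 44, 48], [⟨1, 1, 1, 4, 8, [0, 4], [0, 4]⟩,
    ⟨1, 1, 1, 4, 10, [0, 6], [0, 4]⟩]⟩

lemma dk19_20_4_1 : BlkD.pairOk d19_20_4_1 = true := by decide +kernel

/-- the certificates of the part 1 of the pair `(4, 1)` -/
def t19_20_4_1_1 : BlkD.Tr :=
  .S 0 4 (.S 2 1 (.L 4 4 [4, 4] [] [] 100000 0 0 680000 20000 0 40000 0 0 0 0) (.E 1)) (.E 0)

lemma n19_20_4_1_1 {n : ℕ} (hn : 6 ≤ n) : NoNd ((19 : ℕ) : ℤ) ((20 : ℕ) : ℤ) n 4 1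
    (BlkD.inB (fun _ => 0)
      (fun _ => 20)) :=
  BlkD.part_sound (d := d19_20_4_1) dk19_20_4_1 hn (by decide) (tr := t19_20_4_1_1)
    (by decide +kernel) rfl rfl rfl rfl

lemma pr19_20_4_1 {n : ℕ} (hn : 6 ≤ n) : NoPr ((19 : ℕ) : ℤ) ((20 : ℕ) : ℤ) n 4 1 :=
  BlkD.of_root (q := 4) (by decide) hn (n19_20_4_1_1 hn)

/-- the numbers of the pair `(4, 2)`, `R = 19`, `H = 20` -/
def d19_20_4_2 : BlkD.Pd :=
  ⟨19, 20, 4, 4, 2, 11, 2, 1, 2, 2, 8, 0, 0, 4, 6, 0, [0, 8, 16, 24, 30, 32, 34, 36, 38, 40, 42,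
    44], [0, 6, 12, 18, 24, 30, 36, 42, 44, 44, 44, 44], [⟨1, 1, 1, 4, 8, [0, 4], [0, 4]⟩, ⟨1, 1,
    1, 4, 10, [0, 6], [0, 4]⟩, ⟨1, 1, 1, 6, 14, [0, 8], [0, 6]⟩]⟩

lemma dk19_20_4_2 : BlkD.pairOk d19_20_4_2 = true := by decide +kernel

/-- the certificates of the part 1 of the pair `(4, 2)` -/
def t19_20_4_2_1 : BlkD.Tr :=
  .S 0 4 (.S 2 2 (.L 4 5 [4, 4, 4] [] [] 100000 2274 2274 783333 16667 0 50000 11111 12121 2525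
    40404) (.E 1)) (.E 0)

lemma n19_20_4_2_1 {n : ℕ} (hn : 6 ≤ n) : NoNd ((19 : ℕ) : ℤ) ((20 : ℕ) : ℤ) n 4 2
    (BlkD.inB (fun _ => 0)
      (fun _ => 20)) :=
  BlkD.part_sound (d := d19_20_4_2) dk19_20_4_2 hn (by decide) (tr := t19_20_4_2_1)
    (by decide +kernel) rfl rfl rfl rfl

lemma pr19_20_4_2 {n : ℕ} (hn : 6 ≤ n) : NoPr ((19 : ℕ) : ℤ) ((20 : ℕ) : ℤ) n 4 2 :=
  BlkD.of_root (q := 4) (by decide) hn (n19_20_4_2_1 hn)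

/-- the numbers of the pair `(4, 3)`, `R = 19`, `H = 20` -/
def d19_20_4_3 : BlkD.Pd :=
  ⟨19, 20, 4, 4, 3, 10, 3, 1, 2, 2, 8, 0, 4, 1, 8, 0, [0, 8, 16, 24, 28, 30, 32, 34, 36, 38, 40],
    [0, 8, 16, 22, 26, 30, 34, 38, 42, 46, 50], [⟨1, 1, 1, 4, 8, [0, 4], [0, 4]⟩, ⟨1, 1, 1, 6, 12,
    [0, 6], [0, 6]⟩, ⟨1, 1, 1, 6, 14, [0, 8], [0, 6]⟩, ⟨1, 1, 1, 8, 16, [0, 8], [0, 8]⟩]⟩

lemma dk19_20_4_3 : BlkD.pairOk d19_20_4_3 = true := by decide +kernel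

/-- the certificates of the part 1 of the pair `(4, 3)` -/
def t19_20_4_3_1 : BlkD.Tr :=
  .S 0 4 (.S 2 3 (.L 5 5 [4, 4, 4, 5] [] [] 100000 6945 6945 945834 0 0 54167 33333 21250 24583
    33333) (.E 1)) (.E 0)

lemma n19_20_4_3_1 {n : ℕ} (hn : 6 ≤ n) : NoNd ((19 : ℕ) : ℤ) ((20 : ℕ) : ℤ) n 4 3
    (BlkD.inB (fun _ => 0)
      (fun _ => 20)) :=
  BlkD.part_sound (d := d19_20_4_3) dk19_20_4_3 hn (by decide) (tr := t19_20_4_3_1)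
    (by decide +kernel) rfl rfl rfl rfl

lemma pr19_20_4_3 {n : ℕ} (hn : 6 ≤ n) : NoPr ((19 : ℕ) : ℤ) ((20 : ℕ) : ℤ) n 4 3 :=
  BlkD.of_root (q := 4) (by decide) hn (n19_20_4_3_1 hn)

/-- the numbers of the pair `(5, 0)`, `R = 19`, `H = 20` -/
def d19_20_5_0 : BlkD.Pd :=
  ⟨19, 20, 4, 5, 0, 12, 0, 1, 0, 4, 4, 0, 0, 4, 4, 0, [0, 4, 8, 12, 16, 20, 24, 28, 32, 36, 40, 44,
    48], [0, 4, 8, 12, 16, 20, 24, 28, 32, 36, 40, 44, 48], [⟨1, 1, 1, 4, 8, [0, 4], [0, 4]⟩]⟩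

lemma dk19_20_5_0 : BlkD.pairOk d19_20_5_0 = true := by decide +kernel

/-- the certificates of the part 1 of the pair `(5, 0)` -/
def t19_20_5_0_1 : BlkD.Tr :=
  .S 0 5 (.S 2 0 (.L 7 7 [4] [] [] 100000 0 0 625000 25000 0 50000 50000 0 0 0) (.E 1)) (.E 0)

lemma n19_20_5_0_1 {n : ℕ} (hn : 6 ≤ n) : NoNd ((19 : ℕ) : ℤ) ((20 : ℕ) : ℤ) n 5 0
    (BlkD.inB (fun _ => 0)
      (fun _ => 20)) :=
  BlkD.part_sound (d := d19_20_5_0) dk19_20_5_0 hn (by decide) (tr := t19_20_5_0_1)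
    (by decide +kernel) rfl rfl rfl rfl

lemma pr19_20_5_0 {n : ℕ} (hn : 6 ≤ n) : NoPr ((19 : ℕ) : ℤ) ((20 : ℕ) : ℤ) n 5 0 :=
  BlkD.of_root (q := 4) (by decide) hn (n19_20_5_0_1 hn)

/-- the numbers of the pair `(5, 1)`, `R = 19`, `H = 20` -/
def d19_20_5_1 : BlkD.Pd :=
  ⟨19, 20, 4, 5, 1, 11, 1, 1, 2, 2, 6, 0, 0, 4, 4, 0, [0, 6, 12, 18, 24, 30, 34, 36, 38, 40, 42,
    44], [0, 4, 8, 12, 16, 20, 24, 28, 32, 36, 40, 44], [⟨1, 1, 1, 4, 8, [0, 4], [0, 4]⟩, ⟨1, 1, 1,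
    4, 10, [0, 6], [0, 4]⟩]⟩

lemma dk19_20_5_1 : BlkD.pairOk d19_20_5_1 = true := by decide +kernel

/-- the certificates of the part 1 of the pair `(5, 1)` -/
def t19_20_5_1_1 : BlkD.Tr :=
  .S 0 5 (.S 2 1 (.L 7 7 [4, 4] [] [] 100000 0 0 775000 25000 0 50000 0 0 0 0) (.E 1)) (.E 0)

lemma n19_20_5_1_1 {n : ℕ} (hn : 6 ≤ n) : NoNd ((19 : ℕ) : ℤ) ((20 : ℕ) : ℤ) n 5 1
    (BlkD.inB (fun _ => 0)
      (fun _ => 20)) :=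
  BlkD.part_sound (d := d19_20_5_1) dk19_20_5_1 hn (by decide) (tr := t19_20_5_1_1)
    (by decide +kernel) rfl rfl rfl rfl

lemma pr19_20_5_1 {n : ℕ} (hn : 6 ≤ n) : NoPr ((19 : ℕ) : ℤ) ((20 : ℕ) : ℤ) n 5 1 :=
  BlkD.of_root (q := 4) (by decide) hn (n19_20_5_1_1 hn)

/-- the numbers of the pair `(5, 2)`, `R = 19`, `H = 20` -/
def d19_20_5_2 : BlkD.Pd :=
  ⟨19, 20, 4, 5, 2, 10, 2, 1, 2, 2, 8, 0, 0, 4, 6, 0, [0, 8, 16, 24, 28, 30, 32, 34, 36, 38, 40],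
    [0, 6, 12, 18, 24, 30, 36, 40, 40, 40, 40], [⟨1, 1, 1, 4, 8, [0, 4], [0, 4]⟩, ⟨1, 1, 1, 4, 10,
    [0, 6], [0, 4]⟩, ⟨1, 1, 1, 6, 14, [0, 8], [0, 6]⟩]⟩

lemma dk19_20_5_2 : BlkD.pairOk d19_20_5_2 = true := by decide +kernel

/-- the certificates of the part 1 of the pair `(5, 2)` -/
def t19_20_5_2_1 : BlkD.Tr :=
  .S 0 5 (.S 2 2 (.L 7 7 [4, 4, 4] [] [] 100000 1 1 915717 15357 7500 46071 28214 14643 28452
    28452) (.E 1)) (.E 0)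

lemma n19_20_5_2_1 {n : ℕ} (hn : 6 ≤ n) : NoNd ((19 : ℕ) : ℤ) ((20 : ℕ) : ℤ) n 5 2
    (BlkD.inB (fun _ => 0)
      (fun _ => 20)) :=
  BlkD.part_sound (d := d19_20_5_2) dk19_20_5_2 hn (by decide) (tr := t19_20_5_2_1)
    (by decide +kernel) rfl rfl rfl rfl

lemma pr19_20_5_2 {n : ℕ} (hn : 6 ≤ n) : NoPr ((19 : ℕ) : ℤ) ((20 : ℕ) : ℤ) n 5 2 :=
  BlkD.of_root (q := 4) (by decide) hn (n19_20_5_2_1 hn)

/-- the numbers of the pair `(5, 3)`, `R = 19`, `H = 20` -/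
def d19_20_5_3 : BlkD.Pd :=
  ⟨19, 20, 4, 5, 3, 9, 3, 2, 2, 2, 10, 0, 4, 1, 8, 0, [0, 10, 20, 24, 26, 28, 30, 32, 34, 36], [0,
    8, 16, 21, 25, 29, 33, 37, 41, 45], [⟨1, 1, 1, 4, 8, [0, 4], [0, 4]⟩, ⟨1, 1, 1, 6, 12, [0, 6],
    [0, 6]⟩, ⟨1, 1, 1, 6, 14, [0, 8], [0, 6]⟩, ⟨2, 1, 1, 6, 18, [0, 10, 10], [0, 8]⟩]⟩

lemma dk19_20_5_3 : BlkD.pairOk d19_20_5_3 = true := by decide +kernel

/-- the certificates of the part 1 of the pair `(5, 3)` -/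
def t19_20_5_3_1 : BlkD.Tr :=
  .S 0 1 (.L 7 7 [4, 4, 5, 4] [] [] 100000 25221 25221 924798 43949 0 49703 31956 6294 18044 18801)
    (.S 1 18 (.S 1 9 (.S 1 4 (.L 7 7 [4, 4, 5, 4] [] [] 100000 23443 23443 948520 25740 0 45883
    50000 5550 24121 25694) (.S 1 7 (.S 1 6 (.S 1 5 (.L 5 5 [4, 4, 4, 5] [76, 74, 70, 60, 50, 40]
    [] 100000 23379 23379 980097 23982 0 57315 33333 10860 19005 16742) (.L 5 5 [4, 4, 4, 5] [92,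
    90, 88, 84, 74, 64] [] 100000 22807 22806 915790 0 0 94737 47368 22807 21053 10526)) (.E 0))
    (.E 0))) (.E 0)) (.E 0))

lemma n19_20_5_3_1 {n : ℕ} (hn : 6 ≤ n) : NoNd ((19 : ℕ) : ℤ) ((20 : ℕ) : ℤ) n 5 3
    (BlkD.inB (fun _ => 0)
      (BlkD.upd (BlkD.upd (BlkD.upd (fun _ => 20) 0 5) 2 3) 0 2)) :=
  BlkD.part_sound (d := d19_20_5_3) dk19_20_5_3 hn (by decide) (tr := t19_20_5_3_1)
    (by decide +kernel) rfl rfl rfl rfl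

/-- the certificates of the part 2 of the pair `(5, 3)` -/
def t19_20_5_3_2 : BlkD.Tr :=
  .S 0 3 (.S 1 17 (.S 1 8 (.S 1 4 (.S 1 2 (.L 5 5 [4, 4, 4, 5] [] [] 100000 24074 24073 861113
    38889 0 38889 61111 0 27778 33333) (.S 1 3 (.L 5 5 [4, 4, 4, 5] [54, 44, 34, 24, 0, 0] []
    100000 21517 21517 969877 19672 0 42623 71107 6557 28893 29508) (.L 5 5 [4, 4, 4, 5] [70, 66,
    56, 46, 36, 0] [] 100000 19048 19048 985715 12987 0 75325 37662 22222 20635 14286))) (.L 5 5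
    [4, 4, 4, 5] [] [] 100000 23333 23332 910000 0 0 95000 50000 23333 20000 10000)) (.E 0)) (.E
    0)) (.S 1 16 (.S 1 8 (.S 1 4 (.S 1 2 (.L 5 5 [4, 4, 4, 5] [] [] 100000 22211 22210 939633 30185
    0 72690 57495 8727 24641 21253) (.L 5 5 [4, 4, 4, 5] [] [] 100000 6878 6877 1028573 18254 0
    34921 33333 53968 25397 26984)) (.E 0)) (.E 0)) (.E 0))

lemma n19_20_5_3_2 {n : ℕ} (hn : 6 ≤ n) : NoNd ((19 : ℕ) : ℤ) ((20 : ℕ) : ℤ) n 5 3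
    (BlkD.inB (BlkD.upd (fun _ => 0) 0 3)
      (BlkD.upd (BlkD.upd (BlkD.upd (fun _ => 20) 0 5) 2 3) 0 4)) :=
  BlkD.part_sound (d := d19_20_5_3) dk19_20_5_3 hn (by decide) (tr := t19_20_5_3_2)
    (by decide +kernel) rfl rfl rfl rfl

/-- the certificates of the part 3 of the pair `(5, 3)` -/
def t19_20_5_3_3 : BlkD.Tr :=
  .L 5 5 [4, 4, 4, 5] [] [] 100000 5556 5556 1000002 0 0 50000 33333 55556 27778 27778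

lemma n19_20_5_3_3 {n : ℕ} (hn : 6 ≤ n) : NoNd ((19 : ℕ) : ℤ) ((20 : ℕ) : ℤ) n 5 3
    (BlkD.inB (BlkD.upd (BlkD.upd (fun _ => 0) 0 3) 0 5)
      (BlkD.upd (BlkD.upd (fun _ => 20) 0 5) 2 3)) :=
  BlkD.part_sound (d := d19_20_5_3) dk19_20_5_3 hn (by decide) (tr := t19_20_5_3_3)
    (by decide +kernel) rfl rfl rfl rfl

/-- the certificates of the part 4 of the pair `(5, 3)` -/
def t19_20_5_3_4 : BlkD.Tr :=
  .E 1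

lemma n19_20_5_3_4 {n : ℕ} (hn : 6 ≤ n) : NoNd ((19 : ℕ) : ℤ) ((20 : ℕ) : ℤ) n 5 3
    (BlkD.inB (BlkD.upd (fun _ => 0) 2 4)
      (BlkD.upd (fun _ => 20) 0 5)) :=
  BlkD.part_sound (d := d19_20_5_3) dk19_20_5_3 hn (by decide) (tr := t19_20_5_3_4)
    (by decide +kernel) rfl rfl rfl rfl

/-- the certificates of the part 5 of the pair `(5, 3)` -/
def t19_20_5_3_5 : BlkD.Tr :=
  .E 0

lemma n19_20_5_3_5 {n : ℕ} (hn : 6 ≤ n) : NoNd ((19 : ℕ) : ℤ) ((20 : ℕ) : ℤ) n 5 3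
    (BlkD.inB (BlkD.upd (fun _ => 0) 0 6)
      (fun _ => 20)) :=
  BlkD.part_sound (d := d19_20_5_3) dk19_20_5_3 hn (by decide) (tr := t19_20_5_3_5)
    (by decide +kernel) rfl rfl rfl rfl

lemma pr19_20_5_3 {n : ℕ} (hn : 6 ≤ n) : NoPr ((19 : ℕ) : ℤ) ((20 : ℕ) : ℤ) n 5 3 :=
  BlkD.of_root (q := 4) (by decide) hn (BlkD.sp 0 5 (BlkD.sp 2 3 (BlkD.sp 0 2 (n19_20_5_3_1 hn)
    (BlkD.sp 0 4 (n19_20_5_3_2 hn)
    (n19_20_5_3_3 hn)))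
    (n19_20_5_3_4 hn))
    (n19_20_5_3_5 hn))

/-- the numbers of the pair `(5, 5)`, `R = 19`, `H = 20` -/
def d19_20_5_5 : BlkD.Pd :=
  ⟨19, 20, 4, 5, 5, 7, 3, 2, 2, 2, 10, 0, 2, 2, 10, 0, [0, 10, 18, 20, 22, 24, 26, 28], [0, 10, 18,
    20, 22, 24, 26, 28], [⟨1, 1, 1, 4, 8, [0, 4], [0, 4]⟩, ⟨1, 1, 1, 4, 12, [0, 6], [0, 6]⟩, ⟨1, 1,
    1, 4, 16, [0, 8], [0, 8]⟩, ⟨2, 2, 1, 4, 20, [0, 10, 10], [0, 10, 10]⟩]⟩

lemma dk19_20_5_5 : BlkD.pairOk d19_20_5_5 = true := by decide +kernel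

/-- the certificates of the part 1 of the pair `(5, 5)` -/
def t19_20_5_5_1 : BlkD.Tr :=
  .L 5 5 [4, 4, 4, 5, 19, 19] [] [] 100000 59723 59723 1075000 62500 0 75000 62500 0 0 20833

lemma n19_20_5_5_1 {n : ℕ} (hn : 6 ≤ n) : NoNd ((19 : ℕ) : ℤ) ((20 : ℕ) : ℤ) n 5 5
    (BlkD.inB (fun _ => 0)
      (BlkD.upd (BlkD.upd (BlkD.upd (BlkD.upd (fun _ => 20) 0 5) 2 5) 0 2) 0 1)) :=
  BlkD.part_sound (d := d19_20_5_5) dk19_20_5_5 hn (by decide) (tr := t19_20_5_5_1)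
    (by decide +kernel) rfl rfl rfl rfl

/-- the certificates of the part 2 of the pair `(5, 5)` -/
def t19_20_5_5_2 : BlkD.Tr :=
  .S 1 2 (.L 5 5 [4, 4, 4, 5, 19, 19] [] [] 100000 28704 28704 1130557 34722 0 34722 69444 0 13889
    38889) (.S 1 3 (.L 5 5 [4, 4, 4, 5, 19, 19] [50, 40, 30, 18, 0, 0] [] 100000 31819 31819
    1201137 32955 0 54545 44318 0 4545 43182) (.S 2 2 (.S 2 1 (.L 5 5 [4, 4, 4, 5, 19, 19] [68, 60,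
    50, 40, 28, 0] [] 100000 55557 55557 1033332 16667 66667 50000 66667 0 0 0) (.S 3 12 (.S 3 6
    (.S 3 3 (.L 5 5 [4, 4, 4, 5, 19, 19] [68, 60, 50, 40, 28, 0] [] 100000 33334 33334 1100000 0 0
    0 0 0 0 0) (.S 3 5 (.L 5 5 [4, 4, 4, 5, 19, 19] [68, 60, 50, 40, 28, 0] [] 100000 30245 30245
    1186872 18919 18919 42085 42085 4633 4633 27799) (.S 4 4 (.S 4 2 (.S 4 1 (.L 5 5 [4, 4, 4, 5,
    19, 19] [40, 28, 0, 0, 0, 0] [98, 96, 94, 86, 76, 66] 100000 18804 18804 1231283 23077 10769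
    56410 45128 23590 20000 15897) (.L 5 5 [4, 4, 4, 5, 19, 19] [50, 40, 28, 0, 0, 0] [98, 96, 94,
    86, 76, 66] 100000 28986 28986 1160871 0 13043 100000 47826 0 26087 13043)) (.L 5 5 [4, 4, 4,
    5, 19, 19] [68, 60, 50, 40, 28, 0] [98, 96, 94, 86, 76, 66] 100000 46079 22550 967649 0 20588
    123529 37059 0 12353 14118)) (.E 2)))) (.L 5 5 [4, 4, 4, 5, 19, 19] [68, 60, 50, 40, 28, 0] []
    100000 100000 0 500000 25000 0 125000 200000 0 0 0)) (.E 1))) (.S 2 4 (.S 2 3 (.S 3 11 (.S 3 5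
    (.S 3 2 (.L 5 5 [4, 4, 4, 5, 19, 19] [68, 60, 50, 40, 28, 0] [] 100000 33334 33334 1100000 0 0
    0 0 0 0 0) (.S 3 4 (.L 6 6 [4, 4, 4, 4, 19, 19] [68, 60, 50, 40, 28, 0] [] 100000 29293 29293
    1210779 17845 17845 48148 41751 6061 6061 33333) (.L 6 6 [4, 4, 4, 4, 19, 19] [68, 60, 50, 40,
    28, 0] [92, 90, 82, 72, 62, 50] 100000 24562 24562 1214034 5263 3509 84211 84211 15789 15789
    5263))) (.E 1)) (.E 1)) (.L 6 6 [4, 4, 4, 4, 19, 19] [68, 60, 50, 40, 28, 0] [] 100000 25377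
    25377 1205162 23710 0 75323 48387 10323 13548 21613)) (.L 6 6 [4, 4, 4, 4, 19, 19] [68, 60, 50,
    40, 28, 0] [] 100000 12382 12382 1214287 28571 0 42857 28571 5714 57143 28571))))

lemma n19_20_5_5_2 {n : ℕ} (hn : 6 ≤ n) : NoNd ((19 : ℕ) : ℤ) ((20 : ℕ) : ℤ) n 5 5
    (BlkD.inB (BlkD.upd (fun _ => 0) 0 2)
      (BlkD.upd (BlkD.upd (BlkD.upd (BlkD.upd (BlkD.upd (BlkD.upd (fun _ => 20) 0 5) 2 5) 0 2) 1 18) 1 9) 1 4)) :=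
  BlkD.part_sound (d := d19_20_5_5) dk19_20_5_5 hn (by decide) (tr := t19_20_5_5_2)
    (by decide +kernel) rfl rfl rfl rfl

/-- the certificates of the part 3 of the pair `(5, 5)` -/
def t19_20_5_5_3 : BlkD.Tr :=
  .S 2 2 (.S 2 1 (.L 6 6 [4, 4, 4, 4, 19, 19] [82, 80, 72, 62, 52, 40] [] 100000 100000 100000
    900000 0 100000 100000 100000 0 0 0) (.S 3 11 (.S 3 5 (.S 3 2 (.L 6 6 [4, 4, 4, 4, 19, 19] [82,
    80, 72, 62, 52, 40] [] 100000 33334 33334 1100000 0 0 0 0 0 0 0) (.S 3 4 (.L 6 6 [4, 4, 4, 4,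
    19, 19] [82, 80, 72, 62, 52, 40] [] 100000 33334 33334 1166668 22222 22222 44444 44444 0 0
    16667) (.S 4 5 (.S 4 2 (.L 6 6 [4, 4, 4, 4, 19, 19] [62, 52, 40, 0, 0, 0] [82, 80, 72, 62, 52,
    40] 100000 21788 21788 1223797 16566 22892 41265 56024 24699 9940 17470) (.L 6 6 [4, 4, 4, 4,
    19, 19] [82, 80, 72, 62, 52, 40] [82, 80, 72, 62, 52, 40] 100000 33334 33334 1100000 0 0 100000
    100000 0 0 0)) (.E 2)))) (.L 6 6 [4, 4, 4, 4, 19, 19] [82, 80, 72, 62, 52, 40] [] 100000 15329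
    15329 1239053 20073 0 80292 40146 24088 44891 14964)) (.E 1))) (.S 2 4 (.S 2 3 (.S 3 10 (.S 3 5
    (.S 3 2 (.L 6 6 [4, 4, 4, 4, 19, 19] [82, 80, 72, 62, 52, 40] [] 100000 33031 33031 1137273
    31818 15455 47273 36364 0 909 20909) (.S 3 4 (.S 3 3 (.L 6 6 [4, 4, 4, 4, 19, 19] [82, 80, 72,
    62, 52, 40] [56, 46, 36, 24, 0, 0] 100000 29290 29290 1200001 20000 20000 47213 52787 5574 6557
    23607) (.S 4 5 (.S 4 2 (.L 6 6 [4, 4, 4, 4, 19, 19] [62, 52, 40, 0, 0, 0] [76, 68, 58, 48, 36,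
    0] 100000 13375 13375 1250003 15432 15432 48148 57407 34568 25309 17284) (.L 6 6 [4, 4, 4, 4,
    19, 19] [82, 80, 72, 62, 52, 40] [76, 68, 58, 48, 36, 0] 100000 33334 33334 1100000 0 0 100000
    100000 0 0 0)) (.E 2))) (.L 6 6 [4, 4, 4, 4, 19, 19] [82, 80, 72, 62, 52, 40] [92, 90, 82, 72,
    62, 50] 100000 33334 33334 1100000 0 0 100000 100000 0 0 0))) (.E 1)) (.E 1)) (.L 6 6 [4, 4, 4,
    4, 19, 19] [82, 80, 72, 62, 52, 40] [] 100000 26990 26990 1208806 30398 0 55398 50000 6818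
    12216 20597)) (.L 6 6 [4, 4, 4, 4, 19, 19] [82, 80, 72, 62, 52, 40] [] 100000 16602 16602
    1189496 27626 0 73346 36187 18288 47860 15953))

lemma n19_20_5_5_3 {n : ℕ} (hn : 6 ≤ n) : NoNd ((19 : ℕ) : ℤ) ((20 : ℕ) : ℤ) n 5 5
    (BlkD.inB (BlkD.upd (BlkD.upd (fun _ => 0) 0 2) 1 5)
      (BlkD.upd (BlkD.upd (BlkD.upd (BlkD.upd (BlkD.upd (BlkD.upd (BlkD.upd (BlkD.upd (fun _ => 20) 0 5) 2 5) 0 2) 1 18) 1 9) 1 7) 1 6) 1 5)) :=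
  BlkD.part_sound (d := d19_20_5_5) dk19_20_5_5 hn (by decide) (tr := t19_20_5_5_3)
    (by decide +kernel) rfl rfl rfl rfl

/-- the certificates of the part 4 of the pair `(5, 5)` -/
def t19_20_5_5_4 : BlkD.Tr :=
  .S 2 2 (.S 2 1 (.L 6 6 [4, 4, 4, 4, 19, 19] [98, 96, 94, 86, 76, 66] [] 100000 51515 51515
    1045457 13636 63636 50000 72727 9091 0 0) (.S 3 10 (.S 3 5 (.S 3 2 (.L 6 6 [4, 4, 4, 4, 19, 19]
    [98, 96, 94, 86, 76, 66] [] 100000 33334 33334 1100001 33333 16667 50000 33333 0 0 11111) (.S 3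
    4 (.L 5 5 [4, 4, 4, 5, 19, 19] [98, 96, 94, 86, 76, 66] [] 100000 45283 45283 1162267 26415
    26415 52830 52830 13208 0 9434) (.L 5 5 [4, 4, 4, 5, 19, 19] [98, 96, 94, 86, 76, 66] [82, 80,
    72, 62, 52, 40] 100000 60000 60000 1100000 0 40000 80000 100000 20000 0 0))) (.L 5 5 [4, 4, 4,
    5, 19, 19] [98, 96, 94, 86, 76, 66] [] 100000 125000 0 0 0 0 225000 175000 0 0 0)) (.E 1))) (.S
    2 4 (.S 2 3 (.S 3 9 (.S 3 4 (.S 3 2 (.L 5 5 [4, 4, 4, 5, 19, 19] [98, 96, 94, 86, 76, 66] []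
    100000 29463 29463 1169842 30161 19839 50323 38548 10161 1452 20161) (.S 3 3 (.S 4 6 (.S 4 3
    (.L 5 5 [4, 4, 4, 5, 19, 19] [86, 76, 66, 54, 0, 0] [56, 46, 36, 24, 0, 0] 100000 13794 13794
    1236207 25862 6897 39655 58621 48276 10345 24138) (.L 5 5 [4, 4, 4, 5, 19, 19] [98, 96, 94, 86,
    76, 66] [56, 46, 36, 24, 0, 0] 100000 35417 29167 1068750 6250 0 106250 56250 0 0 12500)) (.E
    2)) (.L 5 5 [4, 4, 4, 5, 19, 19] [98, 96, 94, 86, 76, 66] [76, 68, 58, 48, 36, 0] 100000 33334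
    33334 1100000 0 0 100000 100000 0 0 0))) (.E 2)) (.E 1)) (.L 5 5 [4, 4, 4, 5, 19, 19] [98, 96,
    94, 86, 76, 66] [] 100000 25279 25279 1206851 26389 0 52778 61204 16296 7870 18889)) (.L 5 5
    [4, 4, 4, 5, 19, 19] [98, 96, 94, 86, 76, 66] [] 100000 9524 9524 1171429 28571 0 71429 0 14286
    57143 28571))

lemma n19_20_5_5_4 {n : ℕ} (hn : 6 ≤ n) : NoNd ((19 : ℕ) : ℤ) ((20 : ℕ) : ℤ) n 5 5
    (BlkD.inB (BlkD.upd (BlkD.upd (BlkD.upd (fun _ => 0) 0 2) 1 5) 1 6)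
      (BlkD.upd (BlkD.upd (BlkD.upd (BlkD.upd (BlkD.upd (BlkD.upd (BlkD.upd (fun _ => 20) 0 5) 2 5) 0 2) 1 18) 1 9) 1 7) 1 6)) :=
  BlkD.part_sound (d := d19_20_5_5) dk19_20_5_5 hn (by decide) (tr := t19_20_5_5_4)
    (by decide +kernel) rfl rfl rfl rfl

/-- the certificates of the part 5 of the pair `(5, 5)` -/
def t19_20_5_5_5 : BlkD.Tr :=
  .L 5 5 [4, 4, 4, 5, 19, 19] [116, 114, 112, 110, 102, 92] [] 100000 69231 0 715384 3846 3846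
    169231 92308 0 0 0

lemma n19_20_5_5_5 {n : ℕ} (hn : 6 ≤ n) : NoNd ((19 : ℕ) : ℤ) ((20 : ℕ) : ℤ) n 5 5
    (BlkD.inB (BlkD.upd (BlkD.upd (BlkD.upd (fun _ => 0) 0 2) 1 5) 1 7)
      (BlkD.upd (BlkD.upd (BlkD.upd (BlkD.upd (BlkD.upd (BlkD.upd (fun _ => 20) 0 5) 2 5) 0 2) 1 18) 1 9) 1 7)) :=
  BlkD.part_sound (d := d19_20_5_5) dk19_20_5_5 hn (by decide) (tr := t19_20_5_5_5)
    (by decide +kernel) rfl rfl rfl rfl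

/-- the certificates of the part 6 of the pair `(5, 5)` -/
def t19_20_5_5_6 : BlkD.Tr :=
  .E 0

lemma n19_20_5_5_6 {n : ℕ} (hn : 6 ≤ n) : NoNd ((19 : ℕ) : ℤ) ((20 : ℕ) : ℤ) n 5 5
    (BlkD.inB (BlkD.upd (BlkD.upd (BlkD.upd (fun _ => 0) 0 2) 1 5) 1 8)
      (BlkD.upd (BlkD.upd (BlkD.upd (BlkD.upd (BlkD.upd (fun _ => 20) 0 5) 2 5) 0 2) 1 18) 1 9)) :=
  BlkD.part_sound (d := d19_20_5_5) dk19_20_5_5 hn (by decide) (tr := t19_20_5_5_6)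
    (by decide +kernel) rfl rfl rfl rfl

/-- the certificates of the part 7 of the pair `(5, 5)` -/
def t19_20_5_5_7 : BlkD.Tr :=
  .E 0

lemma n19_20_5_5_7 {n : ℕ} (hn : 6 ≤ n) : NoNd ((19 : ℕ) : ℤ) ((20 : ℕ) : ℤ) n 5 5
    (BlkD.inB (BlkD.upd (BlkD.upd (fun _ => 0) 0 2) 1 10)
      (BlkD.upd (BlkD.upd (BlkD.upd (BlkD.upd (fun _ => 20) 0 5) 2 5) 0 2) 1 18)) :=
  BlkD.part_sound (d := d19_20_5_5) dk19_20_5_5 hn (by decide) (tr := t19_20_5_5_7)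
    (by decide +kernel) rfl rfl rfl rfl

/-- the certificates of the part 8 of the pair `(5, 5)` -/
def t19_20_5_5_8 : BlkD.Tr :=
  .E 0

lemma n19_20_5_5_8 {n : ℕ} (hn : 6 ≤ n) : NoNd ((19 : ℕ) : ℤ) ((20 : ℕ) : ℤ) n 5 5
    (BlkD.inB (BlkD.upd (BlkD.upd (fun _ => 0) 0 2) 1 19)
      (BlkD.upd (BlkD.upd (BlkD.upd (fun _ => 20) 0 5) 2 5) 0 2)) :=
  BlkD.part_sound (d := d19_20_5_5) dk19_20_5_5 hn (by decide) (tr := t19_20_5_5_8)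
    (by decide +kernel) rfl rfl rfl rfl

/-- the certificates of the part 9 of the pair `(5, 5)` -/
def t19_20_5_5_9 : BlkD.Tr :=
  .S 1 1 (.L 5 5 [4, 4, 4, 5, 19, 19] [] [] 100000 28704 28704 1130557 69444 0 69444 69444 0 13889
    38889) (.S 2 2 (.L 5 5 [4, 4, 4, 5, 19, 19] [36, 26, 14, 0, 0, 0] [] 100000 29931 29931 1189666
    22067 22067 39136 41550 2414 7793 29818) (.L 5 5 [4, 4, 4, 5, 19, 19] [36, 26, 14, 0, 0, 0] []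
    100000 24554 24554 1208603 6452 3226 74194 78495 11290 15054 7527))

lemma n19_20_5_5_9 {n : ℕ} (hn : 6 ≤ n) : NoNd ((19 : ℕ) : ℤ) ((20 : ℕ) : ℤ) n 5 5
    (BlkD.inB (BlkD.upd (fun _ => 0) 0 3)
      (BlkD.upd (BlkD.upd (BlkD.upd (BlkD.upd (BlkD.upd (BlkD.upd (BlkD.upd (BlkD.upd (fun _ => 20) 0 5) 2 5) 0 4) 0 3) 1 17) 1 8) 1 4) 1 2)) :=
  BlkD.part_sound (d := d19_20_5_5) dk19_20_5_5 hn (by decide) (tr := t19_20_5_5_9)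
    (by decide +kernel) rfl rfl rfl rfl

/-- the certificates of the part 10 of the pair `(5, 5)` -/
def t19_20_5_5_10 : BlkD.Tr :=
  .S 2 2 (.S 2 1 (.L 5 5 [4, 4, 4, 5, 19, 19] [56, 46, 36, 24, 0, 0] [] 100000 54667 54667 1016000
    8000 64000 68000 76000 0 0 0) (.S 3 12 (.S 3 6 (.S 3 3 (.L 5 5 [4, 4, 4, 5, 19, 19] [56, 46,
    36, 24, 0, 0] [] 100000 33334 33334 1100000 0 0 0 0 0 0 0) (.S 3 5 (.L 5 5 [4, 4, 4, 5, 19, 19]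
    [56, 46, 36, 24, 0, 0] [] 100000 33182 33182 1189547 9318 27500 37955 46136 455 0 29091) (.L 5
    5 [4, 4, 4, 5, 19, 19] [56, 46, 36, 24, 0, 0] [98, 96, 94, 86, 76, 66] 100000 30400 30400
    1208000 0 32000 64000 64000 12800 16000 8000))) (.L 5 5 [4, 4, 4, 5, 19, 19] [56, 46, 36, 24,
    0, 0] [] 100000 171429 0 0 0 0 207143 271429 0 0 0)) (.E 1))) (.S 2 4 (.S 2 3 (.S 3 11 (.S 3 5
    (.S 3 2 (.L 5 5 [4, 4, 4, 5, 19, 19] [56, 46, 36, 24, 0, 0] [] 100000 33334 33334 1100000 0 0 0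
    0 0 0 0) (.S 3 4 (.S 3 3 (.L 5 5 [4, 4, 4, 5, 19, 19] [56, 46, 36, 24, 0, 0] [56, 46, 36, 24,
    0, 0] 100000 33334 33334 1166667 16667 16667 33333 33333 0 0 16667) (.S 4 3 (.S 4 1 (.L 5 5 [4,
    4, 4, 5, 19, 19] [36, 24, 0, 0, 0, 0] [76, 68, 58, 48, 36, 0] 100000 8520 8520 1242221 7778
    16667 25556 70741 45185 29259 27407) (.L 5 5 [4, 4, 4, 5, 19, 19] [56, 46, 36, 24, 0, 0] [76,
    68, 58, 48, 36, 0] 100000 33334 33334 1100000 0 0 100000 100000 0 0 0)) (.E 2))) (.L 5 5 [4, 4,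
    4, 5, 19, 19] [56, 46, 36, 24, 0, 0] [92, 90, 82, 72, 62, 50] 100000 25253 25253 1206062 0 3030
    78788 93939 12121 12121 6061))) (.E 1)) (.E 1)) (.L 5 5 [4, 4, 4, 5, 19, 19] [56, 46, 36, 24,
    0, 0] [] 100000 24431 24431 1223602 25466 0 76398 50932 10559 16149 27329)) (.L 5 5 [4, 4, 4,
    5, 19, 19] [56, 46, 36, 24, 0, 0] [] 100000 15556 15556 1177779 25926 0 70370 44444 8889 44444
    22222))

lemma n19_20_5_5_10 {n : ℕ} (hn : 6 ≤ n) : NoNd ((19 : ℕ) : ℤ) ((20 : ℕ) : ℤ) n 5 5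
    (BlkD.inB (BlkD.upd (BlkD.upd (fun _ => 0) 0 3) 1 3)
      (BlkD.upd (BlkD.upd (BlkD.upd (BlkD.upd (BlkD.upd (BlkD.upd (BlkD.upd (BlkD.upd (fun _ => 20) 0 5) 2 5) 0 4) 0 3) 1 17) 1 8) 1 4) 1 3)) :=
  BlkD.part_sound (d := d19_20_5_5) dk19_20_5_5 hn (by decide) (tr := t19_20_5_5_10)
    (by decide +kernel) rfl rfl rfl rfl

/-- the certificates of the part 11 of the pair `(5, 5)` -/
def t19_20_5_5_11 : BlkD.Tr :=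
  .S 2 2 (.S 2 1 (.L 5 5 [4, 4, 4, 5, 19, 19] [76, 68, 58, 48, 36, 0] [] 100000 62500 62500 1012500
    0 87500 37500 87500 0 0 0) (.S 3 11 (.S 3 5 (.S 3 2 (.L 5 5 [4, 4, 4, 5, 19, 19] [76, 68, 58,
    48, 36, 0] [] 100000 33334 33334 1100000 0 0 0 0 0 0 0) (.S 3 4 (.L 5 5 [4, 4, 4, 5, 19, 19]
    [76, 68, 58, 48, 36, 0] [] 100000 32001 32001 1200002 20000 20000 41333 34667 2667 1333 34667)
    (.S 4 4 (.S 4 2 (.L 2 2 [6, 8, 9, 11, 19, 19] [58, 48, 36, 0, 0, 0] [82, 80, 72, 62, 52, 40]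
    100000 59524 59524 1114287 0 47619 47619 95238 45238 9524 3571) (.L 2 2 [6, 8, 9, 11, 19, 19]
    [76, 68, 58, 48, 36, 0] [82, 80, 72, 62, 52, 40] 100000 33334 33334 1100000 0 0 100000 100000 0
    0 0)) (.E 2)))) (.L 2 2 [6, 8, 9, 11, 19, 19] [76, 68, 58, 48, 36, 0] [] 100000 41667 41667
    1075000 0 12500 100000 75000 0 0 0)) (.E 1))) (.S 2 4 (.S 2 3 (.S 3 10 (.S 3 5 (.S 3 2 (.L 2 2
    [6, 8, 9, 11, 19, 19] [76, 68, 58, 48, 36, 0] [] 100000 23810 23810 1214288 0 0 85714 85714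
    14286 14286 7143) (.S 3 4 (.S 3 3 (.S 4 4 (.S 4 2 (.L 5 5 [4, 4, 4, 5, 19, 19] [58, 48, 36, 0,
    0, 0] [56, 46, 36, 24, 0, 0] 100000 20264 20264 1227726 20302 11369 49536 59861 29234 9977
    24246) (.L 5 5 [4, 4, 4, 5, 19, 19] [76, 68, 58, 48, 36, 0] [56, 46, 36, 24, 0, 0] 100000 33334
    33334 1100000 0 0 100000 50000 0 0 0)) (.E 2)) (.L 5 5 [4, 4, 4, 5, 19, 19] [76, 68, 58, 48,
    36, 0] [76, 68, 58, 48, 36, 0] 100000 14816 14816 1238888 5556 5556 72222 72222 33333 33333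
    11111)) (.L 5 5 [4, 4, 4, 5, 19, 19] [76, 68, 58, 48, 36, 0] [92, 90, 82, 72, 62, 50] 100000
    50000 0 850000 0 0 150000 100000 0 0 0))) (.E 1)) (.E 1)) (.L 5 5 [4, 4, 4, 5, 19, 19] [76, 68,
    58, 48, 36, 0] [] 100000 23527 23527 1213607 6803 0 86395 79592 16667 12755 8333)) (.L 5 5 [4,
    4, 4, 5, 19, 19] [76, 68, 58, 48, 36, 0] [] 100000 10667 10667 1184000 20000 0 76000 40000
    28000 44000 20000))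

lemma n19_20_5_5_11 {n : ℕ} (hn : 6 ≤ n) : NoNd ((19 : ℕ) : ℤ) ((20 : ℕ) : ℤ) n 5 5
    (BlkD.inB (BlkD.upd (BlkD.upd (BlkD.upd (fun _ => 0) 0 3) 1 3) 1 4)
      (BlkD.upd (BlkD.upd (BlkD.upd (BlkD.upd (BlkD.upd (BlkD.upd (BlkD.upd (fun _ => 20) 0 5) 2 5) 0 4) 0 3) 1 17) 1 8) 1 4)) :=
  BlkD.part_sound (d := d19_20_5_5) dk19_20_5_5 hn (by decide) (tr := t19_20_5_5_11)
    (by decide +kernel) rfl rfl rfl rfl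

/-- the certificates of the part 12 of the pair `(5, 5)` -/
def t19_20_5_5_12 : BlkD.Tr :=
  .S 1 6 (.S 1 5 (.S 2 2 (.S 2 1 (.L 5 5 [4, 4, 4, 5, 19, 19] [92, 90, 82, 72, 62, 50] [] 100000
    66667 66667 1000000 0 100000 0 100000 0 0 0) (.S 3 10 (.S 3 5 (.S 3 2 (.L 5 5 [4, 4, 4, 5, 19,
    19] [92, 90, 82, 72, 62, 50] [] 100000 33334 33334 1100000 0 0 100000 0 0 0 0) (.S 3 4 (.L 5 5
    [4, 4, 4, 5, 19, 19] [92, 90, 82, 72, 62, 50] [] 100000 25094 25094 1215730 0 18352 73783 55431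
    20974 3745 10487) (.L 5 5 [4, 4, 4, 5, 19, 19] [92, 90, 82, 72, 62, 50] [82, 80, 72, 62, 52,
    40] 100000 33334 33334 1100000 0 0 100000 100000 0 0 0))) (.E 2)) (.E 1))) (.L 5 5 [4, 4, 4, 5,
    19, 19] [92, 90, 82, 72, 62, 50] [] 100000 25253 25253 1206062 3030 0 93939 78788 12121 12121
    6061)) (.E 0)) (.E 0)

lemma n19_20_5_5_12 {n : ℕ} (hn : 6 ≤ n) : NoNd ((19 : ℕ) : ℤ) ((20 : ℕ) : ℤ) n 5 5
    (BlkD.inB (BlkD.upd (BlkD.upd (fun _ => 0) 0 3) 1 5)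
      (BlkD.upd (BlkD.upd (BlkD.upd (BlkD.upd (BlkD.upd (BlkD.upd (fun _ => 20) 0 5) 2 5) 0 4) 0 3) 1 17) 1 8)) :=
  BlkD.part_sound (d := d19_20_5_5) dk19_20_5_5 hn (by decide) (tr := t19_20_5_5_12)
    (by decide +kernel) rfl rfl rfl rfl

/-- the certificates of the part 13 of the pair `(5, 5)` -/
def t19_20_5_5_13 : BlkD.Tr :=
  .E 0

lemma n19_20_5_5_13 {n : ℕ} (hn : 6 ≤ n) : NoNd ((19 : ℕ) : ℤ) ((20 : ℕ) : ℤ) n 5 5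
    (BlkD.inB (BlkD.upd (BlkD.upd (fun _ => 0) 0 3) 1 9)
      (BlkD.upd (BlkD.upd (BlkD.upd (BlkD.upd (BlkD.upd (fun _ => 20) 0 5) 2 5) 0 4) 0 3) 1 17)) :=
  BlkD.part_sound (d := d19_20_5_5) dk19_20_5_5 hn (by decide) (tr := t19_20_5_5_13)
    (by decide +kernel) rfl rfl rfl rfl

/-- the certificates of the part 14 of the pair `(5, 5)` -/
def t19_20_5_5_14 : BlkD.Tr :=
  .E 0

lemma n19_20_5_5_14 {n : ℕ} (hn : 6 ≤ n) : NoNd ((19 : ℕ) : ℤ) ((20 : ℕ) : ℤ) n 5 5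
    (BlkD.inB (BlkD.upd (BlkD.upd (fun _ => 0) 0 3) 1 18)
      (BlkD.upd (BlkD.upd (BlkD.upd (BlkD.upd (fun _ => 20) 0 5) 2 5) 0 4) 0 3)) :=
  BlkD.part_sound (d := d19_20_5_5) dk19_20_5_5 hn (by decide) (tr := t19_20_5_5_14)
    (by decide +kernel) rfl rfl rfl rfl

/-- the certificates of the part 15 of the pair `(5, 5)` -/
def t19_20_5_5_15 : BlkD.Tr :=
  .S 1 16 (.S 1 8 (.S 1 4 (.S 1 2 (.S 1 1 (.S 1 0 (.L 5 5 [4, 4, 4, 5, 19, 19] [0, 0, 0, 0, 0, 0]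
    [] 100000 29839 29839 1165037 0 17483 0 34965 0 10490 22378) (.S 2 2 (.L 5 5 [4, 4, 4, 5, 19,
    19] [20, 8, 0, 0, 0, 0] [] 100000 30509 30509 1177121 24576 24576 49153 49153 0 8475 22881) (.L
    5 5 [4, 4, 4, 5, 19, 19] [20, 8, 0, 0, 0, 0] [] 100000 25214 25214 1207695 3846 3846 61538
    84615 8974 15385 7692))) (.L 5 5 [4, 4, 4, 5, 19, 19] [40, 30, 18, 0, 0, 0] [] 100000 14286
    14286 1250001 25000 0 75000 50000 50000 7143 25000)) (.S 1 3 (.S 2 2 (.L 5 5 [4, 4, 4, 5, 19,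
    19] [62, 52, 42, 30, 0, 0] [] 100000 26374 26374 1211542 0 26923 53846 53846 19231 5495 7692)
    (.S 2 4 (.S 2 3 (.S 3 10 (.S 3 5 (.L 5 5 [4, 4, 4, 5, 19, 19] [62, 52, 42, 30, 0, 0] [] 100000
    13334 13334 1248149 3704 14815 40741 66667 44444 15556 22222) (.E 1)) (.E 1)) (.L 5 5 [4, 4, 4,
    5, 19, 19] [62, 52, 42, 30, 0, 0] [] 100000 9260 9260 1244446 22222 0 55556 55556 55556 16667
    27778)) (.L 5 5 [4, 4, 4, 5, 19, 19] [62, 52, 42, 30, 0, 0] [] 100000 0 0 1200000 25000 0 50000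
    50000 50000 50000 25000))) (.S 2 2 (.L 5 5 [4, 4, 4, 5, 19, 19] [84, 76, 66, 56, 44, 0] []
    100000 20198 20198 1225123 0 29064 29064 58621 35468 5911 16749) (.L 5 5 [4, 4, 4, 5, 19, 19]
    [84, 76, 66, 56, 44, 0] [] 100000 16667 16667 1225000 0 0 75000 50000 50000 0 25000)))) (.E 0))
    (.E 0)) (.E 0)

lemma n19_20_5_5_15 {n : ℕ} (hn : 6 ≤ n) : NoNd ((19 : ℕ) : ℤ) ((20 : ℕ) : ℤ) n 5 5
    (BlkD.inB (BlkD.upd (BlkD.upd (fun _ => 0) 0 3) 0 4)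
      (BlkD.upd (BlkD.upd (BlkD.upd (fun _ => 20) 0 5) 2 5) 0 4)) :=
  BlkD.part_sound (d := d19_20_5_5) dk19_20_5_5 hn (by decide) (tr := t19_20_5_5_15)
    (by decide +kernel) rfl rfl rfl rfl

/-- the certificates of the part 16 of the pair `(5, 5)` -/
def t19_20_5_5_16 : BlkD.Tr :=
  .S 1 15 (.S 1 7 (.S 1 3 (.S 1 1 (.L 5 5 [4, 4, 4, 5, 19, 19] [] [] 100000 10110 10110 1232789
    22131 9016 40164 50000 59836 9836 29918) (.L 5 5 [4, 4, 4, 5, 19, 19] [] [] 100000 11112 11112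
    1258334 0 0 70833 41667 58333 8333 29167)) (.E 0)) (.E 0)) (.E 0)

lemma n19_20_5_5_16 {n : ℕ} (hn : 6 ≤ n) : NoNd ((19 : ℕ) : ℤ) ((20 : ℕ) : ℤ) n 5 5
    (BlkD.inB (BlkD.upd (BlkD.upd (fun _ => 0) 0 3) 0 5)
      (BlkD.upd (BlkD.upd (fun _ => 20) 0 5) 2 5)) :=
  BlkD.part_sound (d := d19_20_5_5) dk19_20_5_5 hn (by decide) (tr := t19_20_5_5_16)
    (by decide +kernel) rfl rfl rfl rfl

/-- the certificates of the part 17 of the pair `(5, 5)` -/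
def t19_20_5_5_17 : BlkD.Tr :=
  .E 1

lemma n19_20_5_5_17 {n : ℕ} (hn : 6 ≤ n) : NoNd ((19 : ℕ) : ℤ) ((20 : ℕ) : ℤ) n 5 5
    (BlkD.inB (BlkD.upd (fun _ => 0) 2 6)
      (BlkD.upd (fun _ => 20) 0 5)) :=
  BlkD.part_sound (d := d19_20_5_5) dk19_20_5_5 hn (by decide) (tr := t19_20_5_5_17)
    (by decide +kernel) rfl rfl rfl rfl

/-- the certificates of the part 18 of the pair `(5, 5)` -/
def t19_20_5_5_18 : BlkD.Tr :=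
  .E 0

lemma n19_20_5_5_18 {n : ℕ} (hn : 6 ≤ n) : NoNd ((19 : ℕ) : ℤ) ((20 : ℕ) : ℤ) n 5 5
    (BlkD.inB (BlkD.upd (fun _ => 0) 0 6)
      (fun _ => 20)) :=
  BlkD.part_sound (d := d19_20_5_5) dk19_20_5_5 hn (by decide) (tr := t19_20_5_5_18)
    (by decide +kernel) rfl rfl rfl rfl

lemma pr19_20_5_5 {n : ℕ} (hn : 6 ≤ n) : NoPr ((19 : ℕ) : ℤ) ((20 : ℕ) : ℤ) n 5 5 :=
  BlkD.of_root (q := 4) (by decide) hn (BlkD.sp 0 5 (BlkD.sp 2 5 (BlkD.sp 0 2 (BlkD.sp 0 1 (n19_20_5_5_1 hn)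
    (BlkD.sp 1 18 (BlkD.sp 1 9 (BlkD.sp 1 4 (n19_20_5_5_2 hn)
    (BlkD.sp 1 7 (BlkD.sp 1 6 (BlkD.sp 1 5 (n19_20_5_5_3 hn)
    (n19_20_5_5_4 hn))
    (n19_20_5_5_5 hn))
    (n19_20_5_5_6 hn)))
    (n19_20_5_5_7 hn))
    (n19_20_5_5_8 hn)))
    (BlkD.sp 0 4 (BlkD.sp 0 3 (BlkD.sp 1 17 (BlkD.sp 1 8 (BlkD.sp 1 4 (BlkD.sp 1 2 (n19_20_5_5_9 hn)
    (BlkD.sp 1 3 (n19_20_5_5_10 hn)
    (n19_20_5_5_11 hn)))
    (n19_20_5_5_12 hn))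
    (n19_20_5_5_13 hn))
    (n19_20_5_5_14 hn))
    (n19_20_5_5_15 hn))
    (n19_20_5_5_16 hn)))
    (n19_20_5_5_17 hn))
    (n19_20_5_5_18 hn))

/-- the numbers of the pair `(6, 0)`, `R = 19`, `H = 20` -/
def d19_20_6_0 : BlkD.Pd :=
  ⟨19, 20, 4, 6, 0, 11, 0, 1, 0, 4, 4, 0, 0, 4, 4, 0, [0, 4, 8, 12, 16, 20, 24, 28, 32, 36, 40,
    44], [0, 4, 8, 12, 16, 20, 24, 28, 32, 36, 40, 44], [⟨1, 1, 1, 4, 8, [0, 4], [0, 4]⟩]⟩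

lemma dk19_20_6_0 : BlkD.pairOk d19_20_6_0 = true := by decide +kernel

/-- the certificates of the part 1 of the pair `(6, 0)` -/
def t19_20_6_0_1 : BlkD.Tr :=
  .S 0 6 (.S 2 0 (.L 3 3 [4] [] [] 100000 0 0 750000 50000 0 50000 0 0 0 0) (.E 1)) (.E 0)

lemma n19_20_6_0_1 {n : ℕ} (hn : 6 ≤ n) : NoNd ((19 : ℕ) : ℤ) ((20 : ℕ) : ℤ) n 6 0
    (BlkD.inB (fun _ => 0)
      (fun _ => 20)) :=
  BlkD.part_sound (d := d19_20_6_0) dk19_20_6_0 hn (by decide) (tr := t19_20_6_0_1)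
    (by decide +kernel) rfl rfl rfl rfl

lemma pr19_20_6_0 {n : ℕ} (hn : 6 ≤ n) : NoPr ((19 : ℕ) : ℤ) ((20 : ℕ) : ℤ) n 6 0 :=
  BlkD.of_root (q := 4) (by decide) hn (n19_20_6_0_1 hn)

/-- the numbers of the pair `(6, 1)`, `R = 19`, `H = 20` -/
def d19_20_6_1 : BlkD.Pd :=
  ⟨19, 20, 4, 6, 1, 10, 1, 1, 2, 2, 6, 0, 0, 4, 4, 0, [0, 6, 12, 18, 24, 30, 32, 34, 36, 38, 40],
    [0, 4, 8, 12, 16, 20, 24, 28, 32, 36, 40], [⟨1, 1, 1, 4, 8, [0, 4], [0, 4]⟩, ⟨1, 1, 1, 4, 10,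
    [0, 6], [0, 4]⟩]⟩

lemma dk19_20_6_1 : BlkD.pairOk d19_20_6_1 = true := by decide +kernel

/-- the certificates of the part 1 of the pair `(6, 1)` -/
def t19_20_6_1_1 : BlkD.Tr :=
  .S 0 6 (.S 2 1 (.L 4 5 [4, 4] [] [] 100000 0 0 866668 33333 0 66667 0 0 0 0) (.E 1)) (.E 0)

lemma n19_20_6_1_1 {n : ℕ} (hn : 6 ≤ n) : NoNd ((19 : ℕ) : ℤ) ((20 : ℕ) : ℤ) n 6 1
    (BlkD.inB (fun _ => 0)
      (fun _ => 20)) :=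
  BlkD.part_sound (d := d19_20_6_1) dk19_20_6_1 hn (by decide) (tr := t19_20_6_1_1)
    (by decide +kernel) rfl rfl rfl rfl

lemma pr19_20_6_1 {n : ℕ} (hn : 6 ≤ n) : NoPr ((19 : ℕ) : ℤ) ((20 : ℕ) : ℤ) n 6 1 :=
  BlkD.of_root (q := 4) (by decide) hn (n19_20_6_1_1 hn)

/-- the numbers of the pair `(6, 2)`, `R = 19`, `H = 20` -/
def d19_20_6_2 : BlkD.Pd :=
  ⟨19, 20, 4, 6, 2, 9, 2, 1, 2, 2, 8, 0, 0, 4, 6, 0, [0, 8, 16, 24, 26, 28, 30, 32, 34, 36], [0, 6,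
    12, 18, 24, 30, 36, 36, 36, 36], [⟨1, 1, 1, 4, 8, [0, 4], [0, 4]⟩, ⟨1, 1, 1, 4, 10, [0, 6], [0,
    4]⟩, ⟨1, 1, 1, 6, 14, [0, 8], [0, 6]⟩]⟩

lemma dk19_20_6_2 : BlkD.pairOk d19_20_6_2 = true := by decide +kernel

/-- the certificates of the part 1 of the pair `(6, 2)` -/
def t19_20_6_2_1 : BlkD.Tr :=
  .L 4 6 [4, 4, 4] [] [] 100000 1 1 1056044 10989 0 78022 30037 9890 30037 30037

lemma n19_20_6_2_1 {n : ℕ} (hn : 6 ≤ n) : NoNd ((19 : ℕ) : ℤ) ((20 : ℕ) : ℤ) n 6 2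
    (BlkD.inB (fun _ => 0)
      (BlkD.upd (BlkD.upd (BlkD.upd (fun _ => 20) 0 6) 2 2) 0 3)) :=
  BlkD.part_sound (d := d19_20_6_2) dk19_20_6_2 hn (by decide) (tr := t19_20_6_2_1)
    (by decide +kernel) rfl rfl rfl rfl

/-- the certificates of the part 2 of the pair `(6, 2)` -/
def t19_20_6_2_2 : BlkD.Tr :=
  .L 4 6 [4, 4, 4] [] [] 100000 1 1 1056044 10989 0 78022 30037 9890 30037 30037

lemma n19_20_6_2_2 {n : ℕ} (hn : 6 ≤ n) : NoNd ((19 : ℕ) : ℤ) ((20 : ℕ) : ℤ) n 6 2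
    (BlkD.inB (BlkD.upd (fun _ => 0) 0 4)
      (BlkD.upd (BlkD.upd (fun _ => 20) 0 6) 2 2)) :=
  BlkD.part_sound (d := d19_20_6_2) dk19_20_6_2 hn (by decide) (tr := t19_20_6_2_2)
    (by decide +kernel) rfl rfl rfl rfl

/-- the certificates of the part 3 of the pair `(6, 2)` -/
def t19_20_6_2_3 : BlkD.Tr :=
  .E 1

lemma n19_20_6_2_3 {n : ℕ} (hn : 6 ≤ n) : NoNd ((19 : ℕ) : ℤ) ((20 : ℕ) : ℤ) n 6 2
    (BlkD.inB (BlkD.upd (fun _ => 0) 2 3)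
      (BlkD.upd (fun _ => 20) 0 6)) :=
  BlkD.part_sound (d := d19_20_6_2) dk19_20_6_2 hn (by decide) (tr := t19_20_6_2_3)
    (by decide +kernel) rfl rfl rfl rfl

/-- the certificates of the part 4 of the pair `(6, 2)` -/
def t19_20_6_2_4 : BlkD.Tr :=
  .E 0

lemma n19_20_6_2_4 {n : ℕ} (hn : 6 ≤ n) : NoNd ((19 : ℕ) : ℤ) ((20 : ℕ) : ℤ) n 6 2
    (BlkD.inB (BlkD.upd (fun _ => 0) 0 7)
      (fun _ => 20)) :=
  BlkD.part_sound (d := d19_20_6_2) dk19_20_6_2 hn (by decide) (tr := t19_20_6_2_4)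
    (by decide +kernel) rfl rfl rfl rfl

lemma pr19_20_6_2 {n : ℕ} (hn : 6 ≤ n) : NoPr ((19 : ℕ) : ℤ) ((20 : ℕ) : ℤ) n 6 2 :=
  BlkD.of_root (q := 4) (by decide) hn (BlkD.sp 0 6 (BlkD.sp 2 2 (BlkD.sp 0 3 (n19_20_6_2_1 hn)
    (n19_20_6_2_2 hn))
    (n19_20_6_2_3 hn))
    (n19_20_6_2_4 hn))

end BlkC

end Pool.Agent.Lib.MP_f04ccf_co
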