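import Pool.Agent.Lib.MP_f04ccf_co.M.BlkTp

/-!
MP_f04ccf_co, block certificate, data `R = 19`, `H = 20`, part 2 (certificates: helper99, bd9.cpp).
-/

set_option autoImplicit false
set_option maxRecDepth 100000

namespace Pool.Agent.Lib.MP_f04ccf_co

namespace BlkC

/-- the numbers of the pair `(6, 3)`, `R = 19`, `H = 20` -/
def d19_20_6_3 : BlkD.Pd :=
  ⟨19, 20, 4, 6, 3, 8, 3, 2, 1, 3, 10, 0, 4, 1, 8, 0, [0, 10, 20, 27, 28, 29, 30, 31, 32], [0, 8,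
    16, 20, 24, 28, 32, 36, 40], [⟨1, 1, 1, 4, 8, [0, 4], [0, 4]⟩, ⟨1, 1, 1, 6, 12, [0, 6], [0,
    6]⟩, ⟨1, 1, 1, 6, 14, [0, 8], [0, 6]⟩, ⟨2, 1, 1, 6, 22, [0, 10, 14], [0, 8]⟩]⟩

lemma dk19_20_6_3 : BlkD.pairOk d19_20_6_3 = true := by decide +kernel

/-- the certificates of the part 1 of the pair `(6, 3)` -/
def t19_20_6_3_1 : BlkD.Tr :=
  .L 5 6 [4, 4, 4, 5] [] [] 100000 94445 94445 600000 100000 0 100000 50000 0 0 16667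

lemma n19_20_6_3_1 {n : ℕ} (hn : 6 ≤ n) : NoNd ((19 : ℕ) : ℤ) ((20 : ℕ) : ℤ) n 6 3
    (BlkD.inB (fun _ => 0)
      (BlkD.upd (BlkD.upd (BlkD.upd (BlkD.upd (fun _ => 20) 0 6) 2 3) 0 3) 0 1)) :=
  BlkD.part_sound (d := d19_20_6_3) dk19_20_6_3 hn (by decide) (tr := t19_20_6_3_1)
    (by decide +kernel) rfl rfl rfl rfl

/-- the certificates of the part 2 of the pair `(6, 3)` -/
def t19_20_6_3_2 : BlkD.Tr :=
  .S 1 18 (.S 1 9 (.S 1 4 (.L 5 6 [4, 4, 4, 5] [] [] 100000 26390 26390 966666 16667 0 16667 66667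
    0 20833 33333) (.S 1 7 (.S 1 6 (.S 1 5 (.L 5 6 [4, 4, 4, 5] [81, 77, 70, 60, 50, 40] [] 100000
    26852 26852 1033334 22222 0 22222 55556 0 19444 33333) (.L 5 6 [4, 4, 4, 5] [96, 95, 91, 84,
    74, 64] [] 100000 26241 26241 1080855 29787 0 29787 40426 0 21277 29787)) (.L 5 6 [4, 4, 4, 5]
    [113, 112, 111, 107, 100, 90] [] 100000 55556 55556 966668 50000 0 75000 33333 0 8333 16667))
    (.L 5 7 [4, 4, 4, 4] [] [] 100000 29600 29599 1080266 9867 0 90133 45067 4800 18933 12000)))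
    (.E 0)) (.E 0)

lemma n19_20_6_3_2 {n : ℕ} (hn : 6 ≤ n) : NoNd ((19 : ℕ) : ℤ) ((20 : ℕ) : ℤ) n 6 3
    (BlkD.inB (BlkD.upd (fun _ => 0) 0 2)
      (BlkD.upd (BlkD.upd (BlkD.upd (BlkD.upd (fun _ => 20) 0 6) 2 3) 0 3) 0 2)) :=
  BlkD.part_sound (d := d19_20_6_3) dk19_20_6_3 hn (by decide) (tr := t19_20_6_3_2)
    (by decide +kernel) rfl rfl rfl rfl

/-- the certificates of the part 3 of the pair `(6, 3)` -/
def t19_20_6_3_3 : BlkD.Tr :=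
  .L 5 7 [4, 4, 4, 4] [] [] 100000 26984 26983 1052384 25000 0 25000 47619 0 19048 33333

lemma n19_20_6_3_3 {n : ℕ} (hn : 6 ≤ n) : NoNd ((19 : ℕ) : ℤ) ((20 : ℕ) : ℤ) n 6 3
    (BlkD.inB (BlkD.upd (BlkD.upd (fun _ => 0) 0 2) 0 3)
      (BlkD.upd (BlkD.upd (BlkD.upd (BlkD.upd (BlkD.upd (BlkD.upd (fun _ => 20) 0 6) 2 3) 0 3) 1 17) 1 8) 1 4)) :=
  BlkD.part_sound (d := d19_20_6_3) dk19_20_6_3 hn (by decide) (tr := t19_20_6_3_3)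
    (by decide +kernel) rfl rfl rfl rfl

/-- the certificates of the part 4 of the pair `(6, 3)` -/
def t19_20_6_3_4 : BlkD.Tr :=
  .L 5 7 [4, 4, 4, 4] [91, 87, 80, 70, 60, 50] [] 100000 25490 25489 1088235 32563 0 52311 29202
    2731 20798 22479

lemma n19_20_6_3_4 {n : ℕ} (hn : 6 ≤ n) : NoNd ((19 : ℕ) : ℤ) ((20 : ℕ) : ℤ) n 6 3
    (BlkD.inB (BlkD.upd (BlkD.upd (BlkD.upd (fun _ => 0) 0 2) 0 3) 1 5)
      (BlkD.upd (BlkD.upd (BlkD.upd (BlkD.upd (BlkD.upd (BlkD.upd (BlkD.upd (fun _ => 20) 0 6) 2 3) 0 3) 1 17) 1 8) 1 6) 1 5)) :=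
  BlkD.part_sound (d := d19_20_6_3) dk19_20_6_3 hn (by decide) (tr := t19_20_6_3_4)
    (by decide +kernel) rfl rfl rfl rfl

/-- the certificates of the part 5 of the pair `(6, 3)` -/
def t19_20_6_3_5 : BlkD.Tr :=
  .S 2 1 (.S 2 0 (.L 5 7 [4, 4, 4, 4] [108, 107, 103, 96, 86, 76] [] 100000 37500 37500 900000 0 0
    66667 100000 0 0 12500) (.S 3 10 (.S 3 5 (.S 3 2 (.L 5 7 [4, 4, 4, 4] [108, 107, 103, 96, 86,
    76] [] 100000 27591 27591 1071640 28361 14916 56723 28361 4727 12500 20483) (.S 3 4 (.S 3 3 (.L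
    5 7 [4, 4, 4, 4] [108, 107, 103, 96, 86, 76] [38, 30, 22, 12, 0, 0] 100000 23664 23663 1104199
    27481 0 58397 41221 6870 24046 15267) (.L 5 7 [4, 4, 4, 4] [108, 107, 103, 96, 86, 76] [50, 46,
    38, 30, 20, 0] 100000 50000 49999 949999 16667 0 100000 100000 0 0 0)) (.E 1))) (.E 1)) (.E
    1))) (.S 2 2 (.S 3 9 (.S 3 4 (.S 3 2 (.L 5 7 [4, 4, 4, 4] [108, 107, 103, 96, 86, 76] [] 100000
    23664 23663 1104199 27481 0 58397 41221 6870 24046 15267) (.L 5 7 [4, 4, 4, 4] [108, 107, 103,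
    96, 86, 76] [] 100000 50000 49999 949999 16667 0 100000 100000 0 0 0)) (.E 1)) (.E 1)) (.L 5 7
    [4, 4, 4, 4] [108, 107, 103, 96, 86, 76] [] 100000 22903 22903 1068029 33333 0 65306 0 6122
    39456 19048))

lemma n19_20_6_3_5 {n : ℕ} (hn : 6 ≤ n) : NoNd ((19 : ℕ) : ℤ) ((20 : ℕ) : ℤ) n 6 3
    (BlkD.inB (BlkD.upd (BlkD.upd (BlkD.upd (BlkD.upd (fun _ => 0) 0 2) 0 3) 1 5) 1 6)
      (BlkD.upd (BlkD.upd (BlkD.upd (BlkD.upd (BlkD.upd (BlkD.upd (fun _ => 20) 0 6) 2 3) 0 3) 1 17) 1 8) 1 6)) :=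
  BlkD.part_sound (d := d19_20_6_3) dk19_20_6_3 hn (by decide) (tr := t19_20_6_3_5)
    (by decide +kernel) rfl rfl rfl rfl

/-- the certificates of the part 6 of the pair `(6, 3)` -/
def t19_20_6_3_6 : BlkD.Tr :=
  .L 5 7 [4, 4, 4, 4] [] [] 100000 20270 20269 1115316 0 0 92342 50000 20270 23874 13063

lemma n19_20_6_3_6 {n : ℕ} (hn : 6 ≤ n) : NoNd ((19 : ℕ) : ℤ) ((20 : ℕ) : ℤ) n 6 3
    (BlkD.inB (BlkD.upd (BlkD.upd (BlkD.upd (BlkD.upd (fun _ => 0) 0 2) 0 3) 1 5) 1 7)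
      (BlkD.upd (BlkD.upd (BlkD.upd (BlkD.upd (BlkD.upd (fun _ => 20) 0 6) 2 3) 0 3) 1 17) 1 8)) :=
  BlkD.part_sound (d := d19_20_6_3) dk19_20_6_3 hn (by decide) (tr := t19_20_6_3_6)
    (by decide +kernel) rfl rfl rfl rfl

/-- the certificates of the part 7 of the pair `(6, 3)` -/
def t19_20_6_3_7 : BlkD.Tr :=
  .E 0

lemma n19_20_6_3_7 {n : ℕ} (hn : 6 ≤ n) : NoNd ((19 : ℕ) : ℤ) ((20 : ℕ) : ℤ) n 6 3
    (BlkD.inB (BlkD.upd (BlkD.upd (BlkD.upd (fun _ => 0) 0 2) 0 3) 1 9)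
      (BlkD.upd (BlkD.upd (BlkD.upd (BlkD.upd (fun _ => 20) 0 6) 2 3) 0 3) 1 17)) :=
  BlkD.part_sound (d := d19_20_6_3) dk19_20_6_3 hn (by decide) (tr := t19_20_6_3_7)
    (by decide +kernel) rfl rfl rfl rfl

/-- the certificates of the part 8 of the pair `(6, 3)` -/
def t19_20_6_3_8 : BlkD.Tr :=
  .E 0

lemma n19_20_6_3_8 {n : ℕ} (hn : 6 ≤ n) : NoNd ((19 : ℕ) : ℤ) ((20 : ℕ) : ℤ) n 6 3
    (BlkD.inB (BlkD.upd (BlkD.upd (BlkD.upd (fun _ => 0) 0 2) 0 3) 1 18)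
      (BlkD.upd (BlkD.upd (BlkD.upd (fun _ => 20) 0 6) 2 3) 0 3)) :=
  BlkD.part_sound (d := d19_20_6_3) dk19_20_6_3 hn (by decide) (tr := t19_20_6_3_8)
    (by decide +kernel) rfl rfl rfl rfl

/-- the certificates of the part 9 of the pair `(6, 3)` -/
def t19_20_6_3_9 : BlkD.Tr :=
  .S 0 5 (.S 0 4 (.S 1 16 (.S 1 8 (.S 1 4 (.S 1 2 (.L 5 7 [4, 4, 4, 4] [] [] 100000 25000 25000
    1000001 33333 0 33333 33333 0 25000 25000) (.S 1 3 (.L 5 7 [4, 4, 4, 4] [60, 50, 40, 30, 0, 0]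
    [] 100000 24074 24074 1055557 33333 0 63889 44444 2778 25000 33333) (.L 5 7 [4, 4, 4, 4] [81,
    74, 64, 54, 44, 0] [] 100000 24209 24209 1100001 28212 0 55028 60335 4469 22905 22905))) (.L 5
    7 [4, 4, 4, 4] [] [] 100000 19308 19307 1117308 668 0 90346 45173 19308 22769 14026)) (.E 0))
    (.E 0)) (.S 1 15 (.S 1 7 (.S 1 3 (.L 5 7 [4, 4, 4, 4] [] [] 100000 22289 22289 1088425 23353 0
    64870 64870 9581 23553 24451) (.L 5 7 [4, 4, 4, 4] [] [] 100000 15152 15152 1068183 0 0 77273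
    54545 36364 18182 18182)) (.E 0)) (.E 0))) (.L 5 7 [4, 4, 4, 4] [] [] 100000 5556 5556 1100000
    0 0 58333 41667 58333 25000 29167)

lemma n19_20_6_3_9 {n : ℕ} (hn : 6 ≤ n) : NoNd ((19 : ℕ) : ℤ) ((20 : ℕ) : ℤ) n 6 3
    (BlkD.inB (BlkD.upd (fun _ => 0) 0 4)
      (BlkD.upd (BlkD.upd (fun _ => 20) 0 6) 2 3)) :=
  BlkD.part_sound (d := d19_20_6_3) dk19_20_6_3 hn (by decide) (tr := t19_20_6_3_9)
    (by decide +kernel) rfl rfl rfl rfl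

/-- the certificates of the part 10 of the pair `(6, 3)` -/
def t19_20_6_3_10 : BlkD.Tr :=
  .E 1

lemma n19_20_6_3_10 {n : ℕ} (hn : 6 ≤ n) : NoNd ((19 : ℕ) : ℤ) ((20 : ℕ) : ℤ) n 6 3
    (BlkD.inB (BlkD.upd (fun _ => 0) 2 4)
      (BlkD.upd (fun _ => 20) 0 6)) :=
  BlkD.part_sound (d := d19_20_6_3) dk19_20_6_3 hn (by decide) (tr := t19_20_6_3_10)
    (by decide +kernel) rfl rfl rfl rfl

/-- the certificates of the part 11 of the pair `(6, 3)` -/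
def t19_20_6_3_11 : BlkD.Tr :=
  .E 0

lemma n19_20_6_3_11 {n : ℕ} (hn : 6 ≤ n) : NoNd ((19 : ℕ) : ℤ) ((20 : ℕ) : ℤ) n 6 3
    (BlkD.inB (BlkD.upd (fun _ => 0) 0 7)
      (fun _ => 20)) :=
  BlkD.part_sound (d := d19_20_6_3) dk19_20_6_3 hn (by decide) (tr := t19_20_6_3_11)
    (by decide +kernel) rfl rfl rfl rfl

lemma pr19_20_6_3 {n : ℕ} (hn : 6 ≤ n) : NoPr ((19 : ℕ) : ℤ) ((20 : ℕ) : ℤ) n 6 3 :=
  BlkD.of_root (q := 4) (by decide) hn (BlkD.sp 0 6 (BlkD.sp 2 3 (BlkD.sp 0 3 (BlkD.sp 0 1 (n19_20_6_3_1 hn)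
    (BlkD.sp 0 2 (n19_20_6_3_2 hn)
    (BlkD.sp 1 17 (BlkD.sp 1 8 (BlkD.sp 1 4 (n19_20_6_3_3 hn)
    (BlkD.sp 1 6 (BlkD.sp 1 5 (n19_20_6_3_4 hn)
    (n19_20_6_3_5 hn))
    (n19_20_6_3_6 hn)))
    (n19_20_6_3_7 hn))
    (n19_20_6_3_8 hn))))
    (n19_20_6_3_9 hn))
    (n19_20_6_3_10 hn))
    (n19_20_6_3_11 hn))

/-- the numbers of the pair `(6, 4)`, `R = 19`, `H = 20` -/
def d19_20_6_4 : BlkD.Pd :=
  ⟨19, 20, 4, 6, 4, 7, 3, 2, 1, 3, 10, 0, 2, 2, 8, 0, [0, 10, 20, 24, 25, 26, 27, 28], [0, 8, 16,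
    20, 22, 24, 26, 28], [⟨1, 1, 1, 4, 8, [0, 4], [0, 4]⟩, ⟨1, 1, 1, 4, 12, [0, 6], [0, 6]⟩, ⟨1, 1,
    1, 4, 16, [0, 8], [0, 8]⟩, ⟨2, 1, 1, 4, 22, [0, 10, 14], [0, 8]⟩]⟩

lemma dk19_20_6_4 : BlkD.pairOk d19_20_6_4 = true := by decide +kernel

/-- the certificates of the part 1 of the pair `(6, 4)` -/
def t19_20_6_4_1 : BlkD.Tr :=
  .L 5 6 [4, 4, 4, 5, 19] [] [] 100000 88889 88889 800000 100000 0 100000 50000 0 0 33333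

lemma n19_20_6_4_1 {n : ℕ} (hn : 6 ≤ n) : NoNd ((19 : ℕ) : ℤ) ((20 : ℕ) : ℤ) n 6 4
    (BlkD.inB (fun _ => 0)
      (BlkD.upd (BlkD.upd (BlkD.upd (BlkD.upd (fun _ => 20) 0 6) 2 4) 0 3) 0 1)) :=
  BlkD.part_sound (d := d19_20_6_4) dk19_20_6_4 hn (by decide) (tr := t19_20_6_4_1)
    (by decide +kernel) rfl rfl rfl rfl

/-- the certificates of the part 2 of the pair `(6, 4)` -/
def t19_20_6_4_2 : BlkD.Tr :=
  .S 1 18 (.S 1 9 (.S 1 4 (.L 5 6 [4, 4, 4, 5, 19] [] [] 100000 26667 26667 1160000 20000 0 20000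
    40000 0 20000 20000) (.S 1 7 (.S 1 6 (.S 1 5 (.L 5 6 [4, 4, 4, 5, 19] [86, 82, 72, 62, 52, 40]
    [] 100000 26191 26191 1200003 25000 0 50000 53571 0 21429 25000) (.L 5 6 [4, 4, 4, 5, 19] [101,
    100, 96, 86, 76, 66] [] 100000 43658 43658 1166372 38938 0 58407 58407 0 15044 29204)) (.S 2 2
    (.L 5 6 [4, 4, 4, 5, 19] [118, 117, 116, 112, 102, 92] [] 100000 84374 84374 1040630 57812
    17187 76562 81250 0 1563 6250) (.L 5 6 [4, 4, 4, 5, 19] [118, 117, 116, 112, 102, 92] [] 100000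
    27778 27778 1166668 33333 0 66667 50000 0 27778 22222))) (.S 1 8 (.L 5 6 [4, 4, 4, 5, 19] [137,
    136, 135, 134, 130, 120] [] 100000 62500 62500 1037500 62500 0 87500 50000 0 0 12500) (.L 5 6
    [4, 4, 4, 5, 19] [158, 157, 156, 155, 154, 150] [] 100000 116667 66667 650000 100000 0 150000
    100000 0 0 0)))) (.E 0)) (.E 0)

lemma n19_20_6_4_2 {n : ℕ} (hn : 6 ≤ n) : NoNd ((19 : ℕ) : ℤ) ((20 : ℕ) : ℤ) n 6 4
    (BlkD.inB (BlkD.upd (fun _ => 0) 0 2)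
      (BlkD.upd (BlkD.upd (BlkD.upd (BlkD.upd (fun _ => 20) 0 6) 2 4) 0 3) 0 2)) :=
  BlkD.part_sound (d := d19_20_6_4) dk19_20_6_4 hn (by decide) (tr := t19_20_6_4_2)
    (by decide +kernel) rfl rfl rfl rfl

/-- the certificates of the part 3 of the pair `(6, 4)` -/
def t19_20_6_4_3 : BlkD.Tr :=
  .S 1 2 (.L 5 6 [4, 4, 4, 5, 19] [] [] 100000 33334 33334 1100000 0 0 0 50000 0 0 0) (.S 1 3 (.L 5
    6 [4, 4, 4, 5, 19] [56, 46, 36, 24, 0, 0] [] 100000 25171 25171 1171430 9524 9524 19048 75510 0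
    24490 33333) (.S 2 2 (.S 2 1 (.L 5 6 [4, 4, 4, 5, 19] [78, 68, 58, 48, 36, 0] [] 100000 50000
    50000 1100000 25000 50000 50000 75000 0 0 25000) (.S 3 11 (.S 3 5 (.S 3 2 (.L 5 6 [4, 4, 4, 5,
    19] [78, 68, 58, 48, 36, 0] [] 100000 33334 33334 1100000 0 0 0 0 0 0 0) (.S 3 4 (.S 3 3 (.L 5
    6 [4, 4, 4, 5, 19] [78, 68, 58, 48, 36, 0] [48, 40, 30, 18, 0, 0] 100000 33334 33334 1157895
    21053 10526 31579 21053 0 0 15789) (.L 7 7 [4, 5, 3, 4, 19] [78, 68, 58, 48, 36, 0] [66, 58,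
    50, 40, 28, 0] 100000 26882 26882 1206452 22581 12903 45161 45161 0 19355 19355)) (.L 7 7 [4,
    5, 3, 4, 19] [78, 68, 58, 48, 36, 0] [82, 78, 70, 62, 52, 40] 100000 33334 33334 1111112 22222
    0 44444 100000 0 0 11111))) (.E 1)) (.E 1))) (.L 5 6 [4, 4, 4, 5, 19] [78, 68, 58, 48, 36, 0]
    [] 100000 33334 33334 1166668 33333 0 66667 33333 0 33333 33333)))

lemma n19_20_6_4_3 {n : ℕ} (hn : 6 ≤ n) : NoNd ((19 : ℕ) : ℤ) ((20 : ℕ) : ℤ) n 6 4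
    (BlkD.inB (BlkD.upd (BlkD.upd (fun _ => 0) 0 2) 0 3)
      (BlkD.upd (BlkD.upd (BlkD.upd (BlkD.upd (BlkD.upd (BlkD.upd (fun _ => 20) 0 6) 2 4) 0 3) 1 17) 1 8) 1 4)) :=
  BlkD.part_sound (d := d19_20_6_4) dk19_20_6_4 hn (by decide) (tr := t19_20_6_4_3)
    (by decide +kernel) rfl rfl rfl rfl

/-- the certificates of the part 4 of the pair `(6, 4)` -/
def t19_20_6_4_4 : BlkD.Tr :=
  .S 1 5 (.S 2 2 (.S 2 1 (.L 5 6 [4, 4, 4, 5, 19] [96, 92, 82, 72, 62, 50] [] 100000 47223 47223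
    1128573 21429 42857 60714 71429 0 7143 19048) (.S 3 10 (.S 3 5 (.S 3 2 (.L 5 6 [4, 4, 4, 5, 19]
    [96, 92, 82, 72, 62, 50] [] 100000 32292 32292 1159375 21875 9375 31250 28125 0 3125 15625) (.S
    3 4 (.S 3 3 (.L 4 5 [4, 4, 5, 6, 19] [96, 92, 82, 72, 62, 50] [48, 40, 30, 18, 0, 0] 100000
    33333 33333 1185716 28571 0 57143 57143 0 14286 28571) (.L 4 5 [4, 4, 5, 6, 19] [96, 92, 82,
    72, 62, 50] [66, 58, 50, 40, 28, 0] 100000 51112 51112 1143333 40000 0 96667 40000 3333 40000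
    20000)) (.L 4 5 [4, 4, 5, 6, 19] [96, 92, 82, 72, 62, 50] [82, 78, 70, 62, 52, 40] 100000 33334
    33334 1100000 0 0 100000 100000 0 0 0))) (.E 1)) (.E 1))) (.L 4 5 [4, 4, 5, 6, 19] [96, 92, 82,
    72, 62, 50] [] 100000 33334 33334 1166669 33333 0 66667 33333 0 33333 33333)) (.S 2 2 (.S 2 1
    (.L 4 5 [4, 4, 5, 6, 19] [113, 112, 108, 98, 88, 78] [] 100000 57778 57778 1100002 33333 33333
    66667 66667 0 0 20000) (.S 3 9 (.S 3 4 (.S 3 2 (.L 4 5 [4, 4, 5, 6, 19] [113, 112, 108, 98, 88,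
    78] [] 100000 28347 28347 1207877 25984 7087 56693 45669 7087 7874 30709) (.L 5 6 [4, 4, 4, 5,
    19] [113, 112, 108, 98, 88, 78] [] 100000 22052 22052 1229233 24615 1538 70769 47692 4615 29231
    24615)) (.L 5 6 [4, 4, 4, 5, 19] [113, 112, 108, 98, 88, 78] [] 100000 171429 0 0 0 0 271429
    121429 0 0 0)) (.E 1))) (.L 5 6 [4, 4, 4, 5, 19] [113, 112, 108, 98, 88, 78] [] 100000 19445
    19445 1233333 25000 0 66667 50000 8333 33333 25000))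

lemma n19_20_6_4_4 {n : ℕ} (hn : 6 ≤ n) : NoNd ((19 : ℕ) : ℤ) ((20 : ℕ) : ℤ) n 6 4
    (BlkD.inB (BlkD.upd (BlkD.upd (BlkD.upd (fun _ => 0) 0 2) 0 3) 1 5)
      (BlkD.upd (BlkD.upd (BlkD.upd (BlkD.upd (BlkD.upd (BlkD.upd (fun _ => 20) 0 6) 2 4) 0 3) 1 17) 1 8) 1 6)) :=
  BlkD.part_sound (d := d19_20_6_4) dk19_20_6_4 hn (by decide) (tr := t19_20_6_4_4)
    (by decide +kernel) rfl rfl rfl rfl

/-- the certificates of the part 5 of the pair `(6, 4)` -/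
def t19_20_6_4_5 : BlkD.Tr :=
  .S 1 7 (.L 5 6 [4, 4, 4, 5, 19] [132, 131, 130, 126, 116, 106] [] 100000 33334 33334 1185715
    35714 0 71429 50000 0 0 17857) (.L 5 6 [4, 4, 4, 5, 19] [153, 152, 151, 150, 146, 136] []
    100000 150000 0 150000 50000 25000 250000 50000 0 0 0)

lemma n19_20_6_4_5 {n : ℕ} (hn : 6 ≤ n) : NoNd ((19 : ℕ) : ℤ) ((20 : ℕ) : ℤ) n 6 4
    (BlkD.inB (BlkD.upd (BlkD.upd (BlkD.upd (BlkD.upd (fun _ => 0) 0 2) 0 3) 1 5) 1 7)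
      (BlkD.upd (BlkD.upd (BlkD.upd (BlkD.upd (BlkD.upd (fun _ => 20) 0 6) 2 4) 0 3) 1 17) 1 8)) :=
  BlkD.part_sound (d := d19_20_6_4) dk19_20_6_4 hn (by decide) (tr := t19_20_6_4_5)
    (by decide +kernel) rfl rfl rfl rfl

/-- the certificates of the part 6 of the pair `(6, 4)` -/
def t19_20_6_4_6 : BlkD.Tr :=
  .E 0

lemma n19_20_6_4_6 {n : ℕ} (hn : 6 ≤ n) : NoNd ((19 : ℕ) : ℤ) ((20 : ℕ) : ℤ) n 6 4
    (BlkD.inB (BlkD.upd (BlkD.upd (BlkD.upd (fun _ => 0) 0 2) 0 3) 1 9)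
      (BlkD.upd (BlkD.upd (BlkD.upd (BlkD.upd (fun _ => 20) 0 6) 2 4) 0 3) 1 17)) :=
  BlkD.part_sound (d := d19_20_6_4) dk19_20_6_4 hn (by decide) (tr := t19_20_6_4_6)
    (by decide +kernel) rfl rfl rfl rfl

/-- the certificates of the part 7 of the pair `(6, 4)` -/
def t19_20_6_4_7 : BlkD.Tr :=
  .E 0

lemma n19_20_6_4_7 {n : ℕ} (hn : 6 ≤ n) : NoNd ((19 : ℕ) : ℤ) ((20 : ℕ) : ℤ) n 6 4
    (BlkD.inB (BlkD.upd (BlkD.upd (BlkD.upd (fun _ => 0) 0 2) 0 3) 1 18)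
      (BlkD.upd (BlkD.upd (BlkD.upd (fun _ => 20) 0 6) 2 4) 0 3)) :=
  BlkD.part_sound (d := d19_20_6_4) dk19_20_6_4 hn (by decide) (tr := t19_20_6_4_7)
    (by decide +kernel) rfl rfl rfl rfl

/-- the certificates of the part 8 of the pair `(6, 4)` -/
def t19_20_6_4_8 : BlkD.Tr :=
  .S 1 16 (.S 1 8 (.S 1 4 (.S 1 2 (.L 5 6 [4, 4, 4, 5, 19] [] [] 100000 25000 25000 1175001 16667
    8333 25000 75000 0 25000 33333) (.S 1 3 (.L 5 6 [4, 4, 4, 5, 19] [62, 52, 42, 30, 0, 0] []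
    100000 24885 24885 1222582 25806 0 74194 55300 3226 22120 25806) (.S 2 2 (.S 2 1 (.L 5 6 [4, 4,
    4, 5, 19] [86, 76, 66, 56, 44, 0] [] 100000 38597 38597 1152633 18129 46491 59064 64327 0 3509
    22515) (.S 3 10 (.S 3 5 (.S 3 2 (.L 5 6 [4, 4, 4, 5, 19] [86, 76, 66, 56, 44, 0] [] 100000
    29116 29116 1188574 20000 10000 45918 42857 4082 8571 13810) (.S 3 4 (.S 3 3 (.L 5 6 [4, 4, 4,
    5, 19] [86, 76, 66, 56, 44, 0] [48, 40, 30, 18, 0, 0] 100000 24868 24868 1225003 25000 0 83333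
    55159 5556 19841 33333) (.L 5 6 [4, 4, 4, 5, 19] [86, 76, 66, 56, 44, 0] [66, 58, 50, 40, 28,
    0] 100000 16667 16667 1241668 25000 0 83333 33333 8333 41667 33333)) (.L 5 6 [4, 4, 4, 5, 19]
    [86, 76, 66, 56, 44, 0] [82, 78, 70, 62, 52, 40] 100000 33334 33334 1100000 0 0 100000 100000 0
    0 0))) (.E 1)) (.E 1))) (.L 5 6 [4, 4, 4, 5, 19] [86, 76, 66, 56, 44, 0] [] 100000 17510 17510
    1237054 24554 446 81845 37946 9970 37500 32738)))) (.S 1 6 (.S 1 5 (.S 2 2 (.S 2 1 (.L 5 6 [4,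
    4, 4, 5, 19] [106, 102, 92, 82, 72, 60] [] 100000 31681 31681 1174361 18632 34872 59316 56581 0
    4957 17436) (.L 5 6 [4, 4, 4, 5, 19] [106, 102, 92, 82, 72, 60] [] 100000 30403 30403 1207696
    30769 0 73626 45055 3297 5495 26374)) (.L 5 6 [4, 4, 4, 5, 19] [106, 102, 92, 82, 72, 60] []
    100000 25000 25000 1200000 25000 0 75000 50000 0 25000 25000)) (.L 5 6 [4, 4, 4, 5, 19] [125,
    124, 120, 110, 100, 90] [] 100000 30477 30477 1160001 20000 0 100000 33333 0 8571 20000)) (.E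
    0))) (.E 0)) (.E 0)

lemma n19_20_6_4_8 {n : ℕ} (hn : 6 ≤ n) : NoNd ((19 : ℕ) : ℤ) ((20 : ℕ) : ℤ) n 6 4
    (BlkD.inB (BlkD.upd (fun _ => 0) 0 4)
      (BlkD.upd (BlkD.upd (BlkD.upd (BlkD.upd (fun _ => 20) 0 6) 2 4) 0 5) 0 4)) :=
  BlkD.part_sound (d := d19_20_6_4) dk19_20_6_4 hn (by decide) (tr := t19_20_6_4_8)
    (by decide +kernel) rfl rfl rfl rfl

/-- the certificates of the part 9 of the pair `(6, 4)` -/
def t19_20_6_4_9 : BlkD.Tr :=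
  .S 1 15 (.S 1 7 (.S 1 3 (.S 1 1 (.L 5 6 [4, 4, 4, 5, 19] [] [] 100000 24868 24868 1177779 22222
    11111 22222 74603 0 25397 33333) (.S 1 2 (.L 5 6 [4, 4, 4, 5, 19] [44, 34, 22, 0, 0, 0] []
    100000 23033 23033 1216328 41764 146 83382 83236 16618 14286 32507) (.L 5 6 [4, 4, 4, 5, 19]
    [68, 58, 48, 36, 0, 0] [] 100000 24164 24164 1202783 18294 4881 87021 60629 14967 12545
    26826))) (.L 5 6 [4, 4, 4, 5, 19] [] [] 100000 23218 23218 1201976 4348 2174 91502 36646 16996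
    13354 30435)) (.E 0)) (.E 0)

lemma n19_20_6_4_9 {n : ℕ} (hn : 6 ≤ n) : NoNd ((19 : ℕ) : ℤ) ((20 : ℕ) : ℤ) n 6 4
    (BlkD.inB (BlkD.upd (BlkD.upd (fun _ => 0) 0 4) 0 5)
      (BlkD.upd (BlkD.upd (BlkD.upd (fun _ => 20) 0 6) 2 4) 0 5)) :=
  BlkD.part_sound (d := d19_20_6_4) dk19_20_6_4 hn (by decide) (tr := t19_20_6_4_9)
    (by decide +kernel) rfl rfl rfl rfl

/-- the certificates of the part 10 of the pair `(6, 4)` -/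
def t19_20_6_4_10 : BlkD.Tr :=
  .L 5 6 [4, 4, 4, 5, 19] [] [] 100000 1 1 1240000 0 5000 55000 70000 80000 20000 26667

lemma n19_20_6_4_10 {n : ℕ} (hn : 6 ≤ n) : NoNd ((19 : ℕ) : ℤ) ((20 : ℕ) : ℤ) n 6 4
    (BlkD.inB (BlkD.upd (BlkD.upd (fun _ => 0) 0 4) 0 6)
      (BlkD.upd (BlkD.upd (fun _ => 20) 0 6) 2 4)) :=
  BlkD.part_sound (d := d19_20_6_4) dk19_20_6_4 hn (by decide) (tr := t19_20_6_4_10)
    (by decide +kernel) rfl rfl rfl rfl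

/-- the certificates of the part 11 of the pair `(6, 4)` -/
def t19_20_6_4_11 : BlkD.Tr :=
  .E 1

lemma n19_20_6_4_11 {n : ℕ} (hn : 6 ≤ n) : NoNd ((19 : ℕ) : ℤ) ((20 : ℕ) : ℤ) n 6 4
    (BlkD.inB (BlkD.upd (fun _ => 0) 2 5)
      (BlkD.upd (fun _ => 20) 0 6)) :=
  BlkD.part_sound (d := d19_20_6_4) dk19_20_6_4 hn (by decide) (tr := t19_20_6_4_11)
    (by decide +kernel) rfl rfl rfl rfl

/-- the certificates of the part 12 of the pair `(6, 4)` -/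
def t19_20_6_4_12 : BlkD.Tr :=
  .E 0

lemma n19_20_6_4_12 {n : ℕ} (hn : 6 ≤ n) : NoNd ((19 : ℕ) : ℤ) ((20 : ℕ) : ℤ) n 6 4
    (BlkD.inB (BlkD.upd (fun _ => 0) 0 7)
      (fun _ => 20)) :=
  BlkD.part_sound (d := d19_20_6_4) dk19_20_6_4 hn (by decide) (tr := t19_20_6_4_12)
    (by decide +kernel) rfl rfl rfl rfl

lemma pr19_20_6_4 {n : ℕ} (hn : 6 ≤ n) : NoPr ((19 : ℕ) : ℤ) ((20 : ℕ) : ℤ) n 6 4 :=
  BlkD.of_root (q := 4) (by decide) hn (BlkD.sp 0 6 (BlkD.sp 2 4 (BlkD.sp 0 3 (BlkD.sp 0 1 (n19_20_6_4_1 hn)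
    (BlkD.sp 0 2 (n19_20_6_4_2 hn)
    (BlkD.sp 1 17 (BlkD.sp 1 8 (BlkD.sp 1 4 (n19_20_6_4_3 hn)
    (BlkD.sp 1 6 (n19_20_6_4_4 hn)
    (n19_20_6_4_5 hn)))
    (n19_20_6_4_6 hn))
    (n19_20_6_4_7 hn))))
    (BlkD.sp 0 5 (BlkD.sp 0 4 (n19_20_6_4_8 hn)
    (n19_20_6_4_9 hn))
    (n19_20_6_4_10 hn)))
    (n19_20_6_4_11 hn))
    (n19_20_6_4_12 hn))

/-- the numbers of the pair `(6, 5)`, `R = 19`, `H = 20` -/
def d19_20_6_5 : BlkD.Pd :=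
  ⟨19, 20, 4, 6, 5, 6, 2, 3, 2, 2, 8, 0, 2, 2, 8, 0, [0, 8, 16, 18, 20, 22, 24], [0, 8, 16, 18, 20,
    22, 24], [⟨1, 1, 1, 4, 8, [0, 4], [0, 4]⟩, ⟨1, 1, 1, 4, 12, [0, 6], [0, 6]⟩, ⟨1, 1, 1, 4, 16,
    [0, 8], [0, 8]⟩]⟩

lemma dk19_20_6_5 : BlkD.pairOk d19_20_6_5 = true := by decide +kernel

/-- the certificates of the part 1 of the pair `(6, 5)` -/
def t19_20_6_5_1 : BlkD.Tr :=
  .L 5 6 [4, 4, 4, 19, 19, 19] [] [] 100000 40625 40625 1137500 62500 6250 81250 43750 0 0 0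

lemma n19_20_6_5_1 {n : ℕ} (hn : 6 ≤ n) : NoNd ((19 : ℕ) : ℤ) ((20 : ℕ) : ℤ) n 6 5
    (BlkD.inB (fun _ => 0)
      (BlkD.upd (BlkD.upd (BlkD.upd (BlkD.upd (fun _ => 20) 0 6) 2 5) 0 3) 0 1)) :=
  BlkD.part_sound (d := d19_20_6_5) dk19_20_6_5 hn (by decide) (tr := t19_20_6_5_1)
    (by decide +kernel) rfl rfl rfl rfl

/-- the certificates of the part 2 of the pair `(6, 5)` -/
def t19_20_6_5_2 : BlkD.Tr :=
  .S 1 18 (.S 1 9 (.S 1 4 (.L 5 6 [4, 4, 4, 19, 19, 19] [] [] 100000 8824 8824 1311766 29412 0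
    44118 42647 0 11765 5882) (.S 1 7 (.S 1 6 (.L 5 6 [4, 4, 4, 19, 19, 19] [] [] 100000 49405
    49405 1300000 50000 0 55952 50000 1190 7143 7143) (.L 5 6 [4, 4, 4, 19, 19, 19] [120, 118, 116,
    108, 100, 92] [] 100000 11111 11111 1366668 33333 0 66667 50000 0 11111 27778)) (.L 5 6 [4, 4,
    4, 19, 19, 19] [] [] 100000 37500 37500 1300000 40000 0 90000 50000 10000 0 25000))) (.E 0))
    (.E 0)

lemma n19_20_6_5_2 {n : ℕ} (hn : 6 ≤ n) : NoNd ((19 : ℕ) : ℤ) ((20 : ℕ) : ℤ) n 6 5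
    (BlkD.inB (BlkD.upd (fun _ => 0) 0 2)
      (BlkD.upd (BlkD.upd (BlkD.upd (BlkD.upd (fun _ => 20) 0 6) 2 5) 0 3) 0 2)) :=
  BlkD.part_sound (d := d19_20_6_5) dk19_20_6_5 hn (by decide) (tr := t19_20_6_5_2)
    (by decide +kernel) rfl rfl rfl rfl

/-- the certificates of the part 3 of the pair `(6, 5)` -/
def t19_20_6_5_3 : BlkD.Tr :=
  .S 1 2 (.L 5 6 [4, 4, 4, 19, 19, 19] [] [] 100000 0 0 1300000 0 0 0 50000 0 0 0) (.S 1 3 (.L 5 6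
    [4, 4, 4, 19, 19, 19] [54, 46, 36, 24, 0, 0] [] 100000 13890 13890 1288891 33333 5556 66667
    66667 0 5556 2778) (.S 2 2 (.L 5 6 [4, 4, 4, 19, 19, 19] [74, 66, 58, 48, 36, 0] [] 100000
    41666 41666 1233336 33333 33333 66667 66667 0 0 16667) (.L 5 6 [4, 4, 4, 19, 19, 19] [74, 66,
    58, 48, 36, 0] [] 100000 1900 1900 1351898 16456 7595 50000 74684 0 12658 8228)))

lemma n19_20_6_5_3 {n : ℕ} (hn : 6 ≤ n) : NoNd ((19 : ℕ) : ℤ) ((20 : ℕ) : ℤ) n 6 5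
    (BlkD.inB (BlkD.upd (BlkD.upd (fun _ => 0) 0 2) 0 3)
      (BlkD.upd (BlkD.upd (BlkD.upd (BlkD.upd (BlkD.upd (BlkD.upd (fun _ => 20) 0 6) 2 5) 0 3) 1 17) 1 8) 1 4)) :=
  BlkD.part_sound (d := d19_20_6_5) dk19_20_6_5 hn (by decide) (tr := t19_20_6_5_3)
    (by decide +kernel) rfl rfl rfl rfl

/-- the certificates of the part 4 of the pair `(6, 5)` -/
def t19_20_6_5_4 : BlkD.Tr :=
  .S 1 6 (.S 1 5 (.L 5 6 [4, 4, 4, 19, 19, 19] [96, 88, 80, 72, 62, 50] [] 100000 10088 10088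
    1377195 24561 0 74561 73684 0 4386 26316) (.S 2 2 (.L 5 6 [4, 4, 4, 19, 19, 19] [114, 112, 104,
    96, 88, 78] [] 100000 48334 48334 1248000 36000 36000 70000 68000 1333 3333 21333) (.L 5 6 [4,
    4, 4, 19, 19, 19] [114, 112, 104, 96, 88, 78] [] 100000 9375 9375 1343750 31250 0 62500 62500
    6250 6250 31250))) (.L 5 6 [4, 4, 4, 19, 19, 19] [] [] 100000 4167 4167 1375001 8333 0 100000
    91667 0 0 33333)

lemma n19_20_6_5_4 {n : ℕ} (hn : 6 ≤ n) : NoNd ((19 : ℕ) : ℤ) ((20 : ℕ) : ℤ) n 6 5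
    (BlkD.inB (BlkD.upd (BlkD.upd (BlkD.upd (fun _ => 0) 0 2) 0 3) 1 5)
      (BlkD.upd (BlkD.upd (BlkD.upd (BlkD.upd (BlkD.upd (fun _ => 20) 0 6) 2 5) 0 3) 1 17) 1 8)) :=
  BlkD.part_sound (d := d19_20_6_5) dk19_20_6_5 hn (by decide) (tr := t19_20_6_5_4)
    (by decide +kernel) rfl rfl rfl rfl

/-- the certificates of the part 5 of the pair `(6, 5)` -/
def t19_20_6_5_5 : BlkD.Tr :=
  .E 0

lemma n19_20_6_5_5 {n : ℕ} (hn : 6 ≤ n) : NoNd ((19 : ℕ) : ℤ) ((20 : ℕ) : ℤ) n 6 5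
    (BlkD.inB (BlkD.upd (BlkD.upd (BlkD.upd (fun _ => 0) 0 2) 0 3) 1 9)
      (BlkD.upd (BlkD.upd (BlkD.upd (BlkD.upd (fun _ => 20) 0 6) 2 5) 0 3) 1 17)) :=
  BlkD.part_sound (d := d19_20_6_5) dk19_20_6_5 hn (by decide) (tr := t19_20_6_5_5)
    (by decide +kernel) rfl rfl rfl rfl

/-- the certificates of the part 6 of the pair `(6, 5)` -/
def t19_20_6_5_6 : BlkD.Tr :=
  .E 0

lemma n19_20_6_5_6 {n : ℕ} (hn : 6 ≤ n) : NoNd ((19 : ℕ) : ℤ) ((20 : ℕ) : ℤ) n 6 5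
    (BlkD.inB (BlkD.upd (BlkD.upd (BlkD.upd (fun _ => 0) 0 2) 0 3) 1 18)
      (BlkD.upd (BlkD.upd (BlkD.upd (fun _ => 20) 0 6) 2 5) 0 3)) :=
  BlkD.part_sound (d := d19_20_6_5) dk19_20_6_5 hn (by decide) (tr := t19_20_6_5_6)
    (by decide +kernel) rfl rfl rfl rfl

/-- the certificates of the part 7 of the pair `(6, 5)` -/
def t19_20_6_5_7 : BlkD.Tr :=
  .S 1 16 (.S 1 8 (.S 1 4 (.S 1 2 (.L 5 6 [4, 4, 4, 19, 19, 19] [] [] 100000 18868 18868 1290566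
    45283 9434 71698 71698 0 7547 3774) (.S 1 3 (.L 5 6 [4, 4, 4, 19, 19, 19] [60, 52, 42, 30, 0,
    0] [] 100000 5000 5000 1350000 20000 10000 80000 50000 0 10000 10000) (.S 2 2 (.L 5 6 [4, 4, 4,
    19, 19, 19] [82, 74, 66, 56, 44, 0] [] 100000 17197 17197 1320634 14286 40741 46032 66138 2116
    4233 2116) (.L 5 6 [4, 4, 4, 19, 19, 19] [82, 74, 66, 56, 44, 0] [] 100000 1 1 1374648 12676
    8451 64789 74648 2817 9859 19718)))) (.L 5 6 [4, 4, 4, 19, 19, 19] [] [] 100000 2 2 1388405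
    4348 2899 95652 92754 4058 290 33333)) (.E 0)) (.E 0)

lemma n19_20_6_5_7 {n : ℕ} (hn : 6 ≤ n) : NoNd ((19 : ℕ) : ℤ) ((20 : ℕ) : ℤ) n 6 5
    (BlkD.inB (BlkD.upd (fun _ => 0) 0 4)
      (BlkD.upd (BlkD.upd (BlkD.upd (BlkD.upd (fun _ => 20) 0 6) 2 5) 0 5) 0 4)) :=
  BlkD.part_sound (d := d19_20_6_5) dk19_20_6_5 hn (by decide) (tr := t19_20_6_5_7)
    (by decide +kernel) rfl rfl rfl rfl

/-- the certificates of the part 8 of the pair `(6, 5)` -/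
def t19_20_6_5_8 : BlkD.Tr :=
  .L 5 6 [4, 4, 4, 19, 19, 19] [] [] 100000 758 758 1390910 4545 5303 84091 78788 1894 1894 33333

lemma n19_20_6_5_8 {n : ℕ} (hn : 6 ≤ n) : NoNd ((19 : ℕ) : ℤ) ((20 : ℕ) : ℤ) n 6 5
    (BlkD.inB (BlkD.upd (BlkD.upd (fun _ => 0) 0 4) 0 5)
      (BlkD.upd (BlkD.upd (BlkD.upd (fun _ => 20) 0 6) 2 5) 0 5)) :=
  BlkD.part_sound (d := d19_20_6_5) dk19_20_6_5 hn (by decide) (tr := t19_20_6_5_8)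
    (by decide +kernel) rfl rfl rfl rfl

/-- the certificates of the part 9 of the pair `(6, 5)` -/
def t19_20_6_5_9 : BlkD.Tr :=
  .L 5 6 [4, 4, 4, 19, 19, 19] [] [] 100000 0 0 1336364 0 21212 63636 63636 33333 6061 33333

lemma n19_20_6_5_9 {n : ℕ} (hn : 6 ≤ n) : NoNd ((19 : ℕ) : ℤ) ((20 : ℕ) : ℤ) n 6 5
    (BlkD.inB (BlkD.upd (BlkD.upd (fun _ => 0) 0 4) 0 6)
      (BlkD.upd (BlkD.upd (fun _ => 20) 0 6) 2 5)) :=
  BlkD.part_sound (d := d19_20_6_5) dk19_20_6_5 hn (by decide) (tr := t19_20_6_5_9)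
    (by decide +kernel) rfl rfl rfl rfl

/-- the certificates of the part 10 of the pair `(6, 5)` -/
def t19_20_6_5_10 : BlkD.Tr :=
  .E 1

lemma n19_20_6_5_10 {n : ℕ} (hn : 6 ≤ n) : NoNd ((19 : ℕ) : ℤ) ((20 : ℕ) : ℤ) n 6 5
    (BlkD.inB (BlkD.upd (fun _ => 0) 2 6)
      (BlkD.upd (fun _ => 20) 0 6)) :=
  BlkD.part_sound (d := d19_20_6_5) dk19_20_6_5 hn (by decide) (tr := t19_20_6_5_10)
    (by decide +kernel) rfl rfl rfl rfl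

/-- the certificates of the part 11 of the pair `(6, 5)` -/
def t19_20_6_5_11 : BlkD.Tr :=
  .E 0

lemma n19_20_6_5_11 {n : ℕ} (hn : 6 ≤ n) : NoNd ((19 : ℕ) : ℤ) ((20 : ℕ) : ℤ) n 6 5
    (BlkD.inB (BlkD.upd (fun _ => 0) 0 7)
      (fun _ => 20)) :=
  BlkD.part_sound (d := d19_20_6_5) dk19_20_6_5 hn (by decide) (tr := t19_20_6_5_11)
    (by decide +kernel) rfl rfl rfl rfl

lemma pr19_20_6_5 {n : ℕ} (hn : 6 ≤ n) : NoPr ((19 : ℕ) : ℤ) ((20 : ℕ) : ℤ) n 6 5 :=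
  BlkD.of_root (q := 4) (by decide) hn (BlkD.sp 0 6 (BlkD.sp 2 5 (BlkD.sp 0 3 (BlkD.sp 0 1 (n19_20_6_5_1 hn)
    (BlkD.sp 0 2 (n19_20_6_5_2 hn)
    (BlkD.sp 1 17 (BlkD.sp 1 8 (BlkD.sp 1 4 (n19_20_6_5_3 hn)
    (n19_20_6_5_4 hn))
    (n19_20_6_5_5 hn))
    (n19_20_6_5_6 hn))))
    (BlkD.sp 0 5 (BlkD.sp 0 4 (n19_20_6_5_7 hn)
    (n19_20_6_5_8 hn))
    (n19_20_6_5_9 hn)))
    (n19_20_6_5_10 hn))
    (n19_20_6_5_11 hn))

/-- the numbers of the pair `(6, 6)`, `R = 19`, `H = 20` -/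
def d19_20_6_6 : BlkD.Pd :=
  ⟨19, 20, 4, 6, 6, 5, 1, 3, 2, 2, 6, 0, 2, 2, 6, 0, [0, 6, 12, 16, 18, 20], [0, 6, 12, 16, 18,
    20], [⟨1, 1, 1, 4, 8, [0, 4], [0, 4]⟩, ⟨1, 1, 1, 4, 12, [0, 6], [0, 6]⟩]⟩

lemma dk19_20_6_6 : BlkD.pairOk d19_20_6_6 = true := by decide +kernel

/-- the certificates of the part 1 of the pair `(6, 6)` -/
def t19_20_6_6_1 : BlkD.Tr :=
  .L 6 6 [4, 3, 19, 19, 19, 19, 19] [] [] 100000 1 1 1433333 66667 66667 66667 66667 0 0 0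

lemma n19_20_6_6_1 {n : ℕ} (hn : 6 ≤ n) : NoNd ((19 : ℕ) : ℤ) ((20 : ℕ) : ℤ) n 6 6
    (BlkD.inB (fun _ => 0)
      (BlkD.upd (BlkD.upd (BlkD.upd (BlkD.upd (fun _ => 20) 0 6) 2 6) 0 3) 0 1)) :=
  BlkD.part_sound (d := d19_20_6_6) dk19_20_6_6 hn (by decide) (tr := t19_20_6_6_1)
    (by decide +kernel) rfl rfl rfl rfl

/-- the certificates of the part 2 of the pair `(6, 6)` -/
def t19_20_6_6_2 : BlkD.Tr :=
  .L 6 6 [4, 3, 19, 19, 19, 19, 19] [] [] 100000 1 1 1433333 66667 66667 66667 66667 0 0 0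

lemma n19_20_6_6_2 {n : ℕ} (hn : 6 ≤ n) : NoNd ((19 : ℕ) : ℤ) ((20 : ℕ) : ℤ) n 6 6
    (BlkD.inB (BlkD.upd (fun _ => 0) 0 2)
      (BlkD.upd (BlkD.upd (BlkD.upd (fun _ => 20) 0 6) 2 6) 0 3)) :=
  BlkD.part_sound (d := d19_20_6_6) dk19_20_6_6 hn (by decide) (tr := t19_20_6_6_2)
    (by decide +kernel) rfl rfl rfl rfl

/-- the certificates of the part 3 of the pair `(6, 6)` -/
def t19_20_6_6_3 : BlkD.Tr :=
  .L 6 6 [4, 3, 19, 19, 19, 19, 19] [] [] 100000 1 1 1433333 66667 66667 66667 66667 0 0 0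

lemma n19_20_6_6_3 {n : ℕ} (hn : 6 ≤ n) : NoNd ((19 : ℕ) : ℤ) ((20 : ℕ) : ℤ) n 6 6
    (BlkD.inB (BlkD.upd (fun _ => 0) 0 4)
      (BlkD.upd (BlkD.upd (BlkD.upd (fun _ => 20) 0 6) 2 6) 0 5)) :=
  BlkD.part_sound (d := d19_20_6_6) dk19_20_6_6 hn (by decide) (tr := t19_20_6_6_3)
    (by decide +kernel) rfl rfl rfl rfl

/-- the certificates of the part 4 of the pair `(6, 6)` -/
def t19_20_6_6_4 : BlkD.Tr :=
  .L 6 6 [4, 3, 19, 19, 19, 19, 19] [] [] 100000 1 1 1433333 66667 66667 66667 66667 0 0 0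

lemma n19_20_6_6_4 {n : ℕ} (hn : 6 ≤ n) : NoNd ((19 : ℕ) : ℤ) ((20 : ℕ) : ℤ) n 6 6
    (BlkD.inB (BlkD.upd (BlkD.upd (fun _ => 0) 0 4) 0 6)
      (BlkD.upd (BlkD.upd (fun _ => 20) 0 6) 2 6)) :=
  BlkD.part_sound (d := d19_20_6_6) dk19_20_6_6 hn (by decide) (tr := t19_20_6_6_4)
    (by decide +kernel) rfl rfl rfl rfl

/-- the certificates of the part 5 of the pair `(6, 6)` -/
def t19_20_6_6_5 : BlkD.Tr :=
  .E 1

lemma n19_20_6_6_5 {n : ℕ} (hn : 6 ≤ n) : NoNd ((19 : ℕ) : ℤ) ((20 : ℕ) : ℤ) n 6 6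
    (BlkD.inB (BlkD.upd (fun _ => 0) 2 7)
      (BlkD.upd (fun _ => 20) 0 6)) :=
  BlkD.part_sound (d := d19_20_6_6) dk19_20_6_6 hn (by decide) (tr := t19_20_6_6_5)
    (by decide +kernel) rfl rfl rfl rfl

/-- the certificates of the part 6 of the pair `(6, 6)` -/
def t19_20_6_6_6 : BlkD.Tr :=
  .E 0

lemma n19_20_6_6_6 {n : ℕ} (hn : 6 ≤ n) : NoNd ((19 : ℕ) : ℤ) ((20 : ℕ) : ℤ) n 6 6
    (BlkD.inB (BlkD.upd (fun _ => 0) 0 7)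
      (fun _ => 20)) :=
  BlkD.part_sound (d := d19_20_6_6) dk19_20_6_6 hn (by decide) (tr := t19_20_6_6_6)
    (by decide +kernel) rfl rfl rfl rfl

lemma pr19_20_6_6 {n : ℕ} (hn : 6 ≤ n) : NoPr ((19 : ℕ) : ℤ) ((20 : ℕ) : ℤ) n 6 6 :=
  BlkD.of_root (q := 4) (by decide) hn (BlkD.sp 0 6 (BlkD.sp 2 6 (BlkD.sp 0 3 (BlkD.sp 0 1 (n19_20_6_6_1 hn)
    (n19_20_6_6_2 hn))
    (BlkD.sp 0 5 (n19_20_6_6_3 hn)
    (n19_20_6_6_4 hn)))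
    (n19_20_6_6_5 hn))
    (n19_20_6_6_6 hn))

/-- the numbers of the pair `(7, 0)`, `R = 19`, `H = 20` -/
def d19_20_7_0 : BlkD.Pd :=
  ⟨19, 20, 4, 7, 0, 10, 0, 1, 0, 4, 4, 0, 0, 4, 4, 0, [0, 4, 8, 12, 16, 20, 24, 28, 32, 36, 40],
    [0, 4, 8, 12, 16, 20, 24, 28, 32, 36, 40], [⟨1, 1, 1, 4, 8, [0, 4], [0, 4]⟩]⟩

lemma dk19_20_7_0 : BlkD.pairOk d19_20_7_0 = true := by decide +kernel

/-- the certificates of the part 1 of the pair `(7, 0)` -/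
def t19_20_7_0_1 : BlkD.Tr :=
  .S 0 7 (.S 2 0 (.L 3 3 [4] [] [] 100000 0 0 825000 50000 0 75000 25000 0 0 0) (.E 1)) (.E 0)

lemma n19_20_7_0_1 {n : ℕ} (hn : 6 ≤ n) : NoNd ((19 : ℕ) : ℤ) ((20 : ℕ) : ℤ) n 7 0
    (BlkD.inB (fun _ => 0)
      (fun _ => 20)) :=
  BlkD.part_sound (d := d19_20_7_0) dk19_20_7_0 hn (by decide) (tr := t19_20_7_0_1)
    (by decide +kernel) rfl rfl rfl rfl

lemma pr19_20_7_0 {n : ℕ} (hn : 6 ≤ n) : NoPr ((19 : ℕ) : ℤ) ((20 : ℕ) : ℤ) n 7 0 :=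
  BlkD.of_root (q := 4) (by decide) hn (n19_20_7_0_1 hn)

end BlkC

end Pool.Agent.Lib.MP_f04ccf_co
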