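import Pool.Agent.Lib.MP_f04ccf_co.M.BlkTp

/-!
MP_f04ccf_co, block certificate, data `R = 19`, `H = 20`, part 3 (certificates: helper99, bd9.cpp).
-/

set_option autoImplicit false
set_option maxRecDepth 100000

namespace Pool.Agent.Lib.MP_f04ccf_co

namespace BlkC

/-- the numbers of the pair `(7, 1)`, `R = 19`, `H = 20` -/
def d19_20_7_1 : BlkD.Pd :=
  ⟨19, 20, 4, 7, 1, 9, 1, 1, 2, 2, 6, 0, 0, 4, 4, 0, [0, 6, 12, 18, 24, 28, 30, 32, 34, 36], [0, 4,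
    8, 12, 16, 20, 24, 28, 32, 36], [⟨1, 1, 1, 4, 8, [0, 4], [0, 4]⟩, ⟨1, 1, 1, 4, 10, [0, 6], [0,
    4]⟩]⟩

lemma dk19_20_7_1 : BlkD.pairOk d19_20_7_1 = true := by decide +kernel

/-- the certificates of the part 1 of the pair `(7, 1)` -/
def t19_20_7_1_1 : BlkD.Tr :=
  .S 0 7 (.S 2 1 (.L 4 5 [4, 4] [] [] 100000 0 0 1028574 28571 0 57143 0 0 0 0) (.E 1)) (.E 0)

lemma n19_20_7_1_1 {n : ℕ} (hn : 6 ≤ n) : NoNd ((19 : ℕ) : ℤ) ((20 : ℕ) : ℤ) n 7 1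
    (BlkD.inB (fun _ => 0)
      (fun _ => 20)) :=
  BlkD.part_sound (d := d19_20_7_1) dk19_20_7_1 hn (by decide) (tr := t19_20_7_1_1)
    (by decide +kernel) rfl rfl rfl rfl

lemma pr19_20_7_1 {n : ℕ} (hn : 6 ≤ n) : NoPr ((19 : ℕ) : ℤ) ((20 : ℕ) : ℤ) n 7 1 :=
  BlkD.of_root (q := 4) (by decide) hn (n19_20_7_1_1 hn)

/-- the numbers of the pair `(7, 2)`, `R = 19`, `H = 20` -/
def d19_20_7_2 : BlkD.Pd :=
  ⟨19, 20, 4, 7, 2, 8, 2, 1, 2, 2, 8, 0, 3, 1, 6, 0, [0, 8, 16, 22, 24, 26, 28, 30, 32], [0, 6, 12,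
    17, 20, 23, 26, 29, 32], [⟨1, 1, 1, 4, 8, [0, 4], [0, 4]⟩, ⟨1, 1, 1, 4, 10, [0, 6], [0, 4]⟩,
    ⟨1, 1, 1, 6, 14, [0, 8], [0, 6]⟩]⟩

lemma dk19_20_7_2 : BlkD.pairOk d19_20_7_2 = true := by decide +kernel

/-- the certificates of the part 1 of the pair `(7, 2)` -/
def t19_20_7_2_1 : BlkD.Tr :=
  .L 4 6 [4, 4, 4] [] [] 100000 13793 13793 1082762 31034 0 68966 24138 0 24138 24138

lemma n19_20_7_2_1 {n : ℕ} (hn : 6 ≤ n) : NoNd ((19 : ℕ) : ℤ) ((20 : ℕ) : ℤ) n 7 2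
    (BlkD.inB (fun _ => 0)
      (BlkD.upd (BlkD.upd (BlkD.upd (fun _ => 20) 0 7) 2 2) 0 3)) :=
  BlkD.part_sound (d := d19_20_7_2) dk19_20_7_2 hn (by decide) (tr := t19_20_7_2_1)
    (by decide +kernel) rfl rfl rfl rfl

/-- the certificates of the part 2 of the pair `(7, 2)` -/
def t19_20_7_2_2 : BlkD.Tr :=
  .S 0 4 (.L 4 6 [4, 4, 4] [] [] 100000 1 1 1188374 18605 0 59302 18605 8140 30620 30620) (.L 4 6
    [4, 4, 4] [] [] 100000 1 1 1160000 10000 0 100000 10000 0 33333 33333)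

lemma n19_20_7_2_2 {n : ℕ} (hn : 6 ≤ n) : NoNd ((19 : ℕ) : ℤ) ((20 : ℕ) : ℤ) n 7 2
    (BlkD.inB (BlkD.upd (fun _ => 0) 0 4)
      (BlkD.upd (BlkD.upd (BlkD.upd (fun _ => 20) 0 7) 2 2) 0 5)) :=
  BlkD.part_sound (d := d19_20_7_2) dk19_20_7_2 hn (by decide) (tr := t19_20_7_2_2)
    (by decide +kernel) rfl rfl rfl rfl

/-- the certificates of the part 3 of the pair `(7, 2)` -/
def t19_20_7_2_3 : BlkD.Tr :=
  .L 4 6 [4, 4, 4] [] [] 100000 2 1 1165910 11364 0 55682 11364 14773 28409 28409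

lemma n19_20_7_2_3 {n : ℕ} (hn : 6 ≤ n) : NoNd ((19 : ℕ) : ℤ) ((20 : ℕ) : ℤ) n 7 2
    (BlkD.inB (BlkD.upd (BlkD.upd (fun _ => 0) 0 4) 0 6)
      (BlkD.upd (BlkD.upd (fun _ => 20) 0 7) 2 2)) :=
  BlkD.part_sound (d := d19_20_7_2) dk19_20_7_2 hn (by decide) (tr := t19_20_7_2_3)
    (by decide +kernel) rfl rfl rfl rfl

/-- the certificates of the part 4 of the pair `(7, 2)` -/
def t19_20_7_2_4 : BlkD.Tr :=
  .E 1

lemma n19_20_7_2_4 {n : ℕ} (hn : 6 ≤ n) : NoNd ((19 : ℕ) : ℤ) ((20 : ℕ) : ℤ) n 7 2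
    (BlkD.inB (BlkD.upd (fun _ => 0) 2 3)
      (BlkD.upd (fun _ => 20) 0 7)) :=
  BlkD.part_sound (d := d19_20_7_2) dk19_20_7_2 hn (by decide) (tr := t19_20_7_2_4)
    (by decide +kernel) rfl rfl rfl rfl

/-- the certificates of the part 5 of the pair `(7, 2)` -/
def t19_20_7_2_5 : BlkD.Tr :=
  .E 0

lemma n19_20_7_2_5 {n : ℕ} (hn : 6 ≤ n) : NoNd ((19 : ℕ) : ℤ) ((20 : ℕ) : ℤ) n 7 2
    (BlkD.inB (BlkD.upd (fun _ => 0) 0 8)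
      (fun _ => 20)) :=
  BlkD.part_sound (d := d19_20_7_2) dk19_20_7_2 hn (by decide) (tr := t19_20_7_2_5)
    (by decide +kernel) rfl rfl rfl rfl

lemma pr19_20_7_2 {n : ℕ} (hn : 6 ≤ n) : NoPr ((19 : ℕ) : ℤ) ((20 : ℕ) : ℤ) n 7 2 :=
  BlkD.of_root (q := 4) (by decide) hn (BlkD.sp 0 7 (BlkD.sp 2 2 (BlkD.sp 0 3 (n19_20_7_2_1 hn)
    (BlkD.sp 0 5 (n19_20_7_2_2 hn)
    (n19_20_7_2_3 hn)))
    (n19_20_7_2_4 hn))
    (n19_20_7_2_5 hn))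

/-- the numbers of the pair `(7, 3)`, `R = 19`, `H = 20` -/
def d19_20_7_3 : BlkD.Pd :=
  ⟨19, 20, 4, 7, 3, 7, 3, 2, 1, 4, 10, 0, 4, 1, 8, 0, [0, 10, 20, 30, 32, 33, 34, 35], [0, 8, 15,
    19, 23, 27, 31, 35], [⟨1, 1, 1, 4, 8, [0, 4], [0, 4]⟩, ⟨1, 1, 1, 4, 12, [0, 6], [0, 6]⟩, ⟨1, 1,
    1, 4, 14, [0, 8], [0, 6]⟩, ⟨2, 1, 1, 4, 26, [0, 10, 18], [0, 8]⟩]⟩

lemma dk19_20_7_3 : BlkD.pairOk d19_20_7_3 = true := by decide +kernel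

/-- the certificates of the part 1 of the pair `(7, 3)` -/
def t19_20_7_3_1 : BlkD.Tr :=
  .S 0 1 (.L 5 8 [4, 4, 4, 4] [] [] 100000 100000 100000 600000 100000 0 100000 50000 0 0 0) (.S 0
    2 (.L 5 8 [4, 4, 4, 4] [] [] 100000 110417 110417 925000 75000 0 87500 43750 0 0 28125) (.S 1
    17 (.S 1 8 (.S 1 4 (.L 5 8 [4, 4, 4, 4] [] [] 100000 33334 33334 1100000 25000 0 25000 25000 0
    12500 12500) (.S 1 6 (.S 1 5 (.L 5 8 [4, 4, 4, 4] [98, 90, 80, 70, 60, 50] [] 100000 38542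
    38542 1143751 31250 0 45312 21875 0 25000 15625) (.L 5 8 [4, 4, 4, 4] [116, 114, 106, 96, 86,
    76] [] 100000 36992 36992 1180490 36585 0 45732 18293 0 21951 13415)) (.S 1 7 (.S 2 1 (.S 2 0
    (.L 5 8 [4, 4, 4, 4] [135, 134, 132, 124, 114, 104] [] 100000 46667 46667 1060000 40000 0 60000
    60000 0 0 20000) (.S 3 9 (.S 3 4 (.S 3 2 (.L 5 8 [4, 4, 4, 4] [135, 134, 132, 124, 114, 104] []
    100000 45089 45089 1128386 42904 0 57897 46535 519 11881 19472) (.L 5 8 [4, 4, 4, 4] [135, 134,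
    132, 124, 114, 104] [] 100000 80769 80769 1042310 61538 0 88462 57692 0 30769 0)) (.E 1)) (.E
    1))) (.L 5 8 [4, 4, 4, 4] [135, 134, 132, 124, 114, 104] [] 100000 47224 47224 1133332 41667 0
    66667 50000 0 16667 16667)) (.L 5 8 [4, 4, 4, 4] [156, 155, 154, 152, 144, 134] [] 100000 48193
    48193 1146990 51807 0 71084 37349 0 14458 19277)))) (.S 1 13 (.S 1 11 (.S 1 10 (.S 1 9 (.L 5 8
    [4, 4, 4, 4] [179, 178, 177, 176, 174, 166] [] 100000 77779 77779 999999 66667 0 100000 50000 0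
    0 16667) (.L 5 8 [4, 4, 4, 4] [204, 203, 202, 201, 200, 198] [] 100000 83334 66667 883335 83333
    0 116667 33333 0 0 16667)) (.L 5 8 [4, 4, 4, 4] [231, 230, 229, 228, 227, 226] [] 100000 171429
    0 0 20408 0 271429 10204 0 0 0)) (.E 0)) (.E 0))) (.E 0)))

lemma n19_20_7_3_1 {n : ℕ} (hn : 6 ≤ n) : NoNd ((19 : ℕ) : ℤ) ((20 : ℕ) : ℤ) n 7 3
    (BlkD.inB (fun _ => 0)
      (BlkD.upd (BlkD.upd (BlkD.upd (fun _ => 20) 0 7) 2 3) 0 3)) :=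
  BlkD.part_sound (d := d19_20_7_3) dk19_20_7_3 hn (by decide) (tr := t19_20_7_3_1)
    (by decide +kernel) rfl rfl rfl rfl

/-- the certificates of the part 2 of the pair `(7, 3)` -/
def t19_20_7_3_2 : BlkD.Tr :=
  .S 1 2 (.L 5 8 [4, 4, 4, 4] [] [] 100000 33334 33334 1100000 0 0 0 0 0 0 0) (.S 1 3 (.L 5 8 [4,
    4, 4, 4] [60, 50, 40, 30, 0, 0] [] 100000 33334 33334 1100001 33333 0 33333 22222 0 11111
    11111) (.L 5 8 [4, 4, 4, 4] [84, 74, 64, 54, 44, 0] [] 100000 33334 33334 1188461 27885 0 27885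
    19231 0 26923 15385))

lemma n19_20_7_3_2 {n : ℕ} (hn : 6 ≤ n) : NoNd ((19 : ℕ) : ℤ) ((20 : ℕ) : ℤ) n 7 3
    (BlkD.inB (BlkD.upd (fun _ => 0) 0 4)
      (BlkD.upd (BlkD.upd (BlkD.upd (BlkD.upd (BlkD.upd (BlkD.upd (BlkD.upd (fun _ => 20) 0 7) 2 3) 0 5) 0 4) 1 16) 1 8) 1 4)) :=
  BlkD.part_sound (d := d19_20_7_3) dk19_20_7_3 hn (by decide) (tr := t19_20_7_3_2)
    (by decide +kernel) rfl rfl rfl rfl

/-- the certificates of the part 3 of the pair `(7, 3)` -/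
def t19_20_7_3_3 : BlkD.Tr :=
  .S 2 1 (.S 2 0 (.L 5 8 [4, 4, 4, 4] [108, 100, 90, 80, 70, 60] [] 100000 33334 33334 1100000 0 0
    0 100000 0 0 0) (.S 3 10 (.S 3 5 (.S 3 2 (.L 5 8 [4, 4, 4, 4] [108, 100, 90, 80, 70, 60] []
    100000 33334 33334 1160000 20000 20000 20000 20000 0 0 10000) (.S 3 4 (.S 3 3 (.L 5 8 [4, 4, 4,
    4] [108, 100, 90, 80, 70, 60] [38, 30, 22, 12, 0, 0] 100000 33334 33334 1176924 30769 3846
    57692 44231 0 26923 28846) (.S 4 5 (.S 4 2 (.L 5 8 [4, 4, 4, 4] [80, 70, 60, 0, 0, 0] [53, 46,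
    38, 30, 20, 0] 100000 54904 54904 1105880 58824 0 58824 29412 0 29412 13725) (.L 5 8 [4, 4, 4,
    4] [108, 100, 90, 80, 70, 60] [53, 46, 38, 30, 20, 0] 100000 33334 1 966668 16667 0 133333 8333
    0 33333 25000)) (.E 2))) (.E 1))) (.E 1)) (.E 1))) (.S 2 2 (.S 3 9 (.S 3 4 (.S 3 2 (.L 5 8 [4,
    4, 4, 4] [108, 100, 90, 80, 70, 60] [] 100000 33334 33334 1173685 31579 0 52632 47368 0 26316
    26316) (.S 3 3 (.S 4 5 (.S 4 2 (.L 5 8 [4, 4, 4, 4] [80, 70, 60, 0, 0, 0] [44, 36, 28, 18, 0,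
    0] 100000 54546 54546 1077272 59091 0 59091 27273 0 31818 13636) (.L 5 8 [4, 4, 4, 4] [108,
    100, 90, 80, 70, 60] [44, 36, 28, 18, 0, 0] 100000 50000 0 850000 0 0 150000 100000 0 0 0)) (.E
    2)) (.E 1))) (.E 1)) (.E 1)) (.L 5 8 [4, 4, 4, 4] [108, 100, 90, 80, 70, 60] [] 100000 33334
    33334 1166668 33333 0 33333 0 0 33333 16667))

lemma n19_20_7_3_3 {n : ℕ} (hn : 6 ≤ n) : NoNd ((19 : ℕ) : ℤ) ((20 : ℕ) : ℤ) n 7 3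
    (BlkD.inB (BlkD.upd (BlkD.upd (fun _ => 0) 0 4) 1 5)
      (BlkD.upd (BlkD.upd (BlkD.upd (BlkD.upd (BlkD.upd (BlkD.upd (BlkD.upd (BlkD.upd (fun _ => 20) 0 7) 2 3) 0 5) 0 4) 1 16) 1 8) 1 6) 1 5)) :=
  BlkD.part_sound (d := d19_20_7_3) dk19_20_7_3 hn (by decide) (tr := t19_20_7_3_3)
    (by decide +kernel) rfl rfl rfl rfl

/-- the certificates of the part 4 of the pair `(7, 3)` -/
def t19_20_7_3_4 : BlkD.Tr :=
  .S 2 1 (.S 2 0 (.L 5 8 [4, 4, 4, 4] [128, 126, 118, 108, 98, 88] [] 100000 33334 33334 1075000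
    25000 0 75000 75000 0 0 25000) (.S 3 9 (.S 3 4 (.S 3 2 (.L 5 8 [4, 4, 4, 4] [128, 126, 118,
    108, 98, 88] [] 100000 31762 31762 1203886 28155 11650 58807 44660 2358 16505 20388) (.S 3 3
    (.S 4 6 (.S 4 3 (.L 5 8 [4, 4, 4, 4] [108, 98, 88, 78, 0, 0] [38, 30, 22, 12, 0, 0] 100000
    37880 37880 1163635 36364 9091 81818 59091 0 4545 13636) (.L 5 8 [4, 4, 4, 4] [128, 126, 118,
    108, 98, 88] [38, 30, 22, 12, 0, 0] 100000 50000 0 850000 0 0 150000 100000 0 0 0)) (.E 2)) (.S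
    4 6 (.S 4 3 (.L 5 8 [4, 4, 4, 4] [108, 98, 88, 78, 0, 0] [53, 46, 38, 30, 20, 0] 100000 45122
    45122 1137805 54878 0 87805 10976 0 40244 14634) (.L 5 8 [4, 4, 4, 4] [128, 126, 118, 108, 98,
    88] [53, 46, 38, 30, 20, 0] 100000 42858 1 900000 14286 0 142857 7143 0 14286 21429)) (.E 2))))
    (.E 1)) (.E 1))) (.S 2 2 (.S 3 8 (.S 3 4 (.S 3 2 (.S 3 1 (.S 3 0 (.L 5 8 [4, 4, 4, 4] [128,
    126, 118, 108, 98, 88] [0, 0, 0, 0, 0, 0] 100000 33334 33334 1145455 27273 0 54545 0 0 0 18182)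
    (.L 4 6 [4, 4, 5, 5] [128, 126, 118, 108, 98, 88] [14, 4, 0, 0, 0, 0] 100000 32366 32366
    1200000 28814 13559 66344 47458 1453 33898 33898)) (.S 4 6 (.S 4 3 (.L 4 6 [4, 4, 5, 5] [108,
    98, 88, 78, 0, 0] [28, 20, 10, 0, 0, 0] 100000 33334 33334 1171430 38095 0 76190 38095 0 34921
    17460) (.L 4 6 [4, 4, 5, 5] [128, 126, 118, 108, 98, 88] [28, 20, 10, 0, 0, 0] 100000 50000 0
    850000 0 0 150000 100000 0 0 0)) (.E 2))) (.S 3 3 (.S 4 6 (.S 4 3 (.L 4 6 [4, 4, 5, 5] [108,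
    98, 88, 78, 0, 0] [44, 36, 28, 18, 0, 0] 100000 35715 35715 1185715 42857 0 71429 28571 0 42857
    21429) (.L 4 6 [4, 4, 5, 5] [128, 126, 118, 108, 98, 88] [44, 36, 28, 18, 0, 0] 100000 100000 0
    500000 0 0 200000 200000 0 0 0)) (.E 2)) (.E 1))) (.E 1)) (.E 1)) (.L 4 6 [4, 4, 5, 5] [128,
    126, 118, 108, 98, 88] [] 100000 51614 51614 1122578 46237 0 72043 0 4301 25806 25806))

lemma n19_20_7_3_4 {n : ℕ} (hn : 6 ≤ n) : NoNd ((19 : ℕ) : ℤ) ((20 : ℕ) : ℤ) n 7 3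
    (BlkD.inB (BlkD.upd (BlkD.upd (BlkD.upd (fun _ => 0) 0 4) 1 5) 1 6)
      (BlkD.upd (BlkD.upd (BlkD.upd (BlkD.upd (BlkD.upd (BlkD.upd (BlkD.upd (fun _ => 20) 0 7) 2 3) 0 5) 0 4) 1 16) 1 8) 1 6)) :=
  BlkD.part_sound (d := d19_20_7_3) dk19_20_7_3 hn (by decide) (tr := t19_20_7_3_4)
    (by decide +kernel) rfl rfl rfl rfl

/-- the certificates of the part 5 of the pair `(7, 3)` -/
def t19_20_7_3_5 : BlkD.Tr :=
  .S 1 7 (.S 2 1 (.S 2 0 (.L 4 6 [4, 4, 5, 5] [149, 148, 146, 138, 128, 118] [] 100000 37500 37500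
    1050000 25000 0 75000 87500 0 0 25000) (.S 3 8 (.S 3 4 (.S 3 2 (.L 5 8 [4, 4, 4, 4] [149, 148,
    146, 138, 128, 118] [] 100000 31429 31429 1188573 34286 0 74286 40000 2857 11429 22857) (.L 5 8
    [4, 4, 4, 4] [149, 148, 146, 138, 128, 118] [] 100000 38889 38889 1166669 33333 0 100000 33333
    0 50000 16667)) (.E 1)) (.E 1))) (.L 5 8 [4, 4, 4, 4] [149, 148, 146, 138, 128, 118] [] 100000
    31381 31381 1187449 33054 0 80335 51046 2929 32218 16736)) (.L 5 8 [4, 4, 4, 4] [172, 171, 170,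
    168, 160, 150] [] 100000 58334 58334 1050000 50000 0 100000 50000 0 0 12500)

lemma n19_20_7_3_5 {n : ℕ} (hn : 6 ≤ n) : NoNd ((19 : ℕ) : ℤ) ((20 : ℕ) : ℤ) n 7 3
    (BlkD.inB (BlkD.upd (BlkD.upd (BlkD.upd (fun _ => 0) 0 4) 1 5) 1 7)
      (BlkD.upd (BlkD.upd (BlkD.upd (BlkD.upd (BlkD.upd (BlkD.upd (fun _ => 20) 0 7) 2 3) 0 5) 0 4) 1 16) 1 8)) :=
  BlkD.part_sound (d := d19_20_7_3) dk19_20_7_3 hn (by decide) (tr := t19_20_7_3_5)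
    (by decide +kernel) rfl rfl rfl rfl

/-- the certificates of the part 6 of the pair `(7, 3)` -/
def t19_20_7_3_6 : BlkD.Tr :=
  .L 5 8 [4, 4, 4, 4] [] [] 100000 33334 33334 1189287 3571 0 100000 96429 0 0 25000

lemma n19_20_7_3_6 {n : ℕ} (hn : 6 ≤ n) : NoNd ((19 : ℕ) : ℤ) ((20 : ℕ) : ℤ) n 7 3
    (BlkD.inB (BlkD.upd (BlkD.upd (fun _ => 0) 0 4) 1 9)
      (BlkD.upd (BlkD.upd (BlkD.upd (BlkD.upd (BlkD.upd (fun _ => 20) 0 7) 2 3) 0 5) 0 4) 1 16)) :=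
  BlkD.part_sound (d := d19_20_7_3) dk19_20_7_3 hn (by decide) (tr := t19_20_7_3_6)
    (by decide +kernel) rfl rfl rfl rfl

/-- the certificates of the part 7 of the pair `(7, 3)` -/
def t19_20_7_3_7 : BlkD.Tr :=
  .E 0

lemma n19_20_7_3_7 {n : ℕ} (hn : 6 ≤ n) : NoNd ((19 : ℕ) : ℤ) ((20 : ℕ) : ℤ) n 7 3
    (BlkD.inB (BlkD.upd (BlkD.upd (fun _ => 0) 0 4) 1 17)
      (BlkD.upd (BlkD.upd (BlkD.upd (BlkD.upd (fun _ => 20) 0 7) 2 3) 0 5) 0 4)) :=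
  BlkD.part_sound (d := d19_20_7_3) dk19_20_7_3 hn (by decide) (tr := t19_20_7_3_7)
    (by decide +kernel) rfl rfl rfl rfl

/-- the certificates of the part 8 of the pair `(7, 3)` -/
def t19_20_7_3_8 : BlkD.Tr :=
  .S 1 1 (.L 5 8 [4, 4, 4, 4] [] [] 100000 33334 33334 1100000 0 0 0 0 0 0 0) (.S 1 2 (.L 5 8 [4,
    4, 4, 4] [42, 32, 22, 0, 0, 0] [] 100000 33334 33334 1100001 50000 0 50000 33333 0 16667 16667)
    (.S 2 1 (.S 2 0 (.L 5 8 [4, 4, 4, 4] [66, 56, 46, 36, 0, 0] [] 100000 33334 33334 1000000 0 0 0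
    100000 0 0 0) (.S 3 11 (.S 3 5 (.S 3 2 (.L 5 8 [4, 4, 4, 4] [66, 56, 46, 36, 0, 0] [] 100000
    33334 33334 1100000 0 0 0 0 0 0 0) (.S 3 4 (.S 3 3 (.L 5 8 [4, 4, 4, 4] [66, 56, 46, 36, 0, 0]
    [38, 30, 22, 12, 0, 0] 100000 33334 33334 1150000 25000 25000 50000 50000 0 25000 25000) (.S 4
    3 (.S 4 1 (.L 5 8 [4, 4, 4, 4] [46, 36, 0, 0, 0, 0] [53, 46, 38, 30, 20, 0] 100000 33334 33334
    1150000 50000 0 50000 25000 0 50000 25000) (.L 5 8 [4, 4, 4, 4] [66, 56, 46, 36, 0, 0] [53, 46,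
    38, 30, 20, 0] 100000 33334 33334 1100000 0 0 100000 0 0 0 0)) (.E 2))) (.E 1))) (.E 1)) (.E
    1))) (.L 5 8 [4, 4, 4, 4] [66, 56, 46, 36, 0, 0] [] 100000 33334 33334 1166668 33333 0 33333
    33333 0 16667 16667)))

lemma n19_20_7_3_8 {n : ℕ} (hn : 6 ≤ n) : NoNd ((19 : ℕ) : ℤ) ((20 : ℕ) : ℤ) n 7 3
    (BlkD.inB (BlkD.upd (BlkD.upd (fun _ => 0) 0 4) 0 5)
      (BlkD.upd (BlkD.upd (BlkD.upd (BlkD.upd (BlkD.upd (BlkD.upd (fun _ => 20) 0 7) 2 3) 0 5) 1 15) 1 7) 1 3)) :=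
  BlkD.part_sound (d := d19_20_7_3) dk19_20_7_3 hn (by decide) (tr := t19_20_7_3_8)
    (by decide +kernel) rfl rfl rfl rfl

/-- the certificates of the part 9 of the pair `(7, 3)` -/
def t19_20_7_3_9 : BlkD.Tr :=
  .S 1 4 (.S 2 1 (.S 2 0 (.L 5 8 [4, 4, 4, 4] [92, 82, 72, 62, 52, 0] [] 100000 33334 33334 1025000
    0 0 75000 100000 0 0 0) (.S 3 10 (.S 3 5 (.S 3 2 (.L 5 8 [4, 4, 4, 4] [92, 82, 72, 62, 52, 0]
    [] 100000 30894 30894 1181711 21951 21951 43902 43902 3659 3659 15854) (.S 3 4 (.S 3 3 (.L 5 8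
    [4, 4, 4, 4] [92, 82, 72, 62, 52, 0] [38, 30, 22, 12, 0, 0] 100000 31783 31783 1193607 35465 0
    76163 36628 2326 27907 21512) (.S 4 4 (.S 4 2 (.L 5 8 [4, 4, 4, 4] [72, 62, 52, 0, 0, 0] [53,
    46, 38, 30, 20, 0] 100000 29412 29412 1205883 43137 0 100000 21569 5882 54902 21569) (.L 5 8
    [4, 4, 4, 4] [92, 82, 72, 62, 52, 0] [53, 46, 38, 30, 20, 0] 100000 31250 0 981250 12500 12500
    131250 12500 0 37500 18750)) (.E 2))) (.E 1))) (.E 1)) (.E 1))) (.L 5 8 [4, 4, 4, 4] [92, 82,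
    72, 62, 52, 0] [] 100000 29630 29630 1205560 33333 0 94444 33333 5556 33333 33333)) (.S 2 1 (.S
    2 0 (.L 5 8 [4, 4, 4, 4] [118, 110, 100, 90, 80, 70] [] 100000 33334 33334 1000000 0 0 100000
    100000 0 0 0) (.S 3 9 (.S 3 4 (.S 3 2 (.L 5 8 [4, 4, 4, 4] [118, 110, 100, 90, 80, 70] []
    100000 30444 30444 1195088 30202 14306 70520 44653 4335 9249 20159) (.S 3 3 (.L 5 8 [4, 4, 4,
    4] [118, 110, 100, 90, 80, 70] [38, 30, 22, 12, 0, 0] 100000 31482 31482 1186113 33333 0 80556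
    50000 2778 16667 16667) (.S 4 5 (.S 4 2 (.L 5 8 [4, 4, 4, 4] [90, 80, 70, 0, 0, 0] [53, 46, 38,
    30, 20, 0] 100000 41937 41937 1122579 54839 6452 100000 19355 0 35484 9677) (.L 5 8 [4, 4, 4,
    4] [118, 110, 100, 90, 80, 70] [53, 46, 38, 30, 20, 0] 100000 33334 33334 1129413 23529 23529
    100000 23529 0 52941 17647)) (.E 2)))) (.E 1)) (.E 1))) (.L 5 8 [4, 4, 4, 4] [118, 110, 100,
    90, 80, 70] [] 100000 32250 32250 1195123 34959 0 82114 43902 1626 21138 16260))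

lemma n19_20_7_3_9 {n : ℕ} (hn : 6 ≤ n) : NoNd ((19 : ℕ) : ℤ) ((20 : ℕ) : ℤ) n 7 3
    (BlkD.inB (BlkD.upd (BlkD.upd (BlkD.upd (fun _ => 0) 0 4) 0 5) 1 4)
      (BlkD.upd (BlkD.upd (BlkD.upd (BlkD.upd (BlkD.upd (BlkD.upd (fun _ => 20) 0 7) 2 3) 0 5) 1 15) 1 7) 1 5)) :=
  BlkD.part_sound (d := d19_20_7_3) dk19_20_7_3 hn (by decide) (tr := t19_20_7_3_9)
    (by decide +kernel) rfl rfl rfl rfl

/-- the certificates of the part 10 of the pair `(7, 3)` -/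
def t19_20_7_3_10 : BlkD.Tr :=
  .S 1 6 (.S 2 1 (.S 2 0 (.L 5 8 [4, 4, 4, 4] [140, 138, 130, 120, 110, 100] [] 100000 33334 33334
    1000000 0 0 100000 100000 0 0 0) (.S 3 8 (.S 3 4 (.S 3 2 (.L 5 8 [4, 4, 4, 4] [140, 138, 130,
    120, 110, 100] [] 100000 33334 33334 1160003 31429 0 88571 57143 0 11429 20000) (.L 5 8 [4, 4,
    4, 4] [140, 138, 130, 120, 110, 100] [] 100000 33334 33334 1180000 34286 8571 100000 17143 0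
    48571 14286)) (.E 1)) (.E 1))) (.L 5 8 [4, 4, 4, 4] [140, 138, 130, 120, 110, 100] [] 100000
    33334 33334 1160000 20000 0 100000 80000 0 0 20000)) (.L 5 8 [4, 4, 4, 4] [163, 162, 160, 152,
    142, 132] [] 100000 27721 27721 1151578 24211 0 100000 37895 8421 16842 24211)

lemma n19_20_7_3_10 {n : ℕ} (hn : 6 ≤ n) : NoNd ((19 : ℕ) : ℤ) ((20 : ℕ) : ℤ) n 7 3
    (BlkD.inB (BlkD.upd (BlkD.upd (BlkD.upd (BlkD.upd (fun _ => 0) 0 4) 0 5) 1 4) 1 6)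
      (BlkD.upd (BlkD.upd (BlkD.upd (BlkD.upd (BlkD.upd (fun _ => 20) 0 7) 2 3) 0 5) 1 15) 1 7)) :=
  BlkD.part_sound (d := d19_20_7_3) dk19_20_7_3 hn (by decide) (tr := t19_20_7_3_10)
    (by decide +kernel) rfl rfl rfl rfl

/-- the certificates of the part 11 of the pair `(7, 3)` -/
def t19_20_7_3_11 : BlkD.Tr :=
  .E 0

lemma n19_20_7_3_11 {n : ℕ} (hn : 6 ≤ n) : NoNd ((19 : ℕ) : ℤ) ((20 : ℕ) : ℤ) n 7 3
    (BlkD.inB (BlkD.upd (BlkD.upd (BlkD.upd (fun _ => 0) 0 4) 0 5) 1 8)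
      (BlkD.upd (BlkD.upd (BlkD.upd (BlkD.upd (fun _ => 20) 0 7) 2 3) 0 5) 1 15)) :=
  BlkD.part_sound (d := d19_20_7_3) dk19_20_7_3 hn (by decide) (tr := t19_20_7_3_11)
    (by decide +kernel) rfl rfl rfl rfl

/-- the certificates of the part 12 of the pair `(7, 3)` -/
def t19_20_7_3_12 : BlkD.Tr :=
  .E 0

lemma n19_20_7_3_12 {n : ℕ} (hn : 6 ≤ n) : NoNd ((19 : ℕ) : ℤ) ((20 : ℕ) : ℤ) n 7 3
    (BlkD.inB (BlkD.upd (BlkD.upd (BlkD.upd (fun _ => 0) 0 4) 0 5) 1 16)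
      (BlkD.upd (BlkD.upd (BlkD.upd (fun _ => 20) 0 7) 2 3) 0 5)) :=
  BlkD.part_sound (d := d19_20_7_3) dk19_20_7_3 hn (by decide) (tr := t19_20_7_3_12)
    (by decide +kernel) rfl rfl rfl rfl

/-- the certificates of the part 13 of the pair `(7, 3)` -/
def t19_20_7_3_13 : BlkD.Tr :=
  .S 0 6 (.S 1 14 (.S 1 7 (.S 1 3 (.L 5 8 [4, 4, 4, 4] [] [] 100000 30118 30118 1200662 33113 0
    95175 49669 4825 23841 24503) (.L 5 8 [4, 4, 4, 4] [] [] 100000 33334 33334 1194737 5263 0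
    100000 94737 0 0 26316)) (.E 0)) (.E 0)) (.L 5 8 [4, 4, 4, 4] [] [] 100000 2551 2551 1228572
    3571 0 67857 35714 64286 28061 25000)

lemma n19_20_7_3_13 {n : ℕ} (hn : 6 ≤ n) : NoNd ((19 : ℕ) : ℤ) ((20 : ℕ) : ℤ) n 7 3
    (BlkD.inB (BlkD.upd (BlkD.upd (fun _ => 0) 0 4) 0 6)
      (BlkD.upd (BlkD.upd (fun _ => 20) 0 7) 2 3)) :=
  BlkD.part_sound (d := d19_20_7_3) dk19_20_7_3 hn (by decide) (tr := t19_20_7_3_13)
    (by decide +kernel) rfl rfl rfl rfl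

/-- the certificates of the part 14 of the pair `(7, 3)` -/
def t19_20_7_3_14 : BlkD.Tr :=
  .E 1

lemma n19_20_7_3_14 {n : ℕ} (hn : 6 ≤ n) : NoNd ((19 : ℕ) : ℤ) ((20 : ℕ) : ℤ) n 7 3
    (BlkD.inB (BlkD.upd (fun _ => 0) 2 4)
      (BlkD.upd (fun _ => 20) 0 7)) :=
  BlkD.part_sound (d := d19_20_7_3) dk19_20_7_3 hn (by decide) (tr := t19_20_7_3_14)
    (by decide +kernel) rfl rfl rfl rfl

/-- the certificates of the part 15 of the pair `(7, 3)` -/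
def t19_20_7_3_15 : BlkD.Tr :=
  .E 0

lemma n19_20_7_3_15 {n : ℕ} (hn : 6 ≤ n) : NoNd ((19 : ℕ) : ℤ) ((20 : ℕ) : ℤ) n 7 3
    (BlkD.inB (BlkD.upd (fun _ => 0) 0 8)
      (fun _ => 20)) :=
  BlkD.part_sound (d := d19_20_7_3) dk19_20_7_3 hn (by decide) (tr := t19_20_7_3_15)
    (by decide +kernel) rfl rfl rfl rfl

lemma pr19_20_7_3 {n : ℕ} (hn : 6 ≤ n) : NoPr ((19 : ℕ) : ℤ) ((20 : ℕ) : ℤ) n 7 3 :=
  BlkD.of_root (q := 4) (by decide) hn (BlkD.sp 0 7 (BlkD.sp 2 3 (BlkD.sp 0 3 (n19_20_7_3_1 hn)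
    (BlkD.sp 0 5 (BlkD.sp 0 4 (BlkD.sp 1 16 (BlkD.sp 1 8 (BlkD.sp 1 4 (n19_20_7_3_2 hn)
    (BlkD.sp 1 6 (BlkD.sp 1 5 (n19_20_7_3_3 hn)
    (n19_20_7_3_4 hn))
    (n19_20_7_3_5 hn)))
    (n19_20_7_3_6 hn))
    (n19_20_7_3_7 hn))
    (BlkD.sp 1 15 (BlkD.sp 1 7 (BlkD.sp 1 3 (n19_20_7_3_8 hn)
    (BlkD.sp 1 5 (n19_20_7_3_9 hn)
    (n19_20_7_3_10 hn)))
    (n19_20_7_3_11 hn))
    (n19_20_7_3_12 hn)))
    (n19_20_7_3_13 hn)))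
    (n19_20_7_3_14 hn))
    (n19_20_7_3_15 hn))

/-- the numbers of the pair `(7, 4)`, `R = 19`, `H = 20` -/
def d19_20_7_4 : BlkD.Pd :=
  ⟨19, 20, 4, 7, 4, 6, 2, 2, 2, 2, 8, 0, 2, 2, 8, 0, [0, 8, 16, 18, 20, 22, 24], [0, 8, 16, 18, 20,
    22, 24], [⟨1, 1, 1, 4, 8, [0, 4], [0, 4]⟩, ⟨1, 1, 1, 4, 12, [0, 6], [0, 6]⟩, ⟨1, 1, 1, 4, 16,
    [0, 8], [0, 8]⟩]⟩

lemma dk19_20_7_4 : BlkD.pairOk d19_20_7_4 = true := by decide +kernel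

/-- the certificates of the part 1 of the pair `(7, 4)` -/
def t19_20_7_4_1 : BlkD.Tr :=
  .L 5 6 [4, 4, 4, 19, 19] [] [] 100000 75000 75000 800000 100000 0 100000 50000 0 0 0

lemma n19_20_7_4_1 {n : ℕ} (hn : 6 ≤ n) : NoNd ((19 : ℕ) : ℤ) ((20 : ℕ) : ℤ) n 7 4
    (BlkD.inB (fun _ => 0)
      (BlkD.upd (BlkD.upd (BlkD.upd (BlkD.upd (fun _ => 20) 0 7) 2 4) 0 3) 0 1)) :=
  BlkD.part_sound (d := d19_20_7_4) dk19_20_7_4 hn (by decide) (tr := t19_20_7_4_1)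
    (by decide +kernel) rfl rfl rfl rfl

/-- the certificates of the part 2 of the pair `(7, 4)` -/
def t19_20_7_4_2 : BlkD.Tr :=
  .L 5 6 [4, 4, 4, 19, 19] [] [] 100000 103573 103573 1114286 71429 0 85714 57143 0 0 21429

lemma n19_20_7_4_2 {n : ℕ} (hn : 6 ≤ n) : NoNd ((19 : ℕ) : ℤ) ((20 : ℕ) : ℤ) n 7 4
    (BlkD.inB (BlkD.upd (fun _ => 0) 0 2)
      (BlkD.upd (BlkD.upd (BlkD.upd (BlkD.upd (fun _ => 20) 0 7) 2 4) 0 3) 0 2)) :=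
  BlkD.part_sound (d := d19_20_7_4) dk19_20_7_4 hn (by decide) (tr := t19_20_7_4_2)
    (by decide +kernel) rfl rfl rfl rfl

/-- the certificates of the part 3 of the pair `(7, 4)` -/
def t19_20_7_4_3 : BlkD.Tr :=
  .S 1 4 (.L 5 6 [4, 4, 4, 19, 19] [] [] 100000 7143 7143 1271429 14286 7143 14286 35714 0 0 0) (.S
    1 6 (.S 1 5 (.L 5 6 [4, 4, 4, 19, 19] [90, 88, 80, 72, 62, 50] [] 100000 0 0 1331429 22857 0
    22857 51429 0 25714 11429) (.L 5 6 [4, 4, 4, 19, 19] [108, 106, 104, 96, 88, 78] [] 100000 4000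
    4000 1360000 28000 0 48000 36000 0 20000 16000)) (.S 1 7 (.L 5 6 [4, 4, 4, 19, 19] [128, 126,
    124, 122, 114, 106] [] 100000 5000 5000 1380000 30000 0 60000 40000 0 20000 10000) (.L 5 6 [4,
    4, 4, 19, 19] [150, 148, 146, 144, 142, 134] [] 100000 23438 23438 1325000 37500 0 81250 43750
    0 12500 28125)))

lemma n19_20_7_4_3 {n : ℕ} (hn : 6 ≤ n) : NoNd ((19 : ℕ) : ℤ) ((20 : ℕ) : ℤ) n 7 4
    (BlkD.inB (BlkD.upd (BlkD.upd (fun _ => 0) 0 2) 0 3)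
      (BlkD.upd (BlkD.upd (BlkD.upd (BlkD.upd (BlkD.upd (fun _ => 20) 0 7) 2 4) 0 3) 1 17) 1 8)) :=
  BlkD.part_sound (d := d19_20_7_4) dk19_20_7_4 hn (by decide) (tr := t19_20_7_4_3)
    (by decide +kernel) rfl rfl rfl rfl

/-- the certificates of the part 4 of the pair `(7, 4)` -/
def t19_20_7_4_4 : BlkD.Tr :=
  .S 1 13 (.S 1 11 (.S 1 10 (.S 1 9 (.L 5 6 [4, 4, 4, 19, 19] [174, 172, 170, 168, 166, 164] []
    100000 100000 80952 1023810 85714 0 119048 47619 0 0 4762) (.L 5 6 [4, 4, 4, 19, 19] [200, 198,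
    196, 194, 192, 190] [] 100000 133334 1 500001 100000 0 233333 100000 0 0 33333)) (.E 0)) (.E
    0)) (.E 0)

lemma n19_20_7_4_4 {n : ℕ} (hn : 6 ≤ n) : NoNd ((19 : ℕ) : ℤ) ((20 : ℕ) : ℤ) n 7 4
    (BlkD.inB (BlkD.upd (BlkD.upd (BlkD.upd (fun _ => 0) 0 2) 0 3) 1 9)
      (BlkD.upd (BlkD.upd (BlkD.upd (BlkD.upd (fun _ => 20) 0 7) 2 4) 0 3) 1 17)) :=
  BlkD.part_sound (d := d19_20_7_4) dk19_20_7_4 hn (by decide) (tr := t19_20_7_4_4)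
    (by decide +kernel) rfl rfl rfl rfl

/-- the certificates of the part 5 of the pair `(7, 4)` -/
def t19_20_7_4_5 : BlkD.Tr :=
  .E 0

lemma n19_20_7_4_5 {n : ℕ} (hn : 6 ≤ n) : NoNd ((19 : ℕ) : ℤ) ((20 : ℕ) : ℤ) n 7 4
    (BlkD.inB (BlkD.upd (BlkD.upd (BlkD.upd (fun _ => 0) 0 2) 0 3) 1 18)
      (BlkD.upd (BlkD.upd (BlkD.upd (fun _ => 20) 0 7) 2 4) 0 3)) :=
  BlkD.part_sound (d := d19_20_7_4) dk19_20_7_4 hn (by decide) (tr := t19_20_7_4_5)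
    (by decide +kernel) rfl rfl rfl rfl

/-- the certificates of the part 6 of the pair `(7, 4)` -/
def t19_20_7_4_6 : BlkD.Tr :=
  .L 5 6 [4, 4, 4, 19, 19] [] [] 100000 3334 3334 1320000 26667 0 53333 53333 0 20000 10000

lemma n19_20_7_4_6 {n : ℕ} (hn : 6 ≤ n) : NoNd ((19 : ℕ) : ℤ) ((20 : ℕ) : ℤ) n 7 4
    (BlkD.inB (BlkD.upd (fun _ => 0) 0 4)
      (BlkD.upd (BlkD.upd (BlkD.upd (BlkD.upd (BlkD.upd (BlkD.upd (BlkD.upd (fun _ => 20) 0 7) 2 4) 0 5) 0 4) 1 16) 1 8) 1 4)) :=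
  BlkD.part_sound (d := d19_20_7_4) dk19_20_7_4 hn (by decide) (tr := t19_20_7_4_6)
    (by decide +kernel) rfl rfl rfl rfl

/-- the certificates of the part 7 of the pair `(7, 4)` -/
def t19_20_7_4_7 : BlkD.Tr :=
  .S 1 6 (.S 1 5 (.L 5 6 [4, 4, 4, 19, 19] [100, 98, 90, 82, 72, 60] [] 100000 2565 2565 1371796
    25641 641 50000 53846 0 20513 10256) (.S 2 2 (.S 2 1 (.L 5 6 [4, 4, 4, 19, 19] [120, 118, 116,
    108, 100, 90] [] 100000 62500 62500 1212500 37500 50000 75000 75000 0 0 25000) (.L 5 6 [4, 4,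
    4, 19, 19] [120, 118, 116, 108, 100, 90] [] 100000 3386 3386 1384375 25000 0 90625 41146 1562
    16667 25000)) (.L 5 6 [4, 4, 4, 19, 19] [120, 118, 116, 108, 100, 90] [] 100000 0 0 1371430
    28571 0 57143 42857 0 28571 14286))) (.S 1 7 (.L 5 6 [4, 4, 4, 19, 19] [142, 140, 138, 136,
    128, 120] [] 100000 10982 10982 1355140 28972 0 93458 32243 0 7009 19626) (.L 5 6 [4, 4, 4, 19,
    19] [166, 164, 162, 160, 158, 150] [] 100000 18334 10001 1230000 41667 0 108333 28333 0 5000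
    16667))

lemma n19_20_7_4_7 {n : ℕ} (hn : 6 ≤ n) : NoNd ((19 : ℕ) : ℤ) ((20 : ℕ) : ℤ) n 7 4
    (BlkD.inB (BlkD.upd (BlkD.upd (fun _ => 0) 0 4) 1 5)
      (BlkD.upd (BlkD.upd (BlkD.upd (BlkD.upd (BlkD.upd (BlkD.upd (fun _ => 20) 0 7) 2 4) 0 5) 0 4) 1 16) 1 8)) :=
  BlkD.part_sound (d := d19_20_7_4) dk19_20_7_4 hn (by decide) (tr := t19_20_7_4_7)
    (by decide +kernel) rfl rfl rfl rfl

/-- the certificates of the part 8 of the pair `(7, 4)` -/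
def t19_20_7_4_8 : BlkD.Tr :=
  .L 5 6 [4, 4, 4, 19, 19] [] [] 100000 183333 0 2 0 0 283333 25000 0 0 0

lemma n19_20_7_4_8 {n : ℕ} (hn : 6 ≤ n) : NoNd ((19 : ℕ) : ℤ) ((20 : ℕ) : ℤ) n 7 4
    (BlkD.inB (BlkD.upd (BlkD.upd (fun _ => 0) 0 4) 1 9)
      (BlkD.upd (BlkD.upd (BlkD.upd (BlkD.upd (BlkD.upd (fun _ => 20) 0 7) 2 4) 0 5) 0 4) 1 16)) :=
  BlkD.part_sound (d := d19_20_7_4) dk19_20_7_4 hn (by decide) (tr := t19_20_7_4_8)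
    (by decide +kernel) rfl rfl rfl rfl

/-- the certificates of the part 9 of the pair `(7, 4)` -/
def t19_20_7_4_9 : BlkD.Tr :=
  .E 0

lemma n19_20_7_4_9 {n : ℕ} (hn : 6 ≤ n) : NoNd ((19 : ℕ) : ℤ) ((20 : ℕ) : ℤ) n 7 4
    (BlkD.inB (BlkD.upd (BlkD.upd (fun _ => 0) 0 4) 1 17)
      (BlkD.upd (BlkD.upd (BlkD.upd (BlkD.upd (fun _ => 20) 0 7) 2 4) 0 5) 0 4)) :=
  BlkD.part_sound (d := d19_20_7_4) dk19_20_7_4 hn (by decide) (tr := t19_20_7_4_9)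
    (by decide +kernel) rfl rfl rfl rfl

/-- the certificates of the part 10 of the pair `(7, 4)` -/
def t19_20_7_4_10 : BlkD.Tr :=
  .S 1 15 (.S 1 7 (.S 1 3 (.L 5 6 [4, 4, 4, 19, 19] [] [] 100000 1 1 1338462 23077 7692 30769 76923
    0 23077 11538) (.S 1 5 (.S 1 4 (.L 5 6 [4, 4, 4, 19, 19] [90, 82, 74, 64, 52, 0] [] 100000 1 1
    1392308 26923 0 65385 53846 7692 19231 9615) (.L 5 6 [4, 4, 4, 19, 19] [110, 108, 100, 92, 82,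
    70] [] 100000 1869 1869 1372022 18887 6695 82311 52431 916 14235 33333)) (.L 5 6 [4, 4, 4, 19,
    19] [] [] 100000 1192 1192 1357144 14286 0 100000 30952 0 11905 14286))) (.E 0)) (.E 0)

lemma n19_20_7_4_10 {n : ℕ} (hn : 6 ≤ n) : NoNd ((19 : ℕ) : ℤ) ((20 : ℕ) : ℤ) n 7 4
    (BlkD.inB (BlkD.upd (BlkD.upd (fun _ => 0) 0 4) 0 5)
      (BlkD.upd (BlkD.upd (BlkD.upd (fun _ => 20) 0 7) 2 4) 0 5)) :=
  BlkD.part_sound (d := d19_20_7_4) dk19_20_7_4 hn (by decide) (tr := t19_20_7_4_10)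
    (by decide +kernel) rfl rfl rfl rfl

/-- the certificates of the part 11 of the pair `(7, 4)` -/
def t19_20_7_4_11 : BlkD.Tr :=
  .L 5 6 [4, 4, 4, 19, 19] [] [] 100000 3 3 1389092 5455 2727 52727 86364 0 13636 26364

lemma n19_20_7_4_11 {n : ℕ} (hn : 6 ≤ n) : NoNd ((19 : ℕ) : ℤ) ((20 : ℕ) : ℤ) n 7 4
    (BlkD.inB (BlkD.upd (BlkD.upd (fun _ => 0) 0 4) 0 6)
      (BlkD.upd (BlkD.upd (fun _ => 20) 0 7) 2 4)) :=
  BlkD.part_sound (d := d19_20_7_4) dk19_20_7_4 hn (by decide) (tr := t19_20_7_4_11)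
    (by decide +kernel) rfl rfl rfl rfl

/-- the certificates of the part 12 of the pair `(7, 4)` -/
def t19_20_7_4_12 : BlkD.Tr :=
  .E 1

lemma n19_20_7_4_12 {n : ℕ} (hn : 6 ≤ n) : NoNd ((19 : ℕ) : ℤ) ((20 : ℕ) : ℤ) n 7 4
    (BlkD.inB (BlkD.upd (fun _ => 0) 2 5)
      (BlkD.upd (fun _ => 20) 0 7)) :=
  BlkD.part_sound (d := d19_20_7_4) dk19_20_7_4 hn (by decide) (tr := t19_20_7_4_12)
    (by decide +kernel) rfl rfl rfl rfl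

/-- the certificates of the part 13 of the pair `(7, 4)` -/
def t19_20_7_4_13 : BlkD.Tr :=
  .E 0

lemma n19_20_7_4_13 {n : ℕ} (hn : 6 ≤ n) : NoNd ((19 : ℕ) : ℤ) ((20 : ℕ) : ℤ) n 7 4
    (BlkD.inB (BlkD.upd (fun _ => 0) 0 8)
      (fun _ => 20)) :=
  BlkD.part_sound (d := d19_20_7_4) dk19_20_7_4 hn (by decide) (tr := t19_20_7_4_13)
    (by decide +kernel) rfl rfl rfl rfl

lemma pr19_20_7_4 {n : ℕ} (hn : 6 ≤ n) : NoPr ((19 : ℕ) : ℤ) ((20 : ℕ) : ℤ) n 7 4 :=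
  BlkD.of_root (q := 4) (by decide) hn (BlkD.sp 0 7 (BlkD.sp 2 4 (BlkD.sp 0 3 (BlkD.sp 0 1 (n19_20_7_4_1 hn)
    (BlkD.sp 0 2 (n19_20_7_4_2 hn)
    (BlkD.sp 1 17 (BlkD.sp 1 8 (n19_20_7_4_3 hn)
    (n19_20_7_4_4 hn))
    (n19_20_7_4_5 hn))))
    (BlkD.sp 0 5 (BlkD.sp 0 4 (BlkD.sp 1 16 (BlkD.sp 1 8 (BlkD.sp 1 4 (n19_20_7_4_6 hn)
    (n19_20_7_4_7 hn))
    (n19_20_7_4_8 hn))
    (n19_20_7_4_9 hn))
    (n19_20_7_4_10 hn))
    (n19_20_7_4_11 hn)))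
    (n19_20_7_4_12 hn))
    (n19_20_7_4_13 hn))

end BlkC

end Pool.Agent.Lib.MP_f04ccf_co
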