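import Pool.Agent.Lib.MP_f04ccf_co.M.BlkTp

/-!
MP_f04ccf_co, block certificate, data `R = 19`, `H = 20`, part 4 (certificates: helper99, bd9.cpp).
-/

set_option autoImplicit false
set_option maxRecDepth 100000

namespace Pool.Agent.Lib.MP_f04ccf_co

namespace BlkC

/-- the numbers of the pair `(7, 5)`, `R = 19`, `H = 20` -/
def d19_20_7_5 : BlkD.Pd :=
  ⟨19, 20, 4, 7, 5, 5, 1, 3, 2, 2, 6, 0, 2, 2, 6, 0, [0, 6, 12, 16, 18, 20], [0, 6, 12, 16, 18,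
    20], [⟨1, 1, 1, 4, 8, [0, 4], [0, 4]⟩, ⟨1, 1, 1, 4, 12, [0, 6], [0, 6]⟩]⟩

lemma dk19_20_7_5 : BlkD.pairOk d19_20_7_5 = true := by decide +kernel

/-- the certificates of the part 1 of the pair `(7, 5)` -/
def t19_20_7_5_1 : BlkD.Tr :=
  .L 6 6 [4, 3, 19, 19, 19, 19] [] [] 100000 1 1 1433333 66667 66667 66667 66667 0 0 0

lemma n19_20_7_5_1 {n : ℕ} (hn : 6 ≤ n) : NoNd ((19 : ℕ) : ℤ) ((20 : ℕ) : ℤ) n 7 5
    (BlkD.inB (fun _ => 0)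
      (BlkD.upd (BlkD.upd (BlkD.upd (BlkD.upd (BlkD.upd (fun _ => 20) 0 7) 2 5) 0 3) 0 1) 0 0)) :=
  BlkD.part_sound (d := d19_20_7_5) dk19_20_7_5 hn (by decide) (tr := t19_20_7_5_1)
    (by decide +kernel) rfl rfl rfl rfl

/-- the certificates of the part 2 of the pair `(7, 5)` -/
def t19_20_7_5_2 : BlkD.Tr :=
  .L 6 6 [4, 3, 19, 19, 19, 19] [] [] 100000 1 1 1433333 66667 66667 66667 66667 0 0 0

lemma n19_20_7_5_2 {n : ℕ} (hn : 6 ≤ n) : NoNd ((19 : ℕ) : ℤ) ((20 : ℕ) : ℤ) n 7 5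
    (BlkD.inB (BlkD.upd (fun _ => 0) 0 1)
      (BlkD.upd (BlkD.upd (BlkD.upd (BlkD.upd (fun _ => 20) 0 7) 2 5) 0 3) 0 1)) :=
  BlkD.part_sound (d := d19_20_7_5) dk19_20_7_5 hn (by decide) (tr := t19_20_7_5_2)
    (by decide +kernel) rfl rfl rfl rfl

/-- the certificates of the part 3 of the pair `(7, 5)` -/
def t19_20_7_5_3 : BlkD.Tr :=
  .L 6 6 [4, 3, 19, 19, 19, 19] [] [] 100000 1 1 1433333 66667 66667 66667 66667 0 0 0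

lemma n19_20_7_5_3 {n : ℕ} (hn : 6 ≤ n) : NoNd ((19 : ℕ) : ℤ) ((20 : ℕ) : ℤ) n 7 5
    (BlkD.inB (BlkD.upd (fun _ => 0) 0 2)
      (BlkD.upd (BlkD.upd (BlkD.upd (BlkD.upd (fun _ => 20) 0 7) 2 5) 0 3) 0 2)) :=
  BlkD.part_sound (d := d19_20_7_5) dk19_20_7_5 hn (by decide) (tr := t19_20_7_5_3)
    (by decide +kernel) rfl rfl rfl rfl

/-- the certificates of the part 4 of the pair `(7, 5)` -/
def t19_20_7_5_4 : BlkD.Tr :=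
  .L 6 6 [4, 3, 19, 19, 19, 19] [] [] 100000 1 1 1433333 66667 66667 66667 66667 0 0 0

lemma n19_20_7_5_4 {n : ℕ} (hn : 6 ≤ n) : NoNd ((19 : ℕ) : ℤ) ((20 : ℕ) : ℤ) n 7 5
    (BlkD.inB (BlkD.upd (BlkD.upd (fun _ => 0) 0 2) 0 3)
      (BlkD.upd (BlkD.upd (BlkD.upd (fun _ => 20) 0 7) 2 5) 0 3)) :=
  BlkD.part_sound (d := d19_20_7_5) dk19_20_7_5 hn (by decide) (tr := t19_20_7_5_4)
    (by decide +kernel) rfl rfl rfl rfl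

/-- the certificates of the part 5 of the pair `(7, 5)` -/
def t19_20_7_5_5 : BlkD.Tr :=
  .L 6 6 [4, 3, 19, 19, 19, 19] [] [] 100000 1 1 1433333 66667 66667 66667 66667 0 0 0

lemma n19_20_7_5_5 {n : ℕ} (hn : 6 ≤ n) : NoNd ((19 : ℕ) : ℤ) ((20 : ℕ) : ℤ) n 7 5
    (BlkD.inB (BlkD.upd (fun _ => 0) 0 4)
      (BlkD.upd (BlkD.upd (BlkD.upd (BlkD.upd (fun _ => 20) 0 7) 2 5) 0 5) 0 4)) :=
  BlkD.part_sound (d := d19_20_7_5) dk19_20_7_5 hn (by decide) (tr := t19_20_7_5_5)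
    (by decide +kernel) rfl rfl rfl rfl

/-- the certificates of the part 6 of the pair `(7, 5)` -/
def t19_20_7_5_6 : BlkD.Tr :=
  .L 6 6 [4, 3, 19, 19, 19, 19] [] [] 100000 1 1 1433333 66667 66667 66667 66667 0 0 0

lemma n19_20_7_5_6 {n : ℕ} (hn : 6 ≤ n) : NoNd ((19 : ℕ) : ℤ) ((20 : ℕ) : ℤ) n 7 5
    (BlkD.inB (BlkD.upd (BlkD.upd (fun _ => 0) 0 4) 0 5)
      (BlkD.upd (BlkD.upd (BlkD.upd (fun _ => 20) 0 7) 2 5) 0 5)) :=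
  BlkD.part_sound (d := d19_20_7_5) dk19_20_7_5 hn (by decide) (tr := t19_20_7_5_6)
    (by decide +kernel) rfl rfl rfl rfl

/-- the certificates of the part 7 of the pair `(7, 5)` -/
def t19_20_7_5_7 : BlkD.Tr :=
  .L 6 6 [4, 3, 19, 19, 19, 19] [] [] 100000 1 1 1433333 66667 66667 66667 66667 0 0 0

lemma n19_20_7_5_7 {n : ℕ} (hn : 6 ≤ n) : NoNd ((19 : ℕ) : ℤ) ((20 : ℕ) : ℤ) n 7 5
    (BlkD.inB (BlkD.upd (BlkD.upd (fun _ => 0) 0 4) 0 6)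
      (BlkD.upd (BlkD.upd (BlkD.upd (fun _ => 20) 0 7) 2 5) 0 6)) :=
  BlkD.part_sound (d := d19_20_7_5) dk19_20_7_5 hn (by decide) (tr := t19_20_7_5_7)
    (by decide +kernel) rfl rfl rfl rfl

/-- the certificates of the part 8 of the pair `(7, 5)` -/
def t19_20_7_5_8 : BlkD.Tr :=
  .L 6 6 [4, 3, 19, 19, 19, 19] [] [] 100000 1 1 1433333 66667 66667 66667 66667 0 0 0

lemma n19_20_7_5_8 {n : ℕ} (hn : 6 ≤ n) : NoNd ((19 : ℕ) : ℤ) ((20 : ℕ) : ℤ) n 7 5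
    (BlkD.inB (BlkD.upd (BlkD.upd (BlkD.upd (fun _ => 0) 0 4) 0 6) 0 7)
      (BlkD.upd (BlkD.upd (fun _ => 20) 0 7) 2 5)) :=
  BlkD.part_sound (d := d19_20_7_5) dk19_20_7_5 hn (by decide) (tr := t19_20_7_5_8)
    (by decide +kernel) rfl rfl rfl rfl

/-- the certificates of the part 9 of the pair `(7, 5)` -/
def t19_20_7_5_9 : BlkD.Tr :=
  .E 1

lemma n19_20_7_5_9 {n : ℕ} (hn : 6 ≤ n) : NoNd ((19 : ℕ) : ℤ) ((20 : ℕ) : ℤ) n 7 5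
    (BlkD.inB (BlkD.upd (fun _ => 0) 2 6)
      (BlkD.upd (fun _ => 20) 0 7)) :=
  BlkD.part_sound (d := d19_20_7_5) dk19_20_7_5 hn (by decide) (tr := t19_20_7_5_9)
    (by decide +kernel) rfl rfl rfl rfl

/-- the certificates of the part 10 of the pair `(7, 5)` -/
def t19_20_7_5_10 : BlkD.Tr :=
  .E 0

lemma n19_20_7_5_10 {n : ℕ} (hn : 6 ≤ n) : NoNd ((19 : ℕ) : ℤ) ((20 : ℕ) : ℤ) n 7 5
    (BlkD.inB (BlkD.upd (fun _ => 0) 0 8)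
      (fun _ => 20)) :=
  BlkD.part_sound (d := d19_20_7_5) dk19_20_7_5 hn (by decide) (tr := t19_20_7_5_10)
    (by decide +kernel) rfl rfl rfl rfl

lemma pr19_20_7_5 {n : ℕ} (hn : 6 ≤ n) : NoPr ((19 : ℕ) : ℤ) ((20 : ℕ) : ℤ) n 7 5 :=
  BlkD.of_root (q := 4) (by decide) hn (BlkD.sp 0 7 (BlkD.sp 2 5 (BlkD.sp 0 3 (BlkD.sp 0 1 (BlkD.sp 0 0 (n19_20_7_5_1 hn)
    (n19_20_7_5_2 hn))
    (BlkD.sp 0 2 (n19_20_7_5_3 hn)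
    (n19_20_7_5_4 hn)))
    (BlkD.sp 0 5 (BlkD.sp 0 4 (n19_20_7_5_5 hn)
    (n19_20_7_5_6 hn))
    (BlkD.sp 0 6 (n19_20_7_5_7 hn)
    (n19_20_7_5_8 hn))))
    (n19_20_7_5_9 hn))
    (n19_20_7_5_10 hn))

/-- the numbers of the pair `(7, 6)`, `R = 19`, `H = 20` -/
def d19_20_7_6 : BlkD.Pd :=
  ⟨19, 20, 4, 7, 6, 4, 0, 4, 0, 4, 4, 0, 0, 4, 4, 0, [0, 4, 8, 12, 16], [0, 4, 8, 12, 16], [⟨1, 1,
    1, 4, 8, [0, 4], [0, 4]⟩]⟩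

lemma dk19_20_7_6 : BlkD.pairOk d19_20_7_6 = true := by decide +kernel

/-- the certificates of the part 1 of the pair `(7, 6)` -/
def t19_20_7_6_1 : BlkD.Tr :=
  .L 3 3 [4, 19, 19, 19, 19, 19, 19] [] [] 100000 0 0 1500000 50000 50000 100000 100000 0 0 0

lemma n19_20_7_6_1 {n : ℕ} (hn : 6 ≤ n) : NoNd ((19 : ℕ) : ℤ) ((20 : ℕ) : ℤ) n 7 6
    (BlkD.inB (fun _ => 0)
      (BlkD.upd (BlkD.upd (BlkD.upd (BlkD.upd (BlkD.upd (BlkD.upd (fun _ => 20) 0 7) 2 6) 0 3) 0 1) 0 0) 1 10)) :=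
  BlkD.part_sound (d := d19_20_7_6) dk19_20_7_6 hn (by decide) (tr := t19_20_7_6_1)
    (by decide +kernel) rfl rfl rfl rfl

/-- the certificates of the part 2 of the pair `(7, 6)` -/
def t19_20_7_6_2 : BlkD.Tr :=
  .L 3 3 [4, 19, 19, 19, 19, 19, 19] [] [] 100000 0 0 1500000 50000 50000 100000 100000 0 0 0

lemma n19_20_7_6_2 {n : ℕ} (hn : 6 ≤ n) : NoNd ((19 : ℕ) : ℤ) ((20 : ℕ) : ℤ) n 7 6
    (BlkD.inB (BlkD.upd (fun _ => 0) 1 11)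
      (BlkD.upd (BlkD.upd (BlkD.upd (BlkD.upd (BlkD.upd (fun _ => 20) 0 7) 2 6) 0 3) 0 1) 0 0)) :=
  BlkD.part_sound (d := d19_20_7_6) dk19_20_7_6 hn (by decide) (tr := t19_20_7_6_2)
    (by decide +kernel) rfl rfl rfl rfl

/-- the certificates of the part 3 of the pair `(7, 6)` -/
def t19_20_7_6_3 : BlkD.Tr :=
  .L 3 3 [4, 19, 19, 19, 19, 19, 19] [] [] 100000 0 0 1500000 50000 50000 100000 100000 0 0 0

lemma n19_20_7_6_3 {n : ℕ} (hn : 6 ≤ n) : NoNd ((19 : ℕ) : ℤ) ((20 : ℕ) : ℤ) n 7 6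
    (BlkD.inB (BlkD.upd (fun _ => 0) 0 1)
      (BlkD.upd (BlkD.upd (BlkD.upd (BlkD.upd (BlkD.upd (fun _ => 20) 0 7) 2 6) 0 3) 0 1) 1 10)) :=
  BlkD.part_sound (d := d19_20_7_6) dk19_20_7_6 hn (by decide) (tr := t19_20_7_6_3)
    (by decide +kernel) rfl rfl rfl rfl

/-- the certificates of the part 4 of the pair `(7, 6)` -/
def t19_20_7_6_4 : BlkD.Tr :=
  .L 3 3 [4, 19, 19, 19, 19, 19, 19] [] [] 100000 0 0 1500000 50000 50000 100000 100000 0 0 0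

lemma n19_20_7_6_4 {n : ℕ} (hn : 6 ≤ n) : NoNd ((19 : ℕ) : ℤ) ((20 : ℕ) : ℤ) n 7 6
    (BlkD.inB (BlkD.upd (BlkD.upd (fun _ => 0) 0 1) 1 11)
      (BlkD.upd (BlkD.upd (BlkD.upd (BlkD.upd (fun _ => 20) 0 7) 2 6) 0 3) 0 1)) :=
  BlkD.part_sound (d := d19_20_7_6) dk19_20_7_6 hn (by decide) (tr := t19_20_7_6_4)
    (by decide +kernel) rfl rfl rfl rfl

/-- the certificates of the part 5 of the pair `(7, 6)` -/
def t19_20_7_6_5 : BlkD.Tr :=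
  .L 3 3 [4, 19, 19, 19, 19, 19, 19] [] [] 100000 0 0 1500000 50000 50000 100000 100000 0 0 0

lemma n19_20_7_6_5 {n : ℕ} (hn : 6 ≤ n) : NoNd ((19 : ℕ) : ℤ) ((20 : ℕ) : ℤ) n 7 6
    (BlkD.inB (BlkD.upd (fun _ => 0) 0 2)
      (BlkD.upd (BlkD.upd (BlkD.upd (BlkD.upd (BlkD.upd (fun _ => 20) 0 7) 2 6) 0 3) 0 2) 1 10)) :=
  BlkD.part_sound (d := d19_20_7_6) dk19_20_7_6 hn (by decide) (tr := t19_20_7_6_5)
    (by decide +kernel) rfl rfl rfl rfl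

/-- the certificates of the part 6 of the pair `(7, 6)` -/
def t19_20_7_6_6 : BlkD.Tr :=
  .L 3 3 [4, 19, 19, 19, 19, 19, 19] [] [] 100000 0 0 1500000 50000 50000 100000 100000 0 0 0

lemma n19_20_7_6_6 {n : ℕ} (hn : 6 ≤ n) : NoNd ((19 : ℕ) : ℤ) ((20 : ℕ) : ℤ) n 7 6
    (BlkD.inB (BlkD.upd (BlkD.upd (fun _ => 0) 0 2) 1 11)
      (BlkD.upd (BlkD.upd (BlkD.upd (BlkD.upd (fun _ => 20) 0 7) 2 6) 0 3) 0 2)) :=
  BlkD.part_sound (d := d19_20_7_6) dk19_20_7_6 hn (by decide) (tr := t19_20_7_6_6)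
    (by decide +kernel) rfl rfl rfl rfl

/-- the certificates of the part 7 of the pair `(7, 6)` -/
def t19_20_7_6_7 : BlkD.Tr :=
  .L 3 3 [4, 19, 19, 19, 19, 19, 19] [] [] 100000 0 0 1500000 50000 50000 100000 100000 0 0 0

lemma n19_20_7_6_7 {n : ℕ} (hn : 6 ≤ n) : NoNd ((19 : ℕ) : ℤ) ((20 : ℕ) : ℤ) n 7 6
    (BlkD.inB (BlkD.upd (BlkD.upd (fun _ => 0) 0 2) 0 3)
      (BlkD.upd (BlkD.upd (BlkD.upd (BlkD.upd (fun _ => 20) 0 7) 2 6) 0 3) 1 10)) :=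
  BlkD.part_sound (d := d19_20_7_6) dk19_20_7_6 hn (by decide) (tr := t19_20_7_6_7)
    (by decide +kernel) rfl rfl rfl rfl

/-- the certificates of the part 8 of the pair `(7, 6)` -/
def t19_20_7_6_8 : BlkD.Tr :=
  .L 3 3 [4, 19, 19, 19, 19, 19, 19] [] [] 100000 0 0 1500000 50000 50000 100000 100000 0 0 0

lemma n19_20_7_6_8 {n : ℕ} (hn : 6 ≤ n) : NoNd ((19 : ℕ) : ℤ) ((20 : ℕ) : ℤ) n 7 6
    (BlkD.inB (BlkD.upd (BlkD.upd (BlkD.upd (fun _ => 0) 0 2) 0 3) 1 11)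
      (BlkD.upd (BlkD.upd (BlkD.upd (fun _ => 20) 0 7) 2 6) 0 3)) :=
  BlkD.part_sound (d := d19_20_7_6) dk19_20_7_6 hn (by decide) (tr := t19_20_7_6_8)
    (by decide +kernel) rfl rfl rfl rfl

/-- the certificates of the part 9 of the pair `(7, 6)` -/
def t19_20_7_6_9 : BlkD.Tr :=
  .L 3 3 [4, 19, 19, 19, 19, 19, 19] [] [] 100000 0 0 1500000 50000 50000 100000 100000 0 0 0

lemma n19_20_7_6_9 {n : ℕ} (hn : 6 ≤ n) : NoNd ((19 : ℕ) : ℤ) ((20 : ℕ) : ℤ) n 7 6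
    (BlkD.inB (BlkD.upd (fun _ => 0) 0 4)
      (BlkD.upd (BlkD.upd (BlkD.upd (BlkD.upd (BlkD.upd (fun _ => 20) 0 7) 2 6) 0 5) 0 4) 1 10)) :=
  BlkD.part_sound (d := d19_20_7_6) dk19_20_7_6 hn (by decide) (tr := t19_20_7_6_9)
    (by decide +kernel) rfl rfl rfl rfl

/-- the certificates of the part 10 of the pair `(7, 6)` -/
def t19_20_7_6_10 : BlkD.Tr :=
  .L 3 3 [4, 19, 19, 19, 19, 19, 19] [] [] 100000 0 0 1500000 50000 50000 100000 100000 0 0 0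

lemma n19_20_7_6_10 {n : ℕ} (hn : 6 ≤ n) : NoNd ((19 : ℕ) : ℤ) ((20 : ℕ) : ℤ) n 7 6
    (BlkD.inB (BlkD.upd (BlkD.upd (fun _ => 0) 0 4) 1 11)
      (BlkD.upd (BlkD.upd (BlkD.upd (BlkD.upd (fun _ => 20) 0 7) 2 6) 0 5) 0 4)) :=
  BlkD.part_sound (d := d19_20_7_6) dk19_20_7_6 hn (by decide) (tr := t19_20_7_6_10)
    (by decide +kernel) rfl rfl rfl rfl

/-- the certificates of the part 11 of the pair `(7, 6)` -/
def t19_20_7_6_11 : BlkD.Tr :=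
  .L 3 3 [4, 19, 19, 19, 19, 19, 19] [] [] 100000 0 0 1500000 50000 50000 100000 100000 0 0 0

lemma n19_20_7_6_11 {n : ℕ} (hn : 6 ≤ n) : NoNd ((19 : ℕ) : ℤ) ((20 : ℕ) : ℤ) n 7 6
    (BlkD.inB (BlkD.upd (BlkD.upd (fun _ => 0) 0 4) 0 5)
      (BlkD.upd (BlkD.upd (BlkD.upd (BlkD.upd (fun _ => 20) 0 7) 2 6) 0 5) 1 10)) :=
  BlkD.part_sound (d := d19_20_7_6) dk19_20_7_6 hn (by decide) (tr := t19_20_7_6_11)
    (by decide +kernel) rfl rfl rfl rfl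

/-- the certificates of the part 12 of the pair `(7, 6)` -/
def t19_20_7_6_12 : BlkD.Tr :=
  .L 3 3 [4, 19, 19, 19, 19, 19, 19] [] [] 100000 0 0 1500000 50000 50000 100000 100000 0 0 0

lemma n19_20_7_6_12 {n : ℕ} (hn : 6 ≤ n) : NoNd ((19 : ℕ) : ℤ) ((20 : ℕ) : ℤ) n 7 6
    (BlkD.inB (BlkD.upd (BlkD.upd (BlkD.upd (fun _ => 0) 0 4) 0 5) 1 11)
      (BlkD.upd (BlkD.upd (BlkD.upd (fun _ => 20) 0 7) 2 6) 0 5)) :=
  BlkD.part_sound (d := d19_20_7_6) dk19_20_7_6 hn (by decide) (tr := t19_20_7_6_12)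
    (by decide +kernel) rfl rfl rfl rfl

/-- the certificates of the part 13 of the pair `(7, 6)` -/
def t19_20_7_6_13 : BlkD.Tr :=
  .L 3 3 [4, 19, 19, 19, 19, 19, 19] [] [] 100000 0 0 1500000 50000 50000 100000 100000 0 0 0

lemma n19_20_7_6_13 {n : ℕ} (hn : 6 ≤ n) : NoNd ((19 : ℕ) : ℤ) ((20 : ℕ) : ℤ) n 7 6
    (BlkD.inB (BlkD.upd (BlkD.upd (fun _ => 0) 0 4) 0 6)
      (BlkD.upd (BlkD.upd (BlkD.upd (BlkD.upd (fun _ => 20) 0 7) 2 6) 0 6) 1 10)) :=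
  BlkD.part_sound (d := d19_20_7_6) dk19_20_7_6 hn (by decide) (tr := t19_20_7_6_13)
    (by decide +kernel) rfl rfl rfl rfl

/-- the certificates of the part 14 of the pair `(7, 6)` -/
def t19_20_7_6_14 : BlkD.Tr :=
  .L 3 3 [4, 19, 19, 19, 19, 19, 19] [] [] 100000 0 0 1500000 50000 50000 100000 100000 0 0 0

lemma n19_20_7_6_14 {n : ℕ} (hn : 6 ≤ n) : NoNd ((19 : ℕ) : ℤ) ((20 : ℕ) : ℤ) n 7 6
    (BlkD.inB (BlkD.upd (BlkD.upd (BlkD.upd (fun _ => 0) 0 4) 0 6) 1 11)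
      (BlkD.upd (BlkD.upd (BlkD.upd (fun _ => 20) 0 7) 2 6) 0 6)) :=
  BlkD.part_sound (d := d19_20_7_6) dk19_20_7_6 hn (by decide) (tr := t19_20_7_6_14)
    (by decide +kernel) rfl rfl rfl rfl

/-- the certificates of the part 15 of the pair `(7, 6)` -/
def t19_20_7_6_15 : BlkD.Tr :=
  .L 3 3 [4, 19, 19, 19, 19, 19, 19] [] [] 100000 0 0 1500000 50000 50000 100000 100000 0 0 0

lemma n19_20_7_6_15 {n : ℕ} (hn : 6 ≤ n) : NoNd ((19 : ℕ) : ℤ) ((20 : ℕ) : ℤ) n 7 6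
    (BlkD.inB (BlkD.upd (BlkD.upd (BlkD.upd (fun _ => 0) 0 4) 0 6) 0 7)
      (BlkD.upd (BlkD.upd (BlkD.upd (fun _ => 20) 0 7) 2 6) 1 10)) :=
  BlkD.part_sound (d := d19_20_7_6) dk19_20_7_6 hn (by decide) (tr := t19_20_7_6_15)
    (by decide +kernel) rfl rfl rfl rfl

/-- the certificates of the part 16 of the pair `(7, 6)` -/
def t19_20_7_6_16 : BlkD.Tr :=
  .L 3 3 [4, 19, 19, 19, 19, 19, 19] [] [] 100000 0 0 1500000 50000 50000 100000 100000 0 0 0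

lemma n19_20_7_6_16 {n : ℕ} (hn : 6 ≤ n) : NoNd ((19 : ℕ) : ℤ) ((20 : ℕ) : ℤ) n 7 6
    (BlkD.inB (BlkD.upd (BlkD.upd (BlkD.upd (BlkD.upd (fun _ => 0) 0 4) 0 6) 0 7) 1 11)
      (BlkD.upd (BlkD.upd (fun _ => 20) 0 7) 2 6)) :=
  BlkD.part_sound (d := d19_20_7_6) dk19_20_7_6 hn (by decide) (tr := t19_20_7_6_16)
    (by decide +kernel) rfl rfl rfl rfl

/-- the certificates of the part 17 of the pair `(7, 6)` -/
def t19_20_7_6_17 : BlkD.Tr :=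
  .E 1

lemma n19_20_7_6_17 {n : ℕ} (hn : 6 ≤ n) : NoNd ((19 : ℕ) : ℤ) ((20 : ℕ) : ℤ) n 7 6
    (BlkD.inB (BlkD.upd (fun _ => 0) 2 7)
      (BlkD.upd (fun _ => 20) 0 7)) :=
  BlkD.part_sound (d := d19_20_7_6) dk19_20_7_6 hn (by decide) (tr := t19_20_7_6_17)
    (by decide +kernel) rfl rfl rfl rfl

/-- the certificates of the part 18 of the pair `(7, 6)` -/
def t19_20_7_6_18 : BlkD.Tr :=
  .E 0

lemma n19_20_7_6_18 {n : ℕ} (hn : 6 ≤ n) : NoNd ((19 : ℕ) : ℤ) ((20 : ℕ) : ℤ) n 7 6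
    (BlkD.inB (BlkD.upd (fun _ => 0) 0 8)
      (fun _ => 20)) :=
  BlkD.part_sound (d := d19_20_7_6) dk19_20_7_6 hn (by decide) (tr := t19_20_7_6_18)
    (by decide +kernel) rfl rfl rfl rfl

lemma pr19_20_7_6 {n : ℕ} (hn : 6 ≤ n) : NoPr ((19 : ℕ) : ℤ) ((20 : ℕ) : ℤ) n 7 6 :=
  BlkD.of_root (q := 4) (by decide) hn (BlkD.sp 0 7 (BlkD.sp 2 6 (BlkD.sp 0 3 (BlkD.sp 0 1 (BlkD.sp 0 0 (BlkD.sp 1 10 (n19_20_7_6_1 hn)
    (n19_20_7_6_2 hn))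
    (BlkD.sp 1 10 (n19_20_7_6_3 hn)
    (n19_20_7_6_4 hn)))
    (BlkD.sp 0 2 (BlkD.sp 1 10 (n19_20_7_6_5 hn)
    (n19_20_7_6_6 hn))
    (BlkD.sp 1 10 (n19_20_7_6_7 hn)
    (n19_20_7_6_8 hn))))
    (BlkD.sp 0 5 (BlkD.sp 0 4 (BlkD.sp 1 10 (n19_20_7_6_9 hn)
    (n19_20_7_6_10 hn))
    (BlkD.sp 1 10 (n19_20_7_6_11 hn)
    (n19_20_7_6_12 hn)))
    (BlkD.sp 0 6 (BlkD.sp 1 10 (n19_20_7_6_13 hn)
    (n19_20_7_6_14 hn))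
    (BlkD.sp 1 10 (n19_20_7_6_15 hn)
    (n19_20_7_6_16 hn)))))
    (n19_20_7_6_17 hn))
    (n19_20_7_6_18 hn))

/-- the numbers of the pair `(8, 0)`, `R = 19`, `H = 20` -/
def d19_20_8_0 : BlkD.Pd :=
  ⟨19, 20, 4, 8, 0, 9, 0, 1, 0, 4, 4, 0, 0, 4, 4, 0, [0, 4, 8, 12, 16, 20, 24, 28, 32, 36], [0, 4,
    8, 12, 16, 20, 24, 28, 32, 36], [⟨1, 1, 1, 4, 8, [0, 4], [0, 4]⟩]⟩

lemma dk19_20_8_0 : BlkD.pairOk d19_20_8_0 = true := by decide +kernel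

/-- the certificates of the part 1 of the pair `(8, 0)` -/
def t19_20_8_0_1 : BlkD.Tr :=
  .S 0 8 (.S 2 0 (.L 3 3 [4] [] [] 100000 0 0 950000 50000 0 100000 0 0 0 0) (.E 1)) (.E 0)

lemma n19_20_8_0_1 {n : ℕ} (hn : 6 ≤ n) : NoNd ((19 : ℕ) : ℤ) ((20 : ℕ) : ℤ) n 8 0
    (BlkD.inB (fun _ => 0)
      (fun _ => 20)) :=
  BlkD.part_sound (d := d19_20_8_0) dk19_20_8_0 hn (by decide) (tr := t19_20_8_0_1)
    (by decide +kernel) rfl rfl rfl rfl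

lemma pr19_20_8_0 {n : ℕ} (hn : 6 ≤ n) : NoPr ((19 : ℕ) : ℤ) ((20 : ℕ) : ℤ) n 8 0 :=
  BlkD.of_root (q := 4) (by decide) hn (n19_20_8_0_1 hn)

/-- the numbers of the pair `(8, 1)`, `R = 19`, `H = 20` -/
def d19_20_8_1 : BlkD.Pd :=
  ⟨19, 20, 4, 8, 1, 8, 1, 1, 0, 4, 8, 0, 0, 4, 4, 0, [0, 8, 16, 24, 32, 32, 32, 32, 32], [0, 4, 8,
    12, 16, 20, 24, 28, 32], [⟨1, 1, 1, 4, 8, [0, 4], [0, 4]⟩, ⟨1, 1, 1, 4, 12, [0, 8], [0, 4]⟩]⟩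

lemma dk19_20_8_1 : BlkD.pairOk d19_20_8_1 = true := by decide +kernel

/-- the certificates of the part 1 of the pair `(8, 1)` -/
def t19_20_8_1_1 : BlkD.Tr :=
  .L 4 5 [4, 4] [] [] 100000 16666 0 966668 58333 0 85417 0 0 0 0

lemma n19_20_8_1_1 {n : ℕ} (hn : 6 ≤ n) : NoNd ((19 : ℕ) : ℤ) ((20 : ℕ) : ℤ) n 8 1
    (BlkD.inB (fun _ => 0)
      (BlkD.upd (BlkD.upd (BlkD.upd (fun _ => 20) 0 8) 2 1) 0 4)) :=
  BlkD.part_sound (d := d19_20_8_1) dk19_20_8_1 hn (by decide) (tr := t19_20_8_1_1)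
    (by decide +kernel) rfl rfl rfl rfl

/-- the certificates of the part 2 of the pair `(8, 1)` -/
def t19_20_8_1_2 : BlkD.Tr :=
  .L 4 5 [4, 4] [] [] 100000 0 0 1175000 25000 0 87500 0 0 0 0

lemma n19_20_8_1_2 {n : ℕ} (hn : 6 ≤ n) : NoNd ((19 : ℕ) : ℤ) ((20 : ℕ) : ℤ) n 8 1
    (BlkD.inB (BlkD.upd (fun _ => 0) 0 5)
      (BlkD.upd (BlkD.upd (fun _ => 20) 0 8) 2 1)) :=
  BlkD.part_sound (d := d19_20_8_1) dk19_20_8_1 hn (by decide) (tr := t19_20_8_1_2)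
    (by decide +kernel) rfl rfl rfl rfl

/-- the certificates of the part 3 of the pair `(8, 1)` -/
def t19_20_8_1_3 : BlkD.Tr :=
  .E 1

lemma n19_20_8_1_3 {n : ℕ} (hn : 6 ≤ n) : NoNd ((19 : ℕ) : ℤ) ((20 : ℕ) : ℤ) n 8 1
    (BlkD.inB (BlkD.upd (fun _ => 0) 2 2)
      (BlkD.upd (fun _ => 20) 0 8)) :=
  BlkD.part_sound (d := d19_20_8_1) dk19_20_8_1 hn (by decide) (tr := t19_20_8_1_3)
    (by decide +kernel) rfl rfl rfl rfl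

/-- the certificates of the part 4 of the pair `(8, 1)` -/
def t19_20_8_1_4 : BlkD.Tr :=
  .E 0

lemma n19_20_8_1_4 {n : ℕ} (hn : 6 ≤ n) : NoNd ((19 : ℕ) : ℤ) ((20 : ℕ) : ℤ) n 8 1
    (BlkD.inB (BlkD.upd (fun _ => 0) 0 9)
      (fun _ => 20)) :=
  BlkD.part_sound (d := d19_20_8_1) dk19_20_8_1 hn (by decide) (tr := t19_20_8_1_4)
    (by decide +kernel) rfl rfl rfl rfl

lemma pr19_20_8_1 {n : ℕ} (hn : 6 ≤ n) : NoPr ((19 : ℕ) : ℤ) ((20 : ℕ) : ℤ) n 8 1 :=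
  BlkD.of_root (q := 4) (by decide) hn (BlkD.sp 0 8 (BlkD.sp 2 1 (BlkD.sp 0 4 (n19_20_8_1_1 hn)
    (n19_20_8_1_2 hn))
    (n19_20_8_1_3 hn))
    (n19_20_8_1_4 hn))

end BlkC

end Pool.Agent.Lib.MP_f04ccf_co
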