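import Pool.Agent.Lib.MP_f04ccf_co.M.BlkTp

/-!
MP_f04ccf_co, block certificate, data `R = 19`, `H = 20`, part 6 (certificates: helper99, bd9.cpp).
-/

set_option autoImplicit false
set_option maxRecDepth 100000

namespace Pool.Agent.Lib.MP_f04ccf_co

namespace BlkC

/-- the numbers of the pair `(8, 5)`, `R = 19`, `H = 20` -/
def d19_20_8_5 : BlkD.Pd :=
  ⟨19, 20, 4, 8, 5, 4, 0, 3, 0, 4, 4, 0, 0, 4, 4, 0, [0, 4, 8, 12, 16], [0, 4, 8, 12, 16], [⟨1, 1,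
    1, 4, 8, [0, 4], [0, 4]⟩]⟩

lemma dk19_20_8_5 : BlkD.pairOk d19_20_8_5 = true := by decide +kernel

/-- the certificates of the part 1 of the pair `(8, 5)` -/
def t19_20_8_5_1 : BlkD.Tr :=
  .L 3 3 [4, 19, 19, 19, 19, 19] [] [] 100000 0 0 1500000 50000 50000 100000 50000 0 0 0

lemma n19_20_8_5_1 {n : ℕ} (hn : 6 ≤ n) : NoNd ((19 : ℕ) : ℤ) ((20 : ℕ) : ℤ) n 8 5
    (BlkD.inB (fun _ => 0)
      (BlkD.upd (BlkD.upd (BlkD.upd (BlkD.upd (BlkD.upd (fun _ => 20) 0 8) 2 5) 0 4) 0 2) 0 1)) :=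
  BlkD.part_sound (d := d19_20_8_5) dk19_20_8_5 hn (by decide) (tr := t19_20_8_5_1)
    (by decide +kernel) rfl rfl rfl rfl

/-- the certificates of the part 2 of the pair `(8, 5)` -/
def t19_20_8_5_2 : BlkD.Tr :=
  .L 3 3 [4, 19, 19, 19, 19, 19] [] [] 100000 0 0 1500000 50000 50000 100000 50000 0 0 0

lemma n19_20_8_5_2 {n : ℕ} (hn : 6 ≤ n) : NoNd ((19 : ℕ) : ℤ) ((20 : ℕ) : ℤ) n 8 5
    (BlkD.inB (BlkD.upd (fun _ => 0) 0 2)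
      (BlkD.upd (BlkD.upd (BlkD.upd (BlkD.upd (fun _ => 20) 0 8) 2 5) 0 4) 0 2)) :=
  BlkD.part_sound (d := d19_20_8_5) dk19_20_8_5 hn (by decide) (tr := t19_20_8_5_2)
    (by decide +kernel) rfl rfl rfl rfl

/-- the certificates of the part 3 of the pair `(8, 5)` -/
def t19_20_8_5_3 : BlkD.Tr :=
  .L 3 3 [4, 19, 19, 19, 19, 19] [] [] 100000 0 0 1500000 50000 50000 100000 50000 0 0 0

lemma n19_20_8_5_3 {n : ℕ} (hn : 6 ≤ n) : NoNd ((19 : ℕ) : ℤ) ((20 : ℕ) : ℤ) n 8 5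
    (BlkD.inB (BlkD.upd (fun _ => 0) 0 3)
      (BlkD.upd (BlkD.upd (BlkD.upd (BlkD.upd (fun _ => 20) 0 8) 2 5) 0 4) 0 3)) :=
  BlkD.part_sound (d := d19_20_8_5) dk19_20_8_5 hn (by decide) (tr := t19_20_8_5_3)
    (by decide +kernel) rfl rfl rfl rfl

/-- the certificates of the part 4 of the pair `(8, 5)` -/
def t19_20_8_5_4 : BlkD.Tr :=
  .L 3 3 [4, 19, 19, 19, 19, 19] [] [] 100000 0 0 1500000 50000 50000 100000 50000 0 0 0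

lemma n19_20_8_5_4 {n : ℕ} (hn : 6 ≤ n) : NoNd ((19 : ℕ) : ℤ) ((20 : ℕ) : ℤ) n 8 5
    (BlkD.inB (BlkD.upd (BlkD.upd (fun _ => 0) 0 3) 0 4)
      (BlkD.upd (BlkD.upd (BlkD.upd (fun _ => 20) 0 8) 2 5) 0 4)) :=
  BlkD.part_sound (d := d19_20_8_5) dk19_20_8_5 hn (by decide) (tr := t19_20_8_5_4)
    (by decide +kernel) rfl rfl rfl rfl

/-- the certificates of the part 5 of the pair `(8, 5)` -/
def t19_20_8_5_5 : BlkD.Tr :=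
  .L 3 3 [4, 19, 19, 19, 19, 19] [] [] 100000 0 0 1500000 50000 50000 100000 50000 0 0 0

lemma n19_20_8_5_5 {n : ℕ} (hn : 6 ≤ n) : NoNd ((19 : ℕ) : ℤ) ((20 : ℕ) : ℤ) n 8 5
    (BlkD.inB (BlkD.upd (fun _ => 0) 0 5)
      (BlkD.upd (BlkD.upd (BlkD.upd (BlkD.upd (fun _ => 20) 0 8) 2 5) 0 6) 0 5)) :=
  BlkD.part_sound (d := d19_20_8_5) dk19_20_8_5 hn (by decide) (tr := t19_20_8_5_5)
    (by decide +kernel) rfl rfl rfl rfl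

/-- the certificates of the part 6 of the pair `(8, 5)` -/
def t19_20_8_5_6 : BlkD.Tr :=
  .L 3 3 [4, 19, 19, 19, 19, 19] [] [] 100000 0 0 1500000 50000 50000 100000 50000 0 0 0

lemma n19_20_8_5_6 {n : ℕ} (hn : 6 ≤ n) : NoNd ((19 : ℕ) : ℤ) ((20 : ℕ) : ℤ) n 8 5
    (BlkD.inB (BlkD.upd (BlkD.upd (fun _ => 0) 0 5) 0 6)
      (BlkD.upd (BlkD.upd (BlkD.upd (fun _ => 20) 0 8) 2 5) 0 6)) :=
  BlkD.part_sound (d := d19_20_8_5) dk19_20_8_5 hn (by decide) (tr := t19_20_8_5_6)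
    (by decide +kernel) rfl rfl rfl rfl

/-- the certificates of the part 7 of the pair `(8, 5)` -/
def t19_20_8_5_7 : BlkD.Tr :=
  .L 3 3 [4, 19, 19, 19, 19, 19] [] [] 100000 0 0 1500000 50000 50000 100000 50000 0 0 0

lemma n19_20_8_5_7 {n : ℕ} (hn : 6 ≤ n) : NoNd ((19 : ℕ) : ℤ) ((20 : ℕ) : ℤ) n 8 5
    (BlkD.inB (BlkD.upd (BlkD.upd (fun _ => 0) 0 5) 0 7)
      (BlkD.upd (BlkD.upd (BlkD.upd (fun _ => 20) 0 8) 2 5) 0 7)) :=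
  BlkD.part_sound (d := d19_20_8_5) dk19_20_8_5 hn (by decide) (tr := t19_20_8_5_7)
    (by decide +kernel) rfl rfl rfl rfl

/-- the certificates of the part 8 of the pair `(8, 5)` -/
def t19_20_8_5_8 : BlkD.Tr :=
  .L 3 3 [4, 19, 19, 19, 19, 19] [] [] 100000 0 0 1500000 50000 50000 100000 50000 0 0 0

lemma n19_20_8_5_8 {n : ℕ} (hn : 6 ≤ n) : NoNd ((19 : ℕ) : ℤ) ((20 : ℕ) : ℤ) n 8 5
    (BlkD.inB (BlkD.upd (BlkD.upd (BlkD.upd (fun _ => 0) 0 5) 0 7) 0 8)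
      (BlkD.upd (BlkD.upd (fun _ => 20) 0 8) 2 5)) :=
  BlkD.part_sound (d := d19_20_8_5) dk19_20_8_5 hn (by decide) (tr := t19_20_8_5_8)
    (by decide +kernel) rfl rfl rfl rfl

/-- the certificates of the part 9 of the pair `(8, 5)` -/
def t19_20_8_5_9 : BlkD.Tr :=
  .E 1

lemma n19_20_8_5_9 {n : ℕ} (hn : 6 ≤ n) : NoNd ((19 : ℕ) : ℤ) ((20 : ℕ) : ℤ) n 8 5
    (BlkD.inB (BlkD.upd (fun _ => 0) 2 6)
      (BlkD.upd (fun _ => 20) 0 8)) :=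
  BlkD.part_sound (d := d19_20_8_5) dk19_20_8_5 hn (by decide) (tr := t19_20_8_5_9)
    (by decide +kernel) rfl rfl rfl rfl

/-- the certificates of the part 10 of the pair `(8, 5)` -/
def t19_20_8_5_10 : BlkD.Tr :=
  .E 0

lemma n19_20_8_5_10 {n : ℕ} (hn : 6 ≤ n) : NoNd ((19 : ℕ) : ℤ) ((20 : ℕ) : ℤ) n 8 5
    (BlkD.inB (BlkD.upd (fun _ => 0) 0 9)
      (fun _ => 20)) :=
  BlkD.part_sound (d := d19_20_8_5) dk19_20_8_5 hn (by decide) (tr := t19_20_8_5_10)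
    (by decide +kernel) rfl rfl rfl rfl

lemma pr19_20_8_5 {n : ℕ} (hn : 6 ≤ n) : NoPr ((19 : ℕ) : ℤ) ((20 : ℕ) : ℤ) n 8 5 :=
  BlkD.of_root (q := 4) (by decide) hn (BlkD.sp 0 8 (BlkD.sp 2 5 (BlkD.sp 0 4 (BlkD.sp 0 2 (BlkD.sp 0 1 (n19_20_8_5_1 hn)
    (n19_20_8_5_2 hn))
    (BlkD.sp 0 3 (n19_20_8_5_3 hn)
    (n19_20_8_5_4 hn)))
    (BlkD.sp 0 6 (BlkD.sp 0 5 (n19_20_8_5_5 hn)
    (n19_20_8_5_6 hn))
    (BlkD.sp 0 7 (n19_20_8_5_7 hn)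
    (n19_20_8_5_8 hn))))
    (n19_20_8_5_9 hn))
    (n19_20_8_5_10 hn))

/-- the numbers of the pair `(9, 0)`, `R = 19`, `H = 20` -/
def d19_20_9_0 : BlkD.Pd :=
  ⟨19, 20, 4, 9, 0, 8, 0, 1, 0, 4, 4, 0, 0, 4, 4, 0, [0, 4, 8, 12, 16, 20, 24, 28, 32], [0, 4, 8,
    12, 16, 20, 24, 28, 32], [⟨1, 1, 1, 4, 8, [0, 4], [0, 4]⟩]⟩

lemma dk19_20_9_0 : BlkD.pairOk d19_20_9_0 = true := by decide +kernel

/-- the certificates of the part 1 of the pair `(9, 0)` -/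
def t19_20_9_0_1 : BlkD.Tr :=
  .S 0 9 (.S 2 0 (.L 3 3 [4] [] [] 100000 0 0 1054549 72727 0 72727 0 0 0 0) (.E 1)) (.E 0)

lemma n19_20_9_0_1 {n : ℕ} (hn : 6 ≤ n) : NoNd ((19 : ℕ) : ℤ) ((20 : ℕ) : ℤ) n 9 0
    (BlkD.inB (fun _ => 0)
      (fun _ => 20)) :=
  BlkD.part_sound (d := d19_20_9_0) dk19_20_9_0 hn (by decide) (tr := t19_20_9_0_1)
    (by decide +kernel) rfl rfl rfl rfl

lemma pr19_20_9_0 {n : ℕ} (hn : 6 ≤ n) : NoPr ((19 : ℕ) : ℤ) ((20 : ℕ) : ℤ) n 9 0 :=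
  BlkD.of_root (q := 4) (by decide) hn (n19_20_9_0_1 hn)

/-- the numbers of the pair `(9, 1)`, `R = 19`, `H = 20` -/
def d19_20_9_1 : BlkD.Pd :=
  ⟨19, 20, 4, 9, 1, 7, 1, 1, 0, 4, 8, 0, 0, 4, 4, 0, [0, 8, 16, 24, 28, 28, 28, 28], [0, 4, 8, 12,
    16, 20, 24, 28], [⟨1, 1, 1, 4, 8, [0, 4], [0, 4]⟩, ⟨1, 1, 1, 4, 12, [0, 8], [0, 4]⟩]⟩

lemma dk19_20_9_1 : BlkD.pairOk d19_20_9_1 = true := by decide +kernel

/-- the certificates of the part 1 of the pair `(9, 1)` -/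
def t19_20_9_1_1 : BlkD.Tr :=
  .L 4 5 [4, 4] [] [] 100000 0 0 1250000 50000 0 100000 0 0 0 0

lemma n19_20_9_1_1 {n : ℕ} (hn : 6 ≤ n) : NoNd ((19 : ℕ) : ℤ) ((20 : ℕ) : ℤ) n 9 1
    (BlkD.inB (fun _ => 0)
      (BlkD.upd (BlkD.upd (BlkD.upd (fun _ => 20) 0 9) 2 1) 0 4)) :=
  BlkD.part_sound (d := d19_20_9_1) dk19_20_9_1 hn (by decide) (tr := t19_20_9_1_1)
    (by decide +kernel) rfl rfl rfl rfl

/-- the certificates of the part 2 of the pair `(9, 1)` -/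
def t19_20_9_1_2 : BlkD.Tr :=
  .S 0 5 (.S 1 15 (.S 1 7 (.L 4 5 [4, 4] [] [] 100000 0 0 1120000 40000 0 40000 0 0 0 0) (.S 1 11
    (.S 1 9 (.L 4 5 [4, 4] [] [] 100000 0 0 1240000 40000 0 40000 0 0 0 0) (.S 1 10 (.L 4 5 [4, 4]
    [226, 226, 226, 226, 226, 226] [] 100000 0 0 1200000 50000 0 50000 0 0 0 0) (.L 4 5 [4, 4]
    [256, 256, 256, 256, 256, 256] [] 100000 0 0 1200000 50000 0 100000 0 0 0 0))) (.S 1 13 (.S 1
    12 (.L 4 5 [4, 4] [288, 288, 288, 288, 288, 288] [] 100000 0 0 1200000 50000 0 100000 0 0 0 0)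
    (.L 4 5 [4, 4] [322, 322, 322, 322, 322, 322] [] 100000 0 0 1200000 50000 0 100000 0 0 0 0))
    (.S 1 14 (.L 4 5 [4, 4] [358, 358, 358, 358, 358, 358] [] 100000 245454 172727 3 172727 0
    172727 0 0 0 0) (.L 4 5 [4, 4] [396, 396, 396, 396, 396, 396] [] 100000 233334 166667 0 166667
    0 166667 0 0 0 0))))) (.E 0)) (.S 1 14 (.S 1 7 (.L 4 5 [4, 4] [] [] 100000 0 0 1266669 33333 0
    33333 0 0 0 0) (.S 1 11 (.S 1 9 (.S 1 8 (.L 4 5 [4, 4] [188, 188, 188, 188, 184, 176] [] 100000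
    0 0 1280000 40000 0 40000 0 0 0 0) (.L 4 5 [4, 4] [216, 216, 216, 216, 216, 212] [] 100000
    14286 0 1099999 57143 0 114286 0 0 0 0)) (.S 1 10 (.L 4 5 [4, 4] [246, 246, 246, 246, 246, 246]
    [] 100000 20000 0 1060000 60000 0 120000 0 0 0 0) (.L 4 5 [4, 4] [278, 278, 278, 278, 278, 278]
    [] 100000 100000 100000 900000 100000 0 100000 0 0 0 0))) (.S 1 13 (.S 1 12 (.L 4 5 [4, 4]
    [312, 312, 312, 312, 312, 312] [] 100000 100000 100000 900000 100000 0 100000 0 0 0 0) (.L 4 5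
    [4, 4] [348, 348, 348, 348, 348, 348] [] 100000 171429 0 1 135714 0 271429 0 0 0 0)) (.L 4 5
    [4, 4] [386, 386, 386, 386, 386, 386] [] 100000 242858 142858 0 171429 0 200000 0 0 0 0)))) (.E
    0))

lemma n19_20_9_1_2 {n : ℕ} (hn : 6 ≤ n) : NoNd ((19 : ℕ) : ℤ) ((20 : ℕ) : ℤ) n 9 1
    (BlkD.inB (BlkD.upd (fun _ => 0) 0 5)
      (BlkD.upd (BlkD.upd (BlkD.upd (BlkD.upd (fun _ => 20) 0 9) 2 1) 0 7) 0 6)) :=
  BlkD.part_sound (d := d19_20_9_1) dk19_20_9_1 hn (by decide) (tr := t19_20_9_1_2)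
    (by decide +kernel) rfl rfl rfl rfl

/-- the certificates of the part 3 of the pair `(9, 1)` -/
def t19_20_9_1_3 : BlkD.Tr :=
  .S 1 13 (.S 1 6 (.S 1 3 (.L 4 5 [4, 4] [] [] 100000 0 0 1050000 50000 0 50000 0 0 0 0) (.S 1 5
    (.L 4 5 [4, 4] [] [] 100000 0 0 1200000 40000 0 40000 0 0 0 0) (.L 4 5 [4, 4] [150, 150, 146,
    138, 130, 122] [] 100000 0 0 1260000 40000 0 40000 0 0 0 0))) (.L 4 5 [4, 4] [] [] 100000 0 0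
    1257145 28571 0 100000 0 0 0 0)) (.E 0)

lemma n19_20_9_1_3 {n : ℕ} (hn : 6 ≤ n) : NoNd ((19 : ℕ) : ℤ) ((20 : ℕ) : ℤ) n 9 1
    (BlkD.inB (BlkD.upd (BlkD.upd (fun _ => 0) 0 5) 0 7)
      (BlkD.upd (BlkD.upd (BlkD.upd (fun _ => 20) 0 9) 2 1) 0 7)) :=
  BlkD.part_sound (d := d19_20_9_1) dk19_20_9_1 hn (by decide) (tr := t19_20_9_1_3)
    (by decide +kernel) rfl rfl rfl rfl

/-- the certificates of the part 4 of the pair `(9, 1)` -/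
def t19_20_9_1_4 : BlkD.Tr :=
  .S 0 8 (.S 1 12 (.S 1 6 (.L 4 5 [4, 4] [] [] 100000 0 0 1266668 33333 0 66667 0 0 0 0) (.L 4 5
    [4, 4] [] [] 100000 20000 0 1060000 30000 0 120000 0 0 0 0)) (.E 0)) (.L 4 5 [4, 4] [] []
    100000 0 0 1255556 22222 0 61111 0 0 0 0)

lemma n19_20_9_1_4 {n : ℕ} (hn : 6 ≤ n) : NoNd ((19 : ℕ) : ℤ) ((20 : ℕ) : ℤ) n 9 1
    (BlkD.inB (BlkD.upd (BlkD.upd (fun _ => 0) 0 5) 0 8)
      (BlkD.upd (BlkD.upd (fun _ => 20) 0 9) 2 1)) :=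
  BlkD.part_sound (d := d19_20_9_1) dk19_20_9_1 hn (by decide) (tr := t19_20_9_1_4)
    (by decide +kernel) rfl rfl rfl rfl

/-- the certificates of the part 5 of the pair `(9, 1)` -/
def t19_20_9_1_5 : BlkD.Tr :=
  .E 1

lemma n19_20_9_1_5 {n : ℕ} (hn : 6 ≤ n) : NoNd ((19 : ℕ) : ℤ) ((20 : ℕ) : ℤ) n 9 1
    (BlkD.inB (BlkD.upd (fun _ => 0) 2 2)
      (BlkD.upd (fun _ => 20) 0 9)) :=
  BlkD.part_sound (d := d19_20_9_1) dk19_20_9_1 hn (by decide) (tr := t19_20_9_1_5)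
    (by decide +kernel) rfl rfl rfl rfl

/-- the certificates of the part 6 of the pair `(9, 1)` -/
def t19_20_9_1_6 : BlkD.Tr :=
  .E 0

lemma n19_20_9_1_6 {n : ℕ} (hn : 6 ≤ n) : NoNd ((19 : ℕ) : ℤ) ((20 : ℕ) : ℤ) n 9 1
    (BlkD.inB (BlkD.upd (fun _ => 0) 0 10)
      (fun _ => 20)) :=
  BlkD.part_sound (d := d19_20_9_1) dk19_20_9_1 hn (by decide) (tr := t19_20_9_1_6)
    (by decide +kernel) rfl rfl rfl rfl

lemma pr19_20_9_1 {n : ℕ} (hn : 6 ≤ n) : NoPr ((19 : ℕ) : ℤ) ((20 : ℕ) : ℤ) n 9 1 :=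
  BlkD.of_root (q := 4) (by decide) hn (BlkD.sp 0 9 (BlkD.sp 2 1 (BlkD.sp 0 4 (n19_20_9_1_1 hn)
    (BlkD.sp 0 7 (BlkD.sp 0 6 (n19_20_9_1_2 hn)
    (n19_20_9_1_3 hn))
    (n19_20_9_1_4 hn)))
    (n19_20_9_1_5 hn))
    (n19_20_9_1_6 hn))

/-- the numbers of the pair `(9, 2)`, `R = 19`, `H = 20` -/
def d19_20_9_2 : BlkD.Pd :=
  ⟨19, 20, 4, 9, 2, 6, 2, 2, 4, 2, 10, 0, 3, 1, 6, 0, [0, 10, 20, 24, 28, 32, 36], [0, 6, 12, 15,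
    18, 21, 24], [⟨1, 1, 1, 4, 8, [0, 4], [0, 4]⟩, ⟨1, 1, 1, 4, 12, [0, 8], [0, 4]⟩, ⟨2, 1, 1, 4,
    20, [0, 10, 14], [0, 6]⟩]⟩

lemma dk19_20_9_2 : BlkD.pairOk d19_20_9_2 = true := by decide +kernel

/-- the certificates of the part 1 of the pair `(9, 2)` -/
def t19_20_9_2_1 : BlkD.Tr :=
  .S 0 2 (.L 4 7 [4, 4, 4] [] [] 100000 150000 150000 700000 100000 0 100000 0 0 0 0) (.S 0 3 (.L 4
    7 [4, 4, 4] [] [] 100000 185000 185000 1010000 80000 0 90000 10000 0 0 0) (.S 1 16 (.S 1 8 (.L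
    4 7 [4, 4, 4] [] [] 100000 16667 16667 1266670 33333 0 33333 33333 0 33333 0) (.S 1 12 (.S 1 10
    (.S 1 9 (.L 4 7 [4, 4, 4] [198, 194, 190, 186, 182, 178] [] 100000 25000 25000 1300000 37500 0
    43750 50000 0 43750 0) (.L 4 7 [4, 4, 4] [228, 224, 220, 216, 212, 208] [] 100000 120834 120834
    1133334 66667 0 83333 41667 0 8333 0)) (.S 1 11 (.L 4 7 [4, 4, 4] [260, 256, 252, 248, 244,
    240] [] 100000 159091 159091 1036365 81818 0 100000 45455 0 9091 9091) (.L 4 7 [4, 4, 4] [294,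
    290, 286, 282, 278, 274] [] 100000 150001 144445 977776 88889 0 105556 38889 0 0 0))) (.S 1 14
    (.S 1 13 (.L 4 7 [4, 4, 4] [330, 326, 322, 318, 314, 310] [] 100000 183334 166667 866666 100000
    0 116667 50000 0 0 0) (.L 4 7 [4, 4, 4] [368, 364, 360, 356, 352, 348] [] 100000 387039 255558
    0 179630 0 231481 24074 0 0 0)) (.S 1 15 (.L 4 7 [4, 4, 4] [408, 404, 400, 396, 392, 388] []
    100000 374998 255880 3 173529 0 219118 0 0 0 0) (.L 4 7 [4, 4, 4] [450, 446, 442, 438, 434,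
    430] [] 100000 375000 294444 0 163889 0 180556 0 0 0 0))))) (.E 0)))

lemma n19_20_9_2_1 {n : ℕ} (hn : 6 ≤ n) : NoNd ((19 : ℕ) : ℤ) ((20 : ℕ) : ℤ) n 9 2
    (BlkD.inB (fun _ => 0)
      (BlkD.upd (BlkD.upd (BlkD.upd (fun _ => 20) 0 9) 2 2) 0 4)) :=
  BlkD.part_sound (d := d19_20_9_2) dk19_20_9_2 hn (by decide) (tr := t19_20_9_2_1)
    (by decide +kernel) rfl rfl rfl rfl

/-- the certificates of the part 2 of the pair `(9, 2)` -/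
def t19_20_9_2_2 : BlkD.Tr :=
  .L 4 7 [4, 4, 4] [] [] 100000 33333 33333 1300003 33333 0 33333 33333 0 33333 0

lemma n19_20_9_2_2 {n : ℕ} (hn : 6 ≤ n) : NoNd ((19 : ℕ) : ℤ) ((20 : ℕ) : ℤ) n 9 2
    (BlkD.inB (BlkD.upd (fun _ => 0) 0 5)
      (BlkD.upd (BlkD.upd (BlkD.upd (BlkD.upd (BlkD.upd (BlkD.upd (BlkD.upd (fun _ => 20) 0 9) 2 2) 0 7) 0 6) 0 5) 1 15) 1 7)) :=
  BlkD.part_sound (d := d19_20_9_2) dk19_20_9_2 hn (by decide) (tr := t19_20_9_2_2)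
    (by decide +kernel) rfl rfl rfl rfl

/-- the certificates of the part 3 of the pair `(9, 2)` -/
def t19_20_9_2_3 : BlkD.Tr :=
  .S 1 8 (.S 2 1 (.S 2 0 (.L 4 7 [4, 4, 4] [186, 182, 178, 174, 170, 166] [] 100000 33333 33333
    1300002 33333 0 50000 66667 0 16667 16667) (.S 3 6 (.S 3 3 (.S 3 1 (.S 3 0 (.L 4 7 [4, 4, 4]
    [186, 182, 178, 174, 170, 166] [0, 0, 0, 0, 0, 0] 100000 10000 10000 1320000 20000 0 40000 0 0
    0 0) (.L 3 5 [4, 5, 6] [186, 182, 178, 174, 170, 166] [12, 2, 0, 0, 0, 0] 100000 85715 85715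
    1214286 47619 0 47619 0 0 33333 33333)) (.L 4 7 [4, 4, 4] [186, 182, 178, 174, 170, 166] []
    100000 100000 100000 1180000 60000 0 60000 0 0 0 0)) (.E 1)) (.E 1))) (.L 4 7 [4, 4, 4] [186,
    182, 178, 174, 170, 166] [] 100000 100000 100000 1120000 60000 0 60000 0 0 0 0)) (.S 2 1 (.S 2
    0 (.S 3 6 (.S 3 3 (.S 3 1 (.L 4 7 [4, 4, 4] [216, 212, 208, 204, 200, 196] [] 100000 33333
    33333 1300002 33333 0 66667 33333 0 0 0) (.L 4 7 [4, 4, 4] [216, 212, 208, 204, 200, 196] []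
    100000 112500 112500 1162502 62500 0 83333 52083 0 10417 22917)) (.L 4 7 [4, 4, 4] [216, 212,
    208, 204, 200, 196] [] 100000 233334 166667 566666 100000 0 100000 166667 0 0 33333)) (.E 1))
    (.S 3 5 (.S 3 2 (.S 3 1 (.S 3 0 (.L 5 9 [4, 4, 3] [216, 212, 208, 204, 200, 196] [0, 0, 0, 0,
    0, 0] 100000 50000 50000 1250000 50000 0 100000 0 0 0 0) (.S 4 9 (.S 4 4 (.L 5 9 [4, 4, 3]
    [196, 192, 182, 172, 162, 0] [12, 2, 0, 0, 0, 0] 100000 50000 50000 1250000 50000 0 100000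
    50000 0 0 0) (.L 5 9 [4, 4, 3] [216, 212, 208, 204, 200, 196] [12, 2, 0, 0, 0, 0] 100000 140000
    0 460000 60000 0 240000 0 0 0 0)) (.E 2))) (.L 5 9 [4, 4, 3] [216, 212, 208, 204, 200, 196]
    [22, 16, 6, 0, 0, 0] 100000 17391 17391 1352176 43478 0 43478 0 0 39130 8696)) (.E 1)) (.E 1)))
    (.L 5 9 [4, 4, 3] [216, 212, 208, 204, 200, 196] [] 100000 17391 17391 1308698 43478 0 43478 0
    0 39130 8696))

lemma n19_20_9_2_3 {n : ℕ} (hn : 6 ≤ n) : NoNd ((19 : ℕ) : ℤ) ((20 : ℕ) : ℤ) n 9 2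
    (BlkD.inB (BlkD.upd (BlkD.upd (fun _ => 0) 0 5) 1 8)
      (BlkD.upd (BlkD.upd (BlkD.upd (BlkD.upd (BlkD.upd (BlkD.upd (BlkD.upd (BlkD.upd (fun _ => 20) 0 9) 2 2) 0 7) 0 6) 0 5) 1 15) 1 11) 1 9)) :=
  BlkD.part_sound (d := d19_20_9_2) dk19_20_9_2 hn (by decide) (tr := t19_20_9_2_3)
    (by decide +kernel) rfl rfl rfl rfl

/-- the certificates of the part 4 of the pair `(9, 2)` -/
def t19_20_9_2_4 : BlkD.Tr :=
  .S 1 10 (.S 2 1 (.S 2 0 (.L 5 9 [4, 4, 3] [248, 244, 240, 236, 232, 228] [] 100000 69231 69231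
    1246155 53846 0 76923 69231 0 0 0) (.S 3 4 (.S 3 2 (.S 3 1 (.S 3 0 (.S 4 10 (.S 4 5 (.L 5 9 [4,
    4, 3] [228, 224, 220, 210, 200, 190] [0, 0, 0, 0, 0, 0] 100000 22222 22222 1333336 44444 0
    66667 0 0 0 0) (.L 5 9 [4, 4, 3] [248, 244, 240, 236, 232, 228] [0, 0, 0, 0, 0, 0] 100000
    100000 0 700000 50000 0 200000 0 0 0 0)) (.E 2)) (.S 4 10 (.S 4 5 (.L 5 9 [4, 4, 3] [228, 224,
    220, 210, 200, 190] [12, 2, 0, 0, 0, 0] 100000 22222 22222 1344448 44444 0 66667 44444 0 0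
    22222) (.L 5 9 [4, 4, 3] [248, 244, 240, 236, 232, 228] [12, 2, 0, 0, 0, 0] 100000 195652 0 1
    73913 0 295652 0 0 0 0)) (.E 2))) (.S 4 10 (.S 4 5 (.S 4 2 (.L 5 9 [4, 4, 3] [210, 200, 190, 0,
    0, 0] [22, 16, 6, 0, 0, 0] 100000 40000 40000 1220000 60000 0 100000 40000 0 0 0) (.L 5 9 [4,
    4, 3] [228, 224, 220, 210, 200, 190] [22, 16, 6, 0, 0, 0] 100000 60000 20000 1020000 60000 0
    140000 0 0 0 0)) (.L 5 9 [4, 4, 3] [248, 244, 240, 236, 232, 228] [22, 16, 6, 0, 0, 0] 100000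
    200000 0 0 0 0 300000 0 0 0 0)) (.E 2))) (.E 1)) (.E 1))) (.S 3 3 (.S 3 1 (.S 3 0 (.L 5 9 [4,
    4, 3] [248, 244, 240, 236, 232, 228] [0, 0, 0, 0, 0, 0] 100000 17391 17391 1352176 43478 0
    43478 0 0 39130 8696) (.S 4 10 (.S 4 5 (.S 4 2 (.L 5 9 [4, 4, 3] [210, 200, 190, 0, 0, 0] [14,
    4, 0, 0, 0, 0] 100000 440000 360000 0 180000 0 180000 0 0 0 0) (.L 5 9 [4, 4, 3] [228, 224,
    220, 210, 200, 190] [14, 4, 0, 0, 0, 0] 100000 246000 47000 0 129000 0 299000 0 0 0 0)) (.L 5 9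
    [4, 4, 3] [248, 244, 240, 236, 232, 228] [14, 4, 0, 0, 0, 0] 100000 157144 1 0 64286 0 257143 0
    0 0 0)) (.E 2))) (.E 1)) (.E 1))) (.S 2 1 (.S 2 0 (.L 5 9 [4, 4, 3] [282, 278, 274, 270, 266,
    262] [] 100000 77780 77780 1222220 55556 0 100000 77778 0 0 0) (.S 3 3 (.S 3 1 (.S 3 0 (.S 4 11
    (.S 4 5 (.L 5 9 [4, 4, 3] [258, 254, 250, 240, 230, 220] [0, 0, 0, 0, 0, 0] 100000 40000 40000
    1240000 60000 0 100000 0 0 0 0) (.L 5 9 [4, 4, 3] [282, 278, 274, 270, 266, 262] [0, 0, 0, 0,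
    0, 0] 100000 100001 1 699999 66667 0 200000 0 0 0 0)) (.E 2)) (.S 4 11 (.S 4 5 (.L 5 9 [4, 4,
    3] [258, 254, 250, 240, 230, 220] [12, 2, 0, 0, 0, 0] 100000 100000 100000 1150000 75000 0
    100000 75000 0 0 0) (.L 5 9 [4, 4, 3] [282, 278, 274, 270, 266, 262] [12, 2, 0, 0, 0, 0] 100000
    184211 0 0 94737 0 284211 0 0 0 0)) (.E 2))) (.S 3 2 (.S 4 11 (.S 4 5 (.L 5 9 [4, 4, 3] [258,
    254, 250, 240, 230, 220] [22, 16, 6, 0, 0, 0] 100000 470000 380000 0 190000 0 190000 0 0 0 0)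
    (.L 5 9 [4, 4, 3] [282, 278, 274, 270, 266, 262] [22, 16, 6, 0, 0, 0] 100000 159092 1 0 86364 0
    259091 0 0 0 0)) (.E 2)) (.E 1))) (.E 1))) (.S 3 2 (.S 3 1 (.S 3 0 (.S 4 11 (.S 4 5 (.L 5 9 [4,
    4, 3] [258, 254, 250, 240, 230, 220] [0, 0, 0, 0, 0, 0] 100000 40000 40000 1220000 60000 0
    100000 0 0 0 0) (.L 5 9 [4, 4, 3] [282, 278, 274, 270, 266, 262] [0, 0, 0, 0, 0, 0] 100000
    170000 0 0 90000 0 270000 0 0 0 0)) (.E 2)) (.S 4 11 (.S 4 5 (.L 5 9 [4, 4, 3] [258, 254, 250,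
    240, 230, 220] [14, 4, 0, 0, 0, 0] 100000 293103 131034 1 163793 0 262069 0 0 0 0) (.L 5 9 [4,
    4, 3] [282, 278, 274, 270, 266, 262] [14, 4, 0, 0, 0, 0] 100000 147827 1 0 82609 0 247826 0 0 0
    0)) (.E 2))) (.E 1)) (.E 1)))

lemma n19_20_9_2_4 {n : ℕ} (hn : 6 ≤ n) : NoNd ((19 : ℕ) : ℤ) ((20 : ℕ) : ℤ) n 9 2
    (BlkD.inB (BlkD.upd (BlkD.upd (BlkD.upd (fun _ => 0) 0 5) 1 8) 1 10)
      (BlkD.upd (BlkD.upd (BlkD.upd (BlkD.upd (BlkD.upd (BlkD.upd (BlkD.upd (fun _ => 20) 0 9) 2 2) 0 7) 0 6) 0 5) 1 15) 1 11)) :=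
  BlkD.part_sound (d := d19_20_9_2) dk19_20_9_2 hn (by decide) (tr := t19_20_9_2_4)
    (by decide +kernel) rfl rfl rfl rfl

/-- the certificates of the part 5 of the pair `(9, 2)` -/
def t19_20_9_2_5 : BlkD.Tr :=
  .S 1 12 (.S 2 1 (.S 2 0 (.L 4 7 [4, 4, 4] [318, 314, 310, 306, 302, 298] [] 100000 104350 104350
    1173910 60870 0 100000 78261 0 0 13043) (.S 3 2 (.S 3 1 (.S 3 0 (.S 4 12 (.S 4 6 (.L 4 7 [4, 4,
    4] [294, 290, 286, 282, 272, 262] [0, 0, 0, 0, 0, 0] 100000 90909 90909 1163638 72727 0 100000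
    0 0 0 9091) (.L 4 7 [4, 4, 4] [318, 314, 310, 306, 302, 298] [0, 0, 0, 0, 0, 0] 100000 205263 0
    1 68421 0 305263 0 0 0 0)) (.E 2)) (.S 4 12 (.S 4 6 (.L 4 7 [4, 4, 4] [294, 290, 286, 282, 272,
    262] [12, 2, 0, 0, 0, 0] 100000 120000 120000 1080000 80000 0 100000 0 0 0 0) (.L 4 7 [4, 4, 4]
    [318, 314, 310, 306, 302, 298] [12, 2, 0, 0, 0, 0] 100000 177273 0 0 59091 0 277273 0 0 0 0))
    (.E 2))) (.S 4 12 (.S 4 6 (.L 4 7 [4, 4, 4] [294, 290, 286, 282, 272, 262] [22, 16, 6, 0, 0, 0]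
    100000 293056 130556 0 163889 0 262500 0 0 0 0) (.E 2)) (.E 2))) (.E 1))) (.S 3 1 (.S 3 0 (.S 4
    12 (.S 4 6 (.L 4 7 [4, 4, 4] [294, 290, 286, 282, 272, 262] [0, 0, 0, 0, 0, 0] 100000 293103
    131034 1 163793 0 262069 0 0 0 0) (.L 4 7 [4, 4, 4] [318, 314, 310, 306, 302, 298] [0, 0, 0, 0,
    0, 0] 100000 169566 1 0 56522 0 269565 0 0 0 0)) (.E 2)) (.S 4 12 (.S 4 6 (.L 4 7 [4, 4, 4]
    [294, 290, 286, 282, 272, 262] [14, 4, 0, 0, 0, 0] 100000 324999 216666 4 158333 0 208333 0 0 0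
    0) (.E 2)) (.E 2))) (.E 1))) (.S 2 1 (.S 2 0 (.S 3 2 (.S 3 1 (.S 3 0 (.L 4 7 [4, 4, 4] [356,
    352, 348, 344, 340, 336] [0, 0, 0, 0, 0, 0] 100000 85715 85715 1199999 57143 0 100000 0 0 0
    14286) (.S 4 13 (.S 4 6 (.L 4 7 [4, 4, 4] [328, 324, 320, 316, 306, 296] [10, 0, 0, 0, 0, 0]
    100000 331818 172727 2 172727 0 259091 172727 0 0 0) (.L 4 7 [4, 4, 4] [356, 352, 348, 344,
    340, 336] [10, 0, 0, 0, 0, 0] 100000 216667 0 0 72222 0 316667 27778 0 0 0)) (.E 2))) (.S 4 13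
    (.S 4 6 (.L 4 7 [4, 4, 4] [328, 324, 320, 316, 306, 296] [18, 12, 2, 0, 0, 0] 100000 342362
    229168 1 163889 0 213194 147917 0 0 0) (.L 4 7 [4, 4, 4] [356, 352, 348, 344, 340, 336] [18,
    12, 2, 0, 0, 0] 100000 172727 0 2 90909 0 272727 0 0 0 0)) (.E 2))) (.L 4 7 [4, 4, 4] [356,
    352, 348, 344, 340, 336] [] 100000 0 100000 0 0 0 0 0 0 0 0)) (.S 3 1 (.S 3 0 (.S 4 13 (.S 4 6
    (.L 4 7 [4, 4, 4] [328, 324, 320, 316, 306, 296] [0, 0, 0, 0, 0, 0] 100000 100000 100000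
    1125000 75000 0 100000 0 0 0 0) (.L 4 7 [4, 4, 4] [356, 352, 348, 344, 340, 336] [0, 0, 0, 0,
    0, 0] 100000 210000 0 0 70000 0 310000 0 0 0 0)) (.E 2)) (.S 4 13 (.S 4 6 (.L 4 7 [4, 4, 4]
    [328, 324, 320, 316, 306, 296] [12, 2, 0, 0, 0, 0] 100000 245832 58332 3 158333 0 287500 0 0 0
    0) (.L 4 7 [4, 4, 4] [356, 352, 348, 344, 340, 336] [12, 2, 0, 0, 0, 0] 100000 160871 1 0 86957
    0 260870 0 0 0 0)) (.E 2))) (.L 4 7 [4, 4, 4] [356, 352, 348, 344, 340, 336] [] 100000 0 100000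
    0 0 0 0 0 0 0 0))) (.S 3 0 (.S 4 13 (.S 4 6 (.L 4 7 [4, 4, 4] [328, 324, 320, 316, 306, 296]
    [0, 0, 0, 0, 0, 0] 100000 274999 116666 4 158333 0 258333 0 0 0 0) (.L 4 7 [4, 4, 4] [356, 352,
    348, 344, 340, 336] [0, 0, 0, 0, 0, 0] 100000 150000 0 2 83333 0 250000 0 0 0 0)) (.E 2)) (.L 4
    7 [4, 4, 4] [356, 352, 348, 344, 340, 336] [] 100000 0 100000 0 0 0 0 0 0 0 0)))

lemma n19_20_9_2_5 {n : ℕ} (hn : 6 ≤ n) : NoNd ((19 : ℕ) : ℤ) ((20 : ℕ) : ℤ) n 9 2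
    (BlkD.inB (BlkD.upd (BlkD.upd (BlkD.upd (fun _ => 0) 0 5) 1 8) 1 12)
      (BlkD.upd (BlkD.upd (BlkD.upd (BlkD.upd (BlkD.upd (BlkD.upd (BlkD.upd (fun _ => 20) 0 9) 2 2) 0 7) 0 6) 0 5) 1 15) 1 13)) :=
  BlkD.part_sound (d := d19_20_9_2) dk19_20_9_2 hn (by decide) (tr := t19_20_9_2_5)
    (by decide +kernel) rfl rfl rfl rfl

/-- the certificates of the part 6 of the pair `(9, 2)` -/
def t19_20_9_2_6 : BlkD.Tr :=
  .S 1 14 (.S 2 1 (.S 2 0 (.S 3 1 (.S 3 0 (.S 4 14 (.S 4 7 (.L 4 7 [4, 4, 4] [368, 364, 360, 356,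
    352, 342] [0, 0, 0, 0, 0, 0] 100000 261112 66668 0 163889 0 294444 0 0 0 0) (.L 4 7 [4, 4, 4]
    [396, 392, 388, 384, 380, 376] [0, 0, 0, 0, 0, 0] 100000 177273 0 0 59091 0 277273 0 0 0 0))
    (.E 2)) (.S 4 14 (.S 4 7 (.L 4 7 [4, 4, 4] [368, 364, 360, 356, 352, 342] [10, 0, 0, 0, 0, 0]
    100000 295160 151612 5 159677 0 243548 159677 0 0 0) (.L 4 7 [4, 4, 4] [396, 392, 388, 384,
    380, 376] [10, 0, 0, 0, 0, 0] 100000 172727 0 2 90909 0 272727 0 0 0 0)) (.E 2))) (.L 4 7 [4,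
    4, 4] [396, 392, 388, 384, 380, 376] [] 100000 0 100000 0 0 0 0 0 0 0 0)) (.S 3 0 (.S 4 14 (.S
    4 7 (.L 4 7 [4, 4, 4] [368, 364, 360, 356, 352, 342] [0, 0, 0, 0, 0, 0] 100000 350000 200000 0
    175000 0 250000 0 0 0 0) (.L 4 7 [4, 4, 4] [396, 392, 388, 384, 380, 376] [0, 0, 0, 0, 0, 0]
    100000 160871 1 0 86957 0 260870 0 0 0 0)) (.E 2)) (.L 4 7 [4, 4, 4] [396, 392, 388, 384, 380,
    376] [] 100000 0 100000 0 0 0 0 0 0 0 0))) (.L 4 7 [4, 4, 4] [396, 392, 388, 384, 380, 376] []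
    100000 0 100000 0 0 0 0 0 0 0 0)) (.S 2 1 (.S 2 0 (.S 3 0 (.S 4 15 (.S 4 7 (.L 4 7 [4, 4, 4]
    [406, 402, 398, 394, 390, 380] [0, 0, 0, 0, 0, 0] 100000 245832 58332 3 158333 0 287500 0 0 0
    0) (.L 4 7 [4, 4, 4] [438, 434, 430, 426, 422, 418] [0, 0, 0, 0, 0, 0] 100000 160871 1 0 86957
    0 260870 0 0 0 0)) (.E 2)) (.L 4 7 [4, 4, 4] [438, 434, 430, 426, 422, 418] [] 100000 0 100000
    0 0 0 0 0 0 0 0)) (.L 4 7 [4, 4, 4] [438, 434, 430, 426, 422, 418] [] 100000 0 100000 0 0 0 0 0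
    0 0 0)) (.L 4 7 [4, 4, 4] [438, 434, 430, 426, 422, 418] [] 100000 0 100000 0 0 0 0 0 0 0 0))

lemma n19_20_9_2_6 {n : ℕ} (hn : 6 ≤ n) : NoNd ((19 : ℕ) : ℤ) ((20 : ℕ) : ℤ) n 9 2
    (BlkD.inB (BlkD.upd (BlkD.upd (BlkD.upd (BlkD.upd (fun _ => 0) 0 5) 1 8) 1 12) 1 14)
      (BlkD.upd (BlkD.upd (BlkD.upd (BlkD.upd (BlkD.upd (BlkD.upd (fun _ => 20) 0 9) 2 2) 0 7) 0 6) 0 5) 1 15)) :=
  BlkD.part_sound (d := d19_20_9_2) dk19_20_9_2 hn (by decide) (tr := t19_20_9_2_6)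
    (by decide +kernel) rfl rfl rfl rfl

/-- the certificates of the part 7 of the pair `(9, 2)` -/
def t19_20_9_2_7 : BlkD.Tr :=
  .E 0

lemma n19_20_9_2_7 {n : ℕ} (hn : 6 ≤ n) : NoNd ((19 : ℕ) : ℤ) ((20 : ℕ) : ℤ) n 9 2
    (BlkD.inB (BlkD.upd (BlkD.upd (fun _ => 0) 0 5) 1 16)
      (BlkD.upd (BlkD.upd (BlkD.upd (BlkD.upd (BlkD.upd (fun _ => 20) 0 9) 2 2) 0 7) 0 6) 0 5)) :=
  BlkD.part_sound (d := d19_20_9_2) dk19_20_9_2 hn (by decide) (tr := t19_20_9_2_7)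
    (by decide +kernel) rfl rfl rfl rfl

/-- the certificates of the part 8 of the pair `(9, 2)` -/
def t19_20_9_2_8 : BlkD.Tr :=
  .S 1 3 (.L 4 7 [4, 4, 4] [] [] 100000 25000 25000 1100000 50000 0 50000 25000 0 0 0) (.S 1 5 (.L
    4 7 [4, 4, 4] [] [] 100000 12500 12500 1300000 25000 0 25000 37500 0 0 0) (.S 1 6 (.L 4 7 [4,
    4, 4] [144, 140, 136, 132, 122, 112] [] 100000 14707 14707 1352940 29412 0 29412 35294 0 35294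
    17647) (.S 2 1 (.S 2 0 (.S 3 7 (.S 3 3 (.S 3 1 (.L 4 7 [4, 4, 4] [172, 168, 164, 160, 156, 146]
    [] 100000 12500 12500 1300000 25000 0 50000 25000 0 0 0) (.S 3 2 (.L 4 7 [4, 4, 4] [172, 168,
    164, 160, 156, 146] [18, 12, 2, 0, 0, 0] 100000 15790 15790 1342106 31579 0 42105 42105 0 10526
    15789) (.L 5 9 [4, 4, 3] [172, 168, 164, 160, 156, 146] [28, 22, 16, 6, 0, 0] 100000 62500
    62500 1250000 50000 0 50000 50000 0 0 25000))) (.L 5 9 [4, 4, 3] [172, 168, 164, 160, 156, 146]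
    [] 100000 143750 143750 1018750 68750 0 68750 100000 0 0 25000)) (.E 1)) (.S 3 6 (.S 3 3 (.S 3
    1 (.L 5 9 [4, 4, 3] [172, 168, 164, 160, 156, 146] [] 100000 8333 8333 1366668 33333 0 44444
    33333 0 16667 16667) (.S 3 2 (.S 4 7 (.S 4 3 (.L 5 9 [4, 4, 3] [156, 146, 136, 126, 0, 0] [22,
    16, 6, 0, 0, 0] 100000 14286 14286 1342858 42857 0 42857 0 0 14286 14286) (.L 5 9 [4, 4, 3]
    [172, 168, 164, 160, 156, 146] [22, 16, 6, 0, 0, 0] 100000 100000 0 700000 50000 0 200000 0 0 0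
    0)) (.E 2)) (.E 1))) (.E 1)) (.E 1))) (.L 5 9 [4, 4, 3] [172, 168, 164, 160, 156, 146] []
    100000 50000 50000 1250000 50000 0 50000 0 0 0 0))))

lemma n19_20_9_2_8 {n : ℕ} (hn : 6 ≤ n) : NoNd ((19 : ℕ) : ℤ) ((20 : ℕ) : ℤ) n 9 2
    (BlkD.inB (BlkD.upd (BlkD.upd (fun _ => 0) 0 5) 0 6)
      (BlkD.upd (BlkD.upd (BlkD.upd (BlkD.upd (BlkD.upd (BlkD.upd (fun _ => 20) 0 9) 2 2) 0 7) 0 6) 1 14) 1 7)) :=
  BlkD.part_sound (d := d19_20_9_2) dk19_20_9_2 hn (by decide) (tr := t19_20_9_2_8)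
    (by decide +kernel) rfl rfl rfl rfl

/-- the certificates of the part 9 of the pair `(9, 2)` -/
def t19_20_9_2_9 : BlkD.Tr :=
  .S 1 9 (.S 1 8 (.S 2 1 (.S 2 0 (.L 5 9 [4, 4, 3] [202, 198, 194, 190, 186, 182] [] 100000 55101
    55101 1279595 51020 0 67347 63265 0 0 8163) (.S 3 5 (.S 3 2 (.S 3 1 (.S 3 0 (.L 3 6 [4, 5, 5]
    [202, 198, 194, 190, 186, 182] [0, 0, 0, 0, 0, 0] 100000 15385 15385 1346155 30769 0 61538 0 0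
    23077 23077) (.L 5 9 [4, 4, 3] [202, 198, 194, 190, 186, 182] [12, 2, 0, 0, 0, 0] 100000 15000
    15000 1360000 40000 0 60000 40000 0 30000 10000)) (.S 4 8 (.S 4 4 (.L 5 9 [4, 4, 3] [186, 182,
    172, 162, 152, 0] [22, 16, 6, 0, 0, 0] 100000 80000 80000 1180000 70000 0 100000 30000 0 10000
    20000) (.L 5 9 [4, 4, 3] [202, 198, 194, 190, 186, 182] [22, 16, 6, 0, 0, 0] 100000 216667 0 0
    58333 0 316667 0 0 0 0)) (.E 2))) (.E 1)) (.E 1))) (.L 5 9 [4, 4, 3] [202, 198, 194, 190, 186,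
    182] [] 100000 14286 14286 1357144 42857 0 42857 0 0 42857 14286)) (.S 2 1 (.S 2 0 (.L 5 9 [4,
    4, 3] [234, 230, 226, 222, 218, 214] [] 100000 75000 75000 1235000 55000 0 100000 80000 0 0
    5000) (.S 3 4 (.S 3 2 (.S 3 1 (.S 3 0 (.S 4 9 (.S 4 4 (.L 5 9 [4, 4, 3] [214, 210, 200, 190,
    180, 0] [0, 0, 0, 0, 0, 0] 100000 40000 40000 1260000 60000 0 100000 0 0 0 0) (.L 5 9 [4, 4, 3]
    [234, 230, 226, 222, 218, 214] [0, 0, 0, 0, 0, 0] 100000 29412 5883 1147061 41176 0 123529 0 0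
    5882 5882)) (.E 2)) (.S 4 9 (.S 4 4 (.L 5 9 [4, 4, 3] [214, 210, 200, 190, 180, 0] [12, 2, 0,
    0, 0, 0] 100000 66668 66668 1199999 66667 0 100000 66667 0 0 0) (.L 5 9 [4, 4, 3] [234, 230,
    226, 222, 218, 214] [12, 2, 0, 0, 0, 0] 100000 100001 1 700000 66667 0 200000 0 0 0 0)) (.E
    2))) (.S 4 9 (.S 4 4 (.L 5 9 [4, 4, 3] [214, 210, 200, 190, 180, 0] [22, 16, 6, 0, 0, 0] 100000
    40000 40000 1240000 60000 0 100000 40000 0 0 0) (.L 5 9 [4, 4, 3] [234, 230, 226, 222, 218,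
    214] [22, 16, 6, 0, 0, 0] 100000 200000 0 0 100000 0 300000 0 0 0 0)) (.E 2))) (.E 1)) (.E 1)))
    (.L 5 9 [4, 4, 3] [234, 230, 226, 222, 218, 214] [] 100000 36842 36842 1321056 47368 0 100000 0
    0 15789 15789))) (.S 1 10 (.S 2 1 (.S 2 0 (.L 5 9 [4, 4, 3] [268, 264, 260, 256, 252, 248] []
    100000 75000 75000 1235000 55000 0 100000 80000 0 0 5000) (.S 3 3 (.S 3 1 (.S 3 0 (.L 5 9 [4,
    4, 3] [268, 264, 260, 256, 252, 248] [0, 0, 0, 0, 0, 0] 100000 22222 22222 1333336 44444 0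
    100000 0 0 0 0) (.S 4 10 (.S 4 5 (.L 5 9 [4, 4, 3] [248, 244, 240, 230, 220, 210] [12, 2, 0, 0,
    0, 0] 100000 54545 54545 1218184 63636 0 100000 63636 0 0 9091) (.L 5 9 [4, 4, 3] [268, 264,
    260, 256, 252, 248] [12, 2, 0, 0, 0, 0] 100000 200000 0 0 100000 0 300000 0 0 0 0)) (.E 2)))
    (.S 3 2 (.S 4 10 (.S 4 5 (.L 5 9 [4, 4, 3] [248, 244, 240, 230, 220, 210] [22, 16, 6, 0, 0, 0]
    100000 25000 25000 1306250 56250 0 100000 0 0 18750 18750) (.L 5 9 [4, 4, 3] [268, 264, 260,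
    256, 252, 248] [22, 16, 6, 0, 0, 0] 100000 216667 0 0 0 0 316667 0 0 0 0)) (.E 2)) (.E 1))) (.E
    1))) (.L 5 9 [4, 4, 3] [268, 264, 260, 256, 252, 248] [] 100000 22222 22222 1344448 44444 0
    100000 0 0 0 0)) (.L 5 9 [4, 4, 3] [304, 300, 296, 292, 288, 284] [] 100000 75001 75001 1233332
    66667 0 100000 33333 0 0 16667))

lemma n19_20_9_2_9 {n : ℕ} (hn : 6 ≤ n) : NoNd ((19 : ℕ) : ℤ) ((20 : ℕ) : ℤ) n 9 2
    (BlkD.inB (BlkD.upd (BlkD.upd (BlkD.upd (fun _ => 0) 0 5) 0 6) 1 8)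
      (BlkD.upd (BlkD.upd (BlkD.upd (BlkD.upd (BlkD.upd (BlkD.upd (fun _ => 20) 0 9) 2 2) 0 7) 0 6) 1 14) 1 11)) :=
  BlkD.part_sound (d := d19_20_9_2) dk19_20_9_2 hn (by decide) (tr := t19_20_9_2_9)
    (by decide +kernel) rfl rfl rfl rfl

/-- the certificates of the part 10 of the pair `(9, 2)` -/
def t19_20_9_2_10 : BlkD.Tr :=
  .S 1 13 (.S 1 12 (.L 5 9 [4, 4, 3] [342, 338, 334, 330, 326, 322] [] 100000 76924 76924 1223076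
    69231 0 100000 46154 0 0 0) (.S 2 1 (.S 2 0 (.L 5 9 [4, 4, 3] [382, 378, 374, 370, 366, 362] []
    100000 266668 66668 0 166667 0 300000 66667 0 0 0) (.S 3 0 (.S 4 13 (.S 4 6 (.L 5 9 [4, 4, 3]
    [354, 350, 346, 342, 332, 322] [0, 0, 0, 0, 0, 0] 100000 275000 125000 0 187500 0 250000 0 0 0
    0) (.L 5 9 [4, 4, 3] [382, 378, 374, 370, 366, 362] [0, 0, 0, 0, 0, 0] 100000 166667 0 0 133333
    0 266667 0 0 0 0)) (.E 2)) (.L 5 9 [4, 4, 3] [382, 378, 374, 370, 366, 362] [] 100000 0 100000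
    0 0 0 0 0 0 0 0))) (.L 5 9 [4, 4, 3] [382, 378, 374, 370, 366, 362] [] 100000 0 100000 0 0 0 0
    0 0 0 0))) (.L 5 9 [4, 4, 3] [424, 420, 416, 412, 408, 404] [] 100000 245832 58332 3 158333 0
    287500 0 0 0 0)

lemma n19_20_9_2_10 {n : ℕ} (hn : 6 ≤ n) : NoNd ((19 : ℕ) : ℤ) ((20 : ℕ) : ℤ) n 9 2
    (BlkD.inB (BlkD.upd (BlkD.upd (BlkD.upd (BlkD.upd (fun _ => 0) 0 5) 0 6) 1 8) 1 12)
      (BlkD.upd (BlkD.upd (BlkD.upd (BlkD.upd (BlkD.upd (fun _ => 20) 0 9) 2 2) 0 7) 0 6) 1 14)) :=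
  BlkD.part_sound (d := d19_20_9_2) dk19_20_9_2 hn (by decide) (tr := t19_20_9_2_10)
    (by decide +kernel) rfl rfl rfl rfl

/-- the certificates of the part 11 of the pair `(9, 2)` -/
def t19_20_9_2_11 : BlkD.Tr :=
  .E 0

lemma n19_20_9_2_11 {n : ℕ} (hn : 6 ≤ n) : NoNd ((19 : ℕ) : ℤ) ((20 : ℕ) : ℤ) n 9 2
    (BlkD.inB (BlkD.upd (BlkD.upd (BlkD.upd (fun _ => 0) 0 5) 0 6) 1 15)
      (BlkD.upd (BlkD.upd (BlkD.upd (BlkD.upd (fun _ => 20) 0 9) 2 2) 0 7) 0 6)) :=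
  BlkD.part_sound (d := d19_20_9_2) dk19_20_9_2 hn (by decide) (tr := t19_20_9_2_11)
    (by decide +kernel) rfl rfl rfl rfl

/-- the certificates of the part 12 of the pair `(9, 2)` -/
def t19_20_9_2_12 : BlkD.Tr :=
  .S 1 13 (.S 1 6 (.S 1 3 (.L 5 9 [4, 4, 3] [] [] 100000 25000 25000 1200000 50000 0 50000 25000 0
    0 0) (.S 1 5 (.L 5 9 [4, 4, 3] [] [] 100000 1282 1282 1387181 28205 0 28205 35897 0 38462
    25641) (.L 5 9 [4, 4, 3] [156, 152, 148, 144, 134, 124] [] 100000 15000 15000 1360000 40000 0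
    80000 30000 0 10000 10000))) (.S 1 10 (.S 1 8 (.S 1 7 (.L 5 9 [4, 4, 3] [186, 182, 178, 174,
    170, 160] [] 100000 37500 37500 1300000 50000 0 100000 25000 0 0 0) (.L 5 9 [4, 4, 3] [218,
    214, 210, 206, 202, 198] [] 100000 66668 66668 1233334 66667 0 100000 33333 0 0 0)) (.S 1 9 (.L
    5 9 [4, 4, 3] [252, 248, 244, 240, 236, 232] [] 100000 25000 25000 1300000 50000 0 100000 50000
    0 0 0) (.L 5 9 [4, 4, 3] [288, 284, 280, 276, 272, 268] [] 100000 28572 28572 1271429 57143 0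
    100000 28571 0 14286 14286))) (.S 1 12 (.S 1 11 (.L 5 9 [4, 4, 3] [326, 322, 318, 314, 310,
    306] [] 100000 216667 0 0 158333 0 316667 0 0 0 0) (.L 5 9 [4, 4, 3] [366, 362, 358, 354, 350,
    346] [] 100000 207692 0 2 153846 0 307692 0 0 0 0)) (.L 5 9 [4, 4, 3] [408, 404, 400, 396, 392,
    388] [] 100000 185714 0 2 142857 0 285714 0 0 0 0)))) (.E 0)

lemma n19_20_9_2_12 {n : ℕ} (hn : 6 ≤ n) : NoNd ((19 : ℕ) : ℤ) ((20 : ℕ) : ℤ) n 9 2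
    (BlkD.inB (BlkD.upd (BlkD.upd (fun _ => 0) 0 5) 0 7)
      (BlkD.upd (BlkD.upd (BlkD.upd (fun _ => 20) 0 9) 2 2) 0 7)) :=
  BlkD.part_sound (d := d19_20_9_2) dk19_20_9_2 hn (by decide) (tr := t19_20_9_2_12)
    (by decide +kernel) rfl rfl rfl rfl

/-- the certificates of the part 13 of the pair `(9, 2)` -/
def t19_20_9_2_13 : BlkD.Tr :=
  .S 0 8 (.S 1 12 (.S 1 6 (.S 1 3 (.L 5 9 [4, 4, 3] [] [] 100000 0 0 1333335 33333 0 33333 33333 0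
    33333 33333) (.S 1 5 (.S 1 4 (.L 5 9 [4, 4, 3] [110, 106, 96, 86, 76, 0] [] 100000 0 0 1366668
    33333 0 66667 33333 0 33333 33333) (.L 5 9 [4, 4, 3] [138, 134, 130, 120, 110, 100] [] 100000
    16667 16667 1333335 33333 0 100000 33333 0 0 0)) (.L 5 9 [4, 4, 3] [168, 164, 160, 156, 146,
    136] [] 100000 26667 26667 1293334 53333 0 100000 26667 0 6667 6667))) (.L 5 9 [4, 4, 3] [] []
    100000 0 0 1300000 0 0 100000 50000 0 0 0)) (.E 0)) (.L 5 9 [4, 4, 3] [] [] 100000 3 3 1382574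
    8714 0 54357 31535 2905 5809 2905)

lemma n19_20_9_2_13 {n : ℕ} (hn : 6 ≤ n) : NoNd ((19 : ℕ) : ℤ) ((20 : ℕ) : ℤ) n 9 2
    (BlkD.inB (BlkD.upd (BlkD.upd (fun _ => 0) 0 5) 0 8)
      (BlkD.upd (BlkD.upd (fun _ => 20) 0 9) 2 2)) :=
  BlkD.part_sound (d := d19_20_9_2) dk19_20_9_2 hn (by decide) (tr := t19_20_9_2_13)
    (by decide +kernel) rfl rfl rfl rfl

/-- the certificates of the part 14 of the pair `(9, 2)` -/
def t19_20_9_2_14 : BlkD.Tr :=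
  .E 1

lemma n19_20_9_2_14 {n : ℕ} (hn : 6 ≤ n) : NoNd ((19 : ℕ) : ℤ) ((20 : ℕ) : ℤ) n 9 2
    (BlkD.inB (BlkD.upd (fun _ => 0) 2 3)
      (BlkD.upd (fun _ => 20) 0 9)) :=
  BlkD.part_sound (d := d19_20_9_2) dk19_20_9_2 hn (by decide) (tr := t19_20_9_2_14)
    (by decide +kernel) rfl rfl rfl rfl

/-- the certificates of the part 15 of the pair `(9, 2)` -/
def t19_20_9_2_15 : BlkD.Tr :=
  .E 0

lemma n19_20_9_2_15 {n : ℕ} (hn : 6 ≤ n) : NoNd ((19 : ℕ) : ℤ) ((20 : ℕ) : ℤ) n 9 2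
    (BlkD.inB (BlkD.upd (fun _ => 0) 0 10)
      (fun _ => 20)) :=
  BlkD.part_sound (d := d19_20_9_2) dk19_20_9_2 hn (by decide) (tr := t19_20_9_2_15)
    (by decide +kernel) rfl rfl rfl rfl

lemma pr19_20_9_2 {n : ℕ} (hn : 6 ≤ n) : NoPr ((19 : ℕ) : ℤ) ((20 : ℕ) : ℤ) n 9 2 :=
  BlkD.of_root (q := 4) (by decide) hn (BlkD.sp 0 9 (BlkD.sp 2 2 (BlkD.sp 0 4 (n19_20_9_2_1 hn)
    (BlkD.sp 0 7 (BlkD.sp 0 6 (BlkD.sp 0 5 (BlkD.sp 1 15 (BlkD.sp 1 7 (n19_20_9_2_2 hn)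
    (BlkD.sp 1 11 (BlkD.sp 1 9 (n19_20_9_2_3 hn)
    (n19_20_9_2_4 hn))
    (BlkD.sp 1 13 (n19_20_9_2_5 hn)
    (n19_20_9_2_6 hn))))
    (n19_20_9_2_7 hn))
    (BlkD.sp 1 14 (BlkD.sp 1 7 (n19_20_9_2_8 hn)
    (BlkD.sp 1 11 (n19_20_9_2_9 hn)
    (n19_20_9_2_10 hn)))
    (n19_20_9_2_11 hn)))
    (n19_20_9_2_12 hn))
    (n19_20_9_2_13 hn)))
    (n19_20_9_2_14 hn))
    (n19_20_9_2_15 hn))

end BlkC

end Pool.Agent.Lib.MP_f04ccf_co
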