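import Pool.Agent.Lib.MP_f04ccf_co.M.BlkTp

/-!
MP_f04ccf_co, block certificate, data `R = 19`, `H = 20`, part 7 (certificates: helper99, bd9.cpp).
-/

set_option autoImplicit false
set_option maxRecDepth 100000

namespace Pool.Agent.Lib.MP_f04ccf_co

namespace BlkC

/-- the numbers of the pair `(9, 3)`, `R = 19`, `H = 20` -/
def d19_20_9_3 : BlkD.Pd :=
  ⟨19, 20, 4, 9, 3, 5, 1, 2, 0, 4, 8, 0, 2, 2, 6, 0, [0, 8, 16, 20, 20, 20], [0, 6, 12, 16, 18,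
    20], [⟨1, 1, 1, 4, 8, [0, 4], [0, 4]⟩, ⟨1, 1, 1, 4, 14, [0, 8], [0, 6]⟩]⟩

lemma dk19_20_9_3 : BlkD.pairOk d19_20_9_3 = true := by decide +kernel

/-- the certificates of the part 1 of the pair `(9, 3)` -/
def t19_20_9_3_1 : BlkD.Tr :=
  .L 5 9 [4, 3, 19, 19] [] [] 100000 1 1 1433334 66667 16667 83333 50000 0 0 0

lemma n19_20_9_3_1 {n : ℕ} (hn : 6 ≤ n) : NoNd ((19 : ℕ) : ℤ) ((20 : ℕ) : ℤ) n 9 3
    (BlkD.inB (fun _ => 0)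
      (BlkD.upd (BlkD.upd (BlkD.upd (BlkD.upd (fun _ => 20) 0 9) 2 3) 0 4) 0 2)) :=
  BlkD.part_sound (d := d19_20_9_3) dk19_20_9_3 hn (by decide) (tr := t19_20_9_3_1)
    (by decide +kernel) rfl rfl rfl rfl

/-- the certificates of the part 2 of the pair `(9, 3)` -/
def t19_20_9_3_2 : BlkD.Tr :=
  .L 5 9 [4, 3, 19, 19] [] [] 100000 1 1 1433334 66667 16667 83333 50000 0 0 0

lemma n19_20_9_3_2 {n : ℕ} (hn : 6 ≤ n) : NoNd ((19 : ℕ) : ℤ) ((20 : ℕ) : ℤ) n 9 3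
    (BlkD.inB (BlkD.upd (fun _ => 0) 0 3)
      (BlkD.upd (BlkD.upd (BlkD.upd (fun _ => 20) 0 9) 2 3) 0 4)) :=
  BlkD.part_sound (d := d19_20_9_3) dk19_20_9_3 hn (by decide) (tr := t19_20_9_3_2)
    (by decide +kernel) rfl rfl rfl rfl

/-- the certificates of the part 3 of the pair `(9, 3)` -/
def t19_20_9_3_3 : BlkD.Tr :=
  .L 5 9 [4, 3, 19, 19] [] [] 100000 1 1 1433334 66667 16667 83333 50000 0 0 0

lemma n19_20_9_3_3 {n : ℕ} (hn : 6 ≤ n) : NoNd ((19 : ℕ) : ℤ) ((20 : ℕ) : ℤ) n 9 3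
    (BlkD.inB (BlkD.upd (fun _ => 0) 0 5)
      (BlkD.upd (BlkD.upd (BlkD.upd (fun _ => 20) 0 9) 2 3) 0 7)) :=
  BlkD.part_sound (d := d19_20_9_3) dk19_20_9_3 hn (by decide) (tr := t19_20_9_3_3)
    (by decide +kernel) rfl rfl rfl rfl

/-- the certificates of the part 4 of the pair `(9, 3)` -/
def t19_20_9_3_4 : BlkD.Tr :=
  .L 5 9 [4, 3, 19, 19] [] [] 100000 1 1 1433334 66667 16667 83333 50000 0 0 0

lemma n19_20_9_3_4 {n : ℕ} (hn : 6 ≤ n) : NoNd ((19 : ℕ) : ℤ) ((20 : ℕ) : ℤ) n 9 3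
    (BlkD.inB (BlkD.upd (BlkD.upd (fun _ => 0) 0 5) 0 8)
      (BlkD.upd (BlkD.upd (fun _ => 20) 0 9) 2 3)) :=
  BlkD.part_sound (d := d19_20_9_3) dk19_20_9_3 hn (by decide) (tr := t19_20_9_3_4)
    (by decide +kernel) rfl rfl rfl rfl

/-- the certificates of the part 5 of the pair `(9, 3)` -/
def t19_20_9_3_5 : BlkD.Tr :=
  .E 1

lemma n19_20_9_3_5 {n : ℕ} (hn : 6 ≤ n) : NoNd ((19 : ℕ) : ℤ) ((20 : ℕ) : ℤ) n 9 3
    (BlkD.inB (BlkD.upd (fun _ => 0) 2 4)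
      (BlkD.upd (fun _ => 20) 0 9)) :=
  BlkD.part_sound (d := d19_20_9_3) dk19_20_9_3 hn (by decide) (tr := t19_20_9_3_5)
    (by decide +kernel) rfl rfl rfl rfl

/-- the certificates of the part 6 of the pair `(9, 3)` -/
def t19_20_9_3_6 : BlkD.Tr :=
  .E 0

lemma n19_20_9_3_6 {n : ℕ} (hn : 6 ≤ n) : NoNd ((19 : ℕ) : ℤ) ((20 : ℕ) : ℤ) n 9 3
    (BlkD.inB (BlkD.upd (fun _ => 0) 0 10)
      (fun _ => 20)) :=
  BlkD.part_sound (d := d19_20_9_3) dk19_20_9_3 hn (by decide) (tr := t19_20_9_3_6)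
    (by decide +kernel) rfl rfl rfl rfl

lemma pr19_20_9_3 {n : ℕ} (hn : 6 ≤ n) : NoPr ((19 : ℕ) : ℤ) ((20 : ℕ) : ℤ) n 9 3 :=
  BlkD.of_root (q := 4) (by decide) hn (BlkD.sp 0 9 (BlkD.sp 2 3 (BlkD.sp 0 4 (BlkD.sp 0 2 (n19_20_9_3_1 hn)
    (n19_20_9_3_2 hn))
    (BlkD.sp 0 7 (n19_20_9_3_3 hn)
    (n19_20_9_3_4 hn)))
    (n19_20_9_3_5 hn))
    (n19_20_9_3_6 hn))

/-- the numbers of the pair `(9, 4)`, `R = 19`, `H = 20` -/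
def d19_20_9_4 : BlkD.Pd :=
  ⟨19, 20, 4, 9, 4, 4, 0, 3, 0, 4, 4, 0, 0, 4, 4, 0, [0, 4, 8, 12, 16], [0, 4, 8, 12, 16], [⟨1, 1,
    1, 4, 8, [0, 4], [0, 4]⟩]⟩

lemma dk19_20_9_4 : BlkD.pairOk d19_20_9_4 = true := by decide +kernel

/-- the certificates of the part 1 of the pair `(9, 4)` -/
def t19_20_9_4_1 : BlkD.Tr :=
  .L 3 3 [4, 19, 19, 19, 19] [] [] 100000 0 0 1500000 100000 25000 100000 50000 0 0 0

lemma n19_20_9_4_1 {n : ℕ} (hn : 6 ≤ n) : NoNd ((19 : ℕ) : ℤ) ((20 : ℕ) : ℤ) n 9 4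
    (BlkD.inB (fun _ => 0)
      (BlkD.upd (BlkD.upd (BlkD.upd (BlkD.upd (BlkD.upd (fun _ => 20) 0 9) 2 4) 0 4) 0 2) 0 1)) :=
  BlkD.part_sound (d := d19_20_9_4) dk19_20_9_4 hn (by decide) (tr := t19_20_9_4_1)
    (by decide +kernel) rfl rfl rfl rfl

/-- the certificates of the part 2 of the pair `(9, 4)` -/
def t19_20_9_4_2 : BlkD.Tr :=
  .L 3 3 [4, 19, 19, 19, 19] [] [] 100000 0 0 1500000 100000 25000 100000 50000 0 0 0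

lemma n19_20_9_4_2 {n : ℕ} (hn : 6 ≤ n) : NoNd ((19 : ℕ) : ℤ) ((20 : ℕ) : ℤ) n 9 4
    (BlkD.inB (BlkD.upd (fun _ => 0) 0 2)
      (BlkD.upd (BlkD.upd (BlkD.upd (BlkD.upd (fun _ => 20) 0 9) 2 4) 0 4) 0 2)) :=
  BlkD.part_sound (d := d19_20_9_4) dk19_20_9_4 hn (by decide) (tr := t19_20_9_4_2)
    (by decide +kernel) rfl rfl rfl rfl

/-- the certificates of the part 3 of the pair `(9, 4)` -/
def t19_20_9_4_3 : BlkD.Tr :=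
  .L 3 3 [4, 19, 19, 19, 19] [] [] 100000 0 0 1500000 100000 25000 100000 50000 0 0 0

lemma n19_20_9_4_3 {n : ℕ} (hn : 6 ≤ n) : NoNd ((19 : ℕ) : ℤ) ((20 : ℕ) : ℤ) n 9 4
    (BlkD.inB (BlkD.upd (fun _ => 0) 0 3)
      (BlkD.upd (BlkD.upd (BlkD.upd (BlkD.upd (fun _ => 20) 0 9) 2 4) 0 4) 0 3)) :=
  BlkD.part_sound (d := d19_20_9_4) dk19_20_9_4 hn (by decide) (tr := t19_20_9_4_3)
    (by decide +kernel) rfl rfl rfl rfl

/-- the certificates of the part 4 of the pair `(9, 4)` -/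
def t19_20_9_4_4 : BlkD.Tr :=
  .L 3 3 [4, 19, 19, 19, 19] [] [] 100000 0 0 1500000 100000 25000 100000 50000 0 0 0

lemma n19_20_9_4_4 {n : ℕ} (hn : 6 ≤ n) : NoNd ((19 : ℕ) : ℤ) ((20 : ℕ) : ℤ) n 9 4
    (BlkD.inB (BlkD.upd (BlkD.upd (fun _ => 0) 0 3) 0 4)
      (BlkD.upd (BlkD.upd (BlkD.upd (fun _ => 20) 0 9) 2 4) 0 4)) :=
  BlkD.part_sound (d := d19_20_9_4) dk19_20_9_4 hn (by decide) (tr := t19_20_9_4_4)
    (by decide +kernel) rfl rfl rfl rfl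

/-- the certificates of the part 5 of the pair `(9, 4)` -/
def t19_20_9_4_5 : BlkD.Tr :=
  .L 3 3 [4, 19, 19, 19, 19] [] [] 100000 0 0 1500000 100000 25000 100000 50000 0 0 0

lemma n19_20_9_4_5 {n : ℕ} (hn : 6 ≤ n) : NoNd ((19 : ℕ) : ℤ) ((20 : ℕ) : ℤ) n 9 4
    (BlkD.inB (BlkD.upd (fun _ => 0) 0 5)
      (BlkD.upd (BlkD.upd (BlkD.upd (BlkD.upd (fun _ => 20) 0 9) 2 4) 0 7) 0 6)) :=
  BlkD.part_sound (d := d19_20_9_4) dk19_20_9_4 hn (by decide) (tr := t19_20_9_4_5)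
    (by decide +kernel) rfl rfl rfl rfl

/-- the certificates of the part 6 of the pair `(9, 4)` -/
def t19_20_9_4_6 : BlkD.Tr :=
  .L 3 3 [4, 19, 19, 19, 19] [] [] 100000 0 0 1500000 100000 25000 100000 50000 0 0 0

lemma n19_20_9_4_6 {n : ℕ} (hn : 6 ≤ n) : NoNd ((19 : ℕ) : ℤ) ((20 : ℕ) : ℤ) n 9 4
    (BlkD.inB (BlkD.upd (BlkD.upd (fun _ => 0) 0 5) 0 7)
      (BlkD.upd (BlkD.upd (BlkD.upd (fun _ => 20) 0 9) 2 4) 0 7)) :=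
  BlkD.part_sound (d := d19_20_9_4) dk19_20_9_4 hn (by decide) (tr := t19_20_9_4_6)
    (by decide +kernel) rfl rfl rfl rfl

/-- the certificates of the part 7 of the pair `(9, 4)` -/
def t19_20_9_4_7 : BlkD.Tr :=
  .L 3 3 [4, 19, 19, 19, 19] [] [] 100000 0 0 1500000 100000 25000 100000 50000 0 0 0

lemma n19_20_9_4_7 {n : ℕ} (hn : 6 ≤ n) : NoNd ((19 : ℕ) : ℤ) ((20 : ℕ) : ℤ) n 9 4
    (BlkD.inB (BlkD.upd (BlkD.upd (fun _ => 0) 0 5) 0 8)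
      (BlkD.upd (BlkD.upd (BlkD.upd (fun _ => 20) 0 9) 2 4) 0 8)) :=
  BlkD.part_sound (d := d19_20_9_4) dk19_20_9_4 hn (by decide) (tr := t19_20_9_4_7)
    (by decide +kernel) rfl rfl rfl rfl

/-- the certificates of the part 8 of the pair `(9, 4)` -/
def t19_20_9_4_8 : BlkD.Tr :=
  .L 3 3 [4, 19, 19, 19, 19] [] [] 100000 0 0 1500000 100000 25000 100000 50000 0 0 0

lemma n19_20_9_4_8 {n : ℕ} (hn : 6 ≤ n) : NoNd ((19 : ℕ) : ℤ) ((20 : ℕ) : ℤ) n 9 4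
    (BlkD.inB (BlkD.upd (BlkD.upd (BlkD.upd (fun _ => 0) 0 5) 0 8) 0 9)
      (BlkD.upd (BlkD.upd (fun _ => 20) 0 9) 2 4)) :=
  BlkD.part_sound (d := d19_20_9_4) dk19_20_9_4 hn (by decide) (tr := t19_20_9_4_8)
    (by decide +kernel) rfl rfl rfl rfl

/-- the certificates of the part 9 of the pair `(9, 4)` -/
def t19_20_9_4_9 : BlkD.Tr :=
  .E 1

lemma n19_20_9_4_9 {n : ℕ} (hn : 6 ≤ n) : NoNd ((19 : ℕ) : ℤ) ((20 : ℕ) : ℤ) n 9 4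
    (BlkD.inB (BlkD.upd (fun _ => 0) 2 5)
      (BlkD.upd (fun _ => 20) 0 9)) :=
  BlkD.part_sound (d := d19_20_9_4) dk19_20_9_4 hn (by decide) (tr := t19_20_9_4_9)
    (by decide +kernel) rfl rfl rfl rfl

/-- the certificates of the part 10 of the pair `(9, 4)` -/
def t19_20_9_4_10 : BlkD.Tr :=
  .E 0

lemma n19_20_9_4_10 {n : ℕ} (hn : 6 ≤ n) : NoNd ((19 : ℕ) : ℤ) ((20 : ℕ) : ℤ) n 9 4
    (BlkD.inB (BlkD.upd (fun _ => 0) 0 10)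
      (fun _ => 20)) :=
  BlkD.part_sound (d := d19_20_9_4) dk19_20_9_4 hn (by decide) (tr := t19_20_9_4_10)
    (by decide +kernel) rfl rfl rfl rfl

lemma pr19_20_9_4 {n : ℕ} (hn : 6 ≤ n) : NoPr ((19 : ℕ) : ℤ) ((20 : ℕ) : ℤ) n 9 4 :=
  BlkD.of_root (q := 4) (by decide) hn (BlkD.sp 0 9 (BlkD.sp 2 4 (BlkD.sp 0 4 (BlkD.sp 0 2 (BlkD.sp 0 1 (n19_20_9_4_1 hn)
    (n19_20_9_4_2 hn))
    (BlkD.sp 0 3 (n19_20_9_4_3 hn)
    (n19_20_9_4_4 hn)))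
    (BlkD.sp 0 7 (BlkD.sp 0 6 (n19_20_9_4_5 hn)
    (n19_20_9_4_6 hn))
    (BlkD.sp 0 8 (n19_20_9_4_7 hn)
    (n19_20_9_4_8 hn))))
    (n19_20_9_4_9 hn))
    (n19_20_9_4_10 hn))

/-- the numbers of the pair `(10, 0)`, `R = 19`, `H = 20` -/
def d19_20_10_0 : BlkD.Pd :=
  ⟨19, 20, 4, 10, 0, 7, 0, 1, 0, 4, 4, 0, 0, 4, 4, 0, [0, 4, 8, 12, 16, 20, 24, 28], [0, 4, 8, 12,
    16, 20, 24, 28], [⟨1, 1, 1, 4, 8, [0, 4], [0, 4]⟩]⟩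

lemma dk19_20_10_0 : BlkD.pairOk d19_20_10_0 = true := by decide +kernel

/-- the certificates of the part 1 of the pair `(10, 0)` -/
def t19_20_10_0_1 : BlkD.Tr :=
  .S 0 10 (.S 2 0 (.L 3 3 [4] [] [] 100000 0 0 1100000 100000 0 100000 0 0 0 0) (.E 1)) (.E 0)

lemma n19_20_10_0_1 {n : ℕ} (hn : 6 ≤ n) : NoNd ((19 : ℕ) : ℤ) ((20 : ℕ) : ℤ) n 10 0
    (BlkD.inB (fun _ => 0)
      (fun _ => 20)) :=
  BlkD.part_sound (d := d19_20_10_0) dk19_20_10_0 hn (by decide) (tr := t19_20_10_0_1)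
    (by decide +kernel) rfl rfl rfl rfl

lemma pr19_20_10_0 {n : ℕ} (hn : 6 ≤ n) : NoPr ((19 : ℕ) : ℤ) ((20 : ℕ) : ℤ) n 10 0 :=
  BlkD.of_root (q := 4) (by decide) hn (n19_20_10_0_1 hn)

/-- the numbers of the pair `(10, 1)`, `R = 19`, `H = 20` -/
def d19_20_10_1 : BlkD.Pd :=
  ⟨19, 20, 4, 10, 1, 6, 1, 1, 0, 4, 8, 0, 0, 4, 4, 0, [0, 8, 16, 24, 24, 24, 24], [0, 4, 8, 12, 16,
    20, 24], [⟨1, 1, 1, 4, 8, [0, 4], [0, 4]⟩, ⟨1, 1, 1, 4, 12, [0, 8], [0, 4]⟩]⟩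

lemma dk19_20_10_1 : BlkD.pairOk d19_20_10_1 = true := by decide +kernel

/-- the certificates of the part 1 of the pair `(10, 1)` -/
def t19_20_10_1_1 : BlkD.Tr :=
  .S 0 2 (.L 4 5 [4, 4] [] [] 100000 100000 100000 500000 100000 0 100000 0 0 0 0) (.S 0 4 (.L 4 5
    [4, 4] [] [] 100000 200000 200000 800000 100000 0 100000 0 0 0 0) (.S 1 15 (.S 1 7 (.L 4 5 [4,
    4] [] [] 100000 0 0 1120000 40000 0 40000 0 0 0 0) (.S 1 11 (.L 4 5 [4, 4] [] [] 100000 50000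
    50000 1250000 50000 0 100000 0 0 0 0) (.S 1 13 (.S 1 12 (.S 2 0 (.S 3 3 (.S 3 1 (.S 3 0 (.L 4 5
    [4, 4] [284, 284, 284, 284, 284, 284] [0, 0, 0, 0, 0, 0] 100000 0 0 1380000 40000 0 60000 0 0 0
    0) (.L 3 4 [4, 5] [284, 284, 284, 284, 284, 284] [8, 0, 0, 0, 0, 0] 100000 300000 300000 700000
    100000 0 100000 0 0 0 0)) (.L 3 4 [4, 5] [284, 284, 284, 284, 284, 284] [] 100000 533332 474999
    4 158333 0 158333 0 0 0 0)) (.E 1)) (.L 3 4 [4, 5] [284, 284, 284, 284, 284, 284] [] 100000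
    300000 300000 700000 100000 0 100000 0 0 0 0)) (.S 2 0 (.S 3 2 (.S 3 1 (.S 3 0 (.S 4 13 (.S 4 6
    (.S 4 3 (.S 4 1 (.L 3 4 [4, 5] [294, 286, 0, 0, 0, 0] [0, 0, 0, 0, 0, 0] 100000 440000 360000 0
    180000 0 180000 0 0 0 0) (.L 3 4 [4, 5] [310, 302, 294, 286, 0, 0] [0, 0, 0, 0, 0, 0] 100000
    50000 50000 1200000 50000 0 100000 0 0 0 0)) (.L 3 4 [4, 5] [318, 318, 318, 310, 302, 294] [0,
    0, 0, 0, 0, 0] 100000 0 0 1300000 25000 0 100000 0 0 0 0)) (.L 3 4 [4, 5] [318, 318, 318, 318,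
    318, 318] [0, 0, 0, 0, 0, 0] 100000 148276 0 0 62069 0 248276 0 0 0 0)) (.E 2)) (.L 3 4 [4, 5]
    [318, 318, 318, 318, 318, 318] [8, 0, 0, 0, 0, 0] 100000 533332 474999 4 158333 0 158333 0 0 0
    0)) (.L 3 4 [4, 5] [318, 318, 318, 318, 318, 318] [14, 10, 2, 0, 0, 0] 100000 515384 461538 2
    153846 0 153846 0 0 0 0)) (.E 1)) (.L 3 4 [4, 5] [318, 318, 318, 318, 318, 318] [] 100000
    533332 474999 4 158333 0 158333 0 0 0 0))) (.S 1 14 (.S 2 0 (.S 3 1 (.S 3 0 (.S 4 14 (.S 4 7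
    (.S 4 3 (.L 4 5 [4, 4] [346, 338, 330, 322, 0, 0] [0, 0, 0, 0, 0, 0] 100000 470000 380000 0
    190000 0 190000 0 0 0 0) (.L 4 5 [4, 4] [354, 354, 354, 354, 346, 338] [0, 0, 0, 0, 0, 0]
    100000 206453 1 0 122581 0 306452 0 0 0 0)) (.E 2)) (.E 2)) (.L 2 4 [6, 6] [354, 354, 354, 354,
    354, 354] [8, 0, 0, 0, 0, 0] 100000 515384 461538 2 153846 0 153846 0 0 0 0)) (.L 2 4 [6, 6]
    [354, 354, 354, 354, 354, 354] [] 100000 0 100000 0 0 0 0 0 0 0 0)) (.L 2 4 [6, 6] [354, 354,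
    354, 354, 354, 354] [] 100000 515384 461538 2 153846 0 153846 0 0 0 0)) (.L 2 4 [6, 6] [392,
    392, 392, 392, 392, 392] [] 100000 515384 461538 2 153846 0 153846 0 0 0 0))))) (.E 0)))

lemma n19_20_10_1_1 {n : ℕ} (hn : 6 ≤ n) : NoNd ((19 : ℕ) : ℤ) ((20 : ℕ) : ℤ) n 10 1
    (BlkD.inB (fun _ => 0)
      (BlkD.upd (BlkD.upd (BlkD.upd (fun _ => 20) 0 10) 2 1) 0 5)) :=
  BlkD.part_sound (d := d19_20_10_1) dk19_20_10_1 hn (by decide) (tr := t19_20_10_1_1)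
    (by decide +kernel) rfl rfl rfl rfl

/-- the certificates of the part 2 of the pair `(10, 1)` -/
def t19_20_10_1_2 : BlkD.Tr :=
  .S 1 14 (.S 1 7 (.L 2 4 [6, 6] [] [] 100000 2 2 1383331 16667 0 16667 0 0 0 0) (.S 1 11 (.S 1 9
    (.S 1 8 (.L 4 5 [4, 4] [184, 184, 184, 184, 184, 176] [] 100000 0 0 1333336 33333 0 33333 0 0 0
    0) (.L 4 5 [4, 4] [212, 212, 212, 212, 212, 212] [] 100000 0 0 1340000 40000 0 40000 0 0 0 0))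
    (.S 1 10 (.S 2 0 (.L 4 5 [4, 4] [242, 242, 242, 242, 242, 242] [] 100000 0 0 1380000 40000 0
    46667 20000 0 0 0) (.S 3 3 (.S 3 1 (.S 3 0 (.L 4 5 [4, 4] [242, 242, 242, 242, 242, 242] [0, 0,
    0, 0, 0, 0] 100000 0 0 1340000 40000 0 40000 0 0 0 0) (.S 4 10 (.S 4 5 (.S 4 2 (.L 4 5 [4, 4]
    [226, 218, 210, 0, 0, 0] [10, 2, 0, 0, 0, 0] 100000 440000 360000 0 180000 0 180000 0 0 0 0)
    (.L 4 5 [4, 4] [242, 242, 234, 226, 218, 210] [10, 2, 0, 0, 0, 0] 100000 210345 0 0 124138 0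
    310345 0 0 0 0)) (.L 4 5 [4, 4] [242, 242, 242, 242, 242, 242] [10, 2, 0, 0, 0, 0] 100000
    136843 1 0 94737 0 236842 0 0 0 0)) (.E 2))) (.E 1)) (.E 1))) (.S 2 0 (.S 3 3 (.S 3 1 (.S 3 0
    (.L 3 4 [4, 5] [274, 274, 274, 274, 274, 274] [0, 0, 0, 0, 0, 0] 100000 0 0 1380000 40000 0
    40000 0 0 0 0) (.S 4 11 (.S 4 5 (.S 4 2 (.L 4 5 [4, 4] [258, 250, 242, 0, 0, 0] [8, 0, 0, 0, 0,
    0] 100000 200000 200000 900000 100000 0 100000 0 0 0 0) (.L 4 5 [4, 4] [274, 274, 266, 258,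
    250, 242] [8, 0, 0, 0, 0, 0] 100000 66668 1 899997 66667 0 166667 33333 0 0 0)) (.L 4 5 [4, 4]
    [274, 274, 274, 274, 274, 274] [8, 0, 0, 0, 0, 0] 100000 157143 0 0 102857 0 257143 0 0 0 0))
    (.E 2))) (.L 4 5 [4, 4] [274, 274, 274, 274, 274, 274] [] 100000 533332 474999 4 158333 0
    158333 158333 0 0 0)) (.E 1)) (.S 3 2 (.S 3 1 (.S 3 0 (.S 4 11 (.S 4 5 (.S 4 2 (.L 4 5 [4, 4]
    [258, 250, 242, 0, 0, 0] [0, 0, 0, 0, 0, 0] 100000 440000 360000 0 180000 0 180000 0 0 0 0) (.L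
    4 5 [4, 4] [274, 274, 266, 258, 250, 242] [0, 0, 0, 0, 0, 0] 100000 25000 0 1150000 50000 0
    125000 0 0 0 0)) (.L 4 5 [4, 4] [274, 274, 274, 274, 274, 274] [0, 0, 0, 0, 0, 0] 100000 157143
    0 0 102857 0 257143 0 0 0 0)) (.E 2)) (.S 4 11 (.S 4 5 (.S 4 2 (.L 4 5 [4, 4] [258, 250, 242,
    0, 0, 0] [10, 2, 0, 0, 0, 0] 100000 418181 345454 3 172727 0 172727 0 0 0 0) (.L 4 5 [4, 4]
    [274, 274, 266, 258, 250, 242] [10, 2, 0, 0, 0, 0] 100000 206453 1 0 122581 0 306452 0 0 0 0))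
    (.L 4 5 [4, 4] [274, 274, 274, 274, 274, 274] [10, 2, 0, 0, 0, 0] 100000 137500 0 0 95000 0
    237500 0 0 0 0)) (.E 2))) (.E 1)) (.E 1))))) (.S 1 13 (.S 1 12 (.S 2 0 (.S 3 2 (.S 3 1 (.S 3 0
    (.S 4 12 (.S 4 6 (.S 4 3 (.L 4 5 [4, 4] [300, 292, 284, 276, 0, 0] [0, 0, 0, 0, 0, 0] 100000 0
    0 1350000 50000 0 100000 0 0 0 0) (.L 4 5 [4, 4] [308, 308, 308, 300, 292, 284] [0, 0, 0, 0, 0,
    0] 100000 66668 1 899997 66667 0 166667 0 0 0 0)) (.L 4 5 [4, 4] [308, 308, 308, 308, 308, 308]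
    [0, 0, 0, 0, 0, 0] 100000 150000 0 0 100000 0 250000 0 0 0 0)) (.E 2)) (.S 4 12 (.S 4 6 (.S 4 3
    (.L 4 5 [4, 4] [300, 292, 284, 276, 0, 0] [8, 0, 0, 0, 0, 0] 100000 470000 380000 0 190000 0
    190000 0 0 0 0) (.L 4 5 [4, 4] [308, 308, 308, 300, 292, 284] [8, 0, 0, 0, 0, 0] 100000 206453
    1 0 122581 0 306452 0 0 0 0)) (.L 4 5 [4, 4] [308, 308, 308, 308, 308, 308] [8, 0, 0, 0, 0, 0]
    100000 137500 0 0 95000 0 237500 0 0 0 0)) (.E 2))) (.L 4 5 [4, 4] [308, 308, 308, 308, 308,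
    308] [14, 10, 2, 0, 0, 0] 100000 450000 350000 0 150000 0 150000 200000 0 0 0)) (.E 1)) (.S 3 1
    (.S 3 0 (.S 4 12 (.S 4 6 (.S 4 3 (.L 4 5 [4, 4] [300, 292, 284, 276, 0, 0] [0, 0, 0, 0, 0, 0]
    100000 418181 345454 3 172727 0 172727 0 0 0 0) (.L 4 5 [4, 4] [308, 308, 308, 300, 292, 284]
    [0, 0, 0, 0, 0, 0] 100000 206453 1 0 122581 0 306452 0 0 0 0)) (.L 4 5 [4, 4] [308, 308, 308,
    308, 308, 308] [0, 0, 0, 0, 0, 0] 100000 137500 0 0 95000 0 237500 0 0 0 0)) (.E 2)) (.S 4 12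
    (.S 4 6 (.S 4 3 (.L 4 5 [4, 4] [300, 292, 284, 276, 0, 0] [10, 2, 0, 0, 0, 0] 100000 400001
    333334 0 166667 0 166667 0 0 0 0) (.L 4 5 [4, 4] [308, 308, 308, 300, 292, 284] [10, 2, 0, 0,
    0, 0] 100000 177778 0 0 111111 0 277778 0 0 0 0)) (.E 2)) (.E 2))) (.E 1))) (.S 2 0 (.S 3 1 (.S
    3 0 (.S 4 13 (.S 4 6 (.S 4 3 (.L 3 4 [4, 5] [336, 328, 320, 312, 0, 0] [0, 0, 0, 0, 0, 0]
    100000 470000 380000 0 190000 0 190000 0 0 0 0) (.L 3 4 [4, 5] [344, 344, 344, 336, 328, 320]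
    [0, 0, 0, 0, 0, 0] 100000 307142 135713 1 135714 0 271429 0 0 0 0)) (.L 3 4 [4, 5] [344, 344,
    344, 344, 344, 344] [0, 0, 0, 0, 0, 0] 100000 147827 1 0 82609 0 247826 0 0 0 0)) (.E 2)) (.L 4
    5 [4, 4] [344, 344, 344, 344, 344, 344] [8, 0, 0, 0, 0, 0] 100000 445454 363636 2 181818 0
    181818 0 0 0 0)) (.L 4 5 [4, 4] [344, 344, 344, 344, 344, 344] [] 100000 0 100000 0 0 0 0 0 0 0
    0)) (.L 4 5 [4, 4] [344, 344, 344, 344, 344, 344] [] 100000 400001 333334 0 166667 0 166667 0 0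
    0 0))) (.S 2 0 (.S 3 0 (.S 4 14 (.S 4 7 (.S 4 3 (.L 3 4 [4, 5] [374, 366, 358, 350, 0, 0] [0,
    0, 0, 0, 0, 0] 100000 445454 363636 2 181818 0 181818 0 0 0 0) (.L 3 4 [4, 5] [382, 382, 382,
    382, 374, 366] [0, 0, 0, 0, 0, 0] 100000 299999 133332 2 133333 0 266667 0 0 0 0)) (.E 2)) (.E
    2)) (.L 3 4 [4, 5] [382, 382, 382, 382, 382, 382] [] 100000 0 100000 0 0 0 0 0 0 0 0)) (.L 3 4
    [4, 5] [382, 382, 382, 382, 382, 382] [] 100000 0 100000 0 0 0 0 0 0 0 0))))) (.E 0)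

lemma n19_20_10_1_2 {n : ℕ} (hn : 6 ≤ n) : NoNd ((19 : ℕ) : ℤ) ((20 : ℕ) : ℤ) n 10 1
    (BlkD.inB (BlkD.upd (fun _ => 0) 0 6)
      (BlkD.upd (BlkD.upd (BlkD.upd (BlkD.upd (BlkD.upd (fun _ => 20) 0 10) 2 1) 0 8) 0 7) 0 6)) :=
  BlkD.part_sound (d := d19_20_10_1) dk19_20_10_1 hn (by decide) (tr := t19_20_10_1_2)
    (by decide +kernel) rfl rfl rfl rfl

/-- the certificates of the part 3 of the pair `(10, 1)` -/
def t19_20_10_1_3 : BlkD.Tr :=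
  .S 1 13 (.S 1 6 (.L 3 4 [4, 5] [] [] 100000 0 0 1300002 33333 0 33333 0 0 0 0) (.S 1 10 (.S 1 8
    (.S 1 7 (.L 3 4 [4, 5] [172, 172, 172, 172, 164, 156] [] 100000 0 0 1366669 33333 0 33333 0 0 0
    0) (.L 3 4 [4, 5] [200, 200, 200, 200, 200, 192] [] 100000 0 0 1380000 40000 0 40000 0 0 0 0))
    (.S 1 9 (.S 2 0 (.S 3 4 (.S 3 2 (.S 3 1 (.L 3 4 [4, 5] [230, 230, 230, 230, 230, 230] [] 100000
    0 0 1380000 40000 0 40000 0 0 0 0) (.L 4 5 [4, 4] [230, 230, 230, 230, 230, 230] [14, 10, 2, 0,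
    0, 0] 100000 0 0 1340000 40000 0 40000 100000 0 0 0)) (.E 1)) (.E 1)) (.S 3 3 (.S 3 1 (.S 3 0
    (.L 4 5 [4, 4] [230, 230, 230, 230, 230, 230] [0, 0, 0, 0, 0, 0] 100000 0 0 1380000 40000 0
    40000 0 0 0 0) (.S 4 9 (.S 4 4 (.S 4 2 (.L 4 5 [4, 4] [214, 206, 198, 0, 0, 0] [10, 2, 0, 0, 0,
    0] 100000 200000 200000 900000 100000 0 100000 0 0 0 0) (.L 4 5 [4, 4] [230, 222, 214, 206,
    198, 0] [10, 2, 0, 0, 0, 0] 100000 66668 1 899997 66667 0 166667 0 0 0 0)) (.L 4 5 [4, 4] [230,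
    230, 230, 230, 230, 230] [10, 2, 0, 0, 0, 0] 100000 172728 1 1 109091 0 272727 0 0 0 0)) (.E
    2))) (.E 1)) (.E 1))) (.S 2 0 (.S 3 3 (.S 3 1 (.S 3 0 (.L 4 5 [4, 4] [262, 262, 262, 262, 262,
    262] [0, 0, 0, 0, 0, 0] 100000 0 0 1350000 50000 0 75000 0 0 0 0) (.S 4 10 (.S 4 5 (.S 4 2 (.L
    3 4 [4, 5] [246, 238, 230, 0, 0, 0] [8, 0, 0, 0, 0, 0] 100000 200000 200000 900000 100000 0
    100000 0 0 0 0) (.L 3 4 [4, 5] [262, 262, 254, 246, 238, 230] [8, 0, 0, 0, 0, 0] 100000 0 0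
    1333336 33333 0 100000 33333 0 0 0)) (.L 3 4 [4, 5] [262, 262, 262, 262, 262, 262] [8, 0, 0, 0,
    0, 0] 100000 184211 0 0 94737 0 284211 0 0 0 0)) (.E 2))) (.L 4 5 [4, 4] [262, 262, 262, 262,
    262, 262] [] 100000 216667 0 3 158333 0 158333 316667 0 0 0)) (.E 1)) (.L 4 5 [4, 4] [262, 262,
    262, 262, 262, 262] [] 100000 200000 200000 900000 100000 0 100000 0 0 0 0)))) (.S 1 12 (.S 1
    11 (.S 2 0 (.S 3 2 (.S 3 1 (.S 3 0 (.S 4 11 (.S 4 5 (.S 4 2 (.L 2 4 [6, 6] [280, 272, 264, 0,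
    0, 0] [0, 0, 0, 0, 0, 0] 100000 200000 200000 900000 100000 0 100000 0 0 0 0) (.L 2 4 [6, 6]
    [296, 296, 288, 280, 272, 264] [0, 0, 0, 0, 0, 0] 100000 0 0 1366669 33333 0 100000 0 0 33333
    33333)) (.L 2 4 [6, 6] [296, 296, 296, 296, 296, 296] [0, 0, 0, 0, 0, 0] 100000 184211 0 0
    94737 0 284211 0 0 0 0)) (.E 2)) (.L 3 4 [4, 5] [296, 296, 296, 296, 296, 296] [8, 0, 0, 0, 0,
    0] 100000 470000 380000 0 190000 0 190000 0 0 0 0)) (.L 3 4 [4, 5] [296, 296, 296, 296, 296,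
    296] [14, 10, 2, 0, 0, 0] 100000 445454 363636 2 181818 0 181818 0 0 0 0)) (.E 1)) (.L 3 4 [4,
    5] [296, 296, 296, 296, 296, 296] [] 100000 470000 380000 0 190000 0 190000 0 0 0 0)) (.S 2 0
    (.S 3 1 (.S 3 0 (.S 4 12 (.S 4 6 (.S 4 3 (.S 4 1 (.L 3 4 [4, 5] [308, 300, 0, 0, 0, 0] [0, 0,
    0, 0, 0, 0] 100000 322222 211111 1 211111 0 211111 0 0 0 0) (.L 3 4 [4, 5] [324, 316, 308, 300,
    0, 0] [0, 0, 0, 0, 0, 0] 100000 0 0 1350000 50000 0 100000 0 0 0 0)) (.L 3 4 [4, 5] [332, 332,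
    332, 324, 316, 308] [0, 0, 0, 0, 0, 0] 100000 50000 50000 1250000 50000 0 100000 0 0 0 0)) (.L
    3 4 [4, 5] [332, 332, 332, 332, 332, 332] [0, 0, 0, 0, 0, 0] 100000 159092 1 0 86364 0 259091 0
    0 0 0)) (.E 2)) (.L 3 4 [4, 5] [332, 332, 332, 332, 332, 332] [8, 0, 0, 0, 0, 0] 100000 445454
    363636 2 181818 0 181818 0 0 0 0)) (.L 3 4 [4, 5] [332, 332, 332, 332, 332, 332] [] 100000 0
    100000 0 0 0 0 0 0 0 0)) (.L 3 4 [4, 5] [332, 332, 332, 332, 332, 332] [] 100000 445454 363636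
    2 181818 0 181818 0 0 0 0))) (.S 2 0 (.S 3 0 (.S 4 13 (.S 4 6 (.S 4 3 (.L 2 4 [6, 6] [362, 354,
    346, 338, 0, 0] [0, 0, 0, 0, 0, 0] 100000 445454 363636 2 181818 0 181818 0 0 0 0) (.L 4 5 [4,
    4] [370, 370, 370, 362, 354, 346] [0, 0, 0, 0, 0, 0] 100000 207692 0 2 153846 0 307692 0 0 0
    0)) (.L 4 5 [4, 4] [370, 370, 370, 370, 370, 370] [0, 0, 0, 0, 0, 0] 100000 150000 0 0 125000 0
    250000 0 0 0 0)) (.E 2)) (.L 4 5 [4, 4] [370, 370, 370, 370, 370, 370] [] 100000 0 100000 0 0 0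
    0 0 0 0 0)) (.L 4 5 [4, 4] [370, 370, 370, 370, 370, 370] [] 100000 0 100000 0 0 0 0 0 0 0
    0))))) (.E 0)

lemma n19_20_10_1_3 {n : ℕ} (hn : 6 ≤ n) : NoNd ((19 : ℕ) : ℤ) ((20 : ℕ) : ℤ) n 10 1
    (BlkD.inB (BlkD.upd (BlkD.upd (fun _ => 0) 0 6) 0 7)
      (BlkD.upd (BlkD.upd (BlkD.upd (BlkD.upd (fun _ => 20) 0 10) 2 1) 0 8) 0 7)) :=
  BlkD.part_sound (d := d19_20_10_1) dk19_20_10_1 hn (by decide) (tr := t19_20_10_1_3)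
    (by decide +kernel) rfl rfl rfl rfl

/-- the certificates of the part 4 of the pair `(10, 1)` -/
def t19_20_10_1_4 : BlkD.Tr :=
  .S 1 12 (.S 1 6 (.S 1 3 (.L 4 5 [4, 4] [] [] 100000 0 0 1150000 50000 0 50000 0 0 0 0) (.S 1 5
    (.L 4 5 [4, 4] [] [] 100000 0 0 1300000 40000 0 40000 0 0 0 0) (.L 4 5 [4, 4] [158, 158, 158,
    150, 142, 134] [] 100000 0 0 1360000 40000 0 40000 0 0 0 0))) (.S 1 9 (.S 1 8 (.S 1 7 (.L 4 5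
    [4, 4] [186, 186, 186, 186, 178, 170] [] 100000 0 0 1350000 50000 0 50000 0 0 0 0) (.L 4 5 [4,
    4] [216, 216, 216, 216, 216, 208] [] 100000 0 0 1350000 50000 0 100000 0 0 0 0)) (.L 4 5 [4, 4]
    [248, 248, 248, 248, 248, 248] [] 100000 0 0 1350000 50000 0 100000 0 0 0 0)) (.S 1 11 (.S 1 10
    (.S 2 0 (.S 3 2 (.S 3 1 (.S 3 0 (.S 4 10 (.S 4 5 (.S 4 2 (.L 4 5 [4, 4] [266, 258, 250, 0, 0,
    0] [0, 0, 0, 0, 0, 0] 100000 100000 100000 1100000 100000 0 100000 0 0 0 0) (.L 4 5 [4, 4]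
    [282, 282, 274, 266, 258, 250] [0, 0, 0, 0, 0, 0] 100000 0 0 1350000 50000 0 100000 0 0 0 0))
    (.L 4 5 [4, 4] [282, 282, 282, 282, 282, 282] [0, 0, 0, 0, 0, 0] 100000 216667 0 0 108333 0
    316667 0 0 0 0)) (.E 2)) (.S 4 10 (.S 4 5 (.S 4 2 (.L 4 5 [4, 4] [266, 258, 250, 0, 0, 0] [8,
    0, 0, 0, 0, 0] 100000 375000 237500 0 237500 0 237500 0 0 0 0) (.L 4 5 [4, 4] [282, 282, 274,
    266, 258, 250] [8, 0, 0, 0, 0, 0] 100000 0 0 1350000 50000 0 100000 0 0 0 0)) (.L 4 5 [4, 4]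
    [282, 282, 282, 282, 282, 282] [8, 0, 0, 0, 0, 0] 100000 171429 0 0 135714 0 271429 0 0 0 0))
    (.E 2))) (.L 4 5 [4, 4] [282, 282, 282, 282, 282, 282] [14, 10, 2, 0, 0, 0] 100000 216667 0 2
    158333 0 316667 100000 0 0 0)) (.E 1)) (.S 3 1 (.S 3 0 (.S 4 10 (.S 4 5 (.S 4 2 (.L 4 5 [4, 4]
    [266, 258, 250, 0, 0, 0] [0, 0, 0, 0, 0, 0] 100000 322222 211111 1 211111 0 211111 0 0 0 0) (.L
    4 5 [4, 4] [282, 282, 274, 266, 258, 250] [0, 0, 0, 0, 0, 0] 100000 0 0 1350000 50000 0 100000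
    0 0 0 0)) (.L 4 5 [4, 4] [282, 282, 282, 282, 282, 282] [0, 0, 0, 0, 0, 0] 100000 171429 0 0
    135714 0 271429 0 0 0 0)) (.E 2)) (.S 4 10 (.S 4 5 (.S 4 2 (.L 4 5 [4, 4] [266, 258, 250, 0, 0,
    0] [10, 2, 0, 0, 0, 0] 100000 322222 211111 0 211111 0 155556 0 0 0 0) (.L 4 5 [4, 4] [282,
    282, 274, 266, 258, 250] [10, 2, 0, 0, 0, 0] 100000 207692 0 2 153846 0 307692 0 0 0 0)) (.L 4
    5 [4, 4] [282, 282, 282, 282, 282, 282] [10, 2, 0, 0, 0, 0] 100000 150000 0 0 125000 0 250000 0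
    0 0 0)) (.E 2))) (.E 1))) (.L 4 5 [4, 4] [318, 318, 318, 318, 318, 318] [] 100000 375000 237500
    0 237500 0 237500 0 0 0 0)) (.L 4 5 [4, 4] [356, 356, 356, 356, 356, 356] [] 100000 344444
    222222 2 222222 0 222222 0 0 0 0)))) (.E 0)

lemma n19_20_10_1_4 {n : ℕ} (hn : 6 ≤ n) : NoNd ((19 : ℕ) : ℤ) ((20 : ℕ) : ℤ) n 10 1
    (BlkD.inB (BlkD.upd (BlkD.upd (fun _ => 0) 0 6) 0 8)
      (BlkD.upd (BlkD.upd (BlkD.upd (fun _ => 20) 0 10) 2 1) 0 8)) :=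
  BlkD.part_sound (d := d19_20_10_1) dk19_20_10_1 hn (by decide) (tr := t19_20_10_1_4)
    (by decide +kernel) rfl rfl rfl rfl

/-- the certificates of the part 5 of the pair `(10, 1)` -/
def t19_20_10_1_5 : BlkD.Tr :=
  .S 0 9 (.S 1 11 (.S 1 5 (.L 4 5 [4, 4] [] [] 100000 0 0 1340000 40000 0 100000 0 0 0 0) (.S 1 8
    (.S 1 7 (.L 4 5 [4, 4] [] [] 100000 0 0 1385716 28571 0 100000 0 0 0 0) (.L 4 5 [4, 4] [232,
    232, 232, 232, 232, 224] [] 100000 0 0 1300000 50000 0 100000 0 0 0 0)) (.S 1 10 (.S 1 9 (.L 4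
    5 [4, 4] [266, 266, 266, 266, 266, 266] [] 100000 0 0 1350000 50000 0 100000 0 0 0 0) (.E 0))
    (.E 0)))) (.E 0)) (.L 4 5 [4, 4] [] [] 100000 0 0 1360001 20000 0 73333 0 0 0 0)

lemma n19_20_10_1_5 {n : ℕ} (hn : 6 ≤ n) : NoNd ((19 : ℕ) : ℤ) ((20 : ℕ) : ℤ) n 10 1
    (BlkD.inB (BlkD.upd (BlkD.upd (fun _ => 0) 0 6) 0 9)
      (BlkD.upd (BlkD.upd (fun _ => 20) 0 10) 2 1)) :=
  BlkD.part_sound (d := d19_20_10_1) dk19_20_10_1 hn (by decide) (tr := t19_20_10_1_5)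
    (by decide +kernel) rfl rfl rfl rfl

/-- the certificates of the part 6 of the pair `(10, 1)` -/
def t19_20_10_1_6 : BlkD.Tr :=
  .E 1

lemma n19_20_10_1_6 {n : ℕ} (hn : 6 ≤ n) : NoNd ((19 : ℕ) : ℤ) ((20 : ℕ) : ℤ) n 10 1
    (BlkD.inB (BlkD.upd (fun _ => 0) 2 2)
      (BlkD.upd (fun _ => 20) 0 10)) :=
  BlkD.part_sound (d := d19_20_10_1) dk19_20_10_1 hn (by decide) (tr := t19_20_10_1_6)
    (by decide +kernel) rfl rfl rfl rfl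

/-- the certificates of the part 7 of the pair `(10, 1)` -/
def t19_20_10_1_7 : BlkD.Tr :=
  .E 0

lemma n19_20_10_1_7 {n : ℕ} (hn : 6 ≤ n) : NoNd ((19 : ℕ) : ℤ) ((20 : ℕ) : ℤ) n 10 1
    (BlkD.inB (BlkD.upd (fun _ => 0) 0 11)
      (fun _ => 20)) :=
  BlkD.part_sound (d := d19_20_10_1) dk19_20_10_1 hn (by decide) (tr := t19_20_10_1_7)
    (by decide +kernel) rfl rfl rfl rfl

lemma pr19_20_10_1 {n : ℕ} (hn : 6 ≤ n) : NoPr ((19 : ℕ) : ℤ) ((20 : ℕ) : ℤ) n 10 1 :=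
  BlkD.of_root (q := 4) (by decide) hn (BlkD.sp 0 10 (BlkD.sp 2 1 (BlkD.sp 0 5 (n19_20_10_1_1 hn)
    (BlkD.sp 0 8 (BlkD.sp 0 7 (BlkD.sp 0 6 (n19_20_10_1_2 hn)
    (n19_20_10_1_3 hn))
    (n19_20_10_1_4 hn))
    (n19_20_10_1_5 hn)))
    (n19_20_10_1_6 hn))
    (n19_20_10_1_7 hn))

/-- the numbers of the pair `(10, 2)`, `R = 19`, `H = 20` -/
def d19_20_10_2 : BlkD.Pd :=
  ⟨19, 20, 4, 10, 2, 5, 1, 2, 0, 4, 8, 0, 0, 4, 4, 0, [0, 8, 16, 20, 20, 20], [0, 4, 8, 12, 16,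
    20], [⟨1, 1, 1, 4, 8, [0, 4], [0, 4]⟩, ⟨1, 1, 1, 4, 12, [0, 8], [0, 4]⟩]⟩

lemma dk19_20_10_2 : BlkD.pairOk d19_20_10_2 = true := by decide +kernel

/-- the certificates of the part 1 of the pair `(10, 2)` -/
def t19_20_10_2_1 : BlkD.Tr :=
  .L 4 5 [4, 4, 19] [] [] 100000 200000 200000 1240000 80000 0 100000 20000 0 0 0

lemma n19_20_10_2_1 {n : ℕ} (hn : 6 ≤ n) : NoNd ((19 : ℕ) : ℤ) ((20 : ℕ) : ℤ) n 10 2
    (BlkD.inB (fun _ => 0)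
      (BlkD.upd (BlkD.upd (BlkD.upd (fun _ => 20) 0 10) 2 2) 0 5)) :=
  BlkD.part_sound (d := d19_20_10_2) dk19_20_10_2 hn (by decide) (tr := t19_20_10_2_1)
    (by decide +kernel) rfl rfl rfl rfl

/-- the certificates of the part 2 of the pair `(10, 2)` -/
def t19_20_10_2_2 : BlkD.Tr :=
  .S 0 6 (.S 1 14 (.S 1 7 (.L 4 5 [4, 4, 19] [] [] 100000 0 0 1400003 33333 0 33333 33333 0 0 0)
    (.S 1 11 (.S 1 9 (.S 1 8 (.L 4 5 [4, 4, 19] [190, 190, 190, 190, 186, 178] [] 100000 100000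
    100000 1350000 50000 0 100000 50000 0 0 0) (.S 2 1 (.S 2 0 (.L 4 5 [4, 4, 19] [218, 218, 218,
    218, 218, 214] [] 100000 100000 100000 1350000 50000 0 100000 50000 0 0 0) (.S 3 4 (.S 3 2 (.S
    3 1 (.S 3 0 (.L 4 5 [4, 4, 19] [218, 218, 218, 218, 218, 214] [0, 0, 0, 0, 0, 0] 100000 0 0
    1466668 33333 0 33333 0 0 0 0) (.L 7 7 [4, 3, 19] [218, 218, 218, 218, 218, 214] [12, 2, 0, 0,
    0, 0] 100000 25000 25000 1400000 75000 25000 100000 25000 0 0 0)) (.L 7 7 [4, 3, 19] [218, 218,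
    218, 218, 218, 214] [24, 16, 6, 0, 0, 0] 100000 433334 191667 0 291667 0 341667 241667 0 0 0))
    (.E 1)) (.E 1))) (.L 7 7 [4, 3, 19] [218, 218, 218, 218, 218, 214] [] 100000 1 1 1433333 66667
    0 100000 0 0 0 0))) (.L 7 7 [4, 3, 19] [] [] 100000 100000 100000 1300000 100000 0 100000
    100000 0 0 0)) (.L 7 7 [4, 3, 19] [] [] 100000 533334 316667 0 316667 0 316667 0 0 0 0))) (.E
    0)) (.L 7 7 [4, 3, 19] [] [] 100000 25000 25000 1450000 75000 0 100000 50000 0 0 0)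

lemma n19_20_10_2_2 {n : ℕ} (hn : 6 ≤ n) : NoNd ((19 : ℕ) : ℤ) ((20 : ℕ) : ℤ) n 10 2
    (BlkD.inB (BlkD.upd (fun _ => 0) 0 6)
      (BlkD.upd (BlkD.upd (BlkD.upd (BlkD.upd (fun _ => 20) 0 10) 2 2) 0 8) 0 7)) :=
  BlkD.part_sound (d := d19_20_10_2) dk19_20_10_2 hn (by decide) (tr := t19_20_10_2_2)
    (by decide +kernel) rfl rfl rfl rfl

/-- the certificates of the part 3 of the pair `(10, 2)` -/
def t19_20_10_2_3 : BlkD.Tr :=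
  .S 1 3 (.L 7 7 [4, 3, 19] [] [] 100000 0 0 1400000 0 0 0 50000 0 0 0) (.S 1 5 (.L 4 5 [4, 4, 19]
    [] [] 100000 0 0 1440000 40000 0 40000 30000 0 0 0) (.S 2 1 (.S 2 0 (.L 4 5 [4, 4, 19] [164,
    164, 160, 152, 144, 136] [] 100000 0 0 1440001 40000 0 53333 60000 0 0 0) (.S 3 5 (.S 3 2 (.S 3
    1 (.L 4 5 [4, 4, 19] [164, 164, 160, 152, 144, 136] [] 100000 0 0 1440000 40000 0 80000 0 0 0
    0) (.L 7 7 [4, 3, 19] [164, 164, 160, 152, 144, 136] [24, 16, 6, 0, 0, 0] 100000 1 1 1399999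
    66667 0 100000 66667 0 0 0)) (.E 1)) (.E 1))) (.L 7 7 [4, 3, 19] [164, 164, 160, 152, 144, 136]
    [] 100000 1 1 1466666 66667 0 66667 0 0 0 0)))

lemma n19_20_10_2_3 {n : ℕ} (hn : 6 ≤ n) : NoNd ((19 : ℕ) : ℤ) ((20 : ℕ) : ℤ) n 10 2
    (BlkD.inB (BlkD.upd (BlkD.upd (fun _ => 0) 0 6) 0 8)
      (BlkD.upd (BlkD.upd (BlkD.upd (BlkD.upd (BlkD.upd (fun _ => 20) 0 10) 2 2) 0 8) 1 12) 1 6)) :=
  BlkD.part_sound (d := d19_20_10_2) dk19_20_10_2 hn (by decide) (tr := t19_20_10_2_3)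
    (by decide +kernel) rfl rfl rfl rfl

/-- the certificates of the part 4 of the pair `(10, 2)` -/
def t19_20_10_2_4 : BlkD.Tr :=
  .S 1 9 (.S 1 8 (.L 7 7 [4, 3, 19] [] [] 100000 1 1 1466667 66667 33333 100000 33333 0 0 0) (.L 4
    5 [4, 4, 19] [254, 254, 254, 254, 254, 250] [] 100000 66668 66668 1399999 66667 0 100000 16667
    0 0 0)) (.S 1 11 (.S 1 10 (.L 4 5 [4, 4, 19] [288, 288, 288, 288, 288, 288] [] 100000 200000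
    200000 1200000 100000 0 100000 100000 0 0 0) (.L 4 5 [4, 4, 19] [324, 324, 324, 324, 324, 324]
    [] 100000 714287 542858 0 271429 0 271429 0 0 0 0)) (.L 4 5 [4, 4, 19] [362, 362, 362, 362,
    362, 362] [] 100000 455555 222222 2 222222 0 333333 0 0 0 0))

lemma n19_20_10_2_4 {n : ℕ} (hn : 6 ≤ n) : NoNd ((19 : ℕ) : ℤ) ((20 : ℕ) : ℤ) n 10 2
    (BlkD.inB (BlkD.upd (BlkD.upd (BlkD.upd (fun _ => 0) 0 6) 0 8) 1 7)
      (BlkD.upd (BlkD.upd (BlkD.upd (BlkD.upd (fun _ => 20) 0 10) 2 2) 0 8) 1 12)) :=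
  BlkD.part_sound (d := d19_20_10_2) dk19_20_10_2 hn (by decide) (tr := t19_20_10_2_4)
    (by decide +kernel) rfl rfl rfl rfl

/-- the certificates of the part 5 of the pair `(10, 2)` -/
def t19_20_10_2_5 : BlkD.Tr :=
  .E 0

lemma n19_20_10_2_5 {n : ℕ} (hn : 6 ≤ n) : NoNd ((19 : ℕ) : ℤ) ((20 : ℕ) : ℤ) n 10 2
    (BlkD.inB (BlkD.upd (BlkD.upd (BlkD.upd (fun _ => 0) 0 6) 0 8) 1 13)
      (BlkD.upd (BlkD.upd (BlkD.upd (fun _ => 20) 0 10) 2 2) 0 8)) :=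
  BlkD.part_sound (d := d19_20_10_2) dk19_20_10_2 hn (by decide) (tr := t19_20_10_2_5)
    (by decide +kernel) rfl rfl rfl rfl

/-- the certificates of the part 6 of the pair `(10, 2)` -/
def t19_20_10_2_6 : BlkD.Tr :=
  .S 0 9 (.S 1 11 (.S 1 5 (.L 4 5 [4, 4, 19] [] [] 100000 0 0 1480000 40000 0 100000 30000 0 0 0)
    (.S 1 8 (.S 1 7 (.S 1 6 (.L 4 5 [4, 4, 19] [176, 176, 172, 164, 156, 148] [] 100000 0 0 1450000
    50000 0 100000 25000 0 0 0) (.L 4 5 [4, 4, 19] [206, 206, 206, 202, 194, 186] [] 100000 0 0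
    1450000 50000 0 100000 0 0 0 0)) (.L 4 5 [4, 4, 19] [238, 238, 238, 238, 234, 226] [] 100000
    100000 100000 1300000 100000 0 100000 0 0 0 0)) (.S 1 10 (.S 1 9 (.L 4 5 [4, 4, 19] [272, 272,
    272, 272, 272, 268] [] 100000 466666 233333 2 283333 0 333333 50000 0 0 0) (.L 4 5 [4, 4, 19]
    [308, 308, 308, 308, 308, 308] [] 100000 442858 271429 0 271429 0 271429 0 0 0 0)) (.L 4 5 [4,
    4, 19] [346, 346, 346, 346, 346, 346] [] 100000 400000 250000 0 250000 0 250000 0 0 0 0)))) (.E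
    0)) (.L 4 5 [4, 4, 19] [] [] 100000 0 0 1460000 20000 0 70000 40000 0 0 0)

lemma n19_20_10_2_6 {n : ℕ} (hn : 6 ≤ n) : NoNd ((19 : ℕ) : ℤ) ((20 : ℕ) : ℤ) n 10 2
    (BlkD.inB (BlkD.upd (BlkD.upd (fun _ => 0) 0 6) 0 9)
      (BlkD.upd (BlkD.upd (fun _ => 20) 0 10) 2 2)) :=
  BlkD.part_sound (d := d19_20_10_2) dk19_20_10_2 hn (by decide) (tr := t19_20_10_2_6)
    (by decide +kernel) rfl rfl rfl rfl

/-- the certificates of the part 7 of the pair `(10, 2)` -/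
def t19_20_10_2_7 : BlkD.Tr :=
  .E 1

lemma n19_20_10_2_7 {n : ℕ} (hn : 6 ≤ n) : NoNd ((19 : ℕ) : ℤ) ((20 : ℕ) : ℤ) n 10 2
    (BlkD.inB (BlkD.upd (fun _ => 0) 2 3)
      (BlkD.upd (fun _ => 20) 0 10)) :=
  BlkD.part_sound (d := d19_20_10_2) dk19_20_10_2 hn (by decide) (tr := t19_20_10_2_7)
    (by decide +kernel) rfl rfl rfl rfl

/-- the certificates of the part 8 of the pair `(10, 2)` -/
def t19_20_10_2_8 : BlkD.Tr :=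
  .E 0

lemma n19_20_10_2_8 {n : ℕ} (hn : 6 ≤ n) : NoNd ((19 : ℕ) : ℤ) ((20 : ℕ) : ℤ) n 10 2
    (BlkD.inB (BlkD.upd (fun _ => 0) 0 11)
      (fun _ => 20)) :=
  BlkD.part_sound (d := d19_20_10_2) dk19_20_10_2 hn (by decide) (tr := t19_20_10_2_8)
    (by decide +kernel) rfl rfl rfl rfl

lemma pr19_20_10_2 {n : ℕ} (hn : 6 ≤ n) : NoPr ((19 : ℕ) : ℤ) ((20 : ℕ) : ℤ) n 10 2 :=
  BlkD.of_root (q := 4) (by decide) hn (BlkD.sp 0 10 (BlkD.sp 2 2 (BlkD.sp 0 5 (n19_20_10_2_1 hn)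
    (BlkD.sp 0 8 (BlkD.sp 0 7 (n19_20_10_2_2 hn)
    (BlkD.sp 1 12 (BlkD.sp 1 6 (n19_20_10_2_3 hn)
    (n19_20_10_2_4 hn))
    (n19_20_10_2_5 hn)))
    (n19_20_10_2_6 hn)))
    (n19_20_10_2_7 hn))
    (n19_20_10_2_8 hn))

end BlkC

end Pool.Agent.Lib.MP_f04ccf_co
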