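import Pool.Agent.Lib.MP_f04ccf_co.M.BlkTp

/-!
MP_f04ccf_co, block certificate, data `R = 19`, `H = 20`, part 8 (certificates: helper99, bd9.cpp).
-/

set_option autoImplicit false
set_option maxRecDepth 100000

namespace Pool.Agent.Lib.MP_f04ccf_co

namespace BlkC

/-- the numbers of the pair `(10, 3)`, `R = 19`, `H = 20` -/
def d19_20_10_3 : BlkD.Pd :=
  ⟨19, 20, 4, 10, 3, 4, 0, 3, 0, 4, 4, 0, 0, 4, 4, 0, [0, 4, 8, 12, 16], [0, 4, 8, 12, 16], [⟨1, 1,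
    1, 4, 8, [0, 4], [0, 4]⟩]⟩

lemma dk19_20_10_3 : BlkD.pairOk d19_20_10_3 = true := by decide +kernel

/-- the certificates of the part 1 of the pair `(10, 3)` -/
def t19_20_10_3_1 : BlkD.Tr :=
  .L 3 3 [4, 19, 19, 19] [] [] 100000 0 0 1500001 100000 0 100000 33333 0 0 0

lemma n19_20_10_3_1 {n : ℕ} (hn : 6 ≤ n) : NoNd ((19 : ℕ) : ℤ) ((20 : ℕ) : ℤ) n 10 3
    (BlkD.inB (fun _ => 0)
      (BlkD.upd (BlkD.upd (BlkD.upd (BlkD.upd (BlkD.upd (fun _ => 20) 0 10) 2 3) 0 5) 0 2) 0 1)) :=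
  BlkD.part_sound (d := d19_20_10_3) dk19_20_10_3 hn (by decide) (tr := t19_20_10_3_1)
    (by decide +kernel) rfl rfl rfl rfl

/-- the certificates of the part 2 of the pair `(10, 3)` -/
def t19_20_10_3_2 : BlkD.Tr :=
  .L 3 3 [4, 19, 19, 19] [] [] 100000 0 0 1500001 100000 0 100000 33333 0 0 0

lemma n19_20_10_3_2 {n : ℕ} (hn : 6 ≤ n) : NoNd ((19 : ℕ) : ℤ) ((20 : ℕ) : ℤ) n 10 3
    (BlkD.inB (BlkD.upd (fun _ => 0) 0 2)
      (BlkD.upd (BlkD.upd (BlkD.upd (BlkD.upd (fun _ => 20) 0 10) 2 3) 0 5) 0 2)) :=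
  BlkD.part_sound (d := d19_20_10_3) dk19_20_10_3 hn (by decide) (tr := t19_20_10_3_2)
    (by decide +kernel) rfl rfl rfl rfl

/-- the certificates of the part 3 of the pair `(10, 3)` -/
def t19_20_10_3_3 : BlkD.Tr :=
  .L 3 3 [4, 19, 19, 19] [] [] 100000 0 0 1500001 100000 0 100000 33333 0 0 0

lemma n19_20_10_3_3 {n : ℕ} (hn : 6 ≤ n) : NoNd ((19 : ℕ) : ℤ) ((20 : ℕ) : ℤ) n 10 3
    (BlkD.inB (BlkD.upd (fun _ => 0) 0 3)
      (BlkD.upd (BlkD.upd (BlkD.upd (BlkD.upd (fun _ => 20) 0 10) 2 3) 0 5) 0 4)) :=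
  BlkD.part_sound (d := d19_20_10_3) dk19_20_10_3 hn (by decide) (tr := t19_20_10_3_3)
    (by decide +kernel) rfl rfl rfl rfl

/-- the certificates of the part 4 of the pair `(10, 3)` -/
def t19_20_10_3_4 : BlkD.Tr :=
  .L 3 3 [4, 19, 19, 19] [] [] 100000 0 0 1500001 100000 0 100000 33333 0 0 0

lemma n19_20_10_3_4 {n : ℕ} (hn : 6 ≤ n) : NoNd ((19 : ℕ) : ℤ) ((20 : ℕ) : ℤ) n 10 3
    (BlkD.inB (BlkD.upd (BlkD.upd (fun _ => 0) 0 3) 0 5)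
      (BlkD.upd (BlkD.upd (BlkD.upd (fun _ => 20) 0 10) 2 3) 0 5)) :=
  BlkD.part_sound (d := d19_20_10_3) dk19_20_10_3 hn (by decide) (tr := t19_20_10_3_4)
    (by decide +kernel) rfl rfl rfl rfl

/-- the certificates of the part 5 of the pair `(10, 3)` -/
def t19_20_10_3_5 : BlkD.Tr :=
  .L 3 3 [4, 19, 19, 19] [] [] 100000 0 0 1500001 100000 0 100000 33333 0 0 0

lemma n19_20_10_3_5 {n : ℕ} (hn : 6 ≤ n) : NoNd ((19 : ℕ) : ℤ) ((20 : ℕ) : ℤ) n 10 3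
    (BlkD.inB (BlkD.upd (fun _ => 0) 0 6)
      (BlkD.upd (BlkD.upd (BlkD.upd (BlkD.upd (fun _ => 20) 0 10) 2 3) 0 8) 0 7)) :=
  BlkD.part_sound (d := d19_20_10_3) dk19_20_10_3 hn (by decide) (tr := t19_20_10_3_5)
    (by decide +kernel) rfl rfl rfl rfl

/-- the certificates of the part 6 of the pair `(10, 3)` -/
def t19_20_10_3_6 : BlkD.Tr :=
  .L 3 3 [4, 19, 19, 19] [] [] 100000 0 0 1500001 100000 0 100000 33333 0 0 0

lemma n19_20_10_3_6 {n : ℕ} (hn : 6 ≤ n) : NoNd ((19 : ℕ) : ℤ) ((20 : ℕ) : ℤ) n 10 3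
    (BlkD.inB (BlkD.upd (BlkD.upd (fun _ => 0) 0 6) 0 8)
      (BlkD.upd (BlkD.upd (BlkD.upd (fun _ => 20) 0 10) 2 3) 0 8)) :=
  BlkD.part_sound (d := d19_20_10_3) dk19_20_10_3 hn (by decide) (tr := t19_20_10_3_6)
    (by decide +kernel) rfl rfl rfl rfl

/-- the certificates of the part 7 of the pair `(10, 3)` -/
def t19_20_10_3_7 : BlkD.Tr :=
  .L 3 3 [4, 19, 19, 19] [] [] 100000 0 0 1500001 100000 0 100000 33333 0 0 0

lemma n19_20_10_3_7 {n : ℕ} (hn : 6 ≤ n) : NoNd ((19 : ℕ) : ℤ) ((20 : ℕ) : ℤ) n 10 3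
    (BlkD.inB (BlkD.upd (BlkD.upd (fun _ => 0) 0 6) 0 9)
      (BlkD.upd (BlkD.upd (BlkD.upd (fun _ => 20) 0 10) 2 3) 0 9)) :=
  BlkD.part_sound (d := d19_20_10_3) dk19_20_10_3 hn (by decide) (tr := t19_20_10_3_7)
    (by decide +kernel) rfl rfl rfl rfl

/-- the certificates of the part 8 of the pair `(10, 3)` -/
def t19_20_10_3_8 : BlkD.Tr :=
  .L 3 3 [4, 19, 19, 19] [] [] 100000 0 0 1500001 100000 0 100000 33333 0 0 0

lemma n19_20_10_3_8 {n : ℕ} (hn : 6 ≤ n) : NoNd ((19 : ℕ) : ℤ) ((20 : ℕ) : ℤ) n 10 3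
    (BlkD.inB (BlkD.upd (BlkD.upd (BlkD.upd (fun _ => 0) 0 6) 0 9) 0 10)
      (BlkD.upd (BlkD.upd (fun _ => 20) 0 10) 2 3)) :=
  BlkD.part_sound (d := d19_20_10_3) dk19_20_10_3 hn (by decide) (tr := t19_20_10_3_8)
    (by decide +kernel) rfl rfl rfl rfl

/-- the certificates of the part 9 of the pair `(10, 3)` -/
def t19_20_10_3_9 : BlkD.Tr :=
  .E 1

lemma n19_20_10_3_9 {n : ℕ} (hn : 6 ≤ n) : NoNd ((19 : ℕ) : ℤ) ((20 : ℕ) : ℤ) n 10 3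
    (BlkD.inB (BlkD.upd (fun _ => 0) 2 4)
      (BlkD.upd (fun _ => 20) 0 10)) :=
  BlkD.part_sound (d := d19_20_10_3) dk19_20_10_3 hn (by decide) (tr := t19_20_10_3_9)
    (by decide +kernel) rfl rfl rfl rfl

/-- the certificates of the part 10 of the pair `(10, 3)` -/
def t19_20_10_3_10 : BlkD.Tr :=
  .E 0

lemma n19_20_10_3_10 {n : ℕ} (hn : 6 ≤ n) : NoNd ((19 : ℕ) : ℤ) ((20 : ℕ) : ℤ) n 10 3
    (BlkD.inB (BlkD.upd (fun _ => 0) 0 11)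
      (fun _ => 20)) :=
  BlkD.part_sound (d := d19_20_10_3) dk19_20_10_3 hn (by decide) (tr := t19_20_10_3_10)
    (by decide +kernel) rfl rfl rfl rfl

lemma pr19_20_10_3 {n : ℕ} (hn : 6 ≤ n) : NoPr ((19 : ℕ) : ℤ) ((20 : ℕ) : ℤ) n 10 3 :=
  BlkD.of_root (q := 4) (by decide) hn (BlkD.sp 0 10 (BlkD.sp 2 3 (BlkD.sp 0 5 (BlkD.sp 0 2 (BlkD.sp 0 1 (n19_20_10_3_1 hn)
    (n19_20_10_3_2 hn))
    (BlkD.sp 0 4 (n19_20_10_3_3 hn)
    (n19_20_10_3_4 hn)))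
    (BlkD.sp 0 8 (BlkD.sp 0 7 (n19_20_10_3_5 hn)
    (n19_20_10_3_6 hn))
    (BlkD.sp 0 9 (n19_20_10_3_7 hn)
    (n19_20_10_3_8 hn))))
    (n19_20_10_3_9 hn))
    (n19_20_10_3_10 hn))

/-- the numbers of the pair `(11, 0)`, `R = 19`, `H = 20` -/
def d19_20_11_0 : BlkD.Pd :=
  ⟨19, 20, 4, 11, 0, 6, 0, 1, 0, 4, 4, 0, 0, 4, 4, 0, [0, 4, 8, 12, 16, 20, 24], [0, 4, 8, 12, 16,
    20, 24], [⟨1, 1, 1, 4, 8, [0, 4], [0, 4]⟩]⟩

lemma dk19_20_11_0 : BlkD.pairOk d19_20_11_0 = true := by decide +kernel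

/-- the certificates of the part 1 of the pair `(11, 0)` -/
def t19_20_11_0_1 : BlkD.Tr :=
  .S 0 11 (.S 2 0 (.L 3 3 [4] [] [] 100000 0 0 1200000 100000 0 100000 0 0 0 0) (.E 1)) (.E 0)

lemma n19_20_11_0_1 {n : ℕ} (hn : 6 ≤ n) : NoNd ((19 : ℕ) : ℤ) ((20 : ℕ) : ℤ) n 11 0
    (BlkD.inB (fun _ => 0)
      (fun _ => 20)) :=
  BlkD.part_sound (d := d19_20_11_0) dk19_20_11_0 hn (by decide) (tr := t19_20_11_0_1)
    (by decide +kernel) rfl rfl rfl rfl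

lemma pr19_20_11_0 {n : ℕ} (hn : 6 ≤ n) : NoPr ((19 : ℕ) : ℤ) ((20 : ℕ) : ℤ) n 11 0 :=
  BlkD.of_root (q := 4) (by decide) hn (n19_20_11_0_1 hn)

/-- the numbers of the pair `(11, 1)`, `R = 19`, `H = 20` -/
def d19_20_11_1 : BlkD.Pd :=
  ⟨19, 20, 4, 11, 1, 5, 1, 1, 0, 4, 8, 0, 0, 4, 4, 0, [0, 8, 16, 20, 20, 20], [0, 4, 8, 12, 16,
    20], [⟨1, 1, 1, 4, 8, [0, 4], [0, 4]⟩, ⟨1, 1, 1, 4, 12, [0, 8], [0, 4]⟩]⟩

lemma dk19_20_11_1 : BlkD.pairOk d19_20_11_1 = true := by decide +kernel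

/-- the certificates of the part 1 of the pair `(11, 1)` -/
def t19_20_11_1_1 : BlkD.Tr :=
  .L 4 6 [4, 4] [] [] 100000 300000 300000 1000000 100000 0 100000 0 0 0 0

lemma n19_20_11_1_1 {n : ℕ} (hn : 6 ≤ n) : NoNd ((19 : ℕ) : ℤ) ((20 : ℕ) : ℤ) n 11 1
    (BlkD.inB (fun _ => 0)
      (BlkD.upd (BlkD.upd (BlkD.upd (fun _ => 20) 0 11) 2 1) 0 5)) :=
  BlkD.part_sound (d := d19_20_11_1) dk19_20_11_1 hn (by decide) (tr := t19_20_11_1_1)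
    (by decide +kernel) rfl rfl rfl rfl

/-- the certificates of the part 2 of the pair `(11, 1)` -/
def t19_20_11_1_2 : BlkD.Tr :=
  .S 0 7 (.S 0 6 (.S 1 14 (.S 1 7 (.L 4 6 [4, 4] [] [] 100000 0 0 1266669 33333 0 33333 0 0 0 0)
    (.S 1 11 (.S 1 9 (.L 4 6 [4, 4] [] [] 100000 0 0 1400003 33333 0 33333 0 0 0 0) (.S 1 10 (.L 4
    6 [4, 4] [238, 238, 238, 238, 238, 238] [] 100000 40000 40000 1400000 40000 0 80000 0 0 0 0)
    (.S 2 0 (.S 3 3 (.S 3 1 (.S 3 0 (.L 2 2 [6, 10] [270, 270, 270, 270, 270, 270] [0, 0, 0, 0, 0,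
    0] 100000 449998 449998 950003 83333 0 83333 0 0 50000 50000) (.L 2 2 [6, 10] [270, 270, 270,
    270, 270, 270] [8, 0, 0, 0, 0, 0] 100000 475000 475000 925000 87500 0 87500 0 0 50000 50000))
    (.L 2 2 [6, 10] [270, 270, 270, 270, 270, 270] [] 100000 460000 460000 940000 80000 0 80000
    80000 0 0 0)) (.E 1)) (.L 2 2 [6, 10] [270, 270, 270, 270, 270, 270] [] 100000 600000 600000
    800000 100000 0 100000 0 0 0 0)))) (.L 2 2 [6, 10] [] [] 100000 600000 600000 800000 100000 0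
    100000 0 0 0 0))) (.E 0)) (.S 1 13 (.S 1 6 (.L 2 2 [6, 10] [] [] 100000 10000 10000 1440000
    10000 0 10000 0 0 50000 50000) (.S 1 10 (.S 1 8 (.L 4 6 [4, 4] [] [] 100000 80000 80000 1380000
    40000 0 80000 0 0 0 0) (.S 1 9 (.L 4 6 [4, 4] [226, 226, 226, 226, 226, 226] [] 100000 40000
    40000 1440001 40000 0 53333 0 0 0 0) (.S 2 0 (.S 3 3 (.S 3 1 (.S 3 0 (.L 7 7 [4, 3] [258, 258,
    258, 258, 258, 258] [0, 0, 0, 0, 0, 0] 100000 1 1 1433333 66667 0 100000 0 0 0 0) (.L 7 7 [4,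
    3] [258, 258, 258, 258, 258, 258] [8, 0, 0, 0, 0, 0] 100000 100000 100000 1300000 100000 0
    100000 100000 0 0 0)) (.L 7 7 [4, 3] [258, 258, 258, 258, 258, 258] [] 100000 280000 190000 0
    190000 0 190000 0 0 0 0)) (.E 1)) (.L 7 7 [4, 3] [258, 258, 258, 258, 258, 258] [] 100000 1 1
    1466666 66667 0 100000 0 0 0 0)))) (.L 7 7 [4, 3] [] [] 100000 40000 40000 1440000 80000 0
    100000 20000 0 0 0))) (.E 0))) (.S 1 12 (.S 1 6 (.L 7 7 [4, 3] [] [] 100000 1 1 1433333 66667 0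
    66667 0 0 0 0) (.S 1 9 (.S 1 8 (.L 7 7 [4, 3] [] [] 100000 1 1 1466666 66667 0 100000 33333 0 0
    0) (.S 2 0 (.L 7 7 [4, 3] [244, 244, 244, 244, 244, 244] [] 100000 1 1 1466666 66667 0 100000
    33333 0 0 0) (.L 4 6 [4, 4] [244, 244, 244, 244, 244, 244] [] 100000 300000 300000 1000000
    100000 0 100000 0 0 0 0))) (.S 1 11 (.S 1 10 (.S 2 0 (.S 3 2 (.S 3 1 (.S 3 0 (.L 7 7 [4, 3]
    [278, 278, 278, 278, 278, 278] [0, 0, 0, 0, 0, 0] 100000 1 1 1466666 66667 0 100000 0 0 0 0)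
    (.L 7 7 [4, 3] [278, 278, 278, 278, 278, 278] [8, 0, 0, 0, 0, 0] 100000 533334 316667 0 316667
    0 316667 316667 0 0 0)) (.L 7 7 [4, 3] [278, 278, 278, 278, 278, 278] [14, 10, 2, 0, 0, 0]
    100000 300000 200000 0 200000 0 200000 0 0 0 0)) (.E 1)) (.L 4 6 [4, 4] [278, 278, 278, 278,
    278, 278] [] 100000 744444 633333 1 211111 0 211111 0 0 0 0)) (.S 2 0 (.S 3 1 (.S 3 0 (.L 2 3
    [6, 7] [314, 314, 314, 314, 314, 314] [0, 0, 0, 0, 0, 0] 100000 400000 400000 1000000 100000 0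
    100000 0 0 0 0) (.L 2 3 [6, 7] [314, 314, 314, 314, 314, 314] [8, 0, 0, 0, 0, 0] 100000 900000
    800000 0 200000 0 200000 0 0 0 0)) (.L 2 3 [6, 7] [314, 314, 314, 314, 314, 314] [] 100000 0
    100000 0 0 0 0 0 0 0 0)) (.L 2 3 [6, 7] [314, 314, 314, 314, 314, 314] [] 100000 900000 800000
    0 200000 0 200000 0 0 0 0))) (.L 2 3 [6, 7] [352, 352, 352, 352, 352, 352] [] 100000 900000
    800000 0 200000 0 200000 0 0 0 0)))) (.E 0))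

lemma n19_20_11_1_2 {n : ℕ} (hn : 6 ≤ n) : NoNd ((19 : ℕ) : ℤ) ((20 : ℕ) : ℤ) n 11 1
    (BlkD.inB (BlkD.upd (fun _ => 0) 0 6)
      (BlkD.upd (BlkD.upd (BlkD.upd (fun _ => 20) 0 11) 2 1) 0 8)) :=
  BlkD.part_sound (d := d19_20_11_1) dk19_20_11_1 hn (by decide) (tr := t19_20_11_1_2)
    (by decide +kernel) rfl rfl rfl rfl

/-- the certificates of the part 3 of the pair `(11, 1)` -/
def t19_20_11_1_3 : BlkD.Tr :=
  .S 0 10 (.S 0 9 (.S 1 11 (.S 1 5 (.L 4 6 [4, 4] [] [] 100000 0 0 1400000 40000 0 40000 0 0 0 0)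
    (.S 1 8 (.S 1 7 (.S 1 6 (.L 4 6 [4, 4] [166, 166, 166, 162, 154, 146] [] 100000 50000 50000
    1400000 50000 0 50000 0 0 0 0) (.S 2 0 (.S 3 4 (.S 3 2 (.S 3 1 (.S 3 0 (.L 4 6 [4, 4] [196,
    196, 196, 196, 192, 184] [0, 0, 0, 0, 0, 0] 100000 0 0 1480000 40000 0 40000 0 0 0 0) (.L 7 7
    [4, 3] [196, 196, 196, 196, 192, 184] [8, 0, 0, 0, 0, 0] 100000 1 1 1433333 66667 0 100000
    66667 0 0 0)) (.L 7 7 [4, 3] [196, 196, 196, 196, 192, 184] [14, 10, 2, 0, 0, 0] 100000 406666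
    253333 2 253333 0 253333 26667 0 0 0)) (.E 1)) (.E 1)) (.L 4 6 [4, 4] [196, 196, 196, 196, 192,
    184] [] 100000 300000 300000 1100000 100000 0 100000 0 0 0 0))) (.S 2 0 (.S 3 3 (.S 3 1 (.S 3 0
    (.L 2 4 [6, 6] [228, 228, 228, 228, 228, 224] [0, 0, 0, 0, 0, 0] 100000 300000 300000 1100000
    100000 0 100000 0 0 0 0) (.L 2 4 [6, 6] [228, 228, 228, 228, 228, 224] [8, 0, 0, 0, 0, 0]
    100000 300000 300000 1100000 100000 0 100000 0 0 0 0)) (.L 2 4 [6, 6] [228, 228, 228, 228, 228,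
    224] [] 100000 300000 300000 1100000 100000 0 100000 0 0 0 0)) (.E 1)) (.L 2 4 [6, 6] [228,
    228, 228, 228, 228, 224] [] 100000 300000 300000 1100000 100000 0 100000 0 0 0 0))) (.S 1 10
    (.S 1 9 (.L 2 4 [6, 6] [262, 262, 262, 262, 262, 262] [] 100000 300000 300000 1100000 100000 0
    100000 0 0 0 0) (.L 2 4 [6, 6] [298, 298, 298, 298, 298, 298] [] 100000 300000 300000 1100000
    100000 0 100000 0 0 0 0)) (.L 2 4 [6, 6] [336, 336, 336, 336, 336, 336] [] 100000 788888 666666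
    2 222222 0 222222 0 0 0 0)))) (.E 0)) (.S 1 10 (.S 1 5 (.S 1 2 (.L 2 4 [6, 6] [] [] 100000 0 0
    1300000 50000 0 50000 0 0 0 0) (.S 1 4 (.L 4 6 [4, 4] [] [] 100000 0 0 1400000 50000 0 50000 0
    0 0 0) (.S 2 0 (.L 4 6 [4, 4] [148, 148, 144, 136, 128, 120] [] 100000 0 0 1480000 40000 0
    40000 20000 0 0 0) (.S 3 4 (.S 3 2 (.S 3 1 (.S 3 0 (.L 4 6 [4, 4] [148, 148, 144, 136, 128,
    120] [0, 0, 0, 0, 0, 0] 100000 0 0 1440000 40000 0 40000 0 0 0 0) (.L 7 7 [4, 3] [148, 148,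
    144, 136, 128, 120] [10, 2, 0, 0, 0, 0] 100000 40000 40000 1300000 80000 0 80000 0 0 0 0)) (.E
    1)) (.E 1)) (.E 1))))) (.S 1 8 (.S 1 7 (.S 1 6 (.L 4 6 [4, 4] [178, 178, 178, 174, 166, 158] []
    100000 0 0 1450000 50000 0 100000 0 0 0 0) (.S 2 0 (.S 3 3 (.S 3 1 (.S 3 0 (.L 5 7 [4, 3] [210,
    210, 210, 210, 206, 198] [0, 0, 0, 0, 0, 0] 100000 1 1 1433333 66667 0 100000 0 0 0 0) (.L 5 7
    [4, 3] [210, 210, 210, 210, 206, 198] [8, 0, 0, 0, 0, 0] 100000 100000 100000 1300000 100000 0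
    100000 0 0 0 0)) (.L 5 7 [4, 3] [210, 210, 210, 210, 206, 198] [] 100000 406666 253333 2 253333
    0 253333 126667 0 0 0)) (.E 1)) (.L 5 7 [4, 3] [210, 210, 210, 210, 206, 198] [] 100000 500000
    300000 0 300000 0 300000 0 0 0 0))) (.L 5 7 [4, 3] [244, 244, 244, 244, 244, 240] [] 100000 1 1
    1466666 66667 0 100000 0 0 0 0)) (.L 5 7 [4, 3] [] [] 100000 25000 25000 1450000 75000 0 100000
    0 0 0 0))) (.E 0))) (.L 5 7 [4, 3] [] [] 100000 0 0 1400000 50000 0 100000 0 0 0 0)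

lemma n19_20_11_1_3 {n : ℕ} (hn : 6 ≤ n) : NoNd ((19 : ℕ) : ℤ) ((20 : ℕ) : ℤ) n 11 1
    (BlkD.inB (BlkD.upd (BlkD.upd (fun _ => 0) 0 6) 0 9)
      (BlkD.upd (BlkD.upd (fun _ => 20) 0 11) 2 1)) :=
  BlkD.part_sound (d := d19_20_11_1) dk19_20_11_1 hn (by decide) (tr := t19_20_11_1_3)
    (by decide +kernel) rfl rfl rfl rfl

/-- the certificates of the part 4 of the pair `(11, 1)` -/
def t19_20_11_1_4 : BlkD.Tr :=
  .E 1

lemma n19_20_11_1_4 {n : ℕ} (hn : 6 ≤ n) : NoNd ((19 : ℕ) : ℤ) ((20 : ℕ) : ℤ) n 11 1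
    (BlkD.inB (BlkD.upd (fun _ => 0) 2 2)
      (BlkD.upd (fun _ => 20) 0 11)) :=
  BlkD.part_sound (d := d19_20_11_1) dk19_20_11_1 hn (by decide) (tr := t19_20_11_1_4)
    (by decide +kernel) rfl rfl rfl rfl

/-- the certificates of the part 5 of the pair `(11, 1)` -/
def t19_20_11_1_5 : BlkD.Tr :=
  .E 0

lemma n19_20_11_1_5 {n : ℕ} (hn : 6 ≤ n) : NoNd ((19 : ℕ) : ℤ) ((20 : ℕ) : ℤ) n 11 1
    (BlkD.inB (BlkD.upd (fun _ => 0) 0 12)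
      (fun _ => 20)) :=
  BlkD.part_sound (d := d19_20_11_1) dk19_20_11_1 hn (by decide) (tr := t19_20_11_1_5)
    (by decide +kernel) rfl rfl rfl rfl

lemma pr19_20_11_1 {n : ℕ} (hn : 6 ≤ n) : NoPr ((19 : ℕ) : ℤ) ((20 : ℕ) : ℤ) n 11 1 :=
  BlkD.of_root (q := 4) (by decide) hn (BlkD.sp 0 11 (BlkD.sp 2 1 (BlkD.sp 0 5 (n19_20_11_1_1 hn)
    (BlkD.sp 0 8 (n19_20_11_1_2 hn)
    (n19_20_11_1_3 hn)))
    (n19_20_11_1_4 hn))
    (n19_20_11_1_5 hn))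

/-- the numbers of the pair `(11, 2)`, `R = 19`, `H = 20` -/
def d19_20_11_2 : BlkD.Pd :=
  ⟨19, 20, 4, 11, 2, 4, 0, 2, 0, 4, 4, 0, 0, 4, 4, 0, [0, 4, 8, 12, 16], [0, 4, 8, 12, 16], [⟨1, 1,
    1, 4, 8, [0, 4], [0, 4]⟩]⟩

lemma dk19_20_11_2 : BlkD.pairOk d19_20_11_2 = true := by decide +kernel

/-- the certificates of the part 1 of the pair `(11, 2)` -/
def t19_20_11_2_1 : BlkD.Tr :=
  .L 5 7 [4, 19, 19] [] [] 100000 0 0 1500000 100000 0 100000 100000 0 0 0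

lemma n19_20_11_2_1 {n : ℕ} (hn : 6 ≤ n) : NoNd ((19 : ℕ) : ℤ) ((20 : ℕ) : ℤ) n 11 2
    (BlkD.inB (fun _ => 0)
      (BlkD.upd (BlkD.upd (BlkD.upd (fun _ => 20) 0 11) 2 2) 0 5)) :=
  BlkD.part_sound (d := d19_20_11_2) dk19_20_11_2 hn (by decide) (tr := t19_20_11_2_1)
    (by decide +kernel) rfl rfl rfl rfl

/-- the certificates of the part 2 of the pair `(11, 2)` -/
def t19_20_11_2_2 : BlkD.Tr :=
  .L 5 7 [4, 19, 19] [] [] 100000 0 0 1500000 100000 0 100000 100000 0 0 0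

lemma n19_20_11_2_2 {n : ℕ} (hn : 6 ≤ n) : NoNd ((19 : ℕ) : ℤ) ((20 : ℕ) : ℤ) n 11 2
    (BlkD.inB (BlkD.upd (fun _ => 0) 0 6)
      (BlkD.upd (BlkD.upd (fun _ => 20) 0 11) 2 2)) :=
  BlkD.part_sound (d := d19_20_11_2) dk19_20_11_2 hn (by decide) (tr := t19_20_11_2_2)
    (by decide +kernel) rfl rfl rfl rfl

/-- the certificates of the part 3 of the pair `(11, 2)` -/
def t19_20_11_2_3 : BlkD.Tr :=
  .E 1

lemma n19_20_11_2_3 {n : ℕ} (hn : 6 ≤ n) : NoNd ((19 : ℕ) : ℤ) ((20 : ℕ) : ℤ) n 11 2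
    (BlkD.inB (BlkD.upd (fun _ => 0) 2 3)
      (BlkD.upd (fun _ => 20) 0 11)) :=
  BlkD.part_sound (d := d19_20_11_2) dk19_20_11_2 hn (by decide) (tr := t19_20_11_2_3)
    (by decide +kernel) rfl rfl rfl rfl

/-- the certificates of the part 4 of the pair `(11, 2)` -/
def t19_20_11_2_4 : BlkD.Tr :=
  .E 0

lemma n19_20_11_2_4 {n : ℕ} (hn : 6 ≤ n) : NoNd ((19 : ℕ) : ℤ) ((20 : ℕ) : ℤ) n 11 2
    (BlkD.inB (BlkD.upd (fun _ => 0) 0 12)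
      (fun _ => 20)) :=
  BlkD.part_sound (d := d19_20_11_2) dk19_20_11_2 hn (by decide) (tr := t19_20_11_2_4)
    (by decide +kernel) rfl rfl rfl rfl

lemma pr19_20_11_2 {n : ℕ} (hn : 6 ≤ n) : NoPr ((19 : ℕ) : ℤ) ((20 : ℕ) : ℤ) n 11 2 :=
  BlkD.of_root (q := 4) (by decide) hn (BlkD.sp 0 11 (BlkD.sp 2 2 (BlkD.sp 0 5 (n19_20_11_2_1 hn)
    (n19_20_11_2_2 hn))
    (n19_20_11_2_3 hn))
    (n19_20_11_2_4 hn))

/-- the numbers of the pair `(12, 0)`, `R = 19`, `H = 20` -/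
def d19_20_12_0 : BlkD.Pd :=
  ⟨19, 20, 4, 12, 0, 5, 0, 1, 0, 4, 4, 0, 0, 4, 4, 0, [0, 4, 8, 12, 16, 20], [0, 4, 8, 12, 16, 20],
    [⟨1, 1, 1, 4, 8, [0, 4], [0, 4]⟩]⟩

lemma dk19_20_12_0 : BlkD.pairOk d19_20_12_0 = true := by decide +kernel

/-- the certificates of the part 1 of the pair `(12, 0)` -/
def t19_20_12_0_1 : BlkD.Tr :=
  .S 0 12 (.S 2 0 (.L 5 7 [4] [] [] 100000 0 0 1300000 100000 0 100000 0 0 0 0) (.E 1)) (.E 0)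

lemma n19_20_12_0_1 {n : ℕ} (hn : 6 ≤ n) : NoNd ((19 : ℕ) : ℤ) ((20 : ℕ) : ℤ) n 12 0
    (BlkD.inB (fun _ => 0)
      (fun _ => 20)) :=
  BlkD.part_sound (d := d19_20_12_0) dk19_20_12_0 hn (by decide) (tr := t19_20_12_0_1)
    (by decide +kernel) rfl rfl rfl rfl

lemma pr19_20_12_0 {n : ℕ} (hn : 6 ≤ n) : NoPr ((19 : ℕ) : ℤ) ((20 : ℕ) : ℤ) n 12 0 :=
  BlkD.of_root (q := 4) (by decide) hn (n19_20_12_0_1 hn)

/-- the numbers of the pair `(12, 1)`, `R = 19`, `H = 20` -/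
def d19_20_12_1 : BlkD.Pd :=
  ⟨19, 20, 4, 12, 1, 4, 0, 1, 0, 4, 4, 0, 0, 4, 4, 0, [0, 4, 8, 12, 16], [0, 4, 8, 12, 16], [⟨1, 1,
    1, 4, 8, [0, 4], [0, 4]⟩]⟩

lemma dk19_20_12_1 : BlkD.pairOk d19_20_12_1 = true := by decide +kernel

/-- the certificates of the part 1 of the pair `(12, 1)` -/
def t19_20_12_1_1 : BlkD.Tr :=
  .S 0 12 (.S 2 1 (.L 5 7 [4, 19] [] [] 100000 0 0 1500000 100000 0 100000 0 0 0 0) (.E 1)) (.E 0)

lemma n19_20_12_1_1 {n : ℕ} (hn : 6 ≤ n) : NoNd ((19 : ℕ) : ℤ) ((20 : ℕ) : ℤ) n 12 1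
    (BlkD.inB (fun _ => 0)
      (fun _ => 20)) :=
  BlkD.part_sound (d := d19_20_12_1) dk19_20_12_1 hn (by decide) (tr := t19_20_12_1_1)
    (by decide +kernel) rfl rfl rfl rfl

lemma pr19_20_12_1 {n : ℕ} (hn : 6 ≤ n) : NoPr ((19 : ℕ) : ℤ) ((20 : ℕ) : ℤ) n 12 1 :=
  BlkD.of_root (q := 4) (by decide) hn (n19_20_12_1_1 hn)

/-- the numbers of the pair `(13, 0)`, `R = 19`, `H = 20` -/
def d19_20_13_0 : BlkD.Pd :=
  ⟨19, 20, 4, 13, 0, 4, 0, 1, 0, 4, 4, 0, 0, 4, 4, 0, [0, 4, 8, 12, 16], [0, 4, 8, 12, 16], [⟨1, 1,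
    1, 4, 8, [0, 4], [0, 4]⟩]⟩

lemma dk19_20_13_0 : BlkD.pairOk d19_20_13_0 = true := by decide +kernel

/-- the certificates of the part 1 of the pair `(13, 0)` -/
def t19_20_13_0_1 : BlkD.Tr :=
  .S 0 13 (.S 2 0 (.L 5 7 [4] [] [] 100000 0 0 1400000 100000 0 100000 0 0 0 0) (.E 1)) (.E 0)

lemma n19_20_13_0_1 {n : ℕ} (hn : 6 ≤ n) : NoNd ((19 : ℕ) : ℤ) ((20 : ℕ) : ℤ) n 13 0
    (BlkD.inB (fun _ => 0)
      (fun _ => 20)) :=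
  BlkD.part_sound (d := d19_20_13_0) dk19_20_13_0 hn (by decide) (tr := t19_20_13_0_1)
    (by decide +kernel) rfl rfl rfl rfl

lemma pr19_20_13_0 {n : ℕ} (hn : 6 ≤ n) : NoPr ((19 : ℕ) : ℤ) ((20 : ℕ) : ℤ) n 13 0 :=
  BlkD.of_root (q := 4) (by decide) hn (n19_20_13_0_1 hn)

end BlkC

end Pool.Agent.Lib.MP_f04ccf_co
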