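import Pool.Agent.Lib.MP_f04ccf_co.M.BlkX19_20_4_4d

/-!
MP_f04ccf_co, block certificate with exceptions, `R = 19`, `H = 20`, the pair `(4, 4)` (data of helper99 / helper13,
generated by helper8, genx.py): part 1 of 2.
-/

set_option autoImplicit false
set_option maxRecDepth 100000

namespace Pool.Agent.Lib.MP_f04ccf_co

namespace BlkC

/-- a subtree -/
def t19_20_4_4_0 : BlkD.Tr :=
  .L 5 5 [4, 4, 4, 5, 5] [] [] 100000 59375 59375 650000 0 0 100000 25000 0 0 12500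

lemma s19_20_4_4_0 : BlkD.treeX d19_20_4_4 (BlkD.exF 4 4 x19_20_4_4) t19_20_4_4_0
    (fun _ => 0)
    (BlkD.upd (BlkD.upd (BlkD.upd (BlkD.upd (BlkD.upd (fun _ => 20) 0 4) 2 4) 0 2) 0 1) 0 0) = true := by
  decide +kernel

lemma n19_20_4_4_0 {n : ℕ} (hn : 6 ≤ n) : BlkD.NdX d19_20_4_4 (BlkD.exF 4 4 x19_20_4_4) n
    (fun _ => 0)
    (BlkD.upd (BlkD.upd (BlkD.upd (BlkD.upd (BlkD.upd (fun _ => 20) 0 4) 2 4) 0 2) 0 1) 0 0) :=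
  BlkD.NdX.tree s19_20_4_4_0 ok19_20_4_4 (by decide) hn

/-- a subtree -/
def t19_20_4_4_1 : BlkD.Tr :=
  .L 5 5 [4, 4, 4, 5, 5] [] [] 100000 31945 31945 900000 0 0 0 50000 0 22222 27778

lemma s19_20_4_4_1 : BlkD.treeX d19_20_4_4 (BlkD.exF 4 4 x19_20_4_4) t19_20_4_4_1
    (BlkD.upd (fun _ => 0) 0 1)
    (BlkD.upd (BlkD.upd (BlkD.upd (BlkD.upd (BlkD.upd (BlkD.upd (BlkD.upd (BlkD.upd (fun _ => 20) 0 4) 2 4) 0 2) 0 1) 1 19) 1 9) 1 4) 1 2) = true := by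
  decide +kernel

lemma n19_20_4_4_1 {n : ℕ} (hn : 6 ≤ n) : BlkD.NdX d19_20_4_4 (BlkD.exF 4 4 x19_20_4_4) n
    (BlkD.upd (fun _ => 0) 0 1)
    (BlkD.upd (BlkD.upd (BlkD.upd (BlkD.upd (BlkD.upd (BlkD.upd (BlkD.upd (BlkD.upd (fun _ => 20) 0 4) 2 4) 0 2) 0 1) 1 19) 1 9) 1 4) 1 2) :=
  BlkD.NdX.tree s19_20_4_4_1 ok19_20_4_4 (by decide) hn

/-- a subtree -/
def t19_20_4_4_2 : BlkD.Tr :=
  .S 2 2 (.S 2 1 (.S 2 0 (.L 5 5 [4, 4, 4, 5, 5] [42, 32, 22, 12, 0, 0] [] 100000 55555 55555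
    600000 0 0 0 100000 0 0 15556) (.S 3 15 (.S 3 7 (.S 3 3 (.L 5 5 [4, 4, 4, 5, 5] [42, 32, 22,
    12, 0, 0] [] 100000 40000 40000 800000 0 0 0 0 0 0 40000) (.S 3 5 (.S 3 4 (.L 5 5 [4, 4, 4, 5,
    5] [42, 32, 22, 12, 0, 0] [54, 50, 40, 30, 20, 0] 100000 37278 37278 890418 7692 1183 9112
    29467 237 6982 36450) (.S 4 3 (.S 4 1 (.S 4 0 (.L 5 5 [4, 4, 4, 5, 5] [12, 0, 0, 0, 0, 0] [68,
    64, 60, 50, 40, 30] 100000 21875 21875 980000 2500 15000 0 32500 32500 32500 20000) (.S 5 5 (.S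
    5 2 (.L 5 5 [4, 4, 4, 5, 5] [22, 12, 0, 0, 0, 0] [50, 40, 30, 0, 0, 0] 100000 23438 23438
    937500 0 12500 43750 6250 6250 68750 25000) (.L 5 5 [4, 4, 4, 5, 5] [22, 12, 0, 0, 0, 0] [68,
    64, 60, 50, 40, 30] 100000 30000 30000 940000 0 0 20000 40000 0 40000 20000)) (.E 2))) (.L 5 5
    [4, 4, 4, 5, 5] [42, 32, 22, 12, 0, 0] [68, 64, 60, 50, 40, 30] 100000 31250 31250 900000 0 0
    50000 25000 0 50000 25000)) (.E 2))) (.S 3 6 (.S 4 3 (.S 4 1 (.S 4 0 (.L 5 5 [4, 4, 4, 5, 5]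
    [12, 0, 0, 0, 0, 0] [82, 80, 76, 72, 62, 52] 100000 80000 80000 640000 100000 0 0 80000 80000 0
    40000) (.S 5 6 (.S 5 3 (.E 2) (.S 5 5 (.S 5 4 (.E 9) (.L 5 5 [4, 4, 4, 5, 5] [22, 12, 0, 0, 0,
    0] [80, 76, 72, 62, 52, 42] 100000 45834 45834 833333 0 0 0 100000 33333 0 16667)) (.L 5 5 [4,
    4, 4, 5, 5] [22, 12, 0, 0, 0, 0] [82, 80, 76, 72, 62, 52] 100000 60000 36667 606668 0 0 0
    123333 0 0 16667))) (.E 2))) (.L 5 5 [4, 4, 4, 5, 5] [42, 32, 22, 12, 0, 0] [82, 80, 76, 72,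
    62, 52] 100000 30000 30000 940000 0 0 80000 0 0 80000 40000)) (.E 2)) (.E 1)))) (.E 1)) (.E
    1))) (.S 3 14 (.S 3 7 (.S 3 3 (.L 5 5 [4, 4, 4, 5, 5] [42, 32, 22, 12, 0, 0] [] 100000 41667
    41667 866666 16667 0 16667 16667 0 0 33333) (.S 3 5 (.S 3 4 (.S 4 3 (.S 4 1 (.S 4 0 (.L 5 5 [4,
    4, 4, 5, 5] [12, 0, 0, 0, 0, 0] [62, 58, 48, 38, 28, 0] 100000 25000 25000 950000 25000 0 0
    25000 25000 50000 25000) (.S 5 4 (.S 5 2 (.L 5 5 [4, 4, 4, 5, 5] [22, 12, 0, 0, 0, 0] [48, 38,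
    28, 0, 0, 0] 100000 25000 25000 933334 8333 0 58333 0 0 75000 25000) (.L 5 5 [4, 4, 4, 5, 5]
    [22, 12, 0, 0, 0, 0] [62, 58, 48, 38, 28, 0] 100000 30000 30000 940000 0 0 20000 40000 0 40000
    20000)) (.E 2))) (.L 5 5 [4, 4, 4, 5, 5] [42, 32, 22, 12, 0, 0] [62, 58, 48, 38, 28, 0] 100000
    31250 31250 900000 0 0 50000 25000 0 50000 25000)) (.E 2)) (.L 5 5 [4, 4, 4, 5, 5] [42, 32, 22,
    12, 0, 0] [78, 74, 70, 60, 50, 40] 100000 54167 54167 800000 0 0 0 100000 0 0 16667)) (.E 1)))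
    (.E 1)) (.E 1))) (.L 5 5 [4, 4, 4, 5, 5] [42, 32, 22, 12, 0, 0] [] 100000 24546 24546 959092
    13636 0 20000 13636 1818 60909 25455)

lemma s19_20_4_4_2 : BlkD.treeX d19_20_4_4 (BlkD.exF 4 4 x19_20_4_4) t19_20_4_4_2
    (BlkD.upd (BlkD.upd (fun _ => 0) 0 1) 1 3)
    (BlkD.upd (BlkD.upd (BlkD.upd (BlkD.upd (BlkD.upd (BlkD.upd (BlkD.upd (BlkD.upd (fun _ => 20) 0 4) 2 4) 0 2) 0 1) 1 19) 1 9) 1 4) 1 3) = true := by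
  decide +kernel

lemma n19_20_4_4_2 {n : ℕ} (hn : 6 ≤ n) : BlkD.NdX d19_20_4_4 (BlkD.exF 4 4 x19_20_4_4) n
    (BlkD.upd (BlkD.upd (fun _ => 0) 0 1) 1 3)
    (BlkD.upd (BlkD.upd (BlkD.upd (BlkD.upd (BlkD.upd (BlkD.upd (BlkD.upd (BlkD.upd (fun _ => 20) 0 4) 2 4) 0 2) 0 1) 1 19) 1 9) 1 4) 1 3) :=
  BlkD.NdX.tree s19_20_4_4_2 ok19_20_4_4 (by decide) hn

/-- a subtree -/
def t19_20_4_4_3 : BlkD.Tr :=
  .S 2 0 (.L 5 5 [4, 4, 4, 5, 5] [54, 50, 40, 30, 20, 0] [] 100000 59375 59375 650000 0 0 25000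
    100000 0 0 12500) (.S 3 14 (.S 3 7 (.S 3 3 (.L 5 5 [4, 4, 4, 5, 5] [54, 50, 40, 30, 20, 0] []
    100000 37278 37278 890418 1183 7692 29467 9112 6982 237 36450) (.S 3 5 (.S 3 4 (.S 4 4 (.S 4 2
    (.S 4 1 (.L 1 1 [9, 11, 13, 15, 15] [30, 20, 0, 0, 0, 0] [54, 50, 40, 30, 20, 0] 100000 38514
    38514 902026 3378 40541 0 45946 74324 5405 25676) (.S 5 4 (.S 5 2 (.S 5 1 (.L 1 1 [9, 11, 13,
    15, 15] [40, 30, 20, 0, 0, 0] [30, 20, 0, 0, 0, 0] 100000 25000 24999 933333 0 0 66667 0 0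
    66667 33333) (.E 9)) (.L 1 1 [9, 11, 13, 15, 15] [40, 30, 20, 0, 0, 0] [54, 50, 40, 30, 20, 0]
    100000 25000 24999 933333 0 0 0 66667 66667 0 33333)) (.E 2))) (.S 4 3 (.S 5 4 (.S 5 2 (.L 1 1
    [9, 11, 13, 15, 15] [50, 40, 30, 20, 0, 0] [40, 30, 20, 0, 0, 0] 100000 25000 24999 933333 0 0
    66667 0 0 66667 33333) (.L 1 1 [9, 11, 13, 15, 15] [50, 40, 30, 20, 0, 0] [54, 50, 40, 30, 20,
    0] 100000 58334 58334 733332 0 0 66667 66667 0 0 33333)) (.E 2)) (.L 1 1 [9, 11, 13, 15, 15]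
    [54, 50, 40, 30, 20, 0] [54, 50, 40, 30, 20, 0] 100000 50676 50676 772973 0 0 75676 37838 0
    10811 24324))) (.E 2)) (.S 4 4 (.S 4 2 (.S 4 1 (.S 4 0 (.L 1 1 [9, 11, 13, 15, 15] [20, 0, 0,
    0, 0, 0] [68, 64, 60, 50, 40, 30] 100000 69445 55556 597223 100000 13889 0 47222 61111 30556
    30556) (.S 5 5 (.S 5 2 (.L 1 1 [9, 11, 13, 15, 15] [30, 20, 0, 0, 0, 0] [50, 40, 30, 0, 0, 0]
    100000 50000 50000 816668 50000 33333 0 33333 33333 33333 33333) (.L 1 1 [9, 11, 13, 15, 15]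
    [30, 20, 0, 0, 0, 0] [68, 64, 60, 50, 40, 30] 100000 30000 30000 940000 0 0 0 80000 80000 0
    40000)) (.E 2))) (.S 5 5 (.S 5 2 (.L 1 1 [9, 11, 13, 15, 15] [40, 30, 20, 0, 0, 0] [50, 40, 30,
    0, 0, 0] 100000 30000 30000 940000 0 0 80000 0 0 80000 40000) (.S 5 4 (.S 5 3 (.E 9) (.L 1 1
    [9, 11, 13, 15, 15] [40, 30, 20, 0, 0, 0] [64, 60, 50, 40, 30, 0] 100000 30000 30000 940000 0 0
    0 80000 80000 0 40000)) (.L 1 1 [9, 11, 13, 15, 15] [40, 30, 20, 0, 0, 0] [68, 64, 60, 50, 40,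
    30] 100000 40000 40000 800000 0 0 0 100000 80000 0 40000))) (.E 2))) (.L 1 1 [9, 11, 13, 15,
    15] [54, 50, 40, 30, 20, 0] [68, 64, 60, 50, 40, 30] 100000 30000 30000 940000 0 0 80000 0 0
    80000 40000)) (.E 2))) (.S 3 6 (.S 4 4 (.S 4 2 (.S 4 1 (.L 1 1 [9, 11, 13, 15, 15] [30, 20, 0,
    0, 0, 0] [82, 80, 76, 72, 62, 52] 100000 80000 80000 660000 80000 0 0 100000 80000 0 40000) (.S
    5 6 (.S 5 3 (.E 2) (.S 5 5 (.S 5 4 (.E 9) (.E 9)) (.L 1 1 [9, 11, 13, 15, 15] [40, 30, 20, 0,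
    0, 0] [82, 80, 76, 72, 62, 52] 100000 40000 40000 800000 0 0 0 100000 80000 0 40000))) (.E 2)))
    (.S 4 3 (.S 5 6 (.S 5 3 (.E 2) (.S 5 5 (.S 5 4 (.E 9) (.L 1 1 [9, 11, 13, 15, 15] [50, 40, 30,
    20, 0, 0] [80, 76, 72, 62, 52, 42] 100000 90000 90000 600000 0 0 100000 100000 0 0 40000)) (.L
    1 1 [9, 11, 13, 15, 15] [50, 40, 30, 20, 0, 0] [82, 80, 76, 72, 62, 52] 100000 140000 73332
    33331 0 0 166667 166667 0 0 40000))) (.E 2)) (.L 1 1 [9, 11, 13, 15, 15] [54, 50, 40, 30, 20,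
    0] [82, 80, 76, 72, 62, 52] 100000 40000 40000 800000 0 0 100000 0 0 80000 40000))) (.E 2)) (.E
    1)))) (.E 1)) (.E 1))

lemma s19_20_4_4_3 : BlkD.treeX d19_20_4_4 (BlkD.exF 4 4 x19_20_4_4) t19_20_4_4_3
    (BlkD.upd (BlkD.upd (BlkD.upd (fun _ => 0) 0 1) 1 3) 1 4)
    (BlkD.upd (BlkD.upd (BlkD.upd (BlkD.upd (BlkD.upd (BlkD.upd (BlkD.upd (BlkD.upd (BlkD.upd (fun _ => 20) 0 4) 2 4) 0 2) 0 1) 1 19) 1 9) 1 4) 2 2) 2 1) = true := by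
  decide +kernel

lemma n19_20_4_4_3 {n : ℕ} (hn : 6 ≤ n) : BlkD.NdX d19_20_4_4 (BlkD.exF 4 4 x19_20_4_4) n
    (BlkD.upd (BlkD.upd (BlkD.upd (fun _ => 0) 0 1) 1 3) 1 4)
    (BlkD.upd (BlkD.upd (BlkD.upd (BlkD.upd (BlkD.upd (BlkD.upd (BlkD.upd (BlkD.upd (BlkD.upd (fun _ => 20) 0 4) 2 4) 0 2) 0 1) 1 19) 1 9) 1 4) 2 2) 2 1) :=
  BlkD.NdX.tree s19_20_4_4_3 ok19_20_4_4 (by decide) hn

/-- a subtree -/
def t19_20_4_4_4 : BlkD.Tr :=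
  .S 3 13 (.S 3 6 (.S 3 3 (.S 3 1 (.L 1 1 [9, 11, 13, 15, 15] [54, 50, 40, 30, 20, 0] [] 100000
    40000 40000 800000 0 0 0 0 0 0 40000) (.S 3 2 (.L 1 1 [9, 11, 13, 15, 15] [54, 50, 40, 30, 20,
    0] [30, 20, 10, 0, 0, 0] 100000 33750 33750 912500 0 0 31111 16389 8889 3611 40000) (.S 4 4 (.S
    4 2 (.S 4 1 (.S 4 0 (.L 1 1 [9, 11, 13, 15, 15] [20, 0, 0, 0, 0, 0] [48, 38, 28, 18, 0, 0]
    100000 26667 26667 893332 26667 0 0 46667 80000 46667 40000) (.S 5 3 (.S 5 1 (.L 5 5 [4, 4, 4,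
    5, 5] [30, 20, 0, 0, 0, 0] [28, 18, 0, 0, 0, 0] 100000 31250 31250 875000 50000 0 50000 0 25000
    50000 25000) (.L 5 5 [4, 4, 4, 5, 5] [30, 20, 0, 0, 0, 0] [48, 38, 28, 18, 0, 0] 100000 25000
    24999 933333 0 0 0 66667 66667 0 33333)) (.E 2))) (.S 5 3 (.S 5 1 (.L 5 5 [4, 4, 4, 5, 5] [40,
    30, 20, 0, 0, 0] [28, 18, 0, 0, 0, 0] 100000 31250 31250 900000 25000 0 50000 0 0 50000 25000)
    (.S 5 2 (.L 5 5 [4, 4, 4, 5, 5] [40, 30, 20, 0, 0, 0] [38, 28, 18, 0, 0, 0] 100000 25000 24999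
    933333 0 0 66667 0 0 66667 33333) (.L 5 5 [4, 4, 4, 5, 5] [40, 30, 20, 0, 0, 0] [48, 38, 28,
    18, 0, 0] 100000 25000 24999 933333 0 0 0 66667 66667 0 33333))) (.E 2))) (.L 5 5 [4, 4, 4, 5,
    5] [54, 50, 40, 30, 20, 0] [48, 38, 28, 18, 0, 0] 100000 50490 50489 835294 0 0 82353 27451 0
    7843 17647)) (.E 2)))) (.S 3 5 (.S 3 4 (.S 4 4 (.S 4 2 (.S 4 1 (.S 4 0 (.L 5 5 [4, 4, 4, 5, 5]
    [20, 0, 0, 0, 0, 0] [62, 58, 48, 38, 28, 0] 100000 45000 45000 780000 100000 0 0 10000 80000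
    70000 40000) (.S 5 4 (.S 5 2 (.L 2 2 [6, 7, 9, 10, 11] [30, 20, 0, 0, 0, 0] [48, 38, 28, 0, 0,
    0] 100000 66667 66667 760000 100000 0 60000 0 20000 53333 26667) (.L 2 2 [6, 7, 9, 10, 11] [30,
    20, 0, 0, 0, 0] [62, 58, 48, 38, 28, 0] 100000 30000 30000 940000 0 0 0 80000 80000 0 40000))
    (.E 2))) (.S 5 4 (.S 5 2 (.L 2 2 [6, 7, 9, 10, 11] [40, 30, 20, 0, 0, 0] [48, 38, 28, 0, 0, 0]
    100000 30000 30000 940000 0 0 80000 0 0 80000 40000) (.S 5 3 (.E 9) (.L 2 2 [6, 7, 9, 10, 11]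
    [40, 30, 20, 0, 0, 0] [62, 58, 48, 38, 28, 0] 100000 30000 30000 940000 0 0 0 80000 80000 0
    40000))) (.E 2))) (.L 2 2 [6, 7, 9, 10, 11] [54, 50, 40, 30, 20, 0] [62, 58, 48, 38, 28, 0]
    100000 30000 30000 940000 0 0 80000 0 0 80000 40000)) (.E 2)) (.S 4 4 (.S 4 2 (.S 4 1 (.L 2 2
    [6, 7, 9, 10, 11] [30, 20, 0, 0, 0, 0] [78, 74, 70, 60, 50, 40] 100000 130000 70000 110000
    150000 0 0 160000 80000 0 40000) (.S 5 5 (.S 5 2 (.E 2) (.S 5 4 (.E 2) (.E 9))) (.E 2))) (.L 2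
    2 [6, 7, 9, 10, 11] [54, 50, 40, 30, 20, 0] [78, 74, 70, 60, 50, 40] 100000 90000 90000 600000
    0 0 100000 100000 0 0 40000)) (.E 2))) (.E 1))) (.E 1)) (.E 1)

lemma s19_20_4_4_4 : BlkD.treeX d19_20_4_4 (BlkD.exF 4 4 x19_20_4_4) t19_20_4_4_4
    (BlkD.upd (BlkD.upd (BlkD.upd (BlkD.upd (fun _ => 0) 0 1) 1 3) 1 4) 2 2)
    (BlkD.upd (BlkD.upd (BlkD.upd (BlkD.upd (BlkD.upd (BlkD.upd (BlkD.upd (BlkD.upd (fun _ => 20) 0 4) 2 4) 0 2) 0 1) 1 19) 1 9) 1 4) 2 2) = true := by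
  decide +kernel

lemma n19_20_4_4_4 {n : ℕ} (hn : 6 ≤ n) : BlkD.NdX d19_20_4_4 (BlkD.exF 4 4 x19_20_4_4) n
    (BlkD.upd (BlkD.upd (BlkD.upd (BlkD.upd (fun _ => 0) 0 1) 1 3) 1 4) 2 2)
    (BlkD.upd (BlkD.upd (BlkD.upd (BlkD.upd (BlkD.upd (BlkD.upd (BlkD.upd (BlkD.upd (fun _ => 20) 0 4) 2 4) 0 2) 0 1) 1 19) 1 9) 1 4) 2 2) :=
  BlkD.NdX.tree s19_20_4_4_4 ok19_20_4_4 (by decide) hn

/-- a subtree -/
def t19_20_4_4_5 : BlkD.Tr :=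
  .S 2 3 (.S 3 12 (.S 3 6 (.S 3 3 (.S 3 1 (.L 2 2 [6, 7, 9, 10, 11] [54, 50, 40, 30, 20, 0] []
    100000 35715 35715 857142 21429 0 21429 0 0 21429 35714) (.S 3 2 (.L 2 2 [6, 7, 9, 10, 11] [54,
    50, 40, 30, 20, 0] [34, 24, 14, 0, 0, 0] 100000 58334 58334 799999 66667 0 66667 0 0 66667
    33333) (.S 4 4 (.S 4 2 (.S 4 1 (.L 4 4 [4, 4, 5, 6, 7] [30, 20, 0, 0, 0, 0] [54, 44, 34, 24, 0,
    0] 100000 16667 16667 1000001 33333 0 33333 0 33333 66667 33333) (.L 4 4 [4, 4, 5, 6, 7] [40,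
    30, 20, 0, 0, 0] [54, 44, 34, 24, 0, 0] 100000 30000 30000 940000 0 0 80000 0 0 80000 40000))
    (.L 4 4 [4, 4, 5, 6, 7] [54, 50, 40, 30, 20, 0] [54, 44, 34, 24, 0, 0] 100000 40000 40000
    800000 0 0 100000 0 0 80000 40000)) (.E 2)))) (.E 1)) (.E 1)) (.E 1)) (.S 3 11 (.S 3 5 (.S 3 2
    (.S 3 1 (.L 4 4 [4, 4, 5, 6, 7] [54, 50, 40, 30, 20, 0] [] 100000 20625 20625 942500 15000 0
    32500 12500 17500 75000 25000) (.S 4 4 (.S 4 2 (.S 4 1 (.L 4 4 [4, 4, 5, 6, 7] [30, 20, 0, 0,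
    0, 0] [38, 28, 18, 0, 0, 0] 100000 50001 50001 800000 100000 0 33333 0 33333 66667 33333) (.L 4
    4 [4, 4, 5, 6, 7] [40, 30, 20, 0, 0, 0] [38, 28, 18, 0, 0, 0] 100000 30000 30000 940000 0 0
    80000 0 0 80000 40000)) (.L 4 4 [4, 4, 5, 6, 7] [54, 50, 40, 30, 20, 0] [38, 28, 18, 0, 0, 0]
    100000 40000 40000 800000 0 0 100000 0 0 80000 40000)) (.E 2))) (.E 1)) (.E 1)) (.E 1))

lemma s19_20_4_4_5 : BlkD.treeX d19_20_4_4 (BlkD.exF 4 4 x19_20_4_4) t19_20_4_4_5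
    (BlkD.upd (BlkD.upd (BlkD.upd (BlkD.upd (fun _ => 0) 0 1) 1 3) 1 4) 2 3)
    (BlkD.upd (BlkD.upd (BlkD.upd (BlkD.upd (BlkD.upd (BlkD.upd (BlkD.upd (fun _ => 20) 0 4) 2 4) 0 2) 0 1) 1 19) 1 9) 1 4) = true := by
  decide +kernel

lemma n19_20_4_4_5 {n : ℕ} (hn : 6 ≤ n) : BlkD.NdX d19_20_4_4 (BlkD.exF 4 4 x19_20_4_4) n
    (BlkD.upd (BlkD.upd (BlkD.upd (BlkD.upd (fun _ => 0) 0 1) 1 3) 1 4) 2 3)
    (BlkD.upd (BlkD.upd (BlkD.upd (BlkD.upd (BlkD.upd (BlkD.upd (BlkD.upd (fun _ => 20) 0 4) 2 4) 0 2) 0 1) 1 19) 1 9) 1 4) :=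
  BlkD.NdX.tree s19_20_4_4_5 ok19_20_4_4 (by decide) hn

/-- a subtree -/
def t19_20_4_4_6 : BlkD.Tr :=
  .S 2 0 (.L 4 4 [4, 4, 5, 6, 7] [68, 64, 60, 50, 40, 30] [] 100000 59375 59375 650000 0 0 25000
    100000 0 0 12500) (.S 3 13 (.S 3 6 (.S 3 3 (.S 3 1 (.L 4 4 [4, 4, 5, 6, 7] [68, 64, 60, 50, 40,
    30] [] 100000 27778 27778 800000 0 0 14815 0 29630 0 29630) (.S 3 2 (.L 4 4 [4, 4, 5, 6, 7]
    [68, 64, 60, 50, 40, 30] [26, 16, 6, 0, 0, 0] 100000 28572 28572 871429 0 14286 28571 14286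
    42857 0 28571) (.S 4 5 (.S 4 2 (.L 4 4 [4, 4, 5, 6, 7] [50, 40, 30, 0, 0, 0] [42, 32, 22, 12,
    0, 0] 100000 28309 28309 933824 22059 0 22059 26471 52941 4412 25000) (.L 4 4 [4, 4, 5, 6, 7]
    [68, 64, 60, 50, 40, 30] [42, 32, 22, 12, 0, 0] 100000 25000 24999 966667 0 0 33333 0 33333 0
    33333)) (.E 2)))) (.S 3 5 (.S 3 4 (.S 4 5 (.S 4 2 (.S 4 1 (.L 1 1 [9, 11, 13, 15, 15] [40, 30,
    0, 0, 0, 0] [54, 50, 40, 30, 20, 0] 100000 66667 66667 733335 100000 0 33333 33333 33333 33333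
    33333) (.S 5 4 (.S 5 2 (.S 5 1 (.L 1 1 [9, 11, 13, 15, 15] [50, 40, 30, 0, 0, 0] [30, 20, 0, 0,
    0, 0] 100000 50000 50000 816668 33333 50000 33333 0 33333 33333 33333) (.L 1 1 [9, 11, 13, 15,
    15] [50, 40, 30, 0, 0, 0] [40, 30, 20, 0, 0, 0] 100000 30000 30000 940000 0 0 0 80000 80000 0
    40000)) (.L 1 1 [9, 11, 13, 15, 15] [50, 40, 30, 0, 0, 0] [54, 50, 40, 30, 20, 0] 100000 40000
    40000 800000 0 0 0 100000 80000 0 40000)) (.E 2))) (.S 4 4 (.S 4 3 (.S 5 4 (.S 5 2 (.S 5 1 (.L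
    1 1 [9, 11, 13, 15, 15] [60, 50, 40, 30, 0, 0] [30, 20, 0, 0, 0, 0] 100000 30000 30000 940000 0
    0 80000 0 0 80000 40000) (.E 9)) (.L 1 1 [9, 11, 13, 15, 15] [60, 50, 40, 30, 0, 0] [54, 50,
    40, 30, 20, 0] 100000 30000 30000 940000 0 0 0 80000 80000 0 40000)) (.E 2)) (.S 5 4 (.S 5 2
    (.L 1 1 [9, 11, 13, 15, 15] [64, 60, 50, 40, 30, 0] [40, 30, 20, 0, 0, 0] 100000 30000 30000
    940000 0 0 80000 0 0 80000 40000) (.L 1 1 [9, 11, 13, 15, 15] [64, 60, 50, 40, 30, 0] [54, 50,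
    40, 30, 20, 0] 100000 90000 90000 600000 0 0 100000 100000 0 0 40000)) (.E 2))) (.L 1 1 [9, 11,
    13, 15, 15] [68, 64, 60, 50, 40, 30] [54, 50, 40, 30, 20, 0] 100000 66964 66963 700002 0 0
    100000 50000 0 14286 32143))) (.E 2)) (.S 4 5 (.S 4 2 (.S 4 1 (.L 1 1 [9, 11, 13, 15, 15] [40,
    30, 0, 0, 0, 0] [68, 64, 60, 50, 40, 30] 100000 66667 66667 726668 100000 0 40000 33333 60000
    46667 40000) (.S 5 5 (.S 5 2 (.L 2 2 [6, 7, 9, 10, 11] [50, 40, 30, 0, 0, 0] [50, 40, 30, 0, 0,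
    0] 100000 115625 115625 450000 100000 100000 37500 37500 25000 50000 12500) (.L 1 1 [9, 11, 13,
    15, 15] [50, 40, 30, 0, 0, 0] [68, 64, 60, 50, 40, 30] 100000 100000 100000 560000 100000 0
    20000 100000 40000 0 40000)) (.E 2))) (.S 4 4 (.S 4 3 (.S 5 5 (.S 5 2 (.L 1 1 [9, 11, 13, 15,
    15] [60, 50, 40, 30, 0, 0] [50, 40, 30, 0, 0, 0] 100000 100000 100000 560000 0 100000 100000
    20000 0 40000 40000) (.S 5 4 (.S 5 3 (.E 9) (.E 9)) (.L 1 1 [9, 11, 13, 15, 15] [60, 50, 40,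
    30, 0, 0] [68, 64, 60, 50, 40, 30] 100000 40000 40000 800000 0 0 0 100000 80000 0 40000))) (.E
    2)) (.S 5 5 (.S 5 2 (.L 1 1 [9, 11, 13, 15, 15] [64, 60, 50, 40, 30, 0] [50, 40, 30, 0, 0, 0]
    100000 40000 40000 800000 0 0 100000 0 0 80000 40000) (.S 5 4 (.S 5 3 (.E 9) (.L 1 1 [9, 11,
    13, 15, 15] [64, 60, 50, 40, 30, 0] [64, 60, 50, 40, 30, 0] 100000 90000 90000 600000 0 0
    100000 100000 0 0 40000)) (.L 1 1 [9, 11, 13, 15, 15] [64, 60, 50, 40, 30, 0] [68, 64, 60, 50,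
    40, 30] 100000 140000 73332 33331 0 0 166667 166667 0 0 40000))) (.E 2))) (.L 1 1 [9, 11, 13,
    15, 15] [68, 64, 60, 50, 40, 30] [68, 64, 60, 50, 40, 30] 100000 40000 40000 800000 0 0 100000
    0 0 80000 40000))) (.E 2))) (.L 1 1 [9, 11, 13, 15, 15] [68, 64, 60, 50, 40, 30] [82, 80, 76,
    72, 62, 52] 100000 111111 0 2 0 0 211111 81481 0 0 29630))) (.E 1)) (.E 1))

lemma s19_20_4_4_6 : BlkD.treeX d19_20_4_4 (BlkD.exF 4 4 x19_20_4_4) t19_20_4_4_6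
    (BlkD.upd (BlkD.upd (fun _ => 0) 0 1) 1 5)
    (BlkD.upd (BlkD.upd (BlkD.upd (BlkD.upd (BlkD.upd (BlkD.upd (BlkD.upd (BlkD.upd (BlkD.upd (BlkD.upd (BlkD.upd (fun _ => 20) 0 4) 2 4) 0 2) 0 1) 1 19) 1 9) 1 7) 1 6) 1 5) 2 2) 2 1) = true := by
  decide +kernel

lemma n19_20_4_4_6 {n : ℕ} (hn : 6 ≤ n) : BlkD.NdX d19_20_4_4 (BlkD.exF 4 4 x19_20_4_4) n
    (BlkD.upd (BlkD.upd (fun _ => 0) 0 1) 1 5)
    (BlkD.upd (BlkD.upd (BlkD.upd (BlkD.upd (BlkD.upd (BlkD.upd (BlkD.upd (BlkD.upd (BlkD.upd (BlkD.upd (BlkD.upd (fun _ => 20) 0 4) 2 4) 0 2) 0 1) 1 19) 1 9) 1 7) 1 6) 1 5) 2 2) 2 1) :=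
  BlkD.NdX.tree s19_20_4_4_6 ok19_20_4_4 (by decide) hn

/-- a subtree -/
def t19_20_4_4_7 : BlkD.Tr :=
  .S 3 12 (.S 3 6 (.S 3 3 (.S 3 1 (.L 1 1 [9, 11, 13, 15, 15] [68, 64, 60, 50, 40, 30] [] 100000
    25000 24999 900000 0 0 16667 0 33333 0 33333) (.S 3 2 (.S 4 5 (.S 4 2 (.L 5 5 [4, 4, 4, 5, 5]
    [50, 40, 30, 0, 0, 0] [30, 20, 10, 0, 0, 0] 100000 24351 24351 945454 18182 0 18182 18182 54545
    2597 27273) (.L 5 5 [4, 4, 4, 5, 5] [68, 64, 60, 50, 40, 30] [30, 20, 10, 0, 0, 0] 100000 25000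
    24999 966667 0 0 33333 0 33333 0 33333)) (.E 2)) (.S 4 5 (.S 4 2 (.S 4 1 (.L 5 5 [4, 4, 4, 5,
    5] [40, 30, 0, 0, 0, 0] [48, 38, 28, 18, 0, 0] 100000 38000 38000 908000 64000 0 0 32000 80000
    48000 40000) (.S 5 3 (.S 5 1 (.L 5 5 [4, 4, 4, 5, 5] [50, 40, 30, 0, 0, 0] [28, 18, 0, 0, 0, 0]
    100000 50000 50000 800000 75000 0 75000 0 0 50000 25000) (.L 5 5 [4, 4, 4, 5, 5] [50, 40, 30,
    0, 0, 0] [48, 38, 28, 18, 0, 0] 100000 30000 30000 940000 0 0 0 80000 80000 0 40000)) (.E 2)))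
    (.S 4 4 (.S 4 3 (.S 5 3 (.S 5 1 (.L 5 5 [4, 4, 4, 5, 5] [60, 50, 40, 30, 0, 0] [28, 18, 0, 0,
    0, 0] 100000 38462 38462 869232 53846 0 61538 0 0 61538 23077) (.S 5 2 (.L 5 5 [4, 4, 4, 5, 5]
    [60, 50, 40, 30, 0, 0] [38, 28, 18, 0, 0, 0] 100000 30000 30000 940000 0 0 80000 0 0 80000
    40000) (.L 5 5 [4, 4, 4, 5, 5] [60, 50, 40, 30, 0, 0] [48, 38, 28, 18, 0, 0] 100000 30000 30000
    940000 0 0 0 80000 80000 0 40000))) (.E 2)) (.S 5 3 (.S 5 1 (.L 5 5 [4, 4, 4, 5, 5] [64, 60,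
    50, 40, 30, 0] [28, 18, 0, 0, 0, 0] 100000 40000 40000 800000 0 0 100000 0 0 80000 40000) (.L 5
    5 [4, 4, 4, 5, 5] [64, 60, 50, 40, 30, 0] [48, 38, 28, 18, 0, 0] 100000 67857 67856 750001 0 0
    100000 50000 0 7143 28571)) (.E 2))) (.L 5 5 [4, 4, 4, 5, 5] [68, 64, 60, 50, 40, 30] [48, 38,
    28, 18, 0, 0] 100000 61310 61310 700002 0 0 100000 33333 0 9524 21429))) (.E 2)))) (.S 3 5 (.S
    3 4 (.S 4 5 (.S 4 2 (.S 4 1 (.L 2 2 [6, 7, 9, 10, 11] [40, 30, 0, 0, 0, 0] [62, 58, 48, 38, 28,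
    0] 100000 66667 66667 726668 100000 0 40000 33333 40000 46667 40000) (.S 5 4 (.S 5 2 (.L 2 2
    [6, 7, 9, 10, 11] [50, 40, 30, 0, 0, 0] [48, 38, 28, 0, 0, 0] 100000 58334 58334 804166 87500 0
    66667 0 0 50000 25000) (.L 2 2 [6, 7, 9, 10, 11] [50, 40, 30, 0, 0, 0] [62, 58, 48, 38, 28, 0]
    100000 125000 125000 400000 100000 0 100000 100000 0 0 0)) (.E 2))) (.S 4 4 (.S 4 3 (.S 5 4 (.S
    5 2 (.L 3 3 [4, 5, 6, 7, 8] [60, 50, 40, 30, 0, 0] [48, 38, 28, 0, 0, 0] 100000 62500 62499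
    766666 66667 0 100000 0 0 83333 16667) (.S 5 3 (.E 9) (.E 9))) (.E 2)) (.S 5 4 (.S 5 2 (.L 3 3
    [4, 5, 6, 7, 8] [64, 60, 50, 40, 30, 0] [48, 38, 28, 0, 0, 0] 100000 40000 40000 800000 0 0
    100000 0 0 80000 40000) (.S 5 3 (.E 9) (.L 3 3 [4, 5, 6, 7, 8] [64, 60, 50, 40, 30, 0] [62, 58,
    48, 38, 28, 0] 100000 90000 90000 600000 0 0 100000 100000 0 0 40000))) (.E 2))) (.L 3 3 [4, 5,
    6, 7, 8] [68, 64, 60, 50, 40, 30] [62, 58, 48, 38, 28, 0] 100000 40000 40000 800000 0 0 100000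
    0 0 80000 40000))) (.E 2)) (.L 3 3 [4, 5, 6, 7, 8] [68, 64, 60, 50, 40, 30] [78, 74, 70, 60,
    50, 40] 100000 109091 0 1 0 0 209091 63636 0 0 0)) (.E 1))) (.E 1)) (.E 1)

lemma s19_20_4_4_7 : BlkD.treeX d19_20_4_4 (BlkD.exF 4 4 x19_20_4_4) t19_20_4_4_7
    (BlkD.upd (BlkD.upd (BlkD.upd (fun _ => 0) 0 1) 1 5) 2 2)
    (BlkD.upd (BlkD.upd (BlkD.upd (BlkD.upd (BlkD.upd (BlkD.upd (BlkD.upd (BlkD.upd (BlkD.upd (BlkD.upd (fun _ => 20) 0 4) 2 4) 0 2) 0 1) 1 19) 1 9) 1 7) 1 6) 1 5) 2 2) = true := by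
  decide +kernel

lemma n19_20_4_4_7 {n : ℕ} (hn : 6 ≤ n) : BlkD.NdX d19_20_4_4 (BlkD.exF 4 4 x19_20_4_4) n
    (BlkD.upd (BlkD.upd (BlkD.upd (fun _ => 0) 0 1) 1 5) 2 2)
    (BlkD.upd (BlkD.upd (BlkD.upd (BlkD.upd (BlkD.upd (BlkD.upd (BlkD.upd (BlkD.upd (BlkD.upd (BlkD.upd (fun _ => 20) 0 4) 2 4) 0 2) 0 1) 1 19) 1 9) 1 7) 1 6) 1 5) 2 2) :=
  BlkD.NdX.tree s19_20_4_4_7 ok19_20_4_4 (by decide) hn

/-- a subtree -/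
def t19_20_4_4_8 : BlkD.Tr :=
  .S 2 3 (.S 3 11 (.S 3 5 (.S 3 2 (.S 3 1 (.L 3 3 [4, 5, 6, 7, 8] [68, 64, 60, 50, 40, 30] []
    100000 18750 18750 1000000 0 0 25000 25000 50000 25000 25000) (.S 4 5 (.S 4 2 (.L 2 2 [6, 7, 9,
    10, 11] [50, 40, 30, 0, 0, 0] [34, 24, 14, 0, 0, 0] 100000 39286 39286 871428 57143 0 57143 0 0
    57143 28571) (.L 2 2 [6, 7, 9, 10, 11] [68, 64, 60, 50, 40, 30] [34, 24, 14, 0, 0, 0] 100000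
    30000 30000 940000 0 0 80000 0 0 80000 40000)) (.E 2))) (.S 3 4 (.S 3 3 (.S 4 5 (.S 4 2 (.L 3 3
    [4, 5, 6, 7, 8] [50, 40, 30, 0, 0, 0] [54, 44, 34, 24, 0, 0] 100000 62500 62500 775000 100000 0
    62500 0 0 50000 25000) (.S 4 4 (.S 4 3 (.L 3 3 [4, 5, 6, 7, 8] [60, 50, 40, 30, 0, 0] [54, 44,
    34, 24, 0, 0] 100000 62500 62499 766666 66667 0 100000 0 0 83333 16667) (.L 3 3 [4, 5, 6, 7, 8]
    [64, 60, 50, 40, 30, 0] [54, 44, 34, 24, 0, 0] 100000 40000 40000 800000 0 0 100000 0 0 80000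
    40000)) (.L 3 3 [4, 5, 6, 7, 8] [68, 64, 60, 50, 40, 30] [54, 44, 34, 24, 0, 0] 100000 83334 1
    250001 0 4167 183333 29167 0 0 12500))) (.E 2)) (.E 1)) (.E 1))) (.E 1)) (.E 1)) (.S 3 10 (.S 3
    5 (.S 3 2 (.S 3 1 (.L 3 3 [4, 5, 6, 7, 8] [68, 64, 60, 50, 40, 30] [] 100000 11539 11539
    1023077 16923 0 26154 0 53846 80000 40000) (.S 4 5 (.S 4 2 (.L 3 3 [4, 5, 6, 7, 8] [50, 40, 30,
    0, 0, 0] [38, 28, 18, 0, 0, 0] 100000 62500 62500 775000 100000 0 62500 0 12500 37500 25000)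
    (.S 4 4 (.L 7 7 [4, 5, 6, 3, 4] [64, 60, 50, 40, 30, 0] [38, 28, 18, 0, 0, 0] 100000 64286
    64286 757142 71429 0 100000 0 0 85714 14286) (.L 7 7 [4, 5, 6, 3, 4] [68, 64, 60, 50, 40, 30]
    [38, 28, 18, 0, 0, 0] 100000 82144 1 260714 0 0 182143 28571 0 0 10714))) (.E 2))) (.E 1)) (.E
    1)) (.E 1))

lemma s19_20_4_4_8 : BlkD.treeX d19_20_4_4 (BlkD.exF 4 4 x19_20_4_4) t19_20_4_4_8
    (BlkD.upd (BlkD.upd (BlkD.upd (fun _ => 0) 0 1) 1 5) 2 3)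
    (BlkD.upd (BlkD.upd (BlkD.upd (BlkD.upd (BlkD.upd (BlkD.upd (BlkD.upd (BlkD.upd (BlkD.upd (fun _ => 20) 0 4) 2 4) 0 2) 0 1) 1 19) 1 9) 1 7) 1 6) 1 5) = true := by
  decide +kernel

lemma n19_20_4_4_8 {n : ℕ} (hn : 6 ≤ n) : BlkD.NdX d19_20_4_4 (BlkD.exF 4 4 x19_20_4_4) n
    (BlkD.upd (BlkD.upd (BlkD.upd (fun _ => 0) 0 1) 1 5) 2 3)
    (BlkD.upd (BlkD.upd (BlkD.upd (BlkD.upd (BlkD.upd (BlkD.upd (BlkD.upd (BlkD.upd (BlkD.upd (fun _ => 20) 0 4) 2 4) 0 2) 0 1) 1 19) 1 9) 1 7) 1 6) 1 5) :=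
  BlkD.NdX.tree s19_20_4_4_8 ok19_20_4_4 (by decide) hn

/-- a subtree -/
def t19_20_4_4_9 : BlkD.Tr :=
  .S 2 1 (.S 2 0 (.L 7 7 [4, 5, 6, 3, 4] [82, 80, 76, 72, 62, 52] [] 100000 59375 59375 650000 0 0
    25000 100000 0 0 12500) (.S 3 12 (.S 3 6 (.S 3 3 (.S 3 1 (.L 7 7 [4, 5, 6, 3, 4] [82, 80, 76,
    72, 62, 52] [] 100000 54167 54167 700000 0 0 100000 0 0 0 16667) (.S 3 2 (.L 7 7 [4, 5, 6, 3,
    4] [82, 80, 76, 72, 62, 52] [26, 16, 6, 0, 0, 0] 100000 31818 31818 890910 0 0 54545 0 36364 0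
    18182) (.S 4 6 (.S 4 3 (.E 2) (.S 4 5 (.S 4 4 (.S 5 3 (.S 5 1 (.S 5 0 (.L 7 7 [4, 5, 6, 3, 4]
    [76, 72, 62, 52, 42, 0] [12, 0, 0, 0, 0, 0] 100000 80000 80000 640000 0 100000 80000 0 0 80000
    40000) (.E 9)) (.L 7 7 [4, 5, 6, 3, 4] [76, 72, 62, 52, 42, 0] [42, 32, 22, 12, 0, 0] 100000
    30000 30000 940000 0 0 0 80000 80000 0 40000)) (.E 2)) (.L 7 7 [4, 5, 6, 3, 4] [80, 76, 72, 62,
    52, 42] [42, 32, 22, 12, 0, 0] 100000 54167 54167 800000 0 0 100000 0 0 0 16667)) (.L 7 7 [4,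
    5, 6, 3, 4] [82, 80, 76, 72, 62, 52] [42, 32, 22, 12, 0, 0] 100000 60000 36667 606668 0 0
    123333 0 0 0 16667))) (.E 2)))) (.S 3 5 (.S 3 4 (.S 4 6 (.S 4 3 (.E 2) (.S 4 5 (.S 4 4 (.S 5 4
    (.S 5 2 (.S 5 1 (.L 7 7 [4, 5, 6, 3, 4] [76, 72, 62, 52, 42, 0] [30, 20, 0, 0, 0, 0] 100000
    90000 90000 600000 0 100000 100000 0 0 80000 40000) (.E 9)) (.S 5 3 (.E 9) (.L 7 7 [4, 5, 6, 3,
    4] [76, 72, 62, 52, 42, 0] [54, 50, 40, 30, 20, 0] 100000 40000 40000 800000 0 0 0 100000 80000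
    0 40000))) (.E 2)) (.S 5 4 (.S 5 2 (.S 5 1 (.L 7 7 [4, 5, 6, 3, 4] [80, 76, 72, 62, 52, 42]
    [30, 20, 0, 0, 0, 0] 100000 40000 40000 800000 0 0 100000 0 0 80000 40000) (.E 9)) (.L 7 7 [4,
    5, 6, 3, 4] [80, 76, 72, 62, 52, 42] [54, 50, 40, 30, 20, 0] 100000 90000 90000 600000 0 0
    100000 100000 0 0 40000)) (.E 2))) (.L 7 7 [4, 5, 6, 3, 4] [82, 80, 76, 72, 62, 52] [54, 50,
    40, 30, 20, 0] 100000 40000 40000 800000 0 0 100000 0 0 80000 40000))) (.E 2)) (.L 7 7 [4, 5,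
    6, 3, 4] [82, 80, 76, 72, 62, 52] [68, 64, 60, 50, 40, 30] 100000 111111 0 2 0 0 81481 211111 0
    0 29630)) (.E 2))) (.E 1)) (.E 1))) (.S 3 11 (.S 3 5 (.S 3 2 (.S 3 1 (.L 7 7 [4, 5, 6, 3, 4]
    [82, 80, 76, 72, 62, 52] [] 100000 31818 31818 890910 0 0 54545 0 36364 0 18182) (.S 4 6 (.S 4
    3 (.E 2) (.S 4 5 (.S 4 4 (.S 5 2 (.S 5 1 (.L 7 7 [4, 5, 6, 3, 4] [76, 72, 62, 52, 42, 0] [20,
    10, 0, 0, 0, 0] 100000 30000 30000 940000 0 0 80000 0 0 80000 40000) (.L 7 7 [4, 5, 6, 3, 4]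
    [76, 72, 62, 52, 42, 0] [30, 20, 10, 0, 0, 0] 100000 30000 30000 940000 0 0 0 80000 80000 0
    40000)) (.E 2)) (.L 7 7 [4, 5, 6, 3, 4] [80, 76, 72, 62, 52, 42] [30, 20, 10, 0, 0, 0] 100000
    54167 54167 800000 0 0 100000 0 0 0 16667)) (.L 7 7 [4, 5, 6, 3, 4] [82, 80, 76, 72, 62, 52]
    [30, 20, 10, 0, 0, 0] 100000 60000 36667 606668 0 0 123333 0 0 0 16667))) (.E 2))) (.S 3 4 (.S
    3 3 (.S 4 6 (.S 4 3 (.E 2) (.S 4 5 (.S 4 4 (.S 5 3 (.S 5 1 (.L 5 5 [4, 4, 4, 5, 5] [76, 72, 62,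
    52, 42, 0] [28, 18, 0, 0, 0, 0] 100000 68750 68750 700000 100000 0 100000 0 0 50000 25000) (.S
    5 2 (.E 9) (.L 5 5 [4, 4, 4, 5, 5] [76, 72, 62, 52, 42, 0] [48, 38, 28, 18, 0, 0] 100000 70000
    70000 740000 40000 0 40000 100000 40000 0 40000))) (.E 2)) (.L 5 5 [4, 4, 4, 5, 5] [80, 76, 72,
    62, 52, 42] [48, 38, 28, 18, 0, 0] 100000 65000 65000 750000 0 0 100000 50000 0 30000 40000))
    (.L 5 5 [4, 4, 4, 5, 5] [82, 80, 76, 72, 62, 52] [48, 38, 28, 18, 0, 0] 100000 77500 52500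
    512500 0 0 125000 62500 0 17500 40000))) (.E 2)) (.E 2)) (.E 2))) (.E 1)) (.E 1))

lemma s19_20_4_4_9 : BlkD.treeX d19_20_4_4 (BlkD.exF 4 4 x19_20_4_4) t19_20_4_4_9
    (BlkD.upd (BlkD.upd (BlkD.upd (fun _ => 0) 0 1) 1 5) 1 6)
    (BlkD.upd (BlkD.upd (BlkD.upd (BlkD.upd (BlkD.upd (BlkD.upd (BlkD.upd (BlkD.upd (BlkD.upd (fun _ => 20) 0 4) 2 4) 0 2) 0 1) 1 19) 1 9) 1 7) 1 6) 2 2) = true := by
  decide +kernel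

lemma n19_20_4_4_9 {n : ℕ} (hn : 6 ≤ n) : BlkD.NdX d19_20_4_4 (BlkD.exF 4 4 x19_20_4_4) n
    (BlkD.upd (BlkD.upd (BlkD.upd (fun _ => 0) 0 1) 1 5) 1 6)
    (BlkD.upd (BlkD.upd (BlkD.upd (BlkD.upd (BlkD.upd (BlkD.upd (BlkD.upd (BlkD.upd (BlkD.upd (fun _ => 20) 0 4) 2 4) 0 2) 0 1) 1 19) 1 9) 1 7) 1 6) 2 2) :=
  BlkD.NdX.tree s19_20_4_4_9 ok19_20_4_4 (by decide) hn

/-- a subtree -/
def t19_20_4_4_10 : BlkD.Tr :=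
  .S 2 3 (.S 3 10 (.S 3 5 (.S 3 2 (.S 3 1 (.L 5 5 [4, 4, 4, 5, 5] [82, 80, 76, 72, 62, 52] []
    100000 30000 30000 940000 0 0 80000 0 0 80000 40000) (.S 4 6 (.S 4 3 (.E 2) (.S 4 5 (.L 2 2 [6,
    7, 9, 10, 11] [80, 76, 72, 62, 52, 42] [34, 24, 14, 0, 0, 0] 100000 62500 62499 766666 66667 0
    100000 0 0 83333 16667) (.L 2 2 [6, 7, 9, 10, 11] [82, 80, 76, 72, 62, 52] [34, 24, 14, 0, 0,
    0] 100000 111111 0 1 0 69841 211111 74603 0 26984 15873))) (.E 2))) (.E 2)) (.E 1)) (.E 1)) (.L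
    2 2 [6, 7, 9, 10, 11] [82, 80, 76, 72, 62, 52] [] 100000 40000 40000 800000 0 0 100000 0 0
    80000 40000)

lemma s19_20_4_4_10 : BlkD.treeX d19_20_4_4 (BlkD.exF 4 4 x19_20_4_4) t19_20_4_4_10
    (BlkD.upd (BlkD.upd (BlkD.upd (BlkD.upd (fun _ => 0) 0 1) 1 5) 1 6) 2 3)
    (BlkD.upd (BlkD.upd (BlkD.upd (BlkD.upd (BlkD.upd (BlkD.upd (BlkD.upd (BlkD.upd (fun _ => 20) 0 4) 2 4) 0 2) 0 1) 1 19) 1 9) 1 7) 1 6) = true := by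
  decide +kernel

lemma n19_20_4_4_10 {n : ℕ} (hn : 6 ≤ n) : BlkD.NdX d19_20_4_4 (BlkD.exF 4 4 x19_20_4_4) n
    (BlkD.upd (BlkD.upd (BlkD.upd (BlkD.upd (fun _ => 0) 0 1) 1 5) 1 6) 2 3)
    (BlkD.upd (BlkD.upd (BlkD.upd (BlkD.upd (BlkD.upd (BlkD.upd (BlkD.upd (BlkD.upd (fun _ => 20) 0 4) 2 4) 0 2) 0 1) 1 19) 1 9) 1 7) 1 6) :=
  BlkD.NdX.tree s19_20_4_4_10 ok19_20_4_4 (by decide) hn

/-- a subtree -/
def t19_20_4_4_11 : BlkD.Tr :=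
  .E 0

lemma s19_20_4_4_11 : BlkD.treeX d19_20_4_4 (BlkD.exF 4 4 x19_20_4_4) t19_20_4_4_11
    (BlkD.upd (BlkD.upd (BlkD.upd (fun _ => 0) 0 1) 1 5) 1 7)
    (BlkD.upd (BlkD.upd (BlkD.upd (BlkD.upd (BlkD.upd (BlkD.upd (BlkD.upd (fun _ => 20) 0 4) 2 4) 0 2) 0 1) 1 19) 1 9) 1 7) = true := by
  decide +kernel

lemma n19_20_4_4_11 {n : ℕ} (hn : 6 ≤ n) : BlkD.NdX d19_20_4_4 (BlkD.exF 4 4 x19_20_4_4) n
    (BlkD.upd (BlkD.upd (BlkD.upd (fun _ => 0) 0 1) 1 5) 1 7)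
    (BlkD.upd (BlkD.upd (BlkD.upd (BlkD.upd (BlkD.upd (BlkD.upd (BlkD.upd (fun _ => 20) 0 4) 2 4) 0 2) 0 1) 1 19) 1 9) 1 7) :=
  BlkD.NdX.tree s19_20_4_4_11 ok19_20_4_4 (by decide) hn

/-- a subtree -/
def t19_20_4_4_12 : BlkD.Tr :=
  .E 0

lemma s19_20_4_4_12 : BlkD.treeX d19_20_4_4 (BlkD.exF 4 4 x19_20_4_4) t19_20_4_4_12
    (BlkD.upd (BlkD.upd (BlkD.upd (fun _ => 0) 0 1) 1 5) 1 8)
    (BlkD.upd (BlkD.upd (BlkD.upd (BlkD.upd (BlkD.upd (BlkD.upd (fun _ => 20) 0 4) 2 4) 0 2) 0 1) 1 19) 1 9) = true := by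
  decide +kernel

lemma n19_20_4_4_12 {n : ℕ} (hn : 6 ≤ n) : BlkD.NdX d19_20_4_4 (BlkD.exF 4 4 x19_20_4_4) n
    (BlkD.upd (BlkD.upd (BlkD.upd (fun _ => 0) 0 1) 1 5) 1 8)
    (BlkD.upd (BlkD.upd (BlkD.upd (BlkD.upd (BlkD.upd (BlkD.upd (fun _ => 20) 0 4) 2 4) 0 2) 0 1) 1 19) 1 9) :=
  BlkD.NdX.tree s19_20_4_4_12 ok19_20_4_4 (by decide) hn

/-- a subtree -/
def t19_20_4_4_13 : BlkD.Tr :=
  .E 0

lemma s19_20_4_4_13 : BlkD.treeX d19_20_4_4 (BlkD.exF 4 4 x19_20_4_4) t19_20_4_4_13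
    (BlkD.upd (BlkD.upd (fun _ => 0) 0 1) 1 10)
    (BlkD.upd (BlkD.upd (BlkD.upd (BlkD.upd (BlkD.upd (fun _ => 20) 0 4) 2 4) 0 2) 0 1) 1 19) = true := by
  decide +kernel

lemma n19_20_4_4_13 {n : ℕ} (hn : 6 ≤ n) : BlkD.NdX d19_20_4_4 (BlkD.exF 4 4 x19_20_4_4) n
    (BlkD.upd (BlkD.upd (fun _ => 0) 0 1) 1 10)
    (BlkD.upd (BlkD.upd (BlkD.upd (BlkD.upd (BlkD.upd (fun _ => 20) 0 4) 2 4) 0 2) 0 1) 1 19) :=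
  BlkD.NdX.tree s19_20_4_4_13 ok19_20_4_4 (by decide) hn

/-- a subtree -/
def t19_20_4_4_14 : BlkD.Tr :=
  .E 0

lemma s19_20_4_4_14 : BlkD.treeX d19_20_4_4 (BlkD.exF 4 4 x19_20_4_4) t19_20_4_4_14
    (BlkD.upd (BlkD.upd (fun _ => 0) 0 1) 1 20)
    (BlkD.upd (BlkD.upd (BlkD.upd (BlkD.upd (fun _ => 20) 0 4) 2 4) 0 2) 0 1) = true := by
  decide +kernel

lemma n19_20_4_4_14 {n : ℕ} (hn : 6 ≤ n) : BlkD.NdX d19_20_4_4 (BlkD.exF 4 4 x19_20_4_4) n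
    (BlkD.upd (BlkD.upd (fun _ => 0) 0 1) 1 20)
    (BlkD.upd (BlkD.upd (BlkD.upd (BlkD.upd (fun _ => 20) 0 4) 2 4) 0 2) 0 1) :=
  BlkD.NdX.tree s19_20_4_4_14 ok19_20_4_4 (by decide) hn

/-- a subtree -/
def t19_20_4_4_15 : BlkD.Tr :=
  .S 1 1 (.L 2 2 [6, 7, 9, 10, 11] [] [] 100000 31945 31945 900000 0 0 0 50000 0 22222 27778) (.S 2
    2 (.S 2 1 (.S 2 0 (.L 2 2 [6, 7, 9, 10, 11] [30, 20, 10, 0, 0, 0] [] 100000 55555 55555 600000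
    0 0 0 100000 0 0 15556) (.S 3 15 (.S 3 7 (.S 3 3 (.L 2 2 [6, 7, 9, 10, 11] [30, 20, 10, 0, 0,
    0] [] 100000 40000 40000 800000 0 0 0 0 0 0 40000) (.S 3 5 (.S 3 4 (.L 2 2 [6, 7, 9, 10, 11]
    [30, 20, 10, 0, 0, 0] [54, 50, 40, 30, 20, 0] 100000 35228 35228 903100 0 2686 15702 30992 2686
    8471 39463) (.S 4 2 (.S 4 1 (.L 2 2 [6, 7, 9, 10, 11] [20, 10, 0, 0, 0, 0] [68, 64, 60, 50, 40,
    30] 100000 19375 19375 1000000 0 7500 7500 30000 30000 45000 25000) (.L 2 2 [6, 7, 9, 10, 11]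
    [30, 20, 10, 0, 0, 0] [68, 64, 60, 50, 40, 30] 100000 31250 31250 900000 0 0 50000 25000 0
    50000 25000)) (.E 2))) (.S 3 6 (.S 4 2 (.S 4 1 (.L 2 2 [6, 7, 9, 10, 11] [20, 10, 0, 0, 0, 0]
    [82, 80, 76, 72, 62, 52] 100000 30000 30000 940000 0 0 0 80000 80000 0 40000) (.L 2 2 [6, 7, 9,
    10, 11] [30, 20, 10, 0, 0, 0] [82, 80, 76, 72, 62, 52] 100000 30000 30000 940000 0 0 80000 0 0
    80000 40000)) (.E 2)) (.E 1)))) (.E 1)) (.E 1))) (.S 3 14 (.S 3 7 (.S 3 3 (.L 2 2 [6, 7, 9, 10,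
    11] [30, 20, 10, 0, 0, 0] [] 100000 33750 33750 912500 0 0 17500 30000 2500 10000 40000) (.S 3
    5 (.S 3 4 (.S 4 2 (.S 4 1 (.L 5 5 [4, 4, 4, 5, 5] [20, 10, 0, 0, 0, 0] [62, 58, 48, 38, 28, 0]
    100000 18750 18750 1000000 12500 0 12500 25000 25000 50000 25000) (.L 5 5 [4, 4, 4, 5, 5] [30,
    20, 10, 0, 0, 0] [62, 58, 48, 38, 28, 0] 100000 31250 31250 900000 0 0 50000 25000 0 50000
    25000)) (.E 2)) (.L 5 5 [4, 4, 4, 5, 5] [30, 20, 10, 0, 0, 0] [78, 74, 70, 60, 50, 40] 100000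
    54167 54167 800000 0 0 0 100000 0 0 16667)) (.E 1))) (.E 1)) (.E 1))) (.L 5 5 [4, 4, 4, 5, 5]
    [30, 20, 10, 0, 0, 0] [] 100000 24138 24138 970690 14655 0 26724 16379 3448 57759 25862))

lemma s19_20_4_4_15 : BlkD.treeX d19_20_4_4 (BlkD.exF 4 4 x19_20_4_4) t19_20_4_4_15
    (BlkD.upd (fun _ => 0) 0 2)
    (BlkD.upd (BlkD.upd (BlkD.upd (BlkD.upd (BlkD.upd (BlkD.upd (BlkD.upd (fun _ => 20) 0 4) 2 4) 0 2) 1 18) 1 9) 1 4) 1 2) = true := by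
  decide +kernel

lemma n19_20_4_4_15 {n : ℕ} (hn : 6 ≤ n) : BlkD.NdX d19_20_4_4 (BlkD.exF 4 4 x19_20_4_4) n
    (BlkD.upd (fun _ => 0) 0 2)
    (BlkD.upd (BlkD.upd (BlkD.upd (BlkD.upd (BlkD.upd (BlkD.upd (BlkD.upd (fun _ => 20) 0 4) 2 4) 0 2) 1 18) 1 9) 1 4) 1 2) :=
  BlkD.NdX.tree s19_20_4_4_15 ok19_20_4_4 (by decide) hn

/-- a subtree -/
def t19_20_4_4_16 : BlkD.Tr :=
  .S 2 0 (.L 5 5 [4, 4, 4, 5, 5] [48, 38, 28, 18, 0, 0] [] 100000 62500 62500 600001 0 0 33333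
    100000 0 0 16667) (.S 3 14 (.S 3 7 (.S 3 3 (.L 5 5 [4, 4, 4, 5, 5] [48, 38, 28, 18, 0, 0] []
    100000 41667 41667 866666 0 16667 16667 16667 0 0 33333) (.S 3 5 (.S 3 4 (.S 4 3 (.S 4 1 (.L 5
    5 [4, 4, 4, 5, 5] [28, 18, 0, 0, 0, 0] [54, 50, 40, 30, 20, 0] 100000 58334 58334 799999 0
    66667 0 66667 66667 0 33333) (.S 4 2 (.S 5 4 (.S 5 2 (.L 5 5 [4, 4, 4, 5, 5] [38, 28, 18, 0, 0,
    0] [40, 30, 20, 0, 0, 0] 100000 25000 25000 966667 0 0 33333 33333 33333 33333 33333) (.L 5 5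
    [4, 4, 4, 5, 5] [38, 28, 18, 0, 0, 0] [54, 50, 40, 30, 20, 0] 100000 28572 28572 857142 0 0 0
    71429 57143 0 28571)) (.E 2)) (.S 5 4 (.S 5 2 (.L 5 5 [4, 4, 4, 5, 5] [48, 38, 28, 18, 0, 0]
    [40, 30, 20, 0, 0, 0] 100000 25000 24999 933333 0 0 66667 0 0 66667 33333) (.L 5 5 [4, 4, 4, 5,
    5] [48, 38, 28, 18, 0, 0] [54, 50, 40, 30, 20, 0] 100000 58334 58334 733332 0 0 66667 66667 0 0
    33333)) (.E 2)))) (.E 2)) (.S 4 3 (.S 4 1 (.S 4 0 (.L 5 5 [4, 4, 4, 5, 5] [18, 0, 0, 0, 0, 0]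
    [68, 64, 60, 50, 40, 30] 100000 11539 11539 1023077 0 16923 0 26154 80000 53846 40000) (.S 5 5
    (.S 5 2 (.L 5 5 [4, 4, 4, 5, 5] [28, 18, 0, 0, 0, 0] [50, 40, 30, 0, 0, 0] 100000 50000 50000
    800000 0 75000 0 75000 50000 0 25000) (.L 5 5 [4, 4, 4, 5, 5] [28, 18, 0, 0, 0, 0] [68, 64, 60,
    50, 40, 30] 100000 30000 30000 940000 0 0 0 80000 80000 0 40000)) (.E 2))) (.S 4 2 (.S 5 5 (.S
    5 2 (.L 5 5 [4, 4, 4, 5, 5] [38, 28, 18, 0, 0, 0] [50, 40, 30, 0, 0, 0] 100000 30000 30000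
    940000 0 0 80000 0 0 80000 40000) (.L 5 5 [4, 4, 4, 5, 5] [38, 28, 18, 0, 0, 0] [68, 64, 60,
    50, 40, 30] 100000 30000 30000 940000 0 0 0 80000 80000 0 40000)) (.E 2)) (.L 5 5 [4, 4, 4, 5,
    5] [48, 38, 28, 18, 0, 0] [68, 64, 60, 50, 40, 30] 100000 30000 30000 940000 0 0 80000 0 0
    80000 40000))) (.E 2))) (.S 3 6 (.S 4 3 (.S 4 1 (.L 5 5 [4, 4, 4, 5, 5] [28, 18, 0, 0, 0, 0]
    [82, 80, 76, 72, 62, 52] 100000 75000 75000 700000 0 100000 0 100000 100000 0 0) (.S 4 2 (.S 5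
    6 (.S 5 3 (.E 2) (.S 5 5 (.S 5 4 (.E 9) (.L 5 5 [4, 4, 4, 5, 5] [38, 28, 18, 0, 0, 0] [80, 76,
    72, 62, 52, 42] 100000 40000 40000 800000 0 0 0 100000 80000 0 40000)) (.L 5 5 [4, 4, 4, 5, 5]
    [38, 28, 18, 0, 0, 0] [82, 80, 76, 72, 62, 52] 100000 111111 0 1 0 0 72222 211111 0 0 11111)))
    (.E 2)) (.S 5 6 (.S 5 3 (.E 2) (.S 5 5 (.S 5 4 (.L 5 5 [4, 4, 4, 5, 5] [48, 38, 28, 18, 0, 0]
    [76, 72, 62, 52, 42, 0] 100000 70000 70000 740000 0 40000 100000 40000 0 40000 40000) (.L 5 5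
    [4, 4, 4, 5, 5] [48, 38, 28, 18, 0, 0] [80, 76, 72, 62, 52, 42] 100000 90000 90000 600000 0 0
    100000 100000 0 0 40000)) (.L 5 5 [4, 4, 4, 5, 5] [48, 38, 28, 18, 0, 0] [82, 80, 76, 72, 62,
    52] 100000 140000 73332 33331 0 0 166667 166667 0 0 40000))) (.E 2)))) (.E 2)) (.E 1)))) (.E
    1)) (.E 1))

lemma s19_20_4_4_16 : BlkD.treeX d19_20_4_4 (BlkD.exF 4 4 x19_20_4_4) t19_20_4_4_16
    (BlkD.upd (BlkD.upd (fun _ => 0) 0 2) 1 3)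
    (BlkD.upd (BlkD.upd (BlkD.upd (BlkD.upd (BlkD.upd (BlkD.upd (BlkD.upd (BlkD.upd (BlkD.upd (fun _ => 20) 0 4) 2 4) 0 2) 1 18) 1 9) 1 4) 1 3) 2 2) 2 1) = true := by
  decide +kernel

lemma n19_20_4_4_16 {n : ℕ} (hn : 6 ≤ n) : BlkD.NdX d19_20_4_4 (BlkD.exF 4 4 x19_20_4_4) n
    (BlkD.upd (BlkD.upd (fun _ => 0) 0 2) 1 3)
    (BlkD.upd (BlkD.upd (BlkD.upd (BlkD.upd (BlkD.upd (BlkD.upd (BlkD.upd (BlkD.upd (BlkD.upd (fun _ => 20) 0 4) 2 4) 0 2) 1 18) 1 9) 1 4) 1 3) 2 2) 2 1) :=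
  BlkD.NdX.tree s19_20_4_4_16 ok19_20_4_4 (by decide) hn

end BlkC

end Pool.Agent.Lib.MP_f04ccf_co
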