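import Pool.Agent.Lib.MP_f04ccf_co.M.BlkX19_20_4_4d

/-!
MP_f04ccf_co, block certificate with exceptions, `R = 19`, `H = 20`, the pair `(4, 4)` (data of helper99 / helper13,
generated by helper8, genx.py): part 2 of 2.
-/

set_option autoImplicit false
set_option maxRecDepth 100000

namespace Pool.Agent.Lib.MP_f04ccf_co

namespace BlkC

/-- a subtree -/
def t19_20_4_4_17 : BlkD.Tr :=
  .S 3 13 (.S 3 6 (.S 3 3 (.S 3 1 (.L 5 5 [4, 4, 4, 5, 5] [48, 38, 28, 18, 0, 0] [] 100000 40000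
    40000 800000 0 0 0 0 0 0 40000) (.S 3 2 (.L 5 5 [4, 4, 4, 5, 5] [48, 38, 28, 18, 0, 0] [30, 20,
    10, 0, 0, 0] 100000 34449 34449 907290 1414 707 30451 15334 8700 2828 39152) (.S 4 3 (.S 4 1
    (.S 4 0 (.L 5 5 [4, 4, 4, 5, 5] [18, 0, 0, 0, 0, 0] [48, 38, 28, 18, 0, 0] 100000 17074 17074
    965854 9756 7317 0 29268 63415 31707 26829) (.S 5 3 (.S 5 1 (.L 5 5 [4, 4, 4, 5, 5] [28, 18, 0,
    0, 0, 0] [28, 18, 0, 0, 0, 0] 100000 13235 13234 1023531 0 23529 0 23529 47059 47059 29412) (.L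
    5 5 [4, 4, 4, 5, 5] [28, 18, 0, 0, 0, 0] [48, 38, 28, 18, 0, 0] 100000 25000 24999 933333 0 0 0
    66667 66667 0 33333)) (.E 2))) (.S 4 2 (.S 5 3 (.S 5 1 (.L 5 5 [4, 4, 4, 5, 5] [38, 28, 18, 0,
    0, 0] [28, 18, 0, 0, 0, 0] 100000 25000 24999 933333 0 0 66667 0 0 66667 33333) (.L 5 5 [4, 4,
    4, 5, 5] [38, 28, 18, 0, 0, 0] [48, 38, 28, 18, 0, 0] 100000 25000 25000 933334 0 0 8333 58333
    58333 8333 33333)) (.E 2)) (.L 5 5 [4, 4, 4, 5, 5] [48, 38, 28, 18, 0, 0] [48, 38, 28, 18, 0,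
    0] 100000 50490 50489 835294 0 0 82353 27451 0 7843 17647))) (.E 2)))) (.S 3 5 (.S 3 4 (.S 4 3
    (.S 4 1 (.S 4 0 (.L 5 5 [4, 4, 4, 5, 5] [18, 0, 0, 0, 0, 0] [62, 58, 48, 38, 28, 0] 100000 6667
    6667 1046668 13333 0 0 13333 73333 73333 40000) (.S 5 4 (.S 5 2 (.S 5 1 (.S 5 0 (.E 2) (.E 9))
    (.E 9)) (.L 5 5 [4, 4, 4, 5, 5] [28, 18, 0, 0, 0, 0] [62, 58, 48, 38, 28, 0] 100000 30000 30000
    940000 0 0 0 80000 80000 0 40000)) (.E 2))) (.S 4 2 (.S 5 4 (.S 5 2 (.L 5 5 [4, 4, 4, 5, 5]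
    [38, 28, 18, 0, 0, 0] [48, 38, 28, 0, 0, 0] 100000 30000 30000 940000 0 0 80000 0 0 80000
    40000) (.L 5 5 [4, 4, 4, 5, 5] [38, 28, 18, 0, 0, 0] [62, 58, 48, 38, 28, 0] 100000 30000 30000
    940000 0 0 0 80000 80000 0 40000)) (.E 2)) (.L 5 5 [4, 4, 4, 5, 5] [48, 38, 28, 18, 0, 0] [62,
    58, 48, 38, 28, 0] 100000 30000 30000 940000 0 0 80000 0 0 80000 40000))) (.E 2)) (.L 5 5 [4,
    4, 4, 5, 5] [48, 38, 28, 18, 0, 0] [78, 74, 70, 60, 50, 40] 100000 65000 65000 750000 0 0 50000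
    100000 30000 0 40000)) (.E 1))) (.E 1)) (.E 1)

lemma s19_20_4_4_17 : BlkD.treeX d19_20_4_4 (BlkD.exF 4 4 x19_20_4_4) t19_20_4_4_17
    (BlkD.upd (BlkD.upd (BlkD.upd (fun _ => 0) 0 2) 1 3) 2 2)
    (BlkD.upd (BlkD.upd (BlkD.upd (BlkD.upd (BlkD.upd (BlkD.upd (BlkD.upd (BlkD.upd (fun _ => 20) 0 4) 2 4) 0 2) 1 18) 1 9) 1 4) 1 3) 2 2) = true := by
  decide +kernel

lemma n19_20_4_4_17 {n : ℕ} (hn : 6 ≤ n) : BlkD.NdX d19_20_4_4 (BlkD.exF 4 4 x19_20_4_4) n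
    (BlkD.upd (BlkD.upd (BlkD.upd (fun _ => 0) 0 2) 1 3) 2 2)
    (BlkD.upd (BlkD.upd (BlkD.upd (BlkD.upd (BlkD.upd (BlkD.upd (BlkD.upd (BlkD.upd (fun _ => 20) 0 4) 2 4) 0 2) 1 18) 1 9) 1 4) 1 3) 2 2) :=
  BlkD.NdX.tree s19_20_4_4_17 ok19_20_4_4 (by decide) hn

/-- a subtree -/
def t19_20_4_4_18 : BlkD.Tr :=
  .S 2 3 (.S 3 12 (.S 3 6 (.S 3 3 (.S 3 1 (.L 5 5 [4, 4, 4, 5, 5] [48, 38, 28, 18, 0, 0] [] 100000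
    23544 23544 940776 0 0 13592 13592 5825 27184 39806) (.S 3 2 (.S 4 3 (.S 4 1 (.S 4 0 (.L 5 5
    [4, 4, 4, 5, 5] [18, 0, 0, 0, 0, 0] [34, 24, 14, 0, 0, 0] 100000 15000 15000 973334 13333 0 0
    26667 53333 40000 33333) (.S 5 2 (.S 5 1 (.L 5 5 [4, 4, 4, 5, 5] [28, 18, 0, 0, 0, 0] [24, 14,
    0, 0, 0, 0] 100000 13462 13462 1023077 23077 0 23077 0 46154 46154 30769) (.L 5 5 [4, 4, 4, 5,
    5] [28, 18, 0, 0, 0, 0] [34, 24, 14, 0, 0, 0] 100000 25000 24999 933333 0 0 0 66667 66667 0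
    33333)) (.E 2))) (.L 5 5 [4, 4, 4, 5, 5] [48, 38, 28, 18, 0, 0] [34, 24, 14, 0, 0, 0] 100000
    25000 24999 933333 0 0 66667 0 0 66667 33333)) (.E 2)) (.S 4 3 (.S 4 1 (.S 4 0 (.L 5 5 [4, 4,
    4, 5, 5] [18, 0, 0, 0, 0, 0] [54, 44, 34, 24, 0, 0] 100000 5000 4999 1039999 6667 0 0 20000
    80000 80000 40000) (.S 5 3 (.S 5 1 (.E 2) (.S 5 2 (.E 9) (.L 5 5 [4, 4, 4, 5, 5] [28, 18, 0, 0,
    0, 0] [54, 44, 34, 24, 0, 0] 100000 30000 30000 940000 0 0 0 80000 80000 0 40000))) (.E 2)))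
    (.L 5 5 [4, 4, 4, 5, 5] [48, 38, 28, 18, 0, 0] [54, 44, 34, 24, 0, 0] 100000 30000 30000 940000
    0 0 80000 0 0 80000 40000)) (.E 2)))) (.E 1)) (.E 1)) (.E 1)) (.S 3 11 (.S 3 5 (.S 3 2 (.S 3 1
    (.L 5 5 [4, 4, 4, 5, 5] [48, 38, 28, 18, 0, 0] [] 100000 20715 20715 957143 14286 0 31429 14286
    17143 74286 25714) (.S 4 3 (.S 4 1 (.S 4 0 (.L 5 5 [4, 4, 4, 5, 5] [18, 0, 0, 0, 0, 0] [38, 28,
    18, 0, 0, 0] 100000 5000 5000 1040000 10000 0 0 15000 80000 80000 40000) (.S 5 2 (.S 5 1 (.E 2)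
    (.E 9)) (.E 2))) (.L 5 5 [4, 4, 4, 5, 5] [48, 38, 28, 18, 0, 0] [38, 28, 18, 0, 0, 0] 100000
    30000 30000 940000 0 0 80000 0 0 80000 40000)) (.E 2))) (.E 1)) (.E 1)) (.E 1))

lemma s19_20_4_4_18 : BlkD.treeX d19_20_4_4 (BlkD.exF 4 4 x19_20_4_4) t19_20_4_4_18
    (BlkD.upd (BlkD.upd (BlkD.upd (fun _ => 0) 0 2) 1 3) 2 3)
    (BlkD.upd (BlkD.upd (BlkD.upd (BlkD.upd (BlkD.upd (BlkD.upd (BlkD.upd (fun _ => 20) 0 4) 2 4) 0 2) 1 18) 1 9) 1 4) 1 3) = true := by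
  decide +kernel

lemma n19_20_4_4_18 {n : ℕ} (hn : 6 ≤ n) : BlkD.NdX d19_20_4_4 (BlkD.exF 4 4 x19_20_4_4) n
    (BlkD.upd (BlkD.upd (BlkD.upd (fun _ => 0) 0 2) 1 3) 2 3)
    (BlkD.upd (BlkD.upd (BlkD.upd (BlkD.upd (BlkD.upd (BlkD.upd (BlkD.upd (fun _ => 20) 0 4) 2 4) 0 2) 1 18) 1 9) 1 4) 1 3) :=
  BlkD.NdX.tree s19_20_4_4_18 ok19_20_4_4 (by decide) hn

/-- a subtree -/
def t19_20_4_4_19 : BlkD.Tr :=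
  .L 5 5 [4, 4, 4, 5, 5] [62, 58, 48, 38, 28, 0] [] 100000 59375 59375 650000 0 0 25000 100000 0 0
    12500

lemma s19_20_4_4_19 : BlkD.treeX d19_20_4_4 (BlkD.exF 4 4 x19_20_4_4) t19_20_4_4_19
    (BlkD.upd (BlkD.upd (BlkD.upd (fun _ => 0) 0 2) 1 3) 1 4)
    (BlkD.upd (BlkD.upd (BlkD.upd (BlkD.upd (BlkD.upd (BlkD.upd (BlkD.upd (BlkD.upd (BlkD.upd (fun _ => 20) 0 4) 2 4) 0 2) 1 18) 1 9) 1 4) 2 2) 2 1) 2 0) = true := by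
  decide +kernel

lemma n19_20_4_4_19 {n : ℕ} (hn : 6 ≤ n) : BlkD.NdX d19_20_4_4 (BlkD.exF 4 4 x19_20_4_4) n
    (BlkD.upd (BlkD.upd (BlkD.upd (fun _ => 0) 0 2) 1 3) 1 4)
    (BlkD.upd (BlkD.upd (BlkD.upd (BlkD.upd (BlkD.upd (BlkD.upd (BlkD.upd (BlkD.upd (BlkD.upd (fun _ => 20) 0 4) 2 4) 0 2) 1 18) 1 9) 1 4) 2 2) 2 1) 2 0) :=
  BlkD.NdX.tree s19_20_4_4_19 ok19_20_4_4 (by decide) hn

/-- a subtree -/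
def t19_20_4_4_20 : BlkD.Tr :=
  .S 3 1 (.L 5 5 [4, 4, 4, 5, 5] [62, 58, 48, 38, 28, 0] [] 100000 27778 27778 800000 0 0 14815 0
    29630 0 29630) (.S 3 2 (.L 5 5 [4, 4, 4, 5, 5] [62, 58, 48, 38, 28, 0] [26, 16, 6, 0, 0, 0]
    100000 25000 24999 881818 0 9091 27273 9091 45455 0 27273) (.S 4 4 (.S 4 2 (.L 5 5 [4, 4, 4, 5,
    5] [48, 38, 28, 0, 0, 0] [42, 32, 22, 12, 0, 0] 100000 25000 25000 950000 0 25000 0 25000 75000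
    0 25000) (.L 5 5 [4, 4, 4, 5, 5] [62, 58, 48, 38, 28, 0] [42, 32, 22, 12, 0, 0] 100000 25000
    24999 966667 0 0 33333 0 33333 0 33333)) (.E 2)))

lemma s19_20_4_4_20 : BlkD.treeX d19_20_4_4 (BlkD.exF 4 4 x19_20_4_4) t19_20_4_4_20
    (BlkD.upd (BlkD.upd (BlkD.upd (BlkD.upd (fun _ => 0) 0 2) 1 3) 1 4) 2 1)
    (BlkD.upd (BlkD.upd (BlkD.upd (BlkD.upd (BlkD.upd (BlkD.upd (BlkD.upd (BlkD.upd (BlkD.upd (BlkD.upd (BlkD.upd (fun _ => 20) 0 4) 2 4) 0 2) 1 18) 1 9) 1 4) 2 2) 2 1) 3 13) 3 6) 3 3) = true := by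
  decide +kernel

lemma n19_20_4_4_20 {n : ℕ} (hn : 6 ≤ n) : BlkD.NdX d19_20_4_4 (BlkD.exF 4 4 x19_20_4_4) n
    (BlkD.upd (BlkD.upd (BlkD.upd (BlkD.upd (fun _ => 0) 0 2) 1 3) 1 4) 2 1)
    (BlkD.upd (BlkD.upd (BlkD.upd (BlkD.upd (BlkD.upd (BlkD.upd (BlkD.upd (BlkD.upd (BlkD.upd (BlkD.upd (BlkD.upd (fun _ => 20) 0 4) 2 4) 0 2) 1 18) 1 9) 1 4) 2 2) 2 1) 3 13) 3 6) 3 3) :=
  BlkD.NdX.tree s19_20_4_4_20 ok19_20_4_4 (by decide) hn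

/-- a subtree -/
def t19_20_4_4_21 : BlkD.Tr :=
  .S 3 5 (.S 3 4 (.S 4 4 (.S 4 2 (.S 4 1 (.S 4 0 (.E 2) (.S 5 4 (.S 5 2 (.S 5 1 (.L 5 5 [4, 4, 4,
    5, 5] [38, 28, 0, 0, 0, 0] [30, 20, 0, 0, 0, 0] 100000 50000 50000 800000 0 100000 0 16667
    83333 16667 16667) (.L 5 5 [4, 4, 4, 5, 5] [38, 28, 0, 0, 0, 0] [40, 30, 20, 0, 0, 0] 100000
    30000 30000 940000 0 0 0 80000 80000 0 40000)) (.L 5 5 [4, 4, 4, 5, 5] [38, 28, 0, 0, 0, 0]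
    [54, 50, 40, 30, 20, 0] 100000 40000 40000 800000 0 0 0 100000 80000 0 40000)) (.E 2))) (.S 5 4
    (.S 5 2 (.S 5 1 (.L 2 2 [6, 7, 9, 10, 11] [48, 38, 28, 0, 0, 0] [30, 20, 0, 0, 0, 0] 100000
    43750 43750 850000 0 100000 0 0 75000 50000 25000) (.L 2 2 [6, 7, 9, 10, 11] [48, 38, 28, 0, 0,
    0] [40, 30, 20, 0, 0, 0] 100000 30000 30000 940000 0 0 0 80000 80000 0 40000)) (.L 2 2 [6, 7,
    9, 10, 11] [48, 38, 28, 0, 0, 0] [54, 50, 40, 30, 20, 0] 100000 40000 40000 800000 0 0 0 100000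
    80000 0 40000)) (.E 2))) (.S 4 3 (.S 5 4 (.S 5 2 (.S 5 1 (.L 2 2 [6, 7, 9, 10, 11] [58, 48, 38,
    28, 0, 0] [30, 20, 0, 0, 0, 0] 100000 30000 30000 940000 0 0 80000 0 0 80000 40000) (.E 9)) (.L
    2 2 [6, 7, 9, 10, 11] [58, 48, 38, 28, 0, 0] [54, 50, 40, 30, 20, 0] 100000 30000 30000 940000
    0 0 0 80000 80000 0 40000)) (.E 2)) (.S 5 4 (.S 5 2 (.L 2 2 [6, 7, 9, 10, 11] [62, 58, 48, 38,
    28, 0] [40, 30, 20, 0, 0, 0] 100000 30000 30000 940000 0 0 80000 0 0 80000 40000) (.L 2 2 [6,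
    7, 9, 10, 11] [62, 58, 48, 38, 28, 0] [54, 50, 40, 30, 20, 0] 100000 90000 90000 600000 0 0
    100000 100000 0 0 40000)) (.E 2)))) (.E 2)) (.S 4 4 (.S 4 2 (.S 4 1 (.S 4 0 (.E 2) (.S 5 5 (.S
    5 2 (.L 2 2 [6, 7, 9, 10, 11] [38, 28, 0, 0, 0, 0] [50, 40, 30, 0, 0, 0] 100000 60000 60000
    780000 0 100000 0 60000 40000 20000 20000) (.S 5 4 (.L 7 7 [4, 5, 6, 3, 4] [38, 28, 0, 0, 0, 0]
    [64, 60, 50, 40, 30, 0] 100000 75000 75000 700000 0 100000 0 100000 100000 0 0) (.L 7 7 [4, 5,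
    6, 3, 4] [38, 28, 0, 0, 0, 0] [68, 64, 60, 50, 40, 30] 100000 87500 0 212500 25000 0 25000
    187500 0 0 12500))) (.E 2))) (.S 5 5 (.S 5 2 (.L 2 2 [6, 7, 9, 10, 11] [48, 38, 28, 0, 0, 0]
    [50, 40, 30, 0, 0, 0] 100000 60000 60000 780000 0 100000 0 60000 40000 20000 20000) (.S 5 4 (.S
    5 3 (.L 3 3 [4, 5, 6, 7, 8] [48, 38, 28, 0, 0, 0] [60, 50, 40, 30, 0, 0] 100000 75000 75000
    700000 0 100000 0 100000 100000 0 0) (.L 3 3 [4, 5, 6, 7, 8] [48, 38, 28, 0, 0, 0] [64, 60, 50,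
    40, 30, 0] 100000 40000 40000 800000 0 0 0 100000 80000 0 40000)) (.L 3 3 [4, 5, 6, 7, 8] [48,
    38, 28, 0, 0, 0] [68, 64, 60, 50, 40, 30] 100000 91667 0 174999 16667 0 33333 191667 0 0
    25000))) (.E 2))) (.S 4 3 (.S 5 5 (.S 5 2 (.L 1 1 [9, 11, 13, 15, 15] [58, 48, 38, 28, 0, 0]
    [50, 40, 30, 0, 0, 0] 100000 100000 100000 560000 0 100000 100000 20000 0 40000 40000) (.S 5 4
    (.S 5 3 (.E 9) (.E 9)) (.L 1 1 [9, 11, 13, 15, 15] [58, 48, 38, 28, 0, 0] [68, 64, 60, 50, 40,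
    30] 100000 40000 40000 800000 0 0 0 100000 80000 0 40000))) (.E 2)) (.S 5 5 (.S 5 2 (.L 1 1 [9,
    11, 13, 15, 15] [62, 58, 48, 38, 28, 0] [50, 40, 30, 0, 0, 0] 100000 134286 111429 237143 0
    117143 122857 60000 0 0 40000) (.S 5 4 (.S 5 3 (.E 9) (.L 1 1 [9, 11, 13, 15, 15] [62, 58, 48,
    38, 28, 0] [64, 60, 50, 40, 30, 0] 100000 90000 90000 600000 0 0 100000 100000 0 0 40000)) (.L
    1 1 [9, 11, 13, 15, 15] [62, 58, 48, 38, 28, 0] [68, 64, 60, 50, 40, 30] 100000 140000 73332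
    33331 0 0 166667 166667 0 0 40000))) (.E 2)))) (.E 2))) (.E 2)

lemma s19_20_4_4_21 : BlkD.treeX d19_20_4_4 (BlkD.exF 4 4 x19_20_4_4) t19_20_4_4_21
    (BlkD.upd (BlkD.upd (BlkD.upd (BlkD.upd (BlkD.upd (fun _ => 0) 0 2) 1 3) 1 4) 2 1) 3 4)
    (BlkD.upd (BlkD.upd (BlkD.upd (BlkD.upd (BlkD.upd (BlkD.upd (BlkD.upd (BlkD.upd (BlkD.upd (BlkD.upd (fun _ => 20) 0 4) 2 4) 0 2) 1 18) 1 9) 1 4) 2 2) 2 1) 3 13) 3 6) = true := by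
  decide +kernel

lemma n19_20_4_4_21 {n : ℕ} (hn : 6 ≤ n) : BlkD.NdX d19_20_4_4 (BlkD.exF 4 4 x19_20_4_4) n
    (BlkD.upd (BlkD.upd (BlkD.upd (BlkD.upd (BlkD.upd (fun _ => 0) 0 2) 1 3) 1 4) 2 1) 3 4)
    (BlkD.upd (BlkD.upd (BlkD.upd (BlkD.upd (BlkD.upd (BlkD.upd (BlkD.upd (BlkD.upd (BlkD.upd (BlkD.upd (fun _ => 20) 0 4) 2 4) 0 2) 1 18) 1 9) 1 4) 2 2) 2 1) 3 13) 3 6) :=
  BlkD.NdX.tree s19_20_4_4_21 ok19_20_4_4 (by decide) hn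

/-- a subtree -/
def t19_20_4_4_22 : BlkD.Tr :=
  .E 1

lemma s19_20_4_4_22 : BlkD.treeX d19_20_4_4 (BlkD.exF 4 4 x19_20_4_4) t19_20_4_4_22
    (BlkD.upd (BlkD.upd (BlkD.upd (BlkD.upd (BlkD.upd (fun _ => 0) 0 2) 1 3) 1 4) 2 1) 3 7)
    (BlkD.upd (BlkD.upd (BlkD.upd (BlkD.upd (BlkD.upd (BlkD.upd (BlkD.upd (BlkD.upd (BlkD.upd (fun _ => 20) 0 4) 2 4) 0 2) 1 18) 1 9) 1 4) 2 2) 2 1) 3 13) = true := by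
  decide +kernel

lemma n19_20_4_4_22 {n : ℕ} (hn : 6 ≤ n) : BlkD.NdX d19_20_4_4 (BlkD.exF 4 4 x19_20_4_4) n
    (BlkD.upd (BlkD.upd (BlkD.upd (BlkD.upd (BlkD.upd (fun _ => 0) 0 2) 1 3) 1 4) 2 1) 3 7)
    (BlkD.upd (BlkD.upd (BlkD.upd (BlkD.upd (BlkD.upd (BlkD.upd (BlkD.upd (BlkD.upd (BlkD.upd (fun _ => 20) 0 4) 2 4) 0 2) 1 18) 1 9) 1 4) 2 2) 2 1) 3 13) :=
  BlkD.NdX.tree s19_20_4_4_22 ok19_20_4_4 (by decide) hn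

/-- a subtree -/
def t19_20_4_4_23 : BlkD.Tr :=
  .E 1

lemma s19_20_4_4_23 : BlkD.treeX d19_20_4_4 (BlkD.exF 4 4 x19_20_4_4) t19_20_4_4_23
    (BlkD.upd (BlkD.upd (BlkD.upd (BlkD.upd (BlkD.upd (fun _ => 0) 0 2) 1 3) 1 4) 2 1) 3 14)
    (BlkD.upd (BlkD.upd (BlkD.upd (BlkD.upd (BlkD.upd (BlkD.upd (BlkD.upd (BlkD.upd (fun _ => 20) 0 4) 2 4) 0 2) 1 18) 1 9) 1 4) 2 2) 2 1) = true := by
  decide +kernel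

lemma n19_20_4_4_23 {n : ℕ} (hn : 6 ≤ n) : BlkD.NdX d19_20_4_4 (BlkD.exF 4 4 x19_20_4_4) n
    (BlkD.upd (BlkD.upd (BlkD.upd (BlkD.upd (BlkD.upd (fun _ => 0) 0 2) 1 3) 1 4) 2 1) 3 14)
    (BlkD.upd (BlkD.upd (BlkD.upd (BlkD.upd (BlkD.upd (BlkD.upd (BlkD.upd (BlkD.upd (fun _ => 20) 0 4) 2 4) 0 2) 1 18) 1 9) 1 4) 2 2) 2 1) :=
  BlkD.NdX.tree s19_20_4_4_23 ok19_20_4_4 (by decide) hn

/-- a subtree -/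
def t19_20_4_4_24 : BlkD.Tr :=
  .S 3 12 (.S 3 6 (.S 3 3 (.S 3 1 (.L 1 1 [9, 11, 13, 15, 15] [62, 58, 48, 38, 28, 0] [] 100000
    25000 24999 900000 0 0 16667 0 33333 0 33333) (.S 3 2 (.S 4 4 (.S 4 2 (.L 5 5 [4, 4, 4, 5, 5]
    [48, 38, 28, 0, 0, 0] [30, 20, 10, 0, 0, 0] 100000 23611 23611 972226 5556 11111 11111 33333
    55556 5556 27778) (.L 5 5 [4, 4, 4, 5, 5] [62, 58, 48, 38, 28, 0] [30, 20, 10, 0, 0, 0] 100000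
    25000 24999 966667 0 0 33333 0 33333 0 33333)) (.E 2)) (.S 4 4 (.S 4 2 (.S 4 1 (.S 4 0 (.E 2)
    (.S 5 3 (.S 5 1 (.S 5 0 (.L 5 5 [4, 4, 4, 5, 5] [38, 28, 0, 0, 0, 0] [18, 0, 0, 0, 0, 0] 100000
    9092 9092 1027272 18182 0 36364 0 63636 72727 36364) (.E 9)) (.L 5 5 [4, 4, 4, 5, 5] [38, 28,
    0, 0, 0, 0] [48, 38, 28, 18, 0, 0] 100000 30000 30000 940000 0 0 0 80000 80000 0 40000)) (.E
    2))) (.S 5 3 (.S 5 1 (.S 5 0 (.L 5 5 [4, 4, 4, 5, 5] [48, 38, 28, 0, 0, 0] [18, 0, 0, 0, 0, 0]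
    100000 5000 5000 1040000 0 0 30000 0 80000 80000 40000) (.E 9)) (.L 5 5 [4, 4, 4, 5, 5] [48,
    38, 28, 0, 0, 0] [48, 38, 28, 18, 0, 0] 100000 30000 30000 940000 0 0 0 80000 80000 0 40000))
    (.E 2))) (.S 4 3 (.S 5 3 (.S 5 1 (.L 5 5 [4, 4, 4, 5, 5] [58, 48, 38, 28, 0, 0] [28, 18, 0, 0,
    0, 0] 100000 30000 30000 940000 0 0 80000 0 0 80000 40000) (.S 5 2 (.L 5 5 [4, 4, 4, 5, 5] [58,
    48, 38, 28, 0, 0] [38, 28, 18, 0, 0, 0] 100000 30000 30000 940000 0 0 80000 0 0 80000 40000)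
    (.L 5 5 [4, 4, 4, 5, 5] [58, 48, 38, 28, 0, 0] [48, 38, 28, 18, 0, 0] 100000 30000 30000 940000
    0 0 0 80000 80000 0 40000))) (.E 2)) (.S 5 3 (.S 5 1 (.L 5 5 [4, 4, 4, 5, 5] [62, 58, 48, 38,
    28, 0] [28, 18, 0, 0, 0, 0] 100000 40000 40000 800000 0 0 100000 0 0 80000 40000) (.L 5 5 [4,
    4, 4, 5, 5] [62, 58, 48, 38, 28, 0] [48, 38, 28, 18, 0, 0] 100000 67857 67856 750001 0 0 100000
    50000 0 7143 28571)) (.E 2)))) (.E 2)))) (.S 3 5 (.S 3 4 (.S 4 4 (.S 4 2 (.S 4 1 (.S 4 0 (.E 2)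
    (.S 5 4 (.S 5 2 (.S 5 1 (.S 5 0 (.E 2) (.E 9)) (.E 9)) (.S 5 3 (.E 9) (.L 5 5 [4, 4, 4, 5, 5]
    [38, 28, 0, 0, 0, 0] [62, 58, 48, 38, 28, 0] 100000 40000 40000 800000 0 0 0 100000 80000 0
    40000))) (.E 2))) (.S 5 4 (.S 5 2 (.S 5 1 (.S 5 0 (.E 2) (.E 9)) (.E 9)) (.S 5 3 (.E 9) (.L 5 5
    [4, 4, 4, 5, 5] [48, 38, 28, 0, 0, 0] [62, 58, 48, 38, 28, 0] 100000 40000 40000 800000 0 0 0
    100000 80000 0 40000))) (.E 2))) (.S 4 3 (.S 5 4 (.S 5 2 (.S 5 1 (.S 5 0 (.E 2) (.E 9)) (.E 9))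
    (.S 5 3 (.E 9) (.E 9))) (.E 2)) (.S 5 4 (.S 5 2 (.L 5 5 [4, 4, 4, 5, 5] [62, 58, 48, 38, 28, 0]
    [48, 38, 28, 0, 0, 0] 100000 40000 40000 800000 0 0 100000 0 0 80000 40000) (.S 5 3 (.E 9) (.L
    5 5 [4, 4, 4, 5, 5] [62, 58, 48, 38, 28, 0] [62, 58, 48, 38, 28, 0] 100000 90000 90000 600000 0
    0 100000 100000 0 0 40000))) (.E 2)))) (.E 2)) (.E 2)) (.E 1))) (.E 1)) (.E 1)

lemma s19_20_4_4_24 : BlkD.treeX d19_20_4_4 (BlkD.exF 4 4 x19_20_4_4) t19_20_4_4_24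
    (BlkD.upd (BlkD.upd (BlkD.upd (BlkD.upd (fun _ => 0) 0 2) 1 3) 1 4) 2 2)
    (BlkD.upd (BlkD.upd (BlkD.upd (BlkD.upd (BlkD.upd (BlkD.upd (BlkD.upd (fun _ => 20) 0 4) 2 4) 0 2) 1 18) 1 9) 1 4) 2 2) = true := by
  decide +kernel

lemma n19_20_4_4_24 {n : ℕ} (hn : 6 ≤ n) : BlkD.NdX d19_20_4_4 (BlkD.exF 4 4 x19_20_4_4) n
    (BlkD.upd (BlkD.upd (BlkD.upd (BlkD.upd (fun _ => 0) 0 2) 1 3) 1 4) 2 2)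
    (BlkD.upd (BlkD.upd (BlkD.upd (BlkD.upd (BlkD.upd (BlkD.upd (BlkD.upd (fun _ => 20) 0 4) 2 4) 0 2) 1 18) 1 9) 1 4) 2 2) :=
  BlkD.NdX.tree s19_20_4_4_24 ok19_20_4_4 (by decide) hn

/-- a subtree -/
def t19_20_4_4_25 : BlkD.Tr :=
  .S 2 3 (.S 3 11 (.S 3 5 (.S 3 2 (.S 3 1 (.L 5 5 [4, 4, 4, 5, 5] [62, 58, 48, 38, 28, 0] [] 100000
    18750 18750 1000000 0 0 25000 25000 50000 25000 25000) (.S 4 4 (.S 4 2 (.S 4 1 (.S 4 0 (.E 2)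
    (.S 5 2 (.S 5 1 (.S 5 0 (.L 5 5 [4, 4, 4, 5, 5] [38, 28, 0, 0, 0, 0] [14, 0, 0, 0, 0, 0] 100000
    9092 9092 1027272 18182 0 36364 0 63636 72727 36364) (.E 9)) (.L 5 5 [4, 4, 4, 5, 5] [38, 28,
    0, 0, 0, 0] [34, 24, 14, 0, 0, 0] 100000 30000 30000 940000 0 0 0 80000 80000 0 40000)) (.E
    2))) (.S 5 2 (.S 5 1 (.S 5 0 (.L 5 5 [4, 4, 4, 5, 5] [48, 38, 28, 0, 0, 0] [14, 0, 0, 0, 0, 0]
    100000 5000 5000 1040000 0 0 30000 0 80000 80000 40000) (.E 9)) (.L 5 5 [4, 4, 4, 5, 5] [48,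
    38, 28, 0, 0, 0] [34, 24, 14, 0, 0, 0] 100000 30000 30000 940000 0 0 0 80000 80000 0 40000))
    (.E 2))) (.L 5 5 [4, 4, 4, 5, 5] [62, 58, 48, 38, 28, 0] [34, 24, 14, 0, 0, 0] 100000 30000
    30000 940000 0 0 80000 0 0 80000 40000)) (.E 2))) (.S 3 4 (.S 3 3 (.S 4 4 (.S 4 2 (.S 4 1 (.S 4
    0 (.E 2) (.S 5 3 (.S 5 1 (.E 2) (.S 5 2 (.E 9) (.E 9))) (.E 2))) (.S 5 3 (.S 5 1 (.E 2) (.S 5 2
    (.E 9) (.E 9))) (.E 2))) (.S 4 3 (.S 5 3 (.S 5 1 (.E 2) (.S 5 2 (.E 9) (.L 5 5 [4, 4, 4, 5, 5]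
    [58, 48, 38, 28, 0, 0] [54, 44, 34, 24, 0, 0] 100000 90000 90000 600000 0 0 100000 100000 0 0
    40000))) (.E 2)) (.L 5 5 [4, 4, 4, 5, 5] [62, 58, 48, 38, 28, 0] [54, 44, 34, 24, 0, 0] 100000
    40000 40000 800000 0 0 100000 0 0 80000 40000))) (.E 2)) (.E 1)) (.E 1))) (.E 1)) (.E 1)) (.S 3
    10 (.S 3 5 (.S 3 2 (.S 3 1 (.L 5 5 [4, 4, 4, 5, 5] [62, 58, 48, 38, 28, 0] [] 100000 6667 6667
    1046668 13333 0 13333 13333 73333 80000 40000) (.S 4 4 (.S 4 2 (.S 4 1 (.S 4 0 (.E 2) (.S 5 2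
    (.S 5 1 (.E 2) (.E 9)) (.E 2))) (.S 5 2 (.S 5 1 (.E 2) (.E 9)) (.E 2))) (.S 4 3 (.S 5 2 (.S 5 1
    (.E 2) (.E 9)) (.E 2)) (.L 5 5 [4, 4, 4, 5, 5] [62, 58, 48, 38, 28, 0] [38, 28, 18, 0, 0, 0]
    100000 40000 40000 800000 0 0 100000 0 0 80000 40000))) (.E 2))) (.E 1)) (.E 1)) (.E 1))

lemma s19_20_4_4_25 : BlkD.treeX d19_20_4_4 (BlkD.exF 4 4 x19_20_4_4) t19_20_4_4_25
    (BlkD.upd (BlkD.upd (BlkD.upd (BlkD.upd (fun _ => 0) 0 2) 1 3) 1 4) 2 3)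
    (BlkD.upd (BlkD.upd (BlkD.upd (BlkD.upd (BlkD.upd (BlkD.upd (fun _ => 20) 0 4) 2 4) 0 2) 1 18) 1 9) 1 4) = true := by
  decide +kernel

lemma n19_20_4_4_25 {n : ℕ} (hn : 6 ≤ n) : BlkD.NdX d19_20_4_4 (BlkD.exF 4 4 x19_20_4_4) n
    (BlkD.upd (BlkD.upd (BlkD.upd (BlkD.upd (fun _ => 0) 0 2) 1 3) 1 4) 2 3)
    (BlkD.upd (BlkD.upd (BlkD.upd (BlkD.upd (BlkD.upd (BlkD.upd (fun _ => 20) 0 4) 2 4) 0 2) 1 18) 1 9) 1 4) :=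
  BlkD.NdX.tree s19_20_4_4_25 ok19_20_4_4 (by decide) hn

/-- a subtree -/
def t19_20_4_4_26 : BlkD.Tr :=
  .S 1 7 (.S 1 6 (.S 1 5 (.S 2 2 (.S 2 1 (.S 2 0 (.L 5 5 [4, 4, 4, 5, 5] [78, 74, 70, 60, 50, 40]
    [] 100000 106667 40000 199999 0 0 166667 100000 0 0 40000) (.S 3 12 (.S 3 6 (.S 3 3 (.L 5 5 [4,
    4, 4, 5, 5] [78, 74, 70, 60, 50, 40] [] 100000 54167 54167 800000 0 0 100000 0 0 0 16667) (.S 3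
    5 (.S 3 4 (.S 4 5 (.S 4 2 (.E 2) (.S 4 4 (.E 2) (.S 5 4 (.S 5 2 (.S 5 1 (.L 5 5 [4, 4, 4, 5, 5]
    [78, 74, 70, 60, 50, 40] [30, 20, 0, 0, 0, 0] 100000 140000 73332 33331 0 166667 166667 0 0
    80000 40000) (.E 9)) (.L 5 5 [4, 4, 4, 5, 5] [78, 74, 70, 60, 50, 40] [54, 50, 40, 30, 20, 0]
    100000 90000 90000 600000 0 0 100000 100000 0 0 40000)) (.E 2)))) (.E 2)) (.L 5 5 [4, 4, 4, 5,
    5] [78, 74, 70, 60, 50, 40] [68, 64, 60, 50, 40, 30] 100000 109091 0 1 0 0 63636 209091 0 0 0))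
    (.E 2))) (.E 1)) (.E 1))) (.S 3 11 (.S 3 5 (.S 3 2 (.L 5 5 [4, 4, 4, 5, 5] [78, 74, 70, 60, 50,
    40] [] 100000 54167 54167 800000 0 0 100000 0 0 0 16667) (.L 5 5 [4, 4, 4, 5, 5] [78, 74, 70,
    60, 50, 40] [] 100000 65000 65000 750000 0 0 100000 50000 0 30000 40000)) (.E 1)) (.E 1))) (.L
    5 5 [4, 4, 4, 5, 5] [78, 74, 70, 60, 50, 40] [] 100000 40000 40000 800000 0 0 100000 0 0 80000
    40000)) (.E 0)) (.E 0)) (.E 0)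

lemma s19_20_4_4_26 : BlkD.treeX d19_20_4_4 (BlkD.exF 4 4 x19_20_4_4) t19_20_4_4_26
    (BlkD.upd (BlkD.upd (fun _ => 0) 0 2) 1 5)
    (BlkD.upd (BlkD.upd (BlkD.upd (BlkD.upd (BlkD.upd (fun _ => 20) 0 4) 2 4) 0 2) 1 18) 1 9) = true := by
  decide +kernel

lemma n19_20_4_4_26 {n : ℕ} (hn : 6 ≤ n) : BlkD.NdX d19_20_4_4 (BlkD.exF 4 4 x19_20_4_4) n
    (BlkD.upd (BlkD.upd (fun _ => 0) 0 2) 1 5)
    (BlkD.upd (BlkD.upd (BlkD.upd (BlkD.upd (BlkD.upd (fun _ => 20) 0 4) 2 4) 0 2) 1 18) 1 9) :=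
  BlkD.NdX.tree s19_20_4_4_26 ok19_20_4_4 (by decide) hn

/-- a subtree -/
def t19_20_4_4_27 : BlkD.Tr :=
  .E 0

lemma s19_20_4_4_27 : BlkD.treeX d19_20_4_4 (BlkD.exF 4 4 x19_20_4_4) t19_20_4_4_27
    (BlkD.upd (BlkD.upd (fun _ => 0) 0 2) 1 10)
    (BlkD.upd (BlkD.upd (BlkD.upd (BlkD.upd (fun _ => 20) 0 4) 2 4) 0 2) 1 18) = true := by
  decide +kernel

lemma n19_20_4_4_27 {n : ℕ} (hn : 6 ≤ n) : BlkD.NdX d19_20_4_4 (BlkD.exF 4 4 x19_20_4_4) n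
    (BlkD.upd (BlkD.upd (fun _ => 0) 0 2) 1 10)
    (BlkD.upd (BlkD.upd (BlkD.upd (BlkD.upd (fun _ => 20) 0 4) 2 4) 0 2) 1 18) :=
  BlkD.NdX.tree s19_20_4_4_27 ok19_20_4_4 (by decide) hn

/-- a subtree -/
def t19_20_4_4_28 : BlkD.Tr :=
  .E 0

lemma s19_20_4_4_28 : BlkD.treeX d19_20_4_4 (BlkD.exF 4 4 x19_20_4_4) t19_20_4_4_28
    (BlkD.upd (BlkD.upd (fun _ => 0) 0 2) 1 19)
    (BlkD.upd (BlkD.upd (BlkD.upd (fun _ => 20) 0 4) 2 4) 0 2) = true := by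
  decide +kernel

lemma n19_20_4_4_28 {n : ℕ} (hn : 6 ≤ n) : BlkD.NdX d19_20_4_4 (BlkD.exF 4 4 x19_20_4_4) n
    (BlkD.upd (BlkD.upd (fun _ => 0) 0 2) 1 19)
    (BlkD.upd (BlkD.upd (BlkD.upd (fun _ => 20) 0 4) 2 4) 0 2) :=
  BlkD.NdX.tree s19_20_4_4_28 ok19_20_4_4 (by decide) hn

/-- a subtree -/
def t19_20_4_4_29 : BlkD.Tr :=
  .S 1 0 (.L 5 5 [4, 4, 4, 5, 5] [0, 0, 0, 0, 0, 0] [] 100000 21875 21875 950000 0 0 0 37500 25000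
    25000 21875) (.S 2 2 (.S 2 1 (.S 2 0 (.L 5 5 [4, 4, 4, 5, 5] [16, 6, 0, 0, 0, 0] [] 100000
    54167 54167 600000 0 0 0 100000 0 0 16667) (.S 3 15 (.S 3 7 (.S 3 3 (.L 5 5 [4, 4, 4, 5, 5]
    [16, 6, 0, 0, 0, 0] [] 100000 40000 40000 800000 0 0 0 0 0 0 40000) (.S 3 5 (.S 3 4 (.L 5 5 [4,
    4, 4, 5, 5] [16, 6, 0, 0, 0, 0] [54, 50, 40, 30, 20, 0] 100000 33334 33334 883333 0 16667 0
    16667 16667 0 33333) (.L 5 5 [4, 4, 4, 5, 5] [16, 6, 0, 0, 0, 0] [68, 64, 60, 50, 40, 30]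
    100000 21053 21053 984212 0 15789 0 31579 31579 31579 21053)) (.L 5 5 [4, 4, 4, 5, 5] [16, 6,
    0, 0, 0, 0] [] 100000 30000 30000 940000 0 0 0 80000 80000 0 40000))) (.E 1)) (.E 1))) (.S 3 14
    (.S 3 7 (.S 3 3 (.L 5 5 [4, 4, 4, 5, 5] [16, 6, 0, 0, 0, 0] [] 100000 23544 23544 940776 0 0
    13592 13592 27184 5825 39806) (.L 5 5 [4, 4, 4, 5, 5] [16, 6, 0, 0, 0, 0] [] 100000 18750 18750
    1000000 0 0 25000 25000 25000 50000 25000)) (.E 1)) (.E 1))) (.L 5 5 [4, 4, 4, 5, 5] [16, 6, 0,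
    0, 0, 0] [] 100000 20313 20313 962500 18750 0 37500 18750 18750 56250 25000))

lemma s19_20_4_4_29 : BlkD.treeX d19_20_4_4 (BlkD.exF 4 4 x19_20_4_4) t19_20_4_4_29
    (BlkD.upd (fun _ => 0) 0 3)
    (BlkD.upd (BlkD.upd (BlkD.upd (BlkD.upd (BlkD.upd (BlkD.upd (BlkD.upd (BlkD.upd (fun _ => 20) 0 4) 2 4) 0 3) 1 17) 1 8) 1 4) 1 2) 1 1) = true := by
  decide +kernel

lemma n19_20_4_4_29 {n : ℕ} (hn : 6 ≤ n) : BlkD.NdX d19_20_4_4 (BlkD.exF 4 4 x19_20_4_4) n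
    (BlkD.upd (fun _ => 0) 0 3)
    (BlkD.upd (BlkD.upd (BlkD.upd (BlkD.upd (BlkD.upd (BlkD.upd (BlkD.upd (BlkD.upd (fun _ => 20) 0 4) 2 4) 0 3) 1 17) 1 8) 1 4) 1 2) 1 1) :=
  BlkD.NdX.tree s19_20_4_4_29 ok19_20_4_4 (by decide) hn

/-- a subtree -/
def t19_20_4_4_30 : BlkD.Tr :=
  .S 2 1 (.S 2 0 (.L 5 5 [4, 4, 4, 5, 5] [34, 24, 14, 0, 0, 0] [] 100000 55555 55555 600000 0 0 0
    100000 0 0 15556) (.S 3 14 (.S 3 7 (.S 3 3 (.L 5 5 [4, 4, 4, 5, 5] [34, 24, 14, 0, 0, 0] []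
    100000 25000 25000 908000 0 8000 8000 8000 32000 0 36000) (.S 3 5 (.S 3 4 (.L 1 1 [9, 11, 13,
    15, 15] [34, 24, 14, 0, 0, 0] [54, 50, 40, 30, 20, 0] 100000 42857 42856 880953 0 47619 0 52381
    71429 4762 28571) (.S 4 2 (.S 4 1 (.S 4 0 (.L 1 1 [9, 11, 13, 15, 15] [14, 0, 0, 0, 0, 0] [68,
    64, 60, 50, 40, 30] 100000 80000 80000 653334 0 88889 0 91111 80000 8889 40000) (.S 5 5 (.S 5 2
    (.L 1 1 [9, 11, 13, 15, 15] [24, 14, 0, 0, 0, 0] [50, 40, 30, 0, 0, 0] 100000 30000 30000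
    940000 0 60000 0 20000 60000 40000 40000) (.L 1 1 [9, 11, 13, 15, 15] [24, 14, 0, 0, 0, 0] [68,
    64, 60, 50, 40, 30] 100000 30000 30000 940000 0 0 0 80000 80000 0 40000)) (.E 2))) (.S 5 5 (.S
    5 2 (.L 1 1 [9, 11, 13, 15, 15] [34, 24, 14, 0, 0, 0] [50, 40, 30, 0, 0, 0] 100000 30000 30000
    940000 0 20000 40000 20000 20000 40000 40000) (.L 1 1 [9, 11, 13, 15, 15] [34, 24, 14, 0, 0, 0]
    [68, 64, 60, 50, 40, 30] 100000 30000 30000 940000 0 0 0 80000 80000 0 40000)) (.E 2))) (.E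
    2))) (.S 3 6 (.S 4 2 (.S 4 1 (.L 5 5 [4, 4, 4, 5, 5] [24, 14, 0, 0, 0, 0] [82, 80, 76, 72, 62,
    52] 100000 75000 75000 700000 0 100000 0 100000 100000 0 0) (.S 5 6 (.S 5 3 (.E 2) (.S 5 5 (.L
    2 2 [6, 7, 9, 10, 11] [34, 24, 14, 0, 0, 0] [80, 76, 72, 62, 52, 42] 100000 64286 64286 757142
    0 71429 0 100000 85714 0 14286) (.L 2 2 [6, 7, 9, 10, 11] [34, 24, 14, 0, 0, 0] [82, 80, 76,
    72, 62, 52] 100000 111111 0 1 0 0 72222 211111 0 0 11111))) (.E 2))) (.E 2)) (.E 1)))) (.E 1))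
    (.E 1))) (.S 3 13 (.S 3 6 (.S 3 3 (.S 3 1 (.L 2 2 [6, 7, 9, 10, 11] [34, 24, 14, 0, 0, 0] []
    100000 40000 40000 800000 0 0 0 0 0 0 40000) (.S 3 2 (.L 2 2 [6, 7, 9, 10, 11] [34, 24, 14, 0,
    0, 0] [30, 20, 10, 0, 0, 0] 100000 23333 23332 933336 0 0 6667 20000 26667 6667 40000) (.S 4 2
    (.S 4 1 (.S 4 0 (.L 2 2 [6, 7, 9, 10, 11] [14, 0, 0, 0, 0, 0] [48, 38, 28, 18, 0, 0] 100000
    25000 25000 940000 0 20000 0 60000 80000 40000 40000) (.S 5 3 (.S 5 1 (.L 5 5 [4, 4, 4, 5, 5]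
    [24, 14, 0, 0, 0, 0] [28, 18, 0, 0, 0, 0] 100000 13235 13234 1023531 0 23529 0 23529 47059
    47059 29412) (.L 5 5 [4, 4, 4, 5, 5] [24, 14, 0, 0, 0, 0] [48, 38, 28, 18, 0, 0] 100000 25000
    24999 933333 0 0 0 66667 66667 0 33333)) (.E 2))) (.S 5 3 (.S 5 1 (.L 5 5 [4, 4, 4, 5, 5] [34,
    24, 14, 0, 0, 0] [28, 18, 0, 0, 0, 0] 100000 25000 24999 933333 0 0 66667 0 0 66667 33333) (.L
    5 5 [4, 4, 4, 5, 5] [34, 24, 14, 0, 0, 0] [48, 38, 28, 18, 0, 0] 100000 25000 25000 933334 0 0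
    8333 58333 58333 8333 33333)) (.E 2))) (.E 2)))) (.S 3 5 (.S 3 4 (.S 4 2 (.S 4 1 (.S 4 0 (.L 5
    5 [4, 4, 4, 5, 5] [14, 0, 0, 0, 0, 0] [62, 58, 48, 38, 28, 0] 100000 5000 5000 1060000 0 10000
    0 20000 80000 80000 40000) (.S 5 4 (.S 5 2 (.S 5 1 (.S 5 0 (.E 2) (.E 9)) (.E 9)) (.L 5 5 [4,
    4, 4, 5, 5] [24, 14, 0, 0, 0, 0] [62, 58, 48, 38, 28, 0] 100000 30000 30000 940000 0 0 0 80000
    80000 0 40000)) (.E 2))) (.S 5 4 (.S 5 2 (.L 5 5 [4, 4, 4, 5, 5] [34, 24, 14, 0, 0, 0] [48, 38,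
    28, 0, 0, 0] 100000 30000 30000 940000 0 0 80000 0 0 80000 40000) (.L 5 5 [4, 4, 4, 5, 5] [34,
    24, 14, 0, 0, 0] [62, 58, 48, 38, 28, 0] 100000 30000 30000 940000 0 0 0 80000 80000 0 40000))
    (.E 2))) (.E 2)) (.L 5 5 [4, 4, 4, 5, 5] [34, 24, 14, 0, 0, 0] [78, 74, 70, 60, 50, 40] 100000
    40000 40000 800000 0 0 0 100000 80000 0 40000)) (.E 1))) (.E 1)) (.E 1))

lemma s19_20_4_4_30 : BlkD.treeX d19_20_4_4 (BlkD.exF 4 4 x19_20_4_4) t19_20_4_4_30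
    (BlkD.upd (BlkD.upd (fun _ => 0) 0 3) 1 2)
    (BlkD.upd (BlkD.upd (BlkD.upd (BlkD.upd (BlkD.upd (BlkD.upd (BlkD.upd (BlkD.upd (fun _ => 20) 0 4) 2 4) 0 3) 1 17) 1 8) 1 4) 1 2) 2 2) = true := by
  decide +kernel

lemma n19_20_4_4_30 {n : ℕ} (hn : 6 ≤ n) : BlkD.NdX d19_20_4_4 (BlkD.exF 4 4 x19_20_4_4) n
    (BlkD.upd (BlkD.upd (fun _ => 0) 0 3) 1 2)
    (BlkD.upd (BlkD.upd (BlkD.upd (BlkD.upd (BlkD.upd (BlkD.upd (BlkD.upd (BlkD.upd (fun _ => 20) 0 4) 2 4) 0 3) 1 17) 1 8) 1 4) 1 2) 2 2) :=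
  BlkD.NdX.tree s19_20_4_4_30 ok19_20_4_4 (by decide) hn

/-- a subtree -/
def t19_20_4_4_31 : BlkD.Tr :=
  .S 2 3 (.S 3 12 (.S 3 6 (.S 3 3 (.S 3 1 (.L 5 5 [4, 4, 4, 5, 5] [34, 24, 14, 0, 0, 0] [] 100000
    22794 22794 917648 0 8824 8824 17647 26471 8824 38235) (.S 3 2 (.S 4 2 (.S 4 1 (.S 4 0 (.L 5 5
    [4, 4, 4, 5, 5] [14, 0, 0, 0, 0, 0] [34, 24, 14, 0, 0, 0] 100000 13462 13462 984616 15385 0 0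
    30769 76923 46154 38462) (.S 5 2 (.S 5 1 (.S 5 0 (.L 5 5 [4, 4, 4, 5, 5] [24, 14, 0, 0, 0, 0]
    [14, 0, 0, 0, 0, 0] 100000 12500 12499 983333 0 25000 16667 0 50000 66667 33333) (.E 9)) (.L 5
    5 [4, 4, 4, 5, 5] [24, 14, 0, 0, 0, 0] [34, 24, 14, 0, 0, 0] 100000 25000 24999 933333 0 0 0
    66667 66667 0 33333)) (.E 2))) (.L 5 5 [4, 4, 4, 5, 5] [34, 24, 14, 0, 0, 0] [34, 24, 14, 0, 0,
    0] 100000 25000 24999 933333 0 0 66667 0 0 66667 33333)) (.E 2)) (.S 4 2 (.S 4 1 (.S 4 0 (.L 5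
    5 [4, 4, 4, 5, 5] [14, 0, 0, 0, 0, 0] [54, 44, 34, 24, 0, 0] 100000 5000 5000 1040000 0 0 0
    30000 80000 80000 40000) (.S 5 3 (.S 5 1 (.E 2) (.S 5 2 (.E 9) (.L 5 5 [4, 4, 4, 5, 5] [24, 14,
    0, 0, 0, 0] [54, 44, 34, 24, 0, 0] 100000 30000 30000 940000 0 0 0 80000 80000 0 40000))) (.E
    2))) (.L 5 5 [4, 4, 4, 5, 5] [34, 24, 14, 0, 0, 0] [54, 44, 34, 24, 0, 0] 100000 30000 30000
    940000 0 0 80000 0 0 80000 40000)) (.E 2)))) (.E 1)) (.E 1)) (.E 1)) (.S 3 11 (.S 3 5 (.S 3 2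
    (.S 3 1 (.L 5 5 [4, 4, 4, 5, 5] [34, 24, 14, 0, 0, 0] [] 100000 13236 13236 988236 5882 23529
    29412 29412 47059 70588 35294) (.S 4 2 (.S 4 1 (.S 4 0 (.L 5 5 [4, 4, 4, 5, 5] [14, 0, 0, 0, 0,
    0] [38, 28, 18, 0, 0, 0] 100000 5000 5000 1040000 10000 0 0 20000 80000 80000 40000) (.S 5 2
    (.S 5 1 (.E 2) (.E 9)) (.E 2))) (.L 5 5 [4, 4, 4, 5, 5] [34, 24, 14, 0, 0, 0] [38, 28, 18, 0,
    0, 0] 100000 30000 30000 940000 0 0 80000 0 0 80000 40000)) (.E 2))) (.E 1)) (.E 1)) (.E 1))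

lemma s19_20_4_4_31 : BlkD.treeX d19_20_4_4 (BlkD.exF 4 4 x19_20_4_4) t19_20_4_4_31
    (BlkD.upd (BlkD.upd (BlkD.upd (fun _ => 0) 0 3) 1 2) 2 3)
    (BlkD.upd (BlkD.upd (BlkD.upd (BlkD.upd (BlkD.upd (BlkD.upd (BlkD.upd (fun _ => 20) 0 4) 2 4) 0 3) 1 17) 1 8) 1 4) 1 2) = true := by
  decide +kernel

lemma n19_20_4_4_31 {n : ℕ} (hn : 6 ≤ n) : BlkD.NdX d19_20_4_4 (BlkD.exF 4 4 x19_20_4_4) n
    (BlkD.upd (BlkD.upd (BlkD.upd (fun _ => 0) 0 3) 1 2) 2 3)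
    (BlkD.upd (BlkD.upd (BlkD.upd (BlkD.upd (BlkD.upd (BlkD.upd (BlkD.upd (fun _ => 20) 0 4) 2 4) 0 3) 1 17) 1 8) 1 4) 1 2) :=
  BlkD.NdX.tree s19_20_4_4_31 ok19_20_4_4 (by decide) hn

/-- a subtree -/
def t19_20_4_4_32 : BlkD.Tr :=
  .S 2 1 (.S 2 0 (.L 5 5 [4, 4, 4, 5, 5] [54, 44, 34, 24, 0, 0] [] 100000 55555 55555 600000 0 0 0
    100000 0 0 15556) (.S 3 13 (.S 3 6 (.S 3 3 (.L 5 5 [4, 4, 4, 5, 5] [54, 44, 34, 24, 0, 0] []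
    100000 25000 25000 950000 0 25000 0 25000 75000 0 25000) (.S 3 5 (.S 3 4 (.S 4 3 (.S 4 1 (.E 2)
    (.S 4 2 (.S 5 4 (.S 5 2 (.S 5 1 (.L 5 5 [4, 4, 4, 5, 5] [44, 34, 24, 0, 0, 0] [30, 20, 0, 0, 0,
    0] 100000 50000 50000 800000 0 100000 0 16667 83333 16667 16667) (.L 5 5 [4, 4, 4, 5, 5] [44,
    34, 24, 0, 0, 0] [40, 30, 20, 0, 0, 0] 100000 30000 30000 940000 0 0 0 80000 80000 0 40000))
    (.L 5 5 [4, 4, 4, 5, 5] [44, 34, 24, 0, 0, 0] [54, 50, 40, 30, 20, 0] 100000 40000 40000 800000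
    0 0 0 100000 80000 0 40000)) (.E 2)) (.S 5 4 (.S 5 2 (.S 5 1 (.L 5 5 [4, 4, 4, 5, 5] [54, 44,
    34, 24, 0, 0] [30, 20, 0, 0, 0, 0] 100000 30000 30000 940000 0 0 80000 0 0 80000 40000) (.L 5 5
    [4, 4, 4, 5, 5] [54, 44, 34, 24, 0, 0] [40, 30, 20, 0, 0, 0] 100000 30000 30000 940000 0 0 0
    80000 80000 0 40000)) (.L 5 5 [4, 4, 4, 5, 5] [54, 44, 34, 24, 0, 0] [54, 50, 40, 30, 20, 0]
    100000 40000 40000 800000 0 0 0 100000 80000 0 40000)) (.E 2)))) (.E 2)) (.S 4 3 (.S 4 1 (.E 2)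
    (.S 4 2 (.S 5 5 (.S 5 2 (.L 5 5 [4, 4, 4, 5, 5] [44, 34, 24, 0, 0, 0] [50, 40, 30, 0, 0, 0]
    100000 62500 62500 750000 0 100000 0 75000 50000 0 25000) (.S 5 4 (.S 5 3 (.L 5 5 [4, 4, 4, 5,
    5] [44, 34, 24, 0, 0, 0] [60, 50, 40, 30, 0, 0] 100000 75000 75000 700000 0 100000 0 100000
    100000 0 0) (.L 5 5 [4, 4, 4, 5, 5] [44, 34, 24, 0, 0, 0] [64, 60, 50, 40, 30, 0] 100000 40000
    40000 800000 0 0 0 100000 80000 0 40000)) (.L 5 5 [4, 4, 4, 5, 5] [44, 34, 24, 0, 0, 0] [68,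
    64, 60, 50, 40, 30] 100000 87500 0 212500 21875 0 28125 187500 3125 0 15625))) (.E 2)) (.S 5 5
    (.S 5 2 (.L 1 1 [9, 11, 13, 15, 15] [54, 44, 34, 24, 0, 0] [50, 40, 30, 0, 0, 0] 100000 100000
    100000 560000 0 100000 100000 20000 0 40000 40000) (.L 1 1 [9, 11, 13, 15, 15] [54, 44, 34, 24,
    0, 0] [68, 64, 60, 50, 40, 30] 100000 90000 90000 600000 0 0 100000 100000 0 0 40000)) (.E
    2)))) (.E 2))) (.E 2))) (.E 1)) (.E 1))) (.S 3 12 (.S 3 6 (.S 3 3 (.S 3 1 (.L 1 1 [9, 11, 13,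
    15, 15] [54, 44, 34, 24, 0, 0] [] 100000 25000 25000 900000 0 0 0 0 25000 0 37500) (.S 3 2 (.L
    5 5 [4, 4, 4, 5, 5] [54, 44, 34, 24, 0, 0] [30, 20, 10, 0, 0, 0] 100000 24138 24138 970690 0
    14655 16379 26724 57759 3448 25862) (.S 4 3 (.S 4 1 (.E 2) (.S 4 2 (.S 5 3 (.S 5 1 (.S 5 0 (.L
    5 5 [4, 4, 4, 5, 5] [44, 34, 24, 0, 0, 0] [18, 0, 0, 0, 0, 0] 100000 5000 5000 1040000 0 10000
    15000 0 80000 80000 40000) (.E 9)) (.L 5 5 [4, 4, 4, 5, 5] [44, 34, 24, 0, 0, 0] [48, 38, 28,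
    18, 0, 0] 100000 30000 30000 940000 0 0 0 80000 80000 0 40000)) (.E 2)) (.S 5 3 (.S 5 1 (.L 5 5
    [4, 4, 4, 5, 5] [54, 44, 34, 24, 0, 0] [28, 18, 0, 0, 0, 0] 100000 30000 30000 940000 0 0 80000
    0 0 80000 40000) (.L 5 5 [4, 4, 4, 5, 5] [54, 44, 34, 24, 0, 0] [48, 38, 28, 18, 0, 0] 100000
    30000 30000 940000 0 0 40000 40000 40000 40000 40000)) (.E 2)))) (.E 2)))) (.S 3 5 (.S 3 4 (.S
    4 3 (.S 4 1 (.E 2) (.S 4 2 (.S 5 4 (.S 5 2 (.S 5 1 (.S 5 0 (.E 2) (.E 9)) (.E 9)) (.S 5 3 (.E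
    9) (.L 5 5 [4, 4, 4, 5, 5] [44, 34, 24, 0, 0, 0] [62, 58, 48, 38, 28, 0] 100000 40000 40000
    800000 0 0 0 100000 80000 0 40000))) (.E 2)) (.S 5 4 (.S 5 2 (.S 5 1 (.S 5 0 (.E 2) (.E 9)) (.E
    9)) (.L 5 5 [4, 4, 4, 5, 5] [54, 44, 34, 24, 0, 0] [62, 58, 48, 38, 28, 0] 100000 90000 90000
    600000 0 0 100000 100000 0 0 40000)) (.E 2)))) (.E 2)) (.E 2)) (.E 1))) (.E 1)) (.E 1))

lemma s19_20_4_4_32 : BlkD.treeX d19_20_4_4 (BlkD.exF 4 4 x19_20_4_4) t19_20_4_4_32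
    (BlkD.upd (BlkD.upd (fun _ => 0) 0 3) 1 3)
    (BlkD.upd (BlkD.upd (BlkD.upd (BlkD.upd (BlkD.upd (BlkD.upd (BlkD.upd (BlkD.upd (fun _ => 20) 0 4) 2 4) 0 3) 1 17) 1 8) 1 4) 1 3) 2 2) = true := by
  decide +kernel

lemma n19_20_4_4_32 {n : ℕ} (hn : 6 ≤ n) : BlkD.NdX d19_20_4_4 (BlkD.exF 4 4 x19_20_4_4) n
    (BlkD.upd (BlkD.upd (fun _ => 0) 0 3) 1 3)
    (BlkD.upd (BlkD.upd (BlkD.upd (BlkD.upd (BlkD.upd (BlkD.upd (BlkD.upd (BlkD.upd (fun _ => 20) 0 4) 2 4) 0 3) 1 17) 1 8) 1 4) 1 3) 2 2) :=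
  BlkD.NdX.tree s19_20_4_4_32 ok19_20_4_4 (by decide) hn

/-- a subtree -/
def t19_20_4_4_33 : BlkD.Tr :=
  .S 2 3 (.S 3 11 (.S 3 5 (.S 3 2 (.S 3 1 (.L 5 5 [4, 4, 4, 5, 5] [54, 44, 34, 24, 0, 0] [] 100000
    20313 20313 962500 0 18750 18750 37500 56250 18750 25000) (.S 4 3 (.S 4 1 (.E 2) (.S 4 2 (.S 5
    2 (.S 5 1 (.S 5 0 (.L 5 5 [4, 4, 4, 5, 5] [44, 34, 24, 0, 0, 0] [14, 0, 0, 0, 0, 0] 100000 5000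
    5000 1040000 0 10000 20000 0 80000 80000 40000) (.E 9)) (.L 5 5 [4, 4, 4, 5, 5] [44, 34, 24, 0,
    0, 0] [34, 24, 14, 0, 0, 0] 100000 30000 30000 940000 0 0 0 80000 80000 0 40000)) (.E 2)) (.L 5
    5 [4, 4, 4, 5, 5] [54, 44, 34, 24, 0, 0] [34, 24, 14, 0, 0, 0] 100000 30000 30000 940000 0 0
    80000 0 0 80000 40000))) (.E 2))) (.S 3 4 (.S 3 3 (.S 4 3 (.S 4 1 (.E 2) (.S 4 2 (.S 5 3 (.S 5
    1 (.E 2) (.S 5 2 (.E 9) (.E 9))) (.E 2)) (.S 5 3 (.S 5 1 (.E 2) (.S 5 2 (.E 9) (.L 5 5 [4, 4,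
    4, 5, 5] [54, 44, 34, 24, 0, 0] [54, 44, 34, 24, 0, 0] 100000 90000 90000 600000 0 0 100000
    100000 0 0 40000))) (.E 2)))) (.E 2)) (.E 1)) (.E 1))) (.E 1)) (.E 1)) (.S 3 10 (.S 3 5 (.S 3 2
    (.S 3 1 (.L 5 5 [4, 4, 4, 5, 5] [54, 44, 34, 24, 0, 0] [] 100000 5000 5000 1040000 0 0 30000 0
    80000 80000 40000) (.S 4 3 (.S 4 1 (.E 2) (.S 4 2 (.S 5 2 (.S 5 1 (.E 2) (.E 9)) (.E 2)) (.S 5
    2 (.S 5 1 (.E 2) (.E 9)) (.E 2)))) (.E 2))) (.E 1)) (.E 1)) (.E 1))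

lemma s19_20_4_4_33 : BlkD.treeX d19_20_4_4 (BlkD.exF 4 4 x19_20_4_4) t19_20_4_4_33
    (BlkD.upd (BlkD.upd (BlkD.upd (fun _ => 0) 0 3) 1 3) 2 3)
    (BlkD.upd (BlkD.upd (BlkD.upd (BlkD.upd (BlkD.upd (BlkD.upd (BlkD.upd (fun _ => 20) 0 4) 2 4) 0 3) 1 17) 1 8) 1 4) 1 3) = true := by
  decide +kernel

lemma n19_20_4_4_33 {n : ℕ} (hn : 6 ≤ n) : BlkD.NdX d19_20_4_4 (BlkD.exF 4 4 x19_20_4_4) n
    (BlkD.upd (BlkD.upd (BlkD.upd (fun _ => 0) 0 3) 1 3) 2 3)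
    (BlkD.upd (BlkD.upd (BlkD.upd (BlkD.upd (BlkD.upd (BlkD.upd (BlkD.upd (fun _ => 20) 0 4) 2 4) 0 3) 1 17) 1 8) 1 4) 1 3) :=
  BlkD.NdX.tree s19_20_4_4_33 ok19_20_4_4 (by decide) hn

/-- a subtree -/
def t19_20_4_4_34 : BlkD.Tr :=
  .E 0

lemma s19_20_4_4_34 : BlkD.treeX d19_20_4_4 (BlkD.exF 4 4 x19_20_4_4) t19_20_4_4_34
    (BlkD.upd (BlkD.upd (BlkD.upd (fun _ => 0) 0 3) 1 3) 1 4)
    (BlkD.upd (BlkD.upd (BlkD.upd (BlkD.upd (BlkD.upd (BlkD.upd (fun _ => 20) 0 4) 2 4) 0 3) 1 17) 1 8) 1 4) = true := by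
  decide +kernel

lemma n19_20_4_4_34 {n : ℕ} (hn : 6 ≤ n) : BlkD.NdX d19_20_4_4 (BlkD.exF 4 4 x19_20_4_4) n
    (BlkD.upd (BlkD.upd (BlkD.upd (fun _ => 0) 0 3) 1 3) 1 4)
    (BlkD.upd (BlkD.upd (BlkD.upd (BlkD.upd (BlkD.upd (BlkD.upd (fun _ => 20) 0 4) 2 4) 0 3) 1 17) 1 8) 1 4) :=
  BlkD.NdX.tree s19_20_4_4_34 ok19_20_4_4 (by decide) hn

/-- a subtree -/
def t19_20_4_4_35 : BlkD.Tr :=
  .E 0

lemma s19_20_4_4_35 : BlkD.treeX d19_20_4_4 (BlkD.exF 4 4 x19_20_4_4) t19_20_4_4_35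
    (BlkD.upd (BlkD.upd (fun _ => 0) 0 3) 1 5)
    (BlkD.upd (BlkD.upd (BlkD.upd (BlkD.upd (BlkD.upd (fun _ => 20) 0 4) 2 4) 0 3) 1 17) 1 8) = true := by
  decide +kernel

lemma n19_20_4_4_35 {n : ℕ} (hn : 6 ≤ n) : BlkD.NdX d19_20_4_4 (BlkD.exF 4 4 x19_20_4_4) n
    (BlkD.upd (BlkD.upd (fun _ => 0) 0 3) 1 5)
    (BlkD.upd (BlkD.upd (BlkD.upd (BlkD.upd (BlkD.upd (fun _ => 20) 0 4) 2 4) 0 3) 1 17) 1 8) :=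
  BlkD.NdX.tree s19_20_4_4_35 ok19_20_4_4 (by decide) hn

/-- a subtree -/
def t19_20_4_4_36 : BlkD.Tr :=
  .E 0

lemma s19_20_4_4_36 : BlkD.treeX d19_20_4_4 (BlkD.exF 4 4 x19_20_4_4) t19_20_4_4_36
    (BlkD.upd (BlkD.upd (fun _ => 0) 0 3) 1 9)
    (BlkD.upd (BlkD.upd (BlkD.upd (BlkD.upd (fun _ => 20) 0 4) 2 4) 0 3) 1 17) = true := by
  decide +kernel

lemma n19_20_4_4_36 {n : ℕ} (hn : 6 ≤ n) : BlkD.NdX d19_20_4_4 (BlkD.exF 4 4 x19_20_4_4) n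
    (BlkD.upd (BlkD.upd (fun _ => 0) 0 3) 1 9)
    (BlkD.upd (BlkD.upd (BlkD.upd (BlkD.upd (fun _ => 20) 0 4) 2 4) 0 3) 1 17) :=
  BlkD.NdX.tree s19_20_4_4_36 ok19_20_4_4 (by decide) hn

/-- a subtree -/
def t19_20_4_4_37 : BlkD.Tr :=
  .E 0

lemma s19_20_4_4_37 : BlkD.treeX d19_20_4_4 (BlkD.exF 4 4 x19_20_4_4) t19_20_4_4_37
    (BlkD.upd (BlkD.upd (fun _ => 0) 0 3) 1 18)
    (BlkD.upd (BlkD.upd (BlkD.upd (fun _ => 20) 0 4) 2 4) 0 3) = true := by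
  decide +kernel

lemma n19_20_4_4_37 {n : ℕ} (hn : 6 ≤ n) : BlkD.NdX d19_20_4_4 (BlkD.exF 4 4 x19_20_4_4) n
    (BlkD.upd (BlkD.upd (fun _ => 0) 0 3) 1 18)
    (BlkD.upd (BlkD.upd (BlkD.upd (fun _ => 20) 0 4) 2 4) 0 3) :=
  BlkD.NdX.tree s19_20_4_4_37 ok19_20_4_4 (by decide) hn

/-- a subtree -/
def t19_20_4_4_38 : BlkD.Tr :=
  .S 1 16 (.S 1 8 (.S 1 4 (.S 1 2 (.S 1 1 (.S 1 0 (.L 5 5 [4, 4, 4, 5, 5] [0, 0, 0, 0, 0, 0] []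
    100000 18056 18056 1000002 0 0 0 47222 47222 27778 25000) (.S 2 2 (.S 2 1 (.L 5 5 [4, 4, 4, 5,
    5] [18, 8, 0, 0, 0, 0] [] 100000 21552 21552 989658 0 27586 0 27586 75862 20690 24138) (.S 3 13
    (.S 3 6 (.S 3 3 (.L 5 5 [4, 4, 4, 5, 5] [18, 8, 0, 0, 0, 0] [] 100000 20715 20715 957143 0
    14286 14286 31429 74286 17143 25714) (.L 5 5 [4, 4, 4, 5, 5] [18, 8, 0, 0, 0, 0] [] 100000 5000
    5000 1060000 20000 0 20000 20000 80000 80000 40000)) (.E 1)) (.E 1))) (.L 5 5 [4, 4, 4, 5, 5]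
    [18, 8, 0, 0, 0, 0] [] 100000 5000 5000 1040000 20000 0 20000 20000 80000 80000 40000))) (.S 2
    2 (.S 2 1 (.S 2 0 (.L 5 5 [4, 4, 4, 5, 5] [38, 28, 18, 0, 0, 0] [] 100000 58334 58334 580000 0
    0 20000 100000 0 0 13333) (.S 3 13 (.S 3 6 (.S 3 3 (.L 5 5 [4, 4, 4, 5, 5] [38, 28, 18, 0, 0,
    0] [] 100000 25000 25000 925000 0 25000 0 25000 75000 0 25000) (.S 3 5 (.S 3 4 (.S 4 2 (.S 4 1
    (.E 2) (.S 5 4 (.S 5 2 (.S 5 1 (.L 5 5 [4, 4, 4, 5, 5] [38, 28, 18, 0, 0, 0] [30, 20, 0, 0, 0,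
    0] 100000 50000 50000 800000 0 100000 0 16667 83333 16667 16667) (.L 5 5 [4, 4, 4, 5, 5] [38,
    28, 18, 0, 0, 0] [40, 30, 20, 0, 0, 0] 100000 30000 30000 940000 0 0 0 80000 80000 0 40000))
    (.L 5 5 [4, 4, 4, 5, 5] [38, 28, 18, 0, 0, 0] [54, 50, 40, 30, 20, 0] 100000 40000 40000 800000
    0 0 0 100000 80000 0 40000)) (.E 2))) (.E 2)) (.S 4 2 (.S 4 1 (.E 2) (.S 5 5 (.S 5 2 (.L 5 5
    [4, 4, 4, 5, 5] [38, 28, 18, 0, 0, 0] [50, 40, 30, 0, 0, 0] 100000 62500 62500 750000 0 100000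
    0 75000 50000 0 25000) (.S 5 4 (.L 7 7 [4, 5, 6, 3, 4] [38, 28, 18, 0, 0, 0] [64, 60, 50, 40,
    30, 0] 100000 75000 75000 700000 0 100000 0 100000 100000 0 0) (.L 7 7 [4, 5, 6, 3, 4] [38, 28,
    18, 0, 0, 0] [68, 64, 60, 50, 40, 30] 100000 82144 1 260714 0 0 28571 182143 0 0 10714))) (.E
    2))) (.E 2))) (.E 2))) (.E 1)) (.E 1))) (.S 3 12 (.S 3 6 (.S 3 3 (.S 3 1 (.L 7 7 [4, 5, 6, 3,
    4] [38, 28, 18, 0, 0, 0] [] 100000 25000 24999 866667 0 0 33333 0 33333 0 33333) (.S 3 2 (.L 7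
    7 [4, 5, 6, 3, 4] [38, 28, 18, 0, 0, 0] [30, 20, 10, 0, 0, 0] 100000 25000 24999 933334 0 33333
    0 33333 66667 0 33333) (.S 4 2 (.S 4 1 (.E 2) (.S 5 3 (.S 5 1 (.S 5 0 (.L 7 7 [4, 5, 6, 3, 4]
    [38, 28, 18, 0, 0, 0] [18, 0, 0, 0, 0, 0] 100000 5000 5000 1040000 0 20000 0 0 80000 80000
    40000) (.E 9)) (.L 7 7 [4, 5, 6, 3, 4] [38, 28, 18, 0, 0, 0] [48, 38, 28, 18, 0, 0] 100000
    30000 30000 940000 0 0 0 80000 80000 0 40000)) (.E 2))) (.E 2)))) (.S 3 5 (.S 3 4 (.S 4 2 (.S 4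
    1 (.E 2) (.S 5 4 (.S 5 2 (.S 5 1 (.S 5 0 (.E 2) (.E 9)) (.E 9)) (.S 5 3 (.E 9) (.L 7 7 [4, 5,
    6, 3, 4] [38, 28, 18, 0, 0, 0] [62, 58, 48, 38, 28, 0] 100000 40000 40000 800000 0 0 0 100000
    80000 0 40000))) (.E 2))) (.E 2)) (.E 2)) (.E 1))) (.E 1)) (.E 1))) (.S 2 3 (.S 3 11 (.S 3 5
    (.S 3 2 (.S 3 1 (.L 7 7 [4, 5, 6, 3, 4] [38, 28, 18, 0, 0, 0] [] 100000 21875 21875 950000 0
    37500 12500 50000 62500 12500 25000) (.S 4 2 (.S 4 1 (.E 2) (.S 5 2 (.S 5 1 (.S 5 0 (.L 7 7 [4,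
    5, 6, 3, 4] [38, 28, 18, 0, 0, 0] [14, 0, 0, 0, 0, 0] 100000 5000 5000 1040000 0 20000 10000 0
    80000 80000 40000) (.E 9)) (.L 7 7 [4, 5, 6, 3, 4] [38, 28, 18, 0, 0, 0] [34, 24, 14, 0, 0, 0]
    100000 30000 30000 940000 0 0 0 80000 80000 0 40000)) (.E 2))) (.E 2))) (.S 3 4 (.S 3 3 (.S 4 2
    (.S 4 1 (.E 2) (.S 5 3 (.S 5 1 (.E 2) (.S 5 2 (.E 9) (.E 9))) (.E 2))) (.E 2)) (.E 1)) (.E 1)))
    (.E 1)) (.E 1)) (.S 3 10 (.S 3 5 (.S 3 2 (.S 3 1 (.L 7 7 [4, 5, 6, 3, 4] [38, 28, 18, 0, 0, 0]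
    [] 100000 5000 5000 1040000 0 0 30000 0 80000 80000 40000) (.S 4 2 (.S 4 1 (.E 2) (.S 5 2 (.S 5
    1 (.E 2) (.E 9)) (.E 2))) (.E 2))) (.E 1)) (.E 1)) (.E 1))))) (.E 0)) (.E 0)) (.E 0)) (.E 0)

lemma s19_20_4_4_38 : BlkD.treeX d19_20_4_4 (BlkD.exF 4 4 x19_20_4_4) t19_20_4_4_38
    (BlkD.upd (BlkD.upd (fun _ => 0) 0 3) 0 4)
    (BlkD.upd (BlkD.upd (fun _ => 20) 0 4) 2 4) = true := by
  decide +kernel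

lemma n19_20_4_4_38 {n : ℕ} (hn : 6 ≤ n) : BlkD.NdX d19_20_4_4 (BlkD.exF 4 4 x19_20_4_4) n
    (BlkD.upd (BlkD.upd (fun _ => 0) 0 3) 0 4)
    (BlkD.upd (BlkD.upd (fun _ => 20) 0 4) 2 4) :=
  BlkD.NdX.tree s19_20_4_4_38 ok19_20_4_4 (by decide) hn

/-- a subtree -/
def t19_20_4_4_39 : BlkD.Tr :=
  .E 1

lemma s19_20_4_4_39 : BlkD.treeX d19_20_4_4 (BlkD.exF 4 4 x19_20_4_4) t19_20_4_4_39
    (BlkD.upd (fun _ => 0) 2 5)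
    (BlkD.upd (fun _ => 20) 0 4) = true := by
  decide +kernel

lemma n19_20_4_4_39 {n : ℕ} (hn : 6 ≤ n) : BlkD.NdX d19_20_4_4 (BlkD.exF 4 4 x19_20_4_4) n
    (BlkD.upd (fun _ => 0) 2 5)
    (BlkD.upd (fun _ => 20) 0 4) :=
  BlkD.NdX.tree s19_20_4_4_39 ok19_20_4_4 (by decide) hn

/-- a subtree -/
def t19_20_4_4_40 : BlkD.Tr :=
  .E 0

lemma s19_20_4_4_40 : BlkD.treeX d19_20_4_4 (BlkD.exF 4 4 x19_20_4_4) t19_20_4_4_40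
    (BlkD.upd (fun _ => 0) 0 5)
    (fun _ => 20) = true := by
  decide +kernel

lemma n19_20_4_4_40 {n : ℕ} (hn : 6 ≤ n) : BlkD.NdX d19_20_4_4 (BlkD.exF 4 4 x19_20_4_4) n
    (BlkD.upd (fun _ => 0) 0 5)
    (fun _ => 20) :=
  BlkD.NdX.tree s19_20_4_4_40 ok19_20_4_4 (by decide) hn

end BlkC

end Pool.Agent.Lib.MP_f04ccf_co
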