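import Pool.Agent.Lib.MP_f04ccf_co.M.BlkX19_20_5_4d

/-!
MP_f04ccf_co, block certificate with exceptions, `R = 19`, `H = 20`, the pair `(5, 4)` (data of helper99 / helper13,
generated by helper8, genx.py): the exceptions, part 1 of 1.
-/

set_option autoImplicit false
set_option maxRecDepth 100000

namespace Pool.Agent.Lib.MP_f04ccf_co

namespace BlkC

lemma e19_20_5_4_6_0 : EnPr.lall (fun l => EnPr.one 19 6 (5, 3, 7, 5) (5 :: 4 :: l))
    (EnPr.prof (6 - 2) 4 (20 - (6 + 1) - 5 - 4)) = true := by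
  decide +kernel

lemma e19_20_5_4_6_1 : EnPr.lall (fun l => EnPr.one 19 6 (5, 3, 7, 6) (5 :: 4 :: l))
    (EnPr.prof (6 - 2) 4 (20 - (6 + 1) - 5 - 4)) = true := by
  decide +kernel

lemma e19_20_5_4_7_0 : EnPr.lall (fun l => EnPr.one 19 7 (5, 3, 7, 5) (5 :: 4 :: l))
    (EnPr.prof (7 - 2) 4 (20 - (7 + 1) - 5 - 4)) = true := by
  decide +kernel

lemma e19_20_5_4_7_1 : EnPr.lall (fun l => EnPr.one 19 7 (5, 3, 7, 6) (5 :: 4 :: l))
    (EnPr.prof (7 - 2) 4 (20 - (7 + 1) - 5 - 4)) = true := by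
  decide +kernel

lemma e19_20_5_4_8_0 : EnPr.lall (fun l => EnPr.one 19 8 (5, 3, 7, 5) (5 :: 4 :: l))
    (EnPr.prof (8 - 2) 4 (20 - (8 + 1) - 5 - 4)) = true := by
  decide +kernel

lemma e19_20_5_4_8_1 : EnPr.lall (fun l => EnPr.one 19 8 (5, 3, 7, 6) (5 :: 4 :: l))
    (EnPr.prof (8 - 2) 4 (20 - (8 + 1) - 5 - 4)) = true := by
  decide +kernel

lemma e19_20_5_4_9_0 : EnPr.lall (fun l => EnPr.one 19 9 (5, 3, 7, 5) (5 :: 4 :: l))
    (EnPr.prof (9 - 2) 4 (20 - (9 + 1) - 5 - 4)) = true := by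
  decide +kernel

lemma e19_20_5_4_9_1 : EnPr.lall (fun l => EnPr.one 19 9 (5, 3, 7, 6) (5 :: 4 :: l))
    (EnPr.prof (9 - 2) 4 (20 - (9 + 1) - 5 - 4)) = true := by
  decide +kernel

lemma e19_20_5_4_10_0 : EnPr.lall (fun l => EnPr.one 19 10 (5, 3, 7, 5) (5 :: 4 :: l))
    (EnPr.prof (10 - 2) 4 (20 - (10 + 1) - 5 - 4)) = true := by
  decide +kernel

lemma e19_20_5_4_10_1 : EnPr.lall (fun l => EnPr.one 19 10 (5, 3, 7, 6) (5 :: 4 :: l))
    (EnPr.prof (10 - 2) 4 (20 - (10 + 1) - 5 - 4)) = true := by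
  decide +kernel

end BlkC

end Pool.Agent.Lib.MP_f04ccf_co
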