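import Pool.Agent.Lib.MP_f04ccf_co.M.BlkX19_20_5_4d

/-!
MP_f04ccf_co, block certificate with exceptions, `R = 19`, `H = 20`, the pair `(5, 4)` (data of helper99 / helper13,
generated by helper8, genx.py): part 1 of 1.
-/

set_option autoImplicit false
set_option maxRecDepth 100000

namespace Pool.Agent.Lib.MP_f04ccf_co

namespace BlkC

/-- a subtree -/
def t19_20_5_4_0 : BlkD.Tr :=
  .S 0 0 (.L 5 6 [4, 4, 4, 5, 5] [] [] 100000 95834 95834 800000 100000 0 100000 50000 0 0 16667)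
    (.S 1 10 (.S 1 5 (.L 5 6 [4, 4, 4, 5, 5] [] [] 100000 95834 95834 800000 100000 0 100000 50000
    0 0 16667) (.L 5 6 [4, 4, 4, 5, 5] [] [] 100000 95834 95834 800000 100000 0 100000 50000 0 0
    16667)) (.L 5 6 [4, 4, 4, 5, 5] [] [] 100000 95834 95834 800000 100000 0 100000 50000 0 0
    16667))

lemma s19_20_5_4_0 : BlkD.treeX d19_20_5_4 (BlkD.exF 5 4 x19_20_5_4) t19_20_5_4_0
    (fun _ => 0)
    (BlkD.upd (BlkD.upd (BlkD.upd (BlkD.upd (fun _ => 20) 0 5) 2 4) 0 2) 0 1) = true := by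
  decide +kernel

lemma n19_20_5_4_0 {n : ℕ} (hn : 6 ≤ n) : BlkD.NdX d19_20_5_4 (BlkD.exF 5 4 x19_20_5_4) n
    (fun _ => 0)
    (BlkD.upd (BlkD.upd (BlkD.upd (BlkD.upd (fun _ => 20) 0 5) 2 4) 0 2) 0 1) :=
  BlkD.NdX.tree s19_20_5_4_0 ok19_20_5_4 (by decide) hn

/-- a subtree -/
def t19_20_5_4_1 : BlkD.Tr :=
  .L 5 6 [4, 4, 4, 5, 5] [] [] 100000 33846 33846 986157 13846 0 13846 43077 0 18462 27692

lemma s19_20_5_4_1 : BlkD.treeX d19_20_5_4 (BlkD.exF 5 4 x19_20_5_4) t19_20_5_4_1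
    (BlkD.upd (fun _ => 0) 0 2)
    (BlkD.upd (BlkD.upd (BlkD.upd (BlkD.upd (BlkD.upd (BlkD.upd (BlkD.upd (fun _ => 20) 0 5) 2 4) 0 2) 1 18) 1 9) 1 4) 1 2) = true := by
  decide +kernel

lemma n19_20_5_4_1 {n : ℕ} (hn : 6 ≤ n) : BlkD.NdX d19_20_5_4 (BlkD.exF 5 4 x19_20_5_4) n
    (BlkD.upd (fun _ => 0) 0 2)
    (BlkD.upd (BlkD.upd (BlkD.upd (BlkD.upd (BlkD.upd (BlkD.upd (BlkD.upd (fun _ => 20) 0 5) 2 4) 0 2) 1 18) 1 9) 1 4) 1 2) :=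
  BlkD.NdX.tree s19_20_5_4_1 ok19_20_5_4 (by decide) hn

/-- a subtree -/
def t19_20_5_4_2 : BlkD.Tr :=
  .S 2 2 (.S 2 1 (.S 2 0 (.L 5 6 [4, 4, 4, 5, 5] [48, 38, 28, 18, 0, 0] [] 100000 50000 50000
    700000 0 0 0 100000 0 0 0) (.S 3 14 (.S 3 7 (.S 3 3 (.L 5 6 [4, 4, 4, 5, 5] [48, 38, 28, 18, 0,
    0] [] 100000 50000 50000 900000 0 0 0 0 0 0 0) (.S 3 5 (.S 3 4 (.L 5 6 [4, 4, 4, 5, 5] [48, 38,
    28, 18, 0, 0] [58, 50, 40, 30, 20, 0] 100000 41667 41667 977778 11111 11111 11111 11111 0 0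
    33333) (.L 5 6 [4, 4, 4, 5, 5] [48, 38, 28, 18, 0, 0] [70, 68, 60, 50, 40, 30] 100000 28309
    28309 1067648 13235 2941 13235 33824 0 41176 25000)) (.S 3 6 (.S 4 3 (.S 4 1 (.S 4 0 (.S 5 6
    (.S 5 3 (.E 2) (.S 5 5 (.S 5 4 (.E 9) (.L 5 6 [4, 4, 4, 5, 5] [18, 0, 0, 0, 0, 0] [82, 80, 72,
    62, 52, 42] 100000 50000 50000 900000 0 0 0 100000 0 0 0)) (.L 5 6 [4, 4, 4, 5, 5] [18, 0, 0,
    0, 0, 0] [84, 82, 80, 72, 62, 52] 100000 83334 1 433334 16667 0 0 183333 0 0 0))) (.E 2)) (.L 5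
    6 [4, 4, 4, 5, 5] [28, 18, 0, 0, 0, 0] [84, 82, 80, 72, 62, 52] 100000 50000 50000 940000 0 0
    60000 100000 0 0 20000)) (.L 5 6 [4, 4, 4, 5, 5] [48, 38, 28, 18, 0, 0] [84, 82, 80, 72, 62,
    52] 100000 50000 50000 880000 0 0 60000 100000 0 0 20000)) (.E 2)) (.E 1)))) (.E 1)) (.E 1)))
    (.S 3 13 (.S 3 6 (.S 3 3 (.L 5 6 [4, 4, 4, 5, 5] [48, 38, 28, 18, 0, 0] [] 100000 37013 37013
    998704 13636 0 13636 37662 0 12338 27273) (.S 3 5 (.S 3 4 (.L 5 6 [4, 4, 4, 5, 5] [48, 38, 28,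
    18, 0, 0] [66, 58, 48, 38, 28, 0] 100000 28750 28750 1055000 15000 0 15000 35000 0 40000 25000)
    (.S 4 3 (.S 4 1 (.S 4 0 (.S 5 5 (.S 5 2 (.E 2) (.S 5 4 (.S 5 3 (.E 2) (.E 9)) (.L 5 6 [4, 4, 4,
    5, 5] [18, 0, 0, 0, 0, 0] [80, 78, 70, 60, 50, 40] 100000 125000 124999 600000 100000 0 0
    100000 0 0 8333))) (.E 2)) (.L 5 6 [4, 4, 4, 5, 5] [28, 18, 0, 0, 0, 0] [80, 78, 70, 60, 50,
    40] 100000 50000 50000 940000 0 0 60000 100000 0 0 20000)) (.L 5 6 [4, 4, 4, 5, 5] [48, 38, 28,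
    18, 0, 0] [80, 78, 70, 60, 50, 40] 100000 75000 75000 800000 0 0 100000 100000 0 0 0)) (.E 2)))
    (.E 1))) (.E 1)) (.E 1))) (.L 5 6 [4, 4, 4, 5, 5] [48, 38, 28, 18, 0, 0] [] 100000 29167 29167
    1050000 16667 0 16667 33333 0 66667 33333)

lemma s19_20_5_4_2 : BlkD.treeX d19_20_5_4 (BlkD.exF 5 4 x19_20_5_4) t19_20_5_4_2
    (BlkD.upd (BlkD.upd (fun _ => 0) 0 2) 1 3)
    (BlkD.upd (BlkD.upd (BlkD.upd (BlkD.upd (BlkD.upd (BlkD.upd (BlkD.upd (fun _ => 20) 0 5) 2 4) 0 2) 1 18) 1 9) 1 4) 1 3) = true := by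
  decide +kernel

lemma n19_20_5_4_2 {n : ℕ} (hn : 6 ≤ n) : BlkD.NdX d19_20_5_4 (BlkD.exF 5 4 x19_20_5_4) n
    (BlkD.upd (BlkD.upd (fun _ => 0) 0 2) 1 3)
    (BlkD.upd (BlkD.upd (BlkD.upd (BlkD.upd (BlkD.upd (BlkD.upd (BlkD.upd (fun _ => 20) 0 5) 2 4) 0 2) 1 18) 1 9) 1 4) 1 3) :=
  BlkD.NdX.tree s19_20_5_4_2 ok19_20_5_4 (by decide) hn

/-- a subtree -/
def t19_20_5_4_3 : BlkD.Tr :=
  .S 2 2 (.S 2 1 (.S 2 0 (.L 5 6 [4, 4, 4, 5, 5] [68, 58, 48, 38, 28, 0] [] 100000 50000 50000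
    780000 0 0 20000 100000 0 0 0) (.S 3 13 (.S 3 6 (.S 3 3 (.L 5 6 [4, 4, 4, 5, 5] [68, 58, 48,
    38, 28, 0] [] 100000 42857 42856 971429 0 28571 28571 28571 0 0 28571) (.S 3 5 (.S 3 4 (.S 4 4
    (.S 4 2 (.L 7 7 [4, 4, 4, 4, 4] [48, 38, 28, 0, 0, 0] [58, 50, 40, 30, 20, 0] 100000 42825
    42825 1025271 12996 25632 38628 40794 2166 2527 19314) (.L 7 7 [4, 4, 4, 4, 4] [68, 58, 48, 38,
    28, 0] [58, 50, 40, 30, 20, 0] 100000 37500 37500 920000 0 0 90000 45000 0 15000 20000)) (.E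
    2)) (.S 4 4 (.S 4 2 (.S 4 1 (.L 1 1 [9, 12, 14, 16, 15] [38, 28, 0, 0, 0, 0] [70, 68, 60, 50,
    40, 30] 100000 37500 37500 1025000 0 50000 25000 62500 50000 12500 25000) (.L 1 1 [9, 12, 14,
    16, 15] [48, 38, 28, 0, 0, 0] [70, 68, 60, 50, 40, 30] 100000 27679 27679 1042858 0 0 78571
    39286 0 39286 25000)) (.L 1 1 [9, 12, 14, 16, 15] [68, 58, 48, 38, 28, 0] [70, 68, 60, 50, 40,
    30] 100000 45834 45834 900000 0 0 100000 50000 0 0 16667)) (.E 2))) (.S 4 4 (.S 4 2 (.S 4 1 (.L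
    1 1 [9, 12, 14, 16, 15] [38, 28, 0, 0, 0, 0] [84, 82, 80, 72, 62, 52] 100000 33333 33332
    1054168 0 33333 12500 83333 62500 0 25000) (.L 1 1 [9, 12, 14, 16, 15] [48, 38, 28, 0, 0, 0]
    [84, 82, 80, 72, 62, 52] 100000 68750 68750 900000 25000 0 100000 75000 0 0 25000)) (.L 1 1 [9,
    12, 14, 16, 15] [68, 58, 48, 38, 28, 0] [84, 82, 80, 72, 62, 52] 100000 59375 46875 812500 0 0
    112500 75000 0 0 25000)) (.E 2)))) (.E 1)) (.E 1))) (.S 3 12 (.S 3 6 (.S 3 3 (.S 3 1 (.L 1 1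
    [9, 12, 14, 16, 15] [68, 58, 48, 38, 28, 0] [] 100000 50000 50000 900000 0 0 0 0 0 0 0) (.S 3 2
    (.L 1 1 [9, 12, 14, 16, 15] [68, 58, 48, 38, 28, 0] [30, 20, 10, 0, 0, 0] 100000 37500 37500
    1000000 0 0 0 0 0 0 50000) (.S 4 4 (.S 4 2 (.S 4 1 (.L 5 6 [4, 4, 4, 5, 5] [38, 28, 0, 0, 0, 0]
    [48, 38, 28, 18, 0, 0] 100000 30358 30358 1057144 21429 0 42857 42857 21429 7143 21429) (.L 5 6
    [4, 4, 4, 5, 5] [48, 38, 28, 0, 0, 0] [48, 38, 28, 18, 0, 0] 100000 41964 41963 982143 17857 0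
    82143 39286 0 7143 17857)) (.L 5 6 [4, 4, 4, 5, 5] [68, 58, 48, 38, 28, 0] [48, 38, 28, 18, 0,
    0] 100000 40196 34314 888238 0 0 105882 35294 0 11765 15686)) (.E 2)))) (.S 3 5 (.S 3 4 (.S 4 4
    (.S 4 2 (.S 4 1 (.L 5 6 [4, 4, 4, 5, 5] [38, 28, 0, 0, 0, 0] [66, 58, 48, 38, 28, 0] 100000
    17500 17500 1117500 22500 0 45000 30000 30000 45000 25000) (.L 5 6 [4, 4, 4, 5, 5] [48, 38, 28,
    0, 0, 0] [66, 58, 48, 38, 28, 0] 100000 25000 25000 1050000 0 0 75000 37500 0 50000 25000)) (.L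
    5 6 [4, 4, 4, 5, 5] [68, 58, 48, 38, 28, 0] [66, 58, 48, 38, 28, 0] 100000 50000 50000 900000 0
    0 100000 50000 0 0 0)) (.E 2)) (.S 4 4 (.S 4 2 (.S 4 1 (.L 5 6 [4, 4, 4, 5, 5] [38, 28, 0, 0,
    0, 0] [80, 78, 70, 60, 50, 40] 100000 75000 75000 875000 68750 0 68750 75000 75000 0 25000) (.L
    5 6 [4, 4, 4, 5, 5] [48, 38, 28, 0, 0, 0] [80, 78, 70, 60, 50, 40] 100000 56250 56250 950000 0
    0 75000 100000 0 0 25000)) (.L 5 6 [4, 4, 4, 5, 5] [68, 58, 48, 38, 28, 0] [80, 78, 70, 60, 50,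
    40] 100000 59375 46875 812500 0 0 112500 75000 0 0 25000)) (.E 2))) (.E 1))) (.E 1)) (.E 1)))
    (.S 2 3 (.S 3 11 (.S 3 5 (.S 3 2 (.L 5 6 [4, 4, 4, 5, 5] [68, 58, 48, 38, 28, 0] [] 100000
    26667 26667 1073336 13333 0 46667 26667 6667 26667 26667) (.S 3 4 (.S 3 3 (.S 4 4 (.S 4 2 (.S 4
    1 (.L 5 6 [4, 4, 4, 5, 5] [38, 28, 0, 0, 0, 0] [54, 44, 34, 24, 0, 0] 100000 19445 19445
    1088890 22222 0 44444 33333 22222 44444 22222) (.L 5 6 [4, 4, 4, 5, 5] [48, 38, 28, 0, 0, 0]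
    [54, 44, 34, 24, 0, 0] 100000 25000 25000 1000000 0 0 100000 0 0 50000 25000)) (.L 5 6 [4, 4,
    4, 5, 5] [68, 58, 48, 38, 28, 0] [54, 44, 34, 24, 0, 0] 100000 40000 0 780000 0 0 140000 0 0
    20000 20000)) (.E 2)) (.E 1)) (.E 1))) (.E 1)) (.E 1)) (.L 5 6 [4, 4, 4, 5, 5] [68, 58, 48, 38,
    28, 0] [] 100000 25000 24999 1087038 23148 0 62037 20370 12963 59259 20370))

lemma s19_20_5_4_3 : BlkD.treeX d19_20_5_4 (BlkD.exF 5 4 x19_20_5_4) t19_20_5_4_3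
    (BlkD.upd (BlkD.upd (BlkD.upd (fun _ => 0) 0 2) 1 3) 1 4)
    (BlkD.upd (BlkD.upd (BlkD.upd (BlkD.upd (BlkD.upd (BlkD.upd (fun _ => 20) 0 5) 2 4) 0 2) 1 18) 1 9) 1 4) = true := by
  decide +kernel

lemma n19_20_5_4_3 {n : ℕ} (hn : 6 ≤ n) : BlkD.NdX d19_20_5_4 (BlkD.exF 5 4 x19_20_5_4) n
    (BlkD.upd (BlkD.upd (BlkD.upd (fun _ => 0) 0 2) 1 3) 1 4)
    (BlkD.upd (BlkD.upd (BlkD.upd (BlkD.upd (BlkD.upd (BlkD.upd (fun _ => 20) 0 5) 2 4) 0 2) 1 18) 1 9) 1 4) :=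
  BlkD.NdX.tree s19_20_5_4_3 ok19_20_5_4 (by decide) hn

/-- a subtree -/
def t19_20_5_4_4 : BlkD.Tr :=
  .S 2 1 (.S 2 0 (.L 5 6 [4, 4, 4, 5, 5] [88, 80, 70, 60, 50, 40] [] 100000 50000 50000 750000 0 0
    50000 100000 0 0 0) (.S 3 12 (.S 3 6 (.S 3 3 (.S 3 1 (.L 5 6 [4, 4, 4, 5, 5] [88, 80, 70, 60,
    50, 40] [] 100000 50000 50000 900000 0 0 0 0 0 0 0) (.S 3 2 (.L 5 6 [4, 4, 4, 5, 5] [88, 80,
    70, 60, 50, 40] [26, 16, 6, 0, 0, 0] 100000 41667 41667 966667 0 33333 33333 33333 0 0 33333)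
    (.L 7 7 [4, 4, 4, 4, 4] [88, 80, 70, 60, 50, 40] [42, 32, 22, 12, 0, 0] 100000 42434 42434
    1027635 12719 25000 40789 40351 2632 3070 18860))) (.S 3 5 (.S 3 4 (.S 4 5 (.S 4 2 (.L 1 1 [9,
    12, 14, 16, 15] [60, 50, 40, 0, 0, 0] [58, 50, 40, 30, 20, 0] 100000 34091 34090 1050000 0
    40909 27273 61364 54545 6818 22727) (.L 1 1 [9, 12, 14, 16, 15] [88, 80, 70, 60, 50, 40] [58,
    50, 40, 30, 20, 0] 100000 37500 37500 1020000 0 0 90000 45000 0 15000 20000)) (.E 2)) (.S 4 5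
    (.S 4 2 (.L 1 1 [9, 12, 14, 16, 15] [60, 50, 40, 0, 0, 0] [70, 68, 60, 50, 40, 30] 100000 55357
    55357 971430 0 73214 17857 82143 57143 17857 25000) (.L 1 1 [9, 12, 14, 16, 15] [88, 80, 70,
    60, 50, 40] [70, 68, 60, 50, 40, 30] 100000 43750 43750 1000000 0 0 100000 50000 0 25000
    25000)) (.E 2))) (.L 1 1 [9, 12, 14, 16, 15] [88, 80, 70, 60, 50, 40] [84, 82, 80, 72, 62, 52]
    100000 118750 118750 700000 0 100000 100000 100000 0 0 25000))) (.E 1)) (.E 1))) (.S 3 11 (.S 3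
    5 (.S 3 2 (.S 3 1 (.L 1 1 [9, 12, 14, 16, 15] [88, 80, 70, 60, 50, 40] [] 100000 33929 33929
    1007144 0 0 42857 0 7143 0 50000) (.S 4 5 (.S 4 2 (.L 5 6 [4, 4, 4, 5, 5] [60, 50, 40, 0, 0, 0]
    [30, 20, 10, 0, 0, 0] 100000 22858 22858 1082857 17143 0 34286 42857 34286 8571 22857) (.L 5 6
    [4, 4, 4, 5, 5] [88, 80, 70, 60, 50, 40] [30, 20, 10, 0, 0, 0] 100000 42501 42501 986666 6667 0
    100000 31667 0 8333 13333)) (.E 2))) (.S 3 4 (.S 3 3 (.S 4 5 (.S 4 2 (.S 4 1 (.L 5 6 [4, 4, 4,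
    5, 5] [50, 40, 0, 0, 0, 0] [48, 38, 28, 18, 0, 0] 100000 30000 30000 1040000 40000 0 40000
    40000 20000 40000 20000) (.S 5 3 (.S 5 1 (.L 5 6 [4, 4, 4, 5, 5] [60, 50, 40, 0, 0, 0] [28, 18,
    0, 0, 0, 0] 100000 33333 33332 987880 42424 0 84848 0 0 63636 21212) (.L 5 6 [4, 4, 4, 5, 5]
    [60, 50, 40, 0, 0, 0] [48, 38, 28, 18, 0, 0] 100000 23215 23215 1078572 14286 0 35714 57143
    42857 7143 21429)) (.E 2))) (.L 5 6 [4, 4, 4, 5, 5] [88, 80, 70, 60, 50, 40] [48, 38, 28, 18,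
    0, 0] 100000 40766 40766 994596 2703 0 100000 35135 0 10811 15315)) (.E 2)) (.S 4 5 (.S 4 2 (.S
    4 1 (.L 3 3 [4, 6, 7, 8, 9] [50, 40, 0, 0, 0, 0] [66, 58, 48, 38, 28, 0] 100000 47826 47825
    1004347 54348 0 54348 23913 17391 71739 23913) (.S 5 4 (.S 5 2 (.L 3 3 [4, 6, 7, 8, 9] [60, 50,
    40, 0, 0, 0] [48, 38, 28, 0, 0, 0] 100000 36667 36667 1030001 23333 0 100000 0 0 43333 20000)
    (.L 3 3 [4, 6, 7, 8, 9] [60, 50, 40, 0, 0, 0] [66, 58, 48, 38, 28, 0] 100000 25000 25000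
    1087500 0 0 12500 100000 62500 0 25000)) (.E 2))) (.L 3 3 [4, 6, 7, 8, 9] [88, 80, 70, 60, 50,
    40] [66, 58, 48, 38, 28, 0] 100000 43750 43750 1000000 0 0 100000 50000 0 25000 25000)) (.E
    2))) (.L 3 3 [4, 6, 7, 8, 9] [88, 80, 70, 60, 50, 40] [80, 78, 70, 60, 50, 40] 100000 68750
    68750 900000 0 0 100000 100000 0 0 25000))) (.E 1)) (.E 1))

lemma s19_20_5_4_4 : BlkD.treeX d19_20_5_4 (BlkD.exF 5 4 x19_20_5_4) t19_20_5_4_4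
    (BlkD.upd (BlkD.upd (fun _ => 0) 0 2) 1 5)
    (BlkD.upd (BlkD.upd (BlkD.upd (BlkD.upd (BlkD.upd (BlkD.upd (BlkD.upd (BlkD.upd (BlkD.upd (fun _ => 20) 0 5) 2 4) 0 2) 1 18) 1 9) 1 7) 1 6) 1 5) 2 2) = true := by
  decide +kernel

lemma n19_20_5_4_4 {n : ℕ} (hn : 6 ≤ n) : BlkD.NdX d19_20_5_4 (BlkD.exF 5 4 x19_20_5_4) n
    (BlkD.upd (BlkD.upd (fun _ => 0) 0 2) 1 5)
    (BlkD.upd (BlkD.upd (BlkD.upd (BlkD.upd (BlkD.upd (BlkD.upd (BlkD.upd (BlkD.upd (BlkD.upd (fun _ => 20) 0 5) 2 4) 0 2) 1 18) 1 9) 1 7) 1 6) 1 5) 2 2) :=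
  BlkD.NdX.tree s19_20_5_4_4 ok19_20_5_4 (by decide) hn

/-- a subtree -/
def t19_20_5_4_5 : BlkD.Tr :=
  .S 2 3 (.S 3 10 (.S 3 5 (.S 3 2 (.S 3 1 (.L 5 6 [4, 4, 4, 5, 5] [88, 80, 70, 60, 50, 40] []
    100000 31309 31309 1058878 20561 1869 42991 24299 3738 22430 22430) (.S 4 5 (.S 4 2 (.L 5 6 [4,
    4, 4, 5, 5] [60, 50, 40, 0, 0, 0] [34, 24, 14, 0, 0, 0] 100000 18808 18808 1100918 24771 0
    41284 33028 33028 41284 22936) (.L 5 6 [4, 4, 4, 5, 5] [88, 80, 70, 60, 50, 40] [34, 24, 14, 0,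
    0, 0] 100000 25000 25000 1000000 0 0 100000 0 0 50000 25000)) (.E 2))) (.S 3 4 (.S 3 3 (.S 4 5
    (.S 4 2 (.L 5 6 [4, 4, 4, 5, 5] [60, 50, 40, 0, 0, 0] [54, 44, 34, 24, 0, 0] 100000 15625 15625
    1131250 18750 0 37500 37500 37500 37500 25000) (.L 5 6 [4, 4, 4, 5, 5] [88, 80, 70, 60, 50, 40]
    [54, 44, 34, 24, 0, 0] 100000 25000 25000 1000000 0 0 100000 0 0 50000 25000)) (.E 2)) (.E 1))
    (.E 1))) (.E 1)) (.E 1)) (.S 3 9 (.S 3 4 (.S 3 2 (.L 5 6 [4, 4, 4, 5, 5] [88, 80, 70, 60, 50,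
    40] [] 100000 51755 51755 988597 55263 0 64035 17544 1754 60526 21930) (.E 1)) (.E 1)) (.E 1))

lemma s19_20_5_4_5 : BlkD.treeX d19_20_5_4 (BlkD.exF 5 4 x19_20_5_4) t19_20_5_4_5
    (BlkD.upd (BlkD.upd (BlkD.upd (fun _ => 0) 0 2) 1 5) 2 3)
    (BlkD.upd (BlkD.upd (BlkD.upd (BlkD.upd (BlkD.upd (BlkD.upd (BlkD.upd (BlkD.upd (fun _ => 20) 0 5) 2 4) 0 2) 1 18) 1 9) 1 7) 1 6) 1 5) = true := by
  decide +kernel

lemma n19_20_5_4_5 {n : ℕ} (hn : 6 ≤ n) : BlkD.NdX d19_20_5_4 (BlkD.exF 5 4 x19_20_5_4) n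
    (BlkD.upd (BlkD.upd (BlkD.upd (fun _ => 0) 0 2) 1 5) 2 3)
    (BlkD.upd (BlkD.upd (BlkD.upd (BlkD.upd (BlkD.upd (BlkD.upd (BlkD.upd (BlkD.upd (fun _ => 20) 0 5) 2 4) 0 2) 1 18) 1 9) 1 7) 1 6) 1 5) :=
  BlkD.NdX.tree s19_20_5_4_5 ok19_20_5_4 (by decide) hn

/-- a subtree -/
def t19_20_5_4_6 : BlkD.Tr :=
  .S 2 2 (.S 2 1 (.S 2 0 (.L 5 6 [4, 4, 4, 5, 5] [104, 102, 94, 84, 74, 64] [] 100000 50000 50000
    750000 0 0 50000 100000 0 0 0) (.S 3 11 (.S 3 5 (.S 3 2 (.L 5 6 [4, 4, 4, 5, 5] [104, 102, 94,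
    84, 74, 64] [] 100000 33767 33767 1000651 9091 9091 72078 18182 23377 0 18182) (.S 3 4 (.S 3 3
    (.L 1 1 [9, 12, 14, 16, 15] [104, 102, 94, 84, 74, 64] [42, 32, 22, 12, 0, 0] 100000 78432
    78432 882356 0 79085 80392 81046 16340 654 7190) (.S 4 6 (.S 4 3 (.L 1 1 [9, 12, 14, 16, 15]
    [84, 74, 64, 54, 0, 0] [58, 50, 40, 30, 20, 0] 100000 46875 46875 1003125 0 62500 15625 78125
    59375 15625 25000) (.L 1 1 [9, 12, 14, 16, 15] [104, 102, 94, 84, 74, 64] [58, 50, 40, 30, 20,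
    0] 100000 44445 44445 1000002 0 0 100000 50000 0 16667 22222)) (.E 2))) (.L 1 1 [9, 12, 14, 16,
    15] [104, 102, 94, 84, 74, 64] [70, 68, 60, 50, 40, 30] 100000 93750 93750 800000 0 50000
    100000 100000 0 0 25000))) (.E 2)) (.E 1))) (.S 3 10 (.S 3 5 (.S 3 2 (.S 3 1 (.L 1 1 [9, 12,
    14, 16, 15] [104, 102, 94, 84, 74, 64] [] 100000 32857 32857 1014288 0 0 85714 0 34286 0 20000)
    (.S 4 6 (.S 4 3 (.L 5 6 [4, 4, 4, 5, 5] [84, 74, 64, 54, 0, 0] [30, 20, 10, 0, 0, 0] 100000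
    25000 25000 1075000 25000 0 50000 25000 25000 0 25000) (.L 5 6 [4, 4, 4, 5, 5] [104, 102, 94,
    84, 74, 64] [30, 20, 10, 0, 0, 0] 100000 41965 41965 985716 7143 0 100000 33929 0 8929 14286))
    (.E 2))) (.S 3 4 (.S 3 3 (.S 4 6 (.S 4 3 (.L 5 6 [4, 4, 4, 5, 5] [84, 74, 64, 54, 0, 0] [48,
    38, 28, 18, 0, 0] 100000 21053 21053 1094738 15789 0 63158 31579 15789 31579 21053) (.L 5 6 [4,
    4, 4, 5, 5] [104, 102, 94, 84, 74, 64] [48, 38, 28, 18, 0, 0] 100000 40761 40760 991306 4348 0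
    100000 34783 0 10870 15217)) (.E 2)) (.L 5 6 [4, 4, 4, 5, 5] [104, 102, 94, 84, 74, 64] [66,
    58, 48, 38, 28, 0] 100000 30556 30556 1055556 11111 0 100000 11111 0 55556 22222)) (.E 2))) (.E
    1)) (.E 1))) (.L 5 6 [4, 4, 4, 5, 5] [104, 102, 94, 84, 74, 64] [] 100000 25001 25001 1082353
    5882 0 94118 11765 2941 58824 23529)

lemma s19_20_5_4_6 : BlkD.treeX d19_20_5_4 (BlkD.exF 5 4 x19_20_5_4) t19_20_5_4_6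
    (BlkD.upd (BlkD.upd (BlkD.upd (fun _ => 0) 0 2) 1 5) 1 6)
    (BlkD.upd (BlkD.upd (BlkD.upd (BlkD.upd (BlkD.upd (BlkD.upd (BlkD.upd (fun _ => 20) 0 5) 2 4) 0 2) 1 18) 1 9) 1 7) 1 6) = true := by
  decide +kernel

lemma n19_20_5_4_6 {n : ℕ} (hn : 6 ≤ n) : BlkD.NdX d19_20_5_4 (BlkD.exF 5 4 x19_20_5_4) n
    (BlkD.upd (BlkD.upd (BlkD.upd (fun _ => 0) 0 2) 1 5) 1 6)
    (BlkD.upd (BlkD.upd (BlkD.upd (BlkD.upd (BlkD.upd (BlkD.upd (BlkD.upd (fun _ => 20) 0 5) 2 4) 0 2) 1 18) 1 9) 1 7) 1 6) :=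
  BlkD.NdX.tree s19_20_5_4_6 ok19_20_5_4 (by decide) hn

/-- a subtree -/
def t19_20_5_4_7 : BlkD.Tr :=
  .L 5 6 [4, 4, 4, 5, 5] [120, 120, 118, 110, 100, 90] [] 100000 44792 44792 1000000 0 0 100000
    50000 0 12500 20833

lemma s19_20_5_4_7 : BlkD.treeX d19_20_5_4 (BlkD.exF 5 4 x19_20_5_4) t19_20_5_4_7
    (BlkD.upd (BlkD.upd (BlkD.upd (fun _ => 0) 0 2) 1 5) 1 7)
    (BlkD.upd (BlkD.upd (BlkD.upd (BlkD.upd (BlkD.upd (BlkD.upd (fun _ => 20) 0 5) 2 4) 0 2) 1 18) 1 9) 1 7) = true := by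
  decide +kernel

lemma n19_20_5_4_7 {n : ℕ} (hn : 6 ≤ n) : BlkD.NdX d19_20_5_4 (BlkD.exF 5 4 x19_20_5_4) n
    (BlkD.upd (BlkD.upd (BlkD.upd (fun _ => 0) 0 2) 1 5) 1 7)
    (BlkD.upd (BlkD.upd (BlkD.upd (BlkD.upd (BlkD.upd (BlkD.upd (fun _ => 20) 0 5) 2 4) 0 2) 1 18) 1 9) 1 7) :=
  BlkD.NdX.tree s19_20_5_4_7 ok19_20_5_4 (by decide) hn

/-- a subtree -/
def t19_20_5_4_8 : BlkD.Tr :=
  .E 0

lemma s19_20_5_4_8 : BlkD.treeX d19_20_5_4 (BlkD.exF 5 4 x19_20_5_4) t19_20_5_4_8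
    (BlkD.upd (BlkD.upd (BlkD.upd (fun _ => 0) 0 2) 1 5) 1 8)
    (BlkD.upd (BlkD.upd (BlkD.upd (BlkD.upd (BlkD.upd (fun _ => 20) 0 5) 2 4) 0 2) 1 18) 1 9) = true := by
  decide +kernel

lemma n19_20_5_4_8 {n : ℕ} (hn : 6 ≤ n) : BlkD.NdX d19_20_5_4 (BlkD.exF 5 4 x19_20_5_4) n
    (BlkD.upd (BlkD.upd (BlkD.upd (fun _ => 0) 0 2) 1 5) 1 8)
    (BlkD.upd (BlkD.upd (BlkD.upd (BlkD.upd (BlkD.upd (fun _ => 20) 0 5) 2 4) 0 2) 1 18) 1 9) :=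
  BlkD.NdX.tree s19_20_5_4_8 ok19_20_5_4 (by decide) hn

/-- a subtree -/
def t19_20_5_4_9 : BlkD.Tr :=
  .E 0

lemma s19_20_5_4_9 : BlkD.treeX d19_20_5_4 (BlkD.exF 5 4 x19_20_5_4) t19_20_5_4_9
    (BlkD.upd (BlkD.upd (fun _ => 0) 0 2) 1 10)
    (BlkD.upd (BlkD.upd (BlkD.upd (BlkD.upd (fun _ => 20) 0 5) 2 4) 0 2) 1 18) = true := by
  decide +kernel

lemma n19_20_5_4_9 {n : ℕ} (hn : 6 ≤ n) : BlkD.NdX d19_20_5_4 (BlkD.exF 5 4 x19_20_5_4) n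
    (BlkD.upd (BlkD.upd (fun _ => 0) 0 2) 1 10)
    (BlkD.upd (BlkD.upd (BlkD.upd (BlkD.upd (fun _ => 20) 0 5) 2 4) 0 2) 1 18) :=
  BlkD.NdX.tree s19_20_5_4_9 ok19_20_5_4 (by decide) hn

/-- a subtree -/
def t19_20_5_4_10 : BlkD.Tr :=
  .E 0

lemma s19_20_5_4_10 : BlkD.treeX d19_20_5_4 (BlkD.exF 5 4 x19_20_5_4) t19_20_5_4_10
    (BlkD.upd (BlkD.upd (fun _ => 0) 0 2) 1 19)
    (BlkD.upd (BlkD.upd (BlkD.upd (fun _ => 20) 0 5) 2 4) 0 2) = true := by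
  decide +kernel

lemma n19_20_5_4_10 {n : ℕ} (hn : 6 ≤ n) : BlkD.NdX d19_20_5_4 (BlkD.exF 5 4 x19_20_5_4) n
    (BlkD.upd (BlkD.upd (fun _ => 0) 0 2) 1 19)
    (BlkD.upd (BlkD.upd (BlkD.upd (fun _ => 20) 0 5) 2 4) 0 2) :=
  BlkD.NdX.tree s19_20_5_4_10 ok19_20_5_4 (by decide) hn

/-- a subtree -/
def t19_20_5_4_11 : BlkD.Tr :=
  .S 1 1 (.L 5 6 [4, 4, 4, 5, 5] [] [] 100000 32237 32237 997371 2632 1316 2632 50000 0 21053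
    28947) (.S 2 2 (.S 2 1 (.L 5 6 [4, 4, 4, 5, 5] [34, 24, 14, 0, 0, 0] [] 100000 32813 32813
    1067390 7609 8696 50408 54348 5027 17391 23913) (.L 5 6 [4, 4, 4, 5, 5] [34, 24, 14, 0, 0, 0]
    [] 100000 29825 29825 1078948 13012 0 47807 47515 4971 22368 26023)) (.L 5 6 [4, 4, 4, 5, 5]
    [34, 24, 14, 0, 0, 0] [] 100000 26493 26493 1052239 23881 0 86567 28358 8955 52239 23881))

lemma s19_20_5_4_11 : BlkD.treeX d19_20_5_4 (BlkD.exF 5 4 x19_20_5_4) t19_20_5_4_11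
    (BlkD.upd (fun _ => 0) 0 3)
    (BlkD.upd (BlkD.upd (BlkD.upd (BlkD.upd (BlkD.upd (BlkD.upd (BlkD.upd (BlkD.upd (fun _ => 20) 0 5) 2 4) 0 4) 0 3) 1 17) 1 8) 1 4) 1 2) = true := by
  decide +kernel

lemma n19_20_5_4_11 {n : ℕ} (hn : 6 ≤ n) : BlkD.NdX d19_20_5_4 (BlkD.exF 5 4 x19_20_5_4) n
    (BlkD.upd (fun _ => 0) 0 3)
    (BlkD.upd (BlkD.upd (BlkD.upd (BlkD.upd (BlkD.upd (BlkD.upd (BlkD.upd (BlkD.upd (fun _ => 20) 0 5) 2 4) 0 4) 0 3) 1 17) 1 8) 1 4) 1 2) :=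
  BlkD.NdX.tree s19_20_5_4_11 ok19_20_5_4 (by decide) hn

/-- a subtree -/
def t19_20_5_4_12 : BlkD.Tr :=
  .S 2 2 (.S 2 1 (.S 2 0 (.L 5 6 [4, 4, 4, 5, 5] [54, 44, 34, 24, 0, 0] [] 100000 50000 50000
    700000 0 0 50000 100000 0 0 0) (.S 3 13 (.S 3 6 (.S 3 3 (.L 5 6 [4, 4, 4, 5, 5] [54, 44, 34,
    24, 0, 0] [] 100000 42857 42856 971429 0 28571 28571 28571 0 0 28571) (.S 3 5 (.S 3 4 (.S 4 3
    (.S 4 1 (.L 5 6 [4, 4, 4, 5, 5] [34, 24, 0, 0, 0, 0] [58, 50, 40, 30, 20, 0] 100000 37500 37499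
    966666 0 66667 0 66667 66667 0 16667) (.L 5 6 [4, 4, 4, 5, 5] [54, 44, 34, 24, 0, 0] [58, 50,
    40, 30, 20, 0] 100000 38236 38236 1002942 0 8824 79412 48529 0 13235 20588)) (.E 2)) (.S 4 3
    (.S 4 1 (.L 5 6 [4, 4, 4, 5, 5] [34, 24, 0, 0, 0, 0] [70, 68, 60, 50, 40, 30] 100000 37500
    37499 999999 0 66667 0 66667 66667 0 16667) (.L 5 6 [4, 4, 4, 5, 5] [54, 44, 34, 24, 0, 0] [70,
    68, 60, 50, 40, 30] 100000 27679 27679 1042858 0 0 78571 39286 0 39286 25000)) (.E 2))) (.L 5 6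
    [4, 4, 4, 5, 5] [54, 44, 34, 24, 0, 0] [84, 82, 80, 72, 62, 52] 100000 56250 56250 950000 0 0
    75000 100000 0 0 25000))) (.E 1)) (.E 1))) (.S 3 12 (.S 3 6 (.S 3 3 (.S 3 1 (.L 5 6 [4, 4, 4,
    5, 5] [54, 44, 34, 24, 0, 0] [] 100000 50000 50000 900000 0 0 0 0 0 0 0) (.S 3 2 (.L 5 6 [4, 4,
    4, 5, 5] [54, 44, 34, 24, 0, 0] [30, 20, 10, 0, 0, 0] 100000 37500 37500 1000000 0 0 0 0 0 0
    50000) (.S 4 3 (.S 4 1 (.L 5 6 [4, 4, 4, 5, 5] [34, 24, 0, 0, 0, 0] [48, 38, 28, 18, 0, 0]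
    100000 20371 20371 1100002 14815 0 14815 55556 29630 18519 23457) (.L 5 6 [4, 4, 4, 5, 5] [54,
    44, 34, 24, 0, 0] [48, 38, 28, 18, 0, 0] 100000 40278 40278 994445 11111 0 94444 38889 0 11111
    16667)) (.E 2)))) (.S 3 5 (.S 3 4 (.S 4 3 (.S 4 1 (.L 5 5 [4, 4, 4, 5, 6] [34, 24, 0, 0, 0, 0]
    [66, 58, 48, 38, 28, 0] 100000 16204 16204 1127778 16667 7407 31481 35185 35185 50000 25000)
    (.L 5 5 [4, 4, 4, 5, 6] [54, 44, 34, 24, 0, 0] [66, 58, 48, 38, 28, 0] 100000 25000 25000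
    1050000 0 0 75000 37500 0 50000 25000)) (.E 2)) (.L 5 5 [4, 4, 4, 5, 6] [54, 44, 34, 24, 0, 0]
    [80, 78, 70, 60, 50, 40] 100000 56250 56250 950000 0 0 75000 100000 0 0 25000)) (.E 1))) (.E
    1)) (.E 1))) (.S 2 3 (.S 3 11 (.S 3 5 (.S 3 2 (.L 5 5 [4, 4, 4, 5, 6] [54, 44, 34, 24, 0, 0] []
    100000 24432 24432 1100000 9091 0 62500 27273 10227 27273 27273) (.S 3 4 (.S 3 3 (.S 4 3 (.S 4
    1 (.L 5 5 [4, 4, 4, 5, 6] [34, 24, 0, 0, 0, 0] [54, 44, 34, 24, 0, 0] 100000 12500 12499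
    1099999 16667 0 16667 50000 50000 50000 25000) (.L 5 5 [4, 4, 4, 5, 6] [54, 44, 34, 24, 0, 0]
    [54, 44, 34, 24, 0, 0] 100000 25000 25000 1000000 0 0 100000 0 0 50000 25000)) (.E 2)) (.E 1))
    (.E 1))) (.E 1)) (.E 1)) (.S 3 10 (.S 3 5 (.S 3 2 (.S 3 1 (.L 5 5 [4, 4, 4, 5, 6] [54, 44, 34,
    24, 0, 0] [] 100000 25000 25000 1060000 20000 0 80000 20000 20000 50000 25000) (.L 7 7 [4, 4,
    4, 4, 4] [54, 44, 34, 24, 0, 0] [38, 28, 18, 0, 0, 0] 100000 21875 21874 1099999 29167 0 66667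
    12500 12500 62500 25000)) (.E 1)) (.E 1)) (.E 1)))

lemma s19_20_5_4_12 : BlkD.treeX d19_20_5_4 (BlkD.exF 5 4 x19_20_5_4) t19_20_5_4_12
    (BlkD.upd (BlkD.upd (fun _ => 0) 0 3) 1 3)
    (BlkD.upd (BlkD.upd (BlkD.upd (BlkD.upd (BlkD.upd (BlkD.upd (BlkD.upd (BlkD.upd (fun _ => 20) 0 5) 2 4) 0 4) 0 3) 1 17) 1 8) 1 4) 1 3) = true := by
  decide +kernel

lemma n19_20_5_4_12 {n : ℕ} (hn : 6 ≤ n) : BlkD.NdX d19_20_5_4 (BlkD.exF 5 4 x19_20_5_4) n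
    (BlkD.upd (BlkD.upd (fun _ => 0) 0 3) 1 3)
    (BlkD.upd (BlkD.upd (BlkD.upd (BlkD.upd (BlkD.upd (BlkD.upd (BlkD.upd (BlkD.upd (fun _ => 20) 0 5) 2 4) 0 4) 0 3) 1 17) 1 8) 1 4) 1 3) :=
  BlkD.NdX.tree s19_20_5_4_12 ok19_20_5_4 (by decide) hn

/-- a subtree -/
def t19_20_5_4_13 : BlkD.Tr :=
  .S 2 1 (.S 2 0 (.L 7 7 [4, 4, 4, 4, 4] [76, 66, 56, 46, 36, 0] [] 100000 50000 50000 750000 0 0
    50000 100000 0 0 0) (.S 3 12 (.S 3 6 (.S 3 3 (.L 7 7 [4, 4, 4, 4, 4] [76, 66, 56, 46, 36, 0] []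
    100000 41510 41510 1024529 0 37736 41509 37736 7547 0 18868) (.S 3 5 (.S 3 4 (.S 4 4 (.S 4 2
    (.L 1 1 [9, 12, 14, 16, 15] [56, 46, 36, 0, 0, 0] [58, 50, 40, 30, 20, 0] 100000 33334 33334
    1052224 0 40000 27778 60000 55556 6667 22222) (.L 1 1 [9, 12, 14, 16, 15] [76, 66, 56, 46, 36,
    0] [58, 50, 40, 30, 20, 0] 100000 37500 37500 1020000 0 0 90000 45000 0 15000 20000)) (.E 2))
    (.S 4 4 (.S 4 2 (.L 1 1 [9, 12, 14, 16, 15] [56, 46, 36, 0, 0, 0] [70, 68, 60, 50, 40, 30]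
    100000 55357 55357 971430 0 73214 17857 82143 57143 17857 25000) (.L 1 1 [9, 12, 14, 16, 15]
    [76, 66, 56, 46, 36, 0] [70, 68, 60, 50, 40, 30] 100000 62500 62500 925000 0 25000 100000 62500
    0 12500 25000)) (.E 2))) (.L 1 1 [9, 12, 14, 16, 15] [76, 66, 56, 46, 36, 0] [84, 82, 80, 72,
    62, 52] 100000 68750 68750 900000 0 0 100000 100000 0 0 25000))) (.E 1)) (.E 1))) (.S 3 11 (.S
    3 5 (.S 3 2 (.S 3 1 (.L 1 1 [9, 12, 14, 16, 15] [76, 66, 56, 46, 36, 0] [] 100000 31250 31250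
    1000000 0 0 37500 0 12500 0 50000) (.S 4 4 (.S 4 2 (.L 5 6 [4, 4, 4, 5, 5] [56, 46, 36, 0, 0,
    0] [30, 20, 10, 0, 0, 0] 100000 22657 22657 1081250 9375 9375 46875 37500 37500 9375 20312) (.L
    5 6 [4, 4, 4, 5, 5] [76, 66, 56, 46, 36, 0] [30, 20, 10, 0, 0, 0] 100000 39584 39584 1000000 0
    0 100000 37500 0 12500 16667)) (.E 2))) (.S 3 4 (.S 3 3 (.S 4 4 (.S 4 2 (.S 4 1 (.L 5 6 [4, 4,
    4, 5, 5] [46, 36, 0, 0, 0, 0] [48, 38, 28, 18, 0, 0] 100000 15817 15817 1108164 18367 0 55102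
    36735 36735 36735 20408) (.S 5 3 (.S 5 1 (.L 5 6 [4, 4, 4, 5, 5] [56, 46, 36, 0, 0, 0] [28, 18,
    0, 0, 0, 0] 100000 25000 25000 1056250 31250 0 81250 0 0 75000 25000) (.L 5 6 [4, 4, 4, 5, 5]
    [56, 46, 36, 0, 0, 0] [48, 38, 28, 18, 0, 0] 100000 21691 21690 1092647 2941 2941 19118 82353
    55882 13235 25000)) (.E 2))) (.L 5 6 [4, 4, 4, 5, 5] [76, 66, 56, 46, 36, 0] [48, 38, 28, 18,
    0, 0] 100000 41251 41251 993333 0 6667 100000 35833 0 10833 13333)) (.E 2)) (.S 4 4 (.S 4 2 (.S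
    4 1 (.L 4 4 [4, 4, 5, 6, 7] [46, 36, 0, 0, 0, 0] [66, 58, 48, 38, 28, 0] 100000 25000 25000
    1087500 0 50000 12500 50000 75000 75000 25000) (.S 5 4 (.S 5 2 (.L 4 4 [4, 4, 5, 6, 7] [56, 46,
    36, 0, 0, 0] [48, 38, 28, 0, 0, 0] 100000 28125 28125 1081250 12500 6250 87500 12500 0 62500
    25000) (.L 4 4 [4, 4, 5, 6, 7] [56, 46, 36, 0, 0, 0] [66, 58, 48, 38, 28, 0] 100000 25000 25000
    1087500 0 0 12500 100000 62500 0 25000)) (.E 2))) (.L 4 4 [4, 4, 5, 6, 7] [76, 66, 56, 46, 36,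
    0] [66, 58, 48, 38, 28, 0] 100000 43750 43750 1000000 0 0 100000 50000 0 25000 25000)) (.E 2)))
    (.L 4 4 [4, 4, 5, 6, 7] [76, 66, 56, 46, 36, 0] [80, 78, 70, 60, 50, 40] 100000 68750 68750
    900000 0 0 100000 100000 0 0 25000))) (.E 1)) (.E 1))

lemma s19_20_5_4_13 : BlkD.treeX d19_20_5_4 (BlkD.exF 5 4 x19_20_5_4) t19_20_5_4_13
    (BlkD.upd (BlkD.upd (BlkD.upd (fun _ => 0) 0 3) 1 3) 1 4)
    (BlkD.upd (BlkD.upd (BlkD.upd (BlkD.upd (BlkD.upd (BlkD.upd (BlkD.upd (BlkD.upd (fun _ => 20) 0 5) 2 4) 0 4) 0 3) 1 17) 1 8) 1 4) 2 2) = true := by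
  decide +kernel

lemma n19_20_5_4_13 {n : ℕ} (hn : 6 ≤ n) : BlkD.NdX d19_20_5_4 (BlkD.exF 5 4 x19_20_5_4) n
    (BlkD.upd (BlkD.upd (BlkD.upd (fun _ => 0) 0 3) 1 3) 1 4)
    (BlkD.upd (BlkD.upd (BlkD.upd (BlkD.upd (BlkD.upd (BlkD.upd (BlkD.upd (BlkD.upd (fun _ => 20) 0 5) 2 4) 0 4) 0 3) 1 17) 1 8) 1 4) 2 2) :=
  BlkD.NdX.tree s19_20_5_4_13 ok19_20_5_4 (by decide) hn

/-- a subtree -/
def t19_20_5_4_14 : BlkD.Tr :=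
  .S 2 3 (.S 3 10 (.S 3 5 (.S 3 2 (.S 3 1 (.L 4 4 [4, 4, 5, 6, 7] [76, 66, 56, 46, 36, 0] [] 100000
    19286 19286 1085714 0 14286 57143 57143 22857 42857 24286) (.S 4 4 (.S 4 2 (.L 4 4 [4, 4, 5, 6,
    7] [56, 46, 36, 0, 0, 0] [34, 24, 14, 0, 0, 0] 100000 15625 15625 1131251 10937 1563 48438
    34375 37500 48438 25000) (.L 4 4 [4, 4, 5, 6, 7] [76, 66, 56, 46, 36, 0] [34, 24, 14, 0, 0, 0]
    100000 25000 25000 1000000 0 0 100000 0 0 50000 25000)) (.E 2))) (.S 3 4 (.S 3 3 (.S 4 4 (.S 4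
    2 (.S 4 1 (.L 4 4 [4, 4, 5, 6, 7] [46, 36, 0, 0, 0, 0] [54, 44, 34, 24, 0, 0] 100000 75000
    75000 875000 60000 0 95000 75000 15000 0 25000) (.L 4 4 [4, 4, 5, 6, 7] [56, 46, 36, 0, 0, 0]
    [54, 44, 34, 24, 0, 0] 100000 25000 25000 1087500 6250 0 93750 12500 0 62500 25000)) (.L 4 4
    [4, 4, 5, 6, 7] [76, 66, 56, 46, 36, 0] [54, 44, 34, 24, 0, 0] 100000 25000 25000 1000000 0 0
    100000 0 0 50000 25000)) (.E 2)) (.E 1)) (.E 1))) (.E 1)) (.E 1)) (.S 3 9 (.S 3 4 (.S 3 2 (.S 3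
    1 (.L 4 4 [4, 4, 5, 6, 7] [76, 66, 56, 46, 36, 0] [] 100000 25843 25843 1053371 22472 0 79213
    22472 38202 74157 25843) (.S 4 4 (.S 4 2 (.L 5 6 [4, 4, 4, 5, 5] [56, 46, 36, 0, 0, 0] [38, 28,
    18, 0, 0, 0] 100000 40625 40625 1031250 53125 0 71875 18750 3125 56250 25000) (.L 5 6 [4, 4, 4,
    5, 5] [76, 66, 56, 46, 36, 0] [38, 28, 18, 0, 0, 0] 100000 26389 20833 972221 0 0 105556 11111
    0 55556 22222)) (.E 2))) (.E 1)) (.E 1)) (.E 1))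

lemma s19_20_5_4_14 : BlkD.treeX d19_20_5_4 (BlkD.exF 5 4 x19_20_5_4) t19_20_5_4_14
    (BlkD.upd (BlkD.upd (BlkD.upd (BlkD.upd (fun _ => 0) 0 3) 1 3) 1 4) 2 3)
    (BlkD.upd (BlkD.upd (BlkD.upd (BlkD.upd (BlkD.upd (BlkD.upd (BlkD.upd (fun _ => 20) 0 5) 2 4) 0 4) 0 3) 1 17) 1 8) 1 4) = true := by
  decide +kernel

lemma n19_20_5_4_14 {n : ℕ} (hn : 6 ≤ n) : BlkD.NdX d19_20_5_4 (BlkD.exF 5 4 x19_20_5_4) n
    (BlkD.upd (BlkD.upd (BlkD.upd (BlkD.upd (fun _ => 0) 0 3) 1 3) 1 4) 2 3)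
    (BlkD.upd (BlkD.upd (BlkD.upd (BlkD.upd (BlkD.upd (BlkD.upd (BlkD.upd (fun _ => 20) 0 5) 2 4) 0 4) 0 3) 1 17) 1 8) 1 4) :=
  BlkD.NdX.tree s19_20_5_4_14 ok19_20_5_4 (by decide) hn

/-- a subtree -/
def t19_20_5_4_15 : BlkD.Tr :=
  .S 1 6 (.S 1 5 (.S 2 2 (.S 2 1 (.S 2 0 (.L 5 6 [4, 4, 4, 5, 5] [98, 90, 80, 70, 60, 50] [] 100000
    50000 50000 750000 0 0 50000 100000 0 0 0) (.S 3 11 (.S 3 5 (.S 3 2 (.L 5 6 [4, 4, 4, 5, 5]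
    [98, 90, 80, 70, 60, 50] [] 100000 32739 32739 1009523 7143 9524 73810 9524 26190 0 16667) (.S
    3 4 (.S 3 3 (.L 1 1 [9, 12, 14, 16, 15] [98, 90, 80, 70, 60, 50] [42, 32, 22, 12, 0, 0] 100000
    77895 77895 884214 0 78947 78947 82105 15789 1053 7368) (.S 4 5 (.S 4 2 (.E 2) (.S 4 4 (.S 4 3
    (.L 1 1 [9, 12, 14, 16, 15] [80, 70, 60, 50, 0, 0] [58, 50, 40, 30, 20, 0] 100000 53125 53125
    978125 0 68750 15625 84375 59375 15625 25000) (.L 1 1 [9, 12, 14, 16, 15] [90, 80, 70, 60, 50,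
    0] [58, 50, 40, 30, 20, 0] 100000 68750 68750 900001 0 33333 100000 66667 0 8333 25000)) (.L 1
    1 [9, 12, 14, 16, 15] [98, 90, 80, 70, 60, 50] [58, 50, 40, 30, 20, 0] 100000 50000 40909
    863637 0 0 109091 54545 0 0 18182))) (.E 2))) (.L 1 1 [9, 12, 14, 16, 15] [98, 90, 80, 70, 60,
    50] [70, 68, 60, 50, 40, 30] 100000 93750 93750 800000 0 50000 100000 100000 0 0 25000))) (.E
    2)) (.E 1))) (.S 3 10 (.S 3 5 (.S 3 2 (.S 3 1 (.L 1 1 [9, 12, 14, 16, 15] [98, 90, 80, 70, 60,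
    50] [] 100000 32857 32857 1014288 0 0 85714 0 34286 0 20000) (.S 4 5 (.S 4 2 (.E 2) (.S 4 4 (.S
    4 3 (.S 5 2 (.S 5 1 (.L 1 1 [9, 12, 14, 16, 15] [80, 70, 60, 50, 0, 0] [20, 10, 0, 0, 0, 0]
    100000 8334 8334 1133333 0 0 66667 0 66667 66667 33333) (.L 1 1 [9, 12, 14, 16, 15] [80, 70,
    60, 50, 0, 0] [30, 20, 10, 0, 0, 0] 100000 25893 22322 982144 0 0 10714 103571 53571 0 21429))
    (.E 2)) (.L 1 1 [9, 12, 14, 16, 15] [90, 80, 70, 60, 50, 0] [30, 20, 10, 0, 0, 0] 100000 37500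
    37500 1000000 0 0 100000 15000 20000 5000 20000)) (.L 1 1 [9, 12, 14, 16, 15] [98, 90, 80, 70,
    60, 50] [30, 20, 10, 0, 0, 0] 100000 45000 25000 840000 0 0 120000 0 0 0 20000))) (.E 2))) (.S
    3 4 (.S 3 3 (.S 4 5 (.S 4 2 (.E 2) (.S 4 4 (.S 4 3 (.L 5 6 [4, 4, 4, 5, 5] [80, 70, 60, 50, 0,
    0] [48, 38, 28, 18, 0, 0] 100000 21053 21053 1110527 15789 0 63158 31579 15789 31579 21053) (.L
    5 6 [4, 4, 4, 5, 5] [90, 80, 70, 60, 50, 0] [48, 38, 28, 18, 0, 0] 100000 37963 37963 1000001 0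
    0 100000 33333 11111 11111 14815)) (.L 5 6 [4, 4, 4, 5, 5] [98, 90, 80, 70, 60, 50] [48, 38,
    28, 18, 0, 0] 100000 50000 21429 785716 0 0 128571 42857 0 0 14286))) (.E 2)) (.L 5 6 [4, 4, 4,
    5, 5] [98, 90, 80, 70, 60, 50] [66, 58, 48, 38, 28, 0] 100000 26923 26923 1076924 7692 0 100000
    7692 0 61538 23077)) (.E 2))) (.E 1)) (.E 1))) (.L 5 6 [4, 4, 4, 5, 5] [98, 90, 80, 70, 60, 50]
    [] 100000 23810 23810 1090476 4762 0 95238 9524 4762 61905 23810)) (.L 5 6 [4, 4, 4, 5, 5]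
    [116, 114, 106, 96, 86, 76] [] 100000 44792 44792 1000000 0 0 100000 50000 0 12500 20833)) (.E
    0)

lemma s19_20_5_4_15 : BlkD.treeX d19_20_5_4 (BlkD.exF 5 4 x19_20_5_4) t19_20_5_4_15
    (BlkD.upd (BlkD.upd (fun _ => 0) 0 3) 1 5)
    (BlkD.upd (BlkD.upd (BlkD.upd (BlkD.upd (BlkD.upd (BlkD.upd (fun _ => 20) 0 5) 2 4) 0 4) 0 3) 1 17) 1 8) = true := by
  decide +kernel

lemma n19_20_5_4_15 {n : ℕ} (hn : 6 ≤ n) : BlkD.NdX d19_20_5_4 (BlkD.exF 5 4 x19_20_5_4) n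
    (BlkD.upd (BlkD.upd (fun _ => 0) 0 3) 1 5)
    (BlkD.upd (BlkD.upd (BlkD.upd (BlkD.upd (BlkD.upd (BlkD.upd (fun _ => 20) 0 5) 2 4) 0 4) 0 3) 1 17) 1 8) :=
  BlkD.NdX.tree s19_20_5_4_15 ok19_20_5_4 (by decide) hn

/-- a subtree -/
def t19_20_5_4_16 : BlkD.Tr :=
  .E 0

lemma s19_20_5_4_16 : BlkD.treeX d19_20_5_4 (BlkD.exF 5 4 x19_20_5_4) t19_20_5_4_16
    (BlkD.upd (BlkD.upd (fun _ => 0) 0 3) 1 9)
    (BlkD.upd (BlkD.upd (BlkD.upd (BlkD.upd (BlkD.upd (fun _ => 20) 0 5) 2 4) 0 4) 0 3) 1 17) = true := by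
  decide +kernel

lemma n19_20_5_4_16 {n : ℕ} (hn : 6 ≤ n) : BlkD.NdX d19_20_5_4 (BlkD.exF 5 4 x19_20_5_4) n
    (BlkD.upd (BlkD.upd (fun _ => 0) 0 3) 1 9)
    (BlkD.upd (BlkD.upd (BlkD.upd (BlkD.upd (BlkD.upd (fun _ => 20) 0 5) 2 4) 0 4) 0 3) 1 17) :=
  BlkD.NdX.tree s19_20_5_4_16 ok19_20_5_4 (by decide) hn

/-- a subtree -/
def t19_20_5_4_17 : BlkD.Tr :=
  .E 0

lemma s19_20_5_4_17 : BlkD.treeX d19_20_5_4 (BlkD.exF 5 4 x19_20_5_4) t19_20_5_4_17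
    (BlkD.upd (BlkD.upd (fun _ => 0) 0 3) 1 18)
    (BlkD.upd (BlkD.upd (BlkD.upd (BlkD.upd (fun _ => 20) 0 5) 2 4) 0 4) 0 3) = true := by
  decide +kernel

lemma n19_20_5_4_17 {n : ℕ} (hn : 6 ≤ n) : BlkD.NdX d19_20_5_4 (BlkD.exF 5 4 x19_20_5_4) n
    (BlkD.upd (BlkD.upd (fun _ => 0) 0 3) 1 18)
    (BlkD.upd (BlkD.upd (BlkD.upd (BlkD.upd (fun _ => 20) 0 5) 2 4) 0 4) 0 3) :=
  BlkD.NdX.tree s19_20_5_4_17 ok19_20_5_4 (by decide) hn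

/-- a subtree -/
def t19_20_5_4_18 : BlkD.Tr :=
  .S 1 16 (.S 1 8 (.S 1 4 (.S 1 2 (.S 1 1 (.S 1 0 (.L 5 6 [4, 4, 4, 5, 5] [0, 0, 0, 0, 0, 0] []
    100000 32143 32143 1000003 0 0 0 50000 0 21429 28571) (.S 2 2 (.S 2 1 (.L 5 6 [4, 4, 4, 5, 5]
    [18, 8, 0, 0, 0, 0] [] 100000 31965 31965 1070000 10000 10000 52500 55000 6071 17857 24286) (.L
    5 6 [4, 4, 4, 5, 5] [18, 8, 0, 0, 0, 0] [] 100000 29825 29825 1078948 26023 0 60819 47515 4971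
    22368 26023)) (.L 5 6 [4, 4, 4, 5, 5] [18, 8, 0, 0, 0, 0] [] 100000 22222 22221 1088889 11111 0
    88889 11111 11111 29630 29630))) (.S 2 2 (.S 2 1 (.L 5 6 [4, 4, 4, 5, 5] [38, 28, 18, 0, 0, 0]
    [] 100000 21297 21297 1107408 9259 11111 50000 40741 40741 14815 18519) (.S 3 12 (.S 3 6 (.S 3
    3 (.L 5 6 [4, 4, 4, 5, 5] [38, 28, 18, 0, 0, 0] [] 100000 21765 21765 1083529 16471 0 56471
    47059 40000 12941 20000) (.L 5 6 [4, 4, 4, 5, 5] [38, 28, 18, 0, 0, 0] [] 100000 16177 16177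
    1111764 29412 0 64706 29412 35294 58824 23529)) (.E 1)) (.E 1))) (.L 5 6 [4, 4, 4, 5, 5] [38,
    28, 18, 0, 0, 0] [] 100000 16346 16345 1080770 25000 0 59615 34615 34615 50000 23077))) (.S 1 3
    (.S 2 2 (.S 2 1 (.S 2 0 (.L 5 6 [4, 4, 4, 5, 5] [60, 50, 40, 30, 0, 0] [] 100000 50000 50000
    700000 0 0 50000 100000 0 0 0) (.S 3 12 (.S 3 6 (.S 3 3 (.L 5 6 [4, 4, 4, 5, 5] [60, 50, 40,
    30, 0, 0] [] 100000 25000 25000 1050000 0 25000 37500 25000 37500 0 25000) (.S 3 5 (.S 3 4 (.L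
    5 6 [4, 4, 4, 5, 5] [60, 50, 40, 30, 0, 0] [58, 50, 40, 30, 20, 0] 100000 22619 22618 1089524 0
    20476 34762 49048 42857 9524 18095) (.L 1 1 [9, 12, 14, 16, 15] [60, 50, 40, 30, 0, 0] [70, 68,
    60, 50, 40, 30] 100000 118750 118750 700000 0 100000 100000 100000 0 0 25000)) (.L 1 1 [9, 12,
    14, 16, 15] [60, 50, 40, 30, 0, 0] [84, 82, 80, 72, 62, 52] 100000 135294 0 1 0 0 152941 235294
    0 0 0))) (.E 1)) (.E 1))) (.S 3 11 (.S 3 5 (.S 3 2 (.L 5 6 [4, 4, 4, 5, 5] [60, 50, 40, 30, 0,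
    0] [] 100000 22384 22384 1083721 5814 10465 50000 39535 33721 10465 22093) (.S 3 4 (.S 3 3 (.L
    5 6 [4, 4, 4, 5, 5] [60, 50, 40, 30, 0, 0] [48, 38, 28, 18, 0, 0] 100000 20924 20924 1112660 0
    16420 38084 54504 43330 16306 17902) (.S 4 3 (.S 4 1 (.L 5 6 [4, 4, 4, 5, 5] [40, 30, 0, 0, 0,
    0] [66, 58, 48, 38, 28, 0] 100000 25000 25000 1087500 0 50000 12500 50000 62500 37500 25000)
    (.L 5 6 [4, 4, 4, 5, 5] [60, 50, 40, 30, 0, 0] [66, 58, 48, 38, 28, 0] 100000 25000 25000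
    1087500 0 0 100000 12500 0 62500 25000)) (.E 2))) (.E 2))) (.E 1)) (.E 1))) (.S 2 3 (.S 3 10
    (.S 3 5 (.S 3 2 (.L 5 6 [4, 4, 4, 5, 5] [60, 50, 40, 30, 0, 0] [] 100000 14527 14526 1121621
    10811 12838 41892 43919 47297 41892 24324) (.S 3 4 (.S 3 3 (.S 4 3 (.S 4 1 (.L 5 6 [4, 4, 4, 5,
    5] [40, 30, 0, 0, 0, 0] [54, 44, 34, 24, 0, 0] 100000 40000 40000 1020000 20000 0 40000 100000
    40000 0 20000) (.L 5 6 [4, 4, 4, 5, 5] [60, 50, 40, 30, 0, 0] [54, 44, 34, 24, 0, 0] 100000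
    43750 43750 1000000 0 0 75000 75000 0 0 25000)) (.E 2)) (.E 1)) (.E 1))) (.E 1)) (.E 1)) (.S 3
    9 (.S 3 4 (.S 3 2 (.S 3 1 (.L 5 6 [4, 4, 4, 5, 5] [60, 50, 40, 30, 0, 0] [] 100000 15000 15000
    1090000 20000 0 70000 20000 40000 60000 20000) (.S 4 3 (.S 4 1 (.L 5 6 [4, 4, 4, 5, 5] [40, 30,
    0, 0, 0, 0] [38, 28, 18, 0, 0, 0] 100000 30000 30000 1060000 20000 0 40000 80000 40000 0 20000)
    (.L 5 6 [4, 4, 4, 5, 5] [60, 50, 40, 30, 0, 0] [38, 28, 18, 0, 0, 0] 100000 43750 43750 1000000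
    0 0 75000 75000 0 0 25000)) (.E 2))) (.E 1)) (.E 1)) (.E 1)))) (.L 5 6 [4, 4, 4, 5, 5] [84, 74,
    64, 54, 44, 0] [] 100000 34375 34374 1041666 0 0 79167 50000 0 12500 20833))) (.E 0)) (.E 0))
    (.E 0)

lemma s19_20_5_4_18 : BlkD.treeX d19_20_5_4 (BlkD.exF 5 4 x19_20_5_4) t19_20_5_4_18
    (BlkD.upd (BlkD.upd (fun _ => 0) 0 3) 0 4)
    (BlkD.upd (BlkD.upd (BlkD.upd (fun _ => 20) 0 5) 2 4) 0 4) = true := by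
  decide +kernel

lemma n19_20_5_4_18 {n : ℕ} (hn : 6 ≤ n) : BlkD.NdX d19_20_5_4 (BlkD.exF 5 4 x19_20_5_4) n
    (BlkD.upd (BlkD.upd (fun _ => 0) 0 3) 0 4)
    (BlkD.upd (BlkD.upd (BlkD.upd (fun _ => 20) 0 5) 2 4) 0 4) :=
  BlkD.NdX.tree s19_20_5_4_18 ok19_20_5_4 (by decide) hn

/-- a subtree -/
def t19_20_5_4_19 : BlkD.Tr :=
  .S 1 15 (.S 1 7 (.S 1 3 (.S 1 1 (.L 5 6 [4, 4, 4, 5, 5] [] [] 100000 18750 18750 1100000 25000 0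
    25000 75000 50000 25000 20000) (.S 1 2 (.S 2 2 (.S 2 1 (.L 5 6 [4, 4, 4, 5, 5] [42, 32, 22, 0,
    0, 0] [] 100000 75000 75000 800000 0 100000 0 100000 50000 0 0) (.S 3 11 (.S 3 5 (.S 3 2 (.L 5
    6 [4, 4, 4, 5, 5] [42, 32, 22, 0, 0, 0] [] 100000 22960 22960 1030612 0 34694 8163 59184 69388
    8163 30612) (.L 5 6 [4, 4, 4, 5, 5] [42, 32, 22, 0, 0, 0] [] 100000 12500 12500 1143750 0 0
    68750 18750 50000 56250 25000)) (.E 1)) (.E 1))) (.L 5 6 [4, 4, 4, 5, 5] [42, 32, 22, 0, 0, 0]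
    [] 100000 18750 18750 1100000 0 0 50000 50000 25000 25000 25000)) (.E 0))) (.E 0)) (.E 0)) (.E
    0)

lemma s19_20_5_4_19 : BlkD.treeX d19_20_5_4 (BlkD.exF 5 4 x19_20_5_4) t19_20_5_4_19
    (BlkD.upd (BlkD.upd (fun _ => 0) 0 3) 0 5)
    (BlkD.upd (BlkD.upd (fun _ => 20) 0 5) 2 4) = true := by
  decide +kernel

lemma n19_20_5_4_19 {n : ℕ} (hn : 6 ≤ n) : BlkD.NdX d19_20_5_4 (BlkD.exF 5 4 x19_20_5_4) n
    (BlkD.upd (BlkD.upd (fun _ => 0) 0 3) 0 5)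
    (BlkD.upd (BlkD.upd (fun _ => 20) 0 5) 2 4) :=
  BlkD.NdX.tree s19_20_5_4_19 ok19_20_5_4 (by decide) hn

/-- a subtree -/
def t19_20_5_4_20 : BlkD.Tr :=
  .E 1

lemma s19_20_5_4_20 : BlkD.treeX d19_20_5_4 (BlkD.exF 5 4 x19_20_5_4) t19_20_5_4_20
    (BlkD.upd (fun _ => 0) 2 5)
    (BlkD.upd (fun _ => 20) 0 5) = true := by
  decide +kernel

lemma n19_20_5_4_20 {n : ℕ} (hn : 6 ≤ n) : BlkD.NdX d19_20_5_4 (BlkD.exF 5 4 x19_20_5_4) n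
    (BlkD.upd (fun _ => 0) 2 5)
    (BlkD.upd (fun _ => 20) 0 5) :=
  BlkD.NdX.tree s19_20_5_4_20 ok19_20_5_4 (by decide) hn

/-- a subtree -/
def t19_20_5_4_21 : BlkD.Tr :=
  .E 0

lemma s19_20_5_4_21 : BlkD.treeX d19_20_5_4 (BlkD.exF 5 4 x19_20_5_4) t19_20_5_4_21
    (BlkD.upd (fun _ => 0) 0 6)
    (fun _ => 20) = true := by
  decide +kernel

lemma n19_20_5_4_21 {n : ℕ} (hn : 6 ≤ n) : BlkD.NdX d19_20_5_4 (BlkD.exF 5 4 x19_20_5_4) n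
    (BlkD.upd (fun _ => 0) 0 6)
    (fun _ => 20) :=
  BlkD.NdX.tree s19_20_5_4_21 ok19_20_5_4 (by decide) hn

end BlkC

end Pool.Agent.Lib.MP_f04ccf_co
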