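import Pool.Agent.Lib.MP_f04ccf_co.M.BlkC19a1
import Pool.Agent.Lib.MP_f04ccf_co.M.BlkC19a2
import Pool.Agent.Lib.MP_f04ccf_co.M.BlkC19a3
import Pool.Agent.Lib.MP_f04ccf_co.M.BlkC19a4
import Pool.Agent.Lib.MP_f04ccf_co.M.BlkC19a5
import Pool.Agent.Lib.MP_f04ccf_co.M.BlkC19a6
import Pool.Agent.Lib.MP_f04ccf_co.M.BlkC19b1
import Pool.Agent.Lib.MP_f04ccf_co.M.BlkC19b2
import Pool.Agent.Lib.MP_f04ccf_co.M.BlkC19b3
import Pool.Agent.Lib.MP_f04ccf_co.M.BlkC19b4
import Pool.Agent.Lib.MP_f04ccf_co.M.BlkC19b5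
import Pool.Agent.Lib.MP_f04ccf_co.M.BlkC19b6
import Pool.Agent.Lib.MP_f04ccf_co.M.BlkC19b7
import Pool.Agent.Lib.MP_f04ccf_co.M.BlkC19b8
import Pool.Agent.Lib.MP_f04ccf_co.M.EnC19

/-!
MP_f04ccf_co, block certificate, **`R = 19`**: all pairs of shares together (generated, helper99).
-/

set_option autoImplicit false

namespace Pool.Agent.Lib.MP_f04ccf_co

/-- **`R = 19`, `∑ h ≤ 19`, at least 5 rows: no items** -/
theorem noItC19_19 {n : ℕ} (hn : 5 ≤ n) : NoItC ((19 : ℕ) : ℤ) ((19 : ℕ) : ℤ) n := by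
  refine NoItC.of_pr (q := 3) hn fun a b hba hs => ?_
  have ha : a ≤ 13 := by omega
  interval_cases a
  · have hb : b ≤ 0 := by omega
    interval_cases b
    · exact BlkC.pr19_19_0_0 hn
  · have hb : b ≤ 1 := by omega
    interval_cases b
    · exact BlkC.pr19_19_1_0 hn
    · exact BlkC.pr19_19_1_1 hn
  · have hb : b ≤ 2 := by omega
    interval_cases b
    · exact BlkC.pr19_19_2_0 hn
    · exact BlkC.pr19_19_2_1 hn
    · exact BlkC.pr19_19_2_2 hn
  · have hb : b ≤ 3 := by omega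
    interval_cases b
    · exact BlkC.pr19_19_3_0 hn
    · exact BlkC.pr19_19_3_1 hn
    · exact BlkC.pr19_19_3_2 hn
    · exact BlkC.pr19_19_3_3 hn
  · have hb : b ≤ 4 := by omega
    interval_cases b
    · exact BlkC.pr19_19_4_0 hn
    · exact BlkC.pr19_19_4_1 hn
    · exact BlkC.pr19_19_4_2 hn
    · exact BlkC.pr19_19_4_3 hn
    · exact BlkC.pr19_19_4_4 hn
  · have hb : b ≤ 5 := by omega
    interval_cases b
    · exact BlkC.pr19_19_5_0 hn
    · exact BlkC.pr19_19_5_1 hn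
    · exact BlkC.pr19_19_5_2 hn
    · exact BlkC.pr19_19_5_3 hn
    · exact BlkC.pr19_19_5_4 hn
    · exact BlkC.pr19_19_5_5 hn
  · have hb : b ≤ 6 := by omega
    interval_cases b
    · exact BlkC.pr19_19_6_0 hn
    · exact BlkC.pr19_19_6_1 hn
    · exact BlkC.pr19_19_6_2 hn
    · exact BlkC.pr19_19_6_3 hn
    · exact BlkC.pr19_19_6_4 hn
    · exact BlkC.pr19_19_6_5 hn
    · exact BlkC.pr19_19_6_6 hn
  · have hb : b ≤ 6 := by omega
    interval_cases b
    · exact BlkC.pr19_19_7_0 hn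
    · exact BlkC.pr19_19_7_1 hn
    · exact BlkC.pr19_19_7_2 hn
    · exact BlkC.pr19_19_7_3 hn
    · exact BlkC.pr19_19_7_4 hn
    · exact BlkC.pr19_19_7_5 hn
    · exact BlkC.pr19_19_7_6 hn
  · have hb : b ≤ 5 := by omega
    interval_cases b
    · exact BlkC.pr19_19_8_0 hn
    · exact BlkC.pr19_19_8_1 hn
    · exact BlkC.pr19_19_8_2 hn
    · exact BlkC.pr19_19_8_3 hn
    · exact BlkC.pr19_19_8_4 hn
    · exact BlkC.pr19_19_8_5 hn
  · have hb : b ≤ 4 := by omega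
    interval_cases b
    · exact BlkC.pr19_19_9_0 hn
    · exact BlkC.pr19_19_9_1 hn
    · exact BlkC.pr19_19_9_2 hn
    · exact BlkC.pr19_19_9_3 hn
    · exact BlkC.pr19_19_9_4 hn
  · have hb : b ≤ 3 := by omega
    interval_cases b
    · exact BlkC.pr19_19_10_0 hn
    · exact BlkC.pr19_19_10_1 hn
    · exact BlkC.pr19_19_10_2 hn
    · exact BlkC.pr19_19_10_3 hn
  · have hb : b ≤ 2 := by omega
    interval_cases b
    · exact BlkC.pr19_19_11_0 hn
    · exact BlkC.pr19_19_11_1 hn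
    · exact BlkC.pr19_19_11_2 hn
  · have hb : b ≤ 1 := by omega
    interval_cases b
    · exact BlkC.pr19_19_12_0 hn
    · exact BlkC.pr19_19_12_1 hn
  · have hb : b ≤ 0 := by omega
    interval_cases b
    · exact BlkC.pr19_19_13_0 hn

/-- **`R = 19`, `∑ h ≤ 20`, at least 6 rows: no items** -/
theorem noItC19_20 {n : ℕ} (hn : 6 ≤ n) : NoItC ((19 : ℕ) : ℤ) ((20 : ℕ) : ℤ) n := by
  refine NoItC.of_pr (q := 4) hn fun a b hba hs => ?_
  have ha : a ≤ 13 := by omega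
  interval_cases a
  · have hb : b ≤ 0 := by omega
    interval_cases b
    · exact BlkC.pr19_20_0_0 hn
  · have hb : b ≤ 1 := by omega
    interval_cases b
    · exact BlkC.pr19_20_1_0 hn
    · exact BlkC.pr19_20_1_1 hn
  · have hb : b ≤ 2 := by omega
    interval_cases b
    · exact BlkC.pr19_20_2_0 hn
    · exact BlkC.pr19_20_2_1 hn
    · exact BlkC.pr19_20_2_2 hn
  · have hb : b ≤ 3 := by omega
    interval_cases b
    · exact BlkC.pr19_20_3_0 hn
    · exact BlkC.pr19_20_3_1 hn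
    · exact BlkC.pr19_20_3_2 hn
    · exact BlkC.pr19_20_3_3 hn
  · have hb : b ≤ 4 := by omega
    interval_cases b
    · exact BlkC.pr19_20_4_0 hn
    · exact BlkC.pr19_20_4_1 hn
    · exact BlkC.pr19_20_4_2 hn
    · exact BlkC.pr19_20_4_3 hn
    · exact BlkC.pr19_20_4_4 hn
  · have hb : b ≤ 5 := by omega
    interval_cases b
    · exact BlkC.pr19_20_5_0 hn
    · exact BlkC.pr19_20_5_1 hn
    · exact BlkC.pr19_20_5_2 hn
    · exact BlkC.pr19_20_5_3 hn
    · exact BlkC.pr19_20_5_4 hn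
    · exact BlkC.pr19_20_5_5 hn
  · have hb : b ≤ 6 := by omega
    interval_cases b
    · exact BlkC.pr19_20_6_0 hn
    · exact BlkC.pr19_20_6_1 hn
    · exact BlkC.pr19_20_6_2 hn
    · exact BlkC.pr19_20_6_3 hn
    · exact BlkC.pr19_20_6_4 hn
    · exact BlkC.pr19_20_6_5 hn
    · exact BlkC.pr19_20_6_6 hn
  · have hb : b ≤ 6 := by omega
    interval_cases b
    · exact BlkC.pr19_20_7_0 hn
    · exact BlkC.pr19_20_7_1 hn
    · exact BlkC.pr19_20_7_2 hn
    · exact BlkC.pr19_20_7_3 hn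
    · exact BlkC.pr19_20_7_4 hn
    · exact BlkC.pr19_20_7_5 hn
    · exact BlkC.pr19_20_7_6 hn
  · have hb : b ≤ 5 := by omega
    interval_cases b
    · exact BlkC.pr19_20_8_0 hn
    · exact BlkC.pr19_20_8_1 hn
    · exact BlkC.pr19_20_8_2 hn
    · exact BlkC.pr19_20_8_3 hn
    · exact BlkC.pr19_20_8_4 hn
    · exact BlkC.pr19_20_8_5 hn
  · have hb : b ≤ 4 := by omega
    interval_cases b
    · exact BlkC.pr19_20_9_0 hn
    · exact BlkC.pr19_20_9_1 hn
    · exact BlkC.pr19_20_9_2 hn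
    · exact BlkC.pr19_20_9_3 hn
    · exact BlkC.pr19_20_9_4 hn
  · have hb : b ≤ 3 := by omega
    interval_cases b
    · exact BlkC.pr19_20_10_0 hn
    · exact BlkC.pr19_20_10_1 hn
    · exact BlkC.pr19_20_10_2 hn
    · exact BlkC.pr19_20_10_3 hn
  · have hb : b ≤ 2 := by omega
    interval_cases b
    · exact BlkC.pr19_20_11_0 hn
    · exact BlkC.pr19_20_11_1 hn
    · exact BlkC.pr19_20_11_2 hn
  · have hb : b ≤ 1 := by omega
    interval_cases b
    · exact BlkC.pr19_20_12_0 hn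
    · exact BlkC.pr19_20_12_1 hn
  · have hb : b ≤ 0 := by omega
    interval_cases b
    · exact BlkC.pr19_20_13_0 hn

end Pool.Agent.Lib.MP_f04ccf_co
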