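import Pool.Agent.Lib.MP_f04ccf_co.M.BlkTp

/-!
MP_f04ccf_co, block certificate, data `R = 19`, `H = 19`, part 1 (certificates: helper99, bd9.cpp).
-/

set_option autoImplicit false
set_option maxRecDepth 100000

namespace Pool.Agent.Lib.MP_f04ccf_co

namespace BlkC

/-- the numbers of the pair `(0, 0)`, `R = 19`, `H = 19` -/
def d19_19_0_0 : BlkD.Pd :=
  ⟨19, 19, 3, 0, 0, 16, 0, 1, 0, 4, 4, 0, 0, 4, 4, 0, [0, 4, 8, 12, 16, 20, 24, 28, 32, 36, 40, 44,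
    48, 52, 56, 60, 64], [0, 4, 8, 12, 16, 20, 24, 28, 32, 36, 40, 44, 48, 52, 56, 60, 64], [⟨1, 1,
    1, 4, 8, [0, 4], [0, 4]⟩]⟩

lemma dk19_19_0_0 : BlkD.pairOk d19_19_0_0 = true := by decide +kernel

/-- the certificates of the part 1 of the pair `(0, 0)` -/
def t19_19_0_0_1 : BlkD.Tr :=
  .S 0 0 (.S 2 0 (.L 3 3 [4] [] [] 100000 0 0 100000 0 0 100000 0 0 0 0) (.E 1)) (.E 0)

lemma n19_19_0_0_1 {n : ℕ} (hn : 5 ≤ n) : NoNd ((19 : ℕ) : ℤ) ((19 : ℕ) : ℤ) n 0 0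
    (BlkD.inB (fun _ => 0)
      (fun _ => 19)) :=
  BlkD.part_sound (d := d19_19_0_0) dk19_19_0_0 hn (by decide) (tr := t19_19_0_0_1)
    (by decide +kernel) rfl rfl rfl rfl

lemma pr19_19_0_0 {n : ℕ} (hn : 5 ≤ n) : NoPr ((19 : ℕ) : ℤ) ((19 : ℕ) : ℤ) n 0 0 :=
  BlkD.of_root (q := 3) (by decide) hn (n19_19_0_0_1 hn)

/-- the numbers of the pair `(1, 0)`, `R = 19`, `H = 19` -/
def d19_19_1_0 : BlkD.Pd :=
  ⟨19, 19, 3, 1, 0, 15, 0, 1, 0, 4, 4, 0, 0, 4, 4, 0, [0, 4, 8, 12, 16, 20, 24, 28, 32, 36, 40, 44,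
    48, 52, 56, 60], [0, 4, 8, 12, 16, 20, 24, 28, 32, 36, 40, 44, 48, 52, 56, 60], [⟨1, 1, 1, 4,
    8, [0, 4], [0, 4]⟩]⟩

lemma dk19_19_1_0 : BlkD.pairOk d19_19_1_0 = true := by decide +kernel

/-- the certificates of the part 1 of the pair `(1, 0)` -/
def t19_19_1_0_1 : BlkD.Tr :=
  .S 0 1 (.S 2 0 (.L 3 3 [4] [] [] 100000 0 0 200000 0 0 0 100000 0 0 0) (.E 1)) (.E 0)

lemma n19_19_1_0_1 {n : ℕ} (hn : 5 ≤ n) : NoNd ((19 : ℕ) : ℤ) ((19 : ℕ) : ℤ) n 1 0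
    (BlkD.inB (fun _ => 0)
      (fun _ => 19)) :=
  BlkD.part_sound (d := d19_19_1_0) dk19_19_1_0 hn (by decide) (tr := t19_19_1_0_1)
    (by decide +kernel) rfl rfl rfl rfl

lemma pr19_19_1_0 {n : ℕ} (hn : 5 ≤ n) : NoPr ((19 : ℕ) : ℤ) ((19 : ℕ) : ℤ) n 1 0 :=
  BlkD.of_root (q := 3) (by decide) hn (n19_19_1_0_1 hn)

/-- the numbers of the pair `(1, 1)`, `R = 19`, `H = 19` -/
def d19_19_1_1 : BlkD.Pd :=
  ⟨19, 19, 3, 1, 1, 14, 1, 1, 0, 4, 4, 0, 0, 4, 4, 0, [0, 4, 8, 12, 16, 20, 24, 28, 32, 36, 40, 44,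
    48, 52, 56], [0, 4, 8, 12, 16, 20, 24, 28, 32, 36, 40, 44, 48, 52, 56], [⟨1, 1, 1, 4, 8, [0,
    4], [0, 4]⟩, ⟨1, 1, 1, 4, 8, [0, 4], [0, 4]⟩]⟩

lemma dk19_19_1_1 : BlkD.pairOk d19_19_1_1 = true := by decide +kernel

/-- the certificates of the part 1 of the pair `(1, 1)` -/
def t19_19_1_1_1 : BlkD.Tr :=
  .S 0 1 (.S 2 1 (.L 4 4 [4, 4] [] [] 100000 0 0 400000 0 0 0 0 0 0 0) (.E 1)) (.E 0)

lemma n19_19_1_1_1 {n : ℕ} (hn : 5 ≤ n) : NoNd ((19 : ℕ) : ℤ) ((19 : ℕ) : ℤ) n 1 1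
    (BlkD.inB (fun _ => 0)
      (fun _ => 19)) :=
  BlkD.part_sound (d := d19_19_1_1) dk19_19_1_1 hn (by decide) (tr := t19_19_1_1_1)
    (by decide +kernel) rfl rfl rfl rfl

lemma pr19_19_1_1 {n : ℕ} (hn : 5 ≤ n) : NoPr ((19 : ℕ) : ℤ) ((19 : ℕ) : ℤ) n 1 1 :=
  BlkD.of_root (q := 3) (by decide) hn (n19_19_1_1_1 hn)

/-- the numbers of the pair `(2, 0)`, `R = 19`, `H = 19` -/
def d19_19_2_0 : BlkD.Pd :=
  ⟨19, 19, 3, 2, 0, 14, 0, 1, 0, 4, 4, 0, 0, 4, 4, 0, [0, 4, 8, 12, 16, 20, 24, 28, 32, 36, 40, 44,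
    48, 52, 56], [0, 4, 8, 12, 16, 20, 24, 28, 32, 36, 40, 44, 48, 52, 56], [⟨1, 1, 1, 4, 8, [0,
    4], [0, 4]⟩]⟩

lemma dk19_19_2_0 : BlkD.pairOk d19_19_2_0 = true := by decide +kernel

/-- the certificates of the part 1 of the pair `(2, 0)` -/
def t19_19_2_0_1 : BlkD.Tr :=
  .S 0 2 (.S 2 0 (.L 3 3 [4] [] [] 100000 0 0 300000 0 0 0 100000 0 0 0) (.E 1)) (.E 0)

lemma n19_19_2_0_1 {n : ℕ} (hn : 5 ≤ n) : NoNd ((19 : ℕ) : ℤ) ((19 : ℕ) : ℤ) n 2 0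
    (BlkD.inB (fun _ => 0)
      (fun _ => 19)) :=
  BlkD.part_sound (d := d19_19_2_0) dk19_19_2_0 hn (by decide) (tr := t19_19_2_0_1)
    (by decide +kernel) rfl rfl rfl rfl

lemma pr19_19_2_0 {n : ℕ} (hn : 5 ≤ n) : NoPr ((19 : ℕ) : ℤ) ((19 : ℕ) : ℤ) n 2 0 :=
  BlkD.of_root (q := 3) (by decide) hn (n19_19_2_0_1 hn)

/-- the numbers of the pair `(2, 1)`, `R = 19`, `H = 19` -/
def d19_19_2_1 : BlkD.Pd :=
  ⟨19, 19, 3, 2, 1, 13, 1, 1, 0, 4, 4, 0, 0, 4, 4, 0, [0, 4, 8, 12, 16, 20, 24, 28, 32, 36, 40, 44,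
    48, 52], [0, 4, 8, 12, 16, 20, 24, 28, 32, 36, 40, 44, 48, 52], [⟨1, 1, 1, 4, 8, [0, 4], [0,
    4]⟩, ⟨1, 1, 1, 4, 8, [0, 4], [0, 4]⟩]⟩

lemma dk19_19_2_1 : BlkD.pairOk d19_19_2_1 = true := by decide +kernel

/-- the certificates of the part 1 of the pair `(2, 1)` -/
def t19_19_2_1_1 : BlkD.Tr :=
  .S 0 2 (.S 2 1 (.L 4 4 [4, 4] [] [] 100000 0 0 500000 0 0 0 0 0 0 0) (.E 1)) (.E 0)

lemma n19_19_2_1_1 {n : ℕ} (hn : 5 ≤ n) : NoNd ((19 : ℕ) : ℤ) ((19 : ℕ) : ℤ) n 2 1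
    (BlkD.inB (fun _ => 0)
      (fun _ => 19)) :=
  BlkD.part_sound (d := d19_19_2_1) dk19_19_2_1 hn (by decide) (tr := t19_19_2_1_1)
    (by decide +kernel) rfl rfl rfl rfl

lemma pr19_19_2_1 {n : ℕ} (hn : 5 ≤ n) : NoPr ((19 : ℕ) : ℤ) ((19 : ℕ) : ℤ) n 2 1 :=
  BlkD.of_root (q := 3) (by decide) hn (n19_19_2_1_1 hn)

/-- the numbers of the pair `(2, 2)`, `R = 19`, `H = 19` -/
def d19_19_2_2 : BlkD.Pd :=
  ⟨19, 19, 3, 2, 2, 12, 2, 1, 0, 4, 6, 0, 0, 4, 6, 0, [0, 6, 12, 18, 24, 30, 36, 42, 48, 48, 48,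
    48, 48], [0, 6, 12, 18, 24, 30, 36, 42, 48, 48, 48, 48, 48], [⟨1, 1, 1, 4, 8, [0, 4], [0, 4]⟩,
    ⟨1, 1, 1, 4, 8, [0, 4], [0, 4]⟩, ⟨1, 1, 1, 6, 12, [0, 6], [0, 6]⟩]⟩

lemma dk19_19_2_2 : BlkD.pairOk d19_19_2_2 = true := by decide +kernel

/-- the certificates of the part 1 of the pair `(2, 2)` -/
def t19_19_2_2_1 : BlkD.Tr :=
  .S 0 2 (.S 2 2 (.L 4 4 [4, 4, 4] [] [] 100000 0 0 600000 0 0 0 0 0 0 0) (.E 1)) (.E 0)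

lemma n19_19_2_2_1 {n : ℕ} (hn : 5 ≤ n) : NoNd ((19 : ℕ) : ℤ) ((19 : ℕ) : ℤ) n 2 2
    (BlkD.inB (fun _ => 0)
      (fun _ => 19)) :=
  BlkD.part_sound (d := d19_19_2_2) dk19_19_2_2 hn (by decide) (tr := t19_19_2_2_1)
    (by decide +kernel) rfl rfl rfl rfl

lemma pr19_19_2_2 {n : ℕ} (hn : 5 ≤ n) : NoPr ((19 : ℕ) : ℤ) ((19 : ℕ) : ℤ) n 2 2 :=
  BlkD.of_root (q := 3) (by decide) hn (n19_19_2_2_1 hn)

/-- the numbers of the pair `(3, 0)`, `R = 19`, `H = 19` -/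
def d19_19_3_0 : BlkD.Pd :=
  ⟨19, 19, 3, 3, 0, 13, 0, 1, 0, 4, 4, 0, 0, 4, 4, 0, [0, 4, 8, 12, 16, 20, 24, 28, 32, 36, 40, 44,
    48, 52], [0, 4, 8, 12, 16, 20, 24, 28, 32, 36, 40, 44, 48, 52], [⟨1, 1, 1, 4, 8, [0, 4], [0,
    4]⟩]⟩

lemma dk19_19_3_0 : BlkD.pairOk d19_19_3_0 = true := by decide +kernel

/-- the certificates of the part 1 of the pair `(3, 0)` -/
def t19_19_3_0_1 : BlkD.Tr :=
  .S 0 3 (.S 2 0 (.L 3 3 [4] [] [] 100000 0 0 420000 0 0 20000 80000 0 0 0) (.E 1)) (.E 0)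

lemma n19_19_3_0_1 {n : ℕ} (hn : 5 ≤ n) : NoNd ((19 : ℕ) : ℤ) ((19 : ℕ) : ℤ) n 3 0
    (BlkD.inB (fun _ => 0)
      (fun _ => 19)) :=
  BlkD.part_sound (d := d19_19_3_0) dk19_19_3_0 hn (by decide) (tr := t19_19_3_0_1)
    (by decide +kernel) rfl rfl rfl rfl

lemma pr19_19_3_0 {n : ℕ} (hn : 5 ≤ n) : NoPr ((19 : ℕ) : ℤ) ((19 : ℕ) : ℤ) n 3 0 :=
  BlkD.of_root (q := 3) (by decide) hn (n19_19_3_0_1 hn)

/-- the numbers of the pair `(3, 1)`, `R = 19`, `H = 19` -/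
def d19_19_3_1 : BlkD.Pd :=
  ⟨19, 19, 3, 3, 1, 12, 1, 1, 0, 4, 6, 0, 0, 4, 4, 0, [0, 6, 12, 18, 24, 30, 36, 42, 48, 48, 48,
    48, 48], [0, 4, 8, 12, 16, 20, 24, 28, 32, 36, 40, 44, 48], [⟨1, 1, 1, 4, 8, [0, 4], [0, 4]⟩,
    ⟨1, 1, 1, 4, 10, [0, 6], [0, 4]⟩]⟩

lemma dk19_19_3_1 : BlkD.pairOk d19_19_3_1 = true := by decide +kernel

/-- the certificates of the part 1 of the pair `(3, 1)` -/
def t19_19_3_1_1 : BlkD.Tr :=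
  .S 0 3 (.S 2 1 (.L 4 4 [4, 4] [] [] 100000 0 0 600001 0 0 33333 0 0 0 0) (.E 1)) (.E 0)

lemma n19_19_3_1_1 {n : ℕ} (hn : 5 ≤ n) : NoNd ((19 : ℕ) : ℤ) ((19 : ℕ) : ℤ) n 3 1
    (BlkD.inB (fun _ => 0)
      (fun _ => 19)) :=
  BlkD.part_sound (d := d19_19_3_1) dk19_19_3_1 hn (by decide) (tr := t19_19_3_1_1)
    (by decide +kernel) rfl rfl rfl rfl

lemma pr19_19_3_1 {n : ℕ} (hn : 5 ≤ n) : NoPr ((19 : ℕ) : ℤ) ((19 : ℕ) : ℤ) n 3 1 :=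
  BlkD.of_root (q := 3) (by decide) hn (n19_19_3_1_1 hn)

/-- the numbers of the pair `(3, 2)`, `R = 19`, `H = 19` -/
def d19_19_3_2 : BlkD.Pd :=
  ⟨19, 19, 3, 3, 2, 11, 2, 1, 0, 4, 6, 0, 0, 4, 6, 0, [0, 6, 12, 18, 24, 30, 36, 42, 44, 44, 44,
    44], [0, 6, 12, 18, 24, 30, 36, 42, 44, 44, 44, 44], [⟨1, 1, 1, 4, 8, [0, 4], [0, 4]⟩, ⟨1, 1,
    1, 4, 10, [0, 6], [0, 4]⟩, ⟨1, 1, 1, 6, 12, [0, 6], [0, 6]⟩]⟩

lemma dk19_19_3_2 : BlkD.pairOk d19_19_3_2 = true := by decide +kernel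

/-- the certificates of the part 1 of the pair `(3, 2)` -/
def t19_19_3_2_1 : BlkD.Tr :=
  .S 0 3 (.S 2 2 (.L 4 5 [4, 4, 4] [] [] 100000 0 0 700001 0 0 33333 0 0 0 0) (.E 1)) (.E 0)

lemma n19_19_3_2_1 {n : ℕ} (hn : 5 ≤ n) : NoNd ((19 : ℕ) : ℤ) ((19 : ℕ) : ℤ) n 3 2
    (BlkD.inB (fun _ => 0)
      (fun _ => 19)) :=
  BlkD.part_sound (d := d19_19_3_2) dk19_19_3_2 hn (by decide) (tr := t19_19_3_2_1)
    (by decide +kernel) rfl rfl rfl rfl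

lemma pr19_19_3_2 {n : ℕ} (hn : 5 ≤ n) : NoPr ((19 : ℕ) : ℤ) ((19 : ℕ) : ℤ) n 3 2 :=
  BlkD.of_root (q := 3) (by decide) hn (n19_19_3_2_1 hn)

/-- the numbers of the pair `(3, 3)`, `R = 19`, `H = 19` -/
def d19_19_3_3 : BlkD.Pd :=
  ⟨19, 19, 3, 3, 3, 10, 3, 1, 4, 1, 8, 0, 4, 1, 8, 0, [0, 8, 16, 22, 26, 30, 34, 38, 42, 46, 50],
    [0, 8, 16, 22, 26, 30, 34, 38, 42, 46, 50], [⟨1, 1, 1, 4, 8, [0, 4], [0, 4]⟩, ⟨1, 1, 1, 6, 12,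
    [0, 6], [0, 6]⟩, ⟨1, 1, 1, 6, 12, [0, 6], [0, 6]⟩, ⟨1, 1, 1, 8, 16, [0, 8], [0, 8]⟩]⟩

lemma dk19_19_3_3 : BlkD.pairOk d19_19_3_3 = true := by decide +kernel

/-- the certificates of the part 1 of the pair `(3, 3)` -/
def t19_19_3_3_1 : BlkD.Tr :=
  .S 0 3 (.S 2 3 (.L 5 5 [4, 4, 4, 5] [] [] 100000 3555 3554 800004 0 0 33333 33333 26667 26667
    36000) (.E 1)) (.E 0)

lemma n19_19_3_3_1 {n : ℕ} (hn : 5 ≤ n) : NoNd ((19 : ℕ) : ℤ) ((19 : ℕ) : ℤ) n 3 3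
    (BlkD.inB (fun _ => 0)
      (fun _ => 19)) :=
  BlkD.part_sound (d := d19_19_3_3) dk19_19_3_3 hn (by decide) (tr := t19_19_3_3_1)
    (by decide +kernel) rfl rfl rfl rfl

lemma pr19_19_3_3 {n : ℕ} (hn : 5 ≤ n) : NoPr ((19 : ℕ) : ℤ) ((19 : ℕ) : ℤ) n 3 3 :=
  BlkD.of_root (q := 3) (by decide) hn (n19_19_3_3_1 hn)

/-- the numbers of the pair `(4, 0)`, `R = 19`, `H = 19` -/
def d19_19_4_0 : BlkD.Pd :=
  ⟨19, 19, 3, 4, 0, 12, 0, 1, 0, 4, 4, 0, 0, 4, 4, 0, [0, 4, 8, 12, 16, 20, 24, 28, 32, 36, 40, 44,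
    48], [0, 4, 8, 12, 16, 20, 24, 28, 32, 36, 40, 44, 48], [⟨1, 1, 1, 4, 8, [0, 4], [0, 4]⟩]⟩

lemma dk19_19_4_0 : BlkD.pairOk d19_19_4_0 = true := by decide +kernel

/-- the certificates of the part 1 of the pair `(4, 0)` -/
def t19_19_4_0_1 : BlkD.Tr :=
  .S 0 4 (.S 2 0 (.L 3 3 [4] [] [] 100000 0 0 516667 16667 0 33333 66667 0 0 0) (.E 1)) (.E 0)

lemma n19_19_4_0_1 {n : ℕ} (hn : 5 ≤ n) : NoNd ((19 : ℕ) : ℤ) ((19 : ℕ) : ℤ) n 4 0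
    (BlkD.inB (fun _ => 0)
      (fun _ => 19)) :=
  BlkD.part_sound (d := d19_19_4_0) dk19_19_4_0 hn (by decide) (tr := t19_19_4_0_1)
    (by decide +kernel) rfl rfl rfl rfl

lemma pr19_19_4_0 {n : ℕ} (hn : 5 ≤ n) : NoPr ((19 : ℕ) : ℤ) ((19 : ℕ) : ℤ) n 4 0 :=
  BlkD.of_root (q := 3) (by decide) hn (n19_19_4_0_1 hn)

/-- the numbers of the pair `(4, 1)`, `R = 19`, `H = 19` -/
def d19_19_4_1 : BlkD.Pd :=
  ⟨19, 19, 3, 4, 1, 11, 1, 1, 0, 4, 6, 0, 0, 4, 4, 0, [0, 6, 12, 18, 24, 30, 36, 42, 44, 44, 44,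
    44], [0, 4, 8, 12, 16, 20, 24, 28, 32, 36, 40, 44], [⟨1, 1, 1, 4, 8, [0, 4], [0, 4]⟩, ⟨1, 1, 1,
    4, 10, [0, 6], [0, 4]⟩]⟩

lemma dk19_19_4_1 : BlkD.pairOk d19_19_4_1 = true := by decide +kernel

/-- the certificates of the part 1 of the pair `(4, 1)` -/
def t19_19_4_1_1 : BlkD.Tr :=
  .S 0 4 (.S 2 1 (.L 4 4 [4, 4] [] [] 100000 0 0 680000 20000 0 40000 0 0 0 0) (.E 1)) (.E 0)

lemma n19_19_4_1_1 {n : ℕ} (hn : 5 ≤ n) : NoNd ((19 : ℕ) : ℤ) ((19 : ℕ) : ℤ) n 4 1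
    (BlkD.inB (fun _ => 0)
      (fun _ => 19)) :=
  BlkD.part_sound (d := d19_19_4_1) dk19_19_4_1 hn (by decide) (tr := t19_19_4_1_1)
    (by decide +kernel) rfl rfl rfl rfl

lemma pr19_19_4_1 {n : ℕ} (hn : 5 ≤ n) : NoPr ((19 : ℕ) : ℤ) ((19 : ℕ) : ℤ) n 4 1 :=
  BlkD.of_root (q := 3) (by decide) hn (n19_19_4_1_1 hn)

/-- the numbers of the pair `(4, 2)`, `R = 19`, `H = 19` -/
def d19_19_4_2 : BlkD.Pd :=
  ⟨19, 19, 3, 4, 2, 10, 2, 1, 2, 2, 8, 0, 0, 4, 6, 0, [0, 8, 16, 24, 28, 30, 32, 34, 36, 38, 40],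
    [0, 6, 12, 18, 24, 30, 36, 40, 40, 40, 40], [⟨1, 1, 1, 4, 8, [0, 4], [0, 4]⟩, ⟨1, 1, 1, 4, 10,
    [0, 6], [0, 4]⟩, ⟨1, 1, 1, 6, 14, [0, 8], [0, 6]⟩]⟩

lemma dk19_19_4_2 : BlkD.pairOk d19_19_4_2 = true := by decide +kernel

/-- the certificates of the part 1 of the pair `(4, 2)` -/
def t19_19_4_2_1 : BlkD.Tr :=
  .S 0 4 (.S 2 2 (.L 4 5 [4, 4, 4] [] [] 100000 1668 0 783333 16667 0 50000 11111 0 13889 40556)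
    (.E 1)) (.E 0)

lemma n19_19_4_2_1 {n : ℕ} (hn : 5 ≤ n) : NoNd ((19 : ℕ) : ℤ) ((19 : ℕ) : ℤ) n 4 2
    (BlkD.inB (fun _ => 0)
      (fun _ => 19)) :=
  BlkD.part_sound (d := d19_19_4_2) dk19_19_4_2 hn (by decide) (tr := t19_19_4_2_1)
    (by decide +kernel) rfl rfl rfl rfl

lemma pr19_19_4_2 {n : ℕ} (hn : 5 ≤ n) : NoPr ((19 : ℕ) : ℤ) ((19 : ℕ) : ℤ) n 4 2 :=
  BlkD.of_root (q := 3) (by decide) hn (n19_19_4_2_1 hn)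

/-- the numbers of the pair `(4, 3)`, `R = 19`, `H = 19` -/
def d19_19_4_3 : BlkD.Pd :=
  ⟨19, 19, 3, 4, 3, 9, 3, 1, 2, 2, 8, 0, 4, 1, 8, 0, [0, 8, 16, 24, 26, 28, 30, 32, 34, 36], [0, 8,
    16, 21, 25, 29, 33, 37, 41, 45], [⟨1, 1, 1, 4, 8, [0, 4], [0, 4]⟩, ⟨1, 1, 1, 6, 12, [0, 6], [0,
    6]⟩, ⟨1, 1, 1, 6, 14, [0, 8], [0, 6]⟩, ⟨1, 1, 1, 8, 16, [0, 8], [0, 8]⟩]⟩

lemma dk19_19_4_3 : BlkD.pairOk d19_19_4_3 = true := by decide +kernel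

/-- the certificates of the part 1 of the pair `(4, 3)` -/
def t19_19_4_3_1 : BlkD.Tr :=
  .S 0 4 (.S 2 3 (.L 5 5 [4, 4, 4, 5] [] [] 100000 6327 6326 922222 0 0 77778 38889 22222 24691
    34105) (.E 1)) (.E 0)

lemma n19_19_4_3_1 {n : ℕ} (hn : 5 ≤ n) : NoNd ((19 : ℕ) : ℤ) ((19 : ℕ) : ℤ) n 4 3
    (BlkD.inB (fun _ => 0)
      (fun _ => 19)) :=
  BlkD.part_sound (d := d19_19_4_3) dk19_19_4_3 hn (by decide) (tr := t19_19_4_3_1)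
    (by decide +kernel) rfl rfl rfl rfl

lemma pr19_19_4_3 {n : ℕ} (hn : 5 ≤ n) : NoPr ((19 : ℕ) : ℤ) ((19 : ℕ) : ℤ) n 4 3 :=
  BlkD.of_root (q := 3) (by decide) hn (n19_19_4_3_1 hn)

/-- the numbers of the pair `(5, 0)`, `R = 19`, `H = 19` -/
def d19_19_5_0 : BlkD.Pd :=
  ⟨19, 19, 3, 5, 0, 11, 0, 1, 0, 4, 4, 0, 0, 4, 4, 0, [0, 4, 8, 12, 16, 20, 24, 28, 32, 36, 40,
    44], [0, 4, 8, 12, 16, 20, 24, 28, 32, 36, 40, 44], [⟨1, 1, 1, 4, 8, [0, 4], [0, 4]⟩]⟩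

lemma dk19_19_5_0 : BlkD.pairOk d19_19_5_0 = true := by decide +kernel

/-- the certificates of the part 1 of the pair `(5, 0)` -/
def t19_19_5_0_1 : BlkD.Tr :=
  .S 0 5 (.S 2 0 (.L 7 7 [4] [] [] 100000 0 0 625000 25000 0 50000 50000 0 0 0) (.E 1)) (.E 0)

lemma n19_19_5_0_1 {n : ℕ} (hn : 5 ≤ n) : NoNd ((19 : ℕ) : ℤ) ((19 : ℕ) : ℤ) n 5 0
    (BlkD.inB (fun _ => 0)
      (fun _ => 19)) :=
  BlkD.part_sound (d := d19_19_5_0) dk19_19_5_0 hn (by decide) (tr := t19_19_5_0_1)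
    (by decide +kernel) rfl rfl rfl rfl

lemma pr19_19_5_0 {n : ℕ} (hn : 5 ≤ n) : NoPr ((19 : ℕ) : ℤ) ((19 : ℕ) : ℤ) n 5 0 :=
  BlkD.of_root (q := 3) (by decide) hn (n19_19_5_0_1 hn)

/-- the numbers of the pair `(5, 1)`, `R = 19`, `H = 19` -/
def d19_19_5_1 : BlkD.Pd :=
  ⟨19, 19, 3, 5, 1, 10, 1, 1, 2, 2, 6, 0, 0, 4, 4, 0, [0, 6, 12, 18, 24, 30, 32, 34, 36, 38, 40],
    [0, 4, 8, 12, 16, 20, 24, 28, 32, 36, 40], [⟨1, 1, 1, 4, 8, [0, 4], [0, 4]⟩, ⟨1, 1, 1, 4, 10,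
    [0, 6], [0, 4]⟩]⟩

lemma dk19_19_5_1 : BlkD.pairOk d19_19_5_1 = true := by decide +kernel

/-- the certificates of the part 1 of the pair `(5, 1)` -/
def t19_19_5_1_1 : BlkD.Tr :=
  .S 0 5 (.S 2 1 (.L 7 7 [4, 4] [] [] 100000 0 0 775000 25000 0 50000 0 0 0 0) (.E 1)) (.E 0)

lemma n19_19_5_1_1 {n : ℕ} (hn : 5 ≤ n) : NoNd ((19 : ℕ) : ℤ) ((19 : ℕ) : ℤ) n 5 1
    (BlkD.inB (fun _ => 0)
      (fun _ => 19)) :=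
  BlkD.part_sound (d := d19_19_5_1) dk19_19_5_1 hn (by decide) (tr := t19_19_5_1_1)
    (by decide +kernel) rfl rfl rfl rfl

lemma pr19_19_5_1 {n : ℕ} (hn : 5 ≤ n) : NoPr ((19 : ℕ) : ℤ) ((19 : ℕ) : ℤ) n 5 1 :=
  BlkD.of_root (q := 3) (by decide) hn (n19_19_5_1_1 hn)

/-- the numbers of the pair `(5, 2)`, `R = 19`, `H = 19` -/
def d19_19_5_2 : BlkD.Pd :=
  ⟨19, 19, 3, 5, 2, 9, 2, 1, 2, 2, 8, 0, 0, 4, 6, 0, [0, 8, 16, 24, 26, 28, 30, 32, 34, 36], [0, 6,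
    12, 18, 24, 30, 36, 36, 36, 36], [⟨1, 1, 1, 4, 8, [0, 4], [0, 4]⟩, ⟨1, 1, 1, 4, 10, [0, 6], [0,
    4]⟩, ⟨1, 1, 1, 6, 14, [0, 8], [0, 6]⟩]⟩

lemma dk19_19_5_2 : BlkD.pairOk d19_19_5_2 = true := by decide +kernel

/-- the certificates of the part 1 of the pair `(5, 2)` -/
def t19_19_5_2_1 : BlkD.Tr :=
  .S 0 5 (.S 2 2 (.L 7 7 [4, 4, 4] [] [] 100000 0 0 915055 15412 7885 46237 27957 16129 27957
    27957) (.E 1)) (.E 0)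

lemma n19_19_5_2_1 {n : ℕ} (hn : 5 ≤ n) : NoNd ((19 : ℕ) : ℤ) ((19 : ℕ) : ℤ) n 5 2
    (BlkD.inB (fun _ => 0)
      (fun _ => 19)) :=
  BlkD.part_sound (d := d19_19_5_2) dk19_19_5_2 hn (by decide) (tr := t19_19_5_2_1)
    (by decide +kernel) rfl rfl rfl rfl

lemma pr19_19_5_2 {n : ℕ} (hn : 5 ≤ n) : NoPr ((19 : ℕ) : ℤ) ((19 : ℕ) : ℤ) n 5 2 :=
  BlkD.of_root (q := 3) (by decide) hn (n19_19_5_2_1 hn)

/-- the numbers of the pair `(5, 3)`, `R = 19`, `H = 19` -/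
def d19_19_5_3 : BlkD.Pd :=
  ⟨19, 19, 3, 5, 3, 8, 3, 2, 2, 2, 10, 0, 4, 1, 8, 0, [0, 10, 20, 22, 24, 26, 28, 30, 32], [0, 8,
    16, 20, 24, 28, 32, 36, 40], [⟨1, 1, 1, 4, 8, [0, 4], [0, 4]⟩, ⟨1, 1, 1, 6, 12, [0, 6], [0,
    6]⟩, ⟨1, 1, 1, 6, 14, [0, 8], [0, 6]⟩, ⟨2, 1, 1, 6, 18, [0, 10, 10], [0, 8]⟩]⟩

lemma dk19_19_5_3 : BlkD.pairOk d19_19_5_3 = true := by decide +kernel

/-- the certificates of the part 1 of the pair `(5, 3)` -/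
def t19_19_5_3_1 : BlkD.Tr :=
  .S 0 1 (.L 7 7 [4, 4, 5, 4] [] [] 100000 26399 26399 898432 48770 0 53244 24385 4474 16331 25391)
    (.S 1 17 (.S 1 8 (.S 1 4 (.L 7 7 [4, 4, 5, 4] [] [] 100000 21533 21533 947497 26253 0 48475
    55882 7407 27996 29630) (.S 1 6 (.S 1 5 (.L 7 7 [4, 4, 5, 4] [74, 72, 70, 60, 50, 40] [] 100000
    22339 22339 984134 28967 0 53250 40201 9967 23016 16707) (.L 7 7 [4, 4, 5, 4] [90, 88, 86, 84,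
    74, 64] [] 100000 22222 22221 905556 5556 0 94444 44444 22222 22222 11111)) (.E 0))) (.E 0))
    (.E 0))

lemma n19_19_5_3_1 {n : ℕ} (hn : 5 ≤ n) : NoNd ((19 : ℕ) : ℤ) ((19 : ℕ) : ℤ) n 5 3
    (BlkD.inB (fun _ => 0)
      (BlkD.upd (BlkD.upd (BlkD.upd (fun _ => 19) 0 5) 2 3) 0 2)) :=
  BlkD.part_sound (d := d19_19_5_3) dk19_19_5_3 hn (by decide) (tr := t19_19_5_3_1)
    (by decide +kernel) rfl rfl rfl rfl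

/-- the certificates of the part 2 of the pair `(5, 3)` -/
def t19_19_5_3_2 : BlkD.Tr :=
  .S 0 4 (.S 0 3 (.S 1 16 (.S 1 8 (.S 1 4 (.L 7 7 [4, 4, 5, 4] [] [] 100000 20732 20732 988152
    22370 0 67111 44740 14286 23519 19247) (.L 7 7 [4, 4, 5, 4] [] [] 100000 19445 19445 919444 0 0
    90278 50000 19444 22222 13889)) (.E 0)) (.E 0)) (.S 1 15 (.S 1 7 (.S 1 3 (.L 7 7 [4, 4, 5, 4]
    [] [] 100000 18929 18929 1000000 18214 0 81786 45714 18214 25000 14643) (.L 7 7 [4, 4, 5, 4] []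
    [] 100000 40000 0 680000 0 0 140000 50000 0 20000 10000)) (.E 0)) (.E 0))) (.L 7 7 [4, 4, 5, 4]
    [] [] 100000 347 346 1000001 0 0 50000 33333 67708 31250 33854)

lemma n19_19_5_3_2 {n : ℕ} (hn : 5 ≤ n) : NoNd ((19 : ℕ) : ℤ) ((19 : ℕ) : ℤ) n 5 3
    (BlkD.inB (BlkD.upd (fun _ => 0) 0 3)
      (BlkD.upd (BlkD.upd (fun _ => 19) 0 5) 2 3)) :=
  BlkD.part_sound (d := d19_19_5_3) dk19_19_5_3 hn (by decide) (tr := t19_19_5_3_2)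
    (by decide +kernel) rfl rfl rfl rfl

/-- the certificates of the part 3 of the pair `(5, 3)` -/
def t19_19_5_3_3 : BlkD.Tr :=
  .E 1

lemma n19_19_5_3_3 {n : ℕ} (hn : 5 ≤ n) : NoNd ((19 : ℕ) : ℤ) ((19 : ℕ) : ℤ) n 5 3
    (BlkD.inB (BlkD.upd (fun _ => 0) 2 4)
      (BlkD.upd (fun _ => 19) 0 5)) :=
  BlkD.part_sound (d := d19_19_5_3) dk19_19_5_3 hn (by decide) (tr := t19_19_5_3_3)
    (by decide +kernel) rfl rfl rfl rfl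

/-- the certificates of the part 4 of the pair `(5, 3)` -/
def t19_19_5_3_4 : BlkD.Tr :=
  .E 0

lemma n19_19_5_3_4 {n : ℕ} (hn : 5 ≤ n) : NoNd ((19 : ℕ) : ℤ) ((19 : ℕ) : ℤ) n 5 3
    (BlkD.inB (BlkD.upd (fun _ => 0) 0 6)
      (fun _ => 19)) :=
  BlkD.part_sound (d := d19_19_5_3) dk19_19_5_3 hn (by decide) (tr := t19_19_5_3_4)
    (by decide +kernel) rfl rfl rfl rfl

lemma pr19_19_5_3 {n : ℕ} (hn : 5 ≤ n) : NoPr ((19 : ℕ) : ℤ) ((19 : ℕ) : ℤ) n 5 3 :=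
  BlkD.of_root (q := 3) (by decide) hn (BlkD.sp 0 5 (BlkD.sp 2 3 (BlkD.sp 0 2 (n19_19_5_3_1 hn)
    (n19_19_5_3_2 hn))
    (n19_19_5_3_3 hn))
    (n19_19_5_3_4 hn))

/-- the numbers of the pair `(5, 4)`, `R = 19`, `H = 19` -/
def d19_19_5_4 : BlkD.Pd :=
  ⟨19, 19, 3, 5, 4, 7, 4, 2, 0, 4, 10, 0, 2, 2, 10, 0, [0, 10, 20, 28, 28, 28, 28, 28], [0, 10, 18,
    20, 22, 24, 26, 28], [⟨1, 1, 1, 4, 8, [0, 4], [0, 4]⟩, ⟨1, 1, 1, 6, 12, [0, 6], [0, 6]⟩, ⟨1, 1,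
    1, 6, 16, [0, 8], [0, 8]⟩, ⟨2, 1, 1, 6, 18, [0, 10, 10], [0, 8]⟩, ⟨2, 2, 1, 4, 32, [0, 10, 18],
    [0, 10, 14]⟩]⟩

lemma dk19_19_5_4 : BlkD.pairOk d19_19_5_4 = true := by decide +kernel

/-- the certificates of the part 1 of the pair `(5, 4)` -/
def t19_19_5_4_1 : BlkD.Tr :=
  .L 7 7 [4, 4, 4, 4, 4] [] [] 100000 85329 85328 829344 91617 0 95808 50000 0 1198 17665

lemma n19_19_5_4_1 {n : ℕ} (hn : 5 ≤ n) : NoNd ((19 : ℕ) : ℤ) ((19 : ℕ) : ℤ) n 5 4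
    (BlkD.inB (fun _ => 0)
      (BlkD.upd (BlkD.upd (BlkD.upd (BlkD.upd (fun _ => 19) 0 5) 2 4) 0 2) 0 1)) :=
  BlkD.part_sound (d := d19_19_5_4) dk19_19_5_4 hn (by decide) (tr := t19_19_5_4_1)
    (by decide +kernel) rfl rfl rfl rfl

/-- the certificates of the part 2 of the pair `(5, 4)` -/
def t19_19_5_4_2 : BlkD.Tr :=
  .L 7 7 [4, 4, 4, 4, 4] [] [] 100000 30556 30556 1000000 3333 6667 6667 46667 0 24444 33333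

lemma n19_19_5_4_2 {n : ℕ} (hn : 5 ≤ n) : NoNd ((19 : ℕ) : ℤ) ((19 : ℕ) : ℤ) n 5 4
    (BlkD.inB (BlkD.upd (fun _ => 0) 0 2)
      (BlkD.upd (BlkD.upd (BlkD.upd (BlkD.upd (BlkD.upd (BlkD.upd (BlkD.upd (fun _ => 19) 0 5) 2 4) 0 2) 1 17) 1 8) 1 4) 1 2)) :=
  BlkD.part_sound (d := d19_19_5_4) dk19_19_5_4 hn (by decide) (tr := t19_19_5_4_2)
    (by decide +kernel) rfl rfl rfl rfl

/-- the certificates of the part 3 of the pair `(5, 4)` -/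
def t19_19_5_4_3 : BlkD.Tr :=
  .S 2 2 (.S 2 1 (.L 7 7 [4, 4, 4, 4, 4] [48, 38, 28, 18, 0, 0] [] 100000 34375 34375 1050000 6250
    18750 18750 56250 0 18750 31250) (.L 5 6 [4, 4, 4, 5, 5] [48, 38, 28, 18, 0, 0] [] 100000 31548
    31548 1066670 11111 0 11111 50000 0 23810 33333)) (.L 5 6 [4, 4, 4, 5, 5] [48, 38, 28, 18, 0,
    0] [] 100000 30000 30000 1040000 20000 0 20000 40000 0 60000 40000)

lemma n19_19_5_4_3 {n : ℕ} (hn : 5 ≤ n) : NoNd ((19 : ℕ) : ℤ) ((19 : ℕ) : ℤ) n 5 4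
    (BlkD.inB (BlkD.upd (BlkD.upd (fun _ => 0) 0 2) 1 3)
      (BlkD.upd (BlkD.upd (BlkD.upd (BlkD.upd (BlkD.upd (BlkD.upd (BlkD.upd (fun _ => 19) 0 5) 2 4) 0 2) 1 17) 1 8) 1 4) 1 3)) :=
  BlkD.part_sound (d := d19_19_5_4) dk19_19_5_4 hn (by decide) (tr := t19_19_5_4_3)
    (by decide +kernel) rfl rfl rfl rfl

/-- the certificates of the part 4 of the pair `(5, 4)` -/
def t19_19_5_4_4 : BlkD.Tr :=
  .S 2 0 (.L 5 6 [4, 4, 4, 5, 5] [66, 58, 48, 38, 28, 0] [] 100000 50000 50000 800000 0 0 0 100000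
    0 0 0) (.S 3 12 (.S 3 6 (.S 3 3 (.L 5 6 [4, 4, 4, 5, 5] [66, 58, 48, 38, 28, 0] [] 100000 41667
    41667 966667 0 33333 33333 33333 0 0 33333) (.S 3 5 (.S 3 4 (.L 5 6 [4, 4, 4, 5, 5] [66, 58,
    48, 38, 28, 0] [56, 48, 40, 30, 20, 0] 100000 37597 37597 1038374 0 33333 46899 44961 3101 5039
    33333) (.S 4 4 (.S 4 2 (.S 4 1 (.L 5 6 [4, 4, 4, 5, 5] [38, 28, 0, 0, 0, 0] [68, 66, 58, 50,
    40, 30] 100000 18750 18750 1100000 12500 16667 45833 37500 29167 37500 25000) (.L 5 6 [4, 4, 4,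
    5, 5] [48, 38, 28, 0, 0, 0] [68, 66, 58, 50, 40, 30] 100000 26705 26705 1026138 6818 1136 81818
    38636 0 43182 25000)) (.L 5 6 [4, 4, 4, 5, 5] [66, 58, 48, 38, 28, 0] [68, 66, 58, 50, 40, 30]
    100000 50000 30000 840000 0 0 120000 60000 0 0 20000)) (.E 2))) (.S 4 4 (.S 4 2 (.S 4 1 (.L 5 6
    [4, 4, 4, 5, 5] [38, 28, 0, 0, 0, 0] [82, 80, 78, 70, 62, 52] 100000 35715 35714 1014284 21429
    0 21429 100000 71429 0 28571) (.L 5 6 [4, 4, 4, 5, 5] [48, 38, 28, 0, 0, 0] [82, 80, 78, 70,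
    62, 52] 100000 50000 50000 950000 0 0 75000 100000 0 0 25000)) (.L 5 6 [4, 4, 4, 5, 5] [66, 58,
    48, 38, 28, 0] [82, 80, 78, 70, 62, 52] 100000 100000 50000 550000 0 0 150000 150000 0 0
    25000)) (.E 2)))) (.E 1)) (.E 1))

lemma n19_19_5_4_4 {n : ℕ} (hn : 5 ≤ n) : NoNd ((19 : ℕ) : ℤ) ((19 : ℕ) : ℤ) n 5 4
    (BlkD.inB (BlkD.upd (BlkD.upd (BlkD.upd (fun _ => 0) 0 2) 1 3) 1 4)
      (BlkD.upd (BlkD.upd (BlkD.upd (BlkD.upd (BlkD.upd (BlkD.upd (BlkD.upd (BlkD.upd (fun _ => 19) 0 5) 2 4) 0 2) 1 17) 1 8) 1 4) 2 2) 2 1)) :=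
  BlkD.part_sound (d := d19_19_5_4) dk19_19_5_4 hn (by decide) (tr := t19_19_5_4_4)
    (by decide +kernel) rfl rfl rfl rfl

/-- the certificates of the part 5 of the pair `(5, 4)` -/
def t19_19_5_4_5 : BlkD.Tr :=
  .S 3 11 (.S 3 5 (.S 3 2 (.L 5 6 [4, 4, 4, 5, 5] [66, 58, 48, 38, 28, 0] [] 100000 34042 34041
    1004258 5319 0 47872 42553 2128 7447 44681) (.S 3 4 (.S 3 3 (.L 5 6 [4, 4, 4, 5, 5] [66, 58,
    48, 38, 28, 0] [46, 38, 28, 18, 0, 0] 100000 24405 24405 1066668 16667 0 57143 33333 9524 33333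
    27778) (.S 4 4 (.S 4 2 (.S 4 1 (.L 5 6 [4, 4, 4, 5, 5] [38, 28, 0, 0, 0, 0] [64, 56, 48, 38,
    28, 0] 100000 22500 22500 1080000 30000 0 60000 30000 30000 60000 25000) (.L 5 6 [4, 4, 4, 5,
    5] [48, 38, 28, 0, 0, 0] [64, 56, 48, 38, 28, 0] 100000 26974 26974 1002633 7895 0 90789 30263
    0 44737 25000)) (.L 5 6 [4, 4, 4, 5, 5] [66, 58, 48, 38, 28, 0] [64, 56, 48, 38, 28, 0] 100000
    50000 9999 780000 0 0 140000 46667 0 3333 16667)) (.E 2))) (.S 4 4 (.S 4 2 (.S 4 1 (.L 5 6 [4,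
    4, 4, 5, 5] [38, 28, 0, 0, 0, 0] [78, 76, 68, 60, 50, 40] 100000 85715 85714 814284 71429 0
    71429 100000 71429 0 28571) (.L 5 6 [4, 4, 4, 5, 5] [48, 38, 28, 0, 0, 0] [78, 76, 68, 60, 50,
    40] 100000 43750 43750 975000 6250 0 81250 75000 0 0 25000)) (.L 5 6 [4, 4, 4, 5, 5] [66, 58,
    48, 38, 28, 0] [78, 76, 68, 60, 50, 40] 100000 100000 50000 550000 0 0 150000 150000 0 0
    25000)) (.E 2)))) (.E 1)) (.E 1)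

lemma n19_19_5_4_5 {n : ℕ} (hn : 5 ≤ n) : NoNd ((19 : ℕ) : ℤ) ((19 : ℕ) : ℤ) n 5 4
    (BlkD.inB (BlkD.upd (BlkD.upd (BlkD.upd (BlkD.upd (fun _ => 0) 0 2) 1 3) 1 4) 2 2)
      (BlkD.upd (BlkD.upd (BlkD.upd (BlkD.upd (BlkD.upd (BlkD.upd (BlkD.upd (fun _ => 19) 0 5) 2 4) 0 2) 1 17) 1 8) 1 4) 2 2)) :=
  BlkD.part_sound (d := d19_19_5_4) dk19_19_5_4 hn (by decide) (tr := t19_19_5_4_5)
    (by decide +kernel) rfl rfl rfl rfl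

/-- the certificates of the part 6 of the pair `(5, 4)` -/
def t19_19_5_4_6 : BlkD.Tr :=
  .L 5 6 [4, 4, 4, 5, 5] [66, 58, 48, 38, 28, 0] [] 100000 24359 24358 1092308 17949 0 61538 35897
    10256 56410 20513

lemma n19_19_5_4_6 {n : ℕ} (hn : 5 ≤ n) : NoNd ((19 : ℕ) : ℤ) ((19 : ℕ) : ℤ) n 5 4
    (BlkD.inB (BlkD.upd (BlkD.upd (BlkD.upd (BlkD.upd (fun _ => 0) 0 2) 1 3) 1 4) 2 3)
      (BlkD.upd (BlkD.upd (BlkD.upd (BlkD.upd (BlkD.upd (BlkD.upd (fun _ => 19) 0 5) 2 4) 0 2) 1 17) 1 8) 1 4)) :=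
  BlkD.part_sound (d := d19_19_5_4) dk19_19_5_4 hn (by decide) (tr := t19_19_5_4_6)
    (by decide +kernel) rfl rfl rfl rfl

/-- the certificates of the part 7 of the pair `(5, 4)` -/
def t19_19_5_4_7 : BlkD.Tr :=
  .S 2 1 (.S 2 0 (.L 5 6 [4, 4, 4, 5, 5] [86, 78, 70, 60, 50, 40] [] 100000 50000 50000 750000 0 0
    50000 100000 0 0 0) (.S 3 11 (.S 3 5 (.S 3 2 (.L 5 6 [4, 4, 4, 5, 5] [86, 78, 70, 60, 50, 40]
    [] 100000 38889 38889 972225 0 33333 61111 33333 5556 0 33333) (.S 3 4 (.S 3 3 (.L 5 6 [4, 4,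
    4, 5, 5] [86, 78, 70, 60, 50, 40] [40, 32, 22, 12, 0, 0] 100000 40132 40132 1026315 13158 26316
    52632 39474 5263 5263 28947) (.S 4 5 (.S 4 2 (.L 5 6 [4, 4, 4, 5, 5] [60, 50, 40, 0, 0, 0] [56,
    48, 40, 30, 20, 0] 100000 22589 22589 1102630 2632 32018 25439 57456 52193 9649 22368) (.L 5 6
    [4, 4, 4, 5, 5] [86, 78, 70, 60, 50, 40] [56, 48, 40, 30, 20, 0] 100000 39616 39616 984616 0
    7692 100000 38462 0 12308 16923)) (.E 2))) (.S 4 5 (.S 4 2 (.L 5 6 [4, 4, 4, 5, 5] [60, 50, 40,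
    0, 0, 0] [68, 66, 58, 50, 40, 30] 100000 20193 20193 1107690 19231 19231 38462 38462 38462
    38462 25000) (.L 5 6 [4, 4, 4, 5, 5] [86, 78, 70, 60, 50, 40] [68, 66, 58, 50, 40, 30] 100000
    37500 37500 1000000 0 0 100000 50000 0 25000 25000)) (.E 2)))) (.L 5 6 [4, 4, 4, 5, 5] [86, 78,
    70, 60, 50, 40] [] 100000 50000 50000 950000 0 0 100000 75000 0 0 25000)) (.E 1))) (.S 3 10 (.S
    3 5 (.S 3 2 (.L 5 6 [4, 4, 4, 5, 5] [86, 78, 70, 60, 50, 40] [] 100000 35715 35715 1050000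
    25000 0 54762 41667 7738 8333 25000) (.S 3 4 (.S 3 3 (.S 4 5 (.S 4 2 (.L 5 6 [4, 4, 4, 5, 5]
    [60, 50, 40, 0, 0, 0] [46, 38, 28, 18, 0, 0] 100000 17392 17392 1095652 26087 0 47826 34783
    39130 43478 23913) (.L 5 6 [4, 4, 4, 5, 5] [86, 78, 70, 60, 50, 40] [46, 38, 28, 18, 0, 0]
    100000 25000 25000 1000000 0 0 100000 25000 0 50000 25000)) (.E 2)) (.S 4 5 (.S 4 2 (.L 5 6 [4,
    4, 4, 5, 5] [60, 50, 40, 0, 0, 0] [64, 56, 48, 38, 28, 0] 100000 19445 19445 1111113 33333 0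
    55556 22222 22222 66667 22222) (.L 5 6 [4, 4, 4, 5, 5] [86, 78, 70, 60, 50, 40] [64, 56, 48,
    38, 28, 0] 100000 29167 29167 1000001 0 0 100000 33333 0 41667 25000)) (.E 2))) (.L 5 6 [4, 4,
    4, 5, 5] [86, 78, 70, 60, 50, 40] [78, 76, 68, 60, 50, 40] 100000 50000 50000 950000 0 0 100000
    75000 0 0 25000))) (.E 1)) (.E 1))

lemma n19_19_5_4_7 {n : ℕ} (hn : 5 ≤ n) : NoNd ((19 : ℕ) : ℤ) ((19 : ℕ) : ℤ) n 5 4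
    (BlkD.inB (BlkD.upd (BlkD.upd (fun _ => 0) 0 2) 1 5)
      (BlkD.upd (BlkD.upd (BlkD.upd (BlkD.upd (BlkD.upd (BlkD.upd (BlkD.upd (BlkD.upd (fun _ => 19) 0 5) 2 4) 0 2) 1 17) 1 8) 1 6) 1 5) 2 2)) :=
  BlkD.part_sound (d := d19_19_5_4) dk19_19_5_4 hn (by decide) (tr := t19_19_5_4_7)
    (by decide +kernel) rfl rfl rfl rfl

/-- the certificates of the part 8 of the pair `(5, 4)` -/
def t19_19_5_4_8 : BlkD.Tr :=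
  .S 2 3 (.S 3 9 (.S 3 4 (.S 3 2 (.L 5 6 [4, 4, 4, 5, 5] [86, 78, 70, 60, 50, 40] [] 100000 30539
    30539 1075949 31013 0 53165 31013 8861 31013 22785) (.S 3 3 (.S 4 5 (.S 4 2 (.L 5 6 [4, 4, 4,
    5, 5] [60, 50, 40, 0, 0, 0] [52, 44, 34, 24, 0, 0] 100000 16072 16072 1107143 21429 0 42857
    42857 35714 42857 25000) (.L 5 6 [4, 4, 4, 5, 5] [86, 78, 70, 60, 50, 40] [52, 44, 34, 24, 0,
    0] 100000 25000 24999 1000000 0 0 100000 0 0 33333 33333)) (.E 2)) (.E 1))) (.E 1)) (.E 1)) (.L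
    5 6 [4, 4, 4, 5, 5] [86, 78, 70, 60, 50, 40] [] 100000 50000 50000 975000 50000 0 75000 25000 0
    50000 25000)

lemma n19_19_5_4_8 {n : ℕ} (hn : 5 ≤ n) : NoNd ((19 : ℕ) : ℤ) ((19 : ℕ) : ℤ) n 5 4
    (BlkD.inB (BlkD.upd (BlkD.upd (BlkD.upd (fun _ => 0) 0 2) 1 5) 2 3)
      (BlkD.upd (BlkD.upd (BlkD.upd (BlkD.upd (BlkD.upd (BlkD.upd (BlkD.upd (fun _ => 19) 0 5) 2 4) 0 2) 1 17) 1 8) 1 6) 1 5)) :=
  BlkD.part_sound (d := d19_19_5_4) dk19_19_5_4 hn (by decide) (tr := t19_19_5_4_8)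
    (by decide +kernel) rfl rfl rfl rfl

/-- the certificates of the part 9 of the pair `(5, 4)` -/
def t19_19_5_4_9 : BlkD.Tr :=
  .S 2 2 (.S 2 1 (.S 2 0 (.L 5 6 [4, 4, 4, 5, 5] [100, 100, 92, 84, 74, 64] [] 100000 50000 50000
    750000 0 0 50000 100000 0 0 0) (.S 3 10 (.S 3 5 (.S 3 2 (.L 5 6 [4, 4, 4, 5, 5] [100, 100, 92,
    84, 74, 64] [] 100000 33077 33076 991539 13846 13846 66923 27692 23077 0 21538) (.S 3 4 (.S 3 3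
    (.L 5 6 [4, 4, 4, 5, 5] [100, 100, 92, 84, 74, 64] [40, 32, 22, 12, 0, 0] 100000 35910 35910
    1049092 18182 18182 60000 27273 16364 0 23636) (.L 5 6 [4, 4, 4, 5, 5] [100, 100, 92, 84, 74,
    64] [56, 48, 40, 30, 20, 0] 100000 32813 32813 1065625 0 0 93750 46875 0 28125 25000)) (.L 5 6
    [4, 4, 4, 5, 5] [100, 100, 92, 84, 74, 64] [68, 66, 58, 50, 40, 30] 100000 31819 31819 1027272
    9091 9091 100000 18182 0 50000 22727))) (.E 2)) (.E 1))) (.S 3 9 (.S 3 4 (.S 3 2 (.L 5 6 [4, 4,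
    4, 5, 5] [100, 100, 92, 84, 74, 64] [] 100000 28458 28457 1077235 18732 0 66571 31700 23919
    8934 20461) (.L 5 6 [4, 4, 4, 5, 5] [100, 100, 92, 84, 74, 64] [] 100000 30556 30556 1044445
    11111 0 100000 22222 0 44444 22222)) (.E 2)) (.E 1))) (.L 5 6 [4, 4, 4, 5, 5] [100, 100, 92,
    84, 74, 64] [] 100000 25000 25000 1066667 11111 0 88889 22222 5556 44444 22222)

lemma n19_19_5_4_9 {n : ℕ} (hn : 5 ≤ n) : NoNd ((19 : ℕ) : ℤ) ((19 : ℕ) : ℤ) n 5 4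
    (BlkD.inB (BlkD.upd (BlkD.upd (BlkD.upd (fun _ => 0) 0 2) 1 5) 1 6)
      (BlkD.upd (BlkD.upd (BlkD.upd (BlkD.upd (BlkD.upd (BlkD.upd (fun _ => 19) 0 5) 2 4) 0 2) 1 17) 1 8) 1 6)) :=
  BlkD.part_sound (d := d19_19_5_4) dk19_19_5_4 hn (by decide) (tr := t19_19_5_4_9)
    (by decide +kernel) rfl rfl rfl rfl

/-- the certificates of the part 10 of the pair `(5, 4)` -/
def t19_19_5_4_10 : BlkD.Tr :=
  .L 5 6 [4, 4, 4, 5, 5] [] [] 100000 34445 34445 1000001 0 0 100000 33333 17778 13333 17778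

lemma n19_19_5_4_10 {n : ℕ} (hn : 5 ≤ n) : NoNd ((19 : ℕ) : ℤ) ((19 : ℕ) : ℤ) n 5 4
    (BlkD.inB (BlkD.upd (BlkD.upd (BlkD.upd (fun _ => 0) 0 2) 1 5) 1 7)
      (BlkD.upd (BlkD.upd (BlkD.upd (BlkD.upd (BlkD.upd (fun _ => 19) 0 5) 2 4) 0 2) 1 17) 1 8)) :=
  BlkD.part_sound (d := d19_19_5_4) dk19_19_5_4 hn (by decide) (tr := t19_19_5_4_10)
    (by decide +kernel) rfl rfl rfl rfl

/-- the certificates of the part 11 of the pair `(5, 4)` -/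
def t19_19_5_4_11 : BlkD.Tr :=
  .E 0

lemma n19_19_5_4_11 {n : ℕ} (hn : 5 ≤ n) : NoNd ((19 : ℕ) : ℤ) ((19 : ℕ) : ℤ) n 5 4
    (BlkD.inB (BlkD.upd (BlkD.upd (fun _ => 0) 0 2) 1 9)
      (BlkD.upd (BlkD.upd (BlkD.upd (BlkD.upd (fun _ => 19) 0 5) 2 4) 0 2) 1 17)) :=
  BlkD.part_sound (d := d19_19_5_4) dk19_19_5_4 hn (by decide) (tr := t19_19_5_4_11)
    (by decide +kernel) rfl rfl rfl rfl

/-- the certificates of the part 12 of the pair `(5, 4)` -/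
def t19_19_5_4_12 : BlkD.Tr :=
  .E 0

lemma n19_19_5_4_12 {n : ℕ} (hn : 5 ≤ n) : NoNd ((19 : ℕ) : ℤ) ((19 : ℕ) : ℤ) n 5 4
    (BlkD.inB (BlkD.upd (BlkD.upd (fun _ => 0) 0 2) 1 18)
      (BlkD.upd (BlkD.upd (BlkD.upd (fun _ => 19) 0 5) 2 4) 0 2)) :=
  BlkD.part_sound (d := d19_19_5_4) dk19_19_5_4 hn (by decide) (tr := t19_19_5_4_12)
    (by decide +kernel) rfl rfl rfl rfl

/-- the certificates of the part 13 of the pair `(5, 4)` -/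
def t19_19_5_4_13 : BlkD.Tr :=
  .L 5 6 [4, 4, 4, 5, 5] [] [] 100000 26001 26001 1084000 14000 667 70667 44000 9333 21333 34667

lemma n19_19_5_4_13 {n : ℕ} (hn : 5 ≤ n) : NoNd ((19 : ℕ) : ℤ) ((19 : ℕ) : ℤ) n 5 4
    (BlkD.inB (BlkD.upd (fun _ => 0) 0 3)
      (BlkD.upd (BlkD.upd (BlkD.upd (BlkD.upd (BlkD.upd (BlkD.upd (BlkD.upd (BlkD.upd (fun _ => 19) 0 5) 2 4) 0 4) 0 3) 1 16) 1 8) 1 4) 1 2)) :=
  BlkD.part_sound (d := d19_19_5_4) dk19_19_5_4 hn (by decide) (tr := t19_19_5_4_13)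
    (by decide +kernel) rfl rfl rfl rfl

/-- the certificates of the part 14 of the pair `(5, 4)` -/
def t19_19_5_4_14 : BlkD.Tr :=
  .S 2 2 (.S 2 1 (.S 2 0 (.L 5 6 [4, 4, 4, 5, 5] [54, 44, 34, 24, 0, 0] [] 100000 50000 50000
    700000 0 0 50000 100000 0 0 0) (.S 3 12 (.S 3 6 (.S 3 3 (.L 5 6 [4, 4, 4, 5, 5] [54, 44, 34,
    24, 0, 0] [] 100000 41667 41667 966667 0 33333 33333 33333 0 0 33333) (.S 3 5 (.S 3 4 (.L 5 6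
    [4, 4, 4, 5, 5] [54, 44, 34, 24, 0, 0] [56, 48, 40, 30, 20, 0] 100000 36428 36427 1040003 0
    33333 42857 46667 3810 6667 33333) (.S 4 3 (.S 4 1 (.L 5 6 [4, 4, 4, 5, 5] [34, 24, 0, 0, 0, 0]
    [68, 66, 58, 50, 40, 30] 100000 37500 37500 975000 0 75000 0 75000 75000 0 25000) (.L 5 6 [4,
    4, 4, 5, 5] [54, 44, 34, 24, 0, 0] [68, 66, 58, 50, 40, 30] 100000 26875 26875 1027500 7500
    2500 82500 40000 0 42500 25000)) (.E 2))) (.L 5 6 [4, 4, 4, 5, 5] [54, 44, 34, 24, 0, 0] [82,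
    80, 78, 70, 62, 52] 100000 43750 43750 975000 0 0 87500 75000 0 0 25000))) (.E 1)) (.E 1))) (.S
    3 11 (.S 3 5 (.S 3 2 (.L 5 6 [4, 4, 4, 5, 5] [54, 44, 34, 24, 0, 0] [] 100000 31965 31965
    1020000 5000 0 33929 40000 3571 10000 45000) (.S 3 4 (.S 3 3 (.L 5 6 [4, 4, 4, 5, 5] [54, 44,
    34, 24, 0, 0] [46, 38, 28, 18, 0, 0] 100000 21389 21388 1100001 12222 0 74444 36667 14444 36667
    24444) (.S 4 3 (.S 4 1 (.L 4 4 [4, 4, 5, 6, 7] [34, 24, 0, 0, 0, 0] [64, 56, 48, 38, 28, 0]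
    100000 28572 28572 1071429 28571 14286 57143 42857 42857 71429 28571) (.L 4 4 [4, 4, 5, 6, 7]
    [54, 44, 34, 24, 0, 0] [64, 56, 48, 38, 28, 0] 100000 25000 25000 1012500 0 0 93750 31250 0
    50000 25000)) (.E 2))) (.L 4 4 [4, 4, 5, 6, 7] [54, 44, 34, 24, 0, 0] [78, 76, 68, 60, 50, 40]
    100000 62500 62500 900000 0 0 100000 100000 0 0 25000))) (.E 1)) (.E 1))) (.S 2 3 (.S 3 10 (.S
    3 5 (.S 3 2 (.L 4 4 [4, 4, 5, 6, 7] [54, 44, 34, 24, 0, 0] [] 100000 23058 23058 1103885 12621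
    0 82524 27184 16505 41748 29126) (.L 5 6 [4, 4, 4, 5, 5] [54, 44, 34, 24, 0, 0] [] 100000 24286
    24286 1100003 20000 0 68571 40000 11429 51429 20000)) (.E 1)) (.E 1)) (.L 5 6 [4, 4, 4, 5, 5]
    [54, 44, 34, 24, 0, 0] [] 100000 23077 23077 1092310 23077 0 61538 38462 15385 61538 23077))

lemma n19_19_5_4_14 {n : ℕ} (hn : 5 ≤ n) : NoNd ((19 : ℕ) : ℤ) ((19 : ℕ) : ℤ) n 5 4
    (BlkD.inB (BlkD.upd (BlkD.upd (fun _ => 0) 0 3) 1 3)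
      (BlkD.upd (BlkD.upd (BlkD.upd (BlkD.upd (BlkD.upd (BlkD.upd (BlkD.upd (BlkD.upd (fun _ => 19) 0 5) 2 4) 0 4) 0 3) 1 16) 1 8) 1 4) 1 3)) :=
  BlkD.part_sound (d := d19_19_5_4) dk19_19_5_4 hn (by decide) (tr := t19_19_5_4_14)
    (by decide +kernel) rfl rfl rfl rfl

/-- the certificates of the part 15 of the pair `(5, 4)` -/
def t19_19_5_4_15 : BlkD.Tr :=
  .S 2 2 (.S 2 1 (.S 2 0 (.L 5 6 [4, 4, 4, 5, 5] [74, 66, 56, 46, 36, 0] [] 100000 50000 50000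
    800000 0 0 0 100000 0 0 0) (.S 3 11 (.S 3 5 (.S 3 2 (.L 5 6 [4, 4, 4, 5, 5] [74, 66, 56, 46,
    36, 0] [] 100000 34524 34524 966668 0 33333 52381 33333 14286 0 33333) (.S 3 4 (.S 3 3 (.L 5 6
    [4, 4, 4, 5, 5] [74, 66, 56, 46, 36, 0] [40, 32, 22, 12, 0, 0] 100000 34524 34524 1033335 0
    33333 52381 33333 14286 0 33333) (.L 2 2 [6, 8, 9, 11, 13] [74, 66, 56, 46, 36, 0] [56, 48, 40,
    30, 20, 0] 100000 41884 41884 1024676 0 38961 58442 58442 19481 7792 22078)) (.S 4 4 (.S 4 2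
    (.L 2 2 [6, 8, 9, 11, 13] [56, 46, 36, 0, 0, 0] [68, 66, 58, 50, 40, 30] 100000 62500 62500
    912500 0 90625 12500 96875 62500 3125 25000) (.L 2 2 [6, 8, 9, 11, 13] [74, 66, 56, 46, 36, 0]
    [68, 66, 58, 50, 40, 30] 100000 62500 62500 900001 0 33333 100000 66667 0 8333 25000)) (.E
    2)))) (.L 2 2 [6, 8, 9, 11, 13] [74, 66, 56, 46, 36, 0] [] 100000 157143 0 1 28571 0 28571
    257143 0 0 0)) (.E 1))) (.S 3 10 (.S 3 5 (.S 3 2 (.L 5 6 [4, 4, 4, 5, 5] [74, 66, 56, 46, 36,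
    0] [] 100000 23077 23077 1089747 7692 2564 53205 37179 19231 12821 43590) (.S 3 4 (.S 3 3 (.L 5
    6 [4, 4, 4, 5, 5] [74, 66, 56, 46, 36, 0] [46, 38, 28, 18, 0, 0] 100000 19828 19828 1112070
    17586 0 56897 35172 20690 39310 20000) (.S 4 4 (.S 4 2 (.S 4 1 (.L 5 6 [4, 4, 4, 5, 5] [46, 36,
    0, 0, 0, 0] [64, 56, 48, 38, 28, 0] 100000 25000 25000 1088890 33333 0 77778 33333 11111 44444
    22222) (.L 5 6 [4, 4, 4, 5, 5] [56, 46, 36, 0, 0, 0] [64, 56, 48, 38, 28, 0] 100000 19318 19317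
    1118183 22727 0 68182 22727 22727 52273 25000)) (.L 5 6 [4, 4, 4, 5, 5] [74, 66, 56, 46, 36, 0]
    [64, 56, 48, 38, 28, 0] 100000 29167 29167 1000001 0 0 100000 33333 0 41667 25000)) (.E 2)))
    (.E 2))) (.E 1)) (.E 1))) (.L 5 6 [4, 4, 4, 5, 5] [74, 66, 56, 46, 36, 0] [] 100000 17742 17742
    1125000 17742 0 63710 29032 29032 45968 25000)

lemma n19_19_5_4_15 {n : ℕ} (hn : 5 ≤ n) : NoNd ((19 : ℕ) : ℤ) ((19 : ℕ) : ℤ) n 5 4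
    (BlkD.inB (BlkD.upd (BlkD.upd (BlkD.upd (fun _ => 0) 0 3) 1 3) 1 4)
      (BlkD.upd (BlkD.upd (BlkD.upd (BlkD.upd (BlkD.upd (BlkD.upd (BlkD.upd (fun _ => 19) 0 5) 2 4) 0 4) 0 3) 1 16) 1 8) 1 4)) :=
  BlkD.part_sound (d := d19_19_5_4) dk19_19_5_4 hn (by decide) (tr := t19_19_5_4_15)
    (by decide +kernel) rfl rfl rfl rfl

/-- the certificates of the part 16 of the pair `(5, 4)` -/
def t19_19_5_4_16 : BlkD.Tr :=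
  .S 1 6 (.S 1 5 (.S 2 2 (.S 2 1 (.S 2 0 (.L 5 6 [4, 4, 4, 5, 5] [96, 88, 80, 70, 60, 50] [] 100000
    50000 50000 750000 0 0 50000 100000 0 0 0) (.S 3 10 (.S 3 5 (.S 3 2 (.L 5 6 [4, 4, 4, 5, 5]
    [96, 88, 80, 70, 60, 50] [] 100000 30000 30000 1010000 10000 10000 70000 10000 30000 0 20000)
    (.S 3 4 (.S 3 3 (.L 1 1 [9, 12, 14, 16, 15] [96, 88, 80, 70, 60, 50] [40, 32, 22, 12, 0, 0]
    100000 74359 74359 892309 0 76923 76923 83333 19231 2564 8974) (.L 1 1 [9, 12, 14, 16, 15] [96,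
    88, 80, 70, 60, 50] [56, 48, 40, 30, 20, 0] 100000 25313 25313 1075625 0 22500 53750 49375
    21250 50625 25000)) (.L 1 1 [9, 12, 14, 16, 15] [96, 88, 80, 70, 60, 50] [68, 66, 58, 50, 40,
    30] 100000 166667 88889 200001 0 133333 177778 133333 0 0 22222))) (.E 2)) (.E 1))) (.S 3 9 (.S
    3 4 (.S 3 2 (.S 3 1 (.L 1 1 [9, 12, 14, 16, 15] [96, 88, 80, 70, 60, 50] [] 100000 25000 24999
    1033333 0 0 66667 0 33333 0 33333) (.S 4 5 (.S 4 2 (.E 2) (.S 4 4 (.L 5 5 [4, 4, 4, 5, 6] [88,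
    80, 70, 60, 50, 0] [30, 20, 10, 0, 0, 0] 100000 20891 20891 1112329 0 17808 52055 58904 52055
    16438 19178) (.L 5 5 [4, 4, 4, 5, 6] [96, 88, 80, 70, 60, 50] [30, 20, 10, 0, 0, 0] 100000
    50000 0 750000 0 0 150000 0 0 0 25000))) (.E 2))) (.L 5 5 [4, 4, 4, 5, 6] [96, 88, 80, 70, 60,
    50] [] 100000 25000 25000 1075000 0 0 100000 25000 0 50000 25000)) (.E 2)) (.E 1))) (.L 5 5 [4,
    4, 4, 5, 6] [96, 88, 80, 70, 60, 50] [] 100000 25000 25000 1075000 0 0 100000 25000 0 50000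
    25000)) (.E 0)) (.E 0)

lemma n19_19_5_4_16 {n : ℕ} (hn : 5 ≤ n) : NoNd ((19 : ℕ) : ℤ) ((19 : ℕ) : ℤ) n 5 4
    (BlkD.inB (BlkD.upd (BlkD.upd (fun _ => 0) 0 3) 1 5)
      (BlkD.upd (BlkD.upd (BlkD.upd (BlkD.upd (BlkD.upd (BlkD.upd (fun _ => 19) 0 5) 2 4) 0 4) 0 3) 1 16) 1 8)) :=
  BlkD.part_sound (d := d19_19_5_4) dk19_19_5_4 hn (by decide) (tr := t19_19_5_4_16)
    (by decide +kernel) rfl rfl rfl rfl

/-- the certificates of the part 17 of the pair `(5, 4)` -/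
def t19_19_5_4_17 : BlkD.Tr :=
  .E 0

lemma n19_19_5_4_17 {n : ℕ} (hn : 5 ≤ n) : NoNd ((19 : ℕ) : ℤ) ((19 : ℕ) : ℤ) n 5 4
    (BlkD.inB (BlkD.upd (BlkD.upd (fun _ => 0) 0 3) 1 9)
      (BlkD.upd (BlkD.upd (BlkD.upd (BlkD.upd (BlkD.upd (fun _ => 19) 0 5) 2 4) 0 4) 0 3) 1 16)) :=
  BlkD.part_sound (d := d19_19_5_4) dk19_19_5_4 hn (by decide) (tr := t19_19_5_4_17)
    (by decide +kernel) rfl rfl rfl rfl

/-- the certificates of the part 18 of the pair `(5, 4)` -/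
def t19_19_5_4_18 : BlkD.Tr :=
  .E 0

lemma n19_19_5_4_18 {n : ℕ} (hn : 5 ≤ n) : NoNd ((19 : ℕ) : ℤ) ((19 : ℕ) : ℤ) n 5 4
    (BlkD.inB (BlkD.upd (BlkD.upd (fun _ => 0) 0 3) 1 17)
      (BlkD.upd (BlkD.upd (BlkD.upd (BlkD.upd (fun _ => 19) 0 5) 2 4) 0 4) 0 3)) :=
  BlkD.part_sound (d := d19_19_5_4) dk19_19_5_4 hn (by decide) (tr := t19_19_5_4_18)
    (by decide +kernel) rfl rfl rfl rfl

/-- the certificates of the part 19 of the pair `(5, 4)` -/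
def t19_19_5_4_19 : BlkD.Tr :=
  .S 1 15 (.S 1 7 (.S 1 3 (.S 1 1 (.L 5 6 [4, 4, 4, 5, 5] [] [] 100000 25280 25280 1094581 19880
    1807 76162 42771 9380 22892 34337) (.S 1 2 (.L 5 6 [4, 4, 4, 5, 5] [38, 28, 18, 0, 0, 0] []
    100000 20690 20690 1110346 22414 0 67241 44828 44828 17241 20690) (.S 2 2 (.S 2 1 (.L 5 6 [4,
    4, 4, 5, 5] [60, 50, 40, 30, 0, 0] [] 100000 21417 21417 1101629 0 28339 37785 47231 41694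
    14332 20521) (.S 3 10 (.S 3 5 (.S 3 2 (.L 5 6 [4, 4, 4, 5, 5] [60, 50, 40, 30, 0, 0] [] 100000
    22139 22138 1080101 9950 9950 59701 38557 39801 11443 22139) (.S 3 4 (.S 3 3 (.L 5 6 [4, 4, 4,
    5, 5] [60, 50, 40, 30, 0, 0] [46, 38, 28, 18, 0, 0] 100000 13462 13462 1109615 7692 15385 46154
    44231 46154 46154 25000) (.S 4 3 (.S 4 1 (.L 5 6 [4, 4, 4, 5, 5] [40, 30, 0, 0, 0, 0] [64, 56,
    48, 38, 28, 0] 100000 25000 25000 1075000 0 50000 25000 50000 50000 50000 25000) (.L 5 6 [4, 4,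
    4, 5, 5] [60, 50, 40, 30, 0, 0] [64, 56, 48, 38, 28, 0] 100000 25000 25000 1075000 0 0 100000
    25000 0 50000 25000)) (.E 2))) (.E 2))) (.E 1)) (.E 1))) (.L 5 6 [4, 4, 4, 5, 5] [60, 50, 40,
    30, 0, 0] [] 100000 12500 12499 1133333 16667 0 50000 41667 50000 50000 25000)))) (.L 5 6 [4,
    4, 4, 5, 5] [] [] 100000 34445 34445 1000001 0 0 100000 33333 17778 13333 17778)) (.E 0)) (.E
    0)

lemma n19_19_5_4_19 {n : ℕ} (hn : 5 ≤ n) : NoNd ((19 : ℕ) : ℤ) ((19 : ℕ) : ℤ) n 5 4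
    (BlkD.inB (BlkD.upd (BlkD.upd (fun _ => 0) 0 3) 0 4)
      (BlkD.upd (BlkD.upd (BlkD.upd (fun _ => 19) 0 5) 2 4) 0 4)) :=
  BlkD.part_sound (d := d19_19_5_4) dk19_19_5_4 hn (by decide) (tr := t19_19_5_4_19)
    (by decide +kernel) rfl rfl rfl rfl

/-- the certificates of the part 20 of the pair `(5, 4)` -/
def t19_19_5_4_20 : BlkD.Tr :=
  .S 1 14 (.S 1 7 (.S 1 3 (.S 1 1 (.L 5 6 [4, 4, 4, 5, 5] [] [] 100000 17857 17856 1100000 28571 0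
    28571 71429 40000 28571 20000) (.S 1 2 (.S 2 2 (.S 2 1 (.L 5 6 [4, 4, 4, 5, 5] [42, 32, 22, 0,
    0, 0] [] 100000 65000 65000 800000 0 100000 0 100000 60000 0 20000) (.S 3 10 (.S 3 5 (.S 3 2
    (.L 5 6 [4, 4, 4, 5, 5] [42, 32, 22, 0, 0, 0] [] 100000 22675 22675 1030232 0 34884 9302 58140
    69767 9302 30233) (.L 5 6 [4, 4, 4, 5, 5] [42, 32, 22, 0, 0, 0] [] 100000 25000 24999 1066666 0
    16667 83333 16667 16667 75000 25000)) (.E 1)) (.E 1))) (.L 5 6 [4, 4, 4, 5, 5] [42, 32, 22, 0,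
    0, 0] [] 100000 12500 12500 1100000 0 0 50000 50000 50000 50000 25000)) (.E 0))) (.E 0)) (.E
    0)) (.E 0)

lemma n19_19_5_4_20 {n : ℕ} (hn : 5 ≤ n) : NoNd ((19 : ℕ) : ℤ) ((19 : ℕ) : ℤ) n 5 4
    (BlkD.inB (BlkD.upd (BlkD.upd (fun _ => 0) 0 3) 0 5)
      (BlkD.upd (BlkD.upd (fun _ => 19) 0 5) 2 4)) :=
  BlkD.part_sound (d := d19_19_5_4) dk19_19_5_4 hn (by decide) (tr := t19_19_5_4_20)
    (by decide +kernel) rfl rfl rfl rfl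

/-- the certificates of the part 21 of the pair `(5, 4)` -/
def t19_19_5_4_21 : BlkD.Tr :=
  .E 1

lemma n19_19_5_4_21 {n : ℕ} (hn : 5 ≤ n) : NoNd ((19 : ℕ) : ℤ) ((19 : ℕ) : ℤ) n 5 4
    (BlkD.inB (BlkD.upd (fun _ => 0) 2 5)
      (BlkD.upd (fun _ => 19) 0 5)) :=
  BlkD.part_sound (d := d19_19_5_4) dk19_19_5_4 hn (by decide) (tr := t19_19_5_4_21)
    (by decide +kernel) rfl rfl rfl rfl

/-- the certificates of the part 22 of the pair `(5, 4)` -/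
def t19_19_5_4_22 : BlkD.Tr :=
  .E 0

lemma n19_19_5_4_22 {n : ℕ} (hn : 5 ≤ n) : NoNd ((19 : ℕ) : ℤ) ((19 : ℕ) : ℤ) n 5 4
    (BlkD.inB (BlkD.upd (fun _ => 0) 0 6)
      (fun _ => 19)) :=
  BlkD.part_sound (d := d19_19_5_4) dk19_19_5_4 hn (by decide) (tr := t19_19_5_4_22)
    (by decide +kernel) rfl rfl rfl rfl

lemma pr19_19_5_4 {n : ℕ} (hn : 5 ≤ n) : NoPr ((19 : ℕ) : ℤ) ((19 : ℕ) : ℤ) n 5 4 :=
  BlkD.of_root (q := 3) (by decide) hn (BlkD.sp 0 5 (BlkD.sp 2 4 (BlkD.sp 0 2 (BlkD.sp 0 1 (n19_19_5_4_1 hn)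
    (BlkD.sp 1 17 (BlkD.sp 1 8 (BlkD.sp 1 4 (BlkD.sp 1 2 (n19_19_5_4_2 hn)
    (BlkD.sp 1 3 (n19_19_5_4_3 hn)
    (BlkD.sp 2 2 (BlkD.sp 2 1 (n19_19_5_4_4 hn)
    (n19_19_5_4_5 hn))
    (n19_19_5_4_6 hn))))
    (BlkD.sp 1 6 (BlkD.sp 1 5 (BlkD.sp 2 2 (n19_19_5_4_7 hn)
    (n19_19_5_4_8 hn))
    (n19_19_5_4_9 hn))
    (n19_19_5_4_10 hn)))
    (n19_19_5_4_11 hn))
    (n19_19_5_4_12 hn)))
    (BlkD.sp 0 4 (BlkD.sp 0 3 (BlkD.sp 1 16 (BlkD.sp 1 8 (BlkD.sp 1 4 (BlkD.sp 1 2 (n19_19_5_4_13 hn)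
    (BlkD.sp 1 3 (n19_19_5_4_14 hn)
    (n19_19_5_4_15 hn)))
    (n19_19_5_4_16 hn))
    (n19_19_5_4_17 hn))
    (n19_19_5_4_18 hn))
    (n19_19_5_4_19 hn))
    (n19_19_5_4_20 hn)))
    (n19_19_5_4_21 hn))
    (n19_19_5_4_22 hn))

end BlkC

end Pool.Agent.Lib.MP_f04ccf_co
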