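import Pool.Agent.Lib.MP_f04ccf_co.M.BlkTp

/-!
MP_f04ccf_co, block certificate, data `R = 19`, `H = 20`, part 5 (certificates: helper99, bd9.cpp).
-/

set_option autoImplicit false
set_option maxRecDepth 100000

namespace Pool.Agent.Lib.MP_f04ccf_co

namespace BlkC

/-- the numbers of the pair `(8, 2)`, `R = 19`, `H = 20` -/
def d19_20_8_2 : BlkD.Pd :=
  ⟨19, 20, 4, 8, 2, 7, 2, 2, 4, 2, 10, 0, 3, 1, 6, 0, [0, 10, 20, 26, 30, 34, 38, 42], [0, 6, 12,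
    16, 19, 22, 25, 28], [⟨1, 1, 1, 4, 8, [0, 4], [0, 4]⟩, ⟨1, 1, 1, 4, 12, [0, 8], [0, 4]⟩, ⟨2, 1,
    1, 4, 20, [0, 10, 14], [0, 6]⟩]⟩

lemma dk19_20_8_2 : BlkD.pairOk d19_20_8_2 = true := by decide +kernel

/-- the certificates of the part 1 of the pair `(8, 2)` -/
def t19_20_8_2_1 : BlkD.Tr :=
  .L 4 7 [4, 4, 4] [] [] 100000 150000 150000 700000 100000 0 100000 0 0 0 0

lemma n19_20_8_2_1 {n : ℕ} (hn : 6 ≤ n) : NoNd ((19 : ℕ) : ℤ) ((20 : ℕ) : ℤ) n 8 2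
    (BlkD.inB (fun _ => 0)
      (BlkD.upd (BlkD.upd (BlkD.upd (BlkD.upd (fun _ => 20) 0 8) 2 2) 0 4) 0 2)) :=
  BlkD.part_sound (d := d19_20_8_2) dk19_20_8_2 hn (by decide) (tr := t19_20_8_2_1)
    (by decide +kernel) rfl rfl rfl rfl

/-- the certificates of the part 2 of the pair `(8, 2)` -/
def t19_20_8_2_2 : BlkD.Tr :=
  .S 1 17 (.S 1 8 (.L 4 7 [4, 4, 4] [] [] 100000 19233 19233 1130766 38462 0 38462 30769 0 15385 0)
    (.S 1 13 (.S 1 11 (.S 1 10 (.S 1 9 (.L 4 7 [4, 4, 4] [182, 178, 174, 170, 166, 162] [] 100000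
    25000 25000 1100000 50000 0 50000 50000 0 50000 0) (.L 4 7 [4, 4, 4] [210, 206, 202, 198, 194,
    190] [] 100000 25000 25000 1150000 50000 0 50000 50000 0 50000 0)) (.L 4 7 [4, 4, 4] [240, 236,
    232, 228, 224, 220] [] 100000 106250 106250 900000 75000 0 100000 37500 0 12500 12500)) (.S 1
    12 (.L 4 7 [4, 4, 4] [272, 268, 264, 260, 256, 252] [] 100000 108334 108334 875000 75000 0
    100000 37500 0 8333 8333) (.L 4 7 [4, 4, 4] [306, 302, 298, 294, 290, 286] [] 100000 250001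
    150001 0 166667 0 200000 0 0 0 0))) (.S 1 15 (.S 1 14 (.L 4 7 [4, 4, 4] [342, 338, 334, 330,
    326, 322] [] 100000 225757 137878 3 154545 0 187879 0 0 0 0) (.L 4 7 [4, 4, 4] [380, 376, 372,
    368, 364, 360] [] 100000 211111 130555 0 147222 0 180556 0 0 0 0)) (.S 1 16 (.L 4 7 [4, 4, 4]
    [420, 416, 412, 408, 404, 400] [] 100000 207692 153846 2 153846 0 153846 0 0 0 0) (.L 4 7 [4,
    4, 4] [462, 458, 454, 450, 446, 442] [] 100000 185714 142857 2 142857 0 142857 0 0 0 0))))) (.E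
    0)

lemma n19_20_8_2_2 {n : ℕ} (hn : 6 ≤ n) : NoNd ((19 : ℕ) : ℤ) ((20 : ℕ) : ℤ) n 8 2
    (BlkD.inB (BlkD.upd (fun _ => 0) 0 3)
      (BlkD.upd (BlkD.upd (BlkD.upd (BlkD.upd (fun _ => 20) 0 8) 2 2) 0 4) 0 3)) :=
  BlkD.part_sound (d := d19_20_8_2) dk19_20_8_2 hn (by decide) (tr := t19_20_8_2_2)
    (by decide +kernel) rfl rfl rfl rfl

/-- the certificates of the part 3 of the pair `(8, 2)` -/
def t19_20_8_2_3 : BlkD.Tr :=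
  .S 1 4 (.L 4 7 [4, 4, 4] [] [] 100000 16667 16667 1000002 33333 0 33333 33333 0 0 0) (.S 1 6 (.L
    4 7 [4, 4, 4] [] [] 100000 16667 16667 1133336 33333 0 33333 33333 0 33333 0) (.S 1 7 (.L 4 7
    [4, 4, 4] [146, 142, 138, 134, 128, 118] [] 100000 16667 16667 1200003 33333 0 33333 33333 0 0
    0) (.L 4 7 [4, 4, 4] [172, 168, 164, 160, 156, 150] [] 100000 57692 57692 1107694 53846 0 69231
    30769 0 15385 0)))

lemma n19_20_8_2_3 {n : ℕ} (hn : 6 ≤ n) : NoNd ((19 : ℕ) : ℤ) ((20 : ℕ) : ℤ) n 8 2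
    (BlkD.inB (BlkD.upd (BlkD.upd (fun _ => 0) 0 3) 0 4)
      (BlkD.upd (BlkD.upd (BlkD.upd (BlkD.upd (BlkD.upd (fun _ => 20) 0 8) 2 2) 0 4) 1 16) 1 8)) :=
  BlkD.part_sound (d := d19_20_8_2) dk19_20_8_2 hn (by decide) (tr := t19_20_8_2_3)
    (by decide +kernel) rfl rfl rfl rfl

/-- the certificates of the part 4 of the pair `(8, 2)` -/
def t19_20_8_2_4 : BlkD.Tr :=
  .S 1 12 (.S 1 10 (.S 1 9 (.S 2 1 (.S 2 0 (.L 4 7 [4, 4, 4] [200, 196, 192, 188, 184, 180] []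
    100000 67858 67858 1071427 57143 0 71429 50000 0 7143 14286) (.L 4 7 [4, 4, 4] [200, 196, 192,
    188, 184, 180] [] 100000 38889 38889 1177781 44444 0 77778 33333 0 33333 11111)) (.L 4 7 [4, 4,
    4] [200, 196, 192, 188, 184, 180] [] 100000 100001 100001 908333 75000 0 91667 0 0 16667 8333))
    (.L 4 7 [4, 4, 4] [230, 226, 222, 218, 214, 210] [] 100000 63636 63636 1090912 54545 0 90909
    45455 0 18182 27273)) (.S 1 11 (.L 4 7 [4, 4, 4] [262, 258, 254, 250, 246, 242] [] 100000 59524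
    59524 1057143 57143 0 100000 42857 0 14286 4762) (.L 4 7 [4, 4, 4] [296, 292, 288, 284, 280,
    276] [] 100000 100000 80000 820000 80000 0 120000 40000 0 0 0))) (.S 1 14 (.S 1 13 (.L 4 7 [4,
    4, 4] [332, 328, 324, 320, 316, 312] [] 100000 216328 85716 0 136735 0 230612 57143 0 0 0) (.L
    4 7 [4, 4, 4] [370, 366, 362, 358, 354, 350] [] 100000 177273 59091 0 118182 0 218182 0 0 0 0))
    (.S 1 15 (.L 4 7 [4, 4, 4] [410, 406, 402, 398, 394, 390] [] 100000 162500 54167 4 108333 0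
    208333 0 0 0 0) (.L 4 7 [4, 4, 4] [452, 448, 444, 440, 436, 432] [] 100000 110526 0 3 105263 0
    210526 0 0 0 0)))

lemma n19_20_8_2_4 {n : ℕ} (hn : 6 ≤ n) : NoNd ((19 : ℕ) : ℤ) ((20 : ℕ) : ℤ) n 8 2
    (BlkD.inB (BlkD.upd (BlkD.upd (BlkD.upd (fun _ => 0) 0 3) 0 4) 1 9)
      (BlkD.upd (BlkD.upd (BlkD.upd (BlkD.upd (fun _ => 20) 0 8) 2 2) 0 4) 1 16)) :=
  BlkD.part_sound (d := d19_20_8_2) dk19_20_8_2 hn (by decide) (tr := t19_20_8_2_4)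
    (by decide +kernel) rfl rfl rfl rfl

/-- the certificates of the part 5 of the pair `(8, 2)` -/
def t19_20_8_2_5 : BlkD.Tr :=
  .E 0

lemma n19_20_8_2_5 {n : ℕ} (hn : 6 ≤ n) : NoNd ((19 : ℕ) : ℤ) ((20 : ℕ) : ℤ) n 8 2
    (BlkD.inB (BlkD.upd (BlkD.upd (BlkD.upd (fun _ => 0) 0 3) 0 4) 1 17)
      (BlkD.upd (BlkD.upd (BlkD.upd (fun _ => 20) 0 8) 2 2) 0 4)) :=
  BlkD.part_sound (d := d19_20_8_2) dk19_20_8_2 hn (by decide) (tr := t19_20_8_2_5)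
    (by decide +kernel) rfl rfl rfl rfl

/-- the certificates of the part 6 of the pair `(8, 2)` -/
def t19_20_8_2_6 : BlkD.Tr :=
  .S 1 15 (.S 1 7 (.S 1 3 (.L 4 7 [4, 4, 4] [] [] 100000 25000 25000 1000000 50000 0 50000 25000 0
    0 0) (.S 1 5 (.L 4 7 [4, 4, 4] [] [] 100000 12500 12500 1200000 25000 0 25000 37500 0 0 0) (.S
    1 6 (.L 4 7 [4, 4, 4] [134, 130, 126, 120, 110, 100] [] 100000 16667 16667 1233336 33333 0
    33333 33333 0 16667 16667) (.L 4 7 [4, 4, 4] [160, 156, 152, 148, 142, 132] [] 100000 16667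
    16667 1233335 33333 0 66667 50000 0 16667 16667)))) (.S 1 11 (.S 1 9 (.S 1 8 (.L 4 7 [4, 4, 4]
    [188, 184, 180, 176, 172, 166] [] 100000 45000 45000 1160000 40000 0 100000 50000 0 0 20000)
    (.L 4 7 [4, 4, 4] [218, 214, 210, 206, 202, 198] [] 100000 50000 50000 1100000 50000 0 100000
    50000 0 0 0)) (.L 4 7 [4, 4, 4] [] [] 100000 2175 2175 1282608 4348 0 100000 47826 0 17391
    17391)) (.L 4 7 [4, 4, 4] [] [] 100000 40000 0 920000 10000 0 140000 30000 0 10000 10000))) (.E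
    0)

lemma n19_20_8_2_6 {n : ℕ} (hn : 6 ≤ n) : NoNd ((19 : ℕ) : ℤ) ((20 : ℕ) : ℤ) n 8 2
    (BlkD.inB (BlkD.upd (fun _ => 0) 0 5)
      (BlkD.upd (BlkD.upd (BlkD.upd (BlkD.upd (fun _ => 20) 0 8) 2 2) 0 6) 0 5)) :=
  BlkD.part_sound (d := d19_20_8_2) dk19_20_8_2 hn (by decide) (tr := t19_20_8_2_6)
    (by decide +kernel) rfl rfl rfl rfl

/-- the certificates of the part 7 of the pair `(8, 2)` -/
def t19_20_8_2_7 : BlkD.Tr :=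
  .S 1 14 (.S 1 7 (.S 1 3 (.L 4 7 [4, 4, 4] [] [] 100000 0 0 1200000 0 0 0 50000 0 0 0) (.S 1 5 (.S
    1 4 (.L 4 7 [4, 4, 4] [96, 90, 80, 70, 60, 0] [] 100000 16667 16667 1200002 33333 0 33333 33333
    0 0 0) (.L 4 7 [4, 4, 4] [120, 116, 110, 100, 90, 80] [] 100000 17406 17406 1220820 35836 0
    74744 32082 512 30205 22184)) (.L 4 7 [4, 4, 4] [] [] 100000 3335 3335 1279999 6667 0 100000
    46667 0 33333 26667))) (.L 4 7 [4, 4, 4] [] [] 100000 0 0 1200000 0 0 100000 50000 0 0 0)) (.E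
    0)

lemma n19_20_8_2_7 {n : ℕ} (hn : 6 ≤ n) : NoNd ((19 : ℕ) : ℤ) ((20 : ℕ) : ℤ) n 8 2
    (BlkD.inB (BlkD.upd (BlkD.upd (fun _ => 0) 0 5) 0 6)
      (BlkD.upd (BlkD.upd (BlkD.upd (fun _ => 20) 0 8) 2 2) 0 6)) :=
  BlkD.part_sound (d := d19_20_8_2) dk19_20_8_2 hn (by decide) (tr := t19_20_8_2_7)
    (by decide +kernel) rfl rfl rfl rfl

/-- the certificates of the part 8 of the pair `(8, 2)` -/
def t19_20_8_2_8 : BlkD.Tr :=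
  .L 4 7 [4, 4, 4] [] [] 100000 0 0 1291380 3448 0 98276 6897 1724 24138 24138

lemma n19_20_8_2_8 {n : ℕ} (hn : 6 ≤ n) : NoNd ((19 : ℕ) : ℤ) ((20 : ℕ) : ℤ) n 8 2
    (BlkD.inB (BlkD.upd (BlkD.upd (fun _ => 0) 0 5) 0 7)
      (BlkD.upd (BlkD.upd (fun _ => 20) 0 8) 2 2)) :=
  BlkD.part_sound (d := d19_20_8_2) dk19_20_8_2 hn (by decide) (tr := t19_20_8_2_8)
    (by decide +kernel) rfl rfl rfl rfl

/-- the certificates of the part 9 of the pair `(8, 2)` -/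
def t19_20_8_2_9 : BlkD.Tr :=
  .E 1

lemma n19_20_8_2_9 {n : ℕ} (hn : 6 ≤ n) : NoNd ((19 : ℕ) : ℤ) ((20 : ℕ) : ℤ) n 8 2
    (BlkD.inB (BlkD.upd (fun _ => 0) 2 3)
      (BlkD.upd (fun _ => 20) 0 8)) :=
  BlkD.part_sound (d := d19_20_8_2) dk19_20_8_2 hn (by decide) (tr := t19_20_8_2_9)
    (by decide +kernel) rfl rfl rfl rfl

/-- the certificates of the part 10 of the pair `(8, 2)` -/
def t19_20_8_2_10 : BlkD.Tr :=
  .E 0

lemma n19_20_8_2_10 {n : ℕ} (hn : 6 ≤ n) : NoNd ((19 : ℕ) : ℤ) ((20 : ℕ) : ℤ) n 8 2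
    (BlkD.inB (BlkD.upd (fun _ => 0) 0 9)
      (fun _ => 20)) :=
  BlkD.part_sound (d := d19_20_8_2) dk19_20_8_2 hn (by decide) (tr := t19_20_8_2_10)
    (by decide +kernel) rfl rfl rfl rfl

lemma pr19_20_8_2 {n : ℕ} (hn : 6 ≤ n) : NoPr ((19 : ℕ) : ℤ) ((20 : ℕ) : ℤ) n 8 2 :=
  BlkD.of_root (q := 4) (by decide) hn (BlkD.sp 0 8 (BlkD.sp 2 2 (BlkD.sp 0 4 (BlkD.sp 0 2 (n19_20_8_2_1 hn)
    (BlkD.sp 0 3 (n19_20_8_2_2 hn)
    (BlkD.sp 1 16 (BlkD.sp 1 8 (n19_20_8_2_3 hn)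
    (n19_20_8_2_4 hn))
    (n19_20_8_2_5 hn))))
    (BlkD.sp 0 6 (BlkD.sp 0 5 (n19_20_8_2_6 hn)
    (n19_20_8_2_7 hn))
    (n19_20_8_2_8 hn)))
    (n19_20_8_2_9 hn))
    (n19_20_8_2_10 hn))

/-- the numbers of the pair `(8, 3)`, `R = 19`, `H = 20` -/
def d19_20_8_3 : BlkD.Pd :=
  ⟨19, 20, 4, 8, 3, 6, 2, 2, 4, 2, 10, 0, 2, 2, 6, 0, [0, 10, 20, 24, 28, 32, 36], [0, 6, 12, 18,
    20, 22, 24], [⟨1, 1, 1, 4, 8, [0, 4], [0, 4]⟩, ⟨1, 1, 1, 4, 14, [0, 8], [0, 6]⟩, ⟨2, 1, 1, 4,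
    20, [0, 10, 14], [0, 6]⟩]⟩

lemma dk19_20_8_3 : BlkD.pairOk d19_20_8_3 = true := by decide +kernel

/-- the certificates of the part 1 of the pair `(8, 3)` -/
def t19_20_8_3_1 : BlkD.Tr :=
  .L 5 7 [4, 4, 4, 19] [] [] 100000 164285 164285 942860 85714 0 92857 42857 0 0 0

lemma n19_20_8_3_1 {n : ℕ} (hn : 6 ≤ n) : NoNd ((19 : ℕ) : ℤ) ((20 : ℕ) : ℤ) n 8 3
    (BlkD.inB (fun _ => 0)
      (BlkD.upd (BlkD.upd (BlkD.upd (BlkD.upd (fun _ => 20) 0 8) 2 3) 0 4) 0 2)) :=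
  BlkD.part_sound (d := d19_20_8_3) dk19_20_8_3 hn (by decide) (tr := t19_20_8_3_1)
    (by decide +kernel) rfl rfl rfl rfl

/-- the certificates of the part 2 of the pair `(8, 3)` -/
def t19_20_8_3_2 : BlkD.Tr :=
  .S 1 17 (.S 1 8 (.S 1 4 (.L 5 7 [4, 4, 4, 19] [] [] 100000 16667 16667 1066668 33333 0 33333
    50000 0 0 0) (.S 1 6 (.L 5 7 [4, 4, 4, 19] [] [] 100000 24999 24999 1200002 33333 0 33333 50000
    0 0 0) (.S 1 7 (.L 5 7 [4, 4, 4, 19] [138, 134, 130, 126, 116, 106] [] 100000 15385 15385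
    1284617 30769 0 38462 38462 0 0 0) (.L 5 7 [4, 4, 4, 19] [162, 158, 154, 150, 146, 136] []
    100000 35000 35000 1280000 40000 0 60000 30000 0 10000 20000)))) (.S 1 13 (.S 1 11 (.S 1 10 (.S
    1 9 (.L 5 7 [4, 4, 4, 19] [188, 184, 180, 176, 172, 168] [] 100000 59375 59375 1262500 50000 0
    68750 18750 0 18750 18750) (.L 5 7 [4, 4, 4, 19] [216, 212, 208, 204, 200, 196] [] 100000
    135714 135714 1042859 85714 0 100000 28571 0 0 0)) (.L 5 7 [4, 4, 4, 19] [246, 242, 238, 234,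
    230, 226] [] 100000 150000 150000 1000000 100000 0 100000 0 0 0 0)) (.S 1 12 (.L 5 7 [4, 4, 4,
    19] [278, 274, 270, 266, 262, 258] [] 100000 262500 187500 475000 150000 0 175000 25000 0 0 0)
    (.L 5 7 [4, 4, 4, 19] [312, 308, 304, 300, 296, 292] [] 100000 350000 229310 2 193103 0 220690
    17241 0 0 0))) (.S 1 15 (.S 1 14 (.L 5 7 [4, 4, 4, 19] [348, 344, 340, 336, 332, 328] [] 100000
    268750 156250 0 170000 0 212500 15000 0 0 0) (.L 5 7 [4, 4, 4, 19] [386, 382, 378, 374, 370,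
    366] [] 100000 242106 131580 0 157895 0 210526 0 0 0 0)) (.L 5 7 [4, 4, 4, 19] [] [] 100000
    533335 466668 0 166667 0 166667 0 0 0 0)))) (.E 0)

lemma n19_20_8_3_2 {n : ℕ} (hn : 6 ≤ n) : NoNd ((19 : ℕ) : ℤ) ((20 : ℕ) : ℤ) n 8 3
    (BlkD.inB (BlkD.upd (fun _ => 0) 0 3)
      (BlkD.upd (BlkD.upd (BlkD.upd (BlkD.upd (fun _ => 20) 0 8) 2 3) 0 4) 0 3)) :=
  BlkD.part_sound (d := d19_20_8_3) dk19_20_8_3 hn (by decide) (tr := t19_20_8_3_2)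
    (by decide +kernel) rfl rfl rfl rfl

/-- the certificates of the part 3 of the pair `(8, 3)` -/
def t19_20_8_3_3 : BlkD.Tr :=
  .S 1 4 (.L 5 7 [4, 4, 4, 19] [] [] 100000 12500 12500 1200000 25000 0 25000 37500 0 0 0) (.S 1 6
    (.L 5 7 [4, 4, 4, 19] [] [] 100000 14286 14286 1328574 28571 0 35714 32143 0 21429 0) (.S 1 7
    (.S 2 1 (.S 2 0 (.L 5 7 [4, 4, 4, 19] [152, 148, 144, 140, 130, 120] [] 100000 11364 11364
    1231820 22727 0 31818 81818 0 0 0) (.S 3 8 (.S 3 4 (.S 3 2 (.L 5 7 [4, 4, 4, 19] [152, 148,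
    144, 140, 130, 120] [] 100000 9092 9092 1327272 18182 18182 27273 18182 0 0 0) (.S 3 3 (.L 3 4
    [4, 5, 7, 19] [152, 148, 144, 140, 130, 120] [40, 34, 24, 12, 0, 0] 100000 114286 114286
    1157143 57143 0 85714 42857 0 0 0) (.L 5 7 [4, 4, 4, 19] [152, 148, 144, 140, 130, 120] [54,
    48, 42, 32, 20, 0] 100000 200000 200000 900000 100000 0 100000 100000 0 0 0))) (.E 1)) (.E 1)))
    (.L 5 7 [4, 4, 4, 19] [152, 148, 144, 140, 130, 120] [] 100000 30000 30000 1320000 40000 0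
    45000 15000 0 45000 0)) (.S 2 1 (.S 2 0 (.L 5 7 [4, 4, 4, 19] [178, 174, 170, 166, 162, 152] []
    100000 14286 14286 1271433 28571 0 38095 76190 0 0 0) (.S 3 7 (.S 3 3 (.S 3 1 (.L 5 7 [4, 4, 4,
    19] [178, 174, 170, 166, 162, 152] [] 100000 12500 12500 1300000 25000 12500 37500 25000 0 0 0)
    (.S 3 2 (.L 5 7 [4, 4, 4, 19] [178, 174, 170, 166, 162, 152] [28, 18, 6, 0, 0, 0] 100000 45000
    45000 1300000 40000 20000 60000 30000 0 10000 10000) (.L 4 5 [4, 4, 5, 19] [178, 174, 170, 166,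
    162, 152] [40, 34, 24, 12, 0, 0] 100000 81818 81818 1227275 54545 0 72727 45455 0 0 0))) (.L 4
    5 [4, 4, 5, 19] [178, 174, 170, 166, 162, 152] [] 100000 225000 225000 900000 100000 0 100000
    50000 0 0 0)) (.E 1))) (.S 2 2 (.L 5 7 [4, 4, 4, 19] [178, 174, 170, 166, 162, 152] [] 100000
    52859 52859 1288571 51429 0 60000 37143 0 20000 20000) (.L 5 7 [4, 4, 4, 19] [178, 174, 170,
    166, 162, 152] [] 100000 30000 30000 1320000 40000 0 60000 0 0 20000 20000)))))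

lemma n19_20_8_3_3 {n : ℕ} (hn : 6 ≤ n) : NoNd ((19 : ℕ) : ℤ) ((20 : ℕ) : ℤ) n 8 3
    (BlkD.inB (BlkD.upd (BlkD.upd (fun _ => 0) 0 3) 0 4)
      (BlkD.upd (BlkD.upd (BlkD.upd (BlkD.upd (BlkD.upd (fun _ => 20) 0 8) 2 3) 0 4) 1 16) 1 8)) :=
  BlkD.part_sound (d := d19_20_8_3) dk19_20_8_3 hn (by decide) (tr := t19_20_8_3_3)
    (by decide +kernel) rfl rfl rfl rfl

/-- the certificates of the part 4 of the pair `(8, 3)` -/
def t19_20_8_3_4 : BlkD.Tr :=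
  .S 1 10 (.S 1 9 (.S 2 1 (.S 2 0 (.L 5 7 [4, 4, 4, 19] [206, 202, 198, 194, 190, 186] [] 100000
    90000 90000 1120000 60000 0 80000 60000 0 0 0) (.S 3 6 (.S 3 3 (.S 3 1 (.L 5 7 [4, 4, 4, 19]
    [206, 202, 198, 194, 190, 186] [] 100000 100001 100001 1166666 66667 0 100000 0 0 0 0) (.S 3 2
    (.L 3 5 [4, 5, 6, 19] [206, 202, 198, 194, 190, 186] [28, 18, 6, 0, 0, 0] 100000 75979 75979
    1244134 50838 0 72626 36313 0 14525 36872) (.L 5 7 [4, 4, 4, 19] [206, 202, 198, 194, 190, 186]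
    [40, 34, 24, 12, 0, 0] 100000 108334 108334 1166666 66667 0 100000 50000 0 0 0))) (.L 5 7 [4,
    4, 4, 19] [206, 202, 198, 194, 190, 186] [] 100000 133333 133333 1033336 83333 0 100000 33333 0
    0 0)) (.E 1))) (.S 2 2 (.S 3 5 (.S 3 2 (.S 3 1 (.S 3 0 (.L 5 7 [4, 4, 4, 19] [206, 202, 198,
    194, 190, 186] [0, 0, 0, 0, 0, 0] 100000 112500 112500 1125000 75000 0 100000 0 0 0 0) (.L 3 5
    [4, 5, 6, 19] [206, 202, 198, 194, 190, 186] [16, 4, 0, 0, 0, 0] 100000 90908 90908 1200003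
    54545 0 72727 54545 0 0 36364)) (.L 5 7 [4, 4, 4, 19] [206, 202, 198, 194, 190, 186] [32, 22,
    10, 0, 0, 0] 100000 120000 120000 1100000 80000 0 100000 20000 0 0 0)) (.L 5 7 [4, 4, 4, 19]
    [206, 202, 198, 194, 190, 186] [] 100000 120000 120000 1060000 80000 0 100000 0 0 0 0)) (.E 1))
    (.L 5 7 [4, 4, 4, 19] [206, 202, 198, 194, 190, 186] [] 100000 40910 40910 1299999 45455 0
    81818 0 0 36364 18182))) (.S 2 1 (.S 2 0 (.L 5 7 [4, 4, 4, 19] [236, 232, 228, 224, 220, 216]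
    [] 100000 108334 108334 1083332 66667 0 100000 50000 0 0 0) (.S 3 5 (.S 3 2 (.S 3 1 (.L 5 7 [4,
    4, 4, 19] [236, 232, 228, 224, 220, 216] [] 100000 112500 112500 1100000 75000 0 100000 25000 0
    0 0) (.L 3 5 [4, 5, 6, 19] [236, 232, 228, 224, 220, 216] [28, 18, 6, 0, 0, 0] 100000 76924
    76924 1238460 46154 0 92308 46154 0 0 30769)) (.L 5 7 [4, 4, 4, 19] [236, 232, 228, 224, 220,
    216] [] 100000 174999 174999 1014288 85714 28571 100000 78571 0 0 0)) (.E 1))) (.L 5 7 [4, 4,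
    4, 19] [236, 232, 228, 224, 220, 216] [] 100000 100001 100001 1166666 66667 0 100000 33333 0 0
    0))) (.S 1 11 (.L 5 7 [4, 4, 4, 19] [268, 264, 260, 256, 252, 248] [] 100000 101787 101787
    1128571 71429 0 100000 42857 0 7143 25000) (.L 5 7 [4, 4, 4, 19] [302, 298, 294, 290, 286, 282]
    [] 100000 150000 100000 800001 100000 0 150000 33333 0 0 0))

lemma n19_20_8_3_4 {n : ℕ} (hn : 6 ≤ n) : NoNd ((19 : ℕ) : ℤ) ((20 : ℕ) : ℤ) n 8 3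
    (BlkD.inB (BlkD.upd (BlkD.upd (BlkD.upd (fun _ => 0) 0 3) 0 4) 1 9)
      (BlkD.upd (BlkD.upd (BlkD.upd (BlkD.upd (BlkD.upd (fun _ => 20) 0 8) 2 3) 0 4) 1 16) 1 12)) :=
  BlkD.part_sound (d := d19_20_8_3) dk19_20_8_3 hn (by decide) (tr := t19_20_8_3_4)
    (by decide +kernel) rfl rfl rfl rfl

/-- the certificates of the part 5 of the pair `(8, 3)` -/
def t19_20_8_3_5 : BlkD.Tr :=
  .S 1 14 (.S 1 13 (.L 5 7 [4, 4, 4, 19] [338, 334, 330, 326, 322, 318] [] 100000 300634 137976 0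
    165823 0 262658 17089 0 0 0) (.L 5 7 [4, 4, 4, 19] [376, 372, 368, 364, 360, 356] [] 100000
    243335 100002 0 146667 0 243333 0 0 0 0)) (.S 1 15 (.L 5 7 [4, 4, 4, 19] [416, 412, 408, 404,
    400, 396] [] 100000 230000 100000 0 140000 0 230000 0 0 0 0) (.L 5 7 [4, 4, 4, 19] [458, 454,
    450, 446, 442, 438] [] 100000 135294 0 1 117647 0 235294 0 0 0 0))

lemma n19_20_8_3_5 {n : ℕ} (hn : 6 ≤ n) : NoNd ((19 : ℕ) : ℤ) ((20 : ℕ) : ℤ) n 8 3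
    (BlkD.inB (BlkD.upd (BlkD.upd (BlkD.upd (BlkD.upd (fun _ => 0) 0 3) 0 4) 1 9) 1 13)
      (BlkD.upd (BlkD.upd (BlkD.upd (BlkD.upd (fun _ => 20) 0 8) 2 3) 0 4) 1 16)) :=
  BlkD.part_sound (d := d19_20_8_3) dk19_20_8_3 hn (by decide) (tr := t19_20_8_3_5)
    (by decide +kernel) rfl rfl rfl rfl

/-- the certificates of the part 6 of the pair `(8, 3)` -/
def t19_20_8_3_6 : BlkD.Tr :=
  .E 0

lemma n19_20_8_3_6 {n : ℕ} (hn : 6 ≤ n) : NoNd ((19 : ℕ) : ℤ) ((20 : ℕ) : ℤ) n 8 3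
    (BlkD.inB (BlkD.upd (BlkD.upd (BlkD.upd (fun _ => 0) 0 3) 0 4) 1 17)
      (BlkD.upd (BlkD.upd (BlkD.upd (fun _ => 20) 0 8) 2 3) 0 4)) :=
  BlkD.part_sound (d := d19_20_8_3) dk19_20_8_3 hn (by decide) (tr := t19_20_8_3_6)
    (by decide +kernel) rfl rfl rfl rfl

/-- the certificates of the part 7 of the pair `(8, 3)` -/
def t19_20_8_3_7 : BlkD.Tr :=
  .L 5 7 [4, 4, 4, 19] [] [] 100000 0 0 1300000 0 0 0 0 0 0 0

lemma n19_20_8_3_7 {n : ℕ} (hn : 6 ≤ n) : NoNd ((19 : ℕ) : ℤ) ((20 : ℕ) : ℤ) n 8 3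
    (BlkD.inB (BlkD.upd (fun _ => 0) 0 5)
      (BlkD.upd (BlkD.upd (BlkD.upd (BlkD.upd (BlkD.upd (BlkD.upd (BlkD.upd (fun _ => 20) 0 8) 2 3) 0 6) 0 5) 1 15) 1 7) 1 3)) :=
  BlkD.part_sound (d := d19_20_8_3) dk19_20_8_3 hn (by decide) (tr := t19_20_8_3_7)
    (by decide +kernel) rfl rfl rfl rfl

/-- the certificates of the part 8 of the pair `(8, 3)` -/
def t19_20_8_3_8 : BlkD.Tr :=
  .S 1 4 (.L 5 7 [4, 4, 4, 19] [94, 84, 74, 64, 52, 0] [] 100000 16667 16667 1266668 33333 0 33333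
    33333 0 0 0) (.S 2 1 (.S 2 0 (.L 5 7 [4, 4, 4, 19] [116, 112, 102, 92, 82, 70] [] 100000 0 0
    1200000 0 0 0 100000 0 0 0) (.S 3 9 (.S 3 4 (.S 3 2 (.L 5 7 [4, 4, 4, 19] [116, 112, 102, 92,
    82, 70] [] 100000 0 0 1300000 0 0 0 0 0 0 0) (.S 3 3 (.L 5 7 [4, 4, 4, 19] [116, 112, 102, 92,
    82, 70] [40, 34, 24, 12, 0, 0] 100000 8334 8334 1333333 16667 16667 33333 25000 0 0 0) (.L 6 8
    [4, 4, 3, 19] [116, 112, 102, 92, 82, 70] [54, 48, 42, 32, 20, 0] 100000 20000 20000 1300000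
    40000 0 40000 40000 0 60000 0))) (.E 1)) (.E 1))) (.L 6 8 [4, 4, 3, 19] [116, 112, 102, 92, 82,
    70] [] 100000 0 0 1357145 28571 0 42857 7143 0 42857 28571))

lemma n19_20_8_3_8 {n : ℕ} (hn : 6 ≤ n) : NoNd ((19 : ℕ) : ℤ) ((20 : ℕ) : ℤ) n 8 3
    (BlkD.inB (BlkD.upd (BlkD.upd (fun _ => 0) 0 5) 1 4)
      (BlkD.upd (BlkD.upd (BlkD.upd (BlkD.upd (BlkD.upd (BlkD.upd (BlkD.upd (fun _ => 20) 0 8) 2 3) 0 6) 0 5) 1 15) 1 7) 1 5)) :=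
  BlkD.part_sound (d := d19_20_8_3) dk19_20_8_3 hn (by decide) (tr := t19_20_8_3_8)
    (by decide +kernel) rfl rfl rfl rfl

/-- the certificates of the part 9 of the pair `(8, 3)` -/
def t19_20_8_3_9 : BlkD.Tr :=
  .S 2 1 (.S 2 0 (.L 6 8 [4, 4, 3, 19] [140, 136, 132, 122, 112, 102] [] 100000 14286 14286 1242858
    28571 0 42857 71429 0 0 0) (.S 3 8 (.S 3 4 (.S 3 2 (.L 6 8 [4, 4, 3, 19] [140, 136, 132, 122,
    112, 102] [] 100000 12500 12500 1325000 25000 25000 50000 25000 0 0 0) (.S 3 3 (.L 6 8 [4, 4,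
    3, 19] [140, 136, 132, 122, 112, 102] [40, 34, 24, 12, 0, 0] 100000 5000 5000 1370000 30000
    10000 50000 30000 0 20000 20000) (.S 4 6 (.S 4 3 (.L 6 8 [4, 4, 3, 19] [122, 112, 102, 90, 0,
    0] [54, 48, 42, 32, 20, 0] 100000 15476 15476 1342859 42857 0 64286 28571 0 11905 11905) (.L 6
    8 [4, 4, 3, 19] [140, 136, 132, 122, 112, 102] [54, 48, 42, 32, 20, 0] 100000 87500 0 775000
    37500 0 187500 37500 0 0 0)) (.E 2)))) (.E 1)) (.E 1))) (.S 2 2 (.S 3 7 (.S 3 3 (.S 3 1 (.L 6 8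
    [4, 4, 3, 19] [140, 136, 132, 122, 112, 102] [] 100000 16667 16667 1333334 33333 0 66667 33333
    0 0 0) (.L 6 8 [4, 4, 3, 19] [140, 136, 132, 122, 112, 102] [] 100000 14425 14425 1369230 38462
    0 46154 26923 0 25000 9615)) (.E 1)) (.E 1)) (.L 6 8 [4, 4, 3, 19] [140, 136, 132, 122, 112,
    102] [] 100000 8333 8333 1333335 33333 0 66667 0 0 16667 16667))

lemma n19_20_8_3_9 {n : ℕ} (hn : 6 ≤ n) : NoNd ((19 : ℕ) : ℤ) ((20 : ℕ) : ℤ) n 8 3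
    (BlkD.inB (BlkD.upd (BlkD.upd (BlkD.upd (fun _ => 0) 0 5) 1 4) 1 6)
      (BlkD.upd (BlkD.upd (BlkD.upd (BlkD.upd (BlkD.upd (BlkD.upd (BlkD.upd (fun _ => 20) 0 8) 2 3) 0 6) 0 5) 1 15) 1 7) 1 6)) :=
  BlkD.part_sound (d := d19_20_8_3) dk19_20_8_3 hn (by decide) (tr := t19_20_8_3_9)
    (by decide +kernel) rfl rfl rfl rfl

/-- the certificates of the part 10 of the pair `(8, 3)` -/
def t19_20_8_3_10 : BlkD.Tr :=
  .S 2 1 (.S 2 0 (.L 6 8 [4, 4, 3, 19] [166, 162, 158, 154, 144, 134] [] 100000 14286 14286 1257145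
    28571 0 57143 85714 0 0 0) (.S 3 7 (.S 3 3 (.S 3 1 (.L 6 8 [4, 4, 3, 19] [166, 162, 158, 154,
    144, 134] [] 100000 16667 16667 1300001 33333 0 66667 33333 0 0 0) (.S 3 2 (.L 6 8 [4, 4, 3,
    19] [166, 162, 158, 154, 144, 134] [28, 18, 6, 0, 0, 0] 100000 7143 7143 1371431 28571 14286
    71429 28571 0 14286 14286) (.S 4 7 (.S 4 3 (.L 6 8 [4, 4, 3, 19] [144, 134, 124, 112, 0, 0]
    [40, 34, 24, 12, 0, 0] 100000 21429 21429 1335716 42857 0 92857 28571 0 0 0) (.L 6 8 [4, 4, 3,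
    19] [166, 162, 158, 154, 144, 134] [40, 34, 24, 12, 0, 0] 100000 38462 0 1069229 23077 0 138462
    46154 0 0 0)) (.E 2)))) (.S 3 5 (.S 3 4 (.S 4 7 (.S 4 3 (.L 6 8 [4, 4, 3, 19] [144, 134, 124,
    112, 0, 0] [54, 48, 42, 32, 20, 0] 100000 100000 100000 1150000 75000 0 100000 50000 0 0 25000)
    (.L 6 8 [4, 4, 3, 19] [166, 162, 158, 154, 144, 134] [54, 48, 42, 32, 20, 0] 100000 42857 0
    1042859 28571 0 142857 28571 0 0 0)) (.E 2)) (.E 1)) (.E 1))) (.E 1))) (.S 2 2 (.S 3 6 (.S 3 3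
    (.S 3 1 (.L 6 8 [4, 4, 3, 19] [166, 162, 158, 154, 144, 134] [] 100000 16667 16667 1351852
    37037 0 88889 0 0 14815 3704) (.S 3 2 (.S 4 7 (.S 4 3 (.L 6 8 [4, 4, 3, 19] [144, 134, 124,
    112, 0, 0] [32, 22, 10, 0, 0, 0] 100000 22222 22222 1327780 44444 0 94444 22222 0 0 0) (.L 6 8
    [4, 4, 3, 19] [166, 162, 158, 154, 144, 134] [32, 22, 10, 0, 0, 0] 100000 33333 0 1100002 33333
    0 133333 0 0 0 0)) (.E 2)) (.S 4 7 (.S 4 3 (.L 6 8 [4, 4, 3, 19] [144, 134, 124, 112, 0, 0]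
    [46, 40, 30, 18, 0, 0] 100000 66668 66668 1199998 66667 0 100000 0 0 0 0) (.L 6 8 [4, 4, 3, 19]
    [166, 162, 158, 154, 144, 134] [46, 40, 30, 18, 0, 0] 100000 60000 0 940000 40000 0 160000 0 0
    0 0)) (.E 2)))) (.E 1)) (.E 1)) (.L 6 8 [4, 4, 3, 19] [166, 162, 158, 154, 144, 134] [] 100000
    16667 16667 1333335 33333 0 100000 0 0 0 0))

lemma n19_20_8_3_10 {n : ℕ} (hn : 6 ≤ n) : NoNd ((19 : ℕ) : ℤ) ((20 : ℕ) : ℤ) n 8 3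
    (BlkD.inB (BlkD.upd (BlkD.upd (BlkD.upd (BlkD.upd (fun _ => 0) 0 5) 1 4) 1 6) 1 7)
      (BlkD.upd (BlkD.upd (BlkD.upd (BlkD.upd (BlkD.upd (BlkD.upd (fun _ => 20) 0 8) 2 3) 0 6) 0 5) 1 15) 1 7)) :=
  BlkD.part_sound (d := d19_20_8_3) dk19_20_8_3 hn (by decide) (tr := t19_20_8_3_10)
    (by decide +kernel) rfl rfl rfl rfl

/-- the certificates of the part 11 of the pair `(8, 3)` -/
def t19_20_8_3_11 : BlkD.Tr :=
  .S 1 11 (.S 1 9 (.S 1 8 (.L 6 8 [4, 4, 3, 19] [194, 190, 186, 182, 178, 168] [] 100000 42000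
    42000 1312000 48000 0 100000 32000 0 8000 8000) (.L 6 8 [4, 4, 3, 19] [224, 220, 216, 212, 208,
    204] [] 100000 37500 37500 1300000 50000 0 100000 25000 0 0 0)) (.S 1 10 (.L 6 8 [4, 4, 3, 19]
    [256, 252, 248, 244, 240, 236] [] 100000 50001 33334 1133332 66667 0 116667 33333 0 0 0) (.L 6
    8 [4, 4, 3, 19] [290, 286, 282, 278, 274, 270] [] 100000 88889 22222 855555 88889 0 166667
    33333 0 0 0))) (.L 6 8 [4, 4, 3, 19] [] [] 100000 5882 0 1347062 5882 0 105882 47059 0 0 0)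

lemma n19_20_8_3_11 {n : ℕ} (hn : 6 ≤ n) : NoNd ((19 : ℕ) : ℤ) ((20 : ℕ) : ℤ) n 8 3
    (BlkD.inB (BlkD.upd (BlkD.upd (fun _ => 0) 0 5) 1 8)
      (BlkD.upd (BlkD.upd (BlkD.upd (BlkD.upd (BlkD.upd (fun _ => 20) 0 8) 2 3) 0 6) 0 5) 1 15)) :=
  BlkD.part_sound (d := d19_20_8_3) dk19_20_8_3 hn (by decide) (tr := t19_20_8_3_11)
    (by decide +kernel) rfl rfl rfl rfl

/-- the certificates of the part 12 of the pair `(8, 3)` -/
def t19_20_8_3_12 : BlkD.Tr :=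
  .E 0

lemma n19_20_8_3_12 {n : ℕ} (hn : 6 ≤ n) : NoNd ((19 : ℕ) : ℤ) ((20 : ℕ) : ℤ) n 8 3
    (BlkD.inB (BlkD.upd (BlkD.upd (fun _ => 0) 0 5) 1 16)
      (BlkD.upd (BlkD.upd (BlkD.upd (BlkD.upd (fun _ => 20) 0 8) 2 3) 0 6) 0 5)) :=
  BlkD.part_sound (d := d19_20_8_3) dk19_20_8_3 hn (by decide) (tr := t19_20_8_3_12)
    (by decide +kernel) rfl rfl rfl rfl

/-- the certificates of the part 13 of the pair `(8, 3)` -/
def t19_20_8_3_13 : BlkD.Tr :=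
  .S 1 14 (.S 1 7 (.S 1 3 (.L 6 8 [4, 4, 3, 19] [] [] 100000 0 0 1300001 33333 0 33333 66667 0
    33333 33333) (.S 1 5 (.S 1 4 (.L 6 8 [4, 4, 3, 19] [102, 92, 82, 72, 60, 0] [] 100000 2778 2778
    1366668 33333 0 33333 38889 0 27778 27778) (.S 2 1 (.L 6 8 [4, 4, 3, 19] [126, 122, 112, 102,
    92, 80] [] 100000 8642 8642 1379015 32099 7407 85185 28395 0 18519 14815) (.S 2 2 (.S 3 7 (.S 3
    3 (.S 3 1 (.L 6 8 [4, 4, 3, 19] [126, 122, 112, 102, 92, 80] [] 100000 1 1 1371429 25000 25000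
    67857 25000 3571 21429 17857) (.L 6 8 [4, 4, 3, 19] [126, 122, 112, 102, 92, 80] [] 100000 6250
    6250 1375000 37500 0 75000 25000 0 37500 25000)) (.E 1)) (.E 1)) (.L 6 8 [4, 4, 3, 19] [126,
    122, 112, 102, 92, 80] [] 100000 0 0 1362500 37500 0 68750 0 6250 43750 25000)))) (.S 1 6 (.S 2
    1 (.S 2 0 (.L 6 8 [4, 4, 3, 19] [152, 148, 144, 134, 124, 114] [] 100000 0 0 1200000 0 0 100000
    100000 0 0 0) (.S 3 7 (.S 3 3 (.L 6 8 [4, 4, 3, 19] [152, 148, 144, 134, 124, 114] [] 100000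
    8253 8253 1370876 33981 13592 73786 27184 0 17476 17476) (.L 6 8 [4, 4, 3, 19] [152, 148, 144,
    134, 124, 114] [] 100000 43245 43245 1305406 48649 0 100000 32432 0 8108 8108)) (.E 1))) (.L 6
    8 [4, 4, 3, 19] [152, 148, 144, 134, 124, 114] [] 100000 23405 23405 1346808 44681 0 87234
    19149 0 19149 19149)) (.L 6 8 [4, 4, 3, 19] [180, 176, 172, 168, 158, 148] [] 100000 16667
    16667 1333335 33333 0 100000 33333 0 0 0)))) (.L 6 8 [4, 4, 3, 19] [] [] 100000 2382 2382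
    1385714 4762 0 100000 47619 0 0 0)) (.E 0)

lemma n19_20_8_3_13 {n : ℕ} (hn : 6 ≤ n) : NoNd ((19 : ℕ) : ℤ) ((20 : ℕ) : ℤ) n 8 3
    (BlkD.inB (BlkD.upd (BlkD.upd (fun _ => 0) 0 5) 0 6)
      (BlkD.upd (BlkD.upd (BlkD.upd (fun _ => 20) 0 8) 2 3) 0 6)) :=
  BlkD.part_sound (d := d19_20_8_3) dk19_20_8_3 hn (by decide) (tr := t19_20_8_3_13)
    (by decide +kernel) rfl rfl rfl rfl

/-- the certificates of the part 14 of the pair `(8, 3)` -/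
def t19_20_8_3_14 : BlkD.Tr :=
  .L 6 8 [4, 4, 3, 19] [] [] 100000 1034 1034 1393814 4124 2062 97938 31959 0 2062 2062

lemma n19_20_8_3_14 {n : ℕ} (hn : 6 ≤ n) : NoNd ((19 : ℕ) : ℤ) ((20 : ℕ) : ℤ) n 8 3
    (BlkD.inB (BlkD.upd (BlkD.upd (fun _ => 0) 0 5) 0 7)
      (BlkD.upd (BlkD.upd (fun _ => 20) 0 8) 2 3)) :=
  BlkD.part_sound (d := d19_20_8_3) dk19_20_8_3 hn (by decide) (tr := t19_20_8_3_14)
    (by decide +kernel) rfl rfl rfl rfl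

/-- the certificates of the part 15 of the pair `(8, 3)` -/
def t19_20_8_3_15 : BlkD.Tr :=
  .E 1

lemma n19_20_8_3_15 {n : ℕ} (hn : 6 ≤ n) : NoNd ((19 : ℕ) : ℤ) ((20 : ℕ) : ℤ) n 8 3
    (BlkD.inB (BlkD.upd (fun _ => 0) 2 4)
      (BlkD.upd (fun _ => 20) 0 8)) :=
  BlkD.part_sound (d := d19_20_8_3) dk19_20_8_3 hn (by decide) (tr := t19_20_8_3_15)
    (by decide +kernel) rfl rfl rfl rfl

/-- the certificates of the part 16 of the pair `(8, 3)` -/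
def t19_20_8_3_16 : BlkD.Tr :=
  .E 0

lemma n19_20_8_3_16 {n : ℕ} (hn : 6 ≤ n) : NoNd ((19 : ℕ) : ℤ) ((20 : ℕ) : ℤ) n 8 3
    (BlkD.inB (BlkD.upd (fun _ => 0) 0 9)
      (fun _ => 20)) :=
  BlkD.part_sound (d := d19_20_8_3) dk19_20_8_3 hn (by decide) (tr := t19_20_8_3_16)
    (by decide +kernel) rfl rfl rfl rfl

lemma pr19_20_8_3 {n : ℕ} (hn : 6 ≤ n) : NoPr ((19 : ℕ) : ℤ) ((20 : ℕ) : ℤ) n 8 3 :=
  BlkD.of_root (q := 4) (by decide) hn (BlkD.sp 0 8 (BlkD.sp 2 3 (BlkD.sp 0 4 (BlkD.sp 0 2 (n19_20_8_3_1 hn)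
    (BlkD.sp 0 3 (n19_20_8_3_2 hn)
    (BlkD.sp 1 16 (BlkD.sp 1 8 (n19_20_8_3_3 hn)
    (BlkD.sp 1 12 (n19_20_8_3_4 hn)
    (n19_20_8_3_5 hn)))
    (n19_20_8_3_6 hn))))
    (BlkD.sp 0 6 (BlkD.sp 0 5 (BlkD.sp 1 15 (BlkD.sp 1 7 (BlkD.sp 1 3 (n19_20_8_3_7 hn)
    (BlkD.sp 1 5 (n19_20_8_3_8 hn)
    (BlkD.sp 1 6 (n19_20_8_3_9 hn)
    (n19_20_8_3_10 hn))))
    (n19_20_8_3_11 hn))
    (n19_20_8_3_12 hn))
    (n19_20_8_3_13 hn))
    (n19_20_8_3_14 hn)))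
    (n19_20_8_3_15 hn))
    (n19_20_8_3_16 hn))

/-- the numbers of the pair `(8, 4)`, `R = 19`, `H = 20` -/
def d19_20_8_4 : BlkD.Pd :=
  ⟨19, 20, 4, 8, 4, 5, 1, 3, 0, 4, 8, 0, 2, 2, 6, 0, [0, 8, 16, 20, 20, 20], [0, 6, 12, 16, 18,
    20], [⟨1, 1, 1, 4, 8, [0, 4], [0, 4]⟩, ⟨1, 1, 1, 4, 14, [0, 8], [0, 6]⟩]⟩

lemma dk19_20_8_4 : BlkD.pairOk d19_20_8_4 = true := by decide +kernel

/-- the certificates of the part 1 of the pair `(8, 4)` -/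
def t19_20_8_4_1 : BlkD.Tr :=
  .L 6 8 [4, 3, 19, 19, 19] [] [] 100000 1 1 1433333 66667 66667 100000 66667 0 0 0

lemma n19_20_8_4_1 {n : ℕ} (hn : 6 ≤ n) : NoNd ((19 : ℕ) : ℤ) ((20 : ℕ) : ℤ) n 8 4
    (BlkD.inB (fun _ => 0)
      (BlkD.upd (BlkD.upd (BlkD.upd (BlkD.upd (BlkD.upd (fun _ => 20) 0 8) 2 4) 0 4) 0 2) 0 1)) :=
  BlkD.part_sound (d := d19_20_8_4) dk19_20_8_4 hn (by decide) (tr := t19_20_8_4_1)
    (by decide +kernel) rfl rfl rfl rfl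

/-- the certificates of the part 2 of the pair `(8, 4)` -/
def t19_20_8_4_2 : BlkD.Tr :=
  .L 6 8 [4, 3, 19, 19, 19] [] [] 100000 1 1 1433333 66667 66667 100000 66667 0 0 0

lemma n19_20_8_4_2 {n : ℕ} (hn : 6 ≤ n) : NoNd ((19 : ℕ) : ℤ) ((20 : ℕ) : ℤ) n 8 4
    (BlkD.inB (BlkD.upd (fun _ => 0) 0 2)
      (BlkD.upd (BlkD.upd (BlkD.upd (BlkD.upd (fun _ => 20) 0 8) 2 4) 0 4) 0 2)) :=
  BlkD.part_sound (d := d19_20_8_4) dk19_20_8_4 hn (by decide) (tr := t19_20_8_4_2)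
    (by decide +kernel) rfl rfl rfl rfl

/-- the certificates of the part 3 of the pair `(8, 4)` -/
def t19_20_8_4_3 : BlkD.Tr :=
  .L 6 8 [4, 3, 19, 19, 19] [] [] 100000 1 1 1433333 66667 66667 100000 66667 0 0 0

lemma n19_20_8_4_3 {n : ℕ} (hn : 6 ≤ n) : NoNd ((19 : ℕ) : ℤ) ((20 : ℕ) : ℤ) n 8 4
    (BlkD.inB (BlkD.upd (fun _ => 0) 0 3)
      (BlkD.upd (BlkD.upd (BlkD.upd (BlkD.upd (fun _ => 20) 0 8) 2 4) 0 4) 0 3)) :=
  BlkD.part_sound (d := d19_20_8_4) dk19_20_8_4 hn (by decide) (tr := t19_20_8_4_3)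
    (by decide +kernel) rfl rfl rfl rfl

/-- the certificates of the part 4 of the pair `(8, 4)` -/
def t19_20_8_4_4 : BlkD.Tr :=
  .L 6 8 [4, 3, 19, 19, 19] [] [] 100000 1 1 1433333 66667 66667 100000 66667 0 0 0

lemma n19_20_8_4_4 {n : ℕ} (hn : 6 ≤ n) : NoNd ((19 : ℕ) : ℤ) ((20 : ℕ) : ℤ) n 8 4
    (BlkD.inB (BlkD.upd (BlkD.upd (fun _ => 0) 0 3) 0 4)
      (BlkD.upd (BlkD.upd (BlkD.upd (fun _ => 20) 0 8) 2 4) 0 4)) :=
  BlkD.part_sound (d := d19_20_8_4) dk19_20_8_4 hn (by decide) (tr := t19_20_8_4_4)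
    (by decide +kernel) rfl rfl rfl rfl

/-- the certificates of the part 5 of the pair `(8, 4)` -/
def t19_20_8_4_5 : BlkD.Tr :=
  .L 6 8 [4, 3, 19, 19, 19] [] [] 100000 1 1 1433333 66667 66667 100000 66667 0 0 0

lemma n19_20_8_4_5 {n : ℕ} (hn : 6 ≤ n) : NoNd ((19 : ℕ) : ℤ) ((20 : ℕ) : ℤ) n 8 4
    (BlkD.inB (BlkD.upd (fun _ => 0) 0 5)
      (BlkD.upd (BlkD.upd (BlkD.upd (BlkD.upd (fun _ => 20) 0 8) 2 4) 0 6) 0 5)) :=
  BlkD.part_sound (d := d19_20_8_4) dk19_20_8_4 hn (by decide) (tr := t19_20_8_4_5)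
    (by decide +kernel) rfl rfl rfl rfl

/-- the certificates of the part 6 of the pair `(8, 4)` -/
def t19_20_8_4_6 : BlkD.Tr :=
  .L 6 8 [4, 3, 19, 19, 19] [] [] 100000 1 1 1433333 66667 66667 100000 66667 0 0 0

lemma n19_20_8_4_6 {n : ℕ} (hn : 6 ≤ n) : NoNd ((19 : ℕ) : ℤ) ((20 : ℕ) : ℤ) n 8 4
    (BlkD.inB (BlkD.upd (BlkD.upd (fun _ => 0) 0 5) 0 6)
      (BlkD.upd (BlkD.upd (BlkD.upd (fun _ => 20) 0 8) 2 4) 0 6)) :=
  BlkD.part_sound (d := d19_20_8_4) dk19_20_8_4 hn (by decide) (tr := t19_20_8_4_6)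
    (by decide +kernel) rfl rfl rfl rfl

/-- the certificates of the part 7 of the pair `(8, 4)` -/
def t19_20_8_4_7 : BlkD.Tr :=
  .L 6 8 [4, 3, 19, 19, 19] [] [] 100000 1 1 1433333 66667 66667 100000 66667 0 0 0

lemma n19_20_8_4_7 {n : ℕ} (hn : 6 ≤ n) : NoNd ((19 : ℕ) : ℤ) ((20 : ℕ) : ℤ) n 8 4
    (BlkD.inB (BlkD.upd (BlkD.upd (fun _ => 0) 0 5) 0 7)
      (BlkD.upd (BlkD.upd (BlkD.upd (fun _ => 20) 0 8) 2 4) 0 7)) :=
  BlkD.part_sound (d := d19_20_8_4) dk19_20_8_4 hn (by decide) (tr := t19_20_8_4_7)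
    (by decide +kernel) rfl rfl rfl rfl

/-- the certificates of the part 8 of the pair `(8, 4)` -/
def t19_20_8_4_8 : BlkD.Tr :=
  .L 6 8 [4, 3, 19, 19, 19] [] [] 100000 1 1 1433333 66667 66667 100000 66667 0 0 0

lemma n19_20_8_4_8 {n : ℕ} (hn : 6 ≤ n) : NoNd ((19 : ℕ) : ℤ) ((20 : ℕ) : ℤ) n 8 4
    (BlkD.inB (BlkD.upd (BlkD.upd (BlkD.upd (fun _ => 0) 0 5) 0 7) 0 8)
      (BlkD.upd (BlkD.upd (fun _ => 20) 0 8) 2 4)) :=
  BlkD.part_sound (d := d19_20_8_4) dk19_20_8_4 hn (by decide) (tr := t19_20_8_4_8)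
    (by decide +kernel) rfl rfl rfl rfl

/-- the certificates of the part 9 of the pair `(8, 4)` -/
def t19_20_8_4_9 : BlkD.Tr :=
  .E 1

lemma n19_20_8_4_9 {n : ℕ} (hn : 6 ≤ n) : NoNd ((19 : ℕ) : ℤ) ((20 : ℕ) : ℤ) n 8 4
    (BlkD.inB (BlkD.upd (fun _ => 0) 2 5)
      (BlkD.upd (fun _ => 20) 0 8)) :=
  BlkD.part_sound (d := d19_20_8_4) dk19_20_8_4 hn (by decide) (tr := t19_20_8_4_9)
    (by decide +kernel) rfl rfl rfl rfl

/-- the certificates of the part 10 of the pair `(8, 4)` -/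
def t19_20_8_4_10 : BlkD.Tr :=
  .E 0

lemma n19_20_8_4_10 {n : ℕ} (hn : 6 ≤ n) : NoNd ((19 : ℕ) : ℤ) ((20 : ℕ) : ℤ) n 8 4
    (BlkD.inB (BlkD.upd (fun _ => 0) 0 9)
      (fun _ => 20)) :=
  BlkD.part_sound (d := d19_20_8_4) dk19_20_8_4 hn (by decide) (tr := t19_20_8_4_10)
    (by decide +kernel) rfl rfl rfl rfl

lemma pr19_20_8_4 {n : ℕ} (hn : 6 ≤ n) : NoPr ((19 : ℕ) : ℤ) ((20 : ℕ) : ℤ) n 8 4 :=
  BlkD.of_root (q := 4) (by decide) hn (BlkD.sp 0 8 (BlkD.sp 2 4 (BlkD.sp 0 4 (BlkD.sp 0 2 (BlkD.sp 0 1 (n19_20_8_4_1 hn)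
    (n19_20_8_4_2 hn))
    (BlkD.sp 0 3 (n19_20_8_4_3 hn)
    (n19_20_8_4_4 hn)))
    (BlkD.sp 0 6 (BlkD.sp 0 5 (n19_20_8_4_5 hn)
    (n19_20_8_4_6 hn))
    (BlkD.sp 0 7 (n19_20_8_4_7 hn)
    (n19_20_8_4_8 hn))))
    (n19_20_8_4_9 hn))
    (n19_20_8_4_10 hn))

end BlkC

end Pool.Agent.Lib.MP_f04ccf_co
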