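import Pool.Agent.Lib.MP_f04ccf_co.M.BlkT

/-!
MP_f04ccf_co, block certificate, data `R = 20`, `H = 20`, part 11 (generated, helper99:
bd10.cpp, gen2.py).
-/

set_option autoImplicit false
set_option maxRecDepth 100000

namespace Pool.Agent.Lib.MP_f04ccf_co

namespace BlkC

/-- the numbers of the pair `(8, 4)`, `R = 20`, `H = 20` -/
def d20_20_8_4 : BlkD.Pd :=
  ⟨20, 20, 3, 8, 4, 5, 2, 3, 0, 4, 10, 0, 2, 2, 8, 0, [0, 10, 20, 20, 20, 20], [0, 8, 14, 16, 18,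
    20], [⟨1, 1, 1, 4, 8, [0, 4], [0, 4]⟩, ⟨1, 1, 1, 4, 14, [0, 8], [0, 6]⟩, ⟨2, 1, 1, 4, 18, [0,
    10, 10], [0, 8]⟩]⟩

lemma k20_20_8_4 : BlkD.pairOk d20_20_8_4 = true := by decide +kernel

/-- certificates of the pair `(8, 4)`, part 1 -/
def t20_20_8_4_1 : BlkD.Tr :=
  .L 5 7 [4, 4, 4, 20, 20] [] [] 100000 116666 116666 1186670 73333 0 73333 40000 0 6667 0

lemma s20_20_8_4_1 {n : ℕ} (hn : 5 ≤ n) : NoNd (d20_20_8_4.R : ℤ) d20_20_8_4.H n d20_20_8_4.a d20_20_8_4.b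
    (BlkD.inB (fun _ => 0)
      (BlkD.upd (BlkD.upd (BlkD.upd (BlkD.upd (BlkD.upd (BlkD.upd (fun _ => 20) 0 8) 2 4) 0 4) 0 2) 0 1) 0 0)) :=
  BlkD.tree_sound (BlkD.pairOk_sound k20_20_8_4) (by decide) hn t20_20_8_4_1 _ _ (by decide +kernel)

/-- certificates of the pair `(8, 4)`, part 2 -/
def t20_20_8_4_2 : BlkD.Tr :=
  .L 5 7 [4, 4, 4, 20, 20] [] [] 100000 116666 116666 1186670 73333 0 73333 40000 0 6667 0

lemma s20_20_8_4_2 {n : ℕ} (hn : 5 ≤ n) : NoNd (d20_20_8_4.R : ℤ) d20_20_8_4.H n d20_20_8_4.a d20_20_8_4.b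
    (BlkD.inB (BlkD.upd (fun _ => 0) 0 1)
      (BlkD.upd (BlkD.upd (BlkD.upd (BlkD.upd (BlkD.upd (BlkD.upd (BlkD.upd (fun _ => 20) 0 8) 2 4) 0 4) 0 2) 0 1) 1 10) 1 5)) :=
  BlkD.tree_sound (BlkD.pairOk_sound k20_20_8_4) (by decide) hn t20_20_8_4_2 _ _ (by decide +kernel)

/-- certificates of the pair `(8, 4)`, part 3 -/
def t20_20_8_4_3 : BlkD.Tr :=
  .L 5 7 [4, 4, 4, 20, 20] [] [] 100000 116666 116666 1186670 73333 0 73333 40000 0 6667 0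

lemma s20_20_8_4_3 {n : ℕ} (hn : 5 ≤ n) : NoNd (d20_20_8_4.R : ℤ) d20_20_8_4.H n d20_20_8_4.a d20_20_8_4.b
    (BlkD.inB (BlkD.upd (BlkD.upd (fun _ => 0) 0 1) 1 6)
      (BlkD.upd (BlkD.upd (BlkD.upd (BlkD.upd (BlkD.upd (BlkD.upd (fun _ => 20) 0 8) 2 4) 0 4) 0 2) 0 1) 1 10)) :=
  BlkD.tree_sound (BlkD.pairOk_sound k20_20_8_4) (by decide) hn t20_20_8_4_3 _ _ (by decide +kernel)

/-- certificates of the pair `(8, 4)`, part 4 -/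
def t20_20_8_4_4 : BlkD.Tr :=
  .L 5 7 [4, 4, 4, 20, 20] [] [] 100000 116666 116666 1186670 73333 0 73333 40000 0 6667 0

lemma s20_20_8_4_4 {n : ℕ} (hn : 5 ≤ n) : NoNd (d20_20_8_4.R : ℤ) d20_20_8_4.H n d20_20_8_4.a d20_20_8_4.b
    (BlkD.inB (BlkD.upd (BlkD.upd (fun _ => 0) 0 1) 1 11)
      (BlkD.upd (BlkD.upd (BlkD.upd (BlkD.upd (BlkD.upd (fun _ => 20) 0 8) 2 4) 0 4) 0 2) 0 1)) :=
  BlkD.tree_sound (BlkD.pairOk_sound k20_20_8_4) (by decide) hn t20_20_8_4_4 _ _ (by decide +kernel)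

/-- certificates of the pair `(8, 4)`, part 5 -/
def t20_20_8_4_5 : BlkD.Tr :=
  .L 5 7 [4, 4, 4, 20, 20] [] [] 100000 116666 116666 1186670 73333 0 73333 40000 0 6667 0

lemma s20_20_8_4_5 {n : ℕ} (hn : 5 ≤ n) : NoNd (d20_20_8_4.R : ℤ) d20_20_8_4.H n d20_20_8_4.a d20_20_8_4.b
    (BlkD.inB (BlkD.upd (fun _ => 0) 0 2)
      (BlkD.upd (BlkD.upd (BlkD.upd (BlkD.upd (BlkD.upd (BlkD.upd (fun _ => 20) 0 8) 2 4) 0 4) 0 2) 1 10) 1 5)) :=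
  BlkD.tree_sound (BlkD.pairOk_sound k20_20_8_4) (by decide) hn t20_20_8_4_5 _ _ (by decide +kernel)

/-- certificates of the pair `(8, 4)`, part 6 -/
def t20_20_8_4_6 : BlkD.Tr :=
  .L 5 7 [4, 4, 4, 20, 20] [] [] 100000 116666 116666 1186670 73333 0 73333 40000 0 6667 0

lemma s20_20_8_4_6 {n : ℕ} (hn : 5 ≤ n) : NoNd (d20_20_8_4.R : ℤ) d20_20_8_4.H n d20_20_8_4.a d20_20_8_4.b
    (BlkD.inB (BlkD.upd (BlkD.upd (fun _ => 0) 0 2) 1 6)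
      (BlkD.upd (BlkD.upd (BlkD.upd (BlkD.upd (BlkD.upd (BlkD.upd (fun _ => 20) 0 8) 2 4) 0 4) 0 2) 1 10) 1 8)) :=
  BlkD.tree_sound (BlkD.pairOk_sound k20_20_8_4) (by decide) hn t20_20_8_4_6 _ _ (by decide +kernel)

/-- certificates of the pair `(8, 4)`, part 7 -/
def t20_20_8_4_7 : BlkD.Tr :=
  .L 5 7 [4, 4, 4, 20, 20] [] [] 100000 116666 116666 1186670 73333 0 73333 40000 0 6667 0

lemma s20_20_8_4_7 {n : ℕ} (hn : 5 ≤ n) : NoNd (d20_20_8_4.R : ℤ) d20_20_8_4.H n d20_20_8_4.a d20_20_8_4.b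
    (BlkD.inB (BlkD.upd (BlkD.upd (BlkD.upd (fun _ => 0) 0 2) 1 6) 1 9)
      (BlkD.upd (BlkD.upd (BlkD.upd (BlkD.upd (BlkD.upd (fun _ => 20) 0 8) 2 4) 0 4) 0 2) 1 10)) :=
  BlkD.tree_sound (BlkD.pairOk_sound k20_20_8_4) (by decide) hn t20_20_8_4_7 _ _ (by decide +kernel)

/-- certificates of the pair `(8, 4)`, part 8 -/
def t20_20_8_4_8 : BlkD.Tr :=
  .L 5 7 [4, 4, 4, 20, 20] [] [] 100000 116666 116666 1186670 73333 0 73333 40000 0 6667 0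

lemma s20_20_8_4_8 {n : ℕ} (hn : 5 ≤ n) : NoNd (d20_20_8_4.R : ℤ) d20_20_8_4.H n d20_20_8_4.a d20_20_8_4.b
    (BlkD.inB (BlkD.upd (BlkD.upd (fun _ => 0) 0 2) 1 11)
      (BlkD.upd (BlkD.upd (BlkD.upd (BlkD.upd (fun _ => 20) 0 8) 2 4) 0 4) 0 2)) :=
  BlkD.tree_sound (BlkD.pairOk_sound k20_20_8_4) (by decide) hn t20_20_8_4_8 _ _ (by decide +kernel)

/-- certificates of the pair `(8, 4)`, part 9 -/
def t20_20_8_4_9 : BlkD.Tr :=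
  .L 5 7 [4, 4, 4, 20, 20] [] [] 100000 11111 11111 1277779 22222 0 22222 33333 0 0 0

lemma s20_20_8_4_9 {n : ℕ} (hn : 5 ≤ n) : NoNd (d20_20_8_4.R : ℤ) d20_20_8_4.H n d20_20_8_4.a d20_20_8_4.b
    (BlkD.inB (BlkD.upd (fun _ => 0) 0 3)
      (BlkD.upd (BlkD.upd (BlkD.upd (BlkD.upd (BlkD.upd (BlkD.upd (BlkD.upd (fun _ => 20) 0 8) 2 4) 0 4) 0 3) 1 17) 1 8) 1 4)) :=
  BlkD.tree_sound (BlkD.pairOk_sound k20_20_8_4) (by decide) hn t20_20_8_4_9 _ _ (by decide +kernel)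

/-- certificates of the pair `(8, 4)`, part 10 -/
def t20_20_8_4_10 : BlkD.Tr :=
  .S 1 6 (.L 5 7 [4, 4, 4, 20, 20] [] [] 100000 5000 5000 1400000 30000 0 40000 20000 0 20000
    10000) (.S 1 7 (.L 5 7 [4, 4, 4, 20, 20] [134, 134, 134, 130, 120, 110] [] 100000 16667 16667
    1433336 33333 0 33333 33333 0 0 0) (.L 5 7 [4, 4, 4, 20, 20] [154, 154, 154, 154, 150, 140] []
    100000 34617 34617 1407693 42308 0 61538 34615 0 23077 19231))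

lemma s20_20_8_4_10 {n : ℕ} (hn : 5 ≤ n) : NoNd (d20_20_8_4.R : ℤ) d20_20_8_4.H n d20_20_8_4.a d20_20_8_4.b
    (BlkD.inB (BlkD.upd (BlkD.upd (fun _ => 0) 0 3) 1 5)
      (BlkD.upd (BlkD.upd (BlkD.upd (BlkD.upd (BlkD.upd (BlkD.upd (fun _ => 20) 0 8) 2 4) 0 4) 0 3) 1 17) 1 8)) :=
  BlkD.tree_sound (BlkD.pairOk_sound k20_20_8_4) (by decide) hn t20_20_8_4_10 _ _ (by decide +kernel)

/-- certificates of the pair `(8, 4)`, part 11 -/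
def t20_20_8_4_11 : BlkD.Tr :=
  .S 1 13 (.S 1 11 (.S 1 10 (.S 1 9 (.L 5 7 [4, 4, 4, 20, 20] [176, 176, 176, 176, 176, 172] []
    100000 53572 53572 1328571 57143 0 71429 35714 0 7143 14286) (.L 5 7 [4, 4, 4, 20, 20] [200,
    200, 200, 200, 200, 200] [] 100000 150000 150000 1100001 100000 0 100000 33333 0 0 0)) (.L 5 7
    [4, 4, 4, 20, 20] [226, 226, 226, 226, 226, 226] [] 100000 160000 140000 920000 120000 0 120000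
    40000 0 0 0)) (.S 1 12 (.L 5 7 [4, 4, 4, 20, 20] [254, 254, 254, 254, 254, 254] [] 100000
    390910 218183 0 245455 0 272727 72727 0 0 0) (.L 5 7 [4, 4, 4, 20, 20] [284, 284, 284, 284,
    284, 284] [] 100000 357142 228571 3 228571 0 228571 0 0 0 0))) (.E 0)

lemma s20_20_8_4_11 {n : ℕ} (hn : 5 ≤ n) : NoNd (d20_20_8_4.R : ℤ) d20_20_8_4.H n d20_20_8_4.a d20_20_8_4.b
    (BlkD.inB (BlkD.upd (BlkD.upd (fun _ => 0) 0 3) 1 9)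
      (BlkD.upd (BlkD.upd (BlkD.upd (BlkD.upd (BlkD.upd (fun _ => 20) 0 8) 2 4) 0 4) 0 3) 1 17)) :=
  BlkD.tree_sound (BlkD.pairOk_sound k20_20_8_4) (by decide) hn t20_20_8_4_11 _ _ (by decide +kernel)

/-- certificates of the pair `(8, 4)`, part 12 -/
def t20_20_8_4_12 : BlkD.Tr :=
  .E 0

lemma s20_20_8_4_12 {n : ℕ} (hn : 5 ≤ n) : NoNd (d20_20_8_4.R : ℤ) d20_20_8_4.H n d20_20_8_4.a d20_20_8_4.b
    (BlkD.inB (BlkD.upd (BlkD.upd (fun _ => 0) 0 3) 1 18)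
      (BlkD.upd (BlkD.upd (BlkD.upd (BlkD.upd (fun _ => 20) 0 8) 2 4) 0 4) 0 3)) :=
  BlkD.tree_sound (BlkD.pairOk_sound k20_20_8_4) (by decide) hn t20_20_8_4_12 _ _ (by decide +kernel)

/-- certificates of the pair `(8, 4)`, part 13 -/
def t20_20_8_4_13 : BlkD.Tr :=
  .L 5 7 [4, 4, 4, 20, 20] [] [] 100000 10500 10500 1365000 27000 4000 27000 27000 0 6000 3000

lemma s20_20_8_4_13 {n : ℕ} (hn : 5 ≤ n) : NoNd (d20_20_8_4.R : ℤ) d20_20_8_4.H n d20_20_8_4.a d20_20_8_4.b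
    (BlkD.inB (BlkD.upd (BlkD.upd (fun _ => 0) 0 3) 0 4)
      (BlkD.upd (BlkD.upd (BlkD.upd (BlkD.upd (BlkD.upd (BlkD.upd (fun _ => 20) 0 8) 2 4) 0 4) 1 16) 1 8) 1 4)) :=
  BlkD.tree_sound (BlkD.pairOk_sound k20_20_8_4) (by decide) hn t20_20_8_4_13 _ _ (by decide +kernel)

/-- certificates of the pair `(8, 4)`, part 14 -/
def t20_20_8_4_14 : BlkD.Tr :=
  .S 1 6 (.S 1 5 (.L 5 7 [4, 4, 4, 20, 20] [110, 106, 96, 86, 72, 60] [] 100000 0 0 1414288 28571 0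
    42857 42857 0 28571 14286) (.S 2 2 (.L 5 7 [4, 4, 4, 20, 20] [128, 128, 124, 114, 104, 90] []
    100000 21875 21875 1425000 37500 6250 43750 37500 0 18750 18750) (.L 5 7 [4, 4, 4, 20, 20]
    [128, 128, 124, 114, 104, 90] [] 100000 0 0 1450000 25000 0 50000 25000 0 25000 12500))) (.S 1
    7 (.S 2 2 (.S 2 1 (.L 5 7 [4, 4, 4, 20, 20] [148, 148, 148, 144, 134, 124] [] 100000 81250
    81250 1300000 50000 37500 62500 62500 0 0 0) (.L 5 7 [4, 4, 4, 20, 20] [148, 148, 148, 144,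
    134, 124] [] 100000 25001 25001 1441667 41667 0 50000 33333 0 16667 16667)) (.L 5 7 [4, 4, 4,
    20, 20] [148, 148, 148, 144, 134, 124] [] 100000 15625 15625 1437500 37500 0 56250 25000 0
    31250 18750)) (.L 5 7 [4, 4, 4, 20, 20] [170, 170, 170, 170, 166, 156] [] 100000 36291 36291
    1425807 46774 0 72581 40323 1613 12903 12903))

lemma s20_20_8_4_14 {n : ℕ} (hn : 5 ≤ n) : NoNd (d20_20_8_4.R : ℤ) d20_20_8_4.H n d20_20_8_4.a d20_20_8_4.b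
    (BlkD.inB (BlkD.upd (BlkD.upd (BlkD.upd (fun _ => 0) 0 3) 0 4) 1 5)
      (BlkD.upd (BlkD.upd (BlkD.upd (BlkD.upd (BlkD.upd (fun _ => 20) 0 8) 2 4) 0 4) 1 16) 1 8)) :=
  BlkD.tree_sound (BlkD.pairOk_sound k20_20_8_4) (by decide) hn t20_20_8_4_14 _ _ (by decide +kernel)

/-- certificates of the pair `(8, 4)`, part 15 -/
def t20_20_8_4_15 : BlkD.Tr :=
  .S 1 12 (.S 1 10 (.S 1 9 (.S 2 2 (.S 2 1 (.L 5 7 [4, 4, 4, 20, 20] [194, 194, 194, 194, 194, 190]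
    [] 100000 80953 80953 1271428 61905 33333 71429 71429 0 0 0) (.S 3 5 (.S 3 2 (.S 3 1 (.L 5 7
    [4, 4, 4, 20, 20] [194, 194, 194, 194, 194, 190] [] 100000 16667 16667 1400002 33333 0 66667
    33333 0 0 0) (.L 4 5 [4, 4, 6, 20, 20] [194, 194, 194, 194, 194, 190] [36, 22, 10, 0, 0, 0]
    100000 100001 100001 1266666 66667 0 100000 33333 0 0 0)) (.L 4 5 [4, 4, 6, 20, 20] [194, 194,
    194, 194, 194, 190] [] 100000 142857 142857 1171430 85714 0 100000 42857 0 0 0)) (.E 1))) (.L 4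
    5 [4, 4, 6, 20, 20] [194, 194, 194, 194, 194, 190] [] 100000 90000 90000 1280000 60000 0 100000
    40000 0 0 0)) (.L 4 5 [4, 4, 6, 20, 20] [220, 220, 220, 220, 220, 220] [] 100000 107896 107896
    1215133 76974 0 100000 25000 0 9211 17105)) (.S 1 11 (.L 4 5 [4, 4, 6, 20, 20] [248, 248, 248,
    248, 248, 248] [] 100000 212500 137500 700000 150000 0 175000 0 0 0 0) (.E 0))) (.E 0)

lemma s20_20_8_4_15 {n : ℕ} (hn : 5 ≤ n) : NoNd (d20_20_8_4.R : ℤ) d20_20_8_4.H n d20_20_8_4.a d20_20_8_4.b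
    (BlkD.inB (BlkD.upd (BlkD.upd (BlkD.upd (fun _ => 0) 0 3) 0 4) 1 9)
      (BlkD.upd (BlkD.upd (BlkD.upd (BlkD.upd (fun _ => 20) 0 8) 2 4) 0 4) 1 16)) :=
  BlkD.tree_sound (BlkD.pairOk_sound k20_20_8_4) (by decide) hn t20_20_8_4_15 _ _ (by decide +kernel)

/-- certificates of the pair `(8, 4)`, part 16 -/
def t20_20_8_4_16 : BlkD.Tr :=
  .E 0

lemma s20_20_8_4_16 {n : ℕ} (hn : 5 ≤ n) : NoNd (d20_20_8_4.R : ℤ) d20_20_8_4.H n d20_20_8_4.a d20_20_8_4.b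
    (BlkD.inB (BlkD.upd (BlkD.upd (BlkD.upd (fun _ => 0) 0 3) 0 4) 1 17)
      (BlkD.upd (BlkD.upd (BlkD.upd (fun _ => 20) 0 8) 2 4) 0 4)) :=
  BlkD.tree_sound (BlkD.pairOk_sound k20_20_8_4) (by decide) hn t20_20_8_4_16 _ _ (by decide +kernel)

/-- certificates of the pair `(8, 4)`, part 17 -/
def t20_20_8_4_17 : BlkD.Tr :=
  .L 4 5 [4, 4, 6, 20, 20] [] [] 100000 0 0 1400000 0 0 0 100000 0 0 0

lemma s20_20_8_4_17 {n : ℕ} (hn : 5 ≤ n) : NoNd (d20_20_8_4.R : ℤ) d20_20_8_4.H n d20_20_8_4.a d20_20_8_4.b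
    (BlkD.inB (BlkD.upd (fun _ => 0) 0 5)
      (BlkD.upd (BlkD.upd (BlkD.upd (BlkD.upd (BlkD.upd (BlkD.upd (BlkD.upd (fun _ => 20) 0 8) 2 4) 0 6) 0 5) 1 15) 1 7) 1 3)) :=
  BlkD.tree_sound (BlkD.pairOk_sound k20_20_8_4) (by decide) hn t20_20_8_4_17 _ _ (by decide +kernel)

/-- certificates of the pair `(8, 4)`, part 18 -/
def t20_20_8_4_18 : BlkD.Tr :=
  .S 1 4 (.L 4 5 [4, 4, 6, 20, 20] [98, 88, 78, 64, 52, 0] [] 100000 1 1 1450000 16667 0 25000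
    83333 0 16667 50000) (.S 2 2 (.S 2 1 (.L 5 7 [4, 4, 4, 20, 20] [120, 116, 106, 96, 82, 70] []
    100000 0 0 1477143 20000 22857 42857 54286 0 22857 22857) (.L 5 7 [4, 4, 4, 20, 20] [120, 116,
    106, 96, 82, 70] [] 100000 2 2 1495236 23810 4762 47619 42857 0 28571 28571)) (.L 5 7 [4, 4, 4,
    20, 20] [120, 116, 106, 96, 82, 70] [] 100000 1 1 1466666 26667 0 40000 26667 0 33333 33333))

lemma s20_20_8_4_18 {n : ℕ} (hn : 5 ≤ n) : NoNd (d20_20_8_4.R : ℤ) d20_20_8_4.H n d20_20_8_4.a d20_20_8_4.b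
    (BlkD.inB (BlkD.upd (BlkD.upd (fun _ => 0) 0 5) 1 4)
      (BlkD.upd (BlkD.upd (BlkD.upd (BlkD.upd (BlkD.upd (BlkD.upd (BlkD.upd (fun _ => 20) 0 8) 2 4) 0 6) 0 5) 1 15) 1 7) 1 5)) :=
  BlkD.tree_sound (BlkD.pairOk_sound k20_20_8_4) (by decide) hn t20_20_8_4_18 _ _ (by decide +kernel)

/-- certificates of the pair `(8, 4)`, part 19 -/
def t20_20_8_4_19 : BlkD.Tr :=
  .S 1 6 (.S 2 2 (.S 2 1 (.L 5 7 [4, 4, 4, 20, 20] [140, 140, 136, 126, 116, 102] [] 100000 75002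
    75002 1345452 45455 36364 68182 63636 0 4545 0) (.S 3 7 (.S 3 3 (.L 5 7 [4, 4, 4, 20, 20] [140,
    140, 136, 126, 116, 102] [] 100000 6250 6250 1472223 27778 8333 48148 37037 463 14815 14815)
    (.S 3 5 (.S 3 4 (.S 4 6 (.S 4 3 (.L 5 7 [4, 4, 4, 20, 20] [126, 116, 102, 90, 0, 0] [68, 62,
    54, 40, 28, 0] 100000 30770 30770 1423077 46154 0 69231 30769 0 23077 0) (.L 5 7 [4, 4, 4, 20,
    20] [140, 140, 136, 126, 116, 102] [68, 62, 54, 40, 28, 0] 100000 100000 0 900000 0 0 200000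
    200000 0 0 0)) (.E 2)) (.L 5 7 [4, 4, 4, 20, 20] [140, 140, 136, 126, 116, 102] [84, 80, 74,
    66, 52, 40] 100000 133335 133335 1166665 66667 0 100000 100000 0 0 0)) (.E 1))) (.E 1))) (.S 2
    3 (.S 3 6 (.S 3 3 (.S 3 1 (.L 5 7 [4, 4, 4, 20, 20] [140, 140, 136, 126, 116, 102] [] 100000
    12500 12500 1425000 25000 25000 50000 25000 0 0 0) (.S 3 2 (.L 5 7 [4, 4, 4, 20, 20] [140, 140,
    136, 126, 116, 102] [40, 26, 14, 0, 0, 0] 100000 8333 8333 1466668 33333 0 50000 33333 0 16667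
    16667) (.L 7 9 [5, 4, 3, 20, 20] [140, 140, 136, 126, 116, 102] [58, 50, 36, 24, 0, 0] 100000 1
    1 1482608 30435 0 65217 47826 0 30435 15217))) (.E 1)) (.E 1)) (.S 3 5 (.S 3 2 (.S 3 1 (.L 5 7
    [4, 4, 4, 20, 20] [140, 140, 136, 126, 116, 102] [] 100000 2500 2500 1437500 32500 0 42500 2500
    2500 25000 22500) (.L 7 9 [5, 4, 3, 20, 20] [140, 140, 136, 126, 116, 102] [44, 30, 18, 0, 0,
    0] 100000 50000 50000 1350000 50000 0 100000 0 0 0 0)) (.E 1)) (.E 1)))) (.S 2 2 (.S 2 1 (.L 5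
    7 [4, 4, 4, 20, 20] [162, 162, 162, 158, 148, 138] [] 100000 73610 73610 1333336 44444 50000
    72222 75000 0 0 0) (.S 3 6 (.S 3 3 (.S 3 1 (.L 5 7 [4, 4, 4, 20, 20] [162, 162, 162, 158, 148,
    138] [] 100000 18182 18182 1390910 36364 18182 54545 18182 0 0 0) (.S 3 2 (.L 5 7 [4, 4, 4, 20,
    20] [162, 162, 162, 158, 148, 138] [36, 22, 10, 0, 0, 0] 100000 16667 16667 1450001 33333 16667
    50000 33333 0 0 0) (.S 4 7 (.S 4 3 (.L 5 7 [4, 4, 4, 20, 20] [148, 138, 124, 112, 0, 0] [52,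
    44, 30, 18, 0, 0] 100000 40000 40000 1400000 40000 0 100000 80000 0 0 0) (.L 5 7 [4, 4, 4, 20,
    20] [162, 162, 162, 158, 148, 138] [52, 44, 30, 18, 0, 0] 100000 0 0 1400000 0 0 100000 50000 0
    0 0)) (.E 2)))) (.S 3 5 (.S 3 4 (.L 4 6 [4, 4, 5, 20, 20] [162, 162, 162, 158, 148, 138] [68,
    62, 54, 40, 28, 0] 100000 85715 85715 1314286 57143 0 100000 35714 0 14286 7143) (.L 4 6 [4, 4,
    5, 20, 20] [162, 162, 162, 158, 148, 138] [84, 80, 74, 66, 52, 40] 100000 133335 133335 1166665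
    66667 0 100000 100000 0 0 0)) (.E 1))) (.E 1))) (.S 2 3 (.S 3 5 (.S 3 2 (.L 5 7 [4, 4, 4, 20,
    20] [162, 162, 162, 158, 148, 138] [] 100000 0 0 1496670 33333 0 63333 33333 6667 26667 13333)
    (.L 5 7 [4, 4, 4, 20, 20] [162, 162, 162, 158, 148, 138] [] 100000 63160 63160 1336841 52632 0
    100000 15789 0 31579 0)) (.E 1)) (.L 5 7 [4, 4, 4, 20, 20] [162, 162, 162, 158, 148, 138] []
    100000 50000 50000 1350000 50000 0 100000 0 0 50000 0)))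

lemma s20_20_8_4_19 {n : ℕ} (hn : 5 ≤ n) : NoNd (d20_20_8_4.R : ℤ) d20_20_8_4.H n d20_20_8_4.a d20_20_8_4.b
    (BlkD.inB (BlkD.upd (BlkD.upd (BlkD.upd (fun _ => 0) 0 5) 1 4) 1 6)
      (BlkD.upd (BlkD.upd (BlkD.upd (BlkD.upd (BlkD.upd (BlkD.upd (fun _ => 20) 0 8) 2 4) 0 6) 0 5) 1 15) 1 7)) :=
  BlkD.tree_sound (BlkD.pairOk_sound k20_20_8_4) (by decide) hn t20_20_8_4_19 _ _ (by decide +kernel)

/-- certificates of the pair `(8, 4)`, part 20 -/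
def t20_20_8_4_20 : BlkD.Tr :=
  .S 1 11 (.S 1 9 (.S 1 8 (.L 5 7 [4, 4, 4, 20, 20] [186, 186, 186, 186, 182, 172] [] 100000 53572
    53572 1357143 57143 0 100000 35714 0 7143 14286) (.L 5 7 [4, 4, 4, 20, 20] [212, 212, 212, 212,
    212, 208] [] 100000 66668 66668 1266665 66667 0 100000 66667 0 0 0)) (.S 1 10 (.L 5 7 [4, 4, 4,
    20, 20] [240, 240, 240, 240, 240, 240] [] 100000 100000 0 900000 100000 0 200000 0 0 0 0) (.E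
    0))) (.E 0)

lemma s20_20_8_4_20 {n : ℕ} (hn : 5 ≤ n) : NoNd (d20_20_8_4.R : ℤ) d20_20_8_4.H n d20_20_8_4.a d20_20_8_4.b
    (BlkD.inB (BlkD.upd (BlkD.upd (fun _ => 0) 0 5) 1 8)
      (BlkD.upd (BlkD.upd (BlkD.upd (BlkD.upd (BlkD.upd (fun _ => 20) 0 8) 2 4) 0 6) 0 5) 1 15)) :=
  BlkD.tree_sound (BlkD.pairOk_sound k20_20_8_4) (by decide) hn t20_20_8_4_20 _ _ (by decide +kernel)

/-- certificates of the pair `(8, 4)`, part 21 -/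
def t20_20_8_4_21 : BlkD.Tr :=
  .E 0

lemma s20_20_8_4_21 {n : ℕ} (hn : 5 ≤ n) : NoNd (d20_20_8_4.R : ℤ) d20_20_8_4.H n d20_20_8_4.a d20_20_8_4.b
    (BlkD.inB (BlkD.upd (BlkD.upd (fun _ => 0) 0 5) 1 16)
      (BlkD.upd (BlkD.upd (BlkD.upd (BlkD.upd (fun _ => 20) 0 8) 2 4) 0 6) 0 5)) :=
  BlkD.tree_sound (BlkD.pairOk_sound k20_20_8_4) (by decide) hn t20_20_8_4_21 _ _ (by decide +kernel)

/-- certificates of the pair `(8, 4)`, part 22 -/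
def t20_20_8_4_22 : BlkD.Tr :=
  .S 1 14 (.S 1 7 (.S 1 3 (.L 5 7 [4, 4, 4, 20, 20] [] [] 100000 4546 4546 1425001 34091 6818 54545
    59091 0 25000 20455) (.S 1 5 (.S 1 4 (.L 5 7 [4, 4, 4, 20, 20] [106, 96, 86, 72, 60, 0] []
    100000 6410 6410 1469232 33333 0 64103 48718 0 20513 20513) (.S 2 2 (.S 2 1 (.L 5 7 [4, 4, 4,
    20, 20] [130, 126, 116, 106, 92, 80] [] 100000 33333 33333 1400002 33333 33333 66667 66667 0 0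
    0) (.S 3 7 (.S 3 3 (.L 5 7 [4, 4, 4, 20, 20] [130, 126, 116, 106, 92, 80] [] 100000 7955 7955
    1479547 29545 2273 56818 56818 0 13636 6818) (.S 3 5 (.S 3 4 (.L 7 9 [5, 4, 3, 20, 20] [130,
    126, 116, 106, 92, 80] [68, 62, 54, 40, 28, 0] 100000 1 1 1495774 30986 15493 64789 46479 1408
    29577 14789) (.L 7 9 [5, 4, 3, 20, 20] [130, 126, 116, 106, 92, 80] [84, 80, 74, 66, 52, 40]
    100000 16667 16667 1366667 33333 0 66667 100000 0 0 0)) (.E 1))) (.E 1))) (.L 7 9 [5, 4, 3, 20,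
    20] [130, 126, 116, 106, 92, 80] [] 100000 0 0 1494000 34000 2000 62000 62000 6000 28000
    14000))) (.S 1 6 (.L 7 9 [5, 4, 3, 20, 20] [152, 152, 148, 138, 128, 114] [] 100000 11207 11207
    1476552 30000 1724 95862 33793 0 7586 3793) (.L 7 9 [5, 4, 3, 20, 20] [176, 176, 176, 172, 162,
    152] [] 100000 22224 22224 1433333 55556 0 77778 22222 0 11111 5556)))) (.L 7 9 [5, 4, 3, 20,
    20] [] [] 100000 0 0 1481250 6250 0 100000 25000 0 6250 6250)) (.E 0)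

lemma s20_20_8_4_22 {n : ℕ} (hn : 5 ≤ n) : NoNd (d20_20_8_4.R : ℤ) d20_20_8_4.H n d20_20_8_4.a d20_20_8_4.b
    (BlkD.inB (BlkD.upd (BlkD.upd (fun _ => 0) 0 5) 0 6)
      (BlkD.upd (BlkD.upd (BlkD.upd (fun _ => 20) 0 8) 2 4) 0 6)) :=
  BlkD.tree_sound (BlkD.pairOk_sound k20_20_8_4) (by decide) hn t20_20_8_4_22 _ _ (by decide +kernel)

/-- certificates of the pair `(8, 4)`, part 23 -/
def t20_20_8_4_23 : BlkD.Tr :=
  .S 0 7 (.S 1 13 (.S 1 6 (.L 7 9 [5, 4, 3, 20, 20] [] [] 100000 0 0 1495746 17021 4255 80851 53191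
    4255 12766 6383) (.E 0)) (.E 0)) (.L 7 9 [5, 4, 3, 20, 20] [] [] 100000 1 1 1446789 0 26606
    63303 66972 7339 19266 9633)

lemma s20_20_8_4_23 {n : ℕ} (hn : 5 ≤ n) : NoNd (d20_20_8_4.R : ℤ) d20_20_8_4.H n d20_20_8_4.a d20_20_8_4.b
    (BlkD.inB (BlkD.upd (BlkD.upd (fun _ => 0) 0 5) 0 7)
      (BlkD.upd (BlkD.upd (fun _ => 20) 0 8) 2 4)) :=
  BlkD.tree_sound (BlkD.pairOk_sound k20_20_8_4) (by decide) hn t20_20_8_4_23 _ _ (by decide +kernel)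

/-- certificates of the pair `(8, 4)`, part 24 -/
def t20_20_8_4_24 : BlkD.Tr :=
  .E 1

lemma s20_20_8_4_24 {n : ℕ} (hn : 5 ≤ n) : NoNd (d20_20_8_4.R : ℤ) d20_20_8_4.H n d20_20_8_4.a d20_20_8_4.b
    (BlkD.inB (BlkD.upd (fun _ => 0) 2 5)
      (BlkD.upd (fun _ => 20) 0 8)) :=
  BlkD.tree_sound (BlkD.pairOk_sound k20_20_8_4) (by decide) hn t20_20_8_4_24 _ _ (by decide +kernel)

/-- certificates of the pair `(8, 4)`, part 25 -/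
def t20_20_8_4_25 : BlkD.Tr :=
  .E 0

lemma s20_20_8_4_25 {n : ℕ} (hn : 5 ≤ n) : NoNd (d20_20_8_4.R : ℤ) d20_20_8_4.H n d20_20_8_4.a d20_20_8_4.b
    (BlkD.inB (BlkD.upd (fun _ => 0) 0 9)
      (fun _ => 20)) :=
  BlkD.tree_sound (BlkD.pairOk_sound k20_20_8_4) (by decide) hn t20_20_8_4_25 _ _ (by decide +kernel)

lemma pr20_20_8_4 {n : ℕ} (hn : 5 ≤ n) : NoPr ((20 : ℕ) : ℤ) ((20 : ℕ) : ℤ) n 8 4 :=
  BlkD.of_root (R := d20_20_8_4.R) (H := d20_20_8_4.H) (a := d20_20_8_4.a) (b := d20_20_8_4.b) (q := 3) (by decide) hn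
    (BlkD.sp 0 8 (BlkD.sp 2 4 (BlkD.sp 0 4 (BlkD.sp 0 2 (BlkD.sp 0 1 (BlkD.sp 0 0 (s20_20_8_4_1 hn)
      (BlkD.sp 1 10 (BlkD.sp 1 5 (s20_20_8_4_2 hn) (s20_20_8_4_3 hn)) (s20_20_8_4_4 hn))) (BlkD.sp
      1 10 (BlkD.sp 1 5 (s20_20_8_4_5 hn) (BlkD.sp 1 8 (s20_20_8_4_6 hn) (s20_20_8_4_7 hn)))
      (s20_20_8_4_8 hn))) (BlkD.sp 0 3 (BlkD.sp 1 17 (BlkD.sp 1 8 (BlkD.sp 1 4 (s20_20_8_4_9 hn)
      (s20_20_8_4_10 hn)) (s20_20_8_4_11 hn)) (s20_20_8_4_12 hn)) (BlkD.sp 1 16 (BlkD.sp 1 8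
      (BlkD.sp 1 4 (s20_20_8_4_13 hn) (s20_20_8_4_14 hn)) (s20_20_8_4_15 hn)) (s20_20_8_4_16 hn))))
      (BlkD.sp 0 6 (BlkD.sp 0 5 (BlkD.sp 1 15 (BlkD.sp 1 7 (BlkD.sp 1 3 (s20_20_8_4_17 hn) (BlkD.sp
      1 5 (s20_20_8_4_18 hn) (s20_20_8_4_19 hn))) (s20_20_8_4_20 hn)) (s20_20_8_4_21 hn))
      (s20_20_8_4_22 hn)) (s20_20_8_4_23 hn))) (s20_20_8_4_24 hn)) (s20_20_8_4_25 hn))

/-- the numbers of the pair `(8, 5)`, `R = 20`, `H = 20` -/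
def d20_20_8_5 : BlkD.Pd :=
  ⟨20, 20, 3, 8, 5, 4, 1, 3, 0, 4, 8, 0, 2, 2, 6, 0, [0, 8, 16, 16, 16], [0, 6, 12, 14, 16], [⟨1,
    1, 1, 4, 8, [0, 4], [0, 4]⟩, ⟨1, 1, 1, 4, 14, [0, 8], [0, 6]⟩]⟩

lemma k20_20_8_5 : BlkD.pairOk d20_20_8_5 = true := by decide +kernel

/-- certificates of the pair `(8, 5)`, part 1 -/
def t20_20_8_5_1 : BlkD.Tr :=
  .S 0 0 (.L 7 9 [5, 3, 20, 20, 20, 20] [] [] 100000 1 1 1500000 66667 33333 100000 50000 0 0 0)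
    (.L 7 9 [5, 3, 20, 20, 20, 20] [] [] 100000 1 1 1500000 66667 33333 100000 50000 0 0 0)

lemma s20_20_8_5_1 {n : ℕ} (hn : 5 ≤ n) : NoNd (d20_20_8_5.R : ℤ) d20_20_8_5.H n d20_20_8_5.a d20_20_8_5.b
    (BlkD.inB (fun _ => 0)
      (BlkD.upd (BlkD.upd (BlkD.upd (BlkD.upd (BlkD.upd (fun _ => 20) 0 8) 2 5) 0 4) 0 2) 0 1)) :=
  BlkD.tree_sound (BlkD.pairOk_sound k20_20_8_5) (by decide) hn t20_20_8_5_1 _ _ (by decide +kernel)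

/-- certificates of the pair `(8, 5)`, part 2 -/
def t20_20_8_5_2 : BlkD.Tr :=
  .S 1 10 (.S 1 5 (.L 7 9 [5, 3, 20, 20, 20, 20] [] [] 100000 1 1 1500000 66667 33333 100000 50000
    0 0 0) (.L 7 9 [5, 3, 20, 20, 20, 20] [] [] 100000 1 1 1500000 66667 33333 100000 50000 0 0 0))
    (.L 7 9 [5, 3, 20, 20, 20, 20] [] [] 100000 1 1 1500000 66667 33333 100000 50000 0 0 0)

lemma s20_20_8_5_2 {n : ℕ} (hn : 5 ≤ n) : NoNd (d20_20_8_5.R : ℤ) d20_20_8_5.H n d20_20_8_5.a d20_20_8_5.b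
    (BlkD.inB (BlkD.upd (fun _ => 0) 0 2)
      (BlkD.upd (BlkD.upd (BlkD.upd (BlkD.upd (fun _ => 20) 0 8) 2 5) 0 4) 0 2)) :=
  BlkD.tree_sound (BlkD.pairOk_sound k20_20_8_5) (by decide) hn t20_20_8_5_2 _ _ (by decide +kernel)

/-- certificates of the pair `(8, 5)`, part 3 -/
def t20_20_8_5_3 : BlkD.Tr :=
  .L 7 9 [5, 3, 20, 20, 20, 20] [] [] 100000 1 1 1500000 66667 33333 100000 50000 0 0 0

lemma s20_20_8_5_3 {n : ℕ} (hn : 5 ≤ n) : NoNd (d20_20_8_5.R : ℤ) d20_20_8_5.H n d20_20_8_5.a d20_20_8_5.b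
    (BlkD.inB (BlkD.upd (fun _ => 0) 0 3)
      (BlkD.upd (BlkD.upd (BlkD.upd (BlkD.upd (BlkD.upd (BlkD.upd (fun _ => 20) 0 8) 2 5) 0 4) 0 3) 1 10) 1 5)) :=
  BlkD.tree_sound (BlkD.pairOk_sound k20_20_8_5) (by decide) hn t20_20_8_5_3 _ _ (by decide +kernel)

/-- certificates of the pair `(8, 5)`, part 4 -/
def t20_20_8_5_4 : BlkD.Tr :=
  .L 7 9 [5, 3, 20, 20, 20, 20] [] [] 100000 1 1 1500000 66667 33333 100000 50000 0 0 0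

lemma s20_20_8_5_4 {n : ℕ} (hn : 5 ≤ n) : NoNd (d20_20_8_5.R : ℤ) d20_20_8_5.H n d20_20_8_5.a d20_20_8_5.b
    (BlkD.inB (BlkD.upd (BlkD.upd (fun _ => 0) 0 3) 1 6)
      (BlkD.upd (BlkD.upd (BlkD.upd (BlkD.upd (BlkD.upd (BlkD.upd (fun _ => 20) 0 8) 2 5) 0 4) 0 3) 1 10) 1 8)) :=
  BlkD.tree_sound (BlkD.pairOk_sound k20_20_8_5) (by decide) hn t20_20_8_5_4 _ _ (by decide +kernel)

/-- certificates of the pair `(8, 5)`, part 5 -/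
def t20_20_8_5_5 : BlkD.Tr :=
  .L 7 9 [5, 3, 20, 20, 20, 20] [] [] 100000 1 1 1500000 66667 33333 100000 50000 0 0 0

lemma s20_20_8_5_5 {n : ℕ} (hn : 5 ≤ n) : NoNd (d20_20_8_5.R : ℤ) d20_20_8_5.H n d20_20_8_5.a d20_20_8_5.b
    (BlkD.inB (BlkD.upd (BlkD.upd (BlkD.upd (fun _ => 0) 0 3) 1 6) 1 9)
      (BlkD.upd (BlkD.upd (BlkD.upd (BlkD.upd (BlkD.upd (fun _ => 20) 0 8) 2 5) 0 4) 0 3) 1 10)) :=
  BlkD.tree_sound (BlkD.pairOk_sound k20_20_8_5) (by decide) hn t20_20_8_5_5 _ _ (by decide +kernel)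

/-- certificates of the pair `(8, 5)`, part 6 -/
def t20_20_8_5_6 : BlkD.Tr :=
  .L 7 9 [5, 3, 20, 20, 20, 20] [] [] 100000 1 1 1500000 66667 33333 100000 50000 0 0 0

lemma s20_20_8_5_6 {n : ℕ} (hn : 5 ≤ n) : NoNd (d20_20_8_5.R : ℤ) d20_20_8_5.H n d20_20_8_5.a d20_20_8_5.b
    (BlkD.inB (BlkD.upd (BlkD.upd (fun _ => 0) 0 3) 1 11)
      (BlkD.upd (BlkD.upd (BlkD.upd (BlkD.upd (fun _ => 20) 0 8) 2 5) 0 4) 0 3)) :=
  BlkD.tree_sound (BlkD.pairOk_sound k20_20_8_5) (by decide) hn t20_20_8_5_6 _ _ (by decide +kernel)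

/-- certificates of the pair `(8, 5)`, part 7 -/
def t20_20_8_5_7 : BlkD.Tr :=
  .L 7 9 [5, 3, 20, 20, 20, 20] [] [] 100000 1 1 1500000 66667 33333 100000 50000 0 0 0

lemma s20_20_8_5_7 {n : ℕ} (hn : 5 ≤ n) : NoNd (d20_20_8_5.R : ℤ) d20_20_8_5.H n d20_20_8_5.a d20_20_8_5.b
    (BlkD.inB (BlkD.upd (BlkD.upd (fun _ => 0) 0 3) 0 4)
      (BlkD.upd (BlkD.upd (BlkD.upd (BlkD.upd (BlkD.upd (fun _ => 20) 0 8) 2 5) 0 4) 1 10) 1 5)) :=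
  BlkD.tree_sound (BlkD.pairOk_sound k20_20_8_5) (by decide) hn t20_20_8_5_7 _ _ (by decide +kernel)

/-- certificates of the pair `(8, 5)`, part 8 -/
def t20_20_8_5_8 : BlkD.Tr :=
  .S 1 7 (.L 7 9 [5, 3, 20, 20, 20, 20] [] [] 100000 1 1 1500000 66667 33333 100000 50000 0 0 0)
    (.L 7 9 [5, 3, 20, 20, 20, 20] [178, 178, 178, 178, 170, 162] [] 100000 1 1 1500000 66667 33333
    100000 50000 0 0 0)

lemma s20_20_8_5_8 {n : ℕ} (hn : 5 ≤ n) : NoNd (d20_20_8_5.R : ℤ) d20_20_8_5.H n d20_20_8_5.a d20_20_8_5.b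
    (BlkD.inB (BlkD.upd (BlkD.upd (BlkD.upd (fun _ => 0) 0 3) 0 4) 1 6)
      (BlkD.upd (BlkD.upd (BlkD.upd (BlkD.upd (BlkD.upd (fun _ => 20) 0 8) 2 5) 0 4) 1 10) 1 8)) :=
  BlkD.tree_sound (BlkD.pairOk_sound k20_20_8_5) (by decide) hn t20_20_8_5_8 _ _ (by decide +kernel)

/-- certificates of the pair `(8, 5)`, part 9 -/
def t20_20_8_5_9 : BlkD.Tr :=
  .L 7 9 [5, 3, 20, 20, 20, 20] [] [] 100000 1 1 1500000 66667 33333 100000 50000 0 0 0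

lemma s20_20_8_5_9 {n : ℕ} (hn : 5 ≤ n) : NoNd (d20_20_8_5.R : ℤ) d20_20_8_5.H n d20_20_8_5.a d20_20_8_5.b
    (BlkD.inB (BlkD.upd (BlkD.upd (BlkD.upd (BlkD.upd (fun _ => 0) 0 3) 0 4) 1 6) 1 9)
      (BlkD.upd (BlkD.upd (BlkD.upd (BlkD.upd (fun _ => 20) 0 8) 2 5) 0 4) 1 10)) :=
  BlkD.tree_sound (BlkD.pairOk_sound k20_20_8_5) (by decide) hn t20_20_8_5_9 _ _ (by decide +kernel)

/-- certificates of the pair `(8, 5)`, part 10 -/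
def t20_20_8_5_10 : BlkD.Tr :=
  .L 7 9 [5, 3, 20, 20, 20, 20] [] [] 100000 1 1 1500000 66667 33333 100000 50000 0 0 0

lemma s20_20_8_5_10 {n : ℕ} (hn : 5 ≤ n) : NoNd (d20_20_8_5.R : ℤ) d20_20_8_5.H n d20_20_8_5.a d20_20_8_5.b
    (BlkD.inB (BlkD.upd (BlkD.upd (BlkD.upd (fun _ => 0) 0 3) 0 4) 1 11)
      (BlkD.upd (BlkD.upd (BlkD.upd (fun _ => 20) 0 8) 2 5) 0 4)) :=
  BlkD.tree_sound (BlkD.pairOk_sound k20_20_8_5) (by decide) hn t20_20_8_5_10 _ _ (by decide +kernel)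

/-- certificates of the pair `(8, 5)`, part 11 -/
def t20_20_8_5_11 : BlkD.Tr :=
  .L 7 9 [5, 3, 20, 20, 20, 20] [] [] 100000 0 0 1500000 50000 25000 50000 50000 0 0 0

lemma s20_20_8_5_11 {n : ℕ} (hn : 5 ≤ n) : NoNd (d20_20_8_5.R : ℤ) d20_20_8_5.H n d20_20_8_5.a d20_20_8_5.b
    (BlkD.inB (BlkD.upd (fun _ => 0) 0 5)
      (BlkD.upd (BlkD.upd (BlkD.upd (BlkD.upd (BlkD.upd (BlkD.upd (BlkD.upd (fun _ => 20) 0 8) 2 5) 0 6) 0 5) 1 15) 1 7) 1 3)) :=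
  BlkD.tree_sound (BlkD.pairOk_sound k20_20_8_5) (by decide) hn t20_20_8_5_11 _ _ (by decide +kernel)

/-- certificates of the pair `(8, 5)`, part 12 -/
def t20_20_8_5_12 : BlkD.Tr :=
  .S 1 5 (.S 1 4 (.L 7 9 [5, 3, 20, 20, 20, 20] [102, 94, 78, 66, 52, 0] [] 100000 1 1 1533334
    66667 33333 66667 66667 0 0 0) (.S 2 2 (.L 7 9 [5, 3, 20, 20, 20, 20] [128, 120, 112, 96, 84,
    70] [] 100000 0 0 1500000 50000 50000 50000 75000 0 0 0) (.L 5 5 [4, 4, 20, 20, 20, 20] [128,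
    120, 112, 96, 84, 70] [] 100000 0 0 1555000 35000 5000 95000 65000 0 0 0))) (.S 1 6 (.S 2 2 (.L
    5 5 [4, 4, 20, 20, 20, 20] [148, 148, 140, 132, 116, 104] [] 100000 80000 80000 1480000 40000
    40000 80000 70000 0 0 0) (.S 2 4 (.S 2 3 (.S 3 6 (.S 3 3 (.L 5 5 [4, 4, 20, 20, 20, 20] [148,
    148, 140, 132, 116, 104] [] 100000 0 0 1575000 25000 25000 50000 25000 0 0 0) (.S 3 5 (.S 3 4
    (.L 4 4 [4, 5, 20, 20, 20, 20] [148, 148, 140, 132, 116, 104] [84, 78, 62, 50, 36, 0] 100000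
    50000 50000 1500000 50000 0 100000 50000 0 0 0) (.L 4 4 [4, 5, 20, 20, 20, 20] [148, 148, 140,
    132, 116, 104] [104, 98, 92, 76, 64, 50] 100000 375000 0 0 190000 0 475000 475000 0 0 0)) (.L 4
    4 [4, 5, 20, 20, 20, 20] [148, 148, 140, 132, 116, 104] [122, 120, 114, 108, 92, 80] 100000 0
    100000 0 0 0 0 0 0 0 0))) (.E 1)) (.L 4 4 [4, 5, 20, 20, 20, 20] [148, 148, 140, 132, 116, 104]
    [] 100000 50000 50000 1500000 50000 0 100000 50000 0 0 0)) (.L 4 4 [4, 5, 20, 20, 20, 20] [148,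
    148, 140, 132, 116, 104] [] 100000 0 0 1566669 33333 0 66667 33333 0 0 0))) (.S 2 2 (.L 4 4 [4,
    5, 20, 20, 20, 20] [170, 170, 170, 162, 154, 138] [] 100000 100000 100000 1450000 50000 25000
    100000 75000 0 0 0) (.L 4 4 [4, 5, 20, 20, 20, 20] [170, 170, 170, 162, 154, 138] [] 100000 0 0
    1580000 40000 0 100000 40000 0 0 0)))

lemma s20_20_8_5_12 {n : ℕ} (hn : 5 ≤ n) : NoNd (d20_20_8_5.R : ℤ) d20_20_8_5.H n d20_20_8_5.a d20_20_8_5.b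
    (BlkD.inB (BlkD.upd (BlkD.upd (fun _ => 0) 0 5) 1 4)
      (BlkD.upd (BlkD.upd (BlkD.upd (BlkD.upd (BlkD.upd (BlkD.upd (fun _ => 20) 0 8) 2 5) 0 6) 0 5) 1 15) 1 7)) :=
  BlkD.tree_sound (BlkD.pairOk_sound k20_20_8_5) (by decide) hn t20_20_8_5_12 _ _ (by decide +kernel)

/-- certificates of the pair `(8, 5)`, part 13 -/
def t20_20_8_5_13 : BlkD.Tr :=
  .S 1 11 (.S 1 9 (.S 1 8 (.L 5 5 [4, 4, 20, 20, 20, 20] [194, 194, 194, 194, 186, 178] [] 100000 0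
    0 1550000 50000 0 100000 25000 0 0 0) (.L 5 5 [4, 4, 20, 20, 20, 20] [220, 220, 220, 220, 220,
    212] [] 100000 0 0 1500000 50000 0 100000 50000 0 0 0)) (.L 5 5 [4, 4, 20, 20, 20, 20] [] []
    100000 216665 216665 1300002 83333 0 100000 41667 0 0 0)) (.E 0)

lemma s20_20_8_5_13 {n : ℕ} (hn : 5 ≤ n) : NoNd (d20_20_8_5.R : ℤ) d20_20_8_5.H n d20_20_8_5.a d20_20_8_5.b
    (BlkD.inB (BlkD.upd (BlkD.upd (fun _ => 0) 0 5) 1 8)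
      (BlkD.upd (BlkD.upd (BlkD.upd (BlkD.upd (BlkD.upd (fun _ => 20) 0 8) 2 5) 0 6) 0 5) 1 15)) :=
  BlkD.tree_sound (BlkD.pairOk_sound k20_20_8_5) (by decide) hn t20_20_8_5_13 _ _ (by decide +kernel)

/-- certificates of the pair `(8, 5)`, part 14 -/
def t20_20_8_5_14 : BlkD.Tr :=
  .E 0

lemma s20_20_8_5_14 {n : ℕ} (hn : 5 ≤ n) : NoNd (d20_20_8_5.R : ℤ) d20_20_8_5.H n d20_20_8_5.a d20_20_8_5.b
    (BlkD.inB (BlkD.upd (BlkD.upd (fun _ => 0) 0 5) 1 16)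
      (BlkD.upd (BlkD.upd (BlkD.upd (BlkD.upd (fun _ => 20) 0 8) 2 5) 0 6) 0 5)) :=
  BlkD.tree_sound (BlkD.pairOk_sound k20_20_8_5) (by decide) hn t20_20_8_5_14 _ _ (by decide +kernel)

/-- certificates of the pair `(8, 5)`, part 15 -/
def t20_20_8_5_15 : BlkD.Tr :=
  .S 1 14 (.S 1 7 (.S 1 3 (.L 5 5 [4, 4, 20, 20, 20, 20] [] [] 100000 1 1 1542857 42857 14286 57143
    42857 0 0 0) (.S 1 5 (.S 1 4 (.S 2 2 (.L 5 5 [4, 4, 20, 20, 20, 20] [110, 102, 86, 74, 60, 0]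
    [] 100000 0 0 1514288 28571 42857 57143 71429 0 0 0) (.L 5 5 [4, 4, 20, 20, 20, 20] [110, 102,
    86, 74, 60, 0] [] 100000 0 0 1568422 36842 10526 68421 63158 0 0 0)) (.S 2 2 (.L 5 5 [4, 4, 20,
    20, 20, 20] [138, 130, 122, 106, 94, 80] [] 100000 6666 6666 1540001 20000 53333 60000 80000 0
    0 0) (.S 2 4 (.S 2 3 (.L 5 5 [4, 4, 20, 20, 20, 20] [138, 130, 122, 106, 94, 80] [] 100000 0 0
    1592309 30769 15385 65385 53846 0 0 0) (.L 5 5 [4, 4, 20, 20, 20, 20] [138, 130, 122, 106, 94,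
    80] [] 100000 0 0 1558824 35294 5882 67647 64706 0 0 0)) (.L 5 5 [4, 4, 20, 20, 20, 20] [138,
    130, 122, 106, 94, 80] [] 100000 0 0 1560000 40000 0 60000 0 0 0 0)))) (.S 1 6 (.L 5 5 [4, 4,
    20, 20, 20, 20] [160, 160, 152, 144, 128, 116] [] 100000 0 0 1590000 30000 10000 100000 40000 0
    0 0) (.L 5 5 [4, 4, 20, 20, 20, 20] [184, 184, 184, 176, 168, 152] [] 100000 0 0 1547620 38095
    9524 100000 45238 0 0 0)))) (.L 5 5 [4, 4, 20, 20, 20, 20] [] [] 100000 0 0 1566668 33333 0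
    100000 25000 0 0 0)) (.E 0)

lemma s20_20_8_5_15 {n : ℕ} (hn : 5 ≤ n) : NoNd (d20_20_8_5.R : ℤ) d20_20_8_5.H n d20_20_8_5.a d20_20_8_5.b
    (BlkD.inB (BlkD.upd (BlkD.upd (fun _ => 0) 0 5) 0 6)
      (BlkD.upd (BlkD.upd (BlkD.upd (fun _ => 20) 0 8) 2 5) 0 6)) :=
  BlkD.tree_sound (BlkD.pairOk_sound k20_20_8_5) (by decide) hn t20_20_8_5_15 _ _ (by decide +kernel)

/-- certificates of the pair `(8, 5)`, part 16 -/
def t20_20_8_5_16 : BlkD.Tr :=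
  .S 0 7 (.S 1 13 (.S 1 6 (.S 1 3 (.L 5 5 [4, 4, 20, 20, 20, 20] [] [] 100000 0 0 1550000 25000
    25000 100000 75000 0 0 0) (.S 1 5 (.S 1 4 (.L 5 5 [4, 4, 20, 20, 20, 20] [118, 110, 94, 82, 68,
    0] [] 100000 1 1 1582353 35294 11765 64706 47059 0 0 0) (.L 5 5 [4, 4, 20, 20, 20, 20] [148,
    140, 132, 116, 104, 90] [] 100000 1 1 1529412 35294 11765 100000 64706 0 0 0)) (.L 5 5 [4, 4,
    20, 20, 20, 20] [172, 172, 164, 156, 140, 128] [] 100000 0 0 1500000 50000 0 100000 50000 0 0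
    0))) (.E 0)) (.E 0)) (.L 5 5 [4, 4, 20, 20, 20, 20] [] [] 100000 0 0 1560000 0 40000 50000
    40000 0 0 0)

lemma s20_20_8_5_16 {n : ℕ} (hn : 5 ≤ n) : NoNd (d20_20_8_5.R : ℤ) d20_20_8_5.H n d20_20_8_5.a d20_20_8_5.b
    (BlkD.inB (BlkD.upd (BlkD.upd (fun _ => 0) 0 5) 0 7)
      (BlkD.upd (BlkD.upd (fun _ => 20) 0 8) 2 5)) :=
  BlkD.tree_sound (BlkD.pairOk_sound k20_20_8_5) (by decide) hn t20_20_8_5_16 _ _ (by decide +kernel)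

/-- certificates of the pair `(8, 5)`, part 17 -/
def t20_20_8_5_17 : BlkD.Tr :=
  .E 1

lemma s20_20_8_5_17 {n : ℕ} (hn : 5 ≤ n) : NoNd (d20_20_8_5.R : ℤ) d20_20_8_5.H n d20_20_8_5.a d20_20_8_5.b
    (BlkD.inB (BlkD.upd (fun _ => 0) 2 6)
      (BlkD.upd (fun _ => 20) 0 8)) :=
  BlkD.tree_sound (BlkD.pairOk_sound k20_20_8_5) (by decide) hn t20_20_8_5_17 _ _ (by decide +kernel)

/-- certificates of the pair `(8, 5)`, part 18 -/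
def t20_20_8_5_18 : BlkD.Tr :=
  .E 0

lemma s20_20_8_5_18 {n : ℕ} (hn : 5 ≤ n) : NoNd (d20_20_8_5.R : ℤ) d20_20_8_5.H n d20_20_8_5.a d20_20_8_5.b
    (BlkD.inB (BlkD.upd (fun _ => 0) 0 9)
      (fun _ => 20)) :=
  BlkD.tree_sound (BlkD.pairOk_sound k20_20_8_5) (by decide) hn t20_20_8_5_18 _ _ (by decide +kernel)

lemma pr20_20_8_5 {n : ℕ} (hn : 5 ≤ n) : NoPr ((20 : ℕ) : ℤ) ((20 : ℕ) : ℤ) n 8 5 :=
  BlkD.of_root (R := d20_20_8_5.R) (H := d20_20_8_5.H) (a := d20_20_8_5.a) (b := d20_20_8_5.b) (q := 3) (by decide) hn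
    (BlkD.sp 0 8 (BlkD.sp 2 5 (BlkD.sp 0 4 (BlkD.sp 0 2 (BlkD.sp 0 1 (s20_20_8_5_1 hn)
      (s20_20_8_5_2 hn)) (BlkD.sp 0 3 (BlkD.sp 1 10 (BlkD.sp 1 5 (s20_20_8_5_3 hn) (BlkD.sp 1 8
      (s20_20_8_5_4 hn) (s20_20_8_5_5 hn))) (s20_20_8_5_6 hn)) (BlkD.sp 1 10 (BlkD.sp 1 5
      (s20_20_8_5_7 hn) (BlkD.sp 1 8 (s20_20_8_5_8 hn) (s20_20_8_5_9 hn))) (s20_20_8_5_10 hn))))
      (BlkD.sp 0 6 (BlkD.sp 0 5 (BlkD.sp 1 15 (BlkD.sp 1 7 (BlkD.sp 1 3 (s20_20_8_5_11 hn)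
      (s20_20_8_5_12 hn)) (s20_20_8_5_13 hn)) (s20_20_8_5_14 hn)) (s20_20_8_5_15 hn))
      (s20_20_8_5_16 hn))) (s20_20_8_5_17 hn)) (s20_20_8_5_18 hn))

end BlkC

end Pool.Agent.Lib.MP_f04ccf_co
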