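import Pool.Agent.Lib.MP_f04ccf_co.M.BlkT

/-!
MP_f04ccf_co, block certificate, data `R = 20`, `H = 20`, part 12 (generated, helper99:
bd10.cpp, gen2.py).
-/

set_option autoImplicit false
set_option maxRecDepth 100000

namespace Pool.Agent.Lib.MP_f04ccf_co

namespace BlkC

/-- the numbers of the pair `(8, 6)`, `R = 20`, `H = 20` -/
def d20_20_8_6 : BlkD.Pd :=
  ⟨20, 20, 3, 8, 6, 3, 0, 4, 0, 4, 4, 0, 0, 4, 4, 0, [0, 4, 8, 12], [0, 4, 8, 12], [⟨1, 1, 1, 4, 8,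
    [0, 4], [0, 4]⟩]⟩

lemma k20_20_8_6 : BlkD.pairOk d20_20_8_6 = true := by decide +kernel

/-- certificates of the pair `(8, 6)`, part 1 -/
def t20_20_8_6_1 : BlkD.Tr :=
  .S 0 0 (.L 4 4 [4, 20, 20, 20, 20, 20, 20] [] [] 100000 0 0 1600000 100000 50000 100000 100000 0
    0 0) (.L 4 4 [4, 20, 20, 20, 20, 20, 20] [] [] 100000 0 0 1600000 100000 50000 100000 100000 0
    0 0)

lemma s20_20_8_6_1 {n : ℕ} (hn : 5 ≤ n) : NoNd (d20_20_8_6.R : ℤ) d20_20_8_6.H n d20_20_8_6.a d20_20_8_6.b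
    (BlkD.inB (fun _ => 0)
      (BlkD.upd (BlkD.upd (BlkD.upd (BlkD.upd (BlkD.upd (fun _ => 20) 0 8) 2 6) 0 4) 0 2) 0 1)) :=
  BlkD.tree_sound (BlkD.pairOk_sound k20_20_8_6) (by decide) hn t20_20_8_6_1 _ _ (by decide +kernel)

/-- certificates of the pair `(8, 6)`, part 2 -/
def t20_20_8_6_2 : BlkD.Tr :=
  .S 1 10 (.S 1 5 (.L 4 4 [4, 20, 20, 20, 20, 20, 20] [] [] 100000 0 0 1600000 100000 50000 100000
    100000 0 0 0) (.L 4 4 [4, 20, 20, 20, 20, 20, 20] [] [] 100000 0 0 1600000 100000 50000 100000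
    100000 0 0 0)) (.L 4 4 [4, 20, 20, 20, 20, 20, 20] [] [] 100000 0 0 1600000 100000 50000 100000
    100000 0 0 0)

lemma s20_20_8_6_2 {n : ℕ} (hn : 5 ≤ n) : NoNd (d20_20_8_6.R : ℤ) d20_20_8_6.H n d20_20_8_6.a d20_20_8_6.b
    (BlkD.inB (BlkD.upd (fun _ => 0) 0 2)
      (BlkD.upd (BlkD.upd (BlkD.upd (BlkD.upd (fun _ => 20) 0 8) 2 6) 0 4) 0 2)) :=
  BlkD.tree_sound (BlkD.pairOk_sound k20_20_8_6) (by decide) hn t20_20_8_6_2 _ _ (by decide +kernel)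

/-- certificates of the pair `(8, 6)`, part 3 -/
def t20_20_8_6_3 : BlkD.Tr :=
  .L 4 4 [4, 20, 20, 20, 20, 20, 20] [] [] 100000 0 0 1600000 100000 50000 100000 100000 0 0 0

lemma s20_20_8_6_3 {n : ℕ} (hn : 5 ≤ n) : NoNd (d20_20_8_6.R : ℤ) d20_20_8_6.H n d20_20_8_6.a d20_20_8_6.b
    (BlkD.inB (BlkD.upd (fun _ => 0) 0 3)
      (BlkD.upd (BlkD.upd (BlkD.upd (BlkD.upd (BlkD.upd (BlkD.upd (fun _ => 20) 0 8) 2 6) 0 4) 0 3) 1 10) 1 5)) :=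
  BlkD.tree_sound (BlkD.pairOk_sound k20_20_8_6) (by decide) hn t20_20_8_6_3 _ _ (by decide +kernel)

/-- certificates of the pair `(8, 6)`, part 4 -/
def t20_20_8_6_4 : BlkD.Tr :=
  .S 1 7 (.L 4 4 [4, 20, 20, 20, 20, 20, 20] [] [] 100000 0 0 1600000 100000 50000 100000 100000 0
    0 0) (.L 4 4 [4, 20, 20, 20, 20, 20, 20] [176, 176, 172, 168, 164, 152] [] 100000 0 0 1600000
    100000 50000 100000 100000 0 0 0)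

lemma s20_20_8_6_4 {n : ℕ} (hn : 5 ≤ n) : NoNd (d20_20_8_6.R : ℤ) d20_20_8_6.H n d20_20_8_6.a d20_20_8_6.b
    (BlkD.inB (BlkD.upd (BlkD.upd (fun _ => 0) 0 3) 1 6)
      (BlkD.upd (BlkD.upd (BlkD.upd (BlkD.upd (BlkD.upd (BlkD.upd (fun _ => 20) 0 8) 2 6) 0 4) 0 3) 1 10) 1 8)) :=
  BlkD.tree_sound (BlkD.pairOk_sound k20_20_8_6) (by decide) hn t20_20_8_6_4 _ _ (by decide +kernel)

/-- certificates of the pair `(8, 6)`, part 5 -/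
def t20_20_8_6_5 : BlkD.Tr :=
  .L 4 4 [4, 20, 20, 20, 20, 20, 20] [] [] 100000 0 0 1600000 100000 50000 100000 100000 0 0 0

lemma s20_20_8_6_5 {n : ℕ} (hn : 5 ≤ n) : NoNd (d20_20_8_6.R : ℤ) d20_20_8_6.H n d20_20_8_6.a d20_20_8_6.b
    (BlkD.inB (BlkD.upd (BlkD.upd (BlkD.upd (fun _ => 0) 0 3) 1 6) 1 9)
      (BlkD.upd (BlkD.upd (BlkD.upd (BlkD.upd (BlkD.upd (fun _ => 20) 0 8) 2 6) 0 4) 0 3) 1 10)) :=
  BlkD.tree_sound (BlkD.pairOk_sound k20_20_8_6) (by decide) hn t20_20_8_6_5 _ _ (by decide +kernel)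

/-- certificates of the pair `(8, 6)`, part 6 -/
def t20_20_8_6_6 : BlkD.Tr :=
  .L 4 4 [4, 20, 20, 20, 20, 20, 20] [] [] 100000 0 0 1600000 100000 50000 100000 100000 0 0 0

lemma s20_20_8_6_6 {n : ℕ} (hn : 5 ≤ n) : NoNd (d20_20_8_6.R : ℤ) d20_20_8_6.H n d20_20_8_6.a d20_20_8_6.b
    (BlkD.inB (BlkD.upd (BlkD.upd (fun _ => 0) 0 3) 1 11)
      (BlkD.upd (BlkD.upd (BlkD.upd (BlkD.upd (fun _ => 20) 0 8) 2 6) 0 4) 0 3)) :=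
  BlkD.tree_sound (BlkD.pairOk_sound k20_20_8_6) (by decide) hn t20_20_8_6_6 _ _ (by decide +kernel)

/-- certificates of the pair `(8, 6)`, part 7 -/
def t20_20_8_6_7 : BlkD.Tr :=
  .L 4 4 [4, 20, 20, 20, 20, 20, 20] [] [] 100000 0 0 1600000 100000 50000 100000 100000 0 0 0

lemma s20_20_8_6_7 {n : ℕ} (hn : 5 ≤ n) : NoNd (d20_20_8_6.R : ℤ) d20_20_8_6.H n d20_20_8_6.a d20_20_8_6.b
    (BlkD.inB (BlkD.upd (BlkD.upd (fun _ => 0) 0 3) 0 4)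
      (BlkD.upd (BlkD.upd (BlkD.upd (BlkD.upd (BlkD.upd (fun _ => 20) 0 8) 2 6) 0 4) 1 10) 1 5)) :=
  BlkD.tree_sound (BlkD.pairOk_sound k20_20_8_6) (by decide) hn t20_20_8_6_7 _ _ (by decide +kernel)

/-- certificates of the pair `(8, 6)`, part 8 -/
def t20_20_8_6_8 : BlkD.Tr :=
  .S 1 6 (.L 4 4 [4, 20, 20, 20, 20, 20, 20] [146, 142, 138, 126, 108, 94] [] 100000 0 0 1600000
    100000 50000 100000 100000 0 0 0) (.L 4 4 [4, 20, 20, 20, 20, 20, 20] [170, 166, 162, 158, 146,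
    128] [] 100000 0 0 1600000 100000 50000 100000 100000 0 0 0)

lemma s20_20_8_6_8 {n : ℕ} (hn : 5 ≤ n) : NoNd (d20_20_8_6.R : ℤ) d20_20_8_6.H n d20_20_8_6.a d20_20_8_6.b
    (BlkD.inB (BlkD.upd (BlkD.upd (BlkD.upd (fun _ => 0) 0 3) 0 4) 1 6)
      (BlkD.upd (BlkD.upd (BlkD.upd (BlkD.upd (BlkD.upd (BlkD.upd (fun _ => 20) 0 8) 2 6) 0 4) 1 10) 1 8) 1 7)) :=
  BlkD.tree_sound (BlkD.pairOk_sound k20_20_8_6) (by decide) hn t20_20_8_6_8 _ _ (by decide +kernel)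

/-- certificates of the pair `(8, 6)`, part 9 -/
def t20_20_8_6_9 : BlkD.Tr :=
  .L 4 4 [4, 20, 20, 20, 20, 20, 20] [192, 192, 188, 184, 180, 168] [] 100000 0 0 1600000 100000
    50000 100000 100000 0 0 0

lemma s20_20_8_6_9 {n : ℕ} (hn : 5 ≤ n) : NoNd (d20_20_8_6.R : ℤ) d20_20_8_6.H n d20_20_8_6.a d20_20_8_6.b
    (BlkD.inB (BlkD.upd (BlkD.upd (BlkD.upd (BlkD.upd (fun _ => 0) 0 3) 0 4) 1 6) 1 8)
      (BlkD.upd (BlkD.upd (BlkD.upd (BlkD.upd (BlkD.upd (fun _ => 20) 0 8) 2 6) 0 4) 1 10) 1 8)) :=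
  BlkD.tree_sound (BlkD.pairOk_sound k20_20_8_6) (by decide) hn t20_20_8_6_9 _ _ (by decide +kernel)

/-- certificates of the pair `(8, 6)`, part 10 -/
def t20_20_8_6_10 : BlkD.Tr :=
  .L 4 4 [4, 20, 20, 20, 20, 20, 20] [] [] 100000 0 0 1600000 100000 50000 100000 100000 0 0 0

lemma s20_20_8_6_10 {n : ℕ} (hn : 5 ≤ n) : NoNd (d20_20_8_6.R : ℤ) d20_20_8_6.H n d20_20_8_6.a d20_20_8_6.b
    (BlkD.inB (BlkD.upd (BlkD.upd (BlkD.upd (BlkD.upd (fun _ => 0) 0 3) 0 4) 1 6) 1 9)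
      (BlkD.upd (BlkD.upd (BlkD.upd (BlkD.upd (fun _ => 20) 0 8) 2 6) 0 4) 1 10)) :=
  BlkD.tree_sound (BlkD.pairOk_sound k20_20_8_6) (by decide) hn t20_20_8_6_10 _ _ (by decide +kernel)

/-- certificates of the pair `(8, 6)`, part 11 -/
def t20_20_8_6_11 : BlkD.Tr :=
  .L 4 4 [4, 20, 20, 20, 20, 20, 20] [] [] 100000 0 0 1600000 100000 50000 100000 100000 0 0 0

lemma s20_20_8_6_11 {n : ℕ} (hn : 5 ≤ n) : NoNd (d20_20_8_6.R : ℤ) d20_20_8_6.H n d20_20_8_6.a d20_20_8_6.b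
    (BlkD.inB (BlkD.upd (BlkD.upd (BlkD.upd (fun _ => 0) 0 3) 0 4) 1 11)
      (BlkD.upd (BlkD.upd (BlkD.upd (fun _ => 20) 0 8) 2 6) 0 4)) :=
  BlkD.tree_sound (BlkD.pairOk_sound k20_20_8_6) (by decide) hn t20_20_8_6_11 _ _ (by decide +kernel)

/-- certificates of the pair `(8, 6)`, part 12 -/
def t20_20_8_6_12 : BlkD.Tr :=
  .L 4 4 [4, 20, 20, 20, 20, 20, 20] [] [] 100000 0 0 1600000 100000 50000 100000 100000 0 0 0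

lemma s20_20_8_6_12 {n : ℕ} (hn : 5 ≤ n) : NoNd (d20_20_8_6.R : ℤ) d20_20_8_6.H n d20_20_8_6.a d20_20_8_6.b
    (BlkD.inB (BlkD.upd (fun _ => 0) 0 5)
      (BlkD.upd (BlkD.upd (BlkD.upd (BlkD.upd (BlkD.upd (BlkD.upd (fun _ => 20) 0 8) 2 6) 0 6) 0 5) 1 10) 1 5)) :=
  BlkD.tree_sound (BlkD.pairOk_sound k20_20_8_6) (by decide) hn t20_20_8_6_12 _ _ (by decide +kernel)

/-- certificates of the pair `(8, 6)`, part 13 -/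
def t20_20_8_6_13 : BlkD.Tr :=
  .S 1 6 (.L 4 4 [4, 20, 20, 20, 20, 20, 20] [158, 154, 150, 138, 120, 106] [] 100000 0 0 1600000
    100000 50000 100000 100000 0 0 0) (.L 4 4 [4, 20, 20, 20, 20, 20, 20] [184, 180, 176, 172, 160,
    142] [] 100000 0 0 1600000 100000 50000 100000 100000 0 0 0)

lemma s20_20_8_6_13 {n : ℕ} (hn : 5 ≤ n) : NoNd (d20_20_8_6.R : ℤ) d20_20_8_6.H n d20_20_8_6.a d20_20_8_6.b
    (BlkD.inB (BlkD.upd (BlkD.upd (fun _ => 0) 0 5) 1 6)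
      (BlkD.upd (BlkD.upd (BlkD.upd (BlkD.upd (BlkD.upd (BlkD.upd (BlkD.upd (fun _ => 20) 0 8) 2 6) 0 6) 0 5) 1 10) 1 8) 1 7)) :=
  BlkD.tree_sound (BlkD.pairOk_sound k20_20_8_6) (by decide) hn t20_20_8_6_13 _ _ (by decide +kernel)

/-- certificates of the pair `(8, 6)`, part 14 -/
def t20_20_8_6_14 : BlkD.Tr :=
  .L 4 4 [4, 20, 20, 20, 20, 20, 20] [208, 208, 204, 200, 196, 184] [] 100000 0 0 1600000 100000
    50000 100000 100000 0 0 0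

lemma s20_20_8_6_14 {n : ℕ} (hn : 5 ≤ n) : NoNd (d20_20_8_6.R : ℤ) d20_20_8_6.H n d20_20_8_6.a d20_20_8_6.b
    (BlkD.inB (BlkD.upd (BlkD.upd (BlkD.upd (fun _ => 0) 0 5) 1 6) 1 8)
      (BlkD.upd (BlkD.upd (BlkD.upd (BlkD.upd (BlkD.upd (BlkD.upd (fun _ => 20) 0 8) 2 6) 0 6) 0 5) 1 10) 1 8)) :=
  BlkD.tree_sound (BlkD.pairOk_sound k20_20_8_6) (by decide) hn t20_20_8_6_14 _ _ (by decide +kernel)

/-- certificates of the pair `(8, 6)`, part 15 -/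
def t20_20_8_6_15 : BlkD.Tr :=
  .L 4 4 [4, 20, 20, 20, 20, 20, 20] [] [] 100000 0 0 1600000 100000 50000 100000 100000 0 0 0

lemma s20_20_8_6_15 {n : ℕ} (hn : 5 ≤ n) : NoNd (d20_20_8_6.R : ℤ) d20_20_8_6.H n d20_20_8_6.a d20_20_8_6.b
    (BlkD.inB (BlkD.upd (BlkD.upd (BlkD.upd (fun _ => 0) 0 5) 1 6) 1 9)
      (BlkD.upd (BlkD.upd (BlkD.upd (BlkD.upd (BlkD.upd (fun _ => 20) 0 8) 2 6) 0 6) 0 5) 1 10)) :=
  BlkD.tree_sound (BlkD.pairOk_sound k20_20_8_6) (by decide) hn t20_20_8_6_15 _ _ (by decide +kernel)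

/-- certificates of the pair `(8, 6)`, part 16 -/
def t20_20_8_6_16 : BlkD.Tr :=
  .L 4 4 [4, 20, 20, 20, 20, 20, 20] [] [] 100000 0 0 1600000 100000 50000 100000 100000 0 0 0

lemma s20_20_8_6_16 {n : ℕ} (hn : 5 ≤ n) : NoNd (d20_20_8_6.R : ℤ) d20_20_8_6.H n d20_20_8_6.a d20_20_8_6.b
    (BlkD.inB (BlkD.upd (BlkD.upd (fun _ => 0) 0 5) 1 11)
      (BlkD.upd (BlkD.upd (BlkD.upd (BlkD.upd (fun _ => 20) 0 8) 2 6) 0 6) 0 5)) :=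
  BlkD.tree_sound (BlkD.pairOk_sound k20_20_8_6) (by decide) hn t20_20_8_6_16 _ _ (by decide +kernel)

/-- certificates of the pair `(8, 6)`, part 17 -/
def t20_20_8_6_17 : BlkD.Tr :=
  .L 4 4 [4, 20, 20, 20, 20, 20, 20] [] [] 100000 0 0 1600000 100000 50000 100000 100000 0 0 0

lemma s20_20_8_6_17 {n : ℕ} (hn : 5 ≤ n) : NoNd (d20_20_8_6.R : ℤ) d20_20_8_6.H n d20_20_8_6.a d20_20_8_6.b
    (BlkD.inB (BlkD.upd (BlkD.upd (fun _ => 0) 0 5) 0 6)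
      (BlkD.upd (BlkD.upd (BlkD.upd (BlkD.upd (BlkD.upd (fun _ => 20) 0 8) 2 6) 0 6) 1 10) 1 5)) :=
  BlkD.tree_sound (BlkD.pairOk_sound k20_20_8_6) (by decide) hn t20_20_8_6_17 _ _ (by decide +kernel)

/-- certificates of the pair `(8, 6)`, part 18 -/
def t20_20_8_6_18 : BlkD.Tr :=
  .L 4 4 [4, 20, 20, 20, 20, 20, 20] [] [] 100000 0 0 1600000 100000 50000 100000 100000 0 0 0

lemma s20_20_8_6_18 {n : ℕ} (hn : 5 ≤ n) : NoNd (d20_20_8_6.R : ℤ) d20_20_8_6.H n d20_20_8_6.a d20_20_8_6.b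
    (BlkD.inB (BlkD.upd (BlkD.upd (BlkD.upd (fun _ => 0) 0 5) 0 6) 1 6)
      (BlkD.upd (BlkD.upd (BlkD.upd (BlkD.upd (fun _ => 20) 0 8) 2 6) 0 6) 1 10)) :=
  BlkD.tree_sound (BlkD.pairOk_sound k20_20_8_6) (by decide) hn t20_20_8_6_18 _ _ (by decide +kernel)

/-- certificates of the pair `(8, 6)`, part 19 -/
def t20_20_8_6_19 : BlkD.Tr :=
  .L 4 4 [4, 20, 20, 20, 20, 20, 20] [] [] 100000 0 0 1600000 100000 50000 100000 100000 0 0 0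

lemma s20_20_8_6_19 {n : ℕ} (hn : 5 ≤ n) : NoNd (d20_20_8_6.R : ℤ) d20_20_8_6.H n d20_20_8_6.a d20_20_8_6.b
    (BlkD.inB (BlkD.upd (BlkD.upd (BlkD.upd (fun _ => 0) 0 5) 0 6) 1 11)
      (BlkD.upd (BlkD.upd (BlkD.upd (fun _ => 20) 0 8) 2 6) 0 6)) :=
  BlkD.tree_sound (BlkD.pairOk_sound k20_20_8_6) (by decide) hn t20_20_8_6_19 _ _ (by decide +kernel)

/-- certificates of the pair `(8, 6)`, part 20 -/
def t20_20_8_6_20 : BlkD.Tr :=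
  .L 4 4 [4, 20, 20, 20, 20, 20, 20] [] [] 100000 0 0 1600000 100000 50000 100000 100000 0 0 0

lemma s20_20_8_6_20 {n : ℕ} (hn : 5 ≤ n) : NoNd (d20_20_8_6.R : ℤ) d20_20_8_6.H n d20_20_8_6.a d20_20_8_6.b
    (BlkD.inB (BlkD.upd (BlkD.upd (fun _ => 0) 0 5) 0 7)
      (BlkD.upd (BlkD.upd (fun _ => 20) 0 8) 2 6)) :=
  BlkD.tree_sound (BlkD.pairOk_sound k20_20_8_6) (by decide) hn t20_20_8_6_20 _ _ (by decide +kernel)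

/-- certificates of the pair `(8, 6)`, part 21 -/
def t20_20_8_6_21 : BlkD.Tr :=
  .E 1

lemma s20_20_8_6_21 {n : ℕ} (hn : 5 ≤ n) : NoNd (d20_20_8_6.R : ℤ) d20_20_8_6.H n d20_20_8_6.a d20_20_8_6.b
    (BlkD.inB (BlkD.upd (fun _ => 0) 2 7)
      (BlkD.upd (fun _ => 20) 0 8)) :=
  BlkD.tree_sound (BlkD.pairOk_sound k20_20_8_6) (by decide) hn t20_20_8_6_21 _ _ (by decide +kernel)

/-- certificates of the pair `(8, 6)`, part 22 -/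
def t20_20_8_6_22 : BlkD.Tr :=
  .E 0

lemma s20_20_8_6_22 {n : ℕ} (hn : 5 ≤ n) : NoNd (d20_20_8_6.R : ℤ) d20_20_8_6.H n d20_20_8_6.a d20_20_8_6.b
    (BlkD.inB (BlkD.upd (fun _ => 0) 0 9)
      (fun _ => 20)) :=
  BlkD.tree_sound (BlkD.pairOk_sound k20_20_8_6) (by decide) hn t20_20_8_6_22 _ _ (by decide +kernel)

lemma pr20_20_8_6 {n : ℕ} (hn : 5 ≤ n) : NoPr ((20 : ℕ) : ℤ) ((20 : ℕ) : ℤ) n 8 6 :=
  BlkD.of_root (R := d20_20_8_6.R) (H := d20_20_8_6.H) (a := d20_20_8_6.a) (b := d20_20_8_6.b) (q := 3) (by decide) hn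
    (BlkD.sp 0 8 (BlkD.sp 2 6 (BlkD.sp 0 4 (BlkD.sp 0 2 (BlkD.sp 0 1 (s20_20_8_6_1 hn)
      (s20_20_8_6_2 hn)) (BlkD.sp 0 3 (BlkD.sp 1 10 (BlkD.sp 1 5 (s20_20_8_6_3 hn) (BlkD.sp 1 8
      (s20_20_8_6_4 hn) (s20_20_8_6_5 hn))) (s20_20_8_6_6 hn)) (BlkD.sp 1 10 (BlkD.sp 1 5
      (s20_20_8_6_7 hn) (BlkD.sp 1 8 (BlkD.sp 1 7 (s20_20_8_6_8 hn) (s20_20_8_6_9 hn))
      (s20_20_8_6_10 hn))) (s20_20_8_6_11 hn)))) (BlkD.sp 0 6 (BlkD.sp 0 5 (BlkD.sp 1 10 (BlkD.sp 1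
      5 (s20_20_8_6_12 hn) (BlkD.sp 1 8 (BlkD.sp 1 7 (s20_20_8_6_13 hn) (s20_20_8_6_14 hn))
      (s20_20_8_6_15 hn))) (s20_20_8_6_16 hn)) (BlkD.sp 1 10 (BlkD.sp 1 5 (s20_20_8_6_17 hn)
      (s20_20_8_6_18 hn)) (s20_20_8_6_19 hn))) (s20_20_8_6_20 hn))) (s20_20_8_6_21 hn))
      (s20_20_8_6_22 hn))

/-- the numbers of the pair `(9, 0)`, `R = 20`, `H = 20` -/
def d20_20_9_0 : BlkD.Pd :=
  ⟨20, 20, 3, 9, 0, 8, 0, 1, 0, 4, 4, 0, 0, 4, 4, 0, [0, 4, 8, 12, 16, 20, 24, 28, 32], [0, 4, 8,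
    12, 16, 20, 24, 28, 32], [⟨1, 1, 1, 4, 8, [0, 4], [0, 4]⟩]⟩

/-- the certificates of the pair `(9, 0)` -/
def t20_20_9_0 : BlkD.Tr :=
  .S 0 9 (.S 2 0 (.S 0 4 (.L 4 4 [4] [] [] 100000 0 0 1076363 58182 0 65455 0 0 0 0) (.L 4 4 [4] []
    [] 100000 0 0 1076363 58182 0 65455 0 0 0 0)) (.E 1)) (.E 0)

lemma pr20_20_9_0 {n : ℕ} (hn : 5 ≤ n) : NoPr ((20 : ℕ) : ℤ) ((20 : ℕ) : ℤ) n 9 0 :=
  BlkD.pair_sound (d := d20_20_9_0) (by decide +kernel) hn (by decide) (tr := t20_20_9_0)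
    (by decide +kernel) rfl rfl rfl rfl

/-- the numbers of the pair `(9, 1)`, `R = 20`, `H = 20` -/
def d20_20_9_1 : BlkD.Pd :=
  ⟨20, 20, 3, 9, 1, 7, 1, 1, 0, 4, 8, 0, 0, 4, 4, 0, [0, 8, 16, 24, 28, 28, 28, 28], [0, 4, 8, 12,
    16, 20, 24, 28], [⟨1, 1, 1, 4, 8, [0, 4], [0, 4]⟩, ⟨1, 1, 1, 4, 12, [0, 8], [0, 4]⟩]⟩

lemma k20_20_9_1 : BlkD.pairOk d20_20_9_1 = true := by decide +kernel

/-- certificates of the pair `(9, 1)`, part 1 -/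
def t20_20_9_1_1 : BlkD.Tr :=
  .L 4 5 [4, 4] [] [] 100000 25000 0 1025001 62500 0 95833 0 0 0 0

lemma s20_20_9_1_1 {n : ℕ} (hn : 5 ≤ n) : NoNd (d20_20_9_1.R : ℤ) d20_20_9_1.H n d20_20_9_1.a d20_20_9_1.b
    (BlkD.inB (fun _ => 0)
      (BlkD.upd (BlkD.upd (BlkD.upd (BlkD.upd (fun _ => 20) 0 9) 2 1) 0 4) 0 2)) :=
  BlkD.tree_sound (BlkD.pairOk_sound k20_20_9_1) (by decide) hn t20_20_9_1_1 _ _ (by decide +kernel)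

/-- certificates of the pair `(9, 1)`, part 2 -/
def t20_20_9_1_2 : BlkD.Tr :=
  .L 4 5 [4, 4] [] [] 100000 25000 0 1025001 62500 0 95833 0 0 0 0

lemma s20_20_9_1_2 {n : ℕ} (hn : 5 ≤ n) : NoNd (d20_20_9_1.R : ℤ) d20_20_9_1.H n d20_20_9_1.a d20_20_9_1.b
    (BlkD.inB (BlkD.upd (fun _ => 0) 0 3)
      (BlkD.upd (BlkD.upd (BlkD.upd (fun _ => 20) 0 9) 2 1) 0 4)) :=
  BlkD.tree_sound (BlkD.pairOk_sound k20_20_9_1) (by decide) hn t20_20_9_1_2 _ _ (by decide +kernel)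

/-- certificates of the pair `(9, 1)`, part 3 -/
def t20_20_9_1_3 : BlkD.Tr :=
  .S 0 7 (.S 0 6 (.S 0 5 (.L 4 5 [4, 4] [] [] 100000 0 0 1240000 40000 0 85000 0 0 0 0) (.L 4 5 [4,
    4] [] [] 100000 0 0 1266669 33333 0 100000 0 0 0 0)) (.L 4 5 [4, 4] [] [] 100000 0 0 1257145
    28571 0 100000 0 0 0 0)) (.L 4 5 [4, 4] [] [] 100000 0 0 1233334 22222 0 100000 0 0 0 0)

lemma s20_20_9_1_3 {n : ℕ} (hn : 5 ≤ n) : NoNd (d20_20_9_1.R : ℤ) d20_20_9_1.H n d20_20_9_1.a d20_20_9_1.b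
    (BlkD.inB (BlkD.upd (fun _ => 0) 0 5)
      (BlkD.upd (BlkD.upd (fun _ => 20) 0 9) 2 1)) :=
  BlkD.tree_sound (BlkD.pairOk_sound k20_20_9_1) (by decide) hn t20_20_9_1_3 _ _ (by decide +kernel)

/-- certificates of the pair `(9, 1)`, part 4 -/
def t20_20_9_1_4 : BlkD.Tr :=
  .E 1

lemma s20_20_9_1_4 {n : ℕ} (hn : 5 ≤ n) : NoNd (d20_20_9_1.R : ℤ) d20_20_9_1.H n d20_20_9_1.a d20_20_9_1.b
    (BlkD.inB (BlkD.upd (fun _ => 0) 2 2)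
      (BlkD.upd (fun _ => 20) 0 9)) :=
  BlkD.tree_sound (BlkD.pairOk_sound k20_20_9_1) (by decide) hn t20_20_9_1_4 _ _ (by decide +kernel)

/-- certificates of the pair `(9, 1)`, part 5 -/
def t20_20_9_1_5 : BlkD.Tr :=
  .E 0

lemma s20_20_9_1_5 {n : ℕ} (hn : 5 ≤ n) : NoNd (d20_20_9_1.R : ℤ) d20_20_9_1.H n d20_20_9_1.a d20_20_9_1.b
    (BlkD.inB (BlkD.upd (fun _ => 0) 0 10)
      (fun _ => 20)) :=
  BlkD.tree_sound (BlkD.pairOk_sound k20_20_9_1) (by decide) hn t20_20_9_1_5 _ _ (by decide +kernel)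

lemma pr20_20_9_1 {n : ℕ} (hn : 5 ≤ n) : NoPr ((20 : ℕ) : ℤ) ((20 : ℕ) : ℤ) n 9 1 :=
  BlkD.of_root (R := d20_20_9_1.R) (H := d20_20_9_1.H) (a := d20_20_9_1.a) (b := d20_20_9_1.b) (q := 3) (by decide) hn
    (BlkD.sp 0 9 (BlkD.sp 2 1 (BlkD.sp 0 4 (BlkD.sp 0 2 (s20_20_9_1_1 hn) (s20_20_9_1_2 hn))
      (s20_20_9_1_3 hn)) (s20_20_9_1_4 hn)) (s20_20_9_1_5 hn))

end BlkC

end Pool.Agent.Lib.MP_f04ccf_co
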