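import Pool.Agent.Lib.MP_f04ccf_co.M.BlkT

/-!
MP_f04ccf_co, block certificate, data `R = 20`, `H = 20`, part 13 (generated, helper99:
bd10.cpp, gen2.py).
-/

set_option autoImplicit false
set_option maxRecDepth 100000

namespace Pool.Agent.Lib.MP_f04ccf_co

namespace BlkC

/-- the numbers of the pair `(9, 2)`, `R = 20`, `H = 20` -/
def d20_20_9_2 : BlkD.Pd :=
  ⟨20, 20, 3, 9, 2, 6, 2, 2, 4, 2, 10, 0, 3, 1, 6, 0, [0, 10, 20, 24, 28, 32, 36], [0, 6, 12, 15,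
    18, 21, 24], [⟨1, 1, 1, 4, 8, [0, 4], [0, 4]⟩, ⟨1, 1, 1, 4, 12, [0, 8], [0, 4]⟩, ⟨2, 1, 1, 4,
    20, [0, 10, 14], [0, 6]⟩]⟩

lemma k20_20_9_2 : BlkD.pairOk d20_20_9_2 = true := by decide +kernel

/-- certificates of the pair `(9, 2)`, part 1 -/
def t20_20_9_2_1 : BlkD.Tr :=
  .L 4 7 [4, 4, 4] [] [] 100000 107692 107692 1069232 76923 0 100000 7692 0 0 0

lemma s20_20_9_2_1 {n : ℕ} (hn : 5 ≤ n) : NoNd (d20_20_9_2.R : ℤ) d20_20_9_2.H n d20_20_9_2.a d20_20_9_2.b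
    (BlkD.inB (fun _ => 0)
      (BlkD.upd (BlkD.upd (BlkD.upd (BlkD.upd (BlkD.upd (fun _ => 20) 0 9) 2 2) 0 4) 0 2) 0 1)) :=
  BlkD.tree_sound (BlkD.pairOk_sound k20_20_9_2) (by decide) hn t20_20_9_2_1 _ _ (by decide +kernel)

/-- certificates of the pair `(9, 2)`, part 2 -/
def t20_20_9_2_2 : BlkD.Tr :=
  .L 4 7 [4, 4, 4] [] [] 100000 107692 107692 1069232 76923 0 100000 7692 0 0 0

lemma s20_20_9_2_2 {n : ℕ} (hn : 5 ≤ n) : NoNd (d20_20_9_2.R : ℤ) d20_20_9_2.H n d20_20_9_2.a d20_20_9_2.b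
    (BlkD.inB (BlkD.upd (fun _ => 0) 0 2)
      (BlkD.upd (BlkD.upd (BlkD.upd (BlkD.upd (fun _ => 20) 0 9) 2 2) 0 4) 0 2)) :=
  BlkD.tree_sound (BlkD.pairOk_sound k20_20_9_2) (by decide) hn t20_20_9_2_2 _ _ (by decide +kernel)

/-- certificates of the pair `(9, 2)`, part 3 -/
def t20_20_9_2_3 : BlkD.Tr :=
  .L 4 7 [4, 4, 4] [] [] 100000 107692 107692 1069232 76923 0 100000 7692 0 0 0

lemma s20_20_9_2_3 {n : ℕ} (hn : 5 ≤ n) : NoNd (d20_20_9_2.R : ℤ) d20_20_9_2.H n d20_20_9_2.a d20_20_9_2.b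
    (BlkD.inB (BlkD.upd (fun _ => 0) 0 3)
      (BlkD.upd (BlkD.upd (BlkD.upd (BlkD.upd (fun _ => 20) 0 9) 2 2) 0 4) 0 3)) :=
  BlkD.tree_sound (BlkD.pairOk_sound k20_20_9_2) (by decide) hn t20_20_9_2_3 _ _ (by decide +kernel)

/-- certificates of the pair `(9, 2)`, part 4 -/
def t20_20_9_2_4 : BlkD.Tr :=
  .L 4 7 [4, 4, 4] [] [] 100000 107692 107692 1069232 76923 0 100000 7692 0 0 0

lemma s20_20_9_2_4 {n : ℕ} (hn : 5 ≤ n) : NoNd (d20_20_9_2.R : ℤ) d20_20_9_2.H n d20_20_9_2.a d20_20_9_2.b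
    (BlkD.inB (BlkD.upd (BlkD.upd (fun _ => 0) 0 3) 0 4)
      (BlkD.upd (BlkD.upd (BlkD.upd (fun _ => 20) 0 9) 2 2) 0 4)) :=
  BlkD.tree_sound (BlkD.pairOk_sound k20_20_9_2) (by decide) hn t20_20_9_2_4 _ _ (by decide +kernel)

/-- certificates of the pair `(9, 2)`, part 5 -/
def t20_20_9_2_5 : BlkD.Tr :=
  .S 1 15 (.S 1 7 (.L 4 7 [4, 4, 4] [] [] 100000 0 0 1360000 20000 0 20000 20000 0 20000 20000) (.S
    1 11 (.S 1 9 (.S 1 8 (.L 4 7 [4, 4, 4] [186, 182, 178, 174, 170, 166] [] 100000 29167 29166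
    1266666 41667 0 50000 41667 0 8333 8333) (.S 2 1 (.S 2 0 (.L 4 7 [4, 4, 4] [216, 212, 208, 204,
    200, 196] [] 100000 50000 50000 1225000 50000 0 75000 50000 0 0 0) (.S 3 5 (.S 3 2 (.S 3 1 (.L
    4 7 [4, 4, 4] [216, 212, 208, 204, 200, 196] [] 100000 20000 20000 1320000 40000 0 50000 0 0
    20000 20000) (.L 6 9 [5, 5, 3] [216, 212, 208, 204, 200, 196] [22, 16, 6, 0, 0, 0] 100000 9677
    9677 1341939 41935 0 64516 22581 0 22581 22581)) (.E 1)) (.E 1))) (.L 6 9 [5, 5, 3] [216, 212,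
    208, 204, 200, 196] [] 100000 4545 4544 1331819 40909 0 40909 0 0 31818 31818))) (.S 1 10 (.L 6
    9 [5, 5, 3] [248, 244, 240, 236, 232, 228] [] 100000 5882 5882 1376473 41176 0 76471 29412 0
    29412 29412) (.L 4 7 [4, 4, 4] [282, 278, 274, 270, 266, 262] [] 100000 54166 45833 1191670
    58333 0 108333 25000 0 25000 25000))) (.S 1 13 (.S 1 12 (.L 4 7 [4, 4, 4] [318, 314, 310, 306,
    302, 298] [] 100000 99999 66665 950003 83333 0 133333 16667 0 0 0) (.L 4 7 [4, 4, 4] [356, 352,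
    348, 344, 340, 336] [] 100000 66667 66666 1133331 66667 0 100000 33333 0 33333 33333)) (.S 1 14
    (.L 4 7 [4, 4, 4] [396, 392, 388, 384, 380, 376] [] 100000 171429 0 1 135714 0 271429 0 0 0 0)
    (.L 4 7 [4, 4, 4] [438, 434, 430, 426, 422, 418] [] 100000 150000 0 0 125000 0 250000 0 0 0
    0))))) (.E 0)

lemma s20_20_9_2_5 {n : ℕ} (hn : 5 ≤ n) : NoNd (d20_20_9_2.R : ℤ) d20_20_9_2.H n d20_20_9_2.a d20_20_9_2.b
    (BlkD.inB (BlkD.upd (fun _ => 0) 0 5)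
      (BlkD.upd (BlkD.upd (BlkD.upd (BlkD.upd (BlkD.upd (fun _ => 20) 0 9) 2 2) 0 7) 0 6) 0 5)) :=
  BlkD.tree_sound (BlkD.pairOk_sound k20_20_9_2) (by decide) hn t20_20_9_2_5 _ _ (by decide +kernel)

/-- certificates of the pair `(9, 2)`, part 6 -/
def t20_20_9_2_6 : BlkD.Tr :=
  .S 1 14 (.S 1 7 (.S 1 3 (.L 4 7 [4, 4, 4] [] [] 100000 0 0 1200000 0 0 0 0 0 0 0) (.S 1 5 (.L 4 7
    [4, 4, 4] [] [] 100000 0 0 1300000 20000 0 20000 20000 0 20000 20000) (.S 1 6 (.L 4 7 [4, 4, 4]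
    [144, 140, 136, 132, 122, 112] [] 100000 0 0 1328574 28571 0 28571 28571 0 28571 28571) (.L 4 7
    [4, 4, 4] [172, 168, 164, 160, 156, 146] [] 100000 8333 8333 1366669 33333 0 33333 33333 0
    16667 16667)))) (.S 1 11 (.S 1 9 (.S 1 8 (.S 2 1 (.S 2 0 (.L 4 7 [4, 4, 4] [202, 198, 194, 190,
    186, 182] [] 100000 0 0 1366669 33333 0 66667 33333 0 33333 33333) (.S 3 5 (.S 3 2 (.S 3 1 (.L
    4 7 [4, 4, 4] [202, 198, 194, 190, 186, 182] [] 100000 0 0 1366669 33333 0 66667 0 0 33333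
    33333) (.L 6 9 [5, 5, 3] [202, 198, 194, 190, 186, 182] [22, 16, 6, 0, 0, 0] 100000 13115 13115
    1326229 42623 0 80328 37705 0 24590 16393)) (.E 1)) (.E 1))) (.L 6 9 [5, 5, 3] [202, 198, 194,
    190, 186, 182] [] 100000 18750 18750 1293750 43750 0 100000 0 0 37500 6250)) (.L 6 9 [5, 5, 3]
    [234, 230, 226, 222, 218, 214] [] 100000 5882 5882 1376472 41176 0 79412 29412 0 29412 29412))
    (.S 1 10 (.L 6 9 [5, 5, 3] [268, 264, 260, 256, 252, 248] [] 100000 25000 25000 1250000 50000 0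
    100000 50000 0 0 0) (.L 6 9 [5, 5, 3] [304, 300, 296, 292, 288, 284] [] 100000 100000 0 700000
    100000 0 200000 0 0 0 0))) (.L 6 9 [5, 5, 3] [] [] 100000 20000 0 1220000 20000 0 120000 0 0 0
    0))) (.E 0)

lemma s20_20_9_2_6 {n : ℕ} (hn : 5 ≤ n) : NoNd (d20_20_9_2.R : ℤ) d20_20_9_2.H n d20_20_9_2.a d20_20_9_2.b
    (BlkD.inB (BlkD.upd (BlkD.upd (fun _ => 0) 0 5) 0 6)
      (BlkD.upd (BlkD.upd (BlkD.upd (BlkD.upd (fun _ => 20) 0 9) 2 2) 0 7) 0 6)) :=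
  BlkD.tree_sound (BlkD.pairOk_sound k20_20_9_2) (by decide) hn t20_20_9_2_6 _ _ (by decide +kernel)

/-- certificates of the pair `(9, 2)`, part 7 -/
def t20_20_9_2_7 : BlkD.Tr :=
  .S 1 13 (.S 1 6 (.S 1 3 (.L 6 9 [5, 5, 3] [] [] 100000 0 0 1300000 0 0 0 0 0 0 0) (.S 1 5 (.L 6 9
    [5, 5, 3] [] [] 100000 0 0 1366668 33333 0 33333 16667 0 33333 33333) (.L 6 9 [5, 5, 3] [156,
    152, 148, 144, 134, 124] [] 100000 0 0 1366668 33333 0 66667 33333 0 33333 33333))) (.S 1 10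
    (.S 1 8 (.S 1 7 (.L 6 9 [5, 5, 3] [186, 182, 178, 174, 170, 160] [] 100000 3333 3333 1360001
    33333 0 86667 33333 0 26667 26667) (.L 6 9 [5, 5, 3] [218, 214, 210, 206, 202, 198] [] 100000
    12500 12500 1250000 50000 0 100000 25000 0 25000 25000)) (.L 6 9 [5, 5, 3] [] [] 100000 16668 1
    1199998 16667 0 116667 0 0 0 0)) (.E 0))) (.E 0)

lemma s20_20_9_2_7 {n : ℕ} (hn : 5 ≤ n) : NoNd (d20_20_9_2.R : ℤ) d20_20_9_2.H n d20_20_9_2.a d20_20_9_2.b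
    (BlkD.inB (BlkD.upd (BlkD.upd (fun _ => 0) 0 5) 0 7)
      (BlkD.upd (BlkD.upd (BlkD.upd (fun _ => 20) 0 9) 2 2) 0 7)) :=
  BlkD.tree_sound (BlkD.pairOk_sound k20_20_9_2) (by decide) hn t20_20_9_2_7 _ _ (by decide +kernel)

/-- certificates of the pair `(9, 2)`, part 8 -/
def t20_20_9_2_8 : BlkD.Tr :=
  .L 6 9 [5, 5, 3] [] [] 100000 0 0 1370000 10000 0 100000 10000 0 10000 10000

lemma s20_20_9_2_8 {n : ℕ} (hn : 5 ≤ n) : NoNd (d20_20_9_2.R : ℤ) d20_20_9_2.H n d20_20_9_2.a d20_20_9_2.b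
    (BlkD.inB (BlkD.upd (BlkD.upd (fun _ => 0) 0 5) 0 8)
      (BlkD.upd (BlkD.upd (fun _ => 20) 0 9) 2 2)) :=
  BlkD.tree_sound (BlkD.pairOk_sound k20_20_9_2) (by decide) hn t20_20_9_2_8 _ _ (by decide +kernel)

/-- certificates of the pair `(9, 2)`, part 9 -/
def t20_20_9_2_9 : BlkD.Tr :=
  .E 1

lemma s20_20_9_2_9 {n : ℕ} (hn : 5 ≤ n) : NoNd (d20_20_9_2.R : ℤ) d20_20_9_2.H n d20_20_9_2.a d20_20_9_2.b
    (BlkD.inB (BlkD.upd (fun _ => 0) 2 3)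
      (BlkD.upd (fun _ => 20) 0 9)) :=
  BlkD.tree_sound (BlkD.pairOk_sound k20_20_9_2) (by decide) hn t20_20_9_2_9 _ _ (by decide +kernel)

/-- certificates of the pair `(9, 2)`, part 10 -/
def t20_20_9_2_10 : BlkD.Tr :=
  .E 0

lemma s20_20_9_2_10 {n : ℕ} (hn : 5 ≤ n) : NoNd (d20_20_9_2.R : ℤ) d20_20_9_2.H n d20_20_9_2.a d20_20_9_2.b
    (BlkD.inB (BlkD.upd (fun _ => 0) 0 10)
      (fun _ => 20)) :=
  BlkD.tree_sound (BlkD.pairOk_sound k20_20_9_2) (by decide) hn t20_20_9_2_10 _ _ (by decide +kernel)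

lemma pr20_20_9_2 {n : ℕ} (hn : 5 ≤ n) : NoPr ((20 : ℕ) : ℤ) ((20 : ℕ) : ℤ) n 9 2 :=
  BlkD.of_root (R := d20_20_9_2.R) (H := d20_20_9_2.H) (a := d20_20_9_2.a) (b := d20_20_9_2.b) (q := 3) (by decide) hn
    (BlkD.sp 0 9 (BlkD.sp 2 2 (BlkD.sp 0 4 (BlkD.sp 0 2 (BlkD.sp 0 1 (s20_20_9_2_1 hn)
      (s20_20_9_2_2 hn)) (BlkD.sp 0 3 (s20_20_9_2_3 hn) (s20_20_9_2_4 hn))) (BlkD.sp 0 7 (BlkD.sp 0
      6 (BlkD.sp 0 5 (s20_20_9_2_5 hn) (s20_20_9_2_6 hn)) (s20_20_9_2_7 hn)) (s20_20_9_2_8 hn)))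
      (s20_20_9_2_9 hn)) (s20_20_9_2_10 hn))

/-- the numbers of the pair `(9, 3)`, `R = 20`, `H = 20` -/
def d20_20_9_3 : BlkD.Pd :=
  ⟨20, 20, 3, 9, 3, 5, 2, 2, 1, 4, 10, 0, 2, 2, 6, 0, [0, 10, 20, 23, 24, 25], [0, 6, 12, 16, 18,
    20], [⟨1, 1, 1, 4, 8, [0, 4], [0, 4]⟩, ⟨1, 1, 1, 4, 14, [0, 8], [0, 6]⟩, ⟨2, 1, 1, 4, 20, [0,
    10, 14], [0, 6]⟩]⟩

lemma k20_20_9_3 : BlkD.pairOk d20_20_9_3 = true := by decide +kernel

/-- certificates of the pair `(9, 3)`, part 1 -/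
def t20_20_9_3_1 : BlkD.Tr :=
  .L 6 9 [5, 4, 3, 20] [] [] 100000 150000 150000 900000 100000 0 100000 0 0 0 0

lemma s20_20_9_3_1 {n : ℕ} (hn : 5 ≤ n) : NoNd (d20_20_9_3.R : ℤ) d20_20_9_3.H n d20_20_9_3.a d20_20_9_3.b
    (BlkD.inB (fun _ => 0)
      (BlkD.upd (BlkD.upd (BlkD.upd (BlkD.upd (BlkD.upd (fun _ => 20) 0 9) 2 3) 0 4) 0 2) 0 1)) :=
  BlkD.tree_sound (BlkD.pairOk_sound k20_20_9_3) (by decide) hn t20_20_9_3_1 _ _ (by decide +kernel)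

/-- certificates of the pair `(9, 3)`, part 2 -/
def t20_20_9_3_2 : BlkD.Tr :=
  .S 1 5 (.L 6 9 [5, 4, 3, 20] [] [] 100000 150000 150000 900000 100000 0 100000 0 0 0 0) (.L 6 9
    [5, 4, 3, 20] [] [] 100000 150000 150000 900000 100000 0 100000 0 0 0 0)

lemma s20_20_9_3_2 {n : ℕ} (hn : 5 ≤ n) : NoNd (d20_20_9_3.R : ℤ) d20_20_9_3.H n d20_20_9_3.a d20_20_9_3.b
    (BlkD.inB (BlkD.upd (fun _ => 0) 0 2)
      (BlkD.upd (BlkD.upd (BlkD.upd (BlkD.upd (BlkD.upd (fun _ => 20) 0 9) 2 3) 0 4) 0 2) 1 10)) :=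
  BlkD.tree_sound (BlkD.pairOk_sound k20_20_9_3) (by decide) hn t20_20_9_3_2 _ _ (by decide +kernel)

/-- certificates of the pair `(9, 3)`, part 3 -/
def t20_20_9_3_3 : BlkD.Tr :=
  .L 6 9 [5, 4, 3, 20] [] [] 100000 150000 150000 900000 100000 0 100000 0 0 0 0

lemma s20_20_9_3_3 {n : ℕ} (hn : 5 ≤ n) : NoNd (d20_20_9_3.R : ℤ) d20_20_9_3.H n d20_20_9_3.a d20_20_9_3.b
    (BlkD.inB (BlkD.upd (BlkD.upd (fun _ => 0) 0 2) 1 11)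
      (BlkD.upd (BlkD.upd (BlkD.upd (BlkD.upd (fun _ => 20) 0 9) 2 3) 0 4) 0 2)) :=
  BlkD.tree_sound (BlkD.pairOk_sound k20_20_9_3) (by decide) hn t20_20_9_3_3 _ _ (by decide +kernel)

/-- certificates of the pair `(9, 3)`, part 4 -/
def t20_20_9_3_4 : BlkD.Tr :=
  .L 6 9 [5, 4, 3, 20] [] [] 100000 31999 31999 1293336 41333 0 41333 33333 0 0 0

lemma s20_20_9_3_4 {n : ℕ} (hn : 5 ≤ n) : NoNd (d20_20_9_3.R : ℤ) d20_20_9_3.H n d20_20_9_3.a d20_20_9_3.b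
    (BlkD.inB (BlkD.upd (fun _ => 0) 0 3)
      (BlkD.upd (BlkD.upd (BlkD.upd (BlkD.upd (BlkD.upd (BlkD.upd (fun _ => 20) 0 9) 2 3) 0 4) 0 3) 1 17) 1 8)) :=
  BlkD.tree_sound (BlkD.pairOk_sound k20_20_9_3) (by decide) hn t20_20_9_3_4 _ _ (by decide +kernel)

/-- certificates of the pair `(9, 3)`, part 5 -/
def t20_20_9_3_5 : BlkD.Tr :=
  .S 1 13 (.S 1 11 (.S 1 10 (.L 6 9 [5, 4, 3, 20] [] [] 100000 0 0 1466670 33333 0 33333 33333 0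
    33333 33333) (.L 6 9 [5, 4, 3, 20] [227, 226, 225, 224, 223, 222] [] 100000 166667 166667
    1000001 100000 0 100000 33333 0 0 0)) (.S 1 12 (.L 6 9 [5, 4, 3, 20] [256, 255, 254, 253, 252,
    251] [] 100000 433334 266667 0 266667 0 266667 0 0 0 0) (.L 6 9 [5, 4, 3, 20] [287, 286, 285,
    284, 283, 282] [] 100000 357142 228571 3 228571 0 228571 0 0 0 0))) (.L 5 7 [4, 4, 4, 20] [] []
    100000 275000 275000 900000 100000 0 100000 50000 0 0 0)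

lemma s20_20_9_3_5 {n : ℕ} (hn : 5 ≤ n) : NoNd (d20_20_9_3.R : ℤ) d20_20_9_3.H n d20_20_9_3.a d20_20_9_3.b
    (BlkD.inB (BlkD.upd (BlkD.upd (fun _ => 0) 0 3) 1 9)
      (BlkD.upd (BlkD.upd (BlkD.upd (BlkD.upd (BlkD.upd (fun _ => 20) 0 9) 2 3) 0 4) 0 3) 1 17)) :=
  BlkD.tree_sound (BlkD.pairOk_sound k20_20_9_3) (by decide) hn t20_20_9_3_5 _ _ (by decide +kernel)

/-- certificates of the pair `(9, 3)`, part 6 -/
def t20_20_9_3_6 : BlkD.Tr :=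
  .E 0

lemma s20_20_9_3_6 {n : ℕ} (hn : 5 ≤ n) : NoNd (d20_20_9_3.R : ℤ) d20_20_9_3.H n d20_20_9_3.a d20_20_9_3.b
    (BlkD.inB (BlkD.upd (BlkD.upd (fun _ => 0) 0 3) 1 18)
      (BlkD.upd (BlkD.upd (BlkD.upd (BlkD.upd (fun _ => 20) 0 9) 2 3) 0 4) 0 3)) :=
  BlkD.tree_sound (BlkD.pairOk_sound k20_20_9_3) (by decide) hn t20_20_9_3_6 _ _ (by decide +kernel)

/-- certificates of the pair `(9, 3)`, part 7 -/
def t20_20_9_3_7 : BlkD.Tr :=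
  .S 1 4 (.L 5 7 [4, 4, 4, 20] [] [] 100000 12500 12500 1200000 25000 0 25000 12500 0 0 0) (.S 1 6
    (.L 5 7 [4, 4, 4, 20] [] [] 100000 13637 13637 1345454 27273 0 27273 9091 0 0 0) (.S 1 7 (.L 5
    7 [4, 4, 4, 20] [145, 144, 143, 140, 130, 120] [] 100000 12500 12500 1381250 31250 0 43750
    25000 0 6250 6250) (.L 5 7 [4, 4, 4, 20] [168, 167, 166, 165, 162, 152] [] 100000 20588 20588
    1417648 35294 0 47059 17647 0 0 0)))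

lemma s20_20_9_3_7 {n : ℕ} (hn : 5 ≤ n) : NoNd (d20_20_9_3.R : ℤ) d20_20_9_3.H n d20_20_9_3.a d20_20_9_3.b
    (BlkD.inB (BlkD.upd (BlkD.upd (fun _ => 0) 0 3) 0 4)
      (BlkD.upd (BlkD.upd (BlkD.upd (BlkD.upd (BlkD.upd (fun _ => 20) 0 9) 2 3) 0 4) 1 16) 1 8)) :=
  BlkD.tree_sound (BlkD.pairOk_sound k20_20_9_3) (by decide) hn t20_20_9_3_7 _ _ (by decide +kernel)

/-- certificates of the pair `(9, 3)`, part 8 -/
def t20_20_9_3_8 : BlkD.Tr :=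
  .S 1 12 (.S 1 10 (.S 1 9 (.L 5 7 [4, 4, 4, 20] [193, 192, 191, 190, 189, 186] [] 100000 50000
    50000 1350000 50000 0 50000 50000 0 0 0) (.L 5 7 [4, 4, 4, 20] [220, 219, 218, 217, 216, 215]
    [] 100000 120000 120000 1220000 80000 0 80000 40000 0 0 0)) (.S 1 11 (.L 5 7 [4, 4, 4, 20]
    [249, 248, 247, 246, 245, 244] [] 100000 125000 125000 1193750 81250 0 100000 25000 0 0 0) (.L
    5 7 [4, 4, 4, 20] [280, 279, 278, 277, 276, 275] [] 100000 150000 100000 950000 100000 0 150000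
    50000 0 0 0))) (.S 1 14 (.S 1 13 (.L 5 7 [4, 4, 4, 20] [313, 312, 311, 310, 309, 308] [] 100000
    369444 150000 2 197222 0 319444 25000 0 0 0) (.L 5 7 [4, 4, 4, 20] [348, 347, 346, 345, 344,
    343] [] 100000 420000 280000 0 190000 0 240000 0 0 0 0)) (.S 1 15 (.L 5 7 [4, 4, 4, 20] [385,
    384, 383, 382, 381, 380] [] 100000 470000 380000 0 190000 0 190000 0 0 0 0) (.L 5 7 [4, 4, 4,
    20] [424, 423, 422, 421, 420, 419] [] 100000 400001 333334 0 166667 0 166667 0 0 0 0)))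

lemma s20_20_9_3_8 {n : ℕ} (hn : 5 ≤ n) : NoNd (d20_20_9_3.R : ℤ) d20_20_9_3.H n d20_20_9_3.a d20_20_9_3.b
    (BlkD.inB (BlkD.upd (BlkD.upd (BlkD.upd (fun _ => 0) 0 3) 0 4) 1 9)
      (BlkD.upd (BlkD.upd (BlkD.upd (BlkD.upd (fun _ => 20) 0 9) 2 3) 0 4) 1 16)) :=
  BlkD.tree_sound (BlkD.pairOk_sound k20_20_9_3) (by decide) hn t20_20_9_3_8 _ _ (by decide +kernel)

/-- certificates of the pair `(9, 3)`, part 9 -/
def t20_20_9_3_9 : BlkD.Tr :=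
  .E 0

lemma s20_20_9_3_9 {n : ℕ} (hn : 5 ≤ n) : NoNd (d20_20_9_3.R : ℤ) d20_20_9_3.H n d20_20_9_3.a d20_20_9_3.b
    (BlkD.inB (BlkD.upd (BlkD.upd (BlkD.upd (fun _ => 0) 0 3) 0 4) 1 17)
      (BlkD.upd (BlkD.upd (BlkD.upd (fun _ => 20) 0 9) 2 3) 0 4)) :=
  BlkD.tree_sound (BlkD.pairOk_sound k20_20_9_3) (by decide) hn t20_20_9_3_9 _ _ (by decide +kernel)

/-- certificates of the pair `(9, 3)`, part 10 -/
def t20_20_9_3_10 : BlkD.Tr :=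
  .S 1 3 (.L 5 7 [4, 4, 4, 20] [] [] 100000 16667 16667 1200001 33333 0 33333 16667 0 0 0) (.S 1 5
    (.L 5 7 [4, 4, 4, 20] [] [] 100000 12500 12500 1375000 25000 0 25000 12500 0 0 0) (.S 1 6 (.L 5
    7 [4, 4, 4, 20] [136, 135, 132, 122, 112, 102] [] 100000 50000 50000 1360000 40000 0 70000
    30000 0 0 0) (.S 2 1 (.S 2 0 (.L 5 7 [4, 4, 4, 20] [159, 158, 157, 154, 144, 134] [] 100000
    12500 12500 1350000 25000 0 25000 75000 0 0 0) (.S 3 7 (.S 3 3 (.L 5 7 [4, 4, 4, 20] [159, 158,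
    157, 154, 144, 134] [] 100000 7142 7142 1457145 28571 0 42857 28571 0 28571 28571) (.L 5 7 [4,
    4, 4, 20] [159, 158, 157, 154, 144, 134] [] 100000 85715 85715 1300000 57143 0 57143 28571 0
    14286 14286)) (.E 1))) (.L 5 7 [4, 4, 4, 20] [159, 158, 157, 154, 144, 134] [] 100000 41668
    41668 1408333 41667 0 50000 8333 0 25000 25000))))

lemma s20_20_9_3_10 {n : ℕ} (hn : 5 ≤ n) : NoNd (d20_20_9_3.R : ℤ) d20_20_9_3.H n d20_20_9_3.a d20_20_9_3.b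
    (BlkD.inB (BlkD.upd (fun _ => 0) 0 5)
      (BlkD.upd (BlkD.upd (BlkD.upd (BlkD.upd (BlkD.upd (BlkD.upd (BlkD.upd (fun _ => 20) 0 9) 2 3) 0 7) 0 6) 0 5) 1 15) 1 7)) :=
  BlkD.tree_sound (BlkD.pairOk_sound k20_20_9_3) (by decide) hn t20_20_9_3_10 _ _ (by decide +kernel)

/-- certificates of the pair `(9, 3)`, part 11 -/
def t20_20_9_3_11 : BlkD.Tr :=
  .S 1 9 (.S 1 8 (.S 2 1 (.S 2 0 (.L 5 7 [4, 4, 4, 20] [184, 183, 182, 181, 178, 168] [] 100000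
    14286 14286 1376194 28571 0 38095 76190 0 0 0) (.S 3 6 (.S 3 3 (.S 3 1 (.L 5 7 [4, 4, 4, 20]
    [184, 183, 182, 181, 178, 168] [] 100000 16667 16667 1400001 33333 0 50000 0 0 0 0) (.S 3 2 (.L
    5 7 [4, 4, 4, 20] [184, 183, 182, 181, 178, 168] [28, 18, 6, 0, 0, 0] 100000 6250 6250 1462500
    31250 6250 50000 31250 0 18750 18750) (.L 3 5 [5, 5, 6, 20] [184, 183, 182, 181, 178, 168] [40,
    34, 24, 12, 0, 0] 100000 107691 107691 1269234 61538 0 76923 30769 0 15385 23077))) (.S 3 5 (.S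
    3 4 (.L 6 9 [5, 4, 3, 20] [184, 183, 182, 181, 178, 168] [54, 48, 42, 32, 20, 0] 100000 22221
    22221 1444448 44444 0 44444 22222 0 0 0) (.E 1)) (.E 1))) (.E 1))) (.L 6 9 [5, 4, 3, 20] [184,
    183, 182, 181, 178, 168] [] 100000 14286 14286 1457144 42857 0 57143 14286 0 14286 14286)) (.S
    2 1 (.S 2 0 (.L 6 9 [5, 4, 3, 20] [211, 210, 209, 208, 207, 204] [] 100000 21739 21739 1365219
    43478 0 52174 65217 0 0 0) (.S 3 5 (.S 3 2 (.S 3 1 (.L 6 9 [5, 4, 3, 20] [211, 210, 209, 208,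
    207, 204] [] 100000 22222 22222 1422224 44444 0 59259 0 0 0 0) (.S 4 9 (.S 4 4 (.L 6 9 [5, 4,
    3, 20] [204, 194, 184, 174, 162, 0] [28, 18, 6, 0, 0, 0] 100000 19048 19048 1452383 38095 28571
    66667 57143 0 0 0) (.L 6 9 [5, 4, 3, 20] [211, 210, 209, 208, 207, 204] [28, 18, 6, 0, 0, 0]
    100000 200000 0 400000 50000 0 300000 100000 0 0 0)) (.E 2))) (.S 3 4 (.S 3 3 (.S 4 9 (.S 4 4
    (.S 4 2 (.L 6 9 [5, 4, 3, 20] [184, 174, 162, 0, 0, 0] [40, 34, 24, 12, 0, 0] 100000 0 0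
    1450000 50000 0 50000 50000 0 0 0) (.L 6 9 [5, 4, 3, 20] [204, 194, 184, 174, 162, 0] [40, 34,
    24, 12, 0, 0] 100000 33335 33335 1359999 46667 0 100000 26667 0 0 0)) (.L 6 9 [5, 4, 3, 20]
    [211, 210, 209, 208, 207, 204] [40, 34, 24, 12, 0, 0] 100000 260000 0 0 60000 0 360000 120000 0
    0 0)) (.E 2)) (.S 4 9 (.S 4 4 (.S 4 2 (.L 6 9 [5, 4, 3, 20] [184, 174, 162, 0, 0, 0] [54, 48,
    42, 32, 20, 0] 100000 533333 422222 1 211111 0 211111 105556 0 0 0) (.L 6 9 [5, 4, 3, 20] [204,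
    194, 184, 174, 162, 0] [54, 48, 42, 32, 20, 0] 100000 347970 123580 0 154472 0 324390 77236 0 0
    0)) (.L 6 9 [5, 4, 3, 20] [211, 210, 209, 208, 207, 204] [54, 48, 42, 32, 20, 0] 100000 230436
    1 0 82609 0 330435 0 0 0 0)) (.E 2))) (.E 1))) (.E 1))) (.S 2 2 (.S 3 4 (.S 3 2 (.S 3 1 (.L 6 9
    [5, 4, 3, 20] [211, 210, 209, 208, 207, 204] [] 100000 17391 17391 1460871 43478 0 65217 30435
    0 8696 8696) (.S 4 9 (.S 4 4 (.L 6 9 [5, 4, 3, 20] [204, 194, 184, 174, 162, 0] [32, 22, 10, 0,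
    0, 0] 100000 0 0 1480000 40000 0 60000 40000 0 0 0) (.L 6 9 [5, 4, 3, 20] [211, 210, 209, 208,
    207, 204] [32, 22, 10, 0, 0, 0] 100000 260000 0 0 90000 0 360000 0 0 0 0)) (.E 2))) (.S 3 3 (.S
    4 9 (.S 4 4 (.S 4 2 (.L 6 9 [5, 4, 3, 20] [184, 174, 162, 0, 0, 0] [46, 40, 30, 18, 0, 0]
    100000 533333 422222 1 211111 0 211111 0 0 0 0) (.L 6 9 [5, 4, 3, 20] [204, 194, 184, 174, 162,
    0] [46, 40, 30, 18, 0, 0] 100000 309806 74512 0 149020 0 335294 0 0 0 0)) (.L 6 9 [5, 4, 3, 20]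
    [211, 210, 209, 208, 207, 204] [46, 40, 30, 18, 0, 0] 100000 216668 1 0 79167 0 316667 0 0 0
    0)) (.E 2)) (.E 1))) (.E 1)) (.L 6 9 [5, 4, 3, 20] [211, 210, 209, 208, 207, 204] [] 100000
    14286 14286 1457144 42857 0 71429 0 0 14286 14286)))) (.S 1 10 (.L 6 9 [5, 4, 3, 20] [240, 239,
    238, 237, 236, 235] [] 100000 66668 66668 1333333 66667 0 100000 33333 0 0 0) (.L 6 9 [5, 4, 3,
    20] [271, 270, 269, 268, 267, 266] [] 100000 66668 66668 1333332 66667 0 100000 33333 0 0 0))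

lemma s20_20_9_3_11 {n : ℕ} (hn : 5 ≤ n) : NoNd (d20_20_9_3.R : ℤ) d20_20_9_3.H n d20_20_9_3.a d20_20_9_3.b
    (BlkD.inB (BlkD.upd (BlkD.upd (fun _ => 0) 0 5) 1 8)
      (BlkD.upd (BlkD.upd (BlkD.upd (BlkD.upd (BlkD.upd (BlkD.upd (BlkD.upd (fun _ => 20) 0 9) 2 3) 0 7) 0 6) 0 5) 1 15) 1 11)) :=
  BlkD.tree_sound (BlkD.pairOk_sound k20_20_9_3) (by decide) hn t20_20_9_3_11 _ _ (by decide +kernel)

/-- certificates of the pair `(9, 3)`, part 12 -/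
def t20_20_9_3_12 : BlkD.Tr :=
  .S 1 13 (.S 1 12 (.L 6 9 [5, 4, 3, 20] [304, 303, 302, 301, 300, 299] [] 100000 110000 20000
    920000 100000 0 190000 30000 0 0 0) (.L 6 9 [5, 4, 3, 20] [339, 338, 337, 336, 335, 334] []
    100000 330000 100000 0 190000 0 330000 0 0 0 0)) (.S 1 14 (.L 6 9 [5, 4, 3, 20] [376, 375, 374,
    373, 372, 371] [] 100000 300000 200000 0 200000 0 200000 0 0 0 0) (.L 6 9 [5, 4, 3, 20] [415,
    414, 413, 412, 411, 410] [] 100000 263636 181818 2 181818 0 181818 0 0 0 0))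

lemma s20_20_9_3_12 {n : ℕ} (hn : 5 ≤ n) : NoNd (d20_20_9_3.R : ℤ) d20_20_9_3.H n d20_20_9_3.a d20_20_9_3.b
    (BlkD.inB (BlkD.upd (BlkD.upd (BlkD.upd (fun _ => 0) 0 5) 1 8) 1 12)
      (BlkD.upd (BlkD.upd (BlkD.upd (BlkD.upd (BlkD.upd (BlkD.upd (fun _ => 20) 0 9) 2 3) 0 7) 0 6) 0 5) 1 15)) :=
  BlkD.tree_sound (BlkD.pairOk_sound k20_20_9_3) (by decide) hn t20_20_9_3_12 _ _ (by decide +kernel)

/-- certificates of the pair `(9, 3)`, part 13 -/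
def t20_20_9_3_13 : BlkD.Tr :=
  .E 0

lemma s20_20_9_3_13 {n : ℕ} (hn : 5 ≤ n) : NoNd (d20_20_9_3.R : ℤ) d20_20_9_3.H n d20_20_9_3.a d20_20_9_3.b
    (BlkD.inB (BlkD.upd (BlkD.upd (fun _ => 0) 0 5) 1 16)
      (BlkD.upd (BlkD.upd (BlkD.upd (BlkD.upd (BlkD.upd (fun _ => 20) 0 9) 2 3) 0 7) 0 6) 0 5)) :=
  BlkD.tree_sound (BlkD.pairOk_sound k20_20_9_3) (by decide) hn t20_20_9_3_13 _ _ (by decide +kernel)

/-- certificates of the pair `(9, 3)`, part 14 -/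
def t20_20_9_3_14 : BlkD.Tr :=
  .S 1 3 (.L 6 9 [5, 4, 3, 20] [] [] 100000 0 0 1400000 0 0 0 0 0 0 0) (.S 1 5 (.L 6 9 [5, 4, 3,
    20] [] [] 100000 4074 4074 1429630 34074 2222 39259 31111 0 25926 25926) (.S 1 6 (.S 2 1 (.S 2
    0 (.L 6 9 [5, 4, 3, 20] [148, 147, 144, 134, 124, 114] [] 100000 0 0 1400000 0 0 0 100000 0 0
    0) (.S 3 7 (.S 3 3 (.L 6 9 [5, 4, 3, 20] [148, 147, 144, 134, 124, 114] [] 100000 0 0 1466668
    33333 0 66667 33333 0 33333 33333) (.S 3 5 (.S 3 4 (.S 4 6 (.S 4 3 (.L 6 9 [5, 4, 3, 20] [134,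
    124, 114, 102, 0, 0] [54, 48, 42, 32, 20, 0] 100000 9302 9302 1448840 41860 0 41860 20930 0
    23256 23256) (.L 6 9 [5, 4, 3, 20] [148, 147, 144, 134, 124, 114] [54, 48, 42, 32, 20, 0]
    100000 260000 0 100000 80000 0 360000 40000 0 0 0)) (.E 2)) (.E 1)) (.E 1))) (.E 1))) (.S 2 2
    (.S 3 6 (.S 3 3 (.S 3 1 (.L 6 9 [5, 4, 3, 20] [148, 147, 144, 134, 124, 114] [] 100000 0 0
    1450000 25000 0 50000 50000 0 25000 25000) (.S 3 2 (.L 6 9 [5, 4, 3, 20] [148, 147, 144, 134,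
    124, 114] [32, 22, 10, 0, 0, 0] 100000 0 0 1433335 33333 0 66667 33333 0 33333 33333) (.S 4 6
    (.S 4 3 (.L 6 9 [5, 4, 3, 20] [134, 124, 114, 102, 0, 0] [46, 40, 30, 18, 0, 0] 100000 4546
    4546 1454546 40909 0 40909 0 0 31818 31818) (.L 6 9 [5, 4, 3, 20] [148, 147, 144, 134, 124,
    114] [46, 40, 30, 18, 0, 0] 100000 280000 0 0 90000 0 380000 0 0 0 0)) (.E 2)))) (.E 1)) (.E
    1)) (.L 6 9 [5, 4, 3, 20] [148, 147, 144, 134, 124, 114] [] 100000 0 0 1433335 33333 0 66667 0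
    0 33333 33333))) (.S 2 1 (.S 2 0 (.L 6 9 [5, 4, 3, 20] [173, 172, 171, 168, 158, 148] [] 100000
    21429 21429 1357143 42857 0 57143 57143 0 0 0) (.S 3 6 (.S 3 3 (.L 6 9 [5, 4, 3, 20] [173, 172,
    171, 168, 158, 148] [] 100000 9375 9375 1475000 37500 18750 56250 37500 0 18750 18750) (.S 3 5
    (.S 3 4 (.S 4 7 (.S 4 3 (.S 4 1 (.L 6 9 [5, 4, 3, 20] [138, 126, 0, 0, 0, 0] [54, 48, 42, 32,
    20, 0] 100000 0 0 1450000 50000 0 50000 25000 0 0 0) (.L 6 9 [5, 4, 3, 20] [158, 148, 138, 126,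
    0, 0] [54, 48, 42, 32, 20, 0] 100000 30770 30770 1369230 46154 0 100000 23077 0 0 0)) (.L 6 9
    [5, 4, 3, 20] [173, 172, 171, 168, 158, 148] [54, 48, 42, 32, 20, 0] 100000 200001 1 400000
    66667 0 300000 33333 0 0 0)) (.E 2)) (.E 1)) (.E 1))) (.E 1))) (.S 2 2 (.S 3 5 (.S 3 2 (.L 6 9
    [5, 4, 3, 20] [173, 172, 171, 168, 158, 148] [] 100000 7694 7694 1476924 38462 7692 57692 30769
    0 23077 23077) (.S 3 4 (.S 3 3 (.S 4 7 (.S 4 3 (.S 4 1 (.L 6 9 [5, 4, 3, 20] [138, 126, 0, 0,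
    0, 0] [46, 40, 30, 18, 0, 0] 100000 0 0 1450000 50000 0 50000 0 0 0 0) (.L 6 9 [5, 4, 3, 20]
    [158, 148, 138, 126, 0, 0] [46, 40, 30, 18, 0, 0] 100000 18750 18750 1381250 43750 0 100000 0 0
    6250 6250)) (.L 6 9 [5, 4, 3, 20] [173, 172, 171, 168, 158, 148] [46, 40, 30, 18, 0, 0] 100000
    278948 1 1 94737 0 378947 0 0 0 0)) (.E 2)) (.E 1)) (.E 1))) (.E 1)) (.L 6 9 [5, 4, 3, 20]
    [173, 172, 171, 168, 158, 148] [] 100000 8824 8824 1452944 41176 0 64706 0 0 23529 23529)))))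

lemma s20_20_9_3_14 {n : ℕ} (hn : 5 ≤ n) : NoNd (d20_20_9_3.R : ℤ) d20_20_9_3.H n d20_20_9_3.a d20_20_9_3.b
    (BlkD.inB (BlkD.upd (BlkD.upd (fun _ => 0) 0 5) 0 6)
      (BlkD.upd (BlkD.upd (BlkD.upd (BlkD.upd (BlkD.upd (BlkD.upd (fun _ => 20) 0 9) 2 3) 0 7) 0 6) 1 14) 1 7)) :=
  BlkD.tree_sound (BlkD.pairOk_sound k20_20_9_3) (by decide) hn t20_20_9_3_14 _ _ (by decide +kernel)

/-- certificates of the pair `(9, 3)`, part 15 -/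
def t20_20_9_3_15 : BlkD.Tr :=
  .S 1 11 (.S 1 9 (.S 1 8 (.S 2 1 (.S 2 0 (.L 6 9 [5, 4, 3, 20] [200, 199, 198, 197, 194, 184] []
    100000 20000 20000 1360000 40000 0 80000 60000 0 0 0) (.S 3 5 (.S 3 2 (.S 3 1 (.L 6 9 [5, 4, 3,
    20] [200, 199, 198, 197, 194, 184] [] 100000 20000 20000 1440000 40000 0 80000 0 0 0 0) (.S 4 8
    (.S 4 4 (.L 6 9 [5, 4, 3, 20] [194, 184, 174, 164, 152, 0] [28, 18, 6, 0, 0, 0] 100000 22500
    22500 1430000 45000 20000 95000 45000 0 5000 0) (.L 6 9 [5, 4, 3, 20] [200, 199, 198, 197, 194,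
    184] [28, 18, 6, 0, 0, 0] 100000 166668 1 566665 66667 0 266667 66667 0 0 0)) (.E 2))) (.S 3 4
    (.S 3 3 (.S 4 8 (.S 4 4 (.L 6 9 [5, 4, 3, 20] [194, 184, 174, 164, 152, 0] [40, 34, 24, 12, 0,
    0] 100000 28572 28572 1414286 57143 0 100000 28571 0 28571 0) (.L 6 9 [5, 4, 3, 20] [200, 199,
    198, 197, 194, 184] [40, 34, 24, 12, 0, 0] 100000 260000 0 0 90000 0 360000 90000 0 0 0)) (.E
    2)) (.S 4 8 (.S 4 4 (.L 6 9 [5, 4, 3, 20] [194, 184, 174, 164, 152, 0] [54, 48, 42, 32, 20, 0]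
    100000 22224 22224 1411108 55556 0 100000 5556 0 44444 11111) (.L 6 9 [5, 4, 3, 20] [200, 199,
    198, 197, 194, 184] [54, 48, 42, 32, 20, 0] 100000 280000 0 0 0 0 380000 0 0 0 0)) (.E 2))) (.E
    1))) (.E 1))) (.S 2 2 (.S 3 4 (.S 3 2 (.S 3 1 (.S 3 0 (.L 6 9 [5, 4, 3, 20] [200, 199, 198,
    197, 194, 184] [0, 0, 0, 0, 0, 0] 100000 20000 20000 1440000 40000 0 80000 0 0 0 0) (.S 4 8 (.S
    4 4 (.L 6 9 [5, 4, 3, 20] [194, 184, 174, 164, 152, 0] [16, 4, 0, 0, 0, 0] 100000 25000 25000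
    1400000 50000 0 100000 50000 0 0 0) (.L 6 9 [5, 4, 3, 20] [200, 199, 198, 197, 194, 184] [16,
    4, 0, 0, 0, 0] 100000 166668 1 566665 66667 0 266667 66667 0 0 0)) (.E 2))) (.L 6 9 [5, 4, 3,
    20] [200, 199, 198, 197, 194, 184] [32, 22, 10, 0, 0, 0] 100000 0 0 1490000 40000 0 70000 40000
    0 30000 10000)) (.S 3 3 (.S 4 8 (.S 4 4 (.L 6 9 [5, 4, 3, 20] [194, 184, 174, 164, 152, 0] [46,
    40, 30, 18, 0, 0] 100000 22224 22224 1411108 55556 0 100000 0 0 44444 11111) (.L 6 9 [5, 4, 3,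
    20] [200, 199, 198, 197, 194, 184] [46, 40, 30, 18, 0, 0] 100000 216668 1 0 105556 0 316667 0 0
    0 0)) (.E 2)) (.E 1))) (.E 1)) (.L 6 9 [5, 4, 3, 20] [200, 199, 198, 197, 194, 184] [] 100000
    18750 18750 1437500 43750 0 100000 0 0 37500 6250))) (.L 5 7 [4, 4, 4, 20] [229, 228, 227, 226,
    225, 222] [] 100000 73335 73335 1333332 66667 0 100000 40000 0 13333 26667)) (.S 1 10 (.L 5 7
    [4, 4, 4, 20] [260, 259, 258, 257, 256, 255] [] 100000 100000 100000 1250000 75000 0 100000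
    75000 0 0 0) (.L 5 7 [4, 4, 4, 20] [293, 292, 291, 290, 289, 288] [] 100000 166666 99999 833334
    133333 0 166667 0 0 0 0))) (.S 1 13 (.S 1 12 (.L 5 7 [4, 4, 4, 20] [328, 327, 326, 325, 324,
    323] [] 100000 283334 100001 0 191667 0 283333 0 0 0 0) (.E 0)) (.E 0))

lemma s20_20_9_3_15 {n : ℕ} (hn : 5 ≤ n) : NoNd (d20_20_9_3.R : ℤ) d20_20_9_3.H n d20_20_9_3.a d20_20_9_3.b
    (BlkD.inB (BlkD.upd (BlkD.upd (BlkD.upd (fun _ => 0) 0 5) 0 6) 1 8)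
      (BlkD.upd (BlkD.upd (BlkD.upd (BlkD.upd (BlkD.upd (fun _ => 20) 0 9) 2 3) 0 7) 0 6) 1 14)) :=
  BlkD.tree_sound (BlkD.pairOk_sound k20_20_9_3) (by decide) hn t20_20_9_3_15 _ _ (by decide +kernel)

/-- certificates of the pair `(9, 3)`, part 16 -/
def t20_20_9_3_16 : BlkD.Tr :=
  .E 0

lemma s20_20_9_3_16 {n : ℕ} (hn : 5 ≤ n) : NoNd (d20_20_9_3.R : ℤ) d20_20_9_3.H n d20_20_9_3.a d20_20_9_3.b
    (BlkD.inB (BlkD.upd (BlkD.upd (BlkD.upd (fun _ => 0) 0 5) 0 6) 1 15)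
      (BlkD.upd (BlkD.upd (BlkD.upd (BlkD.upd (fun _ => 20) 0 9) 2 3) 0 7) 0 6)) :=
  BlkD.tree_sound (BlkD.pairOk_sound k20_20_9_3) (by decide) hn t20_20_9_3_16 _ _ (by decide +kernel)

/-- certificates of the pair `(9, 3)`, part 17 -/
def t20_20_9_3_17 : BlkD.Tr :=
  .S 1 3 (.L 5 7 [4, 4, 4, 20] [] [] 100000 10000 10000 1380000 40000 0 40000 20000 0 20000 20000)
    (.S 1 5 (.S 1 4 (.S 2 1 (.S 2 0 (.L 5 7 [4, 4, 4, 20] [110, 100, 90, 80, 68, 0] [] 100000 0 0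
    1300000 0 0 0 100000 0 0 0) (.S 3 8 (.S 3 4 (.S 3 2 (.L 5 7 [4, 4, 4, 20] [110, 100, 90, 80,
    68, 0] [] 100000 0 0 1400000 0 0 0 0 0 0 0) (.S 3 3 (.L 5 7 [4, 4, 4, 20] [110, 100, 90, 80,
    68, 0] [40, 34, 24, 12, 0, 0] 100000 0 0 1425000 25000 0 50000 50000 0 25000 25000) (.L 6 9 [5,
    4, 3, 20] [110, 100, 90, 80, 68, 0] [54, 48, 42, 32, 20, 0] 100000 12500 12500 1400000 50000 0
    50000 25000 0 25000 25000))) (.E 1)) (.E 1))) (.L 6 9 [5, 4, 3, 20] [110, 100, 90, 80, 68, 0]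
    [] 100000 0 0 1440000 40000 0 40000 20000 0 40000 40000)) (.S 2 1 (.S 2 0 (.L 6 9 [5, 4, 3, 20]
    [135, 132, 122, 112, 102, 90] [] 100000 0 0 1400000 0 0 0 100000 0 0 0) (.S 3 7 (.S 3 3 (.L 6 9
    [5, 4, 3, 20] [135, 132, 122, 112, 102, 90] [] 100000 0 0 1466668 33333 33333 66667 33333 0
    33333 33333) (.S 3 5 (.S 3 4 (.S 4 5 (.S 4 2 (.L 6 9 [5, 4, 3, 20] [112, 102, 90, 0, 0, 0] [54,
    48, 42, 32, 20, 0] 100000 22727 22727 1427275 54545 0 72727 18182 0 54545 27273) (.L 6 9 [5, 4,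
    3, 20] [135, 132, 122, 112, 102, 90] [54, 48, 42, 32, 20, 0] 100000 40000 0 1200000 40000 0
    140000 20000 0 0 0)) (.E 2)) (.E 1)) (.E 1))) (.E 1))) (.S 2 2 (.S 3 6 (.S 3 3 (.S 3 1 (.L 6 9
    [5, 4, 3, 20] [135, 132, 122, 112, 102, 90] [] 100000 0 0 1466667 33333 0 33333 33333 0 33333
    33333) (.S 3 2 (.L 6 9 [5, 4, 3, 20] [135, 132, 122, 112, 102, 90] [32, 22, 10, 0, 0, 0] 100000
    4546 4546 1436364 40909 0 61364 40909 0 31818 31818) (.S 4 5 (.S 4 2 (.L 6 9 [5, 4, 3, 20]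
    [112, 102, 90, 0, 0, 0] [46, 40, 30, 18, 0, 0] 100000 28572 28572 1414285 57143 0 57143 0 0
    57143 28571) (.L 6 9 [5, 4, 3, 20] [135, 132, 122, 112, 102, 90] [46, 40, 30, 18, 0, 0] 100000
    50000 0 1150000 50000 0 150000 0 0 0 0)) (.E 2)))) (.E 1)) (.E 1)) (.L 6 9 [5, 4, 3, 20] [135,
    132, 122, 112, 102, 90] [] 100000 0 0 1460000 40000 0 40000 0 0 40000 40000)))) (.S 2 1 (.S 2 0
    (.L 6 9 [5, 4, 3, 20] [160, 159, 156, 146, 136, 126] [] 100000 16667 16667 1366667 33333 0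
    66667 66667 0 0 0) (.S 3 6 (.S 3 3 (.L 6 9 [5, 4, 3, 20] [160, 159, 156, 146, 136, 126] []
    100000 8173 8173 1478848 36538 18269 75000 38462 0 23077 20192) (.S 3 5 (.S 3 4 (.S 4 6 (.S 4 3
    (.L 6 9 [5, 4, 3, 20] [146, 136, 126, 114, 0, 0] [54, 48, 42, 32, 20, 0] 100000 26667 26667
    1406669 53333 13333 100000 26667 0 20000 0) (.L 6 9 [5, 4, 3, 20] [160, 159, 156, 146, 136,
    126] [54, 48, 42, 32, 20, 0] 100000 150000 0 650000 50000 50000 250000 50000 0 0 0)) (.E 2))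
    (.E 1)) (.E 1))) (.E 1))) (.S 2 2 (.S 3 5 (.S 3 2 (.L 6 9 [5, 4, 3, 20] [160, 159, 156, 146,
    136, 126] [] 100000 6864 6864 1476470 39216 0 84314 27451 0 27451 25490) (.S 3 4 (.S 3 3 (.S 4
    6 (.S 4 3 (.L 6 9 [5, 4, 3, 20] [146, 136, 126, 114, 0, 0] [46, 40, 30, 18, 0, 0] 100000 22224
    22224 1422220 55556 0 100000 0 0 22222 11111) (.L 6 9 [5, 4, 3, 20] [160, 159, 156, 146, 136,
    126] [46, 40, 30, 18, 0, 0] 100000 200000 0 400000 100000 0 300000 0 0 0 0)) (.E 2)) (.E 1))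
    (.E 1))) (.E 1)) (.L 6 9 [5, 4, 3, 20] [160, 159, 156, 146, 136, 126] [] 100000 18750 18750
    1425000 43750 0 100000 0 0 37500 6250))))

lemma s20_20_9_3_17 {n : ℕ} (hn : 5 ≤ n) : NoNd (d20_20_9_3.R : ℤ) d20_20_9_3.H n d20_20_9_3.a d20_20_9_3.b
    (BlkD.inB (BlkD.upd (BlkD.upd (fun _ => 0) 0 5) 0 7)
      (BlkD.upd (BlkD.upd (BlkD.upd (BlkD.upd (BlkD.upd (fun _ => 20) 0 9) 2 3) 0 7) 1 13) 1 6)) :=
  BlkD.tree_sound (BlkD.pairOk_sound k20_20_9_3) (by decide) hn t20_20_9_3_17 _ _ (by decide +kernel)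

/-- certificates of the pair `(9, 3)`, part 18 -/
def t20_20_9_3_18 : BlkD.Tr :=
  .S 1 10 (.S 1 8 (.S 1 7 (.S 2 1 (.S 2 0 (.L 6 9 [5, 4, 3, 20] [187, 186, 185, 182, 172, 162] []
    100000 25000 25000 1350000 50000 0 75000 50000 0 0 0) (.S 3 5 (.S 3 2 (.L 6 9 [5, 4, 3, 20]
    [187, 186, 185, 182, 172, 162] [] 100000 21429 21429 1442858 42857 0 85714 42857 0 0 0) (.S 3 4
    (.S 3 3 (.S 4 7 (.S 4 3 (.L 6 9 [5, 4, 3, 20] [172, 162, 152, 140, 0, 0] [40, 34, 24, 12, 0, 0]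
    100000 25000 25000 1400000 50000 0 100000 50000 0 0 0) (.L 6 9 [5, 4, 3, 20] [187, 186, 185,
    182, 172, 162] [40, 34, 24, 12, 0, 0] 100000 16667 16667 1366668 33333 0 100000 33333 0 0 0))
    (.E 2)) (.L 6 9 [5, 4, 3, 20] [187, 186, 185, 182, 172, 162] [54, 48, 42, 32, 20, 0] 100000
    40000 40000 1400000 60000 0 100000 0 0 0 0)) (.E 1))) (.E 1))) (.S 2 2 (.S 3 4 (.S 3 2 (.L 5 7
    [4, 4, 4, 20] [187, 186, 185, 182, 172, 162] [] 100000 50000 50000 1380000 60000 0 100000 20000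
    0 20000 20000) (.S 3 3 (.L 6 9 [5, 4, 3, 20] [187, 186, 185, 182, 172, 162] [46, 40, 30, 18, 0,
    0] 100000 40000 40000 1400000 60000 0 100000 0 0 0 0) (.E 1))) (.E 1)) (.L 6 9 [5, 4, 3, 20]
    [187, 186, 185, 182, 172, 162] [] 100000 25000 25000 1400000 50000 0 100000 0 0 0 0))) (.L 6 9
    [5, 4, 3, 20] [216, 215, 214, 213, 210, 200] [] 100000 25000 25000 1400000 50000 0 100000 50000
    0 0 0)) (.S 1 9 (.L 6 9 [5, 4, 3, 20] [247, 246, 245, 244, 243, 240] [] 100000 33334 33334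
    1333332 66667 0 100000 16667 0 0 0) (.E 0))) (.E 0)

lemma s20_20_9_3_18 {n : ℕ} (hn : 5 ≤ n) : NoNd (d20_20_9_3.R : ℤ) d20_20_9_3.H n d20_20_9_3.a d20_20_9_3.b
    (BlkD.inB (BlkD.upd (BlkD.upd (BlkD.upd (fun _ => 0) 0 5) 0 7) 1 7)
      (BlkD.upd (BlkD.upd (BlkD.upd (BlkD.upd (fun _ => 20) 0 9) 2 3) 0 7) 1 13)) :=
  BlkD.tree_sound (BlkD.pairOk_sound k20_20_9_3) (by decide) hn t20_20_9_3_18 _ _ (by decide +kernel)

/-- certificates of the pair `(9, 3)`, part 19 -/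
def t20_20_9_3_19 : BlkD.Tr :=
  .E 0

lemma s20_20_9_3_19 {n : ℕ} (hn : 5 ≤ n) : NoNd (d20_20_9_3.R : ℤ) d20_20_9_3.H n d20_20_9_3.a d20_20_9_3.b
    (BlkD.inB (BlkD.upd (BlkD.upd (BlkD.upd (fun _ => 0) 0 5) 0 7) 1 14)
      (BlkD.upd (BlkD.upd (BlkD.upd (fun _ => 20) 0 9) 2 3) 0 7)) :=
  BlkD.tree_sound (BlkD.pairOk_sound k20_20_9_3) (by decide) hn t20_20_9_3_19 _ _ (by decide +kernel)

/-- certificates of the pair `(9, 3)`, part 20 -/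
def t20_20_9_3_20 : BlkD.Tr :=
  .S 0 8 (.S 1 12 (.S 1 6 (.L 6 9 [5, 4, 3, 20] [] [] 100000 795 795 1487300 23810 0 82540 41270 0
    22222 22222) (.L 6 9 [5, 4, 3, 20] [] [] 100000 100000 0 900000 0 0 200000 50000 0 0 0)) (.E
    0)) (.L 6 9 [5, 4, 3, 20] [] [] 100000 0 0 1400000 0 0 100000 50000 0 0 0)

lemma s20_20_9_3_20 {n : ℕ} (hn : 5 ≤ n) : NoNd (d20_20_9_3.R : ℤ) d20_20_9_3.H n d20_20_9_3.a d20_20_9_3.b
    (BlkD.inB (BlkD.upd (BlkD.upd (fun _ => 0) 0 5) 0 8)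
      (BlkD.upd (BlkD.upd (fun _ => 20) 0 9) 2 3)) :=
  BlkD.tree_sound (BlkD.pairOk_sound k20_20_9_3) (by decide) hn t20_20_9_3_20 _ _ (by decide +kernel)

/-- certificates of the pair `(9, 3)`, part 21 -/
def t20_20_9_3_21 : BlkD.Tr :=
  .E 1

lemma s20_20_9_3_21 {n : ℕ} (hn : 5 ≤ n) : NoNd (d20_20_9_3.R : ℤ) d20_20_9_3.H n d20_20_9_3.a d20_20_9_3.b
    (BlkD.inB (BlkD.upd (fun _ => 0) 2 4)
      (BlkD.upd (fun _ => 20) 0 9)) :=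
  BlkD.tree_sound (BlkD.pairOk_sound k20_20_9_3) (by decide) hn t20_20_9_3_21 _ _ (by decide +kernel)

/-- certificates of the pair `(9, 3)`, part 22 -/
def t20_20_9_3_22 : BlkD.Tr :=
  .E 0

lemma s20_20_9_3_22 {n : ℕ} (hn : 5 ≤ n) : NoNd (d20_20_9_3.R : ℤ) d20_20_9_3.H n d20_20_9_3.a d20_20_9_3.b
    (BlkD.inB (BlkD.upd (fun _ => 0) 0 10)
      (fun _ => 20)) :=
  BlkD.tree_sound (BlkD.pairOk_sound k20_20_9_3) (by decide) hn t20_20_9_3_22 _ _ (by decide +kernel)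

lemma pr20_20_9_3 {n : ℕ} (hn : 5 ≤ n) : NoPr ((20 : ℕ) : ℤ) ((20 : ℕ) : ℤ) n 9 3 :=
  BlkD.of_root (R := d20_20_9_3.R) (H := d20_20_9_3.H) (a := d20_20_9_3.a) (b := d20_20_9_3.b) (q := 3) (by decide) hn
    (BlkD.sp 0 9 (BlkD.sp 2 3 (BlkD.sp 0 4 (BlkD.sp 0 2 (BlkD.sp 0 1 (s20_20_9_3_1 hn) (BlkD.sp 1
      10 (s20_20_9_3_2 hn) (s20_20_9_3_3 hn))) (BlkD.sp 0 3 (BlkD.sp 1 17 (BlkD.sp 1 8
      (s20_20_9_3_4 hn) (s20_20_9_3_5 hn)) (s20_20_9_3_6 hn)) (BlkD.sp 1 16 (BlkD.sp 1 8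
      (s20_20_9_3_7 hn) (s20_20_9_3_8 hn)) (s20_20_9_3_9 hn)))) (BlkD.sp 0 7 (BlkD.sp 0 6 (BlkD.sp
      0 5 (BlkD.sp 1 15 (BlkD.sp 1 7 (s20_20_9_3_10 hn) (BlkD.sp 1 11 (s20_20_9_3_11 hn)
      (s20_20_9_3_12 hn))) (s20_20_9_3_13 hn)) (BlkD.sp 1 14 (BlkD.sp 1 7 (s20_20_9_3_14 hn)
      (s20_20_9_3_15 hn)) (s20_20_9_3_16 hn))) (BlkD.sp 1 13 (BlkD.sp 1 6 (s20_20_9_3_17 hn)
      (s20_20_9_3_18 hn)) (s20_20_9_3_19 hn))) (s20_20_9_3_20 hn))) (s20_20_9_3_21 hn))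
      (s20_20_9_3_22 hn))

end BlkC

end Pool.Agent.Lib.MP_f04ccf_co
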