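import Pool.Agent.Lib.MP_f04ccf_co.M.BlkT

/-!
MP_f04ccf_co, block certificate, data `R = 20`, `H = 20`, part 14 (generated, helper99:
bd10.cpp, gen2.py).
-/

set_option autoImplicit false
set_option maxRecDepth 100000

namespace Pool.Agent.Lib.MP_f04ccf_co

namespace BlkC

/-- the numbers of the pair `(9, 4)`, `R = 20`, `H = 20` -/
def d20_20_9_4 : BlkD.Pd :=
  ⟨20, 20, 3, 9, 4, 4, 1, 3, 0, 4, 8, 0, 2, 2, 6, 0, [0, 8, 16, 16, 16], [0, 6, 12, 14, 16], [⟨1,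
    1, 1, 4, 8, [0, 4], [0, 4]⟩, ⟨1, 1, 1, 4, 14, [0, 8], [0, 6]⟩]⟩

lemma k20_20_9_4 : BlkD.pairOk d20_20_9_4 = true := by decide +kernel

/-- certificates of the pair `(9, 4)`, part 1 -/
def t20_20_9_4_1 : BlkD.Tr :=
  .L 6 9 [5, 3, 20, 20, 20] [] [] 100000 1 1 1533334 66667 33333 100000 66667 0 0 0

lemma s20_20_9_4_1 {n : ℕ} (hn : 5 ≤ n) : NoNd (d20_20_9_4.R : ℤ) d20_20_9_4.H n d20_20_9_4.a d20_20_9_4.b
    (BlkD.inB (fun _ => 0)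
      (BlkD.upd (BlkD.upd (BlkD.upd (BlkD.upd (BlkD.upd (fun _ => 20) 0 9) 2 4) 0 4) 0 2) 0 1)) :=
  BlkD.tree_sound (BlkD.pairOk_sound k20_20_9_4) (by decide) hn t20_20_9_4_1 _ _ (by decide +kernel)

/-- certificates of the pair `(9, 4)`, part 2 -/
def t20_20_9_4_2 : BlkD.Tr :=
  .L 6 9 [5, 3, 20, 20, 20] [] [] 100000 1 1 1533334 66667 33333 100000 66667 0 0 0

lemma s20_20_9_4_2 {n : ℕ} (hn : 5 ≤ n) : NoNd (d20_20_9_4.R : ℤ) d20_20_9_4.H n d20_20_9_4.a d20_20_9_4.b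
    (BlkD.inB (BlkD.upd (fun _ => 0) 0 2)
      (BlkD.upd (BlkD.upd (BlkD.upd (BlkD.upd (fun _ => 20) 0 9) 2 4) 0 4) 0 2)) :=
  BlkD.tree_sound (BlkD.pairOk_sound k20_20_9_4) (by decide) hn t20_20_9_4_2 _ _ (by decide +kernel)

/-- certificates of the pair `(9, 4)`, part 3 -/
def t20_20_9_4_3 : BlkD.Tr :=
  .L 6 9 [5, 3, 20, 20, 20] [] [] 100000 1 1 1533334 66667 33333 100000 66667 0 0 0

lemma s20_20_9_4_3 {n : ℕ} (hn : 5 ≤ n) : NoNd (d20_20_9_4.R : ℤ) d20_20_9_4.H n d20_20_9_4.a d20_20_9_4.b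
    (BlkD.inB (BlkD.upd (fun _ => 0) 0 3)
      (BlkD.upd (BlkD.upd (BlkD.upd (BlkD.upd (fun _ => 20) 0 9) 2 4) 0 4) 0 3)) :=
  BlkD.tree_sound (BlkD.pairOk_sound k20_20_9_4) (by decide) hn t20_20_9_4_3 _ _ (by decide +kernel)

/-- certificates of the pair `(9, 4)`, part 4 -/
def t20_20_9_4_4 : BlkD.Tr :=
  .S 1 5 (.L 6 9 [5, 3, 20, 20, 20] [] [] 100000 1 1 1533334 66667 33333 100000 66667 0 0 0) (.L 6
    9 [5, 3, 20, 20, 20] [] [] 100000 1 1 1533334 66667 33333 100000 66667 0 0 0)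

lemma s20_20_9_4_4 {n : ℕ} (hn : 5 ≤ n) : NoNd (d20_20_9_4.R : ℤ) d20_20_9_4.H n d20_20_9_4.a d20_20_9_4.b
    (BlkD.inB (BlkD.upd (BlkD.upd (fun _ => 0) 0 3) 0 4)
      (BlkD.upd (BlkD.upd (BlkD.upd (BlkD.upd (fun _ => 20) 0 9) 2 4) 0 4) 1 10)) :=
  BlkD.tree_sound (BlkD.pairOk_sound k20_20_9_4) (by decide) hn t20_20_9_4_4 _ _ (by decide +kernel)

/-- certificates of the pair `(9, 4)`, part 5 -/
def t20_20_9_4_5 : BlkD.Tr :=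
  .L 6 9 [5, 3, 20, 20, 20] [] [] 100000 1 1 1533334 66667 33333 100000 66667 0 0 0

lemma s20_20_9_4_5 {n : ℕ} (hn : 5 ≤ n) : NoNd (d20_20_9_4.R : ℤ) d20_20_9_4.H n d20_20_9_4.a d20_20_9_4.b
    (BlkD.inB (BlkD.upd (BlkD.upd (BlkD.upd (fun _ => 0) 0 3) 0 4) 1 11)
      (BlkD.upd (BlkD.upd (BlkD.upd (fun _ => 20) 0 9) 2 4) 0 4)) :=
  BlkD.tree_sound (BlkD.pairOk_sound k20_20_9_4) (by decide) hn t20_20_9_4_5 _ _ (by decide +kernel)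

/-- certificates of the pair `(9, 4)`, part 6 -/
def t20_20_9_4_6 : BlkD.Tr :=
  .S 1 5 (.L 6 9 [5, 3, 20, 20, 20] [] [] 100000 1 1 1533334 66667 33333 100000 66667 0 0 0) (.L 6
    9 [5, 3, 20, 20, 20] [] [] 100000 1 1 1533334 66667 33333 100000 66667 0 0 0)

lemma s20_20_9_4_6 {n : ℕ} (hn : 5 ≤ n) : NoNd (d20_20_9_4.R : ℤ) d20_20_9_4.H n d20_20_9_4.a d20_20_9_4.b
    (BlkD.inB (BlkD.upd (fun _ => 0) 0 5)
      (BlkD.upd (BlkD.upd (BlkD.upd (BlkD.upd (BlkD.upd (BlkD.upd (fun _ => 20) 0 9) 2 4) 0 7) 0 6) 0 5) 1 10)) :=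
  BlkD.tree_sound (BlkD.pairOk_sound k20_20_9_4) (by decide) hn t20_20_9_4_6 _ _ (by decide +kernel)

/-- certificates of the pair `(9, 4)`, part 7 -/
def t20_20_9_4_7 : BlkD.Tr :=
  .L 6 9 [5, 3, 20, 20, 20] [] [] 100000 1 1 1533334 66667 33333 100000 66667 0 0 0

lemma s20_20_9_4_7 {n : ℕ} (hn : 5 ≤ n) : NoNd (d20_20_9_4.R : ℤ) d20_20_9_4.H n d20_20_9_4.a d20_20_9_4.b
    (BlkD.inB (BlkD.upd (BlkD.upd (fun _ => 0) 0 5) 1 11)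
      (BlkD.upd (BlkD.upd (BlkD.upd (BlkD.upd (BlkD.upd (fun _ => 20) 0 9) 2 4) 0 7) 0 6) 0 5)) :=
  BlkD.tree_sound (BlkD.pairOk_sound k20_20_9_4) (by decide) hn t20_20_9_4_7 _ _ (by decide +kernel)

/-- certificates of the pair `(9, 4)`, part 8 -/
def t20_20_9_4_8 : BlkD.Tr :=
  .S 1 10 (.S 1 5 (.L 6 9 [5, 3, 20, 20, 20] [] [] 100000 1 1 1533334 66667 33333 100000 66667 0 0
    0) (.L 6 9 [5, 3, 20, 20, 20] [] [] 100000 1 1 1533334 66667 33333 100000 66667 0 0 0)) (.L 6 9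
    [5, 3, 20, 20, 20] [] [] 100000 1 1 1533334 66667 33333 100000 66667 0 0 0)

lemma s20_20_9_4_8 {n : ℕ} (hn : 5 ≤ n) : NoNd (d20_20_9_4.R : ℤ) d20_20_9_4.H n d20_20_9_4.a d20_20_9_4.b
    (BlkD.inB (BlkD.upd (BlkD.upd (fun _ => 0) 0 5) 0 6)
      (BlkD.upd (BlkD.upd (BlkD.upd (BlkD.upd (fun _ => 20) 0 9) 2 4) 0 7) 0 6)) :=
  BlkD.tree_sound (BlkD.pairOk_sound k20_20_9_4) (by decide) hn t20_20_9_4_8 _ _ (by decide +kernel)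

/-- certificates of the pair `(9, 4)`, part 9 -/
def t20_20_9_4_9 : BlkD.Tr :=
  .L 6 9 [5, 3, 20, 20, 20] [] [] 100000 1 1 1533334 66667 33333 100000 66667 0 0 0

lemma s20_20_9_4_9 {n : ℕ} (hn : 5 ≤ n) : NoNd (d20_20_9_4.R : ℤ) d20_20_9_4.H n d20_20_9_4.a d20_20_9_4.b
    (BlkD.inB (BlkD.upd (BlkD.upd (fun _ => 0) 0 5) 0 7)
      (BlkD.upd (BlkD.upd (BlkD.upd (fun _ => 20) 0 9) 2 4) 0 7)) :=
  BlkD.tree_sound (BlkD.pairOk_sound k20_20_9_4) (by decide) hn t20_20_9_4_9 _ _ (by decide +kernel)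

/-- certificates of the pair `(9, 4)`, part 10 -/
def t20_20_9_4_10 : BlkD.Tr :=
  .L 6 9 [5, 3, 20, 20, 20] [] [] 100000 1 1 1533334 66667 33333 100000 66667 0 0 0

lemma s20_20_9_4_10 {n : ℕ} (hn : 5 ≤ n) : NoNd (d20_20_9_4.R : ℤ) d20_20_9_4.H n d20_20_9_4.a d20_20_9_4.b
    (BlkD.inB (BlkD.upd (BlkD.upd (fun _ => 0) 0 5) 0 8)
      (BlkD.upd (BlkD.upd (fun _ => 20) 0 9) 2 4)) :=
  BlkD.tree_sound (BlkD.pairOk_sound k20_20_9_4) (by decide) hn t20_20_9_4_10 _ _ (by decide +kernel)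

/-- certificates of the pair `(9, 4)`, part 11 -/
def t20_20_9_4_11 : BlkD.Tr :=
  .E 1

lemma s20_20_9_4_11 {n : ℕ} (hn : 5 ≤ n) : NoNd (d20_20_9_4.R : ℤ) d20_20_9_4.H n d20_20_9_4.a d20_20_9_4.b
    (BlkD.inB (BlkD.upd (fun _ => 0) 2 5)
      (BlkD.upd (fun _ => 20) 0 9)) :=
  BlkD.tree_sound (BlkD.pairOk_sound k20_20_9_4) (by decide) hn t20_20_9_4_11 _ _ (by decide +kernel)

/-- certificates of the pair `(9, 4)`, part 12 -/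
def t20_20_9_4_12 : BlkD.Tr :=
  .E 0

lemma s20_20_9_4_12 {n : ℕ} (hn : 5 ≤ n) : NoNd (d20_20_9_4.R : ℤ) d20_20_9_4.H n d20_20_9_4.a d20_20_9_4.b
    (BlkD.inB (BlkD.upd (fun _ => 0) 0 10)
      (fun _ => 20)) :=
  BlkD.tree_sound (BlkD.pairOk_sound k20_20_9_4) (by decide) hn t20_20_9_4_12 _ _ (by decide +kernel)

lemma pr20_20_9_4 {n : ℕ} (hn : 5 ≤ n) : NoPr ((20 : ℕ) : ℤ) ((20 : ℕ) : ℤ) n 9 4 :=
  BlkD.of_root (R := d20_20_9_4.R) (H := d20_20_9_4.H) (a := d20_20_9_4.a) (b := d20_20_9_4.b) (q := 3) (by decide) hn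
    (BlkD.sp 0 9 (BlkD.sp 2 4 (BlkD.sp 0 4 (BlkD.sp 0 2 (BlkD.sp 0 1 (s20_20_9_4_1 hn)
      (s20_20_9_4_2 hn)) (BlkD.sp 0 3 (s20_20_9_4_3 hn) (BlkD.sp 1 10 (s20_20_9_4_4 hn)
      (s20_20_9_4_5 hn)))) (BlkD.sp 0 7 (BlkD.sp 0 6 (BlkD.sp 0 5 (BlkD.sp 1 10 (s20_20_9_4_6 hn)
      (s20_20_9_4_7 hn)) (s20_20_9_4_8 hn)) (s20_20_9_4_9 hn)) (s20_20_9_4_10 hn))) (s20_20_9_4_11
      hn)) (s20_20_9_4_12 hn))

/-- the numbers of the pair `(9, 5)`, `R = 20`, `H = 20` -/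
def d20_20_9_5 : BlkD.Pd :=
  ⟨20, 20, 3, 9, 5, 3, 0, 4, 0, 4, 4, 0, 0, 4, 4, 0, [0, 4, 8, 12], [0, 4, 8, 12], [⟨1, 1, 1, 4, 8,
    [0, 4], [0, 4]⟩]⟩

lemma k20_20_9_5 : BlkD.pairOk d20_20_9_5 = true := by decide +kernel

/-- certificates of the pair `(9, 5)`, part 1 -/
def t20_20_9_5_1 : BlkD.Tr :=
  .L 4 4 [4, 20, 20, 20, 20, 20] [] [] 100000 0 0 1600000 100000 50000 100000 50000 0 0 0

lemma s20_20_9_5_1 {n : ℕ} (hn : 5 ≤ n) : NoNd (d20_20_9_5.R : ℤ) d20_20_9_5.H n d20_20_9_5.a d20_20_9_5.b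
    (BlkD.inB (fun _ => 0)
      (BlkD.upd (BlkD.upd (BlkD.upd (BlkD.upd (BlkD.upd (fun _ => 20) 0 9) 2 5) 0 4) 0 2) 0 1)) :=
  BlkD.tree_sound (BlkD.pairOk_sound k20_20_9_5) (by decide) hn t20_20_9_5_1 _ _ (by decide +kernel)

/-- certificates of the pair `(9, 5)`, part 2 -/
def t20_20_9_5_2 : BlkD.Tr :=
  .S 1 10 (.L 4 4 [4, 20, 20, 20, 20, 20] [] [] 100000 0 0 1600000 100000 50000 100000 50000 0 0 0)
    (.L 4 4 [4, 20, 20, 20, 20, 20] [] [] 100000 0 0 1600000 100000 50000 100000 50000 0 0 0)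

lemma s20_20_9_5_2 {n : ℕ} (hn : 5 ≤ n) : NoNd (d20_20_9_5.R : ℤ) d20_20_9_5.H n d20_20_9_5.a d20_20_9_5.b
    (BlkD.inB (BlkD.upd (fun _ => 0) 0 2)
      (BlkD.upd (BlkD.upd (BlkD.upd (BlkD.upd (fun _ => 20) 0 9) 2 5) 0 4) 0 2)) :=
  BlkD.tree_sound (BlkD.pairOk_sound k20_20_9_5) (by decide) hn t20_20_9_5_2 _ _ (by decide +kernel)

/-- certificates of the pair `(9, 5)`, part 3 -/
def t20_20_9_5_3 : BlkD.Tr :=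
  .S 1 5 (.L 4 4 [4, 20, 20, 20, 20, 20] [] [] 100000 0 0 1600000 100000 50000 100000 50000 0 0 0)
    (.L 4 4 [4, 20, 20, 20, 20, 20] [] [] 100000 0 0 1600000 100000 50000 100000 50000 0 0 0)

lemma s20_20_9_5_3 {n : ℕ} (hn : 5 ≤ n) : NoNd (d20_20_9_5.R : ℤ) d20_20_9_5.H n d20_20_9_5.a d20_20_9_5.b
    (BlkD.inB (BlkD.upd (fun _ => 0) 0 3)
      (BlkD.upd (BlkD.upd (BlkD.upd (BlkD.upd (BlkD.upd (fun _ => 20) 0 9) 2 5) 0 4) 0 3) 1 10)) :=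
  BlkD.tree_sound (BlkD.pairOk_sound k20_20_9_5) (by decide) hn t20_20_9_5_3 _ _ (by decide +kernel)

/-- certificates of the pair `(9, 5)`, part 4 -/
def t20_20_9_5_4 : BlkD.Tr :=
  .L 4 4 [4, 20, 20, 20, 20, 20] [] [] 100000 0 0 1600000 100000 50000 100000 50000 0 0 0

lemma s20_20_9_5_4 {n : ℕ} (hn : 5 ≤ n) : NoNd (d20_20_9_5.R : ℤ) d20_20_9_5.H n d20_20_9_5.a d20_20_9_5.b
    (BlkD.inB (BlkD.upd (BlkD.upd (fun _ => 0) 0 3) 1 11)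
      (BlkD.upd (BlkD.upd (BlkD.upd (BlkD.upd (fun _ => 20) 0 9) 2 5) 0 4) 0 3)) :=
  BlkD.tree_sound (BlkD.pairOk_sound k20_20_9_5) (by decide) hn t20_20_9_5_4 _ _ (by decide +kernel)

/-- certificates of the pair `(9, 5)`, part 5 -/
def t20_20_9_5_5 : BlkD.Tr :=
  .L 4 4 [4, 20, 20, 20, 20, 20] [] [] 100000 0 0 1600000 100000 50000 100000 50000 0 0 0

lemma s20_20_9_5_5 {n : ℕ} (hn : 5 ≤ n) : NoNd (d20_20_9_5.R : ℤ) d20_20_9_5.H n d20_20_9_5.a d20_20_9_5.b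
    (BlkD.inB (BlkD.upd (BlkD.upd (fun _ => 0) 0 3) 0 4)
      (BlkD.upd (BlkD.upd (BlkD.upd (BlkD.upd (BlkD.upd (fun _ => 20) 0 9) 2 5) 0 4) 1 10) 1 5)) :=
  BlkD.tree_sound (BlkD.pairOk_sound k20_20_9_5) (by decide) hn t20_20_9_5_5 _ _ (by decide +kernel)

/-- certificates of the pair `(9, 5)`, part 6 -/
def t20_20_9_5_6 : BlkD.Tr :=
  .L 4 4 [4, 20, 20, 20, 20, 20] [] [] 100000 0 0 1600000 100000 50000 100000 50000 0 0 0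

lemma s20_20_9_5_6 {n : ℕ} (hn : 5 ≤ n) : NoNd (d20_20_9_5.R : ℤ) d20_20_9_5.H n d20_20_9_5.a d20_20_9_5.b
    (BlkD.inB (BlkD.upd (BlkD.upd (BlkD.upd (fun _ => 0) 0 3) 0 4) 1 6)
      (BlkD.upd (BlkD.upd (BlkD.upd (BlkD.upd (BlkD.upd (fun _ => 20) 0 9) 2 5) 0 4) 1 10) 1 8)) :=
  BlkD.tree_sound (BlkD.pairOk_sound k20_20_9_5) (by decide) hn t20_20_9_5_6 _ _ (by decide +kernel)

/-- certificates of the pair `(9, 5)`, part 7 -/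
def t20_20_9_5_7 : BlkD.Tr :=
  .S 1 9 (.L 4 4 [4, 20, 20, 20, 20, 20] [208, 208, 208, 204, 200, 196] [] 100000 0 0 1600000
    100000 50000 100000 50000 0 0 0) (.L 4 4 [4, 20, 20, 20, 20, 20] [234, 234, 234, 234, 230, 226]
    [] 100000 0 0 1600000 100000 50000 100000 50000 0 0 0)

lemma s20_20_9_5_7 {n : ℕ} (hn : 5 ≤ n) : NoNd (d20_20_9_5.R : ℤ) d20_20_9_5.H n d20_20_9_5.a d20_20_9_5.b
    (BlkD.inB (BlkD.upd (BlkD.upd (BlkD.upd (BlkD.upd (fun _ => 0) 0 3) 0 4) 1 6) 1 9)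
      (BlkD.upd (BlkD.upd (BlkD.upd (BlkD.upd (fun _ => 20) 0 9) 2 5) 0 4) 1 10)) :=
  BlkD.tree_sound (BlkD.pairOk_sound k20_20_9_5) (by decide) hn t20_20_9_5_7 _ _ (by decide +kernel)

/-- certificates of the pair `(9, 5)`, part 8 -/
def t20_20_9_5_8 : BlkD.Tr :=
  .L 4 4 [4, 20, 20, 20, 20, 20] [] [] 100000 0 0 1600000 100000 50000 100000 50000 0 0 0

lemma s20_20_9_5_8 {n : ℕ} (hn : 5 ≤ n) : NoNd (d20_20_9_5.R : ℤ) d20_20_9_5.H n d20_20_9_5.a d20_20_9_5.b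
    (BlkD.inB (BlkD.upd (BlkD.upd (BlkD.upd (fun _ => 0) 0 3) 0 4) 1 11)
      (BlkD.upd (BlkD.upd (BlkD.upd (fun _ => 20) 0 9) 2 5) 0 4)) :=
  BlkD.tree_sound (BlkD.pairOk_sound k20_20_9_5) (by decide) hn t20_20_9_5_8 _ _ (by decide +kernel)

/-- certificates of the pair `(9, 5)`, part 9 -/
def t20_20_9_5_9 : BlkD.Tr :=
  .L 4 4 [4, 20, 20, 20, 20, 20] [] [] 100000 0 0 1600000 100000 50000 100000 50000 0 0 0

lemma s20_20_9_5_9 {n : ℕ} (hn : 5 ≤ n) : NoNd (d20_20_9_5.R : ℤ) d20_20_9_5.H n d20_20_9_5.a d20_20_9_5.b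
    (BlkD.inB (BlkD.upd (fun _ => 0) 0 5)
      (BlkD.upd (BlkD.upd (BlkD.upd (BlkD.upd (BlkD.upd (BlkD.upd (BlkD.upd (fun _ => 20) 0 9) 2 5) 0 7) 0 6) 0 5) 1 10) 1 5)) :=
  BlkD.tree_sound (BlkD.pairOk_sound k20_20_9_5) (by decide) hn t20_20_9_5_9 _ _ (by decide +kernel)

/-- certificates of the pair `(9, 5)`, part 10 -/
def t20_20_9_5_10 : BlkD.Tr :=
  .S 1 7 (.L 4 4 [4, 20, 20, 20, 20, 20] [] [] 100000 0 0 1600000 100000 50000 100000 50000 0 0 0)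
    (.L 4 4 [4, 20, 20, 20, 20, 20] [200, 200, 196, 192, 188, 178] [] 100000 0 0 1600000 100000
    50000 100000 50000 0 0 0)

lemma s20_20_9_5_10 {n : ℕ} (hn : 5 ≤ n) : NoNd (d20_20_9_5.R : ℤ) d20_20_9_5.H n d20_20_9_5.a d20_20_9_5.b
    (BlkD.inB (BlkD.upd (BlkD.upd (fun _ => 0) 0 5) 1 6)
      (BlkD.upd (BlkD.upd (BlkD.upd (BlkD.upd (BlkD.upd (BlkD.upd (BlkD.upd (fun _ => 20) 0 9) 2 5) 0 7) 0 6) 0 5) 1 10) 1 8)) :=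
  BlkD.tree_sound (BlkD.pairOk_sound k20_20_9_5) (by decide) hn t20_20_9_5_10 _ _ (by decide +kernel)

/-- certificates of the pair `(9, 5)`, part 11 -/
def t20_20_9_5_11 : BlkD.Tr :=
  .S 1 9 (.L 4 4 [4, 20, 20, 20, 20, 20] [226, 226, 226, 222, 218, 214] [] 100000 0 0 1600000
    100000 50000 100000 50000 0 0 0) (.L 4 4 [4, 20, 20, 20, 20, 20] [254, 254, 254, 254, 250, 246]
    [] 100000 0 0 1600000 100000 50000 100000 50000 0 0 0)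

lemma s20_20_9_5_11 {n : ℕ} (hn : 5 ≤ n) : NoNd (d20_20_9_5.R : ℤ) d20_20_9_5.H n d20_20_9_5.a d20_20_9_5.b
    (BlkD.inB (BlkD.upd (BlkD.upd (BlkD.upd (fun _ => 0) 0 5) 1 6) 1 9)
      (BlkD.upd (BlkD.upd (BlkD.upd (BlkD.upd (BlkD.upd (BlkD.upd (fun _ => 20) 0 9) 2 5) 0 7) 0 6) 0 5) 1 10)) :=
  BlkD.tree_sound (BlkD.pairOk_sound k20_20_9_5) (by decide) hn t20_20_9_5_11 _ _ (by decide +kernel)

/-- certificates of the pair `(9, 5)`, part 12 -/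
def t20_20_9_5_12 : BlkD.Tr :=
  .L 4 4 [4, 20, 20, 20, 20, 20] [] [] 100000 0 0 1600000 100000 50000 100000 50000 0 0 0

lemma s20_20_9_5_12 {n : ℕ} (hn : 5 ≤ n) : NoNd (d20_20_9_5.R : ℤ) d20_20_9_5.H n d20_20_9_5.a d20_20_9_5.b
    (BlkD.inB (BlkD.upd (BlkD.upd (fun _ => 0) 0 5) 1 11)
      (BlkD.upd (BlkD.upd (BlkD.upd (BlkD.upd (BlkD.upd (fun _ => 20) 0 9) 2 5) 0 7) 0 6) 0 5)) :=
  BlkD.tree_sound (BlkD.pairOk_sound k20_20_9_5) (by decide) hn t20_20_9_5_12 _ _ (by decide +kernel)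

/-- certificates of the pair `(9, 5)`, part 13 -/
def t20_20_9_5_13 : BlkD.Tr :=
  .L 4 4 [4, 20, 20, 20, 20, 20] [] [] 100000 0 0 1600000 100000 50000 100000 50000 0 0 0

lemma s20_20_9_5_13 {n : ℕ} (hn : 5 ≤ n) : NoNd (d20_20_9_5.R : ℤ) d20_20_9_5.H n d20_20_9_5.a d20_20_9_5.b
    (BlkD.inB (BlkD.upd (BlkD.upd (fun _ => 0) 0 5) 0 6)
      (BlkD.upd (BlkD.upd (BlkD.upd (BlkD.upd (BlkD.upd (BlkD.upd (fun _ => 20) 0 9) 2 5) 0 7) 0 6) 1 10) 1 5)) :=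
  BlkD.tree_sound (BlkD.pairOk_sound k20_20_9_5) (by decide) hn t20_20_9_5_13 _ _ (by decide +kernel)

/-- certificates of the pair `(9, 5)`, part 14 -/
def t20_20_9_5_14 : BlkD.Tr :=
  .L 4 4 [4, 20, 20, 20, 20, 20] [] [] 100000 0 0 1600000 100000 50000 100000 50000 0 0 0

lemma s20_20_9_5_14 {n : ℕ} (hn : 5 ≤ n) : NoNd (d20_20_9_5.R : ℤ) d20_20_9_5.H n d20_20_9_5.a d20_20_9_5.b
    (BlkD.inB (BlkD.upd (BlkD.upd (BlkD.upd (fun _ => 0) 0 5) 0 6) 1 6)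
      (BlkD.upd (BlkD.upd (BlkD.upd (BlkD.upd (BlkD.upd (BlkD.upd (BlkD.upd (fun _ => 20) 0 9) 2 5) 0 7) 0 6) 1 10) 1 8) 1 7)) :=
  BlkD.tree_sound (BlkD.pairOk_sound k20_20_9_5) (by decide) hn t20_20_9_5_14 _ _ (by decide +kernel)

/-- certificates of the pair `(9, 5)`, part 15 -/
def t20_20_9_5_15 : BlkD.Tr :=
  .L 4 4 [4, 20, 20, 20, 20, 20] [216, 216, 212, 208, 204, 194] [] 100000 0 0 1600000 100000 50000
    100000 50000 0 0 0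

lemma s20_20_9_5_15 {n : ℕ} (hn : 5 ≤ n) : NoNd (d20_20_9_5.R : ℤ) d20_20_9_5.H n d20_20_9_5.a d20_20_9_5.b
    (BlkD.inB (BlkD.upd (BlkD.upd (BlkD.upd (BlkD.upd (fun _ => 0) 0 5) 0 6) 1 6) 1 8)
      (BlkD.upd (BlkD.upd (BlkD.upd (BlkD.upd (BlkD.upd (BlkD.upd (fun _ => 20) 0 9) 2 5) 0 7) 0 6) 1 10) 1 8)) :=
  BlkD.tree_sound (BlkD.pairOk_sound k20_20_9_5) (by decide) hn t20_20_9_5_15 _ _ (by decide +kernel)

/-- certificates of the pair `(9, 5)`, part 16 -/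
def t20_20_9_5_16 : BlkD.Tr :=
  .L 4 4 [4, 20, 20, 20, 20, 20] [] [] 100000 0 0 1600000 100000 50000 100000 50000 0 0 0

lemma s20_20_9_5_16 {n : ℕ} (hn : 5 ≤ n) : NoNd (d20_20_9_5.R : ℤ) d20_20_9_5.H n d20_20_9_5.a d20_20_9_5.b
    (BlkD.inB (BlkD.upd (BlkD.upd (BlkD.upd (BlkD.upd (fun _ => 0) 0 5) 0 6) 1 6) 1 9)
      (BlkD.upd (BlkD.upd (BlkD.upd (BlkD.upd (BlkD.upd (fun _ => 20) 0 9) 2 5) 0 7) 0 6) 1 10)) :=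
  BlkD.tree_sound (BlkD.pairOk_sound k20_20_9_5) (by decide) hn t20_20_9_5_16 _ _ (by decide +kernel)

/-- certificates of the pair `(9, 5)`, part 17 -/
def t20_20_9_5_17 : BlkD.Tr :=
  .L 4 4 [4, 20, 20, 20, 20, 20] [] [] 100000 0 0 1600000 100000 50000 100000 50000 0 0 0

lemma s20_20_9_5_17 {n : ℕ} (hn : 5 ≤ n) : NoNd (d20_20_9_5.R : ℤ) d20_20_9_5.H n d20_20_9_5.a d20_20_9_5.b
    (BlkD.inB (BlkD.upd (BlkD.upd (BlkD.upd (fun _ => 0) 0 5) 0 6) 1 11)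
      (BlkD.upd (BlkD.upd (BlkD.upd (BlkD.upd (fun _ => 20) 0 9) 2 5) 0 7) 0 6)) :=
  BlkD.tree_sound (BlkD.pairOk_sound k20_20_9_5) (by decide) hn t20_20_9_5_17 _ _ (by decide +kernel)

/-- certificates of the pair `(9, 5)`, part 18 -/
def t20_20_9_5_18 : BlkD.Tr :=
  .L 4 4 [4, 20, 20, 20, 20, 20] [] [] 100000 0 0 1600000 100000 50000 100000 50000 0 0 0

lemma s20_20_9_5_18 {n : ℕ} (hn : 5 ≤ n) : NoNd (d20_20_9_5.R : ℤ) d20_20_9_5.H n d20_20_9_5.a d20_20_9_5.b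
    (BlkD.inB (BlkD.upd (BlkD.upd (fun _ => 0) 0 5) 0 7)
      (BlkD.upd (BlkD.upd (BlkD.upd (BlkD.upd (BlkD.upd (fun _ => 20) 0 9) 2 5) 0 7) 1 10) 1 5)) :=
  BlkD.tree_sound (BlkD.pairOk_sound k20_20_9_5) (by decide) hn t20_20_9_5_18 _ _ (by decide +kernel)

/-- certificates of the pair `(9, 5)`, part 19 -/
def t20_20_9_5_19 : BlkD.Tr :=
  .L 4 4 [4, 20, 20, 20, 20, 20] [] [] 100000 0 0 1600000 100000 50000 100000 50000 0 0 0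

lemma s20_20_9_5_19 {n : ℕ} (hn : 5 ≤ n) : NoNd (d20_20_9_5.R : ℤ) d20_20_9_5.H n d20_20_9_5.a d20_20_9_5.b
    (BlkD.inB (BlkD.upd (BlkD.upd (BlkD.upd (fun _ => 0) 0 5) 0 7) 1 6)
      (BlkD.upd (BlkD.upd (BlkD.upd (BlkD.upd (fun _ => 20) 0 9) 2 5) 0 7) 1 10)) :=
  BlkD.tree_sound (BlkD.pairOk_sound k20_20_9_5) (by decide) hn t20_20_9_5_19 _ _ (by decide +kernel)

/-- certificates of the pair `(9, 5)`, part 20 -/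
def t20_20_9_5_20 : BlkD.Tr :=
  .L 4 4 [4, 20, 20, 20, 20, 20] [] [] 100000 0 0 1600000 100000 50000 100000 50000 0 0 0

lemma s20_20_9_5_20 {n : ℕ} (hn : 5 ≤ n) : NoNd (d20_20_9_5.R : ℤ) d20_20_9_5.H n d20_20_9_5.a d20_20_9_5.b
    (BlkD.inB (BlkD.upd (BlkD.upd (BlkD.upd (fun _ => 0) 0 5) 0 7) 1 11)
      (BlkD.upd (BlkD.upd (BlkD.upd (fun _ => 20) 0 9) 2 5) 0 7)) :=
  BlkD.tree_sound (BlkD.pairOk_sound k20_20_9_5) (by decide) hn t20_20_9_5_20 _ _ (by decide +kernel)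

/-- certificates of the pair `(9, 5)`, part 21 -/
def t20_20_9_5_21 : BlkD.Tr :=
  .L 4 4 [4, 20, 20, 20, 20, 20] [] [] 100000 0 0 1600000 100000 50000 100000 50000 0 0 0

lemma s20_20_9_5_21 {n : ℕ} (hn : 5 ≤ n) : NoNd (d20_20_9_5.R : ℤ) d20_20_9_5.H n d20_20_9_5.a d20_20_9_5.b
    (BlkD.inB (BlkD.upd (BlkD.upd (fun _ => 0) 0 5) 0 8)
      (BlkD.upd (BlkD.upd (fun _ => 20) 0 9) 2 5)) :=
  BlkD.tree_sound (BlkD.pairOk_sound k20_20_9_5) (by decide) hn t20_20_9_5_21 _ _ (by decide +kernel)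

/-- certificates of the pair `(9, 5)`, part 22 -/
def t20_20_9_5_22 : BlkD.Tr :=
  .E 1

lemma s20_20_9_5_22 {n : ℕ} (hn : 5 ≤ n) : NoNd (d20_20_9_5.R : ℤ) d20_20_9_5.H n d20_20_9_5.a d20_20_9_5.b
    (BlkD.inB (BlkD.upd (fun _ => 0) 2 6)
      (BlkD.upd (fun _ => 20) 0 9)) :=
  BlkD.tree_sound (BlkD.pairOk_sound k20_20_9_5) (by decide) hn t20_20_9_5_22 _ _ (by decide +kernel)

/-- certificates of the pair `(9, 5)`, part 23 -/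
def t20_20_9_5_23 : BlkD.Tr :=
  .E 0

lemma s20_20_9_5_23 {n : ℕ} (hn : 5 ≤ n) : NoNd (d20_20_9_5.R : ℤ) d20_20_9_5.H n d20_20_9_5.a d20_20_9_5.b
    (BlkD.inB (BlkD.upd (fun _ => 0) 0 10)
      (fun _ => 20)) :=
  BlkD.tree_sound (BlkD.pairOk_sound k20_20_9_5) (by decide) hn t20_20_9_5_23 _ _ (by decide +kernel)

lemma pr20_20_9_5 {n : ℕ} (hn : 5 ≤ n) : NoPr ((20 : ℕ) : ℤ) ((20 : ℕ) : ℤ) n 9 5 :=
  BlkD.of_root (R := d20_20_9_5.R) (H := d20_20_9_5.H) (a := d20_20_9_5.a) (b := d20_20_9_5.b) (q := 3) (by decide) hn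
    (BlkD.sp 0 9 (BlkD.sp 2 5 (BlkD.sp 0 4 (BlkD.sp 0 2 (BlkD.sp 0 1 (s20_20_9_5_1 hn)
      (s20_20_9_5_2 hn)) (BlkD.sp 0 3 (BlkD.sp 1 10 (s20_20_9_5_3 hn) (s20_20_9_5_4 hn)) (BlkD.sp 1
      10 (BlkD.sp 1 5 (s20_20_9_5_5 hn) (BlkD.sp 1 8 (s20_20_9_5_6 hn) (s20_20_9_5_7 hn)))
      (s20_20_9_5_8 hn)))) (BlkD.sp 0 7 (BlkD.sp 0 6 (BlkD.sp 0 5 (BlkD.sp 1 10 (BlkD.sp 1 5
      (s20_20_9_5_9 hn) (BlkD.sp 1 8 (s20_20_9_5_10 hn) (s20_20_9_5_11 hn))) (s20_20_9_5_12 hn))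
      (BlkD.sp 1 10 (BlkD.sp 1 5 (s20_20_9_5_13 hn) (BlkD.sp 1 8 (BlkD.sp 1 7 (s20_20_9_5_14 hn)
      (s20_20_9_5_15 hn)) (s20_20_9_5_16 hn))) (s20_20_9_5_17 hn))) (BlkD.sp 1 10 (BlkD.sp 1 5
      (s20_20_9_5_18 hn) (s20_20_9_5_19 hn)) (s20_20_9_5_20 hn))) (s20_20_9_5_21 hn)))
      (s20_20_9_5_22 hn)) (s20_20_9_5_23 hn))

end BlkC

end Pool.Agent.Lib.MP_f04ccf_co
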