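import Pool.Agent.Lib.MP_f04ccf_co.M.BlkT

/-!
MP_f04ccf_co, block certificate, data `R = 20`, `H = 20`, part 15 (generated, helper99:
bd10.cpp, gen2.py).
-/

set_option autoImplicit false
set_option maxRecDepth 100000

namespace Pool.Agent.Lib.MP_f04ccf_co

namespace BlkC

/-- the numbers of the pair `(10, 0)`, `R = 20`, `H = 20` -/
def d20_20_10_0 : BlkD.Pd :=
  ⟨20, 20, 3, 10, 0, 7, 0, 1, 0, 4, 4, 0, 0, 4, 4, 0, [0, 4, 8, 12, 16, 20, 24, 28], [0, 4, 8, 12,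
    16, 20, 24, 28], [⟨1, 1, 1, 4, 8, [0, 4], [0, 4]⟩]⟩

/-- the certificates of the pair `(10, 0)` -/
def t20_20_10_0 : BlkD.Tr :=
  .S 0 10 (.S 2 0 (.S 0 5 (.L 4 4 [4] [] [] 100000 0 0 1150000 75000 0 75000 0 0 0 0) (.L 4 4 [4]
    [] [] 100000 0 0 1150000 75000 0 75000 0 0 0 0)) (.E 1)) (.E 0)

lemma pr20_20_10_0 {n : ℕ} (hn : 5 ≤ n) : NoPr ((20 : ℕ) : ℤ) ((20 : ℕ) : ℤ) n 10 0 :=
  BlkD.pair_sound (d := d20_20_10_0) (by decide +kernel) hn (by decide) (tr := t20_20_10_0)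
    (by decide +kernel) rfl rfl rfl rfl

/-- the numbers of the pair `(10, 1)`, `R = 20`, `H = 20` -/
def d20_20_10_1 : BlkD.Pd :=
  ⟨20, 20, 3, 10, 1, 6, 1, 1, 0, 4, 8, 0, 0, 4, 4, 0, [0, 8, 16, 24, 24, 24, 24], [0, 4, 8, 12, 16,
    20, 24], [⟨1, 1, 1, 4, 8, [0, 4], [0, 4]⟩, ⟨1, 1, 1, 4, 12, [0, 8], [0, 4]⟩]⟩

lemma k20_20_10_1 : BlkD.pairOk d20_20_10_1 = true := by decide +kernel

/-- certificates of the pair `(10, 1)`, part 1 -/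
def t20_20_10_1_1 : BlkD.Tr :=
  .L 4 6 [4, 4] [] [] 100000 50000 0 500000 100000 0 100000 0 0 0 0

lemma s20_20_10_1_1 {n : ℕ} (hn : 5 ≤ n) : NoNd (d20_20_10_1.R : ℤ) d20_20_10_1.H n d20_20_10_1.a d20_20_10_1.b
    (BlkD.inB (fun _ => 0)
      (BlkD.upd (BlkD.upd (BlkD.upd (BlkD.upd (fun _ => 20) 0 10) 2 1) 0 5) 0 2)) :=
  BlkD.tree_sound (BlkD.pairOk_sound k20_20_10_1) (by decide) hn t20_20_10_1_1 _ _ (by decide +kernel)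

/-- certificates of the pair `(10, 1)`, part 2 -/
def t20_20_10_1_2 : BlkD.Tr :=
  .S 0 4 (.L 4 6 [4, 4] [] [] 100000 50000 0 1025000 75000 0 125000 0 0 0 0) (.S 1 15 (.S 1 7 (.L 4
    6 [4, 4] [] [] 100000 0 0 1120000 40000 0 40000 0 0 0 0) (.S 1 11 (.L 4 6 [4, 4] [] [] 100000 0
    0 1360000 40000 0 40000 0 0 0 0) (.S 1 13 (.S 1 12 (.S 2 0 (.S 3 3 (.S 3 1 (.S 3 0 (.L 4 6 [4,
    4] [284, 284, 284, 284, 284, 284] [0, 0, 0, 0, 0, 0] 100000 0 0 1340000 40000 0 80000 0 0 0 0)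
    (.L 3 5 [5, 5] [284, 284, 284, 284, 284, 284] [8, 0, 0, 0, 0, 0] 100000 0 0 1360000 40000 0
    40000 0 0 0 0)) (.L 3 5 [5, 5] [284, 284, 284, 284, 284, 284] [] 100000 0 0 1320000 40000 0
    40000 100000 0 0 0)) (.E 1)) (.S 3 2 (.S 3 1 (.S 3 0 (.L 3 5 [5, 5] [284, 284, 284, 284, 284,
    284] [0, 0, 0, 0, 0, 0] 100000 0 0 1360000 40000 0 40000 0 0 0 0) (.S 4 12 (.S 4 6 (.S 4 3 (.L
    4 6 [4, 4] [276, 268, 260, 252, 0, 0] [10, 2, 0, 0, 0, 0] 100000 216666 0 4 158333 0 158333 0 0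
    0 0) (.L 4 6 [4, 4] [284, 284, 284, 276, 268, 260] [10, 2, 0, 0, 0, 0] 100000 163890 0 0 105556
    0 263889 0 0 0 0)) (.E 2)) (.E 2))) (.E 1)) (.E 1))) (.L 4 6 [4, 4] [318, 318, 318, 318, 318,
    318] [] 100000 0 0 1350000 50000 0 50000 0 0 0 0)) (.S 1 14 (.S 2 0 (.S 3 1 (.S 3 0 (.L 4 6 [4,
    4] [354, 354, 354, 354, 354, 354] [0, 0, 0, 0, 0, 0] 100000 0 0 1350000 50000 0 75000 0 0 0 0)
    (.L 3 5 [5, 5] [354, 354, 354, 354, 354, 354] [8, 0, 0, 0, 0, 0] 100000 207692 0 2 153846 0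
    153846 0 0 0 0)) (.L 3 5 [5, 5] [354, 354, 354, 354, 354, 354] [] 100000 0 100000 0 0 0 0 0 0 0
    0)) (.L 3 5 [5, 5] [354, 354, 354, 354, 354, 354] [] 100000 207692 0 2 153846 0 153846 0 0 0
    0)) (.S 2 0 (.S 3 0 (.S 4 15 (.S 4 7 (.S 4 3 (.S 4 1 (.L 3 5 [5, 5] [368, 360, 0, 0, 0, 0] [0,
    0, 0, 0, 0, 0] 100000 172727 0 2 181818 0 0 0 0 0 0) (.L 3 5 [5, 5] [384, 376, 368, 360, 0, 0]
    [0, 0, 0, 0, 0, 0] 100000 216666 0 4 158333 0 208333 0 0 0 0)) (.L 3 5 [5, 5] [392, 392, 392,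
    392, 384, 376] [0, 0, 0, 0, 0, 0] 100000 150000 0 0 125000 0 250000 0 0 0 0)) (.E 2)) (.E 2))
    (.L 3 5 [5, 5] [392, 392, 392, 392, 392, 392] [] 100000 0 100000 0 0 0 0 0 0 0 0)) (.L 3 5 [5,
    5] [392, 392, 392, 392, 392, 392] [] 100000 0 100000 0 0 0 0 0 0 0 0)))))) (.E 0))

lemma s20_20_10_1_2 {n : ℕ} (hn : 5 ≤ n) : NoNd (d20_20_10_1.R : ℤ) d20_20_10_1.H n d20_20_10_1.a d20_20_10_1.b
    (BlkD.inB (BlkD.upd (fun _ => 0) 0 3)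
      (BlkD.upd (BlkD.upd (BlkD.upd (fun _ => 20) 0 10) 2 1) 0 5)) :=
  BlkD.tree_sound (BlkD.pairOk_sound k20_20_10_1) (by decide) hn t20_20_10_1_2 _ _ (by decide +kernel)

/-- certificates of the pair `(10, 1)`, part 3 -/
def t20_20_10_1_3 : BlkD.Tr :=
  .S 0 8 (.S 0 7 (.S 0 6 (.S 1 14 (.S 1 7 (.L 3 5 [5, 5] [] [] 100000 9092 0 1245452 36364 0 36364
    0 0 0 0) (.S 1 11 (.S 1 9 (.S 1 8 (.L 3 5 [5, 5] [184, 184, 184, 184, 184, 176] [] 100000 0 0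
    1333336 33333 0 33333 0 0 0 0) (.L 3 5 [5, 5] [212, 212, 212, 212, 212, 212] [] 100000 0 0
    1340000 40000 0 40000 0 0 0 0)) (.S 1 10 (.S 2 0 (.L 3 5 [5, 5] [242, 242, 242, 242, 242, 242]
    [] 100000 0 0 1340000 40000 0 40000 60000 0 0 0) (.S 3 3 (.S 3 1 (.S 3 0 (.L 3 5 [5, 5] [242,
    242, 242, 242, 242, 242] [0, 0, 0, 0, 0, 0] 100000 0 0 1340000 40000 0 40000 0 0 0 0) (.S 4 10
    (.S 4 5 (.S 4 2 (.L 3 5 [5, 5] [226, 218, 210, 0, 0, 0] [10, 2, 0, 0, 0, 0] 100000 0 0 1300000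
    50000 0 50000 0 0 0 0) (.L 3 5 [5, 5] [242, 242, 234, 226, 218, 210] [10, 2, 0, 0, 0, 0] 100000
    210345 0 0 124138 0 310345 0 0 0 0)) (.L 3 5 [5, 5] [242, 242, 242, 242, 242, 242] [10, 2, 0,
    0, 0, 0] 100000 136843 1 0 94737 0 236842 0 0 0 0)) (.E 2))) (.E 1)) (.E 1))) (.L 4 6 [4, 4]
    [274, 274, 274, 274, 274, 274] [] 100000 0 0 1350000 50000 0 50000 0 0 0 0))) (.S 1 13 (.S 1 12
    (.L 4 6 [4, 4] [308, 308, 308, 308, 308, 308] [] 100000 0 0 1350000 50000 0 100000 0 0 0 0) (.S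
    2 0 (.S 3 1 (.S 3 0 (.L 4 6 [4, 4] [344, 344, 344, 344, 344, 344] [0, 0, 0, 0, 0, 0] 100000 0 0
    1350000 50000 0 100000 0 0 0 0) (.L 3 5 [5, 5] [344, 344, 344, 344, 344, 344] [8, 0, 0, 0, 0,
    0] 100000 216666 0 4 158333 0 258333 100000 0 0 0)) (.L 3 5 [5, 5] [344, 344, 344, 344, 344,
    344] [] 100000 0 100000 0 0 0 0 0 0 0 0)) (.S 3 0 (.S 4 13 (.S 4 6 (.S 4 3 (.L 4 6 [4, 4] [336,
    328, 320, 312, 0, 0] [0, 0, 0, 0, 0, 0] 100000 216667 1 2 211111 0 33333 0 0 0 0) (.L 4 6 [4,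
    4] [344, 344, 344, 336, 328, 320] [0, 0, 0, 0, 0, 0] 100000 216666 0 2 158333 0 191667 0 0 0
    0)) (.L 4 6 [4, 4] [344, 344, 344, 344, 344, 344] [0, 0, 0, 0, 0, 0] 100000 122222 0 2 111111 0
    222222 0 0 0 0)) (.E 2)) (.L 4 6 [4, 4] [344, 344, 344, 344, 344, 344] [] 100000 0 100000 0 0 0
    0 0 0 0 0)))) (.S 2 0 (.S 3 0 (.L 3 5 [5, 5] [382, 382, 382, 382, 382, 382] [0, 0, 0, 0, 0, 0]
    100000 216666 0 3 158333 0 287500 0 0 0 0) (.L 3 5 [5, 5] [382, 382, 382, 382, 382, 382] []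
    100000 0 100000 0 0 0 0 0 0 0 0)) (.L 3 5 [5, 5] [382, 382, 382, 382, 382, 382] [] 100000 0
    100000 0 0 0 0 0 0 0 0))))) (.E 0)) (.S 1 13 (.S 1 6 (.L 3 5 [5, 5] [] [] 100000 0 0 1300002
    33333 0 33333 0 0 0 0) (.S 1 10 (.S 1 8 (.S 1 7 (.L 3 5 [5, 5] [172, 172, 172, 172, 164, 156]
    [] 100000 0 0 1320000 40000 0 40000 0 0 0 0) (.L 3 5 [5, 5] [200, 200, 200, 200, 200, 192] []
    100000 0 0 1380000 40000 0 40000 0 0 0 0)) (.S 1 9 (.L 3 5 [5, 5] [230, 230, 230, 230, 230,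
    230] [] 100000 0 0 1300000 50000 0 100000 0 0 0 0) (.L 3 5 [5, 5] [262, 262, 262, 262, 262,
    262] [] 100000 0 0 1300000 50000 0 100000 0 0 0 0))) (.S 1 12 (.S 1 11 (.L 3 5 [5, 5] [296,
    296, 296, 296, 296, 296] [] 100000 0 0 1350000 50000 0 100000 0 0 0 0) (.L 3 5 [5, 5] [332,
    332, 332, 332, 332, 332] [] 100000 216667 0 2 158333 0 316667 0 0 0 0)) (.L 3 5 [5, 5] [370,
    370, 370, 370, 370, 370] [] 100000 200000 0 0 200000 0 200000 0 0 0 0)))) (.E 0))) (.S 1 12 (.S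
    1 6 (.S 1 3 (.L 3 5 [5, 5] [] [] 100000 16667 0 1100000 66667 0 66667 0 0 0 0) (.S 1 5 (.L 3 5
    [5, 5] [] [] 100000 0 0 1300000 40000 0 40000 0 0 0 0) (.L 3 5 [5, 5] [158, 158, 158, 150, 142,
    134] [] 100000 0 0 1360000 40000 0 40000 0 0 0 0))) (.S 1 9 (.S 1 8 (.S 1 7 (.L 3 5 [5, 5]
    [186, 186, 186, 186, 178, 170] [] 100000 0 0 1300000 50000 0 100000 0 0 0 0) (.L 3 5 [5, 5]
    [216, 216, 216, 216, 216, 208] [] 100000 0 0 1300000 50000 0 100000 0 0 0 0)) (.L 3 5 [5, 5]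
    [248, 248, 248, 248, 248, 248] [] 100000 0 0 1300000 50000 0 100000 0 0 0 0)) (.S 1 11 (.S 1 10
    (.L 3 5 [5, 5] [282, 282, 282, 282, 282, 282] [] 100000 100000 0 700000 100000 0 200000 0 0 0
    0) (.E 0)) (.E 0)))) (.E 0))) (.S 0 9 (.S 1 11 (.S 1 5 (.L 3 5 [5, 5] [] [] 100000 0 0 1340000
    40000 0 70000 0 0 0 0) (.L 3 5 [5, 5] [] [] 100000 0 0 1333334 22222 0 100000 0 0 0 0)) (.E 0))
    (.L 3 5 [5, 5] [] [] 100000 0 0 1360000 20000 0 60000 0 0 0 0))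

lemma s20_20_10_1_3 {n : ℕ} (hn : 5 ≤ n) : NoNd (d20_20_10_1.R : ℤ) d20_20_10_1.H n d20_20_10_1.a d20_20_10_1.b
    (BlkD.inB (BlkD.upd (fun _ => 0) 0 6)
      (BlkD.upd (BlkD.upd (fun _ => 20) 0 10) 2 1)) :=
  BlkD.tree_sound (BlkD.pairOk_sound k20_20_10_1) (by decide) hn t20_20_10_1_3 _ _ (by decide +kernel)

/-- certificates of the pair `(10, 1)`, part 4 -/
def t20_20_10_1_4 : BlkD.Tr :=
  .E 1

lemma s20_20_10_1_4 {n : ℕ} (hn : 5 ≤ n) : NoNd (d20_20_10_1.R : ℤ) d20_20_10_1.H n d20_20_10_1.a d20_20_10_1.b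
    (BlkD.inB (BlkD.upd (fun _ => 0) 2 2)
      (BlkD.upd (fun _ => 20) 0 10)) :=
  BlkD.tree_sound (BlkD.pairOk_sound k20_20_10_1) (by decide) hn t20_20_10_1_4 _ _ (by decide +kernel)

/-- certificates of the pair `(10, 1)`, part 5 -/
def t20_20_10_1_5 : BlkD.Tr :=
  .E 0

lemma s20_20_10_1_5 {n : ℕ} (hn : 5 ≤ n) : NoNd (d20_20_10_1.R : ℤ) d20_20_10_1.H n d20_20_10_1.a d20_20_10_1.b
    (BlkD.inB (BlkD.upd (fun _ => 0) 0 11)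
      (fun _ => 20)) :=
  BlkD.tree_sound (BlkD.pairOk_sound k20_20_10_1) (by decide) hn t20_20_10_1_5 _ _ (by decide +kernel)

lemma pr20_20_10_1 {n : ℕ} (hn : 5 ≤ n) : NoPr ((20 : ℕ) : ℤ) ((20 : ℕ) : ℤ) n 10 1 :=
  BlkD.of_root (R := d20_20_10_1.R) (H := d20_20_10_1.H) (a := d20_20_10_1.a) (b := d20_20_10_1.b) (q := 3) (by decide) hn
    (BlkD.sp 0 10 (BlkD.sp 2 1 (BlkD.sp 0 5 (BlkD.sp 0 2 (s20_20_10_1_1 hn) (s20_20_10_1_2 hn))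
      (s20_20_10_1_3 hn)) (s20_20_10_1_4 hn)) (s20_20_10_1_5 hn))

/-- the numbers of the pair `(10, 2)`, `R = 20`, `H = 20` -/
def d20_20_10_2 : BlkD.Pd :=
  ⟨20, 20, 3, 10, 2, 5, 2, 2, 0, 6, 10, 0, 3, 1, 6, 0, [0, 10, 20, 30, 30, 30], [0, 6, 11, 14, 17,
    20], [⟨1, 1, 1, 4, 8, [0, 4], [0, 4]⟩, ⟨1, 1, 1, 4, 12, [0, 8], [0, 4]⟩, ⟨2, 1, 1, 4, 24, [0,
    10, 18], [0, 6]⟩]⟩

lemma k20_20_10_2 : BlkD.pairOk d20_20_10_2 = true := by decide +kernel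

/-- certificates of the pair `(10, 2)`, part 1 -/
def t20_20_10_2_1 : BlkD.Tr :=
  .L 3 5 [5, 5, 6] [] [] 100000 150000 150000 600000 100000 0 100000 0 0 0 0

lemma s20_20_10_2_1 {n : ℕ} (hn : 5 ≤ n) : NoNd (d20_20_10_2.R : ℤ) d20_20_10_2.H n d20_20_10_2.a d20_20_10_2.b
    (BlkD.inB (fun _ => 0)
      (BlkD.upd (BlkD.upd (BlkD.upd (BlkD.upd (BlkD.upd (fun _ => 20) 0 10) 2 2) 0 5) 0 2) 0 1)) :=
  BlkD.tree_sound (BlkD.pairOk_sound k20_20_10_2) (by decide) hn t20_20_10_2_1 _ _ (by decide +kernel)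

/-- certificates of the pair `(10, 2)`, part 2 -/
def t20_20_10_2_2 : BlkD.Tr :=
  .S 1 10 (.L 3 5 [5, 5, 6] [] [] 100000 150000 150000 600000 100000 0 100000 0 0 0 0) (.L 3 5 [5,
    5, 6] [] [] 100000 150000 150000 600000 100000 0 100000 0 0 0 0)

lemma s20_20_10_2_2 {n : ℕ} (hn : 5 ≤ n) : NoNd (d20_20_10_2.R : ℤ) d20_20_10_2.H n d20_20_10_2.a d20_20_10_2.b
    (BlkD.inB (BlkD.upd (fun _ => 0) 0 2)
      (BlkD.upd (BlkD.upd (BlkD.upd (BlkD.upd (fun _ => 20) 0 10) 2 2) 0 5) 0 2)) :=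
  BlkD.tree_sound (BlkD.pairOk_sound k20_20_10_2) (by decide) hn t20_20_10_2_2 _ _ (by decide +kernel)

/-- certificates of the pair `(10, 2)`, part 3 -/
def t20_20_10_2_3 : BlkD.Tr :=
  .L 4 8 [4, 4, 4] [] [] 100000 135000 130000 1090000 85000 0 105000 0 0 0 0

lemma s20_20_10_2_3 {n : ℕ} (hn : 5 ≤ n) : NoNd (d20_20_10_2.R : ℤ) d20_20_10_2.H n d20_20_10_2.a d20_20_10_2.b
    (BlkD.inB (BlkD.upd (fun _ => 0) 0 3)
      (BlkD.upd (BlkD.upd (BlkD.upd (BlkD.upd (BlkD.upd (fun _ => 20) 0 10) 2 2) 0 5) 0 4) 0 3)) :=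
  BlkD.tree_sound (BlkD.pairOk_sound k20_20_10_2) (by decide) hn t20_20_10_2_3 _ _ (by decide +kernel)

/-- certificates of the pair `(10, 2)`, part 4 -/
def t20_20_10_2_4 : BlkD.Tr :=
  .L 4 8 [4, 4, 4] [] [] 100000 135000 130000 1090000 85000 0 105000 0 0 0 0

lemma s20_20_10_2_4 {n : ℕ} (hn : 5 ≤ n) : NoNd (d20_20_10_2.R : ℤ) d20_20_10_2.H n d20_20_10_2.a d20_20_10_2.b
    (BlkD.inB (BlkD.upd (BlkD.upd (fun _ => 0) 0 3) 0 4)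
      (BlkD.upd (BlkD.upd (BlkD.upd (BlkD.upd (fun _ => 20) 0 10) 2 2) 0 5) 0 4)) :=
  BlkD.tree_sound (BlkD.pairOk_sound k20_20_10_2) (by decide) hn t20_20_10_2_4 _ _ (by decide +kernel)

/-- certificates of the pair `(10, 2)`, part 5 -/
def t20_20_10_2_5 : BlkD.Tr :=
  .L 4 8 [4, 4, 4] [] [] 100000 33334 33334 1300003 33333 0 50000 33333 0 0 33333

lemma s20_20_10_2_5 {n : ℕ} (hn : 5 ≤ n) : NoNd (d20_20_10_2.R : ℤ) d20_20_10_2.H n d20_20_10_2.a d20_20_10_2.b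
    (BlkD.inB (BlkD.upd (BlkD.upd (fun _ => 0) 0 3) 0 5)
      (BlkD.upd (BlkD.upd (BlkD.upd (BlkD.upd (BlkD.upd (fun _ => 20) 0 10) 2 2) 0 5) 1 15) 1 7)) :=
  BlkD.tree_sound (BlkD.pairOk_sound k20_20_10_2) (by decide) hn t20_20_10_2_5 _ _ (by decide +kernel)

/-- certificates of the pair `(10, 2)`, part 6 -/
def t20_20_10_2_6 : BlkD.Tr :=
  .S 1 9 (.L 4 8 [4, 4, 4] [] [] 100000 65385 65385 1330770 46154 0 61538 38462 0 0 0) (.S 1 10 (.S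
    2 1 (.S 2 0 (.L 4 8 [4, 4, 4] [238, 238, 238, 238, 238, 238] [] 100000 100000 100000 1260000
    60000 0 80000 40000 0 0 0) (.S 3 4 (.S 3 2 (.S 3 1 (.S 3 0 (.L 3 5 [5, 5, 6] [238, 238, 238,
    238, 238, 238] [0, 0, 0, 0, 0, 0] 100000 28571 28571 1428576 28571 0 57143 0 0 57143 14286) (.L
    3 5 [5, 5, 6] [238, 238, 238, 238, 238, 238] [12, 2, 0, 0, 0, 0] 100000 133335 133335 1166664
    66667 0 66667 0 0 0 0)) (.L 3 5 [5, 5, 6] [238, 238, 238, 238, 238, 238] [24, 16, 6, 0, 0, 0]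
    100000 133335 133335 1199997 66667 0 66667 0 0 0 0)) (.E 1)) (.E 1))) (.L 3 5 [5, 5, 6] [238,
    238, 238, 238, 238, 238] [] 100000 133335 133335 1133330 66667 0 66667 0 0 0 0)) (.S 2 1 (.S 2
    0 (.L 3 5 [5, 5, 6] [268, 268, 268, 268, 268, 268] [] 100000 133335 133335 1199999 66667 0
    100000 33333 0 0 0) (.S 3 3 (.S 3 1 (.L 3 5 [5, 5, 6] [268, 268, 268, 268, 268, 268] [] 100000
    100000 100000 1280000 60000 0 80000 0 0 40000 20000) (.S 3 2 (.S 4 11 (.S 4 5 (.S 4 2 (.L 4 8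
    [4, 4, 4] [240, 230, 220, 0, 0, 0] [24, 16, 6, 0, 0, 0] 100000 470000 380000 0 190000 0 190000
    0 0 0 0) (.L 4 8 [4, 4, 4] [268, 260, 250, 240, 230, 220] [24, 16, 6, 0, 0, 0] 100000 390324
    214518 0 153226 0 275806 0 0 0 0)) (.E 2)) (.E 2)) (.E 1))) (.E 1))) (.L 4 8 [4, 4, 4] [268,
    268, 268, 268, 268, 268] [] 100000 300000 300000 800000 100000 0 100000 0 0 0 0)))

lemma s20_20_10_2_6 {n : ℕ} (hn : 5 ≤ n) : NoNd (d20_20_10_2.R : ℤ) d20_20_10_2.H n d20_20_10_2.a d20_20_10_2.b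
    (BlkD.inB (BlkD.upd (BlkD.upd (BlkD.upd (fun _ => 0) 0 3) 0 5) 1 8)
      (BlkD.upd (BlkD.upd (BlkD.upd (BlkD.upd (BlkD.upd (fun _ => 20) 0 10) 2 2) 0 5) 1 15) 1 11)) :=
  BlkD.tree_sound (BlkD.pairOk_sound k20_20_10_2) (by decide) hn t20_20_10_2_6 _ _ (by decide +kernel)

/-- certificates of the pair `(10, 2)`, part 7 -/
def t20_20_10_2_7 : BlkD.Tr :=
  .S 1 13 (.S 1 12 (.S 2 1 (.S 2 0 (.S 3 3 (.S 3 1 (.L 4 8 [4, 4, 4] [300, 300, 300, 300, 300, 300]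
    [] 100000 72727 72727 1318185 54545 0 81818 45455 0 0 0) (.S 3 2 (.S 4 12 (.S 4 6 (.S 4 3 (.L 4
    8 [4, 4, 4] [282, 272, 262, 252, 0, 0] [20, 12, 2, 0, 0, 0] 100000 387180 194872 0 194872 0
    292308 48718 0 0 0) (.L 4 8 [4, 4, 4] [300, 300, 292, 282, 272, 262] [20, 12, 2, 0, 0, 0]
    100000 315625 59375 0 118750 0 356250 0 0 0 0)) (.E 2)) (.E 2)) (.L 4 8 [4, 4, 4] [300, 300,
    300, 300, 300, 300] [30, 24, 16, 6, 0, 0] 100000 396000 212000 0 156000 0 156000 284000 0 0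
    0))) (.L 4 8 [4, 4, 4] [300, 300, 300, 300, 300, 300] [] 100000 0 100000 0 0 0 0 0 0 0 0)) (.S
    3 2 (.S 3 1 (.S 3 0 (.S 4 12 (.S 4 6 (.L 3 5 [5, 5, 6] [300, 300, 292, 282, 272, 262] [0, 0, 0,
    0, 0, 0] 100000 118181 118181 1254548 63636 0 100000 0 0 18182 18182) (.L 3 5 [5, 5, 6] [300,
    300, 300, 300, 300, 300] [0, 0, 0, 0, 0, 0] 100000 208000 0 0 52000 0 308000 0 0 0 0)) (.E 2))
    (.S 4 12 (.S 4 6 (.S 4 3 (.L 4 8 [4, 4, 4] [282, 272, 262, 252, 0, 0] [12, 2, 0, 0, 0, 0]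
    100000 470000 380000 0 190000 0 190000 0 0 0 0) (.L 4 8 [4, 4, 4] [300, 300, 292, 282, 272,
    262] [12, 2, 0, 0, 0, 0] 100000 390324 214518 0 153226 0 275806 0 0 0 0)) (.E 2)) (.E 2))) (.S
    4 12 (.S 4 6 (.S 4 3 (.L 4 8 [4, 4, 4] [282, 272, 262, 252, 0, 0] [24, 16, 6, 0, 0, 0] 100000
    445454 363636 2 181818 0 181818 0 0 0 0) (.L 4 8 [4, 4, 4] [300, 300, 292, 282, 272, 262] [24,
    16, 6, 0, 0, 0] 100000 364285 214285 1 142857 0 250000 0 0 0 0)) (.E 2)) (.E 2))) (.E 1))) (.L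
    4 8 [4, 4, 4] [300, 300, 300, 300, 300, 300] [] 100000 590908 518181 3 172727 0 172727 0 0 0
    0)) (.S 2 1 (.S 2 0 (.S 3 2 (.S 3 1 (.S 3 0 (.L 4 8 [4, 4, 4] [334, 334, 334, 334, 334, 334]
    [0, 0, 0, 0, 0, 0] 100000 50000 50000 1350000 50000 0 100000 0 0 0 0) (.S 4 13 (.S 4 6 (.S 4 3
    (.L 4 8 [4, 4, 4] [316, 306, 296, 286, 0, 0] [10, 0, 0, 0, 0, 0] 100000 412500 245000 0 195000
    0 267500 145000 0 0 0) (.L 4 8 [4, 4, 4] [334, 334, 326, 316, 306, 296] [10, 0, 0, 0, 0, 0]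
    100000 375000 158333 1 158333 0 316667 158333 0 0 0)) (.L 4 8 [4, 4, 4] [334, 334, 334, 334,
    334, 334] [10, 0, 0, 0, 0, 0] 100000 204000 0 0 76000 0 304000 0 0 0 0)) (.E 2))) (.S 4 13 (.S
    4 6 (.S 4 3 (.L 4 8 [4, 4, 4] [316, 306, 296, 286, 0, 0] [20, 12, 2, 0, 0, 0] 100000 436667
    313334 1 190000 0 223333 66667 0 0 0) (.L 4 8 [4, 4, 4] [334, 334, 326, 316, 306, 296] [20, 12,
    2, 0, 0, 0] 100000 272880 67795 1 135593 0 305085 0 0 0 0)) (.E 2)) (.E 2))) (.L 4 8 [4, 4, 4]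
    [334, 334, 334, 334, 334, 334] [] 100000 0 100000 0 0 0 0 0 0 0 0)) (.S 3 1 (.S 3 0 (.S 4 13
    (.S 4 6 (.S 4 3 (.L 4 8 [4, 4, 4] [316, 306, 296, 286, 0, 0] [0, 0, 0, 0, 0, 0] 100000 280000 0
    0 190000 0 380000 0 0 0 0) (.L 4 8 [4, 4, 4] [334, 334, 326, 316, 306, 296] [0, 0, 0, 0, 0, 0]
    100000 309806 74512 0 149020 0 335294 0 0 0 0)) (.L 4 8 [4, 4, 4] [334, 334, 334, 334, 334,
    334] [0, 0, 0, 0, 0, 0] 100000 192308 0 0 73077 0 292308 0 0 0 0)) (.E 2)) (.S 4 13 (.S 4 6 (.S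
    4 3 (.L 4 8 [4, 4, 4] [316, 306, 296, 286, 0, 0] [12, 2, 0, 0, 0, 0] 100000 445454 363636 2
    181818 0 181818 0 0 0 0) (.L 4 8 [4, 4, 4] [334, 334, 326, 316, 306, 296] [12, 2, 0, 0, 0, 0]
    100000 272880 67795 1 135593 0 305085 0 0 0 0)) (.E 2)) (.E 2))) (.L 4 8 [4, 4, 4] [334, 334,
    334, 334, 334, 334] [] 100000 0 100000 0 0 0 0 0 0 0 0))) (.L 4 8 [4, 4, 4] [334, 334, 334,
    334, 334, 334] [] 100000 566668 500001 0 166667 0 166667 0 0 0 0))) (.S 1 14 (.S 2 1 (.S 2 0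
    (.S 3 1 (.S 3 0 (.S 4 14 (.S 4 7 (.S 4 3 (.L 4 8 [4, 4, 4] [352, 342, 332, 322, 0, 0] [0, 0, 0,
    0, 0, 0] 100000 375000 190000 0 190000 0 285000 0 0 0 0) (.L 4 8 [4, 4, 4] [370, 370, 370, 362,
    352, 342] [0, 0, 0, 0, 0, 0] 100000 318000 76000 0 152000 0 342000 0 0 0 0)) (.E 2)) (.E 2))
    (.S 4 14 (.S 4 7 (.S 4 3 (.L 4 8 [4, 4, 4] [352, 342, 332, 322, 0, 0] [10, 0, 0, 0, 0, 0]
    100000 375000 190000 0 190000 0 285000 5000 0 0 0) (.L 4 8 [4, 4, 4] [370, 370, 370, 362, 352,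
    342] [10, 0, 0, 0, 0, 0] 100000 344000 128000 0 152000 0 316000 0 0 0 0)) (.E 2)) (.E 2))) (.L
    4 8 [4, 4, 4] [370, 370, 370, 370, 370, 370] [] 100000 0 100000 0 0 0 0 0 0 0 0)) (.S 3 0 (.S 4
    14 (.S 4 7 (.S 4 3 (.L 4 8 [4, 4, 4] [352, 342, 332, 322, 0, 0] [0, 0, 0, 0, 0, 0] 100000
    370000 180000 0 190000 0 290000 0 0 0 0) (.L 4 8 [4, 4, 4] [370, 370, 370, 362, 352, 342] [0,
    0, 0, 0, 0, 0] 100000 300002 72729 0 145455 0 327273 0 0 0 0)) (.E 2)) (.E 2)) (.L 4 8 [4, 4,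
    4] [370, 370, 370, 370, 370, 370] [] 100000 0 100000 0 0 0 0 0 0 0 0))) (.L 4 8 [4, 4, 4] [370,
    370, 370, 370, 370, 370] [] 100000 0 100000 0 0 0 0 0 0 0 0)) (.L 4 8 [4, 4, 4] [408, 408, 408,
    408, 408, 408] [] 100000 420000 280000 0 190000 0 240000 0 0 0 0))

lemma s20_20_10_2_7 {n : ℕ} (hn : 5 ≤ n) : NoNd (d20_20_10_2.R : ℤ) d20_20_10_2.H n d20_20_10_2.a d20_20_10_2.b
    (BlkD.inB (BlkD.upd (BlkD.upd (BlkD.upd (BlkD.upd (fun _ => 0) 0 3) 0 5) 1 8) 1 12)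
      (BlkD.upd (BlkD.upd (BlkD.upd (BlkD.upd (fun _ => 20) 0 10) 2 2) 0 5) 1 15)) :=
  BlkD.tree_sound (BlkD.pairOk_sound k20_20_10_2) (by decide) hn t20_20_10_2_7 _ _ (by decide +kernel)

/-- certificates of the pair `(10, 2)`, part 8 -/
def t20_20_10_2_8 : BlkD.Tr :=
  .E 0

lemma s20_20_10_2_8 {n : ℕ} (hn : 5 ≤ n) : NoNd (d20_20_10_2.R : ℤ) d20_20_10_2.H n d20_20_10_2.a d20_20_10_2.b
    (BlkD.inB (BlkD.upd (BlkD.upd (BlkD.upd (fun _ => 0) 0 3) 0 5) 1 16)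
      (BlkD.upd (BlkD.upd (BlkD.upd (fun _ => 20) 0 10) 2 2) 0 5)) :=
  BlkD.tree_sound (BlkD.pairOk_sound k20_20_10_2) (by decide) hn t20_20_10_2_8 _ _ (by decide +kernel)

/-- certificates of the pair `(10, 2)`, part 9 -/
def t20_20_10_2_9 : BlkD.Tr :=
  .S 1 3 (.L 4 8 [4, 4, 4] [] [] 100000 50000 50000 1100000 50000 0 50000 25000 0 0 0) (.S 1 5 (.L
    4 8 [4, 4, 4] [] [] 100000 40000 40000 1266669 33333 0 33333 33333 0 20000 0) (.S 1 6 (.L 4 8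
    [4, 4, 4] [150, 150, 142, 132, 122, 112] [] 100000 21429 21429 1357146 28571 0 28571 35714 0
    28571 28571) (.L 4 8 [4, 4, 4] [174, 174, 174, 166, 156, 146] [] 100000 57143 57143 1342859
    42857 0 57143 28571 0 0 0)))

lemma s20_20_10_2_9 {n : ℕ} (hn : 5 ≤ n) : NoNd (d20_20_10_2.R : ℤ) d20_20_10_2.H n d20_20_10_2.a d20_20_10_2.b
    (BlkD.inB (BlkD.upd (fun _ => 0) 0 6)
      (BlkD.upd (BlkD.upd (BlkD.upd (BlkD.upd (BlkD.upd (BlkD.upd (BlkD.upd (fun _ => 20) 0 10) 2 2) 0 8) 0 7) 0 6) 1 14) 1 7)) :=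
  BlkD.tree_sound (BlkD.pairOk_sound k20_20_10_2) (by decide) hn t20_20_10_2_9 _ _ (by decide +kernel)

/-- certificates of the pair `(10, 2)`, part 10 -/
def t20_20_10_2_10 : BlkD.Tr :=
  .S 1 8 (.S 2 1 (.S 2 0 (.L 4 8 [4, 4, 4] [200, 200, 200, 200, 192, 182] [] 100000 50002 50002
    1383332 41667 0 50000 41667 0 8333 8333) (.S 3 5 (.S 3 2 (.S 3 1 (.L 4 8 [4, 4, 4] [200, 200,
    200, 200, 192, 182] [] 100000 33334 33334 1400002 33333 0 33333 0 0 0 33333) (.S 4 8 (.S 4 4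
    (.L 4 8 [4, 4, 4] [192, 182, 172, 162, 152, 0] [24, 16, 6, 0, 0, 0] 100000 30772 30772 1430766
    38462 0 38462 0 0 30769 30769) (.L 4 8 [4, 4, 4] [200, 200, 200, 200, 192, 182] [24, 16, 6, 0,
    0, 0] 100000 240000 0 0 0 0 340000 0 0 0 0)) (.E 2))) (.E 1)) (.E 1))) (.L 4 8 [4, 4, 4] [200,
    200, 200, 200, 192, 182] [] 100000 40000 40000 1380000 40000 0 40000 0 0 20000 20000)) (.S 2 1
    (.S 2 0 (.S 3 5 (.S 3 2 (.S 3 1 (.L 4 8 [4, 4, 4] [228, 228, 228, 228, 228, 220] [] 100000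
    39286 39286 1385715 42857 0 64286 21429 0 0 21429) (.S 4 9 (.S 4 4 (.S 4 2 (.L 4 8 [4, 4, 4]
    [200, 190, 180, 0, 0, 0] [20, 12, 2, 0, 0, 0] 100000 50000 50000 1350000 50000 0 75000 50000 0
    0 0) (.L 4 8 [4, 4, 4] [220, 210, 200, 190, 180, 0] [20, 12, 2, 0, 0, 0] 100000 23529 17647
    1311766 35294 0 105882 0 0 0 0)) (.L 4 8 [4, 4, 4] [228, 228, 228, 228, 228, 220] [20, 12, 2,
    0, 0, 0] 100000 269565 0 1 73913 0 369565 0 0 0 0)) (.E 2))) (.L 4 8 [4, 4, 4] [228, 228, 228,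
    228, 228, 220] [] 100000 175000 175000 1100000 75000 0 75000 100000 0 0 0)) (.E 1)) (.S 3 4 (.S
    3 2 (.S 3 1 (.L 4 8 [4, 4, 4] [228, 228, 228, 228, 228, 220] [] 100000 37501 37501 1408332
    41667 0 66667 0 0 0 25000) (.S 4 9 (.S 4 4 (.S 4 2 (.L 4 8 [4, 4, 4] [200, 190, 180, 0, 0, 0]
    [24, 16, 6, 0, 0, 0] 100000 14286 14286 1457144 42857 0 42857 0 0 0 0) (.L 4 8 [4, 4, 4] [220,
    210, 200, 190, 180, 0] [24, 16, 6, 0, 0, 0] 100000 200000 100000 700000 100000 0 200000 0 0 0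
    0)) (.L 4 8 [4, 4, 4] [228, 228, 228, 228, 228, 220] [24, 16, 6, 0, 0, 0] 100000 221430 1 0
    64286 0 321429 0 0 0 0)) (.E 2))) (.E 1)) (.E 1))) (.L 4 8 [4, 4, 4] [228, 228, 228, 228, 228,
    220] [] 100000 50000 50000 1350000 50000 0 50000 0 0 0 0))

lemma s20_20_10_2_10 {n : ℕ} (hn : 5 ≤ n) : NoNd (d20_20_10_2.R : ℤ) d20_20_10_2.H n d20_20_10_2.a d20_20_10_2.b
    (BlkD.inB (BlkD.upd (BlkD.upd (fun _ => 0) 0 6) 1 8)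
      (BlkD.upd (BlkD.upd (BlkD.upd (BlkD.upd (BlkD.upd (BlkD.upd (BlkD.upd (BlkD.upd (fun _ => 20) 0 10) 2 2) 0 8) 0 7) 0 6) 1 14) 1 11) 1 9)) :=
  BlkD.tree_sound (BlkD.pairOk_sound k20_20_10_2) (by decide) hn t20_20_10_2_10 _ _ (by decide +kernel)

/-- certificates of the pair `(10, 2)`, part 11 -/
def t20_20_10_2_11 : BlkD.Tr :=
  .S 1 10 (.S 2 1 (.S 2 0 (.S 3 4 (.S 3 2 (.S 3 1 (.L 4 8 [4, 4, 4] [258, 258, 258, 258, 258, 258]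
    [] 100000 62500 62500 1350000 50000 0 75000 50000 0 0 25000) (.S 4 10 (.S 4 5 (.S 4 2 (.L 4 8
    [4, 4, 4] [230, 220, 210, 0, 0, 0] [20, 12, 2, 0, 0, 0] 100000 100000 100000 1200000 75000 0
    100000 50000 0 0 25000) (.L 4 8 [4, 4, 4] [258, 250, 240, 230, 220, 210] [20, 12, 2, 0, 0, 0]
    100000 83335 33335 1083332 66667 0 150000 16667 0 0 0)) (.L 4 8 [4, 4, 4] [258, 258, 258, 258,
    258, 258] [20, 12, 2, 0, 0, 0] 100000 213044 1 2 78261 0 313043 0 0 0 0)) (.E 2))) (.L 4 8 [4,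
    4, 4] [258, 258, 258, 258, 258, 258] [] 100000 133335 133335 1199997 66667 0 66667 100000 0 0
    33333)) (.E 1)) (.S 3 3 (.S 3 1 (.S 3 0 (.S 4 10 (.S 4 5 (.S 4 2 (.L 4 8 [4, 4, 4] [230, 220,
    210, 0, 0, 0] [0, 0, 0, 0, 0, 0] 100000 66668 66668 1299998 66667 0 66667 0 0 0 0) (.L 4 8 [4,
    4, 4] [258, 250, 240, 230, 220, 210] [0, 0, 0, 0, 0, 0] 100000 16667 16667 1366669 33333 0
    100000 0 0 0 0)) (.L 4 8 [4, 4, 4] [258, 258, 258, 258, 258, 258] [0, 0, 0, 0, 0, 0] 100000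
    240000 0 0 85000 0 340000 0 0 0 0)) (.E 2)) (.S 4 10 (.S 4 5 (.S 4 2 (.L 4 8 [4, 4, 4] [230,
    220, 210, 0, 0, 0] [12, 2, 0, 0, 0, 0] 100000 66668 66668 1266664 66667 0 66667 0 0 0 0) (.L 4
    8 [4, 4, 4] [258, 250, 240, 230, 220, 210] [12, 2, 0, 0, 0, 0] 100000 50000 50000 1300000 50000
    0 100000 0 0 0 0)) (.L 4 8 [4, 4, 4] [258, 258, 258, 258, 258, 258] [12, 2, 0, 0, 0, 0] 100000
    213044 1 2 78261 0 313043 0 0 0 0)) (.E 2))) (.S 3 2 (.S 4 10 (.S 4 5 (.S 4 2 (.L 4 8 [4, 4, 4]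
    [230, 220, 210, 0, 0, 0] [24, 16, 6, 0, 0, 0] 100000 533333 422222 1 211111 0 211111 0 0 0 0)
    (.L 4 8 [4, 4, 4] [258, 250, 240, 230, 220, 210] [24, 16, 6, 0, 0, 0] 100000 309806 74512 0
    149020 0 335294 0 0 0 0)) (.E 2)) (.E 2)) (.E 1))) (.E 1))) (.S 3 2 (.S 3 1 (.S 3 0 (.L 4 8 [4,
    4, 4] [258, 258, 258, 258, 258, 258] [0, 0, 0, 0, 0, 0] 100000 50000 50000 1350000 50000 0
    50000 0 0 0 0) (.S 4 10 (.S 4 5 (.S 4 2 (.L 4 8 [4, 4, 4] [230, 220, 210, 0, 0, 0] [14, 4, 0,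
    0, 0, 0] 100000 470000 380000 0 190000 0 190000 0 0 0 0) (.L 4 8 [4, 4, 4] [258, 250, 240, 230,
    220, 210] [14, 4, 0, 0, 0, 0] 100000 280001 69092 0 138182 0 310909 0 0 0 0)) (.E 2)) (.E 2)))
    (.E 1)) (.E 1))) (.S 2 1 (.S 2 0 (.S 3 3 (.S 3 1 (.S 3 0 (.L 4 8 [4, 4, 4] [290, 290, 290, 290,
    290, 290] [0, 0, 0, 0, 0, 0] 100000 50000 50000 1350000 50000 0 100000 0 0 0 0) (.S 4 11 (.S 4
    5 (.S 4 2 (.L 4 8 [4, 4, 4] [262, 252, 242, 0, 0, 0] [10, 0, 0, 0, 0, 0] 100000 66668 66668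
    1266664 66667 0 66667 66667 0 0 0) (.L 4 8 [4, 4, 4] [290, 282, 272, 262, 252, 242] [10, 0, 0,
    0, 0, 0] 100000 50000 50000 1300000 50000 0 100000 50000 0 0 0)) (.L 4 8 [4, 4, 4] [290, 290,
    290, 290, 290, 290] [10, 0, 0, 0, 0, 0] 100000 260000 0 0 90000 0 360000 0 0 0 0)) (.E 2))) (.S
    3 2 (.S 4 11 (.S 4 5 (.S 4 2 (.L 4 8 [4, 4, 4] [262, 252, 242, 0, 0, 0] [20, 12, 2, 0, 0, 0]
    100000 338462 97436 0 194872 0 341026 146154 0 0 0) (.L 4 8 [4, 4, 4] [290, 282, 272, 262, 252,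
    242] [20, 12, 2, 0, 0, 0] 100000 375000 158333 2 158333 0 316667 158333 0 0 0)) (.L 4 8 [4, 4,
    4] [290, 290, 290, 290, 290, 290] [20, 12, 2, 0, 0, 0] 100000 216668 1 0 79167 0 316667 0 0 0
    0)) (.E 2)) (.S 4 11 (.S 4 5 (.S 4 2 (.L 4 8 [4, 4, 4] [262, 252, 242, 0, 0, 0] [30, 24, 16, 6,
    0, 0] 100000 470000 380000 0 190000 0 190000 100000 0 0 0) (.L 4 8 [4, 4, 4] [290, 282, 272,
    262, 252, 242] [30, 24, 16, 6, 0, 0] 100000 300002 72729 0 145455 0 327273 0 0 0 0)) (.E 2))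
    (.E 2)))) (.L 4 8 [4, 4, 4] [290, 290, 290, 290, 290, 290] [] 100000 0 100000 0 0 0 0 0 0 0 0))
    (.S 3 2 (.S 3 1 (.S 3 0 (.S 4 11 (.S 4 5 (.S 4 2 (.L 4 8 [4, 4, 4] [262, 252, 242, 0, 0, 0] [0,
    0, 0, 0, 0, 0] 100000 40000 40000 1340000 60000 0 100000 0 0 0 0) (.L 4 8 [4, 4, 4] [290, 282,
    272, 262, 252, 242] [0, 0, 0, 0, 0, 0] 100000 50000 50000 1350000 50000 0 100000 0 0 0 0)) (.L
    4 8 [4, 4, 4] [290, 290, 290, 290, 290, 290] [0, 0, 0, 0, 0, 0] 100000 242857 0 2 85714 0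
    342857 0 0 0 0)) (.E 2)) (.S 4 11 (.S 4 5 (.S 4 2 (.L 4 8 [4, 4, 4] [262, 252, 242, 0, 0, 0]
    [12, 2, 0, 0, 0, 0] 100000 533333 422222 1 211111 0 211111 0 0 0 0) (.L 4 8 [4, 4, 4] [290,
    282, 272, 262, 252, 242] [12, 2, 0, 0, 0, 0] 100000 100000 25000 1025000 75000 0 175000 0 0 0
    0)) (.L 4 8 [4, 4, 4] [290, 290, 290, 290, 290, 290] [12, 2, 0, 0, 0, 0] 100000 216668 1 0
    79167 0 316667 0 0 0 0)) (.E 2))) (.S 4 11 (.S 4 5 (.S 4 2 (.L 4 8 [4, 4, 4] [262, 252, 242, 0,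
    0, 0] [24, 16, 6, 0, 0, 0] 100000 500000 400000 0 200000 0 200000 0 0 0 0) (.L 4 8 [4, 4, 4]
    [290, 282, 272, 262, 252, 242] [24, 16, 6, 0, 0, 0] 100000 300002 72729 0 145455 0 327273 0 0 0
    0)) (.E 2)) (.E 2))) (.E 1))) (.S 3 1 (.S 3 0 (.S 4 11 (.S 4 5 (.S 4 2 (.L 4 8 [4, 4, 4] [262,
    252, 242, 0, 0, 0] [0, 0, 0, 0, 0, 0] 100000 470000 380000 0 190000 0 190000 0 0 0 0) (.L 4 8
    [4, 4, 4] [290, 282, 272, 262, 252, 242] [0, 0, 0, 0, 0, 0] 100000 318000 76000 0 152000 0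
    342000 0 0 0 0)) (.L 4 8 [4, 4, 4] [290, 290, 290, 290, 290, 290] [0, 0, 0, 0, 0, 0] 100000
    204000 0 0 76000 0 304000 0 0 0 0)) (.E 2)) (.S 4 11 (.S 4 5 (.S 4 2 (.L 4 8 [4, 4, 4] [262,
    252, 242, 0, 0, 0] [14, 4, 0, 0, 0, 0] 100000 470000 380000 0 190000 0 145000 0 0 0 0) (.L 4 8
    [4, 4, 4] [290, 282, 272, 262, 252, 242] [14, 4, 0, 0, 0, 0] 100000 272880 67795 1 135593 0
    305085 0 0 0 0)) (.E 2)) (.E 2))) (.E 1)))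

lemma s20_20_10_2_11 {n : ℕ} (hn : 5 ≤ n) : NoNd (d20_20_10_2.R : ℤ) d20_20_10_2.H n d20_20_10_2.a d20_20_10_2.b
    (BlkD.inB (BlkD.upd (BlkD.upd (BlkD.upd (fun _ => 0) 0 6) 1 8) 1 10)
      (BlkD.upd (BlkD.upd (BlkD.upd (BlkD.upd (BlkD.upd (BlkD.upd (BlkD.upd (fun _ => 20) 0 10) 2 2) 0 8) 0 7) 0 6) 1 14) 1 11)) :=
  BlkD.tree_sound (BlkD.pairOk_sound k20_20_10_2) (by decide) hn t20_20_10_2_11 _ _ (by decide +kernel)

/-- certificates of the pair `(10, 2)`, part 12 -/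
def t20_20_10_2_12 : BlkD.Tr :=
  .S 1 13 (.S 1 12 (.L 4 8 [4, 4, 4] [324, 324, 324, 324, 324, 324] [] 100000 150000 100000 1000000
    100000 0 150000 50000 0 0 0) (.L 4 8 [4, 4, 4] [360, 360, 360, 360, 360, 360] [] 100000 400000
    200000 0 200000 0 300000 0 0 0 0)) (.L 4 8 [4, 4, 4] [398, 398, 398, 398, 398, 398] [] 100000
    374195 187098 0 190323 0 287097 0 0 0 0)

lemma s20_20_10_2_12 {n : ℕ} (hn : 5 ≤ n) : NoNd (d20_20_10_2.R : ℤ) d20_20_10_2.H n d20_20_10_2.a d20_20_10_2.b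
    (BlkD.inB (BlkD.upd (BlkD.upd (BlkD.upd (fun _ => 0) 0 6) 1 8) 1 12)
      (BlkD.upd (BlkD.upd (BlkD.upd (BlkD.upd (BlkD.upd (BlkD.upd (fun _ => 20) 0 10) 2 2) 0 8) 0 7) 0 6) 1 14)) :=
  BlkD.tree_sound (BlkD.pairOk_sound k20_20_10_2) (by decide) hn t20_20_10_2_12 _ _ (by decide +kernel)

/-- certificates of the pair `(10, 2)`, part 13 -/
def t20_20_10_2_13 : BlkD.Tr :=
  .E 0

lemma s20_20_10_2_13 {n : ℕ} (hn : 5 ≤ n) : NoNd (d20_20_10_2.R : ℤ) d20_20_10_2.H n d20_20_10_2.a d20_20_10_2.b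
    (BlkD.inB (BlkD.upd (BlkD.upd (fun _ => 0) 0 6) 1 15)
      (BlkD.upd (BlkD.upd (BlkD.upd (BlkD.upd (BlkD.upd (fun _ => 20) 0 10) 2 2) 0 8) 0 7) 0 6)) :=
  BlkD.tree_sound (BlkD.pairOk_sound k20_20_10_2) (by decide) hn t20_20_10_2_13 _ _ (by decide +kernel)

/-- certificates of the pair `(10, 2)`, part 14 -/
def t20_20_10_2_14 : BlkD.Tr :=
  .S 1 3 (.L 4 8 [4, 4, 4] [] [] 100000 50000 50000 1200000 50000 0 50000 25000 0 0 0) (.S 1 5 (.L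
    4 8 [4, 4, 4] [] [] 100000 12500 12500 1400000 25000 0 25000 37500 0 50000 25000) (.L 4 8 [4,
    4, 4] [162, 162, 154, 144, 134, 124] [] 100000 17392 17392 1447826 30435 0 47826 34783 0 47826
    17391))

lemma s20_20_10_2_14 {n : ℕ} (hn : 5 ≤ n) : NoNd (d20_20_10_2.R : ℤ) d20_20_10_2.H n d20_20_10_2.a d20_20_10_2.b
    (BlkD.inB (BlkD.upd (BlkD.upd (fun _ => 0) 0 6) 0 7)
      (BlkD.upd (BlkD.upd (BlkD.upd (BlkD.upd (BlkD.upd (BlkD.upd (fun _ => 20) 0 10) 2 2) 0 8) 0 7) 1 13) 1 6)) :=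
  BlkD.tree_sound (BlkD.pairOk_sound k20_20_10_2) (by decide) hn t20_20_10_2_14 _ _ (by decide +kernel)

/-- certificates of the pair `(10, 2)`, part 15 -/
def t20_20_10_2_15 : BlkD.Tr :=
  .S 1 7 (.S 2 1 (.S 2 0 (.S 3 6 (.S 3 3 (.S 3 1 (.L 4 8 [4, 4, 4] [188, 188, 188, 180, 170, 160]
    [] 100000 33334 33334 1383333 38889 0 66667 11111 0 0 33333) (.S 3 2 (.L 4 8 [4, 4, 4] [188,
    188, 188, 180, 170, 160] [20, 12, 2, 0, 0, 0] 100000 16667 16667 1433335 33333 0 50000 33333 0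
    33333 33333) (.S 4 7 (.S 4 3 (.L 4 8 [4, 4, 4] [170, 160, 150, 140, 0, 0] [30, 24, 16, 6, 0, 0]
    100000 100000 100000 1240000 60000 0 60000 100000 0 0 0) (.L 4 8 [4, 4, 4] [188, 188, 188, 180,
    170, 160] [30, 24, 16, 6, 0, 0] 100000 280001 1 0 66667 0 380000 46667 0 0 0)) (.E 2)))) (.L 4
    8 [4, 4, 4] [188, 188, 188, 180, 170, 160] [] 100000 100000 100000 1250000 50000 0 50000 100000
    0 0 0)) (.E 1)) (.S 3 5 (.S 3 2 (.S 3 1 (.L 4 8 [4, 4, 4] [188, 188, 188, 180, 170, 160] []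
    100000 28572 28572 1409525 38095 0 66667 0 0 14286 28571) (.S 4 7 (.S 4 3 (.L 4 8 [4, 4, 4]
    [170, 160, 150, 140, 0, 0] [24, 16, 6, 0, 0, 0] 100000 35295 35295 1417646 47059 0 47059 0 0
    29412 17647) (.L 4 8 [4, 4, 4] [188, 188, 188, 180, 170, 160] [24, 16, 6, 0, 0, 0] 100000
    233334 1 233334 66667 0 333333 0 0 0 0)) (.E 2))) (.E 1)) (.E 1))) (.L 4 8 [4, 4, 4] [188, 188,
    188, 180, 170, 160] [] 100000 25000 25000 1437500 37500 0 37500 0 0 50000 0)) (.S 2 1 (.S 2 0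
    (.S 3 5 (.S 3 2 (.S 3 1 (.L 4 8 [4, 4, 4] [216, 216, 216, 216, 208, 198] [] 100000 40476 40476
    1385715 42857 0 64286 42857 0 0 19048) (.S 4 8 (.S 4 4 (.L 4 8 [4, 4, 4] [208, 198, 188, 178,
    168, 0] [20, 12, 2, 0, 0, 0] 100000 35295 35295 1417646 47059 0 82353 11765 0 17647 17647) (.L
    4 8 [4, 4, 4] [216, 216, 216, 216, 208, 198] [20, 12, 2, 0, 0, 0] 100000 277778 0 0 94444 0
    377778 0 0 0 0)) (.E 2))) (.S 3 4 (.S 3 3 (.S 4 8 (.S 4 4 (.L 4 8 [4, 4, 4] [208, 198, 188,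
    178, 168, 0] [30, 24, 16, 6, 0, 0] 100000 100000 100000 1280000 60000 0 60000 100000 0 0 0) (.L
    4 8 [4, 4, 4] [216, 216, 216, 216, 208, 198] [30, 24, 16, 6, 0, 0] 100000 260000 0 0 0 0 360000
    0 0 0 0)) (.E 2)) (.L 4 8 [4, 4, 4] [216, 216, 216, 216, 208, 198] [41, 36, 30, 22, 12, 0]
    100000 163636 163636 1118184 72727 0 72727 100000 0 0 9091)) (.E 1))) (.E 1)) (.S 3 4 (.S 3 2
    (.S 3 1 (.S 3 0 (.S 4 8 (.S 4 4 (.S 4 2 (.L 4 8 [4, 4, 4] [188, 178, 168, 0, 0, 0] [0, 0, 0, 0,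
    0, 0] 100000 50000 50000 1360000 60000 0 60000 0 0 0 0) (.L 4 8 [4, 4, 4] [208, 198, 188, 178,
    168, 0] [0, 0, 0, 0, 0, 0] 100000 30000 10000 1280000 40000 0 120000 0 0 0 20000)) (.L 4 8 [4,
    4, 4] [216, 216, 216, 216, 208, 198] [0, 0, 0, 0, 0, 0] 100000 140000 0 700000 60000 0 240000 0
    0 0 0)) (.E 2)) (.S 4 8 (.S 4 4 (.L 4 8 [4, 4, 4] [208, 198, 188, 178, 168, 0] [12, 2, 0, 0, 0,
    0] 100000 35295 35295 1417646 47059 0 47059 0 0 17647 17647) (.L 4 8 [4, 4, 4] [216, 216, 216,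
    216, 208, 198] [12, 2, 0, 0, 0, 0] 100000 277778 0 0 94444 0 377778 0 0 0 0)) (.E 2))) (.S 4 8
    (.S 4 4 (.S 4 2 (.L 4 8 [4, 4, 4] [188, 178, 168, 0, 0, 0] [24, 16, 6, 0, 0, 0] 100000 66668
    66668 1333331 66667 0 66667 0 0 0 0) (.L 4 8 [4, 4, 4] [208, 198, 188, 178, 168, 0] [24, 16, 6,
    0, 0, 0] 100000 100000 25000 975000 75000 0 175000 0 0 0 0)) (.L 4 8 [4, 4, 4] [216, 216, 216,
    216, 208, 198] [24, 16, 6, 0, 0, 0] 100000 260000 0 0 0 0 360000 0 0 0 0)) (.E 2))) (.E 1)) (.E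
    1))) (.S 3 3 (.S 3 1 (.S 3 0 (.L 4 8 [4, 4, 4] [216, 216, 216, 216, 208, 198] [0, 0, 0, 0, 0,
    0] 100000 50000 50000 1350000 50000 0 50000 0 0 0 0) (.S 4 8 (.S 4 4 (.L 4 8 [4, 4, 4] [208,
    198, 188, 178, 168, 0] [14, 4, 0, 0, 0, 0] 100000 35295 35295 1423528 47059 0 47059 0 0 17647
    17647) (.L 4 8 [4, 4, 4] [216, 216, 216, 216, 208, 198] [14, 4, 0, 0, 0, 0] 100000 213044 1 2
    78261 0 313043 0 0 0 0)) (.E 2))) (.E 1)) (.E 1)))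

lemma s20_20_10_2_15 {n : ℕ} (hn : 5 ≤ n) : NoNd (d20_20_10_2.R : ℤ) d20_20_10_2.H n d20_20_10_2.a d20_20_10_2.b
    (BlkD.inB (BlkD.upd (BlkD.upd (BlkD.upd (fun _ => 0) 0 6) 0 7) 1 7)
      (BlkD.upd (BlkD.upd (BlkD.upd (BlkD.upd (BlkD.upd (BlkD.upd (BlkD.upd (fun _ => 20) 0 10) 2 2) 0 8) 0 7) 1 13) 1 10) 1 8)) :=
  BlkD.tree_sound (BlkD.pairOk_sound k20_20_10_2) (by decide) hn t20_20_10_2_15 _ _ (by decide +kernel)

/-- certificates of the pair `(10, 2)`, part 16 -/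
def t20_20_10_2_16 : BlkD.Tr :=
  .S 1 9 (.S 2 1 (.S 2 0 (.S 3 4 (.S 3 2 (.S 3 1 (.S 3 0 (.L 4 8 [4, 4, 4] [246, 246, 246, 246,
    246, 238] [0, 0, 0, 0, 0, 0] 100000 50000 50000 1350000 50000 0 100000 0 0 0 0) (.S 4 9 (.S 4 4
    (.L 4 8 [4, 4, 4] [238, 228, 218, 208, 198, 0] [10, 0, 0, 0, 0, 0] 100000 25000 25000 1400000
    50000 0 100000 0 0 0 0) (.L 4 8 [4, 4, 4] [246, 246, 246, 246, 246, 238] [10, 0, 0, 0, 0, 0]
    100000 60000 0 1100000 40000 0 160000 0 0 0 0)) (.E 2))) (.S 4 9 (.S 4 4 (.L 4 8 [4, 4, 4]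
    [238, 228, 218, 208, 198, 0] [20, 12, 2, 0, 0, 0] 100000 66668 66668 1333332 66667 0 100000 0 0
    0 0) (.L 4 8 [4, 4, 4] [246, 246, 246, 246, 246, 238] [20, 12, 2, 0, 0, 0] 100000 278948 1 1
    94737 0 378947 0 0 0 0)) (.E 2))) (.S 3 3 (.S 4 9 (.S 4 4 (.L 4 8 [4, 4, 4] [238, 228, 218,
    208, 198, 0] [30, 24, 16, 6, 0, 0] 100000 533333 422222 1 211111 0 211111 211111 0 0 0) (.L 4 8
    [4, 4, 4] [246, 246, 246, 246, 246, 238] [30, 24, 16, 6, 0, 0] 100000 230436 1 0 82609 0 330435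
    0 0 0 0)) (.E 2)) (.L 4 8 [4, 4, 4] [246, 246, 246, 246, 246, 238] [41, 36, 30, 22, 12, 0]
    100000 340001 100001 0 146667 0 146667 340000 0 0 0))) (.E 1)) (.S 3 3 (.S 3 1 (.S 3 0 (.S 4 9
    (.S 4 4 (.L 4 8 [4, 4, 4] [238, 228, 218, 208, 198, 0] [0, 0, 0, 0, 0, 0] 100000 25000 25000
    1400000 50000 0 100000 0 0 0 0) (.L 4 8 [4, 4, 4] [246, 246, 246, 246, 246, 238] [0, 0, 0, 0,
    0, 0] 100000 100000 0 900000 50000 0 200000 0 0 0 0)) (.E 2)) (.S 4 9 (.S 4 4 (.L 4 8 [4, 4, 4]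
    [238, 228, 218, 208, 198, 0] [12, 2, 0, 0, 0, 0] 100000 66668 66668 1333331 66667 0 66667 0 0 0
    0) (.L 4 8 [4, 4, 4] [246, 246, 246, 246, 246, 238] [12, 2, 0, 0, 0, 0] 100000 278948 1 1 94737
    0 378947 0 0 0 0)) (.E 2))) (.S 3 2 (.S 4 9 (.S 4 4 (.L 4 8 [4, 4, 4] [238, 228, 218, 208, 198,
    0] [24, 16, 6, 0, 0, 0] 100000 66668 66668 1333331 66667 0 100000 0 0 0 0) (.L 4 8 [4, 4, 4]
    [246, 246, 246, 246, 246, 238] [24, 16, 6, 0, 0, 0] 100000 230436 1 0 82609 0 330435 0 0 0 0))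
    (.E 2)) (.E 1))) (.E 1))) (.S 3 2 (.S 3 1 (.S 3 0 (.L 4 8 [4, 4, 4] [246, 246, 246, 246, 246,
    238] [0, 0, 0, 0, 0, 0] 100000 27275 27275 1436360 45455 0 45455 0 0 27273 27273) (.S 4 9 (.S 4
    4 (.L 4 8 [4, 4, 4] [238, 228, 218, 208, 198, 0] [14, 4, 0, 0, 0, 0] 100000 358622 131036 0
    196552 0 327586 0 0 0 0) (.L 4 8 [4, 4, 4] [246, 246, 246, 246, 246, 238] [14, 4, 0, 0, 0, 0]
    100000 216668 1 0 79167 0 316667 0 0 0 0)) (.E 2))) (.E 1)) (.E 1))) (.S 2 1 (.S 2 0 (.S 3 3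
    (.S 3 1 (.S 3 0 (.L 4 8 [4, 4, 4] [278, 278, 278, 278, 278, 278] [0, 0, 0, 0, 0, 0] 100000
    83334 83334 1299999 66667 0 100000 0 0 0 0) (.S 4 10 (.S 4 5 (.S 4 2 (.L 4 8 [4, 4, 4] [250,
    240, 230, 0, 0, 0] [10, 0, 0, 0, 0, 0] 100000 100000 100000 1200000 100000 0 100000 0 0 0 0)
    (.L 4 8 [4, 4, 4] [278, 270, 260, 250, 240, 230] [10, 0, 0, 0, 0, 0] 100000 25000 25000 1400000
    50000 0 100000 0 0 0 0)) (.L 4 8 [4, 4, 4] [278, 278, 278, 278, 278, 278] [10, 0, 0, 0, 0, 0]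
    100000 260000 0 0 120000 0 360000 0 0 0 0)) (.E 2))) (.L 4 8 [4, 4, 4] [278, 278, 278, 278,
    278, 278] [] 100000 166667 133334 1033334 100000 0 133333 66667 0 0 0)) (.L 4 8 [4, 4, 4] [278,
    278, 278, 278, 278, 278] [] 100000 0 100000 0 0 0 0 0 0 0 0)) (.S 3 2 (.S 3 1 (.S 3 0 (.S 4 10
    (.S 4 5 (.L 4 8 [4, 4, 4] [278, 270, 260, 250, 240, 230] [0, 0, 0, 0, 0, 0] 100000 66668 66668
    1333332 66667 0 100000 0 0 0 0) (.L 4 8 [4, 4, 4] [278, 278, 278, 278, 278, 278] [0, 0, 0, 0,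
    0, 0] 100000 237500 0 0 112500 0 337500 0 0 0 0)) (.E 2)) (.L 4 8 [4, 4, 4] [278, 278, 278,
    278, 278, 278] [12, 2, 0, 0, 0, 0] 100000 85716 85716 1299997 71429 0 100000 0 0 14286 14286))
    (.L 4 8 [4, 4, 4] [278, 278, 278, 278, 278, 278] [24, 16, 6, 0, 0, 0] 100000 400000 200000 0
    200000 0 300000 100000 0 0 0)) (.E 1))) (.L 4 8 [4, 4, 4] [278, 278, 278, 278, 278, 278] []
    100000 533333 422222 1 211111 0 211111 0 0 0 0))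

lemma s20_20_10_2_16 {n : ℕ} (hn : 5 ≤ n) : NoNd (d20_20_10_2.R : ℤ) d20_20_10_2.H n d20_20_10_2.a d20_20_10_2.b
    (BlkD.inB (BlkD.upd (BlkD.upd (BlkD.upd (BlkD.upd (fun _ => 0) 0 6) 0 7) 1 7) 1 9)
      (BlkD.upd (BlkD.upd (BlkD.upd (BlkD.upd (BlkD.upd (BlkD.upd (fun _ => 20) 0 10) 2 2) 0 8) 0 7) 1 13) 1 10)) :=
  BlkD.tree_sound (BlkD.pairOk_sound k20_20_10_2) (by decide) hn t20_20_10_2_16 _ _ (by decide +kernel)

/-- certificates of the pair `(10, 2)`, part 17 -/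
def t20_20_10_2_17 : BlkD.Tr :=
  .S 1 12 (.S 1 11 (.L 4 8 [4, 4, 4] [312, 312, 312, 312, 312, 312] [] 100000 100000 80000 1220000
    80000 0 120000 40000 0 0 20000) (.S 2 1 (.S 2 0 (.L 4 8 [4, 4, 4] [348, 348, 348, 348, 348,
    348] [] 100000 150000 100000 1000000 100000 0 150000 50000 0 0 0) (.S 3 0 (.L 3 5 [5, 5, 6]
    [348, 348, 348, 348, 348, 348] [0, 0, 0, 0, 0, 0] 100000 362500 145000 0 195000 0 317500 0 0 0
    0) (.L 3 5 [5, 5, 6] [348, 348, 348, 348, 348, 348] [] 100000 0 100000 0 0 0 0 0 0 0 0))) (.L 3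
    5 [5, 5, 6] [348, 348, 348, 348, 348, 348] [] 100000 0 100000 0 0 0 0 0 0 0 0))) (.L 3 5 [5, 5,
    6] [386, 386, 386, 386, 386, 386] [] 100000 374195 187098 0 190323 0 287097 0 0 0 0)

lemma s20_20_10_2_17 {n : ℕ} (hn : 5 ≤ n) : NoNd (d20_20_10_2.R : ℤ) d20_20_10_2.H n d20_20_10_2.a d20_20_10_2.b
    (BlkD.inB (BlkD.upd (BlkD.upd (BlkD.upd (BlkD.upd (fun _ => 0) 0 6) 0 7) 1 7) 1 11)
      (BlkD.upd (BlkD.upd (BlkD.upd (BlkD.upd (BlkD.upd (fun _ => 20) 0 10) 2 2) 0 8) 0 7) 1 13)) :=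
  BlkD.tree_sound (BlkD.pairOk_sound k20_20_10_2) (by decide) hn t20_20_10_2_17 _ _ (by decide +kernel)

/-- certificates of the pair `(10, 2)`, part 18 -/
def t20_20_10_2_18 : BlkD.Tr :=
  .E 0

lemma s20_20_10_2_18 {n : ℕ} (hn : 5 ≤ n) : NoNd (d20_20_10_2.R : ℤ) d20_20_10_2.H n d20_20_10_2.a d20_20_10_2.b
    (BlkD.inB (BlkD.upd (BlkD.upd (BlkD.upd (fun _ => 0) 0 6) 0 7) 1 14)
      (BlkD.upd (BlkD.upd (BlkD.upd (BlkD.upd (fun _ => 20) 0 10) 2 2) 0 8) 0 7)) :=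
  BlkD.tree_sound (BlkD.pairOk_sound k20_20_10_2) (by decide) hn t20_20_10_2_18 _ _ (by decide +kernel)

/-- certificates of the pair `(10, 2)`, part 19 -/
def t20_20_10_2_19 : BlkD.Tr :=
  .S 1 3 (.L 3 5 [5, 5, 6] [] [] 100000 15790 15790 1347368 26316 0 26316 36842 0 47368 21053) (.S
    1 5 (.S 1 4 (.L 3 5 [5, 5, 6] [116, 106, 96, 86, 76, 0] [] 100000 10000 10000 1440000 20000 0
    20000 40000 0 60000 20000) (.S 2 1 (.S 2 0 (.L 4 8 [4, 4, 4] [148, 140, 130, 120, 110, 100] []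
    100000 34375 34375 1387500 37500 0 56250 62500 0 12500 18750) (.S 3 6 (.S 3 3 (.S 3 1 (.L 4 8
    [4, 4, 4] [148, 140, 130, 120, 110, 100] [] 100000 16667 16667 1400001 33333 0 33333 0 0 33333
    33333) (.S 3 2 (.S 4 5 (.S 4 2 (.L 4 8 [4, 4, 4] [120, 110, 100, 0, 0, 0] [24, 16, 6, 0, 0, 0]
    100000 22222 22222 1422224 44444 0 44444 0 0 55556 0) (.L 4 8 [4, 4, 4] [148, 140, 130, 120,
    110, 100] [24, 16, 6, 0, 0, 0] 100000 80000 0 1000000 60000 0 180000 0 0 0 0)) (.E 2)) (.E 1)))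
    (.E 1)) (.E 1))) (.L 4 8 [4, 4, 4] [148, 140, 130, 120, 110, 100] [] 100000 50000 50000 1350000
    50000 0 50000 0 0 0 0))) (.S 2 1 (.S 2 0 (.S 3 6 (.S 3 3 (.S 3 1 (.L 4 8 [4, 4, 4] [174, 174,
    166, 156, 146, 136] [] 100000 31250 31250 1387500 37500 0 56250 37500 0 0 37500) (.S 3 2 (.L 4
    8 [4, 4, 4] [174, 174, 166, 156, 146, 136] [20, 12, 2, 0, 0, 0] 100000 31250 31250 1412500
    37500 0 75000 37500 0 0 37500) (.S 4 6 (.S 4 3 (.S 4 1 (.L 4 8 [4, 4, 4] [136, 126, 0, 0, 0, 0]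
    [30, 24, 16, 6, 0, 0] 100000 100000 100000 1225000 75000 0 75000 100000 0 0 0) (.L 4 8 [4, 4,
    4] [156, 146, 136, 126, 0, 0] [30, 24, 16, 6, 0, 0] 100000 25000 25000 1350000 50000 0 100000 0
    0 0 0)) (.L 4 8 [4, 4, 4] [174, 174, 166, 156, 146, 136] [30, 24, 16, 6, 0, 0] 100000 280001 1
    0 66667 0 380000 113333 0 0 0)) (.E 2)))) (.L 4 8 [4, 4, 4] [174, 174, 166, 156, 146, 136] []
    100000 133335 133335 1199998 66667 0 66667 100000 0 0 33333)) (.E 1)) (.S 3 5 (.S 3 2 (.S 3 1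
    (.L 4 8 [4, 4, 4] [174, 174, 166, 156, 146, 136] [] 100000 29168 29168 1433333 41667 0 41667 0
    0 16667 25000) (.S 4 6 (.S 4 3 (.S 4 1 (.L 4 8 [4, 4, 4] [136, 126, 0, 0, 0, 0] [24, 16, 6, 0,
    0, 0] 100000 40000 40000 1360000 60000 0 100000 40000 0 0 0) (.L 4 8 [4, 4, 4] [156, 146, 136,
    126, 0, 0] [24, 16, 6, 0, 0, 0] 100000 25000 25000 1350000 50000 0 100000 0 0 0 0)) (.L 4 8 [4,
    4, 4] [174, 174, 166, 156, 146, 136] [24, 16, 6, 0, 0, 0] 100000 166668 1 566665 66667 0 266667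
    0 0 0 0)) (.E 2))) (.E 1)) (.E 1))) (.S 3 4 (.S 3 2 (.S 3 1 (.S 3 0 (.L 4 8 [4, 4, 4] [174,
    174, 166, 156, 146, 136] [0, 0, 0, 0, 0, 0] 100000 20000 20000 1400000 40000 0 40000 0 0 40000
    20000) (.S 4 6 (.S 4 3 (.L 4 8 [4, 4, 4] [156, 146, 136, 126, 0, 0] [14, 4, 0, 0, 0, 0] 100000
    66668 66668 1299998 66667 0 66667 0 0 0 0) (.L 4 8 [4, 4, 4] [174, 174, 166, 156, 146, 136]
    [14, 4, 0, 0, 0, 0] 100000 280000 0 0 90000 0 380000 0 0 0 0)) (.E 2))) (.E 1)) (.E 1)) (.E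
    1))))

lemma s20_20_10_2_19 {n : ℕ} (hn : 5 ≤ n) : NoNd (d20_20_10_2.R : ℤ) d20_20_10_2.H n d20_20_10_2.a d20_20_10_2.b
    (BlkD.inB (BlkD.upd (BlkD.upd (fun _ => 0) 0 6) 0 8)
      (BlkD.upd (BlkD.upd (BlkD.upd (BlkD.upd (BlkD.upd (fun _ => 20) 0 10) 2 2) 0 8) 1 12) 1 6)) :=
  BlkD.tree_sound (BlkD.pairOk_sound k20_20_10_2) (by decide) hn t20_20_10_2_19 _ _ (by decide +kernel)

/-- certificates of the pair `(10, 2)`, part 20 -/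
def t20_20_10_2_20 : BlkD.Tr :=
  .S 1 9 (.S 1 8 (.S 1 7 (.S 2 1 (.S 2 0 (.S 3 5 (.S 3 2 (.S 3 1 (.L 4 8 [4, 4, 4] [202, 202, 202,
    194, 184, 174] [] 100000 30000 30000 1400000 40000 0 80000 40000 0 0 40000) (.S 4 7 (.S 4 3 (.L
    4 8 [4, 4, 4] [184, 174, 164, 154, 0, 0] [20, 12, 2, 0, 0, 0] 100000 66668 66668 1299999 66667
    0 100000 66667 0 0 0) (.L 4 8 [4, 4, 4] [202, 202, 202, 194, 184, 174] [20, 12, 2, 0, 0, 0]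
    100000 100000 0 900000 0 0 200000 200000 0 0 0)) (.E 2))) (.S 3 4 (.S 3 3 (.S 4 7 (.S 4 3 (.L 4
    8 [4, 4, 4] [184, 174, 164, 154, 0, 0] [30, 24, 16, 6, 0, 0] 100000 100000 100000 1225000 75000
    0 100000 100000 0 0 0) (.L 4 8 [4, 4, 4] [202, 202, 202, 194, 184, 174] [30, 24, 16, 6, 0, 0]
    100000 280000 0 0 50000 0 380000 180000 0 0 0)) (.E 2)) (.L 4 8 [4, 4, 4] [202, 202, 202, 194,
    184, 174] [41, 36, 30, 22, 12, 0] 100000 100000 100000 1260000 60000 0 80000 100000 0 0 0)) (.E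
    1))) (.E 1)) (.S 3 4 (.S 3 2 (.S 3 1 (.S 3 0 (.S 4 7 (.S 4 3 (.L 4 8 [4, 4, 4] [184, 174, 164,
    154, 0, 0] [0, 0, 0, 0, 0, 0] 100000 27274 27274 1418181 45455 0 100000 0 0 9091 36364) (.L 4 8
    [4, 4, 4] [202, 202, 202, 194, 184, 174] [0, 0, 0, 0, 0, 0] 100000 33334 1 1233335 33333 0
    133333 0 0 0 0)) (.E 2)) (.S 4 7 (.S 4 3 (.L 4 8 [4, 4, 4] [184, 174, 164, 154, 0, 0] [12, 2,
    0, 0, 0, 0] 100000 40000 40000 1360000 60000 0 100000 0 0 20000 0) (.L 4 8 [4, 4, 4] [202, 202,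
    202, 194, 184, 174] [12, 2, 0, 0, 0, 0] 100000 33333 0 1233335 33333 0 133333 0 0 0 0)) (.E
    2))) (.S 4 7 (.S 4 3 (.L 4 8 [4, 4, 4] [184, 174, 164, 154, 0, 0] [24, 16, 6, 0, 0, 0] 100000
    40000 40000 1360000 60000 0 100000 40000 0 20000 0) (.L 4 8 [4, 4, 4] [202, 202, 202, 194, 184,
    174] [24, 16, 6, 0, 0, 0] 100000 100000 0 900000 50000 0 200000 0 0 0 0)) (.E 2))) (.E 1)) (.E
    1))) (.S 3 3 (.S 3 1 (.S 3 0 (.L 4 8 [4, 4, 4] [202, 202, 202, 194, 184, 174] [0, 0, 0, 0, 0,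
    0] 100000 22222 22222 1433336 44444 0 44444 0 0 33333 0) (.S 4 7 (.S 4 3 (.L 4 8 [4, 4, 4]
    [184, 174, 164, 154, 0, 0] [14, 4, 0, 0, 0, 0] 100000 40000 40000 1340000 60000 0 100000 0 0
    20000 0) (.L 4 8 [4, 4, 4] [202, 202, 202, 194, 184, 174] [14, 4, 0, 0, 0, 0] 100000 278948 1 1
    94737 0 378947 0 0 0 0)) (.E 2))) (.E 1)) (.E 1))) (.S 2 1 (.S 2 0 (.S 3 4 (.S 3 2 (.S 3 1 (.S
    3 0 (.L 4 8 [4, 4, 4] [232, 232, 232, 232, 224, 214] [0, 0, 0, 0, 0, 0] 100000 28572 28572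
    1385715 42857 0 85714 0 0 0 42857) (.S 4 8 (.S 4 4 (.L 4 8 [4, 4, 4] [224, 214, 204, 194, 184,
    0] [10, 0, 0, 0, 0, 0] 100000 66668 66668 1299999 66667 0 100000 66667 0 0 0) (.L 4 8 [4, 4, 4]
    [232, 232, 232, 232, 224, 214] [10, 0, 0, 0, 0, 0] 100000 50000 0 1150000 50000 0 150000 0 0 0
    0)) (.E 2))) (.S 4 8 (.S 4 4 (.L 4 8 [4, 4, 4] [224, 214, 204, 194, 184, 0] [20, 12, 2, 0, 0,
    0] 100000 66668 66668 1299999 66667 0 100000 66667 0 0 0) (.L 4 8 [4, 4, 4] [232, 232, 232,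
    232, 224, 214] [20, 12, 2, 0, 0, 0] 100000 280000 0 0 100000 0 380000 80000 0 0 0)) (.E 2)))
    (.S 3 3 (.S 4 8 (.S 4 4 (.L 4 8 [4, 4, 4] [224, 214, 204, 194, 184, 0] [30, 24, 16, 6, 0, 0]
    100000 100000 100000 1225000 75000 0 100000 100000 0 0 0) (.L 4 8 [4, 4, 4] [232, 232, 232,
    232, 224, 214] [30, 24, 16, 6, 0, 0] 100000 280000 0 0 0 0 380000 0 0 0 0)) (.E 2)) (.L 4 8 [4,
    4, 4] [232, 232, 232, 232, 224, 214] [41, 36, 30, 22, 12, 0] 100000 340001 100001 0 146667 0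
    220000 340000 0 0 0))) (.E 1)) (.S 3 3 (.S 3 1 (.L 4 8 [4, 4, 4] [232, 232, 232, 232, 224, 214]
    [] 100000 21429 21429 1442858 42857 0 100000 0 0 28571 0) (.S 3 2 (.S 4 8 (.S 4 4 (.L 4 8 [4,
    4, 4] [224, 214, 204, 194, 184, 0] [24, 16, 6, 0, 0, 0] 100000 40000 40000 1400000 60000 0
    100000 0 0 0 0) (.L 4 8 [4, 4, 4] [232, 232, 232, 232, 224, 214] [24, 16, 6, 0, 0, 0] 100000
    280000 0 0 0 0 380000 0 0 0 0)) (.E 2)) (.E 1))) (.E 1))) (.L 4 8 [4, 4, 4] [232, 232, 232,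
    232, 224, 214] [] 100000 66668 66668 1299998 66667 0 100000 0 0 33333 0))) (.L 4 8 [4, 4, 4]
    [264, 264, 264, 264, 264, 256] [] 100000 40000 40000 1400000 60000 0 100000 0 0 0 0)) (.S 1 11
    (.S 1 10 (.L 4 8 [4, 4, 4] [298, 298, 298, 298, 298, 298] [] 100000 40000 40000 1400000 60000 0
    100000 40000 0 0 0) (.L 4 8 [4, 4, 4] [334, 334, 334, 334, 334, 334] [] 100000 310000 50000 0
    205000 0 360000 50000 0 0 0)) (.L 4 8 [4, 4, 4] [372, 372, 372, 372, 372, 372] [] 100000 344444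
    222222 2 222222 0 222222 0 0 0 0))

lemma s20_20_10_2_20 {n : ℕ} (hn : 5 ≤ n) : NoNd (d20_20_10_2.R : ℤ) d20_20_10_2.H n d20_20_10_2.a d20_20_10_2.b
    (BlkD.inB (BlkD.upd (BlkD.upd (BlkD.upd (fun _ => 0) 0 6) 0 8) 1 7)
      (BlkD.upd (BlkD.upd (BlkD.upd (BlkD.upd (fun _ => 20) 0 10) 2 2) 0 8) 1 12)) :=
  BlkD.tree_sound (BlkD.pairOk_sound k20_20_10_2) (by decide) hn t20_20_10_2_20 _ _ (by decide +kernel)

/-- certificates of the pair `(10, 2)`, part 21 -/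
def t20_20_10_2_21 : BlkD.Tr :=
  .E 0

lemma s20_20_10_2_21 {n : ℕ} (hn : 5 ≤ n) : NoNd (d20_20_10_2.R : ℤ) d20_20_10_2.H n d20_20_10_2.a d20_20_10_2.b
    (BlkD.inB (BlkD.upd (BlkD.upd (BlkD.upd (fun _ => 0) 0 6) 0 8) 1 13)
      (BlkD.upd (BlkD.upd (BlkD.upd (fun _ => 20) 0 10) 2 2) 0 8)) :=
  BlkD.tree_sound (BlkD.pairOk_sound k20_20_10_2) (by decide) hn t20_20_10_2_21 _ _ (by decide +kernel)

/-- certificates of the pair `(10, 2)`, part 22 -/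
def t20_20_10_2_22 : BlkD.Tr :=
  .S 0 9 (.S 1 11 (.S 1 5 (.S 1 2 (.L 4 8 [4, 4, 4] [] [] 100000 0 0 1400000 0 0 0 50000 0 50000
    50000) (.S 1 4 (.L 4 8 [4, 4, 4] [] [] 100000 10000 10000 1466670 33333 0 93333 33333 6667
    55556 11111) (.L 4 8 [4, 4, 4] [158, 150, 140, 130, 120, 110] [] 100000 27778 27778 1422224
    44444 0 100000 22222 0 22222 22222))) (.S 1 8 (.S 1 7 (.L 4 8 [4, 4, 4] [] [] 100000 5556 5556
    1477779 11111 0 100000 44444 0 55556 33333) (.L 4 8 [4, 4, 4] [248, 248, 248, 248, 240, 230] []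
    100000 41668 25001 1316666 66667 0 116667 33333 0 16667 16667)) (.S 1 10 (.S 1 9 (.L 4 8 [4, 4,
    4] [282, 282, 282, 282, 282, 274] [] 100000 100000 100000 1200000 100000 0 100000 100000 0 0 0)
    (.E 0)) (.E 0)))) (.E 0)) (.L 4 8 [4, 4, 4] [] [] 100000 0 0 1481396 9302 0 95349 16279 4651
    75000 15698)

lemma s20_20_10_2_22 {n : ℕ} (hn : 5 ≤ n) : NoNd (d20_20_10_2.R : ℤ) d20_20_10_2.H n d20_20_10_2.a d20_20_10_2.b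
    (BlkD.inB (BlkD.upd (BlkD.upd (fun _ => 0) 0 6) 0 9)
      (BlkD.upd (BlkD.upd (fun _ => 20) 0 10) 2 2)) :=
  BlkD.tree_sound (BlkD.pairOk_sound k20_20_10_2) (by decide) hn t20_20_10_2_22 _ _ (by decide +kernel)

/-- certificates of the pair `(10, 2)`, part 23 -/
def t20_20_10_2_23 : BlkD.Tr :=
  .E 1

lemma s20_20_10_2_23 {n : ℕ} (hn : 5 ≤ n) : NoNd (d20_20_10_2.R : ℤ) d20_20_10_2.H n d20_20_10_2.a d20_20_10_2.b
    (BlkD.inB (BlkD.upd (fun _ => 0) 2 3)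
      (BlkD.upd (fun _ => 20) 0 10)) :=
  BlkD.tree_sound (BlkD.pairOk_sound k20_20_10_2) (by decide) hn t20_20_10_2_23 _ _ (by decide +kernel)

/-- certificates of the pair `(10, 2)`, part 24 -/
def t20_20_10_2_24 : BlkD.Tr :=
  .E 0

lemma s20_20_10_2_24 {n : ℕ} (hn : 5 ≤ n) : NoNd (d20_20_10_2.R : ℤ) d20_20_10_2.H n d20_20_10_2.a d20_20_10_2.b
    (BlkD.inB (BlkD.upd (fun _ => 0) 0 11)
      (fun _ => 20)) :=
  BlkD.tree_sound (BlkD.pairOk_sound k20_20_10_2) (by decide) hn t20_20_10_2_24 _ _ (by decide +kernel)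

lemma pr20_20_10_2 {n : ℕ} (hn : 5 ≤ n) : NoPr ((20 : ℕ) : ℤ) ((20 : ℕ) : ℤ) n 10 2 :=
  BlkD.of_root (R := d20_20_10_2.R) (H := d20_20_10_2.H) (a := d20_20_10_2.a) (b := d20_20_10_2.b) (q := 3) (by decide) hn
    (BlkD.sp 0 10 (BlkD.sp 2 2 (BlkD.sp 0 5 (BlkD.sp 0 2 (BlkD.sp 0 1 (s20_20_10_2_1 hn)
      (s20_20_10_2_2 hn)) (BlkD.sp 0 4 (BlkD.sp 0 3 (s20_20_10_2_3 hn) (s20_20_10_2_4 hn)) (BlkD.sp
      1 15 (BlkD.sp 1 7 (s20_20_10_2_5 hn) (BlkD.sp 1 11 (s20_20_10_2_6 hn) (s20_20_10_2_7 hn)))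
      (s20_20_10_2_8 hn)))) (BlkD.sp 0 8 (BlkD.sp 0 7 (BlkD.sp 0 6 (BlkD.sp 1 14 (BlkD.sp 1 7
      (s20_20_10_2_9 hn) (BlkD.sp 1 11 (BlkD.sp 1 9 (s20_20_10_2_10 hn) (s20_20_10_2_11 hn))
      (s20_20_10_2_12 hn))) (s20_20_10_2_13 hn)) (BlkD.sp 1 13 (BlkD.sp 1 6 (s20_20_10_2_14 hn)
      (BlkD.sp 1 10 (BlkD.sp 1 8 (s20_20_10_2_15 hn) (s20_20_10_2_16 hn)) (s20_20_10_2_17 hn)))
      (s20_20_10_2_18 hn))) (BlkD.sp 1 12 (BlkD.sp 1 6 (s20_20_10_2_19 hn) (s20_20_10_2_20 hn))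
      (s20_20_10_2_21 hn))) (s20_20_10_2_22 hn))) (s20_20_10_2_23 hn)) (s20_20_10_2_24 hn))

/-- the numbers of the pair `(10, 3)`, `R = 20`, `H = 20` -/
def d20_20_10_3 : BlkD.Pd :=
  ⟨20, 20, 3, 10, 3, 4, 1, 2, 0, 4, 8, 0, 2, 2, 6, 0, [0, 8, 16, 16, 16], [0, 6, 12, 14, 16], [⟨1,
    1, 1, 4, 8, [0, 4], [0, 4]⟩, ⟨1, 1, 1, 4, 14, [0, 8], [0, 6]⟩]⟩

lemma k20_20_10_3 : BlkD.pairOk d20_20_10_3 = true := by decide +kernel

/-- certificates of the pair `(10, 3)`, part 1 -/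
def t20_20_10_3_1 : BlkD.Tr :=
  .S 0 1 (.L 4 6 [4, 4, 20, 20] [] [] 100000 175000 175000 1350000 75000 0 100000 50000 0 0 0) (.L
    4 6 [4, 4, 20, 20] [] [] 100000 175000 175000 1350000 75000 0 100000 50000 0 0 0)

lemma s20_20_10_3_1 {n : ℕ} (hn : 5 ≤ n) : NoNd (d20_20_10_3.R : ℤ) d20_20_10_3.H n d20_20_10_3.a d20_20_10_3.b
    (BlkD.inB (fun _ => 0)
      (BlkD.upd (BlkD.upd (BlkD.upd (BlkD.upd (fun _ => 20) 0 10) 2 3) 0 5) 0 2)) :=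
  BlkD.tree_sound (BlkD.pairOk_sound k20_20_10_3) (by decide) hn t20_20_10_3_1 _ _ (by decide +kernel)

/-- certificates of the pair `(10, 3)`, part 2 -/
def t20_20_10_3_2 : BlkD.Tr :=
  .L 4 6 [4, 4, 20, 20] [] [] 100000 175000 175000 1350000 75000 0 100000 50000 0 0 0

lemma s20_20_10_3_2 {n : ℕ} (hn : 5 ≤ n) : NoNd (d20_20_10_3.R : ℤ) d20_20_10_3.H n d20_20_10_3.a d20_20_10_3.b
    (BlkD.inB (BlkD.upd (fun _ => 0) 0 3)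
      (BlkD.upd (BlkD.upd (BlkD.upd (BlkD.upd (BlkD.upd (fun _ => 20) 0 10) 2 3) 0 5) 0 4) 0 3)) :=
  BlkD.tree_sound (BlkD.pairOk_sound k20_20_10_3) (by decide) hn t20_20_10_3_2 _ _ (by decide +kernel)

/-- certificates of the pair `(10, 3)`, part 3 -/
def t20_20_10_3_3 : BlkD.Tr :=
  .L 4 6 [4, 4, 20, 20] [] [] 100000 175000 175000 1350000 75000 0 100000 50000 0 0 0

lemma s20_20_10_3_3 {n : ℕ} (hn : 5 ≤ n) : NoNd (d20_20_10_3.R : ℤ) d20_20_10_3.H n d20_20_10_3.a d20_20_10_3.b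
    (BlkD.inB (BlkD.upd (BlkD.upd (fun _ => 0) 0 3) 0 4)
      (BlkD.upd (BlkD.upd (BlkD.upd (BlkD.upd (fun _ => 20) 0 10) 2 3) 0 5) 0 4)) :=
  BlkD.tree_sound (BlkD.pairOk_sound k20_20_10_3) (by decide) hn t20_20_10_3_3 _ _ (by decide +kernel)

/-- certificates of the pair `(10, 3)`, part 4 -/
def t20_20_10_3_4 : BlkD.Tr :=
  .L 4 6 [4, 4, 20, 20] [] [] 100000 175000 175000 1350000 75000 0 100000 50000 0 0 0

lemma s20_20_10_3_4 {n : ℕ} (hn : 5 ≤ n) : NoNd (d20_20_10_3.R : ℤ) d20_20_10_3.H n d20_20_10_3.a d20_20_10_3.b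
    (BlkD.inB (BlkD.upd (BlkD.upd (fun _ => 0) 0 3) 0 5)
      (BlkD.upd (BlkD.upd (BlkD.upd (fun _ => 20) 0 10) 2 3) 0 5)) :=
  BlkD.tree_sound (BlkD.pairOk_sound k20_20_10_3) (by decide) hn t20_20_10_3_4 _ _ (by decide +kernel)

/-- certificates of the pair `(10, 3)`, part 5 -/
def t20_20_10_3_5 : BlkD.Tr :=
  .S 1 14 (.S 1 7 (.L 4 6 [4, 4, 20, 20] [] [] 100000 100000 100000 1450000 50000 0 75000 50000 0 0
    0) (.S 1 11 (.S 1 9 (.S 1 8 (.S 2 1 (.S 2 0 (.L 4 6 [4, 4, 20, 20] [190, 190, 190, 190, 190,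
    182] [] 100000 0 0 1466668 33333 0 44444 77778 0 0 0) (.S 3 5 (.S 3 2 (.L 4 6 [4, 4, 20, 20]
    [190, 190, 190, 190, 190, 182] [] 100000 0 0 1533335 33333 0 66667 33333 0 0 0) (.S 3 4 (.S 3 3
    (.L 7 7 [5, 3, 20, 20] [190, 190, 190, 190, 190, 182] [40, 34, 24, 12, 0, 0] 100000 1 1 1433333
    66667 33333 100000 66667 0 0 0) (.L 7 7 [5, 3, 20, 20] [190, 190, 190, 190, 190, 182] [54, 48,
    42, 32, 20, 0] 100000 256250 0 0 237500 0 237500 356250 0 0 0)) (.E 1))) (.E 1))) (.L 7 7 [5,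
    3, 20, 20] [190, 190, 190, 190, 190, 182] [] 100000 1 1 1533333 66667 0 100000 33333 0 0 0))
    (.L 7 7 [5, 3, 20, 20] [218, 218, 218, 218, 218, 218] [] 100000 100000 100000 1400000 100000
    100000 100000 100000 0 0 0)) (.L 7 7 [5, 3, 20, 20] [] [] 100000 25000 25000 1475000 75000
    25000 100000 50000 0 0 0)) (.L 7 7 [5, 3, 20, 20] [] [] 100000 480000 140000 0 340000 0 440000
    0 0 0 0))) (.E 0)

lemma s20_20_10_3_5 {n : ℕ} (hn : 5 ≤ n) : NoNd (d20_20_10_3.R : ℤ) d20_20_10_3.H n d20_20_10_3.a d20_20_10_3.b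
    (BlkD.inB (BlkD.upd (fun _ => 0) 0 6)
      (BlkD.upd (BlkD.upd (BlkD.upd (BlkD.upd (BlkD.upd (fun _ => 20) 0 10) 2 3) 0 8) 0 7) 0 6)) :=
  BlkD.tree_sound (BlkD.pairOk_sound k20_20_10_3) (by decide) hn t20_20_10_3_5 _ _ (by decide +kernel)

/-- certificates of the pair `(10, 3)`, part 6 -/
def t20_20_10_3_6 : BlkD.Tr :=
  .L 7 7 [5, 3, 20, 20] [] [] 100000 1 1 1566667 66667 16667 83333 41667 0 0 0

lemma s20_20_10_3_6 {n : ℕ} (hn : 5 ≤ n) : NoNd (d20_20_10_3.R : ℤ) d20_20_10_3.H n d20_20_10_3.a d20_20_10_3.b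
    (BlkD.inB (BlkD.upd (BlkD.upd (fun _ => 0) 0 6) 0 7)
      (BlkD.upd (BlkD.upd (BlkD.upd (BlkD.upd (fun _ => 20) 0 10) 2 3) 0 8) 0 7)) :=
  BlkD.tree_sound (BlkD.pairOk_sound k20_20_10_3) (by decide) hn t20_20_10_3_6 _ _ (by decide +kernel)

/-- certificates of the pair `(10, 3)`, part 7 -/
def t20_20_10_3_7 : BlkD.Tr :=
  .S 1 12 (.S 1 6 (.S 1 3 (.L 7 7 [5, 3, 20, 20] [] [] 100000 0 0 1500001 33333 0 33333 33333 0 0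
    0) (.S 1 5 (.S 1 4 (.L 7 7 [5, 3, 20, 20] [114, 106, 98, 88, 76, 0] [] 100000 1 1 1533334 66667
    33333 66667 33333 0 0 0) (.S 2 1 (.L 7 7 [5, 3, 20, 20] [138, 138, 130, 122, 112, 100] []
    100000 1 1 1533333 66667 66667 66667 66667 0 0 0) (.S 2 2 (.L 7 7 [5, 3, 20, 20] [138, 138,
    130, 122, 112, 100] [] 100000 1 1 1533333 66667 66667 100000 66667 0 0 0) (.L 4 6 [4, 4, 20,
    20] [138, 138, 130, 122, 112, 100] [] 100000 0 0 1500000 40000 0 40000 0 0 0 0)))) (.S 2 1 (.S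
    2 0 (.L 4 6 [4, 4, 20, 20] [164, 164, 164, 156, 148, 138] [] 100000 0 0 1480001 40000 0 53333
    73333 0 0 0) (.S 3 5 (.S 3 2 (.L 4 6 [4, 4, 20, 20] [164, 164, 164, 156, 148, 138] [] 100000 0
    0 1540000 40000 0 80000 40000 0 0 0) (.S 3 4 (.S 3 3 (.L 7 7 [5, 3, 20, 20] [164, 164, 164,
    156, 148, 138] [40, 34, 24, 12, 0, 0] 100000 1 1 1500001 66667 33333 83333 75000 0 0 0) (.L 7 7
    [5, 3, 20, 20] [164, 164, 164, 156, 148, 138] [54, 48, 42, 32, 20, 0] 100000 533334 316667 0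
    316667 0 316667 158333 0 0 0)) (.E 1))) (.E 1))) (.L 7 7 [5, 3, 20, 20] [164, 164, 164, 156,
    148, 138] [] 100000 1 1 1566667 66667 0 100000 33333 0 0 0)))) (.L 7 7 [5, 3, 20, 20] [] []
    100000 1 1 1566667 66667 0 100000 33333 0 0 0)) (.E 0)

lemma s20_20_10_3_7 {n : ℕ} (hn : 5 ≤ n) : NoNd (d20_20_10_3.R : ℤ) d20_20_10_3.H n d20_20_10_3.a d20_20_10_3.b
    (BlkD.inB (BlkD.upd (BlkD.upd (fun _ => 0) 0 6) 0 8)
      (BlkD.upd (BlkD.upd (BlkD.upd (fun _ => 20) 0 10) 2 3) 0 8)) :=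
  BlkD.tree_sound (BlkD.pairOk_sound k20_20_10_3) (by decide) hn t20_20_10_3_7 _ _ (by decide +kernel)

/-- certificates of the pair `(10, 3)`, part 8 -/
def t20_20_10_3_8 : BlkD.Tr :=
  .S 0 9 (.S 1 11 (.S 1 5 (.L 4 6 [4, 4, 20, 20] [] [] 100000 0 0 1580000 40000 0 100000 60000 0 0
    0) (.S 1 8 (.S 1 7 (.S 1 6 (.L 4 6 [4, 4, 20, 20] [176, 176, 176, 168, 160, 150] [] 100000 0 0
    1550000 50000 0 87500 25000 0 0 0) (.L 4 6 [4, 4, 20, 20] [206, 206, 206, 206, 198, 190] []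
    100000 0 0 1500000 50000 0 100000 25000 0 0 0)) (.E 0)) (.E 0))) (.E 0)) (.L 4 6 [4, 4, 20, 20]
    [] [] 100000 0 0 1580000 20000 0 100000 0 0 0 0)

lemma s20_20_10_3_8 {n : ℕ} (hn : 5 ≤ n) : NoNd (d20_20_10_3.R : ℤ) d20_20_10_3.H n d20_20_10_3.a d20_20_10_3.b
    (BlkD.inB (BlkD.upd (BlkD.upd (fun _ => 0) 0 6) 0 9)
      (BlkD.upd (BlkD.upd (fun _ => 20) 0 10) 2 3)) :=
  BlkD.tree_sound (BlkD.pairOk_sound k20_20_10_3) (by decide) hn t20_20_10_3_8 _ _ (by decide +kernel)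

/-- certificates of the pair `(10, 3)`, part 9 -/
def t20_20_10_3_9 : BlkD.Tr :=
  .E 1

lemma s20_20_10_3_9 {n : ℕ} (hn : 5 ≤ n) : NoNd (d20_20_10_3.R : ℤ) d20_20_10_3.H n d20_20_10_3.a d20_20_10_3.b
    (BlkD.inB (BlkD.upd (fun _ => 0) 2 4)
      (BlkD.upd (fun _ => 20) 0 10)) :=
  BlkD.tree_sound (BlkD.pairOk_sound k20_20_10_3) (by decide) hn t20_20_10_3_9 _ _ (by decide +kernel)

/-- certificates of the pair `(10, 3)`, part 10 -/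
def t20_20_10_3_10 : BlkD.Tr :=
  .E 0

lemma s20_20_10_3_10 {n : ℕ} (hn : 5 ≤ n) : NoNd (d20_20_10_3.R : ℤ) d20_20_10_3.H n d20_20_10_3.a d20_20_10_3.b
    (BlkD.inB (BlkD.upd (fun _ => 0) 0 11)
      (fun _ => 20)) :=
  BlkD.tree_sound (BlkD.pairOk_sound k20_20_10_3) (by decide) hn t20_20_10_3_10 _ _ (by decide +kernel)

lemma pr20_20_10_3 {n : ℕ} (hn : 5 ≤ n) : NoPr ((20 : ℕ) : ℤ) ((20 : ℕ) : ℤ) n 10 3 :=
  BlkD.of_root (R := d20_20_10_3.R) (H := d20_20_10_3.H) (a := d20_20_10_3.a) (b := d20_20_10_3.b) (q := 3) (by decide) hn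
    (BlkD.sp 0 10 (BlkD.sp 2 3 (BlkD.sp 0 5 (BlkD.sp 0 2 (s20_20_10_3_1 hn) (BlkD.sp 0 4 (BlkD.sp 0
      3 (s20_20_10_3_2 hn) (s20_20_10_3_3 hn)) (s20_20_10_3_4 hn))) (BlkD.sp 0 8 (BlkD.sp 0 7
      (BlkD.sp 0 6 (s20_20_10_3_5 hn) (s20_20_10_3_6 hn)) (s20_20_10_3_7 hn)) (s20_20_10_3_8 hn)))
      (s20_20_10_3_9 hn)) (s20_20_10_3_10 hn))

end BlkC

end Pool.Agent.Lib.MP_f04ccf_co
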