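import Pool.Agent.Lib.MP_f04ccf_co.M.BlkT

/-!
MP_f04ccf_co, block certificate, data `R = 20`, `H = 20`, part 16 (generated, helper99:
bd10.cpp, gen2.py).
-/

set_option autoImplicit false
set_option maxRecDepth 100000

namespace Pool.Agent.Lib.MP_f04ccf_co

namespace BlkC

/-- the numbers of the pair `(10, 4)`, `R = 20`, `H = 20` -/
def d20_20_10_4 : BlkD.Pd :=
  ⟨20, 20, 3, 10, 4, 3, 0, 3, 0, 4, 4, 0, 0, 4, 4, 0, [0, 4, 8, 12], [0, 4, 8, 12], [⟨1, 1, 1, 4,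
    8, [0, 4], [0, 4]⟩]⟩

lemma k20_20_10_4 : BlkD.pairOk d20_20_10_4 = true := by decide +kernel

/-- certificates of the pair `(10, 4)`, part 1 -/
def t20_20_10_4_1 : BlkD.Tr :=
  .S 0 1 (.L 4 4 [4, 20, 20, 20, 20] [] [] 100000 0 0 1600001 100000 33333 100000 66667 0 0 0) (.L
    4 4 [4, 20, 20, 20, 20] [] [] 100000 0 0 1600001 100000 33333 100000 66667 0 0 0)

lemma s20_20_10_4_1 {n : ℕ} (hn : 5 ≤ n) : NoNd (d20_20_10_4.R : ℤ) d20_20_10_4.H n d20_20_10_4.a d20_20_10_4.b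
    (BlkD.inB (fun _ => 0)
      (BlkD.upd (BlkD.upd (BlkD.upd (BlkD.upd (fun _ => 20) 0 10) 2 4) 0 5) 0 2)) :=
  BlkD.tree_sound (BlkD.pairOk_sound k20_20_10_4) (by decide) hn t20_20_10_4_1 _ _ (by decide +kernel)

/-- certificates of the pair `(10, 4)`, part 2 -/
def t20_20_10_4_2 : BlkD.Tr :=
  .L 4 4 [4, 20, 20, 20, 20] [] [] 100000 0 0 1600001 100000 33333 100000 66667 0 0 0

lemma s20_20_10_4_2 {n : ℕ} (hn : 5 ≤ n) : NoNd (d20_20_10_4.R : ℤ) d20_20_10_4.H n d20_20_10_4.a d20_20_10_4.b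
    (BlkD.inB (BlkD.upd (fun _ => 0) 0 3)
      (BlkD.upd (BlkD.upd (BlkD.upd (BlkD.upd (BlkD.upd (fun _ => 20) 0 10) 2 4) 0 5) 0 4) 0 3)) :=
  BlkD.tree_sound (BlkD.pairOk_sound k20_20_10_4) (by decide) hn t20_20_10_4_2 _ _ (by decide +kernel)

/-- certificates of the pair `(10, 4)`, part 3 -/
def t20_20_10_4_3 : BlkD.Tr :=
  .L 4 4 [4, 20, 20, 20, 20] [] [] 100000 0 0 1600001 100000 33333 100000 66667 0 0 0

lemma s20_20_10_4_3 {n : ℕ} (hn : 5 ≤ n) : NoNd (d20_20_10_4.R : ℤ) d20_20_10_4.H n d20_20_10_4.a d20_20_10_4.b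
    (BlkD.inB (BlkD.upd (BlkD.upd (fun _ => 0) 0 3) 0 4)
      (BlkD.upd (BlkD.upd (BlkD.upd (BlkD.upd (fun _ => 20) 0 10) 2 4) 0 5) 0 4)) :=
  BlkD.tree_sound (BlkD.pairOk_sound k20_20_10_4) (by decide) hn t20_20_10_4_3 _ _ (by decide +kernel)

/-- certificates of the pair `(10, 4)`, part 4 -/
def t20_20_10_4_4 : BlkD.Tr :=
  .S 1 10 (.L 4 4 [4, 20, 20, 20, 20] [] [] 100000 0 0 1600001 100000 33333 100000 66667 0 0 0) (.L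
    4 4 [4, 20, 20, 20, 20] [] [] 100000 0 0 1600001 100000 33333 100000 66667 0 0 0)

lemma s20_20_10_4_4 {n : ℕ} (hn : 5 ≤ n) : NoNd (d20_20_10_4.R : ℤ) d20_20_10_4.H n d20_20_10_4.a d20_20_10_4.b
    (BlkD.inB (BlkD.upd (BlkD.upd (fun _ => 0) 0 3) 0 5)
      (BlkD.upd (BlkD.upd (BlkD.upd (fun _ => 20) 0 10) 2 4) 0 5)) :=
  BlkD.tree_sound (BlkD.pairOk_sound k20_20_10_4) (by decide) hn t20_20_10_4_4 _ _ (by decide +kernel)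

/-- certificates of the pair `(10, 4)`, part 5 -/
def t20_20_10_4_5 : BlkD.Tr :=
  .S 1 10 (.L 4 4 [4, 20, 20, 20, 20] [] [] 100000 0 0 1600001 100000 33333 100000 66667 0 0 0) (.L
    4 4 [4, 20, 20, 20, 20] [] [] 100000 0 0 1600001 100000 33333 100000 66667 0 0 0)

lemma s20_20_10_4_5 {n : ℕ} (hn : 5 ≤ n) : NoNd (d20_20_10_4.R : ℤ) d20_20_10_4.H n d20_20_10_4.a d20_20_10_4.b
    (BlkD.inB (BlkD.upd (fun _ => 0) 0 6)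
      (BlkD.upd (BlkD.upd (BlkD.upd (BlkD.upd (BlkD.upd (fun _ => 20) 0 10) 2 4) 0 8) 0 7) 0 6)) :=
  BlkD.tree_sound (BlkD.pairOk_sound k20_20_10_4) (by decide) hn t20_20_10_4_5 _ _ (by decide +kernel)

/-- certificates of the pair `(10, 4)`, part 6 -/
def t20_20_10_4_6 : BlkD.Tr :=
  .S 1 10 (.L 4 4 [4, 20, 20, 20, 20] [] [] 100000 0 0 1600001 100000 33333 100000 66667 0 0 0) (.L
    4 4 [4, 20, 20, 20, 20] [] [] 100000 0 0 1600001 100000 33333 100000 66667 0 0 0)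

lemma s20_20_10_4_6 {n : ℕ} (hn : 5 ≤ n) : NoNd (d20_20_10_4.R : ℤ) d20_20_10_4.H n d20_20_10_4.a d20_20_10_4.b
    (BlkD.inB (BlkD.upd (BlkD.upd (fun _ => 0) 0 6) 0 7)
      (BlkD.upd (BlkD.upd (BlkD.upd (BlkD.upd (fun _ => 20) 0 10) 2 4) 0 8) 0 7)) :=
  BlkD.tree_sound (BlkD.pairOk_sound k20_20_10_4) (by decide) hn t20_20_10_4_6 _ _ (by decide +kernel)

/-- certificates of the pair `(10, 4)`, part 7 -/
def t20_20_10_4_7 : BlkD.Tr :=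
  .L 4 4 [4, 20, 20, 20, 20] [] [] 100000 0 0 1600001 100000 33333 100000 66667 0 0 0

lemma s20_20_10_4_7 {n : ℕ} (hn : 5 ≤ n) : NoNd (d20_20_10_4.R : ℤ) d20_20_10_4.H n d20_20_10_4.a d20_20_10_4.b
    (BlkD.inB (BlkD.upd (BlkD.upd (fun _ => 0) 0 6) 0 8)
      (BlkD.upd (BlkD.upd (BlkD.upd (fun _ => 20) 0 10) 2 4) 0 8)) :=
  BlkD.tree_sound (BlkD.pairOk_sound k20_20_10_4) (by decide) hn t20_20_10_4_7 _ _ (by decide +kernel)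

/-- certificates of the pair `(10, 4)`, part 8 -/
def t20_20_10_4_8 : BlkD.Tr :=
  .L 4 4 [4, 20, 20, 20, 20] [] [] 100000 0 0 1600001 100000 33333 100000 66667 0 0 0

lemma s20_20_10_4_8 {n : ℕ} (hn : 5 ≤ n) : NoNd (d20_20_10_4.R : ℤ) d20_20_10_4.H n d20_20_10_4.a d20_20_10_4.b
    (BlkD.inB (BlkD.upd (BlkD.upd (fun _ => 0) 0 6) 0 9)
      (BlkD.upd (BlkD.upd (fun _ => 20) 0 10) 2 4)) :=
  BlkD.tree_sound (BlkD.pairOk_sound k20_20_10_4) (by decide) hn t20_20_10_4_8 _ _ (by decide +kernel)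

/-- certificates of the pair `(10, 4)`, part 9 -/
def t20_20_10_4_9 : BlkD.Tr :=
  .E 1

lemma s20_20_10_4_9 {n : ℕ} (hn : 5 ≤ n) : NoNd (d20_20_10_4.R : ℤ) d20_20_10_4.H n d20_20_10_4.a d20_20_10_4.b
    (BlkD.inB (BlkD.upd (fun _ => 0) 2 5)
      (BlkD.upd (fun _ => 20) 0 10)) :=
  BlkD.tree_sound (BlkD.pairOk_sound k20_20_10_4) (by decide) hn t20_20_10_4_9 _ _ (by decide +kernel)

/-- certificates of the pair `(10, 4)`, part 10 -/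
def t20_20_10_4_10 : BlkD.Tr :=
  .E 0

lemma s20_20_10_4_10 {n : ℕ} (hn : 5 ≤ n) : NoNd (d20_20_10_4.R : ℤ) d20_20_10_4.H n d20_20_10_4.a d20_20_10_4.b
    (BlkD.inB (BlkD.upd (fun _ => 0) 0 11)
      (fun _ => 20)) :=
  BlkD.tree_sound (BlkD.pairOk_sound k20_20_10_4) (by decide) hn t20_20_10_4_10 _ _ (by decide +kernel)

lemma pr20_20_10_4 {n : ℕ} (hn : 5 ≤ n) : NoPr ((20 : ℕ) : ℤ) ((20 : ℕ) : ℤ) n 10 4 :=
  BlkD.of_root (R := d20_20_10_4.R) (H := d20_20_10_4.H) (a := d20_20_10_4.a) (b := d20_20_10_4.b) (q := 3) (by decide) hn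
    (BlkD.sp 0 10 (BlkD.sp 2 4 (BlkD.sp 0 5 (BlkD.sp 0 2 (s20_20_10_4_1 hn) (BlkD.sp 0 4 (BlkD.sp 0
      3 (s20_20_10_4_2 hn) (s20_20_10_4_3 hn)) (s20_20_10_4_4 hn))) (BlkD.sp 0 8 (BlkD.sp 0 7
      (BlkD.sp 0 6 (s20_20_10_4_5 hn) (s20_20_10_4_6 hn)) (s20_20_10_4_7 hn)) (s20_20_10_4_8 hn)))
      (s20_20_10_4_9 hn)) (s20_20_10_4_10 hn))

/-- the numbers of the pair `(11, 0)`, `R = 20`, `H = 20` -/
def d20_20_11_0 : BlkD.Pd :=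
  ⟨20, 20, 3, 11, 0, 6, 0, 1, 0, 4, 4, 0, 0, 4, 4, 0, [0, 4, 8, 12, 16, 20, 24], [0, 4, 8, 12, 16,
    20, 24], [⟨1, 1, 1, 4, 8, [0, 4], [0, 4]⟩]⟩

/-- the certificates of the pair `(11, 0)` -/
def t20_20_11_0 : BlkD.Tr :=
  .S 0 11 (.S 2 0 (.S 0 5 (.L 4 4 [4] [] [] 100000 0 0 1200000 100000 0 100000 0 0 0 0) (.L 4 4 [4]
    [] [] 100000 0 0 1200000 100000 0 100000 0 0 0 0)) (.E 1)) (.E 0)

lemma pr20_20_11_0 {n : ℕ} (hn : 5 ≤ n) : NoPr ((20 : ℕ) : ℤ) ((20 : ℕ) : ℤ) n 11 0 :=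
  BlkD.pair_sound (d := d20_20_11_0) (by decide +kernel) hn (by decide) (tr := t20_20_11_0)
    (by decide +kernel) rfl rfl rfl rfl

/-- the numbers of the pair `(11, 1)`, `R = 20`, `H = 20` -/
def d20_20_11_1 : BlkD.Pd :=
  ⟨20, 20, 3, 11, 1, 5, 1, 1, 0, 4, 8, 0, 0, 4, 4, 0, [0, 8, 16, 20, 20, 20], [0, 4, 8, 12, 16,
    20], [⟨1, 1, 1, 4, 8, [0, 4], [0, 4]⟩, ⟨1, 1, 1, 4, 12, [0, 8], [0, 4]⟩]⟩

lemma k20_20_11_1 : BlkD.pairOk d20_20_11_1 = true := by decide +kernel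

/-- certificates of the pair `(11, 1)`, part 1 -/
def t20_20_11_1_1 : BlkD.Tr :=
  .L 4 6 [4, 4] [] [] 100000 100000 100000 500000 100000 0 100000 0 0 0 0

lemma s20_20_11_1_1 {n : ℕ} (hn : 5 ≤ n) : NoNd (d20_20_11_1.R : ℤ) d20_20_11_1.H n d20_20_11_1.a d20_20_11_1.b
    (BlkD.inB (fun _ => 0)
      (BlkD.upd (BlkD.upd (BlkD.upd (BlkD.upd (fun _ => 20) 0 11) 2 1) 0 5) 0 2)) :=
  BlkD.tree_sound (BlkD.pairOk_sound k20_20_11_1) (by decide) hn t20_20_11_1_1 _ _ (by decide +kernel)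

/-- certificates of the pair `(11, 1)`, part 2 -/
def t20_20_11_1_2 : BlkD.Tr :=
  .S 0 4 (.L 4 6 [4, 4] [] [] 100000 200000 200000 800000 100000 0 100000 0 0 0 0) (.S 1 15 (.S 1 7
    (.L 4 6 [4, 4] [] [] 100000 0 0 1120000 40000 0 40000 0 0 0 0) (.S 1 11 (.L 4 6 [4, 4] [] []
    100000 30770 30770 1323076 46154 0 46154 0 0 0 0) (.S 1 13 (.L 4 6 [4, 4] [] [] 100000 0 0
    1480000 40000 0 40000 0 0 0 0) (.S 1 14 (.S 2 0 (.S 3 1 (.S 3 0 (.L 3 5 [5, 5] [350, 350, 350,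
    350, 350, 350] [0, 0, 0, 0, 0, 0] 100000 590908 518181 3 172727 0 172727 0 0 0 0) (.L 3 5 [5,
    5] [350, 350, 350, 350, 350, 350] [8, 0, 0, 0, 0, 0] 100000 515384 461538 2 153846 0 153846 0 0
    0 0)) (.L 3 5 [5, 5] [350, 350, 350, 350, 350, 350] [] 100000 0 100000 0 0 0 0 0 0 0 0)) (.L 3
    5 [5, 5] [350, 350, 350, 350, 350, 350] [] 100000 515384 461538 2 153846 0 153846 0 0 0 0)) (.L
    3 5 [5, 5] [388, 388, 388, 388, 388, 388] [] 100000 566668 500001 0 166667 0 166667 0 0 0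
    0))))) (.E 0))

lemma s20_20_11_1_2 {n : ℕ} (hn : 5 ≤ n) : NoNd (d20_20_11_1.R : ℤ) d20_20_11_1.H n d20_20_11_1.a d20_20_11_1.b
    (BlkD.inB (BlkD.upd (fun _ => 0) 0 3)
      (BlkD.upd (BlkD.upd (BlkD.upd (fun _ => 20) 0 11) 2 1) 0 5)) :=
  BlkD.tree_sound (BlkD.pairOk_sound k20_20_11_1) (by decide) hn t20_20_11_1_2 _ _ (by decide +kernel)

/-- certificates of the pair `(11, 1)`, part 3 -/
def t20_20_11_1_3 : BlkD.Tr :=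
  .S 0 6 (.S 1 14 (.S 1 7 (.L 3 5 [5, 5] [] [] 100000 100000 100000 1150000 50000 0 50000 0 0 0 0)
    (.S 1 11 (.S 1 9 (.L 3 5 [5, 5] [] [] 100000 0 0 1400003 33333 0 33333 0 0 0 0) (.S 1 10 (.L 3
    5 [5, 5] [238, 238, 238, 238, 238, 238] [] 100000 0 0 1466670 33333 0 33333 0 0 0 0) (.L 4 6
    [4, 4] [270, 270, 270, 270, 270, 270] [] 100000 0 0 1460000 40000 0 40000 0 0 0 0))) (.S 1 13
    (.S 1 12 (.S 2 0 (.S 3 2 (.S 3 1 (.S 3 0 (.L 4 6 [4, 4] [304, 304, 304, 304, 304, 304] [0, 0,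
    0, 0, 0, 0] 100000 0 0 1480000 40000 0 80000 0 0 0 0) (.S 4 12 (.S 4 6 (.S 4 3 (.L 3 5 [5, 5]
    [300, 292, 284, 276, 0, 0] [8, 0, 0, 0, 0, 0] 100000 590908 518181 3 172727 0 172727 0 0 0 0)
    (.L 3 5 [5, 5] [304, 304, 304, 300, 292, 284] [8, 0, 0, 0, 0, 0] 100000 235296 2 0 111765 0
    335294 0 0 0 0)) (.E 2)) (.E 2))) (.L 4 6 [4, 4] [304, 304, 304, 304, 304, 304] [14, 10, 2, 0,
    0, 0] 100000 484000 408000 0 152000 0 152000 176000 0 0 0)) (.E 1)) (.L 4 6 [4, 4] [304, 304,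
    304, 304, 304, 304] [] 100000 590908 518181 3 172727 0 172727 0 0 0 0)) (.S 2 0 (.S 3 1 (.S 3 0
    (.S 4 13 (.S 4 6 (.S 4 3 (.S 4 1 (.L 4 6 [4, 4] [320, 312, 0, 0, 0, 0] [0, 0, 0, 0, 0, 0]
    100000 533333 422222 1 211111 0 211111 0 0 0 0) (.L 4 6 [4, 4] [336, 328, 320, 312, 0, 0] [0,
    0, 0, 0, 0, 0] 100000 0 0 1460000 40000 0 100000 0 0 0 0)) (.L 4 6 [4, 4] [340, 340, 340, 336,
    328, 320] [0, 0, 0, 0, 0, 0] 100000 239286 0 0 135714 0 339286 0 0 0 0)) (.E 2)) (.E 2)) (.L 3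
    5 [5, 5] [340, 340, 340, 340, 340, 340] [8, 0, 0, 0, 0, 0] 100000 566668 500001 0 166667 0
    166667 0 0 0 0)) (.L 3 5 [5, 5] [340, 340, 340, 340, 340, 340] [] 100000 0 100000 0 0 0 0 0 0 0
    0)) (.L 3 5 [5, 5] [340, 340, 340, 340, 340, 340] [] 100000 566668 500001 0 166667 0 166667 0 0
    0 0))) (.S 2 0 (.S 3 0 (.S 4 14 (.S 4 7 (.S 4 3 (.S 4 1 (.L 4 6 [4, 4] [358, 350, 0, 0, 0, 0]
    [0, 0, 0, 0, 0, 0] 100000 500000 400000 0 200000 0 200000 0 0 0 0) (.L 3 5 [5, 5] [374, 366,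
    358, 350, 0, 0] [0, 0, 0, 0, 0, 0] 100000 332000 104000 0 152000 0 328000 0 0 0 0)) (.L 3 5 [5,
    5] [378, 378, 378, 378, 374, 366] [0, 0, 0, 0, 0, 0] 100000 203030 0 2 121212 0 303030 0 0 0
    0)) (.E 2)) (.E 2)) (.L 3 5 [5, 5] [378, 378, 378, 378, 378, 378] [] 100000 0 100000 0 0 0 0 0
    0 0 0)) (.L 3 5 [5, 5] [378, 378, 378, 378, 378, 378] [] 100000 0 100000 0 0 0 0 0 0 0 0)))))
    (.E 0)) (.S 1 13 (.S 1 6 (.L 3 5 [5, 5] [] [] 100000 66664 66664 1233336 44444 0 44444 0 0 0 0)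
    (.S 1 10 (.S 1 8 (.L 3 5 [5, 5] [] [] 100000 0 0 1471432 28571 0 28571 0 0 0 0) (.S 1 9 (.L 4 6
    [4, 4] [226, 226, 226, 226, 226, 226] [] 100000 0 0 1440000 40000 0 40000 0 0 0 0) (.S 2 0 (.L
    4 6 [4, 4] [258, 258, 258, 258, 258, 258] [] 100000 0 0 1480000 40000 0 50000 20000 0 0 0) (.S
    3 2 (.S 3 1 (.S 3 0 (.L 4 6 [4, 4] [258, 258, 258, 258, 258, 258] [0, 0, 0, 0, 0, 0] 100000 0 0
    1440000 40000 0 40000 0 0 0 0) (.S 4 10 (.S 4 5 (.S 4 2 (.S 4 1 (.L 4 6 [4, 4] [238, 230, 0, 0,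
    0, 0] [10, 2, 0, 0, 0, 0] 100000 470000 380000 0 190000 0 190000 0 0 0 0) (.L 4 6 [4, 4] [246,
    238, 230, 0, 0, 0] [10, 2, 0, 0, 0, 0] 100000 318000 76000 0 152000 0 342000 0 0 0 0)) (.L 4 6
    [4, 4] [258, 258, 254, 246, 238, 230] [10, 2, 0, 0, 0, 0] 100000 227586 0 4 131034 0 327586 0 0
    0 0)) (.E 2)) (.E 2))) (.E 1)) (.E 1))))) (.S 1 12 (.S 1 11 (.S 2 0 (.S 3 2 (.S 3 1 (.S 3 0 (.L
    3 5 [5, 5] [292, 292, 292, 292, 292, 292] [0, 0, 0, 0, 0, 0] 100000 0 0 1480000 40000 0 40000 0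
    0 0 0) (.S 4 11 (.S 4 5 (.S 4 2 (.L 4 6 [4, 4] [280, 272, 264, 0, 0, 0] [8, 0, 0, 0, 0, 0]
    100000 533333 422222 1 211111 0 211111 0 0 0 0) (.L 4 6 [4, 4] [292, 292, 288, 280, 272, 264]
    [8, 0, 0, 0, 0, 0] 100000 318000 76000 0 152000 0 342000 0 0 0 0)) (.L 4 6 [4, 4] [292, 292,
    292, 292, 292, 292] [8, 0, 0, 0, 0, 0] 100000 171429 0 0 108571 0 271429 0 0 0 0)) (.E 2))) (.L
    4 6 [4, 4] [292, 292, 292, 292, 292, 292] [14, 10, 2, 0, 0, 0] 100000 332000 104000 0 152000 0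
    152000 328000 0 0 0)) (.E 1)) (.S 3 1 (.S 3 0 (.S 4 11 (.S 4 5 (.S 4 2 (.L 4 6 [4, 4] [280,
    272, 264, 0, 0, 0] [0, 0, 0, 0, 0, 0] 100000 470000 380000 0 190000 0 190000 0 0 0 0) (.L 4 6
    [4, 4] [292, 292, 288, 280, 272, 264] [0, 0, 0, 0, 0, 0] 100000 318000 76000 0 152000 0 342000
    0 0 0 0)) (.L 4 6 [4, 4] [292, 292, 292, 292, 292, 292] [0, 0, 0, 0, 0, 0] 100000 171429 0 0
    108571 0 271429 0 0 0 0)) (.E 2)) (.S 4 11 (.S 4 5 (.S 4 2 (.L 4 6 [4, 4] [280, 272, 264, 0, 0,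
    0] [10, 2, 0, 0, 0, 0] 100000 470000 380000 0 190000 0 145000 0 0 0 0) (.L 4 6 [4, 4] [292,
    292, 288, 280, 272, 264] [10, 2, 0, 0, 0, 0] 100000 222581 0 1 129032 0 322581 0 0 0 0)) (.E
    2)) (.E 2))) (.E 1))) (.S 2 0 (.S 3 1 (.S 3 0 (.S 4 12 (.S 4 6 (.S 4 3 (.S 4 1 (.L 3 5 [5, 5]
    [308, 300, 0, 0, 0, 0] [0, 0, 0, 0, 0, 0] 100000 533333 422222 1 211111 0 211111 0 0 0 0) (.L 3
    5 [5, 5] [324, 316, 308, 300, 0, 0] [0, 0, 0, 0, 0, 0] 100000 0 0 1440000 40000 0 100000 0 0 0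
    0)) (.L 3 5 [5, 5] [328, 328, 328, 324, 316, 308] [0, 0, 0, 0, 0, 0] 100000 227586 0 4 131034 0
    327586 0 0 0 0)) (.E 2)) (.E 2)) (.S 4 12 (.S 4 6 (.S 4 3 (.L 4 6 [4, 4] [324, 316, 308, 300,
    0, 0] [8, 0, 0, 0, 0, 0] 100000 500000 400000 0 200000 0 200000 0 0 0 0) (.L 4 6 [4, 4] [328,
    328, 328, 324, 316, 308] [8, 0, 0, 0, 0, 0] 100000 222581 0 1 129032 0 322581 0 0 0 0)) (.E 2))
    (.E 2))) (.L 4 6 [4, 4] [328, 328, 328, 328, 328, 328] [] 100000 0 100000 0 0 0 0 0 0 0 0)) (.S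
    3 0 (.S 4 12 (.S 4 6 (.S 4 3 (.L 4 6 [4, 4] [324, 316, 308, 300, 0, 0] [0, 0, 0, 0, 0, 0]
    100000 445454 363636 2 181818 0 181818 0 0 0 0) (.L 4 6 [4, 4] [328, 328, 328, 324, 316, 308]
    [0, 0, 0, 0, 0, 0] 100000 222581 0 1 129032 0 322581 0 0 0 0)) (.E 2)) (.E 2)) (.L 4 6 [4, 4]
    [328, 328, 328, 328, 328, 328] [] 100000 0 100000 0 0 0 0 0 0 0 0)))) (.S 2 0 (.S 3 0 (.S 4 13
    (.S 4 6 (.S 4 3 (.S 4 1 (.L 3 4 [5, 6] [346, 338, 0, 0, 0, 0] [0, 0, 0, 0, 0, 0] 100000 500000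
    400000 0 200000 0 200000 0 0 0 0) (.L 4 6 [4, 4] [362, 354, 346, 338, 0, 0] [0, 0, 0, 0, 0, 0]
    100000 325000 90000 0 190000 0 335000 0 0 0 0)) (.L 4 6 [4, 4] [366, 366, 366, 362, 354, 346]
    [0, 0, 0, 0, 0, 0] 100000 207692 0 2 153846 0 307692 0 0 0 0)) (.E 2)) (.E 2)) (.L 4 6 [4, 4]
    [366, 366, 366, 366, 366, 366] [] 100000 0 100000 0 0 0 0 0 0 0 0)) (.L 4 6 [4, 4] [366, 366,
    366, 366, 366, 366] [] 100000 0 100000 0 0 0 0 0 0 0 0))))) (.E 0))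

lemma s20_20_11_1_3 {n : ℕ} (hn : 5 ≤ n) : NoNd (d20_20_11_1.R : ℤ) d20_20_11_1.H n d20_20_11_1.a d20_20_11_1.b
    (BlkD.inB (BlkD.upd (fun _ => 0) 0 6)
      (BlkD.upd (BlkD.upd (BlkD.upd (BlkD.upd (fun _ => 20) 0 11) 2 1) 0 8) 0 7)) :=
  BlkD.tree_sound (BlkD.pairOk_sound k20_20_11_1) (by decide) hn t20_20_11_1_3 _ _ (by decide +kernel)

/-- certificates of the pair `(11, 1)`, part 4 -/
def t20_20_11_1_4 : BlkD.Tr :=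
  .S 1 12 (.S 1 6 (.L 4 6 [4, 4] [] [] 100000 0 0 1400002 33333 0 33333 0 0 0 0) (.S 1 9 (.S 1 8
    (.S 1 7 (.L 4 6 [4, 4] [182, 182, 182, 182, 178, 170] [] 100000 0 0 1420000 40000 0 40000 0 0 0
    0) (.L 4 6 [4, 4] [212, 212, 212, 212, 212, 208] [] 100000 0 0 1480000 40000 0 40000 0 0 0 0))
    (.S 2 0 (.S 3 3 (.S 3 1 (.S 3 0 (.L 3 5 [5, 5] [244, 244, 244, 244, 244, 244] [0, 0, 0, 0, 0,
    0] 100000 0 0 1460000 40000 0 40000 0 0 0 0) (.L 3 5 [5, 5] [244, 244, 244, 244, 244, 244] [8,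
    0, 0, 0, 0, 0] 100000 0 0 1480000 40000 0 40000 0 0 0 0)) (.L 3 5 [5, 5] [244, 244, 244, 244,
    244, 244] [] 100000 0 0 1440000 40000 0 40000 100000 0 0 0)) (.E 1)) (.S 3 2 (.S 3 1 (.S 3 0
    (.L 3 5 [5, 5] [244, 244, 244, 244, 244, 244] [0, 0, 0, 0, 0, 0] 100000 0 0 1480000 40000 0
    40000 0 0 0 0) (.S 4 9 (.S 4 4 (.S 4 2 (.L 4 6 [4, 4] [232, 224, 216, 0, 0, 0] [10, 2, 0, 0, 0,
    0] 100000 533333 422222 1 211111 0 211111 0 0 0 0) (.L 4 6 [4, 4] [244, 240, 232, 224, 216, 0]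
    [10, 2, 0, 0, 0, 0] 100000 251853 1 0 140741 0 351852 0 0 0 0)) (.L 4 6 [4, 4] [244, 244, 244,
    244, 244, 244] [10, 2, 0, 0, 0, 0] 100000 187881 2 0 115152 0 287879 0 0 0 0)) (.E 2))) (.E 1))
    (.E 1)))) (.S 1 11 (.S 1 10 (.S 2 0 (.S 3 2 (.S 3 1 (.S 3 0 (.L 4 6 [4, 4] [278, 278, 278, 278,
    278, 278] [0, 0, 0, 0, 0, 0] 100000 0 0 1450000 50000 0 100000 0 0 0 0) (.S 4 10 (.S 4 5 (.S 4
    2 (.L 3 5 [5, 5] [266, 258, 250, 0, 0, 0] [8, 0, 0, 0, 0, 0] 100000 533333 422222 1 211111 0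
    211111 0 0 0 0) (.L 3 5 [5, 5] [278, 278, 274, 266, 258, 250] [8, 0, 0, 0, 0, 0] 100000 280000
    0 0 152000 0 380000 76000 0 0 0)) (.L 3 5 [5, 5] [278, 278, 278, 278, 278, 278] [8, 0, 0, 0, 0,
    0] 100000 187881 2 0 115152 0 287879 0 0 0 0)) (.E 2))) (.L 4 6 [4, 4] [278, 278, 278, 278,
    278, 278] [14, 10, 2, 0, 0, 0] 100000 470000 380000 0 190000 0 190000 100000 0 0 0)) (.E 1))
    (.L 4 6 [4, 4] [278, 278, 278, 278, 278, 278] [] 100000 533333 422222 1 211111 0 211111 0 0 0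
    0)) (.S 2 0 (.S 3 1 (.S 3 0 (.S 4 11 (.S 4 5 (.S 4 2 (.S 4 1 (.L 4 6 [4, 4] [294, 286, 0, 0, 0,
    0] [0, 0, 0, 0, 0, 0] 100000 406666 253333 2 253333 0 126667 0 0 0 0) (.L 4 6 [4, 4] [302, 294,
    286, 0, 0, 0] [0, 0, 0, 0, 0, 0] 100000 0 0 1450000 50000 0 100000 0 0 0 0)) (.L 4 6 [4, 4]
    [314, 314, 310, 302, 294, 286] [0, 0, 0, 0, 0, 0] 100000 280000 0 0 190000 0 380000 0 0 0 0))
    (.L 4 6 [4, 4] [314, 314, 314, 314, 314, 314] [0, 0, 0, 0, 0, 0] 100000 192308 0 0 146154 0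
    292308 0 0 0 0)) (.E 2)) (.L 3 5 [5, 5] [314, 314, 314, 314, 314, 314] [8, 0, 0, 0, 0, 0]
    100000 500000 400000 0 200000 0 200000 0 0 0 0)) (.L 3 5 [5, 5] [314, 314, 314, 314, 314, 314]
    [] 100000 0 100000 0 0 0 0 0 0 0 0)) (.L 3 5 [5, 5] [314, 314, 314, 314, 314, 314] [] 100000
    500000 400000 0 200000 0 200000 0 0 0 0))) (.S 2 0 (.S 3 0 (.S 4 12 (.S 4 6 (.S 4 3 (.S 4 1 (.L
    4 6 [4, 4] [332, 324, 0, 0, 0, 0] [0, 0, 0, 0, 0, 0] 100000 400000 250000 0 250000 0 0 0 0 0 0)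
    (.L 3 5 [5, 5] [348, 340, 332, 324, 0, 0] [0, 0, 0, 0, 0, 0] 100000 325000 90000 0 190000 0
    335000 0 0 0 0)) (.L 3 5 [5, 5] [352, 352, 352, 348, 340, 332] [0, 0, 0, 0, 0, 0] 100000 207692
    0 2 153846 0 307692 0 0 0 0)) (.E 2)) (.E 2)) (.L 3 5 [5, 5] [352, 352, 352, 352, 352, 352] []
    100000 0 100000 0 0 0 0 0 0 0 0)) (.L 3 5 [5, 5] [352, 352, 352, 352, 352, 352] [] 100000 0
    100000 0 0 0 0 0 0 0 0))))) (.E 0)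

lemma s20_20_11_1_4 {n : ℕ} (hn : 5 ≤ n) : NoNd (d20_20_11_1.R : ℤ) d20_20_11_1.H n d20_20_11_1.a d20_20_11_1.b
    (BlkD.inB (BlkD.upd (BlkD.upd (fun _ => 0) 0 6) 0 8)
      (BlkD.upd (BlkD.upd (BlkD.upd (fun _ => 20) 0 11) 2 1) 0 8)) :=
  BlkD.tree_sound (BlkD.pairOk_sound k20_20_11_1) (by decide) hn t20_20_11_1_4 _ _ (by decide +kernel)

/-- certificates of the pair `(11, 1)`, part 5 -/
def t20_20_11_1_5 : BlkD.Tr :=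
  .S 0 10 (.S 0 9 (.S 1 11 (.S 1 5 (.L 3 5 [5, 5] [] [] 100000 0 0 1400000 40000 0 40000 0 0 0 0)
    (.S 1 8 (.S 1 7 (.S 1 6 (.L 3 5 [5, 5] [166, 166, 166, 162, 154, 146] [] 100000 0 0 1460000
    40000 0 40000 0 0 0 0) (.L 4 6 [4, 4] [196, 196, 196, 196, 192, 184] [] 100000 0 0 1450000
    50000 0 50000 0 0 0 0)) (.S 2 0 (.S 3 3 (.S 3 1 (.S 3 0 (.L 4 6 [4, 4] [228, 228, 228, 228,
    228, 224] [0, 0, 0, 0, 0, 0] 100000 0 0 1450000 50000 0 75000 0 0 0 0) (.L 3 5 [5, 5] [228,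
    228, 228, 228, 228, 224] [8, 0, 0, 0, 0, 0] 100000 0 0 1450000 50000 0 50000 0 0 0 0)) (.L 3 5
    [5, 5] [228, 228, 228, 228, 228, 224] [] 100000 280000 0 0 190000 0 190000 380000 0 0 0)) (.E
    1)) (.S 3 2 (.S 3 1 (.S 3 0 (.L 3 5 [5, 5] [228, 228, 228, 228, 228, 224] [0, 0, 0, 0, 0, 0]
    100000 0 0 1450000 50000 0 50000 0 0 0 0) (.S 4 8 (.S 4 4 (.S 4 2 (.S 4 1 (.L 4 6 [4, 4] [208,
    200, 0, 0, 0, 0] [10, 2, 0, 0, 0, 0] 100000 406666 253333 2 253333 0 126667 0 0 0 0) (.L 4 6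
    [4, 4] [216, 208, 200, 0, 0, 0] [10, 2, 0, 0, 0, 0] 100000 280000 0 0 190000 0 380000 0 0 0 0))
    (.L 4 6 [4, 4] [228, 224, 216, 208, 200, 0] [10, 2, 0, 0, 0, 0] 100000 245455 0 0 172727 0
    345455 0 0 0 0)) (.L 4 6 [4, 4] [228, 228, 228, 228, 228, 224] [10, 2, 0, 0, 0, 0] 100000
    192308 0 0 146154 0 292308 0 0 0 0)) (.E 2))) (.E 1)) (.E 1)))) (.S 1 10 (.S 1 9 (.S 2 0 (.S 3
    2 (.S 3 1 (.S 3 0 (.L 3 5 [5, 5] [262, 262, 262, 262, 262, 262] [0, 0, 0, 0, 0, 0] 100000 0 0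
    1450000 50000 0 100000 0 0 0 0) (.L 3 5 [5, 5] [262, 262, 262, 262, 262, 262] [8, 0, 0, 0, 0,
    0] 100000 0 0 1450000 50000 0 100000 50000 0 0 0)) (.L 3 5 [5, 5] [262, 262, 262, 262, 262,
    262] [14, 10, 2, 0, 0, 0] 100000 370000 180000 0 190000 0 190000 290000 0 0 0)) (.E 1)) (.S 3 1
    (.S 3 0 (.S 4 9 (.S 4 4 (.S 4 2 (.L 4 6 [4, 4] [250, 242, 234, 0, 0, 0] [0, 0, 0, 0, 0, 0]
    100000 406666 253333 2 253333 0 190000 0 0 0 0) (.L 4 6 [4, 4] [262, 258, 250, 242, 234, 0] [0,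
    0, 0, 0, 0, 0] 100000 280000 0 0 190000 0 380000 0 0 0 0)) (.L 4 6 [4, 4] [262, 262, 262, 262,
    262, 262] [0, 0, 0, 0, 0, 0] 100000 216667 0 0 158333 0 316667 0 0 0 0)) (.E 2)) (.S 4 9 (.S 4
    4 (.S 4 2 (.L 4 6 [4, 4] [250, 242, 234, 0, 0, 0] [10, 2, 0, 0, 0, 0] 100000 406666 253333 3
    253333 0 113333 0 0 0 0) (.L 4 6 [4, 4] [262, 258, 250, 242, 234, 0] [10, 2, 0, 0, 0, 0] 100000
    233335 2 0 166667 0 333333 0 0 0 0)) (.L 4 6 [4, 4] [262, 262, 262, 262, 262, 262] [10, 2, 0,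
    0, 0, 0] 100000 185714 0 2 142857 0 285714 0 0 0 0)) (.E 2))) (.E 1))) (.S 2 0 (.S 3 1 (.S 3 0
    (.L 3 5 [5, 5] [298, 298, 298, 298, 298, 298] [0, 0, 0, 0, 0, 0] 100000 0 0 1450000 50000 0
    100000 0 0 0 0) (.L 3 5 [5, 5] [298, 298, 298, 298, 298, 298] [8, 0, 0, 0, 0, 0] 100000 325000
    90000 0 190000 0 335000 145000 0 0 0)) (.L 3 5 [5, 5] [298, 298, 298, 298, 298, 298] [] 100000
    0 100000 0 0 0 0 0 0 0 0)) (.S 3 0 (.S 4 10 (.S 4 5 (.S 4 2 (.L 3 5 [5, 5] [286, 278, 270, 0,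
    0, 0] [0, 0, 0, 0, 0, 0] 100000 406666 253333 3 253333 0 113333 0 0 0 0) (.L 3 5 [5, 5] [298,
    298, 294, 286, 278, 270] [0, 0, 0, 0, 0, 0] 100000 325000 90000 0 190000 0 335000 0 0 0 0)) (.L
    3 5 [5, 5] [298, 298, 298, 298, 298, 298] [0, 0, 0, 0, 0, 0] 100000 185714 0 2 142857 0 285714
    0 0 0 0)) (.E 2)) (.L 3 5 [5, 5] [298, 298, 298, 298, 298, 298] [] 100000 0 100000 0 0 0 0 0 0
    0 0)))) (.L 4 6 [4, 4] [336, 336, 336, 336, 336, 336] [] 100000 400000 250000 0 250000 0 250000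
    0 0 0 0)))) (.E 0)) (.S 1 10 (.S 1 5 (.S 1 2 (.L 4 6 [4, 4] [] [] 100000 0 0 1300000 50000 0
    50000 0 0 0 0) (.S 1 4 (.L 4 6 [4, 4] [] [] 100000 0 0 1400000 50000 0 50000 0 0 0 0) (.L 4 6
    [4, 4] [148, 148, 144, 136, 128, 120] [] 100000 0 0 1450000 50000 0 50000 0 0 0 0))) (.S 1 8
    (.S 1 7 (.L 4 6 [4, 4] [] [] 100000 0 0 1485716 28571 0 100000 0 0 0 0) (.L 4 6 [4, 4] [244,
    244, 244, 244, 244, 240] [] 100000 0 0 1450000 50000 0 100000 0 0 0 0)) (.S 1 9 (.L 4 6 [4, 4]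
    [280, 280, 280, 280, 280, 280] [] 100000 0 0 1450000 50000 0 100000 0 0 0 0) (.E 0)))) (.E 0)))
    (.L 4 6 [4, 4] [] [] 100000 2 2 1463636 18182 0 100000 0 0 0 0)

lemma s20_20_11_1_5 {n : ℕ} (hn : 5 ≤ n) : NoNd (d20_20_11_1.R : ℤ) d20_20_11_1.H n d20_20_11_1.a d20_20_11_1.b
    (BlkD.inB (BlkD.upd (BlkD.upd (fun _ => 0) 0 6) 0 9)
      (BlkD.upd (BlkD.upd (fun _ => 20) 0 11) 2 1)) :=
  BlkD.tree_sound (BlkD.pairOk_sound k20_20_11_1) (by decide) hn t20_20_11_1_5 _ _ (by decide +kernel)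

/-- certificates of the pair `(11, 1)`, part 6 -/
def t20_20_11_1_6 : BlkD.Tr :=
  .E 1

lemma s20_20_11_1_6 {n : ℕ} (hn : 5 ≤ n) : NoNd (d20_20_11_1.R : ℤ) d20_20_11_1.H n d20_20_11_1.a d20_20_11_1.b
    (BlkD.inB (BlkD.upd (fun _ => 0) 2 2)
      (BlkD.upd (fun _ => 20) 0 11)) :=
  BlkD.tree_sound (BlkD.pairOk_sound k20_20_11_1) (by decide) hn t20_20_11_1_6 _ _ (by decide +kernel)

/-- certificates of the pair `(11, 1)`, part 7 -/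
def t20_20_11_1_7 : BlkD.Tr :=
  .E 0

lemma s20_20_11_1_7 {n : ℕ} (hn : 5 ≤ n) : NoNd (d20_20_11_1.R : ℤ) d20_20_11_1.H n d20_20_11_1.a d20_20_11_1.b
    (BlkD.inB (BlkD.upd (fun _ => 0) 0 12)
      (fun _ => 20)) :=
  BlkD.tree_sound (BlkD.pairOk_sound k20_20_11_1) (by decide) hn t20_20_11_1_7 _ _ (by decide +kernel)

lemma pr20_20_11_1 {n : ℕ} (hn : 5 ≤ n) : NoPr ((20 : ℕ) : ℤ) ((20 : ℕ) : ℤ) n 11 1 :=
  BlkD.of_root (R := d20_20_11_1.R) (H := d20_20_11_1.H) (a := d20_20_11_1.a) (b := d20_20_11_1.b) (q := 3) (by decide) hn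
    (BlkD.sp 0 11 (BlkD.sp 2 1 (BlkD.sp 0 5 (BlkD.sp 0 2 (s20_20_11_1_1 hn) (s20_20_11_1_2 hn))
      (BlkD.sp 0 8 (BlkD.sp 0 7 (s20_20_11_1_3 hn) (s20_20_11_1_4 hn)) (s20_20_11_1_5 hn)))
      (s20_20_11_1_6 hn)) (s20_20_11_1_7 hn))

/-- the numbers of the pair `(11, 2)`, `R = 20`, `H = 20` -/
def d20_20_11_2 : BlkD.Pd :=
  ⟨20, 20, 3, 11, 2, 4, 1, 2, 0, 4, 8, 0, 0, 4, 4, 0, [0, 8, 16, 16, 16], [0, 4, 8, 12, 16], [⟨1,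
    1, 1, 4, 8, [0, 4], [0, 4]⟩, ⟨1, 1, 1, 4, 12, [0, 8], [0, 4]⟩]⟩

lemma k20_20_11_2 : BlkD.pairOk d20_20_11_2 = true := by decide +kernel

/-- certificates of the pair `(11, 2)`, part 1 -/
def t20_20_11_2_1 : BlkD.Tr :=
  .L 4 6 [4, 4, 20] [] [] 100000 175000 175000 1325000 75000 0 87500 0 0 0 0

lemma s20_20_11_2_1 {n : ℕ} (hn : 5 ≤ n) : NoNd (d20_20_11_2.R : ℤ) d20_20_11_2.H n d20_20_11_2.a d20_20_11_2.b
    (BlkD.inB (fun _ => 0)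
      (BlkD.upd (BlkD.upd (BlkD.upd (BlkD.upd (fun _ => 20) 0 11) 2 2) 0 5) 0 2)) :=
  BlkD.tree_sound (BlkD.pairOk_sound k20_20_11_2) (by decide) hn t20_20_11_2_1 _ _ (by decide +kernel)

/-- certificates of the pair `(11, 2)`, part 2 -/
def t20_20_11_2_2 : BlkD.Tr :=
  .S 0 3 (.L 4 6 [4, 4, 20] [] [] 100000 175000 175000 1325000 75000 0 87500 0 0 0 0) (.L 4 6 [4,
    4, 20] [] [] 100000 175000 175000 1325000 75000 0 87500 0 0 0 0)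

lemma s20_20_11_2_2 {n : ℕ} (hn : 5 ≤ n) : NoNd (d20_20_11_2.R : ℤ) d20_20_11_2.H n d20_20_11_2.a d20_20_11_2.b
    (BlkD.inB (BlkD.upd (fun _ => 0) 0 3)
      (BlkD.upd (BlkD.upd (BlkD.upd (BlkD.upd (fun _ => 20) 0 11) 2 2) 0 5) 0 4)) :=
  BlkD.tree_sound (BlkD.pairOk_sound k20_20_11_2) (by decide) hn t20_20_11_2_2 _ _ (by decide +kernel)

/-- certificates of the pair `(11, 2)`, part 3 -/
def t20_20_11_2_3 : BlkD.Tr :=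
  .L 4 6 [4, 4, 20] [] [] 100000 175000 175000 1325000 75000 0 87500 0 0 0 0

lemma s20_20_11_2_3 {n : ℕ} (hn : 5 ≤ n) : NoNd (d20_20_11_2.R : ℤ) d20_20_11_2.H n d20_20_11_2.a d20_20_11_2.b
    (BlkD.inB (BlkD.upd (BlkD.upd (fun _ => 0) 0 3) 0 5)
      (BlkD.upd (BlkD.upd (BlkD.upd (fun _ => 20) 0 11) 2 2) 0 5)) :=
  BlkD.tree_sound (BlkD.pairOk_sound k20_20_11_2) (by decide) hn t20_20_11_2_3 _ _ (by decide +kernel)

/-- certificates of the pair `(11, 2)`, part 4 -/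
def t20_20_11_2_4 : BlkD.Tr :=
  .S 0 6 (.S 1 14 (.S 1 7 (.L 4 6 [4, 4, 20] [] [] 100000 0 0 1450000 25000 0 25000 0 0 0 0) (.S 1
    11 (.S 1 9 (.L 4 6 [4, 4, 20] [] [] 100000 0 0 1533336 33333 0 50000 0 0 0 0) (.S 1 10 (.L 4 6
    [4, 4, 20] [244, 244, 244, 244, 244, 244] [] 100000 100000 100000 1450000 50000 0 100000 50000
    0 0 0) (.S 2 1 (.S 2 0 (.L 4 6 [4, 4, 20] [276, 276, 276, 276, 276, 276] [] 100000 200002
    200002 1366665 66667 0 100000 66667 0 0 0) (.S 3 2 (.S 3 1 (.S 3 0 (.L 2 2 [6, 10, 20] [276,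
    276, 276, 276, 276, 276] [0, 0, 0, 0, 0, 0] 100000 550000 550000 1000000 100000 0 100000 0 0
    50000 50000) (.L 2 2 [6, 10, 20] [276, 276, 276, 276, 276, 276] [12, 2, 0, 0, 0, 0] 100000
    550000 550000 1000000 100000 0 100000 0 0 50000 50000)) (.L 2 2 [6, 10, 20] [276, 276, 276,
    276, 276, 276] [24, 16, 6, 0, 0, 0] 100000 990908 909090 2 181818 0 181818 0 0 0 0)) (.E 1)))
    (.L 2 2 [6, 10, 20] [276, 276, 276, 276, 276, 276] [] 100000 600000 600000 900000 100000 0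
    100000 0 0 0 0)))) (.S 1 13 (.S 1 12 (.L 4 6 [4, 4, 20] [310, 310, 310, 310, 310, 310] []
    100000 300000 300000 1200000 100000 0 100000 0 0 0 0) (.L 4 6 [4, 4, 20] [346, 346, 346, 346,
    346, 346] [] 100000 300000 300000 1200000 100000 0 100000 0 0 0 0)) (.L 4 6 [4, 4, 20] [384,
    384, 384, 384, 384, 384] [] 100000 677777 444444 2 222222 0 333333 0 0 0 0)))) (.E 0)) (.S 1 13
    (.S 1 6 (.L 4 6 [4, 4, 20] [] [] 100000 0 0 1475000 25000 0 25000 0 0 0 0) (.S 1 10 (.S 1 8 (.S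
    1 7 (.L 4 6 [4, 4, 20] [174, 174, 174, 174, 166, 158] [] 100000 0 0 1500002 33333 0 50000 0 0 0
    0) (.L 4 6 [4, 4, 20] [202, 202, 202, 202, 202, 194] [] 100000 100000 100000 1450000 50000 0
    100000 50000 0 0 0)) (.S 1 9 (.S 2 1 (.S 2 0 (.S 3 4 (.S 3 2 (.S 3 1 (.L 4 6 [4, 4, 20] [232,
    232, 232, 232, 232, 232] [] 100000 0 0 1533335 33333 0 66667 33333 0 0 0) (.L 7 7 [5, 3, 20]
    [232, 232, 232, 232, 232, 232] [20, 12, 2, 0, 0, 0] 100000 100000 100000 1300000 100000 0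
    100000 100000 0 0 0)) (.L 7 7 [5, 3, 20] [232, 232, 232, 232, 232, 232] [] 100000 442858 271429
    0 271429 0 271429 271429 0 0 0)) (.E 1)) (.L 7 7 [5, 3, 20] [232, 232, 232, 232, 232, 232] []
    100000 1 1 1533333 66667 0 100000 33333 0 0 0)) (.L 7 7 [5, 3, 20] [232, 232, 232, 232, 232,
    232] [] 100000 1 1 1533333 66667 0 100000 0 0 0 0)) (.L 7 7 [5, 3, 20] [264, 264, 264, 264,
    264, 264] [] 100000 25000 25000 1525000 75000 0 100000 25000 0 0 0))) (.L 7 7 [5, 3, 20] [] []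
    100000 100000 100000 1400000 100000 0 100000 0 0 0 0))) (.E 0))

lemma s20_20_11_2_4 {n : ℕ} (hn : 5 ≤ n) : NoNd (d20_20_11_2.R : ℤ) d20_20_11_2.H n d20_20_11_2.a d20_20_11_2.b
    (BlkD.inB (BlkD.upd (fun _ => 0) 0 6)
      (BlkD.upd (BlkD.upd (BlkD.upd (BlkD.upd (fun _ => 20) 0 11) 2 2) 0 8) 0 7)) :=
  BlkD.tree_sound (BlkD.pairOk_sound k20_20_11_2) (by decide) hn t20_20_11_2_4 _ _ (by decide +kernel)

/-- certificates of the pair `(11, 2)`, part 5 -/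
def t20_20_11_2_5 : BlkD.Tr :=
  .L 7 7 [5, 3, 20] [] [] 100000 25000 25000 1550000 75000 0 100000 50000 0 0 0

lemma s20_20_11_2_5 {n : ℕ} (hn : 5 ≤ n) : NoNd (d20_20_11_2.R : ℤ) d20_20_11_2.H n d20_20_11_2.a d20_20_11_2.b
    (BlkD.inB (BlkD.upd (BlkD.upd (fun _ => 0) 0 6) 0 8)
      (BlkD.upd (BlkD.upd (BlkD.upd (fun _ => 20) 0 11) 2 2) 0 8)) :=
  BlkD.tree_sound (BlkD.pairOk_sound k20_20_11_2) (by decide) hn t20_20_11_2_5 _ _ (by decide +kernel)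

/-- certificates of the pair `(11, 2)`, part 6 -/
def t20_20_11_2_6 : BlkD.Tr :=
  .S 0 10 (.S 0 9 (.S 1 11 (.S 1 5 (.L 4 6 [4, 4, 20] [] [] 100000 0 0 1540000 40000 0 40000 0 0 0
    0) (.S 1 8 (.S 1 7 (.S 1 6 (.S 2 1 (.S 2 0 (.L 4 6 [4, 4, 20] [172, 172, 172, 164, 156, 148] []
    100000 0 0 1540000 40000 0 60000 60000 0 0 0) (.S 3 4 (.S 3 2 (.S 3 1 (.L 4 6 [4, 4, 20] [172,
    172, 172, 164, 156, 148] [] 100000 0 0 1540000 40000 0 40000 0 0 0 0) (.L 7 7 [5, 3, 20] [172,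
    172, 172, 164, 156, 148] [24, 16, 6, 0, 0, 0] 100000 1 1 1499999 66667 0 100000 0 0 0 0)) (.E
    1)) (.E 1))) (.L 7 7 [5, 3, 20] [172, 172, 172, 164, 156, 148] [] 100000 1 1 1566666 66667 0
    66667 0 0 0 0)) (.S 2 1 (.L 7 7 [5, 3, 20] [202, 202, 202, 202, 194, 186] [] 100000 1 1 1566667
    66667 33333 100000 33333 0 0 0) (.L 4 6 [4, 4, 20] [202, 202, 202, 202, 194, 186] [] 100000
    300000 300000 1200000 100000 0 100000 0 0 0 0))) (.L 4 6 [4, 4, 20] [234, 234, 234, 234, 234,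
    226] [] 100000 100000 100000 1475000 75000 0 100000 25000 0 0 0)) (.S 1 10 (.S 1 9 (.L 4 6 [4,
    4, 20] [268, 268, 268, 268, 268, 268] [] 100000 100000 100000 1475000 75000 0 100000 25000 0 0
    0) (.L 4 6 [4, 4, 20] [304, 304, 304, 304, 304, 304] [] 100000 200000 200000 1300000 100000 0
    100000 100000 0 0 0)) (.L 4 6 [4, 4, 20] [342, 342, 342, 342, 342, 342] [] 100000 525000 200000
    0 262500 0 425000 0 0 0 0)))) (.E 0)) (.S 1 10 (.S 1 5 (.S 1 2 (.L 4 6 [4, 4, 20] [] [] 100000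
    0 0 1500000 0 0 0 0 0 0 0) (.S 1 4 (.L 4 6 [4, 4, 20] [] [] 100000 0 0 1550000 50000 0 50000 0
    0 0 0) (.L 4 6 [4, 4, 20] [154, 154, 146, 138, 130, 120] [] 100000 0 0 1550000 50000 0 100000
    50000 0 0 0))) (.S 1 8 (.S 1 7 (.S 1 6 (.L 4 6 [4, 4, 20] [184, 184, 184, 176, 168, 160] []
    100000 0 0 1550000 50000 0 100000 50000 0 0 0) (.L 4 6 [4, 4, 20] [216, 216, 216, 216, 208,
    200] [] 100000 0 0 1550000 50000 0 100000 50000 0 0 0)) (.L 4 6 [4, 4, 20] [250, 250, 250, 250,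
    250, 242] [] 100000 100000 100000 1400000 100000 0 100000 0 0 0 0)) (.S 1 9 (.L 4 6 [4, 4, 20]
    [286, 286, 286, 286, 286, 286] [] 100000 533334 316667 0 316667 0 316667 100000 0 0 0) (.L 4 6
    [4, 4, 20] [324, 324, 324, 324, 324, 324] [] 100000 471428 285714 2 285714 0 285714 0 0 0 0))))
    (.E 0))) (.L 4 6 [4, 4, 20] [] [] 100000 2 2 1563636 18182 0 100000 0 0 0 0)

lemma s20_20_11_2_6 {n : ℕ} (hn : 5 ≤ n) : NoNd (d20_20_11_2.R : ℤ) d20_20_11_2.H n d20_20_11_2.a d20_20_11_2.b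
    (BlkD.inB (BlkD.upd (BlkD.upd (fun _ => 0) 0 6) 0 9)
      (BlkD.upd (BlkD.upd (fun _ => 20) 0 11) 2 2)) :=
  BlkD.tree_sound (BlkD.pairOk_sound k20_20_11_2) (by decide) hn t20_20_11_2_6 _ _ (by decide +kernel)

/-- certificates of the pair `(11, 2)`, part 7 -/
def t20_20_11_2_7 : BlkD.Tr :=
  .E 1

lemma s20_20_11_2_7 {n : ℕ} (hn : 5 ≤ n) : NoNd (d20_20_11_2.R : ℤ) d20_20_11_2.H n d20_20_11_2.a d20_20_11_2.b
    (BlkD.inB (BlkD.upd (fun _ => 0) 2 3)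
      (BlkD.upd (fun _ => 20) 0 11)) :=
  BlkD.tree_sound (BlkD.pairOk_sound k20_20_11_2) (by decide) hn t20_20_11_2_7 _ _ (by decide +kernel)

/-- certificates of the pair `(11, 2)`, part 8 -/
def t20_20_11_2_8 : BlkD.Tr :=
  .E 0

lemma s20_20_11_2_8 {n : ℕ} (hn : 5 ≤ n) : NoNd (d20_20_11_2.R : ℤ) d20_20_11_2.H n d20_20_11_2.a d20_20_11_2.b
    (BlkD.inB (BlkD.upd (fun _ => 0) 0 12)
      (fun _ => 20)) :=
  BlkD.tree_sound (BlkD.pairOk_sound k20_20_11_2) (by decide) hn t20_20_11_2_8 _ _ (by decide +kernel)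

lemma pr20_20_11_2 {n : ℕ} (hn : 5 ≤ n) : NoPr ((20 : ℕ) : ℤ) ((20 : ℕ) : ℤ) n 11 2 :=
  BlkD.of_root (R := d20_20_11_2.R) (H := d20_20_11_2.H) (a := d20_20_11_2.a) (b := d20_20_11_2.b) (q := 3) (by decide) hn
    (BlkD.sp 0 11 (BlkD.sp 2 2 (BlkD.sp 0 5 (BlkD.sp 0 2 (s20_20_11_2_1 hn) (BlkD.sp 0 4
      (s20_20_11_2_2 hn) (s20_20_11_2_3 hn))) (BlkD.sp 0 8 (BlkD.sp 0 7 (s20_20_11_2_4 hn)
      (s20_20_11_2_5 hn)) (s20_20_11_2_6 hn))) (s20_20_11_2_7 hn)) (s20_20_11_2_8 hn))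

/-- the numbers of the pair `(11, 3)`, `R = 20`, `H = 20` -/
def d20_20_11_3 : BlkD.Pd :=
  ⟨20, 20, 3, 11, 3, 3, 0, 3, 0, 4, 4, 0, 0, 4, 4, 0, [0, 4, 8, 12], [0, 4, 8, 12], [⟨1, 1, 1, 4,
    8, [0, 4], [0, 4]⟩]⟩

lemma k20_20_11_3 : BlkD.pairOk d20_20_11_3 = true := by decide +kernel

/-- certificates of the pair `(11, 3)`, part 1 -/
def t20_20_11_3_1 : BlkD.Tr :=
  .S 0 1 (.L 4 4 [4, 20, 20, 20] [] [] 100000 0 0 1600000 100000 0 100000 50000 0 0 0) (.L 4 4 [4,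
    20, 20, 20] [] [] 100000 0 0 1600000 100000 0 100000 50000 0 0 0)

lemma s20_20_11_3_1 {n : ℕ} (hn : 5 ≤ n) : NoNd (d20_20_11_3.R : ℤ) d20_20_11_3.H n d20_20_11_3.a d20_20_11_3.b
    (BlkD.inB (fun _ => 0)
      (BlkD.upd (BlkD.upd (BlkD.upd (BlkD.upd (fun _ => 20) 0 11) 2 3) 0 5) 0 2)) :=
  BlkD.tree_sound (BlkD.pairOk_sound k20_20_11_3) (by decide) hn t20_20_11_3_1 _ _ (by decide +kernel)

/-- certificates of the pair `(11, 3)`, part 2 -/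
def t20_20_11_3_2 : BlkD.Tr :=
  .S 0 3 (.L 4 4 [4, 20, 20, 20] [] [] 100000 0 0 1600000 100000 0 100000 50000 0 0 0) (.L 4 4 [4,
    20, 20, 20] [] [] 100000 0 0 1600000 100000 0 100000 50000 0 0 0)

lemma s20_20_11_3_2 {n : ℕ} (hn : 5 ≤ n) : NoNd (d20_20_11_3.R : ℤ) d20_20_11_3.H n d20_20_11_3.a d20_20_11_3.b
    (BlkD.inB (BlkD.upd (fun _ => 0) 0 3)
      (BlkD.upd (BlkD.upd (BlkD.upd (BlkD.upd (fun _ => 20) 0 11) 2 3) 0 5) 0 4)) :=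
  BlkD.tree_sound (BlkD.pairOk_sound k20_20_11_3) (by decide) hn t20_20_11_3_2 _ _ (by decide +kernel)

/-- certificates of the pair `(11, 3)`, part 3 -/
def t20_20_11_3_3 : BlkD.Tr :=
  .L 4 4 [4, 20, 20, 20] [] [] 100000 0 0 1600000 100000 0 100000 50000 0 0 0

lemma s20_20_11_3_3 {n : ℕ} (hn : 5 ≤ n) : NoNd (d20_20_11_3.R : ℤ) d20_20_11_3.H n d20_20_11_3.a d20_20_11_3.b
    (BlkD.inB (BlkD.upd (BlkD.upd (fun _ => 0) 0 3) 0 5)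
      (BlkD.upd (BlkD.upd (BlkD.upd (fun _ => 20) 0 11) 2 3) 0 5)) :=
  BlkD.tree_sound (BlkD.pairOk_sound k20_20_11_3) (by decide) hn t20_20_11_3_3 _ _ (by decide +kernel)

/-- certificates of the pair `(11, 3)`, part 4 -/
def t20_20_11_3_4 : BlkD.Tr :=
  .S 0 6 (.L 4 4 [4, 20, 20, 20] [] [] 100000 0 0 1600000 100000 0 100000 50000 0 0 0) (.L 4 4 [4,
    20, 20, 20] [] [] 100000 0 0 1600000 100000 0 100000 50000 0 0 0)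

lemma s20_20_11_3_4 {n : ℕ} (hn : 5 ≤ n) : NoNd (d20_20_11_3.R : ℤ) d20_20_11_3.H n d20_20_11_3.a d20_20_11_3.b
    (BlkD.inB (BlkD.upd (fun _ => 0) 0 6)
      (BlkD.upd (BlkD.upd (BlkD.upd (BlkD.upd (fun _ => 20) 0 11) 2 3) 0 8) 0 7)) :=
  BlkD.tree_sound (BlkD.pairOk_sound k20_20_11_3) (by decide) hn t20_20_11_3_4 _ _ (by decide +kernel)

/-- certificates of the pair `(11, 3)`, part 5 -/
def t20_20_11_3_5 : BlkD.Tr :=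
  .L 4 4 [4, 20, 20, 20] [] [] 100000 0 0 1600000 100000 0 100000 50000 0 0 0

lemma s20_20_11_3_5 {n : ℕ} (hn : 5 ≤ n) : NoNd (d20_20_11_3.R : ℤ) d20_20_11_3.H n d20_20_11_3.a d20_20_11_3.b
    (BlkD.inB (BlkD.upd (BlkD.upd (fun _ => 0) 0 6) 0 8)
      (BlkD.upd (BlkD.upd (BlkD.upd (fun _ => 20) 0 11) 2 3) 0 8)) :=
  BlkD.tree_sound (BlkD.pairOk_sound k20_20_11_3) (by decide) hn t20_20_11_3_5 _ _ (by decide +kernel)

/-- certificates of the pair `(11, 3)`, part 6 -/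
def t20_20_11_3_6 : BlkD.Tr :=
  .L 4 4 [4, 20, 20, 20] [] [] 100000 0 0 1600000 100000 0 100000 50000 0 0 0

lemma s20_20_11_3_6 {n : ℕ} (hn : 5 ≤ n) : NoNd (d20_20_11_3.R : ℤ) d20_20_11_3.H n d20_20_11_3.a d20_20_11_3.b
    (BlkD.inB (BlkD.upd (BlkD.upd (fun _ => 0) 0 6) 0 9)
      (BlkD.upd (BlkD.upd (fun _ => 20) 0 11) 2 3)) :=
  BlkD.tree_sound (BlkD.pairOk_sound k20_20_11_3) (by decide) hn t20_20_11_3_6 _ _ (by decide +kernel)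

/-- certificates of the pair `(11, 3)`, part 7 -/
def t20_20_11_3_7 : BlkD.Tr :=
  .E 1

lemma s20_20_11_3_7 {n : ℕ} (hn : 5 ≤ n) : NoNd (d20_20_11_3.R : ℤ) d20_20_11_3.H n d20_20_11_3.a d20_20_11_3.b
    (BlkD.inB (BlkD.upd (fun _ => 0) 2 4)
      (BlkD.upd (fun _ => 20) 0 11)) :=
  BlkD.tree_sound (BlkD.pairOk_sound k20_20_11_3) (by decide) hn t20_20_11_3_7 _ _ (by decide +kernel)

/-- certificates of the pair `(11, 3)`, part 8 -/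
def t20_20_11_3_8 : BlkD.Tr :=
  .E 0

lemma s20_20_11_3_8 {n : ℕ} (hn : 5 ≤ n) : NoNd (d20_20_11_3.R : ℤ) d20_20_11_3.H n d20_20_11_3.a d20_20_11_3.b
    (BlkD.inB (BlkD.upd (fun _ => 0) 0 12)
      (fun _ => 20)) :=
  BlkD.tree_sound (BlkD.pairOk_sound k20_20_11_3) (by decide) hn t20_20_11_3_8 _ _ (by decide +kernel)

lemma pr20_20_11_3 {n : ℕ} (hn : 5 ≤ n) : NoPr ((20 : ℕ) : ℤ) ((20 : ℕ) : ℤ) n 11 3 :=
  BlkD.of_root (R := d20_20_11_3.R) (H := d20_20_11_3.H) (a := d20_20_11_3.a) (b := d20_20_11_3.b) (q := 3) (by decide) hn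
    (BlkD.sp 0 11 (BlkD.sp 2 3 (BlkD.sp 0 5 (BlkD.sp 0 2 (s20_20_11_3_1 hn) (BlkD.sp 0 4
      (s20_20_11_3_2 hn) (s20_20_11_3_3 hn))) (BlkD.sp 0 8 (BlkD.sp 0 7 (s20_20_11_3_4 hn)
      (s20_20_11_3_5 hn)) (s20_20_11_3_6 hn))) (s20_20_11_3_7 hn)) (s20_20_11_3_8 hn))

end BlkC

end Pool.Agent.Lib.MP_f04ccf_co
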