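import Pool.Agent.Lib.MP_f04ccf_co.M.BlkT

/-!
MP_f04ccf_co, block certificate, data `R = 20`, `H = 20`, part 17 (generated, helper99:
bd10.cpp, gen2.py).
-/

set_option autoImplicit false
set_option maxRecDepth 100000

namespace Pool.Agent.Lib.MP_f04ccf_co

namespace BlkC

/-- the numbers of the pair `(12, 0)`, `R = 20`, `H = 20` -/
def d20_20_12_0 : BlkD.Pd :=
  ⟨20, 20, 3, 12, 0, 5, 0, 1, 0, 4, 4, 0, 0, 4, 4, 0, [0, 4, 8, 12, 16, 20], [0, 4, 8, 12, 16, 20],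
    [⟨1, 1, 1, 4, 8, [0, 4], [0, 4]⟩]⟩

/-- the certificates of the pair `(12, 0)` -/
def t20_20_12_0 : BlkD.Tr :=
  .S 0 12 (.S 2 0 (.L 4 4 [4] [] [] 100000 0 0 1300000 100000 0 100000 0 0 0 0) (.E 1)) (.E 0)

lemma pr20_20_12_0 {n : ℕ} (hn : 5 ≤ n) : NoPr ((20 : ℕ) : ℤ) ((20 : ℕ) : ℤ) n 12 0 :=
  BlkD.pair_sound (d := d20_20_12_0) (by decide +kernel) hn (by decide) (tr := t20_20_12_0)
    (by decide +kernel) rfl rfl rfl rfl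

/-- the numbers of the pair `(12, 1)`, `R = 20`, `H = 20` -/
def d20_20_12_1 : BlkD.Pd :=
  ⟨20, 20, 3, 12, 1, 4, 1, 1, 0, 4, 8, 0, 0, 4, 4, 0, [0, 8, 16, 16, 16], [0, 4, 8, 12, 16], [⟨1,
    1, 1, 4, 8, [0, 4], [0, 4]⟩, ⟨1, 1, 1, 4, 12, [0, 8], [0, 4]⟩]⟩

lemma k20_20_12_1 : BlkD.pairOk d20_20_12_1 = true := by decide +kernel

/-- certificates of the pair `(12, 1)`, part 1 -/
def t20_20_12_1_1 : BlkD.Tr :=
  .L 4 6 [4, 4] [] [] 100000 100000 100000 600000 100000 0 100000 0 0 0 0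

lemma s20_20_12_1_1 {n : ℕ} (hn : 5 ≤ n) : NoNd (d20_20_12_1.R : ℤ) d20_20_12_1.H n d20_20_12_1.a d20_20_12_1.b
    (BlkD.inB (fun _ => 0)
      (BlkD.upd (BlkD.upd (BlkD.upd (BlkD.upd (fun _ => 20) 0 12) 2 1) 0 6) 0 3)) :=
  BlkD.tree_sound (BlkD.pairOk_sound k20_20_12_1) (by decide) hn t20_20_12_1_1 _ _ (by decide +kernel)

/-- certificates of the pair `(12, 1)`, part 2 -/
def t20_20_12_1_2 : BlkD.Tr :=
  .S 0 5 (.L 4 6 [4, 4] [] [] 100000 300000 300000 1000000 100000 0 100000 0 0 0 0) (.S 1 14 (.S 1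
    7 (.L 4 6 [4, 4] [] [] 100000 0 0 1266669 33333 0 33333 0 0 0 0) (.S 1 11 (.L 4 6 [4, 4] [] []
    100000 0 0 1533337 33333 0 33333 0 0 0 0) (.S 1 13 (.S 1 12 (.S 2 0 (.S 3 2 (.S 3 1 (.S 3 0 (.L
    2 2 [6, 10] [300, 300, 300, 300, 300, 300] [0, 0, 0, 0, 0, 0] 100000 271430 271430 1228570
    57143 0 57143 0 0 28571 28571) (.L 2 2 [6, 10] [300, 300, 300, 300, 300, 300] [8, 0, 0, 0, 0,
    0] 100000 986362 913635 3 172727 0 172727 0 0 50000 50000)) (.L 2 2 [6, 10] [300, 300, 300,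
    300, 300, 300] [14, 10, 2, 0, 0, 0] 100000 900002 833335 0 166667 0 166667 0 0 0 0)) (.E 1))
    (.L 2 2 [6, 10] [300, 300, 300, 300, 300, 300] [] 100000 986362 913635 3 172727 0 172727 0 0
    50000 50000)) (.L 2 2 [6, 10] [336, 336, 336, 336, 336, 336] [] 100000 986362 913635 3 172727 0
    172727 0 0 50000 50000)) (.L 2 2 [6, 10] [374, 374, 374, 374, 374, 374] [] 100000 900002 833335
    0 166667 0 166667 0 0 0 0)))) (.E 0))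

lemma s20_20_12_1_2 {n : ℕ} (hn : 5 ≤ n) : NoNd (d20_20_12_1.R : ℤ) d20_20_12_1.H n d20_20_12_1.a d20_20_12_1.b
    (BlkD.inB (BlkD.upd (fun _ => 0) 0 4)
      (BlkD.upd (BlkD.upd (BlkD.upd (fun _ => 20) 0 12) 2 1) 0 6)) :=
  BlkD.tree_sound (BlkD.pairOk_sound k20_20_12_1) (by decide) hn t20_20_12_1_2 _ _ (by decide +kernel)

/-- certificates of the pair `(12, 1)`, part 3 -/
def t20_20_12_1_3 : BlkD.Tr :=
  .S 0 9 (.S 0 8 (.S 0 7 (.L 2 2 [6, 10] [] [] 100000 650000 650000 900000 100000 0 100000 0 0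
    50000 50000) (.S 1 12 (.S 1 6 (.L 2 2 [6, 10] [] [] 100000 20000 20000 1480000 20000 0 20000 0
    0 0 0) (.S 1 9 (.S 1 8 (.S 1 7 (.L 4 6 [4, 4] [178, 178, 178, 178, 178, 170] [] 100000 0 0
    1500003 28571 0 28571 0 0 0 0) (.L 4 6 [4, 4] [208, 208, 208, 208, 208, 208] [] 100000 40000
    40000 1480000 40000 0 80000 0 0 0 0)) (.L 4 6 [4, 4] [240, 240, 240, 240, 240, 240] [] 100000
    40000 40000 1540000 40000 0 60000 0 0 0 0)) (.S 1 11 (.S 1 10 (.S 2 0 (.S 3 2 (.S 3 1 (.S 3 0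
    (.L 2 4 [6, 7] [274, 274, 274, 274, 274, 274] [0, 0, 0, 0, 0, 0] 100000 500000 500000 1000000
    100000 0 100000 0 0 0 0) (.L 2 4 [6, 7] [274, 274, 274, 274, 274, 274] [8, 0, 0, 0, 0, 0]
    100000 500000 500000 1000000 100000 0 100000 0 0 0 0)) (.L 2 4 [6, 7] [274, 274, 274, 274, 274,
    274] [14, 10, 2, 0, 0, 0] 100000 500000 500000 1000000 100000 0 100000 0 0 0 0)) (.E 1)) (.L 2
    4 [6, 7] [274, 274, 274, 274, 274, 274] [] 100000 500000 500000 1000000 100000 0 100000 0 0 0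
    0)) (.L 2 4 [6, 7] [310, 310, 310, 310, 310, 310] [] 100000 500000 500000 1000000 100000 0
    100000 0 0 0 0)) (.L 2 4 [6, 7] [348, 348, 348, 348, 348, 348] [] 100000 500000 500000 1000000
    100000 0 100000 0 0 0 0)))) (.E 0))) (.S 1 11 (.S 1 5 (.L 2 4 [6, 7] [] [] 100000 0 0 1500000
    20000 0 20000 0 0 0 0) (.S 1 8 (.S 1 7 (.S 1 6 (.L 4 6 [4, 4] [162, 162, 162, 162, 154, 146] []
    100000 0 0 1500002 33333 0 33333 0 0 0 0) (.L 4 6 [4, 4] [192, 192, 192, 192, 192, 184] []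
    100000 40000 40000 1520000 40000 0 40000 0 0 0 0)) (.L 4 6 [4, 4] [224, 224, 224, 224, 224,
    224] [] 100000 0 0 1580000 40000 0 40000 0 0 0 0)) (.S 1 10 (.S 1 9 (.S 2 0 (.S 3 2 (.S 3 1 (.S
    3 0 (.L 2 4 [6, 7] [258, 258, 258, 258, 258, 258] [0, 0, 0, 0, 0, 0] 100000 400000 400000
    1100000 100000 0 100000 0 0 0 0) (.L 2 4 [6, 7] [258, 258, 258, 258, 258, 258] [8, 0, 0, 0, 0,
    0] 100000 400000 400000 1100000 100000 0 100000 0 0 0 0)) (.L 2 4 [6, 7] [258, 258, 258, 258,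
    258, 258] [14, 10, 2, 0, 0, 0] 100000 400000 400000 1100000 100000 0 100000 0 0 0 0)) (.E 1))
    (.L 2 4 [6, 7] [258, 258, 258, 258, 258, 258] [] 100000 400000 400000 1100000 100000 0 100000 0
    0 0 0)) (.L 2 4 [6, 7] [294, 294, 294, 294, 294, 294] [] 100000 400000 400000 1100000 100000 0
    100000 0 0 0 0)) (.L 2 4 [6, 7] [332, 332, 332, 332, 332, 332] [] 100000 400000 400000 1100000
    100000 0 100000 0 0 0 0)))) (.E 0))) (.S 0 11 (.S 0 10 (.S 1 10 (.S 1 5 (.L 4 6 [4, 4] [] []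
    100000 0 0 1500000 40000 0 40000 0 0 0 0) (.S 1 8 (.S 1 7 (.S 1 6 (.L 4 6 [4, 4] [174, 174,
    174, 174, 166, 158] [] 100000 50000 50000 1500000 50000 0 100000 0 0 0 0) (.S 2 0 (.S 3 3 (.S 3
    1 (.S 3 0 (.L 4 6 [4, 4] [206, 206, 206, 206, 206, 198] [0, 0, 0, 0, 0, 0] 100000 0 0 1580000
    40000 0 40000 0 0 0 0) (.L 3 5 [5, 5] [206, 206, 206, 206, 206, 198] [8, 0, 0, 0, 0, 0] 100000
    300000 300000 1200000 100000 0 100000 0 0 0 0)) (.L 3 5 [5, 5] [206, 206, 206, 206, 206, 198]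
    [] 100000 533333 211111 1 211111 0 211111 422222 0 0 0)) (.E 1)) (.L 3 5 [5, 5] [206, 206, 206,
    206, 206, 198] [] 100000 300000 300000 1200000 100000 0 100000 0 0 0 0))) (.S 2 0 (.S 3 2 (.S 3
    1 (.S 3 0 (.L 5 8 [5, 3] [240, 240, 240, 240, 240, 240] [0, 0, 0, 0, 0, 0] 100000 1 1 1533333
    66667 0 100000 0 0 0 0) (.L 5 8 [5, 3] [240, 240, 240, 240, 240, 240] [8, 0, 0, 0, 0, 0] 100000
    533334 316667 0 316667 0 316667 0 0 0 0)) (.L 5 8 [5, 3] [240, 240, 240, 240, 240, 240] [14,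
    10, 2, 0, 0, 0] 100000 400000 250000 0 250000 0 250000 0 0 0 0)) (.E 1)) (.L 5 8 [5, 3] [240,
    240, 240, 240, 240, 240] [] 100000 442858 271429 0 271429 0 271429 0 0 0 0))) (.L 5 8 [5, 3] []
    [] 100000 660000 380000 0 380000 0 380000 0 0 0 0))) (.E 0)) (.L 5 8 [5, 3] [] [] 100000 1 1
    1566666 66667 0 100000 0 0 0 0)) (.L 5 8 [5, 3] [] [] 100000 0 0 1500000 50000 0 100000 0 0 0
    0))

lemma s20_20_12_1_3 {n : ℕ} (hn : 5 ≤ n) : NoNd (d20_20_12_1.R : ℤ) d20_20_12_1.H n d20_20_12_1.a d20_20_12_1.b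
    (BlkD.inB (BlkD.upd (fun _ => 0) 0 7)
      (BlkD.upd (BlkD.upd (fun _ => 20) 0 12) 2 1)) :=
  BlkD.tree_sound (BlkD.pairOk_sound k20_20_12_1) (by decide) hn t20_20_12_1_3 _ _ (by decide +kernel)

/-- certificates of the pair `(12, 1)`, part 4 -/
def t20_20_12_1_4 : BlkD.Tr :=
  .E 1

lemma s20_20_12_1_4 {n : ℕ} (hn : 5 ≤ n) : NoNd (d20_20_12_1.R : ℤ) d20_20_12_1.H n d20_20_12_1.a d20_20_12_1.b
    (BlkD.inB (BlkD.upd (fun _ => 0) 2 2)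
      (BlkD.upd (fun _ => 20) 0 12)) :=
  BlkD.tree_sound (BlkD.pairOk_sound k20_20_12_1) (by decide) hn t20_20_12_1_4 _ _ (by decide +kernel)

/-- certificates of the pair `(12, 1)`, part 5 -/
def t20_20_12_1_5 : BlkD.Tr :=
  .E 0

lemma s20_20_12_1_5 {n : ℕ} (hn : 5 ≤ n) : NoNd (d20_20_12_1.R : ℤ) d20_20_12_1.H n d20_20_12_1.a d20_20_12_1.b
    (BlkD.inB (BlkD.upd (fun _ => 0) 0 13)
      (fun _ => 20)) :=
  BlkD.tree_sound (BlkD.pairOk_sound k20_20_12_1) (by decide) hn t20_20_12_1_5 _ _ (by decide +kernel)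

lemma pr20_20_12_1 {n : ℕ} (hn : 5 ≤ n) : NoPr ((20 : ℕ) : ℤ) ((20 : ℕ) : ℤ) n 12 1 :=
  BlkD.of_root (R := d20_20_12_1.R) (H := d20_20_12_1.H) (a := d20_20_12_1.a) (b := d20_20_12_1.b) (q := 3) (by decide) hn
    (BlkD.sp 0 12 (BlkD.sp 2 1 (BlkD.sp 0 6 (BlkD.sp 0 3 (s20_20_12_1_1 hn) (s20_20_12_1_2 hn))
      (s20_20_12_1_3 hn)) (s20_20_12_1_4 hn)) (s20_20_12_1_5 hn))

/-- the numbers of the pair `(12, 2)`, `R = 20`, `H = 20` -/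
def d20_20_12_2 : BlkD.Pd :=
  ⟨20, 20, 3, 12, 2, 3, 0, 2, 0, 4, 4, 0, 0, 4, 4, 0, [0, 4, 8, 12], [0, 4, 8, 12], [⟨1, 1, 1, 4,
    8, [0, 4], [0, 4]⟩]⟩

lemma k20_20_12_2 : BlkD.pairOk d20_20_12_2 = true := by decide +kernel

/-- certificates of the pair `(12, 2)`, part 1 -/
def t20_20_12_2_1 : BlkD.Tr :=
  .L 5 8 [4, 20, 20] [] [] 100000 0 0 1600000 100000 0 100000 50000 0 0 0

lemma s20_20_12_2_1 {n : ℕ} (hn : 5 ≤ n) : NoNd (d20_20_12_2.R : ℤ) d20_20_12_2.H n d20_20_12_2.a d20_20_12_2.b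
    (BlkD.inB (fun _ => 0)
      (BlkD.upd (BlkD.upd (BlkD.upd (BlkD.upd (fun _ => 20) 0 12) 2 2) 0 6) 0 3)) :=
  BlkD.tree_sound (BlkD.pairOk_sound k20_20_12_2) (by decide) hn t20_20_12_2_1 _ _ (by decide +kernel)

/-- certificates of the pair `(12, 2)`, part 2 -/
def t20_20_12_2_2 : BlkD.Tr :=
  .L 5 8 [4, 20, 20] [] [] 100000 0 0 1600000 100000 0 100000 50000 0 0 0

lemma s20_20_12_2_2 {n : ℕ} (hn : 5 ≤ n) : NoNd (d20_20_12_2.R : ℤ) d20_20_12_2.H n d20_20_12_2.a d20_20_12_2.b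
    (BlkD.inB (BlkD.upd (fun _ => 0) 0 4)
      (BlkD.upd (BlkD.upd (BlkD.upd (fun _ => 20) 0 12) 2 2) 0 6)) :=
  BlkD.tree_sound (BlkD.pairOk_sound k20_20_12_2) (by decide) hn t20_20_12_2_2 _ _ (by decide +kernel)

/-- certificates of the pair `(12, 2)`, part 3 -/
def t20_20_12_2_3 : BlkD.Tr :=
  .L 5 8 [4, 20, 20] [] [] 100000 0 0 1600000 100000 0 100000 50000 0 0 0

lemma s20_20_12_2_3 {n : ℕ} (hn : 5 ≤ n) : NoNd (d20_20_12_2.R : ℤ) d20_20_12_2.H n d20_20_12_2.a d20_20_12_2.b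
    (BlkD.inB (BlkD.upd (fun _ => 0) 0 7)
      (BlkD.upd (BlkD.upd (fun _ => 20) 0 12) 2 2)) :=
  BlkD.tree_sound (BlkD.pairOk_sound k20_20_12_2) (by decide) hn t20_20_12_2_3 _ _ (by decide +kernel)

/-- certificates of the pair `(12, 2)`, part 4 -/
def t20_20_12_2_4 : BlkD.Tr :=
  .E 1

lemma s20_20_12_2_4 {n : ℕ} (hn : 5 ≤ n) : NoNd (d20_20_12_2.R : ℤ) d20_20_12_2.H n d20_20_12_2.a d20_20_12_2.b
    (BlkD.inB (BlkD.upd (fun _ => 0) 2 3)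
      (BlkD.upd (fun _ => 20) 0 12)) :=
  BlkD.tree_sound (BlkD.pairOk_sound k20_20_12_2) (by decide) hn t20_20_12_2_4 _ _ (by decide +kernel)

/-- certificates of the pair `(12, 2)`, part 5 -/
def t20_20_12_2_5 : BlkD.Tr :=
  .E 0

lemma s20_20_12_2_5 {n : ℕ} (hn : 5 ≤ n) : NoNd (d20_20_12_2.R : ℤ) d20_20_12_2.H n d20_20_12_2.a d20_20_12_2.b
    (BlkD.inB (BlkD.upd (fun _ => 0) 0 13)
      (fun _ => 20)) :=
  BlkD.tree_sound (BlkD.pairOk_sound k20_20_12_2) (by decide) hn t20_20_12_2_5 _ _ (by decide +kernel)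

lemma pr20_20_12_2 {n : ℕ} (hn : 5 ≤ n) : NoPr ((20 : ℕ) : ℤ) ((20 : ℕ) : ℤ) n 12 2 :=
  BlkD.of_root (R := d20_20_12_2.R) (H := d20_20_12_2.H) (a := d20_20_12_2.a) (b := d20_20_12_2.b) (q := 3) (by decide) hn
    (BlkD.sp 0 12 (BlkD.sp 2 2 (BlkD.sp 0 6 (BlkD.sp 0 3 (s20_20_12_2_1 hn) (s20_20_12_2_2 hn))
      (s20_20_12_2_3 hn)) (s20_20_12_2_4 hn)) (s20_20_12_2_5 hn))

/-- the numbers of the pair `(13, 0)`, `R = 20`, `H = 20` -/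
def d20_20_13_0 : BlkD.Pd :=
  ⟨20, 20, 3, 13, 0, 4, 0, 1, 0, 4, 4, 0, 0, 4, 4, 0, [0, 4, 8, 12, 16], [0, 4, 8, 12, 16], [⟨1, 1,
    1, 4, 8, [0, 4], [0, 4]⟩]⟩

/-- the certificates of the pair `(13, 0)` -/
def t20_20_13_0 : BlkD.Tr :=
  .S 0 13 (.S 2 0 (.L 5 8 [4] [] [] 100000 0 0 1400000 100000 0 100000 0 0 0 0) (.E 1)) (.E 0)

lemma pr20_20_13_0 {n : ℕ} (hn : 5 ≤ n) : NoPr ((20 : ℕ) : ℤ) ((20 : ℕ) : ℤ) n 13 0 :=
  BlkD.pair_sound (d := d20_20_13_0) (by decide +kernel) hn (by decide) (tr := t20_20_13_0)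
    (by decide +kernel) rfl rfl rfl rfl

/-- the numbers of the pair `(13, 1)`, `R = 20`, `H = 20` -/
def d20_20_13_1 : BlkD.Pd :=
  ⟨20, 20, 3, 13, 1, 3, 0, 1, 0, 4, 4, 0, 0, 4, 4, 0, [0, 4, 8, 12], [0, 4, 8, 12], [⟨1, 1, 1, 4,
    8, [0, 4], [0, 4]⟩]⟩

/-- the certificates of the pair `(13, 1)` -/
def t20_20_13_1 : BlkD.Tr :=
  .S 0 13 (.S 2 1 (.L 5 8 [4, 20] [] [] 100000 0 0 1600000 100000 0 100000 0 0 0 0) (.E 1)) (.E 0)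

lemma pr20_20_13_1 {n : ℕ} (hn : 5 ≤ n) : NoPr ((20 : ℕ) : ℤ) ((20 : ℕ) : ℤ) n 13 1 :=
  BlkD.pair_sound (d := d20_20_13_1) (by decide +kernel) hn (by decide) (tr := t20_20_13_1)
    (by decide +kernel) rfl rfl rfl rfl

/-- the numbers of the pair `(14, 0)`, `R = 20`, `H = 20` -/
def d20_20_14_0 : BlkD.Pd :=
  ⟨20, 20, 3, 14, 0, 3, 0, 1, 0, 4, 4, 0, 0, 4, 4, 0, [0, 4, 8, 12], [0, 4, 8, 12], [⟨1, 1, 1, 4,
    8, [0, 4], [0, 4]⟩]⟩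

/-- the certificates of the pair `(14, 0)` -/
def t20_20_14_0 : BlkD.Tr :=
  .S 0 14 (.S 2 0 (.L 5 8 [4] [] [] 100000 0 0 1500000 100000 0 100000 0 0 0 0) (.E 1)) (.E 0)

lemma pr20_20_14_0 {n : ℕ} (hn : 5 ≤ n) : NoPr ((20 : ℕ) : ℤ) ((20 : ℕ) : ℤ) n 14 0 :=
  BlkD.pair_sound (d := d20_20_14_0) (by decide +kernel) hn (by decide) (tr := t20_20_14_0)
    (by decide +kernel) rfl rfl rfl rfl

end BlkC

end Pool.Agent.Lib.MP_f04ccf_co
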