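import Pool.Agent.Lib.MP_f04ccf_co.M.BlkT

/-!
MP_f04ccf_co, block certificate, data `R = 20`, `H = 20`, part 2 (generated, helper99:
bd10.cpp, gen2.py).
-/

set_option autoImplicit false
set_option maxRecDepth 100000

namespace Pool.Agent.Lib.MP_f04ccf_co

namespace BlkC

/-- the numbers of the pair `(5, 4)`, `R = 20`, `H = 20` -/
def d20_20_5_4 : BlkD.Pd :=
  ⟨20, 20, 3, 5, 4, 8, 4, 2, 0, 4, 10, 0, 2, 2, 10, 0, [0, 10, 20, 30, 32, 32, 32, 32, 32], [0, 10,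
    20, 22, 24, 26, 28, 30, 32], [⟨1, 1, 1, 4, 8, [0, 4], [0, 4]⟩, ⟨1, 1, 1, 6, 12, [0, 6], [0,
    6]⟩, ⟨1, 1, 1, 6, 16, [0, 8], [0, 8]⟩, ⟨1, 1, 1, 6, 18, [0, 10], [0, 8]⟩, ⟨2, 2, 1, 6, 28, [0,
    10, 18], [0, 10, 10]⟩]⟩

lemma k20_20_5_4 : BlkD.pairOk d20_20_5_4 = true := by decide +kernel

/-- certificates of the pair `(5, 4)`, part 1 -/
def t20_20_5_4_1 : BlkD.Tr :=
  .L 5 6 [4, 4, 4, 5, 6] [] [] 100000 62500 62500 600000 0 0 100000 50000 0 0 0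

lemma s20_20_5_4_1 {n : ℕ} (hn : 5 ≤ n) : NoNd (d20_20_5_4.R : ℤ) d20_20_5_4.H n d20_20_5_4.a d20_20_5_4.b
    (BlkD.inB (fun _ => 0)
      (BlkD.upd (BlkD.upd (BlkD.upd (BlkD.upd (BlkD.upd (fun _ => 20) 0 5) 2 4) 0 2) 0 1) 0 0)) :=
  BlkD.tree_sound (BlkD.pairOk_sound k20_20_5_4) (by decide) hn t20_20_5_4_1 _ _ (by decide +kernel)

/-- certificates of the pair `(5, 4)`, part 2 -/
def t20_20_5_4_2 : BlkD.Tr :=
  .L 5 6 [4, 4, 4, 5, 6] [] [] 100000 51953 51952 887500 56250 0 56250 43750 0 12500 35937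

lemma s20_20_5_4_2 {n : ℕ} (hn : 5 ≤ n) : NoNd (d20_20_5_4.R : ℤ) d20_20_5_4.H n d20_20_5_4.a d20_20_5_4.b
    (BlkD.inB (BlkD.upd (fun _ => 0) 0 1)
      (BlkD.upd (BlkD.upd (BlkD.upd (BlkD.upd (BlkD.upd (BlkD.upd (BlkD.upd (fun _ => 20) 0 5) 2 4) 0 2) 0 1) 1 19) 1 9) 1 4)) :=
  BlkD.tree_sound (BlkD.pairOk_sound k20_20_5_4) (by decide) hn t20_20_5_4_2 _ _ (by decide +kernel)

/-- certificates of the pair `(5, 4)`, part 3 -/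
def t20_20_5_4_3 : BlkD.Tr :=
  .S 1 6 (.S 1 5 (.L 5 6 [4, 4, 4, 5, 6] [78, 70, 60, 50, 40, 30] [] 100000 56945 56945 900003
    66667 0 66667 33333 0 5556 33333) (.S 2 2 (.S 2 1 (.S 2 0 (.L 5 6 [4, 4, 4, 5, 6] [92, 90, 82,
    72, 62, 52] [] 100000 61828 61827 704300 18280 0 59140 100000 0 0 7527) (.S 3 12 (.S 3 6 (.S 3
    3 (.L 5 6 [4, 4, 4, 5, 6] [92, 90, 82, 72, 62, 52] [] 100000 33334 33334 966668 33333 0 33333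
    33333 0 0 33333) (.L 5 6 [4, 4, 4, 5, 6] [92, 90, 82, 72, 62, 52] [] 100000 62500 62500 875000
    70000 0 85000 30000 0 10000 20000)) (.E 1)) (.E 1))) (.L 5 6 [4, 4, 4, 5, 6] [92, 90, 82, 72,
    62, 52] [] 100000 39626 39626 985716 42857 0 66667 28571 9524 12925 23810)) (.L 5 6 [4, 4, 4,
    5, 6] [92, 90, 82, 72, 62, 52] [] 100000 66667 66667 800000 100000 0 100000 0 0 66667 33333)))
    (.L 5 6 [4, 4, 4, 5, 6] [106, 106, 104, 96, 86, 76] [] 100000 50001 50001 944333 47423 0 76289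
    37113 2062 6186 21649)

lemma s20_20_5_4_3 {n : ℕ} (hn : 5 ≤ n) : NoNd (d20_20_5_4.R : ℤ) d20_20_5_4.H n d20_20_5_4.a d20_20_5_4.b
    (BlkD.inB (BlkD.upd (BlkD.upd (fun _ => 0) 0 1) 1 5)
      (BlkD.upd (BlkD.upd (BlkD.upd (BlkD.upd (BlkD.upd (BlkD.upd (BlkD.upd (fun _ => 20) 0 5) 2 4) 0 2) 0 1) 1 19) 1 9) 1 7)) :=
  BlkD.tree_sound (BlkD.pairOk_sound k20_20_5_4) (by decide) hn t20_20_5_4_3 _ _ (by decide +kernel)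

/-- certificates of the pair `(5, 4)`, part 4 -/
def t20_20_5_4_4 : BlkD.Tr :=
  .L 5 6 [4, 4, 4, 5, 6] [] [] 100000 47708 47707 925002 25000 0 100000 25000 0 4167 20000

lemma s20_20_5_4_4 {n : ℕ} (hn : 5 ≤ n) : NoNd (d20_20_5_4.R : ℤ) d20_20_5_4.H n d20_20_5_4.a d20_20_5_4.b
    (BlkD.inB (BlkD.upd (BlkD.upd (BlkD.upd (fun _ => 0) 0 1) 1 5) 1 8)
      (BlkD.upd (BlkD.upd (BlkD.upd (BlkD.upd (BlkD.upd (BlkD.upd (fun _ => 20) 0 5) 2 4) 0 2) 0 1) 1 19) 1 9)) :=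
  BlkD.tree_sound (BlkD.pairOk_sound k20_20_5_4) (by decide) hn t20_20_5_4_4 _ _ (by decide +kernel)

/-- certificates of the pair `(5, 4)`, part 5 -/
def t20_20_5_4_5 : BlkD.Tr :=
  .E 0

lemma s20_20_5_4_5 {n : ℕ} (hn : 5 ≤ n) : NoNd (d20_20_5_4.R : ℤ) d20_20_5_4.H n d20_20_5_4.a d20_20_5_4.b
    (BlkD.inB (BlkD.upd (BlkD.upd (fun _ => 0) 0 1) 1 10)
      (BlkD.upd (BlkD.upd (BlkD.upd (BlkD.upd (BlkD.upd (fun _ => 20) 0 5) 2 4) 0 2) 0 1) 1 19)) :=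
  BlkD.tree_sound (BlkD.pairOk_sound k20_20_5_4) (by decide) hn t20_20_5_4_5 _ _ (by decide +kernel)

/-- certificates of the pair `(5, 4)`, part 6 -/
def t20_20_5_4_6 : BlkD.Tr :=
  .E 0

lemma s20_20_5_4_6 {n : ℕ} (hn : 5 ≤ n) : NoNd (d20_20_5_4.R : ℤ) d20_20_5_4.H n d20_20_5_4.a d20_20_5_4.b
    (BlkD.inB (BlkD.upd (BlkD.upd (fun _ => 0) 0 1) 1 20)
      (BlkD.upd (BlkD.upd (BlkD.upd (BlkD.upd (fun _ => 20) 0 5) 2 4) 0 2) 0 1)) :=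
  BlkD.tree_sound (BlkD.pairOk_sound k20_20_5_4) (by decide) hn t20_20_5_4_6 _ _ (by decide +kernel)

/-- certificates of the pair `(5, 4)`, part 7 -/
def t20_20_5_4_7 : BlkD.Tr :=
  .L 5 6 [4, 4, 4, 5, 6] [] [] 100000 25000 25000 1000000 0 0 0 50000 0 0 50000

lemma s20_20_5_4_7 {n : ℕ} (hn : 5 ≤ n) : NoNd (d20_20_5_4.R : ℤ) d20_20_5_4.H n d20_20_5_4.a d20_20_5_4.b
    (BlkD.inB (BlkD.upd (fun _ => 0) 0 2)
      (BlkD.upd (BlkD.upd (BlkD.upd (BlkD.upd (BlkD.upd (BlkD.upd (BlkD.upd (fun _ => 20) 0 5) 2 4) 0 2) 1 18) 1 9) 1 4) 1 2)) :=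
  BlkD.tree_sound (BlkD.pairOk_sound k20_20_5_4) (by decide) hn t20_20_5_4_7 _ _ (by decide +kernel)

/-- certificates of the pair `(5, 4)`, part 8 -/
def t20_20_5_4_8 : BlkD.Tr :=
  .S 2 2 (.S 2 1 (.S 2 0 (.L 5 6 [4, 4, 4, 5, 6] [48, 38, 28, 18, 0, 0] [] 100000 50000 50000
    700000 0 0 0 100000 0 0 0) (.S 3 14 (.S 3 7 (.S 3 3 (.L 5 6 [4, 4, 4, 5, 6] [48, 38, 28, 18, 0,
    0] [] 100000 31250 31250 900000 0 0 0 0 0 0 37500) (.S 3 5 (.L 5 6 [4, 4, 4, 5, 6] [48, 38, 28,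
    18, 0, 0] [] 100000 25920 25920 1045099 11765 9804 53799 30392 6005 17647 33333) (.S 3 6 (.S 4
    3 (.S 4 1 (.S 4 0 (.L 5 6 [4, 4, 4, 5, 6] [18, 0, 0, 0, 0, 0] [84, 82, 80, 72, 62, 52] 100000
    25000 24999 966667 33333 0 0 66667 66667 0 33333) (.L 5 6 [4, 4, 4, 5, 6] [28, 18, 0, 0, 0, 0]
    [84, 82, 80, 72, 62, 52] 100000 25000 24999 1033333 0 0 66667 50000 0 33333 33333)) (.L 5 6 [4,
    4, 4, 5, 6] [48, 38, 28, 18, 0, 0] [84, 82, 80, 72, 62, 52] 100000 33334 33334 933332 0 0 66667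
    66667 0 0 33333)) (.E 2)) (.E 1)))) (.E 1)) (.E 1))) (.L 5 6 [4, 4, 4, 5, 6] [48, 38, 28, 18,
    0, 0] [] 100000 22917 22917 1066668 11111 0 69444 33333 8333 25000 33333)) (.L 5 6 [4, 4, 4, 5,
    6] [48, 38, 28, 18, 0, 0] [] 100000 23296 23296 1035228 22727 0 70455 19318 6818 61364 38636)

lemma s20_20_5_4_8 {n : ℕ} (hn : 5 ≤ n) : NoNd (d20_20_5_4.R : ℤ) d20_20_5_4.H n d20_20_5_4.a d20_20_5_4.b
    (BlkD.inB (BlkD.upd (BlkD.upd (fun _ => 0) 0 2) 1 3)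
      (BlkD.upd (BlkD.upd (BlkD.upd (BlkD.upd (BlkD.upd (BlkD.upd (BlkD.upd (fun _ => 20) 0 5) 2 4) 0 2) 1 18) 1 9) 1 4) 1 3)) :=
  BlkD.tree_sound (BlkD.pairOk_sound k20_20_5_4) (by decide) hn t20_20_5_4_8 _ _ (by decide +kernel)

/-- certificates of the pair `(5, 4)`, part 9 -/
def t20_20_5_4_9 : BlkD.Tr :=
  .S 2 1 (.S 2 0 (.L 5 6 [4, 4, 4, 5, 6] [68, 58, 48, 38, 28, 0] [] 100000 62500 62500 700000 0 0
    50000 100000 0 0 0) (.S 3 13 (.S 3 6 (.S 3 3 (.L 5 6 [4, 4, 4, 5, 6] [68, 58, 48, 38, 28, 0] []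
    100000 25209 25209 991666 2500 6667 41667 11667 5000 833 44167) (.S 3 5 (.S 3 4 (.L 5 6 [4, 4,
    4, 5, 6] [68, 58, 48, 38, 28, 0] [58, 50, 40, 30, 20, 0] 100000 28667 28667 1046669 5333 21333
    38667 32000 4000 10667 33333) (.S 4 4 (.S 4 2 (.S 4 1 (.L 5 6 [4, 4, 4, 5, 6] [38, 28, 0, 0, 0,
    0] [70, 68, 60, 50, 40, 30] 100000 12500 12500 1087500 12500 25000 12500 37500 50000 50000
    25000) (.L 5 6 [4, 4, 4, 5, 6] [48, 38, 28, 0, 0, 0] [70, 68, 60, 50, 40, 30] 100000 25000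
    24999 1021212 7576 0 81818 27273 0 39394 33333)) (.L 5 6 [4, 4, 4, 5, 6] [68, 58, 48, 38, 28,
    0] [70, 68, 60, 50, 40, 30] 100000 40000 32000 876000 0 0 108000 36000 0 4000 20000)) (.E 2)))
    (.L 5 6 [4, 4, 4, 5, 6] [68, 58, 48, 38, 28, 0] [84, 82, 80, 72, 62, 52] 100000 25000 24999
    1066668 8333 0 75000 33333 0 33333 33333))) (.E 1)) (.E 1))) (.S 3 12 (.S 3 6 (.S 3 3 (.L 5 6
    [4, 4, 4, 5, 6] [68, 58, 48, 38, 28, 0] [] 100000 23355 23354 1071931 12719 1316 48684 24123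
    6579 21491 35965) (.S 3 5 (.S 3 4 (.S 4 4 (.S 4 2 (.S 4 1 (.L 5 6 [4, 4, 4, 5, 6] [38, 28, 0,
    0, 0, 0] [66, 58, 48, 38, 28, 0] 100000 10715 10714 1085713 14286 0 14286 57143 57143 57143
    28571) (.L 5 6 [4, 4, 4, 5, 6] [48, 38, 28, 0, 0, 0] [66, 58, 48, 38, 28, 0] 100000 25000 25000
    1010000 0 0 95000 20000 0 40000 30000)) (.L 5 6 [4, 4, 4, 5, 6] [68, 58, 48, 38, 28, 0] [66,
    58, 48, 38, 28, 0] 100000 40000 0 780000 0 0 140000 4000 0 8000 24000)) (.E 2)) (.L 5 6 [4, 4,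
    4, 5, 6] [68, 58, 48, 38, 28, 0] [80, 78, 70, 60, 50, 40] 100000 50000 49999 866666 0 0 66667
    100000 0 0 33333)) (.E 1))) (.E 1)) (.E 1))

lemma s20_20_5_4_9 {n : ℕ} (hn : 5 ≤ n) : NoNd (d20_20_5_4.R : ℤ) d20_20_5_4.H n d20_20_5_4.a d20_20_5_4.b
    (BlkD.inB (BlkD.upd (BlkD.upd (BlkD.upd (fun _ => 0) 0 2) 1 3) 1 4)
      (BlkD.upd (BlkD.upd (BlkD.upd (BlkD.upd (BlkD.upd (BlkD.upd (BlkD.upd (fun _ => 20) 0 5) 2 4) 0 2) 1 18) 1 9) 1 4) 2 2)) :=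
  BlkD.tree_sound (BlkD.pairOk_sound k20_20_5_4) (by decide) hn t20_20_5_4_9 _ _ (by decide +kernel)

/-- certificates of the pair `(5, 4)`, part 10 -/
def t20_20_5_4_10 : BlkD.Tr :=
  .S 2 3 (.S 3 11 (.S 3 5 (.S 3 2 (.L 5 6 [4, 4, 4, 5, 6] [68, 58, 48, 38, 28, 0] [] 100000 23462
    23462 1066155 16923 0 49231 27692 6154 27692 33333) (.S 3 4 (.S 3 3 (.S 4 4 (.S 4 2 (.S 4 1 (.L
    5 6 [4, 4, 4, 5, 6] [38, 28, 0, 0, 0, 0] [54, 44, 34, 24, 0, 0] 100000 10715 10714 1085713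
    14286 0 14286 57143 57143 57143 28571) (.L 5 6 [4, 4, 4, 5, 6] [48, 38, 28, 0, 0, 0] [54, 44,
    34, 24, 0, 0] 100000 25000 25000 983334 8333 0 100000 8333 0 58333 33333)) (.L 5 6 [4, 4, 4, 5,
    6] [68, 58, 48, 38, 28, 0] [54, 44, 34, 24, 0, 0] 100000 40000 0 780000 0 0 140000 0 0 5000
    25000)) (.E 2)) (.E 1)) (.E 1))) (.E 1)) (.E 1)) (.L 5 6 [4, 4, 4, 5, 6] [68, 58, 48, 38, 28,
    0] [] 100000 20833 20832 1037503 20833 0 70833 16667 16667 50000 33333)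

lemma s20_20_5_4_10 {n : ℕ} (hn : 5 ≤ n) : NoNd (d20_20_5_4.R : ℤ) d20_20_5_4.H n d20_20_5_4.a d20_20_5_4.b
    (BlkD.inB (BlkD.upd (BlkD.upd (BlkD.upd (BlkD.upd (fun _ => 0) 0 2) 1 3) 1 4) 2 3)
      (BlkD.upd (BlkD.upd (BlkD.upd (BlkD.upd (BlkD.upd (BlkD.upd (fun _ => 20) 0 5) 2 4) 0 2) 1 18) 1 9) 1 4)) :=
  BlkD.tree_sound (BlkD.pairOk_sound k20_20_5_4) (by decide) hn t20_20_5_4_10 _ _ (by decide +kernel)

/-- certificates of the pair `(5, 4)`, part 11 -/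
def t20_20_5_4_11 : BlkD.Tr :=
  .S 2 0 (.L 5 6 [4, 4, 4, 5, 6] [88, 80, 70, 60, 50, 40] [] 100000 52083 52082 766668 0 0 33333
    100000 0 0 6250) (.S 3 12 (.S 3 6 (.S 3 3 (.L 5 6 [4, 4, 4, 5, 6] [88, 80, 70, 60, 50, 40] []
    100000 26389 26389 1055556 11111 11111 52778 11111 13889 0 33333) (.S 3 5 (.S 3 4 (.S 4 5 (.S 4
    2 (.L 5 6 [4, 4, 4, 5, 6] [60, 50, 40, 0, 0, 0] [58, 50, 40, 30, 20, 0] 100000 17689 17689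
    1090566 18868 8491 37736 36792 29245 29245 33019) (.L 5 6 [4, 4, 4, 5, 6] [88, 80, 70, 60, 50,
    40] [58, 50, 40, 30, 20, 0] 100000 20891 20891 1035616 0 0 82192 24658 16438 35616 30137)) (.E
    2)) (.S 4 5 (.S 4 2 (.L 5 5 [4, 4, 5, 5, 6] [60, 50, 40, 0, 0, 0] [70, 68, 60, 50, 40, 30]
    100000 17949 17949 1105130 10256 30769 23077 38462 43590 28205 33333) (.L 5 5 [4, 4, 5, 5, 6]
    [88, 80, 70, 60, 50, 40] [70, 68, 60, 50, 40, 30] 100000 20930 20929 1055815 0 0 81395 27132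
    16279 39535 33333)) (.E 2))) (.L 5 5 [4, 4, 5, 5, 6] [88, 80, 70, 60, 50, 40] [84, 82, 80, 72,
    62, 52] 100000 33334 1 833334 0 0 133333 16667 0 50000 33333))) (.E 1)) (.E 1))

lemma s20_20_5_4_11 {n : ℕ} (hn : 5 ≤ n) : NoNd (d20_20_5_4.R : ℤ) d20_20_5_4.H n d20_20_5_4.a d20_20_5_4.b
    (BlkD.inB (BlkD.upd (BlkD.upd (fun _ => 0) 0 2) 1 5)
      (BlkD.upd (BlkD.upd (BlkD.upd (BlkD.upd (BlkD.upd (BlkD.upd (BlkD.upd (BlkD.upd (BlkD.upd (BlkD.upd (fun _ => 20) 0 5) 2 4) 0 2) 1 18) 1 9) 1 7) 1 6) 1 5) 2 2) 2 1)) :=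
  BlkD.tree_sound (BlkD.pairOk_sound k20_20_5_4) (by decide) hn t20_20_5_4_11 _ _ (by decide +kernel)

/-- certificates of the pair `(5, 4)`, part 12 -/
def t20_20_5_4_12 : BlkD.Tr :=
  .S 3 11 (.S 3 5 (.S 3 2 (.L 5 5 [4, 4, 5, 5, 6] [88, 80, 70, 60, 50, 40] [] 100000 21429 21429
    1070001 12857 2857 52857 18571 15714 14286 34286) (.S 3 4 (.S 3 3 (.S 4 5 (.S 4 2 (.L 5 5 [4,
    4, 5, 5, 6] [60, 50, 40, 0, 0, 0] [48, 38, 28, 18, 0, 0] 100000 17088 17088 1092763 22391 5892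
    38215 36195 31650 31987 31145) (.L 5 5 [4, 4, 5, 5, 6] [88, 80, 70, 60, 50, 40] [48, 38, 28,
    18, 0, 0] 100000 20652 20651 1026087 0 0 86957 17391 17391 34783 26087)) (.E 2)) (.S 4 5 (.S 4
    2 (.S 4 1 (.L 5 5 [4, 4, 5, 5, 6] [50, 40, 0, 0, 0, 0] [66, 58, 48, 38, 28, 0] 100000 16667
    16667 1066669 33333 0 33333 33333 33333 33333 33333) (.L 5 5 [4, 4, 5, 5, 6] [60, 50, 40, 0, 0,
    0] [66, 58, 48, 38, 28, 0] 100000 22222 22221 1083334 5556 0 94444 11111 11111 55556 33333))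
    (.L 5 5 [4, 4, 5, 5, 6] [88, 80, 70, 60, 50, 40] [66, 58, 48, 38, 28, 0] 100000 25000 24999
    980952 4762 0 100000 9524 0 57143 33333)) (.E 2))) (.L 5 5 [4, 4, 5, 5, 6] [88, 80, 70, 60, 50,
    40] [80, 78, 70, 60, 50, 40] 100000 135294 0 1 0 0 235294 152941 0 0 0))) (.E 1)) (.E 1)

lemma s20_20_5_4_12 {n : ℕ} (hn : 5 ≤ n) : NoNd (d20_20_5_4.R : ℤ) d20_20_5_4.H n d20_20_5_4.a d20_20_5_4.b
    (BlkD.inB (BlkD.upd (BlkD.upd (BlkD.upd (fun _ => 0) 0 2) 1 5) 2 2)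
      (BlkD.upd (BlkD.upd (BlkD.upd (BlkD.upd (BlkD.upd (BlkD.upd (BlkD.upd (BlkD.upd (BlkD.upd (fun _ => 20) 0 5) 2 4) 0 2) 1 18) 1 9) 1 7) 1 6) 1 5) 2 2)) :=
  BlkD.tree_sound (BlkD.pairOk_sound k20_20_5_4) (by decide) hn t20_20_5_4_12 _ _ (by decide +kernel)

/-- certificates of the pair `(5, 4)`, part 13 -/
def t20_20_5_4_13 : BlkD.Tr :=
  .S 2 3 (.S 3 10 (.S 3 5 (.S 3 2 (.S 3 1 (.L 5 5 [4, 4, 5, 5, 6] [88, 80, 70, 60, 50, 40] []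
    100000 20239 20239 1071430 9524 20635 50794 41270 19048 20635 30159) (.L 4 5 [4, 4, 5, 6, 7]
    [88, 80, 70, 60, 50, 40] [34, 24, 14, 0, 0, 0] 100000 23438 23438 1075000 25000 0 51042 25000
    15625 41667 33333)) (.S 3 4 (.S 3 3 (.S 4 5 (.S 4 2 (.L 5 6 [4, 4, 4, 5, 6] [60, 50, 40, 0, 0,
    0] [54, 44, 34, 24, 0, 0] 100000 17858 17858 1100003 28571 0 42857 28571 28571 42857 28571) (.L
    5 6 [4, 4, 4, 5, 6] [88, 80, 70, 60, 50, 40] [54, 44, 34, 24, 0, 0] 100000 25001 25001 979999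
    6667 0 100000 6667 0 60000 33333)) (.E 2)) (.E 1)) (.E 1))) (.E 1)) (.E 1)) (.L 6 6 [4, 4, 4,
    5, 5] [88, 80, 70, 60, 50, 40] [] 100000 20413 20413 1065139 30275 0 42202 13761 18349 65138
    39450)

lemma s20_20_5_4_13 {n : ℕ} (hn : 5 ≤ n) : NoNd (d20_20_5_4.R : ℤ) d20_20_5_4.H n d20_20_5_4.a d20_20_5_4.b
    (BlkD.inB (BlkD.upd (BlkD.upd (BlkD.upd (fun _ => 0) 0 2) 1 5) 2 3)
      (BlkD.upd (BlkD.upd (BlkD.upd (BlkD.upd (BlkD.upd (BlkD.upd (BlkD.upd (BlkD.upd (fun _ => 20) 0 5) 2 4) 0 2) 1 18) 1 9) 1 7) 1 6) 1 5)) :=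
  BlkD.tree_sound (BlkD.pairOk_sound k20_20_5_4) (by decide) hn t20_20_5_4_13 _ _ (by decide +kernel)

/-- certificates of the pair `(5, 4)`, part 14 -/
def t20_20_5_4_14 : BlkD.Tr :=
  .S 2 2 (.S 2 1 (.S 2 0 (.L 6 6 [4, 4, 4, 5, 5] [104, 102, 94, 84, 74, 64] [] 100000 52083 52082
    766668 0 0 33333 100000 0 0 6250) (.S 3 11 (.S 3 5 (.S 3 2 (.L 6 6 [4, 4, 4, 5, 5] [104, 102,
    94, 84, 74, 64] [] 100000 25000 24999 981081 0 35135 48649 35135 18919 0 32432) (.S 3 4 (.S 3 3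
    (.L 6 6 [4, 4, 4, 5, 5] [104, 102, 94, 84, 74, 64] [42, 32, 22, 12, 0, 0] 100000 24479 24478
    1075000 12500 12500 50000 25000 25000 2083 25000) (.L 6 6 [4, 4, 4, 5, 5] [104, 102, 94, 84,
    74, 64] [58, 50, 40, 30, 20, 0] 100000 15094 15093 1120380 10566 0 63396 21132 39623 39623
    29811)) (.L 6 6 [4, 4, 4, 5, 5] [104, 102, 94, 84, 74, 64] [70, 68, 60, 50, 40, 30] 100000
    25000 25000 1066668 0 8333 100000 8333 0 58333 33333))) (.E 2)) (.E 1))) (.S 3 10 (.S 3 5 (.S 3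
    2 (.L 6 6 [4, 4, 4, 5, 5] [104, 102, 94, 84, 74, 64] [] 100000 22199 22199 1072034 10640 10923
    48023 47740 27966 11205 24011) (.L 6 6 [4, 4, 4, 5, 5] [104, 102, 94, 84, 74, 64] [] 100000
    19737 19737 1094737 5263 0 89474 10526 21053 52632 31579)) (.E 1)) (.E 1))) (.L 6 6 [4, 4, 4,
    5, 5] [104, 102, 94, 84, 74, 64] [] 100000 21000 21000 1088000 4000 0 92000 12000 16000 52000
    32000)

lemma s20_20_5_4_14 {n : ℕ} (hn : 5 ≤ n) : NoNd (d20_20_5_4.R : ℤ) d20_20_5_4.H n d20_20_5_4.a d20_20_5_4.b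
    (BlkD.inB (BlkD.upd (BlkD.upd (BlkD.upd (fun _ => 0) 0 2) 1 5) 1 6)
      (BlkD.upd (BlkD.upd (BlkD.upd (BlkD.upd (BlkD.upd (BlkD.upd (BlkD.upd (fun _ => 20) 0 5) 2 4) 0 2) 1 18) 1 9) 1 7) 1 6)) :=
  BlkD.tree_sound (BlkD.pairOk_sound k20_20_5_4) (by decide) hn t20_20_5_4_14 _ _ (by decide +kernel)

/-- certificates of the pair `(5, 4)`, part 15 -/
def t20_20_5_4_15 : BlkD.Tr :=
  .L 6 6 [4, 4, 4, 5, 5] [120, 120, 118, 110, 100, 90] [] 100000 51191 1 690478 4762 0 151190 25000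
    0 0 19048

lemma s20_20_5_4_15 {n : ℕ} (hn : 5 ≤ n) : NoNd (d20_20_5_4.R : ℤ) d20_20_5_4.H n d20_20_5_4.a d20_20_5_4.b
    (BlkD.inB (BlkD.upd (BlkD.upd (BlkD.upd (fun _ => 0) 0 2) 1 5) 1 7)
      (BlkD.upd (BlkD.upd (BlkD.upd (BlkD.upd (BlkD.upd (BlkD.upd (fun _ => 20) 0 5) 2 4) 0 2) 1 18) 1 9) 1 7)) :=
  BlkD.tree_sound (BlkD.pairOk_sound k20_20_5_4) (by decide) hn t20_20_5_4_15 _ _ (by decide +kernel)

/-- certificates of the pair `(5, 4)`, part 16 -/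
def t20_20_5_4_16 : BlkD.Tr :=
  .E 0

lemma s20_20_5_4_16 {n : ℕ} (hn : 5 ≤ n) : NoNd (d20_20_5_4.R : ℤ) d20_20_5_4.H n d20_20_5_4.a d20_20_5_4.b
    (BlkD.inB (BlkD.upd (BlkD.upd (BlkD.upd (fun _ => 0) 0 2) 1 5) 1 8)
      (BlkD.upd (BlkD.upd (BlkD.upd (BlkD.upd (BlkD.upd (fun _ => 20) 0 5) 2 4) 0 2) 1 18) 1 9)) :=
  BlkD.tree_sound (BlkD.pairOk_sound k20_20_5_4) (by decide) hn t20_20_5_4_16 _ _ (by decide +kernel)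

/-- certificates of the pair `(5, 4)`, part 17 -/
def t20_20_5_4_17 : BlkD.Tr :=
  .E 0

lemma s20_20_5_4_17 {n : ℕ} (hn : 5 ≤ n) : NoNd (d20_20_5_4.R : ℤ) d20_20_5_4.H n d20_20_5_4.a d20_20_5_4.b
    (BlkD.inB (BlkD.upd (BlkD.upd (fun _ => 0) 0 2) 1 10)
      (BlkD.upd (BlkD.upd (BlkD.upd (BlkD.upd (fun _ => 20) 0 5) 2 4) 0 2) 1 18)) :=
  BlkD.tree_sound (BlkD.pairOk_sound k20_20_5_4) (by decide) hn t20_20_5_4_17 _ _ (by decide +kernel)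

/-- certificates of the pair `(5, 4)`, part 18 -/
def t20_20_5_4_18 : BlkD.Tr :=
  .E 0

lemma s20_20_5_4_18 {n : ℕ} (hn : 5 ≤ n) : NoNd (d20_20_5_4.R : ℤ) d20_20_5_4.H n d20_20_5_4.a d20_20_5_4.b
    (BlkD.inB (BlkD.upd (BlkD.upd (fun _ => 0) 0 2) 1 19)
      (BlkD.upd (BlkD.upd (BlkD.upd (fun _ => 20) 0 5) 2 4) 0 2)) :=
  BlkD.tree_sound (BlkD.pairOk_sound k20_20_5_4) (by decide) hn t20_20_5_4_18 _ _ (by decide +kernel)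

/-- certificates of the pair `(5, 4)`, part 19 -/
def t20_20_5_4_19 : BlkD.Tr :=
  .S 1 1 (.L 6 6 [4, 4, 4, 5, 5] [] [] 100000 25000 25000 1000000 0 0 0 50000 0 0 50000) (.S 2 2
    (.S 2 1 (.S 2 0 (.L 6 6 [4, 4, 4, 5, 5] [34, 24, 14, 0, 0, 0] [] 100000 50000 50000 700000 0 0
    0 100000 0 0 0) (.S 3 14 (.S 3 7 (.S 3 3 (.L 6 6 [4, 4, 4, 5, 5] [34, 24, 14, 0, 0, 0] []
    100000 31250 31250 900000 0 0 0 0 0 0 37500) (.S 3 5 (.L 6 6 [4, 4, 4, 5, 5] [34, 24, 14, 0, 0,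
    0] [] 100000 25316 25315 1050506 8586 16162 53662 32323 6439 19192 33333) (.S 3 6 (.S 4 2 (.S 4
    1 (.S 4 0 (.L 6 6 [4, 4, 4, 5, 5] [14, 0, 0, 0, 0, 0] [84, 82, 80, 72, 62, 52] 100000 25001
    25001 966666 16667 0 0 100000 66667 0 33333) (.L 6 6 [4, 4, 4, 5, 5] [24, 14, 0, 0, 0, 0] [84,
    82, 80, 72, 62, 52] 100000 25000 24999 1033333 0 0 66667 50000 0 33333 33333)) (.L 6 6 [4, 4,
    4, 5, 5] [34, 24, 14, 0, 0, 0] [84, 82, 80, 72, 62, 52] 100000 33334 33334 933332 0 0 66667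
    66667 0 0 33333)) (.E 2)) (.E 1)))) (.E 1)) (.E 1))) (.L 6 6 [4, 4, 4, 5, 5] [34, 24, 14, 0, 0,
    0] [] 100000 22917 22916 1066667 16667 0 75000 33333 8333 25000 33333)) (.L 6 6 [4, 4, 4, 5, 5]
    [34, 24, 14, 0, 0, 0] [] 100000 22917 22917 1050000 25000 0 83333 29167 8333 41667 33333))

lemma s20_20_5_4_19 {n : ℕ} (hn : 5 ≤ n) : NoNd (d20_20_5_4.R : ℤ) d20_20_5_4.H n d20_20_5_4.a d20_20_5_4.b
    (BlkD.inB (BlkD.upd (fun _ => 0) 0 3)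
      (BlkD.upd (BlkD.upd (BlkD.upd (BlkD.upd (BlkD.upd (BlkD.upd (BlkD.upd (BlkD.upd (fun _ => 20) 0 5) 2 4) 0 4) 0 3) 1 17) 1 8) 1 4) 1 2)) :=
  BlkD.tree_sound (BlkD.pairOk_sound k20_20_5_4) (by decide) hn t20_20_5_4_19 _ _ (by decide +kernel)

/-- certificates of the pair `(5, 4)`, part 20 -/
def t20_20_5_4_20 : BlkD.Tr :=
  .S 2 1 (.S 2 0 (.L 6 6 [4, 4, 4, 5, 5] [54, 44, 34, 24, 0, 0] [] 100000 62500 62500 700000 0 0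
    50000 100000 0 0 0) (.S 3 13 (.S 3 6 (.S 3 3 (.L 6 6 [4, 4, 4, 5, 5] [54, 44, 34, 24, 0, 0] []
    100000 25000 25000 988892 0 11111 38889 11111 5556 0 44444) (.S 3 5 (.S 3 4 (.L 6 6 [4, 4, 4,
    5, 5] [54, 44, 34, 24, 0, 0] [58, 50, 40, 30, 20, 0] 100000 21804 21804 1061650 913 18265 53196
    27397 14384 17352 33333) (.S 4 3 (.S 4 1 (.L 6 6 [4, 4, 4, 5, 5] [34, 24, 0, 0, 0, 0] [70, 68,
    60, 50, 40, 30] 100000 10527 10527 1099999 13158 26316 13158 39474 57895 57895 28947) (.L 6 6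
    [4, 4, 4, 5, 5] [54, 44, 34, 24, 0, 0] [70, 68, 60, 50, 40, 30] 100000 25001 25001 1021212
    15152 0 81818 27273 0 39394 33333)) (.E 2))) (.L 6 6 [4, 4, 4, 5, 5] [54, 44, 34, 24, 0, 0]
    [84, 82, 80, 72, 62, 52] 100000 20455 20455 1084849 0 0 90909 16667 18182 50000 33333))) (.E
    1)) (.E 1))) (.S 3 12 (.S 3 6 (.S 3 3 (.L 6 6 [4, 4, 4, 5, 5] [54, 44, 34, 24, 0, 0] [] 100000
    21111 21111 1079262 5926 10370 57037 28148 15556 17778 33333) (.S 3 5 (.S 3 4 (.S 4 3 (.S 4 1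
    (.L 6 6 [4, 4, 4, 5, 5] [34, 24, 0, 0, 0, 0] [66, 58, 48, 38, 28, 0] 100000 8334 8334 1100000
    11111 0 11111 66667 66667 66667 33333) (.L 6 6 [4, 4, 4, 5, 5] [54, 44, 34, 24, 0, 0] [66, 58,
    48, 38, 28, 0] 100000 20652 20651 1026087 0 0 86957 17391 17391 34783 26087)) (.E 2)) (.L 6 6
    [4, 4, 4, 5, 5] [54, 44, 34, 24, 0, 0] [80, 78, 70, 60, 50, 40] 100000 44445 44445 888888 0 0
    55556 100000 11111 0 33333)) (.E 1))) (.E 1)) (.E 1))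

lemma s20_20_5_4_20 {n : ℕ} (hn : 5 ≤ n) : NoNd (d20_20_5_4.R : ℤ) d20_20_5_4.H n d20_20_5_4.a d20_20_5_4.b
    (BlkD.inB (BlkD.upd (BlkD.upd (fun _ => 0) 0 3) 1 3)
      (BlkD.upd (BlkD.upd (BlkD.upd (BlkD.upd (BlkD.upd (BlkD.upd (BlkD.upd (BlkD.upd (BlkD.upd (fun _ => 20) 0 5) 2 4) 0 4) 0 3) 1 17) 1 8) 1 4) 1 3) 2 2)) :=
  BlkD.tree_sound (BlkD.pairOk_sound k20_20_5_4) (by decide) hn t20_20_5_4_20 _ _ (by decide +kernel)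

/-- certificates of the pair `(5, 4)`, part 21 -/
def t20_20_5_4_21 : BlkD.Tr :=
  .S 2 3 (.S 3 11 (.S 3 5 (.S 3 2 (.L 6 6 [4, 4, 4, 5, 5] [54, 44, 34, 24, 0, 0] [] 100000 19313
    19313 1082465 8768 11374 53555 46919 22749 29384 32464) (.S 3 4 (.S 3 3 (.S 4 3 (.S 4 1 (.L 6 6
    [4, 4, 4, 5, 5] [34, 24, 0, 0, 0, 0] [54, 44, 34, 24, 0, 0] 100000 8334 8334 1100000 11111 0
    11111 66667 66667 66667 33333) (.L 6 6 [4, 4, 4, 5, 5] [54, 44, 34, 24, 0, 0] [54, 44, 34, 24,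
    0, 0] 100000 22222 22221 1000001 11111 0 94444 11111 11111 55556 33333)) (.E 2)) (.E 1)) (.E
    1))) (.E 1)) (.E 1)) (.L 6 6 [4, 4, 4, 5, 5] [54, 44, 34, 24, 0, 0] [] 100000 17292 17292
    1049166 32500 0 68333 16667 30833 64167 33333)

lemma s20_20_5_4_21 {n : ℕ} (hn : 5 ≤ n) : NoNd (d20_20_5_4.R : ℤ) d20_20_5_4.H n d20_20_5_4.a d20_20_5_4.b
    (BlkD.inB (BlkD.upd (BlkD.upd (BlkD.upd (fun _ => 0) 0 3) 1 3) 2 3)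
      (BlkD.upd (BlkD.upd (BlkD.upd (BlkD.upd (BlkD.upd (BlkD.upd (BlkD.upd (BlkD.upd (fun _ => 20) 0 5) 2 4) 0 4) 0 3) 1 17) 1 8) 1 4) 1 3)) :=
  BlkD.tree_sound (BlkD.pairOk_sound k20_20_5_4) (by decide) hn t20_20_5_4_21 _ _ (by decide +kernel)

/-- certificates of the pair `(5, 4)`, part 22 -/
def t20_20_5_4_22 : BlkD.Tr :=
  .S 2 1 (.S 2 0 (.L 6 6 [4, 4, 4, 5, 5] [76, 66, 56, 46, 36, 0] [] 100000 62500 62500 700000 0 0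
    50000 100000 0 0 0) (.S 3 12 (.S 3 6 (.S 3 3 (.L 6 6 [4, 4, 4, 5, 5] [76, 66, 56, 46, 36, 0] []
    100000 24550 24550 1053155 10811 12613 50000 23423 20270 1802 29730) (.S 3 5 (.S 3 4 (.L 6 6
    [4, 4, 4, 5, 5] [76, 66, 56, 46, 36, 0] [58, 50, 40, 30, 20, 0] 100000 20904 20904 1094351 0
    23729 50282 34463 16384 32203 33333) (.S 4 4 (.S 4 2 (.L 6 6 [4, 4, 4, 5, 5] [56, 46, 36, 0, 0,
    0] [70, 68, 60, 50, 40, 30] 100000 8334 8334 1133334 0 33333 16667 33333 66667 66667 33333) (.L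
    6 6 [4, 4, 4, 5, 5] [76, 66, 56, 46, 36, 0] [70, 68, 60, 50, 40, 30] 100000 20930 20929 1055815
    0 0 81395 27132 16279 39535 33333)) (.E 2))) (.E 2))) (.E 1)) (.E 1))) (.S 3 11 (.S 3 5 (.S 3 2
    (.L 6 6 [4, 4, 4, 5, 5] [76, 66, 56, 46, 36, 0] [] 100000 21429 21429 1059009 0 20497 52588
    40994 20497 14286 33333) (.S 3 4 (.S 3 3 (.S 4 4 (.S 4 2 (.L 6 6 [4, 4, 4, 5, 5] [56, 46, 36,
    0, 0, 0] [48, 38, 28, 18, 0, 0] 100000 15476 15475 1100000 9524 14286 38095 42857 38095 38095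
    33333) (.L 6 6 [4, 4, 4, 5, 5] [76, 66, 56, 46, 36, 0] [48, 38, 28, 18, 0, 0] 100000 20652
    20651 1026087 0 0 86957 17391 17391 34783 26087)) (.E 2)) (.S 4 4 (.S 4 2 (.L 6 6 [4, 4, 4, 5,
    5] [56, 46, 36, 0, 0, 0] [66, 58, 48, 38, 28, 0] 100000 8334 8334 1133334 22222 0 22222 38889
    66667 66667 33333) (.L 6 6 [4, 4, 4, 5, 5] [76, 66, 56, 46, 36, 0] [66, 58, 48, 38, 28, 0]
    100000 25000 24999 983333 0 0 100000 16667 0 50000 33333)) (.E 2))) (.E 2))) (.E 1)) (.E 1))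

lemma s20_20_5_4_22 {n : ℕ} (hn : 5 ≤ n) : NoNd (d20_20_5_4.R : ℤ) d20_20_5_4.H n d20_20_5_4.a d20_20_5_4.b
    (BlkD.inB (BlkD.upd (BlkD.upd (BlkD.upd (fun _ => 0) 0 3) 1 3) 1 4)
      (BlkD.upd (BlkD.upd (BlkD.upd (BlkD.upd (BlkD.upd (BlkD.upd (BlkD.upd (BlkD.upd (fun _ => 20) 0 5) 2 4) 0 4) 0 3) 1 17) 1 8) 1 4) 2 2)) :=
  BlkD.tree_sound (BlkD.pairOk_sound k20_20_5_4) (by decide) hn t20_20_5_4_22 _ _ (by decide +kernel)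

/-- certificates of the pair `(5, 4)`, part 23 -/
def t20_20_5_4_23 : BlkD.Tr :=
  .S 2 3 (.S 3 10 (.S 3 5 (.S 3 2 (.L 6 6 [4, 4, 4, 5, 5] [76, 66, 56, 46, 36, 0] [] 100000 19697
    19697 1093940 0 26515 53030 53030 21212 40152 33333) (.S 3 4 (.S 3 3 (.S 4 4 (.S 4 2 (.L 6 6
    [4, 4, 4, 5, 5] [56, 46, 36, 0, 0, 0] [54, 44, 34, 24, 0, 0] 100000 8334 8334 1133334 22222 0
    22222 38889 66667 66667 33333) (.L 6 6 [4, 4, 4, 5, 5] [76, 66, 56, 46, 36, 0] [54, 44, 34, 24,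
    0, 0] 100000 25000 24999 983333 0 0 100000 16667 0 50000 33333)) (.E 2)) (.E 1)) (.E 1))) (.E
    1)) (.E 1)) (.L 6 6 [4, 4, 4, 5, 5] [76, 66, 56, 46, 36, 0] [] 100000 15000 15000 1080001 23333
    0 73333 0 40000 66667 33333)

lemma s20_20_5_4_23 {n : ℕ} (hn : 5 ≤ n) : NoNd (d20_20_5_4.R : ℤ) d20_20_5_4.H n d20_20_5_4.a d20_20_5_4.b
    (BlkD.inB (BlkD.upd (BlkD.upd (BlkD.upd (BlkD.upd (fun _ => 0) 0 3) 1 3) 1 4) 2 3)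
      (BlkD.upd (BlkD.upd (BlkD.upd (BlkD.upd (BlkD.upd (BlkD.upd (BlkD.upd (fun _ => 20) 0 5) 2 4) 0 4) 0 3) 1 17) 1 8) 1 4)) :=
  BlkD.tree_sound (BlkD.pairOk_sound k20_20_5_4) (by decide) hn t20_20_5_4_23 _ _ (by decide +kernel)

/-- certificates of the pair `(5, 4)`, part 24 -/
def t20_20_5_4_24 : BlkD.Tr :=
  .S 1 6 (.S 1 5 (.S 2 2 (.S 2 1 (.S 2 0 (.L 6 6 [4, 4, 4, 5, 5] [98, 90, 80, 70, 60, 50] [] 100000
    81945 20834 477778 0 0 161111 100000 0 0 33333) (.S 3 11 (.S 3 5 (.S 3 2 (.L 6 6 [4, 4, 4, 5,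
    5] [98, 90, 80, 70, 60, 50] [] 100000 36364 18182 863636 0 0 118182 0 0 0 27273) (.S 3 4 (.S 3
    3 (.L 6 6 [4, 4, 4, 5, 5] [98, 90, 80, 70, 60, 50] [42, 32, 22, 12, 0, 0] 100000 25000 25000
    1025000 0 0 87500 0 37500 0 25000) (.L 6 6 [4, 4, 4, 5, 5] [98, 90, 80, 70, 60, 50] [58, 50,
    40, 30, 20, 0] 100000 18421 18420 1101754 0 31579 31579 40351 35088 26316 33333)) (.L 6 6 [4,
    4, 4, 5, 5] [98, 90, 80, 70, 60, 50] [70, 68, 60, 50, 40, 30] 100000 116667 116667 600000 0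
    100000 100000 100000 0 0 33333))) (.E 2)) (.E 1))) (.S 3 10 (.S 3 5 (.S 3 2 (.L 6 6 [4, 4, 4,
    5, 5] [98, 90, 80, 70, 60, 50] [] 100000 20834 20834 1037502 0 0 81250 16667 39583 16667 20833)
    (.L 6 6 [4, 4, 4, 5, 5] [98, 90, 80, 70, 60, 50] [] 100000 19737 19737 1100000 5263 0 89474
    10526 21053 52632 31579)) (.E 1)) (.E 1))) (.L 6 6 [4, 4, 4, 5, 5] [98, 90, 80, 70, 60, 50] []
    100000 25000 24999 1066666 0 0 100000 16667 0 50000 33333)) (.E 0)) (.E 0)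

lemma s20_20_5_4_24 {n : ℕ} (hn : 5 ≤ n) : NoNd (d20_20_5_4.R : ℤ) d20_20_5_4.H n d20_20_5_4.a d20_20_5_4.b
    (BlkD.inB (BlkD.upd (BlkD.upd (fun _ => 0) 0 3) 1 5)
      (BlkD.upd (BlkD.upd (BlkD.upd (BlkD.upd (BlkD.upd (BlkD.upd (fun _ => 20) 0 5) 2 4) 0 4) 0 3) 1 17) 1 8)) :=
  BlkD.tree_sound (BlkD.pairOk_sound k20_20_5_4) (by decide) hn t20_20_5_4_24 _ _ (by decide +kernel)

/-- certificates of the pair `(5, 4)`, part 25 -/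
def t20_20_5_4_25 : BlkD.Tr :=
  .E 0

lemma s20_20_5_4_25 {n : ℕ} (hn : 5 ≤ n) : NoNd (d20_20_5_4.R : ℤ) d20_20_5_4.H n d20_20_5_4.a d20_20_5_4.b
    (BlkD.inB (BlkD.upd (BlkD.upd (fun _ => 0) 0 3) 1 9)
      (BlkD.upd (BlkD.upd (BlkD.upd (BlkD.upd (BlkD.upd (fun _ => 20) 0 5) 2 4) 0 4) 0 3) 1 17)) :=
  BlkD.tree_sound (BlkD.pairOk_sound k20_20_5_4) (by decide) hn t20_20_5_4_25 _ _ (by decide +kernel)

/-- certificates of the pair `(5, 4)`, part 26 -/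
def t20_20_5_4_26 : BlkD.Tr :=
  .E 0

lemma s20_20_5_4_26 {n : ℕ} (hn : 5 ≤ n) : NoNd (d20_20_5_4.R : ℤ) d20_20_5_4.H n d20_20_5_4.a d20_20_5_4.b
    (BlkD.inB (BlkD.upd (BlkD.upd (fun _ => 0) 0 3) 1 18)
      (BlkD.upd (BlkD.upd (BlkD.upd (BlkD.upd (fun _ => 20) 0 5) 2 4) 0 4) 0 3)) :=
  BlkD.tree_sound (BlkD.pairOk_sound k20_20_5_4) (by decide) hn t20_20_5_4_26 _ _ (by decide +kernel)

/-- certificates of the pair `(5, 4)`, part 27 -/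
def t20_20_5_4_27 : BlkD.Tr :=
  .S 1 1 (.S 1 0 (.L 6 6 [4, 4, 4, 5, 5] [0, 0, 0, 0, 0, 0] [] 100000 25000 25000 1000000 0 0 0
    50000 0 0 50000) (.L 6 6 [4, 4, 4, 5, 5] [18, 8, 0, 0, 0, 0] [] 100000 17858 17858 1085714
    42857 0 42857 42857 28571 28571 28571)) (.L 6 6 [4, 4, 4, 5, 5] [38, 28, 18, 0, 0, 0] [] 100000
    19792 19792 1100000 39583 0 60417 45833 45833 20833 33333)

lemma s20_20_5_4_27 {n : ℕ} (hn : 5 ≤ n) : NoNd (d20_20_5_4.R : ℤ) d20_20_5_4.H n d20_20_5_4.a d20_20_5_4.b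
    (BlkD.inB (BlkD.upd (BlkD.upd (fun _ => 0) 0 3) 0 4)
      (BlkD.upd (BlkD.upd (BlkD.upd (BlkD.upd (BlkD.upd (BlkD.upd (BlkD.upd (fun _ => 20) 0 5) 2 4) 0 4) 1 16) 1 8) 1 4) 1 2)) :=
  BlkD.tree_sound (BlkD.pairOk_sound k20_20_5_4) (by decide) hn t20_20_5_4_27 _ _ (by decide +kernel)

/-- certificates of the pair `(5, 4)`, part 28 -/
def t20_20_5_4_28 : BlkD.Tr :=
  .S 1 3 (.S 2 2 (.S 2 1 (.S 2 0 (.L 6 6 [4, 4, 4, 5, 5] [60, 50, 40, 30, 0, 0] [] 100000 62500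
    62500 700000 0 0 50000 100000 0 0 0) (.S 3 12 (.S 3 6 (.S 3 3 (.L 6 6 [4, 4, 4, 5, 5] [60, 50,
    40, 30, 0, 0] [] 100000 25001 25001 1016364 0 41818 25455 41818 50909 0 23636) (.L 6 6 [4, 4,
    4, 5, 5] [60, 50, 40, 30, 0, 0] [] 100000 18056 18056 1108334 0 29630 34259 38889 32407 27778
    33333)) (.E 1)) (.E 1))) (.S 3 11 (.S 3 5 (.S 3 2 (.L 6 6 [4, 4, 4, 5, 5] [60, 50, 40, 30, 0,
    0] [] 100000 21429 21429 1050002 0 25000 50000 50000 37500 14286 25000) (.S 3 4 (.S 3 3 (.L 6 6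
    [4, 4, 4, 5, 5] [60, 50, 40, 30, 0, 0] [48, 38, 28, 18, 0, 0] 100000 13095 13094 1119048 9524
    14286 47619 33333 47619 47619 33333) (.S 4 3 (.S 4 1 (.L 6 6 [4, 4, 4, 5, 5] [40, 30, 0, 0, 0,
    0] [66, 58, 48, 38, 28, 0] 100000 8334 8334 1133332 0 16667 0 66667 66667 66667 33333) (.L 6 6
    [4, 4, 4, 5, 5] [60, 50, 40, 30, 0, 0] [66, 58, 48, 38, 28, 0] 100000 8334 8334 1133332 0 0
    66667 16667 66667 66667 33333)) (.E 2))) (.E 2))) (.E 1)) (.E 1))) (.S 2 3 (.S 3 10 (.S 3 5 (.S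
    3 2 (.L 6 6 [4, 4, 4, 5, 5] [60, 50, 40, 30, 0, 0] [] 100000 13334 13334 1106667 0 23333 46667
    46667 46667 46667 33333) (.S 3 4 (.S 3 3 (.S 4 3 (.S 4 1 (.L 6 6 [4, 4, 4, 5, 5] [40, 30, 0, 0,
    0, 0] [54, 44, 34, 24, 0, 0] 100000 8334 8334 1133333 11111 0 11111 66667 66667 66667 33333)
    (.L 6 6 [4, 4, 4, 5, 5] [60, 50, 40, 30, 0, 0] [54, 44, 34, 24, 0, 0] 100000 8334 8334 1133332
    0 0 66667 16667 66667 66667 33333)) (.E 2)) (.E 1)) (.E 1))) (.E 1)) (.E 1)) (.L 6 6 [4, 4, 4,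
    5, 5] [60, 50, 40, 30, 0, 0] [] 100000 5000 5000 1120001 20000 0 53333 6667 80000 80000
    40000))) (.L 6 6 [4, 4, 4, 5, 5] [84, 74, 64, 54, 44, 0] [] 100000 22917 22917 1045000 0 0
    77500 25000 40000 8333 20000)

lemma s20_20_5_4_28 {n : ℕ} (hn : 5 ≤ n) : NoNd (d20_20_5_4.R : ℤ) d20_20_5_4.H n d20_20_5_4.a d20_20_5_4.b
    (BlkD.inB (BlkD.upd (BlkD.upd (BlkD.upd (fun _ => 0) 0 3) 0 4) 1 3)
      (BlkD.upd (BlkD.upd (BlkD.upd (BlkD.upd (BlkD.upd (BlkD.upd (fun _ => 20) 0 5) 2 4) 0 4) 1 16) 1 8) 1 4)) :=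
  BlkD.tree_sound (BlkD.pairOk_sound k20_20_5_4) (by decide) hn t20_20_5_4_28 _ _ (by decide +kernel)

/-- certificates of the pair `(5, 4)`, part 29 -/
def t20_20_5_4_29 : BlkD.Tr :=
  .E 0

lemma s20_20_5_4_29 {n : ℕ} (hn : 5 ≤ n) : NoNd (d20_20_5_4.R : ℤ) d20_20_5_4.H n d20_20_5_4.a d20_20_5_4.b
    (BlkD.inB (BlkD.upd (BlkD.upd (BlkD.upd (fun _ => 0) 0 3) 0 4) 1 5)
      (BlkD.upd (BlkD.upd (BlkD.upd (BlkD.upd (BlkD.upd (fun _ => 20) 0 5) 2 4) 0 4) 1 16) 1 8)) :=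
  BlkD.tree_sound (BlkD.pairOk_sound k20_20_5_4) (by decide) hn t20_20_5_4_29 _ _ (by decide +kernel)

/-- certificates of the pair `(5, 4)`, part 30 -/
def t20_20_5_4_30 : BlkD.Tr :=
  .E 0

lemma s20_20_5_4_30 {n : ℕ} (hn : 5 ≤ n) : NoNd (d20_20_5_4.R : ℤ) d20_20_5_4.H n d20_20_5_4.a d20_20_5_4.b
    (BlkD.inB (BlkD.upd (BlkD.upd (BlkD.upd (fun _ => 0) 0 3) 0 4) 1 9)
      (BlkD.upd (BlkD.upd (BlkD.upd (BlkD.upd (fun _ => 20) 0 5) 2 4) 0 4) 1 16)) :=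
  BlkD.tree_sound (BlkD.pairOk_sound k20_20_5_4) (by decide) hn t20_20_5_4_30 _ _ (by decide +kernel)

/-- certificates of the pair `(5, 4)`, part 31 -/
def t20_20_5_4_31 : BlkD.Tr :=
  .E 0

lemma s20_20_5_4_31 {n : ℕ} (hn : 5 ≤ n) : NoNd (d20_20_5_4.R : ℤ) d20_20_5_4.H n d20_20_5_4.a d20_20_5_4.b
    (BlkD.inB (BlkD.upd (BlkD.upd (BlkD.upd (fun _ => 0) 0 3) 0 4) 1 17)
      (BlkD.upd (BlkD.upd (BlkD.upd (fun _ => 20) 0 5) 2 4) 0 4)) :=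
  BlkD.tree_sound (BlkD.pairOk_sound k20_20_5_4) (by decide) hn t20_20_5_4_31 _ _ (by decide +kernel)

/-- certificates of the pair `(5, 4)`, part 32 -/
def t20_20_5_4_32 : BlkD.Tr :=
  .S 1 15 (.S 1 7 (.S 1 3 (.S 1 1 (.L 6 6 [4, 4, 4, 5, 5] [] [] 100000 15923 15923 1090480 26786
    4762 31548 63690 66667 36310 33333) (.S 1 2 (.S 2 2 (.S 2 1 (.L 6 6 [4, 4, 4, 5, 5] [42, 32,
    22, 0, 0, 0] [] 100000 66667 66667 800000 0 100000 0 100000 66667 0 33333) (.L 6 6 [4, 4, 4, 5,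
    5] [42, 32, 22, 0, 0, 0] [] 100000 19753 19753 1093830 0 0 53086 53086 20988 20988 33333)) (.L
    6 6 [4, 4, 4, 5, 5] [42, 32, 22, 0, 0, 0] [] 100000 8334 8334 1133332 0 0 66667 16667 66667
    66667 33333)) (.E 0))) (.E 0)) (.E 0)) (.E 0)

lemma s20_20_5_4_32 {n : ℕ} (hn : 5 ≤ n) : NoNd (d20_20_5_4.R : ℤ) d20_20_5_4.H n d20_20_5_4.a d20_20_5_4.b
    (BlkD.inB (BlkD.upd (BlkD.upd (fun _ => 0) 0 3) 0 5)
      (BlkD.upd (BlkD.upd (fun _ => 20) 0 5) 2 4)) :=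
  BlkD.tree_sound (BlkD.pairOk_sound k20_20_5_4) (by decide) hn t20_20_5_4_32 _ _ (by decide +kernel)

/-- certificates of the pair `(5, 4)`, part 33 -/
def t20_20_5_4_33 : BlkD.Tr :=
  .E 1

lemma s20_20_5_4_33 {n : ℕ} (hn : 5 ≤ n) : NoNd (d20_20_5_4.R : ℤ) d20_20_5_4.H n d20_20_5_4.a d20_20_5_4.b
    (BlkD.inB (BlkD.upd (fun _ => 0) 2 5)
      (BlkD.upd (fun _ => 20) 0 5)) :=
  BlkD.tree_sound (BlkD.pairOk_sound k20_20_5_4) (by decide) hn t20_20_5_4_33 _ _ (by decide +kernel)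

/-- certificates of the pair `(5, 4)`, part 34 -/
def t20_20_5_4_34 : BlkD.Tr :=
  .E 0

lemma s20_20_5_4_34 {n : ℕ} (hn : 5 ≤ n) : NoNd (d20_20_5_4.R : ℤ) d20_20_5_4.H n d20_20_5_4.a d20_20_5_4.b
    (BlkD.inB (BlkD.upd (fun _ => 0) 0 6)
      (fun _ => 20)) :=
  BlkD.tree_sound (BlkD.pairOk_sound k20_20_5_4) (by decide) hn t20_20_5_4_34 _ _ (by decide +kernel)

lemma pr20_20_5_4 {n : ℕ} (hn : 5 ≤ n) : NoPr ((20 : ℕ) : ℤ) ((20 : ℕ) : ℤ) n 5 4 :=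
  BlkD.of_root (R := d20_20_5_4.R) (H := d20_20_5_4.H) (a := d20_20_5_4.a) (b := d20_20_5_4.b) (q := 3) (by decide) hn
    (BlkD.sp 0 5 (BlkD.sp 2 4 (BlkD.sp 0 2 (BlkD.sp 0 1 (BlkD.sp 0 0 (s20_20_5_4_1 hn) (BlkD.sp 1
      19 (BlkD.sp 1 9 (BlkD.sp 1 4 (s20_20_5_4_2 hn) (BlkD.sp 1 7 (s20_20_5_4_3 hn) (s20_20_5_4_4
      hn))) (s20_20_5_4_5 hn)) (s20_20_5_4_6 hn))) (BlkD.sp 1 18 (BlkD.sp 1 9 (BlkD.sp 1 4 (BlkD.sp
      1 2 (s20_20_5_4_7 hn) (BlkD.sp 1 3 (s20_20_5_4_8 hn) (BlkD.sp 2 2 (s20_20_5_4_9 hn)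
      (s20_20_5_4_10 hn)))) (BlkD.sp 1 7 (BlkD.sp 1 6 (BlkD.sp 1 5 (BlkD.sp 2 2 (BlkD.sp 2 1
      (s20_20_5_4_11 hn) (s20_20_5_4_12 hn)) (s20_20_5_4_13 hn)) (s20_20_5_4_14 hn)) (s20_20_5_4_15
      hn)) (s20_20_5_4_16 hn))) (s20_20_5_4_17 hn)) (s20_20_5_4_18 hn))) (BlkD.sp 0 4 (BlkD.sp 0 3
      (BlkD.sp 1 17 (BlkD.sp 1 8 (BlkD.sp 1 4 (BlkD.sp 1 2 (s20_20_5_4_19 hn) (BlkD.sp 1 3 (BlkD.sp
      2 2 (s20_20_5_4_20 hn) (s20_20_5_4_21 hn)) (BlkD.sp 2 2 (s20_20_5_4_22 hn) (s20_20_5_4_23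
      hn)))) (s20_20_5_4_24 hn)) (s20_20_5_4_25 hn)) (s20_20_5_4_26 hn)) (BlkD.sp 1 16 (BlkD.sp 1 8
      (BlkD.sp 1 4 (BlkD.sp 1 2 (s20_20_5_4_27 hn) (s20_20_5_4_28 hn)) (s20_20_5_4_29 hn))
      (s20_20_5_4_30 hn)) (s20_20_5_4_31 hn))) (s20_20_5_4_32 hn))) (s20_20_5_4_33 hn))
      (s20_20_5_4_34 hn))

end BlkC

end Pool.Agent.Lib.MP_f04ccf_co
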