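import Pool.Agent.Lib.MP_f04ccf_co.M.BlkT

/-!
MP_f04ccf_co, block certificate, data `R = 20`, `H = 20`, part 3 (generated, helper99:
bd10.cpp, gen2.py).
-/

set_option autoImplicit false
set_option maxRecDepth 100000

namespace Pool.Agent.Lib.MP_f04ccf_co

namespace BlkC

/-- the numbers of the pair `(5, 5)`, `R = 20`, `H = 20` -/
def d20_20_5_5 : BlkD.Pd :=
  ⟨20, 20, 3, 5, 5, 7, 4, 2, 0, 4, 10, 0, 0, 4, 10, 0, [0, 10, 20, 28, 28, 28, 28, 28], [0, 10, 20,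
    28, 28, 28, 28, 28], [⟨1, 1, 1, 4, 8, [0, 4], [0, 4]⟩, ⟨1, 1, 1, 6, 12, [0, 6], [0, 6]⟩, ⟨1, 1,
    1, 6, 16, [0, 8], [0, 8]⟩, ⟨1, 1, 1, 6, 20, [0, 10], [0, 10]⟩, ⟨2, 2, 1, 4, 36, [0, 10, 18],
    [0, 10, 18]⟩]⟩

lemma k20_20_5_5 : BlkD.pairOk d20_20_5_5 = true := by decide +kernel

/-- certificates of the pair `(5, 5)`, part 1 -/
def t20_20_5_5_1 : BlkD.Tr :=
  .L 6 6 [4, 4, 4, 5, 5, 20] [] [] 100000 73611 73611 1000001 83333 0 83333 66667 0 0 27778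

lemma s20_20_5_5_1 {n : ℕ} (hn : 5 ≤ n) : NoNd (d20_20_5_5.R : ℤ) d20_20_5_5.H n d20_20_5_5.a d20_20_5_5.b
    (BlkD.inB (fun _ => 0)
      (BlkD.upd (BlkD.upd (BlkD.upd (BlkD.upd (BlkD.upd (fun _ => 20) 0 5) 2 5) 0 2) 0 1) 0 0)) :=
  BlkD.tree_sound (BlkD.pairOk_sound k20_20_5_5) (by decide) hn t20_20_5_5_1 _ _ (by decide +kernel)

/-- certificates of the pair `(5, 5)`, part 2 -/
def t20_20_5_5_2 : BlkD.Tr :=
  .S 1 5 (.L 6 6 [4, 4, 4, 5, 5, 20] [] [] 100000 73611 73611 1000001 83333 0 83333 66667 0 0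
    27778) (.L 6 6 [4, 4, 4, 5, 5, 20] [] [] 100000 73611 73611 1000001 83333 0 83333 66667 0 0
    27778)

lemma s20_20_5_5_2 {n : ℕ} (hn : 5 ≤ n) : NoNd (d20_20_5_5.R : ℤ) d20_20_5_5.H n d20_20_5_5.a d20_20_5_5.b
    (BlkD.inB (BlkD.upd (fun _ => 0) 0 1)
      (BlkD.upd (BlkD.upd (BlkD.upd (BlkD.upd (BlkD.upd (fun _ => 20) 0 5) 2 5) 0 2) 0 1) 1 10)) :=
  BlkD.tree_sound (BlkD.pairOk_sound k20_20_5_5) (by decide) hn t20_20_5_5_2 _ _ (by decide +kernel)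

/-- certificates of the pair `(5, 5)`, part 3 -/
def t20_20_5_5_3 : BlkD.Tr :=
  .L 6 6 [4, 4, 4, 5, 5, 20] [] [] 100000 73611 73611 1000001 83333 0 83333 66667 0 0 27778

lemma s20_20_5_5_3 {n : ℕ} (hn : 5 ≤ n) : NoNd (d20_20_5_5.R : ℤ) d20_20_5_5.H n d20_20_5_5.a d20_20_5_5.b
    (BlkD.inB (BlkD.upd (BlkD.upd (fun _ => 0) 0 1) 1 11)
      (BlkD.upd (BlkD.upd (BlkD.upd (BlkD.upd (fun _ => 20) 0 5) 2 5) 0 2) 0 1)) :=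
  BlkD.tree_sound (BlkD.pairOk_sound k20_20_5_5) (by decide) hn t20_20_5_5_3 _ _ (by decide +kernel)

/-- certificates of the pair `(5, 5)`, part 4 -/
def t20_20_5_5_4 : BlkD.Tr :=
  .L 6 6 [4, 4, 4, 5, 5, 20] [] [] 100000 29167 29167 1116669 0 0 0 83333 0 16667 50000

lemma s20_20_5_5_4 {n : ℕ} (hn : 5 ≤ n) : NoNd (d20_20_5_5.R : ℤ) d20_20_5_5.H n d20_20_5_5.a d20_20_5_5.b
    (BlkD.inB (BlkD.upd (fun _ => 0) 0 2)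
      (BlkD.upd (BlkD.upd (BlkD.upd (BlkD.upd (BlkD.upd (BlkD.upd (BlkD.upd (fun _ => 20) 0 5) 2 5) 0 2) 1 18) 1 9) 1 4) 1 2)) :=
  BlkD.tree_sound (BlkD.pairOk_sound k20_20_5_5) (by decide) hn t20_20_5_5_4 _ _ (by decide +kernel)

/-- certificates of the pair `(5, 5)`, part 5 -/
def t20_20_5_5_5 : BlkD.Tr :=
  .S 2 2 (.S 2 1 (.L 6 6 [4, 4, 4, 5, 5, 20] [50, 40, 30, 18, 0, 0] [] 100000 62500 62499 988888
    22222 55556 55556 77778 0 0 16667) (.S 3 13 (.S 3 6 (.S 3 3 (.L 6 6 [4, 4, 4, 5, 5, 20] [50,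
    40, 30, 18, 0, 0] [] 100000 37500 37500 1000000 0 0 0 0 0 0 50000) (.S 3 5 (.S 3 4 (.L 6 6 [4,
    4, 4, 5, 5, 20] [50, 40, 30, 18, 0, 0] [70, 60, 50, 40, 28, 0] 100000 37500 37500 1100000 0 0 0
    0 0 0 50000) (.L 6 6 [4, 4, 4, 5, 5, 20] [50, 40, 30, 18, 0, 0] [90, 82, 72, 62, 52, 40] 100000
    28917 28917 1182260 9677 9677 69124 56452 8295 20968 25806)) (.L 6 6 [4, 4, 4, 5, 5, 20] [50,
    40, 30, 18, 0, 0] [104, 104, 96, 86, 76, 66] 100000 23810 23809 1196666 6667 6667 47619 70000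
    5714 30000 33333))) (.L 6 6 [4, 4, 4, 5, 5, 20] [50, 40, 30, 18, 0, 0] [] 100000 29762 29762
    1100001 0 0 42857 100000 7143 33333 33333)) (.E 1))) (.S 2 4 (.S 2 3 (.S 3 12 (.S 3 6 (.S 3 3
    (.L 6 6 [4, 4, 4, 5, 5, 20] [50, 40, 30, 18, 0, 0] [] 100000 28316 28316 1128576 0 0 24490
    57143 4082 14286 50000) (.L 6 6 [4, 4, 4, 5, 5, 20] [50, 40, 30, 18, 0, 0] [] 100000 23280
    23279 1196300 11111 0 53968 70370 7143 29630 33333)) (.E 1)) (.E 1)) (.L 6 6 [4, 4, 4, 5, 5,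
    20] [50, 40, 30, 18, 0, 0] [] 100000 22981 22980 1173917 13043 0 74534 50000 8075 31056 29814))
    (.L 6 6 [4, 4, 4, 5, 5, 20] [50, 40, 30, 18, 0, 0] [] 100000 23214 23213 1117858 27381 0 70238
    7143 7143 75000 25000))

lemma s20_20_5_5_5 {n : ℕ} (hn : 5 ≤ n) : NoNd (d20_20_5_5.R : ℤ) d20_20_5_5.H n d20_20_5_5.a d20_20_5_5.b
    (BlkD.inB (BlkD.upd (BlkD.upd (fun _ => 0) 0 2) 1 3)
      (BlkD.upd (BlkD.upd (BlkD.upd (BlkD.upd (BlkD.upd (BlkD.upd (BlkD.upd (fun _ => 20) 0 5) 2 5) 0 2) 1 18) 1 9) 1 4) 1 3)) :=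
  BlkD.tree_sound (BlkD.pairOk_sound k20_20_5_5) (by decide) hn t20_20_5_5_5 _ _ (by decide +kernel)

/-- certificates of the pair `(5, 5)`, part 6 -/
def t20_20_5_5_6 : BlkD.Tr :=
  .S 2 1 (.L 6 6 [4, 4, 4, 5, 5, 20] [70, 60, 50, 40, 28, 0] [] 100000 50000 49999 1061290 0 67742
    51613 67742 0 0 22581) (.S 3 12 (.S 3 6 (.S 3 3 (.L 6 6 [4, 4, 4, 5, 5, 20] [70, 60, 50, 40,
    28, 0] [] 100000 37500 37500 1100000 0 0 0 0 0 0 50000) (.S 3 5 (.S 3 4 (.S 4 4 (.S 4 2 (.S 4 1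
    (.L 6 6 [4, 4, 4, 5, 5, 20] [40, 28, 0, 0, 0, 0] [70, 60, 50, 40, 28, 0] 100000 40000 40000
    1133336 20000 20000 40000 73333 6667 6667 26667) (.L 6 6 [4, 4, 4, 5, 5, 20] [50, 40, 28, 0, 0,
    0] [70, 60, 50, 40, 28, 0] 100000 37500 37500 1100000 0 0 100000 50000 0 0 50000)) (.L 6 6 [4,
    4, 4, 5, 5, 20] [70, 60, 50, 40, 28, 0] [70, 60, 50, 40, 28, 0] 100000 43750 18750 950000 0 0
    125000 62500 0 0 25000)) (.E 2)) (.S 4 4 (.S 4 2 (.S 4 1 (.L 5 5 [4, 4, 5, 5, 6, 20] [40, 28,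
    0, 0, 0, 0] [90, 82, 72, 62, 52, 40] 100000 23404 23403 1202130 10638 19149 31915 61702 23404
    21277 27660) (.L 5 5 [4, 4, 5, 5, 6, 20] [50, 40, 28, 0, 0, 0] [90, 82, 72, 62, 52, 40] 100000
    34896 34896 1123958 12500 12500 71875 54167 0 17708 25000)) (.L 5 5 [4, 4, 5, 5, 6, 20] [70,
    60, 50, 40, 28, 0] [90, 82, 72, 62, 52, 40] 100000 34167 17500 1013335 0 0 116667 53333 0 26667
    13333)) (.E 2))) (.S 4 4 (.S 4 2 (.S 4 1 (.L 5 5 [4, 4, 5, 5, 6, 20] [40, 28, 0, 0, 0, 0] [104,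
    104, 96, 86, 76, 66] 100000 25000 25000 1161540 7692 7692 7692 100000 46154 0 46154) (.L 5 5
    [4, 4, 5, 5, 6, 20] [50, 40, 28, 0, 0, 0] [104, 104, 96, 86, 76, 66] 100000 34375 34375 1132814
    3125 3125 100000 54687 0 25000 12500)) (.L 5 5 [4, 4, 5, 5, 6, 20] [70, 60, 50, 40, 28, 0]
    [104, 104, 96, 86, 76, 66] 100000 38334 5001 946670 0 0 133333 53333 0 26667 13333)) (.E 2))))
    (.L 5 5 [4, 4, 5, 5, 6, 20] [70, 60, 50, 40, 28, 0] [] 100000 50000 50000 1000000 0 0 100000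
    100000 0 0 0)) (.E 1))

lemma s20_20_5_5_6 {n : ℕ} (hn : 5 ≤ n) : NoNd (d20_20_5_5.R : ℤ) d20_20_5_5.H n d20_20_5_5.a d20_20_5_5.b
    (BlkD.inB (BlkD.upd (BlkD.upd (BlkD.upd (fun _ => 0) 0 2) 1 3) 1 4)
      (BlkD.upd (BlkD.upd (BlkD.upd (BlkD.upd (BlkD.upd (BlkD.upd (BlkD.upd (fun _ => 20) 0 5) 2 5) 0 2) 1 18) 1 9) 1 4) 2 2)) :=
  BlkD.tree_sound (BlkD.pairOk_sound k20_20_5_5) (by decide) hn t20_20_5_5_6 _ _ (by decide +kernel)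

/-- certificates of the pair `(5, 5)`, part 7 -/
def t20_20_5_5_7 : BlkD.Tr :=
  .S 2 4 (.S 2 3 (.S 3 11 (.S 3 5 (.S 3 2 (.L 5 5 [4, 4, 5, 5, 6, 20] [70, 60, 50, 40, 28, 0] []
    100000 37500 37500 1100000 0 0 0 0 0 0 50000) (.S 3 4 (.S 3 3 (.L 5 5 [4, 4, 5, 5, 6, 20] [70,
    60, 50, 40, 28, 0] [56, 46, 36, 24, 0, 0] 100000 26760 26760 1185312 11261 6487 64382 58507
    9547 20808 32252) (.S 4 4 (.S 4 2 (.S 4 1 (.L 5 5 [4, 4, 5, 5, 6, 20] [40, 28, 0, 0, 0, 0] [78,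
    68, 58, 48, 36, 0] 100000 19231 19231 1217950 20513 0 20513 58974 23077 23077 41026) (.L 5 5
    [4, 4, 5, 5, 6, 20] [50, 40, 28, 0, 0, 0] [78, 68, 58, 48, 36, 0] 100000 34375 34375 1100000 0
    0 100000 50000 0 12500 37500)) (.L 5 5 [4, 4, 5, 5, 6, 20] [70, 60, 50, 40, 28, 0] [78, 68, 58,
    48, 36, 0] 100000 50000 3845 861538 0 0 146154 73077 0 15385 7692)) (.E 2))) (.S 4 4 (.S 4 2
    (.L 5 5 [4, 4, 5, 5, 6, 20] [50, 40, 28, 0, 0, 0] [100, 92, 82, 72, 62, 50] 100000 24070 24070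
    1202792 24651 0 58605 49302 3721 45581 31163) (.L 5 5 [4, 4, 5, 5, 6, 20] [70, 60, 50, 40, 28,
    0] [100, 92, 82, 72, 62, 50] 100000 37037 0 940741 0 0 137037 48148 0 29630 14815)) (.E 2))))
    (.E 1)) (.E 1)) (.S 3 10 (.S 3 5 (.S 3 2 (.L 5 5 [4, 4, 5, 5, 6, 20] [70, 60, 50, 40, 28, 0] []
    100000 28572 28572 1183337 16667 0 73810 26190 9524 16667 33333) (.S 3 4 (.S 3 3 (.L 6 6 [4, 4,
    4, 5, 5, 20] [70, 60, 50, 40, 28, 0] [62, 52, 42, 30, 0, 0] 100000 22750 22750 1208000 23000 0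
    64000 46000 9000 37000 25000) (.L 6 6 [4, 4, 4, 5, 5, 20] [70, 60, 50, 40, 28, 0] [86, 76, 66,
    56, 44, 0] 100000 33334 33334 1100000 0 0 50000 100000 0 33333 33333)) (.E 1))) (.E 1)) (.E
    1))) (.L 6 6 [4, 4, 4, 5, 5, 20] [70, 60, 50, 40, 28, 0] [] 100000 25001 25001 1154545 27273 0
    68182 36364 9091 50000 36364)

lemma s20_20_5_5_7 {n : ℕ} (hn : 5 ≤ n) : NoNd (d20_20_5_5.R : ℤ) d20_20_5_5.H n d20_20_5_5.a d20_20_5_5.b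
    (BlkD.inB (BlkD.upd (BlkD.upd (BlkD.upd (BlkD.upd (fun _ => 0) 0 2) 1 3) 1 4) 2 3)
      (BlkD.upd (BlkD.upd (BlkD.upd (BlkD.upd (BlkD.upd (BlkD.upd (fun _ => 20) 0 5) 2 5) 0 2) 1 18) 1 9) 1 4)) :=
  BlkD.tree_sound (BlkD.pairOk_sound k20_20_5_5) (by decide) hn t20_20_5_5_7 _ _ (by decide +kernel)

/-- certificates of the pair `(5, 5)`, part 8 -/
def t20_20_5_5_8 : BlkD.Tr :=
  .L 6 6 [4, 4, 4, 5, 5, 20] [90, 82, 72, 62, 52, 40] [] 100000 42000 42000 1098000 0 58000 42000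
    72000 10000 0 24000

lemma s20_20_5_5_8 {n : ℕ} (hn : 5 ≤ n) : NoNd (d20_20_5_5.R : ℤ) d20_20_5_5.H n d20_20_5_5.a d20_20_5_5.b
    (BlkD.inB (BlkD.upd (BlkD.upd (fun _ => 0) 0 2) 1 5)
      (BlkD.upd (BlkD.upd (BlkD.upd (BlkD.upd (BlkD.upd (BlkD.upd (BlkD.upd (BlkD.upd (BlkD.upd (BlkD.upd (fun _ => 20) 0 5) 2 5) 0 2) 1 18) 1 9) 1 7) 1 6) 1 5) 2 2) 2 1)) :=
  BlkD.tree_sound (BlkD.pairOk_sound k20_20_5_5) (by decide) hn t20_20_5_5_8 _ _ (by decide +kernel)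

/-- certificates of the pair `(5, 5)`, part 9 -/
def t20_20_5_5_9 : BlkD.Tr :=
  .S 3 11 (.S 3 5 (.S 3 2 (.L 6 6 [4, 4, 4, 5, 5, 20] [90, 82, 72, 62, 52, 40] [] 100000 25000
    25000 1123077 7692 3846 65385 3846 30769 0 38462) (.S 3 4 (.S 3 3 (.L 6 6 [4, 4, 4, 5, 5, 20]
    [90, 82, 72, 62, 52, 40] [50, 40, 30, 18, 0, 0] 100000 30804 30804 1168751 12500 12500 56250
    67857 18750 7143 25000) (.S 4 5 (.S 4 2 (.S 4 1 (.L 6 6 [4, 4, 4, 5, 5, 20] [52, 40, 0, 0, 0,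
    0] [70, 60, 50, 40, 28, 0] 100000 21610 21609 1200000 17966 17966 41695 56949 58983 13559
    35254) (.L 5 5 [4, 4, 5, 5, 6, 20] [62, 52, 40, 0, 0, 0] [70, 60, 50, 40, 28, 0] 100000 42084
    42084 1130000 28333 21667 56667 63333 15000 8333 25000)) (.L 5 5 [4, 4, 5, 5, 6, 20] [90, 82,
    72, 62, 52, 40] [70, 60, 50, 40, 28, 0] 100000 43334 43334 1073332 6667 6667 100000 56667 0 0
    26667)) (.E 2))) (.S 4 5 (.S 4 2 (.S 4 1 (.L 5 5 [4, 4, 5, 5, 6, 20] [52, 40, 0, 0, 0, 0] [90,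
    82, 72, 62, 52, 40] 100000 23215 23215 1185716 28571 14286 42857 42857 35714 28571 35714) (.S 5
    5 (.S 5 2 (.L 6 6 [4, 4, 4, 5, 5, 20] [62, 52, 40, 0, 0, 0] [62, 52, 40, 0, 0, 0] 100000 30358
    30358 1164285 21429 21429 64286 42857 0 21429 21429) (.L 6 6 [4, 4, 4, 5, 5, 20] [62, 52, 40,
    0, 0, 0] [90, 82, 72, 62, 52, 40] 100000 25000 25000 1153126 2083 2083 38542 100000 62500 0
    12500)) (.E 2))) (.L 6 6 [4, 4, 4, 5, 5, 20] [90, 82, 72, 62, 52, 40] [90, 82, 72, 62, 52, 40]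
    100000 32143 32143 1142857 0 0 100000 57143 0 28571 14286)) (.E 2)))) (.S 3 8 (.S 3 7 (.S 3 6
    (.S 4 5 (.S 4 2 (.S 4 1 (.L 6 6 [4, 4, 4, 5, 5, 20] [52, 40, 0, 0, 0, 0] [104, 104, 96, 86, 76,
    66] 100000 153847 115385 469229 123077 0 123077 138462 0 0 15385) (.S 5 6 (.S 5 3 (.L 4 4 [4,
    5, 6, 7, 8, 20] [62, 52, 40, 0, 0, 0] [86, 76, 66, 54, 0, 0] 100000 100000 100000 850001 33333
    50000 100000 100000 0 0 0) (.L 4 4 [4, 5, 6, 7, 8, 20] [62, 52, 40, 0, 0, 0] [104, 104, 96, 86,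
    76, 66] 100000 50000 50000 1000000 0 0 100000 100000 0 0 0)) (.E 2))) (.L 4 4 [4, 5, 6, 7, 8,
    20] [90, 82, 72, 62, 52, 40] [104, 104, 96, 86, 76, 66] 100000 50000 50000 1000000 0 0 100000
    100000 0 0 0)) (.E 2)) (.E 2)) (.E 1)) (.E 1))) (.E 1)

lemma s20_20_5_5_9 {n : ℕ} (hn : 5 ≤ n) : NoNd (d20_20_5_5.R : ℤ) d20_20_5_5.H n d20_20_5_5.a d20_20_5_5.b
    (BlkD.inB (BlkD.upd (BlkD.upd (BlkD.upd (fun _ => 0) 0 2) 1 5) 2 2)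
      (BlkD.upd (BlkD.upd (BlkD.upd (BlkD.upd (BlkD.upd (BlkD.upd (BlkD.upd (BlkD.upd (BlkD.upd (fun _ => 20) 0 5) 2 5) 0 2) 1 18) 1 9) 1 7) 1 6) 1 5) 2 2)) :=
  BlkD.tree_sound (BlkD.pairOk_sound k20_20_5_5) (by decide) hn t20_20_5_5_9 _ _ (by decide +kernel)

/-- certificates of the pair `(5, 5)`, part 10 -/
def t20_20_5_5_10 : BlkD.Tr :=
  .S 2 3 (.S 3 10 (.S 3 5 (.S 3 2 (.L 6 6 [4, 4, 4, 5, 5, 20] [90, 82, 72, 62, 52, 40] [] 100000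
    28786 28786 1184003 12000 12000 58000 68571 20000 9429 26000) (.S 3 4 (.S 3 3 (.S 4 5 (.S 4 2
    (.L 6 6 [4, 4, 4, 5, 5, 20] [62, 52, 40, 0, 0, 0] [56, 46, 36, 24, 0, 0] 100000 19853 19853
    1216999 22520 5147 45040 59196 34745 20590 20751) (.L 6 6 [4, 4, 4, 5, 5, 20] [90, 82, 72, 62,
    52, 40] [56, 46, 36, 24, 0, 0] 100000 34375 34375 1100000 0 0 100000 50000 0 12500 37500)) (.E
    2)) (.S 4 5 (.S 4 2 (.S 4 1 (.L 6 6 [4, 4, 4, 5, 5, 20] [52, 40, 0, 0, 0, 0] [78, 68, 58, 48,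
    36, 0] 100000 12500 12500 1225000 25000 0 25000 50000 50000 50000 50000) (.L 5 5 [4, 4, 5, 5,
    6, 20] [62, 52, 40, 0, 0, 0] [78, 68, 58, 48, 36, 0] 100000 25000 24999 1192307 23077 0 69231
    46154 23077 11538 23077)) (.L 5 5 [4, 4, 5, 5, 6, 20] [90, 82, 72, 62, 52, 40] [78, 68, 58, 48,
    36, 0] 100000 33824 33824 1100000 0 0 100000 58824 17647 14706 17647)) (.E 2))) (.S 4 5 (.S 4 2
    (.L 6 6 [4, 4, 4, 5, 5, 20] [62, 52, 40, 0, 0, 0] [100, 92, 82, 72, 62, 50] 100000 81250 81250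
    950000 50000 0 100000 100000 0 0 25000) (.L 6 6 [4, 4, 4, 5, 5, 20] [90, 82, 72, 62, 52, 40]
    [100, 92, 82, 72, 62, 50] 100000 50000 50000 1000000 0 0 100000 100000 0 0 0)) (.E 2)))) (.E
    1)) (.E 1)) (.S 3 9 (.S 3 4 (.S 3 2 (.S 3 1 (.L 6 6 [4, 4, 4, 5, 5, 20] [90, 82, 72, 62, 52,
    40] [] 100000 25119 25119 1183336 20000 0 66667 20000 23333 11429 30000) (.L 6 6 [4, 4, 4, 5,
    5, 20] [90, 82, 72, 62, 52, 40] [40, 30, 18, 0, 0, 0] 100000 20196 20195 1216726 27758 0 53381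
    36299 19217 36299 18149)) (.S 3 3 (.S 4 5 (.S 4 2 (.L 6 6 [4, 4, 4, 5, 5, 20] [62, 52, 40, 0,
    0, 0] [62, 52, 42, 30, 0, 0] 100000 13560 13560 1232202 23729 1695 47458 47458 45763 45763
    15254) (.L 6 6 [4, 4, 4, 5, 5, 20] [90, 82, 72, 62, 52, 40] [62, 52, 42, 30, 0, 0] 100000 27500
    27500 1100000 0 0 100000 50000 0 60000 10000)) (.E 2)) (.L 6 6 [4, 4, 4, 5, 5, 20] [90, 82, 72,
    62, 52, 40] [86, 76, 66, 56, 44, 0] 100000 50000 50000 1000000 0 0 100000 100000 0 0 0))) (.E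
    1)) (.E 1))

lemma s20_20_5_5_10 {n : ℕ} (hn : 5 ≤ n) : NoNd (d20_20_5_5.R : ℤ) d20_20_5_5.H n d20_20_5_5.a d20_20_5_5.b
    (BlkD.inB (BlkD.upd (BlkD.upd (BlkD.upd (fun _ => 0) 0 2) 1 5) 2 3)
      (BlkD.upd (BlkD.upd (BlkD.upd (BlkD.upd (BlkD.upd (BlkD.upd (BlkD.upd (BlkD.upd (BlkD.upd (fun _ => 20) 0 5) 2 5) 0 2) 1 18) 1 9) 1 7) 1 6) 1 5) 2 4)) :=
  BlkD.tree_sound (BlkD.pairOk_sound k20_20_5_5) (by decide) hn t20_20_5_5_10 _ _ (by decide +kernel)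

/-- certificates of the pair `(5, 5)`, part 11 -/
def t20_20_5_5_11 : BlkD.Tr :=
  .L 6 6 [4, 4, 4, 5, 5, 20] [90, 82, 72, 62, 52, 40] [] 100000 22369 22369 1173684 26316 0 50000
    47368 26316 52632 15789

lemma s20_20_5_5_11 {n : ℕ} (hn : 5 ≤ n) : NoNd (d20_20_5_5.R : ℤ) d20_20_5_5.H n d20_20_5_5.a d20_20_5_5.b
    (BlkD.inB (BlkD.upd (BlkD.upd (BlkD.upd (BlkD.upd (fun _ => 0) 0 2) 1 5) 2 3) 2 5)
      (BlkD.upd (BlkD.upd (BlkD.upd (BlkD.upd (BlkD.upd (BlkD.upd (BlkD.upd (BlkD.upd (fun _ => 20) 0 5) 2 5) 0 2) 1 18) 1 9) 1 7) 1 6) 1 5)) :=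
  BlkD.tree_sound (BlkD.pairOk_sound k20_20_5_5) (by decide) hn t20_20_5_5_11 _ _ (by decide +kernel)

/-- certificates of the pair `(5, 5)`, part 12 -/
def t20_20_5_5_12 : BlkD.Tr :=
  .S 2 1 (.L 6 6 [4, 4, 4, 5, 5, 20] [104, 104, 96, 86, 76, 66] [] 100000 68750 68750 990000 20000
    70000 50000 80000 0 0 15000) (.S 3 10 (.S 3 5 (.S 3 2 (.L 6 6 [4, 4, 4, 5, 5, 20] [104, 104,
    96, 86, 76, 66] [] 100000 25000 25000 1118750 6250 6250 68750 6250 31250 0 37500) (.S 3 4 (.S 3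
    3 (.L 6 6 [4, 4, 4, 5, 5, 20] [104, 104, 96, 86, 76, 66] [50, 40, 30, 18, 0, 0] 100000 27760
    27760 1176139 11364 11364 67045 50974 25000 4708 29545) (.S 4 6 (.S 4 3 (.L 3 3 [5, 6, 7, 8,
    10, 20] [86, 76, 66, 54, 0, 0] [70, 60, 50, 40, 28, 0] 100000 60938 60938 1053126 23958 38021
    61458 85937 13542 2083 25000) (.L 3 3 [5, 6, 7, 8, 10, 20] [104, 104, 96, 86, 76, 66] [70, 60,
    50, 40, 28, 0] 100000 37500 37500 1100000 0 0 100000 50000 0 0 50000)) (.E 2))) (.S 4 6 (.S 4 3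
    (.L 4 4 [4, 5, 6, 7, 8, 20] [86, 76, 66, 54, 0, 0] [90, 82, 72, 62, 52, 40] 100000 100000
    100000 875000 25000 50000 100000 100000 0 0 0) (.L 4 4 [4, 5, 6, 7, 8, 20] [104, 104, 96, 86,
    76, 66] [90, 82, 72, 62, 52, 40] 100000 27500 27500 1100000 0 0 100000 50000 0 50000 10000))
    (.E 2)))) (.L 4 4 [4, 5, 6, 7, 8, 20] [104, 104, 96, 86, 76, 66] [] 100000 175000 8332 0 0 0
    266667 266667 0 0 0)) (.E 1))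

lemma s20_20_5_5_12 {n : ℕ} (hn : 5 ≤ n) : NoNd (d20_20_5_5.R : ℤ) d20_20_5_5.H n d20_20_5_5.a d20_20_5_5.b
    (BlkD.inB (BlkD.upd (BlkD.upd (BlkD.upd (fun _ => 0) 0 2) 1 5) 1 6)
      (BlkD.upd (BlkD.upd (BlkD.upd (BlkD.upd (BlkD.upd (BlkD.upd (BlkD.upd (BlkD.upd (fun _ => 20) 0 5) 2 5) 0 2) 1 18) 1 9) 1 7) 1 6) 2 2)) :=
  BlkD.tree_sound (BlkD.pairOk_sound k20_20_5_5) (by decide) hn t20_20_5_5_12 _ _ (by decide +kernel)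

/-- certificates of the pair `(5, 5)`, part 13 -/
def t20_20_5_5_13 : BlkD.Tr :=
  .S 2 4 (.S 2 3 (.S 3 9 (.S 3 4 (.S 3 2 (.L 6 6 [4, 4, 4, 5, 5, 20] [104, 104, 96, 86, 76, 66] []
    100000 23809 23808 1195838 8333 8333 70833 47619 29167 6548 33333) (.S 3 3 (.S 4 6 (.S 4 3 (.L
    6 6 [4, 4, 4, 5, 5, 20] [86, 76, 66, 54, 0, 0] [56, 46, 36, 24, 0, 0] 100000 23077 23076
    1192307 23077 0 69231 46154 38462 11538 15385) (.L 6 6 [4, 4, 4, 5, 5, 20] [104, 104, 96, 86,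
    76, 66] [56, 46, 36, 24, 0, 0] 100000 33824 33824 1100000 0 0 100000 58824 17647 14706 17647))
    (.E 2)) (.L 6 6 [4, 4, 4, 5, 5, 20] [104, 104, 96, 86, 76, 66] [78, 68, 58, 48, 36, 0] 100000
    27500 27500 1150000 0 0 100000 50000 0 50000 10000))) (.E 2)) (.E 1)) (.L 6 6 [4, 4, 4, 5, 5,
    20] [104, 104, 96, 86, 76, 66] [] 100000 21814 21814 1199510 10784 0 78922 31863 32843 12745
    33333)) (.L 6 6 [4, 4, 4, 5, 5, 20] [104, 104, 96, 86, 76, 66] [] 100000 32500 32500 1080000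
    20000 0 100000 30000 10000 70000 10000)

lemma s20_20_5_5_13 {n : ℕ} (hn : 5 ≤ n) : NoNd (d20_20_5_5.R : ℤ) d20_20_5_5.H n d20_20_5_5.a d20_20_5_5.b
    (BlkD.inB (BlkD.upd (BlkD.upd (BlkD.upd (BlkD.upd (fun _ => 0) 0 2) 1 5) 1 6) 2 3)
      (BlkD.upd (BlkD.upd (BlkD.upd (BlkD.upd (BlkD.upd (BlkD.upd (BlkD.upd (fun _ => 20) 0 5) 2 5) 0 2) 1 18) 1 9) 1 7) 1 6)) :=
  BlkD.tree_sound (BlkD.pairOk_sound k20_20_5_5) (by decide) hn t20_20_5_5_13 _ _ (by decide +kernel)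

/-- certificates of the pair `(5, 5)`, part 14 -/
def t20_20_5_5_14 : BlkD.Tr :=
  .L 6 6 [4, 4, 4, 5, 5, 20] [120, 120, 120, 112, 102, 92] [] 100000 41667 41667 1104169 25000 0
    100000 45833 0 4167 25000

lemma s20_20_5_5_14 {n : ℕ} (hn : 5 ≤ n) : NoNd (d20_20_5_5.R : ℤ) d20_20_5_5.H n d20_20_5_5.a d20_20_5_5.b
    (BlkD.inB (BlkD.upd (BlkD.upd (BlkD.upd (fun _ => 0) 0 2) 1 5) 1 7)
      (BlkD.upd (BlkD.upd (BlkD.upd (BlkD.upd (BlkD.upd (BlkD.upd (fun _ => 20) 0 5) 2 5) 0 2) 1 18) 1 9) 1 7)) :=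
  BlkD.tree_sound (BlkD.pairOk_sound k20_20_5_5) (by decide) hn t20_20_5_5_14 _ _ (by decide +kernel)

/-- certificates of the pair `(5, 5)`, part 15 -/
def t20_20_5_5_15 : BlkD.Tr :=
  .E 0

lemma s20_20_5_5_15 {n : ℕ} (hn : 5 ≤ n) : NoNd (d20_20_5_5.R : ℤ) d20_20_5_5.H n d20_20_5_5.a d20_20_5_5.b
    (BlkD.inB (BlkD.upd (BlkD.upd (BlkD.upd (fun _ => 0) 0 2) 1 5) 1 8)
      (BlkD.upd (BlkD.upd (BlkD.upd (BlkD.upd (BlkD.upd (fun _ => 20) 0 5) 2 5) 0 2) 1 18) 1 9)) :=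
  BlkD.tree_sound (BlkD.pairOk_sound k20_20_5_5) (by decide) hn t20_20_5_5_15 _ _ (by decide +kernel)

/-- certificates of the pair `(5, 5)`, part 16 -/
def t20_20_5_5_16 : BlkD.Tr :=
  .E 0

lemma s20_20_5_5_16 {n : ℕ} (hn : 5 ≤ n) : NoNd (d20_20_5_5.R : ℤ) d20_20_5_5.H n d20_20_5_5.a d20_20_5_5.b
    (BlkD.inB (BlkD.upd (BlkD.upd (fun _ => 0) 0 2) 1 10)
      (BlkD.upd (BlkD.upd (BlkD.upd (BlkD.upd (fun _ => 20) 0 5) 2 5) 0 2) 1 18)) :=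
  BlkD.tree_sound (BlkD.pairOk_sound k20_20_5_5) (by decide) hn t20_20_5_5_16 _ _ (by decide +kernel)

/-- certificates of the pair `(5, 5)`, part 17 -/
def t20_20_5_5_17 : BlkD.Tr :=
  .E 0

lemma s20_20_5_5_17 {n : ℕ} (hn : 5 ≤ n) : NoNd (d20_20_5_5.R : ℤ) d20_20_5_5.H n d20_20_5_5.a d20_20_5_5.b
    (BlkD.inB (BlkD.upd (BlkD.upd (fun _ => 0) 0 2) 1 19)
      (BlkD.upd (BlkD.upd (BlkD.upd (fun _ => 20) 0 5) 2 5) 0 2)) :=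
  BlkD.tree_sound (BlkD.pairOk_sound k20_20_5_5) (by decide) hn t20_20_5_5_17 _ _ (by decide +kernel)

/-- certificates of the pair `(5, 5)`, part 18 -/
def t20_20_5_5_18 : BlkD.Tr :=
  .S 1 1 (.L 6 6 [4, 4, 4, 5, 5, 20] [] [] 100000 29167 29167 1116669 0 0 0 83333 0 16667 50000)
    (.S 2 2 (.S 2 1 (.L 6 6 [4, 4, 4, 5, 5, 20] [36, 26, 14, 0, 0, 0] [] 100000 53290 53290 1026317
    0 68421 36842 78947 0 0 18421) (.S 3 13 (.S 3 6 (.S 3 3 (.L 6 6 [4, 4, 4, 5, 5, 20] [36, 26,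
    14, 0, 0, 0] [] 100000 37500 37500 1000000 0 0 0 0 0 0 50000) (.S 3 5 (.S 3 4 (.L 6 6 [4, 4, 4,
    5, 5, 20] [36, 26, 14, 0, 0, 0] [70, 60, 50, 40, 28, 0] 100000 37500 37500 1100000 0 0 0 0 0 0
    50000) (.L 6 6 [4, 4, 4, 5, 5, 20] [36, 26, 14, 0, 0, 0] [90, 82, 72, 62, 52, 40] 100000 28786
    28786 1184003 12000 12000 68571 58000 9429 20000 26000)) (.L 6 6 [4, 4, 4, 5, 5, 20] [36, 26,
    14, 0, 0, 0] [104, 104, 96, 86, 76, 66] 100000 23809 23808 1195838 8333 8333 47619 70833 6548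
    29167 33333))) (.L 6 6 [4, 4, 4, 5, 5, 20] [36, 26, 14, 0, 0, 0] [] 100000 29762 29762 1100001
    0 0 42857 100000 7143 33333 33333)) (.E 1))) (.S 2 4 (.S 2 3 (.S 3 12 (.S 3 6 (.S 3 3 (.L 6 6
    [4, 4, 4, 5, 5, 20] [36, 26, 14, 0, 0, 0] [] 100000 28316 28316 1128576 0 0 24490 57143 4082
    14286 50000) (.L 6 6 [4, 4, 4, 5, 5, 20] [36, 26, 14, 0, 0, 0] [] 100000 23214 23213 1203617
    12169 1764 55026 70282 7143 28836 35185)) (.E 1)) (.E 1)) (.L 6 6 [4, 4, 4, 5, 5, 20] [36, 26,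
    14, 0, 0, 0] [] 100000 22500 22500 1180000 20000 0 80000 50000 10000 30000 30000)) (.L 6 6 [4,
    4, 4, 5, 5, 20] [36, 26, 14, 0, 0, 0] [] 100000 22619 22619 1123811 38095 0 95238 9524 9524
    66667 33333)))

lemma s20_20_5_5_18 {n : ℕ} (hn : 5 ≤ n) : NoNd (d20_20_5_5.R : ℤ) d20_20_5_5.H n d20_20_5_5.a d20_20_5_5.b
    (BlkD.inB (BlkD.upd (fun _ => 0) 0 3)
      (BlkD.upd (BlkD.upd (BlkD.upd (BlkD.upd (BlkD.upd (BlkD.upd (BlkD.upd (BlkD.upd (fun _ => 20) 0 5) 2 5) 0 4) 0 3) 1 17) 1 8) 1 4) 1 2)) :=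
  BlkD.tree_sound (BlkD.pairOk_sound k20_20_5_5) (by decide) hn t20_20_5_5_18 _ _ (by decide +kernel)

/-- certificates of the pair `(5, 5)`, part 19 -/
def t20_20_5_5_19 : BlkD.Tr :=
  .S 2 1 (.L 6 6 [4, 4, 4, 5, 5, 20] [56, 46, 36, 24, 0, 0] [] 100000 62500 62500 987500 0 75000
    50000 87500 0 0 25000) (.S 3 12 (.S 3 6 (.S 3 3 (.L 6 6 [4, 4, 4, 5, 5, 20] [56, 46, 36, 24, 0,
    0] [] 100000 24824 24824 1139438 0 352 79930 34155 19894 5634 49648) (.S 3 5 (.S 3 4 (.L 6 6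
    [4, 4, 4, 5, 5, 20] [56, 46, 36, 24, 0, 0] [70, 60, 50, 40, 28, 0] 100000 28334 28334 1179999
    6667 16667 56667 66667 20000 10000 26667) (.S 4 3 (.S 4 1 (.L 6 6 [4, 4, 4, 5, 5, 20] [36, 24,
    0, 0, 0, 0] [90, 82, 72, 62, 52, 40] 100000 18215 18215 1221212 10277 17128 34519 59025 27668
    27141 24111) (.L 6 6 [4, 4, 4, 5, 5, 20] [56, 46, 36, 24, 0, 0] [90, 82, 72, 62, 52, 40] 100000
    33872 33872 1132257 6452 6452 87097 61290 0 25806 12903)) (.E 2))) (.S 4 3 (.S 4 1 (.L 6 6 [4,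
    4, 4, 5, 5, 20] [36, 24, 0, 0, 0, 0] [104, 104, 96, 86, 76, 66] 100000 25000 24999 1163636 9091
    9091 9091 100000 45455 0 45455) (.L 6 6 [4, 4, 4, 5, 5, 20] [56, 46, 36, 24, 0, 0] [104, 104,
    96, 86, 76, 66] 100000 30000 29999 1146669 0 0 100000 53333 13333 26667 13333)) (.E 2)))) (.L 6
    6 [4, 4, 4, 5, 5, 20] [56, 46, 36, 24, 0, 0] [] 100000 50000 50000 1000000 0 0 100000 100000 0
    0 0)) (.E 1))

lemma s20_20_5_5_19 {n : ℕ} (hn : 5 ≤ n) : NoNd (d20_20_5_5.R : ℤ) d20_20_5_5.H n d20_20_5_5.a d20_20_5_5.b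
    (BlkD.inB (BlkD.upd (BlkD.upd (fun _ => 0) 0 3) 1 3)
      (BlkD.upd (BlkD.upd (BlkD.upd (BlkD.upd (BlkD.upd (BlkD.upd (BlkD.upd (BlkD.upd (BlkD.upd (fun _ => 20) 0 5) 2 5) 0 4) 0 3) 1 17) 1 8) 1 4) 1 3) 2 2)) :=
  BlkD.tree_sound (BlkD.pairOk_sound k20_20_5_5) (by decide) hn t20_20_5_5_19 _ _ (by decide +kernel)

/-- certificates of the pair `(5, 5)`, part 20 -/
def t20_20_5_5_20 : BlkD.Tr :=
  .S 2 4 (.S 2 3 (.S 3 11 (.S 3 5 (.S 3 2 (.L 6 6 [4, 4, 4, 5, 5, 20] [56, 46, 36, 24, 0, 0] []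
    100000 25000 25000 1138892 0 0 77778 33333 19444 5556 50000) (.S 3 4 (.S 3 3 (.L 6 6 [4, 4, 4,
    5, 5, 20] [56, 46, 36, 24, 0, 0] [56, 46, 36, 24, 0, 0] 100000 19186 19185 1204652 9302 9302
    56977 56977 23256 23256 30233) (.S 4 3 (.S 4 1 (.S 4 0 (.L 6 6 [4, 4, 4, 5, 5, 20] [24, 0, 0,
    0, 0, 0] [78, 68, 58, 48, 36, 0] 100000 15323 15323 1222583 0 25806 0 77419 48387 38710 45161)
    (.L 6 6 [4, 4, 4, 5, 5, 20] [36, 24, 0, 0, 0, 0] [78, 68, 58, 48, 36, 0] 100000 20732 20731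
    1203658 15854 15854 48780 54878 39024 17073 28049)) (.L 6 6 [4, 4, 4, 5, 5, 20] [56, 46, 36,
    24, 0, 0] [78, 68, 58, 48, 36, 0] 100000 34375 34375 1100000 0 0 100000 50000 0 12500 37500))
    (.E 2))) (.S 4 3 (.S 4 1 (.L 6 6 [4, 4, 4, 5, 5, 20] [36, 24, 0, 0, 0, 0] [100, 92, 82, 72, 62,
    50] 100000 25000 24999 1149999 16667 0 16667 100000 50000 0 50000) (.L 6 6 [4, 4, 4, 5, 5, 20]
    [56, 46, 36, 24, 0, 0] [100, 92, 82, 72, 62, 50] 100000 25000 25000 1150000 20000 0 100000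
    30000 20000 40000 20000)) (.E 2)))) (.E 1)) (.E 1)) (.S 3 10 (.S 3 5 (.S 3 2 (.L 6 6 [4, 4, 4,
    5, 5, 20] [56, 46, 36, 24, 0, 0] [] 100000 20625 20625 1200000 0 17500 72500 35000 25000 17500
    32500) (.L 6 6 [4, 4, 4, 5, 5, 20] [56, 46, 36, 24, 0, 0] [] 100000 18617 18617 1223406 25532 0
    59574 51064 25532 38298 27660)) (.E 1)) (.E 1))) (.L 6 6 [4, 4, 4, 5, 5, 20] [56, 46, 36, 24,
    0, 0] [] 100000 20271 20271 1172973 27027 0 67568 45946 18919 40541 27027)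

lemma s20_20_5_5_20 {n : ℕ} (hn : 5 ≤ n) : NoNd (d20_20_5_5.R : ℤ) d20_20_5_5.H n d20_20_5_5.a d20_20_5_5.b
    (BlkD.inB (BlkD.upd (BlkD.upd (BlkD.upd (fun _ => 0) 0 3) 1 3) 2 3)
      (BlkD.upd (BlkD.upd (BlkD.upd (BlkD.upd (BlkD.upd (BlkD.upd (BlkD.upd (BlkD.upd (fun _ => 20) 0 5) 2 5) 0 4) 0 3) 1 17) 1 8) 1 4) 1 3)) :=
  BlkD.tree_sound (BlkD.pairOk_sound k20_20_5_5) (by decide) hn t20_20_5_5_20 _ _ (by decide +kernel)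

/-- certificates of the pair `(5, 5)`, part 21 -/
def t20_20_5_5_21 : BlkD.Tr :=
  .S 2 1 (.L 6 6 [4, 4, 4, 5, 5, 20] [78, 68, 58, 48, 36, 0] [] 100000 66250 66250 980000 0 80000
    50000 90000 0 0 25000) (.S 3 11 (.S 3 5 (.S 3 2 (.L 6 6 [4, 4, 4, 5, 5, 20] [78, 68, 58, 48,
    36, 0] [] 100000 25000 25000 1100000 0 0 62500 0 25000 0 50000) (.S 3 4 (.S 3 3 (.L 6 6 [4, 4,
    4, 5, 5, 20] [78, 68, 58, 48, 36, 0] [50, 40, 30, 18, 0, 0] 100000 24264 24264 1184824 7424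
    7424 68559 50328 25873 7096 37009) (.S 4 4 (.S 4 2 (.L 3 3 [5, 6, 7, 8, 10, 20] [58, 48, 36, 0,
    0, 0] [70, 60, 50, 40, 28, 0] 100000 45536 45536 1112503 0 50000 37500 91071 37500 8929 25000)
    (.L 3 3 [5, 6, 7, 8, 10, 20] [78, 68, 58, 48, 36, 0] [70, 60, 50, 40, 28, 0] 100000 37500 37500
    1100000 0 0 100000 50000 0 0 50000)) (.E 2))) (.S 4 4 (.S 4 2 (.L 3 3 [5, 6, 7, 8, 10, 20] [58,
    48, 36, 0, 0, 0] [90, 82, 72, 62, 52, 40] 100000 28410 28410 1181818 0 36364 36364 54545 36364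
    36364 22727) (.L 3 3 [5, 6, 7, 8, 10, 20] [78, 68, 58, 48, 36, 0] [90, 82, 72, 62, 52, 40]
    100000 30000 29999 1146669 0 0 100000 53333 13333 26667 13333)) (.E 2)))) (.L 3 3 [5, 6, 7, 8,
    10, 20] [78, 68, 58, 48, 36, 0] [] 100000 27500 27500 1150000 0 0 50000 100000 50000 0 10000))
    (.E 1))

lemma s20_20_5_5_21 {n : ℕ} (hn : 5 ≤ n) : NoNd (d20_20_5_5.R : ℤ) d20_20_5_5.H n d20_20_5_5.a d20_20_5_5.b
    (BlkD.inB (BlkD.upd (BlkD.upd (BlkD.upd (fun _ => 0) 0 3) 1 3) 1 4)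
      (BlkD.upd (BlkD.upd (BlkD.upd (BlkD.upd (BlkD.upd (BlkD.upd (BlkD.upd (BlkD.upd (fun _ => 20) 0 5) 2 5) 0 4) 0 3) 1 17) 1 8) 1 4) 2 2)) :=
  BlkD.tree_sound (BlkD.pairOk_sound k20_20_5_5) (by decide) hn t20_20_5_5_21 _ _ (by decide +kernel)

/-- certificates of the pair `(5, 5)`, part 22 -/
def t20_20_5_5_22 : BlkD.Tr :=
  .S 2 4 (.S 2 3 (.S 3 10 (.S 3 5 (.S 3 2 (.L 3 3 [5, 6, 7, 8, 10, 20] [78, 68, 58, 48, 36, 0] []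
    100000 22597 22597 1200000 0 4808 62500 57692 25000 9615 50000) (.S 3 4 (.S 3 3 (.S 4 4 (.S 4 2
    (.S 4 1 (.S 4 0 (.E 2) (.S 5 3 (.S 5 1 (.L 6 6 [4, 4, 4, 5, 5, 20] [48, 36, 0, 0, 0, 0] [36,
    24, 0, 0, 0, 0] 100000 16667 16667 1216668 25000 8333 58333 41667 33333 33333 33333) (.L 6 6
    [4, 4, 4, 5, 5, 20] [48, 36, 0, 0, 0, 0] [56, 46, 36, 24, 0, 0] 100000 25544 23370 1091304 4348
    4348 0 102174 39130 0 19565)) (.E 2))) (.L 6 6 [4, 4, 4, 5, 5, 20] [58, 48, 36, 0, 0, 0] [56,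
    46, 36, 24, 0, 0] 100000 23077 23076 1192308 23077 0 61538 46154 38462 7692 30769)) (.L 6 6 [4,
    4, 4, 5, 5, 20] [78, 68, 58, 48, 36, 0] [56, 46, 36, 24, 0, 0] 100000 34375 34375 1100000 0 0
    100000 50000 0 12500 37500)) (.E 2)) (.S 4 4 (.S 4 2 (.L 6 6 [4, 4, 4, 5, 5, 20] [58, 48, 36,
    0, 0, 0] [78, 68, 58, 48, 36, 0] 100000 14674 14674 1232609 13768 10145 44203 51449 41304 41304
    19565) (.L 6 6 [4, 4, 4, 5, 5, 20] [78, 68, 58, 48, 36, 0] [78, 68, 58, 48, 36, 0] 100000 31250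
    31250 1100000 0 0 100000 50000 25000 12500 25000)) (.E 2))) (.L 6 6 [4, 4, 4, 5, 5, 20] [78,
    68, 58, 48, 36, 0] [100, 92, 82, 72, 62, 50] 100000 50000 50000 1000000 0 0 100000 100000 0 0
    0))) (.E 1)) (.E 1)) (.S 3 9 (.S 3 4 (.S 3 2 (.S 3 1 (.L 6 6 [4, 4, 4, 5, 5, 20] [78, 68, 58,
    48, 36, 0] [] 100000 21286 21286 1204000 10857 10857 71429 10857 28571 14857 30286) (.L 6 6 [4,
    4, 4, 5, 5, 20] [78, 68, 58, 48, 36, 0] [40, 30, 18, 0, 0, 0] 100000 20455 20455 1209093 18182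
    18182 54545 54545 18182 36364 27273)) (.S 3 3 (.L 6 6 [4, 4, 4, 5, 5, 20] [78, 68, 58, 48, 36,
    0] [62, 52, 42, 30, 0, 0] 100000 18750 18750 1224108 11607 16071 58036 50893 25000 41071 17857)
    (.L 6 6 [4, 4, 4, 5, 5, 20] [78, 68, 58, 48, 36, 0] [86, 76, 66, 56, 44, 0] 100000 160000 0 0 0
    0 240000 260000 0 0 0))) (.E 1)) (.E 1))) (.L 6 6 [4, 4, 4, 5, 5, 20] [78, 68, 58, 48, 36, 0]
    [] 100000 14881 14881 1194048 16667 0 55952 50000 40476 50000 14286)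

lemma s20_20_5_5_22 {n : ℕ} (hn : 5 ≤ n) : NoNd (d20_20_5_5.R : ℤ) d20_20_5_5.H n d20_20_5_5.a d20_20_5_5.b
    (BlkD.inB (BlkD.upd (BlkD.upd (BlkD.upd (BlkD.upd (fun _ => 0) 0 3) 1 3) 1 4) 2 3)
      (BlkD.upd (BlkD.upd (BlkD.upd (BlkD.upd (BlkD.upd (BlkD.upd (BlkD.upd (fun _ => 20) 0 5) 2 5) 0 4) 0 3) 1 17) 1 8) 1 4)) :=
  BlkD.tree_sound (BlkD.pairOk_sound k20_20_5_5) (by decide) hn t20_20_5_5_22 _ _ (by decide +kernel)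

/-- certificates of the pair `(5, 5)`, part 23 -/
def t20_20_5_5_23 : BlkD.Tr :=
  .S 2 1 (.L 6 6 [4, 4, 4, 5, 5, 20] [100, 92, 82, 72, 62, 50] [] 100000 100000 100000 800000 0
    100000 100000 100000 0 0 0) (.S 3 10 (.S 3 5 (.S 3 2 (.L 6 6 [4, 4, 4, 5, 5, 20] [100, 92, 82,
    72, 62, 50] [] 100000 25001 25001 1099999 0 16667 66667 16667 33333 0 33333) (.S 3 4 (.S 3 3
    (.L 6 6 [4, 4, 4, 5, 5, 20] [100, 92, 82, 72, 62, 50] [50, 40, 30, 18, 0, 0] 100000 23334 23334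
    1168891 0 26667 51111 68889 48889 6667 24444) (.S 4 5 (.S 4 2 (.E 2) (.S 4 4 (.S 4 3 (.L 5 5
    [4, 4, 5, 5, 6, 20] [82, 72, 62, 50, 0, 0] [70, 60, 50, 40, 28, 0] 100000 58553 58553 1063158
    19298 50000 49123 88596 11404 1754 20175) (.L 5 5 [4, 4, 5, 5, 6, 20] [92, 82, 72, 62, 50, 0]
    [70, 60, 50, 40, 28, 0] 100000 33334 33334 1100000 0 0 100000 50000 33333 0 33333)) (.L 5 5 [4,
    4, 5, 5, 6, 20] [100, 92, 82, 72, 62, 50] [70, 60, 50, 40, 28, 0] 100000 72728 1 690910 0 9091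
    172727 90909 0 0 0))) (.E 2))) (.S 4 5 (.S 4 2 (.E 2) (.S 4 4 (.S 4 3 (.S 5 5 (.S 5 2 (.L 6 6
    [4, 4, 4, 5, 5, 20] [82, 72, 62, 50, 0, 0] [62, 52, 40, 0, 0, 0] 100000 56250 56250 1050000 0
    50000 50000 100000 0 0 25000) (.L 6 6 [4, 4, 4, 5, 5, 20] [82, 72, 62, 50, 0, 0] [90, 82, 72,
    62, 52, 40] 100000 50000 50000 1000000 0 0 100000 100000 0 0 0)) (.E 2)) (.L 6 6 [4, 4, 4, 5,
    5, 20] [92, 82, 72, 62, 50, 0] [90, 82, 72, 62, 52, 40] 100000 50000 50000 1000000 0 0 100000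
    100000 0 0 0)) (.L 6 6 [4, 4, 4, 5, 5, 20] [100, 92, 82, 72, 62, 50] [90, 82, 72, 62, 52, 40]
    100000 171429 0 0 0 0 271429 207143 0 0 0))) (.E 2)))) (.E 2)) (.E 1))

lemma s20_20_5_5_23 {n : ℕ} (hn : 5 ≤ n) : NoNd (d20_20_5_5.R : ℤ) d20_20_5_5.H n d20_20_5_5.a d20_20_5_5.b
    (BlkD.inB (BlkD.upd (BlkD.upd (fun _ => 0) 0 3) 1 5)
      (BlkD.upd (BlkD.upd (BlkD.upd (BlkD.upd (BlkD.upd (BlkD.upd (BlkD.upd (BlkD.upd (BlkD.upd (fun _ => 20) 0 5) 2 5) 0 4) 0 3) 1 17) 1 8) 1 6) 1 5) 2 2)) :=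
  BlkD.tree_sound (BlkD.pairOk_sound k20_20_5_5) (by decide) hn t20_20_5_5_23 _ _ (by decide +kernel)

/-- certificates of the pair `(5, 5)`, part 24 -/
def t20_20_5_5_24 : BlkD.Tr :=
  .S 2 4 (.S 2 3 (.S 3 9 (.S 3 4 (.S 3 2 (.L 6 6 [4, 4, 4, 5, 5, 20] [100, 92, 82, 72, 62, 50] []
    100000 22826 22825 1191306 0 28261 52174 80435 47826 8696 26087) (.S 3 3 (.S 4 5 (.S 4 2 (.E 2)
    (.S 4 4 (.S 4 3 (.L 6 6 [4, 4, 4, 5, 5, 20] [82, 72, 62, 50, 0, 0] [56, 46, 36, 24, 0, 0]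
    100000 35000 35000 1157500 17500 27500 62500 62500 20000 6250 27500) (.L 6 6 [4, 4, 4, 5, 5,
    20] [92, 82, 72, 62, 50, 0] [56, 46, 36, 24, 0, 0] 100000 31250 31250 1100000 0 0 100000 50000
    25000 12500 25000)) (.L 6 6 [4, 4, 4, 5, 5, 20] [100, 92, 82, 72, 62, 50] [56, 46, 36, 24, 0,
    0] 100000 66667 0 733333 0 0 166667 83333 0 0 0))) (.E 2)) (.L 6 6 [4, 4, 4, 5, 5, 20] [100,
    92, 82, 72, 62, 50] [78, 68, 58, 48, 36, 0] 100000 50000 50000 1000000 0 0 100000 100000 0 0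
    0))) (.E 2)) (.E 1)) (.L 6 6 [4, 4, 4, 5, 5, 20] [100, 92, 82, 72, 62, 50] [] 100000 22015
    22014 1201119 8209 0 82463 33955 39925 11940 30597)) (.L 6 6 [4, 4, 4, 5, 5, 20] [100, 92, 82,
    72, 62, 50] [] 100000 25000 25000 1100000 0 0 100000 0 0 40000 20000)

lemma s20_20_5_5_24 {n : ℕ} (hn : 5 ≤ n) : NoNd (d20_20_5_5.R : ℤ) d20_20_5_5.H n d20_20_5_5.a d20_20_5_5.b
    (BlkD.inB (BlkD.upd (BlkD.upd (BlkD.upd (fun _ => 0) 0 3) 1 5) 2 3)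
      (BlkD.upd (BlkD.upd (BlkD.upd (BlkD.upd (BlkD.upd (BlkD.upd (BlkD.upd (BlkD.upd (fun _ => 20) 0 5) 2 5) 0 4) 0 3) 1 17) 1 8) 1 6) 1 5)) :=
  BlkD.tree_sound (BlkD.pairOk_sound k20_20_5_5) (by decide) hn t20_20_5_5_24 _ _ (by decide +kernel)

/-- certificates of the pair `(5, 5)`, part 25 -/
def t20_20_5_5_25 : BlkD.Tr :=
  .E 0

lemma s20_20_5_5_25 {n : ℕ} (hn : 5 ≤ n) : NoNd (d20_20_5_5.R : ℤ) d20_20_5_5.H n d20_20_5_5.a d20_20_5_5.b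
    (BlkD.inB (BlkD.upd (BlkD.upd (BlkD.upd (fun _ => 0) 0 3) 1 5) 1 6)
      (BlkD.upd (BlkD.upd (BlkD.upd (BlkD.upd (BlkD.upd (BlkD.upd (BlkD.upd (fun _ => 20) 0 5) 2 5) 0 4) 0 3) 1 17) 1 8) 1 6)) :=
  BlkD.tree_sound (BlkD.pairOk_sound k20_20_5_5) (by decide) hn t20_20_5_5_25 _ _ (by decide +kernel)

/-- certificates of the pair `(5, 5)`, part 26 -/
def t20_20_5_5_26 : BlkD.Tr :=
  .E 0

lemma s20_20_5_5_26 {n : ℕ} (hn : 5 ≤ n) : NoNd (d20_20_5_5.R : ℤ) d20_20_5_5.H n d20_20_5_5.a d20_20_5_5.b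
    (BlkD.inB (BlkD.upd (BlkD.upd (BlkD.upd (fun _ => 0) 0 3) 1 5) 1 7)
      (BlkD.upd (BlkD.upd (BlkD.upd (BlkD.upd (BlkD.upd (BlkD.upd (fun _ => 20) 0 5) 2 5) 0 4) 0 3) 1 17) 1 8)) :=
  BlkD.tree_sound (BlkD.pairOk_sound k20_20_5_5) (by decide) hn t20_20_5_5_26 _ _ (by decide +kernel)

/-- certificates of the pair `(5, 5)`, part 27 -/
def t20_20_5_5_27 : BlkD.Tr :=
  .E 0

lemma s20_20_5_5_27 {n : ℕ} (hn : 5 ≤ n) : NoNd (d20_20_5_5.R : ℤ) d20_20_5_5.H n d20_20_5_5.a d20_20_5_5.b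
    (BlkD.inB (BlkD.upd (BlkD.upd (fun _ => 0) 0 3) 1 9)
      (BlkD.upd (BlkD.upd (BlkD.upd (BlkD.upd (BlkD.upd (fun _ => 20) 0 5) 2 5) 0 4) 0 3) 1 17)) :=
  BlkD.tree_sound (BlkD.pairOk_sound k20_20_5_5) (by decide) hn t20_20_5_5_27 _ _ (by decide +kernel)

/-- certificates of the pair `(5, 5)`, part 28 -/
def t20_20_5_5_28 : BlkD.Tr :=
  .E 0

lemma s20_20_5_5_28 {n : ℕ} (hn : 5 ≤ n) : NoNd (d20_20_5_5.R : ℤ) d20_20_5_5.H n d20_20_5_5.a d20_20_5_5.b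
    (BlkD.inB (BlkD.upd (BlkD.upd (fun _ => 0) 0 3) 1 18)
      (BlkD.upd (BlkD.upd (BlkD.upd (BlkD.upd (fun _ => 20) 0 5) 2 5) 0 4) 0 3)) :=
  BlkD.tree_sound (BlkD.pairOk_sound k20_20_5_5) (by decide) hn t20_20_5_5_28 _ _ (by decide +kernel)

/-- certificates of the pair `(5, 5)`, part 29 -/
def t20_20_5_5_29 : BlkD.Tr :=
  .S 1 1 (.S 1 0 (.L 6 6 [4, 4, 4, 5, 5, 20] [0, 0, 0, 0, 0, 0] [] 100000 29167 29167 1116669 0 0 0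
    83333 0 16667 50000) (.S 2 2 (.L 6 6 [4, 4, 4, 5, 5, 20] [20, 8, 0, 0, 0, 0] [] 100000 23215
    23215 1187501 0 23214 1786 66071 28571 12500 25000) (.L 6 6 [4, 4, 4, 5, 5, 20] [20, 8, 0, 0,
    0, 0] [] 100000 18967 18967 1217242 10345 6897 17241 58621 24138 24138 27586))) (.S 2 2 (.S 2 1
    (.L 6 6 [4, 4, 4, 5, 5, 20] [40, 30, 18, 0, 0, 0] [] 100000 75000 75000 900000 0 100000 0
    100000 0 0 0) (.S 3 12 (.S 3 6 (.S 3 3 (.L 6 6 [4, 4, 4, 5, 5, 20] [40, 30, 18, 0, 0, 0] []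
    100000 23438 23438 1143750 0 3125 23437 40625 23437 6250 46875) (.S 3 5 (.S 3 4 (.L 6 6 [4, 4,
    4, 5, 5, 20] [40, 30, 18, 0, 0, 0] [70, 60, 50, 40, 28, 0] 100000 22222 22221 1188890 0 20370
    31481 77778 29630 11111 29630) (.L 6 6 [4, 4, 4, 5, 5, 20] [40, 30, 18, 0, 0, 0] [90, 82, 72,
    62, 52, 40] 100000 20196 20195 1216726 0 27758 36299 53381 36299 19217 18149)) (.L 6 6 [4, 4,
    4, 5, 5, 20] [40, 30, 18, 0, 0, 0] [104, 104, 96, 86, 76, 66] 100000 25000 25000 1154546 3030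
    3030 39394 100000 63636 758 12121))) (.E 2)) (.E 1))) (.S 2 4 (.S 2 3 (.S 3 11 (.S 3 5 (.S 3 2
    (.L 6 6 [4, 4, 4, 5, 5, 20] [40, 30, 18, 0, 0, 0] [] 100000 25000 25000 1138892 0 0 19444 33333
    19444 5556 50000) (.S 3 4 (.L 6 6 [4, 4, 4, 5, 5, 20] [40, 30, 18, 0, 0, 0] [] 100000 18270
    18270 1224359 12821 12821 50000 61111 37179 26923 25214) (.L 6 6 [4, 4, 4, 5, 5, 20] [40, 30,
    18, 0, 0, 0] [100, 92, 82, 72, 62, 50] 100000 25000 25000 1150000 10000 0 40000 100000 40000 0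
    20000))) (.E 1)) (.E 1)) (.L 6 6 [4, 4, 4, 5, 5, 20] [40, 30, 18, 0, 0, 0] [] 100000 19898
    19897 1200000 24490 0 75510 51020 28571 20408 26531)) (.L 6 6 [4, 4, 4, 5, 5, 20] [40, 30, 18,
    0, 0, 0] [] 100000 12500 12499 1150000 33333 0 66667 50000 50000 50000 16667)))

lemma s20_20_5_5_29 {n : ℕ} (hn : 5 ≤ n) : NoNd (d20_20_5_5.R : ℤ) d20_20_5_5.H n d20_20_5_5.a d20_20_5_5.b
    (BlkD.inB (BlkD.upd (BlkD.upd (fun _ => 0) 0 3) 0 4)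
      (BlkD.upd (BlkD.upd (BlkD.upd (BlkD.upd (BlkD.upd (BlkD.upd (BlkD.upd (fun _ => 20) 0 5) 2 5) 0 4) 1 16) 1 8) 1 4) 1 2)) :=
  BlkD.tree_sound (BlkD.pairOk_sound k20_20_5_5) (by decide) hn t20_20_5_5_29 _ _ (by decide +kernel)

/-- certificates of the pair `(5, 5)`, part 30 -/
def t20_20_5_5_30 : BlkD.Tr :=
  .S 1 3 (.S 2 2 (.S 2 1 (.L 6 6 [4, 4, 4, 5, 5, 20] [62, 52, 42, 30, 0, 0] [] 100000 75000 75000
    900000 0 100000 50000 100000 50000 0 0) (.S 3 11 (.S 3 5 (.S 3 2 (.L 6 6 [4, 4, 4, 5, 5, 20]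
    [62, 52, 42, 30, 0, 0] [] 100000 25000 25000 1100000 0 0 40000 0 40000 0 20000) (.S 3 4 (.L 6 6
    [4, 4, 4, 5, 5, 20] [62, 52, 42, 30, 0, 0] [] 100000 22750 22750 1208000 0 23000 46000 64000
    37000 9000 25000) (.L 4 4 [4, 5, 6, 7, 8, 20] [62, 52, 42, 30, 0, 0] [90, 82, 72, 62, 52, 40]
    100000 38262 38262 1145372 0 42438 42438 63657 38939 15914 13544))) (.L 4 4 [4, 5, 6, 7, 8, 20]
    [62, 52, 42, 30, 0, 0] [] 100000 32000 32000 1126000 0 14000 32000 100000 68000 0 8000)) (.E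
    1))) (.S 2 4 (.S 2 3 (.S 3 10 (.S 3 5 (.S 3 2 (.L 4 4 [4, 5, 6, 7, 8, 20] [62, 52, 42, 30, 0,
    0] [] 100000 21429 21429 1200002 0 7143 46429 85714 40000 14286 20000) (.S 3 4 (.S 3 3 (.L 6 6
    [4, 4, 4, 5, 5, 20] [62, 52, 42, 30, 0, 0] [56, 46, 36, 24, 0, 0] 100000 19231 19231 1219232
    11538 19231 50000 57692 38462 23077 30769) (.L 6 6 [4, 4, 4, 5, 5, 20] [62, 52, 42, 30, 0, 0]
    [78, 68, 58, 48, 36, 0] 100000 18750 18750 1224108 16071 11607 50893 58036 41071 25000 17857))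
    (.E 2))) (.E 1)) (.E 1)) (.S 3 9 (.S 3 4 (.S 3 2 (.L 6 6 [4, 4, 4, 5, 5, 20] [62, 52, 42, 30,
    0, 0] [] 100000 21591 21591 1195455 4545 25455 53636 74545 46364 13636 25455) (.S 3 3 (.L 8 8
    [5, 5, 4, 3, 4, 20] [62, 52, 42, 30, 0, 0] [62, 52, 42, 30, 0, 0] 100000 3290 3290 1268420
    13158 13158 39474 39474 86842 86842 28947) (.E 2))) (.E 1)) (.E 1))) (.L 8 8 [5, 5, 4, 3, 4,
    20] [62, 52, 42, 30, 0, 0] [] 100000 6250 6250 1237500 25000 0 62500 25000 75000 75000 25000)))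
    (.L 8 8 [5, 5, 4, 3, 4, 20] [86, 76, 66, 56, 44, 0] [] 100000 29167 29167 1158333 0 0 100000
    41667 33333 8333 33333)

lemma s20_20_5_5_30 {n : ℕ} (hn : 5 ≤ n) : NoNd (d20_20_5_5.R : ℤ) d20_20_5_5.H n d20_20_5_5.a d20_20_5_5.b
    (BlkD.inB (BlkD.upd (BlkD.upd (BlkD.upd (fun _ => 0) 0 3) 0 4) 1 3)
      (BlkD.upd (BlkD.upd (BlkD.upd (BlkD.upd (BlkD.upd (BlkD.upd (fun _ => 20) 0 5) 2 5) 0 4) 1 16) 1 8) 1 4)) :=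
  BlkD.tree_sound (BlkD.pairOk_sound k20_20_5_5) (by decide) hn t20_20_5_5_30 _ _ (by decide +kernel)

/-- certificates of the pair `(5, 5)`, part 31 -/
def t20_20_5_5_31 : BlkD.Tr :=
  .E 0

lemma s20_20_5_5_31 {n : ℕ} (hn : 5 ≤ n) : NoNd (d20_20_5_5.R : ℤ) d20_20_5_5.H n d20_20_5_5.a d20_20_5_5.b
    (BlkD.inB (BlkD.upd (BlkD.upd (BlkD.upd (fun _ => 0) 0 3) 0 4) 1 5)
      (BlkD.upd (BlkD.upd (BlkD.upd (BlkD.upd (BlkD.upd (fun _ => 20) 0 5) 2 5) 0 4) 1 16) 1 8)) :=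
  BlkD.tree_sound (BlkD.pairOk_sound k20_20_5_5) (by decide) hn t20_20_5_5_31 _ _ (by decide +kernel)

/-- certificates of the pair `(5, 5)`, part 32 -/
def t20_20_5_5_32 : BlkD.Tr :=
  .E 0

lemma s20_20_5_5_32 {n : ℕ} (hn : 5 ≤ n) : NoNd (d20_20_5_5.R : ℤ) d20_20_5_5.H n d20_20_5_5.a d20_20_5_5.b
    (BlkD.inB (BlkD.upd (BlkD.upd (BlkD.upd (fun _ => 0) 0 3) 0 4) 1 9)
      (BlkD.upd (BlkD.upd (BlkD.upd (BlkD.upd (fun _ => 20) 0 5) 2 5) 0 4) 1 16)) :=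
  BlkD.tree_sound (BlkD.pairOk_sound k20_20_5_5) (by decide) hn t20_20_5_5_32 _ _ (by decide +kernel)

/-- certificates of the pair `(5, 5)`, part 33 -/
def t20_20_5_5_33 : BlkD.Tr :=
  .E 0

lemma s20_20_5_5_33 {n : ℕ} (hn : 5 ≤ n) : NoNd (d20_20_5_5.R : ℤ) d20_20_5_5.H n d20_20_5_5.a d20_20_5_5.b
    (BlkD.inB (BlkD.upd (BlkD.upd (BlkD.upd (fun _ => 0) 0 3) 0 4) 1 17)
      (BlkD.upd (BlkD.upd (BlkD.upd (fun _ => 20) 0 5) 2 5) 0 4)) :=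
  BlkD.tree_sound (BlkD.pairOk_sound k20_20_5_5) (by decide) hn t20_20_5_5_33 _ _ (by decide +kernel)

/-- certificates of the pair `(5, 5)`, part 34 -/
def t20_20_5_5_34 : BlkD.Tr :=
  .S 1 15 (.S 1 7 (.S 1 3 (.S 1 1 (.L 6 6 [4, 4, 4, 5, 5, 20] [] [] 100000 17620 17620 1226380
    44094 5906 55906 60630 44094 29528 34252) (.S 1 2 (.S 2 2 (.L 6 6 [4, 4, 4, 5, 5, 20] [44, 34,
    22, 0, 0, 0] [] 100000 40385 40385 1130771 0 53846 0 69231 84615 15385 7692) (.S 2 4 (.S 2 3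
    (.S 3 10 (.S 3 5 (.L 6 6 [4, 4, 4, 5, 5, 20] [44, 34, 22, 0, 0, 0] [] 100000 21875 21875
    1195834 0 20833 41667 58333 50000 12500 25000) (.E 1)) (.E 1)) (.L 6 6 [4, 4, 4, 5, 5, 20] [44,
    34, 22, 0, 0, 0] [] 100000 21534 21534 1197062 0 2941 80462 36134 21534 13866 29412)) (.L 6 6
    [4, 4, 4, 5, 5, 20] [44, 34, 22, 0, 0, 0] [] 100000 27500 27500 1100000 0 0 100000 50000 0
    50000 10000))) (.E 0))) (.E 0)) (.E 0)) (.E 0)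

lemma s20_20_5_5_34 {n : ℕ} (hn : 5 ≤ n) : NoNd (d20_20_5_5.R : ℤ) d20_20_5_5.H n d20_20_5_5.a d20_20_5_5.b
    (BlkD.inB (BlkD.upd (BlkD.upd (fun _ => 0) 0 3) 0 5)
      (BlkD.upd (BlkD.upd (fun _ => 20) 0 5) 2 5)) :=
  BlkD.tree_sound (BlkD.pairOk_sound k20_20_5_5) (by decide) hn t20_20_5_5_34 _ _ (by decide +kernel)

/-- certificates of the pair `(5, 5)`, part 35 -/
def t20_20_5_5_35 : BlkD.Tr :=
  .E 1

lemma s20_20_5_5_35 {n : ℕ} (hn : 5 ≤ n) : NoNd (d20_20_5_5.R : ℤ) d20_20_5_5.H n d20_20_5_5.a d20_20_5_5.b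
    (BlkD.inB (BlkD.upd (fun _ => 0) 2 6)
      (BlkD.upd (fun _ => 20) 0 5)) :=
  BlkD.tree_sound (BlkD.pairOk_sound k20_20_5_5) (by decide) hn t20_20_5_5_35 _ _ (by decide +kernel)

/-- certificates of the pair `(5, 5)`, part 36 -/
def t20_20_5_5_36 : BlkD.Tr :=
  .E 0

lemma s20_20_5_5_36 {n : ℕ} (hn : 5 ≤ n) : NoNd (d20_20_5_5.R : ℤ) d20_20_5_5.H n d20_20_5_5.a d20_20_5_5.b
    (BlkD.inB (BlkD.upd (fun _ => 0) 0 6)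
      (fun _ => 20)) :=
  BlkD.tree_sound (BlkD.pairOk_sound k20_20_5_5) (by decide) hn t20_20_5_5_36 _ _ (by decide +kernel)

lemma pr20_20_5_5 {n : ℕ} (hn : 5 ≤ n) : NoPr ((20 : ℕ) : ℤ) ((20 : ℕ) : ℤ) n 5 5 :=
  BlkD.of_root (R := d20_20_5_5.R) (H := d20_20_5_5.H) (a := d20_20_5_5.a) (b := d20_20_5_5.b) (q := 3) (by decide) hn
    (BlkD.sp 0 5 (BlkD.sp 2 5 (BlkD.sp 0 2 (BlkD.sp 0 1 (BlkD.sp 0 0 (s20_20_5_5_1 hn) (BlkD.sp 1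
      10 (s20_20_5_5_2 hn) (s20_20_5_5_3 hn))) (BlkD.sp 1 18 (BlkD.sp 1 9 (BlkD.sp 1 4 (BlkD.sp 1 2
      (s20_20_5_5_4 hn) (BlkD.sp 1 3 (s20_20_5_5_5 hn) (BlkD.sp 2 2 (s20_20_5_5_6 hn) (s20_20_5_5_7
      hn)))) (BlkD.sp 1 7 (BlkD.sp 1 6 (BlkD.sp 1 5 (BlkD.sp 2 2 (BlkD.sp 2 1 (s20_20_5_5_8 hn)
      (s20_20_5_5_9 hn)) (BlkD.sp 2 4 (s20_20_5_5_10 hn) (s20_20_5_5_11 hn))) (BlkD.sp 2 2
      (s20_20_5_5_12 hn) (s20_20_5_5_13 hn))) (s20_20_5_5_14 hn)) (s20_20_5_5_15 hn)))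
      (s20_20_5_5_16 hn)) (s20_20_5_5_17 hn))) (BlkD.sp 0 4 (BlkD.sp 0 3 (BlkD.sp 1 17 (BlkD.sp 1 8
      (BlkD.sp 1 4 (BlkD.sp 1 2 (s20_20_5_5_18 hn) (BlkD.sp 1 3 (BlkD.sp 2 2 (s20_20_5_5_19 hn)
      (s20_20_5_5_20 hn)) (BlkD.sp 2 2 (s20_20_5_5_21 hn) (s20_20_5_5_22 hn)))) (BlkD.sp 1 6
      (BlkD.sp 1 5 (BlkD.sp 2 2 (s20_20_5_5_23 hn) (s20_20_5_5_24 hn)) (s20_20_5_5_25 hn))
      (s20_20_5_5_26 hn))) (s20_20_5_5_27 hn)) (s20_20_5_5_28 hn)) (BlkD.sp 1 16 (BlkD.sp 1 8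
      (BlkD.sp 1 4 (BlkD.sp 1 2 (s20_20_5_5_29 hn) (s20_20_5_5_30 hn)) (s20_20_5_5_31 hn))
      (s20_20_5_5_32 hn)) (s20_20_5_5_33 hn))) (s20_20_5_5_34 hn))) (s20_20_5_5_35 hn))
      (s20_20_5_5_36 hn))

/-- the numbers of the pair `(6, 0)`, `R = 20`, `H = 20` -/
def d20_20_6_0 : BlkD.Pd :=
  ⟨20, 20, 3, 6, 0, 11, 0, 1, 0, 4, 4, 0, 0, 4, 4, 0, [0, 4, 8, 12, 16, 20, 24, 28, 32, 36, 40,
    44], [0, 4, 8, 12, 16, 20, 24, 28, 32, 36, 40, 44], [⟨1, 1, 1, 4, 8, [0, 4], [0, 4]⟩]⟩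

/-- the certificates of the pair `(6, 0)` -/
def t20_20_6_0 : BlkD.Tr :=
  .S 0 6 (.S 2 0 (.L 4 4 [4] [] [] 100000 0 0 700000 50000 0 50000 50000 0 0 0) (.E 1)) (.E 0)

lemma pr20_20_6_0 {n : ℕ} (hn : 5 ≤ n) : NoPr ((20 : ℕ) : ℤ) ((20 : ℕ) : ℤ) n 6 0 :=
  BlkD.pair_sound (d := d20_20_6_0) (by decide +kernel) hn (by decide) (tr := t20_20_6_0)
    (by decide +kernel) rfl rfl rfl rfl

/-- the numbers of the pair `(6, 1)`, `R = 20`, `H = 20` -/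
def d20_20_6_1 : BlkD.Pd :=
  ⟨20, 20, 3, 6, 1, 10, 1, 1, 2, 2, 6, 0, 0, 4, 4, 0, [0, 6, 12, 18, 24, 30, 32, 34, 36, 38, 40],
    [0, 4, 8, 12, 16, 20, 24, 28, 32, 36, 40], [⟨1, 1, 1, 4, 8, [0, 4], [0, 4]⟩, ⟨1, 1, 1, 4, 10,
    [0, 6], [0, 4]⟩]⟩

/-- the certificates of the pair `(6, 1)` -/
def t20_20_6_1 : BlkD.Tr :=
  .S 0 6 (.S 2 1 (.S 0 3 (.L 4 5 [4, 4] [] [] 100000 0 0 888891 33333 0 44444 0 0 0 0) (.L 4 5 [4,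
    4] [] [] 100000 0 0 888891 33333 0 44444 0 0 0 0)) (.E 1)) (.E 0)

lemma pr20_20_6_1 {n : ℕ} (hn : 5 ≤ n) : NoPr ((20 : ℕ) : ℤ) ((20 : ℕ) : ℤ) n 6 1 :=
  BlkD.pair_sound (d := d20_20_6_1) (by decide +kernel) hn (by decide) (tr := t20_20_6_1)
    (by decide +kernel) rfl rfl rfl rfl

/-- the numbers of the pair `(6, 2)`, `R = 20`, `H = 20` -/
def d20_20_6_2 : BlkD.Pd :=
  ⟨20, 20, 3, 6, 2, 9, 2, 1, 2, 2, 8, 0, 0, 4, 6, 0, [0, 8, 16, 24, 26, 28, 30, 32, 34, 36], [0, 6,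
    12, 18, 24, 30, 36, 36, 36, 36], [⟨1, 1, 1, 4, 8, [0, 4], [0, 4]⟩, ⟨1, 1, 1, 4, 10, [0, 6], [0,
    4]⟩, ⟨1, 1, 1, 6, 14, [0, 8], [0, 6]⟩]⟩

lemma k20_20_6_2 : BlkD.pairOk d20_20_6_2 = true := by decide +kernel

/-- certificates of the pair `(6, 2)`, part 1 -/
def t20_20_6_2_1 : BlkD.Tr :=
  .L 4 6 [4, 4, 4] [] [] 100000 0 0 1001237 24691 0 51852 12346 14815 33333 33333

lemma s20_20_6_2_1 {n : ℕ} (hn : 5 ≤ n) : NoNd (d20_20_6_2.R : ℤ) d20_20_6_2.H n d20_20_6_2.a d20_20_6_2.b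
    (BlkD.inB (fun _ => 0)
      (BlkD.upd (BlkD.upd (BlkD.upd (BlkD.upd (fun _ => 20) 0 6) 2 2) 0 3) 0 1)) :=
  BlkD.tree_sound (BlkD.pairOk_sound k20_20_6_2) (by decide) hn t20_20_6_2_1 _ _ (by decide +kernel)

/-- certificates of the pair `(6, 2)`, part 2 -/
def t20_20_6_2_2 : BlkD.Tr :=
  .L 4 6 [4, 4, 4] [] [] 100000 0 0 1001237 24691 0 51852 12346 14815 33333 33333

lemma s20_20_6_2_2 {n : ℕ} (hn : 5 ≤ n) : NoNd (d20_20_6_2.R : ℤ) d20_20_6_2.H n d20_20_6_2.a d20_20_6_2.b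
    (BlkD.inB (BlkD.upd (fun _ => 0) 0 2)
      (BlkD.upd (BlkD.upd (BlkD.upd (fun _ => 20) 0 6) 2 2) 0 3)) :=
  BlkD.tree_sound (BlkD.pairOk_sound k20_20_6_2) (by decide) hn t20_20_6_2_2 _ _ (by decide +kernel)

/-- certificates of the pair `(6, 2)`, part 3 -/
def t20_20_6_2_3 : BlkD.Tr :=
  .L 4 6 [4, 4, 4] [] [] 100000 0 0 1001237 24691 0 51852 12346 14815 33333 33333

lemma s20_20_6_2_3 {n : ℕ} (hn : 5 ≤ n) : NoNd (d20_20_6_2.R : ℤ) d20_20_6_2.H n d20_20_6_2.a d20_20_6_2.b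
    (BlkD.inB (BlkD.upd (fun _ => 0) 0 4)
      (BlkD.upd (BlkD.upd (fun _ => 20) 0 6) 2 2)) :=
  BlkD.tree_sound (BlkD.pairOk_sound k20_20_6_2) (by decide) hn t20_20_6_2_3 _ _ (by decide +kernel)

/-- certificates of the pair `(6, 2)`, part 4 -/
def t20_20_6_2_4 : BlkD.Tr :=
  .E 1

lemma s20_20_6_2_4 {n : ℕ} (hn : 5 ≤ n) : NoNd (d20_20_6_2.R : ℤ) d20_20_6_2.H n d20_20_6_2.a d20_20_6_2.b
    (BlkD.inB (BlkD.upd (fun _ => 0) 2 3)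
      (BlkD.upd (fun _ => 20) 0 6)) :=
  BlkD.tree_sound (BlkD.pairOk_sound k20_20_6_2) (by decide) hn t20_20_6_2_4 _ _ (by decide +kernel)

/-- certificates of the pair `(6, 2)`, part 5 -/
def t20_20_6_2_5 : BlkD.Tr :=
  .E 0

lemma s20_20_6_2_5 {n : ℕ} (hn : 5 ≤ n) : NoNd (d20_20_6_2.R : ℤ) d20_20_6_2.H n d20_20_6_2.a d20_20_6_2.b
    (BlkD.inB (BlkD.upd (fun _ => 0) 0 7)
      (fun _ => 20)) :=
  BlkD.tree_sound (BlkD.pairOk_sound k20_20_6_2) (by decide) hn t20_20_6_2_5 _ _ (by decide +kernel)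

lemma pr20_20_6_2 {n : ℕ} (hn : 5 ≤ n) : NoPr ((20 : ℕ) : ℤ) ((20 : ℕ) : ℤ) n 6 2 :=
  BlkD.of_root (R := d20_20_6_2.R) (H := d20_20_6_2.H) (a := d20_20_6_2.a) (b := d20_20_6_2.b) (q := 3) (by decide) hn
    (BlkD.sp 0 6 (BlkD.sp 2 2 (BlkD.sp 0 3 (BlkD.sp 0 1 (s20_20_6_2_1 hn) (s20_20_6_2_2 hn))
      (s20_20_6_2_3 hn)) (s20_20_6_2_4 hn)) (s20_20_6_2_5 hn))

end BlkC

end Pool.Agent.Lib.MP_f04ccf_co
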