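import Pool.Agent.Lib.MP_f04ccf_co.M.BlkT

/-!
MP_f04ccf_co, block certificate, data `R = 20`, `H = 20`, part 4 (generated, helper99:
bd10.cpp, gen2.py).
-/

set_option autoImplicit false
set_option maxRecDepth 100000

namespace Pool.Agent.Lib.MP_f04ccf_co

namespace BlkC

/-- the numbers of the pair `(6, 3)`, `R = 20`, `H = 20` -/
def d20_20_6_3 : BlkD.Pd :=
  ⟨20, 20, 3, 6, 3, 8, 3, 2, 1, 3, 10, 0, 4, 1, 8, 0, [0, 10, 20, 27, 28, 29, 30, 31, 32], [0, 8,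
    16, 20, 24, 28, 32, 36, 40], [⟨1, 1, 1, 4, 8, [0, 4], [0, 4]⟩, ⟨1, 1, 1, 6, 12, [0, 6], [0,
    6]⟩, ⟨1, 1, 1, 6, 14, [0, 8], [0, 6]⟩, ⟨2, 1, 1, 6, 22, [0, 10, 14], [0, 8]⟩]⟩

lemma k20_20_6_3 : BlkD.pairOk d20_20_6_3 = true := by decide +kernel

/-- certificates of the pair `(6, 3)`, part 1 -/
def t20_20_6_3_1 : BlkD.Tr :=
  .L 5 6 [4, 4, 4, 5] [] [] 100000 83333 83332 600000 100000 0 100000 50000 0 0 25000

lemma s20_20_6_3_1 {n : ℕ} (hn : 5 ≤ n) : NoNd (d20_20_6_3.R : ℤ) d20_20_6_3.H n d20_20_6_3.a d20_20_6_3.b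
    (BlkD.inB (fun _ => 0)
      (BlkD.upd (BlkD.upd (BlkD.upd (BlkD.upd (BlkD.upd (fun _ => 20) 0 6) 2 3) 0 3) 0 1) 0 0)) :=
  BlkD.tree_sound (BlkD.pairOk_sound k20_20_6_3) (by decide) hn t20_20_6_3_1 _ _ (by decide +kernel)

/-- certificates of the pair `(6, 3)`, part 2 -/
def t20_20_6_3_2 : BlkD.Tr :=
  .L 5 6 [4, 4, 4, 5] [] [] 100000 83333 83332 600000 100000 0 100000 50000 0 0 25000

lemma s20_20_6_3_2 {n : ℕ} (hn : 5 ≤ n) : NoNd (d20_20_6_3.R : ℤ) d20_20_6_3.H n d20_20_6_3.a d20_20_6_3.b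
    (BlkD.inB (BlkD.upd (fun _ => 0) 0 1)
      (BlkD.upd (BlkD.upd (BlkD.upd (BlkD.upd (BlkD.upd (BlkD.upd (fun _ => 20) 0 6) 2 3) 0 3) 0 1) 1 10) 1 5)) :=
  BlkD.tree_sound (BlkD.pairOk_sound k20_20_6_3) (by decide) hn t20_20_6_3_2 _ _ (by decide +kernel)

/-- certificates of the pair `(6, 3)`, part 3 -/
def t20_20_6_3_3 : BlkD.Tr :=
  .L 5 6 [4, 4, 4, 5] [] [] 100000 83333 83332 600000 100000 0 100000 50000 0 0 25000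

lemma s20_20_6_3_3 {n : ℕ} (hn : 5 ≤ n) : NoNd (d20_20_6_3.R : ℤ) d20_20_6_3.H n d20_20_6_3.a d20_20_6_3.b
    (BlkD.inB (BlkD.upd (BlkD.upd (fun _ => 0) 0 1) 1 6)
      (BlkD.upd (BlkD.upd (BlkD.upd (BlkD.upd (BlkD.upd (fun _ => 20) 0 6) 2 3) 0 3) 0 1) 1 10)) :=
  BlkD.tree_sound (BlkD.pairOk_sound k20_20_6_3) (by decide) hn t20_20_6_3_3 _ _ (by decide +kernel)

/-- certificates of the pair `(6, 3)`, part 4 -/
def t20_20_6_3_4 : BlkD.Tr :=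
  .L 5 6 [4, 4, 4, 5] [] [] 100000 83333 83332 600000 100000 0 100000 50000 0 0 25000

lemma s20_20_6_3_4 {n : ℕ} (hn : 5 ≤ n) : NoNd (d20_20_6_3.R : ℤ) d20_20_6_3.H n d20_20_6_3.a d20_20_6_3.b
    (BlkD.inB (BlkD.upd (BlkD.upd (fun _ => 0) 0 1) 1 11)
      (BlkD.upd (BlkD.upd (BlkD.upd (BlkD.upd (fun _ => 20) 0 6) 2 3) 0 3) 0 1)) :=
  BlkD.tree_sound (BlkD.pairOk_sound k20_20_6_3) (by decide) hn t20_20_6_3_4 _ _ (by decide +kernel)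

/-- certificates of the pair `(6, 3)`, part 5 -/
def t20_20_6_3_5 : BlkD.Tr :=
  .S 1 18 (.S 1 9 (.S 1 4 (.L 5 6 [4, 4, 4, 5] [] [] 100000 29167 29167 925000 25000 0 25000 75000
    0 12500 29167) (.S 1 7 (.S 1 6 (.L 5 6 [4, 4, 4, 5] [] [] 100000 25000 25000 1050004 25000 0
    55357 50000 1786 21429 28571) (.L 5 6 [4, 4, 4, 5] [113, 112, 111, 107, 100, 90] [] 100000
    24692 24692 1031913 33903 0 64672 33903 5128 15670 18803)) (.L 5 6 [4, 4, 4, 5] [] [] 100000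
    21728 21728 982723 5759 0 100000 50000 23037 11780 23037))) (.E 0)) (.E 0)

lemma s20_20_6_3_5 {n : ℕ} (hn : 5 ≤ n) : NoNd (d20_20_6_3.R : ℤ) d20_20_6_3.H n d20_20_6_3.a d20_20_6_3.b
    (BlkD.inB (BlkD.upd (fun _ => 0) 0 2)
      (BlkD.upd (BlkD.upd (BlkD.upd (BlkD.upd (fun _ => 20) 0 6) 2 3) 0 3) 0 2)) :=
  BlkD.tree_sound (BlkD.pairOk_sound k20_20_6_3) (by decide) hn t20_20_6_3_5 _ _ (by decide +kernel)

/-- certificates of the pair `(6, 3)`, part 6 -/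
def t20_20_6_3_6 : BlkD.Tr :=
  .S 1 17 (.S 1 8 (.S 1 4 (.L 5 6 [4, 4, 4, 5] [] [] 100000 22410 22410 1029647 25000 0 56010 71875
    4647 23478 33333) (.S 1 6 (.S 1 5 (.L 5 6 [4, 4, 4, 5] [91, 87, 80, 70, 60, 50] [] 100000 26943
    26942 1035925 32815 0 65630 43696 1554 16062 25389) (.L 5 6 [4, 4, 4, 5] [108, 107, 103, 96,
    86, 76] [] 100000 17848 17848 1063780 18110 0 81890 44882 18110 10236 18110)) (.L 5 6 [4, 4, 4,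
    5] [] [] 100000 21446 13735 969639 3614 0 107711 48193 13976 21687 21687))) (.E 0)) (.E 0)

lemma s20_20_6_3_6 {n : ℕ} (hn : 5 ≤ n) : NoNd (d20_20_6_3.R : ℤ) d20_20_6_3.H n d20_20_6_3.a d20_20_6_3.b
    (BlkD.inB (BlkD.upd (BlkD.upd (fun _ => 0) 0 2) 0 3)
      (BlkD.upd (BlkD.upd (BlkD.upd (fun _ => 20) 0 6) 2 3) 0 3)) :=
  BlkD.tree_sound (BlkD.pairOk_sound k20_20_6_3) (by decide) hn t20_20_6_3_6 _ _ (by decide +kernel)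

/-- certificates of the pair `(6, 3)`, part 7 -/
def t20_20_6_3_7 : BlkD.Tr :=
  .S 0 5 (.S 0 4 (.S 1 16 (.S 1 8 (.S 1 4 (.L 5 6 [4, 4, 4, 5] [] [] 100000 15024 15024 1115496
    21127 0 58216 66197 15493 23944 30047) (.L 5 6 [4, 4, 4, 5] [] [] 100000 8572 8572 1120954 1270
    0 87619 43810 37143 24762 24762)) (.E 0)) (.E 0)) (.L 5 6 [4, 4, 4, 5] [] [] 100000 8743 8742
    1122952 0 0 77049 60656 22951 27869 27869)) (.L 5 6 [4, 4, 4, 5] [] [] 100000 0 0 1100001 0 0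
    50000 33333 37500 25000 37500)

lemma s20_20_6_3_7 {n : ℕ} (hn : 5 ≤ n) : NoNd (d20_20_6_3.R : ℤ) d20_20_6_3.H n d20_20_6_3.a d20_20_6_3.b
    (BlkD.inB (BlkD.upd (fun _ => 0) 0 4)
      (BlkD.upd (BlkD.upd (fun _ => 20) 0 6) 2 3)) :=
  BlkD.tree_sound (BlkD.pairOk_sound k20_20_6_3) (by decide) hn t20_20_6_3_7 _ _ (by decide +kernel)

/-- certificates of the pair `(6, 3)`, part 8 -/
def t20_20_6_3_8 : BlkD.Tr :=
  .E 1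

lemma s20_20_6_3_8 {n : ℕ} (hn : 5 ≤ n) : NoNd (d20_20_6_3.R : ℤ) d20_20_6_3.H n d20_20_6_3.a d20_20_6_3.b
    (BlkD.inB (BlkD.upd (fun _ => 0) 2 4)
      (BlkD.upd (fun _ => 20) 0 6)) :=
  BlkD.tree_sound (BlkD.pairOk_sound k20_20_6_3) (by decide) hn t20_20_6_3_8 _ _ (by decide +kernel)

/-- certificates of the pair `(6, 3)`, part 9 -/
def t20_20_6_3_9 : BlkD.Tr :=
  .E 0

lemma s20_20_6_3_9 {n : ℕ} (hn : 5 ≤ n) : NoNd (d20_20_6_3.R : ℤ) d20_20_6_3.H n d20_20_6_3.a d20_20_6_3.b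
    (BlkD.inB (BlkD.upd (fun _ => 0) 0 7)
      (fun _ => 20)) :=
  BlkD.tree_sound (BlkD.pairOk_sound k20_20_6_3) (by decide) hn t20_20_6_3_9 _ _ (by decide +kernel)

lemma pr20_20_6_3 {n : ℕ} (hn : 5 ≤ n) : NoPr ((20 : ℕ) : ℤ) ((20 : ℕ) : ℤ) n 6 3 :=
  BlkD.of_root (R := d20_20_6_3.R) (H := d20_20_6_3.H) (a := d20_20_6_3.a) (b := d20_20_6_3.b) (q := 3) (by decide) hn
    (BlkD.sp 0 6 (BlkD.sp 2 3 (BlkD.sp 0 3 (BlkD.sp 0 1 (BlkD.sp 0 0 (s20_20_6_3_1 hn) (BlkD.sp 1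
      10 (BlkD.sp 1 5 (s20_20_6_3_2 hn) (s20_20_6_3_3 hn)) (s20_20_6_3_4 hn))) (BlkD.sp 0 2
      (s20_20_6_3_5 hn) (s20_20_6_3_6 hn))) (s20_20_6_3_7 hn)) (s20_20_6_3_8 hn)) (s20_20_6_3_9
      hn))

end BlkC

end Pool.Agent.Lib.MP_f04ccf_co
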