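import Pool.Agent.Lib.MP_f04ccf_co.M.BlkT

/-!
MP_f04ccf_co, block certificate, data `R = 20`, `H = 20`, part 5 (generated, helper99:
bd10.cpp, gen2.py).
-/

set_option autoImplicit false
set_option maxRecDepth 100000

namespace Pool.Agent.Lib.MP_f04ccf_co

namespace BlkC

/-- the numbers of the pair `(6, 4)`, `R = 20`, `H = 20` -/
def d20_20_6_4 : BlkD.Pd :=
  ⟨20, 20, 3, 6, 4, 7, 4, 2, 0, 4, 12, 0, 2, 2, 10, 0, [0, 12, 24, 28, 28, 28, 28, 28], [0, 10, 18,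
    20, 22, 24, 26, 28], [⟨1, 1, 1, 4, 8, [0, 4], [0, 4]⟩, ⟨1, 1, 1, 6, 12, [0, 6], [0, 6]⟩, ⟨1, 1,
    1, 6, 16, [0, 8], [0, 8]⟩, ⟨2, 1, 1, 6, 22, [0, 10, 14], [0, 8]⟩, ⟨2, 2, 1, 4, 28, [0, 12, 18],
    [0, 10, 10]⟩]⟩

lemma k20_20_6_4 : BlkD.pairOk d20_20_6_4 = true := by decide +kernel

/-- certificates of the pair `(6, 4)`, part 1 -/
def t20_20_6_4_1 : BlkD.Tr :=
  .L 5 6 [4, 4, 4, 5, 6] [] [] 100000 83333 83332 750000 100000 0 100000 50000 0 0 25000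

lemma s20_20_6_4_1 {n : ℕ} (hn : 5 ≤ n) : NoNd (d20_20_6_4.R : ℤ) d20_20_6_4.H n d20_20_6_4.a d20_20_6_4.b
    (BlkD.inB (fun _ => 0)
      (BlkD.upd (BlkD.upd (BlkD.upd (BlkD.upd (BlkD.upd (fun _ => 20) 0 6) 2 4) 0 3) 0 1) 0 0)) :=
  BlkD.tree_sound (BlkD.pairOk_sound k20_20_6_4) (by decide) hn t20_20_6_4_1 _ _ (by decide +kernel)

/-- certificates of the pair `(6, 4)`, part 2 -/
def t20_20_6_4_2 : BlkD.Tr :=
  .L 5 6 [4, 4, 4, 5, 6] [] [] 100000 83333 83332 750000 100000 0 100000 50000 0 0 25000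

lemma s20_20_6_4_2 {n : ℕ} (hn : 5 ≤ n) : NoNd (d20_20_6_4.R : ℤ) d20_20_6_4.H n d20_20_6_4.a d20_20_6_4.b
    (BlkD.inB (BlkD.upd (fun _ => 0) 0 1)
      (BlkD.upd (BlkD.upd (BlkD.upd (BlkD.upd (BlkD.upd (BlkD.upd (fun _ => 20) 0 6) 2 4) 0 3) 0 1) 1 10) 1 5)) :=
  BlkD.tree_sound (BlkD.pairOk_sound k20_20_6_4) (by decide) hn t20_20_6_4_2 _ _ (by decide +kernel)

/-- certificates of the pair `(6, 4)`, part 3 -/
def t20_20_6_4_3 : BlkD.Tr :=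
  .L 5 6 [4, 4, 4, 5, 6] [] [] 100000 83333 83332 750000 100000 0 100000 50000 0 0 25000

lemma s20_20_6_4_3 {n : ℕ} (hn : 5 ≤ n) : NoNd (d20_20_6_4.R : ℤ) d20_20_6_4.H n d20_20_6_4.a d20_20_6_4.b
    (BlkD.inB (BlkD.upd (BlkD.upd (fun _ => 0) 0 1) 1 6)
      (BlkD.upd (BlkD.upd (BlkD.upd (BlkD.upd (BlkD.upd (fun _ => 20) 0 6) 2 4) 0 3) 0 1) 1 10)) :=
  BlkD.tree_sound (BlkD.pairOk_sound k20_20_6_4) (by decide) hn t20_20_6_4_3 _ _ (by decide +kernel)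

/-- certificates of the pair `(6, 4)`, part 4 -/
def t20_20_6_4_4 : BlkD.Tr :=
  .L 5 6 [4, 4, 4, 5, 6] [] [] 100000 83333 83332 750000 100000 0 100000 50000 0 0 25000

lemma s20_20_6_4_4 {n : ℕ} (hn : 5 ≤ n) : NoNd (d20_20_6_4.R : ℤ) d20_20_6_4.H n d20_20_6_4.a d20_20_6_4.b
    (BlkD.inB (BlkD.upd (BlkD.upd (fun _ => 0) 0 1) 1 11)
      (BlkD.upd (BlkD.upd (BlkD.upd (BlkD.upd (fun _ => 20) 0 6) 2 4) 0 3) 0 1)) :=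
  BlkD.tree_sound (BlkD.pairOk_sound k20_20_6_4) (by decide) hn t20_20_6_4_4 _ _ (by decide +kernel)

/-- certificates of the pair `(6, 4)`, part 5 -/
def t20_20_6_4_5 : BlkD.Tr :=
  .L 5 6 [4, 4, 4, 5, 6] [] [] 100000 25000 25000 1162500 9375 0 9375 62500 0 37500 37500

lemma s20_20_6_4_5 {n : ℕ} (hn : 5 ≤ n) : NoNd (d20_20_6_4.R : ℤ) d20_20_6_4.H n d20_20_6_4.a d20_20_6_4.b
    (BlkD.inB (BlkD.upd (fun _ => 0) 0 2)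
      (BlkD.upd (BlkD.upd (BlkD.upd (BlkD.upd (BlkD.upd (BlkD.upd (BlkD.upd (fun _ => 20) 0 6) 2 4) 0 3) 0 2) 1 18) 1 9) 1 4)) :=
  BlkD.tree_sound (BlkD.pairOk_sound k20_20_6_4) (by decide) hn t20_20_6_4_5 _ _ (by decide +kernel)

/-- certificates of the pair `(6, 4)`, part 6 -/
def t20_20_6_4_6 : BlkD.Tr :=
  .S 2 2 (.S 2 1 (.L 6 7 [4, 4, 4, 4, 5] [86, 82, 76, 64, 52, 40] [] 100000 35417 35417 1155558
    22222 16667 30556 44444 0 19444 22222) (.S 3 11 (.S 3 5 (.S 3 2 (.L 6 7 [4, 4, 4, 4, 5] [86,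
    82, 76, 64, 52, 40] [] 100000 33334 33334 1066666 16667 0 16667 16667 0 0 22222) (.L 6 7 [4, 4,
    4, 4, 5] [86, 82, 76, 64, 52, 40] [] 100000 24777 24777 1199405 20299 0 25672 46567 896 53433
    26567)) (.E 1)) (.E 1))) (.L 6 7 [4, 4, 4, 4, 5] [86, 82, 76, 64, 52, 40] [] 100000 23766 23766
    1195061 20988 0 69136 23457 4938 58025 32099)

lemma s20_20_6_4_6 {n : ℕ} (hn : 5 ≤ n) : NoNd (d20_20_6_4.R : ℤ) d20_20_6_4.H n d20_20_6_4.a d20_20_6_4.b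
    (BlkD.inB (BlkD.upd (BlkD.upd (fun _ => 0) 0 2) 1 5)
      (BlkD.upd (BlkD.upd (BlkD.upd (BlkD.upd (BlkD.upd (BlkD.upd (BlkD.upd (BlkD.upd (BlkD.upd (fun _ => 20) 0 6) 2 4) 0 3) 0 2) 1 18) 1 9) 1 7) 1 6) 1 5)) :=
  BlkD.tree_sound (BlkD.pairOk_sound k20_20_6_4) (by decide) hn t20_20_6_4_6 _ _ (by decide +kernel)

/-- certificates of the pair `(6, 4)`, part 7 -/
def t20_20_6_4_7 : BlkD.Tr :=
  .S 2 2 (.S 2 1 (.S 2 0 (.L 6 7 [4, 4, 4, 4, 5] [100, 100, 96, 90, 78, 66] [] 100000 50000 50000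
    900000 0 0 50000 100000 0 0 0) (.S 3 11 (.S 3 5 (.S 3 2 (.L 6 7 [4, 4, 4, 4, 5] [100, 100, 96,
    90, 78, 66] [] 100000 33334 33334 1066666 16667 0 16667 16667 0 0 22222) (.S 3 4 (.L 6 7 [4, 4,
    4, 4, 5] [100, 100, 96, 90, 78, 66] [] 100000 39813 39813 1138963 26769 17988 53964 35976 1535
    9207 18500) (.S 4 6 (.S 4 3 (.L 5 6 [4, 4, 4, 5, 6] [90, 78, 66, 54, 0, 0] [68, 66, 60, 52, 42,
    30] 100000 48958 48958 1100004 45833 0 70833 45833 4167 4167 25000) (.L 5 6 [4, 4, 4, 5, 6]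
    [100, 100, 96, 90, 78, 66] [68, 66, 60, 52, 42, 30] 100000 100000 0 500000 0 50000 200000
    100000 0 0 0)) (.E 2)))) (.L 5 6 [4, 4, 4, 5, 6] [100, 100, 96, 90, 78, 66] [] 100000 150000
    150000 600000 100000 0 100000 100000 0 0 0)) (.E 1))) (.S 3 10 (.S 3 5 (.S 3 2 (.L 5 6 [4, 4,
    4, 5, 6] [100, 100, 96, 90, 78, 66] [] 100000 41250 41250 1100000 35000 0 50000 30000 0 5000
    25000) (.S 3 4 (.S 3 3 (.L 5 6 [4, 4, 4, 5, 6] [100, 100, 96, 90, 78, 66] [48, 40, 30, 18, 0,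
    0] 100000 32143 32143 1157145 28571 0 57143 28571 0 28571 28571) (.S 4 6 (.S 4 3 (.L 5 6 [4, 4,
    4, 5, 6] [90, 78, 66, 54, 0, 0] [64, 58, 50, 40, 28, 0] 100000 33772 33772 1156142 33333 0
    77193 33333 8772 57895 14035) (.L 5 6 [4, 4, 4, 5, 6] [100, 100, 96, 90, 78, 66] [64, 58, 50,
    40, 28, 0] 100000 92309 1 553844 38462 0 192308 38462 0 0 15385)) (.E 2))) (.E 1))) (.E 1)) (.E
    1))) (.L 5 6 [4, 4, 4, 5, 6] [100, 100, 96, 90, 78, 66] [] 100000 43549 43549 1122581 38710 0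
    77419 22581 3226 38710 19355)

lemma s20_20_6_4_7 {n : ℕ} (hn : 5 ≤ n) : NoNd (d20_20_6_4.R : ℤ) d20_20_6_4.H n d20_20_6_4.a d20_20_6_4.b
    (BlkD.inB (BlkD.upd (BlkD.upd (BlkD.upd (fun _ => 0) 0 2) 1 5) 1 6)
      (BlkD.upd (BlkD.upd (BlkD.upd (BlkD.upd (BlkD.upd (BlkD.upd (BlkD.upd (BlkD.upd (fun _ => 20) 0 6) 2 4) 0 3) 0 2) 1 18) 1 9) 1 7) 1 6)) :=
  BlkD.tree_sound (BlkD.pairOk_sound k20_20_6_4) (by decide) hn t20_20_6_4_7 _ _ (by decide +kernel)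

/-- certificates of the pair `(6, 4)`, part 8 -/
def t20_20_6_4_8 : BlkD.Tr :=
  .S 2 0 (.L 5 6 [4, 4, 4, 5, 6] [116, 116, 116, 112, 106, 94] [] 100000 50000 50000 900000 0 0
    100000 100000 0 0 0) (.S 3 10 (.S 3 5 (.S 3 2 (.L 5 6 [4, 4, 4, 5, 6] [116, 116, 116, 112, 106,
    94] [] 100000 53125 53125 1023216 48214 16071 64286 32143 0 0 21429) (.S 3 4 (.S 3 3 (.L 5 6
    [4, 4, 4, 5, 6] [116, 116, 116, 112, 106, 94] [42, 34, 24, 12, 0, 0] 100000 49075 49075 1081483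
    40741 18519 59259 40741 0 3704 20370) (.S 4 7 (.S 4 3 (.L 5 6 [4, 4, 4, 5, 6] [106, 94, 82, 70,
    0, 0] [56, 50, 42, 32, 20, 0] 100000 52551 52551 1069390 42857 26531 61224 53061 2041 0 18367)
    (.L 5 6 [4, 4, 4, 5, 6] [116, 116, 116, 112, 106, 94] [56, 50, 42, 32, 20, 0] 100000 32576 2272
    978787 6061 6061 130303 21212 0 24242 27273)) (.E 2))) (.S 4 7 (.S 4 3 (.L 6 7 [4, 4, 4, 4, 5]
    [106, 94, 82, 70, 0, 0] [68, 66, 60, 52, 42, 30] 100000 71084 71084 1008437 43373 43373 86747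
    57831 0 0 21687) (.L 6 7 [4, 4, 4, 4, 5] [116, 116, 116, 112, 106, 94] [68, 66, 60, 52, 42, 30]
    100000 50000 16667 900003 22222 0 133333 44444 0 33333 11111)) (.E 2)))) (.E 2)) (.E 1))

lemma s20_20_6_4_8 {n : ℕ} (hn : 5 ≤ n) : NoNd (d20_20_6_4.R : ℤ) d20_20_6_4.H n d20_20_6_4.a d20_20_6_4.b
    (BlkD.inB (BlkD.upd (BlkD.upd (BlkD.upd (fun _ => 0) 0 2) 1 5) 1 7)
      (BlkD.upd (BlkD.upd (BlkD.upd (BlkD.upd (BlkD.upd (BlkD.upd (BlkD.upd (BlkD.upd (BlkD.upd (fun _ => 20) 0 6) 2 4) 0 3) 0 2) 1 18) 1 9) 1 7) 2 2) 2 1)) :=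
  BlkD.tree_sound (BlkD.pairOk_sound k20_20_6_4) (by decide) hn t20_20_6_4_8 _ _ (by decide +kernel)

/-- certificates of the pair `(6, 4)`, part 9 -/
def t20_20_6_4_9 : BlkD.Tr :=
  .S 3 9 (.S 3 4 (.S 3 2 (.L 6 7 [4, 4, 4, 4, 5] [116, 116, 116, 112, 106, 94] [] 100000 37848
    37848 1133333 41667 0 58333 25000 0 6944 25000) (.S 3 3 (.S 4 7 (.S 4 3 (.L 6 7 [4, 4, 4, 4, 5]
    [106, 94, 82, 70, 0, 0] [48, 40, 30, 18, 0, 0] 100000 38000 38000 1128000 48000 0 64000 40000 0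
    32000 16000) (.L 6 7 [4, 4, 4, 4, 5] [116, 116, 116, 112, 106, 94] [48, 40, 30, 18, 0, 0]
    100000 32143 3571 985715 9524 0 128571 23810 0 28571 23810)) (.E 2)) (.S 4 7 (.S 4 3 (.L 6 7
    [4, 4, 4, 4, 5] [106, 94, 82, 70, 0, 0] [64, 58, 50, 40, 28, 0] 100000 52000 52000 1068000
    48000 0 96000 48000 0 4000 24000) (.L 6 7 [4, 4, 4, 4, 5] [116, 116, 116, 112, 106, 94] [64,
    58, 50, 40, 28, 0] 100000 72223 1 694445 38889 0 172222 38889 0 22222 16667)) (.E 2)))) (.E 1))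
    (.E 1)

lemma s20_20_6_4_9 {n : ℕ} (hn : 5 ≤ n) : NoNd (d20_20_6_4.R : ℤ) d20_20_6_4.H n d20_20_6_4.a d20_20_6_4.b
    (BlkD.inB (BlkD.upd (BlkD.upd (BlkD.upd (BlkD.upd (fun _ => 0) 0 2) 1 5) 1 7) 2 2)
      (BlkD.upd (BlkD.upd (BlkD.upd (BlkD.upd (BlkD.upd (BlkD.upd (BlkD.upd (BlkD.upd (fun _ => 20) 0 6) 2 4) 0 3) 0 2) 1 18) 1 9) 1 7) 2 2)) :=
  BlkD.tree_sound (BlkD.pairOk_sound k20_20_6_4) (by decide) hn t20_20_6_4_9 _ _ (by decide +kernel)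

/-- certificates of the pair `(6, 4)`, part 10 -/
def t20_20_6_4_10 : BlkD.Tr :=
  .S 2 3 (.S 3 8 (.S 3 4 (.S 3 2 (.L 5 6 [4, 4, 4, 5, 6] [116, 116, 116, 112, 106, 94] [] 100000
    37705 37705 1139347 42623 0 71311 18852 5738 28689 23770) (.S 3 3 (.L 3 3 [5, 6, 8, 9, 11]
    [116, 116, 116, 112, 106, 94] [54, 46, 36, 24, 0, 0] 100000 66667 66666 1027081 54167 0 85417
    31250 0 50000 16667) (.E 1))) (.E 1)) (.E 1)) (.L 3 3 [5, 6, 8, 9, 11] [116, 116, 116, 112,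
    106, 94] [] 100000 66667 66666 1022220 55556 0 88889 22222 0 55556 22222)

lemma s20_20_6_4_10 {n : ℕ} (hn : 5 ≤ n) : NoNd (d20_20_6_4.R : ℤ) d20_20_6_4.H n d20_20_6_4.a d20_20_6_4.b
    (BlkD.inB (BlkD.upd (BlkD.upd (BlkD.upd (BlkD.upd (fun _ => 0) 0 2) 1 5) 1 7) 2 3)
      (BlkD.upd (BlkD.upd (BlkD.upd (BlkD.upd (BlkD.upd (BlkD.upd (BlkD.upd (fun _ => 20) 0 6) 2 4) 0 3) 0 2) 1 18) 1 9) 1 7)) :=
  BlkD.tree_sound (BlkD.pairOk_sound k20_20_6_4) (by decide) hn t20_20_6_4_10 _ _ (by decide +kernel)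

/-- certificates of the pair `(6, 4)`, part 11 -/
def t20_20_6_4_11 : BlkD.Tr :=
  .S 1 8 (.L 3 3 [5, 6, 8, 9, 11] [134, 134, 134, 134, 130, 124] [] 100000 55555 55554 1059262
    44444 0 87037 44444 0 11111 18519) (.E 0)

lemma s20_20_6_4_11 {n : ℕ} (hn : 5 ≤ n) : NoNd (d20_20_6_4.R : ℤ) d20_20_6_4.H n d20_20_6_4.a d20_20_6_4.b
    (BlkD.inB (BlkD.upd (BlkD.upd (BlkD.upd (fun _ => 0) 0 2) 1 5) 1 8)
      (BlkD.upd (BlkD.upd (BlkD.upd (BlkD.upd (BlkD.upd (BlkD.upd (fun _ => 20) 0 6) 2 4) 0 3) 0 2) 1 18) 1 9)) :=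
  BlkD.tree_sound (BlkD.pairOk_sound k20_20_6_4) (by decide) hn t20_20_6_4_11 _ _ (by decide +kernel)

/-- certificates of the pair `(6, 4)`, part 12 -/
def t20_20_6_4_12 : BlkD.Tr :=
  .E 0

lemma s20_20_6_4_12 {n : ℕ} (hn : 5 ≤ n) : NoNd (d20_20_6_4.R : ℤ) d20_20_6_4.H n d20_20_6_4.a d20_20_6_4.b
    (BlkD.inB (BlkD.upd (BlkD.upd (fun _ => 0) 0 2) 1 10)
      (BlkD.upd (BlkD.upd (BlkD.upd (BlkD.upd (BlkD.upd (fun _ => 20) 0 6) 2 4) 0 3) 0 2) 1 18)) :=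
  BlkD.tree_sound (BlkD.pairOk_sound k20_20_6_4) (by decide) hn t20_20_6_4_12 _ _ (by decide +kernel)

/-- certificates of the pair `(6, 4)`, part 13 -/
def t20_20_6_4_13 : BlkD.Tr :=
  .E 0

lemma s20_20_6_4_13 {n : ℕ} (hn : 5 ≤ n) : NoNd (d20_20_6_4.R : ℤ) d20_20_6_4.H n d20_20_6_4.a d20_20_6_4.b
    (BlkD.inB (BlkD.upd (BlkD.upd (fun _ => 0) 0 2) 1 19)
      (BlkD.upd (BlkD.upd (BlkD.upd (BlkD.upd (fun _ => 20) 0 6) 2 4) 0 3) 0 2)) :=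
  BlkD.tree_sound (BlkD.pairOk_sound k20_20_6_4) (by decide) hn t20_20_6_4_13 _ _ (by decide +kernel)

/-- certificates of the pair `(6, 4)`, part 14 -/
def t20_20_6_4_14 : BlkD.Tr :=
  .L 3 3 [5, 6, 8, 9, 11] [] [] 100000 33334 33334 1066667 16667 0 16667 33333 0 0 33333

lemma s20_20_6_4_14 {n : ℕ} (hn : 5 ≤ n) : NoNd (d20_20_6_4.R : ℤ) d20_20_6_4.H n d20_20_6_4.a d20_20_6_4.b
    (BlkD.inB (BlkD.upd (BlkD.upd (fun _ => 0) 0 2) 0 3)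
      (BlkD.upd (BlkD.upd (BlkD.upd (BlkD.upd (BlkD.upd (BlkD.upd (BlkD.upd (fun _ => 20) 0 6) 2 4) 0 3) 1 17) 1 8) 1 4) 1 2)) :=
  BlkD.tree_sound (BlkD.pairOk_sound k20_20_6_4) (by decide) hn t20_20_6_4_14 _ _ (by decide +kernel)

/-- certificates of the pair `(6, 4)`, part 15 -/
def t20_20_6_4_15 : BlkD.Tr :=
  .L 5 6 [4, 4, 4, 5, 6] [60, 48, 36, 24, 0, 0] [] 100000 25000 25000 1162500 12500 0 12500 62500 0
    37500 37500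

lemma s20_20_6_4_15 {n : ℕ} (hn : 5 ≤ n) : NoNd (d20_20_6_4.R : ℤ) d20_20_6_4.H n d20_20_6_4.a d20_20_6_4.b
    (BlkD.inB (BlkD.upd (BlkD.upd (BlkD.upd (fun _ => 0) 0 2) 0 3) 1 3)
      (BlkD.upd (BlkD.upd (BlkD.upd (BlkD.upd (BlkD.upd (BlkD.upd (BlkD.upd (fun _ => 20) 0 6) 2 4) 0 3) 1 17) 1 8) 1 4) 1 3)) :=
  BlkD.tree_sound (BlkD.pairOk_sound k20_20_6_4) (by decide) hn t20_20_6_4_15 _ _ (by decide +kernel)

/-- certificates of the pair `(6, 4)`, part 16 -/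
def t20_20_6_4_16 : BlkD.Tr :=
  .S 2 1 (.S 2 0 (.L 5 6 [4, 4, 4, 5, 6] [78, 72, 60, 48, 36, 0] [] 100000 50000 50000 900000 0 0 0
    100000 0 0 0) (.S 3 12 (.S 3 6 (.S 3 3 (.L 5 6 [4, 4, 4, 5, 6] [78, 72, 60, 48, 36, 0] []
    100000 33333 33332 1083334 8333 8333 16667 16667 0 0 25000) (.S 3 5 (.S 3 4 (.L 5 6 [4, 4, 4,
    5, 6] [78, 72, 60, 48, 36, 0] [56, 50, 42, 32, 20, 0] 100000 24039 24039 1200000 6731 6731
    36538 63942 3846 26923 33173) (.S 4 4 (.S 4 2 (.S 4 1 (.L 6 7 [4, 4, 4, 4, 5] [48, 36, 0, 0, 0,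
    0] [68, 66, 60, 52, 42, 30] 100000 25000 24999 1196155 21154 9615 32692 42308 0 44231 28846)
    (.L 6 7 [4, 4, 4, 4, 5] [60, 48, 36, 0, 0, 0] [68, 66, 60, 52, 42, 30] 100000 26967 23596
    1082022 5618 0 103371 34457 0 19101 24345)) (.L 6 7 [4, 4, 4, 4, 5] [78, 72, 60, 48, 36, 0]
    [68, 66, 60, 52, 42, 30] 100000 50000 0 850000 0 0 150000 50000 0 0 12500)) (.E 2))) (.L 6 7
    [4, 4, 4, 4, 5] [78, 72, 60, 48, 36, 0] [82, 80, 78, 72, 64, 54] 100000 108036 108036 785716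
    78571 0 100000 100000 3571 0 25000))) (.E 1)) (.E 1))) (.S 3 11 (.S 3 5 (.S 3 2 (.L 6 7 [4, 4,
    4, 4, 5] [78, 72, 60, 48, 36, 0] [] 100000 32353 32352 1100000 8824 2941 8824 17647 0 2941
    22549) (.S 3 4 (.S 3 3 (.L 7 8 [4, 4, 4, 4, 4] [78, 72, 60, 48, 36, 0] [48, 40, 30, 18, 0, 0]
    100000 24138 24138 1201150 11494 11494 40230 28736 3448 20690 33333) (.S 4 4 (.S 4 2 (.S 4 1
    (.L 6 7 [4, 4, 4, 4, 5] [48, 36, 0, 0, 0, 0] [64, 58, 50, 40, 28, 0] 100000 25000 24999 1197436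
    25641 0 46154 38462 0 46154 30769) (.L 6 7 [4, 4, 4, 4, 5] [60, 48, 36, 0, 0, 0] [64, 58, 50,
    40, 28, 0] 100000 27273 18182 1063636 9091 0 109091 18182 0 18182 25000)) (.L 6 7 [4, 4, 4, 4,
    5] [78, 72, 60, 48, 36, 0] [64, 58, 50, 40, 28, 0] 100000 50000 0 850000 0 0 150000 0 0 0
    12500)) (.E 2))) (.E 1))) (.E 1)) (.E 1))

lemma s20_20_6_4_16 {n : ℕ} (hn : 5 ≤ n) : NoNd (d20_20_6_4.R : ℤ) d20_20_6_4.H n d20_20_6_4.a d20_20_6_4.b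
    (BlkD.inB (BlkD.upd (BlkD.upd (BlkD.upd (BlkD.upd (fun _ => 0) 0 2) 0 3) 1 3) 1 4)
      (BlkD.upd (BlkD.upd (BlkD.upd (BlkD.upd (BlkD.upd (BlkD.upd (BlkD.upd (fun _ => 20) 0 6) 2 4) 0 3) 1 17) 1 8) 1 4) 2 2)) :=
  BlkD.tree_sound (BlkD.pairOk_sound k20_20_6_4) (by decide) hn t20_20_6_4_16 _ _ (by decide +kernel)

/-- certificates of the pair `(6, 4)`, part 17 -/
def t20_20_6_4_17 : BlkD.Tr :=
  .S 2 3 (.S 3 10 (.S 3 5 (.S 3 2 (.L 5 6 [4, 4, 4, 5, 6] [78, 72, 60, 48, 36, 0] [] 100000 23684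
    23683 1189475 15789 0 42105 47368 5263 47368 42105) (.L 6 7 [4, 4, 4, 4, 5] [78, 72, 60, 48,
    36, 0] [] 100000 23667 23667 1204000 24000 0 61333 33333 5333 66667 33333)) (.E 1)) (.E 1)) (.L
    6 7 [4, 4, 4, 4, 5] [78, 72, 60, 48, 36, 0] [] 100000 23246 23246 1182460 24561 0 59649 26316
    7018 66667 33333)

lemma s20_20_6_4_17 {n : ℕ} (hn : 5 ≤ n) : NoNd (d20_20_6_4.R : ℤ) d20_20_6_4.H n d20_20_6_4.a d20_20_6_4.b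
    (BlkD.inB (BlkD.upd (BlkD.upd (BlkD.upd (BlkD.upd (BlkD.upd (fun _ => 0) 0 2) 0 3) 1 3) 1 4) 2 3)
      (BlkD.upd (BlkD.upd (BlkD.upd (BlkD.upd (BlkD.upd (BlkD.upd (fun _ => 20) 0 6) 2 4) 0 3) 1 17) 1 8) 1 4)) :=
  BlkD.tree_sound (BlkD.pairOk_sound k20_20_6_4) (by decide) hn t20_20_6_4_17 _ _ (by decide +kernel)

/-- certificates of the pair `(6, 4)`, part 18 -/
def t20_20_6_4_18 : BlkD.Tr :=
  .S 2 0 (.L 6 7 [4, 4, 4, 4, 5] [96, 92, 86, 74, 62, 50] [] 100000 50000 50000 900000 0 0 50000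
    100000 0 0 0) (.S 3 11 (.S 3 5 (.S 3 2 (.L 6 7 [4, 4, 4, 4, 5] [96, 92, 86, 74, 62, 50] []
    100000 24243 24243 1115151 6061 12121 78788 27273 12121 3030 25253) (.S 3 4 (.S 3 3 (.L 6 7 [4,
    4, 4, 4, 5] [96, 92, 86, 74, 62, 50] [42, 34, 24, 12, 0, 0] 100000 41667 41667 1111112 22222
    22222 44444 44444 0 0 22222) (.S 4 5 (.S 4 2 (.L 7 8 [4, 4, 4, 4, 4] [74, 62, 50, 0, 0, 0] [56,
    50, 42, 32, 20, 0] 100000 29968 29968 1174999 19137 28909 45603 38681 1384 7329 24104) (.L 7 8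
    [4, 4, 4, 4, 4] [96, 92, 86, 74, 62, 50] [56, 50, 42, 32, 20, 0] 100000 26829 19511 1070732
    4878 4878 107317 17073 0 19512 25000)) (.E 2))) (.S 4 5 (.S 4 2 (.S 4 1 (.L 5 6 [4, 4, 4, 5, 6]
    [62, 50, 0, 0, 0, 0] [68, 66, 60, 52, 42, 30] 100000 22727 22726 1184093 22727 22727 68182
    34091 40909 45455 18182) (.L 5 6 [4, 4, 4, 5, 6] [74, 62, 50, 0, 0, 0] [68, 66, 60, 52, 42, 30]
    100000 29762 29761 1157143 23810 0 85714 28571 0 33333 19048)) (.L 5 6 [4, 4, 4, 5, 6] [96, 92,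
    86, 74, 62, 50] [68, 66, 60, 52, 42, 30] 100000 25862 22414 1086209 862 862 103448 35057 0
    22414 25575)) (.E 2)))) (.L 5 6 [4, 4, 4, 5, 6] [96, 92, 86, 74, 62, 50] [] 100000 50000 50000
    1000000 0 0 100000 100000 0 0 0)) (.E 1))

lemma s20_20_6_4_18 {n : ℕ} (hn : 5 ≤ n) : NoNd (d20_20_6_4.R : ℤ) d20_20_6_4.H n d20_20_6_4.a d20_20_6_4.b
    (BlkD.inB (BlkD.upd (BlkD.upd (BlkD.upd (fun _ => 0) 0 2) 0 3) 1 5)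
      (BlkD.upd (BlkD.upd (BlkD.upd (BlkD.upd (BlkD.upd (BlkD.upd (BlkD.upd (BlkD.upd (BlkD.upd (fun _ => 20) 0 6) 2 4) 0 3) 1 17) 1 8) 1 6) 1 5) 2 2) 2 1)) :=
  BlkD.tree_sound (BlkD.pairOk_sound k20_20_6_4) (by decide) hn t20_20_6_4_18 _ _ (by decide +kernel)

/-- certificates of the pair `(6, 4)`, part 19 -/
def t20_20_6_4_19 : BlkD.Tr :=
  .S 3 10 (.S 3 5 (.S 3 2 (.L 5 6 [4, 4, 4, 5, 6] [96, 92, 86, 74, 62, 50] [] 100000 22349 22349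
    1205302 2652 1610 72348 53030 11174 10606 30682) (.S 3 4 (.S 3 3 (.S 4 5 (.S 4 2 (.S 4 1 (.L 5
    6 [4, 4, 4, 5, 6] [62, 50, 0, 0, 0, 0] [48, 40, 30, 18, 0, 0] 100000 16667 16667 1211112 22222
    0 66667 44444 44444 44444 22222) (.L 5 6 [4, 4, 4, 5, 6] [74, 62, 50, 0, 0, 0] [48, 40, 30, 18,
    0, 0] 100000 25424 25424 1167797 15254 0 86441 29661 0 28814 23729)) (.L 5 6 [4, 4, 4, 5, 6]
    [96, 92, 86, 74, 62, 50] [48, 40, 30, 18, 0, 0] 100000 25000 25000 1100000 0 0 100000 12500 0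
    25000 25000)) (.E 2)) (.S 4 5 (.S 4 2 (.S 4 1 (.L 5 6 [4, 4, 4, 5, 6] [62, 50, 0, 0, 0, 0] [64,
    58, 50, 40, 28, 0] 100000 22223 22223 1192591 29630 0 88889 29630 29630 44444 22222) (.L 5 6
    [4, 4, 4, 5, 6] [74, 62, 50, 0, 0, 0] [64, 58, 50, 40, 28, 0] 100000 30000 30000 1140000 20000
    0 100000 20000 0 40000 20000)) (.L 5 6 [4, 4, 4, 5, 6] [96, 92, 86, 74, 62, 50] [64, 58, 50,
    40, 28, 0] 100000 25000 25000 1100000 0 0 100000 12500 0 25000 25000)) (.E 2))) (.E 1))) (.E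
    1)) (.E 1)

lemma s20_20_6_4_19 {n : ℕ} (hn : 5 ≤ n) : NoNd (d20_20_6_4.R : ℤ) d20_20_6_4.H n d20_20_6_4.a d20_20_6_4.b
    (BlkD.inB (BlkD.upd (BlkD.upd (BlkD.upd (BlkD.upd (fun _ => 0) 0 2) 0 3) 1 5) 2 2)
      (BlkD.upd (BlkD.upd (BlkD.upd (BlkD.upd (BlkD.upd (BlkD.upd (BlkD.upd (BlkD.upd (fun _ => 20) 0 6) 2 4) 0 3) 1 17) 1 8) 1 6) 1 5) 2 2)) :=
  BlkD.tree_sound (BlkD.pairOk_sound k20_20_6_4) (by decide) hn t20_20_6_4_19 _ _ (by decide +kernel)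

/-- certificates of the pair `(6, 4)`, part 20 -/
def t20_20_6_4_20 : BlkD.Tr :=
  .S 2 3 (.S 3 9 (.S 3 4 (.S 3 2 (.S 3 1 (.L 5 6 [4, 4, 4, 5, 6] [96, 92, 86, 74, 62, 50] [] 100000
    21552 21552 1206897 3448 3448 86207 17241 13793 13793 27586) (.S 4 5 (.S 4 2 (.L 4 5 [4, 4, 5,
    6, 7] [74, 62, 50, 0, 0, 0] [36, 26, 14, 0, 0, 0] 100000 29546 29546 1178790 30303 0 66667
    30303 6061 66667 33333) (.L 4 5 [4, 4, 5, 6, 7] [96, 92, 86, 74, 62, 50] [36, 26, 14, 0, 0, 0]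
    100000 25000 25000 1100000 0 0 100000 0 0 25000 25000)) (.E 2))) (.S 3 3 (.S 4 5 (.S 4 2 (.L 5
    6 [4, 4, 4, 5, 6] [74, 62, 50, 0, 0, 0] [54, 46, 36, 24, 0, 0] 100000 33855 33855 1161458 38542
    0 77083 22917 3125 57292 19792) (.L 5 6 [4, 4, 4, 5, 6] [96, 92, 86, 74, 62, 50] [54, 46, 36,
    24, 0, 0] 100000 25000 25000 1100000 0 0 100000 0 0 25000 25000)) (.E 2)) (.E 1))) (.E 1)) (.E
    1)) (.S 3 8 (.S 3 4 (.S 3 2 (.S 3 1 (.L 5 6 [4, 4, 4, 5, 6] [96, 92, 86, 74, 62, 50] [] 100000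
    40000 40000 1133335 33333 0 66667 33333 6667 33333 16667) (.L 7 8 [4, 4, 4, 4, 4] [96, 92, 86,
    74, 62, 50] [40, 30, 18, 0, 0, 0] 100000 36364 36364 1120455 47727 0 70455 18182 4545 65909
    25000)) (.E 1)) (.E 1)) (.E 1))

lemma s20_20_6_4_20 {n : ℕ} (hn : 5 ≤ n) : NoNd (d20_20_6_4.R : ℤ) d20_20_6_4.H n d20_20_6_4.a d20_20_6_4.b
    (BlkD.inB (BlkD.upd (BlkD.upd (BlkD.upd (BlkD.upd (fun _ => 0) 0 2) 0 3) 1 5) 2 3)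
      (BlkD.upd (BlkD.upd (BlkD.upd (BlkD.upd (BlkD.upd (BlkD.upd (BlkD.upd (fun _ => 20) 0 6) 2 4) 0 3) 1 17) 1 8) 1 6) 1 5)) :=
  BlkD.tree_sound (BlkD.pairOk_sound k20_20_6_4) (by decide) hn t20_20_6_4_20 _ _ (by decide +kernel)

/-- certificates of the pair `(6, 4)`, part 21 -/
def t20_20_6_4_21 : BlkD.Tr :=
  .S 2 0 (.L 7 8 [4, 4, 4, 4, 4] [112, 112, 108, 102, 90, 78] [] 100000 50000 50000 900000 0 0
    50000 100000 0 0 0) (.S 3 10 (.S 3 5 (.S 3 2 (.L 7 8 [4, 4, 4, 4, 4] [112, 112, 108, 102, 90,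
    78] [] 100000 29032 29031 1129034 22581 25806 51613 25806 6452 0 25806) (.S 3 4 (.S 3 3 (.S 4 6
    (.S 4 3 (.L 7 8 [4, 4, 4, 4, 4] [102, 90, 78, 66, 0, 0] [42, 34, 24, 12, 0, 0] 100000 28296
    28296 1177402 26271 14595 64407 29190 6497 2919 23635) (.L 7 8 [4, 4, 4, 4, 4] [112, 112, 108,
    102, 90, 78] [42, 34, 24, 12, 0, 0] 100000 30769 30768 1076924 7692 7692 100000 17949 0 7692
    25641)) (.E 2)) (.S 4 6 (.S 4 3 (.L 6 7 [4, 4, 4, 4, 5] [102, 90, 78, 66, 0, 0] [56, 50, 42,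
    32, 20, 0] 100000 23959 23959 1200002 16667 12500 75000 33333 4167 25000 20833) (.L 6 7 [4, 4,
    4, 4, 5] [112, 112, 108, 102, 90, 78] [56, 50, 42, 32, 20, 0] 100000 31667 5000 993333 0 13333
    126667 20000 0 13333 33333)) (.E 2))) (.L 1 1 [10, 13, 16, 17, 16] [112, 112, 108, 102, 90, 78]
    [68, 66, 60, 52, 42, 30] 100000 83334 83334 933333 0 66667 100000 100000 0 0 0))) (.E 2)) (.E
    1))

lemma s20_20_6_4_21 {n : ℕ} (hn : 5 ≤ n) : NoNd (d20_20_6_4.R : ℤ) d20_20_6_4.H n d20_20_6_4.a d20_20_6_4.b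
    (BlkD.inB (BlkD.upd (BlkD.upd (BlkD.upd (BlkD.upd (fun _ => 0) 0 2) 0 3) 1 5) 1 6)
      (BlkD.upd (BlkD.upd (BlkD.upd (BlkD.upd (BlkD.upd (BlkD.upd (BlkD.upd (BlkD.upd (fun _ => 20) 0 6) 2 4) 0 3) 1 17) 1 8) 1 6) 2 2) 2 1)) :=
  BlkD.tree_sound (BlkD.pairOk_sound k20_20_6_4) (by decide) hn t20_20_6_4_21 _ _ (by decide +kernel)

/-- certificates of the pair `(6, 4)`, part 22 -/
def t20_20_6_4_22 : BlkD.Tr :=
  .S 3 9 (.S 3 4 (.S 3 2 (.L 6 7 [4, 4, 4, 4, 5] [112, 112, 108, 102, 90, 78] [] 100000 28161 28161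
    1187069 25000 287 62644 37644 2586 10345 25000) (.S 3 3 (.S 4 6 (.S 4 3 (.L 6 7 [4, 4, 4, 4, 5]
    [102, 90, 78, 66, 0, 0] [48, 40, 30, 18, 0, 0] 100000 23864 23864 1200000 24242 7576 71212
    36364 4545 39394 24242) (.L 6 7 [4, 4, 4, 4, 5] [112, 112, 108, 102, 90, 78] [48, 40, 30, 18,
    0, 0] 100000 28846 13460 1038461 7692 0 115385 19231 0 23077 23077)) (.E 2)) (.L 7 8 [4, 4, 4,
    4, 4] [112, 112, 108, 102, 90, 78] [64, 58, 50, 40, 28, 0] 100000 35000 34999 1157143 14286 0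
    100000 42857 0 42857 11429))) (.E 1)) (.E 1)

lemma s20_20_6_4_22 {n : ℕ} (hn : 5 ≤ n) : NoNd (d20_20_6_4.R : ℤ) d20_20_6_4.H n d20_20_6_4.a d20_20_6_4.b
    (BlkD.inB (BlkD.upd (BlkD.upd (BlkD.upd (BlkD.upd (BlkD.upd (fun _ => 0) 0 2) 0 3) 1 5) 1 6) 2 2)
      (BlkD.upd (BlkD.upd (BlkD.upd (BlkD.upd (BlkD.upd (BlkD.upd (BlkD.upd (fun _ => 20) 0 6) 2 4) 0 3) 1 17) 1 8) 1 6) 2 2)) :=
  BlkD.tree_sound (BlkD.pairOk_sound k20_20_6_4) (by decide) hn t20_20_6_4_22 _ _ (by decide +kernel)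

/-- certificates of the pair `(6, 4)`, part 23 -/
def t20_20_6_4_23 : BlkD.Tr :=
  .S 2 3 (.S 3 8 (.S 3 4 (.S 3 2 (.S 3 1 (.L 7 8 [4, 4, 4, 4, 4] [112, 112, 108, 102, 90, 78] []
    100000 23589 23589 1193549 20161 12097 74194 45968 5645 33871 26613) (.L 5 6 [4, 4, 4, 5, 6]
    [112, 112, 108, 102, 90, 78] [36, 26, 14, 0, 0, 0] 100000 29717 29717 1179246 16981 0 84906
    33962 0 60377 13208)) (.S 3 3 (.L 7 8 [4, 4, 4, 4, 4] [112, 112, 108, 102, 90, 78] [54, 46, 36,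
    24, 0, 0] 100000 60000 60000 1033334 33333 0 100000 66667 0 20000 6667) (.E 1))) (.E 1)) (.E
    1)) (.L 7 8 [4, 4, 4, 4, 4] [112, 112, 108, 102, 90, 78] [] 100000 21693 21693 1179380 13619 0
    93385 20233 13230 52529 18677)

lemma s20_20_6_4_23 {n : ℕ} (hn : 5 ≤ n) : NoNd (d20_20_6_4.R : ℤ) d20_20_6_4.H n d20_20_6_4.a d20_20_6_4.b
    (BlkD.inB (BlkD.upd (BlkD.upd (BlkD.upd (BlkD.upd (BlkD.upd (fun _ => 0) 0 2) 0 3) 1 5) 1 6) 2 3)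
      (BlkD.upd (BlkD.upd (BlkD.upd (BlkD.upd (BlkD.upd (BlkD.upd (fun _ => 20) 0 6) 2 4) 0 3) 1 17) 1 8) 1 6)) :=
  BlkD.tree_sound (BlkD.pairOk_sound k20_20_6_4) (by decide) hn t20_20_6_4_23 _ _ (by decide +kernel)

/-- certificates of the pair `(6, 4)`, part 24 -/
def t20_20_6_4_24 : BlkD.Tr :=
  .S 2 1 (.S 2 0 (.L 7 8 [4, 4, 4, 4, 4] [130, 130, 130, 126, 120, 108] [] 100000 80000 0 640000 0
    0 180000 100000 0 0 0) (.S 3 9 (.S 3 4 (.S 3 2 (.L 7 8 [4, 4, 4, 4, 4] [130, 130, 130, 126,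
    120, 108] [] 100000 25000 25000 1100000 0 0 100000 0 25000 0 25000) (.S 3 3 (.L 7 8 [4, 4, 4,
    4, 4] [130, 130, 130, 126, 120, 108] [42, 34, 24, 12, 0, 0] 100000 29167 29167 1166666 0 16667
    100000 16667 12500 0 33333) (.S 4 7 (.S 4 3 (.L 7 8 [4, 4, 4, 4, 4] [120, 108, 96, 84, 0, 0]
    [56, 50, 42, 32, 20, 0] 100000 55555 55554 1055558 44444 44444 88889 44444 0 11111 22222) (.L 7
    8 [4, 4, 4, 4, 4] [130, 130, 130, 126, 120, 108] [56, 50, 42, 32, 20, 0] 100000 25000 24999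
    1136538 0 21154 100000 21154 9615 59615 15385)) (.E 2)))) (.E 2)) (.E 1))) (.S 3 8 (.S 3 4 (.S
    3 2 (.L 7 8 [4, 4, 4, 4, 4] [130, 130, 130, 126, 120, 108] [] 100000 25000 24999 1183118 7792
    1299 100000 25974 7792 18182 24675) (.S 3 3 (.S 4 7 (.S 4 3 (.L 7 8 [4, 4, 4, 4, 4] [120, 108,
    96, 84, 0, 0] [48, 40, 30, 18, 0, 0] 100000 68750 68750 1000000 50000 0 100000 100000 0 0
    25000) (.L 7 8 [4, 4, 4, 4, 4] [130, 130, 130, 126, 120, 108] [48, 40, 30, 18, 0, 0] 100000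
    25001 25001 1140217 11957 0 100000 23913 8696 46739 16304)) (.E 2)) (.E 2))) (.E 1)) (.E 1))

lemma s20_20_6_4_24 {n : ℕ} (hn : 5 ≤ n) : NoNd (d20_20_6_4.R : ℤ) d20_20_6_4.H n d20_20_6_4.a d20_20_6_4.b
    (BlkD.inB (BlkD.upd (BlkD.upd (BlkD.upd (BlkD.upd (fun _ => 0) 0 2) 0 3) 1 5) 1 7)
      (BlkD.upd (BlkD.upd (BlkD.upd (BlkD.upd (BlkD.upd (BlkD.upd (BlkD.upd (fun _ => 20) 0 6) 2 4) 0 3) 1 17) 1 8) 1 7) 2 2)) :=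
  BlkD.tree_sound (BlkD.pairOk_sound k20_20_6_4) (by decide) hn t20_20_6_4_24 _ _ (by decide +kernel)

/-- certificates of the pair `(6, 4)`, part 25 -/
def t20_20_6_4_25 : BlkD.Tr :=
  .S 2 3 (.S 3 7 (.S 3 3 (.S 3 1 (.L 7 8 [4, 4, 4, 4, 4] [130, 130, 130, 126, 120, 108] [] 100000
    25000 25000 1176924 7692 7692 100000 38462 1923 23077 30769) (.L 5 6 [4, 4, 4, 5, 6] [130, 130,
    130, 126, 120, 108] [] 100000 120000 120000 733334 93333 0 96667 100000 0 0 6667)) (.E 1)) (.E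
    1)) (.L 5 6 [4, 4, 4, 5, 6] [130, 130, 130, 126, 120, 108] [] 100000 100000 100000 800000
    100000 0 100000 0 0 0 0)

lemma s20_20_6_4_25 {n : ℕ} (hn : 5 ≤ n) : NoNd (d20_20_6_4.R : ℤ) d20_20_6_4.H n d20_20_6_4.a d20_20_6_4.b
    (BlkD.inB (BlkD.upd (BlkD.upd (BlkD.upd (BlkD.upd (BlkD.upd (fun _ => 0) 0 2) 0 3) 1 5) 1 7) 2 3)
      (BlkD.upd (BlkD.upd (BlkD.upd (BlkD.upd (BlkD.upd (BlkD.upd (fun _ => 20) 0 6) 2 4) 0 3) 1 17) 1 8) 1 7)) :=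
  BlkD.tree_sound (BlkD.pairOk_sound k20_20_6_4) (by decide) hn t20_20_6_4_25 _ _ (by decide +kernel)

/-- certificates of the pair `(6, 4)`, part 26 -/
def t20_20_6_4_26 : BlkD.Tr :=
  .E 0

lemma s20_20_6_4_26 {n : ℕ} (hn : 5 ≤ n) : NoNd (d20_20_6_4.R : ℤ) d20_20_6_4.H n d20_20_6_4.a d20_20_6_4.b
    (BlkD.inB (BlkD.upd (BlkD.upd (BlkD.upd (BlkD.upd (BlkD.upd (fun _ => 0) 0 2) 0 3) 1 5) 1 7) 1 8)
      (BlkD.upd (BlkD.upd (BlkD.upd (BlkD.upd (BlkD.upd (fun _ => 20) 0 6) 2 4) 0 3) 1 17) 1 8)) :=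
  BlkD.tree_sound (BlkD.pairOk_sound k20_20_6_4) (by decide) hn t20_20_6_4_26 _ _ (by decide +kernel)

/-- certificates of the pair `(6, 4)`, part 27 -/
def t20_20_6_4_27 : BlkD.Tr :=
  .E 0

lemma s20_20_6_4_27 {n : ℕ} (hn : 5 ≤ n) : NoNd (d20_20_6_4.R : ℤ) d20_20_6_4.H n d20_20_6_4.a d20_20_6_4.b
    (BlkD.inB (BlkD.upd (BlkD.upd (BlkD.upd (fun _ => 0) 0 2) 0 3) 1 9)
      (BlkD.upd (BlkD.upd (BlkD.upd (BlkD.upd (fun _ => 20) 0 6) 2 4) 0 3) 1 17)) :=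
  BlkD.tree_sound (BlkD.pairOk_sound k20_20_6_4) (by decide) hn t20_20_6_4_27 _ _ (by decide +kernel)

/-- certificates of the pair `(6, 4)`, part 28 -/
def t20_20_6_4_28 : BlkD.Tr :=
  .E 0

lemma s20_20_6_4_28 {n : ℕ} (hn : 5 ≤ n) : NoNd (d20_20_6_4.R : ℤ) d20_20_6_4.H n d20_20_6_4.a d20_20_6_4.b
    (BlkD.inB (BlkD.upd (BlkD.upd (BlkD.upd (fun _ => 0) 0 2) 0 3) 1 18)
      (BlkD.upd (BlkD.upd (BlkD.upd (fun _ => 20) 0 6) 2 4) 0 3)) :=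
  BlkD.tree_sound (BlkD.pairOk_sound k20_20_6_4) (by decide) hn t20_20_6_4_28 _ _ (by decide +kernel)

/-- certificates of the pair `(6, 4)`, part 29 -/
def t20_20_6_4_29 : BlkD.Tr :=
  .L 5 6 [4, 4, 4, 5, 6] [] [] 100000 25000 25000 1162500 18750 0 18750 62500 0 37500 37500

lemma s20_20_6_4_29 {n : ℕ} (hn : 5 ≤ n) : NoNd (d20_20_6_4.R : ℤ) d20_20_6_4.H n d20_20_6_4.a d20_20_6_4.b
    (BlkD.inB (BlkD.upd (fun _ => 0) 0 4)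
      (BlkD.upd (BlkD.upd (BlkD.upd (BlkD.upd (BlkD.upd (BlkD.upd (BlkD.upd (BlkD.upd (fun _ => 20) 0 6) 2 4) 0 5) 0 4) 1 16) 1 8) 1 4) 1 2)) :=
  BlkD.tree_sound (BlkD.pairOk_sound k20_20_6_4) (by decide) hn t20_20_6_4_29 _ _ (by decide +kernel)

/-- certificates of the pair `(6, 4)`, part 30 -/
def t20_20_6_4_30 : BlkD.Tr :=
  .S 2 2 (.S 2 1 (.S 2 0 (.L 5 6 [4, 4, 4, 5, 6] [66, 54, 42, 30, 0, 0] [] 100000 50000 50000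
    900000 0 0 0 100000 0 0 0) (.S 3 12 (.S 3 6 (.S 3 3 (.L 5 6 [4, 4, 4, 5, 6] [66, 54, 42, 30, 0,
    0] [] 100000 33333 33332 1091667 8333 8333 8333 8333 0 0 22917) (.S 3 5 (.S 3 4 (.L 5 6 [4, 4,
    4, 5, 6] [66, 54, 42, 30, 0, 0] [56, 50, 42, 32, 20, 0] 100000 27632 27632 1157897 0 31579
    63158 42105 0 21053 25000) (.L 7 8 [4, 4, 4, 4, 4] [66, 54, 42, 30, 0, 0] [68, 66, 60, 52, 42,
    30] 100000 25001 25001 1190908 9091 27273 36364 45455 0 27273 25000)) (.L 7 8 [4, 4, 4, 4, 4]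
    [66, 54, 42, 30, 0, 0] [82, 80, 78, 72, 64, 54] 100000 50000 50000 1000000 0 0 100000 100000 0
    0 0))) (.E 1)) (.E 1))) (.S 3 11 (.S 3 5 (.S 3 2 (.L 7 8 [4, 4, 4, 4, 4] [66, 54, 42, 30, 0, 0]
    [] 100000 33334 33334 1100000 0 0 0 0 0 0 22222) (.S 3 4 (.S 3 3 (.L 5 6 [4, 4, 4, 5, 6] [66,
    54, 42, 30, 0, 0] [48, 40, 30, 18, 0, 0] 100000 23937 23937 1200000 14894 0 70213 44681 4255
    44681 25532) (.S 4 3 (.S 4 1 (.S 4 0 (.L 6 7 [4, 4, 4, 4, 5] [30, 0, 0, 0, 0, 0] [64, 58, 50,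
    40, 28, 0] 100000 12500 12500 1200001 33333 0 0 33333 50000 50000 50000) (.L 6 7 [4, 4, 4, 4,
    5] [42, 30, 0, 0, 0, 0] [64, 58, 50, 40, 28, 0] 100000 25000 24999 1171429 14286 0 100000 28571
    0 28571 28571)) (.L 6 7 [4, 4, 4, 4, 5] [66, 54, 42, 30, 0, 0] [64, 58, 50, 40, 28, 0] 100000
    26667 20000 1073333 13333 0 106667 16667 0 20000 25000)) (.E 2))) (.E 1))) (.E 1)) (.E 1))) (.L
    6 7 [4, 4, 4, 4, 5] [66, 54, 42, 30, 0, 0] [] 100000 24108 24108 1200000 21429 0 78571 39286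
    3571 39286 30357)

lemma s20_20_6_4_30 {n : ℕ} (hn : 5 ≤ n) : NoNd (d20_20_6_4.R : ℤ) d20_20_6_4.H n d20_20_6_4.a d20_20_6_4.b
    (BlkD.inB (BlkD.upd (BlkD.upd (fun _ => 0) 0 4) 1 3)
      (BlkD.upd (BlkD.upd (BlkD.upd (BlkD.upd (BlkD.upd (BlkD.upd (BlkD.upd (BlkD.upd (fun _ => 20) 0 6) 2 4) 0 5) 0 4) 1 16) 1 8) 1 4) 1 3)) :=
  BlkD.tree_sound (BlkD.pairOk_sound k20_20_6_4) (by decide) hn t20_20_6_4_30 _ _ (by decide +kernel)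

/-- certificates of the pair `(6, 4)`, part 31 -/
def t20_20_6_4_31 : BlkD.Tr :=
  .S 2 1 (.S 2 0 (.L 6 7 [4, 4, 4, 4, 5] [86, 80, 68, 56, 44, 0] [] 100000 50000 50000 800000 0 0
    100000 100000 0 0 0) (.S 3 11 (.S 3 5 (.S 3 2 (.L 6 7 [4, 4, 4, 4, 5] [86, 80, 68, 56, 44, 0]
    [] 100000 33334 33334 1066667 0 33333 33333 33333 0 0 22222) (.S 3 4 (.L 5 6 [4, 4, 4, 5, 6]
    [86, 80, 68, 56, 44, 0] [] 100000 30435 30435 1173914 0 39130 53623 47826 5797 11594 23551) (.S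
    4 4 (.S 4 2 (.S 4 1 (.L 5 6 [4, 4, 4, 5, 6] [56, 44, 0, 0, 0, 0] [68, 66, 60, 52, 42, 30]
    100000 50000 50000 1000000 0 100000 0 100000 100000 0 0) (.L 5 6 [4, 4, 4, 5, 6] [68, 56, 44,
    0, 0, 0] [68, 66, 60, 52, 42, 30] 100000 29167 29167 1166667 16667 0 100000 33333 0 50000
    16667)) (.L 5 6 [4, 4, 4, 5, 6] [86, 80, 68, 56, 44, 0] [68, 66, 60, 52, 42, 30] 100000 25862
    22413 1086208 0 1724 103448 35632 0 22414 25287)) (.E 2)))) (.L 5 6 [4, 4, 4, 5, 6] [86, 80,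
    68, 56, 44, 0] [] 100000 50000 50000 1000000 0 0 100000 100000 0 0 0)) (.E 1))) (.S 3 10 (.S 3
    5 (.S 3 2 (.L 5 6 [4, 4, 4, 5, 6] [86, 80, 68, 56, 44, 0] [] 100000 20562 20562 1199102 449
    9326 80000 47416 20000 17753 26517) (.S 3 4 (.S 3 3 (.S 4 4 (.S 4 2 (.S 4 1 (.L 5 6 [4, 4, 4,
    5, 6] [56, 44, 0, 0, 0, 0] [48, 40, 30, 18, 0, 0] 100000 13889 13888 1227778 3704 20370 44444
    61111 53704 44444 20370) (.L 5 6 [4, 4, 4, 5, 6] [68, 56, 44, 0, 0, 0] [48, 40, 30, 18, 0, 0]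
    100000 31250 31250 1150000 25000 0 100000 25000 0 25000 25000)) (.L 5 6 [4, 4, 4, 5, 6] [86,
    80, 68, 56, 44, 0] [48, 40, 30, 18, 0, 0] 100000 25000 25000 1100000 0 0 100000 12500 0 25000
    25000)) (.E 2)) (.S 4 4 (.S 4 2 (.S 4 1 (.L 5 6 [4, 4, 4, 5, 6] [56, 44, 0, 0, 0, 0] [64, 58,
    50, 40, 28, 0] 100000 75000 75000 950000 62500 0 62500 100000 50000 0 50000) (.L 5 6 [4, 4, 4,
    5, 6] [68, 56, 44, 0, 0, 0] [64, 58, 50, 40, 28, 0] 100000 31250 31250 1150000 25000 0 100000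
    25000 0 25000 25000)) (.L 5 6 [4, 4, 4, 5, 6] [86, 80, 68, 56, 44, 0] [64, 58, 50, 40, 28, 0]
    100000 25000 25000 1100000 0 0 100000 12500 0 25000 25000)) (.E 2))) (.E 1))) (.E 1)) (.E 1))

lemma s20_20_6_4_31 {n : ℕ} (hn : 5 ≤ n) : NoNd (d20_20_6_4.R : ℤ) d20_20_6_4.H n d20_20_6_4.a d20_20_6_4.b
    (BlkD.inB (BlkD.upd (BlkD.upd (BlkD.upd (fun _ => 0) 0 4) 1 3) 1 4)
      (BlkD.upd (BlkD.upd (BlkD.upd (BlkD.upd (BlkD.upd (BlkD.upd (BlkD.upd (BlkD.upd (fun _ => 20) 0 6) 2 4) 0 5) 0 4) 1 16) 1 8) 1 4) 2 2)) :=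
  BlkD.tree_sound (BlkD.pairOk_sound k20_20_6_4) (by decide) hn t20_20_6_4_31 _ _ (by decide +kernel)

/-- certificates of the pair `(6, 4)`, part 32 -/
def t20_20_6_4_32 : BlkD.Tr :=
  .S 2 3 (.S 3 9 (.S 3 4 (.S 3 2 (.S 3 1 (.L 5 6 [4, 4, 4, 5, 6] [86, 80, 68, 56, 44, 0] [] 100000
    18750 18750 1200000 0 25000 75000 75000 25000 25000 25000) (.S 4 4 (.S 4 2 (.S 4 1 (.L 6 7 [4,
    4, 4, 4, 5] [56, 44, 0, 0, 0, 0] [36, 26, 14, 0, 0, 0] 100000 4688 4688 1262500 12500 0 12500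
    59375 81250 81250 50000) (.L 6 7 [4, 4, 4, 4, 5] [68, 56, 44, 0, 0, 0] [36, 26, 14, 0, 0, 0]
    100000 25000 25000 1162500 25000 0 87500 25000 0 25000 25000)) (.L 6 7 [4, 4, 4, 4, 5] [86, 80,
    68, 56, 44, 0] [36, 26, 14, 0, 0, 0] 100000 26230 21312 1080328 9836 0 104918 9836 0 21311
    24590)) (.E 2))) (.S 3 3 (.S 4 4 (.S 4 2 (.L 7 8 [4, 4, 4, 4, 4] [68, 56, 44, 0, 0, 0] [54, 46,
    36, 24, 0, 0] 100000 20556 20556 1208888 28889 0 66667 37778 17778 55556 15556) (.L 7 8 [4, 4,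
    4, 4, 4] [86, 80, 68, 56, 44, 0] [54, 46, 36, 24, 0, 0] 100000 27273 18182 1063636 9091 0
    109091 9091 0 18182 25000)) (.E 2)) (.E 1))) (.E 1)) (.E 1)) (.L 6 7 [4, 4, 4, 4, 5] [86, 80,
    68, 56, 44, 0] [] 100000 19887 19887 1201137 25000 0 77273 23864 20455 47727 27273)

lemma s20_20_6_4_32 {n : ℕ} (hn : 5 ≤ n) : NoNd (d20_20_6_4.R : ℤ) d20_20_6_4.H n d20_20_6_4.a d20_20_6_4.b
    (BlkD.inB (BlkD.upd (BlkD.upd (BlkD.upd (BlkD.upd (fun _ => 0) 0 4) 1 3) 1 4) 2 3)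
      (BlkD.upd (BlkD.upd (BlkD.upd (BlkD.upd (BlkD.upd (BlkD.upd (BlkD.upd (fun _ => 20) 0 6) 2 4) 0 5) 0 4) 1 16) 1 8) 1 4)) :=
  BlkD.tree_sound (BlkD.pairOk_sound k20_20_6_4) (by decide) hn t20_20_6_4_32 _ _ (by decide +kernel)

/-- certificates of the pair `(6, 4)`, part 33 -/
def t20_20_6_4_33 : BlkD.Tr :=
  .S 2 1 (.S 2 0 (.L 6 7 [4, 4, 4, 4, 5] [106, 102, 96, 84, 72, 60] [] 100000 50000 50000 800000 0
    0 100000 100000 0 0 0) (.S 3 10 (.S 3 5 (.S 3 2 (.L 6 7 [4, 4, 4, 4, 5] [106, 102, 96, 84, 72,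
    60] [] 100000 25000 25000 1100000 0 12500 87500 12500 12500 0 25000) (.S 3 4 (.S 3 3 (.L 6 7
    [4, 4, 4, 4, 5] [106, 102, 96, 84, 72, 60] [42, 34, 24, 12, 0, 0] 100000 23199 23199 1181081
    3604 15315 84685 22523 15315 7207 33333) (.L 1 1 [10, 13, 16, 17, 16] [106, 102, 96, 84, 72,
    60] [56, 50, 42, 32, 20, 0] 100000 39706 39705 1139705 0 47059 72059 47059 7353 20588 26471))
    (.L 1 1 [10, 13, 16, 17, 16] [106, 102, 96, 84, 72, 60] [68, 66, 60, 52, 42, 30] 100000 83334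
    83334 933333 0 66667 100000 100000 0 0 0))) (.E 2)) (.E 1))) (.S 3 9 (.S 3 4 (.S 3 2 (.L 1 1
    [10, 13, 16, 17, 16] [106, 102, 96, 84, 72, 60] [] 100000 19815 19814 1210372 0 0 89630 38519
    20741 20741 22963) (.S 3 3 (.S 4 5 (.S 4 2 (.L 6 7 [4, 4, 4, 4, 5] [84, 72, 60, 0, 0, 0] [48,
    40, 30, 18, 0, 0] 100000 14831 14831 1237288 20339 0 61017 40678 40678 40678 15254) (.L 6 7 [4,
    4, 4, 4, 5] [106, 102, 96, 84, 72, 60] [48, 40, 30, 18, 0, 0] 100000 25000 24999 1176470 11765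
    0 100000 17647 1471 23529 29412)) (.E 2)) (.S 4 5 (.S 4 2 (.L 6 7 [4, 4, 4, 4, 5] [84, 72, 60,
    0, 0, 0] [64, 58, 50, 40, 28, 0] 100000 80556 80556 933332 55556 0 100000 100000 0 0 11111) (.L
    6 7 [4, 4, 4, 4, 5] [106, 102, 96, 84, 72, 60] [64, 58, 50, 40, 28, 0] 100000 50000 50000
    1000000 0 0 100000 100000 0 0 0)) (.E 2)))) (.E 1)) (.E 1))

lemma s20_20_6_4_33 {n : ℕ} (hn : 5 ≤ n) : NoNd (d20_20_6_4.R : ℤ) d20_20_6_4.H n d20_20_6_4.a d20_20_6_4.b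
    (BlkD.inB (BlkD.upd (BlkD.upd (fun _ => 0) 0 4) 1 5)
      (BlkD.upd (BlkD.upd (BlkD.upd (BlkD.upd (BlkD.upd (BlkD.upd (BlkD.upd (BlkD.upd (BlkD.upd (fun _ => 20) 0 6) 2 4) 0 5) 0 4) 1 16) 1 8) 1 6) 1 5) 2 2)) :=
  BlkD.tree_sound (BlkD.pairOk_sound k20_20_6_4) (by decide) hn t20_20_6_4_33 _ _ (by decide +kernel)

/-- certificates of the pair `(6, 4)`, part 34 -/
def t20_20_6_4_34 : BlkD.Tr :=
  .S 2 3 (.S 3 8 (.S 3 4 (.S 3 2 (.L 5 6 [4, 4, 4, 5, 6] [106, 102, 96, 84, 72, 60] [] 100000 21094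
    21094 1212500 15625 0 78125 31250 15625 37500 18750) (.S 3 3 (.S 4 5 (.S 4 2 (.L 5 6 [4, 4, 4,
    5, 6] [84, 72, 60, 0, 0, 0] [54, 46, 36, 24, 0, 0] 100000 78125 78125 950000 50000 0 100000
    100000 0 0 12500) (.L 5 6 [4, 4, 4, 5, 6] [106, 102, 96, 84, 72, 60] [54, 46, 36, 24, 0, 0]
    100000 50000 50000 1000000 0 0 100000 100000 0 0 0)) (.E 2)) (.E 1))) (.E 1)) (.E 1)) (.L 5 6
    [4, 4, 4, 5, 6] [106, 102, 96, 84, 72, 60] [] 100000 25000 24999 1157142 14286 0 100000 14286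
    14286 42857 28571)

lemma s20_20_6_4_34 {n : ℕ} (hn : 5 ≤ n) : NoNd (d20_20_6_4.R : ℤ) d20_20_6_4.H n d20_20_6_4.a d20_20_6_4.b
    (BlkD.inB (BlkD.upd (BlkD.upd (BlkD.upd (fun _ => 0) 0 4) 1 5) 2 3)
      (BlkD.upd (BlkD.upd (BlkD.upd (BlkD.upd (BlkD.upd (BlkD.upd (BlkD.upd (BlkD.upd (fun _ => 20) 0 6) 2 4) 0 5) 0 4) 1 16) 1 8) 1 6) 1 5)) :=
  BlkD.tree_sound (BlkD.pairOk_sound k20_20_6_4) (by decide) hn t20_20_6_4_34 _ _ (by decide +kernel)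

/-- certificates of the pair `(6, 4)`, part 35 -/
def t20_20_6_4_35 : BlkD.Tr :=
  .L 5 6 [4, 4, 4, 5, 6] [124, 124, 120, 114, 102, 90] [] 100000 25000 25000 1183335 8333 0 100000
    25000 8333 16667 25000

lemma s20_20_6_4_35 {n : ℕ} (hn : 5 ≤ n) : NoNd (d20_20_6_4.R : ℤ) d20_20_6_4.H n d20_20_6_4.a d20_20_6_4.b
    (BlkD.inB (BlkD.upd (BlkD.upd (BlkD.upd (fun _ => 0) 0 4) 1 5) 1 6)
      (BlkD.upd (BlkD.upd (BlkD.upd (BlkD.upd (BlkD.upd (BlkD.upd (BlkD.upd (fun _ => 20) 0 6) 2 4) 0 5) 0 4) 1 16) 1 8) 1 6)) :=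
  BlkD.tree_sound (BlkD.pairOk_sound k20_20_6_4) (by decide) hn t20_20_6_4_35 _ _ (by decide +kernel)

/-- certificates of the pair `(6, 4)`, part 36 -/
def t20_20_6_4_36 : BlkD.Tr :=
  .E 0

lemma s20_20_6_4_36 {n : ℕ} (hn : 5 ≤ n) : NoNd (d20_20_6_4.R : ℤ) d20_20_6_4.H n d20_20_6_4.a d20_20_6_4.b
    (BlkD.inB (BlkD.upd (BlkD.upd (BlkD.upd (fun _ => 0) 0 4) 1 5) 1 7)
      (BlkD.upd (BlkD.upd (BlkD.upd (BlkD.upd (BlkD.upd (BlkD.upd (fun _ => 20) 0 6) 2 4) 0 5) 0 4) 1 16) 1 8)) :=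
  BlkD.tree_sound (BlkD.pairOk_sound k20_20_6_4) (by decide) hn t20_20_6_4_36 _ _ (by decide +kernel)

/-- certificates of the pair `(6, 4)`, part 37 -/
def t20_20_6_4_37 : BlkD.Tr :=
  .E 0

lemma s20_20_6_4_37 {n : ℕ} (hn : 5 ≤ n) : NoNd (d20_20_6_4.R : ℤ) d20_20_6_4.H n d20_20_6_4.a d20_20_6_4.b
    (BlkD.inB (BlkD.upd (BlkD.upd (fun _ => 0) 0 4) 1 9)
      (BlkD.upd (BlkD.upd (BlkD.upd (BlkD.upd (BlkD.upd (fun _ => 20) 0 6) 2 4) 0 5) 0 4) 1 16)) :=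
  BlkD.tree_sound (BlkD.pairOk_sound k20_20_6_4) (by decide) hn t20_20_6_4_37 _ _ (by decide +kernel)

/-- certificates of the pair `(6, 4)`, part 38 -/
def t20_20_6_4_38 : BlkD.Tr :=
  .E 0

lemma s20_20_6_4_38 {n : ℕ} (hn : 5 ≤ n) : NoNd (d20_20_6_4.R : ℤ) d20_20_6_4.H n d20_20_6_4.a d20_20_6_4.b
    (BlkD.inB (BlkD.upd (BlkD.upd (fun _ => 0) 0 4) 1 17)
      (BlkD.upd (BlkD.upd (BlkD.upd (BlkD.upd (fun _ => 20) 0 6) 2 4) 0 5) 0 4)) :=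
  BlkD.tree_sound (BlkD.pairOk_sound k20_20_6_4) (by decide) hn t20_20_6_4_38 _ _ (by decide +kernel)

/-- certificates of the pair `(6, 4)`, part 39 -/
def t20_20_6_4_39 : BlkD.Tr :=
  .L 5 6 [4, 4, 4, 5, 6] [] [] 100000 25000 25000 1162500 37500 0 37500 62500 0 37500 37500

lemma s20_20_6_4_39 {n : ℕ} (hn : 5 ≤ n) : NoNd (d20_20_6_4.R : ℤ) d20_20_6_4.H n d20_20_6_4.a d20_20_6_4.b
    (BlkD.inB (BlkD.upd (BlkD.upd (fun _ => 0) 0 4) 0 5)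
      (BlkD.upd (BlkD.upd (BlkD.upd (BlkD.upd (BlkD.upd (BlkD.upd (BlkD.upd (fun _ => 20) 0 6) 2 4) 0 5) 1 15) 1 7) 1 3) 1 1)) :=
  BlkD.tree_sound (BlkD.pairOk_sound k20_20_6_4) (by decide) hn t20_20_6_4_39 _ _ (by decide +kernel)

/-- certificates of the pair `(6, 4)`, part 40 -/
def t20_20_6_4_40 : BlkD.Tr :=
  .S 2 2 (.S 2 1 (.L 5 6 [4, 4, 4, 5, 6] [46, 34, 22, 0, 0, 0] [] 100000 29742 29742 1155172 0
    36207 50000 48276 0 17241 25000) (.S 3 11 (.S 3 5 (.S 3 2 (.L 5 6 [4, 4, 4, 5, 6] [46, 34, 22,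
    0, 0, 0] [] 100000 22857 22856 1111429 0 5714 68571 40000 11429 8571 25714) (.S 3 4 (.S 3 3 (.L
    5 6 [4, 4, 4, 5, 6] [46, 34, 22, 0, 0, 0] [48, 40, 30, 18, 0, 0] 100000 21297 21297 1200001
    3704 3704 88889 14815 14815 14815 28395) (.S 4 2 (.S 4 1 (.L 5 6 [4, 4, 4, 5, 6] [34, 22, 0, 0,
    0, 0] [64, 58, 50, 40, 28, 0] 100000 13044 13044 1221740 0 26087 52174 39130 52174 47826 17391)
    (.L 5 6 [4, 4, 4, 5, 6] [46, 34, 22, 0, 0, 0] [64, 58, 50, 40, 28, 0] 100000 25000 25000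
    1100000 0 0 100000 12500 0 25000 25000)) (.E 2))) (.E 1))) (.E 1)) (.E 1))) (.L 5 6 [4, 4, 4,
    5, 6] [46, 34, 22, 0, 0, 0] [] 100000 22500 22500 1200000 25000 0 75000 50000 10000 50000
    22500)

lemma s20_20_6_4_40 {n : ℕ} (hn : 5 ≤ n) : NoNd (d20_20_6_4.R : ℤ) d20_20_6_4.H n d20_20_6_4.a d20_20_6_4.b
    (BlkD.inB (BlkD.upd (BlkD.upd (BlkD.upd (fun _ => 0) 0 4) 0 5) 1 2)
      (BlkD.upd (BlkD.upd (BlkD.upd (BlkD.upd (BlkD.upd (BlkD.upd (BlkD.upd (fun _ => 20) 0 6) 2 4) 0 5) 1 15) 1 7) 1 3) 1 2)) :=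
  BlkD.tree_sound (BlkD.pairOk_sound k20_20_6_4) (by decide) hn t20_20_6_4_40 _ _ (by decide +kernel)

/-- certificates of the pair `(6, 4)`, part 41 -/
def t20_20_6_4_41 : BlkD.Tr :=
  .S 2 2 (.S 2 1 (.L 5 6 [4, 4, 4, 5, 6] [72, 60, 48, 36, 0, 0] [] 100000 32778 32777 1166668 0
    44444 55556 44444 2222 11111 24444) (.S 3 10 (.S 3 5 (.S 3 2 (.L 5 6 [4, 4, 4, 5, 6] [72, 60,
    48, 36, 0, 0] [] 100000 20333 20332 1193781 6222 3111 87556 36444 18667 18667 27111) (.S 3 4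
    (.S 3 3 (.S 4 3 (.S 4 1 (.L 5 6 [4, 4, 4, 5, 6] [48, 36, 0, 0, 0, 0] [48, 40, 30, 18, 0, 0]
    100000 10294 10293 1227452 13725 0 58824 45098 58824 58824 19608) (.L 5 6 [4, 4, 4, 5, 6] [72,
    60, 48, 36, 0, 0] [48, 40, 30, 18, 0, 0] 100000 20834 20834 1200001 8333 0 91667 16667 16667
    16667 27778)) (.E 2)) (.L 5 6 [4, 4, 4, 5, 6] [72, 60, 48, 36, 0, 0] [64, 58, 50, 40, 28, 0]
    100000 22500 22500 1190000 30000 0 90000 30000 30000 40000 20000)) (.E 1))) (.E 1)) (.E 1)))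
    (.L 5 6 [4, 4, 4, 5, 6] [72, 60, 48, 36, 0, 0] [] 100000 21642 21642 1200001 16418 0 83582
    41791 13433 41791 19403)

lemma s20_20_6_4_41 {n : ℕ} (hn : 5 ≤ n) : NoNd (d20_20_6_4.R : ℤ) d20_20_6_4.H n d20_20_6_4.a d20_20_6_4.b
    (BlkD.inB (BlkD.upd (BlkD.upd (BlkD.upd (BlkD.upd (fun _ => 0) 0 4) 0 5) 1 2) 1 3)
      (BlkD.upd (BlkD.upd (BlkD.upd (BlkD.upd (BlkD.upd (BlkD.upd (fun _ => 20) 0 6) 2 4) 0 5) 1 15) 1 7) 1 3)) :=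
  BlkD.tree_sound (BlkD.pairOk_sound k20_20_6_4) (by decide) hn t20_20_6_4_41 _ _ (by decide +kernel)

/-- certificates of the pair `(6, 4)`, part 42 -/
def t20_20_6_4_42 : BlkD.Tr :=
  .L 5 6 [4, 4, 4, 5, 6] [] [] 100000 19792 19792 1206251 0 2083 89583 29167 22917 20833 25000

lemma s20_20_6_4_42 {n : ℕ} (hn : 5 ≤ n) : NoNd (d20_20_6_4.R : ℤ) d20_20_6_4.H n d20_20_6_4.a d20_20_6_4.b
    (BlkD.inB (BlkD.upd (BlkD.upd (BlkD.upd (fun _ => 0) 0 4) 0 5) 1 4)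
      (BlkD.upd (BlkD.upd (BlkD.upd (BlkD.upd (BlkD.upd (fun _ => 20) 0 6) 2 4) 0 5) 1 15) 1 7)) :=
  BlkD.tree_sound (BlkD.pairOk_sound k20_20_6_4) (by decide) hn t20_20_6_4_42 _ _ (by decide +kernel)

/-- certificates of the pair `(6, 4)`, part 43 -/
def t20_20_6_4_43 : BlkD.Tr :=
  .E 0

lemma s20_20_6_4_43 {n : ℕ} (hn : 5 ≤ n) : NoNd (d20_20_6_4.R : ℤ) d20_20_6_4.H n d20_20_6_4.a d20_20_6_4.b
    (BlkD.inB (BlkD.upd (BlkD.upd (BlkD.upd (fun _ => 0) 0 4) 0 5) 1 8)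
      (BlkD.upd (BlkD.upd (BlkD.upd (BlkD.upd (fun _ => 20) 0 6) 2 4) 0 5) 1 15)) :=
  BlkD.tree_sound (BlkD.pairOk_sound k20_20_6_4) (by decide) hn t20_20_6_4_43 _ _ (by decide +kernel)

/-- certificates of the pair `(6, 4)`, part 44 -/
def t20_20_6_4_44 : BlkD.Tr :=
  .E 0

lemma s20_20_6_4_44 {n : ℕ} (hn : 5 ≤ n) : NoNd (d20_20_6_4.R : ℤ) d20_20_6_4.H n d20_20_6_4.a d20_20_6_4.b
    (BlkD.inB (BlkD.upd (BlkD.upd (BlkD.upd (fun _ => 0) 0 4) 0 5) 1 16)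
      (BlkD.upd (BlkD.upd (BlkD.upd (fun _ => 20) 0 6) 2 4) 0 5)) :=
  BlkD.tree_sound (BlkD.pairOk_sound k20_20_6_4) (by decide) hn t20_20_6_4_44 _ _ (by decide +kernel)

/-- certificates of the pair `(6, 4)`, part 45 -/
def t20_20_6_4_45 : BlkD.Tr :=
  .S 1 14 (.S 1 7 (.S 1 3 (.S 1 1 (.L 5 6 [4, 4, 4, 5, 6] [] [] 100000 17858 17858 1200000 28571 0
    100000 71429 71429 28571 17857) (.L 5 6 [4, 4, 4, 5, 6] [] [] 100000 19978 19978 1190625 0 3125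
    85045 29911 22545 20089 25000)) (.E 0)) (.E 0)) (.E 0)

lemma s20_20_6_4_45 {n : ℕ} (hn : 5 ≤ n) : NoNd (d20_20_6_4.R : ℤ) d20_20_6_4.H n d20_20_6_4.a d20_20_6_4.b
    (BlkD.inB (BlkD.upd (BlkD.upd (fun _ => 0) 0 4) 0 6)
      (BlkD.upd (BlkD.upd (fun _ => 20) 0 6) 2 4)) :=
  BlkD.tree_sound (BlkD.pairOk_sound k20_20_6_4) (by decide) hn t20_20_6_4_45 _ _ (by decide +kernel)

/-- certificates of the pair `(6, 4)`, part 46 -/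
def t20_20_6_4_46 : BlkD.Tr :=
  .E 1

lemma s20_20_6_4_46 {n : ℕ} (hn : 5 ≤ n) : NoNd (d20_20_6_4.R : ℤ) d20_20_6_4.H n d20_20_6_4.a d20_20_6_4.b
    (BlkD.inB (BlkD.upd (fun _ => 0) 2 5)
      (BlkD.upd (fun _ => 20) 0 6)) :=
  BlkD.tree_sound (BlkD.pairOk_sound k20_20_6_4) (by decide) hn t20_20_6_4_46 _ _ (by decide +kernel)

/-- certificates of the pair `(6, 4)`, part 47 -/
def t20_20_6_4_47 : BlkD.Tr :=
  .E 0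

lemma s20_20_6_4_47 {n : ℕ} (hn : 5 ≤ n) : NoNd (d20_20_6_4.R : ℤ) d20_20_6_4.H n d20_20_6_4.a d20_20_6_4.b
    (BlkD.inB (BlkD.upd (fun _ => 0) 0 7)
      (fun _ => 20)) :=
  BlkD.tree_sound (BlkD.pairOk_sound k20_20_6_4) (by decide) hn t20_20_6_4_47 _ _ (by decide +kernel)

lemma pr20_20_6_4 {n : ℕ} (hn : 5 ≤ n) : NoPr ((20 : ℕ) : ℤ) ((20 : ℕ) : ℤ) n 6 4 :=
  BlkD.of_root (R := d20_20_6_4.R) (H := d20_20_6_4.H) (a := d20_20_6_4.a) (b := d20_20_6_4.b) (q := 3) (by decide) hn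
    (BlkD.sp 0 6 (BlkD.sp 2 4 (BlkD.sp 0 3 (BlkD.sp 0 1 (BlkD.sp 0 0 (s20_20_6_4_1 hn) (BlkD.sp 1
      10 (BlkD.sp 1 5 (s20_20_6_4_2 hn) (s20_20_6_4_3 hn)) (s20_20_6_4_4 hn))) (BlkD.sp 0 2
      (BlkD.sp 1 18 (BlkD.sp 1 9 (BlkD.sp 1 4 (s20_20_6_4_5 hn) (BlkD.sp 1 7 (BlkD.sp 1 6 (BlkD.sp
      1 5 (s20_20_6_4_6 hn) (s20_20_6_4_7 hn)) (BlkD.sp 2 2 (BlkD.sp 2 1 (s20_20_6_4_8 hn)
      (s20_20_6_4_9 hn)) (s20_20_6_4_10 hn))) (s20_20_6_4_11 hn))) (s20_20_6_4_12 hn))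
      (s20_20_6_4_13 hn)) (BlkD.sp 1 17 (BlkD.sp 1 8 (BlkD.sp 1 4 (BlkD.sp 1 2 (s20_20_6_4_14 hn)
      (BlkD.sp 1 3 (s20_20_6_4_15 hn) (BlkD.sp 2 2 (s20_20_6_4_16 hn) (s20_20_6_4_17 hn))))
      (BlkD.sp 1 6 (BlkD.sp 1 5 (BlkD.sp 2 2 (BlkD.sp 2 1 (s20_20_6_4_18 hn) (s20_20_6_4_19 hn))
      (s20_20_6_4_20 hn)) (BlkD.sp 2 2 (BlkD.sp 2 1 (s20_20_6_4_21 hn) (s20_20_6_4_22 hn))
      (s20_20_6_4_23 hn))) (BlkD.sp 1 7 (BlkD.sp 2 2 (s20_20_6_4_24 hn) (s20_20_6_4_25 hn))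
      (s20_20_6_4_26 hn)))) (s20_20_6_4_27 hn)) (s20_20_6_4_28 hn)))) (BlkD.sp 0 5 (BlkD.sp 0 4
      (BlkD.sp 1 16 (BlkD.sp 1 8 (BlkD.sp 1 4 (BlkD.sp 1 2 (s20_20_6_4_29 hn) (BlkD.sp 1 3
      (s20_20_6_4_30 hn) (BlkD.sp 2 2 (s20_20_6_4_31 hn) (s20_20_6_4_32 hn)))) (BlkD.sp 1 6
      (BlkD.sp 1 5 (BlkD.sp 2 2 (s20_20_6_4_33 hn) (s20_20_6_4_34 hn)) (s20_20_6_4_35 hn))
      (s20_20_6_4_36 hn))) (s20_20_6_4_37 hn)) (s20_20_6_4_38 hn)) (BlkD.sp 1 15 (BlkD.sp 1 7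
      (BlkD.sp 1 3 (BlkD.sp 1 1 (s20_20_6_4_39 hn) (BlkD.sp 1 2 (s20_20_6_4_40 hn) (s20_20_6_4_41
      hn))) (s20_20_6_4_42 hn)) (s20_20_6_4_43 hn)) (s20_20_6_4_44 hn))) (s20_20_6_4_45 hn)))
      (s20_20_6_4_46 hn)) (s20_20_6_4_47 hn))

end BlkC

end Pool.Agent.Lib.MP_f04ccf_co
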