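import Pool.Agent.Lib.MP_f04ccf_co.M.BlkT

/-!
MP_f04ccf_co, block certificate, data `R = 20`, `H = 20`, part 6 (generated, helper99:
bd10.cpp, gen2.py).
-/

set_option autoImplicit false
set_option maxRecDepth 100000

namespace Pool.Agent.Lib.MP_f04ccf_co

namespace BlkC

/-- the numbers of the pair `(6, 5)`, `R = 20`, `H = 20` -/
def d20_20_6_5 : BlkD.Pd :=
  ⟨20, 20, 3, 6, 5, 6, 3, 2, 1, 3, 10, 0, 2, 2, 10, 0, [0, 10, 20, 21, 22, 23, 24], [0, 10, 16, 18,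
    20, 22, 24], [⟨1, 1, 1, 4, 8, [0, 4], [0, 4]⟩, ⟨1, 1, 1, 4, 12, [0, 6], [0, 6]⟩, ⟨1, 1, 1, 4,
    16, [0, 8], [0, 8]⟩, ⟨2, 1, 1, 4, 24, [0, 10, 14], [0, 10]⟩]⟩

lemma k20_20_6_5 : BlkD.pairOk d20_20_6_5 = true := by decide +kernel

/-- certificates of the pair `(6, 5)`, part 1 -/
def t20_20_6_5_1 : BlkD.Tr :=
  .L 6 6 [4, 4, 4, 5, 20, 20] [] [] 100000 83333 83332 925000 100000 0 100000 75000 0 0 25000

lemma s20_20_6_5_1 {n : ℕ} (hn : 5 ≤ n) : NoNd (d20_20_6_5.R : ℤ) d20_20_6_5.H n d20_20_6_5.a d20_20_6_5.b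
    (BlkD.inB (fun _ => 0)
      (BlkD.upd (BlkD.upd (BlkD.upd (BlkD.upd (BlkD.upd (fun _ => 20) 0 6) 2 5) 0 3) 0 1) 0 0)) :=
  BlkD.tree_sound (BlkD.pairOk_sound k20_20_6_5) (by decide) hn t20_20_6_5_1 _ _ (by decide +kernel)

/-- certificates of the pair `(6, 5)`, part 2 -/
def t20_20_6_5_2 : BlkD.Tr :=
  .L 6 6 [4, 4, 4, 5, 20, 20] [] [] 100000 83333 83332 925000 100000 0 100000 75000 0 0 25000

lemma s20_20_6_5_2 {n : ℕ} (hn : 5 ≤ n) : NoNd (d20_20_6_5.R : ℤ) d20_20_6_5.H n d20_20_6_5.a d20_20_6_5.b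
    (BlkD.inB (BlkD.upd (fun _ => 0) 0 1)
      (BlkD.upd (BlkD.upd (BlkD.upd (BlkD.upd (BlkD.upd (BlkD.upd (fun _ => 20) 0 6) 2 5) 0 3) 0 1) 1 10) 1 5)) :=
  BlkD.tree_sound (BlkD.pairOk_sound k20_20_6_5) (by decide) hn t20_20_6_5_2 _ _ (by decide +kernel)

/-- certificates of the pair `(6, 5)`, part 3 -/
def t20_20_6_5_3 : BlkD.Tr :=
  .L 6 6 [4, 4, 4, 5, 20, 20] [] [] 100000 83333 83332 925000 100000 0 100000 75000 0 0 25000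

lemma s20_20_6_5_3 {n : ℕ} (hn : 5 ≤ n) : NoNd (d20_20_6_5.R : ℤ) d20_20_6_5.H n d20_20_6_5.a d20_20_6_5.b
    (BlkD.inB (BlkD.upd (BlkD.upd (fun _ => 0) 0 1) 1 6)
      (BlkD.upd (BlkD.upd (BlkD.upd (BlkD.upd (BlkD.upd (fun _ => 20) 0 6) 2 5) 0 3) 0 1) 1 10)) :=
  BlkD.tree_sound (BlkD.pairOk_sound k20_20_6_5) (by decide) hn t20_20_6_5_3 _ _ (by decide +kernel)

/-- certificates of the pair `(6, 5)`, part 4 -/
def t20_20_6_5_4 : BlkD.Tr :=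
  .L 6 6 [4, 4, 4, 5, 20, 20] [] [] 100000 83333 83332 925000 100000 0 100000 75000 0 0 25000

lemma s20_20_6_5_4 {n : ℕ} (hn : 5 ≤ n) : NoNd (d20_20_6_5.R : ℤ) d20_20_6_5.H n d20_20_6_5.a d20_20_6_5.b
    (BlkD.inB (BlkD.upd (BlkD.upd (fun _ => 0) 0 1) 1 11)
      (BlkD.upd (BlkD.upd (BlkD.upd (BlkD.upd (fun _ => 20) 0 6) 2 5) 0 3) 0 1)) :=
  BlkD.tree_sound (BlkD.pairOk_sound k20_20_6_5) (by decide) hn t20_20_6_5_4 _ _ (by decide +kernel)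

/-- certificates of the pair `(6, 5)`, part 5 -/
def t20_20_6_5_5 : BlkD.Tr :=
  .L 6 6 [4, 4, 4, 5, 20, 20] [] [] 100000 33333 33332 1250000 25000 0 25000 100000 0 0 0

lemma s20_20_6_5_5 {n : ℕ} (hn : 5 ≤ n) : NoNd (d20_20_6_5.R : ℤ) d20_20_6_5.H n d20_20_6_5.a d20_20_6_5.b
    (BlkD.inB (BlkD.upd (fun _ => 0) 0 2)
      (BlkD.upd (BlkD.upd (BlkD.upd (BlkD.upd (BlkD.upd (BlkD.upd (BlkD.upd (fun _ => 20) 0 6) 2 5) 0 3) 0 2) 1 18) 1 9) 1 4)) :=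
  BlkD.tree_sound (BlkD.pairOk_sound k20_20_6_5) (by decide) hn t20_20_6_5_5 _ _ (by decide +kernel)

/-- certificates of the pair `(6, 5)`, part 6 -/
def t20_20_6_5_6 : BlkD.Tr :=
  .S 1 5 (.S 2 2 (.L 6 6 [4, 4, 4, 5, 20, 20] [83, 82, 72, 62, 52, 40] [] 100000 29305 29304
    1283014 22942 22942 40543 56392 3065 9019 21804) (.S 2 4 (.S 2 3 (.L 6 6 [4, 4, 4, 5, 20, 20]
    [83, 82, 72, 62, 52, 40] [] 100000 25878 25878 1301315 32895 0 36842 46053 0 22368 31579) (.L 6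
    6 [4, 4, 4, 5, 20, 20] [83, 82, 72, 62, 52, 40] [] 100000 22222 22221 1300000 25000 0 37500
    45833 0 33333 16667)) (.L 6 6 [4, 4, 4, 5, 20, 20] [83, 82, 72, 62, 52, 40] [] 100000 50000
    50000 1150000 50000 0 50000 0 0 50000 25000))) (.S 2 2 (.L 6 6 [4, 4, 4, 5, 20, 20] [98, 97,
    96, 86, 76, 66] [] 100000 33333 33332 1275000 25000 25000 50000 75000 0 0 25000) (.S 2 4 (.S 2
    3 (.S 3 9 (.S 3 4 (.S 3 2 (.L 6 6 [4, 4, 4, 5, 20, 20] [98, 97, 96, 86, 76, 66] [] 100000 33333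
    33332 1214286 42857 0 42857 42857 0 0 14286) (.S 3 3 (.L 6 6 [4, 4, 4, 5, 20, 20] [98, 97, 96,
    86, 76, 66] [56, 46, 36, 24, 0, 0] 100000 26628 26627 1268968 31034 6897 55172 59195 0 20115
    27586) (.L 6 6 [4, 4, 4, 5, 20, 20] [98, 97, 96, 86, 76, 66] [74, 68, 58, 48, 36, 0] 100000
    20371 20370 1333334 27778 5556 66667 33333 5556 33333 33333))) (.L 6 6 [4, 4, 4, 5, 20, 20]
    [98, 97, 96, 86, 76, 66] [] 100000 77779 77779 1133331 66667 0 66667 66667 0 0 33333)) (.E 1))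
    (.L 6 6 [4, 4, 4, 5, 20, 20] [98, 97, 96, 86, 76, 66] [] 100000 27097 27097 1281828 30430 0
    66022 60860 1290 17419 33333)) (.L 6 6 [4, 4, 4, 5, 20, 20] [98, 97, 96, 86, 76, 66] [] 100000
    26667 26667 1220000 40000 0 60000 20000 0 40000 20000)))

lemma s20_20_6_5_6 {n : ℕ} (hn : 5 ≤ n) : NoNd (d20_20_6_5.R : ℤ) d20_20_6_5.H n d20_20_6_5.a d20_20_6_5.b
    (BlkD.inB (BlkD.upd (BlkD.upd (fun _ => 0) 0 2) 1 5)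
      (BlkD.upd (BlkD.upd (BlkD.upd (BlkD.upd (BlkD.upd (BlkD.upd (BlkD.upd (BlkD.upd (fun _ => 20) 0 6) 2 5) 0 3) 0 2) 1 18) 1 9) 1 7) 1 6)) :=
  BlkD.tree_sound (BlkD.pairOk_sound k20_20_6_5) (by decide) hn t20_20_6_5_6 _ _ (by decide +kernel)

/-- certificates of the pair `(6, 5)`, part 7 -/
def t20_20_6_5_7 : BlkD.Tr :=
  .S 2 2 (.L 6 6 [4, 4, 4, 5, 20, 20] [115, 114, 113, 112, 102, 92] [] 100000 28953 28952 1300448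
    37416 12472 50111 62138 3118 10022 24944) (.L 6 6 [4, 4, 4, 5, 20, 20] [115, 114, 113, 112,
    102, 92] [] 100000 40371 40371 1240000 50000 0 60000 60000 0 8333 20556)

lemma s20_20_6_5_7 {n : ℕ} (hn : 5 ≤ n) : NoNd (d20_20_6_5.R : ℤ) d20_20_6_5.H n d20_20_6_5.a d20_20_6_5.b
    (BlkD.inB (BlkD.upd (BlkD.upd (BlkD.upd (fun _ => 0) 0 2) 1 5) 1 7)
      (BlkD.upd (BlkD.upd (BlkD.upd (BlkD.upd (BlkD.upd (BlkD.upd (BlkD.upd (fun _ => 20) 0 6) 2 5) 0 3) 0 2) 1 18) 1 9) 1 7)) :=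
  BlkD.tree_sound (BlkD.pairOk_sound k20_20_6_5) (by decide) hn t20_20_6_5_7 _ _ (by decide +kernel)

/-- certificates of the pair `(6, 5)`, part 8 -/
def t20_20_6_5_8 : BlkD.Tr :=
  .S 1 8 (.L 6 6 [4, 4, 4, 5, 20, 20] [134, 133, 132, 131, 130, 120] [] 100000 65351 65350 1177632
    74123 0 100000 33333 0 11842 20175) (.E 0)

lemma s20_20_6_5_8 {n : ℕ} (hn : 5 ≤ n) : NoNd (d20_20_6_5.R : ℤ) d20_20_6_5.H n d20_20_6_5.a d20_20_6_5.b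
    (BlkD.inB (BlkD.upd (BlkD.upd (BlkD.upd (fun _ => 0) 0 2) 1 5) 1 8)
      (BlkD.upd (BlkD.upd (BlkD.upd (BlkD.upd (BlkD.upd (BlkD.upd (fun _ => 20) 0 6) 2 5) 0 3) 0 2) 1 18) 1 9)) :=
  BlkD.tree_sound (BlkD.pairOk_sound k20_20_6_5) (by decide) hn t20_20_6_5_8 _ _ (by decide +kernel)

/-- certificates of the pair `(6, 5)`, part 9 -/
def t20_20_6_5_9 : BlkD.Tr :=
  .E 0

lemma s20_20_6_5_9 {n : ℕ} (hn : 5 ≤ n) : NoNd (d20_20_6_5.R : ℤ) d20_20_6_5.H n d20_20_6_5.a d20_20_6_5.b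
    (BlkD.inB (BlkD.upd (BlkD.upd (fun _ => 0) 0 2) 1 10)
      (BlkD.upd (BlkD.upd (BlkD.upd (BlkD.upd (BlkD.upd (fun _ => 20) 0 6) 2 5) 0 3) 0 2) 1 18)) :=
  BlkD.tree_sound (BlkD.pairOk_sound k20_20_6_5) (by decide) hn t20_20_6_5_9 _ _ (by decide +kernel)

/-- certificates of the pair `(6, 5)`, part 10 -/
def t20_20_6_5_10 : BlkD.Tr :=
  .E 0

lemma s20_20_6_5_10 {n : ℕ} (hn : 5 ≤ n) : NoNd (d20_20_6_5.R : ℤ) d20_20_6_5.H n d20_20_6_5.a d20_20_6_5.b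
    (BlkD.inB (BlkD.upd (BlkD.upd (fun _ => 0) 0 2) 1 19)
      (BlkD.upd (BlkD.upd (BlkD.upd (BlkD.upd (fun _ => 20) 0 6) 2 5) 0 3) 0 2)) :=
  BlkD.tree_sound (BlkD.pairOk_sound k20_20_6_5) (by decide) hn t20_20_6_5_10 _ _ (by decide +kernel)

/-- certificates of the pair `(6, 5)`, part 11 -/
def t20_20_6_5_11 : BlkD.Tr :=
  .S 1 2 (.L 6 6 [4, 4, 4, 5, 20, 20] [] [] 100000 33333 33332 1200000 0 0 0 100000 0 0 0) (.S 1 3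
    (.L 6 6 [4, 4, 4, 5, 20, 20] [56, 46, 36, 24, 0, 0] [] 100000 29167 29167 1275000 12500 12500
    25000 87500 0 12500 12500) (.S 2 2 (.L 6 6 [4, 4, 4, 5, 20, 20] [78, 68, 58, 48, 36, 0] []
    100000 26578 26578 1308802 20000 20000 66667 71200 8800 11467 33333) (.S 2 4 (.S 2 3 (.S 3 10
    (.S 3 5 (.S 3 2 (.L 6 6 [4, 4, 4, 5, 20, 20] [78, 68, 58, 48, 36, 0] [] 100000 33333 33332
    1200000 0 0 0 0 0 0 0) (.S 3 4 (.S 3 3 (.L 6 6 [4, 4, 4, 5, 20, 20] [78, 68, 58, 48, 36, 0]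
    [56, 46, 36, 24, 0, 0] 100000 31482 31482 1272224 27778 5556 33333 27778 0 5556 27778) (.L 6 6
    [4, 4, 4, 5, 20, 20] [78, 68, 58, 48, 36, 0] [74, 68, 58, 48, 36, 0] 100000 15152 15152 1345456
    18182 9091 72727 54545 9091 45455 27273)) (.L 6 6 [4, 4, 4, 5, 20, 20] [78, 68, 58, 48, 36, 0]
    [90, 88, 82, 72, 62, 50] 100000 29293 29293 1300001 26515 0 87121 93939 12121 0 33333))) (.E
    1)) (.E 1)) (.L 6 6 [4, 4, 4, 5, 20, 20] [78, 68, 58, 48, 36, 0] [] 100000 20833 20832 1325000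
    25000 0 50000 50000 0 37500 18750)) (.L 6 6 [4, 4, 4, 5, 20, 20] [78, 68, 58, 48, 36, 0] []
    100000 11112 11112 1293334 26667 0 60000 6667 6667 66667 33333))))

lemma s20_20_6_5_11 {n : ℕ} (hn : 5 ≤ n) : NoNd (d20_20_6_5.R : ℤ) d20_20_6_5.H n d20_20_6_5.a d20_20_6_5.b
    (BlkD.inB (BlkD.upd (BlkD.upd (fun _ => 0) 0 2) 0 3)
      (BlkD.upd (BlkD.upd (BlkD.upd (BlkD.upd (BlkD.upd (BlkD.upd (fun _ => 20) 0 6) 2 5) 0 3) 1 17) 1 8) 1 4)) :=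
  BlkD.tree_sound (BlkD.pairOk_sound k20_20_6_5) (by decide) hn t20_20_6_5_11 _ _ (by decide +kernel)

/-- certificates of the pair `(6, 5)`, part 12 -/
def t20_20_6_5_12 : BlkD.Tr :=
  .S 1 6 (.S 1 5 (.S 2 2 (.S 2 1 (.L 6 6 [4, 4, 4, 5, 20, 20] [93, 92, 82, 72, 62, 50] [] 100000
    39216 39216 1152941 17647 64706 64706 82353 0 0 23529) (.S 3 10 (.S 3 5 (.S 3 2 (.L 6 6 [4, 4,
    4, 5, 20, 20] [93, 92, 82, 72, 62, 50] [] 100000 33333 33332 1200000 0 0 0 0 0 0 0) (.S 3 4 (.L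
    6 6 [4, 4, 4, 5, 20, 20] [93, 92, 82, 72, 62, 50] [] 100000 27333 27332 1309000 20000 20000
    70500 70500 9000 9000 29500) (.L 5 6 [4, 4, 5, 5, 20, 20] [93, 92, 82, 72, 62, 50] [80, 78, 72,
    62, 52, 40] 100000 41940 41940 1264706 31863 25327 70261 59641 4902 15523 22712))) (.L 5 6 [4,
    4, 5, 5, 20, 20] [93, 92, 82, 72, 62, 50] [] 100000 44444 44443 1233334 33333 0 100000 66667 0
    0 33333)) (.E 1))) (.S 2 4 (.S 2 3 (.S 3 9 (.S 3 4 (.S 3 2 (.L 5 6 [4, 4, 5, 5, 20, 20] [93,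
    92, 82, 72, 62, 50] [] 100000 33333 33332 1260000 20000 20000 20000 20000 0 0 0) (.S 3 3 (.L 5
    6 [4, 4, 5, 5, 20, 20] [93, 92, 82, 72, 62, 50] [56, 46, 36, 24, 0, 0] 100000 21759 21758
    1333335 19444 13889 69444 70833 11111 23611 30556) (.L 5 6 [4, 4, 5, 5, 20, 20] [93, 92, 82,
    72, 62, 50] [74, 68, 58, 48, 36, 0] 100000 15269 15269 1334840 23226 0 72258 59355 6452 47742
    27742))) (.L 5 6 [4, 4, 5, 5, 20, 20] [93, 92, 82, 72, 62, 50] [] 100000 44444 44443 1233334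
    33333 0 100000 66667 0 0 33333)) (.E 1)) (.L 5 6 [4, 4, 5, 5, 20, 20] [93, 92, 82, 72, 62, 50]
    [] 100000 27452 27452 1305882 31373 0 68627 62745 5882 11765 18627)) (.L 5 6 [4, 4, 5, 5, 20,
    20] [93, 92, 82, 72, 62, 50] [] 100000 14103 14103 1301923 25000 0 73077 48077 5769 51923
    26923))) (.S 2 2 (.L 5 6 [4, 4, 5, 5, 20, 20] [110, 109, 108, 98, 88, 78] [] 100000 24607 24607
    1313092 24893 12661 74678 49356 18670 7511 24893) (.L 5 6 [4, 4, 5, 5, 20, 20] [110, 109, 108,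
    98, 88, 78] [] 100000 24098 24097 1312460 29180 0 79180 50000 17705 10000 23607))) (.L 5 6 [4,
    4, 5, 5, 20, 20] [] [] 100000 27891 27891 1296942 1020 5442 100000 83673 0 16327 33333)

lemma s20_20_6_5_12 {n : ℕ} (hn : 5 ≤ n) : NoNd (d20_20_6_5.R : ℤ) d20_20_6_5.H n d20_20_6_5.a d20_20_6_5.b
    (BlkD.inB (BlkD.upd (BlkD.upd (BlkD.upd (fun _ => 0) 0 2) 0 3) 1 5)
      (BlkD.upd (BlkD.upd (BlkD.upd (BlkD.upd (BlkD.upd (fun _ => 20) 0 6) 2 5) 0 3) 1 17) 1 8)) :=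
  BlkD.tree_sound (BlkD.pairOk_sound k20_20_6_5) (by decide) hn t20_20_6_5_12 _ _ (by decide +kernel)

/-- certificates of the pair `(6, 5)`, part 13 -/
def t20_20_6_5_13 : BlkD.Tr :=
  .E 0

lemma s20_20_6_5_13 {n : ℕ} (hn : 5 ≤ n) : NoNd (d20_20_6_5.R : ℤ) d20_20_6_5.H n d20_20_6_5.a d20_20_6_5.b
    (BlkD.inB (BlkD.upd (BlkD.upd (BlkD.upd (fun _ => 0) 0 2) 0 3) 1 9)
      (BlkD.upd (BlkD.upd (BlkD.upd (BlkD.upd (fun _ => 20) 0 6) 2 5) 0 3) 1 17)) :=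
  BlkD.tree_sound (BlkD.pairOk_sound k20_20_6_5) (by decide) hn t20_20_6_5_13 _ _ (by decide +kernel)

/-- certificates of the pair `(6, 5)`, part 14 -/
def t20_20_6_5_14 : BlkD.Tr :=
  .E 0

lemma s20_20_6_5_14 {n : ℕ} (hn : 5 ≤ n) : NoNd (d20_20_6_5.R : ℤ) d20_20_6_5.H n d20_20_6_5.a d20_20_6_5.b
    (BlkD.inB (BlkD.upd (BlkD.upd (BlkD.upd (fun _ => 0) 0 2) 0 3) 1 18)
      (BlkD.upd (BlkD.upd (BlkD.upd (fun _ => 20) 0 6) 2 5) 0 3)) :=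
  BlkD.tree_sound (BlkD.pairOk_sound k20_20_6_5) (by decide) hn t20_20_6_5_14 _ _ (by decide +kernel)

/-- certificates of the pair `(6, 5)`, part 15 -/
def t20_20_6_5_15 : BlkD.Tr :=
  .S 1 16 (.S 1 8 (.S 1 4 (.S 1 2 (.L 5 6 [4, 4, 5, 5, 20, 20] [] [] 100000 28962 28962 1278690
    21311 11475 22951 77049 0 13115 13115) (.S 1 3 (.S 2 2 (.L 5 6 [4, 4, 5, 5, 20, 20] [62, 52,
    42, 30, 0, 0] [] 100000 27778 27778 1300002 20000 20000 52000 68000 4667 12000 16000) (.L 5 6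
    [4, 4, 5, 5, 20, 20] [62, 52, 42, 30, 0, 0] [] 100000 27047 27046 1313159 28947 2632 55263
    71053 3070 15789 13158)) (.S 2 2 (.L 5 6 [4, 4, 5, 5, 20, 20] [86, 76, 66, 56, 44, 0] [] 100000
    25143 25142 1300001 14286 28571 71429 61143 18857 5714 28571) (.S 2 4 (.S 2 3 (.L 5 6 [4, 4, 5,
    5, 20, 20] [86, 76, 66, 56, 44, 0] [] 100000 21915 21915 1333332 16667 16667 68519 69444 20370
    13889 25926) (.L 5 6 [4, 4, 5, 5, 20, 20] [86, 76, 66, 56, 44, 0] [] 100000 21116 21115 1315838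
    28054 0 83710 71946 20814 15837 32127)) (.L 5 6 [4, 4, 5, 5, 20, 20] [86, 76, 66, 56, 44, 0] []
    100000 0 0 1350000 20000 0 75000 30000 50000 50000 20000))))) (.S 1 6 (.S 1 5 (.S 2 2 (.L 5 6
    [4, 4, 5, 5, 20, 20] [103, 102, 92, 82, 72, 60] [] 100000 23279 23278 1319144 25945 13539 75945
    61272 18514 11650 24685) (.S 2 4 (.S 2 3 (.L 5 6 [4, 4, 5, 5, 20, 20] [103, 102, 92, 82, 72,
    60] [] 100000 22070 22069 1333595 28516 4687 76172 60352 22656 11133 25391) (.L 5 6 [4, 4, 5,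
    5, 20, 20] [103, 102, 92, 82, 72, 60] [] 100000 25620 25620 1293232 35590 0 72271 62227 18341
    4803 30349)) (.L 5 6 [4, 4, 5, 5, 20, 20] [103, 102, 92, 82, 72, 60] [] 100000 1 1 1300000
    11111 0 88889 22222 22222 77778 33333))) (.L 5 6 [4, 4, 5, 5, 20, 20] [122, 121, 120, 110, 100,
    90] [] 100000 29825 29825 1284211 5263 5263 100000 84211 0 10526 31579)) (.E 0))) (.E 0)) (.E
    0)

lemma s20_20_6_5_15 {n : ℕ} (hn : 5 ≤ n) : NoNd (d20_20_6_5.R : ℤ) d20_20_6_5.H n d20_20_6_5.a d20_20_6_5.b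
    (BlkD.inB (BlkD.upd (fun _ => 0) 0 4)
      (BlkD.upd (BlkD.upd (BlkD.upd (BlkD.upd (fun _ => 20) 0 6) 2 5) 0 5) 0 4)) :=
  BlkD.tree_sound (BlkD.pairOk_sound k20_20_6_5) (by decide) hn t20_20_6_5_15 _ _ (by decide +kernel)

/-- certificates of the pair `(6, 5)`, part 16 -/
def t20_20_6_5_16 : BlkD.Tr :=
  .S 1 15 (.S 1 7 (.S 1 3 (.S 1 1 (.L 5 6 [4, 4, 5, 5, 20, 20] [] [] 100000 24645 24645 1285308
    26540 14692 73934 85782 11848 14218 23697) (.S 1 2 (.S 2 2 (.L 5 6 [4, 4, 5, 5, 20, 20] [44,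
    34, 22, 0, 0, 0] [] 100000 29466 29466 1258015 8014 41986 64234 63876 5622 5981 28110) (.L 5 6
    [4, 4, 5, 5, 20, 20] [44, 34, 22, 0, 0, 0] [] 100000 21528 21527 1312502 39583 4167 87500 83333
    18750 16667 23958)) (.L 5 6 [4, 4, 5, 5, 20, 20] [68, 58, 48, 36, 0, 0] [] 100000 9346 9345
    1368751 20313 6250 71875 66059 56250 15712 33333))) (.L 5 6 [4, 4, 5, 5, 20, 20] [] [] 100000
    6992 6991 1350577 6034 6034 68678 56609 62644 16379 33333)) (.E 0)) (.E 0)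

lemma s20_20_6_5_16 {n : ℕ} (hn : 5 ≤ n) : NoNd (d20_20_6_5.R : ℤ) d20_20_6_5.H n d20_20_6_5.a d20_20_6_5.b
    (BlkD.inB (BlkD.upd (BlkD.upd (fun _ => 0) 0 4) 0 5)
      (BlkD.upd (BlkD.upd (BlkD.upd (fun _ => 20) 0 6) 2 5) 0 5)) :=
  BlkD.tree_sound (BlkD.pairOk_sound k20_20_6_5) (by decide) hn t20_20_6_5_16 _ _ (by decide +kernel)

/-- certificates of the pair `(6, 5)`, part 17 -/
def t20_20_6_5_17 : BlkD.Tr :=
  .L 5 6 [4, 4, 5, 5, 20, 20] [] [] 100000 0 0 1371430 0 10884 47959 71429 71429 28571 23810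

lemma s20_20_6_5_17 {n : ℕ} (hn : 5 ≤ n) : NoNd (d20_20_6_5.R : ℤ) d20_20_6_5.H n d20_20_6_5.a d20_20_6_5.b
    (BlkD.inB (BlkD.upd (BlkD.upd (fun _ => 0) 0 4) 0 6)
      (BlkD.upd (BlkD.upd (fun _ => 20) 0 6) 2 5)) :=
  BlkD.tree_sound (BlkD.pairOk_sound k20_20_6_5) (by decide) hn t20_20_6_5_17 _ _ (by decide +kernel)

/-- certificates of the pair `(6, 5)`, part 18 -/
def t20_20_6_5_18 : BlkD.Tr :=
  .E 1

lemma s20_20_6_5_18 {n : ℕ} (hn : 5 ≤ n) : NoNd (d20_20_6_5.R : ℤ) d20_20_6_5.H n d20_20_6_5.a d20_20_6_5.b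
    (BlkD.inB (BlkD.upd (fun _ => 0) 2 6)
      (BlkD.upd (fun _ => 20) 0 6)) :=
  BlkD.tree_sound (BlkD.pairOk_sound k20_20_6_5) (by decide) hn t20_20_6_5_18 _ _ (by decide +kernel)

/-- certificates of the pair `(6, 5)`, part 19 -/
def t20_20_6_5_19 : BlkD.Tr :=
  .E 0

lemma s20_20_6_5_19 {n : ℕ} (hn : 5 ≤ n) : NoNd (d20_20_6_5.R : ℤ) d20_20_6_5.H n d20_20_6_5.a d20_20_6_5.b
    (BlkD.inB (BlkD.upd (fun _ => 0) 0 7)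
      (fun _ => 20)) :=
  BlkD.tree_sound (BlkD.pairOk_sound k20_20_6_5) (by decide) hn t20_20_6_5_19 _ _ (by decide +kernel)

lemma pr20_20_6_5 {n : ℕ} (hn : 5 ≤ n) : NoPr ((20 : ℕ) : ℤ) ((20 : ℕ) : ℤ) n 6 5 :=
  BlkD.of_root (R := d20_20_6_5.R) (H := d20_20_6_5.H) (a := d20_20_6_5.a) (b := d20_20_6_5.b) (q := 3) (by decide) hn
    (BlkD.sp 0 6 (BlkD.sp 2 5 (BlkD.sp 0 3 (BlkD.sp 0 1 (BlkD.sp 0 0 (s20_20_6_5_1 hn) (BlkD.sp 1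
      10 (BlkD.sp 1 5 (s20_20_6_5_2 hn) (s20_20_6_5_3 hn)) (s20_20_6_5_4 hn))) (BlkD.sp 0 2
      (BlkD.sp 1 18 (BlkD.sp 1 9 (BlkD.sp 1 4 (s20_20_6_5_5 hn) (BlkD.sp 1 7 (BlkD.sp 1 6
      (s20_20_6_5_6 hn) (s20_20_6_5_7 hn)) (s20_20_6_5_8 hn))) (s20_20_6_5_9 hn)) (s20_20_6_5_10
      hn)) (BlkD.sp 1 17 (BlkD.sp 1 8 (BlkD.sp 1 4 (s20_20_6_5_11 hn) (s20_20_6_5_12 hn))
      (s20_20_6_5_13 hn)) (s20_20_6_5_14 hn)))) (BlkD.sp 0 5 (BlkD.sp 0 4 (s20_20_6_5_15 hn)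
      (s20_20_6_5_16 hn)) (s20_20_6_5_17 hn))) (s20_20_6_5_18 hn)) (s20_20_6_5_19 hn))

/-- the numbers of the pair `(6, 6)`, `R = 20`, `H = 20` -/
def d20_20_6_6 : BlkD.Pd :=
  ⟨20, 20, 3, 6, 6, 5, 2, 3, 2, 2, 8, 0, 2, 2, 8, 0, [0, 8, 14, 16, 18, 20], [0, 8, 14, 16, 18,
    20], [⟨1, 1, 1, 4, 8, [0, 4], [0, 4]⟩, ⟨1, 1, 1, 4, 12, [0, 6], [0, 6]⟩, ⟨1, 1, 1, 4, 16, [0,
    8], [0, 8]⟩]⟩

lemma k20_20_6_6 : BlkD.pairOk d20_20_6_6 = true := by decide +kernel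

/-- certificates of the pair `(6, 6)`, part 1 -/
def t20_20_6_6_1 : BlkD.Tr :=
  .L 5 6 [4, 4, 5, 20, 20, 20, 20] [] [] 100000 29719 29719 1325706 59438 5622 70281 43373 0 0 6827

lemma s20_20_6_6_1 {n : ℕ} (hn : 5 ≤ n) : NoNd (d20_20_6_6.R : ℤ) d20_20_6_6.H n d20_20_6_6.a d20_20_6_6.b
    (BlkD.inB (fun _ => 0)
      (BlkD.upd (BlkD.upd (BlkD.upd (BlkD.upd (BlkD.upd (fun _ => 20) 0 6) 2 6) 0 3) 0 1) 0 0)) :=
  BlkD.tree_sound (BlkD.pairOk_sound k20_20_6_6) (by decide) hn t20_20_6_6_1 _ _ (by decide +kernel)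

/-- certificates of the pair `(6, 6)`, part 2 -/
def t20_20_6_6_2 : BlkD.Tr :=
  .L 5 6 [4, 4, 5, 20, 20, 20, 20] [] [] 100000 29719 29719 1325706 59438 5622 70281 43373 0 0 6827

lemma s20_20_6_6_2 {n : ℕ} (hn : 5 ≤ n) : NoNd (d20_20_6_6.R : ℤ) d20_20_6_6.H n d20_20_6_6.a d20_20_6_6.b
    (BlkD.inB (BlkD.upd (fun _ => 0) 0 1)
      (BlkD.upd (BlkD.upd (BlkD.upd (BlkD.upd (BlkD.upd (BlkD.upd (fun _ => 20) 0 6) 2 6) 0 3) 0 1) 1 10) 1 5)) :=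
  BlkD.tree_sound (BlkD.pairOk_sound k20_20_6_6) (by decide) hn t20_20_6_6_2 _ _ (by decide +kernel)

/-- certificates of the pair `(6, 6)`, part 3 -/
def t20_20_6_6_3 : BlkD.Tr :=
  .S 1 8 (.L 5 6 [4, 4, 5, 20, 20, 20, 20] [] [] 100000 29719 29719 1325706 59438 5622 70281 43373
    0 0 6827) (.L 5 6 [4, 4, 5, 20, 20, 20, 20] [] [] 100000 29719 29719 1325706 59438 5622 70281
    43373 0 0 6827)

lemma s20_20_6_6_3 {n : ℕ} (hn : 5 ≤ n) : NoNd (d20_20_6_6.R : ℤ) d20_20_6_6.H n d20_20_6_6.a d20_20_6_6.b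
    (BlkD.inB (BlkD.upd (BlkD.upd (fun _ => 0) 0 1) 1 6)
      (BlkD.upd (BlkD.upd (BlkD.upd (BlkD.upd (BlkD.upd (fun _ => 20) 0 6) 2 6) 0 3) 0 1) 1 10)) :=
  BlkD.tree_sound (BlkD.pairOk_sound k20_20_6_6) (by decide) hn t20_20_6_6_3 _ _ (by decide +kernel)

/-- certificates of the pair `(6, 6)`, part 4 -/
def t20_20_6_6_4 : BlkD.Tr :=
  .L 5 6 [4, 4, 5, 20, 20, 20, 20] [] [] 100000 29719 29719 1325706 59438 5622 70281 43373 0 0 6827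

lemma s20_20_6_6_4 {n : ℕ} (hn : 5 ≤ n) : NoNd (d20_20_6_6.R : ℤ) d20_20_6_6.H n d20_20_6_6.a d20_20_6_6.b
    (BlkD.inB (BlkD.upd (BlkD.upd (fun _ => 0) 0 1) 1 11)
      (BlkD.upd (BlkD.upd (BlkD.upd (BlkD.upd (fun _ => 20) 0 6) 2 6) 0 3) 0 1)) :=
  BlkD.tree_sound (BlkD.pairOk_sound k20_20_6_6) (by decide) hn t20_20_6_6_4 _ _ (by decide +kernel)

/-- certificates of the pair `(6, 6)`, part 5 -/
def t20_20_6_6_5 : BlkD.Tr :=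
  .L 6 6 [4, 4, 4, 20, 20, 20, 20] [] [] 100000 13266 13266 1461225 34694 0 69388 83673 0 12245
    4082

lemma s20_20_6_6_5 {n : ℕ} (hn : 5 ≤ n) : NoNd (d20_20_6_6.R : ℤ) d20_20_6_6.H n d20_20_6_6.a d20_20_6_6.b
    (BlkD.inB (BlkD.upd (fun _ => 0) 0 2)
      (BlkD.upd (BlkD.upd (BlkD.upd (BlkD.upd (BlkD.upd (BlkD.upd (BlkD.upd (fun _ => 20) 0 6) 2 6) 0 3) 0 2) 1 18) 1 9) 1 4)) :=
  BlkD.tree_sound (BlkD.pairOk_sound k20_20_6_6) (by decide) hn t20_20_6_6_5 _ _ (by decide +kernel)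

/-- certificates of the pair `(6, 6)`, part 6 -/
def t20_20_6_6_6 : BlkD.Tr :=
  .S 1 5 (.S 2 3 (.L 6 6 [4, 4, 4, 20, 20, 20, 20] [90, 84, 76, 66, 54, 40] [] 100000 36509 36509
    1322221 39683 31746 55556 63492 0 1587 0) (.L 6 6 [4, 4, 4, 20, 20, 20, 20] [90, 84, 76, 66,
    54, 40] [] 100000 10000 10000 1466668 33333 0 44444 35556 0 13333 6667)) (.S 2 3 (.L 6 6 [4, 4,
    4, 20, 20, 20, 20] [106, 104, 98, 90, 80, 68] [] 100000 29168 29168 1358332 41667 25000 66667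
    50000 0 0 0) (.L 6 6 [4, 4, 4, 20, 20, 20, 20] [106, 104, 98, 90, 80, 68] [] 100000 10000 10000
    1466668 33333 0 86667 46667 0 13333 6667))

lemma s20_20_6_6_6 {n : ℕ} (hn : 5 ≤ n) : NoNd (d20_20_6_6.R : ℤ) d20_20_6_6.H n d20_20_6_6.a d20_20_6_6.b
    (BlkD.inB (BlkD.upd (BlkD.upd (fun _ => 0) 0 2) 1 5)
      (BlkD.upd (BlkD.upd (BlkD.upd (BlkD.upd (BlkD.upd (BlkD.upd (BlkD.upd (BlkD.upd (fun _ => 20) 0 6) 2 6) 0 3) 0 2) 1 18) 1 9) 1 7) 1 6)) :=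
  BlkD.tree_sound (BlkD.pairOk_sound k20_20_6_6) (by decide) hn t20_20_6_6_6 _ _ (by decide +kernel)

/-- certificates of the pair `(6, 6)`, part 7 -/
def t20_20_6_6_7 : BlkD.Tr :=
  .S 2 3 (.L 6 6 [4, 4, 4, 20, 20, 20, 20] [124, 122, 120, 114, 106, 96] [] 100000 28000 28000
    1372000 34000 34000 62000 56000 6000 8000 0) (.L 6 6 [4, 4, 4, 20, 20, 20, 20] [124, 122, 120,
    114, 106, 96] [] 100000 24299 24299 1405608 48598 0 58879 50000 0 4673 0)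

lemma s20_20_6_6_7 {n : ℕ} (hn : 5 ≤ n) : NoNd (d20_20_6_6.R : ℤ) d20_20_6_6.H n d20_20_6_6.a d20_20_6_6.b
    (BlkD.inB (BlkD.upd (BlkD.upd (BlkD.upd (fun _ => 0) 0 2) 1 5) 1 7)
      (BlkD.upd (BlkD.upd (BlkD.upd (BlkD.upd (BlkD.upd (BlkD.upd (BlkD.upd (fun _ => 20) 0 6) 2 6) 0 3) 0 2) 1 18) 1 9) 1 7)) :=
  BlkD.tree_sound (BlkD.pairOk_sound k20_20_6_6) (by decide) hn t20_20_6_6_7 _ _ (by decide +kernel)

/-- certificates of the pair `(6, 6)`, part 8 -/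
def t20_20_6_6_8 : BlkD.Tr :=
  .S 1 8 (.L 6 6 [4, 4, 4, 20, 20, 20, 20] [144, 142, 140, 138, 132, 124] [] 100000 40000 40000
    1360000 60000 0 100000 30000 0 0 0) (.L 6 6 [4, 4, 4, 20, 20, 20, 20] [166, 164, 162, 160, 158,
    152] [] 100000 150000 0 650000 100000 16667 250000 50000 0 0 0)

lemma s20_20_6_6_8 {n : ℕ} (hn : 5 ≤ n) : NoNd (d20_20_6_6.R : ℤ) d20_20_6_6.H n d20_20_6_6.a d20_20_6_6.b
    (BlkD.inB (BlkD.upd (BlkD.upd (BlkD.upd (fun _ => 0) 0 2) 1 5) 1 8)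
      (BlkD.upd (BlkD.upd (BlkD.upd (BlkD.upd (BlkD.upd (BlkD.upd (fun _ => 20) 0 6) 2 6) 0 3) 0 2) 1 18) 1 9)) :=
  BlkD.tree_sound (BlkD.pairOk_sound k20_20_6_6) (by decide) hn t20_20_6_6_8 _ _ (by decide +kernel)

/-- certificates of the pair `(6, 6)`, part 9 -/
def t20_20_6_6_9 : BlkD.Tr :=
  .E 0

lemma s20_20_6_6_9 {n : ℕ} (hn : 5 ≤ n) : NoNd (d20_20_6_6.R : ℤ) d20_20_6_6.H n d20_20_6_6.a d20_20_6_6.b
    (BlkD.inB (BlkD.upd (BlkD.upd (fun _ => 0) 0 2) 1 10)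
      (BlkD.upd (BlkD.upd (BlkD.upd (BlkD.upd (BlkD.upd (fun _ => 20) 0 6) 2 6) 0 3) 0 2) 1 18)) :=
  BlkD.tree_sound (BlkD.pairOk_sound k20_20_6_6) (by decide) hn t20_20_6_6_9 _ _ (by decide +kernel)

/-- certificates of the pair `(6, 6)`, part 10 -/
def t20_20_6_6_10 : BlkD.Tr :=
  .E 0

lemma s20_20_6_6_10 {n : ℕ} (hn : 5 ≤ n) : NoNd (d20_20_6_6.R : ℤ) d20_20_6_6.H n d20_20_6_6.a d20_20_6_6.b
    (BlkD.inB (BlkD.upd (BlkD.upd (fun _ => 0) 0 2) 1 19)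
      (BlkD.upd (BlkD.upd (BlkD.upd (BlkD.upd (fun _ => 20) 0 6) 2 6) 0 3) 0 2)) :=
  BlkD.tree_sound (BlkD.pairOk_sound k20_20_6_6) (by decide) hn t20_20_6_6_10 _ _ (by decide +kernel)

/-- certificates of the pair `(6, 6)`, part 11 -/
def t20_20_6_6_11 : BlkD.Tr :=
  .S 1 2 (.L 6 6 [4, 4, 4, 20, 20, 20, 20] [] [] 100000 1 1 1428573 14286 14286 28571 71429 0 14286
    7143) (.S 1 3 (.L 6 6 [4, 4, 4, 20, 20, 20, 20] [60, 50, 38, 24, 0, 0] [] 100000 11112 11112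
    1472221 33333 5556 61111 61111 0 11111 5556) (.S 2 3 (.L 6 6 [4, 4, 4, 20, 20, 20, 20] [80, 72,
    62, 50, 36, 0] [] 100000 38461 38461 1384617 30769 30769 69231 61538 0 7692 0) (.L 6 6 [4, 4,
    4, 20, 20, 20, 20] [80, 72, 62, 50, 36, 0] [] 100000 10318 10318 1474605 30159 1587 67937 62222
    1905 7619 3810)))

lemma s20_20_6_6_11 {n : ℕ} (hn : 5 ≤ n) : NoNd (d20_20_6_6.R : ℤ) d20_20_6_6.H n d20_20_6_6.a d20_20_6_6.b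
    (BlkD.inB (BlkD.upd (BlkD.upd (fun _ => 0) 0 2) 0 3)
      (BlkD.upd (BlkD.upd (BlkD.upd (BlkD.upd (BlkD.upd (BlkD.upd (fun _ => 20) 0 6) 2 6) 0 3) 1 17) 1 8) 1 4)) :=
  BlkD.tree_sound (BlkD.pairOk_sound k20_20_6_6) (by decide) hn t20_20_6_6_11 _ _ (by decide +kernel)

/-- certificates of the pair `(6, 6)`, part 12 -/
def t20_20_6_6_12 : BlkD.Tr :=
  .S 1 6 (.S 1 5 (.S 2 3 (.L 6 6 [4, 4, 4, 20, 20, 20, 20] [100, 94, 86, 76, 64, 50] [] 100000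
    17500 17500 1450000 25000 25000 65000 70000 10000 5000 0) (.L 6 6 [4, 4, 4, 20, 20, 20, 20]
    [100, 94, 86, 76, 64, 50] [] 100000 8141 8141 1479071 30233 0 95349 65116 6977 6977 3488)) (.S
    2 3 (.L 6 6 [4, 4, 4, 20, 20, 20, 20] [118, 116, 110, 102, 92, 80] [] 100000 65216 65216
    1326090 39130 39130 78261 78261 4348 0 0) (.S 2 5 (.S 2 4 (.L 6 6 [4, 4, 4, 20, 20, 20, 20]
    [118, 116, 110, 102, 92, 80] [] 100000 3913 3913 1486958 25362 12319 57609 43696 5072 12464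
    11957) (.L 6 6 [4, 4, 4, 20, 20, 20, 20] [118, 116, 110, 102, 92, 80] [] 100000 6864 6864
    1440196 36275 0 62745 50980 9804 12745 18627)) (.L 6 6 [4, 4, 4, 20, 20, 20, 20] [118, 116,
    110, 102, 92, 80] [] 100000 0 0 1400002 33333 0 83333 0 0 33333 16667)))) (.S 1 7 (.L 6 6 [4,
    4, 4, 20, 20, 20, 20] [138, 136, 134, 128, 120, 110] [] 100000 25000 25000 1400000 50000 0
    100000 50000 0 0 0) (.L 6 6 [4, 4, 4, 20, 20, 20, 20] [160, 158, 156, 154, 148, 140] [] 100000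
    228000 0 0 0 20000 328000 40000 0 0 0))

lemma s20_20_6_6_12 {n : ℕ} (hn : 5 ≤ n) : NoNd (d20_20_6_6.R : ℤ) d20_20_6_6.H n d20_20_6_6.a d20_20_6_6.b
    (BlkD.inB (BlkD.upd (BlkD.upd (BlkD.upd (fun _ => 0) 0 2) 0 3) 1 5)
      (BlkD.upd (BlkD.upd (BlkD.upd (BlkD.upd (BlkD.upd (fun _ => 20) 0 6) 2 6) 0 3) 1 17) 1 8)) :=
  BlkD.tree_sound (BlkD.pairOk_sound k20_20_6_6) (by decide) hn t20_20_6_6_12 _ _ (by decide +kernel)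

/-- certificates of the pair `(6, 6)`, part 13 -/
def t20_20_6_6_13 : BlkD.Tr :=
  .E 0

lemma s20_20_6_6_13 {n : ℕ} (hn : 5 ≤ n) : NoNd (d20_20_6_6.R : ℤ) d20_20_6_6.H n d20_20_6_6.a d20_20_6_6.b
    (BlkD.inB (BlkD.upd (BlkD.upd (BlkD.upd (fun _ => 0) 0 2) 0 3) 1 9)
      (BlkD.upd (BlkD.upd (BlkD.upd (BlkD.upd (fun _ => 20) 0 6) 2 6) 0 3) 1 17)) :=
  BlkD.tree_sound (BlkD.pairOk_sound k20_20_6_6) (by decide) hn t20_20_6_6_13 _ _ (by decide +kernel)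

/-- certificates of the pair `(6, 6)`, part 14 -/
def t20_20_6_6_14 : BlkD.Tr :=
  .E 0

lemma s20_20_6_6_14 {n : ℕ} (hn : 5 ≤ n) : NoNd (d20_20_6_6.R : ℤ) d20_20_6_6.H n d20_20_6_6.a d20_20_6_6.b
    (BlkD.inB (BlkD.upd (BlkD.upd (BlkD.upd (fun _ => 0) 0 2) 0 3) 1 18)
      (BlkD.upd (BlkD.upd (BlkD.upd (fun _ => 20) 0 6) 2 6) 0 3)) :=
  BlkD.tree_sound (BlkD.pairOk_sound k20_20_6_6) (by decide) hn t20_20_6_6_14 _ _ (by decide +kernel)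

/-- certificates of the pair `(6, 6)`, part 15 -/
def t20_20_6_6_15 : BlkD.Tr :=
  .S 0 4 (.S 1 16 (.S 1 8 (.S 1 4 (.S 1 2 (.L 6 6 [4, 4, 4, 20, 20, 20, 20] [] [] 100000 8000 8000
    1446668 20000 13333 80000 76000 0 4000 2000) (.S 1 3 (.S 2 3 (.L 6 6 [4, 4, 4, 20, 20, 20, 20]
    [66, 56, 44, 30, 0, 0] [] 100000 7778 7778 1466669 11111 33333 46667 57778 8889 8889 4444) (.L
    6 6 [4, 4, 4, 20, 20, 20, 20] [66, 56, 44, 30, 0, 0] [] 100000 5150 5150 1463291 13123 12292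
    73588 86711 2658 166 1329)) (.S 2 3 (.L 6 6 [4, 4, 4, 20, 20, 20, 20] [88, 80, 70, 58, 44, 0]
    [] 100000 12011 12011 1448040 9314 31373 70588 67157 5882 1471 2941) (.S 2 5 (.S 2 4 (.S 3 8
    (.S 3 4 (.S 3 2 (.L 6 6 [4, 4, 4, 20, 20, 20, 20] [88, 80, 70, 58, 44, 0] [] 100000 0 0 1400000
    0 0 0 0 0 0 0) (.S 3 3 (.L 6 6 [4, 4, 4, 20, 20, 20, 20] [88, 80, 70, 58, 44, 0] [66, 56, 44,
    30, 0, 0] 100000 6483 6483 1451852 16667 16667 33333 27778 1852 1852 926) (.L 6 6 [4, 4, 4, 20,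
    20, 20, 20] [88, 80, 70, 58, 44, 0] [88, 80, 70, 58, 44, 0] 100000 2 2 1492452 17925 17925
    74528 74528 21698 21698 0))) (.L 6 6 [4, 4, 4, 20, 20, 20, 20] [88, 80, 70, 58, 44, 0] []
    100000 20000 0 1300000 20000 20000 120000 100000 0 0 0)) (.E 1)) (.L 6 6 [4, 4, 4, 20, 20, 20,
    20] [88, 80, 70, 58, 44, 0] [] 100000 1 1 1472444 12000 13778 51778 79556 8444 8444 2667)) (.L
    6 6 [4, 4, 4, 20, 20, 20, 20] [88, 80, 70, 58, 44, 0] [] 100000 0 0 1460000 40000 0 50000 40000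
    20000 40000 10000))))) (.S 1 6 (.S 1 5 (.S 2 3 (.L 6 6 [4, 4, 4, 20, 20, 20, 20] [110, 104, 96,
    86, 74, 60] [] 100000 4023 4023 1452874 4598 33333 77011 89655 25287 0 12644) (.L 6 6 [4, 4, 4,
    20, 20, 20, 20] [110, 104, 96, 86, 74, 60] [] 100000 0 0 1468423 10526 10526 89474 78947 10526
    0 5263)) (.L 6 6 [4, 4, 4, 20, 20, 20, 20] [130, 128, 122, 114, 104, 92] [] 100000 6250 6250
    1437500 12500 12500 100000 43750 0 0 0)) (.E 0))) (.E 0)) (.E 0)) (.L 6 6 [4, 4, 4, 20, 20, 20,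
    20] [] [] 100000 0 0 1499248 377 20000 63774 60000 15849 7925 6038)

lemma s20_20_6_6_15 {n : ℕ} (hn : 5 ≤ n) : NoNd (d20_20_6_6.R : ℤ) d20_20_6_6.H n d20_20_6_6.a d20_20_6_6.b
    (BlkD.inB (BlkD.upd (fun _ => 0) 0 4)
      (BlkD.upd (BlkD.upd (BlkD.upd (fun _ => 20) 0 6) 2 6) 0 5)) :=
  BlkD.tree_sound (BlkD.pairOk_sound k20_20_6_6) (by decide) hn t20_20_6_6_15 _ _ (by decide +kernel)

/-- certificates of the pair `(6, 6)`, part 16 -/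
def t20_20_6_6_16 : BlkD.Tr :=
  .L 6 6 [4, 4, 4, 20, 20, 20, 20] [] [] 100000 0 0 1475000 0 25000 25000 50000 37500 12500 6250

lemma s20_20_6_6_16 {n : ℕ} (hn : 5 ≤ n) : NoNd (d20_20_6_6.R : ℤ) d20_20_6_6.H n d20_20_6_6.a d20_20_6_6.b
    (BlkD.inB (BlkD.upd (BlkD.upd (fun _ => 0) 0 4) 0 6)
      (BlkD.upd (BlkD.upd (fun _ => 20) 0 6) 2 6)) :=
  BlkD.tree_sound (BlkD.pairOk_sound k20_20_6_6) (by decide) hn t20_20_6_6_16 _ _ (by decide +kernel)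

/-- certificates of the pair `(6, 6)`, part 17 -/
def t20_20_6_6_17 : BlkD.Tr :=
  .E 1

lemma s20_20_6_6_17 {n : ℕ} (hn : 5 ≤ n) : NoNd (d20_20_6_6.R : ℤ) d20_20_6_6.H n d20_20_6_6.a d20_20_6_6.b
    (BlkD.inB (BlkD.upd (fun _ => 0) 2 7)
      (BlkD.upd (fun _ => 20) 0 6)) :=
  BlkD.tree_sound (BlkD.pairOk_sound k20_20_6_6) (by decide) hn t20_20_6_6_17 _ _ (by decide +kernel)

/-- certificates of the pair `(6, 6)`, part 18 -/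
def t20_20_6_6_18 : BlkD.Tr :=
  .E 0

lemma s20_20_6_6_18 {n : ℕ} (hn : 5 ≤ n) : NoNd (d20_20_6_6.R : ℤ) d20_20_6_6.H n d20_20_6_6.a d20_20_6_6.b
    (BlkD.inB (BlkD.upd (fun _ => 0) 0 7)
      (fun _ => 20)) :=
  BlkD.tree_sound (BlkD.pairOk_sound k20_20_6_6) (by decide) hn t20_20_6_6_18 _ _ (by decide +kernel)

lemma pr20_20_6_6 {n : ℕ} (hn : 5 ≤ n) : NoPr ((20 : ℕ) : ℤ) ((20 : ℕ) : ℤ) n 6 6 :=
  BlkD.of_root (R := d20_20_6_6.R) (H := d20_20_6_6.H) (a := d20_20_6_6.a) (b := d20_20_6_6.b) (q := 3) (by decide) hn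
    (BlkD.sp 0 6 (BlkD.sp 2 6 (BlkD.sp 0 3 (BlkD.sp 0 1 (BlkD.sp 0 0 (s20_20_6_6_1 hn) (BlkD.sp 1
      10 (BlkD.sp 1 5 (s20_20_6_6_2 hn) (s20_20_6_6_3 hn)) (s20_20_6_6_4 hn))) (BlkD.sp 0 2
      (BlkD.sp 1 18 (BlkD.sp 1 9 (BlkD.sp 1 4 (s20_20_6_6_5 hn) (BlkD.sp 1 7 (BlkD.sp 1 6
      (s20_20_6_6_6 hn) (s20_20_6_6_7 hn)) (s20_20_6_6_8 hn))) (s20_20_6_6_9 hn)) (s20_20_6_6_10
      hn)) (BlkD.sp 1 17 (BlkD.sp 1 8 (BlkD.sp 1 4 (s20_20_6_6_11 hn) (s20_20_6_6_12 hn))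
      (s20_20_6_6_13 hn)) (s20_20_6_6_14 hn)))) (BlkD.sp 0 5 (s20_20_6_6_15 hn) (s20_20_6_6_16
      hn))) (s20_20_6_6_17 hn)) (s20_20_6_6_18 hn))

/-- the numbers of the pair `(7, 0)`, `R = 20`, `H = 20` -/
def d20_20_7_0 : BlkD.Pd :=
  ⟨20, 20, 3, 7, 0, 10, 0, 1, 0, 4, 4, 0, 0, 4, 4, 0, [0, 4, 8, 12, 16, 20, 24, 28, 32, 36, 40],
    [0, 4, 8, 12, 16, 20, 24, 28, 32, 36, 40], [⟨1, 1, 1, 4, 8, [0, 4], [0, 4]⟩]⟩

/-- the certificates of the pair `(7, 0)` -/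
def t20_20_7_0 : BlkD.Tr :=
  .S 0 7 (.S 2 0 (.L 4 4 [4] [] [] 100000 0 0 800000 50000 0 50000 50000 0 0 0) (.E 1)) (.E 0)

lemma pr20_20_7_0 {n : ℕ} (hn : 5 ≤ n) : NoPr ((20 : ℕ) : ℤ) ((20 : ℕ) : ℤ) n 7 0 :=
  BlkD.pair_sound (d := d20_20_7_0) (by decide +kernel) hn (by decide) (tr := t20_20_7_0)
    (by decide +kernel) rfl rfl rfl rfl

/-- the numbers of the pair `(7, 1)`, `R = 20`, `H = 20` -/
def d20_20_7_1 : BlkD.Pd :=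
  ⟨20, 20, 3, 7, 1, 9, 1, 1, 2, 2, 6, 0, 0, 4, 4, 0, [0, 6, 12, 18, 24, 28, 30, 32, 34, 36], [0, 4,
    8, 12, 16, 20, 24, 28, 32, 36], [⟨1, 1, 1, 4, 8, [0, 4], [0, 4]⟩, ⟨1, 1, 1, 4, 10, [0, 6], [0,
    4]⟩]⟩

lemma k20_20_7_1 : BlkD.pairOk d20_20_7_1 = true := by decide +kernel

/-- certificates of the pair `(7, 1)`, part 1 -/
def t20_20_7_1_1 : BlkD.Tr :=
  .S 0 1 (.L 4 5 [4, 4] [] [] 100000 1 0 1009091 27273 9091 54545 9091 0 0 0) (.L 4 5 [4, 4] [] []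
    100000 1 0 1009091 27273 9091 54545 9091 0 0 0)

lemma s20_20_7_1_1 {n : ℕ} (hn : 5 ≤ n) : NoNd (d20_20_7_1.R : ℤ) d20_20_7_1.H n d20_20_7_1.a d20_20_7_1.b
    (BlkD.inB (fun _ => 0)
      (BlkD.upd (BlkD.upd (BlkD.upd (fun _ => 20) 0 7) 2 1) 0 3)) :=
  BlkD.tree_sound (BlkD.pairOk_sound k20_20_7_1) (by decide) hn t20_20_7_1_1 _ _ (by decide +kernel)

/-- certificates of the pair `(7, 1)`, part 2 -/
def t20_20_7_1_2 : BlkD.Tr :=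
  .L 4 5 [4, 4] [] [] 100000 1 0 1009091 27273 9091 54545 9091 0 0 0

lemma s20_20_7_1_2 {n : ℕ} (hn : 5 ≤ n) : NoNd (d20_20_7_1.R : ℤ) d20_20_7_1.H n d20_20_7_1.a d20_20_7_1.b
    (BlkD.inB (BlkD.upd (fun _ => 0) 0 4)
      (BlkD.upd (BlkD.upd (fun _ => 20) 0 7) 2 1)) :=
  BlkD.tree_sound (BlkD.pairOk_sound k20_20_7_1) (by decide) hn t20_20_7_1_2 _ _ (by decide +kernel)

/-- certificates of the pair `(7, 1)`, part 3 -/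
def t20_20_7_1_3 : BlkD.Tr :=
  .E 1

lemma s20_20_7_1_3 {n : ℕ} (hn : 5 ≤ n) : NoNd (d20_20_7_1.R : ℤ) d20_20_7_1.H n d20_20_7_1.a d20_20_7_1.b
    (BlkD.inB (BlkD.upd (fun _ => 0) 2 2)
      (BlkD.upd (fun _ => 20) 0 7)) :=
  BlkD.tree_sound (BlkD.pairOk_sound k20_20_7_1) (by decide) hn t20_20_7_1_3 _ _ (by decide +kernel)

/-- certificates of the pair `(7, 1)`, part 4 -/
def t20_20_7_1_4 : BlkD.Tr :=
  .E 0

lemma s20_20_7_1_4 {n : ℕ} (hn : 5 ≤ n) : NoNd (d20_20_7_1.R : ℤ) d20_20_7_1.H n d20_20_7_1.a d20_20_7_1.b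
    (BlkD.inB (BlkD.upd (fun _ => 0) 0 8)
      (fun _ => 20)) :=
  BlkD.tree_sound (BlkD.pairOk_sound k20_20_7_1) (by decide) hn t20_20_7_1_4 _ _ (by decide +kernel)

lemma pr20_20_7_1 {n : ℕ} (hn : 5 ≤ n) : NoPr ((20 : ℕ) : ℤ) ((20 : ℕ) : ℤ) n 7 1 :=
  BlkD.of_root (R := d20_20_7_1.R) (H := d20_20_7_1.H) (a := d20_20_7_1.a) (b := d20_20_7_1.b) (q := 3) (by decide) hn
    (BlkD.sp 0 7 (BlkD.sp 2 1 (BlkD.sp 0 3 (s20_20_7_1_1 hn) (s20_20_7_1_2 hn)) (s20_20_7_1_3 hn))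
      (s20_20_7_1_4 hn))

/-- the numbers of the pair `(7, 2)`, `R = 20`, `H = 20` -/
def d20_20_7_2 : BlkD.Pd :=
  ⟨20, 20, 3, 7, 2, 8, 2, 1, 2, 2, 8, 0, 3, 1, 6, 0, [0, 8, 16, 22, 24, 26, 28, 30, 32], [0, 6, 12,
    17, 20, 23, 26, 29, 32], [⟨1, 1, 1, 4, 8, [0, 4], [0, 4]⟩, ⟨1, 1, 1, 4, 10, [0, 6], [0, 4]⟩,
    ⟨1, 1, 1, 6, 14, [0, 8], [0, 6]⟩]⟩

lemma k20_20_7_2 : BlkD.pairOk d20_20_7_2 = true := by decide +kernel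

/-- certificates of the pair `(7, 2)`, part 1 -/
def t20_20_7_2_1 : BlkD.Tr :=
  .L 4 6 [4, 4, 4] [] [] 100000 0 0 1160000 20000 0 60000 6667 7619 32381 32381

lemma s20_20_7_2_1 {n : ℕ} (hn : 5 ≤ n) : NoNd (d20_20_7_2.R : ℤ) d20_20_7_2.H n d20_20_7_2.a d20_20_7_2.b
    (BlkD.inB (fun _ => 0)
      (BlkD.upd (BlkD.upd (BlkD.upd (BlkD.upd (fun _ => 20) 0 7) 2 2) 0 3) 0 1)) :=
  BlkD.tree_sound (BlkD.pairOk_sound k20_20_7_2) (by decide) hn t20_20_7_2_1 _ _ (by decide +kernel)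

/-- certificates of the pair `(7, 2)`, part 2 -/
def t20_20_7_2_2 : BlkD.Tr :=
  .L 4 6 [4, 4, 4] [] [] 100000 0 0 1160000 20000 0 60000 6667 7619 32381 32381

lemma s20_20_7_2_2 {n : ℕ} (hn : 5 ≤ n) : NoNd (d20_20_7_2.R : ℤ) d20_20_7_2.H n d20_20_7_2.a d20_20_7_2.b
    (BlkD.inB (BlkD.upd (fun _ => 0) 0 2)
      (BlkD.upd (BlkD.upd (BlkD.upd (fun _ => 20) 0 7) 2 2) 0 3)) :=
  BlkD.tree_sound (BlkD.pairOk_sound k20_20_7_2) (by decide) hn t20_20_7_2_2 _ _ (by decide +kernel)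

/-- certificates of the pair `(7, 2)`, part 3 -/
def t20_20_7_2_3 : BlkD.Tr :=
  .L 4 6 [4, 4, 4] [] [] 100000 0 0 1160000 20000 0 60000 6667 7619 32381 32381

lemma s20_20_7_2_3 {n : ℕ} (hn : 5 ≤ n) : NoNd (d20_20_7_2.R : ℤ) d20_20_7_2.H n d20_20_7_2.a d20_20_7_2.b
    (BlkD.inB (BlkD.upd (fun _ => 0) 0 4)
      (BlkD.upd (BlkD.upd (fun _ => 20) 0 7) 2 2)) :=
  BlkD.tree_sound (BlkD.pairOk_sound k20_20_7_2) (by decide) hn t20_20_7_2_3 _ _ (by decide +kernel)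

/-- certificates of the pair `(7, 2)`, part 4 -/
def t20_20_7_2_4 : BlkD.Tr :=
  .E 1

lemma s20_20_7_2_4 {n : ℕ} (hn : 5 ≤ n) : NoNd (d20_20_7_2.R : ℤ) d20_20_7_2.H n d20_20_7_2.a d20_20_7_2.b
    (BlkD.inB (BlkD.upd (fun _ => 0) 2 3)
      (BlkD.upd (fun _ => 20) 0 7)) :=
  BlkD.tree_sound (BlkD.pairOk_sound k20_20_7_2) (by decide) hn t20_20_7_2_4 _ _ (by decide +kernel)

/-- certificates of the pair `(7, 2)`, part 5 -/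
def t20_20_7_2_5 : BlkD.Tr :=
  .E 0

lemma s20_20_7_2_5 {n : ℕ} (hn : 5 ≤ n) : NoNd (d20_20_7_2.R : ℤ) d20_20_7_2.H n d20_20_7_2.a d20_20_7_2.b
    (BlkD.inB (BlkD.upd (fun _ => 0) 0 8)
      (fun _ => 20)) :=
  BlkD.tree_sound (BlkD.pairOk_sound k20_20_7_2) (by decide) hn t20_20_7_2_5 _ _ (by decide +kernel)

lemma pr20_20_7_2 {n : ℕ} (hn : 5 ≤ n) : NoPr ((20 : ℕ) : ℤ) ((20 : ℕ) : ℤ) n 7 2 :=
  BlkD.of_root (R := d20_20_7_2.R) (H := d20_20_7_2.H) (a := d20_20_7_2.a) (b := d20_20_7_2.b) (q := 3) (by decide) hn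
    (BlkD.sp 0 7 (BlkD.sp 2 2 (BlkD.sp 0 3 (BlkD.sp 0 1 (s20_20_7_2_1 hn) (s20_20_7_2_2 hn))
      (s20_20_7_2_3 hn)) (s20_20_7_2_4 hn)) (s20_20_7_2_5 hn))

end BlkC

end Pool.Agent.Lib.MP_f04ccf_co
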