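import Pool.Agent.Lib.MP_f04ccf_co.M.BlkT

/-!
MP_f04ccf_co, block certificate, data `R = 20`, `H = 20`, part 7 (generated, helper99:
bd10.cpp, gen2.py).
-/

set_option autoImplicit false
set_option maxRecDepth 100000

namespace Pool.Agent.Lib.MP_f04ccf_co

namespace BlkC

/-- the numbers of the pair `(7, 3)`, `R = 20`, `H = 20` -/
def d20_20_7_3 : BlkD.Pd :=
  ⟨20, 20, 3, 7, 3, 7, 3, 2, 1, 4, 10, 0, 4, 1, 8, 0, [0, 10, 20, 30, 32, 33, 34, 35], [0, 8, 15,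
    19, 23, 27, 31, 35], [⟨1, 1, 1, 4, 8, [0, 4], [0, 4]⟩, ⟨1, 1, 1, 6, 12, [0, 6], [0, 6]⟩, ⟨1, 1,
    1, 6, 14, [0, 8], [0, 6]⟩, ⟨2, 1, 1, 6, 26, [0, 10, 18], [0, 8]⟩]⟩

lemma k20_20_7_3 : BlkD.pairOk d20_20_7_3 = true := by decide +kernel

/-- certificates of the pair `(7, 3)`, part 1 -/
def t20_20_7_3_1 : BlkD.Tr :=
  .L 5 6 [4, 4, 4, 5] [] [] 100000 100000 100000 600001 100000 0 100000 33333 0 0 0

lemma s20_20_7_3_1 {n : ℕ} (hn : 5 ≤ n) : NoNd (d20_20_7_3.R : ℤ) d20_20_7_3.H n d20_20_7_3.a d20_20_7_3.b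
    (BlkD.inB (fun _ => 0)
      (BlkD.upd (BlkD.upd (BlkD.upd (BlkD.upd (BlkD.upd (fun _ => 20) 0 7) 2 3) 0 3) 0 1) 0 0)) :=
  BlkD.tree_sound (BlkD.pairOk_sound k20_20_7_3) (by decide) hn t20_20_7_3_1 _ _ (by decide +kernel)

/-- certificates of the pair `(7, 3)`, part 2 -/
def t20_20_7_3_2 : BlkD.Tr :=
  .L 5 6 [4, 4, 4, 5] [] [] 100000 100000 100000 600001 100000 0 100000 33333 0 0 0

lemma s20_20_7_3_2 {n : ℕ} (hn : 5 ≤ n) : NoNd (d20_20_7_3.R : ℤ) d20_20_7_3.H n d20_20_7_3.a d20_20_7_3.b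
    (BlkD.inB (BlkD.upd (fun _ => 0) 0 1)
      (BlkD.upd (BlkD.upd (BlkD.upd (BlkD.upd (BlkD.upd (BlkD.upd (fun _ => 20) 0 7) 2 3) 0 3) 0 1) 1 10) 1 5)) :=
  BlkD.tree_sound (BlkD.pairOk_sound k20_20_7_3) (by decide) hn t20_20_7_3_2 _ _ (by decide +kernel)

/-- certificates of the pair `(7, 3)`, part 3 -/
def t20_20_7_3_3 : BlkD.Tr :=
  .L 5 6 [4, 4, 4, 5] [] [] 100000 100000 100000 600001 100000 0 100000 33333 0 0 0

lemma s20_20_7_3_3 {n : ℕ} (hn : 5 ≤ n) : NoNd (d20_20_7_3.R : ℤ) d20_20_7_3.H n d20_20_7_3.a d20_20_7_3.b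
    (BlkD.inB (BlkD.upd (BlkD.upd (fun _ => 0) 0 1) 1 6)
      (BlkD.upd (BlkD.upd (BlkD.upd (BlkD.upd (BlkD.upd (fun _ => 20) 0 7) 2 3) 0 3) 0 1) 1 10)) :=
  BlkD.tree_sound (BlkD.pairOk_sound k20_20_7_3) (by decide) hn t20_20_7_3_3 _ _ (by decide +kernel)

/-- certificates of the pair `(7, 3)`, part 4 -/
def t20_20_7_3_4 : BlkD.Tr :=
  .L 5 6 [4, 4, 4, 5] [] [] 100000 100000 100000 600001 100000 0 100000 33333 0 0 0

lemma s20_20_7_3_4 {n : ℕ} (hn : 5 ≤ n) : NoNd (d20_20_7_3.R : ℤ) d20_20_7_3.H n d20_20_7_3.a d20_20_7_3.b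
    (BlkD.inB (BlkD.upd (BlkD.upd (fun _ => 0) 0 1) 1 11)
      (BlkD.upd (BlkD.upd (BlkD.upd (BlkD.upd (fun _ => 20) 0 7) 2 3) 0 3) 0 1)) :=
  BlkD.tree_sound (BlkD.pairOk_sound k20_20_7_3) (by decide) hn t20_20_7_3_4 _ _ (by decide +kernel)

/-- certificates of the pair `(7, 3)`, part 5 -/
def t20_20_7_3_5 : BlkD.Tr :=
  .S 1 5 (.L 5 8 [4, 4, 4, 4] [] [] 100000 67151 67151 1030433 50725 0 82609 50725 0 11594 27536)
    (.L 5 8 [4, 4, 4, 4] [] [] 100000 67151 67151 1030433 50725 0 82609 50725 0 11594 27536)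

lemma s20_20_7_3_5 {n : ℕ} (hn : 5 ≤ n) : NoNd (d20_20_7_3.R : ℤ) d20_20_7_3.H n d20_20_7_3.a d20_20_7_3.b
    (BlkD.inB (BlkD.upd (fun _ => 0) 0 2)
      (BlkD.upd (BlkD.upd (BlkD.upd (BlkD.upd (BlkD.upd (fun _ => 20) 0 7) 2 3) 0 3) 0 2) 1 10)) :=
  BlkD.tree_sound (BlkD.pairOk_sound k20_20_7_3) (by decide) hn t20_20_7_3_5 _ _ (by decide +kernel)

/-- certificates of the pair `(7, 3)`, part 6 -/
def t20_20_7_3_6 : BlkD.Tr :=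
  .L 5 8 [4, 4, 4, 4] [] [] 100000 67151 67151 1030433 50725 0 82609 50725 0 11594 27536

lemma s20_20_7_3_6 {n : ℕ} (hn : 5 ≤ n) : NoNd (d20_20_7_3.R : ℤ) d20_20_7_3.H n d20_20_7_3.a d20_20_7_3.b
    (BlkD.inB (BlkD.upd (BlkD.upd (fun _ => 0) 0 2) 1 11)
      (BlkD.upd (BlkD.upd (BlkD.upd (BlkD.upd (fun _ => 20) 0 7) 2 3) 0 3) 0 2)) :=
  BlkD.tree_sound (BlkD.pairOk_sound k20_20_7_3) (by decide) hn t20_20_7_3_6 _ _ (by decide +kernel)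

/-- certificates of the pair `(7, 3)`, part 7 -/
def t20_20_7_3_7 : BlkD.Tr :=
  .S 1 4 (.L 5 8 [4, 4, 4, 4] [] [] 100000 25000 25000 1075000 25000 0 25000 25000 0 25000 25000)
    (.S 1 6 (.S 1 5 (.L 5 8 [4, 4, 4, 4] [98, 90, 80, 70, 60, 50] [] 100000 26190 26189 1125003
    25000 0 37500 50000 0 21429 21429) (.L 5 8 [4, 4, 4, 4] [116, 114, 106, 96, 86, 76] [] 100000
    26242 26242 1178723 31915 0 53191 29787 0 23404 21277)) (.S 1 7 (.L 5 8 [4, 4, 4, 4] [135, 134,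
    132, 124, 114, 104] [] 100000 28280 28280 1160640 34840 0 65160 40160 1064 17553 25000) (.L 5 8
    [4, 4, 4, 4] [156, 155, 154, 152, 144, 134] [] 100000 32742 32742 1151110 35556 0 71111 57778 0
    13333 18667)))

lemma s20_20_7_3_7 {n : ℕ} (hn : 5 ≤ n) : NoNd (d20_20_7_3.R : ℤ) d20_20_7_3.H n d20_20_7_3.a d20_20_7_3.b
    (BlkD.inB (BlkD.upd (BlkD.upd (fun _ => 0) 0 2) 0 3)
      (BlkD.upd (BlkD.upd (BlkD.upd (BlkD.upd (BlkD.upd (fun _ => 20) 0 7) 2 3) 0 3) 1 17) 1 8)) :=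
  BlkD.tree_sound (BlkD.pairOk_sound k20_20_7_3) (by decide) hn t20_20_7_3_7 _ _ (by decide +kernel)

/-- certificates of the pair `(7, 3)`, part 8 -/
def t20_20_7_3_8 : BlkD.Tr :=
  .S 1 13 (.S 1 11 (.S 1 10 (.S 1 9 (.L 5 8 [4, 4, 4, 4] [179, 178, 177, 176, 174, 166] [] 100000
    50741 50741 1014445 46667 0 100000 52222 0 7778 20000) (.L 5 8 [4, 4, 4, 4] [204, 203, 202,
    201, 200, 198] [] 100000 140000 0 220000 120000 0 240000 20000 0 0 0)) (.E 0)) (.E 0)) (.E 0)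

lemma s20_20_7_3_8 {n : ℕ} (hn : 5 ≤ n) : NoNd (d20_20_7_3.R : ℤ) d20_20_7_3.H n d20_20_7_3.a d20_20_7_3.b
    (BlkD.inB (BlkD.upd (BlkD.upd (BlkD.upd (fun _ => 0) 0 2) 0 3) 1 9)
      (BlkD.upd (BlkD.upd (BlkD.upd (BlkD.upd (fun _ => 20) 0 7) 2 3) 0 3) 1 17)) :=
  BlkD.tree_sound (BlkD.pairOk_sound k20_20_7_3) (by decide) hn t20_20_7_3_8 _ _ (by decide +kernel)

/-- certificates of the pair `(7, 3)`, part 9 -/
def t20_20_7_3_9 : BlkD.Tr :=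
  .E 0

lemma s20_20_7_3_9 {n : ℕ} (hn : 5 ≤ n) : NoNd (d20_20_7_3.R : ℤ) d20_20_7_3.H n d20_20_7_3.a d20_20_7_3.b
    (BlkD.inB (BlkD.upd (BlkD.upd (BlkD.upd (fun _ => 0) 0 2) 0 3) 1 18)
      (BlkD.upd (BlkD.upd (BlkD.upd (fun _ => 20) 0 7) 2 3) 0 3)) :=
  BlkD.tree_sound (BlkD.pairOk_sound k20_20_7_3) (by decide) hn t20_20_7_3_9 _ _ (by decide +kernel)

/-- certificates of the pair `(7, 3)`, part 10 -/
def t20_20_7_3_10 : BlkD.Tr :=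
  .S 1 16 (.S 1 8 (.S 1 4 (.L 5 8 [4, 4, 4, 4] [] [] 100000 26190 26189 1150003 25000 0 25000 50000
    0 21429 21429) (.S 1 6 (.S 1 5 (.L 5 8 [4, 4, 4, 4] [108, 100, 90, 80, 70, 60] [] 100000 25541
    25541 1180522 29870 0 72727 35065 1299 20779 24675) (.L 5 8 [4, 4, 4, 4] [128, 126, 118, 108,
    98, 88] [] 100000 28168 28168 1177968 30508 0 75061 49879 0 15496 20823)) (.S 1 7 (.L 5 8 [4,
    4, 4, 4] [149, 148, 146, 138, 128, 118] [] 100000 27778 27778 1176669 20000 0 100000 43333 0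
    16667 20000) (.L 5 8 [4, 4, 4, 4] [172, 171, 170, 168, 160, 150] [] 100000 25212 25212 1129342
    23553 0 100000 25482 5888 18477 26497)))) (.E 0)) (.E 0)

lemma s20_20_7_3_10 {n : ℕ} (hn : 5 ≤ n) : NoNd (d20_20_7_3.R : ℤ) d20_20_7_3.H n d20_20_7_3.a d20_20_7_3.b
    (BlkD.inB (BlkD.upd (fun _ => 0) 0 4)
      (BlkD.upd (BlkD.upd (BlkD.upd (BlkD.upd (fun _ => 20) 0 7) 2 3) 0 5) 0 4)) :=
  BlkD.tree_sound (BlkD.pairOk_sound k20_20_7_3) (by decide) hn t20_20_7_3_10 _ _ (by decide +kernel)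

/-- certificates of the pair `(7, 3)`, part 11 -/
def t20_20_7_3_11 : BlkD.Tr :=
  .S 1 15 (.S 1 7 (.S 1 3 (.L 5 8 [4, 4, 4, 4] [] [] 100000 27778 27778 1133334 33333 0 66667 66667
    0 16667 16667) (.S 1 5 (.S 1 4 (.L 5 8 [4, 4, 4, 4] [92, 82, 72, 62, 52, 0] [] 100000 19478
    19478 1198107 25475 1899 81510 54272 13269 15032 23101) (.L 5 8 [4, 4, 4, 4] [118, 110, 100,
    90, 80, 70] [] 100000 20594 20593 1208621 30460 0 80460 34483 11351 15517 25000)) (.L 5 8 [4,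
    4, 4, 4] [] [] 100000 24099 24098 1178998 10502 0 100000 29833 7458 20244 29985))) (.E 0)) (.E
    0)

lemma s20_20_7_3_11 {n : ℕ} (hn : 5 ≤ n) : NoNd (d20_20_7_3.R : ℤ) d20_20_7_3.H n d20_20_7_3.a d20_20_7_3.b
    (BlkD.inB (BlkD.upd (BlkD.upd (fun _ => 0) 0 4) 0 5)
      (BlkD.upd (BlkD.upd (BlkD.upd (fun _ => 20) 0 7) 2 3) 0 5)) :=
  BlkD.tree_sound (BlkD.pairOk_sound k20_20_7_3) (by decide) hn t20_20_7_3_11 _ _ (by decide +kernel)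

/-- certificates of the pair `(7, 3)`, part 12 -/
def t20_20_7_3_12 : BlkD.Tr :=
  .S 0 6 (.S 1 14 (.S 1 7 (.S 1 3 (.L 5 8 [4, 4, 4, 4] [] [] 100000 16785 16785 1200004 33333 0
    88652 46099 11348 26950 26950) (.L 5 8 [4, 4, 4, 4] [] [] 100000 14581 14581 1200003 8145 0
    91855 30618 26546 21569 29563)) (.E 0)) (.E 0)) (.L 5 8 [4, 4, 4, 4] [] [] 100000 0 0 1216849 0
    0 83152 27717 52174 30978 35326)

lemma s20_20_7_3_12 {n : ℕ} (hn : 5 ≤ n) : NoNd (d20_20_7_3.R : ℤ) d20_20_7_3.H n d20_20_7_3.a d20_20_7_3.b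
    (BlkD.inB (BlkD.upd (BlkD.upd (fun _ => 0) 0 4) 0 6)
      (BlkD.upd (BlkD.upd (fun _ => 20) 0 7) 2 3)) :=
  BlkD.tree_sound (BlkD.pairOk_sound k20_20_7_3) (by decide) hn t20_20_7_3_12 _ _ (by decide +kernel)

/-- certificates of the pair `(7, 3)`, part 13 -/
def t20_20_7_3_13 : BlkD.Tr :=
  .E 1

lemma s20_20_7_3_13 {n : ℕ} (hn : 5 ≤ n) : NoNd (d20_20_7_3.R : ℤ) d20_20_7_3.H n d20_20_7_3.a d20_20_7_3.b
    (BlkD.inB (BlkD.upd (fun _ => 0) 2 4)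
      (BlkD.upd (fun _ => 20) 0 7)) :=
  BlkD.tree_sound (BlkD.pairOk_sound k20_20_7_3) (by decide) hn t20_20_7_3_13 _ _ (by decide +kernel)

/-- certificates of the pair `(7, 3)`, part 14 -/
def t20_20_7_3_14 : BlkD.Tr :=
  .E 0

lemma s20_20_7_3_14 {n : ℕ} (hn : 5 ≤ n) : NoNd (d20_20_7_3.R : ℤ) d20_20_7_3.H n d20_20_7_3.a d20_20_7_3.b
    (BlkD.inB (BlkD.upd (fun _ => 0) 0 8)
      (fun _ => 20)) :=
  BlkD.tree_sound (BlkD.pairOk_sound k20_20_7_3) (by decide) hn t20_20_7_3_14 _ _ (by decide +kernel)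

lemma pr20_20_7_3 {n : ℕ} (hn : 5 ≤ n) : NoPr ((20 : ℕ) : ℤ) ((20 : ℕ) : ℤ) n 7 3 :=
  BlkD.of_root (R := d20_20_7_3.R) (H := d20_20_7_3.H) (a := d20_20_7_3.a) (b := d20_20_7_3.b) (q := 3) (by decide) hn
    (BlkD.sp 0 7 (BlkD.sp 2 3 (BlkD.sp 0 3 (BlkD.sp 0 1 (BlkD.sp 0 0 (s20_20_7_3_1 hn) (BlkD.sp 1
      10 (BlkD.sp 1 5 (s20_20_7_3_2 hn) (s20_20_7_3_3 hn)) (s20_20_7_3_4 hn))) (BlkD.sp 0 2
      (BlkD.sp 1 10 (s20_20_7_3_5 hn) (s20_20_7_3_6 hn)) (BlkD.sp 1 17 (BlkD.sp 1 8 (s20_20_7_3_7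
      hn) (s20_20_7_3_8 hn)) (s20_20_7_3_9 hn)))) (BlkD.sp 0 5 (BlkD.sp 0 4 (s20_20_7_3_10 hn)
      (s20_20_7_3_11 hn)) (s20_20_7_3_12 hn))) (s20_20_7_3_13 hn)) (s20_20_7_3_14 hn))

/-- the numbers of the pair `(7, 4)`, `R = 20`, `H = 20` -/
def d20_20_7_4 : BlkD.Pd :=
  ⟨20, 20, 3, 7, 4, 6, 3, 2, 1, 4, 10, 0, 2, 2, 8, 0, [0, 10, 20, 27, 28, 29, 30], [0, 8, 16, 18,
    20, 22, 24], [⟨1, 1, 1, 4, 8, [0, 4], [0, 4]⟩, ⟨1, 1, 1, 4, 12, [0, 6], [0, 6]⟩, ⟨1, 1, 1, 4,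
    16, [0, 8], [0, 8]⟩, ⟨2, 1, 1, 4, 26, [0, 10, 18], [0, 8]⟩]⟩

lemma k20_20_7_4 : BlkD.pairOk d20_20_7_4 = true := by decide +kernel

/-- certificates of the pair `(7, 4)`, part 1 -/
def t20_20_7_4_1 : BlkD.Tr :=
  .L 6 8 [4, 4, 4, 4, 20] [] [] 100000 75000 75000 800000 100000 0 100000 25000 0 0 0

lemma s20_20_7_4_1 {n : ℕ} (hn : 5 ≤ n) : NoNd (d20_20_7_4.R : ℤ) d20_20_7_4.H n d20_20_7_4.a d20_20_7_4.b
    (BlkD.inB (fun _ => 0)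
      (BlkD.upd (BlkD.upd (BlkD.upd (BlkD.upd (BlkD.upd (fun _ => 20) 0 7) 2 4) 0 3) 0 1) 0 0)) :=
  BlkD.tree_sound (BlkD.pairOk_sound k20_20_7_4) (by decide) hn t20_20_7_4_1 _ _ (by decide +kernel)

/-- certificates of the pair `(7, 4)`, part 2 -/
def t20_20_7_4_2 : BlkD.Tr :=
  .L 6 8 [4, 4, 4, 4, 20] [] [] 100000 75000 75000 800000 100000 0 100000 25000 0 0 0

lemma s20_20_7_4_2 {n : ℕ} (hn : 5 ≤ n) : NoNd (d20_20_7_4.R : ℤ) d20_20_7_4.H n d20_20_7_4.a d20_20_7_4.b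
    (BlkD.inB (BlkD.upd (fun _ => 0) 0 1)
      (BlkD.upd (BlkD.upd (BlkD.upd (BlkD.upd (BlkD.upd (BlkD.upd (fun _ => 20) 0 7) 2 4) 0 3) 0 1) 1 10) 1 5)) :=
  BlkD.tree_sound (BlkD.pairOk_sound k20_20_7_4) (by decide) hn t20_20_7_4_2 _ _ (by decide +kernel)

/-- certificates of the pair `(7, 4)`, part 3 -/
def t20_20_7_4_3 : BlkD.Tr :=
  .L 6 8 [4, 4, 4, 4, 20] [] [] 100000 75000 75000 800000 100000 0 100000 25000 0 0 0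

lemma s20_20_7_4_3 {n : ℕ} (hn : 5 ≤ n) : NoNd (d20_20_7_4.R : ℤ) d20_20_7_4.H n d20_20_7_4.a d20_20_7_4.b
    (BlkD.inB (BlkD.upd (BlkD.upd (fun _ => 0) 0 1) 1 6)
      (BlkD.upd (BlkD.upd (BlkD.upd (BlkD.upd (BlkD.upd (fun _ => 20) 0 7) 2 4) 0 3) 0 1) 1 10)) :=
  BlkD.tree_sound (BlkD.pairOk_sound k20_20_7_4) (by decide) hn t20_20_7_4_3 _ _ (by decide +kernel)

/-- certificates of the pair `(7, 4)`, part 4 -/
def t20_20_7_4_4 : BlkD.Tr :=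
  .L 6 8 [4, 4, 4, 4, 20] [] [] 100000 75000 75000 800000 100000 0 100000 25000 0 0 0

lemma s20_20_7_4_4 {n : ℕ} (hn : 5 ≤ n) : NoNd (d20_20_7_4.R : ℤ) d20_20_7_4.H n d20_20_7_4.a d20_20_7_4.b
    (BlkD.inB (BlkD.upd (BlkD.upd (fun _ => 0) 0 1) 1 11)
      (BlkD.upd (BlkD.upd (BlkD.upd (BlkD.upd (fun _ => 20) 0 7) 2 4) 0 3) 0 1)) :=
  BlkD.tree_sound (BlkD.pairOk_sound k20_20_7_4) (by decide) hn t20_20_7_4_4 _ _ (by decide +kernel)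

/-- certificates of the pair `(7, 4)`, part 5 -/
def t20_20_7_4_5 : BlkD.Tr :=
  .L 6 8 [4, 4, 4, 4, 20] [] [] 100000 74444 74443 1160002 60000 0 80000 43333 0 16667 20000

lemma s20_20_7_4_5 {n : ℕ} (hn : 5 ≤ n) : NoNd (d20_20_7_4.R : ℤ) d20_20_7_4.H n d20_20_7_4.a d20_20_7_4.b
    (BlkD.inB (BlkD.upd (fun _ => 0) 0 2)
      (BlkD.upd (BlkD.upd (BlkD.upd (BlkD.upd (BlkD.upd (BlkD.upd (fun _ => 20) 0 7) 2 4) 0 3) 0 2) 1 10) 1 5)) :=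
  BlkD.tree_sound (BlkD.pairOk_sound k20_20_7_4) (by decide) hn t20_20_7_4_5 _ _ (by decide +kernel)

/-- certificates of the pair `(7, 4)`, part 6 -/
def t20_20_7_4_6 : BlkD.Tr :=
  .L 6 8 [4, 4, 4, 4, 20] [] [] 100000 74444 74443 1160002 60000 0 80000 43333 0 16667 20000

lemma s20_20_7_4_6 {n : ℕ} (hn : 5 ≤ n) : NoNd (d20_20_7_4.R : ℤ) d20_20_7_4.H n d20_20_7_4.a d20_20_7_4.b
    (BlkD.inB (BlkD.upd (BlkD.upd (fun _ => 0) 0 2) 1 6)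
      (BlkD.upd (BlkD.upd (BlkD.upd (BlkD.upd (BlkD.upd (fun _ => 20) 0 7) 2 4) 0 3) 0 2) 1 10)) :=
  BlkD.tree_sound (BlkD.pairOk_sound k20_20_7_4) (by decide) hn t20_20_7_4_6 _ _ (by decide +kernel)

/-- certificates of the pair `(7, 4)`, part 7 -/
def t20_20_7_4_7 : BlkD.Tr :=
  .L 6 8 [4, 4, 4, 4, 20] [] [] 100000 74444 74443 1160002 60000 0 80000 43333 0 16667 20000

lemma s20_20_7_4_7 {n : ℕ} (hn : 5 ≤ n) : NoNd (d20_20_7_4.R : ℤ) d20_20_7_4.H n d20_20_7_4.a d20_20_7_4.b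
    (BlkD.inB (BlkD.upd (BlkD.upd (fun _ => 0) 0 2) 1 11)
      (BlkD.upd (BlkD.upd (BlkD.upd (BlkD.upd (fun _ => 20) 0 7) 2 4) 0 3) 0 2)) :=
  BlkD.tree_sound (BlkD.pairOk_sound k20_20_7_4) (by decide) hn t20_20_7_4_7 _ _ (by decide +kernel)

/-- certificates of the pair `(7, 4)`, part 8 -/
def t20_20_7_4_8 : BlkD.Tr :=
  .L 6 8 [4, 4, 4, 4, 20] [] [] 100000 24722 24721 1255000 15000 10000 25000 42500 0 25833 25833

lemma s20_20_7_4_8 {n : ℕ} (hn : 5 ≤ n) : NoNd (d20_20_7_4.R : ℤ) d20_20_7_4.H n d20_20_7_4.a d20_20_7_4.b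
    (BlkD.inB (BlkD.upd (BlkD.upd (fun _ => 0) 0 2) 0 3)
      (BlkD.upd (BlkD.upd (BlkD.upd (BlkD.upd (BlkD.upd (BlkD.upd (fun _ => 20) 0 7) 2 4) 0 3) 1 17) 1 8) 1 4)) :=
  BlkD.tree_sound (BlkD.pairOk_sound k20_20_7_4) (by decide) hn t20_20_7_4_8 _ _ (by decide +kernel)

/-- certificates of the pair `(7, 4)`, part 9 -/
def t20_20_7_4_9 : BlkD.Tr :=
  .S 1 6 (.S 1 5 (.L 6 8 [4, 4, 4, 4, 20] [99, 92, 82, 72, 62, 50] [] 100000 26389 26389 1300000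
    25000 0 50000 37500 0 20833 20833) (.S 2 2 (.L 6 8 [4, 4, 4, 4, 20] [116, 115, 108, 98, 88, 78]
    [] 100000 44167 44167 1255000 40000 12500 60000 46250 0 12500 9375) (.L 6 8 [4, 4, 4, 4, 20]
    [116, 115, 108, 98, 88, 78] [] 100000 29629 29628 1300002 33333 0 66667 33333 0 33333 22222)))
    (.S 1 7 (.S 2 2 (.S 2 1 (.L 6 8 [4, 4, 4, 4, 20] [135, 134, 133, 126, 116, 106] [] 100000 56411
    56410 1184614 38462 53846 69231 65385 0 0 17308) (.L 6 8 [4, 4, 4, 4, 20] [135, 134, 133, 126,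
    116, 106] [] 100000 28205 28204 1298292 40171 0 60684 41026 0 16667 19231)) (.L 6 8 [4, 4, 4,
    4, 20] [135, 134, 133, 126, 116, 106] [] 100000 20370 20369 1333338 33333 0 66667 33333 5556
    33333 27778)) (.L 5 6 [4, 4, 4, 5, 20] [156, 155, 154, 153, 146, 136] [] 100000 41111 41110
    1260000 40000 0 80000 60000 0 13333 21667))

lemma s20_20_7_4_9 {n : ℕ} (hn : 5 ≤ n) : NoNd (d20_20_7_4.R : ℤ) d20_20_7_4.H n d20_20_7_4.a d20_20_7_4.b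
    (BlkD.inB (BlkD.upd (BlkD.upd (BlkD.upd (fun _ => 0) 0 2) 0 3) 1 5)
      (BlkD.upd (BlkD.upd (BlkD.upd (BlkD.upd (BlkD.upd (fun _ => 20) 0 7) 2 4) 0 3) 1 17) 1 8)) :=
  BlkD.tree_sound (BlkD.pairOk_sound k20_20_7_4) (by decide) hn t20_20_7_4_9 _ _ (by decide +kernel)

/-- certificates of the pair `(7, 4)`, part 10 -/
def t20_20_7_4_10 : BlkD.Tr :=
  .S 1 13 (.S 1 11 (.S 1 10 (.S 1 9 (.L 5 6 [4, 4, 4, 5, 20] [179, 178, 177, 176, 175, 168] []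
    100000 77778 77778 1083334 72222 0 100000 50000 0 0 16667) (.L 5 6 [4, 4, 4, 5, 20] [204, 203,
    202, 201, 200, 199] [] 100000 200000 0 100000 150000 0 300000 50000 0 0 0)) (.E 0)) (.E 0)) (.E
    0)

lemma s20_20_7_4_10 {n : ℕ} (hn : 5 ≤ n) : NoNd (d20_20_7_4.R : ℤ) d20_20_7_4.H n d20_20_7_4.a d20_20_7_4.b
    (BlkD.inB (BlkD.upd (BlkD.upd (BlkD.upd (fun _ => 0) 0 2) 0 3) 1 9)
      (BlkD.upd (BlkD.upd (BlkD.upd (BlkD.upd (fun _ => 20) 0 7) 2 4) 0 3) 1 17)) :=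
  BlkD.tree_sound (BlkD.pairOk_sound k20_20_7_4) (by decide) hn t20_20_7_4_10 _ _ (by decide +kernel)

/-- certificates of the pair `(7, 4)`, part 11 -/
def t20_20_7_4_11 : BlkD.Tr :=
  .E 0

lemma s20_20_7_4_11 {n : ℕ} (hn : 5 ≤ n) : NoNd (d20_20_7_4.R : ℤ) d20_20_7_4.H n d20_20_7_4.a d20_20_7_4.b
    (BlkD.inB (BlkD.upd (BlkD.upd (BlkD.upd (fun _ => 0) 0 2) 0 3) 1 18)
      (BlkD.upd (BlkD.upd (BlkD.upd (fun _ => 20) 0 7) 2 4) 0 3)) :=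
  BlkD.tree_sound (BlkD.pairOk_sound k20_20_7_4) (by decide) hn t20_20_7_4_11 _ _ (by decide +kernel)

/-- certificates of the pair `(7, 4)`, part 12 -/
def t20_20_7_4_12 : BlkD.Tr :=
  .S 1 2 (.L 5 6 [4, 4, 4, 5, 20] [] [] 100000 30770 30770 1169230 15385 15385 15385 50000 0 7692
    7692) (.S 1 3 (.L 5 6 [4, 4, 4, 5, 20] [62, 52, 42, 30, 0, 0] [] 100000 25000 25000 1250000
    25000 0 25000 37500 0 25000 25000) (.L 6 8 [4, 4, 4, 4, 20] [86, 76, 66, 56, 44, 0] [] 100000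
    27098 27097 1312232 28537 2158 52758 35731 0 18705 22782))

lemma s20_20_7_4_12 {n : ℕ} (hn : 5 ≤ n) : NoNd (d20_20_7_4.R : ℤ) d20_20_7_4.H n d20_20_7_4.a d20_20_7_4.b
    (BlkD.inB (BlkD.upd (fun _ => 0) 0 4)
      (BlkD.upd (BlkD.upd (BlkD.upd (BlkD.upd (BlkD.upd (BlkD.upd (BlkD.upd (fun _ => 20) 0 7) 2 4) 0 5) 0 4) 1 16) 1 8) 1 4)) :=
  BlkD.tree_sound (BlkD.pairOk_sound k20_20_7_4) (by decide) hn t20_20_7_4_12 _ _ (by decide +kernel)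

/-- certificates of the pair `(7, 4)`, part 13 -/
def t20_20_7_4_13 : BlkD.Tr :=
  .S 1 5 (.S 2 2 (.S 2 1 (.L 6 8 [4, 4, 4, 4, 20] [109, 102, 92, 82, 72, 60] [] 100000 47222 47221
    1225000 25000 50000 75000 75000 0 0 16667) (.S 3 9 (.S 3 4 (.S 3 2 (.L 6 8 [4, 4, 4, 4, 20]
    [109, 102, 92, 82, 72, 60] [] 100000 27778 27778 1288890 25926 11111 72222 24074 1852 12963
    13889) (.S 3 3 (.L 6 8 [4, 4, 4, 4, 20] [109, 102, 92, 82, 72, 60] [48, 40, 30, 18, 0, 0]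
    100000 24445 24444 1319999 26667 0 75556 57778 4444 17778 17778) (.S 4 5 (.S 4 2 (.L 6 8 [4, 4,
    4, 4, 20] [82, 72, 60, 0, 0, 0] [66, 58, 50, 40, 28, 0] 100000 22116 22116 1329326 34135 0
    89904 34135 4327 40865 25000) (.L 6 8 [4, 4, 4, 4, 20] [109, 102, 92, 82, 72, 60] [66, 58, 50,
    40, 28, 0] 100000 44716 1 1031709 17073 17073 144715 18699 0 3252 7317)) (.E 2)))) (.L 6 8 [4,
    4, 4, 4, 20] [109, 102, 92, 82, 72, 60] [] 100000 200000 0 100000 120000 0 120000 300000 0 0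
    0)) (.E 1))) (.L 6 8 [4, 4, 4, 4, 20] [109, 102, 92, 82, 72, 60] [] 100000 22312 22312 1327091
    24303 0 95618 52590 3984 25100 25100)) (.S 2 2 (.S 2 1 (.L 6 8 [4, 4, 4, 4, 20] [128, 127, 120,
    110, 100, 90] [] 100000 46529 46529 1224999 29167 50000 79167 68750 0 0 22917) (.S 3 8 (.S 3 4
    (.S 3 2 (.L 6 8 [4, 4, 4, 4, 20] [128, 127, 120, 110, 100, 90] [] 100000 27331 27331 1300257
    31801 4342 75223 45211 3193 11622 17497) (.S 3 3 (.L 5 6 [4, 4, 4, 5, 20] [128, 127, 120, 110,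
    100, 90] [48, 40, 30, 18, 0, 0] 100000 24074 24073 1319444 27778 0 69444 55556 0 27778 33333)
    (.L 6 8 [4, 4, 4, 4, 20] [128, 127, 120, 110, 100, 90] [66, 58, 50, 40, 28, 0] 100000 33333
    33333 1266669 33333 0 100000 33333 0 33333 16667))) (.L 6 8 [4, 4, 4, 4, 20] [128, 127, 120,
    110, 100, 90] [] 100000 216667 0 0 125000 0 125000 316667 0 0 0)) (.E 1))) (.L 6 8 [4, 4, 4, 4,
    20] [128, 127, 120, 110, 100, 90] [] 100000 25926 25926 1311112 33333 0 77778 44444 0 22222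
    22222))

lemma s20_20_7_4_13 {n : ℕ} (hn : 5 ≤ n) : NoNd (d20_20_7_4.R : ℤ) d20_20_7_4.H n d20_20_7_4.a d20_20_7_4.b
    (BlkD.inB (BlkD.upd (BlkD.upd (fun _ => 0) 0 4) 1 5)
      (BlkD.upd (BlkD.upd (BlkD.upd (BlkD.upd (BlkD.upd (BlkD.upd (BlkD.upd (fun _ => 20) 0 7) 2 4) 0 5) 0 4) 1 16) 1 8) 1 6)) :=
  BlkD.tree_sound (BlkD.pairOk_sound k20_20_7_4) (by decide) hn t20_20_7_4_13 _ _ (by decide +kernel)

/-- certificates of the pair `(7, 4)`, part 14 -/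
def t20_20_7_4_14 : BlkD.Tr :=
  .S 1 7 (.S 2 2 (.L 6 8 [4, 4, 4, 4, 20] [149, 148, 147, 140, 130, 120] [] 100000 29198 29197
    1311394 32658 12658 72658 52658 0 12405 16835) (.L 6 8 [4, 4, 4, 4, 20] [149, 148, 147, 140,
    130, 120] [] 100000 25787 25787 1301888 39623 0 79245 30189 3774 15094 15094)) (.L 6 8 [4, 4,
    4, 4, 20] [172, 171, 170, 169, 162, 152] [] 100000 48149 48149 1177776 55556 0 100000 55556 0 0
    11111)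

lemma s20_20_7_4_14 {n : ℕ} (hn : 5 ≤ n) : NoNd (d20_20_7_4.R : ℤ) d20_20_7_4.H n d20_20_7_4.a d20_20_7_4.b
    (BlkD.inB (BlkD.upd (BlkD.upd (BlkD.upd (fun _ => 0) 0 4) 1 5) 1 7)
      (BlkD.upd (BlkD.upd (BlkD.upd (BlkD.upd (BlkD.upd (BlkD.upd (fun _ => 20) 0 7) 2 4) 0 5) 0 4) 1 16) 1 8)) :=
  BlkD.tree_sound (BlkD.pairOk_sound k20_20_7_4) (by decide) hn t20_20_7_4_14 _ _ (by decide +kernel)

/-- certificates of the pair `(7, 4)`, part 15 -/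
def t20_20_7_4_15 : BlkD.Tr :=
  .E 0

lemma s20_20_7_4_15 {n : ℕ} (hn : 5 ≤ n) : NoNd (d20_20_7_4.R : ℤ) d20_20_7_4.H n d20_20_7_4.a d20_20_7_4.b
    (BlkD.inB (BlkD.upd (BlkD.upd (fun _ => 0) 0 4) 1 9)
      (BlkD.upd (BlkD.upd (BlkD.upd (BlkD.upd (BlkD.upd (fun _ => 20) 0 7) 2 4) 0 5) 0 4) 1 16)) :=
  BlkD.tree_sound (BlkD.pairOk_sound k20_20_7_4) (by decide) hn t20_20_7_4_15 _ _ (by decide +kernel)

/-- certificates of the pair `(7, 4)`, part 16 -/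
def t20_20_7_4_16 : BlkD.Tr :=
  .E 0

lemma s20_20_7_4_16 {n : ℕ} (hn : 5 ≤ n) : NoNd (d20_20_7_4.R : ℤ) d20_20_7_4.H n d20_20_7_4.a d20_20_7_4.b
    (BlkD.inB (BlkD.upd (BlkD.upd (fun _ => 0) 0 4) 1 17)
      (BlkD.upd (BlkD.upd (BlkD.upd (BlkD.upd (fun _ => 20) 0 7) 2 4) 0 5) 0 4)) :=
  BlkD.tree_sound (BlkD.pairOk_sound k20_20_7_4) (by decide) hn t20_20_7_4_16 _ _ (by decide +kernel)

/-- certificates of the pair `(7, 4)`, part 17 -/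
def t20_20_7_4_17 : BlkD.Tr :=
  .S 1 15 (.S 1 7 (.S 1 3 (.S 1 1 (.L 6 8 [4, 4, 4, 4, 20] [] [] 100000 33333 33332 1200000 0 0 0
    50000 0 0 0) (.S 1 2 (.L 6 8 [4, 4, 4, 4, 20] [44, 34, 22, 0, 0, 0] [] 100000 23889 23889
    1270000 30000 10000 30000 35000 0 28333 28333) (.S 2 2 (.S 2 1 (.L 6 8 [4, 4, 4, 4, 20] [68,
    58, 48, 36, 0, 0] [] 100000 30303 30302 1254546 18182 45455 40909 72727 0 9091 9091) (.S 3 10
    (.S 3 5 (.S 3 2 (.L 6 8 [4, 4, 4, 4, 20] [68, 58, 48, 36, 0, 0] [] 100000 33333 33332 1200000 0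
    0 0 0 0 0 0) (.L 6 8 [4, 4, 4, 4, 20] [68, 58, 48, 36, 0, 0] [] 100000 25000 25000 1314287
    28571 14286 53571 35714 0 39286 25000)) (.E 1)) (.E 1))) (.L 6 8 [4, 4, 4, 4, 20] [68, 58, 48,
    36, 0, 0] [] 100000 22222 22221 1300001 33333 0 33333 33333 0 33333 33333)))) (.S 1 5 (.S 1 4
    (.S 2 2 (.S 2 1 (.L 6 8 [4, 4, 4, 4, 20] [94, 84, 74, 64, 52, 0] [] 100000 30770 30770 1261538
    15385 61538 69231 61538 0 7692 23077) (.S 3 9 (.S 3 4 (.S 3 2 (.L 6 8 [4, 4, 4, 4, 20] [94, 84,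
    74, 64, 52, 0] [] 100000 25275 25275 1313738 31319 17582 44780 31319 5220 13736 17170) (.L 5 6
    [4, 4, 4, 5, 20] [94, 84, 74, 64, 52, 0] [] 100000 19872 19872 1336539 28846 0 76923 48077 3846
    32692 32692)) (.L 5 6 [4, 4, 4, 5, 20] [94, 84, 74, 64, 52, 0] [] 100000 200000 0 0 125000 0
    225000 300000 0 0 0)) (.E 1))) (.L 5 6 [4, 4, 4, 5, 20] [94, 84, 74, 64, 52, 0] [] 100000 18699
    18698 1334147 31707 0 60976 31707 4878 34146 34146)) (.S 2 2 (.S 2 1 (.L 5 6 [4, 4, 4, 5, 20]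
    [119, 112, 102, 92, 82, 70] [] 100000 38419 38419 1242373 18644 66102 69492 67797 3390 3390
    20339) (.L 6 8 [4, 4, 4, 4, 20] [119, 112, 102, 92, 82, 70] [] 100000 18803 18803 1338464 30769
    0 79487 51282 12821 17949 23077)) (.L 6 8 [4, 4, 4, 4, 20] [119, 112, 102, 92, 82, 70] []
    100000 12500 12500 1350000 25000 0 87500 37500 18750 37500 25000))) (.S 1 6 (.L 6 8 [4, 4, 4,
    4, 20] [140, 139, 132, 122, 112, 102] [] 100000 20260 20260 1306120 35744 0 86648 42420 12517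
    14186 18915) (.L 6 8 [4, 4, 4, 4, 20] [163, 162, 161, 154, 144, 134] [] 100000 23685 23685
    1231579 34211 0 100000 34211 15789 13158 15789)))) (.E 0)) (.E 0)

lemma s20_20_7_4_17 {n : ℕ} (hn : 5 ≤ n) : NoNd (d20_20_7_4.R : ℤ) d20_20_7_4.H n d20_20_7_4.a d20_20_7_4.b
    (BlkD.inB (BlkD.upd (BlkD.upd (fun _ => 0) 0 4) 0 5)
      (BlkD.upd (BlkD.upd (BlkD.upd (fun _ => 20) 0 7) 2 4) 0 5)) :=
  BlkD.tree_sound (BlkD.pairOk_sound k20_20_7_4) (by decide) hn t20_20_7_4_17 _ _ (by decide +kernel)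

/-- certificates of the pair `(7, 4)`, part 18 -/
def t20_20_7_4_18 : BlkD.Tr :=
  .S 0 6 (.S 1 14 (.S 1 7 (.S 1 3 (.S 1 1 (.L 6 8 [4, 4, 4, 4, 20] [] [] 100000 23333 23332 1280000
    20000 20000 20000 40000 0 30000 30000) (.S 1 2 (.L 6 8 [4, 4, 4, 4, 20] [48, 38, 26, 0, 0, 0]
    [] 100000 21321 21321 1316220 39189 5405 95495 45946 4505 27027 27027) (.L 5 6 [4, 4, 4, 5, 20]
    [74, 64, 54, 42, 0, 0] [] 100000 17557 17556 1338550 23282 4962 89695 56870 10305 26718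
    26718))) (.L 5 6 [4, 4, 4, 5, 20] [] [] 100000 6088 6087 1372500 5417 8333 71250 48681 28750
    24236 33333)) (.E 0)) (.E 0)) (.L 5 6 [4, 4, 4, 5, 20] [] [] 100000 0 0 1325426 0 10169 64407
    54237 35593 28814 35593)

lemma s20_20_7_4_18 {n : ℕ} (hn : 5 ≤ n) : NoNd (d20_20_7_4.R : ℤ) d20_20_7_4.H n d20_20_7_4.a d20_20_7_4.b
    (BlkD.inB (BlkD.upd (BlkD.upd (fun _ => 0) 0 4) 0 6)
      (BlkD.upd (BlkD.upd (fun _ => 20) 0 7) 2 4)) :=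
  BlkD.tree_sound (BlkD.pairOk_sound k20_20_7_4) (by decide) hn t20_20_7_4_18 _ _ (by decide +kernel)

/-- certificates of the pair `(7, 4)`, part 19 -/
def t20_20_7_4_19 : BlkD.Tr :=
  .E 1

lemma s20_20_7_4_19 {n : ℕ} (hn : 5 ≤ n) : NoNd (d20_20_7_4.R : ℤ) d20_20_7_4.H n d20_20_7_4.a d20_20_7_4.b
    (BlkD.inB (BlkD.upd (fun _ => 0) 2 5)
      (BlkD.upd (fun _ => 20) 0 7)) :=
  BlkD.tree_sound (BlkD.pairOk_sound k20_20_7_4) (by decide) hn t20_20_7_4_19 _ _ (by decide +kernel)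

/-- certificates of the pair `(7, 4)`, part 20 -/
def t20_20_7_4_20 : BlkD.Tr :=
  .E 0

lemma s20_20_7_4_20 {n : ℕ} (hn : 5 ≤ n) : NoNd (d20_20_7_4.R : ℤ) d20_20_7_4.H n d20_20_7_4.a d20_20_7_4.b
    (BlkD.inB (BlkD.upd (fun _ => 0) 0 8)
      (fun _ => 20)) :=
  BlkD.tree_sound (BlkD.pairOk_sound k20_20_7_4) (by decide) hn t20_20_7_4_20 _ _ (by decide +kernel)

lemma pr20_20_7_4 {n : ℕ} (hn : 5 ≤ n) : NoPr ((20 : ℕ) : ℤ) ((20 : ℕ) : ℤ) n 7 4 :=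
  BlkD.of_root (R := d20_20_7_4.R) (H := d20_20_7_4.H) (a := d20_20_7_4.a) (b := d20_20_7_4.b) (q := 3) (by decide) hn
    (BlkD.sp 0 7 (BlkD.sp 2 4 (BlkD.sp 0 3 (BlkD.sp 0 1 (BlkD.sp 0 0 (s20_20_7_4_1 hn) (BlkD.sp 1
      10 (BlkD.sp 1 5 (s20_20_7_4_2 hn) (s20_20_7_4_3 hn)) (s20_20_7_4_4 hn))) (BlkD.sp 0 2
      (BlkD.sp 1 10 (BlkD.sp 1 5 (s20_20_7_4_5 hn) (s20_20_7_4_6 hn)) (s20_20_7_4_7 hn)) (BlkD.sp 1
      17 (BlkD.sp 1 8 (BlkD.sp 1 4 (s20_20_7_4_8 hn) (s20_20_7_4_9 hn)) (s20_20_7_4_10 hn))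
      (s20_20_7_4_11 hn)))) (BlkD.sp 0 5 (BlkD.sp 0 4 (BlkD.sp 1 16 (BlkD.sp 1 8 (BlkD.sp 1 4
      (s20_20_7_4_12 hn) (BlkD.sp 1 6 (s20_20_7_4_13 hn) (s20_20_7_4_14 hn))) (s20_20_7_4_15 hn))
      (s20_20_7_4_16 hn)) (s20_20_7_4_17 hn)) (s20_20_7_4_18 hn))) (s20_20_7_4_19 hn))
      (s20_20_7_4_20 hn))

end BlkC

end Pool.Agent.Lib.MP_f04ccf_co
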