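import Pool.Agent.Lib.MP_f04ccf_co.M.BlkT

/-!
MP_f04ccf_co, block certificate, data `R = 20`, `H = 20`, part 8 (generated, helper99:
bd10.cpp, gen2.py).
-/

set_option autoImplicit false
set_option maxRecDepth 100000

namespace Pool.Agent.Lib.MP_f04ccf_co

namespace BlkC

/-- the numbers of the pair `(7, 5)`, `R = 20`, `H = 20` -/
def d20_20_7_5 : BlkD.Pd :=
  ⟨20, 20, 3, 7, 5, 5, 2, 3, 2, 2, 8, 0, 2, 2, 8, 0, [0, 8, 14, 16, 18, 20], [0, 8, 14, 16, 18,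
    20], [⟨1, 1, 1, 4, 8, [0, 4], [0, 4]⟩, ⟨1, 1, 1, 4, 12, [0, 6], [0, 6]⟩, ⟨1, 1, 1, 4, 16, [0,
    8], [0, 8]⟩]⟩

lemma k20_20_7_5 : BlkD.pairOk d20_20_7_5 = true := by decide +kernel

/-- certificates of the pair `(7, 5)`, part 1 -/
def t20_20_7_5_1 : BlkD.Tr :=
  .L 6 6 [4, 4, 4, 20, 20, 20] [] [] 100000 50000 50000 1066668 100000 0 100000 33333 0 0 0

lemma s20_20_7_5_1 {n : ℕ} (hn : 5 ≤ n) : NoNd (d20_20_7_5.R : ℤ) d20_20_7_5.H n d20_20_7_5.a d20_20_7_5.b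
    (BlkD.inB (fun _ => 0)
      (BlkD.upd (BlkD.upd (BlkD.upd (BlkD.upd (BlkD.upd (fun _ => 20) 0 7) 2 5) 0 3) 0 1) 0 0)) :=
  BlkD.tree_sound (BlkD.pairOk_sound k20_20_7_5) (by decide) hn t20_20_7_5_1 _ _ (by decide +kernel)

/-- certificates of the pair `(7, 5)`, part 2 -/
def t20_20_7_5_2 : BlkD.Tr :=
  .L 6 6 [4, 4, 4, 20, 20, 20] [] [] 100000 50000 50000 1066668 100000 0 100000 33333 0 0 0

lemma s20_20_7_5_2 {n : ℕ} (hn : 5 ≤ n) : NoNd (d20_20_7_5.R : ℤ) d20_20_7_5.H n d20_20_7_5.a d20_20_7_5.b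
    (BlkD.inB (BlkD.upd (fun _ => 0) 0 1)
      (BlkD.upd (BlkD.upd (BlkD.upd (BlkD.upd (BlkD.upd (BlkD.upd (fun _ => 20) 0 7) 2 5) 0 3) 0 1) 1 10) 1 5)) :=
  BlkD.tree_sound (BlkD.pairOk_sound k20_20_7_5) (by decide) hn t20_20_7_5_2 _ _ (by decide +kernel)

/-- certificates of the pair `(7, 5)`, part 3 -/
def t20_20_7_5_3 : BlkD.Tr :=
  .L 6 6 [4, 4, 4, 20, 20, 20] [] [] 100000 50000 50000 1066668 100000 0 100000 33333 0 0 0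

lemma s20_20_7_5_3 {n : ℕ} (hn : 5 ≤ n) : NoNd (d20_20_7_5.R : ℤ) d20_20_7_5.H n d20_20_7_5.a d20_20_7_5.b
    (BlkD.inB (BlkD.upd (BlkD.upd (fun _ => 0) 0 1) 1 6)
      (BlkD.upd (BlkD.upd (BlkD.upd (BlkD.upd (BlkD.upd (fun _ => 20) 0 7) 2 5) 0 3) 0 1) 1 10)) :=
  BlkD.tree_sound (BlkD.pairOk_sound k20_20_7_5) (by decide) hn t20_20_7_5_3 _ _ (by decide +kernel)

/-- certificates of the pair `(7, 5)`, part 4 -/
def t20_20_7_5_4 : BlkD.Tr :=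
  .L 6 6 [4, 4, 4, 20, 20, 20] [] [] 100000 50000 50000 1066668 100000 0 100000 33333 0 0 0

lemma s20_20_7_5_4 {n : ℕ} (hn : 5 ≤ n) : NoNd (d20_20_7_5.R : ℤ) d20_20_7_5.H n d20_20_7_5.a d20_20_7_5.b
    (BlkD.inB (BlkD.upd (BlkD.upd (fun _ => 0) 0 1) 1 11)
      (BlkD.upd (BlkD.upd (BlkD.upd (BlkD.upd (fun _ => 20) 0 7) 2 5) 0 3) 0 1)) :=
  BlkD.tree_sound (BlkD.pairOk_sound k20_20_7_5) (by decide) hn t20_20_7_5_4 _ _ (by decide +kernel)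

/-- certificates of the pair `(7, 5)`, part 5 -/
def t20_20_7_5_5 : BlkD.Tr :=
  .L 6 6 [4, 4, 4, 20, 20, 20] [] [] 100000 94737 94737 1257896 73684 0 94737 68421 0 5263 0

lemma s20_20_7_5_5 {n : ℕ} (hn : 5 ≤ n) : NoNd (d20_20_7_5.R : ℤ) d20_20_7_5.H n d20_20_7_5.a d20_20_7_5.b
    (BlkD.inB (BlkD.upd (fun _ => 0) 0 2)
      (BlkD.upd (BlkD.upd (BlkD.upd (BlkD.upd (BlkD.upd (BlkD.upd (fun _ => 20) 0 7) 2 5) 0 3) 0 2) 1 10) 1 5)) :=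
  BlkD.tree_sound (BlkD.pairOk_sound k20_20_7_5) (by decide) hn t20_20_7_5_5 _ _ (by decide +kernel)

/-- certificates of the pair `(7, 5)`, part 6 -/
def t20_20_7_5_6 : BlkD.Tr :=
  .S 1 7 (.L 6 6 [4, 4, 4, 20, 20, 20] [] [] 100000 94737 94737 1257896 73684 0 94737 68421 0 5263
    0) (.L 6 6 [4, 4, 4, 20, 20, 20] [144, 142, 140, 138, 132, 124] [] 100000 94737 94737 1257896
    73684 0 94737 68421 0 5263 0)

lemma s20_20_7_5_6 {n : ℕ} (hn : 5 ≤ n) : NoNd (d20_20_7_5.R : ℤ) d20_20_7_5.H n d20_20_7_5.a d20_20_7_5.b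
    (BlkD.inB (BlkD.upd (BlkD.upd (fun _ => 0) 0 2) 1 6)
      (BlkD.upd (BlkD.upd (BlkD.upd (BlkD.upd (BlkD.upd (BlkD.upd (fun _ => 20) 0 7) 2 5) 0 3) 0 2) 1 10) 1 8)) :=
  BlkD.tree_sound (BlkD.pairOk_sound k20_20_7_5) (by decide) hn t20_20_7_5_6 _ _ (by decide +kernel)

/-- certificates of the pair `(7, 5)`, part 7 -/
def t20_20_7_5_7 : BlkD.Tr :=
  .L 6 6 [4, 4, 4, 20, 20, 20] [] [] 100000 94737 94737 1257896 73684 0 94737 68421 0 5263 0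

lemma s20_20_7_5_7 {n : ℕ} (hn : 5 ≤ n) : NoNd (d20_20_7_5.R : ℤ) d20_20_7_5.H n d20_20_7_5.a d20_20_7_5.b
    (BlkD.inB (BlkD.upd (BlkD.upd (BlkD.upd (fun _ => 0) 0 2) 1 6) 1 9)
      (BlkD.upd (BlkD.upd (BlkD.upd (BlkD.upd (BlkD.upd (fun _ => 20) 0 7) 2 5) 0 3) 0 2) 1 10)) :=
  BlkD.tree_sound (BlkD.pairOk_sound k20_20_7_5) (by decide) hn t20_20_7_5_7 _ _ (by decide +kernel)

/-- certificates of the pair `(7, 5)`, part 8 -/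
def t20_20_7_5_8 : BlkD.Tr :=
  .L 6 6 [4, 4, 4, 20, 20, 20] [] [] 100000 94737 94737 1257896 73684 0 94737 68421 0 5263 0

lemma s20_20_7_5_8 {n : ℕ} (hn : 5 ≤ n) : NoNd (d20_20_7_5.R : ℤ) d20_20_7_5.H n d20_20_7_5.a d20_20_7_5.b
    (BlkD.inB (BlkD.upd (BlkD.upd (fun _ => 0) 0 2) 1 11)
      (BlkD.upd (BlkD.upd (BlkD.upd (BlkD.upd (fun _ => 20) 0 7) 2 5) 0 3) 0 2)) :=
  BlkD.tree_sound (BlkD.pairOk_sound k20_20_7_5) (by decide) hn t20_20_7_5_8 _ _ (by decide +kernel)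

/-- certificates of the pair `(7, 5)`, part 9 -/
def t20_20_7_5_9 : BlkD.Tr :=
  .L 6 6 [4, 4, 4, 20, 20, 20] [] [] 100000 13334 13334 1400002 33333 0 66667 66667 0 6667 3333

lemma s20_20_7_5_9 {n : ℕ} (hn : 5 ≤ n) : NoNd (d20_20_7_5.R : ℤ) d20_20_7_5.H n d20_20_7_5.a d20_20_7_5.b
    (BlkD.inB (BlkD.upd (BlkD.upd (fun _ => 0) 0 2) 0 3)
      (BlkD.upd (BlkD.upd (BlkD.upd (BlkD.upd (BlkD.upd (BlkD.upd (fun _ => 20) 0 7) 2 5) 0 3) 1 17) 1 8) 1 4)) :=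
  BlkD.tree_sound (BlkD.pairOk_sound k20_20_7_5) (by decide) hn t20_20_7_5_9 _ _ (by decide +kernel)

/-- certificates of the pair `(7, 5)`, part 10 -/
def t20_20_7_5_10 : BlkD.Tr :=
  .S 1 5 (.L 6 6 [4, 4, 4, 20, 20, 20] [100, 94, 86, 76, 64, 50] [] 100000 5000 5000 1475000 25000
    0 50000 50000 0 15000 7500) (.S 2 2 (.L 6 6 [4, 4, 4, 20, 20, 20] [118, 116, 110, 102, 92, 80]
    [] 100000 75000 75000 1250000 50000 50000 100000 100000 0 0 0) (.S 2 4 (.L 6 6 [4, 4, 4, 20,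
    20, 20] [118, 116, 110, 102, 92, 80] [] 100000 5556 5556 1475556 31111 0 62222 37778 0 20000
    13333) (.L 6 6 [4, 4, 4, 20, 20, 20] [118, 116, 110, 102, 92, 80] [] 100000 0 0 1428574 28571 0
    57143 0 0 28571 14286)))

lemma s20_20_7_5_10 {n : ℕ} (hn : 5 ≤ n) : NoNd (d20_20_7_5.R : ℤ) d20_20_7_5.H n d20_20_7_5.a d20_20_7_5.b
    (BlkD.inB (BlkD.upd (BlkD.upd (BlkD.upd (fun _ => 0) 0 2) 0 3) 1 5)
      (BlkD.upd (BlkD.upd (BlkD.upd (BlkD.upd (BlkD.upd (BlkD.upd (fun _ => 20) 0 7) 2 5) 0 3) 1 17) 1 8) 1 6)) :=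
  BlkD.tree_sound (BlkD.pairOk_sound k20_20_7_5) (by decide) hn t20_20_7_5_10 _ _ (by decide +kernel)

/-- certificates of the pair `(7, 5)`, part 11 -/
def t20_20_7_5_11 : BlkD.Tr :=
  .S 1 7 (.S 2 2 (.L 6 6 [4, 4, 4, 20, 20, 20] [138, 136, 134, 128, 120, 110] [] 100000 83334 83334
    1233334 66667 33333 100000 66667 0 0 0) (.S 2 4 (.L 6 6 [4, 4, 4, 20, 20, 20] [138, 136, 134,
    128, 120, 110] [] 100000 9000 9000 1472000 38000 0 76000 38000 0 20000 10000) (.L 6 6 [4, 4, 4,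
    20, 20, 20] [138, 136, 134, 128, 120, 110] [] 100000 0 0 1428574 28571 0 64286 57143 0 28571
    14286))) (.L 6 6 [4, 4, 4, 20, 20, 20] [160, 158, 156, 154, 148, 140] [] 100000 10000 10000
    1472000 36000 0 84000 48000 0 16000 8000)

lemma s20_20_7_5_11 {n : ℕ} (hn : 5 ≤ n) : NoNd (d20_20_7_5.R : ℤ) d20_20_7_5.H n d20_20_7_5.a d20_20_7_5.b
    (BlkD.inB (BlkD.upd (BlkD.upd (BlkD.upd (BlkD.upd (fun _ => 0) 0 2) 0 3) 1 5) 1 7)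
      (BlkD.upd (BlkD.upd (BlkD.upd (BlkD.upd (BlkD.upd (fun _ => 20) 0 7) 2 5) 0 3) 1 17) 1 8)) :=
  BlkD.tree_sound (BlkD.pairOk_sound k20_20_7_5) (by decide) hn t20_20_7_5_11 _ _ (by decide +kernel)

/-- certificates of the pair `(7, 5)`, part 12 -/
def t20_20_7_5_12 : BlkD.Tr :=
  .S 1 13 (.S 1 11 (.S 1 10 (.S 1 9 (.L 6 6 [4, 4, 4, 20, 20, 20] [184, 182, 180, 178, 176, 170] []
    100000 62500 37500 1200000 75000 0 125000 25000 0 0 0) (.L 6 6 [4, 4, 4, 20, 20, 20] [210, 208,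
    206, 204, 202, 200] [] 100000 100000 0 900000 100000 0 200000 0 0 0 0)) (.E 0)) (.E 0)) (.E 0)

lemma s20_20_7_5_12 {n : ℕ} (hn : 5 ≤ n) : NoNd (d20_20_7_5.R : ℤ) d20_20_7_5.H n d20_20_7_5.a d20_20_7_5.b
    (BlkD.inB (BlkD.upd (BlkD.upd (BlkD.upd (fun _ => 0) 0 2) 0 3) 1 9)
      (BlkD.upd (BlkD.upd (BlkD.upd (BlkD.upd (fun _ => 20) 0 7) 2 5) 0 3) 1 17)) :=
  BlkD.tree_sound (BlkD.pairOk_sound k20_20_7_5) (by decide) hn t20_20_7_5_12 _ _ (by decide +kernel)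

/-- certificates of the pair `(7, 5)`, part 13 -/
def t20_20_7_5_13 : BlkD.Tr :=
  .E 0

lemma s20_20_7_5_13 {n : ℕ} (hn : 5 ≤ n) : NoNd (d20_20_7_5.R : ℤ) d20_20_7_5.H n d20_20_7_5.a d20_20_7_5.b
    (BlkD.inB (BlkD.upd (BlkD.upd (BlkD.upd (fun _ => 0) 0 2) 0 3) 1 18)
      (BlkD.upd (BlkD.upd (BlkD.upd (fun _ => 20) 0 7) 2 5) 0 3)) :=
  BlkD.tree_sound (BlkD.pairOk_sound k20_20_7_5) (by decide) hn t20_20_7_5_13 _ _ (by decide +kernel)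

/-- certificates of the pair `(7, 5)`, part 14 -/
def t20_20_7_5_14 : BlkD.Tr :=
  .L 6 6 [4, 4, 4, 20, 20, 20] [] [] 100000 10000 10000 1466668 33333 0 50000 50000 0 13333 6667

lemma s20_20_7_5_14 {n : ℕ} (hn : 5 ≤ n) : NoNd (d20_20_7_5.R : ℤ) d20_20_7_5.H n d20_20_7_5.a d20_20_7_5.b
    (BlkD.inB (BlkD.upd (fun _ => 0) 0 4)
      (BlkD.upd (BlkD.upd (BlkD.upd (BlkD.upd (BlkD.upd (BlkD.upd (BlkD.upd (fun _ => 20) 0 7) 2 5) 0 5) 0 4) 1 16) 1 8) 1 4)) :=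
  BlkD.tree_sound (BlkD.pairOk_sound k20_20_7_5) (by decide) hn t20_20_7_5_14 _ _ (by decide +kernel)

/-- certificates of the pair `(7, 5)`, part 15 -/
def t20_20_7_5_15 : BlkD.Tr :=
  .S 1 6 (.S 1 5 (.S 2 2 (.L 6 6 [4, 4, 4, 20, 20, 20] [110, 104, 96, 86, 74, 60] [] 100000 34119
    34119 1394117 29412 29412 80000 64706 2353 5882 0) (.S 2 4 (.S 2 3 (.S 3 8 (.S 3 4 (.S 3 2 (.L
    6 6 [4, 4, 4, 20, 20, 20] [110, 104, 96, 86, 74, 60] [] 100000 0 0 1400000 0 0 0 0 0 0 0) (.S 3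
    3 (.L 6 6 [4, 4, 4, 20, 20, 20] [110, 104, 96, 86, 74, 60] [60, 50, 38, 24, 0, 0] 100000 6863
    6863 1450983 17647 15686 33333 23529 0 3922 1961) (.L 6 6 [4, 4, 4, 20, 20, 20] [110, 104, 96,
    86, 74, 60] [80, 72, 62, 50, 36, 0] 100000 1 1 1491802 18033 18033 73770 67213 1639 24590
    8197))) (.L 6 6 [4, 4, 4, 20, 20, 20] [110, 104, 96, 86, 74, 60] [] 100000 16667 16667 1366668
    33333 0 100000 100000 0 0 0)) (.E 1)) (.L 6 6 [4, 4, 4, 20, 20, 20] [110, 104, 96, 86, 74, 60]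
    [] 100000 0 0 1470371 25926 2469 55556 49383 1235 24691 12346)) (.L 6 6 [4, 4, 4, 20, 20, 20]
    [110, 104, 96, 86, 74, 60] [] 100000 1 1 1419231 26923 0 88462 57692 3846 23077 11538))) (.S 2
    2 (.L 6 6 [4, 4, 4, 20, 20, 20] [130, 128, 122, 114, 104, 92] [] 100000 44263 44263 1377049
    32787 32787 91803 67213 6557 1639 0) (.L 6 6 [4, 4, 4, 20, 20, 20] [130, 128, 122, 114, 104,
    92] [] 100000 8621 8621 1475864 31034 0 93103 34483 3448 10345 5172))) (.S 1 7 (.S 2 2 (.L 6 6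
    [4, 4, 4, 20, 20, 20] [152, 150, 148, 142, 134, 124] [] 100000 64286 64286 1328572 42857 42857
    71429 71429 0 0 0) (.L 6 6 [4, 4, 4, 20, 20, 20] [152, 150, 148, 142, 134, 124] [] 100000 11539
    11539 1456414 35897 0 85897 50000 0 12821 6410)) (.L 6 6 [4, 4, 4, 20, 20, 20] [176, 174, 172,
    170, 164, 156] [] 100000 25000 25000 1350000 50000 0 100000 50000 0 0 0))

lemma s20_20_7_5_15 {n : ℕ} (hn : 5 ≤ n) : NoNd (d20_20_7_5.R : ℤ) d20_20_7_5.H n d20_20_7_5.a d20_20_7_5.b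
    (BlkD.inB (BlkD.upd (BlkD.upd (fun _ => 0) 0 4) 1 5)
      (BlkD.upd (BlkD.upd (BlkD.upd (BlkD.upd (BlkD.upd (BlkD.upd (fun _ => 20) 0 7) 2 5) 0 5) 0 4) 1 16) 1 8)) :=
  BlkD.tree_sound (BlkD.pairOk_sound k20_20_7_5) (by decide) hn t20_20_7_5_15 _ _ (by decide +kernel)

/-- certificates of the pair `(7, 5)`, part 16 -/
def t20_20_7_5_16 : BlkD.Tr :=
  .L 6 6 [4, 4, 4, 20, 20, 20] [] [] 100000 260000 0 0 0 0 360000 0 0 0 0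

lemma s20_20_7_5_16 {n : ℕ} (hn : 5 ≤ n) : NoNd (d20_20_7_5.R : ℤ) d20_20_7_5.H n d20_20_7_5.a d20_20_7_5.b
    (BlkD.inB (BlkD.upd (BlkD.upd (fun _ => 0) 0 4) 1 9)
      (BlkD.upd (BlkD.upd (BlkD.upd (BlkD.upd (BlkD.upd (fun _ => 20) 0 7) 2 5) 0 5) 0 4) 1 16)) :=
  BlkD.tree_sound (BlkD.pairOk_sound k20_20_7_5) (by decide) hn t20_20_7_5_16 _ _ (by decide +kernel)

/-- certificates of the pair `(7, 5)`, part 17 -/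
def t20_20_7_5_17 : BlkD.Tr :=
  .E 0

lemma s20_20_7_5_17 {n : ℕ} (hn : 5 ≤ n) : NoNd (d20_20_7_5.R : ℤ) d20_20_7_5.H n d20_20_7_5.a d20_20_7_5.b
    (BlkD.inB (BlkD.upd (BlkD.upd (fun _ => 0) 0 4) 1 17)
      (BlkD.upd (BlkD.upd (BlkD.upd (BlkD.upd (fun _ => 20) 0 7) 2 5) 0 5) 0 4)) :=
  BlkD.tree_sound (BlkD.pairOk_sound k20_20_7_5) (by decide) hn t20_20_7_5_17 _ _ (by decide +kernel)

/-- certificates of the pair `(7, 5)`, part 18 -/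
def t20_20_7_5_18 : BlkD.Tr :=
  .S 1 15 (.S 1 7 (.S 1 3 (.L 6 6 [4, 4, 4, 20, 20, 20] [] [] 100000 10667 10667 1473333 33333 6667
    46667 40000 0 12000 6000) (.S 1 5 (.S 1 4 (.L 6 6 [4, 4, 4, 20, 20, 20] [96, 88, 78, 66, 52, 0]
    [] 100000 5295 5295 1488238 23529 5882 72353 76471 1176 11765 5882) (.S 2 2 (.L 6 6 [4, 4, 4,
    20, 20, 20] [120, 114, 106, 96, 84, 70] [] 100000 7369 7369 1451578 24737 24737 66316 41579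
    1579 8421 4211) (.L 6 6 [4, 4, 4, 20, 20, 20] [120, 114, 106, 96, 84, 70] [] 100000 8621 8621
    1475868 31034 0 62069 62069 6897 6897 3448))) (.L 6 6 [4, 4, 4, 20, 20, 20] [] [] 100000 4412
    4412 1464706 11765 5882 100000 88235 2941 0 2941))) (.E 0)) (.E 0)

lemma s20_20_7_5_18 {n : ℕ} (hn : 5 ≤ n) : NoNd (d20_20_7_5.R : ℤ) d20_20_7_5.H n d20_20_7_5.a d20_20_7_5.b
    (BlkD.inB (BlkD.upd (BlkD.upd (fun _ => 0) 0 4) 0 5)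
      (BlkD.upd (BlkD.upd (BlkD.upd (fun _ => 20) 0 7) 2 5) 0 5)) :=
  BlkD.tree_sound (BlkD.pairOk_sound k20_20_7_5) (by decide) hn t20_20_7_5_18 _ _ (by decide +kernel)

/-- certificates of the pair `(7, 5)`, part 19 -/
def t20_20_7_5_19 : BlkD.Tr :=
  .L 6 6 [4, 4, 4, 20, 20, 20] [] [] 100000 3 3 1499372 1681 19118 80882 62815 2731 16387 8193

lemma s20_20_7_5_19 {n : ℕ} (hn : 5 ≤ n) : NoNd (d20_20_7_5.R : ℤ) d20_20_7_5.H n d20_20_7_5.a d20_20_7_5.b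
    (BlkD.inB (BlkD.upd (BlkD.upd (fun _ => 0) 0 4) 0 6)
      (BlkD.upd (BlkD.upd (fun _ => 20) 0 7) 2 5)) :=
  BlkD.tree_sound (BlkD.pairOk_sound k20_20_7_5) (by decide) hn t20_20_7_5_19 _ _ (by decide +kernel)

/-- certificates of the pair `(7, 5)`, part 20 -/
def t20_20_7_5_20 : BlkD.Tr :=
  .E 1

lemma s20_20_7_5_20 {n : ℕ} (hn : 5 ≤ n) : NoNd (d20_20_7_5.R : ℤ) d20_20_7_5.H n d20_20_7_5.a d20_20_7_5.b
    (BlkD.inB (BlkD.upd (fun _ => 0) 2 6)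
      (BlkD.upd (fun _ => 20) 0 7)) :=
  BlkD.tree_sound (BlkD.pairOk_sound k20_20_7_5) (by decide) hn t20_20_7_5_20 _ _ (by decide +kernel)

/-- certificates of the pair `(7, 5)`, part 21 -/
def t20_20_7_5_21 : BlkD.Tr :=
  .E 0

lemma s20_20_7_5_21 {n : ℕ} (hn : 5 ≤ n) : NoNd (d20_20_7_5.R : ℤ) d20_20_7_5.H n d20_20_7_5.a d20_20_7_5.b
    (BlkD.inB (BlkD.upd (fun _ => 0) 0 8)
      (fun _ => 20)) :=
  BlkD.tree_sound (BlkD.pairOk_sound k20_20_7_5) (by decide) hn t20_20_7_5_21 _ _ (by decide +kernel)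

lemma pr20_20_7_5 {n : ℕ} (hn : 5 ≤ n) : NoPr ((20 : ℕ) : ℤ) ((20 : ℕ) : ℤ) n 7 5 :=
  BlkD.of_root (R := d20_20_7_5.R) (H := d20_20_7_5.H) (a := d20_20_7_5.a) (b := d20_20_7_5.b) (q := 3) (by decide) hn
    (BlkD.sp 0 7 (BlkD.sp 2 5 (BlkD.sp 0 3 (BlkD.sp 0 1 (BlkD.sp 0 0 (s20_20_7_5_1 hn) (BlkD.sp 1
      10 (BlkD.sp 1 5 (s20_20_7_5_2 hn) (s20_20_7_5_3 hn)) (s20_20_7_5_4 hn))) (BlkD.sp 0 2
      (BlkD.sp 1 10 (BlkD.sp 1 5 (s20_20_7_5_5 hn) (BlkD.sp 1 8 (s20_20_7_5_6 hn) (s20_20_7_5_7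
      hn))) (s20_20_7_5_8 hn)) (BlkD.sp 1 17 (BlkD.sp 1 8 (BlkD.sp 1 4 (s20_20_7_5_9 hn) (BlkD.sp 1
      6 (s20_20_7_5_10 hn) (s20_20_7_5_11 hn))) (s20_20_7_5_12 hn)) (s20_20_7_5_13 hn)))) (BlkD.sp
      0 5 (BlkD.sp 0 4 (BlkD.sp 1 16 (BlkD.sp 1 8 (BlkD.sp 1 4 (s20_20_7_5_14 hn) (s20_20_7_5_15
      hn)) (s20_20_7_5_16 hn)) (s20_20_7_5_17 hn)) (s20_20_7_5_18 hn)) (s20_20_7_5_19 hn)))
      (s20_20_7_5_20 hn)) (s20_20_7_5_21 hn))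

/-- the numbers of the pair `(7, 6)`, `R = 20`, `H = 20` -/
def d20_20_7_6 : BlkD.Pd :=
  ⟨20, 20, 3, 7, 6, 4, 1, 3, 2, 2, 6, 0, 2, 2, 6, 0, [0, 6, 12, 14, 16], [0, 6, 12, 14, 16], [⟨1,
    1, 1, 4, 8, [0, 4], [0, 4]⟩, ⟨1, 1, 1, 4, 12, [0, 6], [0, 6]⟩]⟩

lemma k20_20_7_6 : BlkD.pairOk d20_20_7_6 = true := by decide +kernel

/-- certificates of the pair `(7, 6)`, part 1 -/
def t20_20_7_6_1 : BlkD.Tr :=
  .L 5 5 [4, 4, 20, 20, 20, 20, 20] [] [] 100000 53848 53848 1288461 69231 19231 76923 46154 0 0 0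

lemma s20_20_7_6_1 {n : ℕ} (hn : 5 ≤ n) : NoNd (d20_20_7_6.R : ℤ) d20_20_7_6.H n d20_20_7_6.a d20_20_7_6.b
    (BlkD.inB (fun _ => 0)
      (BlkD.upd (BlkD.upd (BlkD.upd (BlkD.upd (BlkD.upd (fun _ => 20) 0 7) 2 6) 0 3) 0 1) 0 0)) :=
  BlkD.tree_sound (BlkD.pairOk_sound k20_20_7_6) (by decide) hn t20_20_7_6_1 _ _ (by decide +kernel)

/-- certificates of the pair `(7, 6)`, part 2 -/
def t20_20_7_6_2 : BlkD.Tr :=
  .L 5 5 [4, 4, 20, 20, 20, 20, 20] [] [] 100000 53848 53848 1288461 69231 19231 76923 46154 0 0 0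

lemma s20_20_7_6_2 {n : ℕ} (hn : 5 ≤ n) : NoNd (d20_20_7_6.R : ℤ) d20_20_7_6.H n d20_20_7_6.a d20_20_7_6.b
    (BlkD.inB (BlkD.upd (fun _ => 0) 0 1)
      (BlkD.upd (BlkD.upd (BlkD.upd (BlkD.upd (BlkD.upd (BlkD.upd (fun _ => 20) 0 7) 2 6) 0 3) 0 1) 1 10) 1 5)) :=
  BlkD.tree_sound (BlkD.pairOk_sound k20_20_7_6) (by decide) hn t20_20_7_6_2 _ _ (by decide +kernel)

/-- certificates of the pair `(7, 6)`, part 3 -/
def t20_20_7_6_3 : BlkD.Tr :=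
  .L 5 5 [4, 4, 20, 20, 20, 20, 20] [] [] 100000 53848 53848 1288461 69231 19231 76923 46154 0 0 0

lemma s20_20_7_6_3 {n : ℕ} (hn : 5 ≤ n) : NoNd (d20_20_7_6.R : ℤ) d20_20_7_6.H n d20_20_7_6.a d20_20_7_6.b
    (BlkD.inB (BlkD.upd (BlkD.upd (fun _ => 0) 0 1) 1 6)
      (BlkD.upd (BlkD.upd (BlkD.upd (BlkD.upd (BlkD.upd (fun _ => 20) 0 7) 2 6) 0 3) 0 1) 1 10)) :=
  BlkD.tree_sound (BlkD.pairOk_sound k20_20_7_6) (by decide) hn t20_20_7_6_3 _ _ (by decide +kernel)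

/-- certificates of the pair `(7, 6)`, part 4 -/
def t20_20_7_6_4 : BlkD.Tr :=
  .L 5 5 [4, 4, 20, 20, 20, 20, 20] [] [] 100000 53848 53848 1288461 69231 19231 76923 46154 0 0 0

lemma s20_20_7_6_4 {n : ℕ} (hn : 5 ≤ n) : NoNd (d20_20_7_6.R : ℤ) d20_20_7_6.H n d20_20_7_6.a d20_20_7_6.b
    (BlkD.inB (BlkD.upd (BlkD.upd (fun _ => 0) 0 1) 1 11)
      (BlkD.upd (BlkD.upd (BlkD.upd (BlkD.upd (fun _ => 20) 0 7) 2 6) 0 3) 0 1)) :=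
  BlkD.tree_sound (BlkD.pairOk_sound k20_20_7_6) (by decide) hn t20_20_7_6_4 _ _ (by decide +kernel)

/-- certificates of the pair `(7, 6)`, part 5 -/
def t20_20_7_6_5 : BlkD.Tr :=
  .L 5 5 [4, 4, 20, 20, 20, 20, 20] [] [] 100000 40000 40000 1500000 60000 0 100000 40000 0 0 0

lemma s20_20_7_6_5 {n : ℕ} (hn : 5 ≤ n) : NoNd (d20_20_7_6.R : ℤ) d20_20_7_6.H n d20_20_7_6.a d20_20_7_6.b
    (BlkD.inB (BlkD.upd (fun _ => 0) 0 2)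
      (BlkD.upd (BlkD.upd (BlkD.upd (BlkD.upd (BlkD.upd (BlkD.upd (fun _ => 20) 0 7) 2 6) 0 3) 0 2) 1 10) 1 5)) :=
  BlkD.tree_sound (BlkD.pairOk_sound k20_20_7_6) (by decide) hn t20_20_7_6_5 _ _ (by decide +kernel)

/-- certificates of the pair `(7, 6)`, part 6 -/
def t20_20_7_6_6 : BlkD.Tr :=
  .L 5 5 [4, 4, 20, 20, 20, 20, 20] [] [] 100000 40000 40000 1500000 60000 0 100000 40000 0 0 0

lemma s20_20_7_6_6 {n : ℕ} (hn : 5 ≤ n) : NoNd (d20_20_7_6.R : ℤ) d20_20_7_6.H n d20_20_7_6.a d20_20_7_6.b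
    (BlkD.inB (BlkD.upd (BlkD.upd (fun _ => 0) 0 2) 1 6)
      (BlkD.upd (BlkD.upd (BlkD.upd (BlkD.upd (BlkD.upd (BlkD.upd (fun _ => 20) 0 7) 2 6) 0 3) 0 2) 1 10) 1 8)) :=
  BlkD.tree_sound (BlkD.pairOk_sound k20_20_7_6) (by decide) hn t20_20_7_6_6 _ _ (by decide +kernel)

/-- certificates of the pair `(7, 6)`, part 7 -/
def t20_20_7_6_7 : BlkD.Tr :=
  .L 5 5 [4, 4, 20, 20, 20, 20, 20] [] [] 100000 40000 40000 1500000 60000 0 100000 40000 0 0 0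

lemma s20_20_7_6_7 {n : ℕ} (hn : 5 ≤ n) : NoNd (d20_20_7_6.R : ℤ) d20_20_7_6.H n d20_20_7_6.a d20_20_7_6.b
    (BlkD.inB (BlkD.upd (BlkD.upd (BlkD.upd (fun _ => 0) 0 2) 1 6) 1 9)
      (BlkD.upd (BlkD.upd (BlkD.upd (BlkD.upd (BlkD.upd (fun _ => 20) 0 7) 2 6) 0 3) 0 2) 1 10)) :=
  BlkD.tree_sound (BlkD.pairOk_sound k20_20_7_6) (by decide) hn t20_20_7_6_7 _ _ (by decide +kernel)

/-- certificates of the pair `(7, 6)`, part 8 -/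
def t20_20_7_6_8 : BlkD.Tr :=
  .L 5 5 [4, 4, 20, 20, 20, 20, 20] [] [] 100000 40000 40000 1500000 60000 0 100000 40000 0 0 0

lemma s20_20_7_6_8 {n : ℕ} (hn : 5 ≤ n) : NoNd (d20_20_7_6.R : ℤ) d20_20_7_6.H n d20_20_7_6.a d20_20_7_6.b
    (BlkD.inB (BlkD.upd (BlkD.upd (fun _ => 0) 0 2) 1 11)
      (BlkD.upd (BlkD.upd (BlkD.upd (BlkD.upd (fun _ => 20) 0 7) 2 6) 0 3) 0 2)) :=
  BlkD.tree_sound (BlkD.pairOk_sound k20_20_7_6) (by decide) hn t20_20_7_6_8 _ _ (by decide +kernel)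

/-- certificates of the pair `(7, 6)`, part 9 -/
def t20_20_7_6_9 : BlkD.Tr :=
  .L 5 5 [4, 4, 20, 20, 20, 20, 20] [] [] 100000 0 0 1542858 28571 14286 42857 50000 0 0 0

lemma s20_20_7_6_9 {n : ℕ} (hn : 5 ≤ n) : NoNd (d20_20_7_6.R : ℤ) d20_20_7_6.H n d20_20_7_6.a d20_20_7_6.b
    (BlkD.inB (BlkD.upd (BlkD.upd (fun _ => 0) 0 2) 0 3)
      (BlkD.upd (BlkD.upd (BlkD.upd (BlkD.upd (BlkD.upd (BlkD.upd (fun _ => 20) 0 7) 2 6) 0 3) 1 17) 1 8) 1 4)) :=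
  BlkD.tree_sound (BlkD.pairOk_sound k20_20_7_6) (by decide) hn t20_20_7_6_9 _ _ (by decide +kernel)

/-- certificates of the pair `(7, 6)`, part 10 -/
def t20_20_7_6_10 : BlkD.Tr :=
  .S 1 5 (.S 2 3 (.L 5 5 [4, 4, 20, 20, 20, 20, 20] [104, 98, 92, 80, 64, 50] [] 100000 16666 16666
    1455556 38889 33333 55556 55556 0 0 0) (.L 5 5 [4, 4, 20, 20, 20, 20, 20] [104, 98, 92, 80, 64,
    50] [] 100000 0 0 1540000 40000 0 80000 50000 0 0 0)) (.S 2 3 (.L 5 5 [4, 4, 20, 20, 20, 20,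
    20] [122, 120, 114, 108, 96, 80] [] 100000 25000 25000 1450000 50000 25000 75000 50000 0 0 0)
    (.L 5 5 [4, 4, 20, 20, 20, 20, 20] [122, 120, 114, 108, 96, 80] [] 100000 0 0 1580000 40000 0
    60000 40000 0 0 0))

lemma s20_20_7_6_10 {n : ℕ} (hn : 5 ≤ n) : NoNd (d20_20_7_6.R : ℤ) d20_20_7_6.H n d20_20_7_6.a d20_20_7_6.b
    (BlkD.inB (BlkD.upd (BlkD.upd (BlkD.upd (fun _ => 0) 0 2) 0 3) 1 5)
      (BlkD.upd (BlkD.upd (BlkD.upd (BlkD.upd (BlkD.upd (BlkD.upd (fun _ => 20) 0 7) 2 6) 0 3) 1 17) 1 8) 1 6)) :=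
  BlkD.tree_sound (BlkD.pairOk_sound k20_20_7_6) (by decide) hn t20_20_7_6_10 _ _ (by decide +kernel)

/-- certificates of the pair `(7, 6)`, part 11 -/
def t20_20_7_6_11 : BlkD.Tr :=
  .S 1 7 (.S 2 3 (.L 5 5 [4, 4, 20, 20, 20, 20, 20] [142, 140, 138, 132, 126, 114] [] 100000 14284
    14284 1485717 42857 28571 71429 57143 0 0 0) (.L 5 5 [4, 4, 20, 20, 20, 20, 20] [142, 140, 138,
    132, 126, 114] [] 100000 0 0 1580000 40000 0 60000 60000 0 0 0)) (.L 5 5 [4, 4, 20, 20, 20, 20,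
    20] [164, 162, 160, 158, 152, 146] [] 100000 66668 66668 1466666 66667 0 100000 66667 0 0 0)

lemma s20_20_7_6_11 {n : ℕ} (hn : 5 ≤ n) : NoNd (d20_20_7_6.R : ℤ) d20_20_7_6.H n d20_20_7_6.a d20_20_7_6.b
    (BlkD.inB (BlkD.upd (BlkD.upd (BlkD.upd (BlkD.upd (fun _ => 0) 0 2) 0 3) 1 5) 1 7)
      (BlkD.upd (BlkD.upd (BlkD.upd (BlkD.upd (BlkD.upd (fun _ => 20) 0 7) 2 6) 0 3) 1 17) 1 8)) :=
  BlkD.tree_sound (BlkD.pairOk_sound k20_20_7_6) (by decide) hn t20_20_7_6_11 _ _ (by decide +kernel)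

/-- certificates of the pair `(7, 6)`, part 12 -/
def t20_20_7_6_12 : BlkD.Tr :=
  .S 1 13 (.S 1 11 (.S 1 10 (.S 1 9 (.L 5 5 [4, 4, 20, 20, 20, 20, 20] [188, 186, 184, 182, 180,
    174] [] 100000 0 0 1500000 50000 0 100000 50000 0 0 0) (.L 5 5 [4, 4, 20, 20, 20, 20, 20] [214,
    212, 210, 208, 206, 204] [] 100000 150000 0 900001 100000 0 250000 33333 0 0 0)) (.E 0)) (.E
    0)) (.E 0)

lemma s20_20_7_6_12 {n : ℕ} (hn : 5 ≤ n) : NoNd (d20_20_7_6.R : ℤ) d20_20_7_6.H n d20_20_7_6.a d20_20_7_6.b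
    (BlkD.inB (BlkD.upd (BlkD.upd (BlkD.upd (fun _ => 0) 0 2) 0 3) 1 9)
      (BlkD.upd (BlkD.upd (BlkD.upd (BlkD.upd (fun _ => 20) 0 7) 2 6) 0 3) 1 17)) :=
  BlkD.tree_sound (BlkD.pairOk_sound k20_20_7_6) (by decide) hn t20_20_7_6_12 _ _ (by decide +kernel)

/-- certificates of the pair `(7, 6)`, part 13 -/
def t20_20_7_6_13 : BlkD.Tr :=
  .E 0

lemma s20_20_7_6_13 {n : ℕ} (hn : 5 ≤ n) : NoNd (d20_20_7_6.R : ℤ) d20_20_7_6.H n d20_20_7_6.a d20_20_7_6.b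
    (BlkD.inB (BlkD.upd (BlkD.upd (BlkD.upd (fun _ => 0) 0 2) 0 3) 1 18)
      (BlkD.upd (BlkD.upd (BlkD.upd (fun _ => 20) 0 7) 2 6) 0 3)) :=
  BlkD.tree_sound (BlkD.pairOk_sound k20_20_7_6) (by decide) hn t20_20_7_6_13 _ _ (by decide +kernel)

/-- certificates of the pair `(7, 6)`, part 14 -/
def t20_20_7_6_14 : BlkD.Tr :=
  .L 5 5 [4, 4, 20, 20, 20, 20, 20] [] [] 100000 0 0 1578950 26316 15789 63158 68421 0 0 0

lemma s20_20_7_6_14 {n : ℕ} (hn : 5 ≤ n) : NoNd (d20_20_7_6.R : ℤ) d20_20_7_6.H n d20_20_7_6.a d20_20_7_6.b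
    (BlkD.inB (BlkD.upd (fun _ => 0) 0 4)
      (BlkD.upd (BlkD.upd (BlkD.upd (BlkD.upd (BlkD.upd (BlkD.upd (BlkD.upd (fun _ => 20) 0 7) 2 6) 0 5) 0 4) 1 16) 1 8) 1 4)) :=
  BlkD.tree_sound (BlkD.pairOk_sound k20_20_7_6) (by decide) hn t20_20_7_6_14 _ _ (by decide +kernel)

/-- certificates of the pair `(7, 6)`, part 15 -/
def t20_20_7_6_15 : BlkD.Tr :=
  .S 1 6 (.S 1 5 (.S 2 3 (.L 5 5 [4, 4, 20, 20, 20, 20, 20] [114, 108, 102, 90, 74, 60] [] 100000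
    100000 100000 1455000 45000 40000 75000 70000 0 0 0) (.L 5 5 [4, 4, 20, 20, 20, 20, 20] [114,
    108, 102, 90, 74, 60] [] 100000 0 0 1580000 40000 0 80000 80000 0 0 0)) (.S 2 3 (.L 5 5 [4, 4,
    20, 20, 20, 20, 20] [134, 132, 126, 120, 108, 92] [] 100000 33331 33331 1500003 33333 33333
    100000 66667 0 0 0) (.S 2 5 (.L 5 5 [4, 4, 20, 20, 20, 20, 20] [134, 132, 126, 120, 108, 92] []
    100000 0 0 1550000 50000 0 100000 50000 0 0 0) (.L 5 5 [4, 4, 20, 20, 20, 20, 20] [134, 132,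
    126, 120, 108, 92] [] 100000 0 0 1500000 40000 0 80000 40000 0 0 0)))) (.S 1 7 (.L 5 5 [4, 4,
    20, 20, 20, 20, 20] [156, 154, 152, 146, 140, 128] [] 100000 0 0 1550000 50000 0 100000 50000 0
    0 0) (.L 5 5 [4, 4, 20, 20, 20, 20, 20] [180, 178, 176, 174, 168, 162] [] 100000 120000 120000
    1400000 80000 0 100000 60000 0 0 0))

lemma s20_20_7_6_15 {n : ℕ} (hn : 5 ≤ n) : NoNd (d20_20_7_6.R : ℤ) d20_20_7_6.H n d20_20_7_6.a d20_20_7_6.b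
    (BlkD.inB (BlkD.upd (BlkD.upd (fun _ => 0) 0 4) 1 5)
      (BlkD.upd (BlkD.upd (BlkD.upd (BlkD.upd (BlkD.upd (BlkD.upd (fun _ => 20) 0 7) 2 6) 0 5) 0 4) 1 16) 1 8)) :=
  BlkD.tree_sound (BlkD.pairOk_sound k20_20_7_6) (by decide) hn t20_20_7_6_15 _ _ (by decide +kernel)

/-- certificates of the pair `(7, 6)`, part 16 -/
def t20_20_7_6_16 : BlkD.Tr :=
  .L 5 5 [4, 4, 20, 20, 20, 20, 20] [] [] 100000 216671 4 633332 66667 16667 316667 66667 0 0 0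

lemma s20_20_7_6_16 {n : ℕ} (hn : 5 ≤ n) : NoNd (d20_20_7_6.R : ℤ) d20_20_7_6.H n d20_20_7_6.a d20_20_7_6.b
    (BlkD.inB (BlkD.upd (BlkD.upd (fun _ => 0) 0 4) 1 9)
      (BlkD.upd (BlkD.upd (BlkD.upd (BlkD.upd (BlkD.upd (fun _ => 20) 0 7) 2 6) 0 5) 0 4) 1 16)) :=
  BlkD.tree_sound (BlkD.pairOk_sound k20_20_7_6) (by decide) hn t20_20_7_6_16 _ _ (by decide +kernel)

/-- certificates of the pair `(7, 6)`, part 17 -/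
def t20_20_7_6_17 : BlkD.Tr :=
  .E 0

lemma s20_20_7_6_17 {n : ℕ} (hn : 5 ≤ n) : NoNd (d20_20_7_6.R : ℤ) d20_20_7_6.H n d20_20_7_6.a d20_20_7_6.b
    (BlkD.inB (BlkD.upd (BlkD.upd (fun _ => 0) 0 4) 1 17)
      (BlkD.upd (BlkD.upd (BlkD.upd (BlkD.upd (fun _ => 20) 0 7) 2 6) 0 5) 0 4)) :=
  BlkD.tree_sound (BlkD.pairOk_sound k20_20_7_6) (by decide) hn t20_20_7_6_17 _ _ (by decide +kernel)

/-- certificates of the pair `(7, 6)`, part 18 -/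
def t20_20_7_6_18 : BlkD.Tr :=
  .S 1 15 (.S 1 7 (.S 1 3 (.L 5 5 [4, 4, 20, 20, 20, 20, 20] [] [] 100000 1 1 1566667 33333 16667
    58333 66667 0 0 0) (.S 1 5 (.S 1 4 (.S 2 3 (.L 5 5 [4, 4, 20, 20, 20, 20, 20] [100, 94, 82, 66,
    52, 0] [] 100000 0 0 1557145 28571 28571 71429 42857 0 0 0) (.L 5 5 [4, 4, 20, 20, 20, 20, 20]
    [100, 94, 82, 66, 52, 0] [] 100000 0 0 1577779 33333 11111 66667 66667 0 0 0)) (.S 2 3 (.L 5 5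
    [4, 4, 20, 20, 20, 20, 20] [124, 118, 112, 100, 84, 70] [] 100000 0 0 1550000 25000 25000 62500
    75000 0 0 0) (.S 2 5 (.S 2 4 (.L 5 5 [4, 4, 20, 20, 20, 20, 20] [124, 118, 112, 100, 84, 70] []
    100000 0 0 1588890 22222 22222 61111 48148 0 0 0) (.L 5 5 [4, 4, 20, 20, 20, 20, 20] [124, 118,
    112, 100, 84, 70] [] 100000 0 0 1560000 40000 0 70000 60000 0 0 0)) (.L 5 5 [4, 4, 20, 20, 20,
    20, 20] [124, 118, 112, 100, 84, 70] [] 100000 0 0 1520000 40000 0 90000 0 0 0 0)))) (.S 1 6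
    (.S 2 3 (.L 5 5 [4, 4, 20, 20, 20, 20, 20] [146, 144, 138, 132, 120, 104] [] 100000 0 0 1550000
    12500 50000 40625 75000 0 0 0) (.L 5 5 [4, 4, 20, 20, 20, 20, 20] [146, 144, 138, 132, 120,
    104] [] 100000 0 0 1550000 50000 0 66667 50000 0 0 0)) (.L 5 5 [4, 4, 20, 20, 20, 20, 20] [170,
    168, 166, 160, 154, 142] [] 100000 0 0 1500000 50000 0 100000 50000 0 0 0)))) (.E 0)) (.E 0)

lemma s20_20_7_6_18 {n : ℕ} (hn : 5 ≤ n) : NoNd (d20_20_7_6.R : ℤ) d20_20_7_6.H n d20_20_7_6.a d20_20_7_6.b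
    (BlkD.inB (BlkD.upd (BlkD.upd (fun _ => 0) 0 4) 0 5)
      (BlkD.upd (BlkD.upd (BlkD.upd (fun _ => 20) 0 7) 2 6) 0 5)) :=
  BlkD.tree_sound (BlkD.pairOk_sound k20_20_7_6) (by decide) hn t20_20_7_6_18 _ _ (by decide +kernel)

/-- certificates of the pair `(7, 6)`, part 19 -/
def t20_20_7_6_19 : BlkD.Tr :=
  .S 0 6 (.S 1 14 (.S 1 7 (.S 1 3 (.L 5 5 [4, 4, 20, 20, 20, 20, 20] [] [] 100000 0 0 1588890 22222
    22222 44444 55556 0 0 0) (.L 5 5 [4, 4, 20, 20, 20, 20, 20] [] [] 100000 1 1 1585715 7143 25000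
    53571 50000 0 0 0)) (.E 0)) (.E 0)) (.L 5 5 [4, 4, 20, 20, 20, 20, 20] [] [] 100000 0 0 1566668
    0 33333 33333 44444 0 0 0)

lemma s20_20_7_6_19 {n : ℕ} (hn : 5 ≤ n) : NoNd (d20_20_7_6.R : ℤ) d20_20_7_6.H n d20_20_7_6.a d20_20_7_6.b
    (BlkD.inB (BlkD.upd (BlkD.upd (fun _ => 0) 0 4) 0 6)
      (BlkD.upd (BlkD.upd (fun _ => 20) 0 7) 2 6)) :=
  BlkD.tree_sound (BlkD.pairOk_sound k20_20_7_6) (by decide) hn t20_20_7_6_19 _ _ (by decide +kernel)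

/-- certificates of the pair `(7, 6)`, part 20 -/
def t20_20_7_6_20 : BlkD.Tr :=
  .E 1

lemma s20_20_7_6_20 {n : ℕ} (hn : 5 ≤ n) : NoNd (d20_20_7_6.R : ℤ) d20_20_7_6.H n d20_20_7_6.a d20_20_7_6.b
    (BlkD.inB (BlkD.upd (fun _ => 0) 2 7)
      (BlkD.upd (fun _ => 20) 0 7)) :=
  BlkD.tree_sound (BlkD.pairOk_sound k20_20_7_6) (by decide) hn t20_20_7_6_20 _ _ (by decide +kernel)

/-- certificates of the pair `(7, 6)`, part 21 -/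
def t20_20_7_6_21 : BlkD.Tr :=
  .E 0

lemma s20_20_7_6_21 {n : ℕ} (hn : 5 ≤ n) : NoNd (d20_20_7_6.R : ℤ) d20_20_7_6.H n d20_20_7_6.a d20_20_7_6.b
    (BlkD.inB (BlkD.upd (fun _ => 0) 0 8)
      (fun _ => 20)) :=
  BlkD.tree_sound (BlkD.pairOk_sound k20_20_7_6) (by decide) hn t20_20_7_6_21 _ _ (by decide +kernel)

lemma pr20_20_7_6 {n : ℕ} (hn : 5 ≤ n) : NoPr ((20 : ℕ) : ℤ) ((20 : ℕ) : ℤ) n 7 6 :=
  BlkD.of_root (R := d20_20_7_6.R) (H := d20_20_7_6.H) (a := d20_20_7_6.a) (b := d20_20_7_6.b) (q := 3) (by decide) hn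
    (BlkD.sp 0 7 (BlkD.sp 2 6 (BlkD.sp 0 3 (BlkD.sp 0 1 (BlkD.sp 0 0 (s20_20_7_6_1 hn) (BlkD.sp 1
      10 (BlkD.sp 1 5 (s20_20_7_6_2 hn) (s20_20_7_6_3 hn)) (s20_20_7_6_4 hn))) (BlkD.sp 0 2
      (BlkD.sp 1 10 (BlkD.sp 1 5 (s20_20_7_6_5 hn) (BlkD.sp 1 8 (s20_20_7_6_6 hn) (s20_20_7_6_7
      hn))) (s20_20_7_6_8 hn)) (BlkD.sp 1 17 (BlkD.sp 1 8 (BlkD.sp 1 4 (s20_20_7_6_9 hn) (BlkD.sp 1
      6 (s20_20_7_6_10 hn) (s20_20_7_6_11 hn))) (s20_20_7_6_12 hn)) (s20_20_7_6_13 hn)))) (BlkD.sp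
      0 5 (BlkD.sp 0 4 (BlkD.sp 1 16 (BlkD.sp 1 8 (BlkD.sp 1 4 (s20_20_7_6_14 hn) (s20_20_7_6_15
      hn)) (s20_20_7_6_16 hn)) (s20_20_7_6_17 hn)) (s20_20_7_6_18 hn)) (s20_20_7_6_19 hn)))
      (s20_20_7_6_20 hn)) (s20_20_7_6_21 hn))

end BlkC

end Pool.Agent.Lib.MP_f04ccf_co
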