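import Pool.Agent.Lib.MP_f04ccf_co.M.BlkT

/-!
MP_f04ccf_co, block certificate, data `R = 20`, `H = 21`, part 1 (generated, helper99:
bd10.cpp, gen2.py).
-/

set_option autoImplicit false
set_option maxRecDepth 100000

namespace Pool.Agent.Lib.MP_f04ccf_co

namespace BlkC

/-- the numbers of the pair `(0, 0)`, `R = 20`, `H = 21` -/
def d20_21_0_0 : BlkD.Pd :=
  ⟨20, 21, 4, 0, 0, 18, 0, 1, 0, 4, 4, 0, 0, 4, 4, 0, [0, 4, 8, 12, 16, 20, 24, 28, 32, 36, 40, 44,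
    48, 52, 56, 60, 64, 68, 72], [0, 4, 8, 12, 16, 20, 24, 28, 32, 36, 40, 44, 48, 52, 56, 60, 64,
    68, 72], [⟨1, 1, 1, 4, 8, [0, 4], [0, 4]⟩]⟩

/-- the certificates of the pair `(0, 0)` -/
def t20_21_0_0 : BlkD.Tr :=
  .S 0 0 (.S 2 0 (.L 4 4 [4] [] [] 100000 0 0 100000 0 0 100000 0 0 0 0) (.E 1)) (.E 0)

lemma pr20_21_0_0 {n : ℕ} (hn : 6 ≤ n) : NoPr ((20 : ℕ) : ℤ) ((21 : ℕ) : ℤ) n 0 0 :=
  BlkD.pair_sound (d := d20_21_0_0) (by decide +kernel) hn (by decide) (tr := t20_21_0_0)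
    (by decide +kernel) rfl rfl rfl rfl

/-- the numbers of the pair `(1, 0)`, `R = 20`, `H = 21` -/
def d20_21_1_0 : BlkD.Pd :=
  ⟨20, 21, 4, 1, 0, 17, 0, 1, 0, 4, 4, 0, 0, 4, 4, 0, [0, 4, 8, 12, 16, 20, 24, 28, 32, 36, 40, 44,
    48, 52, 56, 60, 64, 68], [0, 4, 8, 12, 16, 20, 24, 28, 32, 36, 40, 44, 48, 52, 56, 60, 64, 68],
    [⟨1, 1, 1, 4, 8, [0, 4], [0, 4]⟩]⟩

/-- the certificates of the pair `(1, 0)` -/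
def t20_21_1_0 : BlkD.Tr :=
  .S 0 1 (.S 2 0 (.L 4 4 [4] [] [] 100000 0 0 200000 0 0 0 100000 0 0 0) (.E 1)) (.E 0)

lemma pr20_21_1_0 {n : ℕ} (hn : 6 ≤ n) : NoPr ((20 : ℕ) : ℤ) ((21 : ℕ) : ℤ) n 1 0 :=
  BlkD.pair_sound (d := d20_21_1_0) (by decide +kernel) hn (by decide) (tr := t20_21_1_0)
    (by decide +kernel) rfl rfl rfl rfl

/-- the numbers of the pair `(1, 1)`, `R = 20`, `H = 21` -/
def d20_21_1_1 : BlkD.Pd :=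
  ⟨20, 21, 4, 1, 1, 16, 1, 1, 0, 4, 4, 0, 0, 4, 4, 0, [0, 4, 8, 12, 16, 20, 24, 28, 32, 36, 40, 44,
    48, 52, 56, 60, 64], [0, 4, 8, 12, 16, 20, 24, 28, 32, 36, 40, 44, 48, 52, 56, 60, 64], [⟨1, 1,
    1, 4, 8, [0, 4], [0, 4]⟩, ⟨1, 1, 1, 4, 8, [0, 4], [0, 4]⟩]⟩

/-- the certificates of the pair `(1, 1)` -/
def t20_21_1_1 : BlkD.Tr :=
  .S 0 1 (.S 2 1 (.L 4 4 [4, 4] [] [] 100000 0 0 400000 0 0 0 0 0 0 0) (.E 1)) (.E 0)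

lemma pr20_21_1_1 {n : ℕ} (hn : 6 ≤ n) : NoPr ((20 : ℕ) : ℤ) ((21 : ℕ) : ℤ) n 1 1 :=
  BlkD.pair_sound (d := d20_21_1_1) (by decide +kernel) hn (by decide) (tr := t20_21_1_1)
    (by decide +kernel) rfl rfl rfl rfl

/-- the numbers of the pair `(2, 0)`, `R = 20`, `H = 21` -/
def d20_21_2_0 : BlkD.Pd :=
  ⟨20, 21, 4, 2, 0, 16, 0, 1, 0, 4, 4, 0, 0, 4, 4, 0, [0, 4, 8, 12, 16, 20, 24, 28, 32, 36, 40, 44,
    48, 52, 56, 60, 64], [0, 4, 8, 12, 16, 20, 24, 28, 32, 36, 40, 44, 48, 52, 56, 60, 64], [⟨1, 1,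
    1, 4, 8, [0, 4], [0, 4]⟩]⟩

/-- the certificates of the pair `(2, 0)` -/
def t20_21_2_0 : BlkD.Tr :=
  .S 0 2 (.S 2 0 (.L 4 4 [4] [] [] 100000 0 0 300000 0 0 0 100000 0 0 0) (.E 1)) (.E 0)

lemma pr20_21_2_0 {n : ℕ} (hn : 6 ≤ n) : NoPr ((20 : ℕ) : ℤ) ((21 : ℕ) : ℤ) n 2 0 :=
  BlkD.pair_sound (d := d20_21_2_0) (by decide +kernel) hn (by decide) (tr := t20_21_2_0)
    (by decide +kernel) rfl rfl rfl rfl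

/-- the numbers of the pair `(2, 1)`, `R = 20`, `H = 21` -/
def d20_21_2_1 : BlkD.Pd :=
  ⟨20, 21, 4, 2, 1, 15, 1, 1, 0, 4, 4, 0, 0, 4, 4, 0, [0, 4, 8, 12, 16, 20, 24, 28, 32, 36, 40, 44,
    48, 52, 56, 60], [0, 4, 8, 12, 16, 20, 24, 28, 32, 36, 40, 44, 48, 52, 56, 60], [⟨1, 1, 1, 4,
    8, [0, 4], [0, 4]⟩, ⟨1, 1, 1, 4, 8, [0, 4], [0, 4]⟩]⟩

/-- the certificates of the pair `(2, 1)` -/
def t20_21_2_1 : BlkD.Tr :=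
  .S 0 2 (.S 2 1 (.L 4 4 [4, 4] [] [] 100000 0 0 500000 0 0 0 0 0 0 0) (.E 1)) (.E 0)

lemma pr20_21_2_1 {n : ℕ} (hn : 6 ≤ n) : NoPr ((20 : ℕ) : ℤ) ((21 : ℕ) : ℤ) n 2 1 :=
  BlkD.pair_sound (d := d20_21_2_1) (by decide +kernel) hn (by decide) (tr := t20_21_2_1)
    (by decide +kernel) rfl rfl rfl rfl

/-- the numbers of the pair `(2, 2)`, `R = 20`, `H = 21` -/
def d20_21_2_2 : BlkD.Pd :=
  ⟨20, 21, 4, 2, 2, 14, 2, 1, 0, 4, 6, 0, 0, 4, 6, 0, [0, 6, 12, 18, 24, 30, 36, 42, 48, 54, 56,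
    56, 56, 56, 56], [0, 6, 12, 18, 24, 30, 36, 42, 48, 54, 56, 56, 56, 56, 56], [⟨1, 1, 1, 4, 8,
    [0, 4], [0, 4]⟩, ⟨1, 1, 1, 4, 8, [0, 4], [0, 4]⟩, ⟨1, 1, 1, 6, 12, [0, 6], [0, 6]⟩]⟩

/-- the certificates of the pair `(2, 2)` -/
def t20_21_2_2 : BlkD.Tr :=
  .S 0 2 (.S 2 2 (.L 4 4 [4, 4, 4] [] [] 100000 0 0 600000 0 0 0 0 0 0 0) (.E 1)) (.E 0)

lemma pr20_21_2_2 {n : ℕ} (hn : 6 ≤ n) : NoPr ((20 : ℕ) : ℤ) ((21 : ℕ) : ℤ) n 2 2 :=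
  BlkD.pair_sound (d := d20_21_2_2) (by decide +kernel) hn (by decide) (tr := t20_21_2_2)
    (by decide +kernel) rfl rfl rfl rfl

/-- the numbers of the pair `(3, 0)`, `R = 20`, `H = 21` -/
def d20_21_3_0 : BlkD.Pd :=
  ⟨20, 21, 4, 3, 0, 15, 0, 1, 0, 4, 4, 0, 0, 4, 4, 0, [0, 4, 8, 12, 16, 20, 24, 28, 32, 36, 40, 44,
    48, 52, 56, 60], [0, 4, 8, 12, 16, 20, 24, 28, 32, 36, 40, 44, 48, 52, 56, 60], [⟨1, 1, 1, 4,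
    8, [0, 4], [0, 4]⟩]⟩

/-- the certificates of the pair `(3, 0)` -/
def t20_21_3_0 : BlkD.Tr :=
  .S 0 3 (.S 2 0 (.L 4 4 [4] [] [] 100000 0 0 420000 0 0 20000 80000 0 0 0) (.E 1)) (.E 0)

lemma pr20_21_3_0 {n : ℕ} (hn : 6 ≤ n) : NoPr ((20 : ℕ) : ℤ) ((21 : ℕ) : ℤ) n 3 0 :=
  BlkD.pair_sound (d := d20_21_3_0) (by decide +kernel) hn (by decide) (tr := t20_21_3_0)
    (by decide +kernel) rfl rfl rfl rfl

/-- the numbers of the pair `(3, 1)`, `R = 20`, `H = 21` -/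
def d20_21_3_1 : BlkD.Pd :=
  ⟨20, 21, 4, 3, 1, 14, 1, 1, 0, 4, 6, 0, 0, 4, 4, 0, [0, 6, 12, 18, 24, 30, 36, 42, 48, 54, 56,
    56, 56, 56, 56], [0, 4, 8, 12, 16, 20, 24, 28, 32, 36, 40, 44, 48, 52, 56], [⟨1, 1, 1, 4, 8,
    [0, 4], [0, 4]⟩, ⟨1, 1, 1, 4, 10, [0, 6], [0, 4]⟩]⟩

/-- the certificates of the pair `(3, 1)` -/
def t20_21_3_1 : BlkD.Tr :=
  .S 0 3 (.S 2 1 (.L 4 4 [4, 4] [] [] 100000 0 0 600000 0 0 25000 0 0 0 0) (.E 1)) (.E 0)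

lemma pr20_21_3_1 {n : ℕ} (hn : 6 ≤ n) : NoPr ((20 : ℕ) : ℤ) ((21 : ℕ) : ℤ) n 3 1 :=
  BlkD.pair_sound (d := d20_21_3_1) (by decide +kernel) hn (by decide) (tr := t20_21_3_1)
    (by decide +kernel) rfl rfl rfl rfl

/-- the numbers of the pair `(3, 2)`, `R = 20`, `H = 21` -/
def d20_21_3_2 : BlkD.Pd :=
  ⟨20, 21, 4, 3, 2, 13, 2, 1, 0, 4, 6, 0, 0, 4, 6, 0, [0, 6, 12, 18, 24, 30, 36, 42, 48, 52, 52,
    52, 52, 52], [0, 6, 12, 18, 24, 30, 36, 42, 48, 52, 52, 52, 52, 52], [⟨1, 1, 1, 4, 8, [0, 4],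
    [0, 4]⟩, ⟨1, 1, 1, 4, 10, [0, 6], [0, 4]⟩, ⟨1, 1, 1, 6, 12, [0, 6], [0, 6]⟩]⟩

/-- the certificates of the pair `(3, 2)` -/
def t20_21_3_2 : BlkD.Tr :=
  .S 0 3 (.S 2 2 (.L 4 5 [4, 4, 4] [] [] 100000 0 0 700000 0 0 25000 0 0 0 0) (.E 1)) (.E 0)

lemma pr20_21_3_2 {n : ℕ} (hn : 6 ≤ n) : NoPr ((20 : ℕ) : ℤ) ((21 : ℕ) : ℤ) n 3 2 :=
  BlkD.pair_sound (d := d20_21_3_2) (by decide +kernel) hn (by decide) (tr := t20_21_3_2)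
    (by decide +kernel) rfl rfl rfl rfl

/-- the numbers of the pair `(3, 3)`, `R = 20`, `H = 21` -/
def d20_21_3_3 : BlkD.Pd :=
  ⟨20, 21, 4, 3, 3, 12, 3, 1, 4, 1, 8, 0, 4, 1, 8, 0, [0, 8, 16, 24, 28, 32, 36, 40, 44, 48, 52,
    56, 60], [0, 8, 16, 24, 28, 32, 36, 40, 44, 48, 52, 56, 60], [⟨1, 1, 1, 4, 8, [0, 4], [0, 4]⟩,
    ⟨1, 1, 1, 6, 12, [0, 6], [0, 6]⟩, ⟨1, 1, 1, 6, 12, [0, 6], [0, 6]⟩, ⟨1, 1, 1, 8, 16, [0, 8],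
    [0, 8]⟩]⟩

/-- the certificates of the pair `(3, 3)` -/
def t20_21_3_3 : BlkD.Tr :=
  .S 0 3 (.S 2 3 (.L 5 5 [4, 4, 4, 5] [] [] 100000 7408 7408 800000 0 0 50000 50000 25000 25000
    27778) (.E 1)) (.E 0)

lemma pr20_21_3_3 {n : ℕ} (hn : 6 ≤ n) : NoPr ((20 : ℕ) : ℤ) ((21 : ℕ) : ℤ) n 3 3 :=
  BlkD.pair_sound (d := d20_21_3_3) (by decide +kernel) hn (by decide) (tr := t20_21_3_3)
    (by decide +kernel) rfl rfl rfl rfl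

/-- the numbers of the pair `(4, 0)`, `R = 20`, `H = 21` -/
def d20_21_4_0 : BlkD.Pd :=
  ⟨20, 21, 4, 4, 0, 14, 0, 1, 0, 4, 4, 0, 0, 4, 4, 0, [0, 4, 8, 12, 16, 20, 24, 28, 32, 36, 40, 44,
    48, 52, 56], [0, 4, 8, 12, 16, 20, 24, 28, 32, 36, 40, 44, 48, 52, 56], [⟨1, 1, 1, 4, 8, [0,
    4], [0, 4]⟩]⟩

/-- the certificates of the pair `(4, 0)` -/
def t20_21_4_0 : BlkD.Tr :=
  .S 0 4 (.S 2 0 (.L 4 4 [4] [] [] 100000 0 0 500001 33333 0 33333 66667 0 0 0) (.E 1)) (.E 0)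

lemma pr20_21_4_0 {n : ℕ} (hn : 6 ≤ n) : NoPr ((20 : ℕ) : ℤ) ((21 : ℕ) : ℤ) n 4 0 :=
  BlkD.pair_sound (d := d20_21_4_0) (by decide +kernel) hn (by decide) (tr := t20_21_4_0)
    (by decide +kernel) rfl rfl rfl rfl

/-- the numbers of the pair `(4, 1)`, `R = 20`, `H = 21` -/
def d20_21_4_1 : BlkD.Pd :=
  ⟨20, 21, 4, 4, 1, 13, 1, 1, 0, 4, 6, 0, 0, 4, 4, 0, [0, 6, 12, 18, 24, 30, 36, 42, 48, 52, 52,
    52, 52, 52], [0, 4, 8, 12, 16, 20, 24, 28, 32, 36, 40, 44, 48, 52], [⟨1, 1, 1, 4, 8, [0, 4],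
    [0, 4]⟩, ⟨1, 1, 1, 4, 10, [0, 6], [0, 4]⟩]⟩

/-- the certificates of the pair `(4, 1)` -/
def t20_21_4_1 : BlkD.Tr :=
  .S 0 4 (.S 2 1 (.L 4 4 [4, 4] [] [] 100000 0 0 680000 20000 0 40000 0 0 0 0) (.E 1)) (.E 0)

lemma pr20_21_4_1 {n : ℕ} (hn : 6 ≤ n) : NoPr ((20 : ℕ) : ℤ) ((21 : ℕ) : ℤ) n 4 1 :=
  BlkD.pair_sound (d := d20_21_4_1) (by decide +kernel) hn (by decide) (tr := t20_21_4_1)
    (by decide +kernel) rfl rfl rfl rfl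

/-- the numbers of the pair `(4, 2)`, `R = 20`, `H = 21` -/
def d20_21_4_2 : BlkD.Pd :=
  ⟨20, 21, 4, 4, 2, 12, 2, 1, 2, 2, 8, 0, 0, 4, 6, 0, [0, 8, 16, 24, 32, 34, 36, 38, 40, 42, 44,
    46, 48], [0, 6, 12, 18, 24, 30, 36, 42, 48, 48, 48, 48, 48], [⟨1, 1, 1, 4, 8, [0, 4], [0, 4]⟩,
    ⟨1, 1, 1, 4, 10, [0, 6], [0, 4]⟩, ⟨1, 1, 1, 6, 14, [0, 8], [0, 6]⟩]⟩

/-- the certificates of the pair `(4, 2)` -/
def t20_21_4_2 : BlkD.Tr :=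
  .S 0 4 (.S 2 2 (.L 4 5 [4, 4, 4] [] [] 100000 0 0 800000 0 0 50000 0 0 0 0) (.E 1)) (.E 0)

lemma pr20_21_4_2 {n : ℕ} (hn : 6 ≤ n) : NoPr ((20 : ℕ) : ℤ) ((21 : ℕ) : ℤ) n 4 2 :=
  BlkD.pair_sound (d := d20_21_4_2) (by decide +kernel) hn (by decide) (tr := t20_21_4_2)
    (by decide +kernel) rfl rfl rfl rfl

/-- the numbers of the pair `(4, 3)`, `R = 20`, `H = 21` -/
def d20_21_4_3 : BlkD.Pd :=
  ⟨20, 21, 4, 4, 3, 11, 3, 1, 2, 2, 8, 0, 4, 1, 8, 0, [0, 8, 16, 24, 30, 32, 34, 36, 38, 40, 42,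
    44], [0, 8, 16, 23, 27, 31, 35, 39, 43, 47, 51, 55], [⟨1, 1, 1, 4, 8, [0, 4], [0, 4]⟩, ⟨1, 1,
    1, 6, 12, [0, 6], [0, 6]⟩, ⟨1, 1, 1, 6, 14, [0, 8], [0, 6]⟩, ⟨1, 1, 1, 8, 16, [0, 8], [0, 8]⟩]⟩

/-- the certificates of the pair `(4, 3)` -/
def t20_21_4_3 : BlkD.Tr :=
  .S 0 4 (.S 2 3 (.S 0 2 (.L 5 5 [4, 4, 4, 5] [] [] 100000 7103 7103 900000 0 0 50000 38636 22727
    22727 33239) (.L 5 5 [4, 4, 4, 5] [] [] 100000 7103 7103 900000 0 0 50000 38636 22727 22727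
    33239)) (.E 1)) (.E 0)

lemma pr20_21_4_3 {n : ℕ} (hn : 6 ≤ n) : NoPr ((20 : ℕ) : ℤ) ((21 : ℕ) : ℤ) n 4 3 :=
  BlkD.pair_sound (d := d20_21_4_3) (by decide +kernel) hn (by decide) (tr := t20_21_4_3)
    (by decide +kernel) rfl rfl rfl rfl

/-- the numbers of the pair `(5, 0)`, `R = 20`, `H = 21` -/
def d20_21_5_0 : BlkD.Pd :=
  ⟨20, 21, 4, 5, 0, 13, 0, 1, 0, 4, 4, 0, 0, 4, 4, 0, [0, 4, 8, 12, 16, 20, 24, 28, 32, 36, 40, 44,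
    48, 52], [0, 4, 8, 12, 16, 20, 24, 28, 32, 36, 40, 44, 48, 52], [⟨1, 1, 1, 4, 8, [0, 4], [0,
    4]⟩]⟩

/-- the certificates of the pair `(5, 0)` -/
def t20_21_5_0 : BlkD.Tr :=
  .S 0 5 (.S 2 0 (.L 4 4 [4] [] [] 100000 0 0 614287 28571 0 42857 57143 0 0 0) (.E 1)) (.E 0)

lemma pr20_21_5_0 {n : ℕ} (hn : 6 ≤ n) : NoPr ((20 : ℕ) : ℤ) ((21 : ℕ) : ℤ) n 5 0 :=
  BlkD.pair_sound (d := d20_21_5_0) (by decide +kernel) hn (by decide) (tr := t20_21_5_0)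
    (by decide +kernel) rfl rfl rfl rfl

/-- the numbers of the pair `(5, 1)`, `R = 20`, `H = 21` -/
def d20_21_5_1 : BlkD.Pd :=
  ⟨20, 21, 4, 5, 1, 12, 1, 1, 0, 4, 6, 0, 0, 4, 4, 0, [0, 6, 12, 18, 24, 30, 36, 42, 48, 48, 48,
    48, 48], [0, 4, 8, 12, 16, 20, 24, 28, 32, 36, 40, 44, 48], [⟨1, 1, 1, 4, 8, [0, 4], [0, 4]⟩,
    ⟨1, 1, 1, 4, 10, [0, 6], [0, 4]⟩]⟩

/-- the certificates of the pair `(5, 1)` -/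
def t20_21_5_1 : BlkD.Tr :=
  .S 0 5 (.S 2 1 (.L 4 5 [4, 4] [] [] 100000 0 0 775000 25000 0 50000 0 0 0 0) (.E 1)) (.E 0)

lemma pr20_21_5_1 {n : ℕ} (hn : 6 ≤ n) : NoPr ((20 : ℕ) : ℤ) ((21 : ℕ) : ℤ) n 5 1 :=
  BlkD.pair_sound (d := d20_21_5_1) (by decide +kernel) hn (by decide) (tr := t20_21_5_1)
    (by decide +kernel) rfl rfl rfl rfl

/-- the numbers of the pair `(5, 2)`, `R = 20`, `H = 21` -/
def d20_21_5_2 : BlkD.Pd :=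
  ⟨20, 21, 4, 5, 2, 11, 2, 1, 2, 2, 8, 0, 0, 4, 6, 0, [0, 8, 16, 24, 30, 32, 34, 36, 38, 40, 42,
    44], [0, 6, 12, 18, 24, 30, 36, 42, 44, 44, 44, 44], [⟨1, 1, 1, 4, 8, [0, 4], [0, 4]⟩, ⟨1, 1,
    1, 4, 10, [0, 6], [0, 4]⟩, ⟨1, 1, 1, 6, 14, [0, 8], [0, 6]⟩]⟩

lemma k20_21_5_2 : BlkD.pairOk d20_21_5_2 = true := by decide +kernel

/-- certificates of the pair `(5, 2)`, part 1 -/
def t20_21_5_2_1 : BlkD.Tr :=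
  .S 0 1 (.L 4 6 [4, 4, 4] [] [] 100000 2343 2342 882815 23437 0 48437 7813 6250 6250 6250) (.L 4 6
    [4, 4, 4] [] [] 100000 2343 2342 882815 23437 0 48437 7813 6250 6250 6250)

lemma s20_21_5_2_1 {n : ℕ} (hn : 6 ≤ n) : NoNd (d20_21_5_2.R : ℤ) d20_21_5_2.H n d20_21_5_2.a d20_21_5_2.b
    (BlkD.inB (fun _ => 0)
      (BlkD.upd (BlkD.upd (BlkD.upd (fun _ => 21) 0 5) 2 2) 0 2)) :=
  BlkD.tree_sound (BlkD.pairOk_sound k20_21_5_2) (by decide) hn t20_21_5_2_1 _ _ (by decide +kernel)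

/-- certificates of the pair `(5, 2)`, part 2 -/
def t20_21_5_2_2 : BlkD.Tr :=
  .L 4 6 [4, 4, 4] [] [] 100000 2343 2342 882815 23437 0 48437 7813 6250 6250 6250

lemma s20_21_5_2_2 {n : ℕ} (hn : 6 ≤ n) : NoNd (d20_21_5_2.R : ℤ) d20_21_5_2.H n d20_21_5_2.a d20_21_5_2.b
    (BlkD.inB (BlkD.upd (fun _ => 0) 0 3)
      (BlkD.upd (BlkD.upd (fun _ => 21) 0 5) 2 2)) :=
  BlkD.tree_sound (BlkD.pairOk_sound k20_21_5_2) (by decide) hn t20_21_5_2_2 _ _ (by decide +kernel)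

/-- certificates of the pair `(5, 2)`, part 3 -/
def t20_21_5_2_3 : BlkD.Tr :=
  .E 1

lemma s20_21_5_2_3 {n : ℕ} (hn : 6 ≤ n) : NoNd (d20_21_5_2.R : ℤ) d20_21_5_2.H n d20_21_5_2.a d20_21_5_2.b
    (BlkD.inB (BlkD.upd (fun _ => 0) 2 3)
      (BlkD.upd (fun _ => 21) 0 5)) :=
  BlkD.tree_sound (BlkD.pairOk_sound k20_21_5_2) (by decide) hn t20_21_5_2_3 _ _ (by decide +kernel)

/-- certificates of the pair `(5, 2)`, part 4 -/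
def t20_21_5_2_4 : BlkD.Tr :=
  .E 0

lemma s20_21_5_2_4 {n : ℕ} (hn : 6 ≤ n) : NoNd (d20_21_5_2.R : ℤ) d20_21_5_2.H n d20_21_5_2.a d20_21_5_2.b
    (BlkD.inB (BlkD.upd (fun _ => 0) 0 6)
      (fun _ => 21)) :=
  BlkD.tree_sound (BlkD.pairOk_sound k20_21_5_2) (by decide) hn t20_21_5_2_4 _ _ (by decide +kernel)

lemma pr20_21_5_2 {n : ℕ} (hn : 6 ≤ n) : NoPr ((20 : ℕ) : ℤ) ((21 : ℕ) : ℤ) n 5 2 :=
  BlkD.of_root (R := d20_21_5_2.R) (H := d20_21_5_2.H) (a := d20_21_5_2.a) (b := d20_21_5_2.b) (q := 4) (by decide) hn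
    (BlkD.sp 0 5 (BlkD.sp 2 2 (BlkD.sp 0 2 (s20_21_5_2_1 hn) (s20_21_5_2_2 hn)) (s20_21_5_2_3 hn))
      (s20_21_5_2_4 hn))

/-- the numbers of the pair `(5, 3)`, `R = 20`, `H = 21` -/
def d20_21_5_3 : BlkD.Pd :=
  ⟨20, 21, 4, 5, 3, 10, 3, 1, 2, 2, 10, 0, 4, 1, 8, 0, [0, 10, 20, 26, 28, 30, 32, 34, 36, 38, 40],
    [0, 8, 16, 22, 26, 30, 34, 38, 42, 46, 50], [⟨1, 1, 1, 4, 8, [0, 4], [0, 4]⟩, ⟨1, 1, 1, 6, 12,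
    [0, 6], [0, 6]⟩, ⟨1, 1, 1, 6, 14, [0, 8], [0, 6]⟩, ⟨1, 1, 1, 8, 18, [0, 10], [0, 8]⟩]⟩

lemma k20_21_5_3 : BlkD.pairOk d20_21_5_3 = true := by decide +kernel

/-- certificates of the pair `(5, 3)`, part 1 -/
def t20_21_5_3_1 : BlkD.Tr :=
  .L 5 6 [4, 4, 4, 5] [] [] 100000 13556 13556 1013336 17333 0 54000 33333 15333 21333 30667

lemma s20_21_5_3_1 {n : ℕ} (hn : 6 ≤ n) : NoNd (d20_21_5_3.R : ℤ) d20_21_5_3.H n d20_21_5_3.a d20_21_5_3.b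
    (BlkD.inB (fun _ => 0)
      (BlkD.upd (BlkD.upd (BlkD.upd (BlkD.upd (fun _ => 21) 0 5) 2 3) 0 2) 0 1)) :=
  BlkD.tree_sound (BlkD.pairOk_sound k20_21_5_3) (by decide) hn t20_21_5_3_1 _ _ (by decide +kernel)

/-- certificates of the pair `(5, 3)`, part 2 -/
def t20_21_5_3_2 : BlkD.Tr :=
  .L 5 6 [4, 4, 4, 5] [] [] 100000 13556 13556 1013336 17333 0 54000 33333 15333 21333 30667

lemma s20_21_5_3_2 {n : ℕ} (hn : 6 ≤ n) : NoNd (d20_21_5_3.R : ℤ) d20_21_5_3.H n d20_21_5_3.a d20_21_5_3.b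
    (BlkD.inB (BlkD.upd (fun _ => 0) 0 2)
      (BlkD.upd (BlkD.upd (BlkD.upd (fun _ => 21) 0 5) 2 3) 0 2)) :=
  BlkD.tree_sound (BlkD.pairOk_sound k20_21_5_3) (by decide) hn t20_21_5_3_2 _ _ (by decide +kernel)

/-- certificates of the pair `(5, 3)`, part 3 -/
def t20_21_5_3_3 : BlkD.Tr :=
  .L 5 6 [4, 4, 4, 5] [] [] 100000 8000 8000 1020000 0 0 80000 40000 20000 22000 34000

lemma s20_21_5_3_3 {n : ℕ} (hn : 6 ≤ n) : NoNd (d20_21_5_3.R : ℤ) d20_21_5_3.H n d20_21_5_3.a d20_21_5_3.b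
    (BlkD.inB (BlkD.upd (fun _ => 0) 0 3)
      (BlkD.upd (BlkD.upd (fun _ => 21) 0 5) 2 3)) :=
  BlkD.tree_sound (BlkD.pairOk_sound k20_21_5_3) (by decide) hn t20_21_5_3_3 _ _ (by decide +kernel)

/-- certificates of the pair `(5, 3)`, part 4 -/
def t20_21_5_3_4 : BlkD.Tr :=
  .E 1

lemma s20_21_5_3_4 {n : ℕ} (hn : 6 ≤ n) : NoNd (d20_21_5_3.R : ℤ) d20_21_5_3.H n d20_21_5_3.a d20_21_5_3.b
    (BlkD.inB (BlkD.upd (fun _ => 0) 2 4)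
      (BlkD.upd (fun _ => 21) 0 5)) :=
  BlkD.tree_sound (BlkD.pairOk_sound k20_21_5_3) (by decide) hn t20_21_5_3_4 _ _ (by decide +kernel)

/-- certificates of the pair `(5, 3)`, part 5 -/
def t20_21_5_3_5 : BlkD.Tr :=
  .E 0

lemma s20_21_5_3_5 {n : ℕ} (hn : 6 ≤ n) : NoNd (d20_21_5_3.R : ℤ) d20_21_5_3.H n d20_21_5_3.a d20_21_5_3.b
    (BlkD.inB (BlkD.upd (fun _ => 0) 0 6)
      (fun _ => 21)) :=
  BlkD.tree_sound (BlkD.pairOk_sound k20_21_5_3) (by decide) hn t20_21_5_3_5 _ _ (by decide +kernel)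

lemma pr20_21_5_3 {n : ℕ} (hn : 6 ≤ n) : NoPr ((20 : ℕ) : ℤ) ((21 : ℕ) : ℤ) n 5 3 :=
  BlkD.of_root (R := d20_21_5_3.R) (H := d20_21_5_3.H) (a := d20_21_5_3.a) (b := d20_21_5_3.b) (q := 4) (by decide) hn
    (BlkD.sp 0 5 (BlkD.sp 2 3 (BlkD.sp 0 2 (BlkD.sp 0 1 (s20_21_5_3_1 hn) (s20_21_5_3_2 hn))
      (s20_21_5_3_3 hn)) (s20_21_5_3_4 hn)) (s20_21_5_3_5 hn))

/-- the numbers of the pair `(6, 0)`, `R = 20`, `H = 21` -/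
def d20_21_6_0 : BlkD.Pd :=
  ⟨20, 21, 4, 6, 0, 12, 0, 1, 0, 4, 4, 0, 0, 4, 4, 0, [0, 4, 8, 12, 16, 20, 24, 28, 32, 36, 40, 44,
    48], [0, 4, 8, 12, 16, 20, 24, 28, 32, 36, 40, 44, 48], [⟨1, 1, 1, 4, 8, [0, 4], [0, 4]⟩]⟩

/-- the certificates of the pair `(6, 0)` -/
def t20_21_6_0 : BlkD.Tr :=
  .S 0 6 (.S 2 0 (.L 4 4 [4] [] [] 100000 0 0 700000 50000 0 50000 50000 0 0 0) (.E 1)) (.E 0)

lemma pr20_21_6_0 {n : ℕ} (hn : 6 ≤ n) : NoPr ((20 : ℕ) : ℤ) ((21 : ℕ) : ℤ) n 6 0 :=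
  BlkD.pair_sound (d := d20_21_6_0) (by decide +kernel) hn (by decide) (tr := t20_21_6_0)
    (by decide +kernel) rfl rfl rfl rfl

/-- the numbers of the pair `(6, 1)`, `R = 20`, `H = 21` -/
def d20_21_6_1 : BlkD.Pd :=
  ⟨20, 21, 4, 6, 1, 11, 1, 1, 2, 2, 6, 0, 0, 4, 4, 0, [0, 6, 12, 18, 24, 30, 34, 36, 38, 40, 42,
    44], [0, 4, 8, 12, 16, 20, 24, 28, 32, 36, 40, 44], [⟨1, 1, 1, 4, 8, [0, 4], [0, 4]⟩, ⟨1, 1, 1,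
    4, 10, [0, 6], [0, 4]⟩]⟩

lemma k20_21_6_1 : BlkD.pairOk d20_21_6_1 = true := by decide +kernel

/-- certificates of the pair `(6, 1)`, part 1 -/
def t20_21_6_1_1 : BlkD.Tr :=
  .S 0 1 (.L 4 5 [4, 4] [] [] 100000 0 0 888892 33333 0 44444 0 0 0 0) (.L 4 5 [4, 4] [] [] 100000
    0 0 888892 33333 0 44444 0 0 0 0)

lemma s20_21_6_1_1 {n : ℕ} (hn : 6 ≤ n) : NoNd (d20_21_6_1.R : ℤ) d20_21_6_1.H n d20_21_6_1.a d20_21_6_1.b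
    (BlkD.inB (fun _ => 0)
      (BlkD.upd (BlkD.upd (BlkD.upd (fun _ => 21) 0 6) 2 1) 0 3)) :=
  BlkD.tree_sound (BlkD.pairOk_sound k20_21_6_1) (by decide) hn t20_21_6_1_1 _ _ (by decide +kernel)

/-- certificates of the pair `(6, 1)`, part 2 -/
def t20_21_6_1_2 : BlkD.Tr :=
  .L 4 5 [4, 4] [] [] 100000 0 0 888892 33333 0 44444 0 0 0 0

lemma s20_21_6_1_2 {n : ℕ} (hn : 6 ≤ n) : NoNd (d20_21_6_1.R : ℤ) d20_21_6_1.H n d20_21_6_1.a d20_21_6_1.b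
    (BlkD.inB (BlkD.upd (fun _ => 0) 0 4)
      (BlkD.upd (BlkD.upd (fun _ => 21) 0 6) 2 1)) :=
  BlkD.tree_sound (BlkD.pairOk_sound k20_21_6_1) (by decide) hn t20_21_6_1_2 _ _ (by decide +kernel)

/-- certificates of the pair `(6, 1)`, part 3 -/
def t20_21_6_1_3 : BlkD.Tr :=
  .E 1

lemma s20_21_6_1_3 {n : ℕ} (hn : 6 ≤ n) : NoNd (d20_21_6_1.R : ℤ) d20_21_6_1.H n d20_21_6_1.a d20_21_6_1.b
    (BlkD.inB (BlkD.upd (fun _ => 0) 2 2)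
      (BlkD.upd (fun _ => 21) 0 6)) :=
  BlkD.tree_sound (BlkD.pairOk_sound k20_21_6_1) (by decide) hn t20_21_6_1_3 _ _ (by decide +kernel)

/-- certificates of the pair `(6, 1)`, part 4 -/
def t20_21_6_1_4 : BlkD.Tr :=
  .E 0

lemma s20_21_6_1_4 {n : ℕ} (hn : 6 ≤ n) : NoNd (d20_21_6_1.R : ℤ) d20_21_6_1.H n d20_21_6_1.a d20_21_6_1.b
    (BlkD.inB (BlkD.upd (fun _ => 0) 0 7)
      (fun _ => 21)) :=
  BlkD.tree_sound (BlkD.pairOk_sound k20_21_6_1) (by decide) hn t20_21_6_1_4 _ _ (by decide +kernel)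

lemma pr20_21_6_1 {n : ℕ} (hn : 6 ≤ n) : NoPr ((20 : ℕ) : ℤ) ((21 : ℕ) : ℤ) n 6 1 :=
  BlkD.of_root (R := d20_21_6_1.R) (H := d20_21_6_1.H) (a := d20_21_6_1.a) (b := d20_21_6_1.b) (q := 4) (by decide) hn
    (BlkD.sp 0 6 (BlkD.sp 2 1 (BlkD.sp 0 3 (s20_21_6_1_1 hn) (s20_21_6_1_2 hn)) (s20_21_6_1_3 hn))
      (s20_21_6_1_4 hn))

/-- the numbers of the pair `(6, 2)`, `R = 20`, `H = 21` -/
def d20_21_6_2 : BlkD.Pd :=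
  ⟨20, 21, 4, 6, 2, 10, 2, 1, 2, 2, 8, 0, 0, 4, 6, 0, [0, 8, 16, 24, 28, 30, 32, 34, 36, 38, 40],
    [0, 6, 12, 18, 24, 30, 36, 40, 40, 40, 40], [⟨1, 1, 1, 4, 8, [0, 4], [0, 4]⟩, ⟨1, 1, 1, 4, 10,
    [0, 6], [0, 4]⟩, ⟨1, 1, 1, 6, 14, [0, 8], [0, 6]⟩]⟩

lemma k20_21_6_2 : BlkD.pairOk d20_21_6_2 = true := by decide +kernel

/-- certificates of the pair `(6, 2)`, part 1 -/
def t20_21_6_2_1 : BlkD.Tr :=
  .L 4 6 [4, 4, 4] [] [] 100000 0 0 1002224 24444 0 53333 12222 13333 33333 33333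

lemma s20_21_6_2_1 {n : ℕ} (hn : 6 ≤ n) : NoNd (d20_21_6_2.R : ℤ) d20_21_6_2.H n d20_21_6_2.a d20_21_6_2.b
    (BlkD.inB (fun _ => 0)
      (BlkD.upd (BlkD.upd (BlkD.upd (BlkD.upd (fun _ => 21) 0 6) 2 2) 0 3) 0 1)) :=
  BlkD.tree_sound (BlkD.pairOk_sound k20_21_6_2) (by decide) hn t20_21_6_2_1 _ _ (by decide +kernel)

/-- certificates of the pair `(6, 2)`, part 2 -/
def t20_21_6_2_2 : BlkD.Tr :=
  .L 4 6 [4, 4, 4] [] [] 100000 0 0 1002224 24444 0 53333 12222 13333 33333 33333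

lemma s20_21_6_2_2 {n : ℕ} (hn : 6 ≤ n) : NoNd (d20_21_6_2.R : ℤ) d20_21_6_2.H n d20_21_6_2.a d20_21_6_2.b
    (BlkD.inB (BlkD.upd (fun _ => 0) 0 2)
      (BlkD.upd (BlkD.upd (BlkD.upd (fun _ => 21) 0 6) 2 2) 0 3)) :=
  BlkD.tree_sound (BlkD.pairOk_sound k20_21_6_2) (by decide) hn t20_21_6_2_2 _ _ (by decide +kernel)

/-- certificates of the pair `(6, 2)`, part 3 -/
def t20_21_6_2_3 : BlkD.Tr :=
  .L 4 6 [4, 4, 4] [] [] 100000 0 0 1002224 24444 0 53333 12222 13333 33333 33333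

lemma s20_21_6_2_3 {n : ℕ} (hn : 6 ≤ n) : NoNd (d20_21_6_2.R : ℤ) d20_21_6_2.H n d20_21_6_2.a d20_21_6_2.b
    (BlkD.inB (BlkD.upd (fun _ => 0) 0 4)
      (BlkD.upd (BlkD.upd (fun _ => 21) 0 6) 2 2)) :=
  BlkD.tree_sound (BlkD.pairOk_sound k20_21_6_2) (by decide) hn t20_21_6_2_3 _ _ (by decide +kernel)

/-- certificates of the pair `(6, 2)`, part 4 -/
def t20_21_6_2_4 : BlkD.Tr :=
  .E 1

lemma s20_21_6_2_4 {n : ℕ} (hn : 6 ≤ n) : NoNd (d20_21_6_2.R : ℤ) d20_21_6_2.H n d20_21_6_2.a d20_21_6_2.b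
    (BlkD.inB (BlkD.upd (fun _ => 0) 2 3)
      (BlkD.upd (fun _ => 21) 0 6)) :=
  BlkD.tree_sound (BlkD.pairOk_sound k20_21_6_2) (by decide) hn t20_21_6_2_4 _ _ (by decide +kernel)

/-- certificates of the pair `(6, 2)`, part 5 -/
def t20_21_6_2_5 : BlkD.Tr :=
  .E 0

lemma s20_21_6_2_5 {n : ℕ} (hn : 6 ≤ n) : NoNd (d20_21_6_2.R : ℤ) d20_21_6_2.H n d20_21_6_2.a d20_21_6_2.b
    (BlkD.inB (BlkD.upd (fun _ => 0) 0 7)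
      (fun _ => 21)) :=
  BlkD.tree_sound (BlkD.pairOk_sound k20_21_6_2) (by decide) hn t20_21_6_2_5 _ _ (by decide +kernel)

lemma pr20_21_6_2 {n : ℕ} (hn : 6 ≤ n) : NoPr ((20 : ℕ) : ℤ) ((21 : ℕ) : ℤ) n 6 2 :=
  BlkD.of_root (R := d20_21_6_2.R) (H := d20_21_6_2.H) (a := d20_21_6_2.a) (b := d20_21_6_2.b) (q := 4) (by decide) hn
    (BlkD.sp 0 6 (BlkD.sp 2 2 (BlkD.sp 0 3 (BlkD.sp 0 1 (s20_21_6_2_1 hn) (s20_21_6_2_2 hn))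
      (s20_21_6_2_3 hn)) (s20_21_6_2_4 hn)) (s20_21_6_2_5 hn))

/-- the numbers of the pair `(6, 3)`, `R = 20`, `H = 21` -/
def d20_21_6_3 : BlkD.Pd :=
  ⟨20, 21, 4, 6, 3, 9, 3, 2, 3, 2, 10, 0, 4, 1, 8, 0, [0, 10, 20, 27, 30, 33, 36, 39, 42, 45], [0,
    8, 16, 21, 25, 29, 33, 37, 41, 45], [⟨1, 1, 1, 4, 8, [0, 4], [0, 4]⟩, ⟨1, 1, 1, 6, 12, [0, 6],
    [0, 6]⟩, ⟨1, 1, 1, 6, 14, [0, 8], [0, 6]⟩, ⟨2, 1, 1, 6, 22, [0, 10, 14], [0, 8]⟩]⟩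

lemma k20_21_6_3 : BlkD.pairOk d20_21_6_3 = true := by decide +kernel

/-- certificates of the pair `(6, 3)`, part 1 -/
def t20_21_6_3_1 : BlkD.Tr :=
  .L 5 6 [4, 4, 4, 5] [] [] 100000 85715 85715 600000 100000 0 100000 50000 0 0 21429

lemma s20_21_6_3_1 {n : ℕ} (hn : 6 ≤ n) : NoNd (d20_21_6_3.R : ℤ) d20_21_6_3.H n d20_21_6_3.a d20_21_6_3.b
    (BlkD.inB (fun _ => 0)
      (BlkD.upd (BlkD.upd (BlkD.upd (BlkD.upd (BlkD.upd (fun _ => 21) 0 6) 2 3) 0 3) 0 1) 0 0)) :=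
  BlkD.tree_sound (BlkD.pairOk_sound k20_21_6_3) (by decide) hn t20_21_6_3_1 _ _ (by decide +kernel)

/-- certificates of the pair `(6, 3)`, part 2 -/
def t20_21_6_3_2 : BlkD.Tr :=
  .L 5 6 [4, 4, 4, 5] [] [] 100000 85715 85715 600000 100000 0 100000 50000 0 0 21429

lemma s20_21_6_3_2 {n : ℕ} (hn : 6 ≤ n) : NoNd (d20_21_6_3.R : ℤ) d20_21_6_3.H n d20_21_6_3.a d20_21_6_3.b
    (BlkD.inB (BlkD.upd (fun _ => 0) 0 1)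
      (BlkD.upd (BlkD.upd (BlkD.upd (BlkD.upd (BlkD.upd (BlkD.upd (fun _ => 21) 0 6) 2 3) 0 3) 0 1) 1 10) 1 5)) :=
  BlkD.tree_sound (BlkD.pairOk_sound k20_21_6_3) (by decide) hn t20_21_6_3_2 _ _ (by decide +kernel)

/-- certificates of the pair `(6, 3)`, part 3 -/
def t20_21_6_3_3 : BlkD.Tr :=
  .L 5 6 [4, 4, 4, 5] [] [] 100000 85715 85715 600000 100000 0 100000 50000 0 0 21429

lemma s20_21_6_3_3 {n : ℕ} (hn : 6 ≤ n) : NoNd (d20_21_6_3.R : ℤ) d20_21_6_3.H n d20_21_6_3.a d20_21_6_3.b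
    (BlkD.inB (BlkD.upd (BlkD.upd (fun _ => 0) 0 1) 1 6)
      (BlkD.upd (BlkD.upd (BlkD.upd (BlkD.upd (BlkD.upd (fun _ => 21) 0 6) 2 3) 0 3) 0 1) 1 10)) :=
  BlkD.tree_sound (BlkD.pairOk_sound k20_21_6_3) (by decide) hn t20_21_6_3_3 _ _ (by decide +kernel)

/-- certificates of the pair `(6, 3)`, part 4 -/
def t20_21_6_3_4 : BlkD.Tr :=
  .L 5 6 [4, 4, 4, 5] [] [] 100000 85715 85715 600000 100000 0 100000 50000 0 0 21429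

lemma s20_21_6_3_4 {n : ℕ} (hn : 6 ≤ n) : NoNd (d20_21_6_3.R : ℤ) d20_21_6_3.H n d20_21_6_3.a d20_21_6_3.b
    (BlkD.inB (BlkD.upd (BlkD.upd (fun _ => 0) 0 1) 1 11)
      (BlkD.upd (BlkD.upd (BlkD.upd (BlkD.upd (fun _ => 21) 0 6) 2 3) 0 3) 0 1)) :=
  BlkD.tree_sound (BlkD.pairOk_sound k20_21_6_3) (by decide) hn t20_21_6_3_4 _ _ (by decide +kernel)

/-- certificates of the pair `(6, 3)`, part 5 -/
def t20_21_6_3_5 : BlkD.Tr :=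
  .L 5 6 [4, 4, 4, 5] [] [] 100000 25926 25925 925000 25000 0 25000 75000 0 22222 32407

lemma s20_21_6_3_5 {n : ℕ} (hn : 6 ≤ n) : NoNd (d20_21_6_3.R : ℤ) d20_21_6_3.H n d20_21_6_3.a d20_21_6_3.b
    (BlkD.inB (BlkD.upd (fun _ => 0) 0 2)
      (BlkD.upd (BlkD.upd (BlkD.upd (BlkD.upd (BlkD.upd (BlkD.upd (BlkD.upd (fun _ => 21) 0 6) 2 3) 0 3) 0 2) 1 19) 1 9) 1 4)) :=
  BlkD.tree_sound (BlkD.pairOk_sound k20_21_6_3) (by decide) hn t20_21_6_3_5 _ _ (by decide +kernel)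

/-- certificates of the pair `(6, 3)`, part 6 -/
def t20_21_6_3_6 : BlkD.Tr :=
  .S 1 7 (.S 1 6 (.L 5 6 [4, 4, 4, 5] [] [] 100000 26442 26441 1050548 25000 0 49452 55148 657
    19359 25055) (.L 5 6 [4, 4, 4, 5] [117, 114, 111, 107, 100, 90] [] 100000 25868 25867 1037504
    33333 0 62500 33333 4167 14063 17188)) (.L 5 6 [4, 4, 4, 5] [] [] 100000 22143 22143 989287
    5000 0 98571 49286 21429 10714 20000)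

lemma s20_21_6_3_6 {n : ℕ} (hn : 6 ≤ n) : NoNd (d20_21_6_3.R : ℤ) d20_21_6_3.H n d20_21_6_3.a d20_21_6_3.b
    (BlkD.inB (BlkD.upd (BlkD.upd (fun _ => 0) 0 2) 1 5)
      (BlkD.upd (BlkD.upd (BlkD.upd (BlkD.upd (BlkD.upd (BlkD.upd (fun _ => 21) 0 6) 2 3) 0 3) 0 2) 1 19) 1 9)) :=
  BlkD.tree_sound (BlkD.pairOk_sound k20_21_6_3) (by decide) hn t20_21_6_3_6 _ _ (by decide +kernel)

/-- certificates of the pair `(6, 3)`, part 7 -/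
def t20_21_6_3_7 : BlkD.Tr :=
  .E 0

lemma s20_21_6_3_7 {n : ℕ} (hn : 6 ≤ n) : NoNd (d20_21_6_3.R : ℤ) d20_21_6_3.H n d20_21_6_3.a d20_21_6_3.b
    (BlkD.inB (BlkD.upd (BlkD.upd (fun _ => 0) 0 2) 1 10)
      (BlkD.upd (BlkD.upd (BlkD.upd (BlkD.upd (BlkD.upd (fun _ => 21) 0 6) 2 3) 0 3) 0 2) 1 19)) :=
  BlkD.tree_sound (BlkD.pairOk_sound k20_21_6_3) (by decide) hn t20_21_6_3_7 _ _ (by decide +kernel)

/-- certificates of the pair `(6, 3)`, part 8 -/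
def t20_21_6_3_8 : BlkD.Tr :=
  .E 0

lemma s20_21_6_3_8 {n : ℕ} (hn : 6 ≤ n) : NoNd (d20_21_6_3.R : ℤ) d20_21_6_3.H n d20_21_6_3.a d20_21_6_3.b
    (BlkD.inB (BlkD.upd (BlkD.upd (fun _ => 0) 0 2) 1 20)
      (BlkD.upd (BlkD.upd (BlkD.upd (BlkD.upd (fun _ => 21) 0 6) 2 3) 0 3) 0 2)) :=
  BlkD.tree_sound (BlkD.pairOk_sound k20_21_6_3) (by decide) hn t20_21_6_3_8 _ _ (by decide +kernel)

/-- certificates of the pair `(6, 3)`, part 9 -/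
def t20_21_6_3_9 : BlkD.Tr :=
  .S 1 18 (.S 1 9 (.S 1 4 (.L 5 6 [4, 4, 4, 5] [] [] 100000 24260 24260 1027222 25000 0 40556 75000
    2222 22778 33333) (.S 1 7 (.S 1 6 (.S 1 5 (.L 5 6 [4, 4, 4, 5] [91, 87, 80, 70, 60, 50] []
    100000 28181 28180 1034913 33018 0 66036 40589 946 13565 20189) (.L 5 6 [4, 4, 4, 5] [110, 107,
    103, 96, 86, 76] [] 100000 19462 19462 1067704 16149 0 83851 45342 16149 9317 16149)) (.L 5 6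
    [4, 4, 4, 5] [131, 128, 125, 121, 114, 104] [] 100000 26801 26800 965996 17003 0 100000 41499
    2017 18444 17579)) (.E 0))) (.E 0)) (.E 0)

lemma s20_21_6_3_9 {n : ℕ} (hn : 6 ≤ n) : NoNd (d20_21_6_3.R : ℤ) d20_21_6_3.H n d20_21_6_3.a d20_21_6_3.b
    (BlkD.inB (BlkD.upd (BlkD.upd (fun _ => 0) 0 2) 0 3)
      (BlkD.upd (BlkD.upd (BlkD.upd (fun _ => 21) 0 6) 2 3) 0 3)) :=
  BlkD.tree_sound (BlkD.pairOk_sound k20_21_6_3) (by decide) hn t20_21_6_3_9 _ _ (by decide +kernel)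

/-- certificates of the pair `(6, 3)`, part 10 -/
def t20_21_6_3_10 : BlkD.Tr :=
  .S 0 5 (.S 0 4 (.S 1 17 (.S 1 8 (.S 1 4 (.S 1 2 (.L 5 6 [4, 4, 4, 5] [] [] 100000 25000 25000
    950000 50000 0 50000 50000 0 25000 25000) (.L 5 6 [4, 4, 4, 5] [] [] 100000 16430 16430 1115642
    21090 0 68483 51659 15640 19431 23697)) (.L 5 6 [4, 4, 4, 5] [] [] 100000 13079 13078 1112178
    3239 0 89053 44526 30381 21894 19434)) (.E 0)) (.E 0)) (.L 5 6 [4, 4, 4, 5] [] [] 100000 11905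
    11904 1121432 0 0 78571 71429 21429 21429 21429)) (.L 5 6 [4, 4, 4, 5] [] [] 100000 2646 2646
    1100001 0 0 50000 33333 34921 22222 34921)

lemma s20_21_6_3_10 {n : ℕ} (hn : 6 ≤ n) : NoNd (d20_21_6_3.R : ℤ) d20_21_6_3.H n d20_21_6_3.a d20_21_6_3.b
    (BlkD.inB (BlkD.upd (fun _ => 0) 0 4)
      (BlkD.upd (BlkD.upd (fun _ => 21) 0 6) 2 3)) :=
  BlkD.tree_sound (BlkD.pairOk_sound k20_21_6_3) (by decide) hn t20_21_6_3_10 _ _ (by decide +kernel)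

/-- certificates of the pair `(6, 3)`, part 11 -/
def t20_21_6_3_11 : BlkD.Tr :=
  .E 1

lemma s20_21_6_3_11 {n : ℕ} (hn : 6 ≤ n) : NoNd (d20_21_6_3.R : ℤ) d20_21_6_3.H n d20_21_6_3.a d20_21_6_3.b
    (BlkD.inB (BlkD.upd (fun _ => 0) 2 4)
      (BlkD.upd (fun _ => 21) 0 6)) :=
  BlkD.tree_sound (BlkD.pairOk_sound k20_21_6_3) (by decide) hn t20_21_6_3_11 _ _ (by decide +kernel)

/-- certificates of the pair `(6, 3)`, part 12 -/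
def t20_21_6_3_12 : BlkD.Tr :=
  .E 0

lemma s20_21_6_3_12 {n : ℕ} (hn : 6 ≤ n) : NoNd (d20_21_6_3.R : ℤ) d20_21_6_3.H n d20_21_6_3.a d20_21_6_3.b
    (BlkD.inB (BlkD.upd (fun _ => 0) 0 7)
      (fun _ => 21)) :=
  BlkD.tree_sound (BlkD.pairOk_sound k20_21_6_3) (by decide) hn t20_21_6_3_12 _ _ (by decide +kernel)

lemma pr20_21_6_3 {n : ℕ} (hn : 6 ≤ n) : NoPr ((20 : ℕ) : ℤ) ((21 : ℕ) : ℤ) n 6 3 :=
  BlkD.of_root (R := d20_21_6_3.R) (H := d20_21_6_3.H) (a := d20_21_6_3.a) (b := d20_21_6_3.b) (q := 4) (by decide) hn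
    (BlkD.sp 0 6 (BlkD.sp 2 3 (BlkD.sp 0 3 (BlkD.sp 0 1 (BlkD.sp 0 0 (s20_21_6_3_1 hn) (BlkD.sp 1
      10 (BlkD.sp 1 5 (s20_21_6_3_2 hn) (s20_21_6_3_3 hn)) (s20_21_6_3_4 hn))) (BlkD.sp 0 2
      (BlkD.sp 1 19 (BlkD.sp 1 9 (BlkD.sp 1 4 (s20_21_6_3_5 hn) (s20_21_6_3_6 hn)) (s20_21_6_3_7
      hn)) (s20_21_6_3_8 hn)) (s20_21_6_3_9 hn))) (s20_21_6_3_10 hn)) (s20_21_6_3_11 hn))
      (s20_21_6_3_12 hn))

end BlkC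

end Pool.Agent.Lib.MP_f04ccf_co
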