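import Pool.Agent.Lib.MP_f04ccf_co.M.BlkT

/-!
MP_f04ccf_co, block certificate, data `R = 20`, `H = 21`, part 10 (generated, helper99:
bd10.cpp, gen2.py).
-/

set_option autoImplicit false
set_option maxRecDepth 100000

namespace Pool.Agent.Lib.MP_f04ccf_co

namespace BlkC

/-- the numbers of the pair `(8, 5)`, `R = 20`, `H = 21` -/
def d20_21_8_5 : BlkD.Pd :=
  ⟨20, 21, 4, 8, 5, 5, 1, 3, 0, 4, 8, 0, 2, 2, 6, 0, [0, 8, 16, 20, 20, 20], [0, 6, 12, 16, 18,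
    20], [⟨1, 1, 1, 4, 8, [0, 4], [0, 4]⟩, ⟨1, 1, 1, 4, 14, [0, 8], [0, 6]⟩]⟩

lemma k20_21_8_5 : BlkD.pairOk d20_21_8_5 = true := by decide +kernel

/-- certificates of the pair `(8, 5)`, part 1 -/
def t20_21_8_5_1 : BlkD.Tr :=
  .L 7 9 [5, 3, 20, 20, 20, 20] [] [] 100000 1 1 1500000 66667 33333 100000 50000 0 0 0

lemma s20_21_8_5_1 {n : ℕ} (hn : 6 ≤ n) : NoNd (d20_21_8_5.R : ℤ) d20_21_8_5.H n d20_21_8_5.a d20_21_8_5.b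
    (BlkD.inB (fun _ => 0)
      (BlkD.upd (BlkD.upd (BlkD.upd (BlkD.upd (BlkD.upd (BlkD.upd (fun _ => 21) 0 8) 2 5) 0 4) 0 2) 0 1) 0 0)) :=
  BlkD.tree_sound (BlkD.pairOk_sound k20_21_8_5) (by decide) hn t20_21_8_5_1 _ _ (by decide +kernel)

/-- certificates of the pair `(8, 5)`, part 2 -/
def t20_21_8_5_2 : BlkD.Tr :=
  .L 7 9 [5, 3, 20, 20, 20, 20] [] [] 100000 1 1 1500000 66667 33333 100000 50000 0 0 0

lemma s20_21_8_5_2 {n : ℕ} (hn : 6 ≤ n) : NoNd (d20_21_8_5.R : ℤ) d20_21_8_5.H n d20_21_8_5.a d20_21_8_5.b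
    (BlkD.inB (BlkD.upd (fun _ => 0) 0 1)
      (BlkD.upd (BlkD.upd (BlkD.upd (BlkD.upd (BlkD.upd (BlkD.upd (BlkD.upd (fun _ => 21) 0 8) 2 5) 0 4) 0 2) 0 1) 1 10) 1 5)) :=
  BlkD.tree_sound (BlkD.pairOk_sound k20_21_8_5) (by decide) hn t20_21_8_5_2 _ _ (by decide +kernel)

/-- certificates of the pair `(8, 5)`, part 3 -/
def t20_21_8_5_3 : BlkD.Tr :=
  .L 7 9 [5, 3, 20, 20, 20, 20] [] [] 100000 1 1 1500000 66667 33333 100000 50000 0 0 0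

lemma s20_21_8_5_3 {n : ℕ} (hn : 6 ≤ n) : NoNd (d20_21_8_5.R : ℤ) d20_21_8_5.H n d20_21_8_5.a d20_21_8_5.b
    (BlkD.inB (BlkD.upd (BlkD.upd (fun _ => 0) 0 1) 1 6)
      (BlkD.upd (BlkD.upd (BlkD.upd (BlkD.upd (BlkD.upd (BlkD.upd (fun _ => 21) 0 8) 2 5) 0 4) 0 2) 0 1) 1 10)) :=
  BlkD.tree_sound (BlkD.pairOk_sound k20_21_8_5) (by decide) hn t20_21_8_5_3 _ _ (by decide +kernel)

/-- certificates of the pair `(8, 5)`, part 4 -/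
def t20_21_8_5_4 : BlkD.Tr :=
  .L 7 9 [5, 3, 20, 20, 20, 20] [] [] 100000 1 1 1500000 66667 33333 100000 50000 0 0 0

lemma s20_21_8_5_4 {n : ℕ} (hn : 6 ≤ n) : NoNd (d20_21_8_5.R : ℤ) d20_21_8_5.H n d20_21_8_5.a d20_21_8_5.b
    (BlkD.inB (BlkD.upd (BlkD.upd (fun _ => 0) 0 1) 1 11)
      (BlkD.upd (BlkD.upd (BlkD.upd (BlkD.upd (BlkD.upd (fun _ => 21) 0 8) 2 5) 0 4) 0 2) 0 1)) :=
  BlkD.tree_sound (BlkD.pairOk_sound k20_21_8_5) (by decide) hn t20_21_8_5_4 _ _ (by decide +kernel)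

/-- certificates of the pair `(8, 5)`, part 5 -/
def t20_21_8_5_5 : BlkD.Tr :=
  .L 7 9 [5, 3, 20, 20, 20, 20] [] [] 100000 1 1 1500000 66667 33333 100000 50000 0 0 0

lemma s20_21_8_5_5 {n : ℕ} (hn : 6 ≤ n) : NoNd (d20_21_8_5.R : ℤ) d20_21_8_5.H n d20_21_8_5.a d20_21_8_5.b
    (BlkD.inB (BlkD.upd (fun _ => 0) 0 2)
      (BlkD.upd (BlkD.upd (BlkD.upd (BlkD.upd (BlkD.upd (BlkD.upd (fun _ => 21) 0 8) 2 5) 0 4) 0 2) 1 10) 1 5)) :=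
  BlkD.tree_sound (BlkD.pairOk_sound k20_21_8_5) (by decide) hn t20_21_8_5_5 _ _ (by decide +kernel)

/-- certificates of the pair `(8, 5)`, part 6 -/
def t20_21_8_5_6 : BlkD.Tr :=
  .L 7 9 [5, 3, 20, 20, 20, 20] [] [] 100000 1 1 1500000 66667 33333 100000 50000 0 0 0

lemma s20_21_8_5_6 {n : ℕ} (hn : 6 ≤ n) : NoNd (d20_21_8_5.R : ℤ) d20_21_8_5.H n d20_21_8_5.a d20_21_8_5.b
    (BlkD.inB (BlkD.upd (BlkD.upd (fun _ => 0) 0 2) 1 6)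
      (BlkD.upd (BlkD.upd (BlkD.upd (BlkD.upd (BlkD.upd (fun _ => 21) 0 8) 2 5) 0 4) 0 2) 1 10)) :=
  BlkD.tree_sound (BlkD.pairOk_sound k20_21_8_5) (by decide) hn t20_21_8_5_6 _ _ (by decide +kernel)

/-- certificates of the pair `(8, 5)`, part 7 -/
def t20_21_8_5_7 : BlkD.Tr :=
  .L 7 9 [5, 3, 20, 20, 20, 20] [] [] 100000 1 1 1500000 66667 33333 100000 50000 0 0 0

lemma s20_21_8_5_7 {n : ℕ} (hn : 6 ≤ n) : NoNd (d20_21_8_5.R : ℤ) d20_21_8_5.H n d20_21_8_5.a d20_21_8_5.b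
    (BlkD.inB (BlkD.upd (BlkD.upd (fun _ => 0) 0 2) 1 11)
      (BlkD.upd (BlkD.upd (BlkD.upd (BlkD.upd (fun _ => 21) 0 8) 2 5) 0 4) 0 2)) :=
  BlkD.tree_sound (BlkD.pairOk_sound k20_21_8_5) (by decide) hn t20_21_8_5_7 _ _ (by decide +kernel)

/-- certificates of the pair `(8, 5)`, part 8 -/
def t20_21_8_5_8 : BlkD.Tr :=
  .L 7 9 [5, 3, 20, 20, 20, 20] [] [] 100000 1 1 1500000 66667 33333 100000 50000 0 0 0

lemma s20_21_8_5_8 {n : ℕ} (hn : 6 ≤ n) : NoNd (d20_21_8_5.R : ℤ) d20_21_8_5.H n d20_21_8_5.a d20_21_8_5.b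
    (BlkD.inB (BlkD.upd (fun _ => 0) 0 3)
      (BlkD.upd (BlkD.upd (BlkD.upd (BlkD.upd (BlkD.upd (BlkD.upd (fun _ => 21) 0 8) 2 5) 0 4) 0 3) 1 10) 1 5)) :=
  BlkD.tree_sound (BlkD.pairOk_sound k20_21_8_5) (by decide) hn t20_21_8_5_8 _ _ (by decide +kernel)

/-- certificates of the pair `(8, 5)`, part 9 -/
def t20_21_8_5_9 : BlkD.Tr :=
  .L 7 9 [5, 3, 20, 20, 20, 20] [] [] 100000 1 1 1500000 66667 33333 100000 50000 0 0 0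

lemma s20_21_8_5_9 {n : ℕ} (hn : 6 ≤ n) : NoNd (d20_21_8_5.R : ℤ) d20_21_8_5.H n d20_21_8_5.a d20_21_8_5.b
    (BlkD.inB (BlkD.upd (BlkD.upd (fun _ => 0) 0 3) 1 6)
      (BlkD.upd (BlkD.upd (BlkD.upd (BlkD.upd (BlkD.upd (BlkD.upd (fun _ => 21) 0 8) 2 5) 0 4) 0 3) 1 10) 1 8)) :=
  BlkD.tree_sound (BlkD.pairOk_sound k20_21_8_5) (by decide) hn t20_21_8_5_9 _ _ (by decide +kernel)

/-- certificates of the pair `(8, 5)`, part 10 -/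
def t20_21_8_5_10 : BlkD.Tr :=
  .L 7 9 [5, 3, 20, 20, 20, 20] [] [] 100000 1 1 1500000 66667 33333 100000 50000 0 0 0

lemma s20_21_8_5_10 {n : ℕ} (hn : 6 ≤ n) : NoNd (d20_21_8_5.R : ℤ) d20_21_8_5.H n d20_21_8_5.a d20_21_8_5.b
    (BlkD.inB (BlkD.upd (BlkD.upd (BlkD.upd (fun _ => 0) 0 3) 1 6) 1 9)
      (BlkD.upd (BlkD.upd (BlkD.upd (BlkD.upd (BlkD.upd (fun _ => 21) 0 8) 2 5) 0 4) 0 3) 1 10)) :=
  BlkD.tree_sound (BlkD.pairOk_sound k20_21_8_5) (by decide) hn t20_21_8_5_10 _ _ (by decide +kernel)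

/-- certificates of the pair `(8, 5)`, part 11 -/
def t20_21_8_5_11 : BlkD.Tr :=
  .L 7 9 [5, 3, 20, 20, 20, 20] [] [] 100000 1 1 1500000 66667 33333 100000 50000 0 0 0

lemma s20_21_8_5_11 {n : ℕ} (hn : 6 ≤ n) : NoNd (d20_21_8_5.R : ℤ) d20_21_8_5.H n d20_21_8_5.a d20_21_8_5.b
    (BlkD.inB (BlkD.upd (BlkD.upd (fun _ => 0) 0 3) 1 11)
      (BlkD.upd (BlkD.upd (BlkD.upd (BlkD.upd (fun _ => 21) 0 8) 2 5) 0 4) 0 3)) :=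
  BlkD.tree_sound (BlkD.pairOk_sound k20_21_8_5) (by decide) hn t20_21_8_5_11 _ _ (by decide +kernel)

/-- certificates of the pair `(8, 5)`, part 12 -/
def t20_21_8_5_12 : BlkD.Tr :=
  .L 7 9 [5, 3, 20, 20, 20, 20] [] [] 100000 1 1 1500000 66667 33333 100000 50000 0 0 0

lemma s20_21_8_5_12 {n : ℕ} (hn : 6 ≤ n) : NoNd (d20_21_8_5.R : ℤ) d20_21_8_5.H n d20_21_8_5.a d20_21_8_5.b
    (BlkD.inB (BlkD.upd (BlkD.upd (fun _ => 0) 0 3) 0 4)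
      (BlkD.upd (BlkD.upd (BlkD.upd (BlkD.upd (BlkD.upd (fun _ => 21) 0 8) 2 5) 0 4) 1 10) 1 5)) :=
  BlkD.tree_sound (BlkD.pairOk_sound k20_21_8_5) (by decide) hn t20_21_8_5_12 _ _ (by decide +kernel)

/-- certificates of the pair `(8, 5)`, part 13 -/
def t20_21_8_5_13 : BlkD.Tr :=
  .L 7 9 [5, 3, 20, 20, 20, 20] [] [] 100000 1 1 1500000 66667 33333 100000 50000 0 0 0

lemma s20_21_8_5_13 {n : ℕ} (hn : 6 ≤ n) : NoNd (d20_21_8_5.R : ℤ) d20_21_8_5.H n d20_21_8_5.a d20_21_8_5.b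
    (BlkD.inB (BlkD.upd (BlkD.upd (BlkD.upd (fun _ => 0) 0 3) 0 4) 1 6)
      (BlkD.upd (BlkD.upd (BlkD.upd (BlkD.upd (BlkD.upd (BlkD.upd (fun _ => 21) 0 8) 2 5) 0 4) 1 10) 1 8) 1 7)) :=
  BlkD.tree_sound (BlkD.pairOk_sound k20_21_8_5) (by decide) hn t20_21_8_5_13 _ _ (by decide +kernel)

/-- certificates of the pair `(8, 5)`, part 14 -/
def t20_21_8_5_14 : BlkD.Tr :=
  .L 7 9 [5, 3, 20, 20, 20, 20] [182, 182, 182, 178, 170, 162] [] 100000 1 1 1500000 66667 33333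
    100000 50000 0 0 0

lemma s20_21_8_5_14 {n : ℕ} (hn : 6 ≤ n) : NoNd (d20_21_8_5.R : ℤ) d20_21_8_5.H n d20_21_8_5.a d20_21_8_5.b
    (BlkD.inB (BlkD.upd (BlkD.upd (BlkD.upd (BlkD.upd (fun _ => 0) 0 3) 0 4) 1 6) 1 8)
      (BlkD.upd (BlkD.upd (BlkD.upd (BlkD.upd (BlkD.upd (fun _ => 21) 0 8) 2 5) 0 4) 1 10) 1 8)) :=
  BlkD.tree_sound (BlkD.pairOk_sound k20_21_8_5) (by decide) hn t20_21_8_5_14 _ _ (by decide +kernel)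

/-- certificates of the pair `(8, 5)`, part 15 -/
def t20_21_8_5_15 : BlkD.Tr :=
  .L 7 9 [5, 3, 20, 20, 20, 20] [] [] 100000 1 1 1500000 66667 33333 100000 50000 0 0 0

lemma s20_21_8_5_15 {n : ℕ} (hn : 6 ≤ n) : NoNd (d20_21_8_5.R : ℤ) d20_21_8_5.H n d20_21_8_5.a d20_21_8_5.b
    (BlkD.inB (BlkD.upd (BlkD.upd (BlkD.upd (BlkD.upd (fun _ => 0) 0 3) 0 4) 1 6) 1 9)
      (BlkD.upd (BlkD.upd (BlkD.upd (BlkD.upd (fun _ => 21) 0 8) 2 5) 0 4) 1 10)) :=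
  BlkD.tree_sound (BlkD.pairOk_sound k20_21_8_5) (by decide) hn t20_21_8_5_15 _ _ (by decide +kernel)

/-- certificates of the pair `(8, 5)`, part 16 -/
def t20_21_8_5_16 : BlkD.Tr :=
  .L 7 9 [5, 3, 20, 20, 20, 20] [] [] 100000 1 1 1500000 66667 33333 100000 50000 0 0 0

lemma s20_21_8_5_16 {n : ℕ} (hn : 6 ≤ n) : NoNd (d20_21_8_5.R : ℤ) d20_21_8_5.H n d20_21_8_5.a d20_21_8_5.b
    (BlkD.inB (BlkD.upd (BlkD.upd (BlkD.upd (fun _ => 0) 0 3) 0 4) 1 11)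
      (BlkD.upd (BlkD.upd (BlkD.upd (fun _ => 21) 0 8) 2 5) 0 4)) :=
  BlkD.tree_sound (BlkD.pairOk_sound k20_21_8_5) (by decide) hn t20_21_8_5_16 _ _ (by decide +kernel)

/-- certificates of the pair `(8, 5)`, part 17 -/
def t20_21_8_5_17 : BlkD.Tr :=
  .L 7 9 [5, 3, 20, 20, 20, 20] [] [] 100000 1 1 1533334 66667 33333 66667 66667 0 0 0

lemma s20_21_8_5_17 {n : ℕ} (hn : 6 ≤ n) : NoNd (d20_21_8_5.R : ℤ) d20_21_8_5.H n d20_21_8_5.a d20_21_8_5.b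
    (BlkD.inB (BlkD.upd (fun _ => 0) 0 5)
      (BlkD.upd (BlkD.upd (BlkD.upd (BlkD.upd (BlkD.upd (BlkD.upd (BlkD.upd (fun _ => 21) 0 8) 2 5) 0 6) 0 5) 1 16) 1 8) 1 4)) :=
  BlkD.tree_sound (BlkD.pairOk_sound k20_21_8_5) (by decide) hn t20_21_8_5_17 _ _ (by decide +kernel)

/-- certificates of the pair `(8, 5)`, part 18 -/
def t20_21_8_5_18 : BlkD.Tr :=
  .S 1 5 (.S 2 2 (.L 7 9 [5, 3, 20, 20, 20, 20] [128, 120, 112, 96, 84, 70] [] 100000 0 0 1500000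
    50000 50000 50000 75000 0 0 0) (.L 5 5 [4, 4, 20, 20, 20, 20] [128, 120, 112, 96, 84, 70] []
    100000 0 0 1555000 35000 5000 95000 65000 0 0 0)) (.S 2 2 (.L 5 5 [4, 4, 20, 20, 20, 20] [152,
    148, 140, 132, 116, 104] [] 100000 80000 80000 1480000 40000 40000 80000 70000 0 0 0) (.S 2 4
    (.S 2 3 (.S 3 7 (.S 3 3 (.L 5 5 [4, 4, 20, 20, 20, 20] [152, 148, 140, 132, 116, 104] [] 100000
    0 0 1575000 25000 25000 50000 25000 0 0 0) (.S 3 5 (.S 3 4 (.L 4 4 [4, 5, 20, 20, 20, 20] [152,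
    148, 140, 132, 116, 104] [84, 78, 62, 50, 36, 0] 100000 50000 50000 1500000 50000 0 100000
    50000 0 0 0) (.L 4 4 [4, 5, 20, 20, 20, 20] [152, 148, 140, 132, 116, 104] [104, 98, 92, 76,
    64, 50] 100000 0 0 1500000 40000 0 100000 100000 0 0 0)) (.L 4 4 [4, 5, 20, 20, 20, 20] [152,
    148, 140, 132, 116, 104] [] 100000 0 0 0 0 0 0 0 0 0 0))) (.E 1)) (.L 4 4 [4, 5, 20, 20, 20,
    20] [152, 148, 140, 132, 116, 104] [] 100000 50000 50000 1500000 50000 0 100000 50000 0 0 0))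
    (.L 4 4 [4, 5, 20, 20, 20, 20] [152, 148, 140, 132, 116, 104] [] 100000 0 0 1566669 33333 0
    66667 33333 0 0 0)))

lemma s20_21_8_5_18 {n : ℕ} (hn : 6 ≤ n) : NoNd (d20_21_8_5.R : ℤ) d20_21_8_5.H n d20_21_8_5.a d20_21_8_5.b
    (BlkD.inB (BlkD.upd (BlkD.upd (fun _ => 0) 0 5) 1 5)
      (BlkD.upd (BlkD.upd (BlkD.upd (BlkD.upd (BlkD.upd (BlkD.upd (BlkD.upd (fun _ => 21) 0 8) 2 5) 0 6) 0 5) 1 16) 1 8) 1 6)) :=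
  BlkD.tree_sound (BlkD.pairOk_sound k20_21_8_5) (by decide) hn t20_21_8_5_18 _ _ (by decide +kernel)

/-- certificates of the pair `(8, 5)`, part 19 -/
def t20_21_8_5_19 : BlkD.Tr :=
  .S 1 7 (.S 2 2 (.L 4 4 [4, 5, 20, 20, 20, 20] [174, 174, 170, 162, 154, 138] [] 100000 100000
    100000 1450000 50000 25000 100000 75000 0 0 0) (.L 4 4 [4, 5, 20, 20, 20, 20] [174, 174, 170,
    162, 154, 138] [] 100000 0 0 1580000 40000 0 100000 40000 0 0 0)) (.L 5 5 [4, 4, 20, 20, 20,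
    20] [198, 198, 198, 194, 186, 178] [] 100000 0 0 1550000 50000 0 100000 25000 0 0 0)

lemma s20_21_8_5_19 {n : ℕ} (hn : 6 ≤ n) : NoNd (d20_21_8_5.R : ℤ) d20_21_8_5.H n d20_21_8_5.a d20_21_8_5.b
    (BlkD.inB (BlkD.upd (BlkD.upd (BlkD.upd (fun _ => 0) 0 5) 1 5) 1 7)
      (BlkD.upd (BlkD.upd (BlkD.upd (BlkD.upd (BlkD.upd (BlkD.upd (fun _ => 21) 0 8) 2 5) 0 6) 0 5) 1 16) 1 8)) :=
  BlkD.tree_sound (BlkD.pairOk_sound k20_21_8_5) (by decide) hn t20_21_8_5_19 _ _ (by decide +kernel)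

/-- certificates of the pair `(8, 5)`, part 20 -/
def t20_21_8_5_20 : BlkD.Tr :=
  .L 5 5 [4, 4, 20, 20, 20, 20] [] [] 100000 50000 50000 1500000 50000 0 100000 50000 0 0 0

lemma s20_21_8_5_20 {n : ℕ} (hn : 6 ≤ n) : NoNd (d20_21_8_5.R : ℤ) d20_21_8_5.H n d20_21_8_5.a d20_21_8_5.b
    (BlkD.inB (BlkD.upd (BlkD.upd (fun _ => 0) 0 5) 1 9)
      (BlkD.upd (BlkD.upd (BlkD.upd (BlkD.upd (BlkD.upd (fun _ => 21) 0 8) 2 5) 0 6) 0 5) 1 16)) :=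
  BlkD.tree_sound (BlkD.pairOk_sound k20_21_8_5) (by decide) hn t20_21_8_5_20 _ _ (by decide +kernel)

/-- certificates of the pair `(8, 5)`, part 21 -/
def t20_21_8_5_21 : BlkD.Tr :=
  .E 0

lemma s20_21_8_5_21 {n : ℕ} (hn : 6 ≤ n) : NoNd (d20_21_8_5.R : ℤ) d20_21_8_5.H n d20_21_8_5.a d20_21_8_5.b
    (BlkD.inB (BlkD.upd (BlkD.upd (fun _ => 0) 0 5) 1 17)
      (BlkD.upd (BlkD.upd (BlkD.upd (BlkD.upd (fun _ => 21) 0 8) 2 5) 0 6) 0 5)) :=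
  BlkD.tree_sound (BlkD.pairOk_sound k20_21_8_5) (by decide) hn t20_21_8_5_21 _ _ (by decide +kernel)

/-- certificates of the pair `(8, 5)`, part 22 -/
def t20_21_8_5_22 : BlkD.Tr :=
  .S 1 15 (.S 1 7 (.S 1 3 (.L 5 5 [4, 4, 20, 20, 20, 20] [] [] 100000 1 1 1542857 42857 14286 57143
    42857 0 0 0) (.S 1 5 (.S 1 4 (.S 2 2 (.L 5 5 [4, 4, 20, 20, 20, 20] [110, 102, 86, 74, 60, 0]
    [] 100000 0 0 1514288 28571 42857 57143 71429 0 0 0) (.L 5 5 [4, 4, 20, 20, 20, 20] [110, 102,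
    86, 74, 60, 0] [] 100000 0 0 1568422 36842 10526 68421 63158 0 0 0)) (.S 2 2 (.L 5 5 [4, 4, 20,
    20, 20, 20] [138, 130, 122, 106, 94, 80] [] 100000 6666 6666 1540001 20000 53333 60000 80000 0
    0 0) (.S 2 4 (.S 2 3 (.L 5 5 [4, 4, 20, 20, 20, 20] [138, 130, 122, 106, 94, 80] [] 100000 0 0
    1592309 30769 15385 65385 53846 0 0 0) (.L 5 5 [4, 4, 20, 20, 20, 20] [138, 130, 122, 106, 94,
    80] [] 100000 0 0 1558824 35294 5882 67647 64706 0 0 0)) (.L 5 5 [4, 4, 20, 20, 20, 20] [138,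
    130, 122, 106, 94, 80] [] 100000 0 0 1560000 40000 0 60000 0 0 0 0)))) (.S 1 6 (.L 5 5 [4, 4,
    20, 20, 20, 20] [164, 160, 152, 144, 128, 116] [] 100000 0 0 1590000 30000 10000 100000 40000 0
    0 0) (.L 5 5 [4, 4, 20, 20, 20, 20] [188, 188, 184, 176, 168, 152] [] 100000 0 0 1547620 38095
    9524 100000 45238 0 0 0)))) (.L 5 5 [4, 4, 20, 20, 20, 20] [] [] 100000 0 0 1566669 33333 0
    100000 33333 0 0 0)) (.E 0)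

lemma s20_21_8_5_22 {n : ℕ} (hn : 6 ≤ n) : NoNd (d20_21_8_5.R : ℤ) d20_21_8_5.H n d20_21_8_5.a d20_21_8_5.b
    (BlkD.inB (BlkD.upd (BlkD.upd (fun _ => 0) 0 5) 0 6)
      (BlkD.upd (BlkD.upd (BlkD.upd (fun _ => 21) 0 8) 2 5) 0 6)) :=
  BlkD.tree_sound (BlkD.pairOk_sound k20_21_8_5) (by decide) hn t20_21_8_5_22 _ _ (by decide +kernel)

/-- certificates of the pair `(8, 5)`, part 23 -/
def t20_21_8_5_23 : BlkD.Tr :=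
  .S 0 7 (.S 1 14 (.S 1 7 (.S 1 3 (.L 5 5 [4, 4, 20, 20, 20, 20] [] [] 100000 0 0 1550000 25000
    25000 100000 75000 0 0 0) (.S 1 5 (.S 1 4 (.L 5 5 [4, 4, 20, 20, 20, 20] [118, 110, 94, 82, 68,
    0] [] 100000 1 1 1582353 35294 11765 58824 52941 0 0 0) (.L 5 5 [4, 4, 20, 20, 20, 20] [148,
    140, 132, 116, 104, 90] [] 100000 1 1 1529412 35294 11765 100000 64706 0 0 0)) (.L 5 5 [4, 4,
    20, 20, 20, 20] [] [] 100000 0 0 1542859 28571 0 100000 33333 0 0 0))) (.E 0)) (.E 0)) (.L 5 5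
    [4, 4, 20, 20, 20, 20] [] [] 100000 0 0 1560000 0 40000 50000 46667 0 0 0)

lemma s20_21_8_5_23 {n : ℕ} (hn : 6 ≤ n) : NoNd (d20_21_8_5.R : ℤ) d20_21_8_5.H n d20_21_8_5.a d20_21_8_5.b
    (BlkD.inB (BlkD.upd (BlkD.upd (fun _ => 0) 0 5) 0 7)
      (BlkD.upd (BlkD.upd (fun _ => 21) 0 8) 2 5)) :=
  BlkD.tree_sound (BlkD.pairOk_sound k20_21_8_5) (by decide) hn t20_21_8_5_23 _ _ (by decide +kernel)

/-- certificates of the pair `(8, 5)`, part 24 -/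
def t20_21_8_5_24 : BlkD.Tr :=
  .E 1

lemma s20_21_8_5_24 {n : ℕ} (hn : 6 ≤ n) : NoNd (d20_21_8_5.R : ℤ) d20_21_8_5.H n d20_21_8_5.a d20_21_8_5.b
    (BlkD.inB (BlkD.upd (fun _ => 0) 2 6)
      (BlkD.upd (fun _ => 21) 0 8)) :=
  BlkD.tree_sound (BlkD.pairOk_sound k20_21_8_5) (by decide) hn t20_21_8_5_24 _ _ (by decide +kernel)

/-- certificates of the pair `(8, 5)`, part 25 -/
def t20_21_8_5_25 : BlkD.Tr :=
  .E 0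

lemma s20_21_8_5_25 {n : ℕ} (hn : 6 ≤ n) : NoNd (d20_21_8_5.R : ℤ) d20_21_8_5.H n d20_21_8_5.a d20_21_8_5.b
    (BlkD.inB (BlkD.upd (fun _ => 0) 0 9)
      (fun _ => 21)) :=
  BlkD.tree_sound (BlkD.pairOk_sound k20_21_8_5) (by decide) hn t20_21_8_5_25 _ _ (by decide +kernel)

lemma pr20_21_8_5 {n : ℕ} (hn : 6 ≤ n) : NoPr ((20 : ℕ) : ℤ) ((21 : ℕ) : ℤ) n 8 5 :=
  BlkD.of_root (R := d20_21_8_5.R) (H := d20_21_8_5.H) (a := d20_21_8_5.a) (b := d20_21_8_5.b) (q := 4) (by decide) hn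
    (BlkD.sp 0 8 (BlkD.sp 2 5 (BlkD.sp 0 4 (BlkD.sp 0 2 (BlkD.sp 0 1 (BlkD.sp 0 0 (s20_21_8_5_1 hn)
      (BlkD.sp 1 10 (BlkD.sp 1 5 (s20_21_8_5_2 hn) (s20_21_8_5_3 hn)) (s20_21_8_5_4 hn))) (BlkD.sp
      1 10 (BlkD.sp 1 5 (s20_21_8_5_5 hn) (s20_21_8_5_6 hn)) (s20_21_8_5_7 hn))) (BlkD.sp 0 3
      (BlkD.sp 1 10 (BlkD.sp 1 5 (s20_21_8_5_8 hn) (BlkD.sp 1 8 (s20_21_8_5_9 hn) (s20_21_8_5_10
      hn))) (s20_21_8_5_11 hn)) (BlkD.sp 1 10 (BlkD.sp 1 5 (s20_21_8_5_12 hn) (BlkD.sp 1 8 (BlkD.sp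
      1 7 (s20_21_8_5_13 hn) (s20_21_8_5_14 hn)) (s20_21_8_5_15 hn))) (s20_21_8_5_16 hn))))
      (BlkD.sp 0 6 (BlkD.sp 0 5 (BlkD.sp 1 16 (BlkD.sp 1 8 (BlkD.sp 1 4 (s20_21_8_5_17 hn) (BlkD.sp
      1 6 (s20_21_8_5_18 hn) (s20_21_8_5_19 hn))) (s20_21_8_5_20 hn)) (s20_21_8_5_21 hn))
      (s20_21_8_5_22 hn)) (s20_21_8_5_23 hn))) (s20_21_8_5_24 hn)) (s20_21_8_5_25 hn))

end BlkC

end Pool.Agent.Lib.MP_f04ccf_co
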