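import Pool.Agent.Lib.MP_f04ccf_co.M.BlkT

/-!
MP_f04ccf_co, block certificate, data `R = 20`, `H = 21`, part 11 (generated, helper99:
bd10.cpp, gen2.py).
-/

set_option autoImplicit false
set_option maxRecDepth 100000

namespace Pool.Agent.Lib.MP_f04ccf_co

namespace BlkC

/-- the numbers of the pair `(8, 6)`, `R = 20`, `H = 21` -/
def d20_21_8_6 : BlkD.Pd :=
  ⟨20, 21, 4, 8, 6, 4, 0, 4, 0, 4, 4, 0, 0, 4, 4, 0, [0, 4, 8, 12, 16], [0, 4, 8, 12, 16], [⟨1, 1,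
    1, 4, 8, [0, 4], [0, 4]⟩]⟩

lemma k20_21_8_6 : BlkD.pairOk d20_21_8_6 = true := by decide +kernel

/-- certificates of the pair `(8, 6)`, part 1 -/
def t20_21_8_6_1 : BlkD.Tr :=
  .L 4 4 [4, 20, 20, 20, 20, 20, 20] [] [] 100000 0 0 1600000 100000 50000 100000 100000 0 0 0

lemma s20_21_8_6_1 {n : ℕ} (hn : 6 ≤ n) : NoNd (d20_21_8_6.R : ℤ) d20_21_8_6.H n d20_21_8_6.a d20_21_8_6.b
    (BlkD.inB (fun _ => 0)
      (BlkD.upd (BlkD.upd (BlkD.upd (BlkD.upd (BlkD.upd (BlkD.upd (fun _ => 21) 0 8) 2 6) 0 4) 0 2) 0 1) 0 0)) :=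
  BlkD.tree_sound (BlkD.pairOk_sound k20_21_8_6) (by decide) hn t20_21_8_6_1 _ _ (by decide +kernel)

/-- certificates of the pair `(8, 6)`, part 2 -/
def t20_21_8_6_2 : BlkD.Tr :=
  .L 4 4 [4, 20, 20, 20, 20, 20, 20] [] [] 100000 0 0 1600000 100000 50000 100000 100000 0 0 0

lemma s20_21_8_6_2 {n : ℕ} (hn : 6 ≤ n) : NoNd (d20_21_8_6.R : ℤ) d20_21_8_6.H n d20_21_8_6.a d20_21_8_6.b
    (BlkD.inB (BlkD.upd (fun _ => 0) 0 1)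
      (BlkD.upd (BlkD.upd (BlkD.upd (BlkD.upd (BlkD.upd (BlkD.upd (BlkD.upd (fun _ => 21) 0 8) 2 6) 0 4) 0 2) 0 1) 1 10) 1 5)) :=
  BlkD.tree_sound (BlkD.pairOk_sound k20_21_8_6) (by decide) hn t20_21_8_6_2 _ _ (by decide +kernel)

/-- certificates of the pair `(8, 6)`, part 3 -/
def t20_21_8_6_3 : BlkD.Tr :=
  .L 4 4 [4, 20, 20, 20, 20, 20, 20] [] [] 100000 0 0 1600000 100000 50000 100000 100000 0 0 0

lemma s20_21_8_6_3 {n : ℕ} (hn : 6 ≤ n) : NoNd (d20_21_8_6.R : ℤ) d20_21_8_6.H n d20_21_8_6.a d20_21_8_6.b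
    (BlkD.inB (BlkD.upd (BlkD.upd (fun _ => 0) 0 1) 1 6)
      (BlkD.upd (BlkD.upd (BlkD.upd (BlkD.upd (BlkD.upd (BlkD.upd (fun _ => 21) 0 8) 2 6) 0 4) 0 2) 0 1) 1 10)) :=
  BlkD.tree_sound (BlkD.pairOk_sound k20_21_8_6) (by decide) hn t20_21_8_6_3 _ _ (by decide +kernel)

/-- certificates of the pair `(8, 6)`, part 4 -/
def t20_21_8_6_4 : BlkD.Tr :=
  .L 4 4 [4, 20, 20, 20, 20, 20, 20] [] [] 100000 0 0 1600000 100000 50000 100000 100000 0 0 0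

lemma s20_21_8_6_4 {n : ℕ} (hn : 6 ≤ n) : NoNd (d20_21_8_6.R : ℤ) d20_21_8_6.H n d20_21_8_6.a d20_21_8_6.b
    (BlkD.inB (BlkD.upd (BlkD.upd (fun _ => 0) 0 1) 1 11)
      (BlkD.upd (BlkD.upd (BlkD.upd (BlkD.upd (BlkD.upd (fun _ => 21) 0 8) 2 6) 0 4) 0 2) 0 1)) :=
  BlkD.tree_sound (BlkD.pairOk_sound k20_21_8_6) (by decide) hn t20_21_8_6_4 _ _ (by decide +kernel)

/-- certificates of the pair `(8, 6)`, part 5 -/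
def t20_21_8_6_5 : BlkD.Tr :=
  .L 4 4 [4, 20, 20, 20, 20, 20, 20] [] [] 100000 0 0 1600000 100000 50000 100000 100000 0 0 0

lemma s20_21_8_6_5 {n : ℕ} (hn : 6 ≤ n) : NoNd (d20_21_8_6.R : ℤ) d20_21_8_6.H n d20_21_8_6.a d20_21_8_6.b
    (BlkD.inB (BlkD.upd (fun _ => 0) 0 2)
      (BlkD.upd (BlkD.upd (BlkD.upd (BlkD.upd (BlkD.upd (BlkD.upd (fun _ => 21) 0 8) 2 6) 0 4) 0 2) 1 10) 1 5)) :=
  BlkD.tree_sound (BlkD.pairOk_sound k20_21_8_6) (by decide) hn t20_21_8_6_5 _ _ (by decide +kernel)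

/-- certificates of the pair `(8, 6)`, part 6 -/
def t20_21_8_6_6 : BlkD.Tr :=
  .L 4 4 [4, 20, 20, 20, 20, 20, 20] [] [] 100000 0 0 1600000 100000 50000 100000 100000 0 0 0

lemma s20_21_8_6_6 {n : ℕ} (hn : 6 ≤ n) : NoNd (d20_21_8_6.R : ℤ) d20_21_8_6.H n d20_21_8_6.a d20_21_8_6.b
    (BlkD.inB (BlkD.upd (BlkD.upd (fun _ => 0) 0 2) 1 6)
      (BlkD.upd (BlkD.upd (BlkD.upd (BlkD.upd (BlkD.upd (fun _ => 21) 0 8) 2 6) 0 4) 0 2) 1 10)) :=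
  BlkD.tree_sound (BlkD.pairOk_sound k20_21_8_6) (by decide) hn t20_21_8_6_6 _ _ (by decide +kernel)

/-- certificates of the pair `(8, 6)`, part 7 -/
def t20_21_8_6_7 : BlkD.Tr :=
  .L 4 4 [4, 20, 20, 20, 20, 20, 20] [] [] 100000 0 0 1600000 100000 50000 100000 100000 0 0 0

lemma s20_21_8_6_7 {n : ℕ} (hn : 6 ≤ n) : NoNd (d20_21_8_6.R : ℤ) d20_21_8_6.H n d20_21_8_6.a d20_21_8_6.b
    (BlkD.inB (BlkD.upd (BlkD.upd (fun _ => 0) 0 2) 1 11)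
      (BlkD.upd (BlkD.upd (BlkD.upd (BlkD.upd (fun _ => 21) 0 8) 2 6) 0 4) 0 2)) :=
  BlkD.tree_sound (BlkD.pairOk_sound k20_21_8_6) (by decide) hn t20_21_8_6_7 _ _ (by decide +kernel)

/-- certificates of the pair `(8, 6)`, part 8 -/
def t20_21_8_6_8 : BlkD.Tr :=
  .L 4 4 [4, 20, 20, 20, 20, 20, 20] [] [] 100000 0 0 1600000 100000 50000 100000 100000 0 0 0

lemma s20_21_8_6_8 {n : ℕ} (hn : 6 ≤ n) : NoNd (d20_21_8_6.R : ℤ) d20_21_8_6.H n d20_21_8_6.a d20_21_8_6.b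
    (BlkD.inB (BlkD.upd (fun _ => 0) 0 3)
      (BlkD.upd (BlkD.upd (BlkD.upd (BlkD.upd (BlkD.upd (BlkD.upd (fun _ => 21) 0 8) 2 6) 0 4) 0 3) 1 10) 1 5)) :=
  BlkD.tree_sound (BlkD.pairOk_sound k20_21_8_6) (by decide) hn t20_21_8_6_8 _ _ (by decide +kernel)

/-- certificates of the pair `(8, 6)`, part 9 -/
def t20_21_8_6_9 : BlkD.Tr :=
  .L 4 4 [4, 20, 20, 20, 20, 20, 20] [] [] 100000 0 0 1600000 100000 50000 100000 100000 0 0 0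

lemma s20_21_8_6_9 {n : ℕ} (hn : 6 ≤ n) : NoNd (d20_21_8_6.R : ℤ) d20_21_8_6.H n d20_21_8_6.a d20_21_8_6.b
    (BlkD.inB (BlkD.upd (BlkD.upd (fun _ => 0) 0 3) 1 6)
      (BlkD.upd (BlkD.upd (BlkD.upd (BlkD.upd (BlkD.upd (BlkD.upd (BlkD.upd (fun _ => 21) 0 8) 2 6) 0 4) 0 3) 1 10) 1 8) 1 7)) :=
  BlkD.tree_sound (BlkD.pairOk_sound k20_21_8_6) (by decide) hn t20_21_8_6_9 _ _ (by decide +kernel)

/-- certificates of the pair `(8, 6)`, part 10 -/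
def t20_21_8_6_10 : BlkD.Tr :=
  .L 4 4 [4, 20, 20, 20, 20, 20, 20] [180, 176, 172, 168, 164, 152] [] 100000 0 0 1600000 100000
    50000 100000 100000 0 0 0

lemma s20_21_8_6_10 {n : ℕ} (hn : 6 ≤ n) : NoNd (d20_21_8_6.R : ℤ) d20_21_8_6.H n d20_21_8_6.a d20_21_8_6.b
    (BlkD.inB (BlkD.upd (BlkD.upd (BlkD.upd (fun _ => 0) 0 3) 1 6) 1 8)
      (BlkD.upd (BlkD.upd (BlkD.upd (BlkD.upd (BlkD.upd (BlkD.upd (fun _ => 21) 0 8) 2 6) 0 4) 0 3) 1 10) 1 8)) :=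
  BlkD.tree_sound (BlkD.pairOk_sound k20_21_8_6) (by decide) hn t20_21_8_6_10 _ _ (by decide +kernel)

/-- certificates of the pair `(8, 6)`, part 11 -/
def t20_21_8_6_11 : BlkD.Tr :=
  .L 4 4 [4, 20, 20, 20, 20, 20, 20] [202, 202, 198, 194, 190, 186] [] 100000 0 0 1600000 100000
    50000 100000 100000 0 0 0

lemma s20_21_8_6_11 {n : ℕ} (hn : 6 ≤ n) : NoNd (d20_21_8_6.R : ℤ) d20_21_8_6.H n d20_21_8_6.a d20_21_8_6.b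
    (BlkD.inB (BlkD.upd (BlkD.upd (BlkD.upd (fun _ => 0) 0 3) 1 6) 1 9)
      (BlkD.upd (BlkD.upd (BlkD.upd (BlkD.upd (BlkD.upd (BlkD.upd (fun _ => 21) 0 8) 2 6) 0 4) 0 3) 1 10) 1 9)) :=
  BlkD.tree_sound (BlkD.pairOk_sound k20_21_8_6) (by decide) hn t20_21_8_6_11 _ _ (by decide +kernel)

/-- certificates of the pair `(8, 6)`, part 12 -/
def t20_21_8_6_12 : BlkD.Tr :=
  .L 4 4 [4, 20, 20, 20, 20, 20, 20] [226, 226, 226, 222, 218, 214] [] 100000 0 0 1600000 100000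
    50000 100000 100000 0 0 0

lemma s20_21_8_6_12 {n : ℕ} (hn : 6 ≤ n) : NoNd (d20_21_8_6.R : ℤ) d20_21_8_6.H n d20_21_8_6.a d20_21_8_6.b
    (BlkD.inB (BlkD.upd (BlkD.upd (BlkD.upd (BlkD.upd (fun _ => 0) 0 3) 1 6) 1 9) 1 10)
      (BlkD.upd (BlkD.upd (BlkD.upd (BlkD.upd (BlkD.upd (fun _ => 21) 0 8) 2 6) 0 4) 0 3) 1 10)) :=
  BlkD.tree_sound (BlkD.pairOk_sound k20_21_8_6) (by decide) hn t20_21_8_6_12 _ _ (by decide +kernel)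

/-- certificates of the pair `(8, 6)`, part 13 -/
def t20_21_8_6_13 : BlkD.Tr :=
  .L 4 4 [4, 20, 20, 20, 20, 20, 20] [] [] 100000 0 0 1600000 100000 50000 100000 100000 0 0 0

lemma s20_21_8_6_13 {n : ℕ} (hn : 6 ≤ n) : NoNd (d20_21_8_6.R : ℤ) d20_21_8_6.H n d20_21_8_6.a d20_21_8_6.b
    (BlkD.inB (BlkD.upd (BlkD.upd (fun _ => 0) 0 3) 1 11)
      (BlkD.upd (BlkD.upd (BlkD.upd (BlkD.upd (fun _ => 21) 0 8) 2 6) 0 4) 0 3)) :=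
  BlkD.tree_sound (BlkD.pairOk_sound k20_21_8_6) (by decide) hn t20_21_8_6_13 _ _ (by decide +kernel)

/-- certificates of the pair `(8, 6)`, part 14 -/
def t20_21_8_6_14 : BlkD.Tr :=
  .L 4 4 [4, 20, 20, 20, 20, 20, 20] [] [] 100000 0 0 1600000 100000 50000 100000 100000 0 0 0

lemma s20_21_8_6_14 {n : ℕ} (hn : 6 ≤ n) : NoNd (d20_21_8_6.R : ℤ) d20_21_8_6.H n d20_21_8_6.a d20_21_8_6.b
    (BlkD.inB (BlkD.upd (BlkD.upd (fun _ => 0) 0 3) 0 4)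
      (BlkD.upd (BlkD.upd (BlkD.upd (BlkD.upd (BlkD.upd (fun _ => 21) 0 8) 2 6) 0 4) 1 10) 1 5)) :=
  BlkD.tree_sound (BlkD.pairOk_sound k20_21_8_6) (by decide) hn t20_21_8_6_14 _ _ (by decide +kernel)

/-- certificates of the pair `(8, 6)`, part 15 -/
def t20_21_8_6_15 : BlkD.Tr :=
  .L 4 4 [4, 20, 20, 20, 20, 20, 20] [146, 142, 138, 126, 108, 94] [] 100000 0 0 1600000 100000
    50000 100000 100000 0 0 0

lemma s20_21_8_6_15 {n : ℕ} (hn : 6 ≤ n) : NoNd (d20_21_8_6.R : ℤ) d20_21_8_6.H n d20_21_8_6.a d20_21_8_6.b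
    (BlkD.inB (BlkD.upd (BlkD.upd (BlkD.upd (fun _ => 0) 0 3) 0 4) 1 6)
      (BlkD.upd (BlkD.upd (BlkD.upd (BlkD.upd (BlkD.upd (BlkD.upd (BlkD.upd (fun _ => 21) 0 8) 2 6) 0 4) 1 10) 1 8) 1 7) 1 6)) :=
  BlkD.tree_sound (BlkD.pairOk_sound k20_21_8_6) (by decide) hn t20_21_8_6_15 _ _ (by decide +kernel)

/-- certificates of the pair `(8, 6)`, part 16 -/
def t20_21_8_6_16 : BlkD.Tr :=
  .L 4 4 [4, 20, 20, 20, 20, 20, 20] [170, 166, 162, 158, 146, 128] [] 100000 0 0 1600000 100000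
    50000 100000 100000 0 0 0

lemma s20_21_8_6_16 {n : ℕ} (hn : 6 ≤ n) : NoNd (d20_21_8_6.R : ℤ) d20_21_8_6.H n d20_21_8_6.a d20_21_8_6.b
    (BlkD.inB (BlkD.upd (BlkD.upd (BlkD.upd (BlkD.upd (fun _ => 0) 0 3) 0 4) 1 6) 1 7)
      (BlkD.upd (BlkD.upd (BlkD.upd (BlkD.upd (BlkD.upd (BlkD.upd (fun _ => 21) 0 8) 2 6) 0 4) 1 10) 1 8) 1 7)) :=
  BlkD.tree_sound (BlkD.pairOk_sound k20_21_8_6) (by decide) hn t20_21_8_6_16 _ _ (by decide +kernel)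

/-- certificates of the pair `(8, 6)`, part 17 -/
def t20_21_8_6_17 : BlkD.Tr :=
  .L 4 4 [4, 20, 20, 20, 20, 20, 20] [196, 192, 188, 184, 180, 168] [] 100000 0 0 1600000 100000
    50000 100000 100000 0 0 0

lemma s20_21_8_6_17 {n : ℕ} (hn : 6 ≤ n) : NoNd (d20_21_8_6.R : ℤ) d20_21_8_6.H n d20_21_8_6.a d20_21_8_6.b
    (BlkD.inB (BlkD.upd (BlkD.upd (BlkD.upd (BlkD.upd (fun _ => 0) 0 3) 0 4) 1 6) 1 8)
      (BlkD.upd (BlkD.upd (BlkD.upd (BlkD.upd (BlkD.upd (fun _ => 21) 0 8) 2 6) 0 4) 1 10) 1 8)) :=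
  BlkD.tree_sound (BlkD.pairOk_sound k20_21_8_6) (by decide) hn t20_21_8_6_17 _ _ (by decide +kernel)

/-- certificates of the pair `(8, 6)`, part 18 -/
def t20_21_8_6_18 : BlkD.Tr :=
  .L 4 4 [4, 20, 20, 20, 20, 20, 20] [220, 220, 216, 212, 208, 204] [] 100000 0 0 1600000 100000
    50000 100000 100000 0 0 0

lemma s20_21_8_6_18 {n : ℕ} (hn : 6 ≤ n) : NoNd (d20_21_8_6.R : ℤ) d20_21_8_6.H n d20_21_8_6.a d20_21_8_6.b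
    (BlkD.inB (BlkD.upd (BlkD.upd (BlkD.upd (BlkD.upd (fun _ => 0) 0 3) 0 4) 1 6) 1 9)
      (BlkD.upd (BlkD.upd (BlkD.upd (BlkD.upd (BlkD.upd (fun _ => 21) 0 8) 2 6) 0 4) 1 10) 1 9)) :=
  BlkD.tree_sound (BlkD.pairOk_sound k20_21_8_6) (by decide) hn t20_21_8_6_18 _ _ (by decide +kernel)

/-- certificates of the pair `(8, 6)`, part 19 -/
def t20_21_8_6_19 : BlkD.Tr :=
  .L 4 4 [4, 20, 20, 20, 20, 20, 20] [246, 246, 246, 242, 238, 234] [] 100000 0 0 1600000 100000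
    50000 100000 100000 0 0 0

lemma s20_21_8_6_19 {n : ℕ} (hn : 6 ≤ n) : NoNd (d20_21_8_6.R : ℤ) d20_21_8_6.H n d20_21_8_6.a d20_21_8_6.b
    (BlkD.inB (BlkD.upd (BlkD.upd (BlkD.upd (BlkD.upd (BlkD.upd (fun _ => 0) 0 3) 0 4) 1 6) 1 9) 1 10)
      (BlkD.upd (BlkD.upd (BlkD.upd (BlkD.upd (fun _ => 21) 0 8) 2 6) 0 4) 1 10)) :=
  BlkD.tree_sound (BlkD.pairOk_sound k20_21_8_6) (by decide) hn t20_21_8_6_19 _ _ (by decide +kernel)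

/-- certificates of the pair `(8, 6)`, part 20 -/
def t20_21_8_6_20 : BlkD.Tr :=
  .L 4 4 [4, 20, 20, 20, 20, 20, 20] [] [] 100000 0 0 1600000 100000 50000 100000 100000 0 0 0

lemma s20_21_8_6_20 {n : ℕ} (hn : 6 ≤ n) : NoNd (d20_21_8_6.R : ℤ) d20_21_8_6.H n d20_21_8_6.a d20_21_8_6.b
    (BlkD.inB (BlkD.upd (BlkD.upd (BlkD.upd (fun _ => 0) 0 3) 0 4) 1 11)
      (BlkD.upd (BlkD.upd (BlkD.upd (fun _ => 21) 0 8) 2 6) 0 4)) :=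
  BlkD.tree_sound (BlkD.pairOk_sound k20_21_8_6) (by decide) hn t20_21_8_6_20 _ _ (by decide +kernel)

/-- certificates of the pair `(8, 6)`, part 21 -/
def t20_21_8_6_21 : BlkD.Tr :=
  .S 1 2 (.L 4 4 [4, 20, 20, 20, 20, 20, 20] [] [] 100000 0 0 1600000 100000 50000 100000 100000 0
    0 0) (.S 1 4 (.L 4 4 [4, 20, 20, 20, 20, 20, 20] [] [] 100000 0 0 1600000 100000 50000 100000
    100000 0 0 0) (.L 4 4 [4, 20, 20, 20, 20, 20, 20] [134, 130, 118, 100, 86, 70] [] 100000 0 0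
    1600000 100000 50000 100000 100000 0 0 0))

lemma s20_21_8_6_21 {n : ℕ} (hn : 6 ≤ n) : NoNd (d20_21_8_6.R : ℤ) d20_21_8_6.H n d20_21_8_6.a d20_21_8_6.b
    (BlkD.inB (BlkD.upd (fun _ => 0) 0 5)
      (BlkD.upd (BlkD.upd (BlkD.upd (BlkD.upd (BlkD.upd (BlkD.upd (fun _ => 21) 0 8) 2 6) 0 6) 0 5) 1 10) 1 5)) :=
  BlkD.tree_sound (BlkD.pairOk_sound k20_21_8_6) (by decide) hn t20_21_8_6_21 _ _ (by decide +kernel)

/-- certificates of the pair `(8, 6)`, part 22 -/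
def t20_21_8_6_22 : BlkD.Tr :=
  .L 4 4 [4, 20, 20, 20, 20, 20, 20] [158, 154, 150, 138, 120, 106] [] 100000 0 0 1600000 100000
    50000 100000 100000 0 0 0

lemma s20_21_8_6_22 {n : ℕ} (hn : 6 ≤ n) : NoNd (d20_21_8_6.R : ℤ) d20_21_8_6.H n d20_21_8_6.a d20_21_8_6.b
    (BlkD.inB (BlkD.upd (BlkD.upd (fun _ => 0) 0 5) 1 6)
      (BlkD.upd (BlkD.upd (BlkD.upd (BlkD.upd (BlkD.upd (BlkD.upd (BlkD.upd (BlkD.upd (fun _ => 21) 0 8) 2 6) 0 6) 0 5) 1 10) 1 8) 1 7) 1 6)) :=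
  BlkD.tree_sound (BlkD.pairOk_sound k20_21_8_6) (by decide) hn t20_21_8_6_22 _ _ (by decide +kernel)

/-- certificates of the pair `(8, 6)`, part 23 -/
def t20_21_8_6_23 : BlkD.Tr :=
  .L 4 4 [4, 20, 20, 20, 20, 20, 20] [184, 180, 176, 172, 160, 142] [] 100000 0 0 1600000 100000
    50000 100000 100000 0 0 0

lemma s20_21_8_6_23 {n : ℕ} (hn : 6 ≤ n) : NoNd (d20_21_8_6.R : ℤ) d20_21_8_6.H n d20_21_8_6.a d20_21_8_6.b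
    (BlkD.inB (BlkD.upd (BlkD.upd (BlkD.upd (fun _ => 0) 0 5) 1 6) 1 7)
      (BlkD.upd (BlkD.upd (BlkD.upd (BlkD.upd (BlkD.upd (BlkD.upd (BlkD.upd (fun _ => 21) 0 8) 2 6) 0 6) 0 5) 1 10) 1 8) 1 7)) :=
  BlkD.tree_sound (BlkD.pairOk_sound k20_21_8_6) (by decide) hn t20_21_8_6_23 _ _ (by decide +kernel)

/-- certificates of the pair `(8, 6)`, part 24 -/
def t20_21_8_6_24 : BlkD.Tr :=
  .L 4 4 [4, 20, 20, 20, 20, 20, 20] [212, 208, 204, 200, 196, 184] [] 100000 0 0 1600000 100000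
    50000 100000 100000 0 0 0

lemma s20_21_8_6_24 {n : ℕ} (hn : 6 ≤ n) : NoNd (d20_21_8_6.R : ℤ) d20_21_8_6.H n d20_21_8_6.a d20_21_8_6.b
    (BlkD.inB (BlkD.upd (BlkD.upd (BlkD.upd (fun _ => 0) 0 5) 1 6) 1 8)
      (BlkD.upd (BlkD.upd (BlkD.upd (BlkD.upd (BlkD.upd (BlkD.upd (fun _ => 21) 0 8) 2 6) 0 6) 0 5) 1 10) 1 8)) :=
  BlkD.tree_sound (BlkD.pairOk_sound k20_21_8_6) (by decide) hn t20_21_8_6_24 _ _ (by decide +kernel)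

/-- certificates of the pair `(8, 6)`, part 25 -/
def t20_21_8_6_25 : BlkD.Tr :=
  .L 4 4 [4, 20, 20, 20, 20, 20, 20] [] [] 100000 0 0 1600000 100000 50000 100000 100000 0 0 0

lemma s20_21_8_6_25 {n : ℕ} (hn : 6 ≤ n) : NoNd (d20_21_8_6.R : ℤ) d20_21_8_6.H n d20_21_8_6.a d20_21_8_6.b
    (BlkD.inB (BlkD.upd (BlkD.upd (BlkD.upd (fun _ => 0) 0 5) 1 6) 1 9)
      (BlkD.upd (BlkD.upd (BlkD.upd (BlkD.upd (BlkD.upd (fun _ => 21) 0 8) 2 6) 0 6) 0 5) 1 10)) :=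
  BlkD.tree_sound (BlkD.pairOk_sound k20_21_8_6) (by decide) hn t20_21_8_6_25 _ _ (by decide +kernel)

/-- certificates of the pair `(8, 6)`, part 26 -/
def t20_21_8_6_26 : BlkD.Tr :=
  .L 4 4 [4, 20, 20, 20, 20, 20, 20] [] [] 100000 0 0 1600000 100000 50000 100000 100000 0 0 0

lemma s20_21_8_6_26 {n : ℕ} (hn : 6 ≤ n) : NoNd (d20_21_8_6.R : ℤ) d20_21_8_6.H n d20_21_8_6.a d20_21_8_6.b
    (BlkD.inB (BlkD.upd (BlkD.upd (fun _ => 0) 0 5) 1 11)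
      (BlkD.upd (BlkD.upd (BlkD.upd (BlkD.upd (fun _ => 21) 0 8) 2 6) 0 6) 0 5)) :=
  BlkD.tree_sound (BlkD.pairOk_sound k20_21_8_6) (by decide) hn t20_21_8_6_26 _ _ (by decide +kernel)

/-- certificates of the pair `(8, 6)`, part 27 -/
def t20_21_8_6_27 : BlkD.Tr :=
  .S 1 2 (.L 4 4 [4, 20, 20, 20, 20, 20, 20] [] [] 100000 0 0 1600000 100000 50000 100000 100000 0
    0 0) (.S 1 4 (.L 4 4 [4, 20, 20, 20, 20, 20, 20] [] [] 100000 0 0 1600000 100000 50000 100000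
    100000 0 0 0) (.L 4 4 [4, 20, 20, 20, 20, 20, 20] [144, 140, 128, 110, 96, 80] [] 100000 0 0
    1600000 100000 50000 100000 100000 0 0 0))

lemma s20_21_8_6_27 {n : ℕ} (hn : 6 ≤ n) : NoNd (d20_21_8_6.R : ℤ) d20_21_8_6.H n d20_21_8_6.a d20_21_8_6.b
    (BlkD.inB (BlkD.upd (BlkD.upd (fun _ => 0) 0 5) 0 6)
      (BlkD.upd (BlkD.upd (BlkD.upd (BlkD.upd (BlkD.upd (fun _ => 21) 0 8) 2 6) 0 6) 1 10) 1 5)) :=
  BlkD.tree_sound (BlkD.pairOk_sound k20_21_8_6) (by decide) hn t20_21_8_6_27 _ _ (by decide +kernel)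

/-- certificates of the pair `(8, 6)`, part 28 -/
def t20_21_8_6_28 : BlkD.Tr :=
  .L 4 4 [4, 20, 20, 20, 20, 20, 20] [] [] 100000 0 0 1600000 100000 50000 100000 100000 0 0 0

lemma s20_21_8_6_28 {n : ℕ} (hn : 6 ≤ n) : NoNd (d20_21_8_6.R : ℤ) d20_21_8_6.H n d20_21_8_6.a d20_21_8_6.b
    (BlkD.inB (BlkD.upd (BlkD.upd (BlkD.upd (fun _ => 0) 0 5) 0 6) 1 6)
      (BlkD.upd (BlkD.upd (BlkD.upd (BlkD.upd (fun _ => 21) 0 8) 2 6) 0 6) 1 10)) :=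
  BlkD.tree_sound (BlkD.pairOk_sound k20_21_8_6) (by decide) hn t20_21_8_6_28 _ _ (by decide +kernel)

/-- certificates of the pair `(8, 6)`, part 29 -/
def t20_21_8_6_29 : BlkD.Tr :=
  .L 4 4 [4, 20, 20, 20, 20, 20, 20] [] [] 100000 0 0 1600000 100000 50000 100000 100000 0 0 0

lemma s20_21_8_6_29 {n : ℕ} (hn : 6 ≤ n) : NoNd (d20_21_8_6.R : ℤ) d20_21_8_6.H n d20_21_8_6.a d20_21_8_6.b
    (BlkD.inB (BlkD.upd (BlkD.upd (BlkD.upd (fun _ => 0) 0 5) 0 6) 1 11)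
      (BlkD.upd (BlkD.upd (BlkD.upd (fun _ => 21) 0 8) 2 6) 0 6)) :=
  BlkD.tree_sound (BlkD.pairOk_sound k20_21_8_6) (by decide) hn t20_21_8_6_29 _ _ (by decide +kernel)

/-- certificates of the pair `(8, 6)`, part 30 -/
def t20_21_8_6_30 : BlkD.Tr :=
  .L 4 4 [4, 20, 20, 20, 20, 20, 20] [] [] 100000 0 0 1600000 100000 50000 100000 100000 0 0 0

lemma s20_21_8_6_30 {n : ℕ} (hn : 6 ≤ n) : NoNd (d20_21_8_6.R : ℤ) d20_21_8_6.H n d20_21_8_6.a d20_21_8_6.b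
    (BlkD.inB (BlkD.upd (BlkD.upd (fun _ => 0) 0 5) 0 7)
      (BlkD.upd (BlkD.upd (fun _ => 21) 0 8) 2 6)) :=
  BlkD.tree_sound (BlkD.pairOk_sound k20_21_8_6) (by decide) hn t20_21_8_6_30 _ _ (by decide +kernel)

/-- certificates of the pair `(8, 6)`, part 31 -/
def t20_21_8_6_31 : BlkD.Tr :=
  .E 1

lemma s20_21_8_6_31 {n : ℕ} (hn : 6 ≤ n) : NoNd (d20_21_8_6.R : ℤ) d20_21_8_6.H n d20_21_8_6.a d20_21_8_6.b
    (BlkD.inB (BlkD.upd (fun _ => 0) 2 7)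
      (BlkD.upd (fun _ => 21) 0 8)) :=
  BlkD.tree_sound (BlkD.pairOk_sound k20_21_8_6) (by decide) hn t20_21_8_6_31 _ _ (by decide +kernel)

/-- certificates of the pair `(8, 6)`, part 32 -/
def t20_21_8_6_32 : BlkD.Tr :=
  .E 0

lemma s20_21_8_6_32 {n : ℕ} (hn : 6 ≤ n) : NoNd (d20_21_8_6.R : ℤ) d20_21_8_6.H n d20_21_8_6.a d20_21_8_6.b
    (BlkD.inB (BlkD.upd (fun _ => 0) 0 9)
      (fun _ => 21)) :=
  BlkD.tree_sound (BlkD.pairOk_sound k20_21_8_6) (by decide) hn t20_21_8_6_32 _ _ (by decide +kernel)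

lemma pr20_21_8_6 {n : ℕ} (hn : 6 ≤ n) : NoPr ((20 : ℕ) : ℤ) ((21 : ℕ) : ℤ) n 8 6 :=
  BlkD.of_root (R := d20_21_8_6.R) (H := d20_21_8_6.H) (a := d20_21_8_6.a) (b := d20_21_8_6.b) (q := 4) (by decide) hn
    (BlkD.sp 0 8 (BlkD.sp 2 6 (BlkD.sp 0 4 (BlkD.sp 0 2 (BlkD.sp 0 1 (BlkD.sp 0 0 (s20_21_8_6_1 hn)
      (BlkD.sp 1 10 (BlkD.sp 1 5 (s20_21_8_6_2 hn) (s20_21_8_6_3 hn)) (s20_21_8_6_4 hn))) (BlkD.sp
      1 10 (BlkD.sp 1 5 (s20_21_8_6_5 hn) (s20_21_8_6_6 hn)) (s20_21_8_6_7 hn))) (BlkD.sp 0 3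
      (BlkD.sp 1 10 (BlkD.sp 1 5 (s20_21_8_6_8 hn) (BlkD.sp 1 8 (BlkD.sp 1 7 (s20_21_8_6_9 hn)
      (s20_21_8_6_10 hn)) (BlkD.sp 1 9 (s20_21_8_6_11 hn) (s20_21_8_6_12 hn)))) (s20_21_8_6_13 hn))
      (BlkD.sp 1 10 (BlkD.sp 1 5 (s20_21_8_6_14 hn) (BlkD.sp 1 8 (BlkD.sp 1 7 (BlkD.sp 1 6
      (s20_21_8_6_15 hn) (s20_21_8_6_16 hn)) (s20_21_8_6_17 hn)) (BlkD.sp 1 9 (s20_21_8_6_18 hn)
      (s20_21_8_6_19 hn)))) (s20_21_8_6_20 hn)))) (BlkD.sp 0 6 (BlkD.sp 0 5 (BlkD.sp 1 10 (BlkD.sp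
      1 5 (s20_21_8_6_21 hn) (BlkD.sp 1 8 (BlkD.sp 1 7 (BlkD.sp 1 6 (s20_21_8_6_22 hn)
      (s20_21_8_6_23 hn)) (s20_21_8_6_24 hn)) (s20_21_8_6_25 hn))) (s20_21_8_6_26 hn)) (BlkD.sp 1
      10 (BlkD.sp 1 5 (s20_21_8_6_27 hn) (s20_21_8_6_28 hn)) (s20_21_8_6_29 hn))) (s20_21_8_6_30
      hn))) (s20_21_8_6_31 hn)) (s20_21_8_6_32 hn))

/-- the numbers of the pair `(9, 0)`, `R = 20`, `H = 21` -/
def d20_21_9_0 : BlkD.Pd :=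
  ⟨20, 21, 4, 9, 0, 9, 0, 1, 0, 4, 4, 0, 0, 4, 4, 0, [0, 4, 8, 12, 16, 20, 24, 28, 32, 36], [0, 4,
    8, 12, 16, 20, 24, 28, 32, 36], [⟨1, 1, 1, 4, 8, [0, 4], [0, 4]⟩]⟩

lemma k20_21_9_0 : BlkD.pairOk d20_21_9_0 = true := by decide +kernel

/-- certificates of the pair `(9, 0)`, part 1 -/
def t20_21_9_0_1 : BlkD.Tr :=
  .S 0 4 (.L 4 4 [4] [] [] 100000 0 0 1050000 50000 0 100000 0 0 0 0) (.L 4 4 [4] [] [] 100000 0 0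
    1050000 50000 0 100000 0 0 0 0)

lemma s20_21_9_0_1 {n : ℕ} (hn : 6 ≤ n) : NoNd (d20_21_9_0.R : ℤ) d20_21_9_0.H n d20_21_9_0.a d20_21_9_0.b
    (BlkD.inB (fun _ => 0)
      (BlkD.upd (BlkD.upd (fun _ => 21) 0 9) 2 0)) :=
  BlkD.tree_sound (BlkD.pairOk_sound k20_21_9_0) (by decide) hn t20_21_9_0_1 _ _ (by decide +kernel)

/-- certificates of the pair `(9, 0)`, part 2 -/
def t20_21_9_0_2 : BlkD.Tr :=
  .E 1

lemma s20_21_9_0_2 {n : ℕ} (hn : 6 ≤ n) : NoNd (d20_21_9_0.R : ℤ) d20_21_9_0.H n d20_21_9_0.a d20_21_9_0.b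
    (BlkD.inB (BlkD.upd (fun _ => 0) 2 1)
      (BlkD.upd (fun _ => 21) 0 9)) :=
  BlkD.tree_sound (BlkD.pairOk_sound k20_21_9_0) (by decide) hn t20_21_9_0_2 _ _ (by decide +kernel)

/-- certificates of the pair `(9, 0)`, part 3 -/
def t20_21_9_0_3 : BlkD.Tr :=
  .E 0

lemma s20_21_9_0_3 {n : ℕ} (hn : 6 ≤ n) : NoNd (d20_21_9_0.R : ℤ) d20_21_9_0.H n d20_21_9_0.a d20_21_9_0.b
    (BlkD.inB (BlkD.upd (fun _ => 0) 0 10)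
      (fun _ => 21)) :=
  BlkD.tree_sound (BlkD.pairOk_sound k20_21_9_0) (by decide) hn t20_21_9_0_3 _ _ (by decide +kernel)

lemma pr20_21_9_0 {n : ℕ} (hn : 6 ≤ n) : NoPr ((20 : ℕ) : ℤ) ((21 : ℕ) : ℤ) n 9 0 :=
  BlkD.of_root (R := d20_21_9_0.R) (H := d20_21_9_0.H) (a := d20_21_9_0.a) (b := d20_21_9_0.b) (q := 4) (by decide) hn
    (BlkD.sp 0 9 (BlkD.sp 2 0 (s20_21_9_0_1 hn) (s20_21_9_0_2 hn)) (s20_21_9_0_3 hn))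

end BlkC

end Pool.Agent.Lib.MP_f04ccf_co
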