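import Pool.Agent.Lib.MP_f04ccf_co.M.BlkT

/-!
MP_f04ccf_co, block certificate, data `R = 20`, `H = 21`, part 12 (generated, helper99:
bd10.cpp, gen2.py).
-/

set_option autoImplicit false
set_option maxRecDepth 100000

namespace Pool.Agent.Lib.MP_f04ccf_co

namespace BlkC

/-- the numbers of the pair `(9, 1)`, `R = 20`, `H = 21` -/
def d20_21_9_1 : BlkD.Pd :=
  ⟨20, 21, 4, 9, 1, 8, 1, 1, 0, 4, 8, 0, 0, 4, 4, 0, [0, 8, 16, 24, 32, 32, 32, 32, 32], [0, 4, 8,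
    12, 16, 20, 24, 28, 32], [⟨1, 1, 1, 4, 8, [0, 4], [0, 4]⟩, ⟨1, 1, 1, 4, 12, [0, 8], [0, 4]⟩]⟩

lemma k20_21_9_1 : BlkD.pairOk d20_21_9_1 = true := by decide +kernel

/-- certificates of the pair `(9, 1)`, part 1 -/
def t20_21_9_1_1 : BlkD.Tr :=
  .S 0 1 (.L 4 5 [4, 4] [] [] 100000 20000 0 1040000 60000 0 115000 0 0 0 0) (.L 4 5 [4, 4] [] []
    100000 20000 0 1040000 60000 0 115000 0 0 0 0)

lemma s20_21_9_1_1 {n : ℕ} (hn : 6 ≤ n) : NoNd (d20_21_9_1.R : ℤ) d20_21_9_1.H n d20_21_9_1.a d20_21_9_1.b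
    (BlkD.inB (fun _ => 0)
      (BlkD.upd (BlkD.upd (BlkD.upd (BlkD.upd (fun _ => 21) 0 9) 2 1) 0 4) 0 2)) :=
  BlkD.tree_sound (BlkD.pairOk_sound k20_21_9_1) (by decide) hn t20_21_9_1_1 _ _ (by decide +kernel)

/-- certificates of the pair `(9, 1)`, part 2 -/
def t20_21_9_1_2 : BlkD.Tr :=
  .L 4 5 [4, 4] [] [] 100000 20000 0 1040000 60000 0 115000 0 0 0 0

lemma s20_21_9_1_2 {n : ℕ} (hn : 6 ≤ n) : NoNd (d20_21_9_1.R : ℤ) d20_21_9_1.H n d20_21_9_1.a d20_21_9_1.b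
    (BlkD.inB (BlkD.upd (fun _ => 0) 0 3)
      (BlkD.upd (BlkD.upd (BlkD.upd (fun _ => 21) 0 9) 2 1) 0 4)) :=
  BlkD.tree_sound (BlkD.pairOk_sound k20_21_9_1) (by decide) hn t20_21_9_1_2 _ _ (by decide +kernel)

/-- certificates of the pair `(9, 1)`, part 3 -/
def t20_21_9_1_3 : BlkD.Tr :=
  .S 0 7 (.S 0 6 (.S 0 5 (.S 1 16 (.S 1 8 (.L 4 5 [4, 4] [] [] 100000 4168 1 1166668 41667 0 44444
    0 0 0 0) (.S 1 12 (.L 4 5 [4, 4] [] [] 100000 0 0 1240000 40000 0 85000 0 0 0 0) (.S 1 14 (.L 4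
    5 [4, 4] [] [] 100000 0 0 1240000 40000 0 100000 0 0 0 0) (.S 1 15 (.L 4 5 [4, 4] [400, 400,
    400, 400, 400, 400] [] 100000 130769 0 2 153846 0 153846 0 0 0 0) (.L 4 5 [4, 4] [440, 440,
    440, 440, 440, 440] [] 100000 125000 0 0 150000 0 150000 0 0 0 0))))) (.E 0)) (.L 4 5 [4, 4] []
    [] 100000 0 0 1266669 33333 0 100000 0 0 0 0)) (.L 4 5 [4, 4] [] [] 100000 0 0 1257145 28571 0
    100000 0 0 0 0)) (.L 4 5 [4, 4] [] [] 100000 0 0 1233334 22222 0 100000 0 0 0 0)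

lemma s20_21_9_1_3 {n : ℕ} (hn : 6 ≤ n) : NoNd (d20_21_9_1.R : ℤ) d20_21_9_1.H n d20_21_9_1.a d20_21_9_1.b
    (BlkD.inB (BlkD.upd (fun _ => 0) 0 5)
      (BlkD.upd (BlkD.upd (fun _ => 21) 0 9) 2 1)) :=
  BlkD.tree_sound (BlkD.pairOk_sound k20_21_9_1) (by decide) hn t20_21_9_1_3 _ _ (by decide +kernel)

/-- certificates of the pair `(9, 1)`, part 4 -/
def t20_21_9_1_4 : BlkD.Tr :=
  .E 1

lemma s20_21_9_1_4 {n : ℕ} (hn : 6 ≤ n) : NoNd (d20_21_9_1.R : ℤ) d20_21_9_1.H n d20_21_9_1.a d20_21_9_1.b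
    (BlkD.inB (BlkD.upd (fun _ => 0) 2 2)
      (BlkD.upd (fun _ => 21) 0 9)) :=
  BlkD.tree_sound (BlkD.pairOk_sound k20_21_9_1) (by decide) hn t20_21_9_1_4 _ _ (by decide +kernel)

/-- certificates of the pair `(9, 1)`, part 5 -/
def t20_21_9_1_5 : BlkD.Tr :=
  .E 0

lemma s20_21_9_1_5 {n : ℕ} (hn : 6 ≤ n) : NoNd (d20_21_9_1.R : ℤ) d20_21_9_1.H n d20_21_9_1.a d20_21_9_1.b
    (BlkD.inB (BlkD.upd (fun _ => 0) 0 10)
      (fun _ => 21)) :=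
  BlkD.tree_sound (BlkD.pairOk_sound k20_21_9_1) (by decide) hn t20_21_9_1_5 _ _ (by decide +kernel)

lemma pr20_21_9_1 {n : ℕ} (hn : 6 ≤ n) : NoPr ((20 : ℕ) : ℤ) ((21 : ℕ) : ℤ) n 9 1 :=
  BlkD.of_root (R := d20_21_9_1.R) (H := d20_21_9_1.H) (a := d20_21_9_1.a) (b := d20_21_9_1.b) (q := 4) (by decide) hn
    (BlkD.sp 0 9 (BlkD.sp 2 1 (BlkD.sp 0 4 (BlkD.sp 0 2 (s20_21_9_1_1 hn) (s20_21_9_1_2 hn))
      (s20_21_9_1_3 hn)) (s20_21_9_1_4 hn)) (s20_21_9_1_5 hn))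

/-- the numbers of the pair `(9, 2)`, `R = 20`, `H = 21` -/
def d20_21_9_2 : BlkD.Pd :=
  ⟨20, 21, 4, 9, 2, 7, 2, 2, 4, 2, 10, 0, 3, 1, 6, 0, [0, 10, 20, 26, 30, 34, 38, 42], [0, 6, 12,
    16, 19, 22, 25, 28], [⟨1, 1, 1, 4, 8, [0, 4], [0, 4]⟩, ⟨1, 1, 1, 4, 12, [0, 8], [0, 4]⟩, ⟨2, 1,
    1, 4, 20, [0, 10, 14], [0, 6]⟩]⟩

lemma k20_21_9_2 : BlkD.pairOk d20_21_9_2 = true := by decide +kernel

/-- certificates of the pair `(9, 2)`, part 1 -/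
def t20_21_9_2_1 : BlkD.Tr :=
  .L 4 7 [4, 4, 4] [] [] 100000 107692 107692 1069232 76923 0 100000 7692 0 0 0

lemma s20_21_9_2_1 {n : ℕ} (hn : 6 ≤ n) : NoNd (d20_21_9_2.R : ℤ) d20_21_9_2.H n d20_21_9_2.a d20_21_9_2.b
    (BlkD.inB (fun _ => 0)
      (BlkD.upd (BlkD.upd (BlkD.upd (BlkD.upd (BlkD.upd (BlkD.upd (fun _ => 21) 0 9) 2 2) 0 4) 0 2) 0 1) 0 0)) :=
  BlkD.tree_sound (BlkD.pairOk_sound k20_21_9_2) (by decide) hn t20_21_9_2_1 _ _ (by decide +kernel)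

/-- certificates of the pair `(9, 2)`, part 2 -/
def t20_21_9_2_2 : BlkD.Tr :=
  .S 1 10 (.S 1 5 (.L 4 7 [4, 4, 4] [] [] 100000 107692 107692 1069232 76923 0 100000 7692 0 0 0)
    (.L 4 7 [4, 4, 4] [] [] 100000 107692 107692 1069232 76923 0 100000 7692 0 0 0)) (.L 4 7 [4, 4,
    4] [] [] 100000 107692 107692 1069232 76923 0 100000 7692 0 0 0)

lemma s20_21_9_2_2 {n : ℕ} (hn : 6 ≤ n) : NoNd (d20_21_9_2.R : ℤ) d20_21_9_2.H n d20_21_9_2.a d20_21_9_2.b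
    (BlkD.inB (BlkD.upd (fun _ => 0) 0 1)
      (BlkD.upd (BlkD.upd (BlkD.upd (BlkD.upd (BlkD.upd (fun _ => 21) 0 9) 2 2) 0 4) 0 2) 0 1)) :=
  BlkD.tree_sound (BlkD.pairOk_sound k20_21_9_2) (by decide) hn t20_21_9_2_2 _ _ (by decide +kernel)

/-- certificates of the pair `(9, 2)`, part 3 -/
def t20_21_9_2_3 : BlkD.Tr :=
  .S 1 10 (.L 4 7 [4, 4, 4] [] [] 100000 107692 107692 1069232 76923 0 100000 7692 0 0 0) (.L 4 7
    [4, 4, 4] [] [] 100000 107692 107692 1069232 76923 0 100000 7692 0 0 0)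

lemma s20_21_9_2_3 {n : ℕ} (hn : 6 ≤ n) : NoNd (d20_21_9_2.R : ℤ) d20_21_9_2.H n d20_21_9_2.a d20_21_9_2.b
    (BlkD.inB (BlkD.upd (fun _ => 0) 0 2)
      (BlkD.upd (BlkD.upd (BlkD.upd (BlkD.upd (fun _ => 21) 0 9) 2 2) 0 4) 0 2)) :=
  BlkD.tree_sound (BlkD.pairOk_sound k20_21_9_2) (by decide) hn t20_21_9_2_3 _ _ (by decide +kernel)

/-- certificates of the pair `(9, 2)`, part 4 -/
def t20_21_9_2_4 : BlkD.Tr :=
  .L 4 7 [4, 4, 4] [] [] 100000 107692 107692 1069232 76923 0 100000 7692 0 0 0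

lemma s20_21_9_2_4 {n : ℕ} (hn : 6 ≤ n) : NoNd (d20_21_9_2.R : ℤ) d20_21_9_2.H n d20_21_9_2.a d20_21_9_2.b
    (BlkD.inB (BlkD.upd (fun _ => 0) 0 3)
      (BlkD.upd (BlkD.upd (BlkD.upd (BlkD.upd (BlkD.upd (fun _ => 21) 0 9) 2 2) 0 4) 0 3) 1 10)) :=
  BlkD.tree_sound (BlkD.pairOk_sound k20_21_9_2) (by decide) hn t20_21_9_2_4 _ _ (by decide +kernel)

/-- certificates of the pair `(9, 2)`, part 5 -/
def t20_21_9_2_5 : BlkD.Tr :=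
  .L 4 7 [4, 4, 4] [] [] 100000 107692 107692 1069232 76923 0 100000 7692 0 0 0

lemma s20_21_9_2_5 {n : ℕ} (hn : 6 ≤ n) : NoNd (d20_21_9_2.R : ℤ) d20_21_9_2.H n d20_21_9_2.a d20_21_9_2.b
    (BlkD.inB (BlkD.upd (BlkD.upd (fun _ => 0) 0 3) 1 11)
      (BlkD.upd (BlkD.upd (BlkD.upd (BlkD.upd (fun _ => 21) 0 9) 2 2) 0 4) 0 3)) :=
  BlkD.tree_sound (BlkD.pairOk_sound k20_21_9_2) (by decide) hn t20_21_9_2_5 _ _ (by decide +kernel)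

/-- certificates of the pair `(9, 2)`, part 6 -/
def t20_21_9_2_6 : BlkD.Tr :=
  .S 1 10 (.L 4 7 [4, 4, 4] [] [] 100000 107692 107692 1069232 76923 0 100000 7692 0 0 0) (.L 4 7
    [4, 4, 4] [] [] 100000 107692 107692 1069232 76923 0 100000 7692 0 0 0)

lemma s20_21_9_2_6 {n : ℕ} (hn : 6 ≤ n) : NoNd (d20_21_9_2.R : ℤ) d20_21_9_2.H n d20_21_9_2.a d20_21_9_2.b
    (BlkD.inB (BlkD.upd (BlkD.upd (fun _ => 0) 0 3) 0 4)
      (BlkD.upd (BlkD.upd (BlkD.upd (fun _ => 21) 0 9) 2 2) 0 4)) :=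
  BlkD.tree_sound (BlkD.pairOk_sound k20_21_9_2) (by decide) hn t20_21_9_2_6 _ _ (by decide +kernel)

/-- certificates of the pair `(9, 2)`, part 7 -/
def t20_21_9_2_7 : BlkD.Tr :=
  .S 1 4 (.L 4 7 [4, 4, 4] [] [] 100000 16667 16667 1100001 33333 0 33333 0 0 0 0) (.S 1 6 (.L 4 7
    [4, 4, 4] [] [] 100000 12500 12500 1250000 25000 0 25000 25000 0 0 0) (.S 1 7 (.L 4 7 [4, 4, 4]
    [160, 156, 152, 148, 142, 132] [] 100000 16666 16666 1266669 33333 0 50000 33333 0 33333 33333)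
    (.L 4 7 [4, 4, 4] [188, 184, 180, 176, 172, 166] [] 100000 38888 38888 1244448 44444 0 55556
    44444 0 0 0)))

lemma s20_21_9_2_7 {n : ℕ} (hn : 6 ≤ n) : NoNd (d20_21_9_2.R : ℤ) d20_21_9_2.H n d20_21_9_2.a d20_21_9_2.b
    (BlkD.inB (BlkD.upd (fun _ => 0) 0 5)
      (BlkD.upd (BlkD.upd (BlkD.upd (BlkD.upd (BlkD.upd (BlkD.upd (BlkD.upd (fun _ => 21) 0 9) 2 2) 0 7) 0 6) 0 5) 1 16) 1 8)) :=
  BlkD.tree_sound (BlkD.pairOk_sound k20_21_9_2) (by decide) hn t20_21_9_2_7 _ _ (by decide +kernel)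

/-- certificates of the pair `(9, 2)`, part 8 -/
def t20_21_9_2_8 : BlkD.Tr :=
  .S 1 12 (.S 1 10 (.S 1 9 (.S 2 1 (.S 2 0 (.L 4 7 [4, 4, 4] [218, 214, 210, 206, 202, 198] []
    100000 35295 35295 1288234 47059 0 64706 17647 0 17647 17647) (.S 3 6 (.S 3 3 (.S 3 1 (.L 4 7
    [4, 4, 4] [218, 214, 210, 206, 202, 198] [] 100000 20000 20000 1320000 40000 0 50000 0 0 20000
    20000) (.S 3 2 (.L 6 9 [5, 5, 3] [218, 214, 210, 206, 202, 198] [22, 16, 6, 0, 0, 0] 100000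
    9677 9677 1341939 41935 0 64516 22581 0 22581 22581) (.E 1))) (.E 1)) (.E 1))) (.L 6 9 [5, 5,
    3] [218, 214, 210, 206, 202, 198] [] 100000 4546 4546 1331819 40909 0 40909 0 0 31818 31818))
    (.L 6 9 [5, 5, 3] [250, 246, 242, 238, 234, 230] [] 100000 5882 5882 1376473 41176 0 76471
    29412 0 29412 29412)) (.S 1 11 (.S 2 1 (.S 2 0 (.S 3 5 (.S 3 2 (.L 6 9 [5, 5, 3] [284, 280,
    276, 272, 268, 264] [] 100000 22222 22222 1308337 44444 0 75000 61111 0 0 0) (.S 3 4 (.S 3 3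
    (.S 4 11 (.S 4 5 (.L 6 9 [5, 5, 3] [260, 256, 250, 240, 230, 220] [28, 22, 16, 6, 0, 0] 100000
    150000 100000 650000 100000 0 150000 150000 0 0 0) (.L 6 9 [5, 5, 3] [284, 280, 276, 272, 268,
    264] [28, 22, 16, 6, 0, 0] 100000 185714 0 1 61905 0 285714 0 0 0 0)) (.E 2)) (.E 1)) (.E 1)))
    (.E 1)) (.S 3 4 (.S 3 2 (.S 3 1 (.L 6 9 [5, 5, 3] [284, 280, 276, 272, 268, 264] [] 100000
    16667 16667 1346669 43333 0 96667 10000 0 10000 10000) (.S 4 11 (.S 4 5 (.L 6 9 [5, 5, 3] [260,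
    256, 250, 240, 230, 220] [22, 16, 6, 0, 0, 0] 100000 50001 33334 1083330 66667 0 116667 50000 0
    0 0) (.L 6 9 [5, 5, 3] [284, 280, 276, 272, 268, 264] [22, 16, 6, 0, 0, 0] 100000 159092 1 0
    86364 0 259091 0 0 0 0)) (.E 2))) (.E 1)) (.E 1))) (.L 6 9 [5, 5, 3] [284, 280, 276, 272, 268,
    264] [] 100000 18750 18750 1306250 43750 0 100000 0 0 6250 6250)) (.L 4 7 [4, 4, 4] [320, 316,
    312, 308, 304, 300] [] 100000 66668 66668 1166665 66667 0 100000 0 0 33333 0))) (.S 1 14 (.S 1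
    13 (.L 4 7 [4, 4, 4] [358, 354, 350, 346, 342, 338] [] 100000 66668 66668 1166665 66667 0
    100000 0 0 0 0) (.L 4 7 [4, 4, 4] [398, 394, 390, 386, 382, 378] [] 100000 66668 66668 1133331
    66667 0 100000 33333 0 33333 33333)) (.S 1 15 (.L 4 7 [4, 4, 4] [440, 436, 432, 428, 424, 420]
    [] 100000 225001 83334 0 141667 0 241667 0 0 0 0) (.L 4 7 [4, 4, 4] [484, 480, 476, 472, 468,
    464] [] 100000 247618 123808 0 142857 0 223810 0 0 0 0)))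

lemma s20_21_9_2_8 {n : ℕ} (hn : 6 ≤ n) : NoNd (d20_21_9_2.R : ℤ) d20_21_9_2.H n d20_21_9_2.a d20_21_9_2.b
    (BlkD.inB (BlkD.upd (BlkD.upd (fun _ => 0) 0 5) 1 9)
      (BlkD.upd (BlkD.upd (BlkD.upd (BlkD.upd (BlkD.upd (BlkD.upd (fun _ => 21) 0 9) 2 2) 0 7) 0 6) 0 5) 1 16)) :=
  BlkD.tree_sound (BlkD.pairOk_sound k20_21_9_2) (by decide) hn t20_21_9_2_8 _ _ (by decide +kernel)

/-- certificates of the pair `(9, 2)`, part 9 -/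
def t20_21_9_2_9 : BlkD.Tr :=
  .E 0

lemma s20_21_9_2_9 {n : ℕ} (hn : 6 ≤ n) : NoNd (d20_21_9_2.R : ℤ) d20_21_9_2.H n d20_21_9_2.a d20_21_9_2.b
    (BlkD.inB (BlkD.upd (BlkD.upd (fun _ => 0) 0 5) 1 17)
      (BlkD.upd (BlkD.upd (BlkD.upd (BlkD.upd (BlkD.upd (fun _ => 21) 0 9) 2 2) 0 7) 0 6) 0 5)) :=
  BlkD.tree_sound (BlkD.pairOk_sound k20_21_9_2) (by decide) hn t20_21_9_2_9 _ _ (by decide +kernel)

/-- certificates of the pair `(9, 2)`, part 10 -/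
def t20_21_9_2_10 : BlkD.Tr :=
  .S 1 15 (.S 1 7 (.S 1 3 (.L 4 7 [4, 4, 4] [] [] 100000 0 0 1200000 0 0 0 0 0 0 0) (.S 1 5 (.L 4 7
    [4, 4, 4] [] [] 100000 0 0 1300000 20000 0 20000 20000 0 20000 20000) (.S 1 6 (.L 4 7 [4, 4, 4]
    [146, 142, 138, 132, 122, 112] [] 100000 0 0 1328574 28571 0 28571 28571 0 28571 28571) (.L 4 7
    [4, 4, 4] [174, 170, 166, 162, 156, 146] [] 100000 8333 8333 1366669 33333 0 33333 33333 0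
    16667 16667)))) (.S 1 11 (.S 1 9 (.S 1 8 (.S 2 1 (.S 2 0 (.L 4 7 [4, 4, 4] [204, 200, 196, 192,
    188, 182] [] 100000 0 0 1366669 33333 0 66667 33333 0 33333 33333) (.S 3 6 (.S 3 3 (.S 3 1 (.L
    4 7 [4, 4, 4] [204, 200, 196, 192, 188, 182] [] 100000 0 0 1366669 33333 0 66667 0 0 33333
    33333) (.S 3 2 (.L 6 9 [5, 5, 3] [204, 200, 196, 192, 188, 182] [22, 16, 6, 0, 0, 0] 100000
    13115 13115 1326229 42623 0 80328 37705 0 24590 16393) (.E 1))) (.E 1)) (.E 1))) (.L 6 9 [5, 5,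
    3] [204, 200, 196, 192, 188, 182] [] 100000 18750 18750 1293750 43750 0 100000 0 0 37500 6250))
    (.L 6 9 [5, 5, 3] [236, 232, 228, 224, 220, 216] [] 100000 5882 5882 1376472 41176 0 79412
    29412 0 29412 29412)) (.S 1 10 (.L 6 9 [5, 5, 3] [270, 266, 262, 258, 254, 250] [] 100000 25000
    25000 1250000 50000 0 100000 50000 0 0 0) (.L 6 9 [5, 5, 3] [306, 302, 298, 294, 290, 286] []
    100000 30000 20000 1170000 60000 0 110000 25000 0 20000 10000))) (.S 1 13 (.S 1 12 (.L 6 9 [5,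
    5, 3] [344, 340, 336, 332, 328, 324] [] 100000 100000 0 600000 100000 0 200000 0 0 0 0) (.L 6 9
    [5, 5, 3] [384, 380, 376, 372, 368, 364] [] 100000 166667 0 0 133333 0 266667 0 0 0 0)) (.S 1
    14 (.L 6 9 [5, 5, 3] [426, 422, 418, 414, 410, 406] [] 100000 147059 0 1 123529 0 247059 0 0 0
    0) (.L 6 9 [5, 5, 3] [470, 466, 462, 458, 454, 450] [] 100000 133335 2 0 116667 0 233333 0 0 0
    0))))) (.E 0)

lemma s20_21_9_2_10 {n : ℕ} (hn : 6 ≤ n) : NoNd (d20_21_9_2.R : ℤ) d20_21_9_2.H n d20_21_9_2.a d20_21_9_2.b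
    (BlkD.inB (BlkD.upd (BlkD.upd (fun _ => 0) 0 5) 0 6)
      (BlkD.upd (BlkD.upd (BlkD.upd (BlkD.upd (fun _ => 21) 0 9) 2 2) 0 7) 0 6)) :=
  BlkD.tree_sound (BlkD.pairOk_sound k20_21_9_2) (by decide) hn t20_21_9_2_10 _ _ (by decide +kernel)

/-- certificates of the pair `(9, 2)`, part 11 -/
def t20_21_9_2_11 : BlkD.Tr :=
  .S 1 14 (.S 1 7 (.S 1 3 (.L 6 9 [5, 5, 3] [] [] 100000 0 0 1300000 0 0 0 0 0 0 0) (.S 1 5 (.L 6 9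
    [5, 5, 3] [] [] 100000 0 0 1366668 33333 0 33333 16667 0 33333 33333) (.S 1 6 (.L 6 9 [5, 5, 3]
    [158, 154, 150, 144, 134, 124] [] 100000 0 0 1366668 33333 0 66667 33333 0 33333 33333) (.L 6 9
    [5, 5, 3] [188, 184, 180, 176, 170, 160] [] 100000 3333 3333 1360001 33333 0 86667 33333 0
    26667 26667)))) (.L 6 9 [5, 5, 3] [] [] 100000 0 0 1362500 12500 0 100000 6250 0 12500 12500))
    (.E 0)

lemma s20_21_9_2_11 {n : ℕ} (hn : 6 ≤ n) : NoNd (d20_21_9_2.R : ℤ) d20_21_9_2.H n d20_21_9_2.a d20_21_9_2.b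
    (BlkD.inB (BlkD.upd (BlkD.upd (fun _ => 0) 0 5) 0 7)
      (BlkD.upd (BlkD.upd (BlkD.upd (fun _ => 21) 0 9) 2 2) 0 7)) :=
  BlkD.tree_sound (BlkD.pairOk_sound k20_21_9_2) (by decide) hn t20_21_9_2_11 _ _ (by decide +kernel)

/-- certificates of the pair `(9, 2)`, part 12 -/
def t20_21_9_2_12 : BlkD.Tr :=
  .L 6 9 [5, 5, 3] [] [] 100000 0 0 1370000 10000 0 100000 10000 0 10000 10000

lemma s20_21_9_2_12 {n : ℕ} (hn : 6 ≤ n) : NoNd (d20_21_9_2.R : ℤ) d20_21_9_2.H n d20_21_9_2.a d20_21_9_2.b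
    (BlkD.inB (BlkD.upd (BlkD.upd (fun _ => 0) 0 5) 0 8)
      (BlkD.upd (BlkD.upd (fun _ => 21) 0 9) 2 2)) :=
  BlkD.tree_sound (BlkD.pairOk_sound k20_21_9_2) (by decide) hn t20_21_9_2_12 _ _ (by decide +kernel)

/-- certificates of the pair `(9, 2)`, part 13 -/
def t20_21_9_2_13 : BlkD.Tr :=
  .E 1

lemma s20_21_9_2_13 {n : ℕ} (hn : 6 ≤ n) : NoNd (d20_21_9_2.R : ℤ) d20_21_9_2.H n d20_21_9_2.a d20_21_9_2.b
    (BlkD.inB (BlkD.upd (fun _ => 0) 2 3)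
      (BlkD.upd (fun _ => 21) 0 9)) :=
  BlkD.tree_sound (BlkD.pairOk_sound k20_21_9_2) (by decide) hn t20_21_9_2_13 _ _ (by decide +kernel)

/-- certificates of the pair `(9, 2)`, part 14 -/
def t20_21_9_2_14 : BlkD.Tr :=
  .E 0

lemma s20_21_9_2_14 {n : ℕ} (hn : 6 ≤ n) : NoNd (d20_21_9_2.R : ℤ) d20_21_9_2.H n d20_21_9_2.a d20_21_9_2.b
    (BlkD.inB (BlkD.upd (fun _ => 0) 0 10)
      (fun _ => 21)) :=
  BlkD.tree_sound (BlkD.pairOk_sound k20_21_9_2) (by decide) hn t20_21_9_2_14 _ _ (by decide +kernel)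

lemma pr20_21_9_2 {n : ℕ} (hn : 6 ≤ n) : NoPr ((20 : ℕ) : ℤ) ((21 : ℕ) : ℤ) n 9 2 :=
  BlkD.of_root (R := d20_21_9_2.R) (H := d20_21_9_2.H) (a := d20_21_9_2.a) (b := d20_21_9_2.b) (q := 4) (by decide) hn
    (BlkD.sp 0 9 (BlkD.sp 2 2 (BlkD.sp 0 4 (BlkD.sp 0 2 (BlkD.sp 0 1 (BlkD.sp 0 0 (s20_21_9_2_1 hn)
      (s20_21_9_2_2 hn)) (s20_21_9_2_3 hn)) (BlkD.sp 0 3 (BlkD.sp 1 10 (s20_21_9_2_4 hn)
      (s20_21_9_2_5 hn)) (s20_21_9_2_6 hn))) (BlkD.sp 0 7 (BlkD.sp 0 6 (BlkD.sp 0 5 (BlkD.sp 1 16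
      (BlkD.sp 1 8 (s20_21_9_2_7 hn) (s20_21_9_2_8 hn)) (s20_21_9_2_9 hn)) (s20_21_9_2_10 hn))
      (s20_21_9_2_11 hn)) (s20_21_9_2_12 hn))) (s20_21_9_2_13 hn)) (s20_21_9_2_14 hn))

end BlkC

end Pool.Agent.Lib.MP_f04ccf_co
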