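import Pool.Agent.Lib.MP_f04ccf_co.M.BlkT

/-!
MP_f04ccf_co, block certificate, data `R = 20`, `H = 21`, part 14 (generated, helper99:
bd10.cpp, gen2.py).
-/

set_option autoImplicit false
set_option maxRecDepth 100000

namespace Pool.Agent.Lib.MP_f04ccf_co

namespace BlkC

/-- the numbers of the pair `(9, 4)`, `R = 20`, `H = 21` -/
def d20_21_9_4 : BlkD.Pd :=
  ⟨20, 21, 4, 9, 4, 5, 1, 3, 0, 4, 8, 0, 2, 2, 6, 0, [0, 8, 16, 20, 20, 20], [0, 6, 12, 16, 18,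
    20], [⟨1, 1, 1, 4, 8, [0, 4], [0, 4]⟩, ⟨1, 1, 1, 4, 14, [0, 8], [0, 6]⟩]⟩

lemma k20_21_9_4 : BlkD.pairOk d20_21_9_4 = true := by decide +kernel

/-- certificates of the pair `(9, 4)`, part 1 -/
def t20_21_9_4_1 : BlkD.Tr :=
  .L 6 9 [5, 3, 20, 20, 20] [] [] 100000 1 1 1533334 66667 33333 100000 66667 0 0 0

lemma s20_21_9_4_1 {n : ℕ} (hn : 6 ≤ n) : NoNd (d20_21_9_4.R : ℤ) d20_21_9_4.H n d20_21_9_4.a d20_21_9_4.b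
    (BlkD.inB (fun _ => 0)
      (BlkD.upd (BlkD.upd (BlkD.upd (BlkD.upd (BlkD.upd (BlkD.upd (fun _ => 21) 0 9) 2 4) 0 4) 0 2) 0 1) 0 0)) :=
  BlkD.tree_sound (BlkD.pairOk_sound k20_21_9_4) (by decide) hn t20_21_9_4_1 _ _ (by decide +kernel)

/-- certificates of the pair `(9, 4)`, part 2 -/
def t20_21_9_4_2 : BlkD.Tr :=
  .S 1 10 (.S 1 5 (.L 6 9 [5, 3, 20, 20, 20] [] [] 100000 1 1 1533334 66667 33333 100000 66667 0 0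
    0) (.L 6 9 [5, 3, 20, 20, 20] [] [] 100000 1 1 1533334 66667 33333 100000 66667 0 0 0)) (.L 6 9
    [5, 3, 20, 20, 20] [] [] 100000 1 1 1533334 66667 33333 100000 66667 0 0 0)

lemma s20_21_9_4_2 {n : ℕ} (hn : 6 ≤ n) : NoNd (d20_21_9_4.R : ℤ) d20_21_9_4.H n d20_21_9_4.a d20_21_9_4.b
    (BlkD.inB (BlkD.upd (fun _ => 0) 0 1)
      (BlkD.upd (BlkD.upd (BlkD.upd (BlkD.upd (BlkD.upd (fun _ => 21) 0 9) 2 4) 0 4) 0 2) 0 1)) :=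
  BlkD.tree_sound (BlkD.pairOk_sound k20_21_9_4) (by decide) hn t20_21_9_4_2 _ _ (by decide +kernel)

/-- certificates of the pair `(9, 4)`, part 3 -/
def t20_21_9_4_3 : BlkD.Tr :=
  .S 1 5 (.L 6 9 [5, 3, 20, 20, 20] [] [] 100000 1 1 1533334 66667 33333 100000 66667 0 0 0) (.L 6
    9 [5, 3, 20, 20, 20] [] [] 100000 1 1 1533334 66667 33333 100000 66667 0 0 0)

lemma s20_21_9_4_3 {n : ℕ} (hn : 6 ≤ n) : NoNd (d20_21_9_4.R : ℤ) d20_21_9_4.H n d20_21_9_4.a d20_21_9_4.b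
    (BlkD.inB (BlkD.upd (fun _ => 0) 0 2)
      (BlkD.upd (BlkD.upd (BlkD.upd (BlkD.upd (BlkD.upd (fun _ => 21) 0 9) 2 4) 0 4) 0 2) 1 10)) :=
  BlkD.tree_sound (BlkD.pairOk_sound k20_21_9_4) (by decide) hn t20_21_9_4_3 _ _ (by decide +kernel)

/-- certificates of the pair `(9, 4)`, part 4 -/
def t20_21_9_4_4 : BlkD.Tr :=
  .L 6 9 [5, 3, 20, 20, 20] [] [] 100000 1 1 1533334 66667 33333 100000 66667 0 0 0

lemma s20_21_9_4_4 {n : ℕ} (hn : 6 ≤ n) : NoNd (d20_21_9_4.R : ℤ) d20_21_9_4.H n d20_21_9_4.a d20_21_9_4.b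
    (BlkD.inB (BlkD.upd (BlkD.upd (fun _ => 0) 0 2) 1 11)
      (BlkD.upd (BlkD.upd (BlkD.upd (BlkD.upd (fun _ => 21) 0 9) 2 4) 0 4) 0 2)) :=
  BlkD.tree_sound (BlkD.pairOk_sound k20_21_9_4) (by decide) hn t20_21_9_4_4 _ _ (by decide +kernel)

/-- certificates of the pair `(9, 4)`, part 5 -/
def t20_21_9_4_5 : BlkD.Tr :=
  .S 1 5 (.L 6 9 [5, 3, 20, 20, 20] [] [] 100000 1 1 1533334 66667 33333 100000 66667 0 0 0) (.L 6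
    9 [5, 3, 20, 20, 20] [] [] 100000 1 1 1533334 66667 33333 100000 66667 0 0 0)

lemma s20_21_9_4_5 {n : ℕ} (hn : 6 ≤ n) : NoNd (d20_21_9_4.R : ℤ) d20_21_9_4.H n d20_21_9_4.a d20_21_9_4.b
    (BlkD.inB (BlkD.upd (fun _ => 0) 0 3)
      (BlkD.upd (BlkD.upd (BlkD.upd (BlkD.upd (BlkD.upd (fun _ => 21) 0 9) 2 4) 0 4) 0 3) 1 10)) :=
  BlkD.tree_sound (BlkD.pairOk_sound k20_21_9_4) (by decide) hn t20_21_9_4_5 _ _ (by decide +kernel)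

/-- certificates of the pair `(9, 4)`, part 6 -/
def t20_21_9_4_6 : BlkD.Tr :=
  .L 6 9 [5, 3, 20, 20, 20] [] [] 100000 1 1 1533334 66667 33333 100000 66667 0 0 0

lemma s20_21_9_4_6 {n : ℕ} (hn : 6 ≤ n) : NoNd (d20_21_9_4.R : ℤ) d20_21_9_4.H n d20_21_9_4.a d20_21_9_4.b
    (BlkD.inB (BlkD.upd (BlkD.upd (fun _ => 0) 0 3) 1 11)
      (BlkD.upd (BlkD.upd (BlkD.upd (BlkD.upd (fun _ => 21) 0 9) 2 4) 0 4) 0 3)) :=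
  BlkD.tree_sound (BlkD.pairOk_sound k20_21_9_4) (by decide) hn t20_21_9_4_6 _ _ (by decide +kernel)

/-- certificates of the pair `(9, 4)`, part 7 -/
def t20_21_9_4_7 : BlkD.Tr :=
  .L 6 9 [5, 3, 20, 20, 20] [] [] 100000 1 1 1533334 66667 33333 100000 66667 0 0 0

lemma s20_21_9_4_7 {n : ℕ} (hn : 6 ≤ n) : NoNd (d20_21_9_4.R : ℤ) d20_21_9_4.H n d20_21_9_4.a d20_21_9_4.b
    (BlkD.inB (BlkD.upd (BlkD.upd (fun _ => 0) 0 3) 0 4)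
      (BlkD.upd (BlkD.upd (BlkD.upd (BlkD.upd (BlkD.upd (fun _ => 21) 0 9) 2 4) 0 4) 1 10) 1 5)) :=
  BlkD.tree_sound (BlkD.pairOk_sound k20_21_9_4) (by decide) hn t20_21_9_4_7 _ _ (by decide +kernel)

/-- certificates of the pair `(9, 4)`, part 8 -/
def t20_21_9_4_8 : BlkD.Tr :=
  .L 6 9 [5, 3, 20, 20, 20] [] [] 100000 1 1 1533334 66667 33333 100000 66667 0 0 0

lemma s20_21_9_4_8 {n : ℕ} (hn : 6 ≤ n) : NoNd (d20_21_9_4.R : ℤ) d20_21_9_4.H n d20_21_9_4.a d20_21_9_4.b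
    (BlkD.inB (BlkD.upd (BlkD.upd (BlkD.upd (fun _ => 0) 0 3) 0 4) 1 6)
      (BlkD.upd (BlkD.upd (BlkD.upd (BlkD.upd (fun _ => 21) 0 9) 2 4) 0 4) 1 10)) :=
  BlkD.tree_sound (BlkD.pairOk_sound k20_21_9_4) (by decide) hn t20_21_9_4_8 _ _ (by decide +kernel)

/-- certificates of the pair `(9, 4)`, part 9 -/
def t20_21_9_4_9 : BlkD.Tr :=
  .L 6 9 [5, 3, 20, 20, 20] [] [] 100000 1 1 1533334 66667 33333 100000 66667 0 0 0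

lemma s20_21_9_4_9 {n : ℕ} (hn : 6 ≤ n) : NoNd (d20_21_9_4.R : ℤ) d20_21_9_4.H n d20_21_9_4.a d20_21_9_4.b
    (BlkD.inB (BlkD.upd (BlkD.upd (BlkD.upd (fun _ => 0) 0 3) 0 4) 1 11)
      (BlkD.upd (BlkD.upd (BlkD.upd (fun _ => 21) 0 9) 2 4) 0 4)) :=
  BlkD.tree_sound (BlkD.pairOk_sound k20_21_9_4) (by decide) hn t20_21_9_4_9 _ _ (by decide +kernel)

/-- certificates of the pair `(9, 4)`, part 10 -/
def t20_21_9_4_10 : BlkD.Tr :=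
  .L 6 9 [5, 3, 20, 20, 20] [] [] 100000 1 1 1533334 66667 33333 100000 66667 0 0 0

lemma s20_21_9_4_10 {n : ℕ} (hn : 6 ≤ n) : NoNd (d20_21_9_4.R : ℤ) d20_21_9_4.H n d20_21_9_4.a d20_21_9_4.b
    (BlkD.inB (BlkD.upd (fun _ => 0) 0 5)
      (BlkD.upd (BlkD.upd (BlkD.upd (BlkD.upd (BlkD.upd (BlkD.upd (BlkD.upd (fun _ => 21) 0 9) 2 4) 0 7) 0 6) 0 5) 1 10) 1 5)) :=
  BlkD.tree_sound (BlkD.pairOk_sound k20_21_9_4) (by decide) hn t20_21_9_4_10 _ _ (by decide +kernel)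

/-- certificates of the pair `(9, 4)`, part 11 -/
def t20_21_9_4_11 : BlkD.Tr :=
  .S 1 8 (.L 6 9 [5, 3, 20, 20, 20] [] [] 100000 1 1 1533334 66667 33333 100000 66667 0 0 0) (.L 6
    9 [5, 3, 20, 20, 20] [] [] 100000 1 1 1533334 66667 33333 100000 66667 0 0 0)

lemma s20_21_9_4_11 {n : ℕ} (hn : 6 ≤ n) : NoNd (d20_21_9_4.R : ℤ) d20_21_9_4.H n d20_21_9_4.a d20_21_9_4.b
    (BlkD.inB (BlkD.upd (BlkD.upd (fun _ => 0) 0 5) 1 6)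
      (BlkD.upd (BlkD.upd (BlkD.upd (BlkD.upd (BlkD.upd (BlkD.upd (fun _ => 21) 0 9) 2 4) 0 7) 0 6) 0 5) 1 10)) :=
  BlkD.tree_sound (BlkD.pairOk_sound k20_21_9_4) (by decide) hn t20_21_9_4_11 _ _ (by decide +kernel)

/-- certificates of the pair `(9, 4)`, part 12 -/
def t20_21_9_4_12 : BlkD.Tr :=
  .L 6 9 [5, 3, 20, 20, 20] [] [] 100000 1 1 1533334 66667 33333 100000 66667 0 0 0

lemma s20_21_9_4_12 {n : ℕ} (hn : 6 ≤ n) : NoNd (d20_21_9_4.R : ℤ) d20_21_9_4.H n d20_21_9_4.a d20_21_9_4.b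
    (BlkD.inB (BlkD.upd (BlkD.upd (fun _ => 0) 0 5) 1 11)
      (BlkD.upd (BlkD.upd (BlkD.upd (BlkD.upd (BlkD.upd (fun _ => 21) 0 9) 2 4) 0 7) 0 6) 0 5)) :=
  BlkD.tree_sound (BlkD.pairOk_sound k20_21_9_4) (by decide) hn t20_21_9_4_12 _ _ (by decide +kernel)

/-- certificates of the pair `(9, 4)`, part 13 -/
def t20_21_9_4_13 : BlkD.Tr :=
  .L 6 9 [5, 3, 20, 20, 20] [] [] 100000 1 1 1533334 66667 33333 100000 66667 0 0 0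

lemma s20_21_9_4_13 {n : ℕ} (hn : 6 ≤ n) : NoNd (d20_21_9_4.R : ℤ) d20_21_9_4.H n d20_21_9_4.a d20_21_9_4.b
    (BlkD.inB (BlkD.upd (BlkD.upd (fun _ => 0) 0 5) 0 6)
      (BlkD.upd (BlkD.upd (BlkD.upd (BlkD.upd (BlkD.upd (BlkD.upd (fun _ => 21) 0 9) 2 4) 0 7) 0 6) 1 10) 1 5)) :=
  BlkD.tree_sound (BlkD.pairOk_sound k20_21_9_4) (by decide) hn t20_21_9_4_13 _ _ (by decide +kernel)

/-- certificates of the pair `(9, 4)`, part 14 -/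
def t20_21_9_4_14 : BlkD.Tr :=
  .L 6 9 [5, 3, 20, 20, 20] [] [] 100000 1 1 1533334 66667 33333 100000 66667 0 0 0

lemma s20_21_9_4_14 {n : ℕ} (hn : 6 ≤ n) : NoNd (d20_21_9_4.R : ℤ) d20_21_9_4.H n d20_21_9_4.a d20_21_9_4.b
    (BlkD.inB (BlkD.upd (BlkD.upd (BlkD.upd (fun _ => 0) 0 5) 0 6) 1 6)
      (BlkD.upd (BlkD.upd (BlkD.upd (BlkD.upd (BlkD.upd (fun _ => 21) 0 9) 2 4) 0 7) 0 6) 1 10)) :=
  BlkD.tree_sound (BlkD.pairOk_sound k20_21_9_4) (by decide) hn t20_21_9_4_14 _ _ (by decide +kernel)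

/-- certificates of the pair `(9, 4)`, part 15 -/
def t20_21_9_4_15 : BlkD.Tr :=
  .L 6 9 [5, 3, 20, 20, 20] [] [] 100000 1 1 1533334 66667 33333 100000 66667 0 0 0

lemma s20_21_9_4_15 {n : ℕ} (hn : 6 ≤ n) : NoNd (d20_21_9_4.R : ℤ) d20_21_9_4.H n d20_21_9_4.a d20_21_9_4.b
    (BlkD.inB (BlkD.upd (BlkD.upd (BlkD.upd (fun _ => 0) 0 5) 0 6) 1 11)
      (BlkD.upd (BlkD.upd (BlkD.upd (BlkD.upd (fun _ => 21) 0 9) 2 4) 0 7) 0 6)) :=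
  BlkD.tree_sound (BlkD.pairOk_sound k20_21_9_4) (by decide) hn t20_21_9_4_15 _ _ (by decide +kernel)

/-- certificates of the pair `(9, 4)`, part 16 -/
def t20_21_9_4_16 : BlkD.Tr :=
  .L 6 9 [5, 3, 20, 20, 20] [] [] 100000 1 1 1533334 66667 33333 100000 66667 0 0 0

lemma s20_21_9_4_16 {n : ℕ} (hn : 6 ≤ n) : NoNd (d20_21_9_4.R : ℤ) d20_21_9_4.H n d20_21_9_4.a d20_21_9_4.b
    (BlkD.inB (BlkD.upd (BlkD.upd (fun _ => 0) 0 5) 0 7)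
      (BlkD.upd (BlkD.upd (BlkD.upd (fun _ => 21) 0 9) 2 4) 0 7)) :=
  BlkD.tree_sound (BlkD.pairOk_sound k20_21_9_4) (by decide) hn t20_21_9_4_16 _ _ (by decide +kernel)

/-- certificates of the pair `(9, 4)`, part 17 -/
def t20_21_9_4_17 : BlkD.Tr :=
  .L 6 9 [5, 3, 20, 20, 20] [] [] 100000 1 1 1533334 66667 33333 100000 66667 0 0 0

lemma s20_21_9_4_17 {n : ℕ} (hn : 6 ≤ n) : NoNd (d20_21_9_4.R : ℤ) d20_21_9_4.H n d20_21_9_4.a d20_21_9_4.b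
    (BlkD.inB (BlkD.upd (BlkD.upd (fun _ => 0) 0 5) 0 8)
      (BlkD.upd (BlkD.upd (fun _ => 21) 0 9) 2 4)) :=
  BlkD.tree_sound (BlkD.pairOk_sound k20_21_9_4) (by decide) hn t20_21_9_4_17 _ _ (by decide +kernel)

/-- certificates of the pair `(9, 4)`, part 18 -/
def t20_21_9_4_18 : BlkD.Tr :=
  .E 1

lemma s20_21_9_4_18 {n : ℕ} (hn : 6 ≤ n) : NoNd (d20_21_9_4.R : ℤ) d20_21_9_4.H n d20_21_9_4.a d20_21_9_4.b
    (BlkD.inB (BlkD.upd (fun _ => 0) 2 5)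
      (BlkD.upd (fun _ => 21) 0 9)) :=
  BlkD.tree_sound (BlkD.pairOk_sound k20_21_9_4) (by decide) hn t20_21_9_4_18 _ _ (by decide +kernel)

/-- certificates of the pair `(9, 4)`, part 19 -/
def t20_21_9_4_19 : BlkD.Tr :=
  .E 0

lemma s20_21_9_4_19 {n : ℕ} (hn : 6 ≤ n) : NoNd (d20_21_9_4.R : ℤ) d20_21_9_4.H n d20_21_9_4.a d20_21_9_4.b
    (BlkD.inB (BlkD.upd (fun _ => 0) 0 10)
      (fun _ => 21)) :=
  BlkD.tree_sound (BlkD.pairOk_sound k20_21_9_4) (by decide) hn t20_21_9_4_19 _ _ (by decide +kernel)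

lemma pr20_21_9_4 {n : ℕ} (hn : 6 ≤ n) : NoPr ((20 : ℕ) : ℤ) ((21 : ℕ) : ℤ) n 9 4 :=
  BlkD.of_root (R := d20_21_9_4.R) (H := d20_21_9_4.H) (a := d20_21_9_4.a) (b := d20_21_9_4.b) (q := 4) (by decide) hn
    (BlkD.sp 0 9 (BlkD.sp 2 4 (BlkD.sp 0 4 (BlkD.sp 0 2 (BlkD.sp 0 1 (BlkD.sp 0 0 (s20_21_9_4_1 hn)
      (s20_21_9_4_2 hn)) (BlkD.sp 1 10 (s20_21_9_4_3 hn) (s20_21_9_4_4 hn))) (BlkD.sp 0 3 (BlkD.sp
      1 10 (s20_21_9_4_5 hn) (s20_21_9_4_6 hn)) (BlkD.sp 1 10 (BlkD.sp 1 5 (s20_21_9_4_7 hn)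
      (s20_21_9_4_8 hn)) (s20_21_9_4_9 hn)))) (BlkD.sp 0 7 (BlkD.sp 0 6 (BlkD.sp 0 5 (BlkD.sp 1 10
      (BlkD.sp 1 5 (s20_21_9_4_10 hn) (s20_21_9_4_11 hn)) (s20_21_9_4_12 hn)) (BlkD.sp 1 10
      (BlkD.sp 1 5 (s20_21_9_4_13 hn) (s20_21_9_4_14 hn)) (s20_21_9_4_15 hn))) (s20_21_9_4_16 hn))
      (s20_21_9_4_17 hn))) (s20_21_9_4_18 hn)) (s20_21_9_4_19 hn))

end BlkC

end Pool.Agent.Lib.MP_f04ccf_co
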