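import Pool.Agent.Lib.MP_f04ccf_co.M.BlkT

/-!
MP_f04ccf_co, block certificate, data `R = 20`, `H = 21`, part 15 (generated, helper99:
bd10.cpp, gen2.py).
-/

set_option autoImplicit false
set_option maxRecDepth 100000

namespace Pool.Agent.Lib.MP_f04ccf_co

namespace BlkC

/-- the numbers of the pair `(9, 5)`, `R = 20`, `H = 21` -/
def d20_21_9_5 : BlkD.Pd :=
  ⟨20, 21, 4, 9, 5, 4, 0, 4, 0, 4, 4, 0, 0, 4, 4, 0, [0, 4, 8, 12, 16], [0, 4, 8, 12, 16], [⟨1, 1,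
    1, 4, 8, [0, 4], [0, 4]⟩]⟩

lemma k20_21_9_5 : BlkD.pairOk d20_21_9_5 = true := by decide +kernel

/-- certificates of the pair `(9, 5)`, part 1 -/
def t20_21_9_5_1 : BlkD.Tr :=
  .L 4 4 [4, 20, 20, 20, 20, 20] [] [] 100000 0 0 1600000 100000 50000 100000 50000 0 0 0

lemma s20_21_9_5_1 {n : ℕ} (hn : 6 ≤ n) : NoNd (d20_21_9_5.R : ℤ) d20_21_9_5.H n d20_21_9_5.a d20_21_9_5.b
    (BlkD.inB (fun _ => 0)
      (BlkD.upd (BlkD.upd (BlkD.upd (BlkD.upd (BlkD.upd (BlkD.upd (fun _ => 21) 0 9) 2 5) 0 4) 0 2) 0 1) 0 0)) :=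
  BlkD.tree_sound (BlkD.pairOk_sound k20_21_9_5) (by decide) hn t20_21_9_5_1 _ _ (by decide +kernel)

/-- certificates of the pair `(9, 5)`, part 2 -/
def t20_21_9_5_2 : BlkD.Tr :=
  .L 4 4 [4, 20, 20, 20, 20, 20] [] [] 100000 0 0 1600000 100000 50000 100000 50000 0 0 0

lemma s20_21_9_5_2 {n : ℕ} (hn : 6 ≤ n) : NoNd (d20_21_9_5.R : ℤ) d20_21_9_5.H n d20_21_9_5.a d20_21_9_5.b
    (BlkD.inB (BlkD.upd (fun _ => 0) 0 1)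
      (BlkD.upd (BlkD.upd (BlkD.upd (BlkD.upd (BlkD.upd (BlkD.upd (BlkD.upd (fun _ => 21) 0 9) 2 5) 0 4) 0 2) 0 1) 1 10) 1 5)) :=
  BlkD.tree_sound (BlkD.pairOk_sound k20_21_9_5) (by decide) hn t20_21_9_5_2 _ _ (by decide +kernel)

/-- certificates of the pair `(9, 5)`, part 3 -/
def t20_21_9_5_3 : BlkD.Tr :=
  .L 4 4 [4, 20, 20, 20, 20, 20] [] [] 100000 0 0 1600000 100000 50000 100000 50000 0 0 0

lemma s20_21_9_5_3 {n : ℕ} (hn : 6 ≤ n) : NoNd (d20_21_9_5.R : ℤ) d20_21_9_5.H n d20_21_9_5.a d20_21_9_5.b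
    (BlkD.inB (BlkD.upd (BlkD.upd (fun _ => 0) 0 1) 1 6)
      (BlkD.upd (BlkD.upd (BlkD.upd (BlkD.upd (BlkD.upd (BlkD.upd (fun _ => 21) 0 9) 2 5) 0 4) 0 2) 0 1) 1 10)) :=
  BlkD.tree_sound (BlkD.pairOk_sound k20_21_9_5) (by decide) hn t20_21_9_5_3 _ _ (by decide +kernel)

/-- certificates of the pair `(9, 5)`, part 4 -/
def t20_21_9_5_4 : BlkD.Tr :=
  .L 4 4 [4, 20, 20, 20, 20, 20] [] [] 100000 0 0 1600000 100000 50000 100000 50000 0 0 0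

lemma s20_21_9_5_4 {n : ℕ} (hn : 6 ≤ n) : NoNd (d20_21_9_5.R : ℤ) d20_21_9_5.H n d20_21_9_5.a d20_21_9_5.b
    (BlkD.inB (BlkD.upd (BlkD.upd (fun _ => 0) 0 1) 1 11)
      (BlkD.upd (BlkD.upd (BlkD.upd (BlkD.upd (BlkD.upd (fun _ => 21) 0 9) 2 5) 0 4) 0 2) 0 1)) :=
  BlkD.tree_sound (BlkD.pairOk_sound k20_21_9_5) (by decide) hn t20_21_9_5_4 _ _ (by decide +kernel)

/-- certificates of the pair `(9, 5)`, part 5 -/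
def t20_21_9_5_5 : BlkD.Tr :=
  .L 4 4 [4, 20, 20, 20, 20, 20] [] [] 100000 0 0 1600000 100000 50000 100000 50000 0 0 0

lemma s20_21_9_5_5 {n : ℕ} (hn : 6 ≤ n) : NoNd (d20_21_9_5.R : ℤ) d20_21_9_5.H n d20_21_9_5.a d20_21_9_5.b
    (BlkD.inB (BlkD.upd (fun _ => 0) 0 2)
      (BlkD.upd (BlkD.upd (BlkD.upd (BlkD.upd (BlkD.upd (BlkD.upd (fun _ => 21) 0 9) 2 5) 0 4) 0 2) 1 10) 1 5)) :=
  BlkD.tree_sound (BlkD.pairOk_sound k20_21_9_5) (by decide) hn t20_21_9_5_5 _ _ (by decide +kernel)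

/-- certificates of the pair `(9, 5)`, part 6 -/
def t20_21_9_5_6 : BlkD.Tr :=
  .L 4 4 [4, 20, 20, 20, 20, 20] [] [] 100000 0 0 1600000 100000 50000 100000 50000 0 0 0

lemma s20_21_9_5_6 {n : ℕ} (hn : 6 ≤ n) : NoNd (d20_21_9_5.R : ℤ) d20_21_9_5.H n d20_21_9_5.a d20_21_9_5.b
    (BlkD.inB (BlkD.upd (BlkD.upd (fun _ => 0) 0 2) 1 6)
      (BlkD.upd (BlkD.upd (BlkD.upd (BlkD.upd (BlkD.upd (fun _ => 21) 0 9) 2 5) 0 4) 0 2) 1 10)) :=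
  BlkD.tree_sound (BlkD.pairOk_sound k20_21_9_5) (by decide) hn t20_21_9_5_6 _ _ (by decide +kernel)

/-- certificates of the pair `(9, 5)`, part 7 -/
def t20_21_9_5_7 : BlkD.Tr :=
  .L 4 4 [4, 20, 20, 20, 20, 20] [] [] 100000 0 0 1600000 100000 50000 100000 50000 0 0 0

lemma s20_21_9_5_7 {n : ℕ} (hn : 6 ≤ n) : NoNd (d20_21_9_5.R : ℤ) d20_21_9_5.H n d20_21_9_5.a d20_21_9_5.b
    (BlkD.inB (BlkD.upd (BlkD.upd (fun _ => 0) 0 2) 1 11)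
      (BlkD.upd (BlkD.upd (BlkD.upd (BlkD.upd (fun _ => 21) 0 9) 2 5) 0 4) 0 2)) :=
  BlkD.tree_sound (BlkD.pairOk_sound k20_21_9_5) (by decide) hn t20_21_9_5_7 _ _ (by decide +kernel)

/-- certificates of the pair `(9, 5)`, part 8 -/
def t20_21_9_5_8 : BlkD.Tr :=
  .L 4 4 [4, 20, 20, 20, 20, 20] [] [] 100000 0 0 1600000 100000 50000 100000 50000 0 0 0

lemma s20_21_9_5_8 {n : ℕ} (hn : 6 ≤ n) : NoNd (d20_21_9_5.R : ℤ) d20_21_9_5.H n d20_21_9_5.a d20_21_9_5.b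
    (BlkD.inB (BlkD.upd (fun _ => 0) 0 3)
      (BlkD.upd (BlkD.upd (BlkD.upd (BlkD.upd (BlkD.upd (BlkD.upd (fun _ => 21) 0 9) 2 5) 0 4) 0 3) 1 10) 1 5)) :=
  BlkD.tree_sound (BlkD.pairOk_sound k20_21_9_5) (by decide) hn t20_21_9_5_8 _ _ (by decide +kernel)

/-- certificates of the pair `(9, 5)`, part 9 -/
def t20_21_9_5_9 : BlkD.Tr :=
  .S 1 8 (.L 4 4 [4, 20, 20, 20, 20, 20] [] [] 100000 0 0 1600000 100000 50000 100000 50000 0 0 0)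
    (.L 4 4 [4, 20, 20, 20, 20, 20] [] [] 100000 0 0 1600000 100000 50000 100000 50000 0 0 0)

lemma s20_21_9_5_9 {n : ℕ} (hn : 6 ≤ n) : NoNd (d20_21_9_5.R : ℤ) d20_21_9_5.H n d20_21_9_5.a d20_21_9_5.b
    (BlkD.inB (BlkD.upd (BlkD.upd (fun _ => 0) 0 3) 1 6)
      (BlkD.upd (BlkD.upd (BlkD.upd (BlkD.upd (BlkD.upd (fun _ => 21) 0 9) 2 5) 0 4) 0 3) 1 10)) :=
  BlkD.tree_sound (BlkD.pairOk_sound k20_21_9_5) (by decide) hn t20_21_9_5_9 _ _ (by decide +kernel)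

/-- certificates of the pair `(9, 5)`, part 10 -/
def t20_21_9_5_10 : BlkD.Tr :=
  .L 4 4 [4, 20, 20, 20, 20, 20] [] [] 100000 0 0 1600000 100000 50000 100000 50000 0 0 0

lemma s20_21_9_5_10 {n : ℕ} (hn : 6 ≤ n) : NoNd (d20_21_9_5.R : ℤ) d20_21_9_5.H n d20_21_9_5.a d20_21_9_5.b
    (BlkD.inB (BlkD.upd (BlkD.upd (fun _ => 0) 0 3) 1 11)
      (BlkD.upd (BlkD.upd (BlkD.upd (BlkD.upd (fun _ => 21) 0 9) 2 5) 0 4) 0 3)) :=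
  BlkD.tree_sound (BlkD.pairOk_sound k20_21_9_5) (by decide) hn t20_21_9_5_10 _ _ (by decide +kernel)

/-- certificates of the pair `(9, 5)`, part 11 -/
def t20_21_9_5_11 : BlkD.Tr :=
  .L 4 4 [4, 20, 20, 20, 20, 20] [] [] 100000 0 0 1600000 100000 50000 100000 50000 0 0 0

lemma s20_21_9_5_11 {n : ℕ} (hn : 6 ≤ n) : NoNd (d20_21_9_5.R : ℤ) d20_21_9_5.H n d20_21_9_5.a d20_21_9_5.b
    (BlkD.inB (BlkD.upd (BlkD.upd (fun _ => 0) 0 3) 0 4)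
      (BlkD.upd (BlkD.upd (BlkD.upd (BlkD.upd (BlkD.upd (fun _ => 21) 0 9) 2 5) 0 4) 1 10) 1 5)) :=
  BlkD.tree_sound (BlkD.pairOk_sound k20_21_9_5) (by decide) hn t20_21_9_5_11 _ _ (by decide +kernel)

/-- certificates of the pair `(9, 5)`, part 12 -/
def t20_21_9_5_12 : BlkD.Tr :=
  .S 1 7 (.L 4 4 [4, 20, 20, 20, 20, 20] [] [] 100000 0 0 1600000 100000 50000 100000 50000 0 0 0)
    (.L 4 4 [4, 20, 20, 20, 20, 20] [188, 184, 180, 176, 172, 162] [] 100000 0 0 1600000 100000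
    50000 100000 50000 0 0 0)

lemma s20_21_9_5_12 {n : ℕ} (hn : 6 ≤ n) : NoNd (d20_21_9_5.R : ℤ) d20_21_9_5.H n d20_21_9_5.a d20_21_9_5.b
    (BlkD.inB (BlkD.upd (BlkD.upd (BlkD.upd (fun _ => 0) 0 3) 0 4) 1 6)
      (BlkD.upd (BlkD.upd (BlkD.upd (BlkD.upd (BlkD.upd (fun _ => 21) 0 9) 2 5) 0 4) 1 10) 1 8)) :=
  BlkD.tree_sound (BlkD.pairOk_sound k20_21_9_5) (by decide) hn t20_21_9_5_12 _ _ (by decide +kernel)

/-- certificates of the pair `(9, 5)`, part 13 -/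
def t20_21_9_5_13 : BlkD.Tr :=
  .L 4 4 [4, 20, 20, 20, 20, 20] [212, 212, 208, 204, 200, 196] [] 100000 0 0 1600000 100000 50000
    100000 50000 0 0 0

lemma s20_21_9_5_13 {n : ℕ} (hn : 6 ≤ n) : NoNd (d20_21_9_5.R : ℤ) d20_21_9_5.H n d20_21_9_5.a d20_21_9_5.b
    (BlkD.inB (BlkD.upd (BlkD.upd (BlkD.upd (BlkD.upd (fun _ => 0) 0 3) 0 4) 1 6) 1 9)
      (BlkD.upd (BlkD.upd (BlkD.upd (BlkD.upd (BlkD.upd (fun _ => 21) 0 9) 2 5) 0 4) 1 10) 1 9)) :=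
  BlkD.tree_sound (BlkD.pairOk_sound k20_21_9_5) (by decide) hn t20_21_9_5_13 _ _ (by decide +kernel)

/-- certificates of the pair `(9, 5)`, part 14 -/
def t20_21_9_5_14 : BlkD.Tr :=
  .L 4 4 [4, 20, 20, 20, 20, 20] [238, 238, 238, 234, 230, 226] [] 100000 0 0 1600000 100000 50000
    100000 50000 0 0 0

lemma s20_21_9_5_14 {n : ℕ} (hn : 6 ≤ n) : NoNd (d20_21_9_5.R : ℤ) d20_21_9_5.H n d20_21_9_5.a d20_21_9_5.b
    (BlkD.inB (BlkD.upd (BlkD.upd (BlkD.upd (BlkD.upd (BlkD.upd (fun _ => 0) 0 3) 0 4) 1 6) 1 9) 1 10)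
      (BlkD.upd (BlkD.upd (BlkD.upd (BlkD.upd (fun _ => 21) 0 9) 2 5) 0 4) 1 10)) :=
  BlkD.tree_sound (BlkD.pairOk_sound k20_21_9_5) (by decide) hn t20_21_9_5_14 _ _ (by decide +kernel)

/-- certificates of the pair `(9, 5)`, part 15 -/
def t20_21_9_5_15 : BlkD.Tr :=
  .S 1 11 (.L 4 4 [4, 20, 20, 20, 20, 20] [266, 266, 266, 266, 262, 258] [] 100000 0 0 1600000
    100000 50000 100000 50000 0 0 0) (.L 4 4 [4, 20, 20, 20, 20, 20] [296, 296, 296, 296, 296, 292]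
    [] 100000 0 0 1600000 100000 50000 100000 50000 0 0 0)

lemma s20_21_9_5_15 {n : ℕ} (hn : 6 ≤ n) : NoNd (d20_21_9_5.R : ℤ) d20_21_9_5.H n d20_21_9_5.a d20_21_9_5.b
    (BlkD.inB (BlkD.upd (BlkD.upd (BlkD.upd (fun _ => 0) 0 3) 0 4) 1 11)
      (BlkD.upd (BlkD.upd (BlkD.upd (BlkD.upd (BlkD.upd (BlkD.upd (fun _ => 21) 0 9) 2 5) 0 4) 1 16) 1 13) 1 12)) :=
  BlkD.tree_sound (BlkD.pairOk_sound k20_21_9_5) (by decide) hn t20_21_9_5_15 _ _ (by decide +kernel)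

/-- certificates of the pair `(9, 5)`, part 16 -/
def t20_21_9_5_16 : BlkD.Tr :=
  .L 4 4 [4, 20, 20, 20, 20, 20] [328, 328, 328, 328, 328, 328] [] 100000 0 0 1600000 100000 50000
    100000 50000 0 0 0

lemma s20_21_9_5_16 {n : ℕ} (hn : 6 ≤ n) : NoNd (d20_21_9_5.R : ℤ) d20_21_9_5.H n d20_21_9_5.a d20_21_9_5.b
    (BlkD.inB (BlkD.upd (BlkD.upd (BlkD.upd (BlkD.upd (fun _ => 0) 0 3) 0 4) 1 11) 1 13)
      (BlkD.upd (BlkD.upd (BlkD.upd (BlkD.upd (BlkD.upd (fun _ => 21) 0 9) 2 5) 0 4) 1 16) 1 13)) :=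
  BlkD.tree_sound (BlkD.pairOk_sound k20_21_9_5) (by decide) hn t20_21_9_5_16 _ _ (by decide +kernel)

/-- certificates of the pair `(9, 5)`, part 17 -/
def t20_21_9_5_17 : BlkD.Tr :=
  .L 4 4 [4, 20, 20, 20, 20, 20] [] [] 100000 0 0 1600000 100000 50000 100000 50000 0 0 0

lemma s20_21_9_5_17 {n : ℕ} (hn : 6 ≤ n) : NoNd (d20_21_9_5.R : ℤ) d20_21_9_5.H n d20_21_9_5.a d20_21_9_5.b
    (BlkD.inB (BlkD.upd (BlkD.upd (BlkD.upd (BlkD.upd (fun _ => 0) 0 3) 0 4) 1 11) 1 14)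
      (BlkD.upd (BlkD.upd (BlkD.upd (BlkD.upd (fun _ => 21) 0 9) 2 5) 0 4) 1 16)) :=
  BlkD.tree_sound (BlkD.pairOk_sound k20_21_9_5) (by decide) hn t20_21_9_5_17 _ _ (by decide +kernel)

/-- certificates of the pair `(9, 5)`, part 18 -/
def t20_21_9_5_18 : BlkD.Tr :=
  .L 4 4 [4, 20, 20, 20, 20, 20] [] [] 100000 0 0 1600000 100000 50000 100000 50000 0 0 0

lemma s20_21_9_5_18 {n : ℕ} (hn : 6 ≤ n) : NoNd (d20_21_9_5.R : ℤ) d20_21_9_5.H n d20_21_9_5.a d20_21_9_5.b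
    (BlkD.inB (BlkD.upd (BlkD.upd (BlkD.upd (BlkD.upd (fun _ => 0) 0 3) 0 4) 1 11) 1 17)
      (BlkD.upd (BlkD.upd (BlkD.upd (fun _ => 21) 0 9) 2 5) 0 4)) :=
  BlkD.tree_sound (BlkD.pairOk_sound k20_21_9_5) (by decide) hn t20_21_9_5_18 _ _ (by decide +kernel)

/-- certificates of the pair `(9, 5)`, part 19 -/
def t20_21_9_5_19 : BlkD.Tr :=
  .L 4 4 [4, 20, 20, 20, 20, 20] [] [] 100000 0 0 1600000 100000 50000 100000 50000 0 0 0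

lemma s20_21_9_5_19 {n : ℕ} (hn : 6 ≤ n) : NoNd (d20_21_9_5.R : ℤ) d20_21_9_5.H n d20_21_9_5.a d20_21_9_5.b
    (BlkD.inB (BlkD.upd (fun _ => 0) 0 5)
      (BlkD.upd (BlkD.upd (BlkD.upd (BlkD.upd (BlkD.upd (BlkD.upd (BlkD.upd (fun _ => 21) 0 9) 2 5) 0 7) 0 6) 0 5) 1 10) 1 5)) :=
  BlkD.tree_sound (BlkD.pairOk_sound k20_21_9_5) (by decide) hn t20_21_9_5_19 _ _ (by decide +kernel)

/-- certificates of the pair `(9, 5)`, part 20 -/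
def t20_21_9_5_20 : BlkD.Tr :=
  .L 4 4 [4, 20, 20, 20, 20, 20] [] [] 100000 0 0 1600000 100000 50000 100000 50000 0 0 0

lemma s20_21_9_5_20 {n : ℕ} (hn : 6 ≤ n) : NoNd (d20_21_9_5.R : ℤ) d20_21_9_5.H n d20_21_9_5.a d20_21_9_5.b
    (BlkD.inB (BlkD.upd (BlkD.upd (fun _ => 0) 0 5) 1 6)
      (BlkD.upd (BlkD.upd (BlkD.upd (BlkD.upd (BlkD.upd (BlkD.upd (BlkD.upd (BlkD.upd (fun _ => 21) 0 9) 2 5) 0 7) 0 6) 0 5) 1 10) 1 8) 1 7)) :=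
  BlkD.tree_sound (BlkD.pairOk_sound k20_21_9_5) (by decide) hn t20_21_9_5_20 _ _ (by decide +kernel)

/-- certificates of the pair `(9, 5)`, part 21 -/
def t20_21_9_5_21 : BlkD.Tr :=
  .L 4 4 [4, 20, 20, 20, 20, 20] [204, 200, 196, 192, 188, 178] [] 100000 0 0 1600000 100000 50000
    100000 50000 0 0 0

lemma s20_21_9_5_21 {n : ℕ} (hn : 6 ≤ n) : NoNd (d20_21_9_5.R : ℤ) d20_21_9_5.H n d20_21_9_5.a d20_21_9_5.b
    (BlkD.inB (BlkD.upd (BlkD.upd (BlkD.upd (fun _ => 0) 0 5) 1 6) 1 8)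
      (BlkD.upd (BlkD.upd (BlkD.upd (BlkD.upd (BlkD.upd (BlkD.upd (BlkD.upd (fun _ => 21) 0 9) 2 5) 0 7) 0 6) 0 5) 1 10) 1 8)) :=
  BlkD.tree_sound (BlkD.pairOk_sound k20_21_9_5) (by decide) hn t20_21_9_5_21 _ _ (by decide +kernel)

/-- certificates of the pair `(9, 5)`, part 22 -/
def t20_21_9_5_22 : BlkD.Tr :=
  .L 4 4 [4, 20, 20, 20, 20, 20] [230, 230, 226, 222, 218, 214] [] 100000 0 0 1600000 100000 50000
    100000 50000 0 0 0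

lemma s20_21_9_5_22 {n : ℕ} (hn : 6 ≤ n) : NoNd (d20_21_9_5.R : ℤ) d20_21_9_5.H n d20_21_9_5.a d20_21_9_5.b
    (BlkD.inB (BlkD.upd (BlkD.upd (BlkD.upd (fun _ => 0) 0 5) 1 6) 1 9)
      (BlkD.upd (BlkD.upd (BlkD.upd (BlkD.upd (BlkD.upd (BlkD.upd (BlkD.upd (fun _ => 21) 0 9) 2 5) 0 7) 0 6) 0 5) 1 10) 1 9)) :=
  BlkD.tree_sound (BlkD.pairOk_sound k20_21_9_5) (by decide) hn t20_21_9_5_22 _ _ (by decide +kernel)

/-- certificates of the pair `(9, 5)`, part 23 -/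
def t20_21_9_5_23 : BlkD.Tr :=
  .L 4 4 [4, 20, 20, 20, 20, 20] [258, 258, 258, 254, 250, 246] [] 100000 0 0 1600000 100000 50000
    100000 50000 0 0 0

lemma s20_21_9_5_23 {n : ℕ} (hn : 6 ≤ n) : NoNd (d20_21_9_5.R : ℤ) d20_21_9_5.H n d20_21_9_5.a d20_21_9_5.b
    (BlkD.inB (BlkD.upd (BlkD.upd (BlkD.upd (BlkD.upd (fun _ => 0) 0 5) 1 6) 1 9) 1 10)
      (BlkD.upd (BlkD.upd (BlkD.upd (BlkD.upd (BlkD.upd (BlkD.upd (fun _ => 21) 0 9) 2 5) 0 7) 0 6) 0 5) 1 10)) :=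
  BlkD.tree_sound (BlkD.pairOk_sound k20_21_9_5) (by decide) hn t20_21_9_5_23 _ _ (by decide +kernel)

/-- certificates of the pair `(9, 5)`, part 24 -/
def t20_21_9_5_24 : BlkD.Tr :=
  .S 1 16 (.S 1 13 (.L 4 4 [4, 20, 20, 20, 20, 20] [] [] 100000 0 0 1600000 100000 50000 100000
    50000 0 0 0) (.L 4 4 [4, 20, 20, 20, 20, 20] [] [] 100000 0 0 1600000 100000 50000 100000 50000
    0 0 0)) (.L 4 4 [4, 20, 20, 20, 20, 20] [] [] 100000 0 0 1600000 100000 50000 100000 50000 0 0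
    0)

lemma s20_21_9_5_24 {n : ℕ} (hn : 6 ≤ n) : NoNd (d20_21_9_5.R : ℤ) d20_21_9_5.H n d20_21_9_5.a d20_21_9_5.b
    (BlkD.inB (BlkD.upd (BlkD.upd (fun _ => 0) 0 5) 1 11)
      (BlkD.upd (BlkD.upd (BlkD.upd (BlkD.upd (BlkD.upd (fun _ => 21) 0 9) 2 5) 0 7) 0 6) 0 5)) :=
  BlkD.tree_sound (BlkD.pairOk_sound k20_21_9_5) (by decide) hn t20_21_9_5_24 _ _ (by decide +kernel)

/-- certificates of the pair `(9, 5)`, part 25 -/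
def t20_21_9_5_25 : BlkD.Tr :=
  .L 4 4 [4, 20, 20, 20, 20, 20] [] [] 100000 0 0 1600000 100000 50000 100000 50000 0 0 0

lemma s20_21_9_5_25 {n : ℕ} (hn : 6 ≤ n) : NoNd (d20_21_9_5.R : ℤ) d20_21_9_5.H n d20_21_9_5.a d20_21_9_5.b
    (BlkD.inB (BlkD.upd (BlkD.upd (fun _ => 0) 0 5) 0 6)
      (BlkD.upd (BlkD.upd (BlkD.upd (BlkD.upd (BlkD.upd (BlkD.upd (fun _ => 21) 0 9) 2 5) 0 7) 0 6) 1 10) 1 5)) :=
  BlkD.tree_sound (BlkD.pairOk_sound k20_21_9_5) (by decide) hn t20_21_9_5_25 _ _ (by decide +kernel)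

/-- certificates of the pair `(9, 5)`, part 26 -/
def t20_21_9_5_26 : BlkD.Tr :=
  .S 1 6 (.L 4 4 [4, 20, 20, 20, 20, 20] [162, 158, 154, 144, 132, 116] [] 100000 0 0 1600000
    100000 50000 100000 50000 0 0 0) (.L 4 4 [4, 20, 20, 20, 20, 20] [190, 186, 182, 178, 168, 156]
    [] 100000 0 0 1600000 100000 50000 100000 50000 0 0 0)

lemma s20_21_9_5_26 {n : ℕ} (hn : 6 ≤ n) : NoNd (d20_21_9_5.R : ℤ) d20_21_9_5.H n d20_21_9_5.a d20_21_9_5.b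
    (BlkD.inB (BlkD.upd (BlkD.upd (BlkD.upd (fun _ => 0) 0 5) 0 6) 1 6)
      (BlkD.upd (BlkD.upd (BlkD.upd (BlkD.upd (BlkD.upd (BlkD.upd (BlkD.upd (fun _ => 21) 0 9) 2 5) 0 7) 0 6) 1 10) 1 8) 1 7)) :=
  BlkD.tree_sound (BlkD.pairOk_sound k20_21_9_5) (by decide) hn t20_21_9_5_26 _ _ (by decide +kernel)

/-- certificates of the pair `(9, 5)`, part 27 -/
def t20_21_9_5_27 : BlkD.Tr :=
  .L 4 4 [4, 20, 20, 20, 20, 20] [220, 216, 212, 208, 204, 194] [] 100000 0 0 1600000 100000 50000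
    100000 50000 0 0 0

lemma s20_21_9_5_27 {n : ℕ} (hn : 6 ≤ n) : NoNd (d20_21_9_5.R : ℤ) d20_21_9_5.H n d20_21_9_5.a d20_21_9_5.b
    (BlkD.inB (BlkD.upd (BlkD.upd (BlkD.upd (BlkD.upd (fun _ => 0) 0 5) 0 6) 1 6) 1 8)
      (BlkD.upd (BlkD.upd (BlkD.upd (BlkD.upd (BlkD.upd (BlkD.upd (fun _ => 21) 0 9) 2 5) 0 7) 0 6) 1 10) 1 8)) :=
  BlkD.tree_sound (BlkD.pairOk_sound k20_21_9_5) (by decide) hn t20_21_9_5_27 _ _ (by decide +kernel)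

/-- certificates of the pair `(9, 5)`, part 28 -/
def t20_21_9_5_28 : BlkD.Tr :=
  .L 4 4 [4, 20, 20, 20, 20, 20] [] [] 100000 0 0 1600000 100000 50000 100000 50000 0 0 0

lemma s20_21_9_5_28 {n : ℕ} (hn : 6 ≤ n) : NoNd (d20_21_9_5.R : ℤ) d20_21_9_5.H n d20_21_9_5.a d20_21_9_5.b
    (BlkD.inB (BlkD.upd (BlkD.upd (BlkD.upd (BlkD.upd (fun _ => 0) 0 5) 0 6) 1 6) 1 9)
      (BlkD.upd (BlkD.upd (BlkD.upd (BlkD.upd (BlkD.upd (fun _ => 21) 0 9) 2 5) 0 7) 0 6) 1 10)) :=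
  BlkD.tree_sound (BlkD.pairOk_sound k20_21_9_5) (by decide) hn t20_21_9_5_28 _ _ (by decide +kernel)

/-- certificates of the pair `(9, 5)`, part 29 -/
def t20_21_9_5_29 : BlkD.Tr :=
  .L 4 4 [4, 20, 20, 20, 20, 20] [] [] 100000 0 0 1600000 100000 50000 100000 50000 0 0 0

lemma s20_21_9_5_29 {n : ℕ} (hn : 6 ≤ n) : NoNd (d20_21_9_5.R : ℤ) d20_21_9_5.H n d20_21_9_5.a d20_21_9_5.b
    (BlkD.inB (BlkD.upd (BlkD.upd (BlkD.upd (fun _ => 0) 0 5) 0 6) 1 11)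
      (BlkD.upd (BlkD.upd (BlkD.upd (BlkD.upd (fun _ => 21) 0 9) 2 5) 0 7) 0 6)) :=
  BlkD.tree_sound (BlkD.pairOk_sound k20_21_9_5) (by decide) hn t20_21_9_5_29 _ _ (by decide +kernel)

/-- certificates of the pair `(9, 5)`, part 30 -/
def t20_21_9_5_30 : BlkD.Tr :=
  .L 4 4 [4, 20, 20, 20, 20, 20] [] [] 100000 0 0 1600000 100000 50000 100000 50000 0 0 0

lemma s20_21_9_5_30 {n : ℕ} (hn : 6 ≤ n) : NoNd (d20_21_9_5.R : ℤ) d20_21_9_5.H n d20_21_9_5.a d20_21_9_5.b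
    (BlkD.inB (BlkD.upd (BlkD.upd (fun _ => 0) 0 5) 0 7)
      (BlkD.upd (BlkD.upd (BlkD.upd (BlkD.upd (BlkD.upd (fun _ => 21) 0 9) 2 5) 0 7) 1 10) 1 5)) :=
  BlkD.tree_sound (BlkD.pairOk_sound k20_21_9_5) (by decide) hn t20_21_9_5_30 _ _ (by decide +kernel)

/-- certificates of the pair `(9, 5)`, part 31 -/
def t20_21_9_5_31 : BlkD.Tr :=
  .S 1 8 (.L 4 4 [4, 20, 20, 20, 20, 20] [] [] 100000 0 0 1600000 100000 50000 100000 50000 0 0 0)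
    (.L 4 4 [4, 20, 20, 20, 20, 20] [] [] 100000 0 0 1600000 100000 50000 100000 50000 0 0 0)

lemma s20_21_9_5_31 {n : ℕ} (hn : 6 ≤ n) : NoNd (d20_21_9_5.R : ℤ) d20_21_9_5.H n d20_21_9_5.a d20_21_9_5.b
    (BlkD.inB (BlkD.upd (BlkD.upd (BlkD.upd (fun _ => 0) 0 5) 0 7) 1 6)
      (BlkD.upd (BlkD.upd (BlkD.upd (BlkD.upd (fun _ => 21) 0 9) 2 5) 0 7) 1 10)) :=
  BlkD.tree_sound (BlkD.pairOk_sound k20_21_9_5) (by decide) hn t20_21_9_5_31 _ _ (by decide +kernel)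

/-- certificates of the pair `(9, 5)`, part 32 -/
def t20_21_9_5_32 : BlkD.Tr :=
  .L 4 4 [4, 20, 20, 20, 20, 20] [] [] 100000 0 0 1600000 100000 50000 100000 50000 0 0 0

lemma s20_21_9_5_32 {n : ℕ} (hn : 6 ≤ n) : NoNd (d20_21_9_5.R : ℤ) d20_21_9_5.H n d20_21_9_5.a d20_21_9_5.b
    (BlkD.inB (BlkD.upd (BlkD.upd (BlkD.upd (fun _ => 0) 0 5) 0 7) 1 11)
      (BlkD.upd (BlkD.upd (BlkD.upd (fun _ => 21) 0 9) 2 5) 0 7)) :=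
  BlkD.tree_sound (BlkD.pairOk_sound k20_21_9_5) (by decide) hn t20_21_9_5_32 _ _ (by decide +kernel)

/-- certificates of the pair `(9, 5)`, part 33 -/
def t20_21_9_5_33 : BlkD.Tr :=
  .L 4 4 [4, 20, 20, 20, 20, 20] [] [] 100000 0 0 1600000 100000 50000 100000 50000 0 0 0

lemma s20_21_9_5_33 {n : ℕ} (hn : 6 ≤ n) : NoNd (d20_21_9_5.R : ℤ) d20_21_9_5.H n d20_21_9_5.a d20_21_9_5.b
    (BlkD.inB (BlkD.upd (BlkD.upd (fun _ => 0) 0 5) 0 8)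
      (BlkD.upd (BlkD.upd (fun _ => 21) 0 9) 2 5)) :=
  BlkD.tree_sound (BlkD.pairOk_sound k20_21_9_5) (by decide) hn t20_21_9_5_33 _ _ (by decide +kernel)

/-- certificates of the pair `(9, 5)`, part 34 -/
def t20_21_9_5_34 : BlkD.Tr :=
  .E 1

lemma s20_21_9_5_34 {n : ℕ} (hn : 6 ≤ n) : NoNd (d20_21_9_5.R : ℤ) d20_21_9_5.H n d20_21_9_5.a d20_21_9_5.b
    (BlkD.inB (BlkD.upd (fun _ => 0) 2 6)
      (BlkD.upd (fun _ => 21) 0 9)) :=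
  BlkD.tree_sound (BlkD.pairOk_sound k20_21_9_5) (by decide) hn t20_21_9_5_34 _ _ (by decide +kernel)

/-- certificates of the pair `(9, 5)`, part 35 -/
def t20_21_9_5_35 : BlkD.Tr :=
  .E 0

lemma s20_21_9_5_35 {n : ℕ} (hn : 6 ≤ n) : NoNd (d20_21_9_5.R : ℤ) d20_21_9_5.H n d20_21_9_5.a d20_21_9_5.b
    (BlkD.inB (BlkD.upd (fun _ => 0) 0 10)
      (fun _ => 21)) :=
  BlkD.tree_sound (BlkD.pairOk_sound k20_21_9_5) (by decide) hn t20_21_9_5_35 _ _ (by decide +kernel)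

lemma pr20_21_9_5 {n : ℕ} (hn : 6 ≤ n) : NoPr ((20 : ℕ) : ℤ) ((21 : ℕ) : ℤ) n 9 5 :=
  BlkD.of_root (R := d20_21_9_5.R) (H := d20_21_9_5.H) (a := d20_21_9_5.a) (b := d20_21_9_5.b) (q := 4) (by decide) hn
    (BlkD.sp 0 9 (BlkD.sp 2 5 (BlkD.sp 0 4 (BlkD.sp 0 2 (BlkD.sp 0 1 (BlkD.sp 0 0 (s20_21_9_5_1 hn)
      (BlkD.sp 1 10 (BlkD.sp 1 5 (s20_21_9_5_2 hn) (s20_21_9_5_3 hn)) (s20_21_9_5_4 hn))) (BlkD.sp
      1 10 (BlkD.sp 1 5 (s20_21_9_5_5 hn) (s20_21_9_5_6 hn)) (s20_21_9_5_7 hn))) (BlkD.sp 0 3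
      (BlkD.sp 1 10 (BlkD.sp 1 5 (s20_21_9_5_8 hn) (s20_21_9_5_9 hn)) (s20_21_9_5_10 hn)) (BlkD.sp
      1 10 (BlkD.sp 1 5 (s20_21_9_5_11 hn) (BlkD.sp 1 8 (s20_21_9_5_12 hn) (BlkD.sp 1 9
      (s20_21_9_5_13 hn) (s20_21_9_5_14 hn)))) (BlkD.sp 1 16 (BlkD.sp 1 13 (BlkD.sp 1 12
      (s20_21_9_5_15 hn) (s20_21_9_5_16 hn)) (s20_21_9_5_17 hn)) (s20_21_9_5_18 hn))))) (BlkD.sp 0
      7 (BlkD.sp 0 6 (BlkD.sp 0 5 (BlkD.sp 1 10 (BlkD.sp 1 5 (s20_21_9_5_19 hn) (BlkD.sp 1 8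
      (BlkD.sp 1 7 (s20_21_9_5_20 hn) (s20_21_9_5_21 hn)) (BlkD.sp 1 9 (s20_21_9_5_22 hn)
      (s20_21_9_5_23 hn)))) (s20_21_9_5_24 hn)) (BlkD.sp 1 10 (BlkD.sp 1 5 (s20_21_9_5_25 hn)
      (BlkD.sp 1 8 (BlkD.sp 1 7 (s20_21_9_5_26 hn) (s20_21_9_5_27 hn)) (s20_21_9_5_28 hn)))
      (s20_21_9_5_29 hn))) (BlkD.sp 1 10 (BlkD.sp 1 5 (s20_21_9_5_30 hn) (s20_21_9_5_31 hn))
      (s20_21_9_5_32 hn))) (s20_21_9_5_33 hn))) (s20_21_9_5_34 hn)) (s20_21_9_5_35 hn))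

end BlkC

end Pool.Agent.Lib.MP_f04ccf_co
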