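import Pool.Agent.Lib.MP_f04ccf_co.M.BlkT

/-!
MP_f04ccf_co, block certificate, data `R = 20`, `H = 21`, part 16 (generated, helper99:
bd10.cpp, gen2.py).
-/

set_option autoImplicit false
set_option maxRecDepth 100000

namespace Pool.Agent.Lib.MP_f04ccf_co

namespace BlkC

/-- the numbers of the pair `(10, 0)`, `R = 20`, `H = 21` -/
def d20_21_10_0 : BlkD.Pd :=
  ⟨20, 21, 4, 10, 0, 8, 0, 1, 0, 4, 4, 0, 0, 4, 4, 0, [0, 4, 8, 12, 16, 20, 24, 28, 32], [0, 4, 8,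
    12, 16, 20, 24, 28, 32], [⟨1, 1, 1, 4, 8, [0, 4], [0, 4]⟩]⟩

lemma k20_21_10_0 : BlkD.pairOk d20_21_10_0 = true := by decide +kernel

/-- certificates of the pair `(10, 0)`, part 1 -/
def t20_21_10_0_1 : BlkD.Tr :=
  .S 0 2 (.L 4 4 [4] [] [] 100000 0 0 1140000 80000 0 80000 0 0 0 0) (.L 4 4 [4] [] [] 100000 0 0
    1140000 80000 0 80000 0 0 0 0)

lemma s20_21_10_0_1 {n : ℕ} (hn : 6 ≤ n) : NoNd (d20_21_10_0.R : ℤ) d20_21_10_0.H n d20_21_10_0.a d20_21_10_0.b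
    (BlkD.inB (fun _ => 0)
      (BlkD.upd (BlkD.upd (BlkD.upd (fun _ => 21) 0 10) 2 0) 0 5)) :=
  BlkD.tree_sound (BlkD.pairOk_sound k20_21_10_0) (by decide) hn t20_21_10_0_1 _ _ (by decide +kernel)

/-- certificates of the pair `(10, 0)`, part 2 -/
def t20_21_10_0_2 : BlkD.Tr :=
  .L 4 4 [4] [] [] 100000 0 0 1140000 80000 0 80000 0 0 0 0

lemma s20_21_10_0_2 {n : ℕ} (hn : 6 ≤ n) : NoNd (d20_21_10_0.R : ℤ) d20_21_10_0.H n d20_21_10_0.a d20_21_10_0.b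
    (BlkD.inB (BlkD.upd (fun _ => 0) 0 6)
      (BlkD.upd (BlkD.upd (fun _ => 21) 0 10) 2 0)) :=
  BlkD.tree_sound (BlkD.pairOk_sound k20_21_10_0) (by decide) hn t20_21_10_0_2 _ _ (by decide +kernel)

/-- certificates of the pair `(10, 0)`, part 3 -/
def t20_21_10_0_3 : BlkD.Tr :=
  .E 1

lemma s20_21_10_0_3 {n : ℕ} (hn : 6 ≤ n) : NoNd (d20_21_10_0.R : ℤ) d20_21_10_0.H n d20_21_10_0.a d20_21_10_0.b
    (BlkD.inB (BlkD.upd (fun _ => 0) 2 1)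
      (BlkD.upd (fun _ => 21) 0 10)) :=
  BlkD.tree_sound (BlkD.pairOk_sound k20_21_10_0) (by decide) hn t20_21_10_0_3 _ _ (by decide +kernel)

/-- certificates of the pair `(10, 0)`, part 4 -/
def t20_21_10_0_4 : BlkD.Tr :=
  .E 0

lemma s20_21_10_0_4 {n : ℕ} (hn : 6 ≤ n) : NoNd (d20_21_10_0.R : ℤ) d20_21_10_0.H n d20_21_10_0.a d20_21_10_0.b
    (BlkD.inB (BlkD.upd (fun _ => 0) 0 11)
      (fun _ => 21)) :=
  BlkD.tree_sound (BlkD.pairOk_sound k20_21_10_0) (by decide) hn t20_21_10_0_4 _ _ (by decide +kernel)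

lemma pr20_21_10_0 {n : ℕ} (hn : 6 ≤ n) : NoPr ((20 : ℕ) : ℤ) ((21 : ℕ) : ℤ) n 10 0 :=
  BlkD.of_root (R := d20_21_10_0.R) (H := d20_21_10_0.H) (a := d20_21_10_0.a) (b := d20_21_10_0.b) (q := 4) (by decide) hn
    (BlkD.sp 0 10 (BlkD.sp 2 0 (BlkD.sp 0 5 (s20_21_10_0_1 hn) (s20_21_10_0_2 hn)) (s20_21_10_0_3
      hn)) (s20_21_10_0_4 hn))

/-- the numbers of the pair `(10, 1)`, `R = 20`, `H = 21` -/
def d20_21_10_1 : BlkD.Pd :=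
  ⟨20, 21, 4, 10, 1, 7, 1, 1, 0, 4, 8, 0, 0, 4, 4, 0, [0, 8, 16, 24, 28, 28, 28, 28], [0, 4, 8, 12,
    16, 20, 24, 28], [⟨1, 1, 1, 4, 8, [0, 4], [0, 4]⟩, ⟨1, 1, 1, 4, 12, [0, 8], [0, 4]⟩]⟩

lemma k20_21_10_1 : BlkD.pairOk d20_21_10_1 = true := by decide +kernel

/-- certificates of the pair `(10, 1)`, part 1 -/
def t20_21_10_1_1 : BlkD.Tr :=
  .S 0 1 (.L 4 6 [4, 4] [] [] 100000 100000 100000 500000 100000 0 100000 0 0 0 0) (.L 4 6 [4, 4]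
    [] [] 100000 100000 100000 500000 100000 0 100000 0 0 0 0)

lemma s20_21_10_1_1 {n : ℕ} (hn : 6 ≤ n) : NoNd (d20_21_10_1.R : ℤ) d20_21_10_1.H n d20_21_10_1.a d20_21_10_1.b
    (BlkD.inB (fun _ => 0)
      (BlkD.upd (BlkD.upd (BlkD.upd (BlkD.upd (fun _ => 21) 0 10) 2 1) 0 5) 0 2)) :=
  BlkD.tree_sound (BlkD.pairOk_sound k20_21_10_1) (by decide) hn t20_21_10_1_1 _ _ (by decide +kernel)

/-- certificates of the pair `(10, 1)`, part 2 -/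
def t20_21_10_1_2 : BlkD.Tr :=
  .L 4 6 [4, 4] [] [] 100000 100000 80000 980000 80000 0 120000 0 0 0 0

lemma s20_21_10_1_2 {n : ℕ} (hn : 6 ≤ n) : NoNd (d20_21_10_1.R : ℤ) d20_21_10_1.H n d20_21_10_1.a d20_21_10_1.b
    (BlkD.inB (BlkD.upd (fun _ => 0) 0 3)
      (BlkD.upd (BlkD.upd (BlkD.upd (BlkD.upd (fun _ => 21) 0 10) 2 1) 0 5) 0 4)) :=
  BlkD.tree_sound (BlkD.pairOk_sound k20_21_10_1) (by decide) hn t20_21_10_1_2 _ _ (by decide +kernel)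

/-- certificates of the pair `(10, 1)`, part 3 -/
def t20_21_10_1_3 : BlkD.Tr :=
  .S 1 16 (.S 1 8 (.L 4 6 [4, 4] [] [] 100000 0 0 1180000 40000 0 40000 0 0 0 0) (.S 1 12 (.S 1 10
    (.L 4 6 [4, 4] [] [] 100000 0 0 1300000 40000 0 40000 0 0 0 0) (.S 1 11 (.L 4 6 [4, 4] [256,
    256, 256, 256, 256, 256] [] 100000 0 0 1360000 40000 0 40000 0 0 0 0) (.S 2 0 (.S 3 4 (.S 3 2
    (.S 3 1 (.S 3 0 (.L 4 6 [4, 4] [288, 288, 288, 288, 288, 288] [0, 0, 0, 0, 0, 0] 100000 0 0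
    1340000 40000 0 80000 0 0 0 0) (.L 3 5 [5, 5] [288, 288, 288, 288, 288, 288] [8, 0, 0, 0, 0, 0]
    100000 0 0 1360000 40000 0 40000 0 0 0 0)) (.L 3 5 [5, 5] [288, 288, 288, 288, 288, 288] [14,
    10, 2, 0, 0, 0] 100000 0 0 1320000 40000 0 40000 100000 0 0 0)) (.E 1)) (.E 1)) (.S 3 3 (.S 3 1
    (.S 3 0 (.L 3 5 [5, 5] [288, 288, 288, 288, 288, 288] [0, 0, 0, 0, 0, 0] 100000 0 0 1360000
    40000 0 40000 0 0 0 0) (.S 4 12 (.S 4 6 (.S 4 3 (.L 4 6 [4, 4] [276, 268, 260, 252, 0, 0] [10,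
    2, 0, 0, 0, 0] 100000 200000 200000 700000 100000 0 100000 0 0 0 0) (.L 4 6 [4, 4] [288, 288,
    284, 276, 268, 260] [10, 2, 0, 0, 0, 0] 100000 163891 2 0 105556 0 263889 0 0 0 0)) (.L 4 6 [4,
    4] [288, 288, 288, 288, 288, 288] [10, 2, 0, 0, 0, 0] 100000 111111 0 3 84444 0 211111 0 0 0
    0)) (.E 2))) (.E 1)) (.E 1))))) (.S 1 14 (.S 1 13 (.L 4 6 [4, 4] [322, 322, 322, 322, 322, 322]
    [] 100000 0 0 1350000 50000 0 50000 0 0 0 0) (.S 2 0 (.S 3 2 (.S 3 1 (.S 3 0 (.L 4 6 [4, 4]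
    [358, 358, 358, 358, 358, 358] [0, 0, 0, 0, 0, 0] 100000 0 0 1350000 50000 0 75000 0 0 0 0) (.S
    4 14 (.S 4 7 (.S 4 3 (.L 3 4 [5, 6] [346, 338, 330, 322, 0, 0] [8, 0, 0, 0, 0, 0] 100000 361538
    307692 2 153846 0 153846 0 0 0 0) (.L 3 4 [5, 6] [358, 358, 358, 354, 346, 338] [8, 0, 0, 0, 0,
    0] 100000 0 0 1375000 25000 0 100000 75000 0 0 0)) (.L 3 4 [5, 6] [358, 358, 358, 358, 358,
    358] [8, 0, 0, 0, 0, 0] 100000 135296 2 0 58824 0 235294 0 0 0 0)) (.E 2))) (.L 4 6 [4, 4]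
    [358, 358, 358, 358, 358, 358] [14, 10, 2, 0, 0, 0] 100000 328571 285714 2 142857 0 142857
    100000 0 0 0)) (.E 1)) (.L 4 6 [4, 4] [358, 358, 358, 358, 358, 358] [] 100000 361538 307692 2
    153846 0 153846 0 0 0 0))) (.S 1 15 (.S 2 0 (.S 3 1 (.S 3 0 (.S 4 15 (.S 4 7 (.S 4 3 (.S 4 1
    (.L 4 6 [4, 4] [368, 360, 0, 0, 0, 0] [0, 0, 0, 0, 0, 0] 100000 263636 181818 2 181818 0 0 0 0
    0 0) (.L 4 6 [4, 4] [384, 376, 368, 360, 0, 0] [0, 0, 0, 0, 0, 0] 100000 0 0 1350000 50000 0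
    100000 0 0 0 0)) (.L 4 6 [4, 4] [396, 396, 396, 392, 384, 376] [0, 0, 0, 0, 0, 0] 100000 166667
    0 2 133333 0 266667 0 0 0 0)) (.L 4 6 [4, 4] [396, 396, 396, 396, 396, 396] [0, 0, 0, 0, 0, 0]
    100000 110526 0 3 105263 0 210526 0 0 0 0)) (.E 2)) (.L 3 5 [5, 5] [396, 396, 396, 396, 396,
    396] [8, 0, 0, 0, 0, 0] 100000 350000 300000 0 150000 0 150000 0 0 0 0)) (.L 3 5 [5, 5] [396,
    396, 396, 396, 396, 396] [] 100000 0 100000 0 0 0 0 0 0 0 0)) (.L 3 5 [5, 5] [396, 396, 396,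
    396, 396, 396] [] 100000 350000 300000 0 150000 0 150000 0 0 0 0)) (.S 2 0 (.S 3 0 (.S 4 16 (.S
    4 8 (.S 4 4 (.S 4 2 (.L 4 6 [4, 4] [416, 408, 400, 0, 0, 0] [0, 0, 0, 0, 0, 0] 100000 280952
    190476 2 190476 0 2381 0 0 0 0) (.L 4 6 [4, 4] [432, 424, 416, 408, 400, 0] [0, 0, 0, 0, 0, 0]
    100000 199999 28570 0 142857 0 271429 0 0 0 0)) (.L 4 6 [4, 4] [436, 436, 436, 436, 432, 424]
    [0, 0, 0, 0, 0, 0] 100000 147059 0 3 123529 0 247059 0 0 0 0)) (.E 2)) (.E 2)) (.L 4 6 [4, 4]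
    [436, 436, 436, 436, 436, 436] [] 100000 0 100000 0 0 0 0 0 0 0 0)) (.L 4 6 [4, 4] [436, 436,
    436, 436, 436, 436] [] 100000 0 100000 0 0 0 0 0 0 0 0)))))) (.E 0)

lemma s20_21_10_1_3 {n : ℕ} (hn : 6 ≤ n) : NoNd (d20_21_10_1.R : ℤ) d20_21_10_1.H n d20_21_10_1.a d20_21_10_1.b
    (BlkD.inB (BlkD.upd (BlkD.upd (fun _ => 0) 0 3) 0 5)
      (BlkD.upd (BlkD.upd (BlkD.upd (fun _ => 21) 0 10) 2 1) 0 5)) :=
  BlkD.tree_sound (BlkD.pairOk_sound k20_21_10_1) (by decide) hn t20_21_10_1_3 _ _ (by decide +kernel)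

/-- certificates of the pair `(10, 1)`, part 4 -/
def t20_21_10_1_4 : BlkD.Tr :=
  .S 0 6 (.S 1 15 (.S 1 7 (.L 4 6 [4, 4] [] [] 100000 14284 14284 1250002 35714 0 35714 0 0 0 0)
    (.S 1 11 (.S 1 9 (.S 1 8 (.L 4 6 [4, 4] [188, 188, 188, 188, 184, 176] [] 100000 0 0 1333336
    33333 0 33333 0 0 0 0) (.L 4 6 [4, 4] [216, 216, 216, 216, 216, 212] [] 100000 0 0 1340000
    40000 0 40000 0 0 0 0)) (.S 1 10 (.S 2 0 (.L 4 6 [4, 4] [246, 246, 246, 246, 246, 246] []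
    100000 0 0 1380000 40000 0 40000 20000 0 0 0) (.S 3 4 (.S 3 2 (.S 3 1 (.S 3 0 (.L 4 6 [4, 4]
    [246, 246, 246, 246, 246, 246] [0, 0, 0, 0, 0, 0] 100000 0 0 1340000 40000 0 40000 0 0 0 0) (.S
    4 10 (.S 4 5 (.S 4 2 (.L 4 6 [4, 4] [226, 218, 210, 0, 0, 0] [10, 2, 0, 0, 0, 0] 100000 0 0
    1300000 50000 0 50000 0 0 0 0) (.L 4 6 [4, 4] [246, 242, 234, 226, 218, 210] [10, 2, 0, 0, 0,
    0] 100000 66668 1 833330 66667 0 166667 0 0 0 0)) (.L 4 6 [4, 4] [246, 246, 246, 246, 246, 246]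
    [10, 2, 0, 0, 0, 0] 100000 136843 1 0 94737 0 236842 0 0 0 0)) (.E 2))) (.E 1)) (.E 1)) (.E
    1))) (.L 4 6 [4, 4] [278, 278, 278, 278, 278, 278] [] 100000 0 0 1350000 50000 0 50000 0 0 0
    0))) (.S 1 13 (.S 1 12 (.L 4 6 [4, 4] [312, 312, 312, 312, 312, 312] [] 100000 0 0 1350000
    50000 0 100000 0 0 0 0) (.S 2 0 (.S 3 2 (.S 3 1 (.S 3 0 (.L 4 6 [4, 4] [348, 348, 348, 348,
    348, 348] [0, 0, 0, 0, 0, 0] 100000 0 0 1350000 50000 0 100000 0 0 0 0) (.L 3 5 [5, 5] [348,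
    348, 348, 348, 348, 348] [8, 0, 0, 0, 0, 0] 100000 0 0 1350000 50000 0 100000 50000 0 0 0)) (.L
    3 5 [5, 5] [348, 348, 348, 348, 348, 348] [14, 10, 2, 0, 0, 0] 100000 228571 85714 2 142857 0
    142857 242857 0 0 0)) (.E 1)) (.S 3 1 (.S 3 0 (.S 4 13 (.S 4 6 (.S 4 3 (.L 4 6 [4, 4] [336,
    328, 320, 312, 0, 0] [0, 0, 0, 0, 0, 0] 100000 280952 190476 2 190476 0 95238 0 0 0 0) (.L 4 6
    [4, 4] [348, 348, 344, 336, 328, 320] [0, 0, 0, 0, 0, 0] 100000 233333 95238 2 142857 0 238095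
    0 0 0 0)) (.L 4 6 [4, 4] [348, 348, 348, 348, 348, 348] [0, 0, 0, 0, 0, 0] 100000 122222 0 2
    111111 0 222222 0 0 0 0)) (.E 2)) (.S 4 13 (.S 4 6 (.S 4 3 (.L 4 6 [4, 4] [336, 328, 320, 312,
    0, 0] [10, 2, 0, 0, 0, 0] 100000 280952 190476 3 190476 0 65079 0 0 0 0) (.L 4 6 [4, 4] [348,
    348, 344, 336, 328, 320] [10, 2, 0, 0, 0, 0] 100000 147059 0 3 123529 0 247059 0 0 0 0)) (.L 4
    6 [4, 4] [348, 348, 348, 348, 348, 348] [10, 2, 0, 0, 0, 0] 100000 110000 0 0 105000 0 210000 0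
    0 0 0)) (.E 2))) (.E 1)))) (.S 1 14 (.S 2 0 (.S 3 1 (.S 3 0 (.L 3 5 [5, 5] [386, 386, 386, 386,
    386, 386] [0, 0, 0, 0, 0, 0] 100000 0 0 1350000 50000 0 100000 0 0 0 0) (.L 3 5 [5, 5] [386,
    386, 386, 386, 386, 386] [8, 0, 0, 0, 0, 0] 100000 207142 42856 1 142857 0 264286 121429 0 0
    0)) (.L 3 5 [5, 5] [386, 386, 386, 386, 386, 386] [] 100000 0 100000 0 0 0 0 0 0 0 0)) (.S 3 0
    (.S 4 14 (.S 4 7 (.S 4 3 (.L 4 6 [4, 4] [374, 366, 358, 350, 0, 0] [0, 0, 0, 0, 0, 0] 100000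
    280952 190476 3 190476 0 65079 0 0 0 0) (.L 4 6 [4, 4] [386, 386, 386, 382, 374, 366] [0, 0, 0,
    0, 0, 0] 100000 247618 123808 0 142857 0 223810 0 0 0 0)) (.L 4 6 [4, 4] [386, 386, 386, 386,
    386, 386] [0, 0, 0, 0, 0, 0] 100000 110000 0 0 105000 0 210000 0 0 0 0)) (.E 2)) (.L 4 6 [4, 4]
    [386, 386, 386, 386, 386, 386] [] 100000 0 100000 0 0 0 0 0 0 0 0))) (.S 2 0 (.S 3 0 (.S 4 15
    (.S 4 7 (.S 4 3 (.L 4 6 [4, 4] [414, 406, 398, 390, 0, 0] [0, 0, 0, 0, 0, 0] 100000 280952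
    190476 3 190476 0 128571 0 0 0 0) (.L 4 6 [4, 4] [426, 426, 426, 422, 414, 406] [0, 0, 0, 0, 0,
    0] 100000 199999 28570 0 142857 0 271429 0 0 0 0)) (.L 4 6 [4, 4] [426, 426, 426, 426, 426,
    426] [0, 0, 0, 0, 0, 0] 100000 121053 0 0 110526 0 221053 0 0 0 0)) (.E 2)) (.L 4 6 [4, 4]
    [426, 426, 426, 426, 426, 426] [] 100000 0 100000 0 0 0 0 0 0 0 0)) (.L 4 6 [4, 4] [426, 426,
    426, 426, 426, 426] [] 100000 0 100000 0 0 0 0 0 0 0 0)))))) (.E 0)) (.S 1 14 (.S 1 7 (.S 1 3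
    (.L 4 6 [4, 4] [] [] 100000 0 0 1050000 50000 0 50000 0 0 0 0) (.S 1 5 (.L 4 6 [4, 4] [] []
    100000 0 0 1200000 40000 0 40000 0 0 0 0) (.S 1 6 (.L 4 6 [4, 4] [150, 150, 146, 138, 130, 122]
    [] 100000 0 0 1300002 33333 0 33333 0 0 0 0) (.L 4 6 [4, 4] [176, 176, 176, 172, 164, 156] []
    100000 0 0 1320000 40000 0 40000 0 0 0 0)))) (.S 1 11 (.S 1 9 (.S 1 8 (.L 4 6 [4, 4] [204, 204,
    204, 204, 200, 192] [] 100000 0 0 1380000 40000 0 40000 0 0 0 0) (.L 4 6 [4, 4] [234, 234, 234,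
    234, 234, 230] [] 100000 0 0 1300000 50000 0 100000 0 0 0 0)) (.S 1 10 (.L 4 6 [4, 4] [266,
    266, 266, 266, 266, 266] [] 100000 0 0 1300000 50000 0 100000 0 0 0 0) (.L 4 6 [4, 4] [300,
    300, 300, 300, 300, 300] [] 100000 0 0 1350000 50000 0 100000 0 0 0 0))) (.S 1 13 (.S 1 12 (.L
    4 6 [4, 4] [336, 336, 336, 336, 336, 336] [] 100000 100000 100000 1000000 100000 0 100000 0 0 0
    0) (.L 4 6 [4, 4] [374, 374, 374, 374, 374, 374] [] 100000 300000 200000 0 200000 0 200000 0 0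
    0 0)) (.L 4 6 [4, 4] [414, 414, 414, 414, 414, 414] [] 100000 281818 190909 1 190909 0 190909 0
    0 0 0)))) (.E 0))

lemma s20_21_10_1_4 {n : ℕ} (hn : 6 ≤ n) : NoNd (d20_21_10_1.R : ℤ) d20_21_10_1.H n d20_21_10_1.a d20_21_10_1.b
    (BlkD.inB (BlkD.upd (fun _ => 0) 0 6)
      (BlkD.upd (BlkD.upd (BlkD.upd (BlkD.upd (fun _ => 21) 0 10) 2 1) 0 8) 0 7)) :=
  BlkD.tree_sound (BlkD.pairOk_sound k20_21_10_1) (by decide) hn t20_21_10_1_4 _ _ (by decide +kernel)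

/-- certificates of the pair `(10, 1)`, part 5 -/
def t20_21_10_1_5 : BlkD.Tr :=
  .S 1 13 (.S 1 6 (.S 1 3 (.L 4 6 [4, 4] [] [] 100000 0 0 1150000 50000 0 50000 0 0 0 0) (.S 1 5
    (.L 4 6 [4, 4] [] [] 100000 0 0 1300000 40000 0 40000 0 0 0 0) (.L 4 6 [4, 4] [162, 162, 158,
    150, 142, 134] [] 100000 0 0 1360000 40000 0 40000 0 0 0 0))) (.S 1 10 (.S 1 8 (.S 1 7 (.L 4 6
    [4, 4] [190, 190, 190, 186, 178, 170] [] 100000 0 0 1300000 50000 0 100000 0 0 0 0) (.L 4 6 [4,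
    4] [220, 220, 220, 220, 216, 208] [] 100000 0 0 1300000 50000 0 100000 0 0 0 0)) (.S 1 9 (.L 4
    6 [4, 4] [252, 252, 252, 252, 252, 248] [] 100000 0 0 1300000 50000 0 100000 0 0 0 0) (.L 4 6
    [4, 4] [286, 286, 286, 286, 286, 286] [] 100000 0 0 1300000 50000 0 100000 0 0 0 0))) (.S 1 12
    (.S 1 11 (.L 4 6 [4, 4] [322, 322, 322, 322, 322, 322] [] 100000 0 0 1300000 50000 0 100000 0 0
    0 0) (.L 4 6 [4, 4] [360, 360, 360, 360, 360, 360] [] 100000 185714 0 2 142857 0 285714 0 0 0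
    0)) (.L 4 6 [4, 4] [400, 400, 400, 400, 400, 400] [] 100000 271428 171428 2 185714 0 200000 0 0
    0 0)))) (.E 0)

lemma s20_21_10_1_5 {n : ℕ} (hn : 6 ≤ n) : NoNd (d20_21_10_1.R : ℤ) d20_21_10_1.H n d20_21_10_1.a d20_21_10_1.b
    (BlkD.inB (BlkD.upd (BlkD.upd (fun _ => 0) 0 6) 0 8)
      (BlkD.upd (BlkD.upd (BlkD.upd (fun _ => 21) 0 10) 2 1) 0 8)) :=
  BlkD.tree_sound (BlkD.pairOk_sound k20_21_10_1) (by decide) hn t20_21_10_1_5 _ _ (by decide +kernel)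

/-- certificates of the pair `(10, 1)`, part 6 -/
def t20_21_10_1_6 : BlkD.Tr :=
  .S 0 9 (.S 1 12 (.S 1 6 (.L 4 6 [4, 4] [] [] 100000 0 0 1366668 33333 0 77778 0 0 0 0) (.L 4 6
    [4, 4] [] [] 100000 0 0 1333334 22222 0 100000 0 0 0 0)) (.E 0)) (.L 4 6 [4, 4] [] [] 100000 0
    0 1360000 20000 0 60000 0 0 0 0)

lemma s20_21_10_1_6 {n : ℕ} (hn : 6 ≤ n) : NoNd (d20_21_10_1.R : ℤ) d20_21_10_1.H n d20_21_10_1.a d20_21_10_1.b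
    (BlkD.inB (BlkD.upd (BlkD.upd (fun _ => 0) 0 6) 0 9)
      (BlkD.upd (BlkD.upd (fun _ => 21) 0 10) 2 1)) :=
  BlkD.tree_sound (BlkD.pairOk_sound k20_21_10_1) (by decide) hn t20_21_10_1_6 _ _ (by decide +kernel)

/-- certificates of the pair `(10, 1)`, part 7 -/
def t20_21_10_1_7 : BlkD.Tr :=
  .E 1

lemma s20_21_10_1_7 {n : ℕ} (hn : 6 ≤ n) : NoNd (d20_21_10_1.R : ℤ) d20_21_10_1.H n d20_21_10_1.a d20_21_10_1.b
    (BlkD.inB (BlkD.upd (fun _ => 0) 2 2)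
      (BlkD.upd (fun _ => 21) 0 10)) :=
  BlkD.tree_sound (BlkD.pairOk_sound k20_21_10_1) (by decide) hn t20_21_10_1_7 _ _ (by decide +kernel)

/-- certificates of the pair `(10, 1)`, part 8 -/
def t20_21_10_1_8 : BlkD.Tr :=
  .E 0

lemma s20_21_10_1_8 {n : ℕ} (hn : 6 ≤ n) : NoNd (d20_21_10_1.R : ℤ) d20_21_10_1.H n d20_21_10_1.a d20_21_10_1.b
    (BlkD.inB (BlkD.upd (fun _ => 0) 0 11)
      (fun _ => 21)) :=
  BlkD.tree_sound (BlkD.pairOk_sound k20_21_10_1) (by decide) hn t20_21_10_1_8 _ _ (by decide +kernel)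

lemma pr20_21_10_1 {n : ℕ} (hn : 6 ≤ n) : NoPr ((20 : ℕ) : ℤ) ((21 : ℕ) : ℤ) n 10 1 :=
  BlkD.of_root (R := d20_21_10_1.R) (H := d20_21_10_1.H) (a := d20_21_10_1.a) (b := d20_21_10_1.b) (q := 4) (by decide) hn
    (BlkD.sp 0 10 (BlkD.sp 2 1 (BlkD.sp 0 5 (BlkD.sp 0 2 (s20_21_10_1_1 hn) (BlkD.sp 0 4
      (s20_21_10_1_2 hn) (s20_21_10_1_3 hn))) (BlkD.sp 0 8 (BlkD.sp 0 7 (s20_21_10_1_4 hn)
      (s20_21_10_1_5 hn)) (s20_21_10_1_6 hn))) (s20_21_10_1_7 hn)) (s20_21_10_1_8 hn))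

end BlkC

end Pool.Agent.Lib.MP_f04ccf_co
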