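import Pool.Agent.Lib.MP_f04ccf_co.M.BlkT

/-!
MP_f04ccf_co, block certificate, data `R = 20`, `H = 21`, part 18 (generated, helper99:
bd10.cpp, gen2.py).
-/

set_option autoImplicit false
set_option maxRecDepth 100000

namespace Pool.Agent.Lib.MP_f04ccf_co

namespace BlkC

/-- the numbers of the pair `(10, 3)`, `R = 20`, `H = 21` -/
def d20_21_10_3 : BlkD.Pd :=
  ⟨20, 21, 4, 10, 3, 5, 1, 2, 0, 4, 8, 0, 2, 2, 6, 0, [0, 8, 16, 20, 20, 20], [0, 6, 12, 16, 18,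
    20], [⟨1, 1, 1, 4, 8, [0, 4], [0, 4]⟩, ⟨1, 1, 1, 4, 14, [0, 8], [0, 6]⟩]⟩

lemma k20_21_10_3 : BlkD.pairOk d20_21_10_3 = true := by decide +kernel

/-- certificates of the pair `(10, 3)`, part 1 -/
def t20_21_10_3_1 : BlkD.Tr :=
  .L 4 6 [4, 4, 20, 20] [] [] 100000 175000 175000 1350000 75000 0 100000 50000 0 0 0

lemma s20_21_10_3_1 {n : ℕ} (hn : 6 ≤ n) : NoNd (d20_21_10_3.R : ℤ) d20_21_10_3.H n d20_21_10_3.a d20_21_10_3.b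
    (BlkD.inB (fun _ => 0)
      (BlkD.upd (BlkD.upd (BlkD.upd (BlkD.upd (BlkD.upd (fun _ => 21) 0 10) 2 3) 0 5) 0 2) 0 1)) :=
  BlkD.tree_sound (BlkD.pairOk_sound k20_21_10_3) (by decide) hn t20_21_10_3_1 _ _ (by decide +kernel)

/-- certificates of the pair `(10, 3)`, part 2 -/
def t20_21_10_3_2 : BlkD.Tr :=
  .L 4 6 [4, 4, 20, 20] [] [] 100000 175000 175000 1350000 75000 0 100000 50000 0 0 0

lemma s20_21_10_3_2 {n : ℕ} (hn : 6 ≤ n) : NoNd (d20_21_10_3.R : ℤ) d20_21_10_3.H n d20_21_10_3.a d20_21_10_3.b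
    (BlkD.inB (BlkD.upd (fun _ => 0) 0 2)
      (BlkD.upd (BlkD.upd (BlkD.upd (BlkD.upd (fun _ => 21) 0 10) 2 3) 0 5) 0 2)) :=
  BlkD.tree_sound (BlkD.pairOk_sound k20_21_10_3) (by decide) hn t20_21_10_3_2 _ _ (by decide +kernel)

/-- certificates of the pair `(10, 3)`, part 3 -/
def t20_21_10_3_3 : BlkD.Tr :=
  .L 4 6 [4, 4, 20, 20] [] [] 100000 175000 175000 1350000 75000 0 100000 50000 0 0 0

lemma s20_21_10_3_3 {n : ℕ} (hn : 6 ≤ n) : NoNd (d20_21_10_3.R : ℤ) d20_21_10_3.H n d20_21_10_3.a d20_21_10_3.b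
    (BlkD.inB (BlkD.upd (fun _ => 0) 0 3)
      (BlkD.upd (BlkD.upd (BlkD.upd (BlkD.upd (BlkD.upd (fun _ => 21) 0 10) 2 3) 0 5) 0 4) 0 3)) :=
  BlkD.tree_sound (BlkD.pairOk_sound k20_21_10_3) (by decide) hn t20_21_10_3_3 _ _ (by decide +kernel)

/-- certificates of the pair `(10, 3)`, part 4 -/
def t20_21_10_3_4 : BlkD.Tr :=
  .L 4 6 [4, 4, 20, 20] [] [] 100000 175000 175000 1350000 75000 0 100000 50000 0 0 0

lemma s20_21_10_3_4 {n : ℕ} (hn : 6 ≤ n) : NoNd (d20_21_10_3.R : ℤ) d20_21_10_3.H n d20_21_10_3.a d20_21_10_3.b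
    (BlkD.inB (BlkD.upd (BlkD.upd (fun _ => 0) 0 3) 0 4)
      (BlkD.upd (BlkD.upd (BlkD.upd (BlkD.upd (BlkD.upd (fun _ => 21) 0 10) 2 3) 0 5) 0 4) 1 10)) :=
  BlkD.tree_sound (BlkD.pairOk_sound k20_21_10_3) (by decide) hn t20_21_10_3_4 _ _ (by decide +kernel)

/-- certificates of the pair `(10, 3)`, part 5 -/
def t20_21_10_3_5 : BlkD.Tr :=
  .L 4 6 [4, 4, 20, 20] [] [] 100000 175000 175000 1350000 75000 0 100000 50000 0 0 0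

lemma s20_21_10_3_5 {n : ℕ} (hn : 6 ≤ n) : NoNd (d20_21_10_3.R : ℤ) d20_21_10_3.H n d20_21_10_3.a d20_21_10_3.b
    (BlkD.inB (BlkD.upd (BlkD.upd (BlkD.upd (fun _ => 0) 0 3) 0 4) 1 11)
      (BlkD.upd (BlkD.upd (BlkD.upd (BlkD.upd (fun _ => 21) 0 10) 2 3) 0 5) 0 4)) :=
  BlkD.tree_sound (BlkD.pairOk_sound k20_21_10_3) (by decide) hn t20_21_10_3_5 _ _ (by decide +kernel)

/-- certificates of the pair `(10, 3)`, part 6 -/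
def t20_21_10_3_6 : BlkD.Tr :=
  .L 4 6 [4, 4, 20, 20] [] [] 100000 175000 175000 1350000 75000 0 100000 50000 0 0 0

lemma s20_21_10_3_6 {n : ℕ} (hn : 6 ≤ n) : NoNd (d20_21_10_3.R : ℤ) d20_21_10_3.H n d20_21_10_3.a d20_21_10_3.b
    (BlkD.inB (BlkD.upd (BlkD.upd (fun _ => 0) 0 3) 0 5)
      (BlkD.upd (BlkD.upd (BlkD.upd (BlkD.upd (fun _ => 21) 0 10) 2 3) 0 5) 1 10)) :=
  BlkD.tree_sound (BlkD.pairOk_sound k20_21_10_3) (by decide) hn t20_21_10_3_6 _ _ (by decide +kernel)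

/-- certificates of the pair `(10, 3)`, part 7 -/
def t20_21_10_3_7 : BlkD.Tr :=
  .L 4 6 [4, 4, 20, 20] [] [] 100000 175000 175000 1350000 75000 0 100000 50000 0 0 0

lemma s20_21_10_3_7 {n : ℕ} (hn : 6 ≤ n) : NoNd (d20_21_10_3.R : ℤ) d20_21_10_3.H n d20_21_10_3.a d20_21_10_3.b
    (BlkD.inB (BlkD.upd (BlkD.upd (BlkD.upd (fun _ => 0) 0 3) 0 5) 1 11)
      (BlkD.upd (BlkD.upd (BlkD.upd (fun _ => 21) 0 10) 2 3) 0 5)) :=
  BlkD.tree_sound (BlkD.pairOk_sound k20_21_10_3) (by decide) hn t20_21_10_3_7 _ _ (by decide +kernel)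

/-- certificates of the pair `(10, 3)`, part 8 -/
def t20_21_10_3_8 : BlkD.Tr :=
  .L 4 6 [4, 4, 20, 20] [] [] 100000 100000 100000 1450000 50000 0 75000 50000 0 0 0

lemma s20_21_10_3_8 {n : ℕ} (hn : 6 ≤ n) : NoNd (d20_21_10_3.R : ℤ) d20_21_10_3.H n d20_21_10_3.a d20_21_10_3.b
    (BlkD.inB (BlkD.upd (fun _ => 0) 0 6)
      (BlkD.upd (BlkD.upd (BlkD.upd (BlkD.upd (BlkD.upd (BlkD.upd (BlkD.upd (fun _ => 21) 0 10) 2 3) 0 8) 0 7) 0 6) 1 15) 1 7)) :=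
  BlkD.tree_sound (BlkD.pairOk_sound k20_21_10_3) (by decide) hn t20_21_10_3_8 _ _ (by decide +kernel)

/-- certificates of the pair `(10, 3)`, part 9 -/
def t20_21_10_3_9 : BlkD.Tr :=
  .S 1 11 (.S 1 9 (.S 1 8 (.S 2 1 (.S 2 0 (.L 4 6 [4, 4, 20, 20] [194, 194, 194, 194, 190, 182] []
    100000 0 0 1466668 33333 0 44444 77778 0 0 0) (.S 3 6 (.S 3 3 (.S 3 1 (.L 4 6 [4, 4, 20, 20]
    [194, 194, 194, 194, 190, 182] [] 100000 0 0 1500001 33333 0 50000 16667 0 0 0) (.S 3 2 (.L 4 6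
    [4, 4, 20, 20] [194, 194, 194, 194, 190, 182] [28, 18, 6, 0, 0, 0] 100000 0 0 1533335 33333 0
    66667 33333 0 0 0) (.L 7 7 [5, 3, 20, 20] [194, 194, 194, 194, 190, 182] [40, 34, 24, 12, 0, 0]
    100000 50000 0 1250000 100000 50000 150000 100000 0 0 0))) (.L 7 7 [5, 3, 20, 20] [194, 194,
    194, 194, 190, 182] [] 100000 256250 0 0 237500 0 237500 356250 0 0 0)) (.E 1))) (.L 7 7 [5, 3,
    20, 20] [194, 194, 194, 194, 190, 182] [] 100000 1 1 1533333 66667 0 100000 33333 0 0 0)) (.L 7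
    7 [5, 3, 20, 20] [222, 222, 222, 222, 222, 218] [] 100000 25000 25000 1500000 75000 25000
    100000 37500 0 0 0)) (.L 7 7 [5, 3, 20, 20] [] [] 100000 25000 25000 1475000 75000 25000 100000
    50000 0 0 0)) (.L 7 7 [5, 3, 20, 20] [] [] 100000 50000 0 1250000 100000 0 150000 50000 0 0 0)

lemma s20_21_10_3_9 {n : ℕ} (hn : 6 ≤ n) : NoNd (d20_21_10_3.R : ℤ) d20_21_10_3.H n d20_21_10_3.a d20_21_10_3.b
    (BlkD.inB (BlkD.upd (BlkD.upd (fun _ => 0) 0 6) 1 8)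
      (BlkD.upd (BlkD.upd (BlkD.upd (BlkD.upd (BlkD.upd (BlkD.upd (fun _ => 21) 0 10) 2 3) 0 8) 0 7) 0 6) 1 15)) :=
  BlkD.tree_sound (BlkD.pairOk_sound k20_21_10_3) (by decide) hn t20_21_10_3_9 _ _ (by decide +kernel)

/-- certificates of the pair `(10, 3)`, part 10 -/
def t20_21_10_3_10 : BlkD.Tr :=
  .E 0

lemma s20_21_10_3_10 {n : ℕ} (hn : 6 ≤ n) : NoNd (d20_21_10_3.R : ℤ) d20_21_10_3.H n d20_21_10_3.a d20_21_10_3.b
    (BlkD.inB (BlkD.upd (BlkD.upd (fun _ => 0) 0 6) 1 16)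
      (BlkD.upd (BlkD.upd (BlkD.upd (BlkD.upd (BlkD.upd (fun _ => 21) 0 10) 2 3) 0 8) 0 7) 0 6)) :=
  BlkD.tree_sound (BlkD.pairOk_sound k20_21_10_3) (by decide) hn t20_21_10_3_10 _ _ (by decide +kernel)

/-- certificates of the pair `(10, 3)`, part 11 -/
def t20_21_10_3_11 : BlkD.Tr :=
  .L 7 7 [5, 3, 20, 20] [] [] 100000 1 1 1566667 66667 16667 100000 33333 0 0 0

lemma s20_21_10_3_11 {n : ℕ} (hn : 6 ≤ n) : NoNd (d20_21_10_3.R : ℤ) d20_21_10_3.H n d20_21_10_3.a d20_21_10_3.b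
    (BlkD.inB (BlkD.upd (BlkD.upd (fun _ => 0) 0 6) 0 7)
      (BlkD.upd (BlkD.upd (BlkD.upd (BlkD.upd (fun _ => 21) 0 10) 2 3) 0 8) 0 7)) :=
  BlkD.tree_sound (BlkD.pairOk_sound k20_21_10_3) (by decide) hn t20_21_10_3_11 _ _ (by decide +kernel)

/-- certificates of the pair `(10, 3)`, part 12 -/
def t20_21_10_3_12 : BlkD.Tr :=
  .S 1 13 (.S 1 6 (.S 1 3 (.L 7 7 [5, 3, 20, 20] [] [] 100000 0 0 1500001 33333 0 33333 33333 0 0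
    0) (.S 1 5 (.S 1 4 (.L 7 7 [5, 3, 20, 20] [114, 106, 98, 88, 76, 0] [] 100000 1 1 1533334 66667
    33333 66667 33333 0 0 0) (.S 2 1 (.L 7 7 [5, 3, 20, 20] [142, 138, 130, 122, 112, 100] []
    100000 1 1 1533333 66667 66667 66667 66667 0 0 0) (.S 2 2 (.L 7 7 [5, 3, 20, 20] [142, 138,
    130, 122, 112, 100] [] 100000 1 1 1533333 66667 66667 100000 66667 0 0 0) (.L 4 6 [4, 4, 20,
    20] [142, 138, 130, 122, 112, 100] [] 100000 0 0 1500000 40000 0 40000 0 0 0 0)))) (.S 2 1 (.S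
    2 0 (.L 4 6 [4, 4, 20, 20] [168, 168, 164, 156, 148, 138] [] 100000 0 0 1480001 40000 0 53333
    73333 0 0 0) (.S 3 6 (.S 3 3 (.S 3 1 (.L 4 6 [4, 4, 20, 20] [168, 168, 164, 156, 148, 138] []
    100000 0 0 1520000 40000 0 40000 40000 0 0 0) (.S 3 2 (.L 4 6 [4, 4, 20, 20] [168, 168, 164,
    156, 148, 138] [28, 18, 6, 0, 0, 0] 100000 0 0 1540000 40000 0 80000 40000 0 0 0) (.L 7 7 [5,
    3, 20, 20] [168, 168, 164, 156, 148, 138] [40, 34, 24, 12, 0, 0] 100000 1 1 1500000 66667 33333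
    88889 72222 0 0 0))) (.L 7 7 [5, 3, 20, 20] [168, 168, 164, 156, 148, 138] [] 100000 352382
    90477 0 271429 271429 361905 271429 0 0 0)) (.E 1))) (.L 7 7 [5, 3, 20, 20] [168, 168, 164,
    156, 148, 138] [] 100000 1 1 1566667 66667 0 83333 50000 0 0 0)))) (.L 7 7 [5, 3, 20, 20] [] []
    100000 1 1 1566667 66667 0 100000 33333 0 0 0)) (.E 0)

lemma s20_21_10_3_12 {n : ℕ} (hn : 6 ≤ n) : NoNd (d20_21_10_3.R : ℤ) d20_21_10_3.H n d20_21_10_3.a d20_21_10_3.b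
    (BlkD.inB (BlkD.upd (BlkD.upd (fun _ => 0) 0 6) 0 8)
      (BlkD.upd (BlkD.upd (BlkD.upd (fun _ => 21) 0 10) 2 3) 0 8)) :=
  BlkD.tree_sound (BlkD.pairOk_sound k20_21_10_3) (by decide) hn t20_21_10_3_12 _ _ (by decide +kernel)

/-- certificates of the pair `(10, 3)`, part 13 -/
def t20_21_10_3_13 : BlkD.Tr :=
  .S 0 9 (.S 1 12 (.S 1 6 (.S 1 3 (.L 7 7 [5, 3, 20, 20] [] [] 100000 1 1 1533333 66667 0 66667
    66667 0 0 0) (.S 1 5 (.L 4 6 [4, 4, 20, 20] [] [] 100000 0 0 1580000 40000 0 100000 60000 0 0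
    0) (.L 4 6 [4, 4, 20, 20] [180, 180, 176, 168, 160, 150] [] 100000 0 0 1550000 50000 0 87500
    25000 0 0 0))) (.L 4 6 [4, 4, 20, 20] [] [] 100000 0 0 1555556 22222 0 100000 77778 0 0 0)) (.E
    0)) (.L 4 6 [4, 4, 20, 20] [] [] 100000 0 0 1580000 20000 0 84000 16000 0 0 0)

lemma s20_21_10_3_13 {n : ℕ} (hn : 6 ≤ n) : NoNd (d20_21_10_3.R : ℤ) d20_21_10_3.H n d20_21_10_3.a d20_21_10_3.b
    (BlkD.inB (BlkD.upd (BlkD.upd (fun _ => 0) 0 6) 0 9)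
      (BlkD.upd (BlkD.upd (fun _ => 21) 0 10) 2 3)) :=
  BlkD.tree_sound (BlkD.pairOk_sound k20_21_10_3) (by decide) hn t20_21_10_3_13 _ _ (by decide +kernel)

/-- certificates of the pair `(10, 3)`, part 14 -/
def t20_21_10_3_14 : BlkD.Tr :=
  .E 1

lemma s20_21_10_3_14 {n : ℕ} (hn : 6 ≤ n) : NoNd (d20_21_10_3.R : ℤ) d20_21_10_3.H n d20_21_10_3.a d20_21_10_3.b
    (BlkD.inB (BlkD.upd (fun _ => 0) 2 4)
      (BlkD.upd (fun _ => 21) 0 10)) :=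
  BlkD.tree_sound (BlkD.pairOk_sound k20_21_10_3) (by decide) hn t20_21_10_3_14 _ _ (by decide +kernel)

/-- certificates of the pair `(10, 3)`, part 15 -/
def t20_21_10_3_15 : BlkD.Tr :=
  .E 0

lemma s20_21_10_3_15 {n : ℕ} (hn : 6 ≤ n) : NoNd (d20_21_10_3.R : ℤ) d20_21_10_3.H n d20_21_10_3.a d20_21_10_3.b
    (BlkD.inB (BlkD.upd (fun _ => 0) 0 11)
      (fun _ => 21)) :=
  BlkD.tree_sound (BlkD.pairOk_sound k20_21_10_3) (by decide) hn t20_21_10_3_15 _ _ (by decide +kernel)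

lemma pr20_21_10_3 {n : ℕ} (hn : 6 ≤ n) : NoPr ((20 : ℕ) : ℤ) ((21 : ℕ) : ℤ) n 10 3 :=
  BlkD.of_root (R := d20_21_10_3.R) (H := d20_21_10_3.H) (a := d20_21_10_3.a) (b := d20_21_10_3.b) (q := 4) (by decide) hn
    (BlkD.sp 0 10 (BlkD.sp 2 3 (BlkD.sp 0 5 (BlkD.sp 0 2 (BlkD.sp 0 1 (s20_21_10_3_1 hn)
      (s20_21_10_3_2 hn)) (BlkD.sp 0 4 (BlkD.sp 0 3 (s20_21_10_3_3 hn) (BlkD.sp 1 10 (s20_21_10_3_4
      hn) (s20_21_10_3_5 hn))) (BlkD.sp 1 10 (s20_21_10_3_6 hn) (s20_21_10_3_7 hn)))) (BlkD.sp 0 8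
      (BlkD.sp 0 7 (BlkD.sp 0 6 (BlkD.sp 1 15 (BlkD.sp 1 7 (s20_21_10_3_8 hn) (s20_21_10_3_9 hn))
      (s20_21_10_3_10 hn)) (s20_21_10_3_11 hn)) (s20_21_10_3_12 hn)) (s20_21_10_3_13 hn)))
      (s20_21_10_3_14 hn)) (s20_21_10_3_15 hn))

/-- the numbers of the pair `(10, 4)`, `R = 20`, `H = 21` -/
def d20_21_10_4 : BlkD.Pd :=
  ⟨20, 21, 4, 10, 4, 4, 0, 3, 0, 4, 4, 0, 0, 4, 4, 0, [0, 4, 8, 12, 16], [0, 4, 8, 12, 16], [⟨1, 1,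
    1, 4, 8, [0, 4], [0, 4]⟩]⟩

lemma k20_21_10_4 : BlkD.pairOk d20_21_10_4 = true := by decide +kernel

/-- certificates of the pair `(10, 4)`, part 1 -/
def t20_21_10_4_1 : BlkD.Tr :=
  .S 0 0 (.L 4 4 [4, 20, 20, 20, 20] [] [] 100000 0 0 1600001 100000 33333 100000 66667 0 0 0) (.L
    4 4 [4, 20, 20, 20, 20] [] [] 100000 0 0 1600001 100000 33333 100000 66667 0 0 0)

lemma s20_21_10_4_1 {n : ℕ} (hn : 6 ≤ n) : NoNd (d20_21_10_4.R : ℤ) d20_21_10_4.H n d20_21_10_4.a d20_21_10_4.b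
    (BlkD.inB (fun _ => 0)
      (BlkD.upd (BlkD.upd (BlkD.upd (BlkD.upd (BlkD.upd (fun _ => 21) 0 10) 2 4) 0 5) 0 2) 0 1)) :=
  BlkD.tree_sound (BlkD.pairOk_sound k20_21_10_4) (by decide) hn t20_21_10_4_1 _ _ (by decide +kernel)

/-- certificates of the pair `(10, 4)`, part 2 -/
def t20_21_10_4_2 : BlkD.Tr :=
  .S 1 10 (.L 4 4 [4, 20, 20, 20, 20] [] [] 100000 0 0 1600001 100000 33333 100000 66667 0 0 0) (.L
    4 4 [4, 20, 20, 20, 20] [] [] 100000 0 0 1600001 100000 33333 100000 66667 0 0 0)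

lemma s20_21_10_4_2 {n : ℕ} (hn : 6 ≤ n) : NoNd (d20_21_10_4.R : ℤ) d20_21_10_4.H n d20_21_10_4.a d20_21_10_4.b
    (BlkD.inB (BlkD.upd (fun _ => 0) 0 2)
      (BlkD.upd (BlkD.upd (BlkD.upd (BlkD.upd (fun _ => 21) 0 10) 2 4) 0 5) 0 2)) :=
  BlkD.tree_sound (BlkD.pairOk_sound k20_21_10_4) (by decide) hn t20_21_10_4_2 _ _ (by decide +kernel)

/-- certificates of the pair `(10, 4)`, part 3 -/
def t20_21_10_4_3 : BlkD.Tr :=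
  .S 1 10 (.L 4 4 [4, 20, 20, 20, 20] [] [] 100000 0 0 1600001 100000 33333 100000 66667 0 0 0) (.L
    4 4 [4, 20, 20, 20, 20] [] [] 100000 0 0 1600001 100000 33333 100000 66667 0 0 0)

lemma s20_21_10_4_3 {n : ℕ} (hn : 6 ≤ n) : NoNd (d20_21_10_4.R : ℤ) d20_21_10_4.H n d20_21_10_4.a d20_21_10_4.b
    (BlkD.inB (BlkD.upd (fun _ => 0) 0 3)
      (BlkD.upd (BlkD.upd (BlkD.upd (BlkD.upd (BlkD.upd (fun _ => 21) 0 10) 2 4) 0 5) 0 4) 0 3)) :=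
  BlkD.tree_sound (BlkD.pairOk_sound k20_21_10_4) (by decide) hn t20_21_10_4_3 _ _ (by decide +kernel)

/-- certificates of the pair `(10, 4)`, part 4 -/
def t20_21_10_4_4 : BlkD.Tr :=
  .L 4 4 [4, 20, 20, 20, 20] [] [] 100000 0 0 1600001 100000 33333 100000 66667 0 0 0

lemma s20_21_10_4_4 {n : ℕ} (hn : 6 ≤ n) : NoNd (d20_21_10_4.R : ℤ) d20_21_10_4.H n d20_21_10_4.a d20_21_10_4.b
    (BlkD.inB (BlkD.upd (BlkD.upd (fun _ => 0) 0 3) 0 4)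
      (BlkD.upd (BlkD.upd (BlkD.upd (BlkD.upd (BlkD.upd (fun _ => 21) 0 10) 2 4) 0 5) 0 4) 1 10)) :=
  BlkD.tree_sound (BlkD.pairOk_sound k20_21_10_4) (by decide) hn t20_21_10_4_4 _ _ (by decide +kernel)

/-- certificates of the pair `(10, 4)`, part 5 -/
def t20_21_10_4_5 : BlkD.Tr :=
  .L 4 4 [4, 20, 20, 20, 20] [] [] 100000 0 0 1600001 100000 33333 100000 66667 0 0 0

lemma s20_21_10_4_5 {n : ℕ} (hn : 6 ≤ n) : NoNd (d20_21_10_4.R : ℤ) d20_21_10_4.H n d20_21_10_4.a d20_21_10_4.b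
    (BlkD.inB (BlkD.upd (BlkD.upd (BlkD.upd (fun _ => 0) 0 3) 0 4) 1 11)
      (BlkD.upd (BlkD.upd (BlkD.upd (BlkD.upd (fun _ => 21) 0 10) 2 4) 0 5) 0 4)) :=
  BlkD.tree_sound (BlkD.pairOk_sound k20_21_10_4) (by decide) hn t20_21_10_4_5 _ _ (by decide +kernel)

/-- certificates of the pair `(10, 4)`, part 6 -/
def t20_21_10_4_6 : BlkD.Tr :=
  .S 1 5 (.L 4 4 [4, 20, 20, 20, 20] [] [] 100000 0 0 1600001 100000 33333 100000 66667 0 0 0) (.L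
    4 4 [4, 20, 20, 20, 20] [] [] 100000 0 0 1600001 100000 33333 100000 66667 0 0 0)

lemma s20_21_10_4_6 {n : ℕ} (hn : 6 ≤ n) : NoNd (d20_21_10_4.R : ℤ) d20_21_10_4.H n d20_21_10_4.a d20_21_10_4.b
    (BlkD.inB (BlkD.upd (BlkD.upd (fun _ => 0) 0 3) 0 5)
      (BlkD.upd (BlkD.upd (BlkD.upd (BlkD.upd (fun _ => 21) 0 10) 2 4) 0 5) 1 10)) :=
  BlkD.tree_sound (BlkD.pairOk_sound k20_21_10_4) (by decide) hn t20_21_10_4_6 _ _ (by decide +kernel)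

/-- certificates of the pair `(10, 4)`, part 7 -/
def t20_21_10_4_7 : BlkD.Tr :=
  .L 4 4 [4, 20, 20, 20, 20] [] [] 100000 0 0 1600001 100000 33333 100000 66667 0 0 0

lemma s20_21_10_4_7 {n : ℕ} (hn : 6 ≤ n) : NoNd (d20_21_10_4.R : ℤ) d20_21_10_4.H n d20_21_10_4.a d20_21_10_4.b
    (BlkD.inB (BlkD.upd (BlkD.upd (BlkD.upd (fun _ => 0) 0 3) 0 5) 1 11)
      (BlkD.upd (BlkD.upd (BlkD.upd (fun _ => 21) 0 10) 2 4) 0 5)) :=
  BlkD.tree_sound (BlkD.pairOk_sound k20_21_10_4) (by decide) hn t20_21_10_4_7 _ _ (by decide +kernel)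

/-- certificates of the pair `(10, 4)`, part 8 -/
def t20_21_10_4_8 : BlkD.Tr :=
  .L 4 4 [4, 20, 20, 20, 20] [] [] 100000 0 0 1600001 100000 33333 100000 66667 0 0 0

lemma s20_21_10_4_8 {n : ℕ} (hn : 6 ≤ n) : NoNd (d20_21_10_4.R : ℤ) d20_21_10_4.H n d20_21_10_4.a d20_21_10_4.b
    (BlkD.inB (BlkD.upd (fun _ => 0) 0 6)
      (BlkD.upd (BlkD.upd (BlkD.upd (BlkD.upd (BlkD.upd (BlkD.upd (BlkD.upd (fun _ => 21) 0 10) 2 4) 0 8) 0 7) 0 6) 1 10) 1 5)) :=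
  BlkD.tree_sound (BlkD.pairOk_sound k20_21_10_4) (by decide) hn t20_21_10_4_8 _ _ (by decide +kernel)

/-- certificates of the pair `(10, 4)`, part 9 -/
def t20_21_10_4_9 : BlkD.Tr :=
  .S 1 8 (.L 4 4 [4, 20, 20, 20, 20] [] [] 100000 0 0 1600001 100000 33333 100000 66667 0 0 0) (.L
    4 4 [4, 20, 20, 20, 20] [] [] 100000 0 0 1600001 100000 33333 100000 66667 0 0 0)

lemma s20_21_10_4_9 {n : ℕ} (hn : 6 ≤ n) : NoNd (d20_21_10_4.R : ℤ) d20_21_10_4.H n d20_21_10_4.a d20_21_10_4.b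
    (BlkD.inB (BlkD.upd (BlkD.upd (fun _ => 0) 0 6) 1 6)
      (BlkD.upd (BlkD.upd (BlkD.upd (BlkD.upd (BlkD.upd (BlkD.upd (fun _ => 21) 0 10) 2 4) 0 8) 0 7) 0 6) 1 10)) :=
  BlkD.tree_sound (BlkD.pairOk_sound k20_21_10_4) (by decide) hn t20_21_10_4_9 _ _ (by decide +kernel)

/-- certificates of the pair `(10, 4)`, part 10 -/
def t20_21_10_4_10 : BlkD.Tr :=
  .L 4 4 [4, 20, 20, 20, 20] [] [] 100000 0 0 1600001 100000 33333 100000 66667 0 0 0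

lemma s20_21_10_4_10 {n : ℕ} (hn : 6 ≤ n) : NoNd (d20_21_10_4.R : ℤ) d20_21_10_4.H n d20_21_10_4.a d20_21_10_4.b
    (BlkD.inB (BlkD.upd (BlkD.upd (fun _ => 0) 0 6) 1 11)
      (BlkD.upd (BlkD.upd (BlkD.upd (BlkD.upd (BlkD.upd (fun _ => 21) 0 10) 2 4) 0 8) 0 7) 0 6)) :=
  BlkD.tree_sound (BlkD.pairOk_sound k20_21_10_4) (by decide) hn t20_21_10_4_10 _ _ (by decide +kernel)

/-- certificates of the pair `(10, 4)`, part 11 -/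
def t20_21_10_4_11 : BlkD.Tr :=
  .L 4 4 [4, 20, 20, 20, 20] [] [] 100000 0 0 1600001 100000 33333 100000 66667 0 0 0

lemma s20_21_10_4_11 {n : ℕ} (hn : 6 ≤ n) : NoNd (d20_21_10_4.R : ℤ) d20_21_10_4.H n d20_21_10_4.a d20_21_10_4.b
    (BlkD.inB (BlkD.upd (BlkD.upd (fun _ => 0) 0 6) 0 7)
      (BlkD.upd (BlkD.upd (BlkD.upd (BlkD.upd (BlkD.upd (BlkD.upd (fun _ => 21) 0 10) 2 4) 0 8) 0 7) 1 10) 1 5)) :=
  BlkD.tree_sound (BlkD.pairOk_sound k20_21_10_4) (by decide) hn t20_21_10_4_11 _ _ (by decide +kernel)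

/-- certificates of the pair `(10, 4)`, part 12 -/
def t20_21_10_4_12 : BlkD.Tr :=
  .S 1 8 (.L 4 4 [4, 20, 20, 20, 20] [] [] 100000 0 0 1600001 100000 33333 100000 66667 0 0 0) (.L
    4 4 [4, 20, 20, 20, 20] [] [] 100000 0 0 1600001 100000 33333 100000 66667 0 0 0)

lemma s20_21_10_4_12 {n : ℕ} (hn : 6 ≤ n) : NoNd (d20_21_10_4.R : ℤ) d20_21_10_4.H n d20_21_10_4.a d20_21_10_4.b
    (BlkD.inB (BlkD.upd (BlkD.upd (BlkD.upd (fun _ => 0) 0 6) 0 7) 1 6)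
      (BlkD.upd (BlkD.upd (BlkD.upd (BlkD.upd (BlkD.upd (fun _ => 21) 0 10) 2 4) 0 8) 0 7) 1 10)) :=
  BlkD.tree_sound (BlkD.pairOk_sound k20_21_10_4) (by decide) hn t20_21_10_4_12 _ _ (by decide +kernel)

/-- certificates of the pair `(10, 4)`, part 13 -/
def t20_21_10_4_13 : BlkD.Tr :=
  .L 4 4 [4, 20, 20, 20, 20] [] [] 100000 0 0 1600001 100000 33333 100000 66667 0 0 0

lemma s20_21_10_4_13 {n : ℕ} (hn : 6 ≤ n) : NoNd (d20_21_10_4.R : ℤ) d20_21_10_4.H n d20_21_10_4.a d20_21_10_4.b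
    (BlkD.inB (BlkD.upd (BlkD.upd (BlkD.upd (fun _ => 0) 0 6) 0 7) 1 11)
      (BlkD.upd (BlkD.upd (BlkD.upd (BlkD.upd (fun _ => 21) 0 10) 2 4) 0 8) 0 7)) :=
  BlkD.tree_sound (BlkD.pairOk_sound k20_21_10_4) (by decide) hn t20_21_10_4_13 _ _ (by decide +kernel)

/-- certificates of the pair `(10, 4)`, part 14 -/
def t20_21_10_4_14 : BlkD.Tr :=
  .S 1 10 (.L 4 4 [4, 20, 20, 20, 20] [] [] 100000 0 0 1600001 100000 33333 100000 66667 0 0 0) (.L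
    4 4 [4, 20, 20, 20, 20] [] [] 100000 0 0 1600001 100000 33333 100000 66667 0 0 0)

lemma s20_21_10_4_14 {n : ℕ} (hn : 6 ≤ n) : NoNd (d20_21_10_4.R : ℤ) d20_21_10_4.H n d20_21_10_4.a d20_21_10_4.b
    (BlkD.inB (BlkD.upd (BlkD.upd (fun _ => 0) 0 6) 0 8)
      (BlkD.upd (BlkD.upd (BlkD.upd (fun _ => 21) 0 10) 2 4) 0 8)) :=
  BlkD.tree_sound (BlkD.pairOk_sound k20_21_10_4) (by decide) hn t20_21_10_4_14 _ _ (by decide +kernel)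

/-- certificates of the pair `(10, 4)`, part 15 -/
def t20_21_10_4_15 : BlkD.Tr :=
  .L 4 4 [4, 20, 20, 20, 20] [] [] 100000 0 0 1600001 100000 33333 100000 66667 0 0 0

lemma s20_21_10_4_15 {n : ℕ} (hn : 6 ≤ n) : NoNd (d20_21_10_4.R : ℤ) d20_21_10_4.H n d20_21_10_4.a d20_21_10_4.b
    (BlkD.inB (BlkD.upd (BlkD.upd (fun _ => 0) 0 6) 0 9)
      (BlkD.upd (BlkD.upd (fun _ => 21) 0 10) 2 4)) :=
  BlkD.tree_sound (BlkD.pairOk_sound k20_21_10_4) (by decide) hn t20_21_10_4_15 _ _ (by decide +kernel)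

/-- certificates of the pair `(10, 4)`, part 16 -/
def t20_21_10_4_16 : BlkD.Tr :=
  .E 1

lemma s20_21_10_4_16 {n : ℕ} (hn : 6 ≤ n) : NoNd (d20_21_10_4.R : ℤ) d20_21_10_4.H n d20_21_10_4.a d20_21_10_4.b
    (BlkD.inB (BlkD.upd (fun _ => 0) 2 5)
      (BlkD.upd (fun _ => 21) 0 10)) :=
  BlkD.tree_sound (BlkD.pairOk_sound k20_21_10_4) (by decide) hn t20_21_10_4_16 _ _ (by decide +kernel)

/-- certificates of the pair `(10, 4)`, part 17 -/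
def t20_21_10_4_17 : BlkD.Tr :=
  .E 0

lemma s20_21_10_4_17 {n : ℕ} (hn : 6 ≤ n) : NoNd (d20_21_10_4.R : ℤ) d20_21_10_4.H n d20_21_10_4.a d20_21_10_4.b
    (BlkD.inB (BlkD.upd (fun _ => 0) 0 11)
      (fun _ => 21)) :=
  BlkD.tree_sound (BlkD.pairOk_sound k20_21_10_4) (by decide) hn t20_21_10_4_17 _ _ (by decide +kernel)

lemma pr20_21_10_4 {n : ℕ} (hn : 6 ≤ n) : NoPr ((20 : ℕ) : ℤ) ((21 : ℕ) : ℤ) n 10 4 :=
  BlkD.of_root (R := d20_21_10_4.R) (H := d20_21_10_4.H) (a := d20_21_10_4.a) (b := d20_21_10_4.b) (q := 4) (by decide) hn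
    (BlkD.sp 0 10 (BlkD.sp 2 4 (BlkD.sp 0 5 (BlkD.sp 0 2 (BlkD.sp 0 1 (s20_21_10_4_1 hn)
      (s20_21_10_4_2 hn)) (BlkD.sp 0 4 (BlkD.sp 0 3 (s20_21_10_4_3 hn) (BlkD.sp 1 10 (s20_21_10_4_4
      hn) (s20_21_10_4_5 hn))) (BlkD.sp 1 10 (s20_21_10_4_6 hn) (s20_21_10_4_7 hn)))) (BlkD.sp 0 8
      (BlkD.sp 0 7 (BlkD.sp 0 6 (BlkD.sp 1 10 (BlkD.sp 1 5 (s20_21_10_4_8 hn) (s20_21_10_4_9 hn))
      (s20_21_10_4_10 hn)) (BlkD.sp 1 10 (BlkD.sp 1 5 (s20_21_10_4_11 hn) (s20_21_10_4_12 hn))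
      (s20_21_10_4_13 hn))) (s20_21_10_4_14 hn)) (s20_21_10_4_15 hn))) (s20_21_10_4_16 hn))
      (s20_21_10_4_17 hn))

/-- the numbers of the pair `(11, 0)`, `R = 20`, `H = 21` -/
def d20_21_11_0 : BlkD.Pd :=
  ⟨20, 21, 4, 11, 0, 7, 0, 1, 0, 4, 4, 0, 0, 4, 4, 0, [0, 4, 8, 12, 16, 20, 24, 28], [0, 4, 8, 12,
    16, 20, 24, 28], [⟨1, 1, 1, 4, 8, [0, 4], [0, 4]⟩]⟩

lemma k20_21_11_0 : BlkD.pairOk d20_21_11_0 = true := by decide +kernel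

/-- certificates of the pair `(11, 0)`, part 1 -/
def t20_21_11_0_1 : BlkD.Tr :=
  .L 4 4 [4] [] [] 100000 0 0 1200000 100000 0 100000 0 0 0 0

lemma s20_21_11_0_1 {n : ℕ} (hn : 6 ≤ n) : NoNd (d20_21_11_0.R : ℤ) d20_21_11_0.H n d20_21_11_0.a d20_21_11_0.b
    (BlkD.inB (fun _ => 0)
      (BlkD.upd (BlkD.upd (BlkD.upd (fun _ => 21) 0 11) 2 0) 0 5)) :=
  BlkD.tree_sound (BlkD.pairOk_sound k20_21_11_0) (by decide) hn t20_21_11_0_1 _ _ (by decide +kernel)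

/-- certificates of the pair `(11, 0)`, part 2 -/
def t20_21_11_0_2 : BlkD.Tr :=
  .L 4 4 [4] [] [] 100000 0 0 1200000 100000 0 100000 0 0 0 0

lemma s20_21_11_0_2 {n : ℕ} (hn : 6 ≤ n) : NoNd (d20_21_11_0.R : ℤ) d20_21_11_0.H n d20_21_11_0.a d20_21_11_0.b
    (BlkD.inB (BlkD.upd (fun _ => 0) 0 6)
      (BlkD.upd (BlkD.upd (fun _ => 21) 0 11) 2 0)) :=
  BlkD.tree_sound (BlkD.pairOk_sound k20_21_11_0) (by decide) hn t20_21_11_0_2 _ _ (by decide +kernel)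

/-- certificates of the pair `(11, 0)`, part 3 -/
def t20_21_11_0_3 : BlkD.Tr :=
  .E 1

lemma s20_21_11_0_3 {n : ℕ} (hn : 6 ≤ n) : NoNd (d20_21_11_0.R : ℤ) d20_21_11_0.H n d20_21_11_0.a d20_21_11_0.b
    (BlkD.inB (BlkD.upd (fun _ => 0) 2 1)
      (BlkD.upd (fun _ => 21) 0 11)) :=
  BlkD.tree_sound (BlkD.pairOk_sound k20_21_11_0) (by decide) hn t20_21_11_0_3 _ _ (by decide +kernel)

/-- certificates of the pair `(11, 0)`, part 4 -/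
def t20_21_11_0_4 : BlkD.Tr :=
  .E 0

lemma s20_21_11_0_4 {n : ℕ} (hn : 6 ≤ n) : NoNd (d20_21_11_0.R : ℤ) d20_21_11_0.H n d20_21_11_0.a d20_21_11_0.b
    (BlkD.inB (BlkD.upd (fun _ => 0) 0 12)
      (fun _ => 21)) :=
  BlkD.tree_sound (BlkD.pairOk_sound k20_21_11_0) (by decide) hn t20_21_11_0_4 _ _ (by decide +kernel)

lemma pr20_21_11_0 {n : ℕ} (hn : 6 ≤ n) : NoPr ((20 : ℕ) : ℤ) ((21 : ℕ) : ℤ) n 11 0 :=
  BlkD.of_root (R := d20_21_11_0.R) (H := d20_21_11_0.H) (a := d20_21_11_0.a) (b := d20_21_11_0.b) (q := 4) (by decide) hn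
    (BlkD.sp 0 11 (BlkD.sp 2 0 (BlkD.sp 0 5 (s20_21_11_0_1 hn) (s20_21_11_0_2 hn)) (s20_21_11_0_3
      hn)) (s20_21_11_0_4 hn))

end BlkC

end Pool.Agent.Lib.MP_f04ccf_co
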