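import Pool.Agent.Lib.MP_f04ccf_co.M.BlkT

/-!
MP_f04ccf_co, block certificate, data `R = 20`, `H = 21`, part 19 (generated, helper99:
bd10.cpp, gen2.py).
-/

set_option autoImplicit false
set_option maxRecDepth 100000

namespace Pool.Agent.Lib.MP_f04ccf_co

namespace BlkC

/-- the numbers of the pair `(11, 2)`, `R = 20`, `H = 21` -/
def d20_21_11_2 : BlkD.Pd :=
  ⟨20, 21, 4, 11, 2, 5, 1, 2, 0, 4, 8, 0, 0, 4, 4, 0, [0, 8, 16, 20, 20, 20], [0, 4, 8, 12, 16,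
    20], [⟨1, 1, 1, 4, 8, [0, 4], [0, 4]⟩, ⟨1, 1, 1, 4, 12, [0, 8], [0, 4]⟩]⟩

lemma k20_21_11_2 : BlkD.pairOk d20_21_11_2 = true := by decide +kernel

/-- certificates of the pair `(11, 2)`, part 1 -/
def t20_21_11_2_1 : BlkD.Tr :=
  .L 4 6 [4, 4, 20] [] [] 100000 200000 200000 1300001 80000 0 93333 0 0 0 0

lemma s20_21_11_2_1 {n : ℕ} (hn : 6 ≤ n) : NoNd (d20_21_11_2.R : ℤ) d20_21_11_2.H n d20_21_11_2.a d20_21_11_2.b
    (BlkD.inB (fun _ => 0)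
      (BlkD.upd (BlkD.upd (BlkD.upd (BlkD.upd (BlkD.upd (fun _ => 21) 0 11) 2 2) 0 5) 0 2) 0 1)) :=
  BlkD.tree_sound (BlkD.pairOk_sound k20_21_11_2) (by decide) hn t20_21_11_2_1 _ _ (by decide +kernel)

/-- certificates of the pair `(11, 2)`, part 2 -/
def t20_21_11_2_2 : BlkD.Tr :=
  .L 4 6 [4, 4, 20] [] [] 100000 200000 200000 1300001 80000 0 93333 0 0 0 0

lemma s20_21_11_2_2 {n : ℕ} (hn : 6 ≤ n) : NoNd (d20_21_11_2.R : ℤ) d20_21_11_2.H n d20_21_11_2.a d20_21_11_2.b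
    (BlkD.inB (BlkD.upd (fun _ => 0) 0 2)
      (BlkD.upd (BlkD.upd (BlkD.upd (BlkD.upd (fun _ => 21) 0 11) 2 2) 0 5) 0 2)) :=
  BlkD.tree_sound (BlkD.pairOk_sound k20_21_11_2) (by decide) hn t20_21_11_2_2 _ _ (by decide +kernel)

/-- certificates of the pair `(11, 2)`, part 3 -/
def t20_21_11_2_3 : BlkD.Tr :=
  .L 4 6 [4, 4, 20] [] [] 100000 200000 200000 1300001 80000 0 93333 0 0 0 0

lemma s20_21_11_2_3 {n : ℕ} (hn : 6 ≤ n) : NoNd (d20_21_11_2.R : ℤ) d20_21_11_2.H n d20_21_11_2.a d20_21_11_2.b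
    (BlkD.inB (BlkD.upd (fun _ => 0) 0 3)
      (BlkD.upd (BlkD.upd (BlkD.upd (BlkD.upd (BlkD.upd (fun _ => 21) 0 11) 2 2) 0 5) 0 4) 0 3)) :=
  BlkD.tree_sound (BlkD.pairOk_sound k20_21_11_2) (by decide) hn t20_21_11_2_3 _ _ (by decide +kernel)

/-- certificates of the pair `(11, 2)`, part 4 -/
def t20_21_11_2_4 : BlkD.Tr :=
  .L 4 6 [4, 4, 20] [] [] 100000 200000 200000 1300001 80000 0 93333 0 0 0 0

lemma s20_21_11_2_4 {n : ℕ} (hn : 6 ≤ n) : NoNd (d20_21_11_2.R : ℤ) d20_21_11_2.H n d20_21_11_2.a d20_21_11_2.b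
    (BlkD.inB (BlkD.upd (BlkD.upd (fun _ => 0) 0 3) 0 4)
      (BlkD.upd (BlkD.upd (BlkD.upd (BlkD.upd (fun _ => 21) 0 11) 2 2) 0 5) 0 4)) :=
  BlkD.tree_sound (BlkD.pairOk_sound k20_21_11_2) (by decide) hn t20_21_11_2_4 _ _ (by decide +kernel)

/-- certificates of the pair `(11, 2)`, part 5 -/
def t20_21_11_2_5 : BlkD.Tr :=
  .L 4 6 [4, 4, 20] [] [] 100000 200000 200000 1300001 80000 0 93333 0 0 0 0

lemma s20_21_11_2_5 {n : ℕ} (hn : 6 ≤ n) : NoNd (d20_21_11_2.R : ℤ) d20_21_11_2.H n d20_21_11_2.a d20_21_11_2.b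
    (BlkD.inB (BlkD.upd (BlkD.upd (fun _ => 0) 0 3) 0 5)
      (BlkD.upd (BlkD.upd (BlkD.upd (fun _ => 21) 0 11) 2 2) 0 5)) :=
  BlkD.tree_sound (BlkD.pairOk_sound k20_21_11_2) (by decide) hn t20_21_11_2_5 _ _ (by decide +kernel)

/-- certificates of the pair `(11, 2)`, part 6 -/
def t20_21_11_2_6 : BlkD.Tr :=
  .S 1 15 (.S 1 7 (.L 4 6 [4, 4, 20] [] [] 100000 0 0 1450000 25000 0 25000 0 0 0 0) (.S 1 11 (.S 1
    9 (.L 4 6 [4, 4, 20] [] [] 100000 0 0 1533336 33333 0 50000 0 0 0 0) (.S 1 10 (.L 4 6 [4, 4,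
    20] [248, 248, 248, 248, 248, 248] [] 100000 100000 100000 1450000 50000 0 100000 50000 0 0 0)
    (.S 2 1 (.S 2 0 (.L 4 6 [4, 4, 20] [280, 280, 280, 280, 280, 280] [] 100000 200002 200002
    1366665 66667 0 100000 66667 0 0 0) (.S 3 3 (.S 3 1 (.S 3 0 (.L 2 2 [6, 10, 20] [280, 280, 280,
    280, 280, 280] [0, 0, 0, 0, 0, 0] 100000 550000 550000 1000000 100000 0 100000 0 0 50000 50000)
    (.L 2 2 [6, 10, 20] [280, 280, 280, 280, 280, 280] [12, 2, 0, 0, 0, 0] 100000 550000 550000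
    1000000 100000 0 100000 0 0 50000 50000)) (.L 2 2 [6, 10, 20] [280, 280, 280, 280, 280, 280] []
    100000 477779 477779 1022221 88889 0 88889 0 0 44444 44444)) (.E 1))) (.L 2 2 [6, 10, 20] [280,
    280, 280, 280, 280, 280] [] 100000 600000 600000 900000 100000 0 100000 0 0 0 0)))) (.S 1 13
    (.S 1 12 (.S 2 1 (.S 2 0 (.S 3 3 (.S 3 1 (.S 3 0 (.L 7 7 [5, 3, 20] [314, 314, 314, 314, 314,
    314] [0, 0, 0, 0, 0, 0] 100000 40000 40000 1400000 80000 0 80000 0 0 0 0) (.L 7 7 [5, 3, 20]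
    [314, 314, 314, 314, 314, 314] [10, 0, 0, 0, 0, 0] 100000 466666 208333 2 308333 0 358333
    208333 0 0 0)) (.L 7 7 [5, 3, 20] [314, 314, 314, 314, 314, 314] [] 100000 400000 250000 0
    250000 0 250000 250000 0 0 0)) (.E 1)) (.L 7 7 [5, 3, 20] [314, 314, 314, 314, 314, 314] []
    100000 500001 250001 0 316667 33333 350000 33333 0 0 0)) (.L 7 7 [5, 3, 20] [314, 314, 314,
    314, 314, 314] [] 100000 566666 333333 2 333333 0 333333 0 0 0 0)) (.L 7 7 [5, 3, 20] [350,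
    350, 350, 350, 350, 350] [] 100000 466666 208333 2 308333 0 358333 0 0 0 0)) (.L 7 7 [5, 3, 20]
    [] [] 100000 366668 133335 0 266667 0 333333 0 0 0 0)))) (.E 0)

lemma s20_21_11_2_6 {n : ℕ} (hn : 6 ≤ n) : NoNd (d20_21_11_2.R : ℤ) d20_21_11_2.H n d20_21_11_2.a d20_21_11_2.b
    (BlkD.inB (BlkD.upd (fun _ => 0) 0 6)
      (BlkD.upd (BlkD.upd (BlkD.upd (BlkD.upd (BlkD.upd (fun _ => 21) 0 11) 2 2) 0 8) 0 7) 0 6)) :=
  BlkD.tree_sound (BlkD.pairOk_sound k20_21_11_2) (by decide) hn t20_21_11_2_6 _ _ (by decide +kernel)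

/-- certificates of the pair `(11, 2)`, part 7 -/
def t20_21_11_2_7 : BlkD.Tr :=
  .L 7 7 [5, 3, 20] [] [] 100000 25000 25000 1525000 75000 25000 100000 25000 0 0 0

lemma s20_21_11_2_7 {n : ℕ} (hn : 6 ≤ n) : NoNd (d20_21_11_2.R : ℤ) d20_21_11_2.H n d20_21_11_2.a d20_21_11_2.b
    (BlkD.inB (BlkD.upd (BlkD.upd (fun _ => 0) 0 6) 0 7)
      (BlkD.upd (BlkD.upd (BlkD.upd (BlkD.upd (fun _ => 21) 0 11) 2 2) 0 8) 0 7)) :=
  BlkD.tree_sound (BlkD.pairOk_sound k20_21_11_2) (by decide) hn t20_21_11_2_7 _ _ (by decide +kernel)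

/-- certificates of the pair `(11, 2)`, part 8 -/
def t20_21_11_2_8 : BlkD.Tr :=
  .L 7 7 [5, 3, 20] [] [] 100000 25000 25000 1550000 75000 25000 100000 50000 0 0 0

lemma s20_21_11_2_8 {n : ℕ} (hn : 6 ≤ n) : NoNd (d20_21_11_2.R : ℤ) d20_21_11_2.H n d20_21_11_2.a d20_21_11_2.b
    (BlkD.inB (BlkD.upd (BlkD.upd (fun _ => 0) 0 6) 0 8)
      (BlkD.upd (BlkD.upd (BlkD.upd (fun _ => 21) 0 11) 2 2) 0 8)) :=
  BlkD.tree_sound (BlkD.pairOk_sound k20_21_11_2) (by decide) hn t20_21_11_2_8 _ _ (by decide +kernel)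

/-- certificates of the pair `(11, 2)`, part 9 -/
def t20_21_11_2_9 : BlkD.Tr :=
  .S 0 10 (.S 0 9 (.S 1 12 (.S 1 6 (.S 1 3 (.L 7 7 [5, 3, 20] [] [] 100000 0 0 1500000 0 0 0 0 0 0
    0) (.S 1 5 (.L 4 6 [4, 4, 20] [] [] 100000 0 0 1540000 40000 0 40000 0 0 0 0) (.S 2 1 (.S 2 0
    (.L 4 6 [4, 4, 20] [176, 176, 172, 164, 156, 148] [] 100000 0 0 1540000 40000 0 60000 60000 0 0
    0) (.S 3 5 (.S 3 2 (.S 3 1 (.L 4 6 [4, 4, 20] [176, 176, 172, 164, 156, 148] [] 100000 0 0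
    1540000 40000 0 40000 0 0 0 0) (.L 7 7 [5, 3, 20] [176, 176, 172, 164, 156, 148] [24, 16, 6, 0,
    0, 0] 100000 1 1 1499999 66667 0 100000 0 0 0 0)) (.E 1)) (.E 1))) (.L 7 7 [5, 3, 20] [176,
    176, 172, 164, 156, 148] [] 100000 1 1 1566666 66667 0 66667 0 0 0 0)))) (.S 1 9 (.S 1 8 (.S 1
    7 (.S 2 1 (.L 7 7 [5, 3, 20] [206, 206, 206, 202, 194, 186] [] 100000 1 1 1566667 66667 33333
    100000 33333 0 0 0) (.L 4 6 [4, 4, 20] [206, 206, 206, 202, 194, 186] [] 100000 300000 300000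
    1200000 100000 0 100000 0 0 0 0)) (.L 4 6 [4, 4, 20] [238, 238, 238, 238, 234, 226] [] 100000
    100000 100000 1475000 75000 0 100000 25000 0 0 0)) (.L 4 6 [4, 4, 20] [272, 272, 272, 272, 272,
    268] [] 100000 100000 100000 1475000 75000 0 100000 25000 0 0 0)) (.S 1 11 (.S 1 10 (.L 4 6 [4,
    4, 20] [308, 308, 308, 308, 308, 308] [] 100000 100000 100000 1475000 75000 0 100000 25000 0 0
    0) (.L 4 6 [4, 4, 20] [346, 346, 346, 346, 346, 346] [] 100000 757142 571428 2 285714 0 285714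
    100000 0 0 0)) (.L 4 6 [4, 4, 20] [386, 386, 386, 386, 386, 386] [] 100000 483332 233332 3
    233333 0 350000 0 0 0 0)))) (.E 0)) (.S 1 11 (.S 1 5 (.S 1 2 (.L 4 6 [4, 4, 20] [] [] 100000 0
    0 1500000 0 0 0 0 0 0 0) (.S 1 4 (.L 4 6 [4, 4, 20] [] [] 100000 0 0 1550000 50000 0 50000 0 0
    0 0) (.S 2 1 (.S 2 0 (.L 4 6 [4, 4, 20] [158, 154, 146, 138, 130, 120] [] 100000 0 0 1540000
    40000 0 80000 100000 0 0 0) (.S 3 5 (.S 3 2 (.S 3 1 (.L 4 6 [4, 4, 20] [158, 154, 146, 138,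
    130, 120] [] 100000 0 0 1580000 40000 0 40000 0 0 0 0) (.L 7 7 [5, 3, 20] [158, 154, 146, 138,
    130, 120] [24, 16, 6, 0, 0, 0] 100000 25000 25000 1500000 75000 0 100000 0 0 0 0)) (.E 1)) (.E
    1))) (.S 3 4 (.S 3 2 (.S 3 1 (.S 3 0 (.L 4 6 [4, 4, 20] [158, 154, 146, 138, 130, 120] [0, 0,
    0, 0, 0, 0] 100000 0 0 1540000 40000 0 40000 0 0 0 0) (.L 7 7 [5, 3, 20] [158, 154, 146, 138,
    130, 120] [14, 4, 0, 0, 0, 0] 100000 40000 40000 1400000 80000 0 80000 0 0 0 0)) (.E 1)) (.E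
    1)) (.E 1))))) (.L 7 7 [5, 3, 20] [] [] 100000 1 1 1566667 66667 33333 100000 33333 0 0 0)) (.E
    0))) (.L 7 7 [5, 3, 20] [] [] 100000 0 0 1500000 50000 0 100000 50000 0 0 0)

lemma s20_21_11_2_9 {n : ℕ} (hn : 6 ≤ n) : NoNd (d20_21_11_2.R : ℤ) d20_21_11_2.H n d20_21_11_2.a d20_21_11_2.b
    (BlkD.inB (BlkD.upd (BlkD.upd (fun _ => 0) 0 6) 0 9)
      (BlkD.upd (BlkD.upd (fun _ => 21) 0 11) 2 2)) :=
  BlkD.tree_sound (BlkD.pairOk_sound k20_21_11_2) (by decide) hn t20_21_11_2_9 _ _ (by decide +kernel)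

/-- certificates of the pair `(11, 2)`, part 10 -/
def t20_21_11_2_10 : BlkD.Tr :=
  .E 1

lemma s20_21_11_2_10 {n : ℕ} (hn : 6 ≤ n) : NoNd (d20_21_11_2.R : ℤ) d20_21_11_2.H n d20_21_11_2.a d20_21_11_2.b
    (BlkD.inB (BlkD.upd (fun _ => 0) 2 3)
      (BlkD.upd (fun _ => 21) 0 11)) :=
  BlkD.tree_sound (BlkD.pairOk_sound k20_21_11_2) (by decide) hn t20_21_11_2_10 _ _ (by decide +kernel)

/-- certificates of the pair `(11, 2)`, part 11 -/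
def t20_21_11_2_11 : BlkD.Tr :=
  .E 0

lemma s20_21_11_2_11 {n : ℕ} (hn : 6 ≤ n) : NoNd (d20_21_11_2.R : ℤ) d20_21_11_2.H n d20_21_11_2.a d20_21_11_2.b
    (BlkD.inB (BlkD.upd (fun _ => 0) 0 12)
      (fun _ => 21)) :=
  BlkD.tree_sound (BlkD.pairOk_sound k20_21_11_2) (by decide) hn t20_21_11_2_11 _ _ (by decide +kernel)

lemma pr20_21_11_2 {n : ℕ} (hn : 6 ≤ n) : NoPr ((20 : ℕ) : ℤ) ((21 : ℕ) : ℤ) n 11 2 :=
  BlkD.of_root (R := d20_21_11_2.R) (H := d20_21_11_2.H) (a := d20_21_11_2.a) (b := d20_21_11_2.b) (q := 4) (by decide) hn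
    (BlkD.sp 0 11 (BlkD.sp 2 2 (BlkD.sp 0 5 (BlkD.sp 0 2 (BlkD.sp 0 1 (s20_21_11_2_1 hn)
      (s20_21_11_2_2 hn)) (BlkD.sp 0 4 (BlkD.sp 0 3 (s20_21_11_2_3 hn) (s20_21_11_2_4 hn))
      (s20_21_11_2_5 hn))) (BlkD.sp 0 8 (BlkD.sp 0 7 (BlkD.sp 0 6 (s20_21_11_2_6 hn) (s20_21_11_2_7
      hn)) (s20_21_11_2_8 hn)) (s20_21_11_2_9 hn))) (s20_21_11_2_10 hn)) (s20_21_11_2_11 hn))

/-- the numbers of the pair `(11, 3)`, `R = 20`, `H = 21` -/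
def d20_21_11_3 : BlkD.Pd :=
  ⟨20, 21, 4, 11, 3, 4, 0, 3, 0, 4, 4, 0, 0, 4, 4, 0, [0, 4, 8, 12, 16], [0, 4, 8, 12, 16], [⟨1, 1,
    1, 4, 8, [0, 4], [0, 4]⟩]⟩

lemma k20_21_11_3 : BlkD.pairOk d20_21_11_3 = true := by decide +kernel

/-- certificates of the pair `(11, 3)`, part 1 -/
def t20_21_11_3_1 : BlkD.Tr :=
  .L 4 4 [4, 20, 20, 20] [] [] 100000 0 0 1600000 100000 0 100000 50000 0 0 0

lemma s20_21_11_3_1 {n : ℕ} (hn : 6 ≤ n) : NoNd (d20_21_11_3.R : ℤ) d20_21_11_3.H n d20_21_11_3.a d20_21_11_3.b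
    (BlkD.inB (fun _ => 0)
      (BlkD.upd (BlkD.upd (BlkD.upd (BlkD.upd (BlkD.upd (fun _ => 21) 0 11) 2 3) 0 5) 0 2) 0 1)) :=
  BlkD.tree_sound (BlkD.pairOk_sound k20_21_11_3) (by decide) hn t20_21_11_3_1 _ _ (by decide +kernel)

/-- certificates of the pair `(11, 3)`, part 2 -/
def t20_21_11_3_2 : BlkD.Tr :=
  .L 4 4 [4, 20, 20, 20] [] [] 100000 0 0 1600000 100000 0 100000 50000 0 0 0

lemma s20_21_11_3_2 {n : ℕ} (hn : 6 ≤ n) : NoNd (d20_21_11_3.R : ℤ) d20_21_11_3.H n d20_21_11_3.a d20_21_11_3.b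
    (BlkD.inB (BlkD.upd (fun _ => 0) 0 2)
      (BlkD.upd (BlkD.upd (BlkD.upd (BlkD.upd (fun _ => 21) 0 11) 2 3) 0 5) 0 2)) :=
  BlkD.tree_sound (BlkD.pairOk_sound k20_21_11_3) (by decide) hn t20_21_11_3_2 _ _ (by decide +kernel)

/-- certificates of the pair `(11, 3)`, part 3 -/
def t20_21_11_3_3 : BlkD.Tr :=
  .L 4 4 [4, 20, 20, 20] [] [] 100000 0 0 1600000 100000 0 100000 50000 0 0 0

lemma s20_21_11_3_3 {n : ℕ} (hn : 6 ≤ n) : NoNd (d20_21_11_3.R : ℤ) d20_21_11_3.H n d20_21_11_3.a d20_21_11_3.b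
    (BlkD.inB (BlkD.upd (fun _ => 0) 0 3)
      (BlkD.upd (BlkD.upd (BlkD.upd (BlkD.upd (BlkD.upd (fun _ => 21) 0 11) 2 3) 0 5) 0 4) 0 3)) :=
  BlkD.tree_sound (BlkD.pairOk_sound k20_21_11_3) (by decide) hn t20_21_11_3_3 _ _ (by decide +kernel)

/-- certificates of the pair `(11, 3)`, part 4 -/
def t20_21_11_3_4 : BlkD.Tr :=
  .L 4 4 [4, 20, 20, 20] [] [] 100000 0 0 1600000 100000 0 100000 50000 0 0 0

lemma s20_21_11_3_4 {n : ℕ} (hn : 6 ≤ n) : NoNd (d20_21_11_3.R : ℤ) d20_21_11_3.H n d20_21_11_3.a d20_21_11_3.b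
    (BlkD.inB (BlkD.upd (BlkD.upd (fun _ => 0) 0 3) 0 4)
      (BlkD.upd (BlkD.upd (BlkD.upd (BlkD.upd (fun _ => 21) 0 11) 2 3) 0 5) 0 4)) :=
  BlkD.tree_sound (BlkD.pairOk_sound k20_21_11_3) (by decide) hn t20_21_11_3_4 _ _ (by decide +kernel)

/-- certificates of the pair `(11, 3)`, part 5 -/
def t20_21_11_3_5 : BlkD.Tr :=
  .S 1 10 (.L 4 4 [4, 20, 20, 20] [] [] 100000 0 0 1600000 100000 0 100000 50000 0 0 0) (.L 4 4 [4,
    20, 20, 20] [] [] 100000 0 0 1600000 100000 0 100000 50000 0 0 0)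

lemma s20_21_11_3_5 {n : ℕ} (hn : 6 ≤ n) : NoNd (d20_21_11_3.R : ℤ) d20_21_11_3.H n d20_21_11_3.a d20_21_11_3.b
    (BlkD.inB (BlkD.upd (BlkD.upd (fun _ => 0) 0 3) 0 5)
      (BlkD.upd (BlkD.upd (BlkD.upd (fun _ => 21) 0 11) 2 3) 0 5)) :=
  BlkD.tree_sound (BlkD.pairOk_sound k20_21_11_3) (by decide) hn t20_21_11_3_5 _ _ (by decide +kernel)

/-- certificates of the pair `(11, 3)`, part 6 -/
def t20_21_11_3_6 : BlkD.Tr :=
  .S 1 10 (.L 4 4 [4, 20, 20, 20] [] [] 100000 0 0 1600000 100000 0 100000 50000 0 0 0) (.L 4 4 [4,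
    20, 20, 20] [] [] 100000 0 0 1600000 100000 0 100000 50000 0 0 0)

lemma s20_21_11_3_6 {n : ℕ} (hn : 6 ≤ n) : NoNd (d20_21_11_3.R : ℤ) d20_21_11_3.H n d20_21_11_3.a d20_21_11_3.b
    (BlkD.inB (BlkD.upd (fun _ => 0) 0 6)
      (BlkD.upd (BlkD.upd (BlkD.upd (BlkD.upd (BlkD.upd (fun _ => 21) 0 11) 2 3) 0 8) 0 7) 0 6)) :=
  BlkD.tree_sound (BlkD.pairOk_sound k20_21_11_3) (by decide) hn t20_21_11_3_6 _ _ (by decide +kernel)

/-- certificates of the pair `(11, 3)`, part 7 -/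
def t20_21_11_3_7 : BlkD.Tr :=
  .L 4 4 [4, 20, 20, 20] [] [] 100000 0 0 1600000 100000 0 100000 50000 0 0 0

lemma s20_21_11_3_7 {n : ℕ} (hn : 6 ≤ n) : NoNd (d20_21_11_3.R : ℤ) d20_21_11_3.H n d20_21_11_3.a d20_21_11_3.b
    (BlkD.inB (BlkD.upd (BlkD.upd (fun _ => 0) 0 6) 0 7)
      (BlkD.upd (BlkD.upd (BlkD.upd (BlkD.upd (fun _ => 21) 0 11) 2 3) 0 8) 0 7)) :=
  BlkD.tree_sound (BlkD.pairOk_sound k20_21_11_3) (by decide) hn t20_21_11_3_7 _ _ (by decide +kernel)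

/-- certificates of the pair `(11, 3)`, part 8 -/
def t20_21_11_3_8 : BlkD.Tr :=
  .L 4 4 [4, 20, 20, 20] [] [] 100000 0 0 1600000 100000 0 100000 50000 0 0 0

lemma s20_21_11_3_8 {n : ℕ} (hn : 6 ≤ n) : NoNd (d20_21_11_3.R : ℤ) d20_21_11_3.H n d20_21_11_3.a d20_21_11_3.b
    (BlkD.inB (BlkD.upd (BlkD.upd (fun _ => 0) 0 6) 0 8)
      (BlkD.upd (BlkD.upd (BlkD.upd (fun _ => 21) 0 11) 2 3) 0 8)) :=
  BlkD.tree_sound (BlkD.pairOk_sound k20_21_11_3) (by decide) hn t20_21_11_3_8 _ _ (by decide +kernel)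

/-- certificates of the pair `(11, 3)`, part 9 -/
def t20_21_11_3_9 : BlkD.Tr :=
  .S 0 10 (.S 0 9 (.L 4 4 [4, 20, 20, 20] [] [] 100000 0 0 1600000 100000 0 100000 50000 0 0 0) (.L
    4 4 [4, 20, 20, 20] [] [] 100000 0 0 1600000 100000 0 100000 50000 0 0 0)) (.L 4 4 [4, 20, 20,
    20] [] [] 100000 0 0 1600000 100000 0 100000 50000 0 0 0)

lemma s20_21_11_3_9 {n : ℕ} (hn : 6 ≤ n) : NoNd (d20_21_11_3.R : ℤ) d20_21_11_3.H n d20_21_11_3.a d20_21_11_3.b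
    (BlkD.inB (BlkD.upd (BlkD.upd (fun _ => 0) 0 6) 0 9)
      (BlkD.upd (BlkD.upd (fun _ => 21) 0 11) 2 3)) :=
  BlkD.tree_sound (BlkD.pairOk_sound k20_21_11_3) (by decide) hn t20_21_11_3_9 _ _ (by decide +kernel)

/-- certificates of the pair `(11, 3)`, part 10 -/
def t20_21_11_3_10 : BlkD.Tr :=
  .E 1

lemma s20_21_11_3_10 {n : ℕ} (hn : 6 ≤ n) : NoNd (d20_21_11_3.R : ℤ) d20_21_11_3.H n d20_21_11_3.a d20_21_11_3.b
    (BlkD.inB (BlkD.upd (fun _ => 0) 2 4)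
      (BlkD.upd (fun _ => 21) 0 11)) :=
  BlkD.tree_sound (BlkD.pairOk_sound k20_21_11_3) (by decide) hn t20_21_11_3_10 _ _ (by decide +kernel)

/-- certificates of the pair `(11, 3)`, part 11 -/
def t20_21_11_3_11 : BlkD.Tr :=
  .E 0

lemma s20_21_11_3_11 {n : ℕ} (hn : 6 ≤ n) : NoNd (d20_21_11_3.R : ℤ) d20_21_11_3.H n d20_21_11_3.a d20_21_11_3.b
    (BlkD.inB (BlkD.upd (fun _ => 0) 0 12)
      (fun _ => 21)) :=
  BlkD.tree_sound (BlkD.pairOk_sound k20_21_11_3) (by decide) hn t20_21_11_3_11 _ _ (by decide +kernel)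

lemma pr20_21_11_3 {n : ℕ} (hn : 6 ≤ n) : NoPr ((20 : ℕ) : ℤ) ((21 : ℕ) : ℤ) n 11 3 :=
  BlkD.of_root (R := d20_21_11_3.R) (H := d20_21_11_3.H) (a := d20_21_11_3.a) (b := d20_21_11_3.b) (q := 4) (by decide) hn
    (BlkD.sp 0 11 (BlkD.sp 2 3 (BlkD.sp 0 5 (BlkD.sp 0 2 (BlkD.sp 0 1 (s20_21_11_3_1 hn)
      (s20_21_11_3_2 hn)) (BlkD.sp 0 4 (BlkD.sp 0 3 (s20_21_11_3_3 hn) (s20_21_11_3_4 hn))
      (s20_21_11_3_5 hn))) (BlkD.sp 0 8 (BlkD.sp 0 7 (BlkD.sp 0 6 (s20_21_11_3_6 hn) (s20_21_11_3_7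
      hn)) (s20_21_11_3_8 hn)) (s20_21_11_3_9 hn))) (s20_21_11_3_10 hn)) (s20_21_11_3_11 hn))

/-- the numbers of the pair `(12, 0)`, `R = 20`, `H = 21` -/
def d20_21_12_0 : BlkD.Pd :=
  ⟨20, 21, 4, 12, 0, 6, 0, 1, 0, 4, 4, 0, 0, 4, 4, 0, [0, 4, 8, 12, 16, 20, 24], [0, 4, 8, 12, 16,
    20, 24], [⟨1, 1, 1, 4, 8, [0, 4], [0, 4]⟩]⟩

/-- the certificates of the pair `(12, 0)` -/
def t20_21_12_0 : BlkD.Tr :=
  .S 0 12 (.S 2 0 (.S 0 6 (.L 4 4 [4] [] [] 100000 0 0 1300000 100000 0 100000 0 0 0 0) (.L 4 4 [4]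
    [] [] 100000 0 0 1300000 100000 0 100000 0 0 0 0)) (.E 1)) (.E 0)

lemma pr20_21_12_0 {n : ℕ} (hn : 6 ≤ n) : NoPr ((20 : ℕ) : ℤ) ((21 : ℕ) : ℤ) n 12 0 :=
  BlkD.pair_sound (d := d20_21_12_0) (by decide +kernel) hn (by decide) (tr := t20_21_12_0)
    (by decide +kernel) rfl rfl rfl rfl

/-- the numbers of the pair `(12, 1)`, `R = 20`, `H = 21` -/
def d20_21_12_1 : BlkD.Pd :=
  ⟨20, 21, 4, 12, 1, 5, 1, 1, 0, 4, 8, 0, 0, 4, 4, 0, [0, 8, 16, 20, 20, 20], [0, 4, 8, 12, 16,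
    20], [⟨1, 1, 1, 4, 8, [0, 4], [0, 4]⟩, ⟨1, 1, 1, 4, 12, [0, 8], [0, 4]⟩]⟩

lemma k20_21_12_1 : BlkD.pairOk d20_21_12_1 = true := by decide +kernel

/-- certificates of the pair `(12, 1)`, part 1 -/
def t20_21_12_1_1 : BlkD.Tr :=
  .S 0 1 (.L 4 6 [4, 4] [] [] 100000 100000 100000 600000 100000 0 100000 0 0 0 0) (.L 4 6 [4, 4]
    [] [] 100000 100000 100000 600000 100000 0 100000 0 0 0 0)

lemma s20_21_12_1_1 {n : ℕ} (hn : 6 ≤ n) : NoNd (d20_21_12_1.R : ℤ) d20_21_12_1.H n d20_21_12_1.a d20_21_12_1.b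
    (BlkD.inB (fun _ => 0)
      (BlkD.upd (BlkD.upd (BlkD.upd (BlkD.upd (fun _ => 21) 0 12) 2 1) 0 6) 0 3)) :=
  BlkD.tree_sound (BlkD.pairOk_sound k20_21_12_1) (by decide) hn t20_21_12_1_1 _ _ (by decide +kernel)

/-- certificates of the pair `(12, 1)`, part 2 -/
def t20_21_12_1_2 : BlkD.Tr :=
  .S 0 5 (.L 4 6 [4, 4] [] [] 100000 300000 300000 1000000 100000 0 100000 0 0 0 0) (.S 1 15 (.S 1
    7 (.L 4 6 [4, 4] [] [] 100000 0 0 1266669 33333 0 33333 0 0 0 0) (.S 1 11 (.L 4 6 [4, 4] [] []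
    100000 0 0 1533337 33333 0 33333 0 0 0 0) (.S 1 13 (.S 1 12 (.S 2 0 (.S 3 3 (.S 3 1 (.S 3 0 (.L
    2 2 [6, 10] [304, 304, 304, 304, 304, 304] [0, 0, 0, 0, 0, 0] 100000 271430 271430 1228570
    57143 0 57143 0 0 28571 28571) (.L 2 2 [6, 10] [304, 304, 304, 304, 304, 304] [8, 0, 0, 0, 0,
    0] 100000 333336 333336 1166663 66667 0 66667 0 0 33333 33333)) (.L 2 2 [6, 10] [304, 304, 304,
    304, 304, 304] [] 100000 925000 862500 0 162500 0 162500 50000 0 50000 50000)) (.E 1)) (.L 2 2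
    [6, 10] [304, 304, 304, 304, 304, 304] [] 100000 550000 550000 800000 100000 0 100000 0 0 50000
    50000)) (.L 2 2 [6, 10] [340, 340, 340, 340, 340, 340] [] 100000 550000 550000 800000 100000 0
    100000 0 0 50000 50000)) (.L 2 2 [6, 10] [] [] 100000 950002 883335 0 166667 0 166667 0 0 50000
    50000)))) (.E 0))

lemma s20_21_12_1_2 {n : ℕ} (hn : 6 ≤ n) : NoNd (d20_21_12_1.R : ℤ) d20_21_12_1.H n d20_21_12_1.a d20_21_12_1.b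
    (BlkD.inB (BlkD.upd (fun _ => 0) 0 4)
      (BlkD.upd (BlkD.upd (BlkD.upd (fun _ => 21) 0 12) 2 1) 0 6)) :=
  BlkD.tree_sound (BlkD.pairOk_sound k20_21_12_1) (by decide) hn t20_21_12_1_2 _ _ (by decide +kernel)

/-- certificates of the pair `(12, 1)`, part 3 -/
def t20_21_12_1_3 : BlkD.Tr :=
  .S 0 9 (.S 0 8 (.S 0 7 (.L 2 2 [6, 10] [] [] 100000 650000 650000 900000 100000 0 100000 0 0
    50000 50000) (.S 1 13 (.S 1 6 (.L 2 2 [6, 10] [] [] 100000 20000 20000 1480000 20000 0 20000 0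
    0 0 0) (.S 1 10 (.S 1 8 (.S 1 7 (.L 4 6 [4, 4] [182, 182, 182, 182, 178, 170] [] 100000 0 0
    1500003 28571 0 28571 0 0 0 0) (.L 4 6 [4, 4] [212, 212, 212, 212, 212, 208] [] 100000 40000
    40000 1480000 40000 0 80000 0 0 0 0)) (.S 1 9 (.L 4 6 [4, 4] [244, 244, 244, 244, 244, 244] []
    100000 40000 40000 1540000 40000 0 60000 0 0 0 0) (.S 2 0 (.S 3 3 (.S 3 1 (.S 3 0 (.L 2 4 [6,
    7] [278, 278, 278, 278, 278, 278] [0, 0, 0, 0, 0, 0] 100000 500000 500000 1000000 100000 0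
    100000 0 0 0 0) (.L 2 4 [6, 7] [278, 278, 278, 278, 278, 278] [8, 0, 0, 0, 0, 0] 100000 500000
    500000 1000000 100000 0 100000 0 0 0 0)) (.L 2 4 [6, 7] [278, 278, 278, 278, 278, 278] []
    100000 500000 500000 1000000 100000 0 100000 0 0 0 0)) (.E 1)) (.L 2 4 [6, 7] [278, 278, 278,
    278, 278, 278] [] 100000 500000 500000 1000000 100000 0 100000 0 0 0 0)))) (.S 1 12 (.S 1 11
    (.L 2 4 [6, 7] [314, 314, 314, 314, 314, 314] [] 100000 500000 500000 1000000 100000 0 100000 0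
    0 0 0) (.L 2 4 [6, 7] [352, 352, 352, 352, 352, 352] [] 100000 500000 500000 1000000 100000 0
    100000 0 0 0 0)) (.L 2 4 [6, 7] [392, 392, 392, 392, 392, 392] [] 100000 500000 500000 1000000
    100000 0 100000 0 0 0 0)))) (.E 0))) (.S 1 12 (.S 1 6 (.L 4 6 [4, 4] [] [] 100000 0 0 1500002
    33333 0 33333 0 0 0 0) (.S 1 9 (.S 1 8 (.S 1 7 (.L 4 6 [4, 4] [196, 196, 196, 196, 192, 184] []
    100000 40000 40000 1520000 40000 0 40000 0 0 0 0) (.L 4 6 [4, 4] [228, 228, 228, 228, 228, 224]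
    [] 100000 0 0 1580000 40000 0 40000 0 0 0 0)) (.S 2 0 (.S 3 3 (.S 3 1 (.S 3 0 (.L 5 8 [5, 3]
    [262, 262, 262, 262, 262, 262] [0, 0, 0, 0, 0, 0] 100000 100000 100000 1400000 100000 0 100000
    0 0 0 0) (.L 5 8 [5, 3] [262, 262, 262, 262, 262, 262] [8, 0, 0, 0, 0, 0] 100000 442858 271429
    0 271429 0 271429 0 0 0 0)) (.L 5 8 [5, 3] [262, 262, 262, 262, 262, 262] [] 100000 344444
    222222 2 222222 0 222222 0 0 0 0)) (.E 1)) (.L 5 8 [5, 3] [262, 262, 262, 262, 262, 262] []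
    100000 375000 237500 0 237500 0 237500 0 0 0 0))) (.L 5 8 [5, 3] [] [] 100000 100000 100000
    1400000 100000 0 100000 0 0 0 0))) (.E 0))) (.S 0 11 (.S 0 10 (.L 5 8 [5, 3] [] [] 100000 49999
    49999 1516669 83333 0 100000 0 0 0 0) (.S 1 10 (.S 1 5 (.L 5 8 [5, 3] [] [] 100000 1 1 1533333
    66667 0 66667 0 0 0 0) (.S 1 8 (.L 5 8 [5, 3] [] [] 100000 1 1 1566666 66667 0 100000 0 0 0 0)
    (.S 1 9 (.L 5 8 [5, 3] [298, 298, 298, 298, 298, 298] [] 100000 1 1 1566666 66667 0 100000 0 0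
    0 0) (.S 2 0 (.S 3 0 (.L 7 8 [6, 2] [338, 338, 338, 338, 338, 338] [0, 0, 0, 0, 0, 0] 100000
    250000 0 0 350000 0 350000 0 0 0 0) (.L 7 8 [6, 2] [338, 338, 338, 338, 338, 338] [] 100000 0
    100000 0 0 0 0 0 0 0 0)) (.L 7 8 [6, 2] [338, 338, 338, 338, 338, 338] [] 100000 0 100000 0 0 0
    0 0 0 0 0))))) (.E 0))) (.L 7 8 [6, 2] [] [] 100000 0 0 1500000 50000 0 100000 0 0 0 0))

lemma s20_21_12_1_3 {n : ℕ} (hn : 6 ≤ n) : NoNd (d20_21_12_1.R : ℤ) d20_21_12_1.H n d20_21_12_1.a d20_21_12_1.b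
    (BlkD.inB (BlkD.upd (fun _ => 0) 0 7)
      (BlkD.upd (BlkD.upd (fun _ => 21) 0 12) 2 1)) :=
  BlkD.tree_sound (BlkD.pairOk_sound k20_21_12_1) (by decide) hn t20_21_12_1_3 _ _ (by decide +kernel)

/-- certificates of the pair `(12, 1)`, part 4 -/
def t20_21_12_1_4 : BlkD.Tr :=
  .E 1

lemma s20_21_12_1_4 {n : ℕ} (hn : 6 ≤ n) : NoNd (d20_21_12_1.R : ℤ) d20_21_12_1.H n d20_21_12_1.a d20_21_12_1.b
    (BlkD.inB (BlkD.upd (fun _ => 0) 2 2)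
      (BlkD.upd (fun _ => 21) 0 12)) :=
  BlkD.tree_sound (BlkD.pairOk_sound k20_21_12_1) (by decide) hn t20_21_12_1_4 _ _ (by decide +kernel)

/-- certificates of the pair `(12, 1)`, part 5 -/
def t20_21_12_1_5 : BlkD.Tr :=
  .E 0

lemma s20_21_12_1_5 {n : ℕ} (hn : 6 ≤ n) : NoNd (d20_21_12_1.R : ℤ) d20_21_12_1.H n d20_21_12_1.a d20_21_12_1.b
    (BlkD.inB (BlkD.upd (fun _ => 0) 0 13)
      (fun _ => 21)) :=
  BlkD.tree_sound (BlkD.pairOk_sound k20_21_12_1) (by decide) hn t20_21_12_1_5 _ _ (by decide +kernel)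

lemma pr20_21_12_1 {n : ℕ} (hn : 6 ≤ n) : NoPr ((20 : ℕ) : ℤ) ((21 : ℕ) : ℤ) n 12 1 :=
  BlkD.of_root (R := d20_21_12_1.R) (H := d20_21_12_1.H) (a := d20_21_12_1.a) (b := d20_21_12_1.b) (q := 4) (by decide) hn
    (BlkD.sp 0 12 (BlkD.sp 2 1 (BlkD.sp 0 6 (BlkD.sp 0 3 (s20_21_12_1_1 hn) (s20_21_12_1_2 hn))
      (s20_21_12_1_3 hn)) (s20_21_12_1_4 hn)) (s20_21_12_1_5 hn))

end BlkC

end Pool.Agent.Lib.MP_f04ccf_co
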