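import Pool.Agent.Lib.MP_f04ccf_co.M.BlkT

/-!
MP_f04ccf_co, block certificate, data `R = 20`, `H = 21`, part 2 (generated, helper99:
bd10.cpp, gen2.py).
-/

set_option autoImplicit false
set_option maxRecDepth 100000

namespace Pool.Agent.Lib.MP_f04ccf_co

namespace BlkC

/-- the numbers of the pair `(6, 5)`, `R = 20`, `H = 21` -/
def d20_21_6_5 : BlkD.Pd :=
  ⟨20, 21, 4, 6, 5, 7, 3, 2, 1, 3, 10, 0, 2, 2, 10, 0, [0, 10, 20, 24, 25, 26, 27, 28], [0, 10, 18,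
    20, 22, 24, 26, 28], [⟨1, 1, 1, 4, 8, [0, 4], [0, 4]⟩, ⟨1, 1, 1, 4, 12, [0, 6], [0, 6]⟩, ⟨1, 1,
    1, 4, 16, [0, 8], [0, 8]⟩, ⟨2, 1, 1, 4, 24, [0, 10, 14], [0, 10]⟩]⟩

lemma k20_21_6_5 : BlkD.pairOk d20_21_6_5 = true := by decide +kernel

/-- certificates of the pair `(6, 5)`, part 1 -/
def t20_21_6_5_1 : BlkD.Tr :=
  .L 6 6 [4, 4, 4, 5, 20, 20] [] [] 100000 91667 91667 900000 100000 0 100000 100000 0 0 25000

lemma s20_21_6_5_1 {n : ℕ} (hn : 6 ≤ n) : NoNd (d20_21_6_5.R : ℤ) d20_21_6_5.H n d20_21_6_5.a d20_21_6_5.b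
    (BlkD.inB (fun _ => 0)
      (BlkD.upd (BlkD.upd (BlkD.upd (BlkD.upd (BlkD.upd (fun _ => 21) 0 6) 2 5) 0 3) 0 1) 0 0)) :=
  BlkD.tree_sound (BlkD.pairOk_sound k20_21_6_5) (by decide) hn t20_21_6_5_1 _ _ (by decide +kernel)

/-- certificates of the pair `(6, 5)`, part 2 -/
def t20_21_6_5_2 : BlkD.Tr :=
  .L 6 6 [4, 4, 4, 5, 20, 20] [] [] 100000 91667 91667 900000 100000 0 100000 100000 0 0 25000

lemma s20_21_6_5_2 {n : ℕ} (hn : 6 ≤ n) : NoNd (d20_21_6_5.R : ℤ) d20_21_6_5.H n d20_21_6_5.a d20_21_6_5.b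
    (BlkD.inB (BlkD.upd (fun _ => 0) 0 1)
      (BlkD.upd (BlkD.upd (BlkD.upd (BlkD.upd (BlkD.upd (BlkD.upd (fun _ => 21) 0 6) 2 5) 0 3) 0 1) 1 10) 1 5)) :=
  BlkD.tree_sound (BlkD.pairOk_sound k20_21_6_5) (by decide) hn t20_21_6_5_2 _ _ (by decide +kernel)

/-- certificates of the pair `(6, 5)`, part 3 -/
def t20_21_6_5_3 : BlkD.Tr :=
  .L 6 6 [4, 4, 4, 5, 20, 20] [] [] 100000 91667 91667 900000 100000 0 100000 100000 0 0 25000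

lemma s20_21_6_5_3 {n : ℕ} (hn : 6 ≤ n) : NoNd (d20_21_6_5.R : ℤ) d20_21_6_5.H n d20_21_6_5.a d20_21_6_5.b
    (BlkD.inB (BlkD.upd (BlkD.upd (fun _ => 0) 0 1) 1 6)
      (BlkD.upd (BlkD.upd (BlkD.upd (BlkD.upd (BlkD.upd (fun _ => 21) 0 6) 2 5) 0 3) 0 1) 1 10)) :=
  BlkD.tree_sound (BlkD.pairOk_sound k20_21_6_5) (by decide) hn t20_21_6_5_3 _ _ (by decide +kernel)

/-- certificates of the pair `(6, 5)`, part 4 -/
def t20_21_6_5_4 : BlkD.Tr :=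
  .L 6 6 [4, 4, 4, 5, 20, 20] [] [] 100000 91667 91667 900000 100000 0 100000 100000 0 0 25000

lemma s20_21_6_5_4 {n : ℕ} (hn : 6 ≤ n) : NoNd (d20_21_6_5.R : ℤ) d20_21_6_5.H n d20_21_6_5.a d20_21_6_5.b
    (BlkD.inB (BlkD.upd (BlkD.upd (fun _ => 0) 0 1) 1 11)
      (BlkD.upd (BlkD.upd (BlkD.upd (BlkD.upd (fun _ => 21) 0 6) 2 5) 0 3) 0 1)) :=
  BlkD.tree_sound (BlkD.pairOk_sound k20_21_6_5) (by decide) hn t20_21_6_5_4 _ _ (by decide +kernel)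

/-- certificates of the pair `(6, 5)`, part 5 -/
def t20_21_6_5_5 : BlkD.Tr :=
  .L 6 6 [4, 4, 4, 5, 20, 20] [] [] 100000 33334 33334 1250000 25000 0 25000 100000 0 0 0

lemma s20_21_6_5_5 {n : ℕ} (hn : 6 ≤ n) : NoNd (d20_21_6_5.R : ℤ) d20_21_6_5.H n d20_21_6_5.a d20_21_6_5.b
    (BlkD.inB (BlkD.upd (fun _ => 0) 0 2)
      (BlkD.upd (BlkD.upd (BlkD.upd (BlkD.upd (BlkD.upd (BlkD.upd (BlkD.upd (fun _ => 21) 0 6) 2 5) 0 3) 0 2) 1 19) 1 9) 1 4)) :=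
  BlkD.tree_sound (BlkD.pairOk_sound k20_21_6_5) (by decide) hn t20_21_6_5_5 _ _ (by decide +kernel)

/-- certificates of the pair `(6, 5)`, part 6 -/
def t20_21_6_5_6 : BlkD.Tr :=
  .S 1 5 (.S 2 2 (.L 6 6 [4, 4, 4, 5, 20, 20] [86, 82, 72, 62, 52, 40] [] 100000 42479 42479
    1244249 28319 28319 42478 57522 0 6195 21239) (.S 2 4 (.S 2 3 (.L 6 6 [4, 4, 4, 5, 20, 20] [86,
    82, 72, 62, 52, 40] [] 100000 26857 26857 1304003 32000 0 44000 52571 0 19429 28000) (.L 6 6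
    [4, 4, 4, 5, 20, 20] [86, 82, 72, 62, 52, 40] [] 100000 23810 23810 1300000 25000 0 37500 50000
    0 28571 14286)) (.L 6 6 [4, 4, 4, 5, 20, 20] [86, 82, 72, 62, 52, 40] [] 100000 50000 50000
    1150000 50000 0 50000 0 0 50000 25000))) (.S 2 2 (.L 6 6 [4, 4, 4, 5, 20, 20] [101, 100, 96,
    86, 76, 66] [] 100000 30527 30527 1302633 23684 18421 52632 65789 0 10526 17368) (.S 2 4 (.S 2
    3 (.S 3 10 (.S 3 5 (.S 3 2 (.L 6 6 [4, 4, 4, 5, 20, 20] [101, 100, 96, 86, 76, 66] [] 100000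
    33334 33334 1214286 42857 0 42857 42857 0 0 14286) (.S 3 4 (.S 3 3 (.L 6 6 [4, 4, 4, 5, 20, 20]
    [101, 100, 96, 86, 76, 66] [56, 46, 36, 24, 0, 0] 100000 27977 27977 1268750 31250 6250 56250
    58929 0 16071 25000) (.L 3 3 [5, 6, 8, 9, 20, 20] [101, 100, 96, 86, 76, 66] [76, 68, 58, 48,
    36, 0] 100000 59536 59536 1215349 39070 0 89302 64186 1395 26512 26512)) (.L 3 3 [5, 6, 8, 9,
    20, 20] [101, 100, 96, 86, 76, 66] [92, 90, 82, 72, 62, 50] 100000 66667 66667 1175001 33333 0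
    100000 91667 0 0 25000))) (.E 1)) (.E 1)) (.L 6 6 [4, 4, 4, 5, 20, 20] [101, 100, 96, 86, 76,
    66] [] 100000 27854 27854 1284459 30631 0 62387 61261 225 16216 25000)) (.L 6 6 [4, 4, 4, 5,
    20, 20] [101, 100, 96, 86, 76, 66] [] 100000 26667 26667 1220000 40000 0 60000 20000 0 40000
    20000)))

lemma s20_21_6_5_6 {n : ℕ} (hn : 6 ≤ n) : NoNd (d20_21_6_5.R : ℤ) d20_21_6_5.H n d20_21_6_5.a d20_21_6_5.b
    (BlkD.inB (BlkD.upd (BlkD.upd (fun _ => 0) 0 2) 1 5)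
      (BlkD.upd (BlkD.upd (BlkD.upd (BlkD.upd (BlkD.upd (BlkD.upd (BlkD.upd (BlkD.upd (fun _ => 21) 0 6) 2 5) 0 3) 0 2) 1 19) 1 9) 1 7) 1 6)) :=
  BlkD.tree_sound (BlkD.pairOk_sound k20_21_6_5) (by decide) hn t20_21_6_5_6 _ _ (by decide +kernel)

/-- certificates of the pair `(6, 5)`, part 7 -/
def t20_21_6_5_7 : BlkD.Tr :=
  .S 2 2 (.S 2 1 (.L 6 6 [4, 4, 4, 5, 20, 20] [118, 117, 116, 112, 102, 92] [] 100000 75000 75000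
    1050000 50000 50000 75000 75000 0 0 0) (.S 3 10 (.S 3 5 (.S 3 2 (.L 6 6 [4, 4, 4, 5, 20, 20]
    [118, 117, 116, 112, 102, 92] [] 100000 33334 33334 1200000 30769 15385 38462 23077 0 0 15385)
    (.S 3 4 (.L 6 6 [4, 4, 4, 5, 20, 20] [118, 117, 116, 112, 102, 92] [] 100000 65334 65334
    1180000 40000 40000 60000 60000 0 0 12000) (.L 6 6 [4, 4, 4, 5, 20, 20] [118, 117, 116, 112,
    102, 92] [82, 80, 72, 62, 52, 40] 100000 25715 25715 1312243 28980 14286 57551 57143 2857 42857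
    10612))) (.L 6 6 [4, 4, 4, 5, 20, 20] [118, 117, 116, 112, 102, 92] [] 100000 41667 16667
    1075000 0 0 125000 125000 0 0 25000)) (.E 1))) (.L 6 6 [4, 4, 4, 5, 20, 20] [118, 117, 116,
    112, 102, 92] [] 100000 27095 27095 1318041 30552 0 73619 59752 8794 9921 17362)

lemma s20_21_6_5_7 {n : ℕ} (hn : 6 ≤ n) : NoNd (d20_21_6_5.R : ℤ) d20_21_6_5.H n d20_21_6_5.a d20_21_6_5.b
    (BlkD.inB (BlkD.upd (BlkD.upd (BlkD.upd (fun _ => 0) 0 2) 1 5) 1 7)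
      (BlkD.upd (BlkD.upd (BlkD.upd (BlkD.upd (BlkD.upd (BlkD.upd (BlkD.upd (fun _ => 21) 0 6) 2 5) 0 3) 0 2) 1 19) 1 9) 1 7)) :=
  BlkD.tree_sound (BlkD.pairOk_sound k20_21_6_5) (by decide) hn t20_21_6_5_7 _ _ (by decide +kernel)

/-- certificates of the pair `(6, 5)`, part 8 -/
def t20_21_6_5_8 : BlkD.Tr :=
  .S 1 8 (.L 6 6 [4, 4, 4, 5, 20, 20] [137, 136, 135, 134, 130, 120] [] 100000 67858 67858 1185713
    71429 0 100000 50000 0 13095 13095) (.E 0)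

lemma s20_21_6_5_8 {n : ℕ} (hn : 6 ≤ n) : NoNd (d20_21_6_5.R : ℤ) d20_21_6_5.H n d20_21_6_5.a d20_21_6_5.b
    (BlkD.inB (BlkD.upd (BlkD.upd (BlkD.upd (fun _ => 0) 0 2) 1 5) 1 8)
      (BlkD.upd (BlkD.upd (BlkD.upd (BlkD.upd (BlkD.upd (BlkD.upd (fun _ => 21) 0 6) 2 5) 0 3) 0 2) 1 19) 1 9)) :=
  BlkD.tree_sound (BlkD.pairOk_sound k20_21_6_5) (by decide) hn t20_21_6_5_8 _ _ (by decide +kernel)

/-- certificates of the pair `(6, 5)`, part 9 -/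
def t20_21_6_5_9 : BlkD.Tr :=
  .E 0

lemma s20_21_6_5_9 {n : ℕ} (hn : 6 ≤ n) : NoNd (d20_21_6_5.R : ℤ) d20_21_6_5.H n d20_21_6_5.a d20_21_6_5.b
    (BlkD.inB (BlkD.upd (BlkD.upd (fun _ => 0) 0 2) 1 10)
      (BlkD.upd (BlkD.upd (BlkD.upd (BlkD.upd (BlkD.upd (fun _ => 21) 0 6) 2 5) 0 3) 0 2) 1 19)) :=
  BlkD.tree_sound (BlkD.pairOk_sound k20_21_6_5) (by decide) hn t20_21_6_5_9 _ _ (by decide +kernel)

/-- certificates of the pair `(6, 5)`, part 10 -/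
def t20_21_6_5_10 : BlkD.Tr :=
  .E 0

lemma s20_21_6_5_10 {n : ℕ} (hn : 6 ≤ n) : NoNd (d20_21_6_5.R : ℤ) d20_21_6_5.H n d20_21_6_5.a d20_21_6_5.b
    (BlkD.inB (BlkD.upd (BlkD.upd (fun _ => 0) 0 2) 1 20)
      (BlkD.upd (BlkD.upd (BlkD.upd (BlkD.upd (fun _ => 21) 0 6) 2 5) 0 3) 0 2)) :=
  BlkD.tree_sound (BlkD.pairOk_sound k20_21_6_5) (by decide) hn t20_21_6_5_10 _ _ (by decide +kernel)

/-- certificates of the pair `(6, 5)`, part 11 -/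
def t20_21_6_5_11 : BlkD.Tr :=
  .S 1 2 (.L 6 6 [4, 4, 4, 5, 20, 20] [] [] 100000 33334 33334 1200000 0 0 0 100000 0 0 0) (.S 1 3
    (.L 6 6 [4, 4, 4, 5, 20, 20] [56, 46, 36, 24, 0, 0] [] 100000 29167 29167 1275000 12500 12500
    25000 87500 0 12500 12500) (.S 2 2 (.L 6 6 [4, 4, 4, 5, 20, 20] [78, 68, 58, 48, 36, 0] []
    100000 28557 28557 1305039 20000 20000 54488 74961 5039 9291 27244) (.S 2 4 (.S 2 3 (.S 3 11
    (.S 3 5 (.S 3 2 (.L 6 6 [4, 4, 4, 5, 20, 20] [78, 68, 58, 48, 36, 0] [] 100000 33334 33334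
    1200000 0 0 0 0 0 0 0) (.S 3 4 (.S 3 3 (.L 6 6 [4, 4, 4, 5, 20, 20] [78, 68, 58, 48, 36, 0]
    [56, 46, 36, 24, 0, 0] 100000 31746 31746 1271430 28571 4762 33333 28571 0 4762 28571) (.L 5 6
    [4, 4, 5, 5, 20, 20] [78, 68, 58, 48, 36, 0] [76, 68, 58, 48, 36, 0] 100000 25000 25000 1310715
    27381 3571 73810 61905 7143 17857 33333)) (.L 5 6 [4, 4, 5, 5, 20, 20] [78, 68, 58, 48, 36, 0]
    [92, 90, 82, 72, 62, 50] 100000 30303 30303 1300001 25000 0 79545 100000 9091 0 27273))) (.E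
    1)) (.E 1)) (.L 5 6 [4, 4, 5, 5, 20, 20] [78, 68, 58, 48, 36, 0] [] 100000 22620 22620 1325001
    25000 0 44643 37500 0 32143 16071)) (.L 5 6 [4, 4, 5, 5, 20, 20] [78, 68, 58, 48, 36, 0] []
    100000 12964 12964 1288891 27778 0 61111 5556 5556 66667 33333))))

lemma s20_21_6_5_11 {n : ℕ} (hn : 6 ≤ n) : NoNd (d20_21_6_5.R : ℤ) d20_21_6_5.H n d20_21_6_5.a d20_21_6_5.b
    (BlkD.inB (BlkD.upd (BlkD.upd (fun _ => 0) 0 2) 0 3)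
      (BlkD.upd (BlkD.upd (BlkD.upd (BlkD.upd (BlkD.upd (BlkD.upd (fun _ => 21) 0 6) 2 5) 0 3) 1 18) 1 9) 1 4)) :=
  BlkD.tree_sound (BlkD.pairOk_sound k20_21_6_5) (by decide) hn t20_21_6_5_11 _ _ (by decide +kernel)

/-- certificates of the pair `(6, 5)`, part 12 -/
def t20_21_6_5_12 : BlkD.Tr :=
  .S 2 2 (.S 2 1 (.L 5 6 [4, 4, 5, 5, 20, 20] [96, 92, 82, 72, 62, 50] [] 100000 52594 52594
    1133333 33333 55556 66667 66667 0 0 15556) (.S 3 11 (.S 3 5 (.S 3 2 (.L 5 6 [4, 4, 5, 5, 20,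
    20] [96, 92, 82, 72, 62, 50] [] 100000 33334 33334 1200000 0 0 0 0 0 0 0) (.S 3 4 (.L 5 6 [4,
    4, 5, 5, 20, 20] [96, 92, 82, 72, 62, 50] [] 100000 28956 28956 1300004 20000 20000 68828 55967
    7139 5995 24414) (.S 4 5 (.S 4 2 (.L 5 6 [4, 4, 5, 5, 20, 20] [72, 62, 50, 0, 0, 0] [82, 80,
    72, 62, 52, 40] 100000 44356 44356 1258817 31463 27956 66433 67535 2104 15130 8818) (.L 5 6 [4,
    4, 5, 5, 20, 20] [96, 92, 82, 72, 62, 50] [82, 80, 72, 62, 52, 40] 100000 33334 33334 1200000 0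
    0 100000 100000 0 0 0)) (.E 2)))) (.L 5 6 [4, 4, 5, 5, 20, 20] [96, 92, 82, 72, 62, 50] []
    100000 33334 33334 1275000 30000 0 80000 75000 0 0 25000)) (.E 1))) (.S 2 4 (.S 2 3 (.S 3 10
    (.S 3 5 (.S 3 2 (.L 5 6 [4, 4, 5, 5, 20, 20] [96, 92, 82, 72, 62, 50] [] 100000 33334 33334
    1260000 20000 20000 20000 20000 0 0 0) (.S 3 4 (.S 3 3 (.S 4 5 (.S 4 2 (.L 7 7 [4, 4, 4, 4, 20,
    20] [72, 62, 50, 0, 0, 0] [56, 46, 36, 24, 0, 0] 100000 29412 29412 1305883 47059 0 58824 47059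
    0 11765 20588) (.L 7 7 [4, 4, 4, 4, 20, 20] [96, 92, 82, 72, 62, 50] [56, 46, 36, 24, 0, 0]
    100000 33334 33334 1200000 0 0 100000 50000 0 0 0)) (.E 2)) (.L 5 6 [4, 4, 5, 5, 20, 20] [96,
    92, 82, 72, 62, 50] [76, 68, 58, 48, 36, 0] 100000 25242 25242 1311594 28382 0 74879 65821 3623
    20652 25000)) (.L 5 6 [4, 4, 5, 5, 20, 20] [96, 92, 82, 72, 62, 50] [92, 90, 82, 72, 62, 50]
    100000 33334 33334 1275000 30000 0 80000 75000 0 0 25000))) (.E 1)) (.E 1)) (.L 5 6 [4, 4, 5,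
    5, 20, 20] [96, 92, 82, 72, 62, 50] [] 100000 28334 28334 1305000 31667 0 68333 63333 5000
    10000 18333)) (.L 5 6 [4, 4, 5, 5, 20, 20] [96, 92, 82, 72, 62, 50] [] 100000 14394 14394
    1302273 25000 0 72727 47727 4545 52273 25000))

lemma s20_21_6_5_12 {n : ℕ} (hn : 6 ≤ n) : NoNd (d20_21_6_5.R : ℤ) d20_21_6_5.H n d20_21_6_5.a d20_21_6_5.b
    (BlkD.inB (BlkD.upd (BlkD.upd (BlkD.upd (fun _ => 0) 0 2) 0 3) 1 5)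
      (BlkD.upd (BlkD.upd (BlkD.upd (BlkD.upd (BlkD.upd (BlkD.upd (BlkD.upd (BlkD.upd (fun _ => 21) 0 6) 2 5) 0 3) 1 18) 1 9) 1 7) 1 6) 1 5)) :=
  BlkD.tree_sound (BlkD.pairOk_sound k20_21_6_5) (by decide) hn t20_21_6_5_12 _ _ (by decide +kernel)

/-- certificates of the pair `(6, 5)`, part 13 -/
def t20_21_6_5_13 : BlkD.Tr :=
  .S 2 2 (.S 2 1 (.L 5 6 [4, 4, 5, 5, 20, 20] [113, 112, 108, 98, 88, 78] [] 100000 51112 51112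
    1100000 0 100000 66667 100000 0 0 6667) (.S 3 10 (.S 3 5 (.S 3 2 (.L 5 6 [4, 4, 5, 5, 20, 20]
    [113, 112, 108, 98, 88, 78] [] 100000 27431 27431 1234375 31250 3125 77083 31250 17708 0 22917)
    (.S 3 4 (.L 5 6 [4, 4, 5, 5, 20, 20] [113, 112, 108, 98, 88, 78] [] 100000 27531 27531 1306743
    26047 10930 67210 49449 12384 5024 20582) (.L 5 6 [4, 4, 5, 5, 20, 20] [113, 112, 108, 98, 88,
    78] [82, 80, 72, 62, 52, 40] 100000 13931 13931 1347762 19403 6468 77612 32338 12935 45274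
    16915))) (.L 5 6 [4, 4, 5, 5, 20, 20] [113, 112, 108, 98, 88, 78] [] 100000 105556 0 0 77778 0
    77778 205556 0 0 0)) (.E 1))) (.L 5 6 [4, 4, 5, 5, 20, 20] [113, 112, 108, 98, 88, 78] []
    100000 25810 25810 1313591 28803 0 78803 50000 14239 8333 18204)

lemma s20_21_6_5_13 {n : ℕ} (hn : 6 ≤ n) : NoNd (d20_21_6_5.R : ℤ) d20_21_6_5.H n d20_21_6_5.a d20_21_6_5.b
    (BlkD.inB (BlkD.upd (BlkD.upd (BlkD.upd (BlkD.upd (fun _ => 0) 0 2) 0 3) 1 5) 1 6)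
      (BlkD.upd (BlkD.upd (BlkD.upd (BlkD.upd (BlkD.upd (BlkD.upd (BlkD.upd (fun _ => 21) 0 6) 2 5) 0 3) 1 18) 1 9) 1 7) 1 6)) :=
  BlkD.tree_sound (BlkD.pairOk_sound k20_21_6_5) (by decide) hn t20_21_6_5_13 _ _ (by decide +kernel)

/-- certificates of the pair `(6, 5)`, part 14 -/
def t20_21_6_5_14 : BlkD.Tr :=
  .L 5 6 [4, 4, 5, 5, 20, 20] [132, 131, 130, 126, 116, 106] [] 100000 43334 43334 1229999 40000 0
    96667 56667 0 3333 20000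

lemma s20_21_6_5_14 {n : ℕ} (hn : 6 ≤ n) : NoNd (d20_21_6_5.R : ℤ) d20_21_6_5.H n d20_21_6_5.a d20_21_6_5.b
    (BlkD.inB (BlkD.upd (BlkD.upd (BlkD.upd (BlkD.upd (fun _ => 0) 0 2) 0 3) 1 5) 1 7)
      (BlkD.upd (BlkD.upd (BlkD.upd (BlkD.upd (BlkD.upd (BlkD.upd (fun _ => 21) 0 6) 2 5) 0 3) 1 18) 1 9) 1 7)) :=
  BlkD.tree_sound (BlkD.pairOk_sound k20_21_6_5) (by decide) hn t20_21_6_5_14 _ _ (by decide +kernel)

/-- certificates of the pair `(6, 5)`, part 15 -/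
def t20_21_6_5_15 : BlkD.Tr :=
  .E 0

lemma s20_21_6_5_15 {n : ℕ} (hn : 6 ≤ n) : NoNd (d20_21_6_5.R : ℤ) d20_21_6_5.H n d20_21_6_5.a d20_21_6_5.b
    (BlkD.inB (BlkD.upd (BlkD.upd (BlkD.upd (BlkD.upd (fun _ => 0) 0 2) 0 3) 1 5) 1 8)
      (BlkD.upd (BlkD.upd (BlkD.upd (BlkD.upd (BlkD.upd (fun _ => 21) 0 6) 2 5) 0 3) 1 18) 1 9)) :=
  BlkD.tree_sound (BlkD.pairOk_sound k20_21_6_5) (by decide) hn t20_21_6_5_15 _ _ (by decide +kernel)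

/-- certificates of the pair `(6, 5)`, part 16 -/
def t20_21_6_5_16 : BlkD.Tr :=
  .E 0

lemma s20_21_6_5_16 {n : ℕ} (hn : 6 ≤ n) : NoNd (d20_21_6_5.R : ℤ) d20_21_6_5.H n d20_21_6_5.a d20_21_6_5.b
    (BlkD.inB (BlkD.upd (BlkD.upd (BlkD.upd (fun _ => 0) 0 2) 0 3) 1 10)
      (BlkD.upd (BlkD.upd (BlkD.upd (BlkD.upd (fun _ => 21) 0 6) 2 5) 0 3) 1 18)) :=
  BlkD.tree_sound (BlkD.pairOk_sound k20_21_6_5) (by decide) hn t20_21_6_5_16 _ _ (by decide +kernel)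

/-- certificates of the pair `(6, 5)`, part 17 -/
def t20_21_6_5_17 : BlkD.Tr :=
  .E 0

lemma s20_21_6_5_17 {n : ℕ} (hn : 6 ≤ n) : NoNd (d20_21_6_5.R : ℤ) d20_21_6_5.H n d20_21_6_5.a d20_21_6_5.b
    (BlkD.inB (BlkD.upd (BlkD.upd (BlkD.upd (fun _ => 0) 0 2) 0 3) 1 19)
      (BlkD.upd (BlkD.upd (BlkD.upd (fun _ => 21) 0 6) 2 5) 0 3)) :=
  BlkD.tree_sound (BlkD.pairOk_sound k20_21_6_5) (by decide) hn t20_21_6_5_17 _ _ (by decide +kernel)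

/-- certificates of the pair `(6, 5)`, part 18 -/
def t20_21_6_5_18 : BlkD.Tr :=
  .S 1 2 (.L 5 6 [4, 4, 5, 5, 20, 20] [] [] 100000 29630 29630 1277778 22222 11111 22222 77778 0
    11111 11111) (.S 1 3 (.S 2 2 (.L 5 6 [4, 4, 5, 5, 20, 20] [62, 52, 42, 30, 0, 0] [] 100000
    28572 28572 1300002 20000 20000 50000 70000 4286 10000 15000) (.L 5 6 [4, 4, 5, 5, 20, 20] [62,
    52, 42, 30, 0, 0] [] 100000 28031 28031 1311365 29545 2273 56818 70455 2273 13636 13636)) (.S 2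
    2 (.L 5 6 [4, 4, 5, 5, 20, 20] [86, 76, 66, 56, 44, 0] [] 100000 48325 48325 1246071 29982
    31993 68007 63985 7678 1280 19013) (.S 2 4 (.S 2 3 (.S 3 10 (.S 3 5 (.S 3 2 (.L 5 6 [4, 4, 5,
    5, 20, 20] [86, 76, 66, 56, 44, 0] [] 100000 29000 29000 1269000 19000 21500 73000 67000 7000
    6000 27000) (.L 5 6 [4, 4, 5, 5, 20, 20] [86, 76, 66, 56, 44, 0] [] 100000 20921 20921 1333335
    16667 16667 64530 61905 15812 21429 23932)) (.E 1)) (.E 1)) (.L 5 6 [4, 4, 5, 5, 20, 20] [86,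
    76, 66, 56, 44, 0] [] 100000 23348 23348 1314011 30280 0 82866 64871 15948 14009 26293)) (.L 5
    6 [4, 4, 5, 5, 20, 20] [86, 76, 66, 56, 44, 0] [] 100000 0 0 1357694 23077 0 76923 25000 42308
    57692 25000))))

lemma s20_21_6_5_18 {n : ℕ} (hn : 6 ≤ n) : NoNd (d20_21_6_5.R : ℤ) d20_21_6_5.H n d20_21_6_5.a d20_21_6_5.b
    (BlkD.inB (BlkD.upd (fun _ => 0) 0 4)
      (BlkD.upd (BlkD.upd (BlkD.upd (BlkD.upd (BlkD.upd (BlkD.upd (BlkD.upd (fun _ => 21) 0 6) 2 5) 0 5) 0 4) 1 17) 1 8) 1 4)) :=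
  BlkD.tree_sound (BlkD.pairOk_sound k20_21_6_5) (by decide) hn t20_21_6_5_18 _ _ (by decide +kernel)

/-- certificates of the pair `(6, 5)`, part 19 -/
def t20_21_6_5_19 : BlkD.Tr :=
  .S 1 6 (.S 1 5 (.S 2 2 (.S 2 1 (.L 5 6 [4, 4, 5, 5, 20, 20] [106, 102, 92, 82, 72, 60] [] 100000
    45313 45313 1112500 6250 90625 50000 93750 0 0 10625) (.S 3 10 (.S 3 5 (.S 3 2 (.L 5 6 [4, 4,
    5, 5, 20, 20] [106, 102, 92, 82, 72, 60] [] 100000 29109 29109 1228169 23944 23944 67606 47887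
    12676 0 28169) (.S 3 4 (.L 5 6 [4, 4, 5, 5, 20, 20] [106, 102, 92, 82, 72, 60] [] 100000 25649
    25649 1322223 27778 8333 77778 47222 16111 6944 21944) (.L 5 6 [4, 4, 5, 5, 20, 20] [106, 102,
    92, 82, 72, 60] [82, 80, 72, 62, 52, 40] 100000 50618 50618 1214815 3704 40741 85185 96296
    11111 0 3704))) (.L 5 6 [4, 4, 5, 5, 20, 20] [106, 102, 92, 82, 72, 60] [] 100000 183333 0 2 0
    0 0 283333 0 0 0)) (.E 1))) (.S 2 4 (.S 2 3 (.S 3 9 (.S 3 4 (.S 3 2 (.L 5 6 [4, 4, 5, 5, 20,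
    20] [106, 102, 92, 82, 72, 60] [] 100000 26857 26857 1304003 24000 24000 66000 68571 12000 7429
    28000) (.L 5 6 [4, 4, 5, 5, 20, 20] [106, 102, 92, 82, 72, 60] [] 100000 14445 14445 1345456
    25758 0 77273 51515 20606 36061 20000)) (.E 2)) (.E 1)) (.L 5 6 [4, 4, 5, 5, 20, 20] [106, 102,
    92, 82, 72, 60] [] 100000 25824 25824 1299804 33399 0 77866 44466 17787 4743 25692)) (.L 5 6
    [4, 4, 5, 5, 20, 20] [106, 102, 92, 82, 72, 60] [] 100000 1 1 1313793 17241 0 68966 48276 62069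
    37931 20690))) (.L 5 6 [4, 4, 5, 5, 20, 20] [125, 124, 120, 110, 100, 90] [] 100000 33334 33334
    1280000 20000 0 100000 80000 0 0 20000)) (.E 0)

lemma s20_21_6_5_19 {n : ℕ} (hn : 6 ≤ n) : NoNd (d20_21_6_5.R : ℤ) d20_21_6_5.H n d20_21_6_5.a d20_21_6_5.b
    (BlkD.inB (BlkD.upd (BlkD.upd (fun _ => 0) 0 4) 1 5)
      (BlkD.upd (BlkD.upd (BlkD.upd (BlkD.upd (BlkD.upd (BlkD.upd (fun _ => 21) 0 6) 2 5) 0 5) 0 4) 1 17) 1 8)) :=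
  BlkD.tree_sound (BlkD.pairOk_sound k20_21_6_5) (by decide) hn t20_21_6_5_19 _ _ (by decide +kernel)

/-- certificates of the pair `(6, 5)`, part 20 -/
def t20_21_6_5_20 : BlkD.Tr :=
  .E 0

lemma s20_21_6_5_20 {n : ℕ} (hn : 6 ≤ n) : NoNd (d20_21_6_5.R : ℤ) d20_21_6_5.H n d20_21_6_5.a d20_21_6_5.b
    (BlkD.inB (BlkD.upd (BlkD.upd (fun _ => 0) 0 4) 1 9)
      (BlkD.upd (BlkD.upd (BlkD.upd (BlkD.upd (BlkD.upd (fun _ => 21) 0 6) 2 5) 0 5) 0 4) 1 17)) :=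
  BlkD.tree_sound (BlkD.pairOk_sound k20_21_6_5) (by decide) hn t20_21_6_5_20 _ _ (by decide +kernel)

/-- certificates of the pair `(6, 5)`, part 21 -/
def t20_21_6_5_21 : BlkD.Tr :=
  .E 0

lemma s20_21_6_5_21 {n : ℕ} (hn : 6 ≤ n) : NoNd (d20_21_6_5.R : ℤ) d20_21_6_5.H n d20_21_6_5.a d20_21_6_5.b
    (BlkD.inB (BlkD.upd (BlkD.upd (fun _ => 0) 0 4) 1 18)
      (BlkD.upd (BlkD.upd (BlkD.upd (BlkD.upd (fun _ => 21) 0 6) 2 5) 0 5) 0 4)) :=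
  BlkD.tree_sound (BlkD.pairOk_sound k20_21_6_5) (by decide) hn t20_21_6_5_21 _ _ (by decide +kernel)

/-- certificates of the pair `(6, 5)`, part 22 -/
def t20_21_6_5_22 : BlkD.Tr :=
  .S 1 16 (.S 1 8 (.S 1 4 (.S 1 2 (.S 1 1 (.L 5 6 [4, 4, 5, 5, 20, 20] [] [] 100000 25787 25787
    1285337 25112 14663 77360 87809 10449 12191 25337) (.S 2 2 (.L 5 6 [4, 4, 5, 5, 20, 20] [44,
    34, 22, 0, 0, 0] [] 100000 31111 31111 1261113 11111 38889 53333 67778 0 6667 21111) (.L 5 6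
    [4, 4, 5, 5, 20, 20] [44, 34, 22, 0, 0, 0] [] 100000 23289 23289 1310932 41179 3355 89618 85714
    15847 14286 23787))) (.S 1 3 (.S 2 2 (.L 5 6 [4, 4, 5, 5, 20, 20] [68, 58, 48, 36, 0, 0] []
    100000 20521 20521 1316878 22187 22187 72187 46250 29063 9375 20000) (.L 5 6 [4, 4, 5, 5, 20,
    20] [68, 58, 48, 36, 0, 0] [] 100000 15291 15291 1338096 29932 2041 71088 86006 40136 13994
    22449)) (.L 5 6 [4, 4, 5, 5, 20, 20] [94, 84, 74, 64, 52, 0] [] 100000 10011 10011 1342812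
    12460 4153 70288 63578 59425 10543 19808))) (.E 0)) (.E 0)) (.E 0)

lemma s20_21_6_5_22 {n : ℕ} (hn : 6 ≤ n) : NoNd (d20_21_6_5.R : ℤ) d20_21_6_5.H n d20_21_6_5.a d20_21_6_5.b
    (BlkD.inB (BlkD.upd (BlkD.upd (fun _ => 0) 0 4) 0 5)
      (BlkD.upd (BlkD.upd (BlkD.upd (fun _ => 21) 0 6) 2 5) 0 5)) :=
  BlkD.tree_sound (BlkD.pairOk_sound k20_21_6_5) (by decide) hn t20_21_6_5_22 _ _ (by decide +kernel)

/-- certificates of the pair `(6, 5)`, part 23 -/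
def t20_21_6_5_23 : BlkD.Tr :=
  .L 5 6 [4, 4, 5, 5, 20, 20] [] [] 100000 4763 4763 1370000 0 10000 50000 44286 70000 15714 23333

lemma s20_21_6_5_23 {n : ℕ} (hn : 6 ≤ n) : NoNd (d20_21_6_5.R : ℤ) d20_21_6_5.H n d20_21_6_5.a d20_21_6_5.b
    (BlkD.inB (BlkD.upd (BlkD.upd (fun _ => 0) 0 4) 0 6)
      (BlkD.upd (BlkD.upd (fun _ => 21) 0 6) 2 5)) :=
  BlkD.tree_sound (BlkD.pairOk_sound k20_21_6_5) (by decide) hn t20_21_6_5_23 _ _ (by decide +kernel)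

/-- certificates of the pair `(6, 5)`, part 24 -/
def t20_21_6_5_24 : BlkD.Tr :=
  .E 1

lemma s20_21_6_5_24 {n : ℕ} (hn : 6 ≤ n) : NoNd (d20_21_6_5.R : ℤ) d20_21_6_5.H n d20_21_6_5.a d20_21_6_5.b
    (BlkD.inB (BlkD.upd (fun _ => 0) 2 6)
      (BlkD.upd (fun _ => 21) 0 6)) :=
  BlkD.tree_sound (BlkD.pairOk_sound k20_21_6_5) (by decide) hn t20_21_6_5_24 _ _ (by decide +kernel)

/-- certificates of the pair `(6, 5)`, part 25 -/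
def t20_21_6_5_25 : BlkD.Tr :=
  .E 0

lemma s20_21_6_5_25 {n : ℕ} (hn : 6 ≤ n) : NoNd (d20_21_6_5.R : ℤ) d20_21_6_5.H n d20_21_6_5.a d20_21_6_5.b
    (BlkD.inB (BlkD.upd (fun _ => 0) 0 7)
      (fun _ => 21)) :=
  BlkD.tree_sound (BlkD.pairOk_sound k20_21_6_5) (by decide) hn t20_21_6_5_25 _ _ (by decide +kernel)

lemma pr20_21_6_5 {n : ℕ} (hn : 6 ≤ n) : NoPr ((20 : ℕ) : ℤ) ((21 : ℕ) : ℤ) n 6 5 :=
  BlkD.of_root (R := d20_21_6_5.R) (H := d20_21_6_5.H) (a := d20_21_6_5.a) (b := d20_21_6_5.b) (q := 4) (by decide) hn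
    (BlkD.sp 0 6 (BlkD.sp 2 5 (BlkD.sp 0 3 (BlkD.sp 0 1 (BlkD.sp 0 0 (s20_21_6_5_1 hn) (BlkD.sp 1
      10 (BlkD.sp 1 5 (s20_21_6_5_2 hn) (s20_21_6_5_3 hn)) (s20_21_6_5_4 hn))) (BlkD.sp 0 2
      (BlkD.sp 1 19 (BlkD.sp 1 9 (BlkD.sp 1 4 (s20_21_6_5_5 hn) (BlkD.sp 1 7 (BlkD.sp 1 6
      (s20_21_6_5_6 hn) (s20_21_6_5_7 hn)) (s20_21_6_5_8 hn))) (s20_21_6_5_9 hn)) (s20_21_6_5_10
      hn)) (BlkD.sp 1 18 (BlkD.sp 1 9 (BlkD.sp 1 4 (s20_21_6_5_11 hn) (BlkD.sp 1 7 (BlkD.sp 1 6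
      (BlkD.sp 1 5 (s20_21_6_5_12 hn) (s20_21_6_5_13 hn)) (s20_21_6_5_14 hn)) (s20_21_6_5_15 hn)))
      (s20_21_6_5_16 hn)) (s20_21_6_5_17 hn)))) (BlkD.sp 0 5 (BlkD.sp 0 4 (BlkD.sp 1 17 (BlkD.sp 1
      8 (BlkD.sp 1 4 (s20_21_6_5_18 hn) (s20_21_6_5_19 hn)) (s20_21_6_5_20 hn)) (s20_21_6_5_21 hn))
      (s20_21_6_5_22 hn)) (s20_21_6_5_23 hn))) (s20_21_6_5_24 hn)) (s20_21_6_5_25 hn))

/-- the numbers of the pair `(6, 6)`, `R = 20`, `H = 21` -/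
def d20_21_6_6 : BlkD.Pd :=
  ⟨20, 21, 4, 6, 6, 6, 2, 3, 2, 2, 8, 0, 2, 2, 8, 0, [0, 8, 16, 18, 20, 22, 24], [0, 8, 16, 18, 20,
    22, 24], [⟨1, 1, 1, 4, 8, [0, 4], [0, 4]⟩, ⟨1, 1, 1, 4, 12, [0, 6], [0, 6]⟩, ⟨1, 1, 1, 4, 16,
    [0, 8], [0, 8]⟩]⟩

lemma k20_21_6_6 : BlkD.pairOk d20_21_6_6 = true := by decide +kernel

/-- certificates of the pair `(6, 6)`, part 1 -/
def t20_21_6_6_1 : BlkD.Tr :=
  .L 5 6 [4, 4, 5, 20, 20, 20, 20] [] [] 100000 29789 29789 1324113 59574 4965 73050 48227 0 0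
    10638

lemma s20_21_6_6_1 {n : ℕ} (hn : 6 ≤ n) : NoNd (d20_21_6_6.R : ℤ) d20_21_6_6.H n d20_21_6_6.a d20_21_6_6.b
    (BlkD.inB (fun _ => 0)
      (BlkD.upd (BlkD.upd (BlkD.upd (BlkD.upd (BlkD.upd (fun _ => 21) 0 6) 2 6) 0 3) 0 1) 0 0)) :=
  BlkD.tree_sound (BlkD.pairOk_sound k20_21_6_6) (by decide) hn t20_21_6_6_1 _ _ (by decide +kernel)

/-- certificates of the pair `(6, 6)`, part 2 -/
def t20_21_6_6_2 : BlkD.Tr :=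
  .S 1 2 (.L 5 6 [4, 4, 5, 20, 20, 20, 20] [] [] 100000 29789 29789 1324113 59574 4965 73050 48227
    0 0 10638) (.L 5 6 [4, 4, 5, 20, 20, 20, 20] [] [] 100000 29789 29789 1324113 59574 4965 73050
    48227 0 0 10638)

lemma s20_21_6_6_2 {n : ℕ} (hn : 6 ≤ n) : NoNd (d20_21_6_6.R : ℤ) d20_21_6_6.H n d20_21_6_6.a d20_21_6_6.b
    (BlkD.inB (BlkD.upd (fun _ => 0) 0 1)
      (BlkD.upd (BlkD.upd (BlkD.upd (BlkD.upd (BlkD.upd (BlkD.upd (fun _ => 21) 0 6) 2 6) 0 3) 0 1) 1 10) 1 5)) :=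
  BlkD.tree_sound (BlkD.pairOk_sound k20_21_6_6) (by decide) hn t20_21_6_6_2 _ _ (by decide +kernel)

/-- certificates of the pair `(6, 6)`, part 3 -/
def t20_21_6_6_3 : BlkD.Tr :=
  .S 1 7 (.L 5 6 [4, 4, 5, 20, 20, 20, 20] [] [] 100000 29789 29789 1324113 59574 4965 73050 48227
    0 0 10638) (.L 5 6 [4, 4, 5, 20, 20, 20, 20] [130, 128, 126, 124, 116, 108] [] 100000 29789
    29789 1324113 59574 4965 73050 48227 0 0 10638)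

lemma s20_21_6_6_3 {n : ℕ} (hn : 6 ≤ n) : NoNd (d20_21_6_6.R : ℤ) d20_21_6_6.H n d20_21_6_6.a d20_21_6_6.b
    (BlkD.inB (BlkD.upd (BlkD.upd (fun _ => 0) 0 1) 1 6)
      (BlkD.upd (BlkD.upd (BlkD.upd (BlkD.upd (BlkD.upd (BlkD.upd (fun _ => 21) 0 6) 2 6) 0 3) 0 1) 1 10) 1 8)) :=
  BlkD.tree_sound (BlkD.pairOk_sound k20_21_6_6) (by decide) hn t20_21_6_6_3 _ _ (by decide +kernel)

/-- certificates of the pair `(6, 6)`, part 4 -/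
def t20_21_6_6_4 : BlkD.Tr :=
  .L 5 6 [4, 4, 5, 20, 20, 20, 20] [] [] 100000 29789 29789 1324113 59574 4965 73050 48227 0 0
    10638

lemma s20_21_6_6_4 {n : ℕ} (hn : 6 ≤ n) : NoNd (d20_21_6_6.R : ℤ) d20_21_6_6.H n d20_21_6_6.a d20_21_6_6.b
    (BlkD.inB (BlkD.upd (BlkD.upd (BlkD.upd (fun _ => 0) 0 1) 1 6) 1 9)
      (BlkD.upd (BlkD.upd (BlkD.upd (BlkD.upd (BlkD.upd (fun _ => 21) 0 6) 2 6) 0 3) 0 1) 1 10)) :=
  BlkD.tree_sound (BlkD.pairOk_sound k20_21_6_6) (by decide) hn t20_21_6_6_4 _ _ (by decide +kernel)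

/-- certificates of the pair `(6, 6)`, part 5 -/
def t20_21_6_6_5 : BlkD.Tr :=
  .L 5 6 [4, 4, 5, 20, 20, 20, 20] [] [] 100000 29789 29789 1324113 59574 4965 73050 48227 0 0
    10638

lemma s20_21_6_6_5 {n : ℕ} (hn : 6 ≤ n) : NoNd (d20_21_6_6.R : ℤ) d20_21_6_6.H n d20_21_6_6.a d20_21_6_6.b
    (BlkD.inB (BlkD.upd (BlkD.upd (fun _ => 0) 0 1) 1 11)
      (BlkD.upd (BlkD.upd (BlkD.upd (BlkD.upd (fun _ => 21) 0 6) 2 6) 0 3) 0 1)) :=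
  BlkD.tree_sound (BlkD.pairOk_sound k20_21_6_6) (by decide) hn t20_21_6_6_5 _ _ (by decide +kernel)

/-- certificates of the pair `(6, 6)`, part 6 -/
def t20_21_6_6_6 : BlkD.Tr :=
  .L 6 6 [4, 4, 4, 20, 20, 20, 20] [] [] 100000 13794 13794 1462070 34483 0 68966 86207 0 10345
    3448

lemma s20_21_6_6_6 {n : ℕ} (hn : 6 ≤ n) : NoNd (d20_21_6_6.R : ℤ) d20_21_6_6.H n d20_21_6_6.a d20_21_6_6.b
    (BlkD.inB (BlkD.upd (fun _ => 0) 0 2)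
      (BlkD.upd (BlkD.upd (BlkD.upd (BlkD.upd (BlkD.upd (BlkD.upd (BlkD.upd (fun _ => 21) 0 6) 2 6) 0 3) 0 2) 1 19) 1 9) 1 4)) :=
  BlkD.tree_sound (BlkD.pairOk_sound k20_21_6_6) (by decide) hn t20_21_6_6_6 _ _ (by decide +kernel)

/-- certificates of the pair `(6, 6)`, part 7 -/
def t20_21_6_6_7 : BlkD.Tr :=
  .S 2 3 (.L 6 6 [4, 4, 4, 20, 20, 20, 20] [92, 84, 76, 66, 54, 40] [] 100000 35625 35625 1324375
    38750 31875 56875 63750 0 1875 0) (.L 6 6 [4, 4, 4, 20, 20, 20, 20] [92, 84, 76, 66, 54, 40] []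
    100000 11111 11111 1466668 33333 0 50000 41667 0 11111 5556)

lemma s20_21_6_6_7 {n : ℕ} (hn : 6 ≤ n) : NoNd (d20_21_6_6.R : ℤ) d20_21_6_6.H n d20_21_6_6.a d20_21_6_6.b
    (BlkD.inB (BlkD.upd (BlkD.upd (fun _ => 0) 0 2) 1 5)
      (BlkD.upd (BlkD.upd (BlkD.upd (BlkD.upd (BlkD.upd (BlkD.upd (BlkD.upd (BlkD.upd (BlkD.upd (fun _ => 21) 0 6) 2 6) 0 3) 0 2) 1 19) 1 9) 1 7) 1 6) 1 5)) :=
  BlkD.tree_sound (BlkD.pairOk_sound k20_21_6_6) (by decide) hn t20_21_6_6_7 _ _ (by decide +kernel)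

/-- certificates of the pair `(6, 6)`, part 8 -/
def t20_21_6_6_8 : BlkD.Tr :=
  .S 2 3 (.L 6 6 [4, 4, 4, 20, 20, 20, 20] [108, 106, 98, 90, 80, 68] [] 100000 21591 21591 1379546
    37500 25000 57955 60227 0 6818 0) (.L 6 6 [4, 4, 4, 20, 20, 20, 20] [108, 106, 98, 90, 80, 68]
    [] 100000 11111 11111 1466668 33333 0 66667 66667 0 11111 5556)

lemma s20_21_6_6_8 {n : ℕ} (hn : 6 ≤ n) : NoNd (d20_21_6_6.R : ℤ) d20_21_6_6.H n d20_21_6_6.a d20_21_6_6.b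
    (BlkD.inB (BlkD.upd (BlkD.upd (BlkD.upd (fun _ => 0) 0 2) 1 5) 1 6)
      (BlkD.upd (BlkD.upd (BlkD.upd (BlkD.upd (BlkD.upd (BlkD.upd (BlkD.upd (BlkD.upd (fun _ => 21) 0 6) 2 6) 0 3) 0 2) 1 19) 1 9) 1 7) 1 6)) :=
  BlkD.tree_sound (BlkD.pairOk_sound k20_21_6_6) (by decide) hn t20_21_6_6_8 _ _ (by decide +kernel)

/-- certificates of the pair `(6, 6)`, part 9 -/
def t20_21_6_6_9 : BlkD.Tr :=
  .S 2 3 (.L 6 6 [4, 4, 4, 20, 20, 20, 20] [126, 124, 122, 114, 106, 96] [] 100000 18750 18750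
    1395000 30000 30000 62500 65000 7500 5000 0) (.L 6 6 [4, 4, 4, 20, 20, 20, 20] [126, 124, 122,
    114, 106, 96] [] 100000 20787 20787 1415732 46067 0 59551 50000 0 4494 2247)

lemma s20_21_6_6_9 {n : ℕ} (hn : 6 ≤ n) : NoNd (d20_21_6_6.R : ℤ) d20_21_6_6.H n d20_21_6_6.a d20_21_6_6.b
    (BlkD.inB (BlkD.upd (BlkD.upd (BlkD.upd (fun _ => 0) 0 2) 1 5) 1 7)
      (BlkD.upd (BlkD.upd (BlkD.upd (BlkD.upd (BlkD.upd (BlkD.upd (BlkD.upd (fun _ => 21) 0 6) 2 6) 0 3) 0 2) 1 19) 1 9) 1 7)) :=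
  BlkD.tree_sound (BlkD.pairOk_sound k20_21_6_6) (by decide) hn t20_21_6_6_9 _ _ (by decide +kernel)

/-- certificates of the pair `(6, 6)`, part 10 -/
def t20_21_6_6_10 : BlkD.Tr :=
  .S 1 8 (.L 6 6 [4, 4, 4, 20, 20, 20, 20] [146, 144, 142, 140, 132, 124] [] 100000 40000 40000
    1360001 60000 0 100000 33333 0 0 0) (.L 6 6 [4, 4, 4, 20, 20, 20, 20] [168, 166, 164, 162, 160,
    152] [] 100000 53846 0 1076924 76923 5128 153846 46154 0 0 0)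

lemma s20_21_6_6_10 {n : ℕ} (hn : 6 ≤ n) : NoNd (d20_21_6_6.R : ℤ) d20_21_6_6.H n d20_21_6_6.a d20_21_6_6.b
    (BlkD.inB (BlkD.upd (BlkD.upd (BlkD.upd (fun _ => 0) 0 2) 1 5) 1 8)
      (BlkD.upd (BlkD.upd (BlkD.upd (BlkD.upd (BlkD.upd (BlkD.upd (fun _ => 21) 0 6) 2 6) 0 3) 0 2) 1 19) 1 9)) :=
  BlkD.tree_sound (BlkD.pairOk_sound k20_21_6_6) (by decide) hn t20_21_6_6_10 _ _ (by decide +kernel)

/-- certificates of the pair `(6, 6)`, part 11 -/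
def t20_21_6_6_11 : BlkD.Tr :=
  .E 0

lemma s20_21_6_6_11 {n : ℕ} (hn : 6 ≤ n) : NoNd (d20_21_6_6.R : ℤ) d20_21_6_6.H n d20_21_6_6.a d20_21_6_6.b
    (BlkD.inB (BlkD.upd (BlkD.upd (fun _ => 0) 0 2) 1 10)
      (BlkD.upd (BlkD.upd (BlkD.upd (BlkD.upd (BlkD.upd (fun _ => 21) 0 6) 2 6) 0 3) 0 2) 1 19)) :=
  BlkD.tree_sound (BlkD.pairOk_sound k20_21_6_6) (by decide) hn t20_21_6_6_11 _ _ (by decide +kernel)

/-- certificates of the pair `(6, 6)`, part 12 -/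
def t20_21_6_6_12 : BlkD.Tr :=
  .E 0

lemma s20_21_6_6_12 {n : ℕ} (hn : 6 ≤ n) : NoNd (d20_21_6_6.R : ℤ) d20_21_6_6.H n d20_21_6_6.a d20_21_6_6.b
    (BlkD.inB (BlkD.upd (BlkD.upd (fun _ => 0) 0 2) 1 20)
      (BlkD.upd (BlkD.upd (BlkD.upd (BlkD.upd (fun _ => 21) 0 6) 2 6) 0 3) 0 2)) :=
  BlkD.tree_sound (BlkD.pairOk_sound k20_21_6_6) (by decide) hn t20_21_6_6_12 _ _ (by decide +kernel)

/-- certificates of the pair `(6, 6)`, part 13 -/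
def t20_21_6_6_13 : BlkD.Tr :=
  .S 1 2 (.L 6 6 [4, 4, 4, 20, 20, 20, 20] [] [] 100000 1192 1192 1428573 14286 14286 28571 73810 0
    11905 5952) (.S 1 3 (.L 6 6 [4, 4, 4, 20, 20, 20, 20] [60, 50, 38, 24, 0, 0] [] 100000 12038
    12038 1472221 33333 5556 61111 61111 0 9259 4630) (.S 2 3 (.L 6 6 [4, 4, 4, 20, 20, 20, 20]
    [80, 72, 62, 50, 36, 0] [] 100000 40625 40625 1381250 31250 31250 68750 62500 0 6250 0) (.L 6 6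
    [4, 4, 4, 20, 20, 20, 20] [80, 72, 62, 50, 36, 0] [] 100000 11729 11729 1472841 30864 1235
    67901 62963 1235 6173 3086)))

lemma s20_21_6_6_13 {n : ℕ} (hn : 6 ≤ n) : NoNd (d20_21_6_6.R : ℤ) d20_21_6_6.H n d20_21_6_6.a d20_21_6_6.b
    (BlkD.inB (BlkD.upd (BlkD.upd (fun _ => 0) 0 2) 0 3)
      (BlkD.upd (BlkD.upd (BlkD.upd (BlkD.upd (BlkD.upd (BlkD.upd (fun _ => 21) 0 6) 2 6) 0 3) 1 18) 1 9) 1 4)) :=
  BlkD.tree_sound (BlkD.pairOk_sound k20_21_6_6) (by decide) hn t20_21_6_6_13 _ _ (by decide +kernel)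

/-- certificates of the pair `(6, 6)`, part 14 -/
def t20_21_6_6_14 : BlkD.Tr :=
  .S 1 7 (.S 1 6 (.S 1 5 (.S 2 3 (.L 6 6 [4, 4, 4, 20, 20, 20, 20] [102, 94, 86, 76, 64, 50] []
    100000 18750 18750 1450000 25000 25000 66667 70833 8333 4167 0) (.L 6 6 [4, 4, 4, 20, 20, 20,
    20] [102, 94, 86, 76, 64, 50] [] 100000 9616 9616 1476924 30769 0 96154 65385 5769 5769 2885))
    (.S 2 3 (.L 6 6 [4, 4, 4, 20, 20, 20, 20] [120, 118, 110, 102, 92, 80] [] 100000 56820 56820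
    1345453 36364 36364 86364 72727 4545 0 0) (.S 2 5 (.S 2 4 (.L 6 6 [4, 4, 4, 20, 20, 20, 20]
    [120, 118, 110, 102, 92, 80] [] 100000 3935 3935 1491668 22222 13889 52778 56944 9259 5093
    15741) (.L 6 6 [4, 4, 4, 20, 20, 20, 20] [120, 118, 110, 102, 92, 80] [] 100000 9045 9045
    1437543 36519 0 65188 52901 7850 10580 17406)) (.L 6 6 [4, 4, 4, 20, 20, 20, 20] [120, 118,
    110, 102, 92, 80] [] 100000 0 0 1400002 33333 0 83333 0 0 33333 16667)))) (.L 6 6 [4, 4, 4, 20,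
    20, 20, 20] [140, 138, 136, 128, 120, 110] [] 100000 25000 25000 1400000 50000 0 100000 50000 0
    0 0)) (.L 6 6 [4, 4, 4, 20, 20, 20, 20] [] [] 100000 115000 0 710000 30000 25000 215000 75000 0
    0 0)

lemma s20_21_6_6_14 {n : ℕ} (hn : 6 ≤ n) : NoNd (d20_21_6_6.R : ℤ) d20_21_6_6.H n d20_21_6_6.a d20_21_6_6.b
    (BlkD.inB (BlkD.upd (BlkD.upd (BlkD.upd (fun _ => 0) 0 2) 0 3) 1 5)
      (BlkD.upd (BlkD.upd (BlkD.upd (BlkD.upd (BlkD.upd (fun _ => 21) 0 6) 2 6) 0 3) 1 18) 1 9)) :=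
  BlkD.tree_sound (BlkD.pairOk_sound k20_21_6_6) (by decide) hn t20_21_6_6_14 _ _ (by decide +kernel)

/-- certificates of the pair `(6, 6)`, part 15 -/
def t20_21_6_6_15 : BlkD.Tr :=
  .E 0

lemma s20_21_6_6_15 {n : ℕ} (hn : 6 ≤ n) : NoNd (d20_21_6_6.R : ℤ) d20_21_6_6.H n d20_21_6_6.a d20_21_6_6.b
    (BlkD.inB (BlkD.upd (BlkD.upd (BlkD.upd (fun _ => 0) 0 2) 0 3) 1 10)
      (BlkD.upd (BlkD.upd (BlkD.upd (BlkD.upd (fun _ => 21) 0 6) 2 6) 0 3) 1 18)) :=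
  BlkD.tree_sound (BlkD.pairOk_sound k20_21_6_6) (by decide) hn t20_21_6_6_15 _ _ (by decide +kernel)

/-- certificates of the pair `(6, 6)`, part 16 -/
def t20_21_6_6_16 : BlkD.Tr :=
  .E 0

lemma s20_21_6_6_16 {n : ℕ} (hn : 6 ≤ n) : NoNd (d20_21_6_6.R : ℤ) d20_21_6_6.H n d20_21_6_6.a d20_21_6_6.b
    (BlkD.inB (BlkD.upd (BlkD.upd (BlkD.upd (fun _ => 0) 0 2) 0 3) 1 19)
      (BlkD.upd (BlkD.upd (BlkD.upd (fun _ => 21) 0 6) 2 6) 0 3)) :=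
  BlkD.tree_sound (BlkD.pairOk_sound k20_21_6_6) (by decide) hn t20_21_6_6_16 _ _ (by decide +kernel)

/-- certificates of the pair `(6, 6)`, part 17 -/
def t20_21_6_6_17 : BlkD.Tr :=
  .S 1 17 (.S 1 8 (.S 1 4 (.S 1 2 (.L 6 6 [4, 4, 4, 20, 20, 20, 20] [] [] 100000 8334 8334 1446668
    20000 13333 80000 76667 0 3333 1667) (.S 1 3 (.S 2 3 (.L 6 6 [4, 4, 4, 20, 20, 20, 20] [66, 56,
    44, 30, 0, 0] [] 100000 9260 9260 1466668 11111 33333 48148 59259 7407 7407 3704) (.L 6 6 [4,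
    4, 4, 20, 20, 20, 20] [66, 56, 44, 30, 0, 0] [] 100000 5358 5358 1463135 13018 12327 73848
    86866 2189 115 1094)) (.S 2 3 (.L 6 6 [4, 4, 4, 20, 20, 20, 20] [88, 80, 70, 58, 44, 0] []
    100000 13051 13051 1446542 9119 31761 71698 67296 4717 943 2358) (.S 2 5 (.S 2 4 (.S 3 9 (.S 3
    4 (.S 3 2 (.L 6 6 [4, 4, 4, 20, 20, 20, 20] [88, 80, 70, 58, 44, 0] [] 100000 0 0 1400000 0 0 0
    0 0 0 0) (.S 3 3 (.L 6 6 [4, 4, 4, 20, 20, 20, 20] [88, 80, 70, 58, 44, 0] [66, 56, 44, 30, 0,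
    0] 100000 6820 6820 1451515 16667 16667 33333 28030 1515 1515 758) (.S 4 4 (.S 4 2 (.L 6 6 [4,
    4, 4, 20, 20, 20, 20] [70, 58, 44, 0, 0, 0] [88, 80, 70, 58, 44, 0] 100000 2008 2008 1489814
    23457 13272 41667 70370 6481 12963 6481) (.L 6 6 [4, 4, 4, 20, 20, 20, 20] [88, 80, 70, 58, 44,
    0] [88, 80, 70, 58, 44, 0] 100000 16667 0 1300000 0 33333 116667 75000 0 0 0)) (.E 2)))) (.L 6
    6 [4, 4, 4, 20, 20, 20, 20] [88, 80, 70, 58, 44, 0] [] 100000 13043 0 1321741 17391 17391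
    113043 100000 0 0 0)) (.E 1)) (.L 6 6 [4, 4, 4, 20, 20, 20, 20] [88, 80, 70, 58, 44, 0] []
    100000 0 0 1472694 11439 13653 52214 81550 7011 7011 3321)) (.L 6 6 [4, 4, 4, 20, 20, 20, 20]
    [88, 80, 70, 58, 44, 0] [] 100000 0 0 1460000 40000 0 50000 40000 15000 45000 12500))))) (.S 1
    6 (.S 1 5 (.S 2 3 (.L 6 6 [4, 4, 4, 20, 20, 20, 20] [112, 104, 96, 86, 74, 60] [] 100000 6757
    6757 1447750 6306 33333 78378 88288 19820 0 9910) (.L 6 6 [4, 4, 4, 20, 20, 20, 20] [112, 104,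
    96, 86, 74, 60] [] 100000 0 0 1468423 10526 10526 89474 78947 10526 0 5263)) (.L 6 6 [4, 4, 4,
    20, 20, 20, 20] [132, 130, 122, 114, 104, 92] [] 100000 6250 6250 1437500 12500 12500 100000
    50000 0 0 0)) (.E 0))) (.E 0)) (.E 0)

lemma s20_21_6_6_17 {n : ℕ} (hn : 6 ≤ n) : NoNd (d20_21_6_6.R : ℤ) d20_21_6_6.H n d20_21_6_6.a d20_21_6_6.b
    (BlkD.inB (BlkD.upd (fun _ => 0) 0 4)
      (BlkD.upd (BlkD.upd (BlkD.upd (BlkD.upd (fun _ => 21) 0 6) 2 6) 0 5) 0 4)) :=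
  BlkD.tree_sound (BlkD.pairOk_sound k20_21_6_6) (by decide) hn t20_21_6_6_17 _ _ (by decide +kernel)

/-- certificates of the pair `(6, 6)`, part 18 -/
def t20_21_6_6_18 : BlkD.Tr :=
  .S 1 16 (.S 1 8 (.S 1 4 (.S 1 2 (.S 1 1 (.L 6 6 [4, 4, 4, 20, 20, 20, 20] [] [] 100000 2779 2779
    1449999 16667 16667 66667 72222 0 11111 5556) (.S 2 3 (.L 6 6 [4, 4, 4, 20, 20, 20, 20] [48,
    36, 22, 0, 0, 0] [] 100000 8565 8565 1419447 19444 30556 69444 65278 8333 5093 4167) (.L 6 6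
    [4, 4, 4, 20, 20, 20, 20] [48, 36, 22, 0, 0, 0] [] 100000 1 1 1471430 14286 14286 71429 71429
    14286 0 7143))) (.L 6 6 [4, 4, 4, 20, 20, 20, 20] [] [] 100000 4763 4763 1471428 14286 9524
    85714 90476 4762 0 2381)) (.L 6 6 [4, 4, 4, 20, 20, 20, 20] [] [] 100000 16667 0 1300000 0
    22222 116667 50000 0 0 0)) (.E 0)) (.E 0)

lemma s20_21_6_6_18 {n : ℕ} (hn : 6 ≤ n) : NoNd (d20_21_6_6.R : ℤ) d20_21_6_6.H n d20_21_6_6.a d20_21_6_6.b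
    (BlkD.inB (BlkD.upd (BlkD.upd (fun _ => 0) 0 4) 0 5)
      (BlkD.upd (BlkD.upd (BlkD.upd (fun _ => 21) 0 6) 2 6) 0 5)) :=
  BlkD.tree_sound (BlkD.pairOk_sound k20_21_6_6) (by decide) hn t20_21_6_6_18 _ _ (by decide +kernel)

/-- certificates of the pair `(6, 6)`, part 19 -/
def t20_21_6_6_19 : BlkD.Tr :=
  .L 6 6 [4, 4, 4, 20, 20, 20, 20] [] [] 100000 0 0 1475000 0 25000 25000 50000 40000 10000 7500

lemma s20_21_6_6_19 {n : ℕ} (hn : 6 ≤ n) : NoNd (d20_21_6_6.R : ℤ) d20_21_6_6.H n d20_21_6_6.a d20_21_6_6.b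
    (BlkD.inB (BlkD.upd (BlkD.upd (fun _ => 0) 0 4) 0 6)
      (BlkD.upd (BlkD.upd (fun _ => 21) 0 6) 2 6)) :=
  BlkD.tree_sound (BlkD.pairOk_sound k20_21_6_6) (by decide) hn t20_21_6_6_19 _ _ (by decide +kernel)

/-- certificates of the pair `(6, 6)`, part 20 -/
def t20_21_6_6_20 : BlkD.Tr :=
  .E 1

lemma s20_21_6_6_20 {n : ℕ} (hn : 6 ≤ n) : NoNd (d20_21_6_6.R : ℤ) d20_21_6_6.H n d20_21_6_6.a d20_21_6_6.b
    (BlkD.inB (BlkD.upd (fun _ => 0) 2 7)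
      (BlkD.upd (fun _ => 21) 0 6)) :=
  BlkD.tree_sound (BlkD.pairOk_sound k20_21_6_6) (by decide) hn t20_21_6_6_20 _ _ (by decide +kernel)

/-- certificates of the pair `(6, 6)`, part 21 -/
def t20_21_6_6_21 : BlkD.Tr :=
  .E 0

lemma s20_21_6_6_21 {n : ℕ} (hn : 6 ≤ n) : NoNd (d20_21_6_6.R : ℤ) d20_21_6_6.H n d20_21_6_6.a d20_21_6_6.b
    (BlkD.inB (BlkD.upd (fun _ => 0) 0 7)
      (fun _ => 21)) :=
  BlkD.tree_sound (BlkD.pairOk_sound k20_21_6_6) (by decide) hn t20_21_6_6_21 _ _ (by decide +kernel)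

lemma pr20_21_6_6 {n : ℕ} (hn : 6 ≤ n) : NoPr ((20 : ℕ) : ℤ) ((21 : ℕ) : ℤ) n 6 6 :=
  BlkD.of_root (R := d20_21_6_6.R) (H := d20_21_6_6.H) (a := d20_21_6_6.a) (b := d20_21_6_6.b) (q := 4) (by decide) hn
    (BlkD.sp 0 6 (BlkD.sp 2 6 (BlkD.sp 0 3 (BlkD.sp 0 1 (BlkD.sp 0 0 (s20_21_6_6_1 hn) (BlkD.sp 1
      10 (BlkD.sp 1 5 (s20_21_6_6_2 hn) (BlkD.sp 1 8 (s20_21_6_6_3 hn) (s20_21_6_6_4 hn)))
      (s20_21_6_6_5 hn))) (BlkD.sp 0 2 (BlkD.sp 1 19 (BlkD.sp 1 9 (BlkD.sp 1 4 (s20_21_6_6_6 hn)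
      (BlkD.sp 1 7 (BlkD.sp 1 6 (BlkD.sp 1 5 (s20_21_6_6_7 hn) (s20_21_6_6_8 hn)) (s20_21_6_6_9
      hn)) (s20_21_6_6_10 hn))) (s20_21_6_6_11 hn)) (s20_21_6_6_12 hn)) (BlkD.sp 1 18 (BlkD.sp 1 9
      (BlkD.sp 1 4 (s20_21_6_6_13 hn) (s20_21_6_6_14 hn)) (s20_21_6_6_15 hn)) (s20_21_6_6_16 hn))))
      (BlkD.sp 0 5 (BlkD.sp 0 4 (s20_21_6_6_17 hn) (s20_21_6_6_18 hn)) (s20_21_6_6_19 hn)))
      (s20_21_6_6_20 hn)) (s20_21_6_6_21 hn))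

/-- the numbers of the pair `(7, 0)`, `R = 20`, `H = 21` -/
def d20_21_7_0 : BlkD.Pd :=
  ⟨20, 21, 4, 7, 0, 11, 0, 1, 0, 4, 4, 0, 0, 4, 4, 0, [0, 4, 8, 12, 16, 20, 24, 28, 32, 36, 40,
    44], [0, 4, 8, 12, 16, 20, 24, 28, 32, 36, 40, 44], [⟨1, 1, 1, 4, 8, [0, 4], [0, 4]⟩]⟩

/-- the certificates of the pair `(7, 0)` -/
def t20_21_7_0 : BlkD.Tr :=
  .S 0 7 (.S 2 0 (.L 4 4 [4] [] [] 100000 0 0 800000 50000 0 50000 50000 0 0 0) (.E 1)) (.E 0)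

lemma pr20_21_7_0 {n : ℕ} (hn : 6 ≤ n) : NoPr ((20 : ℕ) : ℤ) ((21 : ℕ) : ℤ) n 7 0 :=
  BlkD.pair_sound (d := d20_21_7_0) (by decide +kernel) hn (by decide) (tr := t20_21_7_0)
    (by decide +kernel) rfl rfl rfl rfl

/-- the numbers of the pair `(7, 1)`, `R = 20`, `H = 21` -/
def d20_21_7_1 : BlkD.Pd :=
  ⟨20, 21, 4, 7, 1, 10, 1, 1, 2, 2, 6, 0, 0, 4, 4, 0, [0, 6, 12, 18, 24, 30, 32, 34, 36, 38, 40],
    [0, 4, 8, 12, 16, 20, 24, 28, 32, 36, 40], [⟨1, 1, 1, 4, 8, [0, 4], [0, 4]⟩, ⟨1, 1, 1, 4, 10,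
    [0, 6], [0, 4]⟩]⟩

lemma k20_21_7_1 : BlkD.pairOk d20_21_7_1 = true := by decide +kernel

/-- certificates of the pair `(7, 1)`, part 1 -/
def t20_21_7_1_1 : BlkD.Tr :=
  .L 4 5 [4, 4] [] [] 100000 1 0 1009091 27273 9091 54545 9091 0 0 0

lemma s20_21_7_1_1 {n : ℕ} (hn : 6 ≤ n) : NoNd (d20_21_7_1.R : ℤ) d20_21_7_1.H n d20_21_7_1.a d20_21_7_1.b
    (BlkD.inB (fun _ => 0)
      (BlkD.upd (BlkD.upd (BlkD.upd (BlkD.upd (fun _ => 21) 0 7) 2 1) 0 3) 0 1)) :=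
  BlkD.tree_sound (BlkD.pairOk_sound k20_21_7_1) (by decide) hn t20_21_7_1_1 _ _ (by decide +kernel)

/-- certificates of the pair `(7, 1)`, part 2 -/
def t20_21_7_1_2 : BlkD.Tr :=
  .L 4 5 [4, 4] [] [] 100000 1 0 1009091 27273 9091 54545 9091 0 0 0

lemma s20_21_7_1_2 {n : ℕ} (hn : 6 ≤ n) : NoNd (d20_21_7_1.R : ℤ) d20_21_7_1.H n d20_21_7_1.a d20_21_7_1.b
    (BlkD.inB (BlkD.upd (fun _ => 0) 0 2)
      (BlkD.upd (BlkD.upd (BlkD.upd (fun _ => 21) 0 7) 2 1) 0 3)) :=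
  BlkD.tree_sound (BlkD.pairOk_sound k20_21_7_1) (by decide) hn t20_21_7_1_2 _ _ (by decide +kernel)

/-- certificates of the pair `(7, 1)`, part 3 -/
def t20_21_7_1_3 : BlkD.Tr :=
  .L 4 5 [4, 4] [] [] 100000 1 0 1009091 27273 9091 54545 9091 0 0 0

lemma s20_21_7_1_3 {n : ℕ} (hn : 6 ≤ n) : NoNd (d20_21_7_1.R : ℤ) d20_21_7_1.H n d20_21_7_1.a d20_21_7_1.b
    (BlkD.inB (BlkD.upd (fun _ => 0) 0 4)
      (BlkD.upd (BlkD.upd (fun _ => 21) 0 7) 2 1)) :=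
  BlkD.tree_sound (BlkD.pairOk_sound k20_21_7_1) (by decide) hn t20_21_7_1_3 _ _ (by decide +kernel)

/-- certificates of the pair `(7, 1)`, part 4 -/
def t20_21_7_1_4 : BlkD.Tr :=
  .E 1

lemma s20_21_7_1_4 {n : ℕ} (hn : 6 ≤ n) : NoNd (d20_21_7_1.R : ℤ) d20_21_7_1.H n d20_21_7_1.a d20_21_7_1.b
    (BlkD.inB (BlkD.upd (fun _ => 0) 2 2)
      (BlkD.upd (fun _ => 21) 0 7)) :=
  BlkD.tree_sound (BlkD.pairOk_sound k20_21_7_1) (by decide) hn t20_21_7_1_4 _ _ (by decide +kernel)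

/-- certificates of the pair `(7, 1)`, part 5 -/
def t20_21_7_1_5 : BlkD.Tr :=
  .E 0

lemma s20_21_7_1_5 {n : ℕ} (hn : 6 ≤ n) : NoNd (d20_21_7_1.R : ℤ) d20_21_7_1.H n d20_21_7_1.a d20_21_7_1.b
    (BlkD.inB (BlkD.upd (fun _ => 0) 0 8)
      (fun _ => 21)) :=
  BlkD.tree_sound (BlkD.pairOk_sound k20_21_7_1) (by decide) hn t20_21_7_1_5 _ _ (by decide +kernel)

lemma pr20_21_7_1 {n : ℕ} (hn : 6 ≤ n) : NoPr ((20 : ℕ) : ℤ) ((21 : ℕ) : ℤ) n 7 1 :=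
  BlkD.of_root (R := d20_21_7_1.R) (H := d20_21_7_1.H) (a := d20_21_7_1.a) (b := d20_21_7_1.b) (q := 4) (by decide) hn
    (BlkD.sp 0 7 (BlkD.sp 2 1 (BlkD.sp 0 3 (BlkD.sp 0 1 (s20_21_7_1_1 hn) (s20_21_7_1_2 hn))
      (s20_21_7_1_3 hn)) (s20_21_7_1_4 hn)) (s20_21_7_1_5 hn))

end BlkC

end Pool.Agent.Lib.MP_f04ccf_co
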