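import Pool.Agent.Lib.MP_f04ccf_co.M.BlkT

/-!
MP_f04ccf_co, block certificate, data `R = 20`, `H = 21`, part 20 (generated, helper99:
bd10.cpp, gen2.py).
-/

set_option autoImplicit false
set_option maxRecDepth 100000

namespace Pool.Agent.Lib.MP_f04ccf_co

namespace BlkC

/-- the numbers of the pair `(12, 2)`, `R = 20`, `H = 21` -/
def d20_21_12_2 : BlkD.Pd :=
  ⟨20, 21, 4, 12, 2, 4, 0, 2, 0, 4, 4, 0, 0, 4, 4, 0, [0, 4, 8, 12, 16], [0, 4, 8, 12, 16], [⟨1, 1,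
    1, 4, 8, [0, 4], [0, 4]⟩]⟩

lemma k20_21_12_2 : BlkD.pairOk d20_21_12_2 = true := by decide +kernel

/-- certificates of the pair `(12, 2)`, part 1 -/
def t20_21_12_2_1 : BlkD.Tr :=
  .L 4 4 [4, 20, 20] [] [] 100000 0 0 1600000 100000 0 100000 0 0 0 0

lemma s20_21_12_2_1 {n : ℕ} (hn : 6 ≤ n) : NoNd (d20_21_12_2.R : ℤ) d20_21_12_2.H n d20_21_12_2.a d20_21_12_2.b
    (BlkD.inB (fun _ => 0)
      (BlkD.upd (BlkD.upd (BlkD.upd (BlkD.upd (BlkD.upd (fun _ => 21) 0 12) 2 2) 0 6) 0 3) 0 1)) :=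
  BlkD.tree_sound (BlkD.pairOk_sound k20_21_12_2) (by decide) hn t20_21_12_2_1 _ _ (by decide +kernel)

/-- certificates of the pair `(12, 2)`, part 2 -/
def t20_21_12_2_2 : BlkD.Tr :=
  .L 4 4 [4, 20, 20] [] [] 100000 0 0 1600000 100000 0 100000 0 0 0 0

lemma s20_21_12_2_2 {n : ℕ} (hn : 6 ≤ n) : NoNd (d20_21_12_2.R : ℤ) d20_21_12_2.H n d20_21_12_2.a d20_21_12_2.b
    (BlkD.inB (BlkD.upd (fun _ => 0) 0 2)
      (BlkD.upd (BlkD.upd (BlkD.upd (BlkD.upd (fun _ => 21) 0 12) 2 2) 0 6) 0 3)) :=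
  BlkD.tree_sound (BlkD.pairOk_sound k20_21_12_2) (by decide) hn t20_21_12_2_2 _ _ (by decide +kernel)

/-- certificates of the pair `(12, 2)`, part 3 -/
def t20_21_12_2_3 : BlkD.Tr :=
  .S 0 5 (.L 4 4 [4, 20, 20] [] [] 100000 0 0 1600000 100000 0 100000 0 0 0 0) (.L 4 4 [4, 20, 20]
    [] [] 100000 0 0 1600000 100000 0 100000 0 0 0 0)

lemma s20_21_12_2_3 {n : ℕ} (hn : 6 ≤ n) : NoNd (d20_21_12_2.R : ℤ) d20_21_12_2.H n d20_21_12_2.a d20_21_12_2.b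
    (BlkD.inB (BlkD.upd (fun _ => 0) 0 4)
      (BlkD.upd (BlkD.upd (BlkD.upd (fun _ => 21) 0 12) 2 2) 0 6)) :=
  BlkD.tree_sound (BlkD.pairOk_sound k20_21_12_2) (by decide) hn t20_21_12_2_3 _ _ (by decide +kernel)

/-- certificates of the pair `(12, 2)`, part 4 -/
def t20_21_12_2_4 : BlkD.Tr :=
  .S 0 8 (.L 4 4 [4, 20, 20] [] [] 100000 0 0 1600000 100000 0 100000 0 0 0 0) (.L 4 4 [4, 20, 20]
    [] [] 100000 0 0 1600000 100000 0 100000 0 0 0 0)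

lemma s20_21_12_2_4 {n : ℕ} (hn : 6 ≤ n) : NoNd (d20_21_12_2.R : ℤ) d20_21_12_2.H n d20_21_12_2.a d20_21_12_2.b
    (BlkD.inB (BlkD.upd (fun _ => 0) 0 7)
      (BlkD.upd (BlkD.upd (BlkD.upd (fun _ => 21) 0 12) 2 2) 0 9)) :=
  BlkD.tree_sound (BlkD.pairOk_sound k20_21_12_2) (by decide) hn t20_21_12_2_4 _ _ (by decide +kernel)

/-- certificates of the pair `(12, 2)`, part 5 -/
def t20_21_12_2_5 : BlkD.Tr :=
  .L 4 4 [4, 20, 20] [] [] 100000 0 0 1600000 100000 0 100000 0 0 0 0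

lemma s20_21_12_2_5 {n : ℕ} (hn : 6 ≤ n) : NoNd (d20_21_12_2.R : ℤ) d20_21_12_2.H n d20_21_12_2.a d20_21_12_2.b
    (BlkD.inB (BlkD.upd (BlkD.upd (fun _ => 0) 0 7) 0 10)
      (BlkD.upd (BlkD.upd (fun _ => 21) 0 12) 2 2)) :=
  BlkD.tree_sound (BlkD.pairOk_sound k20_21_12_2) (by decide) hn t20_21_12_2_5 _ _ (by decide +kernel)

/-- certificates of the pair `(12, 2)`, part 6 -/
def t20_21_12_2_6 : BlkD.Tr :=
  .E 1

lemma s20_21_12_2_6 {n : ℕ} (hn : 6 ≤ n) : NoNd (d20_21_12_2.R : ℤ) d20_21_12_2.H n d20_21_12_2.a d20_21_12_2.b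
    (BlkD.inB (BlkD.upd (fun _ => 0) 2 3)
      (BlkD.upd (fun _ => 21) 0 12)) :=
  BlkD.tree_sound (BlkD.pairOk_sound k20_21_12_2) (by decide) hn t20_21_12_2_6 _ _ (by decide +kernel)

/-- certificates of the pair `(12, 2)`, part 7 -/
def t20_21_12_2_7 : BlkD.Tr :=
  .E 0

lemma s20_21_12_2_7 {n : ℕ} (hn : 6 ≤ n) : NoNd (d20_21_12_2.R : ℤ) d20_21_12_2.H n d20_21_12_2.a d20_21_12_2.b
    (BlkD.inB (BlkD.upd (fun _ => 0) 0 13)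
      (fun _ => 21)) :=
  BlkD.tree_sound (BlkD.pairOk_sound k20_21_12_2) (by decide) hn t20_21_12_2_7 _ _ (by decide +kernel)

lemma pr20_21_12_2 {n : ℕ} (hn : 6 ≤ n) : NoPr ((20 : ℕ) : ℤ) ((21 : ℕ) : ℤ) n 12 2 :=
  BlkD.of_root (R := d20_21_12_2.R) (H := d20_21_12_2.H) (a := d20_21_12_2.a) (b := d20_21_12_2.b) (q := 4) (by decide) hn
    (BlkD.sp 0 12 (BlkD.sp 2 2 (BlkD.sp 0 6 (BlkD.sp 0 3 (BlkD.sp 0 1 (s20_21_12_2_1 hn)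
      (s20_21_12_2_2 hn)) (s20_21_12_2_3 hn)) (BlkD.sp 0 9 (s20_21_12_2_4 hn) (s20_21_12_2_5 hn)))
      (s20_21_12_2_6 hn)) (s20_21_12_2_7 hn))

/-- the numbers of the pair `(13, 0)`, `R = 20`, `H = 21` -/
def d20_21_13_0 : BlkD.Pd :=
  ⟨20, 21, 4, 13, 0, 5, 0, 1, 0, 4, 4, 0, 0, 4, 4, 0, [0, 4, 8, 12, 16, 20], [0, 4, 8, 12, 16, 20],
    [⟨1, 1, 1, 4, 8, [0, 4], [0, 4]⟩]⟩

/-- the certificates of the pair `(13, 0)` -/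
def t20_21_13_0 : BlkD.Tr :=
  .S 0 13 (.S 2 0 (.S 0 6 (.L 4 4 [4] [] [] 100000 0 0 1400000 100000 0 100000 0 0 0 0) (.L 4 4 [4]
    [] [] 100000 0 0 1400000 100000 0 100000 0 0 0 0)) (.E 1)) (.E 0)

lemma pr20_21_13_0 {n : ℕ} (hn : 6 ≤ n) : NoPr ((20 : ℕ) : ℤ) ((21 : ℕ) : ℤ) n 13 0 :=
  BlkD.pair_sound (d := d20_21_13_0) (by decide +kernel) hn (by decide) (tr := t20_21_13_0)
    (by decide +kernel) rfl rfl rfl rfl

/-- the numbers of the pair `(13, 1)`, `R = 20`, `H = 21` -/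
def d20_21_13_1 : BlkD.Pd :=
  ⟨20, 21, 4, 13, 1, 4, 0, 1, 0, 4, 4, 0, 0, 4, 4, 0, [0, 4, 8, 12, 16], [0, 4, 8, 12, 16], [⟨1, 1,
    1, 4, 8, [0, 4], [0, 4]⟩]⟩

lemma k20_21_13_1 : BlkD.pairOk d20_21_13_1 = true := by decide +kernel

/-- certificates of the pair `(13, 1)`, part 1 -/
def t20_21_13_1_1 : BlkD.Tr :=
  .L 4 4 [4, 20] [] [] 100000 0 0 1600000 100000 0 100000 0 0 0 0

lemma s20_21_13_1_1 {n : ℕ} (hn : 6 ≤ n) : NoNd (d20_21_13_1.R : ℤ) d20_21_13_1.H n d20_21_13_1.a d20_21_13_1.b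
    (BlkD.inB (fun _ => 0)
      (BlkD.upd (BlkD.upd (BlkD.upd (fun _ => 21) 0 13) 2 1) 0 6)) :=
  BlkD.tree_sound (BlkD.pairOk_sound k20_21_13_1) (by decide) hn t20_21_13_1_1 _ _ (by decide +kernel)

/-- certificates of the pair `(13, 1)`, part 2 -/
def t20_21_13_1_2 : BlkD.Tr :=
  .L 4 4 [4, 20] [] [] 100000 0 0 1600000 100000 0 100000 0 0 0 0

lemma s20_21_13_1_2 {n : ℕ} (hn : 6 ≤ n) : NoNd (d20_21_13_1.R : ℤ) d20_21_13_1.H n d20_21_13_1.a d20_21_13_1.b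
    (BlkD.inB (BlkD.upd (fun _ => 0) 0 7)
      (BlkD.upd (BlkD.upd (fun _ => 21) 0 13) 2 1)) :=
  BlkD.tree_sound (BlkD.pairOk_sound k20_21_13_1) (by decide) hn t20_21_13_1_2 _ _ (by decide +kernel)

/-- certificates of the pair `(13, 1)`, part 3 -/
def t20_21_13_1_3 : BlkD.Tr :=
  .E 1

lemma s20_21_13_1_3 {n : ℕ} (hn : 6 ≤ n) : NoNd (d20_21_13_1.R : ℤ) d20_21_13_1.H n d20_21_13_1.a d20_21_13_1.b
    (BlkD.inB (BlkD.upd (fun _ => 0) 2 2)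
      (BlkD.upd (fun _ => 21) 0 13)) :=
  BlkD.tree_sound (BlkD.pairOk_sound k20_21_13_1) (by decide) hn t20_21_13_1_3 _ _ (by decide +kernel)

/-- certificates of the pair `(13, 1)`, part 4 -/
def t20_21_13_1_4 : BlkD.Tr :=
  .E 0

lemma s20_21_13_1_4 {n : ℕ} (hn : 6 ≤ n) : NoNd (d20_21_13_1.R : ℤ) d20_21_13_1.H n d20_21_13_1.a d20_21_13_1.b
    (BlkD.inB (BlkD.upd (fun _ => 0) 0 14)
      (fun _ => 21)) :=
  BlkD.tree_sound (BlkD.pairOk_sound k20_21_13_1) (by decide) hn t20_21_13_1_4 _ _ (by decide +kernel)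

lemma pr20_21_13_1 {n : ℕ} (hn : 6 ≤ n) : NoPr ((20 : ℕ) : ℤ) ((21 : ℕ) : ℤ) n 13 1 :=
  BlkD.of_root (R := d20_21_13_1.R) (H := d20_21_13_1.H) (a := d20_21_13_1.a) (b := d20_21_13_1.b) (q := 4) (by decide) hn
    (BlkD.sp 0 13 (BlkD.sp 2 1 (BlkD.sp 0 6 (s20_21_13_1_1 hn) (s20_21_13_1_2 hn)) (s20_21_13_1_3
      hn)) (s20_21_13_1_4 hn))

/-- the numbers of the pair `(14, 0)`, `R = 20`, `H = 21` -/
def d20_21_14_0 : BlkD.Pd :=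
  ⟨20, 21, 4, 14, 0, 4, 0, 1, 0, 4, 4, 0, 0, 4, 4, 0, [0, 4, 8, 12, 16], [0, 4, 8, 12, 16], [⟨1, 1,
    1, 4, 8, [0, 4], [0, 4]⟩]⟩

/-- the certificates of the pair `(14, 0)` -/
def t20_21_14_0 : BlkD.Tr :=
  .S 0 14 (.S 2 0 (.L 4 4 [4] [] [] 100000 0 0 1500000 100000 0 100000 0 0 0 0) (.E 1)) (.E 0)

lemma pr20_21_14_0 {n : ℕ} (hn : 6 ≤ n) : NoPr ((20 : ℕ) : ℤ) ((21 : ℕ) : ℤ) n 14 0 :=
  BlkD.pair_sound (d := d20_21_14_0) (by decide +kernel) hn (by decide) (tr := t20_21_14_0)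
    (by decide +kernel) rfl rfl rfl rfl

end BlkC

end Pool.Agent.Lib.MP_f04ccf_co
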