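import Pool.Agent.Lib.MP_f04ccf_co.M.BlkT

/-!
MP_f04ccf_co, block certificate, data `R = 20`, `H = 21`, part 4 (generated, helper99:
bd10.cpp, gen2.py).
-/

set_option autoImplicit false
set_option maxRecDepth 100000

namespace Pool.Agent.Lib.MP_f04ccf_co

namespace BlkC

/-- the numbers of the pair `(7, 5)`, `R = 20`, `H = 21` -/
def d20_21_7_5 : BlkD.Pd :=
  ⟨20, 21, 4, 7, 5, 6, 2, 3, 2, 2, 8, 0, 2, 2, 8, 0, [0, 8, 16, 18, 20, 22, 24], [0, 8, 16, 18, 20,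
    22, 24], [⟨1, 1, 1, 4, 8, [0, 4], [0, 4]⟩, ⟨1, 1, 1, 4, 12, [0, 6], [0, 6]⟩, ⟨1, 1, 1, 4, 16,
    [0, 8], [0, 8]⟩]⟩

lemma k20_21_7_5 : BlkD.pairOk d20_21_7_5 = true := by decide +kernel

/-- certificates of the pair `(7, 5)`, part 1 -/
def t20_21_7_5_1 : BlkD.Tr :=
  .L 6 6 [4, 4, 4, 20, 20, 20] [] [] 100000 50000 50000 1050000 100000 0 100000 50000 0 0 0

lemma s20_21_7_5_1 {n : ℕ} (hn : 6 ≤ n) : NoNd (d20_21_7_5.R : ℤ) d20_21_7_5.H n d20_21_7_5.a d20_21_7_5.b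
    (BlkD.inB (fun _ => 0)
      (BlkD.upd (BlkD.upd (BlkD.upd (BlkD.upd (BlkD.upd (fun _ => 21) 0 7) 2 5) 0 3) 0 1) 0 0)) :=
  BlkD.tree_sound (BlkD.pairOk_sound k20_21_7_5) (by decide) hn t20_21_7_5_1 _ _ (by decide +kernel)

/-- certificates of the pair `(7, 5)`, part 2 -/
def t20_21_7_5_2 : BlkD.Tr :=
  .S 1 2 (.L 6 6 [4, 4, 4, 20, 20, 20] [] [] 100000 50000 50000 1050000 100000 0 100000 50000 0 0
    0) (.L 6 6 [4, 4, 4, 20, 20, 20] [] [] 100000 50000 50000 1050000 100000 0 100000 50000 0 0 0)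

lemma s20_21_7_5_2 {n : ℕ} (hn : 6 ≤ n) : NoNd (d20_21_7_5.R : ℤ) d20_21_7_5.H n d20_21_7_5.a d20_21_7_5.b
    (BlkD.inB (BlkD.upd (fun _ => 0) 0 1)
      (BlkD.upd (BlkD.upd (BlkD.upd (BlkD.upd (BlkD.upd (BlkD.upd (fun _ => 21) 0 7) 2 5) 0 3) 0 1) 1 10) 1 5)) :=
  BlkD.tree_sound (BlkD.pairOk_sound k20_21_7_5) (by decide) hn t20_21_7_5_2 _ _ (by decide +kernel)

/-- certificates of the pair `(7, 5)`, part 3 -/
def t20_21_7_5_3 : BlkD.Tr :=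
  .L 6 6 [4, 4, 4, 20, 20, 20] [] [] 100000 50000 50000 1050000 100000 0 100000 50000 0 0 0

lemma s20_21_7_5_3 {n : ℕ} (hn : 6 ≤ n) : NoNd (d20_21_7_5.R : ℤ) d20_21_7_5.H n d20_21_7_5.a d20_21_7_5.b
    (BlkD.inB (BlkD.upd (BlkD.upd (fun _ => 0) 0 1) 1 6)
      (BlkD.upd (BlkD.upd (BlkD.upd (BlkD.upd (BlkD.upd (BlkD.upd (fun _ => 21) 0 7) 2 5) 0 3) 0 1) 1 10) 1 8)) :=
  BlkD.tree_sound (BlkD.pairOk_sound k20_21_7_5) (by decide) hn t20_21_7_5_3 _ _ (by decide +kernel)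

/-- certificates of the pair `(7, 5)`, part 4 -/
def t20_21_7_5_4 : BlkD.Tr :=
  .L 6 6 [4, 4, 4, 20, 20, 20] [] [] 100000 50000 50000 1050000 100000 0 100000 50000 0 0 0

lemma s20_21_7_5_4 {n : ℕ} (hn : 6 ≤ n) : NoNd (d20_21_7_5.R : ℤ) d20_21_7_5.H n d20_21_7_5.a d20_21_7_5.b
    (BlkD.inB (BlkD.upd (BlkD.upd (BlkD.upd (fun _ => 0) 0 1) 1 6) 1 9)
      (BlkD.upd (BlkD.upd (BlkD.upd (BlkD.upd (BlkD.upd (fun _ => 21) 0 7) 2 5) 0 3) 0 1) 1 10)) :=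
  BlkD.tree_sound (BlkD.pairOk_sound k20_21_7_5) (by decide) hn t20_21_7_5_4 _ _ (by decide +kernel)

/-- certificates of the pair `(7, 5)`, part 5 -/
def t20_21_7_5_5 : BlkD.Tr :=
  .L 6 6 [4, 4, 4, 20, 20, 20] [] [] 100000 50000 50000 1050000 100000 0 100000 50000 0 0 0

lemma s20_21_7_5_5 {n : ℕ} (hn : 6 ≤ n) : NoNd (d20_21_7_5.R : ℤ) d20_21_7_5.H n d20_21_7_5.a d20_21_7_5.b
    (BlkD.inB (BlkD.upd (BlkD.upd (fun _ => 0) 0 1) 1 11)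
      (BlkD.upd (BlkD.upd (BlkD.upd (BlkD.upd (fun _ => 21) 0 7) 2 5) 0 3) 0 1)) :=
  BlkD.tree_sound (BlkD.pairOk_sound k20_21_7_5) (by decide) hn t20_21_7_5_5 _ _ (by decide +kernel)

/-- certificates of the pair `(7, 5)`, part 6 -/
def t20_21_7_5_6 : BlkD.Tr :=
  .L 6 6 [4, 4, 4, 20, 20, 20] [] [] 100000 95652 95652 1256523 73913 0 95652 69565 0 4348 0

lemma s20_21_7_5_6 {n : ℕ} (hn : 6 ≤ n) : NoNd (d20_21_7_5.R : ℤ) d20_21_7_5.H n d20_21_7_5.a d20_21_7_5.b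
    (BlkD.inB (BlkD.upd (fun _ => 0) 0 2)
      (BlkD.upd (BlkD.upd (BlkD.upd (BlkD.upd (BlkD.upd (BlkD.upd (fun _ => 21) 0 7) 2 5) 0 3) 0 2) 1 10) 1 5)) :=
  BlkD.tree_sound (BlkD.pairOk_sound k20_21_7_5) (by decide) hn t20_21_7_5_6 _ _ (by decide +kernel)

/-- certificates of the pair `(7, 5)`, part 7 -/
def t20_21_7_5_7 : BlkD.Tr :=
  .S 1 7 (.L 6 6 [4, 4, 4, 20, 20, 20] [] [] 100000 95652 95652 1256523 73913 0 95652 69565 0 4348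
    0) (.L 6 6 [4, 4, 4, 20, 20, 20] [146, 144, 142, 140, 132, 124] [] 100000 95652 95652 1256523
    73913 0 95652 69565 0 4348 0)

lemma s20_21_7_5_7 {n : ℕ} (hn : 6 ≤ n) : NoNd (d20_21_7_5.R : ℤ) d20_21_7_5.H n d20_21_7_5.a d20_21_7_5.b
    (BlkD.inB (BlkD.upd (BlkD.upd (fun _ => 0) 0 2) 1 6)
      (BlkD.upd (BlkD.upd (BlkD.upd (BlkD.upd (BlkD.upd (BlkD.upd (fun _ => 21) 0 7) 2 5) 0 3) 0 2) 1 10) 1 8)) :=
  BlkD.tree_sound (BlkD.pairOk_sound k20_21_7_5) (by decide) hn t20_21_7_5_7 _ _ (by decide +kernel)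

/-- certificates of the pair `(7, 5)`, part 8 -/
def t20_21_7_5_8 : BlkD.Tr :=
  .L 6 6 [4, 4, 4, 20, 20, 20] [] [] 100000 95652 95652 1256523 73913 0 95652 69565 0 4348 0

lemma s20_21_7_5_8 {n : ℕ} (hn : 6 ≤ n) : NoNd (d20_21_7_5.R : ℤ) d20_21_7_5.H n d20_21_7_5.a d20_21_7_5.b
    (BlkD.inB (BlkD.upd (BlkD.upd (BlkD.upd (fun _ => 0) 0 2) 1 6) 1 9)
      (BlkD.upd (BlkD.upd (BlkD.upd (BlkD.upd (BlkD.upd (fun _ => 21) 0 7) 2 5) 0 3) 0 2) 1 10)) :=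
  BlkD.tree_sound (BlkD.pairOk_sound k20_21_7_5) (by decide) hn t20_21_7_5_8 _ _ (by decide +kernel)

/-- certificates of the pair `(7, 5)`, part 9 -/
def t20_21_7_5_9 : BlkD.Tr :=
  .L 6 6 [4, 4, 4, 20, 20, 20] [] [] 100000 95652 95652 1256523 73913 0 95652 69565 0 4348 0

lemma s20_21_7_5_9 {n : ℕ} (hn : 6 ≤ n) : NoNd (d20_21_7_5.R : ℤ) d20_21_7_5.H n d20_21_7_5.a d20_21_7_5.b
    (BlkD.inB (BlkD.upd (BlkD.upd (fun _ => 0) 0 2) 1 11)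
      (BlkD.upd (BlkD.upd (BlkD.upd (BlkD.upd (fun _ => 21) 0 7) 2 5) 0 3) 0 2)) :=
  BlkD.tree_sound (BlkD.pairOk_sound k20_21_7_5) (by decide) hn t20_21_7_5_9 _ _ (by decide +kernel)

/-- certificates of the pair `(7, 5)`, part 10 -/
def t20_21_7_5_10 : BlkD.Tr :=
  .L 6 6 [4, 4, 4, 20, 20, 20] [] [] 100000 13889 13889 1400003 33333 0 66667 66667 0 5556 2778

lemma s20_21_7_5_10 {n : ℕ} (hn : 6 ≤ n) : NoNd (d20_21_7_5.R : ℤ) d20_21_7_5.H n d20_21_7_5.a d20_21_7_5.b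
    (BlkD.inB (BlkD.upd (BlkD.upd (fun _ => 0) 0 2) 0 3)
      (BlkD.upd (BlkD.upd (BlkD.upd (BlkD.upd (BlkD.upd (BlkD.upd (fun _ => 21) 0 7) 2 5) 0 3) 1 18) 1 9) 1 4)) :=
  BlkD.tree_sound (BlkD.pairOk_sound k20_21_7_5) (by decide) hn t20_21_7_5_10 _ _ (by decide +kernel)

/-- certificates of the pair `(7, 5)`, part 11 -/
def t20_21_7_5_11 : BlkD.Tr :=
  .S 1 5 (.L 6 6 [4, 4, 4, 20, 20, 20] [102, 94, 86, 76, 64, 50] [] 100000 6250 6250 1475000 25000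
    0 50000 50000 0 12500 6250) (.S 2 2 (.L 6 6 [4, 4, 4, 20, 20, 20] [120, 118, 110, 102, 92, 80]
    [] 100000 75000 75000 1250000 50000 50000 100000 100000 0 0 0) (.S 2 4 (.L 6 6 [4, 4, 4, 20,
    20, 20] [120, 118, 110, 102, 92, 80] [] 100000 7407 7407 1474078 31481 0 62963 37037 0 16667
    11111) (.L 6 6 [4, 4, 4, 20, 20, 20] [120, 118, 110, 102, 92, 80] [] 100000 0 0 1428574 28571 0
    57143 0 0 28571 14286)))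

lemma s20_21_7_5_11 {n : ℕ} (hn : 6 ≤ n) : NoNd (d20_21_7_5.R : ℤ) d20_21_7_5.H n d20_21_7_5.a d20_21_7_5.b
    (BlkD.inB (BlkD.upd (BlkD.upd (BlkD.upd (fun _ => 0) 0 2) 0 3) 1 5)
      (BlkD.upd (BlkD.upd (BlkD.upd (BlkD.upd (BlkD.upd (BlkD.upd (BlkD.upd (fun _ => 21) 0 7) 2 5) 0 3) 1 18) 1 9) 1 7) 1 6)) :=
  BlkD.tree_sound (BlkD.pairOk_sound k20_21_7_5) (by decide) hn t20_21_7_5_11 _ _ (by decide +kernel)

/-- certificates of the pair `(7, 5)`, part 12 -/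
def t20_21_7_5_12 : BlkD.Tr :=
  .S 2 2 (.L 6 6 [4, 4, 4, 20, 20, 20] [140, 138, 136, 128, 120, 110] [] 100000 83334 83334 1233334
    66667 33333 100000 66667 0 0 0) (.S 2 4 (.L 6 6 [4, 4, 4, 20, 20, 20] [140, 138, 136, 128, 120,
    110] [] 100000 10834 10834 1470004 38333 0 76667 38333 0 16667 8333) (.L 6 6 [4, 4, 4, 20, 20,
    20] [140, 138, 136, 128, 120, 110] [] 100000 0 0 1428574 28571 0 64286 57143 0 28571 14286))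

lemma s20_21_7_5_12 {n : ℕ} (hn : 6 ≤ n) : NoNd (d20_21_7_5.R : ℤ) d20_21_7_5.H n d20_21_7_5.a d20_21_7_5.b
    (BlkD.inB (BlkD.upd (BlkD.upd (BlkD.upd (BlkD.upd (fun _ => 0) 0 2) 0 3) 1 5) 1 7)
      (BlkD.upd (BlkD.upd (BlkD.upd (BlkD.upd (BlkD.upd (BlkD.upd (fun _ => 21) 0 7) 2 5) 0 3) 1 18) 1 9) 1 7)) :=
  BlkD.tree_sound (BlkD.pairOk_sound k20_21_7_5) (by decide) hn t20_21_7_5_12 _ _ (by decide +kernel)

/-- certificates of the pair `(7, 5)`, part 13 -/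
def t20_21_7_5_13 : BlkD.Tr :=
  .S 1 8 (.L 6 6 [4, 4, 4, 20, 20, 20] [162, 160, 158, 156, 148, 140] [] 100000 11291 11291 1470967
    35484 0 87097 51613 0 12903 6452) (.L 6 6 [4, 4, 4, 20, 20, 20] [186, 184, 182, 180, 178, 170]
    [] 100000 50001 50001 1266667 66667 0 100000 33333 0 0 0)

lemma s20_21_7_5_13 {n : ℕ} (hn : 6 ≤ n) : NoNd (d20_21_7_5.R : ℤ) d20_21_7_5.H n d20_21_7_5.a d20_21_7_5.b
    (BlkD.inB (BlkD.upd (BlkD.upd (BlkD.upd (BlkD.upd (fun _ => 0) 0 2) 0 3) 1 5) 1 8)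
      (BlkD.upd (BlkD.upd (BlkD.upd (BlkD.upd (BlkD.upd (fun _ => 21) 0 7) 2 5) 0 3) 1 18) 1 9)) :=
  BlkD.tree_sound (BlkD.pairOk_sound k20_21_7_5) (by decide) hn t20_21_7_5_13 _ _ (by decide +kernel)

/-- certificates of the pair `(7, 5)`, part 14 -/
def t20_21_7_5_14 : BlkD.Tr :=
  .L 6 6 [4, 4, 4, 20, 20, 20] [] [] 100000 10000 10000 1400000 20000 0 100000 50000 0 0 0

lemma s20_21_7_5_14 {n : ℕ} (hn : 6 ≤ n) : NoNd (d20_21_7_5.R : ℤ) d20_21_7_5.H n d20_21_7_5.a d20_21_7_5.b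
    (BlkD.inB (BlkD.upd (BlkD.upd (BlkD.upd (fun _ => 0) 0 2) 0 3) 1 10)
      (BlkD.upd (BlkD.upd (BlkD.upd (BlkD.upd (fun _ => 21) 0 7) 2 5) 0 3) 1 18)) :=
  BlkD.tree_sound (BlkD.pairOk_sound k20_21_7_5) (by decide) hn t20_21_7_5_14 _ _ (by decide +kernel)

/-- certificates of the pair `(7, 5)`, part 15 -/
def t20_21_7_5_15 : BlkD.Tr :=
  .E 0

lemma s20_21_7_5_15 {n : ℕ} (hn : 6 ≤ n) : NoNd (d20_21_7_5.R : ℤ) d20_21_7_5.H n d20_21_7_5.a d20_21_7_5.b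
    (BlkD.inB (BlkD.upd (BlkD.upd (BlkD.upd (fun _ => 0) 0 2) 0 3) 1 19)
      (BlkD.upd (BlkD.upd (BlkD.upd (fun _ => 21) 0 7) 2 5) 0 3)) :=
  BlkD.tree_sound (BlkD.pairOk_sound k20_21_7_5) (by decide) hn t20_21_7_5_15 _ _ (by decide +kernel)

/-- certificates of the pair `(7, 5)`, part 16 -/
def t20_21_7_5_16 : BlkD.Tr :=
  .L 6 6 [4, 4, 4, 20, 20, 20] [] [] 100000 11111 11111 1466668 33333 0 50000 50000 0 11111 5556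

lemma s20_21_7_5_16 {n : ℕ} (hn : 6 ≤ n) : NoNd (d20_21_7_5.R : ℤ) d20_21_7_5.H n d20_21_7_5.a d20_21_7_5.b
    (BlkD.inB (BlkD.upd (fun _ => 0) 0 4)
      (BlkD.upd (BlkD.upd (BlkD.upd (BlkD.upd (BlkD.upd (BlkD.upd (BlkD.upd (fun _ => 21) 0 7) 2 5) 0 5) 0 4) 1 17) 1 8) 1 4)) :=
  BlkD.tree_sound (BlkD.pairOk_sound k20_21_7_5) (by decide) hn t20_21_7_5_16 _ _ (by decide +kernel)

/-- certificates of the pair `(7, 5)`, part 17 -/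
def t20_21_7_5_17 : BlkD.Tr :=
  .S 1 5 (.S 2 2 (.L 6 6 [4, 4, 4, 20, 20, 20] [112, 104, 96, 86, 74, 60] [] 100000 36667 36667
    1390002 30000 30000 78333 65000 1667 5000 0) (.S 2 4 (.S 2 3 (.S 3 9 (.S 3 4 (.S 3 2 (.L 6 6
    [4, 4, 4, 20, 20, 20] [112, 104, 96, 86, 74, 60] [] 100000 0 0 1400000 0 0 0 0 0 0 0) (.S 3 3
    (.L 6 6 [4, 4, 4, 20, 20, 20] [112, 104, 96, 86, 74, 60] [60, 50, 38, 24, 0, 0] 100000 7143
    7143 1450797 17460 15873 33333 22222 0 3175 1587) (.L 6 6 [4, 4, 4, 20, 20, 20] [112, 104, 96,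
    86, 74, 60] [80, 72, 62, 50, 36, 0] 100000 0 0 1494401 17600 17600 76800 74400 4267 18933
    6667))) (.L 6 6 [4, 4, 4, 20, 20, 20] [112, 104, 96, 86, 74, 60] [] 100000 16667 16667 1366668
    33333 0 100000 100000 0 0 0)) (.E 1)) (.L 6 6 [4, 4, 4, 20, 20, 20] [112, 104, 96, 86, 74, 60]
    [] 100000 0 0 1470372 25926 2469 56790 49383 1235 24691 12346)) (.L 6 6 [4, 4, 4, 20, 20, 20]
    [112, 104, 96, 86, 74, 60] [] 100000 1 1 1419356 26882 0 89247 56989 3226 23656 11828))) (.S 2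
    2 (.L 6 6 [4, 4, 4, 20, 20, 20] [132, 130, 122, 114, 104, 92] [] 100000 45604 45604 1374729
    32967 32967 89011 71429 5495 1099 0) (.L 6 6 [4, 4, 4, 20, 20, 20] [132, 130, 122, 114, 104,
    92] [] 100000 10001 10001 1474285 31429 0 94286 37143 5714 5714 2857))

lemma s20_21_7_5_17 {n : ℕ} (hn : 6 ≤ n) : NoNd (d20_21_7_5.R : ℤ) d20_21_7_5.H n d20_21_7_5.a d20_21_7_5.b
    (BlkD.inB (BlkD.upd (BlkD.upd (fun _ => 0) 0 4) 1 5)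
      (BlkD.upd (BlkD.upd (BlkD.upd (BlkD.upd (BlkD.upd (BlkD.upd (BlkD.upd (fun _ => 21) 0 7) 2 5) 0 5) 0 4) 1 17) 1 8) 1 6)) :=
  BlkD.tree_sound (BlkD.pairOk_sound k20_21_7_5) (by decide) hn t20_21_7_5_17 _ _ (by decide +kernel)

/-- certificates of the pair `(7, 5)`, part 18 -/
def t20_21_7_5_18 : BlkD.Tr :=
  .S 1 7 (.S 2 2 (.L 6 6 [4, 4, 4, 20, 20, 20] [154, 152, 150, 142, 134, 124] [] 100000 64286 64286
    1328572 42857 42857 71429 71429 0 0 0) (.L 6 6 [4, 4, 4, 20, 20, 20] [154, 152, 150, 142, 134,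
    124] [] 100000 12766 12766 1455320 36170 0 86170 50000 0 10638 5319)) (.L 6 6 [4, 4, 4, 20, 20,
    20] [178, 176, 174, 172, 164, 156] [] 100000 25000 25000 1350000 50000 0 100000 50000 0 0 0)

lemma s20_21_7_5_18 {n : ℕ} (hn : 6 ≤ n) : NoNd (d20_21_7_5.R : ℤ) d20_21_7_5.H n d20_21_7_5.a d20_21_7_5.b
    (BlkD.inB (BlkD.upd (BlkD.upd (BlkD.upd (fun _ => 0) 0 4) 1 5) 1 7)
      (BlkD.upd (BlkD.upd (BlkD.upd (BlkD.upd (BlkD.upd (BlkD.upd (fun _ => 21) 0 7) 2 5) 0 5) 0 4) 1 17) 1 8)) :=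
  BlkD.tree_sound (BlkD.pairOk_sound k20_21_7_5) (by decide) hn t20_21_7_5_18 _ _ (by decide +kernel)

/-- certificates of the pair `(7, 5)`, part 19 -/
def t20_21_7_5_19 : BlkD.Tr :=
  .L 6 6 [4, 4, 4, 20, 20, 20] [] [] 100000 83333 0 900002 33333 0 183333 50000 0 0 0

lemma s20_21_7_5_19 {n : ℕ} (hn : 6 ≤ n) : NoNd (d20_21_7_5.R : ℤ) d20_21_7_5.H n d20_21_7_5.a d20_21_7_5.b
    (BlkD.inB (BlkD.upd (BlkD.upd (fun _ => 0) 0 4) 1 9)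
      (BlkD.upd (BlkD.upd (BlkD.upd (BlkD.upd (BlkD.upd (fun _ => 21) 0 7) 2 5) 0 5) 0 4) 1 17)) :=
  BlkD.tree_sound (BlkD.pairOk_sound k20_21_7_5) (by decide) hn t20_21_7_5_19 _ _ (by decide +kernel)

/-- certificates of the pair `(7, 5)`, part 20 -/
def t20_21_7_5_20 : BlkD.Tr :=
  .E 0

lemma s20_21_7_5_20 {n : ℕ} (hn : 6 ≤ n) : NoNd (d20_21_7_5.R : ℤ) d20_21_7_5.H n d20_21_7_5.a d20_21_7_5.b
    (BlkD.inB (BlkD.upd (BlkD.upd (fun _ => 0) 0 4) 1 18)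
      (BlkD.upd (BlkD.upd (BlkD.upd (BlkD.upd (fun _ => 21) 0 7) 2 5) 0 5) 0 4)) :=
  BlkD.tree_sound (BlkD.pairOk_sound k20_21_7_5) (by decide) hn t20_21_7_5_20 _ _ (by decide +kernel)

/-- certificates of the pair `(7, 5)`, part 21 -/
def t20_21_7_5_21 : BlkD.Tr :=
  .S 1 16 (.S 1 8 (.S 1 4 (.S 1 2 (.L 6 6 [4, 4, 4, 20, 20, 20] [] [] 100000 20370 20370 1400002
    44444 11111 66667 66667 0 3704 1852) (.S 1 3 (.L 6 6 [4, 4, 4, 20, 20, 20] [72, 62, 50, 36, 0,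
    0] [] 100000 11667 11667 1473333 33333 6667 50000 40000 0 10000 5000) (.S 2 2 (.L 6 6 [4, 4, 4,
    20, 20, 20] [96, 88, 78, 66, 52, 0] [] 100000 21429 21429 1414285 14286 42857 57143 71429 0 0
    0) (.L 6 6 [4, 4, 4, 20, 20, 20] [96, 88, 78, 66, 52, 0] [] 100000 4167 4167 1475002 12500
    12500 87500 75000 1667 2500 1250)))) (.S 1 6 (.S 1 5 (.S 2 2 (.L 6 6 [4, 4, 4, 20, 20, 20]
    [122, 114, 106, 96, 84, 70] [] 100000 8117 8117 1451953 24675 24675 66234 43506 1299 7143 3571)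
    (.L 6 6 [4, 4, 4, 20, 20, 20] [122, 114, 106, 96, 84, 70] [] 100000 10001 10001 1474286 31429 0
    62857 62857 5714 5714 2857)) (.L 6 6 [4, 4, 4, 20, 20, 20] [144, 142, 134, 126, 116, 104] []
    100000 7693 7693 1442308 19231 9615 100000 80769 3846 0 9615)) (.L 6 6 [4, 4, 4, 20, 20, 20] []
    [] 100000 4350 2 1373912 8696 8696 104348 73913 0 0 0))) (.E 0)) (.E 0)

lemma s20_21_7_5_21 {n : ℕ} (hn : 6 ≤ n) : NoNd (d20_21_7_5.R : ℤ) d20_21_7_5.H n d20_21_7_5.a d20_21_7_5.b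
    (BlkD.inB (BlkD.upd (BlkD.upd (fun _ => 0) 0 4) 0 5)
      (BlkD.upd (BlkD.upd (BlkD.upd (fun _ => 21) 0 7) 2 5) 0 5)) :=
  BlkD.tree_sound (BlkD.pairOk_sound k20_21_7_5) (by decide) hn t20_21_7_5_21 _ _ (by decide +kernel)

/-- certificates of the pair `(7, 5)`, part 22 -/
def t20_21_7_5_22 : BlkD.Tr :=
  .S 0 6 (.S 1 15 (.S 1 7 (.L 6 6 [4, 4, 4, 20, 20, 20] [] [] 100000 1621 1621 1494656 3418 19018
    87642 69939 1490 14286 7143) (.E 0)) (.E 0)) (.L 6 6 [4, 4, 4, 20, 20, 20] [] [] 100000 0 0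
    1468750 0 31250 43750 43750 45000 11250 10000)

lemma s20_21_7_5_22 {n : ℕ} (hn : 6 ≤ n) : NoNd (d20_21_7_5.R : ℤ) d20_21_7_5.H n d20_21_7_5.a d20_21_7_5.b
    (BlkD.inB (BlkD.upd (BlkD.upd (fun _ => 0) 0 4) 0 6)
      (BlkD.upd (BlkD.upd (fun _ => 21) 0 7) 2 5)) :=
  BlkD.tree_sound (BlkD.pairOk_sound k20_21_7_5) (by decide) hn t20_21_7_5_22 _ _ (by decide +kernel)

/-- certificates of the pair `(7, 5)`, part 23 -/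
def t20_21_7_5_23 : BlkD.Tr :=
  .E 1

lemma s20_21_7_5_23 {n : ℕ} (hn : 6 ≤ n) : NoNd (d20_21_7_5.R : ℤ) d20_21_7_5.H n d20_21_7_5.a d20_21_7_5.b
    (BlkD.inB (BlkD.upd (fun _ => 0) 2 6)
      (BlkD.upd (fun _ => 21) 0 7)) :=
  BlkD.tree_sound (BlkD.pairOk_sound k20_21_7_5) (by decide) hn t20_21_7_5_23 _ _ (by decide +kernel)

/-- certificates of the pair `(7, 5)`, part 24 -/
def t20_21_7_5_24 : BlkD.Tr :=
  .E 0

lemma s20_21_7_5_24 {n : ℕ} (hn : 6 ≤ n) : NoNd (d20_21_7_5.R : ℤ) d20_21_7_5.H n d20_21_7_5.a d20_21_7_5.b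
    (BlkD.inB (BlkD.upd (fun _ => 0) 0 8)
      (fun _ => 21)) :=
  BlkD.tree_sound (BlkD.pairOk_sound k20_21_7_5) (by decide) hn t20_21_7_5_24 _ _ (by decide +kernel)

lemma pr20_21_7_5 {n : ℕ} (hn : 6 ≤ n) : NoPr ((20 : ℕ) : ℤ) ((21 : ℕ) : ℤ) n 7 5 :=
  BlkD.of_root (R := d20_21_7_5.R) (H := d20_21_7_5.H) (a := d20_21_7_5.a) (b := d20_21_7_5.b) (q := 4) (by decide) hn
    (BlkD.sp 0 7 (BlkD.sp 2 5 (BlkD.sp 0 3 (BlkD.sp 0 1 (BlkD.sp 0 0 (s20_21_7_5_1 hn) (BlkD.sp 1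
      10 (BlkD.sp 1 5 (s20_21_7_5_2 hn) (BlkD.sp 1 8 (s20_21_7_5_3 hn) (s20_21_7_5_4 hn)))
      (s20_21_7_5_5 hn))) (BlkD.sp 0 2 (BlkD.sp 1 10 (BlkD.sp 1 5 (s20_21_7_5_6 hn) (BlkD.sp 1 8
      (s20_21_7_5_7 hn) (s20_21_7_5_8 hn))) (s20_21_7_5_9 hn)) (BlkD.sp 1 18 (BlkD.sp 1 9 (BlkD.sp
      1 4 (s20_21_7_5_10 hn) (BlkD.sp 1 7 (BlkD.sp 1 6 (s20_21_7_5_11 hn) (s20_21_7_5_12 hn))
      (s20_21_7_5_13 hn))) (s20_21_7_5_14 hn)) (s20_21_7_5_15 hn)))) (BlkD.sp 0 5 (BlkD.sp 0 4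
      (BlkD.sp 1 17 (BlkD.sp 1 8 (BlkD.sp 1 4 (s20_21_7_5_16 hn) (BlkD.sp 1 6 (s20_21_7_5_17 hn)
      (s20_21_7_5_18 hn))) (s20_21_7_5_19 hn)) (s20_21_7_5_20 hn)) (s20_21_7_5_21 hn))
      (s20_21_7_5_22 hn))) (s20_21_7_5_23 hn)) (s20_21_7_5_24 hn))

end BlkC

end Pool.Agent.Lib.MP_f04ccf_co
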