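import Pool.Agent.Lib.MP_f04ccf_co.M.BlkT

/-!
MP_f04ccf_co, block certificate, data `R = 20`, `H = 21`, part 5 (generated, helper99:
bd10.cpp, gen2.py).
-/

set_option autoImplicit false
set_option maxRecDepth 100000

namespace Pool.Agent.Lib.MP_f04ccf_co

namespace BlkC

/-- the numbers of the pair `(7, 6)`, `R = 20`, `H = 21` -/
def d20_21_7_6 : BlkD.Pd :=
  ⟨20, 21, 4, 7, 6, 5, 1, 3, 2, 2, 6, 0, 2, 2, 6, 0, [0, 6, 12, 16, 18, 20], [0, 6, 12, 16, 18,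
    20], [⟨1, 1, 1, 4, 8, [0, 4], [0, 4]⟩, ⟨1, 1, 1, 4, 12, [0, 6], [0, 6]⟩]⟩

lemma k20_21_7_6 : BlkD.pairOk d20_21_7_6 = true := by decide +kernel

/-- certificates of the pair `(7, 6)`, part 1 -/
def t20_21_7_6_1 : BlkD.Tr :=
  .L 5 5 [4, 4, 20, 20, 20, 20, 20] [] [] 100000 54054 54054 1286488 70270 18919 78378 45946 0 0 0

lemma s20_21_7_6_1 {n : ℕ} (hn : 6 ≤ n) : NoNd (d20_21_7_6.R : ℤ) d20_21_7_6.H n d20_21_7_6.a d20_21_7_6.b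
    (BlkD.inB (fun _ => 0)
      (BlkD.upd (BlkD.upd (BlkD.upd (BlkD.upd (BlkD.upd (fun _ => 21) 0 7) 2 6) 0 3) 0 1) 0 0)) :=
  BlkD.tree_sound (BlkD.pairOk_sound k20_21_7_6) (by decide) hn t20_21_7_6_1 _ _ (by decide +kernel)

/-- certificates of the pair `(7, 6)`, part 2 -/
def t20_21_7_6_2 : BlkD.Tr :=
  .S 1 2 (.L 5 5 [4, 4, 20, 20, 20, 20, 20] [] [] 100000 54054 54054 1286488 70270 18919 78378
    45946 0 0 0) (.L 5 5 [4, 4, 20, 20, 20, 20, 20] [] [] 100000 54054 54054 1286488 70270 18919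
    78378 45946 0 0 0)

lemma s20_21_7_6_2 {n : ℕ} (hn : 6 ≤ n) : NoNd (d20_21_7_6.R : ℤ) d20_21_7_6.H n d20_21_7_6.a d20_21_7_6.b
    (BlkD.inB (BlkD.upd (fun _ => 0) 0 1)
      (BlkD.upd (BlkD.upd (BlkD.upd (BlkD.upd (BlkD.upd (BlkD.upd (fun _ => 21) 0 7) 2 6) 0 3) 0 1) 1 10) 1 5)) :=
  BlkD.tree_sound (BlkD.pairOk_sound k20_21_7_6) (by decide) hn t20_21_7_6_2 _ _ (by decide +kernel)

/-- certificates of the pair `(7, 6)`, part 3 -/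
def t20_21_7_6_3 : BlkD.Tr :=
  .S 1 7 (.L 5 5 [4, 4, 20, 20, 20, 20, 20] [] [] 100000 54054 54054 1286488 70270 18919 78378
    45946 0 0 0) (.L 5 5 [4, 4, 20, 20, 20, 20, 20] [134, 132, 130, 126, 120, 114] [] 100000 54054
    54054 1286488 70270 18919 78378 45946 0 0 0)

lemma s20_21_7_6_3 {n : ℕ} (hn : 6 ≤ n) : NoNd (d20_21_7_6.R : ℤ) d20_21_7_6.H n d20_21_7_6.a d20_21_7_6.b
    (BlkD.inB (BlkD.upd (BlkD.upd (fun _ => 0) 0 1) 1 6)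
      (BlkD.upd (BlkD.upd (BlkD.upd (BlkD.upd (BlkD.upd (BlkD.upd (fun _ => 21) 0 7) 2 6) 0 3) 0 1) 1 10) 1 8)) :=
  BlkD.tree_sound (BlkD.pairOk_sound k20_21_7_6) (by decide) hn t20_21_7_6_3 _ _ (by decide +kernel)

/-- certificates of the pair `(7, 6)`, part 4 -/
def t20_21_7_6_4 : BlkD.Tr :=
  .L 5 5 [4, 4, 20, 20, 20, 20, 20] [] [] 100000 54054 54054 1286488 70270 18919 78378 45946 0 0 0

lemma s20_21_7_6_4 {n : ℕ} (hn : 6 ≤ n) : NoNd (d20_21_7_6.R : ℤ) d20_21_7_6.H n d20_21_7_6.a d20_21_7_6.b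
    (BlkD.inB (BlkD.upd (BlkD.upd (BlkD.upd (fun _ => 0) 0 1) 1 6) 1 9)
      (BlkD.upd (BlkD.upd (BlkD.upd (BlkD.upd (BlkD.upd (fun _ => 21) 0 7) 2 6) 0 3) 0 1) 1 10)) :=
  BlkD.tree_sound (BlkD.pairOk_sound k20_21_7_6) (by decide) hn t20_21_7_6_4 _ _ (by decide +kernel)

/-- certificates of the pair `(7, 6)`, part 5 -/
def t20_21_7_6_5 : BlkD.Tr :=
  .L 5 5 [4, 4, 20, 20, 20, 20, 20] [] [] 100000 54054 54054 1286488 70270 18919 78378 45946 0 0 0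

lemma s20_21_7_6_5 {n : ℕ} (hn : 6 ≤ n) : NoNd (d20_21_7_6.R : ℤ) d20_21_7_6.H n d20_21_7_6.a d20_21_7_6.b
    (BlkD.inB (BlkD.upd (BlkD.upd (fun _ => 0) 0 1) 1 11)
      (BlkD.upd (BlkD.upd (BlkD.upd (BlkD.upd (fun _ => 21) 0 7) 2 6) 0 3) 0 1)) :=
  BlkD.tree_sound (BlkD.pairOk_sound k20_21_7_6) (by decide) hn t20_21_7_6_5 _ _ (by decide +kernel)

/-- certificates of the pair `(7, 6)`, part 6 -/
def t20_21_7_6_6 : BlkD.Tr :=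
  .L 5 5 [4, 4, 20, 20, 20, 20, 20] [] [] 100000 40000 40000 1500000 60000 0 100000 40000 0 0 0

lemma s20_21_7_6_6 {n : ℕ} (hn : 6 ≤ n) : NoNd (d20_21_7_6.R : ℤ) d20_21_7_6.H n d20_21_7_6.a d20_21_7_6.b
    (BlkD.inB (BlkD.upd (fun _ => 0) 0 2)
      (BlkD.upd (BlkD.upd (BlkD.upd (BlkD.upd (BlkD.upd (BlkD.upd (fun _ => 21) 0 7) 2 6) 0 3) 0 2) 1 10) 1 5)) :=
  BlkD.tree_sound (BlkD.pairOk_sound k20_21_7_6) (by decide) hn t20_21_7_6_6 _ _ (by decide +kernel)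

/-- certificates of the pair `(7, 6)`, part 7 -/
def t20_21_7_6_7 : BlkD.Tr :=
  .S 1 7 (.L 5 5 [4, 4, 20, 20, 20, 20, 20] [] [] 100000 40000 40000 1500000 60000 0 100000 40000 0
    0 0) (.L 5 5 [4, 4, 20, 20, 20, 20, 20] [150, 148, 146, 142, 136, 130] [] 100000 40000 40000
    1500000 60000 0 100000 40000 0 0 0)

lemma s20_21_7_6_7 {n : ℕ} (hn : 6 ≤ n) : NoNd (d20_21_7_6.R : ℤ) d20_21_7_6.H n d20_21_7_6.a d20_21_7_6.b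
    (BlkD.inB (BlkD.upd (BlkD.upd (fun _ => 0) 0 2) 1 6)
      (BlkD.upd (BlkD.upd (BlkD.upd (BlkD.upd (BlkD.upd (BlkD.upd (fun _ => 21) 0 7) 2 6) 0 3) 0 2) 1 10) 1 8)) :=
  BlkD.tree_sound (BlkD.pairOk_sound k20_21_7_6) (by decide) hn t20_21_7_6_7 _ _ (by decide +kernel)

/-- certificates of the pair `(7, 6)`, part 8 -/
def t20_21_7_6_8 : BlkD.Tr :=
  .L 5 5 [4, 4, 20, 20, 20, 20, 20] [] [] 100000 40000 40000 1500000 60000 0 100000 40000 0 0 0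

lemma s20_21_7_6_8 {n : ℕ} (hn : 6 ≤ n) : NoNd (d20_21_7_6.R : ℤ) d20_21_7_6.H n d20_21_7_6.a d20_21_7_6.b
    (BlkD.inB (BlkD.upd (BlkD.upd (BlkD.upd (fun _ => 0) 0 2) 1 6) 1 9)
      (BlkD.upd (BlkD.upd (BlkD.upd (BlkD.upd (BlkD.upd (fun _ => 21) 0 7) 2 6) 0 3) 0 2) 1 10)) :=
  BlkD.tree_sound (BlkD.pairOk_sound k20_21_7_6) (by decide) hn t20_21_7_6_8 _ _ (by decide +kernel)

/-- certificates of the pair `(7, 6)`, part 9 -/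
def t20_21_7_6_9 : BlkD.Tr :=
  .L 5 5 [4, 4, 20, 20, 20, 20, 20] [] [] 100000 40000 40000 1500000 60000 0 100000 40000 0 0 0

lemma s20_21_7_6_9 {n : ℕ} (hn : 6 ≤ n) : NoNd (d20_21_7_6.R : ℤ) d20_21_7_6.H n d20_21_7_6.a d20_21_7_6.b
    (BlkD.inB (BlkD.upd (BlkD.upd (fun _ => 0) 0 2) 1 11)
      (BlkD.upd (BlkD.upd (BlkD.upd (BlkD.upd (fun _ => 21) 0 7) 2 6) 0 3) 0 2)) :=
  BlkD.tree_sound (BlkD.pairOk_sound k20_21_7_6) (by decide) hn t20_21_7_6_9 _ _ (by decide +kernel)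

/-- certificates of the pair `(7, 6)`, part 10 -/
def t20_21_7_6_10 : BlkD.Tr :=
  .L 5 5 [4, 4, 20, 20, 20, 20, 20] [] [] 100000 0 0 1542858 28571 14286 42857 50000 0 0 0

lemma s20_21_7_6_10 {n : ℕ} (hn : 6 ≤ n) : NoNd (d20_21_7_6.R : ℤ) d20_21_7_6.H n d20_21_7_6.a d20_21_7_6.b
    (BlkD.inB (BlkD.upd (BlkD.upd (fun _ => 0) 0 2) 0 3)
      (BlkD.upd (BlkD.upd (BlkD.upd (BlkD.upd (BlkD.upd (BlkD.upd (fun _ => 21) 0 7) 2 6) 0 3) 1 18) 1 9) 1 4)) :=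
  BlkD.tree_sound (BlkD.pairOk_sound k20_21_7_6) (by decide) hn t20_21_7_6_10 _ _ (by decide +kernel)

/-- certificates of the pair `(7, 6)`, part 11 -/
def t20_21_7_6_11 : BlkD.Tr :=
  .S 2 3 (.L 5 5 [4, 4, 20, 20, 20, 20, 20] [104, 98, 92, 80, 64, 50] [] 100000 16666 16666 1455556
    38889 33333 55556 55556 0 0 0) (.L 5 5 [4, 4, 20, 20, 20, 20, 20] [104, 98, 92, 80, 64, 50] []
    100000 0 0 1540000 40000 0 80000 50000 0 0 0)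

lemma s20_21_7_6_11 {n : ℕ} (hn : 6 ≤ n) : NoNd (d20_21_7_6.R : ℤ) d20_21_7_6.H n d20_21_7_6.a d20_21_7_6.b
    (BlkD.inB (BlkD.upd (BlkD.upd (BlkD.upd (fun _ => 0) 0 2) 0 3) 1 5)
      (BlkD.upd (BlkD.upd (BlkD.upd (BlkD.upd (BlkD.upd (BlkD.upd (BlkD.upd (BlkD.upd (fun _ => 21) 0 7) 2 6) 0 3) 1 18) 1 9) 1 7) 1 6) 1 5)) :=
  BlkD.tree_sound (BlkD.pairOk_sound k20_21_7_6) (by decide) hn t20_21_7_6_11 _ _ (by decide +kernel)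

/-- certificates of the pair `(7, 6)`, part 12 -/
def t20_21_7_6_12 : BlkD.Tr :=
  .S 2 3 (.L 5 5 [4, 4, 20, 20, 20, 20, 20] [124, 120, 114, 108, 96, 80] [] 100000 11764 11764
    1470591 47059 23529 70588 52941 0 0 0) (.L 5 5 [4, 4, 20, 20, 20, 20, 20] [124, 120, 114, 108,
    96, 80] [] 100000 0 0 1580000 40000 0 60000 40000 0 0 0)

lemma s20_21_7_6_12 {n : ℕ} (hn : 6 ≤ n) : NoNd (d20_21_7_6.R : ℤ) d20_21_7_6.H n d20_21_7_6.a d20_21_7_6.b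
    (BlkD.inB (BlkD.upd (BlkD.upd (BlkD.upd (BlkD.upd (fun _ => 0) 0 2) 0 3) 1 5) 1 6)
      (BlkD.upd (BlkD.upd (BlkD.upd (BlkD.upd (BlkD.upd (BlkD.upd (BlkD.upd (fun _ => 21) 0 7) 2 6) 0 3) 1 18) 1 9) 1 7) 1 6)) :=
  BlkD.tree_sound (BlkD.pairOk_sound k20_21_7_6) (by decide) hn t20_21_7_6_12 _ _ (by decide +kernel)

/-- certificates of the pair `(7, 6)`, part 13 -/
def t20_21_7_6_13 : BlkD.Tr :=
  .S 2 3 (.L 5 5 [4, 4, 20, 20, 20, 20, 20] [144, 142, 138, 132, 126, 114] [] 100000 14284 14284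
    1485717 42857 28571 71429 57143 0 0 0) (.L 5 5 [4, 4, 20, 20, 20, 20, 20] [144, 142, 138, 132,
    126, 114] [] 100000 0 0 1580000 40000 0 60000 60000 0 0 0)

lemma s20_21_7_6_13 {n : ℕ} (hn : 6 ≤ n) : NoNd (d20_21_7_6.R : ℤ) d20_21_7_6.H n d20_21_7_6.a d20_21_7_6.b
    (BlkD.inB (BlkD.upd (BlkD.upd (BlkD.upd (BlkD.upd (fun _ => 0) 0 2) 0 3) 1 5) 1 7)
      (BlkD.upd (BlkD.upd (BlkD.upd (BlkD.upd (BlkD.upd (BlkD.upd (fun _ => 21) 0 7) 2 6) 0 3) 1 18) 1 9) 1 7)) :=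
  BlkD.tree_sound (BlkD.pairOk_sound k20_21_7_6) (by decide) hn t20_21_7_6_13 _ _ (by decide +kernel)

/-- certificates of the pair `(7, 6)`, part 14 -/
def t20_21_7_6_14 : BlkD.Tr :=
  .S 1 8 (.L 5 5 [4, 4, 20, 20, 20, 20, 20] [166, 164, 162, 158, 152, 146] [] 100000 0 0 1550000
    50000 0 100000 50000 0 0 0) (.L 5 5 [4, 4, 20, 20, 20, 20, 20] [190, 188, 186, 184, 180, 174]
    [] 100000 0 0 1500000 50000 0 100000 50000 0 0 0)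

lemma s20_21_7_6_14 {n : ℕ} (hn : 6 ≤ n) : NoNd (d20_21_7_6.R : ℤ) d20_21_7_6.H n d20_21_7_6.a d20_21_7_6.b
    (BlkD.inB (BlkD.upd (BlkD.upd (BlkD.upd (BlkD.upd (fun _ => 0) 0 2) 0 3) 1 5) 1 8)
      (BlkD.upd (BlkD.upd (BlkD.upd (BlkD.upd (BlkD.upd (fun _ => 21) 0 7) 2 6) 0 3) 1 18) 1 9)) :=
  BlkD.tree_sound (BlkD.pairOk_sound k20_21_7_6) (by decide) hn t20_21_7_6_14 _ _ (by decide +kernel)

/-- certificates of the pair `(7, 6)`, part 15 -/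
def t20_21_7_6_15 : BlkD.Tr :=
  .L 5 5 [4, 4, 20, 20, 20, 20, 20] [] [] 100000 0 0 1533336 33333 0 100000 33333 0 0 0

lemma s20_21_7_6_15 {n : ℕ} (hn : 6 ≤ n) : NoNd (d20_21_7_6.R : ℤ) d20_21_7_6.H n d20_21_7_6.a d20_21_7_6.b
    (BlkD.inB (BlkD.upd (BlkD.upd (BlkD.upd (fun _ => 0) 0 2) 0 3) 1 10)
      (BlkD.upd (BlkD.upd (BlkD.upd (BlkD.upd (fun _ => 21) 0 7) 2 6) 0 3) 1 18)) :=
  BlkD.tree_sound (BlkD.pairOk_sound k20_21_7_6) (by decide) hn t20_21_7_6_15 _ _ (by decide +kernel)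

/-- certificates of the pair `(7, 6)`, part 16 -/
def t20_21_7_6_16 : BlkD.Tr :=
  .E 0

lemma s20_21_7_6_16 {n : ℕ} (hn : 6 ≤ n) : NoNd (d20_21_7_6.R : ℤ) d20_21_7_6.H n d20_21_7_6.a d20_21_7_6.b
    (BlkD.inB (BlkD.upd (BlkD.upd (BlkD.upd (fun _ => 0) 0 2) 0 3) 1 19)
      (BlkD.upd (BlkD.upd (BlkD.upd (fun _ => 21) 0 7) 2 6) 0 3)) :=
  BlkD.tree_sound (BlkD.pairOk_sound k20_21_7_6) (by decide) hn t20_21_7_6_16 _ _ (by decide +kernel)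

/-- certificates of the pair `(7, 6)`, part 17 -/
def t20_21_7_6_17 : BlkD.Tr :=
  .L 5 5 [4, 4, 20, 20, 20, 20, 20] [] [] 100000 0 0 1578950 26316 15789 63158 68421 0 0 0

lemma s20_21_7_6_17 {n : ℕ} (hn : 6 ≤ n) : NoNd (d20_21_7_6.R : ℤ) d20_21_7_6.H n d20_21_7_6.a d20_21_7_6.b
    (BlkD.inB (BlkD.upd (fun _ => 0) 0 4)
      (BlkD.upd (BlkD.upd (BlkD.upd (BlkD.upd (BlkD.upd (BlkD.upd (BlkD.upd (fun _ => 21) 0 7) 2 6) 0 5) 0 4) 1 17) 1 8) 1 4)) :=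
  BlkD.tree_sound (BlkD.pairOk_sound k20_21_7_6) (by decide) hn t20_21_7_6_17 _ _ (by decide +kernel)

/-- certificates of the pair `(7, 6)`, part 18 -/
def t20_21_7_6_18 : BlkD.Tr :=
  .S 1 5 (.S 2 3 (.L 5 5 [4, 4, 20, 20, 20, 20, 20] [114, 108, 102, 90, 74, 60] [] 100000 100000
    100000 1455000 45000 40000 75000 70000 0 0 0) (.L 5 5 [4, 4, 20, 20, 20, 20, 20] [114, 108,
    102, 90, 74, 60] [] 100000 0 0 1580000 40000 0 80000 80000 0 0 0)) (.S 2 3 (.L 5 5 [4, 4, 20,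
    20, 20, 20, 20] [136, 132, 126, 120, 108, 92] [] 100000 33331 33331 1500003 33333 33333 100000
    66667 0 0 0) (.S 2 5 (.L 5 5 [4, 4, 20, 20, 20, 20, 20] [136, 132, 126, 120, 108, 92] [] 100000
    0 0 1550000 50000 0 100000 50000 0 0 0) (.L 5 5 [4, 4, 20, 20, 20, 20, 20] [136, 132, 126, 120,
    108, 92] [] 100000 0 0 1500000 40000 0 100000 20000 0 0 0)))

lemma s20_21_7_6_18 {n : ℕ} (hn : 6 ≤ n) : NoNd (d20_21_7_6.R : ℤ) d20_21_7_6.H n d20_21_7_6.a d20_21_7_6.b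
    (BlkD.inB (BlkD.upd (BlkD.upd (fun _ => 0) 0 4) 1 5)
      (BlkD.upd (BlkD.upd (BlkD.upd (BlkD.upd (BlkD.upd (BlkD.upd (BlkD.upd (fun _ => 21) 0 7) 2 6) 0 5) 0 4) 1 17) 1 8) 1 6)) :=
  BlkD.tree_sound (BlkD.pairOk_sound k20_21_7_6) (by decide) hn t20_21_7_6_18 _ _ (by decide +kernel)

/-- certificates of the pair `(7, 6)`, part 19 -/
def t20_21_7_6_19 : BlkD.Tr :=
  .S 1 7 (.S 2 3 (.L 5 5 [4, 4, 20, 20, 20, 20, 20] [158, 156, 152, 146, 140, 128] [] 100000 77775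
    77775 1444448 44444 33333 88889 77778 0 0 0) (.L 5 5 [4, 4, 20, 20, 20, 20, 20] [158, 156, 152,
    146, 140, 128] [] 100000 0 0 1500000 50000 0 100000 50000 0 0 0)) (.L 5 5 [4, 4, 20, 20, 20,
    20, 20] [182, 180, 178, 174, 168, 162] [] 100000 66668 66668 1466667 66667 0 100000 33333 0 0
    0)

lemma s20_21_7_6_19 {n : ℕ} (hn : 6 ≤ n) : NoNd (d20_21_7_6.R : ℤ) d20_21_7_6.H n d20_21_7_6.a d20_21_7_6.b
    (BlkD.inB (BlkD.upd (BlkD.upd (BlkD.upd (fun _ => 0) 0 4) 1 5) 1 7)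
      (BlkD.upd (BlkD.upd (BlkD.upd (BlkD.upd (BlkD.upd (BlkD.upd (fun _ => 21) 0 7) 2 6) 0 5) 0 4) 1 17) 1 8)) :=
  BlkD.tree_sound (BlkD.pairOk_sound k20_21_7_6) (by decide) hn t20_21_7_6_19 _ _ (by decide +kernel)

/-- certificates of the pair `(7, 6)`, part 20 -/
def t20_21_7_6_20 : BlkD.Tr :=
  .L 5 5 [4, 4, 20, 20, 20, 20, 20] [] [] 100000 35000 0 1325000 15000 25000 135000 75000 0 0 0

lemma s20_21_7_6_20 {n : ℕ} (hn : 6 ≤ n) : NoNd (d20_21_7_6.R : ℤ) d20_21_7_6.H n d20_21_7_6.a d20_21_7_6.b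
    (BlkD.inB (BlkD.upd (BlkD.upd (fun _ => 0) 0 4) 1 9)
      (BlkD.upd (BlkD.upd (BlkD.upd (BlkD.upd (BlkD.upd (fun _ => 21) 0 7) 2 6) 0 5) 0 4) 1 17)) :=
  BlkD.tree_sound (BlkD.pairOk_sound k20_21_7_6) (by decide) hn t20_21_7_6_20 _ _ (by decide +kernel)

/-- certificates of the pair `(7, 6)`, part 21 -/
def t20_21_7_6_21 : BlkD.Tr :=
  .E 0

lemma s20_21_7_6_21 {n : ℕ} (hn : 6 ≤ n) : NoNd (d20_21_7_6.R : ℤ) d20_21_7_6.H n d20_21_7_6.a d20_21_7_6.b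
    (BlkD.inB (BlkD.upd (BlkD.upd (fun _ => 0) 0 4) 1 18)
      (BlkD.upd (BlkD.upd (BlkD.upd (BlkD.upd (fun _ => 21) 0 7) 2 6) 0 5) 0 4)) :=
  BlkD.tree_sound (BlkD.pairOk_sound k20_21_7_6) (by decide) hn t20_21_7_6_21 _ _ (by decide +kernel)

/-- certificates of the pair `(7, 6)`, part 22 -/
def t20_21_7_6_22 : BlkD.Tr :=
  .S 1 16 (.S 1 8 (.S 1 4 (.S 1 2 (.L 5 5 [4, 4, 20, 20, 20, 20, 20] [] [] 100000 0 0 1540000 40000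
    20000 60000 40000 0 0 0) (.S 1 3 (.L 5 5 [4, 4, 20, 20, 20, 20, 20] [78, 66, 50, 36, 0, 0] []
    100000 1 1 1566667 33333 16667 58333 66667 0 0 0) (.S 2 3 (.L 5 5 [4, 4, 20, 20, 20, 20, 20]
    [100, 94, 82, 66, 52, 0] [] 100000 0 0 1557145 28571 28571 71429 46429 0 0 0) (.L 5 5 [4, 4,
    20, 20, 20, 20, 20] [100, 94, 82, 66, 52, 0] [] 100000 0 0 1577779 33333 11111 66667 66667 0 0
    0)))) (.S 1 6 (.S 1 5 (.S 2 3 (.L 5 5 [4, 4, 20, 20, 20, 20, 20] [124, 118, 112, 100, 84, 70]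
    [] 100000 0 0 1550000 25000 25000 62500 75000 0 0 0) (.S 2 5 (.S 2 4 (.L 5 5 [4, 4, 20, 20, 20,
    20, 20] [124, 118, 112, 100, 84, 70] [] 100000 0 0 1588890 22222 22222 61111 48148 0 0 0) (.L 5
    5 [4, 4, 20, 20, 20, 20, 20] [124, 118, 112, 100, 84, 70] [] 100000 0 0 1560000 40000 0 70000
    60000 0 0 0)) (.L 5 5 [4, 4, 20, 20, 20, 20, 20] [124, 118, 112, 100, 84, 70] [] 100000 0 0
    1520000 40000 0 90000 0 0 0 0))) (.S 2 3 (.L 5 5 [4, 4, 20, 20, 20, 20, 20] [148, 144, 138,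
    132, 120, 104] [] 100000 0 0 1550000 12500 50000 50000 75000 0 0 0) (.L 5 5 [4, 4, 20, 20, 20,
    20, 20] [148, 144, 138, 132, 120, 104] [] 100000 0 0 1550001 50000 0 83333 50000 0 0 0))) (.L 5
    5 [4, 4, 20, 20, 20, 20, 20] [] [] 100000 2 2 1533333 20000 6667 100000 86667 0 0 0))) (.E 0))
    (.E 0)

lemma s20_21_7_6_22 {n : ℕ} (hn : 6 ≤ n) : NoNd (d20_21_7_6.R : ℤ) d20_21_7_6.H n d20_21_7_6.a d20_21_7_6.b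
    (BlkD.inB (BlkD.upd (BlkD.upd (fun _ => 0) 0 4) 0 5)
      (BlkD.upd (BlkD.upd (BlkD.upd (fun _ => 21) 0 7) 2 6) 0 5)) :=
  BlkD.tree_sound (BlkD.pairOk_sound k20_21_7_6) (by decide) hn t20_21_7_6_22 _ _ (by decide +kernel)

/-- certificates of the pair `(7, 6)`, part 23 -/
def t20_21_7_6_23 : BlkD.Tr :=
  .S 0 6 (.S 1 15 (.S 1 7 (.S 1 3 (.L 5 5 [4, 4, 20, 20, 20, 20, 20] [] [] 100000 0 0 1588890 22222
    22222 48148 51852 0 0 0) (.L 5 5 [4, 4, 20, 20, 20, 20, 20] [] [] 100000 1 1 1585715 7143 25000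
    53571 50000 0 0 0)) (.E 0)) (.E 0)) (.L 5 5 [4, 4, 20, 20, 20, 20, 20] [] [] 100000 0 0 1566668
    0 33333 33333 44444 0 0 0)

lemma s20_21_7_6_23 {n : ℕ} (hn : 6 ≤ n) : NoNd (d20_21_7_6.R : ℤ) d20_21_7_6.H n d20_21_7_6.a d20_21_7_6.b
    (BlkD.inB (BlkD.upd (BlkD.upd (fun _ => 0) 0 4) 0 6)
      (BlkD.upd (BlkD.upd (fun _ => 21) 0 7) 2 6)) :=
  BlkD.tree_sound (BlkD.pairOk_sound k20_21_7_6) (by decide) hn t20_21_7_6_23 _ _ (by decide +kernel)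

/-- certificates of the pair `(7, 6)`, part 24 -/
def t20_21_7_6_24 : BlkD.Tr :=
  .E 1

lemma s20_21_7_6_24 {n : ℕ} (hn : 6 ≤ n) : NoNd (d20_21_7_6.R : ℤ) d20_21_7_6.H n d20_21_7_6.a d20_21_7_6.b
    (BlkD.inB (BlkD.upd (fun _ => 0) 2 7)
      (BlkD.upd (fun _ => 21) 0 7)) :=
  BlkD.tree_sound (BlkD.pairOk_sound k20_21_7_6) (by decide) hn t20_21_7_6_24 _ _ (by decide +kernel)

/-- certificates of the pair `(7, 6)`, part 25 -/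
def t20_21_7_6_25 : BlkD.Tr :=
  .E 0

lemma s20_21_7_6_25 {n : ℕ} (hn : 6 ≤ n) : NoNd (d20_21_7_6.R : ℤ) d20_21_7_6.H n d20_21_7_6.a d20_21_7_6.b
    (BlkD.inB (BlkD.upd (fun _ => 0) 0 8)
      (fun _ => 21)) :=
  BlkD.tree_sound (BlkD.pairOk_sound k20_21_7_6) (by decide) hn t20_21_7_6_25 _ _ (by decide +kernel)

lemma pr20_21_7_6 {n : ℕ} (hn : 6 ≤ n) : NoPr ((20 : ℕ) : ℤ) ((21 : ℕ) : ℤ) n 7 6 :=
  BlkD.of_root (R := d20_21_7_6.R) (H := d20_21_7_6.H) (a := d20_21_7_6.a) (b := d20_21_7_6.b) (q := 4) (by decide) hn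
    (BlkD.sp 0 7 (BlkD.sp 2 6 (BlkD.sp 0 3 (BlkD.sp 0 1 (BlkD.sp 0 0 (s20_21_7_6_1 hn) (BlkD.sp 1
      10 (BlkD.sp 1 5 (s20_21_7_6_2 hn) (BlkD.sp 1 8 (s20_21_7_6_3 hn) (s20_21_7_6_4 hn)))
      (s20_21_7_6_5 hn))) (BlkD.sp 0 2 (BlkD.sp 1 10 (BlkD.sp 1 5 (s20_21_7_6_6 hn) (BlkD.sp 1 8
      (s20_21_7_6_7 hn) (s20_21_7_6_8 hn))) (s20_21_7_6_9 hn)) (BlkD.sp 1 18 (BlkD.sp 1 9 (BlkD.sp
      1 4 (s20_21_7_6_10 hn) (BlkD.sp 1 7 (BlkD.sp 1 6 (BlkD.sp 1 5 (s20_21_7_6_11 hn)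
      (s20_21_7_6_12 hn)) (s20_21_7_6_13 hn)) (s20_21_7_6_14 hn))) (s20_21_7_6_15 hn))
      (s20_21_7_6_16 hn)))) (BlkD.sp 0 5 (BlkD.sp 0 4 (BlkD.sp 1 17 (BlkD.sp 1 8 (BlkD.sp 1 4
      (s20_21_7_6_17 hn) (BlkD.sp 1 6 (s20_21_7_6_18 hn) (s20_21_7_6_19 hn))) (s20_21_7_6_20 hn))
      (s20_21_7_6_21 hn)) (s20_21_7_6_22 hn)) (s20_21_7_6_23 hn))) (s20_21_7_6_24 hn))
      (s20_21_7_6_25 hn))

end BlkC

end Pool.Agent.Lib.MP_f04ccf_co
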