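import Pool.Agent.Lib.MP_f04ccf_co.M.BlkT

/-!
MP_f04ccf_co, block certificate, data `R = 20`, `H = 21`, part 7 (generated, helper99:
bd10.cpp, gen2.py).
-/

set_option autoImplicit false
set_option maxRecDepth 100000

namespace Pool.Agent.Lib.MP_f04ccf_co

namespace BlkC

/-- the numbers of the pair `(8, 1)`, `R = 20`, `H = 21` -/
def d20_21_8_1 : BlkD.Pd :=
  ⟨20, 21, 4, 8, 1, 9, 1, 1, 0, 4, 8, 0, 0, 4, 4, 0, [0, 8, 16, 24, 32, 36, 36, 36, 36, 36], [0, 4,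
    8, 12, 16, 20, 24, 28, 32, 36], [⟨1, 1, 1, 4, 8, [0, 4], [0, 4]⟩, ⟨1, 1, 1, 4, 12, [0, 8], [0,
    4]⟩]⟩

lemma k20_21_8_1 : BlkD.pairOk d20_21_8_1 = true := by decide +kernel

/-- certificates of the pair `(8, 1)`, part 1 -/
def t20_21_8_1_1 : BlkD.Tr :=
  .S 0 1 (.L 4 5 [4, 4] [] [] 100000 17392 0 943477 58696 0 80435 0 0 0 0) (.L 4 5 [4, 4] [] []
    100000 17392 0 943477 58696 0 80435 0 0 0 0)

lemma s20_21_8_1_1 {n : ℕ} (hn : 6 ≤ n) : NoNd (d20_21_8_1.R : ℤ) d20_21_8_1.H n d20_21_8_1.a d20_21_8_1.b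
    (BlkD.inB (fun _ => 0)
      (BlkD.upd (BlkD.upd (BlkD.upd (BlkD.upd (fun _ => 21) 0 8) 2 1) 0 4) 0 2)) :=
  BlkD.tree_sound (BlkD.pairOk_sound k20_21_8_1) (by decide) hn t20_21_8_1_1 _ _ (by decide +kernel)

/-- certificates of the pair `(8, 1)`, part 2 -/
def t20_21_8_1_2 : BlkD.Tr :=
  .L 4 5 [4, 4] [] [] 100000 17392 0 943477 58696 0 80435 0 0 0 0

lemma s20_21_8_1_2 {n : ℕ} (hn : 6 ≤ n) : NoNd (d20_21_8_1.R : ℤ) d20_21_8_1.H n d20_21_8_1.a d20_21_8_1.b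
    (BlkD.inB (BlkD.upd (fun _ => 0) 0 3)
      (BlkD.upd (BlkD.upd (BlkD.upd (fun _ => 21) 0 8) 2 1) 0 4)) :=
  BlkD.tree_sound (BlkD.pairOk_sound k20_21_8_1) (by decide) hn t20_21_8_1_2 _ _ (by decide +kernel)

/-- certificates of the pair `(8, 1)`, part 3 -/
def t20_21_8_1_3 : BlkD.Tr :=
  .L 4 5 [4, 4] [] [] 100000 0 0 1175000 25000 0 75000 0 0 0 0

lemma s20_21_8_1_3 {n : ℕ} (hn : 6 ≤ n) : NoNd (d20_21_8_1.R : ℤ) d20_21_8_1.H n d20_21_8_1.a d20_21_8_1.b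
    (BlkD.inB (BlkD.upd (fun _ => 0) 0 5)
      (BlkD.upd (BlkD.upd (fun _ => 21) 0 8) 2 1)) :=
  BlkD.tree_sound (BlkD.pairOk_sound k20_21_8_1) (by decide) hn t20_21_8_1_3 _ _ (by decide +kernel)

/-- certificates of the pair `(8, 1)`, part 4 -/
def t20_21_8_1_4 : BlkD.Tr :=
  .E 1

lemma s20_21_8_1_4 {n : ℕ} (hn : 6 ≤ n) : NoNd (d20_21_8_1.R : ℤ) d20_21_8_1.H n d20_21_8_1.a d20_21_8_1.b
    (BlkD.inB (BlkD.upd (fun _ => 0) 2 2)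
      (BlkD.upd (fun _ => 21) 0 8)) :=
  BlkD.tree_sound (BlkD.pairOk_sound k20_21_8_1) (by decide) hn t20_21_8_1_4 _ _ (by decide +kernel)

/-- certificates of the pair `(8, 1)`, part 5 -/
def t20_21_8_1_5 : BlkD.Tr :=
  .E 0

lemma s20_21_8_1_5 {n : ℕ} (hn : 6 ≤ n) : NoNd (d20_21_8_1.R : ℤ) d20_21_8_1.H n d20_21_8_1.a d20_21_8_1.b
    (BlkD.inB (BlkD.upd (fun _ => 0) 0 9)
      (fun _ => 21)) :=
  BlkD.tree_sound (BlkD.pairOk_sound k20_21_8_1) (by decide) hn t20_21_8_1_5 _ _ (by decide +kernel)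

lemma pr20_21_8_1 {n : ℕ} (hn : 6 ≤ n) : NoPr ((20 : ℕ) : ℤ) ((21 : ℕ) : ℤ) n 8 1 :=
  BlkD.of_root (R := d20_21_8_1.R) (H := d20_21_8_1.H) (a := d20_21_8_1.a) (b := d20_21_8_1.b) (q := 4) (by decide) hn
    (BlkD.sp 0 8 (BlkD.sp 2 1 (BlkD.sp 0 4 (BlkD.sp 0 2 (s20_21_8_1_1 hn) (s20_21_8_1_2 hn))
      (s20_21_8_1_3 hn)) (s20_21_8_1_4 hn)) (s20_21_8_1_5 hn))

/-- the numbers of the pair `(8, 2)`, `R = 20`, `H = 21` -/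
def d20_21_8_2 : BlkD.Pd :=
  ⟨20, 21, 4, 8, 2, 8, 2, 2, 0, 4, 10, 0, 3, 1, 6, 0, [0, 10, 20, 30, 32, 32, 32, 32, 32], [0, 6,
    12, 17, 20, 23, 26, 29, 32], [⟨1, 1, 1, 4, 8, [0, 4], [0, 4]⟩, ⟨1, 1, 1, 4, 12, [0, 8], [0,
    4]⟩, ⟨2, 1, 1, 6, 16, [0, 10, 10], [0, 6]⟩]⟩

lemma k20_21_8_2 : BlkD.pairOk d20_21_8_2 = true := by decide +kernel

/-- certificates of the pair `(8, 2)`, part 1 -/
def t20_21_8_2_1 : BlkD.Tr :=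
  .L 4 7 [4, 4, 4] [] [] 100000 50000 0 600000 100000 0 100000 0 0 0 0

lemma s20_21_8_2_1 {n : ℕ} (hn : 6 ≤ n) : NoNd (d20_21_8_2.R : ℤ) d20_21_8_2.H n d20_21_8_2.a d20_21_8_2.b
    (BlkD.inB (fun _ => 0)
      (BlkD.upd (BlkD.upd (BlkD.upd (BlkD.upd (BlkD.upd (BlkD.upd (fun _ => 21) 0 8) 2 2) 0 4) 0 2) 0 1) 0 0)) :=
  BlkD.tree_sound (BlkD.pairOk_sound k20_21_8_2) (by decide) hn t20_21_8_2_1 _ _ (by decide +kernel)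

/-- certificates of the pair `(8, 2)`, part 2 -/
def t20_21_8_2_2 : BlkD.Tr :=
  .S 1 5 (.L 4 7 [4, 4, 4] [] [] 100000 50000 0 600000 100000 0 100000 0 0 0 0) (.L 4 7 [4, 4, 4]
    [] [] 100000 50000 0 600000 100000 0 100000 0 0 0 0)

lemma s20_21_8_2_2 {n : ℕ} (hn : 6 ≤ n) : NoNd (d20_21_8_2.R : ℤ) d20_21_8_2.H n d20_21_8_2.a d20_21_8_2.b
    (BlkD.inB (BlkD.upd (fun _ => 0) 0 1)
      (BlkD.upd (BlkD.upd (BlkD.upd (BlkD.upd (BlkD.upd (BlkD.upd (fun _ => 21) 0 8) 2 2) 0 4) 0 2) 0 1) 1 10)) :=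
  BlkD.tree_sound (BlkD.pairOk_sound k20_21_8_2) (by decide) hn t20_21_8_2_2 _ _ (by decide +kernel)

/-- certificates of the pair `(8, 2)`, part 3 -/
def t20_21_8_2_3 : BlkD.Tr :=
  .L 4 7 [4, 4, 4] [] [] 100000 50000 0 600000 100000 0 100000 0 0 0 0

lemma s20_21_8_2_3 {n : ℕ} (hn : 6 ≤ n) : NoNd (d20_21_8_2.R : ℤ) d20_21_8_2.H n d20_21_8_2.a d20_21_8_2.b
    (BlkD.inB (BlkD.upd (BlkD.upd (fun _ => 0) 0 1) 1 11)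
      (BlkD.upd (BlkD.upd (BlkD.upd (BlkD.upd (BlkD.upd (fun _ => 21) 0 8) 2 2) 0 4) 0 2) 0 1)) :=
  BlkD.tree_sound (BlkD.pairOk_sound k20_21_8_2) (by decide) hn t20_21_8_2_3 _ _ (by decide +kernel)

/-- certificates of the pair `(8, 2)`, part 4 -/
def t20_21_8_2_4 : BlkD.Tr :=
  .L 4 7 [4, 4, 4] [] [] 100000 50000 0 600000 100000 0 100000 0 0 0 0

lemma s20_21_8_2_4 {n : ℕ} (hn : 6 ≤ n) : NoNd (d20_21_8_2.R : ℤ) d20_21_8_2.H n d20_21_8_2.a d20_21_8_2.b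
    (BlkD.inB (BlkD.upd (fun _ => 0) 0 2)
      (BlkD.upd (BlkD.upd (BlkD.upd (BlkD.upd (BlkD.upd (BlkD.upd (fun _ => 21) 0 8) 2 2) 0 4) 0 2) 1 10) 1 5)) :=
  BlkD.tree_sound (BlkD.pairOk_sound k20_21_8_2) (by decide) hn t20_21_8_2_4 _ _ (by decide +kernel)

/-- certificates of the pair `(8, 2)`, part 5 -/
def t20_21_8_2_5 : BlkD.Tr :=
  .L 4 7 [4, 4, 4] [] [] 100000 50000 0 600000 100000 0 100000 0 0 0 0

lemma s20_21_8_2_5 {n : ℕ} (hn : 6 ≤ n) : NoNd (d20_21_8_2.R : ℤ) d20_21_8_2.H n d20_21_8_2.a d20_21_8_2.b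
    (BlkD.inB (BlkD.upd (BlkD.upd (fun _ => 0) 0 2) 1 6)
      (BlkD.upd (BlkD.upd (BlkD.upd (BlkD.upd (BlkD.upd (fun _ => 21) 0 8) 2 2) 0 4) 0 2) 1 10)) :=
  BlkD.tree_sound (BlkD.pairOk_sound k20_21_8_2) (by decide) hn t20_21_8_2_5 _ _ (by decide +kernel)

/-- certificates of the pair `(8, 2)`, part 6 -/
def t20_21_8_2_6 : BlkD.Tr :=
  .L 4 7 [4, 4, 4] [] [] 100000 50000 0 600000 100000 0 100000 0 0 0 0

lemma s20_21_8_2_6 {n : ℕ} (hn : 6 ≤ n) : NoNd (d20_21_8_2.R : ℤ) d20_21_8_2.H n d20_21_8_2.a d20_21_8_2.b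
    (BlkD.inB (BlkD.upd (BlkD.upd (fun _ => 0) 0 2) 1 11)
      (BlkD.upd (BlkD.upd (BlkD.upd (BlkD.upd (fun _ => 21) 0 8) 2 2) 0 4) 0 2)) :=
  BlkD.tree_sound (BlkD.pairOk_sound k20_21_8_2) (by decide) hn t20_21_8_2_6 _ _ (by decide +kernel)

/-- certificates of the pair `(8, 2)`, part 7 -/
def t20_21_8_2_7 : BlkD.Tr :=
  .S 1 10 (.S 1 5 (.L 4 7 [4, 4, 4] [] [] 100000 100000 100000 800000 100000 0 100000 0 0 0 0) (.L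
    4 7 [4, 4, 4] [] [] 100000 100000 100000 800000 100000 0 100000 0 0 0 0)) (.L 4 7 [4, 4, 4] []
    [] 100000 100000 100000 800000 100000 0 100000 0 0 0 0)

lemma s20_21_8_2_7 {n : ℕ} (hn : 6 ≤ n) : NoNd (d20_21_8_2.R : ℤ) d20_21_8_2.H n d20_21_8_2.a d20_21_8_2.b
    (BlkD.inB (BlkD.upd (fun _ => 0) 0 3)
      (BlkD.upd (BlkD.upd (BlkD.upd (BlkD.upd (fun _ => 21) 0 8) 2 2) 0 4) 0 3)) :=
  BlkD.tree_sound (BlkD.pairOk_sound k20_21_8_2) (by decide) hn t20_21_8_2_7 _ _ (by decide +kernel)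

/-- certificates of the pair `(8, 2)`, part 8 -/
def t20_21_8_2_8 : BlkD.Tr :=
  .S 1 17 (.S 1 8 (.L 4 7 [4, 4, 4] [] [] 100000 1 1 1233336 33333 0 33333 33333 0 33333 33333) (.L
    4 7 [4, 4, 4] [] [] 100000 12500 12500 1225000 25000 0 100000 25000 0 25000 25000)) (.E 0)

lemma s20_21_8_2_8 {n : ℕ} (hn : 6 ≤ n) : NoNd (d20_21_8_2.R : ℤ) d20_21_8_2.H n d20_21_8_2.a d20_21_8_2.b
    (BlkD.inB (BlkD.upd (BlkD.upd (fun _ => 0) 0 3) 0 4)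
      (BlkD.upd (BlkD.upd (BlkD.upd (fun _ => 21) 0 8) 2 2) 0 4)) :=
  BlkD.tree_sound (BlkD.pairOk_sound k20_21_8_2) (by decide) hn t20_21_8_2_8 _ _ (by decide +kernel)

/-- certificates of the pair `(8, 2)`, part 9 -/
def t20_21_8_2_9 : BlkD.Tr :=
  .S 1 16 (.S 1 8 (.S 1 4 (.L 4 7 [4, 4, 4] [] [] 100000 25000 25000 1066668 33333 0 33333 33333 0
    0 25000) (.S 1 6 (.L 4 7 [4, 4, 4] [] [] 100000 1 1 1239783 26882 0 33333 26882 1075 33333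
    33333) (.S 1 7 (.L 4 7 [4, 4, 4] [154, 154, 154, 152, 142, 132] [] 100000 1 1 1232710 33645 0
    65421 29907 4673 31776 31776) (.L 4 7 [4, 4, 4] [178, 178, 178, 178, 176, 166] [] 100000 20000
    20000 1120000 40000 0 100000 20000 0 20000 20000)))) (.L 4 7 [4, 4, 4] [] [] 100000 9091 9090
    1209090 18182 0 100000 9091 0 27273 27273)) (.E 0)

lemma s20_21_8_2_9 {n : ℕ} (hn : 6 ≤ n) : NoNd (d20_21_8_2.R : ℤ) d20_21_8_2.H n d20_21_8_2.a d20_21_8_2.b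
    (BlkD.inB (BlkD.upd (fun _ => 0) 0 5)
      (BlkD.upd (BlkD.upd (BlkD.upd (BlkD.upd (fun _ => 21) 0 8) 2 2) 0 6) 0 5)) :=
  BlkD.tree_sound (BlkD.pairOk_sound k20_21_8_2) (by decide) hn t20_21_8_2_9 _ _ (by decide +kernel)

/-- certificates of the pair `(8, 2)`, part 10 -/
def t20_21_8_2_10 : BlkD.Tr :=
  .S 1 15 (.S 1 7 (.S 1 3 (.L 4 7 [4, 4, 4] [] [] 100000 28125 28125 1050000 50000 0 50000 50000 0
    0 21875) (.S 1 5 (.L 4 7 [4, 4, 4] [] [] 100000 0 0 1257725 28455 0 55285 28455 8943 33333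
    33333) (.L 4 7 [4, 4, 4] [] [] 100000 1191 1191 1242858 14286 0 100000 7143 11905 28571
    28571))) (.E 0)) (.E 0)

lemma s20_21_8_2_10 {n : ℕ} (hn : 6 ≤ n) : NoNd (d20_21_8_2.R : ℤ) d20_21_8_2.H n d20_21_8_2.a d20_21_8_2.b
    (BlkD.inB (BlkD.upd (BlkD.upd (fun _ => 0) 0 5) 0 6)
      (BlkD.upd (BlkD.upd (BlkD.upd (fun _ => 21) 0 8) 2 2) 0 6)) :=
  BlkD.tree_sound (BlkD.pairOk_sound k20_21_8_2) (by decide) hn t20_21_8_2_10 _ _ (by decide +kernel)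

/-- certificates of the pair `(8, 2)`, part 11 -/
def t20_21_8_2_11 : BlkD.Tr :=
  .L 4 7 [4, 4, 4] [] [] 100000 0 0 1258825 13725 0 71242 13725 10784 29739 29739

lemma s20_21_8_2_11 {n : ℕ} (hn : 6 ≤ n) : NoNd (d20_21_8_2.R : ℤ) d20_21_8_2.H n d20_21_8_2.a d20_21_8_2.b
    (BlkD.inB (BlkD.upd (BlkD.upd (fun _ => 0) 0 5) 0 7)
      (BlkD.upd (BlkD.upd (fun _ => 21) 0 8) 2 2)) :=
  BlkD.tree_sound (BlkD.pairOk_sound k20_21_8_2) (by decide) hn t20_21_8_2_11 _ _ (by decide +kernel)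

/-- certificates of the pair `(8, 2)`, part 12 -/
def t20_21_8_2_12 : BlkD.Tr :=
  .E 1

lemma s20_21_8_2_12 {n : ℕ} (hn : 6 ≤ n) : NoNd (d20_21_8_2.R : ℤ) d20_21_8_2.H n d20_21_8_2.a d20_21_8_2.b
    (BlkD.inB (BlkD.upd (fun _ => 0) 2 3)
      (BlkD.upd (fun _ => 21) 0 8)) :=
  BlkD.tree_sound (BlkD.pairOk_sound k20_21_8_2) (by decide) hn t20_21_8_2_12 _ _ (by decide +kernel)

/-- certificates of the pair `(8, 2)`, part 13 -/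
def t20_21_8_2_13 : BlkD.Tr :=
  .E 0

lemma s20_21_8_2_13 {n : ℕ} (hn : 6 ≤ n) : NoNd (d20_21_8_2.R : ℤ) d20_21_8_2.H n d20_21_8_2.a d20_21_8_2.b
    (BlkD.inB (BlkD.upd (fun _ => 0) 0 9)
      (fun _ => 21)) :=
  BlkD.tree_sound (BlkD.pairOk_sound k20_21_8_2) (by decide) hn t20_21_8_2_13 _ _ (by decide +kernel)

lemma pr20_21_8_2 {n : ℕ} (hn : 6 ≤ n) : NoPr ((20 : ℕ) : ℤ) ((21 : ℕ) : ℤ) n 8 2 :=
  BlkD.of_root (R := d20_21_8_2.R) (H := d20_21_8_2.H) (a := d20_21_8_2.a) (b := d20_21_8_2.b) (q := 4) (by decide) hn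
    (BlkD.sp 0 8 (BlkD.sp 2 2 (BlkD.sp 0 4 (BlkD.sp 0 2 (BlkD.sp 0 1 (BlkD.sp 0 0 (s20_21_8_2_1 hn)
      (BlkD.sp 1 10 (s20_21_8_2_2 hn) (s20_21_8_2_3 hn))) (BlkD.sp 1 10 (BlkD.sp 1 5 (s20_21_8_2_4
      hn) (s20_21_8_2_5 hn)) (s20_21_8_2_6 hn))) (BlkD.sp 0 3 (s20_21_8_2_7 hn) (s20_21_8_2_8 hn)))
      (BlkD.sp 0 6 (BlkD.sp 0 5 (s20_21_8_2_9 hn) (s20_21_8_2_10 hn)) (s20_21_8_2_11 hn)))
      (s20_21_8_2_12 hn)) (s20_21_8_2_13 hn))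

end BlkC

end Pool.Agent.Lib.MP_f04ccf_co
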