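import Pool.Agent.Lib.MP_f04ccf_co.M.BlkT

/-!
MP_f04ccf_co, block certificate, data `R = 20`, `H = 21`, part 8 (generated, helper99:
bd10.cpp, gen2.py).
-/

set_option autoImplicit false
set_option maxRecDepth 100000

namespace Pool.Agent.Lib.MP_f04ccf_co

namespace BlkC

/-- the numbers of the pair `(8, 3)`, `R = 20`, `H = 21` -/
def d20_21_8_3 : BlkD.Pd :=
  ⟨20, 21, 4, 8, 3, 7, 3, 2, 1, 4, 12, 0, 4, 1, 8, 0, [0, 12, 24, 31, 32, 33, 34, 35], [0, 8, 15,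
    19, 23, 27, 31, 35], [⟨1, 1, 1, 4, 8, [0, 4], [0, 4]⟩, ⟨1, 1, 1, 4, 14, [0, 8], [0, 6]⟩, ⟨2, 1,
    1, 4, 16, [0, 10, 10], [0, 6]⟩, ⟨2, 1, 1, 4, 26, [0, 12, 18], [0, 8]⟩]⟩

lemma k20_21_8_3 : BlkD.pairOk d20_21_8_3 = true := by decide +kernel

/-- certificates of the pair `(8, 3)`, part 1 -/
def t20_21_8_3_1 : BlkD.Tr :=
  .L 5 7 [4, 4, 4, 5] [] [] 100000 121428 121428 942861 78571 0 100000 28571 0 0 25000

lemma s20_21_8_3_1 {n : ℕ} (hn : 6 ≤ n) : NoNd (d20_21_8_3.R : ℤ) d20_21_8_3.H n d20_21_8_3.a d20_21_8_3.b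
    (BlkD.inB (fun _ => 0)
      (BlkD.upd (BlkD.upd (BlkD.upd (BlkD.upd (BlkD.upd (BlkD.upd (fun _ => 21) 0 8) 2 3) 0 4) 0 2) 0 1) 0 0)) :=
  BlkD.tree_sound (BlkD.pairOk_sound k20_21_8_3) (by decide) hn t20_21_8_3_1 _ _ (by decide +kernel)

/-- certificates of the pair `(8, 3)`, part 2 -/
def t20_21_8_3_2 : BlkD.Tr :=
  .L 5 7 [4, 4, 4, 5] [] [] 100000 121428 121428 942861 78571 0 100000 28571 0 0 25000

lemma s20_21_8_3_2 {n : ℕ} (hn : 6 ≤ n) : NoNd (d20_21_8_3.R : ℤ) d20_21_8_3.H n d20_21_8_3.a d20_21_8_3.b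
    (BlkD.inB (BlkD.upd (fun _ => 0) 0 1)
      (BlkD.upd (BlkD.upd (BlkD.upd (BlkD.upd (BlkD.upd (BlkD.upd (BlkD.upd (fun _ => 21) 0 8) 2 3) 0 4) 0 2) 0 1) 1 10) 1 5)) :=
  BlkD.tree_sound (BlkD.pairOk_sound k20_21_8_3) (by decide) hn t20_21_8_3_2 _ _ (by decide +kernel)

/-- certificates of the pair `(8, 3)`, part 3 -/
def t20_21_8_3_3 : BlkD.Tr :=
  .L 5 7 [4, 4, 4, 5] [] [] 100000 121428 121428 942861 78571 0 100000 28571 0 0 25000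

lemma s20_21_8_3_3 {n : ℕ} (hn : 6 ≤ n) : NoNd (d20_21_8_3.R : ℤ) d20_21_8_3.H n d20_21_8_3.a d20_21_8_3.b
    (BlkD.inB (BlkD.upd (BlkD.upd (fun _ => 0) 0 1) 1 6)
      (BlkD.upd (BlkD.upd (BlkD.upd (BlkD.upd (BlkD.upd (BlkD.upd (fun _ => 21) 0 8) 2 3) 0 4) 0 2) 0 1) 1 10)) :=
  BlkD.tree_sound (BlkD.pairOk_sound k20_21_8_3) (by decide) hn t20_21_8_3_3 _ _ (by decide +kernel)

/-- certificates of the pair `(8, 3)`, part 4 -/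
def t20_21_8_3_4 : BlkD.Tr :=
  .L 5 7 [4, 4, 4, 5] [] [] 100000 121428 121428 942861 78571 0 100000 28571 0 0 25000

lemma s20_21_8_3_4 {n : ℕ} (hn : 6 ≤ n) : NoNd (d20_21_8_3.R : ℤ) d20_21_8_3.H n d20_21_8_3.a d20_21_8_3.b
    (BlkD.inB (BlkD.upd (BlkD.upd (fun _ => 0) 0 1) 1 11)
      (BlkD.upd (BlkD.upd (BlkD.upd (BlkD.upd (BlkD.upd (fun _ => 21) 0 8) 2 3) 0 4) 0 2) 0 1)) :=
  BlkD.tree_sound (BlkD.pairOk_sound k20_21_8_3) (by decide) hn t20_21_8_3_4 _ _ (by decide +kernel)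

/-- certificates of the pair `(8, 3)`, part 5 -/
def t20_21_8_3_5 : BlkD.Tr :=
  .L 5 7 [4, 4, 4, 5] [] [] 100000 121428 121428 942861 78571 0 100000 28571 0 0 25000

lemma s20_21_8_3_5 {n : ℕ} (hn : 6 ≤ n) : NoNd (d20_21_8_3.R : ℤ) d20_21_8_3.H n d20_21_8_3.a d20_21_8_3.b
    (BlkD.inB (BlkD.upd (fun _ => 0) 0 2)
      (BlkD.upd (BlkD.upd (BlkD.upd (BlkD.upd (BlkD.upd (BlkD.upd (fun _ => 21) 0 8) 2 3) 0 4) 0 2) 1 10) 1 5)) :=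
  BlkD.tree_sound (BlkD.pairOk_sound k20_21_8_3) (by decide) hn t20_21_8_3_5 _ _ (by decide +kernel)

/-- certificates of the pair `(8, 3)`, part 6 -/
def t20_21_8_3_6 : BlkD.Tr :=
  .L 5 7 [4, 4, 4, 5] [] [] 100000 121428 121428 942861 78571 0 100000 28571 0 0 25000

lemma s20_21_8_3_6 {n : ℕ} (hn : 6 ≤ n) : NoNd (d20_21_8_3.R : ℤ) d20_21_8_3.H n d20_21_8_3.a d20_21_8_3.b
    (BlkD.inB (BlkD.upd (BlkD.upd (fun _ => 0) 0 2) 1 6)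
      (BlkD.upd (BlkD.upd (BlkD.upd (BlkD.upd (BlkD.upd (fun _ => 21) 0 8) 2 3) 0 4) 0 2) 1 10)) :=
  BlkD.tree_sound (BlkD.pairOk_sound k20_21_8_3) (by decide) hn t20_21_8_3_6 _ _ (by decide +kernel)

/-- certificates of the pair `(8, 3)`, part 7 -/
def t20_21_8_3_7 : BlkD.Tr :=
  .L 5 7 [4, 4, 4, 5] [] [] 100000 121428 121428 942861 78571 0 100000 28571 0 0 25000

lemma s20_21_8_3_7 {n : ℕ} (hn : 6 ≤ n) : NoNd (d20_21_8_3.R : ℤ) d20_21_8_3.H n d20_21_8_3.a d20_21_8_3.b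
    (BlkD.inB (BlkD.upd (BlkD.upd (fun _ => 0) 0 2) 1 11)
      (BlkD.upd (BlkD.upd (BlkD.upd (BlkD.upd (fun _ => 21) 0 8) 2 3) 0 4) 0 2)) :=
  BlkD.tree_sound (BlkD.pairOk_sound k20_21_8_3) (by decide) hn t20_21_8_3_7 _ _ (by decide +kernel)

/-- certificates of the pair `(8, 3)`, part 8 -/
def t20_21_8_3_8 : BlkD.Tr :=
  .L 5 7 [4, 4, 4, 5] [] [] 100000 42857 42857 1071430 28571 0 28571 14286 0 0 0

lemma s20_21_8_3_8 {n : ℕ} (hn : 6 ≤ n) : NoNd (d20_21_8_3.R : ℤ) d20_21_8_3.H n d20_21_8_3.a d20_21_8_3.b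
    (BlkD.inB (BlkD.upd (fun _ => 0) 0 3)
      (BlkD.upd (BlkD.upd (BlkD.upd (BlkD.upd (BlkD.upd (BlkD.upd (BlkD.upd (fun _ => 21) 0 8) 2 3) 0 4) 0 3) 1 18) 1 9) 1 4)) :=
  BlkD.tree_sound (BlkD.pairOk_sound k20_21_8_3) (by decide) hn t20_21_8_3_8 _ _ (by decide +kernel)

/-- certificates of the pair `(8, 3)`, part 9 -/
def t20_21_8_3_9 : BlkD.Tr :=
  .S 1 7 (.L 5 7 [4, 4, 4, 5] [] [] 100000 28794 28794 1308950 18288 0 27237 63035 0 23346 13619)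
    (.S 1 8 (.L 5 7 [4, 4, 4, 5] [156, 155, 154, 153, 147, 140] [] 100000 49019 49019 1229416 41176
    0 64706 41176 0 5882 23529) (.L 5 7 [4, 4, 4, 5] [179, 178, 177, 176, 175, 169] [] 100000 55408
    55408 1216560 48344 0 70861 48344 0 15232 17219))

lemma s20_21_8_3_9 {n : ℕ} (hn : 6 ≤ n) : NoNd (d20_21_8_3.R : ℤ) d20_21_8_3.H n d20_21_8_3.a d20_21_8_3.b
    (BlkD.inB (BlkD.upd (BlkD.upd (fun _ => 0) 0 3) 1 5)
      (BlkD.upd (BlkD.upd (BlkD.upd (BlkD.upd (BlkD.upd (BlkD.upd (fun _ => 21) 0 8) 2 3) 0 4) 0 3) 1 18) 1 9)) :=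
  BlkD.tree_sound (BlkD.pairOk_sound k20_21_8_3) (by decide) hn t20_21_8_3_9 _ _ (by decide +kernel)

/-- certificates of the pair `(8, 3)`, part 10 -/
def t20_21_8_3_10 : BlkD.Tr :=
  .S 1 14 (.S 1 12 (.S 1 11 (.S 1 10 (.L 5 7 [4, 4, 4, 5] [204, 203, 202, 201, 200, 199] [] 100000
    99106 99106 1040940 76510 0 100000 53020 0 6711 12752) (.L 5 7 [4, 4, 4, 5] [231, 230, 229,
    228, 227, 226] [] 100000 103922 101961 960783 89216 0 101961 38235 0 0 0)) (.L 5 7 [4, 4, 4, 5]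
    [260, 259, 258, 257, 256, 255] [] 100000 140000 105000 740000 115000 0 135000 0 0 0 0)) (.S 1
    13 (.L 5 7 [4, 4, 4, 5] [291, 290, 289, 288, 287, 286] [] 100000 180000 20000 120000 140000 0
    260000 6667 0 0 0) (.E 0))) (.E 0)

lemma s20_21_8_3_10 {n : ℕ} (hn : 6 ≤ n) : NoNd (d20_21_8_3.R : ℤ) d20_21_8_3.H n d20_21_8_3.a d20_21_8_3.b
    (BlkD.inB (BlkD.upd (BlkD.upd (fun _ => 0) 0 3) 1 10)
      (BlkD.upd (BlkD.upd (BlkD.upd (BlkD.upd (BlkD.upd (fun _ => 21) 0 8) 2 3) 0 4) 0 3) 1 18)) :=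
  BlkD.tree_sound (BlkD.pairOk_sound k20_21_8_3) (by decide) hn t20_21_8_3_10 _ _ (by decide +kernel)

/-- certificates of the pair `(8, 3)`, part 11 -/
def t20_21_8_3_11 : BlkD.Tr :=
  .E 0

lemma s20_21_8_3_11 {n : ℕ} (hn : 6 ≤ n) : NoNd (d20_21_8_3.R : ℤ) d20_21_8_3.H n d20_21_8_3.a d20_21_8_3.b
    (BlkD.inB (BlkD.upd (BlkD.upd (fun _ => 0) 0 3) 1 19)
      (BlkD.upd (BlkD.upd (BlkD.upd (BlkD.upd (fun _ => 21) 0 8) 2 3) 0 4) 0 3)) :=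
  BlkD.tree_sound (BlkD.pairOk_sound k20_21_8_3) (by decide) hn t20_21_8_3_11 _ _ (by decide +kernel)

/-- certificates of the pair `(8, 3)`, part 12 -/
def t20_21_8_3_12 : BlkD.Tr :=
  .L 5 7 [4, 4, 4, 5] [] [] 100000 33334 33334 1175000 25000 0 25000 25000 0 0 12500

lemma s20_21_8_3_12 {n : ℕ} (hn : 6 ≤ n) : NoNd (d20_21_8_3.R : ℤ) d20_21_8_3.H n d20_21_8_3.a d20_21_8_3.b
    (BlkD.inB (BlkD.upd (BlkD.upd (fun _ => 0) 0 3) 0 4)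
      (BlkD.upd (BlkD.upd (BlkD.upd (BlkD.upd (BlkD.upd (BlkD.upd (fun _ => 21) 0 8) 2 3) 0 4) 1 17) 1 8) 1 4)) :=
  BlkD.tree_sound (BlkD.pairOk_sound k20_21_8_3) (by decide) hn t20_21_8_3_12 _ _ (by decide +kernel)

/-- certificates of the pair `(8, 3)`, part 13 -/
def t20_21_8_3_13 : BlkD.Tr :=
  .S 1 5 (.L 5 7 [4, 4, 4, 5] [109, 103, 96, 84, 72, 60] [] 100000 25642 25642 1261539 19231 0
    19231 42308 0 23077 23077) (.L 5 8 [4, 4, 4, 4] [128, 127, 121, 114, 102, 90] [] 100000 26191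
    26191 1300003 25000 0 37500 50000 0 21429 21429)

lemma s20_21_8_3_13 {n : ℕ} (hn : 6 ≤ n) : NoNd (d20_21_8_3.R : ℤ) d20_21_8_3.H n d20_21_8_3.a d20_21_8_3.b
    (BlkD.inB (BlkD.upd (BlkD.upd (BlkD.upd (fun _ => 0) 0 3) 0 4) 1 5)
      (BlkD.upd (BlkD.upd (BlkD.upd (BlkD.upd (BlkD.upd (BlkD.upd (fun _ => 21) 0 8) 2 3) 0 4) 1 17) 1 8) 1 6)) :=
  BlkD.tree_sound (BlkD.pairOk_sound k20_21_8_3) (by decide) hn t20_21_8_3_13 _ _ (by decide +kernel)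

/-- certificates of the pair `(8, 3)`, part 14 -/
def t20_21_8_3_14 : BlkD.Tr :=
  .S 2 1 (.S 2 0 (.L 5 8 [4, 4, 4, 4] [149, 148, 147, 141, 134, 122] [] 100000 33334 33334 1204000
    24000 0 48000 88000 0 0 16000) (.S 3 9 (.S 3 4 (.S 3 2 (.L 5 8 [4, 4, 4, 4] [149, 148, 147,
    141, 134, 122] [] 100000 27021 27021 1303788 28788 9848 47727 28788 0 18939 25000) (.S 3 3 (.L
    5 8 [4, 4, 4, 4] [149, 148, 147, 141, 134, 122] [39, 32, 24, 12, 0, 0] 100000 26317 26317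
    1310526 31579 0 63158 31579 0 31579 21053) (.L 5 8 [4, 4, 4, 4] [149, 148, 147, 141, 134, 122]
    [53, 47, 40, 32, 20, 0] 100000 85716 85716 1085711 71429 0 71429 14286 0 14286 14286))) (.E 1))
    (.E 1))) (.S 2 2 (.S 3 8 (.S 3 4 (.S 3 2 (.L 5 8 [4, 4, 4, 4] [149, 148, 147, 141, 134, 122] []
    100000 26317 26317 1310526 31579 0 63158 31579 0 31579 21053) (.L 5 8 [4, 4, 4, 4] [149, 148,
    147, 141, 134, 122] [] 100000 85716 85716 1085711 71429 0 71429 14286 0 14286 14286)) (.E 1))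
    (.E 1)) (.L 5 8 [4, 4, 4, 4] [149, 148, 147, 141, 134, 122] [] 100000 66667 66667 1140000 60000
    0 60000 0 0 33333 13333))

lemma s20_21_8_3_14 {n : ℕ} (hn : 6 ≤ n) : NoNd (d20_21_8_3.R : ℤ) d20_21_8_3.H n d20_21_8_3.a d20_21_8_3.b
    (BlkD.inB (BlkD.upd (BlkD.upd (BlkD.upd (BlkD.upd (fun _ => 0) 0 3) 0 4) 1 5) 1 7)
      (BlkD.upd (BlkD.upd (BlkD.upd (BlkD.upd (BlkD.upd (BlkD.upd (fun _ => 21) 0 8) 2 3) 0 4) 1 17) 1 8) 1 7)) :=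
  BlkD.tree_sound (BlkD.pairOk_sound k20_21_8_3) (by decide) hn t20_21_8_3_14 _ _ (by decide +kernel)

/-- certificates of the pair `(8, 3)`, part 15 -/
def t20_21_8_3_15 : BlkD.Tr :=
  .S 2 1 (.S 2 0 (.L 5 8 [4, 4, 4, 4] [172, 171, 170, 169, 163, 156] [] 100000 38889 38889 1190000
    35000 0 70000 76667 0 0 20000) (.S 3 8 (.S 3 4 (.S 3 2 (.S 3 1 (.L 5 8 [4, 4, 4, 4] [172, 171,
    170, 169, 163, 156] [] 100000 40000 40000 1240000 40000 0 70000 10000 0 0 20000) (.L 5 8 [4, 4,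
    4, 4] [172, 171, 170, 169, 163, 156] [26, 18, 6, 0, 0, 0] 100000 26667 26667 1318000 36000 2000
    70000 34000 0 30000 20000)) (.L 5 8 [4, 4, 4, 4] [172, 171, 170, 169, 163, 156] [] 100000 53334
    53334 1225000 50000 0 75000 50000 0 10000 20000)) (.E 1)) (.E 1))) (.S 2 2 (.S 3 7 (.S 3 3 (.S
    3 1 (.S 3 0 (.L 5 8 [4, 4, 4, 4] [172, 171, 170, 169, 163, 156] [0, 0, 0, 0, 0, 0] 100000 40000
    40000 1240000 40000 0 60000 0 0 0 20000) (.L 4 7 [4, 4, 5, 5] [172, 171, 170, 169, 163, 156]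
    [16, 4, 0, 0, 0, 0] 100000 35294 35294 1288236 35294 0 70588 35294 0 35294 17647)) (.L 4 7 [4,
    4, 5, 5] [172, 171, 170, 169, 163, 156] [] 100000 100000 100000 1075000 75000 0 75000 25000 0 0
    0)) (.E 1)) (.E 1)) (.L 4 7 [4, 4, 5, 5] [172, 171, 170, 169, 163, 156] [] 100000 75926 75926
    1116668 63889 0 86111 0 3704 24074 12037))

lemma s20_21_8_3_15 {n : ℕ} (hn : 6 ≤ n) : NoNd (d20_21_8_3.R : ℤ) d20_21_8_3.H n d20_21_8_3.a d20_21_8_3.b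
    (BlkD.inB (BlkD.upd (BlkD.upd (BlkD.upd (BlkD.upd (BlkD.upd (fun _ => 0) 0 3) 0 4) 1 5) 1 7) 1 8)
      (BlkD.upd (BlkD.upd (BlkD.upd (BlkD.upd (BlkD.upd (fun _ => 21) 0 8) 2 3) 0 4) 1 17) 1 8)) :=
  BlkD.tree_sound (BlkD.pairOk_sound k20_21_8_3) (by decide) hn t20_21_8_3_15 _ _ (by decide +kernel)

/-- certificates of the pair `(8, 3)`, part 16 -/
def t20_21_8_3_16 : BlkD.Tr :=
  .S 1 13 (.S 1 11 (.S 1 10 (.S 1 9 (.L 5 8 [4, 4, 4, 4] [197, 196, 195, 194, 193, 187] [] 100000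
    60000 60000 1200000 50000 0 100000 50000 0 0 10000) (.L 5 8 [4, 4, 4, 4] [224, 223, 222, 221,
    220, 219] [] 100000 72000 72000 1128000 68000 0 100000 36000 0 0 12000)) (.L 5 8 [4, 4, 4, 4]
    [253, 252, 251, 250, 249, 248] [] 100000 100000 50000 800000 100000 0 150000 50000 0 0 0)) (.L
    5 8 [4, 4, 4, 4] [] [] 100000 185715 1 1 31973 0 285714 29932 0 0 0)) (.E 0)

lemma s20_21_8_3_16 {n : ℕ} (hn : 6 ≤ n) : NoNd (d20_21_8_3.R : ℤ) d20_21_8_3.H n d20_21_8_3.a d20_21_8_3.b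
    (BlkD.inB (BlkD.upd (BlkD.upd (BlkD.upd (fun _ => 0) 0 3) 0 4) 1 9)
      (BlkD.upd (BlkD.upd (BlkD.upd (BlkD.upd (fun _ => 21) 0 8) 2 3) 0 4) 1 17)) :=
  BlkD.tree_sound (BlkD.pairOk_sound k20_21_8_3) (by decide) hn t20_21_8_3_16 _ _ (by decide +kernel)

/-- certificates of the pair `(8, 3)`, part 17 -/
def t20_21_8_3_17 : BlkD.Tr :=
  .E 0

lemma s20_21_8_3_17 {n : ℕ} (hn : 6 ≤ n) : NoNd (d20_21_8_3.R : ℤ) d20_21_8_3.H n d20_21_8_3.a d20_21_8_3.b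
    (BlkD.inB (BlkD.upd (BlkD.upd (BlkD.upd (fun _ => 0) 0 3) 0 4) 1 18)
      (BlkD.upd (BlkD.upd (BlkD.upd (fun _ => 21) 0 8) 2 3) 0 4)) :=
  BlkD.tree_sound (BlkD.pairOk_sound k20_21_8_3) (by decide) hn t20_21_8_3_17 _ _ (by decide +kernel)

/-- certificates of the pair `(8, 3)`, part 18 -/
def t20_21_8_3_18 : BlkD.Tr :=
  .L 5 8 [4, 4, 4, 4] [] [] 100000 26191 26191 1250003 25000 0 50000 50000 0 21429 21429

lemma s20_21_8_3_18 {n : ℕ} (hn : 6 ≤ n) : NoNd (d20_21_8_3.R : ℤ) d20_21_8_3.H n d20_21_8_3.a d20_21_8_3.b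
    (BlkD.inB (BlkD.upd (fun _ => 0) 0 5)
      (BlkD.upd (BlkD.upd (BlkD.upd (BlkD.upd (BlkD.upd (BlkD.upd (BlkD.upd (fun _ => 21) 0 8) 2 3) 0 6) 0 5) 1 16) 1 8) 1 4)) :=
  BlkD.tree_sound (BlkD.pairOk_sound k20_21_8_3) (by decide) hn t20_21_8_3_18 _ _ (by decide +kernel)

/-- certificates of the pair `(8, 3)`, part 19 -/
def t20_21_8_3_19 : BlkD.Tr :=
  .S 2 1 (.S 2 0 (.L 5 8 [4, 4, 4, 4] [119, 113, 106, 94, 82, 70] [] 100000 33334 33334 1177778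
    22222 0 33333 77778 0 0 0) (.S 3 10 (.S 3 5 (.S 3 2 (.L 5 8 [4, 4, 4, 4] [119, 113, 106, 94,
    82, 70] [] 100000 33335 33335 1252381 23810 23810 47619 23810 0 0 19048) (.S 3 4 (.S 3 3 (.L 5
    8 [4, 4, 4, 4] [119, 113, 106, 94, 82, 70] [39, 32, 24, 12, 0, 0] 100000 25000 25000 1300000
    25000 0 50000 50000 0 25000 25000) (.S 4 5 (.S 4 2 (.L 5 8 [4, 4, 4, 4] [94, 82, 70, 0, 0, 0]
    [53, 47, 40, 32, 20, 0] 100000 38462 38462 1238461 46154 0 46154 30769 0 38462 15385) (.L 5 8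
    [4, 4, 4, 4] [119, 113, 106, 94, 82, 70] [53, 47, 40, 32, 20, 0] 100000 55000 0 915000 30000 0
    155000 60000 0 0 20000)) (.E 2))) (.E 1))) (.E 1)) (.E 1))) (.S 2 2 (.S 3 9 (.S 3 4 (.S 3 2 (.L
    5 8 [4, 4, 4, 4] [119, 113, 106, 94, 82, 70] [] 100000 27452 27452 1282353 29412 0 58824 35294
    0 17647 17647) (.S 3 3 (.S 4 5 (.S 4 2 (.L 5 8 [4, 4, 4, 4] [94, 82, 70, 0, 0, 0] [45, 38, 30,
    18, 0, 0] 100000 38462 38462 1238461 46154 0 46154 30769 0 38462 15385) (.L 5 8 [4, 4, 4, 4]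
    [119, 113, 106, 94, 82, 70] [45, 38, 30, 18, 0, 0] 100000 55000 0 915000 30000 0 155000 60000 0
    0 20000)) (.E 2)) (.E 1))) (.E 1)) (.E 1)) (.L 5 8 [4, 4, 4, 4] [119, 113, 106, 94, 82, 70] []
    100000 27778 27778 1266668 33333 0 33333 0 0 33333 16667))

lemma s20_21_8_3_19 {n : ℕ} (hn : 6 ≤ n) : NoNd (d20_21_8_3.R : ℤ) d20_21_8_3.H n d20_21_8_3.a d20_21_8_3.b
    (BlkD.inB (BlkD.upd (BlkD.upd (fun _ => 0) 0 5) 1 5)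
      (BlkD.upd (BlkD.upd (BlkD.upd (BlkD.upd (BlkD.upd (BlkD.upd (BlkD.upd (BlkD.upd (fun _ => 21) 0 8) 2 3) 0 6) 0 5) 1 16) 1 8) 1 6) 1 5)) :=
  BlkD.tree_sound (BlkD.pairOk_sound k20_21_8_3) (by decide) hn t20_21_8_3_19 _ _ (by decide +kernel)

/-- certificates of the pair `(8, 3)`, part 20 -/
def t20_21_8_3_20 : BlkD.Tr :=
  .S 2 1 (.S 2 0 (.L 5 8 [4, 4, 4, 4] [140, 139, 133, 126, 114, 102] [] 100000 33334 33334 1200000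
    28571 0 71429 71429 0 0 14286) (.S 3 9 (.S 3 4 (.S 3 2 (.S 3 1 (.L 5 8 [4, 4, 4, 4] [140, 139,
    133, 126, 114, 102] [] 100000 33334 33334 1250000 25000 25000 50000 25000 0 0 25000) (.L 4 7
    [4, 4, 5, 5] [140, 139, 133, 126, 114, 102] [26, 18, 6, 0, 0, 0] 100000 25671 25671 1320118
    25000 0 67241 45115 2874 20115 32471)) (.S 3 3 (.S 4 6 (.S 4 3 (.L 5 8 [4, 4, 4, 4] [126, 114,
    102, 90, 0, 0] [39, 32, 24, 12, 0, 0] 100000 31429 31429 1300000 40000 0 74286 40000 5714 9524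
    15238) (.L 5 8 [4, 4, 4, 4] [140, 139, 133, 126, 114, 102] [39, 32, 24, 12, 0, 0] 100000 43750
    0 993750 18750 0 143750 37500 0 0 12500)) (.E 2)) (.S 4 6 (.S 4 3 (.L 5 8 [4, 4, 4, 4] [126,
    114, 102, 90, 0, 0] [53, 47, 40, 32, 20, 0] 100000 46915 46915 1256790 49383 0 71605 46914 3704
    6173 17695) (.L 5 8 [4, 4, 4, 4] [140, 139, 133, 126, 114, 102] [53, 47, 40, 32, 20, 0] 100000
    100000 0 600000 0 0 200000 200000 0 0 0)) (.E 2)))) (.E 1)) (.E 1))) (.S 2 2 (.S 3 8 (.S 3 4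
    (.S 3 2 (.S 3 1 (.S 3 0 (.L 5 8 [4, 4, 4, 4] [140, 139, 133, 126, 114, 102] [0, 0, 0, 0, 0, 0]
    100000 33334 33334 1269231 30769 0 30769 0 0 0 23077) (.L 4 7 [4, 4, 5, 5] [140, 139, 133, 126,
    114, 102] [16, 4, 0, 0, 0, 0] 100000 23810 23810 1325000 25000 0 71429 3571 3571 25000 23214))
    (.S 4 6 (.S 4 3 (.L 5 8 [4, 4, 4, 4] [126, 114, 102, 90, 0, 0] [30, 22, 10, 0, 0, 0] 100000
    31429 31429 1300000 40000 0 74286 40000 5714 9524 15238) (.L 5 8 [4, 4, 4, 4] [140, 139, 133,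
    126, 114, 102] [30, 22, 10, 0, 0, 0] 100000 43750 0 993750 18750 0 143750 37500 0 0 12500)) (.E
    2))) (.S 3 3 (.S 4 6 (.S 4 3 (.L 5 8 [4, 4, 4, 4] [126, 114, 102, 90, 0, 0] [45, 38, 30, 18, 0,
    0] 100000 64151 64151 1181133 52830 0 98113 56604 0 0 9434) (.L 5 8 [4, 4, 4, 4] [140, 139,
    133, 126, 114, 102] [45, 38, 30, 18, 0, 0] 100000 100000 0 600000 0 0 200000 200000 0 0 0)) (.E
    2)) (.E 1))) (.E 1)) (.E 1)) (.L 5 8 [4, 4, 4, 4] [140, 139, 133, 126, 114, 102] [] 100000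
    26883 26883 1314517 37097 0 66129 0 4839 41935 20968))

lemma s20_21_8_3_20 {n : ℕ} (hn : 6 ≤ n) : NoNd (d20_21_8_3.R : ℤ) d20_21_8_3.H n d20_21_8_3.a d20_21_8_3.b
    (BlkD.inB (BlkD.upd (BlkD.upd (BlkD.upd (fun _ => 0) 0 5) 1 5) 1 6)
      (BlkD.upd (BlkD.upd (BlkD.upd (BlkD.upd (BlkD.upd (BlkD.upd (BlkD.upd (fun _ => 21) 0 8) 2 3) 0 6) 0 5) 1 16) 1 8) 1 6)) :=
  BlkD.tree_sound (BlkD.pairOk_sound k20_21_8_3) (by decide) hn t20_21_8_3_20 _ _ (by decide +kernel)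

/-- certificates of the pair `(8, 3)`, part 21 -/
def t20_21_8_3_21 : BlkD.Tr :=
  .S 2 1 (.S 2 0 (.L 5 8 [4, 4, 4, 4] [163, 162, 161, 155, 148, 136] [] 100000 33334 33334 1183333
    16667 0 100000 83333 0 0 16667) (.S 3 8 (.S 3 4 (.S 3 2 (.S 3 1 (.L 5 8 [4, 4, 4, 4] [163, 162,
    161, 155, 148, 136] [] 100000 33334 33334 1280000 40000 0 60000 20000 0 0 20000) (.S 4 7 (.S 4
    3 (.L 5 8 [4, 4, 4, 4] [148, 136, 124, 112, 0, 0] [26, 18, 6, 0, 0, 0] 100000 33775 33775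
    1282947 40894 12583 87914 50497 4967 15728 13245) (.L 5 8 [4, 4, 4, 4] [163, 162, 161, 155,
    148, 136] [26, 18, 6, 0, 0, 0] 100000 32282 8071 1106314 21053 0 124211 41053 0 11579 15789))
    (.E 2))) (.L 5 8 [4, 4, 4, 4] [163, 162, 161, 155, 148, 136] [] 100000 41773 41773 1273417
    43038 0 87342 36709 0 21519 13924)) (.E 1)) (.E 1))) (.S 2 2 (.S 3 7 (.S 3 3 (.S 3 1 (.S 3 0
    (.L 5 8 [4, 4, 4, 4] [163, 162, 161, 155, 148, 136] [0, 0, 0, 0, 0, 0] 100000 33334 33334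
    1280000 40000 0 60000 0 0 0 20000) (.L 4 7 [4, 4, 5, 5] [163, 162, 161, 155, 148, 136] [16, 4,
    0, 0, 0, 0] 100000 27564 27564 1315386 30769 0 73077 30769 0 23077 17308)) (.L 5 8 [4, 4, 4, 4]
    [163, 162, 161, 155, 148, 136] [] 100000 46155 46155 1258461 49231 0 87692 20000 0 33846
    15385)) (.E 1)) (.E 1)) (.L 5 8 [4, 4, 4, 4] [163, 162, 161, 155, 148, 136] [] 100000 37037
    37037 1244447 44444 0 88889 0 0 44444 18519))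

lemma s20_21_8_3_21 {n : ℕ} (hn : 6 ≤ n) : NoNd (d20_21_8_3.R : ℤ) d20_21_8_3.H n d20_21_8_3.a d20_21_8_3.b
    (BlkD.inB (BlkD.upd (BlkD.upd (BlkD.upd (fun _ => 0) 0 5) 1 5) 1 7)
      (BlkD.upd (BlkD.upd (BlkD.upd (BlkD.upd (BlkD.upd (BlkD.upd (BlkD.upd (fun _ => 21) 0 8) 2 3) 0 6) 0 5) 1 16) 1 8) 1 7)) :=
  BlkD.tree_sound (BlkD.pairOk_sound k20_21_8_3) (by decide) hn t20_21_8_3_21 _ _ (by decide +kernel)

/-- certificates of the pair `(8, 3)`, part 22 -/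
def t20_21_8_3_22 : BlkD.Tr :=
  .S 2 1 (.S 2 0 (.L 5 8 [4, 4, 4, 4] [188, 187, 186, 185, 179, 172] [] 100000 33334 33334 1183333
    16667 0 100000 83333 0 0 16667) (.S 3 7 (.S 3 3 (.S 3 1 (.L 5 8 [4, 4, 4, 4] [188, 187, 186,
    185, 179, 172] [] 100000 38462 38462 1246154 42308 0 84615 42308 0 0 11538) (.S 3 2 (.L 4 7 [4,
    4, 5, 5] [188, 187, 186, 185, 179, 172] [26, 18, 6, 0, 0, 0] 100000 42857 42857 1257144 42857 0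
    85714 42857 0 14286 14286) (.L 4 7 [4, 4, 5, 5] [188, 187, 186, 185, 179, 172] [39, 32, 24, 12,
    0, 0] 100000 52174 52174 1234783 47826 0 100000 26087 0 21739 13043))) (.L 4 7 [4, 4, 5, 5]
    [188, 187, 186, 185, 179, 172] [] 100000 50705 50705 1236620 49296 0 100000 16901 0 32394
    12676)) (.E 1))) (.L 4 7 [4, 4, 5, 5] [188, 187, 186, 185, 179, 172] [] 100000 53334 53334
    1233332 46667 0 100000 33333 0 13333 13333)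

lemma s20_21_8_3_22 {n : ℕ} (hn : 6 ≤ n) : NoNd (d20_21_8_3.R : ℤ) d20_21_8_3.H n d20_21_8_3.a d20_21_8_3.b
    (BlkD.inB (BlkD.upd (BlkD.upd (BlkD.upd (BlkD.upd (fun _ => 0) 0 5) 1 5) 1 7) 1 8)
      (BlkD.upd (BlkD.upd (BlkD.upd (BlkD.upd (BlkD.upd (BlkD.upd (fun _ => 21) 0 8) 2 3) 0 6) 0 5) 1 16) 1 8)) :=
  BlkD.tree_sound (BlkD.pairOk_sound k20_21_8_3) (by decide) hn t20_21_8_3_22 _ _ (by decide +kernel)

/-- certificates of the pair `(8, 3)`, part 23 -/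
def t20_21_8_3_23 : BlkD.Tr :=
  .S 1 12 (.S 1 10 (.S 1 9 (.L 4 7 [4, 4, 5, 5] [215, 214, 213, 212, 211, 205] [] 100000 72093
    72093 1139536 65116 0 100000 34884 0 2326 13953) (.L 4 7 [4, 4, 5, 5] [244, 243, 242, 241, 240,
    239] [] 100000 100000 0 600000 100000 0 200000 0 0 0 0)) (.E 0)) (.E 0)

lemma s20_21_8_3_23 {n : ℕ} (hn : 6 ≤ n) : NoNd (d20_21_8_3.R : ℤ) d20_21_8_3.H n d20_21_8_3.a d20_21_8_3.b
    (BlkD.inB (BlkD.upd (BlkD.upd (fun _ => 0) 0 5) 1 9)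
      (BlkD.upd (BlkD.upd (BlkD.upd (BlkD.upd (BlkD.upd (fun _ => 21) 0 8) 2 3) 0 6) 0 5) 1 16)) :=
  BlkD.tree_sound (BlkD.pairOk_sound k20_21_8_3) (by decide) hn t20_21_8_3_23 _ _ (by decide +kernel)

/-- certificates of the pair `(8, 3)`, part 24 -/
def t20_21_8_3_24 : BlkD.Tr :=
  .E 0

lemma s20_21_8_3_24 {n : ℕ} (hn : 6 ≤ n) : NoNd (d20_21_8_3.R : ℤ) d20_21_8_3.H n d20_21_8_3.a d20_21_8_3.b
    (BlkD.inB (BlkD.upd (BlkD.upd (fun _ => 0) 0 5) 1 17)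
      (BlkD.upd (BlkD.upd (BlkD.upd (BlkD.upd (fun _ => 21) 0 8) 2 3) 0 6) 0 5)) :=
  BlkD.tree_sound (BlkD.pairOk_sound k20_21_8_3) (by decide) hn t20_21_8_3_24 _ _ (by decide +kernel)

/-- certificates of the pair `(8, 3)`, part 25 -/
def t20_21_8_3_25 : BlkD.Tr :=
  .L 4 7 [4, 4, 5, 5] [] [] 100000 26316 26316 1247371 26316 0 26316 73684 0 21053 21053

lemma s20_21_8_3_25 {n : ℕ} (hn : 6 ≤ n) : NoNd (d20_21_8_3.R : ℤ) d20_21_8_3.H n d20_21_8_3.a d20_21_8_3.b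
    (BlkD.inB (BlkD.upd (BlkD.upd (fun _ => 0) 0 5) 0 6)
      (BlkD.upd (BlkD.upd (BlkD.upd (BlkD.upd (BlkD.upd (BlkD.upd (fun _ => 21) 0 8) 2 3) 0 6) 1 15) 1 7) 1 3)) :=
  BlkD.tree_sound (BlkD.pairOk_sound k20_21_8_3) (by decide) hn t20_21_8_3_25 _ _ (by decide +kernel)

/-- certificates of the pair `(8, 3)`, part 26 -/
def t20_21_8_3_26 : BlkD.Tr :=
  .S 2 1 (.S 2 0 (.L 4 7 [4, 4, 5, 5] [103, 96, 84, 72, 60, 0] [] 100000 33334 33334 1200000 0 0 0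
    100000 0 0 0) (.S 3 10 (.S 3 5 (.S 3 2 (.L 4 7 [4, 4, 5, 5] [103, 96, 84, 72, 60, 0] [] 100000
    33334 33334 1260000 20000 20000 40000 40000 0 0 10000) (.S 3 4 (.S 3 3 (.L 5 8 [4, 4, 4, 4]
    [103, 96, 84, 72, 60, 0] [39, 32, 24, 12, 0, 0] 100000 27778 27778 1300001 33333 0 66667 33333
    0 33333 16667) (.S 4 4 (.S 4 2 (.S 4 1 (.L 5 8 [4, 4, 4, 4] [72, 60, 0, 0, 0, 0] [53, 47, 40,
    32, 20, 0] 100000 33334 33334 1275000 37500 0 37500 75000 0 0 25000) (.L 5 8 [4, 4, 4, 4] [84,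
    72, 60, 0, 0, 0] [53, 47, 40, 32, 20, 0] 100000 33334 20001 1146668 33333 0 113333 60000 0 0
    20000)) (.L 5 8 [4, 4, 4, 4] [103, 96, 84, 72, 60, 0] [53, 47, 40, 32, 20, 0] 100000 50000 0
    950000 0 0 150000 100000 0 0 0)) (.E 2))) (.E 1))) (.E 1)) (.E 1))) (.S 2 2 (.S 3 9 (.S 3 4 (.S
    3 2 (.L 5 8 [4, 4, 4, 4] [103, 96, 84, 72, 60, 0] [] 100000 27778 27778 1300001 33333 0 66667
    33333 0 33333 16667) (.S 3 3 (.S 4 4 (.S 4 2 (.S 4 1 (.L 5 8 [4, 4, 4, 4] [72, 60, 0, 0, 0, 0]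
    [45, 38, 30, 18, 0, 0] 100000 33334 33334 1275000 37500 0 37500 75000 0 0 25000) (.L 5 8 [4, 4,
    4, 4] [84, 72, 60, 0, 0, 0] [45, 38, 30, 18, 0, 0] 100000 33334 20001 1146668 33333 0 113333
    60000 0 0 20000)) (.L 5 8 [4, 4, 4, 4] [103, 96, 84, 72, 60, 0] [45, 38, 30, 18, 0, 0] 100000
    50000 0 950000 0 0 150000 100000 0 0 0)) (.E 2)) (.E 1))) (.E 1)) (.E 1)) (.L 5 8 [4, 4, 4, 4]
    [103, 96, 84, 72, 60, 0] [] 100000 26667 26667 1295000 35000 0 35000 0 0 40000 20000))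

lemma s20_21_8_3_26 {n : ℕ} (hn : 6 ≤ n) : NoNd (d20_21_8_3.R : ℤ) d20_21_8_3.H n d20_21_8_3.a d20_21_8_3.b
    (BlkD.inB (BlkD.upd (BlkD.upd (BlkD.upd (fun _ => 0) 0 5) 0 6) 1 4)
      (BlkD.upd (BlkD.upd (BlkD.upd (BlkD.upd (BlkD.upd (BlkD.upd (BlkD.upd (fun _ => 21) 0 8) 2 3) 0 6) 1 15) 1 7) 1 5) 1 4)) :=
  BlkD.tree_sound (BlkD.pairOk_sound k20_21_8_3) (by decide) hn t20_21_8_3_26 _ _ (by decide +kernel)

/-- certificates of the pair `(8, 3)`, part 27 -/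
def t20_21_8_3_27 : BlkD.Tr :=
  .S 2 1 (.S 2 0 (.L 5 8 [4, 4, 4, 4] [129, 123, 116, 104, 92, 80] [] 100000 33334 33334 1200000
    33333 0 66667 66667 0 0 16667) (.S 3 9 (.S 3 4 (.S 3 2 (.L 5 8 [4, 4, 4, 4] [129, 123, 116,
    104, 92, 80] [] 100000 27833 27833 1315516 30465 23554 66855 39069 987 15515 18195) (.S 3 3 (.S
    4 5 (.S 4 2 (.L 5 8 [4, 4, 4, 4] [104, 92, 80, 0, 0, 0] [39, 32, 24, 12, 0, 0] 100000 28572
    28572 1285715 42857 0 85714 42857 0 14286 14286) (.L 5 8 [4, 4, 4, 4] [129, 123, 116, 104, 92,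
    80] [39, 32, 24, 12, 0, 0] 100000 33334 28334 1180000 25000 0 105000 60000 0 0 20000)) (.E 2))
    (.S 4 5 (.S 4 2 (.L 5 8 [4, 4, 4, 4] [104, 92, 80, 0, 0, 0] [53, 47, 40, 32, 20, 0] 100000
    33334 33334 1283334 45833 0 79167 54167 0 0 16667) (.L 5 8 [4, 4, 4, 4] [129, 123, 116, 104,
    92, 80] [53, 47, 40, 32, 20, 0] 100000 33334 17334 1136000 8000 0 116000 100000 0 0 20000)) (.E
    2)))) (.E 1)) (.E 1))) (.S 2 2 (.S 3 8 (.S 3 4 (.S 3 2 (.S 3 1 (.S 3 0 (.L 5 8 [4, 4, 4, 4]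
    [129, 123, 116, 104, 92, 80] [0, 0, 0, 0, 0, 0] 100000 33334 33334 1260000 40000 0 40000 0 0 0
    20000) (.L 4 7 [4, 4, 5, 5] [129, 123, 116, 104, 92, 80] [16, 4, 0, 0, 0, 0] 100000 25926 25926
    1300001 33333 0 66667 33333 0 33333 22222)) (.S 4 5 (.S 4 2 (.L 4 7 [4, 4, 5, 5] [104, 92, 80,
    0, 0, 0] [30, 22, 10, 0, 0, 0] 100000 26667 26667 1300000 40000 0 80000 40000 0 20000 20000)
    (.L 4 7 [4, 4, 5, 5] [129, 123, 116, 104, 92, 80] [30, 22, 10, 0, 0, 0] 100000 33334 33334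
    1200000 0 0 100000 100000 0 0 0)) (.E 2))) (.S 3 3 (.S 4 5 (.S 4 2 (.L 5 8 [4, 4, 4, 4] [104,
    92, 80, 0, 0, 0] [45, 38, 30, 18, 0, 0] 100000 33334 33334 1283334 45833 0 79167 54167 0 0
    16667) (.L 5 8 [4, 4, 4, 4] [129, 123, 116, 104, 92, 80] [45, 38, 30, 18, 0, 0] 100000 33334
    17334 1136000 8000 0 116000 100000 0 0 20000)) (.E 2)) (.E 1))) (.E 1)) (.E 1)) (.L 5 8 [4, 4,
    4, 4] [129, 123, 116, 104, 92, 80] [] 100000 26667 26667 1300000 40000 0 80000 0 0 40000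
    20000))

lemma s20_21_8_3_27 {n : ℕ} (hn : 6 ≤ n) : NoNd (d20_21_8_3.R : ℤ) d20_21_8_3.H n d20_21_8_3.a d20_21_8_3.b
    (BlkD.inB (BlkD.upd (BlkD.upd (BlkD.upd (BlkD.upd (fun _ => 0) 0 5) 0 6) 1 4) 1 5)
      (BlkD.upd (BlkD.upd (BlkD.upd (BlkD.upd (BlkD.upd (BlkD.upd (fun _ => 21) 0 8) 2 3) 0 6) 1 15) 1 7) 1 5)) :=
  BlkD.tree_sound (BlkD.pairOk_sound k20_21_8_3) (by decide) hn t20_21_8_3_27 _ _ (by decide +kernel)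

/-- certificates of the pair `(8, 3)`, part 28 -/
def t20_21_8_3_28 : BlkD.Tr :=
  .S 1 6 (.S 2 1 (.S 2 0 (.L 5 8 [4, 4, 4, 4] [152, 151, 145, 138, 126, 114] [] 100000 33334 33334
    1200000 0 0 100000 100000 0 0 0) (.S 3 8 (.S 3 4 (.S 3 2 (.L 5 8 [4, 4, 4, 4] [152, 151, 145,
    138, 126, 114] [] 100000 29554 29554 1306530 36426 0 84192 36426 0 11340 12715) (.S 3 3 (.S 4 6
    (.S 4 3 (.L 5 8 [4, 4, 4, 4] [138, 126, 114, 102, 0, 0] [39, 32, 24, 12, 0, 0] 100000 28736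
    28736 1286206 44828 0 89655 44828 0 20690 13793) (.L 5 8 [4, 4, 4, 4] [152, 151, 145, 138, 126,
    114] [39, 32, 24, 12, 0, 0] 100000 33334 18519 1140741 7407 0 114815 100000 0 0 18519)) (.E 2))
    (.S 4 6 (.S 4 3 (.L 5 8 [4, 4, 4, 4] [138, 126, 114, 102, 0, 0] [53, 47, 40, 32, 20, 0] 100000
    44445 44445 1233332 55556 0 100000 44444 0 0 11111) (.L 5 8 [4, 4, 4, 4] [152, 151, 145, 138,
    126, 114] [53, 47, 40, 32, 20, 0] 100000 37500 6250 1062500 6250 0 131250 100000 0 0 18750))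
    (.E 2)))) (.E 1)) (.E 1))) (.S 2 2 (.S 3 7 (.S 3 3 (.S 3 1 (.L 5 8 [4, 4, 4, 4] [152, 151, 145,
    138, 126, 114] [] 100000 29060 29060 1307694 35897 0 84615 35897 0 12821 12821) (.S 3 2 (.S 4 6
    (.S 4 3 (.L 5 8 [4, 4, 4, 4] [138, 126, 114, 102, 0, 0] [30, 22, 10, 0, 0, 0] 100000 28736
    28736 1286206 44828 0 89655 44828 0 20690 13793) (.L 5 8 [4, 4, 4, 4] [152, 151, 145, 138, 126,
    114] [30, 22, 10, 0, 0, 0] 100000 33334 18519 1140741 7407 0 114815 100000 0 0 18519)) (.E 2))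
    (.S 4 6 (.S 4 3 (.L 5 8 [4, 4, 4, 4] [138, 126, 114, 102, 0, 0] [45, 38, 30, 18, 0, 0] 100000
    44445 44445 1233332 55556 0 100000 44444 0 0 11111) (.L 5 8 [4, 4, 4, 4] [152, 151, 145, 138,
    126, 114] [45, 38, 30, 18, 0, 0] 100000 37500 6250 1062500 6250 0 131250 100000 0 0 18750)) (.E
    2)))) (.E 1)) (.E 1)) (.L 5 8 [4, 4, 4, 4] [152, 151, 145, 138, 126, 114] [] 100000 27778 27778
    1300001 33333 0 100000 0 0 33333 16667))) (.L 5 8 [4, 4, 4, 4] [177, 176, 175, 169, 162, 150]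
    [] 100000 41072 41072 1267857 50000 0 95238 41667 0 8333 13690)

lemma s20_21_8_3_28 {n : ℕ} (hn : 6 ≤ n) : NoNd (d20_21_8_3.R : ℤ) d20_21_8_3.H n d20_21_8_3.a d20_21_8_3.b
    (BlkD.inB (BlkD.upd (BlkD.upd (BlkD.upd (BlkD.upd (fun _ => 0) 0 5) 0 6) 1 4) 1 6)
      (BlkD.upd (BlkD.upd (BlkD.upd (BlkD.upd (BlkD.upd (fun _ => 21) 0 8) 2 3) 0 6) 1 15) 1 7)) :=
  BlkD.tree_sound (BlkD.pairOk_sound k20_21_8_3) (by decide) hn t20_21_8_3_28 _ _ (by decide +kernel)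

/-- certificates of the pair `(8, 3)`, part 29 -/
def t20_21_8_3_29 : BlkD.Tr :=
  .L 5 8 [4, 4, 4, 4] [] [] 100000 28891 28891 1286666 6667 0 100000 46667 0 13333 20000

lemma s20_21_8_3_29 {n : ℕ} (hn : 6 ≤ n) : NoNd (d20_21_8_3.R : ℤ) d20_21_8_3.H n d20_21_8_3.a d20_21_8_3.b
    (BlkD.inB (BlkD.upd (BlkD.upd (BlkD.upd (fun _ => 0) 0 5) 0 6) 1 8)
      (BlkD.upd (BlkD.upd (BlkD.upd (BlkD.upd (fun _ => 21) 0 8) 2 3) 0 6) 1 15)) :=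
  BlkD.tree_sound (BlkD.pairOk_sound k20_21_8_3) (by decide) hn t20_21_8_3_29 _ _ (by decide +kernel)

/-- certificates of the pair `(8, 3)`, part 30 -/
def t20_21_8_3_30 : BlkD.Tr :=
  .E 0

lemma s20_21_8_3_30 {n : ℕ} (hn : 6 ≤ n) : NoNd (d20_21_8_3.R : ℤ) d20_21_8_3.H n d20_21_8_3.a d20_21_8_3.b
    (BlkD.inB (BlkD.upd (BlkD.upd (BlkD.upd (fun _ => 0) 0 5) 0 6) 1 16)
      (BlkD.upd (BlkD.upd (BlkD.upd (fun _ => 21) 0 8) 2 3) 0 6)) :=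
  BlkD.tree_sound (BlkD.pairOk_sound k20_21_8_3) (by decide) hn t20_21_8_3_30 _ _ (by decide +kernel)

/-- certificates of the pair `(8, 3)`, part 31 -/
def t20_21_8_3_31 : BlkD.Tr :=
  .S 0 7 (.S 1 14 (.S 1 7 (.S 1 3 (.L 5 8 [4, 4, 4, 4] [] [] 100000 24638 24638 1300004 33333 0
    91304 59420 2899 23188 20290) (.S 1 5 (.S 1 4 (.L 5 8 [4, 4, 4, 4] [111, 104, 92, 80, 68, 0] []
    100000 25734 25734 1318566 40717 0 94137 41042 5863 16938 22150) (.L 5 8 [4, 4, 4, 4] [139,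
    133, 126, 114, 102, 90] [] 100000 29546 29546 1279548 20455 0 100000 79545 0 11364 15909)) (.L
    5 8 [4, 4, 4, 4] [] [] 100000 28572 14286 1157144 0 0 114286 50000 0 14286 14286))) (.E 0)) (.E
    0)) (.L 5 8 [4, 4, 4, 4] [] [] 100000 7144 7144 1309821 0 0 90179 50000 50000 28571 30357)

lemma s20_21_8_3_31 {n : ℕ} (hn : 6 ≤ n) : NoNd (d20_21_8_3.R : ℤ) d20_21_8_3.H n d20_21_8_3.a d20_21_8_3.b
    (BlkD.inB (BlkD.upd (BlkD.upd (fun _ => 0) 0 5) 0 7)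
      (BlkD.upd (BlkD.upd (fun _ => 21) 0 8) 2 3)) :=
  BlkD.tree_sound (BlkD.pairOk_sound k20_21_8_3) (by decide) hn t20_21_8_3_31 _ _ (by decide +kernel)

/-- certificates of the pair `(8, 3)`, part 32 -/
def t20_21_8_3_32 : BlkD.Tr :=
  .E 1

lemma s20_21_8_3_32 {n : ℕ} (hn : 6 ≤ n) : NoNd (d20_21_8_3.R : ℤ) d20_21_8_3.H n d20_21_8_3.a d20_21_8_3.b
    (BlkD.inB (BlkD.upd (fun _ => 0) 2 4)
      (BlkD.upd (fun _ => 21) 0 8)) :=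
  BlkD.tree_sound (BlkD.pairOk_sound k20_21_8_3) (by decide) hn t20_21_8_3_32 _ _ (by decide +kernel)

/-- certificates of the pair `(8, 3)`, part 33 -/
def t20_21_8_3_33 : BlkD.Tr :=
  .E 0

lemma s20_21_8_3_33 {n : ℕ} (hn : 6 ≤ n) : NoNd (d20_21_8_3.R : ℤ) d20_21_8_3.H n d20_21_8_3.a d20_21_8_3.b
    (BlkD.inB (BlkD.upd (fun _ => 0) 0 9)
      (fun _ => 21)) :=
  BlkD.tree_sound (BlkD.pairOk_sound k20_21_8_3) (by decide) hn t20_21_8_3_33 _ _ (by decide +kernel)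

lemma pr20_21_8_3 {n : ℕ} (hn : 6 ≤ n) : NoPr ((20 : ℕ) : ℤ) ((21 : ℕ) : ℤ) n 8 3 :=
  BlkD.of_root (R := d20_21_8_3.R) (H := d20_21_8_3.H) (a := d20_21_8_3.a) (b := d20_21_8_3.b) (q := 4) (by decide) hn
    (BlkD.sp 0 8 (BlkD.sp 2 3 (BlkD.sp 0 4 (BlkD.sp 0 2 (BlkD.sp 0 1 (BlkD.sp 0 0 (s20_21_8_3_1 hn)
      (BlkD.sp 1 10 (BlkD.sp 1 5 (s20_21_8_3_2 hn) (s20_21_8_3_3 hn)) (s20_21_8_3_4 hn))) (BlkD.sp
      1 10 (BlkD.sp 1 5 (s20_21_8_3_5 hn) (s20_21_8_3_6 hn)) (s20_21_8_3_7 hn))) (BlkD.sp 0 3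
      (BlkD.sp 1 18 (BlkD.sp 1 9 (BlkD.sp 1 4 (s20_21_8_3_8 hn) (s20_21_8_3_9 hn)) (s20_21_8_3_10
      hn)) (s20_21_8_3_11 hn)) (BlkD.sp 1 17 (BlkD.sp 1 8 (BlkD.sp 1 4 (s20_21_8_3_12 hn) (BlkD.sp
      1 6 (s20_21_8_3_13 hn) (BlkD.sp 1 7 (s20_21_8_3_14 hn) (s20_21_8_3_15 hn)))) (s20_21_8_3_16
      hn)) (s20_21_8_3_17 hn)))) (BlkD.sp 0 6 (BlkD.sp 0 5 (BlkD.sp 1 16 (BlkD.sp 1 8 (BlkD.sp 1 4
      (s20_21_8_3_18 hn) (BlkD.sp 1 6 (BlkD.sp 1 5 (s20_21_8_3_19 hn) (s20_21_8_3_20 hn)) (BlkD.sp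
      1 7 (s20_21_8_3_21 hn) (s20_21_8_3_22 hn)))) (s20_21_8_3_23 hn)) (s20_21_8_3_24 hn)) (BlkD.sp
      1 15 (BlkD.sp 1 7 (BlkD.sp 1 3 (s20_21_8_3_25 hn) (BlkD.sp 1 5 (BlkD.sp 1 4 (s20_21_8_3_26
      hn) (s20_21_8_3_27 hn)) (s20_21_8_3_28 hn))) (s20_21_8_3_29 hn)) (s20_21_8_3_30 hn)))
      (s20_21_8_3_31 hn))) (s20_21_8_3_32 hn)) (s20_21_8_3_33 hn))

end BlkC

end Pool.Agent.Lib.MP_f04ccf_co
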