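import Pool.Agent.Lib.MP_f04ccf_co.M.BlkT

/-!
MP_f04ccf_co, block certificate, data `R = 20`, `H = 21`, part 9 (generated, helper99:
bd10.cpp, gen2.py).
-/

set_option autoImplicit false
set_option maxRecDepth 100000

namespace Pool.Agent.Lib.MP_f04ccf_co

namespace BlkC

/-- the numbers of the pair `(8, 4)`, `R = 20`, `H = 21` -/
def d20_21_8_4 : BlkD.Pd :=
  ⟨20, 21, 4, 8, 4, 6, 2, 3, 0, 4, 10, 0, 2, 2, 8, 0, [0, 10, 20, 24, 24, 24, 24], [0, 8, 16, 18,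
    20, 22, 24], [⟨1, 1, 1, 4, 8, [0, 4], [0, 4]⟩, ⟨1, 1, 1, 4, 14, [0, 8], [0, 6]⟩, ⟨2, 1, 1, 4,
    18, [0, 10, 10], [0, 8]⟩]⟩

lemma k20_21_8_4 : BlkD.pairOk d20_21_8_4 = true := by decide +kernel

/-- certificates of the pair `(8, 4)`, part 1 -/
def t20_21_8_4_1 : BlkD.Tr :=
  .L 5 7 [4, 4, 4, 20, 20] [] [] 100000 140000 140000 1140000 80000 0 80000 60000 0 0 0

lemma s20_21_8_4_1 {n : ℕ} (hn : 6 ≤ n) : NoNd (d20_21_8_4.R : ℤ) d20_21_8_4.H n d20_21_8_4.a d20_21_8_4.b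
    (BlkD.inB (fun _ => 0)
      (BlkD.upd (BlkD.upd (BlkD.upd (BlkD.upd (BlkD.upd (BlkD.upd (fun _ => 21) 0 8) 2 4) 0 4) 0 2) 0 1) 0 0)) :=
  BlkD.tree_sound (BlkD.pairOk_sound k20_21_8_4) (by decide) hn t20_21_8_4_1 _ _ (by decide +kernel)

/-- certificates of the pair `(8, 4)`, part 2 -/
def t20_21_8_4_2 : BlkD.Tr :=
  .L 5 7 [4, 4, 4, 20, 20] [] [] 100000 140000 140000 1140000 80000 0 80000 60000 0 0 0

lemma s20_21_8_4_2 {n : ℕ} (hn : 6 ≤ n) : NoNd (d20_21_8_4.R : ℤ) d20_21_8_4.H n d20_21_8_4.a d20_21_8_4.b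
    (BlkD.inB (BlkD.upd (fun _ => 0) 0 1)
      (BlkD.upd (BlkD.upd (BlkD.upd (BlkD.upd (BlkD.upd (BlkD.upd (BlkD.upd (fun _ => 21) 0 8) 2 4) 0 4) 0 2) 0 1) 1 10) 1 5)) :=
  BlkD.tree_sound (BlkD.pairOk_sound k20_21_8_4) (by decide) hn t20_21_8_4_2 _ _ (by decide +kernel)

/-- certificates of the pair `(8, 4)`, part 3 -/
def t20_21_8_4_3 : BlkD.Tr :=
  .S 1 8 (.L 5 7 [4, 4, 4, 20, 20] [] [] 100000 140000 140000 1140000 80000 0 80000 60000 0 0 0)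
    (.L 5 7 [4, 4, 4, 20, 20] [] [] 100000 140000 140000 1140000 80000 0 80000 60000 0 0 0)

lemma s20_21_8_4_3 {n : ℕ} (hn : 6 ≤ n) : NoNd (d20_21_8_4.R : ℤ) d20_21_8_4.H n d20_21_8_4.a d20_21_8_4.b
    (BlkD.inB (BlkD.upd (BlkD.upd (fun _ => 0) 0 1) 1 6)
      (BlkD.upd (BlkD.upd (BlkD.upd (BlkD.upd (BlkD.upd (BlkD.upd (fun _ => 21) 0 8) 2 4) 0 4) 0 2) 0 1) 1 10)) :=
  BlkD.tree_sound (BlkD.pairOk_sound k20_21_8_4) (by decide) hn t20_21_8_4_3 _ _ (by decide +kernel)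

/-- certificates of the pair `(8, 4)`, part 4 -/
def t20_21_8_4_4 : BlkD.Tr :=
  .L 5 7 [4, 4, 4, 20, 20] [] [] 100000 140000 140000 1140000 80000 0 80000 60000 0 0 0

lemma s20_21_8_4_4 {n : ℕ} (hn : 6 ≤ n) : NoNd (d20_21_8_4.R : ℤ) d20_21_8_4.H n d20_21_8_4.a d20_21_8_4.b
    (BlkD.inB (BlkD.upd (BlkD.upd (fun _ => 0) 0 1) 1 11)
      (BlkD.upd (BlkD.upd (BlkD.upd (BlkD.upd (BlkD.upd (fun _ => 21) 0 8) 2 4) 0 4) 0 2) 0 1)) :=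
  BlkD.tree_sound (BlkD.pairOk_sound k20_21_8_4) (by decide) hn t20_21_8_4_4 _ _ (by decide +kernel)

/-- certificates of the pair `(8, 4)`, part 5 -/
def t20_21_8_4_5 : BlkD.Tr :=
  .L 5 7 [4, 4, 4, 20, 20] [] [] 100000 140000 140000 1140000 80000 0 80000 60000 0 0 0

lemma s20_21_8_4_5 {n : ℕ} (hn : 6 ≤ n) : NoNd (d20_21_8_4.R : ℤ) d20_21_8_4.H n d20_21_8_4.a d20_21_8_4.b
    (BlkD.inB (BlkD.upd (fun _ => 0) 0 2)
      (BlkD.upd (BlkD.upd (BlkD.upd (BlkD.upd (BlkD.upd (BlkD.upd (fun _ => 21) 0 8) 2 4) 0 4) 0 2) 1 10) 1 5)) :=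
  BlkD.tree_sound (BlkD.pairOk_sound k20_21_8_4) (by decide) hn t20_21_8_4_5 _ _ (by decide +kernel)

/-- certificates of the pair `(8, 4)`, part 6 -/
def t20_21_8_4_6 : BlkD.Tr :=
  .L 5 7 [4, 4, 4, 20, 20] [] [] 100000 140000 140000 1140000 80000 0 80000 60000 0 0 0

lemma s20_21_8_4_6 {n : ℕ} (hn : 6 ≤ n) : NoNd (d20_21_8_4.R : ℤ) d20_21_8_4.H n d20_21_8_4.a d20_21_8_4.b
    (BlkD.inB (BlkD.upd (BlkD.upd (fun _ => 0) 0 2) 1 6)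
      (BlkD.upd (BlkD.upd (BlkD.upd (BlkD.upd (BlkD.upd (BlkD.upd (fun _ => 21) 0 8) 2 4) 0 4) 0 2) 1 10) 1 8)) :=
  BlkD.tree_sound (BlkD.pairOk_sound k20_21_8_4) (by decide) hn t20_21_8_4_6 _ _ (by decide +kernel)

/-- certificates of the pair `(8, 4)`, part 7 -/
def t20_21_8_4_7 : BlkD.Tr :=
  .L 5 7 [4, 4, 4, 20, 20] [] [] 100000 140000 140000 1140000 80000 0 80000 60000 0 0 0

lemma s20_21_8_4_7 {n : ℕ} (hn : 6 ≤ n) : NoNd (d20_21_8_4.R : ℤ) d20_21_8_4.H n d20_21_8_4.a d20_21_8_4.b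
    (BlkD.inB (BlkD.upd (BlkD.upd (BlkD.upd (fun _ => 0) 0 2) 1 6) 1 9)
      (BlkD.upd (BlkD.upd (BlkD.upd (BlkD.upd (BlkD.upd (fun _ => 21) 0 8) 2 4) 0 4) 0 2) 1 10)) :=
  BlkD.tree_sound (BlkD.pairOk_sound k20_21_8_4) (by decide) hn t20_21_8_4_7 _ _ (by decide +kernel)

/-- certificates of the pair `(8, 4)`, part 8 -/
def t20_21_8_4_8 : BlkD.Tr :=
  .L 5 7 [4, 4, 4, 20, 20] [] [] 100000 140000 140000 1140000 80000 0 80000 60000 0 0 0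

lemma s20_21_8_4_8 {n : ℕ} (hn : 6 ≤ n) : NoNd (d20_21_8_4.R : ℤ) d20_21_8_4.H n d20_21_8_4.a d20_21_8_4.b
    (BlkD.inB (BlkD.upd (BlkD.upd (fun _ => 0) 0 2) 1 11)
      (BlkD.upd (BlkD.upd (BlkD.upd (BlkD.upd (fun _ => 21) 0 8) 2 4) 0 4) 0 2)) :=
  BlkD.tree_sound (BlkD.pairOk_sound k20_21_8_4) (by decide) hn t20_21_8_4_8 _ _ (by decide +kernel)

/-- certificates of the pair `(8, 4)`, part 9 -/
def t20_21_8_4_9 : BlkD.Tr :=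
  .L 5 7 [4, 4, 4, 20, 20] [] [] 100000 8334 8334 1283333 16667 0 16667 50000 0 0 0

lemma s20_21_8_4_9 {n : ℕ} (hn : 6 ≤ n) : NoNd (d20_21_8_4.R : ℤ) d20_21_8_4.H n d20_21_8_4.a d20_21_8_4.b
    (BlkD.inB (BlkD.upd (fun _ => 0) 0 3)
      (BlkD.upd (BlkD.upd (BlkD.upd (BlkD.upd (BlkD.upd (BlkD.upd (BlkD.upd (fun _ => 21) 0 8) 2 4) 0 4) 0 3) 1 18) 1 9) 1 4)) :=
  BlkD.tree_sound (BlkD.pairOk_sound k20_21_8_4) (by decide) hn t20_21_8_4_9 _ _ (by decide +kernel)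

/-- certificates of the pair `(8, 4)`, part 10 -/
def t20_21_8_4_10 : BlkD.Tr :=
  .S 1 6 (.L 5 7 [4, 4, 4, 20, 20] [] [] 100000 1924 1924 1407693 26923 0 38462 30769 0 23077
    11538) (.L 5 7 [4, 4, 4, 20, 20] [138, 138, 134, 130, 120, 110] [] 100000 16667 16667 1433336
    33333 0 33333 33333 0 0 0)

lemma s20_21_8_4_10 {n : ℕ} (hn : 6 ≤ n) : NoNd (d20_21_8_4.R : ℤ) d20_21_8_4.H n d20_21_8_4.a d20_21_8_4.b
    (BlkD.inB (BlkD.upd (BlkD.upd (fun _ => 0) 0 3) 1 5)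
      (BlkD.upd (BlkD.upd (BlkD.upd (BlkD.upd (BlkD.upd (BlkD.upd (BlkD.upd (fun _ => 21) 0 8) 2 4) 0 4) 0 3) 1 18) 1 9) 1 7)) :=
  BlkD.tree_sound (BlkD.pairOk_sound k20_21_8_4) (by decide) hn t20_21_8_4_10 _ _ (by decide +kernel)

/-- certificates of the pair `(8, 4)`, part 11 -/
def t20_21_8_4_11 : BlkD.Tr :=
  .S 1 8 (.L 5 7 [4, 4, 4, 20, 20] [158, 158, 158, 154, 150, 140] [] 100000 30000 30000 1420000
    40000 0 60000 40000 0 20000 20000) (.L 5 7 [4, 4, 4, 20, 20] [180, 180, 180, 180, 176, 172] []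
    100000 50000 50000 1350000 50000 0 75000 50000 0 0 0)

lemma s20_21_8_4_11 {n : ℕ} (hn : 6 ≤ n) : NoNd (d20_21_8_4.R : ℤ) d20_21_8_4.H n d20_21_8_4.a d20_21_8_4.b
    (BlkD.inB (BlkD.upd (BlkD.upd (BlkD.upd (fun _ => 0) 0 3) 1 5) 1 8)
      (BlkD.upd (BlkD.upd (BlkD.upd (BlkD.upd (BlkD.upd (BlkD.upd (fun _ => 21) 0 8) 2 4) 0 4) 0 3) 1 18) 1 9)) :=
  BlkD.tree_sound (BlkD.pairOk_sound k20_21_8_4) (by decide) hn t20_21_8_4_11 _ _ (by decide +kernel)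

/-- certificates of the pair `(8, 4)`, part 12 -/
def t20_21_8_4_12 : BlkD.Tr :=
  .S 1 11 (.S 1 10 (.L 5 7 [4, 4, 4, 20, 20] [204, 204, 204, 204, 204, 200] [] 100000 118750 118750
    1175000 81250 0 100000 50000 0 6250 18750) (.L 5 7 [4, 4, 4, 20, 20] [230, 230, 230, 230, 230,
    230] [] 100000 100000 100000 1100000 100000 0 100000 0 0 0 0)) (.L 5 7 [4, 4, 4, 20, 20] [258,
    258, 258, 258, 258, 258] [] 100000 200000 150000 700000 150000 0 150000 0 0 0 0)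

lemma s20_21_8_4_12 {n : ℕ} (hn : 6 ≤ n) : NoNd (d20_21_8_4.R : ℤ) d20_21_8_4.H n d20_21_8_4.a d20_21_8_4.b
    (BlkD.inB (BlkD.upd (BlkD.upd (fun _ => 0) 0 3) 1 10)
      (BlkD.upd (BlkD.upd (BlkD.upd (BlkD.upd (BlkD.upd (BlkD.upd (BlkD.upd (fun _ => 21) 0 8) 2 4) 0 4) 0 3) 1 18) 1 14) 1 12)) :=
  BlkD.tree_sound (BlkD.pairOk_sound k20_21_8_4) (by decide) hn t20_21_8_4_12 _ _ (by decide +kernel)

/-- certificates of the pair `(8, 4)`, part 13 -/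
def t20_21_8_4_13 : BlkD.Tr :=
  .S 1 13 (.L 5 7 [4, 4, 4, 20, 20] [288, 288, 288, 288, 288, 288] [] 100000 357142 228571 3 228571
    0 228571 0 0 0 0) (.L 5 7 [4, 4, 4, 20, 20] [320, 320, 320, 320, 320, 320] [] 100000 279310
    189655 3 189655 0 189655 3448 0 0 0)

lemma s20_21_8_4_13 {n : ℕ} (hn : 6 ≤ n) : NoNd (d20_21_8_4.R : ℤ) d20_21_8_4.H n d20_21_8_4.a d20_21_8_4.b
    (BlkD.inB (BlkD.upd (BlkD.upd (BlkD.upd (fun _ => 0) 0 3) 1 10) 1 13)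
      (BlkD.upd (BlkD.upd (BlkD.upd (BlkD.upd (BlkD.upd (BlkD.upd (fun _ => 21) 0 8) 2 4) 0 4) 0 3) 1 18) 1 14)) :=
  BlkD.tree_sound (BlkD.pairOk_sound k20_21_8_4) (by decide) hn t20_21_8_4_13 _ _ (by decide +kernel)

/-- certificates of the pair `(8, 4)`, part 14 -/
def t20_21_8_4_14 : BlkD.Tr :=
  .E 0

lemma s20_21_8_4_14 {n : ℕ} (hn : 6 ≤ n) : NoNd (d20_21_8_4.R : ℤ) d20_21_8_4.H n d20_21_8_4.a d20_21_8_4.b
    (BlkD.inB (BlkD.upd (BlkD.upd (BlkD.upd (fun _ => 0) 0 3) 1 10) 1 15)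
      (BlkD.upd (BlkD.upd (BlkD.upd (BlkD.upd (BlkD.upd (fun _ => 21) 0 8) 2 4) 0 4) 0 3) 1 18)) :=
  BlkD.tree_sound (BlkD.pairOk_sound k20_21_8_4) (by decide) hn t20_21_8_4_14 _ _ (by decide +kernel)

/-- certificates of the pair `(8, 4)`, part 15 -/
def t20_21_8_4_15 : BlkD.Tr :=
  .E 0

lemma s20_21_8_4_15 {n : ℕ} (hn : 6 ≤ n) : NoNd (d20_21_8_4.R : ℤ) d20_21_8_4.H n d20_21_8_4.a d20_21_8_4.b
    (BlkD.inB (BlkD.upd (BlkD.upd (fun _ => 0) 0 3) 1 19)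
      (BlkD.upd (BlkD.upd (BlkD.upd (BlkD.upd (fun _ => 21) 0 8) 2 4) 0 4) 0 3)) :=
  BlkD.tree_sound (BlkD.pairOk_sound k20_21_8_4) (by decide) hn t20_21_8_4_15 _ _ (by decide +kernel)

/-- certificates of the pair `(8, 4)`, part 16 -/
def t20_21_8_4_16 : BlkD.Tr :=
  .L 5 7 [4, 4, 4, 20, 20] [] [] 100000 9377 9377 1362500 22917 7292 22917 45833 0 4167 2083

lemma s20_21_8_4_16 {n : ℕ} (hn : 6 ≤ n) : NoNd (d20_21_8_4.R : ℤ) d20_21_8_4.H n d20_21_8_4.a d20_21_8_4.b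
    (BlkD.inB (BlkD.upd (BlkD.upd (fun _ => 0) 0 3) 0 4)
      (BlkD.upd (BlkD.upd (BlkD.upd (BlkD.upd (BlkD.upd (BlkD.upd (fun _ => 21) 0 8) 2 4) 0 4) 1 17) 1 8) 1 4)) :=
  BlkD.tree_sound (BlkD.pairOk_sound k20_21_8_4) (by decide) hn t20_21_8_4_16 _ _ (by decide +kernel)

/-- certificates of the pair `(8, 4)`, part 17 -/
def t20_21_8_4_17 : BlkD.Tr :=
  .S 1 5 (.L 5 7 [4, 4, 4, 20, 20] [110, 106, 96, 86, 72, 60] [] 100000 5264 5264 1405265 31579 0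
    47368 36842 0 21053 15789) (.S 2 2 (.L 5 7 [4, 4, 4, 20, 20] [132, 128, 124, 114, 104, 90] []
    100000 19698 19698 1430304 36364 6061 42424 39394 0 18182 18182) (.L 5 7 [4, 4, 4, 20, 20]
    [132, 128, 124, 114, 104, 90] [] 100000 0 0 1450000 25000 0 50000 25000 0 25000 12500))

lemma s20_21_8_4_17 {n : ℕ} (hn : 6 ≤ n) : NoNd (d20_21_8_4.R : ℤ) d20_21_8_4.H n d20_21_8_4.a d20_21_8_4.b
    (BlkD.inB (BlkD.upd (BlkD.upd (BlkD.upd (fun _ => 0) 0 3) 0 4) 1 5)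
      (BlkD.upd (BlkD.upd (BlkD.upd (BlkD.upd (BlkD.upd (BlkD.upd (fun _ => 21) 0 8) 2 4) 0 4) 1 17) 1 8) 1 6)) :=
  BlkD.tree_sound (BlkD.pairOk_sound k20_21_8_4) (by decide) hn t20_21_8_4_17 _ _ (by decide +kernel)

/-- certificates of the pair `(8, 4)`, part 18 -/
def t20_21_8_4_18 : BlkD.Tr :=
  .S 1 7 (.S 2 2 (.S 2 1 (.L 5 7 [4, 4, 4, 20, 20] [152, 152, 148, 144, 134, 124] [] 100000 73810
    73810 1319048 47619 28571 66667 61905 0 4762 0) (.L 5 7 [4, 4, 4, 20, 20] [152, 152, 148, 144,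
    134, 124] [] 100000 25001 25001 1444446 40741 0 51852 35185 0 16667 12963)) (.L 5 7 [4, 4, 4,
    20, 20] [152, 152, 148, 144, 134, 124] [] 100000 15625 15625 1437500 37500 0 56250 25000 0
    31250 18750)) (.S 2 2 (.S 2 1 (.L 5 7 [4, 4, 4, 20, 20] [174, 174, 174, 170, 166, 156] []
    100000 100000 100000 1275000 50000 50000 75000 75000 0 0 0) (.S 3 7 (.S 3 3 (.S 3 1 (.L 5 7 [4,
    4, 4, 20, 20] [174, 174, 174, 170, 166, 156] [] 100000 16667 16667 1366668 33333 0 66667 33333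
    0 0 0) (.S 3 2 (.L 5 7 [4, 4, 4, 20, 20] [174, 174, 174, 170, 166, 156] [36, 22, 10, 0, 0, 0]
    100000 17647 17647 1458824 35294 0 64706 35294 5882 0 0) (.S 4 8 (.S 4 4 (.L 5 7 [4, 4, 4, 20,
    20] [166, 156, 146, 132, 120, 0] [52, 44, 30, 18, 0, 0] 100000 83334 83334 1299999 66667 0
    100000 66667 0 0 0) (.L 5 7 [4, 4, 4, 20, 20] [174, 174, 174, 170, 166, 156] [52, 44, 30, 18,
    0, 0] 100000 71430 1 971427 21429 0 171429 85714 0 0 0)) (.E 2)))) (.L 5 7 [4, 4, 4, 20, 20]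
    [174, 174, 174, 170, 166, 156] [] 100000 150000 150000 1162500 87500 0 100000 50000 0 0 0)) (.E
    1))) (.S 2 3 (.S 3 6 (.S 3 3 (.S 3 1 (.L 5 7 [4, 4, 4, 20, 20] [174, 174, 174, 170, 166, 156]
    [] 100000 16667 16667 1433335 33333 0 66667 33333 0 0 0) (.S 3 2 (.L 4 5 [4, 4, 6, 20, 20]
    [174, 174, 174, 170, 166, 156] [40, 26, 14, 0, 0, 0] 100000 160000 160000 1140000 80000 0
    100000 100000 0 0 0) (.L 5 7 [4, 4, 4, 20, 20] [174, 174, 174, 170, 166, 156] [58, 50, 36, 24,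
    0, 0] 100000 200000 200000 1000000 100000 0 100000 100000 0 0 0))) (.E 1)) (.E 1)) (.L 5 7 [4,
    4, 4, 20, 20] [174, 174, 174, 170, 166, 156] [] 100000 50000 50000 1350000 50000 0 100000 0 0
    50000 0)))

lemma s20_21_8_4_18 {n : ℕ} (hn : 6 ≤ n) : NoNd (d20_21_8_4.R : ℤ) d20_21_8_4.H n d20_21_8_4.a d20_21_8_4.b
    (BlkD.inB (BlkD.upd (BlkD.upd (BlkD.upd (BlkD.upd (fun _ => 0) 0 3) 0 4) 1 5) 1 7)
      (BlkD.upd (BlkD.upd (BlkD.upd (BlkD.upd (BlkD.upd (fun _ => 21) 0 8) 2 4) 0 4) 1 17) 1 8)) :=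
  BlkD.tree_sound (BlkD.pairOk_sound k20_21_8_4) (by decide) hn t20_21_8_4_18 _ _ (by decide +kernel)

/-- certificates of the pair `(8, 4)`, part 19 -/
def t20_21_8_4_19 : BlkD.Tr :=
  .S 1 13 (.S 1 11 (.S 1 10 (.S 1 9 (.S 2 2 (.S 2 1 (.L 5 7 [4, 4, 4, 20, 20] [198, 198, 198, 198,
    194, 190] [] 100000 100000 100000 1260000 60000 40000 80000 60000 0 0 0) (.S 3 6 (.S 3 3 (.S 3
    1 (.L 5 7 [4, 4, 4, 20, 20] [198, 198, 198, 198, 194, 190] [] 100000 16667 16667 1400002 33333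
    0 66667 33333 0 0 0) (.S 3 2 (.L 4 6 [4, 4, 5, 20, 20] [198, 198, 198, 198, 194, 190] [36, 22,
    10, 0, 0, 0] 100000 100001 100001 1266666 66667 0 100000 33333 0 0 0) (.L 4 6 [4, 4, 5, 20, 20]
    [198, 198, 198, 198, 194, 190] [52, 44, 30, 18, 0, 0] 100000 142857 142857 1171430 85714 0
    100000 42857 0 0 0))) (.L 4 6 [4, 4, 5, 20, 20] [198, 198, 198, 198, 194, 190] [] 100000 183334
    166667 966666 100000 0 116667 50000 0 0 0)) (.E 1))) (.L 4 6 [4, 4, 5, 20, 20] [198, 198, 198,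
    198, 194, 190] [] 100000 90000 90000 1280000 60000 0 100000 40000 0 0 0)) (.L 4 6 [4, 4, 5, 20,
    20] [224, 224, 224, 224, 224, 220] [] 100000 94117 94117 1232357 73529 0 100000 33333 0 8824
    2941)) (.L 4 6 [4, 4, 5, 20, 20] [252, 252, 252, 252, 252, 252] [] 100000 175000 125000 825000
    125000 0 150000 25000 0 0 0)) (.S 1 12 (.L 4 6 [4, 4, 5, 20, 20] [282, 282, 282, 282, 282, 282]
    [] 100000 250000 25000 0 175000 0 325000 25000 0 0 0) (.E 0))) (.E 0)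

lemma s20_21_8_4_19 {n : ℕ} (hn : 6 ≤ n) : NoNd (d20_21_8_4.R : ℤ) d20_21_8_4.H n d20_21_8_4.a d20_21_8_4.b
    (BlkD.inB (BlkD.upd (BlkD.upd (BlkD.upd (fun _ => 0) 0 3) 0 4) 1 9)
      (BlkD.upd (BlkD.upd (BlkD.upd (BlkD.upd (fun _ => 21) 0 8) 2 4) 0 4) 1 17)) :=
  BlkD.tree_sound (BlkD.pairOk_sound k20_21_8_4) (by decide) hn t20_21_8_4_19 _ _ (by decide +kernel)

/-- certificates of the pair `(8, 4)`, part 20 -/
def t20_21_8_4_20 : BlkD.Tr :=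
  .E 0

lemma s20_21_8_4_20 {n : ℕ} (hn : 6 ≤ n) : NoNd (d20_21_8_4.R : ℤ) d20_21_8_4.H n d20_21_8_4.a d20_21_8_4.b
    (BlkD.inB (BlkD.upd (BlkD.upd (BlkD.upd (fun _ => 0) 0 3) 0 4) 1 18)
      (BlkD.upd (BlkD.upd (BlkD.upd (fun _ => 21) 0 8) 2 4) 0 4)) :=
  BlkD.tree_sound (BlkD.pairOk_sound k20_21_8_4) (by decide) hn t20_21_8_4_20 _ _ (by decide +kernel)

/-- certificates of the pair `(8, 4)`, part 21 -/
def t20_21_8_4_21 : BlkD.Tr :=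
  .L 4 6 [4, 4, 5, 20, 20] [] [] 100000 3334 3334 1420000 26667 0 40000 73333 0 20000 20000

lemma s20_21_8_4_21 {n : ℕ} (hn : 6 ≤ n) : NoNd (d20_21_8_4.R : ℤ) d20_21_8_4.H n d20_21_8_4.a d20_21_8_4.b
    (BlkD.inB (BlkD.upd (fun _ => 0) 0 5)
      (BlkD.upd (BlkD.upd (BlkD.upd (BlkD.upd (BlkD.upd (BlkD.upd (BlkD.upd (fun _ => 21) 0 8) 2 4) 0 6) 0 5) 1 16) 1 8) 1 4)) :=
  BlkD.tree_sound (BlkD.pairOk_sound k20_21_8_4) (by decide) hn t20_21_8_4_21 _ _ (by decide +kernel)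

/-- certificates of the pair `(8, 4)`, part 22 -/
def t20_21_8_4_22 : BlkD.Tr :=
  .S 1 5 (.S 2 2 (.S 2 1 (.L 4 6 [4, 4, 5, 20, 20] [120, 116, 106, 96, 82, 70] [] 100000 0 0
    1478951 15789 21053 36842 78947 0 21053 21053) (.L 5 7 [4, 4, 4, 20, 20] [120, 116, 106, 96,
    82, 70] [] 100000 0 0 1497436 20513 10256 41026 50000 0 23077 23077)) (.L 5 7 [4, 4, 4, 20, 20]
    [120, 116, 106, 96, 82, 70] [] 100000 1 1 1466666 26667 0 40000 26667 0 33333 33333)) (.S 2 2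
    (.S 2 1 (.L 5 7 [4, 4, 4, 20, 20] [144, 140, 136, 126, 116, 102] [] 100000 75002 75002 1345452
    45455 36364 68182 63636 0 4545 0) (.S 3 8 (.S 3 4 (.S 3 2 (.L 5 7 [4, 4, 4, 20, 20] [144, 140,
    136, 126, 116, 102] [] 100000 10000 10000 1440000 20000 20000 40000 20000 0 0 0) (.S 3 3 (.L 5
    7 [4, 4, 4, 20, 20] [144, 140, 136, 126, 116, 102] [52, 44, 30, 18, 0, 0] 100000 6522 6522
    1472465 27536 8696 46377 39130 0 14493 14493) (.S 4 6 (.S 4 3 (.L 7 9 [5, 4, 3, 20, 20] [126,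
    116, 102, 90, 0, 0] [70, 62, 54, 40, 28, 0] 100000 16541 16541 1465416 36090 18045 61654 54135
    1504 9023 752) (.L 7 9 [5, 4, 3, 20, 20] [144, 140, 136, 126, 116, 102] [70, 62, 54, 40, 28, 0]
    100000 25000 0 1250000 25000 0 125000 25000 0 0 0)) (.E 2)))) (.L 7 9 [5, 4, 3, 20, 20] [144,
    140, 136, 126, 116, 102] [] 100000 100000 100000 1220000 60000 0 80000 100000 0 0 0)) (.E 1)))
    (.S 2 3 (.S 3 7 (.S 3 3 (.S 3 1 (.L 5 7 [4, 4, 4, 20, 20] [144, 140, 136, 126, 116, 102] []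
    100000 12500 12500 1425000 25000 25000 50000 25000 0 0 0) (.S 3 2 (.L 5 7 [4, 4, 4, 20, 20]
    [144, 140, 136, 126, 116, 102] [40, 26, 14, 0, 0, 0] 100000 8333 8333 1466668 33333 0 50000
    33333 0 16667 16667) (.L 7 9 [5, 4, 3, 20, 20] [144, 140, 136, 126, 116, 102] [58, 50, 36, 24,
    0, 0] 100000 1 1 1482608 30435 0 65217 47826 0 30435 15217))) (.E 1)) (.E 1)) (.S 3 6 (.S 3 3
    (.S 3 1 (.L 5 7 [4, 4, 4, 20, 20] [144, 140, 136, 126, 116, 102] [] 100000 3061 3061 1436736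
    32653 0 42857 2041 2041 24490 22449) (.S 3 2 (.L 7 9 [5, 4, 3, 20, 20] [144, 140, 136, 126,
    116, 102] [44, 30, 18, 0, 0, 0] 100000 50000 50000 1350000 50000 0 100000 0 0 0 0) (.E 1))) (.E
    1)) (.E 1))))

lemma s20_21_8_4_22 {n : ℕ} (hn : 6 ≤ n) : NoNd (d20_21_8_4.R : ℤ) d20_21_8_4.H n d20_21_8_4.a d20_21_8_4.b
    (BlkD.inB (BlkD.upd (BlkD.upd (fun _ => 0) 0 5) 1 5)
      (BlkD.upd (BlkD.upd (BlkD.upd (BlkD.upd (BlkD.upd (BlkD.upd (BlkD.upd (fun _ => 21) 0 8) 2 4) 0 6) 0 5) 1 16) 1 8) 1 6)) :=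
  BlkD.tree_sound (BlkD.pairOk_sound k20_21_8_4) (by decide) hn t20_21_8_4_22 _ _ (by decide +kernel)

/-- certificates of the pair `(8, 4)`, part 23 -/
def t20_21_8_4_23 : BlkD.Tr :=
  .S 1 7 (.S 2 2 (.S 2 1 (.L 5 7 [4, 4, 4, 20, 20] [166, 166, 162, 158, 148, 138] [] 100000 73610
    73610 1333336 44444 50000 72222 75000 0 0 0) (.S 3 7 (.S 3 3 (.S 3 1 (.L 5 7 [4, 4, 4, 20, 20]
    [166, 166, 162, 158, 148, 138] [] 100000 16667 16667 1400001 33333 0 66667 0 0 0 0) (.S 3 2 (.L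
    5 7 [4, 4, 4, 20, 20] [166, 166, 162, 158, 148, 138] [36, 22, 10, 0, 0, 0] 100000 10001 10001
    1471274 28727 6909 62545 35636 3636 5091 2545) (.S 4 7 (.S 4 3 (.L 5 7 [4, 4, 4, 20, 20] [148,
    138, 124, 112, 0, 0] [52, 44, 30, 18, 0, 0] 100000 40000 40000 1400000 40000 0 100000 80000 0 0
    0) (.L 5 7 [4, 4, 4, 20, 20] [166, 166, 162, 158, 148, 138] [52, 44, 30, 18, 0, 0] 100000 0 0
    1400000 0 0 100000 50000 0 0 0)) (.E 2)))) (.S 3 5 (.S 3 4 (.L 4 6 [4, 4, 5, 20, 20] [166, 166,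
    162, 158, 148, 138] [70, 62, 54, 40, 28, 0] 100000 87235 87235 1312765 57447 0 100000 38298 0
    19149 6383) (.L 4 6 [4, 4, 5, 20, 20] [166, 166, 162, 158, 148, 138] [86, 82, 74, 66, 52, 40]
    100000 133335 133335 1166665 66667 0 100000 100000 0 0 0)) (.E 1))) (.E 1))) (.S 2 3 (.S 3 6
    (.S 3 3 (.S 3 1 (.L 4 6 [4, 4, 5, 20, 20] [166, 166, 162, 158, 148, 138] [] 100000 25000 25000
    1433335 33333 0 66667 50000 0 16667 8333) (.L 5 7 [4, 4, 4, 20, 20] [166, 166, 162, 158, 148,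
    138] [] 100000 12500 12500 1462500 37500 0 75000 25000 0 37500 6250)) (.E 1)) (.E 1)) (.L 5 7
    [4, 4, 4, 20, 20] [166, 166, 162, 158, 148, 138] [] 100000 50000 50000 1350000 50000 0 100000 0
    0 50000 0))) (.L 5 7 [4, 4, 4, 20, 20] [190, 190, 190, 186, 182, 172] [] 100000 60715 60715
    1357143 57143 0 100000 35714 0 7143 0)

lemma s20_21_8_4_23 {n : ℕ} (hn : 6 ≤ n) : NoNd (d20_21_8_4.R : ℤ) d20_21_8_4.H n d20_21_8_4.a d20_21_8_4.b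
    (BlkD.inB (BlkD.upd (BlkD.upd (BlkD.upd (fun _ => 0) 0 5) 1 5) 1 7)
      (BlkD.upd (BlkD.upd (BlkD.upd (BlkD.upd (BlkD.upd (BlkD.upd (fun _ => 21) 0 8) 2 4) 0 6) 0 5) 1 16) 1 8)) :=
  BlkD.tree_sound (BlkD.pairOk_sound k20_21_8_4) (by decide) hn t20_21_8_4_23 _ _ (by decide +kernel)

/-- certificates of the pair `(8, 4)`, part 24 -/
def t20_21_8_4_24 : BlkD.Tr :=
  .S 1 12 (.S 1 10 (.S 1 9 (.L 5 7 [4, 4, 4, 20, 20] [216, 216, 216, 216, 212, 208] [] 100000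
    100000 100000 1225000 75000 0 100000 75000 0 0 0) (.L 5 7 [4, 4, 4, 20, 20] [244, 244, 244,
    244, 244, 240] [] 100000 100000 50000 1000000 100000 0 150000 25000 0 0 0)) (.E 0)) (.E 0)

lemma s20_21_8_4_24 {n : ℕ} (hn : 6 ≤ n) : NoNd (d20_21_8_4.R : ℤ) d20_21_8_4.H n d20_21_8_4.a d20_21_8_4.b
    (BlkD.inB (BlkD.upd (BlkD.upd (fun _ => 0) 0 5) 1 9)
      (BlkD.upd (BlkD.upd (BlkD.upd (BlkD.upd (BlkD.upd (fun _ => 21) 0 8) 2 4) 0 6) 0 5) 1 16)) :=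
  BlkD.tree_sound (BlkD.pairOk_sound k20_21_8_4) (by decide) hn t20_21_8_4_24 _ _ (by decide +kernel)

/-- certificates of the pair `(8, 4)`, part 25 -/
def t20_21_8_4_25 : BlkD.Tr :=
  .E 0

lemma s20_21_8_4_25 {n : ℕ} (hn : 6 ≤ n) : NoNd (d20_21_8_4.R : ℤ) d20_21_8_4.H n d20_21_8_4.a d20_21_8_4.b
    (BlkD.inB (BlkD.upd (BlkD.upd (fun _ => 0) 0 5) 1 17)
      (BlkD.upd (BlkD.upd (BlkD.upd (BlkD.upd (fun _ => 21) 0 8) 2 4) 0 6) 0 5)) :=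
  BlkD.tree_sound (BlkD.pairOk_sound k20_21_8_4) (by decide) hn t20_21_8_4_25 _ _ (by decide +kernel)

/-- certificates of the pair `(8, 4)`, part 26 -/
def t20_21_8_4_26 : BlkD.Tr :=
  .S 1 15 (.S 1 7 (.S 1 3 (.L 5 7 [4, 4, 4, 20, 20] [] [] 100000 8335 8335 1420000 36667 6667 60000
    56667 0 20000 20000) (.S 1 5 (.S 1 4 (.L 5 7 [4, 4, 4, 20, 20] [106, 96, 86, 72, 60, 0] []
    100000 8333 8333 1466669 33333 0 66667 50000 0 16667 16667) (.S 2 2 (.S 2 1 (.L 5 7 [4, 4, 4,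
    20, 20] [130, 126, 116, 106, 92, 80] [] 100000 33333 33333 1400002 33333 33333 66667 66667 0 0
    0) (.S 3 8 (.S 3 4 (.S 3 2 (.L 5 7 [4, 4, 4, 20, 20] [130, 126, 116, 106, 92, 80] [] 100000
    10243 10243 1452086 25000 12500 39931 27083 2431 2083 2083) (.S 3 3 (.L 5 7 [4, 4, 4, 20, 20]
    [130, 126, 116, 106, 92, 80] [52, 44, 30, 18, 0, 0] 100000 1 1 1491304 26087 4348 54348 47826 0
    26087 13043) (.L 7 9 [5, 4, 3, 20, 20] [130, 126, 116, 106, 92, 80] [70, 62, 54, 40, 28, 0]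
    100000 1 1 1495877 30928 15464 64948 46392 1031 29897 14948))) (.L 7 9 [5, 4, 3, 20, 20] [130,
    126, 116, 106, 92, 80] [] 100000 16667 16667 1366667 33333 0 66667 100000 0 0 0)) (.E 1))) (.L
    7 9 [5, 4, 3, 20, 20] [130, 126, 116, 106, 92, 80] [] 100000 0 0 1494918 33898 1695 62712 62712
    5085 28814 14407))) (.S 1 6 (.L 7 9 [5, 4, 3, 20, 20] [156, 152, 148, 138, 128, 114] [] 100000
    12219 12219 1474721 30618 1404 96629 33708 0 6180 3090) (.L 7 9 [5, 4, 3, 20, 20] [180, 180,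
    176, 172, 162, 152] [] 100000 19048 19048 1442859 47619 0 80952 33333 0 9524 4762)))) (.L 7 9
    [5, 4, 3, 20, 20] [] [] 100000 3 3 1483333 5556 0 100000 33333 0 5556 5556)) (.E 0)

lemma s20_21_8_4_26 {n : ℕ} (hn : 6 ≤ n) : NoNd (d20_21_8_4.R : ℤ) d20_21_8_4.H n d20_21_8_4.a d20_21_8_4.b
    (BlkD.inB (BlkD.upd (BlkD.upd (fun _ => 0) 0 5) 0 6)
      (BlkD.upd (BlkD.upd (BlkD.upd (fun _ => 21) 0 8) 2 4) 0 6)) :=
  BlkD.tree_sound (BlkD.pairOk_sound k20_21_8_4) (by decide) hn t20_21_8_4_26 _ _ (by decide +kernel)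

/-- certificates of the pair `(8, 4)`, part 27 -/
def t20_21_8_4_27 : BlkD.Tr :=
  .S 0 7 (.S 1 14 (.S 1 7 (.S 1 3 (.L 7 9 [5, 4, 3, 20, 20] [] [] 100000 1667 1667 1480002 20000
    20000 60000 40000 0 16667 8333) (.S 1 5 (.L 7 9 [5, 4, 3, 20, 20] [] [] 100000 2874 2874
    1480461 19540 5747 80460 63218 2299 11494 5747) (.L 7 9 [5, 4, 3, 20, 20] [] [] 100000 1 1
    1463636 9091 9091 100000 18182 0 9091 9091))) (.E 0)) (.E 0)) (.L 7 9 [5, 4, 3, 20, 20] [] []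
    100000 5679 5679 1439612 0 30194 65097 60388 5817 13019 6510)

lemma s20_21_8_4_27 {n : ℕ} (hn : 6 ≤ n) : NoNd (d20_21_8_4.R : ℤ) d20_21_8_4.H n d20_21_8_4.a d20_21_8_4.b
    (BlkD.inB (BlkD.upd (BlkD.upd (fun _ => 0) 0 5) 0 7)
      (BlkD.upd (BlkD.upd (fun _ => 21) 0 8) 2 4)) :=
  BlkD.tree_sound (BlkD.pairOk_sound k20_21_8_4) (by decide) hn t20_21_8_4_27 _ _ (by decide +kernel)

/-- certificates of the pair `(8, 4)`, part 28 -/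
def t20_21_8_4_28 : BlkD.Tr :=
  .E 1

lemma s20_21_8_4_28 {n : ℕ} (hn : 6 ≤ n) : NoNd (d20_21_8_4.R : ℤ) d20_21_8_4.H n d20_21_8_4.a d20_21_8_4.b
    (BlkD.inB (BlkD.upd (fun _ => 0) 2 5)
      (BlkD.upd (fun _ => 21) 0 8)) :=
  BlkD.tree_sound (BlkD.pairOk_sound k20_21_8_4) (by decide) hn t20_21_8_4_28 _ _ (by decide +kernel)

/-- certificates of the pair `(8, 4)`, part 29 -/
def t20_21_8_4_29 : BlkD.Tr :=
  .E 0

lemma s20_21_8_4_29 {n : ℕ} (hn : 6 ≤ n) : NoNd (d20_21_8_4.R : ℤ) d20_21_8_4.H n d20_21_8_4.a d20_21_8_4.b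
    (BlkD.inB (BlkD.upd (fun _ => 0) 0 9)
      (fun _ => 21)) :=
  BlkD.tree_sound (BlkD.pairOk_sound k20_21_8_4) (by decide) hn t20_21_8_4_29 _ _ (by decide +kernel)

lemma pr20_21_8_4 {n : ℕ} (hn : 6 ≤ n) : NoPr ((20 : ℕ) : ℤ) ((21 : ℕ) : ℤ) n 8 4 :=
  BlkD.of_root (R := d20_21_8_4.R) (H := d20_21_8_4.H) (a := d20_21_8_4.a) (b := d20_21_8_4.b) (q := 4) (by decide) hn
    (BlkD.sp 0 8 (BlkD.sp 2 4 (BlkD.sp 0 4 (BlkD.sp 0 2 (BlkD.sp 0 1 (BlkD.sp 0 0 (s20_21_8_4_1 hn)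
      (BlkD.sp 1 10 (BlkD.sp 1 5 (s20_21_8_4_2 hn) (s20_21_8_4_3 hn)) (s20_21_8_4_4 hn))) (BlkD.sp
      1 10 (BlkD.sp 1 5 (s20_21_8_4_5 hn) (BlkD.sp 1 8 (s20_21_8_4_6 hn) (s20_21_8_4_7 hn)))
      (s20_21_8_4_8 hn))) (BlkD.sp 0 3 (BlkD.sp 1 18 (BlkD.sp 1 9 (BlkD.sp 1 4 (s20_21_8_4_9 hn)
      (BlkD.sp 1 7 (s20_21_8_4_10 hn) (s20_21_8_4_11 hn))) (BlkD.sp 1 14 (BlkD.sp 1 12
      (s20_21_8_4_12 hn) (s20_21_8_4_13 hn)) (s20_21_8_4_14 hn))) (s20_21_8_4_15 hn)) (BlkD.sp 1 17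
      (BlkD.sp 1 8 (BlkD.sp 1 4 (s20_21_8_4_16 hn) (BlkD.sp 1 6 (s20_21_8_4_17 hn) (s20_21_8_4_18
      hn))) (s20_21_8_4_19 hn)) (s20_21_8_4_20 hn)))) (BlkD.sp 0 6 (BlkD.sp 0 5 (BlkD.sp 1 16
      (BlkD.sp 1 8 (BlkD.sp 1 4 (s20_21_8_4_21 hn) (BlkD.sp 1 6 (s20_21_8_4_22 hn) (s20_21_8_4_23
      hn))) (s20_21_8_4_24 hn)) (s20_21_8_4_25 hn)) (s20_21_8_4_26 hn)) (s20_21_8_4_27 hn)))
      (s20_21_8_4_28 hn)) (s20_21_8_4_29 hn))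

end BlkC

end Pool.Agent.Lib.MP_f04ccf_co
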