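import Pool.Agent.Lib.MP_f04ccf_co.M.BlkX20_21_11_1d

/-!
MP_f04ccf_co, block certificate with exceptions, `R = 20`, `H = 21`, the pair `(11, 1)` (data of helper99 / helper13,
generated by helper8, genx.py): the exceptions, part 1 of 1.
-/

set_option autoImplicit false
set_option maxRecDepth 100000

namespace Pool.Agent.Lib.MP_f04ccf_co

namespace BlkC

lemma e20_21_11_1_6_0 : EnPr.lall (fun l => EnPr.one 20 6 (21, 13, 0, 0) (11 :: 1 :: l))
    (EnPr.prof (6 - 2) 1 (21 - (6 + 1) - 11 - 1)) = true := by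
  decide +kernel

lemma e20_21_11_1_7_0 : EnPr.lall (fun l => EnPr.one 20 7 (21, 13, 0, 0) (11 :: 1 :: l))
    (EnPr.prof (7 - 2) 1 (21 - (7 + 1) - 11 - 1)) = true := by
  decide +kernel

lemma e20_21_11_1_8_0 : EnPr.lall (fun l => EnPr.one 20 8 (21, 13, 0, 0) (11 :: 1 :: l))
    (EnPr.prof (8 - 2) 1 (21 - (8 + 1) - 11 - 1)) = true := by
  decide +kernel

end BlkC

end Pool.Agent.Lib.MP_f04ccf_co
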