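import Pool.Agent.Lib.MP_f04ccf_co.M.BlkX20_21_11_1d
import Pool.Agent.Lib.MP_f04ccf_co.M.BlkX20_21_11_1p1
import Pool.Agent.Lib.MP_f04ccf_co.M.BlkX20_21_11_1e1

/-!
MP_f04ccf_co, block certificate with exceptions, `R = 20`, `H = 21`, the pair `(11, 1)` (data of helper99 / helper13,
generated by helper8, genx.py): the parts together.
-/

set_option autoImplicit false
set_option maxRecDepth 100000

namespace Pool.Agent.Lib.MP_f04ccf_co

namespace BlkC

lemma x20_21_11_1_6 : NoNd ((20 : ℕ) : ℤ) ((21 : ℕ) : ℤ) 6 11 1 fun x y z w _ _ =>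
    BlkD.exF 11 1 x20_21_11_1 x y z w := by
  refine NoNd.of_E (by norm_num) (by norm_num) fun e he => ?_
  simp only [x20_21_11_1, List.mem_cons, List.not_mem_nil, or_false] at he
  subst he
  exact e20_21_11_1_6_0

lemma x20_21_11_1_7 : NoNd ((20 : ℕ) : ℤ) ((21 : ℕ) : ℤ) 7 11 1 fun x y z w _ _ =>
    BlkD.exF 11 1 x20_21_11_1 x y z w := by
  refine NoNd.of_E (by norm_num) (by norm_num) fun e he => ?_
  simp only [x20_21_11_1, List.mem_cons, List.not_mem_nil, or_false] at he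
  subst he
  exact e20_21_11_1_7_0

lemma x20_21_11_1_8 : NoNd ((20 : ℕ) : ℤ) ((21 : ℕ) : ℤ) 8 11 1 fun x y z w _ _ =>
    BlkD.exF 11 1 x20_21_11_1 x y z w := by
  refine NoNd.of_E (by norm_num) (by norm_num) fun e he => ?_
  simp only [x20_21_11_1, List.mem_cons, List.not_mem_nil, or_false] at he
  subst he
  exact e20_21_11_1_8_0

lemma r20_21_11_1 {n : ℕ} (hn : 6 ≤ n) : BlkD.NdX d20_21_11_1 (BlkD.exF 11 1 x20_21_11_1) n (fun _ => 0) (fun _ => 21) :=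
  (BlkD.NdX.sp 0 11
  (BlkD.NdX.sp 2 1
  (BlkD.NdX.sp 0 5
  (n20_21_11_1_0 hn)
  (BlkD.NdX.sp 0 8
  (n20_21_11_1_1 hn)
  (n20_21_11_1_2 hn)))
  (n20_21_11_1_3 hn))
  (n20_21_11_1_4 hn))

/-- **`R = 20`, `H = 21`, the pair `(11, 1)`** -/
theorem pr20_21_11_1 {n : ℕ} (hn : 6 ≤ n) : NoPr ((20 : ℕ) : ℤ) ((21 : ℕ) : ℤ) n 11 1 := by
  by_cases h : n < 9
  · interval_cases n
    · exact BlkD.NdX.pr (r20_21_11_1 (by norm_num)) (by decide) (by decide) x20_21_11_1_6 rfl rfl rfl rfl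
    · exact BlkD.NdX.pr (r20_21_11_1 (by norm_num)) (by decide) (by decide) x20_21_11_1_7 rfl rfl rfl rfl
    · exact BlkD.NdX.pr (r20_21_11_1 (by norm_num)) (by decide) (by decide) x20_21_11_1_8 rfl rfl rfl rfl
  · exact NoPr.big (by omega) (by omega)

end BlkC

end Pool.Agent.Lib.MP_f04ccf_co
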