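import Pool.Agent.Lib.MP_f04ccf_co.M.BlkX20_21_5_4d

/-!
MP_f04ccf_co, block certificate with exceptions, `R = 20`, `H = 21`, the pair `(5, 4)` (data of helper99 / helper13,
generated by helper8, genx.py): part 1 of 2.
-/

set_option autoImplicit false
set_option maxRecDepth 100000

namespace Pool.Agent.Lib.MP_f04ccf_co

namespace BlkC

/-- a subtree -/
def t20_21_5_4_0 : BlkD.Tr :=
  .L 5 6 [4, 4, 4, 5, 6] [] [] 100000 62500 62500 600000 0 0 100000 50000 0 0 0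

lemma s20_21_5_4_0 : BlkD.treeX d20_21_5_4 (BlkD.exF 5 4 x20_21_5_4) t20_21_5_4_0
    (fun _ => 0)
    (BlkD.upd (BlkD.upd (BlkD.upd (BlkD.upd (BlkD.upd (fun _ => 21) 0 5) 2 4) 0 2) 0 1) 0 0) = true := by
  decide +kernel

lemma n20_21_5_4_0 {n : ℕ} (hn : 6 ≤ n) : BlkD.NdX d20_21_5_4 (BlkD.exF 5 4 x20_21_5_4) n
    (fun _ => 0)
    (BlkD.upd (BlkD.upd (BlkD.upd (BlkD.upd (BlkD.upd (fun _ => 21) 0 5) 2 4) 0 2) 0 1) 0 0) :=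
  BlkD.NdX.tree s20_21_5_4_0 ok20_21_5_4 (by decide) hn

/-- a subtree -/
def t20_21_5_4_1 : BlkD.Tr :=
  .S 1 20 (.S 1 10 (.S 1 5 (.S 1 2 (.L 5 6 [4, 4, 4, 5, 6] [] [] 100000 37500 37500 875000 12500 0
    12500 50000 0 0 25000) (.S 1 4 (.L 5 6 [4, 4, 4, 5, 6] [] [] 100000 56250 56249 888889 55556 0
    55556 44444 0 11111 25000) (.S 2 2 (.S 2 1 (.S 2 0 (.L 5 6 [4, 4, 4, 5, 6] [78, 70, 60, 50, 40,
    30] [] 100000 75000 75000 650000 50000 0 50000 100000 0 0 0) (.S 3 14 (.S 3 7 (.S 3 3 (.L 5 6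
    [4, 4, 4, 5, 6] [78, 70, 60, 50, 40, 30] [] 100000 35715 35715 914287 28571 0 28571 28571 0 0
    28571) (.L 5 6 [4, 4, 4, 5, 6] [78, 70, 60, 50, 40, 30] [] 100000 56697 56697 912500 62500 0
    62500 37500 0 10714 12500)) (.E 1)) (.E 1))) (.S 3 13 (.S 3 6 (.S 3 3 (.L 5 6 [4, 4, 4, 5, 6]
    [78, 70, 60, 50, 40, 30] [] 100000 41667 41667 951853 40741 0 40741 25926 0 14815 33333) (.L 5
    6 [4, 4, 4, 5, 6] [78, 70, 60, 50, 40, 30] [] 100000 53948 53948 915789 63158 0 63158 31579 0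
    31579 26316)) (.E 1)) (.E 1))) (.L 5 6 [4, 4, 4, 5, 6] [78, 70, 60, 50, 40, 30] [] 100000 58333
    58332 866668 83333 0 83333 0 0 66667 33333)))) (.S 1 8 (.S 1 7 (.S 1 6 (.S 2 2 (.S 2 1 (.S 2 0
    (.L 5 6 [4, 4, 4, 5, 6] [96, 90, 82, 72, 62, 52] [] 100000 50000 50000 750000 0 0 50000 100000
    5556 0 11111) (.S 3 13 (.S 3 6 (.S 3 3 (.L 5 6 [4, 4, 4, 5, 6] [96, 90, 82, 72, 62, 52] []
    100000 35715 35715 985716 28571 0 28571 28571 0 0 28571) (.S 3 5 (.S 3 4 (.L 1 1 [10, 12, 15,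
    17, 16] [96, 90, 82, 72, 62, 52] [58, 50, 40, 30, 20, 0] 100000 79033 79033 790323 80645 0
    87097 40323 1613 1613 20968) (.L 1 1 [10, 12, 15, 17, 16] [96, 90, 82, 72, 62, 52] [72, 68, 60,
    50, 40, 30] 100000 65625 65625 865625 71875 0 87500 21875 6250 23438 22656)) (.L 5 6 [4, 4, 4,
    5, 6] [96, 90, 82, 72, 62, 52] [86, 84, 80, 72, 62, 52] 100000 75000 75000 800000 100000 0
    100000 0 0 40000 20000))) (.E 1)) (.E 1))) (.S 3 12 (.S 3 6 (.S 3 3 (.S 3 1 (.L 5 6 [4, 4, 4,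
    5, 6] [96, 90, 82, 72, 62, 52] [] 100000 35715 35715 914287 28571 0 28571 28571 0 0 28571) (.L
    5 6 [4, 4, 4, 5, 6] [96, 90, 82, 72, 62, 52] [] 100000 50000 50000 930000 60000 0 60000 30000 0
    30000 20000)) (.L 5 6 [4, 4, 4, 5, 6] [96, 90, 82, 72, 62, 52] [] 100000 77778 77778 805555
    88889 0 100000 16667 0 16667 16667)) (.E 1)) (.E 1))) (.L 5 6 [4, 4, 4, 5, 6] [96, 90, 82, 72,
    62, 52] [] 100000 75000 75000 800000 100000 0 100000 0 0 50000 25000)) (.S 2 2 (.S 2 1 (.S 2 0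
    (.L 5 6 [4, 4, 4, 5, 6] [110, 110, 104, 96, 86, 76] [] 100000 50000 50000 750000 0 0 50000
    100000 5556 0 11111) (.S 3 12 (.S 3 6 (.S 3 3 (.S 3 1 (.L 5 6 [4, 4, 4, 5, 6] [110, 110, 104,
    96, 86, 76] [] 100000 54167 54167 799999 66667 0 66667 0 0 0 16667) (.S 3 2 (.L 5 6 [4, 4, 4,
    5, 6] [110, 110, 104, 96, 86, 76] [26, 16, 6, 0, 0, 0] 100000 32500 32500 975000 20000 0 65000
    20000 15000 0 20000) (.L 1 1 [10, 12, 15, 17, 16] [110, 110, 104, 96, 86, 76] [42, 32, 22, 12,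
    0, 0] 100000 76470 76469 811767 70588 5882 88235 41176 0 0 17647))) (.L 1 1 [10, 12, 15, 17,
    16] [110, 110, 104, 96, 86, 76] [] 100000 72728 72728 818181 77273 0 90909 27273 4545 12121
    19697)) (.E 1)) (.E 1))) (.S 3 11 (.S 3 5 (.S 3 2 (.L 1 1 [10, 12, 15, 17, 16] [110, 110, 104,
    96, 86, 76] [] 100000 40625 40625 993750 25000 0 65625 40625 9375 9375 25000) (.L 1 1 [10, 12,
    15, 17, 16] [110, 110, 104, 96, 86, 76] [] 100000 62500 62499 875000 54167 0 87500 33333 0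
    33333 33333)) (.E 1)) (.E 1))) (.L 5 6 [4, 4, 4, 5, 6] [110, 110, 104, 96, 86, 76] [] 100000
    75000 75000 800000 100000 0 100000 0 0 50000 25000))) (.L 5 6 [4, 4, 4, 5, 6] [126, 126, 126,
    120, 112, 102] [] 100000 62500 62500 875000 50000 0 100000 25000 0 0 12500)) (.E 0))) (.E 0))
    (.E 0)

lemma s20_21_5_4_1 : BlkD.treeX d20_21_5_4 (BlkD.exF 5 4 x20_21_5_4) t20_21_5_4_1
    (BlkD.upd (fun _ => 0) 0 1)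
    (BlkD.upd (BlkD.upd (BlkD.upd (BlkD.upd (fun _ => 21) 0 5) 2 4) 0 2) 0 1) = true := by
  decide +kernel

lemma n20_21_5_4_1 {n : ℕ} (hn : 6 ≤ n) : BlkD.NdX d20_21_5_4 (BlkD.exF 5 4 x20_21_5_4) n
    (BlkD.upd (fun _ => 0) 0 1)
    (BlkD.upd (BlkD.upd (BlkD.upd (BlkD.upd (fun _ => 21) 0 5) 2 4) 0 2) 0 1) :=
  BlkD.NdX.tree s20_21_5_4_1 ok20_21_5_4 (by decide) hn

/-- a subtree -/
def t20_21_5_4_2 : BlkD.Tr :=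
  .L 5 6 [4, 4, 4, 5, 6] [] [] 100000 34259 34258 981482 9259 0 9259 50000 0 25926 18519

lemma s20_21_5_4_2 : BlkD.treeX d20_21_5_4 (BlkD.exF 5 4 x20_21_5_4) t20_21_5_4_2
    (BlkD.upd (fun _ => 0) 0 2)
    (BlkD.upd (BlkD.upd (BlkD.upd (BlkD.upd (BlkD.upd (BlkD.upd (BlkD.upd (fun _ => 21) 0 5) 2 4) 0 2) 1 19) 1 9) 1 4) 1 2) = true := by
  decide +kernel

lemma n20_21_5_4_2 {n : ℕ} (hn : 6 ≤ n) : BlkD.NdX d20_21_5_4 (BlkD.exF 5 4 x20_21_5_4) n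
    (BlkD.upd (fun _ => 0) 0 2)
    (BlkD.upd (BlkD.upd (BlkD.upd (BlkD.upd (BlkD.upd (BlkD.upd (BlkD.upd (fun _ => 21) 0 5) 2 4) 0 2) 1 19) 1 9) 1 4) 1 2) :=
  BlkD.NdX.tree s20_21_5_4_2 ok20_21_5_4 (by decide) hn

/-- a subtree -/
def t20_21_5_4_3 : BlkD.Tr :=
  .S 2 2 (.S 2 1 (.S 2 0 (.L 5 6 [4, 4, 4, 5, 6] [48, 38, 28, 18, 0, 0] [] 100000 50000 50000
    700000 0 0 0 100000 0 0 0) (.S 3 15 (.S 3 7 (.S 3 3 (.L 5 6 [4, 4, 4, 5, 6] [48, 38, 28, 18, 0,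
    0] [] 100000 27778 27778 900000 0 0 0 0 0 0 44444) (.S 3 5 (.L 5 6 [4, 4, 4, 5, 6] [48, 38, 28,
    18, 0, 0] [] 100000 28353 28353 1055171 10345 6897 41762 20690 3065 13793 33333) (.S 3 6 (.S 4
    3 (.S 4 1 (.S 4 0 (.L 5 6 [4, 4, 4, 5, 6] [18, 0, 0, 0, 0, 0] [86, 84, 80, 72, 62, 52] 100000
    8334 8334 1066665 16667 0 0 41667 66667 66667 33333) (.L 5 6 [4, 4, 4, 5, 6] [28, 18, 0, 0, 0,
    0] [86, 84, 80, 72, 62, 52] 100000 25000 25000 1062500 0 0 62500 37500 0 50000 25000)) (.L 5 6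
    [4, 4, 4, 5, 6] [48, 38, 28, 18, 0, 0] [86, 84, 80, 72, 62, 52] 100000 25000 24999 1000000 0 0
    66667 33333 0 33333 33333)) (.E 2)) (.E 1)))) (.E 1)) (.E 1))) (.S 3 14 (.S 3 7 (.S 3 3 (.L 5 6
    [4, 4, 4, 5, 6] [48, 38, 28, 18, 0, 0] [] 100000 25000 25000 1000000 0 0 0 0 0 0 50000) (.L 5 6
    [4, 4, 4, 5, 6] [48, 38, 28, 18, 0, 0] [] 100000 23288 23288 1083105 5632 0 60426 33333 6849
    46575 23288)) (.E 1)) (.E 1))) (.L 5 6 [4, 4, 4, 5, 6] [48, 38, 28, 18, 0, 0] [] 100000 23240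
    23240 1051409 16901 0 73239 14789 7042 48592 26761)

lemma s20_21_5_4_3 : BlkD.treeX d20_21_5_4 (BlkD.exF 5 4 x20_21_5_4) t20_21_5_4_3
    (BlkD.upd (BlkD.upd (fun _ => 0) 0 2) 1 3)
    (BlkD.upd (BlkD.upd (BlkD.upd (BlkD.upd (BlkD.upd (BlkD.upd (BlkD.upd (fun _ => 21) 0 5) 2 4) 0 2) 1 19) 1 9) 1 4) 1 3) = true := by
  decide +kernel

lemma n20_21_5_4_3 {n : ℕ} (hn : 6 ≤ n) : BlkD.NdX d20_21_5_4 (BlkD.exF 5 4 x20_21_5_4) n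
    (BlkD.upd (BlkD.upd (fun _ => 0) 0 2) 1 3)
    (BlkD.upd (BlkD.upd (BlkD.upd (BlkD.upd (BlkD.upd (BlkD.upd (BlkD.upd (fun _ => 21) 0 5) 2 4) 0 2) 1 19) 1 9) 1 4) 1 3) :=
  BlkD.NdX.tree s20_21_5_4_3 ok20_21_5_4 (by decide) hn

/-- a subtree -/
def t20_21_5_4_4 : BlkD.Tr :=
  .S 2 1 (.S 2 0 (.L 5 6 [4, 4, 4, 5, 6] [68, 58, 48, 38, 28, 0] [] 100000 55556 55556 700000 0 0
    50000 100000 0 0 6944) (.S 3 14 (.S 3 7 (.S 3 3 (.L 5 6 [4, 4, 4, 5, 6] [68, 58, 48, 38, 28, 0]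
    [] 100000 25000 25000 1000000 0 0 0 0 0 0 50000) (.S 3 5 (.S 3 4 (.S 4 4 (.S 4 2 (.S 4 1 (.L 5
    6 [4, 4, 4, 5, 6] [38, 28, 0, 0, 0, 0] [58, 50, 40, 30, 20, 0] 100000 19663 19663 1043259 12921
    22472 12921 41011 49438 21348 24719) (.L 5 6 [4, 4, 4, 5, 6] [48, 38, 28, 0, 0, 0] [58, 50, 40,
    30, 20, 0] 100000 29465 29465 1025000 0 4167 66667 25000 0 15476 33333)) (.L 5 6 [4, 4, 4, 5,
    6] [68, 58, 48, 38, 28, 0] [58, 50, 40, 30, 20, 0] 100000 37500 37499 912500 0 0 93750 31250 0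
    9375 20313)) (.E 2)) (.S 4 4 (.S 4 2 (.S 4 1 (.L 5 6 [4, 4, 4, 5, 6] [38, 28, 0, 0, 0, 0] [72,
    68, 60, 50, 40, 30] 100000 12736 12735 1107547 14151 18868 14151 28302 49057 49057 24528) (.L 5
    6 [4, 4, 4, 5, 6] [48, 38, 28, 0, 0, 0] [72, 68, 60, 50, 40, 30] 100000 25000 24999 1047826
    4348 0 71739 23913 0 39130 30435)) (.L 5 6 [4, 4, 4, 5, 6] [68, 58, 48, 38, 28, 0] [72, 68, 60,
    50, 40, 30] 100000 25000 25000 975000 0 0 75000 25000 0 37500 31250)) (.E 2))) (.S 3 6 (.S 4 4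
    (.S 4 2 (.S 4 1 (.L 5 6 [4, 4, 4, 5, 6] [38, 28, 0, 0, 0, 0] [86, 84, 80, 72, 62, 52] 100000
    122223 1 1 59524 0 10317 222222 0 0 14286) (.S 5 6 (.S 5 3 (.E 2) (.S 5 5 (.S 5 4 (.L 3 3 [5,
    6, 7, 8, 10] [48, 38, 28, 0, 0, 0] [80, 72, 62, 52, 42, 0] 100000 55000 55000 920000 0 60000
    70000 60000 0 20000 10000) (.L 3 3 [5, 6, 7, 8, 10] [48, 38, 28, 0, 0, 0] [84, 80, 72, 62, 52,
    42] 100000 52778 52778 888888 0 0 55556 100000 0 0 11111)) (.L 3 3 [5, 6, 7, 8, 10] [48, 38,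
    28, 0, 0, 0] [86, 84, 80, 72, 62, 52] 100000 62223 24445 637776 0 0 55556 137778 0 0 11111)))
    (.E 2))) (.L 3 3 [5, 6, 7, 8, 10] [68, 58, 48, 38, 28, 0] [86, 84, 80, 72, 62, 52] 100000 25000
    25000 1000000 0 0 100000 0 0 50000 25000)) (.E 2)) (.E 1)))) (.E 1)) (.E 1))) (.S 3 13 (.S 3 6
    (.S 3 3 (.S 3 1 (.L 3 3 [5, 6, 7, 8, 10] [68, 58, 48, 38, 28, 0] [] 100000 27778 27778 900000 0
    0 0 0 0 0 44444) (.S 3 2 (.L 3 3 [5, 6, 7, 8, 10] [68, 58, 48, 38, 28, 0] [30, 20, 10, 0, 0, 0]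
    100000 25000 25000 1000000 0 0 0 0 0 0 50000) (.S 4 4 (.S 4 2 (.L 6 6 [4, 4, 4, 5, 5] [48, 38,
    28, 0, 0, 0] [48, 38, 28, 18, 0, 0] 100000 25397 25396 1071428 14286 0 50794 28571 6349 28571
    28571) (.L 6 6 [4, 4, 4, 5, 5] [68, 58, 48, 38, 28, 0] [48, 38, 28, 18, 0, 0] 100000 38096
    33334 890476 0 0 104762 0 0 0 23810)) (.E 2)))) (.S 3 5 (.S 3 4 (.S 4 4 (.S 4 2 (.S 4 1 (.L 6 6
    [4, 4, 4, 5, 5] [38, 28, 0, 0, 0, 0] [66, 58, 48, 38, 28, 0] 100000 12500 12500 1100000 12500 0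
    12500 50000 50000 50000 25000) (.L 6 6 [4, 4, 4, 5, 5] [48, 38, 28, 0, 0, 0] [66, 58, 48, 38,
    28, 0] 100000 25001 25001 1047618 4762 0 71429 23810 0 38095 30952)) (.L 6 6 [4, 4, 4, 5, 5]
    [68, 58, 48, 38, 28, 0] [66, 58, 48, 38, 28, 0] 100000 25000 25000 975000 0 0 75000 25000 0
    37500 31250)) (.E 2)) (.L 6 6 [4, 4, 4, 5, 5] [68, 58, 48, 38, 28, 0] [82, 78, 70, 60, 50, 40]
    100000 52778 52778 888888 0 0 55556 100000 0 0 11111)) (.E 1))) (.E 1)) (.E 1))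

lemma s20_21_5_4_4 : BlkD.treeX d20_21_5_4 (BlkD.exF 5 4 x20_21_5_4) t20_21_5_4_4
    (BlkD.upd (BlkD.upd (BlkD.upd (fun _ => 0) 0 2) 1 3) 1 4)
    (BlkD.upd (BlkD.upd (BlkD.upd (BlkD.upd (BlkD.upd (BlkD.upd (BlkD.upd (fun _ => 21) 0 5) 2 4) 0 2) 1 19) 1 9) 1 4) 2 2) = true := by
  decide +kernel

lemma n20_21_5_4_4 {n : ℕ} (hn : 6 ≤ n) : BlkD.NdX d20_21_5_4 (BlkD.exF 5 4 x20_21_5_4) n
    (BlkD.upd (BlkD.upd (BlkD.upd (fun _ => 0) 0 2) 1 3) 1 4)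
    (BlkD.upd (BlkD.upd (BlkD.upd (BlkD.upd (BlkD.upd (BlkD.upd (BlkD.upd (fun _ => 21) 0 5) 2 4) 0 2) 1 19) 1 9) 1 4) 2 2) :=
  BlkD.NdX.tree s20_21_5_4_4 ok20_21_5_4 (by decide) hn

/-- a subtree -/
def t20_21_5_4_5 : BlkD.Tr :=
  .S 2 3 (.S 3 12 (.S 3 6 (.S 3 3 (.S 3 1 (.L 6 6 [4, 4, 4, 5, 5] [68, 58, 48, 38, 28, 0] [] 100000
    25000 25000 1000000 0 0 0 0 0 0 50000) (.S 3 2 (.L 3 3 [5, 6, 7, 8, 10] [68, 58, 48, 38, 28, 0]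
    [34, 24, 14, 0, 0, 0] 100000 25000 24999 1072728 9091 0 57576 24242 9091 33333 33333) (.S 4 4
    (.S 4 2 (.S 4 1 (.L 3 3 [5, 6, 7, 8, 10] [38, 28, 0, 0, 0, 0] [54, 44, 34, 24, 0, 0] 100000
    8334 8334 1133333 0 0 0 66667 66667 66667 33333) (.L 3 3 [5, 6, 7, 8, 10] [48, 38, 28, 0, 0, 0]
    [54, 44, 34, 24, 0, 0] 100000 25000 25000 1000000 0 0 100000 0 0 50000 25000)) (.L 3 3 [5, 6,
    7, 8, 10] [68, 58, 48, 38, 28, 0] [54, 44, 34, 24, 0, 0] 100000 33334 1 800001 0 0 133333 0 0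
    50000 25000)) (.E 2)))) (.E 1)) (.E 1)) (.E 1)) (.L 3 3 [5, 6, 7, 8, 10] [68, 58, 48, 38, 28,
    0] [] 100000 31250 31250 1012500 25000 0 62500 0 12500 50000 37500)

lemma s20_21_5_4_5 : BlkD.treeX d20_21_5_4 (BlkD.exF 5 4 x20_21_5_4) t20_21_5_4_5
    (BlkD.upd (BlkD.upd (BlkD.upd (BlkD.upd (fun _ => 0) 0 2) 1 3) 1 4) 2 3)
    (BlkD.upd (BlkD.upd (BlkD.upd (BlkD.upd (BlkD.upd (BlkD.upd (fun _ => 21) 0 5) 2 4) 0 2) 1 19) 1 9) 1 4) = true := by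
  decide +kernel

lemma n20_21_5_4_5 {n : ℕ} (hn : 6 ≤ n) : BlkD.NdX d20_21_5_4 (BlkD.exF 5 4 x20_21_5_4) n
    (BlkD.upd (BlkD.upd (BlkD.upd (BlkD.upd (fun _ => 0) 0 2) 1 3) 1 4) 2 3)
    (BlkD.upd (BlkD.upd (BlkD.upd (BlkD.upd (BlkD.upd (BlkD.upd (fun _ => 21) 0 5) 2 4) 0 2) 1 19) 1 9) 1 4) :=
  BlkD.NdX.tree s20_21_5_4_5 ok20_21_5_4 (by decide) hn

/-- a subtree -/
def t20_21_5_4_6 : BlkD.Tr :=
  .S 2 1 (.S 2 0 (.L 3 3 [5, 6, 7, 8, 10] [88, 80, 70, 60, 50, 40] [] 100000 48611 48610 752778 0 0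
    47222 100000 8333 0 11111) (.S 3 13 (.S 3 6 (.S 3 3 (.S 3 1 (.L 3 3 [5, 6, 7, 8, 10] [88, 80,
    70, 60, 50, 40] [] 100000 27778 27778 900000 0 0 0 0 0 0 44444) (.S 3 2 (.L 3 3 [5, 6, 7, 8,
    10] [88, 80, 70, 60, 50, 40] [26, 16, 6, 0, 0, 0] 100000 25000 24999 994419 1395 2791 58140
    2791 15814 0 36977) (.S 4 5 (.S 4 2 (.L 3 3 [5, 6, 7, 8, 10] [60, 50, 40, 0, 0, 0] [42, 32, 22,
    12, 0, 0] 100000 31250 31250 1000000 0 50000 0 50000 50000 0 25000) (.L 3 3 [5, 6, 7, 8, 10]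
    [88, 80, 70, 60, 50, 40] [42, 32, 22, 12, 0, 0] 100000 25893 25893 1046428 0 0 64286 0 10714 0
    37500)) (.E 2)))) (.S 3 5 (.S 3 4 (.S 4 5 (.S 4 2 (.L 3 3 [5, 6, 7, 8, 10] [60, 50, 40, 0, 0,
    0] [58, 50, 40, 30, 20, 0] 100000 26112 26112 1066667 0 40000 13333 48889 48889 13333 24444)
    (.L 3 3 [5, 6, 7, 8, 10] [88, 80, 70, 60, 50, 40] [58, 50, 40, 30, 20, 0] 100000 28165 28165
    1040508 0 0 79747 26582 0 30380 28481)) (.E 2)) (.S 4 5 (.S 4 2 (.S 4 1 (.L 3 3 [5, 6, 7, 8,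
    10] [50, 40, 0, 0, 0, 0] [72, 68, 60, 50, 40, 30] 100000 75000 75000 800000 0 100000 0 100000
    57143 0 14286) (.S 5 5 (.S 5 2 (.L 5 6 [4, 4, 4, 5, 6] [60, 50, 40, 0, 0, 0] [50, 40, 30, 0, 0,
    0] 100000 37500 37500 1000000 50000 0 75000 0 0 50000 25000) (.S 5 4 (.S 5 3 (.E 9) (.L 5 6 [4,
    4, 4, 5, 6] [60, 50, 40, 0, 0, 0] [68, 60, 50, 40, 30, 0] 100000 25000 25000 1000000 0 0 0
    100000 62500 0 25000)) (.L 5 6 [4, 4, 4, 5, 6] [60, 50, 40, 0, 0, 0] [72, 68, 60, 50, 40, 30]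
    100000 46668 1 679999 6667 0 13333 146667 45833 0 18333))) (.E 2))) (.L 5 6 [4, 4, 4, 5, 6]
    [88, 80, 70, 60, 50, 40] [72, 68, 60, 50, 40, 30] 100000 22059 22059 1088239 0 0 70588 23529
    11765 32353 27941)) (.E 2))) (.L 5 6 [4, 4, 4, 5, 6] [88, 80, 70, 60, 50, 40] [86, 84, 80, 72,
    62, 52] 100000 58334 58334 866666 0 0 100000 66667 0 0 8333))) (.E 1)) (.E 1))) (.S 3 12 (.S 3
    6 (.S 3 3 (.S 3 1 (.L 5 6 [4, 4, 4, 5, 6] [88, 80, 70, 60, 50, 40] [] 100000 25000 25000 993620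
    6383 0 55319 0 14894 0 35106) (.S 3 2 (.L 5 6 [4, 4, 4, 5, 6] [88, 80, 70, 60, 50, 40] [30, 20,
    10, 0, 0, 0] 100000 24537 24536 1075002 8333 8333 32407 25000 9259 16667 33333) (.S 4 5 (.S 4 2
    (.S 4 1 (.L 5 6 [4, 4, 4, 5, 6] [50, 40, 0, 0, 0, 0] [48, 38, 28, 18, 0, 0] 100000 17857 17856
    1085716 28571 0 28571 28571 42857 28571 28571) (.L 5 5 [4, 4, 5, 5, 6] [60, 50, 40, 0, 0, 0]
    [48, 38, 28, 18, 0, 0] 100000 17263 17263 1112700 12698 5556 38095 30952 30952 31746 26190))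
    (.L 5 5 [4, 4, 5, 5, 6] [88, 80, 70, 60, 50, 40] [48, 38, 28, 18, 0, 0] 100000 25000 24999
    1028574 0 0 85714 14286 14286 28571 21429)) (.E 2)))) (.S 3 5 (.S 3 4 (.S 4 5 (.S 4 2 (.S 4 1
    (.L 5 5 [4, 4, 5, 5, 6] [50, 40, 0, 0, 0, 0] [66, 58, 48, 38, 28, 0] 100000 12500 12500 1125000
    25000 0 25000 25000 50000 50000 25000) (.S 5 4 (.S 5 2 (.L 5 5 [4, 4, 5, 5, 6] [60, 50, 40, 0,
    0, 0] [48, 38, 28, 0, 0, 0] 100000 37500 37500 1000000 50000 0 75000 0 0 50000 25000) (.S 5 3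
    (.E 9) (.L 5 5 [4, 4, 5, 5, 6] [60, 50, 40, 0, 0, 0] [66, 58, 48, 38, 28, 0] 100000 25000 25000
    1000000 0 0 0 100000 62500 0 25000))) (.E 2))) (.L 5 5 [4, 4, 5, 5, 6] [88, 80, 70, 60, 50, 40]
    [66, 58, 48, 38, 28, 0] 100000 23387 23386 1074196 0 0 64516 32258 6452 30645 31452)) (.E 2))
    (.L 5 5 [4, 4, 5, 5, 6] [88, 80, 70, 60, 50, 40] [82, 78, 70, 60, 50, 40] 100000 100000 66667
    466669 0 0 133333 133333 0 0 0)) (.E 1))) (.E 1)) (.E 1))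

lemma s20_21_5_4_6 : BlkD.treeX d20_21_5_4 (BlkD.exF 5 4 x20_21_5_4) t20_21_5_4_6
    (BlkD.upd (BlkD.upd (fun _ => 0) 0 2) 1 5)
    (BlkD.upd (BlkD.upd (BlkD.upd (BlkD.upd (BlkD.upd (BlkD.upd (BlkD.upd (BlkD.upd (BlkD.upd (fun _ => 21) 0 5) 2 4) 0 2) 1 19) 1 9) 1 7) 1 6) 1 5) 2 2) = true := by
  decide +kernel

lemma n20_21_5_4_6 {n : ℕ} (hn : 6 ≤ n) : BlkD.NdX d20_21_5_4 (BlkD.exF 5 4 x20_21_5_4) n
    (BlkD.upd (BlkD.upd (fun _ => 0) 0 2) 1 5)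
    (BlkD.upd (BlkD.upd (BlkD.upd (BlkD.upd (BlkD.upd (BlkD.upd (BlkD.upd (BlkD.upd (BlkD.upd (fun _ => 21) 0 5) 2 4) 0 2) 1 19) 1 9) 1 7) 1 6) 1 5) 2 2) :=
  BlkD.NdX.tree s20_21_5_4_6 ok20_21_5_4 (by decide) hn

/-- a subtree -/
def t20_21_5_4_7 : BlkD.Tr :=
  .S 2 3 (.S 3 11 (.S 3 5 (.S 3 2 (.S 3 1 (.L 5 5 [4, 4, 5, 5, 6] [88, 80, 70, 60, 50, 40] []
    100000 25000 25000 1071431 9524 14286 33333 28571 9524 14286 33333) (.S 4 5 (.S 4 2 (.L 5 5 [4,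
    4, 5, 5, 6] [60, 50, 40, 0, 0, 0] [34, 24, 14, 0, 0, 0] 100000 17230 17230 1112837 16892 2703
    33784 33784 31081 31081 27027) (.L 5 5 [4, 4, 5, 5, 6] [88, 80, 70, 60, 50, 40] [34, 24, 14, 0,
    0, 0] 100000 25000 25000 1000000 0 0 100000 0 0 50000 25000)) (.E 2))) (.S 3 4 (.S 3 3 (.S 4 5
    (.S 4 2 (.S 4 1 (.L 5 5 [4, 4, 5, 5, 6] [50, 40, 0, 0, 0, 0] [54, 44, 34, 24, 0, 0] 100000
    16667 16667 1100001 33333 0 33333 16667 33333 50000 33333) (.S 5 3 (.S 5 1 (.E 2) (.S 5 2 (.L 5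
    5 [4, 4, 5, 5, 6] [60, 50, 40, 0, 0, 0] [44, 34, 24, 0, 0, 0] 100000 37500 37500 1000000 50000
    0 75000 0 0 50000 25000) (.E 9))) (.E 2))) (.L 5 5 [4, 4, 5, 5, 6] [88, 80, 70, 60, 50, 40]
    [54, 44, 34, 24, 0, 0] 100000 25000 25000 1000000 0 0 100000 0 0 50000 25000)) (.E 2)) (.E 1))
    (.E 1))) (.E 1)) (.E 1)) (.L 6 6 [4, 4, 4, 5, 5] [88, 80, 70, 60, 50, 40] [] 100000 20918 20917
    1085716 28571 0 48980 0 16327 65306 30612)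

lemma s20_21_5_4_7 : BlkD.treeX d20_21_5_4 (BlkD.exF 5 4 x20_21_5_4) t20_21_5_4_7
    (BlkD.upd (BlkD.upd (BlkD.upd (fun _ => 0) 0 2) 1 5) 2 3)
    (BlkD.upd (BlkD.upd (BlkD.upd (BlkD.upd (BlkD.upd (BlkD.upd (BlkD.upd (BlkD.upd (fun _ => 21) 0 5) 2 4) 0 2) 1 19) 1 9) 1 7) 1 6) 1 5) = true := by
  decide +kernel

lemma n20_21_5_4_7 {n : ℕ} (hn : 6 ≤ n) : BlkD.NdX d20_21_5_4 (BlkD.exF 5 4 x20_21_5_4) n
    (BlkD.upd (BlkD.upd (BlkD.upd (fun _ => 0) 0 2) 1 5) 2 3)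
    (BlkD.upd (BlkD.upd (BlkD.upd (BlkD.upd (BlkD.upd (BlkD.upd (BlkD.upd (BlkD.upd (fun _ => 21) 0 5) 2 4) 0 2) 1 19) 1 9) 1 7) 1 6) 1 5) :=
  BlkD.NdX.tree s20_21_5_4_7 ok20_21_5_4 (by decide) hn

/-- a subtree -/
def t20_21_5_4_8 : BlkD.Tr :=
  .S 2 2 (.S 2 1 (.S 2 0 (.L 6 6 [4, 4, 4, 5, 5] [108, 102, 94, 84, 74, 64] [] 100000 46297 46297
    766668 0 0 33333 100000 11934 0 9053) (.S 3 12 (.S 3 6 (.S 3 3 (.S 3 1 (.L 6 6 [4, 4, 4, 5, 5]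
    [108, 102, 94, 84, 74, 64] [] 100000 25000 25000 925000 0 0 75000 0 25000 0 25000) (.S 3 2 (.L
    6 6 [4, 4, 4, 5, 5] [108, 102, 94, 84, 74, 64] [26, 16, 6, 0, 0, 0] 100000 26316 26316 997369 0
    23684 55263 23684 23684 0 23684) (.S 4 6 (.S 4 3 (.L 6 6 [4, 4, 4, 5, 5] [84, 74, 64, 54, 0, 0]
    [42, 32, 22, 12, 0, 0] 100000 24375 24375 1067500 17500 15000 35000 32500 40000 2500 25000) (.L
    6 6 [4, 4, 4, 5, 5] [108, 102, 94, 84, 74, 64] [42, 32, 22, 12, 0, 0] 100000 27857 27857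
    1028574 0 0 85714 0 34286 0 20000)) (.E 2)))) (.S 3 5 (.S 3 4 (.S 4 6 (.S 4 3 (.S 4 1 (.E 2)
    (.S 4 2 (.E 2) (.S 5 4 (.S 5 2 (.S 5 1 (.L 6 6 [4, 4, 4, 5, 5] [84, 74, 64, 54, 0, 0] [30, 20,
    0, 0, 0, 0] 100000 25000 25000 1020000 40000 0 80000 0 20000 60000 20000) (.E 9)) (.L 6 6 [4,
    4, 4, 5, 5] [84, 74, 64, 54, 0, 0] [58, 50, 40, 30, 20, 0] 100000 25000 25000 1000000 0 0 0
    100000 62500 0 25000)) (.E 2)))) (.L 6 6 [4, 4, 4, 5, 5] [108, 102, 94, 84, 74, 64] [58, 50,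
    40, 30, 20, 0] 100000 19118 19117 1094116 0 0 58824 29412 23529 23529 26471)) (.E 2)) (.S 4 6
    (.S 4 3 (.S 4 1 (.E 2) (.S 4 2 (.E 2) (.S 5 5 (.S 5 2 (.L 6 6 [4, 4, 4, 5, 5] [84, 74, 64, 54,
    0, 0] [50, 40, 30, 0, 0, 0] 100000 75000 75000 800000 50000 50000 100000 50000 0 50000 0) (.L 6
    6 [4, 4, 4, 5, 5] [84, 74, 64, 54, 0, 0] [72, 68, 60, 50, 40, 30] 100000 75000 75000 800000 0 0
    100000 100000 0 0 0)) (.E 2)))) (.L 6 6 [4, 4, 4, 5, 5] [108, 102, 94, 84, 74, 64] [72, 68, 60,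
    50, 40, 30] 100000 25000 25000 1000000 0 0 100000 0 0 50000 25000)) (.E 2))) (.E 2))) (.E 1))
    (.E 1))) (.S 3 11 (.S 3 5 (.S 3 2 (.S 3 1 (.L 6 6 [4, 4, 4, 5, 5] [108, 102, 94, 84, 74, 64] []
    100000 25000 25000 1007693 0 30769 61538 30769 30769 0 23077) (.L 6 6 [4, 4, 4, 5, 5] [108,
    102, 94, 84, 74, 64] [30, 20, 10, 0, 0, 0] 100000 18590 18590 1099147 1709 11966 47863 37607
    25641 25641 24786)) (.S 3 4 (.S 3 3 (.S 4 6 (.S 4 3 (.S 4 1 (.E 2) (.S 4 2 (.E 2) (.S 5 3 (.S 5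
    1 (.L 6 6 [4, 4, 4, 5, 5] [84, 74, 64, 54, 0, 0] [28, 18, 0, 0, 0, 0] 100000 39063 39063 950000
    50000 0 100000 0 0 62500 18750) (.S 5 2 (.E 9) (.L 6 6 [4, 4, 4, 5, 5] [84, 74, 64, 54, 0, 0]
    [48, 38, 28, 18, 0, 0] 100000 25000 25000 1000000 0 0 0 100000 62500 0 25000))) (.E 2)))) (.L 6
    6 [4, 4, 4, 5, 5] [108, 102, 94, 84, 74, 64] [48, 38, 28, 18, 0, 0] 100000 25000 25000 1000000
    0 0 100000 0 0 50000 25000)) (.E 2)) (.S 4 6 (.S 4 3 (.L 6 6 [4, 4, 4, 5, 5] [84, 74, 64, 54,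
    0, 0] [66, 58, 48, 38, 28, 0] 100000 87500 87500 750000 50000 0 100000 100000 0 0 0) (.L 6 6
    [4, 4, 4, 5, 5] [108, 102, 94, 84, 74, 64] [66, 58, 48, 38, 28, 0] 100000 25000 25000 1000000 0
    0 100000 0 0 50000 25000)) (.E 2))) (.E 2))) (.E 1)) (.E 1))) (.S 2 3 (.S 3 10 (.S 3 5 (.S 3 2
    (.S 3 1 (.L 6 6 [4, 4, 4, 5, 5] [108, 102, 94, 84, 74, 64] [] 100000 17858 17858 1080952 7143
    7143 52381 52381 28571 40476 20238) (.S 4 6 (.S 4 3 (.L 4 4 [4, 5, 6, 7, 8] [84, 74, 64, 54, 0,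
    0] [34, 24, 14, 0, 0, 0] 100000 20000 20000 1090000 30000 0 60000 0 20000 60000 30000) (.L 4 4
    [4, 5, 6, 7, 8] [108, 102, 94, 84, 74, 64] [34, 24, 14, 0, 0, 0] 100000 25000 25000 1000000 0 0
    100000 0 0 50000 25000)) (.E 2))) (.S 3 4 (.S 3 3 (.S 4 6 (.S 4 3 (.L 4 4 [4, 5, 6, 7, 8] [84,
    74, 64, 54, 0, 0] [54, 44, 34, 24, 0, 0] 100000 56667 56667 910001 63333 0 100000 0 0 46667
    23333) (.L 4 4 [4, 5, 6, 7, 8] [108, 102, 94, 84, 74, 64] [54, 44, 34, 24, 0, 0] 100000 25000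
    25000 1000000 0 0 100000 0 0 50000 25000)) (.E 2)) (.E 1)) (.E 1))) (.E 1)) (.E 1)) (.L 4 4 [4,
    5, 6, 7, 8] [108, 102, 94, 84, 74, 64] [] 100000 25000 25000 1000000 0 0 100000 0 0 50000
    25000))

lemma s20_21_5_4_8 : BlkD.treeX d20_21_5_4 (BlkD.exF 5 4 x20_21_5_4) t20_21_5_4_8
    (BlkD.upd (BlkD.upd (BlkD.upd (fun _ => 0) 0 2) 1 5) 1 6)
    (BlkD.upd (BlkD.upd (BlkD.upd (BlkD.upd (BlkD.upd (BlkD.upd (BlkD.upd (fun _ => 21) 0 5) 2 4) 0 2) 1 19) 1 9) 1 7) 1 6) = true := by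
  decide +kernel

lemma n20_21_5_4_8 {n : ℕ} (hn : 6 ≤ n) : BlkD.NdX d20_21_5_4 (BlkD.exF 5 4 x20_21_5_4) n
    (BlkD.upd (BlkD.upd (BlkD.upd (fun _ => 0) 0 2) 1 5) 1 6)
    (BlkD.upd (BlkD.upd (BlkD.upd (BlkD.upd (BlkD.upd (BlkD.upd (BlkD.upd (fun _ => 21) 0 5) 2 4) 0 2) 1 19) 1 9) 1 7) 1 6) :=
  BlkD.NdX.tree s20_21_5_4_8 ok20_21_5_4 (by decide) hn

/-- a subtree -/
def t20_21_5_4_9 : BlkD.Tr :=
  .L 4 4 [4, 5, 6, 7, 8] [124, 124, 118, 110, 100, 90] [] 100000 41667 41667 900001 0 0 100000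
    33333 0 0 16667

lemma s20_21_5_4_9 : BlkD.treeX d20_21_5_4 (BlkD.exF 5 4 x20_21_5_4) t20_21_5_4_9
    (BlkD.upd (BlkD.upd (BlkD.upd (fun _ => 0) 0 2) 1 5) 1 7)
    (BlkD.upd (BlkD.upd (BlkD.upd (BlkD.upd (BlkD.upd (BlkD.upd (fun _ => 21) 0 5) 2 4) 0 2) 1 19) 1 9) 1 7) = true := by
  decide +kernel

lemma n20_21_5_4_9 {n : ℕ} (hn : 6 ≤ n) : BlkD.NdX d20_21_5_4 (BlkD.exF 5 4 x20_21_5_4) n
    (BlkD.upd (BlkD.upd (BlkD.upd (fun _ => 0) 0 2) 1 5) 1 7)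
    (BlkD.upd (BlkD.upd (BlkD.upd (BlkD.upd (BlkD.upd (BlkD.upd (fun _ => 21) 0 5) 2 4) 0 2) 1 19) 1 9) 1 7) :=
  BlkD.NdX.tree s20_21_5_4_9 ok20_21_5_4 (by decide) hn

/-- a subtree -/
def t20_21_5_4_10 : BlkD.Tr :=
  .E 0

lemma s20_21_5_4_10 : BlkD.treeX d20_21_5_4 (BlkD.exF 5 4 x20_21_5_4) t20_21_5_4_10
    (BlkD.upd (BlkD.upd (BlkD.upd (fun _ => 0) 0 2) 1 5) 1 8)
    (BlkD.upd (BlkD.upd (BlkD.upd (BlkD.upd (BlkD.upd (fun _ => 21) 0 5) 2 4) 0 2) 1 19) 1 9) = true := by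
  decide +kernel

lemma n20_21_5_4_10 {n : ℕ} (hn : 6 ≤ n) : BlkD.NdX d20_21_5_4 (BlkD.exF 5 4 x20_21_5_4) n
    (BlkD.upd (BlkD.upd (BlkD.upd (fun _ => 0) 0 2) 1 5) 1 8)
    (BlkD.upd (BlkD.upd (BlkD.upd (BlkD.upd (BlkD.upd (fun _ => 21) 0 5) 2 4) 0 2) 1 19) 1 9) :=
  BlkD.NdX.tree s20_21_5_4_10 ok20_21_5_4 (by decide) hn

/-- a subtree -/
def t20_21_5_4_11 : BlkD.Tr :=
  .E 0

lemma s20_21_5_4_11 : BlkD.treeX d20_21_5_4 (BlkD.exF 5 4 x20_21_5_4) t20_21_5_4_11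
    (BlkD.upd (BlkD.upd (fun _ => 0) 0 2) 1 10)
    (BlkD.upd (BlkD.upd (BlkD.upd (BlkD.upd (fun _ => 21) 0 5) 2 4) 0 2) 1 19) = true := by
  decide +kernel

lemma n20_21_5_4_11 {n : ℕ} (hn : 6 ≤ n) : BlkD.NdX d20_21_5_4 (BlkD.exF 5 4 x20_21_5_4) n
    (BlkD.upd (BlkD.upd (fun _ => 0) 0 2) 1 10)
    (BlkD.upd (BlkD.upd (BlkD.upd (BlkD.upd (fun _ => 21) 0 5) 2 4) 0 2) 1 19) :=
  BlkD.NdX.tree s20_21_5_4_11 ok20_21_5_4 (by decide) hn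

/-- a subtree -/
def t20_21_5_4_12 : BlkD.Tr :=
  .E 0

lemma s20_21_5_4_12 : BlkD.treeX d20_21_5_4 (BlkD.exF 5 4 x20_21_5_4) t20_21_5_4_12
    (BlkD.upd (BlkD.upd (fun _ => 0) 0 2) 1 20)
    (BlkD.upd (BlkD.upd (BlkD.upd (fun _ => 21) 0 5) 2 4) 0 2) = true := by
  decide +kernel

lemma n20_21_5_4_12 {n : ℕ} (hn : 6 ≤ n) : BlkD.NdX d20_21_5_4 (BlkD.exF 5 4 x20_21_5_4) n
    (BlkD.upd (BlkD.upd (fun _ => 0) 0 2) 1 20)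
    (BlkD.upd (BlkD.upd (BlkD.upd (fun _ => 21) 0 5) 2 4) 0 2) :=
  BlkD.NdX.tree s20_21_5_4_12 ok20_21_5_4 (by decide) hn

/-- a subtree -/
def t20_21_5_4_13 : BlkD.Tr :=
  .S 1 1 (.L 4 4 [4, 5, 6, 7, 8] [] [] 100000 30953 30953 1000000 0 0 0 50000 0 28571 23810) (.S 2
    2 (.S 2 1 (.S 2 0 (.L 4 4 [4, 5, 6, 7, 8] [34, 24, 14, 0, 0, 0] [] 100000 50000 50000 700000 0
    0 0 100000 0 0 0) (.S 3 15 (.S 3 7 (.S 3 3 (.L 4 4 [4, 5, 6, 7, 8] [34, 24, 14, 0, 0, 0] []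
    100000 27778 27778 900000 0 0 0 0 0 0 44444) (.S 3 5 (.L 5 6 [4, 4, 4, 5, 6] [34, 24, 14, 0, 0,
    0] [] 100000 27500 27500 1060003 10000 10000 43333 22500 4167 15000 33333) (.S 3 6 (.S 4 2 (.S
    4 1 (.S 4 0 (.L 5 6 [4, 4, 4, 5, 6] [14, 0, 0, 0, 0, 0] [86, 84, 80, 72, 62, 52] 100000 8334
    8334 1066666 0 0 0 66667 66667 66667 33333) (.L 5 6 [4, 4, 4, 5, 6] [24, 14, 0, 0, 0, 0] [86,
    84, 80, 72, 62, 52] 100000 25000 25000 1062500 0 0 62500 37500 0 50000 25000)) (.L 5 6 [4, 4,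
    4, 5, 6] [34, 24, 14, 0, 0, 0] [86, 84, 80, 72, 62, 52] 100000 25000 24999 1000000 0 0 66667
    33333 0 33333 33333)) (.E 2)) (.E 1)))) (.E 1)) (.E 1))) (.S 3 14 (.S 3 7 (.S 3 3 (.L 5 6 [4,
    4, 4, 5, 6] [34, 24, 14, 0, 0, 0] [] 100000 25000 25000 1000000 0 0 0 0 0 0 50000) (.L 5 6 [4,
    4, 4, 5, 6] [34, 24, 14, 0, 0, 0] [] 100000 23288 23288 1083107 8447 0 63242 33333 6849 46575
    23288)) (.E 1)) (.E 1))) (.L 5 6 [4, 4, 4, 5, 6] [34, 24, 14, 0, 0, 0] [] 100000 23182 23182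
    1061820 19091 0 77273 19091 7273 46364 30909))

lemma s20_21_5_4_13 : BlkD.treeX d20_21_5_4 (BlkD.exF 5 4 x20_21_5_4) t20_21_5_4_13
    (BlkD.upd (fun _ => 0) 0 3)
    (BlkD.upd (BlkD.upd (BlkD.upd (BlkD.upd (BlkD.upd (BlkD.upd (BlkD.upd (BlkD.upd (fun _ => 21) 0 5) 2 4) 0 4) 0 3) 1 18) 1 9) 1 4) 1 2) = true := by
  decide +kernel

lemma n20_21_5_4_13 {n : ℕ} (hn : 6 ≤ n) : BlkD.NdX d20_21_5_4 (BlkD.exF 5 4 x20_21_5_4) n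
    (BlkD.upd (fun _ => 0) 0 3)
    (BlkD.upd (BlkD.upd (BlkD.upd (BlkD.upd (BlkD.upd (BlkD.upd (BlkD.upd (BlkD.upd (fun _ => 21) 0 5) 2 4) 0 4) 0 3) 1 18) 1 9) 1 4) 1 2) :=
  BlkD.NdX.tree s20_21_5_4_13 ok20_21_5_4 (by decide) hn

/-- a subtree -/
def t20_21_5_4_14 : BlkD.Tr :=
  .S 2 2 (.S 2 1 (.S 2 0 (.L 5 6 [4, 4, 4, 5, 6] [54, 44, 34, 24, 0, 0] [] 100000 55556 55556
    700000 0 0 50000 100000 0 0 6944) (.S 3 14 (.S 3 7 (.S 3 3 (.L 5 6 [4, 4, 4, 5, 6] [54, 44, 34,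
    24, 0, 0] [] 100000 25000 25000 1000000 0 0 0 0 0 0 50000) (.S 3 5 (.S 3 4 (.S 4 3 (.S 4 1 (.L
    5 6 [4, 4, 4, 5, 6] [34, 24, 0, 0, 0, 0] [58, 50, 40, 30, 20, 0] 100000 19737 19737 1043159 0
    28421 21053 40000 40000 21053 22105) (.L 5 6 [4, 4, 4, 5, 6] [54, 44, 34, 24, 0, 0] [58, 50,
    40, 30, 20, 0] 100000 25000 25000 1042860 0 4167 57738 25000 8929 15476 33333)) (.E 2)) (.S 4 3
    (.S 4 1 (.L 5 6 [4, 4, 4, 5, 6] [34, 24, 0, 0, 0, 0] [72, 68, 60, 50, 40, 30] 100000 17813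
    17813 1093750 3750 38750 3750 41250 62500 28750 25000) (.L 5 6 [4, 4, 4, 5, 6] [54, 44, 34, 24,
    0, 0] [72, 68, 60, 50, 40, 30] 100000 25000 25000 1048149 7407 0 72222 24074 0 40741 29630))
    (.E 2))) (.S 3 6 (.S 4 3 (.S 4 1 (.L 5 6 [4, 4, 4, 5, 6] [34, 24, 0, 0, 0, 0] [86, 84, 80, 72,
    62, 52] 100000 122223 1 1 62963 0 62963 222222 13889 0 5556) (.S 4 2 (.S 5 6 (.S 5 3 (.E 2) (.S
    5 5 (.L 5 5 [4, 4, 5, 5, 6] [44, 34, 24, 0, 0, 0] [84, 80, 72, 62, 52, 42] 100000 13236 13236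
    1117646 0 29412 2941 58824 58824 47059 23529) (.L 5 5 [4, 4, 5, 5, 6] [44, 34, 24, 0, 0, 0]
    [86, 84, 80, 72, 62, 52] 100000 51111 2221 648888 0 0 27778 148889 27778 0 11111))) (.E 2)) (.L
    5 5 [4, 4, 5, 5, 6] [54, 44, 34, 24, 0, 0] [86, 84, 80, 72, 62, 52] 100000 25000 25000 1000000
    0 0 100000 0 0 50000 25000))) (.E 2)) (.E 1)))) (.E 1)) (.E 1))) (.S 3 13 (.S 3 6 (.S 3 3 (.S 3
    1 (.L 5 5 [4, 4, 5, 5, 6] [54, 44, 34, 24, 0, 0] [] 100000 27778 27778 900000 0 0 0 0 0 0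
    44444) (.S 3 2 (.L 5 5 [4, 4, 5, 5, 6] [54, 44, 34, 24, 0, 0] [30, 20, 10, 0, 0, 0] 100000
    25000 25000 1000000 0 0 0 0 0 0 50000) (.S 4 3 (.S 4 1 (.L 5 5 [4, 4, 5, 5, 6] [34, 24, 0, 0,
    0, 0] [48, 38, 28, 18, 0, 0] 100000 16501 16500 1086245 7804 12169 32143 40873 38360 33995
    25397) (.L 5 5 [4, 4, 5, 5, 6] [54, 44, 34, 24, 0, 0] [48, 38, 28, 18, 0, 0] 100000 25000 24999
    1019445 5556 0 75000 22222 0 38889 30556)) (.E 2)))) (.S 3 5 (.S 3 4 (.S 4 3 (.S 4 1 (.L 5 5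
    [4, 4, 5, 5, 6] [34, 24, 0, 0, 0, 0] [66, 58, 48, 38, 28, 0] 100000 12500 12500 1112501 8333 0
    8333 62500 62500 50000 25000) (.L 5 5 [4, 4, 5, 5, 6] [54, 44, 34, 24, 0, 0] [66, 58, 48, 38,
    28, 0] 100000 22745 22745 1058509 11082 0 65206 24742 9021 38402 26289)) (.E 2)) (.L 5 5 [4, 4,
    5, 5, 6] [54, 44, 34, 24, 0, 0] [82, 78, 70, 60, 50, 40] 100000 48810 48810 904765 0 0 47619
    100000 7937 0 11111)) (.E 1))) (.E 1)) (.E 1))) (.S 2 3 (.S 3 12 (.S 3 6 (.S 3 3 (.S 3 1 (.L 5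
    5 [4, 4, 5, 5, 6] [54, 44, 34, 24, 0, 0] [] 100000 25000 25000 1000000 0 0 0 0 0 0 50000) (.S 3
    2 (.L 5 5 [4, 4, 5, 5, 6] [54, 44, 34, 24, 0, 0] [34, 24, 14, 0, 0, 0] 100000 20482 20481
    1087952 6024 6024 50602 37349 18072 31325 25301) (.S 4 3 (.S 4 1 (.L 5 5 [4, 4, 5, 5, 6] [34,
    24, 0, 0, 0, 0] [54, 44, 34, 24, 0, 0] 100000 12500 12500 1112501 8333 0 8333 62500 62500 50000
    25000) (.L 5 5 [4, 4, 5, 5, 6] [54, 44, 34, 24, 0, 0] [54, 44, 34, 24, 0, 0] 100000 25000 25000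
    1000000 0 0 100000 0 0 50000 25000)) (.E 2)))) (.E 1)) (.E 1)) (.E 1)) (.L 5 5 [4, 4, 5, 5, 6]
    [54, 44, 34, 24, 0, 0] [] 100000 18464 18464 1068629 22222 0 62745 13072 26144 53595 33333))

lemma s20_21_5_4_14 : BlkD.treeX d20_21_5_4 (BlkD.exF 5 4 x20_21_5_4) t20_21_5_4_14
    (BlkD.upd (BlkD.upd (fun _ => 0) 0 3) 1 3)
    (BlkD.upd (BlkD.upd (BlkD.upd (BlkD.upd (BlkD.upd (BlkD.upd (BlkD.upd (BlkD.upd (fun _ => 21) 0 5) 2 4) 0 4) 0 3) 1 18) 1 9) 1 4) 1 3) = true := by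
  decide +kernel

lemma n20_21_5_4_14 {n : ℕ} (hn : 6 ≤ n) : BlkD.NdX d20_21_5_4 (BlkD.exF 5 4 x20_21_5_4) n
    (BlkD.upd (BlkD.upd (fun _ => 0) 0 3) 1 3)
    (BlkD.upd (BlkD.upd (BlkD.upd (BlkD.upd (BlkD.upd (BlkD.upd (BlkD.upd (BlkD.upd (fun _ => 21) 0 5) 2 4) 0 4) 0 3) 1 18) 1 9) 1 4) 1 3) :=
  BlkD.NdX.tree s20_21_5_4_14 ok20_21_5_4 (by decide) hn

/-- a subtree -/
def t20_21_5_4_15 : BlkD.Tr :=
  .S 2 2 (.S 2 1 (.S 2 0 (.L 5 5 [4, 4, 5, 5, 6] [76, 66, 56, 46, 36, 0] [] 100000 55556 55556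
    700000 0 0 50000 100000 0 0 6944) (.S 3 13 (.S 3 6 (.S 3 3 (.L 5 5 [4, 4, 5, 5, 6] [76, 66, 56,
    46, 36, 0] [] 100000 25000 25000 1072730 0 13636 42424 13636 16667 0 33333) (.S 3 5 (.S 3 4 (.S
    4 4 (.S 4 2 (.L 5 5 [4, 4, 5, 5, 6] [56, 46, 36, 0, 0, 0] [58, 50, 40, 30, 20, 0] 100000 25000
    25000 1050000 0 50000 0 50000 75000 0 25000) (.L 5 5 [4, 4, 5, 5, 6] [76, 66, 56, 46, 36, 0]
    [58, 50, 40, 30, 20, 0] 100000 23522 23522 1060258 0 0 69871 27172 11645 27726 27449)) (.E 2))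
    (.S 4 4 (.S 4 2 (.L 1 1 [10, 12, 15, 17, 16] [56, 46, 36, 0, 0, 0] [72, 68, 60, 50, 40, 30]
    100000 50000 50000 925000 0 75000 0 75000 62500 25000 25000) (.L 1 1 [10, 12, 15, 17, 16] [76,
    66, 56, 46, 36, 0] [72, 68, 60, 50, 40, 30] 100000 22059 22059 1088239 0 0 70588 23529 11765
    32353 27941)) (.E 2))) (.L 1 1 [10, 12, 15, 17, 16] [76, 66, 56, 46, 36, 0] [86, 84, 80, 72,
    62, 52] 100000 41667 41667 933335 0 0 100000 33333 0 0 16667))) (.E 1)) (.E 1))) (.S 3 12 (.S 3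
    6 (.S 3 3 (.S 3 1 (.L 1 1 [10, 12, 15, 17, 16] [76, 66, 56, 46, 36, 0] [] 100000 25000 25000
    1000000 0 0 0 0 0 0 50000) (.S 3 2 (.L 1 1 [10, 12, 15, 17, 16] [76, 66, 56, 46, 36, 0] [30,
    20, 10, 0, 0, 0] 100000 18479 18479 1100000 0 0 60870 26087 26087 26087 24638) (.S 4 4 (.S 4 2
    (.L 5 6 [4, 4, 4, 5, 6] [56, 46, 36, 0, 0, 0] [48, 38, 28, 18, 0, 0] 100000 16837 16837 1114286
    8163 12245 32653 36735 35034 32653 24830) (.L 5 6 [4, 4, 4, 5, 6] [76, 66, 56, 46, 36, 0] [48,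
    38, 28, 18, 0, 0] 100000 25000 24999 1028574 0 0 85714 14286 14286 28571 21429)) (.E 2)))) (.S
    3 5 (.S 3 4 (.S 4 4 (.S 4 2 (.S 4 1 (.S 4 0 (.E 2) (.S 5 4 (.S 5 2 (.S 5 1 (.E 2) (.E 9)) (.L 5
    6 [4, 4, 4, 5, 6] [46, 36, 0, 0, 0, 0] [66, 58, 48, 38, 28, 0] 100000 25000 25000 1000000 0 0 0
    100000 62500 0 25000)) (.E 2))) (.S 5 4 (.S 5 2 (.S 5 1 (.E 2) (.E 9)) (.L 5 6 [4, 4, 4, 5, 6]
    [56, 46, 36, 0, 0, 0] [66, 58, 48, 38, 28, 0] 100000 25000 25000 1000000 0 0 0 100000 62500 0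
    25000)) (.E 2))) (.L 5 6 [4, 4, 4, 5, 6] [76, 66, 56, 46, 36, 0] [66, 58, 48, 38, 28, 0] 100000
    22369 22369 1078947 0 0 63158 31579 10526 28947 30263)) (.E 2)) (.L 5 6 [4, 4, 4, 5, 6] [76,
    66, 56, 46, 36, 0] [82, 78, 70, 60, 50, 40] 100000 100000 66667 466669 0 0 133333 133333 0 0
    0)) (.E 1))) (.E 1)) (.E 1))) (.S 2 3 (.S 3 11 (.S 3 5 (.S 3 2 (.S 3 1 (.L 5 6 [4, 4, 4, 5, 6]
    [76, 66, 56, 46, 36, 0] [] 100000 20000 20000 1080000 0 20000 60000 60000 20000 40000 20000)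
    (.S 4 4 (.S 4 2 (.L 5 6 [4, 4, 4, 5, 6] [56, 46, 36, 0, 0, 0] [34, 24, 14, 0, 0, 0] 100000
    15000 15000 1120000 0 20000 40000 40000 40000 40000 25000) (.L 5 6 [4, 4, 4, 5, 6] [76, 66, 56,
    46, 36, 0] [34, 24, 14, 0, 0, 0] 100000 25000 25000 1000000 0 0 100000 0 0 50000 25000)) (.E
    2))) (.S 3 4 (.S 3 3 (.S 4 4 (.S 4 2 (.S 4 1 (.S 4 0 (.E 2) (.S 5 3 (.S 5 1 (.E 2) (.S 5 2 (.E
    9) (.L 5 6 [4, 4, 4, 5, 6] [46, 36, 0, 0, 0, 0] [54, 44, 34, 24, 0, 0] 100000 25000 25000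
    1000000 0 0 0 100000 62500 0 25000))) (.E 2))) (.S 5 3 (.S 5 1 (.E 2) (.S 5 2 (.E 9) (.L 5 6
    [4, 4, 4, 5, 6] [56, 46, 36, 0, 0, 0] [54, 44, 34, 24, 0, 0] 100000 25000 25000 1000000 0 0 0
    100000 62500 0 25000))) (.E 2))) (.L 5 6 [4, 4, 4, 5, 6] [76, 66, 56, 46, 36, 0] [54, 44, 34,
    24, 0, 0] 100000 25000 25000 1000000 0 0 100000 0 0 50000 25000)) (.E 2)) (.E 1)) (.E 1))) (.E
    1)) (.E 1)) (.L 5 6 [4, 4, 4, 5, 6] [76, 66, 56, 46, 36, 0] [] 100000 16667 16667 1099999 16667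
    0 66667 0 33333 50000 25000))

lemma s20_21_5_4_15 : BlkD.treeX d20_21_5_4 (BlkD.exF 5 4 x20_21_5_4) t20_21_5_4_15
    (BlkD.upd (BlkD.upd (BlkD.upd (fun _ => 0) 0 3) 1 3) 1 4)
    (BlkD.upd (BlkD.upd (BlkD.upd (BlkD.upd (BlkD.upd (BlkD.upd (BlkD.upd (fun _ => 21) 0 5) 2 4) 0 4) 0 3) 1 18) 1 9) 1 4) = true := by
  decide +kernel

lemma n20_21_5_4_15 {n : ℕ} (hn : 6 ≤ n) : BlkD.NdX d20_21_5_4 (BlkD.exF 5 4 x20_21_5_4) n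
    (BlkD.upd (BlkD.upd (BlkD.upd (fun _ => 0) 0 3) 1 3) 1 4)
    (BlkD.upd (BlkD.upd (BlkD.upd (BlkD.upd (BlkD.upd (BlkD.upd (BlkD.upd (fun _ => 21) 0 5) 2 4) 0 4) 0 3) 1 18) 1 9) 1 4) :=
  BlkD.NdX.tree s20_21_5_4_15 ok20_21_5_4 (by decide) hn

/-- a subtree -/
def t20_21_5_4_16 : BlkD.Tr :=
  .S 2 1 (.S 2 0 (.L 5 6 [4, 4, 4, 5, 6] [98, 90, 80, 70, 60, 50] [] 100000 62500 62500 650000 0 0
    75000 100000 0 0 6250) (.S 3 12 (.S 3 6 (.S 3 3 (.L 5 6 [4, 4, 4, 5, 6] [98, 90, 80, 70, 60,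
    50] [] 100000 25000 25000 1040000 0 0 80000 0 40000 0 20000) (.S 3 5 (.S 3 4 (.S 4 5 (.S 4 2
    (.E 2) (.S 4 4 (.S 4 3 (.S 5 4 (.S 5 2 (.S 5 1 (.L 5 6 [4, 4, 4, 5, 6] [80, 70, 60, 50, 0, 0]
    [30, 20, 0, 0, 0, 0] 100000 50000 50000 880000 20000 100000 40000 0 40000 40000 20000) (.E 9))
    (.L 5 6 [4, 4, 4, 5, 6] [80, 70, 60, 50, 0, 0] [58, 50, 40, 30, 20, 0] 100000 25000 25000
    1000000 0 0 0 100000 62500 0 25000)) (.E 2)) (.L 5 6 [4, 4, 4, 5, 6] [90, 80, 70, 60, 50, 0]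
    [58, 50, 40, 30, 20, 0] 100000 12500 12500 1125000 0 0 50000 25000 50000 50000 25000)) (.L 5 6
    [4, 4, 4, 5, 6] [98, 90, 80, 70, 60, 50] [58, 50, 40, 30, 20, 0] 100000 41667 41667 900001 0 0
    100000 33333 0 0 16667))) (.E 2)) (.S 4 5 (.S 4 2 (.E 2) (.S 4 4 (.S 4 3 (.S 5 5 (.S 5 2 (.L 5
    6 [4, 4, 4, 5, 6] [80, 70, 60, 50, 0, 0] [50, 40, 30, 0, 0, 0] 100000 100000 100000 600000 0
    100000 100000 100000 0 0 0) (.L 5 6 [4, 4, 4, 5, 6] [80, 70, 60, 50, 0, 0] [72, 68, 60, 50, 40,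
    30] 100000 75000 75000 800000 0 0 100000 100000 0 0 0)) (.E 2)) (.L 5 6 [4, 4, 4, 5, 6] [90,
    80, 70, 60, 50, 0] [72, 68, 60, 50, 40, 30] 100000 25000 25000 1000000 0 0 100000 0 0 50000
    25000)) (.L 5 6 [4, 4, 4, 5, 6] [98, 90, 80, 70, 60, 50] [72, 68, 60, 50, 40, 30] 100000 50000
    50000 850000 0 0 100000 50000 0 0 12500))) (.E 2))) (.E 2))) (.E 1)) (.E 1))) (.S 3 11 (.S 3 5
    (.S 3 2 (.L 5 6 [4, 4, 4, 5, 6] [98, 90, 80, 70, 60, 50] [] 100000 25000 25000 1034288 0 0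
    82857 14286 34286 14286 17143) (.S 3 4 (.S 3 3 (.S 4 5 (.S 4 2 (.E 2) (.S 4 4 (.S 4 3 (.S 5 3
    (.S 5 1 (.L 5 6 [4, 4, 4, 5, 6] [80, 70, 60, 50, 0, 0] [28, 18, 0, 0, 0, 0] 100000 18750 18750
    1100000 25000 0 75000 0 25000 50000 25000) (.S 5 2 (.E 9) (.L 5 6 [4, 4, 4, 5, 6] [80, 70, 60,
    50, 0, 0] [48, 38, 28, 18, 0, 0] 100000 25000 25000 1000000 0 0 0 100000 62500 0 25000))) (.E
    2)) (.L 5 6 [4, 4, 4, 5, 6] [90, 80, 70, 60, 50, 0] [48, 38, 28, 18, 0, 0] 100000 25000 25000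
    1000000 0 0 100000 0 0 50000 25000)) (.L 5 6 [4, 4, 4, 5, 6] [98, 90, 80, 70, 60, 50] [48, 38,
    28, 18, 0, 0] 100000 40000 7273 769092 0 0 132727 9091 0 18182 18182))) (.E 2)) (.S 4 5 (.S 4 2
    (.E 2) (.S 4 4 (.S 4 3 (.S 5 4 (.S 5 2 (.L 5 6 [4, 4, 4, 5, 6] [80, 70, 60, 50, 0, 0] [48, 38,
    28, 0, 0, 0] 100000 35000 35000 1020000 40000 0 100000 0 0 60000 20000) (.L 5 6 [4, 4, 4, 5, 6]
    [80, 70, 60, 50, 0, 0] [66, 58, 48, 38, 28, 0] 100000 75000 75000 800000 0 0 100000 100000 0 0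
    0)) (.E 2)) (.L 5 6 [4, 4, 4, 5, 6] [90, 80, 70, 60, 50, 0] [66, 58, 48, 38, 28, 0] 100000
    25000 25000 1000000 0 0 100000 0 0 50000 25000)) (.L 5 6 [4, 4, 4, 5, 6] [98, 90, 80, 70, 60,
    50] [66, 58, 48, 38, 28, 0] 100000 100000 66667 466669 0 0 133333 133333 0 0 0))) (.E 2))) (.E
    2))) (.E 1)) (.E 1))

lemma s20_21_5_4_16 : BlkD.treeX d20_21_5_4 (BlkD.exF 5 4 x20_21_5_4) t20_21_5_4_16
    (BlkD.upd (BlkD.upd (fun _ => 0) 0 3) 1 5)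
    (BlkD.upd (BlkD.upd (BlkD.upd (BlkD.upd (BlkD.upd (BlkD.upd (BlkD.upd (BlkD.upd (BlkD.upd (BlkD.upd (fun _ => 21) 0 5) 2 4) 0 4) 0 3) 1 18) 1 9) 1 7) 1 6) 1 5) 2 2) = true := by
  decide +kernel

lemma n20_21_5_4_16 {n : ℕ} (hn : 6 ≤ n) : BlkD.NdX d20_21_5_4 (BlkD.exF 5 4 x20_21_5_4) n
    (BlkD.upd (BlkD.upd (fun _ => 0) 0 3) 1 5)
    (BlkD.upd (BlkD.upd (BlkD.upd (BlkD.upd (BlkD.upd (BlkD.upd (BlkD.upd (BlkD.upd (BlkD.upd (BlkD.upd (fun _ => 21) 0 5) 2 4) 0 4) 0 3) 1 18) 1 9) 1 7) 1 6) 1 5) 2 2) :=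
  BlkD.NdX.tree s20_21_5_4_16 ok20_21_5_4 (by decide) hn

/-- a subtree -/
def t20_21_5_4_17 : BlkD.Tr :=
  .S 2 3 (.S 3 10 (.S 3 5 (.S 3 2 (.S 3 1 (.L 5 6 [4, 4, 4, 5, 6] [98, 90, 80, 70, 60, 50] []
    100000 20834 20834 1050000 0 0 75000 33333 33333 33333 16667) (.S 4 5 (.S 4 2 (.E 2) (.S 4 4
    (.S 4 3 (.S 5 2 (.S 5 1 (.L 5 6 [4, 4, 4, 5, 6] [80, 70, 60, 50, 0, 0] [24, 14, 0, 0, 0, 0]
    100000 25000 25000 1000000 0 0 100000 0 0 50000 25000) (.E 9)) (.E 2)) (.L 5 6 [4, 4, 4, 5, 6]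
    [90, 80, 70, 60, 50, 0] [34, 24, 14, 0, 0, 0] 100000 25000 25000 1000000 0 0 100000 0 0 50000
    25000)) (.L 5 6 [4, 4, 4, 5, 6] [98, 90, 80, 70, 60, 50] [34, 24, 14, 0, 0, 0] 100000 42858 1
    714286 0 0 142857 14286 0 21429 17857))) (.E 2))) (.S 3 4 (.S 3 3 (.S 4 5 (.S 4 2 (.E 2) (.S 4
    4 (.S 4 3 (.L 5 6 [4, 4, 4, 5, 6] [80, 70, 60, 50, 0, 0] [54, 44, 34, 24, 0, 0] 100000 35000
    35000 1020000 40000 0 100000 0 0 60000 20000) (.L 5 6 [4, 4, 4, 5, 6] [90, 80, 70, 60, 50, 0]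
    [54, 44, 34, 24, 0, 0] 100000 25000 25000 1000000 0 0 100000 0 0 50000 25000)) (.L 5 6 [4, 4,
    4, 5, 6] [98, 90, 80, 70, 60, 50] [54, 44, 34, 24, 0, 0] 100000 100000 0 200000 0 0 200000
    100000 0 0 0))) (.E 2)) (.E 1)) (.E 1))) (.E 1)) (.E 1)) (.L 5 6 [4, 4, 4, 5, 6] [98, 90, 80,
    70, 60, 50] [] 100000 25000 25000 1000000 0 0 100000 0 0 50000 25000)

lemma s20_21_5_4_17 : BlkD.treeX d20_21_5_4 (BlkD.exF 5 4 x20_21_5_4) t20_21_5_4_17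
    (BlkD.upd (BlkD.upd (BlkD.upd (fun _ => 0) 0 3) 1 5) 2 3)
    (BlkD.upd (BlkD.upd (BlkD.upd (BlkD.upd (BlkD.upd (BlkD.upd (BlkD.upd (BlkD.upd (BlkD.upd (fun _ => 21) 0 5) 2 4) 0 4) 0 3) 1 18) 1 9) 1 7) 1 6) 1 5) = true := by
  decide +kernel

lemma n20_21_5_4_17 {n : ℕ} (hn : 6 ≤ n) : BlkD.NdX d20_21_5_4 (BlkD.exF 5 4 x20_21_5_4) n
    (BlkD.upd (BlkD.upd (BlkD.upd (fun _ => 0) 0 3) 1 5) 2 3)
    (BlkD.upd (BlkD.upd (BlkD.upd (BlkD.upd (BlkD.upd (BlkD.upd (BlkD.upd (BlkD.upd (BlkD.upd (fun _ => 21) 0 5) 2 4) 0 4) 0 3) 1 18) 1 9) 1 7) 1 6) 1 5) :=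
  BlkD.NdX.tree s20_21_5_4_17 ok20_21_5_4 (by decide) hn

/-- a subtree -/
def t20_21_5_4_18 : BlkD.Tr :=
  .L 5 6 [4, 4, 4, 5, 6] [120, 114, 106, 96, 86, 76] [] 100000 41667 41667 900001 0 0 100000 33333
    0 0 16667

lemma s20_21_5_4_18 : BlkD.treeX d20_21_5_4 (BlkD.exF 5 4 x20_21_5_4) t20_21_5_4_18
    (BlkD.upd (BlkD.upd (BlkD.upd (fun _ => 0) 0 3) 1 5) 1 6)
    (BlkD.upd (BlkD.upd (BlkD.upd (BlkD.upd (BlkD.upd (BlkD.upd (BlkD.upd (BlkD.upd (fun _ => 21) 0 5) 2 4) 0 4) 0 3) 1 18) 1 9) 1 7) 1 6) = true := by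
  decide +kernel

lemma n20_21_5_4_18 {n : ℕ} (hn : 6 ≤ n) : BlkD.NdX d20_21_5_4 (BlkD.exF 5 4 x20_21_5_4) n
    (BlkD.upd (BlkD.upd (BlkD.upd (fun _ => 0) 0 3) 1 5) 1 6)
    (BlkD.upd (BlkD.upd (BlkD.upd (BlkD.upd (BlkD.upd (BlkD.upd (BlkD.upd (BlkD.upd (fun _ => 21) 0 5) 2 4) 0 4) 0 3) 1 18) 1 9) 1 7) 1 6) :=
  BlkD.NdX.tree s20_21_5_4_18 ok20_21_5_4 (by decide) hn

/-- a subtree -/
def t20_21_5_4_19 : BlkD.Tr :=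
  .E 0

lemma s20_21_5_4_19 : BlkD.treeX d20_21_5_4 (BlkD.exF 5 4 x20_21_5_4) t20_21_5_4_19
    (BlkD.upd (BlkD.upd (BlkD.upd (fun _ => 0) 0 3) 1 5) 1 7)
    (BlkD.upd (BlkD.upd (BlkD.upd (BlkD.upd (BlkD.upd (BlkD.upd (BlkD.upd (fun _ => 21) 0 5) 2 4) 0 4) 0 3) 1 18) 1 9) 1 7) = true := by
  decide +kernel

lemma n20_21_5_4_19 {n : ℕ} (hn : 6 ≤ n) : BlkD.NdX d20_21_5_4 (BlkD.exF 5 4 x20_21_5_4) n
    (BlkD.upd (BlkD.upd (BlkD.upd (fun _ => 0) 0 3) 1 5) 1 7)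
    (BlkD.upd (BlkD.upd (BlkD.upd (BlkD.upd (BlkD.upd (BlkD.upd (BlkD.upd (fun _ => 21) 0 5) 2 4) 0 4) 0 3) 1 18) 1 9) 1 7) :=
  BlkD.NdX.tree s20_21_5_4_19 ok20_21_5_4 (by decide) hn

/-- a subtree -/
def t20_21_5_4_20 : BlkD.Tr :=
  .E 0

lemma s20_21_5_4_20 : BlkD.treeX d20_21_5_4 (BlkD.exF 5 4 x20_21_5_4) t20_21_5_4_20
    (BlkD.upd (BlkD.upd (BlkD.upd (fun _ => 0) 0 3) 1 5) 1 8)
    (BlkD.upd (BlkD.upd (BlkD.upd (BlkD.upd (BlkD.upd (BlkD.upd (fun _ => 21) 0 5) 2 4) 0 4) 0 3) 1 18) 1 9) = true := by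
  decide +kernel

lemma n20_21_5_4_20 {n : ℕ} (hn : 6 ≤ n) : BlkD.NdX d20_21_5_4 (BlkD.exF 5 4 x20_21_5_4) n
    (BlkD.upd (BlkD.upd (BlkD.upd (fun _ => 0) 0 3) 1 5) 1 8)
    (BlkD.upd (BlkD.upd (BlkD.upd (BlkD.upd (BlkD.upd (BlkD.upd (fun _ => 21) 0 5) 2 4) 0 4) 0 3) 1 18) 1 9) :=
  BlkD.NdX.tree s20_21_5_4_20 ok20_21_5_4 (by decide) hn

/-- a subtree -/
def t20_21_5_4_21 : BlkD.Tr :=
  .E 0

lemma s20_21_5_4_21 : BlkD.treeX d20_21_5_4 (BlkD.exF 5 4 x20_21_5_4) t20_21_5_4_21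
    (BlkD.upd (BlkD.upd (fun _ => 0) 0 3) 1 10)
    (BlkD.upd (BlkD.upd (BlkD.upd (BlkD.upd (BlkD.upd (fun _ => 21) 0 5) 2 4) 0 4) 0 3) 1 18) = true := by
  decide +kernel

lemma n20_21_5_4_21 {n : ℕ} (hn : 6 ≤ n) : BlkD.NdX d20_21_5_4 (BlkD.exF 5 4 x20_21_5_4) n
    (BlkD.upd (BlkD.upd (fun _ => 0) 0 3) 1 10)
    (BlkD.upd (BlkD.upd (BlkD.upd (BlkD.upd (BlkD.upd (fun _ => 21) 0 5) 2 4) 0 4) 0 3) 1 18) :=
  BlkD.NdX.tree s20_21_5_4_21 ok20_21_5_4 (by decide) hn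

/-- a subtree -/
def t20_21_5_4_22 : BlkD.Tr :=
  .E 0

lemma s20_21_5_4_22 : BlkD.treeX d20_21_5_4 (BlkD.exF 5 4 x20_21_5_4) t20_21_5_4_22
    (BlkD.upd (BlkD.upd (fun _ => 0) 0 3) 1 19)
    (BlkD.upd (BlkD.upd (BlkD.upd (BlkD.upd (fun _ => 21) 0 5) 2 4) 0 4) 0 3) = true := by
  decide +kernel

lemma n20_21_5_4_22 {n : ℕ} (hn : 6 ≤ n) : BlkD.NdX d20_21_5_4 (BlkD.exF 5 4 x20_21_5_4) n
    (BlkD.upd (BlkD.upd (fun _ => 0) 0 3) 1 19)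
    (BlkD.upd (BlkD.upd (BlkD.upd (BlkD.upd (fun _ => 21) 0 5) 2 4) 0 4) 0 3) :=
  BlkD.NdX.tree s20_21_5_4_22 ok20_21_5_4 (by decide) hn

/-- a subtree -/
def t20_21_5_4_23 : BlkD.Tr :=
  .S 1 1 (.S 1 0 (.L 5 6 [4, 4, 4, 5, 6] [0, 0, 0, 0, 0, 0] [] 100000 30953 30953 1000000 0 0 0
    50000 0 28571 23810) (.L 5 6 [4, 4, 4, 5, 6] [18, 8, 0, 0, 0, 0] [] 100000 19213 19213 1094048
    33995 1984 35979 33995 33995 23148 26984)) (.S 2 2 (.S 2 1 (.L 5 6 [4, 4, 4, 5, 6] [38, 28, 18,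
    0, 0, 0] [] 100000 21835 21834 1074685 0 46835 0 46835 62025 15190 24051) (.L 5 6 [4, 4, 4, 5,
    6] [38, 28, 18, 0, 0, 0] [] 100000 19782 19782 1087879 22559 0 50842 38721 38721 20875 26599))
    (.L 5 6 [4, 4, 4, 5, 6] [38, 28, 18, 0, 0, 0] [] 100000 13890 13890 1105556 16667 0 33333 44444
    44444 44444 22222))

lemma s20_21_5_4_23 : BlkD.treeX d20_21_5_4 (BlkD.exF 5 4 x20_21_5_4) t20_21_5_4_23
    (BlkD.upd (BlkD.upd (fun _ => 0) 0 3) 0 4)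
    (BlkD.upd (BlkD.upd (BlkD.upd (BlkD.upd (BlkD.upd (BlkD.upd (BlkD.upd (fun _ => 21) 0 5) 2 4) 0 4) 1 17) 1 8) 1 4) 1 2) = true := by
  decide +kernel

lemma n20_21_5_4_23 {n : ℕ} (hn : 6 ≤ n) : BlkD.NdX d20_21_5_4 (BlkD.exF 5 4 x20_21_5_4) n
    (BlkD.upd (BlkD.upd (fun _ => 0) 0 3) 0 4)
    (BlkD.upd (BlkD.upd (BlkD.upd (BlkD.upd (BlkD.upd (BlkD.upd (BlkD.upd (fun _ => 21) 0 5) 2 4) 0 4) 1 17) 1 8) 1 4) 1 2) :=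
  BlkD.NdX.tree s20_21_5_4_23 ok20_21_5_4 (by decide) hn

end BlkC

end Pool.Agent.Lib.MP_f04ccf_co
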