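import Pool.Agent.Lib.MP_f04ccf_co.M.BlkX20_21_5_4d

/-!
MP_f04ccf_co, block certificate with exceptions, `R = 20`, `H = 21`, the pair `(5, 4)` (data of helper99 / helper13,
generated by helper8, genx.py): part 2 of 2.
-/

set_option autoImplicit false
set_option maxRecDepth 100000

namespace Pool.Agent.Lib.MP_f04ccf_co

namespace BlkC

/-- a subtree -/
def t20_21_5_4_24 : BlkD.Tr :=
  .S 1 3 (.S 2 2 (.S 2 1 (.S 2 0 (.L 5 6 [4, 4, 4, 5, 6] [60, 50, 40, 30, 0, 0] [] 100000 55556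
    55556 700000 0 0 50000 100000 0 0 6944) (.S 3 13 (.S 3 6 (.S 3 3 (.L 5 6 [4, 4, 4, 5, 6] [60,
    50, 40, 30, 0, 0] [] 100000 25000 24999 1031034 0 34483 25862 34483 51724 0 22414) (.S 3 5 (.S
    3 4 (.L 5 6 [4, 4, 4, 5, 6] [60, 50, 40, 30, 0, 0] [58, 50, 40, 30, 20, 0] 100000 17857 17856
    1100001 0 21429 28571 35714 32653 28571 22449) (.S 4 3 (.S 4 1 (.L 5 6 [4, 4, 4, 5, 6] [40, 30,
    0, 0, 0, 0] [72, 68, 60, 50, 40, 30] 100000 75000 75000 800000 0 100000 0 100000 50000 0 0) (.S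
    4 2 (.L 1 1 [10, 12, 15, 17, 16] [50, 40, 30, 0, 0, 0] [72, 68, 60, 50, 40, 30] 100000 50000
    50000 925000 0 75000 0 75000 62500 25000 25000) (.L 1 1 [10, 12, 15, 17, 16] [60, 50, 40, 30,
    0, 0] [72, 68, 60, 50, 40, 30] 100000 19445 19445 1100000 0 0 66667 22222 22222 27778 25000)))
    (.E 2))) (.L 1 1 [10, 12, 15, 17, 16] [60, 50, 40, 30, 0, 0] [86, 84, 80, 72, 62, 52] 100000
    110526 0 3 0 0 115789 210526 0 0 0))) (.E 1)) (.E 1))) (.S 3 12 (.S 3 6 (.S 3 3 (.S 3 1 (.L 1 1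
    [10, 12, 15, 17, 16] [60, 50, 40, 30, 0, 0] [] 100000 25000 25000 1000000 0 0 0 0 0 0 50000)
    (.S 3 2 (.L 1 1 [10, 12, 15, 17, 16] [60, 50, 40, 30, 0, 0] [30, 20, 10, 0, 0, 0] 100000 15000
    15000 1100000 0 0 40000 40000 40000 40000 20000) (.L 5 5 [4, 4, 5, 5, 6] [60, 50, 40, 30, 0, 0]
    [48, 38, 28, 18, 0, 0] 100000 18750 18750 1100000 0 25000 25000 50000 50000 25000 25000))) (.S
    3 5 (.S 3 4 (.S 4 3 (.S 4 1 (.S 4 0 (.E 2) (.S 5 4 (.S 5 2 (.L 7 8 [4, 4, 5, 4, 4] [40, 30, 0,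
    0, 0, 0] [48, 38, 28, 0, 0, 0] 100000 13462 13462 1115386 0 30769 0 61538 61538 46154 23077)
    (.L 7 8 [4, 4, 5, 4, 4] [40, 30, 0, 0, 0, 0] [66, 58, 48, 38, 28, 0] 100000 25000 25000 1000000
    0 0 0 100000 62500 0 25000)) (.E 2))) (.S 4 2 (.S 5 4 (.S 5 2 (.S 5 1 (.E 2) (.E 9)) (.L 7 8
    [4, 4, 5, 4, 4] [50, 40, 30, 0, 0, 0] [66, 58, 48, 38, 28, 0] 100000 25000 25000 1000000 0 0 0
    100000 62500 0 25000)) (.E 2)) (.L 7 8 [4, 4, 5, 4, 4] [60, 50, 40, 30, 0, 0] [66, 58, 48, 38,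
    28, 0] 100000 17857 17856 1100001 0 0 57143 28571 28571 28571 23810))) (.E 2)) (.E 2)) (.E 1)))
    (.E 1)) (.E 1))) (.S 2 3 (.S 3 11 (.S 3 5 (.S 3 2 (.L 7 8 [4, 4, 5, 4, 4] [60, 50, 40, 30, 0,
    0] [] 100000 15000 15000 1120000 0 20000 40000 40000 40000 40000 20000) (.S 3 4 (.S 3 3 (.S 4 3
    (.S 4 1 (.S 4 0 (.E 2) (.S 5 3 (.S 5 1 (.E 2) (.S 5 2 (.E 9) (.L 7 8 [4, 4, 5, 4, 4] [40, 30,
    0, 0, 0, 0] [54, 44, 34, 24, 0, 0] 100000 25000 25000 1000000 0 0 0 100000 62500 0 25000))) (.E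
    2))) (.S 4 2 (.S 5 3 (.S 5 1 (.E 2) (.S 5 2 (.E 9) (.L 7 8 [4, 4, 5, 4, 4] [50, 40, 30, 0, 0,
    0] [54, 44, 34, 24, 0, 0] 100000 25000 25000 1000000 0 0 0 100000 62500 0 25000))) (.E 2)) (.L
    7 8 [4, 4, 5, 4, 4] [60, 50, 40, 30, 0, 0] [54, 44, 34, 24, 0, 0] 100000 25000 25000 1000000 0
    0 100000 0 0 50000 25000))) (.E 2)) (.E 1)) (.E 1))) (.E 1)) (.E 1)) (.L 7 8 [4, 4, 5, 4, 4]
    [60, 50, 40, 30, 0, 0] [] 100000 8334 8334 1133333 0 0 66667 0 66667 66667 33333))) (.S 2 2 (.S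
    2 1 (.S 2 0 (.L 7 8 [4, 4, 5, 4, 4] [84, 74, 64, 54, 44, 0] [] 100000 62500 62500 650000 0 0
    75000 100000 0 0 6250) (.S 3 12 (.S 3 6 (.S 3 3 (.L 7 8 [4, 4, 5, 4, 4] [84, 74, 64, 54, 44, 0]
    [] 100000 25000 25000 1040000 0 0 80000 0 40000 0 20000) (.S 3 5 (.S 3 4 (.L 7 8 [4, 4, 5, 4,
    4] [84, 74, 64, 54, 44, 0] [58, 50, 40, 30, 20, 0] 100000 12500 12500 1125000 0 0 50000 25000
    50000 50000 25000) (.L 7 8 [4, 4, 5, 4, 4] [84, 74, 64, 54, 44, 0] [72, 68, 60, 50, 40, 30]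
    100000 25000 25000 1000000 0 0 100000 0 0 50000 25000)) (.E 2))) (.E 1)) (.E 1))) (.L 7 8 [4,
    4, 5, 4, 4] [84, 74, 64, 54, 44, 0] [] 100000 34375 34374 983333 0 0 100000 16667 16667 12500
    16667)) (.L 7 8 [4, 4, 5, 4, 4] [84, 74, 64, 54, 44, 0] [] 100000 25000 25000 1000000 0 0
    100000 0 0 50000 25000))

lemma s20_21_5_4_24 : BlkD.treeX d20_21_5_4 (BlkD.exF 5 4 x20_21_5_4) t20_21_5_4_24
    (BlkD.upd (BlkD.upd (BlkD.upd (fun _ => 0) 0 3) 0 4) 1 3)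
    (BlkD.upd (BlkD.upd (BlkD.upd (BlkD.upd (BlkD.upd (BlkD.upd (fun _ => 21) 0 5) 2 4) 0 4) 1 17) 1 8) 1 4) = true := by
  decide +kernel

lemma n20_21_5_4_24 {n : ℕ} (hn : 6 ≤ n) : BlkD.NdX d20_21_5_4 (BlkD.exF 5 4 x20_21_5_4) n
    (BlkD.upd (BlkD.upd (BlkD.upd (fun _ => 0) 0 3) 0 4) 1 3)
    (BlkD.upd (BlkD.upd (BlkD.upd (BlkD.upd (BlkD.upd (BlkD.upd (fun _ => 21) 0 5) 2 4) 0 4) 1 17) 1 8) 1 4) :=
  BlkD.NdX.tree s20_21_5_4_24 ok20_21_5_4 (by decide) hn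

/-- a subtree -/
def t20_21_5_4_25 : BlkD.Tr :=
  .E 0

lemma s20_21_5_4_25 : BlkD.treeX d20_21_5_4 (BlkD.exF 5 4 x20_21_5_4) t20_21_5_4_25
    (BlkD.upd (BlkD.upd (BlkD.upd (fun _ => 0) 0 3) 0 4) 1 5)
    (BlkD.upd (BlkD.upd (BlkD.upd (BlkD.upd (BlkD.upd (fun _ => 21) 0 5) 2 4) 0 4) 1 17) 1 8) = true := by
  decide +kernel

lemma n20_21_5_4_25 {n : ℕ} (hn : 6 ≤ n) : BlkD.NdX d20_21_5_4 (BlkD.exF 5 4 x20_21_5_4) n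
    (BlkD.upd (BlkD.upd (BlkD.upd (fun _ => 0) 0 3) 0 4) 1 5)
    (BlkD.upd (BlkD.upd (BlkD.upd (BlkD.upd (BlkD.upd (fun _ => 21) 0 5) 2 4) 0 4) 1 17) 1 8) :=
  BlkD.NdX.tree s20_21_5_4_25 ok20_21_5_4 (by decide) hn

/-- a subtree -/
def t20_21_5_4_26 : BlkD.Tr :=
  .E 0

lemma s20_21_5_4_26 : BlkD.treeX d20_21_5_4 (BlkD.exF 5 4 x20_21_5_4) t20_21_5_4_26
    (BlkD.upd (BlkD.upd (BlkD.upd (fun _ => 0) 0 3) 0 4) 1 9)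
    (BlkD.upd (BlkD.upd (BlkD.upd (BlkD.upd (fun _ => 21) 0 5) 2 4) 0 4) 1 17) = true := by
  decide +kernel

lemma n20_21_5_4_26 {n : ℕ} (hn : 6 ≤ n) : BlkD.NdX d20_21_5_4 (BlkD.exF 5 4 x20_21_5_4) n
    (BlkD.upd (BlkD.upd (BlkD.upd (fun _ => 0) 0 3) 0 4) 1 9)
    (BlkD.upd (BlkD.upd (BlkD.upd (BlkD.upd (fun _ => 21) 0 5) 2 4) 0 4) 1 17) :=
  BlkD.NdX.tree s20_21_5_4_26 ok20_21_5_4 (by decide) hn

/-- a subtree -/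
def t20_21_5_4_27 : BlkD.Tr :=
  .E 0

lemma s20_21_5_4_27 : BlkD.treeX d20_21_5_4 (BlkD.exF 5 4 x20_21_5_4) t20_21_5_4_27
    (BlkD.upd (BlkD.upd (BlkD.upd (fun _ => 0) 0 3) 0 4) 1 18)
    (BlkD.upd (BlkD.upd (BlkD.upd (fun _ => 21) 0 5) 2 4) 0 4) = true := by
  decide +kernel

lemma n20_21_5_4_27 {n : ℕ} (hn : 6 ≤ n) : BlkD.NdX d20_21_5_4 (BlkD.exF 5 4 x20_21_5_4) n
    (BlkD.upd (BlkD.upd (BlkD.upd (fun _ => 0) 0 3) 0 4) 1 18)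
    (BlkD.upd (BlkD.upd (BlkD.upd (fun _ => 21) 0 5) 2 4) 0 4) :=
  BlkD.NdX.tree s20_21_5_4_27 ok20_21_5_4 (by decide) hn

/-- a subtree -/
def t20_21_5_4_28 : BlkD.Tr :=
  .S 1 16 (.S 1 8 (.S 1 4 (.S 1 2 (.S 1 1 (.L 7 8 [4, 4, 5, 4, 4] [] [] 100000 16667 16667 1100000
    33333 0 33333 66667 60000 33333 20000) (.S 2 2 (.S 2 1 (.L 7 8 [4, 4, 5, 4, 4] [42, 32, 22, 0,
    0, 0] [] 100000 75000 75000 800000 0 100000 0 100000 50000 0 0) (.S 3 12 (.S 3 6 (.S 3 3 (.L 7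
    8 [4, 4, 5, 4, 4] [42, 32, 22, 0, 0, 0] [] 100000 21452 21452 1063229 0 36129 14194 50323 61290
    14194 24516) (.S 3 5 (.S 3 4 (.S 4 2 (.S 4 1 (.E 2) (.S 5 4 (.S 5 2 (.L 7 8 [4, 4, 5, 4, 4]
    [42, 32, 22, 0, 0, 0] [48, 38, 28, 0, 0, 0] 100000 13462 13462 1115386 0 30769 0 61538 61538
    46154 23077) (.L 7 8 [4, 4, 5, 4, 4] [42, 32, 22, 0, 0, 0] [66, 58, 48, 38, 28, 0] 100000 25000
    25000 1000000 0 0 0 100000 62500 0 25000)) (.E 2))) (.E 2)) (.E 2)) (.E 1))) (.E 1)) (.E 1)))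
    (.S 2 3 (.S 3 11 (.S 3 5 (.S 3 2 (.L 7 8 [4, 4, 5, 4, 4] [42, 32, 22, 0, 0, 0] [] 100000 17593
    17593 1059258 0 40741 29630 55556 70370 29630 22222) (.S 3 4 (.S 3 3 (.S 4 2 (.S 4 1 (.E 2) (.S
    5 3 (.S 5 1 (.E 2) (.S 5 2 (.E 9) (.L 7 8 [4, 4, 5, 4, 4] [42, 32, 22, 0, 0, 0] [54, 44, 34,
    24, 0, 0] 100000 25000 25000 1000000 0 0 0 100000 62500 0 25000))) (.E 2))) (.E 2)) (.E 1)) (.E
    1))) (.E 1)) (.E 1)) (.L 7 8 [4, 4, 5, 4, 4] [42, 32, 22, 0, 0, 0] [] 100000 8334 8334 1066666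
    0 0 66667 0 66667 66667 33333)))) (.E 0)) (.E 0)) (.E 0)) (.E 0)

lemma s20_21_5_4_28 : BlkD.treeX d20_21_5_4 (BlkD.exF 5 4 x20_21_5_4) t20_21_5_4_28
    (BlkD.upd (BlkD.upd (fun _ => 0) 0 3) 0 5)
    (BlkD.upd (BlkD.upd (fun _ => 21) 0 5) 2 4) = true := by
  decide +kernel

lemma n20_21_5_4_28 {n : ℕ} (hn : 6 ≤ n) : BlkD.NdX d20_21_5_4 (BlkD.exF 5 4 x20_21_5_4) n
    (BlkD.upd (BlkD.upd (fun _ => 0) 0 3) 0 5)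
    (BlkD.upd (BlkD.upd (fun _ => 21) 0 5) 2 4) :=
  BlkD.NdX.tree s20_21_5_4_28 ok20_21_5_4 (by decide) hn

/-- a subtree -/
def t20_21_5_4_29 : BlkD.Tr :=
  .E 1

lemma s20_21_5_4_29 : BlkD.treeX d20_21_5_4 (BlkD.exF 5 4 x20_21_5_4) t20_21_5_4_29
    (BlkD.upd (fun _ => 0) 2 5)
    (BlkD.upd (fun _ => 21) 0 5) = true := by
  decide +kernel

lemma n20_21_5_4_29 {n : ℕ} (hn : 6 ≤ n) : BlkD.NdX d20_21_5_4 (BlkD.exF 5 4 x20_21_5_4) n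
    (BlkD.upd (fun _ => 0) 2 5)
    (BlkD.upd (fun _ => 21) 0 5) :=
  BlkD.NdX.tree s20_21_5_4_29 ok20_21_5_4 (by decide) hn

/-- a subtree -/
def t20_21_5_4_30 : BlkD.Tr :=
  .E 0

lemma s20_21_5_4_30 : BlkD.treeX d20_21_5_4 (BlkD.exF 5 4 x20_21_5_4) t20_21_5_4_30
    (BlkD.upd (fun _ => 0) 0 6)
    (fun _ => 21) = true := by
  decide +kernel

lemma n20_21_5_4_30 {n : ℕ} (hn : 6 ≤ n) : BlkD.NdX d20_21_5_4 (BlkD.exF 5 4 x20_21_5_4) n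
    (BlkD.upd (fun _ => 0) 0 6)
    (fun _ => 21) :=
  BlkD.NdX.tree s20_21_5_4_30 ok20_21_5_4 (by decide) hn

end BlkC

end Pool.Agent.Lib.MP_f04ccf_co
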