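import Pool.Agent.Lib.MP_f04ccf_co.M.BlkX20_21_6_4d

/-!
MP_f04ccf_co, block certificate with exceptions, `R = 20`, `H = 21`, the pair `(6, 4)` (data of helper99 / helper13,
generated by helper8, genx.py): part 2 of 2.
-/

set_option autoImplicit false
set_option maxRecDepth 100000

namespace Pool.Agent.Lib.MP_f04ccf_co

namespace BlkC

/-- a subtree -/
def t20_21_6_4_23 : BlkD.Tr :=
  .S 2 2 (.S 2 1 (.S 2 0 (.L 6 7 [4, 4, 4, 4, 5] [110, 104, 96, 84, 72, 60] [] 100000 50000 50000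
    800000 0 0 100000 100000 0 0 0) (.S 3 11 (.S 3 5 (.S 3 2 (.L 6 7 [4, 4, 4, 4, 5] [110, 104, 96,
    84, 72, 60] [] 100000 25000 25000 1100000 0 12500 87500 12500 12500 0 25000) (.S 3 4 (.S 3 3
    (.L 6 7 [4, 4, 4, 4, 5] [110, 104, 96, 84, 72, 60] [44, 34, 24, 12, 0, 0] 100000 26316 26315
    1189475 0 15789 78947 15789 10526 0 24561) (.S 4 5 (.S 4 2 (.L 1 1 [10, 13, 16, 17, 16] [84,
    72, 60, 0, 0, 0] [58, 52, 42, 32, 20, 0] 100000 46154 46154 1092308 0 69231 23077 76923 53846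
    23077 23077) (.L 1 1 [10, 13, 16, 17, 16] [110, 104, 96, 84, 72, 60] [58, 52, 42, 32, 20, 0]
    100000 26423 26423 1182930 0 5691 100000 29268 16667 35366 17886)) (.E 2))) (.S 4 5 (.S 4 2 (.L
    1 1 [10, 13, 16, 17, 16] [84, 72, 60, 0, 0, 0] [70, 68, 62, 52, 42, 30] 100000 100000 100000
    800000 0 100000 100000 100000 0 0 0) (.S 4 4 (.S 4 3 (.S 5 5 (.S 5 2 (.L 1 1 [10, 13, 16, 17,
    16] [96, 84, 72, 60, 0, 0] [52, 42, 30, 0, 0, 0] 100000 100000 100000 800000 0 100000 100000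
    100000 0 0 0) (.S 5 4 (.S 5 3 (.E 9) (.L 1 1 [10, 13, 16, 17, 16] [96, 84, 72, 60, 0, 0] [68,
    62, 52, 42, 30, 0] 100000 50000 50000 1000000 0 0 100000 100000 0 0 0)) (.L 1 1 [10, 13, 16,
    17, 16] [96, 84, 72, 60, 0, 0] [70, 68, 62, 52, 42, 30] 100000 125000 25000 300000 0 0 200000
    200000 0 0 0))) (.E 2)) (.L 1 1 [10, 13, 16, 17, 16] [104, 96, 84, 72, 60, 0] [70, 68, 62, 52,
    42, 30] 100000 100000 100000 800000 0 100000 100000 100000 0 0 0)) (.L 1 1 [10, 13, 16, 17, 16]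
    [110, 104, 96, 84, 72, 60] [70, 68, 62, 52, 42, 30] 100000 150000 50000 200000 0 100000 200000
    150000 0 0 0))) (.E 2)))) (.E 2)) (.E 1))) (.S 3 10 (.S 3 5 (.S 3 2 (.L 1 1 [10, 13, 16, 17,
    16] [110, 104, 96, 84, 72, 60] [] 100000 21154 21154 1207694 0 0 92308 15385 15385 15385 25641)
    (.S 3 4 (.S 3 3 (.S 4 5 (.S 4 2 (.S 4 1 (.E 2) (.S 5 3 (.S 5 1 (.L 6 7 [4, 4, 4, 4, 5] [84, 72,
    60, 0, 0, 0] [30, 18, 0, 0, 0, 0] 100000 15909 15908 1231819 27273 0 81818 4545 36364 45455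
    18182) (.L 6 7 [4, 4, 4, 4, 5] [84, 72, 60, 0, 0, 0] [50, 40, 30, 18, 0, 0] 100000 25000 25000
    1160000 0 0 40000 100000 70000 5000 10000)) (.E 2))) (.L 6 7 [4, 4, 4, 4, 5] [110, 104, 96, 84,
    72, 60] [50, 40, 30, 18, 0, 0] 100000 25000 25000 1188236 5882 0 100000 23529 11765 41176
    17647)) (.E 2)) (.S 4 5 (.S 4 2 (.L 6 7 [4, 4, 4, 4, 5] [84, 72, 60, 0, 0, 0] [66, 60, 50, 40,
    28, 0] 100000 72727 72727 972729 54545 0 100000 81818 0 0 9091) (.L 6 7 [4, 4, 4, 4, 5] [110,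
    104, 96, 84, 72, 60] [66, 60, 50, 40, 28, 0] 100000 50000 50000 1000000 0 0 100000 100000 0 0
    0)) (.E 2))) (.E 2))) (.E 1)) (.E 1))) (.S 2 3 (.S 3 9 (.S 3 4 (.S 3 2 (.S 3 1 (.L 6 7 [4, 4,
    4, 4, 5] [110, 104, 96, 84, 72, 60] [] 100000 19231 19230 1211538 0 0 88462 50000 23077 50000
    17692) (.S 4 5 (.S 4 2 (.L 5 6 [4, 4, 4, 5, 6] [84, 72, 60, 0, 0, 0] [36, 26, 14, 0, 0, 0]
    100000 16031 16031 1227736 13486 763 65903 39695 45038 38931 12977) (.L 5 6 [4, 4, 4, 5, 6]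
    [110, 104, 96, 84, 72, 60] [36, 26, 14, 0, 0, 0] 100000 25000 25000 1180000 10000 0 100000
    15000 10000 45000 20000)) (.E 2))) (.S 3 3 (.S 4 5 (.S 4 2 (.L 5 6 [4, 4, 4, 5, 6] [84, 72, 60,
    0, 0, 0] [56, 46, 36, 24, 0, 0] 100000 76924 76924 961538 46154 0 100000 100000 0 0 7692) (.L 5
    6 [4, 4, 4, 5, 6] [110, 104, 96, 84, 72, 60] [56, 46, 36, 24, 0, 0] 100000 50000 50000 1000000
    0 0 100000 100000 0 0 0)) (.E 2)) (.E 1))) (.E 1)) (.E 1)) (.L 5 6 [4, 4, 4, 5, 6] [110, 104,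
    96, 84, 72, 60] [] 100000 29167 29166 1149999 16667 0 100000 16667 0 50000 16667))

lemma s20_21_6_4_23 : BlkD.treeX d20_21_6_4 (BlkD.exF 6 4 x20_21_6_4) t20_21_6_4_23
    (BlkD.upd (BlkD.upd (fun _ => 0) 0 4) 1 5)
    (BlkD.upd (BlkD.upd (BlkD.upd (BlkD.upd (BlkD.upd (BlkD.upd (BlkD.upd (BlkD.upd (fun _ => 21) 0 6) 2 4) 0 5) 0 4) 1 17) 1 8) 1 6) 1 5) = true := by
  decide +kernel

lemma n20_21_6_4_23 {n : ℕ} (hn : 6 ≤ n) : BlkD.NdX d20_21_6_4 (BlkD.exF 6 4 x20_21_6_4) n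
    (BlkD.upd (BlkD.upd (fun _ => 0) 0 4) 1 5)
    (BlkD.upd (BlkD.upd (BlkD.upd (BlkD.upd (BlkD.upd (BlkD.upd (BlkD.upd (BlkD.upd (fun _ => 21) 0 6) 2 4) 0 5) 0 4) 1 17) 1 8) 1 6) 1 5) :=
  BlkD.NdX.tree s20_21_6_4_23 ok20_21_6_4 (by decide) hn

/-- a subtree -/
def t20_21_6_4_24 : BlkD.Tr :=
  .S 2 2 (.S 2 1 (.S 2 0 (.L 5 6 [4, 4, 4, 5, 6] [128, 128, 122, 114, 102, 90] [] 100000 66667 0
    666666 0 0 166667 100000 0 0 0) (.S 3 10 (.S 3 5 (.S 3 2 (.L 5 6 [4, 4, 4, 5, 6] [128, 128,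
    122, 114, 102, 90] [] 100000 25000 25000 1100000 0 0 100000 0 25000 0 25000) (.S 3 4 (.S 3 3
    (.S 4 6 (.S 4 3 (.E 2) (.S 4 5 (.S 4 4 (.L 5 6 [4, 4, 4, 5, 6] [122, 114, 102, 90, 78, 0] [44,
    34, 24, 12, 0, 0] 100000 41177 41177 1129412 35294 0 100000 35294 0 5882 11765) (.L 5 6 [4, 4,
    4, 5, 6] [128, 122, 114, 102, 90, 78] [44, 34, 24, 12, 0, 0] 100000 25000 25000 1100000 0 0
    100000 0 25000 0 25000)) (.L 5 6 [4, 4, 4, 5, 6] [128, 128, 122, 114, 102, 90] [44, 34, 24, 12,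
    0, 0] 100000 66667 0 666666 0 33333 166667 33333 0 0 8333))) (.E 2)) (.L 5 6 [4, 4, 4, 5, 6]
    [128, 128, 122, 114, 102, 90] [58, 52, 42, 32, 20, 0] 100000 27273 27273 1147272 0 7273 100000
    38182 45455 61818 9091)) (.E 2))) (.E 2)) (.E 1))) (.L 5 6 [4, 4, 4, 5, 6] [128, 128, 122, 114,
    102, 90] [] 100000 28571 28570 1171431 0 0 100000 28571 0 14286 23810)) (.L 5 6 [4, 4, 4, 5, 6]
    [128, 128, 122, 114, 102, 90] [] 100000 21053 21053 1173685 5263 0 92105 31579 55263 63158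
    10526)

lemma s20_21_6_4_24 : BlkD.treeX d20_21_6_4 (BlkD.exF 6 4 x20_21_6_4) t20_21_6_4_24
    (BlkD.upd (BlkD.upd (BlkD.upd (fun _ => 0) 0 4) 1 5) 1 6)
    (BlkD.upd (BlkD.upd (BlkD.upd (BlkD.upd (BlkD.upd (BlkD.upd (BlkD.upd (fun _ => 21) 0 6) 2 4) 0 5) 0 4) 1 17) 1 8) 1 6) = true := by
  decide +kernel

lemma n20_21_6_4_24 {n : ℕ} (hn : 6 ≤ n) : BlkD.NdX d20_21_6_4 (BlkD.exF 6 4 x20_21_6_4) n
    (BlkD.upd (BlkD.upd (BlkD.upd (fun _ => 0) 0 4) 1 5) 1 6)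
    (BlkD.upd (BlkD.upd (BlkD.upd (BlkD.upd (BlkD.upd (BlkD.upd (BlkD.upd (fun _ => 21) 0 6) 2 4) 0 5) 0 4) 1 17) 1 8) 1 6) :=
  BlkD.NdX.tree s20_21_6_4_24 ok20_21_6_4 (by decide) hn

/-- a subtree -/
def t20_21_6_4_25 : BlkD.Tr :=
  .E 0

lemma s20_21_6_4_25 : BlkD.treeX d20_21_6_4 (BlkD.exF 6 4 x20_21_6_4) t20_21_6_4_25
    (BlkD.upd (BlkD.upd (BlkD.upd (fun _ => 0) 0 4) 1 5) 1 7)
    (BlkD.upd (BlkD.upd (BlkD.upd (BlkD.upd (BlkD.upd (BlkD.upd (fun _ => 21) 0 6) 2 4) 0 5) 0 4) 1 17) 1 8) = true := by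
  decide +kernel

lemma n20_21_6_4_25 {n : ℕ} (hn : 6 ≤ n) : BlkD.NdX d20_21_6_4 (BlkD.exF 6 4 x20_21_6_4) n
    (BlkD.upd (BlkD.upd (BlkD.upd (fun _ => 0) 0 4) 1 5) 1 7)
    (BlkD.upd (BlkD.upd (BlkD.upd (BlkD.upd (BlkD.upd (BlkD.upd (fun _ => 21) 0 6) 2 4) 0 5) 0 4) 1 17) 1 8) :=
  BlkD.NdX.tree s20_21_6_4_25 ok20_21_6_4 (by decide) hn

/-- a subtree -/
def t20_21_6_4_26 : BlkD.Tr :=
  .E 0

lemma s20_21_6_4_26 : BlkD.treeX d20_21_6_4 (BlkD.exF 6 4 x20_21_6_4) t20_21_6_4_26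
    (BlkD.upd (BlkD.upd (fun _ => 0) 0 4) 1 9)
    (BlkD.upd (BlkD.upd (BlkD.upd (BlkD.upd (BlkD.upd (fun _ => 21) 0 6) 2 4) 0 5) 0 4) 1 17) = true := by
  decide +kernel

lemma n20_21_6_4_26 {n : ℕ} (hn : 6 ≤ n) : BlkD.NdX d20_21_6_4 (BlkD.exF 6 4 x20_21_6_4) n
    (BlkD.upd (BlkD.upd (fun _ => 0) 0 4) 1 9)
    (BlkD.upd (BlkD.upd (BlkD.upd (BlkD.upd (BlkD.upd (fun _ => 21) 0 6) 2 4) 0 5) 0 4) 1 17) :=
  BlkD.NdX.tree s20_21_6_4_26 ok20_21_6_4 (by decide) hn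

/-- a subtree -/
def t20_21_6_4_27 : BlkD.Tr :=
  .E 0

lemma s20_21_6_4_27 : BlkD.treeX d20_21_6_4 (BlkD.exF 6 4 x20_21_6_4) t20_21_6_4_27
    (BlkD.upd (BlkD.upd (fun _ => 0) 0 4) 1 18)
    (BlkD.upd (BlkD.upd (BlkD.upd (BlkD.upd (fun _ => 21) 0 6) 2 4) 0 5) 0 4) = true := by
  decide +kernel

lemma n20_21_6_4_27 {n : ℕ} (hn : 6 ≤ n) : BlkD.NdX d20_21_6_4 (BlkD.exF 6 4 x20_21_6_4) n
    (BlkD.upd (BlkD.upd (fun _ => 0) 0 4) 1 18)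
    (BlkD.upd (BlkD.upd (BlkD.upd (BlkD.upd (fun _ => 21) 0 6) 2 4) 0 5) 0 4) :=
  BlkD.NdX.tree s20_21_6_4_27 ok20_21_6_4 (by decide) hn

/-- a subtree -/
def t20_21_6_4_28 : BlkD.Tr :=
  .S 1 1 (.L 5 6 [4, 4, 4, 5, 6] [] [] 100000 24597 24597 1170968 30645 0 40323 56452 1613 30645
    29032) (.S 2 2 (.S 2 1 (.S 2 0 (.L 5 6 [4, 4, 4, 5, 6] [46, 34, 22, 0, 0, 0] [] 100000 50000
    50000 800000 0 0 50000 100000 0 0 0) (.S 3 13 (.S 3 6 (.S 3 3 (.L 5 6 [4, 4, 4, 5, 6] [46, 34,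
    22, 0, 0, 0] [] 100000 33333 33332 1066667 0 33333 33333 33333 0 0 25000) (.S 3 5 (.L 5 6 [4,
    4, 4, 5, 6] [46, 34, 22, 0, 0, 0] [] 100000 26993 26993 1178750 0 30313 32188 45469 625 21719
    24844) (.L 5 6 [4, 4, 4, 5, 6] [46, 34, 22, 0, 0, 0] [84, 82, 80, 74, 64, 54] 100000 50000
    50000 1000000 0 0 100000 100000 0 0 0))) (.E 1)) (.E 1))) (.S 3 12 (.S 3 6 (.S 3 3 (.L 5 6 [4,
    4, 4, 5, 6] [46, 34, 22, 0, 0, 0] [] 100000 21775 21775 1200000 3226 3226 90323 12903 12903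
    12903 29032) (.S 3 5 (.S 3 4 (.S 4 2 (.S 4 1 (.L 5 6 [4, 4, 4, 5, 6] [34, 22, 0, 0, 0, 0] [66,
    60, 50, 40, 28, 0] 100000 12500 12500 1227778 2778 22222 47222 38889 50000 50000 16667) (.L 5 6
    [4, 4, 4, 5, 6] [46, 34, 22, 0, 0, 0] [66, 60, 50, 40, 28, 0] 100000 26667 26667 1100001 0 0
    100000 33333 0 33333 20000)) (.E 2)) (.L 5 6 [4, 4, 4, 5, 6] [46, 34, 22, 0, 0, 0] [80, 78, 72,
    62, 52, 40] 100000 87500 37500 650000 0 0 150000 150000 0 0 0)) (.E 1))) (.E 1)) (.E 1))) (.S 2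
    3 (.S 3 11 (.S 3 5 (.S 3 2 (.L 5 6 [4, 4, 4, 5, 6] [46, 34, 22, 0, 0, 0] [] 100000 21687 21687
    1200000 7229 0 92771 14458 13253 14458 28514) (.S 3 4 (.S 3 3 (.S 4 2 (.S 4 1 (.L 5 6 [4, 4, 4,
    5, 6] [34, 22, 0, 0, 0, 0] [56, 46, 36, 24, 0, 0] 100000 16667 16667 1166667 33333 0 33333
    66667 66667 33333 33333) (.L 5 6 [4, 4, 4, 5, 6] [46, 34, 22, 0, 0, 0] [56, 46, 36, 24, 0, 0]
    100000 25000 25000 1100000 0 0 100000 0 0 25000 25000)) (.E 2)) (.E 1)) (.E 1))) (.E 1)) (.E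
    1)) (.L 5 6 [4, 4, 4, 5, 6] [46, 34, 22, 0, 0, 0] [] 100000 21740 21740 1200000 30435 0 69565
    39130 13043 60870 21739)))

lemma s20_21_6_4_28 : BlkD.treeX d20_21_6_4 (BlkD.exF 6 4 x20_21_6_4) t20_21_6_4_28
    (BlkD.upd (BlkD.upd (fun _ => 0) 0 4) 0 5)
    (BlkD.upd (BlkD.upd (BlkD.upd (BlkD.upd (BlkD.upd (BlkD.upd (BlkD.upd (fun _ => 21) 0 6) 2 4) 0 5) 1 16) 1 8) 1 4) 1 2) = true := by
  decide +kernel

lemma n20_21_6_4_28 {n : ℕ} (hn : 6 ≤ n) : BlkD.NdX d20_21_6_4 (BlkD.exF 6 4 x20_21_6_4) n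
    (BlkD.upd (BlkD.upd (fun _ => 0) 0 4) 0 5)
    (BlkD.upd (BlkD.upd (BlkD.upd (BlkD.upd (BlkD.upd (BlkD.upd (BlkD.upd (fun _ => 21) 0 6) 2 4) 0 5) 1 16) 1 8) 1 4) 1 2) :=
  BlkD.NdX.tree s20_21_6_4_28 ok20_21_6_4 (by decide) hn

/-- a subtree -/
def t20_21_6_4_29 : BlkD.Tr :=
  .S 1 3 (.S 2 2 (.S 2 1 (.S 2 0 (.L 5 6 [4, 4, 4, 5, 6] [72, 60, 48, 36, 0, 0] [] 100000 50000
    50000 850000 0 0 50000 100000 0 0 0) (.S 3 12 (.S 3 6 (.S 3 3 (.L 5 6 [4, 4, 4, 5, 6] [72, 60,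
    48, 36, 0, 0] [] 100000 31772 31772 1129166 0 35417 60417 35417 8333 0 22917) (.S 3 5 (.S 3 4
    (.L 6 7 [4, 4, 4, 4, 5] [72, 60, 48, 36, 0, 0] [58, 52, 42, 32, 20, 0] 100000 23746 23745
    1203011 8361 23411 50167 33445 8361 20067 22742) (.L 5 6 [4, 4, 4, 5, 6] [72, 60, 48, 36, 0, 0]
    [70, 68, 62, 52, 42, 30] 100000 46725 46725 1109171 873 48035 93013 51965 7860 48035 0)) (.L 5
    6 [4, 4, 4, 5, 6] [72, 60, 48, 36, 0, 0] [84, 82, 80, 74, 64, 54] 100000 100000 100000 800000 0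
    100000 100000 100000 0 0 0))) (.E 1)) (.E 1))) (.S 3 11 (.S 3 5 (.S 3 2 (.L 5 6 [4, 4, 4, 5, 6]
    [72, 60, 48, 36, 0, 0] [] 100000 21386 21386 1195183 4819 2410 86747 19277 14458 14458 27309)
    (.S 3 4 (.S 3 3 (.S 4 3 (.S 4 1 (.L 5 6 [4, 4, 4, 5, 6] [48, 36, 0, 0, 0, 0] [50, 40, 30, 18,
    0, 0] 100000 11112 11112 1229629 14815 0 55556 40741 55556 55556 18519) (.L 5 6 [4, 4, 4, 5, 6]
    [72, 60, 48, 36, 0, 0] [50, 40, 30, 18, 0, 0] 100000 21429 21429 1200002 7143 0 92857 14286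
    14286 21429 26190)) (.E 2)) (.L 6 7 [4, 4, 4, 4, 5] [72, 60, 48, 36, 0, 0] [66, 60, 50, 40, 28,
    0] 100000 30282 30282 1177466 25352 0 98592 36620 14085 50704 12676)) (.L 6 7 [4, 4, 4, 4, 5]
    [72, 60, 48, 36, 0, 0] [80, 78, 72, 62, 52, 40] 100000 125000 25000 300000 0 0 200000 200000 0
    0 0))) (.E 1)) (.E 1))) (.S 2 3 (.S 3 10 (.S 3 5 (.S 3 2 (.L 5 6 [4, 4, 4, 5, 6] [72, 60, 48,
    36, 0, 0] [] 100000 22301 22301 1208920 6573 6573 77934 45540 10798 44131 17840) (.L 5 6 [4, 4,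
    4, 5, 6] [72, 60, 48, 36, 0, 0] [] 100000 25000 25000 1175000 12500 0 75000 62500 43750 37500
    6250)) (.E 1)) (.E 1)) (.L 5 6 [4, 4, 4, 5, 6] [72, 60, 48, 36, 0, 0] [] 100000 23426 23426
    1163780 21260 0 93701 27559 25197 55118 14961))) (.S 2 2 (.S 2 1 (.S 2 0 (.L 5 6 [4, 4, 4, 5,
    6] [96, 88, 76, 64, 52, 0] [] 100000 50000 50000 850000 0 0 50000 100000 0 0 0) (.S 3 11 (.S 3
    5 (.S 3 2 (.L 5 6 [4, 4, 4, 5, 6] [96, 88, 76, 64, 52, 0] [] 100000 25000 25000 1100000 0 0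
    100000 0 25000 0 25000) (.S 3 4 (.L 5 6 [4, 4, 4, 5, 6] [96, 88, 76, 64, 52, 0] [] 100000 22917
    22917 1200000 0 25000 50000 50000 26667 8333 18333) (.L 5 6 [4, 4, 4, 5, 6] [96, 88, 76, 64,
    52, 0] [70, 68, 62, 52, 42, 30] 100000 100000 100000 800000 0 100000 100000 100000 0 0 0))) (.E
    2)) (.E 1))) (.L 5 6 [4, 4, 4, 5, 6] [96, 88, 76, 64, 52, 0] [] 100000 20340 20340 1199999 0 0
    69492 61017 59322 18644 10169)) (.L 5 6 [4, 4, 4, 5, 6] [96, 88, 76, 64, 52, 0] [] 100000 15790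
    15790 1181579 0 0 81579 36842 52632 47368 13158))

lemma s20_21_6_4_29 : BlkD.treeX d20_21_6_4 (BlkD.exF 6 4 x20_21_6_4) t20_21_6_4_29
    (BlkD.upd (BlkD.upd (BlkD.upd (fun _ => 0) 0 4) 0 5) 1 3)
    (BlkD.upd (BlkD.upd (BlkD.upd (BlkD.upd (BlkD.upd (BlkD.upd (fun _ => 21) 0 6) 2 4) 0 5) 1 16) 1 8) 1 4) = true := by
  decide +kernel

lemma n20_21_6_4_29 {n : ℕ} (hn : 6 ≤ n) : BlkD.NdX d20_21_6_4 (BlkD.exF 6 4 x20_21_6_4) n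
    (BlkD.upd (BlkD.upd (BlkD.upd (fun _ => 0) 0 4) 0 5) 1 3)
    (BlkD.upd (BlkD.upd (BlkD.upd (BlkD.upd (BlkD.upd (BlkD.upd (fun _ => 21) 0 6) 2 4) 0 5) 1 16) 1 8) 1 4) :=
  BlkD.NdX.tree s20_21_6_4_29 ok20_21_6_4 (by decide) hn

/-- a subtree -/
def t20_21_6_4_30 : BlkD.Tr :=
  .L 5 6 [4, 4, 4, 5, 6] [] [] 100000 29167 29167 1100000 0 0 100000 25000 4167 8333 23611

lemma s20_21_6_4_30 : BlkD.treeX d20_21_6_4 (BlkD.exF 6 4 x20_21_6_4) t20_21_6_4_30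
    (BlkD.upd (BlkD.upd (BlkD.upd (fun _ => 0) 0 4) 0 5) 1 5)
    (BlkD.upd (BlkD.upd (BlkD.upd (BlkD.upd (BlkD.upd (fun _ => 21) 0 6) 2 4) 0 5) 1 16) 1 8) = true := by
  decide +kernel

lemma n20_21_6_4_30 {n : ℕ} (hn : 6 ≤ n) : BlkD.NdX d20_21_6_4 (BlkD.exF 6 4 x20_21_6_4) n
    (BlkD.upd (BlkD.upd (BlkD.upd (fun _ => 0) 0 4) 0 5) 1 5)
    (BlkD.upd (BlkD.upd (BlkD.upd (BlkD.upd (BlkD.upd (fun _ => 21) 0 6) 2 4) 0 5) 1 16) 1 8) :=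
  BlkD.NdX.tree s20_21_6_4_30 ok20_21_6_4 (by decide) hn

/-- a subtree -/
def t20_21_6_4_31 : BlkD.Tr :=
  .E 0

lemma s20_21_6_4_31 : BlkD.treeX d20_21_6_4 (BlkD.exF 6 4 x20_21_6_4) t20_21_6_4_31
    (BlkD.upd (BlkD.upd (BlkD.upd (fun _ => 0) 0 4) 0 5) 1 9)
    (BlkD.upd (BlkD.upd (BlkD.upd (BlkD.upd (fun _ => 21) 0 6) 2 4) 0 5) 1 16) = true := by
  decide +kernel

lemma n20_21_6_4_31 {n : ℕ} (hn : 6 ≤ n) : BlkD.NdX d20_21_6_4 (BlkD.exF 6 4 x20_21_6_4) n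
    (BlkD.upd (BlkD.upd (BlkD.upd (fun _ => 0) 0 4) 0 5) 1 9)
    (BlkD.upd (BlkD.upd (BlkD.upd (BlkD.upd (fun _ => 21) 0 6) 2 4) 0 5) 1 16) :=
  BlkD.NdX.tree s20_21_6_4_31 ok20_21_6_4 (by decide) hn

/-- a subtree -/
def t20_21_6_4_32 : BlkD.Tr :=
  .E 0

lemma s20_21_6_4_32 : BlkD.treeX d20_21_6_4 (BlkD.exF 6 4 x20_21_6_4) t20_21_6_4_32
    (BlkD.upd (BlkD.upd (BlkD.upd (fun _ => 0) 0 4) 0 5) 1 17)
    (BlkD.upd (BlkD.upd (BlkD.upd (fun _ => 21) 0 6) 2 4) 0 5) = true := by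
  decide +kernel

lemma n20_21_6_4_32 {n : ℕ} (hn : 6 ≤ n) : BlkD.NdX d20_21_6_4 (BlkD.exF 6 4 x20_21_6_4) n
    (BlkD.upd (BlkD.upd (BlkD.upd (fun _ => 0) 0 4) 0 5) 1 17)
    (BlkD.upd (BlkD.upd (BlkD.upd (fun _ => 21) 0 6) 2 4) 0 5) :=
  BlkD.NdX.tree s20_21_6_4_32 ok20_21_6_4 (by decide) hn

/-- a subtree -/
def t20_21_6_4_33 : BlkD.Tr :=
  .S 1 15 (.S 1 7 (.S 1 3 (.S 1 1 (.L 5 6 [4, 4, 4, 5, 6] [] [] 100000 19231 19231 1200001 38462 0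
    100000 61538 61538 23077 15385) (.L 5 6 [4, 4, 4, 5, 6] [] [] 100000 20000 20000 1200000 0 0
    70000 60000 60000 20000 10000)) (.E 0)) (.E 0)) (.E 0)

lemma s20_21_6_4_33 : BlkD.treeX d20_21_6_4 (BlkD.exF 6 4 x20_21_6_4) t20_21_6_4_33
    (BlkD.upd (BlkD.upd (fun _ => 0) 0 4) 0 6)
    (BlkD.upd (BlkD.upd (fun _ => 21) 0 6) 2 4) = true := by
  decide +kernel

lemma n20_21_6_4_33 {n : ℕ} (hn : 6 ≤ n) : BlkD.NdX d20_21_6_4 (BlkD.exF 6 4 x20_21_6_4) n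
    (BlkD.upd (BlkD.upd (fun _ => 0) 0 4) 0 6)
    (BlkD.upd (BlkD.upd (fun _ => 21) 0 6) 2 4) :=
  BlkD.NdX.tree s20_21_6_4_33 ok20_21_6_4 (by decide) hn

/-- a subtree -/
def t20_21_6_4_34 : BlkD.Tr :=
  .E 1

lemma s20_21_6_4_34 : BlkD.treeX d20_21_6_4 (BlkD.exF 6 4 x20_21_6_4) t20_21_6_4_34
    (BlkD.upd (fun _ => 0) 2 5)
    (BlkD.upd (fun _ => 21) 0 6) = true := by
  decide +kernel

lemma n20_21_6_4_34 {n : ℕ} (hn : 6 ≤ n) : BlkD.NdX d20_21_6_4 (BlkD.exF 6 4 x20_21_6_4) n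
    (BlkD.upd (fun _ => 0) 2 5)
    (BlkD.upd (fun _ => 21) 0 6) :=
  BlkD.NdX.tree s20_21_6_4_34 ok20_21_6_4 (by decide) hn

/-- a subtree -/
def t20_21_6_4_35 : BlkD.Tr :=
  .E 0

lemma s20_21_6_4_35 : BlkD.treeX d20_21_6_4 (BlkD.exF 6 4 x20_21_6_4) t20_21_6_4_35
    (BlkD.upd (fun _ => 0) 0 7)
    (fun _ => 21) = true := by
  decide +kernel

lemma n20_21_6_4_35 {n : ℕ} (hn : 6 ≤ n) : BlkD.NdX d20_21_6_4 (BlkD.exF 6 4 x20_21_6_4) n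
    (BlkD.upd (fun _ => 0) 0 7)
    (fun _ => 21) :=
  BlkD.NdX.tree s20_21_6_4_35 ok20_21_6_4 (by decide) hn

end BlkC

end Pool.Agent.Lib.MP_f04ccf_co
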