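import Pool.Agent.Lib.MP_f04ccf_co.M.BlkX20_21_6_4d
import Pool.Agent.Lib.MP_f04ccf_co.M.BlkX20_21_6_4p1
import Pool.Agent.Lib.MP_f04ccf_co.M.BlkX20_21_6_4p2
import Pool.Agent.Lib.MP_f04ccf_co.M.BlkX20_21_6_4e1

/-!
MP_f04ccf_co, block certificate with exceptions, `R = 20`, `H = 21`, the pair `(6, 4)` (data of helper99 / helper13,
generated by helper8, genx.py): the parts together.
-/

set_option autoImplicit false
set_option maxRecDepth 100000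

namespace Pool.Agent.Lib.MP_f04ccf_co

namespace BlkC

lemma x20_21_6_4_6 : NoNd ((20 : ℕ) : ℤ) ((21 : ℕ) : ℤ) 6 6 4 fun x y z w _ _ =>
    BlkD.exF 6 4 x20_21_6_4 x y z w := by
  refine NoNd.of_E (by norm_num) (by norm_num) fun e he => ?_
  simp only [x20_21_6_4, List.mem_cons, List.not_mem_nil, or_false] at he
  rcases he with rfl | rfl | rfl | rfl | rfl | rfl | rfl | rfl
  · exact e20_21_6_4_6_0
  · exact e20_21_6_4_6_1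
  · exact e20_21_6_4_6_2
  · exact e20_21_6_4_6_3
  · exact e20_21_6_4_6_4
  · exact e20_21_6_4_6_5
  · exact e20_21_6_4_6_6
  · exact e20_21_6_4_6_7

lemma x20_21_6_4_7 : NoNd ((20 : ℕ) : ℤ) ((21 : ℕ) : ℤ) 7 6 4 fun x y z w _ _ =>
    BlkD.exF 6 4 x20_21_6_4 x y z w := by
  refine NoNd.of_E (by norm_num) (by norm_num) fun e he => ?_
  simp only [x20_21_6_4, List.mem_cons, List.not_mem_nil, or_false] at he
  rcases he with rfl | rfl | rfl | rfl | rfl | rfl | rfl | rfl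
  · exact e20_21_6_4_7_0
  · exact e20_21_6_4_7_1
  · exact e20_21_6_4_7_2
  · exact e20_21_6_4_7_3
  · exact e20_21_6_4_7_4
  · exact e20_21_6_4_7_5
  · exact e20_21_6_4_7_6
  · exact e20_21_6_4_7_7

lemma x20_21_6_4_8 : NoNd ((20 : ℕ) : ℤ) ((21 : ℕ) : ℤ) 8 6 4 fun x y z w _ _ =>
    BlkD.exF 6 4 x20_21_6_4 x y z w := by
  refine NoNd.of_E (by norm_num) (by norm_num) fun e he => ?_
  simp only [x20_21_6_4, List.mem_cons, List.not_mem_nil, or_false] at he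
  rcases he with rfl | rfl | rfl | rfl | rfl | rfl | rfl | rfl
  · exact e20_21_6_4_8_0
  · exact e20_21_6_4_8_1
  · exact e20_21_6_4_8_2
  · exact e20_21_6_4_8_3
  · exact e20_21_6_4_8_4
  · exact e20_21_6_4_8_5
  · exact e20_21_6_4_8_6
  · exact e20_21_6_4_8_7

lemma x20_21_6_4_9 : NoNd ((20 : ℕ) : ℤ) ((21 : ℕ) : ℤ) 9 6 4 fun x y z w _ _ =>
    BlkD.exF 6 4 x20_21_6_4 x y z w := by
  refine NoNd.of_E (by norm_num) (by norm_num) fun e he => ?_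
  simp only [x20_21_6_4, List.mem_cons, List.not_mem_nil, or_false] at he
  rcases he with rfl | rfl | rfl | rfl | rfl | rfl | rfl | rfl
  · exact e20_21_6_4_9_0
  · exact e20_21_6_4_9_1
  · exact e20_21_6_4_9_2
  · exact e20_21_6_4_9_3
  · exact e20_21_6_4_9_4
  · exact e20_21_6_4_9_5
  · exact e20_21_6_4_9_6
  · exact e20_21_6_4_9_7

lemma x20_21_6_4_10 : NoNd ((20 : ℕ) : ℤ) ((21 : ℕ) : ℤ) 10 6 4 fun x y z w _ _ =>
    BlkD.exF 6 4 x20_21_6_4 x y z w := by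
  refine NoNd.of_E (by norm_num) (by norm_num) fun e he => ?_
  simp only [x20_21_6_4, List.mem_cons, List.not_mem_nil, or_false] at he
  rcases he with rfl | rfl | rfl | rfl | rfl | rfl | rfl | rfl
  · exact e20_21_6_4_10_0
  · exact e20_21_6_4_10_1
  · exact e20_21_6_4_10_2
  · exact e20_21_6_4_10_3
  · exact e20_21_6_4_10_4
  · exact e20_21_6_4_10_5
  · exact e20_21_6_4_10_6
  · exact e20_21_6_4_10_7

lemma r20_21_6_4 {n : ℕ} (hn : 6 ≤ n) : BlkD.NdX d20_21_6_4 (BlkD.exF 6 4 x20_21_6_4) n (fun _ => 0) (fun _ => 21) :=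
  (BlkD.NdX.sp 0 6
  (BlkD.NdX.sp 2 4
  (BlkD.NdX.sp 0 3
  (BlkD.NdX.sp 0 1
  (n20_21_6_4_0 hn)
  (BlkD.NdX.sp 0 2
  (BlkD.NdX.sp 1 19
  (BlkD.NdX.sp 1 9
  (BlkD.NdX.sp 1 4
  (n20_21_6_4_1 hn)
  (BlkD.NdX.sp 1 7
  (BlkD.NdX.sp 1 6
  (BlkD.NdX.sp 1 5
  (n20_21_6_4_2 hn)
  (n20_21_6_4_3 hn))
  (n20_21_6_4_4 hn))
  (n20_21_6_4_5 hn)))
  (n20_21_6_4_6 hn))
  (n20_21_6_4_7 hn))
  (BlkD.NdX.sp 1 18
  (BlkD.NdX.sp 1 9
  (BlkD.NdX.sp 1 4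
  (BlkD.NdX.sp 1 2
  (n20_21_6_4_8 hn)
  (BlkD.NdX.sp 1 3
  (n20_21_6_4_9 hn)
  (n20_21_6_4_10 hn)))
  (BlkD.NdX.sp 1 7
  (BlkD.NdX.sp 1 6
  (BlkD.NdX.sp 1 5
  (BlkD.NdX.sp 2 2
  (n20_21_6_4_11 hn)
  (n20_21_6_4_12 hn))
  (BlkD.NdX.sp 2 2
  (n20_21_6_4_13 hn)
  (n20_21_6_4_14 hn)))
  (n20_21_6_4_15 hn))
  (n20_21_6_4_16 hn)))
  (n20_21_6_4_17 hn))
  (n20_21_6_4_18 hn))))
  (BlkD.NdX.sp 0 5
  (BlkD.NdX.sp 0 4
  (BlkD.NdX.sp 1 17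
  (BlkD.NdX.sp 1 8
  (BlkD.NdX.sp 1 4
  (BlkD.NdX.sp 1 2
  (n20_21_6_4_19 hn)
  (BlkD.NdX.sp 1 3
  (n20_21_6_4_20 hn)
  (BlkD.NdX.sp 2 2
  (n20_21_6_4_21 hn)
  (n20_21_6_4_22 hn))))
  (BlkD.NdX.sp 1 6
  (BlkD.NdX.sp 1 5
  (n20_21_6_4_23 hn)
  (n20_21_6_4_24 hn))
  (n20_21_6_4_25 hn)))
  (n20_21_6_4_26 hn))
  (n20_21_6_4_27 hn))
  (BlkD.NdX.sp 1 16
  (BlkD.NdX.sp 1 8
  (BlkD.NdX.sp 1 4
  (BlkD.NdX.sp 1 2
  (n20_21_6_4_28 hn)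
  (n20_21_6_4_29 hn))
  (n20_21_6_4_30 hn))
  (n20_21_6_4_31 hn))
  (n20_21_6_4_32 hn)))
  (n20_21_6_4_33 hn)))
  (n20_21_6_4_34 hn))
  (n20_21_6_4_35 hn))

/-- **`R = 20`, `H = 21`, the pair `(6, 4)`** -/
theorem pr20_21_6_4 {n : ℕ} (hn : 6 ≤ n) : NoPr ((20 : ℕ) : ℤ) ((21 : ℕ) : ℤ) n 6 4 := by
  by_cases h : n < 11
  · interval_cases n
    · exact BlkD.NdX.pr (r20_21_6_4 (by norm_num)) (by decide) (by decide) x20_21_6_4_6 rfl rfl rfl rfl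
    · exact BlkD.NdX.pr (r20_21_6_4 (by norm_num)) (by decide) (by decide) x20_21_6_4_7 rfl rfl rfl rfl
    · exact BlkD.NdX.pr (r20_21_6_4 (by norm_num)) (by decide) (by decide) x20_21_6_4_8 rfl rfl rfl rfl
    · exact BlkD.NdX.pr (r20_21_6_4 (by norm_num)) (by decide) (by decide) x20_21_6_4_9 rfl rfl rfl rfl
    · exact BlkD.NdX.pr (r20_21_6_4 (by norm_num)) (by decide) (by decide) x20_21_6_4_10 rfl rfl rfl rfl
  · exact NoPr.big (by omega) (by omega)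

end BlkC

end Pool.Agent.Lib.MP_f04ccf_co
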