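import Pool.Agent.Lib.MP_f04ccf_co.M.BlkX20_21_4_4d

/-!
MP_f04ccf_co, block certificate with exceptions, `R = 20`, `H = 21`, the pair `(4, 4)` (data of helper99 / helper13,
generated by helper8, genx.py): the exceptions, part 2 of 4.
-/

set_option autoImplicit false
set_option maxRecDepth 100000

namespace Pool.Agent.Lib.MP_f04ccf_co

namespace BlkC

lemma e20_21_4_4_6_20 : EnPr.lall (fun l => EnPr.one 20 6 (6, 5, 5, 4) (4 :: 4 :: l))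
    (EnPr.prof (6 - 2) 4 (21 - (6 + 1) - 4 - 4)) = true := by
  decide +kernel

lemma e20_21_4_4_6_21 : EnPr.lall (fun l => EnPr.one 20 6 (6, 5, 6, 3) (4 :: 4 :: l))
    (EnPr.prof (6 - 2) 4 (21 - (6 + 1) - 4 - 4)) = true := by
  decide +kernel

lemma g20_21_4_4_6_22_0 : EnPr.one 20 6 (6, 5, 6, 4) [4, 4, 0, 0, 0, 0] = true := by
  decide +kernel

lemma g20_21_4_4_6_22_1 : EnPr.one 20 6 (6, 5, 6, 4) [4, 4, 1, 0, 0, 0] = true := by
  decide +kernel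

lemma g20_21_4_4_6_22_2 : EnPr.one 20 6 (6, 5, 6, 4) [4, 4, 1, 1, 0, 0] = true := by
  decide +kernel

lemma g20_21_4_4_6_22_3 : EnPr.one 20 6 (6, 5, 6, 4) [4, 4, 1, 1, 1, 0] = true := by
  decide +kernel

lemma g20_21_4_4_6_22_4 : EnPr.one 20 6 (6, 5, 6, 4) [4, 4, 1, 1, 1, 1] = true := by
  decide +kernel

lemma g20_21_4_4_6_22_5 : EnPr.one 20 6 (6, 5, 6, 4) [4, 4, 2, 0, 0, 0] = true := by
  decide +kernel

lemma g20_21_4_4_6_22_6 : EnPr.one 20 6 (6, 5, 6, 4) [4, 4, 2, 1, 0, 0] = true := by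
  decide +kernel

lemma g20_21_4_4_6_22_7 : EnPr.one 20 6 (6, 5, 6, 4) [4, 4, 2, 1, 1, 0] = true := by
  decide +kernel

lemma g20_21_4_4_6_22_8 : EnPr.one 20 6 (6, 5, 6, 4) [4, 4, 2, 1, 1, 1] = true := by
  decide +kernel

lemma g20_21_4_4_6_22_9 : EnPr.one 20 6 (6, 5, 6, 4) [4, 4, 2, 2, 0, 0] = true := by
  decide +kernel

lemma g20_21_4_4_6_22_10 : EnPr.one 20 6 (6, 5, 6, 4) [4, 4, 2, 2, 1, 0] = true := by
  decide +kernel

lemma g20_21_4_4_6_22_11 : EnPr.one 20 6 (6, 5, 6, 4) [4, 4, 2, 2, 1, 1] = true := by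
  decide +kernel

lemma g20_21_4_4_6_22_12 : EnPr.one 20 6 (6, 5, 6, 4) [4, 4, 2, 2, 2, 0] = true := by
  decide +kernel

lemma g20_21_4_4_6_22_13 : EnPr.one 20 6 (6, 5, 6, 4) [4, 4, 3, 0, 0, 0] = true := by
  decide +kernel

lemma g20_21_4_4_6_22_14 : EnPr.one 20 6 (6, 5, 6, 4) [4, 4, 3, 1, 0, 0] = true := by
  decide +kernel

lemma g20_21_4_4_6_22_15 : EnPr.one 20 6 (6, 5, 6, 4) [4, 4, 3, 1, 1, 0] = true := by
  decide +kernel

lemma g20_21_4_4_6_22_16 : EnPr.one 20 6 (6, 5, 6, 4) [4, 4, 3, 1, 1, 1] = true := by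
  decide +kernel

lemma g20_21_4_4_6_22_17 : EnPr.one 20 6 (6, 5, 6, 4) [4, 4, 3, 2, 0, 0] = true := by
  decide +kernel

lemma g20_21_4_4_6_22_18 : EnPr.one 20 6 (6, 5, 6, 4) [4, 4, 3, 2, 1, 0] = true := by
  decide +kernel

lemma g20_21_4_4_6_22_19 : EnPr.one 20 6 (6, 5, 6, 4) [4, 4, 3, 3, 0, 0] = true := by
  decide +kernel

lemma g20_21_4_4_6_22_20 : EnPr.one 20 6 (6, 5, 6, 4) [4, 4, 4, 0, 0, 0] = true := by
  decide +kernel

lemma g20_21_4_4_6_22_21 : EnPr.one 20 6 (6, 5, 6, 4) [4, 4, 4, 1, 0, 0] = true := by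
  decide +kernel

lemma g20_21_4_4_6_22_22 : EnPr.one 20 6 (6, 5, 6, 4) [4, 4, 4, 1, 1, 0] = true := by
  decide +kernel

lemma g20_21_4_4_6_22_23 : EnPr.one 20 6 (6, 5, 6, 4) [4, 4, 4, 2, 0, 0] = true := by
  decide +kernel

lemma e20_21_4_4_6_22 : EnPr.lall (fun l => EnPr.one 20 6 (6, 5, 6, 4) (4 :: 4 :: l))
    (EnPr.prof (6 - 2) 4 (21 - (6 + 1) - 4 - 4)) = true := by
  rw [EnPr.lall_iff]
  intro l hl
  rw [show EnPr.prof (6 - 2) 4 (21 - (6 + 1) - 4 - 4) =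
      [[0, 0, 0, 0],
      [1, 0, 0, 0],
      [1, 1, 0, 0],
      [1, 1, 1, 0],
      [1, 1, 1, 1],
      [2, 0, 0, 0],
      [2, 1, 0, 0],
      [2, 1, 1, 0],
      [2, 1, 1, 1],
      [2, 2, 0, 0],
      [2, 2, 1, 0],
      [2, 2, 1, 1],
      [2, 2, 2, 0],
      [3, 0, 0, 0],
      [3, 1, 0, 0],
      [3, 1, 1, 0],
      [3, 1, 1, 1],
      [3, 2, 0, 0],
      [3, 2, 1, 0],
      [3, 3, 0, 0],
      [4, 0, 0, 0],
      [4, 1, 0, 0],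
      [4, 1, 1, 0],
      [4, 2, 0, 0]] by
    decide +kernel] at hl
  simp only [List.mem_cons, List.not_mem_nil, or_false] at hl
  rcases hl with rfl | rfl | rfl | rfl | rfl | rfl | rfl | rfl | rfl | rfl | rfl | rfl | rfl | rfl | rfl | rfl | rfl | rfl | rfl | rfl | rfl | rfl | rfl | rfl
  · exact g20_21_4_4_6_22_0
  · exact g20_21_4_4_6_22_1
  · exact g20_21_4_4_6_22_2
  · exact g20_21_4_4_6_22_3
  · exact g20_21_4_4_6_22_4
  · exact g20_21_4_4_6_22_5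
  · exact g20_21_4_4_6_22_6
  · exact g20_21_4_4_6_22_7
  · exact g20_21_4_4_6_22_8
  · exact g20_21_4_4_6_22_9
  · exact g20_21_4_4_6_22_10
  · exact g20_21_4_4_6_22_11
  · exact g20_21_4_4_6_22_12
  · exact g20_21_4_4_6_22_13
  · exact g20_21_4_4_6_22_14
  · exact g20_21_4_4_6_22_15
  · exact g20_21_4_4_6_22_16
  · exact g20_21_4_4_6_22_17
  · exact g20_21_4_4_6_22_18
  · exact g20_21_4_4_6_22_19
  · exact g20_21_4_4_6_22_20
  · exact g20_21_4_4_6_22_21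
  · exact g20_21_4_4_6_22_22
  · exact g20_21_4_4_6_22_23

lemma g20_21_4_4_6_23_0 : EnPr.one 20 6 (6, 5, 6, 5) [4, 4, 0, 0, 0, 0] = true := by
  decide +kernel

lemma g20_21_4_4_6_23_1 : EnPr.one 20 6 (6, 5, 6, 5) [4, 4, 1, 0, 0, 0] = true := by
  decide +kernel

lemma g20_21_4_4_6_23_2 : EnPr.one 20 6 (6, 5, 6, 5) [4, 4, 1, 1, 0, 0] = true := by
  decide +kernel

lemma g20_21_4_4_6_23_3 : EnPr.one 20 6 (6, 5, 6, 5) [4, 4, 1, 1, 1, 0] = true := by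
  decide +kernel

lemma g20_21_4_4_6_23_4 : EnPr.one 20 6 (6, 5, 6, 5) [4, 4, 1, 1, 1, 1] = true := by
  decide +kernel

lemma g20_21_4_4_6_23_5 : EnPr.one 20 6 (6, 5, 6, 5) [4, 4, 2, 0, 0, 0] = true := by
  decide +kernel

lemma g20_21_4_4_6_23_6 : EnPr.one 20 6 (6, 5, 6, 5) [4, 4, 2, 1, 0, 0] = true := by
  decide +kernel

lemma g20_21_4_4_6_23_7 : EnPr.one 20 6 (6, 5, 6, 5) [4, 4, 2, 1, 1, 0] = true := by
  decide +kernel

lemma g20_21_4_4_6_23_8 : EnPr.one 20 6 (6, 5, 6, 5) [4, 4, 2, 1, 1, 1] = true := by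
  decide +kernel

lemma g20_21_4_4_6_23_9 : EnPr.one 20 6 (6, 5, 6, 5) [4, 4, 2, 2, 0, 0] = true := by
  decide +kernel

lemma g20_21_4_4_6_23_10 : EnPr.one 20 6 (6, 5, 6, 5) [4, 4, 2, 2, 1, 0] = true := by
  decide +kernel

lemma g20_21_4_4_6_23_11 : EnPr.one 20 6 (6, 5, 6, 5) [4, 4, 2, 2, 1, 1] = true := by
  decide +kernel

lemma g20_21_4_4_6_23_12 : EnPr.one 20 6 (6, 5, 6, 5) [4, 4, 2, 2, 2, 0] = true := by
  decide +kernel

lemma g20_21_4_4_6_23_13 : EnPr.one 20 6 (6, 5, 6, 5) [4, 4, 3, 0, 0, 0] = true := by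
  decide +kernel

lemma g20_21_4_4_6_23_14 : EnPr.one 20 6 (6, 5, 6, 5) [4, 4, 3, 1, 0, 0] = true := by
  decide +kernel

lemma g20_21_4_4_6_23_15 : EnPr.one 20 6 (6, 5, 6, 5) [4, 4, 3, 1, 1, 0] = true := by
  decide +kernel

lemma g20_21_4_4_6_23_16 : EnPr.one 20 6 (6, 5, 6, 5) [4, 4, 3, 1, 1, 1] = true := by
  decide +kernel

lemma g20_21_4_4_6_23_17 : EnPr.one 20 6 (6, 5, 6, 5) [4, 4, 3, 2, 0, 0] = true := by
  decide +kernel

lemma g20_21_4_4_6_23_18 : EnPr.one 20 6 (6, 5, 6, 5) [4, 4, 3, 2, 1, 0] = true := by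
  decide +kernel

lemma g20_21_4_4_6_23_19 : EnPr.one 20 6 (6, 5, 6, 5) [4, 4, 3, 3, 0, 0] = true := by
  decide +kernel

lemma g20_21_4_4_6_23_20 : EnPr.one 20 6 (6, 5, 6, 5) [4, 4, 4, 0, 0, 0] = true := by
  decide +kernel

lemma g20_21_4_4_6_23_21 : EnPr.one 20 6 (6, 5, 6, 5) [4, 4, 4, 1, 0, 0] = true := by
  decide +kernel

lemma g20_21_4_4_6_23_22 : EnPr.one 20 6 (6, 5, 6, 5) [4, 4, 4, 1, 1, 0] = true := by
  decide +kernel

lemma g20_21_4_4_6_23_23 : EnPr.one 20 6 (6, 5, 6, 5) [4, 4, 4, 2, 0, 0] = true := by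
  decide +kernel

lemma e20_21_4_4_6_23 : EnPr.lall (fun l => EnPr.one 20 6 (6, 5, 6, 5) (4 :: 4 :: l))
    (EnPr.prof (6 - 2) 4 (21 - (6 + 1) - 4 - 4)) = true := by
  rw [EnPr.lall_iff]
  intro l hl
  rw [show EnPr.prof (6 - 2) 4 (21 - (6 + 1) - 4 - 4) =
      [[0, 0, 0, 0],
      [1, 0, 0, 0],
      [1, 1, 0, 0],
      [1, 1, 1, 0],
      [1, 1, 1, 1],
      [2, 0, 0, 0],
      [2, 1, 0, 0],
      [2, 1, 1, 0],
      [2, 1, 1, 1],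
      [2, 2, 0, 0],
      [2, 2, 1, 0],
      [2, 2, 1, 1],
      [2, 2, 2, 0],
      [3, 0, 0, 0],
      [3, 1, 0, 0],
      [3, 1, 1, 0],
      [3, 1, 1, 1],
      [3, 2, 0, 0],
      [3, 2, 1, 0],
      [3, 3, 0, 0],
      [4, 0, 0, 0],
      [4, 1, 0, 0],
      [4, 1, 1, 0],
      [4, 2, 0, 0]] by
    decide +kernel] at hl
  simp only [List.mem_cons, List.not_mem_nil, or_false] at hl
  rcases hl with rfl | rfl | rfl | rfl | rfl | rfl | rfl | rfl | rfl | rfl | rfl | rfl | rfl | rfl | rfl | rfl | rfl | rfl | rfl | rfl | rfl | rfl | rfl | rfl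
  · exact g20_21_4_4_6_23_0
  · exact g20_21_4_4_6_23_1
  · exact g20_21_4_4_6_23_2
  · exact g20_21_4_4_6_23_3
  · exact g20_21_4_4_6_23_4
  · exact g20_21_4_4_6_23_5
  · exact g20_21_4_4_6_23_6
  · exact g20_21_4_4_6_23_7
  · exact g20_21_4_4_6_23_8
  · exact g20_21_4_4_6_23_9
  · exact g20_21_4_4_6_23_10
  · exact g20_21_4_4_6_23_11
  · exact g20_21_4_4_6_23_12
  · exact g20_21_4_4_6_23_13
  · exact g20_21_4_4_6_23_14
  · exact g20_21_4_4_6_23_15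
  · exact g20_21_4_4_6_23_16
  · exact g20_21_4_4_6_23_17
  · exact g20_21_4_4_6_23_18
  · exact g20_21_4_4_6_23_19
  · exact g20_21_4_4_6_23_20
  · exact g20_21_4_4_6_23_21
  · exact g20_21_4_4_6_23_22
  · exact g20_21_4_4_6_23_23

lemma e20_21_4_4_6_24 : EnPr.lall (fun l => EnPr.one 20 6 (7, 6, 5, 2) (4 :: 4 :: l))
    (EnPr.prof (6 - 2) 4 (21 - (6 + 1) - 4 - 4)) = true := by
  decide +kernel

lemma e20_21_4_4_6_25 : EnPr.lall (fun l => EnPr.one 20 6 (7, 6, 5, 3) (4 :: 4 :: l))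
    (EnPr.prof (6 - 2) 4 (21 - (6 + 1) - 4 - 4)) = true := by
  decide +kernel

lemma e20_21_4_4_6_26 : EnPr.lall (fun l => EnPr.one 20 6 (7, 6, 5, 4) (4 :: 4 :: l))
    (EnPr.prof (6 - 2) 4 (21 - (6 + 1) - 4 - 4)) = true := by
  decide +kernel

lemma e20_21_4_4_7_0 : EnPr.lall (fun l => EnPr.one 20 7 (5, 2, 5, 2) (4 :: 4 :: l))
    (EnPr.prof (7 - 2) 4 (21 - (7 + 1) - 4 - 4)) = true := by
  decide +kernel

lemma e20_21_4_4_7_1 : EnPr.lall (fun l => EnPr.one 20 7 (5, 3, 5, 2) (4 :: 4 :: l))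
    (EnPr.prof (7 - 2) 4 (21 - (7 + 1) - 4 - 4)) = true := by
  decide +kernel

lemma e20_21_4_4_7_2 : EnPr.lall (fun l => EnPr.one 20 7 (5, 3, 5, 3) (4 :: 4 :: l))
    (EnPr.prof (7 - 2) 4 (21 - (7 + 1) - 4 - 4)) = true := by
  decide +kernel

lemma e20_21_4_4_7_3 : EnPr.lall (fun l => EnPr.one 20 7 (5, 4, 5, 2) (4 :: 4 :: l))
    (EnPr.prof (7 - 2) 4 (21 - (7 + 1) - 4 - 4)) = true := by
  decide +kernel

lemma e20_21_4_4_7_4 : EnPr.lall (fun l => EnPr.one 20 7 (5, 4, 5, 3) (4 :: 4 :: l))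
    (EnPr.prof (7 - 2) 4 (21 - (7 + 1) - 4 - 4)) = true := by
  decide +kernel

lemma e20_21_4_4_7_5 : EnPr.lall (fun l => EnPr.one 20 7 (5, 4, 5, 4) (4 :: 4 :: l))
    (EnPr.prof (7 - 2) 4 (21 - (7 + 1) - 4 - 4)) = true := by
  decide +kernel

lemma e20_21_4_4_7_6 : EnPr.lall (fun l => EnPr.one 20 7 (6, 3, 5, 1) (4 :: 4 :: l))
    (EnPr.prof (7 - 2) 4 (21 - (7 + 1) - 4 - 4)) = true := by
  decide +kernel

lemma e20_21_4_4_7_7 : EnPr.lall (fun l => EnPr.one 20 7 (6, 3, 5, 2) (4 :: 4 :: l))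
    (EnPr.prof (7 - 2) 4 (21 - (7 + 1) - 4 - 4)) = true := by
  decide +kernel

lemma e20_21_4_4_7_8 : EnPr.lall (fun l => EnPr.one 20 7 (6, 3, 5, 3) (4 :: 4 :: l))
    (EnPr.prof (7 - 2) 4 (21 - (7 + 1) - 4 - 4)) = true := by
  decide +kernel

lemma e20_21_4_4_7_9 : EnPr.lall (fun l => EnPr.one 20 7 (6, 3, 5, 4) (4 :: 4 :: l))
    (EnPr.prof (7 - 2) 4 (21 - (7 + 1) - 4 - 4)) = true := by
  decide +kernel

lemma e20_21_4_4_7_10 : EnPr.lall (fun l => EnPr.one 20 7 (6, 3, 6, 3) (4 :: 4 :: l))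
    (EnPr.prof (7 - 2) 4 (21 - (7 + 1) - 4 - 4)) = true := by
  decide +kernel

end BlkC

end Pool.Agent.Lib.MP_f04ccf_co
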