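import Pool.Agent.Lib.MP_f04ccf_co.M.BlkX20_21_4_4d

/-!
MP_f04ccf_co, block certificate with exceptions, `R = 20`, `H = 21`, the pair `(4, 4)` (data of helper99 / helper13,
generated by helper8, genx.py): the exceptions, part 3 of 4.
-/

set_option autoImplicit false
set_option maxRecDepth 100000

namespace Pool.Agent.Lib.MP_f04ccf_co

namespace BlkC

lemma e20_21_4_4_7_11 : EnPr.lall (fun l => EnPr.one 20 7 (6, 4, 5, 1) (4 :: 4 :: l))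
    (EnPr.prof (7 - 2) 4 (21 - (7 + 1) - 4 - 4)) = true := by
  decide +kernel

lemma e20_21_4_4_7_12 : EnPr.lall (fun l => EnPr.one 20 7 (6, 4, 5, 2) (4 :: 4 :: l))
    (EnPr.prof (7 - 2) 4 (21 - (7 + 1) - 4 - 4)) = true := by
  decide +kernel

lemma e20_21_4_4_7_13 : EnPr.lall (fun l => EnPr.one 20 7 (6, 4, 5, 3) (4 :: 4 :: l))
    (EnPr.prof (7 - 2) 4 (21 - (7 + 1) - 4 - 4)) = true := by
  decide +kernel

lemma e20_21_4_4_7_14 : EnPr.lall (fun l => EnPr.one 20 7 (6, 4, 5, 4) (4 :: 4 :: l))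
    (EnPr.prof (7 - 2) 4 (21 - (7 + 1) - 4 - 4)) = true := by
  decide +kernel

lemma e20_21_4_4_7_15 : EnPr.lall (fun l => EnPr.one 20 7 (6, 4, 6, 3) (4 :: 4 :: l))
    (EnPr.prof (7 - 2) 4 (21 - (7 + 1) - 4 - 4)) = true := by
  decide +kernel

lemma e20_21_4_4_7_16 : EnPr.lall (fun l => EnPr.one 20 7 (6, 4, 6, 4) (4 :: 4 :: l))
    (EnPr.prof (7 - 2) 4 (21 - (7 + 1) - 4 - 4)) = true := by
  decide +kernel

lemma e20_21_4_4_7_17 : EnPr.lall (fun l => EnPr.one 20 7 (6, 5, 5, 1) (4 :: 4 :: l))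
    (EnPr.prof (7 - 2) 4 (21 - (7 + 1) - 4 - 4)) = true := by
  decide +kernel

lemma e20_21_4_4_7_18 : EnPr.lall (fun l => EnPr.one 20 7 (6, 5, 5, 2) (4 :: 4 :: l))
    (EnPr.prof (7 - 2) 4 (21 - (7 + 1) - 4 - 4)) = true := by
  decide +kernel

lemma e20_21_4_4_7_19 : EnPr.lall (fun l => EnPr.one 20 7 (6, 5, 5, 3) (4 :: 4 :: l))
    (EnPr.prof (7 - 2) 4 (21 - (7 + 1) - 4 - 4)) = true := by
  decide +kernel

lemma e20_21_4_4_7_20 : EnPr.lall (fun l => EnPr.one 20 7 (6, 5, 5, 4) (4 :: 4 :: l))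
    (EnPr.prof (7 - 2) 4 (21 - (7 + 1) - 4 - 4)) = true := by
  decide +kernel

lemma e20_21_4_4_7_21 : EnPr.lall (fun l => EnPr.one 20 7 (6, 5, 6, 3) (4 :: 4 :: l))
    (EnPr.prof (7 - 2) 4 (21 - (7 + 1) - 4 - 4)) = true := by
  decide +kernel

lemma e20_21_4_4_7_22 : EnPr.lall (fun l => EnPr.one 20 7 (6, 5, 6, 4) (4 :: 4 :: l))
    (EnPr.prof (7 - 2) 4 (21 - (7 + 1) - 4 - 4)) = true := by
  decide +kernel

lemma e20_21_4_4_7_23 : EnPr.lall (fun l => EnPr.one 20 7 (6, 5, 6, 5) (4 :: 4 :: l))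
    (EnPr.prof (7 - 2) 4 (21 - (7 + 1) - 4 - 4)) = true := by
  decide +kernel

lemma e20_21_4_4_7_24 : EnPr.lall (fun l => EnPr.one 20 7 (7, 6, 5, 2) (4 :: 4 :: l))
    (EnPr.prof (7 - 2) 4 (21 - (7 + 1) - 4 - 4)) = true := by
  decide +kernel

lemma e20_21_4_4_7_25 : EnPr.lall (fun l => EnPr.one 20 7 (7, 6, 5, 3) (4 :: 4 :: l))
    (EnPr.prof (7 - 2) 4 (21 - (7 + 1) - 4 - 4)) = true := by
  decide +kernel

lemma e20_21_4_4_7_26 : EnPr.lall (fun l => EnPr.one 20 7 (7, 6, 5, 4) (4 :: 4 :: l))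
    (EnPr.prof (7 - 2) 4 (21 - (7 + 1) - 4 - 4)) = true := by
  decide +kernel

lemma e20_21_4_4_8_0 : EnPr.lall (fun l => EnPr.one 20 8 (5, 2, 5, 2) (4 :: 4 :: l))
    (EnPr.prof (8 - 2) 4 (21 - (8 + 1) - 4 - 4)) = true := by
  decide +kernel

lemma e20_21_4_4_8_1 : EnPr.lall (fun l => EnPr.one 20 8 (5, 3, 5, 2) (4 :: 4 :: l))
    (EnPr.prof (8 - 2) 4 (21 - (8 + 1) - 4 - 4)) = true := by
  decide +kernel

lemma e20_21_4_4_8_2 : EnPr.lall (fun l => EnPr.one 20 8 (5, 3, 5, 3) (4 :: 4 :: l))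
    (EnPr.prof (8 - 2) 4 (21 - (8 + 1) - 4 - 4)) = true := by
  decide +kernel

lemma e20_21_4_4_8_3 : EnPr.lall (fun l => EnPr.one 20 8 (5, 4, 5, 2) (4 :: 4 :: l))
    (EnPr.prof (8 - 2) 4 (21 - (8 + 1) - 4 - 4)) = true := by
  decide +kernel

lemma e20_21_4_4_8_4 : EnPr.lall (fun l => EnPr.one 20 8 (5, 4, 5, 3) (4 :: 4 :: l))
    (EnPr.prof (8 - 2) 4 (21 - (8 + 1) - 4 - 4)) = true := by
  decide +kernel

lemma e20_21_4_4_8_5 : EnPr.lall (fun l => EnPr.one 20 8 (5, 4, 5, 4) (4 :: 4 :: l))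
    (EnPr.prof (8 - 2) 4 (21 - (8 + 1) - 4 - 4)) = true := by
  decide +kernel

lemma e20_21_4_4_8_6 : EnPr.lall (fun l => EnPr.one 20 8 (6, 3, 5, 1) (4 :: 4 :: l))
    (EnPr.prof (8 - 2) 4 (21 - (8 + 1) - 4 - 4)) = true := by
  decide +kernel

lemma e20_21_4_4_8_7 : EnPr.lall (fun l => EnPr.one 20 8 (6, 3, 5, 2) (4 :: 4 :: l))
    (EnPr.prof (8 - 2) 4 (21 - (8 + 1) - 4 - 4)) = true := by
  decide +kernel

lemma e20_21_4_4_8_8 : EnPr.lall (fun l => EnPr.one 20 8 (6, 3, 5, 3) (4 :: 4 :: l))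
    (EnPr.prof (8 - 2) 4 (21 - (8 + 1) - 4 - 4)) = true := by
  decide +kernel

lemma e20_21_4_4_8_9 : EnPr.lall (fun l => EnPr.one 20 8 (6, 3, 5, 4) (4 :: 4 :: l))
    (EnPr.prof (8 - 2) 4 (21 - (8 + 1) - 4 - 4)) = true := by
  decide +kernel

lemma e20_21_4_4_8_10 : EnPr.lall (fun l => EnPr.one 20 8 (6, 3, 6, 3) (4 :: 4 :: l))
    (EnPr.prof (8 - 2) 4 (21 - (8 + 1) - 4 - 4)) = true := by
  decide +kernel

lemma e20_21_4_4_8_11 : EnPr.lall (fun l => EnPr.one 20 8 (6, 4, 5, 1) (4 :: 4 :: l))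
    (EnPr.prof (8 - 2) 4 (21 - (8 + 1) - 4 - 4)) = true := by
  decide +kernel

lemma e20_21_4_4_8_12 : EnPr.lall (fun l => EnPr.one 20 8 (6, 4, 5, 2) (4 :: 4 :: l))
    (EnPr.prof (8 - 2) 4 (21 - (8 + 1) - 4 - 4)) = true := by
  decide +kernel

lemma e20_21_4_4_8_13 : EnPr.lall (fun l => EnPr.one 20 8 (6, 4, 5, 3) (4 :: 4 :: l))
    (EnPr.prof (8 - 2) 4 (21 - (8 + 1) - 4 - 4)) = true := by
  decide +kernel

lemma e20_21_4_4_8_14 : EnPr.lall (fun l => EnPr.one 20 8 (6, 4, 5, 4) (4 :: 4 :: l))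
    (EnPr.prof (8 - 2) 4 (21 - (8 + 1) - 4 - 4)) = true := by
  decide +kernel

lemma e20_21_4_4_8_15 : EnPr.lall (fun l => EnPr.one 20 8 (6, 4, 6, 3) (4 :: 4 :: l))
    (EnPr.prof (8 - 2) 4 (21 - (8 + 1) - 4 - 4)) = true := by
  decide +kernel

lemma e20_21_4_4_8_16 : EnPr.lall (fun l => EnPr.one 20 8 (6, 4, 6, 4) (4 :: 4 :: l))
    (EnPr.prof (8 - 2) 4 (21 - (8 + 1) - 4 - 4)) = true := by
  decide +kernel

lemma e20_21_4_4_8_17 : EnPr.lall (fun l => EnPr.one 20 8 (6, 5, 5, 1) (4 :: 4 :: l))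
    (EnPr.prof (8 - 2) 4 (21 - (8 + 1) - 4 - 4)) = true := by
  decide +kernel

lemma e20_21_4_4_8_18 : EnPr.lall (fun l => EnPr.one 20 8 (6, 5, 5, 2) (4 :: 4 :: l))
    (EnPr.prof (8 - 2) 4 (21 - (8 + 1) - 4 - 4)) = true := by
  decide +kernel

lemma e20_21_4_4_8_19 : EnPr.lall (fun l => EnPr.one 20 8 (6, 5, 5, 3) (4 :: 4 :: l))
    (EnPr.prof (8 - 2) 4 (21 - (8 + 1) - 4 - 4)) = true := by
  decide +kernel

lemma e20_21_4_4_8_20 : EnPr.lall (fun l => EnPr.one 20 8 (6, 5, 5, 4) (4 :: 4 :: l))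
    (EnPr.prof (8 - 2) 4 (21 - (8 + 1) - 4 - 4)) = true := by
  decide +kernel

lemma e20_21_4_4_8_21 : EnPr.lall (fun l => EnPr.one 20 8 (6, 5, 6, 3) (4 :: 4 :: l))
    (EnPr.prof (8 - 2) 4 (21 - (8 + 1) - 4 - 4)) = true := by
  decide +kernel

lemma e20_21_4_4_8_22 : EnPr.lall (fun l => EnPr.one 20 8 (6, 5, 6, 4) (4 :: 4 :: l))
    (EnPr.prof (8 - 2) 4 (21 - (8 + 1) - 4 - 4)) = true := by
  decide +kernel

lemma e20_21_4_4_8_23 : EnPr.lall (fun l => EnPr.one 20 8 (6, 5, 6, 5) (4 :: 4 :: l))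
    (EnPr.prof (8 - 2) 4 (21 - (8 + 1) - 4 - 4)) = true := by
  decide +kernel

lemma e20_21_4_4_8_24 : EnPr.lall (fun l => EnPr.one 20 8 (7, 6, 5, 2) (4 :: 4 :: l))
    (EnPr.prof (8 - 2) 4 (21 - (8 + 1) - 4 - 4)) = true := by
  decide +kernel

lemma e20_21_4_4_8_25 : EnPr.lall (fun l => EnPr.one 20 8 (7, 6, 5, 3) (4 :: 4 :: l))
    (EnPr.prof (8 - 2) 4 (21 - (8 + 1) - 4 - 4)) = true := by
  decide +kernel

lemma e20_21_4_4_8_26 : EnPr.lall (fun l => EnPr.one 20 8 (7, 6, 5, 4) (4 :: 4 :: l))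
    (EnPr.prof (8 - 2) 4 (21 - (8 + 1) - 4 - 4)) = true := by
  decide +kernel

lemma e20_21_4_4_9_0 : EnPr.lall (fun l => EnPr.one 20 9 (5, 2, 5, 2) (4 :: 4 :: l))
    (EnPr.prof (9 - 2) 4 (21 - (9 + 1) - 4 - 4)) = true := by
  decide +kernel

lemma e20_21_4_4_9_1 : EnPr.lall (fun l => EnPr.one 20 9 (5, 3, 5, 2) (4 :: 4 :: l))
    (EnPr.prof (9 - 2) 4 (21 - (9 + 1) - 4 - 4)) = true := by
  decide +kernel

lemma e20_21_4_4_9_2 : EnPr.lall (fun l => EnPr.one 20 9 (5, 3, 5, 3) (4 :: 4 :: l))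
    (EnPr.prof (9 - 2) 4 (21 - (9 + 1) - 4 - 4)) = true := by
  decide +kernel

lemma e20_21_4_4_9_3 : EnPr.lall (fun l => EnPr.one 20 9 (5, 4, 5, 2) (4 :: 4 :: l))
    (EnPr.prof (9 - 2) 4 (21 - (9 + 1) - 4 - 4)) = true := by
  decide +kernel

lemma e20_21_4_4_9_4 : EnPr.lall (fun l => EnPr.one 20 9 (5, 4, 5, 3) (4 :: 4 :: l))
    (EnPr.prof (9 - 2) 4 (21 - (9 + 1) - 4 - 4)) = true := by
  decide +kernel

lemma e20_21_4_4_9_5 : EnPr.lall (fun l => EnPr.one 20 9 (5, 4, 5, 4) (4 :: 4 :: l))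
    (EnPr.prof (9 - 2) 4 (21 - (9 + 1) - 4 - 4)) = true := by
  decide +kernel

lemma e20_21_4_4_9_6 : EnPr.lall (fun l => EnPr.one 20 9 (6, 3, 5, 1) (4 :: 4 :: l))
    (EnPr.prof (9 - 2) 4 (21 - (9 + 1) - 4 - 4)) = true := by
  decide +kernel

lemma e20_21_4_4_9_7 : EnPr.lall (fun l => EnPr.one 20 9 (6, 3, 5, 2) (4 :: 4 :: l))
    (EnPr.prof (9 - 2) 4 (21 - (9 + 1) - 4 - 4)) = true := by
  decide +kernel

lemma e20_21_4_4_9_8 : EnPr.lall (fun l => EnPr.one 20 9 (6, 3, 5, 3) (4 :: 4 :: l))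
    (EnPr.prof (9 - 2) 4 (21 - (9 + 1) - 4 - 4)) = true := by
  decide +kernel

lemma e20_21_4_4_9_9 : EnPr.lall (fun l => EnPr.one 20 9 (6, 3, 5, 4) (4 :: 4 :: l))
    (EnPr.prof (9 - 2) 4 (21 - (9 + 1) - 4 - 4)) = true := by
  decide +kernel

lemma e20_21_4_4_9_10 : EnPr.lall (fun l => EnPr.one 20 9 (6, 3, 6, 3) (4 :: 4 :: l))
    (EnPr.prof (9 - 2) 4 (21 - (9 + 1) - 4 - 4)) = true := by
  decide +kernel

lemma e20_21_4_4_9_11 : EnPr.lall (fun l => EnPr.one 20 9 (6, 4, 5, 1) (4 :: 4 :: l))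
    (EnPr.prof (9 - 2) 4 (21 - (9 + 1) - 4 - 4)) = true := by
  decide +kernel

lemma e20_21_4_4_9_12 : EnPr.lall (fun l => EnPr.one 20 9 (6, 4, 5, 2) (4 :: 4 :: l))
    (EnPr.prof (9 - 2) 4 (21 - (9 + 1) - 4 - 4)) = true := by
  decide +kernel

lemma e20_21_4_4_9_13 : EnPr.lall (fun l => EnPr.one 20 9 (6, 4, 5, 3) (4 :: 4 :: l))
    (EnPr.prof (9 - 2) 4 (21 - (9 + 1) - 4 - 4)) = true := by
  decide +kernel

lemma e20_21_4_4_9_14 : EnPr.lall (fun l => EnPr.one 20 9 (6, 4, 5, 4) (4 :: 4 :: l))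
    (EnPr.prof (9 - 2) 4 (21 - (9 + 1) - 4 - 4)) = true := by
  decide +kernel

lemma e20_21_4_4_9_15 : EnPr.lall (fun l => EnPr.one 20 9 (6, 4, 6, 3) (4 :: 4 :: l))
    (EnPr.prof (9 - 2) 4 (21 - (9 + 1) - 4 - 4)) = true := by
  decide +kernel

lemma e20_21_4_4_9_16 : EnPr.lall (fun l => EnPr.one 20 9 (6, 4, 6, 4) (4 :: 4 :: l))
    (EnPr.prof (9 - 2) 4 (21 - (9 + 1) - 4 - 4)) = true := by
  decide +kernel

lemma e20_21_4_4_9_17 : EnPr.lall (fun l => EnPr.one 20 9 (6, 5, 5, 1) (4 :: 4 :: l))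
    (EnPr.prof (9 - 2) 4 (21 - (9 + 1) - 4 - 4)) = true := by
  decide +kernel

lemma e20_21_4_4_9_18 : EnPr.lall (fun l => EnPr.one 20 9 (6, 5, 5, 2) (4 :: 4 :: l))
    (EnPr.prof (9 - 2) 4 (21 - (9 + 1) - 4 - 4)) = true := by
  decide +kernel

lemma e20_21_4_4_9_19 : EnPr.lall (fun l => EnPr.one 20 9 (6, 5, 5, 3) (4 :: 4 :: l))
    (EnPr.prof (9 - 2) 4 (21 - (9 + 1) - 4 - 4)) = true := by
  decide +kernel

lemma e20_21_4_4_9_20 : EnPr.lall (fun l => EnPr.one 20 9 (6, 5, 5, 4) (4 :: 4 :: l))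
    (EnPr.prof (9 - 2) 4 (21 - (9 + 1) - 4 - 4)) = true := by
  decide +kernel

lemma e20_21_4_4_9_21 : EnPr.lall (fun l => EnPr.one 20 9 (6, 5, 6, 3) (4 :: 4 :: l))
    (EnPr.prof (9 - 2) 4 (21 - (9 + 1) - 4 - 4)) = true := by
  decide +kernel

end BlkC

end Pool.Agent.Lib.MP_f04ccf_co
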