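import Pool.Agent.Lib.MP_f04ccf_co.M.BlkX20_21_4_4d

/-!
MP_f04ccf_co, block certificate with exceptions, `R = 20`, `H = 21`, the pair `(4, 4)` (data of helper99 / helper13,
generated by helper8, genx.py): the exceptions, part 4 of 4.
-/

set_option autoImplicit false
set_option maxRecDepth 100000

namespace Pool.Agent.Lib.MP_f04ccf_co

namespace BlkC

lemma e20_21_4_4_9_22 : EnPr.lall (fun l => EnPr.one 20 9 (6, 5, 6, 4) (4 :: 4 :: l))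
    (EnPr.prof (9 - 2) 4 (21 - (9 + 1) - 4 - 4)) = true := by
  decide +kernel

lemma e20_21_4_4_9_23 : EnPr.lall (fun l => EnPr.one 20 9 (6, 5, 6, 5) (4 :: 4 :: l))
    (EnPr.prof (9 - 2) 4 (21 - (9 + 1) - 4 - 4)) = true := by
  decide +kernel

lemma e20_21_4_4_9_24 : EnPr.lall (fun l => EnPr.one 20 9 (7, 6, 5, 2) (4 :: 4 :: l))
    (EnPr.prof (9 - 2) 4 (21 - (9 + 1) - 4 - 4)) = true := by
  decide +kernel

lemma e20_21_4_4_9_25 : EnPr.lall (fun l => EnPr.one 20 9 (7, 6, 5, 3) (4 :: 4 :: l))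
    (EnPr.prof (9 - 2) 4 (21 - (9 + 1) - 4 - 4)) = true := by
  decide +kernel

lemma e20_21_4_4_9_26 : EnPr.lall (fun l => EnPr.one 20 9 (7, 6, 5, 4) (4 :: 4 :: l))
    (EnPr.prof (9 - 2) 4 (21 - (9 + 1) - 4 - 4)) = true := by
  decide +kernel

lemma e20_21_4_4_10_0 : EnPr.lall (fun l => EnPr.one 20 10 (5, 2, 5, 2) (4 :: 4 :: l))
    (EnPr.prof (10 - 2) 4 (21 - (10 + 1) - 4 - 4)) = true := by
  decide +kernel

lemma e20_21_4_4_10_1 : EnPr.lall (fun l => EnPr.one 20 10 (5, 3, 5, 2) (4 :: 4 :: l))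
    (EnPr.prof (10 - 2) 4 (21 - (10 + 1) - 4 - 4)) = true := by
  decide +kernel

lemma e20_21_4_4_10_2 : EnPr.lall (fun l => EnPr.one 20 10 (5, 3, 5, 3) (4 :: 4 :: l))
    (EnPr.prof (10 - 2) 4 (21 - (10 + 1) - 4 - 4)) = true := by
  decide +kernel

lemma e20_21_4_4_10_3 : EnPr.lall (fun l => EnPr.one 20 10 (5, 4, 5, 2) (4 :: 4 :: l))
    (EnPr.prof (10 - 2) 4 (21 - (10 + 1) - 4 - 4)) = true := by
  decide +kernel

lemma e20_21_4_4_10_4 : EnPr.lall (fun l => EnPr.one 20 10 (5, 4, 5, 3) (4 :: 4 :: l))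
    (EnPr.prof (10 - 2) 4 (21 - (10 + 1) - 4 - 4)) = true := by
  decide +kernel

lemma e20_21_4_4_10_5 : EnPr.lall (fun l => EnPr.one 20 10 (5, 4, 5, 4) (4 :: 4 :: l))
    (EnPr.prof (10 - 2) 4 (21 - (10 + 1) - 4 - 4)) = true := by
  decide +kernel

lemma e20_21_4_4_10_6 : EnPr.lall (fun l => EnPr.one 20 10 (6, 3, 5, 1) (4 :: 4 :: l))
    (EnPr.prof (10 - 2) 4 (21 - (10 + 1) - 4 - 4)) = true := by
  decide +kernel

lemma e20_21_4_4_10_7 : EnPr.lall (fun l => EnPr.one 20 10 (6, 3, 5, 2) (4 :: 4 :: l))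
    (EnPr.prof (10 - 2) 4 (21 - (10 + 1) - 4 - 4)) = true := by
  decide +kernel

lemma e20_21_4_4_10_8 : EnPr.lall (fun l => EnPr.one 20 10 (6, 3, 5, 3) (4 :: 4 :: l))
    (EnPr.prof (10 - 2) 4 (21 - (10 + 1) - 4 - 4)) = true := by
  decide +kernel

lemma e20_21_4_4_10_9 : EnPr.lall (fun l => EnPr.one 20 10 (6, 3, 5, 4) (4 :: 4 :: l))
    (EnPr.prof (10 - 2) 4 (21 - (10 + 1) - 4 - 4)) = true := by
  decide +kernel

lemma e20_21_4_4_10_10 : EnPr.lall (fun l => EnPr.one 20 10 (6, 3, 6, 3) (4 :: 4 :: l))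
    (EnPr.prof (10 - 2) 4 (21 - (10 + 1) - 4 - 4)) = true := by
  decide +kernel

lemma e20_21_4_4_10_11 : EnPr.lall (fun l => EnPr.one 20 10 (6, 4, 5, 1) (4 :: 4 :: l))
    (EnPr.prof (10 - 2) 4 (21 - (10 + 1) - 4 - 4)) = true := by
  decide +kernel

lemma e20_21_4_4_10_12 : EnPr.lall (fun l => EnPr.one 20 10 (6, 4, 5, 2) (4 :: 4 :: l))
    (EnPr.prof (10 - 2) 4 (21 - (10 + 1) - 4 - 4)) = true := by
  decide +kernel

lemma e20_21_4_4_10_13 : EnPr.lall (fun l => EnPr.one 20 10 (6, 4, 5, 3) (4 :: 4 :: l))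
    (EnPr.prof (10 - 2) 4 (21 - (10 + 1) - 4 - 4)) = true := by
  decide +kernel

lemma e20_21_4_4_10_14 : EnPr.lall (fun l => EnPr.one 20 10 (6, 4, 5, 4) (4 :: 4 :: l))
    (EnPr.prof (10 - 2) 4 (21 - (10 + 1) - 4 - 4)) = true := by
  decide +kernel

lemma e20_21_4_4_10_15 : EnPr.lall (fun l => EnPr.one 20 10 (6, 4, 6, 3) (4 :: 4 :: l))
    (EnPr.prof (10 - 2) 4 (21 - (10 + 1) - 4 - 4)) = true := by
  decide +kernel

lemma e20_21_4_4_10_16 : EnPr.lall (fun l => EnPr.one 20 10 (6, 4, 6, 4) (4 :: 4 :: l))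
    (EnPr.prof (10 - 2) 4 (21 - (10 + 1) - 4 - 4)) = true := by
  decide +kernel

lemma e20_21_4_4_10_17 : EnPr.lall (fun l => EnPr.one 20 10 (6, 5, 5, 1) (4 :: 4 :: l))
    (EnPr.prof (10 - 2) 4 (21 - (10 + 1) - 4 - 4)) = true := by
  decide +kernel

lemma e20_21_4_4_10_18 : EnPr.lall (fun l => EnPr.one 20 10 (6, 5, 5, 2) (4 :: 4 :: l))
    (EnPr.prof (10 - 2) 4 (21 - (10 + 1) - 4 - 4)) = true := by
  decide +kernel

lemma e20_21_4_4_10_19 : EnPr.lall (fun l => EnPr.one 20 10 (6, 5, 5, 3) (4 :: 4 :: l))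
    (EnPr.prof (10 - 2) 4 (21 - (10 + 1) - 4 - 4)) = true := by
  decide +kernel

lemma e20_21_4_4_10_20 : EnPr.lall (fun l => EnPr.one 20 10 (6, 5, 5, 4) (4 :: 4 :: l))
    (EnPr.prof (10 - 2) 4 (21 - (10 + 1) - 4 - 4)) = true := by
  decide +kernel

lemma e20_21_4_4_10_21 : EnPr.lall (fun l => EnPr.one 20 10 (6, 5, 6, 3) (4 :: 4 :: l))
    (EnPr.prof (10 - 2) 4 (21 - (10 + 1) - 4 - 4)) = true := by
  decide +kernel

lemma e20_21_4_4_10_22 : EnPr.lall (fun l => EnPr.one 20 10 (6, 5, 6, 4) (4 :: 4 :: l))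
    (EnPr.prof (10 - 2) 4 (21 - (10 + 1) - 4 - 4)) = true := by
  decide +kernel

lemma e20_21_4_4_10_23 : EnPr.lall (fun l => EnPr.one 20 10 (6, 5, 6, 5) (4 :: 4 :: l))
    (EnPr.prof (10 - 2) 4 (21 - (10 + 1) - 4 - 4)) = true := by
  decide +kernel

lemma e20_21_4_4_10_24 : EnPr.lall (fun l => EnPr.one 20 10 (7, 6, 5, 2) (4 :: 4 :: l))
    (EnPr.prof (10 - 2) 4 (21 - (10 + 1) - 4 - 4)) = true := by
  decide +kernel

lemma e20_21_4_4_10_25 : EnPr.lall (fun l => EnPr.one 20 10 (7, 6, 5, 3) (4 :: 4 :: l))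
    (EnPr.prof (10 - 2) 4 (21 - (10 + 1) - 4 - 4)) = true := by
  decide +kernel

lemma e20_21_4_4_10_26 : EnPr.lall (fun l => EnPr.one 20 10 (7, 6, 5, 4) (4 :: 4 :: l))
    (EnPr.prof (10 - 2) 4 (21 - (10 + 1) - 4 - 4)) = true := by
  decide +kernel

lemma e20_21_4_4_11_0 : EnPr.lall (fun l => EnPr.one 20 11 (5, 2, 5, 2) (4 :: 4 :: l))
    (EnPr.prof (11 - 2) 4 (21 - (11 + 1) - 4 - 4)) = true := by
  decide +kernel

lemma e20_21_4_4_11_1 : EnPr.lall (fun l => EnPr.one 20 11 (5, 3, 5, 2) (4 :: 4 :: l))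
    (EnPr.prof (11 - 2) 4 (21 - (11 + 1) - 4 - 4)) = true := by
  decide +kernel

lemma e20_21_4_4_11_2 : EnPr.lall (fun l => EnPr.one 20 11 (5, 3, 5, 3) (4 :: 4 :: l))
    (EnPr.prof (11 - 2) 4 (21 - (11 + 1) - 4 - 4)) = true := by
  decide +kernel

lemma e20_21_4_4_11_3 : EnPr.lall (fun l => EnPr.one 20 11 (5, 4, 5, 2) (4 :: 4 :: l))
    (EnPr.prof (11 - 2) 4 (21 - (11 + 1) - 4 - 4)) = true := by
  decide +kernel

lemma e20_21_4_4_11_4 : EnPr.lall (fun l => EnPr.one 20 11 (5, 4, 5, 3) (4 :: 4 :: l))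
    (EnPr.prof (11 - 2) 4 (21 - (11 + 1) - 4 - 4)) = true := by
  decide +kernel

lemma e20_21_4_4_11_5 : EnPr.lall (fun l => EnPr.one 20 11 (5, 4, 5, 4) (4 :: 4 :: l))
    (EnPr.prof (11 - 2) 4 (21 - (11 + 1) - 4 - 4)) = true := by
  decide +kernel

lemma e20_21_4_4_11_6 : EnPr.lall (fun l => EnPr.one 20 11 (6, 3, 5, 1) (4 :: 4 :: l))
    (EnPr.prof (11 - 2) 4 (21 - (11 + 1) - 4 - 4)) = true := by
  decide +kernel

lemma e20_21_4_4_11_7 : EnPr.lall (fun l => EnPr.one 20 11 (6, 3, 5, 2) (4 :: 4 :: l))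
    (EnPr.prof (11 - 2) 4 (21 - (11 + 1) - 4 - 4)) = true := by
  decide +kernel

lemma e20_21_4_4_11_8 : EnPr.lall (fun l => EnPr.one 20 11 (6, 3, 5, 3) (4 :: 4 :: l))
    (EnPr.prof (11 - 2) 4 (21 - (11 + 1) - 4 - 4)) = true := by
  decide +kernel

lemma e20_21_4_4_11_9 : EnPr.lall (fun l => EnPr.one 20 11 (6, 3, 5, 4) (4 :: 4 :: l))
    (EnPr.prof (11 - 2) 4 (21 - (11 + 1) - 4 - 4)) = true := by
  decide +kernel

lemma e20_21_4_4_11_10 : EnPr.lall (fun l => EnPr.one 20 11 (6, 3, 6, 3) (4 :: 4 :: l))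
    (EnPr.prof (11 - 2) 4 (21 - (11 + 1) - 4 - 4)) = true := by
  decide +kernel

lemma e20_21_4_4_11_11 : EnPr.lall (fun l => EnPr.one 20 11 (6, 4, 5, 1) (4 :: 4 :: l))
    (EnPr.prof (11 - 2) 4 (21 - (11 + 1) - 4 - 4)) = true := by
  decide +kernel

lemma e20_21_4_4_11_12 : EnPr.lall (fun l => EnPr.one 20 11 (6, 4, 5, 2) (4 :: 4 :: l))
    (EnPr.prof (11 - 2) 4 (21 - (11 + 1) - 4 - 4)) = true := by
  decide +kernel

lemma e20_21_4_4_11_13 : EnPr.lall (fun l => EnPr.one 20 11 (6, 4, 5, 3) (4 :: 4 :: l))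
    (EnPr.prof (11 - 2) 4 (21 - (11 + 1) - 4 - 4)) = true := by
  decide +kernel

lemma e20_21_4_4_11_14 : EnPr.lall (fun l => EnPr.one 20 11 (6, 4, 5, 4) (4 :: 4 :: l))
    (EnPr.prof (11 - 2) 4 (21 - (11 + 1) - 4 - 4)) = true := by
  decide +kernel

lemma e20_21_4_4_11_15 : EnPr.lall (fun l => EnPr.one 20 11 (6, 4, 6, 3) (4 :: 4 :: l))
    (EnPr.prof (11 - 2) 4 (21 - (11 + 1) - 4 - 4)) = true := by
  decide +kernel

lemma e20_21_4_4_11_16 : EnPr.lall (fun l => EnPr.one 20 11 (6, 4, 6, 4) (4 :: 4 :: l))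
    (EnPr.prof (11 - 2) 4 (21 - (11 + 1) - 4 - 4)) = true := by
  decide +kernel

lemma e20_21_4_4_11_17 : EnPr.lall (fun l => EnPr.one 20 11 (6, 5, 5, 1) (4 :: 4 :: l))
    (EnPr.prof (11 - 2) 4 (21 - (11 + 1) - 4 - 4)) = true := by
  decide +kernel

lemma e20_21_4_4_11_18 : EnPr.lall (fun l => EnPr.one 20 11 (6, 5, 5, 2) (4 :: 4 :: l))
    (EnPr.prof (11 - 2) 4 (21 - (11 + 1) - 4 - 4)) = true := by
  decide +kernel

lemma e20_21_4_4_11_19 : EnPr.lall (fun l => EnPr.one 20 11 (6, 5, 5, 3) (4 :: 4 :: l))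
    (EnPr.prof (11 - 2) 4 (21 - (11 + 1) - 4 - 4)) = true := by
  decide +kernel

lemma e20_21_4_4_11_20 : EnPr.lall (fun l => EnPr.one 20 11 (6, 5, 5, 4) (4 :: 4 :: l))
    (EnPr.prof (11 - 2) 4 (21 - (11 + 1) - 4 - 4)) = true := by
  decide +kernel

lemma e20_21_4_4_11_21 : EnPr.lall (fun l => EnPr.one 20 11 (6, 5, 6, 3) (4 :: 4 :: l))
    (EnPr.prof (11 - 2) 4 (21 - (11 + 1) - 4 - 4)) = true := by
  decide +kernel

lemma e20_21_4_4_11_22 : EnPr.lall (fun l => EnPr.one 20 11 (6, 5, 6, 4) (4 :: 4 :: l))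
    (EnPr.prof (11 - 2) 4 (21 - (11 + 1) - 4 - 4)) = true := by
  decide +kernel

lemma e20_21_4_4_11_23 : EnPr.lall (fun l => EnPr.one 20 11 (6, 5, 6, 5) (4 :: 4 :: l))
    (EnPr.prof (11 - 2) 4 (21 - (11 + 1) - 4 - 4)) = true := by
  decide +kernel

lemma e20_21_4_4_11_24 : EnPr.lall (fun l => EnPr.one 20 11 (7, 6, 5, 2) (4 :: 4 :: l))
    (EnPr.prof (11 - 2) 4 (21 - (11 + 1) - 4 - 4)) = true := by
  decide +kernel

lemma e20_21_4_4_11_25 : EnPr.lall (fun l => EnPr.one 20 11 (7, 6, 5, 3) (4 :: 4 :: l))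
    (EnPr.prof (11 - 2) 4 (21 - (11 + 1) - 4 - 4)) = true := by
  decide +kernel

lemma e20_21_4_4_11_26 : EnPr.lall (fun l => EnPr.one 20 11 (7, 6, 5, 4) (4 :: 4 :: l))
    (EnPr.prof (11 - 2) 4 (21 - (11 + 1) - 4 - 4)) = true := by
  decide +kernel

lemma e20_21_4_4_12_0 : EnPr.lall (fun l => EnPr.one 20 12 (5, 2, 5, 2) (4 :: 4 :: l))
    (EnPr.prof (12 - 2) 4 (21 - (12 + 1) - 4 - 4)) = true := by
  decide +kernel

lemma e20_21_4_4_12_1 : EnPr.lall (fun l => EnPr.one 20 12 (5, 3, 5, 2) (4 :: 4 :: l))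
    (EnPr.prof (12 - 2) 4 (21 - (12 + 1) - 4 - 4)) = true := by
  decide +kernel

lemma e20_21_4_4_12_2 : EnPr.lall (fun l => EnPr.one 20 12 (5, 3, 5, 3) (4 :: 4 :: l))
    (EnPr.prof (12 - 2) 4 (21 - (12 + 1) - 4 - 4)) = true := by
  decide +kernel

lemma e20_21_4_4_12_3 : EnPr.lall (fun l => EnPr.one 20 12 (5, 4, 5, 2) (4 :: 4 :: l))
    (EnPr.prof (12 - 2) 4 (21 - (12 + 1) - 4 - 4)) = true := by
  decide +kernel

lemma e20_21_4_4_12_4 : EnPr.lall (fun l => EnPr.one 20 12 (5, 4, 5, 3) (4 :: 4 :: l))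
    (EnPr.prof (12 - 2) 4 (21 - (12 + 1) - 4 - 4)) = true := by
  decide +kernel

lemma e20_21_4_4_12_5 : EnPr.lall (fun l => EnPr.one 20 12 (5, 4, 5, 4) (4 :: 4 :: l))
    (EnPr.prof (12 - 2) 4 (21 - (12 + 1) - 4 - 4)) = true := by
  decide +kernel

lemma e20_21_4_4_12_6 : EnPr.lall (fun l => EnPr.one 20 12 (6, 3, 5, 1) (4 :: 4 :: l))
    (EnPr.prof (12 - 2) 4 (21 - (12 + 1) - 4 - 4)) = true := by
  decide +kernel

lemma e20_21_4_4_12_7 : EnPr.lall (fun l => EnPr.one 20 12 (6, 3, 5, 2) (4 :: 4 :: l))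
    (EnPr.prof (12 - 2) 4 (21 - (12 + 1) - 4 - 4)) = true := by
  decide +kernel

lemma e20_21_4_4_12_8 : EnPr.lall (fun l => EnPr.one 20 12 (6, 3, 5, 3) (4 :: 4 :: l))
    (EnPr.prof (12 - 2) 4 (21 - (12 + 1) - 4 - 4)) = true := by
  decide +kernel

lemma e20_21_4_4_12_9 : EnPr.lall (fun l => EnPr.one 20 12 (6, 3, 5, 4) (4 :: 4 :: l))
    (EnPr.prof (12 - 2) 4 (21 - (12 + 1) - 4 - 4)) = true := by
  decide +kernel

lemma e20_21_4_4_12_10 : EnPr.lall (fun l => EnPr.one 20 12 (6, 3, 6, 3) (4 :: 4 :: l))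
    (EnPr.prof (12 - 2) 4 (21 - (12 + 1) - 4 - 4)) = true := by
  decide +kernel

lemma e20_21_4_4_12_11 : EnPr.lall (fun l => EnPr.one 20 12 (6, 4, 5, 1) (4 :: 4 :: l))
    (EnPr.prof (12 - 2) 4 (21 - (12 + 1) - 4 - 4)) = true := by
  decide +kernel

lemma e20_21_4_4_12_12 : EnPr.lall (fun l => EnPr.one 20 12 (6, 4, 5, 2) (4 :: 4 :: l))
    (EnPr.prof (12 - 2) 4 (21 - (12 + 1) - 4 - 4)) = true := by
  decide +kernel

lemma e20_21_4_4_12_13 : EnPr.lall (fun l => EnPr.one 20 12 (6, 4, 5, 3) (4 :: 4 :: l))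
    (EnPr.prof (12 - 2) 4 (21 - (12 + 1) - 4 - 4)) = true := by
  decide +kernel

lemma e20_21_4_4_12_14 : EnPr.lall (fun l => EnPr.one 20 12 (6, 4, 5, 4) (4 :: 4 :: l))
    (EnPr.prof (12 - 2) 4 (21 - (12 + 1) - 4 - 4)) = true := by
  decide +kernel

lemma e20_21_4_4_12_15 : EnPr.lall (fun l => EnPr.one 20 12 (6, 4, 6, 3) (4 :: 4 :: l))
    (EnPr.prof (12 - 2) 4 (21 - (12 + 1) - 4 - 4)) = true := by
  decide +kernel

lemma e20_21_4_4_12_16 : EnPr.lall (fun l => EnPr.one 20 12 (6, 4, 6, 4) (4 :: 4 :: l))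
    (EnPr.prof (12 - 2) 4 (21 - (12 + 1) - 4 - 4)) = true := by
  decide +kernel

lemma e20_21_4_4_12_17 : EnPr.lall (fun l => EnPr.one 20 12 (6, 5, 5, 1) (4 :: 4 :: l))
    (EnPr.prof (12 - 2) 4 (21 - (12 + 1) - 4 - 4)) = true := by
  decide +kernel

lemma e20_21_4_4_12_18 : EnPr.lall (fun l => EnPr.one 20 12 (6, 5, 5, 2) (4 :: 4 :: l))
    (EnPr.prof (12 - 2) 4 (21 - (12 + 1) - 4 - 4)) = true := by
  decide +kernel

lemma e20_21_4_4_12_19 : EnPr.lall (fun l => EnPr.one 20 12 (6, 5, 5, 3) (4 :: 4 :: l))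
    (EnPr.prof (12 - 2) 4 (21 - (12 + 1) - 4 - 4)) = true := by
  decide +kernel

lemma e20_21_4_4_12_20 : EnPr.lall (fun l => EnPr.one 20 12 (6, 5, 5, 4) (4 :: 4 :: l))
    (EnPr.prof (12 - 2) 4 (21 - (12 + 1) - 4 - 4)) = true := by
  decide +kernel

lemma e20_21_4_4_12_21 : EnPr.lall (fun l => EnPr.one 20 12 (6, 5, 6, 3) (4 :: 4 :: l))
    (EnPr.prof (12 - 2) 4 (21 - (12 + 1) - 4 - 4)) = true := by
  decide +kernel

lemma e20_21_4_4_12_22 : EnPr.lall (fun l => EnPr.one 20 12 (6, 5, 6, 4) (4 :: 4 :: l))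
    (EnPr.prof (12 - 2) 4 (21 - (12 + 1) - 4 - 4)) = true := by
  decide +kernel

lemma e20_21_4_4_12_23 : EnPr.lall (fun l => EnPr.one 20 12 (6, 5, 6, 5) (4 :: 4 :: l))
    (EnPr.prof (12 - 2) 4 (21 - (12 + 1) - 4 - 4)) = true := by
  decide +kernel

lemma e20_21_4_4_12_24 : EnPr.lall (fun l => EnPr.one 20 12 (7, 6, 5, 2) (4 :: 4 :: l))
    (EnPr.prof (12 - 2) 4 (21 - (12 + 1) - 4 - 4)) = true := by
  decide +kernel

lemma e20_21_4_4_12_25 : EnPr.lall (fun l => EnPr.one 20 12 (7, 6, 5, 3) (4 :: 4 :: l))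
    (EnPr.prof (12 - 2) 4 (21 - (12 + 1) - 4 - 4)) = true := by
  decide +kernel

lemma e20_21_4_4_12_26 : EnPr.lall (fun l => EnPr.one 20 12 (7, 6, 5, 4) (4 :: 4 :: l))
    (EnPr.prof (12 - 2) 4 (21 - (12 + 1) - 4 - 4)) = true := by
  decide +kernel

end BlkC

end Pool.Agent.Lib.MP_f04ccf_co
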