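import Pool.Agent.Lib.MP_f04ccf_co.M.BlkX20_21_4_4d

/-!
MP_f04ccf_co, block certificate with exceptions, `R = 20`, `H = 21`, the pair `(4, 4)` (data of helper99 / helper13,
generated by helper8, genx.py): part 1 of 2.
-/

set_option autoImplicit false
set_option maxRecDepth 100000

namespace Pool.Agent.Lib.MP_f04ccf_co

namespace BlkC

/-- a subtree -/
def t20_21_4_4_0 : BlkD.Tr :=
  .L 5 5 [4, 4, 4, 5, 6] [] [] 100000 66667 66667 600001 0 0 100000 33333 0 0 6667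

lemma s20_21_4_4_0 : BlkD.treeX d20_21_4_4 (BlkD.exF 4 4 x20_21_4_4) t20_21_4_4_0
    (fun _ => 0)
    (BlkD.upd (BlkD.upd (BlkD.upd (BlkD.upd (BlkD.upd (fun _ => 21) 0 4) 2 4) 0 2) 0 1) 0 0) = true := by
  decide +kernel

lemma n20_21_4_4_0 {n : ℕ} (hn : 6 ≤ n) : BlkD.NdX d20_21_4_4 (BlkD.exF 4 4 x20_21_4_4) n
    (fun _ => 0)
    (BlkD.upd (BlkD.upd (BlkD.upd (BlkD.upd (BlkD.upd (fun _ => 21) 0 4) 2 4) 0 2) 0 1) 0 0) :=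
  BlkD.NdX.tree s20_21_4_4_0 ok20_21_4_4 (by decide) hn

/-- a subtree -/
def t20_21_4_4_1 : BlkD.Tr :=
  .L 5 5 [4, 4, 4, 5, 6] [] [] 100000 31250 31250 900000 0 0 0 25000 0 25000 25000

lemma s20_21_4_4_1 : BlkD.treeX d20_21_4_4 (BlkD.exF 4 4 x20_21_4_4) t20_21_4_4_1
    (BlkD.upd (fun _ => 0) 0 1)
    (BlkD.upd (BlkD.upd (BlkD.upd (BlkD.upd (BlkD.upd (BlkD.upd (BlkD.upd (BlkD.upd (fun _ => 21) 0 4) 2 4) 0 2) 0 1) 1 20) 1 10) 1 5) 1 2) = true := by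
  decide +kernel

lemma n20_21_4_4_1 {n : ℕ} (hn : 6 ≤ n) : BlkD.NdX d20_21_4_4 (BlkD.exF 4 4 x20_21_4_4) n
    (BlkD.upd (fun _ => 0) 0 1)
    (BlkD.upd (BlkD.upd (BlkD.upd (BlkD.upd (BlkD.upd (BlkD.upd (BlkD.upd (BlkD.upd (fun _ => 21) 0 4) 2 4) 0 2) 0 1) 1 20) 1 10) 1 5) 1 2) :=
  BlkD.NdX.tree s20_21_4_4_1 ok20_21_4_4 (by decide) hn

/-- a subtree -/
def t20_21_4_4_2 : BlkD.Tr :=
  .S 2 2 (.S 2 1 (.S 2 0 (.L 5 5 [4, 4, 4, 5, 6] [42, 32, 22, 12, 0, 0] [] 100000 54167 54167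
    600000 0 0 0 100000 0 0 16667) (.S 3 16 (.S 3 8 (.S 3 4 (.L 5 5 [4, 4, 4, 5, 6] [42, 32, 22,
    12, 0, 0] [] 100000 32144 32144 900000 0 0 0 0 0 0 28571) (.S 3 6 (.S 3 5 (.S 4 3 (.S 4 1 (.S 4
    0 (.S 5 5 (.S 5 2 (.L 5 5 [4, 4, 4, 5, 6] [12, 0, 0, 0, 0, 0] [50, 40, 30, 0, 0, 0] 100000
    68750 68750 625000 100000 25000 0 25000 25000 75000 25000) (.L 5 5 [4, 4, 4, 5, 6] [12, 0, 0,
    0, 0, 0] [68, 66, 60, 50, 40, 30] 100000 21154 21154 957692 0 0 0 42308 26923 57692 26923)) (.E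
    2)) (.S 5 5 (.S 5 2 (.L 5 5 [4, 4, 4, 5, 6] [22, 12, 0, 0, 0, 0] [50, 40, 30, 0, 0, 0] 100000
    19319 19319 954546 0 22727 0 22727 22727 77273 31818) (.L 5 5 [4, 4, 4, 5, 6] [22, 12, 0, 0, 0,
    0] [68, 66, 60, 50, 40, 30] 100000 21154 21154 957692 0 0 0 42308 26923 57692 26923)) (.E 2)))
    (.S 4 2 (.S 5 5 (.S 5 2 (.L 5 5 [4, 4, 4, 5, 6] [32, 22, 12, 0, 0, 0] [50, 40, 30, 0, 0, 0]
    100000 25001 25001 900000 0 0 50000 0 0 78571 28571) (.L 5 5 [4, 4, 4, 5, 6] [32, 22, 12, 0, 0,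
    0] [68, 66, 60, 50, 40, 30] 100000 29630 29630 914816 0 0 25926 33333 0 66667 25926)) (.E 2))
    (.L 5 5 [4, 4, 4, 5, 6] [42, 32, 22, 12, 0, 0] [68, 66, 60, 50, 40, 30] 100000 35088 35088
    842104 0 0 52632 17544 0 52632 22807))) (.E 2)) (.L 5 5 [4, 4, 4, 5, 6] [42, 32, 22, 12, 0, 0]
    [82, 80, 78, 72, 62, 52] 100000 54167 54167 700000 0 0 0 100000 0 0 16667)) (.E 1))) (.E 1))
    (.E 1))) (.S 3 15 (.S 3 7 (.S 3 3 (.L 5 5 [4, 4, 4, 5, 6] [42, 32, 22, 12, 0, 0] [] 100000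
    32144 32144 900000 0 0 0 0 0 0 28571) (.S 3 5 (.S 3 4 (.S 4 3 (.S 4 1 (.L 5 5 [4, 4, 4, 5, 6]
    [22, 12, 0, 0, 0, 0] [64, 58, 48, 38, 28, 0] 100000 17754 17754 991307 1449 0 1449 33333 28986
    66667 28986) (.L 5 5 [4, 4, 4, 5, 6] [42, 32, 22, 12, 0, 0] [64, 58, 48, 38, 28, 0] 100000
    29630 29630 914816 0 0 25926 33333 0 66667 25926)) (.E 2)) (.E 1)) (.E 1))) (.E 1)) (.E 1)))
    (.L 5 5 [4, 4, 4, 5, 6] [42, 32, 22, 12, 0, 0] [] 100000 25001 25001 945944 13514 0 13514 13514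
    0 86486 32432)

lemma s20_21_4_4_2 : BlkD.treeX d20_21_4_4 (BlkD.exF 4 4 x20_21_4_4) t20_21_4_4_2
    (BlkD.upd (BlkD.upd (fun _ => 0) 0 1) 1 3)
    (BlkD.upd (BlkD.upd (BlkD.upd (BlkD.upd (BlkD.upd (BlkD.upd (BlkD.upd (BlkD.upd (BlkD.upd (fun _ => 21) 0 4) 2 4) 0 2) 0 1) 1 20) 1 10) 1 5) 1 4) 1 3) = true := by
  decide +kernel

lemma n20_21_4_4_2 {n : ℕ} (hn : 6 ≤ n) : BlkD.NdX d20_21_4_4 (BlkD.exF 4 4 x20_21_4_4) n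
    (BlkD.upd (BlkD.upd (fun _ => 0) 0 1) 1 3)
    (BlkD.upd (BlkD.upd (BlkD.upd (BlkD.upd (BlkD.upd (BlkD.upd (BlkD.upd (BlkD.upd (BlkD.upd (fun _ => 21) 0 4) 2 4) 0 2) 0 1) 1 20) 1 10) 1 5) 1 4) 1 3) :=
  BlkD.NdX.tree s20_21_4_4_2 ok20_21_4_4 (by decide) hn

/-- a subtree -/
def t20_21_4_4_3 : BlkD.Tr :=
  .S 2 0 (.L 5 5 [4, 4, 4, 5, 6] [56, 50, 40, 30, 20, 0] [] 100000 66667 66667 600001 0 0 33333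
    100000 0 0 6667) (.S 3 15 (.S 3 7 (.S 3 3 (.L 5 5 [4, 4, 4, 5, 6] [56, 50, 40, 30, 20, 0] []
    100000 32144 32144 900000 0 0 0 0 0 0 28571) (.S 3 5 (.S 3 4 (.S 4 4 (.S 4 2 (.S 4 1 (.S 4 0
    (.L 5 5 [4, 4, 4, 5, 6] [20, 0, 0, 0, 0, 0] [56, 50, 40, 30, 20, 0] 100000 25000 25000 887500
    37500 0 0 12500 100000 18750 31250) (.S 5 4 (.S 5 2 (.S 5 1 (.L 5 5 [4, 4, 4, 5, 6] [30, 20, 0,
    0, 0, 0] [30, 20, 0, 0, 0, 0] 100000 46053 46053 815789 31579 31579 26316 31579 31579 31579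
    21053) (.E 9)) (.L 5 5 [4, 4, 4, 5, 6] [30, 20, 0, 0, 0, 0] [56, 50, 40, 30, 20, 0] 100000
    31250 31250 875000 0 0 0 62500 62500 0 25000)) (.E 2))) (.S 5 4 (.S 5 2 (.S 5 1 (.S 5 0 (.L 5 5
    [4, 4, 4, 5, 6] [40, 30, 20, 0, 0, 0] [20, 0, 0, 0, 0, 0] 100000 61112 61112 655556 0 100000
    22222 0 0 100000 22222) (.E 9)) (.E 9)) (.L 5 5 [4, 4, 4, 5, 6] [40, 30, 20, 0, 0, 0] [56, 50,
    40, 30, 20, 0] 100000 31250 31250 875000 0 0 0 62500 62500 0 25000)) (.E 2))) (.S 4 3 (.S 5 4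
    (.S 5 2 (.L 5 5 [4, 4, 4, 5, 6] [50, 40, 30, 20, 0, 0] [40, 30, 20, 0, 0, 0] 100000 31250 31250
    875000 0 0 62500 0 0 62500 25000) (.S 5 3 (.E 9) (.L 5 5 [4, 4, 4, 5, 6] [50, 40, 30, 20, 0, 0]
    [56, 50, 40, 30, 20, 0] 100000 56250 56250 718750 0 0 56250 56250 0 0 12500))) (.E 2)) (.L 5 5
    [4, 4, 4, 5, 6] [56, 50, 40, 30, 20, 0] [56, 50, 40, 30, 20, 0] 100000 51429 51429 768572 0 0
    77143 25714 0 11020 13878))) (.E 2)) (.S 4 4 (.S 4 2 (.S 4 1 (.S 4 0 (.L 1 1 [10, 12, 14, 16,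
    16] [20, 0, 0, 0, 0, 0] [68, 66, 60, 50, 40, 30] 100000 64706 64706 670588 94118 5882 0 29412
    70588 35294 35294) (.S 5 5 (.S 5 2 (.S 5 1 (.S 5 0 (.E 2) (.E 9)) (.E 9)) (.S 5 4 (.S 5 3 (.E
    9) (.E 9)) (.L 1 1 [10, 12, 14, 16, 16] [30, 20, 0, 0, 0, 0] [68, 66, 60, 50, 40, 30] 100000
    50000 50000 700000 0 0 0 100000 16667 0 16667))) (.E 2))) (.S 5 5 (.S 5 2 (.S 5 1 (.S 5 0 (.E
    2) (.E 9)) (.E 9)) (.S 5 4 (.S 5 3 (.E 9) (.E 9)) (.L 1 1 [10, 12, 14, 16, 16] [40, 30, 20, 0,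
    0, 0] [68, 66, 60, 50, 40, 30] 100000 50000 50000 700000 0 0 0 100000 16667 0 16667))) (.E 2)))
    (.S 4 3 (.S 5 5 (.S 5 2 (.S 5 1 (.S 5 0 (.E 2) (.E 9)) (.E 9)) (.S 5 4 (.S 5 3 (.E 9) (.E 9))
    (.E 9))) (.E 2)) (.S 5 5 (.S 5 2 (.L 1 1 [10, 12, 14, 16, 16] [56, 50, 40, 30, 20, 0] [50, 40,
    30, 0, 0, 0] 100000 50000 50000 700000 0 0 100000 0 0 16667 16667) (.S 5 4 (.S 5 3 (.L 1 1 [10,
    12, 14, 16, 16] [56, 50, 40, 30, 20, 0] [60, 50, 40, 30, 0, 0] 100000 50000 50000 700000 0 0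
    100000 0 0 16667 16667) (.E 9)) (.L 1 1 [10, 12, 14, 16, 16] [56, 50, 40, 30, 20, 0] [68, 66,
    60, 50, 40, 30] 100000 100000 100000 400000 0 0 100000 100000 0 0 0))) (.E 2)))) (.E 2))) (.S 3
    6 (.S 4 4 (.S 4 2 (.S 4 1 (.S 4 0 (.E 2) (.S 5 6 (.S 5 3 (.E 2) (.S 5 5 (.S 5 4 (.E 2) (.E 9))
    (.L 1 1 [10, 12, 14, 16, 16] [30, 20, 0, 0, 0, 0] [82, 80, 78, 72, 62, 52] 100000 100000 100000
    400000 100000 0 0 100000 16667 0 16667))) (.E 2))) (.S 5 6 (.S 5 3 (.E 2) (.S 5 5 (.S 5 4 (.E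
    2) (.E 9)) (.L 1 1 [10, 12, 14, 16, 16] [40, 30, 20, 0, 0, 0] [82, 80, 78, 72, 62, 52] 100000
    50000 50000 700000 0 0 0 100000 16667 0 16667))) (.E 2))) (.S 4 3 (.S 5 6 (.S 5 3 (.E 2) (.S 5
    5 (.S 5 4 (.E 2) (.E 9)) (.E 9))) (.E 2)) (.L 1 1 [10, 12, 14, 16, 16] [56, 50, 40, 30, 20, 0]
    [82, 80, 78, 72, 62, 52] 100000 100000 100000 400000 0 0 100000 100000 0 0 0))) (.E 2)) (.E
    1)))) (.E 1)) (.E 1))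

lemma s20_21_4_4_3 : BlkD.treeX d20_21_4_4 (BlkD.exF 4 4 x20_21_4_4) t20_21_4_4_3
    (BlkD.upd (BlkD.upd (BlkD.upd (fun _ => 0) 0 1) 1 3) 1 4)
    (BlkD.upd (BlkD.upd (BlkD.upd (BlkD.upd (BlkD.upd (BlkD.upd (BlkD.upd (BlkD.upd (BlkD.upd (BlkD.upd (fun _ => 21) 0 4) 2 4) 0 2) 0 1) 1 20) 1 10) 1 5) 1 4) 2 2) 2 1) = true := by
  decide +kernel

lemma n20_21_4_4_3 {n : ℕ} (hn : 6 ≤ n) : BlkD.NdX d20_21_4_4 (BlkD.exF 4 4 x20_21_4_4) n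
    (BlkD.upd (BlkD.upd (BlkD.upd (fun _ => 0) 0 1) 1 3) 1 4)
    (BlkD.upd (BlkD.upd (BlkD.upd (BlkD.upd (BlkD.upd (BlkD.upd (BlkD.upd (BlkD.upd (BlkD.upd (BlkD.upd (fun _ => 21) 0 4) 2 4) 0 2) 0 1) 1 20) 1 10) 1 5) 1 4) 2 2) 2 1) :=
  BlkD.NdX.tree s20_21_4_4_3 ok20_21_4_4 (by decide) hn

/-- a subtree -/
def t20_21_4_4_4 : BlkD.Tr :=
  .S 3 14 (.S 3 7 (.S 3 3 (.S 3 1 (.L 1 1 [10, 12, 14, 16, 16] [56, 50, 40, 30, 20, 0] [] 100000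
    32144 32144 800000 0 0 0 0 0 0 28571) (.S 3 2 (.L 1 1 [10, 12, 14, 16, 16] [56, 50, 40, 30, 20,
    0] [30, 20, 10, 0, 0, 0] 100000 32144 32144 900000 0 0 0 0 0 0 28571) (.S 4 4 (.S 4 2 (.S 4 1
    (.S 4 0 (.L 1 1 [10, 12, 14, 16, 16] [20, 0, 0, 0, 0, 0] [48, 38, 28, 18, 0, 0] 100000 33333
    33332 866668 33333 0 0 33333 62500 33333 29167) (.S 5 3 (.S 5 1 (.S 5 0 (.L 5 5 [4, 4, 4, 5, 6]
    [30, 20, 0, 0, 0, 0] [18, 0, 0, 0, 0, 0] 100000 17046 17046 963637 22727 0 22727 0 31818 77273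
    31818) (.E 9)) (.S 5 2 (.E 9) (.L 5 5 [4, 4, 4, 5, 6] [30, 20, 0, 0, 0, 0] [48, 38, 28, 18, 0,
    0] 100000 31250 31250 875000 0 0 0 62500 62500 0 25000))) (.E 2))) (.S 5 3 (.S 5 1 (.S 5 0 (.L
    5 5 [4, 4, 4, 5, 6] [40, 30, 20, 0, 0, 0] [18, 0, 0, 0, 0, 0] 100000 25001 25001 900000 0 0
    50000 0 0 78571 28571) (.E 9)) (.S 5 2 (.E 9) (.L 5 5 [4, 4, 4, 5, 6] [40, 30, 20, 0, 0, 0]
    [48, 38, 28, 18, 0, 0] 100000 31250 31250 875000 0 0 0 62500 62500 0 25000))) (.E 2))) (.S 4 3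
    (.S 5 3 (.S 5 1 (.L 5 5 [4, 4, 4, 5, 6] [50, 40, 30, 20, 0, 0] [28, 18, 0, 0, 0, 0] 100000
    31250 31250 875000 0 0 62500 0 0 62500 25000) (.S 5 2 (.L 5 5 [4, 4, 4, 5, 6] [50, 40, 30, 20,
    0, 0] [38, 28, 18, 0, 0, 0] 100000 31250 31250 875000 0 0 62500 0 0 62500 25000) (.E 9))) (.E
    2)) (.L 5 5 [4, 4, 4, 5, 6] [56, 50, 40, 30, 20, 0] [48, 38, 28, 18, 0, 0] 100000 40000 40000
    820000 0 0 60000 20000 0 40000 20000))) (.E 2)))) (.S 3 5 (.S 3 4 (.S 4 4 (.S 4 2 (.S 4 1 (.S 4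
    0 (.L 2 2 [6, 8, 9, 10, 12] [20, 0, 0, 0, 0, 0] [64, 58, 48, 38, 28, 0] 100000 53847 53847
    684616 100000 0 0 7692 42308 92308 42308) (.S 5 4 (.S 5 2 (.S 5 1 (.E 2) (.E 9)) (.S 5 3 (.E 9)
    (.E 9))) (.E 2))) (.S 5 4 (.S 5 2 (.S 5 1 (.E 2) (.E 9)) (.S 5 3 (.E 9) (.E 9))) (.E 2))) (.S 4
    3 (.S 5 4 (.S 5 2 (.S 5 1 (.E 2) (.E 9)) (.S 5 3 (.E 9) (.E 9))) (.E 2)) (.S 5 4 (.S 5 2 (.L 2
    2 [6, 8, 9, 10, 12] [56, 50, 40, 30, 20, 0] [48, 38, 28, 0, 0, 0] 100000 50000 50000 700000 0 0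
    100000 0 0 16667 16667) (.S 5 3 (.L 2 2 [6, 8, 9, 10, 12] [56, 50, 40, 30, 20, 0] [58, 48, 38,
    28, 0, 0] 100000 50000 50000 700000 0 0 100000 0 0 16667 16667) (.E 9))) (.E 2)))) (.E 2)) (.E
    1)) (.E 1))) (.E 1)) (.E 1)

lemma s20_21_4_4_4 : BlkD.treeX d20_21_4_4 (BlkD.exF 4 4 x20_21_4_4) t20_21_4_4_4
    (BlkD.upd (BlkD.upd (BlkD.upd (BlkD.upd (fun _ => 0) 0 1) 1 3) 1 4) 2 2)
    (BlkD.upd (BlkD.upd (BlkD.upd (BlkD.upd (BlkD.upd (BlkD.upd (BlkD.upd (BlkD.upd (BlkD.upd (fun _ => 21) 0 4) 2 4) 0 2) 0 1) 1 20) 1 10) 1 5) 1 4) 2 2) = true := by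
  decide +kernel

lemma n20_21_4_4_4 {n : ℕ} (hn : 6 ≤ n) : BlkD.NdX d20_21_4_4 (BlkD.exF 4 4 x20_21_4_4) n
    (BlkD.upd (BlkD.upd (BlkD.upd (BlkD.upd (fun _ => 0) 0 1) 1 3) 1 4) 2 2)
    (BlkD.upd (BlkD.upd (BlkD.upd (BlkD.upd (BlkD.upd (BlkD.upd (BlkD.upd (BlkD.upd (BlkD.upd (fun _ => 21) 0 4) 2 4) 0 2) 0 1) 1 20) 1 10) 1 5) 1 4) 2 2) :=
  BlkD.NdX.tree s20_21_4_4_4 ok20_21_4_4 (by decide) hn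

/-- a subtree -/
def t20_21_4_4_5 : BlkD.Tr :=
  .S 2 3 (.S 3 13 (.S 3 6 (.S 3 3 (.S 3 1 (.L 2 2 [6, 8, 9, 10, 12] [56, 50, 40, 30, 20, 0] []
    100000 32144 32144 900000 0 0 0 0 0 0 28571) (.S 3 2 (.S 4 4 (.S 4 2 (.S 4 1 (.S 4 0 (.L 2 2
    [6, 8, 9, 10, 12] [20, 0, 0, 0, 0, 0] [34, 24, 14, 0, 0, 0] 100000 43750 43750 750000 81250 0 0
    6250 50000 87500 43750) (.S 5 2 (.S 5 1 (.L 5 5 [4, 4, 4, 5, 6] [30, 20, 0, 0, 0, 0] [24, 14,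
    0, 0, 0, 0] 100000 17046 17046 963637 22727 0 22727 0 31818 77273 31818) (.E 9)) (.E 2))) (.S 5
    2 (.S 5 1 (.L 5 5 [4, 4, 4, 5, 6] [40, 30, 20, 0, 0, 0] [24, 14, 0, 0, 0, 0] 100000 25001 25001
    900000 0 0 50000 0 0 78571 28571) (.E 9)) (.E 2))) (.L 5 5 [4, 4, 4, 5, 6] [56, 50, 40, 30, 20,
    0] [34, 24, 14, 0, 0, 0] 100000 31250 31250 875000 0 0 62500 0 0 62500 25000)) (.E 2)) (.S 4 4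
    (.S 4 2 (.S 4 1 (.S 4 0 (.L 5 5 [4, 4, 4, 5, 6] [20, 0, 0, 0, 0, 0] [54, 44, 34, 24, 0, 0]
    100000 50001 50001 700000 100000 0 0 0 100000 33333 33333) (.S 5 3 (.S 5 1 (.E 2) (.S 5 2 (.E
    9) (.E 9))) (.E 2))) (.S 5 3 (.S 5 1 (.E 2) (.S 5 2 (.E 9) (.E 9))) (.E 2))) (.S 4 3 (.S 5 3
    (.S 5 1 (.E 2) (.S 5 2 (.E 9) (.E 9))) (.E 2)) (.L 5 5 [4, 4, 4, 5, 6] [56, 50, 40, 30, 20, 0]
    [54, 44, 34, 24, 0, 0] 100000 50000 50000 700000 0 0 100000 0 0 16667 16667))) (.E 2)))) (.E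
    1)) (.E 1)) (.E 1)) (.L 5 5 [4, 4, 4, 5, 6] [56, 50, 40, 30, 20, 0] [] 100000 22657 22657
    943750 20313 0 25000 0 9375 100000 34375)

lemma s20_21_4_4_5 : BlkD.treeX d20_21_4_4 (BlkD.exF 4 4 x20_21_4_4) t20_21_4_4_5
    (BlkD.upd (BlkD.upd (BlkD.upd (BlkD.upd (fun _ => 0) 0 1) 1 3) 1 4) 2 3)
    (BlkD.upd (BlkD.upd (BlkD.upd (BlkD.upd (BlkD.upd (BlkD.upd (BlkD.upd (BlkD.upd (fun _ => 21) 0 4) 2 4) 0 2) 0 1) 1 20) 1 10) 1 5) 1 4) = true := by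
  decide +kernel

lemma n20_21_4_4_5 {n : ℕ} (hn : 6 ≤ n) : BlkD.NdX d20_21_4_4 (BlkD.exF 4 4 x20_21_4_4) n
    (BlkD.upd (BlkD.upd (BlkD.upd (BlkD.upd (fun _ => 0) 0 1) 1 3) 1 4) 2 3)
    (BlkD.upd (BlkD.upd (BlkD.upd (BlkD.upd (BlkD.upd (BlkD.upd (BlkD.upd (BlkD.upd (fun _ => 21) 0 4) 2 4) 0 2) 0 1) 1 20) 1 10) 1 5) 1 4) :=
  BlkD.NdX.tree s20_21_4_4_5 ok20_21_4_4 (by decide) hn

/-- a subtree -/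
def t20_21_4_4_6 : BlkD.Tr :=
  .S 2 0 (.L 5 5 [4, 4, 4, 5, 6] [68, 66, 60, 50, 40, 30] [] 100000 66667 66667 600001 0 0 33333
    100000 0 0 6667) (.S 3 14 (.S 3 7 (.S 3 3 (.S 3 1 (.L 5 5 [4, 4, 4, 5, 6] [68, 66, 60, 50, 40,
    30] [] 100000 32144 32144 800000 0 0 0 0 0 0 28571) (.S 3 2 (.L 5 5 [4, 4, 4, 5, 6] [68, 66,
    60, 50, 40, 30] [26, 16, 6, 0, 0, 0] 100000 25000 25000 883784 0 8108 27027 8108 72973 0 29730)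
    (.S 4 5 (.S 4 2 (.L 5 5 [4, 4, 4, 5, 6] [50, 40, 30, 0, 0, 0] [42, 32, 22, 12, 0, 0] 100000
    25000 24999 931819 0 22727 0 22727 100000 0 31818) (.S 4 4 (.S 4 3 (.L 5 5 [4, 4, 4, 5, 6] [60,
    50, 40, 30, 0, 0] [42, 32, 22, 12, 0, 0] 100000 25000 24999 944444 0 13889 13889 13889 86111 0
    30556) (.L 5 5 [4, 4, 4, 5, 6] [66, 60, 50, 40, 30, 0] [42, 32, 22, 12, 0, 0] 100000 31250
    31250 900000 0 0 50000 0 50000 0 25000)) (.L 5 5 [4, 4, 4, 5, 6] [68, 66, 60, 50, 40, 30] [42,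
    32, 22, 12, 0, 0] 100000 54167 54167 700000 0 0 100000 0 0 0 16667))) (.E 2)))) (.S 3 5 (.S 3 4
    (.S 4 5 (.S 4 2 (.S 4 1 (.S 4 0 (.E 2) (.S 5 4 (.S 5 2 (.S 5 1 (.S 5 0 (.L 5 5 [4, 4, 4, 5, 6]
    [40, 30, 0, 0, 0, 0] [20, 0, 0, 0, 0, 0] 100000 100000 99999 400000 100000 100000 0 0 14286
    28571 14286) (.E 9)) (.E 9)) (.S 5 3 (.E 9) (.L 5 5 [4, 4, 4, 5, 6] [40, 30, 0, 0, 0, 0] [56,
    50, 40, 30, 20, 0] 100000 50000 50000 700000 0 0 0 100000 16667 0 16667))) (.E 2))) (.S 5 4 (.S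
    5 2 (.S 5 1 (.S 5 0 (.L 5 5 [4, 4, 4, 5, 6] [50, 40, 30, 0, 0, 0] [20, 0, 0, 0, 0, 0] 100000
    50000 50000 700000 0 100000 0 0 60000 60000 20000) (.E 9)) (.E 9)) (.S 5 3 (.E 9) (.L 5 5 [4,
    4, 4, 5, 6] [50, 40, 30, 0, 0, 0] [56, 50, 40, 30, 20, 0] 100000 50000 50000 700000 0 0 0
    100000 16667 0 16667))) (.E 2))) (.S 4 4 (.S 4 3 (.S 5 4 (.S 5 2 (.S 5 1 (.S 5 0 (.L 1 1 [10,
    12, 14, 16, 16] [60, 50, 40, 30, 0, 0] [20, 0, 0, 0, 0, 0] 100000 100000 100000 400000 0 100000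
    100000 0 0 16667 16667) (.E 9)) (.E 9)) (.S 5 3 (.E 9) (.L 1 1 [10, 12, 14, 16, 16] [60, 50,
    40, 30, 0, 0] [56, 50, 40, 30, 20, 0] 100000 50000 50000 700000 0 0 0 100000 16667 0 16667)))
    (.E 2)) (.S 5 4 (.S 5 2 (.S 5 1 (.S 5 0 (.L 1 1 [10, 12, 14, 16, 16] [66, 60, 50, 40, 30, 0]
    [20, 0, 0, 0, 0, 0] 100000 120000 50000 0 0 105000 170000 0 0 16667 16667) (.E 9)) (.E 9)) (.S
    5 3 (.E 9) (.E 9))) (.E 2))) (.S 5 4 (.S 5 2 (.L 1 1 [10, 12, 14, 16, 16] [68, 66, 60, 50, 40,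
    30] [40, 30, 20, 0, 0, 0] 100000 50000 50000 700000 0 0 100000 0 0 16667 16667) (.S 5 3 (.E 9)
    (.L 1 1 [10, 12, 14, 16, 16] [68, 66, 60, 50, 40, 30] [56, 50, 40, 30, 20, 0] 100000 100000
    100000 400000 0 0 100000 100000 0 0 0))) (.E 2)))) (.E 2)) (.S 4 5 (.S 4 2 (.S 4 1 (.S 4 0 (.E
    2) (.S 5 5 (.S 5 2 (.L 5 5 [4, 4, 4, 5, 6] [40, 30, 0, 0, 0, 0] [50, 40, 30, 0, 0, 0] 100000
    125000 125000 300000 100000 100000 0 100000 0 0 0) (.S 5 4 (.S 5 3 (.E 9) (.L 1 1 [10, 12, 14,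
    16, 16] [40, 30, 0, 0, 0, 0] [66, 60, 50, 40, 30, 0] 100000 100000 100000 400000 100000 0 0
    100000 16667 0 16667)) (.L 1 1 [10, 12, 14, 16, 16] [40, 30, 0, 0, 0, 0] [68, 66, 60, 50, 40,
    30] 100000 100000 100000 400000 100000 0 0 100000 16667 0 16667))) (.E 2))) (.S 5 5 (.S 5 2 (.S
    5 1 (.L 5 5 [4, 4, 4, 5, 6] [50, 40, 30, 0, 0, 0] [40, 30, 0, 0, 0, 0] 100000 125000 125000
    300000 100000 100000 100000 0 0 0 0) (.E 9)) (.S 5 4 (.S 5 3 (.E 9) (.E 9)) (.L 5 5 [4, 4, 4,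
    5, 6] [50, 40, 30, 0, 0, 0] [68, 66, 60, 50, 40, 30] 100000 50000 50000 700000 0 0 0 100000
    16667 0 16667))) (.E 2))) (.S 4 4 (.S 4 3 (.S 5 5 (.S 5 2 (.S 5 1 (.S 5 0 (.E 2) (.E 9)) (.E
    9)) (.S 5 4 (.S 5 3 (.E 9) (.E 9)) (.L 5 5 [4, 4, 4, 5, 6] [60, 50, 40, 30, 0, 0] [68, 66, 60,
    50, 40, 30] 100000 100000 100000 400000 0 0 100000 100000 0 0 0))) (.E 2)) (.S 5 5 (.S 5 2 (.S
    5 1 (.L 1 1 [10, 12, 14, 16, 16] [66, 60, 50, 40, 30, 0] [40, 30, 0, 0, 0, 0] 100000 100000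
    100000 400000 0 100000 100000 0 0 16667 16667) (.E 9)) (.S 5 4 (.S 5 3 (.E 9) (.E 9)) (.E 9)))
    (.E 2))) (.S 5 5 (.S 5 2 (.L 1 1 [10, 12, 14, 16, 16] [68, 66, 60, 50, 40, 30] [50, 40, 30, 0,
    0, 0] 100000 50000 50000 700000 0 0 100000 0 0 16667 16667) (.S 5 4 (.S 5 3 (.L 1 1 [10, 12,
    14, 16, 16] [68, 66, 60, 50, 40, 30] [60, 50, 40, 30, 0, 0] 100000 100000 100000 400000 0 0
    100000 100000 0 0 0) (.E 9)) (.L 1 1 [10, 12, 14, 16, 16] [68, 66, 60, 50, 40, 30] [68, 66, 60,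
    50, 40, 30] 100000 100000 100000 400000 0 0 100000 100000 0 0 0))) (.E 2)))) (.E 2))) (.E 2)))
    (.E 1)) (.E 1))

lemma s20_21_4_4_6 : BlkD.treeX d20_21_4_4 (BlkD.exF 4 4 x20_21_4_4) t20_21_4_4_6
    (BlkD.upd (BlkD.upd (BlkD.upd (fun _ => 0) 0 1) 1 3) 1 5)
    (BlkD.upd (BlkD.upd (BlkD.upd (BlkD.upd (BlkD.upd (BlkD.upd (BlkD.upd (BlkD.upd (BlkD.upd (fun _ => 21) 0 4) 2 4) 0 2) 0 1) 1 20) 1 10) 1 5) 2 2) 2 1) = true := by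
  decide +kernel

lemma n20_21_4_4_6 {n : ℕ} (hn : 6 ≤ n) : BlkD.NdX d20_21_4_4 (BlkD.exF 4 4 x20_21_4_4) n
    (BlkD.upd (BlkD.upd (BlkD.upd (fun _ => 0) 0 1) 1 3) 1 5)
    (BlkD.upd (BlkD.upd (BlkD.upd (BlkD.upd (BlkD.upd (BlkD.upd (BlkD.upd (BlkD.upd (BlkD.upd (fun _ => 21) 0 4) 2 4) 0 2) 0 1) 1 20) 1 10) 1 5) 2 2) 2 1) :=
  BlkD.NdX.tree s20_21_4_4_6 ok20_21_4_4 (by decide) hn

/-- a subtree -/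
def t20_21_4_4_7 : BlkD.Tr :=
  .S 3 13 (.S 3 6 (.S 3 3 (.S 3 1 (.L 1 1 [10, 12, 14, 16, 16] [68, 66, 60, 50, 40, 30] [] 100000
    25467 25467 896274 1863 0 26398 18634 73602 1863 28571) (.S 3 2 (.S 4 5 (.S 4 2 (.L 5 5 [4, 4,
    4, 5, 6] [50, 40, 30, 0, 0, 0] [30, 20, 10, 0, 0, 0] 100000 20834 20834 949999 16667 0 16667
    16667 83333 16667 33333) (.S 4 4 (.S 4 3 (.L 5 5 [4, 4, 4, 5, 6] [60, 50, 40, 30, 0, 0] [30,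
    20, 10, 0, 0, 0] 100000 20834 20834 949999 16667 0 16667 16667 83333 16667 33333) (.L 5 5 [4,
    4, 4, 5, 6] [66, 60, 50, 40, 30, 0] [30, 20, 10, 0, 0, 0] 100000 33334 33334 877777 0 0 55556
    11111 44444 11111 22222)) (.L 5 5 [4, 4, 4, 5, 6] [68, 66, 60, 50, 40, 30] [30, 20, 10, 0, 0,
    0] 100000 53846 53845 692308 0 0 100000 7692 0 7692 15385))) (.E 2)) (.S 4 5 (.S 4 2 (.S 4 1
    (.S 4 0 (.E 2) (.S 5 3 (.S 5 1 (.S 5 0 (.L 2 2 [6, 8, 9, 10, 12] [40, 30, 0, 0, 0, 0] [18, 0,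
    0, 0, 0, 0] 100000 54546 54546 681818 100000 0 18182 0 40909 81818 40909) (.E 9)) (.S 5 2 (.E
    9) (.E 9))) (.E 2))) (.S 5 3 (.S 5 1 (.S 5 0 (.L 2 2 [6, 8, 9, 10, 12] [50, 40, 30, 0, 0, 0]
    [18, 0, 0, 0, 0, 0] 100000 58334 58334 733334 100000 0 33333 0 33333 66667 33333) (.E 9)) (.S 5
    2 (.E 9) (.E 9))) (.E 2))) (.S 4 4 (.S 4 3 (.S 5 3 (.S 5 1 (.S 5 0 (.E 9) (.E 9)) (.S 5 2 (.E
    9) (.E 9))) (.E 2)) (.S 5 3 (.S 5 1 (.S 5 0 (.L 2 2 [6, 8, 9, 10, 12] [66, 60, 50, 40, 30, 0]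
    [18, 0, 0, 0, 0, 0] 100000 50000 50000 700000 0 0 100000 0 0 16667 16667) (.E 9)) (.S 5 2 (.E
    9) (.E 9))) (.E 2))) (.S 5 3 (.S 5 1 (.L 2 2 [6, 8, 9, 10, 12] [68, 66, 60, 50, 40, 30] [28,
    18, 0, 0, 0, 0] 100000 50000 50000 700000 0 0 100000 0 0 16667 16667) (.S 5 2 (.L 2 2 [6, 8, 9,
    10, 12] [68, 66, 60, 50, 40, 30] [38, 28, 18, 0, 0, 0] 100000 50000 50000 700000 0 0 100000 0 0
    16667 16667) (.E 9))) (.E 2)))) (.E 2)))) (.S 3 5 (.S 3 4 (.S 4 5 (.S 4 2 (.S 4 1 (.S 4 0 (.E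
    2) (.S 5 4 (.S 5 2 (.S 5 1 (.E 2) (.E 9)) (.S 5 3 (.E 9) (.L 2 2 [6, 8, 9, 10, 12] [40, 30, 0,
    0, 0, 0] [64, 58, 48, 38, 28, 0] 100000 100000 100000 400000 100000 0 0 100000 16667 0 16667)))
    (.E 2))) (.S 5 4 (.S 5 2 (.S 5 1 (.E 2) (.E 9)) (.S 5 3 (.E 9) (.L 2 2 [6, 8, 9, 10, 12] [50,
    40, 30, 0, 0, 0] [64, 58, 48, 38, 28, 0] 100000 125000 125000 300000 100000 0 100000 100000 0 0
    0))) (.E 2))) (.S 4 4 (.S 4 3 (.S 5 4 (.S 5 2 (.S 5 1 (.E 2) (.E 9)) (.S 5 3 (.E 9) (.E 9)))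
    (.E 2)) (.S 5 4 (.S 5 2 (.S 5 1 (.E 2) (.E 9)) (.S 5 3 (.E 9) (.E 9))) (.E 2))) (.S 5 4 (.S 5 2
    (.L 2 2 [6, 8, 9, 10, 12] [68, 66, 60, 50, 40, 30] [48, 38, 28, 0, 0, 0] 100000 50000 50000
    700000 0 0 100000 0 0 16667 16667) (.S 5 3 (.L 2 2 [6, 8, 9, 10, 12] [68, 66, 60, 50, 40, 30]
    [58, 48, 38, 28, 0, 0] 100000 100000 100000 400000 0 0 100000 100000 0 0 0) (.E 9))) (.E 2))))
    (.E 2)) (.E 1)) (.E 1))) (.E 1)) (.E 1)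

lemma s20_21_4_4_7 : BlkD.treeX d20_21_4_4 (BlkD.exF 4 4 x20_21_4_4) t20_21_4_4_7
    (BlkD.upd (BlkD.upd (BlkD.upd (BlkD.upd (fun _ => 0) 0 1) 1 3) 1 5) 2 2)
    (BlkD.upd (BlkD.upd (BlkD.upd (BlkD.upd (BlkD.upd (BlkD.upd (BlkD.upd (BlkD.upd (fun _ => 21) 0 4) 2 4) 0 2) 0 1) 1 20) 1 10) 1 5) 2 2) = true := by
  decide +kernel

lemma n20_21_4_4_7 {n : ℕ} (hn : 6 ≤ n) : BlkD.NdX d20_21_4_4 (BlkD.exF 4 4 x20_21_4_4) n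
    (BlkD.upd (BlkD.upd (BlkD.upd (BlkD.upd (fun _ => 0) 0 1) 1 3) 1 5) 2 2)
    (BlkD.upd (BlkD.upd (BlkD.upd (BlkD.upd (BlkD.upd (BlkD.upd (BlkD.upd (BlkD.upd (fun _ => 21) 0 4) 2 4) 0 2) 0 1) 1 20) 1 10) 1 5) 2 2) :=
  BlkD.NdX.tree s20_21_4_4_7 ok20_21_4_4 (by decide) hn

/-- a subtree -/
def t20_21_4_4_8 : BlkD.Tr :=
  .S 2 3 (.S 3 12 (.S 3 6 (.S 3 3 (.S 3 1 (.S 3 0 (.L 2 2 [6, 8, 9, 10, 12] [68, 66, 60, 50, 40,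
    30] [0, 0, 0, 0, 0, 0] 100000 25001 25001 882858 8571 0 31429 0 68571 8571 28571) (.S 4 5 (.S 4
    2 (.L 2 2 [6, 8, 9, 10, 12] [50, 40, 30, 0, 0, 0] [16, 6, 0, 0, 0, 0] 100000 25001 25001 900001
    33333 0 33333 0 66667 33333 33333) (.L 2 2 [6, 8, 9, 10, 12] [68, 66, 60, 50, 40, 30] [16, 6,
    0, 0, 0, 0] 100000 21154 21154 957692 0 0 42308 0 42308 42308 26923)) (.E 2))) (.S 3 2 (.S 4 5
    (.S 4 2 (.S 4 1 (.S 4 0 (.E 2) (.S 5 2 (.S 5 1 (.S 5 0 (.L 2 2 [6, 8, 9, 10, 12] [40, 30, 0, 0,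
    0, 0] [14, 0, 0, 0, 0, 0] 100000 54546 54546 681818 100000 0 18182 0 40909 81818 40909) (.E 9))
    (.E 9)) (.E 2))) (.S 5 2 (.S 5 1 (.S 5 0 (.L 2 2 [6, 8, 9, 10, 12] [50, 40, 30, 0, 0, 0] [14,
    0, 0, 0, 0, 0] 100000 58334 58334 733334 100000 0 33333 0 33333 66667 33333) (.E 9)) (.E 9))
    (.E 2))) (.S 4 4 (.S 4 3 (.S 5 2 (.S 5 1 (.S 5 0 (.L 5 5 [4, 4, 4, 5, 6] [60, 50, 40, 30, 0, 0]
    [14, 0, 0, 0, 0, 0] 100000 66667 66667 666666 66667 0 100000 0 0 66667 16667) (.E 9)) (.E 9))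
    (.E 2)) (.S 5 2 (.S 5 1 (.L 5 5 [4, 4, 4, 5, 6] [66, 60, 50, 40, 30, 0] [24, 14, 0, 0, 0, 0]
    100000 50000 50000 700000 0 0 100000 0 0 16667 16667) (.E 9)) (.E 2))) (.L 5 5 [4, 4, 4, 5, 6]
    [68, 66, 60, 50, 40, 30] [34, 24, 14, 0, 0, 0] 100000 50000 50000 700000 0 0 100000 0 0 16667
    16667))) (.E 2)) (.S 4 5 (.S 4 2 (.S 4 1 (.S 4 0 (.E 2) (.S 5 3 (.S 5 1 (.E 2) (.S 5 2 (.E 9)
    (.E 9))) (.E 2))) (.S 5 3 (.S 5 1 (.E 2) (.S 5 2 (.E 9) (.E 9))) (.E 2))) (.S 4 4 (.S 4 3 (.S 5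
    3 (.S 5 1 (.E 2) (.S 5 2 (.E 9) (.E 9))) (.E 2)) (.S 5 3 (.S 5 1 (.E 2) (.S 5 2 (.E 9) (.E 9)))
    (.E 2))) (.L 5 5 [4, 4, 4, 5, 6] [68, 66, 60, 50, 40, 30] [54, 44, 34, 24, 0, 0] 100000 50000
    50000 700000 0 0 100000 0 0 16667 16667))) (.E 2)))) (.E 1)) (.E 1)) (.E 1)) (.S 3 11 (.S 3 5
    (.S 3 2 (.S 3 1 (.S 3 0 (.L 5 5 [4, 4, 4, 5, 6] [68, 66, 60, 50, 40, 30] [0, 0, 0, 0, 0, 0]
    100000 13889 13888 988888 13889 0 13889 0 44444 58333 30556) (.S 4 5 (.S 4 2 (.L 2 2 [6, 8, 9,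
    10, 12] [50, 40, 30, 0, 0, 0] [18, 8, 0, 0, 0, 0] 100000 58334 58334 733334 100000 0 33333 0
    66667 33333 33333) (.S 4 4 (.S 4 3 (.S 5 1 (.S 5 0 (.L 5 5 [4, 4, 4, 5, 6] [60, 50, 40, 30, 0,
    0] [8, 0, 0, 0, 0, 0] 100000 66667 66667 666666 66667 0 100000 0 0 66667 16667) (.E 9)) (.E 2))
    (.L 5 5 [4, 4, 4, 5, 6] [66, 60, 50, 40, 30, 0] [18, 8, 0, 0, 0, 0] 100000 50000 50000 700000 0
    0 100000 0 0 16667 16667)) (.L 5 5 [4, 4, 4, 5, 6] [68, 66, 60, 50, 40, 30] [18, 8, 0, 0, 0, 0]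
    100000 80000 0 200000 0 0 180000 0 0 0 12000))) (.E 2))) (.E 1)) (.E 1)) (.E 1)) (.E 1))

lemma s20_21_4_4_8 : BlkD.treeX d20_21_4_4 (BlkD.exF 4 4 x20_21_4_4) t20_21_4_4_8
    (BlkD.upd (BlkD.upd (BlkD.upd (BlkD.upd (fun _ => 0) 0 1) 1 3) 1 5) 2 3)
    (BlkD.upd (BlkD.upd (BlkD.upd (BlkD.upd (BlkD.upd (BlkD.upd (BlkD.upd (fun _ => 21) 0 4) 2 4) 0 2) 0 1) 1 20) 1 10) 1 5) = true := by
  decide +kernel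

lemma n20_21_4_4_8 {n : ℕ} (hn : 6 ≤ n) : BlkD.NdX d20_21_4_4 (BlkD.exF 4 4 x20_21_4_4) n
    (BlkD.upd (BlkD.upd (BlkD.upd (BlkD.upd (fun _ => 0) 0 1) 1 3) 1 5) 2 3)
    (BlkD.upd (BlkD.upd (BlkD.upd (BlkD.upd (BlkD.upd (BlkD.upd (BlkD.upd (fun _ => 21) 0 4) 2 4) 0 2) 0 1) 1 20) 1 10) 1 5) :=
  BlkD.NdX.tree s20_21_4_4_8 ok20_21_4_4 (by decide) hn

/-- a subtree -/
def t20_21_4_4_9 : BlkD.Tr :=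
  .S 1 8 (.S 1 7 (.S 1 6 (.S 2 2 (.S 2 1 (.S 2 0 (.L 5 5 [4, 4, 4, 5, 6] [82, 80, 78, 72, 62, 52]
    [] 100000 116667 50000 33332 0 0 166667 100000 0 0 0) (.S 3 13 (.S 3 6 (.S 3 3 (.L 5 5 [4, 4,
    4, 5, 6] [82, 80, 78, 72, 62, 52] [] 100000 54167 54167 700000 0 0 100000 0 0 0 16667) (.S 3 5
    (.S 3 4 (.S 4 6 (.S 4 3 (.E 2) (.S 4 5 (.S 4 4 (.E 2) (.S 5 4 (.S 5 2 (.S 5 1 (.S 5 0 (.E 2)
    (.E 9)) (.E 9)) (.S 5 3 (.E 9) (.L 5 5 [4, 4, 4, 5, 6] [80, 78, 72, 62, 52, 42] [56, 50, 40,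
    30, 20, 0] 100000 100000 100000 400000 0 0 100000 100000 0 0 0))) (.E 2))) (.S 5 4 (.S 5 2 (.L
    5 5 [4, 4, 4, 5, 6] [82, 80, 78, 72, 62, 52] [40, 30, 20, 0, 0, 0] 100000 50000 50000 700000 0
    0 100000 0 0 16667 16667) (.S 5 3 (.E 9) (.L 5 5 [4, 4, 4, 5, 6] [82, 80, 78, 72, 62, 52] [56,
    50, 40, 30, 20, 0] 100000 100000 100000 400000 0 0 100000 100000 0 0 0))) (.E 2)))) (.E 2)) (.E
    2)) (.E 2))) (.E 1)) (.E 1))) (.S 3 12 (.S 3 6 (.S 3 3 (.S 3 1 (.L 5 5 [4, 4, 4, 5, 6] [82, 80,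
    78, 72, 62, 52] [] 100000 66667 16667 400000 0 0 150000 0 0 0 16667) (.S 3 2 (.L 5 5 [4, 4, 4,
    5, 6] [82, 80, 78, 72, 62, 52] [30, 20, 10, 0, 0, 0] 100000 53846 53845 700000 0 0 100000 7692
    0 7692 15385) (.S 4 6 (.S 4 3 (.E 2) (.S 4 5 (.S 4 4 (.E 2) (.S 5 3 (.S 5 1 (.S 5 0 (.E 2) (.E
    9)) (.S 5 2 (.E 9) (.E 9))) (.E 2))) (.S 5 3 (.S 5 1 (.L 5 5 [4, 4, 4, 5, 6] [82, 80, 78, 72,
    62, 52] [28, 18, 0, 0, 0, 0] 100000 50000 50000 700000 0 0 100000 0 0 16667 16667) (.S 5 2 (.L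
    5 5 [4, 4, 4, 5, 6] [82, 80, 78, 72, 62, 52] [38, 28, 18, 0, 0, 0] 100000 50000 50000 700000 0
    0 100000 0 0 16667 16667) (.E 9))) (.E 2)))) (.E 2)))) (.E 2)) (.E 1)) (.E 1))) (.S 2 3 (.S 3
    11 (.S 3 5 (.S 3 2 (.S 3 1 (.L 5 5 [4, 4, 4, 5, 6] [82, 80, 78, 72, 62, 52] [] 100000 50000
    50000 716667 0 0 100000 0 0 16667 16667) (.S 4 6 (.S 4 3 (.E 2) (.S 4 5 (.S 4 4 (.E 2) (.S 5 2
    (.S 5 1 (.E 2) (.E 9)) (.E 2))) (.L 5 5 [4, 4, 4, 5, 6] [82, 80, 78, 72, 62, 52] [34, 24, 14,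
    0, 0, 0] 100000 50000 50000 700000 0 0 100000 0 0 16667 16667))) (.E 2))) (.E 2)) (.E 1)) (.E
    1)) (.L 5 5 [4, 4, 4, 5, 6] [82, 80, 78, 72, 62, 52] [] 100000 50000 50000 700000 0 0 100000 0
    0 16667 16667))) (.E 0)) (.E 0)) (.E 0)

lemma s20_21_4_4_9 : BlkD.treeX d20_21_4_4 (BlkD.exF 4 4 x20_21_4_4) t20_21_4_4_9
    (BlkD.upd (BlkD.upd (fun _ => 0) 0 1) 1 6)
    (BlkD.upd (BlkD.upd (BlkD.upd (BlkD.upd (BlkD.upd (BlkD.upd (fun _ => 21) 0 4) 2 4) 0 2) 0 1) 1 20) 1 10) = true := by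
  decide +kernel

lemma n20_21_4_4_9 {n : ℕ} (hn : 6 ≤ n) : BlkD.NdX d20_21_4_4 (BlkD.exF 4 4 x20_21_4_4) n
    (BlkD.upd (BlkD.upd (fun _ => 0) 0 1) 1 6)
    (BlkD.upd (BlkD.upd (BlkD.upd (BlkD.upd (BlkD.upd (BlkD.upd (fun _ => 21) 0 4) 2 4) 0 2) 0 1) 1 20) 1 10) :=
  BlkD.NdX.tree s20_21_4_4_9 ok20_21_4_4 (by decide) hn

/-- a subtree -/
def t20_21_4_4_10 : BlkD.Tr :=
  .E 0

lemma s20_21_4_4_10 : BlkD.treeX d20_21_4_4 (BlkD.exF 4 4 x20_21_4_4) t20_21_4_4_10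
    (BlkD.upd (BlkD.upd (fun _ => 0) 0 1) 1 11)
    (BlkD.upd (BlkD.upd (BlkD.upd (BlkD.upd (BlkD.upd (fun _ => 21) 0 4) 2 4) 0 2) 0 1) 1 20) = true := by
  decide +kernel

lemma n20_21_4_4_10 {n : ℕ} (hn : 6 ≤ n) : BlkD.NdX d20_21_4_4 (BlkD.exF 4 4 x20_21_4_4) n
    (BlkD.upd (BlkD.upd (fun _ => 0) 0 1) 1 11)
    (BlkD.upd (BlkD.upd (BlkD.upd (BlkD.upd (BlkD.upd (fun _ => 21) 0 4) 2 4) 0 2) 0 1) 1 20) :=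
  BlkD.NdX.tree s20_21_4_4_10 ok20_21_4_4 (by decide) hn

/-- a subtree -/
def t20_21_4_4_11 : BlkD.Tr :=
  .E 0

lemma s20_21_4_4_11 : BlkD.treeX d20_21_4_4 (BlkD.exF 4 4 x20_21_4_4) t20_21_4_4_11
    (BlkD.upd (BlkD.upd (fun _ => 0) 0 1) 1 21)
    (BlkD.upd (BlkD.upd (BlkD.upd (BlkD.upd (fun _ => 21) 0 4) 2 4) 0 2) 0 1) = true := by
  decide +kernel

lemma n20_21_4_4_11 {n : ℕ} (hn : 6 ≤ n) : BlkD.NdX d20_21_4_4 (BlkD.exF 4 4 x20_21_4_4) n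
    (BlkD.upd (BlkD.upd (fun _ => 0) 0 1) 1 21)
    (BlkD.upd (BlkD.upd (BlkD.upd (BlkD.upd (fun _ => 21) 0 4) 2 4) 0 2) 0 1) :=
  BlkD.NdX.tree s20_21_4_4_11 ok20_21_4_4 (by decide) hn

/-- a subtree -/
def t20_21_4_4_12 : BlkD.Tr :=
  .S 1 1 (.L 5 5 [4, 4, 4, 5, 6] [] [] 100000 31250 31250 900000 0 0 0 25000 0 25000 25000) (.S 2 2
    (.S 2 1 (.S 2 0 (.L 5 5 [4, 4, 4, 5, 6] [30, 20, 10, 0, 0, 0] [] 100000 53846 53845 592308 0 0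
    7692 100000 7692 0 15385) (.S 3 16 (.S 3 8 (.S 3 4 (.L 5 5 [4, 4, 4, 5, 6] [30, 20, 10, 0, 0,
    0] [] 100000 32144 32144 900000 0 0 0 0 0 0 28571) (.S 3 6 (.S 3 5 (.S 4 2 (.S 4 1 (.S 4 0 (.L
    5 5 [4, 4, 4, 5, 6] [10, 0, 0, 0, 0, 0] [68, 66, 60, 50, 40, 30] 100000 11364 11364 1013637 0
    9091 0 13636 54545 54545 31818) (.S 5 5 (.S 5 2 (.L 5 5 [4, 4, 4, 5, 6] [20, 10, 0, 0, 0, 0]
    [50, 40, 30, 0, 0, 0] 100000 19319 19319 954546 0 22727 0 22727 22727 77273 31818) (.L 5 5 [4,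
    4, 4, 5, 6] [20, 10, 0, 0, 0, 0] [68, 66, 60, 50, 40, 30] 100000 21154 21154 957692 0 0 0 42308
    42308 42308 26923)) (.E 2))) (.S 5 5 (.S 5 2 (.L 5 5 [4, 4, 4, 5, 6] [30, 20, 10, 0, 0, 0] [50,
    40, 30, 0, 0, 0] 100000 25001 25001 900000 0 0 50000 0 0 78571 28571) (.L 5 5 [4, 4, 4, 5, 6]
    [30, 20, 10, 0, 0, 0] [68, 66, 60, 50, 40, 30] 100000 29630 29630 914816 0 0 25926 33333 0
    66667 25926)) (.E 2))) (.E 2)) (.L 5 5 [4, 4, 4, 5, 6] [30, 20, 10, 0, 0, 0] [82, 80, 78, 72,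
    62, 52] 100000 53846 53845 700000 0 0 7692 100000 7692 0 15385)) (.E 1))) (.E 1)) (.E 1))) (.S
    3 15 (.S 3 7 (.S 3 3 (.L 5 5 [4, 4, 4, 5, 6] [30, 20, 10, 0, 0, 0] [] 100000 32144 32144 900000
    0 0 0 0 0 0 28571) (.S 3 5 (.S 3 4 (.S 4 2 (.S 4 1 (.L 5 5 [4, 4, 4, 5, 6] [20, 10, 0, 0, 0, 0]
    [64, 58, 48, 38, 28, 0] 100000 17708 17707 991669 2083 0 2083 33333 29167 66667 29167) (.L 5 5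
    [4, 4, 4, 5, 6] [30, 20, 10, 0, 0, 0] [64, 58, 48, 38, 28, 0] 100000 29630 29630 914816 0 0
    25926 33333 0 66667 25926)) (.E 2)) (.E 1)) (.E 1))) (.E 1)) (.E 1))) (.L 5 5 [4, 4, 4, 5, 6]
    [30, 20, 10, 0, 0, 0] [] 100000 20902 20902 965575 9016 0 25410 16393 16393 81967 31148))

lemma s20_21_4_4_12 : BlkD.treeX d20_21_4_4 (BlkD.exF 4 4 x20_21_4_4) t20_21_4_4_12
    (BlkD.upd (fun _ => 0) 0 2)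
    (BlkD.upd (BlkD.upd (BlkD.upd (BlkD.upd (BlkD.upd (BlkD.upd (BlkD.upd (fun _ => 21) 0 4) 2 4) 0 2) 1 19) 1 9) 1 4) 1 2) = true := by
  decide +kernel

lemma n20_21_4_4_12 {n : ℕ} (hn : 6 ≤ n) : BlkD.NdX d20_21_4_4 (BlkD.exF 4 4 x20_21_4_4) n
    (BlkD.upd (fun _ => 0) 0 2)
    (BlkD.upd (BlkD.upd (BlkD.upd (BlkD.upd (BlkD.upd (BlkD.upd (BlkD.upd (fun _ => 21) 0 4) 2 4) 0 2) 1 19) 1 9) 1 4) 1 2) :=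
  BlkD.NdX.tree s20_21_4_4_12 ok20_21_4_4 (by decide) hn

/-- a subtree -/
def t20_21_4_4_13 : BlkD.Tr :=
  .S 2 0 (.L 5 5 [4, 4, 4, 5, 6] [48, 38, 28, 18, 0, 0] [] 100000 66667 66667 600001 0 0 33333
    100000 0 0 6667) (.S 3 15 (.S 3 7 (.S 3 3 (.L 5 5 [4, 4, 4, 5, 6] [48, 38, 28, 18, 0, 0] []
    100000 32144 32144 900000 0 0 0 0 0 0 28571) (.S 3 5 (.S 3 4 (.S 4 3 (.S 4 1 (.S 4 0 (.L 5 5
    [4, 4, 4, 5, 6] [18, 0, 0, 0, 0, 0] [56, 50, 40, 30, 20, 0] 100000 23182 23182 939093 1818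
    19091 0 24545 98182 7273 31818) (.S 5 4 (.S 5 2 (.S 5 1 (.L 6 6 [4, 4, 4, 5, 5] [28, 18, 0, 0,
    0, 0] [30, 20, 0, 0, 0, 0] 100000 37500 37500 871429 0 50000 0 50000 50000 21429 21429) (.E 9))
    (.L 6 6 [4, 4, 4, 5, 5] [28, 18, 0, 0, 0, 0] [56, 50, 40, 30, 20, 0] 100000 31250 31250 875000
    0 0 0 62500 62500 0 25000)) (.E 2))) (.S 4 2 (.S 5 4 (.S 5 2 (.S 5 1 (.S 5 0 (.L 6 6 [4, 4, 4,
    5, 5] [38, 28, 18, 0, 0, 0] [20, 0, 0, 0, 0, 0] 100000 57143 57143 671428 0 100000 14286 0 0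
    100000 14286) (.E 9)) (.E 9)) (.L 6 6 [4, 4, 4, 5, 5] [38, 28, 18, 0, 0, 0] [56, 50, 40, 30,
    20, 0] 100000 31250 31250 875000 0 0 0 62500 62500 0 25000)) (.E 2)) (.S 5 4 (.S 5 2 (.L 6 6
    [4, 4, 4, 5, 5] [48, 38, 28, 18, 0, 0] [40, 30, 20, 0, 0, 0] 100000 31250 31250 875000 0 0
    62500 0 0 62500 25000) (.S 5 3 (.E 9) (.L 6 6 [4, 4, 4, 5, 5] [48, 38, 28, 18, 0, 0] [56, 50,
    40, 30, 20, 0] 100000 56250 56250 718750 0 0 56250 56250 0 0 12500))) (.E 2)))) (.E 2)) (.S 4 3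
    (.S 4 1 (.S 4 0 (.S 5 5 (.S 5 2 (.L 2 2 [6, 8, 9, 10, 12] [18, 0, 0, 0, 0, 0] [50, 40, 30, 0,
    0, 0] 100000 65000 65000 680000 0 100000 0 60000 40000 20000 20000) (.S 5 4 (.S 5 3 (.E 9) (.L
    2 2 [6, 8, 9, 10, 12] [18, 0, 0, 0, 0, 0] [66, 60, 50, 40, 30, 0] 100000 50000 50000 700000 0 0
    0 100000 16667 0 16667)) (.L 2 2 [6, 8, 9, 10, 12] [18, 0, 0, 0, 0, 0] [68, 66, 60, 50, 40, 30]
    100000 88889 0 111111 22222 0 0 188889 16667 0 16667))) (.E 2)) (.S 5 5 (.S 5 2 (.S 5 1 (.S 5 0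
    (.E 2) (.E 9)) (.E 9)) (.S 5 4 (.S 5 3 (.E 9) (.E 9)) (.L 2 2 [6, 8, 9, 10, 12] [28, 18, 0, 0,
    0, 0] [68, 66, 60, 50, 40, 30] 100000 50000 50000 700000 0 0 0 100000 16667 0 16667))) (.E 2)))
    (.S 4 2 (.S 5 5 (.S 5 2 (.S 5 1 (.S 5 0 (.E 2) (.E 9)) (.E 9)) (.S 5 4 (.S 5 3 (.E 9) (.E 9))
    (.L 2 2 [6, 8, 9, 10, 12] [38, 28, 18, 0, 0, 0] [68, 66, 60, 50, 40, 30] 100000 50000 50000
    700000 0 0 0 100000 16667 0 16667))) (.E 2)) (.S 5 5 (.S 5 2 (.S 5 1 (.S 5 0 (.E 2) (.E 9)) (.E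
    9)) (.S 5 4 (.S 5 3 (.E 9) (.E 9)) (.E 9))) (.E 2)))) (.E 2))) (.S 3 6 (.S 4 3 (.S 4 1 (.S 4 0
    (.E 2) (.S 5 6 (.S 5 3 (.E 2) (.S 5 5 (.S 5 4 (.E 2) (.E 9)) (.L 2 2 [6, 8, 9, 10, 12] [28, 18,
    0, 0, 0, 0] [82, 80, 78, 72, 62, 52] 100000 50000 50000 700000 0 0 0 100000 16667 0 16667)))
    (.E 2))) (.S 4 2 (.S 5 6 (.S 5 3 (.E 2) (.S 5 5 (.S 5 4 (.E 2) (.E 9)) (.L 2 2 [6, 8, 9, 10,
    12] [38, 28, 18, 0, 0, 0] [82, 80, 78, 72, 62, 52] 100000 50000 50000 700000 0 0 0 100000 16667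
    0 16667))) (.E 2)) (.S 5 6 (.S 5 3 (.E 2) (.S 5 5 (.S 5 4 (.E 2) (.E 9)) (.E 9))) (.E 2)))) (.E
    2)) (.E 1)))) (.E 1)) (.E 1))

lemma s20_21_4_4_13 : BlkD.treeX d20_21_4_4 (BlkD.exF 4 4 x20_21_4_4) t20_21_4_4_13
    (BlkD.upd (BlkD.upd (fun _ => 0) 0 2) 1 3)
    (BlkD.upd (BlkD.upd (BlkD.upd (BlkD.upd (BlkD.upd (BlkD.upd (BlkD.upd (BlkD.upd (BlkD.upd (fun _ => 21) 0 4) 2 4) 0 2) 1 19) 1 9) 1 4) 1 3) 2 2) 2 1) = true := by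
  decide +kernel

lemma n20_21_4_4_13 {n : ℕ} (hn : 6 ≤ n) : BlkD.NdX d20_21_4_4 (BlkD.exF 4 4 x20_21_4_4) n
    (BlkD.upd (BlkD.upd (fun _ => 0) 0 2) 1 3)
    (BlkD.upd (BlkD.upd (BlkD.upd (BlkD.upd (BlkD.upd (BlkD.upd (BlkD.upd (BlkD.upd (BlkD.upd (fun _ => 21) 0 4) 2 4) 0 2) 1 19) 1 9) 1 4) 1 3) 2 2) 2 1) :=
  BlkD.NdX.tree s20_21_4_4_13 ok20_21_4_4 (by decide) hn

/-- a subtree -/
def t20_21_4_4_14 : BlkD.Tr :=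
  .S 3 14 (.S 3 7 (.S 3 3 (.S 3 1 (.L 2 2 [6, 8, 9, 10, 12] [48, 38, 28, 18, 0, 0] [] 100000 32144
    32144 800000 0 0 0 0 0 0 28571) (.S 3 2 (.L 2 2 [6, 8, 9, 10, 12] [48, 38, 28, 18, 0, 0] [30,
    20, 10, 0, 0, 0] 100000 32144 32144 900000 0 0 0 0 0 0 28571) (.S 4 3 (.S 4 1 (.S 4 0 (.L 5 5
    [4, 4, 4, 5, 6] [18, 0, 0, 0, 0, 0] [48, 38, 28, 18, 0, 0] 100000 19959 19959 964706 6723 10924
    0 24370 93277 20168 33613) (.S 5 3 (.S 5 1 (.S 5 0 (.L 5 5 [4, 4, 4, 5, 6] [28, 18, 0, 0, 0, 0]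
    [18, 0, 0, 0, 0, 0] 100000 15000 15000 980000 0 20000 0 0 40000 74286 34286) (.E 9)) (.S 5 2
    (.E 9) (.L 5 5 [4, 4, 4, 5, 6] [28, 18, 0, 0, 0, 0] [48, 38, 28, 18, 0, 0] 100000 31250 31250
    875000 0 0 0 62500 62500 0 25000))) (.E 2))) (.S 4 2 (.S 5 3 (.S 5 1 (.S 5 0 (.L 5 5 [4, 4, 4,
    5, 6] [38, 28, 18, 0, 0, 0] [18, 0, 0, 0, 0, 0] 100000 25001 25001 900000 0 0 50000 0 0 78571
    28571) (.E 9)) (.S 5 2 (.E 9) (.L 5 5 [4, 4, 4, 5, 6] [38, 28, 18, 0, 0, 0] [48, 38, 28, 18, 0,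
    0] 100000 31250 31250 875000 0 0 0 62500 62500 0 25000))) (.E 2)) (.S 5 3 (.S 5 1 (.L 5 5 [4,
    4, 4, 5, 6] [48, 38, 28, 18, 0, 0] [28, 18, 0, 0, 0, 0] 100000 31250 31250 875000 0 0 62500 0 0
    62500 25000) (.S 5 2 (.L 5 5 [4, 4, 4, 5, 6] [48, 38, 28, 18, 0, 0] [38, 28, 18, 0, 0, 0]
    100000 31250 31250 875000 0 0 62500 0 0 62500 25000) (.E 9))) (.E 2)))) (.E 2)))) (.S 3 5 (.S 3
    4 (.S 4 3 (.S 4 1 (.S 4 0 (.S 5 4 (.S 5 2 (.S 5 1 (.E 2) (.E 9)) (.S 5 3 (.E 9) (.L 5 5 [4, 4,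
    4, 5, 6] [18, 0, 0, 0, 0, 0] [64, 58, 48, 38, 28, 0] 100000 50000 50000 700000 0 0 0 100000
    16667 0 16667))) (.E 2)) (.S 5 4 (.S 5 2 (.S 5 1 (.E 2) (.E 9)) (.S 5 3 (.E 9) (.E 9))) (.E
    2))) (.S 4 2 (.S 5 4 (.S 5 2 (.S 5 1 (.E 2) (.E 9)) (.S 5 3 (.E 9) (.E 9))) (.E 2)) (.S 5 4 (.S
    5 2 (.S 5 1 (.E 2) (.E 9)) (.S 5 3 (.E 9) (.E 9))) (.E 2)))) (.E 2)) (.E 1)) (.E 1))) (.E 1))
    (.E 1)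

lemma s20_21_4_4_14 : BlkD.treeX d20_21_4_4 (BlkD.exF 4 4 x20_21_4_4) t20_21_4_4_14
    (BlkD.upd (BlkD.upd (BlkD.upd (fun _ => 0) 0 2) 1 3) 2 2)
    (BlkD.upd (BlkD.upd (BlkD.upd (BlkD.upd (BlkD.upd (BlkD.upd (BlkD.upd (BlkD.upd (fun _ => 21) 0 4) 2 4) 0 2) 1 19) 1 9) 1 4) 1 3) 2 2) = true := by
  decide +kernel

lemma n20_21_4_4_14 {n : ℕ} (hn : 6 ≤ n) : BlkD.NdX d20_21_4_4 (BlkD.exF 4 4 x20_21_4_4) n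
    (BlkD.upd (BlkD.upd (BlkD.upd (fun _ => 0) 0 2) 1 3) 2 2)
    (BlkD.upd (BlkD.upd (BlkD.upd (BlkD.upd (BlkD.upd (BlkD.upd (BlkD.upd (BlkD.upd (fun _ => 21) 0 4) 2 4) 0 2) 1 19) 1 9) 1 4) 1 3) 2 2) :=
  BlkD.NdX.tree s20_21_4_4_14 ok20_21_4_4 (by decide) hn

/-- a subtree -/
def t20_21_4_4_15 : BlkD.Tr :=
  .S 2 3 (.S 3 13 (.S 3 6 (.S 3 3 (.S 3 1 (.L 5 5 [4, 4, 4, 5, 6] [48, 38, 28, 18, 0, 0] [] 100000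
    25000 25000 940001 0 0 13333 0 26667 13333 26667) (.S 3 2 (.S 4 3 (.S 4 1 (.S 4 0 (.L 5 5 [4,
    4, 4, 5, 6] [18, 0, 0, 0, 0, 0] [34, 24, 14, 0, 0, 0] 100000 16280 16280 969768 0 30233 0 32558
    100000 34884 37209) (.S 5 2 (.S 5 1 (.L 5 5 [4, 4, 4, 5, 6] [28, 18, 0, 0, 0, 0] [24, 14, 0, 0,
    0, 0] 100000 12501 12501 1000000 0 25000 0 25000 50000 85714 35714) (.E 9)) (.E 2))) (.S 4 2
    (.S 5 2 (.S 5 1 (.L 5 5 [4, 4, 4, 5, 6] [38, 28, 18, 0, 0, 0] [24, 14, 0, 0, 0, 0] 100000 25001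
    25001 900000 0 0 50000 0 0 78571 28571) (.E 9)) (.E 2)) (.L 5 5 [4, 4, 4, 5, 6] [48, 38, 28,
    18, 0, 0] [34, 24, 14, 0, 0, 0] 100000 31250 31250 875000 0 0 62500 0 0 62500 25000))) (.E 2))
    (.S 4 3 (.S 4 1 (.S 4 0 (.S 5 3 (.S 5 1 (.E 2) (.S 5 2 (.E 9) (.E 9))) (.E 2)) (.S 5 3 (.S 5 1
    (.E 2) (.S 5 2 (.E 9) (.E 9))) (.E 2))) (.S 4 2 (.S 5 3 (.S 5 1 (.E 2) (.S 5 2 (.E 9) (.E 9)))
    (.E 2)) (.S 5 3 (.S 5 1 (.E 2) (.S 5 2 (.E 9) (.E 9))) (.E 2)))) (.E 2)))) (.E 1)) (.E 1)) (.E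
    1)) (.L 5 5 [4, 4, 4, 5, 6] [48, 38, 28, 18, 0, 0] [] 100000 17578 17577 984375 20312 0 25000 0
    29687 100000 34375)

lemma s20_21_4_4_15 : BlkD.treeX d20_21_4_4 (BlkD.exF 4 4 x20_21_4_4) t20_21_4_4_15
    (BlkD.upd (BlkD.upd (BlkD.upd (fun _ => 0) 0 2) 1 3) 2 3)
    (BlkD.upd (BlkD.upd (BlkD.upd (BlkD.upd (BlkD.upd (BlkD.upd (BlkD.upd (fun _ => 21) 0 4) 2 4) 0 2) 1 19) 1 9) 1 4) 1 3) = true := by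
  decide +kernel

lemma n20_21_4_4_15 {n : ℕ} (hn : 6 ≤ n) : BlkD.NdX d20_21_4_4 (BlkD.exF 4 4 x20_21_4_4) n
    (BlkD.upd (BlkD.upd (BlkD.upd (fun _ => 0) 0 2) 1 3) 2 3)
    (BlkD.upd (BlkD.upd (BlkD.upd (BlkD.upd (BlkD.upd (BlkD.upd (BlkD.upd (fun _ => 21) 0 4) 2 4) 0 2) 1 19) 1 9) 1 4) 1 3) :=
  BlkD.NdX.tree s20_21_4_4_15 ok20_21_4_4 (by decide) hn

end BlkC

end Pool.Agent.Lib.MP_f04ccf_co
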