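import Pool.Agent.Lib.MP_f04ccf_co.M.BlkX20_21_4_4d

/-!
MP_f04ccf_co, block certificate with exceptions, `R = 20`, `H = 21`, the pair `(4, 4)` (data of helper99 / helper13,
generated by helper8, genx.py): part 2 of 2.
-/

set_option autoImplicit false
set_option maxRecDepth 100000

namespace Pool.Agent.Lib.MP_f04ccf_co

namespace BlkC

/-- a subtree -/
def t20_21_4_4_16 : BlkD.Tr :=
  .S 2 1 (.S 2 0 (.L 5 5 [4, 4, 4, 5, 6] [64, 58, 48, 38, 28, 0] [] 100000 75000 75000 550000 0 0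
    50000 100000 0 0 0) (.S 3 14 (.S 3 7 (.S 3 3 (.S 3 1 (.L 5 5 [4, 4, 4, 5, 6] [64, 58, 48, 38,
    28, 0] [] 100000 28333 28332 786668 0 0 13333 0 26667 0 26667) (.S 3 2 (.L 5 5 [4, 4, 4, 5, 6]
    [64, 58, 48, 38, 28, 0] [26, 16, 6, 0, 0, 0] 100000 25000 25000 862224 0 2222 33333 2222 66667
    0 28889) (.S 4 4 (.S 4 2 (.L 5 5 [4, 4, 4, 5, 6] [48, 38, 28, 0, 0, 0] [42, 32, 22, 12, 0, 0]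
    100000 25000 24999 931819 0 22727 0 22727 100000 0 31818) (.S 4 3 (.L 5 5 [4, 4, 4, 5, 6] [58,
    48, 38, 28, 0, 0] [42, 32, 22, 12, 0, 0] 100000 25000 24999 944444 0 13889 13889 13889 86111 0
    30556) (.L 5 5 [4, 4, 4, 5, 6] [64, 58, 48, 38, 28, 0] [42, 32, 22, 12, 0, 0] 100000 31250
    31250 900000 0 0 50000 0 50000 0 25000))) (.E 2)))) (.S 3 5 (.S 3 4 (.S 4 4 (.S 4 2 (.S 4 1 (.E
    2) (.S 5 4 (.S 5 2 (.S 5 1 (.S 5 0 (.L 5 5 [4, 4, 4, 5, 6] [48, 38, 28, 0, 0, 0] [20, 0, 0, 0,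
    0, 0] 100000 50000 50000 700000 0 100000 0 0 60000 60000 20000) (.E 9)) (.E 9)) (.S 5 3 (.E 9)
    (.L 5 5 [4, 4, 4, 5, 6] [48, 38, 28, 0, 0, 0] [56, 50, 40, 30, 20, 0] 100000 50000 50000 700000
    0 0 0 100000 16667 0 16667))) (.E 2))) (.S 4 3 (.S 5 4 (.S 5 2 (.S 5 1 (.S 5 0 (.L 1 1 [10, 12,
    14, 16, 16] [58, 48, 38, 28, 0, 0] [20, 0, 0, 0, 0, 0] 100000 100000 100000 400000 0 100000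
    100000 0 0 16667 16667) (.E 9)) (.E 9)) (.S 5 3 (.E 9) (.L 1 1 [10, 12, 14, 16, 16] [58, 48,
    38, 28, 0, 0] [56, 50, 40, 30, 20, 0] 100000 50000 50000 700000 0 0 0 100000 16667 0 16667)))
    (.E 2)) (.S 5 4 (.S 5 2 (.S 5 1 (.S 5 0 (.L 1 1 [10, 12, 14, 16, 16] [64, 58, 48, 38, 28, 0]
    [20, 0, 0, 0, 0, 0] 100000 120000 50000 0 0 105000 170000 0 0 16667 16667) (.E 9)) (.E 9)) (.S
    5 3 (.E 9) (.E 9))) (.E 2)))) (.E 2)) (.S 4 4 (.S 4 2 (.S 4 1 (.E 2) (.S 5 5 (.S 5 2 (.S 5 1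
    (.S 5 0 (.E 2) (.E 9)) (.E 9)) (.S 5 4 (.S 5 3 (.E 9) (.E 9)) (.L 1 1 [10, 12, 14, 16, 16] [48,
    38, 28, 0, 0, 0] [68, 66, 60, 50, 40, 30] 100000 50000 50000 700000 0 0 0 100000 16667 0
    16667))) (.E 2))) (.S 4 3 (.S 5 5 (.S 5 2 (.S 5 1 (.S 5 0 (.E 2) (.E 9)) (.E 9)) (.S 5 4 (.S 5
    3 (.E 9) (.E 9)) (.L 1 1 [10, 12, 14, 16, 16] [58, 48, 38, 28, 0, 0] [68, 66, 60, 50, 40, 30]
    100000 100000 100000 400000 0 0 100000 100000 0 0 0))) (.E 2)) (.S 5 5 (.S 5 2 (.L 2 2 [6, 8,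
    9, 10, 12] [64, 58, 48, 38, 28, 0] [50, 40, 30, 0, 0, 0] 100000 125000 125000 300000 0 100000
    100000 100000 0 0 0) (.S 5 4 (.S 5 3 (.E 9) (.E 9)) (.E 9))) (.E 2)))) (.E 2))) (.E 2))) (.E
    1)) (.E 1))) (.S 3 13 (.S 3 6 (.S 3 3 (.S 3 1 (.L 2 2 [6, 8, 9, 10, 12] [64, 58, 48, 38, 28, 0]
    [] 100000 25001 25001 864286 0 0 35714 0 64286 0 28571) (.S 3 2 (.S 4 4 (.S 4 2 (.L 5 5 [4, 4,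
    4, 5, 6] [48, 38, 28, 0, 0, 0] [30, 20, 10, 0, 0, 0] 100000 25000 25000 937500 0 31250 0 31250
    100000 0 37500) (.S 4 3 (.L 5 5 [4, 4, 4, 5, 6] [58, 48, 38, 28, 0, 0] [30, 20, 10, 0, 0, 0]
    100000 20001 20001 960000 0 0 20000 20000 68571 20000 28571) (.L 5 5 [4, 4, 4, 5, 6] [64, 58,
    48, 38, 28, 0] [30, 20, 10, 0, 0, 0] 100000 33334 33334 877777 0 0 55556 11111 44444 11111
    22222))) (.E 2)) (.S 4 4 (.S 4 2 (.S 4 1 (.E 2) (.S 5 3 (.S 5 1 (.S 5 0 (.E 9) (.E 9)) (.S 5 2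
    (.E 9) (.E 9))) (.E 2))) (.S 4 3 (.S 5 3 (.S 5 1 (.S 5 0 (.E 9) (.E 9)) (.S 5 2 (.E 9) (.E 9)))
    (.E 2)) (.S 5 3 (.S 5 1 (.S 5 0 (.L 5 5 [4, 4, 4, 5, 6] [64, 58, 48, 38, 28, 0] [18, 0, 0, 0,
    0, 0] 100000 50000 50000 700000 0 0 100000 0 0 16667 16667) (.E 9)) (.S 5 2 (.E 9) (.E 9))) (.E
    2)))) (.E 2)))) (.S 3 5 (.S 3 4 (.S 4 4 (.S 4 2 (.S 4 1 (.E 2) (.S 5 4 (.S 5 2 (.S 5 1 (.E 2)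
    (.E 9)) (.S 5 3 (.E 9) (.E 9))) (.E 2))) (.S 4 3 (.S 5 4 (.S 5 2 (.S 5 1 (.E 2) (.E 9)) (.S 5 3
    (.E 9) (.E 9))) (.E 2)) (.S 5 4 (.S 5 2 (.S 5 1 (.E 2) (.E 9)) (.S 5 3 (.E 9) (.E 9))) (.E
    2)))) (.E 2)) (.E 1)) (.E 1))) (.E 1)) (.E 1))

lemma s20_21_4_4_16 : BlkD.treeX d20_21_4_4 (BlkD.exF 4 4 x20_21_4_4) t20_21_4_4_16
    (BlkD.upd (BlkD.upd (BlkD.upd (fun _ => 0) 0 2) 1 3) 1 4)
    (BlkD.upd (BlkD.upd (BlkD.upd (BlkD.upd (BlkD.upd (BlkD.upd (BlkD.upd (fun _ => 21) 0 4) 2 4) 0 2) 1 19) 1 9) 1 4) 2 2) = true := by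
  decide +kernel

lemma n20_21_4_4_16 {n : ℕ} (hn : 6 ≤ n) : BlkD.NdX d20_21_4_4 (BlkD.exF 4 4 x20_21_4_4) n
    (BlkD.upd (BlkD.upd (BlkD.upd (fun _ => 0) 0 2) 1 3) 1 4)
    (BlkD.upd (BlkD.upd (BlkD.upd (BlkD.upd (BlkD.upd (BlkD.upd (BlkD.upd (fun _ => 21) 0 4) 2 4) 0 2) 1 19) 1 9) 1 4) 2 2) :=
  BlkD.NdX.tree s20_21_4_4_16 ok20_21_4_4 (by decide) hn

/-- a subtree -/
def t20_21_4_4_17 : BlkD.Tr :=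
  .S 2 3 (.S 3 12 (.S 3 6 (.S 3 3 (.S 3 1 (.L 5 5 [4, 4, 4, 5, 6] [64, 58, 48, 38, 28, 0] [] 100000
    17858 17858 990477 0 0 33333 4762 66667 28571 28571) (.S 3 2 (.S 4 4 (.S 4 2 (.S 4 1 (.E 2) (.S
    5 2 (.S 5 1 (.S 5 0 (.E 9) (.E 9)) (.E 9)) (.E 2))) (.S 4 3 (.S 5 2 (.S 5 1 (.S 5 0 (.E 9) (.E
    9)) (.E 9)) (.E 2)) (.S 5 2 (.S 5 1 (.L 5 5 [4, 4, 4, 5, 6] [64, 58, 48, 38, 28, 0] [24, 14, 0,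
    0, 0, 0] 100000 50000 50000 700000 0 0 100000 0 0 16667 16667) (.E 9)) (.E 2)))) (.E 2)) (.S 4
    4 (.S 4 2 (.S 4 1 (.E 2) (.S 5 3 (.S 5 1 (.E 2) (.S 5 2 (.E 9) (.E 9))) (.E 2))) (.S 4 3 (.S 5
    3 (.S 5 1 (.E 2) (.S 5 2 (.E 9) (.E 9))) (.E 2)) (.S 5 3 (.S 5 1 (.E 2) (.S 5 2 (.E 9) (.E 9)))
    (.E 2)))) (.E 2)))) (.E 1)) (.E 1)) (.E 1)) (.S 3 11 (.S 3 5 (.S 3 2 (.S 3 1 (.S 3 0 (.L 5 5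
    [4, 4, 4, 5, 6] [64, 58, 48, 38, 28, 0] [0, 0, 0, 0, 0, 0] 100000 16818 16817 965455 909 0
    32727 0 63636 32727 29091) (.S 4 4 (.S 4 2 (.S 4 1 (.E 2) (.S 5 1 (.S 5 0 (.E 9) (.E 9)) (.E
    2))) (.S 4 3 (.S 5 1 (.S 5 0 (.E 9) (.E 9)) (.E 2)) (.L 5 5 [4, 4, 4, 5, 6] [64, 58, 48, 38,
    28, 0] [18, 8, 0, 0, 0, 0] 100000 50000 50000 700000 0 0 100000 0 0 16667 16667))) (.E 2))) (.E
    1)) (.E 1)) (.E 1)) (.E 1))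

lemma s20_21_4_4_17 : BlkD.treeX d20_21_4_4 (BlkD.exF 4 4 x20_21_4_4) t20_21_4_4_17
    (BlkD.upd (BlkD.upd (BlkD.upd (BlkD.upd (fun _ => 0) 0 2) 1 3) 1 4) 2 3)
    (BlkD.upd (BlkD.upd (BlkD.upd (BlkD.upd (BlkD.upd (BlkD.upd (fun _ => 21) 0 4) 2 4) 0 2) 1 19) 1 9) 1 4) = true := by
  decide +kernel

lemma n20_21_4_4_17 {n : ℕ} (hn : 6 ≤ n) : BlkD.NdX d20_21_4_4 (BlkD.exF 4 4 x20_21_4_4) n
    (BlkD.upd (BlkD.upd (BlkD.upd (BlkD.upd (fun _ => 0) 0 2) 1 3) 1 4) 2 3)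
    (BlkD.upd (BlkD.upd (BlkD.upd (BlkD.upd (BlkD.upd (BlkD.upd (fun _ => 21) 0 4) 2 4) 0 2) 1 19) 1 9) 1 4) :=
  BlkD.NdX.tree s20_21_4_4_17 ok20_21_4_4 (by decide) hn

/-- a subtree -/
def t20_21_4_4_18 : BlkD.Tr :=
  .E 0

lemma s20_21_4_4_18 : BlkD.treeX d20_21_4_4 (BlkD.exF 4 4 x20_21_4_4) t20_21_4_4_18
    (BlkD.upd (BlkD.upd (fun _ => 0) 0 2) 1 5)
    (BlkD.upd (BlkD.upd (BlkD.upd (BlkD.upd (BlkD.upd (fun _ => 21) 0 4) 2 4) 0 2) 1 19) 1 9) = true := by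
  decide +kernel

lemma n20_21_4_4_18 {n : ℕ} (hn : 6 ≤ n) : BlkD.NdX d20_21_4_4 (BlkD.exF 4 4 x20_21_4_4) n
    (BlkD.upd (BlkD.upd (fun _ => 0) 0 2) 1 5)
    (BlkD.upd (BlkD.upd (BlkD.upd (BlkD.upd (BlkD.upd (fun _ => 21) 0 4) 2 4) 0 2) 1 19) 1 9) :=
  BlkD.NdX.tree s20_21_4_4_18 ok20_21_4_4 (by decide) hn

/-- a subtree -/
def t20_21_4_4_19 : BlkD.Tr :=
  .E 0

lemma s20_21_4_4_19 : BlkD.treeX d20_21_4_4 (BlkD.exF 4 4 x20_21_4_4) t20_21_4_4_19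
    (BlkD.upd (BlkD.upd (fun _ => 0) 0 2) 1 10)
    (BlkD.upd (BlkD.upd (BlkD.upd (BlkD.upd (fun _ => 21) 0 4) 2 4) 0 2) 1 19) = true := by
  decide +kernel

lemma n20_21_4_4_19 {n : ℕ} (hn : 6 ≤ n) : BlkD.NdX d20_21_4_4 (BlkD.exF 4 4 x20_21_4_4) n
    (BlkD.upd (BlkD.upd (fun _ => 0) 0 2) 1 10)
    (BlkD.upd (BlkD.upd (BlkD.upd (BlkD.upd (fun _ => 21) 0 4) 2 4) 0 2) 1 19) :=
  BlkD.NdX.tree s20_21_4_4_19 ok20_21_4_4 (by decide) hn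

/-- a subtree -/
def t20_21_4_4_20 : BlkD.Tr :=
  .E 0

lemma s20_21_4_4_20 : BlkD.treeX d20_21_4_4 (BlkD.exF 4 4 x20_21_4_4) t20_21_4_4_20
    (BlkD.upd (BlkD.upd (fun _ => 0) 0 2) 1 20)
    (BlkD.upd (BlkD.upd (BlkD.upd (fun _ => 21) 0 4) 2 4) 0 2) = true := by
  decide +kernel

lemma n20_21_4_4_20 {n : ℕ} (hn : 6 ≤ n) : BlkD.NdX d20_21_4_4 (BlkD.exF 4 4 x20_21_4_4) n
    (BlkD.upd (BlkD.upd (fun _ => 0) 0 2) 1 20)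
    (BlkD.upd (BlkD.upd (BlkD.upd (fun _ => 21) 0 4) 2 4) 0 2) :=
  BlkD.NdX.tree s20_21_4_4_20 ok20_21_4_4 (by decide) hn

/-- a subtree -/
def t20_21_4_4_21 : BlkD.Tr :=
  .S 1 0 (.L 5 5 [4, 4, 4, 5, 6] [0, 0, 0, 0, 0, 0] [] 100000 31250 31250 900000 0 0 0 25000 0
    25000 25000) (.S 2 2 (.S 2 1 (.S 2 0 (.L 5 5 [4, 4, 4, 5, 6] [16, 6, 0, 0, 0, 0] [] 100000
    50000 50000 600000 0 0 0 100000 16667 0 16667) (.S 3 16 (.S 3 8 (.S 3 4 (.L 5 5 [4, 4, 4, 5, 6]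
    [16, 6, 0, 0, 0, 0] [] 100000 32144 32144 900000 0 0 0 0 0 0 28571) (.S 3 6 (.S 3 5 (.S 4 1 (.S
    4 0 (.L 5 5 [4, 4, 4, 5, 6] [6, 0, 0, 0, 0, 0] [68, 66, 60, 50, 40, 30] 100000 11364 11364
    1013637 0 9091 0 13636 54545 54545 31818) (.S 5 5 (.S 5 2 (.L 5 5 [4, 4, 4, 5, 6] [16, 6, 0, 0,
    0, 0] [50, 40, 30, 0, 0, 0] 100000 19319 19319 954546 0 22727 0 22727 22727 77273 31818) (.L 5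
    5 [4, 4, 4, 5, 6] [16, 6, 0, 0, 0, 0] [68, 66, 60, 50, 40, 30] 100000 21154 21154 957692 0 0 0
    42308 26923 57692 26923)) (.E 2))) (.E 2)) (.L 5 5 [4, 4, 4, 5, 6] [16, 6, 0, 0, 0, 0] [82, 80,
    78, 72, 62, 52] 100000 50000 50000 716667 0 0 0 100000 16667 0 16667)) (.E 1))) (.E 1)) (.E
    1))) (.S 3 15 (.S 3 7 (.S 3 3 (.L 5 5 [4, 4, 4, 5, 6] [16, 6, 0, 0, 0, 0] [] 100000 26191 26191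
    933333 0 0 0 11111 11111 22222 26984) (.L 5 5 [4, 4, 4, 5, 6] [16, 6, 0, 0, 0, 0] [] 100000
    17858 17858 990477 0 0 4762 33333 28571 66667 28571)) (.E 1)) (.E 1))) (.L 5 5 [4, 4, 4, 5, 6]
    [16, 6, 0, 0, 0, 0] [] 100000 20691 20691 965518 17241 0 34483 17241 17241 82759 31034))

lemma s20_21_4_4_21 : BlkD.treeX d20_21_4_4 (BlkD.exF 4 4 x20_21_4_4) t20_21_4_4_21
    (BlkD.upd (fun _ => 0) 0 3)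
    (BlkD.upd (BlkD.upd (BlkD.upd (BlkD.upd (BlkD.upd (BlkD.upd (BlkD.upd (BlkD.upd (fun _ => 21) 0 4) 2 4) 0 3) 1 18) 1 9) 1 4) 1 2) 1 1) = true := by
  decide +kernel

lemma n20_21_4_4_21 {n : ℕ} (hn : 6 ≤ n) : BlkD.NdX d20_21_4_4 (BlkD.exF 4 4 x20_21_4_4) n
    (BlkD.upd (fun _ => 0) 0 3)
    (BlkD.upd (BlkD.upd (BlkD.upd (BlkD.upd (BlkD.upd (BlkD.upd (BlkD.upd (BlkD.upd (fun _ => 21) 0 4) 2 4) 0 3) 1 18) 1 9) 1 4) 1 2) 1 1) :=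
  BlkD.NdX.tree s20_21_4_4_21 ok20_21_4_4 (by decide) hn

/-- a subtree -/
def t20_21_4_4_22 : BlkD.Tr :=
  .S 2 1 (.S 2 0 (.L 5 5 [4, 4, 4, 5, 6] [34, 24, 14, 0, 0, 0] [] 100000 50000 50000 600000 0 0 0
    100000 16667 0 16667) (.S 3 15 (.S 3 7 (.S 3 3 (.L 5 5 [4, 4, 4, 5, 6] [34, 24, 14, 0, 0, 0] []
    100000 25001 25001 928571 0 0 0 0 28571 0 28571) (.S 3 5 (.S 3 4 (.S 4 2 (.S 4 1 (.L 5 5 [4, 4,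
    4, 5, 6] [24, 14, 0, 0, 0, 0] [56, 50, 40, 30, 20, 0] 100000 23078 23078 939743 2564 19231 2564
    24359 100000 7692 32051) (.S 5 4 (.S 5 2 (.S 5 1 (.S 5 0 (.L 5 5 [4, 4, 4, 5, 6] [34, 24, 14,
    0, 0, 0] [20, 0, 0, 0, 0, 0] 100000 61112 61112 655556 0 100000 22222 0 0 100000 22222) (.E 9))
    (.E 9)) (.L 5 5 [4, 4, 4, 5, 6] [34, 24, 14, 0, 0, 0] [56, 50, 40, 30, 20, 0] 100000 31250
    31250 875000 0 0 0 62500 62500 0 25000)) (.E 2))) (.E 2)) (.S 4 2 (.S 4 1 (.S 4 0 (.S 5 5 (.S 5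
    2 (.L 5 5 [4, 4, 4, 5, 6] [14, 0, 0, 0, 0, 0] [50, 40, 30, 0, 0, 0] 100000 71429 71429 628572 0
    100000 0 85714 14286 14286 14286) (.S 5 4 (.S 5 3 (.L 5 5 [4, 4, 4, 5, 6] [14, 0, 0, 0, 0, 0]
    [60, 50, 40, 30, 0, 0] 100000 66667 66667 666666 0 66667 0 100000 16667 0 16667) (.L 5 5 [4, 4,
    4, 5, 6] [14, 0, 0, 0, 0, 0] [66, 60, 50, 40, 30, 0] 100000 50000 50000 700000 0 0 0 100000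
    16667 0 16667)) (.L 5 5 [4, 4, 4, 5, 6] [14, 0, 0, 0, 0, 0] [68, 66, 60, 50, 40, 30] 100000
    80000 0 200000 0 0 0 180000 0 0 12000))) (.E 2)) (.S 5 5 (.S 5 2 (.S 5 1 (.S 5 0 (.E 2) (.E 9))
    (.E 9)) (.S 5 4 (.S 5 3 (.E 9) (.L 5 5 [4, 4, 4, 5, 6] [24, 14, 0, 0, 0, 0] [66, 60, 50, 40,
    30, 0] 100000 50000 50000 700000 0 0 0 100000 16667 0 16667)) (.L 5 5 [4, 4, 4, 5, 6] [24, 14,
    0, 0, 0, 0] [68, 66, 60, 50, 40, 30] 100000 85715 1 142859 0 0 28571 185714 0 0 8571))) (.E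
    2))) (.S 5 5 (.S 5 2 (.S 5 1 (.S 5 0 (.E 2) (.E 9)) (.E 9)) (.S 5 4 (.S 5 3 (.E 9) (.E 9)) (.L
    5 5 [4, 4, 4, 5, 6] [34, 24, 14, 0, 0, 0] [68, 66, 60, 50, 40, 30] 100000 50000 50000 700000 0
    0 0 100000 16667 0 16667))) (.E 2))) (.E 2))) (.S 3 6 (.S 4 2 (.S 4 1 (.E 2) (.S 5 6 (.S 5 3
    (.E 2) (.S 5 5 (.S 5 4 (.E 2) (.E 9)) (.L 5 5 [4, 4, 4, 5, 6] [34, 24, 14, 0, 0, 0] [82, 80,
    78, 72, 62, 52] 100000 50000 50000 700000 0 0 0 100000 16667 0 16667))) (.E 2))) (.E 2)) (.E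
    1)))) (.E 1)) (.E 1))) (.S 3 14 (.S 3 7 (.S 3 3 (.S 3 1 (.L 5 5 [4, 4, 4, 5, 6] [34, 24, 14, 0,
    0, 0] [] 100000 32144 32144 800000 0 0 0 0 0 0 28571) (.S 3 2 (.L 5 5 [4, 4, 4, 5, 6] [34, 24,
    14, 0, 0, 0] [30, 20, 10, 0, 0, 0] 100000 20001 20001 948571 0 0 20000 20000 68571 20000 28571)
    (.S 4 2 (.S 4 1 (.L 5 5 [4, 4, 4, 5, 6] [24, 14, 0, 0, 0, 0] [48, 38, 28, 18, 0, 0] 100000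
    16667 16666 991667 8333 0 8333 25000 72619 33333 30952) (.S 5 3 (.S 5 1 (.S 5 0 (.L 5 5 [4, 4,
    4, 5, 6] [34, 24, 14, 0, 0, 0] [18, 0, 0, 0, 0, 0] 100000 25001 25001 900000 0 0 50000 0 0
    78571 28571) (.E 9)) (.S 5 2 (.E 9) (.L 5 5 [4, 4, 4, 5, 6] [34, 24, 14, 0, 0, 0] [48, 38, 28,
    18, 0, 0] 100000 31250 31250 875000 0 0 0 62500 62500 0 25000))) (.E 2))) (.E 2)))) (.S 3 5 (.S
    3 4 (.S 4 2 (.S 4 1 (.S 4 0 (.S 5 4 (.S 5 2 (.S 5 1 (.E 2) (.E 9)) (.S 5 3 (.E 9) (.L 5 5 [4,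
    4, 4, 5, 6] [14, 0, 0, 0, 0, 0] [64, 58, 48, 38, 28, 0] 100000 50000 50000 700000 0 0 0 100000
    16667 0 16667))) (.E 2)) (.S 5 4 (.S 5 2 (.S 5 1 (.E 2) (.E 9)) (.S 5 3 (.E 9) (.L 5 5 [4, 4,
    4, 5, 6] [24, 14, 0, 0, 0, 0] [64, 58, 48, 38, 28, 0] 100000 50000 50000 700000 0 0 0 100000
    16667 0 16667))) (.E 2))) (.S 5 4 (.S 5 2 (.S 5 1 (.E 2) (.E 9)) (.S 5 3 (.E 9) (.E 9))) (.E
    2))) (.E 2)) (.E 1)) (.E 1))) (.E 1)) (.E 1))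

lemma s20_21_4_4_22 : BlkD.treeX d20_21_4_4 (BlkD.exF 4 4 x20_21_4_4) t20_21_4_4_22
    (BlkD.upd (BlkD.upd (fun _ => 0) 0 3) 1 2)
    (BlkD.upd (BlkD.upd (BlkD.upd (BlkD.upd (BlkD.upd (BlkD.upd (BlkD.upd (BlkD.upd (fun _ => 21) 0 4) 2 4) 0 3) 1 18) 1 9) 1 4) 1 2) 2 2) = true := by
  decide +kernel

lemma n20_21_4_4_22 {n : ℕ} (hn : 6 ≤ n) : BlkD.NdX d20_21_4_4 (BlkD.exF 4 4 x20_21_4_4) n
    (BlkD.upd (BlkD.upd (fun _ => 0) 0 3) 1 2)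
    (BlkD.upd (BlkD.upd (BlkD.upd (BlkD.upd (BlkD.upd (BlkD.upd (BlkD.upd (BlkD.upd (fun _ => 21) 0 4) 2 4) 0 3) 1 18) 1 9) 1 4) 1 2) 2 2) :=
  BlkD.NdX.tree s20_21_4_4_22 ok20_21_4_4 (by decide) hn

/-- a subtree -/
def t20_21_4_4_23 : BlkD.Tr :=
  .S 2 3 (.S 3 13 (.S 3 6 (.S 3 3 (.S 3 1 (.L 5 5 [4, 4, 4, 5, 6] [34, 24, 14, 0, 0, 0] [] 100000
    16936 16936 961290 0 0 32258 3226 64516 32258 29032) (.S 3 2 (.S 4 2 (.S 4 1 (.L 5 5 [4, 4, 4,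
    5, 6] [24, 14, 0, 0, 0, 0] [34, 24, 14, 0, 0, 0] 100000 12500 12500 1000000 0 0 0 25000 56250
    50000 31250) (.S 5 2 (.S 5 1 (.L 5 5 [4, 4, 4, 5, 6] [34, 24, 14, 0, 0, 0] [24, 14, 0, 0, 0, 0]
    100000 25001 25001 900000 0 0 50000 0 0 78571 28571) (.E 9)) (.E 2))) (.E 2)) (.S 4 2 (.S 4 1
    (.S 4 0 (.S 5 3 (.S 5 1 (.E 2) (.S 5 2 (.E 9) (.E 9))) (.E 2)) (.S 5 3 (.S 5 1 (.E 2) (.S 5 2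
    (.E 9) (.E 9))) (.E 2))) (.S 5 3 (.S 5 1 (.E 2) (.S 5 2 (.E 9) (.E 9))) (.E 2))) (.E 2)))) (.E
    1)) (.E 1)) (.E 1)) (.L 5 5 [4, 4, 4, 5, 6] [34, 24, 14, 0, 0, 0] [] 100000 16280 16280 969768
    30233 0 32558 0 34884 100000 37209)

lemma s20_21_4_4_23 : BlkD.treeX d20_21_4_4 (BlkD.exF 4 4 x20_21_4_4) t20_21_4_4_23
    (BlkD.upd (BlkD.upd (BlkD.upd (fun _ => 0) 0 3) 1 2) 2 3)
    (BlkD.upd (BlkD.upd (BlkD.upd (BlkD.upd (BlkD.upd (BlkD.upd (BlkD.upd (fun _ => 21) 0 4) 2 4) 0 3) 1 18) 1 9) 1 4) 1 2) = true := by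
  decide +kernel

lemma n20_21_4_4_23 {n : ℕ} (hn : 6 ≤ n) : BlkD.NdX d20_21_4_4 (BlkD.exF 4 4 x20_21_4_4) n
    (BlkD.upd (BlkD.upd (BlkD.upd (fun _ => 0) 0 3) 1 2) 2 3)
    (BlkD.upd (BlkD.upd (BlkD.upd (BlkD.upd (BlkD.upd (BlkD.upd (BlkD.upd (fun _ => 21) 0 4) 2 4) 0 3) 1 18) 1 9) 1 4) 1 2) :=
  BlkD.NdX.tree s20_21_4_4_23 ok20_21_4_4 (by decide) hn

/-- a subtree -/
def t20_21_4_4_24 : BlkD.Tr :=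
  .S 1 3 (.S 2 2 (.S 2 1 (.S 2 0 (.L 5 5 [4, 4, 4, 5, 6] [54, 44, 34, 24, 0, 0] [] 100000 50000
    50000 600000 0 0 0 100000 16667 0 16667) (.S 3 14 (.S 3 7 (.S 3 3 (.L 5 5 [4, 4, 4, 5, 6] [54,
    44, 34, 24, 0, 0] [] 100000 25000 24999 944444 0 13889 13889 13889 86111 0 30556) (.S 3 5 (.S 3
    4 (.S 4 3 (.S 4 1 (.E 2) (.S 4 2 (.S 5 4 (.S 5 2 (.S 5 1 (.S 5 0 (.L 5 5 [4, 4, 4, 5, 6] [44,
    34, 24, 0, 0, 0] [20, 0, 0, 0, 0, 0] 100000 50000 50000 700000 0 100000 0 0 60000 60000 20000)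
    (.E 9)) (.E 9)) (.S 5 3 (.E 9) (.L 5 5 [4, 4, 4, 5, 6] [44, 34, 24, 0, 0, 0] [56, 50, 40, 30,
    20, 0] 100000 50000 50000 700000 0 0 0 100000 16667 0 16667))) (.E 2)) (.S 5 4 (.S 5 2 (.S 5 1
    (.S 5 0 (.L 5 5 [4, 4, 4, 5, 6] [54, 44, 34, 24, 0, 0] [20, 0, 0, 0, 0, 0] 100000 100000 100000
    400000 0 100000 100000 0 0 0 0) (.E 9)) (.E 9)) (.S 5 3 (.E 9) (.L 5 5 [4, 4, 4, 5, 6] [54, 44,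
    34, 24, 0, 0] [56, 50, 40, 30, 20, 0] 100000 50000 50000 700000 0 0 0 100000 16667 0 16667)))
    (.E 2)))) (.E 2)) (.S 4 3 (.S 4 1 (.E 2) (.S 4 2 (.S 5 5 (.S 5 2 (.S 5 1 (.S 5 0 (.E 2) (.E 9))
    (.E 9)) (.S 5 4 (.S 5 3 (.E 9) (.E 9)) (.L 5 5 [4, 4, 4, 5, 6] [44, 34, 24, 0, 0, 0] [68, 66,
    60, 50, 40, 30] 100000 50000 50000 700000 0 0 0 100000 16667 0 16667))) (.E 2)) (.S 5 5 (.S 5 2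
    (.S 5 1 (.S 5 0 (.E 2) (.E 9)) (.E 9)) (.S 5 4 (.S 5 3 (.E 9) (.E 9)) (.L 5 5 [4, 4, 4, 5, 6]
    [54, 44, 34, 24, 0, 0] [68, 66, 60, 50, 40, 30] 100000 100000 100000 400000 0 0 100000 100000 0
    0 0))) (.E 2)))) (.E 2))) (.E 2))) (.E 1)) (.E 1))) (.S 3 13 (.S 3 6 (.S 3 3 (.S 3 1 (.L 5 5
    [4, 4, 4, 5, 6] [54, 44, 34, 24, 0, 0] [] 100000 25000 24999 854546 0 22727 22727 22727 77273 0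
    31818) (.S 3 2 (.L 5 5 [4, 4, 4, 5, 6] [54, 44, 34, 24, 0, 0] [30, 20, 10, 0, 0, 0] 100000
    21623 21623 959460 0 13514 13514 27027 86486 13514 32432) (.S 4 3 (.S 4 1 (.E 2) (.S 4 2 (.S 5
    3 (.S 5 1 (.S 5 0 (.E 9) (.E 9)) (.S 5 2 (.E 9) (.E 9))) (.E 2)) (.S 5 3 (.S 5 1 (.S 5 0 (.E 9)
    (.E 9)) (.S 5 2 (.E 9) (.E 9))) (.E 2)))) (.E 2)))) (.S 3 5 (.S 3 4 (.S 4 3 (.S 4 1 (.E 2) (.S
    4 2 (.S 5 4 (.S 5 2 (.S 5 1 (.E 2) (.E 9)) (.S 5 3 (.E 9) (.E 9))) (.E 2)) (.S 5 4 (.S 5 2 (.S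
    5 1 (.E 2) (.E 9)) (.S 5 3 (.E 9) (.E 9))) (.E 2)))) (.E 2)) (.E 1)) (.E 1))) (.E 1)) (.E 1)))
    (.S 2 3 (.S 3 12 (.S 3 6 (.S 3 3 (.S 3 1 (.L 5 5 [4, 4, 4, 5, 6] [54, 44, 34, 24, 0, 0] []
    100000 20691 20691 965518 0 17241 17241 34483 82759 17241 31034) (.S 3 2 (.S 4 3 (.S 4 1 (.E 2)
    (.S 4 2 (.S 5 2 (.S 5 1 (.S 5 0 (.E 9) (.E 9)) (.E 9)) (.E 2)) (.S 5 2 (.S 5 1 (.S 5 0 (.E 9)
    (.E 9)) (.E 9)) (.E 2)))) (.E 2)) (.S 4 3 (.S 4 1 (.E 2) (.S 4 2 (.S 5 3 (.S 5 1 (.E 2) (.S 5 2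
    (.E 9) (.E 9))) (.E 2)) (.S 5 3 (.S 5 1 (.E 2) (.S 5 2 (.E 9) (.E 9))) (.E 2)))) (.E 2)))) (.E
    1)) (.E 1)) (.E 1)) (.S 3 11 (.S 3 5 (.S 3 2 (.S 3 1 (.S 3 0 (.L 5 5 [4, 4, 4, 5, 6] [54, 44,
    34, 24, 0, 0] [0, 0, 0, 0, 0, 0] 100000 17188 17188 962500 6250 0 31250 0 68750 31250 31250)
    (.S 4 3 (.S 4 1 (.E 2) (.S 4 2 (.S 5 1 (.S 5 0 (.E 9) (.E 9)) (.E 2)) (.S 5 1 (.S 5 0 (.E 9)
    (.E 9)) (.E 2)))) (.E 2))) (.E 1)) (.E 1)) (.E 1)) (.E 1)))) (.E 0)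

lemma s20_21_4_4_24 : BlkD.treeX d20_21_4_4 (BlkD.exF 4 4 x20_21_4_4) t20_21_4_4_24
    (BlkD.upd (BlkD.upd (fun _ => 0) 0 3) 1 3)
    (BlkD.upd (BlkD.upd (BlkD.upd (BlkD.upd (BlkD.upd (BlkD.upd (fun _ => 21) 0 4) 2 4) 0 3) 1 18) 1 9) 1 4) = true := by
  decide +kernel

lemma n20_21_4_4_24 {n : ℕ} (hn : 6 ≤ n) : BlkD.NdX d20_21_4_4 (BlkD.exF 4 4 x20_21_4_4) n
    (BlkD.upd (BlkD.upd (fun _ => 0) 0 3) 1 3)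
    (BlkD.upd (BlkD.upd (BlkD.upd (BlkD.upd (BlkD.upd (BlkD.upd (fun _ => 21) 0 4) 2 4) 0 3) 1 18) 1 9) 1 4) :=
  BlkD.NdX.tree s20_21_4_4_24 ok20_21_4_4 (by decide) hn

/-- a subtree -/
def t20_21_4_4_25 : BlkD.Tr :=
  .E 0

lemma s20_21_4_4_25 : BlkD.treeX d20_21_4_4 (BlkD.exF 4 4 x20_21_4_4) t20_21_4_4_25
    (BlkD.upd (BlkD.upd (fun _ => 0) 0 3) 1 5)
    (BlkD.upd (BlkD.upd (BlkD.upd (BlkD.upd (BlkD.upd (fun _ => 21) 0 4) 2 4) 0 3) 1 18) 1 9) = true := by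
  decide +kernel

lemma n20_21_4_4_25 {n : ℕ} (hn : 6 ≤ n) : BlkD.NdX d20_21_4_4 (BlkD.exF 4 4 x20_21_4_4) n
    (BlkD.upd (BlkD.upd (fun _ => 0) 0 3) 1 5)
    (BlkD.upd (BlkD.upd (BlkD.upd (BlkD.upd (BlkD.upd (fun _ => 21) 0 4) 2 4) 0 3) 1 18) 1 9) :=
  BlkD.NdX.tree s20_21_4_4_25 ok20_21_4_4 (by decide) hn

/-- a subtree -/
def t20_21_4_4_26 : BlkD.Tr :=
  .E 0

lemma s20_21_4_4_26 : BlkD.treeX d20_21_4_4 (BlkD.exF 4 4 x20_21_4_4) t20_21_4_4_26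
    (BlkD.upd (BlkD.upd (fun _ => 0) 0 3) 1 10)
    (BlkD.upd (BlkD.upd (BlkD.upd (BlkD.upd (fun _ => 21) 0 4) 2 4) 0 3) 1 18) = true := by
  decide +kernel

lemma n20_21_4_4_26 {n : ℕ} (hn : 6 ≤ n) : BlkD.NdX d20_21_4_4 (BlkD.exF 4 4 x20_21_4_4) n
    (BlkD.upd (BlkD.upd (fun _ => 0) 0 3) 1 10)
    (BlkD.upd (BlkD.upd (BlkD.upd (BlkD.upd (fun _ => 21) 0 4) 2 4) 0 3) 1 18) :=
  BlkD.NdX.tree s20_21_4_4_26 ok20_21_4_4 (by decide) hn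

/-- a subtree -/
def t20_21_4_4_27 : BlkD.Tr :=
  .E 0

lemma s20_21_4_4_27 : BlkD.treeX d20_21_4_4 (BlkD.exF 4 4 x20_21_4_4) t20_21_4_4_27
    (BlkD.upd (BlkD.upd (fun _ => 0) 0 3) 1 19)
    (BlkD.upd (BlkD.upd (BlkD.upd (fun _ => 21) 0 4) 2 4) 0 3) = true := by
  decide +kernel

lemma n20_21_4_4_27 {n : ℕ} (hn : 6 ≤ n) : BlkD.NdX d20_21_4_4 (BlkD.exF 4 4 x20_21_4_4) n
    (BlkD.upd (BlkD.upd (fun _ => 0) 0 3) 1 19)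
    (BlkD.upd (BlkD.upd (BlkD.upd (fun _ => 21) 0 4) 2 4) 0 3) :=
  BlkD.NdX.tree s20_21_4_4_27 ok20_21_4_4 (by decide) hn

/-- a subtree -/
def t20_21_4_4_28 : BlkD.Tr :=
  .S 1 17 (.S 1 8 (.S 1 4 (.S 1 2 (.S 1 1 (.S 1 0 (.S 2 2 (.S 2 1 (.S 2 0 (.L 5 5 [4, 4, 4, 5, 6]
    [0, 0, 0, 0, 0, 0] [] 100000 54167 54167 500000 0 0 0 100000 0 0 16667) (.S 3 16 (.S 3 8 (.S 3
    4 (.L 5 5 [4, 4, 4, 5, 6] [0, 0, 0, 0, 0, 0] [] 100000 21875 21875 925000 0 18750 0 25000 93750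
    12500 31250) (.L 5 5 [4, 4, 4, 5, 6] [0, 0, 0, 0, 0, 0] [] 100000 17647 17647 976472 0 5882 0
    29412 29412 70588 29412)) (.E 1)) (.E 1))) (.L 5 5 [4, 4, 4, 5, 6] [0, 0, 0, 0, 0, 0] [] 100000
    17667 17667 993334 0 0 0 35333 64000 29333 28667)) (.L 5 5 [4, 4, 4, 5, 6] [0, 0, 0, 0, 0, 0]
    [] 100000 16667 16667 966667 0 0 0 33333 33333 62500 29167)) (.S 2 2 (.S 2 1 (.S 2 0 (.L 5 5
    [4, 4, 4, 5, 6] [18, 8, 0, 0, 0, 0] [] 100000 54167 54167 500000 0 0 0 100000 0 0 16667) (.S 3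
    15 (.S 3 7 (.S 3 3 (.L 5 5 [4, 4, 4, 5, 6] [18, 8, 0, 0, 0, 0] [] 100000 25000 24999 854546 0
    22727 0 22727 100000 0 31818) (.S 3 5 (.S 3 4 (.L 5 5 [4, 4, 4, 5, 6] [18, 8, 0, 0, 0, 0] [56,
    50, 40, 30, 20, 0] 100000 22917 22917 939583 0 18750 8333 22917 100000 8333 31250) (.S 4 1 (.S
    4 0 (.S 5 5 (.S 5 2 (.L 5 5 [4, 4, 4, 5, 6] [8, 0, 0, 0, 0, 0] [50, 40, 30, 0, 0, 0] 100000
    71429 71429 628572 0 100000 0 85714 14286 14286 14286) (.S 5 4 (.S 5 3 (.L 5 5 [4, 4, 4, 5, 6]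
    [8, 0, 0, 0, 0, 0] [60, 50, 40, 30, 0, 0] 100000 66667 66667 666666 0 66667 0 100000 16667 0
    16667) (.L 5 5 [4, 4, 4, 5, 6] [8, 0, 0, 0, 0, 0] [66, 60, 50, 40, 30, 0] 100000 50000 50000
    700000 0 0 0 100000 16667 0 16667)) (.L 5 5 [4, 4, 4, 5, 6] [8, 0, 0, 0, 0, 0] [68, 66, 60, 50,
    40, 30] 100000 80000 0 200000 0 0 0 180000 0 0 12000))) (.E 2)) (.S 5 5 (.S 5 2 (.L 2 2 [6, 8,
    9, 10, 12] [18, 8, 0, 0, 0, 0] [50, 40, 30, 0, 0, 0] 100000 65000 65000 680000 0 100000 0 60000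
    20000 40000 20000) (.S 5 4 (.S 5 3 (.E 9) (.L 2 2 [6, 8, 9, 10, 12] [18, 8, 0, 0, 0, 0] [66,
    60, 50, 40, 30, 0] 100000 50000 50000 700000 0 0 0 100000 16667 0 16667)) (.L 2 2 [6, 8, 9, 10,
    12] [18, 8, 0, 0, 0, 0] [68, 66, 60, 50, 40, 30] 100000 100000 0 0 0 0 100000 200000 0 0 0)))
    (.E 2))) (.E 2))) (.E 2))) (.E 1)) (.E 1))) (.S 3 14 (.S 3 7 (.S 3 3 (.L 5 5 [4, 4, 4, 5, 6]
    [18, 8, 0, 0, 0, 0] [] 100000 20066 20066 964474 6579 11842 18421 25000 100000 19737 32895) (.S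
    3 5 (.S 3 4 (.S 4 1 (.S 4 0 (.S 5 4 (.S 5 2 (.S 5 1 (.E 2) (.E 9)) (.S 5 3 (.E 9) (.L 5 5 [4,
    4, 4, 5, 6] [8, 0, 0, 0, 0, 0] [64, 58, 48, 38, 28, 0] 100000 50000 50000 700000 0 0 0 100000
    16667 0 16667))) (.E 2)) (.S 5 4 (.S 5 2 (.S 5 1 (.E 2) (.E 9)) (.S 5 3 (.E 9) (.L 5 5 [4, 4,
    4, 5, 6] [18, 8, 0, 0, 0, 0] [64, 58, 48, 38, 28, 0] 100000 50000 50000 700000 0 0 0 100000
    16667 0 16667))) (.E 2))) (.E 2)) (.E 1)) (.E 1))) (.E 1)) (.E 1))) (.S 2 3 (.S 3 13 (.S 3 6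
    (.S 3 3 (.S 3 1 (.L 5 5 [4, 4, 4, 5, 6] [18, 8, 0, 0, 0, 0] [] 100000 17188 17188 912500 0
    18750 18750 50000 100000 31250 31250) (.S 3 2 (.L 5 5 [4, 4, 4, 5, 6] [18, 8, 0, 0, 0, 0] [34,
    24, 14, 0, 0, 0] 100000 16280 16280 969768 0 30233 0 32558 100000 34884 37209) (.S 4 1 (.S 4 0
    (.S 5 3 (.S 5 1 (.E 2) (.S 5 2 (.E 9) (.E 9))) (.E 2)) (.S 5 3 (.S 5 1 (.E 2) (.S 5 2 (.E 9)
    (.E 9))) (.E 2))) (.E 2)))) (.E 1)) (.E 1)) (.E 1)) (.L 5 5 [4, 4, 4, 5, 6] [18, 8, 0, 0, 0, 0]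
    [] 100000 0 0 1000000 0 0 0 0 100000 100000 50000)))) (.E 0)) (.E 0)) (.E 0)) (.E 0)) (.E 0)

lemma s20_21_4_4_28 : BlkD.treeX d20_21_4_4 (BlkD.exF 4 4 x20_21_4_4) t20_21_4_4_28
    (BlkD.upd (BlkD.upd (fun _ => 0) 0 3) 0 4)
    (BlkD.upd (BlkD.upd (fun _ => 21) 0 4) 2 4) = true := by
  decide +kernel

lemma n20_21_4_4_28 {n : ℕ} (hn : 6 ≤ n) : BlkD.NdX d20_21_4_4 (BlkD.exF 4 4 x20_21_4_4) n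
    (BlkD.upd (BlkD.upd (fun _ => 0) 0 3) 0 4)
    (BlkD.upd (BlkD.upd (fun _ => 21) 0 4) 2 4) :=
  BlkD.NdX.tree s20_21_4_4_28 ok20_21_4_4 (by decide) hn

/-- a subtree -/
def t20_21_4_4_29 : BlkD.Tr :=
  .E 1

lemma s20_21_4_4_29 : BlkD.treeX d20_21_4_4 (BlkD.exF 4 4 x20_21_4_4) t20_21_4_4_29
    (BlkD.upd (fun _ => 0) 2 5)
    (BlkD.upd (fun _ => 21) 0 4) = true := by
  decide +kernel

lemma n20_21_4_4_29 {n : ℕ} (hn : 6 ≤ n) : BlkD.NdX d20_21_4_4 (BlkD.exF 4 4 x20_21_4_4) n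
    (BlkD.upd (fun _ => 0) 2 5)
    (BlkD.upd (fun _ => 21) 0 4) :=
  BlkD.NdX.tree s20_21_4_4_29 ok20_21_4_4 (by decide) hn

/-- a subtree -/
def t20_21_4_4_30 : BlkD.Tr :=
  .E 0

lemma s20_21_4_4_30 : BlkD.treeX d20_21_4_4 (BlkD.exF 4 4 x20_21_4_4) t20_21_4_4_30
    (BlkD.upd (fun _ => 0) 0 5)
    (fun _ => 21) = true := by
  decide +kernel

lemma n20_21_4_4_30 {n : ℕ} (hn : 6 ≤ n) : BlkD.NdX d20_21_4_4 (BlkD.exF 4 4 x20_21_4_4) n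
    (BlkD.upd (fun _ => 0) 0 5)
    (fun _ => 21) :=
  BlkD.NdX.tree s20_21_4_4_30 ok20_21_4_4 (by decide) hn

end BlkC

end Pool.Agent.Lib.MP_f04ccf_co
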