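import Pool.Agent.Lib.MP_f04ccf_co.M.BlkX20_20_4_4
import Pool.Agent.Lib.MP_f04ccf_co.M.BlkX20_21_4_4

/-!
MP_f04ccf_co, PLAN W, finite part: `R = 20`, the pairs of largest shares with small products: the theorems
`BlkC.pr20_20_4_4`, `BlkC.pr20_21_4_4` of the imported files.
-/
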