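import Pool.Agent.Lib.MP_f04ccf_co.M.BlkC20a1
import Pool.Agent.Lib.MP_f04ccf_co.M.BlkC20a2
import Pool.Agent.Lib.MP_f04ccf_co.M.BlkC20a3
import Pool.Agent.Lib.MP_f04ccf_co.M.BlkC20a4
import Pool.Agent.Lib.MP_f04ccf_co.M.BlkC20a5
import Pool.Agent.Lib.MP_f04ccf_co.M.BlkC20a6
import Pool.Agent.Lib.MP_f04ccf_co.M.BlkC20a7
import Pool.Agent.Lib.MP_f04ccf_co.M.BlkC20a8
import Pool.Agent.Lib.MP_f04ccf_co.M.BlkC20a9
import Pool.Agent.Lib.MP_f04ccf_co.M.BlkC20a10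
import Pool.Agent.Lib.MP_f04ccf_co.M.BlkC20a11
import Pool.Agent.Lib.MP_f04ccf_co.M.BlkC20a12
import Pool.Agent.Lib.MP_f04ccf_co.M.BlkC20a13
import Pool.Agent.Lib.MP_f04ccf_co.M.BlkC20a14
import Pool.Agent.Lib.MP_f04ccf_co.M.BlkC20a15
import Pool.Agent.Lib.MP_f04ccf_co.M.BlkC20a16
import Pool.Agent.Lib.MP_f04ccf_co.M.BlkC20a17
import Pool.Agent.Lib.MP_f04ccf_co.M.BlkC20b1
import Pool.Agent.Lib.MP_f04ccf_co.M.BlkC20b2
import Pool.Agent.Lib.MP_f04ccf_co.M.BlkC20b3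
import Pool.Agent.Lib.MP_f04ccf_co.M.BlkC20b4
import Pool.Agent.Lib.MP_f04ccf_co.M.BlkC20b5
import Pool.Agent.Lib.MP_f04ccf_co.M.BlkC20b6
import Pool.Agent.Lib.MP_f04ccf_co.M.BlkC20b7
import Pool.Agent.Lib.MP_f04ccf_co.M.BlkC20b8
import Pool.Agent.Lib.MP_f04ccf_co.M.BlkC20b9
import Pool.Agent.Lib.MP_f04ccf_co.M.BlkC20b10
import Pool.Agent.Lib.MP_f04ccf_co.M.BlkC20b11
import Pool.Agent.Lib.MP_f04ccf_co.M.BlkC20b12
import Pool.Agent.Lib.MP_f04ccf_co.M.BlkC20b13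
import Pool.Agent.Lib.MP_f04ccf_co.M.BlkC20b14
import Pool.Agent.Lib.MP_f04ccf_co.M.BlkC20b15
import Pool.Agent.Lib.MP_f04ccf_co.M.BlkC20b16
import Pool.Agent.Lib.MP_f04ccf_co.M.BlkC20b17
import Pool.Agent.Lib.MP_f04ccf_co.M.BlkC20b18
import Pool.Agent.Lib.MP_f04ccf_co.M.BlkC20b19
import Pool.Agent.Lib.MP_f04ccf_co.M.BlkC20b20
import Pool.Agent.Lib.MP_f04ccf_co.M.EnC20
import Pool.Agent.Lib.MP_f04ccf_co.M.BlkX20_21_5_4
import Pool.Agent.Lib.MP_f04ccf_co.M.BlkX20_21_5_5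
import Pool.Agent.Lib.MP_f04ccf_co.M.BlkX20_21_6_4
import Pool.Agent.Lib.MP_f04ccf_co.M.BlkX20_21_11_1

/-!
MP_f04ccf_co, block certificate, **`R = 20`**: all pairs of shares together (generated, helper11; generator of helper99).
-/

set_option autoImplicit false

namespace Pool.Agent.Lib.MP_f04ccf_co

/-- **`R = 20`, `∑ h ≤ 20`, at least 5 rows: no items** -/
theorem noItC20_20 {n : ℕ} (hn : 5 ≤ n) : NoItC ((20 : ℕ) : ℤ) ((20 : ℕ) : ℤ) n := by
  refine NoItC.of_pr (q := 3) hn fun a b hba hs => ?_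
  have ha : a ≤ 14 := by omega
  interval_cases a
  · have hb : b ≤ 0 := by omega
    interval_cases b
    · exact BlkC.pr20_20_0_0 hn
  · have hb : b ≤ 1 := by omega
    interval_cases b
    · exact BlkC.pr20_20_1_0 hn
    · exact BlkC.pr20_20_1_1 hn
  · have hb : b ≤ 2 := by omega
    interval_cases b
    · exact BlkC.pr20_20_2_0 hn
    · exact BlkC.pr20_20_2_1 hn
    · exact BlkC.pr20_20_2_2 hn
  · have hb : b ≤ 3 := by omega
    interval_cases b
    · exact BlkC.pr20_20_3_0 hn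
    · exact BlkC.pr20_20_3_1 hn
    · exact BlkC.pr20_20_3_2 hn
    · exact BlkC.pr20_20_3_3 hn
  · have hb : b ≤ 4 := by omega
    interval_cases b
    · exact BlkC.pr20_20_4_0 hn
    · exact BlkC.pr20_20_4_1 hn
    · exact BlkC.pr20_20_4_2 hn
    · exact BlkC.pr20_20_4_3 hn
    · exact BlkC.pr20_20_4_4 hn
  · have hb : b ≤ 5 := by omega
    interval_cases b
    · exact BlkC.pr20_20_5_0 hn
    · exact BlkC.pr20_20_5_1 hn
    · exact BlkC.pr20_20_5_2 hn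
    · exact BlkC.pr20_20_5_3 hn
    · exact BlkC.pr20_20_5_4 hn
    · exact BlkC.pr20_20_5_5 hn
  · have hb : b ≤ 6 := by omega
    interval_cases b
    · exact BlkC.pr20_20_6_0 hn
    · exact BlkC.pr20_20_6_1 hn
    · exact BlkC.pr20_20_6_2 hn
    · exact BlkC.pr20_20_6_3 hn
    · exact BlkC.pr20_20_6_4 hn
    · exact BlkC.pr20_20_6_5 hn
    · exact BlkC.pr20_20_6_6 hn
  · have hb : b ≤ 7 := by omega
    interval_cases b
    · exact BlkC.pr20_20_7_0 hn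
    · exact BlkC.pr20_20_7_1 hn
    · exact BlkC.pr20_20_7_2 hn
    · exact BlkC.pr20_20_7_3 hn
    · exact BlkC.pr20_20_7_4 hn
    · exact BlkC.pr20_20_7_5 hn
    · exact BlkC.pr20_20_7_6 hn
    · exact BlkC.pr20_20_7_7 hn
  · have hb : b ≤ 6 := by omega
    interval_cases b
    · exact BlkC.pr20_20_8_0 hn
    · exact BlkC.pr20_20_8_1 hn
    · exact BlkC.pr20_20_8_2 hn
    · exact BlkC.pr20_20_8_3 hn
    · exact BlkC.pr20_20_8_4 hn
    · exact BlkC.pr20_20_8_5 hn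
    · exact BlkC.pr20_20_8_6 hn
  · have hb : b ≤ 5 := by omega
    interval_cases b
    · exact BlkC.pr20_20_9_0 hn
    · exact BlkC.pr20_20_9_1 hn
    · exact BlkC.pr20_20_9_2 hn
    · exact BlkC.pr20_20_9_3 hn
    · exact BlkC.pr20_20_9_4 hn
    · exact BlkC.pr20_20_9_5 hn
  · have hb : b ≤ 4 := by omega
    interval_cases b
    · exact BlkC.pr20_20_10_0 hn
    · exact BlkC.pr20_20_10_1 hn
    · exact BlkC.pr20_20_10_2 hn
    · exact BlkC.pr20_20_10_3 hn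
    · exact BlkC.pr20_20_10_4 hn
  · have hb : b ≤ 3 := by omega
    interval_cases b
    · exact BlkC.pr20_20_11_0 hn
    · exact BlkC.pr20_20_11_1 hn
    · exact BlkC.pr20_20_11_2 hn
    · exact BlkC.pr20_20_11_3 hn
  · have hb : b ≤ 2 := by omega
    interval_cases b
    · exact BlkC.pr20_20_12_0 hn
    · exact BlkC.pr20_20_12_1 hn
    · exact BlkC.pr20_20_12_2 hn
  · have hb : b ≤ 1 := by omega
    interval_cases b
    · exact BlkC.pr20_20_13_0 hn
    · exact BlkC.pr20_20_13_1 hn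
  · have hb : b ≤ 0 := by omega
    interval_cases b
    · exact BlkC.pr20_20_14_0 hn

/-- **`R = 20`, `∑ h ≤ 21`, at least 6 rows: no items** -/
theorem noItC20_21 {n : ℕ} (hn : 6 ≤ n) : NoItC ((20 : ℕ) : ℤ) ((21 : ℕ) : ℤ) n := by
  refine NoItC.of_pr (q := 4) hn fun a b hba hs => ?_
  have ha : a ≤ 14 := by omega
  interval_cases a
  · have hb : b ≤ 0 := by omega
    interval_cases b
    · exact BlkC.pr20_21_0_0 hn
  · have hb : b ≤ 1 := by omega
    interval_cases b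
    · exact BlkC.pr20_21_1_0 hn
    · exact BlkC.pr20_21_1_1 hn
  · have hb : b ≤ 2 := by omega
    interval_cases b
    · exact BlkC.pr20_21_2_0 hn
    · exact BlkC.pr20_21_2_1 hn
    · exact BlkC.pr20_21_2_2 hn
  · have hb : b ≤ 3 := by omega
    interval_cases b
    · exact BlkC.pr20_21_3_0 hn
    · exact BlkC.pr20_21_3_1 hn
    · exact BlkC.pr20_21_3_2 hn
    · exact BlkC.pr20_21_3_3 hn
  · have hb : b ≤ 4 := by omega
    interval_cases b
    · exact BlkC.pr20_21_4_0 hn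
    · exact BlkC.pr20_21_4_1 hn
    · exact BlkC.pr20_21_4_2 hn
    · exact BlkC.pr20_21_4_3 hn
    · exact BlkC.pr20_21_4_4 hn
  · have hb : b ≤ 5 := by omega
    interval_cases b
    · exact BlkC.pr20_21_5_0 hn
    · exact BlkC.pr20_21_5_1 hn
    · exact BlkC.pr20_21_5_2 hn
    · exact BlkC.pr20_21_5_3 hn
    · exact BlkC.pr20_21_5_4 hn
    · exact BlkC.pr20_21_5_5 hn
  · have hb : b ≤ 6 := by omega
    interval_cases b
    · exact BlkC.pr20_21_6_0 hn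
    · exact BlkC.pr20_21_6_1 hn
    · exact BlkC.pr20_21_6_2 hn
    · exact BlkC.pr20_21_6_3 hn
    · exact BlkC.pr20_21_6_4 hn
    · exact BlkC.pr20_21_6_5 hn
    · exact BlkC.pr20_21_6_6 hn
  · have hb : b ≤ 7 := by omega
    interval_cases b
    · exact BlkC.pr20_21_7_0 hn
    · exact BlkC.pr20_21_7_1 hn
    · exact BlkC.pr20_21_7_2 hn
    · exact BlkC.pr20_21_7_3 hn
    · exact BlkC.pr20_21_7_4 hn
    · exact BlkC.pr20_21_7_5 hn
    · exact BlkC.pr20_21_7_6 hn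
    · exact BlkC.pr20_21_7_7 hn
  · have hb : b ≤ 6 := by omega
    interval_cases b
    · exact BlkC.pr20_21_8_0 hn
    · exact BlkC.pr20_21_8_1 hn
    · exact BlkC.pr20_21_8_2 hn
    · exact BlkC.pr20_21_8_3 hn
    · exact BlkC.pr20_21_8_4 hn
    · exact BlkC.pr20_21_8_5 hn
    · exact BlkC.pr20_21_8_6 hn
  · have hb : b ≤ 5 := by omega
    interval_cases b
    · exact BlkC.pr20_21_9_0 hn
    · exact BlkC.pr20_21_9_1 hn
    · exact BlkC.pr20_21_9_2 hn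
    · exact BlkC.pr20_21_9_3 hn
    · exact BlkC.pr20_21_9_4 hn
    · exact BlkC.pr20_21_9_5 hn
  · have hb : b ≤ 4 := by omega
    interval_cases b
    · exact BlkC.pr20_21_10_0 hn
    · exact BlkC.pr20_21_10_1 hn
    · exact BlkC.pr20_21_10_2 hn
    · exact BlkC.pr20_21_10_3 hn
    · exact BlkC.pr20_21_10_4 hn
  · have hb : b ≤ 3 := by omega
    interval_cases b
    · exact BlkC.pr20_21_11_0 hn
    · exact BlkC.pr20_21_11_1 hn
    · exact BlkC.pr20_21_11_2 hn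
    · exact BlkC.pr20_21_11_3 hn
  · have hb : b ≤ 2 := by omega
    interval_cases b
    · exact BlkC.pr20_21_12_0 hn
    · exact BlkC.pr20_21_12_1 hn
    · exact BlkC.pr20_21_12_2 hn
  · have hb : b ≤ 1 := by omega
    interval_cases b
    · exact BlkC.pr20_21_13_0 hn
    · exact BlkC.pr20_21_13_1 hn
  · have hb : b ≤ 0 := by omega
    interval_cases b
    · exact BlkC.pr20_21_14_0 hn

end Pool.Agent.Lib.MP_f04ccf_co
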