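import Pool.Agent.Lib.MP_f04ccf_co.M.BlkT

/-!
MP_f04ccf_co, block certificate, data `R = 20`, `H = 20`, part 1 (generated, helper99:
bd10.cpp, gen2.py).
-/

set_option autoImplicit false
set_option maxRecDepth 100000

namespace Pool.Agent.Lib.MP_f04ccf_co

namespace BlkC

/-- the numbers of the pair `(0, 0)`, `R = 20`, `H = 20` -/
def d20_20_0_0 : BlkD.Pd :=
  ⟨20, 20, 3, 0, 0, 17, 0, 1, 0, 4, 4, 0, 0, 4, 4, 0, [0, 4, 8, 12, 16, 20, 24, 28, 32, 36, 40, 44,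
    48, 52, 56, 60, 64, 68], [0, 4, 8, 12, 16, 20, 24, 28, 32, 36, 40, 44, 48, 52, 56, 60, 64, 68],
    [⟨1, 1, 1, 4, 8, [0, 4], [0, 4]⟩]⟩

/-- the certificates of the pair `(0, 0)` -/
def t20_20_0_0 : BlkD.Tr :=
  .S 0 0 (.S 2 0 (.L 4 4 [4] [] [] 100000 0 0 100000 0 0 100000 0 0 0 0) (.E 1)) (.E 0)

lemma pr20_20_0_0 {n : ℕ} (hn : 5 ≤ n) : NoPr ((20 : ℕ) : ℤ) ((20 : ℕ) : ℤ) n 0 0 :=
  BlkD.pair_sound (d := d20_20_0_0) (by decide +kernel) hn (by decide) (tr := t20_20_0_0)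
    (by decide +kernel) rfl rfl rfl rfl

/-- the numbers of the pair `(1, 0)`, `R = 20`, `H = 20` -/
def d20_20_1_0 : BlkD.Pd :=
  ⟨20, 20, 3, 1, 0, 16, 0, 1, 0, 4, 4, 0, 0, 4, 4, 0, [0, 4, 8, 12, 16, 20, 24, 28, 32, 36, 40, 44,
    48, 52, 56, 60, 64], [0, 4, 8, 12, 16, 20, 24, 28, 32, 36, 40, 44, 48, 52, 56, 60, 64], [⟨1, 1,
    1, 4, 8, [0, 4], [0, 4]⟩]⟩

/-- the certificates of the pair `(1, 0)` -/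
def t20_20_1_0 : BlkD.Tr :=
  .S 0 1 (.S 2 0 (.L 4 4 [4] [] [] 100000 0 0 200000 0 0 0 100000 0 0 0) (.E 1)) (.E 0)

lemma pr20_20_1_0 {n : ℕ} (hn : 5 ≤ n) : NoPr ((20 : ℕ) : ℤ) ((20 : ℕ) : ℤ) n 1 0 :=
  BlkD.pair_sound (d := d20_20_1_0) (by decide +kernel) hn (by decide) (tr := t20_20_1_0)
    (by decide +kernel) rfl rfl rfl rfl

/-- the numbers of the pair `(1, 1)`, `R = 20`, `H = 20` -/
def d20_20_1_1 : BlkD.Pd :=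
  ⟨20, 20, 3, 1, 1, 15, 1, 1, 0, 4, 4, 0, 0, 4, 4, 0, [0, 4, 8, 12, 16, 20, 24, 28, 32, 36, 40, 44,
    48, 52, 56, 60], [0, 4, 8, 12, 16, 20, 24, 28, 32, 36, 40, 44, 48, 52, 56, 60], [⟨1, 1, 1, 4,
    8, [0, 4], [0, 4]⟩, ⟨1, 1, 1, 4, 8, [0, 4], [0, 4]⟩]⟩

/-- the certificates of the pair `(1, 1)` -/
def t20_20_1_1 : BlkD.Tr :=
  .S 0 1 (.S 2 1 (.L 4 4 [4, 4] [] [] 100000 0 0 400000 0 0 0 0 0 0 0) (.E 1)) (.E 0)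

lemma pr20_20_1_1 {n : ℕ} (hn : 5 ≤ n) : NoPr ((20 : ℕ) : ℤ) ((20 : ℕ) : ℤ) n 1 1 :=
  BlkD.pair_sound (d := d20_20_1_1) (by decide +kernel) hn (by decide) (tr := t20_20_1_1)
    (by decide +kernel) rfl rfl rfl rfl

/-- the numbers of the pair `(2, 0)`, `R = 20`, `H = 20` -/
def d20_20_2_0 : BlkD.Pd :=
  ⟨20, 20, 3, 2, 0, 15, 0, 1, 0, 4, 4, 0, 0, 4, 4, 0, [0, 4, 8, 12, 16, 20, 24, 28, 32, 36, 40, 44,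
    48, 52, 56, 60], [0, 4, 8, 12, 16, 20, 24, 28, 32, 36, 40, 44, 48, 52, 56, 60], [⟨1, 1, 1, 4,
    8, [0, 4], [0, 4]⟩]⟩

/-- the certificates of the pair `(2, 0)` -/
def t20_20_2_0 : BlkD.Tr :=
  .S 0 2 (.S 2 0 (.L 4 4 [4] [] [] 100000 0 0 300000 0 0 0 100000 0 0 0) (.E 1)) (.E 0)

lemma pr20_20_2_0 {n : ℕ} (hn : 5 ≤ n) : NoPr ((20 : ℕ) : ℤ) ((20 : ℕ) : ℤ) n 2 0 :=
  BlkD.pair_sound (d := d20_20_2_0) (by decide +kernel) hn (by decide) (tr := t20_20_2_0)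
    (by decide +kernel) rfl rfl rfl rfl

/-- the numbers of the pair `(2, 1)`, `R = 20`, `H = 20` -/
def d20_20_2_1 : BlkD.Pd :=
  ⟨20, 20, 3, 2, 1, 14, 1, 1, 0, 4, 4, 0, 0, 4, 4, 0, [0, 4, 8, 12, 16, 20, 24, 28, 32, 36, 40, 44,
    48, 52, 56], [0, 4, 8, 12, 16, 20, 24, 28, 32, 36, 40, 44, 48, 52, 56], [⟨1, 1, 1, 4, 8, [0,
    4], [0, 4]⟩, ⟨1, 1, 1, 4, 8, [0, 4], [0, 4]⟩]⟩

/-- the certificates of the pair `(2, 1)` -/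
def t20_20_2_1 : BlkD.Tr :=
  .S 0 2 (.S 2 1 (.L 4 4 [4, 4] [] [] 100000 0 0 500000 0 0 0 0 0 0 0) (.E 1)) (.E 0)

lemma pr20_20_2_1 {n : ℕ} (hn : 5 ≤ n) : NoPr ((20 : ℕ) : ℤ) ((20 : ℕ) : ℤ) n 2 1 :=
  BlkD.pair_sound (d := d20_20_2_1) (by decide +kernel) hn (by decide) (tr := t20_20_2_1)
    (by decide +kernel) rfl rfl rfl rfl

/-- the numbers of the pair `(2, 2)`, `R = 20`, `H = 20` -/
def d20_20_2_2 : BlkD.Pd :=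
  ⟨20, 20, 3, 2, 2, 13, 2, 1, 0, 4, 6, 0, 0, 4, 6, 0, [0, 6, 12, 18, 24, 30, 36, 42, 48, 52, 52,
    52, 52, 52], [0, 6, 12, 18, 24, 30, 36, 42, 48, 52, 52, 52, 52, 52], [⟨1, 1, 1, 4, 8, [0, 4],
    [0, 4]⟩, ⟨1, 1, 1, 4, 8, [0, 4], [0, 4]⟩, ⟨1, 1, 1, 6, 12, [0, 6], [0, 6]⟩]⟩

/-- the certificates of the pair `(2, 2)` -/
def t20_20_2_2 : BlkD.Tr :=
  .S 0 2 (.S 2 2 (.L 4 4 [4, 4, 4] [] [] 100000 0 0 600000 0 0 0 0 0 0 0) (.E 1)) (.E 0)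

lemma pr20_20_2_2 {n : ℕ} (hn : 5 ≤ n) : NoPr ((20 : ℕ) : ℤ) ((20 : ℕ) : ℤ) n 2 2 :=
  BlkD.pair_sound (d := d20_20_2_2) (by decide +kernel) hn (by decide) (tr := t20_20_2_2)
    (by decide +kernel) rfl rfl rfl rfl

/-- the numbers of the pair `(3, 0)`, `R = 20`, `H = 20` -/
def d20_20_3_0 : BlkD.Pd :=
  ⟨20, 20, 3, 3, 0, 14, 0, 1, 0, 4, 4, 0, 0, 4, 4, 0, [0, 4, 8, 12, 16, 20, 24, 28, 32, 36, 40, 44,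
    48, 52, 56], [0, 4, 8, 12, 16, 20, 24, 28, 32, 36, 40, 44, 48, 52, 56], [⟨1, 1, 1, 4, 8, [0,
    4], [0, 4]⟩]⟩

/-- the certificates of the pair `(3, 0)` -/
def t20_20_3_0 : BlkD.Tr :=
  .S 0 3 (.S 2 0 (.L 4 4 [4] [] [] 100000 0 0 420000 0 0 20000 80000 0 0 0) (.E 1)) (.E 0)

lemma pr20_20_3_0 {n : ℕ} (hn : 5 ≤ n) : NoPr ((20 : ℕ) : ℤ) ((20 : ℕ) : ℤ) n 3 0 :=
  BlkD.pair_sound (d := d20_20_3_0) (by decide +kernel) hn (by decide) (tr := t20_20_3_0)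
    (by decide +kernel) rfl rfl rfl rfl

/-- the numbers of the pair `(3, 1)`, `R = 20`, `H = 20` -/
def d20_20_3_1 : BlkD.Pd :=
  ⟨20, 20, 3, 3, 1, 13, 1, 1, 0, 4, 6, 0, 0, 4, 4, 0, [0, 6, 12, 18, 24, 30, 36, 42, 48, 52, 52,
    52, 52, 52], [0, 4, 8, 12, 16, 20, 24, 28, 32, 36, 40, 44, 48, 52], [⟨1, 1, 1, 4, 8, [0, 4],
    [0, 4]⟩, ⟨1, 1, 1, 4, 10, [0, 6], [0, 4]⟩]⟩

/-- the certificates of the pair `(3, 1)` -/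
def t20_20_3_1 : BlkD.Tr :=
  .S 0 3 (.S 2 1 (.L 4 4 [4, 4] [] [] 100000 0 0 600000 0 0 25000 0 0 0 0) (.E 1)) (.E 0)

lemma pr20_20_3_1 {n : ℕ} (hn : 5 ≤ n) : NoPr ((20 : ℕ) : ℤ) ((20 : ℕ) : ℤ) n 3 1 :=
  BlkD.pair_sound (d := d20_20_3_1) (by decide +kernel) hn (by decide) (tr := t20_20_3_1)
    (by decide +kernel) rfl rfl rfl rfl

/-- the numbers of the pair `(3, 2)`, `R = 20`, `H = 20` -/
def d20_20_3_2 : BlkD.Pd :=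
  ⟨20, 20, 3, 3, 2, 12, 2, 1, 0, 4, 6, 0, 0, 4, 6, 0, [0, 6, 12, 18, 24, 30, 36, 42, 48, 48, 48,
    48, 48], [0, 6, 12, 18, 24, 30, 36, 42, 48, 48, 48, 48, 48], [⟨1, 1, 1, 4, 8, [0, 4], [0, 4]⟩,
    ⟨1, 1, 1, 4, 10, [0, 6], [0, 4]⟩, ⟨1, 1, 1, 6, 12, [0, 6], [0, 6]⟩]⟩

/-- the certificates of the pair `(3, 2)` -/
def t20_20_3_2 : BlkD.Tr :=
  .S 0 3 (.S 2 2 (.L 4 5 [4, 4, 4] [] [] 100000 0 0 700000 0 0 25000 0 0 0 0) (.E 1)) (.E 0)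

lemma pr20_20_3_2 {n : ℕ} (hn : 5 ≤ n) : NoPr ((20 : ℕ) : ℤ) ((20 : ℕ) : ℤ) n 3 2 :=
  BlkD.pair_sound (d := d20_20_3_2) (by decide +kernel) hn (by decide) (tr := t20_20_3_2)
    (by decide +kernel) rfl rfl rfl rfl

/-- the numbers of the pair `(3, 3)`, `R = 20`, `H = 20` -/
def d20_20_3_3 : BlkD.Pd :=
  ⟨20, 20, 3, 3, 3, 11, 3, 1, 4, 1, 8, 0, 4, 1, 8, 0, [0, 8, 16, 23, 27, 31, 35, 39, 43, 47, 51,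
    55], [0, 8, 16, 23, 27, 31, 35, 39, 43, 47, 51, 55], [⟨1, 1, 1, 4, 8, [0, 4], [0, 4]⟩, ⟨1, 1,
    1, 6, 12, [0, 6], [0, 6]⟩, ⟨1, 1, 1, 6, 12, [0, 6], [0, 6]⟩, ⟨1, 1, 1, 8, 16, [0, 8], [0, 8]⟩]⟩

/-- the certificates of the pair `(3, 3)` -/
def t20_20_3_3 : BlkD.Tr :=
  .S 0 3 (.S 2 3 (.L 5 5 [4, 4, 4, 5] [] [] 100000 4924 4922 800006 0 0 50000 50000 27273 27273
    30682) (.E 1)) (.E 0)

lemma pr20_20_3_3 {n : ℕ} (hn : 5 ≤ n) : NoPr ((20 : ℕ) : ℤ) ((20 : ℕ) : ℤ) n 3 3 :=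
  BlkD.pair_sound (d := d20_20_3_3) (by decide +kernel) hn (by decide) (tr := t20_20_3_3)
    (by decide +kernel) rfl rfl rfl rfl

/-- the numbers of the pair `(4, 0)`, `R = 20`, `H = 20` -/
def d20_20_4_0 : BlkD.Pd :=
  ⟨20, 20, 3, 4, 0, 13, 0, 1, 0, 4, 4, 0, 0, 4, 4, 0, [0, 4, 8, 12, 16, 20, 24, 28, 32, 36, 40, 44,
    48, 52], [0, 4, 8, 12, 16, 20, 24, 28, 32, 36, 40, 44, 48, 52], [⟨1, 1, 1, 4, 8, [0, 4], [0,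
    4]⟩]⟩

/-- the certificates of the pair `(4, 0)` -/
def t20_20_4_0 : BlkD.Tr :=
  .S 0 4 (.S 2 0 (.L 4 4 [4] [] [] 100000 0 0 500001 33333 0 33333 66667 0 0 0) (.E 1)) (.E 0)

lemma pr20_20_4_0 {n : ℕ} (hn : 5 ≤ n) : NoPr ((20 : ℕ) : ℤ) ((20 : ℕ) : ℤ) n 4 0 :=
  BlkD.pair_sound (d := d20_20_4_0) (by decide +kernel) hn (by decide) (tr := t20_20_4_0)
    (by decide +kernel) rfl rfl rfl rfl

/-- the numbers of the pair `(4, 1)`, `R = 20`, `H = 20` -/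
def d20_20_4_1 : BlkD.Pd :=
  ⟨20, 20, 3, 4, 1, 12, 1, 1, 0, 4, 6, 0, 0, 4, 4, 0, [0, 6, 12, 18, 24, 30, 36, 42, 48, 48, 48,
    48, 48], [0, 4, 8, 12, 16, 20, 24, 28, 32, 36, 40, 44, 48], [⟨1, 1, 1, 4, 8, [0, 4], [0, 4]⟩,
    ⟨1, 1, 1, 4, 10, [0, 6], [0, 4]⟩]⟩

/-- the certificates of the pair `(4, 1)` -/
def t20_20_4_1 : BlkD.Tr :=
  .S 0 4 (.S 2 1 (.L 4 4 [4, 4] [] [] 100000 0 0 680000 20000 0 40000 0 0 0 0) (.E 1)) (.E 0)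

lemma pr20_20_4_1 {n : ℕ} (hn : 5 ≤ n) : NoPr ((20 : ℕ) : ℤ) ((20 : ℕ) : ℤ) n 4 1 :=
  BlkD.pair_sound (d := d20_20_4_1) (by decide +kernel) hn (by decide) (tr := t20_20_4_1)
    (by decide +kernel) rfl rfl rfl rfl

/-- the numbers of the pair `(4, 2)`, `R = 20`, `H = 20` -/
def d20_20_4_2 : BlkD.Pd :=
  ⟨20, 20, 3, 4, 2, 11, 2, 1, 2, 2, 8, 0, 0, 4, 6, 0, [0, 8, 16, 24, 30, 32, 34, 36, 38, 40, 42,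
    44], [0, 6, 12, 18, 24, 30, 36, 42, 44, 44, 44, 44], [⟨1, 1, 1, 4, 8, [0, 4], [0, 4]⟩, ⟨1, 1,
    1, 4, 10, [0, 6], [0, 4]⟩, ⟨1, 1, 1, 6, 14, [0, 8], [0, 6]⟩]⟩

/-- the certificates of the pair `(4, 2)` -/
def t20_20_4_2 : BlkD.Tr :=
  .S 0 4 (.S 2 2 (.L 4 5 [4, 4, 4] [] [] 100000 0 0 800000 0 0 50000 0 0 0 0) (.E 1)) (.E 0)

lemma pr20_20_4_2 {n : ℕ} (hn : 5 ≤ n) : NoPr ((20 : ℕ) : ℤ) ((20 : ℕ) : ℤ) n 4 2 :=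
  BlkD.pair_sound (d := d20_20_4_2) (by decide +kernel) hn (by decide) (tr := t20_20_4_2)
    (by decide +kernel) rfl rfl rfl rfl

/-- the numbers of the pair `(4, 3)`, `R = 20`, `H = 20` -/
def d20_20_4_3 : BlkD.Pd :=
  ⟨20, 20, 3, 4, 3, 10, 3, 1, 2, 2, 8, 0, 4, 1, 8, 0, [0, 8, 16, 24, 28, 30, 32, 34, 36, 38, 40],
    [0, 8, 16, 22, 26, 30, 34, 38, 42, 46, 50], [⟨1, 1, 1, 4, 8, [0, 4], [0, 4]⟩, ⟨1, 1, 1, 6, 12,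
    [0, 6], [0, 6]⟩, ⟨1, 1, 1, 6, 14, [0, 8], [0, 6]⟩, ⟨1, 1, 1, 8, 16, [0, 8], [0, 8]⟩]⟩

/-- the certificates of the pair `(4, 3)` -/
def t20_20_4_3 : BlkD.Tr :=
  .S 0 4 (.S 2 3 (.L 5 5 [4, 4, 4, 5] [] [] 100000 4166 4164 900000 0 0 50000 37500 25000 25000
    37500) (.E 1)) (.E 0)

lemma pr20_20_4_3 {n : ℕ} (hn : 5 ≤ n) : NoPr ((20 : ℕ) : ℤ) ((20 : ℕ) : ℤ) n 4 3 :=
  BlkD.pair_sound (d := d20_20_4_3) (by decide +kernel) hn (by decide) (tr := t20_20_4_3)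
    (by decide +kernel) rfl rfl rfl rfl

/-- the numbers of the pair `(5, 0)`, `R = 20`, `H = 20` -/
def d20_20_5_0 : BlkD.Pd :=
  ⟨20, 20, 3, 5, 0, 12, 0, 1, 0, 4, 4, 0, 0, 4, 4, 0, [0, 4, 8, 12, 16, 20, 24, 28, 32, 36, 40, 44,
    48], [0, 4, 8, 12, 16, 20, 24, 28, 32, 36, 40, 44, 48], [⟨1, 1, 1, 4, 8, [0, 4], [0, 4]⟩]⟩

/-- the certificates of the pair `(5, 0)` -/
def t20_20_5_0 : BlkD.Tr :=
  .S 0 5 (.S 2 0 (.L 4 4 [4] [] [] 100000 0 0 614287 28571 0 42857 57143 0 0 0) (.E 1)) (.E 0)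

lemma pr20_20_5_0 {n : ℕ} (hn : 5 ≤ n) : NoPr ((20 : ℕ) : ℤ) ((20 : ℕ) : ℤ) n 5 0 :=
  BlkD.pair_sound (d := d20_20_5_0) (by decide +kernel) hn (by decide) (tr := t20_20_5_0)
    (by decide +kernel) rfl rfl rfl rfl

/-- the numbers of the pair `(5, 1)`, `R = 20`, `H = 20` -/
def d20_20_5_1 : BlkD.Pd :=
  ⟨20, 20, 3, 5, 1, 11, 1, 1, 2, 2, 6, 0, 0, 4, 4, 0, [0, 6, 12, 18, 24, 30, 34, 36, 38, 40, 42,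
    44], [0, 4, 8, 12, 16, 20, 24, 28, 32, 36, 40, 44], [⟨1, 1, 1, 4, 8, [0, 4], [0, 4]⟩, ⟨1, 1, 1,
    4, 10, [0, 6], [0, 4]⟩]⟩

/-- the certificates of the pair `(5, 1)` -/
def t20_20_5_1 : BlkD.Tr :=
  .S 0 5 (.S 2 1 (.L 4 5 [4, 4] [] [] 100000 0 0 775000 25000 0 50000 0 0 0 0) (.E 1)) (.E 0)

lemma pr20_20_5_1 {n : ℕ} (hn : 5 ≤ n) : NoPr ((20 : ℕ) : ℤ) ((20 : ℕ) : ℤ) n 5 1 :=
  BlkD.pair_sound (d := d20_20_5_1) (by decide +kernel) hn (by decide) (tr := t20_20_5_1)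
    (by decide +kernel) rfl rfl rfl rfl

/-- the numbers of the pair `(5, 2)`, `R = 20`, `H = 20` -/
def d20_20_5_2 : BlkD.Pd :=
  ⟨20, 20, 3, 5, 2, 10, 2, 1, 2, 2, 8, 0, 0, 4, 6, 0, [0, 8, 16, 24, 28, 30, 32, 34, 36, 38, 40],
    [0, 6, 12, 18, 24, 30, 36, 40, 40, 40, 40], [⟨1, 1, 1, 4, 8, [0, 4], [0, 4]⟩, ⟨1, 1, 1, 4, 10,
    [0, 6], [0, 4]⟩, ⟨1, 1, 1, 6, 14, [0, 8], [0, 6]⟩]⟩

/-- the certificates of the pair `(5, 2)` -/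
def t20_20_5_2 : BlkD.Tr :=
  .S 0 5 (.S 2 2 (.S 0 2 (.L 4 6 [4, 4, 4] [] [] 100000 1739 0 882610 23478 0 46957 7826 6087 6087
    6087) (.L 4 6 [4, 4, 4] [] [] 100000 1739 0 882610 23478 0 46957 7826 6087 6087 6087)) (.E 1))
    (.E 0)

lemma pr20_20_5_2 {n : ℕ} (hn : 5 ≤ n) : NoPr ((20 : ℕ) : ℤ) ((20 : ℕ) : ℤ) n 5 2 :=
  BlkD.pair_sound (d := d20_20_5_2) (by decide +kernel) hn (by decide) (tr := t20_20_5_2)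
    (by decide +kernel) rfl rfl rfl rfl

/-- the numbers of the pair `(5, 3)`, `R = 20`, `H = 20` -/
def d20_20_5_3 : BlkD.Pd :=
  ⟨20, 20, 3, 5, 3, 9, 3, 1, 2, 2, 10, 0, 4, 1, 8, 0, [0, 10, 20, 24, 26, 28, 30, 32, 34, 36], [0,
    8, 16, 21, 25, 29, 33, 37, 41, 45], [⟨1, 1, 1, 4, 8, [0, 4], [0, 4]⟩, ⟨1, 1, 1, 6, 12, [0, 6],
    [0, 6]⟩, ⟨1, 1, 1, 6, 14, [0, 8], [0, 6]⟩, ⟨1, 1, 1, 8, 18, [0, 10], [0, 8]⟩]⟩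

lemma k20_20_5_3 : BlkD.pairOk d20_20_5_3 = true := by decide +kernel

/-- certificates of the pair `(5, 3)`, part 1 -/
def t20_20_5_3_1 : BlkD.Tr :=
  .S 0 1 (.L 5 6 [4, 4, 4, 5] [] [] 100000 8433 8432 1013588 17283 0 50000 33333 16402 23732 34567)
    (.L 5 6 [4, 4, 4, 5] [] [] 100000 8433 8432 1013588 17283 0 50000 33333 16402 23732 34567)

lemma s20_20_5_3_1 {n : ℕ} (hn : 5 ≤ n) : NoNd (d20_20_5_3.R : ℤ) d20_20_5_3.H n d20_20_5_3.a d20_20_5_3.b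
    (BlkD.inB (fun _ => 0)
      (BlkD.upd (BlkD.upd (BlkD.upd (fun _ => 20) 0 5) 2 3) 0 2)) :=
  BlkD.tree_sound (BlkD.pairOk_sound k20_20_5_3) (by decide) hn t20_20_5_3_1 _ _ (by decide +kernel)

/-- certificates of the pair `(5, 3)`, part 2 -/
def t20_20_5_3_2 : BlkD.Tr :=
  .L 5 6 [4, 4, 4, 5] [] [] 100000 4561 4560 1022222 0 0 77778 38889 22222 24691 39403

lemma s20_20_5_3_2 {n : ℕ} (hn : 5 ≤ n) : NoNd (d20_20_5_3.R : ℤ) d20_20_5_3.H n d20_20_5_3.a d20_20_5_3.b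
    (BlkD.inB (BlkD.upd (fun _ => 0) 0 3)
      (BlkD.upd (BlkD.upd (fun _ => 20) 0 5) 2 3)) :=
  BlkD.tree_sound (BlkD.pairOk_sound k20_20_5_3) (by decide) hn t20_20_5_3_2 _ _ (by decide +kernel)

/-- certificates of the pair `(5, 3)`, part 3 -/
def t20_20_5_3_3 : BlkD.Tr :=
  .E 1

lemma s20_20_5_3_3 {n : ℕ} (hn : 5 ≤ n) : NoNd (d20_20_5_3.R : ℤ) d20_20_5_3.H n d20_20_5_3.a d20_20_5_3.b
    (BlkD.inB (BlkD.upd (fun _ => 0) 2 4)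
      (BlkD.upd (fun _ => 20) 0 5)) :=
  BlkD.tree_sound (BlkD.pairOk_sound k20_20_5_3) (by decide) hn t20_20_5_3_3 _ _ (by decide +kernel)

/-- certificates of the pair `(5, 3)`, part 4 -/
def t20_20_5_3_4 : BlkD.Tr :=
  .E 0

lemma s20_20_5_3_4 {n : ℕ} (hn : 5 ≤ n) : NoNd (d20_20_5_3.R : ℤ) d20_20_5_3.H n d20_20_5_3.a d20_20_5_3.b
    (BlkD.inB (BlkD.upd (fun _ => 0) 0 6)
      (fun _ => 20)) :=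
  BlkD.tree_sound (BlkD.pairOk_sound k20_20_5_3) (by decide) hn t20_20_5_3_4 _ _ (by decide +kernel)

lemma pr20_20_5_3 {n : ℕ} (hn : 5 ≤ n) : NoPr ((20 : ℕ) : ℤ) ((20 : ℕ) : ℤ) n 5 3 :=
  BlkD.of_root (R := d20_20_5_3.R) (H := d20_20_5_3.H) (a := d20_20_5_3.a) (b := d20_20_5_3.b) (q := 3) (by decide) hn
    (BlkD.sp 0 5 (BlkD.sp 2 3 (BlkD.sp 0 2 (s20_20_5_3_1 hn) (s20_20_5_3_2 hn)) (s20_20_5_3_3 hn))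
      (s20_20_5_3_4 hn))

end BlkC

end Pool.Agent.Lib.MP_f04ccf_co
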