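import Pool.Agent.Lib.MP_f04ccf_co.M.BlkT

/-!
MP_f04ccf_co, block certificate, data `R = 20`, `H = 20`, part 10 (generated, helper99:
bd10.cpp, gen2.py).
-/

set_option autoImplicit false
set_option maxRecDepth 100000

namespace Pool.Agent.Lib.MP_f04ccf_co

namespace BlkC

/-- the numbers of the pair `(8, 3)`, `R = 20`, `H = 20` -/
def d20_20_8_3 : BlkD.Pd :=
  ⟨20, 20, 3, 8, 3, 6, 3, 2, 1, 4, 12, 0, 2, 2, 8, 0, [0, 12, 24, 27, 28, 29, 30], [0, 8, 16, 18,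
    20, 22, 24], [⟨1, 1, 1, 4, 8, [0, 4], [0, 4]⟩, ⟨1, 1, 1, 4, 14, [0, 8], [0, 6]⟩, ⟨2, 1, 1, 4,
    16, [0, 10, 10], [0, 6]⟩, ⟨2, 1, 1, 4, 26, [0, 12, 18], [0, 8]⟩]⟩

lemma k20_20_8_3 : BlkD.pairOk d20_20_8_3 = true := by decide +kernel

/-- certificates of the pair `(8, 3)`, part 1 -/
def t20_20_8_3_1 : BlkD.Tr :=
  .L 5 7 [4, 4, 4, 5] [] [] 100000 116667 116667 966666 77778 0 88889 33333 0 0 25000

lemma s20_20_8_3_1 {n : ℕ} (hn : 5 ≤ n) : NoNd (d20_20_8_3.R : ℤ) d20_20_8_3.H n d20_20_8_3.a d20_20_8_3.b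
    (BlkD.inB (fun _ => 0)
      (BlkD.upd (BlkD.upd (BlkD.upd (BlkD.upd (BlkD.upd (BlkD.upd (fun _ => 20) 0 8) 2 3) 0 4) 0 2) 0 1) 0 0)) :=
  BlkD.tree_sound (BlkD.pairOk_sound k20_20_8_3) (by decide) hn t20_20_8_3_1 _ _ (by decide +kernel)

/-- certificates of the pair `(8, 3)`, part 2 -/
def t20_20_8_3_2 : BlkD.Tr :=
  .S 1 10 (.S 1 5 (.L 5 7 [4, 4, 4, 5] [] [] 100000 116667 116667 966666 77778 0 88889 33333 0 0
    25000) (.L 5 7 [4, 4, 4, 5] [] [] 100000 116667 116667 966666 77778 0 88889 33333 0 0 25000))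
    (.L 5 7 [4, 4, 4, 5] [] [] 100000 116667 116667 966666 77778 0 88889 33333 0 0 25000)

lemma s20_20_8_3_2 {n : ℕ} (hn : 5 ≤ n) : NoNd (d20_20_8_3.R : ℤ) d20_20_8_3.H n d20_20_8_3.a d20_20_8_3.b
    (BlkD.inB (BlkD.upd (fun _ => 0) 0 1)
      (BlkD.upd (BlkD.upd (BlkD.upd (BlkD.upd (BlkD.upd (fun _ => 20) 0 8) 2 3) 0 4) 0 2) 0 1)) :=
  BlkD.tree_sound (BlkD.pairOk_sound k20_20_8_3) (by decide) hn t20_20_8_3_2 _ _ (by decide +kernel)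

/-- certificates of the pair `(8, 3)`, part 3 -/
def t20_20_8_3_3 : BlkD.Tr :=
  .L 5 7 [4, 4, 4, 5] [] [] 100000 116667 116667 966666 77778 0 88889 33333 0 0 25000

lemma s20_20_8_3_3 {n : ℕ} (hn : 5 ≤ n) : NoNd (d20_20_8_3.R : ℤ) d20_20_8_3.H n d20_20_8_3.a d20_20_8_3.b
    (BlkD.inB (BlkD.upd (fun _ => 0) 0 2)
      (BlkD.upd (BlkD.upd (BlkD.upd (BlkD.upd (BlkD.upd (BlkD.upd (fun _ => 20) 0 8) 2 3) 0 4) 0 2) 1 10) 1 5)) :=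
  BlkD.tree_sound (BlkD.pairOk_sound k20_20_8_3) (by decide) hn t20_20_8_3_3 _ _ (by decide +kernel)

/-- certificates of the pair `(8, 3)`, part 4 -/
def t20_20_8_3_4 : BlkD.Tr :=
  .L 5 7 [4, 4, 4, 5] [] [] 100000 116667 116667 966666 77778 0 88889 33333 0 0 25000

lemma s20_20_8_3_4 {n : ℕ} (hn : 5 ≤ n) : NoNd (d20_20_8_3.R : ℤ) d20_20_8_3.H n d20_20_8_3.a d20_20_8_3.b
    (BlkD.inB (BlkD.upd (BlkD.upd (fun _ => 0) 0 2) 1 6)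
      (BlkD.upd (BlkD.upd (BlkD.upd (BlkD.upd (BlkD.upd (fun _ => 20) 0 8) 2 3) 0 4) 0 2) 1 10)) :=
  BlkD.tree_sound (BlkD.pairOk_sound k20_20_8_3) (by decide) hn t20_20_8_3_4 _ _ (by decide +kernel)

/-- certificates of the pair `(8, 3)`, part 5 -/
def t20_20_8_3_5 : BlkD.Tr :=
  .L 5 7 [4, 4, 4, 5] [] [] 100000 116667 116667 966666 77778 0 88889 33333 0 0 25000

lemma s20_20_8_3_5 {n : ℕ} (hn : 5 ≤ n) : NoNd (d20_20_8_3.R : ℤ) d20_20_8_3.H n d20_20_8_3.a d20_20_8_3.b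
    (BlkD.inB (BlkD.upd (BlkD.upd (fun _ => 0) 0 2) 1 11)
      (BlkD.upd (BlkD.upd (BlkD.upd (BlkD.upd (fun _ => 20) 0 8) 2 3) 0 4) 0 2)) :=
  BlkD.tree_sound (BlkD.pairOk_sound k20_20_8_3) (by decide) hn t20_20_8_3_5 _ _ (by decide +kernel)

/-- certificates of the pair `(8, 3)`, part 6 -/
def t20_20_8_3_6 : BlkD.Tr :=
  .S 1 4 (.L 5 7 [4, 4, 4, 5] [] [] 100000 41667 41667 1075000 25000 0 25000 25000 0 0 0) (.S 1 6
    (.L 5 7 [4, 4, 4, 5] [] [] 100000 25287 25286 1248278 17241 0 17241 48276 0 27586 24138) (.S 1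
    7 (.L 5 7 [4, 4, 4, 5] [131, 130, 129, 126, 120, 108] [] 100000 37037 37037 1233336 33333 0
    50000 33333 0 22222 33333) (.L 5 7 [4, 4, 4, 5] [152, 151, 150, 149, 146, 140] [] 100000 52381
    52381 1214287 42857 0 71429 42857 0 14286 28571)))

lemma s20_20_8_3_6 {n : ℕ} (hn : 5 ≤ n) : NoNd (d20_20_8_3.R : ℤ) d20_20_8_3.H n d20_20_8_3.a d20_20_8_3.b
    (BlkD.inB (BlkD.upd (fun _ => 0) 0 3)
      (BlkD.upd (BlkD.upd (BlkD.upd (BlkD.upd (BlkD.upd (BlkD.upd (fun _ => 20) 0 8) 2 3) 0 4) 0 3) 1 17) 1 8)) :=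
  BlkD.tree_sound (BlkD.pairOk_sound k20_20_8_3) (by decide) hn t20_20_8_3_6 _ _ (by decide +kernel)

/-- certificates of the pair `(8, 3)`, part 7 -/
def t20_20_8_3_7 : BlkD.Tr :=
  .S 1 13 (.S 1 11 (.S 1 10 (.S 1 9 (.L 5 7 [4, 4, 4, 5] [175, 174, 173, 172, 171, 168] [] 100000
    71429 71429 1157145 57143 0 85714 42857 0 14286 28571) (.L 5 7 [4, 4, 4, 5] [200, 199, 198,
    197, 196, 195] [] 100000 111628 111628 988374 88372 0 100000 58140 0 6977 11628)) (.L 5 7 [4,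
    4, 4, 5] [227, 226, 225, 224, 223, 222] [] 100000 113043 113043 934784 95652 0 95652 47826 0 0
    0)) (.S 1 12 (.L 5 7 [4, 4, 4, 5] [256, 255, 254, 253, 252, 251] [] 100000 200000 11111 133334
    188889 0 211111 11111 0 0 0) (.L 5 7 [4, 4, 4, 5] [287, 286, 285, 284, 283, 282] [] 100000
    175000 0 0 150000 0 250000 0 0 0 0))) (.E 0)

lemma s20_20_8_3_7 {n : ℕ} (hn : 5 ≤ n) : NoNd (d20_20_8_3.R : ℤ) d20_20_8_3.H n d20_20_8_3.a d20_20_8_3.b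
    (BlkD.inB (BlkD.upd (BlkD.upd (fun _ => 0) 0 3) 1 9)
      (BlkD.upd (BlkD.upd (BlkD.upd (BlkD.upd (BlkD.upd (fun _ => 20) 0 8) 2 3) 0 4) 0 3) 1 17)) :=
  BlkD.tree_sound (BlkD.pairOk_sound k20_20_8_3) (by decide) hn t20_20_8_3_7 _ _ (by decide +kernel)

/-- certificates of the pair `(8, 3)`, part 8 -/
def t20_20_8_3_8 : BlkD.Tr :=
  .E 0

lemma s20_20_8_3_8 {n : ℕ} (hn : 5 ≤ n) : NoNd (d20_20_8_3.R : ℤ) d20_20_8_3.H n d20_20_8_3.a d20_20_8_3.b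
    (BlkD.inB (BlkD.upd (BlkD.upd (fun _ => 0) 0 3) 1 18)
      (BlkD.upd (BlkD.upd (BlkD.upd (BlkD.upd (fun _ => 20) 0 8) 2 3) 0 4) 0 3)) :=
  BlkD.tree_sound (BlkD.pairOk_sound k20_20_8_3) (by decide) hn t20_20_8_3_8 _ _ (by decide +kernel)

/-- certificates of the pair `(8, 3)`, part 9 -/
def t20_20_8_3_9 : BlkD.Tr :=
  .L 5 7 [4, 4, 4, 5] [] [] 100000 33333 33332 1175000 25000 0 25000 25000 0 0 12500

lemma s20_20_8_3_9 {n : ℕ} (hn : 5 ≤ n) : NoNd (d20_20_8_3.R : ℤ) d20_20_8_3.H n d20_20_8_3.a d20_20_8_3.b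
    (BlkD.inB (BlkD.upd (BlkD.upd (fun _ => 0) 0 3) 0 4)
      (BlkD.upd (BlkD.upd (BlkD.upd (BlkD.upd (BlkD.upd (BlkD.upd (fun _ => 20) 0 8) 2 3) 0 4) 1 16) 1 8) 1 4)) :=
  BlkD.tree_sound (BlkD.pairOk_sound k20_20_8_3) (by decide) hn t20_20_8_3_9 _ _ (by decide +kernel)

/-- certificates of the pair `(8, 3)`, part 10 -/
def t20_20_8_3_10 : BlkD.Tr :=
  .S 1 5 (.L 5 7 [4, 4, 4, 5] [105, 102, 96, 84, 72, 60] [] 100000 24243 24243 1263638 18182 0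
    18182 45455 0 27273 27273) (.L 5 8 [4, 4, 4, 4] [124, 123, 120, 114, 102, 90] [] 100000 25000
    25000 1300000 25000 0 37500 50000 0 25000 25000)

lemma s20_20_8_3_10 {n : ℕ} (hn : 5 ≤ n) : NoNd (d20_20_8_3.R : ℤ) d20_20_8_3.H n d20_20_8_3.a d20_20_8_3.b
    (BlkD.inB (BlkD.upd (BlkD.upd (BlkD.upd (fun _ => 0) 0 3) 0 4) 1 5)
      (BlkD.upd (BlkD.upd (BlkD.upd (BlkD.upd (BlkD.upd (BlkD.upd (fun _ => 20) 0 8) 2 3) 0 4) 1 16) 1 8) 1 6)) :=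
  BlkD.tree_sound (BlkD.pairOk_sound k20_20_8_3) (by decide) hn t20_20_8_3_10 _ _ (by decide +kernel)

/-- certificates of the pair `(8, 3)`, part 11 -/
def t20_20_8_3_11 : BlkD.Tr :=
  .S 2 1 (.S 2 0 (.L 5 8 [4, 4, 4, 4] [145, 144, 143, 140, 134, 122] [] 100000 33333 33332 1204000
    24000 0 48000 88000 0 0 16000) (.S 3 8 (.S 3 4 (.S 3 2 (.L 5 8 [4, 4, 4, 4] [145, 144, 143,
    140, 134, 122] [] 100000 25862 25862 1305174 29310 6897 51724 29310 0 22414 24138) (.L 5 8 [4,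
    4, 4, 4] [145, 144, 143, 140, 134, 122] [] 100000 49462 49462 1248390 41935 0 67742 58065 0
    9677 22581)) (.E 1)) (.E 1))) (.L 5 8 [4, 4, 4, 4] [145, 144, 143, 140, 134, 122] [] 100000
    40741 40740 1274999 41667 0 66667 33333 0 33333 22222)

lemma s20_20_8_3_11 {n : ℕ} (hn : 5 ≤ n) : NoNd (d20_20_8_3.R : ℤ) d20_20_8_3.H n d20_20_8_3.a d20_20_8_3.b
    (BlkD.inB (BlkD.upd (BlkD.upd (BlkD.upd (BlkD.upd (fun _ => 0) 0 3) 0 4) 1 5) 1 7)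
      (BlkD.upd (BlkD.upd (BlkD.upd (BlkD.upd (BlkD.upd (BlkD.upd (fun _ => 20) 0 8) 2 3) 0 4) 1 16) 1 8) 1 7)) :=
  BlkD.tree_sound (BlkD.pairOk_sound k20_20_8_3) (by decide) hn t20_20_8_3_11 _ _ (by decide +kernel)

/-- certificates of the pair `(8, 3)`, part 12 -/
def t20_20_8_3_12 : BlkD.Tr :=
  .S 2 1 (.S 2 0 (.L 5 8 [4, 4, 4, 4] [168, 167, 166, 165, 162, 156] [] 100000 41667 41667 1175000
    37500 0 75000 75000 0 0 25000) (.S 3 7 (.S 3 3 (.S 3 1 (.L 5 8 [4, 4, 4, 4] [168, 167, 166,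
    165, 162, 156] [] 100000 33333 33332 1240000 40000 0 60000 20000 0 0 20000) (.S 3 2 (.L 5 8 [4,
    4, 4, 4] [168, 167, 166, 165, 162, 156] [26, 18, 6, 0, 0, 0] 100000 32292 32292 1300000 37500
    12500 62500 34375 0 9375 18750) (.L 5 8 [4, 4, 4, 4] [168, 167, 166, 165, 162, 156] [40, 32,
    24, 12, 0, 0] 100000 50000 50000 1225000 50000 0 75000 50000 0 25000 25000))) (.L 5 8 [4, 4, 4,
    4] [168, 167, 166, 165, 162, 156] [] 100000 72727 72727 1127276 63636 0 63636 63636 0 9091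
    13636)) (.E 1))) (.S 2 2 (.S 3 6 (.S 3 3 (.S 3 1 (.S 3 0 (.L 5 8 [4, 4, 4, 4] [168, 167, 166,
    165, 162, 156] [0, 0, 0, 0, 0, 0] 100000 33333 33332 1240000 40000 0 60000 0 0 0 20000) (.L 3 5
    [5, 5, 6, 7] [168, 167, 166, 165, 162, 156] [16, 4, 0, 0, 0, 0] 100000 68572 68571 1191427
    51429 0 77143 0 0 31429 22857)) (.L 5 8 [4, 4, 4, 4] [168, 167, 166, 165, 162, 156] [] 100000
    52382 52382 1214287 57143 0 76190 23810 0 47619 23810)) (.E 1)) (.E 1)) (.L 5 8 [4, 4, 4, 4]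
    [168, 167, 166, 165, 162, 156] [] 100000 60000 60000 1160000 60000 0 80000 0 0 40000 20000))

lemma s20_20_8_3_12 {n : ℕ} (hn : 5 ≤ n) : NoNd (d20_20_8_3.R : ℤ) d20_20_8_3.H n d20_20_8_3.a d20_20_8_3.b
    (BlkD.inB (BlkD.upd (BlkD.upd (BlkD.upd (BlkD.upd (BlkD.upd (fun _ => 0) 0 3) 0 4) 1 5) 1 7) 1 8)
      (BlkD.upd (BlkD.upd (BlkD.upd (BlkD.upd (BlkD.upd (fun _ => 20) 0 8) 2 3) 0 4) 1 16) 1 8)) :=
  BlkD.tree_sound (BlkD.pairOk_sound k20_20_8_3) (by decide) hn t20_20_8_3_12 _ _ (by decide +kernel)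

/-- certificates of the pair `(8, 3)`, part 13 -/
def t20_20_8_3_13 : BlkD.Tr :=
  .S 1 12 (.S 1 10 (.S 1 9 (.L 5 8 [4, 4, 4, 4] [193, 192, 191, 190, 189, 186] [] 100000 45833
    45832 1237500 50000 0 87500 37500 0 0 12500) (.L 5 8 [4, 4, 4, 4] [220, 219, 218, 217, 216,
    215] [] 100000 66667 66666 1133332 66667 0 100000 33333 0 0 0)) (.S 1 11 (.L 5 8 [4, 4, 4, 4]
    [249, 248, 247, 246, 245, 244] [] 100000 109091 18182 700000 109091 0 181818 27273 0 0 0) (.E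
    0))) (.E 0)

lemma s20_20_8_3_13 {n : ℕ} (hn : 5 ≤ n) : NoNd (d20_20_8_3.R : ℤ) d20_20_8_3.H n d20_20_8_3.a d20_20_8_3.b
    (BlkD.inB (BlkD.upd (BlkD.upd (BlkD.upd (fun _ => 0) 0 3) 0 4) 1 9)
      (BlkD.upd (BlkD.upd (BlkD.upd (BlkD.upd (fun _ => 20) 0 8) 2 3) 0 4) 1 16)) :=
  BlkD.tree_sound (BlkD.pairOk_sound k20_20_8_3) (by decide) hn t20_20_8_3_13 _ _ (by decide +kernel)

/-- certificates of the pair `(8, 3)`, part 14 -/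
def t20_20_8_3_14 : BlkD.Tr :=
  .E 0

lemma s20_20_8_3_14 {n : ℕ} (hn : 5 ≤ n) : NoNd (d20_20_8_3.R : ℤ) d20_20_8_3.H n d20_20_8_3.a d20_20_8_3.b
    (BlkD.inB (BlkD.upd (BlkD.upd (BlkD.upd (fun _ => 0) 0 3) 0 4) 1 17)
      (BlkD.upd (BlkD.upd (BlkD.upd (fun _ => 20) 0 8) 2 3) 0 4)) :=
  BlkD.tree_sound (BlkD.pairOk_sound k20_20_8_3) (by decide) hn t20_20_8_3_14 _ _ (by decide +kernel)

/-- certificates of the pair `(8, 3)`, part 15 -/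
def t20_20_8_3_15 : BlkD.Tr :=
  .L 5 8 [4, 4, 4, 4] [] [] 100000 33333 33332 1200000 25000 0 25000 25000 0 0 0

lemma s20_20_8_3_15 {n : ℕ} (hn : 5 ≤ n) : NoNd (d20_20_8_3.R : ℤ) d20_20_8_3.H n d20_20_8_3.a d20_20_8_3.b
    (BlkD.inB (BlkD.upd (fun _ => 0) 0 5)
      (BlkD.upd (BlkD.upd (BlkD.upd (BlkD.upd (BlkD.upd (BlkD.upd (BlkD.upd (fun _ => 20) 0 8) 2 3) 0 6) 0 5) 1 15) 1 7) 1 3)) :=
  BlkD.tree_sound (BlkD.pairOk_sound k20_20_8_3) (by decide) hn t20_20_8_3_15 _ _ (by decide +kernel)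

/-- certificates of the pair `(8, 3)`, part 16 -/
def t20_20_8_3_16 : BlkD.Tr :=
  .S 1 4 (.L 5 8 [4, 4, 4, 4] [94, 88, 76, 64, 52, 0] [] 100000 25000 25000 1250000 25000 0 50000
    50000 0 25000 25000) (.S 2 1 (.S 2 0 (.L 5 8 [4, 4, 4, 4] [115, 112, 106, 94, 82, 70] [] 100000
    33333 33332 1177778 22222 0 22222 88889 0 0 0) (.S 3 9 (.S 3 4 (.S 3 2 (.L 5 8 [4, 4, 4, 4]
    [115, 112, 106, 94, 82, 70] [] 100000 33333 33332 1250000 25000 25000 50000 25000 0 0 25000)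
    (.S 3 3 (.L 5 8 [4, 4, 4, 4] [115, 112, 106, 94, 82, 70] [40, 32, 24, 12, 0, 0] 100000 25000
    25000 1300000 25000 12500 50000 37500 0 25000 25000) (.S 4 5 (.S 4 2 (.L 5 8 [4, 4, 4, 4] [94,
    82, 70, 0, 0, 0] [54, 48, 40, 32, 20, 0] 100000 40740 40740 1233336 44444 0 44444 44444 0 25926
    14815) (.L 5 8 [4, 4, 4, 4] [115, 112, 106, 94, 82, 70] [54, 48, 40, 32, 20, 0] 100000 77778 0
    833334 44444 0 177778 44444 0 0 11111)) (.E 2)))) (.E 1)) (.E 1))) (.S 2 2 (.S 3 8 (.S 3 4 (.S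
    3 2 (.L 5 8 [4, 4, 4, 4] [115, 112, 106, 94, 82, 70] [] 100000 24243 24243 1290909 27273 0
    54545 36364 0 27273 27273) (.S 3 3 (.S 4 5 (.S 4 2 (.L 5 8 [4, 4, 4, 4] [94, 82, 70, 0, 0, 0]
    [46, 38, 30, 18, 0, 0] 100000 38462 38462 1238461 46154 0 46154 30769 0 38462 15385) (.L 5 8
    [4, 4, 4, 4] [115, 112, 106, 94, 82, 70] [46, 38, 30, 18, 0, 0] 100000 76471 0 841175 47059 0
    176471 35294 0 0 11765)) (.E 2)) (.E 1))) (.E 1)) (.E 1)) (.L 5 8 [4, 4, 4, 4] [115, 112, 106,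
    94, 82, 70] [] 100000 27778 27778 1266668 33333 0 33333 0 0 33333 16667)))

lemma s20_20_8_3_16 {n : ℕ} (hn : 5 ≤ n) : NoNd (d20_20_8_3.R : ℤ) d20_20_8_3.H n d20_20_8_3.a d20_20_8_3.b
    (BlkD.inB (BlkD.upd (BlkD.upd (fun _ => 0) 0 5) 1 4)
      (BlkD.upd (BlkD.upd (BlkD.upd (BlkD.upd (BlkD.upd (BlkD.upd (BlkD.upd (fun _ => 20) 0 8) 2 3) 0 6) 0 5) 1 15) 1 7) 1 5)) :=
  BlkD.tree_sound (BlkD.pairOk_sound k20_20_8_3) (by decide) hn t20_20_8_3_16 _ _ (by decide +kernel)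

/-- certificates of the pair `(8, 3)`, part 17 -/
def t20_20_8_3_17 : BlkD.Tr :=
  .S 2 1 (.S 2 0 (.L 5 8 [4, 4, 4, 4] [136, 135, 132, 126, 114, 102] [] 100000 33333 33332 1200000
    28571 0 71429 71429 0 0 14286) (.S 3 8 (.S 3 4 (.S 3 2 (.L 5 8 [4, 4, 4, 4] [136, 135, 132,
    126, 114, 102] [] 100000 27146 27145 1311378 28743 17365 64072 49701 3593 14970 32335) (.S 3 3
    (.S 4 6 (.S 4 3 (.L 5 8 [4, 4, 4, 4] [126, 114, 102, 90, 0, 0] [40, 32, 24, 12, 0, 0] 100000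
    29033 29033 1306453 38710 0 77419 38710 6452 6452 19355) (.L 5 8 [4, 4, 4, 4] [136, 135, 132,
    126, 114, 102] [40, 32, 24, 12, 0, 0] 100000 100000 0 700000 0 0 200000 200000 0 0 0)) (.E 2))
    (.S 4 6 (.S 4 3 (.L 5 8 [4, 4, 4, 4] [126, 114, 102, 90, 0, 0] [54, 48, 40, 32, 20, 0] 100000
    45576 45576 1259736 49115 0 79204 45575 5310 8850 18142) (.L 5 8 [4, 4, 4, 4] [136, 135, 132,
    126, 114, 102] [54, 48, 40, 32, 20, 0] 100000 200000 0 100000 0 0 300000 300000 0 0 0)) (.E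
    2)))) (.E 1)) (.E 1))) (.S 2 2 (.S 3 7 (.S 3 3 (.S 3 1 (.L 5 8 [4, 4, 4, 4] [136, 135, 132,
    126, 114, 102] [] 100000 22222 22221 1328572 33333 0 61905 38095 4762 28571 33333) (.S 3 2 (.L
    5 8 [4, 4, 4, 4] [136, 135, 132, 126, 114, 102] [30, 22, 10, 0, 0, 0] 100000 20370 20369
    1333338 33333 0 61111 33333 5556 33333 33333) (.S 4 6 (.S 4 3 (.L 5 8 [4, 4, 4, 4] [126, 114,
    102, 90, 0, 0] [46, 38, 30, 18, 0, 0] 100000 50000 50000 1216667 50000 0 83333 50000 0 0 16667)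
    (.L 5 8 [4, 4, 4, 4] [136, 135, 132, 126, 114, 102] [46, 38, 30, 18, 0, 0] 100000 200000 0
    100000 0 0 300000 300000 0 0 0)) (.E 2)))) (.E 1)) (.E 1)) (.L 5 8 [4, 4, 4, 4] [136, 135, 132,
    126, 114, 102] [] 100000 21859 21859 1319670 36066 0 60656 0 4918 49180 24590))

lemma s20_20_8_3_17 {n : ℕ} (hn : 5 ≤ n) : NoNd (d20_20_8_3.R : ℤ) d20_20_8_3.H n d20_20_8_3.a d20_20_8_3.b
    (BlkD.inB (BlkD.upd (BlkD.upd (BlkD.upd (fun _ => 0) 0 5) 1 4) 1 6)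
      (BlkD.upd (BlkD.upd (BlkD.upd (BlkD.upd (BlkD.upd (BlkD.upd (BlkD.upd (fun _ => 20) 0 8) 2 3) 0 6) 0 5) 1 15) 1 7) 1 6)) :=
  BlkD.tree_sound (BlkD.pairOk_sound k20_20_8_3) (by decide) hn t20_20_8_3_17 _ _ (by decide +kernel)

/-- certificates of the pair `(8, 3)`, part 18 -/
def t20_20_8_3_18 : BlkD.Tr :=
  .S 2 1 (.S 2 0 (.L 5 8 [4, 4, 4, 4] [159, 158, 157, 154, 148, 136] [] 100000 33333 33332 1180000
    20000 0 100000 80000 0 0 20000) (.S 3 7 (.S 3 3 (.S 3 1 (.L 5 8 [4, 4, 4, 4] [159, 158, 157,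
    154, 148, 136] [] 100000 32479 32479 1282052 33333 17949 64103 33333 2564 0 17949) (.S 3 2 (.L
    4 7 [4, 4, 5, 5] [159, 158, 157, 154, 148, 136] [26, 18, 6, 0, 0, 0] 100000 26316 26316 1310527
    31579 0 73684 36842 0 21053 26316) (.L 5 8 [4, 4, 4, 4] [159, 158, 157, 154, 148, 136] [40, 32,
    24, 12, 0, 0] 100000 37500 37499 1266666 41667 0 83333 41667 0 18750 18750))) (.L 5 8 [4, 4, 4,
    4] [159, 158, 157, 154, 148, 136] [] 100000 38095 38095 1280954 42857 0 80952 42857 0 19048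
    19048)) (.E 1))) (.S 2 2 (.S 3 6 (.S 3 3 (.S 3 1 (.S 3 0 (.L 5 8 [4, 4, 4, 4] [159, 158, 157,
    154, 148, 136] [0, 0, 0, 0, 0, 0] 100000 33333 33332 1280000 40000 0 60000 0 0 0 20000) (.L 4 7
    [4, 4, 5, 5] [159, 158, 157, 154, 148, 136] [16, 4, 0, 0, 0, 0] 100000 25000 25000 1312500
    31250 0 75000 31250 0 25000 25000)) (.L 5 8 [4, 4, 4, 4] [159, 158, 157, 154, 148, 136] []
    100000 38095 38094 1276191 47619 0 80952 23810 0 38095 19048)) (.E 1)) (.E 1)) (.L 5 8 [4, 4,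
    4, 4] [159, 158, 157, 154, 148, 136] [] 100000 30769 30768 1261538 46154 0 76923 0 0 46154
    23077))

lemma s20_20_8_3_18 {n : ℕ} (hn : 5 ≤ n) : NoNd (d20_20_8_3.R : ℤ) d20_20_8_3.H n d20_20_8_3.a d20_20_8_3.b
    (BlkD.inB (BlkD.upd (BlkD.upd (BlkD.upd (BlkD.upd (fun _ => 0) 0 5) 1 4) 1 6) 1 7)
      (BlkD.upd (BlkD.upd (BlkD.upd (BlkD.upd (BlkD.upd (BlkD.upd (fun _ => 20) 0 8) 2 3) 0 6) 0 5) 1 15) 1 7)) :=
  BlkD.tree_sound (BlkD.pairOk_sound k20_20_8_3) (by decide) hn t20_20_8_3_18 _ _ (by decide +kernel)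

/-- certificates of the pair `(8, 3)`, part 19 -/
def t20_20_8_3_19 : BlkD.Tr :=
  .S 1 11 (.S 1 9 (.S 1 8 (.S 2 1 (.S 2 0 (.L 5 8 [4, 4, 4, 4] [184, 183, 182, 181, 178, 172] []
    100000 33333 33332 1175000 25000 0 100000 75000 0 0 25000) (.S 3 6 (.S 3 3 (.S 3 1 (.L 5 8 [4,
    4, 4, 4] [184, 183, 182, 181, 178, 172] [] 100000 33333 33332 1254546 40909 0 81818 40909 0 0
    13636) (.L 5 8 [4, 4, 4, 4] [184, 183, 182, 181, 178, 172] [] 100000 15830 15830 1350687 35616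
    0 71233 41096 2283 23288 21461)) (.L 5 8 [4, 4, 4, 4] [184, 183, 182, 181, 178, 172] [] 100000
    80000 80000 1100000 70000 0 100000 50000 0 0 10000)) (.E 1))) (.L 5 8 [4, 4, 4, 4] [184, 183,
    182, 181, 178, 172] [] 100000 30556 30556 1300000 50000 0 75000 25000 0 25000 16667)) (.L 5 8
    [4, 4, 4, 4] [211, 210, 209, 208, 207, 204] [] 100000 48149 48149 1177776 55556 0 100000 55556
    0 0 11111)) (.E 0)) (.E 0)

lemma s20_20_8_3_19 {n : ℕ} (hn : 5 ≤ n) : NoNd (d20_20_8_3.R : ℤ) d20_20_8_3.H n d20_20_8_3.a d20_20_8_3.b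
    (BlkD.inB (BlkD.upd (BlkD.upd (fun _ => 0) 0 5) 1 8)
      (BlkD.upd (BlkD.upd (BlkD.upd (BlkD.upd (BlkD.upd (fun _ => 20) 0 8) 2 3) 0 6) 0 5) 1 15)) :=
  BlkD.tree_sound (BlkD.pairOk_sound k20_20_8_3) (by decide) hn t20_20_8_3_19 _ _ (by decide +kernel)

/-- certificates of the pair `(8, 3)`, part 20 -/
def t20_20_8_3_20 : BlkD.Tr :=
  .E 0

lemma s20_20_8_3_20 {n : ℕ} (hn : 5 ≤ n) : NoNd (d20_20_8_3.R : ℤ) d20_20_8_3.H n d20_20_8_3.a d20_20_8_3.b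
    (BlkD.inB (BlkD.upd (BlkD.upd (fun _ => 0) 0 5) 1 16)
      (BlkD.upd (BlkD.upd (BlkD.upd (BlkD.upd (fun _ => 20) 0 8) 2 3) 0 6) 0 5)) :=
  BlkD.tree_sound (BlkD.pairOk_sound k20_20_8_3) (by decide) hn t20_20_8_3_20 _ _ (by decide +kernel)

/-- certificates of the pair `(8, 3)`, part 21 -/
def t20_20_8_3_21 : BlkD.Tr :=
  .L 5 8 [4, 4, 4, 4] [] [] 100000 24074 24074 1266668 33333 0 33333 33333 0 27778 27778

lemma s20_20_8_3_21 {n : ℕ} (hn : 5 ≤ n) : NoNd (d20_20_8_3.R : ℤ) d20_20_8_3.H n d20_20_8_3.a d20_20_8_3.b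
    (BlkD.inB (BlkD.upd (BlkD.upd (fun _ => 0) 0 5) 0 6)
      (BlkD.upd (BlkD.upd (BlkD.upd (BlkD.upd (BlkD.upd (BlkD.upd (fun _ => 20) 0 8) 2 3) 0 6) 1 14) 1 7) 1 3)) :=
  BlkD.tree_sound (BlkD.pairOk_sound k20_20_8_3) (by decide) hn t20_20_8_3_21 _ _ (by decide +kernel)

/-- certificates of the pair `(8, 3)`, part 22 -/
def t20_20_8_3_22 : BlkD.Tr :=
  .S 2 1 (.S 2 0 (.L 5 8 [4, 4, 4, 4] [102, 96, 84, 72, 60, 0] [] 100000 33333 33332 1200000 0 0 0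
    100000 0 0 0) (.S 3 9 (.S 3 4 (.S 3 2 (.L 5 8 [4, 4, 4, 4] [102, 96, 84, 72, 60, 0] [] 100000
    25491 25491 1294118 29412 5882 52941 29412 0 23529 23529) (.S 3 3 (.L 5 8 [4, 4, 4, 4] [102,
    96, 84, 72, 60, 0] [40, 32, 24, 12, 0, 0] 100000 27778 27778 1300001 33333 0 66667 33333 0
    33333 16667) (.S 4 4 (.S 4 2 (.S 4 1 (.L 5 8 [4, 4, 4, 4] [72, 60, 0, 0, 0, 0] [54, 48, 40, 32,
    20, 0] 100000 33333 33332 1266668 33333 0 33333 100000 0 0 33333) (.L 5 8 [4, 4, 4, 4] [84, 72,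
    60, 0, 0, 0] [54, 48, 40, 32, 20, 0] 100000 35714 26190 1142857 33333 0 109524 71429 0 0
    23810)) (.L 5 8 [4, 4, 4, 4] [102, 96, 84, 72, 60, 0] [54, 48, 40, 32, 20, 0] 100000 100000 0
    700000 0 0 200000 200000 0 0 0)) (.E 2)))) (.E 1)) (.E 1))) (.S 2 2 (.S 3 8 (.S 3 4 (.S 3 2 (.L
    5 8 [4, 4, 4, 4] [102, 96, 84, 72, 60, 0] [] 100000 27778 27778 1300001 33333 0 66667 33333 0
    33333 16667) (.S 3 3 (.S 4 4 (.S 4 2 (.S 4 1 (.L 5 8 [4, 4, 4, 4] [72, 60, 0, 0, 0, 0] [46, 38,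
    30, 18, 0, 0] 100000 33333 33332 1266668 33333 0 33333 100000 0 0 33333) (.L 5 8 [4, 4, 4, 4]
    [84, 72, 60, 0, 0, 0] [46, 38, 30, 18, 0, 0] 100000 35714 26190 1142857 33333 0 109524 71429 0
    0 23810)) (.L 5 8 [4, 4, 4, 4] [102, 96, 84, 72, 60, 0] [46, 38, 30, 18, 0, 0] 100000 100000 0
    700000 0 0 200000 200000 0 0 0)) (.E 2)) (.E 1))) (.E 1)) (.E 1)) (.L 5 8 [4, 4, 4, 4] [102,
    96, 84, 72, 60, 0] [] 100000 26667 26667 1295000 35000 0 35000 0 0 40000 20000))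

lemma s20_20_8_3_22 {n : ℕ} (hn : 5 ≤ n) : NoNd (d20_20_8_3.R : ℤ) d20_20_8_3.H n d20_20_8_3.a d20_20_8_3.b
    (BlkD.inB (BlkD.upd (BlkD.upd (BlkD.upd (fun _ => 0) 0 5) 0 6) 1 4)
      (BlkD.upd (BlkD.upd (BlkD.upd (BlkD.upd (BlkD.upd (BlkD.upd (BlkD.upd (fun _ => 20) 0 8) 2 3) 0 6) 1 14) 1 7) 1 5) 1 4)) :=
  BlkD.tree_sound (BlkD.pairOk_sound k20_20_8_3) (by decide) hn t20_20_8_3_22 _ _ (by decide +kernel)

/-- certificates of the pair `(8, 3)`, part 23 -/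
def t20_20_8_3_23 : BlkD.Tr :=
  .S 2 1 (.S 2 0 (.L 5 8 [4, 4, 4, 4] [125, 122, 116, 104, 92, 80] [] 100000 33333 33332 1200000
    33333 0 66667 66667 0 0 16667) (.S 3 8 (.S 3 4 (.S 3 2 (.S 3 1 (.L 5 8 [4, 4, 4, 4] [125, 122,
    116, 104, 92, 80] [] 100000 33333 33332 1260000 40000 0 40000 40000 0 0 20000) (.L 4 7 [4, 4,
    5, 5] [125, 122, 116, 104, 92, 80] [26, 18, 6, 0, 0, 0] 100000 27778 27778 1300001 33333 0
    66667 33333 0 16667 33333)) (.S 3 3 (.S 4 5 (.S 4 2 (.L 4 7 [4, 4, 5, 5] [104, 92, 80, 0, 0, 0]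
    [40, 32, 24, 12, 0, 0] 100000 24074 24073 1305555 38889 0 77778 38889 0 38889 27778) (.L 4 7
    [4, 4, 5, 5] [125, 122, 116, 104, 92, 80] [40, 32, 24, 12, 0, 0] 100000 33334 20001 1160000
    6667 0 113333 100000 0 0 33333)) (.E 2)) (.S 4 5 (.S 4 2 (.L 5 8 [4, 4, 4, 4] [104, 92, 80, 0,
    0, 0] [54, 48, 40, 32, 20, 0] 100000 26667 26667 1300000 40000 0 80000 60000 0 0 20000) (.L 5 8
    [4, 4, 4, 4] [125, 122, 116, 104, 92, 80] [54, 48, 40, 32, 20, 0] 100000 37500 0 1075000 12500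
    0 137500 87500 0 0 25000)) (.E 2)))) (.E 1)) (.E 1))) (.S 2 2 (.S 3 7 (.S 3 3 (.S 3 1 (.S 3 0
    (.L 5 8 [4, 4, 4, 4] [125, 122, 116, 104, 92, 80] [0, 0, 0, 0, 0, 0] 100000 33333 33332 1260000
    40000 0 40000 0 0 0 20000) (.L 4 7 [4, 4, 5, 5] [125, 122, 116, 104, 92, 80] [16, 4, 0, 0, 0,
    0] 100000 22222 22221 1300001 33333 0 66667 33333 0 33333 33333)) (.S 3 2 (.S 4 5 (.S 4 2 (.L 4
    7 [4, 4, 5, 5] [104, 92, 80, 0, 0, 0] [30, 22, 10, 0, 0, 0] 100000 25000 24999 1299999 41667 0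
    75000 33333 0 41667 25000) (.L 4 7 [4, 4, 5, 5] [125, 122, 116, 104, 92, 80] [30, 22, 10, 0, 0,
    0] 100000 33334 20001 1160000 6667 0 113333 100000 0 0 33333)) (.E 2)) (.S 4 5 (.S 4 2 (.L 5 8
    [4, 4, 4, 4] [104, 92, 80, 0, 0, 0] [46, 38, 30, 18, 0, 0] 100000 26667 26667 1300000 40000 0
    80000 60000 0 0 20000) (.L 5 8 [4, 4, 4, 4] [125, 122, 116, 104, 92, 80] [46, 38, 30, 18, 0, 0]
    100000 37500 0 1075000 12500 0 137500 87500 0 0 25000)) (.E 2)))) (.E 1)) (.E 1)) (.L 5 8 [4,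
    4, 4, 4] [125, 122, 116, 104, 92, 80] [] 100000 26667 26667 1300000 40000 0 80000 0 0 40000
    20000))

lemma s20_20_8_3_23 {n : ℕ} (hn : 5 ≤ n) : NoNd (d20_20_8_3.R : ℤ) d20_20_8_3.H n d20_20_8_3.a d20_20_8_3.b
    (BlkD.inB (BlkD.upd (BlkD.upd (BlkD.upd (BlkD.upd (fun _ => 0) 0 5) 0 6) 1 4) 1 5)
      (BlkD.upd (BlkD.upd (BlkD.upd (BlkD.upd (BlkD.upd (BlkD.upd (fun _ => 20) 0 8) 2 3) 0 6) 1 14) 1 7) 1 5)) :=
  BlkD.tree_sound (BlkD.pairOk_sound k20_20_8_3) (by decide) hn t20_20_8_3_23 _ _ (by decide +kernel)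

/-- certificates of the pair `(8, 3)`, part 24 -/
def t20_20_8_3_24 : BlkD.Tr :=
  .S 1 6 (.S 2 1 (.S 2 0 (.L 5 8 [4, 4, 4, 4] [148, 147, 144, 138, 126, 114] [] 100000 33333 33332
    1200000 0 0 100000 100000 0 0 0) (.S 3 7 (.S 3 3 (.S 3 1 (.L 5 8 [4, 4, 4, 4] [148, 147, 144,
    138, 126, 114] [] 100000 29885 29885 1286208 37931 0 86207 10345 0 10345 13793) (.S 3 2 (.L 5 8
    [4, 4, 4, 4] [148, 147, 144, 138, 126, 114] [26, 18, 6, 0, 0, 0] 100000 27957 27956 1306451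
    35484 0 87097 35484 0 16129 16129) (.S 4 6 (.S 4 3 (.L 5 8 [4, 4, 4, 4] [138, 126, 114, 102, 0,
    0] [40, 32, 24, 12, 0, 0] 100000 38889 38889 1250000 50000 0 100000 50000 0 0 16667) (.L 5 8
    [4, 4, 4, 4] [148, 147, 144, 138, 126, 114] [40, 32, 24, 12, 0, 0] 100000 38462 0 1069230 7692
    0 138462 100000 0 0 23077)) (.E 2)))) (.S 3 5 (.S 3 4 (.S 4 6 (.S 4 3 (.L 5 8 [4, 4, 4, 4]
    [138, 126, 114, 102, 0, 0] [54, 48, 40, 32, 20, 0] 100000 40741 40740 1244443 55556 0 100000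
    33333 0 0 11111) (.L 5 8 [4, 4, 4, 4] [148, 147, 144, 138, 126, 114] [54, 48, 40, 32, 20, 0]
    100000 100000 0 700000 0 0 200000 200000 0 0 0)) (.E 2)) (.E 1)) (.E 1))) (.E 1))) (.S 2 2 (.S
    3 6 (.S 3 3 (.S 3 1 (.L 5 8 [4, 4, 4, 4] [148, 147, 144, 138, 126, 114] [] 100000 27957 27956
    1306451 35484 0 87097 35484 0 16129 16129) (.S 3 2 (.S 4 6 (.S 4 3 (.L 5 8 [4, 4, 4, 4] [138,
    126, 114, 102, 0, 0] [30, 22, 10, 0, 0, 0] 100000 38889 38889 1250000 50000 0 100000 50000 0 0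
    16667) (.L 5 8 [4, 4, 4, 4] [148, 147, 144, 138, 126, 114] [30, 22, 10, 0, 0, 0] 100000 38462 0
    1069230 7692 0 138462 100000 0 0 23077)) (.E 2)) (.S 4 6 (.S 4 3 (.L 5 8 [4, 4, 4, 4] [138,
    126, 114, 102, 0, 0] [46, 38, 30, 18, 0, 0] 100000 40741 40740 1244443 55556 0 100000 33333 0 0
    11111) (.L 5 8 [4, 4, 4, 4] [148, 147, 144, 138, 126, 114] [46, 38, 30, 18, 0, 0] 100000 100000
    0 700000 0 0 200000 200000 0 0 0)) (.E 2)))) (.E 1)) (.E 1)) (.L 5 8 [4, 4, 4, 4] [148, 147,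
    144, 138, 126, 114] [] 100000 25926 25926 1300001 33333 0 100000 0 0 44444 22222))) (.L 5 8 [4,
    4, 4, 4] [173, 172, 171, 168, 162, 150] [] 100000 36667 36667 1276666 50000 0 86667 50000 0
    8333 18333)

lemma s20_20_8_3_24 {n : ℕ} (hn : 5 ≤ n) : NoNd (d20_20_8_3.R : ℤ) d20_20_8_3.H n d20_20_8_3.a d20_20_8_3.b
    (BlkD.inB (BlkD.upd (BlkD.upd (BlkD.upd (BlkD.upd (fun _ => 0) 0 5) 0 6) 1 4) 1 6)
      (BlkD.upd (BlkD.upd (BlkD.upd (BlkD.upd (BlkD.upd (fun _ => 20) 0 8) 2 3) 0 6) 1 14) 1 7)) :=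
  BlkD.tree_sound (BlkD.pairOk_sound k20_20_8_3) (by decide) hn t20_20_8_3_24 _ _ (by decide +kernel)

/-- certificates of the pair `(8, 3)`, part 25 -/
def t20_20_8_3_25 : BlkD.Tr :=
  .L 5 8 [4, 4, 4, 4] [] [] 100000 183333 0 2 0 0 283333 0 0 0 0

lemma s20_20_8_3_25 {n : ℕ} (hn : 5 ≤ n) : NoNd (d20_20_8_3.R : ℤ) d20_20_8_3.H n d20_20_8_3.a d20_20_8_3.b
    (BlkD.inB (BlkD.upd (BlkD.upd (BlkD.upd (fun _ => 0) 0 5) 0 6) 1 8)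
      (BlkD.upd (BlkD.upd (BlkD.upd (BlkD.upd (fun _ => 20) 0 8) 2 3) 0 6) 1 14)) :=
  BlkD.tree_sound (BlkD.pairOk_sound k20_20_8_3) (by decide) hn t20_20_8_3_25 _ _ (by decide +kernel)

/-- certificates of the pair `(8, 3)`, part 26 -/
def t20_20_8_3_26 : BlkD.Tr :=
  .E 0

lemma s20_20_8_3_26 {n : ℕ} (hn : 5 ≤ n) : NoNd (d20_20_8_3.R : ℤ) d20_20_8_3.H n d20_20_8_3.a d20_20_8_3.b
    (BlkD.inB (BlkD.upd (BlkD.upd (BlkD.upd (fun _ => 0) 0 5) 0 6) 1 15)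
      (BlkD.upd (BlkD.upd (BlkD.upd (fun _ => 20) 0 8) 2 3) 0 6)) :=
  BlkD.tree_sound (BlkD.pairOk_sound k20_20_8_3) (by decide) hn t20_20_8_3_26 _ _ (by decide +kernel)

/-- certificates of the pair `(8, 3)`, part 27 -/
def t20_20_8_3_27 : BlkD.Tr :=
  .S 0 7 (.S 1 13 (.S 1 6 (.S 1 3 (.L 5 8 [4, 4, 4, 4] [] [] 100000 23334 23334 1300001 33333 0
    96667 53333 3333 26667 23333) (.S 1 5 (.S 1 4 (.L 5 8 [4, 4, 4, 4] [110, 104, 92, 80, 68, 0] []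
    100000 24477 24477 1319372 40052 524 93325 40576 6675 19895 21728) (.L 5 8 [4, 4, 4, 4] [135,
    132, 126, 114, 102, 90] [] 100000 29167 29167 1275000 25000 0 100000 75000 0 12500 18750)) (.L
    5 8 [4, 4, 4, 4] [160, 159, 156, 150, 138, 126] [] 100000 100000 0 700000 0 0 200000 50000 0 0
    0))) (.E 0)) (.E 0)) (.L 5 8 [4, 4, 4, 4] [] [] 100000 5556 5556 1305556 0 0 94444 50000 50000
    33333 38889)

lemma s20_20_8_3_27 {n : ℕ} (hn : 5 ≤ n) : NoNd (d20_20_8_3.R : ℤ) d20_20_8_3.H n d20_20_8_3.a d20_20_8_3.b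
    (BlkD.inB (BlkD.upd (BlkD.upd (fun _ => 0) 0 5) 0 7)
      (BlkD.upd (BlkD.upd (fun _ => 20) 0 8) 2 3)) :=
  BlkD.tree_sound (BlkD.pairOk_sound k20_20_8_3) (by decide) hn t20_20_8_3_27 _ _ (by decide +kernel)

/-- certificates of the pair `(8, 3)`, part 28 -/
def t20_20_8_3_28 : BlkD.Tr :=
  .E 1

lemma s20_20_8_3_28 {n : ℕ} (hn : 5 ≤ n) : NoNd (d20_20_8_3.R : ℤ) d20_20_8_3.H n d20_20_8_3.a d20_20_8_3.b
    (BlkD.inB (BlkD.upd (fun _ => 0) 2 4)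
      (BlkD.upd (fun _ => 20) 0 8)) :=
  BlkD.tree_sound (BlkD.pairOk_sound k20_20_8_3) (by decide) hn t20_20_8_3_28 _ _ (by decide +kernel)

/-- certificates of the pair `(8, 3)`, part 29 -/
def t20_20_8_3_29 : BlkD.Tr :=
  .E 0

lemma s20_20_8_3_29 {n : ℕ} (hn : 5 ≤ n) : NoNd (d20_20_8_3.R : ℤ) d20_20_8_3.H n d20_20_8_3.a d20_20_8_3.b
    (BlkD.inB (BlkD.upd (fun _ => 0) 0 9)
      (fun _ => 20)) :=
  BlkD.tree_sound (BlkD.pairOk_sound k20_20_8_3) (by decide) hn t20_20_8_3_29 _ _ (by decide +kernel)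

lemma pr20_20_8_3 {n : ℕ} (hn : 5 ≤ n) : NoPr ((20 : ℕ) : ℤ) ((20 : ℕ) : ℤ) n 8 3 :=
  BlkD.of_root (R := d20_20_8_3.R) (H := d20_20_8_3.H) (a := d20_20_8_3.a) (b := d20_20_8_3.b) (q := 3) (by decide) hn
    (BlkD.sp 0 8 (BlkD.sp 2 3 (BlkD.sp 0 4 (BlkD.sp 0 2 (BlkD.sp 0 1 (BlkD.sp 0 0 (s20_20_8_3_1 hn)
      (s20_20_8_3_2 hn)) (BlkD.sp 1 10 (BlkD.sp 1 5 (s20_20_8_3_3 hn) (s20_20_8_3_4 hn))
      (s20_20_8_3_5 hn))) (BlkD.sp 0 3 (BlkD.sp 1 17 (BlkD.sp 1 8 (s20_20_8_3_6 hn) (s20_20_8_3_7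
      hn)) (s20_20_8_3_8 hn)) (BlkD.sp 1 16 (BlkD.sp 1 8 (BlkD.sp 1 4 (s20_20_8_3_9 hn) (BlkD.sp 1
      6 (s20_20_8_3_10 hn) (BlkD.sp 1 7 (s20_20_8_3_11 hn) (s20_20_8_3_12 hn)))) (s20_20_8_3_13
      hn)) (s20_20_8_3_14 hn)))) (BlkD.sp 0 6 (BlkD.sp 0 5 (BlkD.sp 1 15 (BlkD.sp 1 7 (BlkD.sp 1 3
      (s20_20_8_3_15 hn) (BlkD.sp 1 5 (s20_20_8_3_16 hn) (BlkD.sp 1 6 (s20_20_8_3_17 hn)
      (s20_20_8_3_18 hn)))) (s20_20_8_3_19 hn)) (s20_20_8_3_20 hn)) (BlkD.sp 1 14 (BlkD.sp 1 7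
      (BlkD.sp 1 3 (s20_20_8_3_21 hn) (BlkD.sp 1 5 (BlkD.sp 1 4 (s20_20_8_3_22 hn) (s20_20_8_3_23
      hn)) (s20_20_8_3_24 hn))) (s20_20_8_3_25 hn)) (s20_20_8_3_26 hn))) (s20_20_8_3_27 hn)))
      (s20_20_8_3_28 hn)) (s20_20_8_3_29 hn))

end BlkC

end Pool.Agent.Lib.MP_f04ccf_co
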