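import Pool.Agent.Lib.MP_f04ccf_co.M.BlkT

/-!
MP_f04ccf_co, block certificate, data `R = 20`, `H = 21`, part 13 (generated, helper99:
bd10.cpp, gen2.py).
-/

set_option autoImplicit false
set_option maxRecDepth 100000

namespace Pool.Agent.Lib.MP_f04ccf_co

namespace BlkC

/-- the numbers of the pair `(9, 3)`, `R = 20`, `H = 21` -/
def d20_21_9_3 : BlkD.Pd :=
  ⟨20, 21, 4, 9, 3, 6, 2, 2, 4, 2, 10, 0, 2, 2, 6, 0, [0, 10, 20, 24, 28, 32, 36], [0, 6, 12, 18,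
    20, 22, 24], [⟨1, 1, 1, 4, 8, [0, 4], [0, 4]⟩, ⟨1, 1, 1, 4, 14, [0, 8], [0, 6]⟩, ⟨2, 1, 1, 4,
    20, [0, 10, 14], [0, 6]⟩]⟩

lemma k20_21_9_3 : BlkD.pairOk d20_21_9_3 = true := by decide +kernel

/-- certificates of the pair `(9, 3)`, part 1 -/
def t20_21_9_3_1 : BlkD.Tr :=
  .L 6 9 [5, 4, 3, 20] [] [] 100000 150000 150000 900000 100000 0 100000 0 0 0 0

lemma s20_21_9_3_1 {n : ℕ} (hn : 6 ≤ n) : NoNd (d20_21_9_3.R : ℤ) d20_21_9_3.H n d20_21_9_3.a d20_21_9_3.b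
    (BlkD.inB (fun _ => 0)
      (BlkD.upd (BlkD.upd (BlkD.upd (BlkD.upd (BlkD.upd (BlkD.upd (fun _ => 21) 0 9) 2 3) 0 4) 0 2) 0 1) 0 0)) :=
  BlkD.tree_sound (BlkD.pairOk_sound k20_21_9_3) (by decide) hn t20_21_9_3_1 _ _ (by decide +kernel)

/-- certificates of the pair `(9, 3)`, part 2 -/
def t20_21_9_3_2 : BlkD.Tr :=
  .S 1 10 (.S 1 5 (.L 6 9 [5, 4, 3, 20] [] [] 100000 150000 150000 900000 100000 0 100000 0 0 0 0)
    (.L 6 9 [5, 4, 3, 20] [] [] 100000 150000 150000 900000 100000 0 100000 0 0 0 0)) (.L 6 9 [5,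
    4, 3, 20] [] [] 100000 150000 150000 900000 100000 0 100000 0 0 0 0)

lemma s20_21_9_3_2 {n : ℕ} (hn : 6 ≤ n) : NoNd (d20_21_9_3.R : ℤ) d20_21_9_3.H n d20_21_9_3.a d20_21_9_3.b
    (BlkD.inB (BlkD.upd (fun _ => 0) 0 1)
      (BlkD.upd (BlkD.upd (BlkD.upd (BlkD.upd (BlkD.upd (fun _ => 21) 0 9) 2 3) 0 4) 0 2) 0 1)) :=
  BlkD.tree_sound (BlkD.pairOk_sound k20_21_9_3) (by decide) hn t20_21_9_3_2 _ _ (by decide +kernel)

/-- certificates of the pair `(9, 3)`, part 3 -/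
def t20_21_9_3_3 : BlkD.Tr :=
  .L 6 9 [5, 4, 3, 20] [] [] 100000 150000 150000 900000 100000 0 100000 0 0 0 0

lemma s20_21_9_3_3 {n : ℕ} (hn : 6 ≤ n) : NoNd (d20_21_9_3.R : ℤ) d20_21_9_3.H n d20_21_9_3.a d20_21_9_3.b
    (BlkD.inB (BlkD.upd (fun _ => 0) 0 2)
      (BlkD.upd (BlkD.upd (BlkD.upd (BlkD.upd (BlkD.upd (BlkD.upd (fun _ => 21) 0 9) 2 3) 0 4) 0 2) 1 10) 1 5)) :=
  BlkD.tree_sound (BlkD.pairOk_sound k20_21_9_3) (by decide) hn t20_21_9_3_3 _ _ (by decide +kernel)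

/-- certificates of the pair `(9, 3)`, part 4 -/
def t20_21_9_3_4 : BlkD.Tr :=
  .L 6 9 [5, 4, 3, 20] [] [] 100000 150000 150000 900000 100000 0 100000 0 0 0 0

lemma s20_21_9_3_4 {n : ℕ} (hn : 6 ≤ n) : NoNd (d20_21_9_3.R : ℤ) d20_21_9_3.H n d20_21_9_3.a d20_21_9_3.b
    (BlkD.inB (BlkD.upd (BlkD.upd (fun _ => 0) 0 2) 1 6)
      (BlkD.upd (BlkD.upd (BlkD.upd (BlkD.upd (BlkD.upd (fun _ => 21) 0 9) 2 3) 0 4) 0 2) 1 10)) :=
  BlkD.tree_sound (BlkD.pairOk_sound k20_21_9_3) (by decide) hn t20_21_9_3_4 _ _ (by decide +kernel)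

/-- certificates of the pair `(9, 3)`, part 5 -/
def t20_21_9_3_5 : BlkD.Tr :=
  .L 6 9 [5, 4, 3, 20] [] [] 100000 150000 150000 900000 100000 0 100000 0 0 0 0

lemma s20_21_9_3_5 {n : ℕ} (hn : 6 ≤ n) : NoNd (d20_21_9_3.R : ℤ) d20_21_9_3.H n d20_21_9_3.a d20_21_9_3.b
    (BlkD.inB (BlkD.upd (BlkD.upd (fun _ => 0) 0 2) 1 11)
      (BlkD.upd (BlkD.upd (BlkD.upd (BlkD.upd (fun _ => 21) 0 9) 2 3) 0 4) 0 2)) :=
  BlkD.tree_sound (BlkD.pairOk_sound k20_21_9_3) (by decide) hn t20_21_9_3_5 _ _ (by decide +kernel)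

/-- certificates of the pair `(9, 3)`, part 6 -/
def t20_21_9_3_6 : BlkD.Tr :=
  .L 6 9 [5, 4, 3, 20] [] [] 100000 6667 6667 1390002 35000 0 35000 33333 0 21667 21667

lemma s20_21_9_3_6 {n : ℕ} (hn : 6 ≤ n) : NoNd (d20_21_9_3.R : ℤ) d20_21_9_3.H n d20_21_9_3.a d20_21_9_3.b
    (BlkD.inB (BlkD.upd (fun _ => 0) 0 3)
      (BlkD.upd (BlkD.upd (BlkD.upd (BlkD.upd (BlkD.upd (BlkD.upd (fun _ => 21) 0 9) 2 3) 0 4) 0 3) 1 18) 1 9)) :=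
  BlkD.tree_sound (BlkD.pairOk_sound k20_21_9_3) (by decide) hn t20_21_9_3_6 _ _ (by decide +kernel)

/-- certificates of the pair `(9, 3)`, part 7 -/
def t20_21_9_3_7 : BlkD.Tr :=
  .S 1 14 (.S 1 12 (.S 1 11 (.S 1 10 (.L 6 9 [5, 4, 3, 20] [216, 212, 208, 204, 200, 196] [] 100000
    22222 22222 1388893 44444 0 44444 33333 0 0 0) (.L 6 9 [5, 4, 3, 20] [246, 242, 238, 234, 230,
    226] [] 100000 137500 137500 1087500 87500 0 100000 25000 0 0 0)) (.L 6 9 [5, 4, 3, 20] [278,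
    274, 270, 266, 262, 258] [] 100000 170833 162500 983336 100000 0 108333 33333 0 0 0)) (.S 1 13
    (.L 6 9 [5, 4, 3, 20] [312, 308, 304, 300, 296, 292] [] 100000 288236 223530 564706 147059 0
    164706 23529 0 0 0) (.L 6 9 [5, 4, 3, 20] [348, 344, 340, 336, 332, 328] [] 100000 325000
    212500 0 212500 0 212500 0 0 0 0))) (.S 1 16 (.S 1 15 (.L 6 9 [5, 4, 3, 20] [386, 382, 378,
    374, 370, 366] [] 100000 285714 171428 2 185714 0 214286 0 0 0 0) (.L 6 9 [5, 4, 3, 20] [426,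
    422, 418, 414, 410, 406] [] 100000 263636 181818 2 181818 0 181818 0 0 0 0)) (.L 6 9 [5, 4, 3,
    20] [] [] 100000 480555 386111 3 161111 0 194444 0 0 0 0))

lemma s20_21_9_3_7 {n : ℕ} (hn : 6 ≤ n) : NoNd (d20_21_9_3.R : ℤ) d20_21_9_3.H n d20_21_9_3.a d20_21_9_3.b
    (BlkD.inB (BlkD.upd (BlkD.upd (fun _ => 0) 0 3) 1 10)
      (BlkD.upd (BlkD.upd (BlkD.upd (BlkD.upd (BlkD.upd (fun _ => 21) 0 9) 2 3) 0 4) 0 3) 1 18)) :=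
  BlkD.tree_sound (BlkD.pairOk_sound k20_21_9_3) (by decide) hn t20_21_9_3_7 _ _ (by decide +kernel)

/-- certificates of the pair `(9, 3)`, part 8 -/
def t20_21_9_3_8 : BlkD.Tr :=
  .E 0

lemma s20_21_9_3_8 {n : ℕ} (hn : 6 ≤ n) : NoNd (d20_21_9_3.R : ℤ) d20_21_9_3.H n d20_21_9_3.a d20_21_9_3.b
    (BlkD.inB (BlkD.upd (BlkD.upd (fun _ => 0) 0 3) 1 19)
      (BlkD.upd (BlkD.upd (BlkD.upd (BlkD.upd (fun _ => 21) 0 9) 2 3) 0 4) 0 3)) :=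
  BlkD.tree_sound (BlkD.pairOk_sound k20_21_9_3) (by decide) hn t20_21_9_3_8 _ _ (by decide +kernel)

/-- certificates of the pair `(9, 3)`, part 9 -/
def t20_21_9_3_9 : BlkD.Tr :=
  .L 6 9 [5, 4, 3, 20] [] [] 100000 4349 4349 1456521 30435 0 52174 21739 0 21739 21739

lemma s20_21_9_3_9 {n : ℕ} (hn : 6 ≤ n) : NoNd (d20_21_9_3.R : ℤ) d20_21_9_3.H n d20_21_9_3.a d20_21_9_3.b
    (BlkD.inB (BlkD.upd (BlkD.upd (fun _ => 0) 0 3) 0 4)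
      (BlkD.upd (BlkD.upd (BlkD.upd (BlkD.upd (BlkD.upd (fun _ => 21) 0 9) 2 3) 0 4) 1 17) 1 8)) :=
  BlkD.tree_sound (BlkD.pairOk_sound k20_21_9_3) (by decide) hn t20_21_9_3_9 _ _ (by decide +kernel)

/-- certificates of the pair `(9, 3)`, part 10 -/
def t20_21_9_3_10 : BlkD.Tr :=
  .S 1 13 (.S 1 11 (.S 1 10 (.S 1 9 (.L 6 9 [5, 4, 3, 20] [206, 202, 198, 194, 190, 186] [] 100000
    10417 10417 1462500 37500 0 54167 25000 0 16667 16667) (.L 6 9 [5, 4, 3, 20] [236, 232, 228,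
    224, 220, 216] [] 100000 87501 87501 1300002 66667 0 83333 41667 0 0 0)) (.L 6 9 [5, 4, 3, 20]
    [268, 264, 260, 256, 252, 248] [] 100000 142857 142857 1185716 85714 0 100000 42857 0 0 0)) (.S
    1 12 (.L 6 9 [5, 4, 3, 20] [302, 298, 294, 290, 286, 282] [] 100000 142857 142857 1185716 85714
    0 100000 42857 0 0 0) (.L 6 9 [5, 4, 3, 20] [338, 334, 330, 326, 322, 318] [] 100000 83333
    83333 1275004 70833 0 100000 45833 0 16667 0))) (.S 1 15 (.S 1 14 (.L 6 9 [5, 4, 3, 20] [376,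
    372, 368, 364, 360, 356] [] 100000 206668 106668 586665 126667 0 200000 33333 0 0 0) (.L 6 9
    [5, 4, 3, 20] [416, 412, 408, 404, 400, 396] [] 100000 316666 144444 2 172222 0 272222 5556 0 0
    0)) (.S 1 16 (.L 6 9 [5, 4, 3, 20] [458, 454, 450, 446, 442, 438] [] 100000 328000 184000 0
    168000 0 244000 0 0 0 0) (.L 6 9 [5, 4, 3, 20] [502, 498, 494, 490, 486, 482] [] 100000 366668
    266668 0 166667 0 200000 0 0 0 0)))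

lemma s20_21_9_3_10 {n : ℕ} (hn : 6 ≤ n) : NoNd (d20_21_9_3.R : ℤ) d20_21_9_3.H n d20_21_9_3.a d20_21_9_3.b
    (BlkD.inB (BlkD.upd (BlkD.upd (BlkD.upd (fun _ => 0) 0 3) 0 4) 1 9)
      (BlkD.upd (BlkD.upd (BlkD.upd (BlkD.upd (fun _ => 21) 0 9) 2 3) 0 4) 1 17)) :=
  BlkD.tree_sound (BlkD.pairOk_sound k20_21_9_3) (by decide) hn t20_21_9_3_10 _ _ (by decide +kernel)

/-- certificates of the pair `(9, 3)`, part 11 -/
def t20_21_9_3_11 : BlkD.Tr :=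
  .E 0

lemma s20_21_9_3_11 {n : ℕ} (hn : 6 ≤ n) : NoNd (d20_21_9_3.R : ℤ) d20_21_9_3.H n d20_21_9_3.a d20_21_9_3.b
    (BlkD.inB (BlkD.upd (BlkD.upd (BlkD.upd (fun _ => 0) 0 3) 0 4) 1 18)
      (BlkD.upd (BlkD.upd (BlkD.upd (fun _ => 21) 0 9) 2 3) 0 4)) :=
  BlkD.tree_sound (BlkD.pairOk_sound k20_21_9_3) (by decide) hn t20_21_9_3_11 _ _ (by decide +kernel)

/-- certificates of the pair `(9, 3)`, part 12 -/
def t20_21_9_3_12 : BlkD.Tr :=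
  .S 1 4 (.L 6 9 [5, 4, 3, 20] [] [] 100000 12500 12500 1300001 25000 0 25000 33333 0 0 0) (.S 1 6
    (.L 6 9 [5, 4, 3, 20] [] [] 100000 3061 3061 1416328 30612 0 53061 26531 0 24490 24490) (.S 1 7
    (.L 6 9 [5, 4, 3, 20] [166, 162, 158, 154, 144, 134] [] 100000 9093 9093 1454546 36364 0 54545
    27273 0 18182 18182) (.S 2 1 (.S 2 0 (.L 6 9 [5, 4, 3, 20] [194, 190, 186, 182, 178, 168] []
    100000 16667 16667 1366668 33333 0 50000 66667 0 0 0) (.S 3 7 (.S 3 3 (.S 3 1 (.L 6 9 [5, 4, 3,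
    20] [194, 190, 186, 182, 178, 168] [] 100000 18183 18183 1390910 36364 0 54545 18182 0 0 0) (.S
    3 2 (.L 6 9 [5, 4, 3, 20] [194, 190, 186, 182, 178, 168] [28, 18, 6, 0, 0, 0] 100000 8333 8333
    1458335 33333 8333 58333 41667 0 16667 16667) (.L 3 5 [5, 5, 6, 20] [194, 190, 186, 182, 178,
    168] [40, 34, 24, 12, 0, 0] 100000 107691 107691 1269234 61538 0 76923 30769 0 15385 23077)))
    (.S 3 5 (.S 3 4 (.L 6 9 [5, 4, 3, 20] [194, 190, 186, 182, 178, 168] [54, 48, 42, 32, 20, 0]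
    100000 22222 22222 1444448 44444 0 44444 22222 0 22222 0) (.E 1)) (.E 1))) (.E 1))) (.S 2 2 (.S
    3 6 (.S 3 3 (.S 3 1 (.L 6 9 [5, 4, 3, 20] [194, 190, 186, 182, 178, 168] [] 100000 0 0 1466668
    33333 0 66667 33333 0 33333 33333) (.L 6 9 [5, 4, 3, 20] [194, 190, 186, 182, 178, 168] []
    100000 14286 14286 1457144 42857 0 57143 14286 0 42857 14286)) (.E 1)) (.E 1)) (.L 6 9 [5, 4,
    3, 20] [194, 190, 186, 182, 178, 168] [] 100000 10000 10000 1440000 40000 0 60000 0 0 40000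
    20000)))))

lemma s20_21_9_3_12 {n : ℕ} (hn : 6 ≤ n) : NoNd (d20_21_9_3.R : ℤ) d20_21_9_3.H n d20_21_9_3.a d20_21_9_3.b
    (BlkD.inB (BlkD.upd (fun _ => 0) 0 5)
      (BlkD.upd (BlkD.upd (BlkD.upd (BlkD.upd (BlkD.upd (BlkD.upd (BlkD.upd (fun _ => 21) 0 9) 2 3) 0 7) 0 6) 0 5) 1 16) 1 8)) :=
  BlkD.tree_sound (BlkD.pairOk_sound k20_21_9_3) (by decide) hn t20_21_9_3_12 _ _ (by decide +kernel)

/-- certificates of the pair `(9, 3)`, part 13 -/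
def t20_21_9_3_13 : BlkD.Tr :=
  .S 1 9 (.S 2 1 (.S 2 0 (.L 6 9 [5, 4, 3, 20] [224, 220, 216, 212, 208, 204] [] 100000 56250 56250
    1312500 50000 0 75000 62500 0 0 0) (.S 3 6 (.S 3 3 (.S 3 1 (.L 6 9 [5, 4, 3, 20] [224, 220,
    216, 212, 208, 204] [] 100000 22222 22222 1422224 44444 0 59259 0 0 0 0) (.S 3 2 (.S 4 9 (.S 4
    4 (.L 6 9 [5, 4, 3, 20] [204, 194, 184, 174, 162, 0] [28, 18, 6, 0, 0, 0] 100000 19048 19048
    1452383 38095 28571 66667 57143 0 0 0) (.L 6 9 [5, 4, 3, 20] [224, 220, 216, 212, 208, 204]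
    [28, 18, 6, 0, 0, 0] 100000 66667 0 1000001 33333 0 166667 33333 0 0 0)) (.E 2)) (.S 4 9 (.S 4
    4 (.S 4 2 (.L 6 9 [5, 4, 3, 20] [184, 174, 162, 0, 0, 0] [40, 34, 24, 12, 0, 0] 100000 25000
    25000 1400000 50000 25000 75000 50000 0 0 0) (.L 6 9 [5, 4, 3, 20] [204, 194, 184, 174, 162, 0]
    [40, 34, 24, 12, 0, 0] 100000 33335 33335 1359999 46667 0 100000 26667 0 0 0)) (.L 6 9 [5, 4,
    3, 20] [224, 220, 216, 212, 208, 204] [40, 34, 24, 12, 0, 0] 100000 100000 0 800001 33333 0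
    200000 66667 0 0 0)) (.E 2)))) (.S 3 5 (.S 3 4 (.S 4 9 (.S 4 4 (.S 4 2 (.L 6 9 [5, 4, 3, 20]
    [184, 174, 162, 0, 0, 0] [54, 48, 42, 32, 20, 0] 100000 200000 200000 1000000 100000 0 100000
    50000 0 0 0) (.L 6 9 [5, 4, 3, 20] [204, 194, 184, 174, 162, 0] [54, 48, 42, 32, 20, 0] 100000
    54545 36363 1218184 54545 0 118182 27273 0 0 0)) (.L 6 9 [5, 4, 3, 20] [224, 220, 216, 212,
    208, 204] [54, 48, 42, 32, 20, 0] 100000 230436 1 0 82609 0 330435 0 0 0 0)) (.E 2)) (.E 1))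
    (.E 1))) (.E 1))) (.S 2 2 (.S 3 5 (.S 3 2 (.S 3 1 (.S 3 0 (.L 6 9 [5, 4, 3, 20] [224, 220, 216,
    212, 208, 204] [0, 0, 0, 0, 0, 0] 100000 22222 22222 1422224 44444 0 44444 0 0 0 0) (.S 4 9 (.S
    4 4 (.L 6 9 [5, 4, 3, 20] [204, 194, 184, 174, 162, 0] [16, 4, 0, 0, 0, 0] 100000 18750 18750
    1443750 43750 0 81250 43750 0 6250 6250) (.L 6 9 [5, 4, 3, 20] [224, 220, 216, 212, 208, 204]
    [16, 4, 0, 0, 0, 0] 100000 80000 0 920000 30000 0 180000 60000 0 0 0)) (.E 2))) (.S 4 9 (.S 4 4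
    (.L 6 9 [5, 4, 3, 20] [204, 194, 184, 174, 162, 0] [32, 22, 10, 0, 0, 0] 100000 4546 4546
    1472728 40909 0 61364 40909 0 31818 31818) (.L 6 9 [5, 4, 3, 20] [224, 220, 216, 212, 208, 204]
    [32, 22, 10, 0, 0, 0] 100000 100000 0 800000 50000 0 200000 0 0 0 0)) (.E 2))) (.S 3 4 (.S 3 3
    (.S 4 9 (.S 4 4 (.S 4 2 (.L 6 9 [5, 4, 3, 20] [184, 174, 162, 0, 0, 0] [46, 40, 30, 18, 0, 0]
    100000 200000 200000 1000000 100000 0 100000 0 0 0 0) (.L 6 9 [5, 4, 3, 20] [204, 194, 184,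
    174, 162, 0] [46, 40, 30, 18, 0, 0] 100000 60000 20000 1120000 60000 0 140000 0 0 0 0)) (.L 6 9
    [5, 4, 3, 20] [224, 220, 216, 212, 208, 204] [46, 40, 30, 18, 0, 0] 100000 216668 1 0 79167 0
    316667 0 0 0 0)) (.E 2)) (.E 1)) (.E 1))) (.E 1)) (.L 6 9 [5, 4, 3, 20] [224, 220, 216, 212,
    208, 204] [] 100000 14286 14286 1457144 42857 0 71429 0 0 14286 14286))) (.S 2 1 (.S 2 0 (.L 6
    9 [5, 4, 3, 20] [256, 252, 248, 244, 240, 236] [] 100000 63160 63160 1289472 52632 0 100000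
    63158 0 0 0) (.S 3 5 (.S 3 2 (.S 3 1 (.L 5 7 [4, 4, 4, 20] [256, 252, 248, 244, 240, 236] []
    100000 50000 50000 1375000 50000 0 87500 25000 0 0 0) (.S 4 10 (.S 4 5 (.L 5 7 [4, 4, 4, 20]
    [236, 232, 222, 212, 202, 190] [28, 18, 6, 0, 0, 0] 100000 80000 80000 1320000 60000 20000
    100000 40000 0 0 0) (.L 5 7 [4, 4, 4, 20] [256, 252, 248, 244, 240, 236] [28, 18, 6, 0, 0, 0]
    100000 200000 0 200000 50000 0 300000 100000 0 0 0)) (.E 2))) (.S 3 4 (.S 3 3 (.S 4 10 (.S 4 5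
    (.L 5 7 [4, 4, 4, 20] [236, 232, 222, 212, 202, 190] [40, 34, 24, 12, 0, 0] 100000 130000
    130000 1180000 80000 0 100000 60000 0 0 0) (.L 5 7 [4, 4, 4, 20] [256, 252, 248, 244, 240, 236]
    [40, 34, 24, 12, 0, 0] 100000 216668 1 0 79167 0 316667 0 0 0 0)) (.E 2)) (.S 4 10 (.S 4 5 (.L
    5 7 [4, 4, 4, 20] [236, 232, 222, 212, 202, 190] [54, 48, 42, 32, 20, 0] 100000 500000 400000 0
    200000 0 200000 100000 0 0 0) (.L 5 7 [4, 4, 4, 20] [256, 252, 248, 244, 240, 236] [54, 48, 42,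
    32, 20, 0] 100000 196296 0 2 74074 0 296296 0 0 0 0)) (.E 2))) (.E 1))) (.E 1))) (.S 2 2 (.S 3
    4 (.S 3 2 (.S 3 1 (.S 3 0 (.L 5 7 [4, 4, 4, 20] [256, 252, 248, 244, 240, 236] [0, 0, 0, 0, 0,
    0] 100000 50000 50000 1350000 50000 0 100000 0 0 0 0) (.S 4 10 (.S 4 5 (.L 5 7 [4, 4, 4, 20]
    [236, 232, 222, 212, 202, 190] [16, 4, 0, 0, 0, 0] 100000 25000 25000 1400000 50000 0 100000 0
    0 50000 0) (.L 5 7 [4, 4, 4, 20] [256, 252, 248, 244, 240, 236] [16, 4, 0, 0, 0, 0] 100000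
    233333 0 1 66667 0 333333 0 0 0 0)) (.E 2))) (.S 4 10 (.S 4 5 (.L 5 7 [4, 4, 4, 20] [236, 232,
    222, 212, 202, 190] [32, 22, 10, 0, 0, 0] 100000 200000 200000 1000000 100000 0 100000 100000 0
    0 0) (.L 5 7 [4, 4, 4, 20] [256, 252, 248, 244, 240, 236] [32, 22, 10, 0, 0, 0] 100000 216668 1
    0 79167 0 316667 0 0 0 0)) (.E 2))) (.S 3 3 (.S 4 10 (.S 4 5 (.L 5 7 [4, 4, 4, 20] [236, 232,
    222, 212, 202, 190] [46, 40, 30, 18, 0, 0] 100000 500000 400000 0 200000 0 200000 0 0 0 0) (.L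
    5 7 [4, 4, 4, 20] [256, 252, 248, 244, 240, 236] [46, 40, 30, 18, 0, 0] 100000 185715 1 0 71429
    0 285714 0 0 0 0)) (.E 2)) (.E 1))) (.E 1)) (.S 3 3 (.S 3 1 (.S 3 0 (.L 5 7 [4, 4, 4, 20] [256,
    252, 248, 244, 240, 236] [0, 0, 0, 0, 0, 0] 100000 50000 50000 1350000 50000 0 100000 0 0 0 0)
    (.L 4 4 [4, 5, 7, 20] [256, 252, 248, 244, 240, 236] [18, 6, 0, 0, 0, 0] 100000 133335 133335
    1199997 66667 0 100000 0 0 66667 0)) (.E 1)) (.E 1))))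

lemma s20_21_9_3_13 {n : ℕ} (hn : 6 ≤ n) : NoNd (d20_21_9_3.R : ℤ) d20_21_9_3.H n d20_21_9_3.a d20_21_9_3.b
    (BlkD.inB (BlkD.upd (BlkD.upd (fun _ => 0) 0 5) 1 9)
      (BlkD.upd (BlkD.upd (BlkD.upd (BlkD.upd (BlkD.upd (BlkD.upd (BlkD.upd (BlkD.upd (fun _ => 21) 0 9) 2 3) 0 7) 0 6) 0 5) 1 16) 1 12) 1 10)) :=
  BlkD.tree_sound (BlkD.pairOk_sound k20_21_9_3) (by decide) hn t20_21_9_3_13 _ _ (by decide +kernel)

/-- certificates of the pair `(9, 3)`, part 14 -/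
def t20_21_9_3_14 : BlkD.Tr :=
  .S 1 11 (.S 2 1 (.S 2 0 (.L 4 4 [4, 5, 7, 20] [290, 286, 282, 278, 274, 270] [] 100000 150001
    150001 1166666 66667 0 100000 66667 0 0 0) (.S 3 4 (.S 3 2 (.S 3 1 (.L 5 7 [4, 4, 4, 20] [290,
    286, 282, 278, 274, 270] [] 100000 42857 42857 1411432 48571 0 81429 32857 0 8571 8571) (.L 3 5
    [5, 5, 6, 20] [290, 286, 282, 278, 274, 270] [28, 18, 6, 0, 0, 0] 100000 107692 107692 1269235
    61538 0 100000 38462 0 23077 30769)) (.S 3 3 (.S 4 11 (.S 4 5 (.L 3 5 [5, 5, 6, 20] [266, 262,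
    252, 242, 232, 220] [40, 34, 24, 12, 0, 0] 100000 423809 285714 2 190476 0 238095 95238 0 0 0)
    (.L 3 5 [5, 5, 6, 20] [290, 286, 282, 278, 274, 270] [40, 34, 24, 12, 0, 0] 100000 225000 0 0
    75000 0 325000 0 0 0 0)) (.E 2)) (.S 4 11 (.S 4 5 (.L 3 5 [5, 5, 6, 20] [266, 262, 252, 242,
    232, 220] [54, 48, 42, 32, 20, 0] 100000 365218 217392 0 178261 0 247826 0 0 0 0) (.L 3 5 [5,
    5, 6, 20] [290, 286, 282, 278, 274, 270] [54, 48, 42, 32, 20, 0] 100000 189656 1 0 72414 0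
    289655 0 0 0 0)) (.E 2)))) (.E 1))) (.S 2 2 (.S 3 3 (.S 3 1 (.L 3 5 [5, 5, 6, 20] [290, 286,
    282, 278, 274, 270] [] 100000 107692 107692 1269235 61538 0 100000 38462 0 23077 30769) (.S 3 2
    (.S 4 11 (.S 4 5 (.L 3 5 [5, 5, 6, 20] [266, 262, 252, 242, 232, 220] [32, 22, 10, 0, 0, 0]
    100000 400000 250000 0 187500 0 250000 62500 0 0 0) (.L 3 5 [5, 5, 6, 20] [290, 286, 282, 278,
    274, 270] [32, 22, 10, 0, 0, 0] 100000 225000 0 0 75000 0 325000 0 0 0 0)) (.E 2)) (.S 4 11 (.S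
    4 5 (.L 3 5 [5, 5, 6, 20] [266, 262, 252, 242, 232, 220] [46, 40, 30, 18, 0, 0] 100000 365218
    217392 0 178261 0 247826 0 0 0 0) (.L 3 5 [5, 5, 6, 20] [290, 286, 282, 278, 274, 270] [46, 40,
    30, 18, 0, 0] 100000 189656 1 0 72414 0 289655 0 0 0 0)) (.E 2)))) (.E 1)) (.L 3 5 [5, 5, 6,
    20] [290, 286, 282, 278, 274, 270] [] 100000 100000 100000 1260000 60000 0 100000 0 0 0 0)))
    (.S 2 1 (.S 2 0 (.L 3 5 [5, 5, 6, 20] [326, 322, 318, 314, 310, 306] [] 100000 109525 109525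
    1190475 61905 0 100000 71429 0 0 0) (.S 3 3 (.S 3 1 (.L 3 5 [5, 5, 6, 20] [326, 322, 318, 314,
    310, 306] [] 100000 100000 100000 1280000 60000 0 100000 40000 0 0 0) (.S 3 2 (.S 4 12 (.S 4 6
    (.L 3 5 [5, 5, 6, 20] [302, 298, 294, 284, 274, 264] [28, 18, 6, 0, 0, 0] 100000 335897 153846
    2 179487 0 282051 51282 0 0 0) (.L 3 5 [5, 5, 6, 20] [326, 322, 318, 314, 310, 306] [28, 18, 6,
    0, 0, 0] 100000 225000 0 0 75000 0 325000 0 0 0 0)) (.E 2)) (.L 3 5 [5, 5, 6, 20] [326, 322,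
    318, 314, 310, 306] [40, 34, 24, 12, 0, 0] 100000 432835 282089 4 156716 0 250746 188060 0 0
    0))) (.L 3 5 [5, 5, 6, 20] [326, 322, 318, 314, 310, 306] [] 100000 0 100000 0 0 0 0 0 0 0 0)))
    (.L 3 5 [5, 5, 6, 20] [326, 322, 318, 314, 310, 306] [] 100000 112500 112500 1262500 62500 0
    100000 75000 0 0 0))

lemma s20_21_9_3_14 {n : ℕ} (hn : 6 ≤ n) : NoNd (d20_21_9_3.R : ℤ) d20_21_9_3.H n d20_21_9_3.a d20_21_9_3.b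
    (BlkD.inB (BlkD.upd (BlkD.upd (BlkD.upd (fun _ => 0) 0 5) 1 9) 1 11)
      (BlkD.upd (BlkD.upd (BlkD.upd (BlkD.upd (BlkD.upd (BlkD.upd (BlkD.upd (fun _ => 21) 0 9) 2 3) 0 7) 0 6) 0 5) 1 16) 1 12)) :=
  BlkD.tree_sound (BlkD.pairOk_sound k20_21_9_3) (by decide) hn t20_21_9_3_14 _ _ (by decide +kernel)

/-- certificates of the pair `(9, 3)`, part 15 -/
def t20_21_9_3_15 : BlkD.Tr :=
  .S 1 14 (.S 1 13 (.L 5 7 [4, 4, 4, 20] [364, 360, 356, 352, 348, 344] [] 100000 150000 100000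
    900000 100000 0 150000 50000 0 0 0) (.L 5 7 [4, 4, 4, 20] [404, 400, 396, 392, 388, 384] []
    100000 313888 138888 2 172222 0 275000 0 0 0 0)) (.S 1 15 (.L 5 7 [4, 4, 4, 20] [446, 442, 438,
    434, 430, 426] [] 100000 328000 184000 0 168000 0 244000 0 0 0 0) (.L 5 7 [4, 4, 4, 20] [490,
    486, 482, 478, 474, 470] [] 100000 366668 266668 0 166667 0 200000 0 0 0 0))

lemma s20_21_9_3_15 {n : ℕ} (hn : 6 ≤ n) : NoNd (d20_21_9_3.R : ℤ) d20_21_9_3.H n d20_21_9_3.a d20_21_9_3.b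
    (BlkD.inB (BlkD.upd (BlkD.upd (BlkD.upd (fun _ => 0) 0 5) 1 9) 1 13)
      (BlkD.upd (BlkD.upd (BlkD.upd (BlkD.upd (BlkD.upd (BlkD.upd (fun _ => 21) 0 9) 2 3) 0 7) 0 6) 0 5) 1 16)) :=
  BlkD.tree_sound (BlkD.pairOk_sound k20_21_9_3) (by decide) hn t20_21_9_3_15 _ _ (by decide +kernel)

/-- certificates of the pair `(9, 3)`, part 16 -/
def t20_21_9_3_16 : BlkD.Tr :=
  .E 0

lemma s20_21_9_3_16 {n : ℕ} (hn : 6 ≤ n) : NoNd (d20_21_9_3.R : ℤ) d20_21_9_3.H n d20_21_9_3.a d20_21_9_3.b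
    (BlkD.inB (BlkD.upd (BlkD.upd (fun _ => 0) 0 5) 1 17)
      (BlkD.upd (BlkD.upd (BlkD.upd (BlkD.upd (BlkD.upd (fun _ => 21) 0 9) 2 3) 0 7) 0 6) 0 5)) :=
  BlkD.tree_sound (BlkD.pairOk_sound k20_21_9_3) (by decide) hn t20_21_9_3_16 _ _ (by decide +kernel)

/-- certificates of the pair `(9, 3)`, part 17 -/
def t20_21_9_3_17 : BlkD.Tr :=
  .L 5 7 [4, 4, 4, 20] [] [] 100000 0 0 1400000 0 0 0 0 0 0 0

lemma s20_21_9_3_17 {n : ℕ} (hn : 6 ≤ n) : NoNd (d20_21_9_3.R : ℤ) d20_21_9_3.H n d20_21_9_3.a d20_21_9_3.b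
    (BlkD.inB (BlkD.upd (BlkD.upd (fun _ => 0) 0 5) 0 6)
      (BlkD.upd (BlkD.upd (BlkD.upd (BlkD.upd (BlkD.upd (BlkD.upd (BlkD.upd (fun _ => 21) 0 9) 2 3) 0 7) 0 6) 1 15) 1 7) 1 3)) :=
  BlkD.tree_sound (BlkD.pairOk_sound k20_21_9_3) (by decide) hn t20_21_9_3_17 _ _ (by decide +kernel)

/-- certificates of the pair `(9, 3)`, part 18 -/
def t20_21_9_3_18 : BlkD.Tr :=
  .S 1 4 (.L 5 7 [4, 4, 4, 20] [102, 92, 82, 72, 60, 0] [] 100000 16667 16667 1366668 33333 0 33333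
    33333 0 0 0) (.L 5 7 [4, 4, 4, 20] [126, 122, 112, 102, 92, 80] [] 100000 4546 4546 1463638
    27273 0 27273 18182 0 27273 27273)

lemma s20_21_9_3_18 {n : ℕ} (hn : 6 ≤ n) : NoNd (d20_21_9_3.R : ℤ) d20_21_9_3.H n d20_21_9_3.a d20_21_9_3.b
    (BlkD.inB (BlkD.upd (BlkD.upd (BlkD.upd (fun _ => 0) 0 5) 0 6) 1 4)
      (BlkD.upd (BlkD.upd (BlkD.upd (BlkD.upd (BlkD.upd (BlkD.upd (BlkD.upd (fun _ => 21) 0 9) 2 3) 0 7) 0 6) 1 15) 1 7) 1 5)) :=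
  BlkD.tree_sound (BlkD.pairOk_sound k20_21_9_3) (by decide) hn t20_21_9_3_18 _ _ (by decide +kernel)

/-- certificates of the pair `(9, 3)`, part 19 -/
def t20_21_9_3_19 : BlkD.Tr :=
  .S 1 6 (.S 2 1 (.S 2 0 (.L 5 7 [4, 4, 4, 20] [152, 148, 144, 134, 124, 114] [] 100000 12500 12500
    1350000 25000 0 37500 75000 0 0 0) (.S 3 8 (.S 3 4 (.S 3 2 (.L 5 7 [4, 4, 4, 20] [152, 148,
    144, 134, 124, 114] [] 100000 0 0 1450000 25000 0 50000 25000 0 25000 25000) (.S 3 3 (.L 5 7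
    [4, 4, 4, 20] [152, 148, 144, 134, 124, 114] [40, 34, 24, 12, 0, 0] 100000 0 0 1475000 25000 0
    50000 50000 0 25000 25000) (.S 4 6 (.S 4 3 (.L 6 9 [5, 4, 3, 20] [134, 124, 114, 102, 0, 0]
    [54, 48, 42, 32, 20, 0] 100000 9677 9677 1448390 41935 0 41935 20968 0 22581 22581) (.L 6 9 [5,
    4, 3, 20] [152, 148, 144, 134, 124, 114] [54, 48, 42, 32, 20, 0] 100000 92857 0 842858 42857 0
    192857 21429 0 0 0)) (.E 2)))) (.E 1)) (.E 1))) (.S 2 2 (.S 3 7 (.S 3 3 (.S 3 1 (.L 6 9 [5, 4,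
    3, 20] [152, 148, 144, 134, 124, 114] [] 100000 0 0 1450000 25000 0 50000 50000 0 25000 25000)
    (.S 3 2 (.L 6 9 [5, 4, 3, 20] [152, 148, 144, 134, 124, 114] [32, 22, 10, 0, 0, 0] 100000 0 0
    1433335 33333 0 66667 33333 0 33333 33333) (.S 4 6 (.S 4 3 (.L 6 9 [5, 4, 3, 20] [134, 124,
    114, 102, 0, 0] [46, 40, 30, 18, 0, 0] 100000 9677 9677 1448390 41935 0 41935 0 0 22581 22581)
    (.L 6 9 [5, 4, 3, 20] [152, 148, 144, 134, 124, 114] [46, 40, 30, 18, 0, 0] 100000 100000 0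
    800000 50000 0 200000 0 0 0 0)) (.E 2)))) (.E 1)) (.E 1)) (.L 6 9 [5, 4, 3, 20] [152, 148, 144,
    134, 124, 114] [] 100000 0 0 1433335 33333 0 66667 0 0 33333 33333))) (.S 2 1 (.S 2 0 (.L 6 9
    [5, 4, 3, 20] [180, 176, 172, 168, 158, 148] [] 100000 15000 15000 1380000 30000 0 60000 80000
    0 0 0) (.S 3 7 (.S 3 3 (.S 3 1 (.L 6 9 [5, 4, 3, 20] [180, 176, 172, 168, 158, 148] [] 100000
    22222 22222 1411112 44444 0 66667 22222 0 0 0) (.S 3 2 (.S 4 7 (.S 4 3 (.L 6 9 [5, 4, 3, 20]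
    [158, 148, 138, 126, 0, 0] [28, 18, 6, 0, 0, 0] 100000 10345 10345 1465517 37931 20690 56897
    37931 0 17241 17241) (.L 6 9 [5, 4, 3, 20] [180, 176, 172, 168, 158, 148] [28, 18, 6, 0, 0, 0]
    100000 33334 1 1200001 26667 0 133333 26667 0 0 0)) (.E 2)) (.S 4 7 (.S 4 3 (.L 6 9 [5, 4, 3,
    20] [158, 148, 138, 126, 0, 0] [40, 34, 24, 12, 0, 0] 100000 10639 10639 1470212 38298 19149
    57447 38298 0 17021 17021) (.L 6 9 [5, 4, 3, 20] [180, 176, 172, 168, 158, 148] [40, 34, 24,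
    12, 0, 0] 100000 38462 0 1169229 23077 0 138462 46154 0 0 0)) (.E 2)))) (.S 3 5 (.S 3 4 (.S 4 7
    (.S 4 3 (.S 4 1 (.L 6 9 [5, 4, 3, 20] [138, 126, 0, 0, 0, 0] [54, 48, 42, 32, 20, 0] 100000
    16668 16668 1420832 54167 0 66667 20833 0 20833 20833) (.L 6 9 [5, 4, 3, 20] [158, 148, 138,
    126, 0, 0] [54, 48, 42, 32, 20, 0] 100000 30770 30770 1369230 46154 0 100000 23077 0 0 0)) (.L
    6 9 [5, 4, 3, 20] [180, 176, 172, 168, 158, 148] [54, 48, 42, 32, 20, 0] 100000 50000 0 1100001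
    33333 0 150000 16667 0 0 0)) (.E 2)) (.E 1)) (.E 1))) (.E 1))) (.S 2 2 (.S 3 6 (.S 3 3 (.S 3 1
    (.L 6 9 [5, 4, 3, 20] [180, 176, 172, 168, 158, 148] [] 100000 12500 12500 1462500 37500 25000
    62500 37500 0 12500 12500) (.S 3 2 (.S 4 7 (.S 4 3 (.L 6 9 [5, 4, 3, 20] [158, 148, 138, 126,
    0, 0] [32, 22, 10, 0, 0, 0] 100000 14286 14286 1442858 42857 0 64286 42857 0 14286 14286) (.L 6
    9 [5, 4, 3, 20] [180, 176, 172, 168, 158, 148] [32, 22, 10, 0, 0, 0] 100000 33333 0 1200002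
    33333 0 133333 0 0 0 0)) (.E 2)) (.S 4 7 (.S 4 3 (.S 4 1 (.L 6 9 [5, 4, 3, 20] [138, 126, 0, 0,
    0, 0] [46, 40, 30, 18, 0, 0] 100000 16668 16668 1420831 54167 0 54167 0 0 20833 20833) (.L 6 9
    [5, 4, 3, 20] [158, 148, 138, 126, 0, 0] [46, 40, 30, 18, 0, 0] 100000 18750 18750 1381250
    43750 0 100000 0 0 6250 6250)) (.L 6 9 [5, 4, 3, 20] [180, 176, 172, 168, 158, 148] [46, 40,
    30, 18, 0, 0] 100000 60000 0 1040000 40000 0 160000 0 0 0 0)) (.E 2)))) (.E 1)) (.E 1)) (.L 6 9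
    [5, 4, 3, 20] [180, 176, 172, 168, 158, 148] [] 100000 14286 14286 1442858 42857 0 71429 0 0
    14286 14286)))

lemma s20_21_9_3_19 {n : ℕ} (hn : 6 ≤ n) : NoNd (d20_21_9_3.R : ℤ) d20_21_9_3.H n d20_21_9_3.a d20_21_9_3.b
    (BlkD.inB (BlkD.upd (BlkD.upd (BlkD.upd (BlkD.upd (fun _ => 0) 0 5) 0 6) 1 4) 1 6)
      (BlkD.upd (BlkD.upd (BlkD.upd (BlkD.upd (BlkD.upd (BlkD.upd (fun _ => 21) 0 9) 2 3) 0 7) 0 6) 1 15) 1 7)) :=
  BlkD.tree_sound (BlkD.pairOk_sound k20_21_9_3) (by decide) hn t20_21_9_3_19 _ _ (by decide +kernel)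

/-- certificates of the pair `(9, 3)`, part 20 -/
def t20_21_9_3_20 : BlkD.Tr :=
  .S 1 8 (.S 2 1 (.S 2 0 (.L 6 9 [5, 4, 3, 20] [210, 206, 202, 198, 194, 184] [] 100000 18750 18750
    1375000 37500 0 75000 75000 0 0 0) (.S 3 6 (.S 3 3 (.S 3 1 (.L 6 9 [5, 4, 3, 20] [210, 206,
    202, 198, 194, 184] [] 100000 20000 20000 1440000 40000 0 80000 0 0 0 0) (.S 3 2 (.S 4 8 (.S 4
    4 (.L 6 9 [5, 4, 3, 20] [194, 184, 174, 164, 152, 0] [28, 18, 6, 0, 0, 0] 100000 22500 22500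
    1430000 45000 20000 95000 45000 0 5000 0) (.L 6 9 [5, 4, 3, 20] [210, 206, 202, 198, 194, 184]
    [28, 18, 6, 0, 0, 0] 100000 71429 0 971428 42857 0 171429 42857 0 0 0)) (.E 2)) (.S 4 8 (.S 4 4
    (.L 6 9 [5, 4, 3, 20] [194, 184, 174, 164, 152, 0] [40, 34, 24, 12, 0, 0] 100000 28572 28572
    1414286 57143 0 100000 28571 0 28571 0) (.L 6 9 [5, 4, 3, 20] [210, 206, 202, 198, 194, 184]
    [40, 34, 24, 12, 0, 0] 100000 100000 0 800000 40000 0 200000 80000 0 0 0)) (.E 2)))) (.S 3 5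
    (.S 3 4 (.S 4 8 (.S 4 4 (.L 6 9 [5, 4, 3, 20] [194, 184, 174, 164, 152, 0] [54, 48, 42, 32, 20,
    0] 100000 22224 22224 1411108 55556 0 100000 5556 0 44444 11111) (.L 6 9 [5, 4, 3, 20] [210,
    206, 202, 198, 194, 184] [54, 48, 42, 32, 20, 0] 100000 233333 0 1 77778 0 333333 38889 0 0 0))
    (.E 2)) (.E 1)) (.E 1))) (.E 1))) (.S 2 2 (.S 3 5 (.S 3 2 (.S 3 1 (.S 3 0 (.L 6 9 [5, 4, 3, 20]
    [210, 206, 202, 198, 194, 184] [0, 0, 0, 0, 0, 0] 100000 20000 20000 1440000 40000 0 80000 0 0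
    0 0) (.S 4 8 (.S 4 4 (.L 6 9 [5, 4, 3, 20] [194, 184, 174, 164, 152, 0] [16, 4, 0, 0, 0, 0]
    100000 25000 25000 1400000 50000 0 100000 50000 0 0 0) (.L 6 9 [5, 4, 3, 20] [210, 206, 202,
    198, 194, 184] [16, 4, 0, 0, 0, 0] 100000 71429 0 971427 42857 0 171429 42857 0 0 0)) (.E 2)))
    (.S 4 8 (.S 4 4 (.L 6 9 [5, 4, 3, 20] [194, 184, 174, 164, 152, 0] [32, 22, 10, 0, 0, 0] 100000
    66668 66668 1299998 66667 0 100000 66667 0 0 0) (.L 6 9 [5, 4, 3, 20] [210, 206, 202, 198, 194,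
    184] [32, 22, 10, 0, 0, 0] 100000 100001 1 800000 66667 0 200000 0 0 0 0)) (.E 2))) (.S 3 4 (.S
    3 3 (.S 4 8 (.S 4 4 (.L 6 9 [5, 4, 3, 20] [194, 184, 174, 164, 152, 0] [46, 40, 30, 18, 0, 0]
    100000 22224 22224 1411108 55556 0 100000 0 0 44444 11111) (.L 6 9 [5, 4, 3, 20] [210, 206,
    202, 198, 194, 184] [46, 40, 30, 18, 0, 0] 100000 216668 1 0 105556 0 316667 0 0 0 0)) (.E 2))
    (.E 1)) (.E 1))) (.E 1)) (.L 6 9 [5, 4, 3, 20] [210, 206, 202, 198, 194, 184] [] 100000 18750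
    18750 1437500 43750 0 100000 0 0 37500 6250))) (.S 2 1 (.S 2 0 (.L 6 9 [5, 4, 3, 20] [242, 238,
    234, 230, 226, 222] [] 100000 50001 50001 1316666 50000 0 91667 66667 0 0 0) (.S 3 5 (.S 3 2
    (.S 3 1 (.L 6 9 [5, 4, 3, 20] [242, 238, 234, 230, 226, 222] [] 100000 16981 16981 1439624
    43396 0 96226 9434 0 9434 9434) (.S 4 9 (.S 4 4 (.L 6 9 [5, 4, 3, 20] [222, 212, 202, 192, 180,
    0] [28, 18, 6, 0, 0, 0] 100000 25000 25000 1400000 50000 0 100000 50000 0 0 0) (.L 6 9 [5, 4,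
    3, 20] [242, 238, 234, 230, 226, 222] [28, 18, 6, 0, 0, 0] 100000 33333 0 1200003 33333 0
    133333 33333 0 0 0)) (.E 2))) (.S 3 4 (.S 3 3 (.S 4 9 (.S 4 4 (.L 6 9 [5, 4, 3, 20] [222, 212,
    202, 192, 180, 0] [40, 34, 24, 12, 0, 0] 100000 27273 27273 1409093 54545 9091 100000 36364 0
    18182 0) (.L 6 9 [5, 4, 3, 20] [242, 238, 234, 230, 226, 222] [40, 34, 24, 12, 0, 0] 100000
    75000 25000 1050000 50000 0 150000 50000 0 0 0)) (.E 2)) (.S 4 9 (.S 4 4 (.L 6 9 [5, 4, 3, 20]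
    [222, 212, 202, 192, 180, 0] [54, 48, 42, 32, 20, 0] 100000 16668 16668 1420831 54167 0 100000
    4167 0 29167 20833) (.L 6 9 [5, 4, 3, 20] [242, 238, 234, 230, 226, 222] [54, 48, 42, 32, 20,
    0] 100000 233333 0 2 111111 0 333333 0 0 0 0)) (.E 2))) (.E 1))) (.E 1))) (.S 2 2 (.S 3 4 (.S 3
    2 (.S 3 1 (.S 3 0 (.L 6 9 [5, 4, 3, 20] [242, 238, 234, 230, 226, 222] [0, 0, 0, 0, 0, 0]
    100000 16667 16667 1440002 43333 0 96667 0 0 10000 10000) (.S 4 9 (.S 4 4 (.L 6 9 [5, 4, 3, 20]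
    [222, 212, 202, 192, 180, 0] [16, 4, 0, 0, 0, 0] 100000 25000 25000 1400000 50000 0 100000
    50000 0 0 0) (.L 6 9 [5, 4, 3, 20] [242, 238, 234, 230, 226, 222] [16, 4, 0, 0, 0, 0] 100000
    42857 0 1142859 28571 0 142857 57143 0 0 0)) (.E 2))) (.S 4 9 (.S 4 4 (.L 6 9 [5, 4, 3, 20]
    [222, 212, 202, 192, 180, 0] [32, 22, 10, 0, 0, 0] 100000 40000 40000 1340000 60000 0 100000
    60000 0 0 0) (.L 6 9 [5, 4, 3, 20] [242, 238, 234, 230, 226, 222] [32, 22, 10, 0, 0, 0] 100000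
    100000 25000 900000 75000 0 175000 0 0 0 0)) (.E 2))) (.S 3 3 (.S 4 9 (.S 4 4 (.L 6 9 [5, 4, 3,
    20] [222, 212, 202, 192, 180, 0] [46, 40, 30, 18, 0, 0] 100000 16668 16668 1420831 54167 0
    100000 0 0 29167 20833) (.L 6 9 [5, 4, 3, 20] [242, 238, 234, 230, 226, 222] [46, 40, 30, 18,
    0, 0] 100000 215789 0 3 105263 0 315789 0 0 0 0)) (.E 2)) (.E 1))) (.E 1)) (.L 6 9 [5, 4, 3,
    20] [242, 238, 234, 230, 226, 222] [] 100000 18750 18750 1437500 43750 0 100000 0 0 6250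
    6250)))

lemma s20_21_9_3_20 {n : ℕ} (hn : 6 ≤ n) : NoNd (d20_21_9_3.R : ℤ) d20_21_9_3.H n d20_21_9_3.a d20_21_9_3.b
    (BlkD.inB (BlkD.upd (BlkD.upd (BlkD.upd (fun _ => 0) 0 5) 0 6) 1 8)
      (BlkD.upd (BlkD.upd (BlkD.upd (BlkD.upd (BlkD.upd (BlkD.upd (BlkD.upd (fun _ => 21) 0 9) 2 3) 0 7) 0 6) 1 15) 1 11) 1 9)) :=
  BlkD.tree_sound (BlkD.pairOk_sound k20_21_9_3) (by decide) hn t20_21_9_3_20 _ _ (by decide +kernel)

/-- certificates of the pair `(9, 3)`, part 21 -/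
def t20_21_9_3_21 : BlkD.Tr :=
  .S 1 10 (.L 6 9 [5, 4, 3, 20] [276, 272, 268, 264, 260, 256] [] 100000 66668 66668 1333333 66667
    0 100000 33333 0 0 0) (.L 6 9 [5, 4, 3, 20] [312, 308, 304, 300, 296, 292] [] 100000 34484
    34484 1348277 58621 0 100000 33333 0 6897 0)

lemma s20_21_9_3_21 {n : ℕ} (hn : 6 ≤ n) : NoNd (d20_21_9_3.R : ℤ) d20_21_9_3.H n d20_21_9_3.a d20_21_9_3.b
    (BlkD.inB (BlkD.upd (BlkD.upd (BlkD.upd (BlkD.upd (fun _ => 0) 0 5) 0 6) 1 8) 1 10)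
      (BlkD.upd (BlkD.upd (BlkD.upd (BlkD.upd (BlkD.upd (BlkD.upd (fun _ => 21) 0 9) 2 3) 0 7) 0 6) 1 15) 1 11)) :=
  BlkD.tree_sound (BlkD.pairOk_sound k20_21_9_3) (by decide) hn t20_21_9_3_21 _ _ (by decide +kernel)

/-- certificates of the pair `(9, 3)`, part 22 -/
def t20_21_9_3_22 : BlkD.Tr :=
  .S 1 13 (.S 1 12 (.L 6 9 [5, 4, 3, 20] [350, 346, 342, 338, 334, 330] [] 100000 177778 22222
    433335 133333 0 255556 33333 0 0 0) (.L 6 9 [5, 4, 3, 20] [390, 386, 382, 378, 374, 370] []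
    100000 207692 0 2 153846 0 307692 0 0 0 0)) (.S 1 14 (.L 6 9 [5, 4, 3, 20] [432, 428, 424, 420,
    416, 412] [] 100000 185714 0 2 142857 0 285714 0 0 0 0) (.L 6 9 [5, 4, 3, 20] [476, 472, 468,
    464, 460, 456] [] 100000 180000 0 0 140000 0 280000 0 0 0 0))

lemma s20_21_9_3_22 {n : ℕ} (hn : 6 ≤ n) : NoNd (d20_21_9_3.R : ℤ) d20_21_9_3.H n d20_21_9_3.a d20_21_9_3.b
    (BlkD.inB (BlkD.upd (BlkD.upd (BlkD.upd (BlkD.upd (fun _ => 0) 0 5) 0 6) 1 8) 1 12)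
      (BlkD.upd (BlkD.upd (BlkD.upd (BlkD.upd (BlkD.upd (fun _ => 21) 0 9) 2 3) 0 7) 0 6) 1 15)) :=
  BlkD.tree_sound (BlkD.pairOk_sound k20_21_9_3) (by decide) hn t20_21_9_3_22 _ _ (by decide +kernel)

/-- certificates of the pair `(9, 3)`, part 23 -/
def t20_21_9_3_23 : BlkD.Tr :=
  .E 0

lemma s20_21_9_3_23 {n : ℕ} (hn : 6 ≤ n) : NoNd (d20_21_9_3.R : ℤ) d20_21_9_3.H n d20_21_9_3.a d20_21_9_3.b
    (BlkD.inB (BlkD.upd (BlkD.upd (BlkD.upd (fun _ => 0) 0 5) 0 6) 1 16)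
      (BlkD.upd (BlkD.upd (BlkD.upd (BlkD.upd (fun _ => 21) 0 9) 2 3) 0 7) 0 6)) :=
  BlkD.tree_sound (BlkD.pairOk_sound k20_21_9_3) (by decide) hn t20_21_9_3_23 _ _ (by decide +kernel)

/-- certificates of the pair `(9, 3)`, part 24 -/
def t20_21_9_3_24 : BlkD.Tr :=
  .L 6 9 [5, 4, 3, 20] [] [] 100000 0 0 1400001 33333 0 33333 33333 0 33333 33333

lemma s20_21_9_3_24 {n : ℕ} (hn : 6 ≤ n) : NoNd (d20_21_9_3.R : ℤ) d20_21_9_3.H n d20_21_9_3.a d20_21_9_3.b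
    (BlkD.inB (BlkD.upd (BlkD.upd (fun _ => 0) 0 5) 0 7)
      (BlkD.upd (BlkD.upd (BlkD.upd (BlkD.upd (BlkD.upd (BlkD.upd (fun _ => 21) 0 9) 2 3) 0 7) 1 14) 1 7) 1 3)) :=
  BlkD.tree_sound (BlkD.pairOk_sound k20_21_9_3) (by decide) hn t20_21_9_3_24 _ _ (by decide +kernel)

/-- certificates of the pair `(9, 3)`, part 25 -/
def t20_21_9_3_25 : BlkD.Tr :=
  .S 1 4 (.L 6 9 [5, 4, 3, 20] [110, 100, 90, 80, 68, 0] [] 100000 12501 12501 1420000 45000 1667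
    78333 40000 0 20000 20000) (.S 2 1 (.S 2 0 (.L 6 9 [5, 4, 3, 20] [136, 132, 122, 112, 102, 90]
    [] 100000 0 0 1400000 0 0 0 100000 0 0 0) (.S 3 8 (.S 3 4 (.S 3 2 (.L 6 9 [5, 4, 3, 20] [136,
    132, 122, 112, 102, 90] [] 100000 16667 16667 1433334 33333 33333 33333 33333 0 0 0) (.S 3 3
    (.L 6 9 [5, 4, 3, 20] [136, 132, 122, 112, 102, 90] [40, 34, 24, 12, 0, 0] 100000 0 0 1485716
    28571 28571 57143 28571 0 28571 28571) (.S 4 5 (.S 4 2 (.L 6 9 [5, 4, 3, 20] [112, 102, 90, 0,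
    0, 0] [54, 48, 42, 32, 20, 0] 100000 12500 12500 1450000 50000 0 50000 25000 0 50000 25000) (.L
    6 9 [5, 4, 3, 20] [136, 132, 122, 112, 102, 90] [54, 48, 42, 32, 20, 0] 100000 30000 10000
    1260000 40000 0 120000 20000 0 0 0)) (.E 2)))) (.E 1)) (.E 1))) (.S 2 2 (.S 3 7 (.S 3 3 (.S 3 1
    (.L 6 9 [5, 4, 3, 20] [136, 132, 122, 112, 102, 90] [] 100000 0 0 1466667 33333 0 33333 33333 0
    33333 33333) (.S 3 2 (.L 6 9 [5, 4, 3, 20] [136, 132, 122, 112, 102, 90] [32, 22, 10, 0, 0, 0]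
    100000 0 0 1466668 33333 0 50000 33333 0 33333 33333) (.S 4 5 (.S 4 2 (.L 6 9 [5, 4, 3, 20]
    [112, 102, 90, 0, 0, 0] [46, 40, 30, 18, 0, 0] 100000 12500 12500 1450000 50000 0 50000 0 0
    50000 25000) (.L 6 9 [5, 4, 3, 20] [136, 132, 122, 112, 102, 90] [46, 40, 30, 18, 0, 0] 100000
    29168 4168 1241666 41667 0 125000 0 0 8333 8333)) (.E 2)))) (.E 1)) (.E 1)) (.L 6 9 [5, 4, 3,
    20] [136, 132, 122, 112, 102, 90] [] 100000 0 0 1466668 33333 0 33333 0 0 33333 33333)))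

lemma s20_21_9_3_25 {n : ℕ} (hn : 6 ≤ n) : NoNd (d20_21_9_3.R : ℤ) d20_21_9_3.H n d20_21_9_3.a d20_21_9_3.b
    (BlkD.inB (BlkD.upd (BlkD.upd (BlkD.upd (fun _ => 0) 0 5) 0 7) 1 4)
      (BlkD.upd (BlkD.upd (BlkD.upd (BlkD.upd (BlkD.upd (BlkD.upd (fun _ => 21) 0 9) 2 3) 0 7) 1 14) 1 7) 1 5)) :=
  BlkD.tree_sound (BlkD.pairOk_sound k20_21_9_3) (by decide) hn t20_21_9_3_25 _ _ (by decide +kernel)

/-- certificates of the pair `(9, 3)`, part 26 -/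
def t20_21_9_3_26 : BlkD.Tr :=
  .S 1 6 (.S 2 1 (.S 2 0 (.L 6 9 [5, 4, 3, 20] [164, 160, 156, 146, 136, 126] [] 100000 16667 16667
    1366667 33333 0 66667 66667 0 0 0) (.S 3 7 (.S 3 3 (.S 3 1 (.L 6 9 [5, 4, 3, 20] [164, 160,
    156, 146, 136, 126] [] 100000 20000 20000 1420000 40000 0 80000 0 0 0 0) (.S 3 2 (.L 6 9 [5, 4,
    3, 20] [164, 160, 156, 146, 136, 126] [28, 18, 6, 0, 0, 0] 100000 10000 10000 1460000 35000
    10000 85000 35000 0 15000 15000) (.S 4 6 (.S 4 3 (.L 6 9 [5, 4, 3, 20] [146, 136, 126, 114, 0,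
    0] [40, 34, 24, 12, 0, 0] 100000 23078 23078 1423076 46154 23077 92308 46154 0 7692 0) (.L 6 9
    [5, 4, 3, 20] [164, 160, 156, 146, 136, 126] [40, 34, 24, 12, 0, 0] 100000 33333 0 1200002
    33333 0 133333 33333 0 0 0)) (.E 2)))) (.S 3 5 (.S 3 4 (.S 4 6 (.S 4 3 (.L 6 9 [5, 4, 3, 20]
    [146, 136, 126, 114, 0, 0] [54, 48, 42, 32, 20, 0] 100000 26667 26667 1406669 53333 13333
    100000 26667 0 20000 0) (.L 6 9 [5, 4, 3, 20] [164, 160, 156, 146, 136, 126] [54, 48, 42, 32,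
    20, 0] 100000 40000 0 1160000 40000 0 140000 20000 0 0 0)) (.E 2)) (.E 1)) (.E 1))) (.E 1)))
    (.S 2 2 (.S 3 6 (.S 3 3 (.S 3 1 (.L 6 9 [5, 4, 3, 20] [164, 160, 156, 146, 136, 126] [] 100000
    5556 5556 1466668 33333 11111 88889 33333 0 22222 22222) (.S 3 2 (.L 6 9 [5, 4, 3, 20] [164,
    160, 156, 146, 136, 126] [32, 22, 10, 0, 0, 0] 100000 21429 21429 1442858 42857 0 85714 42857 0
    14286 0) (.S 4 6 (.S 4 3 (.L 6 9 [5, 4, 3, 20] [146, 136, 126, 114, 0, 0] [46, 40, 30, 18, 0,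
    0] 100000 22224 22224 1422220 55556 0 100000 0 0 22222 11111) (.L 6 9 [5, 4, 3, 20] [164, 160,
    156, 146, 136, 126] [46, 40, 30, 18, 0, 0] 100000 50000 0 1100000 50000 0 150000 0 0 0 0)) (.E
    2)))) (.E 1)) (.E 1)) (.L 6 9 [5, 4, 3, 20] [164, 160, 156, 146, 136, 126] [] 100000 18750
    18750 1425000 43750 0 100000 0 0 37500 6250))) (.S 2 1 (.S 2 0 (.L 6 9 [5, 4, 3, 20] [194, 190,
    186, 182, 172, 162] [] 100000 20000 20000 1360000 40000 0 80000 60000 0 0 0) (.S 3 6 (.S 3 3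
    (.S 3 1 (.L 6 9 [5, 4, 3, 20] [194, 190, 186, 182, 172, 162] [] 100000 25000 25000 1400000
    50000 0 100000 0 0 0 0) (.S 3 2 (.L 6 9 [5, 4, 3, 20] [194, 190, 186, 182, 172, 162] [28, 18,
    6, 0, 0, 0] 100000 21429 21429 1442858 42857 0 85714 42857 0 0 0) (.S 4 7 (.S 4 3 (.L 6 9 [5,
    4, 3, 20] [172, 162, 152, 140, 0, 0] [40, 34, 24, 12, 0, 0] 100000 25000 25000 1400000 50000 0
    100000 50000 0 0 0) (.L 6 9 [5, 4, 3, 20] [194, 190, 186, 182, 172, 162] [40, 34, 24, 12, 0, 0]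
    100000 16667 16667 1366668 33333 0 100000 33333 0 0 0)) (.E 2)))) (.L 6 9 [5, 4, 3, 20] [194,
    190, 186, 182, 172, 162] [] 100000 40000 40000 1400000 60000 0 100000 0 0 20000 0)) (.E 1)))
    (.S 2 2 (.S 3 5 (.S 3 2 (.S 3 1 (.L 6 9 [5, 4, 3, 20] [194, 190, 186, 182, 172, 162] [] 100000
    21429 21429 1442858 42857 0 85714 42857 0 0 0) (.S 4 7 (.S 4 3 (.L 6 9 [5, 4, 3, 20] [172, 162,
    152, 140, 0, 0] [32, 22, 10, 0, 0, 0] 100000 40000 40000 1360000 60000 0 100000 60000 0 0 0)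
    (.L 6 9 [5, 4, 3, 20] [194, 190, 186, 182, 172, 162] [32, 22, 10, 0, 0, 0] 100000 25000 25000
    1350000 50000 0 100000 0 0 0 0)) (.E 2))) (.L 6 9 [5, 4, 3, 20] [194, 190, 186, 182, 172, 162]
    [] 100000 40000 40000 1400000 60000 0 100000 0 0 20000 0)) (.E 1)) (.L 6 9 [5, 4, 3, 20] [194,
    190, 186, 182, 172, 162] [] 100000 25000 25000 1400000 50000 0 100000 0 0 0 0)))

lemma s20_21_9_3_26 {n : ℕ} (hn : 6 ≤ n) : NoNd (d20_21_9_3.R : ℤ) d20_21_9_3.H n d20_21_9_3.a d20_21_9_3.b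
    (BlkD.inB (BlkD.upd (BlkD.upd (BlkD.upd (BlkD.upd (fun _ => 0) 0 5) 0 7) 1 4) 1 6)
      (BlkD.upd (BlkD.upd (BlkD.upd (BlkD.upd (BlkD.upd (fun _ => 21) 0 9) 2 3) 0 7) 1 14) 1 7)) :=
  BlkD.tree_sound (BlkD.pairOk_sound k20_21_9_3) (by decide) hn t20_21_9_3_26 _ _ (by decide +kernel)

/-- certificates of the pair `(9, 3)`, part 27 -/
def t20_21_9_3_27 : BlkD.Tr :=
  .S 1 11 (.S 1 9 (.S 1 8 (.L 6 9 [5, 4, 3, 20] [226, 222, 218, 214, 210, 200] [] 100000 25000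
    25000 1400000 50000 0 100000 50000 0 0 0) (.L 6 9 [5, 4, 3, 20] [260, 256, 252, 248, 244, 240]
    [] 100000 34484 34484 1365519 58621 0 100000 20690 0 6897 0)) (.L 6 9 [5, 4, 3, 20] [] []
    100000 0 0 1482354 5882 0 100000 47059 0 5882 5882)) (.E 0)

lemma s20_21_9_3_27 {n : ℕ} (hn : 6 ≤ n) : NoNd (d20_21_9_3.R : ℤ) d20_21_9_3.H n d20_21_9_3.a d20_21_9_3.b
    (BlkD.inB (BlkD.upd (BlkD.upd (BlkD.upd (fun _ => 0) 0 5) 0 7) 1 8)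
      (BlkD.upd (BlkD.upd (BlkD.upd (BlkD.upd (fun _ => 21) 0 9) 2 3) 0 7) 1 14)) :=
  BlkD.tree_sound (BlkD.pairOk_sound k20_21_9_3) (by decide) hn t20_21_9_3_27 _ _ (by decide +kernel)

/-- certificates of the pair `(9, 3)`, part 28 -/
def t20_21_9_3_28 : BlkD.Tr :=
  .E 0

lemma s20_21_9_3_28 {n : ℕ} (hn : 6 ≤ n) : NoNd (d20_21_9_3.R : ℤ) d20_21_9_3.H n d20_21_9_3.a d20_21_9_3.b
    (BlkD.inB (BlkD.upd (BlkD.upd (BlkD.upd (fun _ => 0) 0 5) 0 7) 1 15)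
      (BlkD.upd (BlkD.upd (BlkD.upd (fun _ => 21) 0 9) 2 3) 0 7)) :=
  BlkD.tree_sound (BlkD.pairOk_sound k20_21_9_3) (by decide) hn t20_21_9_3_28 _ _ (by decide +kernel)

/-- certificates of the pair `(9, 3)`, part 29 -/
def t20_21_9_3_29 : BlkD.Tr :=
  .S 0 8 (.S 1 13 (.S 1 6 (.L 6 9 [5, 4, 3, 20] [] [] 100000 1 1 1496155 19231 0 88462 46154 0
    19231 19231) (.L 6 9 [5, 4, 3, 20] [] [] 100000 0 0 1400000 0 0 100000 50000 0 0 0)) (.E 0))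
    (.L 6 9 [5, 4, 3, 20] [] [] 100000 0 0 1400000 0 0 100000 50000 0 0 0)

lemma s20_21_9_3_29 {n : ℕ} (hn : 6 ≤ n) : NoNd (d20_21_9_3.R : ℤ) d20_21_9_3.H n d20_21_9_3.a d20_21_9_3.b
    (BlkD.inB (BlkD.upd (BlkD.upd (fun _ => 0) 0 5) 0 8)
      (BlkD.upd (BlkD.upd (fun _ => 21) 0 9) 2 3)) :=
  BlkD.tree_sound (BlkD.pairOk_sound k20_21_9_3) (by decide) hn t20_21_9_3_29 _ _ (by decide +kernel)

/-- certificates of the pair `(9, 3)`, part 30 -/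
def t20_21_9_3_30 : BlkD.Tr :=
  .E 1

lemma s20_21_9_3_30 {n : ℕ} (hn : 6 ≤ n) : NoNd (d20_21_9_3.R : ℤ) d20_21_9_3.H n d20_21_9_3.a d20_21_9_3.b
    (BlkD.inB (BlkD.upd (fun _ => 0) 2 4)
      (BlkD.upd (fun _ => 21) 0 9)) :=
  BlkD.tree_sound (BlkD.pairOk_sound k20_21_9_3) (by decide) hn t20_21_9_3_30 _ _ (by decide +kernel)

/-- certificates of the pair `(9, 3)`, part 31 -/
def t20_21_9_3_31 : BlkD.Tr :=
  .E 0

lemma s20_21_9_3_31 {n : ℕ} (hn : 6 ≤ n) : NoNd (d20_21_9_3.R : ℤ) d20_21_9_3.H n d20_21_9_3.a d20_21_9_3.b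
    (BlkD.inB (BlkD.upd (fun _ => 0) 0 10)
      (fun _ => 21)) :=
  BlkD.tree_sound (BlkD.pairOk_sound k20_21_9_3) (by decide) hn t20_21_9_3_31 _ _ (by decide +kernel)

lemma pr20_21_9_3 {n : ℕ} (hn : 6 ≤ n) : NoPr ((20 : ℕ) : ℤ) ((21 : ℕ) : ℤ) n 9 3 :=
  BlkD.of_root (R := d20_21_9_3.R) (H := d20_21_9_3.H) (a := d20_21_9_3.a) (b := d20_21_9_3.b) (q := 4) (by decide) hn
    (BlkD.sp 0 9 (BlkD.sp 2 3 (BlkD.sp 0 4 (BlkD.sp 0 2 (BlkD.sp 0 1 (BlkD.sp 0 0 (s20_21_9_3_1 hn)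
      (s20_21_9_3_2 hn)) (BlkD.sp 1 10 (BlkD.sp 1 5 (s20_21_9_3_3 hn) (s20_21_9_3_4 hn))
      (s20_21_9_3_5 hn))) (BlkD.sp 0 3 (BlkD.sp 1 18 (BlkD.sp 1 9 (s20_21_9_3_6 hn) (s20_21_9_3_7
      hn)) (s20_21_9_3_8 hn)) (BlkD.sp 1 17 (BlkD.sp 1 8 (s20_21_9_3_9 hn) (s20_21_9_3_10 hn))
      (s20_21_9_3_11 hn)))) (BlkD.sp 0 7 (BlkD.sp 0 6 (BlkD.sp 0 5 (BlkD.sp 1 16 (BlkD.sp 1 8
      (s20_21_9_3_12 hn) (BlkD.sp 1 12 (BlkD.sp 1 10 (s20_21_9_3_13 hn) (s20_21_9_3_14 hn))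
      (s20_21_9_3_15 hn))) (s20_21_9_3_16 hn)) (BlkD.sp 1 15 (BlkD.sp 1 7 (BlkD.sp 1 3
      (s20_21_9_3_17 hn) (BlkD.sp 1 5 (s20_21_9_3_18 hn) (s20_21_9_3_19 hn))) (BlkD.sp 1 11
      (BlkD.sp 1 9 (s20_21_9_3_20 hn) (s20_21_9_3_21 hn)) (s20_21_9_3_22 hn))) (s20_21_9_3_23 hn)))
      (BlkD.sp 1 14 (BlkD.sp 1 7 (BlkD.sp 1 3 (s20_21_9_3_24 hn) (BlkD.sp 1 5 (s20_21_9_3_25 hn)
      (s20_21_9_3_26 hn))) (s20_21_9_3_27 hn)) (s20_21_9_3_28 hn))) (s20_21_9_3_29 hn)))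
      (s20_21_9_3_30 hn)) (s20_21_9_3_31 hn))

end BlkC

end Pool.Agent.Lib.MP_f04ccf_co
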