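import Pool.Agent.Lib.MP_f04ccf_co.M.BlkT

/-!
MP_f04ccf_co, block certificate, data `R = 20`, `H = 21`, part 3 (generated, helper99:
bd10.cpp, gen2.py).
-/

set_option autoImplicit false
set_option maxRecDepth 100000

namespace Pool.Agent.Lib.MP_f04ccf_co

namespace BlkC

/-- the numbers of the pair `(7, 2)`, `R = 20`, `H = 21` -/
def d20_21_7_2 : BlkD.Pd :=
  ⟨20, 21, 4, 7, 2, 9, 2, 1, 2, 2, 8, 0, 0, 4, 6, 0, [0, 8, 16, 24, 26, 28, 30, 32, 34, 36], [0, 6,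
    12, 18, 24, 30, 36, 36, 36, 36], [⟨1, 1, 1, 4, 8, [0, 4], [0, 4]⟩, ⟨1, 1, 1, 4, 10, [0, 6], [0,
    4]⟩, ⟨1, 1, 1, 6, 14, [0, 8], [0, 6]⟩]⟩

lemma k20_21_7_2 : BlkD.pairOk d20_21_7_2 = true := by decide +kernel

/-- certificates of the pair `(7, 2)`, part 1 -/
def t20_21_7_2_1 : BlkD.Tr :=
  .L 4 6 [4, 4, 4] [] [] 100000 0 0 1160002 20000 0 60000 10000 6667 33333 33333

lemma s20_21_7_2_1 {n : ℕ} (hn : 6 ≤ n) : NoNd (d20_21_7_2.R : ℤ) d20_21_7_2.H n d20_21_7_2.a d20_21_7_2.b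
    (BlkD.inB (fun _ => 0)
      (BlkD.upd (BlkD.upd (BlkD.upd (BlkD.upd (fun _ => 21) 0 7) 2 2) 0 3) 0 1)) :=
  BlkD.tree_sound (BlkD.pairOk_sound k20_21_7_2) (by decide) hn t20_21_7_2_1 _ _ (by decide +kernel)

/-- certificates of the pair `(7, 2)`, part 2 -/
def t20_21_7_2_2 : BlkD.Tr :=
  .S 0 2 (.L 4 6 [4, 4, 4] [] [] 100000 0 0 1160002 20000 0 60000 10000 6667 33333 33333) (.L 4 6
    [4, 4, 4] [] [] 100000 0 0 1160002 20000 0 60000 10000 6667 33333 33333)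

lemma s20_21_7_2_2 {n : ℕ} (hn : 6 ≤ n) : NoNd (d20_21_7_2.R : ℤ) d20_21_7_2.H n d20_21_7_2.a d20_21_7_2.b
    (BlkD.inB (BlkD.upd (fun _ => 0) 0 2)
      (BlkD.upd (BlkD.upd (BlkD.upd (fun _ => 21) 0 7) 2 2) 0 3)) :=
  BlkD.tree_sound (BlkD.pairOk_sound k20_21_7_2) (by decide) hn t20_21_7_2_2 _ _ (by decide +kernel)

/-- certificates of the pair `(7, 2)`, part 3 -/
def t20_21_7_2_3 : BlkD.Tr :=
  .L 4 6 [4, 4, 4] [] [] 100000 0 0 1160002 20000 0 60000 10000 6667 33333 33333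

lemma s20_21_7_2_3 {n : ℕ} (hn : 6 ≤ n) : NoNd (d20_21_7_2.R : ℤ) d20_21_7_2.H n d20_21_7_2.a d20_21_7_2.b
    (BlkD.inB (BlkD.upd (fun _ => 0) 0 4)
      (BlkD.upd (BlkD.upd (fun _ => 21) 0 7) 2 2)) :=
  BlkD.tree_sound (BlkD.pairOk_sound k20_21_7_2) (by decide) hn t20_21_7_2_3 _ _ (by decide +kernel)

/-- certificates of the pair `(7, 2)`, part 4 -/
def t20_21_7_2_4 : BlkD.Tr :=
  .E 1

lemma s20_21_7_2_4 {n : ℕ} (hn : 6 ≤ n) : NoNd (d20_21_7_2.R : ℤ) d20_21_7_2.H n d20_21_7_2.a d20_21_7_2.b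
    (BlkD.inB (BlkD.upd (fun _ => 0) 2 3)
      (BlkD.upd (fun _ => 21) 0 7)) :=
  BlkD.tree_sound (BlkD.pairOk_sound k20_21_7_2) (by decide) hn t20_21_7_2_4 _ _ (by decide +kernel)

/-- certificates of the pair `(7, 2)`, part 5 -/
def t20_21_7_2_5 : BlkD.Tr :=
  .E 0

lemma s20_21_7_2_5 {n : ℕ} (hn : 6 ≤ n) : NoNd (d20_21_7_2.R : ℤ) d20_21_7_2.H n d20_21_7_2.a d20_21_7_2.b
    (BlkD.inB (BlkD.upd (fun _ => 0) 0 8)
      (fun _ => 21)) :=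
  BlkD.tree_sound (BlkD.pairOk_sound k20_21_7_2) (by decide) hn t20_21_7_2_5 _ _ (by decide +kernel)

lemma pr20_21_7_2 {n : ℕ} (hn : 6 ≤ n) : NoPr ((20 : ℕ) : ℤ) ((21 : ℕ) : ℤ) n 7 2 :=
  BlkD.of_root (R := d20_21_7_2.R) (H := d20_21_7_2.H) (a := d20_21_7_2.a) (b := d20_21_7_2.b) (q := 4) (by decide) hn
    (BlkD.sp 0 7 (BlkD.sp 2 2 (BlkD.sp 0 3 (BlkD.sp 0 1 (s20_21_7_2_1 hn) (s20_21_7_2_2 hn))
      (s20_21_7_2_3 hn)) (s20_21_7_2_4 hn)) (s20_21_7_2_5 hn))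

/-- the numbers of the pair `(7, 3)`, `R = 20`, `H = 21` -/
def d20_21_7_3 : BlkD.Pd :=
  ⟨20, 21, 4, 7, 3, 8, 3, 2, 1, 4, 10, 0, 4, 1, 8, 0, [0, 10, 20, 30, 36, 37, 38, 39, 40], [0, 8,
    16, 20, 24, 28, 32, 36, 40], [⟨1, 1, 1, 4, 8, [0, 4], [0, 4]⟩, ⟨1, 1, 1, 6, 12, [0, 6], [0,
    6]⟩, ⟨1, 1, 1, 6, 14, [0, 8], [0, 6]⟩, ⟨2, 1, 1, 6, 26, [0, 10, 18], [0, 8]⟩]⟩

lemma k20_21_7_3 : BlkD.pairOk d20_21_7_3 = true := by decide +kernel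

/-- certificates of the pair `(7, 3)`, part 1 -/
def t20_21_7_3_1 : BlkD.Tr :=
  .L 5 6 [4, 4, 4, 5] [] [] 100000 100000 100000 600000 100000 0 100000 50000 0 0 0

lemma s20_21_7_3_1 {n : ℕ} (hn : 6 ≤ n) : NoNd (d20_21_7_3.R : ℤ) d20_21_7_3.H n d20_21_7_3.a d20_21_7_3.b
    (BlkD.inB (fun _ => 0)
      (BlkD.upd (BlkD.upd (BlkD.upd (BlkD.upd (BlkD.upd (fun _ => 21) 0 7) 2 3) 0 3) 0 1) 0 0)) :=
  BlkD.tree_sound (BlkD.pairOk_sound k20_21_7_3) (by decide) hn t20_21_7_3_1 _ _ (by decide +kernel)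

/-- certificates of the pair `(7, 3)`, part 2 -/
def t20_21_7_3_2 : BlkD.Tr :=
  .L 5 6 [4, 4, 4, 5] [] [] 100000 100000 100000 600000 100000 0 100000 50000 0 0 0

lemma s20_21_7_3_2 {n : ℕ} (hn : 6 ≤ n) : NoNd (d20_21_7_3.R : ℤ) d20_21_7_3.H n d20_21_7_3.a d20_21_7_3.b
    (BlkD.inB (BlkD.upd (fun _ => 0) 0 1)
      (BlkD.upd (BlkD.upd (BlkD.upd (BlkD.upd (BlkD.upd (BlkD.upd (fun _ => 21) 0 7) 2 3) 0 3) 0 1) 1 10) 1 5)) :=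
  BlkD.tree_sound (BlkD.pairOk_sound k20_21_7_3) (by decide) hn t20_21_7_3_2 _ _ (by decide +kernel)

/-- certificates of the pair `(7, 3)`, part 3 -/
def t20_21_7_3_3 : BlkD.Tr :=
  .S 1 8 (.L 5 6 [4, 4, 4, 5] [] [] 100000 100000 100000 600000 100000 0 100000 50000 0 0 0) (.L 5
    6 [4, 4, 4, 5] [] [] 100000 100000 100000 600000 100000 0 100000 50000 0 0 0)

lemma s20_21_7_3_3 {n : ℕ} (hn : 6 ≤ n) : NoNd (d20_21_7_3.R : ℤ) d20_21_7_3.H n d20_21_7_3.a d20_21_7_3.b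
    (BlkD.inB (BlkD.upd (BlkD.upd (fun _ => 0) 0 1) 1 6)
      (BlkD.upd (BlkD.upd (BlkD.upd (BlkD.upd (BlkD.upd (fun _ => 21) 0 7) 2 3) 0 3) 0 1) 1 10)) :=
  BlkD.tree_sound (BlkD.pairOk_sound k20_21_7_3) (by decide) hn t20_21_7_3_3 _ _ (by decide +kernel)

/-- certificates of the pair `(7, 3)`, part 4 -/
def t20_21_7_3_4 : BlkD.Tr :=
  .L 5 6 [4, 4, 4, 5] [] [] 100000 100000 100000 600000 100000 0 100000 50000 0 0 0

lemma s20_21_7_3_4 {n : ℕ} (hn : 6 ≤ n) : NoNd (d20_21_7_3.R : ℤ) d20_21_7_3.H n d20_21_7_3.a d20_21_7_3.b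
    (BlkD.inB (BlkD.upd (BlkD.upd (fun _ => 0) 0 1) 1 11)
      (BlkD.upd (BlkD.upd (BlkD.upd (BlkD.upd (fun _ => 21) 0 7) 2 3) 0 3) 0 1)) :=
  BlkD.tree_sound (BlkD.pairOk_sound k20_21_7_3) (by decide) hn t20_21_7_3_4 _ _ (by decide +kernel)

/-- certificates of the pair `(7, 3)`, part 5 -/
def t20_21_7_3_5 : BlkD.Tr :=
  .L 5 6 [4, 4, 4, 5] [] [] 100000 44444 44444 933335 33333 0 33333 33333 0 0 16667

lemma s20_21_7_3_5 {n : ℕ} (hn : 6 ≤ n) : NoNd (d20_21_7_3.R : ℤ) d20_21_7_3.H n d20_21_7_3.a d20_21_7_3.b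
    (BlkD.inB (BlkD.upd (fun _ => 0) 0 2)
      (BlkD.upd (BlkD.upd (BlkD.upd (BlkD.upd (BlkD.upd (BlkD.upd (BlkD.upd (fun _ => 21) 0 7) 2 3) 0 3) 0 2) 1 19) 1 9) 1 4)) :=
  BlkD.tree_sound (BlkD.pairOk_sound k20_21_7_3) (by decide) hn t20_21_7_3_5 _ _ (by decide +kernel)

/-- certificates of the pair `(7, 3)`, part 6 -/
def t20_21_7_3_6 : BlkD.Tr :=
  .S 1 7 (.L 5 6 [4, 4, 4, 5] [] [] 100000 39095 39094 1114201 33951 0 50000 48148 0 18519 33333)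
    (.S 1 8 (.L 5 6 [4, 4, 4, 5] [144, 143, 142, 136, 128, 118] [] 100000 55291 55290 1045240 50000
    0 72222 32540 0 11905 22222) (.L 5 6 [4, 4, 4, 5] [165, 164, 163, 162, 156, 148] [] 100000
    48626 48626 1076290 50000 0 73711 26289 0 15464 18041))

lemma s20_21_7_3_6 {n : ℕ} (hn : 6 ≤ n) : NoNd (d20_21_7_3.R : ℤ) d20_21_7_3.H n d20_21_7_3.a d20_21_7_3.b
    (BlkD.inB (BlkD.upd (BlkD.upd (fun _ => 0) 0 2) 1 5)
      (BlkD.upd (BlkD.upd (BlkD.upd (BlkD.upd (BlkD.upd (BlkD.upd (fun _ => 21) 0 7) 2 3) 0 3) 0 2) 1 19) 1 9)) :=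
  BlkD.tree_sound (BlkD.pairOk_sound k20_21_7_3) (by decide) hn t20_21_7_3_6 _ _ (by decide +kernel)

/-- certificates of the pair `(7, 3)`, part 7 -/
def t20_21_7_3_7 : BlkD.Tr :=
  .S 1 14 (.S 1 12 (.S 1 11 (.S 1 10 (.L 5 6 [4, 4, 4, 5] [188, 187, 186, 185, 184, 178] [] 100000
    83334 83334 870650 82090 0 95771 27363 0 4478 15174) (.L 5 6 [4, 4, 4, 5] [213, 212, 211, 210,
    209, 208] [] 100000 118868 66038 513208 109434 0 152830 45283 0 0 7547)) (.E 0)) (.E 0)) (.E 0)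

lemma s20_21_7_3_7 {n : ℕ} (hn : 6 ≤ n) : NoNd (d20_21_7_3.R : ℤ) d20_21_7_3.H n d20_21_7_3.a d20_21_7_3.b
    (BlkD.inB (BlkD.upd (BlkD.upd (fun _ => 0) 0 2) 1 10)
      (BlkD.upd (BlkD.upd (BlkD.upd (BlkD.upd (BlkD.upd (fun _ => 21) 0 7) 2 3) 0 3) 0 2) 1 19)) :=
  BlkD.tree_sound (BlkD.pairOk_sound k20_21_7_3) (by decide) hn t20_21_7_3_7 _ _ (by decide +kernel)

/-- certificates of the pair `(7, 3)`, part 8 -/
def t20_21_7_3_8 : BlkD.Tr :=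
  .E 0

lemma s20_21_7_3_8 {n : ℕ} (hn : 6 ≤ n) : NoNd (d20_21_7_3.R : ℤ) d20_21_7_3.H n d20_21_7_3.a d20_21_7_3.b
    (BlkD.inB (BlkD.upd (BlkD.upd (fun _ => 0) 0 2) 1 20)
      (BlkD.upd (BlkD.upd (BlkD.upd (BlkD.upd (fun _ => 21) 0 7) 2 3) 0 3) 0 2)) :=
  BlkD.tree_sound (BlkD.pairOk_sound k20_21_7_3) (by decide) hn t20_21_7_3_8 _ _ (by decide +kernel)

/-- certificates of the pair `(7, 3)`, part 9 -/
def t20_21_7_3_9 : BlkD.Tr :=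
  .L 5 6 [4, 4, 4, 5] [] [] 100000 26042 26042 1075000 25000 0 25000 25000 0 21875 23438

lemma s20_21_7_3_9 {n : ℕ} (hn : 6 ≤ n) : NoNd (d20_21_7_3.R : ℤ) d20_21_7_3.H n d20_21_7_3.a d20_21_7_3.b
    (BlkD.inB (BlkD.upd (BlkD.upd (fun _ => 0) 0 2) 0 3)
      (BlkD.upd (BlkD.upd (BlkD.upd (BlkD.upd (BlkD.upd (BlkD.upd (fun _ => 21) 0 7) 2 3) 0 3) 1 18) 1 9) 1 4)) :=
  BlkD.tree_sound (BlkD.pairOk_sound k20_21_7_3) (by decide) hn t20_21_7_3_9 _ _ (by decide +kernel)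

/-- certificates of the pair `(7, 3)`, part 10 -/
def t20_21_7_3_10 : BlkD.Tr :=
  .S 1 7 (.S 1 6 (.S 1 5 (.L 5 6 [4, 4, 4, 5] [98, 90, 80, 70, 60, 50] [] 100000 26632 26632
    1138626 22222 0 30688 50265 0 20106 29630) (.L 5 8 [4, 4, 4, 4] [120, 114, 106, 96, 86, 76] []
    100000 26567 26567 1178197 31579 0 52632 32331 0 20301 21053)) (.L 5 8 [4, 4, 4, 4] [139, 138,
    132, 124, 114, 104] [] 100000 32689 32689 1147743 38065 0 61935 41935 645 14839 20000)) (.S 1 8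
    (.L 5 8 [4, 4, 4, 4] [160, 159, 158, 152, 144, 134] [] 100000 34641 34641 1152944 35294 0 70588
    58824 0 11765 15686) (.L 5 8 [4, 4, 4, 4] [183, 182, 181, 180, 174, 166] [] 100000 55556 55556
    1000000 50000 0 100000 50000 0 0 16667))

lemma s20_21_7_3_10 {n : ℕ} (hn : 6 ≤ n) : NoNd (d20_21_7_3.R : ℤ) d20_21_7_3.H n d20_21_7_3.a d20_21_7_3.b
    (BlkD.inB (BlkD.upd (BlkD.upd (BlkD.upd (fun _ => 0) 0 2) 0 3) 1 5)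
      (BlkD.upd (BlkD.upd (BlkD.upd (BlkD.upd (BlkD.upd (fun _ => 21) 0 7) 2 3) 0 3) 1 18) 1 9)) :=
  BlkD.tree_sound (BlkD.pairOk_sound k20_21_7_3) (by decide) hn t20_21_7_3_10 _ _ (by decide +kernel)

/-- certificates of the pair `(7, 3)`, part 11 -/
def t20_21_7_3_11 : BlkD.Tr :=
  .L 5 8 [4, 4, 4, 4] [] [] 100000 29412 18628 1039220 5882 0 110784 50000 0 11765 23039

lemma s20_21_7_3_11 {n : ℕ} (hn : 6 ≤ n) : NoNd (d20_21_7_3.R : ℤ) d20_21_7_3.H n d20_21_7_3.a d20_21_7_3.b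
    (BlkD.inB (BlkD.upd (BlkD.upd (BlkD.upd (fun _ => 0) 0 2) 0 3) 1 10)
      (BlkD.upd (BlkD.upd (BlkD.upd (BlkD.upd (fun _ => 21) 0 7) 2 3) 0 3) 1 18)) :=
  BlkD.tree_sound (BlkD.pairOk_sound k20_21_7_3) (by decide) hn t20_21_7_3_11 _ _ (by decide +kernel)

/-- certificates of the pair `(7, 3)`, part 12 -/
def t20_21_7_3_12 : BlkD.Tr :=
  .E 0

lemma s20_21_7_3_12 {n : ℕ} (hn : 6 ≤ n) : NoNd (d20_21_7_3.R : ℤ) d20_21_7_3.H n d20_21_7_3.a d20_21_7_3.b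
    (BlkD.inB (BlkD.upd (BlkD.upd (BlkD.upd (fun _ => 0) 0 2) 0 3) 1 19)
      (BlkD.upd (BlkD.upd (BlkD.upd (fun _ => 21) 0 7) 2 3) 0 3)) :=
  BlkD.tree_sound (BlkD.pairOk_sound k20_21_7_3) (by decide) hn t20_21_7_3_12 _ _ (by decide +kernel)

/-- certificates of the pair `(7, 3)`, part 13 -/
def t20_21_7_3_13 : BlkD.Tr :=
  .S 1 17 (.S 1 8 (.S 1 4 (.L 5 8 [4, 4, 4, 4] [] [] 100000 27083 27082 1150000 25000 0 25000 50000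
    0 18750 18750) (.S 1 6 (.S 1 5 (.L 5 8 [4, 4, 4, 4] [108, 100, 90, 80, 70, 60] [] 100000 26877
    26877 1177621 30595 0 70568 34702 753 17864 23135) (.S 2 1 (.S 2 0 (.L 5 8 [4, 4, 4, 4] [132,
    126, 118, 108, 98, 88] [] 100000 33333 33332 1000000 0 0 100000 100000 0 0 0) (.S 3 10 (.S 3 5
    (.S 3 2 (.L 5 8 [4, 4, 4, 4] [132, 126, 118, 108, 98, 88] [] 100000 27906 27906 1169977 30024
    9927 66435 39952 3783 8717 20218) (.L 5 8 [4, 4, 4, 4] [132, 126, 118, 108, 98, 88] [] 100000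
    27478 27478 1187838 27027 0 77027 50000 0 17568 17568)) (.E 1)) (.E 1))) (.L 5 8 [4, 4, 4, 4]
    [132, 126, 118, 108, 98, 88] [] 100000 27478 27478 1187838 27027 0 77027 50000 0 17568 17568)))
    (.S 1 7 (.L 5 8 [4, 4, 4, 4] [153, 152, 146, 138, 128, 118] [] 100000 28572 28571 1180954 16667
    0 100000 52381 0 14286 16667) (.L 5 8 [4, 4, 4, 4] [176, 175, 174, 168, 160, 150] [] 100000
    26084 26083 1144240 18587 0 100000 40706 3717 18030 20446)))) (.L 5 8 [4, 4, 4, 4] [] [] 100000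
    150000 0 0 0 0 250000 50000 0 0 0)) (.E 0)

lemma s20_21_7_3_13 {n : ℕ} (hn : 6 ≤ n) : NoNd (d20_21_7_3.R : ℤ) d20_21_7_3.H n d20_21_7_3.a d20_21_7_3.b
    (BlkD.inB (BlkD.upd (fun _ => 0) 0 4)
      (BlkD.upd (BlkD.upd (BlkD.upd (BlkD.upd (fun _ => 21) 0 7) 2 3) 0 5) 0 4)) :=
  BlkD.tree_sound (BlkD.pairOk_sound k20_21_7_3) (by decide) hn t20_21_7_3_13 _ _ (by decide +kernel)

/-- certificates of the pair `(7, 3)`, part 14 -/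
def t20_21_7_3_14 : BlkD.Tr :=
  .S 1 16 (.S 1 8 (.S 1 4 (.L 5 8 [4, 4, 4, 4] [] [] 100000 23611 23611 1200003 25000 0 58333 58333
    4167 20833 20833) (.S 1 6 (.S 1 5 (.L 5 8 [4, 4, 4, 4] [118, 110, 100, 90, 80, 70] [] 100000
    24622 24622 1200171 33277 0 73277 47479 6807 12521 20000) (.L 5 8 [4, 4, 4, 4] [144, 138, 130,
    120, 110, 100] [] 100000 26667 26667 1160000 20000 0 100000 40000 0 20000 20000)) (.L 5 8 [4,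
    4, 4, 4] [] [] 100000 24080 16508 1073397 3887 0 107572 48057 15750 12014 23322))) (.E 0)) (.E
    0)

lemma s20_21_7_3_14 {n : ℕ} (hn : 6 ≤ n) : NoNd (d20_21_7_3.R : ℤ) d20_21_7_3.H n d20_21_7_3.a d20_21_7_3.b
    (BlkD.inB (BlkD.upd (BlkD.upd (fun _ => 0) 0 4) 0 5)
      (BlkD.upd (BlkD.upd (BlkD.upd (fun _ => 21) 0 7) 2 3) 0 5)) :=
  BlkD.tree_sound (BlkD.pairOk_sound k20_21_7_3) (by decide) hn t20_21_7_3_14 _ _ (by decide +kernel)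

/-- certificates of the pair `(7, 3)`, part 15 -/
def t20_21_7_3_15 : BlkD.Tr :=
  .S 0 6 (.S 1 15 (.S 1 7 (.S 1 3 (.L 5 8 [4, 4, 4, 4] [] [] 100000 18458 18458 1200001 33333 0
    87328 52617 10468 23691 23691) (.L 5 8 [4, 4, 4, 4] [] [] 100000 17442 17442 1200001 4651 0
    95349 47674 26744 16279 22674)) (.E 0)) (.E 0)) (.L 5 8 [4, 4, 4, 4] [] [] 100000 674 674
    1234344 0 0 65657 33333 34343 29293 34343)

lemma s20_21_7_3_15 {n : ℕ} (hn : 6 ≤ n) : NoNd (d20_21_7_3.R : ℤ) d20_21_7_3.H n d20_21_7_3.a d20_21_7_3.b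
    (BlkD.inB (BlkD.upd (BlkD.upd (fun _ => 0) 0 4) 0 6)
      (BlkD.upd (BlkD.upd (fun _ => 21) 0 7) 2 3)) :=
  BlkD.tree_sound (BlkD.pairOk_sound k20_21_7_3) (by decide) hn t20_21_7_3_15 _ _ (by decide +kernel)

/-- certificates of the pair `(7, 3)`, part 16 -/
def t20_21_7_3_16 : BlkD.Tr :=
  .E 1

lemma s20_21_7_3_16 {n : ℕ} (hn : 6 ≤ n) : NoNd (d20_21_7_3.R : ℤ) d20_21_7_3.H n d20_21_7_3.a d20_21_7_3.b
    (BlkD.inB (BlkD.upd (fun _ => 0) 2 4)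
      (BlkD.upd (fun _ => 21) 0 7)) :=
  BlkD.tree_sound (BlkD.pairOk_sound k20_21_7_3) (by decide) hn t20_21_7_3_16 _ _ (by decide +kernel)

/-- certificates of the pair `(7, 3)`, part 17 -/
def t20_21_7_3_17 : BlkD.Tr :=
  .E 0

lemma s20_21_7_3_17 {n : ℕ} (hn : 6 ≤ n) : NoNd (d20_21_7_3.R : ℤ) d20_21_7_3.H n d20_21_7_3.a d20_21_7_3.b
    (BlkD.inB (BlkD.upd (fun _ => 0) 0 8)
      (fun _ => 21)) :=
  BlkD.tree_sound (BlkD.pairOk_sound k20_21_7_3) (by decide) hn t20_21_7_3_17 _ _ (by decide +kernel)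

lemma pr20_21_7_3 {n : ℕ} (hn : 6 ≤ n) : NoPr ((20 : ℕ) : ℤ) ((21 : ℕ) : ℤ) n 7 3 :=
  BlkD.of_root (R := d20_21_7_3.R) (H := d20_21_7_3.H) (a := d20_21_7_3.a) (b := d20_21_7_3.b) (q := 4) (by decide) hn
    (BlkD.sp 0 7 (BlkD.sp 2 3 (BlkD.sp 0 3 (BlkD.sp 0 1 (BlkD.sp 0 0 (s20_21_7_3_1 hn) (BlkD.sp 1
      10 (BlkD.sp 1 5 (s20_21_7_3_2 hn) (s20_21_7_3_3 hn)) (s20_21_7_3_4 hn))) (BlkD.sp 0 2
      (BlkD.sp 1 19 (BlkD.sp 1 9 (BlkD.sp 1 4 (s20_21_7_3_5 hn) (s20_21_7_3_6 hn)) (s20_21_7_3_7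
      hn)) (s20_21_7_3_8 hn)) (BlkD.sp 1 18 (BlkD.sp 1 9 (BlkD.sp 1 4 (s20_21_7_3_9 hn)
      (s20_21_7_3_10 hn)) (s20_21_7_3_11 hn)) (s20_21_7_3_12 hn)))) (BlkD.sp 0 5 (BlkD.sp 0 4
      (s20_21_7_3_13 hn) (s20_21_7_3_14 hn)) (s20_21_7_3_15 hn))) (s20_21_7_3_16 hn))
      (s20_21_7_3_17 hn))

/-- the numbers of the pair `(7, 4)`, `R = 20`, `H = 21` -/
def d20_21_7_4 : BlkD.Pd :=
  ⟨20, 21, 4, 7, 4, 7, 3, 2, 1, 4, 10, 0, 2, 2, 8, 0, [0, 10, 20, 30, 32, 33, 34, 35], [0, 8, 16,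
    20, 22, 24, 26, 28], [⟨1, 1, 1, 4, 8, [0, 4], [0, 4]⟩, ⟨1, 1, 1, 4, 12, [0, 6], [0, 6]⟩, ⟨1, 1,
    1, 4, 16, [0, 8], [0, 8]⟩, ⟨2, 1, 1, 4, 26, [0, 10, 18], [0, 8]⟩]⟩

lemma k20_21_7_4 : BlkD.pairOk d20_21_7_4 = true := by decide +kernel

/-- certificates of the pair `(7, 4)`, part 1 -/
def t20_21_7_4_1 : BlkD.Tr :=
  .L 6 8 [4, 4, 4, 4, 20] [] [] 100000 77778 77778 800001 100000 0 100000 33333 0 0 0

lemma s20_21_7_4_1 {n : ℕ} (hn : 6 ≤ n) : NoNd (d20_21_7_4.R : ℤ) d20_21_7_4.H n d20_21_7_4.a d20_21_7_4.b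
    (BlkD.inB (fun _ => 0)
      (BlkD.upd (BlkD.upd (BlkD.upd (BlkD.upd (BlkD.upd (fun _ => 21) 0 7) 2 4) 0 3) 0 1) 0 0)) :=
  BlkD.tree_sound (BlkD.pairOk_sound k20_21_7_4) (by decide) hn t20_21_7_4_1 _ _ (by decide +kernel)

/-- certificates of the pair `(7, 4)`, part 2 -/
def t20_21_7_4_2 : BlkD.Tr :=
  .L 6 8 [4, 4, 4, 4, 20] [] [] 100000 77778 77778 800001 100000 0 100000 33333 0 0 0

lemma s20_21_7_4_2 {n : ℕ} (hn : 6 ≤ n) : NoNd (d20_21_7_4.R : ℤ) d20_21_7_4.H n d20_21_7_4.a d20_21_7_4.b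
    (BlkD.inB (BlkD.upd (fun _ => 0) 0 1)
      (BlkD.upd (BlkD.upd (BlkD.upd (BlkD.upd (BlkD.upd (BlkD.upd (fun _ => 21) 0 7) 2 4) 0 3) 0 1) 1 10) 1 5)) :=
  BlkD.tree_sound (BlkD.pairOk_sound k20_21_7_4) (by decide) hn t20_21_7_4_2 _ _ (by decide +kernel)

/-- certificates of the pair `(7, 4)`, part 3 -/
def t20_21_7_4_3 : BlkD.Tr :=
  .S 1 8 (.L 6 8 [4, 4, 4, 4, 20] [] [] 100000 77778 77778 800001 100000 0 100000 33333 0 0 0) (.L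
    6 8 [4, 4, 4, 4, 20] [] [] 100000 77778 77778 800001 100000 0 100000 33333 0 0 0)

lemma s20_21_7_4_3 {n : ℕ} (hn : 6 ≤ n) : NoNd (d20_21_7_4.R : ℤ) d20_21_7_4.H n d20_21_7_4.a d20_21_7_4.b
    (BlkD.inB (BlkD.upd (BlkD.upd (fun _ => 0) 0 1) 1 6)
      (BlkD.upd (BlkD.upd (BlkD.upd (BlkD.upd (BlkD.upd (fun _ => 21) 0 7) 2 4) 0 3) 0 1) 1 10)) :=
  BlkD.tree_sound (BlkD.pairOk_sound k20_21_7_4) (by decide) hn t20_21_7_4_3 _ _ (by decide +kernel)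

/-- certificates of the pair `(7, 4)`, part 4 -/
def t20_21_7_4_4 : BlkD.Tr :=
  .L 6 8 [4, 4, 4, 4, 20] [] [] 100000 77778 77778 800001 100000 0 100000 33333 0 0 0

lemma s20_21_7_4_4 {n : ℕ} (hn : 6 ≤ n) : NoNd (d20_21_7_4.R : ℤ) d20_21_7_4.H n d20_21_7_4.a d20_21_7_4.b
    (BlkD.inB (BlkD.upd (BlkD.upd (fun _ => 0) 0 1) 1 11)
      (BlkD.upd (BlkD.upd (BlkD.upd (BlkD.upd (fun _ => 21) 0 7) 2 4) 0 3) 0 1)) :=
  BlkD.tree_sound (BlkD.pairOk_sound k20_21_7_4) (by decide) hn t20_21_7_4_4 _ _ (by decide +kernel)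

/-- certificates of the pair `(7, 4)`, part 5 -/
def t20_21_7_4_5 : BlkD.Tr :=
  .L 6 8 [4, 4, 4, 4, 20] [] [] 100000 75238 75238 1160002 60000 0 80000 45714 0 14286 20000

lemma s20_21_7_4_5 {n : ℕ} (hn : 6 ≤ n) : NoNd (d20_21_7_4.R : ℤ) d20_21_7_4.H n d20_21_7_4.a d20_21_7_4.b
    (BlkD.inB (BlkD.upd (fun _ => 0) 0 2)
      (BlkD.upd (BlkD.upd (BlkD.upd (BlkD.upd (BlkD.upd (BlkD.upd (fun _ => 21) 0 7) 2 4) 0 3) 0 2) 1 10) 1 5)) :=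
  BlkD.tree_sound (BlkD.pairOk_sound k20_21_7_4) (by decide) hn t20_21_7_4_5 _ _ (by decide +kernel)

/-- certificates of the pair `(7, 4)`, part 6 -/
def t20_21_7_4_6 : BlkD.Tr :=
  .S 1 8 (.L 6 8 [4, 4, 4, 4, 20] [] [] 100000 75238 75238 1160002 60000 0 80000 45714 0 14286
    20000) (.L 6 8 [4, 4, 4, 4, 20] [] [] 100000 75238 75238 1160002 60000 0 80000 45714 0 14286
    20000)

lemma s20_21_7_4_6 {n : ℕ} (hn : 6 ≤ n) : NoNd (d20_21_7_4.R : ℤ) d20_21_7_4.H n d20_21_7_4.a d20_21_7_4.b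
    (BlkD.inB (BlkD.upd (BlkD.upd (fun _ => 0) 0 2) 1 6)
      (BlkD.upd (BlkD.upd (BlkD.upd (BlkD.upd (BlkD.upd (fun _ => 21) 0 7) 2 4) 0 3) 0 2) 1 10)) :=
  BlkD.tree_sound (BlkD.pairOk_sound k20_21_7_4) (by decide) hn t20_21_7_4_6 _ _ (by decide +kernel)

/-- certificates of the pair `(7, 4)`, part 7 -/
def t20_21_7_4_7 : BlkD.Tr :=
  .L 6 8 [4, 4, 4, 4, 20] [] [] 100000 75238 75238 1160002 60000 0 80000 45714 0 14286 20000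

lemma s20_21_7_4_7 {n : ℕ} (hn : 6 ≤ n) : NoNd (d20_21_7_4.R : ℤ) d20_21_7_4.H n d20_21_7_4.a d20_21_7_4.b
    (BlkD.inB (BlkD.upd (BlkD.upd (fun _ => 0) 0 2) 1 11)
      (BlkD.upd (BlkD.upd (BlkD.upd (BlkD.upd (fun _ => 21) 0 7) 2 4) 0 3) 0 2)) :=
  BlkD.tree_sound (BlkD.pairOk_sound k20_21_7_4) (by decide) hn t20_21_7_4_7 _ _ (by decide +kernel)

/-- certificates of the pair `(7, 4)`, part 8 -/
def t20_21_7_4_8 : BlkD.Tr :=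
  .L 6 8 [4, 4, 4, 4, 20] [] [] 100000 25953 25953 1255001 15000 10000 25000 42500 0 22143 22143

lemma s20_21_7_4_8 {n : ℕ} (hn : 6 ≤ n) : NoNd (d20_21_7_4.R : ℤ) d20_21_7_4.H n d20_21_7_4.a d20_21_7_4.b
    (BlkD.inB (BlkD.upd (BlkD.upd (fun _ => 0) 0 2) 0 3)
      (BlkD.upd (BlkD.upd (BlkD.upd (BlkD.upd (BlkD.upd (BlkD.upd (fun _ => 21) 0 7) 2 4) 0 3) 1 18) 1 9) 1 4)) :=
  BlkD.tree_sound (BlkD.pairOk_sound k20_21_7_4) (by decide) hn t20_21_7_4_8 _ _ (by decide +kernel)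

/-- certificates of the pair `(7, 4)`, part 9 -/
def t20_21_7_4_9 : BlkD.Tr :=
  .S 1 6 (.S 1 5 (.L 6 8 [4, 4, 4, 4, 20] [102, 92, 82, 72, 62, 50] [] 100000 27381 27381 1300000
    25000 0 50000 37500 0 17857 17857) (.S 2 2 (.L 6 8 [4, 4, 4, 4, 20] [120, 118, 108, 98, 88, 78]
    [] 100000 41717 41717 1265496 39474 9357 57895 44152 0 11988 7018) (.L 6 8 [4, 4, 4, 4, 20]
    [120, 118, 108, 98, 88, 78] [] 100000 29630 29630 1300002 33333 0 66667 33333 0 33333 22222)))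
    (.S 2 2 (.S 2 1 (.L 6 8 [4, 4, 4, 4, 20] [139, 138, 136, 126, 116, 106] [] 100000 67460 67460
    1184130 44444 46032 63492 60317 0 0 397) (.L 6 8 [4, 4, 4, 4, 20] [139, 138, 136, 126, 116,
    106] [] 100000 36253 36253 1289864 41014 0 64055 46083 0 14286 14747)) (.L 6 8 [4, 4, 4, 4, 20]
    [139, 138, 136, 126, 116, 106] [] 100000 25334 25334 1320000 36000 0 64000 36000 4000 24000
    16000))

lemma s20_21_7_4_9 {n : ℕ} (hn : 6 ≤ n) : NoNd (d20_21_7_4.R : ℤ) d20_21_7_4.H n d20_21_7_4.a d20_21_7_4.b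
    (BlkD.inB (BlkD.upd (BlkD.upd (BlkD.upd (fun _ => 0) 0 2) 0 3) 1 5)
      (BlkD.upd (BlkD.upd (BlkD.upd (BlkD.upd (BlkD.upd (BlkD.upd (fun _ => 21) 0 7) 2 4) 0 3) 1 18) 1 9) 1 7)) :=
  BlkD.tree_sound (BlkD.pairOk_sound k20_21_7_4) (by decide) hn t20_21_7_4_9 _ _ (by decide +kernel)

/-- certificates of the pair `(7, 4)`, part 10 -/
def t20_21_7_4_10 : BlkD.Tr :=
  .S 1 8 (.L 5 6 [4, 4, 4, 5, 20] [160, 159, 158, 156, 146, 136] [] 100000 44381 44381 1260003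
    40000 0 80000 60000 0 11429 17714) (.L 5 6 [4, 4, 4, 5, 20] [183, 182, 181, 180, 178, 168] []
    100000 58334 58334 1150000 50000 0 100000 50000 0 0 25000)

lemma s20_21_7_4_10 {n : ℕ} (hn : 6 ≤ n) : NoNd (d20_21_7_4.R : ℤ) d20_21_7_4.H n d20_21_7_4.a d20_21_7_4.b
    (BlkD.inB (BlkD.upd (BlkD.upd (BlkD.upd (BlkD.upd (fun _ => 0) 0 2) 0 3) 1 5) 1 8)
      (BlkD.upd (BlkD.upd (BlkD.upd (BlkD.upd (BlkD.upd (fun _ => 21) 0 7) 2 4) 0 3) 1 18) 1 9)) :=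
  BlkD.tree_sound (BlkD.pairOk_sound k20_21_7_4) (by decide) hn t20_21_7_4_10 _ _ (by decide +kernel)

/-- certificates of the pair `(7, 4)`, part 11 -/
def t20_21_7_4_11 : BlkD.Tr :=
  .S 1 14 (.S 1 12 (.S 1 11 (.S 1 10 (.L 5 6 [4, 4, 4, 5, 20] [208, 207, 206, 205, 204, 202] []
    100000 100000 50000 800000 100000 0 150000 50000 0 0 0) (.E 0)) (.E 0)) (.E 0)) (.E 0)

lemma s20_21_7_4_11 {n : ℕ} (hn : 6 ≤ n) : NoNd (d20_21_7_4.R : ℤ) d20_21_7_4.H n d20_21_7_4.a d20_21_7_4.b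
    (BlkD.inB (BlkD.upd (BlkD.upd (BlkD.upd (fun _ => 0) 0 2) 0 3) 1 10)
      (BlkD.upd (BlkD.upd (BlkD.upd (BlkD.upd (fun _ => 21) 0 7) 2 4) 0 3) 1 18)) :=
  BlkD.tree_sound (BlkD.pairOk_sound k20_21_7_4) (by decide) hn t20_21_7_4_11 _ _ (by decide +kernel)

/-- certificates of the pair `(7, 4)`, part 12 -/
def t20_21_7_4_12 : BlkD.Tr :=
  .E 0

lemma s20_21_7_4_12 {n : ℕ} (hn : 6 ≤ n) : NoNd (d20_21_7_4.R : ℤ) d20_21_7_4.H n d20_21_7_4.a d20_21_7_4.b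
    (BlkD.inB (BlkD.upd (BlkD.upd (BlkD.upd (fun _ => 0) 0 2) 0 3) 1 19)
      (BlkD.upd (BlkD.upd (BlkD.upd (fun _ => 21) 0 7) 2 4) 0 3)) :=
  BlkD.tree_sound (BlkD.pairOk_sound k20_21_7_4) (by decide) hn t20_21_7_4_12 _ _ (by decide +kernel)

/-- certificates of the pair `(7, 4)`, part 13 -/
def t20_21_7_4_13 : BlkD.Tr :=
  .S 1 2 (.L 5 6 [4, 4, 4, 5, 20] [] [] 100000 33334 33334 1200000 0 0 0 50000 0 0 0) (.S 1 3 (.L 5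
    6 [4, 4, 4, 5, 20] [62, 52, 42, 30, 0, 0] [] 100000 26316 26316 1247371 26316 0 26316 36842 0
    21053 21053) (.L 6 8 [4, 4, 4, 4, 20] [86, 76, 66, 56, 44, 0] [] 100000 28081 28081 1310306
    29293 1818 54949 35354 0 15758 24444))

lemma s20_21_7_4_13 {n : ℕ} (hn : 6 ≤ n) : NoNd (d20_21_7_4.R : ℤ) d20_21_7_4.H n d20_21_7_4.a d20_21_7_4.b
    (BlkD.inB (BlkD.upd (fun _ => 0) 0 4)
      (BlkD.upd (BlkD.upd (BlkD.upd (BlkD.upd (BlkD.upd (BlkD.upd (BlkD.upd (fun _ => 21) 0 7) 2 4) 0 5) 0 4) 1 17) 1 8) 1 4)) :=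
  BlkD.tree_sound (BlkD.pairOk_sound k20_21_7_4) (by decide) hn t20_21_7_4_13 _ _ (by decide +kernel)

/-- certificates of the pair `(7, 4)`, part 14 -/
def t20_21_7_4_14 : BlkD.Tr :=
  .S 1 5 (.S 2 2 (.S 2 1 (.L 6 8 [4, 4, 4, 4, 20] [112, 102, 92, 82, 72, 60] [] 100000 47369 47369
    1226316 26316 47368 73684 73684 0 0 15789) (.S 3 10 (.S 3 5 (.S 3 2 (.L 6 8 [4, 4, 4, 4, 20]
    [112, 102, 92, 82, 72, 60] [] 100000 28931 28931 1285850 26415 10377 72642 21698 943 11321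
    13679) (.S 3 4 (.S 3 3 (.L 6 8 [4, 4, 4, 4, 20] [112, 102, 92, 82, 72, 60] [48, 40, 30, 18, 0,
    0] 100000 24842 24842 1319747 26752 0 76433 57325 3822 17834 17834) (.S 4 5 (.S 4 2 (.L 6 8 [4,
    4, 4, 4, 20] [82, 72, 60, 0, 0, 0] [66, 58, 50, 40, 28, 0] 100000 24947 24947 1322582 35484 0
    86452 35484 2581 24516 20000) (.L 6 8 [4, 4, 4, 4, 20] [112, 102, 92, 82, 72, 60] [66, 58, 50,
    40, 28, 0] 100000 28572 1 1100001 14286 0 128571 14286 0 14286 28571)) (.E 2))) (.L 6 8 [4, 4,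
    4, 4, 20] [112, 102, 92, 82, 72, 60] [82, 78, 70, 62, 52, 40] 100000 100000 9091 636365 72727 0
    100000 190909 0 0 9091))) (.E 1)) (.E 1))) (.L 6 8 [4, 4, 4, 4, 20] [112, 102, 92, 82, 72, 60]
    [] 100000 24478 24478 1322985 25672 0 88657 53731 2388 21791 21791)) (.S 2 2 (.S 2 1 (.L 6 8
    [4, 4, 4, 4, 20] [132, 130, 120, 110, 100, 90] [] 100000 57577 57577 1218182 36364 45455 72727
    63636 0 0 9091) (.S 3 9 (.S 3 4 (.S 3 2 (.L 6 8 [4, 4, 4, 4, 20] [132, 130, 120, 110, 100, 90]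
    [] 100000 28443 28443 1298600 32710 3271 75607 45514 2243 10187 17477) (.S 3 3 (.L 5 6 [4, 4,
    4, 5, 20] [132, 130, 120, 110, 100, 90] [48, 40, 30, 18, 0, 0] 100000 25001 25001 1320833 29167
    0 62500 58333 0 25000 25000) (.L 6 8 [4, 4, 4, 4, 20] [132, 130, 120, 110, 100, 90] [66, 58,
    50, 40, 28, 0] 100000 35556 35556 1266669 33333 0 100000 33333 0 26667 13333))) (.L 6 8 [4, 4,
    4, 4, 20] [132, 130, 120, 110, 100, 90] [] 100000 200000 100000 300000 100000 0 200000 200000 0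
    0 0)) (.E 1))) (.L 6 8 [4, 4, 4, 4, 20] [132, 130, 120, 110, 100, 90] [] 100000 27537 27537
    1313043 30435 0 82609 43478 0 17391 17391))

lemma s20_21_7_4_14 {n : ℕ} (hn : 6 ≤ n) : NoNd (d20_21_7_4.R : ℤ) d20_21_7_4.H n d20_21_7_4.a d20_21_7_4.b
    (BlkD.inB (BlkD.upd (BlkD.upd (fun _ => 0) 0 4) 1 5)
      (BlkD.upd (BlkD.upd (BlkD.upd (BlkD.upd (BlkD.upd (BlkD.upd (BlkD.upd (fun _ => 21) 0 7) 2 4) 0 5) 0 4) 1 17) 1 8) 1 6)) :=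
  BlkD.tree_sound (BlkD.pairOk_sound k20_21_7_4) (by decide) hn t20_21_7_4_14 _ _ (by decide +kernel)

/-- certificates of the pair `(7, 4)`, part 15 -/
def t20_21_7_4_15 : BlkD.Tr :=
  .S 1 7 (.S 2 2 (.S 2 1 (.L 6 8 [4, 4, 4, 4, 20] [153, 152, 150, 140, 130, 120] [] 100000 49825
    49825 1231580 36842 42105 73684 57895 0 0 4211) (.S 3 8 (.S 3 4 (.S 3 2 (.L 6 8 [4, 4, 4, 4,
    20] [153, 152, 150, 140, 130, 120] [] 100000 28709 28709 1296534 33333 16667 70135 40017 3892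
    6091 18613) (.L 5 6 [4, 4, 4, 5, 20] [153, 152, 150, 140, 130, 120] [] 100000 62500 62500
    1200000 50000 0 100000 50000 0 0 12500)) (.L 5 6 [4, 4, 4, 5, 20] [153, 152, 150, 140, 130,
    120] [] 100000 185715 1 0 91837 0 191837 285714 0 0 2041)) (.E 1))) (.L 5 6 [4, 4, 4, 5, 20]
    [153, 152, 150, 140, 130, 120] [] 100000 26882 26882 1306451 35484 0 87097 16129 1613 32258
    16129)) (.L 5 6 [4, 4, 4, 5, 20] [176, 175, 174, 172, 162, 152] [] 100000 51516 51516 1218181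
    45455 0 100000 45455 0 9091 13636)

lemma s20_21_7_4_15 {n : ℕ} (hn : 6 ≤ n) : NoNd (d20_21_7_4.R : ℤ) d20_21_7_4.H n d20_21_7_4.a d20_21_7_4.b
    (BlkD.inB (BlkD.upd (BlkD.upd (BlkD.upd (fun _ => 0) 0 4) 1 5) 1 7)
      (BlkD.upd (BlkD.upd (BlkD.upd (BlkD.upd (BlkD.upd (BlkD.upd (fun _ => 21) 0 7) 2 4) 0 5) 0 4) 1 17) 1 8)) :=
  BlkD.tree_sound (BlkD.pairOk_sound k20_21_7_4) (by decide) hn t20_21_7_4_15 _ _ (by decide +kernel)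

/-- certificates of the pair `(7, 4)`, part 16 -/
def t20_21_7_4_16 : BlkD.Tr :=
  .L 5 6 [4, 4, 4, 5, 20] [] [] 100000 183333 0 2 0 0 283333 20000 0 0 0

lemma s20_21_7_4_16 {n : ℕ} (hn : 6 ≤ n) : NoNd (d20_21_7_4.R : ℤ) d20_21_7_4.H n d20_21_7_4.a d20_21_7_4.b
    (BlkD.inB (BlkD.upd (BlkD.upd (fun _ => 0) 0 4) 1 9)
      (BlkD.upd (BlkD.upd (BlkD.upd (BlkD.upd (BlkD.upd (fun _ => 21) 0 7) 2 4) 0 5) 0 4) 1 17)) :=
  BlkD.tree_sound (BlkD.pairOk_sound k20_21_7_4) (by decide) hn t20_21_7_4_16 _ _ (by decide +kernel)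

/-- certificates of the pair `(7, 4)`, part 17 -/
def t20_21_7_4_17 : BlkD.Tr :=
  .E 0

lemma s20_21_7_4_17 {n : ℕ} (hn : 6 ≤ n) : NoNd (d20_21_7_4.R : ℤ) d20_21_7_4.H n d20_21_7_4.a d20_21_7_4.b
    (BlkD.inB (BlkD.upd (BlkD.upd (fun _ => 0) 0 4) 1 18)
      (BlkD.upd (BlkD.upd (BlkD.upd (BlkD.upd (fun _ => 21) 0 7) 2 4) 0 5) 0 4)) :=
  BlkD.tree_sound (BlkD.pairOk_sound k20_21_7_4) (by decide) hn t20_21_7_4_17 _ _ (by decide +kernel)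

/-- certificates of the pair `(7, 4)`, part 18 -/
def t20_21_7_4_18 : BlkD.Tr :=
  .S 1 2 (.L 5 6 [4, 4, 4, 5, 20] [] [] 100000 25641 25641 1261539 19231 9615 19231 50000 0 23077
    23077) (.S 1 3 (.S 2 2 (.S 2 1 (.L 5 6 [4, 4, 4, 5, 20] [68, 58, 48, 36, 0, 0] [] 100000 41667
    41667 1225000 25000 50000 50000 75000 0 0 12500) (.S 3 11 (.S 3 5 (.S 3 2 (.L 5 6 [4, 4, 4, 5,
    20] [68, 58, 48, 36, 0, 0] [] 100000 33334 33334 1200000 0 0 0 0 0 0 0) (.L 6 8 [4, 4, 4, 4,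
    20] [68, 58, 48, 36, 0, 0] [] 100000 25000 25000 1314287 28571 14286 53571 35714 0 39286
    25000)) (.E 1)) (.E 1))) (.L 6 8 [4, 4, 4, 4, 20] [68, 58, 48, 36, 0, 0] [] 100000 22223 22223
    1300001 33333 0 33333 33333 0 33333 33333)) (.S 2 2 (.S 2 1 (.L 6 8 [4, 4, 4, 4, 20] [94, 84,
    74, 64, 52, 0] [] 100000 33334 33334 1260000 20000 60000 60000 60000 0 0 20000) (.S 3 10 (.S 3
    5 (.S 3 2 (.L 6 8 [4, 4, 4, 4, 20] [94, 84, 74, 64, 52, 0] [] 100000 26561 26561 1311554 30677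
    19124 45618 30677 4382 11554 17331) (.L 5 6 [4, 4, 4, 5, 20] [94, 84, 74, 64, 52, 0] [] 100000
    22773 22773 1328713 30693 0 79208 48515 2970 25743 25743)) (.E 1)) (.E 1))) (.L 5 6 [4, 4, 4,
    5, 20] [94, 84, 74, 64, 52, 0] [] 100000 23077 23077 1325641 30769 0 62821 30769 2564 25641
    25641)))

lemma s20_21_7_4_18 {n : ℕ} (hn : 6 ≤ n) : NoNd (d20_21_7_4.R : ℤ) d20_21_7_4.H n d20_21_7_4.a d20_21_7_4.b
    (BlkD.inB (BlkD.upd (BlkD.upd (fun _ => 0) 0 4) 0 5)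
      (BlkD.upd (BlkD.upd (BlkD.upd (BlkD.upd (BlkD.upd (BlkD.upd (fun _ => 21) 0 7) 2 4) 0 5) 1 16) 1 8) 1 4)) :=
  BlkD.tree_sound (BlkD.pairOk_sound k20_21_7_4) (by decide) hn t20_21_7_4_18 _ _ (by decide +kernel)

/-- certificates of the pair `(7, 4)`, part 19 -/
def t20_21_7_4_19 : BlkD.Tr :=
  .S 1 6 (.S 1 5 (.S 2 2 (.S 2 1 (.L 5 6 [4, 4, 4, 5, 20] [122, 112, 102, 92, 82, 70] [] 100000
    42223 42223 1251515 19697 59091 71212 65152 0 4545 13939) (.S 3 9 (.S 3 4 (.S 3 2 (.L 5 6 [4,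
    4, 4, 5, 20] [122, 112, 102, 92, 82, 70] [] 100000 18688 18688 1336551 21150 10575 72345 62345
    15398 13142 25000) (.L 6 8 [4, 4, 4, 4, 20] [122, 112, 102, 92, 82, 70] [] 100000 20494 20494
    1335557 27407 0 82222 54815 9259 20000 20000)) (.L 6 8 [4, 4, 4, 4, 20] [122, 112, 102, 92, 82,
    70] [] 100000 183333 0 2 0 0 283333 283333 0 0 0)) (.E 1))) (.L 6 8 [4, 4, 4, 4, 20] [122, 112,
    102, 92, 82, 70] [] 100000 17143 17143 1347144 26429 0 85714 40714 14286 20000 20000)) (.L 6 8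
    [4, 4, 4, 4, 20] [144, 142, 132, 122, 112, 102] [] 100000 25659 25659 1299069 33489 233 100000
    35296 11717 11309 13116)) (.L 6 8 [4, 4, 4, 4, 20] [] [] 100000 28890 28890 1266666 6667 10000
    100000 26667 0 13333 13333)

lemma s20_21_7_4_19 {n : ℕ} (hn : 6 ≤ n) : NoNd (d20_21_7_4.R : ℤ) d20_21_7_4.H n d20_21_7_4.a d20_21_7_4.b
    (BlkD.inB (BlkD.upd (BlkD.upd (BlkD.upd (fun _ => 0) 0 4) 0 5) 1 5)
      (BlkD.upd (BlkD.upd (BlkD.upd (BlkD.upd (BlkD.upd (fun _ => 21) 0 7) 2 4) 0 5) 1 16) 1 8)) :=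
  BlkD.tree_sound (BlkD.pairOk_sound k20_21_7_4) (by decide) hn t20_21_7_4_19 _ _ (by decide +kernel)

/-- certificates of the pair `(7, 4)`, part 20 -/
def t20_21_7_4_20 : BlkD.Tr :=
  .E 0

lemma s20_21_7_4_20 {n : ℕ} (hn : 6 ≤ n) : NoNd (d20_21_7_4.R : ℤ) d20_21_7_4.H n d20_21_7_4.a d20_21_7_4.b
    (BlkD.inB (BlkD.upd (BlkD.upd (BlkD.upd (fun _ => 0) 0 4) 0 5) 1 9)
      (BlkD.upd (BlkD.upd (BlkD.upd (BlkD.upd (fun _ => 21) 0 7) 2 4) 0 5) 1 16)) :=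
  BlkD.tree_sound (BlkD.pairOk_sound k20_21_7_4) (by decide) hn t20_21_7_4_20 _ _ (by decide +kernel)

/-- certificates of the pair `(7, 4)`, part 21 -/
def t20_21_7_4_21 : BlkD.Tr :=
  .E 0

lemma s20_21_7_4_21 {n : ℕ} (hn : 6 ≤ n) : NoNd (d20_21_7_4.R : ℤ) d20_21_7_4.H n d20_21_7_4.a d20_21_7_4.b
    (BlkD.inB (BlkD.upd (BlkD.upd (BlkD.upd (fun _ => 0) 0 4) 0 5) 1 17)
      (BlkD.upd (BlkD.upd (BlkD.upd (fun _ => 21) 0 7) 2 4) 0 5)) :=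
  BlkD.tree_sound (BlkD.pairOk_sound k20_21_7_4) (by decide) hn t20_21_7_4_21 _ _ (by decide +kernel)

/-- certificates of the pair `(7, 4)`, part 22 -/
def t20_21_7_4_22 : BlkD.Tr :=
  .S 0 6 (.S 1 15 (.S 1 7 (.S 1 3 (.S 1 1 (.L 6 8 [4, 4, 4, 4, 20] [] [] 100000 24762 24762 1280000
    20000 20000 20000 40000 0 25714 25714) (.S 1 2 (.L 6 8 [4, 4, 4, 4, 20] [48, 38, 26, 0, 0, 0]
    [] 100000 23130 23130 1314286 40476 4762 96599 52381 3401 23810 23810) (.L 5 6 [4, 4, 4, 5, 20]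
    [74, 64, 54, 42, 0, 0] [] 100000 19460 19460 1339092 27727 1818 90455 62922 9545 22532 24091)))
    (.S 1 5 (.L 5 6 [4, 4, 4, 5, 20] [] [] 100000 10066 10066 1369696 15152 0 75758 58225 24242
    21320 25000) (.E 0))) (.E 0)) (.E 0)) (.L 5 6 [4, 4, 4, 5, 20] [] [] 100000 0 0 1336366 0 0
    63636 63636 36364 27273 36364)

lemma s20_21_7_4_22 {n : ℕ} (hn : 6 ≤ n) : NoNd (d20_21_7_4.R : ℤ) d20_21_7_4.H n d20_21_7_4.a d20_21_7_4.b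
    (BlkD.inB (BlkD.upd (BlkD.upd (fun _ => 0) 0 4) 0 6)
      (BlkD.upd (BlkD.upd (fun _ => 21) 0 7) 2 4)) :=
  BlkD.tree_sound (BlkD.pairOk_sound k20_21_7_4) (by decide) hn t20_21_7_4_22 _ _ (by decide +kernel)

/-- certificates of the pair `(7, 4)`, part 23 -/
def t20_21_7_4_23 : BlkD.Tr :=
  .E 1

lemma s20_21_7_4_23 {n : ℕ} (hn : 6 ≤ n) : NoNd (d20_21_7_4.R : ℤ) d20_21_7_4.H n d20_21_7_4.a d20_21_7_4.b
    (BlkD.inB (BlkD.upd (fun _ => 0) 2 5)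
      (BlkD.upd (fun _ => 21) 0 7)) :=
  BlkD.tree_sound (BlkD.pairOk_sound k20_21_7_4) (by decide) hn t20_21_7_4_23 _ _ (by decide +kernel)

/-- certificates of the pair `(7, 4)`, part 24 -/
def t20_21_7_4_24 : BlkD.Tr :=
  .E 0

lemma s20_21_7_4_24 {n : ℕ} (hn : 6 ≤ n) : NoNd (d20_21_7_4.R : ℤ) d20_21_7_4.H n d20_21_7_4.a d20_21_7_4.b
    (BlkD.inB (BlkD.upd (fun _ => 0) 0 8)
      (fun _ => 21)) :=
  BlkD.tree_sound (BlkD.pairOk_sound k20_21_7_4) (by decide) hn t20_21_7_4_24 _ _ (by decide +kernel)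

lemma pr20_21_7_4 {n : ℕ} (hn : 6 ≤ n) : NoPr ((20 : ℕ) : ℤ) ((21 : ℕ) : ℤ) n 7 4 :=
  BlkD.of_root (R := d20_21_7_4.R) (H := d20_21_7_4.H) (a := d20_21_7_4.a) (b := d20_21_7_4.b) (q := 4) (by decide) hn
    (BlkD.sp 0 7 (BlkD.sp 2 4 (BlkD.sp 0 3 (BlkD.sp 0 1 (BlkD.sp 0 0 (s20_21_7_4_1 hn) (BlkD.sp 1
      10 (BlkD.sp 1 5 (s20_21_7_4_2 hn) (s20_21_7_4_3 hn)) (s20_21_7_4_4 hn))) (BlkD.sp 0 2
      (BlkD.sp 1 10 (BlkD.sp 1 5 (s20_21_7_4_5 hn) (s20_21_7_4_6 hn)) (s20_21_7_4_7 hn)) (BlkD.sp 1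
      18 (BlkD.sp 1 9 (BlkD.sp 1 4 (s20_21_7_4_8 hn) (BlkD.sp 1 7 (s20_21_7_4_9 hn) (s20_21_7_4_10
      hn))) (s20_21_7_4_11 hn)) (s20_21_7_4_12 hn)))) (BlkD.sp 0 5 (BlkD.sp 0 4 (BlkD.sp 1 17
      (BlkD.sp 1 8 (BlkD.sp 1 4 (s20_21_7_4_13 hn) (BlkD.sp 1 6 (s20_21_7_4_14 hn) (s20_21_7_4_15
      hn))) (s20_21_7_4_16 hn)) (s20_21_7_4_17 hn)) (BlkD.sp 1 16 (BlkD.sp 1 8 (BlkD.sp 1 4
      (s20_21_7_4_18 hn) (s20_21_7_4_19 hn)) (s20_21_7_4_20 hn)) (s20_21_7_4_21 hn)))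
      (s20_21_7_4_22 hn))) (s20_21_7_4_23 hn)) (s20_21_7_4_24 hn))

end BlkC

end Pool.Agent.Lib.MP_f04ccf_co
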