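import Pool.Agent.Lib.MP_f04ccf_co.M.BlkT

/-!
MP_f04ccf_co, block certificate, data `R = 21`, `H = 21`, part 11 (generated, helper99:
bd10.cpp, gen2.py).
-/

set_option autoImplicit false
set_option maxRecDepth 100000

namespace Pool.Agent.Lib.MP_f04ccf_co

namespace BlkC

/-- the numbers of the pair `(8, 5)`, `R = 21`, `H = 21` -/
def d21_21_8_5 : BlkD.Pd :=
  ⟨21, 21, 3, 8, 5, 5, 2, 3, 0, 4, 10, 0, 2, 2, 8, 0, [0, 10, 20, 20, 20, 20], [0, 8, 14, 16, 18,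
    20], [⟨1, 1, 1, 4, 8, [0, 4], [0, 4]⟩, ⟨1, 1, 1, 4, 14, [0, 8], [0, 6]⟩, ⟨1, 1, 1, 4, 18, [0,
    10], [0, 8]⟩]⟩

lemma k21_21_8_5 : BlkD.pairOk d21_21_8_5 = true := by decide +kernel

/-- certificates of the pair `(8, 5)`, part 1 -/
def t21_21_8_5_1 : BlkD.Tr :=
  .L 5 6 [4, 4, 5, 21, 21, 21] [] [] 100000 81668 81668 1333333 66667 0 83333 33333 0 3333 3333

lemma s21_21_8_5_1 {n : ℕ} (hn : 5 ≤ n) : NoNd (d21_21_8_5.R : ℤ) d21_21_8_5.H n d21_21_8_5.a d21_21_8_5.b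
    (BlkD.inB (fun _ => 0)
      (BlkD.upd (BlkD.upd (BlkD.upd (BlkD.upd (BlkD.upd (BlkD.upd (fun _ => 21) 0 8) 2 5) 0 4) 0 2) 0 1) 0 0)) :=
  BlkD.tree_sound (BlkD.pairOk_sound k21_21_8_5) (by decide) hn t21_21_8_5_1 _ _ (by decide +kernel)

/-- certificates of the pair `(8, 5)`, part 2 -/
def t21_21_8_5_2 : BlkD.Tr :=
  .L 5 6 [4, 4, 5, 21, 21, 21] [] [] 100000 81668 81668 1333333 66667 0 83333 33333 0 3333 3333

lemma s21_21_8_5_2 {n : ℕ} (hn : 5 ≤ n) : NoNd (d21_21_8_5.R : ℤ) d21_21_8_5.H n d21_21_8_5.a d21_21_8_5.b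
    (BlkD.inB (BlkD.upd (fun _ => 0) 0 1)
      (BlkD.upd (BlkD.upd (BlkD.upd (BlkD.upd (BlkD.upd (BlkD.upd (BlkD.upd (fun _ => 21) 0 8) 2 5) 0 4) 0 2) 0 1) 1 10) 1 5)) :=
  BlkD.tree_sound (BlkD.pairOk_sound k21_21_8_5) (by decide) hn t21_21_8_5_2 _ _ (by decide +kernel)

/-- certificates of the pair `(8, 5)`, part 3 -/
def t21_21_8_5_3 : BlkD.Tr :=
  .L 5 6 [4, 4, 5, 21, 21, 21] [] [] 100000 81668 81668 1333333 66667 0 83333 33333 0 3333 3333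

lemma s21_21_8_5_3 {n : ℕ} (hn : 5 ≤ n) : NoNd (d21_21_8_5.R : ℤ) d21_21_8_5.H n d21_21_8_5.a d21_21_8_5.b
    (BlkD.inB (BlkD.upd (BlkD.upd (fun _ => 0) 0 1) 1 6)
      (BlkD.upd (BlkD.upd (BlkD.upd (BlkD.upd (BlkD.upd (BlkD.upd (fun _ => 21) 0 8) 2 5) 0 4) 0 2) 0 1) 1 10)) :=
  BlkD.tree_sound (BlkD.pairOk_sound k21_21_8_5) (by decide) hn t21_21_8_5_3 _ _ (by decide +kernel)

/-- certificates of the pair `(8, 5)`, part 4 -/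
def t21_21_8_5_4 : BlkD.Tr :=
  .L 5 6 [4, 4, 5, 21, 21, 21] [] [] 100000 81668 81668 1333333 66667 0 83333 33333 0 3333 3333

lemma s21_21_8_5_4 {n : ℕ} (hn : 5 ≤ n) : NoNd (d21_21_8_5.R : ℤ) d21_21_8_5.H n d21_21_8_5.a d21_21_8_5.b
    (BlkD.inB (BlkD.upd (BlkD.upd (fun _ => 0) 0 1) 1 11)
      (BlkD.upd (BlkD.upd (BlkD.upd (BlkD.upd (BlkD.upd (fun _ => 21) 0 8) 2 5) 0 4) 0 2) 0 1)) :=
  BlkD.tree_sound (BlkD.pairOk_sound k21_21_8_5) (by decide) hn t21_21_8_5_4 _ _ (by decide +kernel)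

/-- certificates of the pair `(8, 5)`, part 5 -/
def t21_21_8_5_5 : BlkD.Tr :=
  .L 5 6 [4, 4, 5, 21, 21, 21] [] [] 100000 81668 81668 1333333 66667 0 83333 33333 0 3333 3333

lemma s21_21_8_5_5 {n : ℕ} (hn : 5 ≤ n) : NoNd (d21_21_8_5.R : ℤ) d21_21_8_5.H n d21_21_8_5.a d21_21_8_5.b
    (BlkD.inB (BlkD.upd (fun _ => 0) 0 2)
      (BlkD.upd (BlkD.upd (BlkD.upd (BlkD.upd (BlkD.upd (BlkD.upd (fun _ => 21) 0 8) 2 5) 0 4) 0 2) 1 10) 1 5)) :=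
  BlkD.tree_sound (BlkD.pairOk_sound k21_21_8_5) (by decide) hn t21_21_8_5_5 _ _ (by decide +kernel)

/-- certificates of the pair `(8, 5)`, part 6 -/
def t21_21_8_5_6 : BlkD.Tr :=
  .S 1 7 (.L 5 6 [4, 4, 5, 21, 21, 21] [] [] 100000 81668 81668 1333333 66667 0 83333 33333 0 3333
    3333) (.L 5 6 [4, 4, 5, 21, 21, 21] [144, 144, 144, 144, 134, 124] [] 100000 81668 81668
    1333333 66667 0 83333 33333 0 3333 3333)

lemma s21_21_8_5_6 {n : ℕ} (hn : 5 ≤ n) : NoNd (d21_21_8_5.R : ℤ) d21_21_8_5.H n d21_21_8_5.a d21_21_8_5.b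
    (BlkD.inB (BlkD.upd (BlkD.upd (fun _ => 0) 0 2) 1 6)
      (BlkD.upd (BlkD.upd (BlkD.upd (BlkD.upd (BlkD.upd (BlkD.upd (fun _ => 21) 0 8) 2 5) 0 4) 0 2) 1 10) 1 8)) :=
  BlkD.tree_sound (BlkD.pairOk_sound k21_21_8_5) (by decide) hn t21_21_8_5_6 _ _ (by decide +kernel)

/-- certificates of the pair `(8, 5)`, part 7 -/
def t21_21_8_5_7 : BlkD.Tr :=
  .L 5 6 [4, 4, 5, 21, 21, 21] [] [] 100000 81668 81668 1333333 66667 0 83333 33333 0 3333 3333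

lemma s21_21_8_5_7 {n : ℕ} (hn : 5 ≤ n) : NoNd (d21_21_8_5.R : ℤ) d21_21_8_5.H n d21_21_8_5.a d21_21_8_5.b
    (BlkD.inB (BlkD.upd (BlkD.upd (BlkD.upd (fun _ => 0) 0 2) 1 6) 1 9)
      (BlkD.upd (BlkD.upd (BlkD.upd (BlkD.upd (BlkD.upd (fun _ => 21) 0 8) 2 5) 0 4) 0 2) 1 10)) :=
  BlkD.tree_sound (BlkD.pairOk_sound k21_21_8_5) (by decide) hn t21_21_8_5_7 _ _ (by decide +kernel)

/-- certificates of the pair `(8, 5)`, part 8 -/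
def t21_21_8_5_8 : BlkD.Tr :=
  .L 5 6 [4, 4, 5, 21, 21, 21] [] [] 100000 81668 81668 1333333 66667 0 83333 33333 0 3333 3333

lemma s21_21_8_5_8 {n : ℕ} (hn : 5 ≤ n) : NoNd (d21_21_8_5.R : ℤ) d21_21_8_5.H n d21_21_8_5.a d21_21_8_5.b
    (BlkD.inB (BlkD.upd (BlkD.upd (fun _ => 0) 0 2) 1 11)
      (BlkD.upd (BlkD.upd (BlkD.upd (BlkD.upd (fun _ => 21) 0 8) 2 5) 0 4) 0 2)) :=
  BlkD.tree_sound (BlkD.pairOk_sound k21_21_8_5) (by decide) hn t21_21_8_5_8 _ _ (by decide +kernel)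

/-- certificates of the pair `(8, 5)`, part 9 -/
def t21_21_8_5_9 : BlkD.Tr :=
  .L 5 6 [4, 4, 5, 21, 21, 21] [] [] 100000 6250 6250 1450000 12500 12500 12500 25000 0 0 0

lemma s21_21_8_5_9 {n : ℕ} (hn : 5 ≤ n) : NoNd (d21_21_8_5.R : ℤ) d21_21_8_5.H n d21_21_8_5.a d21_21_8_5.b
    (BlkD.inB (BlkD.upd (fun _ => 0) 0 3)
      (BlkD.upd (BlkD.upd (BlkD.upd (BlkD.upd (BlkD.upd (BlkD.upd (BlkD.upd (fun _ => 21) 0 8) 2 5) 0 4) 0 3) 1 18) 1 9) 1 4)) :=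
  BlkD.tree_sound (BlkD.pairOk_sound k21_21_8_5) (by decide) hn t21_21_8_5_9 _ _ (by decide +kernel)

/-- certificates of the pair `(8, 5)`, part 10 -/
def t21_21_8_5_10 : BlkD.Tr :=
  .S 1 6 (.L 5 6 [4, 4, 5, 21, 21, 21] [] [] 100000 0 0 1593702 18110 3937 32283 43307 0 28346
    28346) (.L 6 7 [4, 4, 4, 21, 21, 21] [140, 140, 140, 130, 120, 110] [] 100000 6252 6252 1570311
    32813 0 65625 32812 0 20312 17187)

lemma s21_21_8_5_10 {n : ℕ} (hn : 5 ≤ n) : NoNd (d21_21_8_5.R : ℤ) d21_21_8_5.H n d21_21_8_5.a d21_21_8_5.b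
    (BlkD.inB (BlkD.upd (BlkD.upd (fun _ => 0) 0 3) 1 5)
      (BlkD.upd (BlkD.upd (BlkD.upd (BlkD.upd (BlkD.upd (BlkD.upd (BlkD.upd (fun _ => 21) 0 8) 2 5) 0 4) 0 3) 1 18) 1 9) 1 7)) :=
  BlkD.tree_sound (BlkD.pairOk_sound k21_21_8_5) (by decide) hn t21_21_8_5_10 _ _ (by decide +kernel)

/-- certificates of the pair `(8, 5)`, part 11 -/
def t21_21_8_5_11 : BlkD.Tr :=
  .S 2 2 (.L 6 7 [4, 4, 4, 21, 21, 21] [160, 160, 160, 160, 150, 140] [] 100000 48572 48572 1371429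
    57143 28571 71429 57143 0 2857 2857) (.L 6 7 [4, 4, 4, 21, 21, 21] [160, 160, 160, 160, 150,
    140] [] 100000 33929 33929 1503573 42857 0 71429 53571 0 17857 0)

lemma s21_21_8_5_11 {n : ℕ} (hn : 5 ≤ n) : NoNd (d21_21_8_5.R : ℤ) d21_21_8_5.H n d21_21_8_5.a d21_21_8_5.b
    (BlkD.inB (BlkD.upd (BlkD.upd (BlkD.upd (fun _ => 0) 0 3) 1 5) 1 8)
      (BlkD.upd (BlkD.upd (BlkD.upd (BlkD.upd (BlkD.upd (BlkD.upd (BlkD.upd (fun _ => 21) 0 8) 2 5) 0 4) 0 3) 1 18) 1 9) 1 8)) :=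
  BlkD.tree_sound (BlkD.pairOk_sound k21_21_8_5) (by decide) hn t21_21_8_5_11 _ _ (by decide +kernel)

/-- certificates of the pair `(8, 5)`, part 12 -/
def t21_21_8_5_12 : BlkD.Tr :=
  .L 6 7 [4, 4, 4, 21, 21, 21] [182, 182, 182, 182, 182, 172] [] 100000 112500 112500 1350000 75000
    0 100000 50000 0 0 0

lemma s21_21_8_5_12 {n : ℕ} (hn : 5 ≤ n) : NoNd (d21_21_8_5.R : ℤ) d21_21_8_5.H n d21_21_8_5.a d21_21_8_5.b
    (BlkD.inB (BlkD.upd (BlkD.upd (BlkD.upd (BlkD.upd (fun _ => 0) 0 3) 1 5) 1 8) 1 9)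
      (BlkD.upd (BlkD.upd (BlkD.upd (BlkD.upd (BlkD.upd (BlkD.upd (fun _ => 21) 0 8) 2 5) 0 4) 0 3) 1 18) 1 9)) :=
  BlkD.tree_sound (BlkD.pairOk_sound k21_21_8_5) (by decide) hn t21_21_8_5_12 _ _ (by decide +kernel)

/-- certificates of the pair `(8, 5)`, part 13 -/
def t21_21_8_5_13 : BlkD.Tr :=
  .S 1 14 (.S 1 12 (.S 1 11 (.S 1 10 (.L 6 7 [4, 4, 4, 21, 21, 21] [206, 206, 206, 206, 206, 206]
    [] 100000 100000 100000 1300000 100000 0 100000 0 0 0 0) (.L 6 7 [4, 4, 4, 21, 21, 21] [232,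
    232, 232, 232, 232, 232] [] 100000 130000 80000 1050000 110000 0 150000 20000 0 0 0)) (.L 6 7
    [4, 4, 4, 21, 21, 21] [260, 260, 260, 260, 260, 260] [] 100000 300000 0 1 233333 0 400000
    100000 0 0 0)) (.E 0)) (.E 0)

lemma s21_21_8_5_13 {n : ℕ} (hn : 5 ≤ n) : NoNd (d21_21_8_5.R : ℤ) d21_21_8_5.H n d21_21_8_5.a d21_21_8_5.b
    (BlkD.inB (BlkD.upd (BlkD.upd (fun _ => 0) 0 3) 1 10)
      (BlkD.upd (BlkD.upd (BlkD.upd (BlkD.upd (BlkD.upd (fun _ => 21) 0 8) 2 5) 0 4) 0 3) 1 18)) :=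
  BlkD.tree_sound (BlkD.pairOk_sound k21_21_8_5) (by decide) hn t21_21_8_5_13 _ _ (by decide +kernel)

/-- certificates of the pair `(8, 5)`, part 14 -/
def t21_21_8_5_14 : BlkD.Tr :=
  .E 0

lemma s21_21_8_5_14 {n : ℕ} (hn : 5 ≤ n) : NoNd (d21_21_8_5.R : ℤ) d21_21_8_5.H n d21_21_8_5.a d21_21_8_5.b
    (BlkD.inB (BlkD.upd (BlkD.upd (fun _ => 0) 0 3) 1 19)
      (BlkD.upd (BlkD.upd (BlkD.upd (BlkD.upd (fun _ => 21) 0 8) 2 5) 0 4) 0 3)) :=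
  BlkD.tree_sound (BlkD.pairOk_sound k21_21_8_5) (by decide) hn t21_21_8_5_14 _ _ (by decide +kernel)

/-- certificates of the pair `(8, 5)`, part 15 -/
def t21_21_8_5_15 : BlkD.Tr :=
  .L 6 7 [4, 4, 4, 21, 21, 21] [] [] 100000 6780 6780 1487290 29661 11864 47458 35593 0 16102 8051

lemma s21_21_8_5_15 {n : ℕ} (hn : 5 ≤ n) : NoNd (d21_21_8_5.R : ℤ) d21_21_8_5.H n d21_21_8_5.a d21_21_8_5.b
    (BlkD.inB (BlkD.upd (BlkD.upd (fun _ => 0) 0 3) 0 4)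
      (BlkD.upd (BlkD.upd (BlkD.upd (BlkD.upd (BlkD.upd (BlkD.upd (fun _ => 21) 0 8) 2 5) 0 4) 1 17) 1 8) 1 4)) :=
  BlkD.tree_sound (BlkD.pairOk_sound k21_21_8_5) (by decide) hn t21_21_8_5_15 _ _ (by decide +kernel)

/-- certificates of the pair `(8, 5)`, part 16 -/
def t21_21_8_5_16 : BlkD.Tr :=
  .S 1 5 (.L 6 7 [4, 4, 4, 21, 21, 21] [116, 106, 96, 86, 74, 60] [] 100000 3335 3335 1553332 26667
    6667 46667 40000 0 20000 10000) (.S 2 2 (.L 6 7 [4, 4, 4, 21, 21, 21] [134, 134, 124, 114, 104,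
    92] [] 100000 21250 21250 1490000 35000 26250 60000 50000 0 10000 10000) (.L 6 7 [4, 4, 4, 21,
    21, 21] [134, 134, 124, 114, 104, 92] [] 100000 6978 6978 1565115 34884 0 60465 30233 0 20930
    25581))

lemma s21_21_8_5_16 {n : ℕ} (hn : 5 ≤ n) : NoNd (d21_21_8_5.R : ℤ) d21_21_8_5.H n d21_21_8_5.a d21_21_8_5.b
    (BlkD.inB (BlkD.upd (BlkD.upd (BlkD.upd (fun _ => 0) 0 3) 0 4) 1 5)
      (BlkD.upd (BlkD.upd (BlkD.upd (BlkD.upd (BlkD.upd (BlkD.upd (fun _ => 21) 0 8) 2 5) 0 4) 1 17) 1 8) 1 6)) :=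
  BlkD.tree_sound (BlkD.pairOk_sound k21_21_8_5) (by decide) hn t21_21_8_5_16 _ _ (by decide +kernel)

/-- certificates of the pair `(8, 5)`, part 17 -/
def t21_21_8_5_17 : BlkD.Tr :=
  .S 1 7 (.S 2 2 (.L 6 7 [4, 4, 4, 21, 21, 21] [154, 154, 154, 144, 134, 124] [] 100000 52174 52174
    1456523 43478 34783 65217 60870 0 4348 4348) (.S 2 4 (.L 6 7 [4, 4, 4, 21, 21, 21] [154, 154,
    154, 144, 134, 124] [] 100000 10166 10166 1566482 40110 4396 56044 32418 0 19780 13736) (.L 6 7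
    [4, 4, 4, 21, 21, 21] [154, 154, 154, 144, 134, 124] [] 100000 0 0 1533336 33333 0 66667 33333
    0 33333 33333))) (.S 2 2 (.L 6 7 [4, 4, 4, 21, 21, 21] [176, 176, 176, 176, 166, 156] [] 100000
    53193 53193 1468084 40426 31915 82979 61702 0 2128 2128) (.L 6 7 [4, 4, 4, 21, 21, 21] [176,
    176, 176, 176, 166, 156] [] 100000 15386 15386 1561537 38462 0 84615 46154 0 7692 7692))

lemma s21_21_8_5_17 {n : ℕ} (hn : 5 ≤ n) : NoNd (d21_21_8_5.R : ℤ) d21_21_8_5.H n d21_21_8_5.a d21_21_8_5.b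
    (BlkD.inB (BlkD.upd (BlkD.upd (BlkD.upd (BlkD.upd (fun _ => 0) 0 3) 0 4) 1 5) 1 7)
      (BlkD.upd (BlkD.upd (BlkD.upd (BlkD.upd (BlkD.upd (fun _ => 21) 0 8) 2 5) 0 4) 1 17) 1 8)) :=
  BlkD.tree_sound (BlkD.pairOk_sound k21_21_8_5) (by decide) hn t21_21_8_5_17 _ _ (by decide +kernel)

/-- certificates of the pair `(8, 5)`, part 18 -/
def t21_21_8_5_18 : BlkD.Tr :=
  .S 1 13 (.S 1 11 (.S 1 10 (.S 1 9 (.L 5 6 [4, 4, 5, 21, 21, 21] [200, 200, 200, 200, 200, 190] []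
    100000 83930 83930 1414285 64286 0 100000 64286 0 7143 17857) (.L 5 6 [4, 4, 5, 21, 21, 21]
    [226, 226, 226, 226, 226, 226] [] 100000 109261 75928 1181481 92593 0 133333 29630 0 0 18519))
    (.L 5 6 [4, 4, 5, 21, 21, 21] [254, 254, 254, 254, 254, 254] [] 100000 160000 0 700000 140000 0
    260000 100000 0 0 0)) (.E 0)) (.E 0)

lemma s21_21_8_5_18 {n : ℕ} (hn : 5 ≤ n) : NoNd (d21_21_8_5.R : ℤ) d21_21_8_5.H n d21_21_8_5.a d21_21_8_5.b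
    (BlkD.inB (BlkD.upd (BlkD.upd (BlkD.upd (fun _ => 0) 0 3) 0 4) 1 9)
      (BlkD.upd (BlkD.upd (BlkD.upd (BlkD.upd (fun _ => 21) 0 8) 2 5) 0 4) 1 17)) :=
  BlkD.tree_sound (BlkD.pairOk_sound k21_21_8_5) (by decide) hn t21_21_8_5_18 _ _ (by decide +kernel)

/-- certificates of the pair `(8, 5)`, part 19 -/
def t21_21_8_5_19 : BlkD.Tr :=
  .E 0

lemma s21_21_8_5_19 {n : ℕ} (hn : 5 ≤ n) : NoNd (d21_21_8_5.R : ℤ) d21_21_8_5.H n d21_21_8_5.a d21_21_8_5.b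
    (BlkD.inB (BlkD.upd (BlkD.upd (BlkD.upd (fun _ => 0) 0 3) 0 4) 1 18)
      (BlkD.upd (BlkD.upd (BlkD.upd (fun _ => 21) 0 8) 2 5) 0 4)) :=
  BlkD.tree_sound (BlkD.pairOk_sound k21_21_8_5) (by decide) hn t21_21_8_5_19 _ _ (by decide +kernel)

/-- certificates of the pair `(8, 5)`, part 20 -/
def t21_21_8_5_20 : BlkD.Tr :=
  .L 5 6 [4, 4, 5, 21, 21, 21] [] [] 100000 6667 6667 1566668 33333 0 53333 26667 0 20000 20000

lemma s21_21_8_5_20 {n : ℕ} (hn : 5 ≤ n) : NoNd (d21_21_8_5.R : ℤ) d21_21_8_5.H n d21_21_8_5.a d21_21_8_5.b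
    (BlkD.inB (BlkD.upd (fun _ => 0) 0 5)
      (BlkD.upd (BlkD.upd (BlkD.upd (BlkD.upd (BlkD.upd (BlkD.upd (BlkD.upd (fun _ => 21) 0 8) 2 5) 0 6) 0 5) 1 16) 1 8) 1 4)) :=
  BlkD.tree_sound (BlkD.pairOk_sound k21_21_8_5) (by decide) hn t21_21_8_5_20 _ _ (by decide +kernel)

/-- certificates of the pair `(8, 5)`, part 21 -/
def t21_21_8_5_21 : BlkD.Tr :=
  .S 1 5 (.S 2 2 (.S 2 1 (.L 5 6 [4, 4, 5, 21, 21, 21] [126, 116, 106, 96, 84, 70] [] 100000 25000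
    25000 1500000 20000 50000 36667 66667 0 0 0) (.S 3 9 (.S 3 4 (.L 5 6 [4, 4, 5, 21, 21, 21]
    [126, 116, 106, 96, 84, 70] [] 100000 8335 8335 1533333 16667 16667 25000 25000 0 0 0) (.S 3 7
    (.S 3 6 (.S 3 5 (.L 6 7 [4, 4, 4, 21, 21, 21] [126, 116, 106, 96, 84, 70] [90, 84, 76, 66, 54,
    40] 100000 13335 13335 1540000 26667 26667 40000 40000 0 0 0) (.L 5 5 [4, 4, 6, 21, 21, 21]
    [126, 116, 106, 96, 84, 70] [106, 104, 98, 90, 80, 68] 100000 25000 25000 1525000 5000 50000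
    55000 100000 0 0 25000)) (.E 1)) (.E 1))) (.E 1))) (.S 2 4 (.S 2 3 (.S 3 8 (.S 3 4 (.L 6 7 [4,
    4, 4, 21, 21, 21] [126, 116, 106, 96, 84, 70] [] 100000 7693 7693 1561541 30769 7692 53846
    38462 0 15385 7692) (.S 3 6 (.S 3 5 (.L 7 9 [5, 4, 3, 21, 21, 21] [126, 116, 106, 96, 84, 70]
    [100, 94, 86, 76, 64, 50] 100000 25000 25000 1483334 50000 0 83333 66667 0 0 0) (.E 1)) (.E
    1))) (.E 1)) (.L 7 9 [5, 4, 3, 21, 21, 21] [126, 116, 106, 96, 84, 70] [] 100000 0 0 1571431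
    28571 14286 50000 42857 0 14286 14286)) (.L 7 9 [5, 4, 3, 21, 21, 21] [126, 116, 106, 96, 84,
    70] [] 100000 0 0 1520000 40000 0 40000 80000 0 20000 20000))) (.S 2 2 (.S 2 1 (.L 7 9 [5, 4,
    3, 21, 21, 21] [146, 146, 136, 126, 116, 104] [] 100000 25000 25000 1450002 33333 50000 75000
    58333 0 0 0) (.S 3 8 (.S 3 4 (.L 7 9 [5, 4, 3, 21, 21, 21] [146, 146, 136, 126, 116, 104] []
    100000 0 0 1556000 24000 36000 48000 60000 0 0 36000) (.S 3 6 (.S 3 5 (.L 7 9 [5, 4, 3, 21, 21,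
    21] [146, 146, 136, 126, 116, 104] [90, 84, 76, 66, 54, 40] 100000 1 1 1581818 27273 27273
    54545 54545 0 0 27273) (.L 5 6 [4, 4, 5, 21, 21, 21] [146, 146, 136, 126, 116, 104] [106, 104,
    98, 90, 80, 68] 100000 25000 25000 1500000 10000 50000 100000 100000 0 0 0)) (.E 1))) (.E 1)))
    (.S 2 4 (.S 2 3 (.S 3 7 (.S 3 3 (.S 3 1 (.L 5 6 [4, 4, 5, 21, 21, 21] [146, 146, 136, 126, 116,
    104] [] 100000 0 0 1500000 0 0 0 0 0 0 0) (.S 3 2 (.L 5 6 [4, 4, 5, 21, 21, 21] [146, 146, 136,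
    126, 116, 104] [40, 28, 14, 0, 0, 0] 100000 10000 10000 1540000 20000 20000 30000 20000 0 0
    20000) (.L 7 9 [5, 4, 3, 21, 21, 21] [146, 146, 136, 126, 116, 104] [60, 50, 38, 24, 0, 0]
    100000 0 0 1592858 35714 11905 59524 38095 0 14286 21429))) (.S 3 5 (.S 3 4 (.S 4 6 (.S 4 3 (.L
    7 9 [5, 4, 3, 21, 21, 21] [126, 116, 104, 90, 0, 0] [80, 72, 62, 50, 36, 0] 100000 1 1 1582608
    34783 17391 60870 47826 0 26087 8696) (.L 7 9 [5, 4, 3, 21, 21, 21] [146, 146, 136, 126, 116,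
    104] [80, 72, 62, 50, 36, 0] 100000 144444 0 777780 44444 22222 244444 200000 0 0 0)) (.E 2))
    (.S 4 6 (.S 4 3 (.L 7 9 [5, 4, 3, 21, 21, 21] [126, 116, 104, 90, 0, 0] [100, 94, 86, 76, 64,
    50] 100000 150000 150000 1200000 100000 0 100000 100000 0 0 0) (.L 7 9 [5, 4, 3, 21, 21, 21]
    [146, 146, 136, 126, 116, 104] [100, 94, 86, 76, 64, 50] 100000 300000 0 0 100000 0 400000
    100000 0 0 0)) (.E 2))) (.E 1))) (.E 1)) (.L 6 7 [4, 4, 4, 21, 21, 21] [146, 146, 136, 126,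
    116, 104] [] 100000 0 0 1585716 28571 0 71429 57143 0 28571 14286)) (.L 6 7 [4, 4, 4, 21, 21,
    21] [146, 146, 136, 126, 116, 104] [] 100000 0 0 1566668 33333 0 66667 0 0 33333 33333)))

lemma s21_21_8_5_21 {n : ℕ} (hn : 5 ≤ n) : NoNd (d21_21_8_5.R : ℤ) d21_21_8_5.H n d21_21_8_5.a d21_21_8_5.b
    (BlkD.inB (BlkD.upd (BlkD.upd (fun _ => 0) 0 5) 1 5)
      (BlkD.upd (BlkD.upd (BlkD.upd (BlkD.upd (BlkD.upd (BlkD.upd (BlkD.upd (fun _ => 21) 0 8) 2 5) 0 6) 0 5) 1 16) 1 8) 1 6)) :=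
  BlkD.tree_sound (BlkD.pairOk_sound k21_21_8_5) (by decide) hn t21_21_8_5_21 _ _ (by decide +kernel)

/-- certificates of the pair `(8, 5)`, part 22 -/
def t21_21_8_5_22 : BlkD.Tr :=
  .S 1 7 (.S 2 2 (.L 6 7 [4, 4, 4, 21, 21, 21] [168, 168, 168, 158, 148, 138] [] 100000 9616 9616
    1576924 30769 19231 69231 42308 0 11538 15385) (.L 6 7 [4, 4, 4, 21, 21, 21] [168, 168, 168,
    158, 148, 138] [] 100000 11365 11365 1576705 32955 0 95170 58523 1705 8523 4261)) (.L 6 7 [4,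
    4, 4, 21, 21, 21] [192, 192, 192, 192, 182, 172] [] 100000 25000 25000 1500000 50000 0 100000
    50000 0 0 0)

lemma s21_21_8_5_22 {n : ℕ} (hn : 5 ≤ n) : NoNd (d21_21_8_5.R : ℤ) d21_21_8_5.H n d21_21_8_5.a d21_21_8_5.b
    (BlkD.inB (BlkD.upd (BlkD.upd (BlkD.upd (fun _ => 0) 0 5) 1 5) 1 7)
      (BlkD.upd (BlkD.upd (BlkD.upd (BlkD.upd (BlkD.upd (BlkD.upd (fun _ => 21) 0 8) 2 5) 0 6) 0 5) 1 16) 1 8)) :=
  BlkD.tree_sound (BlkD.pairOk_sound k21_21_8_5) (by decide) hn t21_21_8_5_22 _ _ (by decide +kernel)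

/-- certificates of the pair `(8, 5)`, part 23 -/
def t21_21_8_5_23 : BlkD.Tr :=
  .L 6 7 [4, 4, 4, 21, 21, 21] [] [] 100000 5556 5556 1555556 11111 0 100000 100000 0 0 0

lemma s21_21_8_5_23 {n : ℕ} (hn : 5 ≤ n) : NoNd (d21_21_8_5.R : ℤ) d21_21_8_5.H n d21_21_8_5.a d21_21_8_5.b
    (BlkD.inB (BlkD.upd (BlkD.upd (fun _ => 0) 0 5) 1 9)
      (BlkD.upd (BlkD.upd (BlkD.upd (BlkD.upd (BlkD.upd (fun _ => 21) 0 8) 2 5) 0 6) 0 5) 1 16)) :=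
  BlkD.tree_sound (BlkD.pairOk_sound k21_21_8_5) (by decide) hn t21_21_8_5_23 _ _ (by decide +kernel)

/-- certificates of the pair `(8, 5)`, part 24 -/
def t21_21_8_5_24 : BlkD.Tr :=
  .E 0

lemma s21_21_8_5_24 {n : ℕ} (hn : 5 ≤ n) : NoNd (d21_21_8_5.R : ℤ) d21_21_8_5.H n d21_21_8_5.a d21_21_8_5.b
    (BlkD.inB (BlkD.upd (BlkD.upd (fun _ => 0) 0 5) 1 17)
      (BlkD.upd (BlkD.upd (BlkD.upd (BlkD.upd (fun _ => 21) 0 8) 2 5) 0 6) 0 5)) :=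
  BlkD.tree_sound (BlkD.pairOk_sound k21_21_8_5) (by decide) hn t21_21_8_5_24 _ _ (by decide +kernel)

/-- certificates of the pair `(8, 5)`, part 25 -/
def t21_21_8_5_25 : BlkD.Tr :=
  .S 1 15 (.S 1 7 (.S 1 3 (.L 6 7 [4, 4, 4, 21, 21, 21] [] [] 100000 7143 7143 1542859 28571 14286
    71429 57143 0 14286 7143) (.S 1 5 (.S 1 4 (.S 2 2 (.L 6 7 [4, 4, 4, 21, 21, 21] [106, 96, 86,
    74, 60, 0] [] 100000 7274 7274 1536363 27273 27273 87273 54545 3636 9091 9091) (.L 6 7 [4, 4,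
    4, 21, 21, 21] [106, 96, 86, 74, 60, 0] [] 100000 5000 5000 1576000 31000 8000 69000 46000 0
    21000 10500)) (.L 6 7 [4, 4, 4, 21, 21, 21] [136, 126, 116, 106, 94, 80] [] 100000 7131 7131
    1582985 24473 9562 78768 66937 0 10211 22853)) (.S 1 6 (.S 2 2 (.L 6 7 [4, 4, 4, 21, 21, 21]
    [158, 158, 148, 138, 128, 116] [] 100000 9231 9231 1569233 30769 15385 76923 46154 0 12308
    12308) (.L 6 7 [4, 4, 4, 21, 21, 21] [158, 158, 148, 138, 128, 116] [] 100000 16667 16667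
    1544444 38889 0 82222 56667 1111 4444 17778)) (.L 6 7 [4, 4, 4, 21, 21, 21] [182, 182, 182,
    172, 162, 152] [] 100000 17647 17647 1505883 42647 2941 100000 42647 0 7353 7353)))) (.E 0))
    (.E 0)

lemma s21_21_8_5_25 {n : ℕ} (hn : 5 ≤ n) : NoNd (d21_21_8_5.R : ℤ) d21_21_8_5.H n d21_21_8_5.a d21_21_8_5.b
    (BlkD.inB (BlkD.upd (BlkD.upd (fun _ => 0) 0 5) 0 6)
      (BlkD.upd (BlkD.upd (BlkD.upd (fun _ => 21) 0 8) 2 5) 0 6)) :=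
  BlkD.tree_sound (BlkD.pairOk_sound k21_21_8_5) (by decide) hn t21_21_8_5_25 _ _ (by decide +kernel)

/-- certificates of the pair `(8, 5)`, part 26 -/
def t21_21_8_5_26 : BlkD.Tr :=
  .S 0 7 (.S 1 14 (.S 1 7 (.S 1 3 (.L 6 7 [4, 4, 4, 21, 21, 21] [] [] 100000 4391 4391 1571221
    28780 17073 71220 42439 6341 13659 6829) (.L 6 7 [4, 4, 4, 21, 21, 21] [] [] 100000 0 0 1574685
    12658 6329 93671 63291 11392 1266 5063)) (.E 0)) (.E 0)) (.L 6 7 [4, 4, 4, 21, 21, 21] [] []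
    100000 0 0 1546392 0 26804 75258 78351 17526 9278 12371)

lemma s21_21_8_5_26 {n : ℕ} (hn : 5 ≤ n) : NoNd (d21_21_8_5.R : ℤ) d21_21_8_5.H n d21_21_8_5.a d21_21_8_5.b
    (BlkD.inB (BlkD.upd (BlkD.upd (fun _ => 0) 0 5) 0 7)
      (BlkD.upd (BlkD.upd (fun _ => 21) 0 8) 2 5)) :=
  BlkD.tree_sound (BlkD.pairOk_sound k21_21_8_5) (by decide) hn t21_21_8_5_26 _ _ (by decide +kernel)

/-- certificates of the pair `(8, 5)`, part 27 -/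
def t21_21_8_5_27 : BlkD.Tr :=
  .E 1

lemma s21_21_8_5_27 {n : ℕ} (hn : 5 ≤ n) : NoNd (d21_21_8_5.R : ℤ) d21_21_8_5.H n d21_21_8_5.a d21_21_8_5.b
    (BlkD.inB (BlkD.upd (fun _ => 0) 2 6)
      (BlkD.upd (fun _ => 21) 0 8)) :=
  BlkD.tree_sound (BlkD.pairOk_sound k21_21_8_5) (by decide) hn t21_21_8_5_27 _ _ (by decide +kernel)

/-- certificates of the pair `(8, 5)`, part 28 -/
def t21_21_8_5_28 : BlkD.Tr :=
  .E 0

lemma s21_21_8_5_28 {n : ℕ} (hn : 5 ≤ n) : NoNd (d21_21_8_5.R : ℤ) d21_21_8_5.H n d21_21_8_5.a d21_21_8_5.b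
    (BlkD.inB (BlkD.upd (fun _ => 0) 0 9)
      (fun _ => 21)) :=
  BlkD.tree_sound (BlkD.pairOk_sound k21_21_8_5) (by decide) hn t21_21_8_5_28 _ _ (by decide +kernel)

lemma pr21_21_8_5 {n : ℕ} (hn : 5 ≤ n) : NoPr ((21 : ℕ) : ℤ) ((21 : ℕ) : ℤ) n 8 5 :=
  BlkD.of_root (R := d21_21_8_5.R) (H := d21_21_8_5.H) (a := d21_21_8_5.a) (b := d21_21_8_5.b) (q := 3) (by decide) hn
    (BlkD.sp 0 8 (BlkD.sp 2 5 (BlkD.sp 0 4 (BlkD.sp 0 2 (BlkD.sp 0 1 (BlkD.sp 0 0 (s21_21_8_5_1 hn)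
      (BlkD.sp 1 10 (BlkD.sp 1 5 (s21_21_8_5_2 hn) (s21_21_8_5_3 hn)) (s21_21_8_5_4 hn))) (BlkD.sp
      1 10 (BlkD.sp 1 5 (s21_21_8_5_5 hn) (BlkD.sp 1 8 (s21_21_8_5_6 hn) (s21_21_8_5_7 hn)))
      (s21_21_8_5_8 hn))) (BlkD.sp 0 3 (BlkD.sp 1 18 (BlkD.sp 1 9 (BlkD.sp 1 4 (s21_21_8_5_9 hn)
      (BlkD.sp 1 7 (s21_21_8_5_10 hn) (BlkD.sp 1 8 (s21_21_8_5_11 hn) (s21_21_8_5_12 hn))))
      (s21_21_8_5_13 hn)) (s21_21_8_5_14 hn)) (BlkD.sp 1 17 (BlkD.sp 1 8 (BlkD.sp 1 4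
      (s21_21_8_5_15 hn) (BlkD.sp 1 6 (s21_21_8_5_16 hn) (s21_21_8_5_17 hn))) (s21_21_8_5_18 hn))
      (s21_21_8_5_19 hn)))) (BlkD.sp 0 6 (BlkD.sp 0 5 (BlkD.sp 1 16 (BlkD.sp 1 8 (BlkD.sp 1 4
      (s21_21_8_5_20 hn) (BlkD.sp 1 6 (s21_21_8_5_21 hn) (s21_21_8_5_22 hn))) (s21_21_8_5_23 hn))
      (s21_21_8_5_24 hn)) (s21_21_8_5_25 hn)) (s21_21_8_5_26 hn))) (s21_21_8_5_27 hn))
      (s21_21_8_5_28 hn))

end BlkC

end Pool.Agent.Lib.MP_f04ccf_co
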