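import Pool.Agent.Lib.MP_f04ccf_co.M.BlkT

/-!
MP_f04ccf_co, block certificate, data `R = 21`, `H = 21`, part 12 (generated, helper99:
bd10.cpp, gen2.py).
-/

set_option autoImplicit false
set_option maxRecDepth 100000

namespace Pool.Agent.Lib.MP_f04ccf_co

namespace BlkC

/-- the numbers of the pair `(8, 6)`, `R = 21`, `H = 21` -/
def d21_21_8_6 : BlkD.Pd :=
  ⟨21, 21, 3, 8, 6, 4, 1, 4, 0, 4, 8, 0, 2, 2, 6, 0, [0, 8, 16, 16, 16], [0, 6, 12, 14, 16], [⟨1,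
    1, 1, 4, 8, [0, 4], [0, 4]⟩, ⟨1, 1, 1, 4, 14, [0, 8], [0, 6]⟩]⟩

lemma k21_21_8_6 : BlkD.pairOk d21_21_8_6 = true := by decide +kernel

/-- certificates of the pair `(8, 6)`, part 1 -/
def t21_21_8_6_1 : BlkD.Tr :=
  .L 5 5 [4, 4, 21, 21, 21, 21, 21] [] [] 100000 1 1 1633334 66667 33333 66667 66667 0 0 0

lemma s21_21_8_6_1 {n : ℕ} (hn : 5 ≤ n) : NoNd (d21_21_8_6.R : ℤ) d21_21_8_6.H n d21_21_8_6.a d21_21_8_6.b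
    (BlkD.inB (fun _ => 0)
      (BlkD.upd (BlkD.upd (BlkD.upd (BlkD.upd (BlkD.upd (BlkD.upd (fun _ => 21) 0 8) 2 6) 0 4) 0 2) 0 1) 0 0)) :=
  BlkD.tree_sound (BlkD.pairOk_sound k21_21_8_6) (by decide) hn t21_21_8_6_1 _ _ (by decide +kernel)

/-- certificates of the pair `(8, 6)`, part 2 -/
def t21_21_8_6_2 : BlkD.Tr :=
  .L 5 5 [4, 4, 21, 21, 21, 21, 21] [] [] 100000 1 1 1633334 66667 33333 66667 66667 0 0 0

lemma s21_21_8_6_2 {n : ℕ} (hn : 5 ≤ n) : NoNd (d21_21_8_6.R : ℤ) d21_21_8_6.H n d21_21_8_6.a d21_21_8_6.b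
    (BlkD.inB (BlkD.upd (fun _ => 0) 0 1)
      (BlkD.upd (BlkD.upd (BlkD.upd (BlkD.upd (BlkD.upd (BlkD.upd (BlkD.upd (fun _ => 21) 0 8) 2 6) 0 4) 0 2) 0 1) 1 10) 1 5)) :=
  BlkD.tree_sound (BlkD.pairOk_sound k21_21_8_6) (by decide) hn t21_21_8_6_2 _ _ (by decide +kernel)

/-- certificates of the pair `(8, 6)`, part 3 -/
def t21_21_8_6_3 : BlkD.Tr :=
  .L 5 5 [4, 4, 21, 21, 21, 21, 21] [] [] 100000 1 1 1633334 66667 33333 66667 66667 0 0 0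

lemma s21_21_8_6_3 {n : ℕ} (hn : 5 ≤ n) : NoNd (d21_21_8_6.R : ℤ) d21_21_8_6.H n d21_21_8_6.a d21_21_8_6.b
    (BlkD.inB (BlkD.upd (BlkD.upd (fun _ => 0) 0 1) 1 6)
      (BlkD.upd (BlkD.upd (BlkD.upd (BlkD.upd (BlkD.upd (BlkD.upd (fun _ => 21) 0 8) 2 6) 0 4) 0 2) 0 1) 1 10)) :=
  BlkD.tree_sound (BlkD.pairOk_sound k21_21_8_6) (by decide) hn t21_21_8_6_3 _ _ (by decide +kernel)

/-- certificates of the pair `(8, 6)`, part 4 -/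
def t21_21_8_6_4 : BlkD.Tr :=
  .L 5 5 [4, 4, 21, 21, 21, 21, 21] [] [] 100000 1 1 1633334 66667 33333 66667 66667 0 0 0

lemma s21_21_8_6_4 {n : ℕ} (hn : 5 ≤ n) : NoNd (d21_21_8_6.R : ℤ) d21_21_8_6.H n d21_21_8_6.a d21_21_8_6.b
    (BlkD.inB (BlkD.upd (BlkD.upd (fun _ => 0) 0 1) 1 11)
      (BlkD.upd (BlkD.upd (BlkD.upd (BlkD.upd (BlkD.upd (fun _ => 21) 0 8) 2 6) 0 4) 0 2) 0 1)) :=
  BlkD.tree_sound (BlkD.pairOk_sound k21_21_8_6) (by decide) hn t21_21_8_6_4 _ _ (by decide +kernel)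

/-- certificates of the pair `(8, 6)`, part 5 -/
def t21_21_8_6_5 : BlkD.Tr :=
  .L 5 5 [4, 4, 21, 21, 21, 21, 21] [] [] 100000 1 1 1633334 66667 33333 66667 66667 0 0 0

lemma s21_21_8_6_5 {n : ℕ} (hn : 5 ≤ n) : NoNd (d21_21_8_6.R : ℤ) d21_21_8_6.H n d21_21_8_6.a d21_21_8_6.b
    (BlkD.inB (BlkD.upd (fun _ => 0) 0 2)
      (BlkD.upd (BlkD.upd (BlkD.upd (BlkD.upd (BlkD.upd (BlkD.upd (fun _ => 21) 0 8) 2 6) 0 4) 0 2) 1 10) 1 5)) :=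
  BlkD.tree_sound (BlkD.pairOk_sound k21_21_8_6) (by decide) hn t21_21_8_6_5 _ _ (by decide +kernel)

/-- certificates of the pair `(8, 6)`, part 6 -/
def t21_21_8_6_6 : BlkD.Tr :=
  .S 1 8 (.L 5 5 [4, 4, 21, 21, 21, 21, 21] [] [] 100000 1 1 1633334 66667 33333 66667 66667 0 0 0)
    (.L 5 5 [4, 4, 21, 21, 21, 21, 21] [] [] 100000 1 1 1633334 66667 33333 66667 66667 0 0 0)

lemma s21_21_8_6_6 {n : ℕ} (hn : 5 ≤ n) : NoNd (d21_21_8_6.R : ℤ) d21_21_8_6.H n d21_21_8_6.a d21_21_8_6.b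
    (BlkD.inB (BlkD.upd (BlkD.upd (fun _ => 0) 0 2) 1 6)
      (BlkD.upd (BlkD.upd (BlkD.upd (BlkD.upd (BlkD.upd (fun _ => 21) 0 8) 2 6) 0 4) 0 2) 1 10)) :=
  BlkD.tree_sound (BlkD.pairOk_sound k21_21_8_6) (by decide) hn t21_21_8_6_6 _ _ (by decide +kernel)

/-- certificates of the pair `(8, 6)`, part 7 -/
def t21_21_8_6_7 : BlkD.Tr :=
  .L 5 5 [4, 4, 21, 21, 21, 21, 21] [] [] 100000 1 1 1633334 66667 33333 66667 66667 0 0 0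

lemma s21_21_8_6_7 {n : ℕ} (hn : 5 ≤ n) : NoNd (d21_21_8_6.R : ℤ) d21_21_8_6.H n d21_21_8_6.a d21_21_8_6.b
    (BlkD.inB (BlkD.upd (BlkD.upd (fun _ => 0) 0 2) 1 11)
      (BlkD.upd (BlkD.upd (BlkD.upd (BlkD.upd (fun _ => 21) 0 8) 2 6) 0 4) 0 2)) :=
  BlkD.tree_sound (BlkD.pairOk_sound k21_21_8_6) (by decide) hn t21_21_8_6_7 _ _ (by decide +kernel)

/-- certificates of the pair `(8, 6)`, part 8 -/
def t21_21_8_6_8 : BlkD.Tr :=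
  .L 5 5 [4, 4, 21, 21, 21, 21, 21] [] [] 100000 1 1 1633334 66667 33333 66667 66667 0 0 0

lemma s21_21_8_6_8 {n : ℕ} (hn : 5 ≤ n) : NoNd (d21_21_8_6.R : ℤ) d21_21_8_6.H n d21_21_8_6.a d21_21_8_6.b
    (BlkD.inB (BlkD.upd (fun _ => 0) 0 3)
      (BlkD.upd (BlkD.upd (BlkD.upd (BlkD.upd (BlkD.upd (BlkD.upd (fun _ => 21) 0 8) 2 6) 0 4) 0 3) 1 10) 1 5)) :=
  BlkD.tree_sound (BlkD.pairOk_sound k21_21_8_6) (by decide) hn t21_21_8_6_8 _ _ (by decide +kernel)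

/-- certificates of the pair `(8, 6)`, part 9 -/
def t21_21_8_6_9 : BlkD.Tr :=
  .L 5 5 [4, 4, 21, 21, 21, 21, 21] [] [] 100000 1 1 1633334 66667 33333 66667 66667 0 0 0

lemma s21_21_8_6_9 {n : ℕ} (hn : 5 ≤ n) : NoNd (d21_21_8_6.R : ℤ) d21_21_8_6.H n d21_21_8_6.a d21_21_8_6.b
    (BlkD.inB (BlkD.upd (BlkD.upd (fun _ => 0) 0 3) 1 6)
      (BlkD.upd (BlkD.upd (BlkD.upd (BlkD.upd (BlkD.upd (BlkD.upd (BlkD.upd (fun _ => 21) 0 8) 2 6) 0 4) 0 3) 1 10) 1 8) 1 7)) :=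
  BlkD.tree_sound (BlkD.pairOk_sound k21_21_8_6) (by decide) hn t21_21_8_6_9 _ _ (by decide +kernel)

/-- certificates of the pair `(8, 6)`, part 10 -/
def t21_21_8_6_10 : BlkD.Tr :=
  .L 5 5 [4, 4, 21, 21, 21, 21, 21] [172, 172, 172, 164, 156, 146] [] 100000 1 1 1633334 66667
    33333 66667 66667 0 0 0

lemma s21_21_8_6_10 {n : ℕ} (hn : 5 ≤ n) : NoNd (d21_21_8_6.R : ℤ) d21_21_8_6.H n d21_21_8_6.a d21_21_8_6.b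
    (BlkD.inB (BlkD.upd (BlkD.upd (BlkD.upd (fun _ => 0) 0 3) 1 6) 1 8)
      (BlkD.upd (BlkD.upd (BlkD.upd (BlkD.upd (BlkD.upd (BlkD.upd (fun _ => 21) 0 8) 2 6) 0 4) 0 3) 1 10) 1 8)) :=
  BlkD.tree_sound (BlkD.pairOk_sound k21_21_8_6) (by decide) hn t21_21_8_6_10 _ _ (by decide +kernel)

/-- certificates of the pair `(8, 6)`, part 11 -/
def t21_21_8_6_11 : BlkD.Tr :=
  .S 2 3 (.L 5 5 [4, 4, 21, 21, 21, 21, 21] [194, 194, 194, 194, 186, 178] [] 100000 1 1 1633334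
    66667 33333 66667 66667 0 0 0) (.L 5 5 [4, 4, 21, 21, 21, 21, 21] [194, 194, 194, 194, 186,
    178] [] 100000 1 1 1633334 66667 33333 66667 66667 0 0 0)

lemma s21_21_8_6_11 {n : ℕ} (hn : 5 ≤ n) : NoNd (d21_21_8_6.R : ℤ) d21_21_8_6.H n d21_21_8_6.a d21_21_8_6.b
    (BlkD.inB (BlkD.upd (BlkD.upd (BlkD.upd (fun _ => 0) 0 3) 1 6) 1 9)
      (BlkD.upd (BlkD.upd (BlkD.upd (BlkD.upd (BlkD.upd (BlkD.upd (fun _ => 21) 0 8) 2 6) 0 4) 0 3) 1 10) 1 9)) :=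
  BlkD.tree_sound (BlkD.pairOk_sound k21_21_8_6) (by decide) hn t21_21_8_6_11 _ _ (by decide +kernel)

/-- certificates of the pair `(8, 6)`, part 12 -/
def t21_21_8_6_12 : BlkD.Tr :=
  .L 5 5 [4, 4, 21, 21, 21, 21, 21] [218, 218, 218, 218, 218, 210] [] 100000 1 1 1633334 66667
    33333 66667 66667 0 0 0

lemma s21_21_8_6_12 {n : ℕ} (hn : 5 ≤ n) : NoNd (d21_21_8_6.R : ℤ) d21_21_8_6.H n d21_21_8_6.a d21_21_8_6.b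
    (BlkD.inB (BlkD.upd (BlkD.upd (BlkD.upd (BlkD.upd (fun _ => 0) 0 3) 1 6) 1 9) 1 10)
      (BlkD.upd (BlkD.upd (BlkD.upd (BlkD.upd (BlkD.upd (fun _ => 21) 0 8) 2 6) 0 4) 0 3) 1 10)) :=
  BlkD.tree_sound (BlkD.pairOk_sound k21_21_8_6) (by decide) hn t21_21_8_6_12 _ _ (by decide +kernel)

/-- certificates of the pair `(8, 6)`, part 13 -/
def t21_21_8_6_13 : BlkD.Tr :=
  .L 5 5 [4, 4, 21, 21, 21, 21, 21] [] [] 100000 1 1 1633334 66667 33333 66667 66667 0 0 0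

lemma s21_21_8_6_13 {n : ℕ} (hn : 5 ≤ n) : NoNd (d21_21_8_6.R : ℤ) d21_21_8_6.H n d21_21_8_6.a d21_21_8_6.b
    (BlkD.inB (BlkD.upd (BlkD.upd (fun _ => 0) 0 3) 1 11)
      (BlkD.upd (BlkD.upd (BlkD.upd (BlkD.upd (fun _ => 21) 0 8) 2 6) 0 4) 0 3)) :=
  BlkD.tree_sound (BlkD.pairOk_sound k21_21_8_6) (by decide) hn t21_21_8_6_13 _ _ (by decide +kernel)

/-- certificates of the pair `(8, 6)`, part 14 -/
def t21_21_8_6_14 : BlkD.Tr :=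
  .L 5 5 [4, 4, 21, 21, 21, 21, 21] [] [] 100000 1 1 1633334 66667 33333 66667 66667 0 0 0

lemma s21_21_8_6_14 {n : ℕ} (hn : 5 ≤ n) : NoNd (d21_21_8_6.R : ℤ) d21_21_8_6.H n d21_21_8_6.a d21_21_8_6.b
    (BlkD.inB (BlkD.upd (BlkD.upd (fun _ => 0) 0 3) 0 4)
      (BlkD.upd (BlkD.upd (BlkD.upd (BlkD.upd (BlkD.upd (fun _ => 21) 0 8) 2 6) 0 4) 1 10) 1 5)) :=
  BlkD.tree_sound (BlkD.pairOk_sound k21_21_8_6) (by decide) hn t21_21_8_6_14 _ _ (by decide +kernel)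

/-- certificates of the pair `(8, 6)`, part 15 -/
def t21_21_8_6_15 : BlkD.Tr :=
  .L 5 5 [4, 4, 21, 21, 21, 21, 21] [146, 138, 130, 120, 108, 94] [] 100000 1 1 1633334 66667 33333
    66667 66667 0 0 0

lemma s21_21_8_6_15 {n : ℕ} (hn : 5 ≤ n) : NoNd (d21_21_8_6.R : ℤ) d21_21_8_6.H n d21_21_8_6.a d21_21_8_6.b
    (BlkD.inB (BlkD.upd (BlkD.upd (BlkD.upd (fun _ => 0) 0 3) 0 4) 1 6)
      (BlkD.upd (BlkD.upd (BlkD.upd (BlkD.upd (BlkD.upd (BlkD.upd (BlkD.upd (fun _ => 21) 0 8) 2 6) 0 4) 1 10) 1 8) 1 7) 1 6)) :=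
  BlkD.tree_sound (BlkD.pairOk_sound k21_21_8_6) (by decide) hn t21_21_8_6_15 _ _ (by decide +kernel)

/-- certificates of the pair `(8, 6)`, part 16 -/
def t21_21_8_6_16 : BlkD.Tr :=
  .L 5 5 [4, 4, 21, 21, 21, 21, 21] [166, 166, 158, 150, 140, 128] [] 100000 1 1 1633334 66667
    33333 66667 66667 0 0 0

lemma s21_21_8_6_16 {n : ℕ} (hn : 5 ≤ n) : NoNd (d21_21_8_6.R : ℤ) d21_21_8_6.H n d21_21_8_6.a d21_21_8_6.b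
    (BlkD.inB (BlkD.upd (BlkD.upd (BlkD.upd (BlkD.upd (fun _ => 0) 0 3) 0 4) 1 6) 1 7)
      (BlkD.upd (BlkD.upd (BlkD.upd (BlkD.upd (BlkD.upd (BlkD.upd (fun _ => 21) 0 8) 2 6) 0 4) 1 10) 1 8) 1 7)) :=
  BlkD.tree_sound (BlkD.pairOk_sound k21_21_8_6) (by decide) hn t21_21_8_6_16 _ _ (by decide +kernel)

/-- certificates of the pair `(8, 6)`, part 17 -/
def t21_21_8_6_17 : BlkD.Tr :=
  .S 2 1 (.L 5 5 [4, 4, 21, 21, 21, 21, 21] [188, 188, 188, 180, 172, 162] [] 100000 1 1 1633334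
    66667 33333 66667 66667 0 0 0) (.L 5 5 [4, 4, 21, 21, 21, 21, 21] [188, 188, 188, 180, 172,
    162] [] 100000 1 1 1633334 66667 33333 66667 66667 0 0 0)

lemma s21_21_8_6_17 {n : ℕ} (hn : 5 ≤ n) : NoNd (d21_21_8_6.R : ℤ) d21_21_8_6.H n d21_21_8_6.a d21_21_8_6.b
    (BlkD.inB (BlkD.upd (BlkD.upd (BlkD.upd (BlkD.upd (fun _ => 0) 0 3) 0 4) 1 6) 1 8)
      (BlkD.upd (BlkD.upd (BlkD.upd (BlkD.upd (BlkD.upd (BlkD.upd (fun _ => 21) 0 8) 2 6) 0 4) 1 10) 1 8) 2 3)) :=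
  BlkD.tree_sound (BlkD.pairOk_sound k21_21_8_6) (by decide) hn t21_21_8_6_17 _ _ (by decide +kernel)

/-- certificates of the pair `(8, 6)`, part 18 -/
def t21_21_8_6_18 : BlkD.Tr :=
  .L 5 5 [4, 4, 21, 21, 21, 21, 21] [188, 188, 188, 180, 172, 162] [] 100000 1 1 1633334 66667
    33333 66667 66667 0 0 0

lemma s21_21_8_6_18 {n : ℕ} (hn : 5 ≤ n) : NoNd (d21_21_8_6.R : ℤ) d21_21_8_6.H n d21_21_8_6.a d21_21_8_6.b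
    (BlkD.inB (BlkD.upd (BlkD.upd (BlkD.upd (BlkD.upd (BlkD.upd (fun _ => 0) 0 3) 0 4) 1 6) 1 8) 2 4)
      (BlkD.upd (BlkD.upd (BlkD.upd (BlkD.upd (BlkD.upd (fun _ => 21) 0 8) 2 6) 0 4) 1 10) 1 8)) :=
  BlkD.tree_sound (BlkD.pairOk_sound k21_21_8_6) (by decide) hn t21_21_8_6_18 _ _ (by decide +kernel)

/-- certificates of the pair `(8, 6)`, part 19 -/
def t21_21_8_6_19 : BlkD.Tr :=
  .S 2 3 (.L 5 5 [4, 4, 21, 21, 21, 21, 21] [212, 212, 212, 212, 204, 196] [] 100000 1 1 1633334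
    66667 33333 66667 66667 0 0 0) (.L 5 5 [4, 4, 21, 21, 21, 21, 21] [212, 212, 212, 212, 204,
    196] [] 100000 1 1 1633334 66667 33333 66667 66667 0 0 0)

lemma s21_21_8_6_19 {n : ℕ} (hn : 5 ≤ n) : NoNd (d21_21_8_6.R : ℤ) d21_21_8_6.H n d21_21_8_6.a d21_21_8_6.b
    (BlkD.inB (BlkD.upd (BlkD.upd (BlkD.upd (BlkD.upd (fun _ => 0) 0 3) 0 4) 1 6) 1 9)
      (BlkD.upd (BlkD.upd (BlkD.upd (BlkD.upd (BlkD.upd (fun _ => 21) 0 8) 2 6) 0 4) 1 10) 1 9)) :=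
  BlkD.tree_sound (BlkD.pairOk_sound k21_21_8_6) (by decide) hn t21_21_8_6_19 _ _ (by decide +kernel)

/-- certificates of the pair `(8, 6)`, part 20 -/
def t21_21_8_6_20 : BlkD.Tr :=
  .L 5 5 [4, 4, 21, 21, 21, 21, 21] [238, 238, 238, 238, 238, 230] [] 100000 1 1 1633334 66667
    33333 66667 66667 0 0 0

lemma s21_21_8_6_20 {n : ℕ} (hn : 5 ≤ n) : NoNd (d21_21_8_6.R : ℤ) d21_21_8_6.H n d21_21_8_6.a d21_21_8_6.b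
    (BlkD.inB (BlkD.upd (BlkD.upd (BlkD.upd (BlkD.upd (BlkD.upd (fun _ => 0) 0 3) 0 4) 1 6) 1 9) 1 10)
      (BlkD.upd (BlkD.upd (BlkD.upd (BlkD.upd (fun _ => 21) 0 8) 2 6) 0 4) 1 10)) :=
  BlkD.tree_sound (BlkD.pairOk_sound k21_21_8_6) (by decide) hn t21_21_8_6_20 _ _ (by decide +kernel)

/-- certificates of the pair `(8, 6)`, part 21 -/
def t21_21_8_6_21 : BlkD.Tr :=
  .L 5 5 [4, 4, 21, 21, 21, 21, 21] [] [] 100000 1 1 1633334 66667 33333 66667 66667 0 0 0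

lemma s21_21_8_6_21 {n : ℕ} (hn : 5 ≤ n) : NoNd (d21_21_8_6.R : ℤ) d21_21_8_6.H n d21_21_8_6.a d21_21_8_6.b
    (BlkD.inB (BlkD.upd (BlkD.upd (BlkD.upd (fun _ => 0) 0 3) 0 4) 1 11)
      (BlkD.upd (BlkD.upd (BlkD.upd (fun _ => 21) 0 8) 2 6) 0 4)) :=
  BlkD.tree_sound (BlkD.pairOk_sound k21_21_8_6) (by decide) hn t21_21_8_6_21 _ _ (by decide +kernel)

/-- certificates of the pair `(8, 6)`, part 22 -/
def t21_21_8_6_22 : BlkD.Tr :=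
  .S 1 2 (.L 5 5 [4, 4, 21, 21, 21, 21, 21] [] [] 100000 1 1 1633334 66667 33333 66667 66667 0 0 0)
    (.S 1 4 (.L 5 5 [4, 4, 21, 21, 21, 21, 21] [] [] 100000 1 1 1633334 66667 33333 66667 66667 0 0
    0) (.L 5 5 [4, 4, 21, 21, 21, 21, 21] [130, 122, 112, 100, 86, 70] [] 100000 1 1 1633334 66667
    33333 66667 66667 0 0 0))

lemma s21_21_8_6_22 {n : ℕ} (hn : 5 ≤ n) : NoNd (d21_21_8_6.R : ℤ) d21_21_8_6.H n d21_21_8_6.a d21_21_8_6.b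
    (BlkD.inB (BlkD.upd (fun _ => 0) 0 5)
      (BlkD.upd (BlkD.upd (BlkD.upd (BlkD.upd (BlkD.upd (BlkD.upd (fun _ => 21) 0 8) 2 6) 0 6) 0 5) 1 10) 1 5)) :=
  BlkD.tree_sound (BlkD.pairOk_sound k21_21_8_6) (by decide) hn t21_21_8_6_22 _ _ (by decide +kernel)

/-- certificates of the pair `(8, 6)`, part 23 -/
def t21_21_8_6_23 : BlkD.Tr :=
  .L 5 5 [4, 4, 21, 21, 21, 21, 21] [158, 150, 142, 132, 120, 106] [] 100000 1 1 1633334 66667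
    33333 66667 66667 0 0 0

lemma s21_21_8_6_23 {n : ℕ} (hn : 5 ≤ n) : NoNd (d21_21_8_6.R : ℤ) d21_21_8_6.H n d21_21_8_6.a d21_21_8_6.b
    (BlkD.inB (BlkD.upd (BlkD.upd (fun _ => 0) 0 5) 1 6)
      (BlkD.upd (BlkD.upd (BlkD.upd (BlkD.upd (BlkD.upd (BlkD.upd (BlkD.upd (BlkD.upd (fun _ => 21) 0 8) 2 6) 0 6) 0 5) 1 10) 1 8) 1 7) 1 6)) :=
  BlkD.tree_sound (BlkD.pairOk_sound k21_21_8_6) (by decide) hn t21_21_8_6_23 _ _ (by decide +kernel)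

/-- certificates of the pair `(8, 6)`, part 24 -/
def t21_21_8_6_24 : BlkD.Tr :=
  .L 5 5 [4, 4, 21, 21, 21, 21, 21] [180, 180, 172, 164, 154, 142] [] 100000 1 1 1633334 66667
    33333 66667 66667 0 0 0

lemma s21_21_8_6_24 {n : ℕ} (hn : 5 ≤ n) : NoNd (d21_21_8_6.R : ℤ) d21_21_8_6.H n d21_21_8_6.a d21_21_8_6.b
    (BlkD.inB (BlkD.upd (BlkD.upd (BlkD.upd (fun _ => 0) 0 5) 1 6) 1 7)
      (BlkD.upd (BlkD.upd (BlkD.upd (BlkD.upd (BlkD.upd (BlkD.upd (BlkD.upd (fun _ => 21) 0 8) 2 6) 0 6) 0 5) 1 10) 1 8) 1 7)) :=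
  BlkD.tree_sound (BlkD.pairOk_sound k21_21_8_6) (by decide) hn t21_21_8_6_24 _ _ (by decide +kernel)

/-- certificates of the pair `(8, 6)`, part 25 -/
def t21_21_8_6_25 : BlkD.Tr :=
  .L 5 5 [4, 4, 21, 21, 21, 21, 21] [204, 204, 204, 196, 188, 178] [] 100000 1 1 1633334 66667
    33333 66667 66667 0 0 0

lemma s21_21_8_6_25 {n : ℕ} (hn : 5 ≤ n) : NoNd (d21_21_8_6.R : ℤ) d21_21_8_6.H n d21_21_8_6.a d21_21_8_6.b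
    (BlkD.inB (BlkD.upd (BlkD.upd (BlkD.upd (fun _ => 0) 0 5) 1 6) 1 8)
      (BlkD.upd (BlkD.upd (BlkD.upd (BlkD.upd (BlkD.upd (BlkD.upd (fun _ => 21) 0 8) 2 6) 0 6) 0 5) 1 10) 1 8)) :=
  BlkD.tree_sound (BlkD.pairOk_sound k21_21_8_6) (by decide) hn t21_21_8_6_25 _ _ (by decide +kernel)

/-- certificates of the pair `(8, 6)`, part 26 -/
def t21_21_8_6_26 : BlkD.Tr :=
  .L 5 5 [4, 4, 21, 21, 21, 21, 21] [] [] 100000 1 1 1633334 66667 33333 66667 66667 0 0 0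

lemma s21_21_8_6_26 {n : ℕ} (hn : 5 ≤ n) : NoNd (d21_21_8_6.R : ℤ) d21_21_8_6.H n d21_21_8_6.a d21_21_8_6.b
    (BlkD.inB (BlkD.upd (BlkD.upd (BlkD.upd (fun _ => 0) 0 5) 1 6) 1 9)
      (BlkD.upd (BlkD.upd (BlkD.upd (BlkD.upd (BlkD.upd (fun _ => 21) 0 8) 2 6) 0 6) 0 5) 1 10)) :=
  BlkD.tree_sound (BlkD.pairOk_sound k21_21_8_6) (by decide) hn t21_21_8_6_26 _ _ (by decide +kernel)

/-- certificates of the pair `(8, 6)`, part 27 -/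
def t21_21_8_6_27 : BlkD.Tr :=
  .L 5 5 [4, 4, 21, 21, 21, 21, 21] [] [] 100000 1 1 1633334 66667 33333 66667 66667 0 0 0

lemma s21_21_8_6_27 {n : ℕ} (hn : 5 ≤ n) : NoNd (d21_21_8_6.R : ℤ) d21_21_8_6.H n d21_21_8_6.a d21_21_8_6.b
    (BlkD.inB (BlkD.upd (BlkD.upd (fun _ => 0) 0 5) 1 11)
      (BlkD.upd (BlkD.upd (BlkD.upd (BlkD.upd (fun _ => 21) 0 8) 2 6) 0 6) 0 5)) :=
  BlkD.tree_sound (BlkD.pairOk_sound k21_21_8_6) (by decide) hn t21_21_8_6_27 _ _ (by decide +kernel)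

/-- certificates of the pair `(8, 6)`, part 28 -/
def t21_21_8_6_28 : BlkD.Tr :=
  .S 1 2 (.L 5 5 [4, 4, 21, 21, 21, 21, 21] [] [] 100000 1 1 1633334 66667 33333 66667 66667 0 0 0)
    (.L 5 5 [4, 4, 21, 21, 21, 21, 21] [] [] 100000 1 1 1633334 66667 33333 66667 66667 0 0 0)

lemma s21_21_8_6_28 {n : ℕ} (hn : 5 ≤ n) : NoNd (d21_21_8_6.R : ℤ) d21_21_8_6.H n d21_21_8_6.a d21_21_8_6.b
    (BlkD.inB (BlkD.upd (BlkD.upd (fun _ => 0) 0 5) 0 6)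
      (BlkD.upd (BlkD.upd (BlkD.upd (BlkD.upd (BlkD.upd (fun _ => 21) 0 8) 2 6) 0 6) 1 10) 1 5)) :=
  BlkD.tree_sound (BlkD.pairOk_sound k21_21_8_6) (by decide) hn t21_21_8_6_28 _ _ (by decide +kernel)

/-- certificates of the pair `(8, 6)`, part 29 -/
def t21_21_8_6_29 : BlkD.Tr :=
  .L 5 5 [4, 4, 21, 21, 21, 21, 21] [] [] 100000 1 1 1633334 66667 33333 66667 66667 0 0 0

lemma s21_21_8_6_29 {n : ℕ} (hn : 5 ≤ n) : NoNd (d21_21_8_6.R : ℤ) d21_21_8_6.H n d21_21_8_6.a d21_21_8_6.b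
    (BlkD.inB (BlkD.upd (BlkD.upd (BlkD.upd (fun _ => 0) 0 5) 0 6) 1 6)
      (BlkD.upd (BlkD.upd (BlkD.upd (BlkD.upd (fun _ => 21) 0 8) 2 6) 0 6) 1 10)) :=
  BlkD.tree_sound (BlkD.pairOk_sound k21_21_8_6) (by decide) hn t21_21_8_6_29 _ _ (by decide +kernel)

/-- certificates of the pair `(8, 6)`, part 30 -/
def t21_21_8_6_30 : BlkD.Tr :=
  .L 5 5 [4, 4, 21, 21, 21, 21, 21] [] [] 100000 1 1 1633334 66667 33333 66667 66667 0 0 0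

lemma s21_21_8_6_30 {n : ℕ} (hn : 5 ≤ n) : NoNd (d21_21_8_6.R : ℤ) d21_21_8_6.H n d21_21_8_6.a d21_21_8_6.b
    (BlkD.inB (BlkD.upd (BlkD.upd (BlkD.upd (fun _ => 0) 0 5) 0 6) 1 11)
      (BlkD.upd (BlkD.upd (BlkD.upd (fun _ => 21) 0 8) 2 6) 0 6)) :=
  BlkD.tree_sound (BlkD.pairOk_sound k21_21_8_6) (by decide) hn t21_21_8_6_30 _ _ (by decide +kernel)

/-- certificates of the pair `(8, 6)`, part 31 -/
def t21_21_8_6_31 : BlkD.Tr :=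
  .L 5 5 [4, 4, 21, 21, 21, 21, 21] [] [] 100000 1 1 1633334 66667 33333 66667 66667 0 0 0

lemma s21_21_8_6_31 {n : ℕ} (hn : 5 ≤ n) : NoNd (d21_21_8_6.R : ℤ) d21_21_8_6.H n d21_21_8_6.a d21_21_8_6.b
    (BlkD.inB (BlkD.upd (BlkD.upd (fun _ => 0) 0 5) 0 7)
      (BlkD.upd (BlkD.upd (fun _ => 21) 0 8) 2 6)) :=
  BlkD.tree_sound (BlkD.pairOk_sound k21_21_8_6) (by decide) hn t21_21_8_6_31 _ _ (by decide +kernel)

/-- certificates of the pair `(8, 6)`, part 32 -/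
def t21_21_8_6_32 : BlkD.Tr :=
  .E 1

lemma s21_21_8_6_32 {n : ℕ} (hn : 5 ≤ n) : NoNd (d21_21_8_6.R : ℤ) d21_21_8_6.H n d21_21_8_6.a d21_21_8_6.b
    (BlkD.inB (BlkD.upd (fun _ => 0) 2 7)
      (BlkD.upd (fun _ => 21) 0 8)) :=
  BlkD.tree_sound (BlkD.pairOk_sound k21_21_8_6) (by decide) hn t21_21_8_6_32 _ _ (by decide +kernel)

/-- certificates of the pair `(8, 6)`, part 33 -/
def t21_21_8_6_33 : BlkD.Tr :=
  .E 0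

lemma s21_21_8_6_33 {n : ℕ} (hn : 5 ≤ n) : NoNd (d21_21_8_6.R : ℤ) d21_21_8_6.H n d21_21_8_6.a d21_21_8_6.b
    (BlkD.inB (BlkD.upd (fun _ => 0) 0 9)
      (fun _ => 21)) :=
  BlkD.tree_sound (BlkD.pairOk_sound k21_21_8_6) (by decide) hn t21_21_8_6_33 _ _ (by decide +kernel)

lemma pr21_21_8_6 {n : ℕ} (hn : 5 ≤ n) : NoPr ((21 : ℕ) : ℤ) ((21 : ℕ) : ℤ) n 8 6 :=
  BlkD.of_root (R := d21_21_8_6.R) (H := d21_21_8_6.H) (a := d21_21_8_6.a) (b := d21_21_8_6.b) (q := 3) (by decide) hn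
    (BlkD.sp 0 8 (BlkD.sp 2 6 (BlkD.sp 0 4 (BlkD.sp 0 2 (BlkD.sp 0 1 (BlkD.sp 0 0 (s21_21_8_6_1 hn)
      (BlkD.sp 1 10 (BlkD.sp 1 5 (s21_21_8_6_2 hn) (s21_21_8_6_3 hn)) (s21_21_8_6_4 hn))) (BlkD.sp
      1 10 (BlkD.sp 1 5 (s21_21_8_6_5 hn) (s21_21_8_6_6 hn)) (s21_21_8_6_7 hn))) (BlkD.sp 0 3
      (BlkD.sp 1 10 (BlkD.sp 1 5 (s21_21_8_6_8 hn) (BlkD.sp 1 8 (BlkD.sp 1 7 (s21_21_8_6_9 hn)
      (s21_21_8_6_10 hn)) (BlkD.sp 1 9 (s21_21_8_6_11 hn) (s21_21_8_6_12 hn)))) (s21_21_8_6_13 hn))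
      (BlkD.sp 1 10 (BlkD.sp 1 5 (s21_21_8_6_14 hn) (BlkD.sp 1 8 (BlkD.sp 1 7 (BlkD.sp 1 6
      (s21_21_8_6_15 hn) (s21_21_8_6_16 hn)) (BlkD.sp 2 3 (s21_21_8_6_17 hn) (s21_21_8_6_18 hn)))
      (BlkD.sp 1 9 (s21_21_8_6_19 hn) (s21_21_8_6_20 hn)))) (s21_21_8_6_21 hn)))) (BlkD.sp 0 6
      (BlkD.sp 0 5 (BlkD.sp 1 10 (BlkD.sp 1 5 (s21_21_8_6_22 hn) (BlkD.sp 1 8 (BlkD.sp 1 7 (BlkD.sp
      1 6 (s21_21_8_6_23 hn) (s21_21_8_6_24 hn)) (s21_21_8_6_25 hn)) (s21_21_8_6_26 hn)))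
      (s21_21_8_6_27 hn)) (BlkD.sp 1 10 (BlkD.sp 1 5 (s21_21_8_6_28 hn) (s21_21_8_6_29 hn))
      (s21_21_8_6_30 hn))) (s21_21_8_6_31 hn))) (s21_21_8_6_32 hn)) (s21_21_8_6_33 hn))

end BlkC

end Pool.Agent.Lib.MP_f04ccf_co
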