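import Pool.Agent.Lib.MP_f04ccf_co.M.BlkT

/-!
MP_f04ccf_co, block certificate, data `R = 21`, `H = 21`, part 13 (generated, helper99:
bd10.cpp, gen2.py).
-/

set_option autoImplicit false
set_option maxRecDepth 100000

namespace Pool.Agent.Lib.MP_f04ccf_co

namespace BlkC

/-- the numbers of the pair `(8, 7)`, `R = 21`, `H = 21` -/
def d21_21_8_7 : BlkD.Pd :=
  ⟨21, 21, 3, 8, 7, 3, 0, 4, 0, 4, 4, 0, 0, 4, 4, 0, [0, 4, 8, 12], [0, 4, 8, 12], [⟨1, 1, 1, 4, 8,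
    [0, 4], [0, 4]⟩]⟩

lemma k21_21_8_7 : BlkD.pairOk d21_21_8_7 = true := by decide +kernel

/-- certificates of the pair `(8, 7)`, part 1 -/
def t21_21_8_7_1 : BlkD.Tr :=
  .S 0 0 (.L 4 4 [4, 21, 21, 21, 21, 21, 21, 21] [] [] 100000 0 0 1700000 100000 50000 100000
    100000 0 0 0) (.S 1 10 (.S 1 5 (.L 4 4 [4, 21, 21, 21, 21, 21, 21, 21] [] [] 100000 0 0 1700000
    100000 50000 100000 100000 0 0 0) (.L 4 4 [4, 21, 21, 21, 21, 21, 21, 21] [] [] 100000 0 0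
    1700000 100000 50000 100000 100000 0 0 0)) (.L 4 4 [4, 21, 21, 21, 21, 21, 21, 21] [] [] 100000
    0 0 1700000 100000 50000 100000 100000 0 0 0))

lemma s21_21_8_7_1 {n : ℕ} (hn : 5 ≤ n) : NoNd (d21_21_8_7.R : ℤ) d21_21_8_7.H n d21_21_8_7.a d21_21_8_7.b
    (BlkD.inB (fun _ => 0)
      (BlkD.upd (BlkD.upd (BlkD.upd (BlkD.upd (BlkD.upd (fun _ => 21) 0 8) 2 7) 0 4) 0 2) 0 1)) :=
  BlkD.tree_sound (BlkD.pairOk_sound k21_21_8_7) (by decide) hn t21_21_8_7_1 _ _ (by decide +kernel)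

/-- certificates of the pair `(8, 7)`, part 2 -/
def t21_21_8_7_2 : BlkD.Tr :=
  .L 4 4 [4, 21, 21, 21, 21, 21, 21, 21] [] [] 100000 0 0 1700000 100000 50000 100000 100000 0 0 0

lemma s21_21_8_7_2 {n : ℕ} (hn : 5 ≤ n) : NoNd (d21_21_8_7.R : ℤ) d21_21_8_7.H n d21_21_8_7.a d21_21_8_7.b
    (BlkD.inB (BlkD.upd (fun _ => 0) 0 2)
      (BlkD.upd (BlkD.upd (BlkD.upd (BlkD.upd (BlkD.upd (BlkD.upd (fun _ => 21) 0 8) 2 7) 0 4) 0 2) 1 10) 1 5)) :=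
  BlkD.tree_sound (BlkD.pairOk_sound k21_21_8_7) (by decide) hn t21_21_8_7_2 _ _ (by decide +kernel)

/-- certificates of the pair `(8, 7)`, part 3 -/
def t21_21_8_7_3 : BlkD.Tr :=
  .L 4 4 [4, 21, 21, 21, 21, 21, 21, 21] [] [] 100000 0 0 1700000 100000 50000 100000 100000 0 0 0

lemma s21_21_8_7_3 {n : ℕ} (hn : 5 ≤ n) : NoNd (d21_21_8_7.R : ℤ) d21_21_8_7.H n d21_21_8_7.a d21_21_8_7.b
    (BlkD.inB (BlkD.upd (BlkD.upd (fun _ => 0) 0 2) 1 6)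
      (BlkD.upd (BlkD.upd (BlkD.upd (BlkD.upd (BlkD.upd (fun _ => 21) 0 8) 2 7) 0 4) 0 2) 1 10)) :=
  BlkD.tree_sound (BlkD.pairOk_sound k21_21_8_7) (by decide) hn t21_21_8_7_3 _ _ (by decide +kernel)

/-- certificates of the pair `(8, 7)`, part 4 -/
def t21_21_8_7_4 : BlkD.Tr :=
  .L 4 4 [4, 21, 21, 21, 21, 21, 21, 21] [] [] 100000 0 0 1700000 100000 50000 100000 100000 0 0 0

lemma s21_21_8_7_4 {n : ℕ} (hn : 5 ≤ n) : NoNd (d21_21_8_7.R : ℤ) d21_21_8_7.H n d21_21_8_7.a d21_21_8_7.b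
    (BlkD.inB (BlkD.upd (BlkD.upd (fun _ => 0) 0 2) 1 11)
      (BlkD.upd (BlkD.upd (BlkD.upd (BlkD.upd (fun _ => 21) 0 8) 2 7) 0 4) 0 2)) :=
  BlkD.tree_sound (BlkD.pairOk_sound k21_21_8_7) (by decide) hn t21_21_8_7_4 _ _ (by decide +kernel)

/-- certificates of the pair `(8, 7)`, part 5 -/
def t21_21_8_7_5 : BlkD.Tr :=
  .L 4 4 [4, 21, 21, 21, 21, 21, 21, 21] [] [] 100000 0 0 1700000 100000 50000 100000 100000 0 0 0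

lemma s21_21_8_7_5 {n : ℕ} (hn : 5 ≤ n) : NoNd (d21_21_8_7.R : ℤ) d21_21_8_7.H n d21_21_8_7.a d21_21_8_7.b
    (BlkD.inB (BlkD.upd (fun _ => 0) 0 3)
      (BlkD.upd (BlkD.upd (BlkD.upd (BlkD.upd (BlkD.upd (BlkD.upd (fun _ => 21) 0 8) 2 7) 0 4) 0 3) 1 10) 1 5)) :=
  BlkD.tree_sound (BlkD.pairOk_sound k21_21_8_7) (by decide) hn t21_21_8_7_5 _ _ (by decide +kernel)

/-- certificates of the pair `(8, 7)`, part 6 -/
def t21_21_8_7_6 : BlkD.Tr :=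
  .L 4 4 [4, 21, 21, 21, 21, 21, 21, 21] [142, 138, 134, 114, 100, 82] [] 100000 0 0 1700000 100000
    50000 100000 100000 0 0 0

lemma s21_21_8_7_6 {n : ℕ} (hn : 5 ≤ n) : NoNd (d21_21_8_7.R : ℤ) d21_21_8_7.H n d21_21_8_7.a d21_21_8_7.b
    (BlkD.inB (BlkD.upd (BlkD.upd (fun _ => 0) 0 3) 1 6)
      (BlkD.upd (BlkD.upd (BlkD.upd (BlkD.upd (BlkD.upd (BlkD.upd (BlkD.upd (BlkD.upd (fun _ => 21) 0 8) 2 7) 0 4) 0 3) 1 10) 1 8) 1 7) 1 6)) :=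
  BlkD.tree_sound (BlkD.pairOk_sound k21_21_8_7) (by decide) hn t21_21_8_7_6 _ _ (by decide +kernel)

/-- certificates of the pair `(8, 7)`, part 7 -/
def t21_21_8_7_7 : BlkD.Tr :=
  .L 4 4 [4, 21, 21, 21, 21, 21, 21, 21] [164, 160, 156, 152, 132, 118] [] 100000 0 0 1700000
    100000 50000 100000 100000 0 0 0

lemma s21_21_8_7_7 {n : ℕ} (hn : 5 ≤ n) : NoNd (d21_21_8_7.R : ℤ) d21_21_8_7.H n d21_21_8_7.a d21_21_8_7.b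
    (BlkD.inB (BlkD.upd (BlkD.upd (BlkD.upd (fun _ => 0) 0 3) 1 6) 1 7)
      (BlkD.upd (BlkD.upd (BlkD.upd (BlkD.upd (BlkD.upd (BlkD.upd (BlkD.upd (fun _ => 21) 0 8) 2 7) 0 4) 0 3) 1 10) 1 8) 1 7)) :=
  BlkD.tree_sound (BlkD.pairOk_sound k21_21_8_7) (by decide) hn t21_21_8_7_7 _ _ (by decide +kernel)

/-- certificates of the pair `(8, 7)`, part 8 -/
def t21_21_8_7_8 : BlkD.Tr :=
  .L 4 4 [4, 21, 21, 21, 21, 21, 21, 21] [184, 184, 180, 176, 172, 152] [] 100000 0 0 1700000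
    100000 50000 100000 100000 0 0 0

lemma s21_21_8_7_8 {n : ℕ} (hn : 5 ≤ n) : NoNd (d21_21_8_7.R : ℤ) d21_21_8_7.H n d21_21_8_7.a d21_21_8_7.b
    (BlkD.inB (BlkD.upd (BlkD.upd (BlkD.upd (fun _ => 0) 0 3) 1 6) 1 8)
      (BlkD.upd (BlkD.upd (BlkD.upd (BlkD.upd (BlkD.upd (BlkD.upd (fun _ => 21) 0 8) 2 7) 0 4) 0 3) 1 10) 1 8)) :=
  BlkD.tree_sound (BlkD.pairOk_sound k21_21_8_7) (by decide) hn t21_21_8_7_8 _ _ (by decide +kernel)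

/-- certificates of the pair `(8, 7)`, part 9 -/
def t21_21_8_7_9 : BlkD.Tr :=
  .S 1 9 (.L 4 4 [4, 21, 21, 21, 21, 21, 21, 21] [206, 206, 206, 202, 198, 194] [] 100000 0 0
    1700000 100000 50000 100000 100000 0 0 0) (.L 4 4 [4, 21, 21, 21, 21, 21, 21, 21] [230, 230,
    230, 230, 226, 222] [] 100000 0 0 1700000 100000 50000 100000 100000 0 0 0)

lemma s21_21_8_7_9 {n : ℕ} (hn : 5 ≤ n) : NoNd (d21_21_8_7.R : ℤ) d21_21_8_7.H n d21_21_8_7.a d21_21_8_7.b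
    (BlkD.inB (BlkD.upd (BlkD.upd (BlkD.upd (fun _ => 0) 0 3) 1 6) 1 9)
      (BlkD.upd (BlkD.upd (BlkD.upd (BlkD.upd (BlkD.upd (fun _ => 21) 0 8) 2 7) 0 4) 0 3) 1 10)) :=
  BlkD.tree_sound (BlkD.pairOk_sound k21_21_8_7) (by decide) hn t21_21_8_7_9 _ _ (by decide +kernel)

/-- certificates of the pair `(8, 7)`, part 10 -/
def t21_21_8_7_10 : BlkD.Tr :=
  .L 4 4 [4, 21, 21, 21, 21, 21, 21, 21] [] [] 100000 0 0 1700000 100000 50000 100000 100000 0 0 0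

lemma s21_21_8_7_10 {n : ℕ} (hn : 5 ≤ n) : NoNd (d21_21_8_7.R : ℤ) d21_21_8_7.H n d21_21_8_7.a d21_21_8_7.b
    (BlkD.inB (BlkD.upd (BlkD.upd (fun _ => 0) 0 3) 1 11)
      (BlkD.upd (BlkD.upd (BlkD.upd (BlkD.upd (fun _ => 21) 0 8) 2 7) 0 4) 0 3)) :=
  BlkD.tree_sound (BlkD.pairOk_sound k21_21_8_7) (by decide) hn t21_21_8_7_10 _ _ (by decide +kernel)

/-- certificates of the pair `(8, 7)`, part 11 -/
def t21_21_8_7_11 : BlkD.Tr :=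
  .S 1 2 (.L 4 4 [4, 21, 21, 21, 21, 21, 21, 21] [] [] 100000 0 0 1700000 100000 50000 100000
    100000 0 0 0) (.S 1 4 (.L 4 4 [4, 21, 21, 21, 21, 21, 21, 21] [] [] 100000 0 0 1700000 100000
    50000 100000 100000 0 0 0) (.L 4 4 [4, 21, 21, 21, 21, 21, 21, 21] [132, 128, 108, 94, 76, 60]
    [] 100000 0 0 1700000 100000 50000 100000 100000 0 0 0))

lemma s21_21_8_7_11 {n : ℕ} (hn : 5 ≤ n) : NoNd (d21_21_8_7.R : ℤ) d21_21_8_7.H n d21_21_8_7.a d21_21_8_7.b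
    (BlkD.inB (BlkD.upd (BlkD.upd (fun _ => 0) 0 3) 0 4)
      (BlkD.upd (BlkD.upd (BlkD.upd (BlkD.upd (BlkD.upd (fun _ => 21) 0 8) 2 7) 0 4) 1 10) 1 5)) :=
  BlkD.tree_sound (BlkD.pairOk_sound k21_21_8_7) (by decide) hn t21_21_8_7_11 _ _ (by decide +kernel)

/-- certificates of the pair `(8, 7)`, part 12 -/
def t21_21_8_7_12 : BlkD.Tr :=
  .L 4 4 [4, 21, 21, 21, 21, 21, 21, 21] [154, 150, 146, 126, 112, 94] [] 100000 0 0 1700000 100000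
    50000 100000 100000 0 0 0

lemma s21_21_8_7_12 {n : ℕ} (hn : 5 ≤ n) : NoNd (d21_21_8_7.R : ℤ) d21_21_8_7.H n d21_21_8_7.a d21_21_8_7.b
    (BlkD.inB (BlkD.upd (BlkD.upd (BlkD.upd (fun _ => 0) 0 3) 0 4) 1 6)
      (BlkD.upd (BlkD.upd (BlkD.upd (BlkD.upd (BlkD.upd (BlkD.upd (BlkD.upd (fun _ => 21) 0 8) 2 7) 0 4) 1 10) 1 8) 1 7) 1 6)) :=
  BlkD.tree_sound (BlkD.pairOk_sound k21_21_8_7) (by decide) hn t21_21_8_7_12 _ _ (by decide +kernel)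

/-- certificates of the pair `(8, 7)`, part 13 -/
def t21_21_8_7_13 : BlkD.Tr :=
  .S 2 3 (.L 4 4 [4, 21, 21, 21, 21, 21, 21, 21] [178, 174, 170, 166, 146, 132] [] 100000 0 0
    1700000 100000 50000 100000 100000 0 0 0) (.L 4 4 [4, 21, 21, 21, 21, 21, 21, 21] [178, 174,
    170, 166, 146, 132] [] 100000 0 0 1700000 100000 50000 100000 100000 0 0 0)

lemma s21_21_8_7_13 {n : ℕ} (hn : 5 ≤ n) : NoNd (d21_21_8_7.R : ℤ) d21_21_8_7.H n d21_21_8_7.a d21_21_8_7.b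
    (BlkD.inB (BlkD.upd (BlkD.upd (BlkD.upd (BlkD.upd (fun _ => 0) 0 3) 0 4) 1 6) 1 7)
      (BlkD.upd (BlkD.upd (BlkD.upd (BlkD.upd (BlkD.upd (BlkD.upd (fun _ => 21) 0 8) 2 7) 0 4) 1 10) 1 8) 1 7)) :=
  BlkD.tree_sound (BlkD.pairOk_sound k21_21_8_7) (by decide) hn t21_21_8_7_13 _ _ (by decide +kernel)

/-- certificates of the pair `(8, 7)`, part 14 -/
def t21_21_8_7_14 : BlkD.Tr :=
  .L 4 4 [4, 21, 21, 21, 21, 21, 21, 21] [200, 200, 196, 192, 188, 168] [] 100000 0 0 1700000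
    100000 50000 100000 100000 0 0 0

lemma s21_21_8_7_14 {n : ℕ} (hn : 5 ≤ n) : NoNd (d21_21_8_7.R : ℤ) d21_21_8_7.H n d21_21_8_7.a d21_21_8_7.b
    (BlkD.inB (BlkD.upd (BlkD.upd (BlkD.upd (BlkD.upd (fun _ => 0) 0 3) 0 4) 1 6) 1 8)
      (BlkD.upd (BlkD.upd (BlkD.upd (BlkD.upd (BlkD.upd (fun _ => 21) 0 8) 2 7) 0 4) 1 10) 1 8)) :=
  BlkD.tree_sound (BlkD.pairOk_sound k21_21_8_7) (by decide) hn t21_21_8_7_14 _ _ (by decide +kernel)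

/-- certificates of the pair `(8, 7)`, part 15 -/
def t21_21_8_7_15 : BlkD.Tr :=
  .S 1 9 (.L 4 4 [4, 21, 21, 21, 21, 21, 21, 21] [224, 224, 224, 220, 216, 212] [] 100000 0 0
    1700000 100000 50000 100000 100000 0 0 0) (.L 4 4 [4, 21, 21, 21, 21, 21, 21, 21] [250, 250,
    250, 250, 246, 242] [] 100000 0 0 1700000 100000 50000 100000 100000 0 0 0)

lemma s21_21_8_7_15 {n : ℕ} (hn : 5 ≤ n) : NoNd (d21_21_8_7.R : ℤ) d21_21_8_7.H n d21_21_8_7.a d21_21_8_7.b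
    (BlkD.inB (BlkD.upd (BlkD.upd (BlkD.upd (BlkD.upd (fun _ => 0) 0 3) 0 4) 1 6) 1 9)
      (BlkD.upd (BlkD.upd (BlkD.upd (BlkD.upd (fun _ => 21) 0 8) 2 7) 0 4) 1 10)) :=
  BlkD.tree_sound (BlkD.pairOk_sound k21_21_8_7) (by decide) hn t21_21_8_7_15 _ _ (by decide +kernel)

/-- certificates of the pair `(8, 7)`, part 16 -/
def t21_21_8_7_16 : BlkD.Tr :=
  .L 4 4 [4, 21, 21, 21, 21, 21, 21, 21] [] [] 100000 0 0 1700000 100000 50000 100000 100000 0 0 0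

lemma s21_21_8_7_16 {n : ℕ} (hn : 5 ≤ n) : NoNd (d21_21_8_7.R : ℤ) d21_21_8_7.H n d21_21_8_7.a d21_21_8_7.b
    (BlkD.inB (BlkD.upd (BlkD.upd (BlkD.upd (fun _ => 0) 0 3) 0 4) 1 11)
      (BlkD.upd (BlkD.upd (BlkD.upd (fun _ => 21) 0 8) 2 7) 0 4)) :=
  BlkD.tree_sound (BlkD.pairOk_sound k21_21_8_7) (by decide) hn t21_21_8_7_16 _ _ (by decide +kernel)

/-- certificates of the pair `(8, 7)`, part 17 -/
def t21_21_8_7_17 : BlkD.Tr :=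
  .L 4 4 [4, 21, 21, 21, 21, 21, 21, 21] [] [] 100000 0 0 1700000 100000 50000 100000 100000 0 0 0

lemma s21_21_8_7_17 {n : ℕ} (hn : 5 ≤ n) : NoNd (d21_21_8_7.R : ℤ) d21_21_8_7.H n d21_21_8_7.a d21_21_8_7.b
    (BlkD.inB (BlkD.upd (fun _ => 0) 0 5)
      (BlkD.upd (BlkD.upd (BlkD.upd (BlkD.upd (BlkD.upd (BlkD.upd (BlkD.upd (fun _ => 21) 0 8) 2 7) 0 6) 0 5) 1 10) 1 5) 1 2)) :=
  BlkD.tree_sound (BlkD.pairOk_sound k21_21_8_7) (by decide) hn t21_21_8_7_17 _ _ (by decide +kernel)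

/-- certificates of the pair `(8, 7)`, part 18 -/
def t21_21_8_7_18 : BlkD.Tr :=
  .L 4 4 [4, 21, 21, 21, 21, 21, 21, 21] [] [] 100000 0 0 1700000 100000 50000 100000 100000 0 0 0

lemma s21_21_8_7_18 {n : ℕ} (hn : 5 ≤ n) : NoNd (d21_21_8_7.R : ℤ) d21_21_8_7.H n d21_21_8_7.a d21_21_8_7.b
    (BlkD.inB (BlkD.upd (BlkD.upd (fun _ => 0) 0 5) 1 3)
      (BlkD.upd (BlkD.upd (BlkD.upd (BlkD.upd (BlkD.upd (BlkD.upd (BlkD.upd (fun _ => 21) 0 8) 2 7) 0 6) 0 5) 1 10) 1 5) 1 4)) :=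
  BlkD.tree_sound (BlkD.pairOk_sound k21_21_8_7) (by decide) hn t21_21_8_7_18 _ _ (by decide +kernel)

/-- certificates of the pair `(8, 7)`, part 19 -/
def t21_21_8_7_19 : BlkD.Tr :=
  .L 4 4 [4, 21, 21, 21, 21, 21, 21, 21] [142, 138, 118, 104, 86, 70] [] 100000 0 0 1700000 100000
    50000 100000 100000 0 0 0

lemma s21_21_8_7_19 {n : ℕ} (hn : 5 ≤ n) : NoNd (d21_21_8_7.R : ℤ) d21_21_8_7.H n d21_21_8_7.a d21_21_8_7.b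
    (BlkD.inB (BlkD.upd (BlkD.upd (BlkD.upd (fun _ => 0) 0 5) 1 3) 1 5)
      (BlkD.upd (BlkD.upd (BlkD.upd (BlkD.upd (BlkD.upd (BlkD.upd (fun _ => 21) 0 8) 2 7) 0 6) 0 5) 1 10) 1 5)) :=
  BlkD.tree_sound (BlkD.pairOk_sound k21_21_8_7) (by decide) hn t21_21_8_7_19 _ _ (by decide +kernel)

/-- certificates of the pair `(8, 7)`, part 20 -/
def t21_21_8_7_20 : BlkD.Tr :=
  .S 1 6 (.L 4 4 [4, 21, 21, 21, 21, 21, 21, 21] [166, 162, 158, 138, 124, 106] [] 100000 0 0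
    1700000 100000 50000 100000 100000 0 0 0) (.L 4 4 [4, 21, 21, 21, 21, 21, 21, 21] [192, 188,
    184, 180, 160, 146] [] 100000 0 0 1700000 100000 50000 100000 100000 0 0 0)

lemma s21_21_8_7_20 {n : ℕ} (hn : 5 ≤ n) : NoNd (d21_21_8_7.R : ℤ) d21_21_8_7.H n d21_21_8_7.a d21_21_8_7.b
    (BlkD.inB (BlkD.upd (BlkD.upd (fun _ => 0) 0 5) 1 6)
      (BlkD.upd (BlkD.upd (BlkD.upd (BlkD.upd (BlkD.upd (BlkD.upd (BlkD.upd (fun _ => 21) 0 8) 2 7) 0 6) 0 5) 1 10) 1 8) 1 7)) :=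
  BlkD.tree_sound (BlkD.pairOk_sound k21_21_8_7) (by decide) hn t21_21_8_7_20 _ _ (by decide +kernel)

/-- certificates of the pair `(8, 7)`, part 21 -/
def t21_21_8_7_21 : BlkD.Tr :=
  .L 4 4 [4, 21, 21, 21, 21, 21, 21, 21] [216, 216, 212, 208, 204, 184] [] 100000 0 0 1700000
    100000 50000 100000 100000 0 0 0

lemma s21_21_8_7_21 {n : ℕ} (hn : 5 ≤ n) : NoNd (d21_21_8_7.R : ℤ) d21_21_8_7.H n d21_21_8_7.a d21_21_8_7.b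
    (BlkD.inB (BlkD.upd (BlkD.upd (BlkD.upd (fun _ => 0) 0 5) 1 6) 1 8)
      (BlkD.upd (BlkD.upd (BlkD.upd (BlkD.upd (BlkD.upd (BlkD.upd (fun _ => 21) 0 8) 2 7) 0 6) 0 5) 1 10) 1 8)) :=
  BlkD.tree_sound (BlkD.pairOk_sound k21_21_8_7) (by decide) hn t21_21_8_7_21 _ _ (by decide +kernel)

/-- certificates of the pair `(8, 7)`, part 22 -/
def t21_21_8_7_22 : BlkD.Tr :=
  .L 4 4 [4, 21, 21, 21, 21, 21, 21, 21] [] [] 100000 0 0 1700000 100000 50000 100000 100000 0 0 0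

lemma s21_21_8_7_22 {n : ℕ} (hn : 5 ≤ n) : NoNd (d21_21_8_7.R : ℤ) d21_21_8_7.H n d21_21_8_7.a d21_21_8_7.b
    (BlkD.inB (BlkD.upd (BlkD.upd (BlkD.upd (fun _ => 0) 0 5) 1 6) 1 9)
      (BlkD.upd (BlkD.upd (BlkD.upd (BlkD.upd (BlkD.upd (fun _ => 21) 0 8) 2 7) 0 6) 0 5) 1 10)) :=
  BlkD.tree_sound (BlkD.pairOk_sound k21_21_8_7) (by decide) hn t21_21_8_7_22 _ _ (by decide +kernel)

/-- certificates of the pair `(8, 7)`, part 23 -/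
def t21_21_8_7_23 : BlkD.Tr :=
  .L 4 4 [4, 21, 21, 21, 21, 21, 21, 21] [] [] 100000 0 0 1700000 100000 50000 100000 100000 0 0 0

lemma s21_21_8_7_23 {n : ℕ} (hn : 5 ≤ n) : NoNd (d21_21_8_7.R : ℤ) d21_21_8_7.H n d21_21_8_7.a d21_21_8_7.b
    (BlkD.inB (BlkD.upd (BlkD.upd (fun _ => 0) 0 5) 1 11)
      (BlkD.upd (BlkD.upd (BlkD.upd (BlkD.upd (fun _ => 21) 0 8) 2 7) 0 6) 0 5)) :=
  BlkD.tree_sound (BlkD.pairOk_sound k21_21_8_7) (by decide) hn t21_21_8_7_23 _ _ (by decide +kernel)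

/-- certificates of the pair `(8, 7)`, part 24 -/
def t21_21_8_7_24 : BlkD.Tr :=
  .L 4 4 [4, 21, 21, 21, 21, 21, 21, 21] [] [] 100000 0 0 1700000 100000 50000 100000 100000 0 0 0

lemma s21_21_8_7_24 {n : ℕ} (hn : 5 ≤ n) : NoNd (d21_21_8_7.R : ℤ) d21_21_8_7.H n d21_21_8_7.a d21_21_8_7.b
    (BlkD.inB (BlkD.upd (BlkD.upd (fun _ => 0) 0 5) 0 6)
      (BlkD.upd (BlkD.upd (BlkD.upd (BlkD.upd (BlkD.upd (BlkD.upd (fun _ => 21) 0 8) 2 7) 0 6) 1 10) 1 5) 1 2)) :=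
  BlkD.tree_sound (BlkD.pairOk_sound k21_21_8_7) (by decide) hn t21_21_8_7_24 _ _ (by decide +kernel)

/-- certificates of the pair `(8, 7)`, part 25 -/
def t21_21_8_7_25 : BlkD.Tr :=
  .S 1 4 (.L 4 4 [4, 21, 21, 21, 21, 21, 21, 21] [] [] 100000 0 0 1700000 100000 50000 100000
    100000 0 0 0) (.L 4 4 [4, 21, 21, 21, 21, 21, 21, 21] [152, 148, 128, 114, 96, 80] [] 100000 0
    0 1700000 100000 50000 100000 100000 0 0 0)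

lemma s21_21_8_7_25 {n : ℕ} (hn : 5 ≤ n) : NoNd (d21_21_8_7.R : ℤ) d21_21_8_7.H n d21_21_8_7.a d21_21_8_7.b
    (BlkD.inB (BlkD.upd (BlkD.upd (BlkD.upd (fun _ => 0) 0 5) 0 6) 1 3)
      (BlkD.upd (BlkD.upd (BlkD.upd (BlkD.upd (BlkD.upd (fun _ => 21) 0 8) 2 7) 0 6) 1 10) 1 5)) :=
  BlkD.tree_sound (BlkD.pairOk_sound k21_21_8_7) (by decide) hn t21_21_8_7_25 _ _ (by decide +kernel)

/-- certificates of the pair `(8, 7)`, part 26 -/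
def t21_21_8_7_26 : BlkD.Tr :=
  .L 4 4 [4, 21, 21, 21, 21, 21, 21, 21] [] [] 100000 0 0 1700000 100000 50000 100000 100000 0 0 0

lemma s21_21_8_7_26 {n : ℕ} (hn : 5 ≤ n) : NoNd (d21_21_8_7.R : ℤ) d21_21_8_7.H n d21_21_8_7.a d21_21_8_7.b
    (BlkD.inB (BlkD.upd (BlkD.upd (BlkD.upd (fun _ => 0) 0 5) 0 6) 1 6)
      (BlkD.upd (BlkD.upd (BlkD.upd (BlkD.upd (fun _ => 21) 0 8) 2 7) 0 6) 1 10)) :=
  BlkD.tree_sound (BlkD.pairOk_sound k21_21_8_7) (by decide) hn t21_21_8_7_26 _ _ (by decide +kernel)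

/-- certificates of the pair `(8, 7)`, part 27 -/
def t21_21_8_7_27 : BlkD.Tr :=
  .L 4 4 [4, 21, 21, 21, 21, 21, 21, 21] [] [] 100000 0 0 1700000 100000 50000 100000 100000 0 0 0

lemma s21_21_8_7_27 {n : ℕ} (hn : 5 ≤ n) : NoNd (d21_21_8_7.R : ℤ) d21_21_8_7.H n d21_21_8_7.a d21_21_8_7.b
    (BlkD.inB (BlkD.upd (BlkD.upd (BlkD.upd (fun _ => 0) 0 5) 0 6) 1 11)
      (BlkD.upd (BlkD.upd (BlkD.upd (fun _ => 21) 0 8) 2 7) 0 6)) :=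
  BlkD.tree_sound (BlkD.pairOk_sound k21_21_8_7) (by decide) hn t21_21_8_7_27 _ _ (by decide +kernel)

/-- certificates of the pair `(8, 7)`, part 28 -/
def t21_21_8_7_28 : BlkD.Tr :=
  .L 4 4 [4, 21, 21, 21, 21, 21, 21, 21] [] [] 100000 0 0 1700000 100000 50000 100000 100000 0 0 0

lemma s21_21_8_7_28 {n : ℕ} (hn : 5 ≤ n) : NoNd (d21_21_8_7.R : ℤ) d21_21_8_7.H n d21_21_8_7.a d21_21_8_7.b
    (BlkD.inB (BlkD.upd (BlkD.upd (fun _ => 0) 0 5) 0 7)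
      (BlkD.upd (BlkD.upd (fun _ => 21) 0 8) 2 7)) :=
  BlkD.tree_sound (BlkD.pairOk_sound k21_21_8_7) (by decide) hn t21_21_8_7_28 _ _ (by decide +kernel)

/-- certificates of the pair `(8, 7)`, part 29 -/
def t21_21_8_7_29 : BlkD.Tr :=
  .E 1

lemma s21_21_8_7_29 {n : ℕ} (hn : 5 ≤ n) : NoNd (d21_21_8_7.R : ℤ) d21_21_8_7.H n d21_21_8_7.a d21_21_8_7.b
    (BlkD.inB (BlkD.upd (fun _ => 0) 2 8)
      (BlkD.upd (fun _ => 21) 0 8)) :=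
  BlkD.tree_sound (BlkD.pairOk_sound k21_21_8_7) (by decide) hn t21_21_8_7_29 _ _ (by decide +kernel)

/-- certificates of the pair `(8, 7)`, part 30 -/
def t21_21_8_7_30 : BlkD.Tr :=
  .E 0

lemma s21_21_8_7_30 {n : ℕ} (hn : 5 ≤ n) : NoNd (d21_21_8_7.R : ℤ) d21_21_8_7.H n d21_21_8_7.a d21_21_8_7.b
    (BlkD.inB (BlkD.upd (fun _ => 0) 0 9)
      (fun _ => 21)) :=
  BlkD.tree_sound (BlkD.pairOk_sound k21_21_8_7) (by decide) hn t21_21_8_7_30 _ _ (by decide +kernel)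

lemma pr21_21_8_7 {n : ℕ} (hn : 5 ≤ n) : NoPr ((21 : ℕ) : ℤ) ((21 : ℕ) : ℤ) n 8 7 :=
  BlkD.of_root (R := d21_21_8_7.R) (H := d21_21_8_7.H) (a := d21_21_8_7.a) (b := d21_21_8_7.b) (q := 3) (by decide) hn
    (BlkD.sp 0 8 (BlkD.sp 2 7 (BlkD.sp 0 4 (BlkD.sp 0 2 (BlkD.sp 0 1 (s21_21_8_7_1 hn) (BlkD.sp 1
      10 (BlkD.sp 1 5 (s21_21_8_7_2 hn) (s21_21_8_7_3 hn)) (s21_21_8_7_4 hn))) (BlkD.sp 0 3
      (BlkD.sp 1 10 (BlkD.sp 1 5 (s21_21_8_7_5 hn) (BlkD.sp 1 8 (BlkD.sp 1 7 (BlkD.sp 1 6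
      (s21_21_8_7_6 hn) (s21_21_8_7_7 hn)) (s21_21_8_7_8 hn)) (s21_21_8_7_9 hn))) (s21_21_8_7_10
      hn)) (BlkD.sp 1 10 (BlkD.sp 1 5 (s21_21_8_7_11 hn) (BlkD.sp 1 8 (BlkD.sp 1 7 (BlkD.sp 1 6
      (s21_21_8_7_12 hn) (s21_21_8_7_13 hn)) (s21_21_8_7_14 hn)) (s21_21_8_7_15 hn)))
      (s21_21_8_7_16 hn)))) (BlkD.sp 0 6 (BlkD.sp 0 5 (BlkD.sp 1 10 (BlkD.sp 1 5 (BlkD.sp 1 2
      (s21_21_8_7_17 hn) (BlkD.sp 1 4 (s21_21_8_7_18 hn) (s21_21_8_7_19 hn))) (BlkD.sp 1 8 (BlkD.sp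
      1 7 (s21_21_8_7_20 hn) (s21_21_8_7_21 hn)) (s21_21_8_7_22 hn))) (s21_21_8_7_23 hn)) (BlkD.sp
      1 10 (BlkD.sp 1 5 (BlkD.sp 1 2 (s21_21_8_7_24 hn) (s21_21_8_7_25 hn)) (s21_21_8_7_26 hn))
      (s21_21_8_7_27 hn))) (s21_21_8_7_28 hn))) (s21_21_8_7_29 hn)) (s21_21_8_7_30 hn))

/-- the numbers of the pair `(9, 0)`, `R = 21`, `H = 21` -/
def d21_21_9_0 : BlkD.Pd :=
  ⟨21, 21, 3, 9, 0, 9, 0, 1, 0, 4, 4, 0, 0, 4, 4, 0, [0, 4, 8, 12, 16, 20, 24, 28, 32, 36], [0, 4,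
    8, 12, 16, 20, 24, 28, 32, 36], [⟨1, 1, 1, 4, 8, [0, 4], [0, 4]⟩]⟩

/-- the certificates of the pair `(9, 0)` -/
def t21_21_9_0 : BlkD.Tr :=
  .S 0 9 (.S 2 0 (.S 0 4 (.L 4 4 [4] [] [] 100000 0 0 1094737 47368 0 57895 0 0 0 0) (.L 4 4 [4] []
    [] 100000 0 0 1094737 47368 0 57895 0 0 0 0)) (.E 1)) (.E 0)

lemma pr21_21_9_0 {n : ℕ} (hn : 5 ≤ n) : NoPr ((21 : ℕ) : ℤ) ((21 : ℕ) : ℤ) n 9 0 :=
  BlkD.pair_sound (d := d21_21_9_0) (by decide +kernel) hn (by decide) (tr := t21_21_9_0)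
    (by decide +kernel) rfl rfl rfl rfl

end BlkC

end Pool.Agent.Lib.MP_f04ccf_co
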