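import Pool.Agent.Lib.MP_f04ccf_co.M.BlkT

/-!
MP_f04ccf_co, block certificate, data `R = 21`, `H = 21`, part 14 (generated, helper99:
bd10.cpp, gen2.py).
-/

set_option autoImplicit false
set_option maxRecDepth 100000

namespace Pool.Agent.Lib.MP_f04ccf_co

namespace BlkC

/-- the numbers of the pair `(9, 1)`, `R = 21`, `H = 21` -/
def d21_21_9_1 : BlkD.Pd :=
  ⟨21, 21, 3, 9, 1, 8, 1, 1, 0, 4, 8, 0, 0, 4, 4, 0, [0, 8, 16, 24, 32, 32, 32, 32, 32], [0, 4, 8,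
    12, 16, 20, 24, 28, 32], [⟨1, 1, 1, 4, 8, [0, 4], [0, 4]⟩, ⟨1, 1, 1, 4, 12, [0, 8], [0, 4]⟩]⟩

lemma k21_21_9_1 : BlkD.pairOk d21_21_9_1 = true := by decide +kernel

/-- certificates of the pair `(9, 1)`, part 1 -/
def t21_21_9_1_1 : BlkD.Tr :=
  .S 0 1 (.L 4 6 [4, 4] [] [] 100000 0 0 1175000 50000 0 75000 0 0 0 0) (.L 4 6 [4, 4] [] [] 100000
    0 0 1175000 50000 0 75000 0 0 0 0)

lemma s21_21_9_1_1 {n : ℕ} (hn : 5 ≤ n) : NoNd (d21_21_9_1.R : ℤ) d21_21_9_1.H n d21_21_9_1.a d21_21_9_1.b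
    (BlkD.inB (fun _ => 0)
      (BlkD.upd (BlkD.upd (BlkD.upd (BlkD.upd (fun _ => 21) 0 9) 2 1) 0 4) 0 2)) :=
  BlkD.tree_sound (BlkD.pairOk_sound k21_21_9_1) (by decide) hn t21_21_9_1_1 _ _ (by decide +kernel)

/-- certificates of the pair `(9, 1)`, part 2 -/
def t21_21_9_1_2 : BlkD.Tr :=
  .L 4 6 [4, 4] [] [] 100000 0 0 1175000 50000 0 75000 0 0 0 0

lemma s21_21_9_1_2 {n : ℕ} (hn : 5 ≤ n) : NoNd (d21_21_9_1.R : ℤ) d21_21_9_1.H n d21_21_9_1.a d21_21_9_1.b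
    (BlkD.inB (BlkD.upd (fun _ => 0) 0 3)
      (BlkD.upd (BlkD.upd (BlkD.upd (fun _ => 21) 0 9) 2 1) 0 4)) :=
  BlkD.tree_sound (BlkD.pairOk_sound k21_21_9_1) (by decide) hn t21_21_9_1_2 _ _ (by decide +kernel)

/-- certificates of the pair `(9, 1)`, part 3 -/
def t21_21_9_1_3 : BlkD.Tr :=
  .L 4 6 [4, 4] [] [] 100000 0 0 1175000 50000 0 75000 0 0 0 0

lemma s21_21_9_1_3 {n : ℕ} (hn : 5 ≤ n) : NoNd (d21_21_9_1.R : ℤ) d21_21_9_1.H n d21_21_9_1.a d21_21_9_1.b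
    (BlkD.inB (BlkD.upd (fun _ => 0) 0 5)
      (BlkD.upd (BlkD.upd (fun _ => 21) 0 9) 2 1)) :=
  BlkD.tree_sound (BlkD.pairOk_sound k21_21_9_1) (by decide) hn t21_21_9_1_3 _ _ (by decide +kernel)

/-- certificates of the pair `(9, 1)`, part 4 -/
def t21_21_9_1_4 : BlkD.Tr :=
  .E 1

lemma s21_21_9_1_4 {n : ℕ} (hn : 5 ≤ n) : NoNd (d21_21_9_1.R : ℤ) d21_21_9_1.H n d21_21_9_1.a d21_21_9_1.b
    (BlkD.inB (BlkD.upd (fun _ => 0) 2 2)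
      (BlkD.upd (fun _ => 21) 0 9)) :=
  BlkD.tree_sound (BlkD.pairOk_sound k21_21_9_1) (by decide) hn t21_21_9_1_4 _ _ (by decide +kernel)

/-- certificates of the pair `(9, 1)`, part 5 -/
def t21_21_9_1_5 : BlkD.Tr :=
  .E 0

lemma s21_21_9_1_5 {n : ℕ} (hn : 5 ≤ n) : NoNd (d21_21_9_1.R : ℤ) d21_21_9_1.H n d21_21_9_1.a d21_21_9_1.b
    (BlkD.inB (BlkD.upd (fun _ => 0) 0 10)
      (fun _ => 21)) :=
  BlkD.tree_sound (BlkD.pairOk_sound k21_21_9_1) (by decide) hn t21_21_9_1_5 _ _ (by decide +kernel)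

lemma pr21_21_9_1 {n : ℕ} (hn : 5 ≤ n) : NoPr ((21 : ℕ) : ℤ) ((21 : ℕ) : ℤ) n 9 1 :=
  BlkD.of_root (R := d21_21_9_1.R) (H := d21_21_9_1.H) (a := d21_21_9_1.a) (b := d21_21_9_1.b) (q := 3) (by decide) hn
    (BlkD.sp 0 9 (BlkD.sp 2 1 (BlkD.sp 0 4 (BlkD.sp 0 2 (s21_21_9_1_1 hn) (s21_21_9_1_2 hn))
      (s21_21_9_1_3 hn)) (s21_21_9_1_4 hn)) (s21_21_9_1_5 hn))

/-- the numbers of the pair `(9, 2)`, `R = 21`, `H = 21` -/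
def d21_21_9_2 : BlkD.Pd :=
  ⟨21, 21, 3, 9, 2, 7, 2, 2, 4, 2, 10, 0, 3, 1, 6, 0, [0, 10, 20, 26, 30, 34, 38, 42], [0, 6, 12,
    16, 19, 22, 25, 28], [⟨1, 1, 1, 4, 8, [0, 4], [0, 4]⟩, ⟨1, 1, 1, 4, 12, [0, 8], [0, 4]⟩, ⟨2, 1,
    1, 6, 20, [0, 10, 14], [0, 6]⟩]⟩

lemma k21_21_9_2 : BlkD.pairOk d21_21_9_2 = true := by decide +kernel

/-- certificates of the pair `(9, 2)`, part 1 -/
def t21_21_9_2_1 : BlkD.Tr :=
  .L 4 6 [4, 4, 5] [] [] 100000 50000 50000 600000 100000 0 100000 0 0 0 0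

lemma s21_21_9_2_1 {n : ℕ} (hn : 5 ≤ n) : NoNd (d21_21_9_2.R : ℤ) d21_21_9_2.H n d21_21_9_2.a d21_21_9_2.b
    (BlkD.inB (fun _ => 0)
      (BlkD.upd (BlkD.upd (BlkD.upd (BlkD.upd (BlkD.upd (BlkD.upd (fun _ => 21) 0 9) 2 2) 0 4) 0 2) 0 1) 0 0)) :=
  BlkD.tree_sound (BlkD.pairOk_sound k21_21_9_2) (by decide) hn t21_21_9_2_1 _ _ (by decide +kernel)

/-- certificates of the pair `(9, 2)`, part 2 -/
def t21_21_9_2_2 : BlkD.Tr :=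
  .S 1 5 (.L 4 6 [4, 4, 5] [] [] 100000 50000 50000 600000 100000 0 100000 0 0 0 0) (.L 4 6 [4, 4,
    5] [] [] 100000 50000 50000 600000 100000 0 100000 0 0 0 0)

lemma s21_21_9_2_2 {n : ℕ} (hn : 5 ≤ n) : NoNd (d21_21_9_2.R : ℤ) d21_21_9_2.H n d21_21_9_2.a d21_21_9_2.b
    (BlkD.inB (BlkD.upd (fun _ => 0) 0 1)
      (BlkD.upd (BlkD.upd (BlkD.upd (BlkD.upd (BlkD.upd (BlkD.upd (fun _ => 21) 0 9) 2 2) 0 4) 0 2) 0 1) 1 10)) :=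
  BlkD.tree_sound (BlkD.pairOk_sound k21_21_9_2) (by decide) hn t21_21_9_2_2 _ _ (by decide +kernel)

/-- certificates of the pair `(9, 2)`, part 3 -/
def t21_21_9_2_3 : BlkD.Tr :=
  .L 4 6 [4, 4, 5] [] [] 100000 50000 50000 600000 100000 0 100000 0 0 0 0

lemma s21_21_9_2_3 {n : ℕ} (hn : 5 ≤ n) : NoNd (d21_21_9_2.R : ℤ) d21_21_9_2.H n d21_21_9_2.a d21_21_9_2.b
    (BlkD.inB (BlkD.upd (BlkD.upd (fun _ => 0) 0 1) 1 11)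
      (BlkD.upd (BlkD.upd (BlkD.upd (BlkD.upd (BlkD.upd (fun _ => 21) 0 9) 2 2) 0 4) 0 2) 0 1)) :=
  BlkD.tree_sound (BlkD.pairOk_sound k21_21_9_2) (by decide) hn t21_21_9_2_3 _ _ (by decide +kernel)

/-- certificates of the pair `(9, 2)`, part 4 -/
def t21_21_9_2_4 : BlkD.Tr :=
  .S 1 5 (.L 4 6 [4, 4, 5] [] [] 100000 50000 50000 600000 100000 0 100000 0 0 0 0) (.L 4 6 [4, 4,
    5] [] [] 100000 50000 50000 600000 100000 0 100000 0 0 0 0)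

lemma s21_21_9_2_4 {n : ℕ} (hn : 5 ≤ n) : NoNd (d21_21_9_2.R : ℤ) d21_21_9_2.H n d21_21_9_2.a d21_21_9_2.b
    (BlkD.inB (BlkD.upd (fun _ => 0) 0 2)
      (BlkD.upd (BlkD.upd (BlkD.upd (BlkD.upd (BlkD.upd (fun _ => 21) 0 9) 2 2) 0 4) 0 2) 1 10)) :=
  BlkD.tree_sound (BlkD.pairOk_sound k21_21_9_2) (by decide) hn t21_21_9_2_4 _ _ (by decide +kernel)

/-- certificates of the pair `(9, 2)`, part 5 -/
def t21_21_9_2_5 : BlkD.Tr :=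
  .L 4 6 [4, 4, 5] [] [] 100000 50000 50000 600000 100000 0 100000 0 0 0 0

lemma s21_21_9_2_5 {n : ℕ} (hn : 5 ≤ n) : NoNd (d21_21_9_2.R : ℤ) d21_21_9_2.H n d21_21_9_2.a d21_21_9_2.b
    (BlkD.inB (BlkD.upd (BlkD.upd (fun _ => 0) 0 2) 1 11)
      (BlkD.upd (BlkD.upd (BlkD.upd (BlkD.upd (fun _ => 21) 0 9) 2 2) 0 4) 0 2)) :=
  BlkD.tree_sound (BlkD.pairOk_sound k21_21_9_2) (by decide) hn t21_21_9_2_5 _ _ (by decide +kernel)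

/-- certificates of the pair `(9, 2)`, part 6 -/
def t21_21_9_2_6 : BlkD.Tr :=
  .S 1 5 (.L 4 6 [4, 4, 5] [] [] 100000 100000 100000 800000 100000 0 100000 0 0 0 0) (.L 4 6 [4,
    4, 5] [] [] 100000 100000 100000 800000 100000 0 100000 0 0 0 0)

lemma s21_21_9_2_6 {n : ℕ} (hn : 5 ≤ n) : NoNd (d21_21_9_2.R : ℤ) d21_21_9_2.H n d21_21_9_2.a d21_21_9_2.b
    (BlkD.inB (BlkD.upd (fun _ => 0) 0 3)
      (BlkD.upd (BlkD.upd (BlkD.upd (BlkD.upd (BlkD.upd (fun _ => 21) 0 9) 2 2) 0 4) 0 3) 1 10)) :=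
  BlkD.tree_sound (BlkD.pairOk_sound k21_21_9_2) (by decide) hn t21_21_9_2_6 _ _ (by decide +kernel)

/-- certificates of the pair `(9, 2)`, part 7 -/
def t21_21_9_2_7 : BlkD.Tr :=
  .L 4 6 [4, 4, 5] [] [] 100000 100000 100000 800000 100000 0 100000 0 0 0 0

lemma s21_21_9_2_7 {n : ℕ} (hn : 5 ≤ n) : NoNd (d21_21_9_2.R : ℤ) d21_21_9_2.H n d21_21_9_2.a d21_21_9_2.b
    (BlkD.inB (BlkD.upd (BlkD.upd (fun _ => 0) 0 3) 1 11)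
      (BlkD.upd (BlkD.upd (BlkD.upd (BlkD.upd (fun _ => 21) 0 9) 2 2) 0 4) 0 3)) :=
  BlkD.tree_sound (BlkD.pairOk_sound k21_21_9_2) (by decide) hn t21_21_9_2_7 _ _ (by decide +kernel)

/-- certificates of the pair `(9, 2)`, part 8 -/
def t21_21_9_2_8 : BlkD.Tr :=
  .S 1 17 (.S 1 8 (.L 4 6 [4, 4, 5] [] [] 100000 30000 30000 1180000 40000 0 40000 40000 0 0 0) (.S
    1 13 (.S 1 11 (.S 1 10 (.S 1 9 (.L 4 6 [4, 4, 5] [200, 196, 192, 188, 184, 180] [] 100000 50000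
    50000 1150000 50000 0 50000 50000 0 0 0) (.L 4 6 [4, 4, 5] [230, 226, 222, 218, 214, 210] []
    100000 0 0 1366670 33333 0 33333 33333 0 33333 33333)) (.L 4 6 [4, 4, 5] [262, 258, 254, 250,
    246, 242] [] 100000 39999 39998 1206669 53333 0 66667 33333 0 33333 33333)) (.S 1 12 (.L 4 6
    [4, 4, 5] [296, 292, 288, 284, 280, 276] [] 100000 50000 50000 1150000 50000 0 100000 50000 0 0
    0) (.L 4 6 [4, 4, 5] [332, 328, 324, 320, 316, 312] [] 100000 50000 49999 1114285 57143 0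
    100000 28571 0 28571 28571))) (.L 4 6 [4, 4, 5] [] [] 100000 16666 16665 1266669 33333 0 100000
    0 0 0 0))) (.E 0)

lemma s21_21_9_2_8 {n : ℕ} (hn : 5 ≤ n) : NoNd (d21_21_9_2.R : ℤ) d21_21_9_2.H n d21_21_9_2.a d21_21_9_2.b
    (BlkD.inB (BlkD.upd (BlkD.upd (fun _ => 0) 0 3) 0 4)
      (BlkD.upd (BlkD.upd (BlkD.upd (fun _ => 21) 0 9) 2 2) 0 4)) :=
  BlkD.tree_sound (BlkD.pairOk_sound k21_21_9_2) (by decide) hn t21_21_9_2_8 _ _ (by decide +kernel)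

/-- certificates of the pair `(9, 2)`, part 9 -/
def t21_21_9_2_9 : BlkD.Tr :=
  .S 1 4 (.L 4 6 [4, 4, 5] [] [] 100000 16666 16665 1066668 33333 0 33333 33333 0 0 0) (.S 1 6 (.L
    4 6 [4, 4, 5] [] [] 100000 8823 8822 1258826 23529 0 23529 23529 0 5882 5882) (.S 1 7 (.L 4 6
    [4, 4, 5] [160, 156, 152, 148, 142, 132] [] 100000 0 0 1325000 25000 0 25000 25000 0 25000
    25000) (.L 4 6 [4, 4, 5] [188, 184, 180, 176, 172, 166] [] 100000 3125 3125 1356250 31250 0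
    31250 25000 0 25000 25000)))

lemma s21_21_9_2_9 {n : ℕ} (hn : 5 ≤ n) : NoNd (d21_21_9_2.R : ℤ) d21_21_9_2.H n d21_21_9_2.a d21_21_9_2.b
    (BlkD.inB (BlkD.upd (fun _ => 0) 0 5)
      (BlkD.upd (BlkD.upd (BlkD.upd (BlkD.upd (BlkD.upd (BlkD.upd (BlkD.upd (fun _ => 21) 0 9) 2 2) 0 7) 0 6) 0 5) 1 16) 1 8)) :=
  BlkD.tree_sound (BlkD.pairOk_sound k21_21_9_2) (by decide) hn t21_21_9_2_9 _ _ (by decide +kernel)

/-- certificates of the pair `(9, 2)`, part 10 -/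
def t21_21_9_2_10 : BlkD.Tr :=
  .S 1 12 (.S 1 10 (.S 1 9 (.L 4 6 [4, 4, 5] [218, 214, 210, 206, 202, 198] [] 100000 5357 5356
    1364286 32143 0 78571 16071 0 25000 25000) (.S 2 1 (.S 2 0 (.L 4 6 [4, 4, 5] [250, 246, 242,
    238, 234, 230] [] 100000 50000 50000 1150000 50000 0 100000 50000 0 0 0) (.S 3 5 (.S 3 2 (.S 3
    1 (.L 4 6 [4, 4, 5] [250, 246, 242, 238, 234, 230] [] 100000 0 0 1366669 33333 0 66667 0 0
    33333 33333) (.S 4 10 (.S 4 5 (.L 4 6 [4, 4, 5] [230, 226, 220, 210, 200, 190] [22, 16, 6, 0,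
    0, 0] 100000 50000 50000 1120000 60000 0 100000 0 0 20000 20000) (.L 4 6 [4, 4, 5] [250, 246,
    242, 238, 234, 230] [22, 16, 6, 0, 0, 0] 100000 145455 0 0 81818 0 245455 0 0 0 0)) (.E 2)))
    (.E 1)) (.E 1))) (.S 3 4 (.S 3 2 (.S 3 1 (.S 3 0 (.L 4 6 [4, 4, 5] [250, 246, 242, 238, 234,
    230] [0, 0, 0, 0, 0, 0] 100000 10000 10000 1320000 40000 0 60000 0 0 20000 20000) (.S 4 10 (.S
    4 5 (.L 4 6 [4, 4, 5] [230, 226, 220, 210, 200, 190] [14, 4, 0, 0, 0, 0] 100000 50000 50000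
    1120000 60000 0 100000 0 0 20000 20000) (.L 4 6 [4, 4, 5] [250, 246, 242, 238, 234, 230] [14,
    4, 0, 0, 0, 0] 100000 145455 0 0 81818 0 245455 0 0 0 0)) (.E 2))) (.E 1)) (.E 1)) (.E 1))))
    (.S 1 11 (.L 4 6 [4, 4, 5] [284, 280, 276, 272, 268, 264] [] 100000 21428 21427 1228572 42857 0
    100000 14286 0 14286 14286) (.L 4 6 [4, 4, 5] [320, 316, 312, 308, 304, 300] [] 100000 50000 0
    950000 50000 0 150000 0 0 0 0))) (.L 4 6 [4, 4, 5] [] [] 100000 179412 0 0 55882 0 279412 0 0 0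
    0)

lemma s21_21_9_2_10 {n : ℕ} (hn : 5 ≤ n) : NoNd (d21_21_9_2.R : ℤ) d21_21_9_2.H n d21_21_9_2.a d21_21_9_2.b
    (BlkD.inB (BlkD.upd (BlkD.upd (fun _ => 0) 0 5) 1 9)
      (BlkD.upd (BlkD.upd (BlkD.upd (BlkD.upd (BlkD.upd (BlkD.upd (fun _ => 21) 0 9) 2 2) 0 7) 0 6) 0 5) 1 16)) :=
  BlkD.tree_sound (BlkD.pairOk_sound k21_21_9_2) (by decide) hn t21_21_9_2_10 _ _ (by decide +kernel)

/-- certificates of the pair `(9, 2)`, part 11 -/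
def t21_21_9_2_11 : BlkD.Tr :=
  .E 0

lemma s21_21_9_2_11 {n : ℕ} (hn : 5 ≤ n) : NoNd (d21_21_9_2.R : ℤ) d21_21_9_2.H n d21_21_9_2.a d21_21_9_2.b
    (BlkD.inB (BlkD.upd (BlkD.upd (fun _ => 0) 0 5) 1 17)
      (BlkD.upd (BlkD.upd (BlkD.upd (BlkD.upd (BlkD.upd (fun _ => 21) 0 9) 2 2) 0 7) 0 6) 0 5)) :=
  BlkD.tree_sound (BlkD.pairOk_sound k21_21_9_2) (by decide) hn t21_21_9_2_11 _ _ (by decide +kernel)

/-- certificates of the pair `(9, 2)`, part 12 -/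
def t21_21_9_2_12 : BlkD.Tr :=
  .S 1 15 (.S 1 7 (.S 1 3 (.L 4 6 [4, 4, 5] [] [] 100000 0 0 1200000 0 0 0 0 0 0 0) (.S 1 5 (.L 4 6
    [4, 4, 5] [] [] 100000 0 0 1300000 20000 0 20000 20000 0 20000 20000) (.S 1 6 (.L 4 6 [4, 4, 5]
    [146, 142, 138, 132, 122, 112] [] 100000 0 0 1328574 28571 0 28571 28571 0 28571 28571) (.L 4 6
    [4, 4, 5] [174, 170, 166, 162, 156, 146] [] 100000 0 0 1385261 30677 0 75299 26693 6773 26693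
    26693)))) (.S 1 11 (.S 1 9 (.S 1 8 (.L 4 6 [4, 4, 5] [204, 200, 196, 192, 188, 182] [] 100000
    16666 16665 1300002 33333 0 100000 33333 0 0 0) (.L 4 6 [4, 4, 5] [236, 232, 228, 224, 220,
    216] [] 100000 17857 17857 1257144 42857 0 92857 21429 0 17857 17857)) (.L 4 6 [4, 4, 5] [] []
    100000 23529 0 1135296 17647 0 123529 17647 0 0 0)) (.E 0))) (.E 0)

lemma s21_21_9_2_12 {n : ℕ} (hn : 5 ≤ n) : NoNd (d21_21_9_2.R : ℤ) d21_21_9_2.H n d21_21_9_2.a d21_21_9_2.b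
    (BlkD.inB (BlkD.upd (BlkD.upd (fun _ => 0) 0 5) 0 6)
      (BlkD.upd (BlkD.upd (BlkD.upd (BlkD.upd (fun _ => 21) 0 9) 2 2) 0 7) 0 6)) :=
  BlkD.tree_sound (BlkD.pairOk_sound k21_21_9_2) (by decide) hn t21_21_9_2_12 _ _ (by decide +kernel)

/-- certificates of the pair `(9, 2)`, part 13 -/
def t21_21_9_2_13 : BlkD.Tr :=
  .S 1 14 (.S 1 7 (.S 1 3 (.L 4 6 [4, 4, 5] [] [] 100000 0 0 1300000 0 0 0 0 0 0 0) (.S 1 5 (.L 4 6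
    [4, 4, 5] [] [] 100000 0 0 1379311 24138 0 86207 24138 10345 13793 13793) (.L 4 6 [4, 4, 5] []
    [] 100000 8334 8333 1333332 16667 0 100000 16667 0 0 0))) (.L 4 6 [4, 4, 5] [] [] 100000 45456
    1 981816 18182 0 145455 18182 0 0 0)) (.E 0)

lemma s21_21_9_2_13 {n : ℕ} (hn : 5 ≤ n) : NoNd (d21_21_9_2.R : ℤ) d21_21_9_2.H n d21_21_9_2.a d21_21_9_2.b
    (BlkD.inB (BlkD.upd (BlkD.upd (fun _ => 0) 0 5) 0 7)
      (BlkD.upd (BlkD.upd (BlkD.upd (fun _ => 21) 0 9) 2 2) 0 7)) :=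
  BlkD.tree_sound (BlkD.pairOk_sound k21_21_9_2) (by decide) hn t21_21_9_2_13 _ _ (by decide +kernel)

/-- certificates of the pair `(9, 2)`, part 14 -/
def t21_21_9_2_14 : BlkD.Tr :=
  .L 4 6 [4, 4, 5] [] [] 100000 0 0 1369232 11538 0 96154 3846 7692 3846 3846

lemma s21_21_9_2_14 {n : ℕ} (hn : 5 ≤ n) : NoNd (d21_21_9_2.R : ℤ) d21_21_9_2.H n d21_21_9_2.a d21_21_9_2.b
    (BlkD.inB (BlkD.upd (BlkD.upd (fun _ => 0) 0 5) 0 8)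
      (BlkD.upd (BlkD.upd (fun _ => 21) 0 9) 2 2)) :=
  BlkD.tree_sound (BlkD.pairOk_sound k21_21_9_2) (by decide) hn t21_21_9_2_14 _ _ (by decide +kernel)

/-- certificates of the pair `(9, 2)`, part 15 -/
def t21_21_9_2_15 : BlkD.Tr :=
  .E 1

lemma s21_21_9_2_15 {n : ℕ} (hn : 5 ≤ n) : NoNd (d21_21_9_2.R : ℤ) d21_21_9_2.H n d21_21_9_2.a d21_21_9_2.b
    (BlkD.inB (BlkD.upd (fun _ => 0) 2 3)
      (BlkD.upd (fun _ => 21) 0 9)) :=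
  BlkD.tree_sound (BlkD.pairOk_sound k21_21_9_2) (by decide) hn t21_21_9_2_15 _ _ (by decide +kernel)

/-- certificates of the pair `(9, 2)`, part 16 -/
def t21_21_9_2_16 : BlkD.Tr :=
  .E 0

lemma s21_21_9_2_16 {n : ℕ} (hn : 5 ≤ n) : NoNd (d21_21_9_2.R : ℤ) d21_21_9_2.H n d21_21_9_2.a d21_21_9_2.b
    (BlkD.inB (BlkD.upd (fun _ => 0) 0 10)
      (fun _ => 21)) :=
  BlkD.tree_sound (BlkD.pairOk_sound k21_21_9_2) (by decide) hn t21_21_9_2_16 _ _ (by decide +kernel)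

lemma pr21_21_9_2 {n : ℕ} (hn : 5 ≤ n) : NoPr ((21 : ℕ) : ℤ) ((21 : ℕ) : ℤ) n 9 2 :=
  BlkD.of_root (R := d21_21_9_2.R) (H := d21_21_9_2.H) (a := d21_21_9_2.a) (b := d21_21_9_2.b) (q := 3) (by decide) hn
    (BlkD.sp 0 9 (BlkD.sp 2 2 (BlkD.sp 0 4 (BlkD.sp 0 2 (BlkD.sp 0 1 (BlkD.sp 0 0 (s21_21_9_2_1 hn)
      (BlkD.sp 1 10 (s21_21_9_2_2 hn) (s21_21_9_2_3 hn))) (BlkD.sp 1 10 (s21_21_9_2_4 hn)
      (s21_21_9_2_5 hn))) (BlkD.sp 0 3 (BlkD.sp 1 10 (s21_21_9_2_6 hn) (s21_21_9_2_7 hn))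
      (s21_21_9_2_8 hn))) (BlkD.sp 0 7 (BlkD.sp 0 6 (BlkD.sp 0 5 (BlkD.sp 1 16 (BlkD.sp 1 8
      (s21_21_9_2_9 hn) (s21_21_9_2_10 hn)) (s21_21_9_2_11 hn)) (s21_21_9_2_12 hn)) (s21_21_9_2_13
      hn)) (s21_21_9_2_14 hn))) (s21_21_9_2_15 hn)) (s21_21_9_2_16 hn))

end BlkC

end Pool.Agent.Lib.MP_f04ccf_co
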