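import Pool.Agent.Lib.MP_f04ccf_co.M.BlkT

/-!
MP_f04ccf_co, block certificate, data `R = 21`, `H = 21`, part 15 (generated, helper99:
bd10.cpp, gen2.py).
-/

set_option autoImplicit false
set_option maxRecDepth 100000

namespace Pool.Agent.Lib.MP_f04ccf_co

namespace BlkC

/-- the numbers of the pair `(9, 3)`, `R = 21`, `H = 21` -/
def d21_21_9_3 : BlkD.Pd :=
  ⟨21, 21, 3, 9, 3, 6, 3, 2, 1, 5, 12, 0, 2, 2, 8, 0, [0, 12, 24, 33, 34, 35, 36], [0, 8, 16, 18,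
    20, 22, 24], [⟨1, 1, 1, 4, 8, [0, 4], [0, 4]⟩, ⟨1, 1, 1, 4, 14, [0, 8], [0, 6]⟩, ⟨2, 1, 1, 4,
    20, [0, 10, 14], [0, 6]⟩, ⟨2, 1, 1, 4, 30, [0, 12, 22], [0, 8]⟩]⟩

lemma k21_21_9_3 : BlkD.pairOk d21_21_9_3 = true := by decide +kernel

/-- certificates of the pair `(9, 3)`, part 1 -/
def t21_21_9_3_1 : BlkD.Tr :=
  .L 5 8 [4, 4, 4, 5] [] [] 100000 125000 125000 950000 87500 0 100000 0 0 0 0

lemma s21_21_9_3_1 {n : ℕ} (hn : 5 ≤ n) : NoNd (d21_21_9_3.R : ℤ) d21_21_9_3.H n d21_21_9_3.a d21_21_9_3.b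
    (BlkD.inB (fun _ => 0)
      (BlkD.upd (BlkD.upd (BlkD.upd (BlkD.upd (BlkD.upd (BlkD.upd (fun _ => 21) 0 9) 2 3) 0 4) 0 2) 0 1) 0 0)) :=
  BlkD.tree_sound (BlkD.pairOk_sound k21_21_9_3) (by decide) hn t21_21_9_3_1 _ _ (by decide +kernel)

/-- certificates of the pair `(9, 3)`, part 2 -/
def t21_21_9_3_2 : BlkD.Tr :=
  .S 1 5 (.L 5 8 [4, 4, 4, 5] [] [] 100000 125000 125000 950000 87500 0 100000 0 0 0 0) (.L 5 8 [4,
    4, 4, 5] [] [] 100000 125000 125000 950000 87500 0 100000 0 0 0 0)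

lemma s21_21_9_3_2 {n : ℕ} (hn : 5 ≤ n) : NoNd (d21_21_9_3.R : ℤ) d21_21_9_3.H n d21_21_9_3.a d21_21_9_3.b
    (BlkD.inB (BlkD.upd (fun _ => 0) 0 1)
      (BlkD.upd (BlkD.upd (BlkD.upd (BlkD.upd (BlkD.upd (BlkD.upd (fun _ => 21) 0 9) 2 3) 0 4) 0 2) 0 1) 1 10)) :=
  BlkD.tree_sound (BlkD.pairOk_sound k21_21_9_3) (by decide) hn t21_21_9_3_2 _ _ (by decide +kernel)

/-- certificates of the pair `(9, 3)`, part 3 -/
def t21_21_9_3_3 : BlkD.Tr :=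
  .L 5 8 [4, 4, 4, 5] [] [] 100000 125000 125000 950000 87500 0 100000 0 0 0 0

lemma s21_21_9_3_3 {n : ℕ} (hn : 5 ≤ n) : NoNd (d21_21_9_3.R : ℤ) d21_21_9_3.H n d21_21_9_3.a d21_21_9_3.b
    (BlkD.inB (BlkD.upd (BlkD.upd (fun _ => 0) 0 1) 1 11)
      (BlkD.upd (BlkD.upd (BlkD.upd (BlkD.upd (BlkD.upd (fun _ => 21) 0 9) 2 3) 0 4) 0 2) 0 1)) :=
  BlkD.tree_sound (BlkD.pairOk_sound k21_21_9_3) (by decide) hn t21_21_9_3_3 _ _ (by decide +kernel)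

/-- certificates of the pair `(9, 3)`, part 4 -/
def t21_21_9_3_4 : BlkD.Tr :=
  .L 5 8 [4, 4, 4, 5] [] [] 100000 125000 125000 950000 87500 0 100000 0 0 0 0

lemma s21_21_9_3_4 {n : ℕ} (hn : 5 ≤ n) : NoNd (d21_21_9_3.R : ℤ) d21_21_9_3.H n d21_21_9_3.a d21_21_9_3.b
    (BlkD.inB (BlkD.upd (fun _ => 0) 0 2)
      (BlkD.upd (BlkD.upd (BlkD.upd (BlkD.upd (BlkD.upd (BlkD.upd (fun _ => 21) 0 9) 2 3) 0 4) 0 2) 1 10) 1 5)) :=
  BlkD.tree_sound (BlkD.pairOk_sound k21_21_9_3) (by decide) hn t21_21_9_3_4 _ _ (by decide +kernel)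

/-- certificates of the pair `(9, 3)`, part 5 -/
def t21_21_9_3_5 : BlkD.Tr :=
  .L 5 8 [4, 4, 4, 5] [] [] 100000 125000 125000 950000 87500 0 100000 0 0 0 0

lemma s21_21_9_3_5 {n : ℕ} (hn : 5 ≤ n) : NoNd (d21_21_9_3.R : ℤ) d21_21_9_3.H n d21_21_9_3.a d21_21_9_3.b
    (BlkD.inB (BlkD.upd (BlkD.upd (fun _ => 0) 0 2) 1 6)
      (BlkD.upd (BlkD.upd (BlkD.upd (BlkD.upd (BlkD.upd (fun _ => 21) 0 9) 2 3) 0 4) 0 2) 1 10)) :=
  BlkD.tree_sound (BlkD.pairOk_sound k21_21_9_3) (by decide) hn t21_21_9_3_5 _ _ (by decide +kernel)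

/-- certificates of the pair `(9, 3)`, part 6 -/
def t21_21_9_3_6 : BlkD.Tr :=
  .L 5 8 [4, 4, 4, 5] [] [] 100000 125000 125000 950000 87500 0 100000 0 0 0 0

lemma s21_21_9_3_6 {n : ℕ} (hn : 5 ≤ n) : NoNd (d21_21_9_3.R : ℤ) d21_21_9_3.H n d21_21_9_3.a d21_21_9_3.b
    (BlkD.inB (BlkD.upd (BlkD.upd (fun _ => 0) 0 2) 1 11)
      (BlkD.upd (BlkD.upd (BlkD.upd (BlkD.upd (fun _ => 21) 0 9) 2 3) 0 4) 0 2)) :=
  BlkD.tree_sound (BlkD.pairOk_sound k21_21_9_3) (by decide) hn t21_21_9_3_6 _ _ (by decide +kernel)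

/-- certificates of the pair `(9, 3)`, part 7 -/
def t21_21_9_3_7 : BlkD.Tr :=
  .L 5 8 [4, 4, 4, 5] [] [] 100000 53333 53332 1040000 40000 0 40000 20000 0 0 0

lemma s21_21_9_3_7 {n : ℕ} (hn : 5 ≤ n) : NoNd (d21_21_9_3.R : ℤ) d21_21_9_3.H n d21_21_9_3.a d21_21_9_3.b
    (BlkD.inB (BlkD.upd (fun _ => 0) 0 3)
      (BlkD.upd (BlkD.upd (BlkD.upd (BlkD.upd (BlkD.upd (BlkD.upd (BlkD.upd (fun _ => 21) 0 9) 2 3) 0 4) 0 3) 1 18) 1 9) 1 4)) :=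
  BlkD.tree_sound (BlkD.pairOk_sound k21_21_9_3) (by decide) hn t21_21_9_3_7 _ _ (by decide +kernel)

/-- certificates of the pair `(9, 3)`, part 8 -/
def t21_21_9_3_8 : BlkD.Tr :=
  .S 1 7 (.L 5 8 [4, 4, 4, 5] [] [] 100000 33334 33334 1337210 23256 0 23256 11628 0 39535 0) (.S 1
    8 (.L 5 8 [4, 4, 4, 5] [162, 161, 160, 159, 150, 140] [] 100000 52779 52779 1266666 41667 0
    41667 25000 0 25000 16667) (.L 5 8 [4, 4, 4, 5] [185, 184, 183, 182, 181, 172] [] 100000 53846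
    53845 1284616 46154 0 61538 23077 0 23077 7692))

lemma s21_21_9_3_8 {n : ℕ} (hn : 5 ≤ n) : NoNd (d21_21_9_3.R : ℤ) d21_21_9_3.H n d21_21_9_3.a d21_21_9_3.b
    (BlkD.inB (BlkD.upd (BlkD.upd (fun _ => 0) 0 3) 1 5)
      (BlkD.upd (BlkD.upd (BlkD.upd (BlkD.upd (BlkD.upd (BlkD.upd (fun _ => 21) 0 9) 2 3) 0 4) 0 3) 1 18) 1 9)) :=
  BlkD.tree_sound (BlkD.pairOk_sound k21_21_9_3) (by decide) hn t21_21_9_3_8 _ _ (by decide +kernel)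

/-- certificates of the pair `(9, 3)`, part 9 -/
def t21_21_9_3_9 : BlkD.Tr :=
  .S 1 14 (.S 1 12 (.S 1 11 (.S 1 10 (.L 5 8 [4, 4, 4, 5] [210, 209, 208, 207, 206, 205] [] 100000
    85186 85186 1166667 66667 0 85185 33333 0 11111 14815) (.L 5 8 [4, 4, 4, 5] [237, 236, 235,
    234, 233, 232] [] 100000 96970 96970 1136364 78788 0 81818 15152 0 6061 1515)) (.L 5 8 [4, 4,
    4, 5] [266, 265, 264, 263, 262, 261] [] 100000 66667 66666 1233331 66667 0 66667 33333 0 0 0))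
    (.S 1 13 (.L 5 8 [4, 4, 4, 5] [297, 296, 295, 294, 293, 292] [] 100000 300000 200000 200000
    200000 0 200000 0 0 0 0) (.L 5 8 [4, 4, 4, 5] [330, 329, 328, 327, 326, 325] [] 100000 300000
    200000 0 200000 0 200000 0 0 0 0))) (.S 1 16 (.S 1 15 (.L 5 8 [4, 4, 4, 5] [365, 364, 363, 362,
    361, 360] [] 100000 181818 18182 2 181818 0 181818 0 0 0 0) (.L 5 8 [4, 4, 4, 5] [402, 401,
    400, 399, 398, 397] [] 100000 175000 25000 0 175000 0 175000 0 0 0 0)) (.S 1 17 (.L 5 8 [4, 4,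
    4, 5] [441, 440, 439, 438, 437, 436] [] 100000 161538 38462 6 161538 0 161538 0 0 0 0) (.L 5 8
    [4, 4, 4, 5] [482, 481, 480, 479, 478, 477] [] 100000 125000 0 0 150000 0 150000 0 0 0 0)))

lemma s21_21_9_3_9 {n : ℕ} (hn : 5 ≤ n) : NoNd (d21_21_9_3.R : ℤ) d21_21_9_3.H n d21_21_9_3.a d21_21_9_3.b
    (BlkD.inB (BlkD.upd (BlkD.upd (fun _ => 0) 0 3) 1 10)
      (BlkD.upd (BlkD.upd (BlkD.upd (BlkD.upd (BlkD.upd (fun _ => 21) 0 9) 2 3) 0 4) 0 3) 1 18)) :=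
  BlkD.tree_sound (BlkD.pairOk_sound k21_21_9_3) (by decide) hn t21_21_9_3_9 _ _ (by decide +kernel)

/-- certificates of the pair `(9, 3)`, part 10 -/
def t21_21_9_3_10 : BlkD.Tr :=
  .E 0

lemma s21_21_9_3_10 {n : ℕ} (hn : 5 ≤ n) : NoNd (d21_21_9_3.R : ℤ) d21_21_9_3.H n d21_21_9_3.a d21_21_9_3.b
    (BlkD.inB (BlkD.upd (BlkD.upd (fun _ => 0) 0 3) 1 19)
      (BlkD.upd (BlkD.upd (BlkD.upd (BlkD.upd (fun _ => 21) 0 9) 2 3) 0 4) 0 3)) :=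
  BlkD.tree_sound (BlkD.pairOk_sound k21_21_9_3) (by decide) hn t21_21_9_3_10 _ _ (by decide +kernel)

/-- certificates of the pair `(9, 3)`, part 11 -/
def t21_21_9_3_11 : BlkD.Tr :=
  .L 5 8 [4, 4, 4, 5] [] [] 100000 42857 42857 1185716 28571 0 28571 14286 0 0 0

lemma s21_21_9_3_11 {n : ℕ} (hn : 5 ≤ n) : NoNd (d21_21_9_3.R : ℤ) d21_21_9_3.H n d21_21_9_3.a d21_21_9_3.b
    (BlkD.inB (BlkD.upd (BlkD.upd (fun _ => 0) 0 3) 0 4)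
      (BlkD.upd (BlkD.upd (BlkD.upd (BlkD.upd (BlkD.upd (BlkD.upd (fun _ => 21) 0 9) 2 3) 0 4) 1 17) 1 8) 1 4)) :=
  BlkD.tree_sound (BlkD.pairOk_sound k21_21_9_3) (by decide) hn t21_21_9_3_11 _ _ (by decide +kernel)

/-- certificates of the pair `(9, 3)`, part 12 -/
def t21_21_9_3_12 : BlkD.Tr :=
  .S 1 6 (.L 5 8 [4, 4, 4, 5] [] [] 100000 33334 33333 1357142 23810 0 23810 23810 0 42857 0) (.S 1
    7 (.S 2 1 (.L 5 8 [4, 4, 4, 5] [155, 154, 153, 144, 134, 122] [] 100000 61111 61111 1269446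
    47222 0 83333 44444 0 5556 16667) (.L 5 8 [4, 4, 4, 5] [155, 154, 153, 144, 134, 122] [] 100000
    33333 33332 1357146 28571 0 28571 42857 0 42857 14286)) (.S 2 1 (.S 2 0 (.L 5 8 [4, 4, 4, 5]
    [178, 177, 176, 175, 166, 156] [] 100000 33333 33332 1300000 25000 0 37500 87500 0 0 12500) (.S
    3 8 (.S 3 4 (.S 3 2 (.S 3 1 (.L 5 8 [4, 4, 4, 5] [178, 177, 176, 175, 166, 156] [] 100000 33333
    33332 1325000 25000 0 50000 0 0 0 12500) (.L 3 5 [5, 6, 6, 8] [178, 177, 176, 175, 166, 156]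
    [28, 18, 6, 0, 0, 0] 100000 70000 70000 1275000 45000 0 90000 22500 0 45000 25000)) (.L 5 8 [4,
    4, 4, 5] [178, 177, 176, 175, 166, 156] [] 100000 58333 58332 1300000 50000 0 50000 50000 0
    25000 25000)) (.E 1)) (.E 1))) (.L 5 8 [4, 4, 4, 5] [178, 177, 176, 175, 166, 156] [] 100000
    54546 54545 1327272 45455 0 54545 9091 0 18182 18182)))

lemma s21_21_9_3_12 {n : ℕ} (hn : 5 ≤ n) : NoNd (d21_21_9_3.R : ℤ) d21_21_9_3.H n d21_21_9_3.a d21_21_9_3.b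
    (BlkD.inB (BlkD.upd (BlkD.upd (BlkD.upd (fun _ => 0) 0 3) 0 4) 1 5)
      (BlkD.upd (BlkD.upd (BlkD.upd (BlkD.upd (BlkD.upd (fun _ => 21) 0 9) 2 3) 0 4) 1 17) 1 8)) :=
  BlkD.tree_sound (BlkD.pairOk_sound k21_21_9_3) (by decide) hn t21_21_9_3_12 _ _ (by decide +kernel)

/-- certificates of the pair `(9, 3)`, part 13 -/
def t21_21_9_3_13 : BlkD.Tr :=
  .S 2 1 (.S 2 0 (.L 5 8 [4, 4, 4, 5] [203, 202, 201, 200, 199, 190] [] 100000 76768 76768 1188888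
    56566 0 84848 57576 0 0 19192) (.S 3 7 (.S 3 3 (.S 3 1 (.S 3 0 (.L 5 8 [4, 4, 4, 5] [203, 202,
    201, 200, 199, 190] [0, 0, 0, 0, 0, 0] 100000 33333 33332 1325000 25000 0 25000 0 0 0 12500)
    (.L 3 6 [5, 6, 6, 7] [203, 202, 201, 200, 199, 190] [14, 2, 0, 0, 0, 0] 100000 60378 60378
    1296227 42453 0 59434 25472 0 8491 19811)) (.S 3 2 (.L 3 6 [5, 6, 6, 7] [203, 202, 201, 200,
    199, 190] [28, 18, 6, 0, 0, 0] 100000 64000 64000 1300000 48000 0 72000 30000 0 36000 30000)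
    (.L 3 6 [5, 6, 6, 7] [203, 202, 201, 200, 199, 190] [42, 34, 24, 12, 0, 0] 100000 70000 70000
    1280000 52500 0 60000 37500 0 37500 37500))) (.L 5 8 [4, 4, 4, 5] [203, 202, 201, 200, 199,
    190] [] 100000 91429 91428 1131426 74286 0 74286 37143 0 14286 17143)) (.E 1))) (.S 2 2 (.S 3 6
    (.S 3 3 (.S 3 1 (.L 5 8 [4, 4, 4, 5] [203, 202, 201, 200, 199, 190] [] 100000 73611 73611
    1269446 58333 0 87500 38889 0 19444 19444) (.L 5 8 [4, 4, 4, 5] [203, 202, 201, 200, 199, 190]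
    [] 100000 100000 100000 1125000 75000 0 100000 0 0 75000 0)) (.E 1)) (.E 1)) (.L 5 8 [4, 4, 4,
    5] [203, 202, 201, 200, 199, 190] [] 100000 127272 127271 963637 90909 0 90909 0 0 72727 0))

lemma s21_21_9_3_13 {n : ℕ} (hn : 5 ≤ n) : NoNd (d21_21_9_3.R : ℤ) d21_21_9_3.H n d21_21_9_3.a d21_21_9_3.b
    (BlkD.inB (BlkD.upd (BlkD.upd (BlkD.upd (fun _ => 0) 0 3) 0 4) 1 9)
      (BlkD.upd (BlkD.upd (BlkD.upd (BlkD.upd (BlkD.upd (BlkD.upd (BlkD.upd (BlkD.upd (fun _ => 21) 0 9) 2 3) 0 4) 1 17) 1 13) 1 11) 1 10) 1 9)) :=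
  BlkD.tree_sound (BlkD.pairOk_sound k21_21_9_3) (by decide) hn t21_21_9_3_13 _ _ (by decide +kernel)

/-- certificates of the pair `(9, 3)`, part 14 -/
def t21_21_9_3_14 : BlkD.Tr :=
  .S 2 1 (.S 2 0 (.L 5 8 [4, 4, 4, 5] [230, 229, 228, 227, 226, 225] [] 100000 80000 80000 1180000
    60000 0 80000 60000 0 0 20000) (.S 3 6 (.S 3 3 (.S 3 1 (.L 5 8 [4, 4, 4, 5] [230, 229, 228,
    227, 226, 225] [] 100000 85075 85074 1223879 62687 0 94030 31343 0 0 10448) (.S 3 2 (.L 6 9 [5,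
    5, 3, 4] [230, 229, 228, 227, 226, 225] [28, 18, 6, 0, 0, 0] 100000 68889 68888 1286666 66667 0
    80000 40000 0 26667 20000) (.L 6 9 [5, 5, 3, 4] [230, 229, 228, 227, 226, 225] [42, 34, 24, 12,
    0, 0] 100000 88888 88887 1177780 72222 0 94444 72222 0 11111 11111))) (.L 6 9 [5, 5, 3, 4]
    [230, 229, 228, 227, 226, 225] [] 100000 56000 56000 1260000 64000 0 64000 32000 0 16000
    16000)) (.E 1))) (.S 2 2 (.L 6 9 [5, 5, 3, 4] [230, 229, 228, 227, 226, 225] [] 100000 69842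
    69842 1285715 66667 0 80952 38095 0 23810 19048) (.L 5 8 [4, 4, 4, 5] [230, 229, 228, 227, 226,
    225] [] 100000 150000 150000 900000 100000 0 100000 0 0 0 0))

lemma s21_21_9_3_14 {n : ℕ} (hn : 5 ≤ n) : NoNd (d21_21_9_3.R : ℤ) d21_21_9_3.H n d21_21_9_3.a d21_21_9_3.b
    (BlkD.inB (BlkD.upd (BlkD.upd (BlkD.upd (BlkD.upd (fun _ => 0) 0 3) 0 4) 1 9) 1 10)
      (BlkD.upd (BlkD.upd (BlkD.upd (BlkD.upd (BlkD.upd (BlkD.upd (BlkD.upd (fun _ => 21) 0 9) 2 3) 0 4) 1 17) 1 13) 1 11) 1 10)) :=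
  BlkD.tree_sound (BlkD.pairOk_sound k21_21_9_3) (by decide) hn t21_21_9_3_14 _ _ (by decide +kernel)

/-- certificates of the pair `(9, 3)`, part 15 -/
def t21_21_9_3_15 : BlkD.Tr :=
  .S 2 1 (.S 2 0 (.L 5 8 [4, 4, 4, 5] [259, 258, 257, 256, 255, 254] [] 100000 63636 63636 1236367
    54545 0 68182 72727 0 0 27273) (.S 3 5 (.S 3 2 (.S 3 1 (.L 5 8 [4, 4, 4, 5] [259, 258, 257,
    256, 255, 254] [] 100000 87097 87096 1203225 67742 0 90323 22581 0 0 9677) (.L 4 6 [4, 4, 5, 6]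
    [259, 258, 257, 256, 255, 254] [28, 18, 6, 0, 0, 0] 100000 59478 59478 1300653 53595 0 80392
    43791 0 16993 20261)) (.L 4 6 [4, 4, 5, 6] [259, 258, 257, 256, 255, 254] [] 100000 154167
    154166 983332 91667 0 100000 41667 0 0 0)) (.E 1))) (.L 4 6 [4, 4, 5, 6] [259, 258, 257, 256,
    255, 254] [] 100000 150000 150000 1000000 100000 0 100000 0 0 0 0)

lemma s21_21_9_3_15 {n : ℕ} (hn : 5 ≤ n) : NoNd (d21_21_9_3.R : ℤ) d21_21_9_3.H n d21_21_9_3.a d21_21_9_3.b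
    (BlkD.inB (BlkD.upd (BlkD.upd (BlkD.upd (BlkD.upd (fun _ => 0) 0 3) 0 4) 1 9) 1 11)
      (BlkD.upd (BlkD.upd (BlkD.upd (BlkD.upd (BlkD.upd (BlkD.upd (fun _ => 21) 0 9) 2 3) 0 4) 1 17) 1 13) 1 11)) :=
  BlkD.tree_sound (BlkD.pairOk_sound k21_21_9_3) (by decide) hn t21_21_9_3_15 _ _ (by decide +kernel)

/-- certificates of the pair `(9, 3)`, part 16 -/
def t21_21_9_3_16 : BlkD.Tr :=
  .S 1 12 (.L 4 6 [4, 4, 5, 6] [290, 289, 288, 287, 286, 285] [] 100000 150000 150000 1000000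
    100000 0 100000 50000 0 0 0) (.L 4 6 [4, 4, 5, 6] [323, 322, 321, 320, 319, 318] [] 100000
    325000 193750 0 206250 0 231250 0 0 0 0)

lemma s21_21_9_3_16 {n : ℕ} (hn : 5 ≤ n) : NoNd (d21_21_9_3.R : ℤ) d21_21_9_3.H n d21_21_9_3.a d21_21_9_3.b
    (BlkD.inB (BlkD.upd (BlkD.upd (BlkD.upd (BlkD.upd (fun _ => 0) 0 3) 0 4) 1 9) 1 12)
      (BlkD.upd (BlkD.upd (BlkD.upd (BlkD.upd (BlkD.upd (fun _ => 21) 0 9) 2 3) 0 4) 1 17) 1 13)) :=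
  BlkD.tree_sound (BlkD.pairOk_sound k21_21_9_3) (by decide) hn t21_21_9_3_16 _ _ (by decide +kernel)

/-- certificates of the pair `(9, 3)`, part 17 -/
def t21_21_9_3_17 : BlkD.Tr :=
  .S 1 15 (.S 1 14 (.L 4 6 [4, 4, 5, 6] [358, 357, 356, 355, 354, 353] [] 100000 300000 200000 0
    200000 0 200000 0 0 0 0) (.L 4 6 [4, 4, 5, 6] [395, 394, 393, 392, 391, 390] [] 100000 181818
    18182 2 181818 0 181818 0 0 0 0)) (.S 1 16 (.L 4 6 [4, 4, 5, 6] [434, 433, 432, 431, 430, 429]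
    [] 100000 166667 33333 0 166667 0 166667 0 0 0 0) (.L 4 6 [4, 4, 5, 6] [475, 474, 473, 472,
    471, 470] [] 100000 125000 0 0 150000 0 150000 0 0 0 0))

lemma s21_21_9_3_17 {n : ℕ} (hn : 5 ≤ n) : NoNd (d21_21_9_3.R : ℤ) d21_21_9_3.H n d21_21_9_3.a d21_21_9_3.b
    (BlkD.inB (BlkD.upd (BlkD.upd (BlkD.upd (BlkD.upd (fun _ => 0) 0 3) 0 4) 1 9) 1 14)
      (BlkD.upd (BlkD.upd (BlkD.upd (BlkD.upd (fun _ => 21) 0 9) 2 3) 0 4) 1 17)) :=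
  BlkD.tree_sound (BlkD.pairOk_sound k21_21_9_3) (by decide) hn t21_21_9_3_17 _ _ (by decide +kernel)

/-- certificates of the pair `(9, 3)`, part 18 -/
def t21_21_9_3_18 : BlkD.Tr :=
  .E 0

lemma s21_21_9_3_18 {n : ℕ} (hn : 5 ≤ n) : NoNd (d21_21_9_3.R : ℤ) d21_21_9_3.H n d21_21_9_3.a d21_21_9_3.b
    (BlkD.inB (BlkD.upd (BlkD.upd (BlkD.upd (fun _ => 0) 0 3) 0 4) 1 18)
      (BlkD.upd (BlkD.upd (BlkD.upd (fun _ => 21) 0 9) 2 3) 0 4)) :=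
  BlkD.tree_sound (BlkD.pairOk_sound k21_21_9_3) (by decide) hn t21_21_9_3_18 _ _ (by decide +kernel)

/-- certificates of the pair `(9, 3)`, part 19 -/
def t21_21_9_3_19 : BlkD.Tr :=
  .L 4 6 [4, 4, 5, 6] [] [] 100000 36364 36364 1290909 27273 0 27273 9091 0 6061 6061

lemma s21_21_9_3_19 {n : ℕ} (hn : 5 ≤ n) : NoNd (d21_21_9_3.R : ℤ) d21_21_9_3.H n d21_21_9_3.a d21_21_9_3.b
    (BlkD.inB (BlkD.upd (fun _ => 0) 0 5)
      (BlkD.upd (BlkD.upd (BlkD.upd (BlkD.upd (BlkD.upd (BlkD.upd (BlkD.upd (BlkD.upd (fun _ => 21) 0 9) 2 3) 0 7) 0 6) 0 5) 1 16) 1 8) 1 4)) :=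
  BlkD.tree_sound (BlkD.pairOk_sound k21_21_9_3) (by decide) hn t21_21_9_3_19 _ _ (by decide +kernel)

/-- certificates of the pair `(9, 3)`, part 20 -/
def t21_21_9_3_20 : BlkD.Tr :=
  .S 1 5 (.L 5 8 [4, 4, 4, 5] [125, 116, 106, 94, 82, 70] [] 100000 33334 33334 1366666 26667 0
    26667 20000 0 33333 33333) (.S 2 1 (.S 2 0 (.L 5 8 [4, 4, 4, 5] [146, 145, 136, 126, 114, 102]
    [] 100000 33333 33332 1300000 0 0 0 100000 0 0 0) (.S 3 9 (.S 3 4 (.S 3 2 (.L 5 8 [4, 4, 4, 5]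
    [146, 145, 136, 126, 114, 102] [] 100000 33334 33334 1366666 16667 16667 16667 16667 0 0 8333)
    (.S 3 3 (.L 5 8 [4, 4, 4, 5] [146, 145, 136, 126, 114, 102] [42, 34, 24, 12, 0, 0] 100000 33333
    33332 1376924 30769 0 46154 23077 0 53846 23077) (.L 6 9 [5, 5, 3, 4] [146, 145, 136, 126, 114,
    102] [58, 50, 42, 32, 20, 0] 100000 63158 63156 1284208 52632 0 52632 26316 0 26316 26316)))
    (.E 1)) (.E 1))) (.L 6 9 [5, 5, 3, 4] [146, 145, 136, 126, 114, 102] [] 100000 33333 33332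
    1366669 33333 0 66667 33333 0 33333 33333))

lemma s21_21_9_3_20 {n : ℕ} (hn : 5 ≤ n) : NoNd (d21_21_9_3.R : ℤ) d21_21_9_3.H n d21_21_9_3.a d21_21_9_3.b
    (BlkD.inB (BlkD.upd (BlkD.upd (fun _ => 0) 0 5) 1 5)
      (BlkD.upd (BlkD.upd (BlkD.upd (BlkD.upd (BlkD.upd (BlkD.upd (BlkD.upd (BlkD.upd (fun _ => 21) 0 9) 2 3) 0 7) 0 6) 0 5) 1 16) 1 8) 1 6)) :=
  BlkD.tree_sound (BlkD.pairOk_sound k21_21_9_3) (by decide) hn t21_21_9_3_20 _ _ (by decide +kernel)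

/-- certificates of the pair `(9, 3)`, part 21 -/
def t21_21_9_3_21 : BlkD.Tr :=
  .S 2 1 (.S 2 0 (.L 6 9 [5, 5, 3, 4] [169, 168, 167, 158, 148, 136] [] 100000 33333 33332 1310000
    30000 0 60000 70000 0 0 20000) (.S 3 8 (.S 3 4 (.S 3 2 (.S 3 1 (.L 6 9 [5, 5, 3, 4] [169, 168,
    167, 158, 148, 136] [] 100000 33333 33332 1338462 30769 0 61538 30769 0 0 23077) (.S 4 7 (.S 4
    3 (.L 5 8 [4, 4, 4, 5] [148, 136, 124, 112, 0, 0] [28, 18, 6, 0, 0, 0] 100000 33333 33332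
    1395240 28571 19048 42857 38095 0 9524 23810) (.L 5 8 [4, 4, 4, 5] [169, 168, 167, 158, 148,
    136] [28, 18, 6, 0, 0, 0] 100000 66668 1 999999 14286 0 166667 61905 0 0 0)) (.E 2))) (.S 3 3
    (.S 4 7 (.S 4 3 (.L 4 6 [4, 4, 5, 6] [148, 136, 124, 112, 0, 0] [42, 34, 24, 12, 0, 0] 100000
    65384 65383 1276924 53846 0 80769 26923 0 34615 19231) (.L 4 6 [4, 4, 5, 6] [169, 168, 167,
    158, 148, 136] [42, 34, 24, 12, 0, 0] 100000 73334 1 960000 26667 0 173333 40000 0 0 13333))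
    (.E 2)) (.L 6 9 [4, 4, 4, 4] [169, 168, 167, 158, 148, 136] [58, 50, 42, 32, 20, 0] 100000
    64286 64285 1300000 57143 0 57143 28571 0 35714 21429))) (.E 1)) (.E 1))) (.S 2 2 (.S 3 7 (.S 3
    3 (.S 3 1 (.S 3 0 (.L 6 9 [4, 4, 4, 4] [169, 168, 167, 158, 148, 136] [0, 0, 0, 0, 0, 0] 100000
    33333 33332 1338462 30769 0 61538 0 0 0 23077) (.S 4 7 (.S 4 3 (.L 6 9 [4, 4, 4, 4] [148, 136,
    124, 112, 0, 0] [16, 4, 0, 0, 0, 0] 100000 33333 33332 1387500 37500 0 75000 50000 0 12500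
    18750) (.L 6 9 [4, 4, 4, 4] [169, 168, 167, 158, 148, 136] [16, 4, 0, 0, 0, 0] 100000 66667 0
    999999 0 0 166667 0 0 0 0)) (.E 2))) (.S 3 2 (.S 4 7 (.S 4 3 (.L 5 8 [4, 4, 4, 5] [148, 136,
    124, 112, 0, 0] [32, 22, 10, 0, 0, 0] 100000 42857 42857 1342858 42857 0 85714 0 0 28571 14286)
    (.L 5 8 [4, 4, 4, 5] [169, 168, 167, 158, 148, 136] [32, 22, 10, 0, 0, 0] 100000 73334 1 960000
    26667 0 173333 40000 0 0 13333)) (.E 2)) (.L 6 9 [5, 5, 3, 4] [169, 168, 167, 158, 148, 136]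
    [48, 40, 30, 18, 0, 0] 100000 93104 93103 1189653 58621 0 58621 100000 0 0 13793))) (.E 1)) (.E
    1)) (.L 6 9 [5, 5, 3, 4] [169, 168, 167, 158, 148, 136] [] 100000 33333 33332 1392000 36000 0
    72000 0 0 28000 24000))

lemma s21_21_9_3_21 {n : ℕ} (hn : 5 ≤ n) : NoNd (d21_21_9_3.R : ℤ) d21_21_9_3.H n d21_21_9_3.a d21_21_9_3.b
    (BlkD.inB (BlkD.upd (BlkD.upd (BlkD.upd (fun _ => 0) 0 5) 1 5) 1 7)
      (BlkD.upd (BlkD.upd (BlkD.upd (BlkD.upd (BlkD.upd (BlkD.upd (BlkD.upd (BlkD.upd (fun _ => 21) 0 9) 2 3) 0 7) 0 6) 0 5) 1 16) 1 8) 1 7)) :=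
  BlkD.tree_sound (BlkD.pairOk_sound k21_21_9_3) (by decide) hn t21_21_9_3_21 _ _ (by decide +kernel)

/-- certificates of the pair `(9, 3)`, part 22 -/
def t21_21_9_3_22 : BlkD.Tr :=
  .S 2 0 (.L 6 9 [5, 5, 3, 4] [194, 193, 192, 191, 182, 172] [] 100000 33333 33332 1333335 33333 0
    66667 66667 0 0 33333) (.S 3 7 (.S 3 3 (.S 3 1 (.S 3 0 (.L 6 9 [5, 5, 3, 4] [194, 193, 192,
    191, 182, 172] [0, 0, 0, 0, 0, 0] 100000 33333 33332 1333334 33333 0 33333 0 0 0 0) (.S 4 8 (.S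
    4 4 (.S 4 2 (.L 6 9 [5, 5, 3, 4] [160, 148, 136, 0, 0, 0] [14, 2, 0, 0, 0, 0] 100000 33333
    33332 1366668 44444 0 66667 0 0 0 22222) (.L 6 9 [5, 5, 3, 4] [182, 172, 160, 148, 136, 0] [14,
    2, 0, 0, 0, 0] 100000 33333 33332 1310000 30000 30000 100000 50000 0 20000 20000)) (.L 6 9 [5,
    5, 3, 4] [194, 193, 192, 191, 182, 172] [14, 2, 0, 0, 0, 0] 100000 66667 0 999999 0 0 166667 0
    0 0 0)) (.E 2))) (.S 3 2 (.S 4 8 (.S 4 4 (.S 4 2 (.L 6 9 [5, 5, 3, 4] [160, 148, 136, 0, 0, 0]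
    [28, 18, 6, 0, 0, 0] 100000 33333 33332 1394204 43478 15942 71014 43478 0 11594 21739) (.L 6 9
    [5, 5, 3, 4] [182, 172, 160, 148, 136, 0] [28, 18, 6, 0, 0, 0] 100000 33334 33334 1305263 31579
    0 100000 63158 0 5263 10526)) (.L 6 9 [5, 5, 3, 4] [194, 193, 192, 191, 182, 172] [28, 18, 6,
    0, 0, 0] 100000 100000 0 800000 50000 0 200000 25000 0 0 0)) (.E 2)) (.S 4 8 (.S 4 4 (.L 6 9
    [5, 5, 3, 4] [182, 172, 160, 148, 136, 0] [42, 34, 24, 12, 0, 0] 100000 44898 44896 1357142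
    48980 0 73469 48980 0 12245 16327) (.L 6 9 [5, 5, 3, 4] [194, 193, 192, 191, 182, 172] [42, 34,
    24, 12, 0, 0] 100000 233333 0 2 83333 0 333333 116667 0 0 0)) (.E 2)))) (.S 3 5 (.S 3 4 (.S 4 8
    (.S 4 4 (.L 4 6 [4, 4, 5, 6] [182, 172, 160, 148, 136, 0] [58, 50, 42, 32, 20, 0] 100000 150000
    150000 1000000 100000 0 100000 0 0 0 0) (.L 4 6 [4, 4, 5, 6] [194, 193, 192, 191, 182, 172]
    [58, 50, 42, 32, 20, 0] 100000 221430 1 0 64286 0 321429 0 0 0 0)) (.E 2)) (.E 1)) (.E 1))) (.E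
    1))

lemma s21_21_9_3_22 {n : ℕ} (hn : 5 ≤ n) : NoNd (d21_21_9_3.R : ℤ) d21_21_9_3.H n d21_21_9_3.a d21_21_9_3.b
    (BlkD.inB (BlkD.upd (BlkD.upd (BlkD.upd (BlkD.upd (fun _ => 0) 0 5) 1 5) 1 7) 1 8)
      (BlkD.upd (BlkD.upd (BlkD.upd (BlkD.upd (BlkD.upd (BlkD.upd (BlkD.upd (BlkD.upd (fun _ => 21) 0 9) 2 3) 0 7) 0 6) 0 5) 1 16) 1 8) 2 1)) :=
  BlkD.tree_sound (BlkD.pairOk_sound k21_21_9_3) (by decide) hn t21_21_9_3_22 _ _ (by decide +kernel)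

/-- certificates of the pair `(9, 3)`, part 23 -/
def t21_21_9_3_23 : BlkD.Tr :=
  .S 2 2 (.S 3 6 (.S 3 3 (.S 3 1 (.S 3 0 (.L 5 8 [4, 4, 4, 5] [194, 193, 192, 191, 182, 172] [0, 0,
    0, 0, 0, 0] 100000 33333 33332 1380000 30000 0 60000 0 0 0 20000) (.S 4 8 (.S 4 4 (.S 4 2 (.L 5
    8 [4, 4, 4, 5] [160, 148, 136, 0, 0, 0] [16, 4, 0, 0, 0, 0] 100000 33333 33332 1380000 40000 0
    60000 60000 0 0 20000) (.L 5 8 [4, 4, 4, 5] [182, 172, 160, 148, 136, 0] [16, 4, 0, 0, 0, 0]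
    100000 33333 33332 1300001 33333 0 100000 0 0 22222 11111)) (.L 5 8 [4, 4, 4, 5] [194, 193,
    192, 191, 182, 172] [16, 4, 0, 0, 0, 0] 100000 100000 0 800000 0 0 200000 0 0 0 0)) (.E 2)))
    (.S 3 2 (.S 4 8 (.S 4 4 (.L 5 8 [4, 4, 4, 5] [182, 172, 160, 148, 136, 0] [32, 22, 10, 0, 0, 0]
    100000 80556 80555 1233332 66667 0 100000 0 0 16667 8333) (.L 5 8 [4, 4, 4, 5] [194, 193, 192,
    191, 182, 172] [32, 22, 10, 0, 0, 0] 100000 200000 0 200000 0 0 300000 300000 0 0 0)) (.E 2))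
    (.L 5 8 [4, 4, 4, 5] [194, 193, 192, 191, 182, 172] [48, 40, 30, 18, 0, 0] 100000 122223 122223
    1122220 77778 0 77778 55556 0 22222 22222))) (.E 1)) (.E 1)) (.L 5 8 [4, 4, 4, 5] [194, 193,
    192, 191, 182, 172] [] 100000 70370 70370 1244446 59259 0 59259 0 0 29630 14815)

lemma s21_21_9_3_23 {n : ℕ} (hn : 5 ≤ n) : NoNd (d21_21_9_3.R : ℤ) d21_21_9_3.H n d21_21_9_3.a d21_21_9_3.b
    (BlkD.inB (BlkD.upd (BlkD.upd (BlkD.upd (BlkD.upd (BlkD.upd (fun _ => 0) 0 5) 1 5) 1 7) 1 8) 2 2)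
      (BlkD.upd (BlkD.upd (BlkD.upd (BlkD.upd (BlkD.upd (BlkD.upd (BlkD.upd (fun _ => 21) 0 9) 2 3) 0 7) 0 6) 0 5) 1 16) 1 8)) :=
  BlkD.tree_sound (BlkD.pairOk_sound k21_21_9_3) (by decide) hn t21_21_9_3_23 _ _ (by decide +kernel)

/-- certificates of the pair `(9, 3)`, part 24 -/
def t21_21_9_3_24 : BlkD.Tr :=
  .S 2 0 (.L 5 8 [4, 4, 4, 5] [221, 220, 219, 218, 217, 208] [] 100000 63889 63889 1266668 50000 0
    83333 58333 0 0 16667) (.S 3 6 (.S 3 3 (.S 3 1 (.S 3 0 (.L 5 8 [4, 4, 4, 5] [221, 220, 219,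
    218, 217, 208] [0, 0, 0, 0, 0, 0] 100000 33333 33332 1366668 33333 0 50000 0 0 0 33333) (.S 4 9
    (.S 4 4 (.L 4 6 [4, 4, 5, 6] [208, 198, 186, 174, 162, 0] [14, 2, 0, 0, 0, 0] 100000 37500
    37500 1375000 37500 0 75000 37500 0 0 25000) (.L 4 6 [4, 4, 5, 6] [221, 220, 219, 218, 217,
    208] [14, 2, 0, 0, 0, 0] 100000 50001 1 1100000 16667 0 150000 33333 0 0 0)) (.E 2))) (.S 3 2
    (.S 4 9 (.S 4 4 (.S 4 2 (.L 4 6 [4, 4, 5, 6] [186, 174, 162, 0, 0, 0] [28, 18, 6, 0, 0, 0]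
    100000 66666 66665 1264446 62222 0 100000 48889 0 11111 20000) (.L 4 6 [4, 4, 5, 6] [208, 198,
    186, 174, 162, 0] [28, 18, 6, 0, 0, 0] 100000 40000 40000 1300000 40000 0 100000 40000 0 20000
    20000)) (.L 4 6 [4, 4, 5, 6] [221, 220, 219, 218, 217, 208] [28, 18, 6, 0, 0, 0] 100000 90910 1
    854545 27273 0 190909 81818 0 0 4545)) (.E 2)) (.S 4 9 (.S 4 4 (.L 4 6 [4, 4, 5, 6] [208, 198,
    186, 174, 162, 0] [42, 34, 24, 12, 0, 0] 100000 100000 100000 1190911 72727 0 100000 36364 0 0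
    0) (.L 4 6 [4, 4, 5, 6] [221, 220, 219, 218, 217, 208] [42, 34, 24, 12, 0, 0] 100000 100000 0
    800000 50000 0 200000 0 0 0 0)) (.E 2)))) (.L 4 6 [4, 4, 5, 6] [221, 220, 219, 218, 217, 208]
    [] 100000 150000 150000 1000000 100000 0 100000 0 0 0 0)) (.E 1))

lemma s21_21_9_3_24 {n : ℕ} (hn : 5 ≤ n) : NoNd (d21_21_9_3.R : ℤ) d21_21_9_3.H n d21_21_9_3.a d21_21_9_3.b
    (BlkD.inB (BlkD.upd (BlkD.upd (fun _ => 0) 0 5) 1 9)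
      (BlkD.upd (BlkD.upd (BlkD.upd (BlkD.upd (BlkD.upd (BlkD.upd (BlkD.upd (BlkD.upd (BlkD.upd (BlkD.upd (fun _ => 21) 0 9) 2 3) 0 7) 0 6) 0 5) 1 16) 1 12) 1 10) 1 9) 2 1)) :=
  BlkD.tree_sound (BlkD.pairOk_sound k21_21_9_3) (by decide) hn t21_21_9_3_24 _ _ (by decide +kernel)

/-- certificates of the pair `(9, 3)`, part 25 -/
def t21_21_9_3_25 : BlkD.Tr :=
  .S 2 2 (.S 3 5 (.S 3 2 (.S 3 1 (.S 3 0 (.S 4 9 (.S 4 4 (.L 4 6 [4, 4, 5, 6] [208, 198, 186, 174,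
    162, 0] [0, 0, 0, 0, 0, 0] 100000 40000 40000 1360000 40000 0 100000 0 0 20000 20000) (.L 4 6
    [4, 4, 5, 6] [221, 220, 219, 218, 217, 208] [0, 0, 0, 0, 0, 0] 100000 66667 0 1000000 33333 0
    166667 0 0 0 0)) (.E 2)) (.S 4 9 (.S 4 4 (.L 4 6 [4, 4, 5, 6] [208, 198, 186, 174, 162, 0] [16,
    4, 0, 0, 0, 0] 100000 64707 64707 1288233 58824 0 100000 17647 0 47059 17647) (.L 4 6 [4, 4, 5,
    6] [221, 220, 219, 218, 217, 208] [16, 4, 0, 0, 0, 0] 100000 140000 0 560000 60000 0 240000 0 0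
    0 0)) (.E 2))) (.L 4 6 [4, 4, 5, 6] [221, 220, 219, 218, 217, 208] [32, 22, 10, 0, 0, 0] 100000
    158334 158334 1000000 100000 0 100000 0 0 16667 8333)) (.L 4 6 [4, 4, 5, 6] [221, 220, 219,
    218, 217, 208] [] 100000 150000 150000 1000000 100000 0 100000 0 0 0 0)) (.E 1)) (.L 4 6 [4, 4,
    5, 6] [221, 220, 219, 218, 217, 208] [] 100000 200000 180000 740000 120000 0 120000 0 0 0 0)

lemma s21_21_9_3_25 {n : ℕ} (hn : 5 ≤ n) : NoNd (d21_21_9_3.R : ℤ) d21_21_9_3.H n d21_21_9_3.a d21_21_9_3.b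
    (BlkD.inB (BlkD.upd (BlkD.upd (BlkD.upd (fun _ => 0) 0 5) 1 9) 2 2)
      (BlkD.upd (BlkD.upd (BlkD.upd (BlkD.upd (BlkD.upd (BlkD.upd (BlkD.upd (BlkD.upd (BlkD.upd (fun _ => 21) 0 9) 2 3) 0 7) 0 6) 0 5) 1 16) 1 12) 1 10) 1 9)) :=
  BlkD.tree_sound (BlkD.pairOk_sound k21_21_9_3) (by decide) hn t21_21_9_3_25 _ _ (by decide +kernel)

/-- certificates of the pair `(9, 3)`, part 26 -/
def t21_21_9_3_26 : BlkD.Tr :=
  .S 2 1 (.S 2 0 (.L 4 6 [4, 4, 5, 6] [250, 249, 248, 247, 246, 245] [] 100000 80000 80000 1220000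
    60000 0 80000 60000 0 0 20000) (.S 3 5 (.S 3 2 (.S 3 1 (.L 5 8 [4, 4, 4, 5] [250, 249, 248,
    247, 246, 245] [] 100000 83334 83334 1233333 66667 0 100000 33333 0 0 16667) (.S 4 10 (.S 4 5
    (.L 5 8 [4, 4, 4, 5] [245, 236, 226, 214, 202, 190] [28, 18, 6, 0, 0, 0] 100000 60000 60000
    1300000 60000 0 100000 40000 0 20000 20000) (.L 5 8 [4, 4, 4, 5] [250, 249, 248, 247, 246, 245]
    [28, 18, 6, 0, 0, 0] 100000 233333 0 2 100000 0 333333 33333 0 0 0)) (.E 2))) (.L 5 8 [4, 4, 4,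
    5] [250, 249, 248, 247, 246, 245] [] 100000 81818 81818 1236365 72727 0 100000 27273 0 45455
    27273)) (.E 1))) (.L 5 8 [4, 4, 4, 5] [250, 249, 248, 247, 246, 245] [] 100000 77272 77271
    1254548 63636 0 100000 54545 0 4545 18182)

lemma s21_21_9_3_26 {n : ℕ} (hn : 5 ≤ n) : NoNd (d21_21_9_3.R : ℤ) d21_21_9_3.H n d21_21_9_3.a d21_21_9_3.b
    (BlkD.inB (BlkD.upd (BlkD.upd (BlkD.upd (fun _ => 0) 0 5) 1 9) 1 10)
      (BlkD.upd (BlkD.upd (BlkD.upd (BlkD.upd (BlkD.upd (BlkD.upd (BlkD.upd (BlkD.upd (fun _ => 21) 0 9) 2 3) 0 7) 0 6) 0 5) 1 16) 1 12) 1 10)) :=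
  BlkD.tree_sound (BlkD.pairOk_sound k21_21_9_3) (by decide) hn t21_21_9_3_26 _ _ (by decide +kernel)

/-- certificates of the pair `(9, 3)`, part 27 -/
def t21_21_9_3_27 : BlkD.Tr :=
  .S 1 11 (.L 5 8 [4, 4, 4, 5] [281, 280, 279, 278, 277, 276] [] 100000 102000 96000 1162000 84000
    0 106000 46000 0 8000 18000) (.L 5 8 [4, 4, 4, 5] [314, 313, 312, 311, 310, 309] [] 100000
    200001 66668 399999 166667 0 233333 0 0 0 0)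

lemma s21_21_9_3_27 {n : ℕ} (hn : 5 ≤ n) : NoNd (d21_21_9_3.R : ℤ) d21_21_9_3.H n d21_21_9_3.a d21_21_9_3.b
    (BlkD.inB (BlkD.upd (BlkD.upd (BlkD.upd (fun _ => 0) 0 5) 1 9) 1 11)
      (BlkD.upd (BlkD.upd (BlkD.upd (BlkD.upd (BlkD.upd (BlkD.upd (BlkD.upd (fun _ => 21) 0 9) 2 3) 0 7) 0 6) 0 5) 1 16) 1 12)) :=
  BlkD.tree_sound (BlkD.pairOk_sound k21_21_9_3) (by decide) hn t21_21_9_3_27 _ _ (by decide +kernel)

/-- certificates of the pair `(9, 3)`, part 28 -/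
def t21_21_9_3_28 : BlkD.Tr :=
  .S 1 14 (.S 1 13 (.L 5 8 [4, 4, 4, 5] [349, 348, 347, 346, 345, 344] [] 100000 216667 1 1 211111
    0 211111 0 0 0 0) (.L 5 8 [4, 4, 4, 5] [386, 385, 384, 383, 382, 381] [] 100000 172727 27273 3
    172727 0 222727 0 0 0 0)) (.E 0)

lemma s21_21_9_3_28 {n : ℕ} (hn : 5 ≤ n) : NoNd (d21_21_9_3.R : ℤ) d21_21_9_3.H n d21_21_9_3.a d21_21_9_3.b
    (BlkD.inB (BlkD.upd (BlkD.upd (BlkD.upd (fun _ => 0) 0 5) 1 9) 1 13)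
      (BlkD.upd (BlkD.upd (BlkD.upd (BlkD.upd (BlkD.upd (BlkD.upd (fun _ => 21) 0 9) 2 3) 0 7) 0 6) 0 5) 1 16)) :=
  BlkD.tree_sound (BlkD.pairOk_sound k21_21_9_3) (by decide) hn t21_21_9_3_28 _ _ (by decide +kernel)

/-- certificates of the pair `(9, 3)`, part 29 -/
def t21_21_9_3_29 : BlkD.Tr :=
  .E 0

lemma s21_21_9_3_29 {n : ℕ} (hn : 5 ≤ n) : NoNd (d21_21_9_3.R : ℤ) d21_21_9_3.H n d21_21_9_3.a d21_21_9_3.b
    (BlkD.inB (BlkD.upd (BlkD.upd (fun _ => 0) 0 5) 1 17)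
      (BlkD.upd (BlkD.upd (BlkD.upd (BlkD.upd (BlkD.upd (fun _ => 21) 0 9) 2 3) 0 7) 0 6) 0 5)) :=
  BlkD.tree_sound (BlkD.pairOk_sound k21_21_9_3) (by decide) hn t21_21_9_3_29 _ _ (by decide +kernel)

/-- certificates of the pair `(9, 3)`, part 30 -/
def t21_21_9_3_30 : BlkD.Tr :=
  .L 5 8 [4, 4, 4, 5] [] [] 100000 33333 33332 1287500 37500 0 37500 18750 0 12500 12500

lemma s21_21_9_3_30 {n : ℕ} (hn : 5 ≤ n) : NoNd (d21_21_9_3.R : ℤ) d21_21_9_3.H n d21_21_9_3.a d21_21_9_3.b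
    (BlkD.inB (BlkD.upd (BlkD.upd (fun _ => 0) 0 5) 0 6)
      (BlkD.upd (BlkD.upd (BlkD.upd (BlkD.upd (BlkD.upd (BlkD.upd (BlkD.upd (fun _ => 21) 0 9) 2 3) 0 7) 0 6) 1 15) 1 7) 1 3)) :=
  BlkD.tree_sound (BlkD.pairOk_sound k21_21_9_3) (by decide) hn t21_21_9_3_30 _ _ (by decide +kernel)

/-- certificates of the pair `(9, 3)`, part 31 -/
def t21_21_9_3_31 : BlkD.Tr :=
  .S 1 4 (.L 5 8 [4, 4, 4, 5] [106, 96, 84, 72, 60, 0] [] 100000 33333 33332 1366668 33333 0 33333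
    33333 0 33333 33333) (.S 2 1 (.S 2 0 (.L 5 8 [4, 4, 4, 5] [135, 126, 116, 104, 92, 80] []
    100000 33333 33332 1300000 0 0 0 100000 0 0 0) (.S 3 9 (.S 3 4 (.S 3 2 (.L 5 8 [4, 4, 4, 5]
    [135, 126, 116, 104, 92, 80] [] 100000 33333 33332 1360000 20000 20000 40000 20000 0 0 20000)
    (.S 3 3 (.S 4 5 (.S 4 2 (.L 5 8 [4, 4, 4, 5] [104, 92, 80, 0, 0, 0] [42, 34, 24, 12, 0, 0]
    100000 33333 33332 1385716 28571 28571 57143 28571 0 28571 14286) (.L 5 8 [4, 4, 4, 5] [135,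
    126, 116, 104, 92, 80] [42, 34, 24, 12, 0, 0] 100000 45455 0 1127271 27273 0 145455 27273 0 0
    9091)) (.E 2)) (.S 4 5 (.S 4 2 (.L 6 9 [5, 5, 3, 4] [104, 92, 80, 0, 0, 0] [58, 50, 42, 32, 20,
    0] 100000 38095 38094 1361905 47619 0 47619 23810 0 38095 14286) (.L 6 9 [5, 5, 3, 4] [135,
    126, 116, 104, 92, 80] [58, 50, 42, 32, 20, 0] 100000 60000 0 1040000 40000 0 160000 20000 0 0
    0)) (.E 2)))) (.E 1)) (.E 1))) (.S 2 2 (.S 3 8 (.S 3 4 (.S 3 2 (.S 3 1 (.L 5 8 [4, 4, 4, 5]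
    [135, 126, 116, 104, 92, 80] [] 100000 33333 33332 1375000 25000 0 25000 25000 0 0 25000) (.S 4
    5 (.S 4 2 (.L 5 8 [4, 4, 4, 5] [104, 92, 80, 0, 0, 0] [32, 22, 10, 0, 0, 0] 100000 33334 33334
    1389474 36842 0 36842 0 0 31579 15789) (.L 5 8 [4, 4, 4, 5] [135, 126, 116, 104, 92, 80] [32,
    22, 10, 0, 0, 0] 100000 45455 0 1127271 27273 0 145455 27273 0 0 9091)) (.E 2))) (.S 3 3 (.S 4
    5 (.S 4 2 (.L 6 9 [5, 5, 3, 4] [104, 92, 80, 0, 0, 0] [48, 40, 30, 18, 0, 0] 100000 72727 72727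
    1227275 54545 0 54545 100000 0 0 0) (.L 6 9 [5, 5, 3, 4] [135, 126, 116, 104, 92, 80] [48, 40,
    30, 18, 0, 0] 100000 133334 1 600000 66667 0 233333 166667 0 0 0)) (.E 2)) (.E 1))) (.E 1)) (.E
    1)) (.L 5 8 [4, 4, 4, 5] [135, 126, 116, 104, 92, 80] [] 100000 46667 46667 1300000 40000 0
    40000 0 0 40000 20000)))

lemma s21_21_9_3_31 {n : ℕ} (hn : 5 ≤ n) : NoNd (d21_21_9_3.R : ℤ) d21_21_9_3.H n d21_21_9_3.a d21_21_9_3.b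
    (BlkD.inB (BlkD.upd (BlkD.upd (BlkD.upd (fun _ => 0) 0 5) 0 6) 1 4)
      (BlkD.upd (BlkD.upd (BlkD.upd (BlkD.upd (BlkD.upd (BlkD.upd (BlkD.upd (fun _ => 21) 0 9) 2 3) 0 7) 0 6) 1 15) 1 7) 1 5)) :=
  BlkD.tree_sound (BlkD.pairOk_sound k21_21_9_3) (by decide) hn t21_21_9_3_31 _ _ (by decide +kernel)

/-- certificates of the pair `(9, 3)`, part 32 -/
def t21_21_9_3_32 : BlkD.Tr :=
  .S 2 1 (.S 2 0 (.L 5 8 [4, 4, 4, 5] [158, 157, 148, 138, 126, 114] [] 100000 33333 33332 1333334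
    22222 0 44444 88889 0 0 11111) (.S 3 8 (.S 3 4 (.S 3 2 (.S 3 1 (.L 5 8 [4, 4, 4, 5] [158, 157,
    148, 138, 126, 114] [] 100000 33333 33332 1375000 25000 0 25000 0 0 0 12500) (.S 4 6 (.S 4 3
    (.S 4 1 (.L 5 8 [4, 4, 4, 5] [114, 102, 0, 0, 0, 0] [28, 18, 6, 0, 0, 0] 100000 33333 33332
    1393334 40000 13333 53333 40000 0 13333 20000) (.L 5 8 [4, 4, 4, 5] [138, 126, 114, 102, 0, 0]
    [28, 18, 6, 0, 0, 0] 100000 33333 33332 1333334 33333 0 100000 16667 0 16667 16667)) (.L 5 8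
    [4, 4, 4, 5] [158, 157, 148, 138, 126, 114] [28, 18, 6, 0, 0, 0] 100000 66668 1 999999 16667 0
    166667 66667 0 0 0)) (.E 2))) (.S 3 3 (.S 4 6 (.S 4 3 (.L 6 9 [5, 5, 3, 4] [138, 126, 114, 102,
    0, 0] [42, 34, 24, 12, 0, 0] 100000 33333 33332 1385715 42857 0 85714 42857 0 28571 14286) (.L
    6 9 [5, 5, 3, 4] [158, 157, 148, 138, 126, 114] [42, 34, 24, 12, 0, 0] 100000 100000 0 800000
    50000 0 200000 100000 0 0 0)) (.E 2)) (.S 4 6 (.S 4 3 (.S 4 1 (.L 6 9 [5, 5, 3, 4] [114, 102,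
    0, 0, 0, 0] [58, 50, 42, 32, 20, 0] 100000 14286 14286 1442858 42857 0 42857 21429 0 42857
    21429) (.L 6 9 [5, 5, 3, 4] [138, 126, 114, 102, 0, 0] [58, 50, 42, 32, 20, 0] 100000 44445
    44445 1304445 48889 0 100000 24444 0 35556 13333)) (.L 6 9 [5, 5, 3, 4] [158, 157, 148, 138,
    126, 114] [58, 50, 42, 32, 20, 0] 100000 100000 0 800000 50000 0 200000 25000 0 0 0)) (.E 2))))
    (.E 1)) (.E 1))) (.S 2 2 (.S 3 7 (.S 3 3 (.S 3 1 (.S 3 0 (.L 6 9 [5, 5, 3, 4] [158, 157, 148,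
    138, 126, 114] [0, 0, 0, 0, 0, 0] 100000 33333 33332 1366667 33333 0 33333 0 0 0 0) (.S 4 6 (.S
    4 3 (.S 4 1 (.L 5 8 [4, 4, 4, 5] [114, 102, 0, 0, 0, 0] [16, 4, 0, 0, 0, 0] 100000 33333 33332
    1380000 40000 0 40000 40000 0 0 20000) (.L 5 8 [4, 4, 4, 5] [138, 126, 114, 102, 0, 0] [16, 4,
    0, 0, 0, 0] 100000 33333 33332 1333334 33333 0 100000 0 0 16667 16667)) (.L 5 8 [4, 4, 4, 5]
    [158, 157, 148, 138, 126, 114] [16, 4, 0, 0, 0, 0] 100000 66667 0 999999 0 0 166667 0 0 0 0))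
    (.E 2))) (.S 3 2 (.S 4 6 (.S 4 3 (.L 6 9 [5, 5, 3, 4] [138, 126, 114, 102, 0, 0] [32, 22, 10,
    0, 0, 0] 100000 33333 33332 1385715 42857 0 85714 42857 0 28571 14286) (.L 6 9 [5, 5, 3, 4]
    [158, 157, 148, 138, 126, 114] [32, 22, 10, 0, 0, 0] 100000 100000 0 800000 50000 0 200000
    100000 0 0 0)) (.E 2)) (.S 4 6 (.S 4 3 (.S 4 1 (.L 6 9 [5, 5, 3, 4] [114, 102, 0, 0, 0, 0] [48,
    40, 30, 18, 0, 0] 100000 50000 50000 1300000 50000 0 50000 100000 0 0 0) (.L 6 9 [5, 5, 3, 4]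
    [138, 126, 114, 102, 0, 0] [48, 40, 30, 18, 0, 0] 100000 57143 57143 1228572 42857 0 100000
    100000 0 0 0)) (.L 6 9 [5, 5, 3, 4] [158, 157, 148, 138, 126, 114] [48, 40, 30, 18, 0, 0]
    100000 233333 0 2 83333 0 333333 200000 0 0 0)) (.E 2)))) (.E 1)) (.E 1)) (.S 3 6 (.S 3 3 (.S 3
    1 (.S 3 0 (.L 5 8 [4, 4, 4, 5] [158, 157, 148, 138, 126, 114] [0, 0, 0, 0, 0, 0] 100000 33333
    33332 1366668 33333 0 33333 0 0 33333 11111) (.S 4 6 (.S 4 3 (.L 5 8 [4, 4, 4, 5] [138, 126,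
    114, 102, 0, 0] [18, 6, 0, 0, 0, 0] 100000 75000 75000 1225000 62500 0 62500 0 0 50000 25000)
    (.L 5 8 [4, 4, 4, 5] [158, 157, 148, 138, 126, 114] [18, 6, 0, 0, 0, 0] 100000 166668 1 399998
    66667 0 266667 0 0 0 0)) (.E 2))) (.E 1)) (.E 1)) (.E 1)))

lemma s21_21_9_3_32 {n : ℕ} (hn : 5 ≤ n) : NoNd (d21_21_9_3.R : ℤ) d21_21_9_3.H n d21_21_9_3.a d21_21_9_3.b
    (BlkD.inB (BlkD.upd (BlkD.upd (BlkD.upd (BlkD.upd (fun _ => 0) 0 5) 0 6) 1 4) 1 6)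
      (BlkD.upd (BlkD.upd (BlkD.upd (BlkD.upd (BlkD.upd (BlkD.upd (BlkD.upd (fun _ => 21) 0 9) 2 3) 0 7) 0 6) 1 15) 1 7) 1 6)) :=
  BlkD.tree_sound (BlkD.pairOk_sound k21_21_9_3) (by decide) hn t21_21_9_3_32 _ _ (by decide +kernel)

/-- certificates of the pair `(9, 3)`, part 33 -/
def t21_21_9_3_33 : BlkD.Tr :=
  .S 2 0 (.L 5 8 [4, 4, 4, 5] [183, 182, 181, 172, 162, 150] [] 100000 33333 33332 1342858 28571 0
    71429 71429 0 0 14286) (.S 3 7 (.S 3 3 (.S 3 1 (.S 3 0 (.L 5 8 [4, 4, 4, 5] [183, 182, 181,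
    172, 162, 150] [0, 0, 0, 0, 0, 0] 100000 33333 33332 1338462 30769 0 61538 0 0 0 23077) (.S 4 7
    (.S 4 3 (.L 5 8 [4, 4, 4, 5] [162, 150, 138, 126, 0, 0] [14, 2, 0, 0, 0, 0] 100000 33333 33332
    1380000 40000 0 80000 0 0 0 20000) (.L 5 8 [4, 4, 4, 5] [183, 182, 181, 172, 162, 150] [14, 2,
    0, 0, 0, 0] 100000 33333 33332 1300000 0 0 100000 0 0 0 0)) (.E 2))) (.S 3 2 (.S 4 7 (.S 4 3
    (.S 4 1 (.L 5 8 [4, 4, 4, 5] [138, 126, 0, 0, 0, 0] [28, 18, 6, 0, 0, 0] 100000 29235 29235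
    1403282 49180 0 100000 29098 6148 9016 12705) (.L 5 8 [4, 4, 4, 5] [162, 150, 138, 126, 0, 0]
    [28, 18, 6, 0, 0, 0] 100000 33333 33332 1357144 35714 7143 100000 50000 0 14286 14286)) (.L 5 8
    [4, 4, 4, 5] [183, 182, 181, 172, 162, 150] [28, 18, 6, 0, 0, 0] 100000 38463 1 1169229 15385 0
    138462 53846 0 3846 19231)) (.E 2)) (.S 4 7 (.S 4 3 (.L 6 9 [5, 5, 3, 4] [162, 150, 138, 126,
    0, 0] [42, 34, 24, 12, 0, 0] 100000 20000 20000 1420000 40000 0 80000 40000 0 20000 20000) (.L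
    6 9 [5, 5, 3, 4] [183, 182, 181, 172, 162, 150] [42, 34, 24, 12, 0, 0] 100000 60000 0 1040000
    20000 0 160000 120000 0 0 0)) (.E 2)))) (.S 3 5 (.S 3 4 (.S 4 7 (.S 4 3 (.L 6 9 [4, 4, 4, 4]
    [162, 150, 138, 126, 0, 0] [58, 50, 42, 32, 20, 0] 100000 42857 42856 1357142 57143 0 100000
    7143 0 50000 7143) (.L 6 9 [4, 4, 4, 4] [183, 182, 181, 172, 162, 150] [58, 50, 42, 32, 20, 0]
    100000 50000 0 1100000 25000 25000 150000 25000 0 25000 25000)) (.E 2)) (.E 1)) (.E 1))) (.E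
    1))

lemma s21_21_9_3_33 {n : ℕ} (hn : 5 ≤ n) : NoNd (d21_21_9_3.R : ℤ) d21_21_9_3.H n d21_21_9_3.a d21_21_9_3.b
    (BlkD.inB (BlkD.upd (BlkD.upd (BlkD.upd (BlkD.upd (BlkD.upd (fun _ => 0) 0 5) 0 6) 1 4) 1 6) 1 7)
      (BlkD.upd (BlkD.upd (BlkD.upd (BlkD.upd (BlkD.upd (BlkD.upd (BlkD.upd (fun _ => 21) 0 9) 2 3) 0 7) 0 6) 1 15) 1 7) 2 1)) :=
  BlkD.tree_sound (BlkD.pairOk_sound k21_21_9_3) (by decide) hn t21_21_9_3_33 _ _ (by decide +kernel)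

/-- certificates of the pair `(9, 3)`, part 34 -/
def t21_21_9_3_34 : BlkD.Tr :=
  .S 2 2 (.S 3 6 (.S 3 3 (.S 3 1 (.S 3 0 (.S 4 7 (.S 4 3 (.L 6 9 [4, 4, 4, 4] [162, 150, 138, 126,
    0, 0] [0, 0, 0, 0, 0, 0] 100000 33333 33332 1366668 44444 0 88889 0 0 0 22222) (.L 6 9 [4, 4,
    4, 4] [183, 182, 181, 172, 162, 150] [0, 0, 0, 0, 0, 0] 100000 25000 0 1250000 0 0 125000 0 0
    33333 16667)) (.E 2)) (.S 4 7 (.S 4 3 (.L 5 8 [4, 4, 4, 5] [162, 150, 138, 126, 0, 0] [16, 4,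
    0, 0, 0, 0] 100000 32382 32382 1401429 41429 0 91429 32857 1429 10000 15714) (.L 5 8 [4, 4, 4,
    5] [183, 182, 181, 172, 162, 150] [16, 4, 0, 0, 0, 0] 100000 40000 0 1160000 20000 0 140000 0 0
    13333 6667)) (.E 2))) (.S 3 2 (.S 4 7 (.S 4 3 (.L 6 9 [5, 5, 3, 4] [162, 150, 138, 126, 0, 0]
    [32, 22, 10, 0, 0, 0] 100000 20000 20000 1420000 40000 0 80000 40000 0 20000 20000) (.L 6 9 [5,
    5, 3, 4] [183, 182, 181, 172, 162, 150] [32, 22, 10, 0, 0, 0] 100000 60000 0 1040000 20000 0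
    160000 120000 0 0 0)) (.E 2)) (.S 4 7 (.S 4 3 (.L 6 9 [5, 5, 3, 4] [162, 150, 138, 126, 0, 0]
    [48, 40, 30, 18, 0, 0] 100000 65625 65625 1281250 53125 0 100000 100000 0 0 15625) (.L 6 9 [5,
    5, 3, 4] [183, 182, 181, 172, 162, 150] [48, 40, 30, 18, 0, 0] 100000 200000 0 200000 50000 0
    300000 250000 0 0 0)) (.E 2)))) (.E 1)) (.E 1)) (.S 3 5 (.S 3 2 (.S 3 1 (.S 3 0 (.S 4 7 (.S 4 3
    (.L 5 8 [4, 4, 4, 5] [162, 150, 138, 126, 0, 0] [0, 0, 0, 0, 0, 0] 100000 28758 28758 1394122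
    41176 0 75490 0 6863 19608 19608) (.L 5 8 [4, 4, 4, 5] [183, 182, 181, 172, 162, 150] [0, 0, 0,
    0, 0, 0] 100000 66667 0 1000000 33333 0 166667 0 0 0 0)) (.E 2)) (.L 5 8 [4, 4, 4, 5] [183,
    182, 181, 172, 162, 150] [18, 6, 0, 0, 0, 0] 100000 161539 161539 1000000 100000 0 100000 0 0
    84615 7692)) (.E 1)) (.E 1)) (.E 1))

lemma s21_21_9_3_34 {n : ℕ} (hn : 5 ≤ n) : NoNd (d21_21_9_3.R : ℤ) d21_21_9_3.H n d21_21_9_3.a d21_21_9_3.b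
    (BlkD.inB (BlkD.upd (BlkD.upd (BlkD.upd (BlkD.upd (BlkD.upd (BlkD.upd (fun _ => 0) 0 5) 0 6) 1 4) 1 6) 1 7) 2 2)
      (BlkD.upd (BlkD.upd (BlkD.upd (BlkD.upd (BlkD.upd (BlkD.upd (fun _ => 21) 0 9) 2 3) 0 7) 0 6) 1 15) 1 7)) :=
  BlkD.tree_sound (BlkD.pairOk_sound k21_21_9_3) (by decide) hn t21_21_9_3_34 _ _ (by decide +kernel)

/-- certificates of the pair `(9, 3)`, part 35 -/
def t21_21_9_3_35 : BlkD.Tr :=
  .S 2 0 (.L 5 8 [4, 4, 4, 5] [210, 209, 208, 207, 198, 188] [] 100000 33334 33334 1336841 21053 0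
    100000 89474 0 0 26316) (.S 3 6 (.S 3 3 (.S 3 1 (.S 3 0 (.L 5 8 [4, 4, 4, 5] [210, 209, 208,
    207, 198, 188] [0, 0, 0, 0, 0, 0] 100000 33334 33334 1354546 36364 0 72727 0 0 0 18182) (.S 4 8
    (.S 4 4 (.L 5 8 [4, 4, 4, 5] [198, 188, 176, 164, 152, 0] [14, 2, 0, 0, 0, 0] 100000 33333
    33332 1385715 42857 0 100000 14286 0 14286 14286) (.L 5 8 [4, 4, 4, 5] [210, 209, 208, 207,
    198, 188] [14, 2, 0, 0, 0, 0] 100000 40000 0 1160000 20000 0 140000 0 0 0 20000)) (.E 2))) (.S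
    3 2 (.S 4 8 (.S 4 4 (.L 5 8 [4, 4, 4, 5] [198, 188, 176, 164, 152, 0] [28, 18, 6, 0, 0, 0]
    100000 33333 33333 1385716 42857 0 100000 28571 0 14286 14286) (.L 5 8 [4, 4, 4, 5] [210, 209,
    208, 207, 198, 188] [28, 18, 6, 0, 0, 0] 100000 66667 0 1000000 33333 0 166667 50000 0 0 8333))
    (.E 2)) (.S 4 8 (.S 4 4 (.L 6 9 [5, 5, 3, 4] [198, 188, 176, 164, 152, 0] [42, 34, 24, 12, 0,
    0] 100000 53333 53332 1300000 60000 0 100000 60000 0 0 20000) (.L 6 9 [5, 5, 3, 4] [210, 209,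
    208, 207, 198, 188] [42, 34, 24, 12, 0, 0] 100000 233334 1 1 100000 0 333333 166667 0 0 0)) (.E
    2)))) (.S 3 5 (.S 3 4 (.S 4 8 (.S 4 4 (.L 6 9 [5, 5, 3, 4] [198, 188, 176, 164, 152, 0] [58,
    50, 42, 32, 20, 0] 100000 40000 40000 1340000 60000 0 100000 10000 0 40000 20000) (.L 6 9 [5,
    5, 3, 4] [210, 209, 208, 207, 198, 188] [58, 50, 42, 32, 20, 0] 100000 233333 0 1 111111 0
    333333 5556 0 0 0)) (.E 2)) (.E 1)) (.E 1))) (.E 1))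

lemma s21_21_9_3_35 {n : ℕ} (hn : 5 ≤ n) : NoNd (d21_21_9_3.R : ℤ) d21_21_9_3.H n d21_21_9_3.a d21_21_9_3.b
    (BlkD.inB (BlkD.upd (BlkD.upd (BlkD.upd (fun _ => 0) 0 5) 0 6) 1 8)
      (BlkD.upd (BlkD.upd (BlkD.upd (BlkD.upd (BlkD.upd (BlkD.upd (BlkD.upd (BlkD.upd (BlkD.upd (fun _ => 21) 0 9) 2 3) 0 7) 0 6) 1 15) 1 11) 1 9) 1 8) 2 1)) :=
  BlkD.tree_sound (BlkD.pairOk_sound k21_21_9_3) (by decide) hn t21_21_9_3_35 _ _ (by decide +kernel)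

/-- certificates of the pair `(9, 3)`, part 36 -/
def t21_21_9_3_36 : BlkD.Tr :=
  .S 2 2 (.S 3 5 (.S 3 2 (.S 3 1 (.S 3 0 (.S 4 8 (.S 4 4 (.L 6 9 [5, 5, 3, 4] [198, 188, 176, 164,
    152, 0] [0, 0, 0, 0, 0, 0] 100000 33334 33334 1364705 47059 0 94118 0 0 0 17647) (.L 6 9 [5, 5,
    3, 4] [210, 209, 208, 207, 198, 188] [0, 0, 0, 0, 0, 0] 100000 43750 0 1137500 31250 0 143750 0
    0 6250 6250)) (.E 2)) (.S 4 8 (.S 4 4 (.L 6 9 [5, 5, 3, 4] [198, 188, 176, 164, 152, 0] [16, 4,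
    0, 0, 0, 0] 100000 26667 26667 1400000 40000 20000 100000 40000 0 20000 20000) (.L 6 9 [5, 5,
    3, 4] [210, 209, 208, 207, 198, 188] [16, 4, 0, 0, 0, 0] 100000 50000 0 1100000 0 0 150000 0 0
    0 0)) (.E 2))) (.S 4 8 (.S 4 4 (.L 6 9 [5, 5, 3, 4] [198, 188, 176, 164, 152, 0] [32, 22, 10,
    0, 0, 0] 100000 53333 53332 1300000 60000 0 100000 60000 0 0 20000) (.L 6 9 [5, 5, 3, 4] [210,
    209, 208, 207, 198, 188] [32, 22, 10, 0, 0, 0] 100000 233334 1 1 100000 0 333333 166667 0 0 0))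
    (.E 2))) (.L 6 9 [5, 5, 3, 4] [210, 209, 208, 207, 198, 188] [] 100000 75000 75000 1270000
    55000 0 100000 100000 0 0 5000)) (.E 1)) (.L 6 9 [5, 5, 3, 4] [210, 209, 208, 207, 198, 188] []
    100000 42857 42857 1357145 48571 0 100000 0 0 31429 17143)

lemma s21_21_9_3_36 {n : ℕ} (hn : 5 ≤ n) : NoNd (d21_21_9_3.R : ℤ) d21_21_9_3.H n d21_21_9_3.a d21_21_9_3.b
    (BlkD.inB (BlkD.upd (BlkD.upd (BlkD.upd (BlkD.upd (fun _ => 0) 0 5) 0 6) 1 8) 2 2)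
      (BlkD.upd (BlkD.upd (BlkD.upd (BlkD.upd (BlkD.upd (BlkD.upd (BlkD.upd (BlkD.upd (fun _ => 21) 0 9) 2 3) 0 7) 0 6) 1 15) 1 11) 1 9) 1 8)) :=
  BlkD.tree_sound (BlkD.pairOk_sound k21_21_9_3) (by decide) hn t21_21_9_3_36 _ _ (by decide +kernel)

/-- certificates of the pair `(9, 3)`, part 37 -/
def t21_21_9_3_37 : BlkD.Tr :=
  .S 2 1 (.S 2 0 (.L 6 9 [5, 5, 3, 4] [239, 238, 237, 236, 235, 226] [] 100000 33333 33332 1300002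
    33333 0 100000 83333 0 0 16667) (.S 3 5 (.S 3 2 (.S 3 1 (.L 5 8 [4, 4, 4, 5] [239, 238, 237,
    236, 235, 226] [] 100000 58730 58729 1314286 57143 0 100000 33333 0 9524 14286) (.L 4 6 [4, 4,
    5, 6] [239, 238, 237, 236, 235, 226] [28, 18, 6, 0, 0, 0] 100000 52174 52173 1339130 52174 0
    100000 26087 0 34783 17391)) (.S 3 4 (.S 3 3 (.L 6 9 [5, 5, 3, 4] [239, 238, 237, 236, 235,
    226] [42, 34, 24, 12, 0, 0] 100000 41667 41667 1350000 50000 0 100000 50000 0 25000 25000) (.L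
    6 9 [5, 5, 3, 4] [239, 238, 237, 236, 235, 226] [58, 50, 42, 32, 20, 0] 100000 42106 42106
    1331578 57895 10526 100000 21053 0 26316 5263)) (.E 1))) (.E 1))) (.L 5 8 [4, 4, 4, 5] [239,
    238, 237, 236, 235, 226] [] 100000 66666 66665 1292310 61538 0 100000 38462 0 7692 15385)

lemma s21_21_9_3_37 {n : ℕ} (hn : 5 ≤ n) : NoNd (d21_21_9_3.R : ℤ) d21_21_9_3.H n d21_21_9_3.a d21_21_9_3.b
    (BlkD.inB (BlkD.upd (BlkD.upd (BlkD.upd (BlkD.upd (fun _ => 0) 0 5) 0 6) 1 8) 1 9)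
      (BlkD.upd (BlkD.upd (BlkD.upd (BlkD.upd (BlkD.upd (BlkD.upd (BlkD.upd (fun _ => 21) 0 9) 2 3) 0 7) 0 6) 1 15) 1 11) 1 9)) :=
  BlkD.tree_sound (BlkD.pairOk_sound k21_21_9_3) (by decide) hn t21_21_9_3_37 _ _ (by decide +kernel)

/-- certificates of the pair `(9, 3)`, part 38 -/
def t21_21_9_3_38 : BlkD.Tr :=
  .S 1 10 (.L 5 8 [4, 4, 4, 5] [270, 269, 268, 267, 266, 265] [] 100000 62963 62962 1266666 66667 0
    100000 33333 0 0 11111) (.L 5 8 [4, 4, 4, 5] [303, 302, 301, 300, 299, 298] [] 100000 200000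
    50000 350000 175000 0 250000 0 0 0 0)

lemma s21_21_9_3_38 {n : ℕ} (hn : 5 ≤ n) : NoNd (d21_21_9_3.R : ℤ) d21_21_9_3.H n d21_21_9_3.a d21_21_9_3.b
    (BlkD.inB (BlkD.upd (BlkD.upd (BlkD.upd (BlkD.upd (fun _ => 0) 0 5) 0 6) 1 8) 1 10)
      (BlkD.upd (BlkD.upd (BlkD.upd (BlkD.upd (BlkD.upd (BlkD.upd (fun _ => 21) 0 9) 2 3) 0 7) 0 6) 1 15) 1 11)) :=
  BlkD.tree_sound (BlkD.pairOk_sound k21_21_9_3) (by decide) hn t21_21_9_3_38 _ _ (by decide +kernel)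

/-- certificates of the pair `(9, 3)`, part 39 -/
def t21_21_9_3_39 : BlkD.Tr :=
  .E 0

lemma s21_21_9_3_39 {n : ℕ} (hn : 5 ≤ n) : NoNd (d21_21_9_3.R : ℤ) d21_21_9_3.H n d21_21_9_3.a d21_21_9_3.b
    (BlkD.inB (BlkD.upd (BlkD.upd (BlkD.upd (BlkD.upd (fun _ => 0) 0 5) 0 6) 1 8) 1 12)
      (BlkD.upd (BlkD.upd (BlkD.upd (BlkD.upd (BlkD.upd (fun _ => 21) 0 9) 2 3) 0 7) 0 6) 1 15)) :=
  BlkD.tree_sound (BlkD.pairOk_sound k21_21_9_3) (by decide) hn t21_21_9_3_39 _ _ (by decide +kernel)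

/-- certificates of the pair `(9, 3)`, part 40 -/
def t21_21_9_3_40 : BlkD.Tr :=
  .E 0

lemma s21_21_9_3_40 {n : ℕ} (hn : 5 ≤ n) : NoNd (d21_21_9_3.R : ℤ) d21_21_9_3.H n d21_21_9_3.a d21_21_9_3.b
    (BlkD.inB (BlkD.upd (BlkD.upd (BlkD.upd (fun _ => 0) 0 5) 0 6) 1 16)
      (BlkD.upd (BlkD.upd (BlkD.upd (BlkD.upd (fun _ => 21) 0 9) 2 3) 0 7) 0 6)) :=
  BlkD.tree_sound (BlkD.pairOk_sound k21_21_9_3) (by decide) hn t21_21_9_3_40 _ _ (by decide +kernel)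

/-- certificates of the pair `(9, 3)`, part 41 -/
def t21_21_9_3_41 : BlkD.Tr :=
  .L 5 8 [4, 4, 4, 5] [] [] 100000 33333 33332 1366668 44444 0 44444 33333 0 33333 33333

lemma s21_21_9_3_41 {n : ℕ} (hn : 5 ≤ n) : NoNd (d21_21_9_3.R : ℤ) d21_21_9_3.H n d21_21_9_3.a d21_21_9_3.b
    (BlkD.inB (BlkD.upd (BlkD.upd (fun _ => 0) 0 5) 0 7)
      (BlkD.upd (BlkD.upd (BlkD.upd (BlkD.upd (BlkD.upd (BlkD.upd (fun _ => 21) 0 9) 2 3) 0 7) 1 14) 1 7) 1 3)) :=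
  BlkD.tree_sound (BlkD.pairOk_sound k21_21_9_3) (by decide) hn t21_21_9_3_41 _ _ (by decide +kernel)

/-- certificates of the pair `(9, 3)`, part 42 -/
def t21_21_9_3_42 : BlkD.Tr :=
  .S 2 1 (.S 2 0 (.L 5 8 [4, 4, 4, 5] [114, 104, 92, 80, 68, 0] [] 100000 33333 33332 1300000 0 0 0
    100000 0 0 0) (.S 3 9 (.S 3 4 (.S 3 2 (.L 5 8 [4, 4, 4, 5] [114, 104, 92, 80, 68, 0] [] 100000
    33333 33332 1375000 25000 25000 25000 25000 0 0 25000) (.S 3 3 (.L 5 8 [4, 4, 4, 5] [114, 104,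
    92, 80, 68, 0] [42, 34, 24, 12, 0, 0] 100000 33334 33334 1389474 36842 0 73684 36842 0 31579
    15789) (.S 4 4 (.S 4 2 (.S 4 1 (.L 6 9 [5, 5, 3, 4] [80, 68, 0, 0, 0, 0] [58, 50, 42, 32, 20,
    0] 100000 33334 33334 1377776 55556 0 55556 27778 0 47222 25000) (.L 6 9 [5, 5, 3, 4] [92, 80,
    68, 0, 0, 0] [58, 50, 42, 32, 20, 0] 100000 33333 33332 1300000 50000 0 100000 25000 0 50000
    25000)) (.L 6 9 [5, 5, 3, 4] [114, 104, 92, 80, 68, 0] [58, 50, 42, 32, 20, 0] 100000 50000 0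
    1100000 50000 0 150000 25000 0 0 0)) (.E 2)))) (.E 1)) (.E 1))) (.S 2 2 (.S 3 8 (.S 3 4 (.S 3 2
    (.L 5 8 [4, 4, 4, 5] [114, 104, 92, 80, 68, 0] [] 100000 33333 33332 1387500 37500 0 75000
    12500 0 25000 25000) (.S 3 3 (.S 4 4 (.S 4 2 (.L 6 9 [5, 5, 3, 4] [92, 80, 68, 0, 0, 0] [48,
    40, 30, 18, 0, 0] 100000 33334 33334 1366665 41667 0 41667 66667 0 0 33333) (.L 6 9 [5, 5, 3,
    4] [114, 104, 92, 80, 68, 0] [48, 40, 30, 18, 0, 0] 100000 100000 0 800000 100000 0 200000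
    100000 0 0 0)) (.E 2)) (.E 1))) (.E 1)) (.E 1)) (.L 5 8 [4, 4, 4, 5] [114, 104, 92, 80, 68, 0]
    [] 100000 33333 33332 1340000 40000 0 40000 0 0 40000 20000))

lemma s21_21_9_3_42 {n : ℕ} (hn : 5 ≤ n) : NoNd (d21_21_9_3.R : ℤ) d21_21_9_3.H n d21_21_9_3.a d21_21_9_3.b
    (BlkD.inB (BlkD.upd (BlkD.upd (BlkD.upd (fun _ => 0) 0 5) 0 7) 1 4)
      (BlkD.upd (BlkD.upd (BlkD.upd (BlkD.upd (BlkD.upd (BlkD.upd (BlkD.upd (fun _ => 21) 0 9) 2 3) 0 7) 1 14) 1 7) 1 5) 1 4)) :=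
  BlkD.tree_sound (BlkD.pairOk_sound k21_21_9_3) (by decide) hn t21_21_9_3_42 _ _ (by decide +kernel)

/-- certificates of the pair `(9, 3)`, part 43 -/
def t21_21_9_3_43 : BlkD.Tr :=
  .S 2 1 (.S 2 0 (.L 5 8 [4, 4, 4, 5] [145, 136, 126, 114, 102, 90] [] 100000 33333 33332 1300000 0
    0 100000 100000 0 0 0) (.S 3 8 (.S 3 4 (.S 3 2 (.S 3 1 (.L 5 8 [4, 4, 4, 5] [145, 136, 126,
    114, 102, 90] [] 100000 33333 33332 1369231 30769 0 30769 30769 0 0 23077) (.S 4 5 (.S 4 2 (.L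
    5 8 [4, 4, 4, 5] [114, 102, 90, 0, 0, 0] [28, 18, 6, 0, 0, 0] 100000 32968 32968 1398084 35068
    31781 85479 41370 548 15890 21644) (.L 5 8 [4, 4, 4, 5] [145, 136, 126, 114, 102, 90] [28, 18,
    6, 0, 0, 0] 100000 25000 0 1250001 14583 0 125000 47917 0 29167 20833)) (.E 2))) (.S 3 3 (.S 4
    5 (.S 4 2 (.L 5 8 [4, 4, 4, 5] [114, 102, 90, 0, 0, 0] [42, 34, 24, 12, 0, 0] 100000 33333
    33332 1385715 42857 0 85714 42857 0 14286 19048) (.L 5 8 [4, 4, 4, 5] [145, 136, 126, 114, 102,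
    90] [42, 34, 24, 12, 0, 0] 100000 33333 6665 1220000 13333 0 126667 100000 0 0 33333)) (.E 2))
    (.S 4 5 (.S 4 2 (.L 6 9 [5, 5, 3, 4] [114, 102, 90, 0, 0, 0] [58, 50, 42, 32, 20, 0] 100000
    24490 24490 1420408 44898 0 100000 22449 0 28571 16327) (.L 6 9 [5, 5, 3, 4] [145, 136, 126,
    114, 102, 90] [58, 50, 42, 32, 20, 0] 100000 16668 1 1299998 16667 16667 116667 16667 0 50000
    33333)) (.E 2)))) (.E 1)) (.E 1))) (.S 2 2 (.S 3 7 (.S 3 3 (.S 3 1 (.L 5 8 [4, 4, 4, 5] [145,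
    136, 126, 114, 102, 90] [] 100000 33333 33332 1396875 34375 0 84375 34375 0 15625 21875) (.S 3
    2 (.S 4 5 (.S 4 2 (.L 5 8 [4, 4, 4, 5] [114, 102, 90, 0, 0, 0] [32, 22, 10, 0, 0, 0] 100000
    33333 33332 1384000 44000 0 84000 40000 0 20000 20000) (.L 5 8 [4, 4, 4, 5] [145, 136, 126,
    114, 102, 90] [32, 22, 10, 0, 0, 0] 100000 33333 6665 1220000 13333 0 126667 100000 0 0 33333))
    (.E 2)) (.S 4 5 (.S 4 2 (.L 6 9 [5, 5, 3, 4] [114, 102, 90, 0, 0, 0] [48, 40, 30, 18, 0, 0]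
    100000 57143 57141 1294284 51429 0 100000 100000 0 0 17143) (.L 6 9 [5, 5, 3, 4] [145, 136,
    126, 114, 102, 90] [48, 40, 30, 18, 0, 0] 100000 66667 0 1000000 33333 0 166667 133333 0 0 0))
    (.E 2)))) (.E 1)) (.E 1)) (.S 3 6 (.S 3 3 (.S 3 1 (.S 3 0 (.L 5 8 [4, 4, 4, 5] [145, 136, 126,
    114, 102, 90] [0, 0, 0, 0, 0, 0] 100000 29167 29167 1387500 37500 0 68750 0 6250 37500 18750)
    (.L 6 9 [5, 5, 3, 4] [145, 136, 126, 114, 102, 90] [18, 6, 0, 0, 0, 0] 100000 33333 33332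
    1381250 43750 0 87500 0 0 37500 18750)) (.E 1)) (.E 1)) (.E 1)))

lemma s21_21_9_3_43 {n : ℕ} (hn : 5 ≤ n) : NoNd (d21_21_9_3.R : ℤ) d21_21_9_3.H n d21_21_9_3.a d21_21_9_3.b
    (BlkD.inB (BlkD.upd (BlkD.upd (BlkD.upd (BlkD.upd (fun _ => 0) 0 5) 0 7) 1 4) 1 5)
      (BlkD.upd (BlkD.upd (BlkD.upd (BlkD.upd (BlkD.upd (BlkD.upd (fun _ => 21) 0 9) 2 3) 0 7) 1 14) 1 7) 1 5)) :=
  BlkD.tree_sound (BlkD.pairOk_sound k21_21_9_3) (by decide) hn t21_21_9_3_43 _ _ (by decide +kernel)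

/-- certificates of the pair `(9, 3)`, part 44 -/
def t21_21_9_3_44 : BlkD.Tr :=
  .S 2 1 (.S 2 0 (.L 6 9 [5, 5, 3, 4] [170, 169, 160, 150, 138, 126] [] 100000 33333 33332 1300000
    25000 0 100000 75000 0 0 0) (.S 3 7 (.S 3 3 (.S 3 1 (.L 5 8 [4, 4, 4, 5] [170, 169, 160, 150,
    138, 126] [] 100000 33334 33334 1390909 36364 0 72727 36364 0 0 18182) (.S 3 2 (.S 4 6 (.S 4 3
    (.L 5 8 [4, 4, 4, 5] [150, 138, 126, 114, 0, 0] [28, 18, 6, 0, 0, 0] 100000 30881 30881 1404683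
    38796 20401 97324 40134 3679 21070 20401) (.L 5 8 [4, 4, 4, 5] [170, 169, 160, 150, 138, 126]
    [28, 18, 6, 0, 0, 0] 100000 38096 1 1171429 14286 14286 138095 61905 0 2381 21429)) (.E 2)) (.S
    4 6 (.S 4 3 (.L 5 8 [4, 4, 4, 5] [150, 138, 126, 114, 0, 0] [42, 34, 24, 12, 0, 0] 100000 20000
    20000 1420000 40000 0 80000 40000 0 20000 20000) (.L 5 8 [4, 4, 4, 5] [170, 169, 160, 150, 138,
    126] [42, 34, 24, 12, 0, 0] 100000 42858 1 1142857 14286 0 142857 100000 0 0 28571)) (.E 2))))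
    (.S 3 5 (.S 3 4 (.S 4 6 (.S 4 3 (.L 5 8 [4, 4, 4, 5] [150, 138, 126, 114, 0, 0] [58, 50, 42,
    32, 20, 0] 100000 36111 36110 1383334 50000 8333 100000 16667 0 33333 16667) (.L 5 8 [4, 4, 4,
    5] [170, 169, 160, 150, 138, 126] [58, 50, 42, 32, 20, 0] 100000 25000 0 1250000 0 50000 125000
    50000 0 25000 25000)) (.E 2)) (.E 1)) (.E 1))) (.E 1))) (.S 2 2 (.S 3 6 (.S 3 3 (.S 3 1 (.S 3 0
    (.L 5 8 [4, 4, 4, 5] [170, 169, 160, 150, 138, 126] [0, 0, 0, 0, 0, 0] 100000 33334 33334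
    1390909 36364 0 72727 0 0 0 18182) (.S 4 6 (.S 4 3 (.L 5 8 [4, 4, 4, 5] [150, 138, 126, 114, 0,
    0] [16, 4, 0, 0, 0, 0] 100000 33334 33334 1376315 44737 0 94737 44737 0 10526 18421) (.L 5 8
    [4, 4, 4, 5] [170, 169, 160, 150, 138, 126] [16, 4, 0, 0, 0, 0] 100000 33334 1 1200001 0 0
    133333 0 0 0 33333)) (.E 2))) (.S 3 2 (.S 4 6 (.S 4 3 (.L 5 8 [4, 4, 4, 5] [150, 138, 126, 114,
    0, 0] [32, 22, 10, 0, 0, 0] 100000 20000 20000 1420000 40000 0 80000 40000 0 20000 20000) (.L 5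
    8 [4, 4, 4, 5] [170, 169, 160, 150, 138, 126] [32, 22, 10, 0, 0, 0] 100000 42858 1 1142857
    14286 0 142857 100000 0 0 28571)) (.E 2)) (.S 4 6 (.S 4 3 (.L 5 8 [4, 4, 4, 5] [150, 138, 126,
    114, 0, 0] [48, 40, 30, 18, 0, 0] 100000 33333 33332 1380000 40000 0 100000 60000 0 0 20000)
    (.L 5 8 [4, 4, 4, 5] [170, 169, 160, 150, 138, 126] [48, 40, 30, 18, 0, 0] 100000 100000 0
    800000 0 0 200000 200000 0 0 0)) (.E 2)))) (.E 1)) (.E 1)) (.S 3 5 (.S 3 2 (.S 3 1 (.S 3 0 (.S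
    4 6 (.S 4 3 (.L 5 8 [4, 4, 4, 5] [150, 138, 126, 114, 0, 0] [0, 0, 0, 0, 0, 0] 100000 33334
    33334 1350000 50000 0 100000 0 0 33333 16667) (.L 5 8 [4, 4, 4, 5] [170, 169, 160, 150, 138,
    126] [0, 0, 0, 0, 0, 0] 100000 60000 0 1040000 40000 0 160000 0 0 0 0)) (.E 2)) (.L 6 9 [5, 5,
    3, 4] [170, 169, 160, 150, 138, 126] [18, 6, 0, 0, 0, 0] 100000 20000 20000 1420000 40000 0
    80000 0 0 40000 20000)) (.E 1)) (.E 1)) (.E 1)))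

lemma s21_21_9_3_44 {n : ℕ} (hn : 5 ≤ n) : NoNd (d21_21_9_3.R : ℤ) d21_21_9_3.H n d21_21_9_3.a d21_21_9_3.b
    (BlkD.inB (BlkD.upd (BlkD.upd (BlkD.upd (BlkD.upd (fun _ => 0) 0 5) 0 7) 1 4) 1 6)
      (BlkD.upd (BlkD.upd (BlkD.upd (BlkD.upd (BlkD.upd (BlkD.upd (fun _ => 21) 0 9) 2 3) 0 7) 1 14) 1 7) 1 6)) :=
  BlkD.tree_sound (BlkD.pairOk_sound k21_21_9_3) (by decide) hn t21_21_9_3_44 _ _ (by decide +kernel)

/-- certificates of the pair `(9, 3)`, part 45 -/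
def t21_21_9_3_45 : BlkD.Tr :=
  .S 2 1 (.S 2 0 (.L 6 9 [5, 5, 3, 4] [197, 196, 195, 186, 176, 164] [] 100000 33333 33332 1300000
    33333 0 100000 66667 0 0 0) (.S 3 6 (.S 3 3 (.S 3 1 (.L 6 9 [5, 5, 3, 4] [197, 196, 195, 186,
    176, 164] [] 100000 33333 33332 1380000 40000 0 100000 20000 0 20000 10000) (.S 3 2 (.L 6 9 [5,
    5, 3, 4] [197, 196, 195, 186, 176, 164] [28, 18, 6, 0, 0, 0] 100000 25926 25926 1400002 33333 0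
    100000 33333 0 22222 11111) (.S 4 7 (.S 4 3 (.L 6 9 [5, 5, 3, 4] [176, 164, 152, 140, 0, 0]
    [42, 34, 24, 12, 0, 0] 100000 25000 25000 1350000 50000 0 100000 50000 0 0 25000) (.L 6 9 [5,
    5, 3, 4] [197, 196, 195, 186, 176, 164] [42, 34, 24, 12, 0, 0] 100000 25641 25640 1353846 23077
    0 100000 76923 0 15385 7692)) (.E 2)))) (.S 3 5 (.S 3 4 (.S 4 7 (.S 4 3 (.L 6 9 [5, 5, 3, 4]
    [176, 164, 152, 140, 0, 0] [58, 50, 42, 32, 20, 0] 100000 34616 0 1219231 65385 7692 134615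
    15385 0 30769 15385) (.L 6 9 [5, 5, 3, 4] [197, 196, 195, 186, 176, 164] [58, 50, 42, 32, 20,
    0] 100000 18750 0 1337500 12500 25000 118750 50000 0 25000 12500)) (.E 2)) (.E 1)) (.E 1))) (.E
    1))) (.S 2 2 (.S 3 5 (.S 3 2 (.S 3 1 (.L 6 9 [5, 5, 3, 4] [197, 196, 195, 186, 176, 164] []
    100000 33334 33334 1384614 38462 0 100000 38462 0 15385 7692) (.S 4 7 (.S 4 3 (.L 6 9 [5, 5, 3,
    4] [176, 164, 152, 140, 0, 0] [32, 22, 10, 0, 0, 0] 100000 25000 25000 1350000 50000 0 100000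
    50000 0 0 25000) (.L 6 9 [5, 5, 3, 4] [197, 196, 195, 186, 176, 164] [32, 22, 10, 0, 0, 0]
    100000 25641 25640 1353846 23077 0 100000 76923 0 15385 7692)) (.E 2))) (.S 3 4 (.S 3 3 (.S 4 7
    (.S 4 3 (.L 6 9 [5, 5, 3, 4] [176, 164, 152, 140, 0, 0] [48, 40, 30, 18, 0, 0] 100000 100000 0
    800000 100000 0 200000 100000 0 0 0) (.L 6 9 [5, 5, 3, 4] [197, 196, 195, 186, 176, 164] [48,
    40, 30, 18, 0, 0] 100000 75000 0 975000 25000 0 175000 150000 0 0 0)) (.E 2)) (.E 1)) (.E 1)))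
    (.E 1)) (.L 6 9 [5, 5, 3, 4] [197, 196, 195, 186, 176, 164] [] 100000 18519 18519 1400001 33333
    0 100000 0 0 44444 22222))

lemma s21_21_9_3_45 {n : ℕ} (hn : 5 ≤ n) : NoNd (d21_21_9_3.R : ℤ) d21_21_9_3.H n d21_21_9_3.a d21_21_9_3.b
    (BlkD.inB (BlkD.upd (BlkD.upd (BlkD.upd (BlkD.upd (BlkD.upd (fun _ => 0) 0 5) 0 7) 1 4) 1 6) 1 7)
      (BlkD.upd (BlkD.upd (BlkD.upd (BlkD.upd (BlkD.upd (fun _ => 21) 0 9) 2 3) 0 7) 1 14) 1 7)) :=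
  BlkD.tree_sound (BlkD.pairOk_sound k21_21_9_3) (by decide) hn t21_21_9_3_45 _ _ (by decide +kernel)

/-- certificates of the pair `(9, 3)`, part 46 -/
def t21_21_9_3_46 : BlkD.Tr :=
  .S 1 11 (.S 1 9 (.S 1 8 (.L 6 9 [5, 5, 3, 4] [226, 225, 224, 223, 214, 204] [] 100000 38889 38889
    1350000 50000 0 100000 50000 0 0 16667) (.L 6 9 [5, 5, 3, 4] [257, 256, 255, 254, 253, 244] []
    100000 45455 45455 1281819 72727 0 100000 18182 0 9091 4545)) (.E 0)) (.E 0)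

lemma s21_21_9_3_46 {n : ℕ} (hn : 5 ≤ n) : NoNd (d21_21_9_3.R : ℤ) d21_21_9_3.H n d21_21_9_3.a d21_21_9_3.b
    (BlkD.inB (BlkD.upd (BlkD.upd (BlkD.upd (fun _ => 0) 0 5) 0 7) 1 8)
      (BlkD.upd (BlkD.upd (BlkD.upd (BlkD.upd (fun _ => 21) 0 9) 2 3) 0 7) 1 14)) :=
  BlkD.tree_sound (BlkD.pairOk_sound k21_21_9_3) (by decide) hn t21_21_9_3_46 _ _ (by decide +kernel)

/-- certificates of the pair `(9, 3)`, part 47 -/
def t21_21_9_3_47 : BlkD.Tr :=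
  .E 0

lemma s21_21_9_3_47 {n : ℕ} (hn : 5 ≤ n) : NoNd (d21_21_9_3.R : ℤ) d21_21_9_3.H n d21_21_9_3.a d21_21_9_3.b
    (BlkD.inB (BlkD.upd (BlkD.upd (BlkD.upd (fun _ => 0) 0 5) 0 7) 1 15)
      (BlkD.upd (BlkD.upd (BlkD.upd (fun _ => 21) 0 9) 2 3) 0 7)) :=
  BlkD.tree_sound (BlkD.pairOk_sound k21_21_9_3) (by decide) hn t21_21_9_3_47 _ _ (by decide +kernel)

/-- certificates of the pair `(9, 3)`, part 48 -/
def t21_21_9_3_48 : BlkD.Tr :=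
  .S 0 8 (.S 1 13 (.S 1 6 (.S 1 3 (.S 1 1 (.L 6 9 [5, 5, 3, 4] [] [] 100000 33333 33332 1300000
    100000 0 100000 50000 0 33333 0) (.S 1 2 (.L 6 9 [5, 5, 3, 4] [58, 46, 34, 0, 0, 0] [] 100000
    33334 33334 1385714 50000 14286 57143 57143 0 42857 21429) (.L 6 9 [5, 5, 3, 4] [90, 78, 66,
    54, 0, 0] [] 100000 32660 32659 1400001 49495 6061 100000 33333 1010 18182 18182))) (.S 1 5 (.S
    1 4 (.S 2 1 (.L 5 8 [4, 4, 4, 5] [122, 112, 100, 88, 76, 0] [] 100000 33333 33332 1385716 28571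
    28571 100000 57143 0 7143 21429) (.L 5 8 [4, 4, 4, 5] [122, 112, 100, 88, 76, 0] [] 100000
    30435 30434 1400000 34783 0 95652 56522 4348 0 17391)) (.S 2 1 (.L 5 8 [4, 4, 4, 5] [155, 146,
    136, 124, 112, 100] [] 100000 33333 33332 1388890 33333 22222 100000 44444 0 5556 16667) (.L 5
    8 [4, 4, 4, 5] [155, 146, 136, 124, 112, 100] [] 100000 33333 33332 1366667 33333 0 100000
    66667 0 0 16667))) (.L 5 8 [4, 4, 4, 5] [182, 181, 172, 162, 150, 138] [] 100000 33333 33332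
    1360000 40000 0 100000 60000 0 0 20000))) (.L 5 8 [4, 4, 4, 5] [] [] 100000 50000 0 1100000 0 0
    150000 50000 0 0 0)) (.E 0)) (.L 5 8 [4, 4, 4, 5] [] [] 100000 29167 29167 1406250 0 31250
    96875 46875 6250 23438 23438)

lemma s21_21_9_3_48 {n : ℕ} (hn : 5 ≤ n) : NoNd (d21_21_9_3.R : ℤ) d21_21_9_3.H n d21_21_9_3.a d21_21_9_3.b
    (BlkD.inB (BlkD.upd (BlkD.upd (fun _ => 0) 0 5) 0 8)
      (BlkD.upd (BlkD.upd (fun _ => 21) 0 9) 2 3)) :=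
  BlkD.tree_sound (BlkD.pairOk_sound k21_21_9_3) (by decide) hn t21_21_9_3_48 _ _ (by decide +kernel)

/-- certificates of the pair `(9, 3)`, part 49 -/
def t21_21_9_3_49 : BlkD.Tr :=
  .E 1

lemma s21_21_9_3_49 {n : ℕ} (hn : 5 ≤ n) : NoNd (d21_21_9_3.R : ℤ) d21_21_9_3.H n d21_21_9_3.a d21_21_9_3.b
    (BlkD.inB (BlkD.upd (fun _ => 0) 2 4)
      (BlkD.upd (fun _ => 21) 0 9)) :=
  BlkD.tree_sound (BlkD.pairOk_sound k21_21_9_3) (by decide) hn t21_21_9_3_49 _ _ (by decide +kernel)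

/-- certificates of the pair `(9, 3)`, part 50 -/
def t21_21_9_3_50 : BlkD.Tr :=
  .E 0

lemma s21_21_9_3_50 {n : ℕ} (hn : 5 ≤ n) : NoNd (d21_21_9_3.R : ℤ) d21_21_9_3.H n d21_21_9_3.a d21_21_9_3.b
    (BlkD.inB (BlkD.upd (fun _ => 0) 0 10)
      (fun _ => 21)) :=
  BlkD.tree_sound (BlkD.pairOk_sound k21_21_9_3) (by decide) hn t21_21_9_3_50 _ _ (by decide +kernel)

lemma pr21_21_9_3 {n : ℕ} (hn : 5 ≤ n) : NoPr ((21 : ℕ) : ℤ) ((21 : ℕ) : ℤ) n 9 3 :=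
  BlkD.of_root (R := d21_21_9_3.R) (H := d21_21_9_3.H) (a := d21_21_9_3.a) (b := d21_21_9_3.b) (q := 3) (by decide) hn
    (BlkD.sp 0 9 (BlkD.sp 2 3 (BlkD.sp 0 4 (BlkD.sp 0 2 (BlkD.sp 0 1 (BlkD.sp 0 0 (s21_21_9_3_1 hn)
      (BlkD.sp 1 10 (s21_21_9_3_2 hn) (s21_21_9_3_3 hn))) (BlkD.sp 1 10 (BlkD.sp 1 5 (s21_21_9_3_4
      hn) (s21_21_9_3_5 hn)) (s21_21_9_3_6 hn))) (BlkD.sp 0 3 (BlkD.sp 1 18 (BlkD.sp 1 9 (BlkD.sp 1
      4 (s21_21_9_3_7 hn) (s21_21_9_3_8 hn)) (s21_21_9_3_9 hn)) (s21_21_9_3_10 hn)) (BlkD.sp 1 17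
      (BlkD.sp 1 8 (BlkD.sp 1 4 (s21_21_9_3_11 hn) (s21_21_9_3_12 hn)) (BlkD.sp 1 13 (BlkD.sp 1 11
      (BlkD.sp 1 10 (BlkD.sp 1 9 (s21_21_9_3_13 hn) (s21_21_9_3_14 hn)) (s21_21_9_3_15 hn))
      (s21_21_9_3_16 hn)) (s21_21_9_3_17 hn))) (s21_21_9_3_18 hn)))) (BlkD.sp 0 7 (BlkD.sp 0 6
      (BlkD.sp 0 5 (BlkD.sp 1 16 (BlkD.sp 1 8 (BlkD.sp 1 4 (s21_21_9_3_19 hn) (BlkD.sp 1 6
      (s21_21_9_3_20 hn) (BlkD.sp 1 7 (s21_21_9_3_21 hn) (BlkD.sp 2 1 (s21_21_9_3_22 hn)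
      (s21_21_9_3_23 hn))))) (BlkD.sp 1 12 (BlkD.sp 1 10 (BlkD.sp 1 9 (BlkD.sp 2 1 (s21_21_9_3_24
      hn) (s21_21_9_3_25 hn)) (s21_21_9_3_26 hn)) (s21_21_9_3_27 hn)) (s21_21_9_3_28 hn)))
      (s21_21_9_3_29 hn)) (BlkD.sp 1 15 (BlkD.sp 1 7 (BlkD.sp 1 3 (s21_21_9_3_30 hn) (BlkD.sp 1 5
      (s21_21_9_3_31 hn) (BlkD.sp 1 6 (s21_21_9_3_32 hn) (BlkD.sp 2 1 (s21_21_9_3_33 hn)
      (s21_21_9_3_34 hn))))) (BlkD.sp 1 11 (BlkD.sp 1 9 (BlkD.sp 1 8 (BlkD.sp 2 1 (s21_21_9_3_35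
      hn) (s21_21_9_3_36 hn)) (s21_21_9_3_37 hn)) (s21_21_9_3_38 hn)) (s21_21_9_3_39 hn)))
      (s21_21_9_3_40 hn))) (BlkD.sp 1 14 (BlkD.sp 1 7 (BlkD.sp 1 3 (s21_21_9_3_41 hn) (BlkD.sp 1 5
      (BlkD.sp 1 4 (s21_21_9_3_42 hn) (s21_21_9_3_43 hn)) (BlkD.sp 1 6 (s21_21_9_3_44 hn)
      (s21_21_9_3_45 hn)))) (s21_21_9_3_46 hn)) (s21_21_9_3_47 hn))) (s21_21_9_3_48 hn)))
      (s21_21_9_3_49 hn)) (s21_21_9_3_50 hn))

end BlkC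

end Pool.Agent.Lib.MP_f04ccf_co
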