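import Pool.Agent.Lib.MP_f04ccf_co.M.BlkT

/-!
MP_f04ccf_co, block certificate, data `R = 21`, `H = 21`, part 16 (generated, helper99:
bd10.cpp, gen2.py).
-/

set_option autoImplicit false
set_option maxRecDepth 100000

namespace Pool.Agent.Lib.MP_f04ccf_co

namespace BlkC

/-- the numbers of the pair `(9, 4)`, `R = 21`, `H = 21` -/
def d21_21_9_4 : BlkD.Pd :=
  ⟨21, 21, 3, 9, 4, 5, 2, 3, 1, 4, 10, 0, 2, 2, 8, 0, [0, 10, 20, 23, 24, 25], [0, 8, 14, 16, 18,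
    20], [⟨1, 1, 1, 4, 8, [0, 4], [0, 4]⟩, ⟨1, 1, 1, 4, 14, [0, 8], [0, 6]⟩, ⟨2, 1, 1, 4, 22, [0,
    10, 14], [0, 8]⟩]⟩

lemma k21_21_9_4 : BlkD.pairOk d21_21_9_4 = true := by decide +kernel

/-- certificates of the pair `(9, 4)`, part 1 -/
def t21_21_9_4_1 : BlkD.Tr :=
  .L 5 6 [4, 4, 5, 21, 21] [] [] 100000 138461 138461 1169232 76923 0 84615 46154 0 0 0

lemma s21_21_9_4_1 {n : ℕ} (hn : 5 ≤ n) : NoNd (d21_21_9_4.R : ℤ) d21_21_9_4.H n d21_21_9_4.a d21_21_9_4.b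
    (BlkD.inB (fun _ => 0)
      (BlkD.upd (BlkD.upd (BlkD.upd (BlkD.upd (BlkD.upd (BlkD.upd (fun _ => 21) 0 9) 2 4) 0 4) 0 2) 0 1) 0 0)) :=
  BlkD.tree_sound (BlkD.pairOk_sound k21_21_9_4) (by decide) hn t21_21_9_4_1 _ _ (by decide +kernel)

/-- certificates of the pair `(9, 4)`, part 2 -/
def t21_21_9_4_2 : BlkD.Tr :=
  .L 5 6 [4, 4, 5, 21, 21] [] [] 100000 138461 138461 1169232 76923 0 84615 46154 0 0 0

lemma s21_21_9_4_2 {n : ℕ} (hn : 5 ≤ n) : NoNd (d21_21_9_4.R : ℤ) d21_21_9_4.H n d21_21_9_4.a d21_21_9_4.b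
    (BlkD.inB (BlkD.upd (fun _ => 0) 0 1)
      (BlkD.upd (BlkD.upd (BlkD.upd (BlkD.upd (BlkD.upd (BlkD.upd (BlkD.upd (fun _ => 21) 0 9) 2 4) 0 4) 0 2) 0 1) 1 10) 1 5)) :=
  BlkD.tree_sound (BlkD.pairOk_sound k21_21_9_4) (by decide) hn t21_21_9_4_2 _ _ (by decide +kernel)

/-- certificates of the pair `(9, 4)`, part 3 -/
def t21_21_9_4_3 : BlkD.Tr :=
  .L 5 6 [4, 4, 5, 21, 21] [] [] 100000 138461 138461 1169232 76923 0 84615 46154 0 0 0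

lemma s21_21_9_4_3 {n : ℕ} (hn : 5 ≤ n) : NoNd (d21_21_9_4.R : ℤ) d21_21_9_4.H n d21_21_9_4.a d21_21_9_4.b
    (BlkD.inB (BlkD.upd (BlkD.upd (fun _ => 0) 0 1) 1 6)
      (BlkD.upd (BlkD.upd (BlkD.upd (BlkD.upd (BlkD.upd (BlkD.upd (fun _ => 21) 0 9) 2 4) 0 4) 0 2) 0 1) 1 10)) :=
  BlkD.tree_sound (BlkD.pairOk_sound k21_21_9_4) (by decide) hn t21_21_9_4_3 _ _ (by decide +kernel)

/-- certificates of the pair `(9, 4)`, part 4 -/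
def t21_21_9_4_4 : BlkD.Tr :=
  .L 5 6 [4, 4, 5, 21, 21] [] [] 100000 138461 138461 1169232 76923 0 84615 46154 0 0 0

lemma s21_21_9_4_4 {n : ℕ} (hn : 5 ≤ n) : NoNd (d21_21_9_4.R : ℤ) d21_21_9_4.H n d21_21_9_4.a d21_21_9_4.b
    (BlkD.inB (BlkD.upd (BlkD.upd (fun _ => 0) 0 1) 1 11)
      (BlkD.upd (BlkD.upd (BlkD.upd (BlkD.upd (BlkD.upd (fun _ => 21) 0 9) 2 4) 0 4) 0 2) 0 1)) :=
  BlkD.tree_sound (BlkD.pairOk_sound k21_21_9_4) (by decide) hn t21_21_9_4_4 _ _ (by decide +kernel)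

/-- certificates of the pair `(9, 4)`, part 5 -/
def t21_21_9_4_5 : BlkD.Tr :=
  .L 5 6 [4, 4, 5, 21, 21] [] [] 100000 138461 138461 1169232 76923 0 84615 46154 0 0 0

lemma s21_21_9_4_5 {n : ℕ} (hn : 5 ≤ n) : NoNd (d21_21_9_4.R : ℤ) d21_21_9_4.H n d21_21_9_4.a d21_21_9_4.b
    (BlkD.inB (BlkD.upd (fun _ => 0) 0 2)
      (BlkD.upd (BlkD.upd (BlkD.upd (BlkD.upd (BlkD.upd (BlkD.upd (fun _ => 21) 0 9) 2 4) 0 4) 0 2) 1 10) 1 5)) :=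
  BlkD.tree_sound (BlkD.pairOk_sound k21_21_9_4) (by decide) hn t21_21_9_4_5 _ _ (by decide +kernel)

/-- certificates of the pair `(9, 4)`, part 6 -/
def t21_21_9_4_6 : BlkD.Tr :=
  .S 1 8 (.L 5 6 [4, 4, 5, 21, 21] [] [] 100000 138461 138461 1169232 76923 0 84615 46154 0 0 0)
    (.L 5 6 [4, 4, 5, 21, 21] [] [] 100000 138461 138461 1169232 76923 0 84615 46154 0 0 0)

lemma s21_21_9_4_6 {n : ℕ} (hn : 5 ≤ n) : NoNd (d21_21_9_4.R : ℤ) d21_21_9_4.H n d21_21_9_4.a d21_21_9_4.b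
    (BlkD.inB (BlkD.upd (BlkD.upd (fun _ => 0) 0 2) 1 6)
      (BlkD.upd (BlkD.upd (BlkD.upd (BlkD.upd (BlkD.upd (fun _ => 21) 0 9) 2 4) 0 4) 0 2) 1 10)) :=
  BlkD.tree_sound (BlkD.pairOk_sound k21_21_9_4) (by decide) hn t21_21_9_4_6 _ _ (by decide +kernel)

/-- certificates of the pair `(9, 4)`, part 7 -/
def t21_21_9_4_7 : BlkD.Tr :=
  .S 1 16 (.S 1 13 (.L 5 6 [4, 4, 5, 21, 21] [] [] 100000 138461 138461 1169232 76923 0 84615 46154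
    0 0 0) (.L 5 6 [4, 4, 5, 21, 21] [] [] 100000 138461 138461 1169232 76923 0 84615 46154 0 0 0))
    (.L 5 6 [4, 4, 5, 21, 21] [] [] 100000 138461 138461 1169232 76923 0 84615 46154 0 0 0)

lemma s21_21_9_4_7 {n : ℕ} (hn : 5 ≤ n) : NoNd (d21_21_9_4.R : ℤ) d21_21_9_4.H n d21_21_9_4.a d21_21_9_4.b
    (BlkD.inB (BlkD.upd (BlkD.upd (fun _ => 0) 0 2) 1 11)
      (BlkD.upd (BlkD.upd (BlkD.upd (BlkD.upd (fun _ => 21) 0 9) 2 4) 0 4) 0 2)) :=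
  BlkD.tree_sound (BlkD.pairOk_sound k21_21_9_4) (by decide) hn t21_21_9_4_7 _ _ (by decide +kernel)

/-- certificates of the pair `(9, 4)`, part 8 -/
def t21_21_9_4_8 : BlkD.Tr :=
  .L 5 7 [4, 4, 4, 21, 21] [] [] 100000 4527 4527 1544827 31897 0 41810 34052 0 22845 22845

lemma s21_21_9_4_8 {n : ℕ} (hn : 5 ≤ n) : NoNd (d21_21_9_4.R : ℤ) d21_21_9_4.H n d21_21_9_4.a d21_21_9_4.b
    (BlkD.inB (BlkD.upd (fun _ => 0) 0 3)
      (BlkD.upd (BlkD.upd (BlkD.upd (BlkD.upd (BlkD.upd (BlkD.upd (BlkD.upd (fun _ => 21) 0 9) 2 4) 0 4) 0 3) 1 18) 1 9) 1 4)) :=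
  BlkD.tree_sound (BlkD.pairOk_sound k21_21_9_4) (by decide) hn t21_21_9_4_8 _ _ (by decide +kernel)

/-- certificates of the pair `(9, 4)`, part 9 -/
def t21_21_9_4_9 : BlkD.Tr :=
  .S 1 7 (.L 5 7 [4, 4, 4, 21, 21] [] [] 100000 4527 4527 1544827 31897 0 41810 34052 0 22845
    22845) (.L 5 7 [4, 4, 4, 21, 21] [] [] 100000 4527 4527 1544827 31897 0 41810 34052 0 22845
    22845)

lemma s21_21_9_4_9 {n : ℕ} (hn : 5 ≤ n) : NoNd (d21_21_9_4.R : ℤ) d21_21_9_4.H n d21_21_9_4.a d21_21_9_4.b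
    (BlkD.inB (BlkD.upd (BlkD.upd (fun _ => 0) 0 3) 1 5)
      (BlkD.upd (BlkD.upd (BlkD.upd (BlkD.upd (BlkD.upd (BlkD.upd (fun _ => 21) 0 9) 2 4) 0 4) 0 3) 1 18) 1 9)) :=
  BlkD.tree_sound (BlkD.pairOk_sound k21_21_9_4) (by decide) hn t21_21_9_4_9 _ _ (by decide +kernel)

/-- certificates of the pair `(9, 4)`, part 10 -/
def t21_21_9_4_10 : BlkD.Tr :=
  .S 1 11 (.S 1 10 (.L 5 7 [4, 4, 4, 21, 21] [207, 206, 205, 204, 203, 200] [] 100000 31251 31251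
    1429166 54167 0 62500 20833 0 0 0) (.L 5 7 [4, 4, 4, 21, 21] [234, 233, 232, 231, 230, 229] []
    100000 62500 62500 1370000 65000 0 70000 25000 0 0 0)) (.L 5 7 [4, 4, 4, 21, 21] [263, 262,
    261, 260, 259, 258] [] 100000 141177 123530 1000000 117647 0 117647 11765 0 0 0)

lemma s21_21_9_4_10 {n : ℕ} (hn : 5 ≤ n) : NoNd (d21_21_9_4.R : ℤ) d21_21_9_4.H n d21_21_9_4.a d21_21_9_4.b
    (BlkD.inB (BlkD.upd (BlkD.upd (fun _ => 0) 0 3) 1 10)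
      (BlkD.upd (BlkD.upd (BlkD.upd (BlkD.upd (BlkD.upd (BlkD.upd (BlkD.upd (fun _ => 21) 0 9) 2 4) 0 4) 0 3) 1 18) 1 14) 1 12)) :=
  BlkD.tree_sound (BlkD.pairOk_sound k21_21_9_4) (by decide) hn t21_21_9_4_10 _ _ (by decide +kernel)

/-- certificates of the pair `(9, 4)`, part 11 -/
def t21_21_9_4_11 : BlkD.Tr :=
  .S 1 13 (.L 5 7 [4, 4, 4, 21, 21] [294, 293, 292, 291, 290, 289] [] 100000 433334 266667 0 266667
    0 266667 0 0 0 0) (.L 5 7 [4, 4, 4, 21, 21] [327, 326, 325, 324, 323, 322] [] 100000 350000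
    225000 0 225000 0 225000 0 0 0 0)

lemma s21_21_9_4_11 {n : ℕ} (hn : 5 ≤ n) : NoNd (d21_21_9_4.R : ℤ) d21_21_9_4.H n d21_21_9_4.a d21_21_9_4.b
    (BlkD.inB (BlkD.upd (BlkD.upd (BlkD.upd (fun _ => 0) 0 3) 1 10) 1 13)
      (BlkD.upd (BlkD.upd (BlkD.upd (BlkD.upd (BlkD.upd (BlkD.upd (fun _ => 21) 0 9) 2 4) 0 4) 0 3) 1 18) 1 14)) :=
  BlkD.tree_sound (BlkD.pairOk_sound k21_21_9_4) (by decide) hn t21_21_9_4_11 _ _ (by decide +kernel)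

/-- certificates of the pair `(9, 4)`, part 12 -/
def t21_21_9_4_12 : BlkD.Tr :=
  .L 5 7 [4, 4, 4, 21, 21] [] [] 100000 600000 500000 0 200000 0 200000 0 0 0 0

lemma s21_21_9_4_12 {n : ℕ} (hn : 5 ≤ n) : NoNd (d21_21_9_4.R : ℤ) d21_21_9_4.H n d21_21_9_4.a d21_21_9_4.b
    (BlkD.inB (BlkD.upd (BlkD.upd (BlkD.upd (fun _ => 0) 0 3) 1 10) 1 15)
      (BlkD.upd (BlkD.upd (BlkD.upd (BlkD.upd (BlkD.upd (fun _ => 21) 0 9) 2 4) 0 4) 0 3) 1 18)) :=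
  BlkD.tree_sound (BlkD.pairOk_sound k21_21_9_4) (by decide) hn t21_21_9_4_12 _ _ (by decide +kernel)

/-- certificates of the pair `(9, 4)`, part 13 -/
def t21_21_9_4_13 : BlkD.Tr :=
  .E 0

lemma s21_21_9_4_13 {n : ℕ} (hn : 5 ≤ n) : NoNd (d21_21_9_4.R : ℤ) d21_21_9_4.H n d21_21_9_4.a d21_21_9_4.b
    (BlkD.inB (BlkD.upd (BlkD.upd (fun _ => 0) 0 3) 1 19)
      (BlkD.upd (BlkD.upd (BlkD.upd (BlkD.upd (fun _ => 21) 0 9) 2 4) 0 4) 0 3)) :=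
  BlkD.tree_sound (BlkD.pairOk_sound k21_21_9_4) (by decide) hn t21_21_9_4_13 _ _ (by decide +kernel)

/-- certificates of the pair `(9, 4)`, part 14 -/
def t21_21_9_4_14 : BlkD.Tr :=
  .S 1 4 (.L 5 7 [4, 4, 4, 21, 21] [] [] 100000 15910 15910 1545454 36364 0 40909 31818 0 4545
    4545) (.L 5 7 [4, 4, 4, 21, 21] [] [] 100000 15910 15910 1545454 36364 0 40909 31818 0 4545
    4545)

lemma s21_21_9_4_14 {n : ℕ} (hn : 5 ≤ n) : NoNd (d21_21_9_4.R : ℤ) d21_21_9_4.H n d21_21_9_4.a d21_21_9_4.b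
    (BlkD.inB (BlkD.upd (BlkD.upd (fun _ => 0) 0 3) 0 4)
      (BlkD.upd (BlkD.upd (BlkD.upd (BlkD.upd (BlkD.upd (fun _ => 21) 0 9) 2 4) 0 4) 1 17) 1 8)) :=
  BlkD.tree_sound (BlkD.pairOk_sound k21_21_9_4) (by decide) hn t21_21_9_4_14 _ _ (by decide +kernel)

/-- certificates of the pair `(9, 4)`, part 15 -/
def t21_21_9_4_15 : BlkD.Tr :=
  .S 1 10 (.S 1 9 (.L 5 7 [4, 4, 4, 21, 21] [200, 199, 198, 197, 194, 190] [] 100000 44446 44446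
    1455554 55556 0 66667 33333 0 0 0) (.L 5 7 [4, 4, 4, 21, 21] [227, 226, 225, 224, 223, 220] []
    100000 66668 66668 1433332 66667 0 66667 33333 0 0 0)) (.L 5 7 [4, 4, 4, 21, 21] [256, 255,
    254, 253, 252, 251] [] 100000 150000 150000 1200000 100000 0 100000 50000 0 0 0)

lemma s21_21_9_4_15 {n : ℕ} (hn : 5 ≤ n) : NoNd (d21_21_9_4.R : ℤ) d21_21_9_4.H n d21_21_9_4.a d21_21_9_4.b
    (BlkD.inB (BlkD.upd (BlkD.upd (BlkD.upd (fun _ => 0) 0 3) 0 4) 1 9)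
      (BlkD.upd (BlkD.upd (BlkD.upd (BlkD.upd (BlkD.upd (BlkD.upd (fun _ => 21) 0 9) 2 4) 0 4) 1 17) 1 13) 1 11)) :=
  BlkD.tree_sound (BlkD.pairOk_sound k21_21_9_4) (by decide) hn t21_21_9_4_15 _ _ (by decide +kernel)

/-- certificates of the pair `(9, 4)`, part 16 -/
def t21_21_9_4_16 : BlkD.Tr :=
  .S 1 12 (.L 5 7 [4, 4, 4, 21, 21] [287, 286, 285, 284, 283, 282] [] 100000 172500 137500 940000
    130000 0 135000 20000 0 0 0) (.L 5 7 [4, 4, 4, 21, 21] [320, 319, 318, 317, 316, 315] [] 100000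
    396428 210714 2 235714 0 285714 0 0 0 0)

lemma s21_21_9_4_16 {n : ℕ} (hn : 5 ≤ n) : NoNd (d21_21_9_4.R : ℤ) d21_21_9_4.H n d21_21_9_4.a d21_21_9_4.b
    (BlkD.inB (BlkD.upd (BlkD.upd (BlkD.upd (BlkD.upd (fun _ => 0) 0 3) 0 4) 1 9) 1 12)
      (BlkD.upd (BlkD.upd (BlkD.upd (BlkD.upd (BlkD.upd (fun _ => 21) 0 9) 2 4) 0 4) 1 17) 1 13)) :=
  BlkD.tree_sound (BlkD.pairOk_sound k21_21_9_4) (by decide) hn t21_21_9_4_16 _ _ (by decide +kernel)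

/-- certificates of the pair `(9, 4)`, part 17 -/
def t21_21_9_4_17 : BlkD.Tr :=
  .S 1 15 (.S 1 14 (.L 5 7 [4, 4, 4, 21, 21] [355, 354, 353, 352, 351, 350] [] 100000 350000 225000
    0 225000 0 225000 0 0 0 0) (.L 5 7 [4, 4, 4, 21, 21] [392, 391, 390, 389, 388, 387] [] 100000
    225000 100000 3 183333 0 225000 0 0 0 0)) (.S 1 16 (.L 5 7 [4, 4, 4, 21, 21] [431, 430, 429,
    428, 427, 426] [] 100000 177272 63636 4 163636 0 213636 0 0 0 0) (.L 5 7 [4, 4, 4, 21, 21]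
    [472, 471, 470, 469, 468, 467] [] 100000 110000 0 0 140000 0 210000 0 0 0 0))

lemma s21_21_9_4_17 {n : ℕ} (hn : 5 ≤ n) : NoNd (d21_21_9_4.R : ℤ) d21_21_9_4.H n d21_21_9_4.a d21_21_9_4.b
    (BlkD.inB (BlkD.upd (BlkD.upd (BlkD.upd (BlkD.upd (fun _ => 0) 0 3) 0 4) 1 9) 1 14)
      (BlkD.upd (BlkD.upd (BlkD.upd (BlkD.upd (fun _ => 21) 0 9) 2 4) 0 4) 1 17)) :=
  BlkD.tree_sound (BlkD.pairOk_sound k21_21_9_4) (by decide) hn t21_21_9_4_17 _ _ (by decide +kernel)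

/-- certificates of the pair `(9, 4)`, part 18 -/
def t21_21_9_4_18 : BlkD.Tr :=
  .E 0

lemma s21_21_9_4_18 {n : ℕ} (hn : 5 ≤ n) : NoNd (d21_21_9_4.R : ℤ) d21_21_9_4.H n d21_21_9_4.a d21_21_9_4.b
    (BlkD.inB (BlkD.upd (BlkD.upd (BlkD.upd (fun _ => 0) 0 3) 0 4) 1 18)
      (BlkD.upd (BlkD.upd (BlkD.upd (fun _ => 21) 0 9) 2 4) 0 4)) :=
  BlkD.tree_sound (BlkD.pairOk_sound k21_21_9_4) (by decide) hn t21_21_9_4_18 _ _ (by decide +kernel)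

/-- certificates of the pair `(9, 4)`, part 19 -/
def t21_21_9_4_19 : BlkD.Tr :=
  .L 5 7 [4, 4, 4, 21, 21] [] [] 100000 10000 10000 1440000 20000 0 20000 40000 0 0 0

lemma s21_21_9_4_19 {n : ℕ} (hn : 5 ≤ n) : NoNd (d21_21_9_4.R : ℤ) d21_21_9_4.H n d21_21_9_4.a d21_21_9_4.b
    (BlkD.inB (BlkD.upd (fun _ => 0) 0 5)
      (BlkD.upd (BlkD.upd (BlkD.upd (BlkD.upd (BlkD.upd (BlkD.upd (BlkD.upd (BlkD.upd (fun _ => 21) 0 9) 2 4) 0 7) 0 6) 0 5) 1 16) 1 8) 1 4)) :=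
  BlkD.tree_sound (BlkD.pairOk_sound k21_21_9_4) (by decide) hn t21_21_9_4_19 _ _ (by decide +kernel)

/-- certificates of the pair `(9, 4)`, part 20 -/
def t21_21_9_4_20 : BlkD.Tr :=
  .S 1 6 (.L 5 7 [4, 4, 4, 21, 21] [] [] 100000 7043 7043 1530987 33803 0 45070 45070 0 19718
    19718) (.S 1 7 (.L 5 7 [4, 4, 4, 21, 21] [166, 165, 162, 158, 148, 138] [] 100000 13427 13427
    1566668 38889 0 44444 30556 0 12037 12037) (.S 2 2 (.S 2 1 (.L 5 7 [4, 4, 4, 21, 21] [191, 190,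
    189, 186, 182, 172] [] 100000 87500 87500 1400000 50000 50000 75000 75000 0 0 0) (.S 3 6 (.S 3
    3 (.S 3 1 (.L 5 7 [4, 4, 4, 21, 21] [191, 190, 189, 186, 182, 172] [] 100000 18183 18183
    1490910 36364 0 54545 0 0 0 0) (.S 3 2 (.L 5 7 [4, 4, 4, 21, 21] [191, 190, 189, 186, 182, 172]
    [36, 24, 10, 0, 0, 0] 100000 15385 15385 1546155 30769 15385 46154 30769 0 0 0) (.L 7 9 [5, 4,
    3, 21, 21] [191, 190, 189, 186, 182, 172] [52, 44, 32, 18, 0, 0] 100000 4840 4840 1587095 38710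
    0 58065 58065 0 29032 0))) (.L 7 9 [5, 4, 3, 21, 21] [191, 190, 189, 186, 182, 172] [] 100000
    91668 91668 1399999 66667 0 100000 50000 0 0 0)) (.E 1))) (.S 2 3 (.S 3 5 (.S 3 2 (.L 5 7 [4,
    4, 4, 21, 21] [191, 190, 189, 186, 182, 172] [] 100000 6250 6250 1575000 37500 0 50000 12500 0
    25000 25000) (.L 5 7 [4, 4, 4, 21, 21] [191, 190, 189, 186, 182, 172] [] 100000 200000 200000
    1100000 100000 0 100000 100000 0 0 0)) (.E 1)) (.L 5 7 [4, 4, 4, 21, 21] [191, 190, 189, 186,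
    182, 172] [] 100000 50000 50000 1473336 53333 0 66667 0 0 33333 33333))))

lemma s21_21_9_4_20 {n : ℕ} (hn : 5 ≤ n) : NoNd (d21_21_9_4.R : ℤ) d21_21_9_4.H n d21_21_9_4.a d21_21_9_4.b
    (BlkD.inB (BlkD.upd (BlkD.upd (fun _ => 0) 0 5) 1 5)
      (BlkD.upd (BlkD.upd (BlkD.upd (BlkD.upd (BlkD.upd (BlkD.upd (BlkD.upd (fun _ => 21) 0 9) 2 4) 0 7) 0 6) 0 5) 1 16) 1 8)) :=
  BlkD.tree_sound (BlkD.pairOk_sound k21_21_9_4) (by decide) hn t21_21_9_4_20 _ _ (by decide +kernel)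

/-- certificates of the pair `(9, 4)`, part 21 -/
def t21_21_9_4_21 : BlkD.Tr :=
  .S 1 9 (.S 2 2 (.S 2 1 (.L 5 7 [4, 4, 4, 21, 21] [218, 217, 216, 215, 212, 208] [] 100000 85715
    85715 1399999 57143 42857 71429 57143 0 0 14286) (.S 3 5 (.S 3 2 (.S 3 1 (.L 5 7 [4, 4, 4, 21,
    21] [218, 217, 216, 215, 212, 208] [] 100000 20000 20000 1500000 40000 0 80000 0 0 0 0) (.L 4 6
    [4, 5, 5, 21, 21] [218, 217, 216, 215, 212, 208] [36, 24, 10, 0, 0, 0] 100000 43478 43478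
    1504350 43478 0 82609 47826 0 8696 21739)) (.S 3 4 (.S 3 3 (.S 4 9 (.S 4 4 (.L 4 6 [4, 5, 5,
    21, 21] [208, 198, 188, 176, 162, 0] [52, 44, 32, 18, 0, 0] 100000 33335 33335 1526665 46667 0
    93333 26667 0 26667 13333) (.L 4 6 [4, 5, 5, 21, 21] [218, 217, 216, 215, 212, 208] [52, 44,
    32, 18, 0, 0] 100000 300000 0 0 100000 0 400000 0 0 0 0)) (.E 2)) (.L 5 6 [4, 4, 5, 21, 21]
    [218, 217, 216, 215, 212, 208] [68, 62, 54, 42, 28, 0] 100000 525000 375000 0 250000 0 250000 0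
    0 0 0)) (.L 5 6 [4, 4, 5, 21, 21] [218, 217, 216, 215, 212, 208] [84, 80, 74, 66, 54, 40]
    100000 359999 99999 3 153333 0 153333 360000 0 0 0))) (.E 1))) (.L 5 7 [4, 4, 4, 21, 21] [218,
    217, 216, 215, 212, 208] [] 100000 60000 60000 1460000 60000 0 80000 20000 0 0 0)) (.S 2 2 (.L
    5 7 [4, 4, 4, 21, 21] [247, 246, 245, 244, 243, 240] [] 100000 125000 125000 1325000 75000
    25000 100000 50000 0 0 25000) (.L 5 7 [4, 4, 4, 21, 21] [247, 246, 245, 244, 243, 240] []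
    100000 83335 83335 1366665 66667 0 100000 66667 0 0 33333))

lemma s21_21_9_4_21 {n : ℕ} (hn : 5 ≤ n) : NoNd (d21_21_9_4.R : ℤ) d21_21_9_4.H n d21_21_9_4.a d21_21_9_4.b
    (BlkD.inB (BlkD.upd (BlkD.upd (fun _ => 0) 0 5) 1 9)
      (BlkD.upd (BlkD.upd (BlkD.upd (BlkD.upd (BlkD.upd (BlkD.upd (BlkD.upd (BlkD.upd (fun _ => 21) 0 9) 2 4) 0 7) 0 6) 0 5) 1 16) 1 12) 1 10)) :=
  BlkD.tree_sound (BlkD.pairOk_sound k21_21_9_4) (by decide) hn t21_21_9_4_21 _ _ (by decide +kernel)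

/-- certificates of the pair `(9, 4)`, part 22 -/
def t21_21_9_4_22 : BlkD.Tr :=
  .S 1 11 (.L 5 7 [4, 4, 4, 21, 21] [278, 277, 276, 275, 274, 273] [] 100000 120000 100000 1160000
    100000 0 120000 20000 0 0 0) (.L 5 7 [4, 4, 4, 21, 21] [311, 310, 309, 308, 307, 306] [] 100000
    325000 60714 0 242857 0 364286 0 0 0 0)

lemma s21_21_9_4_22 {n : ℕ} (hn : 5 ≤ n) : NoNd (d21_21_9_4.R : ℤ) d21_21_9_4.H n d21_21_9_4.a d21_21_9_4.b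
    (BlkD.inB (BlkD.upd (BlkD.upd (BlkD.upd (fun _ => 0) 0 5) 1 9) 1 11)
      (BlkD.upd (BlkD.upd (BlkD.upd (BlkD.upd (BlkD.upd (BlkD.upd (BlkD.upd (fun _ => 21) 0 9) 2 4) 0 7) 0 6) 0 5) 1 16) 1 12)) :=
  BlkD.tree_sound (BlkD.pairOk_sound k21_21_9_4) (by decide) hn t21_21_9_4_22 _ _ (by decide +kernel)

/-- certificates of the pair `(9, 4)`, part 23 -/
def t21_21_9_4_23 : BlkD.Tr :=
  .S 1 14 (.S 1 13 (.L 5 7 [4, 4, 4, 21, 21] [346, 345, 344, 343, 342, 341] [] 100000 280000 108571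
    0 217143 0 271429 0 0 0 0) (.E 0)) (.E 0)

lemma s21_21_9_4_23 {n : ℕ} (hn : 5 ≤ n) : NoNd (d21_21_9_4.R : ℤ) d21_21_9_4.H n d21_21_9_4.a d21_21_9_4.b
    (BlkD.inB (BlkD.upd (BlkD.upd (BlkD.upd (fun _ => 0) 0 5) 1 9) 1 13)
      (BlkD.upd (BlkD.upd (BlkD.upd (BlkD.upd (BlkD.upd (BlkD.upd (fun _ => 21) 0 9) 2 4) 0 7) 0 6) 0 5) 1 16)) :=
  BlkD.tree_sound (BlkD.pairOk_sound k21_21_9_4) (by decide) hn t21_21_9_4_23 _ _ (by decide +kernel)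

/-- certificates of the pair `(9, 4)`, part 24 -/
def t21_21_9_4_24 : BlkD.Tr :=
  .E 0

lemma s21_21_9_4_24 {n : ℕ} (hn : 5 ≤ n) : NoNd (d21_21_9_4.R : ℤ) d21_21_9_4.H n d21_21_9_4.a d21_21_9_4.b
    (BlkD.inB (BlkD.upd (BlkD.upd (fun _ => 0) 0 5) 1 17)
      (BlkD.upd (BlkD.upd (BlkD.upd (BlkD.upd (BlkD.upd (fun _ => 21) 0 9) 2 4) 0 7) 0 6) 0 5)) :=
  BlkD.tree_sound (BlkD.pairOk_sound k21_21_9_4) (by decide) hn t21_21_9_4_24 _ _ (by decide +kernel)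

/-- certificates of the pair `(9, 4)`, part 25 -/
def t21_21_9_4_25 : BlkD.Tr :=
  .L 5 7 [4, 4, 4, 21, 21] [] [] 100000 10000 10000 1460000 20000 0 20000 40000 0 0 0

lemma s21_21_9_4_25 {n : ℕ} (hn : 5 ≤ n) : NoNd (d21_21_9_4.R : ℤ) d21_21_9_4.H n d21_21_9_4.a d21_21_9_4.b
    (BlkD.inB (BlkD.upd (BlkD.upd (fun _ => 0) 0 5) 0 6)
      (BlkD.upd (BlkD.upd (BlkD.upd (BlkD.upd (BlkD.upd (BlkD.upd (BlkD.upd (fun _ => 21) 0 9) 2 4) 0 7) 0 6) 1 15) 1 7) 1 3)) :=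
  BlkD.tree_sound (BlkD.pairOk_sound k21_21_9_4) (by decide) hn t21_21_9_4_25 _ _ (by decide +kernel)

/-- certificates of the pair `(9, 4)`, part 26 -/
def t21_21_9_4_26 : BlkD.Tr :=
  .L 5 7 [4, 4, 4, 21, 21] [] [] 100000 5357 5357 1557144 35714 0 67857 32143 0 25000 25000

lemma s21_21_9_4_26 {n : ℕ} (hn : 5 ≤ n) : NoNd (d21_21_9_4.R : ℤ) d21_21_9_4.H n d21_21_9_4.a d21_21_9_4.b
    (BlkD.inB (BlkD.upd (BlkD.upd (BlkD.upd (fun _ => 0) 0 5) 0 6) 1 4)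
      (BlkD.upd (BlkD.upd (BlkD.upd (BlkD.upd (BlkD.upd (BlkD.upd (BlkD.upd (fun _ => 21) 0 9) 2 4) 0 7) 0 6) 1 15) 1 7) 1 5)) :=
  BlkD.tree_sound (BlkD.pairOk_sound k21_21_9_4) (by decide) hn t21_21_9_4_26 _ _ (by decide +kernel)

/-- certificates of the pair `(9, 4)`, part 27 -/
def t21_21_9_4_27 : BlkD.Tr :=
  .S 1 6 (.S 2 2 (.S 2 1 (.S 2 0 (.L 5 7 [4, 4, 4, 21, 21] [155, 152, 148, 138, 128, 116] [] 100000
    12500 12500 1450000 25000 0 25000 75000 0 0 0) (.S 3 8 (.S 3 4 (.L 5 7 [4, 4, 4, 21, 21] [155,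
    152, 148, 138, 128, 116] [] 100000 15625 15625 1525000 31250 25000 50000 37500 0 0 18750) (.S 3
    6 (.S 3 5 (.L 7 9 [5, 4, 3, 21, 21] [155, 152, 148, 138, 128, 116] [74, 70, 64, 56, 44, 30]
    100000 8333 8333 1550002 33333 33333 50000 66667 0 16667 0) (.L 7 9 [5, 4, 3, 21, 21] [155,
    152, 148, 138, 128, 116] [88, 86, 82, 76, 68, 56] 100000 20000 20000 1460000 40000 0 40000
    100000 0 0 0)) (.E 1))) (.E 1))) (.S 3 7 (.S 3 3 (.L 5 7 [4, 4, 4, 21, 21] [155, 152, 148, 138,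
    128, 116] [] 100000 6594 6594 1565934 32967 2198 63736 41758 0 19780 30769) (.S 3 5 (.S 3 4 (.L
    7 9 [5, 4, 3, 21, 21] [155, 152, 148, 138, 128, 116] [68, 62, 54, 42, 28, 0] 100000 0 0 1575000
    37500 0 75000 37500 0 37500 12500) (.L 7 9 [5, 4, 3, 21, 21] [155, 152, 148, 138, 128, 116]
    [84, 80, 74, 66, 54, 40] 100000 20000 20000 1460000 40000 0 40000 100000 0 0 0)) (.E 1))) (.E
    1))) (.S 2 3 (.S 3 6 (.S 3 3 (.S 3 1 (.L 5 6 [4, 4, 5, 21, 21] [155, 152, 148, 138, 128, 116]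
    [] 100000 6250 6250 1550000 25000 0 50000 12500 0 12500 25000) (.S 3 2 (.L 5 7 [4, 4, 4, 21,
    21] [155, 152, 148, 138, 128, 116] [40, 28, 14, 0, 0, 0] 100000 0 0 1566668 33333 0 66667 0 0
    33333 33333) (.L 7 9 [5, 4, 3, 21, 21] [155, 152, 148, 138, 128, 116] [58, 50, 38, 24, 0, 0]
    100000 0 0 1560000 40000 0 60000 40000 0 40000 0))) (.E 1)) (.E 1)) (.L 7 9 [5, 4, 3, 21, 21]
    [155, 152, 148, 138, 128, 116] [] 100000 0 0 1560000 40000 0 60000 0 0 40000 0))) (.S 2 2 (.S 2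
    1 (.L 7 9 [5, 4, 3, 21, 21] [180, 179, 176, 172, 162, 152] [] 100000 20000 20000 1550000 40000
    30000 60000 50000 0 0 0) (.S 3 6 (.S 3 3 (.S 3 1 (.L 7 9 [5, 4, 3, 21, 21] [180, 179, 176, 172,
    162, 152] [] 100000 18750 18750 1525000 37500 37500 75000 37500 0 0 0) (.S 3 2 (.L 5 7 [4, 4,
    4, 21, 21] [180, 179, 176, 172, 162, 152] [36, 24, 10, 0, 0, 0] 100000 19445 19445 1544444
    38889 2778 72222 36111 0 0 0) (.S 4 7 (.S 4 3 (.L 5 7 [4, 4, 4, 21, 21] [162, 152, 140, 126, 0,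
    0] [52, 44, 32, 18, 0, 0] 100000 10000 10000 1560000 40000 0 80000 40000 0 20000 20000) (.L 5 7
    [4, 4, 4, 21, 21] [180, 179, 176, 172, 162, 152] [52, 44, 32, 18, 0, 0] 100000 42857 0 1285716
    28571 0 142857 28571 0 0 0)) (.E 2)))) (.S 3 5 (.S 3 4 (.S 4 7 (.S 4 3 (.L 5 7 [4, 4, 4, 21,
    21] [162, 152, 140, 126, 0, 0] [68, 62, 54, 42, 28, 0] 100000 77779 77779 1399999 66667 0
    100000 33333 0 0 11111) (.L 5 7 [4, 4, 4, 21, 21] [180, 179, 176, 172, 162, 152] [68, 62, 54,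
    42, 28, 0] 100000 60000 0 1200000 20000 0 160000 80000 0 0 0)) (.E 2)) (.L 5 7 [4, 4, 4, 21,
    21] [180, 179, 176, 172, 162, 152] [84, 80, 74, 66, 54, 40] 100000 300000 0 0 0 0 400000 400000
    0 0 0)) (.E 1))) (.E 1))) (.S 2 3 (.S 3 5 (.S 3 2 (.S 3 1 (.L 5 7 [4, 4, 4, 21, 21] [180, 179,
    176, 172, 162, 152] [] 100000 10785 10785 1558825 35294 11765 66667 47059 1961 11765 9804) (.L
    5 7 [4, 4, 4, 21, 21] [180, 179, 176, 172, 162, 152] [40, 28, 14, 0, 0, 0] 100000 14286 14286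
    1557143 42857 0 71429 14286 0 42857 14286)) (.S 3 4 (.S 3 3 (.L 7 9 [5, 4, 3, 21, 21] [180,
    179, 176, 172, 162, 152] [58, 50, 38, 24, 0, 0] 100000 83334 83334 1399999 66667 0 100000 33333
    0 0 0) (.E 1)) (.E 1))) (.E 1)) (.L 7 9 [5, 4, 3, 21, 21] [180, 179, 176, 172, 162, 152] []
    100000 0 0 1575000 43750 0 62500 0 0 43750 6250)))

lemma s21_21_9_4_27 {n : ℕ} (hn : 5 ≤ n) : NoNd (d21_21_9_4.R : ℤ) d21_21_9_4.H n d21_21_9_4.a d21_21_9_4.b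
    (BlkD.inB (BlkD.upd (BlkD.upd (BlkD.upd (BlkD.upd (fun _ => 0) 0 5) 0 6) 1 4) 1 6)
      (BlkD.upd (BlkD.upd (BlkD.upd (BlkD.upd (BlkD.upd (BlkD.upd (fun _ => 21) 0 9) 2 4) 0 7) 0 6) 1 15) 1 7)) :=
  BlkD.tree_sound (BlkD.pairOk_sound k21_21_9_4) (by decide) hn t21_21_9_4_27 _ _ (by decide +kernel)

/-- certificates of the pair `(9, 4)`, part 28 -/
def t21_21_9_4_28 : BlkD.Tr :=
  .S 1 11 (.S 1 9 (.S 1 8 (.S 2 2 (.L 7 9 [5, 4, 3, 21, 21] [207, 206, 205, 202, 198, 188] []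
    100000 27777 27777 1533336 44444 11111 100000 55556 0 0 0) (.L 7 9 [5, 4, 3, 21, 21] [207, 206,
    205, 202, 198, 188] [] 100000 25000 25000 1500000 50000 0 100000 50000 0 0 0)) (.L 7 9 [5, 4,
    3, 21, 21] [236, 235, 234, 233, 230, 226] [] 100000 25000 25000 1500000 50000 0 100000 50000 0
    0 0)) (.S 1 10 (.L 7 9 [5, 4, 3, 21, 21] [267, 266, 265, 264, 263, 260] [] 100000 75000 25000
    1200000 100000 0 150000 0 0 0 0) (.L 7 9 [5, 4, 3, 21, 21] [300, 299, 298, 297, 296, 295] []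
    100000 200000 0 500000 150000 0 300000 0 0 0 0))) (.E 0)

lemma s21_21_9_4_28 {n : ℕ} (hn : 5 ≤ n) : NoNd (d21_21_9_4.R : ℤ) d21_21_9_4.H n d21_21_9_4.a d21_21_9_4.b
    (BlkD.inB (BlkD.upd (BlkD.upd (BlkD.upd (fun _ => 0) 0 5) 0 6) 1 8)
      (BlkD.upd (BlkD.upd (BlkD.upd (BlkD.upd (BlkD.upd (fun _ => 21) 0 9) 2 4) 0 7) 0 6) 1 15)) :=
  BlkD.tree_sound (BlkD.pairOk_sound k21_21_9_4) (by decide) hn t21_21_9_4_28 _ _ (by decide +kernel)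

/-- certificates of the pair `(9, 4)`, part 29 -/
def t21_21_9_4_29 : BlkD.Tr :=
  .E 0

lemma s21_21_9_4_29 {n : ℕ} (hn : 5 ≤ n) : NoNd (d21_21_9_4.R : ℤ) d21_21_9_4.H n d21_21_9_4.a d21_21_9_4.b
    (BlkD.inB (BlkD.upd (BlkD.upd (BlkD.upd (fun _ => 0) 0 5) 0 6) 1 16)
      (BlkD.upd (BlkD.upd (BlkD.upd (BlkD.upd (fun _ => 21) 0 9) 2 4) 0 7) 0 6)) :=
  BlkD.tree_sound (BlkD.pairOk_sound k21_21_9_4) (by decide) hn t21_21_9_4_29 _ _ (by decide +kernel)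

/-- certificates of the pair `(9, 4)`, part 30 -/
def t21_21_9_4_30 : BlkD.Tr :=
  .S 1 14 (.S 1 7 (.S 1 3 (.L 7 9 [5, 4, 3, 21, 21] [] [] 100000 6250 6250 1525000 37500 25000
    50000 37500 0 25000 0) (.S 1 5 (.S 1 4 (.L 7 9 [5, 4, 3, 21, 21] [114, 104, 94, 82, 68, 0] []
    100000 13044 13044 1547828 39130 17391 58696 52174 0 13043 0) (.L 5 7 [4, 4, 4, 21, 21] [140,
    136, 126, 116, 104, 90] [] 100000 9078 9078 1576259 34916 2793 84078 32402 0 16760 16760)) (.S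
    1 6 (.S 2 2 (.S 2 1 (.L 5 7 [4, 4, 4, 21, 21] [167, 164, 160, 150, 140, 128] [] 100000 25000
    25000 1522224 33333 44444 77778 50000 0 5556 11111) (.S 3 6 (.S 3 3 (.L 5 7 [4, 4, 4, 21, 21]
    [167, 164, 160, 150, 140, 128] [] 100000 10417 10417 1570835 37500 8333 70833 29167 0 16667
    16667) (.L 5 7 [4, 4, 4, 21, 21] [167, 164, 160, 150, 140, 128] [] 100000 20000 20000 1540000
    40000 0 100000 20000 0 20000 20000)) (.E 1))) (.L 5 7 [4, 4, 4, 21, 21] [167, 164, 160, 150,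
    140, 128] [] 100000 12500 12500 1562500 37500 0 93750 25000 0 18750 18750)) (.L 5 7 [4, 4, 4,
    21, 21] [194, 193, 190, 186, 176, 166] [] 100000 21552 21552 1537932 50000 0 81034 31034 0
    13793 6897)))) (.S 1 11 (.S 1 9 (.S 1 8 (.L 5 7 [4, 4, 4, 21, 21] [223, 222, 221, 218, 214,
    204] [] 100000 25000 25000 1450000 50000 0 100000 50000 0 0 0) (.L 5 7 [4, 4, 4, 21, 21] [254,
    253, 252, 251, 248, 244] [] 100000 200000 0 500000 100000 0 300000 0 0 0 0)) (.E 0)) (.E 0)))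
    (.E 0)

lemma s21_21_9_4_30 {n : ℕ} (hn : 5 ≤ n) : NoNd (d21_21_9_4.R : ℤ) d21_21_9_4.H n d21_21_9_4.a d21_21_9_4.b
    (BlkD.inB (BlkD.upd (BlkD.upd (fun _ => 0) 0 5) 0 7)
      (BlkD.upd (BlkD.upd (BlkD.upd (fun _ => 21) 0 9) 2 4) 0 7)) :=
  BlkD.tree_sound (BlkD.pairOk_sound k21_21_9_4) (by decide) hn t21_21_9_4_30 _ _ (by decide +kernel)

/-- certificates of the pair `(9, 4)`, part 31 -/
def t21_21_9_4_31 : BlkD.Tr :=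
  .S 0 8 (.S 1 13 (.S 1 6 (.L 5 7 [4, 4, 4, 21, 21] [] [] 100000 1 1 1590478 19048 0 85714 52381 0
    19048 19048) (.E 0)) (.E 0)) (.L 5 7 [4, 4, 4, 21, 21] [] [] 100000 1 1 1569335 0 30667 73333
    30667 10667 20000 10000)

lemma s21_21_9_4_31 {n : ℕ} (hn : 5 ≤ n) : NoNd (d21_21_9_4.R : ℤ) d21_21_9_4.H n d21_21_9_4.a d21_21_9_4.b
    (BlkD.inB (BlkD.upd (BlkD.upd (fun _ => 0) 0 5) 0 8)
      (BlkD.upd (BlkD.upd (fun _ => 21) 0 9) 2 4)) :=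
  BlkD.tree_sound (BlkD.pairOk_sound k21_21_9_4) (by decide) hn t21_21_9_4_31 _ _ (by decide +kernel)

/-- certificates of the pair `(9, 4)`, part 32 -/
def t21_21_9_4_32 : BlkD.Tr :=
  .E 1

lemma s21_21_9_4_32 {n : ℕ} (hn : 5 ≤ n) : NoNd (d21_21_9_4.R : ℤ) d21_21_9_4.H n d21_21_9_4.a d21_21_9_4.b
    (BlkD.inB (BlkD.upd (fun _ => 0) 2 5)
      (BlkD.upd (fun _ => 21) 0 9)) :=
  BlkD.tree_sound (BlkD.pairOk_sound k21_21_9_4) (by decide) hn t21_21_9_4_32 _ _ (by decide +kernel)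

/-- certificates of the pair `(9, 4)`, part 33 -/
def t21_21_9_4_33 : BlkD.Tr :=
  .E 0

lemma s21_21_9_4_33 {n : ℕ} (hn : 5 ≤ n) : NoNd (d21_21_9_4.R : ℤ) d21_21_9_4.H n d21_21_9_4.a d21_21_9_4.b
    (BlkD.inB (BlkD.upd (fun _ => 0) 0 10)
      (fun _ => 21)) :=
  BlkD.tree_sound (BlkD.pairOk_sound k21_21_9_4) (by decide) hn t21_21_9_4_33 _ _ (by decide +kernel)

lemma pr21_21_9_4 {n : ℕ} (hn : 5 ≤ n) : NoPr ((21 : ℕ) : ℤ) ((21 : ℕ) : ℤ) n 9 4 :=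
  BlkD.of_root (R := d21_21_9_4.R) (H := d21_21_9_4.H) (a := d21_21_9_4.a) (b := d21_21_9_4.b) (q := 3) (by decide) hn
    (BlkD.sp 0 9 (BlkD.sp 2 4 (BlkD.sp 0 4 (BlkD.sp 0 2 (BlkD.sp 0 1 (BlkD.sp 0 0 (s21_21_9_4_1 hn)
      (BlkD.sp 1 10 (BlkD.sp 1 5 (s21_21_9_4_2 hn) (s21_21_9_4_3 hn)) (s21_21_9_4_4 hn))) (BlkD.sp
      1 10 (BlkD.sp 1 5 (s21_21_9_4_5 hn) (s21_21_9_4_6 hn)) (s21_21_9_4_7 hn))) (BlkD.sp 0 3
      (BlkD.sp 1 18 (BlkD.sp 1 9 (BlkD.sp 1 4 (s21_21_9_4_8 hn) (s21_21_9_4_9 hn)) (BlkD.sp 1 14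
      (BlkD.sp 1 12 (s21_21_9_4_10 hn) (s21_21_9_4_11 hn)) (s21_21_9_4_12 hn))) (s21_21_9_4_13 hn))
      (BlkD.sp 1 17 (BlkD.sp 1 8 (s21_21_9_4_14 hn) (BlkD.sp 1 13 (BlkD.sp 1 11 (s21_21_9_4_15 hn)
      (s21_21_9_4_16 hn)) (s21_21_9_4_17 hn))) (s21_21_9_4_18 hn)))) (BlkD.sp 0 7 (BlkD.sp 0 6
      (BlkD.sp 0 5 (BlkD.sp 1 16 (BlkD.sp 1 8 (BlkD.sp 1 4 (s21_21_9_4_19 hn) (s21_21_9_4_20 hn))
      (BlkD.sp 1 12 (BlkD.sp 1 10 (s21_21_9_4_21 hn) (s21_21_9_4_22 hn)) (s21_21_9_4_23 hn)))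
      (s21_21_9_4_24 hn)) (BlkD.sp 1 15 (BlkD.sp 1 7 (BlkD.sp 1 3 (s21_21_9_4_25 hn) (BlkD.sp 1 5
      (s21_21_9_4_26 hn) (s21_21_9_4_27 hn))) (s21_21_9_4_28 hn)) (s21_21_9_4_29 hn)))
      (s21_21_9_4_30 hn)) (s21_21_9_4_31 hn))) (s21_21_9_4_32 hn)) (s21_21_9_4_33 hn))

end BlkC

end Pool.Agent.Lib.MP_f04ccf_co
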