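import Pool.Agent.Lib.MP_f04ccf_co.M.BlkT

/-!
MP_f04ccf_co, block certificate, data `R = 21`, `H = 21`, part 17 (generated, helper99:
bd10.cpp, gen2.py).
-/

set_option autoImplicit false
set_option maxRecDepth 100000

namespace Pool.Agent.Lib.MP_f04ccf_co

namespace BlkC

/-- the numbers of the pair `(9, 5)`, `R = 21`, `H = 21` -/
def d21_21_9_5 : BlkD.Pd :=
  ⟨21, 21, 3, 9, 5, 4, 1, 3, 0, 4, 8, 0, 2, 2, 6, 0, [0, 8, 16, 16, 16], [0, 6, 12, 14, 16], [⟨1,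
    1, 1, 4, 8, [0, 4], [0, 4]⟩, ⟨1, 1, 1, 4, 14, [0, 8], [0, 6]⟩]⟩

lemma k21_21_9_5 : BlkD.pairOk d21_21_9_5 = true := by decide +kernel

/-- certificates of the pair `(9, 5)`, part 1 -/
def t21_21_9_5_1 : BlkD.Tr :=
  .S 0 0 (.L 5 6 [4, 4, 21, 21, 21, 21] [] [] 100000 1 1 1633334 66667 33333 83333 66667 0 0 0) (.L
    5 6 [4, 4, 21, 21, 21, 21] [] [] 100000 1 1 1633334 66667 33333 83333 66667 0 0 0)

lemma s21_21_9_5_1 {n : ℕ} (hn : 5 ≤ n) : NoNd (d21_21_9_5.R : ℤ) d21_21_9_5.H n d21_21_9_5.a d21_21_9_5.b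
    (BlkD.inB (fun _ => 0)
      (BlkD.upd (BlkD.upd (BlkD.upd (BlkD.upd (BlkD.upd (fun _ => 21) 0 9) 2 5) 0 4) 0 2) 0 1)) :=
  BlkD.tree_sound (BlkD.pairOk_sound k21_21_9_5) (by decide) hn t21_21_9_5_1 _ _ (by decide +kernel)

/-- certificates of the pair `(9, 5)`, part 2 -/
def t21_21_9_5_2 : BlkD.Tr :=
  .S 1 10 (.S 1 5 (.L 5 6 [4, 4, 21, 21, 21, 21] [] [] 100000 1 1 1633334 66667 33333 83333 66667 0
    0 0) (.L 5 6 [4, 4, 21, 21, 21, 21] [] [] 100000 1 1 1633334 66667 33333 83333 66667 0 0 0))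
    (.L 5 6 [4, 4, 21, 21, 21, 21] [] [] 100000 1 1 1633334 66667 33333 83333 66667 0 0 0)

lemma s21_21_9_5_2 {n : ℕ} (hn : 5 ≤ n) : NoNd (d21_21_9_5.R : ℤ) d21_21_9_5.H n d21_21_9_5.a d21_21_9_5.b
    (BlkD.inB (BlkD.upd (fun _ => 0) 0 2)
      (BlkD.upd (BlkD.upd (BlkD.upd (BlkD.upd (fun _ => 21) 0 9) 2 5) 0 4) 0 2)) :=
  BlkD.tree_sound (BlkD.pairOk_sound k21_21_9_5) (by decide) hn t21_21_9_5_2 _ _ (by decide +kernel)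

/-- certificates of the pair `(9, 5)`, part 3 -/
def t21_21_9_5_3 : BlkD.Tr :=
  .S 1 5 (.L 5 6 [4, 4, 21, 21, 21, 21] [] [] 100000 1 1 1633334 66667 33333 83333 66667 0 0 0) (.L
    5 6 [4, 4, 21, 21, 21, 21] [] [] 100000 1 1 1633334 66667 33333 83333 66667 0 0 0)

lemma s21_21_9_5_3 {n : ℕ} (hn : 5 ≤ n) : NoNd (d21_21_9_5.R : ℤ) d21_21_9_5.H n d21_21_9_5.a d21_21_9_5.b
    (BlkD.inB (BlkD.upd (fun _ => 0) 0 3)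
      (BlkD.upd (BlkD.upd (BlkD.upd (BlkD.upd (BlkD.upd (fun _ => 21) 0 9) 2 5) 0 4) 0 3) 1 10)) :=
  BlkD.tree_sound (BlkD.pairOk_sound k21_21_9_5) (by decide) hn t21_21_9_5_3 _ _ (by decide +kernel)

/-- certificates of the pair `(9, 5)`, part 4 -/
def t21_21_9_5_4 : BlkD.Tr :=
  .L 5 6 [4, 4, 21, 21, 21, 21] [] [] 100000 1 1 1633334 66667 33333 83333 66667 0 0 0

lemma s21_21_9_5_4 {n : ℕ} (hn : 5 ≤ n) : NoNd (d21_21_9_5.R : ℤ) d21_21_9_5.H n d21_21_9_5.a d21_21_9_5.b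
    (BlkD.inB (BlkD.upd (BlkD.upd (fun _ => 0) 0 3) 1 11)
      (BlkD.upd (BlkD.upd (BlkD.upd (BlkD.upd (fun _ => 21) 0 9) 2 5) 0 4) 0 3)) :=
  BlkD.tree_sound (BlkD.pairOk_sound k21_21_9_5) (by decide) hn t21_21_9_5_4 _ _ (by decide +kernel)

/-- certificates of the pair `(9, 5)`, part 5 -/
def t21_21_9_5_5 : BlkD.Tr :=
  .L 5 6 [4, 4, 21, 21, 21, 21] [] [] 100000 1 1 1633334 66667 33333 83333 66667 0 0 0

lemma s21_21_9_5_5 {n : ℕ} (hn : 5 ≤ n) : NoNd (d21_21_9_5.R : ℤ) d21_21_9_5.H n d21_21_9_5.a d21_21_9_5.b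
    (BlkD.inB (BlkD.upd (BlkD.upd (fun _ => 0) 0 3) 0 4)
      (BlkD.upd (BlkD.upd (BlkD.upd (BlkD.upd (BlkD.upd (fun _ => 21) 0 9) 2 5) 0 4) 1 10) 1 5)) :=
  BlkD.tree_sound (BlkD.pairOk_sound k21_21_9_5) (by decide) hn t21_21_9_5_5 _ _ (by decide +kernel)

/-- certificates of the pair `(9, 5)`, part 6 -/
def t21_21_9_5_6 : BlkD.Tr :=
  .L 5 6 [4, 4, 21, 21, 21, 21] [] [] 100000 1 1 1633334 66667 33333 83333 66667 0 0 0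

lemma s21_21_9_5_6 {n : ℕ} (hn : 5 ≤ n) : NoNd (d21_21_9_5.R : ℤ) d21_21_9_5.H n d21_21_9_5.a d21_21_9_5.b
    (BlkD.inB (BlkD.upd (BlkD.upd (BlkD.upd (fun _ => 0) 0 3) 0 4) 1 6)
      (BlkD.upd (BlkD.upd (BlkD.upd (BlkD.upd (BlkD.upd (fun _ => 21) 0 9) 2 5) 0 4) 1 10) 1 8)) :=
  BlkD.tree_sound (BlkD.pairOk_sound k21_21_9_5) (by decide) hn t21_21_9_5_6 _ _ (by decide +kernel)

/-- certificates of the pair `(9, 5)`, part 7 -/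
def t21_21_9_5_7 : BlkD.Tr :=
  .S 1 9 (.L 5 6 [4, 4, 21, 21, 21, 21] [202, 202, 202, 202, 202, 194] [] 100000 1 1 1633334 66667
    33333 83333 66667 0 0 0) (.L 5 6 [4, 4, 21, 21, 21, 21] [228, 228, 228, 228, 228, 228] []
    100000 1 1 1633334 66667 33333 83333 66667 0 0 0)

lemma s21_21_9_5_7 {n : ℕ} (hn : 5 ≤ n) : NoNd (d21_21_9_5.R : ℤ) d21_21_9_5.H n d21_21_9_5.a d21_21_9_5.b
    (BlkD.inB (BlkD.upd (BlkD.upd (BlkD.upd (BlkD.upd (fun _ => 0) 0 3) 0 4) 1 6) 1 9)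
      (BlkD.upd (BlkD.upd (BlkD.upd (BlkD.upd (fun _ => 21) 0 9) 2 5) 0 4) 1 10)) :=
  BlkD.tree_sound (BlkD.pairOk_sound k21_21_9_5) (by decide) hn t21_21_9_5_7 _ _ (by decide +kernel)

/-- certificates of the pair `(9, 5)`, part 8 -/
def t21_21_9_5_8 : BlkD.Tr :=
  .S 1 16 (.S 1 13 (.L 5 6 [4, 4, 21, 21, 21, 21] [] [] 100000 1 1 1633334 66667 33333 83333 66667
    0 0 0) (.L 5 6 [4, 4, 21, 21, 21, 21] [] [] 100000 1 1 1633334 66667 33333 83333 66667 0 0 0))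
    (.L 5 6 [4, 4, 21, 21, 21, 21] [] [] 100000 1 1 1633334 66667 33333 83333 66667 0 0 0)

lemma s21_21_9_5_8 {n : ℕ} (hn : 5 ≤ n) : NoNd (d21_21_9_5.R : ℤ) d21_21_9_5.H n d21_21_9_5.a d21_21_9_5.b
    (BlkD.inB (BlkD.upd (BlkD.upd (BlkD.upd (fun _ => 0) 0 3) 0 4) 1 11)
      (BlkD.upd (BlkD.upd (BlkD.upd (fun _ => 21) 0 9) 2 5) 0 4)) :=
  BlkD.tree_sound (BlkD.pairOk_sound k21_21_9_5) (by decide) hn t21_21_9_5_8 _ _ (by decide +kernel)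

/-- certificates of the pair `(9, 5)`, part 9 -/
def t21_21_9_5_9 : BlkD.Tr :=
  .L 5 6 [4, 4, 21, 21, 21, 21] [] [] 100000 1 1 1633334 66667 33333 83333 66667 0 0 0

lemma s21_21_9_5_9 {n : ℕ} (hn : 5 ≤ n) : NoNd (d21_21_9_5.R : ℤ) d21_21_9_5.H n d21_21_9_5.a d21_21_9_5.b
    (BlkD.inB (BlkD.upd (fun _ => 0) 0 5)
      (BlkD.upd (BlkD.upd (BlkD.upd (BlkD.upd (BlkD.upd (BlkD.upd (BlkD.upd (fun _ => 21) 0 9) 2 5) 0 7) 0 6) 0 5) 1 10) 1 5)) :=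
  BlkD.tree_sound (BlkD.pairOk_sound k21_21_9_5) (by decide) hn t21_21_9_5_9 _ _ (by decide +kernel)

/-- certificates of the pair `(9, 5)`, part 10 -/
def t21_21_9_5_10 : BlkD.Tr :=
  .L 5 6 [4, 4, 21, 21, 21, 21] [] [] 100000 1 1 1633334 66667 33333 83333 66667 0 0 0

lemma s21_21_9_5_10 {n : ℕ} (hn : 5 ≤ n) : NoNd (d21_21_9_5.R : ℤ) d21_21_9_5.H n d21_21_9_5.a d21_21_9_5.b
    (BlkD.inB (BlkD.upd (BlkD.upd (fun _ => 0) 0 5) 1 6)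
      (BlkD.upd (BlkD.upd (BlkD.upd (BlkD.upd (BlkD.upd (BlkD.upd (BlkD.upd (fun _ => 21) 0 9) 2 5) 0 7) 0 6) 0 5) 1 10) 1 8)) :=
  BlkD.tree_sound (BlkD.pairOk_sound k21_21_9_5) (by decide) hn t21_21_9_5_10 _ _ (by decide +kernel)

/-- certificates of the pair `(9, 5)`, part 11 -/
def t21_21_9_5_11 : BlkD.Tr :=
  .L 5 6 [4, 4, 21, 21, 21, 21] [] [] 100000 1 1 1633334 66667 33333 83333 66667 0 0 0

lemma s21_21_9_5_11 {n : ℕ} (hn : 5 ≤ n) : NoNd (d21_21_9_5.R : ℤ) d21_21_9_5.H n d21_21_9_5.a d21_21_9_5.b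
    (BlkD.inB (BlkD.upd (BlkD.upd (BlkD.upd (fun _ => 0) 0 5) 1 6) 1 9)
      (BlkD.upd (BlkD.upd (BlkD.upd (BlkD.upd (BlkD.upd (BlkD.upd (fun _ => 21) 0 9) 2 5) 0 7) 0 6) 0 5) 1 10)) :=
  BlkD.tree_sound (BlkD.pairOk_sound k21_21_9_5) (by decide) hn t21_21_9_5_11 _ _ (by decide +kernel)

/-- certificates of the pair `(9, 5)`, part 12 -/
def t21_21_9_5_12 : BlkD.Tr :=
  .L 5 6 [4, 4, 21, 21, 21, 21] [] [] 100000 1 1 1633334 66667 33333 83333 66667 0 0 0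

lemma s21_21_9_5_12 {n : ℕ} (hn : 5 ≤ n) : NoNd (d21_21_9_5.R : ℤ) d21_21_9_5.H n d21_21_9_5.a d21_21_9_5.b
    (BlkD.inB (BlkD.upd (BlkD.upd (fun _ => 0) 0 5) 1 11)
      (BlkD.upd (BlkD.upd (BlkD.upd (BlkD.upd (BlkD.upd (fun _ => 21) 0 9) 2 5) 0 7) 0 6) 0 5)) :=
  BlkD.tree_sound (BlkD.pairOk_sound k21_21_9_5) (by decide) hn t21_21_9_5_12 _ _ (by decide +kernel)

/-- certificates of the pair `(9, 5)`, part 13 -/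
def t21_21_9_5_13 : BlkD.Tr :=
  .L 5 6 [4, 4, 21, 21, 21, 21] [] [] 100000 1 1 1633334 66667 33333 83333 66667 0 0 0

lemma s21_21_9_5_13 {n : ℕ} (hn : 5 ≤ n) : NoNd (d21_21_9_5.R : ℤ) d21_21_9_5.H n d21_21_9_5.a d21_21_9_5.b
    (BlkD.inB (BlkD.upd (BlkD.upd (fun _ => 0) 0 5) 0 6)
      (BlkD.upd (BlkD.upd (BlkD.upd (BlkD.upd (BlkD.upd (BlkD.upd (fun _ => 21) 0 9) 2 5) 0 7) 0 6) 1 10) 1 5)) :=
  BlkD.tree_sound (BlkD.pairOk_sound k21_21_9_5) (by decide) hn t21_21_9_5_13 _ _ (by decide +kernel)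

/-- certificates of the pair `(9, 5)`, part 14 -/
def t21_21_9_5_14 : BlkD.Tr :=
  .L 5 6 [4, 4, 21, 21, 21, 21] [] [] 100000 1 1 1633334 66667 33333 83333 66667 0 0 0

lemma s21_21_9_5_14 {n : ℕ} (hn : 5 ≤ n) : NoNd (d21_21_9_5.R : ℤ) d21_21_9_5.H n d21_21_9_5.a d21_21_9_5.b
    (BlkD.inB (BlkD.upd (BlkD.upd (BlkD.upd (fun _ => 0) 0 5) 0 6) 1 6)
      (BlkD.upd (BlkD.upd (BlkD.upd (BlkD.upd (BlkD.upd (BlkD.upd (fun _ => 21) 0 9) 2 5) 0 7) 0 6) 1 10) 1 8)) :=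
  BlkD.tree_sound (BlkD.pairOk_sound k21_21_9_5) (by decide) hn t21_21_9_5_14 _ _ (by decide +kernel)

/-- certificates of the pair `(9, 5)`, part 15 -/
def t21_21_9_5_15 : BlkD.Tr :=
  .L 5 6 [4, 4, 21, 21, 21, 21] [] [] 100000 1 1 1633334 66667 33333 83333 66667 0 0 0

lemma s21_21_9_5_15 {n : ℕ} (hn : 5 ≤ n) : NoNd (d21_21_9_5.R : ℤ) d21_21_9_5.H n d21_21_9_5.a d21_21_9_5.b
    (BlkD.inB (BlkD.upd (BlkD.upd (BlkD.upd (BlkD.upd (fun _ => 0) 0 5) 0 6) 1 6) 1 9)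
      (BlkD.upd (BlkD.upd (BlkD.upd (BlkD.upd (BlkD.upd (fun _ => 21) 0 9) 2 5) 0 7) 0 6) 1 10)) :=
  BlkD.tree_sound (BlkD.pairOk_sound k21_21_9_5) (by decide) hn t21_21_9_5_15 _ _ (by decide +kernel)

/-- certificates of the pair `(9, 5)`, part 16 -/
def t21_21_9_5_16 : BlkD.Tr :=
  .L 5 6 [4, 4, 21, 21, 21, 21] [] [] 100000 1 1 1633334 66667 33333 83333 66667 0 0 0

lemma s21_21_9_5_16 {n : ℕ} (hn : 5 ≤ n) : NoNd (d21_21_9_5.R : ℤ) d21_21_9_5.H n d21_21_9_5.a d21_21_9_5.b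
    (BlkD.inB (BlkD.upd (BlkD.upd (BlkD.upd (fun _ => 0) 0 5) 0 6) 1 11)
      (BlkD.upd (BlkD.upd (BlkD.upd (BlkD.upd (fun _ => 21) 0 9) 2 5) 0 7) 0 6)) :=
  BlkD.tree_sound (BlkD.pairOk_sound k21_21_9_5) (by decide) hn t21_21_9_5_16 _ _ (by decide +kernel)

/-- certificates of the pair `(9, 5)`, part 17 -/
def t21_21_9_5_17 : BlkD.Tr :=
  .L 5 6 [4, 4, 21, 21, 21, 21] [] [] 100000 1 1 1633334 66667 33333 83333 66667 0 0 0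

lemma s21_21_9_5_17 {n : ℕ} (hn : 5 ≤ n) : NoNd (d21_21_9_5.R : ℤ) d21_21_9_5.H n d21_21_9_5.a d21_21_9_5.b
    (BlkD.inB (BlkD.upd (BlkD.upd (fun _ => 0) 0 5) 0 7)
      (BlkD.upd (BlkD.upd (BlkD.upd (fun _ => 21) 0 9) 2 5) 0 7)) :=
  BlkD.tree_sound (BlkD.pairOk_sound k21_21_9_5) (by decide) hn t21_21_9_5_17 _ _ (by decide +kernel)

/-- certificates of the pair `(9, 5)`, part 18 -/
def t21_21_9_5_18 : BlkD.Tr :=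
  .L 5 6 [4, 4, 21, 21, 21, 21] [] [] 100000 1 1 1633334 66667 33333 83333 66667 0 0 0

lemma s21_21_9_5_18 {n : ℕ} (hn : 5 ≤ n) : NoNd (d21_21_9_5.R : ℤ) d21_21_9_5.H n d21_21_9_5.a d21_21_9_5.b
    (BlkD.inB (BlkD.upd (BlkD.upd (fun _ => 0) 0 5) 0 8)
      (BlkD.upd (BlkD.upd (fun _ => 21) 0 9) 2 5)) :=
  BlkD.tree_sound (BlkD.pairOk_sound k21_21_9_5) (by decide) hn t21_21_9_5_18 _ _ (by decide +kernel)

/-- certificates of the pair `(9, 5)`, part 19 -/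
def t21_21_9_5_19 : BlkD.Tr :=
  .E 1

lemma s21_21_9_5_19 {n : ℕ} (hn : 5 ≤ n) : NoNd (d21_21_9_5.R : ℤ) d21_21_9_5.H n d21_21_9_5.a d21_21_9_5.b
    (BlkD.inB (BlkD.upd (fun _ => 0) 2 6)
      (BlkD.upd (fun _ => 21) 0 9)) :=
  BlkD.tree_sound (BlkD.pairOk_sound k21_21_9_5) (by decide) hn t21_21_9_5_19 _ _ (by decide +kernel)

/-- certificates of the pair `(9, 5)`, part 20 -/
def t21_21_9_5_20 : BlkD.Tr :=
  .E 0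

lemma s21_21_9_5_20 {n : ℕ} (hn : 5 ≤ n) : NoNd (d21_21_9_5.R : ℤ) d21_21_9_5.H n d21_21_9_5.a d21_21_9_5.b
    (BlkD.inB (BlkD.upd (fun _ => 0) 0 10)
      (fun _ => 21)) :=
  BlkD.tree_sound (BlkD.pairOk_sound k21_21_9_5) (by decide) hn t21_21_9_5_20 _ _ (by decide +kernel)

lemma pr21_21_9_5 {n : ℕ} (hn : 5 ≤ n) : NoPr ((21 : ℕ) : ℤ) ((21 : ℕ) : ℤ) n 9 5 :=
  BlkD.of_root (R := d21_21_9_5.R) (H := d21_21_9_5.H) (a := d21_21_9_5.a) (b := d21_21_9_5.b) (q := 3) (by decide) hn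
    (BlkD.sp 0 9 (BlkD.sp 2 5 (BlkD.sp 0 4 (BlkD.sp 0 2 (BlkD.sp 0 1 (s21_21_9_5_1 hn)
      (s21_21_9_5_2 hn)) (BlkD.sp 0 3 (BlkD.sp 1 10 (s21_21_9_5_3 hn) (s21_21_9_5_4 hn)) (BlkD.sp 1
      10 (BlkD.sp 1 5 (s21_21_9_5_5 hn) (BlkD.sp 1 8 (s21_21_9_5_6 hn) (s21_21_9_5_7 hn)))
      (s21_21_9_5_8 hn)))) (BlkD.sp 0 7 (BlkD.sp 0 6 (BlkD.sp 0 5 (BlkD.sp 1 10 (BlkD.sp 1 5
      (s21_21_9_5_9 hn) (BlkD.sp 1 8 (s21_21_9_5_10 hn) (s21_21_9_5_11 hn))) (s21_21_9_5_12 hn))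
      (BlkD.sp 1 10 (BlkD.sp 1 5 (s21_21_9_5_13 hn) (BlkD.sp 1 8 (s21_21_9_5_14 hn) (s21_21_9_5_15
      hn))) (s21_21_9_5_16 hn))) (s21_21_9_5_17 hn)) (s21_21_9_5_18 hn))) (s21_21_9_5_19 hn))
      (s21_21_9_5_20 hn))

end BlkC

end Pool.Agent.Lib.MP_f04ccf_co
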