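import Pool.Agent.Lib.MP_f04ccf_co.M.BlkT

/-!
MP_f04ccf_co, block certificate, data `R = 21`, `H = 21`, part 19 (generated, helper99:
bd10.cpp, gen2.py).
-/

set_option autoImplicit false
set_option maxRecDepth 100000

namespace Pool.Agent.Lib.MP_f04ccf_co

namespace BlkC

/-- the numbers of the pair `(10, 1)`, `R = 21`, `H = 21` -/
def d21_21_10_1 : BlkD.Pd :=
  ⟨21, 21, 3, 10, 1, 7, 1, 1, 0, 4, 8, 0, 0, 4, 4, 0, [0, 8, 16, 24, 28, 28, 28, 28], [0, 4, 8, 12,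
    16, 20, 24, 28], [⟨1, 1, 1, 4, 8, [0, 4], [0, 4]⟩, ⟨1, 1, 1, 4, 12, [0, 8], [0, 4]⟩]⟩

lemma k21_21_10_1 : BlkD.pairOk d21_21_10_1 = true := by decide +kernel

/-- certificates of the pair `(10, 1)`, part 1 -/
def t21_21_10_1_1 : BlkD.Tr :=
  .L 4 6 [4, 4] [] [] 100000 1 1 1266666 66667 0 77778 0 0 0 0

lemma s21_21_10_1_1 {n : ℕ} (hn : 5 ≤ n) : NoNd (d21_21_10_1.R : ℤ) d21_21_10_1.H n d21_21_10_1.a d21_21_10_1.b
    (BlkD.inB (fun _ => 0)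
      (BlkD.upd (BlkD.upd (BlkD.upd (BlkD.upd (fun _ => 21) 0 10) 2 1) 0 5) 0 2)) :=
  BlkD.tree_sound (BlkD.pairOk_sound k21_21_10_1) (by decide) hn t21_21_10_1_1 _ _ (by decide +kernel)

/-- certificates of the pair `(10, 1)`, part 2 -/
def t21_21_10_1_2 : BlkD.Tr :=
  .S 0 4 (.L 4 6 [4, 4] [] [] 100000 1 1 1266666 66667 0 77778 0 0 0 0) (.L 4 6 [4, 4] [] [] 100000
    1 1 1266666 66667 0 77778 0 0 0 0)

lemma s21_21_10_1_2 {n : ℕ} (hn : 5 ≤ n) : NoNd (d21_21_10_1.R : ℤ) d21_21_10_1.H n d21_21_10_1.a d21_21_10_1.b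
    (BlkD.inB (BlkD.upd (fun _ => 0) 0 3)
      (BlkD.upd (BlkD.upd (BlkD.upd (fun _ => 21) 0 10) 2 1) 0 5)) :=
  BlkD.tree_sound (BlkD.pairOk_sound k21_21_10_1) (by decide) hn t21_21_10_1_2 _ _ (by decide +kernel)

/-- certificates of the pair `(10, 1)`, part 3 -/
def t21_21_10_1_3 : BlkD.Tr :=
  .L 4 6 [4, 4] [] [] 100000 1 1 1266666 66667 0 77778 0 0 0 0

lemma s21_21_10_1_3 {n : ℕ} (hn : 5 ≤ n) : NoNd (d21_21_10_1.R : ℤ) d21_21_10_1.H n d21_21_10_1.a d21_21_10_1.b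
    (BlkD.inB (BlkD.upd (fun _ => 0) 0 6)
      (BlkD.upd (BlkD.upd (fun _ => 21) 0 10) 2 1)) :=
  BlkD.tree_sound (BlkD.pairOk_sound k21_21_10_1) (by decide) hn t21_21_10_1_3 _ _ (by decide +kernel)

/-- certificates of the pair `(10, 1)`, part 4 -/
def t21_21_10_1_4 : BlkD.Tr :=
  .E 1

lemma s21_21_10_1_4 {n : ℕ} (hn : 5 ≤ n) : NoNd (d21_21_10_1.R : ℤ) d21_21_10_1.H n d21_21_10_1.a d21_21_10_1.b
    (BlkD.inB (BlkD.upd (fun _ => 0) 2 2)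
      (BlkD.upd (fun _ => 21) 0 10)) :=
  BlkD.tree_sound (BlkD.pairOk_sound k21_21_10_1) (by decide) hn t21_21_10_1_4 _ _ (by decide +kernel)

/-- certificates of the pair `(10, 1)`, part 5 -/
def t21_21_10_1_5 : BlkD.Tr :=
  .E 0

lemma s21_21_10_1_5 {n : ℕ} (hn : 5 ≤ n) : NoNd (d21_21_10_1.R : ℤ) d21_21_10_1.H n d21_21_10_1.a d21_21_10_1.b
    (BlkD.inB (BlkD.upd (fun _ => 0) 0 11)
      (fun _ => 21)) :=
  BlkD.tree_sound (BlkD.pairOk_sound k21_21_10_1) (by decide) hn t21_21_10_1_5 _ _ (by decide +kernel)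

lemma pr21_21_10_1 {n : ℕ} (hn : 5 ≤ n) : NoPr ((21 : ℕ) : ℤ) ((21 : ℕ) : ℤ) n 10 1 :=
  BlkD.of_root (R := d21_21_10_1.R) (H := d21_21_10_1.H) (a := d21_21_10_1.a) (b := d21_21_10_1.b) (q := 3) (by decide) hn
    (BlkD.sp 0 10 (BlkD.sp 2 1 (BlkD.sp 0 5 (BlkD.sp 0 2 (s21_21_10_1_1 hn) (s21_21_10_1_2 hn))
      (s21_21_10_1_3 hn)) (s21_21_10_1_4 hn)) (s21_21_10_1_5 hn))

/-- the numbers of the pair `(10, 2)`, `R = 21`, `H = 21` -/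
def d21_21_10_2 : BlkD.Pd :=
  ⟨21, 21, 3, 10, 2, 6, 2, 2, 4, 2, 10, 0, 3, 1, 6, 0, [0, 10, 20, 24, 28, 32, 36], [0, 6, 12, 15,
    18, 21, 24], [⟨1, 1, 1, 4, 8, [0, 4], [0, 4]⟩, ⟨1, 1, 1, 4, 12, [0, 8], [0, 4]⟩, ⟨2, 1, 1, 4,
    20, [0, 10, 14], [0, 6]⟩]⟩

lemma k21_21_10_2 : BlkD.pairOk d21_21_10_2 = true := by decide +kernel

/-- certificates of the pair `(10, 2)`, part 1 -/
def t21_21_10_2_1 : BlkD.Tr :=
  .S 0 0 (.L 5 8 [4, 4, 4] [] [] 100000 50000 50000 600000 100000 0 100000 0 0 0 0) (.S 1 10 (.L 5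
    8 [4, 4, 4] [] [] 100000 50000 50000 600000 100000 0 100000 0 0 0 0) (.L 5 8 [4, 4, 4] [] []
    100000 50000 50000 600000 100000 0 100000 0 0 0 0))

lemma s21_21_10_2_1 {n : ℕ} (hn : 5 ≤ n) : NoNd (d21_21_10_2.R : ℤ) d21_21_10_2.H n d21_21_10_2.a d21_21_10_2.b
    (BlkD.inB (fun _ => 0)
      (BlkD.upd (BlkD.upd (BlkD.upd (BlkD.upd (BlkD.upd (fun _ => 21) 0 10) 2 2) 0 5) 0 2) 0 1)) :=
  BlkD.tree_sound (BlkD.pairOk_sound k21_21_10_2) (by decide) hn t21_21_10_2_1 _ _ (by decide +kernel)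

/-- certificates of the pair `(10, 2)`, part 2 -/
def t21_21_10_2_2 : BlkD.Tr :=
  .S 1 5 (.L 5 8 [4, 4, 4] [] [] 100000 50000 50000 600000 100000 0 100000 0 0 0 0) (.L 5 8 [4, 4,
    4] [] [] 100000 50000 50000 600000 100000 0 100000 0 0 0 0)

lemma s21_21_10_2_2 {n : ℕ} (hn : 5 ≤ n) : NoNd (d21_21_10_2.R : ℤ) d21_21_10_2.H n d21_21_10_2.a d21_21_10_2.b
    (BlkD.inB (BlkD.upd (fun _ => 0) 0 2)
      (BlkD.upd (BlkD.upd (BlkD.upd (BlkD.upd (BlkD.upd (fun _ => 21) 0 10) 2 2) 0 5) 0 2) 1 10)) :=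
  BlkD.tree_sound (BlkD.pairOk_sound k21_21_10_2) (by decide) hn t21_21_10_2_2 _ _ (by decide +kernel)

/-- certificates of the pair `(10, 2)`, part 3 -/
def t21_21_10_2_3 : BlkD.Tr :=
  .L 5 8 [4, 4, 4] [] [] 100000 50000 50000 600000 100000 0 100000 0 0 0 0

lemma s21_21_10_2_3 {n : ℕ} (hn : 5 ≤ n) : NoNd (d21_21_10_2.R : ℤ) d21_21_10_2.H n d21_21_10_2.a d21_21_10_2.b
    (BlkD.inB (BlkD.upd (BlkD.upd (fun _ => 0) 0 2) 1 11)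
      (BlkD.upd (BlkD.upd (BlkD.upd (BlkD.upd (fun _ => 21) 0 10) 2 2) 0 5) 0 2)) :=
  BlkD.tree_sound (BlkD.pairOk_sound k21_21_10_2) (by decide) hn t21_21_10_2_3 _ _ (by decide +kernel)

/-- certificates of the pair `(10, 2)`, part 4 -/
def t21_21_10_2_4 : BlkD.Tr :=
  .S 1 10 (.L 5 8 [4, 4, 4] [] [] 100000 150000 150000 1000000 100000 0 100000 0 0 0 0) (.L 5 8 [4,
    4, 4] [] [] 100000 150000 150000 1000000 100000 0 100000 0 0 0 0)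

lemma s21_21_10_2_4 {n : ℕ} (hn : 5 ≤ n) : NoNd (d21_21_10_2.R : ℤ) d21_21_10_2.H n d21_21_10_2.a d21_21_10_2.b
    (BlkD.inB (BlkD.upd (fun _ => 0) 0 3)
      (BlkD.upd (BlkD.upd (BlkD.upd (BlkD.upd (BlkD.upd (fun _ => 21) 0 10) 2 2) 0 5) 0 4) 0 3)) :=
  BlkD.tree_sound (BlkD.pairOk_sound k21_21_10_2) (by decide) hn t21_21_10_2_4 _ _ (by decide +kernel)

/-- certificates of the pair `(10, 2)`, part 5 -/
def t21_21_10_2_5 : BlkD.Tr :=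
  .S 1 10 (.L 5 8 [4, 4, 4] [] [] 100000 150000 150000 1000000 100000 0 100000 0 0 0 0) (.L 5 8 [4,
    4, 4] [] [] 100000 150000 150000 1000000 100000 0 100000 0 0 0 0)

lemma s21_21_10_2_5 {n : ℕ} (hn : 5 ≤ n) : NoNd (d21_21_10_2.R : ℤ) d21_21_10_2.H n d21_21_10_2.a d21_21_10_2.b
    (BlkD.inB (BlkD.upd (BlkD.upd (fun _ => 0) 0 3) 0 4)
      (BlkD.upd (BlkD.upd (BlkD.upd (BlkD.upd (fun _ => 21) 0 10) 2 2) 0 5) 0 4)) :=
  BlkD.tree_sound (BlkD.pairOk_sound k21_21_10_2) (by decide) hn t21_21_10_2_5 _ _ (by decide +kernel)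

/-- certificates of the pair `(10, 2)`, part 6 -/
def t21_21_10_2_6 : BlkD.Tr :=
  .L 5 8 [4, 4, 4] [] [] 100000 18182 18181 1318182 36364 0 54545 36364 0 0 0

lemma s21_21_10_2_6 {n : ℕ} (hn : 5 ≤ n) : NoNd (d21_21_10_2.R : ℤ) d21_21_10_2.H n d21_21_10_2.a d21_21_10_2.b
    (BlkD.inB (BlkD.upd (BlkD.upd (fun _ => 0) 0 3) 0 5)
      (BlkD.upd (BlkD.upd (BlkD.upd (BlkD.upd (BlkD.upd (fun _ => 21) 0 10) 2 2) 0 5) 1 16) 1 8)) :=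
  BlkD.tree_sound (BlkD.pairOk_sound k21_21_10_2) (by decide) hn t21_21_10_2_6 _ _ (by decide +kernel)

/-- certificates of the pair `(10, 2)`, part 7 -/
def t21_21_10_2_7 : BlkD.Tr :=
  .S 1 12 (.S 1 10 (.L 5 8 [4, 4, 4] [] [] 100000 12500 12500 1437500 37500 0 37500 37500 0 12500
    12500) (.S 1 11 (.S 2 1 (.S 2 0 (.S 3 5 (.S 3 2 (.L 5 8 [4, 4, 4] [282, 278, 274, 270, 266,
    262] [] 100000 9375 9375 1462500 37500 0 50000 31250 0 18750 18750) (.L 5 8 [4, 4, 4] [282,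
    278, 274, 270, 266, 262] [] 100000 200000 200000 800000 100000 0 100000 100000 0 0 0)) (.E 1))
    (.S 3 4 (.S 3 2 (.S 3 1 (.S 3 0 (.L 5 8 [4, 4, 4] [282, 278, 274, 270, 266, 262] [0, 0, 0, 0,
    0, 0] 100000 4546 4545 1472727 36364 0 54545 0 0 27273 27273) (.S 4 11 (.S 4 5 (.L 5 8 [4, 4,
    4] [258, 254, 250, 240, 230, 220] [12, 2, 0, 0, 0, 0] 100000 150000 150000 1000000 100000 0
    100000 0 0 0 0) (.L 5 8 [4, 4, 4] [282, 278, 274, 270, 266, 262] [12, 2, 0, 0, 0, 0] 100000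
    200000 0 0 75000 0 300000 0 0 0 0)) (.E 2))) (.L 5 8 [4, 4, 4] [282, 278, 274, 270, 266, 262]
    [22, 16, 6, 0, 0, 0] 100000 200000 200000 800000 100000 0 100000 100000 0 0 0)) (.E 1)) (.E
    1))) (.L 5 8 [4, 4, 4] [282, 278, 274, 270, 266, 262] [] 100000 383333 303332 0 180000 0 180000
    0 0 33333 33333)) (.S 2 1 (.S 2 0 (.S 3 4 (.S 3 2 (.S 3 1 (.L 5 8 [4, 4, 4] [318, 314, 310,
    306, 302, 298] [] 100000 60000 60000 1300000 60000 0 80000 20000 0 0 0) (.S 4 12 (.S 4 6 (.L 5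
    8 [4, 4, 4] [294, 290, 286, 282, 272, 262] [18, 12, 2, 0, 0, 0] 100000 75001 75001 1199998
    66667 0 100000 50000 0 16667 33333) (.L 5 8 [4, 4, 4] [318, 314, 310, 306, 302, 298] [18, 12,
    2, 0, 0, 0] 100000 171429 0 0 67857 0 271429 0 0 0 0)) (.E 2))) (.L 5 8 [4, 4, 4] [318, 314,
    310, 306, 302, 298] [] 100000 354545 272727 2 181818 0 181818 0 0 0 0)) (.E 1)) (.L 5 8 [4, 4,
    4] [318, 314, 310, 306, 302, 298] [] 100000 110000 110000 1160000 80000 0 100000 0 0 0 0)) (.L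
    5 8 [4, 4, 4] [318, 314, 310, 306, 302, 298] [] 100000 331817 259089 3 172727 0 172727 0 0 0
    0)))) (.S 1 14 (.S 1 13 (.L 4 6 [4, 4, 5] [356, 352, 348, 344, 340, 336] [] 100000 150000
    150000 1000000 100000 0 100000 0 0 0 0) (.L 4 6 [4, 4, 5] [396, 392, 388, 384, 380, 376] []
    100000 150000 150000 1000000 100000 0 100000 0 0 0 0)) (.S 1 15 (.L 4 6 [4, 4, 5] [438, 434,
    430, 426, 422, 418] [] 100000 331817 209089 3 172727 0 222727 0 0 0 0) (.L 4 6 [4, 4, 5] [482,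
    478, 474, 470, 466, 462] [] 100000 337500 262500 0 175000 0 175000 0 0 0 0)))

lemma s21_21_10_2_7 {n : ℕ} (hn : 5 ≤ n) : NoNd (d21_21_10_2.R : ℤ) d21_21_10_2.H n d21_21_10_2.a d21_21_10_2.b
    (BlkD.inB (BlkD.upd (BlkD.upd (BlkD.upd (fun _ => 0) 0 3) 0 5) 1 9)
      (BlkD.upd (BlkD.upd (BlkD.upd (BlkD.upd (fun _ => 21) 0 10) 2 2) 0 5) 1 16)) :=
  BlkD.tree_sound (BlkD.pairOk_sound k21_21_10_2) (by decide) hn t21_21_10_2_7 _ _ (by decide +kernel)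

/-- certificates of the pair `(10, 2)`, part 8 -/
def t21_21_10_2_8 : BlkD.Tr :=
  .E 0

lemma s21_21_10_2_8 {n : ℕ} (hn : 5 ≤ n) : NoNd (d21_21_10_2.R : ℤ) d21_21_10_2.H n d21_21_10_2.a d21_21_10_2.b
    (BlkD.inB (BlkD.upd (BlkD.upd (BlkD.upd (fun _ => 0) 0 3) 0 5) 1 17)
      (BlkD.upd (BlkD.upd (BlkD.upd (fun _ => 21) 0 10) 2 2) 0 5)) :=
  BlkD.tree_sound (BlkD.pairOk_sound k21_21_10_2) (by decide) hn t21_21_10_2_8 _ _ (by decide +kernel)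

/-- certificates of the pair `(10, 2)`, part 9 -/
def t21_21_10_2_9 : BlkD.Tr :=
  .L 4 6 [4, 4, 5] [] [] 100000 1 1 1483331 16667 0 16667 16667 0 16667 16667

lemma s21_21_10_2_9 {n : ℕ} (hn : 5 ≤ n) : NoNd (d21_21_10_2.R : ℤ) d21_21_10_2.H n d21_21_10_2.a d21_21_10_2.b
    (BlkD.inB (BlkD.upd (fun _ => 0) 0 6)
      (BlkD.upd (BlkD.upd (BlkD.upd (BlkD.upd (BlkD.upd (BlkD.upd (BlkD.upd (fun _ => 21) 0 10) 2 2) 0 8) 0 7) 0 6) 1 15) 1 7)) :=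
  BlkD.tree_sound (BlkD.pairOk_sound k21_21_10_2) (by decide) hn t21_21_10_2_9 _ _ (by decide +kernel)

/-- certificates of the pair `(10, 2)`, part 10 -/
def t21_21_10_2_10 : BlkD.Tr :=
  .S 1 9 (.S 1 8 (.L 5 8 [4, 4, 4] [202, 198, 194, 190, 186, 182] [] 100000 3449 3449 1431033 34483
    0 44828 27586 0 27586 27586) (.S 2 1 (.S 2 0 (.S 3 6 (.S 3 3 (.S 3 1 (.L 5 8 [4, 4, 4] [234,
    230, 226, 222, 218, 214] [] 100000 18183 18183 1381817 36364 0 72727 36364 0 0 18182) (.S 3 2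
    (.L 5 8 [4, 4, 4] [234, 230, 226, 222, 218, 214] [18, 12, 2, 0, 0, 0] 100000 0 0 1466669 33333
    0 44444 33333 0 33333 33333) (.S 4 9 (.S 4 4 (.L 5 8 [4, 4, 4] [214, 210, 200, 190, 180, 0]
    [28, 22, 16, 6, 0, 0] 100000 150000 150000 1000000 100000 0 100000 0 0 0 0) (.L 5 8 [4, 4, 4]
    [234, 230, 226, 222, 218, 214] [28, 22, 16, 6, 0, 0] 100000 213044 1 2 78261 0 313043 0 0 0 0))
    (.E 2)))) (.E 1)) (.E 1)) (.S 3 5 (.S 3 2 (.S 3 1 (.L 5 8 [4, 4, 4] [234, 230, 226, 222, 218,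
    214] [] 100000 0 0 1466669 33333 0 66667 0 0 33333 33333) (.S 4 9 (.S 4 4 (.L 5 8 [4, 4, 4]
    [214, 210, 200, 190, 180, 0] [22, 16, 6, 0, 0, 0] 100000 150000 150000 1000000 100000 0 100000
    0 0 0 0) (.L 5 8 [4, 4, 4] [234, 230, 226, 222, 218, 214] [22, 16, 6, 0, 0, 0] 100000 213044 1
    2 78261 0 313043 0 0 0 0)) (.E 2))) (.E 1)) (.E 1))) (.S 3 4 (.S 3 2 (.S 3 1 (.S 3 0 (.L 5 8
    [4, 4, 4] [234, 230, 226, 222, 218, 214] [0, 0, 0, 0, 0, 0] 100000 0 0 1433336 33333 0 33333 0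
    0 33333 33333) (.S 4 9 (.S 4 4 (.L 5 8 [4, 4, 4] [214, 210, 200, 190, 180, 0] [14, 4, 0, 0, 0,
    0] 100000 233332 199998 600003 133333 0 133333 0 0 0 0) (.L 5 8 [4, 4, 4] [234, 230, 226, 222,
    218, 214] [14, 4, 0, 0, 0, 0] 100000 200000 0 0 75000 0 300000 0 0 0 0)) (.E 2))) (.E 1)) (.E
    1)) (.E 1)))) (.S 1 10 (.S 2 1 (.S 2 0 (.S 3 5 (.S 3 2 (.S 3 1 (.L 5 8 [4, 4, 4] [268, 264,
    260, 256, 252, 248] [] 100000 22222 22222 1411114 44444 0 66667 22222 0 0 0) (.S 4 10 (.S 4 5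
    (.L 5 8 [4, 4, 4] [248, 244, 240, 230, 220, 210] [18, 12, 2, 0, 0, 0] 100000 20289 20288
    1411597 43478 0 84058 42029 0 2899 18841) (.L 5 8 [4, 4, 4] [268, 264, 260, 256, 252, 248] [18,
    12, 2, 0, 0, 0] 100000 213044 1 2 78261 0 313043 0 0 0 0)) (.E 2))) (.L 5 8 [4, 4, 4] [268,
    264, 260, 256, 252, 248] [] 100000 150000 150000 1000000 100000 0 100000 0 0 0 0)) (.E 1)) (.S
    3 4 (.S 3 2 (.S 3 1 (.L 5 8 [4, 4, 4] [268, 264, 260, 256, 252, 248] [] 100000 16666 16665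
    1444448 44444 0 66667 0 0 11111 11111) (.L 5 8 [4, 4, 4] [268, 264, 260, 256, 252, 248] [22,
    16, 6, 0, 0, 0] 100000 150000 150000 1000000 100000 0 100000 0 0 0 0)) (.E 1)) (.E 1))) (.L 5 8
    [4, 4, 4] [268, 264, 260, 256, 252, 248] [] 100000 233332 199998 600003 133333 0 133333 0 0 0
    0)) (.S 2 1 (.S 2 0 (.S 3 4 (.S 3 2 (.S 3 1 (.L 5 8 [4, 4, 4] [304, 300, 296, 292, 288, 284] []
    100000 21428 21427 1428572 42857 0 71429 42857 0 0 14286) (.S 4 11 (.S 4 5 (.L 5 8 [4, 4, 4]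
    [280, 276, 272, 262, 252, 242] [18, 12, 2, 0, 0, 0] 100000 150000 150000 1000000 100000 0
    100000 100000 0 0 0) (.L 5 8 [4, 4, 4] [304, 300, 296, 292, 288, 284] [18, 12, 2, 0, 0, 0]
    100000 200000 0 0 100000 0 300000 0 0 0 0)) (.E 2))) (.L 5 8 [4, 4, 4] [304, 300, 296, 292,
    288, 284] [] 100000 150000 150000 1000000 100000 0 100000 0 0 0 0)) (.E 1)) (.S 3 3 (.S 3 1 (.S
    3 0 (.S 4 11 (.S 4 5 (.L 5 8 [4, 4, 4] [280, 276, 272, 262, 252, 242] [0, 0, 0, 0, 0, 0] 100000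
    100000 100000 1100000 100000 0 100000 0 0 0 0) (.L 5 8 [4, 4, 4] [304, 300, 296, 292, 288, 284]
    [0, 0, 0, 0, 0, 0] 100000 217647 0 2 105882 0 317647 0 0 0 0)) (.E 2)) (.L 5 8 [4, 4, 4] [304,
    300, 296, 292, 288, 284] [12, 2, 0, 0, 0, 0] 100000 95833 95832 1200000 75000 0 100000 0 0 8333
    8333)) (.L 5 8 [4, 4, 4] [304, 300, 296, 292, 288, 284] [] 100000 150000 150000 1000000 100000
    0 100000 0 0 0 0)) (.E 1))) (.L 5 8 [4, 4, 4] [304, 300, 296, 292, 288, 284] [] 100000 375000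
    285000 0 190000 0 190000 0 0 0 0)))

lemma s21_21_10_2_10 {n : ℕ} (hn : 5 ≤ n) : NoNd (d21_21_10_2.R : ℤ) d21_21_10_2.H n d21_21_10_2.a d21_21_10_2.b
    (BlkD.inB (BlkD.upd (BlkD.upd (fun _ => 0) 0 6) 1 8)
      (BlkD.upd (BlkD.upd (BlkD.upd (BlkD.upd (BlkD.upd (BlkD.upd (BlkD.upd (fun _ => 21) 0 10) 2 2) 0 8) 0 7) 0 6) 1 15) 1 11)) :=
  BlkD.tree_sound (BlkD.pairOk_sound k21_21_10_2) (by decide) hn t21_21_10_2_10 _ _ (by decide +kernel)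

/-- certificates of the pair `(10, 2)`, part 11 -/
def t21_21_10_2_11 : BlkD.Tr :=
  .S 1 13 (.S 1 12 (.S 2 1 (.S 2 0 (.S 3 3 (.S 3 1 (.L 5 8 [4, 4, 4] [342, 338, 334, 330, 326, 322]
    [] 100000 64286 64285 1299999 57143 0 100000 57143 0 0 14286) (.L 4 6 [4, 4, 5] [342, 338, 334,
    330, 326, 322] [] 100000 116666 116666 1133336 83333 0 100000 16667 0 0 0)) (.E 1)) (.S 3 2 (.S
    3 1 (.S 3 0 (.S 4 12 (.S 4 6 (.L 4 6 [4, 4, 5] [318, 314, 310, 306, 296, 286] [0, 0, 0, 0, 0,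
    0] 100000 200000 100000 500000 150000 0 200000 0 0 50000 0) (.L 4 6 [4, 4, 5] [342, 338, 334,
    330, 326, 322] [0, 0, 0, 0, 0, 0] 100000 185000 0 0 95000 0 285000 0 0 0 0)) (.E 2)) (.L 4 6
    [4, 4, 5] [342, 338, 334, 330, 326, 322] [12, 2, 0, 0, 0, 0] 100000 150000 150000 1000000
    100000 0 100000 0 0 0 0)) (.L 4 6 [4, 4, 5] [342, 338, 334, 330, 326, 322] [22, 16, 6, 0, 0, 0]
    100000 337500 262500 0 175000 0 175000 0 0 0 0)) (.E 1))) (.L 4 6 [4, 4, 5] [342, 338, 334,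
    330, 326, 322] [] 100000 354545 272727 2 181818 0 181818 0 0 0 0)) (.L 4 6 [4, 4, 5] [382, 378,
    374, 370, 366, 362] [] 100000 150000 125000 950000 100000 0 125000 25000 0 0 0)) (.S 1 14 (.L 4
    6 [4, 4, 5] [424, 420, 416, 412, 408, 404] [] 100000 303846 150000 1 176923 0 253846 0 0 0 0)
    (.L 4 6 [4, 4, 5] [468, 464, 460, 456, 452, 448] [] 100000 286840 165786 4 165789 0 221053 0 0
    0 0))

lemma s21_21_10_2_11 {n : ℕ} (hn : 5 ≤ n) : NoNd (d21_21_10_2.R : ℤ) d21_21_10_2.H n d21_21_10_2.a d21_21_10_2.b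
    (BlkD.inB (BlkD.upd (BlkD.upd (BlkD.upd (fun _ => 0) 0 6) 1 8) 1 12)
      (BlkD.upd (BlkD.upd (BlkD.upd (BlkD.upd (BlkD.upd (BlkD.upd (fun _ => 21) 0 10) 2 2) 0 8) 0 7) 0 6) 1 15)) :=
  BlkD.tree_sound (BlkD.pairOk_sound k21_21_10_2) (by decide) hn t21_21_10_2_11 _ _ (by decide +kernel)

/-- certificates of the pair `(10, 2)`, part 12 -/
def t21_21_10_2_12 : BlkD.Tr :=
  .E 0

lemma s21_21_10_2_12 {n : ℕ} (hn : 5 ≤ n) : NoNd (d21_21_10_2.R : ℤ) d21_21_10_2.H n d21_21_10_2.a d21_21_10_2.b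
    (BlkD.inB (BlkD.upd (BlkD.upd (fun _ => 0) 0 6) 1 16)
      (BlkD.upd (BlkD.upd (BlkD.upd (BlkD.upd (BlkD.upd (fun _ => 21) 0 10) 2 2) 0 8) 0 7) 0 6)) :=
  BlkD.tree_sound (BlkD.pairOk_sound k21_21_10_2) (by decide) hn t21_21_10_2_12 _ _ (by decide +kernel)

/-- certificates of the pair `(10, 2)`, part 13 -/
def t21_21_10_2_13 : BlkD.Tr :=
  .S 1 14 (.S 1 7 (.S 1 3 (.L 4 6 [4, 4, 5] [] [] 100000 0 0 1300000 0 0 0 0 0 0 0) (.S 1 5 (.L 4 6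
    [4, 4, 5] [] [] 100000 0 0 1400000 20000 0 20000 20000 0 20000 20000) (.S 1 6 (.L 4 6 [4, 4, 5]
    [156, 152, 148, 144, 134, 124] [] 100000 0 0 1450000 25000 0 25000 25000 0 25000 25000) (.L 5 8
    [4, 4, 4] [186, 182, 178, 174, 170, 160] [] 100000 5555 5554 1466669 33333 0 33333 33333 0
    22222 22222)))) (.S 1 11 (.S 1 9 (.S 1 8 (.S 2 1 (.S 2 0 (.L 5 8 [4, 4, 4] [218, 214, 210, 206,
    202, 198] [] 100000 13638 13638 1445454 45455 0 63636 18182 0 18182 18182) (.S 3 5 (.S 3 2 (.S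
    3 1 (.L 5 8 [4, 4, 4] [218, 214, 210, 206, 202, 198] [] 100000 13638 13638 1436363 45455 0
    63636 0 0 18182 18182) (.S 4 8 (.S 4 4 (.L 4 6 [4, 4, 5] [202, 198, 188, 178, 168, 0] [22, 16,
    6, 0, 0, 0] 100000 150000 150000 1000000 100000 0 100000 0 0 0 0) (.L 4 6 [4, 4, 5] [218, 214,
    210, 206, 202, 198] [22, 16, 6, 0, 0, 0] 100000 213044 1 2 78261 0 313043 0 0 0 0)) (.E 2)))
    (.E 1)) (.E 1))) (.L 5 8 [4, 4, 4] [218, 214, 210, 206, 202, 198] [] 100000 150000 150000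
    1000000 100000 0 100000 0 0 0 0)) (.S 2 1 (.S 2 0 (.L 5 8 [4, 4, 4] [252, 248, 244, 240, 236,
    232] [] 100000 37500 37499 1375000 50000 0 91667 41667 0 16667 16667) (.S 3 4 (.S 3 2 (.S 3 1
    (.S 3 0 (.L 5 8 [4, 4, 4] [252, 248, 244, 240, 236, 232] [0, 0, 0, 0, 0, 0] 100000 6250 6250
    1437500 37500 0 87500 0 0 25000 25000) (.S 4 9 (.S 4 4 (.L 5 8 [4, 4, 4] [232, 228, 218, 208,
    198, 0] [12, 2, 0, 0, 0, 0] 100000 100000 100000 1100000 100000 0 100000 0 0 0 0) (.L 5 8 [4,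
    4, 4] [252, 248, 244, 240, 236, 232] [12, 2, 0, 0, 0, 0] 100000 100001 1 799999 66667 0 200000
    0 0 0 0)) (.E 2))) (.L 5 8 [4, 4, 4] [252, 248, 244, 240, 236, 232] [22, 16, 6, 0, 0, 0] 100000
    57143 57142 1314285 57143 0 100000 42857 0 14286 14286)) (.E 1)) (.E 1))) (.L 5 8 [4, 4, 4]
    [252, 248, 244, 240, 236, 232] [] 100000 150000 150000 1000000 100000 0 100000 0 0 0 0))) (.S 1
    10 (.L 5 8 [4, 4, 4] [288, 284, 280, 276, 272, 268] [] 100000 25000 25000 1400000 50000 0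
    100000 0 0 0 0) (.L 5 8 [4, 4, 4] [326, 322, 318, 314, 310, 306] [] 100000 72222 72221 1244444
    77778 0 100000 11111 0 0 0))) (.S 1 13 (.S 1 12 (.L 5 8 [4, 4, 4] [366, 362, 358, 354, 350,
    346] [] 100000 233334 1 0 166667 0 333333 0 0 0 0) (.L 5 8 [4, 4, 4] [408, 404, 400, 396, 392,
    388] [] 100000 217856 60712 2 178571 0 257143 0 0 0 0)) (.L 5 8 [4, 4, 4] [452, 448, 444, 440,
    436, 432] [] 100000 182692 40384 2 161538 0 242308 0 0 0 0)))) (.E 0)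

lemma s21_21_10_2_13 {n : ℕ} (hn : 5 ≤ n) : NoNd (d21_21_10_2.R : ℤ) d21_21_10_2.H n d21_21_10_2.a d21_21_10_2.b
    (BlkD.inB (BlkD.upd (BlkD.upd (fun _ => 0) 0 6) 0 7)
      (BlkD.upd (BlkD.upd (BlkD.upd (BlkD.upd (fun _ => 21) 0 10) 2 2) 0 8) 0 7)) :=
  BlkD.tree_sound (BlkD.pairOk_sound k21_21_10_2) (by decide) hn t21_21_10_2_13 _ _ (by decide +kernel)

/-- certificates of the pair `(10, 2)`, part 14 -/
def t21_21_10_2_14 : BlkD.Tr :=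
  .S 1 13 (.S 1 6 (.S 1 3 (.L 5 8 [4, 4, 4] [] [] 100000 0 0 1400000 0 0 0 0 0 0 0) (.S 1 5 (.L 5 8
    [4, 4, 4] [] [] 100000 0 0 1433335 33333 0 33333 33333 0 33333 33333) (.L 5 8 [4, 4, 4] [168,
    164, 160, 156, 146, 136] [] 100000 13888 13887 1433336 44444 0 66667 22222 0 16667 16667))) (.S
    1 10 (.S 1 8 (.S 1 7 (.L 5 8 [4, 4, 4] [200, 196, 192, 188, 184, 174] [] 100000 13638 13638
    1431816 45455 0 86364 13636 0 18182 18182) (.L 5 8 [4, 4, 4] [234, 230, 226, 222, 218, 214] []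
    100000 12500 12500 1425000 50000 0 75000 25000 0 25000 25000)) (.L 5 8 [4, 4, 4] [] [] 100000 0
    0 1455556 11111 0 100000 11111 0 11111 11111)) (.L 5 8 [4, 4, 4] [] [] 100000 233333 0 2 0 0
    333333 0 0 0 0))) (.E 0)

lemma s21_21_10_2_14 {n : ℕ} (hn : 5 ≤ n) : NoNd (d21_21_10_2.R : ℤ) d21_21_10_2.H n d21_21_10_2.a d21_21_10_2.b
    (BlkD.inB (BlkD.upd (BlkD.upd (fun _ => 0) 0 6) 0 8)
      (BlkD.upd (BlkD.upd (BlkD.upd (fun _ => 21) 0 10) 2 2) 0 8)) :=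
  BlkD.tree_sound (BlkD.pairOk_sound k21_21_10_2) (by decide) hn t21_21_10_2_14 _ _ (by decide +kernel)

/-- certificates of the pair `(10, 2)`, part 15 -/
def t21_21_10_2_15 : BlkD.Tr :=
  .S 0 9 (.S 1 12 (.S 1 6 (.L 5 8 [4, 4, 4] [] [] 100000 1 1 1490909 27273 0 63636 27273 0 27273
    27273) (.L 5 8 [4, 4, 4] [] [] 100000 57895 0 1052631 15789 0 157895 15789 0 0 0)) (.E 0)) (.L
    5 8 [4, 4, 4] [] [] 100000 0 0 1467442 16279 0 58140 0 20930 20930 20930)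

lemma s21_21_10_2_15 {n : ℕ} (hn : 5 ≤ n) : NoNd (d21_21_10_2.R : ℤ) d21_21_10_2.H n d21_21_10_2.a d21_21_10_2.b
    (BlkD.inB (BlkD.upd (BlkD.upd (fun _ => 0) 0 6) 0 9)
      (BlkD.upd (BlkD.upd (fun _ => 21) 0 10) 2 2)) :=
  BlkD.tree_sound (BlkD.pairOk_sound k21_21_10_2) (by decide) hn t21_21_10_2_15 _ _ (by decide +kernel)

/-- certificates of the pair `(10, 2)`, part 16 -/
def t21_21_10_2_16 : BlkD.Tr :=
  .E 1

lemma s21_21_10_2_16 {n : ℕ} (hn : 5 ≤ n) : NoNd (d21_21_10_2.R : ℤ) d21_21_10_2.H n d21_21_10_2.a d21_21_10_2.b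
    (BlkD.inB (BlkD.upd (fun _ => 0) 2 3)
      (BlkD.upd (fun _ => 21) 0 10)) :=
  BlkD.tree_sound (BlkD.pairOk_sound k21_21_10_2) (by decide) hn t21_21_10_2_16 _ _ (by decide +kernel)

/-- certificates of the pair `(10, 2)`, part 17 -/
def t21_21_10_2_17 : BlkD.Tr :=
  .E 0

lemma s21_21_10_2_17 {n : ℕ} (hn : 5 ≤ n) : NoNd (d21_21_10_2.R : ℤ) d21_21_10_2.H n d21_21_10_2.a d21_21_10_2.b
    (BlkD.inB (BlkD.upd (fun _ => 0) 0 11)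
      (fun _ => 21)) :=
  BlkD.tree_sound (BlkD.pairOk_sound k21_21_10_2) (by decide) hn t21_21_10_2_17 _ _ (by decide +kernel)

lemma pr21_21_10_2 {n : ℕ} (hn : 5 ≤ n) : NoPr ((21 : ℕ) : ℤ) ((21 : ℕ) : ℤ) n 10 2 :=
  BlkD.of_root (R := d21_21_10_2.R) (H := d21_21_10_2.H) (a := d21_21_10_2.a) (b := d21_21_10_2.b) (q := 3) (by decide) hn
    (BlkD.sp 0 10 (BlkD.sp 2 2 (BlkD.sp 0 5 (BlkD.sp 0 2 (BlkD.sp 0 1 (s21_21_10_2_1 hn) (BlkD.sp 1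
      10 (s21_21_10_2_2 hn) (s21_21_10_2_3 hn))) (BlkD.sp 0 4 (BlkD.sp 0 3 (s21_21_10_2_4 hn)
      (s21_21_10_2_5 hn)) (BlkD.sp 1 16 (BlkD.sp 1 8 (s21_21_10_2_6 hn) (s21_21_10_2_7 hn))
      (s21_21_10_2_8 hn)))) (BlkD.sp 0 8 (BlkD.sp 0 7 (BlkD.sp 0 6 (BlkD.sp 1 15 (BlkD.sp 1 7
      (s21_21_10_2_9 hn) (BlkD.sp 1 11 (s21_21_10_2_10 hn) (s21_21_10_2_11 hn))) (s21_21_10_2_12
      hn)) (s21_21_10_2_13 hn)) (s21_21_10_2_14 hn)) (s21_21_10_2_15 hn))) (s21_21_10_2_16 hn))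
      (s21_21_10_2_17 hn))

end BlkC

end Pool.Agent.Lib.MP_f04ccf_co
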