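import Pool.Agent.Lib.MP_f04ccf_co.M.BlkT

/-!
MP_f04ccf_co, block certificate, data `R = 21`, `H = 21`, part 2 (generated, helper99:
bd10.cpp, gen2.py).
-/

set_option autoImplicit false
set_option maxRecDepth 100000

namespace Pool.Agent.Lib.MP_f04ccf_co

namespace BlkC

/-- the numbers of the pair `(6, 2)`, `R = 21`, `H = 21` -/
def d21_21_6_2 : BlkD.Pd :=
  ⟨21, 21, 3, 6, 2, 10, 2, 1, 2, 2, 8, 0, 0, 4, 6, 0, [0, 8, 16, 24, 28, 30, 32, 34, 36, 38, 40],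
    [0, 6, 12, 18, 24, 30, 36, 40, 40, 40, 40], [⟨1, 1, 1, 4, 8, [0, 4], [0, 4]⟩, ⟨1, 1, 1, 4, 10,
    [0, 6], [0, 4]⟩, ⟨1, 1, 1, 6, 14, [0, 8], [0, 6]⟩]⟩

lemma k21_21_6_2 : BlkD.pairOk d21_21_6_2 = true := by decide +kernel

/-- certificates of the pair `(6, 2)`, part 1 -/
def t21_21_6_2_1 : BlkD.Tr :=
  .L 4 5 [4, 4, 5] [] [] 100000 0 0 1000003 25000 0 50000 12500 16667 33333 33333

lemma s21_21_6_2_1 {n : ℕ} (hn : 5 ≤ n) : NoNd (d21_21_6_2.R : ℤ) d21_21_6_2.H n d21_21_6_2.a d21_21_6_2.b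
    (BlkD.inB (fun _ => 0)
      (BlkD.upd (BlkD.upd (BlkD.upd (BlkD.upd (fun _ => 21) 0 6) 2 2) 0 3) 0 1)) :=
  BlkD.tree_sound (BlkD.pairOk_sound k21_21_6_2) (by decide) hn t21_21_6_2_1 _ _ (by decide +kernel)

/-- certificates of the pair `(6, 2)`, part 2 -/
def t21_21_6_2_2 : BlkD.Tr :=
  .L 4 5 [4, 4, 5] [] [] 100000 0 0 1000003 25000 0 50000 12500 16667 33333 33333

lemma s21_21_6_2_2 {n : ℕ} (hn : 5 ≤ n) : NoNd (d21_21_6_2.R : ℤ) d21_21_6_2.H n d21_21_6_2.a d21_21_6_2.b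
    (BlkD.inB (BlkD.upd (fun _ => 0) 0 2)
      (BlkD.upd (BlkD.upd (BlkD.upd (fun _ => 21) 0 6) 2 2) 0 3)) :=
  BlkD.tree_sound (BlkD.pairOk_sound k21_21_6_2) (by decide) hn t21_21_6_2_2 _ _ (by decide +kernel)

/-- certificates of the pair `(6, 2)`, part 3 -/
def t21_21_6_2_3 : BlkD.Tr :=
  .L 4 5 [4, 4, 5] [] [] 100000 0 0 1000003 25000 0 50000 12500 16667 33333 33333

lemma s21_21_6_2_3 {n : ℕ} (hn : 5 ≤ n) : NoNd (d21_21_6_2.R : ℤ) d21_21_6_2.H n d21_21_6_2.a d21_21_6_2.b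
    (BlkD.inB (BlkD.upd (fun _ => 0) 0 4)
      (BlkD.upd (BlkD.upd (fun _ => 21) 0 6) 2 2)) :=
  BlkD.tree_sound (BlkD.pairOk_sound k21_21_6_2) (by decide) hn t21_21_6_2_3 _ _ (by decide +kernel)

/-- certificates of the pair `(6, 2)`, part 4 -/
def t21_21_6_2_4 : BlkD.Tr :=
  .E 1

lemma s21_21_6_2_4 {n : ℕ} (hn : 5 ≤ n) : NoNd (d21_21_6_2.R : ℤ) d21_21_6_2.H n d21_21_6_2.a d21_21_6_2.b
    (BlkD.inB (BlkD.upd (fun _ => 0) 2 3)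
      (BlkD.upd (fun _ => 21) 0 6)) :=
  BlkD.tree_sound (BlkD.pairOk_sound k21_21_6_2) (by decide) hn t21_21_6_2_4 _ _ (by decide +kernel)

/-- certificates of the pair `(6, 2)`, part 5 -/
def t21_21_6_2_5 : BlkD.Tr :=
  .E 0

lemma s21_21_6_2_5 {n : ℕ} (hn : 5 ≤ n) : NoNd (d21_21_6_2.R : ℤ) d21_21_6_2.H n d21_21_6_2.a d21_21_6_2.b
    (BlkD.inB (BlkD.upd (fun _ => 0) 0 7)
      (fun _ => 21)) :=
  BlkD.tree_sound (BlkD.pairOk_sound k21_21_6_2) (by decide) hn t21_21_6_2_5 _ _ (by decide +kernel)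

lemma pr21_21_6_2 {n : ℕ} (hn : 5 ≤ n) : NoPr ((21 : ℕ) : ℤ) ((21 : ℕ) : ℤ) n 6 2 :=
  BlkD.of_root (R := d21_21_6_2.R) (H := d21_21_6_2.H) (a := d21_21_6_2.a) (b := d21_21_6_2.b) (q := 3) (by decide) hn
    (BlkD.sp 0 6 (BlkD.sp 2 2 (BlkD.sp 0 3 (BlkD.sp 0 1 (s21_21_6_2_1 hn) (s21_21_6_2_2 hn))
      (s21_21_6_2_3 hn)) (s21_21_6_2_4 hn)) (s21_21_6_2_5 hn))

/-- the numbers of the pair `(6, 3)`, `R = 21`, `H = 21` -/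
def d21_21_6_3 : BlkD.Pd :=
  ⟨21, 21, 3, 6, 3, 9, 3, 2, 3, 2, 10, 0, 4, 1, 8, 0, [0, 10, 20, 27, 30, 33, 36, 39, 42, 45], [0,
    8, 16, 21, 25, 29, 33, 37, 41, 45], [⟨1, 1, 1, 4, 8, [0, 4], [0, 4]⟩, ⟨1, 1, 1, 6, 12, [0, 6],
    [0, 6]⟩, ⟨1, 1, 1, 6, 14, [0, 8], [0, 6]⟩, ⟨2, 1, 1, 8, 22, [0, 10, 14], [0, 8]⟩]⟩

lemma k21_21_6_3 : BlkD.pairOk d21_21_6_3 = true := by decide +kernel

/-- certificates of the pair `(6, 3)`, part 1 -/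
def t21_21_6_3_1 : BlkD.Tr :=
  .L 5 6 [4, 4, 5, 5] [] [] 100000 80555 80553 600003 100000 0 100000 33333 0 4167 27083

lemma s21_21_6_3_1 {n : ℕ} (hn : 5 ≤ n) : NoNd (d21_21_6_3.R : ℤ) d21_21_6_3.H n d21_21_6_3.a d21_21_6_3.b
    (BlkD.inB (fun _ => 0)
      (BlkD.upd (BlkD.upd (BlkD.upd (BlkD.upd (BlkD.upd (fun _ => 21) 0 6) 2 3) 0 3) 0 1) 0 0)) :=
  BlkD.tree_sound (BlkD.pairOk_sound k21_21_6_3) (by decide) hn t21_21_6_3_1 _ _ (by decide +kernel)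

/-- certificates of the pair `(6, 3)`, part 2 -/
def t21_21_6_3_2 : BlkD.Tr :=
  .L 5 6 [4, 4, 5, 5] [] [] 100000 80555 80553 600003 100000 0 100000 33333 0 4167 27083

lemma s21_21_6_3_2 {n : ℕ} (hn : 5 ≤ n) : NoNd (d21_21_6_3.R : ℤ) d21_21_6_3.H n d21_21_6_3.a d21_21_6_3.b
    (BlkD.inB (BlkD.upd (fun _ => 0) 0 1)
      (BlkD.upd (BlkD.upd (BlkD.upd (BlkD.upd (BlkD.upd (BlkD.upd (fun _ => 21) 0 6) 2 3) 0 3) 0 1) 1 10) 1 5)) :=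
  BlkD.tree_sound (BlkD.pairOk_sound k21_21_6_3) (by decide) hn t21_21_6_3_2 _ _ (by decide +kernel)

/-- certificates of the pair `(6, 3)`, part 3 -/
def t21_21_6_3_3 : BlkD.Tr :=
  .L 5 6 [4, 4, 5, 5] [] [] 100000 80555 80553 600003 100000 0 100000 33333 0 4167 27083

lemma s21_21_6_3_3 {n : ℕ} (hn : 5 ≤ n) : NoNd (d21_21_6_3.R : ℤ) d21_21_6_3.H n d21_21_6_3.a d21_21_6_3.b
    (BlkD.inB (BlkD.upd (BlkD.upd (fun _ => 0) 0 1) 1 6)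
      (BlkD.upd (BlkD.upd (BlkD.upd (BlkD.upd (BlkD.upd (fun _ => 21) 0 6) 2 3) 0 3) 0 1) 1 10)) :=
  BlkD.tree_sound (BlkD.pairOk_sound k21_21_6_3) (by decide) hn t21_21_6_3_3 _ _ (by decide +kernel)

/-- certificates of the pair `(6, 3)`, part 4 -/
def t21_21_6_3_4 : BlkD.Tr :=
  .L 5 6 [4, 4, 5, 5] [] [] 100000 80555 80553 600003 100000 0 100000 33333 0 4167 27083

lemma s21_21_6_3_4 {n : ℕ} (hn : 5 ≤ n) : NoNd (d21_21_6_3.R : ℤ) d21_21_6_3.H n d21_21_6_3.a d21_21_6_3.b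
    (BlkD.inB (BlkD.upd (BlkD.upd (fun _ => 0) 0 1) 1 11)
      (BlkD.upd (BlkD.upd (BlkD.upd (BlkD.upd (fun _ => 21) 0 6) 2 3) 0 3) 0 1)) :=
  BlkD.tree_sound (BlkD.pairOk_sound k21_21_6_3) (by decide) hn t21_21_6_3_4 _ _ (by decide +kernel)

/-- certificates of the pair `(6, 3)`, part 5 -/
def t21_21_6_3_5 : BlkD.Tr :=
  .S 1 10 (.S 1 5 (.L 5 6 [4, 4, 5, 5] [] [] 100000 20780 20780 1070030 21662 0 60831 43752 7657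
    22346 27569) (.L 5 6 [4, 4, 5, 5] [] [] 100000 20780 20780 1070030 21662 0 60831 43752 7657
    22346 27569)) (.L 5 6 [4, 4, 5, 5] [] [] 100000 20780 20780 1070030 21662 0 60831 43752 7657
    22346 27569)

lemma s21_21_6_3_5 {n : ℕ} (hn : 5 ≤ n) : NoNd (d21_21_6_3.R : ℤ) d21_21_6_3.H n d21_21_6_3.a d21_21_6_3.b
    (BlkD.inB (BlkD.upd (fun _ => 0) 0 2)
      (BlkD.upd (BlkD.upd (BlkD.upd (BlkD.upd (fun _ => 21) 0 6) 2 3) 0 3) 0 2)) :=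
  BlkD.tree_sound (BlkD.pairOk_sound k21_21_6_3) (by decide) hn t21_21_6_3_5 _ _ (by decide +kernel)

/-- certificates of the pair `(6, 3)`, part 6 -/
def t21_21_6_3_6 : BlkD.Tr :=
  .S 1 18 (.S 1 9 (.S 1 4 (.L 5 6 [4, 4, 5, 5] [] [] 100000 22598 22596 1003393 32203 0 61017 45763
    5085 22034 33898) (.S 1 7 (.S 1 6 (.S 1 5 (.L 5 6 [4, 4, 5, 5] [91, 87, 80, 70, 60, 50] []
    100000 20635 20635 1033336 33333 0 65000 35714 9048 20000 24048) (.L 5 6 [4, 4, 5, 5] [110,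
    107, 103, 96, 86, 76] [] 100000 15476 15475 1050000 25000 0 75000 25000 17857 17857 17857)) (.L
    5 6 [4, 4, 5, 5] [131, 128, 125, 121, 114, 104] [] 100000 60000 0 560000 0 0 160000 50000 0 0
    0)) (.E 0))) (.E 0)) (.E 0)

lemma s21_21_6_3_6 {n : ℕ} (hn : 5 ≤ n) : NoNd (d21_21_6_3.R : ℤ) d21_21_6_3.H n d21_21_6_3.a d21_21_6_3.b
    (BlkD.inB (BlkD.upd (BlkD.upd (fun _ => 0) 0 2) 0 3)
      (BlkD.upd (BlkD.upd (BlkD.upd (fun _ => 21) 0 6) 2 3) 0 3)) :=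
  BlkD.tree_sound (BlkD.pairOk_sound k21_21_6_3) (by decide) hn t21_21_6_3_6 _ _ (by decide +kernel)

/-- certificates of the pair `(6, 3)`, part 7 -/
def t21_21_6_3_7 : BlkD.Tr :=
  .S 0 5 (.S 0 4 (.S 1 17 (.S 1 8 (.S 1 4 (.L 5 6 [4, 4, 5, 5] [] [] 100000 15559 15559 1089612
    27597 0 65305 39681 12500 28324 30298) (.L 5 6 [4, 4, 5, 5] [] [] 100000 11069 11068 1027737
    3962 0 88113 38113 35660 19245 23774)) (.E 0)) (.E 0)) (.L 5 6 [4, 4, 5, 5] [] [] 100000 4418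
    4417 1153014 0 0 46988 74699 25301 36145 36145)) (.L 5 6 [4, 4, 5, 5] [] [] 100000 1 1 1100000
    0 0 50000 25000 33333 33333 33333)

lemma s21_21_6_3_7 {n : ℕ} (hn : 5 ≤ n) : NoNd (d21_21_6_3.R : ℤ) d21_21_6_3.H n d21_21_6_3.a d21_21_6_3.b
    (BlkD.inB (BlkD.upd (fun _ => 0) 0 4)
      (BlkD.upd (BlkD.upd (fun _ => 21) 0 6) 2 3)) :=
  BlkD.tree_sound (BlkD.pairOk_sound k21_21_6_3) (by decide) hn t21_21_6_3_7 _ _ (by decide +kernel)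

/-- certificates of the pair `(6, 3)`, part 8 -/
def t21_21_6_3_8 : BlkD.Tr :=
  .E 1

lemma s21_21_6_3_8 {n : ℕ} (hn : 5 ≤ n) : NoNd (d21_21_6_3.R : ℤ) d21_21_6_3.H n d21_21_6_3.a d21_21_6_3.b
    (BlkD.inB (BlkD.upd (fun _ => 0) 2 4)
      (BlkD.upd (fun _ => 21) 0 6)) :=
  BlkD.tree_sound (BlkD.pairOk_sound k21_21_6_3) (by decide) hn t21_21_6_3_8 _ _ (by decide +kernel)

/-- certificates of the pair `(6, 3)`, part 9 -/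
def t21_21_6_3_9 : BlkD.Tr :=
  .E 0

lemma s21_21_6_3_9 {n : ℕ} (hn : 5 ≤ n) : NoNd (d21_21_6_3.R : ℤ) d21_21_6_3.H n d21_21_6_3.a d21_21_6_3.b
    (BlkD.inB (BlkD.upd (fun _ => 0) 0 7)
      (fun _ => 21)) :=
  BlkD.tree_sound (BlkD.pairOk_sound k21_21_6_3) (by decide) hn t21_21_6_3_9 _ _ (by decide +kernel)

lemma pr21_21_6_3 {n : ℕ} (hn : 5 ≤ n) : NoPr ((21 : ℕ) : ℤ) ((21 : ℕ) : ℤ) n 6 3 :=
  BlkD.of_root (R := d21_21_6_3.R) (H := d21_21_6_3.H) (a := d21_21_6_3.a) (b := d21_21_6_3.b) (q := 3) (by decide) hn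
    (BlkD.sp 0 6 (BlkD.sp 2 3 (BlkD.sp 0 3 (BlkD.sp 0 1 (BlkD.sp 0 0 (s21_21_6_3_1 hn) (BlkD.sp 1
      10 (BlkD.sp 1 5 (s21_21_6_3_2 hn) (s21_21_6_3_3 hn)) (s21_21_6_3_4 hn))) (BlkD.sp 0 2
      (s21_21_6_3_5 hn) (s21_21_6_3_6 hn))) (s21_21_6_3_7 hn)) (s21_21_6_3_8 hn)) (s21_21_6_3_9
      hn))

/-- the numbers of the pair `(6, 4)`, `R = 21`, `H = 21` -/
def d21_21_6_4 : BlkD.Pd :=
  ⟨21, 21, 3, 6, 4, 8, 4, 2, 0, 4, 12, 0, 2, 2, 10, 0, [0, 12, 24, 32, 32, 32, 32, 32, 32], [0, 10,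
    20, 22, 24, 26, 28, 30, 32], [⟨1, 1, 1, 4, 8, [0, 4], [0, 4]⟩, ⟨1, 1, 1, 6, 12, [0, 6], [0,
    6]⟩, ⟨1, 1, 1, 6, 16, [0, 8], [0, 8]⟩, ⟨2, 1, 1, 6, 22, [0, 10, 14], [0, 8]⟩, ⟨2, 1, 1, 6, 28,
    [0, 12, 18], [0, 10]⟩]⟩

lemma k21_21_6_4 : BlkD.pairOk d21_21_6_4 = true := by decide +kernel

/-- certificates of the pair `(6, 4)`, part 1 -/
def t21_21_6_4_1 : BlkD.Tr :=
  .L 5 6 [4, 4, 5, 5, 6] [] [] 100000 87879 87879 700000 100000 0 100000 100000 0 0 21212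

lemma s21_21_6_4_1 {n : ℕ} (hn : 5 ≤ n) : NoNd (d21_21_6_4.R : ℤ) d21_21_6_4.H n d21_21_6_4.a d21_21_6_4.b
    (BlkD.inB (fun _ => 0)
      (BlkD.upd (BlkD.upd (BlkD.upd (BlkD.upd (BlkD.upd (fun _ => 21) 0 6) 2 4) 0 3) 0 1) 0 0)) :=
  BlkD.tree_sound (BlkD.pairOk_sound k21_21_6_4) (by decide) hn t21_21_6_4_1 _ _ (by decide +kernel)

/-- certificates of the pair `(6, 4)`, part 2 -/
def t21_21_6_4_2 : BlkD.Tr :=
  .L 5 6 [4, 4, 5, 5, 6] [] [] 100000 87879 87879 700000 100000 0 100000 100000 0 0 21212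

lemma s21_21_6_4_2 {n : ℕ} (hn : 5 ≤ n) : NoNd (d21_21_6_4.R : ℤ) d21_21_6_4.H n d21_21_6_4.a d21_21_6_4.b
    (BlkD.inB (BlkD.upd (fun _ => 0) 0 1)
      (BlkD.upd (BlkD.upd (BlkD.upd (BlkD.upd (BlkD.upd (BlkD.upd (fun _ => 21) 0 6) 2 4) 0 3) 0 1) 1 10) 1 5)) :=
  BlkD.tree_sound (BlkD.pairOk_sound k21_21_6_4) (by decide) hn t21_21_6_4_2 _ _ (by decide +kernel)

/-- certificates of the pair `(6, 4)`, part 3 -/
def t21_21_6_4_3 : BlkD.Tr :=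
  .L 5 6 [4, 4, 5, 5, 6] [] [] 100000 87879 87879 700000 100000 0 100000 100000 0 0 21212

lemma s21_21_6_4_3 {n : ℕ} (hn : 5 ≤ n) : NoNd (d21_21_6_4.R : ℤ) d21_21_6_4.H n d21_21_6_4.a d21_21_6_4.b
    (BlkD.inB (BlkD.upd (BlkD.upd (fun _ => 0) 0 1) 1 6)
      (BlkD.upd (BlkD.upd (BlkD.upd (BlkD.upd (BlkD.upd (fun _ => 21) 0 6) 2 4) 0 3) 0 1) 1 10)) :=
  BlkD.tree_sound (BlkD.pairOk_sound k21_21_6_4) (by decide) hn t21_21_6_4_3 _ _ (by decide +kernel)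

/-- certificates of the pair `(6, 4)`, part 4 -/
def t21_21_6_4_4 : BlkD.Tr :=
  .L 5 6 [4, 4, 5, 5, 6] [] [] 100000 87879 87879 700000 100000 0 100000 100000 0 0 21212

lemma s21_21_6_4_4 {n : ℕ} (hn : 5 ≤ n) : NoNd (d21_21_6_4.R : ℤ) d21_21_6_4.H n d21_21_6_4.a d21_21_6_4.b
    (BlkD.inB (BlkD.upd (BlkD.upd (fun _ => 0) 0 1) 1 11)
      (BlkD.upd (BlkD.upd (BlkD.upd (BlkD.upd (fun _ => 21) 0 6) 2 4) 0 3) 0 1)) :=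
  BlkD.tree_sound (BlkD.pairOk_sound k21_21_6_4) (by decide) hn t21_21_6_4_4 _ _ (by decide +kernel)

/-- certificates of the pair `(6, 4)`, part 5 -/
def t21_21_6_4_5 : BlkD.Tr :=
  .L 5 6 [4, 4, 5, 5, 6] [] [] 100000 25000 25000 1166668 8333 0 8333 66667 0 33333 25000

lemma s21_21_6_4_5 {n : ℕ} (hn : 5 ≤ n) : NoNd (d21_21_6_4.R : ℤ) d21_21_6_4.H n d21_21_6_4.a d21_21_6_4.b
    (BlkD.inB (BlkD.upd (fun _ => 0) 0 2)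
      (BlkD.upd (BlkD.upd (BlkD.upd (BlkD.upd (BlkD.upd (BlkD.upd (BlkD.upd (fun _ => 21) 0 6) 2 4) 0 3) 0 2) 1 19) 1 9) 1 4)) :=
  BlkD.tree_sound (BlkD.pairOk_sound k21_21_6_4) (by decide) hn t21_21_6_4_5 _ _ (by decide +kernel)

/-- certificates of the pair `(6, 4)`, part 6 -/
def t21_21_6_4_6 : BlkD.Tr :=
  .S 2 2 (.S 2 1 (.L 6 7 [4, 4, 5, 4, 5] [90, 84, 76, 64, 52, 40] [] 100000 31403 31402 1131150
    23770 25000 34324 47541 1332 18033 26230) (.L 6 7 [4, 4, 5, 4, 5] [90, 84, 76, 64, 52, 40] []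
    100000 24161 24161 1175935 24813 0 48321 26493 3358 21735 25840)) (.L 6 7 [4, 4, 5, 4, 5] [90,
    84, 76, 64, 52, 40] [] 100000 23363 23363 1175003 25000 0 70833 27381 6548 45833 29167)

lemma s21_21_6_4_6 {n : ℕ} (hn : 5 ≤ n) : NoNd (d21_21_6_4.R : ℤ) d21_21_6_4.H n d21_21_6_4.a d21_21_6_4.b
    (BlkD.inB (BlkD.upd (BlkD.upd (fun _ => 0) 0 2) 1 5)
      (BlkD.upd (BlkD.upd (BlkD.upd (BlkD.upd (BlkD.upd (BlkD.upd (BlkD.upd (BlkD.upd (BlkD.upd (fun _ => 21) 0 6) 2 4) 0 3) 0 2) 1 19) 1 9) 1 7) 1 6) 1 5)) :=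
  BlkD.tree_sound (BlkD.pairOk_sound k21_21_6_4) (by decide) hn t21_21_6_4_6 _ _ (by decide +kernel)

/-- certificates of the pair `(6, 4)`, part 7 -/
def t21_21_6_4_7 : BlkD.Tr :=
  .S 2 2 (.S 2 1 (.S 2 0 (.L 6 7 [4, 4, 5, 4, 5] [104, 104, 98, 90, 78, 66] [] 100000 46875 46875
    900000 0 0 50000 100000 0 0 4167) (.S 3 12 (.S 3 6 (.S 3 3 (.L 6 7 [4, 4, 5, 4, 5] [104, 104,
    98, 90, 78, 66] [] 100000 32632 32632 1089472 24211 20000 44211 42105 0 2105 35789) (.S 3 5 (.S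
    3 4 (.L 6 7 [4, 4, 5, 4, 5] [104, 104, 98, 90, 78, 66] [58, 52, 42, 32, 20, 0] 100000 25000
    25000 1157145 28571 0 57143 28571 0 28571 28571) (.L 7 9 [4, 5, 5, 4, 4] [104, 104, 98, 90, 78,
    66] [70, 68, 62, 52, 42, 30] 100000 27000 27000 1164000 28000 16000 48000 44000 0 20000 24000))
    (.L 7 9 [4, 5, 5, 4, 4] [104, 104, 98, 90, 78, 66] [84, 82, 80, 74, 64, 54] 100000 128572 1 2
    97619 0 97619 228571 0 0 0))) (.E 1)) (.E 1))) (.L 7 9 [4, 5, 5, 4, 4] [104, 104, 98, 90, 78,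
    66] [] 100000 29018 29018 1153574 30357 0 62500 46429 0 14286 23214)) (.L 7 9 [4, 5, 5, 4, 4]
    [104, 104, 98, 90, 78, 66] [] 100000 25000 25000 1166668 33333 0 50000 41667 0 33333 25000)

lemma s21_21_6_4_7 {n : ℕ} (hn : 5 ≤ n) : NoNd (d21_21_6_4.R : ℤ) d21_21_6_4.H n d21_21_6_4.a d21_21_6_4.b
    (BlkD.inB (BlkD.upd (BlkD.upd (BlkD.upd (fun _ => 0) 0 2) 1 5) 1 6)
      (BlkD.upd (BlkD.upd (BlkD.upd (BlkD.upd (BlkD.upd (BlkD.upd (BlkD.upd (BlkD.upd (fun _ => 21) 0 6) 2 4) 0 3) 0 2) 1 19) 1 9) 1 7) 1 6)) :=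
  BlkD.tree_sound (BlkD.pairOk_sound k21_21_6_4) (by decide) hn t21_21_6_4_7 _ _ (by decide +kernel)

/-- certificates of the pair `(6, 4)`, part 8 -/
def t21_21_6_4_8 : BlkD.Tr :=
  .S 2 2 (.S 2 1 (.S 2 0 (.L 7 9 [4, 5, 5, 4, 4] [120, 120, 120, 114, 106, 94] [] 100000 46875
    46875 900000 0 0 50000 100000 0 0 4167) (.S 3 11 (.S 3 5 (.S 3 2 (.L 7 9 [4, 5, 5, 4, 4] [120,
    120, 120, 114, 106, 94] [] 100000 30337 30337 1078657 30337 15730 50000 38202 3933 1124 25000)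
    (.L 7 9 [4, 5, 5, 4, 4] [120, 120, 120, 114, 106, 94] [] 100000 23517 23517 1174579 17797 2542
    82203 49153 9322 28814 22034)) (.E 2)) (.E 1))) (.L 7 9 [4, 5, 5, 4, 4] [120, 120, 120, 114,
    106, 94] [] 100000 26367 26366 1150000 31250 0 62500 50000 6250 13281 25000)) (.L 7 9 [4, 5, 5,
    4, 4] [120, 120, 120, 114, 106, 94] [] 100000 22540 22540 1153440 29312 0 64656 46984 9841
    27090 24691)

lemma s21_21_6_4_8 {n : ℕ} (hn : 5 ≤ n) : NoNd (d21_21_6_4.R : ℤ) d21_21_6_4.H n d21_21_6_4.a d21_21_6_4.b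
    (BlkD.inB (BlkD.upd (BlkD.upd (BlkD.upd (fun _ => 0) 0 2) 1 5) 1 7)
      (BlkD.upd (BlkD.upd (BlkD.upd (BlkD.upd (BlkD.upd (BlkD.upd (BlkD.upd (fun _ => 21) 0 6) 2 4) 0 3) 0 2) 1 19) 1 9) 1 7)) :=
  BlkD.tree_sound (BlkD.pairOk_sound k21_21_6_4) (by decide) hn t21_21_6_4_8 _ _ (by decide +kernel)

/-- certificates of the pair `(6, 4)`, part 9 -/
def t21_21_6_4_9 : BlkD.Tr :=
  .L 7 9 [4, 5, 5, 4, 4] [] [] 100000 27679 27679 1114288 0 0 100000 85714 2679 14286 25000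

lemma s21_21_6_4_9 {n : ℕ} (hn : 5 ≤ n) : NoNd (d21_21_6_4.R : ℤ) d21_21_6_4.H n d21_21_6_4.a d21_21_6_4.b
    (BlkD.inB (BlkD.upd (BlkD.upd (BlkD.upd (fun _ => 0) 0 2) 1 5) 1 8)
      (BlkD.upd (BlkD.upd (BlkD.upd (BlkD.upd (BlkD.upd (BlkD.upd (fun _ => 21) 0 6) 2 4) 0 3) 0 2) 1 19) 1 9)) :=
  BlkD.tree_sound (BlkD.pairOk_sound k21_21_6_4) (by decide) hn t21_21_6_4_9 _ _ (by decide +kernel)

/-- certificates of the pair `(6, 4)`, part 10 -/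
def t21_21_6_4_10 : BlkD.Tr :=
  .E 0

lemma s21_21_6_4_10 {n : ℕ} (hn : 5 ≤ n) : NoNd (d21_21_6_4.R : ℤ) d21_21_6_4.H n d21_21_6_4.a d21_21_6_4.b
    (BlkD.inB (BlkD.upd (BlkD.upd (fun _ => 0) 0 2) 1 10)
      (BlkD.upd (BlkD.upd (BlkD.upd (BlkD.upd (BlkD.upd (fun _ => 21) 0 6) 2 4) 0 3) 0 2) 1 19)) :=
  BlkD.tree_sound (BlkD.pairOk_sound k21_21_6_4) (by decide) hn t21_21_6_4_10 _ _ (by decide +kernel)

/-- certificates of the pair `(6, 4)`, part 11 -/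
def t21_21_6_4_11 : BlkD.Tr :=
  .E 0

lemma s21_21_6_4_11 {n : ℕ} (hn : 5 ≤ n) : NoNd (d21_21_6_4.R : ℤ) d21_21_6_4.H n d21_21_6_4.a d21_21_6_4.b
    (BlkD.inB (BlkD.upd (BlkD.upd (fun _ => 0) 0 2) 1 20)
      (BlkD.upd (BlkD.upd (BlkD.upd (BlkD.upd (fun _ => 21) 0 6) 2 4) 0 3) 0 2)) :=
  BlkD.tree_sound (BlkD.pairOk_sound k21_21_6_4) (by decide) hn t21_21_6_4_11 _ _ (by decide +kernel)

/-- certificates of the pair `(6, 4)`, part 12 -/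
def t21_21_6_4_12 : BlkD.Tr :=
  .S 1 2 (.L 7 9 [4, 5, 5, 4, 4] [] [] 100000 25000 25000 1075000 12500 0 12500 25000 0 25000
    25000) (.S 1 3 (.L 7 9 [4, 5, 5, 4, 4] [60, 48, 36, 24, 0, 0] [] 100000 25000 25000 1125000
    25000 0 25000 50000 0 25000 25000) (.S 2 2 (.S 2 1 (.L 7 9 [4, 5, 5, 4, 4] [80, 72, 60, 48, 36,
    0] [] 100000 28464 28464 1135064 18182 30736 48918 48918 0 16883 27273) (.S 3 12 (.S 3 6 (.S 3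
    3 (.L 7 9 [4, 5, 5, 4, 4] [80, 72, 60, 48, 36, 0] [] 100000 25820 25820 1160656 19672 9836
    54508 38320 2459 17623 27459) (.L 7 9 [4, 5, 5, 4, 4] [80, 72, 60, 48, 36, 0] [] 100000 25000
    25000 1159260 22222 0 74074 59259 0 37037 25926)) (.E 1)) (.E 1))) (.L 7 9 [4, 5, 5, 4, 4] [80,
    72, 60, 48, 36, 0] [] 100000 23786 23786 1174089 25911 0 82186 38866 4858 35223 31174)))

lemma s21_21_6_4_12 {n : ℕ} (hn : 5 ≤ n) : NoNd (d21_21_6_4.R : ℤ) d21_21_6_4.H n d21_21_6_4.a d21_21_6_4.b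
    (BlkD.inB (BlkD.upd (BlkD.upd (fun _ => 0) 0 2) 0 3)
      (BlkD.upd (BlkD.upd (BlkD.upd (BlkD.upd (BlkD.upd (BlkD.upd (fun _ => 21) 0 6) 2 4) 0 3) 1 18) 1 9) 1 4)) :=
  BlkD.tree_sound (BlkD.pairOk_sound k21_21_6_4) (by decide) hn t21_21_6_4_12 _ _ (by decide +kernel)

/-- certificates of the pair `(6, 4)`, part 13 -/
def t21_21_6_4_13 : BlkD.Tr :=
  .S 2 1 (.S 2 0 (.L 7 9 [4, 5, 5, 4, 4] [100, 94, 86, 74, 62, 50] [] 100000 46875 46875 900000 0 0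
    50000 100000 0 0 4167) (.S 3 12 (.S 3 6 (.S 3 3 (.L 7 9 [4, 5, 5, 4, 4] [100, 94, 86, 74, 62,
    50] [] 100000 27156 27156 1128452 23276 27155 45474 45043 6034 6466 25287) (.S 3 5 (.S 3 4 (.L
    7 9 [4, 5, 5, 4, 4] [100, 94, 86, 74, 62, 50] [58, 52, 42, 32, 20, 0] 100000 22369 22369
    1184211 14474 28947 53289 45395 10526 18421 23684) (.L 5 5 [4, 4, 5, 6, 7] [100, 94, 86, 74,
    62, 50] [70, 68, 62, 52, 42, 30] 100000 28500 28500 1153336 4333 40333 68000 57333 9333 17000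
    27000)) (.L 5 5 [4, 4, 5, 6, 7] [100, 94, 86, 74, 62, 50] [84, 82, 80, 74, 64, 54] 100000
    142857 0 2 105714 0 105714 242857 0 0 0))) (.E 1)) (.E 1))) (.S 3 11 (.S 3 5 (.S 3 2 (.L 5 5
    [4, 4, 5, 6, 7] [100, 94, 86, 74, 62, 50] [] 100000 19910 19910 1188404 4381 11598 72680 77062
    20361 11598 32474) (.S 3 4 (.S 3 3 (.S 4 5 (.S 4 2 (.L 5 5 [4, 4, 5, 6, 7] [74, 62, 50, 0, 0,
    0] [50, 40, 30, 18, 0, 0] 100000 22223 22223 1181482 29630 0 59259 40741 14815 25926 33333) (.L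
    5 5 [4, 4, 5, 6, 7] [100, 94, 86, 74, 62, 50] [50, 40, 30, 18, 0, 0] 100000 25000 25000 1076924
    11538 0 100000 30769 0 38462 34615)) (.E 2)) (.L 7 9 [4, 5, 5, 4, 4] [100, 94, 86, 74, 62, 50]
    [66, 60, 50, 40, 28, 0] 100000 22917 22917 1181251 27083 0 68750 47917 8333 27083 25000)) (.E
    1))) (.E 1)) (.E 1))

lemma s21_21_6_4_13 {n : ℕ} (hn : 5 ≤ n) : NoNd (d21_21_6_4.R : ℤ) d21_21_6_4.H n d21_21_6_4.a d21_21_6_4.b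
    (BlkD.inB (BlkD.upd (BlkD.upd (BlkD.upd (fun _ => 0) 0 2) 0 3) 1 5)
      (BlkD.upd (BlkD.upd (BlkD.upd (BlkD.upd (BlkD.upd (BlkD.upd (BlkD.upd (BlkD.upd (BlkD.upd (fun _ => 21) 0 6) 2 4) 0 3) 1 18) 1 9) 1 7) 1 6) 1 5) 2 2)) :=
  BlkD.tree_sound (BlkD.pairOk_sound k21_21_6_4) (by decide) hn t21_21_6_4_13 _ _ (by decide +kernel)

/-- certificates of the pair `(6, 4)`, part 14 -/
def t21_21_6_4_14 : BlkD.Tr :=
  .S 2 3 (.S 3 10 (.S 3 5 (.S 3 2 (.L 5 6 [4, 4, 5, 5, 6] [100, 94, 86, 74, 62, 50] [] 100000 21875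
    21875 1175000 25000 0 59375 37500 12500 40625 34375) (.S 3 4 (.S 3 3 (.L 7 9 [4, 5, 5, 4, 4]
    [100, 94, 86, 74, 62, 50] [56, 46, 36, 24, 0, 0] 100000 22917 22917 1181251 27083 0 68750 47917
    8333 27083 25000) (.E 1)) (.E 1))) (.E 1)) (.E 1)) (.L 7 9 [4, 5, 5, 4, 4] [100, 94, 86, 74,
    62, 50] [] 100000 20758 20758 1163033 31515 0 73939 10909 16970 59394 29697)

lemma s21_21_6_4_14 {n : ℕ} (hn : 5 ≤ n) : NoNd (d21_21_6_4.R : ℤ) d21_21_6_4.H n d21_21_6_4.a d21_21_6_4.b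
    (BlkD.inB (BlkD.upd (BlkD.upd (BlkD.upd (BlkD.upd (fun _ => 0) 0 2) 0 3) 1 5) 2 3)
      (BlkD.upd (BlkD.upd (BlkD.upd (BlkD.upd (BlkD.upd (BlkD.upd (BlkD.upd (BlkD.upd (fun _ => 21) 0 6) 2 4) 0 3) 1 18) 1 9) 1 7) 1 6) 1 5)) :=
  BlkD.tree_sound (BlkD.pairOk_sound k21_21_6_4) (by decide) hn t21_21_6_4_14 _ _ (by decide +kernel)

/-- certificates of the pair `(6, 4)`, part 15 -/
def t21_21_6_4_15 : BlkD.Tr :=
  .S 2 2 (.S 2 1 (.S 2 0 (.L 7 9 [4, 5, 5, 4, 4] [116, 116, 110, 102, 90, 78] [] 100000 46875 46875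
    900000 0 0 50000 100000 0 0 4167) (.S 3 11 (.S 3 5 (.S 3 2 (.L 7 9 [4, 5, 5, 4, 4] [116, 116,
    110, 102, 90, 78] [] 100000 30589 30589 1101178 24706 24706 49412 49412 4118 0 24118) (.L 6 7
    [4, 4, 5, 4, 5] [116, 116, 110, 102, 90, 78] [] 100000 22522 22522 1184483 23276 0 72845 49569
    9914 25431 25000)) (.E 2)) (.E 1))) (.S 3 10 (.S 3 5 (.S 3 2 (.L 6 7 [4, 4, 5, 4, 5] [116, 116,
    110, 102, 90, 78] [] 100000 20791 20791 1187247 14796 7398 68367 69643 16837 12755 25000) (.L 6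
    7 [4, 4, 5, 4, 5] [116, 116, 110, 102, 90, 78] [] 100000 22588 22588 1182895 24123 0 72368
    48246 9649 26754 25000)) (.E 1)) (.E 1))) (.L 6 7 [4, 4, 5, 4, 5] [116, 116, 110, 102, 90, 78]
    [] 100000 21023 21023 1180684 19886 0 79545 40341 15909 34659 25000)

lemma s21_21_6_4_15 {n : ℕ} (hn : 5 ≤ n) : NoNd (d21_21_6_4.R : ℤ) d21_21_6_4.H n d21_21_6_4.a d21_21_6_4.b
    (BlkD.inB (BlkD.upd (BlkD.upd (BlkD.upd (BlkD.upd (fun _ => 0) 0 2) 0 3) 1 5) 1 6)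
      (BlkD.upd (BlkD.upd (BlkD.upd (BlkD.upd (BlkD.upd (BlkD.upd (BlkD.upd (fun _ => 21) 0 6) 2 4) 0 3) 1 18) 1 9) 1 7) 1 6)) :=
  BlkD.tree_sound (BlkD.pairOk_sound k21_21_6_4) (by decide) hn t21_21_6_4_15 _ _ (by decide +kernel)

/-- certificates of the pair `(6, 4)`, part 16 -/
def t21_21_6_4_16 : BlkD.Tr :=
  .L 6 7 [4, 4, 5, 4, 5] [134, 134, 134, 128, 120, 108] [] 100000 27679 27679 1114288 0 0 100000
    85714 2679 14286 25000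

lemma s21_21_6_4_16 {n : ℕ} (hn : 5 ≤ n) : NoNd (d21_21_6_4.R : ℤ) d21_21_6_4.H n d21_21_6_4.a d21_21_6_4.b
    (BlkD.inB (BlkD.upd (BlkD.upd (BlkD.upd (BlkD.upd (fun _ => 0) 0 2) 0 3) 1 5) 1 7)
      (BlkD.upd (BlkD.upd (BlkD.upd (BlkD.upd (BlkD.upd (BlkD.upd (fun _ => 21) 0 6) 2 4) 0 3) 1 18) 1 9) 1 7)) :=
  BlkD.tree_sound (BlkD.pairOk_sound k21_21_6_4) (by decide) hn t21_21_6_4_16 _ _ (by decide +kernel)

/-- certificates of the pair `(6, 4)`, part 17 -/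
def t21_21_6_4_17 : BlkD.Tr :=
  .E 0

lemma s21_21_6_4_17 {n : ℕ} (hn : 5 ≤ n) : NoNd (d21_21_6_4.R : ℤ) d21_21_6_4.H n d21_21_6_4.a d21_21_6_4.b
    (BlkD.inB (BlkD.upd (BlkD.upd (BlkD.upd (BlkD.upd (fun _ => 0) 0 2) 0 3) 1 5) 1 8)
      (BlkD.upd (BlkD.upd (BlkD.upd (BlkD.upd (BlkD.upd (fun _ => 21) 0 6) 2 4) 0 3) 1 18) 1 9)) :=
  BlkD.tree_sound (BlkD.pairOk_sound k21_21_6_4) (by decide) hn t21_21_6_4_17 _ _ (by decide +kernel)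

/-- certificates of the pair `(6, 4)`, part 18 -/
def t21_21_6_4_18 : BlkD.Tr :=
  .E 0

lemma s21_21_6_4_18 {n : ℕ} (hn : 5 ≤ n) : NoNd (d21_21_6_4.R : ℤ) d21_21_6_4.H n d21_21_6_4.a d21_21_6_4.b
    (BlkD.inB (BlkD.upd (BlkD.upd (BlkD.upd (fun _ => 0) 0 2) 0 3) 1 10)
      (BlkD.upd (BlkD.upd (BlkD.upd (BlkD.upd (fun _ => 21) 0 6) 2 4) 0 3) 1 18)) :=
  BlkD.tree_sound (BlkD.pairOk_sound k21_21_6_4) (by decide) hn t21_21_6_4_18 _ _ (by decide +kernel)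

/-- certificates of the pair `(6, 4)`, part 19 -/
def t21_21_6_4_19 : BlkD.Tr :=
  .E 0

lemma s21_21_6_4_19 {n : ℕ} (hn : 5 ≤ n) : NoNd (d21_21_6_4.R : ℤ) d21_21_6_4.H n d21_21_6_4.a d21_21_6_4.b
    (BlkD.inB (BlkD.upd (BlkD.upd (BlkD.upd (fun _ => 0) 0 2) 0 3) 1 19)
      (BlkD.upd (BlkD.upd (BlkD.upd (fun _ => 21) 0 6) 2 4) 0 3)) :=
  BlkD.tree_sound (BlkD.pairOk_sound k21_21_6_4) (by decide) hn t21_21_6_4_19 _ _ (by decide +kernel)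

/-- certificates of the pair `(6, 4)`, part 20 -/
def t21_21_6_4_20 : BlkD.Tr :=
  .L 6 7 [4, 4, 5, 4, 5] [] [] 100000 23296 23296 1145456 30682 2273 71591 56818 6818 23864 39773

lemma s21_21_6_4_20 {n : ℕ} (hn : 5 ≤ n) : NoNd (d21_21_6_4.R : ℤ) d21_21_6_4.H n d21_21_6_4.a d21_21_6_4.b
    (BlkD.inB (BlkD.upd (fun _ => 0) 0 4)
      (BlkD.upd (BlkD.upd (BlkD.upd (BlkD.upd (BlkD.upd (BlkD.upd (BlkD.upd (BlkD.upd (fun _ => 21) 0 6) 2 4) 0 5) 0 4) 1 17) 1 8) 1 4) 1 2)) :=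
  BlkD.tree_sound (BlkD.pairOk_sound k21_21_6_4) (by decide) hn t21_21_6_4_20 _ _ (by decide +kernel)

/-- certificates of the pair `(6, 4)`, part 21 -/
def t21_21_6_4_21 : BlkD.Tr :=
  .S 2 2 (.S 2 1 (.L 6 7 [4, 4, 5, 4, 5] [66, 54, 42, 30, 0, 0] [] 100000 26497 26497 1139831 16667
    36724 59596 46681 7071 16595 33333) (.L 6 7 [4, 4, 5, 4, 5] [66, 54, 42, 30, 0, 0] [] 100000
    22596 22595 1178847 21154 0 78846 57692 9615 21154 26282)) (.L 6 7 [4, 4, 5, 4, 5] [66, 54, 42,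
    30, 0, 0] [] 100000 22276 22276 1173077 26923 0 82692 63462 10897 36538 33333)

lemma s21_21_6_4_21 {n : ℕ} (hn : 5 ≤ n) : NoNd (d21_21_6_4.R : ℤ) d21_21_6_4.H n d21_21_6_4.a d21_21_6_4.b
    (BlkD.inB (BlkD.upd (BlkD.upd (fun _ => 0) 0 4) 1 3)
      (BlkD.upd (BlkD.upd (BlkD.upd (BlkD.upd (BlkD.upd (BlkD.upd (BlkD.upd (BlkD.upd (fun _ => 21) 0 6) 2 4) 0 5) 0 4) 1 17) 1 8) 1 4) 1 3)) :=
  BlkD.tree_sound (BlkD.pairOk_sound k21_21_6_4) (by decide) hn t21_21_6_4_21 _ _ (by decide +kernel)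

/-- certificates of the pair `(6, 4)`, part 22 -/
def t21_21_6_4_22 : BlkD.Tr :=
  .S 2 2 (.S 2 1 (.L 6 7 [4, 4, 5, 4, 5] [88, 80, 68, 56, 44, 0] [] 100000 27763 27762 1140790 9737
    39737 60263 50526 8421 11842 25000) (.S 3 11 (.S 3 5 (.S 3 2 (.L 6 7 [4, 4, 5, 4, 5] [88, 80,
    68, 56, 44, 0] [] 100000 19118 19118 1188236 5882 5882 76471 29412 23529 0 25490) (.S 3 4 (.S 3
    3 (.S 4 4 (.S 4 2 (.L 6 7 [4, 4, 5, 4, 5] [68, 56, 44, 0, 0, 0] [50, 40, 30, 18, 0, 0] 100000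
    11575 11575 1213888 16667 12037 55556 50926 53704 44444 26852) (.L 6 7 [4, 4, 5, 4, 5] [88, 80,
    68, 56, 44, 0] [50, 40, 30, 18, 0, 0] 100000 25000 24999 1079488 20513 0 100000 30769 0 41026
    28205)) (.E 2)) (.L 6 7 [4, 4, 5, 4, 5] [88, 80, 68, 56, 44, 0] [66, 60, 50, 40, 28, 0] 100000
    11364 11364 1200002 22727 0 59091 54545 54545 45455 27273)) (.E 1))) (.E 1)) (.E 1))) (.S 2 3
    (.S 3 10 (.S 3 5 (.S 3 2 (.S 3 1 (.L 6 7 [4, 4, 5, 4, 5] [88, 80, 68, 56, 44, 0] [] 100000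
    19000 18999 1192000 8000 8000 76000 16000 24000 0 25333) (.L 6 7 [4, 4, 5, 4, 5] [88, 80, 68,
    56, 44, 0] [36, 26, 14, 0, 0, 0] 100000 21049 21049 1193512 12978 27288 67554 66223 15807 48087
    29617)) (.L 6 7 [4, 4, 5, 4, 5] [88, 80, 68, 56, 44, 0] [] 100000 11364 11364 1200002 22727 0
    59091 54545 54545 45455 27273)) (.E 1)) (.E 1)) (.L 6 7 [4, 4, 5, 4, 5] [88, 80, 68, 56, 44, 0]
    [] 100000 19445 19445 1166668 33333 0 66667 33333 22222 55556 33333))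

lemma s21_21_6_4_22 {n : ℕ} (hn : 5 ≤ n) : NoNd (d21_21_6_4.R : ℤ) d21_21_6_4.H n d21_21_6_4.a d21_21_6_4.b
    (BlkD.inB (BlkD.upd (BlkD.upd (BlkD.upd (fun _ => 0) 0 4) 1 3) 1 4)
      (BlkD.upd (BlkD.upd (BlkD.upd (BlkD.upd (BlkD.upd (BlkD.upd (BlkD.upd (fun _ => 21) 0 6) 2 4) 0 5) 0 4) 1 17) 1 8) 1 4)) :=
  BlkD.tree_sound (BlkD.pairOk_sound k21_21_6_4) (by decide) hn t21_21_6_4_22 _ _ (by decide +kernel)

/-- certificates of the pair `(6, 4)`, part 23 -/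
def t21_21_6_4_23 : BlkD.Tr :=
  .S 1 6 (.S 1 5 (.S 2 2 (.S 2 1 (.L 6 7 [4, 4, 5, 4, 5] [110, 104, 96, 84, 72, 60] [] 100000 28571
    28570 1121431 0 50000 60714 67857 14286 7143 25000) (.S 3 10 (.S 3 5 (.S 3 2 (.L 6 7 [4, 4, 5,
    4, 5] [110, 104, 96, 84, 72, 60] [] 100000 16554 16554 1185587 0 24099 66216 84685 33784 14414
    25000) (.L 6 7 [4, 4, 5, 4, 5] [110, 104, 96, 84, 72, 60] [] 100000 11667 11667 1240000 20000 0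
    60000 40000 53333 33333 26667)) (.E 1)) (.E 1))) (.L 6 7 [4, 4, 5, 4, 5] [110, 104, 96, 84, 72,
    60] [] 100000 13068 13067 1222728 0 0 88636 50000 47727 50000 25000)) (.L 6 7 [4, 4, 5, 4, 5]
    [128, 128, 122, 114, 102, 90] [] 100000 40000 5000 895000 0 0 135000 100000 0 0 25000)) (.E 0)

lemma s21_21_6_4_23 {n : ℕ} (hn : 5 ≤ n) : NoNd (d21_21_6_4.R : ℤ) d21_21_6_4.H n d21_21_6_4.a d21_21_6_4.b
    (BlkD.inB (BlkD.upd (BlkD.upd (fun _ => 0) 0 4) 1 5)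
      (BlkD.upd (BlkD.upd (BlkD.upd (BlkD.upd (BlkD.upd (BlkD.upd (fun _ => 21) 0 6) 2 4) 0 5) 0 4) 1 17) 1 8)) :=
  BlkD.tree_sound (BlkD.pairOk_sound k21_21_6_4) (by decide) hn t21_21_6_4_23 _ _ (by decide +kernel)

/-- certificates of the pair `(6, 4)`, part 24 -/
def t21_21_6_4_24 : BlkD.Tr :=
  .E 0

lemma s21_21_6_4_24 {n : ℕ} (hn : 5 ≤ n) : NoNd (d21_21_6_4.R : ℤ) d21_21_6_4.H n d21_21_6_4.a d21_21_6_4.b
    (BlkD.inB (BlkD.upd (BlkD.upd (fun _ => 0) 0 4) 1 9)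
      (BlkD.upd (BlkD.upd (BlkD.upd (BlkD.upd (BlkD.upd (fun _ => 21) 0 6) 2 4) 0 5) 0 4) 1 17)) :=
  BlkD.tree_sound (BlkD.pairOk_sound k21_21_6_4) (by decide) hn t21_21_6_4_24 _ _ (by decide +kernel)

/-- certificates of the pair `(6, 4)`, part 25 -/
def t21_21_6_4_25 : BlkD.Tr :=
  .E 0

lemma s21_21_6_4_25 {n : ℕ} (hn : 5 ≤ n) : NoNd (d21_21_6_4.R : ℤ) d21_21_6_4.H n d21_21_6_4.a d21_21_6_4.b
    (BlkD.inB (BlkD.upd (BlkD.upd (fun _ => 0) 0 4) 1 18)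
      (BlkD.upd (BlkD.upd (BlkD.upd (BlkD.upd (fun _ => 21) 0 6) 2 4) 0 5) 0 4)) :=
  BlkD.tree_sound (BlkD.pairOk_sound k21_21_6_4) (by decide) hn t21_21_6_4_25 _ _ (by decide +kernel)

/-- certificates of the pair `(6, 4)`, part 26 -/
def t21_21_6_4_26 : BlkD.Tr :=
  .S 1 16 (.S 1 8 (.S 1 4 (.S 1 2 (.L 6 7 [4, 4, 5, 4, 5] [] [] 100000 22570 22570 1177778 31944 0
    90278 29167 9722 22222 31944) (.L 6 7 [4, 4, 5, 4, 5] [] [] 100000 10157 10157 1220833 16146 0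
    63021 46875 59375 23958 35417)) (.E 0)) (.E 0)) (.E 0)

lemma s21_21_6_4_26 {n : ℕ} (hn : 5 ≤ n) : NoNd (d21_21_6_4.R : ℤ) d21_21_6_4.H n d21_21_6_4.a d21_21_6_4.b
    (BlkD.inB (BlkD.upd (BlkD.upd (fun _ => 0) 0 4) 0 5)
      (BlkD.upd (BlkD.upd (BlkD.upd (fun _ => 21) 0 6) 2 4) 0 5)) :=
  BlkD.tree_sound (BlkD.pairOk_sound k21_21_6_4) (by decide) hn t21_21_6_4_26 _ _ (by decide +kernel)

/-- certificates of the pair `(6, 4)`, part 27 -/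
def t21_21_6_4_27 : BlkD.Tr :=
  .L 6 7 [4, 4, 5, 4, 5] [] [] 100000 10670 10670 1216667 0 8586 48990 42677 57323 23990 33333

lemma s21_21_6_4_27 {n : ℕ} (hn : 5 ≤ n) : NoNd (d21_21_6_4.R : ℤ) d21_21_6_4.H n d21_21_6_4.a d21_21_6_4.b
    (BlkD.inB (BlkD.upd (BlkD.upd (fun _ => 0) 0 4) 0 6)
      (BlkD.upd (BlkD.upd (fun _ => 21) 0 6) 2 4)) :=
  BlkD.tree_sound (BlkD.pairOk_sound k21_21_6_4) (by decide) hn t21_21_6_4_27 _ _ (by decide +kernel)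

/-- certificates of the pair `(6, 4)`, part 28 -/
def t21_21_6_4_28 : BlkD.Tr :=
  .E 1

lemma s21_21_6_4_28 {n : ℕ} (hn : 5 ≤ n) : NoNd (d21_21_6_4.R : ℤ) d21_21_6_4.H n d21_21_6_4.a d21_21_6_4.b
    (BlkD.inB (BlkD.upd (fun _ => 0) 2 5)
      (BlkD.upd (fun _ => 21) 0 6)) :=
  BlkD.tree_sound (BlkD.pairOk_sound k21_21_6_4) (by decide) hn t21_21_6_4_28 _ _ (by decide +kernel)

/-- certificates of the pair `(6, 4)`, part 29 -/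
def t21_21_6_4_29 : BlkD.Tr :=
  .E 0

lemma s21_21_6_4_29 {n : ℕ} (hn : 5 ≤ n) : NoNd (d21_21_6_4.R : ℤ) d21_21_6_4.H n d21_21_6_4.a d21_21_6_4.b
    (BlkD.inB (BlkD.upd (fun _ => 0) 0 7)
      (fun _ => 21)) :=
  BlkD.tree_sound (BlkD.pairOk_sound k21_21_6_4) (by decide) hn t21_21_6_4_29 _ _ (by decide +kernel)

lemma pr21_21_6_4 {n : ℕ} (hn : 5 ≤ n) : NoPr ((21 : ℕ) : ℤ) ((21 : ℕ) : ℤ) n 6 4 :=
  BlkD.of_root (R := d21_21_6_4.R) (H := d21_21_6_4.H) (a := d21_21_6_4.a) (b := d21_21_6_4.b) (q := 3) (by decide) hn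
    (BlkD.sp 0 6 (BlkD.sp 2 4 (BlkD.sp 0 3 (BlkD.sp 0 1 (BlkD.sp 0 0 (s21_21_6_4_1 hn) (BlkD.sp 1
      10 (BlkD.sp 1 5 (s21_21_6_4_2 hn) (s21_21_6_4_3 hn)) (s21_21_6_4_4 hn))) (BlkD.sp 0 2
      (BlkD.sp 1 19 (BlkD.sp 1 9 (BlkD.sp 1 4 (s21_21_6_4_5 hn) (BlkD.sp 1 7 (BlkD.sp 1 6 (BlkD.sp
      1 5 (s21_21_6_4_6 hn) (s21_21_6_4_7 hn)) (s21_21_6_4_8 hn)) (s21_21_6_4_9 hn)))
      (s21_21_6_4_10 hn)) (s21_21_6_4_11 hn)) (BlkD.sp 1 18 (BlkD.sp 1 9 (BlkD.sp 1 4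
      (s21_21_6_4_12 hn) (BlkD.sp 1 7 (BlkD.sp 1 6 (BlkD.sp 1 5 (BlkD.sp 2 2 (s21_21_6_4_13 hn)
      (s21_21_6_4_14 hn)) (s21_21_6_4_15 hn)) (s21_21_6_4_16 hn)) (s21_21_6_4_17 hn)))
      (s21_21_6_4_18 hn)) (s21_21_6_4_19 hn)))) (BlkD.sp 0 5 (BlkD.sp 0 4 (BlkD.sp 1 17 (BlkD.sp 1
      8 (BlkD.sp 1 4 (BlkD.sp 1 2 (s21_21_6_4_20 hn) (BlkD.sp 1 3 (s21_21_6_4_21 hn) (s21_21_6_4_22
      hn))) (s21_21_6_4_23 hn)) (s21_21_6_4_24 hn)) (s21_21_6_4_25 hn)) (s21_21_6_4_26 hn))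
      (s21_21_6_4_27 hn))) (s21_21_6_4_28 hn)) (s21_21_6_4_29 hn))

end BlkC

end Pool.Agent.Lib.MP_f04ccf_co
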