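import Pool.Agent.Lib.MP_f04ccf_co.M.BlkT

/-!
MP_f04ccf_co, block certificate, data `R = 21`, `H = 21`, part 23 (generated, helper99:
bd10.cpp, gen2.py).
-/

set_option autoImplicit false
set_option maxRecDepth 100000

namespace Pool.Agent.Lib.MP_f04ccf_co

namespace BlkC

/-- the numbers of the pair `(11, 2)`, `R = 21`, `H = 21` -/
def d21_21_11_2 : BlkD.Pd :=
  ⟨21, 21, 3, 11, 2, 5, 2, 2, 0, 6, 10, 0, 3, 1, 6, 0, [0, 10, 20, 30, 30, 30], [0, 6, 11, 14, 17,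
    20], [⟨1, 1, 1, 4, 8, [0, 4], [0, 4]⟩, ⟨1, 1, 1, 4, 12, [0, 8], [0, 4]⟩, ⟨2, 1, 1, 4, 24, [0,
    10, 18], [0, 6]⟩]⟩

lemma k21_21_11_2 : BlkD.pairOk d21_21_11_2 = true := by decide +kernel

/-- certificates of the pair `(11, 2)`, part 1 -/
def t21_21_11_2_1 : BlkD.Tr :=
  .L 5 8 [4, 4, 4] [] [] 100000 150000 150000 1280000 80000 0 100000 0 0 0 0

lemma s21_21_11_2_1 {n : ℕ} (hn : 5 ≤ n) : NoNd (d21_21_11_2.R : ℤ) d21_21_11_2.H n d21_21_11_2.a d21_21_11_2.b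
    (BlkD.inB (fun _ => 0)
      (BlkD.upd (BlkD.upd (BlkD.upd (BlkD.upd (BlkD.upd (fun _ => 21) 0 11) 2 2) 0 5) 0 2) 0 1)) :=
  BlkD.tree_sound (BlkD.pairOk_sound k21_21_11_2) (by decide) hn t21_21_11_2_1 _ _ (by decide +kernel)

/-- certificates of the pair `(11, 2)`, part 2 -/
def t21_21_11_2_2 : BlkD.Tr :=
  .L 5 8 [4, 4, 4] [] [] 100000 150000 150000 1280000 80000 0 100000 0 0 0 0

lemma s21_21_11_2_2 {n : ℕ} (hn : 5 ≤ n) : NoNd (d21_21_11_2.R : ℤ) d21_21_11_2.H n d21_21_11_2.a d21_21_11_2.b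
    (BlkD.inB (BlkD.upd (fun _ => 0) 0 2)
      (BlkD.upd (BlkD.upd (BlkD.upd (BlkD.upd (fun _ => 21) 0 11) 2 2) 0 5) 0 2)) :=
  BlkD.tree_sound (BlkD.pairOk_sound k21_21_11_2) (by decide) hn t21_21_11_2_2 _ _ (by decide +kernel)

/-- certificates of the pair `(11, 2)`, part 3 -/
def t21_21_11_2_3 : BlkD.Tr :=
  .L 5 8 [4, 4, 4] [] [] 100000 150000 150000 1280000 80000 0 100000 0 0 0 0

lemma s21_21_11_2_3 {n : ℕ} (hn : 5 ≤ n) : NoNd (d21_21_11_2.R : ℤ) d21_21_11_2.H n d21_21_11_2.a d21_21_11_2.b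
    (BlkD.inB (BlkD.upd (fun _ => 0) 0 3)
      (BlkD.upd (BlkD.upd (BlkD.upd (BlkD.upd (BlkD.upd (fun _ => 21) 0 11) 2 2) 0 5) 0 4) 0 3)) :=
  BlkD.tree_sound (BlkD.pairOk_sound k21_21_11_2) (by decide) hn t21_21_11_2_3 _ _ (by decide +kernel)

/-- certificates of the pair `(11, 2)`, part 4 -/
def t21_21_11_2_4 : BlkD.Tr :=
  .L 5 8 [4, 4, 4] [] [] 100000 150000 150000 1280000 80000 0 100000 0 0 0 0

lemma s21_21_11_2_4 {n : ℕ} (hn : 5 ≤ n) : NoNd (d21_21_11_2.R : ℤ) d21_21_11_2.H n d21_21_11_2.a d21_21_11_2.b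
    (BlkD.inB (BlkD.upd (BlkD.upd (fun _ => 0) 0 3) 0 4)
      (BlkD.upd (BlkD.upd (BlkD.upd (BlkD.upd (fun _ => 21) 0 11) 2 2) 0 5) 0 4)) :=
  BlkD.tree_sound (BlkD.pairOk_sound k21_21_11_2) (by decide) hn t21_21_11_2_4 _ _ (by decide +kernel)

/-- certificates of the pair `(11, 2)`, part 5 -/
def t21_21_11_2_5 : BlkD.Tr :=
  .L 5 8 [4, 4, 4] [] [] 100000 150000 150000 1280000 80000 0 100000 0 0 0 0

lemma s21_21_11_2_5 {n : ℕ} (hn : 5 ≤ n) : NoNd (d21_21_11_2.R : ℤ) d21_21_11_2.H n d21_21_11_2.a d21_21_11_2.b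
    (BlkD.inB (BlkD.upd (BlkD.upd (fun _ => 0) 0 3) 0 5)
      (BlkD.upd (BlkD.upd (BlkD.upd (fun _ => 21) 0 11) 2 2) 0 5)) :=
  BlkD.tree_sound (BlkD.pairOk_sound k21_21_11_2) (by decide) hn t21_21_11_2_5 _ _ (by decide +kernel)

/-- certificates of the pair `(11, 2)`, part 6 -/
def t21_21_11_2_6 : BlkD.Tr :=
  .L 5 8 [4, 4, 4] [] [] 100000 11539 11539 1461538 23077 0 23077 15385 0 0 0

lemma s21_21_11_2_6 {n : ℕ} (hn : 5 ≤ n) : NoNd (d21_21_11_2.R : ℤ) d21_21_11_2.H n d21_21_11_2.a d21_21_11_2.b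
    (BlkD.inB (BlkD.upd (fun _ => 0) 0 6)
      (BlkD.upd (BlkD.upd (BlkD.upd (BlkD.upd (BlkD.upd (BlkD.upd (BlkD.upd (fun _ => 21) 0 11) 2 2) 0 8) 0 7) 0 6) 1 15) 1 7)) :=
  BlkD.tree_sound (BlkD.pairOk_sound k21_21_11_2) (by decide) hn t21_21_11_2_6 _ _ (by decide +kernel)

/-- certificates of the pair `(11, 2)`, part 7 -/
def t21_21_11_2_7 : BlkD.Tr :=
  .S 1 11 (.S 1 9 (.L 5 8 [4, 4, 4] [] [] 100000 16667 16667 1533336 33333 0 33333 33333 0 0 0) (.S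
    1 10 (.S 2 1 (.S 2 0 (.S 3 5 (.S 3 2 (.S 3 1 (.L 5 8 [4, 4, 4] [258, 258, 258, 258, 258, 258]
    [] 100000 18183 18183 1518181 36364 0 54545 18182 0 0 0) (.S 4 10 (.S 4 5 (.L 4 7 [4, 4, 5]
    [258, 250, 240, 230, 220, 210] [20, 12, 2, 0, 0, 0] 100000 200000 200000 1100000 100000 0
    100000 0 0 100000 0) (.L 4 7 [4, 4, 5] [258, 258, 258, 258, 258, 258] [20, 12, 2, 0, 0, 0]
    100000 227273 0 0 54545 0 327273 0 0 0 0)) (.E 2))) (.L 4 7 [4, 4, 5] [258, 258, 258, 258, 258,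
    258] [] 100000 250000 250000 1000000 100000 0 100000 0 0 0 0)) (.E 1)) (.L 5 8 [4, 4, 4] [258,
    258, 258, 258, 258, 258] [] 100000 20000 20000 1540000 40000 0 40000 0 0 0 0)) (.L 5 8 [4, 4,
    4] [258, 258, 258, 258, 258, 258] [] 100000 500000 400000 0 200000 0 200000 0 0 0 0)) (.S 2 1
    (.S 2 0 (.S 3 4 (.S 3 2 (.S 3 1 (.L 5 8 [4, 4, 4] [290, 290, 290, 290, 290, 290] [] 100000
    30000 30000 1520000 40000 0 60000 40000 0 0 20000) (.L 4 7 [4, 4, 5] [290, 290, 290, 290, 290,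
    290] [20, 12, 2, 0, 0, 0] 100000 200000 200000 1100000 100000 0 100000 0 0 0 0)) (.L 4 7 [4, 4,
    5] [290, 290, 290, 290, 290, 290] [] 100000 500000 400000 0 200000 0 200000 0 0 0 0)) (.E 1))
    (.S 3 3 (.S 3 1 (.S 3 0 (.L 3 6 [5, 5, 6] [290, 290, 290, 290, 290, 290] [0, 0, 0, 0, 0, 0]
    100000 76924 76924 1430768 46154 0 46154 0 0 23077 23077) (.L 4 7 [4, 4, 5] [290, 290, 290,
    290, 290, 290] [12, 2, 0, 0, 0, 0] 100000 533333 422222 1 211111 0 211111 0 0 0 0)) (.L 4 7 [4,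
    4, 5] [290, 290, 290, 290, 290, 290] [] 100000 500000 400000 0 200000 0 200000 0 0 0 0)) (.E
    1))) (.L 4 7 [4, 4, 5] [290, 290, 290, 290, 290, 290] [] 100000 470000 380000 0 190000 0 190000
    0 0 0 0)))) (.S 1 13 (.S 1 12 (.S 2 1 (.S 2 0 (.S 3 3 (.S 3 1 (.S 3 0 (.L 4 7 [4, 4, 5] [324,
    324, 324, 324, 324, 324] [0, 0, 0, 0, 0, 0] 100000 116668 116668 1333332 66667 0 100000 0 0 0
    0) (.L 5 8 [4, 4, 4] [324, 324, 324, 324, 324, 324] [10, 0, 0, 0, 0, 0] 100000 141667 141667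
    1308333 75000 0 100000 66667 0 0 33333)) (.L 5 8 [4, 4, 4] [324, 324, 324, 324, 324, 324] []
    100000 527084 356251 1 237500 0 270833 33333 0 33333 33333)) (.E 1)) (.S 3 2 (.S 3 1 (.S 3 0
    (.S 4 12 (.S 4 6 (.S 4 3 (.L 5 8 [4, 4, 4] [306, 296, 286, 276, 0, 0] [0, 0, 0, 0, 0, 0] 100000
    150000 150000 1200000 100000 0 100000 0 0 0 0) (.L 5 8 [4, 4, 4] [324, 324, 316, 306, 296, 286]
    [0, 0, 0, 0, 0, 0] 100000 6250 6250 1500000 25000 0 100000 0 0 12500 12500)) (.L 5 8 [4, 4, 4]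
    [324, 324, 324, 324, 324, 324] [0, 0, 0, 0, 0, 0] 100000 204000 0 0 76000 0 304000 0 0 0 0))
    (.E 2)) (.L 5 8 [4, 4, 4] [324, 324, 324, 324, 324, 324] [12, 2, 0, 0, 0, 0] 100000 505555
    383333 2 222222 0 222222 0 0 0 0)) (.L 5 8 [4, 4, 4] [324, 324, 324, 324, 324, 324] [24, 16, 6,
    0, 0, 0] 100000 377273 286364 1 190909 0 190909 0 0 0 0)) (.E 1))) (.L 5 8 [4, 4, 4] [324, 324,
    324, 324, 324, 324] [] 100000 404545 322727 2 181818 0 181818 0 0 0 0)) (.S 2 1 (.S 2 0 (.S 3 2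
    (.S 3 1 (.S 3 0 (.L 5 8 [4, 4, 4] [360, 360, 360, 360, 360, 360] [0, 0, 0, 0, 0, 0] 100000
    100001 100001 1366665 66667 0 100000 0 0 0 0) (.S 4 13 (.S 4 6 (.S 4 3 (.L 5 8 [4, 4, 4] [342,
    332, 322, 312, 0, 0] [10, 0, 0, 0, 0, 0] 100000 525000 375000 0 250000 0 250000 0 0 0 0) (.L 5
    8 [4, 4, 4] [360, 360, 352, 342, 332, 322] [10, 0, 0, 0, 0, 0] 100000 515000 345000 0 230000 0
    270000 40000 0 0 20000)) (.L 5 8 [4, 4, 4] [360, 360, 360, 360, 360, 360] [10, 0, 0, 0, 0, 0]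
    100000 220000 0 0 80000 0 320000 0 0 0 0)) (.E 2))) (.L 5 8 [4, 4, 4] [360, 360, 360, 360, 360,
    360] [20, 12, 2, 0, 0, 0] 100000 483333 350000 3 233333 0 233333 0 0 0 0)) (.L 5 8 [4, 4, 4]
    [360, 360, 360, 360, 360, 360] [] 100000 0 100000 0 0 0 0 0 0 0 0)) (.S 3 1 (.S 3 0 (.S 4 13
    (.S 4 6 (.S 4 3 (.L 5 8 [4, 4, 4] [342, 332, 322, 312, 0, 0] [0, 0, 0, 0, 0, 0] 100000 400000
    166667 2 222222 0 333333 0 0 0 0) (.L 5 8 [4, 4, 4] [360, 360, 352, 342, 332, 322] [0, 0, 0, 0,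
    0, 0] 100000 503125 321875 0 231250 0 281250 0 0 0 0)) (.L 5 8 [4, 4, 4] [360, 360, 360, 360,
    360, 360] [0, 0, 0, 0, 0, 0] 100000 207692 0 2 76923 0 307692 0 0 0 0)) (.E 2)) (.L 5 8 [4, 4,
    4] [360, 360, 360, 360, 360, 360] [12, 2, 0, 0, 0, 0] 100000 425000 315000 0 210000 0 210000 0
    0 0 0)) (.L 5 8 [4, 4, 4] [360, 360, 360, 360, 360, 360] [] 100000 0 100000 0 0 0 0 0 0 0 0)))
    (.L 5 8 [4, 4, 4] [360, 360, 360, 360, 360, 360] [] 100000 337500 262500 0 175000 0 175000 0 0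
    0 0))) (.S 1 14 (.L 5 8 [4, 4, 4] [398, 398, 398, 398, 398, 398] [] 100000 525000 375000 0
    250000 0 250000 0 0 0 0) (.L 5 8 [4, 4, 4] [438, 438, 438, 438, 438, 438] [] 100000 425000
    245000 0 210000 0 280000 0 0 0 0)))

lemma s21_21_11_2_7 {n : ℕ} (hn : 5 ≤ n) : NoNd (d21_21_11_2.R : ℤ) d21_21_11_2.H n d21_21_11_2.a d21_21_11_2.b
    (BlkD.inB (BlkD.upd (BlkD.upd (fun _ => 0) 0 6) 1 8)
      (BlkD.upd (BlkD.upd (BlkD.upd (BlkD.upd (BlkD.upd (BlkD.upd (fun _ => 21) 0 11) 2 2) 0 8) 0 7) 0 6) 1 15)) :=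
  BlkD.tree_sound (BlkD.pairOk_sound k21_21_11_2) (by decide) hn t21_21_11_2_7 _ _ (by decide +kernel)

/-- certificates of the pair `(11, 2)`, part 8 -/
def t21_21_11_2_8 : BlkD.Tr :=
  .E 0

lemma s21_21_11_2_8 {n : ℕ} (hn : 5 ≤ n) : NoNd (d21_21_11_2.R : ℤ) d21_21_11_2.H n d21_21_11_2.a d21_21_11_2.b
    (BlkD.inB (BlkD.upd (BlkD.upd (fun _ => 0) 0 6) 1 16)
      (BlkD.upd (BlkD.upd (BlkD.upd (BlkD.upd (BlkD.upd (fun _ => 21) 0 11) 2 2) 0 8) 0 7) 0 6)) :=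
  BlkD.tree_sound (BlkD.pairOk_sound k21_21_11_2) (by decide) hn t21_21_11_2_8 _ _ (by decide +kernel)

/-- certificates of the pair `(11, 2)`, part 9 -/
def t21_21_11_2_9 : BlkD.Tr :=
  .L 5 8 [4, 4, 4] [] [] 100000 15625 15625 1512500 31250 0 43750 12500 0 0 0

lemma s21_21_11_2_9 {n : ℕ} (hn : 5 ≤ n) : NoNd (d21_21_11_2.R : ℤ) d21_21_11_2.H n d21_21_11_2.a d21_21_11_2.b
    (BlkD.inB (BlkD.upd (BlkD.upd (fun _ => 0) 0 6) 0 7)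
      (BlkD.upd (BlkD.upd (BlkD.upd (BlkD.upd (BlkD.upd (BlkD.upd (fun _ => 21) 0 11) 2 2) 0 8) 0 7) 1 14) 1 7)) :=
  BlkD.tree_sound (BlkD.pairOk_sound k21_21_11_2) (by decide) hn t21_21_11_2_9 _ _ (by decide +kernel)

/-- certificates of the pair `(11, 2)`, part 10 -/
def t21_21_11_2_10 : BlkD.Tr :=
  .S 1 9 (.S 1 8 (.S 2 1 (.S 2 0 (.L 5 8 [4, 4, 4] [216, 216, 216, 216, 208, 198] [] 100000 15909
    15909 1540910 31818 0 47727 36364 0 18182 27273) (.S 3 5 (.S 3 2 (.S 3 1 (.L 5 8 [4, 4, 4]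
    [216, 216, 216, 216, 208, 198] [] 100000 16667 16667 1533335 33333 0 33333 0 0 0 0) (.S 4 8 (.S
    4 4 (.L 5 8 [4, 4, 4] [208, 198, 188, 178, 168, 0] [24, 16, 6, 0, 0, 0] 100000 200000 200000
    1100000 100000 0 100000 0 0 0 0) (.L 5 8 [4, 4, 4] [216, 216, 216, 216, 208, 198] [24, 16, 6,
    0, 0, 0] 100000 260000 0 0 0 0 360000 0 0 0 0)) (.E 2))) (.E 1)) (.E 1))) (.L 5 8 [4, 4, 4]
    [216, 216, 216, 216, 208, 198] [] 100000 250000 250000 1000000 100000 0 100000 0 0 0 0)) (.S 2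
    1 (.S 2 0 (.S 3 5 (.S 3 2 (.L 5 8 [4, 4, 4] [246, 246, 246, 246, 246, 238] [] 100000 18421
    18421 1557895 36842 0 57895 36842 0 5263 21053) (.L 5 8 [4, 4, 4] [246, 246, 246, 246, 246,
    238] [] 100000 200000 200000 1100000 100000 0 100000 0 0 0 0)) (.E 1)) (.S 3 4 (.S 3 2 (.S 3 1
    (.S 3 0 (.L 5 8 [4, 4, 4] [246, 246, 246, 246, 246, 238] [0, 0, 0, 0, 0, 0] 100000 18750 18750
    1550000 37500 0 50000 0 0 0 0) (.S 4 9 (.S 4 4 (.L 4 7 [4, 4, 5] [238, 228, 218, 208, 198, 0]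
    [12, 2, 0, 0, 0, 0] 100000 200000 200000 1100000 100000 0 100000 0 0 0 0) (.L 4 7 [4, 4, 5]
    [246, 246, 246, 246, 246, 238] [12, 2, 0, 0, 0, 0] 100000 275000 0 0 75000 0 375000 0 0 0 0))
    (.E 2))) (.L 5 8 [4, 4, 4] [246, 246, 246, 246, 246, 238] [24, 16, 6, 0, 0, 0] 100000 200000
    200000 1100000 100000 0 100000 0 0 0 0)) (.E 1)) (.E 1))) (.L 5 8 [4, 4, 4] [246, 246, 246,
    246, 246, 238] [] 100000 500000 400000 200000 200000 0 200000 0 0 0 0))) (.S 1 10 (.S 2 1 (.S 2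
    0 (.S 3 4 (.S 3 2 (.S 3 1 (.S 3 0 (.L 5 8 [4, 4, 4] [278, 278, 278, 278, 278, 278] [0, 0, 0, 0,
    0, 0] 100000 16667 16667 1533335 33333 0 66667 0 0 0 0) (.S 4 10 (.S 4 5 (.S 4 2 (.L 5 8 [4, 4,
    4] [250, 240, 230, 0, 0, 0] [10, 0, 0, 0, 0, 0] 100000 21875 21875 1537500 43750 0 43750 43750
    0 0 18750) (.L 5 8 [4, 4, 4] [278, 270, 260, 250, 240, 230] [10, 0, 0, 0, 0, 0] 100000 15000
    15000 1500000 30000 0 90000 30000 0 0 0)) (.L 5 8 [4, 4, 4] [278, 278, 278, 278, 278, 278] [10,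
    0, 0, 0, 0, 0] 100000 278948 1 1 94737 0 378947 0 0 0 0)) (.E 2))) (.S 4 10 (.S 4 5 (.S 4 2 (.L
    5 8 [4, 4, 4] [250, 240, 230, 0, 0, 0] [20, 12, 2, 0, 0, 0] 100000 66668 66668 1422221 66667 0
    100000 11111 0 11111 11111) (.L 5 8 [4, 4, 4] [278, 270, 260, 250, 240, 230] [20, 12, 2, 0, 0,
    0] 100000 16667 16667 1500002 33333 0 100000 0 0 0 0)) (.L 5 8 [4, 4, 4] [278, 278, 278, 278,
    278, 278] [20, 12, 2, 0, 0, 0] 100000 230436 1 0 82609 0 330435 0 0 0 0)) (.E 2))) (.L 5 8 [4,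
    4, 4] [278, 278, 278, 278, 278, 278] [] 100000 566666 444444 2 222222 0 222222 0 0 0 0)) (.E
    1)) (.S 3 3 (.S 3 1 (.S 3 0 (.S 4 10 (.S 4 5 (.S 4 2 (.L 5 8 [4, 4, 4] [250, 240, 230, 0, 0, 0]
    [0, 0, 0, 0, 0, 0] 100000 25000 25000 1500000 50000 0 100000 0 0 0 0) (.L 5 8 [4, 4, 4] [278,
    270, 260, 250, 240, 230] [0, 0, 0, 0, 0, 0] 100000 16667 16667 1500001 33333 0 100000 0 0 0 0))
    (.L 5 8 [4, 4, 4] [278, 278, 278, 278, 278, 278] [0, 0, 0, 0, 0, 0] 100000 260000 0 0 90000 0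
    360000 0 0 0 0)) (.E 2)) (.L 4 7 [4, 4, 5] [278, 278, 278, 278, 278, 278] [12, 2, 0, 0, 0, 0]
    100000 200000 200000 1100000 100000 0 100000 0 0 0 0)) (.L 4 7 [4, 4, 5] [278, 278, 278, 278,
    278, 278] [] 100000 566666 444444 2 222222 0 222222 0 0 0 0)) (.E 1))) (.L 4 7 [4, 4, 5] [278,
    278, 278, 278, 278, 278] [] 100000 533333 422222 1 211111 0 211111 0 0 0 0)) (.S 2 1 (.S 2 0
    (.S 3 3 (.S 3 1 (.S 3 0 (.L 5 8 [4, 4, 4] [312, 312, 312, 312, 312, 312] [0, 0, 0, 0, 0, 0]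
    100000 83334 83334 1399999 66667 0 100000 0 0 0 0) (.S 4 11 (.S 4 5 (.S 4 2 (.L 5 8 [4, 4, 4]
    [284, 274, 264, 0, 0, 0] [10, 0, 0, 0, 0, 0] 100000 150000 150000 1200000 100000 0 100000
    100000 0 0 0) (.L 5 8 [4, 4, 4] [312, 304, 294, 284, 274, 264] [10, 0, 0, 0, 0, 0] 100000 50000
    50000 1450000 50000 0 100000 50000 0 0 0)) (.L 5 8 [4, 4, 4] [312, 312, 312, 312, 312, 312]
    [10, 0, 0, 0, 0, 0] 100000 280000 0 0 95000 0 380000 0 0 0 0)) (.E 2))) (.S 3 2 (.S 4 11 (.S 4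
    5 (.L 5 8 [4, 4, 4] [312, 304, 294, 284, 274, 264] [20, 12, 2, 0, 0, 0] 100000 100000 100000
    1375000 75000 0 100000 25000 0 0 0) (.L 5 8 [4, 4, 4] [312, 312, 312, 312, 312, 312] [20, 12,
    2, 0, 0, 0] 100000 233333 0 3 83333 0 333333 0 0 0 0)) (.E 2)) (.L 5 8 [4, 4, 4] [312, 312,
    312, 312, 312, 312] [30, 24, 16, 6, 0, 0] 100000 425000 315000 0 210000 0 210000 0 0 0 0))) (.E
    1)) (.S 3 2 (.S 3 1 (.S 3 0 (.S 4 11 (.S 4 5 (.S 4 2 (.L 5 8 [4, 4, 4] [284, 274, 264, 0, 0, 0]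
    [0, 0, 0, 0, 0, 0] 100000 66668 66668 1433332 66667 0 100000 0 0 0 0) (.L 5 8 [4, 4, 4] [312,
    304, 294, 284, 274, 264] [0, 0, 0, 0, 0, 0] 100000 20000 20000 1500000 40000 0 100000 0 0 20000
    20000)) (.L 5 8 [4, 4, 4] [312, 312, 312, 312, 312, 312] [0, 0, 0, 0, 0, 0] 100000 261905 0 0
    90476 0 361905 0 0 0 0)) (.E 2)) (.L 5 8 [4, 4, 4] [312, 312, 312, 312, 312, 312] [12, 2, 0, 0,
    0, 0] 100000 525000 375000 0 250000 0 250000 0 0 0 0)) (.L 5 8 [4, 4, 4] [312, 312, 312, 312,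
    312, 312] [24, 16, 6, 0, 0, 0] 100000 425000 315000 0 210000 0 210000 0 0 0 0)) (.E 1))) (.L 5
    8 [4, 4, 4] [312, 312, 312, 312, 312, 312] [] 100000 400000 300000 0 200000 0 200000 0 0 0 0)))

lemma s21_21_11_2_10 {n : ℕ} (hn : 5 ≤ n) : NoNd (d21_21_11_2.R : ℤ) d21_21_11_2.H n d21_21_11_2.a d21_21_11_2.b
    (BlkD.inB (BlkD.upd (BlkD.upd (BlkD.upd (fun _ => 0) 0 6) 0 7) 1 8)
      (BlkD.upd (BlkD.upd (BlkD.upd (BlkD.upd (BlkD.upd (BlkD.upd (fun _ => 21) 0 11) 2 2) 0 8) 0 7) 1 14) 1 11)) :=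
  BlkD.tree_sound (BlkD.pairOk_sound k21_21_11_2) (by decide) hn t21_21_11_2_10 _ _ (by decide +kernel)

/-- certificates of the pair `(11, 2)`, part 11 -/
def t21_21_11_2_11 : BlkD.Tr :=
  .S 1 13 (.S 1 12 (.S 2 1 (.S 2 0 (.S 3 2 (.S 3 1 (.S 3 0 (.L 5 8 [4, 4, 4] [348, 348, 348, 348,
    348, 348] [0, 0, 0, 0, 0, 0] 100000 100000 100000 1375000 75000 0 100000 0 0 0 0) (.S 4 12 (.S
    4 6 (.S 4 3 (.L 5 8 [4, 4, 4] [330, 320, 310, 300, 0, 0] [10, 0, 0, 0, 0, 0] 100000 483335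
    283335 0 266667 0 300000 66667 0 0 33333) (.L 5 8 [4, 4, 4] [348, 348, 340, 330, 320, 310] [10,
    0, 0, 0, 0, 0] 100000 50000 50000 1450000 50000 0 100000 50000 0 0 0)) (.L 5 8 [4, 4, 4] [348,
    348, 348, 348, 348, 348] [10, 0, 0, 0, 0, 0] 100000 233333 0 3 83333 0 333333 0 0 0 0)) (.E
    2))) (.L 5 8 [4, 4, 4] [348, 348, 348, 348, 348, 348] [20, 12, 2, 0, 0, 0] 100000 483333 350000
    3 233333 0 233333 0 0 0 0)) (.L 5 8 [4, 4, 4] [348, 348, 348, 348, 348, 348] [] 100000 0 100000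
    0 0 0 0 0 0 0 0)) (.S 3 1 (.S 3 0 (.S 4 12 (.S 4 6 (.S 4 3 (.L 5 8 [4, 4, 4] [330, 320, 310,
    300, 0, 0] [0, 0, 0, 0, 0, 0] 100000 408334 175001 1 250000 0 333333 0 0 0 0) (.L 5 8 [4, 4, 4]
    [348, 348, 340, 330, 320, 310] [0, 0, 0, 0, 0, 0] 100000 354545 90909 2 181818 0 363636 0 0 0
    0)) (.L 5 8 [4, 4, 4] [348, 348, 348, 348, 348, 348] [0, 0, 0, 0, 0, 0] 100000 220000 0 0 80000
    0 320000 0 0 0 0)) (.E 2)) (.L 5 8 [4, 4, 4] [348, 348, 348, 348, 348, 348] [12, 2, 0, 0, 0, 0]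
    100000 483333 350000 3 233333 0 233333 0 0 0 0)) (.L 5 8 [4, 4, 4] [348, 348, 348, 348, 348,
    348] [] 100000 0 100000 0 0 0 0 0 0 0 0))) (.L 5 8 [4, 4, 4] [348, 348, 348, 348, 348, 348] []
    100000 377273 286364 1 190909 0 190909 0 0 0 0)) (.L 5 8 [4, 4, 4] [386, 386, 386, 386, 386,
    386] [] 100000 484375 290625 0 243750 0 293750 0 0 0 0)) (.L 5 8 [4, 4, 4] [426, 426, 426, 426,
    426, 426] [] 100000 366666 233333 3 233333 0 233333 0 0 0 0)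

lemma s21_21_11_2_11 {n : ℕ} (hn : 5 ≤ n) : NoNd (d21_21_11_2.R : ℤ) d21_21_11_2.H n d21_21_11_2.a d21_21_11_2.b
    (BlkD.inB (BlkD.upd (BlkD.upd (BlkD.upd (BlkD.upd (fun _ => 0) 0 6) 0 7) 1 8) 1 12)
      (BlkD.upd (BlkD.upd (BlkD.upd (BlkD.upd (BlkD.upd (fun _ => 21) 0 11) 2 2) 0 8) 0 7) 1 14)) :=
  BlkD.tree_sound (BlkD.pairOk_sound k21_21_11_2) (by decide) hn t21_21_11_2_11 _ _ (by decide +kernel)

/-- certificates of the pair `(11, 2)`, part 12 -/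
def t21_21_11_2_12 : BlkD.Tr :=
  .E 0

lemma s21_21_11_2_12 {n : ℕ} (hn : 5 ≤ n) : NoNd (d21_21_11_2.R : ℤ) d21_21_11_2.H n d21_21_11_2.a d21_21_11_2.b
    (BlkD.inB (BlkD.upd (BlkD.upd (BlkD.upd (fun _ => 0) 0 6) 0 7) 1 15)
      (BlkD.upd (BlkD.upd (BlkD.upd (BlkD.upd (fun _ => 21) 0 11) 2 2) 0 8) 0 7)) :=
  BlkD.tree_sound (BlkD.pairOk_sound k21_21_11_2) (by decide) hn t21_21_11_2_12 _ _ (by decide +kernel)

/-- certificates of the pair `(11, 2)`, part 13 -/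
def t21_21_11_2_13 : BlkD.Tr :=
  .L 5 8 [4, 4, 4] [] [] 100000 18750 18750 1512500 37500 0 43750 12500 0 0 0

lemma s21_21_11_2_13 {n : ℕ} (hn : 5 ≤ n) : NoNd (d21_21_11_2.R : ℤ) d21_21_11_2.H n d21_21_11_2.a d21_21_11_2.b
    (BlkD.inB (BlkD.upd (BlkD.upd (fun _ => 0) 0 6) 0 8)
      (BlkD.upd (BlkD.upd (BlkD.upd (BlkD.upd (BlkD.upd (fun _ => 21) 0 11) 2 2) 0 8) 1 13) 1 6)) :=
  BlkD.tree_sound (BlkD.pairOk_sound k21_21_11_2) (by decide) hn t21_21_11_2_13 _ _ (by decide +kernel)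

/-- certificates of the pair `(11, 2)`, part 14 -/
def t21_21_11_2_14 : BlkD.Tr :=
  .S 1 7 (.S 2 1 (.S 2 0 (.L 5 8 [4, 4, 4] [202, 202, 202, 194, 184, 174] [] 100000 16667 16667
    1544446 33333 0 55556 55556 0 0 22222) (.S 3 5 (.S 3 2 (.S 3 1 (.L 5 8 [4, 4, 4] [202, 202,
    202, 194, 184, 174] [] 100000 20000 20000 1540000 40000 0 40000 0 0 0 0) (.S 4 7 (.S 4 3 (.L 3
    6 [5, 5, 6] [184, 174, 164, 154, 0, 0] [24, 16, 6, 0, 0, 0] 100000 85715 85715 1399999 57143 0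
    57143 0 0 57143 14286) (.L 3 6 [5, 5, 6] [202, 202, 202, 194, 184, 174] [24, 16, 6, 0, 0, 0]
    100000 300001 1 0 66667 0 400000 0 0 33333 0)) (.E 2))) (.E 1)) (.E 1))) (.L 5 8 [4, 4, 4]
    [202, 202, 202, 194, 184, 174] [] 100000 200000 200000 1100000 100000 0 100000 0 0 0 0)) (.S 2
    1 (.S 2 0 (.S 3 5 (.S 3 2 (.S 3 1 (.L 5 8 [4, 4, 4] [232, 232, 232, 232, 224, 214] [] 100000
    18750 18750 1550000 37500 0 50000 25000 0 0 12500) (.S 4 8 (.S 4 4 (.S 4 2 (.L 5 8 [4, 4, 4]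
    [204, 194, 184, 0, 0, 0] [20, 12, 2, 0, 0, 0] 100000 21875 21875 1537500 43750 0 65625 43750 0
    0 18750) (.L 5 8 [4, 4, 4] [224, 214, 204, 194, 184, 0] [20, 12, 2, 0, 0, 0] 100000 22728 13637
    1409090 36364 0 109091 27273 0 0 0)) (.L 5 8 [4, 4, 4] [232, 232, 232, 232, 224, 214] [20, 12,
    2, 0, 0, 0] 100000 300000 0 0 100000 0 400000 0 0 0 0)) (.E 2))) (.S 3 4 (.S 3 3 (.S 4 8 (.S 4
    4 (.L 5 8 [4, 4, 4] [224, 214, 204, 194, 184, 0] [30, 24, 16, 6, 0, 0] 100000 150000 150000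
    1200000 100000 0 100000 0 0 0 0) (.L 5 8 [4, 4, 4] [232, 232, 232, 232, 224, 214] [30, 24, 16,
    6, 0, 0] 100000 280000 0 0 0 0 380000 0 0 0 0)) (.E 2)) (.E 1)) (.E 1))) (.E 1)) (.S 3 4 (.S 3
    2 (.S 3 1 (.S 3 0 (.S 4 8 (.S 4 4 (.L 5 8 [4, 4, 4] [224, 214, 204, 194, 184, 0] [0, 0, 0, 0,
    0, 0] 100000 20000 20000 1540000 40000 0 80000 0 0 0 0) (.L 5 8 [4, 4, 4] [232, 232, 232, 232,
    224, 214] [0, 0, 0, 0, 0, 0] 100000 140000 0 800000 60000 0 240000 0 0 0 0)) (.E 2)) (.S 4 8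
    (.S 4 4 (.S 4 2 (.L 4 7 [4, 4, 5] [204, 194, 184, 0, 0, 0] [12, 2, 0, 0, 0, 0] 100000 150000
    150000 1200000 100000 0 100000 0 0 0 0) (.L 4 7 [4, 4, 5] [224, 214, 204, 194, 184, 0] [12, 2,
    0, 0, 0, 0] 100000 50000 50000 1350000 50000 0 100000 0 0 0 0)) (.L 4 7 [4, 4, 5] [232, 232,
    232, 232, 224, 214] [12, 2, 0, 0, 0, 0] 100000 291305 1 1 78261 0 391304 0 0 0 0)) (.E 2))) (.S
    4 8 (.S 4 4 (.L 5 8 [4, 4, 4] [224, 214, 204, 194, 184, 0] [24, 16, 6, 0, 0, 0] 100000 150000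
    150000 1200000 100000 0 100000 0 0 0 0) (.L 5 8 [4, 4, 4] [232, 232, 232, 232, 224, 214] [24,
    16, 6, 0, 0, 0] 100000 280000 0 0 0 0 380000 0 0 0 0)) (.E 2))) (.E 1)) (.E 1))) (.L 5 8 [4, 4,
    4] [232, 232, 232, 232, 224, 214] [] 100000 200000 200000 1100000 100000 0 100000 0 0 0 0))

lemma s21_21_11_2_14 {n : ℕ} (hn : 5 ≤ n) : NoNd (d21_21_11_2.R : ℤ) d21_21_11_2.H n d21_21_11_2.a d21_21_11_2.b
    (BlkD.inB (BlkD.upd (BlkD.upd (BlkD.upd (fun _ => 0) 0 6) 0 8) 1 7)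
      (BlkD.upd (BlkD.upd (BlkD.upd (BlkD.upd (BlkD.upd (BlkD.upd (fun _ => 21) 0 11) 2 2) 0 8) 1 13) 1 10) 1 8)) :=
  BlkD.tree_sound (BlkD.pairOk_sound k21_21_11_2) (by decide) hn t21_21_11_2_14 _ _ (by decide +kernel)

/-- certificates of the pair `(11, 2)`, part 15 -/
def t21_21_11_2_15 : BlkD.Tr :=
  .S 1 9 (.S 2 1 (.S 2 0 (.S 3 4 (.S 3 2 (.S 3 1 (.S 3 0 (.L 5 8 [4, 4, 4] [264, 264, 264, 264,
    264, 256] [0, 0, 0, 0, 0, 0] 100000 22222 22222 1522224 44444 0 66667 0 0 0 0) (.S 4 9 (.S 4 4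
    (.S 4 2 (.L 5 8 [4, 4, 4] [236, 226, 216, 0, 0, 0] [10, 0, 0, 0, 0, 0] 100000 50001 50001
    1433333 66667 0 100000 33333 0 0 0) (.L 5 8 [4, 4, 4] [256, 246, 236, 226, 216, 0] [10, 0, 0,
    0, 0, 0] 100000 16667 16667 1500002 33333 0 100000 33333 0 0 0)) (.L 5 8 [4, 4, 4] [264, 264,
    264, 264, 264, 256] [10, 0, 0, 0, 0, 0] 100000 60000 0 1200000 40000 0 160000 0 0 0 0)) (.E
    2))) (.S 4 9 (.S 4 4 (.L 5 8 [4, 4, 4] [256, 246, 236, 226, 216, 0] [20, 12, 2, 0, 0, 0] 100000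
    77779 77779 1433332 66667 0 100000 33333 0 11111 11111) (.L 5 8 [4, 4, 4] [264, 264, 264, 264,
    264, 256] [20, 12, 2, 0, 0, 0] 100000 300000 0 0 100000 0 400000 0 0 0 0)) (.E 2))) (.L 5 8 [4,
    4, 4] [264, 264, 264, 264, 264, 256] [] 100000 525000 375000 0 250000 0 250000 0 0 0 0)) (.E
    1)) (.S 3 3 (.S 3 1 (.S 3 0 (.S 4 9 (.S 4 4 (.S 4 2 (.L 5 8 [4, 4, 4] [236, 226, 216, 0, 0, 0]
    [0, 0, 0, 0, 0, 0] 100000 50001 50001 1466666 66667 0 100000 0 0 0 0) (.L 5 8 [4, 4, 4] [256,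
    246, 236, 226, 216, 0] [0, 0, 0, 0, 0, 0] 100000 20000 20000 1480000 40000 0 100000 0 0 20000
    0)) (.L 5 8 [4, 4, 4] [264, 264, 264, 264, 264, 256] [0, 0, 0, 0, 0, 0] 100000 100000 0 1000000
    50000 0 200000 0 0 0 0)) (.E 2)) (.S 4 9 (.S 4 4 (.L 4 7 [4, 4, 5] [256, 246, 236, 226, 216, 0]
    [12, 2, 0, 0, 0, 0] 100000 150000 150000 1200000 100000 0 100000 0 0 0 0) (.L 4 7 [4, 4, 5]
    [264, 264, 264, 264, 264, 256] [12, 2, 0, 0, 0, 0] 100000 280000 0 0 95000 0 380000 0 0 0 0))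
    (.E 2))) (.L 5 8 [4, 4, 4] [264, 264, 264, 264, 264, 256] [] 100000 525000 375000 0 250000 0
    250000 0 0 0 0)) (.E 1))) (.L 5 8 [4, 4, 4] [264, 264, 264, 264, 264, 256] [] 100000 493750
    356250 0 237500 0 237500 0 0 0 0)) (.S 2 1 (.S 2 0 (.S 3 3 (.S 3 1 (.S 3 0 (.L 4 7 [4, 4, 5]
    [298, 298, 298, 298, 298, 298] [0, 0, 0, 0, 0, 0] 100000 83334 83334 1399999 66667 0 100000 0 0
    0 0) (.S 4 10 (.S 4 5 (.S 4 2 (.L 4 7 [4, 4, 5] [270, 260, 250, 0, 0, 0] [10, 0, 0, 0, 0, 0]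
    100000 100000 100000 1300000 100000 0 100000 0 0 0 0) (.L 4 7 [4, 4, 5] [298, 290, 280, 270,
    260, 250] [10, 0, 0, 0, 0, 0] 100000 50000 50000 1450000 50000 0 100000 50000 0 0 0)) (.L 4 7
    [4, 4, 5] [298, 298, 298, 298, 298, 298] [10, 0, 0, 0, 0, 0] 100000 300000 0 0 100000 0 400000
    0 0 0 0)) (.E 2))) (.S 3 2 (.S 4 10 (.S 4 5 (.L 5 8 [4, 4, 4] [298, 290, 280, 270, 260, 250]
    [20, 12, 2, 0, 0, 0] 100000 77779 77779 1433332 66667 0 100000 33333 0 11111 11111) (.L 5 8 [4,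
    4, 4] [298, 298, 298, 298, 298, 298] [20, 12, 2, 0, 0, 0] 100000 233333 0 2 111111 0 333333 0 0
    0 0)) (.E 2)) (.L 5 8 [4, 4, 4] [298, 298, 298, 298, 298, 298] [30, 24, 16, 6, 0, 0] 100000
    483333 350000 3 233333 0 233333 0 0 0 0))) (.E 1)) (.S 3 2 (.S 3 1 (.S 3 0 (.S 4 10 (.S 4 5 (.S
    4 2 (.L 5 8 [4, 4, 4] [270, 260, 250, 0, 0, 0] [0, 0, 0, 0, 0, 0] 100000 100000 100000 1300000
    100000 0 100000 0 0 0 0) (.L 5 8 [4, 4, 4] [298, 290, 280, 270, 260, 250] [0, 0, 0, 0, 0, 0]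
    100000 12500 12500 1550000 37500 0 100000 0 0 25000 12500)) (.L 5 8 [4, 4, 4] [298, 298, 298,
    298, 298, 298] [0, 0, 0, 0, 0, 0] 100000 256250 0 0 118750 0 356250 0 0 0 0)) (.E 2)) (.L 4 7
    [4, 4, 5] [298, 298, 298, 298, 298, 298] [12, 2, 0, 0, 0, 0] 100000 525000 375000 0 250000 0
    250000 0 0 0 0)) (.L 4 7 [4, 4, 5] [298, 298, 298, 298, 298, 298] [24, 16, 6, 0, 0, 0] 100000
    483333 350000 3 233333 0 233333 0 0 0 0)) (.E 1))) (.L 4 7 [4, 4, 5] [298, 298, 298, 298, 298,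
    298] [] 100000 455555 333333 2 222222 0 222222 0 0 0 0))

lemma s21_21_11_2_15 {n : ℕ} (hn : 5 ≤ n) : NoNd (d21_21_11_2.R : ℤ) d21_21_11_2.H n d21_21_11_2.a d21_21_11_2.b
    (BlkD.inB (BlkD.upd (BlkD.upd (BlkD.upd (BlkD.upd (fun _ => 0) 0 6) 0 8) 1 7) 1 9)
      (BlkD.upd (BlkD.upd (BlkD.upd (BlkD.upd (BlkD.upd (fun _ => 21) 0 11) 2 2) 0 8) 1 13) 1 10)) :=
  BlkD.tree_sound (BlkD.pairOk_sound k21_21_11_2) (by decide) hn t21_21_11_2_15 _ _ (by decide +kernel)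

/-- certificates of the pair `(11, 2)`, part 16 -/
def t21_21_11_2_16 : BlkD.Tr :=
  .S 1 12 (.S 1 11 (.S 2 1 (.S 2 0 (.S 3 2 (.S 3 1 (.S 3 0 (.L 4 7 [4, 4, 5] [334, 334, 334, 334,
    334, 334] [0, 0, 0, 0, 0, 0] 100000 100000 100000 1375000 75000 0 100000 0 0 0 0) (.S 4 11 (.S
    4 5 (.S 4 2 (.L 4 7 [4, 4, 5] [306, 296, 286, 0, 0, 0] [10, 0, 0, 0, 0, 0] 100000 337500 62500
    0 250000 0 375000 0 0 0 0) (.L 5 8 [4, 4, 4] [334, 326, 316, 306, 296, 286] [10, 0, 0, 0, 0, 0]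
    100000 466072 251786 0 264286 0 314286 50000 0 0 25000)) (.L 5 8 [4, 4, 4] [334, 334, 334, 334,
    334, 334] [10, 0, 0, 0, 0, 0] 100000 275000 0 0 125000 0 375000 0 0 0 0)) (.E 2))) (.L 5 8 [4,
    4, 4] [334, 334, 334, 334, 334, 334] [20, 12, 2, 0, 0, 0] 100000 425000 262500 0 262500 0
    262500 0 0 0 0)) (.L 5 8 [4, 4, 4] [334, 334, 334, 334, 334, 334] [] 100000 0 100000 0 0 0 0 0
    0 0 0)) (.S 3 1 (.S 3 0 (.S 4 11 (.S 4 5 (.S 4 2 (.L 5 8 [4, 4, 4] [306, 296, 286, 0, 0, 0] [0,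
    0, 0, 0, 0, 0] 100000 300001 1 0 266667 0 400000 0 0 0 0) (.L 4 7 [4, 4, 5] [334, 326, 316,
    306, 296, 286] [0, 0, 0, 0, 0, 0] 100000 125000 75000 1150000 100000 0 150000 0 0 50000 0)) (.L
    4 7 [4, 4, 5] [334, 334, 334, 334, 334, 334] [0, 0, 0, 0, 0, 0] 100000 284615 76923 2 153846 0
    307692 0 0 0 0)) (.E 2)) (.L 4 7 [4, 4, 5] [334, 334, 334, 334, 334, 334] [12, 2, 0, 0, 0, 0]
    100000 483333 350000 3 233333 0 233333 0 0 0 0)) (.L 4 7 [4, 4, 5] [334, 334, 334, 334, 334,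
    334] [] 100000 0 100000 0 0 0 0 0 0 0 0))) (.L 4 7 [4, 4, 5] [334, 334, 334, 334, 334, 334] []
    100000 425000 315000 0 210000 0 210000 0 0 0 0)) (.S 2 1 (.S 2 0 (.S 3 1 (.S 3 0 (.L 3 6 [5, 5,
    6] [372, 372, 372, 372, 372, 372] [0, 0, 0, 0, 0, 0] 100000 120000 120000 1320000 80000 0
    100000 0 0 0 0) (.L 5 8 [4, 4, 4] [372, 372, 372, 372, 372, 372] [10, 0, 0, 0, 0, 0] 100000
    425000 262500 0 262500 0 262500 0 0 0 0)) (.L 5 8 [4, 4, 4] [372, 372, 372, 372, 372, 372] []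
    100000 0 100000 0 0 0 0 0 0 0 0)) (.L 5 8 [4, 4, 4] [372, 372, 372, 372, 372, 372] [] 100000
    425000 262500 0 262500 0 262500 0 0 0 0)) (.L 5 8 [4, 4, 4] [372, 372, 372, 372, 372, 372] []
    100000 0 100000 0 0 0 0 0 0 0 0))) (.L 5 8 [4, 4, 4] [412, 412, 412, 412, 412, 412] [] 100000
    425000 262500 0 262500 0 262500 0 0 0 0)

lemma s21_21_11_2_16 {n : ℕ} (hn : 5 ≤ n) : NoNd (d21_21_11_2.R : ℤ) d21_21_11_2.H n d21_21_11_2.a d21_21_11_2.b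
    (BlkD.inB (BlkD.upd (BlkD.upd (BlkD.upd (BlkD.upd (fun _ => 0) 0 6) 0 8) 1 7) 1 11)
      (BlkD.upd (BlkD.upd (BlkD.upd (BlkD.upd (fun _ => 21) 0 11) 2 2) 0 8) 1 13)) :=
  BlkD.tree_sound (BlkD.pairOk_sound k21_21_11_2) (by decide) hn t21_21_11_2_16 _ _ (by decide +kernel)

/-- certificates of the pair `(11, 2)`, part 17 -/
def t21_21_11_2_17 : BlkD.Tr :=
  .E 0

lemma s21_21_11_2_17 {n : ℕ} (hn : 5 ≤ n) : NoNd (d21_21_11_2.R : ℤ) d21_21_11_2.H n d21_21_11_2.a d21_21_11_2.b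
    (BlkD.inB (BlkD.upd (BlkD.upd (BlkD.upd (fun _ => 0) 0 6) 0 8) 1 14)
      (BlkD.upd (BlkD.upd (BlkD.upd (fun _ => 21) 0 11) 2 2) 0 8)) :=
  BlkD.tree_sound (BlkD.pairOk_sound k21_21_11_2) (by decide) hn t21_21_11_2_17 _ _ (by decide +kernel)

/-- certificates of the pair `(11, 2)`, part 18 -/
def t21_21_11_2_18 : BlkD.Tr :=
  .S 1 3 (.L 5 8 [4, 4, 4] [] [] 100000 0 0 1500000 0 0 0 0 0 0 0) (.S 1 5 (.L 5 8 [4, 4, 4] [] []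
    100000 25000 25000 1500000 50000 0 50000 0 0 0 0) (.S 2 1 (.S 2 0 (.S 3 6 (.S 3 3 (.S 3 1 (.L 5
    8 [4, 4, 4] [186, 186, 178, 168, 158, 148] [] 100000 20000 20000 1520000 40000 0 80000 0 0 0 0)
    (.S 3 2 (.L 5 8 [4, 4, 4] [186, 186, 178, 168, 158, 148] [20, 12, 2, 0, 0, 0] 100000 19445
    19445 1544445 38889 0 58333 38889 0 27778 33333) (.S 4 6 (.S 4 3 (.L 5 8 [4, 4, 4] [168, 158,
    148, 138, 0, 0] [30, 24, 16, 6, 0, 0] 100000 15385 15385 1546155 30769 0 30769 100000 0 0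
    23077) (.L 5 8 [4, 4, 4] [186, 186, 178, 168, 158, 148] [30, 24, 16, 6, 0, 0] 100000 300001 1 0
    66667 0 400000 133333 0 0 0)) (.E 2)))) (.E 1)) (.E 1)) (.S 3 5 (.S 3 2 (.S 3 1 (.L 5 8 [4, 4,
    4] [186, 186, 178, 168, 158, 148] [] 100000 20000 20000 1540000 40000 0 80000 0 0 0 0) (.S 4 6
    (.S 4 3 (.S 4 1 (.L 5 8 [4, 4, 4] [148, 138, 0, 0, 0, 0] [24, 16, 6, 0, 0, 0] 100000 100000
    100000 1300000 100000 0 100000 0 0 0 0) (.L 5 8 [4, 4, 4] [168, 158, 148, 138, 0, 0] [24, 16,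
    6, 0, 0, 0] 100000 25000 25000 1450000 50000 0 100000 0 0 50000 0)) (.L 5 8 [4, 4, 4] [186,
    186, 178, 168, 158, 148] [24, 16, 6, 0, 0, 0] 100000 166668 1 666665 66667 0 266667 0 0 0 0))
    (.E 2))) (.E 1)) (.E 1))) (.S 3 4 (.S 3 2 (.S 3 1 (.S 3 0 (.L 5 8 [4, 4, 4] [186, 186, 178,
    168, 158, 148] [0, 0, 0, 0, 0, 0] 100000 20000 20000 1500000 40000 0 40000 0 0 0 0) (.S 4 6 (.S
    4 3 (.L 5 8 [4, 4, 4] [168, 158, 148, 138, 0, 0] [14, 4, 0, 0, 0, 0] 100000 150000 150000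
    1200000 100000 0 100000 0 0 0 0) (.L 5 8 [4, 4, 4] [186, 186, 178, 168, 158, 148] [14, 4, 0, 0,
    0, 0] 100000 300000 0 0 100000 0 400000 0 0 0 0)) (.E 2))) (.E 1)) (.E 1)) (.E 1))))

lemma s21_21_11_2_18 {n : ℕ} (hn : 5 ≤ n) : NoNd (d21_21_11_2.R : ℤ) d21_21_11_2.H n d21_21_11_2.a d21_21_11_2.b
    (BlkD.inB (BlkD.upd (BlkD.upd (fun _ => 0) 0 6) 0 9)
      (BlkD.upd (BlkD.upd (BlkD.upd (BlkD.upd (BlkD.upd (BlkD.upd (fun _ => 21) 0 11) 2 2) 0 10) 0 9) 1 12) 1 6)) :=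
  BlkD.tree_sound (BlkD.pairOk_sound k21_21_11_2) (by decide) hn t21_21_11_2_18 _ _ (by decide +kernel)

/-- certificates of the pair `(11, 2)`, part 19 -/
def t21_21_11_2_19 : BlkD.Tr :=
  .S 1 8 (.S 1 7 (.S 2 1 (.S 2 0 (.S 3 5 (.S 3 2 (.S 3 1 (.L 5 8 [4, 4, 4] [216, 216, 216, 208,
    198, 188] [] 100000 21429 21429 1528572 42857 0 64286 42857 0 0 14286) (.S 4 7 (.S 4 3 (.L 5 8
    [4, 4, 4] [198, 188, 178, 168, 0, 0] [20, 12, 2, 0, 0, 0] 100000 37500 37500 1500000 50000 0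
    100000 50000 0 0 25000) (.L 5 8 [4, 4, 4] [216, 216, 216, 208, 198, 188] [20, 12, 2, 0, 0, 0]
    100000 100000 0 1000000 0 0 200000 200000 0 0 0)) (.E 2))) (.S 3 4 (.S 3 3 (.S 4 7 (.S 4 3 (.L
    5 8 [4, 4, 4] [198, 188, 178, 168, 0, 0] [30, 24, 16, 6, 0, 0] 100000 150000 150000 1266667
    100000 0 100000 33333 0 33333 33333) (.L 5 8 [4, 4, 4] [216, 216, 216, 208, 198, 188] [30, 24,
    16, 6, 0, 0] 100000 300000 0 0 50000 0 400000 200000 0 0 0)) (.E 2)) (.E 1)) (.E 1))) (.E 1))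
    (.S 3 4 (.S 3 2 (.S 3 1 (.S 3 0 (.L 4 7 [4, 4, 5] [216, 216, 216, 208, 198, 188] [0, 0, 0, 0,
    0, 0] 100000 18750 18750 1550000 37500 0 75000 0 0 12500 12500) (.S 4 7 (.S 4 3 (.S 4 1 (.L 4 7
    [4, 4, 5] [178, 168, 0, 0, 0, 0] [12, 2, 0, 0, 0, 0] 100000 100000 100000 1300000 100000 0
    100000 0 0 0 0) (.L 4 7 [4, 4, 5] [198, 188, 178, 168, 0, 0] [12, 2, 0, 0, 0, 0] 100000 25000
    25000 1450000 50000 0 100000 0 0 0 0)) (.L 4 7 [4, 4, 5] [216, 216, 216, 208, 198, 188] [12, 2,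
    0, 0, 0, 0] 100000 60000 0 1200000 40000 0 160000 0 0 0 0)) (.E 2))) (.S 4 7 (.S 4 3 (.L 3 6
    [5, 5, 6] [198, 188, 178, 168, 0, 0] [24, 16, 6, 0, 0, 0] 100000 85716 85716 1399997 71429 0
    71429 0 0 28571 14286) (.L 3 6 [5, 5, 6] [216, 216, 216, 208, 198, 188] [24, 16, 6, 0, 0, 0]
    100000 300000 0 0 100000 0 400000 0 0 0 0)) (.E 2))) (.E 1)) (.E 1))) (.L 5 8 [4, 4, 4] [216,
    216, 216, 208, 198, 188] [] 100000 150000 150000 1200000 100000 0 100000 0 0 0 0)) (.S 2 1 (.S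
    2 0 (.S 3 4 (.S 3 2 (.S 3 1 (.S 3 0 (.L 5 8 [4, 4, 4] [248, 248, 248, 248, 240, 230] [0, 0, 0,
    0, 0, 0] 100000 20000 20000 1540000 40000 0 80000 0 0 0 0) (.S 4 8 (.S 4 4 (.L 5 8 [4, 4, 4]
    [240, 230, 220, 210, 200, 0] [10, 0, 0, 0, 0, 0] 100000 25000 25000 1500000 50000 0 100000
    50000 0 0 0) (.L 5 8 [4, 4, 4] [248, 248, 248, 248, 240, 230] [10, 0, 0, 0, 0, 0] 100000 50000
    0 1250000 50000 0 150000 0 0 0 0)) (.E 2))) (.S 4 8 (.S 4 4 (.L 5 8 [4, 4, 4] [240, 230, 220,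
    210, 200, 0] [20, 12, 2, 0, 0, 0] 100000 66668 66668 1433332 66667 0 100000 66667 0 0 0) (.L 5
    8 [4, 4, 4] [248, 248, 248, 248, 240, 230] [20, 12, 2, 0, 0, 0] 100000 300000 0 0 100000 0
    400000 100000 0 0 0)) (.E 2))) (.S 3 3 (.S 4 8 (.S 4 4 (.L 5 8 [4, 4, 4] [240, 230, 220, 210,
    200, 0] [30, 24, 16, 6, 0, 0] 100000 471428 285714 2 285714 0 285714 0 0 100000 0) (.L 5 8 [4,
    4, 4] [248, 248, 248, 248, 240, 230] [30, 24, 16, 6, 0, 0] 100000 300000 0 0 0 0 400000 0 0 0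
    0)) (.E 2)) (.E 1))) (.E 1)) (.S 3 3 (.S 3 1 (.S 3 0 (.S 4 8 (.S 4 4 (.S 4 2 (.L 5 8 [4, 4, 4]
    [220, 210, 200, 0, 0, 0] [0, 0, 0, 0, 0, 0] 100000 33334 33334 1499999 66667 0 100000 0 0 0 0)
    (.L 5 8 [4, 4, 4] [240, 230, 220, 210, 200, 0] [0, 0, 0, 0, 0, 0] 100000 28572 28572 1485714
    57143 0 100000 0 0 42857 14286)) (.L 5 8 [4, 4, 4] [248, 248, 248, 248, 240, 230] [0, 0, 0, 0,
    0, 0] 100000 100001 1 1000000 66667 0 200000 0 0 0 0)) (.E 2)) (.S 4 8 (.S 4 4 (.L 5 8 [4, 4,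
    4] [240, 230, 220, 210, 200, 0] [12, 2, 0, 0, 0, 0] 100000 44445 44445 1466666 66667 0 100000 0
    0 55556 11111) (.L 5 8 [4, 4, 4] [248, 248, 248, 248, 240, 230] [12, 2, 0, 0, 0, 0] 100000
    200000 0 500000 100000 0 300000 0 0 0 0)) (.E 2))) (.S 3 2 (.S 4 8 (.S 4 4 (.L 5 8 [4, 4, 4]
    [240, 230, 220, 210, 200, 0] [24, 16, 6, 0, 0, 0] 100000 471428 285714 2 285714 0 285714 0 0
    100000 0) (.L 5 8 [4, 4, 4] [248, 248, 248, 248, 240, 230] [24, 16, 6, 0, 0, 0] 100000 300000 0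
    0 0 0 400000 0 0 0 0)) (.E 2)) (.E 1))) (.E 1))) (.L 5 8 [4, 4, 4] [248, 248, 248, 248, 240,
    230] [] 100000 150000 150000 1200000 100000 0 100000 0 0 0 0))) (.S 2 1 (.S 2 0 (.S 3 3 (.S 3 1
    (.S 3 0 (.L 5 8 [4, 4, 4] [282, 282, 282, 282, 282, 274] [0, 0, 0, 0, 0, 0] 100000 25000 25000
    1500000 50000 0 100000 0 0 0 0) (.S 4 9 (.S 4 4 (.L 5 8 [4, 4, 4] [274, 264, 254, 244, 234, 0]
    [10, 0, 0, 0, 0, 0] 100000 50001 50001 1455555 66667 0 100000 44444 0 0 11111) (.L 5 8 [4, 4,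
    4] [282, 282, 282, 282, 282, 274] [10, 0, 0, 0, 0, 0] 100000 25000 25000 1450000 50000 0 100000
    0 0 0 0)) (.E 2))) (.S 3 2 (.S 4 9 (.S 4 4 (.L 5 8 [4, 4, 4] [274, 264, 254, 244, 234, 0] [20,
    12, 2, 0, 0, 0] 100000 100000 50000 1200000 100000 0 150000 50000 0 0 0) (.L 5 8 [4, 4, 4]
    [282, 282, 282, 282, 282, 274] [20, 12, 2, 0, 0, 0] 100000 300000 0 1 133333 0 400000 0 0 0 0))
    (.E 2)) (.L 5 8 [4, 4, 4] [282, 282, 282, 282, 282, 274] [30, 24, 16, 6, 0, 0] 100000 425000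
    262500 0 262500 0 262500 0 0 0 0))) (.E 1)) (.S 3 2 (.S 3 1 (.S 3 0 (.S 4 9 (.S 4 4 (.L 4 7 [4,
    4, 5] [274, 264, 254, 244, 234, 0] [0, 0, 0, 0, 0, 0] 100000 50001 50001 1466666 66667 0 100000
    0 0 33333 0) (.L 4 7 [4, 4, 5] [282, 282, 282, 282, 282, 274] [0, 0, 0, 0, 0, 0] 100000 150000
    50000 900000 100000 0 200000 0 0 0 0)) (.E 2)) (.L 5 8 [4, 4, 4] [282, 282, 282, 282, 282, 274]
    [12, 2, 0, 0, 0, 0] 100000 471428 285714 2 285714 0 285714 0 0 0 0)) (.L 5 8 [4, 4, 4] [282,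
    282, 282, 282, 282, 274] [24, 16, 6, 0, 0, 0] 100000 425000 262500 0 262500 0 262500 0 0 0 0))
    (.E 1))) (.L 5 8 [4, 4, 4] [282, 282, 282, 282, 282, 274] [] 100000 400000 250000 0 250000 0
    250000 0 0 0 0))

lemma s21_21_11_2_19 {n : ℕ} (hn : 5 ≤ n) : NoNd (d21_21_11_2.R : ℤ) d21_21_11_2.H n d21_21_11_2.a d21_21_11_2.b
    (BlkD.inB (BlkD.upd (BlkD.upd (BlkD.upd (fun _ => 0) 0 6) 0 9) 1 7)
      (BlkD.upd (BlkD.upd (BlkD.upd (BlkD.upd (BlkD.upd (BlkD.upd (fun _ => 21) 0 11) 2 2) 0 10) 0 9) 1 12) 1 9)) :=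
  BlkD.tree_sound (BlkD.pairOk_sound k21_21_11_2) (by decide) hn t21_21_11_2_19 _ _ (by decide +kernel)

/-- certificates of the pair `(11, 2)`, part 20 -/
def t21_21_11_2_20 : BlkD.Tr :=
  .S 1 11 (.S 1 10 (.S 2 1 (.S 2 0 (.S 3 2 (.S 3 1 (.S 3 0 (.L 5 8 [4, 4, 4] [318, 318, 318, 318,
    318, 318] [0, 0, 0, 0, 0, 0] 100000 25000 25000 1500000 50000 0 100000 0 0 0 0) (.S 4 10 (.S 4
    5 (.L 5 8 [4, 4, 4] [318, 310, 300, 290, 280, 270] [10, 0, 0, 0, 0, 0] 100000 100000 50000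
    1200000 100000 0 150000 50000 0 0 0) (.L 5 8 [4, 4, 4] [318, 318, 318, 318, 318, 318] [10, 0,
    0, 0, 0, 0] 100000 300000 0 1 133333 0 400000 0 0 0 0)) (.E 2))) (.L 5 8 [4, 4, 4] [318, 318,
    318, 318, 318, 318] [20, 12, 2, 0, 0, 0] 100000 481580 302633 0 252632 0 278947 126316 0 0 0))
    (.L 5 8 [4, 4, 4] [318, 318, 318, 318, 318, 318] [] 100000 0 100000 0 0 0 0 0 0 0 0)) (.L 4 7
    [4, 4, 5] [318, 318, 318, 318, 318, 318] [] 100000 471428 285714 2 285714 0 285714 0 0 100000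
    0)) (.L 4 7 [4, 4, 5] [318, 318, 318, 318, 318, 318] [] 100000 366666 233333 3 233333 0 233333
    0 0 0 0)) (.L 4 7 [4, 4, 5] [356, 356, 356, 356, 356, 356] [] 100000 370588 117647 1 235294 0
    352941 0 0 0 0)) (.L 4 7 [4, 4, 5] [396, 396, 396, 396, 396, 396] [] 100000 286843 55264 0
    221053 0 331579 0 0 0 0)

lemma s21_21_11_2_20 {n : ℕ} (hn : 5 ≤ n) : NoNd (d21_21_11_2.R : ℤ) d21_21_11_2.H n d21_21_11_2.a d21_21_11_2.b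
    (BlkD.inB (BlkD.upd (BlkD.upd (BlkD.upd (BlkD.upd (fun _ => 0) 0 6) 0 9) 1 7) 1 10)
      (BlkD.upd (BlkD.upd (BlkD.upd (BlkD.upd (BlkD.upd (fun _ => 21) 0 11) 2 2) 0 10) 0 9) 1 12)) :=
  BlkD.tree_sound (BlkD.pairOk_sound k21_21_11_2) (by decide) hn t21_21_11_2_20 _ _ (by decide +kernel)

/-- certificates of the pair `(11, 2)`, part 21 -/
def t21_21_11_2_21 : BlkD.Tr :=
  .E 0

lemma s21_21_11_2_21 {n : ℕ} (hn : 5 ≤ n) : NoNd (d21_21_11_2.R : ℤ) d21_21_11_2.H n d21_21_11_2.a d21_21_11_2.b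
    (BlkD.inB (BlkD.upd (BlkD.upd (BlkD.upd (fun _ => 0) 0 6) 0 9) 1 13)
      (BlkD.upd (BlkD.upd (BlkD.upd (BlkD.upd (fun _ => 21) 0 11) 2 2) 0 10) 0 9)) :=
  BlkD.tree_sound (BlkD.pairOk_sound k21_21_11_2) (by decide) hn t21_21_11_2_21 _ _ (by decide +kernel)

/-- certificates of the pair `(11, 2)`, part 22 -/
def t21_21_11_2_22 : BlkD.Tr :=
  .S 1 11 (.S 1 5 (.S 1 2 (.L 4 7 [4, 4, 5] [] [] 100000 0 0 1500000 0 0 0 0 0 0 0) (.S 1 4 (.S 1 3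
    (.L 4 7 [4, 4, 5] [96, 86, 76, 66, 0, 0] [] 100000 25000 25000 1500000 50000 0 50000 0 0 0 0)
    (.L 4 7 [4, 4, 5] [132, 122, 112, 102, 92, 0] [] 100000 22222 22222 1533335 44444 0 77778 33333
    0 33333 33333)) (.S 2 1 (.S 2 0 (.L 5 8 [4, 4, 4] [168, 160, 150, 140, 130, 120] [] 100000
    22222 22222 1533334 44444 0 77778 55556 0 11111 33333) (.S 3 5 (.S 3 2 (.S 3 1 (.L 4 7 [4, 4,
    5] [168, 160, 150, 140, 130, 120] [] 100000 20000 20000 1540000 40000 0 80000 0 0 20000 20000)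
    (.L 5 8 [4, 4, 4] [168, 160, 150, 140, 130, 120] [24, 16, 6, 0, 0, 0] 100000 25000 25000
    1533334 50000 0 83333 33333 0 33333 33333)) (.E 1)) (.E 1))) (.L 5 8 [4, 4, 4] [168, 160, 150,
    140, 130, 120] [] 100000 25000 25000 1516667 50000 0 83333 0 0 33333 33333)))) (.S 1 8 (.S 1 7
    (.S 1 6 (.S 2 1 (.S 2 0 (.S 3 5 (.S 3 2 (.L 5 8 [4, 4, 4] [198, 198, 190, 180, 170, 160] []
    100000 21429 21429 1535715 42857 0 78571 57143 0 0 28571) (.S 3 4 (.S 3 3 (.S 4 6 (.S 4 3 (.L 5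
    8 [4, 4, 4] [180, 170, 160, 150, 0, 0] [30, 24, 16, 6, 0, 0] 100000 21429 21429 1500000 57143 0
    100000 28571 0 14286 14286) (.L 5 8 [4, 4, 4] [198, 198, 190, 180, 170, 160] [30, 24, 16, 6, 0,
    0] 100000 300000 0 0 50000 0 400000 250000 0 0 0)) (.E 2)) (.E 1)) (.E 1))) (.E 1)) (.L 4 7 [4,
    4, 5] [198, 198, 190, 180, 170, 160] [] 100000 20000 20000 1540000 40000 0 100000 0 0 20000
    20000)) (.L 4 7 [4, 4, 5] [198, 198, 190, 180, 170, 160] [] 100000 20000 20000 1540000 40000 0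
    100000 0 0 20000 20000)) (.S 2 1 (.S 2 0 (.S 3 4 (.S 3 2 (.S 3 1 (.L 4 7 [4, 4, 5] [230, 230,
    230, 222, 212, 202] [] 100000 25000 25000 1525000 50000 0 75000 50000 0 0 0) (.S 4 7 (.S 4 3
    (.L 4 7 [4, 4, 5] [212, 202, 192, 182, 0, 0] [20, 12, 2, 0, 0, 0] 100000 25000 25000 1500000
    50000 0 100000 50000 0 0 0) (.L 4 7 [4, 4, 5] [230, 230, 230, 222, 212, 202] [20, 12, 2, 0, 0,
    0] 100000 0 0 1500000 0 0 100000 100000 0 0 0)) (.E 2))) (.S 3 3 (.S 4 7 (.S 4 3 (.L 4 7 [4, 4,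
    5] [212, 202, 192, 182, 0, 0] [30, 24, 16, 6, 0, 0] 100000 75000 25000 1250000 100000 0 150000
    0 0 0 0) (.L 4 7 [4, 4, 5] [230, 230, 230, 222, 212, 202] [30, 24, 16, 6, 0, 0] 100000 300000 0
    0 0 0 400000 400000 0 0 0)) (.E 2)) (.E 1))) (.E 1)) (.L 4 7 [4, 4, 5] [230, 230, 230, 222,
    212, 202] [] 100000 25000 25000 1500000 50000 0 100000 0 0 0 0)) (.L 4 7 [4, 4, 5] [230, 230,
    230, 222, 212, 202] [] 100000 100000 100000 1300000 100000 0 100000 0 0 100000 0))) (.L 4 7 [4,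
    4, 5] [264, 264, 264, 264, 256, 246] [] 100000 25000 25000 1500000 50000 0 100000 50000 0 0 0))
    (.S 1 10 (.S 1 9 (.L 4 7 [4, 4, 5] [300, 300, 300, 300, 300, 292] [] 100000 100000 50000
    1200000 100000 0 150000 50000 0 0 0) (.L 4 7 [4, 4, 5] [338, 338, 338, 338, 338, 338] [] 100000
    351614 129033 0 258065 0 322581 0 0 0 0)) (.L 4 7 [4, 4, 5] [378, 378, 378, 378, 378, 378] []
    100000 320000 120000 0 240000 0 300000 0 0 0 0)))) (.E 0)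

lemma s21_21_11_2_22 {n : ℕ} (hn : 5 ≤ n) : NoNd (d21_21_11_2.R : ℤ) d21_21_11_2.H n d21_21_11_2.a d21_21_11_2.b
    (BlkD.inB (BlkD.upd (BlkD.upd (BlkD.upd (fun _ => 0) 0 6) 0 9) 0 10)
      (BlkD.upd (BlkD.upd (BlkD.upd (fun _ => 21) 0 11) 2 2) 0 10)) :=
  BlkD.tree_sound (BlkD.pairOk_sound k21_21_11_2) (by decide) hn t21_21_11_2_22 _ _ (by decide +kernel)

/-- certificates of the pair `(11, 2)`, part 23 -/
def t21_21_11_2_23 : BlkD.Tr :=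
  .L 4 7 [4, 4, 5] [] [] 100000 0 0 1577778 11111 0 77778 11111 11111 11111 11111

lemma s21_21_11_2_23 {n : ℕ} (hn : 5 ≤ n) : NoNd (d21_21_11_2.R : ℤ) d21_21_11_2.H n d21_21_11_2.a d21_21_11_2.b
    (BlkD.inB (BlkD.upd (BlkD.upd (BlkD.upd (fun _ => 0) 0 6) 0 9) 0 11)
      (BlkD.upd (BlkD.upd (fun _ => 21) 0 11) 2 2)) :=
  BlkD.tree_sound (BlkD.pairOk_sound k21_21_11_2) (by decide) hn t21_21_11_2_23 _ _ (by decide +kernel)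

/-- certificates of the pair `(11, 2)`, part 24 -/
def t21_21_11_2_24 : BlkD.Tr :=
  .E 1

lemma s21_21_11_2_24 {n : ℕ} (hn : 5 ≤ n) : NoNd (d21_21_11_2.R : ℤ) d21_21_11_2.H n d21_21_11_2.a d21_21_11_2.b
    (BlkD.inB (BlkD.upd (fun _ => 0) 2 3)
      (BlkD.upd (fun _ => 21) 0 11)) :=
  BlkD.tree_sound (BlkD.pairOk_sound k21_21_11_2) (by decide) hn t21_21_11_2_24 _ _ (by decide +kernel)

/-- certificates of the pair `(11, 2)`, part 25 -/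
def t21_21_11_2_25 : BlkD.Tr :=
  .E 0

lemma s21_21_11_2_25 {n : ℕ} (hn : 5 ≤ n) : NoNd (d21_21_11_2.R : ℤ) d21_21_11_2.H n d21_21_11_2.a d21_21_11_2.b
    (BlkD.inB (BlkD.upd (fun _ => 0) 0 12)
      (fun _ => 21)) :=
  BlkD.tree_sound (BlkD.pairOk_sound k21_21_11_2) (by decide) hn t21_21_11_2_25 _ _ (by decide +kernel)

lemma pr21_21_11_2 {n : ℕ} (hn : 5 ≤ n) : NoPr ((21 : ℕ) : ℤ) ((21 : ℕ) : ℤ) n 11 2 :=
  BlkD.of_root (R := d21_21_11_2.R) (H := d21_21_11_2.H) (a := d21_21_11_2.a) (b := d21_21_11_2.b) (q := 3) (by decide) hn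
    (BlkD.sp 0 11 (BlkD.sp 2 2 (BlkD.sp 0 5 (BlkD.sp 0 2 (BlkD.sp 0 1 (s21_21_11_2_1 hn)
      (s21_21_11_2_2 hn)) (BlkD.sp 0 4 (BlkD.sp 0 3 (s21_21_11_2_3 hn) (s21_21_11_2_4 hn))
      (s21_21_11_2_5 hn))) (BlkD.sp 0 8 (BlkD.sp 0 7 (BlkD.sp 0 6 (BlkD.sp 1 15 (BlkD.sp 1 7
      (s21_21_11_2_6 hn) (s21_21_11_2_7 hn)) (s21_21_11_2_8 hn)) (BlkD.sp 1 14 (BlkD.sp 1 7
      (s21_21_11_2_9 hn) (BlkD.sp 1 11 (s21_21_11_2_10 hn) (s21_21_11_2_11 hn))) (s21_21_11_2_12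
      hn))) (BlkD.sp 1 13 (BlkD.sp 1 6 (s21_21_11_2_13 hn) (BlkD.sp 1 10 (BlkD.sp 1 8
      (s21_21_11_2_14 hn) (s21_21_11_2_15 hn)) (s21_21_11_2_16 hn))) (s21_21_11_2_17 hn))) (BlkD.sp
      0 10 (BlkD.sp 0 9 (BlkD.sp 1 12 (BlkD.sp 1 6 (s21_21_11_2_18 hn) (BlkD.sp 1 9 (s21_21_11_2_19
      hn) (s21_21_11_2_20 hn))) (s21_21_11_2_21 hn)) (s21_21_11_2_22 hn)) (s21_21_11_2_23 hn))))
      (s21_21_11_2_24 hn)) (s21_21_11_2_25 hn))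

/-- the numbers of the pair `(11, 3)`, `R = 21`, `H = 21` -/
def d21_21_11_3 : BlkD.Pd :=
  ⟨21, 21, 3, 11, 3, 4, 1, 3, 0, 4, 8, 0, 2, 2, 6, 0, [0, 8, 16, 16, 16], [0, 6, 12, 14, 16], [⟨1,
    1, 1, 4, 8, [0, 4], [0, 4]⟩, ⟨1, 1, 1, 4, 14, [0, 8], [0, 6]⟩]⟩

lemma k21_21_11_3 : BlkD.pairOk d21_21_11_3 = true := by decide +kernel

/-- certificates of the pair `(11, 3)`, part 1 -/
def t21_21_11_3_1 : BlkD.Tr :=
  .L 4 6 [4, 4, 21, 21] [] [] 100000 1 1 1633334 66667 11111 88889 22222 0 0 0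

lemma s21_21_11_3_1 {n : ℕ} (hn : 5 ≤ n) : NoNd (d21_21_11_3.R : ℤ) d21_21_11_3.H n d21_21_11_3.a d21_21_11_3.b
    (BlkD.inB (fun _ => 0)
      (BlkD.upd (BlkD.upd (BlkD.upd (BlkD.upd (BlkD.upd (fun _ => 21) 0 11) 2 3) 0 5) 0 2) 0 1)) :=
  BlkD.tree_sound (BlkD.pairOk_sound k21_21_11_3) (by decide) hn t21_21_11_3_1 _ _ (by decide +kernel)

/-- certificates of the pair `(11, 3)`, part 2 -/
def t21_21_11_3_2 : BlkD.Tr :=
  .L 4 6 [4, 4, 21, 21] [] [] 100000 1 1 1633334 66667 11111 88889 22222 0 0 0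

lemma s21_21_11_3_2 {n : ℕ} (hn : 5 ≤ n) : NoNd (d21_21_11_3.R : ℤ) d21_21_11_3.H n d21_21_11_3.a d21_21_11_3.b
    (BlkD.inB (BlkD.upd (fun _ => 0) 0 2)
      (BlkD.upd (BlkD.upd (BlkD.upd (BlkD.upd (fun _ => 21) 0 11) 2 3) 0 5) 0 2)) :=
  BlkD.tree_sound (BlkD.pairOk_sound k21_21_11_3) (by decide) hn t21_21_11_3_2 _ _ (by decide +kernel)

/-- certificates of the pair `(11, 3)`, part 3 -/
def t21_21_11_3_3 : BlkD.Tr :=
  .L 4 6 [4, 4, 21, 21] [] [] 100000 1 1 1633334 66667 11111 88889 22222 0 0 0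

lemma s21_21_11_3_3 {n : ℕ} (hn : 5 ≤ n) : NoNd (d21_21_11_3.R : ℤ) d21_21_11_3.H n d21_21_11_3.a d21_21_11_3.b
    (BlkD.inB (BlkD.upd (fun _ => 0) 0 3)
      (BlkD.upd (BlkD.upd (BlkD.upd (BlkD.upd (BlkD.upd (fun _ => 21) 0 11) 2 3) 0 5) 0 4) 0 3)) :=
  BlkD.tree_sound (BlkD.pairOk_sound k21_21_11_3) (by decide) hn t21_21_11_3_3 _ _ (by decide +kernel)

/-- certificates of the pair `(11, 3)`, part 4 -/
def t21_21_11_3_4 : BlkD.Tr :=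
  .S 1 10 (.L 4 6 [4, 4, 21, 21] [] [] 100000 1 1 1633334 66667 11111 88889 22222 0 0 0) (.L 4 6
    [4, 4, 21, 21] [] [] 100000 1 1 1633334 66667 11111 88889 22222 0 0 0)

lemma s21_21_11_3_4 {n : ℕ} (hn : 5 ≤ n) : NoNd (d21_21_11_3.R : ℤ) d21_21_11_3.H n d21_21_11_3.a d21_21_11_3.b
    (BlkD.inB (BlkD.upd (BlkD.upd (fun _ => 0) 0 3) 0 4)
      (BlkD.upd (BlkD.upd (BlkD.upd (BlkD.upd (fun _ => 21) 0 11) 2 3) 0 5) 0 4)) :=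
  BlkD.tree_sound (BlkD.pairOk_sound k21_21_11_3) (by decide) hn t21_21_11_3_4 _ _ (by decide +kernel)

/-- certificates of the pair `(11, 3)`, part 5 -/
def t21_21_11_3_5 : BlkD.Tr :=
  .S 1 10 (.L 4 6 [4, 4, 21, 21] [] [] 100000 1 1 1633334 66667 11111 88889 22222 0 0 0) (.L 4 6
    [4, 4, 21, 21] [] [] 100000 1 1 1633334 66667 11111 88889 22222 0 0 0)

lemma s21_21_11_3_5 {n : ℕ} (hn : 5 ≤ n) : NoNd (d21_21_11_3.R : ℤ) d21_21_11_3.H n d21_21_11_3.a d21_21_11_3.b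
    (BlkD.inB (BlkD.upd (BlkD.upd (fun _ => 0) 0 3) 0 5)
      (BlkD.upd (BlkD.upd (BlkD.upd (fun _ => 21) 0 11) 2 3) 0 5)) :=
  BlkD.tree_sound (BlkD.pairOk_sound k21_21_11_3) (by decide) hn t21_21_11_3_5 _ _ (by decide +kernel)

/-- certificates of the pair `(11, 3)`, part 6 -/
def t21_21_11_3_6 : BlkD.Tr :=
  .S 1 10 (.L 4 6 [4, 4, 21, 21] [] [] 100000 1 1 1633334 66667 11111 88889 22222 0 0 0) (.L 4 6
    [4, 4, 21, 21] [] [] 100000 1 1 1633334 66667 11111 88889 22222 0 0 0)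

lemma s21_21_11_3_6 {n : ℕ} (hn : 5 ≤ n) : NoNd (d21_21_11_3.R : ℤ) d21_21_11_3.H n d21_21_11_3.a d21_21_11_3.b
    (BlkD.inB (BlkD.upd (fun _ => 0) 0 6)
      (BlkD.upd (BlkD.upd (BlkD.upd (BlkD.upd (BlkD.upd (fun _ => 21) 0 11) 2 3) 0 8) 0 7) 0 6)) :=
  BlkD.tree_sound (BlkD.pairOk_sound k21_21_11_3) (by decide) hn t21_21_11_3_6 _ _ (by decide +kernel)

/-- certificates of the pair `(11, 3)`, part 7 -/
def t21_21_11_3_7 : BlkD.Tr :=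
  .L 4 6 [4, 4, 21, 21] [] [] 100000 1 1 1633334 66667 11111 88889 22222 0 0 0

lemma s21_21_11_3_7 {n : ℕ} (hn : 5 ≤ n) : NoNd (d21_21_11_3.R : ℤ) d21_21_11_3.H n d21_21_11_3.a d21_21_11_3.b
    (BlkD.inB (BlkD.upd (BlkD.upd (fun _ => 0) 0 6) 0 7)
      (BlkD.upd (BlkD.upd (BlkD.upd (BlkD.upd (fun _ => 21) 0 11) 2 3) 0 8) 0 7)) :=
  BlkD.tree_sound (BlkD.pairOk_sound k21_21_11_3) (by decide) hn t21_21_11_3_7 _ _ (by decide +kernel)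

/-- certificates of the pair `(11, 3)`, part 8 -/
def t21_21_11_3_8 : BlkD.Tr :=
  .L 4 6 [4, 4, 21, 21] [] [] 100000 1 1 1633334 66667 11111 88889 22222 0 0 0

lemma s21_21_11_3_8 {n : ℕ} (hn : 5 ≤ n) : NoNd (d21_21_11_3.R : ℤ) d21_21_11_3.H n d21_21_11_3.a d21_21_11_3.b
    (BlkD.inB (BlkD.upd (BlkD.upd (fun _ => 0) 0 6) 0 8)
      (BlkD.upd (BlkD.upd (BlkD.upd (fun _ => 21) 0 11) 2 3) 0 8)) :=
  BlkD.tree_sound (BlkD.pairOk_sound k21_21_11_3) (by decide) hn t21_21_11_3_8 _ _ (by decide +kernel)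

/-- certificates of the pair `(11, 3)`, part 9 -/
def t21_21_11_3_9 : BlkD.Tr :=
  .S 0 10 (.L 4 6 [4, 4, 21, 21] [] [] 100000 1 1 1633334 66667 11111 88889 22222 0 0 0) (.L 4 6
    [4, 4, 21, 21] [] [] 100000 1 1 1633334 66667 11111 88889 22222 0 0 0)

lemma s21_21_11_3_9 {n : ℕ} (hn : 5 ≤ n) : NoNd (d21_21_11_3.R : ℤ) d21_21_11_3.H n d21_21_11_3.a d21_21_11_3.b
    (BlkD.inB (BlkD.upd (BlkD.upd (fun _ => 0) 0 6) 0 9)
      (BlkD.upd (BlkD.upd (fun _ => 21) 0 11) 2 3)) :=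
  BlkD.tree_sound (BlkD.pairOk_sound k21_21_11_3) (by decide) hn t21_21_11_3_9 _ _ (by decide +kernel)

/-- certificates of the pair `(11, 3)`, part 10 -/
def t21_21_11_3_10 : BlkD.Tr :=
  .E 1

lemma s21_21_11_3_10 {n : ℕ} (hn : 5 ≤ n) : NoNd (d21_21_11_3.R : ℤ) d21_21_11_3.H n d21_21_11_3.a d21_21_11_3.b
    (BlkD.inB (BlkD.upd (fun _ => 0) 2 4)
      (BlkD.upd (fun _ => 21) 0 11)) :=
  BlkD.tree_sound (BlkD.pairOk_sound k21_21_11_3) (by decide) hn t21_21_11_3_10 _ _ (by decide +kernel)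

/-- certificates of the pair `(11, 3)`, part 11 -/
def t21_21_11_3_11 : BlkD.Tr :=
  .E 0

lemma s21_21_11_3_11 {n : ℕ} (hn : 5 ≤ n) : NoNd (d21_21_11_3.R : ℤ) d21_21_11_3.H n d21_21_11_3.a d21_21_11_3.b
    (BlkD.inB (BlkD.upd (fun _ => 0) 0 12)
      (fun _ => 21)) :=
  BlkD.tree_sound (BlkD.pairOk_sound k21_21_11_3) (by decide) hn t21_21_11_3_11 _ _ (by decide +kernel)

lemma pr21_21_11_3 {n : ℕ} (hn : 5 ≤ n) : NoPr ((21 : ℕ) : ℤ) ((21 : ℕ) : ℤ) n 11 3 :=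
  BlkD.of_root (R := d21_21_11_3.R) (H := d21_21_11_3.H) (a := d21_21_11_3.a) (b := d21_21_11_3.b) (q := 3) (by decide) hn
    (BlkD.sp 0 11 (BlkD.sp 2 3 (BlkD.sp 0 5 (BlkD.sp 0 2 (BlkD.sp 0 1 (s21_21_11_3_1 hn)
      (s21_21_11_3_2 hn)) (BlkD.sp 0 4 (BlkD.sp 0 3 (s21_21_11_3_3 hn) (s21_21_11_3_4 hn))
      (s21_21_11_3_5 hn))) (BlkD.sp 0 8 (BlkD.sp 0 7 (BlkD.sp 0 6 (s21_21_11_3_6 hn) (s21_21_11_3_7
      hn)) (s21_21_11_3_8 hn)) (s21_21_11_3_9 hn))) (s21_21_11_3_10 hn)) (s21_21_11_3_11 hn))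

end BlkC

end Pool.Agent.Lib.MP_f04ccf_co
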