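import Pool.Agent.Lib.MP_f04ccf_co.M.BlkT

/-!
MP_f04ccf_co, block certificate, data `R = 21`, `H = 21`, part 24 (generated, helper99:
bd10.cpp, gen2.py).
-/

set_option autoImplicit false
set_option maxRecDepth 100000

namespace Pool.Agent.Lib.MP_f04ccf_co

namespace BlkC

/-- the numbers of the pair `(11, 4)`, `R = 21`, `H = 21` -/
def d21_21_11_4 : BlkD.Pd :=
  ⟨21, 21, 3, 11, 4, 3, 0, 3, 0, 4, 4, 0, 0, 4, 4, 0, [0, 4, 8, 12], [0, 4, 8, 12], [⟨1, 1, 1, 4,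
    8, [0, 4], [0, 4]⟩]⟩

lemma k21_21_11_4 : BlkD.pairOk d21_21_11_4 = true := by decide +kernel

/-- certificates of the pair `(11, 4)`, part 1 -/
def t21_21_11_4_1 : BlkD.Tr :=
  .L 4 4 [4, 21, 21, 21, 21] [] [] 100000 0 0 1700000 100000 50000 100000 50000 0 0 0

lemma s21_21_11_4_1 {n : ℕ} (hn : 5 ≤ n) : NoNd (d21_21_11_4.R : ℤ) d21_21_11_4.H n d21_21_11_4.a d21_21_11_4.b
    (BlkD.inB (fun _ => 0)
      (BlkD.upd (BlkD.upd (BlkD.upd (BlkD.upd (BlkD.upd (fun _ => 21) 0 11) 2 4) 0 5) 0 2) 0 1)) :=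
  BlkD.tree_sound (BlkD.pairOk_sound k21_21_11_4) (by decide) hn t21_21_11_4_1 _ _ (by decide +kernel)

/-- certificates of the pair `(11, 4)`, part 2 -/
def t21_21_11_4_2 : BlkD.Tr :=
  .L 4 4 [4, 21, 21, 21, 21] [] [] 100000 0 0 1700000 100000 50000 100000 50000 0 0 0

lemma s21_21_11_4_2 {n : ℕ} (hn : 5 ≤ n) : NoNd (d21_21_11_4.R : ℤ) d21_21_11_4.H n d21_21_11_4.a d21_21_11_4.b
    (BlkD.inB (BlkD.upd (fun _ => 0) 0 2)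
      (BlkD.upd (BlkD.upd (BlkD.upd (BlkD.upd (fun _ => 21) 0 11) 2 4) 0 5) 0 2)) :=
  BlkD.tree_sound (BlkD.pairOk_sound k21_21_11_4) (by decide) hn t21_21_11_4_2 _ _ (by decide +kernel)

/-- certificates of the pair `(11, 4)`, part 3 -/
def t21_21_11_4_3 : BlkD.Tr :=
  .L 4 4 [4, 21, 21, 21, 21] [] [] 100000 0 0 1700000 100000 50000 100000 50000 0 0 0

lemma s21_21_11_4_3 {n : ℕ} (hn : 5 ≤ n) : NoNd (d21_21_11_4.R : ℤ) d21_21_11_4.H n d21_21_11_4.a d21_21_11_4.b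
    (BlkD.inB (BlkD.upd (fun _ => 0) 0 3)
      (BlkD.upd (BlkD.upd (BlkD.upd (BlkD.upd (BlkD.upd (fun _ => 21) 0 11) 2 4) 0 5) 0 4) 0 3)) :=
  BlkD.tree_sound (BlkD.pairOk_sound k21_21_11_4) (by decide) hn t21_21_11_4_3 _ _ (by decide +kernel)

/-- certificates of the pair `(11, 4)`, part 4 -/
def t21_21_11_4_4 : BlkD.Tr :=
  .L 4 4 [4, 21, 21, 21, 21] [] [] 100000 0 0 1700000 100000 50000 100000 50000 0 0 0

lemma s21_21_11_4_4 {n : ℕ} (hn : 5 ≤ n) : NoNd (d21_21_11_4.R : ℤ) d21_21_11_4.H n d21_21_11_4.a d21_21_11_4.b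
    (BlkD.inB (BlkD.upd (BlkD.upd (fun _ => 0) 0 3) 0 4)
      (BlkD.upd (BlkD.upd (BlkD.upd (BlkD.upd (fun _ => 21) 0 11) 2 4) 0 5) 0 4)) :=
  BlkD.tree_sound (BlkD.pairOk_sound k21_21_11_4) (by decide) hn t21_21_11_4_4 _ _ (by decide +kernel)

/-- certificates of the pair `(11, 4)`, part 5 -/
def t21_21_11_4_5 : BlkD.Tr :=
  .S 1 10 (.L 4 4 [4, 21, 21, 21, 21] [] [] 100000 0 0 1700000 100000 50000 100000 50000 0 0 0) (.L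
    4 4 [4, 21, 21, 21, 21] [] [] 100000 0 0 1700000 100000 50000 100000 50000 0 0 0)

lemma s21_21_11_4_5 {n : ℕ} (hn : 5 ≤ n) : NoNd (d21_21_11_4.R : ℤ) d21_21_11_4.H n d21_21_11_4.a d21_21_11_4.b
    (BlkD.inB (BlkD.upd (BlkD.upd (fun _ => 0) 0 3) 0 5)
      (BlkD.upd (BlkD.upd (BlkD.upd (fun _ => 21) 0 11) 2 4) 0 5)) :=
  BlkD.tree_sound (BlkD.pairOk_sound k21_21_11_4) (by decide) hn t21_21_11_4_5 _ _ (by decide +kernel)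

/-- certificates of the pair `(11, 4)`, part 6 -/
def t21_21_11_4_6 : BlkD.Tr :=
  .S 1 10 (.L 4 4 [4, 21, 21, 21, 21] [] [] 100000 0 0 1700000 100000 50000 100000 50000 0 0 0) (.L
    4 4 [4, 21, 21, 21, 21] [] [] 100000 0 0 1700000 100000 50000 100000 50000 0 0 0)

lemma s21_21_11_4_6 {n : ℕ} (hn : 5 ≤ n) : NoNd (d21_21_11_4.R : ℤ) d21_21_11_4.H n d21_21_11_4.a d21_21_11_4.b
    (BlkD.inB (BlkD.upd (fun _ => 0) 0 6)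
      (BlkD.upd (BlkD.upd (BlkD.upd (BlkD.upd (BlkD.upd (fun _ => 21) 0 11) 2 4) 0 8) 0 7) 0 6)) :=
  BlkD.tree_sound (BlkD.pairOk_sound k21_21_11_4) (by decide) hn t21_21_11_4_6 _ _ (by decide +kernel)

/-- certificates of the pair `(11, 4)`, part 7 -/
def t21_21_11_4_7 : BlkD.Tr :=
  .S 1 10 (.L 4 4 [4, 21, 21, 21, 21] [] [] 100000 0 0 1700000 100000 50000 100000 50000 0 0 0) (.L
    4 4 [4, 21, 21, 21, 21] [] [] 100000 0 0 1700000 100000 50000 100000 50000 0 0 0)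

lemma s21_21_11_4_7 {n : ℕ} (hn : 5 ≤ n) : NoNd (d21_21_11_4.R : ℤ) d21_21_11_4.H n d21_21_11_4.a d21_21_11_4.b
    (BlkD.inB (BlkD.upd (BlkD.upd (fun _ => 0) 0 6) 0 7)
      (BlkD.upd (BlkD.upd (BlkD.upd (BlkD.upd (fun _ => 21) 0 11) 2 4) 0 8) 0 7)) :=
  BlkD.tree_sound (BlkD.pairOk_sound k21_21_11_4) (by decide) hn t21_21_11_4_7 _ _ (by decide +kernel)

/-- certificates of the pair `(11, 4)`, part 8 -/
def t21_21_11_4_8 : BlkD.Tr :=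
  .S 1 10 (.L 4 4 [4, 21, 21, 21, 21] [] [] 100000 0 0 1700000 100000 50000 100000 50000 0 0 0) (.L
    4 4 [4, 21, 21, 21, 21] [] [] 100000 0 0 1700000 100000 50000 100000 50000 0 0 0)

lemma s21_21_11_4_8 {n : ℕ} (hn : 5 ≤ n) : NoNd (d21_21_11_4.R : ℤ) d21_21_11_4.H n d21_21_11_4.a d21_21_11_4.b
    (BlkD.inB (BlkD.upd (BlkD.upd (fun _ => 0) 0 6) 0 8)
      (BlkD.upd (BlkD.upd (BlkD.upd (fun _ => 21) 0 11) 2 4) 0 8)) :=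
  BlkD.tree_sound (BlkD.pairOk_sound k21_21_11_4) (by decide) hn t21_21_11_4_8 _ _ (by decide +kernel)

/-- certificates of the pair `(11, 4)`, part 9 -/
def t21_21_11_4_9 : BlkD.Tr :=
  .S 0 9 (.L 4 4 [4, 21, 21, 21, 21] [] [] 100000 0 0 1700000 100000 50000 100000 50000 0 0 0) (.L
    4 4 [4, 21, 21, 21, 21] [] [] 100000 0 0 1700000 100000 50000 100000 50000 0 0 0)

lemma s21_21_11_4_9 {n : ℕ} (hn : 5 ≤ n) : NoNd (d21_21_11_4.R : ℤ) d21_21_11_4.H n d21_21_11_4.a d21_21_11_4.b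
    (BlkD.inB (BlkD.upd (BlkD.upd (fun _ => 0) 0 6) 0 9)
      (BlkD.upd (BlkD.upd (BlkD.upd (fun _ => 21) 0 11) 2 4) 0 10)) :=
  BlkD.tree_sound (BlkD.pairOk_sound k21_21_11_4) (by decide) hn t21_21_11_4_9 _ _ (by decide +kernel)

/-- certificates of the pair `(11, 4)`, part 10 -/
def t21_21_11_4_10 : BlkD.Tr :=
  .L 4 4 [4, 21, 21, 21, 21] [] [] 100000 0 0 1700000 100000 50000 100000 50000 0 0 0

lemma s21_21_11_4_10 {n : ℕ} (hn : 5 ≤ n) : NoNd (d21_21_11_4.R : ℤ) d21_21_11_4.H n d21_21_11_4.a d21_21_11_4.b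
    (BlkD.inB (BlkD.upd (BlkD.upd (BlkD.upd (fun _ => 0) 0 6) 0 9) 0 11)
      (BlkD.upd (BlkD.upd (fun _ => 21) 0 11) 2 4)) :=
  BlkD.tree_sound (BlkD.pairOk_sound k21_21_11_4) (by decide) hn t21_21_11_4_10 _ _ (by decide +kernel)

/-- certificates of the pair `(11, 4)`, part 11 -/
def t21_21_11_4_11 : BlkD.Tr :=
  .E 1

lemma s21_21_11_4_11 {n : ℕ} (hn : 5 ≤ n) : NoNd (d21_21_11_4.R : ℤ) d21_21_11_4.H n d21_21_11_4.a d21_21_11_4.b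
    (BlkD.inB (BlkD.upd (fun _ => 0) 2 5)
      (BlkD.upd (fun _ => 21) 0 11)) :=
  BlkD.tree_sound (BlkD.pairOk_sound k21_21_11_4) (by decide) hn t21_21_11_4_11 _ _ (by decide +kernel)

/-- certificates of the pair `(11, 4)`, part 12 -/
def t21_21_11_4_12 : BlkD.Tr :=
  .E 0

lemma s21_21_11_4_12 {n : ℕ} (hn : 5 ≤ n) : NoNd (d21_21_11_4.R : ℤ) d21_21_11_4.H n d21_21_11_4.a d21_21_11_4.b
    (BlkD.inB (BlkD.upd (fun _ => 0) 0 12)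
      (fun _ => 21)) :=
  BlkD.tree_sound (BlkD.pairOk_sound k21_21_11_4) (by decide) hn t21_21_11_4_12 _ _ (by decide +kernel)

lemma pr21_21_11_4 {n : ℕ} (hn : 5 ≤ n) : NoPr ((21 : ℕ) : ℤ) ((21 : ℕ) : ℤ) n 11 4 :=
  BlkD.of_root (R := d21_21_11_4.R) (H := d21_21_11_4.H) (a := d21_21_11_4.a) (b := d21_21_11_4.b) (q := 3) (by decide) hn
    (BlkD.sp 0 11 (BlkD.sp 2 4 (BlkD.sp 0 5 (BlkD.sp 0 2 (BlkD.sp 0 1 (s21_21_11_4_1 hn)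
      (s21_21_11_4_2 hn)) (BlkD.sp 0 4 (BlkD.sp 0 3 (s21_21_11_4_3 hn) (s21_21_11_4_4 hn))
      (s21_21_11_4_5 hn))) (BlkD.sp 0 8 (BlkD.sp 0 7 (BlkD.sp 0 6 (s21_21_11_4_6 hn) (s21_21_11_4_7
      hn)) (s21_21_11_4_8 hn)) (BlkD.sp 0 10 (s21_21_11_4_9 hn) (s21_21_11_4_10 hn))))
      (s21_21_11_4_11 hn)) (s21_21_11_4_12 hn))

/-- the numbers of the pair `(12, 0)`, `R = 21`, `H = 21` -/
def d21_21_12_0 : BlkD.Pd :=
  ⟨21, 21, 3, 12, 0, 6, 0, 1, 0, 4, 4, 0, 0, 4, 4, 0, [0, 4, 8, 12, 16, 20, 24], [0, 4, 8, 12, 16,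
    20, 24], [⟨1, 1, 1, 4, 8, [0, 4], [0, 4]⟩]⟩

/-- the certificates of the pair `(12, 0)` -/
def t21_21_12_0 : BlkD.Tr :=
  .S 0 12 (.S 2 0 (.S 0 6 (.L 4 4 [4] [] [] 100000 0 0 1300000 100000 0 100000 0 0 0 0) (.L 4 4 [4]
    [] [] 100000 0 0 1300000 100000 0 100000 0 0 0 0)) (.E 1)) (.E 0)

lemma pr21_21_12_0 {n : ℕ} (hn : 5 ≤ n) : NoPr ((21 : ℕ) : ℤ) ((21 : ℕ) : ℤ) n 12 0 :=
  BlkD.pair_sound (d := d21_21_12_0) (by decide +kernel) hn (by decide) (tr := t21_21_12_0)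
    (by decide +kernel) rfl rfl rfl rfl

/-- the numbers of the pair `(12, 1)`, `R = 21`, `H = 21` -/
def d21_21_12_1 : BlkD.Pd :=
  ⟨21, 21, 3, 12, 1, 5, 1, 1, 0, 4, 8, 0, 0, 4, 4, 0, [0, 8, 16, 20, 20, 20], [0, 4, 8, 12, 16,
    20], [⟨1, 1, 1, 4, 8, [0, 4], [0, 4]⟩, ⟨1, 1, 1, 4, 12, [0, 8], [0, 4]⟩]⟩

lemma k21_21_12_1 : BlkD.pairOk d21_21_12_1 = true := by decide +kernel

/-- certificates of the pair `(12, 1)`, part 1 -/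
def t21_21_12_1_1 : BlkD.Tr :=
  .L 4 6 [4, 4] [] [] 100000 40000 40000 1440000 80000 0 100000 0 0 0 0

lemma s21_21_12_1_1 {n : ℕ} (hn : 5 ≤ n) : NoNd (d21_21_12_1.R : ℤ) d21_21_12_1.H n d21_21_12_1.a d21_21_12_1.b
    (BlkD.inB (fun _ => 0)
      (BlkD.upd (BlkD.upd (BlkD.upd (BlkD.upd (fun _ => 21) 0 12) 2 1) 0 6) 0 3)) :=
  BlkD.tree_sound (BlkD.pairOk_sound k21_21_12_1) (by decide) hn t21_21_12_1_1 _ _ (by decide +kernel)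

/-- certificates of the pair `(12, 1)`, part 2 -/
def t21_21_12_1_2 : BlkD.Tr :=
  .L 4 6 [4, 4] [] [] 100000 40000 40000 1440000 80000 0 100000 0 0 0 0

lemma s21_21_12_1_2 {n : ℕ} (hn : 5 ≤ n) : NoNd (d21_21_12_1.R : ℤ) d21_21_12_1.H n d21_21_12_1.a d21_21_12_1.b
    (BlkD.inB (BlkD.upd (fun _ => 0) 0 4)
      (BlkD.upd (BlkD.upd (BlkD.upd (fun _ => 21) 0 12) 2 1) 0 6)) :=
  BlkD.tree_sound (BlkD.pairOk_sound k21_21_12_1) (by decide) hn t21_21_12_1_2 _ _ (by decide +kernel)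

/-- certificates of the pair `(12, 1)`, part 3 -/
def t21_21_12_1_3 : BlkD.Tr :=
  .L 4 6 [4, 4] [] [] 100000 40000 40000 1440000 80000 0 100000 0 0 0 0

lemma s21_21_12_1_3 {n : ℕ} (hn : 5 ≤ n) : NoNd (d21_21_12_1.R : ℤ) d21_21_12_1.H n d21_21_12_1.a d21_21_12_1.b
    (BlkD.inB (BlkD.upd (fun _ => 0) 0 7)
      (BlkD.upd (BlkD.upd (fun _ => 21) 0 12) 2 1)) :=
  BlkD.tree_sound (BlkD.pairOk_sound k21_21_12_1) (by decide) hn t21_21_12_1_3 _ _ (by decide +kernel)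

/-- certificates of the pair `(12, 1)`, part 4 -/
def t21_21_12_1_4 : BlkD.Tr :=
  .E 1

lemma s21_21_12_1_4 {n : ℕ} (hn : 5 ≤ n) : NoNd (d21_21_12_1.R : ℤ) d21_21_12_1.H n d21_21_12_1.a d21_21_12_1.b
    (BlkD.inB (BlkD.upd (fun _ => 0) 2 2)
      (BlkD.upd (fun _ => 21) 0 12)) :=
  BlkD.tree_sound (BlkD.pairOk_sound k21_21_12_1) (by decide) hn t21_21_12_1_4 _ _ (by decide +kernel)

/-- certificates of the pair `(12, 1)`, part 5 -/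
def t21_21_12_1_5 : BlkD.Tr :=
  .E 0

lemma s21_21_12_1_5 {n : ℕ} (hn : 5 ≤ n) : NoNd (d21_21_12_1.R : ℤ) d21_21_12_1.H n d21_21_12_1.a d21_21_12_1.b
    (BlkD.inB (BlkD.upd (fun _ => 0) 0 13)
      (fun _ => 21)) :=
  BlkD.tree_sound (BlkD.pairOk_sound k21_21_12_1) (by decide) hn t21_21_12_1_5 _ _ (by decide +kernel)

lemma pr21_21_12_1 {n : ℕ} (hn : 5 ≤ n) : NoPr ((21 : ℕ) : ℤ) ((21 : ℕ) : ℤ) n 12 1 :=
  BlkD.of_root (R := d21_21_12_1.R) (H := d21_21_12_1.H) (a := d21_21_12_1.a) (b := d21_21_12_1.b) (q := 3) (by decide) hn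
    (BlkD.sp 0 12 (BlkD.sp 2 1 (BlkD.sp 0 6 (BlkD.sp 0 3 (s21_21_12_1_1 hn) (s21_21_12_1_2 hn))
      (s21_21_12_1_3 hn)) (s21_21_12_1_4 hn)) (s21_21_12_1_5 hn))

/-- the numbers of the pair `(12, 2)`, `R = 21`, `H = 21` -/
def d21_21_12_2 : BlkD.Pd :=
  ⟨21, 21, 3, 12, 2, 4, 1, 2, 0, 4, 8, 0, 0, 4, 4, 0, [0, 8, 16, 16, 16], [0, 4, 8, 12, 16], [⟨1,
    1, 1, 4, 8, [0, 4], [0, 4]⟩, ⟨1, 1, 1, 4, 12, [0, 8], [0, 4]⟩]⟩

lemma k21_21_12_2 : BlkD.pairOk d21_21_12_2 = true := by decide +kernel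

/-- certificates of the pair `(12, 2)`, part 1 -/
def t21_21_12_2_1 : BlkD.Tr :=
  .L 4 6 [4, 4, 21] [] [] 100000 1 1 1633333 66667 0 100000 0 0 0 0

lemma s21_21_12_2_1 {n : ℕ} (hn : 5 ≤ n) : NoNd (d21_21_12_2.R : ℤ) d21_21_12_2.H n d21_21_12_2.a d21_21_12_2.b
    (BlkD.inB (fun _ => 0)
      (BlkD.upd (BlkD.upd (BlkD.upd (BlkD.upd (BlkD.upd (fun _ => 21) 0 12) 2 2) 0 6) 0 3) 0 1)) :=
  BlkD.tree_sound (BlkD.pairOk_sound k21_21_12_2) (by decide) hn t21_21_12_2_1 _ _ (by decide +kernel)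

/-- certificates of the pair `(12, 2)`, part 2 -/
def t21_21_12_2_2 : BlkD.Tr :=
  .L 4 6 [4, 4, 21] [] [] 100000 1 1 1633333 66667 0 100000 0 0 0 0

lemma s21_21_12_2_2 {n : ℕ} (hn : 5 ≤ n) : NoNd (d21_21_12_2.R : ℤ) d21_21_12_2.H n d21_21_12_2.a d21_21_12_2.b
    (BlkD.inB (BlkD.upd (fun _ => 0) 0 2)
      (BlkD.upd (BlkD.upd (BlkD.upd (BlkD.upd (fun _ => 21) 0 12) 2 2) 0 6) 0 3)) :=
  BlkD.tree_sound (BlkD.pairOk_sound k21_21_12_2) (by decide) hn t21_21_12_2_2 _ _ (by decide +kernel)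

/-- certificates of the pair `(12, 2)`, part 3 -/
def t21_21_12_2_3 : BlkD.Tr :=
  .L 4 6 [4, 4, 21] [] [] 100000 1 1 1633333 66667 0 100000 0 0 0 0

lemma s21_21_12_2_3 {n : ℕ} (hn : 5 ≤ n) : NoNd (d21_21_12_2.R : ℤ) d21_21_12_2.H n d21_21_12_2.a d21_21_12_2.b
    (BlkD.inB (BlkD.upd (fun _ => 0) 0 4)
      (BlkD.upd (BlkD.upd (BlkD.upd (BlkD.upd (fun _ => 21) 0 12) 2 2) 0 6) 0 5)) :=
  BlkD.tree_sound (BlkD.pairOk_sound k21_21_12_2) (by decide) hn t21_21_12_2_3 _ _ (by decide +kernel)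

/-- certificates of the pair `(12, 2)`, part 4 -/
def t21_21_12_2_4 : BlkD.Tr :=
  .L 4 6 [4, 4, 21] [] [] 100000 1 1 1633333 66667 0 100000 0 0 0 0

lemma s21_21_12_2_4 {n : ℕ} (hn : 5 ≤ n) : NoNd (d21_21_12_2.R : ℤ) d21_21_12_2.H n d21_21_12_2.a d21_21_12_2.b
    (BlkD.inB (BlkD.upd (BlkD.upd (fun _ => 0) 0 4) 0 6)
      (BlkD.upd (BlkD.upd (BlkD.upd (fun _ => 21) 0 12) 2 2) 0 6)) :=
  BlkD.tree_sound (BlkD.pairOk_sound k21_21_12_2) (by decide) hn t21_21_12_2_4 _ _ (by decide +kernel)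

/-- certificates of the pair `(12, 2)`, part 5 -/
def t21_21_12_2_5 : BlkD.Tr :=
  .L 4 6 [4, 4, 21] [] [] 100000 1 1 1633333 66667 0 100000 0 0 0 0

lemma s21_21_12_2_5 {n : ℕ} (hn : 5 ≤ n) : NoNd (d21_21_12_2.R : ℤ) d21_21_12_2.H n d21_21_12_2.a d21_21_12_2.b
    (BlkD.inB (BlkD.upd (fun _ => 0) 0 7)
      (BlkD.upd (BlkD.upd (BlkD.upd (fun _ => 21) 0 12) 2 2) 0 9)) :=
  BlkD.tree_sound (BlkD.pairOk_sound k21_21_12_2) (by decide) hn t21_21_12_2_5 _ _ (by decide +kernel)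

/-- certificates of the pair `(12, 2)`, part 6 -/
def t21_21_12_2_6 : BlkD.Tr :=
  .L 4 6 [4, 4, 21] [] [] 100000 1 1 1633333 66667 0 100000 0 0 0 0

lemma s21_21_12_2_6 {n : ℕ} (hn : 5 ≤ n) : NoNd (d21_21_12_2.R : ℤ) d21_21_12_2.H n d21_21_12_2.a d21_21_12_2.b
    (BlkD.inB (BlkD.upd (BlkD.upd (fun _ => 0) 0 7) 0 10)
      (BlkD.upd (BlkD.upd (fun _ => 21) 0 12) 2 2)) :=
  BlkD.tree_sound (BlkD.pairOk_sound k21_21_12_2) (by decide) hn t21_21_12_2_6 _ _ (by decide +kernel)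

/-- certificates of the pair `(12, 2)`, part 7 -/
def t21_21_12_2_7 : BlkD.Tr :=
  .E 1

lemma s21_21_12_2_7 {n : ℕ} (hn : 5 ≤ n) : NoNd (d21_21_12_2.R : ℤ) d21_21_12_2.H n d21_21_12_2.a d21_21_12_2.b
    (BlkD.inB (BlkD.upd (fun _ => 0) 2 3)
      (BlkD.upd (fun _ => 21) 0 12)) :=
  BlkD.tree_sound (BlkD.pairOk_sound k21_21_12_2) (by decide) hn t21_21_12_2_7 _ _ (by decide +kernel)

/-- certificates of the pair `(12, 2)`, part 8 -/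
def t21_21_12_2_8 : BlkD.Tr :=
  .E 0

lemma s21_21_12_2_8 {n : ℕ} (hn : 5 ≤ n) : NoNd (d21_21_12_2.R : ℤ) d21_21_12_2.H n d21_21_12_2.a d21_21_12_2.b
    (BlkD.inB (BlkD.upd (fun _ => 0) 0 13)
      (fun _ => 21)) :=
  BlkD.tree_sound (BlkD.pairOk_sound k21_21_12_2) (by decide) hn t21_21_12_2_8 _ _ (by decide +kernel)

lemma pr21_21_12_2 {n : ℕ} (hn : 5 ≤ n) : NoPr ((21 : ℕ) : ℤ) ((21 : ℕ) : ℤ) n 12 2 :=
  BlkD.of_root (R := d21_21_12_2.R) (H := d21_21_12_2.H) (a := d21_21_12_2.a) (b := d21_21_12_2.b) (q := 3) (by decide) hn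
    (BlkD.sp 0 12 (BlkD.sp 2 2 (BlkD.sp 0 6 (BlkD.sp 0 3 (BlkD.sp 0 1 (s21_21_12_2_1 hn)
      (s21_21_12_2_2 hn)) (BlkD.sp 0 5 (s21_21_12_2_3 hn) (s21_21_12_2_4 hn))) (BlkD.sp 0 9
      (s21_21_12_2_5 hn) (s21_21_12_2_6 hn))) (s21_21_12_2_7 hn)) (s21_21_12_2_8 hn))

end BlkC

end Pool.Agent.Lib.MP_f04ccf_co
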