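import Pool.Agent.Lib.MP_f04ccf_co.M.BlkT

/-!
MP_f04ccf_co, block certificate, data `R = 21`, `H = 21`, part 3 (generated, helper99:
bd10.cpp, gen2.py).
-/

set_option autoImplicit false
set_option maxRecDepth 100000

namespace Pool.Agent.Lib.MP_f04ccf_co

namespace BlkC

/-- the numbers of the pair `(6, 5)`, `R = 21`, `H = 21` -/
def d21_21_6_5 : BlkD.Pd :=
  ⟨21, 21, 3, 6, 5, 7, 4, 2, 0, 4, 12, 0, 2, 2, 10, 0, [0, 12, 24, 28, 28, 28, 28, 28], [0, 10, 18,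
    20, 22, 24, 26, 28], [⟨1, 1, 1, 4, 8, [0, 4], [0, 4]⟩, ⟨1, 1, 1, 6, 12, [0, 6], [0, 6]⟩, ⟨1, 1,
    1, 6, 16, [0, 8], [0, 8]⟩, ⟨2, 1, 1, 6, 24, [0, 10, 14], [0, 10]⟩, ⟨2, 2, 1, 4, 32, [0, 12,
    18], [0, 10, 14]⟩]⟩

lemma k21_21_6_5 : BlkD.pairOk d21_21_6_5 = true := by decide +kernel

/-- certificates of the pair `(6, 5)`, part 1 -/
def t21_21_6_5_1 : BlkD.Tr :=
  .L 6 7 [4, 4, 5, 5, 5, 21] [] [] 100000 73759 73759 965958 93617 0 93617 59574 0 0 26596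

lemma s21_21_6_5_1 {n : ℕ} (hn : 5 ≤ n) : NoNd (d21_21_6_5.R : ℤ) d21_21_6_5.H n d21_21_6_5.a d21_21_6_5.b
    (BlkD.inB (fun _ => 0)
      (BlkD.upd (BlkD.upd (BlkD.upd (BlkD.upd (BlkD.upd (fun _ => 21) 0 6) 2 5) 0 3) 0 1) 0 0)) :=
  BlkD.tree_sound (BlkD.pairOk_sound k21_21_6_5) (by decide) hn t21_21_6_5_1 _ _ (by decide +kernel)

/-- certificates of the pair `(6, 5)`, part 2 -/
def t21_21_6_5_2 : BlkD.Tr :=
  .L 6 7 [4, 4, 5, 5, 5, 21] [] [] 100000 73759 73759 965958 93617 0 93617 59574 0 0 26596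

lemma s21_21_6_5_2 {n : ℕ} (hn : 5 ≤ n) : NoNd (d21_21_6_5.R : ℤ) d21_21_6_5.H n d21_21_6_5.a d21_21_6_5.b
    (BlkD.inB (BlkD.upd (fun _ => 0) 0 1)
      (BlkD.upd (BlkD.upd (BlkD.upd (BlkD.upd (BlkD.upd (BlkD.upd (fun _ => 21) 0 6) 2 5) 0 3) 0 1) 1 10) 1 5)) :=
  BlkD.tree_sound (BlkD.pairOk_sound k21_21_6_5) (by decide) hn t21_21_6_5_2 _ _ (by decide +kernel)

/-- certificates of the pair `(6, 5)`, part 3 -/
def t21_21_6_5_3 : BlkD.Tr :=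
  .L 6 7 [4, 4, 5, 5, 5, 21] [] [] 100000 73759 73759 965958 93617 0 93617 59574 0 0 26596

lemma s21_21_6_5_3 {n : ℕ} (hn : 5 ≤ n) : NoNd (d21_21_6_5.R : ℤ) d21_21_6_5.H n d21_21_6_5.a d21_21_6_5.b
    (BlkD.inB (BlkD.upd (BlkD.upd (fun _ => 0) 0 1) 1 6)
      (BlkD.upd (BlkD.upd (BlkD.upd (BlkD.upd (BlkD.upd (fun _ => 21) 0 6) 2 5) 0 3) 0 1) 1 10)) :=
  BlkD.tree_sound (BlkD.pairOk_sound k21_21_6_5) (by decide) hn t21_21_6_5_3 _ _ (by decide +kernel)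

/-- certificates of the pair `(6, 5)`, part 4 -/
def t21_21_6_5_4 : BlkD.Tr :=
  .L 6 7 [4, 4, 5, 5, 5, 21] [] [] 100000 73759 73759 965958 93617 0 93617 59574 0 0 26596

lemma s21_21_6_5_4 {n : ℕ} (hn : 5 ≤ n) : NoNd (d21_21_6_5.R : ℤ) d21_21_6_5.H n d21_21_6_5.a d21_21_6_5.b
    (BlkD.inB (BlkD.upd (BlkD.upd (fun _ => 0) 0 1) 1 11)
      (BlkD.upd (BlkD.upd (BlkD.upd (BlkD.upd (fun _ => 21) 0 6) 2 5) 0 3) 0 1)) :=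
  BlkD.tree_sound (BlkD.pairOk_sound k21_21_6_5) (by decide) hn t21_21_6_5_4 _ _ (by decide +kernel)

/-- certificates of the pair `(6, 5)`, part 5 -/
def t21_21_6_5_5 : BlkD.Tr :=
  .L 6 7 [4, 4, 5, 5, 5, 21] [] [] 100000 25001 25001 1286669 12917 0 12917 61667 0 26667 25000

lemma s21_21_6_5_5 {n : ℕ} (hn : 5 ≤ n) : NoNd (d21_21_6_5.R : ℤ) d21_21_6_5.H n d21_21_6_5.a d21_21_6_5.b
    (BlkD.inB (BlkD.upd (fun _ => 0) 0 2)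
      (BlkD.upd (BlkD.upd (BlkD.upd (BlkD.upd (BlkD.upd (BlkD.upd (BlkD.upd (fun _ => 21) 0 6) 2 5) 0 3) 0 2) 1 19) 1 9) 1 4)) :=
  BlkD.tree_sound (BlkD.pairOk_sound k21_21_6_5) (by decide) hn t21_21_6_5_5 _ _ (by decide +kernel)

/-- certificates of the pair `(6, 5)`, part 6 -/
def t21_21_6_5_6 : BlkD.Tr :=
  .S 2 1 (.L 6 7 [4, 4, 5, 5, 5, 21] [90, 86, 76, 64, 52, 40] [] 100000 54651 54650 1140311 21705
    58915 43411 74419 0 3876 10853) (.S 3 12 (.S 3 6 (.S 3 3 (.L 6 7 [4, 4, 5, 5, 5, 21] [90, 86,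
    76, 64, 52, 40] [] 100000 33065 33065 1183065 11290 5645 16935 10484 0 806 22043) (.S 3 5 (.S 3
    4 (.L 6 7 [4, 4, 5, 5, 5, 21] [90, 86, 76, 64, 52, 40] [68, 60, 50, 40, 28, 0] 100000 31410
    31409 1248721 25641 0 51282 51282 0 12821 20513) (.S 4 5 (.S 4 2 (.L 5 6 [4, 4, 5, 6, 6, 21]
    [64, 52, 40, 0, 0, 0] [82, 80, 72, 62, 52, 40] 100000 33334 33334 1265421 33645 0 69159 44548
    3115 27726 21807) (.L 5 6 [4, 4, 5, 6, 6, 21] [90, 86, 76, 64, 52, 40] [82, 80, 72, 62, 52, 40]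
    100000 50000 0 950000 0 0 150000 75000 0 0 12500)) (.E 2))) (.S 4 5 (.S 4 2 (.L 6 7 [4, 4, 5,
    5, 5, 21] [64, 52, 40, 0, 0, 0] [98, 96, 94, 86, 76, 66] 100000 23611 23611 1300004 33333 0
    66667 33333 5556 44444 16667) (.L 6 7 [4, 4, 5, 5, 5, 21] [90, 86, 76, 64, 52, 40] [98, 96, 94,
    86, 76, 66] 100000 41667 0 1008333 8333 0 141667 50000 0 0 25000)) (.E 2)))) (.E 1)) (.E 1))

lemma s21_21_6_5_6 {n : ℕ} (hn : 5 ≤ n) : NoNd (d21_21_6_5.R : ℤ) d21_21_6_5.H n d21_21_6_5.a d21_21_6_5.b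
    (BlkD.inB (BlkD.upd (BlkD.upd (fun _ => 0) 0 2) 1 5)
      (BlkD.upd (BlkD.upd (BlkD.upd (BlkD.upd (BlkD.upd (BlkD.upd (BlkD.upd (BlkD.upd (BlkD.upd (BlkD.upd (fun _ => 21) 0 6) 2 5) 0 3) 0 2) 1 19) 1 9) 1 7) 1 6) 1 5) 2 2)) :=
  BlkD.tree_sound (BlkD.pairOk_sound k21_21_6_5) (by decide) hn t21_21_6_5_6 _ _ (by decide +kernel)

/-- certificates of the pair `(6, 5)`, part 7 -/
def t21_21_6_5_7 : BlkD.Tr :=
  .S 2 4 (.S 2 3 (.S 3 11 (.S 3 5 (.S 3 2 (.L 6 7 [4, 4, 5, 5, 5, 21] [90, 86, 76, 64, 52, 40] []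
    100000 32500 32500 1182500 17500 0 17500 15000 0 2500 21667) (.S 3 4 (.S 3 3 (.L 6 7 [4, 4, 5,
    5, 5, 21] [90, 86, 76, 64, 52, 40] [56, 46, 36, 24, 0, 0] 100000 31757 31757 1245949 27027 0
    54054 54054 0 13514 24324) (.L 6 7 [4, 4, 5, 5, 5, 21] [90, 86, 76, 64, 52, 40] [76, 68, 58,
    48, 36, 0] 100000 25000 25000 1291892 27027 0 51351 35135 0 32432 21622)) (.L 6 7 [4, 4, 5, 5,
    5, 21] [90, 86, 76, 64, 52, 40] [92, 90, 82, 72, 62, 50] 100000 56250 56250 1162500 37500 0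
    75000 75000 0 0 25000))) (.E 1)) (.E 1)) (.L 6 7 [4, 4, 5, 5, 5, 21] [90, 86, 76, 64, 52, 40]
    [] 100000 23438 23438 1300000 25000 0 62500 37500 6250 48750 20000)) (.L 6 7 [4, 4, 5, 5, 5,
    21] [90, 86, 76, 64, 52, 40] [] 100000 46342 46342 1162195 47561 0 76829 4878 4878 46341 23171)

lemma s21_21_6_5_7 {n : ℕ} (hn : 5 ≤ n) : NoNd (d21_21_6_5.R : ℤ) d21_21_6_5.H n d21_21_6_5.a d21_21_6_5.b
    (BlkD.inB (BlkD.upd (BlkD.upd (BlkD.upd (fun _ => 0) 0 2) 1 5) 2 3)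
      (BlkD.upd (BlkD.upd (BlkD.upd (BlkD.upd (BlkD.upd (BlkD.upd (BlkD.upd (BlkD.upd (BlkD.upd (fun _ => 21) 0 6) 2 5) 0 3) 0 2) 1 19) 1 9) 1 7) 1 6) 1 5)) :=
  BlkD.tree_sound (BlkD.pairOk_sound k21_21_6_5) (by decide) hn t21_21_6_5_7 _ _ (by decide +kernel)

/-- certificates of the pair `(6, 5)`, part 8 -/
def t21_21_6_5_8 : BlkD.Tr :=
  .S 2 1 (.L 6 7 [4, 4, 5, 5, 5, 21] [104, 104, 100, 90, 78, 66] [] 100000 62037 62037 1137038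
    31481 51852 62963 55556 0 0 18519) (.S 3 11 (.S 3 5 (.S 3 2 (.L 6 7 [4, 4, 5, 5, 5, 21] [104,
    104, 100, 90, 78, 66] [] 100000 25000 25000 1208334 8333 4167 62500 8333 12500 0 25000) (.S 3 4
    (.S 3 3 (.L 6 7 [4, 4, 5, 5, 5, 21] [104, 104, 100, 90, 78, 66] [50, 40, 30, 18, 0, 0] 100000
    36225 36225 1242858 33333 0 61905 31973 4762 6122 19048) (.S 4 6 (.S 4 3 (.L 6 7 [4, 4, 5, 5,
    5, 21] [90, 78, 66, 54, 0, 0] [68, 60, 50, 40, 28, 0] 100000 38720 38720 1231710 35772 12602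
    61382 43496 407 7724 25610) (.L 6 7 [4, 4, 5, 5, 5, 21] [104, 104, 100, 90, 78, 66] [68, 60,
    50, 40, 28, 0] 100000 50000 0 950000 0 0 150000 75000 0 0 12500)) (.E 2))) (.S 4 6 (.S 4 3 (.L
    6 7 [4, 4, 5, 5, 5, 21] [90, 78, 66, 54, 0, 0] [82, 80, 72, 62, 52, 40] 100000 32627 32627
    1266103 38983 0 77966 38983 3390 22034 20339) (.L 6 7 [4, 4, 5, 5, 5, 21] [104, 104, 100, 90,
    78, 66] [82, 80, 72, 62, 52, 40] 100000 72223 1 794444 5556 5556 172222 88889 0 0 0)) (.E 2))))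
    (.S 3 8 (.S 3 7 (.S 3 6 (.S 4 6 (.S 4 3 (.L 6 7 [4, 4, 5, 5, 5, 21] [90, 78, 66, 54, 0, 0] [98,
    96, 94, 86, 76, 66] 100000 35000 35000 1240000 40000 0 80000 40000 0 20000 20000) (.L 6 7 [4,
    4, 5, 5, 5, 21] [104, 104, 100, 90, 78, 66] [98, 96, 94, 86, 76, 66] 100000 85715 1 700000 0
    46429 185714 64286 0 0 10714)) (.E 2)) (.E 1)) (.E 1)) (.E 1))) (.E 1))

lemma s21_21_6_5_8 {n : ℕ} (hn : 5 ≤ n) : NoNd (d21_21_6_5.R : ℤ) d21_21_6_5.H n d21_21_6_5.a d21_21_6_5.b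
    (BlkD.inB (BlkD.upd (BlkD.upd (BlkD.upd (fun _ => 0) 0 2) 1 5) 1 6)
      (BlkD.upd (BlkD.upd (BlkD.upd (BlkD.upd (BlkD.upd (BlkD.upd (BlkD.upd (BlkD.upd (BlkD.upd (fun _ => 21) 0 6) 2 5) 0 3) 0 2) 1 19) 1 9) 1 7) 1 6) 2 2)) :=
  BlkD.tree_sound (BlkD.pairOk_sound k21_21_6_5) (by decide) hn t21_21_6_5_8 _ _ (by decide +kernel)

/-- certificates of the pair `(6, 5)`, part 9 -/
def t21_21_6_5_9 : BlkD.Tr :=
  .S 2 4 (.S 2 3 (.S 3 10 (.S 3 5 (.S 3 2 (.L 6 7 [4, 4, 5, 5, 5, 21] [104, 104, 100, 90, 78, 66]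
    [] 100000 23114 23114 1283962 14623 2830 66981 61792 9434 11792 23585) (.S 3 4 (.S 3 3 (.L 6 7
    [4, 4, 5, 5, 5, 21] [104, 104, 100, 90, 78, 66] [56, 46, 36, 24, 0, 0] 100000 36165 36165
    1252428 36893 0 62136 36893 0 14563 25243) (.S 4 6 (.S 4 3 (.L 6 7 [4, 4, 5, 5, 5, 21] [90, 78,
    66, 54, 0, 0] [76, 68, 58, 48, 36, 0] 100000 23204 23204 1300002 29940 0 73054 40120 7186 32934
    23353) (.L 6 7 [4, 4, 5, 5, 5, 21] [104, 104, 100, 90, 78, 66] [76, 68, 58, 48, 36, 0] 100000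
    69768 1 811630 4651 2326 169767 88372 0 0 0)) (.E 2))) (.L 6 7 [4, 4, 5, 5, 5, 21] [104, 104,
    100, 90, 78, 66] [92, 90, 82, 72, 62, 50] 100000 41667 41667 1200000 0 0 100000 100000 0 0
    33333))) (.E 1)) (.E 1)) (.L 6 7 [4, 4, 5, 5, 5, 21] [104, 104, 100, 90, 78, 66] [] 100000
    25000 25000 1276924 30769 0 69231 30769 0 46154 23077)) (.L 6 7 [4, 4, 5, 5, 5, 21] [104, 104,
    100, 90, 78, 66] [] 100000 26786 26786 1228573 35714 0 64286 28571 0 50000 21429)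

lemma s21_21_6_5_9 {n : ℕ} (hn : 5 ≤ n) : NoNd (d21_21_6_5.R : ℤ) d21_21_6_5.H n d21_21_6_5.a d21_21_6_5.b
    (BlkD.inB (BlkD.upd (BlkD.upd (BlkD.upd (BlkD.upd (fun _ => 0) 0 2) 1 5) 1 6) 2 3)
      (BlkD.upd (BlkD.upd (BlkD.upd (BlkD.upd (BlkD.upd (BlkD.upd (BlkD.upd (BlkD.upd (fun _ => 21) 0 6) 2 5) 0 3) 0 2) 1 19) 1 9) 1 7) 1 6)) :=
  BlkD.tree_sound (BlkD.pairOk_sound k21_21_6_5) (by decide) hn t21_21_6_5_9 _ _ (by decide +kernel)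

/-- certificates of the pair `(6, 5)`, part 10 -/
def t21_21_6_5_10 : BlkD.Tr :=
  .S 2 2 (.S 2 1 (.L 6 7 [4, 4, 5, 5, 5, 21] [120, 120, 120, 116, 106, 94] [] 100000 67925 67925
    1073585 33019 66038 65094 66038 0 0 21698) (.S 3 10 (.S 3 5 (.S 3 2 (.L 6 7 [4, 4, 5, 5, 5, 21]
    [120, 120, 120, 116, 106, 94] [] 100000 35000 35000 1180000 40000 0 60000 20000 0 0 20000) (.S
    3 4 (.L 6 7 [4, 4, 5, 5, 5, 21] [120, 120, 120, 116, 106, 94] [] 100000 39346 39346 1237920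
    36577 16443 59732 43289 2685 6711 21141) (.L 6 7 [4, 4, 5, 5, 5, 21] [120, 120, 120, 116, 106,
    94] [82, 80, 72, 62, 52, 40] 100000 19706 19706 1292942 15294 0 100000 30588 21176 54118
    28235))) (.E 2)) (.E 1))) (.S 2 4 (.S 2 3 (.S 3 9 (.S 3 4 (.S 3 2 (.L 6 7 [4, 4, 5, 5, 5, 21]
    [120, 120, 120, 116, 106, 94] [] 100000 35674 35673 1229215 42697 0 64045 38202 0 6742 19101)
    (.L 6 7 [4, 4, 5, 5, 5, 21] [120, 120, 120, 116, 106, 94] [] 100000 22886 22885 1294119 32721 0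
    68382 39338 8456 37500 22610)) (.E 2)) (.E 1)) (.L 6 7 [4, 4, 5, 5, 5, 21] [120, 120, 120, 116,
    106, 94] [] 100000 22619 22619 1252382 28571 0 66667 47619 9524 33333 23810)) (.L 6 7 [4, 4, 5,
    5, 5, 21] [120, 120, 120, 116, 106, 94] [] 100000 19167 19167 1226666 31667 0 78333 21667 23333
    50000 25000))

lemma s21_21_6_5_10 {n : ℕ} (hn : 5 ≤ n) : NoNd (d21_21_6_5.R : ℤ) d21_21_6_5.H n d21_21_6_5.a d21_21_6_5.b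
    (BlkD.inB (BlkD.upd (BlkD.upd (BlkD.upd (fun _ => 0) 0 2) 1 5) 1 7)
      (BlkD.upd (BlkD.upd (BlkD.upd (BlkD.upd (BlkD.upd (BlkD.upd (BlkD.upd (fun _ => 21) 0 6) 2 5) 0 3) 0 2) 1 19) 1 9) 1 7)) :=
  BlkD.tree_sound (BlkD.pairOk_sound k21_21_6_5) (by decide) hn t21_21_6_5_10 _ _ (by decide +kernel)

/-- certificates of the pair `(6, 5)`, part 11 -/
def t21_21_6_5_11 : BlkD.Tr :=
  .L 6 7 [4, 4, 5, 5, 5, 21] [] [] 100000 22917 22917 1300000 0 0 100000 50000 22917 8333 25000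

lemma s21_21_6_5_11 {n : ℕ} (hn : 5 ≤ n) : NoNd (d21_21_6_5.R : ℤ) d21_21_6_5.H n d21_21_6_5.a d21_21_6_5.b
    (BlkD.inB (BlkD.upd (BlkD.upd (BlkD.upd (fun _ => 0) 0 2) 1 5) 1 8)
      (BlkD.upd (BlkD.upd (BlkD.upd (BlkD.upd (BlkD.upd (BlkD.upd (fun _ => 21) 0 6) 2 5) 0 3) 0 2) 1 19) 1 9)) :=
  BlkD.tree_sound (BlkD.pairOk_sound k21_21_6_5) (by decide) hn t21_21_6_5_11 _ _ (by decide +kernel)

/-- certificates of the pair `(6, 5)`, part 12 -/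
def t21_21_6_5_12 : BlkD.Tr :=
  .E 0

lemma s21_21_6_5_12 {n : ℕ} (hn : 5 ≤ n) : NoNd (d21_21_6_5.R : ℤ) d21_21_6_5.H n d21_21_6_5.a d21_21_6_5.b
    (BlkD.inB (BlkD.upd (BlkD.upd (fun _ => 0) 0 2) 1 10)
      (BlkD.upd (BlkD.upd (BlkD.upd (BlkD.upd (BlkD.upd (fun _ => 21) 0 6) 2 5) 0 3) 0 2) 1 19)) :=
  BlkD.tree_sound (BlkD.pairOk_sound k21_21_6_5) (by decide) hn t21_21_6_5_12 _ _ (by decide +kernel)

/-- certificates of the pair `(6, 5)`, part 13 -/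
def t21_21_6_5_13 : BlkD.Tr :=
  .E 0

lemma s21_21_6_5_13 {n : ℕ} (hn : 5 ≤ n) : NoNd (d21_21_6_5.R : ℤ) d21_21_6_5.H n d21_21_6_5.a d21_21_6_5.b
    (BlkD.inB (BlkD.upd (BlkD.upd (fun _ => 0) 0 2) 1 20)
      (BlkD.upd (BlkD.upd (BlkD.upd (BlkD.upd (fun _ => 21) 0 6) 2 5) 0 3) 0 2)) :=
  BlkD.tree_sound (BlkD.pairOk_sound k21_21_6_5) (by decide) hn t21_21_6_5_13 _ _ (by decide +kernel)

/-- certificates of the pair `(6, 5)`, part 14 -/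
def t21_21_6_5_14 : BlkD.Tr :=
  .L 6 7 [4, 4, 5, 5, 5, 21] [] [] 100000 25000 25000 1200000 21875 0 21875 56250 0 25000 18750

lemma s21_21_6_5_14 {n : ℕ} (hn : 5 ≤ n) : NoNd (d21_21_6_5.R : ℤ) d21_21_6_5.H n d21_21_6_5.a d21_21_6_5.b
    (BlkD.inB (BlkD.upd (BlkD.upd (fun _ => 0) 0 2) 0 3)
      (BlkD.upd (BlkD.upd (BlkD.upd (BlkD.upd (BlkD.upd (BlkD.upd (BlkD.upd (fun _ => 21) 0 6) 2 5) 0 3) 1 18) 1 9) 1 4) 1 2)) :=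
  BlkD.tree_sound (BlkD.pairOk_sound k21_21_6_5) (by decide) hn t21_21_6_5_14 _ _ (by decide +kernel)

/-- certificates of the pair `(6, 5)`, part 15 -/
def t21_21_6_5_15 : BlkD.Tr :=
  .L 6 7 [4, 4, 5, 5, 5, 21] [60, 48, 36, 24, 0, 0] [] 100000 25000 25000 1293520 14275 1620 14815
    62037 0 25926 25000

lemma s21_21_6_5_15 {n : ℕ} (hn : 5 ≤ n) : NoNd (d21_21_6_5.R : ℤ) d21_21_6_5.H n d21_21_6_5.a d21_21_6_5.b
    (BlkD.inB (BlkD.upd (BlkD.upd (BlkD.upd (fun _ => 0) 0 2) 0 3) 1 3)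
      (BlkD.upd (BlkD.upd (BlkD.upd (BlkD.upd (BlkD.upd (BlkD.upd (BlkD.upd (fun _ => 21) 0 6) 2 5) 0 3) 1 18) 1 9) 1 4) 1 3)) :=
  BlkD.tree_sound (BlkD.pairOk_sound k21_21_6_5) (by decide) hn t21_21_6_5_15 _ _ (by decide +kernel)

/-- certificates of the pair `(6, 5)`, part 16 -/
def t21_21_6_5_16 : BlkD.Tr :=
  .S 2 1 (.L 6 7 [4, 4, 5, 5, 5, 21] [82, 72, 60, 48, 36, 0] [] 100000 47826 47826 1165218 17391
    47826 78261 60870 0 4348 21739) (.S 3 12 (.S 3 6 (.S 3 3 (.L 6 7 [4, 4, 5, 5, 5, 21] [82, 72,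
    60, 48, 36, 0] [] 100000 33334 33334 1193333 6667 6667 6667 6667 0 0 22222) (.S 3 5 (.S 3 4 (.L
    6 7 [4, 4, 5, 5, 5, 21] [82, 72, 60, 48, 36, 0] [68, 60, 50, 40, 28, 0] 100000 25163 25163
    1292530 8846 8846 77276 60934 2724 19066 30000) (.S 4 4 (.S 4 2 (.S 4 1 (.L 8 9 [4, 4, 5, 4, 4,
    21] [48, 36, 0, 0, 0, 0] [82, 80, 72, 62, 52, 40] 100000 24359 24358 1300080 19430 20815 56823
    41426 2566 21792 19796) (.L 8 9 [4, 4, 5, 4, 4, 21] [60, 48, 36, 0, 0, 0] [82, 80, 72, 62, 52,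
    40] 100000 25000 21666 1190000 1667 1667 103333 52500 0 25000 18750)) (.L 8 9 [4, 4, 5, 4, 4,
    21] [82, 72, 60, 48, 36, 0] [82, 80, 72, 62, 52, 40] 100000 50000 0 950000 0 0 150000 75000 0 0
    12500)) (.E 2))) (.S 4 4 (.S 4 2 (.S 4 1 (.S 4 0 (.L 8 9 [4, 4, 5, 4, 4, 21] [36, 0, 0, 0, 0,
    0] [98, 96, 94, 86, 76, 66] 100000 55000 55000 1100000 50000 0 0 100000 60000 0 20000) (.L 8 9
    [4, 4, 5, 4, 4, 21] [48, 36, 0, 0, 0, 0] [98, 96, 94, 86, 76, 66] 100000 25000 24999 1294873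
    17949 17949 79487 35897 0 30769 20513)) (.L 8 9 [4, 4, 5, 4, 4, 21] [60, 48, 36, 0, 0, 0] [98,
    96, 94, 86, 76, 66] 100000 25000 24999 1228572 14286 14286 100000 28571 0 57143 28571)) (.L 8 9
    [4, 4, 5, 4, 4, 21] [82, 72, 60, 48, 36, 0] [98, 96, 94, 86, 76, 66] 100000 44445 1 988890 0 0
    144444 77778 0 0 22222)) (.E 2)))) (.E 1)) (.E 1))

lemma s21_21_6_5_16 {n : ℕ} (hn : 5 ≤ n) : NoNd (d21_21_6_5.R : ℤ) d21_21_6_5.H n d21_21_6_5.a d21_21_6_5.b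
    (BlkD.inB (BlkD.upd (BlkD.upd (BlkD.upd (BlkD.upd (fun _ => 0) 0 2) 0 3) 1 3) 1 4)
      (BlkD.upd (BlkD.upd (BlkD.upd (BlkD.upd (BlkD.upd (BlkD.upd (BlkD.upd (fun _ => 21) 0 6) 2 5) 0 3) 1 18) 1 9) 1 4) 2 2)) :=
  BlkD.tree_sound (BlkD.pairOk_sound k21_21_6_5) (by decide) hn t21_21_6_5_16 _ _ (by decide +kernel)

/-- certificates of the pair `(6, 5)`, part 17 -/
def t21_21_6_5_17 : BlkD.Tr :=
  .S 2 4 (.S 2 3 (.S 3 11 (.S 3 5 (.S 3 2 (.L 8 9 [4, 4, 5, 4, 4, 21] [82, 72, 60, 48, 36, 0] []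
    100000 33334 33334 1200000 0 0 0 0 0 0 22222) (.S 3 4 (.S 3 3 (.L 6 7 [4, 4, 5, 5, 5, 21] [82,
    72, 60, 48, 36, 0] [56, 46, 36, 24, 0, 0] 100000 24289 24289 1301791 8692 8692 68156 68968 3981
    19171 30138) (.S 4 4 (.S 4 2 (.S 4 1 (.L 6 7 [4, 4, 5, 5, 5, 21] [48, 36, 0, 0, 0, 0] [76, 68,
    58, 48, 36, 0] 100000 23958 23957 1300002 25000 0 75000 50000 4167 25000 25000) (.L 6 7 [4, 4,
    5, 5, 5, 21] [60, 48, 36, 0, 0, 0] [76, 68, 58, 48, 36, 0] 100000 25000 21666 1190000 1667 1667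
    103333 52500 0 25000 18750)) (.L 6 7 [4, 4, 5, 5, 5, 21] [82, 72, 60, 48, 36, 0] [76, 68, 58,
    48, 36, 0] 100000 50000 0 950000 0 0 150000 75000 0 0 12500)) (.E 2))) (.L 6 7 [4, 4, 5, 5, 5,
    21] [82, 72, 60, 48, 36, 0] [92, 90, 82, 72, 62, 50] 100000 31250 31250 1225000 0 0 75000
    100000 0 25000 25000))) (.E 1)) (.E 1)) (.L 6 7 [4, 4, 5, 5, 5, 21] [82, 72, 60, 48, 36, 0] []
    100000 23558 23558 1300000 25000 0 84615 37500 5769 59615 29808)) (.L 6 7 [4, 4, 5, 5, 5, 21]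
    [82, 72, 60, 48, 36, 0] [] 100000 23264 23263 1275000 25000 0 91667 25000 6944 66667 33333)

lemma s21_21_6_5_17 {n : ℕ} (hn : 5 ≤ n) : NoNd (d21_21_6_5.R : ℤ) d21_21_6_5.H n d21_21_6_5.a d21_21_6_5.b
    (BlkD.inB (BlkD.upd (BlkD.upd (BlkD.upd (BlkD.upd (BlkD.upd (fun _ => 0) 0 2) 0 3) 1 3) 1 4) 2 3)
      (BlkD.upd (BlkD.upd (BlkD.upd (BlkD.upd (BlkD.upd (BlkD.upd (fun _ => 21) 0 6) 2 5) 0 3) 1 18) 1 9) 1 4)) :=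
  BlkD.tree_sound (BlkD.pairOk_sound k21_21_6_5) (by decide) hn t21_21_6_5_17 _ _ (by decide +kernel)

/-- certificates of the pair `(6, 5)`, part 18 -/
def t21_21_6_5_18 : BlkD.Tr :=
  .L 6 7 [4, 4, 5, 5, 5, 21] [100, 96, 86, 74, 62, 50] [] 100000 37656 37655 1230000 0 58750 50000
    76250 8125 0 19375

lemma s21_21_6_5_18 {n : ℕ} (hn : 5 ≤ n) : NoNd (d21_21_6_5.R : ℤ) d21_21_6_5.H n d21_21_6_5.a d21_21_6_5.b
    (BlkD.inB (BlkD.upd (BlkD.upd (BlkD.upd (fun _ => 0) 0 2) 0 3) 1 5)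
      (BlkD.upd (BlkD.upd (BlkD.upd (BlkD.upd (BlkD.upd (BlkD.upd (BlkD.upd (BlkD.upd (BlkD.upd (BlkD.upd (fun _ => 21) 0 6) 2 5) 0 3) 1 18) 1 9) 1 7) 1 6) 1 5) 2 2) 2 1)) :=
  BlkD.tree_sound (BlkD.pairOk_sound k21_21_6_5) (by decide) hn t21_21_6_5_18 _ _ (by decide +kernel)

/-- certificates of the pair `(6, 5)`, part 19 -/
def t21_21_6_5_19 : BlkD.Tr :=
  .S 3 5 (.S 3 2 (.L 6 7 [4, 4, 5, 5, 5, 21] [100, 96, 86, 74, 62, 50] [] 100000 25000 25000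
    1206250 6250 6250 68750 6250 12500 0 25000) (.S 3 4 (.S 3 3 (.L 6 7 [4, 4, 5, 5, 5, 21] [100,
    96, 86, 74, 62, 50] [50, 40, 30, 18, 0, 0] 100000 23810 23810 1295240 7143 7143 76190 16667
    14286 2381 23810) (.S 4 5 (.S 4 2 (.S 4 1 (.L 6 7 [4, 4, 5, 5, 5, 21] [62, 50, 0, 0, 0, 0] [68,
    60, 50, 40, 28, 0] 100000 19737 19737 1314037 19298 15789 57895 42105 22807 10526 23684) (.L 6
    7 [4, 4, 5, 5, 5, 21] [74, 62, 50, 0, 0, 0] [68, 60, 50, 40, 28, 0] 100000 22922 22922 1289016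
    20938 1602 74218 48589 8314 14607 20824)) (.L 6 7 [4, 4, 5, 5, 5, 21] [100, 96, 86, 74, 62, 50]
    [68, 60, 50, 40, 28, 0] 100000 26830 26830 1192683 2439 2439 100000 52439 0 19512 18902)) (.E
    2))) (.S 4 5 (.S 4 2 (.S 4 1 (.L 6 7 [4, 4, 5, 5, 5, 21] [62, 50, 0, 0, 0, 0] [82, 80, 72, 62,
    52, 40] 100000 15625 15625 1331250 18750 18750 56250 46875 37500 34375 18750) (.L 6 7 [4, 4, 5,
    5, 5, 21] [74, 62, 50, 0, 0, 0] [82, 80, 72, 62, 52, 40] 100000 25000 25000 1278948 10526 0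
    100000 50000 0 44737 31579)) (.L 6 7 [4, 4, 5, 5, 5, 21] [100, 96, 86, 74, 62, 50] [82, 80, 72,
    62, 52, 40] 100000 25000 11364 1159092 0 0 113636 56818 0 25000 27273)) (.E 2)))) (.S 3 8 (.S 3
    7 (.S 3 6 (.S 4 5 (.S 4 2 (.S 4 1 (.L 6 7 [4, 4, 5, 5, 5, 21] [62, 50, 0, 0, 0, 0] [98, 96, 94,
    86, 76, 66] 100000 53571 53570 1157144 42857 0 100000 85714 42857 0 28571) (.L 6 7 [4, 4, 5, 5,
    5, 21] [74, 62, 50, 0, 0, 0] [98, 96, 94, 86, 76, 66] 100000 23872 23872 1299354 14839 10323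
    100000 25161 4516 55484 30323)) (.L 6 7 [4, 4, 5, 5, 5, 21] [100, 96, 86, 74, 62, 50] [98, 96,
    94, 86, 76, 66] 100000 25000 25000 1222873 10638 13830 100000 28191 0 59574 29787)) (.E 2)) (.E
    1)) (.E 1)) (.E 1))

lemma s21_21_6_5_19 {n : ℕ} (hn : 5 ≤ n) : NoNd (d21_21_6_5.R : ℤ) d21_21_6_5.H n d21_21_6_5.a d21_21_6_5.b
    (BlkD.inB (BlkD.upd (BlkD.upd (BlkD.upd (BlkD.upd (fun _ => 0) 0 2) 0 3) 1 5) 2 2)
      (BlkD.upd (BlkD.upd (BlkD.upd (BlkD.upd (BlkD.upd (BlkD.upd (BlkD.upd (BlkD.upd (BlkD.upd (BlkD.upd (fun _ => 21) 0 6) 2 5) 0 3) 1 18) 1 9) 1 7) 1 6) 1 5) 2 2) 3 11)) :=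
  BlkD.tree_sound (BlkD.pairOk_sound k21_21_6_5) (by decide) hn t21_21_6_5_19 _ _ (by decide +kernel)

/-- certificates of the pair `(6, 5)`, part 20 -/
def t21_21_6_5_20 : BlkD.Tr :=
  .E 1

lemma s21_21_6_5_20 {n : ℕ} (hn : 5 ≤ n) : NoNd (d21_21_6_5.R : ℤ) d21_21_6_5.H n d21_21_6_5.a d21_21_6_5.b
    (BlkD.inB (BlkD.upd (BlkD.upd (BlkD.upd (BlkD.upd (BlkD.upd (fun _ => 0) 0 2) 0 3) 1 5) 2 2) 3 12)
      (BlkD.upd (BlkD.upd (BlkD.upd (BlkD.upd (BlkD.upd (BlkD.upd (BlkD.upd (BlkD.upd (BlkD.upd (fun _ => 21) 0 6) 2 5) 0 3) 1 18) 1 9) 1 7) 1 6) 1 5) 2 2)) :=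
  BlkD.tree_sound (BlkD.pairOk_sound k21_21_6_5) (by decide) hn t21_21_6_5_20 _ _ (by decide +kernel)

/-- certificates of the pair `(6, 5)`, part 21 -/
def t21_21_6_5_21 : BlkD.Tr :=
  .S 2 4 (.S 2 3 (.S 3 10 (.S 3 5 (.S 3 2 (.L 6 7 [4, 4, 5, 5, 5, 21] [100, 96, 86, 74, 62, 50] []
    100000 21429 21429 1307144 7143 7143 71429 28571 14286 7143 23810) (.S 3 4 (.S 3 3 (.S 4 5 (.S
    4 2 (.S 4 1 (.L 4 5 [4, 5, 6, 7, 8, 21] [62, 50, 0, 0, 0, 0] [56, 46, 36, 24, 0, 0] 100000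
    12501 12501 1333332 16667 0 66667 50000 50000 33333 33333) (.L 4 5 [4, 5, 6, 7, 8, 21] [74, 62,
    50, 0, 0, 0] [56, 46, 36, 24, 0, 0] 100000 29262 29262 1265341 17614 0 99432 27273 0 18182
    28125)) (.L 4 5 [4, 5, 6, 7, 8, 21] [100, 96, 86, 74, 62, 50] [56, 46, 36, 24, 0, 0] 100000
    25000 25000 1200000 0 0 100000 50000 0 25000 18750)) (.E 2)) (.S 4 5 (.S 4 2 (.L 5 6 [4, 4, 5,
    6, 6, 21] [74, 62, 50, 0, 0, 0] [76, 68, 58, 48, 36, 0] 100000 14722 14721 1339446 23333 2778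
    64444 43889 41111 58889 33333) (.L 5 6 [4, 4, 5, 6, 6, 21] [100, 96, 86, 74, 62, 50] [76, 68,
    58, 48, 36, 0] 100000 25000 11364 1159092 0 0 113636 56818 0 25000 27273)) (.E 2))) (.L 5 6 [4,
    4, 5, 6, 6, 21] [100, 96, 86, 74, 62, 50] [92, 90, 82, 72, 62, 50] 100000 41667 41667 1200000 0
    0 100000 100000 0 0 33333))) (.E 1)) (.E 1)) (.S 3 9 (.S 3 4 (.S 3 2 (.L 5 6 [4, 4, 5, 6, 6,
    21] [100, 96, 86, 74, 62, 50] [] 100000 21212 21212 1309094 22727 0 60606 45455 15152 30303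
    28788) (.S 3 3 (.S 4 5 (.S 4 2 (.L 5 6 [4, 4, 5, 6, 6, 21] [74, 62, 50, 0, 0, 0] [62, 52, 42,
    30, 0, 0] 100000 16667 16667 1300001 33333 0 66667 33333 33333 66667 33333) (.L 5 6 [4, 4, 5,
    6, 6, 21] [100, 96, 86, 74, 62, 50] [62, 52, 42, 30, 0, 0] 100000 25000 0 1125000 0 0 125000 0
    0 25000 25000)) (.E 2)) (.L 5 6 [4, 4, 5, 6, 6, 21] [100, 96, 86, 74, 62, 50] [84, 76, 66, 56,
    44, 0] 100000 41667 41667 1200000 0 0 100000 100000 0 0 33333))) (.E 1)) (.E 1))) (.L 5 6 [4,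
    4, 5, 6, 6, 21] [100, 96, 86, 74, 62, 50] [] 100000 35417 35417 1233335 33333 0 100000 33333
    25000 58333 33333)

lemma s21_21_6_5_21 {n : ℕ} (hn : 5 ≤ n) : NoNd (d21_21_6_5.R : ℤ) d21_21_6_5.H n d21_21_6_5.a d21_21_6_5.b
    (BlkD.inB (BlkD.upd (BlkD.upd (BlkD.upd (BlkD.upd (fun _ => 0) 0 2) 0 3) 1 5) 2 3)
      (BlkD.upd (BlkD.upd (BlkD.upd (BlkD.upd (BlkD.upd (BlkD.upd (BlkD.upd (BlkD.upd (fun _ => 21) 0 6) 2 5) 0 3) 1 18) 1 9) 1 7) 1 6) 1 5)) :=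
  BlkD.tree_sound (BlkD.pairOk_sound k21_21_6_5) (by decide) hn t21_21_6_5_21 _ _ (by decide +kernel)

/-- certificates of the pair `(6, 5)`, part 22 -/
def t21_21_6_5_22 : BlkD.Tr :=
  .S 2 1 (.L 5 6 [4, 4, 5, 6, 6, 21] [116, 116, 112, 102, 90, 78] [] 100000 39329 39328 1221952 0
    69512 50000 69512 12195 0 20732) (.S 3 10 (.S 3 5 (.S 3 2 (.L 5 6 [4, 4, 5, 6, 6, 21] [116,
    116, 112, 102, 90, 78] [] 100000 25000 24999 1247827 17391 8696 65217 17391 17391 0 34783) (.S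
    3 4 (.S 3 3 (.S 4 6 (.S 4 3 (.L 5 6 [4, 4, 5, 6, 6, 21] [102, 90, 78, 66, 0, 0] [50, 40, 30,
    18, 0, 0] 100000 20044 20044 1308167 20408 10204 60204 45190 39796 9913 21429) (.L 5 6 [4, 4,
    5, 6, 6, 21] [116, 116, 112, 102, 90, 78] [50, 40, 30, 18, 0, 0] 100000 29412 29412 1182355
    5882 5882 100000 38235 0 11765 19608)) (.E 2)) (.S 4 6 (.S 4 3 (.S 4 1 (.E 2) (.S 4 2 (.L 5 6
    [4, 4, 5, 6, 6, 21] [90, 78, 66, 0, 0, 0] [68, 60, 50, 40, 28, 0] 100000 15625 15625 1318750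
    25000 6250 68750 43750 37500 37500 25000) (.L 5 6 [4, 4, 5, 6, 6, 21] [102, 90, 78, 66, 0, 0]
    [68, 60, 50, 40, 28, 0] 100000 27330 27330 1275156 4969 4969 100000 52484 0 18012 22516))) (.L
    5 6 [4, 4, 5, 6, 6, 21] [116, 116, 112, 102, 90, 78] [68, 60, 50, 40, 28, 0] 100000 26008 15120
    1163307 1008 1008 110887 56452 0 21976 25806)) (.E 2))) (.L 5 6 [4, 4, 5, 6, 6, 21] [116, 116,
    112, 102, 90, 78] [82, 80, 72, 62, 52, 40] 100000 16667 16667 1329411 9804 1961 100000 27451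
    33333 72549 33333))) (.E 2)) (.E 1))

lemma s21_21_6_5_22 {n : ℕ} (hn : 5 ≤ n) : NoNd (d21_21_6_5.R : ℤ) d21_21_6_5.H n d21_21_6_5.a d21_21_6_5.b
    (BlkD.inB (BlkD.upd (BlkD.upd (BlkD.upd (BlkD.upd (fun _ => 0) 0 2) 0 3) 1 5) 1 6)
      (BlkD.upd (BlkD.upd (BlkD.upd (BlkD.upd (BlkD.upd (BlkD.upd (BlkD.upd (BlkD.upd (fun _ => 21) 0 6) 2 5) 0 3) 1 18) 1 9) 1 7) 1 6) 2 2)) :=
  BlkD.tree_sound (BlkD.pairOk_sound k21_21_6_5) (by decide) hn t21_21_6_5_22 _ _ (by decide +kernel)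

/-- certificates of the pair `(6, 5)`, part 23 -/
def t21_21_6_5_23 : BlkD.Tr :=
  .S 2 4 (.S 2 3 (.S 3 9 (.S 3 4 (.S 3 2 (.S 3 1 (.L 5 6 [4, 4, 5, 6, 6, 21] [116, 116, 112, 102,
    90, 78] [] 100000 28125 28125 1237500 25000 12500 62500 12500 12500 0 37500) (.S 4 6 (.S 4 3
    (.L 5 6 [4, 4, 5, 6, 6, 21] [102, 90, 78, 66, 0, 0] [36, 26, 14, 0, 0, 0] 100000 17106 17106
    1321055 15789 15789 57895 63158 42105 15789 21053) (.L 5 6 [4, 4, 5, 6, 6, 21] [116, 116, 112,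
    102, 90, 78] [36, 26, 14, 0, 0, 0] 100000 27778 27777 1188891 5556 5556 100000 47222 0 16667
    20833)) (.E 2))) (.S 3 3 (.L 6 7 [4, 4, 5, 5, 5, 21] [116, 116, 112, 102, 90, 78] [56, 46, 36,
    24, 0, 0] 100000 18572 18572 1322285 13143 13143 69143 56000 25714 42857 28571) (.L 6 7 [4, 4,
    5, 5, 5, 21] [116, 116, 112, 102, 90, 78] [76, 68, 58, 48, 36, 0] 100000 17593 17593 1322223
    11111 0 100000 33333 29630 62963 29630))) (.E 2)) (.E 1)) (.L 6 7 [4, 4, 5, 5, 5, 21] [116,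
    116, 112, 102, 90, 78] [] 100000 21129 21129 1286130 23548 0 71613 48065 15484 29355 25484))
    (.L 6 7 [4, 4, 5, 5, 5, 21] [116, 116, 112, 102, 90, 78] [] 100000 10715 10715 1285715 14286 0
    85714 28571 57143 71429 28571)

lemma s21_21_6_5_23 {n : ℕ} (hn : 5 ≤ n) : NoNd (d21_21_6_5.R : ℤ) d21_21_6_5.H n d21_21_6_5.a d21_21_6_5.b
    (BlkD.inB (BlkD.upd (BlkD.upd (BlkD.upd (BlkD.upd (BlkD.upd (fun _ => 0) 0 2) 0 3) 1 5) 1 6) 2 3)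
      (BlkD.upd (BlkD.upd (BlkD.upd (BlkD.upd (BlkD.upd (BlkD.upd (BlkD.upd (fun _ => 21) 0 6) 2 5) 0 3) 1 18) 1 9) 1 7) 1 6)) :=
  BlkD.tree_sound (BlkD.pairOk_sound k21_21_6_5) (by decide) hn t21_21_6_5_23 _ _ (by decide +kernel)

/-- certificates of the pair `(6, 5)`, part 24 -/
def t21_21_6_5_24 : BlkD.Tr :=
  .L 6 7 [4, 4, 5, 5, 5, 21] [134, 134, 134, 130, 120, 108] [] 100000 22917 22917 1300000 0 0
    100000 50000 22917 8333 25000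

lemma s21_21_6_5_24 {n : ℕ} (hn : 5 ≤ n) : NoNd (d21_21_6_5.R : ℤ) d21_21_6_5.H n d21_21_6_5.a d21_21_6_5.b
    (BlkD.inB (BlkD.upd (BlkD.upd (BlkD.upd (BlkD.upd (fun _ => 0) 0 2) 0 3) 1 5) 1 7)
      (BlkD.upd (BlkD.upd (BlkD.upd (BlkD.upd (BlkD.upd (BlkD.upd (fun _ => 21) 0 6) 2 5) 0 3) 1 18) 1 9) 1 7)) :=
  BlkD.tree_sound (BlkD.pairOk_sound k21_21_6_5) (by decide) hn t21_21_6_5_24 _ _ (by decide +kernel)

/-- certificates of the pair `(6, 5)`, part 25 -/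
def t21_21_6_5_25 : BlkD.Tr :=
  .E 0

lemma s21_21_6_5_25 {n : ℕ} (hn : 5 ≤ n) : NoNd (d21_21_6_5.R : ℤ) d21_21_6_5.H n d21_21_6_5.a d21_21_6_5.b
    (BlkD.inB (BlkD.upd (BlkD.upd (BlkD.upd (BlkD.upd (fun _ => 0) 0 2) 0 3) 1 5) 1 8)
      (BlkD.upd (BlkD.upd (BlkD.upd (BlkD.upd (BlkD.upd (fun _ => 21) 0 6) 2 5) 0 3) 1 18) 1 9)) :=
  BlkD.tree_sound (BlkD.pairOk_sound k21_21_6_5) (by decide) hn t21_21_6_5_25 _ _ (by decide +kernel)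

/-- certificates of the pair `(6, 5)`, part 26 -/
def t21_21_6_5_26 : BlkD.Tr :=
  .E 0

lemma s21_21_6_5_26 {n : ℕ} (hn : 5 ≤ n) : NoNd (d21_21_6_5.R : ℤ) d21_21_6_5.H n d21_21_6_5.a d21_21_6_5.b
    (BlkD.inB (BlkD.upd (BlkD.upd (BlkD.upd (fun _ => 0) 0 2) 0 3) 1 10)
      (BlkD.upd (BlkD.upd (BlkD.upd (BlkD.upd (fun _ => 21) 0 6) 2 5) 0 3) 1 18)) :=
  BlkD.tree_sound (BlkD.pairOk_sound k21_21_6_5) (by decide) hn t21_21_6_5_26 _ _ (by decide +kernel)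

/-- certificates of the pair `(6, 5)`, part 27 -/
def t21_21_6_5_27 : BlkD.Tr :=
  .E 0

lemma s21_21_6_5_27 {n : ℕ} (hn : 5 ≤ n) : NoNd (d21_21_6_5.R : ℤ) d21_21_6_5.H n d21_21_6_5.a d21_21_6_5.b
    (BlkD.inB (BlkD.upd (BlkD.upd (BlkD.upd (fun _ => 0) 0 2) 0 3) 1 19)
      (BlkD.upd (BlkD.upd (BlkD.upd (fun _ => 21) 0 6) 2 5) 0 3)) :=
  BlkD.tree_sound (BlkD.pairOk_sound k21_21_6_5) (by decide) hn t21_21_6_5_27 _ _ (by decide +kernel)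

/-- certificates of the pair `(6, 5)`, part 28 -/
def t21_21_6_5_28 : BlkD.Tr :=
  .L 6 7 [4, 4, 5, 5, 5, 21] [] [] 100000 23393 23393 1300004 17321 3214 52679 65357 6429 22143
    25000

lemma s21_21_6_5_28 {n : ℕ} (hn : 5 ≤ n) : NoNd (d21_21_6_5.R : ℤ) d21_21_6_5.H n d21_21_6_5.a d21_21_6_5.b
    (BlkD.inB (BlkD.upd (fun _ => 0) 0 4)
      (BlkD.upd (BlkD.upd (BlkD.upd (BlkD.upd (BlkD.upd (BlkD.upd (BlkD.upd (BlkD.upd (fun _ => 21) 0 6) 2 5) 0 5) 0 4) 1 17) 1 8) 1 4) 1 2)) :=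
  BlkD.tree_sound (BlkD.pairOk_sound k21_21_6_5) (by decide) hn t21_21_6_5_28 _ _ (by decide +kernel)

/-- certificates of the pair `(6, 5)`, part 29 -/
def t21_21_6_5_29 : BlkD.Tr :=
  .S 2 1 (.L 6 7 [4, 4, 5, 5, 5, 21] [66, 54, 42, 30, 0, 0] [] 100000 48612 48612 1136111 16667
    66667 63889 66667 2778 0 16667) (.S 3 12 (.S 3 6 (.S 3 3 (.L 6 7 [4, 4, 5, 5, 5, 21] [66, 54,
    42, 30, 0, 0] [] 100000 32433 32433 1201351 8108 8108 6757 8108 1351 0 22523) (.S 3 5 (.S 3 4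
    (.L 6 7 [4, 4, 5, 5, 5, 21] [66, 54, 42, 30, 0, 0] [68, 60, 50, 40, 28, 0] 100000 21552 21551
    1293103 0 20690 68966 51724 13793 13793 24138) (.S 4 3 (.S 4 1 (.L 6 7 [4, 4, 5, 5, 5, 21] [42,
    30, 0, 0, 0, 0] [82, 80, 72, 62, 52, 40] 100000 16878 16878 1314347 12236 24473 56962 46835
    32489 32489 25738) (.L 6 7 [4, 4, 5, 5, 5, 21] [66, 54, 42, 30, 0, 0] [82, 80, 72, 62, 52, 40]
    100000 25000 21154 1188462 1923 1923 103846 52885 0 25000 18750)) (.E 2))) (.L 6 7 [4, 4, 5, 5,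
    5, 21] [66, 54, 42, 30, 0, 0] [98, 96, 94, 86, 76, 66] 100000 21429 21429 1310716 29762 0 90476
    50000 14286 50000 25000))) (.E 1)) (.E 1))

lemma s21_21_6_5_29 {n : ℕ} (hn : 5 ≤ n) : NoNd (d21_21_6_5.R : ℤ) d21_21_6_5.H n d21_21_6_5.a d21_21_6_5.b
    (BlkD.inB (BlkD.upd (BlkD.upd (fun _ => 0) 0 4) 1 3)
      (BlkD.upd (BlkD.upd (BlkD.upd (BlkD.upd (BlkD.upd (BlkD.upd (BlkD.upd (BlkD.upd (BlkD.upd (fun _ => 21) 0 6) 2 5) 0 5) 0 4) 1 17) 1 8) 1 4) 1 3) 2 2)) :=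
  BlkD.tree_sound (BlkD.pairOk_sound k21_21_6_5) (by decide) hn t21_21_6_5_29 _ _ (by decide +kernel)

/-- certificates of the pair `(6, 5)`, part 30 -/
def t21_21_6_5_30 : BlkD.Tr :=
  .S 2 4 (.S 2 3 (.S 3 11 (.S 3 5 (.S 3 2 (.L 6 7 [4, 4, 5, 5, 5, 21] [66, 54, 42, 30, 0, 0] []
    100000 33334 33334 1200000 0 0 0 0 0 0 22222) (.S 3 4 (.S 3 3 (.L 6 7 [4, 4, 5, 5, 5, 21] [66,
    54, 42, 30, 0, 0] [56, 46, 36, 24, 0, 0] 100000 22640 22640 1297425 12017 12017 59227 59227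
    9442 19313 31330) (.S 4 3 (.S 4 1 (.L 6 7 [4, 4, 5, 5, 5, 21] [42, 30, 0, 0, 0, 0] [76, 68, 58,
    48, 36, 0] 100000 14286 14286 1321430 26190 0 69048 60714 42857 39286 28571) (.L 6 7 [4, 4, 5,
    5, 5, 21] [66, 54, 42, 30, 0, 0] [76, 68, 58, 48, 36, 0] 100000 25000 22500 1192500 2500 2500
    102500 52500 0 25000 18750)) (.E 2))) (.L 6 7 [4, 4, 5, 5, 5, 21] [66, 54, 42, 30, 0, 0] [92,
    90, 82, 72, 62, 50] 100000 25000 25000 1237500 0 0 62500 100000 12500 25000 25000))) (.E 1))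
    (.E 1)) (.L 6 7 [4, 4, 5, 5, 5, 21] [66, 54, 42, 30, 0, 0] [] 100000 20862 20862 1304828 31724
    0 88966 47586 16552 52414 26207)) (.L 6 7 [4, 4, 5, 5, 5, 21] [66, 54, 42, 30, 0, 0] [] 100000
    21053 21053 1268421 31579 0 89474 47368 15789 52632 26316)

lemma s21_21_6_5_30 {n : ℕ} (hn : 5 ≤ n) : NoNd (d21_21_6_5.R : ℤ) d21_21_6_5.H n d21_21_6_5.a d21_21_6_5.b
    (BlkD.inB (BlkD.upd (BlkD.upd (BlkD.upd (fun _ => 0) 0 4) 1 3) 2 3)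
      (BlkD.upd (BlkD.upd (BlkD.upd (BlkD.upd (BlkD.upd (BlkD.upd (BlkD.upd (BlkD.upd (fun _ => 21) 0 6) 2 5) 0 5) 0 4) 1 17) 1 8) 1 4) 1 3)) :=
  BlkD.tree_sound (BlkD.pairOk_sound k21_21_6_5) (by decide) hn t21_21_6_5_30 _ _ (by decide +kernel)

/-- certificates of the pair `(6, 5)`, part 31 -/
def t21_21_6_5_31 : BlkD.Tr :=
  .S 2 1 (.L 6 7 [4, 4, 5, 5, 5, 21] [90, 80, 68, 56, 44, 0] [] 100000 43421 43420 1157896 0 73684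
    47368 73684 0 0 15789) (.S 3 11 (.S 3 5 (.S 3 2 (.L 6 7 [4, 4, 5, 5, 5, 21] [90, 80, 68, 56,
    44, 0] [] 100000 25000 25000 1212500 0 0 62500 0 12500 0 25000) (.S 3 4 (.S 3 3 (.L 6 7 [4, 4,
    5, 5, 5, 21] [90, 80, 68, 56, 44, 0] [50, 40, 30, 18, 0, 0] 100000 21952 21952 1290244 7317
    12195 70732 35366 12195 9756 22764) (.S 4 4 (.S 4 2 (.L 6 7 [4, 4, 5, 5, 5, 21] [68, 56, 44, 0,
    0, 0] [68, 60, 50, 40, 28, 0] 100000 14144 14144 1333143 12000 15429 55429 55429 43429 22286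
    21143) (.L 6 7 [4, 4, 5, 5, 5, 21] [90, 80, 68, 56, 44, 0] [68, 60, 50, 40, 28, 0] 100000 26923
    26923 1192309 3846 3846 100000 51923 0 19231 20192)) (.E 2))) (.S 4 4 (.S 4 2 (.L 6 7 [4, 4, 5,
    5, 5, 21] [68, 56, 44, 0, 0, 0] [82, 80, 72, 62, 52, 40] 100000 13080 13080 1333114 8940 20861
    53642 47682 47682 44702 30795) (.L 6 7 [4, 4, 5, 5, 5, 21] [90, 80, 68, 56, 44, 0] [82, 80, 72,
    62, 52, 40] 100000 25000 11364 1159092 0 0 113636 56818 0 25000 27273)) (.E 2)))) (.L 6 7 [4,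
    4, 5, 5, 5, 21] [90, 80, 68, 56, 44, 0] [] 100000 41667 41667 1200000 0 0 100000 100000 0 0
    33333)) (.E 1))

lemma s21_21_6_5_31 {n : ℕ} (hn : 5 ≤ n) : NoNd (d21_21_6_5.R : ℤ) d21_21_6_5.H n d21_21_6_5.a d21_21_6_5.b
    (BlkD.inB (BlkD.upd (BlkD.upd (BlkD.upd (fun _ => 0) 0 4) 1 3) 1 4)
      (BlkD.upd (BlkD.upd (BlkD.upd (BlkD.upd (BlkD.upd (BlkD.upd (BlkD.upd (BlkD.upd (fun _ => 21) 0 6) 2 5) 0 5) 0 4) 1 17) 1 8) 1 4) 2 2)) :=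
  BlkD.tree_sound (BlkD.pairOk_sound k21_21_6_5) (by decide) hn t21_21_6_5_31 _ _ (by decide +kernel)

/-- certificates of the pair `(6, 5)`, part 32 -/
def t21_21_6_5_32 : BlkD.Tr :=
  .S 2 4 (.S 2 3 (.S 3 10 (.S 3 5 (.S 3 2 (.L 6 7 [4, 4, 5, 5, 5, 21] [90, 80, 68, 56, 44, 0] []
    100000 22223 22223 1296297 7407 12963 70370 35185 11111 11111 22222) (.S 3 4 (.S 3 3 (.S 4 4
    (.S 4 2 (.L 6 7 [4, 4, 5, 5, 5, 21] [68, 56, 44, 0, 0, 0] [56, 46, 36, 24, 0, 0] 100000 9822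
    9822 1339286 0 20238 60714 63095 60714 42857 28571) (.L 6 7 [4, 4, 5, 5, 5, 21] [90, 80, 68,
    56, 44, 0] [56, 46, 36, 24, 0, 0] 100000 25001 20834 1187500 4167 4167 104167 36111 0 25000
    18750)) (.E 2)) (.S 4 4 (.S 4 2 (.S 4 1 (.L 8 9 [4, 4, 5, 4, 4, 21] [56, 44, 0, 0, 0, 0] [76,
    68, 58, 48, 36, 0] 100000 3906 3905 1375000 15625 0 15625 62500 84375 56250 28125) (.L 8 9 [4,
    4, 5, 4, 4, 21] [68, 56, 44, 0, 0, 0] [76, 68, 58, 48, 36, 0] 100000 13095 13094 1310716 2381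
    1190 92857 46429 47619 54762 33333)) (.L 8 9 [4, 4, 5, 4, 4, 21] [90, 80, 68, 56, 44, 0] [76,
    68, 58, 48, 36, 0] 100000 25000 11364 1159092 0 0 113636 56818 0 25000 27273)) (.E 2))) (.L 8 9
    [4, 4, 5, 4, 4, 21] [90, 80, 68, 56, 44, 0] [92, 90, 82, 72, 62, 50] 100000 185715 1 0 114286 0
    114286 285714 0 0 0))) (.E 1)) (.E 1)) (.S 3 9 (.S 3 4 (.S 3 2 (.S 3 1 (.L 8 9 [4, 4, 5, 4, 4,
    21] [90, 80, 68, 56, 44, 0] [] 100000 17709 17709 1314585 0 0 75000 85417 29167 14583 25000)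
    (.L 6 7 [4, 4, 5, 5, 5, 21] [90, 80, 68, 56, 44, 0] [40, 30, 18, 0, 0, 0] 100000 22292 22292
    1308334 12500 27083 66667 68750 10833 45833 22917)) (.L 6 7 [4, 4, 5, 5, 5, 21] [90, 80, 68,
    56, 44, 0] [] 100000 11111 11111 1311112 25000 0 69444 44444 55556 55556 33333)) (.E 1)) (.E
    1))) (.L 6 7 [4, 4, 5, 5, 5, 21] [90, 80, 68, 56, 44, 0] [] 100000 16288 16288 1327273 18182 0
    73485 54545 34848 27273 27273)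

lemma s21_21_6_5_32 {n : ℕ} (hn : 5 ≤ n) : NoNd (d21_21_6_5.R : ℤ) d21_21_6_5.H n d21_21_6_5.a d21_21_6_5.b
    (BlkD.inB (BlkD.upd (BlkD.upd (BlkD.upd (BlkD.upd (fun _ => 0) 0 4) 1 3) 1 4) 2 3)
      (BlkD.upd (BlkD.upd (BlkD.upd (BlkD.upd (BlkD.upd (BlkD.upd (BlkD.upd (fun _ => 21) 0 6) 2 5) 0 5) 0 4) 1 17) 1 8) 1 4)) :=
  BlkD.tree_sound (BlkD.pairOk_sound k21_21_6_5) (by decide) hn t21_21_6_5_32 _ _ (by decide +kernel)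

/-- certificates of the pair `(6, 5)`, part 33 -/
def t21_21_6_5_33 : BlkD.Tr :=
  .S 2 2 (.S 2 1 (.L 6 7 [4, 4, 5, 5, 5, 21] [110, 106, 96, 84, 72, 60] [] 100000 38281 38280
    1175000 0 68750 50000 68750 15625 0 21875) (.S 3 10 (.S 3 5 (.S 3 2 (.L 6 7 [4, 4, 5, 5, 5, 21]
    [110, 106, 96, 84, 72, 60] [] 100000 25000 25000 1200000 0 0 100000 0 25000 0 25000) (.S 3 4
    (.S 3 3 (.L 6 7 [4, 4, 5, 5, 5, 21] [110, 106, 96, 84, 72, 60] [50, 40, 30, 18, 0, 0] 100000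
    18221 18221 1298305 8475 15254 69492 45763 30508 13559 22881) (.L 6 7 [4, 4, 5, 5, 5, 21] [110,
    106, 96, 84, 72, 60] [68, 60, 50, 40, 28, 0] 100000 17733 17733 1326746 0 25581 70930 38372
    29070 23256 18605)) (.L 6 7 [4, 4, 5, 5, 5, 21] [110, 106, 96, 84, 72, 60] [82, 80, 72, 62, 52,
    40] 100000 13095 13095 1328573 0 28571 57143 42857 42857 57143 33333))) (.E 2)) (.E 1))) (.S 2
    4 (.S 2 3 (.S 3 9 (.S 3 4 (.S 3 2 (.L 6 7 [4, 4, 5, 5, 5, 21] [110, 106, 96, 84, 72, 60] []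
    100000 20588 20588 1294611 9804 18627 67157 41176 24020 8824 18995) (.S 3 3 (.L 6 7 [4, 4, 5,
    5, 5, 21] [110, 106, 96, 84, 72, 60] [56, 46, 36, 24, 0, 0] 100000 12838 12838 1313515 0 29730
    62162 64865 48649 62162 32432) (.S 4 5 (.S 4 2 (.L 6 7 [4, 4, 5, 5, 5, 21] [84, 72, 60, 0, 0,
    0] [76, 68, 58, 48, 36, 0] 100000 30769 30768 1261539 7692 23077 100000 46154 0 69231 30769)
    (.L 6 7 [4, 4, 5, 5, 5, 21] [110, 106, 96, 84, 72, 60] [76, 68, 58, 48, 36, 0] 100000 16667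
    16667 1244445 11111 0 100000 33333 33333 66667 33333)) (.E 2)))) (.E 2)) (.E 1)) (.L 6 7 [4, 4,
    5, 5, 5, 21] [110, 106, 96, 84, 72, 60] [] 100000 14147 14146 1327133 20930 0 68217 41860 43411
    37209 26357)) (.L 6 7 [4, 4, 5, 5, 5, 21] [110, 106, 96, 84, 72, 60] [] 100000 5556 5556
    1311111 11111 0 77778 33333 77778 66667 33333))

lemma s21_21_6_5_33 {n : ℕ} (hn : 5 ≤ n) : NoNd (d21_21_6_5.R : ℤ) d21_21_6_5.H n d21_21_6_5.a d21_21_6_5.b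
    (BlkD.inB (BlkD.upd (BlkD.upd (fun _ => 0) 0 4) 1 5)
      (BlkD.upd (BlkD.upd (BlkD.upd (BlkD.upd (BlkD.upd (BlkD.upd (BlkD.upd (BlkD.upd (fun _ => 21) 0 6) 2 5) 0 5) 0 4) 1 17) 1 8) 1 6) 1 5)) :=
  BlkD.tree_sound (BlkD.pairOk_sound k21_21_6_5) (by decide) hn t21_21_6_5_33 _ _ (by decide +kernel)

/-- certificates of the pair `(6, 5)`, part 34 -/
def t21_21_6_5_34 : BlkD.Tr :=
  .L 6 7 [4, 4, 5, 5, 5, 21] [128, 128, 124, 114, 102, 90] [] 100000 25000 16667 1175001 0 0 108333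
    50000 16667 8333 25000

lemma s21_21_6_5_34 {n : ℕ} (hn : 5 ≤ n) : NoNd (d21_21_6_5.R : ℤ) d21_21_6_5.H n d21_21_6_5.a d21_21_6_5.b
    (BlkD.inB (BlkD.upd (BlkD.upd (BlkD.upd (fun _ => 0) 0 4) 1 5) 1 6)
      (BlkD.upd (BlkD.upd (BlkD.upd (BlkD.upd (BlkD.upd (BlkD.upd (BlkD.upd (fun _ => 21) 0 6) 2 5) 0 5) 0 4) 1 17) 1 8) 1 6)) :=
  BlkD.tree_sound (BlkD.pairOk_sound k21_21_6_5) (by decide) hn t21_21_6_5_34 _ _ (by decide +kernel)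

/-- certificates of the pair `(6, 5)`, part 35 -/
def t21_21_6_5_35 : BlkD.Tr :=
  .E 0

lemma s21_21_6_5_35 {n : ℕ} (hn : 5 ≤ n) : NoNd (d21_21_6_5.R : ℤ) d21_21_6_5.H n d21_21_6_5.a d21_21_6_5.b
    (BlkD.inB (BlkD.upd (BlkD.upd (BlkD.upd (fun _ => 0) 0 4) 1 5) 1 7)
      (BlkD.upd (BlkD.upd (BlkD.upd (BlkD.upd (BlkD.upd (BlkD.upd (fun _ => 21) 0 6) 2 5) 0 5) 0 4) 1 17) 1 8)) :=
  BlkD.tree_sound (BlkD.pairOk_sound k21_21_6_5) (by decide) hn t21_21_6_5_35 _ _ (by decide +kernel)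

/-- certificates of the pair `(6, 5)`, part 36 -/
def t21_21_6_5_36 : BlkD.Tr :=
  .E 0

lemma s21_21_6_5_36 {n : ℕ} (hn : 5 ≤ n) : NoNd (d21_21_6_5.R : ℤ) d21_21_6_5.H n d21_21_6_5.a d21_21_6_5.b
    (BlkD.inB (BlkD.upd (BlkD.upd (fun _ => 0) 0 4) 1 9)
      (BlkD.upd (BlkD.upd (BlkD.upd (BlkD.upd (BlkD.upd (fun _ => 21) 0 6) 2 5) 0 5) 0 4) 1 17)) :=
  BlkD.tree_sound (BlkD.pairOk_sound k21_21_6_5) (by decide) hn t21_21_6_5_36 _ _ (by decide +kernel)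

/-- certificates of the pair `(6, 5)`, part 37 -/
def t21_21_6_5_37 : BlkD.Tr :=
  .E 0

lemma s21_21_6_5_37 {n : ℕ} (hn : 5 ≤ n) : NoNd (d21_21_6_5.R : ℤ) d21_21_6_5.H n d21_21_6_5.a d21_21_6_5.b
    (BlkD.inB (BlkD.upd (BlkD.upd (fun _ => 0) 0 4) 1 18)
      (BlkD.upd (BlkD.upd (BlkD.upd (BlkD.upd (fun _ => 21) 0 6) 2 5) 0 5) 0 4)) :=
  BlkD.tree_sound (BlkD.pairOk_sound k21_21_6_5) (by decide) hn t21_21_6_5_37 _ _ (by decide +kernel)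

/-- certificates of the pair `(6, 5)`, part 38 -/
def t21_21_6_5_38 : BlkD.Tr :=
  .S 1 16 (.S 1 8 (.S 1 4 (.S 1 2 (.S 1 1 (.L 6 7 [4, 4, 5, 5, 5, 21] [] [] 100000 23291 23291
    1297800 27077 4520 72638 66083 6840 21417 25000) (.L 6 7 [4, 4, 5, 5, 5, 21] [46, 34, 22, 0, 0,
    0] [] 100000 17683 17683 1315448 26016 6504 67480 42276 41463 14634 21545)) (.S 1 3 (.S 2 2 (.L
    6 7 [4, 4, 5, 5, 5, 21] [72, 60, 48, 36, 0, 0] [] 100000 15385 15385 1334617 15385 17308 50000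
    50000 50000 19231 23077) (.L 6 7 [4, 4, 5, 5, 5, 21] [72, 60, 48, 36, 0, 0] [] 100000 15651
    15651 1330894 15447 0 69106 69106 37398 18699 29268)) (.L 6 7 [4, 4, 5, 5, 5, 21] [98, 88, 76,
    64, 52, 0] [] 100000 22917 22917 1300000 0 0 100000 50000 22917 8333 25000))) (.E 0)) (.E 0))
    (.E 0)

lemma s21_21_6_5_38 {n : ℕ} (hn : 5 ≤ n) : NoNd (d21_21_6_5.R : ℤ) d21_21_6_5.H n d21_21_6_5.a d21_21_6_5.b
    (BlkD.inB (BlkD.upd (BlkD.upd (fun _ => 0) 0 4) 0 5)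
      (BlkD.upd (BlkD.upd (BlkD.upd (fun _ => 21) 0 6) 2 5) 0 5)) :=
  BlkD.tree_sound (BlkD.pairOk_sound k21_21_6_5) (by decide) hn t21_21_6_5_38 _ _ (by decide +kernel)

/-- certificates of the pair `(6, 5)`, part 39 -/
def t21_21_6_5_39 : BlkD.Tr :=
  .S 1 15 (.S 1 7 (.S 1 3 (.S 1 1 (.L 6 7 [4, 4, 5, 5, 5, 21] [] [] 100000 15000 15000 1320000
    30000 10000 70000 50000 50000 20000 20000) (.L 6 7 [4, 4, 5, 5, 5, 21] [] [] 100000 20099 20099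
    1309804 0 1961 90196 45098 22549 9804 22549)) (.E 0)) (.E 0)) (.E 0)

lemma s21_21_6_5_39 {n : ℕ} (hn : 5 ≤ n) : NoNd (d21_21_6_5.R : ℤ) d21_21_6_5.H n d21_21_6_5.a d21_21_6_5.b
    (BlkD.inB (BlkD.upd (BlkD.upd (fun _ => 0) 0 4) 0 6)
      (BlkD.upd (BlkD.upd (fun _ => 21) 0 6) 2 5)) :=
  BlkD.tree_sound (BlkD.pairOk_sound k21_21_6_5) (by decide) hn t21_21_6_5_39 _ _ (by decide +kernel)

/-- certificates of the pair `(6, 5)`, part 40 -/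
def t21_21_6_5_40 : BlkD.Tr :=
  .E 1

lemma s21_21_6_5_40 {n : ℕ} (hn : 5 ≤ n) : NoNd (d21_21_6_5.R : ℤ) d21_21_6_5.H n d21_21_6_5.a d21_21_6_5.b
    (BlkD.inB (BlkD.upd (fun _ => 0) 2 6)
      (BlkD.upd (fun _ => 21) 0 6)) :=
  BlkD.tree_sound (BlkD.pairOk_sound k21_21_6_5) (by decide) hn t21_21_6_5_40 _ _ (by decide +kernel)

/-- certificates of the pair `(6, 5)`, part 41 -/
def t21_21_6_5_41 : BlkD.Tr :=
  .E 0

lemma s21_21_6_5_41 {n : ℕ} (hn : 5 ≤ n) : NoNd (d21_21_6_5.R : ℤ) d21_21_6_5.H n d21_21_6_5.a d21_21_6_5.b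
    (BlkD.inB (BlkD.upd (fun _ => 0) 0 7)
      (fun _ => 21)) :=
  BlkD.tree_sound (BlkD.pairOk_sound k21_21_6_5) (by decide) hn t21_21_6_5_41 _ _ (by decide +kernel)

lemma pr21_21_6_5 {n : ℕ} (hn : 5 ≤ n) : NoPr ((21 : ℕ) : ℤ) ((21 : ℕ) : ℤ) n 6 5 :=
  BlkD.of_root (R := d21_21_6_5.R) (H := d21_21_6_5.H) (a := d21_21_6_5.a) (b := d21_21_6_5.b) (q := 3) (by decide) hn
    (BlkD.sp 0 6 (BlkD.sp 2 5 (BlkD.sp 0 3 (BlkD.sp 0 1 (BlkD.sp 0 0 (s21_21_6_5_1 hn) (BlkD.sp 1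
      10 (BlkD.sp 1 5 (s21_21_6_5_2 hn) (s21_21_6_5_3 hn)) (s21_21_6_5_4 hn))) (BlkD.sp 0 2
      (BlkD.sp 1 19 (BlkD.sp 1 9 (BlkD.sp 1 4 (s21_21_6_5_5 hn) (BlkD.sp 1 7 (BlkD.sp 1 6 (BlkD.sp
      1 5 (BlkD.sp 2 2 (s21_21_6_5_6 hn) (s21_21_6_5_7 hn)) (BlkD.sp 2 2 (s21_21_6_5_8 hn)
      (s21_21_6_5_9 hn))) (s21_21_6_5_10 hn)) (s21_21_6_5_11 hn))) (s21_21_6_5_12 hn))
      (s21_21_6_5_13 hn)) (BlkD.sp 1 18 (BlkD.sp 1 9 (BlkD.sp 1 4 (BlkD.sp 1 2 (s21_21_6_5_14 hn)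
      (BlkD.sp 1 3 (s21_21_6_5_15 hn) (BlkD.sp 2 2 (s21_21_6_5_16 hn) (s21_21_6_5_17 hn))))
      (BlkD.sp 1 7 (BlkD.sp 1 6 (BlkD.sp 1 5 (BlkD.sp 2 2 (BlkD.sp 2 1 (s21_21_6_5_18 hn) (BlkD.sp
      3 11 (s21_21_6_5_19 hn) (s21_21_6_5_20 hn))) (s21_21_6_5_21 hn)) (BlkD.sp 2 2 (s21_21_6_5_22
      hn) (s21_21_6_5_23 hn))) (s21_21_6_5_24 hn)) (s21_21_6_5_25 hn))) (s21_21_6_5_26 hn))
      (s21_21_6_5_27 hn)))) (BlkD.sp 0 5 (BlkD.sp 0 4 (BlkD.sp 1 17 (BlkD.sp 1 8 (BlkD.sp 1 4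
      (BlkD.sp 1 2 (s21_21_6_5_28 hn) (BlkD.sp 1 3 (BlkD.sp 2 2 (s21_21_6_5_29 hn) (s21_21_6_5_30
      hn)) (BlkD.sp 2 2 (s21_21_6_5_31 hn) (s21_21_6_5_32 hn)))) (BlkD.sp 1 6 (BlkD.sp 1 5
      (s21_21_6_5_33 hn) (s21_21_6_5_34 hn)) (s21_21_6_5_35 hn))) (s21_21_6_5_36 hn))
      (s21_21_6_5_37 hn)) (s21_21_6_5_38 hn)) (s21_21_6_5_39 hn))) (s21_21_6_5_40 hn))
      (s21_21_6_5_41 hn))

end BlkC

end Pool.Agent.Lib.MP_f04ccf_co
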