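import Pool.Agent.Lib.MP_f04ccf_co.M.BlkT

/-!
MP_f04ccf_co, block certificate, data `R = 21`, `H = 21`, part 4 (generated, helper99:
bd10.cpp, gen2.py).
-/

set_option autoImplicit false
set_option maxRecDepth 100000

namespace Pool.Agent.Lib.MP_f04ccf_co

namespace BlkC

/-- the numbers of the pair `(7, 0)`, `R = 21`, `H = 21` -/
def d21_21_7_0 : BlkD.Pd :=
  ⟨21, 21, 3, 7, 0, 11, 0, 1, 0, 4, 4, 0, 0, 4, 4, 0, [0, 4, 8, 12, 16, 20, 24, 28, 32, 36, 40,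
    44], [0, 4, 8, 12, 16, 20, 24, 28, 32, 36, 40, 44], [⟨1, 1, 1, 4, 8, [0, 4], [0, 4]⟩]⟩

/-- the certificates of the pair `(7, 0)` -/
def t21_21_7_0 : BlkD.Tr :=
  .S 0 7 (.S 2 0 (.L 4 4 [4] [] [] 100000 0 0 800000 50000 0 50000 50000 0 0 0) (.E 1)) (.E 0)

lemma pr21_21_7_0 {n : ℕ} (hn : 5 ≤ n) : NoPr ((21 : ℕ) : ℤ) ((21 : ℕ) : ℤ) n 7 0 :=
  BlkD.pair_sound (d := d21_21_7_0) (by decide +kernel) hn (by decide) (tr := t21_21_7_0)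
    (by decide +kernel) rfl rfl rfl rfl

/-- the numbers of the pair `(7, 1)`, `R = 21`, `H = 21` -/
def d21_21_7_1 : BlkD.Pd :=
  ⟨21, 21, 3, 7, 1, 10, 1, 1, 2, 2, 6, 0, 0, 4, 4, 0, [0, 6, 12, 18, 24, 30, 32, 34, 36, 38, 40],
    [0, 4, 8, 12, 16, 20, 24, 28, 32, 36, 40], [⟨1, 1, 1, 4, 8, [0, 4], [0, 4]⟩, ⟨1, 1, 1, 4, 10,
    [0, 6], [0, 4]⟩]⟩

lemma k21_21_7_1 : BlkD.pairOk d21_21_7_1 = true := by decide +kernel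

/-- certificates of the pair `(7, 1)`, part 1 -/
def t21_21_7_1_1 : BlkD.Tr :=
  .L 4 5 [4, 4] [] [] 100000 0 0 950000 50000 0 75000 0 0 0 0

lemma s21_21_7_1_1 {n : ℕ} (hn : 5 ≤ n) : NoNd (d21_21_7_1.R : ℤ) d21_21_7_1.H n d21_21_7_1.a d21_21_7_1.b
    (BlkD.inB (fun _ => 0)
      (BlkD.upd (BlkD.upd (BlkD.upd (BlkD.upd (fun _ => 21) 0 7) 2 1) 0 3) 0 1)) :=
  BlkD.tree_sound (BlkD.pairOk_sound k21_21_7_1) (by decide) hn t21_21_7_1_1 _ _ (by decide +kernel)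

/-- certificates of the pair `(7, 1)`, part 2 -/
def t21_21_7_1_2 : BlkD.Tr :=
  .L 4 5 [4, 4] [] [] 100000 0 0 950000 50000 0 75000 0 0 0 0

lemma s21_21_7_1_2 {n : ℕ} (hn : 5 ≤ n) : NoNd (d21_21_7_1.R : ℤ) d21_21_7_1.H n d21_21_7_1.a d21_21_7_1.b
    (BlkD.inB (BlkD.upd (fun _ => 0) 0 2)
      (BlkD.upd (BlkD.upd (BlkD.upd (fun _ => 21) 0 7) 2 1) 0 3)) :=
  BlkD.tree_sound (BlkD.pairOk_sound k21_21_7_1) (by decide) hn t21_21_7_1_2 _ _ (by decide +kernel)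

/-- certificates of the pair `(7, 1)`, part 3 -/
def t21_21_7_1_3 : BlkD.Tr :=
  .L 4 5 [4, 4] [] [] 100000 0 0 950000 50000 0 75000 0 0 0 0

lemma s21_21_7_1_3 {n : ℕ} (hn : 5 ≤ n) : NoNd (d21_21_7_1.R : ℤ) d21_21_7_1.H n d21_21_7_1.a d21_21_7_1.b
    (BlkD.inB (BlkD.upd (fun _ => 0) 0 4)
      (BlkD.upd (BlkD.upd (fun _ => 21) 0 7) 2 1)) :=
  BlkD.tree_sound (BlkD.pairOk_sound k21_21_7_1) (by decide) hn t21_21_7_1_3 _ _ (by decide +kernel)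

/-- certificates of the pair `(7, 1)`, part 4 -/
def t21_21_7_1_4 : BlkD.Tr :=
  .E 1

lemma s21_21_7_1_4 {n : ℕ} (hn : 5 ≤ n) : NoNd (d21_21_7_1.R : ℤ) d21_21_7_1.H n d21_21_7_1.a d21_21_7_1.b
    (BlkD.inB (BlkD.upd (fun _ => 0) 2 2)
      (BlkD.upd (fun _ => 21) 0 7)) :=
  BlkD.tree_sound (BlkD.pairOk_sound k21_21_7_1) (by decide) hn t21_21_7_1_4 _ _ (by decide +kernel)

/-- certificates of the pair `(7, 1)`, part 5 -/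
def t21_21_7_1_5 : BlkD.Tr :=
  .E 0

lemma s21_21_7_1_5 {n : ℕ} (hn : 5 ≤ n) : NoNd (d21_21_7_1.R : ℤ) d21_21_7_1.H n d21_21_7_1.a d21_21_7_1.b
    (BlkD.inB (BlkD.upd (fun _ => 0) 0 8)
      (fun _ => 21)) :=
  BlkD.tree_sound (BlkD.pairOk_sound k21_21_7_1) (by decide) hn t21_21_7_1_5 _ _ (by decide +kernel)

lemma pr21_21_7_1 {n : ℕ} (hn : 5 ≤ n) : NoPr ((21 : ℕ) : ℤ) ((21 : ℕ) : ℤ) n 7 1 :=
  BlkD.of_root (R := d21_21_7_1.R) (H := d21_21_7_1.H) (a := d21_21_7_1.a) (b := d21_21_7_1.b) (q := 3) (by decide) hn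
    (BlkD.sp 0 7 (BlkD.sp 2 1 (BlkD.sp 0 3 (BlkD.sp 0 1 (s21_21_7_1_1 hn) (s21_21_7_1_2 hn))
      (s21_21_7_1_3 hn)) (s21_21_7_1_4 hn)) (s21_21_7_1_5 hn))

/-- the numbers of the pair `(7, 2)`, `R = 21`, `H = 21` -/
def d21_21_7_2 : BlkD.Pd :=
  ⟨21, 21, 3, 7, 2, 9, 2, 1, 2, 2, 8, 0, 0, 4, 6, 0, [0, 8, 16, 24, 26, 28, 30, 32, 34, 36], [0, 6,
    12, 18, 24, 30, 36, 36, 36, 36], [⟨1, 1, 1, 4, 8, [0, 4], [0, 4]⟩, ⟨1, 1, 1, 4, 10, [0, 6], [0,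
    4]⟩, ⟨1, 1, 1, 6, 14, [0, 8], [0, 6]⟩]⟩

lemma k21_21_7_2 : BlkD.pairOk d21_21_7_2 = true := by decide +kernel

/-- certificates of the pair `(7, 2)`, part 1 -/
def t21_21_7_2_1 : BlkD.Tr :=
  .L 4 5 [4, 4, 5] [] [] 100000 0 0 1154169 20833 0 54167 10417 12500 33333 33333

lemma s21_21_7_2_1 {n : ℕ} (hn : 5 ≤ n) : NoNd (d21_21_7_2.R : ℤ) d21_21_7_2.H n d21_21_7_2.a d21_21_7_2.b
    (BlkD.inB (fun _ => 0)
      (BlkD.upd (BlkD.upd (BlkD.upd (BlkD.upd (fun _ => 21) 0 7) 2 2) 0 3) 0 1)) :=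
  BlkD.tree_sound (BlkD.pairOk_sound k21_21_7_2) (by decide) hn t21_21_7_2_1 _ _ (by decide +kernel)

/-- certificates of the pair `(7, 2)`, part 2 -/
def t21_21_7_2_2 : BlkD.Tr :=
  .S 0 2 (.L 4 5 [4, 4, 5] [] [] 100000 0 0 1154169 20833 0 54167 10417 12500 33333 33333) (.L 4 5
    [4, 4, 5] [] [] 100000 0 0 1154169 20833 0 54167 10417 12500 33333 33333)

lemma s21_21_7_2_2 {n : ℕ} (hn : 5 ≤ n) : NoNd (d21_21_7_2.R : ℤ) d21_21_7_2.H n d21_21_7_2.a d21_21_7_2.b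
    (BlkD.inB (BlkD.upd (fun _ => 0) 0 2)
      (BlkD.upd (BlkD.upd (BlkD.upd (fun _ => 21) 0 7) 2 2) 0 3)) :=
  BlkD.tree_sound (BlkD.pairOk_sound k21_21_7_2) (by decide) hn t21_21_7_2_2 _ _ (by decide +kernel)

/-- certificates of the pair `(7, 2)`, part 3 -/
def t21_21_7_2_3 : BlkD.Tr :=
  .L 4 5 [4, 4, 5] [] [] 100000 0 0 1154169 20833 0 54167 10417 12500 33333 33333

lemma s21_21_7_2_3 {n : ℕ} (hn : 5 ≤ n) : NoNd (d21_21_7_2.R : ℤ) d21_21_7_2.H n d21_21_7_2.a d21_21_7_2.b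
    (BlkD.inB (BlkD.upd (fun _ => 0) 0 4)
      (BlkD.upd (BlkD.upd (fun _ => 21) 0 7) 2 2)) :=
  BlkD.tree_sound (BlkD.pairOk_sound k21_21_7_2) (by decide) hn t21_21_7_2_3 _ _ (by decide +kernel)

/-- certificates of the pair `(7, 2)`, part 4 -/
def t21_21_7_2_4 : BlkD.Tr :=
  .E 1

lemma s21_21_7_2_4 {n : ℕ} (hn : 5 ≤ n) : NoNd (d21_21_7_2.R : ℤ) d21_21_7_2.H n d21_21_7_2.a d21_21_7_2.b
    (BlkD.inB (BlkD.upd (fun _ => 0) 2 3)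
      (BlkD.upd (fun _ => 21) 0 7)) :=
  BlkD.tree_sound (BlkD.pairOk_sound k21_21_7_2) (by decide) hn t21_21_7_2_4 _ _ (by decide +kernel)

/-- certificates of the pair `(7, 2)`, part 5 -/
def t21_21_7_2_5 : BlkD.Tr :=
  .E 0

lemma s21_21_7_2_5 {n : ℕ} (hn : 5 ≤ n) : NoNd (d21_21_7_2.R : ℤ) d21_21_7_2.H n d21_21_7_2.a d21_21_7_2.b
    (BlkD.inB (BlkD.upd (fun _ => 0) 0 8)
      (fun _ => 21)) :=
  BlkD.tree_sound (BlkD.pairOk_sound k21_21_7_2) (by decide) hn t21_21_7_2_5 _ _ (by decide +kernel)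

lemma pr21_21_7_2 {n : ℕ} (hn : 5 ≤ n) : NoPr ((21 : ℕ) : ℤ) ((21 : ℕ) : ℤ) n 7 2 :=
  BlkD.of_root (R := d21_21_7_2.R) (H := d21_21_7_2.H) (a := d21_21_7_2.a) (b := d21_21_7_2.b) (q := 3) (by decide) hn
    (BlkD.sp 0 7 (BlkD.sp 2 2 (BlkD.sp 0 3 (BlkD.sp 0 1 (s21_21_7_2_1 hn) (s21_21_7_2_2 hn))
      (s21_21_7_2_3 hn)) (s21_21_7_2_4 hn)) (s21_21_7_2_5 hn))

/-- the numbers of the pair `(7, 3)`, `R = 21`, `H = 21` -/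
def d21_21_7_3 : BlkD.Pd :=
  ⟨21, 21, 3, 7, 3, 8, 3, 2, 1, 4, 10, 0, 4, 1, 8, 0, [0, 10, 20, 30, 36, 37, 38, 39, 40], [0, 8,
    16, 20, 24, 28, 32, 36, 40], [⟨1, 1, 1, 4, 8, [0, 4], [0, 4]⟩, ⟨1, 1, 1, 6, 12, [0, 6], [0,
    6]⟩, ⟨1, 1, 1, 6, 14, [0, 8], [0, 6]⟩, ⟨2, 1, 1, 6, 26, [0, 10, 18], [0, 8]⟩]⟩

lemma k21_21_7_3 : BlkD.pairOk d21_21_7_3 = true := by decide +kernel

/-- certificates of the pair `(7, 3)`, part 1 -/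
def t21_21_7_3_1 : BlkD.Tr :=
  .L 5 7 [4, 4, 5, 5] [] [] 100000 100000 100000 600001 100000 0 100000 33333 0 0 0

lemma s21_21_7_3_1 {n : ℕ} (hn : 5 ≤ n) : NoNd (d21_21_7_3.R : ℤ) d21_21_7_3.H n d21_21_7_3.a d21_21_7_3.b
    (BlkD.inB (fun _ => 0)
      (BlkD.upd (BlkD.upd (BlkD.upd (BlkD.upd (BlkD.upd (fun _ => 21) 0 7) 2 3) 0 3) 0 1) 0 0)) :=
  BlkD.tree_sound (BlkD.pairOk_sound k21_21_7_3) (by decide) hn t21_21_7_3_1 _ _ (by decide +kernel)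

/-- certificates of the pair `(7, 3)`, part 2 -/
def t21_21_7_3_2 : BlkD.Tr :=
  .L 5 7 [4, 4, 5, 5] [] [] 100000 100000 100000 600001 100000 0 100000 33333 0 0 0

lemma s21_21_7_3_2 {n : ℕ} (hn : 5 ≤ n) : NoNd (d21_21_7_3.R : ℤ) d21_21_7_3.H n d21_21_7_3.a d21_21_7_3.b
    (BlkD.inB (BlkD.upd (fun _ => 0) 0 1)
      (BlkD.upd (BlkD.upd (BlkD.upd (BlkD.upd (BlkD.upd (BlkD.upd (fun _ => 21) 0 7) 2 3) 0 3) 0 1) 1 10) 1 5)) :=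
  BlkD.tree_sound (BlkD.pairOk_sound k21_21_7_3) (by decide) hn t21_21_7_3_2 _ _ (by decide +kernel)

/-- certificates of the pair `(7, 3)`, part 3 -/
def t21_21_7_3_3 : BlkD.Tr :=
  .S 1 8 (.L 5 7 [4, 4, 5, 5] [] [] 100000 100000 100000 600001 100000 0 100000 33333 0 0 0) (.L 5
    7 [4, 4, 5, 5] [] [] 100000 100000 100000 600001 100000 0 100000 33333 0 0 0)

lemma s21_21_7_3_3 {n : ℕ} (hn : 5 ≤ n) : NoNd (d21_21_7_3.R : ℤ) d21_21_7_3.H n d21_21_7_3.a d21_21_7_3.b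
    (BlkD.inB (BlkD.upd (BlkD.upd (fun _ => 0) 0 1) 1 6)
      (BlkD.upd (BlkD.upd (BlkD.upd (BlkD.upd (BlkD.upd (fun _ => 21) 0 7) 2 3) 0 3) 0 1) 1 10)) :=
  BlkD.tree_sound (BlkD.pairOk_sound k21_21_7_3) (by decide) hn t21_21_7_3_3 _ _ (by decide +kernel)

/-- certificates of the pair `(7, 3)`, part 4 -/
def t21_21_7_3_4 : BlkD.Tr :=
  .L 5 7 [4, 4, 5, 5] [] [] 100000 100000 100000 600001 100000 0 100000 33333 0 0 0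

lemma s21_21_7_3_4 {n : ℕ} (hn : 5 ≤ n) : NoNd (d21_21_7_3.R : ℤ) d21_21_7_3.H n d21_21_7_3.a d21_21_7_3.b
    (BlkD.inB (BlkD.upd (BlkD.upd (fun _ => 0) 0 1) 1 11)
      (BlkD.upd (BlkD.upd (BlkD.upd (BlkD.upd (fun _ => 21) 0 7) 2 3) 0 3) 0 1)) :=
  BlkD.tree_sound (BlkD.pairOk_sound k21_21_7_3) (by decide) hn t21_21_7_3_4 _ _ (by decide +kernel)

/-- certificates of the pair `(7, 3)`, part 5 -/
def t21_21_7_3_5 : BlkD.Tr :=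
  .L 5 7 [4, 4, 5, 5] [] [] 100000 50000 50000 875000 50000 0 50000 25000 0 0 0

lemma s21_21_7_3_5 {n : ℕ} (hn : 5 ≤ n) : NoNd (d21_21_7_3.R : ℤ) d21_21_7_3.H n d21_21_7_3.a d21_21_7_3.b
    (BlkD.inB (BlkD.upd (fun _ => 0) 0 2)
      (BlkD.upd (BlkD.upd (BlkD.upd (BlkD.upd (BlkD.upd (BlkD.upd (BlkD.upd (fun _ => 21) 0 7) 2 3) 0 3) 0 2) 1 19) 1 9) 1 4)) :=
  BlkD.tree_sound (BlkD.pairOk_sound k21_21_7_3) (by decide) hn t21_21_7_3_5 _ _ (by decide +kernel)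

/-- certificates of the pair `(7, 3)`, part 6 -/
def t21_21_7_3_6 : BlkD.Tr :=
  .S 1 7 (.L 5 7 [4, 4, 5, 5] [] [] 100000 25463 25462 1105555 38889 0 43750 22222 694 22222 22222)
    (.S 1 8 (.L 5 7 [4, 4, 5, 5] [144, 143, 142, 136, 128, 118] [] 100000 26667 26667 1100000 40000
    0 60000 40000 0 20000 20000) (.L 5 7 [4, 4, 5, 5] [165, 164, 163, 162, 156, 148] [] 100000
    52846 52846 958536 63415 0 78049 26829 0 9756 7317))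

lemma s21_21_7_3_6 {n : ℕ} (hn : 5 ≤ n) : NoNd (d21_21_7_3.R : ℤ) d21_21_7_3.H n d21_21_7_3.a d21_21_7_3.b
    (BlkD.inB (BlkD.upd (BlkD.upd (fun _ => 0) 0 2) 1 5)
      (BlkD.upd (BlkD.upd (BlkD.upd (BlkD.upd (BlkD.upd (BlkD.upd (fun _ => 21) 0 7) 2 3) 0 3) 0 2) 1 19) 1 9)) :=
  BlkD.tree_sound (BlkD.pairOk_sound k21_21_7_3) (by decide) hn t21_21_7_3_6 _ _ (by decide +kernel)

/-- certificates of the pair `(7, 3)`, part 7 -/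
def t21_21_7_3_7 : BlkD.Tr :=
  .L 5 7 [4, 4, 5, 5] [] [] 100000 22393 22392 1145131 13846 0 92821 43077 7179 18462 27692

lemma s21_21_7_3_7 {n : ℕ} (hn : 5 ≤ n) : NoNd (d21_21_7_3.R : ℤ) d21_21_7_3.H n d21_21_7_3.a d21_21_7_3.b
    (BlkD.inB (BlkD.upd (BlkD.upd (fun _ => 0) 0 2) 1 10)
      (BlkD.upd (BlkD.upd (BlkD.upd (BlkD.upd (BlkD.upd (fun _ => 21) 0 7) 2 3) 0 3) 0 2) 1 19)) :=
  BlkD.tree_sound (BlkD.pairOk_sound k21_21_7_3) (by decide) hn t21_21_7_3_7 _ _ (by decide +kernel)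

/-- certificates of the pair `(7, 3)`, part 8 -/
def t21_21_7_3_8 : BlkD.Tr :=
  .E 0

lemma s21_21_7_3_8 {n : ℕ} (hn : 5 ≤ n) : NoNd (d21_21_7_3.R : ℤ) d21_21_7_3.H n d21_21_7_3.a d21_21_7_3.b
    (BlkD.inB (BlkD.upd (BlkD.upd (fun _ => 0) 0 2) 1 20)
      (BlkD.upd (BlkD.upd (BlkD.upd (BlkD.upd (fun _ => 21) 0 7) 2 3) 0 3) 0 2)) :=
  BlkD.tree_sound (BlkD.pairOk_sound k21_21_7_3) (by decide) hn t21_21_7_3_8 _ _ (by decide +kernel)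

/-- certificates of the pair `(7, 3)`, part 9 -/
def t21_21_7_3_9 : BlkD.Tr :=
  .L 5 7 [4, 4, 5, 5] [] [] 100000 33333 33332 1000001 33333 0 33333 66667 0 0 16667

lemma s21_21_7_3_9 {n : ℕ} (hn : 5 ≤ n) : NoNd (d21_21_7_3.R : ℤ) d21_21_7_3.H n d21_21_7_3.a d21_21_7_3.b
    (BlkD.inB (BlkD.upd (BlkD.upd (fun _ => 0) 0 2) 0 3)
      (BlkD.upd (BlkD.upd (BlkD.upd (BlkD.upd (BlkD.upd (BlkD.upd (fun _ => 21) 0 7) 2 3) 0 3) 1 18) 1 9) 1 4)) :=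
  BlkD.tree_sound (BlkD.pairOk_sound k21_21_7_3) (by decide) hn t21_21_7_3_9 _ _ (by decide +kernel)

/-- certificates of the pair `(7, 3)`, part 10 -/
def t21_21_7_3_10 : BlkD.Tr :=
  .S 1 7 (.S 1 6 (.S 1 5 (.L 5 7 [4, 4, 5, 5] [98, 90, 80, 70, 60, 50] [] 100000 25000 25000
    1100002 33333 0 33333 33333 0 25000 25000) (.L 5 7 [4, 4, 5, 5] [120, 114, 106, 96, 86, 76] []
    100000 26351 26350 1134460 33108 0 66554 33446 0 20946 26689)) (.L 5 7 [4, 4, 5, 5] [139, 138,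
    132, 124, 114, 104] [] 100000 26667 26667 1140000 40000 0 60000 40000 0 20000 20000)) (.L 5 7
    [4, 4, 5, 5] [] [] 100000 19845 19845 1183646 4673 0 97664 76168 14299 23832 20000)

lemma s21_21_7_3_10 {n : ℕ} (hn : 5 ≤ n) : NoNd (d21_21_7_3.R : ℤ) d21_21_7_3.H n d21_21_7_3.a d21_21_7_3.b
    (BlkD.inB (BlkD.upd (BlkD.upd (BlkD.upd (fun _ => 0) 0 2) 0 3) 1 5)
      (BlkD.upd (BlkD.upd (BlkD.upd (BlkD.upd (BlkD.upd (fun _ => 21) 0 7) 2 3) 0 3) 1 18) 1 9)) :=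
  BlkD.tree_sound (BlkD.pairOk_sound k21_21_7_3) (by decide) hn t21_21_7_3_10 _ _ (by decide +kernel)

/-- certificates of the pair `(7, 3)`, part 11 -/
def t21_21_7_3_11 : BlkD.Tr :=
  .E 0

lemma s21_21_7_3_11 {n : ℕ} (hn : 5 ≤ n) : NoNd (d21_21_7_3.R : ℤ) d21_21_7_3.H n d21_21_7_3.a d21_21_7_3.b
    (BlkD.inB (BlkD.upd (BlkD.upd (BlkD.upd (fun _ => 0) 0 2) 0 3) 1 10)
      (BlkD.upd (BlkD.upd (BlkD.upd (BlkD.upd (fun _ => 21) 0 7) 2 3) 0 3) 1 18)) :=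
  BlkD.tree_sound (BlkD.pairOk_sound k21_21_7_3) (by decide) hn t21_21_7_3_11 _ _ (by decide +kernel)

/-- certificates of the pair `(7, 3)`, part 12 -/
def t21_21_7_3_12 : BlkD.Tr :=
  .E 0

lemma s21_21_7_3_12 {n : ℕ} (hn : 5 ≤ n) : NoNd (d21_21_7_3.R : ℤ) d21_21_7_3.H n d21_21_7_3.a d21_21_7_3.b
    (BlkD.inB (BlkD.upd (BlkD.upd (BlkD.upd (fun _ => 0) 0 2) 0 3) 1 19)
      (BlkD.upd (BlkD.upd (BlkD.upd (fun _ => 21) 0 7) 2 3) 0 3)) :=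
  BlkD.tree_sound (BlkD.pairOk_sound k21_21_7_3) (by decide) hn t21_21_7_3_12 _ _ (by decide +kernel)

/-- certificates of the pair `(7, 3)`, part 13 -/
def t21_21_7_3_13 : BlkD.Tr :=
  .S 1 17 (.S 1 8 (.S 1 4 (.L 5 7 [4, 4, 5, 5] [] [] 100000 23810 23810 1128571 25000 0 25000 71429
    0 28571 28571) (.S 1 6 (.S 1 5 (.L 5 7 [4, 4, 5, 5] [108, 100, 90, 80, 70, 60] [] 100000 19377
    19376 1183228 29193 0 70359 49168 10115 21639 26889) (.L 5 7 [4, 4, 5, 5] [132, 126, 118, 108,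
    98, 88] [] 100000 24631 24630 1166578 33062 0 68112 43902 2800 20506 20506)) (.L 5 7 [4, 4, 5,
    5] [] [] 100000 19845 19845 1188319 4673 0 97664 76168 14299 23832 20000))) (.E 0)) (.E 0)

lemma s21_21_7_3_13 {n : ℕ} (hn : 5 ≤ n) : NoNd (d21_21_7_3.R : ℤ) d21_21_7_3.H n d21_21_7_3.a d21_21_7_3.b
    (BlkD.inB (BlkD.upd (fun _ => 0) 0 4)
      (BlkD.upd (BlkD.upd (BlkD.upd (BlkD.upd (fun _ => 21) 0 7) 2 3) 0 5) 0 4)) :=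
  BlkD.tree_sound (BlkD.pairOk_sound k21_21_7_3) (by decide) hn t21_21_7_3_13 _ _ (by decide +kernel)

/-- certificates of the pair `(7, 3)`, part 14 -/
def t21_21_7_3_14 : BlkD.Tr :=
  .S 1 16 (.S 1 8 (.S 1 4 (.L 5 7 [4, 4, 5, 5] [] [] 100000 16667 16667 1200000 25000 0 87500 50000
    12500 25000 25000) (.L 5 7 [4, 4, 5, 5] [] [] 100000 9836 9836 1216865 4305 0 85112 72377 29776
    25830 20359)) (.E 0)) (.E 0)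

lemma s21_21_7_3_14 {n : ℕ} (hn : 5 ≤ n) : NoNd (d21_21_7_3.R : ℤ) d21_21_7_3.H n d21_21_7_3.a d21_21_7_3.b
    (BlkD.inB (BlkD.upd (BlkD.upd (fun _ => 0) 0 4) 0 5)
      (BlkD.upd (BlkD.upd (BlkD.upd (fun _ => 21) 0 7) 2 3) 0 5)) :=
  BlkD.tree_sound (BlkD.pairOk_sound k21_21_7_3) (by decide) hn t21_21_7_3_14 _ _ (by decide +kernel)

/-- certificates of the pair `(7, 3)`, part 15 -/
def t21_21_7_3_15 : BlkD.Tr :=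
  .S 0 6 (.S 1 15 (.S 1 7 (.S 1 3 (.L 5 7 [4, 4, 5, 5] [] [] 100000 11111 11111 1200003 33333 0
    80952 52381 19048 28571 28571) (.L 5 7 [4, 4, 5, 5] [] [] 100000 16247 16246 1102517 5031 0
    97484 47484 27673 21069 25157)) (.E 0)) (.E 0)) (.L 5 7 [4, 4, 5, 5] [] [] 100000 0 0 1200000 0
    0 50000 25000 50000 25000 25000)

lemma s21_21_7_3_15 {n : ℕ} (hn : 5 ≤ n) : NoNd (d21_21_7_3.R : ℤ) d21_21_7_3.H n d21_21_7_3.a d21_21_7_3.b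
    (BlkD.inB (BlkD.upd (BlkD.upd (fun _ => 0) 0 4) 0 6)
      (BlkD.upd (BlkD.upd (fun _ => 21) 0 7) 2 3)) :=
  BlkD.tree_sound (BlkD.pairOk_sound k21_21_7_3) (by decide) hn t21_21_7_3_15 _ _ (by decide +kernel)

/-- certificates of the pair `(7, 3)`, part 16 -/
def t21_21_7_3_16 : BlkD.Tr :=
  .E 1

lemma s21_21_7_3_16 {n : ℕ} (hn : 5 ≤ n) : NoNd (d21_21_7_3.R : ℤ) d21_21_7_3.H n d21_21_7_3.a d21_21_7_3.b
    (BlkD.inB (BlkD.upd (fun _ => 0) 2 4)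
      (BlkD.upd (fun _ => 21) 0 7)) :=
  BlkD.tree_sound (BlkD.pairOk_sound k21_21_7_3) (by decide) hn t21_21_7_3_16 _ _ (by decide +kernel)

/-- certificates of the pair `(7, 3)`, part 17 -/
def t21_21_7_3_17 : BlkD.Tr :=
  .E 0

lemma s21_21_7_3_17 {n : ℕ} (hn : 5 ≤ n) : NoNd (d21_21_7_3.R : ℤ) d21_21_7_3.H n d21_21_7_3.a d21_21_7_3.b
    (BlkD.inB (BlkD.upd (fun _ => 0) 0 8)
      (fun _ => 21)) :=
  BlkD.tree_sound (BlkD.pairOk_sound k21_21_7_3) (by decide) hn t21_21_7_3_17 _ _ (by decide +kernel)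

lemma pr21_21_7_3 {n : ℕ} (hn : 5 ≤ n) : NoPr ((21 : ℕ) : ℤ) ((21 : ℕ) : ℤ) n 7 3 :=
  BlkD.of_root (R := d21_21_7_3.R) (H := d21_21_7_3.H) (a := d21_21_7_3.a) (b := d21_21_7_3.b) (q := 3) (by decide) hn
    (BlkD.sp 0 7 (BlkD.sp 2 3 (BlkD.sp 0 3 (BlkD.sp 0 1 (BlkD.sp 0 0 (s21_21_7_3_1 hn) (BlkD.sp 1
      10 (BlkD.sp 1 5 (s21_21_7_3_2 hn) (s21_21_7_3_3 hn)) (s21_21_7_3_4 hn))) (BlkD.sp 0 2
      (BlkD.sp 1 19 (BlkD.sp 1 9 (BlkD.sp 1 4 (s21_21_7_3_5 hn) (s21_21_7_3_6 hn)) (s21_21_7_3_7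
      hn)) (s21_21_7_3_8 hn)) (BlkD.sp 1 18 (BlkD.sp 1 9 (BlkD.sp 1 4 (s21_21_7_3_9 hn)
      (s21_21_7_3_10 hn)) (s21_21_7_3_11 hn)) (s21_21_7_3_12 hn)))) (BlkD.sp 0 5 (BlkD.sp 0 4
      (s21_21_7_3_13 hn) (s21_21_7_3_14 hn)) (s21_21_7_3_15 hn))) (s21_21_7_3_16 hn))
      (s21_21_7_3_17 hn))

end BlkC

end Pool.Agent.Lib.MP_f04ccf_co
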