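import Pool.Agent.Lib.MP_f04ccf_co.M.BlkT

/-!
MP_f04ccf_co, block certificate, data `R = 21`, `H = 21`, part 5 (generated, helper99:
bd10.cpp, gen2.py).
-/

set_option autoImplicit false
set_option maxRecDepth 100000

namespace Pool.Agent.Lib.MP_f04ccf_co

namespace BlkC

/-- the numbers of the pair `(7, 4)`, `R = 21`, `H = 21` -/
def d21_21_7_4 : BlkD.Pd :=
  ⟨21, 21, 3, 7, 4, 7, 4, 2, 1, 4, 12, 0, 2, 2, 10, 0, [0, 12, 24, 31, 32, 33, 34, 35], [0, 10, 18,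
    20, 22, 24, 26, 28], [⟨1, 1, 1, 4, 8, [0, 4], [0, 4]⟩, ⟨1, 1, 1, 6, 12, [0, 6], [0, 6]⟩, ⟨1, 1,
    1, 6, 16, [0, 8], [0, 8]⟩, ⟨2, 1, 1, 6, 26, [0, 10, 18], [0, 8]⟩, ⟨2, 1, 1, 4, 32, [0, 12, 22],
    [0, 10]⟩]⟩

lemma k21_21_7_4 : BlkD.pairOk d21_21_7_4 = true := by decide +kernel

/-- certificates of the pair `(7, 4)`, part 1 -/
def t21_21_7_4_1 : BlkD.Tr :=
  .L 6 8 [4, 4, 5, 4, 5] [] [] 100000 75000 75000 800000 100000 0 100000 0 0 0 0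

lemma s21_21_7_4_1 {n : ℕ} (hn : 5 ≤ n) : NoNd (d21_21_7_4.R : ℤ) d21_21_7_4.H n d21_21_7_4.a d21_21_7_4.b
    (BlkD.inB (fun _ => 0)
      (BlkD.upd (BlkD.upd (BlkD.upd (BlkD.upd (BlkD.upd (fun _ => 21) 0 7) 2 4) 0 3) 0 1) 0 0)) :=
  BlkD.tree_sound (BlkD.pairOk_sound k21_21_7_4) (by decide) hn t21_21_7_4_1 _ _ (by decide +kernel)

/-- certificates of the pair `(7, 4)`, part 2 -/
def t21_21_7_4_2 : BlkD.Tr :=
  .L 6 8 [4, 4, 5, 4, 5] [] [] 100000 75000 75000 800000 100000 0 100000 0 0 0 0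

lemma s21_21_7_4_2 {n : ℕ} (hn : 5 ≤ n) : NoNd (d21_21_7_4.R : ℤ) d21_21_7_4.H n d21_21_7_4.a d21_21_7_4.b
    (BlkD.inB (BlkD.upd (fun _ => 0) 0 1)
      (BlkD.upd (BlkD.upd (BlkD.upd (BlkD.upd (BlkD.upd (BlkD.upd (fun _ => 21) 0 7) 2 4) 0 3) 0 1) 1 10) 1 5)) :=
  BlkD.tree_sound (BlkD.pairOk_sound k21_21_7_4) (by decide) hn t21_21_7_4_2 _ _ (by decide +kernel)

/-- certificates of the pair `(7, 4)`, part 3 -/
def t21_21_7_4_3 : BlkD.Tr :=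
  .S 1 8 (.L 6 8 [4, 4, 5, 4, 5] [] [] 100000 75000 75000 800000 100000 0 100000 0 0 0 0) (.L 6 8
    [4, 4, 5, 4, 5] [] [] 100000 75000 75000 800000 100000 0 100000 0 0 0 0)

lemma s21_21_7_4_3 {n : ℕ} (hn : 5 ≤ n) : NoNd (d21_21_7_4.R : ℤ) d21_21_7_4.H n d21_21_7_4.a d21_21_7_4.b
    (BlkD.inB (BlkD.upd (BlkD.upd (fun _ => 0) 0 1) 1 6)
      (BlkD.upd (BlkD.upd (BlkD.upd (BlkD.upd (BlkD.upd (fun _ => 21) 0 7) 2 4) 0 3) 0 1) 1 10)) :=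
  BlkD.tree_sound (BlkD.pairOk_sound k21_21_7_4) (by decide) hn t21_21_7_4_3 _ _ (by decide +kernel)

/-- certificates of the pair `(7, 4)`, part 4 -/
def t21_21_7_4_4 : BlkD.Tr :=
  .L 6 8 [4, 4, 5, 4, 5] [] [] 100000 75000 75000 800000 100000 0 100000 0 0 0 0

lemma s21_21_7_4_4 {n : ℕ} (hn : 5 ≤ n) : NoNd (d21_21_7_4.R : ℤ) d21_21_7_4.H n d21_21_7_4.a d21_21_7_4.b
    (BlkD.inB (BlkD.upd (BlkD.upd (fun _ => 0) 0 1) 1 11)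
      (BlkD.upd (BlkD.upd (BlkD.upd (BlkD.upd (fun _ => 21) 0 7) 2 4) 0 3) 0 1)) :=
  BlkD.tree_sound (BlkD.pairOk_sound k21_21_7_4) (by decide) hn t21_21_7_4_4 _ _ (by decide +kernel)

/-- certificates of the pair `(7, 4)`, part 5 -/
def t21_21_7_4_5 : BlkD.Tr :=
  .L 6 8 [4, 4, 5, 4, 5] [] [] 100000 34723 34723 1133335 16667 0 16667 33333 0 27778 12222

lemma s21_21_7_4_5 {n : ℕ} (hn : 5 ≤ n) : NoNd (d21_21_7_4.R : ℤ) d21_21_7_4.H n d21_21_7_4.a d21_21_7_4.b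
    (BlkD.inB (BlkD.upd (fun _ => 0) 0 2)
      (BlkD.upd (BlkD.upd (BlkD.upd (BlkD.upd (BlkD.upd (BlkD.upd (BlkD.upd (fun _ => 21) 0 7) 2 4) 0 3) 0 2) 1 19) 1 9) 1 4)) :=
  BlkD.tree_sound (BlkD.pairOk_sound k21_21_7_4) (by decide) hn t21_21_7_4_5 _ _ (by decide +kernel)

/-- certificates of the pair `(7, 4)`, part 6 -/
def t21_21_7_4_6 : BlkD.Tr :=
  .S 1 6 (.S 1 5 (.L 6 8 [4, 4, 5, 4, 5] [93, 86, 76, 64, 52, 40] [] 100000 66666 66665 1077780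
    44444 0 44444 88889 0 11111 3704) (.S 2 2 (.L 6 8 [4, 4, 5, 4, 5] [108, 107, 100, 90, 78, 66]
    [] 100000 66667 66667 1100000 50000 0 50000 100000 0 0 33333) (.L 6 8 [4, 4, 5, 4, 5] [108,
    107, 100, 90, 78, 66] [] 100000 62500 62500 1100000 50000 0 50000 50000 0 0 16667))) (.L 6 8
    [4, 4, 5, 4, 5] [125, 124, 123, 116, 106, 94] [] 100000 50001 50001 1181818 45455 0 63636 54545
    0 9091 27273)

lemma s21_21_7_4_6 {n : ℕ} (hn : 5 ≤ n) : NoNd (d21_21_7_4.R : ℤ) d21_21_7_4.H n d21_21_7_4.a d21_21_7_4.b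
    (BlkD.inB (BlkD.upd (BlkD.upd (fun _ => 0) 0 2) 1 5)
      (BlkD.upd (BlkD.upd (BlkD.upd (BlkD.upd (BlkD.upd (BlkD.upd (BlkD.upd (fun _ => 21) 0 7) 2 4) 0 3) 0 2) 1 19) 1 9) 1 7)) :=
  BlkD.tree_sound (BlkD.pairOk_sound k21_21_7_4) (by decide) hn t21_21_7_4_6 _ _ (by decide +kernel)

/-- certificates of the pair `(7, 4)`, part 7 -/
def t21_21_7_4_7 : BlkD.Tr :=
  .S 1 8 (.L 6 8 [4, 4, 5, 4, 5] [144, 143, 142, 141, 134, 124] [] 100000 53572 53572 1149107 56250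
    0 69643 50000 0 10714 23214) (.L 6 8 [4, 4, 5, 4, 5] [165, 164, 163, 162, 161, 154] [] 100000
    58219 58218 1118493 60274 0 80137 50000 0 8219 11644)

lemma s21_21_7_4_7 {n : ℕ} (hn : 5 ≤ n) : NoNd (d21_21_7_4.R : ℤ) d21_21_7_4.H n d21_21_7_4.a d21_21_7_4.b
    (BlkD.inB (BlkD.upd (BlkD.upd (BlkD.upd (fun _ => 0) 0 2) 1 5) 1 8)
      (BlkD.upd (BlkD.upd (BlkD.upd (BlkD.upd (BlkD.upd (BlkD.upd (fun _ => 21) 0 7) 2 4) 0 3) 0 2) 1 19) 1 9)) :=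
  BlkD.tree_sound (BlkD.pairOk_sound k21_21_7_4) (by decide) hn t21_21_7_4_7 _ _ (by decide +kernel)

/-- certificates of the pair `(7, 4)`, part 8 -/
def t21_21_7_4_8 : BlkD.Tr :=
  .L 5 7 [4, 4, 5, 5, 6] [] [] 100000 50000 50000 1185718 28571 0 100000 85714 0 14286 25000

lemma s21_21_7_4_8 {n : ℕ} (hn : 5 ≤ n) : NoNd (d21_21_7_4.R : ℤ) d21_21_7_4.H n d21_21_7_4.a d21_21_7_4.b
    (BlkD.inB (BlkD.upd (BlkD.upd (fun _ => 0) 0 2) 1 10)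
      (BlkD.upd (BlkD.upd (BlkD.upd (BlkD.upd (BlkD.upd (fun _ => 21) 0 7) 2 4) 0 3) 0 2) 1 19)) :=
  BlkD.tree_sound (BlkD.pairOk_sound k21_21_7_4) (by decide) hn t21_21_7_4_8 _ _ (by decide +kernel)

/-- certificates of the pair `(7, 4)`, part 9 -/
def t21_21_7_4_9 : BlkD.Tr :=
  .E 0

lemma s21_21_7_4_9 {n : ℕ} (hn : 5 ≤ n) : NoNd (d21_21_7_4.R : ℤ) d21_21_7_4.H n d21_21_7_4.a d21_21_7_4.b
    (BlkD.inB (BlkD.upd (BlkD.upd (fun _ => 0) 0 2) 1 20)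
      (BlkD.upd (BlkD.upd (BlkD.upd (BlkD.upd (fun _ => 21) 0 7) 2 4) 0 3) 0 2)) :=
  BlkD.tree_sound (BlkD.pairOk_sound k21_21_7_4) (by decide) hn t21_21_7_4_9 _ _ (by decide +kernel)

/-- certificates of the pair `(7, 4)`, part 10 -/
def t21_21_7_4_10 : BlkD.Tr :=
  .L 5 7 [4, 4, 5, 5, 6] [] [] 100000 25000 25000 1262500 9375 0 9375 62500 0 37500 25000

lemma s21_21_7_4_10 {n : ℕ} (hn : 5 ≤ n) : NoNd (d21_21_7_4.R : ℤ) d21_21_7_4.H n d21_21_7_4.a d21_21_7_4.b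
    (BlkD.inB (BlkD.upd (BlkD.upd (fun _ => 0) 0 2) 0 3)
      (BlkD.upd (BlkD.upd (BlkD.upd (BlkD.upd (BlkD.upd (BlkD.upd (fun _ => 21) 0 7) 2 4) 0 3) 1 18) 1 9) 1 4)) :=
  BlkD.tree_sound (BlkD.pairOk_sound k21_21_7_4) (by decide) hn t21_21_7_4_10 _ _ (by decide +kernel)

/-- certificates of the pair `(7, 4)`, part 11 -/
def t21_21_7_4_11 : BlkD.Tr :=
  .S 2 2 (.S 2 1 (.S 2 0 (.L 5 7 [4, 4, 5, 5, 6] [103, 96, 86, 74, 62, 50] [] 100000 50000 50000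
    1000000 0 0 0 100000 0 0 0) (.S 3 12 (.S 3 6 (.S 3 3 (.L 5 7 [4, 4, 5, 5, 6] [103, 96, 86, 74,
    62, 50] [] 100000 33334 33334 1183334 8333 8333 8333 8333 0 0 22222) (.S 3 5 (.S 3 4 (.L 4 4
    [4, 5, 7, 8, 9] [103, 96, 86, 74, 62, 50] [60, 52, 42, 32, 20, 0] 100000 41667 41666 1216666
    16667 16667 33333 33333 0 0 33333) (.L 4 4 [4, 5, 7, 8, 9] [103, 96, 86, 74, 62, 50] [72, 70,
    62, 52, 42, 30] 100000 62500 62500 1137500 37500 37500 56250 56250 0 37500 31250)) (.L 4 4 [4,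
    5, 7, 8, 9] [103, 96, 86, 74, 62, 50] [86, 84, 82, 74, 64, 54] 100000 150000 0 250000 100000 0
    100000 250000 0 0 0))) (.E 1)) (.E 1))) (.S 3 11 (.S 3 5 (.S 3 2 (.L 4 4 [4, 5, 7, 8, 9] [103,
    96, 86, 74, 62, 50] [] 100000 33334 33333 1188889 5556 5556 11111 5556 0 0 31481) (.S 3 4 (.S 3
    3 (.L 4 6 [4, 5, 5, 6, 7] [103, 96, 86, 74, 62, 50] [50, 40, 30, 18, 0, 0] 100000 41667 41667
    1200001 33333 0 66667 33333 0 33333 33333) (.L 5 7 [4, 4, 5, 5, 6] [103, 96, 86, 74, 62, 50]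
    [68, 60, 50, 40, 28, 0] 100000 45000 45000 1200000 40000 0 60000 40000 0 60000 20000)) (.E 1)))
    (.E 1)) (.E 1))) (.S 2 3 (.S 3 10 (.S 3 5 (.S 3 2 (.L 5 7 [4, 4, 5, 5, 6] [103, 96, 86, 74, 62,
    50] [] 100000 32143 32143 1214288 28571 0 42857 28571 0 57143 28571) (.S 3 4 (.S 3 3 (.L 6 8
    [4, 4, 5, 4, 5] [103, 96, 86, 74, 62, 50] [56, 46, 36, 24, 0, 0] 100000 45000 45000 1200000
    40000 0 40000 40000 0 40000 20000) (.E 1)) (.E 1))) (.E 1)) (.E 1)) (.L 6 8 [4, 4, 5, 4, 5]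
    [103, 96, 86, 74, 62, 50] [] 100000 26316 26315 1215788 21053 0 21053 0 0 57895 21053))

lemma s21_21_7_4_11 {n : ℕ} (hn : 5 ≤ n) : NoNd (d21_21_7_4.R : ℤ) d21_21_7_4.H n d21_21_7_4.a d21_21_7_4.b
    (BlkD.inB (BlkD.upd (BlkD.upd (BlkD.upd (fun _ => 0) 0 2) 0 3) 1 5)
      (BlkD.upd (BlkD.upd (BlkD.upd (BlkD.upd (BlkD.upd (BlkD.upd (BlkD.upd (BlkD.upd (fun _ => 21) 0 7) 2 4) 0 3) 1 18) 1 9) 1 7) 1 6) 1 5)) :=
  BlkD.tree_sound (BlkD.pairOk_sound k21_21_7_4) (by decide) hn t21_21_7_4_11 _ _ (by decide +kernel)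

/-- certificates of the pair `(7, 4)`, part 12 -/
def t21_21_7_4_12 : BlkD.Tr :=
  .S 2 1 (.S 2 0 (.L 6 8 [4, 4, 5, 4, 5] [120, 119, 112, 102, 90, 78] [] 100000 50000 50000 1020000
    0 0 80000 100000 0 0 0) (.S 3 11 (.S 3 5 (.S 3 2 (.L 6 8 [4, 4, 5, 4, 5] [120, 119, 112, 102,
    90, 78] [] 100000 33334 33334 1183334 8333 8333 8333 8333 0 0 22222) (.S 3 4 (.S 3 3 (.L 4 4
    [4, 5, 7, 8, 9] [120, 119, 112, 102, 90, 78] [44, 34, 24, 12, 0, 0] 100000 58333 58332 1133335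
    33333 33333 66667 66667 0 0 33333) (.L 5 5 [4, 4, 5, 7, 8] [120, 119, 112, 102, 90, 78] [60,
    52, 42, 32, 20, 0] 100000 59375 59374 1159375 34375 34375 68750 68750 0 0 29687)) (.L 5 7 [4,
    4, 5, 5, 6] [120, 119, 112, 102, 90, 78] [72, 70, 62, 52, 42, 30] 100000 62596 62596 1117558
    51145 25191 76336 51908 0 28244 14122))) (.L 5 7 [4, 4, 5, 5, 6] [120, 119, 112, 102, 90, 78]
    [] 100000 183334 1 1 125000 0 125000 283333 0 0 0)) (.E 1))) (.S 3 10 (.S 3 5 (.S 3 2 (.S 3 1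
    (.L 5 7 [4, 4, 5, 5, 6] [120, 119, 112, 102, 90, 78] [] 100000 32728 32728 1190909 10909 0
    21818 1818 0 1818 22424) (.L 7 9 [4, 4, 5, 4, 4] [120, 119, 112, 102, 90, 78] [32, 22, 10, 0,
    0, 0] 100000 26667 26667 1280000 20000 0 40000 20000 0 20000 33333)) (.S 3 4 (.S 3 3 (.S 4 6
    (.S 4 3 (.L 4 6 [4, 5, 5, 6, 7] [102, 90, 78, 66, 0, 0] [50, 40, 30, 18, 0, 0] 100000 46744
    46744 1187356 42529 0 76245 51341 0 17625 22989) (.L 4 6 [4, 5, 5, 6, 7] [120, 119, 112, 102,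
    90, 78] [50, 40, 30, 18, 0, 0] 100000 50000 0 950000 0 0 150000 0 0 0 0)) (.E 2)) (.L 7 9 [4,
    4, 5, 4, 4] [120, 119, 112, 102, 90, 78] [68, 60, 50, 40, 28, 0] 100000 37879 37879 1245455
    36364 0 72727 54545 0 36364 21212)) (.E 1))) (.E 1)) (.E 1))

lemma s21_21_7_4_12 {n : ℕ} (hn : 5 ≤ n) : NoNd (d21_21_7_4.R : ℤ) d21_21_7_4.H n d21_21_7_4.a d21_21_7_4.b
    (BlkD.inB (BlkD.upd (BlkD.upd (BlkD.upd (BlkD.upd (fun _ => 0) 0 2) 0 3) 1 5) 1 6)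
      (BlkD.upd (BlkD.upd (BlkD.upd (BlkD.upd (BlkD.upd (BlkD.upd (BlkD.upd (BlkD.upd (fun _ => 21) 0 7) 2 4) 0 3) 1 18) 1 9) 1 7) 1 6) 2 2)) :=
  BlkD.tree_sound (BlkD.pairOk_sound k21_21_7_4) (by decide) hn t21_21_7_4_12 _ _ (by decide +kernel)

/-- certificates of the pair `(7, 4)`, part 13 -/
def t21_21_7_4_13 : BlkD.Tr :=
  .S 2 3 (.S 3 9 (.S 3 4 (.S 3 2 (.L 5 7 [4, 4, 5, 5, 6] [120, 119, 112, 102, 90, 78] [] 100000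
    35000 35000 1246671 33333 0 73333 53333 6667 46667 26667) (.S 3 3 (.L 7 9 [4, 4, 5, 4, 4] [120,
    119, 112, 102, 90, 78] [56, 46, 36, 24, 0, 0] 100000 31944 31943 1266668 33333 0 66667 50000 0
    50000 22222) (.E 1))) (.E 1)) (.E 1)) (.L 7 9 [4, 4, 5, 4, 4] [120, 119, 112, 102, 90, 78] []
    100000 26087 26086 1278260 30435 0 60870 0 0 65217 21739)

lemma s21_21_7_4_13 {n : ℕ} (hn : 5 ≤ n) : NoNd (d21_21_7_4.R : ℤ) d21_21_7_4.H n d21_21_7_4.a d21_21_7_4.b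
    (BlkD.inB (BlkD.upd (BlkD.upd (BlkD.upd (BlkD.upd (BlkD.upd (fun _ => 0) 0 2) 0 3) 1 5) 1 6) 2 3)
      (BlkD.upd (BlkD.upd (BlkD.upd (BlkD.upd (BlkD.upd (BlkD.upd (BlkD.upd (fun _ => 21) 0 7) 2 4) 0 3) 1 18) 1 9) 1 7) 1 6)) :=
  BlkD.tree_sound (BlkD.pairOk_sound k21_21_7_4) (by decide) hn t21_21_7_4_13 _ _ (by decide +kernel)

/-- certificates of the pair `(7, 4)`, part 14 -/
def t21_21_7_4_14 : BlkD.Tr :=
  .S 2 0 (.L 7 9 [4, 4, 5, 4, 4] [139, 138, 137, 130, 120, 108] [] 100000 50000 50000 1000000 0 0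
    100000 100000 0 0 0) (.S 3 10 (.S 3 5 (.S 3 2 (.L 7 9 [4, 4, 5, 4, 4] [139, 138, 137, 130, 120,
    108] [] 100000 44444 44443 1166668 33333 33333 66667 66667 0 0 22222) (.S 3 4 (.L 5 7 [4, 4, 5,
    5, 6] [139, 138, 137, 130, 120, 108] [] 100000 54286 54286 1177143 37143 37143 68571 68571 0 0
    17143) (.L 5 7 [4, 4, 5, 5, 6] [139, 138, 137, 130, 120, 108] [72, 70, 62, 52, 42, 30] 100000
    57143 57143 1157145 42857 28571 85714 42857 0 28571 14286))) (.L 5 7 [4, 4, 5, 5, 6] [139, 138,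
    137, 130, 120, 108] [] 100000 183334 0 0 121429 0 121429 283333 0 0 0)) (.E 1))

lemma s21_21_7_4_14 {n : ℕ} (hn : 5 ≤ n) : NoNd (d21_21_7_4.R : ℤ) d21_21_7_4.H n d21_21_7_4.a d21_21_7_4.b
    (BlkD.inB (BlkD.upd (BlkD.upd (BlkD.upd (BlkD.upd (fun _ => 0) 0 2) 0 3) 1 5) 1 7)
      (BlkD.upd (BlkD.upd (BlkD.upd (BlkD.upd (BlkD.upd (BlkD.upd (BlkD.upd (BlkD.upd (fun _ => 21) 0 7) 2 4) 0 3) 1 18) 1 9) 1 7) 2 2) 2 1)) :=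
  BlkD.tree_sound (BlkD.pairOk_sound k21_21_7_4) (by decide) hn t21_21_7_4_14 _ _ (by decide +kernel)

/-- certificates of the pair `(7, 4)`, part 15 -/
def t21_21_7_4_15 : BlkD.Tr :=
  .S 3 9 (.S 3 4 (.S 3 2 (.S 3 1 (.L 5 7 [4, 4, 5, 5, 6] [139, 138, 137, 130, 120, 108] [] 100000
    41667 41667 1200001 33333 0 66667 33333 0 0 16667) (.S 4 7 (.S 4 3 (.L 5 7 [4, 4, 5, 5, 6]
    [120, 108, 96, 84, 0, 0] [32, 22, 10, 0, 0, 0] 100000 25000 25000 1296875 34375 0 71875 34375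
    6250 34375 31250) (.L 5 7 [4, 4, 5, 5, 6] [139, 138, 137, 130, 120, 108] [32, 22, 10, 0, 0, 0]
    100000 40580 5796 1026086 4348 0 134783 100000 0 0 13043)) (.E 2))) (.S 3 3 (.S 4 7 (.S 4 3 (.L
    5 7 [4, 4, 5, 5, 6] [120, 108, 96, 84, 0, 0] [50, 40, 30, 18, 0, 0] 100000 44445 44445 1200000
    50000 0 88889 50000 0 27778 22222) (.L 5 7 [4, 4, 5, 5, 6] [139, 138, 137, 130, 120, 108] [50,
    40, 30, 18, 0, 0] 100000 33334 1 1066668 11111 0 133333 22222 0 33333 16667)) (.E 2)) (.S 4 7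
    (.S 4 3 (.L 5 7 [4, 4, 5, 5, 6] [120, 108, 96, 84, 0, 0] [68, 60, 50, 40, 28, 0] 100000 42857
    42857 1175003 53571 0 92857 25000 0 39286 21429) (.L 5 7 [4, 4, 5, 5, 6] [139, 138, 137, 130,
    120, 108] [68, 60, 50, 40, 28, 0] 100000 69698 1 812120 36364 0 169697 36364 0 27273 21212))
    (.E 2)))) (.E 1)) (.E 1)

lemma s21_21_7_4_15 {n : ℕ} (hn : 5 ≤ n) : NoNd (d21_21_7_4.R : ℤ) d21_21_7_4.H n d21_21_7_4.a d21_21_7_4.b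
    (BlkD.inB (BlkD.upd (BlkD.upd (BlkD.upd (BlkD.upd (BlkD.upd (fun _ => 0) 0 2) 0 3) 1 5) 1 7) 2 2)
      (BlkD.upd (BlkD.upd (BlkD.upd (BlkD.upd (BlkD.upd (BlkD.upd (BlkD.upd (fun _ => 21) 0 7) 2 4) 0 3) 1 18) 1 9) 1 7) 2 2)) :=
  BlkD.tree_sound (BlkD.pairOk_sound k21_21_7_4) (by decide) hn t21_21_7_4_15 _ _ (by decide +kernel)

/-- certificates of the pair `(7, 4)`, part 16 -/
def t21_21_7_4_16 : BlkD.Tr :=
  .S 2 3 (.S 3 8 (.S 3 4 (.S 3 2 (.L 5 7 [4, 4, 5, 5, 6] [139, 138, 137, 130, 120, 108] [] 100000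
    46196 46196 1208697 47826 0 71739 50000 4348 26087 26087) (.L 5 7 [4, 4, 5, 5, 6] [139, 138,
    137, 130, 120, 108] [] 100000 56701 56701 1154640 55670 0 83505 27835 0 46392 23711)) (.E 1))
    (.E 1)) (.L 5 7 [4, 4, 5, 5, 6] [139, 138, 137, 130, 120, 108] [] 100000 47059 47058 1200001
    50000 0 79412 0 11765 55882 29412)

lemma s21_21_7_4_16 {n : ℕ} (hn : 5 ≤ n) : NoNd (d21_21_7_4.R : ℤ) d21_21_7_4.H n d21_21_7_4.a d21_21_7_4.b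
    (BlkD.inB (BlkD.upd (BlkD.upd (BlkD.upd (BlkD.upd (BlkD.upd (fun _ => 0) 0 2) 0 3) 1 5) 1 7) 2 3)
      (BlkD.upd (BlkD.upd (BlkD.upd (BlkD.upd (BlkD.upd (BlkD.upd (fun _ => 21) 0 7) 2 4) 0 3) 1 18) 1 9) 1 7)) :=
  BlkD.tree_sound (BlkD.pairOk_sound k21_21_7_4) (by decide) hn t21_21_7_4_16 _ _ (by decide +kernel)

/-- certificates of the pair `(7, 4)`, part 17 -/
def t21_21_7_4_17 : BlkD.Tr :=
  .S 1 8 (.S 2 2 (.S 2 1 (.L 5 7 [4, 4, 5, 5, 6] [160, 159, 158, 157, 150, 140] [] 100000 52617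
    52617 1187060 39962 26641 79924 53283 0 4472 15794) (.S 3 8 (.S 3 4 (.S 3 2 (.S 3 1 (.L 5 7 [4,
    4, 5, 5, 6] [160, 159, 158, 157, 150, 140] [] 100000 33333 33332 1233335 33333 0 66667 33333 0
    0 33333) (.L 4 4 [4, 5, 7, 8, 9] [160, 159, 158, 157, 150, 140] [32, 22, 10, 0, 0, 0] 100000
    47826 47826 1195654 43478 0 86957 43478 0 43478 26087)) (.L 5 7 [4, 4, 5, 5, 6] [160, 159, 158,
    157, 150, 140] [] 100000 35714 35714 1235716 40476 0 80952 40476 0 40476 21429)) (.E 1)) (.E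
    1))) (.L 5 7 [4, 4, 5, 5, 6] [160, 159, 158, 157, 150, 140] [] 100000 31819 31819 1245454 36364
    0 72727 50000 4545 27273 27273)) (.L 5 7 [4, 4, 5, 5, 6] [183, 182, 181, 180, 179, 172] []
    100000 51923 51923 1138462 53846 0 100000 46154 0 7692 23077)

lemma s21_21_7_4_17 {n : ℕ} (hn : 5 ≤ n) : NoNd (d21_21_7_4.R : ℤ) d21_21_7_4.H n d21_21_7_4.a d21_21_7_4.b
    (BlkD.inB (BlkD.upd (BlkD.upd (BlkD.upd (BlkD.upd (fun _ => 0) 0 2) 0 3) 1 5) 1 8)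
      (BlkD.upd (BlkD.upd (BlkD.upd (BlkD.upd (BlkD.upd (fun _ => 21) 0 7) 2 4) 0 3) 1 18) 1 9)) :=
  BlkD.tree_sound (BlkD.pairOk_sound k21_21_7_4) (by decide) hn t21_21_7_4_17 _ _ (by decide +kernel)

/-- certificates of the pair `(7, 4)`, part 18 -/
def t21_21_7_4_18 : BlkD.Tr :=
  .E 0

lemma s21_21_7_4_18 {n : ℕ} (hn : 5 ≤ n) : NoNd (d21_21_7_4.R : ℤ) d21_21_7_4.H n d21_21_7_4.a d21_21_7_4.b
    (BlkD.inB (BlkD.upd (BlkD.upd (BlkD.upd (fun _ => 0) 0 2) 0 3) 1 10)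
      (BlkD.upd (BlkD.upd (BlkD.upd (BlkD.upd (fun _ => 21) 0 7) 2 4) 0 3) 1 18)) :=
  BlkD.tree_sound (BlkD.pairOk_sound k21_21_7_4) (by decide) hn t21_21_7_4_18 _ _ (by decide +kernel)

/-- certificates of the pair `(7, 4)`, part 19 -/
def t21_21_7_4_19 : BlkD.Tr :=
  .E 0

lemma s21_21_7_4_19 {n : ℕ} (hn : 5 ≤ n) : NoNd (d21_21_7_4.R : ℤ) d21_21_7_4.H n d21_21_7_4.a d21_21_7_4.b
    (BlkD.inB (BlkD.upd (BlkD.upd (BlkD.upd (fun _ => 0) 0 2) 0 3) 1 19)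
      (BlkD.upd (BlkD.upd (BlkD.upd (fun _ => 21) 0 7) 2 4) 0 3)) :=
  BlkD.tree_sound (BlkD.pairOk_sound k21_21_7_4) (by decide) hn t21_21_7_4_19 _ _ (by decide +kernel)

/-- certificates of the pair `(7, 4)`, part 20 -/
def t21_21_7_4_20 : BlkD.Tr :=
  .L 5 7 [4, 4, 5, 5, 6] [] [] 100000 25926 25926 1166667 16667 0 16667 33333 0 33333 22222

lemma s21_21_7_4_20 {n : ℕ} (hn : 5 ≤ n) : NoNd (d21_21_7_4.R : ℤ) d21_21_7_4.H n d21_21_7_4.a d21_21_7_4.b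
    (BlkD.inB (BlkD.upd (fun _ => 0) 0 4)
      (BlkD.upd (BlkD.upd (BlkD.upd (BlkD.upd (BlkD.upd (BlkD.upd (BlkD.upd (BlkD.upd (fun _ => 21) 0 7) 2 4) 0 5) 0 4) 1 17) 1 8) 1 4) 1 2)) :=
  BlkD.tree_sound (BlkD.pairOk_sound k21_21_7_4) (by decide) hn t21_21_7_4_20 _ _ (by decide +kernel)

/-- certificates of the pair `(7, 4)`, part 21 -/
def t21_21_7_4_21 : BlkD.Tr :=
  .S 1 3 (.L 5 7 [4, 4, 5, 5, 6] [66, 54, 42, 30, 0, 0] [] 100000 25000 25000 1262500 12500 0 12500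
    62500 0 37500 25000) (.S 2 2 (.S 2 1 (.S 2 0 (.L 5 7 [4, 4, 5, 5, 6] [90, 80, 68, 56, 44, 0] []
    100000 50000 50000 1000000 0 0 0 100000 0 0 0) (.S 3 12 (.S 3 6 (.S 3 3 (.L 5 7 [4, 4, 5, 5, 6]
    [90, 80, 68, 56, 44, 0] [] 100000 33334 33334 1191667 8333 8333 8333 8333 0 0 22222) (.S 3 5
    (.S 3 4 (.L 7 9 [4, 4, 5, 4, 4] [90, 80, 68, 56, 44, 0] [60, 52, 42, 32, 20, 0] 100000 25001
    25001 1284615 13462 13462 26923 38462 0 25000 28846) (.L 7 9 [4, 4, 5, 4, 4] [90, 80, 68, 56,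
    44, 0] [72, 70, 62, 52, 42, 30] 100000 25000 24999 1294737 12281 28070 40351 56140 0 43860
    33333)) (.L 7 9 [4, 4, 5, 4, 4] [90, 80, 68, 56, 44, 0] [86, 84, 82, 74, 64, 54] 100000 100000
    0 600000 75000 0 75000 200000 0 0 0))) (.E 1)) (.E 1))) (.S 3 11 (.S 3 5 (.S 3 2 (.L 7 9 [4, 4,
    5, 4, 4] [90, 80, 68, 56, 44, 0] [] 100000 33334 33334 1200000 0 0 0 0 0 0 22222) (.S 3 4 (.S 3
    3 (.L 7 9 [4, 4, 5, 4, 4] [90, 80, 68, 56, 44, 0] [50, 40, 30, 18, 0, 0] 100000 25000 25000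
    1293750 15625 3125 28125 40625 0 25000 28125) (.S 4 4 (.S 4 2 (.L 7 9 [4, 4, 5, 4, 4] [68, 56,
    44, 0, 0, 0] [68, 60, 50, 40, 28, 0] 100000 26191 26191 1285716 28571 0 42857 42857 0 28571
    23810) (.L 7 9 [4, 4, 5, 4, 4] [90, 80, 68, 56, 44, 0] [68, 60, 50, 40, 28, 0] 100000 50000 0
    950000 0 0 150000 0 0 0 0)) (.E 2))) (.E 1))) (.E 1)) (.E 1))) (.S 2 3 (.S 3 10 (.S 3 5 (.S 3 2
    (.L 7 9 [4, 4, 5, 4, 4] [90, 80, 68, 56, 44, 0] [] 100000 25000 25000 1290000 17500 0 35000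
    35000 0 25000 27500) (.S 3 4 (.S 3 3 (.S 4 4 (.S 4 2 (.L 7 9 [4, 4, 5, 4, 4] [68, 56, 44, 0, 0,
    0] [56, 46, 36, 24, 0, 0] 100000 25317 25317 1288608 27848 0 41772 41772 0 30380 24051) (.L 7 9
    [4, 4, 5, 4, 4] [90, 80, 68, 56, 44, 0] [56, 46, 36, 24, 0, 0] 100000 50000 0 950000 0 0 150000
    0 0 0 0)) (.E 2)) (.E 1)) (.E 1))) (.E 1)) (.E 1)) (.L 7 9 [4, 4, 5, 4, 4] [90, 80, 68, 56, 44,
    0] [] 100000 25000 25000 1275000 25000 0 25000 0 0 50000 25000)))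

lemma s21_21_7_4_21 {n : ℕ} (hn : 5 ≤ n) : NoNd (d21_21_7_4.R : ℤ) d21_21_7_4.H n d21_21_7_4.a d21_21_7_4.b
    (BlkD.inB (BlkD.upd (BlkD.upd (fun _ => 0) 0 4) 1 3)
      (BlkD.upd (BlkD.upd (BlkD.upd (BlkD.upd (BlkD.upd (BlkD.upd (BlkD.upd (fun _ => 21) 0 7) 2 4) 0 5) 0 4) 1 17) 1 8) 1 4)) :=
  BlkD.tree_sound (BlkD.pairOk_sound k21_21_7_4) (by decide) hn t21_21_7_4_21 _ _ (by decide +kernel)

/-- certificates of the pair `(7, 4)`, part 22 -/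
def t21_21_7_4_22 : BlkD.Tr :=
  .S 2 0 (.L 7 9 [4, 4, 5, 4, 4] [113, 106, 96, 84, 72, 60] [] 100000 50000 50000 1020000 0 0 80000
    100000 0 0 0) (.S 3 11 (.S 3 5 (.S 3 2 (.L 7 9 [4, 4, 5, 4, 4] [113, 106, 96, 84, 72, 60] []
    100000 33334 33334 1200000 0 0 0 0 0 0 22222) (.S 3 4 (.S 3 3 (.L 7 9 [4, 4, 5, 4, 4] [113,
    106, 96, 84, 72, 60] [44, 34, 24, 12, 0, 0] 100000 33334 33334 1240000 20000 20000 40000 40000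
    0 0 26667) (.S 4 5 (.S 4 2 (.L 7 9 [4, 4, 5, 4, 4] [84, 72, 60, 0, 0, 0] [60, 52, 42, 32, 20,
    0] 100000 38596 38595 1218642 30482 44956 60965 62500 0 1535 25000) (.L 7 9 [4, 4, 5, 4, 4]
    [113, 106, 96, 84, 72, 60] [60, 52, 42, 32, 20, 0] 100000 25000 15000 1170000 5000 0 110000
    17500 0 25000 21667)) (.E 2))) (.S 4 5 (.S 4 2 (.L 7 9 [4, 4, 5, 4, 4] [84, 72, 60, 0, 0, 0]
    [72, 70, 62, 52, 42, 30] 100000 39394 39394 1219194 32323 43434 64646 64646 0 10101 20202) (.L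
    7 9 [4, 4, 5, 4, 4] [113, 106, 96, 84, 72, 60] [72, 70, 62, 52, 42, 30] 100000 41667 0 1008333
    0 33333 141667 66667 0 8333 8333)) (.E 2)))) (.L 7 9 [4, 4, 5, 4, 4] [113, 106, 96, 84, 72, 60]
    [] 100000 92309 1 653844 69231 0 92308 192308 0 0 7692)) (.E 1))

lemma s21_21_7_4_22 {n : ℕ} (hn : 5 ≤ n) : NoNd (d21_21_7_4.R : ℤ) d21_21_7_4.H n d21_21_7_4.a d21_21_7_4.b
    (BlkD.inB (BlkD.upd (BlkD.upd (fun _ => 0) 0 4) 1 5)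
      (BlkD.upd (BlkD.upd (BlkD.upd (BlkD.upd (BlkD.upd (BlkD.upd (BlkD.upd (BlkD.upd (BlkD.upd (BlkD.upd (fun _ => 21) 0 7) 2 4) 0 5) 0 4) 1 17) 1 8) 1 6) 1 5) 2 2) 2 1)) :=
  BlkD.tree_sound (BlkD.pairOk_sound k21_21_7_4) (by decide) hn t21_21_7_4_22 _ _ (by decide +kernel)

/-- certificates of the pair `(7, 4)`, part 23 -/
def t21_21_7_4_23 : BlkD.Tr :=
  .S 3 10 (.S 3 5 (.S 3 2 (.S 3 1 (.L 7 9 [4, 4, 5, 4, 4] [113, 106, 96, 84, 72, 60] [] 100000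
    33334 33334 1200000 0 0 0 0 0 0 22222) (.S 4 5 (.S 4 2 (.L 7 9 [4, 4, 5, 4, 4] [84, 72, 60, 0,
    0, 0] [32, 22, 10, 0, 0, 0] 100000 26531 26531 1292347 25510 12755 53571 40816 2551 15306
    25000) (.L 7 9 [4, 4, 5, 4, 4] [113, 106, 96, 84, 72, 60] [32, 22, 10, 0, 0, 0] 100000 36538
    28845 1084616 0 0 107692 107692 0 0 15385)) (.E 2))) (.S 3 4 (.S 3 3 (.S 4 5 (.S 4 2 (.S 4 1
    (.S 4 0 (.L 7 9 [4, 4, 5, 4, 4] [60, 0, 0, 0, 0, 0] [50, 40, 30, 18, 0, 0] 100000 18750 18750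
    1312500 25000 12500 0 75000 25000 0 25000) (.L 7 9 [4, 4, 5, 4, 4] [72, 60, 0, 0, 0, 0] [50,
    40, 30, 18, 0, 0] 100000 25000 25000 1276924 30769 0 92308 46154 0 30769 25000)) (.L 7 9 [4, 4,
    5, 4, 4] [84, 72, 60, 0, 0, 0] [50, 40, 30, 18, 0, 0] 100000 25000 25000 1236365 27273 0 81818
    54545 0 27273 25000)) (.L 7 9 [4, 4, 5, 4, 4] [113, 106, 96, 84, 72, 60] [50, 40, 30, 18, 0, 0]
    100000 25000 15000 1170000 5000 0 110000 17500 0 25000 21667)) (.E 2)) (.S 4 5 (.S 4 2 (.S 4 1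
    (.L 7 9 [4, 4, 5, 4, 4] [72, 60, 0, 0, 0, 0] [68, 60, 50, 40, 28, 0] 100000 30000 30000 1260000
    40000 0 80000 60000 0 20000 20000) (.L 7 9 [4, 4, 5, 4, 4] [84, 72, 60, 0, 0, 0] [68, 60, 50,
    40, 28, 0] 100000 25000 25000 1240000 20000 0 100000 40000 0 40000 25000)) (.L 7 9 [4, 4, 5, 4,
    4] [113, 106, 96, 84, 72, 60] [68, 60, 50, 40, 28, 0] 100000 25000 0 1125000 0 0 125000 12500 0
    25000 25000)) (.E 2))) (.E 1))) (.E 1)) (.E 1)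

lemma s21_21_7_4_23 {n : ℕ} (hn : 5 ≤ n) : NoNd (d21_21_7_4.R : ℤ) d21_21_7_4.H n d21_21_7_4.a d21_21_7_4.b
    (BlkD.inB (BlkD.upd (BlkD.upd (BlkD.upd (fun _ => 0) 0 4) 1 5) 2 2)
      (BlkD.upd (BlkD.upd (BlkD.upd (BlkD.upd (BlkD.upd (BlkD.upd (BlkD.upd (BlkD.upd (BlkD.upd (fun _ => 21) 0 7) 2 4) 0 5) 0 4) 1 17) 1 8) 1 6) 1 5) 2 2)) :=
  BlkD.tree_sound (BlkD.pairOk_sound k21_21_7_4) (by decide) hn t21_21_7_4_23 _ _ (by decide +kernel)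

/-- certificates of the pair `(7, 4)`, part 24 -/
def t21_21_7_4_24 : BlkD.Tr :=
  .S 2 3 (.S 3 9 (.S 3 4 (.S 3 2 (.S 3 1 (.S 3 0 (.L 7 9 [4, 4, 5, 4, 4] [113, 106, 96, 84, 72, 60]
    [0, 0, 0, 0, 0, 0] 100000 33334 33334 1200000 0 0 0 0 0 0 22222) (.S 4 5 (.S 4 2 (.L 5 7 [4, 4,
    5, 5, 6] [84, 72, 60, 0, 0, 0] [18, 6, 0, 0, 0, 0] 100000 24153 24153 1276272 23729 3390 44068
    27119 3390 23729 25424) (.L 5 7 [4, 4, 5, 5, 6] [113, 106, 96, 84, 72, 60] [18, 6, 0, 0, 0, 0]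
    100000 34723 34723 1105556 12963 0 97222 71296 0 0 20370)) (.E 2))) (.S 4 5 (.S 4 2 (.L 5 7 [4,
    4, 5, 5, 6] [84, 72, 60, 0, 0, 0] [36, 26, 14, 0, 0, 0] 100000 23593 23592 1290911 27273 0
    71861 43723 5628 35498 26407) (.L 5 7 [4, 4, 5, 5, 6] [113, 106, 96, 84, 72, 60] [36, 26, 14,
    0, 0, 0] 100000 42106 1 1005264 5263 0 142105 100000 0 0 15789)) (.E 2))) (.S 3 3 (.S 4 5 (.S 4
    2 (.L 6 8 [4, 4, 5, 4, 5] [84, 72, 60, 0, 0, 0] [56, 46, 36, 24, 0, 0] 100000 28125 28125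
    1275000 37500 0 75000 37500 0 37500 25000) (.L 6 8 [4, 4, 5, 4, 5] [113, 106, 96, 84, 72, 60]
    [56, 46, 36, 24, 0, 0] 100000 25000 0 1125000 0 0 125000 0 0 25000 25000)) (.E 2)) (.E 1))) (.E
    1)) (.E 1)) (.L 6 8 [4, 4, 5, 4, 5] [113, 106, 96, 84, 72, 60] [] 100000 22917 22917 1300000
    25000 0 75000 8333 8333 50000 25000)

lemma s21_21_7_4_24 {n : ℕ} (hn : 5 ≤ n) : NoNd (d21_21_7_4.R : ℤ) d21_21_7_4.H n d21_21_7_4.a d21_21_7_4.b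
    (BlkD.inB (BlkD.upd (BlkD.upd (BlkD.upd (fun _ => 0) 0 4) 1 5) 2 3)
      (BlkD.upd (BlkD.upd (BlkD.upd (BlkD.upd (BlkD.upd (BlkD.upd (BlkD.upd (BlkD.upd (fun _ => 21) 0 7) 2 4) 0 5) 0 4) 1 17) 1 8) 1 6) 1 5)) :=
  BlkD.tree_sound (BlkD.pairOk_sound k21_21_7_4) (by decide) hn t21_21_7_4_24 _ _ (by decide +kernel)

/-- certificates of the pair `(7, 4)`, part 25 -/
def t21_21_7_4_25 : BlkD.Tr :=
  .S 2 0 (.L 6 8 [4, 4, 5, 4, 5] [132, 131, 124, 114, 102, 90] [] 100000 50000 50000 1020000 0 0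
    80000 100000 0 0 0) (.S 3 10 (.S 3 5 (.S 3 2 (.L 6 8 [4, 4, 5, 4, 5] [132, 131, 124, 114, 102,
    90] [] 100000 21277 21277 1300003 7092 7092 81560 46099 14894 6383 26241) (.S 3 4 (.S 3 3 (.L 5
    7 [4, 4, 5, 5, 6] [132, 131, 124, 114, 102, 90] [44, 34, 24, 12, 0, 0] 100000 40731 40731
    1232219 27964 27964 62918 62918 6991 6991 32827) (.L 7 9 [4, 4, 5, 4, 4] [132, 131, 124, 114,
    102, 90] [60, 52, 42, 32, 20, 0] 100000 23077 23077 1306839 15385 30769 70085 54701 9402 24786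
    25641)) (.L 5 7 [4, 4, 5, 5, 6] [132, 131, 124, 114, 102, 90] [72, 70, 62, 52, 42, 30] 100000
    37063 37063 1233569 5594 64336 75524 67133 0 11189 20979))) (.L 5 7 [4, 4, 5, 5, 6] [132, 131,
    124, 114, 102, 90] [] 100000 174075 1 0 18519 0 274074 274074 0 0 0)) (.E 1))

lemma s21_21_7_4_25 {n : ℕ} (hn : 5 ≤ n) : NoNd (d21_21_7_4.R : ℤ) d21_21_7_4.H n d21_21_7_4.a d21_21_7_4.b
    (BlkD.inB (BlkD.upd (BlkD.upd (BlkD.upd (fun _ => 0) 0 4) 1 5) 1 6)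
      (BlkD.upd (BlkD.upd (BlkD.upd (BlkD.upd (BlkD.upd (BlkD.upd (BlkD.upd (BlkD.upd (BlkD.upd (fun _ => 21) 0 7) 2 4) 0 5) 0 4) 1 17) 1 8) 1 6) 2 2) 2 1)) :=
  BlkD.tree_sound (BlkD.pairOk_sound k21_21_7_4) (by decide) hn t21_21_7_4_25 _ _ (by decide +kernel)

/-- certificates of the pair `(7, 4)`, part 26 -/
def t21_21_7_4_26 : BlkD.Tr :=
  .S 3 9 (.S 3 4 (.S 3 2 (.S 3 1 (.L 5 7 [4, 4, 5, 5, 6] [132, 131, 124, 114, 102, 90] [] 100000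
    21740 21740 1299999 10870 0 76087 19565 13043 8696 26087) (.S 4 6 (.S 4 3 (.L 5 7 [4, 4, 5, 5,
    6] [114, 102, 90, 78, 0, 0] [32, 22, 10, 0, 0, 0] 100000 21875 21875 1311112 22222 11111 76389
    54167 12500 31944 31944) (.L 5 7 [4, 4, 5, 5, 6] [132, 131, 124, 114, 102, 90] [32, 22, 10, 0,
    0, 0] 100000 39506 9875 1040740 0 0 129630 100000 0 0 11111)) (.E 2))) (.S 3 3 (.S 4 6 (.S 4 3
    (.L 5 7 [4, 4, 5, 5, 6] [114, 102, 90, 78, 0, 0] [50, 40, 30, 18, 0, 0] 100000 32608 32607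
    1260872 39130 0 82609 43478 4348 34783 26087) (.L 5 7 [4, 4, 5, 5, 6] [132, 131, 124, 114, 102,
    90] [50, 40, 30, 18, 0, 0] 100000 25000 0 1125000 0 0 125000 12500 0 25000 25000)) (.E 2)) (.S
    4 6 (.S 4 3 (.L 5 7 [4, 4, 5, 5, 6] [114, 102, 90, 78, 0, 0] [68, 60, 50, 40, 28, 0] 100000
    50000 50000 1150000 50000 0 100000 50000 0 25000 25000) (.L 5 7 [4, 4, 5, 5, 6] [132, 131, 124,
    114, 102, 90] [68, 60, 50, 40, 28, 0] 100000 50000 0 950000 25000 0 150000 25000 0 25000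
    25000)) (.E 2)))) (.E 1)) (.E 1)

lemma s21_21_7_4_26 {n : ℕ} (hn : 5 ≤ n) : NoNd (d21_21_7_4.R : ℤ) d21_21_7_4.H n d21_21_7_4.a d21_21_7_4.b
    (BlkD.inB (BlkD.upd (BlkD.upd (BlkD.upd (BlkD.upd (fun _ => 0) 0 4) 1 5) 1 6) 2 2)
      (BlkD.upd (BlkD.upd (BlkD.upd (BlkD.upd (BlkD.upd (BlkD.upd (BlkD.upd (BlkD.upd (fun _ => 21) 0 7) 2 4) 0 5) 0 4) 1 17) 1 8) 1 6) 2 2)) :=
  BlkD.tree_sound (BlkD.pairOk_sound k21_21_7_4) (by decide) hn t21_21_7_4_26 _ _ (by decide +kernel)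

/-- certificates of the pair `(7, 4)`, part 27 -/
def t21_21_7_4_27 : BlkD.Tr :=
  .S 2 3 (.S 3 8 (.S 3 4 (.S 3 2 (.L 5 7 [4, 4, 5, 5, 6] [132, 131, 124, 114, 102, 90] [] 100000
    21582 21582 1305983 23932 0 74359 41880 13675 46154 37607) (.S 3 3 (.S 4 6 (.S 4 3 (.L 5 7 [4,
    4, 5, 5, 6] [114, 102, 90, 78, 0, 0] [56, 46, 36, 24, 0, 0] 100000 50000 50000 1150000 50000 0
    100000 50000 0 25000 25000) (.L 5 7 [4, 4, 5, 5, 6] [132, 131, 124, 114, 102, 90] [56, 46, 36,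
    24, 0, 0] 100000 55556 0 911110 33333 0 155556 0 0 44444 22222)) (.E 2)) (.E 1))) (.E 1)) (.E
    1)) (.L 5 7 [4, 4, 5, 5, 6] [132, 131, 124, 114, 102, 90] [] 100000 29070 29070 1260466 32558 0
    76744 32558 13953 46512 32558)

lemma s21_21_7_4_27 {n : ℕ} (hn : 5 ≤ n) : NoNd (d21_21_7_4.R : ℤ) d21_21_7_4.H n d21_21_7_4.a d21_21_7_4.b
    (BlkD.inB (BlkD.upd (BlkD.upd (BlkD.upd (BlkD.upd (fun _ => 0) 0 4) 1 5) 1 6) 2 3)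
      (BlkD.upd (BlkD.upd (BlkD.upd (BlkD.upd (BlkD.upd (BlkD.upd (BlkD.upd (fun _ => 21) 0 7) 2 4) 0 5) 0 4) 1 17) 1 8) 1 6)) :=
  BlkD.tree_sound (BlkD.pairOk_sound k21_21_7_4) (by decide) hn t21_21_7_4_27 _ _ (by decide +kernel)

/-- certificates of the pair `(7, 4)`, part 28 -/
def t21_21_7_4_28 : BlkD.Tr :=
  .S 1 7 (.L 5 7 [4, 4, 5, 5, 6] [153, 152, 151, 144, 134, 122] [] 100000 27273 27273 1288638 9091
    0 97727 86364 2273 13636 24242) (.L 5 7 [4, 4, 5, 5, 6] [176, 175, 174, 173, 166, 156] []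
    100000 20833 20832 1216669 0 0 100000 83333 20833 16667 20833)

lemma s21_21_7_4_28 {n : ℕ} (hn : 5 ≤ n) : NoNd (d21_21_7_4.R : ℤ) d21_21_7_4.H n d21_21_7_4.a d21_21_7_4.b
    (BlkD.inB (BlkD.upd (BlkD.upd (BlkD.upd (fun _ => 0) 0 4) 1 5) 1 7)
      (BlkD.upd (BlkD.upd (BlkD.upd (BlkD.upd (BlkD.upd (BlkD.upd (fun _ => 21) 0 7) 2 4) 0 5) 0 4) 1 17) 1 8)) :=
  BlkD.tree_sound (BlkD.pairOk_sound k21_21_7_4) (by decide) hn t21_21_7_4_28 _ _ (by decide +kernel)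

/-- certificates of the pair `(7, 4)`, part 29 -/
def t21_21_7_4_29 : BlkD.Tr :=
  .E 0

lemma s21_21_7_4_29 {n : ℕ} (hn : 5 ≤ n) : NoNd (d21_21_7_4.R : ℤ) d21_21_7_4.H n d21_21_7_4.a d21_21_7_4.b
    (BlkD.inB (BlkD.upd (BlkD.upd (fun _ => 0) 0 4) 1 9)
      (BlkD.upd (BlkD.upd (BlkD.upd (BlkD.upd (BlkD.upd (fun _ => 21) 0 7) 2 4) 0 5) 0 4) 1 17)) :=
  BlkD.tree_sound (BlkD.pairOk_sound k21_21_7_4) (by decide) hn t21_21_7_4_29 _ _ (by decide +kernel)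

/-- certificates of the pair `(7, 4)`, part 30 -/
def t21_21_7_4_30 : BlkD.Tr :=
  .E 0

lemma s21_21_7_4_30 {n : ℕ} (hn : 5 ≤ n) : NoNd (d21_21_7_4.R : ℤ) d21_21_7_4.H n d21_21_7_4.a d21_21_7_4.b
    (BlkD.inB (BlkD.upd (BlkD.upd (fun _ => 0) 0 4) 1 18)
      (BlkD.upd (BlkD.upd (BlkD.upd (BlkD.upd (fun _ => 21) 0 7) 2 4) 0 5) 0 4)) :=
  BlkD.tree_sound (BlkD.pairOk_sound k21_21_7_4) (by decide) hn t21_21_7_4_30 _ _ (by decide +kernel)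

/-- certificates of the pair `(7, 4)`, part 31 -/
def t21_21_7_4_31 : BlkD.Tr :=
  .L 5 7 [4, 4, 5, 5, 6] [] [] 100000 25000 25000 1262500 18750 0 18750 62500 0 37500 25000

lemma s21_21_7_4_31 {n : ℕ} (hn : 5 ≤ n) : NoNd (d21_21_7_4.R : ℤ) d21_21_7_4.H n d21_21_7_4.a d21_21_7_4.b
    (BlkD.inB (BlkD.upd (BlkD.upd (fun _ => 0) 0 4) 0 5)
      (BlkD.upd (BlkD.upd (BlkD.upd (BlkD.upd (BlkD.upd (BlkD.upd (BlkD.upd (fun _ => 21) 0 7) 2 4) 0 5) 1 16) 1 8) 1 4) 1 2)) :=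
  BlkD.tree_sound (BlkD.pairOk_sound k21_21_7_4) (by decide) hn t21_21_7_4_31 _ _ (by decide +kernel)

/-- certificates of the pair `(7, 4)`, part 32 -/
def t21_21_7_4_32 : BlkD.Tr :=
  .S 2 2 (.S 2 1 (.S 2 0 (.L 5 7 [4, 4, 5, 5, 6] [72, 60, 48, 36, 0, 0] [] 100000 50000 50000
    1000000 0 0 0 100000 0 0 0) (.S 3 12 (.S 3 6 (.S 3 3 (.L 5 7 [4, 4, 5, 5, 6] [72, 60, 48, 36,
    0, 0] [] 100000 33334 33334 1191667 8333 8333 8333 8333 0 0 22222) (.S 3 5 (.S 3 4 (.L 5 7 [4,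
    4, 5, 5, 6] [72, 60, 48, 36, 0, 0] [60, 52, 42, 32, 20, 0] 100000 23864 23864 1295454 0 36364
    63636 68182 4545 31818 31818) (.L 5 7 [4, 4, 5, 5, 6] [72, 60, 48, 36, 0, 0] [72, 70, 62, 52,
    42, 30] 100000 21847 21847 1312389 12538 25000 88213 50000 12613 50000 38288)) (.L 5 7 [4, 4,
    5, 5, 6] [72, 60, 48, 36, 0, 0] [86, 84, 82, 74, 64, 54] 100000 100000 0 600000 100000 0 100000
    200000 0 0 0))) (.E 1)) (.E 1))) (.S 3 11 (.S 3 5 (.S 3 2 (.L 5 7 [4, 4, 5, 5, 6] [72, 60, 48,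
    36, 0, 0] [] 100000 33334 33334 1200000 0 0 0 0 0 0 22222) (.S 3 4 (.S 3 3 (.L 7 9 [4, 4, 5, 4,
    4] [72, 60, 48, 36, 0, 0] [50, 40, 30, 18, 0, 0] 100000 24039 24039 1294231 16346 9615 49038
    32692 3846 20192 27885) (.S 4 3 (.S 4 1 (.L 7 9 [4, 4, 5, 4, 4] [48, 36, 0, 0, 0, 0] [68, 60,
    50, 40, 28, 0] 100000 24020 24020 1294120 35294 0 74510 54902 3922 31373 21569) (.L 7 9 [4, 4,
    5, 4, 4] [72, 60, 48, 36, 0, 0] [68, 60, 50, 40, 28, 0] 100000 25000 12499 1162500 12500 0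
    112500 18750 0 25000 20833)) (.E 2))) (.E 1))) (.E 1)) (.E 1))) (.S 2 3 (.S 3 10 (.S 3 5 (.S 3
    2 (.L 7 9 [4, 4, 5, 4, 4] [72, 60, 48, 36, 0, 0] [] 100000 22178 22178 1298387 12903 12903
    80645 80645 11290 11290 29032) (.L 7 9 [4, 4, 5, 4, 4] [72, 60, 48, 36, 0, 0] [] 100000 22619
    22618 1296429 34524 0 91667 39286 9524 60714 33333)) (.E 1)) (.E 1)) (.L 5 7 [4, 4, 5, 5, 6]
    [72, 60, 48, 36, 0, 0] [] 100000 22917 22917 1252777 27778 0 69444 8333 8333 75000 25000))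

lemma s21_21_7_4_32 {n : ℕ} (hn : 5 ≤ n) : NoNd (d21_21_7_4.R : ℤ) d21_21_7_4.H n d21_21_7_4.a d21_21_7_4.b
    (BlkD.inB (BlkD.upd (BlkD.upd (BlkD.upd (fun _ => 0) 0 4) 0 5) 1 3)
      (BlkD.upd (BlkD.upd (BlkD.upd (BlkD.upd (BlkD.upd (BlkD.upd (BlkD.upd (fun _ => 21) 0 7) 2 4) 0 5) 1 16) 1 8) 1 4) 1 3)) :=
  BlkD.tree_sound (BlkD.pairOk_sound k21_21_7_4) (by decide) hn t21_21_7_4_32 _ _ (by decide +kernel)

/-- certificates of the pair `(7, 4)`, part 33 -/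
def t21_21_7_4_33 : BlkD.Tr :=
  .S 2 1 (.S 2 0 (.L 5 7 [4, 4, 5, 5, 6] [98, 88, 76, 64, 52, 0] [] 100000 50000 50000 1000000 0 0
    50000 100000 0 0 0) (.S 3 11 (.S 3 5 (.S 3 2 (.L 5 7 [4, 4, 5, 5, 6] [98, 88, 76, 64, 52, 0] []
    100000 33334 33334 1188889 11111 11111 11111 11111 0 0 22222) (.S 3 4 (.S 3 3 (.L 5 7 [4, 4, 5,
    5, 6] [98, 88, 76, 64, 52, 0] [44, 34, 24, 12, 0, 0] 100000 22019 22019 1288076 5505 11009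
    82569 84404 11927 10092 25994) (.L 6 8 [4, 4, 5, 4, 5] [98, 88, 76, 64, 52, 0] [60, 52, 42, 32,
    20, 0] 100000 22100 22100 1310577 7498 33465 88398 55643 11602 36859 25967)) (.L 6 8 [4, 4, 5,
    4, 5] [98, 88, 76, 64, 52, 0] [72, 70, 62, 52, 42, 30] 100000 53012 53012 1148195 24096 63855
    87952 75904 0 0 15663))) (.L 6 8 [4, 4, 5, 4, 5] [98, 88, 76, 64, 52, 0] [] 100000 150000 0
    250000 87500 0 212500 250000 0 0 25000)) (.E 1))) (.S 3 10 (.S 3 5 (.S 3 2 (.L 6 8 [4, 4, 5, 4,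
    5] [98, 88, 76, 64, 52, 0] [] 100000 21569 21569 1305882 7843 3922 86275 86275 13725 9804
    25490) (.S 3 4 (.S 3 3 (.S 4 4 (.S 4 2 (.S 4 1 (.L 6 8 [4, 4, 5, 4, 5] [64, 52, 0, 0, 0, 0]
    [50, 40, 30, 18, 0, 0] 100000 11111 11111 1333334 22222 0 77778 55556 55556 44444 27778) (.L 6
    8 [4, 4, 5, 4, 5] [76, 64, 52, 0, 0, 0] [50, 40, 30, 18, 0, 0] 100000 25000 25000 1250000 25000
    0 100000 50000 0 50000 25000)) (.L 6 8 [4, 4, 5, 4, 5] [98, 88, 76, 64, 52, 0] [50, 40, 30, 18,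
    0, 0] 100000 25000 16666 1175001 8333 0 108333 16667 0 25000 22222)) (.E 2)) (.S 4 4 (.S 4 2
    (.L 6 8 [4, 4, 5, 4, 5] [76, 64, 52, 0, 0, 0] [68, 60, 50, 40, 28, 0] 100000 33333 33332
    1233334 33333 0 100000 66667 0 33333 16667) (.L 6 8 [4, 4, 5, 4, 5] [98, 88, 76, 64, 52, 0]
    [68, 60, 50, 40, 28, 0] 100000 25000 0 1125000 0 0 125000 12500 0 25000 25000)) (.E 2))) (.E
    1))) (.E 1)) (.E 1))

lemma s21_21_7_4_33 {n : ℕ} (hn : 5 ≤ n) : NoNd (d21_21_7_4.R : ℤ) d21_21_7_4.H n d21_21_7_4.a d21_21_7_4.b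
    (BlkD.inB (BlkD.upd (BlkD.upd (BlkD.upd (BlkD.upd (fun _ => 0) 0 4) 0 5) 1 3) 1 4)
      (BlkD.upd (BlkD.upd (BlkD.upd (BlkD.upd (BlkD.upd (BlkD.upd (BlkD.upd (fun _ => 21) 0 7) 2 4) 0 5) 1 16) 1 8) 1 4) 2 2)) :=
  BlkD.tree_sound (BlkD.pairOk_sound k21_21_7_4) (by decide) hn t21_21_7_4_33 _ _ (by decide +kernel)

/-- certificates of the pair `(7, 4)`, part 34 -/
def t21_21_7_4_34 : BlkD.Tr :=
  .S 2 3 (.S 3 9 (.S 3 4 (.S 3 2 (.L 5 7 [4, 4, 5, 5, 6] [98, 88, 76, 64, 52, 0] [] 100000 22727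
    22726 1303032 24242 0 66667 36364 9091 39394 33333) (.S 3 3 (.S 4 4 (.S 4 2 (.L 5 7 [4, 4, 5,
    5, 6] [76, 64, 52, 0, 0, 0] [56, 46, 36, 24, 0, 0] 100000 33333 33332 1233334 33333 0 100000
    66667 0 33333 33333) (.L 5 7 [4, 4, 5, 5, 6] [98, 88, 76, 64, 52, 0] [56, 46, 36, 24, 0, 0]
    100000 25000 0 1125000 0 0 125000 0 0 25000 25000)) (.E 2)) (.E 1))) (.E 1)) (.E 1)) (.L 5 7
    [4, 4, 5, 5, 6] [98, 88, 76, 64, 52, 0] [] 100000 20000 20000 1300000 25000 0 87500 25000 20000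
    62500 37500)

lemma s21_21_7_4_34 {n : ℕ} (hn : 5 ≤ n) : NoNd (d21_21_7_4.R : ℤ) d21_21_7_4.H n d21_21_7_4.a d21_21_7_4.b
    (BlkD.inB (BlkD.upd (BlkD.upd (BlkD.upd (BlkD.upd (BlkD.upd (fun _ => 0) 0 4) 0 5) 1 3) 1 4) 2 3)
      (BlkD.upd (BlkD.upd (BlkD.upd (BlkD.upd (BlkD.upd (BlkD.upd (fun _ => 21) 0 7) 2 4) 0 5) 1 16) 1 8) 1 4)) :=
  BlkD.tree_sound (BlkD.pairOk_sound k21_21_7_4) (by decide) hn t21_21_7_4_34 _ _ (by decide +kernel)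

/-- certificates of the pair `(7, 4)`, part 35 -/
def t21_21_7_4_35 : BlkD.Tr :=
  .S 1 6 (.S 1 5 (.S 2 2 (.S 2 1 (.L 5 7 [4, 4, 5, 5, 6] [123, 116, 106, 94, 82, 70] [] 100000
    38710 38709 1222583 22581 38710 77419 70968 0 6452 22581) (.S 3 9 (.S 3 4 (.S 3 2 (.L 5 7 [4,
    4, 5, 5, 6] [123, 116, 106, 94, 82, 70] [] 100000 22464 22464 1298070 10628 5314 80676 75362
    10145 14010 25282) (.L 5 7 [4, 4, 5, 5, 6] [123, 116, 106, 94, 82, 70] [] 100000 23404 23403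
    1300001 22340 0 93617 39362 6383 60638 38298)) (.E 1)) (.E 1))) (.L 5 7 [4, 4, 5, 5, 6] [123,
    116, 106, 94, 82, 70] [] 100000 23750 23750 1275000 25000 0 75000 50000 5000 30000 30000)) (.S
    2 2 (.S 2 1 (.L 5 7 [4, 4, 5, 5, 6] [144, 143, 136, 126, 114, 102] [] 100000 17257 17257
    1303393 0 27581 79056 83333 30973 16667 27581) (.S 3 8 (.S 3 4 (.S 3 2 (.L 5 7 [4, 4, 5, 5, 6]
    [144, 143, 136, 126, 114, 102] [] 100000 18750 18750 1300000 0 0 100000 25000 25000 25000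
    25000) (.S 3 3 (.L 7 9 [4, 4, 5, 4, 4] [144, 143, 136, 126, 114, 102] [50, 40, 30, 18, 0, 0]
    100000 18182 18182 1300001 27273 0 81818 54545 18182 45455 27273) (.E 2))) (.E 1)) (.E 1))) (.L
    7 9 [4, 4, 5, 4, 4] [144, 143, 136, 126, 114, 102] [] 100000 15790 15790 1294737 5263 0 100000
    52632 36842 47368 36842))) (.E 0)

lemma s21_21_7_4_35 {n : ℕ} (hn : 5 ≤ n) : NoNd (d21_21_7_4.R : ℤ) d21_21_7_4.H n d21_21_7_4.a d21_21_7_4.b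
    (BlkD.inB (BlkD.upd (BlkD.upd (BlkD.upd (fun _ => 0) 0 4) 0 5) 1 5)
      (BlkD.upd (BlkD.upd (BlkD.upd (BlkD.upd (BlkD.upd (fun _ => 21) 0 7) 2 4) 0 5) 1 16) 1 8)) :=
  BlkD.tree_sound (BlkD.pairOk_sound k21_21_7_4) (by decide) hn t21_21_7_4_35 _ _ (by decide +kernel)

/-- certificates of the pair `(7, 4)`, part 36 -/
def t21_21_7_4_36 : BlkD.Tr :=
  .E 0

lemma s21_21_7_4_36 {n : ℕ} (hn : 5 ≤ n) : NoNd (d21_21_7_4.R : ℤ) d21_21_7_4.H n d21_21_7_4.a d21_21_7_4.b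
    (BlkD.inB (BlkD.upd (BlkD.upd (BlkD.upd (fun _ => 0) 0 4) 0 5) 1 9)
      (BlkD.upd (BlkD.upd (BlkD.upd (BlkD.upd (fun _ => 21) 0 7) 2 4) 0 5) 1 16)) :=
  BlkD.tree_sound (BlkD.pairOk_sound k21_21_7_4) (by decide) hn t21_21_7_4_36 _ _ (by decide +kernel)

/-- certificates of the pair `(7, 4)`, part 37 -/
def t21_21_7_4_37 : BlkD.Tr :=
  .E 0

lemma s21_21_7_4_37 {n : ℕ} (hn : 5 ≤ n) : NoNd (d21_21_7_4.R : ℤ) d21_21_7_4.H n d21_21_7_4.a d21_21_7_4.b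
    (BlkD.inB (BlkD.upd (BlkD.upd (BlkD.upd (fun _ => 0) 0 4) 0 5) 1 17)
      (BlkD.upd (BlkD.upd (BlkD.upd (fun _ => 21) 0 7) 2 4) 0 5)) :=
  BlkD.tree_sound (BlkD.pairOk_sound k21_21_7_4) (by decide) hn t21_21_7_4_37 _ _ (by decide +kernel)

/-- certificates of the pair `(7, 4)`, part 38 -/
def t21_21_7_4_38 : BlkD.Tr :=
  .S 0 6 (.S 1 15 (.S 1 7 (.S 1 3 (.S 1 1 (.L 7 9 [4, 4, 5, 4, 4] [] [] 100000 21868 21868 1287720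
    24812 12406 87469 33333 12531 28571 33333) (.S 1 2 (.L 7 9 [4, 4, 5, 4, 4] [50, 38, 26, 0, 0,
    0] [] 100000 21023 21023 1311363 40909 2273 84091 50000 15909 25000 25000) (.S 2 2 (.S 2 1 (.L
    7 9 [4, 4, 5, 4, 4] [78, 66, 54, 42, 0, 0] [] 100000 32119 32119 1215238 13905 56953 76217
    70858 7706 13065 22627) (.S 3 10 (.S 3 5 (.S 3 2 (.L 7 9 [4, 4, 5, 4, 4] [78, 66, 54, 42, 0, 0]
    [] 100000 17857 17856 1300000 0 0 71429 100000 28571 0 28571) (.L 5 7 [4, 4, 5, 5, 6] [78, 66,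
    54, 42, 0, 0] [] 100000 20931 20931 1315969 22481 13023 82713 45271 16279 53721 38760)) (.E 1))
    (.E 1))) (.L 5 7 [4, 4, 5, 5, 6] [78, 66, 54, 42, 0, 0] [] 100000 20000 20000 1310000 30000 0
    90000 50000 20000 50000 40000)))) (.L 5 7 [4, 4, 5, 5, 6] [] [] 100000 17242 17242 1320690 0 0
    89655 89655 31034 20690 19828)) (.E 0)) (.E 0)) (.L 5 7 [4, 4, 5, 5, 6] [] [] 100000 3778 3777
    1344223 0 5778 50000 65111 84889 34889 50000)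

lemma s21_21_7_4_38 {n : ℕ} (hn : 5 ≤ n) : NoNd (d21_21_7_4.R : ℤ) d21_21_7_4.H n d21_21_7_4.a d21_21_7_4.b
    (BlkD.inB (BlkD.upd (BlkD.upd (fun _ => 0) 0 4) 0 6)
      (BlkD.upd (BlkD.upd (fun _ => 21) 0 7) 2 4)) :=
  BlkD.tree_sound (BlkD.pairOk_sound k21_21_7_4) (by decide) hn t21_21_7_4_38 _ _ (by decide +kernel)

/-- certificates of the pair `(7, 4)`, part 39 -/
def t21_21_7_4_39 : BlkD.Tr :=
  .E 1

lemma s21_21_7_4_39 {n : ℕ} (hn : 5 ≤ n) : NoNd (d21_21_7_4.R : ℤ) d21_21_7_4.H n d21_21_7_4.a d21_21_7_4.b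
    (BlkD.inB (BlkD.upd (fun _ => 0) 2 5)
      (BlkD.upd (fun _ => 21) 0 7)) :=
  BlkD.tree_sound (BlkD.pairOk_sound k21_21_7_4) (by decide) hn t21_21_7_4_39 _ _ (by decide +kernel)

/-- certificates of the pair `(7, 4)`, part 40 -/
def t21_21_7_4_40 : BlkD.Tr :=
  .E 0

lemma s21_21_7_4_40 {n : ℕ} (hn : 5 ≤ n) : NoNd (d21_21_7_4.R : ℤ) d21_21_7_4.H n d21_21_7_4.a d21_21_7_4.b
    (BlkD.inB (BlkD.upd (fun _ => 0) 0 8)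
      (fun _ => 21)) :=
  BlkD.tree_sound (BlkD.pairOk_sound k21_21_7_4) (by decide) hn t21_21_7_4_40 _ _ (by decide +kernel)

lemma pr21_21_7_4 {n : ℕ} (hn : 5 ≤ n) : NoPr ((21 : ℕ) : ℤ) ((21 : ℕ) : ℤ) n 7 4 :=
  BlkD.of_root (R := d21_21_7_4.R) (H := d21_21_7_4.H) (a := d21_21_7_4.a) (b := d21_21_7_4.b) (q := 3) (by decide) hn
    (BlkD.sp 0 7 (BlkD.sp 2 4 (BlkD.sp 0 3 (BlkD.sp 0 1 (BlkD.sp 0 0 (s21_21_7_4_1 hn) (BlkD.sp 1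
      10 (BlkD.sp 1 5 (s21_21_7_4_2 hn) (s21_21_7_4_3 hn)) (s21_21_7_4_4 hn))) (BlkD.sp 0 2
      (BlkD.sp 1 19 (BlkD.sp 1 9 (BlkD.sp 1 4 (s21_21_7_4_5 hn) (BlkD.sp 1 7 (s21_21_7_4_6 hn)
      (s21_21_7_4_7 hn))) (s21_21_7_4_8 hn)) (s21_21_7_4_9 hn)) (BlkD.sp 1 18 (BlkD.sp 1 9 (BlkD.sp
      1 4 (s21_21_7_4_10 hn) (BlkD.sp 1 7 (BlkD.sp 1 6 (BlkD.sp 1 5 (s21_21_7_4_11 hn) (BlkD.sp 2 2
      (s21_21_7_4_12 hn) (s21_21_7_4_13 hn))) (BlkD.sp 2 2 (BlkD.sp 2 1 (s21_21_7_4_14 hn)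
      (s21_21_7_4_15 hn)) (s21_21_7_4_16 hn))) (s21_21_7_4_17 hn))) (s21_21_7_4_18 hn))
      (s21_21_7_4_19 hn)))) (BlkD.sp 0 5 (BlkD.sp 0 4 (BlkD.sp 1 17 (BlkD.sp 1 8 (BlkD.sp 1 4
      (BlkD.sp 1 2 (s21_21_7_4_20 hn) (s21_21_7_4_21 hn)) (BlkD.sp 1 6 (BlkD.sp 1 5 (BlkD.sp 2 2
      (BlkD.sp 2 1 (s21_21_7_4_22 hn) (s21_21_7_4_23 hn)) (s21_21_7_4_24 hn)) (BlkD.sp 2 2 (BlkD.sp
      2 1 (s21_21_7_4_25 hn) (s21_21_7_4_26 hn)) (s21_21_7_4_27 hn))) (s21_21_7_4_28 hn)))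
      (s21_21_7_4_29 hn)) (s21_21_7_4_30 hn)) (BlkD.sp 1 16 (BlkD.sp 1 8 (BlkD.sp 1 4 (BlkD.sp 1 2
      (s21_21_7_4_31 hn) (BlkD.sp 1 3 (s21_21_7_4_32 hn) (BlkD.sp 2 2 (s21_21_7_4_33 hn)
      (s21_21_7_4_34 hn)))) (s21_21_7_4_35 hn)) (s21_21_7_4_36 hn)) (s21_21_7_4_37 hn)))
      (s21_21_7_4_38 hn))) (s21_21_7_4_39 hn)) (s21_21_7_4_40 hn))

end BlkC

end Pool.Agent.Lib.MP_f04ccf_co
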