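import Pool.Agent.Lib.MP_f04ccf_co.M.BlkT

/-!
MP_f04ccf_co, block certificate, data `R = 21`, `H = 21`, part 6 (generated, helper99:
bd10.cpp, gen2.py).
-/

set_option autoImplicit false
set_option maxRecDepth 100000

namespace Pool.Agent.Lib.MP_f04ccf_co

namespace BlkC

/-- the numbers of the pair `(7, 5)`, `R = 21`, `H = 21` -/
def d21_21_7_5 : BlkD.Pd :=
  ⟨21, 21, 3, 7, 5, 6, 3, 3, 1, 4, 10, 0, 2, 2, 10, 0, [0, 10, 20, 27, 28, 29, 30], [0, 10, 16, 18,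
    20, 22, 24], [⟨1, 1, 1, 4, 8, [0, 4], [0, 4]⟩, ⟨1, 1, 1, 4, 12, [0, 6], [0, 6]⟩, ⟨1, 1, 1, 4,
    16, [0, 8], [0, 8]⟩, ⟨2, 1, 1, 4, 28, [0, 10, 18], [0, 10]⟩]⟩

lemma k21_21_7_5 : BlkD.pairOk d21_21_7_5 = true := by decide +kernel

/-- certificates of the pair `(7, 5)`, part 1 -/
def t21_21_7_5_1 : BlkD.Tr :=
  .L 6 7 [4, 4, 4, 5, 21, 21] [] [] 100000 66667 66667 1100000 100000 0 100000 0 0 0 0

lemma s21_21_7_5_1 {n : ℕ} (hn : 5 ≤ n) : NoNd (d21_21_7_5.R : ℤ) d21_21_7_5.H n d21_21_7_5.a d21_21_7_5.b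
    (BlkD.inB (fun _ => 0)
      (BlkD.upd (BlkD.upd (BlkD.upd (BlkD.upd (BlkD.upd (fun _ => 21) 0 7) 2 5) 0 3) 0 1) 0 0)) :=
  BlkD.tree_sound (BlkD.pairOk_sound k21_21_7_5) (by decide) hn t21_21_7_5_1 _ _ (by decide +kernel)

/-- certificates of the pair `(7, 5)`, part 2 -/
def t21_21_7_5_2 : BlkD.Tr :=
  .S 1 2 (.L 6 7 [4, 4, 4, 5, 21, 21] [] [] 100000 66667 66667 1100000 100000 0 100000 0 0 0 0) (.L
    6 7 [4, 4, 4, 5, 21, 21] [] [] 100000 66667 66667 1100000 100000 0 100000 0 0 0 0)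

lemma s21_21_7_5_2 {n : ℕ} (hn : 5 ≤ n) : NoNd (d21_21_7_5.R : ℤ) d21_21_7_5.H n d21_21_7_5.a d21_21_7_5.b
    (BlkD.inB (BlkD.upd (fun _ => 0) 0 1)
      (BlkD.upd (BlkD.upd (BlkD.upd (BlkD.upd (BlkD.upd (BlkD.upd (fun _ => 21) 0 7) 2 5) 0 3) 0 1) 1 10) 1 5)) :=
  BlkD.tree_sound (BlkD.pairOk_sound k21_21_7_5) (by decide) hn t21_21_7_5_2 _ _ (by decide +kernel)

/-- certificates of the pair `(7, 5)`, part 3 -/
def t21_21_7_5_3 : BlkD.Tr :=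
  .L 6 7 [4, 4, 4, 5, 21, 21] [] [] 100000 66667 66667 1100000 100000 0 100000 0 0 0 0

lemma s21_21_7_5_3 {n : ℕ} (hn : 5 ≤ n) : NoNd (d21_21_7_5.R : ℤ) d21_21_7_5.H n d21_21_7_5.a d21_21_7_5.b
    (BlkD.inB (BlkD.upd (BlkD.upd (fun _ => 0) 0 1) 1 6)
      (BlkD.upd (BlkD.upd (BlkD.upd (BlkD.upd (BlkD.upd (BlkD.upd (fun _ => 21) 0 7) 2 5) 0 3) 0 1) 1 10) 1 8)) :=
  BlkD.tree_sound (BlkD.pairOk_sound k21_21_7_5) (by decide) hn t21_21_7_5_3 _ _ (by decide +kernel)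

/-- certificates of the pair `(7, 5)`, part 4 -/
def t21_21_7_5_4 : BlkD.Tr :=
  .L 6 7 [4, 4, 4, 5, 21, 21] [] [] 100000 66667 66667 1100000 100000 0 100000 0 0 0 0

lemma s21_21_7_5_4 {n : ℕ} (hn : 5 ≤ n) : NoNd (d21_21_7_5.R : ℤ) d21_21_7_5.H n d21_21_7_5.a d21_21_7_5.b
    (BlkD.inB (BlkD.upd (BlkD.upd (BlkD.upd (fun _ => 0) 0 1) 1 6) 1 9)
      (BlkD.upd (BlkD.upd (BlkD.upd (BlkD.upd (BlkD.upd (fun _ => 21) 0 7) 2 5) 0 3) 0 1) 1 10)) :=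
  BlkD.tree_sound (BlkD.pairOk_sound k21_21_7_5) (by decide) hn t21_21_7_5_4 _ _ (by decide +kernel)

/-- certificates of the pair `(7, 5)`, part 5 -/
def t21_21_7_5_5 : BlkD.Tr :=
  .L 6 7 [4, 4, 4, 5, 21, 21] [] [] 100000 66667 66667 1100000 100000 0 100000 0 0 0 0

lemma s21_21_7_5_5 {n : ℕ} (hn : 5 ≤ n) : NoNd (d21_21_7_5.R : ℤ) d21_21_7_5.H n d21_21_7_5.a d21_21_7_5.b
    (BlkD.inB (BlkD.upd (BlkD.upd (fun _ => 0) 0 1) 1 11)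
      (BlkD.upd (BlkD.upd (BlkD.upd (BlkD.upd (fun _ => 21) 0 7) 2 5) 0 3) 0 1)) :=
  BlkD.tree_sound (BlkD.pairOk_sound k21_21_7_5) (by decide) hn t21_21_7_5_5 _ _ (by decide +kernel)

/-- certificates of the pair `(7, 5)`, part 6 -/
def t21_21_7_5_6 : BlkD.Tr :=
  .L 6 7 [4, 4, 4, 5, 21, 21] [] [] 100000 33333 33332 1300000 25000 0 25000 50000 0 0 0

lemma s21_21_7_5_6 {n : ℕ} (hn : 5 ≤ n) : NoNd (d21_21_7_5.R : ℤ) d21_21_7_5.H n d21_21_7_5.a d21_21_7_5.b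
    (BlkD.inB (BlkD.upd (fun _ => 0) 0 2)
      (BlkD.upd (BlkD.upd (BlkD.upd (BlkD.upd (BlkD.upd (BlkD.upd (BlkD.upd (fun _ => 21) 0 7) 2 5) 0 3) 0 2) 1 19) 1 9) 1 4)) :=
  BlkD.tree_sound (BlkD.pairOk_sound k21_21_7_5) (by decide) hn t21_21_7_5_6 _ _ (by decide +kernel)

/-- certificates of the pair `(7, 5)`, part 7 -/
def t21_21_7_5_7 : BlkD.Tr :=
  .S 1 5 (.L 6 7 [4, 4, 4, 5, 21, 21] [93, 86, 76, 66, 54, 40] [] 100000 40740 40739 1333335 33333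
    0 33333 66667 0 11111 5556) (.S 2 2 (.L 6 7 [4, 4, 4, 5, 21, 21] [111, 107, 100, 90, 80, 68] []
    100000 42677 42676 1300000 36364 27273 54545 54545 0 7576 17803) (.L 6 7 [4, 4, 4, 5, 21, 21]
    [111, 107, 100, 90, 80, 68] [] 100000 25000 25000 1400000 25000 0 37500 50000 0 25000 25000))

lemma s21_21_7_5_7 {n : ℕ} (hn : 5 ≤ n) : NoNd (d21_21_7_5.R : ℤ) d21_21_7_5.H n d21_21_7_5.a d21_21_7_5.b
    (BlkD.inB (BlkD.upd (BlkD.upd (fun _ => 0) 0 2) 1 5)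
      (BlkD.upd (BlkD.upd (BlkD.upd (BlkD.upd (BlkD.upd (BlkD.upd (BlkD.upd (BlkD.upd (fun _ => 21) 0 7) 2 5) 0 3) 0 2) 1 19) 1 9) 1 7) 1 6)) :=
  BlkD.tree_sound (BlkD.pairOk_sound k21_21_7_5) (by decide) hn t21_21_7_5_7 _ _ (by decide +kernel)

/-- certificates of the pair `(7, 5)`, part 8 -/
def t21_21_7_5_8 : BlkD.Tr :=
  .S 2 2 (.L 6 7 [4, 4, 4, 5, 21, 21] [128, 127, 123, 116, 106, 96] [] 100000 49934 49934 1301197
    39841 29880 59761 50199 0 8367 19522) (.L 6 7 [4, 4, 4, 5, 21, 21] [128, 127, 123, 116, 106,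
    96] [] 100000 59722 59721 1300000 50000 0 75000 50000 0 8333 12500)

lemma s21_21_7_5_8 {n : ℕ} (hn : 5 ≤ n) : NoNd (d21_21_7_5.R : ℤ) d21_21_7_5.H n d21_21_7_5.a d21_21_7_5.b
    (BlkD.inB (BlkD.upd (BlkD.upd (BlkD.upd (fun _ => 0) 0 2) 1 5) 1 7)
      (BlkD.upd (BlkD.upd (BlkD.upd (BlkD.upd (BlkD.upd (BlkD.upd (BlkD.upd (fun _ => 21) 0 7) 2 5) 0 3) 0 2) 1 19) 1 9) 1 7)) :=
  BlkD.tree_sound (BlkD.pairOk_sound k21_21_7_5) (by decide) hn t21_21_7_5_8 _ _ (by decide +kernel)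

/-- certificates of the pair `(7, 5)`, part 9 -/
def t21_21_7_5_9 : BlkD.Tr :=
  .S 1 8 (.S 2 2 (.L 6 7 [4, 4, 4, 5, 21, 21] [147, 146, 145, 141, 134, 124] [] 100000 85521 85520
    1209094 54545 36364 72727 63636 0 1515 21717) (.L 6 7 [4, 4, 4, 5, 21, 21] [147, 146, 145, 141,
    134, 124] [] 100000 61112 61112 1287499 54167 0 75000 66667 0 8333 25000)) (.L 6 7 [4, 4, 4, 5,
    21, 21] [168, 167, 166, 165, 161, 154] [] 100000 86111 86110 1175000 75000 0 100000 50000 0 0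
    8333)

lemma s21_21_7_5_9 {n : ℕ} (hn : 5 ≤ n) : NoNd (d21_21_7_5.R : ℤ) d21_21_7_5.H n d21_21_7_5.a d21_21_7_5.b
    (BlkD.inB (BlkD.upd (BlkD.upd (BlkD.upd (fun _ => 0) 0 2) 1 5) 1 8)
      (BlkD.upd (BlkD.upd (BlkD.upd (BlkD.upd (BlkD.upd (BlkD.upd (fun _ => 21) 0 7) 2 5) 0 3) 0 2) 1 19) 1 9)) :=
  BlkD.tree_sound (BlkD.pairOk_sound k21_21_7_5) (by decide) hn t21_21_7_5_9 _ _ (by decide +kernel)

/-- certificates of the pair `(7, 5)`, part 10 -/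
def t21_21_7_5_10 : BlkD.Tr :=
  .L 6 7 [4, 4, 4, 5, 21, 21] [] [] 100000 116000 116000 1096000 80800 0 100000 80800 0 3200 28000

lemma s21_21_7_5_10 {n : ℕ} (hn : 5 ≤ n) : NoNd (d21_21_7_5.R : ℤ) d21_21_7_5.H n d21_21_7_5.a d21_21_7_5.b
    (BlkD.inB (BlkD.upd (BlkD.upd (fun _ => 0) 0 2) 1 10)
      (BlkD.upd (BlkD.upd (BlkD.upd (BlkD.upd (BlkD.upd (fun _ => 21) 0 7) 2 5) 0 3) 0 2) 1 19)) :=
  BlkD.tree_sound (BlkD.pairOk_sound k21_21_7_5) (by decide) hn t21_21_7_5_10 _ _ (by decide +kernel)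

/-- certificates of the pair `(7, 5)`, part 11 -/
def t21_21_7_5_11 : BlkD.Tr :=
  .E 0

lemma s21_21_7_5_11 {n : ℕ} (hn : 5 ≤ n) : NoNd (d21_21_7_5.R : ℤ) d21_21_7_5.H n d21_21_7_5.a d21_21_7_5.b
    (BlkD.inB (BlkD.upd (BlkD.upd (fun _ => 0) 0 2) 1 20)
      (BlkD.upd (BlkD.upd (BlkD.upd (BlkD.upd (fun _ => 21) 0 7) 2 5) 0 3) 0 2)) :=
  BlkD.tree_sound (BlkD.pairOk_sound k21_21_7_5) (by decide) hn t21_21_7_5_11 _ _ (by decide +kernel)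

/-- certificates of the pair `(7, 5)`, part 12 -/
def t21_21_7_5_12 : BlkD.Tr :=
  .L 6 7 [4, 4, 4, 5, 21, 21] [] [] 100000 27778 27778 1400002 25000 0 25000 75000 0 16667 16667

lemma s21_21_7_5_12 {n : ℕ} (hn : 5 ≤ n) : NoNd (d21_21_7_5.R : ℤ) d21_21_7_5.H n d21_21_7_5.a d21_21_7_5.b
    (BlkD.inB (BlkD.upd (BlkD.upd (fun _ => 0) 0 2) 0 3)
      (BlkD.upd (BlkD.upd (BlkD.upd (BlkD.upd (BlkD.upd (BlkD.upd (fun _ => 21) 0 7) 2 5) 0 3) 1 18) 1 9) 1 4)) :=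
  BlkD.tree_sound (BlkD.pairOk_sound k21_21_7_5) (by decide) hn t21_21_7_5_12 _ _ (by decide +kernel)

/-- certificates of the pair `(7, 5)`, part 13 -/
def t21_21_7_5_13 : BlkD.Tr :=
  .S 2 2 (.L 6 7 [4, 4, 4, 5, 21, 21] [103, 96, 86, 76, 64, 50] [] 100000 37500 37500 1375000 25000
    25000 50000 75000 0 12500 6250) (.S 2 4 (.S 2 3 (.L 6 7 [4, 4, 4, 5, 21, 21] [103, 96, 86, 76,
    64, 50] [] 100000 27778 27778 1398335 33333 833 50000 47500 0 19167 16667) (.L 6 7 [4, 4, 4, 5,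
    21, 21] [103, 96, 86, 76, 64, 50] [] 100000 25000 25000 1400000 25000 0 50000 50000 0 25000
    25000)) (.L 6 7 [4, 4, 4, 5, 21, 21] [103, 96, 86, 76, 64, 50] [] 100000 29629 29628 1333335
    33333 0 33333 0 0 44444 22222))

lemma s21_21_7_5_13 {n : ℕ} (hn : 5 ≤ n) : NoNd (d21_21_7_5.R : ℤ) d21_21_7_5.H n d21_21_7_5.a d21_21_7_5.b
    (BlkD.inB (BlkD.upd (BlkD.upd (BlkD.upd (fun _ => 0) 0 2) 0 3) 1 5)
      (BlkD.upd (BlkD.upd (BlkD.upd (BlkD.upd (BlkD.upd (BlkD.upd (BlkD.upd (BlkD.upd (fun _ => 21) 0 7) 2 5) 0 3) 1 18) 1 9) 1 7) 1 6) 1 5)) :=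
  BlkD.tree_sound (BlkD.pairOk_sound k21_21_7_5) (by decide) hn t21_21_7_5_13 _ _ (by decide +kernel)

/-- certificates of the pair `(7, 5)`, part 14 -/
def t21_21_7_5_14 : BlkD.Tr :=
  .S 2 2 (.L 6 7 [4, 4, 4, 5, 21, 21] [123, 119, 112, 102, 92, 80] [] 100000 55837 55836 1326581
    37131 31224 68354 65401 0 6329 22785) (.S 2 4 (.S 2 3 (.S 3 9 (.S 3 4 (.S 3 2 (.L 6 7 [4, 4, 4,
    5, 21, 21] [123, 119, 112, 102, 92, 80] [] 100000 31579 31579 1352632 26316 10526 39474 34211 0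
    5263 5263) (.S 3 3 (.L 6 7 [4, 4, 4, 5, 21, 21] [123, 119, 112, 102, 92, 80] [60, 50, 38, 24,
    0, 0] 100000 27054 27054 1413046 34783 0 49275 69565 2899 17391 13043) (.L 6 7 [4, 4, 4, 5, 21,
    21] [123, 119, 112, 102, 92, 80] [78, 72, 62, 50, 36, 0] 100000 25373 25372 1420898 29851 0
    67164 59701 1493 29851 20896))) (.S 3 7 (.S 3 6 (.S 3 5 (.L 7 8 [5, 5, 3, 4, 21, 21] [123, 119,
    112, 102, 92, 80] [96, 92, 86, 76, 64, 50] 100000 100001 100001 1166665 66667 0 100000 100000 0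
    0 33333) (.E 1)) (.E 1)) (.E 1))) (.E 1)) (.S 3 8 (.S 3 4 (.L 7 8 [5, 5, 3, 4, 21, 21] [123,
    119, 112, 102, 92, 80] [] 100000 30304 30304 1400001 36364 0 54545 72727 0 9091 18182) (.E 1))
    (.E 1))) (.L 7 8 [5, 5, 3, 4, 21, 21] [123, 119, 112, 102, 92, 80] [] 100000 25000 24999
    1375001 41667 0 62500 4167 4167 50000 16667))

lemma s21_21_7_5_14 {n : ℕ} (hn : 5 ≤ n) : NoNd (d21_21_7_5.R : ℤ) d21_21_7_5.H n d21_21_7_5.a d21_21_7_5.b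
    (BlkD.inB (BlkD.upd (BlkD.upd (BlkD.upd (BlkD.upd (fun _ => 0) 0 2) 0 3) 1 5) 1 6)
      (BlkD.upd (BlkD.upd (BlkD.upd (BlkD.upd (BlkD.upd (BlkD.upd (BlkD.upd (fun _ => 21) 0 7) 2 5) 0 3) 1 18) 1 9) 1 7) 1 6)) :=
  BlkD.tree_sound (BlkD.pairOk_sound k21_21_7_5) (by decide) hn t21_21_7_5_14 _ _ (by decide +kernel)

/-- certificates of the pair `(7, 5)`, part 15 -/
def t21_21_7_5_15 : BlkD.Tr :=
  .S 2 1 (.L 7 8 [5, 5, 3, 4, 21, 21] [142, 141, 137, 130, 120, 110] [] 100000 45977 45977 1255174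
    41379 51724 62069 62069 0 0 0) (.S 3 9 (.S 3 4 (.L 7 8 [5, 5, 3, 4, 21, 21] [142, 141, 137,
    130, 120, 110] [] 100000 34884 34884 1383722 34884 25581 60465 58140 4651 6977 3488) (.S 3 7
    (.S 3 6 (.S 3 5 (.L 6 6 [4, 4, 5, 6, 21, 21] [142, 141, 137, 130, 120, 110] [86, 82, 76, 66,
    54, 40] 100000 57972 57972 1317390 34783 34783 69565 69565 0 0 21739) (.L 6 6 [4, 4, 5, 6, 21,
    21] [142, 141, 137, 130, 120, 110] [102, 100, 96, 90, 80, 68] 100000 123810 123810 1100000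
    57143 42857 100000 85714 0 0 14286)) (.E 1)) (.E 1))) (.E 1))

lemma s21_21_7_5_15 {n : ℕ} (hn : 5 ≤ n) : NoNd (d21_21_7_5.R : ℤ) d21_21_7_5.H n d21_21_7_5.a d21_21_7_5.b
    (BlkD.inB (BlkD.upd (BlkD.upd (BlkD.upd (BlkD.upd (fun _ => 0) 0 2) 0 3) 1 5) 1 7)
      (BlkD.upd (BlkD.upd (BlkD.upd (BlkD.upd (BlkD.upd (BlkD.upd (BlkD.upd (fun _ => 21) 0 7) 2 5) 0 3) 1 18) 1 9) 1 7) 2 2)) :=
  BlkD.tree_sound (BlkD.pairOk_sound k21_21_7_5) (by decide) hn t21_21_7_5_15 _ _ (by decide +kernel)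

/-- certificates of the pair `(7, 5)`, part 16 -/
def t21_21_7_5_16 : BlkD.Tr :=
  .S 2 4 (.S 2 3 (.S 3 8 (.S 3 4 (.S 3 2 (.L 6 7 [4, 4, 4, 5, 21, 21] [142, 141, 137, 130, 120,
    110] [] 100000 28148 28147 1413334 33333 0 47778 38889 2222 11111 11111) (.S 3 3 (.L 7 8 [5, 5,
    3, 4, 21, 21] [142, 141, 137, 130, 120, 110] [60, 50, 38, 24, 0, 0] 100000 31293 31293 1404082
    48980 0 55102 42857 0 12245 6122) (.L 6 7 [4, 4, 4, 5, 21, 21] [142, 141, 137, 130, 120, 110]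
    [78, 72, 62, 50, 36, 0] 100000 55224 55224 1319404 44776 0 89552 67164 0 22388 29851))) (.L 6 7
    [4, 4, 4, 5, 21, 21] [142, 141, 137, 130, 120, 110] [] 100000 52381 52381 1328572 47619 0
    100000 33333 0 66667 33333)) (.E 1)) (.L 6 7 [4, 4, 4, 5, 21, 21] [142, 141, 137, 130, 120,
    110] [] 100000 25715 25715 1420000 30000 0 74286 60000 2857 17143 25714)) (.L 6 7 [4, 4, 4, 5,
    21, 21] [142, 141, 137, 130, 120, 110] [] 100000 25146 25146 1412284 38596 0 71930 33333 12281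
    50877 28070)

lemma s21_21_7_5_16 {n : ℕ} (hn : 5 ≤ n) : NoNd (d21_21_7_5.R : ℤ) d21_21_7_5.H n d21_21_7_5.a d21_21_7_5.b
    (BlkD.inB (BlkD.upd (BlkD.upd (BlkD.upd (BlkD.upd (BlkD.upd (fun _ => 0) 0 2) 0 3) 1 5) 1 7) 2 3)
      (BlkD.upd (BlkD.upd (BlkD.upd (BlkD.upd (BlkD.upd (BlkD.upd (fun _ => 21) 0 7) 2 5) 0 3) 1 18) 1 9) 1 7)) :=
  BlkD.tree_sound (BlkD.pairOk_sound k21_21_7_5) (by decide) hn t21_21_7_5_16 _ _ (by decide +kernel)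

/-- certificates of the pair `(7, 5)`, part 17 -/
def t21_21_7_5_17 : BlkD.Tr :=
  .S 1 8 (.S 2 2 (.L 6 7 [4, 4, 4, 5, 21, 21] [163, 162, 161, 157, 150, 140] [] 100000 61290 61290
    1296777 43548 30645 80645 56452 1613 0 12903) (.S 2 4 (.S 2 3 (.S 3 7 (.S 3 3 (.L 6 7 [4, 4, 4,
    5, 21, 21] [163, 162, 161, 157, 150, 140] [] 100000 42783 42783 1367290 48598 0 78505 59813
    2804 10280 17134) (.L 6 7 [4, 4, 4, 5, 21, 21] [163, 162, 161, 157, 150, 140] [] 100000 200000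
    100000 500000 100000 0 200000 200000 0 0 0)) (.E 1)) (.L 6 7 [4, 4, 4, 5, 21, 21] [163, 162,
    161, 157, 150, 140] [] 100000 27161 27161 1377778 37037 0 74074 59259 0 22222 18519)) (.L 6 7
    [4, 4, 4, 5, 21, 21] [163, 162, 161, 157, 150, 140] [] 100000 38889 38889 1316668 50000 0 83333
    33333 0 33333 16667))) (.L 6 7 [4, 4, 4, 5, 21, 21] [186, 185, 184, 183, 179, 172] [] 100000
    66667 66667 1233333 66667 0 100000 33333 0 0 0)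

lemma s21_21_7_5_17 {n : ℕ} (hn : 5 ≤ n) : NoNd (d21_21_7_5.R : ℤ) d21_21_7_5.H n d21_21_7_5.a d21_21_7_5.b
    (BlkD.inB (BlkD.upd (BlkD.upd (BlkD.upd (BlkD.upd (fun _ => 0) 0 2) 0 3) 1 5) 1 8)
      (BlkD.upd (BlkD.upd (BlkD.upd (BlkD.upd (BlkD.upd (fun _ => 21) 0 7) 2 5) 0 3) 1 18) 1 9)) :=
  BlkD.tree_sound (BlkD.pairOk_sound k21_21_7_5) (by decide) hn t21_21_7_5_17 _ _ (by decide +kernel)

/-- certificates of the pair `(7, 5)`, part 18 -/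
def t21_21_7_5_18 : BlkD.Tr :=
  .L 6 7 [4, 4, 4, 5, 21, 21] [] [] 100000 200000 0 0 0 0 300000 0 0 0 0

lemma s21_21_7_5_18 {n : ℕ} (hn : 5 ≤ n) : NoNd (d21_21_7_5.R : ℤ) d21_21_7_5.H n d21_21_7_5.a d21_21_7_5.b
    (BlkD.inB (BlkD.upd (BlkD.upd (BlkD.upd (fun _ => 0) 0 2) 0 3) 1 10)
      (BlkD.upd (BlkD.upd (BlkD.upd (BlkD.upd (fun _ => 21) 0 7) 2 5) 0 3) 1 18)) :=
  BlkD.tree_sound (BlkD.pairOk_sound k21_21_7_5) (by decide) hn t21_21_7_5_18 _ _ (by decide +kernel)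

/-- certificates of the pair `(7, 5)`, part 19 -/
def t21_21_7_5_19 : BlkD.Tr :=
  .E 0

lemma s21_21_7_5_19 {n : ℕ} (hn : 5 ≤ n) : NoNd (d21_21_7_5.R : ℤ) d21_21_7_5.H n d21_21_7_5.a d21_21_7_5.b
    (BlkD.inB (BlkD.upd (BlkD.upd (BlkD.upd (fun _ => 0) 0 2) 0 3) 1 19)
      (BlkD.upd (BlkD.upd (BlkD.upd (fun _ => 21) 0 7) 2 5) 0 3)) :=
  BlkD.tree_sound (BlkD.pairOk_sound k21_21_7_5) (by decide) hn t21_21_7_5_19 _ _ (by decide +kernel)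

/-- certificates of the pair `(7, 5)`, part 20 -/
def t21_21_7_5_20 : BlkD.Tr :=
  .S 1 2 (.L 6 7 [4, 4, 4, 5, 21, 21] [] [] 100000 33333 33332 1300000 50000 0 50000 100000 0 0 0)
    (.S 1 3 (.L 6 7 [4, 4, 4, 5, 21, 21] [66, 56, 44, 30, 0, 0] [] 100000 27083 27082 1409376 28125
    3125 29687 54688 0 18750 18750) (.S 2 2 (.S 2 1 (.L 6 7 [4, 4, 4, 5, 21, 21] [90, 80, 70, 58,
    44, 0] [] 100000 33333 33332 1350000 12500 50000 37500 75000 0 0 0) (.S 3 11 (.S 3 5 (.S 3 2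
    (.L 6 7 [4, 4, 4, 5, 21, 21] [90, 80, 70, 58, 44, 0] [] 100000 33333 33332 1200000 0 0 0 0 0 0
    0) (.S 3 4 (.L 6 7 [4, 4, 4, 5, 21, 21] [90, 80, 70, 58, 44, 0] [] 100000 33333 33332 1362500
    12500 25000 25000 25000 0 0 0) (.L 7 8 [5, 5, 3, 4, 21, 21] [90, 80, 70, 58, 44, 0] [86, 82,
    76, 66, 54, 40] 100000 28395 28395 1403706 22222 25926 44444 44444 0 14815 18519))) (.S 3 8 (.S
    3 7 (.S 3 6 (.S 4 4 (.S 4 2 (.L 7 8 [5, 5, 3, 4, 21, 21] [70, 58, 44, 0, 0, 0] [102, 100, 96,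
    90, 80, 68] 100000 44444 44444 1333335 33333 33333 66667 66667 0 33333 33333) (.L 7 8 [5, 5, 3,
    4, 21, 21] [90, 80, 70, 58, 44, 0] [102, 100, 96, 90, 80, 68] 100000 50000 0 1100000 16667
    16667 150000 33333 0 0 0)) (.E 2)) (.E 1)) (.E 1)) (.E 1))) (.E 1))) (.S 2 4 (.S 2 3 (.S 3 10
    (.S 3 5 (.S 3 2 (.L 7 8 [5, 5, 3, 4, 21, 21] [90, 80, 70, 58, 44, 0] [] 100000 33333 33332
    1300000 0 0 0 0 0 0 0) (.S 3 4 (.S 3 3 (.L 7 8 [5, 5, 3, 4, 21, 21] [90, 80, 70, 58, 44, 0]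
    [60, 50, 38, 24, 0, 0] 100000 28572 28571 1400001 21429 14286 28571 71429 0 14286 14286) (.S 4
    4 (.S 4 2 (.L 7 8 [5, 5, 3, 4, 21, 21] [70, 58, 44, 0, 0, 0] [78, 72, 62, 50, 36, 0] 100000
    25155 25155 1423613 26389 16667 45833 44444 0 29167 24537) (.L 7 8 [5, 5, 3, 4, 21, 21] [90,
    80, 70, 58, 44, 0] [78, 72, 62, 50, 36, 0] 100000 50000 0 1100000 0 0 150000 100000 0 0 0)) (.E
    2))) (.S 4 4 (.S 4 2 (.L 7 8 [5, 5, 3, 4, 21, 21] [70, 58, 44, 0, 0, 0] [96, 92, 86, 76, 64,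
    50] 100000 33333 33332 1366668 33333 0 50000 100000 0 0 33333) (.L 7 8 [5, 5, 3, 4, 21, 21]
    [90, 80, 70, 58, 44, 0] [96, 92, 86, 76, 64, 50] 100000 100000 0 800000 0 0 200000 200000 0 0
    0)) (.E 2)))) (.E 1)) (.E 1)) (.L 7 8 [5, 5, 3, 4, 21, 21] [90, 80, 70, 58, 44, 0] [] 100000
    26316 26316 1415790 26316 5263 52632 52632 0 21053 21053)) (.L 7 8 [5, 5, 3, 4, 21, 21] [90,
    80, 70, 58, 44, 0] [] 100000 16667 16667 1400000 25000 0 25000 0 0 50000 50000))))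

lemma s21_21_7_5_20 {n : ℕ} (hn : 5 ≤ n) : NoNd (d21_21_7_5.R : ℤ) d21_21_7_5.H n d21_21_7_5.a d21_21_7_5.b
    (BlkD.inB (BlkD.upd (fun _ => 0) 0 4)
      (BlkD.upd (BlkD.upd (BlkD.upd (BlkD.upd (BlkD.upd (BlkD.upd (BlkD.upd (fun _ => 21) 0 7) 2 5) 0 5) 0 4) 1 17) 1 8) 1 4)) :=
  BlkD.tree_sound (BlkD.pairOk_sound k21_21_7_5) (by decide) hn t21_21_7_5_20 _ _ (by decide +kernel)

/-- certificates of the pair `(7, 5)`, part 21 -/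
def t21_21_7_5_21 : BlkD.Tr :=
  .S 2 1 (.L 7 8 [5, 5, 3, 4, 21, 21] [113, 106, 96, 86, 74, 60] [] 100000 43678 43678 1275865
    31034 55172 65517 68966 0 0 17241) (.S 3 10 (.S 3 5 (.S 3 2 (.L 7 8 [5, 5, 3, 4, 21, 21] [113,
    106, 96, 86, 74, 60] [] 100000 33333 33332 1300000 0 0 0 0 0 0 0) (.S 3 4 (.L 7 8 [5, 5, 3, 4,
    21, 21] [113, 106, 96, 86, 74, 60] [] 100000 29762 29761 1403571 25000 25000 53571 53571 3571
    3571 25000) (.S 4 5 (.S 4 2 (.L 7 8 [5, 5, 3, 4, 21, 21] [86, 74, 60, 0, 0, 0] [86, 82, 76, 66,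
    54, 40] 100000 31373 31372 1399998 29412 29412 67647 58824 5882 5882 17647) (.L 7 8 [5, 5, 3,
    4, 21, 21] [113, 106, 96, 86, 74, 60] [86, 82, 76, 66, 54, 40] 100000 33333 33332 1250000 0
    50000 100000 100000 0 0 0)) (.E 2)))) (.L 7 8 [5, 5, 3, 4, 21, 21] [113, 106, 96, 86, 74, 60]
    [] 100000 27333 27332 1408000 16000 16000 96000 100000 20000 0 10000)) (.E 1))

lemma s21_21_7_5_21 {n : ℕ} (hn : 5 ≤ n) : NoNd (d21_21_7_5.R : ℤ) d21_21_7_5.H n d21_21_7_5.a d21_21_7_5.b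
    (BlkD.inB (BlkD.upd (BlkD.upd (fun _ => 0) 0 4) 1 5)
      (BlkD.upd (BlkD.upd (BlkD.upd (BlkD.upd (BlkD.upd (BlkD.upd (BlkD.upd (BlkD.upd (BlkD.upd (fun _ => 21) 0 7) 2 5) 0 5) 0 4) 1 17) 1 8) 1 6) 1 5) 2 2)) :=
  BlkD.tree_sound (BlkD.pairOk_sound k21_21_7_5) (by decide) hn t21_21_7_5_21 _ _ (by decide +kernel)

/-- certificates of the pair `(7, 5)`, part 22 -/
def t21_21_7_5_22 : BlkD.Tr :=
  .S 2 4 (.S 2 3 (.S 3 9 (.S 3 4 (.S 3 2 (.L 7 8 [5, 5, 3, 4, 21, 21] [113, 106, 96, 86, 74, 60] []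
    100000 33333 33332 1375000 25000 25000 25000 25000 0 0 25000) (.S 3 3 (.S 4 5 (.S 4 2 (.L 4 5
    [4, 5, 6, 7, 21, 21] [86, 74, 60, 0, 0, 0] [60, 50, 38, 24, 0, 0] 100000 25994 25994 1420186
    31498 917 65749 52905 2752 16514 34251) (.L 4 5 [4, 5, 6, 7, 21, 21] [113, 106, 96, 86, 74, 60]
    [60, 50, 38, 24, 0, 0] 100000 33333 33332 1300000 0 0 100000 100000 0 0 0)) (.E 2)) (.S 4 5 (.S
    4 2 (.S 4 1 (.L 6 7 [4, 4, 4, 5, 21, 21] [74, 60, 0, 0, 0, 0] [78, 72, 62, 50, 36, 0] 100000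
    16092 16092 1444830 31034 0 62069 62069 10345 31034 31034) (.L 6 7 [4, 4, 4, 5, 21, 21] [86,
    74, 60, 0, 0, 0] [78, 72, 62, 50, 36, 0] 100000 24562 24562 1357894 26316 0 94737 68421 0 26316
    31579)) (.L 6 7 [4, 4, 4, 5, 21, 21] [113, 106, 96, 86, 74, 60] [78, 72, 62, 50, 36, 0] 100000
    33334 5556 1216666 11111 0 127778 105556 0 0 33333)) (.E 2)))) (.S 3 7 (.S 3 6 (.S 3 5 (.L 7 8
    [5, 5, 3, 4, 21, 21] [113, 106, 96, 86, 74, 60] [96, 92, 86, 76, 64, 50] 100000 30208 30207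
    1400000 25000 0 100000 100000 18750 0 9375) (.E 1)) (.E 1)) (.E 1))) (.E 1)) (.S 3 8 (.S 3 4
    (.S 3 2 (.S 3 1 (.L 7 8 [5, 5, 3, 4, 21, 21] [113, 106, 96, 86, 74, 60] [] 100000 33333 33332
    1369231 30769 30769 30769 30769 0 0 23077) (.S 4 5 (.S 4 2 (.L 6 7 [4, 4, 4, 5, 21, 21] [86,
    74, 60, 0, 0, 0] [44, 32, 18, 0, 0, 0] 100000 22807 22807 1426316 31579 10526 57895 36842 5263
    21053 21053) (.L 6 7 [4, 4, 4, 5, 21, 21] [113, 106, 96, 86, 74, 60] [44, 32, 18, 0, 0, 0]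
    100000 33333 33332 1300000 0 0 100000 0 0 0 0)) (.E 2))) (.S 3 3 (.S 4 5 (.S 4 2 (.L 5 6 [4, 4,
    5, 6, 21, 21] [86, 74, 60, 0, 0, 0] [66, 56, 44, 30, 0, 0] 100000 19445 19445 1433335 33333 0
    75000 33333 8333 50000 25000) (.L 5 6 [4, 4, 5, 6, 21, 21] [113, 106, 96, 86, 74, 60] [66, 56,
    44, 30, 0, 0] 100000 33334 5556 1216666 11111 0 127778 105556 0 0 33333)) (.E 2)) (.L 5 6 [4,
    4, 5, 6, 21, 21] [113, 106, 96, 86, 74, 60] [86, 80, 70, 58, 44, 0] 100000 25556 25555 1336665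
    16667 0 96667 100000 20000 0 33333))) (.E 1)) (.E 1))) (.L 5 6 [4, 4, 5, 6, 21, 21] [113, 106,
    96, 86, 74, 60] [] 100000 11112 11112 1450001 16667 0 83333 66667 16667 33333 33333)

lemma s21_21_7_5_22 {n : ℕ} (hn : 5 ≤ n) : NoNd (d21_21_7_5.R : ℤ) d21_21_7_5.H n d21_21_7_5.a d21_21_7_5.b
    (BlkD.inB (BlkD.upd (BlkD.upd (BlkD.upd (fun _ => 0) 0 4) 1 5) 2 3)
      (BlkD.upd (BlkD.upd (BlkD.upd (BlkD.upd (BlkD.upd (BlkD.upd (BlkD.upd (BlkD.upd (fun _ => 21) 0 7) 2 5) 0 5) 0 4) 1 17) 1 8) 1 6) 1 5)) :=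
  BlkD.tree_sound (BlkD.pairOk_sound k21_21_7_5) (by decide) hn t21_21_7_5_22 _ _ (by decide +kernel)

/-- certificates of the pair `(7, 5)`, part 23 -/
def t21_21_7_5_23 : BlkD.Tr :=
  .S 2 2 (.S 2 1 (.L 5 6 [4, 4, 5, 6, 21, 21] [135, 131, 124, 114, 104, 92] [] 100000 50000 50000
    1266668 33333 50000 66667 66667 0 0 33333) (.S 3 9 (.S 3 4 (.S 3 2 (.L 5 6 [4, 4, 5, 6, 21, 21]
    [135, 131, 124, 114, 104, 92] [] 100000 33333 33332 1340000 20000 20000 40000 40000 0 0 20000)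
    (.S 3 3 (.L 6 7 [4, 4, 4, 5, 21, 21] [135, 131, 124, 114, 104, 92] [54, 44, 32, 18, 0, 0]
    100000 33333 33332 1375000 25000 25000 50000 50000 0 0 25000) (.S 4 6 (.S 4 3 (.L 7 8 [5, 5, 3,
    4, 21, 21] [114, 104, 92, 78, 0, 0] [70, 64, 54, 42, 28, 0] 100000 28544 28544 1405989 28743
    28743 79042 50299 3593 7186 16168) (.L 7 8 [5, 5, 3, 4, 21, 21] [135, 131, 124, 114, 104, 92]
    [70, 64, 54, 42, 28, 0] 100000 36364 27273 1236363 18182 18182 109091 90909 0 0 0)) (.E 2))))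
    (.L 7 8 [5, 5, 3, 4, 21, 21] [135, 131, 124, 114, 104, 92] [] 100000 17949 17949 1438465 0
    46154 84615 84615 15385 15385 7692)) (.E 1))) (.S 2 4 (.S 2 3 (.S 3 8 (.S 3 4 (.S 3 2 (.L 7 8
    [5, 5, 3, 4, 21, 21] [135, 131, 124, 114, 104, 92] [] 100000 30107 30106 1406453 32258 16129
    67742 51613 3226 3226 17742) (.S 3 3 (.S 4 6 (.S 4 3 (.L 4 4 [4, 5, 7, 8, 21, 21] [114, 104,
    92, 78, 0, 0] [60, 50, 38, 24, 0, 0] 100000 29629 29628 1400003 28148 0 87407 59259 0 23704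
    29630) (.L 4 4 [4, 5, 7, 8, 21, 21] [135, 131, 124, 114, 104, 92] [60, 50, 38, 24, 0, 0] 100000
    33333 33332 1300000 0 0 100000 100000 0 0 0)) (.E 2)) (.L 6 7 [4, 4, 4, 5, 21, 21] [135, 131,
    124, 114, 104, 92] [78, 72, 62, 50, 36, 0] 100000 28759 28759 1405882 29412 0 88235 58824 11765
    41176 33333))) (.L 6 7 [4, 4, 4, 5, 21, 21] [135, 131, 124, 114, 104, 92] [] 100000 22222 22221
    1375001 8333 0 100000 100000 0 0 33333)) (.E 1)) (.L 6 7 [4, 4, 4, 5, 21, 21] [135, 131, 124,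
    114, 104, 92] [] 100000 19386 19386 1439007 24823 0 80851 55319 6383 31915 29078)) (.L 6 7 [4,
    4, 4, 5, 21, 21] [135, 131, 124, 114, 104, 92] [] 100000 11111 11110 1440000 20000 0 86667
    33333 20000 46667 26667))

lemma s21_21_7_5_23 {n : ℕ} (hn : 5 ≤ n) : NoNd (d21_21_7_5.R : ℤ) d21_21_7_5.H n d21_21_7_5.a d21_21_7_5.b
    (BlkD.inB (BlkD.upd (BlkD.upd (BlkD.upd (fun _ => 0) 0 4) 1 5) 1 6)
      (BlkD.upd (BlkD.upd (BlkD.upd (BlkD.upd (BlkD.upd (BlkD.upd (BlkD.upd (fun _ => 21) 0 7) 2 5) 0 5) 0 4) 1 17) 1 8) 1 6)) :=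
  BlkD.tree_sound (BlkD.pairOk_sound k21_21_7_5) (by decide) hn t21_21_7_5_23 _ _ (by decide +kernel)

/-- certificates of the pair `(7, 5)`, part 24 -/
def t21_21_7_5_24 : BlkD.Tr :=
  .S 1 7 (.L 6 7 [4, 4, 4, 5, 21, 21] [156, 155, 151, 144, 134, 124] [] 100000 28711 28711 1410222
    37226 0 78102 59124 5109 3650 20438) (.L 6 7 [4, 4, 4, 5, 21, 21] [179, 178, 177, 173, 166,
    156] [] 100000 33333 33332 1320000 40000 0 100000 60000 0 0 20000)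

lemma s21_21_7_5_24 {n : ℕ} (hn : 5 ≤ n) : NoNd (d21_21_7_5.R : ℤ) d21_21_7_5.H n d21_21_7_5.a d21_21_7_5.b
    (BlkD.inB (BlkD.upd (BlkD.upd (BlkD.upd (fun _ => 0) 0 4) 1 5) 1 7)
      (BlkD.upd (BlkD.upd (BlkD.upd (BlkD.upd (BlkD.upd (BlkD.upd (fun _ => 21) 0 7) 2 5) 0 5) 0 4) 1 17) 1 8)) :=
  BlkD.tree_sound (BlkD.pairOk_sound k21_21_7_5) (by decide) hn t21_21_7_5_24 _ _ (by decide +kernel)

/-- certificates of the pair `(7, 5)`, part 25 -/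
def t21_21_7_5_25 : BlkD.Tr :=
  .E 0

lemma s21_21_7_5_25 {n : ℕ} (hn : 5 ≤ n) : NoNd (d21_21_7_5.R : ℤ) d21_21_7_5.H n d21_21_7_5.a d21_21_7_5.b
    (BlkD.inB (BlkD.upd (BlkD.upd (fun _ => 0) 0 4) 1 9)
      (BlkD.upd (BlkD.upd (BlkD.upd (BlkD.upd (BlkD.upd (fun _ => 21) 0 7) 2 5) 0 5) 0 4) 1 17)) :=
  BlkD.tree_sound (BlkD.pairOk_sound k21_21_7_5) (by decide) hn t21_21_7_5_25 _ _ (by decide +kernel)

/-- certificates of the pair `(7, 5)`, part 26 -/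
def t21_21_7_5_26 : BlkD.Tr :=
  .E 0

lemma s21_21_7_5_26 {n : ℕ} (hn : 5 ≤ n) : NoNd (d21_21_7_5.R : ℤ) d21_21_7_5.H n d21_21_7_5.a d21_21_7_5.b
    (BlkD.inB (BlkD.upd (BlkD.upd (fun _ => 0) 0 4) 1 18)
      (BlkD.upd (BlkD.upd (BlkD.upd (BlkD.upd (fun _ => 21) 0 7) 2 5) 0 5) 0 4)) :=
  BlkD.tree_sound (BlkD.pairOk_sound k21_21_7_5) (by decide) hn t21_21_7_5_26 _ _ (by decide +kernel)

/-- certificates of the pair `(7, 5)`, part 27 -/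
def t21_21_7_5_27 : BlkD.Tr :=
  .L 6 7 [4, 4, 4, 5, 21, 21] [] [] 100000 27273 27273 1409093 38636 4545 43182 43182 0 18182 18182

lemma s21_21_7_5_27 {n : ℕ} (hn : 5 ≤ n) : NoNd (d21_21_7_5.R : ℤ) d21_21_7_5.H n d21_21_7_5.a d21_21_7_5.b
    (BlkD.inB (BlkD.upd (BlkD.upd (fun _ => 0) 0 4) 0 5)
      (BlkD.upd (BlkD.upd (BlkD.upd (BlkD.upd (BlkD.upd (BlkD.upd (BlkD.upd (fun _ => 21) 0 7) 2 5) 0 5) 1 16) 1 8) 1 4) 1 2)) :=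
  BlkD.tree_sound (BlkD.pairOk_sound k21_21_7_5) (by decide) hn t21_21_7_5_27 _ _ (by decide +kernel)

/-- certificates of the pair `(7, 5)`, part 28 -/
def t21_21_7_5_28 : BlkD.Tr :=
  .S 2 2 (.S 2 1 (.L 6 7 [4, 4, 4, 5, 21, 21] [72, 62, 50, 36, 0, 0] [] 100000 33333 33332 1300000
    12500 62500 75000 75000 0 0 0) (.S 3 11 (.S 3 5 (.S 3 2 (.L 6 7 [4, 4, 4, 5, 21, 21] [72, 62,
    50, 36, 0, 0] [] 100000 33333 33332 1200000 0 0 0 0 0 0 0) (.S 3 4 (.L 6 7 [4, 4, 4, 5, 21, 21]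
    [72, 62, 50, 36, 0, 0] [] 100000 33333 33332 1360000 20000 20000 40000 40000 0 0 0) (.L 6 6 [4,
    4, 5, 6, 21, 21] [72, 62, 50, 36, 0, 0] [86, 82, 76, 66, 54, 40] 100000 24390 24389 1424391
    4878 36585 78049 73171 7317 12195 26829))) (.L 6 6 [4, 4, 5, 6, 21, 21] [72, 62, 50, 36, 0, 0]
    [] 100000 38889 38889 1350000 0 50000 50000 100000 0 0 16667)) (.E 1))) (.S 2 4 (.S 2 3 (.S 3
    10 (.S 3 5 (.S 3 2 (.L 6 6 [4, 4, 5, 6, 21, 21] [72, 62, 50, 36, 0, 0] [] 100000 33333 33332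
    1300000 0 0 0 0 0 0 0) (.S 3 4 (.S 3 3 (.L 6 6 [4, 4, 5, 6, 21, 21] [72, 62, 50, 36, 0, 0] [60,
    50, 38, 24, 0, 0] 100000 30107 30106 1390324 16129 16129 35484 32258 3226 3226 8065) (.L 6 7
    [4, 4, 4, 5, 21, 21] [72, 62, 50, 36, 0, 0] [78, 72, 62, 50, 36, 0] 100000 15114 15114 1437889
    26087 4969 85093 59006 6832 40994 40994)) (.L 6 7 [4, 4, 4, 5, 21, 21] [72, 62, 50, 36, 0, 0]
    [96, 92, 86, 76, 64, 50] 100000 23810 23810 1414288 28571 0 100000 100000 14286 14286 28571)))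
    (.E 1)) (.E 1)) (.L 6 7 [4, 4, 4, 5, 21, 21] [72, 62, 50, 36, 0, 0] [] 100000 18352 18352
    1437079 30337 2247 86517 38202 5618 33708 33708)) (.L 6 7 [4, 4, 4, 5, 21, 21] [72, 62, 50, 36,
    0, 0] [] 100000 10000 10000 1410000 30000 0 80000 10000 10000 50000 50000))

lemma s21_21_7_5_28 {n : ℕ} (hn : 5 ≤ n) : NoNd (d21_21_7_5.R : ℤ) d21_21_7_5.H n d21_21_7_5.a d21_21_7_5.b
    (BlkD.inB (BlkD.upd (BlkD.upd (BlkD.upd (fun _ => 0) 0 4) 0 5) 1 3)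
      (BlkD.upd (BlkD.upd (BlkD.upd (BlkD.upd (BlkD.upd (BlkD.upd (BlkD.upd (fun _ => 21) 0 7) 2 5) 0 5) 1 16) 1 8) 1 4) 1 3)) :=
  BlkD.tree_sound (BlkD.pairOk_sound k21_21_7_5) (by decide) hn t21_21_7_5_28 _ _ (by decide +kernel)

/-- certificates of the pair `(7, 5)`, part 29 -/
def t21_21_7_5_29 : BlkD.Tr :=
  .S 2 2 (.S 2 1 (.L 6 7 [4, 4, 4, 5, 21, 21] [98, 88, 78, 66, 52, 0] [] 100000 33333 33332 1295653
    17391 60870 69565 69565 0 0 15217) (.S 3 10 (.S 3 5 (.S 3 2 (.L 6 7 [4, 4, 4, 5, 21, 21] [98,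
    88, 78, 66, 52, 0] [] 100000 33333 33332 1300000 0 0 0 0 0 0 0) (.S 3 4 (.L 6 7 [4, 4, 4, 5,
    21, 21] [98, 88, 78, 66, 52, 0] [] 100000 29215 29215 1405618 23596 23596 54494 50562 4494 3371
    23034) (.L 7 8 [5, 5, 3, 4, 21, 21] [98, 88, 78, 66, 52, 0] [86, 82, 76, 66, 54, 40] 100000
    26720 26720 1407145 1587 50000 89683 89683 7937 7937 3968))) (.L 7 8 [5, 5, 3, 4, 21, 21] [98,
    88, 78, 66, 52, 0] [] 100000 33333 33332 1325000 18750 18750 100000 100000 0 0 6250)) (.E 1)))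
    (.S 2 4 (.S 2 3 (.S 3 9 (.S 3 4 (.S 3 2 (.L 7 8 [5, 5, 3, 4, 21, 21] [98, 88, 78, 66, 52, 0] []
    100000 27555 27554 1410669 29333 29333 46667 49333 6667 4000 17333) (.S 3 3 (.S 4 4 (.S 4 2 (.S
    4 1 (.L 7 8 [5, 5, 3, 4, 21, 21] [66, 52, 0, 0, 0, 0] [60, 50, 38, 24, 0, 0] 100000 1 1 1463637
    18182 18182 72727 54545 36364 36364 27273) (.L 7 8 [5, 5, 3, 4, 21, 21] [78, 66, 52, 0, 0, 0]
    [60, 50, 38, 24, 0, 0] 100000 28572 28572 1371430 21429 14286 100000 78571 0 14286 14286)) (.L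
    7 8 [5, 5, 3, 4, 21, 21] [98, 88, 78, 66, 52, 0] [60, 50, 38, 24, 0, 0] 100000 33333 33332
    1300000 0 0 100000 100000 0 0 0)) (.E 2)) (.L 6 7 [4, 4, 4, 5, 21, 21] [98, 88, 78, 66, 52, 0]
    [78, 72, 62, 50, 36, 0] 100000 19444 19443 1430556 25000 0 94444 69444 11111 25000 25000))) (.L
    6 7 [4, 4, 4, 5, 21, 21] [98, 88, 78, 66, 52, 0] [] 100000 33333 33332 1350000 25000 0 100000
    100000 0 0 25000)) (.E 1)) (.L 6 7 [4, 4, 4, 5, 21, 21] [98, 88, 78, 66, 52, 0] [] 100000 15942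
    15942 1447828 26087 0 78261 52174 8696 34783 34783)) (.L 6 7 [4, 4, 4, 5, 21, 21] [98, 88, 78,
    66, 52, 0] [] 100000 7408 7408 1450000 16667 0 86111 33333 13889 50000 50000))

lemma s21_21_7_5_29 {n : ℕ} (hn : 5 ≤ n) : NoNd (d21_21_7_5.R : ℤ) d21_21_7_5.H n d21_21_7_5.a d21_21_7_5.b
    (BlkD.inB (BlkD.upd (BlkD.upd (BlkD.upd (BlkD.upd (fun _ => 0) 0 4) 0 5) 1 3) 1 4)
      (BlkD.upd (BlkD.upd (BlkD.upd (BlkD.upd (BlkD.upd (BlkD.upd (fun _ => 21) 0 7) 2 5) 0 5) 1 16) 1 8) 1 4)) :=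
  BlkD.tree_sound (BlkD.pairOk_sound k21_21_7_5) (by decide) hn t21_21_7_5_29 _ _ (by decide +kernel)

/-- certificates of the pair `(7, 5)`, part 30 -/
def t21_21_7_5_30 : BlkD.Tr :=
  .S 1 6 (.S 1 5 (.S 2 2 (.S 2 1 (.L 6 7 [4, 4, 4, 5, 21, 21] [123, 116, 106, 96, 84, 70] [] 100000
    33333 33332 1287500 18750 62500 75000 68750 0 0 18750) (.S 3 9 (.S 3 4 (.S 3 2 (.L 6 7 [4, 4,
    4, 5, 21, 21] [123, 116, 106, 96, 84, 70] [] 100000 29412 29412 1358824 23529 23529 70588 41176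
    5882 0 23529) (.S 3 3 (.L 6 7 [4, 4, 4, 5, 21, 21] [123, 116, 106, 96, 84, 70] [54, 44, 32, 18,
    0, 0] 100000 27273 27273 1409092 22727 22727 68182 45455 9091 0 22727) (.S 4 5 (.S 4 2 (.L 6 7
    [4, 4, 4, 5, 21, 21] [96, 84, 70, 0, 0, 0] [70, 64, 54, 42, 28, 0] 100000 1 1 1485246 22951
    11475 52459 40984 42623 36066 21311) (.L 6 7 [4, 4, 4, 5, 21, 21] [123, 116, 106, 96, 84, 70]
    [70, 64, 54, 42, 28, 0] 100000 29630 29630 1360494 8642 22222 100000 77778 0 11111 29630)) (.E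
    2)))) (.L 6 7 [4, 4, 4, 5, 21, 21] [123, 116, 106, 96, 84, 70] [] 100000 33333 33332 1333334 0
    33333 100000 100000 0 0 33333)) (.E 1))) (.S 2 4 (.S 2 3 (.S 3 8 (.S 3 4 (.S 3 2 (.S 3 1 (.L 6
    7 [4, 4, 4, 5, 21, 21] [123, 116, 106, 96, 84, 70] [] 100000 24638 24638 1378261 21739 21739
    86957 34783 13043 0 13043) (.L 7 8 [5, 5, 3, 4, 21, 21] [123, 116, 106, 96, 84, 70] [40, 28,
    14, 0, 0, 0] 100000 29048 29047 1412144 29286 29286 61429 35714 6429 0 17857)) (.S 3 3 (.S 4 5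
    (.S 4 2 (.L 7 8 [5, 5, 3, 4, 21, 21] [96, 84, 70, 0, 0, 0] [60, 50, 38, 24, 0, 0] 100000 1 1
    1454546 18182 18182 63636 72727 36364 36364 27273) (.L 7 8 [5, 5, 3, 4, 21, 21] [123, 116, 106,
    96, 84, 70] [60, 50, 38, 24, 0, 0] 100000 31481 31480 1355556 22222 11111 100000 55556 0 11111
    5556)) (.E 2)) (.L 7 8 [5, 5, 3, 4, 21, 21] [123, 116, 106, 96, 84, 70] [78, 72, 62, 50, 36, 0]
    100000 29167 29167 1325000 25000 0 100000 100000 12500 0 12500))) (.L 7 8 [5, 5, 3, 4, 21, 21]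
    [123, 116, 106, 96, 84, 70] [] 100000 125000 0 0 0 0 225000 225000 0 0 0)) (.E 1)) (.L 6 7 [4,
    4, 4, 5, 21, 21] [123, 116, 106, 96, 84, 70] [] 100000 12333 12332 1446000 27000 0 78000 46000
    14000 35000 35000)) (.L 6 7 [4, 4, 4, 5, 21, 21] [123, 116, 106, 96, 84, 70] [] 100000 1 1
    1461290 19355 0 70968 0 25806 48387 48387))) (.S 2 2 (.L 6 7 [4, 4, 4, 5, 21, 21] [147, 143,
    136, 126, 116, 104] [] 100000 22881 22880 1420340 16949 16949 94915 55085 15254 11017 22034)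
    (.L 6 7 [4, 4, 4, 5, 21, 21] [147, 143, 136, 126, 116, 104] [] 100000 24748 24748 1418184 27273
    0 100000 34848 18182 7576 18182))) (.L 6 7 [4, 4, 4, 5, 21, 21] [] [] 100000 34287 1 1194285
    2857 4286 134286 91429 0 714 30714)

lemma s21_21_7_5_30 {n : ℕ} (hn : 5 ≤ n) : NoNd (d21_21_7_5.R : ℤ) d21_21_7_5.H n d21_21_7_5.a d21_21_7_5.b
    (BlkD.inB (BlkD.upd (BlkD.upd (BlkD.upd (fun _ => 0) 0 4) 0 5) 1 5)
      (BlkD.upd (BlkD.upd (BlkD.upd (BlkD.upd (BlkD.upd (fun _ => 21) 0 7) 2 5) 0 5) 1 16) 1 8)) :=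
  BlkD.tree_sound (BlkD.pairOk_sound k21_21_7_5) (by decide) hn t21_21_7_5_30 _ _ (by decide +kernel)

/-- certificates of the pair `(7, 5)`, part 31 -/
def t21_21_7_5_31 : BlkD.Tr :=
  .E 0

lemma s21_21_7_5_31 {n : ℕ} (hn : 5 ≤ n) : NoNd (d21_21_7_5.R : ℤ) d21_21_7_5.H n d21_21_7_5.a d21_21_7_5.b
    (BlkD.inB (BlkD.upd (BlkD.upd (BlkD.upd (fun _ => 0) 0 4) 0 5) 1 9)
      (BlkD.upd (BlkD.upd (BlkD.upd (BlkD.upd (fun _ => 21) 0 7) 2 5) 0 5) 1 16)) :=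
  BlkD.tree_sound (BlkD.pairOk_sound k21_21_7_5) (by decide) hn t21_21_7_5_31 _ _ (by decide +kernel)

/-- certificates of the pair `(7, 5)`, part 32 -/
def t21_21_7_5_32 : BlkD.Tr :=
  .E 0

lemma s21_21_7_5_32 {n : ℕ} (hn : 5 ≤ n) : NoNd (d21_21_7_5.R : ℤ) d21_21_7_5.H n d21_21_7_5.a d21_21_7_5.b
    (BlkD.inB (BlkD.upd (BlkD.upd (BlkD.upd (fun _ => 0) 0 4) 0 5) 1 17)
      (BlkD.upd (BlkD.upd (BlkD.upd (fun _ => 21) 0 7) 2 5) 0 5)) :=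
  BlkD.tree_sound (BlkD.pairOk_sound k21_21_7_5) (by decide) hn t21_21_7_5_32 _ _ (by decide +kernel)

/-- certificates of the pair `(7, 5)`, part 33 -/
def t21_21_7_5_33 : BlkD.Tr :=
  .S 0 6 (.S 1 15 (.S 1 7 (.S 1 3 (.S 1 1 (.L 6 7 [4, 4, 4, 5, 21, 21] [] [] 100000 23869 23868
    1407407 7407 18519 74074 74074 7407 13580 13580) (.S 1 2 (.S 2 2 (.L 6 7 [4, 4, 4, 5, 21, 21]
    [52, 40, 26, 0, 0, 0] [] 100000 23148 23148 1400002 18519 31481 75000 83333 13889 2778 13889)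
    (.L 6 7 [4, 4, 4, 5, 21, 21] [52, 40, 26, 0, 0, 0] [] 100000 16667 16667 1416669 41667 0 83333
    83333 16667 16667 16667)) (.S 2 2 (.L 6 7 [4, 4, 4, 5, 21, 21] [78, 68, 56, 42, 0, 0] [] 100000
    24445 24445 1400000 6667 43333 66667 80000 13333 0 20000) (.S 2 4 (.S 2 3 (.L 6 7 [4, 4, 4, 5,
    21, 21] [78, 68, 56, 42, 0, 0] [] 100000 20238 20238 1425898 893 24702 75000 97321 18304 2679
    30804) (.L 6 7 [4, 4, 4, 5, 21, 21] [78, 68, 56, 42, 0, 0] [] 100000 7408 7408 1444446 27778 0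
    83333 55556 16667 44444 44444)) (.L 6 7 [4, 4, 4, 5, 21, 21] [78, 68, 56, 42, 0, 0] [] 100000 1
    1 1428571 23810 0 71429 71429 42857 28571 28571))))) (.S 1 5 (.S 1 4 (.S 2 2 (.L 6 7 [4, 4, 4,
    5, 21, 21] [106, 96, 86, 74, 60, 0] [] 100000 15385 15385 1446154 0 38462 76923 61538 23077
    7692 23077) (.L 6 7 [4, 4, 4, 5, 21, 21] [106, 96, 86, 74, 60, 0] [] 100000 14966 14965 1448980
    25510 0 76531 50000 23469 8163 23469)) (.L 6 7 [4, 4, 4, 5, 21, 21] [133, 126, 116, 106, 94,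
    80] [] 100000 11111 11111 1400002 0 0 100000 83333 50000 16667 50000)) (.E 0))) (.E 0)) (.E 0))
    (.L 6 7 [4, 4, 4, 5, 21, 21] [] [] 100000 0 0 1448150 0 12963 51852 57407 55556 16667 27778)

lemma s21_21_7_5_33 {n : ℕ} (hn : 5 ≤ n) : NoNd (d21_21_7_5.R : ℤ) d21_21_7_5.H n d21_21_7_5.a d21_21_7_5.b
    (BlkD.inB (BlkD.upd (BlkD.upd (fun _ => 0) 0 4) 0 6)
      (BlkD.upd (BlkD.upd (fun _ => 21) 0 7) 2 5)) :=
  BlkD.tree_sound (BlkD.pairOk_sound k21_21_7_5) (by decide) hn t21_21_7_5_33 _ _ (by decide +kernel)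

/-- certificates of the pair `(7, 5)`, part 34 -/
def t21_21_7_5_34 : BlkD.Tr :=
  .E 1

lemma s21_21_7_5_34 {n : ℕ} (hn : 5 ≤ n) : NoNd (d21_21_7_5.R : ℤ) d21_21_7_5.H n d21_21_7_5.a d21_21_7_5.b
    (BlkD.inB (BlkD.upd (fun _ => 0) 2 6)
      (BlkD.upd (fun _ => 21) 0 7)) :=
  BlkD.tree_sound (BlkD.pairOk_sound k21_21_7_5) (by decide) hn t21_21_7_5_34 _ _ (by decide +kernel)

/-- certificates of the pair `(7, 5)`, part 35 -/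
def t21_21_7_5_35 : BlkD.Tr :=
  .E 0

lemma s21_21_7_5_35 {n : ℕ} (hn : 5 ≤ n) : NoNd (d21_21_7_5.R : ℤ) d21_21_7_5.H n d21_21_7_5.a d21_21_7_5.b
    (BlkD.inB (BlkD.upd (fun _ => 0) 0 8)
      (fun _ => 21)) :=
  BlkD.tree_sound (BlkD.pairOk_sound k21_21_7_5) (by decide) hn t21_21_7_5_35 _ _ (by decide +kernel)

lemma pr21_21_7_5 {n : ℕ} (hn : 5 ≤ n) : NoPr ((21 : ℕ) : ℤ) ((21 : ℕ) : ℤ) n 7 5 :=
  BlkD.of_root (R := d21_21_7_5.R) (H := d21_21_7_5.H) (a := d21_21_7_5.a) (b := d21_21_7_5.b) (q := 3) (by decide) hn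
    (BlkD.sp 0 7 (BlkD.sp 2 5 (BlkD.sp 0 3 (BlkD.sp 0 1 (BlkD.sp 0 0 (s21_21_7_5_1 hn) (BlkD.sp 1
      10 (BlkD.sp 1 5 (s21_21_7_5_2 hn) (BlkD.sp 1 8 (s21_21_7_5_3 hn) (s21_21_7_5_4 hn)))
      (s21_21_7_5_5 hn))) (BlkD.sp 0 2 (BlkD.sp 1 19 (BlkD.sp 1 9 (BlkD.sp 1 4 (s21_21_7_5_6 hn)
      (BlkD.sp 1 7 (BlkD.sp 1 6 (s21_21_7_5_7 hn) (s21_21_7_5_8 hn)) (s21_21_7_5_9 hn)))
      (s21_21_7_5_10 hn)) (s21_21_7_5_11 hn)) (BlkD.sp 1 18 (BlkD.sp 1 9 (BlkD.sp 1 4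
      (s21_21_7_5_12 hn) (BlkD.sp 1 7 (BlkD.sp 1 6 (BlkD.sp 1 5 (s21_21_7_5_13 hn) (s21_21_7_5_14
      hn)) (BlkD.sp 2 2 (s21_21_7_5_15 hn) (s21_21_7_5_16 hn))) (s21_21_7_5_17 hn))) (s21_21_7_5_18
      hn)) (s21_21_7_5_19 hn)))) (BlkD.sp 0 5 (BlkD.sp 0 4 (BlkD.sp 1 17 (BlkD.sp 1 8 (BlkD.sp 1 4
      (s21_21_7_5_20 hn) (BlkD.sp 1 6 (BlkD.sp 1 5 (BlkD.sp 2 2 (s21_21_7_5_21 hn) (s21_21_7_5_22
      hn)) (s21_21_7_5_23 hn)) (s21_21_7_5_24 hn))) (s21_21_7_5_25 hn)) (s21_21_7_5_26 hn))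
      (BlkD.sp 1 16 (BlkD.sp 1 8 (BlkD.sp 1 4 (BlkD.sp 1 2 (s21_21_7_5_27 hn) (BlkD.sp 1 3
      (s21_21_7_5_28 hn) (s21_21_7_5_29 hn))) (s21_21_7_5_30 hn)) (s21_21_7_5_31 hn))
      (s21_21_7_5_32 hn))) (s21_21_7_5_33 hn))) (s21_21_7_5_34 hn)) (s21_21_7_5_35 hn))

end BlkC

end Pool.Agent.Lib.MP_f04ccf_co
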