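import Pool.Agent.Lib.MP_f04ccf_co.M.BlkT

/-!
MP_f04ccf_co, block certificate, data `R = 21`, `H = 21`, part 7 (generated, helper99:
bd10.cpp, gen2.py).
-/

set_option autoImplicit false
set_option maxRecDepth 100000

namespace Pool.Agent.Lib.MP_f04ccf_co

namespace BlkC

/-- the numbers of the pair `(7, 6)`, `R = 21`, `H = 21` -/
def d21_21_7_6 : BlkD.Pd :=
  ⟨21, 21, 3, 7, 6, 5, 2, 3, 2, 2, 8, 0, 2, 2, 8, 0, [0, 8, 14, 16, 18, 20], [0, 8, 14, 16, 18,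
    20], [⟨1, 1, 1, 4, 8, [0, 4], [0, 4]⟩, ⟨1, 1, 1, 4, 12, [0, 6], [0, 6]⟩, ⟨1, 1, 1, 4, 16, [0,
    8], [0, 8]⟩]⟩

lemma k21_21_7_6 : BlkD.pairOk d21_21_7_6 = true := by decide +kernel

/-- certificates of the pair `(7, 6)`, part 1 -/
def t21_21_7_6_1 : BlkD.Tr :=
  .L 5 5 [4, 4, 5, 21, 21, 21, 21] [] [] 100000 78573 78573 1238095 71429 19048 80952 61905 0 0 0

lemma s21_21_7_6_1 {n : ℕ} (hn : 5 ≤ n) : NoNd (d21_21_7_6.R : ℤ) d21_21_7_6.H n d21_21_7_6.a d21_21_7_6.b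
    (BlkD.inB (fun _ => 0)
      (BlkD.upd (BlkD.upd (BlkD.upd (BlkD.upd (BlkD.upd (fun _ => 21) 0 7) 2 6) 0 3) 0 1) 0 0)) :=
  BlkD.tree_sound (BlkD.pairOk_sound k21_21_7_6) (by decide) hn t21_21_7_6_1 _ _ (by decide +kernel)

/-- certificates of the pair `(7, 6)`, part 2 -/
def t21_21_7_6_2 : BlkD.Tr :=
  .S 1 2 (.L 5 5 [4, 4, 5, 21, 21, 21, 21] [] [] 100000 78573 78573 1238095 71429 19048 80952 61905
    0 0 0) (.L 5 5 [4, 4, 5, 21, 21, 21, 21] [] [] 100000 78573 78573 1238095 71429 19048 80952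
    61905 0 0 0)

lemma s21_21_7_6_2 {n : ℕ} (hn : 5 ≤ n) : NoNd (d21_21_7_6.R : ℤ) d21_21_7_6.H n d21_21_7_6.a d21_21_7_6.b
    (BlkD.inB (BlkD.upd (fun _ => 0) 0 1)
      (BlkD.upd (BlkD.upd (BlkD.upd (BlkD.upd (BlkD.upd (BlkD.upd (fun _ => 21) 0 7) 2 6) 0 3) 0 1) 1 10) 1 5)) :=
  BlkD.tree_sound (BlkD.pairOk_sound k21_21_7_6) (by decide) hn t21_21_7_6_2 _ _ (by decide +kernel)

/-- certificates of the pair `(7, 6)`, part 3 -/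
def t21_21_7_6_3 : BlkD.Tr :=
  .S 1 7 (.L 5 5 [4, 4, 5, 21, 21, 21, 21] [] [] 100000 78573 78573 1238095 71429 19048 80952 61905
    0 0 0) (.L 5 5 [4, 4, 5, 21, 21, 21, 21] [134, 132, 130, 128, 122, 114] [] 100000 78573 78573
    1238095 71429 19048 80952 61905 0 0 0)

lemma s21_21_7_6_3 {n : ℕ} (hn : 5 ≤ n) : NoNd (d21_21_7_6.R : ℤ) d21_21_7_6.H n d21_21_7_6.a d21_21_7_6.b
    (BlkD.inB (BlkD.upd (BlkD.upd (fun _ => 0) 0 1) 1 6)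
      (BlkD.upd (BlkD.upd (BlkD.upd (BlkD.upd (BlkD.upd (BlkD.upd (fun _ => 21) 0 7) 2 6) 0 3) 0 1) 1 10) 1 8)) :=
  BlkD.tree_sound (BlkD.pairOk_sound k21_21_7_6) (by decide) hn t21_21_7_6_3 _ _ (by decide +kernel)

/-- certificates of the pair `(7, 6)`, part 4 -/
def t21_21_7_6_4 : BlkD.Tr :=
  .L 5 5 [4, 4, 5, 21, 21, 21, 21] [] [] 100000 78573 78573 1238095 71429 19048 80952 61905 0 0 0

lemma s21_21_7_6_4 {n : ℕ} (hn : 5 ≤ n) : NoNd (d21_21_7_6.R : ℤ) d21_21_7_6.H n d21_21_7_6.a d21_21_7_6.b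
    (BlkD.inB (BlkD.upd (BlkD.upd (BlkD.upd (fun _ => 0) 0 1) 1 6) 1 9)
      (BlkD.upd (BlkD.upd (BlkD.upd (BlkD.upd (BlkD.upd (fun _ => 21) 0 7) 2 6) 0 3) 0 1) 1 10)) :=
  BlkD.tree_sound (BlkD.pairOk_sound k21_21_7_6) (by decide) hn t21_21_7_6_4 _ _ (by decide +kernel)

/-- certificates of the pair `(7, 6)`, part 5 -/
def t21_21_7_6_5 : BlkD.Tr :=
  .L 5 5 [4, 4, 5, 21, 21, 21, 21] [] [] 100000 78573 78573 1238095 71429 19048 80952 61905 0 0 0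

lemma s21_21_7_6_5 {n : ℕ} (hn : 5 ≤ n) : NoNd (d21_21_7_6.R : ℤ) d21_21_7_6.H n d21_21_7_6.a d21_21_7_6.b
    (BlkD.inB (BlkD.upd (BlkD.upd (fun _ => 0) 0 1) 1 11)
      (BlkD.upd (BlkD.upd (BlkD.upd (BlkD.upd (fun _ => 21) 0 7) 2 6) 0 3) 0 1)) :=
  BlkD.tree_sound (BlkD.pairOk_sound k21_21_7_6) (by decide) hn t21_21_7_6_5 _ _ (by decide +kernel)

/-- certificates of the pair `(7, 6)`, part 6 -/
def t21_21_7_6_6 : BlkD.Tr :=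
  .L 6 7 [4, 4, 4, 21, 21, 21, 21] [] [] 100000 40908 40908 1490912 54545 0 72727 63636 0 9091 9091

lemma s21_21_7_6_6 {n : ℕ} (hn : 5 ≤ n) : NoNd (d21_21_7_6.R : ℤ) d21_21_7_6.H n d21_21_7_6.a d21_21_7_6.b
    (BlkD.inB (BlkD.upd (fun _ => 0) 0 2)
      (BlkD.upd (BlkD.upd (BlkD.upd (BlkD.upd (BlkD.upd (BlkD.upd (fun _ => 21) 0 7) 2 6) 0 3) 0 2) 1 10) 1 5)) :=
  BlkD.tree_sound (BlkD.pairOk_sound k21_21_7_6) (by decide) hn t21_21_7_6_6 _ _ (by decide +kernel)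

/-- certificates of the pair `(7, 6)`, part 7 -/
def t21_21_7_6_7 : BlkD.Tr :=
  .L 6 7 [4, 4, 4, 21, 21, 21, 21] [] [] 100000 40908 40908 1490912 54545 0 72727 63636 0 9091 9091

lemma s21_21_7_6_7 {n : ℕ} (hn : 5 ≤ n) : NoNd (d21_21_7_6.R : ℤ) d21_21_7_6.H n d21_21_7_6.a d21_21_7_6.b
    (BlkD.inB (BlkD.upd (BlkD.upd (fun _ => 0) 0 2) 1 6)
      (BlkD.upd (BlkD.upd (BlkD.upd (BlkD.upd (BlkD.upd (BlkD.upd (BlkD.upd (fun _ => 21) 0 7) 2 6) 0 3) 0 2) 1 10) 1 8) 1 7)) :=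
  BlkD.tree_sound (BlkD.pairOk_sound k21_21_7_6) (by decide) hn t21_21_7_6_7 _ _ (by decide +kernel)

/-- certificates of the pair `(7, 6)`, part 8 -/
def t21_21_7_6_8 : BlkD.Tr :=
  .L 6 7 [4, 4, 4, 21, 21, 21, 21] [150, 148, 146, 144, 138, 130] [] 100000 40908 40908 1490912
    54545 0 72727 63636 0 9091 9091

lemma s21_21_7_6_8 {n : ℕ} (hn : 5 ≤ n) : NoNd (d21_21_7_6.R : ℤ) d21_21_7_6.H n d21_21_7_6.a d21_21_7_6.b
    (BlkD.inB (BlkD.upd (BlkD.upd (BlkD.upd (fun _ => 0) 0 2) 1 6) 1 8)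
      (BlkD.upd (BlkD.upd (BlkD.upd (BlkD.upd (BlkD.upd (BlkD.upd (fun _ => 21) 0 7) 2 6) 0 3) 0 2) 1 10) 1 8)) :=
  BlkD.tree_sound (BlkD.pairOk_sound k21_21_7_6) (by decide) hn t21_21_7_6_8 _ _ (by decide +kernel)

/-- certificates of the pair `(7, 6)`, part 9 -/
def t21_21_7_6_9 : BlkD.Tr :=
  .L 6 7 [4, 4, 4, 21, 21, 21, 21] [] [] 100000 40908 40908 1490912 54545 0 72727 63636 0 9091 9091

lemma s21_21_7_6_9 {n : ℕ} (hn : 5 ≤ n) : NoNd (d21_21_7_6.R : ℤ) d21_21_7_6.H n d21_21_7_6.a d21_21_7_6.b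
    (BlkD.inB (BlkD.upd (BlkD.upd (BlkD.upd (fun _ => 0) 0 2) 1 6) 1 9)
      (BlkD.upd (BlkD.upd (BlkD.upd (BlkD.upd (BlkD.upd (fun _ => 21) 0 7) 2 6) 0 3) 0 2) 1 10)) :=
  BlkD.tree_sound (BlkD.pairOk_sound k21_21_7_6) (by decide) hn t21_21_7_6_9 _ _ (by decide +kernel)

/-- certificates of the pair `(7, 6)`, part 10 -/
def t21_21_7_6_10 : BlkD.Tr :=
  .L 6 7 [4, 4, 4, 21, 21, 21, 21] [] [] 100000 40908 40908 1490912 54545 0 72727 63636 0 9091 9091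

lemma s21_21_7_6_10 {n : ℕ} (hn : 5 ≤ n) : NoNd (d21_21_7_6.R : ℤ) d21_21_7_6.H n d21_21_7_6.a d21_21_7_6.b
    (BlkD.inB (BlkD.upd (BlkD.upd (fun _ => 0) 0 2) 1 11)
      (BlkD.upd (BlkD.upd (BlkD.upd (BlkD.upd (fun _ => 21) 0 7) 2 6) 0 3) 0 2)) :=
  BlkD.tree_sound (BlkD.pairOk_sound k21_21_7_6) (by decide) hn t21_21_7_6_10 _ _ (by decide +kernel)

/-- certificates of the pair `(7, 6)`, part 11 -/
def t21_21_7_6_11 : BlkD.Tr :=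
  .L 6 7 [4, 4, 4, 21, 21, 21, 21] [] [] 100000 1 1 1558333 22917 12500 37500 33333 0 0 22917

lemma s21_21_7_6_11 {n : ℕ} (hn : 5 ≤ n) : NoNd (d21_21_7_6.R : ℤ) d21_21_7_6.H n d21_21_7_6.a d21_21_7_6.b
    (BlkD.inB (BlkD.upd (BlkD.upd (fun _ => 0) 0 2) 0 3)
      (BlkD.upd (BlkD.upd (BlkD.upd (BlkD.upd (BlkD.upd (BlkD.upd (fun _ => 21) 0 7) 2 6) 0 3) 1 18) 1 9) 1 4)) :=
  BlkD.tree_sound (BlkD.pairOk_sound k21_21_7_6) (by decide) hn t21_21_7_6_11 _ _ (by decide +kernel)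

/-- certificates of the pair `(7, 6)`, part 12 -/
def t21_21_7_6_12 : BlkD.Tr :=
  .S 1 5 (.S 2 3 (.L 6 7 [4, 4, 4, 21, 21, 21, 21] [106, 100, 92, 80, 64, 50] [] 100000 17857 17857
    1478573 35714 25000 57143 53571 0 3571 3571) (.L 6 7 [4, 4, 4, 21, 21, 21, 21] [106, 100, 92,
    80, 64, 50] [] 100000 0 0 1566668 33333 0 50000 33333 0 12500 20833)) (.S 2 3 (.L 6 7 [4, 4, 4,
    21, 21, 21, 21] [124, 122, 116, 108, 96, 80] [] 100000 13381 13381 1535210 30986 23944 45070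
    54930 0 4225 0) (.L 6 7 [4, 4, 4, 21, 21, 21, 21] [124, 122, 116, 108, 96, 80] [] 100000 0 0
    1585717 28571 0 71429 57143 0 14286 28571))

lemma s21_21_7_6_12 {n : ℕ} (hn : 5 ≤ n) : NoNd (d21_21_7_6.R : ℤ) d21_21_7_6.H n d21_21_7_6.a d21_21_7_6.b
    (BlkD.inB (BlkD.upd (BlkD.upd (BlkD.upd (fun _ => 0) 0 2) 0 3) 1 5)
      (BlkD.upd (BlkD.upd (BlkD.upd (BlkD.upd (BlkD.upd (BlkD.upd (BlkD.upd (fun _ => 21) 0 7) 2 6) 0 3) 1 18) 1 9) 1 7) 1 6)) :=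
  BlkD.tree_sound (BlkD.pairOk_sound k21_21_7_6) (by decide) hn t21_21_7_6_12 _ _ (by decide +kernel)

/-- certificates of the pair `(7, 6)`, part 13 -/
def t21_21_7_6_13 : BlkD.Tr :=
  .S 2 3 (.L 6 7 [4, 4, 4, 21, 21, 21, 21] [144, 142, 140, 134, 126, 114] [] 100000 8185 8185
    1568286 30691 23785 52941 38619 1790 12532 0) (.L 5 5 [4, 4, 5, 21, 21, 21, 21] [144, 142, 140,
    134, 126, 114] [] 100000 7955 7955 1575001 34091 0 79545 45455 9091 11364 11364)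

lemma s21_21_7_6_13 {n : ℕ} (hn : 5 ≤ n) : NoNd (d21_21_7_6.R : ℤ) d21_21_7_6.H n d21_21_7_6.a d21_21_7_6.b
    (BlkD.inB (BlkD.upd (BlkD.upd (BlkD.upd (BlkD.upd (fun _ => 0) 0 2) 0 3) 1 5) 1 7)
      (BlkD.upd (BlkD.upd (BlkD.upd (BlkD.upd (BlkD.upd (BlkD.upd (fun _ => 21) 0 7) 2 6) 0 3) 1 18) 1 9) 1 7)) :=
  BlkD.tree_sound (BlkD.pairOk_sound k21_21_7_6) (by decide) hn t21_21_7_6_13 _ _ (by decide +kernel)

/-- certificates of the pair `(7, 6)`, part 14 -/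
def t21_21_7_6_14 : BlkD.Tr :=
  .S 1 8 (.S 2 3 (.L 5 5 [4, 4, 5, 21, 21, 21, 21] [166, 164, 162, 160, 154, 146] [] 100000 83334
    83334 1355555 55556 33333 88889 55556 0 0 0) (.L 5 5 [4, 4, 5, 21, 21, 21, 21] [166, 164, 162,
    160, 154, 146] [] 100000 50000 50000 1450000 50000 0 100000 50000 0 0 0)) (.L 5 5 [4, 4, 5, 21,
    21, 21, 21] [190, 188, 186, 184, 182, 176] [] 100000 78571 78571 1342858 85714 0 100000 14286 0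
    0 0)

lemma s21_21_7_6_14 {n : ℕ} (hn : 5 ≤ n) : NoNd (d21_21_7_6.R : ℤ) d21_21_7_6.H n d21_21_7_6.a d21_21_7_6.b
    (BlkD.inB (BlkD.upd (BlkD.upd (BlkD.upd (BlkD.upd (fun _ => 0) 0 2) 0 3) 1 5) 1 8)
      (BlkD.upd (BlkD.upd (BlkD.upd (BlkD.upd (BlkD.upd (fun _ => 21) 0 7) 2 6) 0 3) 1 18) 1 9)) :=
  BlkD.tree_sound (BlkD.pairOk_sound k21_21_7_6) (by decide) hn t21_21_7_6_14 _ _ (by decide +kernel)

/-- certificates of the pair `(7, 6)`, part 15 -/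
def t21_21_7_6_15 : BlkD.Tr :=
  .L 5 5 [4, 4, 5, 21, 21, 21, 21] [] [] 100000 300000 0 0 100000 0 400000 0 0 0 0

lemma s21_21_7_6_15 {n : ℕ} (hn : 5 ≤ n) : NoNd (d21_21_7_6.R : ℤ) d21_21_7_6.H n d21_21_7_6.a d21_21_7_6.b
    (BlkD.inB (BlkD.upd (BlkD.upd (BlkD.upd (fun _ => 0) 0 2) 0 3) 1 10)
      (BlkD.upd (BlkD.upd (BlkD.upd (BlkD.upd (fun _ => 21) 0 7) 2 6) 0 3) 1 18)) :=
  BlkD.tree_sound (BlkD.pairOk_sound k21_21_7_6) (by decide) hn t21_21_7_6_15 _ _ (by decide +kernel)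

/-- certificates of the pair `(7, 6)`, part 16 -/
def t21_21_7_6_16 : BlkD.Tr :=
  .E 0

lemma s21_21_7_6_16 {n : ℕ} (hn : 5 ≤ n) : NoNd (d21_21_7_6.R : ℤ) d21_21_7_6.H n d21_21_7_6.a d21_21_7_6.b
    (BlkD.inB (BlkD.upd (BlkD.upd (BlkD.upd (fun _ => 0) 0 2) 0 3) 1 19)
      (BlkD.upd (BlkD.upd (BlkD.upd (fun _ => 21) 0 7) 2 6) 0 3)) :=
  BlkD.tree_sound (BlkD.pairOk_sound k21_21_7_6) (by decide) hn t21_21_7_6_16 _ _ (by decide +kernel)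

/-- certificates of the pair `(7, 6)`, part 17 -/
def t21_21_7_6_17 : BlkD.Tr :=
  .S 1 2 (.L 5 5 [4, 4, 5, 21, 21, 21, 21] [] [] 100000 7500 7500 1512500 25000 12500 31250 40000 0
    10000 10000) (.S 1 3 (.L 5 5 [4, 4, 5, 21, 21, 21, 21] [72, 60, 44, 30, 0, 0] [] 100000 17425
    17425 1557576 45455 1515 87879 77273 0 10606 10606) (.S 2 3 (.L 6 7 [4, 4, 4, 21, 21, 21, 21]
    [94, 86, 74, 58, 44, 0] [] 100000 16667 16667 1533333 16667 33333 50000 66667 0 0 0) (.L 6 7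
    [4, 4, 4, 21, 21, 21, 21] [94, 86, 74, 58, 44, 0] [] 100000 0 0 1580000 40000 0 60000 40000 0
    20000 20000)))

lemma s21_21_7_6_17 {n : ℕ} (hn : 5 ≤ n) : NoNd (d21_21_7_6.R : ℤ) d21_21_7_6.H n d21_21_7_6.a d21_21_7_6.b
    (BlkD.inB (BlkD.upd (fun _ => 0) 0 4)
      (BlkD.upd (BlkD.upd (BlkD.upd (BlkD.upd (BlkD.upd (BlkD.upd (BlkD.upd (fun _ => 21) 0 7) 2 6) 0 5) 0 4) 1 17) 1 8) 1 4)) :=
  BlkD.tree_sound (BlkD.pairOk_sound k21_21_7_6) (by decide) hn t21_21_7_6_17 _ _ (by decide +kernel)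

/-- certificates of the pair `(7, 6)`, part 18 -/
def t21_21_7_6_18 : BlkD.Tr :=
  .S 1 5 (.S 2 3 (.L 6 7 [4, 4, 4, 21, 21, 21, 21] [116, 110, 102, 90, 74, 60] [] 100000 8894 8894
    1576684 25240 24279 47596 50481 6490 3606 6490) (.S 2 5 (.S 2 4 (.L 6 7 [4, 4, 4, 21, 21, 21,
    21] [116, 110, 102, 90, 74, 60] [] 100000 0 0 1587954 25301 12048 58133 56024 5422 7530 12349)
    (.L 6 7 [4, 4, 4, 21, 21, 21, 21] [116, 110, 102, 90, 74, 60] [] 100000 0 0 1596365 34545 0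
    56364 41818 14545 0 20000)) (.L 6 7 [4, 4, 4, 21, 21, 21, 21] [116, 110, 102, 90, 74, 60] []
    100000 0 0 1514287 28571 0 57143 57143 0 28571 0))) (.S 2 3 (.S 2 1 (.L 6 7 [4, 4, 4, 21, 21,
    21, 21] [136, 134, 128, 120, 108, 92] [] 100000 33334 33334 1333334 33333 66667 50000 66667 0 0
    0) (.S 2 2 (.L 6 7 [4, 4, 4, 21, 21, 21, 21] [136, 134, 128, 120, 108, 92] [] 100000 37500
    37500 1450000 25000 50000 75000 75000 0 0 0) (.S 3 8 (.S 3 4 (.L 6 7 [4, 4, 4, 21, 21, 21, 21]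
    [136, 134, 128, 120, 108, 92] [] 100000 0 0 1566668 22222 22222 44444 33333 2222 0 20000) (.L 5
    5 [4, 4, 5, 21, 21, 21, 21] [136, 134, 128, 120, 108, 92] [] 100000 12500 12500 1541669 8333
    33333 91667 91667 8333 8333 0)) (.E 1)))) (.S 2 5 (.S 2 4 (.L 6 7 [4, 4, 4, 21, 21, 21, 21]
    [136, 134, 128, 120, 108, 92] [] 100000 1 1 1596875 26042 8333 72917 53125 0 15625 10417) (.L 6
    7 [4, 4, 4, 21, 21, 21, 21] [136, 134, 128, 120, 108, 92] [] 100000 0 0 1569568 13043 8696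
    100000 82609 0 4348 8696)) (.L 6 7 [4, 4, 4, 21, 21, 21, 21] [136, 134, 128, 120, 108, 92] []
    100000 0 0 1504546 31818 0 81818 50000 4545 18182 9091)))

lemma s21_21_7_6_18 {n : ℕ} (hn : 5 ≤ n) : NoNd (d21_21_7_6.R : ℤ) d21_21_7_6.H n d21_21_7_6.a d21_21_7_6.b
    (BlkD.inB (BlkD.upd (BlkD.upd (fun _ => 0) 0 4) 1 5)
      (BlkD.upd (BlkD.upd (BlkD.upd (BlkD.upd (BlkD.upd (BlkD.upd (BlkD.upd (fun _ => 21) 0 7) 2 6) 0 5) 0 4) 1 17) 1 8) 1 6)) :=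
  BlkD.tree_sound (BlkD.pairOk_sound k21_21_7_6) (by decide) hn t21_21_7_6_18 _ _ (by decide +kernel)

/-- certificates of the pair `(7, 6)`, part 19 -/
def t21_21_7_6_19 : BlkD.Tr :=
  .S 1 7 (.S 2 3 (.L 6 7 [4, 4, 4, 21, 21, 21, 21] [158, 156, 154, 148, 140, 128] [] 100000 67856
    67856 1442860 42857 28571 78571 71429 0 0 0) (.L 6 7 [4, 4, 4, 21, 21, 21, 21] [158, 156, 154,
    148, 140, 128] [] 100000 1 1 1576744 34884 0 76744 48837 0 16279 18605)) (.L 6 7 [4, 4, 4, 21,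
    21, 21, 21] [182, 180, 178, 176, 170, 162] [] 100000 50001 50001 1400000 66667 0 100000 33333 0
    0 0)

lemma s21_21_7_6_19 {n : ℕ} (hn : 5 ≤ n) : NoNd (d21_21_7_6.R : ℤ) d21_21_7_6.H n d21_21_7_6.a d21_21_7_6.b
    (BlkD.inB (BlkD.upd (BlkD.upd (BlkD.upd (fun _ => 0) 0 4) 1 5) 1 7)
      (BlkD.upd (BlkD.upd (BlkD.upd (BlkD.upd (BlkD.upd (BlkD.upd (fun _ => 21) 0 7) 2 6) 0 5) 0 4) 1 17) 1 8)) :=
  BlkD.tree_sound (BlkD.pairOk_sound k21_21_7_6) (by decide) hn t21_21_7_6_19 _ _ (by decide +kernel)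

/-- certificates of the pair `(7, 6)`, part 20 -/
def t21_21_7_6_20 : BlkD.Tr :=
  .E 0

lemma s21_21_7_6_20 {n : ℕ} (hn : 5 ≤ n) : NoNd (d21_21_7_6.R : ℤ) d21_21_7_6.H n d21_21_7_6.a d21_21_7_6.b
    (BlkD.inB (BlkD.upd (BlkD.upd (fun _ => 0) 0 4) 1 9)
      (BlkD.upd (BlkD.upd (BlkD.upd (BlkD.upd (BlkD.upd (fun _ => 21) 0 7) 2 6) 0 5) 0 4) 1 17)) :=
  BlkD.tree_sound (BlkD.pairOk_sound k21_21_7_6) (by decide) hn t21_21_7_6_20 _ _ (by decide +kernel)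

/-- certificates of the pair `(7, 6)`, part 21 -/
def t21_21_7_6_21 : BlkD.Tr :=
  .E 0

lemma s21_21_7_6_21 {n : ℕ} (hn : 5 ≤ n) : NoNd (d21_21_7_6.R : ℤ) d21_21_7_6.H n d21_21_7_6.a d21_21_7_6.b
    (BlkD.inB (BlkD.upd (BlkD.upd (fun _ => 0) 0 4) 1 18)
      (BlkD.upd (BlkD.upd (BlkD.upd (BlkD.upd (fun _ => 21) 0 7) 2 6) 0 5) 0 4)) :=
  BlkD.tree_sound (BlkD.pairOk_sound k21_21_7_6) (by decide) hn t21_21_7_6_21 _ _ (by decide +kernel)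

/-- certificates of the pair `(7, 6)`, part 22 -/
def t21_21_7_6_22 : BlkD.Tr :=
  .S 1 16 (.S 1 8 (.S 1 4 (.S 1 2 (.L 6 7 [4, 4, 4, 21, 21, 21, 21] [] [] 100000 1 1 1546153 30769
    15385 61538 46154 0 0 30769) (.S 1 3 (.S 2 3 (.L 6 7 [4, 4, 4, 21, 21, 21, 21] [78, 66, 50, 36,
    0, 0] [] 100000 0 0 1550000 25000 25000 50000 50000 0 5000 20000) (.L 6 7 [4, 4, 4, 21, 21, 21,
    21] [78, 66, 50, 36, 0, 0] [] 100000 0 0 1571430 33333 9524 66667 42857 0 14286 19048)) (.S 2 3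
    (.L 6 7 [4, 4, 4, 21, 21, 21, 21] [102, 94, 82, 66, 52, 0] [] 100000 0 0 1580305 23939 23939
    56970 45455 13030 606 13030) (.L 6 7 [4, 4, 4, 21, 21, 21, 21] [102, 94, 82, 66, 52, 0] []
    100000 0 0 1592308 26923 3846 73077 73077 3846 0 23077)))) (.S 1 6 (.S 1 5 (.S 2 3 (.L 6 7 [4,
    4, 4, 21, 21, 21, 21] [126, 120, 112, 100, 84, 70] [] 100000 2 2 1594736 21053 21053 60526
    57895 5263 7895 26316) (.S 2 5 (.S 2 4 (.S 3 7 (.S 3 3 (.L 6 7 [4, 4, 4, 21, 21, 21, 21] [126,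
    120, 112, 100, 84, 70] [] 100000 0 0 1584617 23077 23077 53846 53846 0 15385 15385) (.L 6 7 [4,
    4, 4, 21, 21, 21, 21] [126, 120, 112, 100, 84, 70] [] 100000 1 1 1520000 26667 0 100000 80000 0
    13333 13333)) (.E 1)) (.L 6 7 [4, 4, 4, 21, 21, 21, 21] [126, 120, 112, 100, 84, 70] [] 100000
    0 0 1550000 25000 0 75000 100000 0 0 25000)) (.L 6 7 [4, 4, 4, 21, 21, 21, 21] [126, 120, 112,
    100, 84, 70] [] 100000 0 0 1520001 40000 0 73333 33333 0 33333 33333))) (.L 6 7 [4, 4, 4, 21,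
    21, 21, 21] [148, 146, 140, 132, 120, 104] [] 100000 8168 8168 1583334 40000 1667 88333 48000
    11667 2000 10000)) (.L 6 7 [4, 4, 4, 21, 21, 21, 21] [] [] 100000 7409 2 1462963 3704 14815
    107407 70370 0 0 0))) (.E 0)) (.E 0)

lemma s21_21_7_6_22 {n : ℕ} (hn : 5 ≤ n) : NoNd (d21_21_7_6.R : ℤ) d21_21_7_6.H n d21_21_7_6.a d21_21_7_6.b
    (BlkD.inB (BlkD.upd (BlkD.upd (fun _ => 0) 0 4) 0 5)
      (BlkD.upd (BlkD.upd (BlkD.upd (fun _ => 21) 0 7) 2 6) 0 5)) :=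
  BlkD.tree_sound (BlkD.pairOk_sound k21_21_7_6) (by decide) hn t21_21_7_6_22 _ _ (by decide +kernel)

/-- certificates of the pair `(7, 6)`, part 23 -/
def t21_21_7_6_23 : BlkD.Tr :=
  .S 0 6 (.S 1 15 (.S 1 7 (.S 1 3 (.S 1 1 (.L 6 7 [4, 4, 4, 21, 21, 21, 21] [] [] 100000 0 0
    1540000 20000 20000 40000 60000 0 0 20000) (.S 1 2 (.L 6 7 [4, 4, 4, 21, 21, 21, 21] [56, 40,
    26, 0, 0, 0] [] 100000 0 0 1572909 21182 21182 53202 42365 11823 1478 11823) (.S 2 3 (.L 6 7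
    [4, 4, 4, 21, 21, 21, 21] [84, 72, 56, 42, 0, 0] [] 100000 0 0 1540000 14000 32000 82000 66000
    4000 6000 22000) (.L 6 7 [4, 4, 4, 21, 21, 21, 21] [84, 72, 56, 42, 0, 0] [] 100000 1 1 1588153
    15392 16418 81063 62593 7276 10354 10354)))) (.L 6 7 [4, 4, 4, 21, 21, 21, 21] [] [] 100000 2 2
    1588889 5556 20000 46667 60000 18889 0 18889)) (.E 0)) (.E 0)) (.L 6 7 [4, 4, 4, 21, 21, 21,
    21] [] [] 100000 1 1 1593671 6329 3165 93671 90506 0 1266 5063)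

lemma s21_21_7_6_23 {n : ℕ} (hn : 5 ≤ n) : NoNd (d21_21_7_6.R : ℤ) d21_21_7_6.H n d21_21_7_6.a d21_21_7_6.b
    (BlkD.inB (BlkD.upd (BlkD.upd (fun _ => 0) 0 4) 0 6)
      (BlkD.upd (BlkD.upd (fun _ => 21) 0 7) 2 6)) :=
  BlkD.tree_sound (BlkD.pairOk_sound k21_21_7_6) (by decide) hn t21_21_7_6_23 _ _ (by decide +kernel)

/-- certificates of the pair `(7, 6)`, part 24 -/
def t21_21_7_6_24 : BlkD.Tr :=
  .E 1

lemma s21_21_7_6_24 {n : ℕ} (hn : 5 ≤ n) : NoNd (d21_21_7_6.R : ℤ) d21_21_7_6.H n d21_21_7_6.a d21_21_7_6.b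
    (BlkD.inB (BlkD.upd (fun _ => 0) 2 7)
      (BlkD.upd (fun _ => 21) 0 7)) :=
  BlkD.tree_sound (BlkD.pairOk_sound k21_21_7_6) (by decide) hn t21_21_7_6_24 _ _ (by decide +kernel)

/-- certificates of the pair `(7, 6)`, part 25 -/
def t21_21_7_6_25 : BlkD.Tr :=
  .E 0

lemma s21_21_7_6_25 {n : ℕ} (hn : 5 ≤ n) : NoNd (d21_21_7_6.R : ℤ) d21_21_7_6.H n d21_21_7_6.a d21_21_7_6.b
    (BlkD.inB (BlkD.upd (fun _ => 0) 0 8)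
      (fun _ => 21)) :=
  BlkD.tree_sound (BlkD.pairOk_sound k21_21_7_6) (by decide) hn t21_21_7_6_25 _ _ (by decide +kernel)

lemma pr21_21_7_6 {n : ℕ} (hn : 5 ≤ n) : NoPr ((21 : ℕ) : ℤ) ((21 : ℕ) : ℤ) n 7 6 :=
  BlkD.of_root (R := d21_21_7_6.R) (H := d21_21_7_6.H) (a := d21_21_7_6.a) (b := d21_21_7_6.b) (q := 3) (by decide) hn
    (BlkD.sp 0 7 (BlkD.sp 2 6 (BlkD.sp 0 3 (BlkD.sp 0 1 (BlkD.sp 0 0 (s21_21_7_6_1 hn) (BlkD.sp 1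
      10 (BlkD.sp 1 5 (s21_21_7_6_2 hn) (BlkD.sp 1 8 (s21_21_7_6_3 hn) (s21_21_7_6_4 hn)))
      (s21_21_7_6_5 hn))) (BlkD.sp 0 2 (BlkD.sp 1 10 (BlkD.sp 1 5 (s21_21_7_6_6 hn) (BlkD.sp 1 8
      (BlkD.sp 1 7 (s21_21_7_6_7 hn) (s21_21_7_6_8 hn)) (s21_21_7_6_9 hn))) (s21_21_7_6_10 hn))
      (BlkD.sp 1 18 (BlkD.sp 1 9 (BlkD.sp 1 4 (s21_21_7_6_11 hn) (BlkD.sp 1 7 (BlkD.sp 1 6
      (s21_21_7_6_12 hn) (s21_21_7_6_13 hn)) (s21_21_7_6_14 hn))) (s21_21_7_6_15 hn))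
      (s21_21_7_6_16 hn)))) (BlkD.sp 0 5 (BlkD.sp 0 4 (BlkD.sp 1 17 (BlkD.sp 1 8 (BlkD.sp 1 4
      (s21_21_7_6_17 hn) (BlkD.sp 1 6 (s21_21_7_6_18 hn) (s21_21_7_6_19 hn))) (s21_21_7_6_20 hn))
      (s21_21_7_6_21 hn)) (s21_21_7_6_22 hn)) (s21_21_7_6_23 hn))) (s21_21_7_6_24 hn))
      (s21_21_7_6_25 hn))

end BlkC

end Pool.Agent.Lib.MP_f04ccf_co
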