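import Pool.Agent.Lib.MP_f04ccf_co.M.BlkT

/-!
MP_f04ccf_co, block certificate, data `R = 21`, `H = 21`, part 8 (generated, helper99:
bd10.cpp, gen2.py).
-/

set_option autoImplicit false
set_option maxRecDepth 100000

namespace Pool.Agent.Lib.MP_f04ccf_co

namespace BlkC

/-- the numbers of the pair `(7, 7)`, `R = 21`, `H = 21` -/
def d21_21_7_7 : BlkD.Pd :=
  ⟨21, 21, 3, 7, 7, 4, 1, 4, 2, 2, 6, 0, 2, 2, 6, 0, [0, 6, 12, 14, 16], [0, 6, 12, 14, 16], [⟨1,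
    1, 1, 4, 8, [0, 4], [0, 4]⟩, ⟨1, 1, 1, 4, 12, [0, 6], [0, 6]⟩]⟩

lemma k21_21_7_7 : BlkD.pairOk d21_21_7_7 = true := by decide +kernel

/-- certificates of the pair `(7, 7)`, part 1 -/
def t21_21_7_7_1 : BlkD.Tr :=
  .L 5 5 [4, 4, 21, 21, 21, 21, 21, 21] [] [] 100000 0 0 1600000 50000 50000 100000 100000 0 0 0

lemma s21_21_7_7_1 {n : ℕ} (hn : 5 ≤ n) : NoNd (d21_21_7_7.R : ℤ) d21_21_7_7.H n d21_21_7_7.a d21_21_7_7.b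
    (BlkD.inB (fun _ => 0)
      (BlkD.upd (BlkD.upd (BlkD.upd (BlkD.upd (BlkD.upd (fun _ => 21) 0 7) 2 7) 0 3) 0 1) 0 0)) :=
  BlkD.tree_sound (BlkD.pairOk_sound k21_21_7_7) (by decide) hn t21_21_7_7_1 _ _ (by decide +kernel)

/-- certificates of the pair `(7, 7)`, part 2 -/
def t21_21_7_7_2 : BlkD.Tr :=
  .L 5 5 [4, 4, 21, 21, 21, 21, 21, 21] [] [] 100000 0 0 1600000 50000 50000 100000 100000 0 0 0

lemma s21_21_7_7_2 {n : ℕ} (hn : 5 ≤ n) : NoNd (d21_21_7_7.R : ℤ) d21_21_7_7.H n d21_21_7_7.a d21_21_7_7.b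
    (BlkD.inB (BlkD.upd (fun _ => 0) 0 1)
      (BlkD.upd (BlkD.upd (BlkD.upd (BlkD.upd (BlkD.upd (BlkD.upd (fun _ => 21) 0 7) 2 7) 0 3) 0 1) 1 10) 1 5)) :=
  BlkD.tree_sound (BlkD.pairOk_sound k21_21_7_7) (by decide) hn t21_21_7_7_2 _ _ (by decide +kernel)

/-- certificates of the pair `(7, 7)`, part 3 -/
def t21_21_7_7_3 : BlkD.Tr :=
  .L 5 5 [4, 4, 21, 21, 21, 21, 21, 21] [] [] 100000 0 0 1600000 50000 50000 100000 100000 0 0 0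

lemma s21_21_7_7_3 {n : ℕ} (hn : 5 ≤ n) : NoNd (d21_21_7_7.R : ℤ) d21_21_7_7.H n d21_21_7_7.a d21_21_7_7.b
    (BlkD.inB (BlkD.upd (BlkD.upd (fun _ => 0) 0 1) 1 6)
      (BlkD.upd (BlkD.upd (BlkD.upd (BlkD.upd (BlkD.upd (fun _ => 21) 0 7) 2 7) 0 3) 0 1) 1 10)) :=
  BlkD.tree_sound (BlkD.pairOk_sound k21_21_7_7) (by decide) hn t21_21_7_7_3 _ _ (by decide +kernel)

/-- certificates of the pair `(7, 7)`, part 4 -/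
def t21_21_7_7_4 : BlkD.Tr :=
  .L 5 5 [4, 4, 21, 21, 21, 21, 21, 21] [] [] 100000 0 0 1600000 50000 50000 100000 100000 0 0 0

lemma s21_21_7_7_4 {n : ℕ} (hn : 5 ≤ n) : NoNd (d21_21_7_7.R : ℤ) d21_21_7_7.H n d21_21_7_7.a d21_21_7_7.b
    (BlkD.inB (BlkD.upd (BlkD.upd (fun _ => 0) 0 1) 1 11)
      (BlkD.upd (BlkD.upd (BlkD.upd (BlkD.upd (fun _ => 21) 0 7) 2 7) 0 3) 0 1)) :=
  BlkD.tree_sound (BlkD.pairOk_sound k21_21_7_7) (by decide) hn t21_21_7_7_4 _ _ (by decide +kernel)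

/-- certificates of the pair `(7, 7)`, part 5 -/
def t21_21_7_7_5 : BlkD.Tr :=
  .S 1 2 (.L 5 5 [4, 4, 21, 21, 21, 21, 21, 21] [] [] 100000 0 0 1600000 50000 50000 100000 100000
    0 0 0) (.L 5 5 [4, 4, 21, 21, 21, 21, 21, 21] [] [] 100000 0 0 1600000 50000 50000 100000
    100000 0 0 0)

lemma s21_21_7_7_5 {n : ℕ} (hn : 5 ≤ n) : NoNd (d21_21_7_7.R : ℤ) d21_21_7_7.H n d21_21_7_7.a d21_21_7_7.b
    (BlkD.inB (BlkD.upd (fun _ => 0) 0 2)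
      (BlkD.upd (BlkD.upd (BlkD.upd (BlkD.upd (BlkD.upd (BlkD.upd (fun _ => 21) 0 7) 2 7) 0 3) 0 2) 1 10) 1 5)) :=
  BlkD.tree_sound (BlkD.pairOk_sound k21_21_7_7) (by decide) hn t21_21_7_7_5 _ _ (by decide +kernel)

/-- certificates of the pair `(7, 7)`, part 6 -/
def t21_21_7_7_6 : BlkD.Tr :=
  .S 1 6 (.L 5 5 [4, 4, 21, 21, 21, 21, 21, 21] [118, 114, 108, 102, 84, 70] [] 100000 0 0 1600000
    50000 50000 100000 100000 0 0 0) (.L 5 5 [4, 4, 21, 21, 21, 21, 21, 21] [136, 134, 130, 124,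
    118, 100] [] 100000 0 0 1600000 50000 50000 100000 100000 0 0 0)

lemma s21_21_7_7_6 {n : ℕ} (hn : 5 ≤ n) : NoNd (d21_21_7_7.R : ℤ) d21_21_7_7.H n d21_21_7_7.a d21_21_7_7.b
    (BlkD.inB (BlkD.upd (BlkD.upd (fun _ => 0) 0 2) 1 6)
      (BlkD.upd (BlkD.upd (BlkD.upd (BlkD.upd (BlkD.upd (BlkD.upd (BlkD.upd (fun _ => 21) 0 7) 2 7) 0 3) 0 2) 1 10) 1 8) 1 7)) :=
  BlkD.tree_sound (BlkD.pairOk_sound k21_21_7_7) (by decide) hn t21_21_7_7_6 _ _ (by decide +kernel)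

/-- certificates of the pair `(7, 7)`, part 7 -/
def t21_21_7_7_7 : BlkD.Tr :=
  .L 5 5 [4, 4, 21, 21, 21, 21, 21, 21] [156, 154, 152, 148, 142, 136] [] 100000 0 0 1600000 50000
    50000 100000 100000 0 0 0

lemma s21_21_7_7_7 {n : ℕ} (hn : 5 ≤ n) : NoNd (d21_21_7_7.R : ℤ) d21_21_7_7.H n d21_21_7_7.a d21_21_7_7.b
    (BlkD.inB (BlkD.upd (BlkD.upd (BlkD.upd (fun _ => 0) 0 2) 1 6) 1 8)
      (BlkD.upd (BlkD.upd (BlkD.upd (BlkD.upd (BlkD.upd (BlkD.upd (fun _ => 21) 0 7) 2 7) 0 3) 0 2) 1 10) 1 8)) :=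
  BlkD.tree_sound (BlkD.pairOk_sound k21_21_7_7) (by decide) hn t21_21_7_7_7 _ _ (by decide +kernel)

/-- certificates of the pair `(7, 7)`, part 8 -/
def t21_21_7_7_8 : BlkD.Tr :=
  .L 5 5 [4, 4, 21, 21, 21, 21, 21, 21] [] [] 100000 0 0 1600000 50000 50000 100000 100000 0 0 0

lemma s21_21_7_7_8 {n : ℕ} (hn : 5 ≤ n) : NoNd (d21_21_7_7.R : ℤ) d21_21_7_7.H n d21_21_7_7.a d21_21_7_7.b
    (BlkD.inB (BlkD.upd (BlkD.upd (BlkD.upd (fun _ => 0) 0 2) 1 6) 1 9)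
      (BlkD.upd (BlkD.upd (BlkD.upd (BlkD.upd (BlkD.upd (fun _ => 21) 0 7) 2 7) 0 3) 0 2) 1 10)) :=
  BlkD.tree_sound (BlkD.pairOk_sound k21_21_7_7) (by decide) hn t21_21_7_7_8 _ _ (by decide +kernel)

/-- certificates of the pair `(7, 7)`, part 9 -/
def t21_21_7_7_9 : BlkD.Tr :=
  .L 5 5 [4, 4, 21, 21, 21, 21, 21, 21] [] [] 100000 0 0 1600000 50000 50000 100000 100000 0 0 0

lemma s21_21_7_7_9 {n : ℕ} (hn : 5 ≤ n) : NoNd (d21_21_7_7.R : ℤ) d21_21_7_7.H n d21_21_7_7.a d21_21_7_7.b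
    (BlkD.inB (BlkD.upd (BlkD.upd (fun _ => 0) 0 2) 1 11)
      (BlkD.upd (BlkD.upd (BlkD.upd (BlkD.upd (fun _ => 21) 0 7) 2 7) 0 3) 0 2)) :=
  BlkD.tree_sound (BlkD.pairOk_sound k21_21_7_7) (by decide) hn t21_21_7_7_9 _ _ (by decide +kernel)

/-- certificates of the pair `(7, 7)`, part 10 -/
def t21_21_7_7_10 : BlkD.Tr :=
  .L 5 5 [4, 4, 21, 21, 21, 21, 21, 21] [] [] 100000 0 0 1600000 50000 50000 100000 100000 0 0 0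

lemma s21_21_7_7_10 {n : ℕ} (hn : 5 ≤ n) : NoNd (d21_21_7_7.R : ℤ) d21_21_7_7.H n d21_21_7_7.a d21_21_7_7.b
    (BlkD.inB (BlkD.upd (BlkD.upd (fun _ => 0) 0 2) 0 3)
      (BlkD.upd (BlkD.upd (BlkD.upd (BlkD.upd (BlkD.upd (BlkD.upd (fun _ => 21) 0 7) 2 7) 0 3) 1 10) 1 5) 1 2)) :=
  BlkD.tree_sound (BlkD.pairOk_sound k21_21_7_7) (by decide) hn t21_21_7_7_10 _ _ (by decide +kernel)

/-- certificates of the pair `(7, 7)`, part 11 -/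
def t21_21_7_7_11 : BlkD.Tr :=
  .S 1 4 (.L 5 5 [4, 4, 21, 21, 21, 21, 21, 21] [] [] 100000 0 0 1600000 50000 50000 100000 100000
    0 0 0) (.L 5 5 [4, 4, 21, 21, 21, 21, 21, 21] [110, 104, 98, 80, 66, 50] [] 100000 0 0 1600000
    50000 50000 100000 100000 0 0 0)

lemma s21_21_7_7_11 {n : ℕ} (hn : 5 ≤ n) : NoNd (d21_21_7_7.R : ℤ) d21_21_7_7.H n d21_21_7_7.a d21_21_7_7.b
    (BlkD.inB (BlkD.upd (BlkD.upd (BlkD.upd (fun _ => 0) 0 2) 0 3) 1 3)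
      (BlkD.upd (BlkD.upd (BlkD.upd (BlkD.upd (BlkD.upd (fun _ => 21) 0 7) 2 7) 0 3) 1 10) 1 5)) :=
  BlkD.tree_sound (BlkD.pairOk_sound k21_21_7_7) (by decide) hn t21_21_7_7_11 _ _ (by decide +kernel)

/-- certificates of the pair `(7, 7)`, part 12 -/
def t21_21_7_7_12 : BlkD.Tr :=
  .L 5 5 [4, 4, 21, 21, 21, 21, 21, 21] [130, 126, 120, 114, 96, 82] [] 100000 0 0 1600000 50000
    50000 100000 100000 0 0 0

lemma s21_21_7_7_12 {n : ℕ} (hn : 5 ≤ n) : NoNd (d21_21_7_7.R : ℤ) d21_21_7_7.H n d21_21_7_7.a d21_21_7_7.b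
    (BlkD.inB (BlkD.upd (BlkD.upd (BlkD.upd (fun _ => 0) 0 2) 0 3) 1 6)
      (BlkD.upd (BlkD.upd (BlkD.upd (BlkD.upd (BlkD.upd (BlkD.upd (BlkD.upd (fun _ => 21) 0 7) 2 7) 0 3) 1 10) 1 8) 1 7) 1 6)) :=
  BlkD.tree_sound (BlkD.pairOk_sound k21_21_7_7) (by decide) hn t21_21_7_7_12 _ _ (by decide +kernel)

/-- certificates of the pair `(7, 7)`, part 13 -/
def t21_21_7_7_13 : BlkD.Tr :=
  .L 5 5 [4, 4, 21, 21, 21, 21, 21, 21] [150, 148, 144, 138, 132, 114] [] 100000 0 0 1600000 50000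
    50000 100000 100000 0 0 0

lemma s21_21_7_7_13 {n : ℕ} (hn : 5 ≤ n) : NoNd (d21_21_7_7.R : ℤ) d21_21_7_7.H n d21_21_7_7.a d21_21_7_7.b
    (BlkD.inB (BlkD.upd (BlkD.upd (BlkD.upd (BlkD.upd (fun _ => 0) 0 2) 0 3) 1 6) 1 7)
      (BlkD.upd (BlkD.upd (BlkD.upd (BlkD.upd (BlkD.upd (BlkD.upd (fun _ => 21) 0 7) 2 7) 0 3) 1 10) 1 8) 1 7)) :=
  BlkD.tree_sound (BlkD.pairOk_sound k21_21_7_7) (by decide) hn t21_21_7_7_13 _ _ (by decide +kernel)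

/-- certificates of the pair `(7, 7)`, part 14 -/
def t21_21_7_7_14 : BlkD.Tr :=
  .L 5 5 [4, 4, 21, 21, 21, 21, 21, 21] [172, 170, 168, 164, 158, 152] [] 100000 0 0 1600000 50000
    50000 100000 100000 0 0 0

lemma s21_21_7_7_14 {n : ℕ} (hn : 5 ≤ n) : NoNd (d21_21_7_7.R : ℤ) d21_21_7_7.H n d21_21_7_7.a d21_21_7_7.b
    (BlkD.inB (BlkD.upd (BlkD.upd (BlkD.upd (BlkD.upd (fun _ => 0) 0 2) 0 3) 1 6) 1 8)
      (BlkD.upd (BlkD.upd (BlkD.upd (BlkD.upd (BlkD.upd (fun _ => 21) 0 7) 2 7) 0 3) 1 10) 1 8)) :=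
  BlkD.tree_sound (BlkD.pairOk_sound k21_21_7_7) (by decide) hn t21_21_7_7_14 _ _ (by decide +kernel)

/-- certificates of the pair `(7, 7)`, part 15 -/
def t21_21_7_7_15 : BlkD.Tr :=
  .L 5 5 [4, 4, 21, 21, 21, 21, 21, 21] [] [] 100000 0 0 1600000 50000 50000 100000 100000 0 0 0

lemma s21_21_7_7_15 {n : ℕ} (hn : 5 ≤ n) : NoNd (d21_21_7_7.R : ℤ) d21_21_7_7.H n d21_21_7_7.a d21_21_7_7.b
    (BlkD.inB (BlkD.upd (BlkD.upd (BlkD.upd (BlkD.upd (fun _ => 0) 0 2) 0 3) 1 6) 1 9)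
      (BlkD.upd (BlkD.upd (BlkD.upd (BlkD.upd (fun _ => 21) 0 7) 2 7) 0 3) 1 10)) :=
  BlkD.tree_sound (BlkD.pairOk_sound k21_21_7_7) (by decide) hn t21_21_7_7_15 _ _ (by decide +kernel)

/-- certificates of the pair `(7, 7)`, part 16 -/
def t21_21_7_7_16 : BlkD.Tr :=
  .L 5 5 [4, 4, 21, 21, 21, 21, 21, 21] [] [] 100000 0 0 1600000 50000 50000 100000 100000 0 0 0

lemma s21_21_7_7_16 {n : ℕ} (hn : 5 ≤ n) : NoNd (d21_21_7_7.R : ℤ) d21_21_7_7.H n d21_21_7_7.a d21_21_7_7.b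
    (BlkD.inB (BlkD.upd (BlkD.upd (BlkD.upd (fun _ => 0) 0 2) 0 3) 1 11)
      (BlkD.upd (BlkD.upd (BlkD.upd (fun _ => 21) 0 7) 2 7) 0 3)) :=
  BlkD.tree_sound (BlkD.pairOk_sound k21_21_7_7) (by decide) hn t21_21_7_7_16 _ _ (by decide +kernel)

/-- certificates of the pair `(7, 7)`, part 17 -/
def t21_21_7_7_17 : BlkD.Tr :=
  .L 5 5 [4, 4, 21, 21, 21, 21, 21, 21] [] [] 100000 0 0 1600000 50000 50000 100000 100000 0 0 0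

lemma s21_21_7_7_17 {n : ℕ} (hn : 5 ≤ n) : NoNd (d21_21_7_7.R : ℤ) d21_21_7_7.H n d21_21_7_7.a d21_21_7_7.b
    (BlkD.inB (BlkD.upd (fun _ => 0) 0 4)
      (BlkD.upd (BlkD.upd (BlkD.upd (BlkD.upd (BlkD.upd (BlkD.upd (BlkD.upd (fun _ => 21) 0 7) 2 7) 0 5) 0 4) 1 10) 1 5) 1 2)) :=
  BlkD.tree_sound (BlkD.pairOk_sound k21_21_7_7) (by decide) hn t21_21_7_7_17 _ _ (by decide +kernel)

/-- certificates of the pair `(7, 7)`, part 18 -/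
def t21_21_7_7_18 : BlkD.Tr :=
  .L 5 5 [4, 4, 21, 21, 21, 21, 21, 21] [] [] 100000 0 0 1600000 50000 50000 100000 100000 0 0 0

lemma s21_21_7_7_18 {n : ℕ} (hn : 5 ≤ n) : NoNd (d21_21_7_7.R : ℤ) d21_21_7_7.H n d21_21_7_7.a d21_21_7_7.b
    (BlkD.inB (BlkD.upd (BlkD.upd (fun _ => 0) 0 4) 1 3)
      (BlkD.upd (BlkD.upd (BlkD.upd (BlkD.upd (BlkD.upd (BlkD.upd (BlkD.upd (fun _ => 21) 0 7) 2 7) 0 5) 0 4) 1 10) 1 5) 1 4)) :=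
  BlkD.tree_sound (BlkD.pairOk_sound k21_21_7_7) (by decide) hn t21_21_7_7_18 _ _ (by decide +kernel)

/-- certificates of the pair `(7, 7)`, part 19 -/
def t21_21_7_7_19 : BlkD.Tr :=
  .L 5 5 [4, 4, 21, 21, 21, 21, 21, 21] [120, 114, 108, 90, 76, 60] [] 100000 0 0 1600000 50000
    50000 100000 100000 0 0 0

lemma s21_21_7_7_19 {n : ℕ} (hn : 5 ≤ n) : NoNd (d21_21_7_7.R : ℤ) d21_21_7_7.H n d21_21_7_7.a d21_21_7_7.b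
    (BlkD.inB (BlkD.upd (BlkD.upd (BlkD.upd (fun _ => 0) 0 4) 1 3) 1 5)
      (BlkD.upd (BlkD.upd (BlkD.upd (BlkD.upd (BlkD.upd (BlkD.upd (fun _ => 21) 0 7) 2 7) 0 5) 0 4) 1 10) 1 5)) :=
  BlkD.tree_sound (BlkD.pairOk_sound k21_21_7_7) (by decide) hn t21_21_7_7_19 _ _ (by decide +kernel)

/-- certificates of the pair `(7, 7)`, part 20 -/
def t21_21_7_7_20 : BlkD.Tr :=
  .S 1 8 (.S 1 7 (.L 5 5 [4, 4, 21, 21, 21, 21, 21, 21] [] [] 100000 0 0 1600000 50000 50000 100000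
    100000 0 0 0) (.L 5 5 [4, 4, 21, 21, 21, 21, 21, 21] [188, 186, 184, 180, 174, 168] [] 100000 0
    0 1600000 50000 50000 100000 100000 0 0 0)) (.L 5 5 [4, 4, 21, 21, 21, 21, 21, 21] [] [] 100000
    0 0 1600000 50000 50000 100000 100000 0 0 0)

lemma s21_21_7_7_20 {n : ℕ} (hn : 5 ≤ n) : NoNd (d21_21_7_7.R : ℤ) d21_21_7_7.H n d21_21_7_7.a d21_21_7_7.b
    (BlkD.inB (BlkD.upd (BlkD.upd (fun _ => 0) 0 4) 1 6)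
      (BlkD.upd (BlkD.upd (BlkD.upd (BlkD.upd (BlkD.upd (fun _ => 21) 0 7) 2 7) 0 5) 0 4) 1 10)) :=
  BlkD.tree_sound (BlkD.pairOk_sound k21_21_7_7) (by decide) hn t21_21_7_7_20 _ _ (by decide +kernel)

/-- certificates of the pair `(7, 7)`, part 21 -/
def t21_21_7_7_21 : BlkD.Tr :=
  .L 5 5 [4, 4, 21, 21, 21, 21, 21, 21] [] [] 100000 0 0 1600000 50000 50000 100000 100000 0 0 0

lemma s21_21_7_7_21 {n : ℕ} (hn : 5 ≤ n) : NoNd (d21_21_7_7.R : ℤ) d21_21_7_7.H n d21_21_7_7.a d21_21_7_7.b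
    (BlkD.inB (BlkD.upd (BlkD.upd (fun _ => 0) 0 4) 1 11)
      (BlkD.upd (BlkD.upd (BlkD.upd (BlkD.upd (fun _ => 21) 0 7) 2 7) 0 5) 0 4)) :=
  BlkD.tree_sound (BlkD.pairOk_sound k21_21_7_7) (by decide) hn t21_21_7_7_21 _ _ (by decide +kernel)

/-- certificates of the pair `(7, 7)`, part 22 -/
def t21_21_7_7_22 : BlkD.Tr :=
  .S 1 2 (.L 5 5 [4, 4, 21, 21, 21, 21, 21, 21] [] [] 100000 0 0 1600000 50000 50000 100000 100000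
    0 0 0) (.L 5 5 [4, 4, 21, 21, 21, 21, 21, 21] [] [] 100000 0 0 1600000 50000 50000 100000
    100000 0 0 0)

lemma s21_21_7_7_22 {n : ℕ} (hn : 5 ≤ n) : NoNd (d21_21_7_7.R : ℤ) d21_21_7_7.H n d21_21_7_7.a d21_21_7_7.b
    (BlkD.inB (BlkD.upd (BlkD.upd (fun _ => 0) 0 4) 0 5)
      (BlkD.upd (BlkD.upd (BlkD.upd (BlkD.upd (BlkD.upd (fun _ => 21) 0 7) 2 7) 0 5) 1 10) 1 5)) :=
  BlkD.tree_sound (BlkD.pairOk_sound k21_21_7_7) (by decide) hn t21_21_7_7_22 _ _ (by decide +kernel)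

/-- certificates of the pair `(7, 7)`, part 23 -/
def t21_21_7_7_23 : BlkD.Tr :=
  .L 5 5 [4, 4, 21, 21, 21, 21, 21, 21] [] [] 100000 0 0 1600000 50000 50000 100000 100000 0 0 0

lemma s21_21_7_7_23 {n : ℕ} (hn : 5 ≤ n) : NoNd (d21_21_7_7.R : ℤ) d21_21_7_7.H n d21_21_7_7.a d21_21_7_7.b
    (BlkD.inB (BlkD.upd (BlkD.upd (BlkD.upd (fun _ => 0) 0 4) 0 5) 1 6)
      (BlkD.upd (BlkD.upd (BlkD.upd (BlkD.upd (fun _ => 21) 0 7) 2 7) 0 5) 1 10)) :=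
  BlkD.tree_sound (BlkD.pairOk_sound k21_21_7_7) (by decide) hn t21_21_7_7_23 _ _ (by decide +kernel)

/-- certificates of the pair `(7, 7)`, part 24 -/
def t21_21_7_7_24 : BlkD.Tr :=
  .L 5 5 [4, 4, 21, 21, 21, 21, 21, 21] [] [] 100000 0 0 1600000 50000 50000 100000 100000 0 0 0

lemma s21_21_7_7_24 {n : ℕ} (hn : 5 ≤ n) : NoNd (d21_21_7_7.R : ℤ) d21_21_7_7.H n d21_21_7_7.a d21_21_7_7.b
    (BlkD.inB (BlkD.upd (BlkD.upd (BlkD.upd (fun _ => 0) 0 4) 0 5) 1 11)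
      (BlkD.upd (BlkD.upd (BlkD.upd (fun _ => 21) 0 7) 2 7) 0 5)) :=
  BlkD.tree_sound (BlkD.pairOk_sound k21_21_7_7) (by decide) hn t21_21_7_7_24 _ _ (by decide +kernel)

/-- certificates of the pair `(7, 7)`, part 25 -/
def t21_21_7_7_25 : BlkD.Tr :=
  .L 5 5 [4, 4, 21, 21, 21, 21, 21, 21] [] [] 100000 0 0 1600000 50000 50000 100000 100000 0 0 0

lemma s21_21_7_7_25 {n : ℕ} (hn : 5 ≤ n) : NoNd (d21_21_7_7.R : ℤ) d21_21_7_7.H n d21_21_7_7.a d21_21_7_7.b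
    (BlkD.inB (BlkD.upd (BlkD.upd (fun _ => 0) 0 4) 0 6)
      (BlkD.upd (BlkD.upd (fun _ => 21) 0 7) 2 7)) :=
  BlkD.tree_sound (BlkD.pairOk_sound k21_21_7_7) (by decide) hn t21_21_7_7_25 _ _ (by decide +kernel)

/-- certificates of the pair `(7, 7)`, part 26 -/
def t21_21_7_7_26 : BlkD.Tr :=
  .E 1

lemma s21_21_7_7_26 {n : ℕ} (hn : 5 ≤ n) : NoNd (d21_21_7_7.R : ℤ) d21_21_7_7.H n d21_21_7_7.a d21_21_7_7.b
    (BlkD.inB (BlkD.upd (fun _ => 0) 2 8)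
      (BlkD.upd (fun _ => 21) 0 7)) :=
  BlkD.tree_sound (BlkD.pairOk_sound k21_21_7_7) (by decide) hn t21_21_7_7_26 _ _ (by decide +kernel)

/-- certificates of the pair `(7, 7)`, part 27 -/
def t21_21_7_7_27 : BlkD.Tr :=
  .E 0

lemma s21_21_7_7_27 {n : ℕ} (hn : 5 ≤ n) : NoNd (d21_21_7_7.R : ℤ) d21_21_7_7.H n d21_21_7_7.a d21_21_7_7.b
    (BlkD.inB (BlkD.upd (fun _ => 0) 0 8)
      (fun _ => 21)) :=
  BlkD.tree_sound (BlkD.pairOk_sound k21_21_7_7) (by decide) hn t21_21_7_7_27 _ _ (by decide +kernel)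

lemma pr21_21_7_7 {n : ℕ} (hn : 5 ≤ n) : NoPr ((21 : ℕ) : ℤ) ((21 : ℕ) : ℤ) n 7 7 :=
  BlkD.of_root (R := d21_21_7_7.R) (H := d21_21_7_7.H) (a := d21_21_7_7.a) (b := d21_21_7_7.b) (q := 3) (by decide) hn
    (BlkD.sp 0 7 (BlkD.sp 2 7 (BlkD.sp 0 3 (BlkD.sp 0 1 (BlkD.sp 0 0 (s21_21_7_7_1 hn) (BlkD.sp 1
      10 (BlkD.sp 1 5 (s21_21_7_7_2 hn) (s21_21_7_7_3 hn)) (s21_21_7_7_4 hn))) (BlkD.sp 0 2
      (BlkD.sp 1 10 (BlkD.sp 1 5 (s21_21_7_7_5 hn) (BlkD.sp 1 8 (BlkD.sp 1 7 (s21_21_7_7_6 hn)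
      (s21_21_7_7_7 hn)) (s21_21_7_7_8 hn))) (s21_21_7_7_9 hn)) (BlkD.sp 1 10 (BlkD.sp 1 5 (BlkD.sp
      1 2 (s21_21_7_7_10 hn) (s21_21_7_7_11 hn)) (BlkD.sp 1 8 (BlkD.sp 1 7 (BlkD.sp 1 6
      (s21_21_7_7_12 hn) (s21_21_7_7_13 hn)) (s21_21_7_7_14 hn)) (s21_21_7_7_15 hn)))
      (s21_21_7_7_16 hn)))) (BlkD.sp 0 5 (BlkD.sp 0 4 (BlkD.sp 1 10 (BlkD.sp 1 5 (BlkD.sp 1 2
      (s21_21_7_7_17 hn) (BlkD.sp 1 4 (s21_21_7_7_18 hn) (s21_21_7_7_19 hn))) (s21_21_7_7_20 hn))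
      (s21_21_7_7_21 hn)) (BlkD.sp 1 10 (BlkD.sp 1 5 (s21_21_7_7_22 hn) (s21_21_7_7_23 hn))
      (s21_21_7_7_24 hn))) (s21_21_7_7_25 hn))) (s21_21_7_7_26 hn)) (s21_21_7_7_27 hn))

/-- the numbers of the pair `(8, 0)`, `R = 21`, `H = 21` -/
def d21_21_8_0 : BlkD.Pd :=
  ⟨21, 21, 3, 8, 0, 10, 0, 1, 0, 4, 4, 0, 0, 4, 4, 0, [0, 4, 8, 12, 16, 20, 24, 28, 32, 36, 40],
    [0, 4, 8, 12, 16, 20, 24, 28, 32, 36, 40], [⟨1, 1, 1, 4, 8, [0, 4], [0, 4]⟩]⟩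

/-- the certificates of the pair `(8, 0)` -/
def t21_21_8_0 : BlkD.Tr :=
  .S 0 8 (.S 2 0 (.S 0 4 (.L 4 4 [4] [] [] 100000 0 0 925000 50000 0 75000 25000 0 0 0) (.L 4 4 [4]
    [] [] 100000 0 0 925000 50000 0 75000 25000 0 0 0)) (.E 1)) (.E 0)

lemma pr21_21_8_0 {n : ℕ} (hn : 5 ≤ n) : NoPr ((21 : ℕ) : ℤ) ((21 : ℕ) : ℤ) n 8 0 :=
  BlkD.pair_sound (d := d21_21_8_0) (by decide +kernel) hn (by decide) (tr := t21_21_8_0)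
    (by decide +kernel) rfl rfl rfl rfl

/-- the numbers of the pair `(8, 1)`, `R = 21`, `H = 21` -/
def d21_21_8_1 : BlkD.Pd :=
  ⟨21, 21, 3, 8, 1, 9, 1, 1, 0, 4, 8, 0, 0, 4, 4, 0, [0, 8, 16, 24, 32, 36, 36, 36, 36, 36], [0, 4,
    8, 12, 16, 20, 24, 28, 32, 36], [⟨1, 1, 1, 4, 8, [0, 4], [0, 4]⟩, ⟨1, 1, 1, 4, 12, [0, 8], [0,
    4]⟩]⟩

lemma k21_21_8_1 : BlkD.pairOk d21_21_8_1 = true := by decide +kernel

/-- certificates of the pair `(8, 1)`, part 1 -/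
def t21_21_8_1_1 : BlkD.Tr :=
  .S 0 1 (.L 4 5 [4, 4] [] [] 100000 0 0 1100003 33333 0 66667 0 0 0 0) (.L 4 5 [4, 4] [] [] 100000
    0 0 1100003 33333 0 66667 0 0 0 0)

lemma s21_21_8_1_1 {n : ℕ} (hn : 5 ≤ n) : NoNd (d21_21_8_1.R : ℤ) d21_21_8_1.H n d21_21_8_1.a d21_21_8_1.b
    (BlkD.inB (fun _ => 0)
      (BlkD.upd (BlkD.upd (BlkD.upd (BlkD.upd (fun _ => 21) 0 8) 2 1) 0 4) 0 2)) :=
  BlkD.tree_sound (BlkD.pairOk_sound k21_21_8_1) (by decide) hn t21_21_8_1_1 _ _ (by decide +kernel)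

/-- certificates of the pair `(8, 1)`, part 2 -/
def t21_21_8_1_2 : BlkD.Tr :=
  .L 4 5 [4, 4] [] [] 100000 0 0 1100003 33333 0 66667 0 0 0 0

lemma s21_21_8_1_2 {n : ℕ} (hn : 5 ≤ n) : NoNd (d21_21_8_1.R : ℤ) d21_21_8_1.H n d21_21_8_1.a d21_21_8_1.b
    (BlkD.inB (BlkD.upd (fun _ => 0) 0 3)
      (BlkD.upd (BlkD.upd (BlkD.upd (fun _ => 21) 0 8) 2 1) 0 4)) :=
  BlkD.tree_sound (BlkD.pairOk_sound k21_21_8_1) (by decide) hn t21_21_8_1_2 _ _ (by decide +kernel)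

/-- certificates of the pair `(8, 1)`, part 3 -/
def t21_21_8_1_3 : BlkD.Tr :=
  .L 4 5 [4, 4] [] [] 100000 0 0 1100003 33333 0 66667 0 0 0 0

lemma s21_21_8_1_3 {n : ℕ} (hn : 5 ≤ n) : NoNd (d21_21_8_1.R : ℤ) d21_21_8_1.H n d21_21_8_1.a d21_21_8_1.b
    (BlkD.inB (BlkD.upd (fun _ => 0) 0 5)
      (BlkD.upd (BlkD.upd (fun _ => 21) 0 8) 2 1)) :=
  BlkD.tree_sound (BlkD.pairOk_sound k21_21_8_1) (by decide) hn t21_21_8_1_3 _ _ (by decide +kernel)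

/-- certificates of the pair `(8, 1)`, part 4 -/
def t21_21_8_1_4 : BlkD.Tr :=
  .E 1

lemma s21_21_8_1_4 {n : ℕ} (hn : 5 ≤ n) : NoNd (d21_21_8_1.R : ℤ) d21_21_8_1.H n d21_21_8_1.a d21_21_8_1.b
    (BlkD.inB (BlkD.upd (fun _ => 0) 2 2)
      (BlkD.upd (fun _ => 21) 0 8)) :=
  BlkD.tree_sound (BlkD.pairOk_sound k21_21_8_1) (by decide) hn t21_21_8_1_4 _ _ (by decide +kernel)

/-- certificates of the pair `(8, 1)`, part 5 -/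
def t21_21_8_1_5 : BlkD.Tr :=
  .E 0

lemma s21_21_8_1_5 {n : ℕ} (hn : 5 ≤ n) : NoNd (d21_21_8_1.R : ℤ) d21_21_8_1.H n d21_21_8_1.a d21_21_8_1.b
    (BlkD.inB (BlkD.upd (fun _ => 0) 0 9)
      (fun _ => 21)) :=
  BlkD.tree_sound (BlkD.pairOk_sound k21_21_8_1) (by decide) hn t21_21_8_1_5 _ _ (by decide +kernel)

lemma pr21_21_8_1 {n : ℕ} (hn : 5 ≤ n) : NoPr ((21 : ℕ) : ℤ) ((21 : ℕ) : ℤ) n 8 1 :=
  BlkD.of_root (R := d21_21_8_1.R) (H := d21_21_8_1.H) (a := d21_21_8_1.a) (b := d21_21_8_1.b) (q := 3) (by decide) hn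
    (BlkD.sp 0 8 (BlkD.sp 2 1 (BlkD.sp 0 4 (BlkD.sp 0 2 (s21_21_8_1_1 hn) (s21_21_8_1_2 hn))
      (s21_21_8_1_3 hn)) (s21_21_8_1_4 hn)) (s21_21_8_1_5 hn))

end BlkC

end Pool.Agent.Lib.MP_f04ccf_co
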