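import Pool.Agent.Lib.MP_f04ccf_co.M.BlkT

/-!
MP_f04ccf_co, block certificate, data `R = 21`, `H = 21`, part 9 (generated, helper99:
bd10.cpp, gen2.py).
-/

set_option autoImplicit false
set_option maxRecDepth 100000

namespace Pool.Agent.Lib.MP_f04ccf_co

namespace BlkC

/-- the numbers of the pair `(8, 2)`, `R = 21`, `H = 21` -/
def d21_21_8_2 : BlkD.Pd :=
  ⟨21, 21, 3, 8, 2, 8, 2, 1, 0, 4, 10, 0, 3, 1, 6, 0, [0, 10, 20, 30, 32, 32, 32, 32, 32], [0, 6,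
    12, 17, 20, 23, 26, 29, 32], [⟨1, 1, 1, 4, 8, [0, 4], [0, 4]⟩, ⟨1, 1, 1, 4, 12, [0, 8], [0,
    4]⟩, ⟨1, 1, 1, 6, 16, [0, 10], [0, 6]⟩]⟩

lemma k21_21_8_2 : BlkD.pairOk d21_21_8_2 = true := by decide +kernel

/-- certificates of the pair `(8, 2)`, part 1 -/
def t21_21_8_2_1 : BlkD.Tr :=
  .L 4 6 [4, 4, 5] [] [] 100000 0 0 1200003 33333 0 66667 16667 0 33333 33333

lemma s21_21_8_2_1 {n : ℕ} (hn : 5 ≤ n) : NoNd (d21_21_8_2.R : ℤ) d21_21_8_2.H n d21_21_8_2.a d21_21_8_2.b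
    (BlkD.inB (fun _ => 0)
      (BlkD.upd (BlkD.upd (BlkD.upd (BlkD.upd (BlkD.upd (fun _ => 21) 0 8) 2 2) 0 4) 0 2) 0 1)) :=
  BlkD.tree_sound (BlkD.pairOk_sound k21_21_8_2) (by decide) hn t21_21_8_2_1 _ _ (by decide +kernel)

/-- certificates of the pair `(8, 2)`, part 2 -/
def t21_21_8_2_2 : BlkD.Tr :=
  .L 4 6 [4, 4, 5] [] [] 100000 0 0 1200003 33333 0 66667 16667 0 33333 33333

lemma s21_21_8_2_2 {n : ℕ} (hn : 5 ≤ n) : NoNd (d21_21_8_2.R : ℤ) d21_21_8_2.H n d21_21_8_2.a d21_21_8_2.b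
    (BlkD.inB (BlkD.upd (fun _ => 0) 0 2)
      (BlkD.upd (BlkD.upd (BlkD.upd (BlkD.upd (fun _ => 21) 0 8) 2 2) 0 4) 0 2)) :=
  BlkD.tree_sound (BlkD.pairOk_sound k21_21_8_2) (by decide) hn t21_21_8_2_2 _ _ (by decide +kernel)

/-- certificates of the pair `(8, 2)`, part 3 -/
def t21_21_8_2_3 : BlkD.Tr :=
  .S 0 3 (.L 4 6 [4, 4, 5] [] [] 100000 0 0 1200003 33333 0 66667 16667 0 33333 33333) (.L 4 6 [4,
    4, 5] [] [] 100000 0 0 1200003 33333 0 66667 16667 0 33333 33333)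

lemma s21_21_8_2_3 {n : ℕ} (hn : 5 ≤ n) : NoNd (d21_21_8_2.R : ℤ) d21_21_8_2.H n d21_21_8_2.a d21_21_8_2.b
    (BlkD.inB (BlkD.upd (fun _ => 0) 0 3)
      (BlkD.upd (BlkD.upd (BlkD.upd (fun _ => 21) 0 8) 2 2) 0 4)) :=
  BlkD.tree_sound (BlkD.pairOk_sound k21_21_8_2) (by decide) hn t21_21_8_2_3 _ _ (by decide +kernel)

/-- certificates of the pair `(8, 2)`, part 4 -/
def t21_21_8_2_4 : BlkD.Tr :=
  .L 4 6 [4, 4, 5] [] [] 100000 1 1 1295385 17436 0 60513 8718 6154 33333 33333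

lemma s21_21_8_2_4 {n : ℕ} (hn : 5 ≤ n) : NoNd (d21_21_8_2.R : ℤ) d21_21_8_2.H n d21_21_8_2.a d21_21_8_2.b
    (BlkD.inB (BlkD.upd (fun _ => 0) 0 5)
      (BlkD.upd (BlkD.upd (fun _ => 21) 0 8) 2 2)) :=
  BlkD.tree_sound (BlkD.pairOk_sound k21_21_8_2) (by decide) hn t21_21_8_2_4 _ _ (by decide +kernel)

/-- certificates of the pair `(8, 2)`, part 5 -/
def t21_21_8_2_5 : BlkD.Tr :=
  .E 1

lemma s21_21_8_2_5 {n : ℕ} (hn : 5 ≤ n) : NoNd (d21_21_8_2.R : ℤ) d21_21_8_2.H n d21_21_8_2.a d21_21_8_2.b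
    (BlkD.inB (BlkD.upd (fun _ => 0) 2 3)
      (BlkD.upd (fun _ => 21) 0 8)) :=
  BlkD.tree_sound (BlkD.pairOk_sound k21_21_8_2) (by decide) hn t21_21_8_2_5 _ _ (by decide +kernel)

/-- certificates of the pair `(8, 2)`, part 6 -/
def t21_21_8_2_6 : BlkD.Tr :=
  .E 0

lemma s21_21_8_2_6 {n : ℕ} (hn : 5 ≤ n) : NoNd (d21_21_8_2.R : ℤ) d21_21_8_2.H n d21_21_8_2.a d21_21_8_2.b
    (BlkD.inB (BlkD.upd (fun _ => 0) 0 9)
      (fun _ => 21)) :=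
  BlkD.tree_sound (BlkD.pairOk_sound k21_21_8_2) (by decide) hn t21_21_8_2_6 _ _ (by decide +kernel)

lemma pr21_21_8_2 {n : ℕ} (hn : 5 ≤ n) : NoPr ((21 : ℕ) : ℤ) ((21 : ℕ) : ℤ) n 8 2 :=
  BlkD.of_root (R := d21_21_8_2.R) (H := d21_21_8_2.H) (a := d21_21_8_2.a) (b := d21_21_8_2.b) (q := 3) (by decide) hn
    (BlkD.sp 0 8 (BlkD.sp 2 2 (BlkD.sp 0 4 (BlkD.sp 0 2 (BlkD.sp 0 1 (s21_21_8_2_1 hn)
      (s21_21_8_2_2 hn)) (s21_21_8_2_3 hn)) (s21_21_8_2_4 hn)) (s21_21_8_2_5 hn)) (s21_21_8_2_6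
      hn))

/-- the numbers of the pair `(8, 3)`, `R = 21`, `H = 21` -/
def d21_21_8_3 : BlkD.Pd :=
  ⟨21, 21, 3, 8, 3, 7, 3, 2, 1, 4, 12, 0, 4, 1, 8, 0, [0, 12, 24, 31, 32, 33, 34, 35], [0, 8, 15,
    19, 23, 27, 31, 35], [⟨1, 1, 1, 4, 8, [0, 4], [0, 4]⟩, ⟨1, 1, 1, 6, 14, [0, 8], [0, 6]⟩, ⟨1, 1,
    1, 6, 16, [0, 10], [0, 6]⟩, ⟨2, 1, 1, 6, 26, [0, 12, 18], [0, 8]⟩]⟩

lemma k21_21_8_3 : BlkD.pairOk d21_21_8_3 = true := by decide +kernel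

/-- certificates of the pair `(8, 3)`, part 1 -/
def t21_21_8_3_1 : BlkD.Tr :=
  .L 5 7 [4, 4, 5, 5] [] [] 100000 97280 97280 971428 71429 0 85714 57143 0 8163 28571

lemma s21_21_8_3_1 {n : ℕ} (hn : 5 ≤ n) : NoNd (d21_21_8_3.R : ℤ) d21_21_8_3.H n d21_21_8_3.a d21_21_8_3.b
    (BlkD.inB (fun _ => 0)
      (BlkD.upd (BlkD.upd (BlkD.upd (BlkD.upd (BlkD.upd (BlkD.upd (fun _ => 21) 0 8) 2 3) 0 4) 0 2) 0 1) 0 0)) :=
  BlkD.tree_sound (BlkD.pairOk_sound k21_21_8_3) (by decide) hn t21_21_8_3_1 _ _ (by decide +kernel)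

/-- certificates of the pair `(8, 3)`, part 2 -/
def t21_21_8_3_2 : BlkD.Tr :=
  .L 5 7 [4, 4, 5, 5] [] [] 100000 97280 97280 971428 71429 0 85714 57143 0 8163 28571

lemma s21_21_8_3_2 {n : ℕ} (hn : 5 ≤ n) : NoNd (d21_21_8_3.R : ℤ) d21_21_8_3.H n d21_21_8_3.a d21_21_8_3.b
    (BlkD.inB (BlkD.upd (fun _ => 0) 0 1)
      (BlkD.upd (BlkD.upd (BlkD.upd (BlkD.upd (BlkD.upd (BlkD.upd (BlkD.upd (fun _ => 21) 0 8) 2 3) 0 4) 0 2) 0 1) 1 10) 1 5)) :=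
  BlkD.tree_sound (BlkD.pairOk_sound k21_21_8_3) (by decide) hn t21_21_8_3_2 _ _ (by decide +kernel)

/-- certificates of the pair `(8, 3)`, part 3 -/
def t21_21_8_3_3 : BlkD.Tr :=
  .L 5 7 [4, 4, 5, 5] [] [] 100000 97280 97280 971428 71429 0 85714 57143 0 8163 28571

lemma s21_21_8_3_3 {n : ℕ} (hn : 5 ≤ n) : NoNd (d21_21_8_3.R : ℤ) d21_21_8_3.H n d21_21_8_3.a d21_21_8_3.b
    (BlkD.inB (BlkD.upd (BlkD.upd (fun _ => 0) 0 1) 1 6)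
      (BlkD.upd (BlkD.upd (BlkD.upd (BlkD.upd (BlkD.upd (BlkD.upd (fun _ => 21) 0 8) 2 3) 0 4) 0 2) 0 1) 1 10)) :=
  BlkD.tree_sound (BlkD.pairOk_sound k21_21_8_3) (by decide) hn t21_21_8_3_3 _ _ (by decide +kernel)

/-- certificates of the pair `(8, 3)`, part 4 -/
def t21_21_8_3_4 : BlkD.Tr :=
  .L 5 7 [4, 4, 5, 5] [] [] 100000 97280 97280 971428 71429 0 85714 57143 0 8163 28571

lemma s21_21_8_3_4 {n : ℕ} (hn : 5 ≤ n) : NoNd (d21_21_8_3.R : ℤ) d21_21_8_3.H n d21_21_8_3.a d21_21_8_3.b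
    (BlkD.inB (BlkD.upd (BlkD.upd (fun _ => 0) 0 1) 1 11)
      (BlkD.upd (BlkD.upd (BlkD.upd (BlkD.upd (BlkD.upd (fun _ => 21) 0 8) 2 3) 0 4) 0 2) 0 1)) :=
  BlkD.tree_sound (BlkD.pairOk_sound k21_21_8_3) (by decide) hn t21_21_8_3_4 _ _ (by decide +kernel)

/-- certificates of the pair `(8, 3)`, part 5 -/
def t21_21_8_3_5 : BlkD.Tr :=
  .L 5 7 [4, 4, 5, 5] [] [] 100000 97280 97280 971428 71429 0 85714 57143 0 8163 28571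

lemma s21_21_8_3_5 {n : ℕ} (hn : 5 ≤ n) : NoNd (d21_21_8_3.R : ℤ) d21_21_8_3.H n d21_21_8_3.a d21_21_8_3.b
    (BlkD.inB (BlkD.upd (fun _ => 0) 0 2)
      (BlkD.upd (BlkD.upd (BlkD.upd (BlkD.upd (BlkD.upd (BlkD.upd (fun _ => 21) 0 8) 2 3) 0 4) 0 2) 1 10) 1 5)) :=
  BlkD.tree_sound (BlkD.pairOk_sound k21_21_8_3) (by decide) hn t21_21_8_3_5 _ _ (by decide +kernel)

/-- certificates of the pair `(8, 3)`, part 6 -/
def t21_21_8_3_6 : BlkD.Tr :=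
  .L 5 7 [4, 4, 5, 5] [] [] 100000 97280 97280 971428 71429 0 85714 57143 0 8163 28571

lemma s21_21_8_3_6 {n : ℕ} (hn : 5 ≤ n) : NoNd (d21_21_8_3.R : ℤ) d21_21_8_3.H n d21_21_8_3.a d21_21_8_3.b
    (BlkD.inB (BlkD.upd (BlkD.upd (fun _ => 0) 0 2) 1 6)
      (BlkD.upd (BlkD.upd (BlkD.upd (BlkD.upd (BlkD.upd (fun _ => 21) 0 8) 2 3) 0 4) 0 2) 1 10)) :=
  BlkD.tree_sound (BlkD.pairOk_sound k21_21_8_3) (by decide) hn t21_21_8_3_6 _ _ (by decide +kernel)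

/-- certificates of the pair `(8, 3)`, part 7 -/
def t21_21_8_3_7 : BlkD.Tr :=
  .L 5 7 [4, 4, 5, 5] [] [] 100000 97280 97280 971428 71429 0 85714 57143 0 8163 28571

lemma s21_21_8_3_7 {n : ℕ} (hn : 5 ≤ n) : NoNd (d21_21_8_3.R : ℤ) d21_21_8_3.H n d21_21_8_3.a d21_21_8_3.b
    (BlkD.inB (BlkD.upd (BlkD.upd (fun _ => 0) 0 2) 1 11)
      (BlkD.upd (BlkD.upd (BlkD.upd (BlkD.upd (fun _ => 21) 0 8) 2 3) 0 4) 0 2)) :=
  BlkD.tree_sound (BlkD.pairOk_sound k21_21_8_3) (by decide) hn t21_21_8_3_7 _ _ (by decide +kernel)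

/-- certificates of the pair `(8, 3)`, part 8 -/
def t21_21_8_3_8 : BlkD.Tr :=
  .L 5 7 [4, 4, 5, 5] [] [] 100000 44444 44443 1000001 33333 0 33333 66667 0 0 0

lemma s21_21_8_3_8 {n : ℕ} (hn : 5 ≤ n) : NoNd (d21_21_8_3.R : ℤ) d21_21_8_3.H n d21_21_8_3.a d21_21_8_3.b
    (BlkD.inB (BlkD.upd (fun _ => 0) 0 3)
      (BlkD.upd (BlkD.upd (BlkD.upd (BlkD.upd (BlkD.upd (BlkD.upd (BlkD.upd (fun _ => 21) 0 8) 2 3) 0 4) 0 3) 1 18) 1 9) 1 4)) :=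
  BlkD.tree_sound (BlkD.pairOk_sound k21_21_8_3) (by decide) hn t21_21_8_3_8 _ _ (by decide +kernel)

/-- certificates of the pair `(8, 3)`, part 9 -/
def t21_21_8_3_9 : BlkD.Tr :=
  .S 1 7 (.S 1 6 (.L 5 7 [4, 4, 5, 5] [] [] 100000 22222 22221 1233335 22222 0 22222 33333 0 33333
    33333) (.L 5 7 [4, 4, 5, 5] [135, 134, 133, 127, 120, 108] [] 100000 25758 25758 1236366 31818
    0 54545 40909 0 27273 22727)) (.S 1 8 (.L 5 7 [4, 4, 5, 5] [156, 155, 154, 153, 147, 140] []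
    100000 50156 50156 1178506 48598 0 62150 32710 0 17757 25234) (.L 5 7 [4, 4, 5, 5] [179, 178,
    177, 176, 175, 169] [] 100000 40541 40540 1208110 48649 0 72973 29730 0 21622 24324))

lemma s21_21_8_3_9 {n : ℕ} (hn : 5 ≤ n) : NoNd (d21_21_8_3.R : ℤ) d21_21_8_3.H n d21_21_8_3.a d21_21_8_3.b
    (BlkD.inB (BlkD.upd (BlkD.upd (fun _ => 0) 0 3) 1 5)
      (BlkD.upd (BlkD.upd (BlkD.upd (BlkD.upd (BlkD.upd (BlkD.upd (fun _ => 21) 0 8) 2 3) 0 4) 0 3) 1 18) 1 9)) :=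
  BlkD.tree_sound (BlkD.pairOk_sound k21_21_8_3) (by decide) hn t21_21_8_3_9 _ _ (by decide +kernel)

/-- certificates of the pair `(8, 3)`, part 10 -/
def t21_21_8_3_10 : BlkD.Tr :=
  .S 1 14 (.S 1 12 (.S 1 11 (.S 1 10 (.L 5 7 [4, 4, 5, 5] [204, 203, 202, 201, 200, 199] [] 100000
    62394 62394 1125643 66667 0 74359 25641 0 15385 23077) (.L 5 7 [4, 4, 5, 5] [231, 230, 229,
    228, 227, 226] [] 100000 100000 100000 900000 100000 0 100000 0 0 0 0)) (.L 5 7 [4, 4, 5, 5]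
    [260, 259, 258, 257, 256, 255] [] 100000 175000 0 75000 150000 0 275000 0 0 0 0)) (.E 0)) (.E
    0)

lemma s21_21_8_3_10 {n : ℕ} (hn : 5 ≤ n) : NoNd (d21_21_8_3.R : ℤ) d21_21_8_3.H n d21_21_8_3.a d21_21_8_3.b
    (BlkD.inB (BlkD.upd (BlkD.upd (fun _ => 0) 0 3) 1 10)
      (BlkD.upd (BlkD.upd (BlkD.upd (BlkD.upd (BlkD.upd (fun _ => 21) 0 8) 2 3) 0 4) 0 3) 1 18)) :=
  BlkD.tree_sound (BlkD.pairOk_sound k21_21_8_3) (by decide) hn t21_21_8_3_10 _ _ (by decide +kernel)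

/-- certificates of the pair `(8, 3)`, part 11 -/
def t21_21_8_3_11 : BlkD.Tr :=
  .E 0

lemma s21_21_8_3_11 {n : ℕ} (hn : 5 ≤ n) : NoNd (d21_21_8_3.R : ℤ) d21_21_8_3.H n d21_21_8_3.a d21_21_8_3.b
    (BlkD.inB (BlkD.upd (BlkD.upd (fun _ => 0) 0 3) 1 19)
      (BlkD.upd (BlkD.upd (BlkD.upd (BlkD.upd (fun _ => 21) 0 8) 2 3) 0 4) 0 3)) :=
  BlkD.tree_sound (BlkD.pairOk_sound k21_21_8_3) (by decide) hn t21_21_8_3_11 _ _ (by decide +kernel)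

/-- certificates of the pair `(8, 3)`, part 12 -/
def t21_21_8_3_12 : BlkD.Tr :=
  .L 5 7 [4, 4, 5, 5] [] [] 100000 35220 35219 1115094 28302 0 28302 71698 0 7547 7547

lemma s21_21_8_3_12 {n : ℕ} (hn : 5 ≤ n) : NoNd (d21_21_8_3.R : ℤ) d21_21_8_3.H n d21_21_8_3.a d21_21_8_3.b
    (BlkD.inB (BlkD.upd (BlkD.upd (fun _ => 0) 0 3) 0 4)
      (BlkD.upd (BlkD.upd (BlkD.upd (BlkD.upd (BlkD.upd (BlkD.upd (fun _ => 21) 0 8) 2 3) 0 4) 1 17) 1 8) 1 4)) :=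
  BlkD.tree_sound (BlkD.pairOk_sound k21_21_8_3) (by decide) hn t21_21_8_3_12 _ _ (by decide +kernel)

/-- certificates of the pair `(8, 3)`, part 13 -/
def t21_21_8_3_13 : BlkD.Tr :=
  .S 1 5 (.L 5 7 [4, 4, 5, 5] [109, 103, 96, 84, 72, 60] [] 100000 22222 22221 1233333 25000 0
    25000 41667 0 33333 33333) (.L 5 7 [4, 4, 5, 5] [128, 127, 121, 114, 102, 90] [] 100000 25000
    25000 1275000 25000 0 25000 75000 0 25000 25000)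

lemma s21_21_8_3_13 {n : ℕ} (hn : 5 ≤ n) : NoNd (d21_21_8_3.R : ℤ) d21_21_8_3.H n d21_21_8_3.a d21_21_8_3.b
    (BlkD.inB (BlkD.upd (BlkD.upd (BlkD.upd (fun _ => 0) 0 3) 0 4) 1 5)
      (BlkD.upd (BlkD.upd (BlkD.upd (BlkD.upd (BlkD.upd (BlkD.upd (fun _ => 21) 0 8) 2 3) 0 4) 1 17) 1 8) 1 6)) :=
  BlkD.tree_sound (BlkD.pairOk_sound k21_21_8_3) (by decide) hn t21_21_8_3_13 _ _ (by decide +kernel)

/-- certificates of the pair `(8, 3)`, part 14 -/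
def t21_21_8_3_14 : BlkD.Tr :=
  .S 2 1 (.S 2 0 (.L 5 7 [4, 4, 5, 5] [149, 148, 147, 141, 134, 122] [] 100000 33333 33332 1166667
    25000 0 58333 100000 0 0 29167) (.S 3 9 (.S 3 4 (.S 3 2 (.L 5 7 [4, 4, 5, 5] [149, 148, 147,
    141, 134, 122] [] 100000 23596 23596 1301126 28839 10487 46067 37453 1124 26966 26966) (.S 3 3
    (.L 6 9 [4, 4, 5, 4] [149, 148, 147, 141, 134, 122] [39, 32, 24, 12, 0, 0] 100000 24680 24680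
    1286538 35577 0 58173 35577 1923 24519 22115) (.L 6 9 [4, 4, 5, 4] [149, 148, 147, 141, 134,
    122] [53, 47, 40, 32, 20, 0] 100000 70000 70000 1110000 60000 0 60000 70000 0 10000 10000)))
    (.E 1)) (.E 1))) (.L 6 9 [4, 4, 5, 4] [149, 148, 147, 141, 134, 122] [] 100000 26984 26984
    1285716 38095 0 57143 28571 0 28571 23810)

lemma s21_21_8_3_14 {n : ℕ} (hn : 5 ≤ n) : NoNd (d21_21_8_3.R : ℤ) d21_21_8_3.H n d21_21_8_3.a d21_21_8_3.b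
    (BlkD.inB (BlkD.upd (BlkD.upd (BlkD.upd (BlkD.upd (fun _ => 0) 0 3) 0 4) 1 5) 1 7)
      (BlkD.upd (BlkD.upd (BlkD.upd (BlkD.upd (BlkD.upd (BlkD.upd (fun _ => 21) 0 8) 2 3) 0 4) 1 17) 1 8) 1 7)) :=
  BlkD.tree_sound (BlkD.pairOk_sound k21_21_8_3) (by decide) hn t21_21_8_3_14 _ _ (by decide +kernel)

/-- certificates of the pair `(8, 3)`, part 15 -/
def t21_21_8_3_15 : BlkD.Tr :=
  .S 2 1 (.S 2 0 (.L 6 9 [4, 4, 5, 4] [172, 171, 170, 169, 163, 156] [] 100000 33333 33332 1160000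
    20000 0 100000 80000 0 0 20000) (.S 3 8 (.S 3 4 (.S 3 2 (.L 5 7 [4, 4, 5, 5] [172, 171, 170,
    169, 163, 156] [] 100000 22222 22221 1300001 33333 0 66667 33333 0 33333 33333) (.L 5 7 [4, 4,
    5, 5] [172, 171, 170, 169, 163, 156] [] 100000 41667 41667 1225000 50000 0 75000 25000 0 50000
    25000)) (.E 1)) (.E 1))) (.S 2 2 (.S 3 7 (.S 3 3 (.S 3 1 (.L 5 7 [4, 4, 5, 5] [172, 171, 170,
    169, 163, 156] [] 100000 26190 26189 1278573 35714 0 67857 14286 0 21429 21429) (.L 5 7 [4, 4,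
    5, 5] [172, 171, 170, 169, 163, 156] [] 100000 58333 58333 1158336 58333 0 83333 25000 0 50000
    25000)) (.E 1)) (.E 1)) (.L 5 7 [4, 4, 5, 5] [172, 171, 170, 169, 163, 156] [] 100000 41667
    41667 1175000 50000 0 75000 0 0 50000 25000))

lemma s21_21_8_3_15 {n : ℕ} (hn : 5 ≤ n) : NoNd (d21_21_8_3.R : ℤ) d21_21_8_3.H n d21_21_8_3.a d21_21_8_3.b
    (BlkD.inB (BlkD.upd (BlkD.upd (BlkD.upd (BlkD.upd (BlkD.upd (fun _ => 0) 0 3) 0 4) 1 5) 1 7) 1 8)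
      (BlkD.upd (BlkD.upd (BlkD.upd (BlkD.upd (BlkD.upd (fun _ => 21) 0 8) 2 3) 0 4) 1 17) 1 8)) :=
  BlkD.tree_sound (BlkD.pairOk_sound k21_21_8_3) (by decide) hn t21_21_8_3_15 _ _ (by decide +kernel)

/-- certificates of the pair `(8, 3)`, part 16 -/
def t21_21_8_3_16 : BlkD.Tr :=
  .S 1 13 (.S 1 11 (.S 1 10 (.S 1 9 (.S 2 1 (.S 2 0 (.L 5 7 [4, 4, 5, 5] [197, 196, 195, 194, 193,
    187] [] 100000 41026 41025 1130769 38462 0 84615 69231 0 0 15385) (.S 3 7 (.S 3 3 (.L 5 7 [4,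
    4, 5, 5] [197, 196, 195, 194, 193, 187] [] 100000 26882 26882 1290323 33871 0 87097 32258 0
    22581 19355) (.L 5 7 [4, 4, 5, 5] [197, 196, 195, 194, 193, 187] [] 100000 105263 105263 936844
    78947 0 100000 89474 0 5263 5263)) (.E 1))) (.L 5 7 [4, 4, 5, 5] [197, 196, 195, 194, 193, 187]
    [] 100000 47619 47619 1200001 42857 0 100000 42857 0 14286 14286)) (.L 5 7 [4, 4, 5, 5] [224,
    223, 222, 221, 220, 219] [] 100000 55696 55696 1096205 60759 0 100000 39241 0 8861 22785)) (.E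
    0)) (.E 0)) (.E 0)

lemma s21_21_8_3_16 {n : ℕ} (hn : 5 ≤ n) : NoNd (d21_21_8_3.R : ℤ) d21_21_8_3.H n d21_21_8_3.a d21_21_8_3.b
    (BlkD.inB (BlkD.upd (BlkD.upd (BlkD.upd (fun _ => 0) 0 3) 0 4) 1 9)
      (BlkD.upd (BlkD.upd (BlkD.upd (BlkD.upd (fun _ => 21) 0 8) 2 3) 0 4) 1 17)) :=
  BlkD.tree_sound (BlkD.pairOk_sound k21_21_8_3) (by decide) hn t21_21_8_3_16 _ _ (by decide +kernel)

/-- certificates of the pair `(8, 3)`, part 17 -/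
def t21_21_8_3_17 : BlkD.Tr :=
  .E 0

lemma s21_21_8_3_17 {n : ℕ} (hn : 5 ≤ n) : NoNd (d21_21_8_3.R : ℤ) d21_21_8_3.H n d21_21_8_3.a d21_21_8_3.b
    (BlkD.inB (BlkD.upd (BlkD.upd (BlkD.upd (fun _ => 0) 0 3) 0 4) 1 18)
      (BlkD.upd (BlkD.upd (BlkD.upd (fun _ => 21) 0 8) 2 3) 0 4)) :=
  BlkD.tree_sound (BlkD.pairOk_sound k21_21_8_3) (by decide) hn t21_21_8_3_17 _ _ (by decide +kernel)

/-- certificates of the pair `(8, 3)`, part 18 -/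
def t21_21_8_3_18 : BlkD.Tr :=
  .L 5 7 [4, 4, 5, 5] [] [] 100000 22222 22221 1233333 25000 0 25000 66667 0 33333 33333

lemma s21_21_8_3_18 {n : ℕ} (hn : 5 ≤ n) : NoNd (d21_21_8_3.R : ℤ) d21_21_8_3.H n d21_21_8_3.a d21_21_8_3.b
    (BlkD.inB (BlkD.upd (fun _ => 0) 0 5)
      (BlkD.upd (BlkD.upd (BlkD.upd (BlkD.upd (BlkD.upd (BlkD.upd (BlkD.upd (fun _ => 21) 0 8) 2 3) 0 6) 0 5) 1 16) 1 8) 1 4)) :=
  BlkD.tree_sound (BlkD.pairOk_sound k21_21_8_3) (by decide) hn t21_21_8_3_18 _ _ (by decide +kernel)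

/-- certificates of the pair `(8, 3)`, part 19 -/
def t21_21_8_3_19 : BlkD.Tr :=
  .S 2 1 (.S 2 0 (.L 5 7 [4, 4, 5, 5] [119, 113, 106, 94, 82, 70] [] 100000 33333 33332 1175000
    25000 0 37500 75000 0 0 12500) (.S 3 10 (.S 3 5 (.S 3 2 (.L 5 7 [4, 4, 5, 5] [119, 113, 106,
    94, 82, 70] [] 100000 23810 23810 1271429 28571 0 57143 28571 0 28571 28571) (.S 3 4 (.S 3 3
    (.L 5 7 [4, 4, 5, 5] [119, 113, 106, 94, 82, 70] [39, 32, 24, 12, 0, 0] 100000 23810 23810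
    1285716 28571 0 28571 28571 0 28571 28571) (.S 4 5 (.S 4 2 (.L 6 9 [4, 4, 5, 4] [94, 82, 70, 0,
    0, 0] [53, 47, 40, 32, 20, 0] 100000 27273 27272 1263635 38182 0 38182 45455 0 18182 18182) (.L
    6 9 [4, 4, 5, 4] [119, 113, 106, 94, 82, 70] [53, 47, 40, 32, 20, 0] 100000 56250 0 906250
    37500 0 156250 50000 0 0 25000)) (.E 2))) (.E 1))) (.E 1)) (.E 1))) (.S 2 2 (.S 3 9 (.S 3 4 (.S
    3 2 (.L 6 9 [4, 4, 5, 4] [119, 113, 106, 94, 82, 70] [] 100000 24667 24667 1280000 30000 0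
    60000 46000 0 26000 26000) (.S 3 3 (.S 4 5 (.S 4 2 (.L 6 9 [4, 4, 5, 4] [94, 82, 70, 0, 0, 0]
    [45, 38, 30, 18, 0, 0] 100000 27273 27272 1263635 38182 0 38182 45455 0 18182 18182) (.L 6 9
    [4, 4, 5, 4] [119, 113, 106, 94, 82, 70] [45, 38, 30, 18, 0, 0] 100000 56250 0 906250 37500 0
    156250 50000 0 0 25000)) (.E 2)) (.E 1))) (.E 1)) (.E 1)) (.L 6 9 [4, 4, 5, 4] [119, 113, 106,
    94, 82, 70] [] 100000 22222 22221 1266668 33333 0 33333 0 0 33333 33333))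

lemma s21_21_8_3_19 {n : ℕ} (hn : 5 ≤ n) : NoNd (d21_21_8_3.R : ℤ) d21_21_8_3.H n d21_21_8_3.a d21_21_8_3.b
    (BlkD.inB (BlkD.upd (BlkD.upd (fun _ => 0) 0 5) 1 5)
      (BlkD.upd (BlkD.upd (BlkD.upd (BlkD.upd (BlkD.upd (BlkD.upd (BlkD.upd (BlkD.upd (fun _ => 21) 0 8) 2 3) 0 6) 0 5) 1 16) 1 8) 1 6) 1 5)) :=
  BlkD.tree_sound (BlkD.pairOk_sound k21_21_8_3) (by decide) hn t21_21_8_3_19 _ _ (by decide +kernel)

/-- certificates of the pair `(8, 3)`, part 20 -/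
def t21_21_8_3_20 : BlkD.Tr :=
  .S 2 1 (.S 2 0 (.L 6 9 [4, 4, 5, 4] [140, 139, 133, 126, 114, 102] [] 100000 33333 33332 1166667
    33333 0 66667 66667 0 0 16667) (.S 3 9 (.S 3 4 (.S 3 2 (.L 5 7 [4, 4, 5, 5] [140, 139, 133,
    126, 114, 102] [] 100000 23156 23156 1306661 28176 8811 72234 47541 2766 27459 25000) (.S 3 3
    (.L 6 9 [4, 4, 5, 4] [140, 139, 133, 126, 114, 102] [39, 32, 24, 12, 0, 0] 100000 25333 25332
    1284000 36000 0 72000 36000 0 24000 24000) (.S 4 6 (.S 4 3 (.L 6 9 [4, 4, 5, 4] [126, 114, 102,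
    90, 0, 0] [53, 47, 40, 32, 20, 0] 100000 26532 26532 1291834 38776 0 69388 44898 0 20408 20408)
    (.L 6 9 [4, 4, 5, 4] [140, 139, 133, 126, 114, 102] [53, 47, 40, 32, 20, 0] 100000 116668 1
    483331 16667 0 216667 216667 0 0 25000)) (.E 2)))) (.E 1)) (.E 1))) (.S 2 2 (.S 3 8 (.S 3 4 (.S
    3 2 (.S 3 1 (.L 5 7 [4, 4, 5, 5] [140, 139, 133, 126, 114, 102] [] 100000 25927 25927 1285184
    29630 0 77778 25926 0 22222 25926) (.L 6 9 [4, 4, 5, 4] [140, 139, 133, 126, 114, 102] [30, 22,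
    10, 0, 0, 0] 100000 25333 25332 1284000 36000 0 72000 36000 0 24000 24000)) (.S 3 3 (.S 4 6 (.S
    4 3 (.L 6 9 [4, 4, 5, 4] [126, 114, 102, 90, 0, 0] [45, 38, 30, 18, 0, 0] 100000 26532 26532
    1291834 38776 0 69388 44898 0 20408 20408) (.L 6 9 [4, 4, 5, 4] [140, 139, 133, 126, 114, 102]
    [45, 38, 30, 18, 0, 0] 100000 116668 1 483331 16667 0 216667 216667 0 0 25000)) (.E 2)) (.E
    1))) (.E 1)) (.E 1)) (.L 6 9 [4, 4, 5, 4] [140, 139, 133, 126, 114, 102] [] 100000 25000 25000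
    1287500 37500 0 75000 0 0 25000 25000))

lemma s21_21_8_3_20 {n : ℕ} (hn : 5 ≤ n) : NoNd (d21_21_8_3.R : ℤ) d21_21_8_3.H n d21_21_8_3.a d21_21_8_3.b
    (BlkD.inB (BlkD.upd (BlkD.upd (BlkD.upd (fun _ => 0) 0 5) 1 5) 1 6)
      (BlkD.upd (BlkD.upd (BlkD.upd (BlkD.upd (BlkD.upd (BlkD.upd (BlkD.upd (fun _ => 21) 0 8) 2 3) 0 6) 0 5) 1 16) 1 8) 1 6)) :=
  BlkD.tree_sound (BlkD.pairOk_sound k21_21_8_3) (by decide) hn t21_21_8_3_20 _ _ (by decide +kernel)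

/-- certificates of the pair `(8, 3)`, part 21 -/
def t21_21_8_3_21 : BlkD.Tr :=
  .S 2 1 (.S 2 0 (.L 6 9 [4, 4, 5, 4] [163, 162, 161, 155, 148, 136] [] 100000 33333 33332 1166668
    33333 0 83333 66667 0 0 16667) (.S 3 8 (.S 3 4 (.S 3 2 (.L 6 9 [4, 4, 5, 4] [163, 162, 161,
    155, 148, 136] [] 100000 27865 27865 1278125 34375 9375 84375 35156 0 16406 16406) (.S 3 3 (.S
    4 7 (.S 4 3 (.L 6 9 [4, 4, 5, 4] [148, 136, 124, 112, 0, 0] [39, 32, 24, 12, 0, 0] 100000 27778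
    27777 1250693 46528 0 93750 22917 0 23611 16667) (.L 6 9 [4, 4, 5, 4] [163, 162, 161, 155, 148,
    136] [39, 32, 24, 12, 0, 0] 100000 27586 20688 1168966 31034 0 106897 17241 0 17241 17241)) (.E
    2)) (.S 4 7 (.S 4 3 (.L 6 9 [4, 4, 5, 4] [148, 136, 124, 112, 0, 0] [53, 47, 40, 32, 20, 0]
    100000 33334 33334 1233333 50000 0 100000 16667 0 16667 16667) (.L 6 9 [4, 4, 5, 4] [163, 162,
    161, 155, 148, 136] [53, 47, 40, 32, 20, 0] 100000 36365 1 1045452 27273 0 136364 27273 0 9091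
    18182)) (.E 2)))) (.E 1)) (.E 1))) (.S 2 2 (.S 3 7 (.S 3 3 (.S 3 1 (.L 6 9 [4, 4, 5, 4] [163,
    162, 161, 155, 148, 136] [] 100000 27839 27838 1273626 34066 12088 90110 34066 0 21978 16484)
    (.S 3 2 (.S 4 7 (.S 4 3 (.L 6 9 [4, 4, 5, 4] [148, 136, 124, 112, 0, 0] [30, 22, 10, 0, 0, 0]
    100000 27661 27661 1251062 46809 0 93617 21277 0 23404 17021) (.L 6 9 [4, 4, 5, 4] [163, 162,
    161, 155, 148, 136] [30, 22, 10, 0, 0, 0] 100000 27586 20688 1168966 31034 0 106897 17241 0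
    17241 17241)) (.E 2)) (.S 4 7 (.S 4 3 (.L 6 9 [4, 4, 5, 4] [148, 136, 124, 112, 0, 0] [45, 38,
    30, 18, 0, 0] 100000 33334 33334 1233333 50000 0 100000 16667 0 16667 16667) (.L 6 9 [4, 4, 5,
    4] [163, 162, 161, 155, 148, 136] [45, 38, 30, 18, 0, 0] 100000 36365 1 1045452 27273 0 136364
    27273 0 9091 18182)) (.E 2)))) (.E 1)) (.E 1)) (.L 6 9 [4, 4, 5, 4] [163, 162, 161, 155, 148,
    136] [] 100000 26829 26828 1258538 41463 0 87805 0 0 34146 19512))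

lemma s21_21_8_3_21 {n : ℕ} (hn : 5 ≤ n) : NoNd (d21_21_8_3.R : ℤ) d21_21_8_3.H n d21_21_8_3.a d21_21_8_3.b
    (BlkD.inB (BlkD.upd (BlkD.upd (BlkD.upd (fun _ => 0) 0 5) 1 5) 1 7)
      (BlkD.upd (BlkD.upd (BlkD.upd (BlkD.upd (BlkD.upd (BlkD.upd (BlkD.upd (fun _ => 21) 0 8) 2 3) 0 6) 0 5) 1 16) 1 8) 1 7)) :=
  BlkD.tree_sound (BlkD.pairOk_sound k21_21_8_3) (by decide) hn t21_21_8_3_21 _ _ (by decide +kernel)

/-- certificates of the pair `(8, 3)`, part 22 -/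
def t21_21_8_3_22 : BlkD.Tr :=
  .L 6 9 [4, 4, 5, 4] [188, 187, 186, 185, 179, 172] [] 100000 29630 29630 1259725 48611 0 79861
    37500 0 16667 22917

lemma s21_21_8_3_22 {n : ℕ} (hn : 5 ≤ n) : NoNd (d21_21_8_3.R : ℤ) d21_21_8_3.H n d21_21_8_3.a d21_21_8_3.b
    (BlkD.inB (BlkD.upd (BlkD.upd (BlkD.upd (BlkD.upd (fun _ => 0) 0 5) 1 5) 1 7) 1 8)
      (BlkD.upd (BlkD.upd (BlkD.upd (BlkD.upd (BlkD.upd (BlkD.upd (fun _ => 21) 0 8) 2 3) 0 6) 0 5) 1 16) 1 8)) :=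
  BlkD.tree_sound (BlkD.pairOk_sound k21_21_8_3) (by decide) hn t21_21_8_3_22 _ _ (by decide +kernel)

/-- certificates of the pair `(8, 3)`, part 23 -/
def t21_21_8_3_23 : BlkD.Tr :=
  .L 6 9 [4, 4, 5, 4] [] [] 100000 25676 25676 1275676 8108 0 100000 45946 0 22973 25000

lemma s21_21_8_3_23 {n : ℕ} (hn : 5 ≤ n) : NoNd (d21_21_8_3.R : ℤ) d21_21_8_3.H n d21_21_8_3.a d21_21_8_3.b
    (BlkD.inB (BlkD.upd (BlkD.upd (fun _ => 0) 0 5) 1 9)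
      (BlkD.upd (BlkD.upd (BlkD.upd (BlkD.upd (BlkD.upd (fun _ => 21) 0 8) 2 3) 0 6) 0 5) 1 16)) :=
  BlkD.tree_sound (BlkD.pairOk_sound k21_21_8_3) (by decide) hn t21_21_8_3_23 _ _ (by decide +kernel)

/-- certificates of the pair `(8, 3)`, part 24 -/
def t21_21_8_3_24 : BlkD.Tr :=
  .E 0

lemma s21_21_8_3_24 {n : ℕ} (hn : 5 ≤ n) : NoNd (d21_21_8_3.R : ℤ) d21_21_8_3.H n d21_21_8_3.a d21_21_8_3.b
    (BlkD.inB (BlkD.upd (BlkD.upd (fun _ => 0) 0 5) 1 17)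
      (BlkD.upd (BlkD.upd (BlkD.upd (BlkD.upd (fun _ => 21) 0 8) 2 3) 0 6) 0 5)) :=
  BlkD.tree_sound (BlkD.pairOk_sound k21_21_8_3) (by decide) hn t21_21_8_3_24 _ _ (by decide +kernel)

/-- certificates of the pair `(8, 3)`, part 25 -/
def t21_21_8_3_25 : BlkD.Tr :=
  .S 1 15 (.S 1 7 (.S 1 3 (.L 6 9 [4, 4, 5, 4] [] [] 100000 23810 23810 1257143 42857 0 42857 42857
    0 28571 28571) (.S 1 5 (.S 1 4 (.L 6 9 [4, 4, 5, 4] [103, 96, 84, 72, 60, 0] [] 100000 21616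
    21616 1305761 34545 0 83333 45455 5758 23636 30909) (.L 6 9 [4, 4, 5, 4] [129, 123, 116, 104,
    92, 80] [] 100000 22644 22644 1305998 31334 0 94002 35251 4651 22766 25337)) (.S 1 6 (.L 6 9
    [4, 4, 5, 4] [152, 151, 145, 138, 126, 114] [] 100000 22482 22482 1308186 34442 0 88489 37140
    5126 22302 25000) (.L 6 9 [4, 4, 5, 4] [177, 176, 175, 169, 162, 150] [] 100000 24242 24241
    1233335 33333 0 100000 39394 15152 12121 16667)))) (.E 0)) (.E 0)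

lemma s21_21_8_3_25 {n : ℕ} (hn : 5 ≤ n) : NoNd (d21_21_8_3.R : ℤ) d21_21_8_3.H n d21_21_8_3.a d21_21_8_3.b
    (BlkD.inB (BlkD.upd (BlkD.upd (fun _ => 0) 0 5) 0 6)
      (BlkD.upd (BlkD.upd (BlkD.upd (fun _ => 21) 0 8) 2 3) 0 6)) :=
  BlkD.tree_sound (BlkD.pairOk_sound k21_21_8_3) (by decide) hn t21_21_8_3_25 _ _ (by decide +kernel)

/-- certificates of the pair `(8, 3)`, part 26 -/
def t21_21_8_3_26 : BlkD.Tr :=
  .S 0 7 (.S 1 14 (.S 1 7 (.S 1 3 (.L 6 9 [4, 4, 5, 4] [] [] 100000 14286 14286 1300002 33333 0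
    85714 71429 14286 28571 33333) (.L 6 9 [4, 4, 5, 4] [] [] 100000 19277 19277 1293977 6024 0
    100000 72289 14458 27711 27711)) (.E 0)) (.E 0)) (.L 6 9 [4, 4, 5, 4] [] [] 100000 0 0 1308930
    0 0 91071 30357 52679 38393 43750)

lemma s21_21_8_3_26 {n : ℕ} (hn : 5 ≤ n) : NoNd (d21_21_8_3.R : ℤ) d21_21_8_3.H n d21_21_8_3.a d21_21_8_3.b
    (BlkD.inB (BlkD.upd (BlkD.upd (fun _ => 0) 0 5) 0 7)
      (BlkD.upd (BlkD.upd (fun _ => 21) 0 8) 2 3)) :=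
  BlkD.tree_sound (BlkD.pairOk_sound k21_21_8_3) (by decide) hn t21_21_8_3_26 _ _ (by decide +kernel)

/-- certificates of the pair `(8, 3)`, part 27 -/
def t21_21_8_3_27 : BlkD.Tr :=
  .E 1

lemma s21_21_8_3_27 {n : ℕ} (hn : 5 ≤ n) : NoNd (d21_21_8_3.R : ℤ) d21_21_8_3.H n d21_21_8_3.a d21_21_8_3.b
    (BlkD.inB (BlkD.upd (fun _ => 0) 2 4)
      (BlkD.upd (fun _ => 21) 0 8)) :=
  BlkD.tree_sound (BlkD.pairOk_sound k21_21_8_3) (by decide) hn t21_21_8_3_27 _ _ (by decide +kernel)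

/-- certificates of the pair `(8, 3)`, part 28 -/
def t21_21_8_3_28 : BlkD.Tr :=
  .E 0

lemma s21_21_8_3_28 {n : ℕ} (hn : 5 ≤ n) : NoNd (d21_21_8_3.R : ℤ) d21_21_8_3.H n d21_21_8_3.a d21_21_8_3.b
    (BlkD.inB (BlkD.upd (fun _ => 0) 0 9)
      (fun _ => 21)) :=
  BlkD.tree_sound (BlkD.pairOk_sound k21_21_8_3) (by decide) hn t21_21_8_3_28 _ _ (by decide +kernel)

lemma pr21_21_8_3 {n : ℕ} (hn : 5 ≤ n) : NoPr ((21 : ℕ) : ℤ) ((21 : ℕ) : ℤ) n 8 3 :=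
  BlkD.of_root (R := d21_21_8_3.R) (H := d21_21_8_3.H) (a := d21_21_8_3.a) (b := d21_21_8_3.b) (q := 3) (by decide) hn
    (BlkD.sp 0 8 (BlkD.sp 2 3 (BlkD.sp 0 4 (BlkD.sp 0 2 (BlkD.sp 0 1 (BlkD.sp 0 0 (s21_21_8_3_1 hn)
      (BlkD.sp 1 10 (BlkD.sp 1 5 (s21_21_8_3_2 hn) (s21_21_8_3_3 hn)) (s21_21_8_3_4 hn))) (BlkD.sp
      1 10 (BlkD.sp 1 5 (s21_21_8_3_5 hn) (s21_21_8_3_6 hn)) (s21_21_8_3_7 hn))) (BlkD.sp 0 3
      (BlkD.sp 1 18 (BlkD.sp 1 9 (BlkD.sp 1 4 (s21_21_8_3_8 hn) (s21_21_8_3_9 hn)) (s21_21_8_3_10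
      hn)) (s21_21_8_3_11 hn)) (BlkD.sp 1 17 (BlkD.sp 1 8 (BlkD.sp 1 4 (s21_21_8_3_12 hn) (BlkD.sp
      1 6 (s21_21_8_3_13 hn) (BlkD.sp 1 7 (s21_21_8_3_14 hn) (s21_21_8_3_15 hn)))) (s21_21_8_3_16
      hn)) (s21_21_8_3_17 hn)))) (BlkD.sp 0 6 (BlkD.sp 0 5 (BlkD.sp 1 16 (BlkD.sp 1 8 (BlkD.sp 1 4
      (s21_21_8_3_18 hn) (BlkD.sp 1 6 (BlkD.sp 1 5 (s21_21_8_3_19 hn) (s21_21_8_3_20 hn)) (BlkD.sp
      1 7 (s21_21_8_3_21 hn) (s21_21_8_3_22 hn)))) (s21_21_8_3_23 hn)) (s21_21_8_3_24 hn))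
      (s21_21_8_3_25 hn)) (s21_21_8_3_26 hn))) (s21_21_8_3_27 hn)) (s21_21_8_3_28 hn))

end BlkC

end Pool.Agent.Lib.MP_f04ccf_co
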