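import Pool.Agent.Lib.MP_f04ccf_co.M.BlkT

/-!
MP_f04ccf_co, block certificate, data `R = 21`, `H = 22`, part 1 (generated, helper99:
bd10.cpp, gen2.py).
-/

set_option autoImplicit false
set_option maxRecDepth 100000

namespace Pool.Agent.Lib.MP_f04ccf_co

namespace BlkC

/-- the numbers of the pair `(0, 0)`, `R = 21`, `H = 22` -/
def d21_22_0_0 : BlkD.Pd :=
  ⟨21, 22, 5, 0, 0, 19, 0, 1, 0, 4, 4, 0, 0, 4, 4, 0, [0, 4, 8, 12, 16, 20, 24, 28, 32, 36, 40, 44,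
    48, 52, 56, 60, 64, 68, 72, 76], [0, 4, 8, 12, 16, 20, 24, 28, 32, 36, 40, 44, 48, 52, 56, 60,
    64, 68, 72, 76], [⟨1, 1, 1, 4, 8, [0, 4], [0, 4]⟩]⟩

/-- the certificates of the pair `(0, 0)` -/
def t21_22_0_0 : BlkD.Tr :=
  .S 0 0 (.S 2 0 (.L 4 4 [4] [] [] 100000 0 0 100000 0 0 100000 0 0 0 0) (.E 1)) (.E 0)

lemma pr21_22_0_0 {n : ℕ} (hn : 7 ≤ n) : NoPr ((21 : ℕ) : ℤ) ((22 : ℕ) : ℤ) n 0 0 :=
  BlkD.pair_sound (d := d21_22_0_0) (by decide +kernel) hn (by decide) (tr := t21_22_0_0)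
    (by decide +kernel) rfl rfl rfl rfl

/-- the numbers of the pair `(1, 0)`, `R = 21`, `H = 22` -/
def d21_22_1_0 : BlkD.Pd :=
  ⟨21, 22, 5, 1, 0, 18, 0, 1, 0, 4, 4, 0, 0, 4, 4, 0, [0, 4, 8, 12, 16, 20, 24, 28, 32, 36, 40, 44,
    48, 52, 56, 60, 64, 68, 72], [0, 4, 8, 12, 16, 20, 24, 28, 32, 36, 40, 44, 48, 52, 56, 60, 64,
    68, 72], [⟨1, 1, 1, 4, 8, [0, 4], [0, 4]⟩]⟩

/-- the certificates of the pair `(1, 0)` -/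
def t21_22_1_0 : BlkD.Tr :=
  .S 0 1 (.S 2 0 (.L 4 4 [4] [] [] 100000 0 0 200000 0 0 0 100000 0 0 0) (.E 1)) (.E 0)

lemma pr21_22_1_0 {n : ℕ} (hn : 7 ≤ n) : NoPr ((21 : ℕ) : ℤ) ((22 : ℕ) : ℤ) n 1 0 :=
  BlkD.pair_sound (d := d21_22_1_0) (by decide +kernel) hn (by decide) (tr := t21_22_1_0)
    (by decide +kernel) rfl rfl rfl rfl

/-- the numbers of the pair `(1, 1)`, `R = 21`, `H = 22` -/
def d21_22_1_1 : BlkD.Pd :=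
  ⟨21, 22, 5, 1, 1, 17, 1, 1, 0, 4, 4, 0, 0, 4, 4, 0, [0, 4, 8, 12, 16, 20, 24, 28, 32, 36, 40, 44,
    48, 52, 56, 60, 64, 68], [0, 4, 8, 12, 16, 20, 24, 28, 32, 36, 40, 44, 48, 52, 56, 60, 64, 68],
    [⟨1, 1, 1, 4, 8, [0, 4], [0, 4]⟩, ⟨1, 1, 1, 4, 8, [0, 4], [0, 4]⟩]⟩

/-- the certificates of the pair `(1, 1)` -/
def t21_22_1_1 : BlkD.Tr :=
  .S 0 1 (.S 2 1 (.L 4 4 [4, 4] [] [] 100000 0 0 400000 0 0 0 0 0 0 0) (.E 1)) (.E 0)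

lemma pr21_22_1_1 {n : ℕ} (hn : 7 ≤ n) : NoPr ((21 : ℕ) : ℤ) ((22 : ℕ) : ℤ) n 1 1 :=
  BlkD.pair_sound (d := d21_22_1_1) (by decide +kernel) hn (by decide) (tr := t21_22_1_1)
    (by decide +kernel) rfl rfl rfl rfl

/-- the numbers of the pair `(2, 0)`, `R = 21`, `H = 22` -/
def d21_22_2_0 : BlkD.Pd :=
  ⟨21, 22, 5, 2, 0, 17, 0, 1, 0, 4, 4, 0, 0, 4, 4, 0, [0, 4, 8, 12, 16, 20, 24, 28, 32, 36, 40, 44,
    48, 52, 56, 60, 64, 68], [0, 4, 8, 12, 16, 20, 24, 28, 32, 36, 40, 44, 48, 52, 56, 60, 64, 68],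
    [⟨1, 1, 1, 4, 8, [0, 4], [0, 4]⟩]⟩

/-- the certificates of the pair `(2, 0)` -/
def t21_22_2_0 : BlkD.Tr :=
  .S 0 2 (.S 2 0 (.L 4 4 [4] [] [] 100000 0 0 300000 0 0 0 100000 0 0 0) (.E 1)) (.E 0)

lemma pr21_22_2_0 {n : ℕ} (hn : 7 ≤ n) : NoPr ((21 : ℕ) : ℤ) ((22 : ℕ) : ℤ) n 2 0 :=
  BlkD.pair_sound (d := d21_22_2_0) (by decide +kernel) hn (by decide) (tr := t21_22_2_0)
    (by decide +kernel) rfl rfl rfl rfl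

/-- the numbers of the pair `(2, 1)`, `R = 21`, `H = 22` -/
def d21_22_2_1 : BlkD.Pd :=
  ⟨21, 22, 5, 2, 1, 16, 1, 1, 0, 4, 4, 0, 0, 4, 4, 0, [0, 4, 8, 12, 16, 20, 24, 28, 32, 36, 40, 44,
    48, 52, 56, 60, 64], [0, 4, 8, 12, 16, 20, 24, 28, 32, 36, 40, 44, 48, 52, 56, 60, 64], [⟨1, 1,
    1, 4, 8, [0, 4], [0, 4]⟩, ⟨1, 1, 1, 4, 8, [0, 4], [0, 4]⟩]⟩

/-- the certificates of the pair `(2, 1)` -/
def t21_22_2_1 : BlkD.Tr :=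
  .S 0 2 (.S 2 1 (.L 4 4 [4, 4] [] [] 100000 0 0 500000 0 0 0 0 0 0 0) (.E 1)) (.E 0)

lemma pr21_22_2_1 {n : ℕ} (hn : 7 ≤ n) : NoPr ((21 : ℕ) : ℤ) ((22 : ℕ) : ℤ) n 2 1 :=
  BlkD.pair_sound (d := d21_22_2_1) (by decide +kernel) hn (by decide) (tr := t21_22_2_1)
    (by decide +kernel) rfl rfl rfl rfl

/-- the numbers of the pair `(2, 2)`, `R = 21`, `H = 22` -/
def d21_22_2_2 : BlkD.Pd :=
  ⟨21, 22, 5, 2, 2, 15, 2, 1, 0, 4, 6, 0, 0, 4, 6, 0, [0, 6, 12, 18, 24, 30, 36, 42, 48, 54, 60,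
    60, 60, 60, 60, 60], [0, 6, 12, 18, 24, 30, 36, 42, 48, 54, 60, 60, 60, 60, 60, 60], [⟨1, 1, 1,
    4, 8, [0, 4], [0, 4]⟩, ⟨1, 1, 1, 4, 8, [0, 4], [0, 4]⟩, ⟨1, 1, 1, 6, 12, [0, 6], [0, 6]⟩]⟩

/-- the certificates of the pair `(2, 2)` -/
def t21_22_2_2 : BlkD.Tr :=
  .S 0 2 (.S 2 2 (.L 4 4 [4, 4, 5] [] [] 100000 0 0 600000 0 0 0 0 0 0 0) (.E 1)) (.E 0)

lemma pr21_22_2_2 {n : ℕ} (hn : 7 ≤ n) : NoPr ((21 : ℕ) : ℤ) ((22 : ℕ) : ℤ) n 2 2 :=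
  BlkD.pair_sound (d := d21_22_2_2) (by decide +kernel) hn (by decide) (tr := t21_22_2_2)
    (by decide +kernel) rfl rfl rfl rfl

/-- the numbers of the pair `(3, 0)`, `R = 21`, `H = 22` -/
def d21_22_3_0 : BlkD.Pd :=
  ⟨21, 22, 5, 3, 0, 16, 0, 1, 0, 4, 4, 0, 0, 4, 4, 0, [0, 4, 8, 12, 16, 20, 24, 28, 32, 36, 40, 44,
    48, 52, 56, 60, 64], [0, 4, 8, 12, 16, 20, 24, 28, 32, 36, 40, 44, 48, 52, 56, 60, 64], [⟨1, 1,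
    1, 4, 8, [0, 4], [0, 4]⟩]⟩

/-- the certificates of the pair `(3, 0)` -/
def t21_22_3_0 : BlkD.Tr :=
  .S 0 3 (.S 2 0 (.L 4 4 [4] [] [] 100000 0 0 400000 0 0 0 100000 0 0 0) (.E 1)) (.E 0)

lemma pr21_22_3_0 {n : ℕ} (hn : 7 ≤ n) : NoPr ((21 : ℕ) : ℤ) ((22 : ℕ) : ℤ) n 3 0 :=
  BlkD.pair_sound (d := d21_22_3_0) (by decide +kernel) hn (by decide) (tr := t21_22_3_0)
    (by decide +kernel) rfl rfl rfl rfl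

/-- the numbers of the pair `(3, 1)`, `R = 21`, `H = 22` -/
def d21_22_3_1 : BlkD.Pd :=
  ⟨21, 22, 5, 3, 1, 15, 1, 1, 0, 4, 6, 0, 0, 4, 4, 0, [0, 6, 12, 18, 24, 30, 36, 42, 48, 54, 60,
    60, 60, 60, 60, 60], [0, 4, 8, 12, 16, 20, 24, 28, 32, 36, 40, 44, 48, 52, 56, 60], [⟨1, 1, 1,
    4, 8, [0, 4], [0, 4]⟩, ⟨1, 1, 1, 4, 10, [0, 6], [0, 4]⟩]⟩

/-- the certificates of the pair `(3, 1)` -/
def t21_22_3_1 : BlkD.Tr :=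
  .S 0 3 (.S 2 1 (.L 4 4 [4, 4] [] [] 100000 0 0 600000 0 0 25000 0 0 0 0) (.E 1)) (.E 0)

lemma pr21_22_3_1 {n : ℕ} (hn : 7 ≤ n) : NoPr ((21 : ℕ) : ℤ) ((22 : ℕ) : ℤ) n 3 1 :=
  BlkD.pair_sound (d := d21_22_3_1) (by decide +kernel) hn (by decide) (tr := t21_22_3_1)
    (by decide +kernel) rfl rfl rfl rfl

/-- the numbers of the pair `(3, 2)`, `R = 21`, `H = 22` -/
def d21_22_3_2 : BlkD.Pd :=
  ⟨21, 22, 5, 3, 2, 14, 2, 1, 0, 4, 6, 0, 0, 4, 6, 0, [0, 6, 12, 18, 24, 30, 36, 42, 48, 54, 56,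
    56, 56, 56, 56], [0, 6, 12, 18, 24, 30, 36, 42, 48, 54, 56, 56, 56, 56, 56], [⟨1, 1, 1, 4, 8,
    [0, 4], [0, 4]⟩, ⟨1, 1, 1, 4, 10, [0, 6], [0, 4]⟩, ⟨1, 1, 1, 6, 12, [0, 6], [0, 6]⟩]⟩

/-- the certificates of the pair `(3, 2)` -/
def t21_22_3_2 : BlkD.Tr :=
  .S 0 3 (.S 2 2 (.L 4 4 [4, 4, 5] [] [] 100000 0 0 700000 0 0 25000 0 0 0 0) (.E 1)) (.E 0)

lemma pr21_22_3_2 {n : ℕ} (hn : 7 ≤ n) : NoPr ((21 : ℕ) : ℤ) ((22 : ℕ) : ℤ) n 3 2 :=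
  BlkD.pair_sound (d := d21_22_3_2) (by decide +kernel) hn (by decide) (tr := t21_22_3_2)
    (by decide +kernel) rfl rfl rfl rfl

/-- the numbers of the pair `(3, 3)`, `R = 21`, `H = 22` -/
def d21_22_3_3 : BlkD.Pd :=
  ⟨21, 22, 5, 3, 3, 13, 3, 1, 4, 1, 8, 0, 4, 1, 8, 0, [0, 8, 16, 24, 29, 33, 37, 41, 45, 49, 53,
    57, 61, 65], [0, 8, 16, 24, 29, 33, 37, 41, 45, 49, 53, 57, 61, 65], [⟨1, 1, 1, 4, 8, [0, 4],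
    [0, 4]⟩, ⟨1, 1, 1, 6, 12, [0, 6], [0, 6]⟩, ⟨1, 1, 1, 6, 12, [0, 6], [0, 6]⟩, ⟨1, 1, 1, 8, 16,
    [0, 8], [0, 8]⟩]⟩

/-- the certificates of the pair `(3, 3)` -/
def t21_22_3_3 : BlkD.Tr :=
  .S 0 3 (.S 2 3 (.L 5 5 [4, 4, 5, 5] [] [] 100000 6057 6057 800004 0 0 34921 34921 25397 25397
    31041) (.E 1)) (.E 0)

lemma pr21_22_3_3 {n : ℕ} (hn : 7 ≤ n) : NoPr ((21 : ℕ) : ℤ) ((22 : ℕ) : ℤ) n 3 3 :=
  BlkD.pair_sound (d := d21_22_3_3) (by decide +kernel) hn (by decide) (tr := t21_22_3_3)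
    (by decide +kernel) rfl rfl rfl rfl

/-- the numbers of the pair `(4, 0)`, `R = 21`, `H = 22` -/
def d21_22_4_0 : BlkD.Pd :=
  ⟨21, 22, 5, 4, 0, 15, 0, 1, 0, 4, 4, 0, 0, 4, 4, 0, [0, 4, 8, 12, 16, 20, 24, 28, 32, 36, 40, 44,
    48, 52, 56, 60], [0, 4, 8, 12, 16, 20, 24, 28, 32, 36, 40, 44, 48, 52, 56, 60], [⟨1, 1, 1, 4,
    8, [0, 4], [0, 4]⟩]⟩

/-- the certificates of the pair `(4, 0)` -/
def t21_22_4_0 : BlkD.Tr :=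
  .S 0 4 (.S 2 0 (.L 4 4 [4] [] [] 100000 0 0 514287 14286 0 28571 71429 0 0 0) (.E 1)) (.E 0)

lemma pr21_22_4_0 {n : ℕ} (hn : 7 ≤ n) : NoPr ((21 : ℕ) : ℤ) ((22 : ℕ) : ℤ) n 4 0 :=
  BlkD.pair_sound (d := d21_22_4_0) (by decide +kernel) hn (by decide) (tr := t21_22_4_0)
    (by decide +kernel) rfl rfl rfl rfl

/-- the numbers of the pair `(4, 1)`, `R = 21`, `H = 22` -/
def d21_22_4_1 : BlkD.Pd :=
  ⟨21, 22, 5, 4, 1, 14, 1, 1, 0, 4, 6, 0, 0, 4, 4, 0, [0, 6, 12, 18, 24, 30, 36, 42, 48, 54, 56,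
    56, 56, 56, 56], [0, 4, 8, 12, 16, 20, 24, 28, 32, 36, 40, 44, 48, 52, 56], [⟨1, 1, 1, 4, 8,
    [0, 4], [0, 4]⟩, ⟨1, 1, 1, 4, 10, [0, 6], [0, 4]⟩]⟩

/-- the certificates of the pair `(4, 1)` -/
def t21_22_4_1 : BlkD.Tr :=
  .S 0 4 (.S 2 1 (.L 4 5 [4, 4] [] [] 100000 0 0 687500 12500 0 37500 0 0 0 0) (.E 1)) (.E 0)

lemma pr21_22_4_1 {n : ℕ} (hn : 7 ≤ n) : NoPr ((21 : ℕ) : ℤ) ((22 : ℕ) : ℤ) n 4 1 :=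
  BlkD.pair_sound (d := d21_22_4_1) (by decide +kernel) hn (by decide) (tr := t21_22_4_1)
    (by decide +kernel) rfl rfl rfl rfl

/-- the numbers of the pair `(4, 2)`, `R = 21`, `H = 22` -/
def d21_22_4_2 : BlkD.Pd :=
  ⟨21, 22, 5, 4, 2, 13, 2, 1, 2, 2, 8, 0, 0, 4, 6, 0, [0, 8, 16, 24, 32, 36, 38, 40, 42, 44, 46,
    48, 50, 52], [0, 6, 12, 18, 24, 30, 36, 42, 48, 52, 52, 52, 52, 52], [⟨1, 1, 1, 4, 8, [0, 4],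
    [0, 4]⟩, ⟨1, 1, 1, 4, 10, [0, 6], [0, 4]⟩, ⟨1, 1, 1, 6, 14, [0, 8], [0, 6]⟩]⟩

/-- the certificates of the pair `(4, 2)` -/
def t21_22_4_2 : BlkD.Tr :=
  .S 0 4 (.S 2 2 (.L 4 5 [4, 4, 5] [] [] 100000 0 0 800000 0 0 50000 0 0 0 0) (.E 1)) (.E 0)

lemma pr21_22_4_2 {n : ℕ} (hn : 7 ≤ n) : NoPr ((21 : ℕ) : ℤ) ((22 : ℕ) : ℤ) n 4 2 :=
  BlkD.pair_sound (d := d21_22_4_2) (by decide +kernel) hn (by decide) (tr := t21_22_4_2)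
    (by decide +kernel) rfl rfl rfl rfl

/-- the numbers of the pair `(4, 3)`, `R = 21`, `H = 22` -/
def d21_22_4_3 : BlkD.Pd :=
  ⟨21, 22, 5, 4, 3, 12, 3, 1, 2, 2, 8, 0, 4, 1, 8, 0, [0, 8, 16, 24, 32, 34, 36, 38, 40, 42, 44,
    46, 48], [0, 8, 16, 24, 28, 32, 36, 40, 44, 48, 52, 56, 60], [⟨1, 1, 1, 4, 8, [0, 4], [0, 4]⟩,
    ⟨1, 1, 1, 6, 12, [0, 6], [0, 6]⟩, ⟨1, 1, 1, 6, 14, [0, 8], [0, 6]⟩, ⟨1, 1, 1, 8, 16, [0, 8],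
    [0, 8]⟩]⟩

lemma k21_22_4_3 : BlkD.pairOk d21_22_4_3 = true := by decide +kernel

/-- certificates of the pair `(4, 3)`, part 1 -/
def t21_22_4_3_1 : BlkD.Tr :=
  .S 0 1 (.L 5 5 [4, 4, 5, 5] [] [] 100000 5882 5881 900005 0 0 50000 41176 23529 26471 32353) (.L
    5 5 [4, 4, 5, 5] [] [] 100000 5882 5881 900005 0 0 50000 41176 23529 26471 32353)

lemma s21_22_4_3_1 {n : ℕ} (hn : 7 ≤ n) : NoNd (d21_22_4_3.R : ℤ) d21_22_4_3.H n d21_22_4_3.a d21_22_4_3.b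
    (BlkD.inB (fun _ => 0)
      (BlkD.upd (BlkD.upd (BlkD.upd (fun _ => 22) 0 4) 2 3) 0 2)) :=
  BlkD.tree_sound (BlkD.pairOk_sound k21_22_4_3) (by decide) hn t21_22_4_3_1 _ _ (by decide +kernel)

/-- certificates of the pair `(4, 3)`, part 2 -/
def t21_22_4_3_2 : BlkD.Tr :=
  .L 5 5 [4, 4, 5, 5] [] [] 100000 5882 5881 900005 0 0 50000 41176 23529 26471 32353

lemma s21_22_4_3_2 {n : ℕ} (hn : 7 ≤ n) : NoNd (d21_22_4_3.R : ℤ) d21_22_4_3.H n d21_22_4_3.a d21_22_4_3.b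
    (BlkD.inB (BlkD.upd (fun _ => 0) 0 3)
      (BlkD.upd (BlkD.upd (fun _ => 22) 0 4) 2 3)) :=
  BlkD.tree_sound (BlkD.pairOk_sound k21_22_4_3) (by decide) hn t21_22_4_3_2 _ _ (by decide +kernel)

/-- certificates of the pair `(4, 3)`, part 3 -/
def t21_22_4_3_3 : BlkD.Tr :=
  .E 1

lemma s21_22_4_3_3 {n : ℕ} (hn : 7 ≤ n) : NoNd (d21_22_4_3.R : ℤ) d21_22_4_3.H n d21_22_4_3.a d21_22_4_3.b
    (BlkD.inB (BlkD.upd (fun _ => 0) 2 4)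
      (BlkD.upd (fun _ => 22) 0 4)) :=
  BlkD.tree_sound (BlkD.pairOk_sound k21_22_4_3) (by decide) hn t21_22_4_3_3 _ _ (by decide +kernel)

/-- certificates of the pair `(4, 3)`, part 4 -/
def t21_22_4_3_4 : BlkD.Tr :=
  .E 0

lemma s21_22_4_3_4 {n : ℕ} (hn : 7 ≤ n) : NoNd (d21_22_4_3.R : ℤ) d21_22_4_3.H n d21_22_4_3.a d21_22_4_3.b
    (BlkD.inB (BlkD.upd (fun _ => 0) 0 5)
      (fun _ => 22)) :=
  BlkD.tree_sound (BlkD.pairOk_sound k21_22_4_3) (by decide) hn t21_22_4_3_4 _ _ (by decide +kernel)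

lemma pr21_22_4_3 {n : ℕ} (hn : 7 ≤ n) : NoPr ((21 : ℕ) : ℤ) ((22 : ℕ) : ℤ) n 4 3 :=
  BlkD.of_root (R := d21_22_4_3.R) (H := d21_22_4_3.H) (a := d21_22_4_3.a) (b := d21_22_4_3.b) (q := 5) (by decide) hn
    (BlkD.sp 0 4 (BlkD.sp 2 3 (BlkD.sp 0 2 (s21_22_4_3_1 hn) (s21_22_4_3_2 hn)) (s21_22_4_3_3 hn))
      (s21_22_4_3_4 hn))

/-- the numbers of the pair `(4, 4)`, `R = 21`, `H = 22` -/
def d21_22_4_4 : BlkD.Pd :=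
  ⟨21, 22, 5, 4, 4, 11, 4, 1, 2, 2, 10, 0, 2, 2, 10, 0, [0, 10, 20, 28, 30, 32, 34, 36, 38, 40, 42,
    44], [0, 10, 20, 28, 30, 32, 34, 36, 38, 40, 42, 44], [⟨1, 1, 1, 4, 8, [0, 4], [0, 4]⟩, ⟨1, 1,
    1, 6, 12, [0, 6], [0, 6]⟩, ⟨1, 1, 1, 8, 16, [0, 8], [0, 8]⟩, ⟨1, 1, 1, 8, 16, [0, 8], [0, 8]⟩,
    ⟨1, 1, 1, 8, 20, [0, 10], [0, 10]⟩]⟩

lemma k21_22_4_4 : BlkD.pairOk d21_22_4_4 = true := by decide +kernel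

/-- certificates of the pair `(4, 4)`, part 1 -/
def t21_22_4_4_1 : BlkD.Tr :=
  .S 0 1 (.L 5 5 [4, 4, 5, 5, 6] [] [] 100000 16000 16000 1000000 0 0 50000 50000 20000 20000
    32000) (.L 5 5 [4, 4, 5, 5, 6] [] [] 100000 16000 16000 1000000 0 0 50000 50000 20000 20000
    32000)

lemma s21_22_4_4_1 {n : ℕ} (hn : 7 ≤ n) : NoNd (d21_22_4_4.R : ℤ) d21_22_4_4.H n d21_22_4_4.a d21_22_4_4.b
    (BlkD.inB (fun _ => 0)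
      (BlkD.upd (BlkD.upd (BlkD.upd (fun _ => 22) 0 4) 2 4) 0 2)) :=
  BlkD.tree_sound (BlkD.pairOk_sound k21_22_4_4) (by decide) hn t21_22_4_4_1 _ _ (by decide +kernel)

/-- certificates of the pair `(4, 4)`, part 2 -/
def t21_22_4_4_2 : BlkD.Tr :=
  .L 5 5 [4, 4, 5, 5, 6] [] [] 100000 16000 16000 1000000 0 0 50000 50000 20000 20000 32000

lemma s21_22_4_4_2 {n : ℕ} (hn : 7 ≤ n) : NoNd (d21_22_4_4.R : ℤ) d21_22_4_4.H n d21_22_4_4.a d21_22_4_4.b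
    (BlkD.inB (BlkD.upd (fun _ => 0) 0 3)
      (BlkD.upd (BlkD.upd (fun _ => 22) 0 4) 2 4)) :=
  BlkD.tree_sound (BlkD.pairOk_sound k21_22_4_4) (by decide) hn t21_22_4_4_2 _ _ (by decide +kernel)

/-- certificates of the pair `(4, 4)`, part 3 -/
def t21_22_4_4_3 : BlkD.Tr :=
  .E 1

lemma s21_22_4_4_3 {n : ℕ} (hn : 7 ≤ n) : NoNd (d21_22_4_4.R : ℤ) d21_22_4_4.H n d21_22_4_4.a d21_22_4_4.b
    (BlkD.inB (BlkD.upd (fun _ => 0) 2 5)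
      (BlkD.upd (fun _ => 22) 0 4)) :=
  BlkD.tree_sound (BlkD.pairOk_sound k21_22_4_4) (by decide) hn t21_22_4_4_3 _ _ (by decide +kernel)

/-- certificates of the pair `(4, 4)`, part 4 -/
def t21_22_4_4_4 : BlkD.Tr :=
  .E 0

lemma s21_22_4_4_4 {n : ℕ} (hn : 7 ≤ n) : NoNd (d21_22_4_4.R : ℤ) d21_22_4_4.H n d21_22_4_4.a d21_22_4_4.b
    (BlkD.inB (BlkD.upd (fun _ => 0) 0 5)
      (fun _ => 22)) :=
  BlkD.tree_sound (BlkD.pairOk_sound k21_22_4_4) (by decide) hn t21_22_4_4_4 _ _ (by decide +kernel)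

lemma pr21_22_4_4 {n : ℕ} (hn : 7 ≤ n) : NoPr ((21 : ℕ) : ℤ) ((22 : ℕ) : ℤ) n 4 4 :=
  BlkD.of_root (R := d21_22_4_4.R) (H := d21_22_4_4.H) (a := d21_22_4_4.a) (b := d21_22_4_4.b) (q := 5) (by decide) hn
    (BlkD.sp 0 4 (BlkD.sp 2 4 (BlkD.sp 0 2 (s21_22_4_4_1 hn) (s21_22_4_4_2 hn)) (s21_22_4_4_3 hn))
      (s21_22_4_4_4 hn))

/-- the numbers of the pair `(5, 0)`, `R = 21`, `H = 22` -/
def d21_22_5_0 : BlkD.Pd :=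
  ⟨21, 22, 5, 5, 0, 14, 0, 1, 0, 4, 4, 0, 0, 4, 4, 0, [0, 4, 8, 12, 16, 20, 24, 28, 32, 36, 40, 44,
    48, 52, 56], [0, 4, 8, 12, 16, 20, 24, 28, 32, 36, 40, 44, 48, 52, 56], [⟨1, 1, 1, 4, 8, [0,
    4], [0, 4]⟩]⟩

/-- the certificates of the pair `(5, 0)` -/
def t21_22_5_0 : BlkD.Tr :=
  .S 0 5 (.S 2 0 (.L 4 4 [4] [] [] 100000 0 0 620000 20000 0 40000 60000 0 0 0) (.E 1)) (.E 0)

lemma pr21_22_5_0 {n : ℕ} (hn : 7 ≤ n) : NoPr ((21 : ℕ) : ℤ) ((22 : ℕ) : ℤ) n 5 0 :=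
  BlkD.pair_sound (d := d21_22_5_0) (by decide +kernel) hn (by decide) (tr := t21_22_5_0)
    (by decide +kernel) rfl rfl rfl rfl

/-- the numbers of the pair `(5, 1)`, `R = 21`, `H = 22` -/
def d21_22_5_1 : BlkD.Pd :=
  ⟨21, 22, 5, 5, 1, 13, 1, 1, 0, 4, 6, 0, 0, 4, 4, 0, [0, 6, 12, 18, 24, 30, 36, 42, 48, 52, 52,
    52, 52, 52], [0, 4, 8, 12, 16, 20, 24, 28, 32, 36, 40, 44, 48, 52], [⟨1, 1, 1, 4, 8, [0, 4],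
    [0, 4]⟩, ⟨1, 1, 1, 4, 10, [0, 6], [0, 4]⟩]⟩

/-- the certificates of the pair `(5, 1)` -/
def t21_22_5_1 : BlkD.Tr :=
  .S 0 5 (.S 2 1 (.S 0 2 (.L 4 5 [4, 4] [] [] 100000 0 0 775000 25000 0 50000 0 0 0 0) (.L 4 5 [4,
    4] [] [] 100000 0 0 775000 25000 0 50000 0 0 0 0)) (.E 1)) (.E 0)

lemma pr21_22_5_1 {n : ℕ} (hn : 7 ≤ n) : NoPr ((21 : ℕ) : ℤ) ((22 : ℕ) : ℤ) n 5 1 :=
  BlkD.pair_sound (d := d21_22_5_1) (by decide +kernel) hn (by decide) (tr := t21_22_5_1)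
    (by decide +kernel) rfl rfl rfl rfl

/-- the numbers of the pair `(5, 2)`, `R = 21`, `H = 22` -/
def d21_22_5_2 : BlkD.Pd :=
  ⟨21, 22, 5, 5, 2, 12, 2, 1, 2, 2, 8, 0, 0, 4, 6, 0, [0, 8, 16, 24, 32, 34, 36, 38, 40, 42, 44,
    46, 48], [0, 6, 12, 18, 24, 30, 36, 42, 48, 48, 48, 48, 48], [⟨1, 1, 1, 4, 8, [0, 4], [0, 4]⟩,
    ⟨1, 1, 1, 4, 10, [0, 6], [0, 4]⟩, ⟨1, 1, 1, 6, 14, [0, 8], [0, 6]⟩]⟩

lemma k21_22_5_2 : BlkD.pairOk d21_22_5_2 = true := by decide +kernel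

/-- certificates of the pair `(5, 2)`, part 1 -/
def t21_22_5_2_1 : BlkD.Tr :=
  .S 0 1 (.L 4 5 [4, 4, 5] [] [] 100000 2941 2940 876472 23529 0 52941 7843 5882 5882 5882) (.L 4 5
    [4, 4, 5] [] [] 100000 2941 2940 876472 23529 0 52941 7843 5882 5882 5882)

lemma s21_22_5_2_1 {n : ℕ} (hn : 7 ≤ n) : NoNd (d21_22_5_2.R : ℤ) d21_22_5_2.H n d21_22_5_2.a d21_22_5_2.b
    (BlkD.inB (fun _ => 0)
      (BlkD.upd (BlkD.upd (BlkD.upd (fun _ => 22) 0 5) 2 2) 0 2)) :=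
  BlkD.tree_sound (BlkD.pairOk_sound k21_22_5_2) (by decide) hn t21_22_5_2_1 _ _ (by decide +kernel)

/-- certificates of the pair `(5, 2)`, part 2 -/
def t21_22_5_2_2 : BlkD.Tr :=
  .L 4 5 [4, 4, 5] [] [] 100000 2941 2940 876472 23529 0 52941 7843 5882 5882 5882

lemma s21_22_5_2_2 {n : ℕ} (hn : 7 ≤ n) : NoNd (d21_22_5_2.R : ℤ) d21_22_5_2.H n d21_22_5_2.a d21_22_5_2.b
    (BlkD.inB (BlkD.upd (fun _ => 0) 0 3)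
      (BlkD.upd (BlkD.upd (fun _ => 22) 0 5) 2 2)) :=
  BlkD.tree_sound (BlkD.pairOk_sound k21_22_5_2) (by decide) hn t21_22_5_2_2 _ _ (by decide +kernel)

/-- certificates of the pair `(5, 2)`, part 3 -/
def t21_22_5_2_3 : BlkD.Tr :=
  .E 1

lemma s21_22_5_2_3 {n : ℕ} (hn : 7 ≤ n) : NoNd (d21_22_5_2.R : ℤ) d21_22_5_2.H n d21_22_5_2.a d21_22_5_2.b
    (BlkD.inB (BlkD.upd (fun _ => 0) 2 3)
      (BlkD.upd (fun _ => 22) 0 5)) :=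
  BlkD.tree_sound (BlkD.pairOk_sound k21_22_5_2) (by decide) hn t21_22_5_2_3 _ _ (by decide +kernel)

/-- certificates of the pair `(5, 2)`, part 4 -/
def t21_22_5_2_4 : BlkD.Tr :=
  .E 0

lemma s21_22_5_2_4 {n : ℕ} (hn : 7 ≤ n) : NoNd (d21_22_5_2.R : ℤ) d21_22_5_2.H n d21_22_5_2.a d21_22_5_2.b
    (BlkD.inB (BlkD.upd (fun _ => 0) 0 6)
      (fun _ => 22)) :=
  BlkD.tree_sound (BlkD.pairOk_sound k21_22_5_2) (by decide) hn t21_22_5_2_4 _ _ (by decide +kernel)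

lemma pr21_22_5_2 {n : ℕ} (hn : 7 ≤ n) : NoPr ((21 : ℕ) : ℤ) ((22 : ℕ) : ℤ) n 5 2 :=
  BlkD.of_root (R := d21_22_5_2.R) (H := d21_22_5_2.H) (a := d21_22_5_2.a) (b := d21_22_5_2.b) (q := 5) (by decide) hn
    (BlkD.sp 0 5 (BlkD.sp 2 2 (BlkD.sp 0 2 (s21_22_5_2_1 hn) (s21_22_5_2_2 hn)) (s21_22_5_2_3 hn))
      (s21_22_5_2_4 hn))

/-- the numbers of the pair `(5, 3)`, `R = 21`, `H = 22` -/
def d21_22_5_3 : BlkD.Pd :=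
  ⟨21, 22, 5, 5, 3, 11, 3, 1, 2, 2, 10, 0, 4, 1, 8, 0, [0, 10, 20, 28, 30, 32, 34, 36, 38, 40, 42,
    44], [0, 8, 16, 23, 27, 31, 35, 39, 43, 47, 51, 55], [⟨1, 1, 1, 4, 8, [0, 4], [0, 4]⟩, ⟨1, 1,
    1, 6, 12, [0, 6], [0, 6]⟩, ⟨1, 1, 1, 6, 14, [0, 8], [0, 6]⟩, ⟨1, 1, 1, 8, 18, [0, 10], [0,
    8]⟩]⟩

lemma k21_22_5_3 : BlkD.pairOk d21_22_5_3 = true := by decide +kernel

/-- certificates of the pair `(5, 3)`, part 1 -/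
def t21_22_5_3_1 : BlkD.Tr :=
  .L 5 6 [4, 4, 5, 5] [] [] 100000 13702 13702 952761 24540 0 59305 33333 15235 18609 25051

lemma s21_22_5_3_1 {n : ℕ} (hn : 7 ≤ n) : NoNd (d21_22_5_3.R : ℤ) d21_22_5_3.H n d21_22_5_3.a d21_22_5_3.b
    (BlkD.inB (fun _ => 0)
      (BlkD.upd (BlkD.upd (BlkD.upd (BlkD.upd (fun _ => 22) 0 5) 2 3) 0 2) 0 1)) :=
  BlkD.tree_sound (BlkD.pairOk_sound k21_22_5_3) (by decide) hn t21_22_5_3_1 _ _ (by decide +kernel)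

/-- certificates of the pair `(5, 3)`, part 2 -/
def t21_22_5_3_2 : BlkD.Tr :=
  .L 5 6 [4, 4, 5, 5] [] [] 100000 13702 13702 952761 24540 0 59305 33333 15235 18609 25051

lemma s21_22_5_3_2 {n : ℕ} (hn : 7 ≤ n) : NoNd (d21_22_5_3.R : ℤ) d21_22_5_3.H n d21_22_5_3.a d21_22_5_3.b
    (BlkD.inB (BlkD.upd (fun _ => 0) 0 2)
      (BlkD.upd (BlkD.upd (BlkD.upd (fun _ => 22) 0 5) 2 3) 0 2)) :=
  BlkD.tree_sound (BlkD.pairOk_sound k21_22_5_3) (by decide) hn t21_22_5_3_2 _ _ (by decide +kernel)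

/-- certificates of the pair `(5, 3)`, part 3 -/
def t21_22_5_3_3 : BlkD.Tr :=
  .L 5 6 [4, 4, 5, 5] [] [] 100000 9091 9091 1000002 0 0 100000 50000 18182 25000 29545

lemma s21_22_5_3_3 {n : ℕ} (hn : 7 ≤ n) : NoNd (d21_22_5_3.R : ℤ) d21_22_5_3.H n d21_22_5_3.a d21_22_5_3.b
    (BlkD.inB (BlkD.upd (fun _ => 0) 0 3)
      (BlkD.upd (BlkD.upd (fun _ => 22) 0 5) 2 3)) :=
  BlkD.tree_sound (BlkD.pairOk_sound k21_22_5_3) (by decide) hn t21_22_5_3_3 _ _ (by decide +kernel)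

/-- certificates of the pair `(5, 3)`, part 4 -/
def t21_22_5_3_4 : BlkD.Tr :=
  .E 1

lemma s21_22_5_3_4 {n : ℕ} (hn : 7 ≤ n) : NoNd (d21_22_5_3.R : ℤ) d21_22_5_3.H n d21_22_5_3.a d21_22_5_3.b
    (BlkD.inB (BlkD.upd (fun _ => 0) 2 4)
      (BlkD.upd (fun _ => 22) 0 5)) :=
  BlkD.tree_sound (BlkD.pairOk_sound k21_22_5_3) (by decide) hn t21_22_5_3_4 _ _ (by decide +kernel)

/-- certificates of the pair `(5, 3)`, part 5 -/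
def t21_22_5_3_5 : BlkD.Tr :=
  .E 0

lemma s21_22_5_3_5 {n : ℕ} (hn : 7 ≤ n) : NoNd (d21_22_5_3.R : ℤ) d21_22_5_3.H n d21_22_5_3.a d21_22_5_3.b
    (BlkD.inB (BlkD.upd (fun _ => 0) 0 6)
      (fun _ => 22)) :=
  BlkD.tree_sound (BlkD.pairOk_sound k21_22_5_3) (by decide) hn t21_22_5_3_5 _ _ (by decide +kernel)

lemma pr21_22_5_3 {n : ℕ} (hn : 7 ≤ n) : NoPr ((21 : ℕ) : ℤ) ((22 : ℕ) : ℤ) n 5 3 :=
  BlkD.of_root (R := d21_22_5_3.R) (H := d21_22_5_3.H) (a := d21_22_5_3.a) (b := d21_22_5_3.b) (q := 5) (by decide) hn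
    (BlkD.sp 0 5 (BlkD.sp 2 3 (BlkD.sp 0 2 (BlkD.sp 0 1 (s21_22_5_3_1 hn) (s21_22_5_3_2 hn))
      (s21_22_5_3_3 hn)) (s21_22_5_3_4 hn)) (s21_22_5_3_5 hn))

/-- the numbers of the pair `(5, 4)`, `R = 21`, `H = 22` -/
def d21_22_5_4 : BlkD.Pd :=
  ⟨21, 22, 5, 5, 4, 10, 4, 2, 2, 2, 10, 0, 2, 2, 10, 0, [0, 10, 20, 26, 28, 30, 32, 34, 36, 38,
    40], [0, 10, 20, 26, 28, 30, 32, 34, 36, 38, 40], [⟨1, 1, 1, 4, 8, [0, 4], [0, 4]⟩, ⟨1, 1, 1,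
    6, 12, [0, 6], [0, 6]⟩, ⟨1, 1, 1, 6, 16, [0, 8], [0, 8]⟩, ⟨1, 1, 1, 6, 18, [0, 10], [0, 8]⟩,
    ⟨2, 1, 1, 6, 24, [0, 10, 14], [0, 10]⟩]⟩

lemma k21_22_5_4 : BlkD.pairOk d21_22_5_4 = true := by decide +kernel

/-- certificates of the pair `(5, 4)`, part 1 -/
def t21_22_5_4_1 : BlkD.Tr :=
  .L 5 6 [4, 4, 5, 5, 6] [] [] 100000 72000 72000 772000 85600 0 89200 78400 0 1600 20000

lemma s21_22_5_4_1 {n : ℕ} (hn : 7 ≤ n) : NoNd (d21_22_5_4.R : ℤ) d21_22_5_4.H n d21_22_5_4.a d21_22_5_4.b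
    (BlkD.inB (fun _ => 0)
      (BlkD.upd (BlkD.upd (BlkD.upd (BlkD.upd (BlkD.upd (fun _ => 22) 0 5) 2 4) 0 2) 0 1) 0 0)) :=
  BlkD.tree_sound (BlkD.pairOk_sound k21_22_5_4) (by decide) hn t21_22_5_4_1 _ _ (by decide +kernel)

/-- certificates of the pair `(5, 4)`, part 2 -/
def t21_22_5_4_2 : BlkD.Tr :=
  .S 1 2 (.L 5 6 [4, 4, 5, 5, 6] [] [] 100000 72000 72000 772000 85600 0 89200 78400 0 1600 20000)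
    (.L 5 6 [4, 4, 5, 5, 6] [] [] 100000 72000 72000 772000 85600 0 89200 78400 0 1600 20000)

lemma s21_22_5_4_2 {n : ℕ} (hn : 7 ≤ n) : NoNd (d21_22_5_4.R : ℤ) d21_22_5_4.H n d21_22_5_4.a d21_22_5_4.b
    (BlkD.inB (BlkD.upd (fun _ => 0) 0 1)
      (BlkD.upd (BlkD.upd (BlkD.upd (BlkD.upd (BlkD.upd (BlkD.upd (fun _ => 22) 0 5) 2 4) 0 2) 0 1) 1 11) 1 5)) :=
  BlkD.tree_sound (BlkD.pairOk_sound k21_22_5_4) (by decide) hn t21_22_5_4_2 _ _ (by decide +kernel)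

/-- certificates of the pair `(5, 4)`, part 3 -/
def t21_22_5_4_3 : BlkD.Tr :=
  .L 5 6 [4, 4, 5, 5, 6] [] [] 100000 72000 72000 772000 85600 0 89200 78400 0 1600 20000

lemma s21_22_5_4_3 {n : ℕ} (hn : 7 ≤ n) : NoNd (d21_22_5_4.R : ℤ) d21_22_5_4.H n d21_22_5_4.a d21_22_5_4.b
    (BlkD.inB (BlkD.upd (BlkD.upd (fun _ => 0) 0 1) 1 6)
      (BlkD.upd (BlkD.upd (BlkD.upd (BlkD.upd (BlkD.upd (fun _ => 22) 0 5) 2 4) 0 2) 0 1) 1 11)) :=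
  BlkD.tree_sound (BlkD.pairOk_sound k21_22_5_4) (by decide) hn t21_22_5_4_3 _ _ (by decide +kernel)

/-- certificates of the pair `(5, 4)`, part 4 -/
def t21_22_5_4_4 : BlkD.Tr :=
  .L 5 6 [4, 4, 5, 5, 6] [] [] 100000 72000 72000 772000 85600 0 89200 78400 0 1600 20000

lemma s21_22_5_4_4 {n : ℕ} (hn : 7 ≤ n) : NoNd (d21_22_5_4.R : ℤ) d21_22_5_4.H n d21_22_5_4.a d21_22_5_4.b
    (BlkD.inB (BlkD.upd (BlkD.upd (fun _ => 0) 0 1) 1 12)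
      (BlkD.upd (BlkD.upd (BlkD.upd (BlkD.upd (fun _ => 22) 0 5) 2 4) 0 2) 0 1)) :=
  BlkD.tree_sound (BlkD.pairOk_sound k21_22_5_4) (by decide) hn t21_22_5_4_4 _ _ (by decide +kernel)

/-- certificates of the pair `(5, 4)`, part 5 -/
def t21_22_5_4_5 : BlkD.Tr :=
  .S 1 20 (.S 1 10 (.S 1 5 (.S 1 2 (.L 5 6 [4, 4, 5, 5, 6] [] [] 100000 25000 25000 950000 25000 0
    25000 25000 0 25000 25000) (.S 1 4 (.L 5 6 [4, 4, 5, 5, 6] [] [] 100000 19010 19010 1098779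
    10513 0 43276 59169 11980 18949 27017) (.L 5 6 [4, 4, 5, 5, 6] [80, 76, 70, 60, 50, 40] []
    100000 13879 13878 1113168 17556 0 34164 49229 33215 18149 26335))) (.L 5 6 [4, 4, 5, 5, 6] []
    [] 100000 20834 20834 1066666 0 0 77778 77778 27778 22222 16667)) (.E 0)) (.E 0)

lemma s21_22_5_4_5 {n : ℕ} (hn : 7 ≤ n) : NoNd (d21_22_5_4.R : ℤ) d21_22_5_4.H n d21_22_5_4.a d21_22_5_4.b
    (BlkD.inB (BlkD.upd (fun _ => 0) 0 2)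
      (BlkD.upd (BlkD.upd (BlkD.upd (fun _ => 22) 0 5) 2 4) 0 2)) :=
  BlkD.tree_sound (BlkD.pairOk_sound k21_22_5_4) (by decide) hn t21_22_5_4_5 _ _ (by decide +kernel)

/-- certificates of the pair `(5, 4)`, part 6 -/
def t21_22_5_4_6 : BlkD.Tr :=
  .S 0 3 (.S 1 19 (.S 1 9 (.S 1 4 (.S 1 2 (.L 5 6 [4, 4, 5, 5, 6] [] [] 100000 24500 24500 1033337
    33333 0 60000 33333 6667 22000 33333) (.L 5 6 [4, 4, 5, 5, 6] [] [] 100000 11765 11764 1132941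
    16471 0 34118 47059 49412 20000 32941)) (.L 5 6 [4, 4, 5, 5, 6] [] [] 100000 37500 37499 900000
    0 0 100000 100000 0 0 16667)) (.E 0)) (.E 0)) (.L 5 6 [4, 4, 5, 5, 6] [] [] 100000 12500 12500
    1100003 0 0 50000 50000 33333 16667 33333)

lemma s21_22_5_4_6 {n : ℕ} (hn : 7 ≤ n) : NoNd (d21_22_5_4.R : ℤ) d21_22_5_4.H n d21_22_5_4.a d21_22_5_4.b
    (BlkD.inB (BlkD.upd (fun _ => 0) 0 3)
      (BlkD.upd (BlkD.upd (BlkD.upd (fun _ => 22) 0 5) 2 4) 0 4)) :=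
  BlkD.tree_sound (BlkD.pairOk_sound k21_22_5_4) (by decide) hn t21_22_5_4_6 _ _ (by decide +kernel)

/-- certificates of the pair `(5, 4)`, part 7 -/
def t21_22_5_4_7 : BlkD.Tr :=
  .L 5 6 [4, 4, 5, 5, 6] [] [] 100000 11459 11459 1100000 0 0 50000 50000 31944 22222 31944

lemma s21_22_5_4_7 {n : ℕ} (hn : 7 ≤ n) : NoNd (d21_22_5_4.R : ℤ) d21_22_5_4.H n d21_22_5_4.a d21_22_5_4.b
    (BlkD.inB (BlkD.upd (BlkD.upd (fun _ => 0) 0 3) 0 5)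
      (BlkD.upd (BlkD.upd (fun _ => 22) 0 5) 2 4)) :=
  BlkD.tree_sound (BlkD.pairOk_sound k21_22_5_4) (by decide) hn t21_22_5_4_7 _ _ (by decide +kernel)

/-- certificates of the pair `(5, 4)`, part 8 -/
def t21_22_5_4_8 : BlkD.Tr :=
  .E 1

lemma s21_22_5_4_8 {n : ℕ} (hn : 7 ≤ n) : NoNd (d21_22_5_4.R : ℤ) d21_22_5_4.H n d21_22_5_4.a d21_22_5_4.b
    (BlkD.inB (BlkD.upd (fun _ => 0) 2 5)
      (BlkD.upd (fun _ => 22) 0 5)) :=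
  BlkD.tree_sound (BlkD.pairOk_sound k21_22_5_4) (by decide) hn t21_22_5_4_8 _ _ (by decide +kernel)

/-- certificates of the pair `(5, 4)`, part 9 -/
def t21_22_5_4_9 : BlkD.Tr :=
  .E 0

lemma s21_22_5_4_9 {n : ℕ} (hn : 7 ≤ n) : NoNd (d21_22_5_4.R : ℤ) d21_22_5_4.H n d21_22_5_4.a d21_22_5_4.b
    (BlkD.inB (BlkD.upd (fun _ => 0) 0 6)
      (fun _ => 22)) :=
  BlkD.tree_sound (BlkD.pairOk_sound k21_22_5_4) (by decide) hn t21_22_5_4_9 _ _ (by decide +kernel)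

lemma pr21_22_5_4 {n : ℕ} (hn : 7 ≤ n) : NoPr ((21 : ℕ) : ℤ) ((22 : ℕ) : ℤ) n 5 4 :=
  BlkD.of_root (R := d21_22_5_4.R) (H := d21_22_5_4.H) (a := d21_22_5_4.a) (b := d21_22_5_4.b) (q := 5) (by decide) hn
    (BlkD.sp 0 5 (BlkD.sp 2 4 (BlkD.sp 0 2 (BlkD.sp 0 1 (BlkD.sp 0 0 (s21_22_5_4_1 hn) (BlkD.sp 1
      11 (BlkD.sp 1 5 (s21_22_5_4_2 hn) (s21_22_5_4_3 hn)) (s21_22_5_4_4 hn))) (s21_22_5_4_5 hn))
      (BlkD.sp 0 4 (s21_22_5_4_6 hn) (s21_22_5_4_7 hn))) (s21_22_5_4_8 hn)) (s21_22_5_4_9 hn))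

end BlkC

end Pool.Agent.Lib.MP_f04ccf_co
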