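import Pool.Agent.Lib.MP_f04ccf_co.M.BlkT

/-!
MP_f04ccf_co, block certificate, data `R = 21`, `H = 22`, part 11 (generated, helper99:
bd10.cpp, gen2.py).
-/

set_option autoImplicit false
set_option maxRecDepth 100000

namespace Pool.Agent.Lib.MP_f04ccf_co

namespace BlkC

/-- the numbers of the pair `(8, 5)`, `R = 21`, `H = 22` -/
def d21_22_8_5 : BlkD.Pd :=
  ⟨21, 22, 5, 8, 5, 6, 1, 3, 0, 4, 8, 0, 2, 2, 6, 0, [0, 8, 16, 24, 24, 24, 24], [0, 6, 12, 18, 20,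
    22, 24], [⟨1, 1, 1, 4, 8, [0, 4], [0, 4]⟩, ⟨1, 1, 1, 4, 14, [0, 8], [0, 6]⟩]⟩

lemma k21_22_8_5 : BlkD.pairOk d21_22_8_5 = true := by decide +kernel

/-- certificates of the pair `(8, 5)`, part 1 -/
def t21_22_8_5_1 : BlkD.Tr :=
  .L 6 9 [5, 3, 21, 21, 21, 21] [] [] 100000 1 1 1533334 66667 66667 83333 66667 0 0 0

lemma s21_22_8_5_1 {n : ℕ} (hn : 7 ≤ n) : NoNd (d21_22_8_5.R : ℤ) d21_22_8_5.H n d21_22_8_5.a d21_22_8_5.b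
    (BlkD.inB (fun _ => 0)
      (BlkD.upd (BlkD.upd (BlkD.upd (BlkD.upd (BlkD.upd (BlkD.upd (fun _ => 22) 0 8) 2 5) 0 4) 0 2) 0 1) 0 0)) :=
  BlkD.tree_sound (BlkD.pairOk_sound k21_22_8_5) (by decide) hn t21_22_8_5_1 _ _ (by decide +kernel)

/-- certificates of the pair `(8, 5)`, part 2 -/
def t21_22_8_5_2 : BlkD.Tr :=
  .L 6 9 [5, 3, 21, 21, 21, 21] [] [] 100000 1 1 1533334 66667 66667 83333 66667 0 0 0

lemma s21_22_8_5_2 {n : ℕ} (hn : 7 ≤ n) : NoNd (d21_22_8_5.R : ℤ) d21_22_8_5.H n d21_22_8_5.a d21_22_8_5.b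
    (BlkD.inB (BlkD.upd (fun _ => 0) 0 1)
      (BlkD.upd (BlkD.upd (BlkD.upd (BlkD.upd (BlkD.upd (BlkD.upd (BlkD.upd (fun _ => 22) 0 8) 2 5) 0 4) 0 2) 0 1) 1 11) 1 5)) :=
  BlkD.tree_sound (BlkD.pairOk_sound k21_22_8_5) (by decide) hn t21_22_8_5_2 _ _ (by decide +kernel)

/-- certificates of the pair `(8, 5)`, part 3 -/
def t21_22_8_5_3 : BlkD.Tr :=
  .S 1 8 (.L 6 9 [5, 3, 21, 21, 21, 21] [] [] 100000 1 1 1533334 66667 66667 83333 66667 0 0 0) (.L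
    6 9 [5, 3, 21, 21, 21, 21] [] [] 100000 1 1 1533334 66667 66667 83333 66667 0 0 0)

lemma s21_22_8_5_3 {n : ℕ} (hn : 7 ≤ n) : NoNd (d21_22_8_5.R : ℤ) d21_22_8_5.H n d21_22_8_5.a d21_22_8_5.b
    (BlkD.inB (BlkD.upd (BlkD.upd (fun _ => 0) 0 1) 1 6)
      (BlkD.upd (BlkD.upd (BlkD.upd (BlkD.upd (BlkD.upd (BlkD.upd (fun _ => 22) 0 8) 2 5) 0 4) 0 2) 0 1) 1 11)) :=
  BlkD.tree_sound (BlkD.pairOk_sound k21_22_8_5) (by decide) hn t21_22_8_5_3 _ _ (by decide +kernel)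

/-- certificates of the pair `(8, 5)`, part 4 -/
def t21_22_8_5_4 : BlkD.Tr :=
  .L 6 9 [5, 3, 21, 21, 21, 21] [] [] 100000 1 1 1533334 66667 66667 83333 66667 0 0 0

lemma s21_22_8_5_4 {n : ℕ} (hn : 7 ≤ n) : NoNd (d21_22_8_5.R : ℤ) d21_22_8_5.H n d21_22_8_5.a d21_22_8_5.b
    (BlkD.inB (BlkD.upd (BlkD.upd (fun _ => 0) 0 1) 1 12)
      (BlkD.upd (BlkD.upd (BlkD.upd (BlkD.upd (BlkD.upd (fun _ => 22) 0 8) 2 5) 0 4) 0 2) 0 1)) :=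
  BlkD.tree_sound (BlkD.pairOk_sound k21_22_8_5) (by decide) hn t21_22_8_5_4 _ _ (by decide +kernel)

/-- certificates of the pair `(8, 5)`, part 5 -/
def t21_22_8_5_5 : BlkD.Tr :=
  .L 6 9 [5, 3, 21, 21, 21, 21] [] [] 100000 1 1 1533334 66667 66667 83333 66667 0 0 0

lemma s21_22_8_5_5 {n : ℕ} (hn : 7 ≤ n) : NoNd (d21_22_8_5.R : ℤ) d21_22_8_5.H n d21_22_8_5.a d21_22_8_5.b
    (BlkD.inB (BlkD.upd (fun _ => 0) 0 2)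
      (BlkD.upd (BlkD.upd (BlkD.upd (BlkD.upd (BlkD.upd (BlkD.upd (fun _ => 22) 0 8) 2 5) 0 4) 0 2) 1 11) 1 5)) :=
  BlkD.tree_sound (BlkD.pairOk_sound k21_22_8_5) (by decide) hn t21_22_8_5_5 _ _ (by decide +kernel)

/-- certificates of the pair `(8, 5)`, part 6 -/
def t21_22_8_5_6 : BlkD.Tr :=
  .S 1 8 (.L 6 9 [5, 3, 21, 21, 21, 21] [] [] 100000 1 1 1533334 66667 66667 83333 66667 0 0 0) (.L
    6 9 [5, 3, 21, 21, 21, 21] [] [] 100000 1 1 1533334 66667 66667 83333 66667 0 0 0)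

lemma s21_22_8_5_6 {n : ℕ} (hn : 7 ≤ n) : NoNd (d21_22_8_5.R : ℤ) d21_22_8_5.H n d21_22_8_5.a d21_22_8_5.b
    (BlkD.inB (BlkD.upd (BlkD.upd (fun _ => 0) 0 2) 1 6)
      (BlkD.upd (BlkD.upd (BlkD.upd (BlkD.upd (BlkD.upd (fun _ => 22) 0 8) 2 5) 0 4) 0 2) 1 11)) :=
  BlkD.tree_sound (BlkD.pairOk_sound k21_22_8_5) (by decide) hn t21_22_8_5_6 _ _ (by decide +kernel)

/-- certificates of the pair `(8, 5)`, part 7 -/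
def t21_22_8_5_7 : BlkD.Tr :=
  .L 6 9 [5, 3, 21, 21, 21, 21] [] [] 100000 1 1 1533334 66667 66667 83333 66667 0 0 0

lemma s21_22_8_5_7 {n : ℕ} (hn : 7 ≤ n) : NoNd (d21_22_8_5.R : ℤ) d21_22_8_5.H n d21_22_8_5.a d21_22_8_5.b
    (BlkD.inB (BlkD.upd (BlkD.upd (fun _ => 0) 0 2) 1 12)
      (BlkD.upd (BlkD.upd (BlkD.upd (BlkD.upd (fun _ => 22) 0 8) 2 5) 0 4) 0 2)) :=
  BlkD.tree_sound (BlkD.pairOk_sound k21_22_8_5) (by decide) hn t21_22_8_5_7 _ _ (by decide +kernel)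

/-- certificates of the pair `(8, 5)`, part 8 -/
def t21_22_8_5_8 : BlkD.Tr :=
  .L 6 9 [5, 3, 21, 21, 21, 21] [] [] 100000 1 1 1533334 66667 66667 83333 66667 0 0 0

lemma s21_22_8_5_8 {n : ℕ} (hn : 7 ≤ n) : NoNd (d21_22_8_5.R : ℤ) d21_22_8_5.H n d21_22_8_5.a d21_22_8_5.b
    (BlkD.inB (BlkD.upd (fun _ => 0) 0 3)
      (BlkD.upd (BlkD.upd (BlkD.upd (BlkD.upd (BlkD.upd (BlkD.upd (fun _ => 22) 0 8) 2 5) 0 4) 0 3) 1 11) 1 5)) :=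
  BlkD.tree_sound (BlkD.pairOk_sound k21_22_8_5) (by decide) hn t21_22_8_5_8 _ _ (by decide +kernel)

/-- certificates of the pair `(8, 5)`, part 9 -/
def t21_22_8_5_9 : BlkD.Tr :=
  .L 6 9 [5, 3, 21, 21, 21, 21] [] [] 100000 1 1 1533334 66667 66667 83333 66667 0 0 0

lemma s21_22_8_5_9 {n : ℕ} (hn : 7 ≤ n) : NoNd (d21_22_8_5.R : ℤ) d21_22_8_5.H n d21_22_8_5.a d21_22_8_5.b
    (BlkD.inB (BlkD.upd (BlkD.upd (fun _ => 0) 0 3) 1 6)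
      (BlkD.upd (BlkD.upd (BlkD.upd (BlkD.upd (BlkD.upd (BlkD.upd (fun _ => 22) 0 8) 2 5) 0 4) 0 3) 1 11) 1 8)) :=
  BlkD.tree_sound (BlkD.pairOk_sound k21_22_8_5) (by decide) hn t21_22_8_5_9 _ _ (by decide +kernel)

/-- certificates of the pair `(8, 5)`, part 10 -/
def t21_22_8_5_10 : BlkD.Tr :=
  .L 6 9 [5, 3, 21, 21, 21, 21] [] [] 100000 1 1 1533334 66667 66667 83333 66667 0 0 0

lemma s21_22_8_5_10 {n : ℕ} (hn : 7 ≤ n) : NoNd (d21_22_8_5.R : ℤ) d21_22_8_5.H n d21_22_8_5.a d21_22_8_5.b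
    (BlkD.inB (BlkD.upd (BlkD.upd (BlkD.upd (fun _ => 0) 0 3) 1 6) 1 9)
      (BlkD.upd (BlkD.upd (BlkD.upd (BlkD.upd (BlkD.upd (fun _ => 22) 0 8) 2 5) 0 4) 0 3) 1 11)) :=
  BlkD.tree_sound (BlkD.pairOk_sound k21_22_8_5) (by decide) hn t21_22_8_5_10 _ _ (by decide +kernel)

/-- certificates of the pair `(8, 5)`, part 11 -/
def t21_22_8_5_11 : BlkD.Tr :=
  .L 6 9 [5, 3, 21, 21, 21, 21] [] [] 100000 1 1 1533334 66667 66667 83333 66667 0 0 0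

lemma s21_22_8_5_11 {n : ℕ} (hn : 7 ≤ n) : NoNd (d21_22_8_5.R : ℤ) d21_22_8_5.H n d21_22_8_5.a d21_22_8_5.b
    (BlkD.inB (BlkD.upd (BlkD.upd (fun _ => 0) 0 3) 1 12)
      (BlkD.upd (BlkD.upd (BlkD.upd (BlkD.upd (fun _ => 22) 0 8) 2 5) 0 4) 0 3)) :=
  BlkD.tree_sound (BlkD.pairOk_sound k21_22_8_5) (by decide) hn t21_22_8_5_11 _ _ (by decide +kernel)

/-- certificates of the pair `(8, 5)`, part 12 -/
def t21_22_8_5_12 : BlkD.Tr :=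
  .L 6 9 [5, 3, 21, 21, 21, 21] [] [] 100000 1 1 1533334 66667 66667 83333 66667 0 0 0

lemma s21_22_8_5_12 {n : ℕ} (hn : 7 ≤ n) : NoNd (d21_22_8_5.R : ℤ) d21_22_8_5.H n d21_22_8_5.a d21_22_8_5.b
    (BlkD.inB (BlkD.upd (BlkD.upd (fun _ => 0) 0 3) 0 4)
      (BlkD.upd (BlkD.upd (BlkD.upd (BlkD.upd (BlkD.upd (fun _ => 22) 0 8) 2 5) 0 4) 1 11) 1 5)) :=
  BlkD.tree_sound (BlkD.pairOk_sound k21_22_8_5) (by decide) hn t21_22_8_5_12 _ _ (by decide +kernel)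

/-- certificates of the pair `(8, 5)`, part 13 -/
def t21_22_8_5_13 : BlkD.Tr :=
  .L 6 9 [5, 3, 21, 21, 21, 21] [] [] 100000 1 1 1533334 66667 66667 83333 66667 0 0 0

lemma s21_22_8_5_13 {n : ℕ} (hn : 7 ≤ n) : NoNd (d21_22_8_5.R : ℤ) d21_22_8_5.H n d21_22_8_5.a d21_22_8_5.b
    (BlkD.inB (BlkD.upd (BlkD.upd (BlkD.upd (fun _ => 0) 0 3) 0 4) 1 6)
      (BlkD.upd (BlkD.upd (BlkD.upd (BlkD.upd (BlkD.upd (fun _ => 22) 0 8) 2 5) 0 4) 1 11) 1 8)) :=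
  BlkD.tree_sound (BlkD.pairOk_sound k21_22_8_5) (by decide) hn t21_22_8_5_13 _ _ (by decide +kernel)

/-- certificates of the pair `(8, 5)`, part 14 -/
def t21_22_8_5_14 : BlkD.Tr :=
  .L 6 9 [5, 3, 21, 21, 21, 21] [] [] 100000 1 1 1533334 66667 66667 83333 66667 0 0 0

lemma s21_22_8_5_14 {n : ℕ} (hn : 7 ≤ n) : NoNd (d21_22_8_5.R : ℤ) d21_22_8_5.H n d21_22_8_5.a d21_22_8_5.b
    (BlkD.inB (BlkD.upd (BlkD.upd (BlkD.upd (BlkD.upd (fun _ => 0) 0 3) 0 4) 1 6) 1 9)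
      (BlkD.upd (BlkD.upd (BlkD.upd (BlkD.upd (fun _ => 22) 0 8) 2 5) 0 4) 1 11)) :=
  BlkD.tree_sound (BlkD.pairOk_sound k21_22_8_5) (by decide) hn t21_22_8_5_14 _ _ (by decide +kernel)

/-- certificates of the pair `(8, 5)`, part 15 -/
def t21_22_8_5_15 : BlkD.Tr :=
  .L 6 9 [5, 3, 21, 21, 21, 21] [] [] 100000 1 1 1533334 66667 66667 83333 66667 0 0 0

lemma s21_22_8_5_15 {n : ℕ} (hn : 7 ≤ n) : NoNd (d21_22_8_5.R : ℤ) d21_22_8_5.H n d21_22_8_5.a d21_22_8_5.b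
    (BlkD.inB (BlkD.upd (BlkD.upd (BlkD.upd (fun _ => 0) 0 3) 0 4) 1 12)
      (BlkD.upd (BlkD.upd (BlkD.upd (fun _ => 22) 0 8) 2 5) 0 4)) :=
  BlkD.tree_sound (BlkD.pairOk_sound k21_22_8_5) (by decide) hn t21_22_8_5_15 _ _ (by decide +kernel)

/-- certificates of the pair `(8, 5)`, part 16 -/
def t21_22_8_5_16 : BlkD.Tr :=
  .L 6 9 [5, 3, 21, 21, 21, 21] [] [] 100000 1 1 1533334 66667 66667 83333 66667 0 0 0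

lemma s21_22_8_5_16 {n : ℕ} (hn : 7 ≤ n) : NoNd (d21_22_8_5.R : ℤ) d21_22_8_5.H n d21_22_8_5.a d21_22_8_5.b
    (BlkD.inB (BlkD.upd (fun _ => 0) 0 5)
      (BlkD.upd (BlkD.upd (BlkD.upd (BlkD.upd (BlkD.upd (BlkD.upd (fun _ => 22) 0 8) 2 5) 0 6) 0 5) 1 11) 1 5)) :=
  BlkD.tree_sound (BlkD.pairOk_sound k21_22_8_5) (by decide) hn t21_22_8_5_16 _ _ (by decide +kernel)

/-- certificates of the pair `(8, 5)`, part 17 -/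
def t21_22_8_5_17 : BlkD.Tr :=
  .L 6 9 [5, 3, 21, 21, 21, 21] [] [] 100000 1 1 1533334 66667 66667 83333 66667 0 0 0

lemma s21_22_8_5_17 {n : ℕ} (hn : 7 ≤ n) : NoNd (d21_22_8_5.R : ℤ) d21_22_8_5.H n d21_22_8_5.a d21_22_8_5.b
    (BlkD.inB (BlkD.upd (BlkD.upd (fun _ => 0) 0 5) 1 6)
      (BlkD.upd (BlkD.upd (BlkD.upd (BlkD.upd (BlkD.upd (fun _ => 22) 0 8) 2 5) 0 6) 0 5) 1 11)) :=
  BlkD.tree_sound (BlkD.pairOk_sound k21_22_8_5) (by decide) hn t21_22_8_5_17 _ _ (by decide +kernel)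

/-- certificates of the pair `(8, 5)`, part 18 -/
def t21_22_8_5_18 : BlkD.Tr :=
  .L 6 9 [5, 3, 21, 21, 21, 21] [] [] 100000 1 1 1533334 66667 66667 83333 66667 0 0 0

lemma s21_22_8_5_18 {n : ℕ} (hn : 7 ≤ n) : NoNd (d21_22_8_5.R : ℤ) d21_22_8_5.H n d21_22_8_5.a d21_22_8_5.b
    (BlkD.inB (BlkD.upd (BlkD.upd (fun _ => 0) 0 5) 1 12)
      (BlkD.upd (BlkD.upd (BlkD.upd (BlkD.upd (fun _ => 22) 0 8) 2 5) 0 6) 0 5)) :=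
  BlkD.tree_sound (BlkD.pairOk_sound k21_22_8_5) (by decide) hn t21_22_8_5_18 _ _ (by decide +kernel)

/-- certificates of the pair `(8, 5)`, part 19 -/
def t21_22_8_5_19 : BlkD.Tr :=
  .L 6 9 [5, 3, 21, 21, 21, 21] [] [] 100000 1 1 1533334 66667 66667 83333 66667 0 0 0

lemma s21_22_8_5_19 {n : ℕ} (hn : 7 ≤ n) : NoNd (d21_22_8_5.R : ℤ) d21_22_8_5.H n d21_22_8_5.a d21_22_8_5.b
    (BlkD.inB (BlkD.upd (BlkD.upd (fun _ => 0) 0 5) 0 6)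
      (BlkD.upd (BlkD.upd (BlkD.upd (fun _ => 22) 0 8) 2 5) 0 6)) :=
  BlkD.tree_sound (BlkD.pairOk_sound k21_22_8_5) (by decide) hn t21_22_8_5_19 _ _ (by decide +kernel)

/-- certificates of the pair `(8, 5)`, part 20 -/
def t21_22_8_5_20 : BlkD.Tr :=
  .L 6 9 [5, 3, 21, 21, 21, 21] [] [] 100000 1 1 1533334 66667 66667 83333 66667 0 0 0

lemma s21_22_8_5_20 {n : ℕ} (hn : 7 ≤ n) : NoNd (d21_22_8_5.R : ℤ) d21_22_8_5.H n d21_22_8_5.a d21_22_8_5.b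
    (BlkD.inB (BlkD.upd (BlkD.upd (fun _ => 0) 0 5) 0 7)
      (BlkD.upd (BlkD.upd (fun _ => 22) 0 8) 2 5)) :=
  BlkD.tree_sound (BlkD.pairOk_sound k21_22_8_5) (by decide) hn t21_22_8_5_20 _ _ (by decide +kernel)

/-- certificates of the pair `(8, 5)`, part 21 -/
def t21_22_8_5_21 : BlkD.Tr :=
  .E 1

lemma s21_22_8_5_21 {n : ℕ} (hn : 7 ≤ n) : NoNd (d21_22_8_5.R : ℤ) d21_22_8_5.H n d21_22_8_5.a d21_22_8_5.b
    (BlkD.inB (BlkD.upd (fun _ => 0) 2 6)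
      (BlkD.upd (fun _ => 22) 0 8)) :=
  BlkD.tree_sound (BlkD.pairOk_sound k21_22_8_5) (by decide) hn t21_22_8_5_21 _ _ (by decide +kernel)

/-- certificates of the pair `(8, 5)`, part 22 -/
def t21_22_8_5_22 : BlkD.Tr :=
  .E 0

lemma s21_22_8_5_22 {n : ℕ} (hn : 7 ≤ n) : NoNd (d21_22_8_5.R : ℤ) d21_22_8_5.H n d21_22_8_5.a d21_22_8_5.b
    (BlkD.inB (BlkD.upd (fun _ => 0) 0 9)
      (fun _ => 22)) :=
  BlkD.tree_sound (BlkD.pairOk_sound k21_22_8_5) (by decide) hn t21_22_8_5_22 _ _ (by decide +kernel)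

lemma pr21_22_8_5 {n : ℕ} (hn : 7 ≤ n) : NoPr ((21 : ℕ) : ℤ) ((22 : ℕ) : ℤ) n 8 5 :=
  BlkD.of_root (R := d21_22_8_5.R) (H := d21_22_8_5.H) (a := d21_22_8_5.a) (b := d21_22_8_5.b) (q := 5) (by decide) hn
    (BlkD.sp 0 8 (BlkD.sp 2 5 (BlkD.sp 0 4 (BlkD.sp 0 2 (BlkD.sp 0 1 (BlkD.sp 0 0 (s21_22_8_5_1 hn)
      (BlkD.sp 1 11 (BlkD.sp 1 5 (s21_22_8_5_2 hn) (s21_22_8_5_3 hn)) (s21_22_8_5_4 hn))) (BlkD.sp
      1 11 (BlkD.sp 1 5 (s21_22_8_5_5 hn) (s21_22_8_5_6 hn)) (s21_22_8_5_7 hn))) (BlkD.sp 0 3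
      (BlkD.sp 1 11 (BlkD.sp 1 5 (s21_22_8_5_8 hn) (BlkD.sp 1 8 (s21_22_8_5_9 hn) (s21_22_8_5_10
      hn))) (s21_22_8_5_11 hn)) (BlkD.sp 1 11 (BlkD.sp 1 5 (s21_22_8_5_12 hn) (BlkD.sp 1 8
      (s21_22_8_5_13 hn) (s21_22_8_5_14 hn))) (s21_22_8_5_15 hn)))) (BlkD.sp 0 6 (BlkD.sp 0 5
      (BlkD.sp 1 11 (BlkD.sp 1 5 (s21_22_8_5_16 hn) (s21_22_8_5_17 hn)) (s21_22_8_5_18 hn))
      (s21_22_8_5_19 hn)) (s21_22_8_5_20 hn))) (s21_22_8_5_21 hn)) (s21_22_8_5_22 hn))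

end BlkC

end Pool.Agent.Lib.MP_f04ccf_co
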