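import Pool.Agent.Lib.MP_f04ccf_co.M.BlkT

/-!
MP_f04ccf_co, block certificate, data `R = 21`, `H = 22`, part 12 (generated, helper99:
bd10.cpp, gen2.py).
-/

set_option autoImplicit false
set_option maxRecDepth 100000

namespace Pool.Agent.Lib.MP_f04ccf_co

namespace BlkC

/-- the numbers of the pair `(8, 6)`, `R = 21`, `H = 22` -/
def d21_22_8_6 : BlkD.Pd :=
  ⟨21, 22, 5, 8, 6, 5, 0, 4, 0, 4, 4, 0, 0, 4, 4, 0, [0, 4, 8, 12, 16, 20], [0, 4, 8, 12, 16, 20],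
    [⟨1, 1, 1, 4, 8, [0, 4], [0, 4]⟩]⟩

lemma k21_22_8_6 : BlkD.pairOk d21_22_8_6 = true := by decide +kernel

/-- certificates of the pair `(8, 6)`, part 1 -/
def t21_22_8_6_1 : BlkD.Tr :=
  .L 4 4 [4, 21, 21, 21, 21, 21, 21] [] [] 100000 0 0 1600000 50000 50000 66667 50000 0 0 0

lemma s21_22_8_6_1 {n : ℕ} (hn : 7 ≤ n) : NoNd (d21_22_8_6.R : ℤ) d21_22_8_6.H n d21_22_8_6.a d21_22_8_6.b
    (BlkD.inB (fun _ => 0)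
      (BlkD.upd (BlkD.upd (BlkD.upd (BlkD.upd (BlkD.upd (BlkD.upd (fun _ => 22) 0 8) 2 6) 0 4) 0 2) 0 1) 0 0)) :=
  BlkD.tree_sound (BlkD.pairOk_sound k21_22_8_6) (by decide) hn t21_22_8_6_1 _ _ (by decide +kernel)

/-- certificates of the pair `(8, 6)`, part 2 -/
def t21_22_8_6_2 : BlkD.Tr :=
  .S 1 2 (.L 4 4 [4, 21, 21, 21, 21, 21, 21] [] [] 100000 0 0 1600000 50000 50000 66667 50000 0 0
    0) (.L 4 4 [4, 21, 21, 21, 21, 21, 21] [] [] 100000 0 0 1600000 50000 50000 66667 50000 0 0 0)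

lemma s21_22_8_6_2 {n : ℕ} (hn : 7 ≤ n) : NoNd (d21_22_8_6.R : ℤ) d21_22_8_6.H n d21_22_8_6.a d21_22_8_6.b
    (BlkD.inB (BlkD.upd (fun _ => 0) 0 1)
      (BlkD.upd (BlkD.upd (BlkD.upd (BlkD.upd (BlkD.upd (BlkD.upd (BlkD.upd (fun _ => 22) 0 8) 2 6) 0 4) 0 2) 0 1) 1 11) 1 5)) :=
  BlkD.tree_sound (BlkD.pairOk_sound k21_22_8_6) (by decide) hn t21_22_8_6_2 _ _ (by decide +kernel)

/-- certificates of the pair `(8, 6)`, part 3 -/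
def t21_22_8_6_3 : BlkD.Tr :=
  .L 4 4 [4, 21, 21, 21, 21, 21, 21] [] [] 100000 0 0 1600000 50000 50000 66667 50000 0 0 0

lemma s21_22_8_6_3 {n : ℕ} (hn : 7 ≤ n) : NoNd (d21_22_8_6.R : ℤ) d21_22_8_6.H n d21_22_8_6.a d21_22_8_6.b
    (BlkD.inB (BlkD.upd (BlkD.upd (fun _ => 0) 0 1) 1 6)
      (BlkD.upd (BlkD.upd (BlkD.upd (BlkD.upd (BlkD.upd (BlkD.upd (BlkD.upd (fun _ => 22) 0 8) 2 6) 0 4) 0 2) 0 1) 1 11) 1 8)) :=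
  BlkD.tree_sound (BlkD.pairOk_sound k21_22_8_6) (by decide) hn t21_22_8_6_3 _ _ (by decide +kernel)

/-- certificates of the pair `(8, 6)`, part 4 -/
def t21_22_8_6_4 : BlkD.Tr :=
  .L 4 4 [4, 21, 21, 21, 21, 21, 21] [] [] 100000 0 0 1600000 50000 50000 66667 50000 0 0 0

lemma s21_22_8_6_4 {n : ℕ} (hn : 7 ≤ n) : NoNd (d21_22_8_6.R : ℤ) d21_22_8_6.H n d21_22_8_6.a d21_22_8_6.b
    (BlkD.inB (BlkD.upd (BlkD.upd (BlkD.upd (fun _ => 0) 0 1) 1 6) 1 9)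
      (BlkD.upd (BlkD.upd (BlkD.upd (BlkD.upd (BlkD.upd (BlkD.upd (fun _ => 22) 0 8) 2 6) 0 4) 0 2) 0 1) 1 11)) :=
  BlkD.tree_sound (BlkD.pairOk_sound k21_22_8_6) (by decide) hn t21_22_8_6_4 _ _ (by decide +kernel)

/-- certificates of the pair `(8, 6)`, part 5 -/
def t21_22_8_6_5 : BlkD.Tr :=
  .L 4 4 [4, 21, 21, 21, 21, 21, 21] [] [] 100000 0 0 1600000 50000 50000 66667 50000 0 0 0

lemma s21_22_8_6_5 {n : ℕ} (hn : 7 ≤ n) : NoNd (d21_22_8_6.R : ℤ) d21_22_8_6.H n d21_22_8_6.a d21_22_8_6.b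
    (BlkD.inB (BlkD.upd (BlkD.upd (fun _ => 0) 0 1) 1 12)
      (BlkD.upd (BlkD.upd (BlkD.upd (BlkD.upd (BlkD.upd (fun _ => 22) 0 8) 2 6) 0 4) 0 2) 0 1)) :=
  BlkD.tree_sound (BlkD.pairOk_sound k21_22_8_6) (by decide) hn t21_22_8_6_5 _ _ (by decide +kernel)

/-- certificates of the pair `(8, 6)`, part 6 -/
def t21_22_8_6_6 : BlkD.Tr :=
  .S 1 2 (.L 4 4 [4, 21, 21, 21, 21, 21, 21] [] [] 100000 0 0 1600000 50000 50000 66667 50000 0 0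
    0) (.L 4 4 [4, 21, 21, 21, 21, 21, 21] [] [] 100000 0 0 1600000 50000 50000 66667 50000 0 0 0)

lemma s21_22_8_6_6 {n : ℕ} (hn : 7 ≤ n) : NoNd (d21_22_8_6.R : ℤ) d21_22_8_6.H n d21_22_8_6.a d21_22_8_6.b
    (BlkD.inB (BlkD.upd (fun _ => 0) 0 2)
      (BlkD.upd (BlkD.upd (BlkD.upd (BlkD.upd (BlkD.upd (BlkD.upd (fun _ => 22) 0 8) 2 6) 0 4) 0 2) 1 11) 1 5)) :=
  BlkD.tree_sound (BlkD.pairOk_sound k21_22_8_6) (by decide) hn t21_22_8_6_6 _ _ (by decide +kernel)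

/-- certificates of the pair `(8, 6)`, part 7 -/
def t21_22_8_6_7 : BlkD.Tr :=
  .L 4 4 [4, 21, 21, 21, 21, 21, 21] [] [] 100000 0 0 1600000 50000 50000 66667 50000 0 0 0

lemma s21_22_8_6_7 {n : ℕ} (hn : 7 ≤ n) : NoNd (d21_22_8_6.R : ℤ) d21_22_8_6.H n d21_22_8_6.a d21_22_8_6.b
    (BlkD.inB (BlkD.upd (BlkD.upd (fun _ => 0) 0 2) 1 6)
      (BlkD.upd (BlkD.upd (BlkD.upd (BlkD.upd (BlkD.upd (BlkD.upd (BlkD.upd (fun _ => 22) 0 8) 2 6) 0 4) 0 2) 1 11) 1 8) 1 7)) :=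
  BlkD.tree_sound (BlkD.pairOk_sound k21_22_8_6) (by decide) hn t21_22_8_6_7 _ _ (by decide +kernel)

/-- certificates of the pair `(8, 6)`, part 8 -/
def t21_22_8_6_8 : BlkD.Tr :=
  .L 4 4 [4, 21, 21, 21, 21, 21, 21] [156, 152, 148, 144, 140, 130] [] 100000 0 0 1600000 50000
    50000 66667 50000 0 0 0

lemma s21_22_8_6_8 {n : ℕ} (hn : 7 ≤ n) : NoNd (d21_22_8_6.R : ℤ) d21_22_8_6.H n d21_22_8_6.a d21_22_8_6.b
    (BlkD.inB (BlkD.upd (BlkD.upd (BlkD.upd (fun _ => 0) 0 2) 1 6) 1 8)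
      (BlkD.upd (BlkD.upd (BlkD.upd (BlkD.upd (BlkD.upd (BlkD.upd (fun _ => 22) 0 8) 2 6) 0 4) 0 2) 1 11) 1 8)) :=
  BlkD.tree_sound (BlkD.pairOk_sound k21_22_8_6) (by decide) hn t21_22_8_6_8 _ _ (by decide +kernel)

/-- certificates of the pair `(8, 6)`, part 9 -/
def t21_22_8_6_9 : BlkD.Tr :=
  .L 4 4 [4, 21, 21, 21, 21, 21, 21] [180, 176, 172, 168, 164, 160] [] 100000 0 0 1600000 50000
    50000 66667 50000 0 0 0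

lemma s21_22_8_6_9 {n : ℕ} (hn : 7 ≤ n) : NoNd (d21_22_8_6.R : ℤ) d21_22_8_6.H n d21_22_8_6.a d21_22_8_6.b
    (BlkD.inB (BlkD.upd (BlkD.upd (BlkD.upd (fun _ => 0) 0 2) 1 6) 1 9)
      (BlkD.upd (BlkD.upd (BlkD.upd (BlkD.upd (BlkD.upd (BlkD.upd (BlkD.upd (fun _ => 22) 0 8) 2 6) 0 4) 0 2) 1 11) 1 10) 1 9)) :=
  BlkD.tree_sound (BlkD.pairOk_sound k21_22_8_6) (by decide) hn t21_22_8_6_9 _ _ (by decide +kernel)

/-- certificates of the pair `(8, 6)`, part 10 -/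
def t21_22_8_6_10 : BlkD.Tr :=
  .L 4 4 [4, 21, 21, 21, 21, 21, 21] [202, 202, 198, 194, 190, 186] [] 100000 0 0 1600000 50000
    50000 66667 50000 0 0 0

lemma s21_22_8_6_10 {n : ℕ} (hn : 7 ≤ n) : NoNd (d21_22_8_6.R : ℤ) d21_22_8_6.H n d21_22_8_6.a d21_22_8_6.b
    (BlkD.inB (BlkD.upd (BlkD.upd (BlkD.upd (BlkD.upd (fun _ => 0) 0 2) 1 6) 1 9) 1 10)
      (BlkD.upd (BlkD.upd (BlkD.upd (BlkD.upd (BlkD.upd (BlkD.upd (fun _ => 22) 0 8) 2 6) 0 4) 0 2) 1 11) 1 10)) :=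
  BlkD.tree_sound (BlkD.pairOk_sound k21_22_8_6) (by decide) hn t21_22_8_6_10 _ _ (by decide +kernel)

/-- certificates of the pair `(8, 6)`, part 11 -/
def t21_22_8_6_11 : BlkD.Tr :=
  .L 4 4 [4, 21, 21, 21, 21, 21, 21] [226, 226, 226, 222, 218, 214] [] 100000 0 0 1600000 50000
    50000 66667 50000 0 0 0

lemma s21_22_8_6_11 {n : ℕ} (hn : 7 ≤ n) : NoNd (d21_22_8_6.R : ℤ) d21_22_8_6.H n d21_22_8_6.a d21_22_8_6.b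
    (BlkD.inB (BlkD.upd (BlkD.upd (BlkD.upd (BlkD.upd (fun _ => 0) 0 2) 1 6) 1 9) 1 11)
      (BlkD.upd (BlkD.upd (BlkD.upd (BlkD.upd (BlkD.upd (fun _ => 22) 0 8) 2 6) 0 4) 0 2) 1 11)) :=
  BlkD.tree_sound (BlkD.pairOk_sound k21_22_8_6) (by decide) hn t21_22_8_6_11 _ _ (by decide +kernel)

/-- certificates of the pair `(8, 6)`, part 12 -/
def t21_22_8_6_12 : BlkD.Tr :=
  .S 1 17 (.S 1 14 (.S 1 13 (.L 4 4 [4, 21, 21, 21, 21, 21, 21] [] [] 100000 0 0 1600000 50000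
    50000 66667 50000 0 0 0) (.L 4 4 [4, 21, 21, 21, 21, 21, 21] [310, 310, 310, 310, 310, 310] []
    100000 0 0 1600000 50000 50000 66667 50000 0 0 0)) (.L 4 4 [4, 21, 21, 21, 21, 21, 21] [] []
    100000 0 0 1600000 50000 50000 66667 50000 0 0 0)) (.L 4 4 [4, 21, 21, 21, 21, 21, 21] [] []
    100000 0 0 1600000 50000 50000 66667 50000 0 0 0)

lemma s21_22_8_6_12 {n : ℕ} (hn : 7 ≤ n) : NoNd (d21_22_8_6.R : ℤ) d21_22_8_6.H n d21_22_8_6.a d21_22_8_6.b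
    (BlkD.inB (BlkD.upd (BlkD.upd (fun _ => 0) 0 2) 1 12)
      (BlkD.upd (BlkD.upd (BlkD.upd (BlkD.upd (fun _ => 22) 0 8) 2 6) 0 4) 0 2)) :=
  BlkD.tree_sound (BlkD.pairOk_sound k21_22_8_6) (by decide) hn t21_22_8_6_12 _ _ (by decide +kernel)

/-- certificates of the pair `(8, 6)`, part 13 -/
def t21_22_8_6_13 : BlkD.Tr :=
  .S 1 2 (.L 4 4 [4, 21, 21, 21, 21, 21, 21] [] [] 100000 0 0 1600000 50000 50000 66667 50000 0 0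
    0) (.L 4 4 [4, 21, 21, 21, 21, 21, 21] [] [] 100000 0 0 1600000 50000 50000 66667 50000 0 0 0)

lemma s21_22_8_6_13 {n : ℕ} (hn : 7 ≤ n) : NoNd (d21_22_8_6.R : ℤ) d21_22_8_6.H n d21_22_8_6.a d21_22_8_6.b
    (BlkD.inB (BlkD.upd (fun _ => 0) 0 3)
      (BlkD.upd (BlkD.upd (BlkD.upd (BlkD.upd (BlkD.upd (BlkD.upd (fun _ => 22) 0 8) 2 6) 0 4) 0 3) 1 11) 1 5)) :=
  BlkD.tree_sound (BlkD.pairOk_sound k21_22_8_6) (by decide) hn t21_22_8_6_13 _ _ (by decide +kernel)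

/-- certificates of the pair `(8, 6)`, part 14 -/
def t21_22_8_6_14 : BlkD.Tr :=
  .L 4 4 [4, 21, 21, 21, 21, 21, 21] [126, 122, 118, 108, 96, 82] [] 100000 0 0 1600000 50000 50000
    66667 50000 0 0 0

lemma s21_22_8_6_14 {n : ℕ} (hn : 7 ≤ n) : NoNd (d21_22_8_6.R : ℤ) d21_22_8_6.H n d21_22_8_6.a d21_22_8_6.b
    (BlkD.inB (BlkD.upd (BlkD.upd (fun _ => 0) 0 3) 1 6)
      (BlkD.upd (BlkD.upd (BlkD.upd (BlkD.upd (BlkD.upd (BlkD.upd (BlkD.upd (BlkD.upd (fun _ => 22) 0 8) 2 6) 0 4) 0 3) 1 11) 1 8) 1 7) 1 6)) :=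
  BlkD.tree_sound (BlkD.pairOk_sound k21_22_8_6) (by decide) hn t21_22_8_6_14 _ _ (by decide +kernel)

/-- certificates of the pair `(8, 6)`, part 15 -/
def t21_22_8_6_15 : BlkD.Tr :=
  .L 4 4 [4, 21, 21, 21, 21, 21, 21] [148, 144, 140, 136, 126, 114] [] 100000 0 0 1600000 50000
    50000 66667 50000 0 0 0

lemma s21_22_8_6_15 {n : ℕ} (hn : 7 ≤ n) : NoNd (d21_22_8_6.R : ℤ) d21_22_8_6.H n d21_22_8_6.a d21_22_8_6.b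
    (BlkD.inB (BlkD.upd (BlkD.upd (BlkD.upd (fun _ => 0) 0 3) 1 6) 1 7)
      (BlkD.upd (BlkD.upd (BlkD.upd (BlkD.upd (BlkD.upd (BlkD.upd (BlkD.upd (fun _ => 22) 0 8) 2 6) 0 4) 0 3) 1 11) 1 8) 1 7)) :=
  BlkD.tree_sound (BlkD.pairOk_sound k21_22_8_6) (by decide) hn t21_22_8_6_15 _ _ (by decide +kernel)

/-- certificates of the pair `(8, 6)`, part 16 -/
def t21_22_8_6_16 : BlkD.Tr :=
  .S 2 1 (.L 4 4 [4, 21, 21, 21, 21, 21, 21] [172, 168, 164, 160, 156, 146] [] 100000 0 0 1600000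
    50000 50000 66667 50000 0 0 0) (.L 4 4 [4, 21, 21, 21, 21, 21, 21] [172, 168, 164, 160, 156,
    146] [] 100000 0 0 1600000 50000 50000 66667 50000 0 0 0)

lemma s21_22_8_6_16 {n : ℕ} (hn : 7 ≤ n) : NoNd (d21_22_8_6.R : ℤ) d21_22_8_6.H n d21_22_8_6.a d21_22_8_6.b
    (BlkD.inB (BlkD.upd (BlkD.upd (BlkD.upd (fun _ => 0) 0 3) 1 6) 1 8)
      (BlkD.upd (BlkD.upd (BlkD.upd (BlkD.upd (BlkD.upd (BlkD.upd (BlkD.upd (fun _ => 22) 0 8) 2 6) 0 4) 0 3) 1 11) 1 8) 2 3)) :=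
  BlkD.tree_sound (BlkD.pairOk_sound k21_22_8_6) (by decide) hn t21_22_8_6_16 _ _ (by decide +kernel)

/-- certificates of the pair `(8, 6)`, part 17 -/
def t21_22_8_6_17 : BlkD.Tr :=
  .L 4 4 [4, 21, 21, 21, 21, 21, 21] [172, 168, 164, 160, 156, 146] [] 100000 0 0 1600000 50000
    50000 66667 50000 0 0 0

lemma s21_22_8_6_17 {n : ℕ} (hn : 7 ≤ n) : NoNd (d21_22_8_6.R : ℤ) d21_22_8_6.H n d21_22_8_6.a d21_22_8_6.b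
    (BlkD.inB (BlkD.upd (BlkD.upd (BlkD.upd (BlkD.upd (fun _ => 0) 0 3) 1 6) 1 8) 2 4)
      (BlkD.upd (BlkD.upd (BlkD.upd (BlkD.upd (BlkD.upd (BlkD.upd (fun _ => 22) 0 8) 2 6) 0 4) 0 3) 1 11) 1 8)) :=
  BlkD.tree_sound (BlkD.pairOk_sound k21_22_8_6) (by decide) hn t21_22_8_6_17 _ _ (by decide +kernel)

/-- certificates of the pair `(8, 6)`, part 18 -/
def t21_22_8_6_18 : BlkD.Tr :=
  .L 4 4 [4, 21, 21, 21, 21, 21, 21] [198, 194, 190, 186, 182, 178] [] 100000 0 0 1600000 50000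
    50000 66667 50000 0 0 0

lemma s21_22_8_6_18 {n : ℕ} (hn : 7 ≤ n) : NoNd (d21_22_8_6.R : ℤ) d21_22_8_6.H n d21_22_8_6.a d21_22_8_6.b
    (BlkD.inB (BlkD.upd (BlkD.upd (BlkD.upd (fun _ => 0) 0 3) 1 6) 1 9)
      (BlkD.upd (BlkD.upd (BlkD.upd (BlkD.upd (BlkD.upd (BlkD.upd (BlkD.upd (BlkD.upd (BlkD.upd (fun _ => 22) 0 8) 2 6) 0 4) 0 3) 1 11) 1 10) 1 9) 2 3) 2 1)) :=
  BlkD.tree_sound (BlkD.pairOk_sound k21_22_8_6) (by decide) hn t21_22_8_6_18 _ _ (by decide +kernel)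

/-- certificates of the pair `(8, 6)`, part 19 -/
def t21_22_8_6_19 : BlkD.Tr :=
  .S 2 2 (.L 4 4 [4, 21, 21, 21, 21, 21, 21] [198, 194, 190, 186, 182, 178] [] 100000 0 0 1600000
    50000 50000 66667 50000 0 0 0) (.L 4 4 [4, 21, 21, 21, 21, 21, 21] [198, 194, 190, 186, 182,
    178] [] 100000 0 0 1600000 50000 50000 66667 50000 0 0 0)

lemma s21_22_8_6_19 {n : ℕ} (hn : 7 ≤ n) : NoNd (d21_22_8_6.R : ℤ) d21_22_8_6.H n d21_22_8_6.a d21_22_8_6.b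
    (BlkD.inB (BlkD.upd (BlkD.upd (BlkD.upd (BlkD.upd (fun _ => 0) 0 3) 1 6) 1 9) 2 2)
      (BlkD.upd (BlkD.upd (BlkD.upd (BlkD.upd (BlkD.upd (BlkD.upd (BlkD.upd (BlkD.upd (fun _ => 22) 0 8) 2 6) 0 4) 0 3) 1 11) 1 10) 1 9) 2 3)) :=
  BlkD.tree_sound (BlkD.pairOk_sound k21_22_8_6) (by decide) hn t21_22_8_6_19 _ _ (by decide +kernel)

/-- certificates of the pair `(8, 6)`, part 20 -/
def t21_22_8_6_20 : BlkD.Tr :=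
  .L 4 4 [4, 21, 21, 21, 21, 21, 21] [198, 194, 190, 186, 182, 178] [] 100000 0 0 1600000 50000
    50000 66667 50000 0 0 0

lemma s21_22_8_6_20 {n : ℕ} (hn : 7 ≤ n) : NoNd (d21_22_8_6.R : ℤ) d21_22_8_6.H n d21_22_8_6.a d21_22_8_6.b
    (BlkD.inB (BlkD.upd (BlkD.upd (BlkD.upd (BlkD.upd (fun _ => 0) 0 3) 1 6) 1 9) 2 4)
      (BlkD.upd (BlkD.upd (BlkD.upd (BlkD.upd (BlkD.upd (BlkD.upd (BlkD.upd (fun _ => 22) 0 8) 2 6) 0 4) 0 3) 1 11) 1 10) 1 9)) :=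
  BlkD.tree_sound (BlkD.pairOk_sound k21_22_8_6) (by decide) hn t21_22_8_6_20 _ _ (by decide +kernel)

/-- certificates of the pair `(8, 6)`, part 21 -/
def t21_22_8_6_21 : BlkD.Tr :=
  .S 2 1 (.L 4 4 [4, 21, 21, 21, 21, 21, 21] [222, 222, 218, 214, 210, 206] [] 100000 0 0 1600000
    50000 50000 66667 50000 0 0 0) (.L 4 4 [4, 21, 21, 21, 21, 21, 21] [222, 222, 218, 214, 210,
    206] [] 100000 0 0 1600000 50000 50000 66667 50000 0 0 0)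

lemma s21_22_8_6_21 {n : ℕ} (hn : 7 ≤ n) : NoNd (d21_22_8_6.R : ℤ) d21_22_8_6.H n d21_22_8_6.a d21_22_8_6.b
    (BlkD.inB (BlkD.upd (BlkD.upd (BlkD.upd (BlkD.upd (fun _ => 0) 0 3) 1 6) 1 9) 1 10)
      (BlkD.upd (BlkD.upd (BlkD.upd (BlkD.upd (BlkD.upd (BlkD.upd (BlkD.upd (fun _ => 22) 0 8) 2 6) 0 4) 0 3) 1 11) 1 10) 2 3)) :=
  BlkD.tree_sound (BlkD.pairOk_sound k21_22_8_6) (by decide) hn t21_22_8_6_21 _ _ (by decide +kernel)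

/-- certificates of the pair `(8, 6)`, part 22 -/
def t21_22_8_6_22 : BlkD.Tr :=
  .L 4 4 [4, 21, 21, 21, 21, 21, 21] [222, 222, 218, 214, 210, 206] [] 100000 0 0 1600000 50000
    50000 66667 50000 0 0 0

lemma s21_22_8_6_22 {n : ℕ} (hn : 7 ≤ n) : NoNd (d21_22_8_6.R : ℤ) d21_22_8_6.H n d21_22_8_6.a d21_22_8_6.b
    (BlkD.inB (BlkD.upd (BlkD.upd (BlkD.upd (BlkD.upd (BlkD.upd (fun _ => 0) 0 3) 1 6) 1 9) 1 10) 2 4)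
      (BlkD.upd (BlkD.upd (BlkD.upd (BlkD.upd (BlkD.upd (BlkD.upd (fun _ => 22) 0 8) 2 6) 0 4) 0 3) 1 11) 1 10)) :=
  BlkD.tree_sound (BlkD.pairOk_sound k21_22_8_6) (by decide) hn t21_22_8_6_22 _ _ (by decide +kernel)

/-- certificates of the pair `(8, 6)`, part 23 -/
def t21_22_8_6_23 : BlkD.Tr :=
  .S 2 3 (.L 4 4 [4, 21, 21, 21, 21, 21, 21] [248, 248, 248, 244, 240, 236] [] 100000 0 0 1600000
    50000 50000 66667 50000 0 0 0) (.L 4 4 [4, 21, 21, 21, 21, 21, 21] [248, 248, 248, 244, 240,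
    236] [] 100000 0 0 1600000 50000 50000 66667 50000 0 0 0)

lemma s21_22_8_6_23 {n : ℕ} (hn : 7 ≤ n) : NoNd (d21_22_8_6.R : ℤ) d21_22_8_6.H n d21_22_8_6.a d21_22_8_6.b
    (BlkD.inB (BlkD.upd (BlkD.upd (BlkD.upd (BlkD.upd (fun _ => 0) 0 3) 1 6) 1 9) 1 11)
      (BlkD.upd (BlkD.upd (BlkD.upd (BlkD.upd (BlkD.upd (fun _ => 22) 0 8) 2 6) 0 4) 0 3) 1 11)) :=
  BlkD.tree_sound (BlkD.pairOk_sound k21_22_8_6) (by decide) hn t21_22_8_6_23 _ _ (by decide +kernel)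

/-- certificates of the pair `(8, 6)`, part 24 -/
def t21_22_8_6_24 : BlkD.Tr :=
  .L 4 4 [4, 21, 21, 21, 21, 21, 21] [] [] 100000 0 0 1600000 50000 50000 66667 50000 0 0 0

lemma s21_22_8_6_24 {n : ℕ} (hn : 7 ≤ n) : NoNd (d21_22_8_6.R : ℤ) d21_22_8_6.H n d21_22_8_6.a d21_22_8_6.b
    (BlkD.inB (BlkD.upd (BlkD.upd (fun _ => 0) 0 3) 1 12)
      (BlkD.upd (BlkD.upd (BlkD.upd (BlkD.upd (fun _ => 22) 0 8) 2 6) 0 4) 0 3)) :=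
  BlkD.tree_sound (BlkD.pairOk_sound k21_22_8_6) (by decide) hn t21_22_8_6_24 _ _ (by decide +kernel)

/-- certificates of the pair `(8, 6)`, part 25 -/
def t21_22_8_6_25 : BlkD.Tr :=
  .L 4 4 [4, 21, 21, 21, 21, 21, 21] [] [] 100000 0 0 1600000 50000 50000 66667 50000 0 0 0

lemma s21_22_8_6_25 {n : ℕ} (hn : 7 ≤ n) : NoNd (d21_22_8_6.R : ℤ) d21_22_8_6.H n d21_22_8_6.a d21_22_8_6.b
    (BlkD.inB (BlkD.upd (BlkD.upd (fun _ => 0) 0 3) 0 4)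
      (BlkD.upd (BlkD.upd (BlkD.upd (BlkD.upd (BlkD.upd (BlkD.upd (fun _ => 22) 0 8) 2 6) 0 4) 1 11) 1 5) 1 2)) :=
  BlkD.tree_sound (BlkD.pairOk_sound k21_22_8_6) (by decide) hn t21_22_8_6_25 _ _ (by decide +kernel)

/-- certificates of the pair `(8, 6)`, part 26 -/
def t21_22_8_6_26 : BlkD.Tr :=
  .S 1 4 (.L 4 4 [4, 21, 21, 21, 21, 21, 21] [] [] 100000 0 0 1600000 50000 50000 66667 50000 0 0
    0) (.L 4 4 [4, 21, 21, 21, 21, 21, 21] [116, 112, 102, 90, 76, 60] [] 100000 0 0 1600000 50000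
    50000 66667 50000 0 0 0)

lemma s21_22_8_6_26 {n : ℕ} (hn : 7 ≤ n) : NoNd (d21_22_8_6.R : ℤ) d21_22_8_6.H n d21_22_8_6.a d21_22_8_6.b
    (BlkD.inB (BlkD.upd (BlkD.upd (BlkD.upd (fun _ => 0) 0 3) 0 4) 1 3)
      (BlkD.upd (BlkD.upd (BlkD.upd (BlkD.upd (BlkD.upd (fun _ => 22) 0 8) 2 6) 0 4) 1 11) 1 5)) :=
  BlkD.tree_sound (BlkD.pairOk_sound k21_22_8_6) (by decide) hn t21_22_8_6_26 _ _ (by decide +kernel)

/-- certificates of the pair `(8, 6)`, part 27 -/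
def t21_22_8_6_27 : BlkD.Tr :=
  .L 4 4 [4, 21, 21, 21, 21, 21, 21] [138, 134, 130, 120, 108, 94] [] 100000 0 0 1600000 50000
    50000 66667 50000 0 0 0

lemma s21_22_8_6_27 {n : ℕ} (hn : 7 ≤ n) : NoNd (d21_22_8_6.R : ℤ) d21_22_8_6.H n d21_22_8_6.a d21_22_8_6.b
    (BlkD.inB (BlkD.upd (BlkD.upd (BlkD.upd (fun _ => 0) 0 3) 0 4) 1 6)
      (BlkD.upd (BlkD.upd (BlkD.upd (BlkD.upd (BlkD.upd (BlkD.upd (BlkD.upd (fun _ => 22) 0 8) 2 6) 0 4) 1 11) 1 8) 1 7) 1 6)) :=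
  BlkD.tree_sound (BlkD.pairOk_sound k21_22_8_6) (by decide) hn t21_22_8_6_27 _ _ (by decide +kernel)

/-- certificates of the pair `(8, 6)`, part 28 -/
def t21_22_8_6_28 : BlkD.Tr :=
  .S 2 1 (.L 4 4 [4, 21, 21, 21, 21, 21, 21] [162, 158, 154, 150, 140, 128] [] 100000 0 0 1600000
    50000 50000 66667 50000 0 0 0) (.L 4 4 [4, 21, 21, 21, 21, 21, 21] [162, 158, 154, 150, 140,
    128] [] 100000 0 0 1600000 50000 50000 66667 50000 0 0 0)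

lemma s21_22_8_6_28 {n : ℕ} (hn : 7 ≤ n) : NoNd (d21_22_8_6.R : ℤ) d21_22_8_6.H n d21_22_8_6.a d21_22_8_6.b
    (BlkD.inB (BlkD.upd (BlkD.upd (BlkD.upd (BlkD.upd (fun _ => 0) 0 3) 0 4) 1 6) 1 7)
      (BlkD.upd (BlkD.upd (BlkD.upd (BlkD.upd (BlkD.upd (BlkD.upd (BlkD.upd (fun _ => 22) 0 8) 2 6) 0 4) 1 11) 1 8) 1 7) 2 3)) :=
  BlkD.tree_sound (BlkD.pairOk_sound k21_22_8_6) (by decide) hn t21_22_8_6_28 _ _ (by decide +kernel)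

/-- certificates of the pair `(8, 6)`, part 29 -/
def t21_22_8_6_29 : BlkD.Tr :=
  .L 4 4 [4, 21, 21, 21, 21, 21, 21] [162, 158, 154, 150, 140, 128] [] 100000 0 0 1600000 50000
    50000 66667 50000 0 0 0

lemma s21_22_8_6_29 {n : ℕ} (hn : 7 ≤ n) : NoNd (d21_22_8_6.R : ℤ) d21_22_8_6.H n d21_22_8_6.a d21_22_8_6.b
    (BlkD.inB (BlkD.upd (BlkD.upd (BlkD.upd (BlkD.upd (BlkD.upd (fun _ => 0) 0 3) 0 4) 1 6) 1 7) 2 4)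
      (BlkD.upd (BlkD.upd (BlkD.upd (BlkD.upd (BlkD.upd (BlkD.upd (fun _ => 22) 0 8) 2 6) 0 4) 1 11) 1 8) 1 7)) :=
  BlkD.tree_sound (BlkD.pairOk_sound k21_22_8_6) (by decide) hn t21_22_8_6_29 _ _ (by decide +kernel)

/-- certificates of the pair `(8, 6)`, part 30 -/
def t21_22_8_6_30 : BlkD.Tr :=
  .L 4 4 [4, 21, 21, 21, 21, 21, 21] [188, 184, 180, 176, 172, 162] [] 100000 0 0 1600000 50000
    50000 66667 50000 0 0 0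

lemma s21_22_8_6_30 {n : ℕ} (hn : 7 ≤ n) : NoNd (d21_22_8_6.R : ℤ) d21_22_8_6.H n d21_22_8_6.a d21_22_8_6.b
    (BlkD.inB (BlkD.upd (BlkD.upd (BlkD.upd (BlkD.upd (fun _ => 0) 0 3) 0 4) 1 6) 1 8)
      (BlkD.upd (BlkD.upd (BlkD.upd (BlkD.upd (BlkD.upd (BlkD.upd (BlkD.upd (fun _ => 22) 0 8) 2 6) 0 4) 1 11) 1 8) 2 3) 2 1)) :=
  BlkD.tree_sound (BlkD.pairOk_sound k21_22_8_6) (by decide) hn t21_22_8_6_30 _ _ (by decide +kernel)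

/-- certificates of the pair `(8, 6)`, part 31 -/
def t21_22_8_6_31 : BlkD.Tr :=
  .L 4 4 [4, 21, 21, 21, 21, 21, 21] [188, 184, 180, 176, 172, 162] [] 100000 0 0 1600000 50000
    50000 66667 50000 0 0 0

lemma s21_22_8_6_31 {n : ℕ} (hn : 7 ≤ n) : NoNd (d21_22_8_6.R : ℤ) d21_22_8_6.H n d21_22_8_6.a d21_22_8_6.b
    (BlkD.inB (BlkD.upd (BlkD.upd (BlkD.upd (BlkD.upd (BlkD.upd (fun _ => 0) 0 3) 0 4) 1 6) 1 8) 2 2)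
      (BlkD.upd (BlkD.upd (BlkD.upd (BlkD.upd (BlkD.upd (BlkD.upd (fun _ => 22) 0 8) 2 6) 0 4) 1 11) 1 8) 2 3)) :=
  BlkD.tree_sound (BlkD.pairOk_sound k21_22_8_6) (by decide) hn t21_22_8_6_31 _ _ (by decide +kernel)

/-- certificates of the pair `(8, 6)`, part 32 -/
def t21_22_8_6_32 : BlkD.Tr :=
  .L 4 4 [4, 21, 21, 21, 21, 21, 21] [188, 184, 180, 176, 172, 162] [] 100000 0 0 1600000 50000
    50000 66667 50000 0 0 0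

lemma s21_22_8_6_32 {n : ℕ} (hn : 7 ≤ n) : NoNd (d21_22_8_6.R : ℤ) d21_22_8_6.H n d21_22_8_6.a d21_22_8_6.b
    (BlkD.inB (BlkD.upd (BlkD.upd (BlkD.upd (BlkD.upd (BlkD.upd (fun _ => 0) 0 3) 0 4) 1 6) 1 8) 2 4)
      (BlkD.upd (BlkD.upd (BlkD.upd (BlkD.upd (BlkD.upd (fun _ => 22) 0 8) 2 6) 0 4) 1 11) 1 8)) :=
  BlkD.tree_sound (BlkD.pairOk_sound k21_22_8_6) (by decide) hn t21_22_8_6_32 _ _ (by decide +kernel)

/-- certificates of the pair `(8, 6)`, part 33 -/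
def t21_22_8_6_33 : BlkD.Tr :=
  .S 2 3 (.S 2 1 (.L 4 4 [4, 21, 21, 21, 21, 21, 21] [216, 212, 208, 204, 200, 196] [] 100000 0 0
    1600000 50000 50000 66667 50000 0 0 0) (.L 4 4 [4, 21, 21, 21, 21, 21, 21] [216, 212, 208, 204,
    200, 196] [] 100000 0 0 1600000 50000 50000 66667 50000 0 0 0)) (.L 4 4 [4, 21, 21, 21, 21, 21,
    21] [216, 212, 208, 204, 200, 196] [] 100000 0 0 1600000 50000 50000 66667 50000 0 0 0)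

lemma s21_22_8_6_33 {n : ℕ} (hn : 7 ≤ n) : NoNd (d21_22_8_6.R : ℤ) d21_22_8_6.H n d21_22_8_6.a d21_22_8_6.b
    (BlkD.inB (BlkD.upd (BlkD.upd (BlkD.upd (BlkD.upd (fun _ => 0) 0 3) 0 4) 1 6) 1 9)
      (BlkD.upd (BlkD.upd (BlkD.upd (BlkD.upd (BlkD.upd (BlkD.upd (fun _ => 22) 0 8) 2 6) 0 4) 1 11) 1 10) 1 9)) :=
  BlkD.tree_sound (BlkD.pairOk_sound k21_22_8_6) (by decide) hn t21_22_8_6_33 _ _ (by decide +kernel)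

/-- certificates of the pair `(8, 6)`, part 34 -/
def t21_22_8_6_34 : BlkD.Tr :=
  .L 4 4 [4, 21, 21, 21, 21, 21, 21] [242, 242, 238, 234, 230, 226] [] 100000 0 0 1600000 50000
    50000 66667 50000 0 0 0

lemma s21_22_8_6_34 {n : ℕ} (hn : 7 ≤ n) : NoNd (d21_22_8_6.R : ℤ) d21_22_8_6.H n d21_22_8_6.a d21_22_8_6.b
    (BlkD.inB (BlkD.upd (BlkD.upd (BlkD.upd (BlkD.upd (BlkD.upd (fun _ => 0) 0 3) 0 4) 1 6) 1 9) 1 10)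
      (BlkD.upd (BlkD.upd (BlkD.upd (BlkD.upd (BlkD.upd (fun _ => 22) 0 8) 2 6) 0 4) 1 11) 1 10)) :=
  BlkD.tree_sound (BlkD.pairOk_sound k21_22_8_6) (by decide) hn t21_22_8_6_34 _ _ (by decide +kernel)

/-- certificates of the pair `(8, 6)`, part 35 -/
def t21_22_8_6_35 : BlkD.Tr :=
  .L 4 4 [4, 21, 21, 21, 21, 21, 21] [270, 270, 270, 266, 262, 258] [] 100000 0 0 1600000 50000
    50000 66667 50000 0 0 0

lemma s21_22_8_6_35 {n : ℕ} (hn : 7 ≤ n) : NoNd (d21_22_8_6.R : ℤ) d21_22_8_6.H n d21_22_8_6.a d21_22_8_6.b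
    (BlkD.inB (BlkD.upd (BlkD.upd (BlkD.upd (BlkD.upd (BlkD.upd (fun _ => 0) 0 3) 0 4) 1 6) 1 9) 1 11)
      (BlkD.upd (BlkD.upd (BlkD.upd (BlkD.upd (fun _ => 22) 0 8) 2 6) 0 4) 1 11)) :=
  BlkD.tree_sound (BlkD.pairOk_sound k21_22_8_6) (by decide) hn t21_22_8_6_35 _ _ (by decide +kernel)

/-- certificates of the pair `(8, 6)`, part 36 -/
def t21_22_8_6_36 : BlkD.Tr :=
  .L 4 4 [4, 21, 21, 21, 21, 21, 21] [] [] 100000 0 0 1600000 50000 50000 66667 50000 0 0 0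

lemma s21_22_8_6_36 {n : ℕ} (hn : 7 ≤ n) : NoNd (d21_22_8_6.R : ℤ) d21_22_8_6.H n d21_22_8_6.a d21_22_8_6.b
    (BlkD.inB (BlkD.upd (BlkD.upd (BlkD.upd (fun _ => 0) 0 3) 0 4) 1 12)
      (BlkD.upd (BlkD.upd (BlkD.upd (fun _ => 22) 0 8) 2 6) 0 4)) :=
  BlkD.tree_sound (BlkD.pairOk_sound k21_22_8_6) (by decide) hn t21_22_8_6_36 _ _ (by decide +kernel)

/-- certificates of the pair `(8, 6)`, part 37 -/
def t21_22_8_6_37 : BlkD.Tr :=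
  .L 4 4 [4, 21, 21, 21, 21, 21, 21] [] [] 100000 0 0 1600000 50000 50000 66667 50000 0 0 0

lemma s21_22_8_6_37 {n : ℕ} (hn : 7 ≤ n) : NoNd (d21_22_8_6.R : ℤ) d21_22_8_6.H n d21_22_8_6.a d21_22_8_6.b
    (BlkD.inB (BlkD.upd (fun _ => 0) 0 5)
      (BlkD.upd (BlkD.upd (BlkD.upd (BlkD.upd (BlkD.upd (BlkD.upd (BlkD.upd (fun _ => 22) 0 8) 2 6) 0 6) 0 5) 1 11) 1 5) 1 2)) :=
  BlkD.tree_sound (BlkD.pairOk_sound k21_22_8_6) (by decide) hn t21_22_8_6_37 _ _ (by decide +kernel)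

/-- certificates of the pair `(8, 6)`, part 38 -/
def t21_22_8_6_38 : BlkD.Tr :=
  .L 4 4 [4, 21, 21, 21, 21, 21, 21] [] [] 100000 0 0 1600000 50000 50000 66667 50000 0 0 0

lemma s21_22_8_6_38 {n : ℕ} (hn : 7 ≤ n) : NoNd (d21_22_8_6.R : ℤ) d21_22_8_6.H n d21_22_8_6.a d21_22_8_6.b
    (BlkD.inB (BlkD.upd (BlkD.upd (fun _ => 0) 0 5) 1 3)
      (BlkD.upd (BlkD.upd (BlkD.upd (BlkD.upd (BlkD.upd (BlkD.upd (BlkD.upd (fun _ => 22) 0 8) 2 6) 0 6) 0 5) 1 11) 1 5) 1 4)) :=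
  BlkD.tree_sound (BlkD.pairOk_sound k21_22_8_6) (by decide) hn t21_22_8_6_38 _ _ (by decide +kernel)

/-- certificates of the pair `(8, 6)`, part 39 -/
def t21_22_8_6_39 : BlkD.Tr :=
  .L 4 4 [4, 21, 21, 21, 21, 21, 21] [126, 122, 112, 100, 86, 70] [] 100000 0 0 1600000 50000 50000
    66667 50000 0 0 0

lemma s21_22_8_6_39 {n : ℕ} (hn : 7 ≤ n) : NoNd (d21_22_8_6.R : ℤ) d21_22_8_6.H n d21_22_8_6.a d21_22_8_6.b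
    (BlkD.inB (BlkD.upd (BlkD.upd (BlkD.upd (fun _ => 0) 0 5) 1 3) 1 5)
      (BlkD.upd (BlkD.upd (BlkD.upd (BlkD.upd (BlkD.upd (BlkD.upd (fun _ => 22) 0 8) 2 6) 0 6) 0 5) 1 11) 1 5)) :=
  BlkD.tree_sound (BlkD.pairOk_sound k21_22_8_6) (by decide) hn t21_22_8_6_39 _ _ (by decide +kernel)

/-- certificates of the pair `(8, 6)`, part 40 -/
def t21_22_8_6_40 : BlkD.Tr :=
  .L 4 4 [4, 21, 21, 21, 21, 21, 21] [150, 146, 142, 132, 120, 106] [] 100000 0 0 1600000 50000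
    50000 66667 50000 0 0 0

lemma s21_22_8_6_40 {n : ℕ} (hn : 7 ≤ n) : NoNd (d21_22_8_6.R : ℤ) d21_22_8_6.H n d21_22_8_6.a d21_22_8_6.b
    (BlkD.inB (BlkD.upd (BlkD.upd (fun _ => 0) 0 5) 1 6)
      (BlkD.upd (BlkD.upd (BlkD.upd (BlkD.upd (BlkD.upd (BlkD.upd (BlkD.upd (BlkD.upd (fun _ => 22) 0 8) 2 6) 0 6) 0 5) 1 11) 1 8) 1 7) 1 6)) :=
  BlkD.tree_sound (BlkD.pairOk_sound k21_22_8_6) (by decide) hn t21_22_8_6_40 _ _ (by decide +kernel)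

/-- certificates of the pair `(8, 6)`, part 41 -/
def t21_22_8_6_41 : BlkD.Tr :=
  .L 4 4 [4, 21, 21, 21, 21, 21, 21] [176, 172, 168, 164, 154, 142] [] 100000 0 0 1600000 50000
    50000 66667 50000 0 0 0

lemma s21_22_8_6_41 {n : ℕ} (hn : 7 ≤ n) : NoNd (d21_22_8_6.R : ℤ) d21_22_8_6.H n d21_22_8_6.a d21_22_8_6.b
    (BlkD.inB (BlkD.upd (BlkD.upd (BlkD.upd (fun _ => 0) 0 5) 1 6) 1 7)
      (BlkD.upd (BlkD.upd (BlkD.upd (BlkD.upd (BlkD.upd (BlkD.upd (BlkD.upd (fun _ => 22) 0 8) 2 6) 0 6) 0 5) 1 11) 1 8) 1 7)) :=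
  BlkD.tree_sound (BlkD.pairOk_sound k21_22_8_6) (by decide) hn t21_22_8_6_41 _ _ (by decide +kernel)

/-- certificates of the pair `(8, 6)`, part 42 -/
def t21_22_8_6_42 : BlkD.Tr :=
  .L 4 4 [4, 21, 21, 21, 21, 21, 21] [204, 200, 196, 192, 188, 178] [] 100000 0 0 1600000 50000
    50000 66667 50000 0 0 0

lemma s21_22_8_6_42 {n : ℕ} (hn : 7 ≤ n) : NoNd (d21_22_8_6.R : ℤ) d21_22_8_6.H n d21_22_8_6.a d21_22_8_6.b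
    (BlkD.inB (BlkD.upd (BlkD.upd (BlkD.upd (fun _ => 0) 0 5) 1 6) 1 8)
      (BlkD.upd (BlkD.upd (BlkD.upd (BlkD.upd (BlkD.upd (BlkD.upd (fun _ => 22) 0 8) 2 6) 0 6) 0 5) 1 11) 1 8)) :=
  BlkD.tree_sound (BlkD.pairOk_sound k21_22_8_6) (by decide) hn t21_22_8_6_42 _ _ (by decide +kernel)

/-- certificates of the pair `(8, 6)`, part 43 -/
def t21_22_8_6_43 : BlkD.Tr :=
  .L 4 4 [4, 21, 21, 21, 21, 21, 21] [] [] 100000 0 0 1600000 50000 50000 66667 50000 0 0 0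

lemma s21_22_8_6_43 {n : ℕ} (hn : 7 ≤ n) : NoNd (d21_22_8_6.R : ℤ) d21_22_8_6.H n d21_22_8_6.a d21_22_8_6.b
    (BlkD.inB (BlkD.upd (BlkD.upd (BlkD.upd (fun _ => 0) 0 5) 1 6) 1 9)
      (BlkD.upd (BlkD.upd (BlkD.upd (BlkD.upd (BlkD.upd (fun _ => 22) 0 8) 2 6) 0 6) 0 5) 1 11)) :=
  BlkD.tree_sound (BlkD.pairOk_sound k21_22_8_6) (by decide) hn t21_22_8_6_43 _ _ (by decide +kernel)

/-- certificates of the pair `(8, 6)`, part 44 -/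
def t21_22_8_6_44 : BlkD.Tr :=
  .L 4 4 [4, 21, 21, 21, 21, 21, 21] [] [] 100000 0 0 1600000 50000 50000 66667 50000 0 0 0

lemma s21_22_8_6_44 {n : ℕ} (hn : 7 ≤ n) : NoNd (d21_22_8_6.R : ℤ) d21_22_8_6.H n d21_22_8_6.a d21_22_8_6.b
    (BlkD.inB (BlkD.upd (BlkD.upd (fun _ => 0) 0 5) 1 12)
      (BlkD.upd (BlkD.upd (BlkD.upd (BlkD.upd (fun _ => 22) 0 8) 2 6) 0 6) 0 5)) :=
  BlkD.tree_sound (BlkD.pairOk_sound k21_22_8_6) (by decide) hn t21_22_8_6_44 _ _ (by decide +kernel)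

/-- certificates of the pair `(8, 6)`, part 45 -/
def t21_22_8_6_45 : BlkD.Tr :=
  .L 4 4 [4, 21, 21, 21, 21, 21, 21] [] [] 100000 0 0 1600000 50000 50000 66667 50000 0 0 0

lemma s21_22_8_6_45 {n : ℕ} (hn : 7 ≤ n) : NoNd (d21_22_8_6.R : ℤ) d21_22_8_6.H n d21_22_8_6.a d21_22_8_6.b
    (BlkD.inB (BlkD.upd (BlkD.upd (fun _ => 0) 0 5) 0 6)
      (BlkD.upd (BlkD.upd (BlkD.upd (BlkD.upd (BlkD.upd (BlkD.upd (fun _ => 22) 0 8) 2 6) 0 6) 1 11) 1 5) 1 2)) :=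
  BlkD.tree_sound (BlkD.pairOk_sound k21_22_8_6) (by decide) hn t21_22_8_6_45 _ _ (by decide +kernel)

/-- certificates of the pair `(8, 6)`, part 46 -/
def t21_22_8_6_46 : BlkD.Tr :=
  .S 1 4 (.L 4 4 [4, 21, 21, 21, 21, 21, 21] [] [] 100000 0 0 1600000 50000 50000 66667 50000 0 0
    0) (.L 4 4 [4, 21, 21, 21, 21, 21, 21] [136, 132, 122, 110, 96, 80] [] 100000 0 0 1600000 50000
    50000 66667 50000 0 0 0)

lemma s21_22_8_6_46 {n : ℕ} (hn : 7 ≤ n) : NoNd (d21_22_8_6.R : ℤ) d21_22_8_6.H n d21_22_8_6.a d21_22_8_6.b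
    (BlkD.inB (BlkD.upd (BlkD.upd (BlkD.upd (fun _ => 0) 0 5) 0 6) 1 3)
      (BlkD.upd (BlkD.upd (BlkD.upd (BlkD.upd (BlkD.upd (fun _ => 22) 0 8) 2 6) 0 6) 1 11) 1 5)) :=
  BlkD.tree_sound (BlkD.pairOk_sound k21_22_8_6) (by decide) hn t21_22_8_6_46 _ _ (by decide +kernel)

/-- certificates of the pair `(8, 6)`, part 47 -/
def t21_22_8_6_47 : BlkD.Tr :=
  .L 4 4 [4, 21, 21, 21, 21, 21, 21] [] [] 100000 0 0 1600000 50000 50000 66667 50000 0 0 0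

lemma s21_22_8_6_47 {n : ℕ} (hn : 7 ≤ n) : NoNd (d21_22_8_6.R : ℤ) d21_22_8_6.H n d21_22_8_6.a d21_22_8_6.b
    (BlkD.inB (BlkD.upd (BlkD.upd (BlkD.upd (fun _ => 0) 0 5) 0 6) 1 6)
      (BlkD.upd (BlkD.upd (BlkD.upd (BlkD.upd (fun _ => 22) 0 8) 2 6) 0 6) 1 11)) :=
  BlkD.tree_sound (BlkD.pairOk_sound k21_22_8_6) (by decide) hn t21_22_8_6_47 _ _ (by decide +kernel)

/-- certificates of the pair `(8, 6)`, part 48 -/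
def t21_22_8_6_48 : BlkD.Tr :=
  .L 4 4 [4, 21, 21, 21, 21, 21, 21] [] [] 100000 0 0 1600000 50000 50000 66667 50000 0 0 0

lemma s21_22_8_6_48 {n : ℕ} (hn : 7 ≤ n) : NoNd (d21_22_8_6.R : ℤ) d21_22_8_6.H n d21_22_8_6.a d21_22_8_6.b
    (BlkD.inB (BlkD.upd (BlkD.upd (BlkD.upd (fun _ => 0) 0 5) 0 6) 1 12)
      (BlkD.upd (BlkD.upd (BlkD.upd (fun _ => 22) 0 8) 2 6) 0 6)) :=
  BlkD.tree_sound (BlkD.pairOk_sound k21_22_8_6) (by decide) hn t21_22_8_6_48 _ _ (by decide +kernel)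

/-- certificates of the pair `(8, 6)`, part 49 -/
def t21_22_8_6_49 : BlkD.Tr :=
  .L 4 4 [4, 21, 21, 21, 21, 21, 21] [] [] 100000 0 0 1600000 50000 50000 66667 50000 0 0 0

lemma s21_22_8_6_49 {n : ℕ} (hn : 7 ≤ n) : NoNd (d21_22_8_6.R : ℤ) d21_22_8_6.H n d21_22_8_6.a d21_22_8_6.b
    (BlkD.inB (BlkD.upd (BlkD.upd (fun _ => 0) 0 5) 0 7)
      (BlkD.upd (BlkD.upd (fun _ => 22) 0 8) 2 6)) :=
  BlkD.tree_sound (BlkD.pairOk_sound k21_22_8_6) (by decide) hn t21_22_8_6_49 _ _ (by decide +kernel)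

/-- certificates of the pair `(8, 6)`, part 50 -/
def t21_22_8_6_50 : BlkD.Tr :=
  .E 1

lemma s21_22_8_6_50 {n : ℕ} (hn : 7 ≤ n) : NoNd (d21_22_8_6.R : ℤ) d21_22_8_6.H n d21_22_8_6.a d21_22_8_6.b
    (BlkD.inB (BlkD.upd (fun _ => 0) 2 7)
      (BlkD.upd (fun _ => 22) 0 8)) :=
  BlkD.tree_sound (BlkD.pairOk_sound k21_22_8_6) (by decide) hn t21_22_8_6_50 _ _ (by decide +kernel)

/-- certificates of the pair `(8, 6)`, part 51 -/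
def t21_22_8_6_51 : BlkD.Tr :=
  .E 0

lemma s21_22_8_6_51 {n : ℕ} (hn : 7 ≤ n) : NoNd (d21_22_8_6.R : ℤ) d21_22_8_6.H n d21_22_8_6.a d21_22_8_6.b
    (BlkD.inB (BlkD.upd (fun _ => 0) 0 9)
      (fun _ => 22)) :=
  BlkD.tree_sound (BlkD.pairOk_sound k21_22_8_6) (by decide) hn t21_22_8_6_51 _ _ (by decide +kernel)

lemma pr21_22_8_6 {n : ℕ} (hn : 7 ≤ n) : NoPr ((21 : ℕ) : ℤ) ((22 : ℕ) : ℤ) n 8 6 :=
  BlkD.of_root (R := d21_22_8_6.R) (H := d21_22_8_6.H) (a := d21_22_8_6.a) (b := d21_22_8_6.b) (q := 5) (by decide) hn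
    (BlkD.sp 0 8 (BlkD.sp 2 6 (BlkD.sp 0 4 (BlkD.sp 0 2 (BlkD.sp 0 1 (BlkD.sp 0 0 (s21_22_8_6_1 hn)
      (BlkD.sp 1 11 (BlkD.sp 1 5 (s21_22_8_6_2 hn) (BlkD.sp 1 8 (s21_22_8_6_3 hn) (s21_22_8_6_4
      hn))) (s21_22_8_6_5 hn))) (BlkD.sp 1 11 (BlkD.sp 1 5 (s21_22_8_6_6 hn) (BlkD.sp 1 8 (BlkD.sp
      1 7 (s21_22_8_6_7 hn) (s21_22_8_6_8 hn)) (BlkD.sp 1 10 (BlkD.sp 1 9 (s21_22_8_6_9 hn)
      (s21_22_8_6_10 hn)) (s21_22_8_6_11 hn)))) (s21_22_8_6_12 hn))) (BlkD.sp 0 3 (BlkD.sp 1 11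
      (BlkD.sp 1 5 (s21_22_8_6_13 hn) (BlkD.sp 1 8 (BlkD.sp 1 7 (BlkD.sp 1 6 (s21_22_8_6_14 hn)
      (s21_22_8_6_15 hn)) (BlkD.sp 2 3 (s21_22_8_6_16 hn) (s21_22_8_6_17 hn))) (BlkD.sp 1 10
      (BlkD.sp 1 9 (BlkD.sp 2 3 (BlkD.sp 2 1 (s21_22_8_6_18 hn) (s21_22_8_6_19 hn)) (s21_22_8_6_20
      hn)) (BlkD.sp 2 3 (s21_22_8_6_21 hn) (s21_22_8_6_22 hn))) (s21_22_8_6_23 hn))))
      (s21_22_8_6_24 hn)) (BlkD.sp 1 11 (BlkD.sp 1 5 (BlkD.sp 1 2 (s21_22_8_6_25 hn) (s21_22_8_6_26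
      hn)) (BlkD.sp 1 8 (BlkD.sp 1 7 (BlkD.sp 1 6 (s21_22_8_6_27 hn) (BlkD.sp 2 3 (s21_22_8_6_28
      hn) (s21_22_8_6_29 hn))) (BlkD.sp 2 3 (BlkD.sp 2 1 (s21_22_8_6_30 hn) (s21_22_8_6_31 hn))
      (s21_22_8_6_32 hn))) (BlkD.sp 1 10 (BlkD.sp 1 9 (s21_22_8_6_33 hn) (s21_22_8_6_34 hn))
      (s21_22_8_6_35 hn)))) (s21_22_8_6_36 hn)))) (BlkD.sp 0 6 (BlkD.sp 0 5 (BlkD.sp 1 11 (BlkD.sp
      1 5 (BlkD.sp 1 2 (s21_22_8_6_37 hn) (BlkD.sp 1 4 (s21_22_8_6_38 hn) (s21_22_8_6_39 hn)))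
      (BlkD.sp 1 8 (BlkD.sp 1 7 (BlkD.sp 1 6 (s21_22_8_6_40 hn) (s21_22_8_6_41 hn)) (s21_22_8_6_42
      hn)) (s21_22_8_6_43 hn))) (s21_22_8_6_44 hn)) (BlkD.sp 1 11 (BlkD.sp 1 5 (BlkD.sp 1 2
      (s21_22_8_6_45 hn) (s21_22_8_6_46 hn)) (s21_22_8_6_47 hn)) (s21_22_8_6_48 hn)))
      (s21_22_8_6_49 hn))) (s21_22_8_6_50 hn)) (s21_22_8_6_51 hn))

end BlkC

end Pool.Agent.Lib.MP_f04ccf_co
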