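import Pool.Agent.Lib.MP_f04ccf_co.M.BlkT

/-!
MP_f04ccf_co, block certificate, data `R = 21`, `H = 22`, part 13 (generated, helper99:
bd10.cpp, gen2.py).
-/

set_option autoImplicit false
set_option maxRecDepth 100000

namespace Pool.Agent.Lib.MP_f04ccf_co

namespace BlkC

/-- the numbers of the pair `(9, 0)`, `R = 21`, `H = 22` -/
def d21_22_9_0 : BlkD.Pd :=
  ⟨21, 22, 5, 9, 0, 10, 0, 1, 0, 4, 4, 0, 0, 4, 4, 0, [0, 4, 8, 12, 16, 20, 24, 28, 32, 36, 40],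
    [0, 4, 8, 12, 16, 20, 24, 28, 32, 36, 40], [⟨1, 1, 1, 4, 8, [0, 4], [0, 4]⟩]⟩

lemma k21_22_9_0 : BlkD.pairOk d21_22_9_0 = true := by decide +kernel

/-- certificates of the pair `(9, 0)`, part 1 -/
def t21_22_9_0_1 : BlkD.Tr :=
  .S 0 2 (.L 4 4 [4] [] [] 100000 0 0 1040625 59375 0 62500 37500 0 0 0) (.L 4 4 [4] [] [] 100000 0
    0 1040625 59375 0 62500 37500 0 0 0)

lemma s21_22_9_0_1 {n : ℕ} (hn : 7 ≤ n) : NoNd (d21_22_9_0.R : ℤ) d21_22_9_0.H n d21_22_9_0.a d21_22_9_0.b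
    (BlkD.inB (fun _ => 0)
      (BlkD.upd (BlkD.upd (BlkD.upd (fun _ => 22) 0 9) 2 0) 0 4)) :=
  BlkD.tree_sound (BlkD.pairOk_sound k21_22_9_0) (by decide) hn t21_22_9_0_1 _ _ (by decide +kernel)

/-- certificates of the pair `(9, 0)`, part 2 -/
def t21_22_9_0_2 : BlkD.Tr :=
  .L 4 4 [4] [] [] 100000 0 0 1040625 59375 0 62500 37500 0 0 0

lemma s21_22_9_0_2 {n : ℕ} (hn : 7 ≤ n) : NoNd (d21_22_9_0.R : ℤ) d21_22_9_0.H n d21_22_9_0.a d21_22_9_0.b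
    (BlkD.inB (BlkD.upd (fun _ => 0) 0 5)
      (BlkD.upd (BlkD.upd (fun _ => 22) 0 9) 2 0)) :=
  BlkD.tree_sound (BlkD.pairOk_sound k21_22_9_0) (by decide) hn t21_22_9_0_2 _ _ (by decide +kernel)

/-- certificates of the pair `(9, 0)`, part 3 -/
def t21_22_9_0_3 : BlkD.Tr :=
  .E 1

lemma s21_22_9_0_3 {n : ℕ} (hn : 7 ≤ n) : NoNd (d21_22_9_0.R : ℤ) d21_22_9_0.H n d21_22_9_0.a d21_22_9_0.b
    (BlkD.inB (BlkD.upd (fun _ => 0) 2 1)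
      (BlkD.upd (fun _ => 22) 0 9)) :=
  BlkD.tree_sound (BlkD.pairOk_sound k21_22_9_0) (by decide) hn t21_22_9_0_3 _ _ (by decide +kernel)

/-- certificates of the pair `(9, 0)`, part 4 -/
def t21_22_9_0_4 : BlkD.Tr :=
  .E 0

lemma s21_22_9_0_4 {n : ℕ} (hn : 7 ≤ n) : NoNd (d21_22_9_0.R : ℤ) d21_22_9_0.H n d21_22_9_0.a d21_22_9_0.b
    (BlkD.inB (BlkD.upd (fun _ => 0) 0 10)
      (fun _ => 22)) :=
  BlkD.tree_sound (BlkD.pairOk_sound k21_22_9_0) (by decide) hn t21_22_9_0_4 _ _ (by decide +kernel)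

lemma pr21_22_9_0 {n : ℕ} (hn : 7 ≤ n) : NoPr ((21 : ℕ) : ℤ) ((22 : ℕ) : ℤ) n 9 0 :=
  BlkD.of_root (R := d21_22_9_0.R) (H := d21_22_9_0.H) (a := d21_22_9_0.a) (b := d21_22_9_0.b) (q := 5) (by decide) hn
    (BlkD.sp 0 9 (BlkD.sp 2 0 (BlkD.sp 0 4 (s21_22_9_0_1 hn) (s21_22_9_0_2 hn)) (s21_22_9_0_3 hn))
      (s21_22_9_0_4 hn))

/-- the numbers of the pair `(9, 1)`, `R = 21`, `H = 22` -/
def d21_22_9_1 : BlkD.Pd :=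
  ⟨21, 22, 5, 9, 1, 9, 1, 1, 0, 4, 8, 0, 0, 4, 4, 0, [0, 8, 16, 24, 32, 36, 36, 36, 36, 36], [0, 4,
    8, 12, 16, 20, 24, 28, 32, 36], [⟨1, 1, 1, 4, 8, [0, 4], [0, 4]⟩, ⟨1, 1, 1, 4, 12, [0, 8], [0,
    4]⟩]⟩

lemma k21_22_9_1 : BlkD.pairOk d21_22_9_1 = true := by decide +kernel

/-- certificates of the pair `(9, 1)`, part 1 -/
def t21_22_9_1_1 : BlkD.Tr :=
  .L 4 6 [4, 4] [] [] 100000 0 0 1175000 50000 0 75000 0 0 0 0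

lemma s21_22_9_1_1 {n : ℕ} (hn : 7 ≤ n) : NoNd (d21_22_9_1.R : ℤ) d21_22_9_1.H n d21_22_9_1.a d21_22_9_1.b
    (BlkD.inB (fun _ => 0)
      (BlkD.upd (BlkD.upd (BlkD.upd (BlkD.upd (BlkD.upd (fun _ => 22) 0 9) 2 1) 0 4) 0 2) 0 1)) :=
  BlkD.tree_sound (BlkD.pairOk_sound k21_22_9_1) (by decide) hn t21_22_9_1_1 _ _ (by decide +kernel)

/-- certificates of the pair `(9, 1)`, part 2 -/
def t21_22_9_1_2 : BlkD.Tr :=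
  .L 4 6 [4, 4] [] [] 100000 0 0 1175000 50000 0 75000 0 0 0 0

lemma s21_22_9_1_2 {n : ℕ} (hn : 7 ≤ n) : NoNd (d21_22_9_1.R : ℤ) d21_22_9_1.H n d21_22_9_1.a d21_22_9_1.b
    (BlkD.inB (BlkD.upd (fun _ => 0) 0 2)
      (BlkD.upd (BlkD.upd (BlkD.upd (BlkD.upd (fun _ => 22) 0 9) 2 1) 0 4) 0 2)) :=
  BlkD.tree_sound (BlkD.pairOk_sound k21_22_9_1) (by decide) hn t21_22_9_1_2 _ _ (by decide +kernel)

/-- certificates of the pair `(9, 1)`, part 3 -/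
def t21_22_9_1_3 : BlkD.Tr :=
  .S 0 3 (.L 4 6 [4, 4] [] [] 100000 0 0 1175000 50000 0 75000 0 0 0 0) (.L 4 6 [4, 4] [] [] 100000
    0 0 1175000 50000 0 75000 0 0 0 0)

lemma s21_22_9_1_3 {n : ℕ} (hn : 7 ≤ n) : NoNd (d21_22_9_1.R : ℤ) d21_22_9_1.H n d21_22_9_1.a d21_22_9_1.b
    (BlkD.inB (BlkD.upd (fun _ => 0) 0 3)
      (BlkD.upd (BlkD.upd (BlkD.upd (fun _ => 22) 0 9) 2 1) 0 4)) :=
  BlkD.tree_sound (BlkD.pairOk_sound k21_22_9_1) (by decide) hn t21_22_9_1_3 _ _ (by decide +kernel)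

/-- certificates of the pair `(9, 1)`, part 4 -/
def t21_22_9_1_4 : BlkD.Tr :=
  .L 4 6 [4, 4] [] [] 100000 0 0 1175000 50000 0 75000 0 0 0 0

lemma s21_22_9_1_4 {n : ℕ} (hn : 7 ≤ n) : NoNd (d21_22_9_1.R : ℤ) d21_22_9_1.H n d21_22_9_1.a d21_22_9_1.b
    (BlkD.inB (BlkD.upd (fun _ => 0) 0 5)
      (BlkD.upd (BlkD.upd (fun _ => 22) 0 9) 2 1)) :=
  BlkD.tree_sound (BlkD.pairOk_sound k21_22_9_1) (by decide) hn t21_22_9_1_4 _ _ (by decide +kernel)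

/-- certificates of the pair `(9, 1)`, part 5 -/
def t21_22_9_1_5 : BlkD.Tr :=
  .E 1

lemma s21_22_9_1_5 {n : ℕ} (hn : 7 ≤ n) : NoNd (d21_22_9_1.R : ℤ) d21_22_9_1.H n d21_22_9_1.a d21_22_9_1.b
    (BlkD.inB (BlkD.upd (fun _ => 0) 2 2)
      (BlkD.upd (fun _ => 22) 0 9)) :=
  BlkD.tree_sound (BlkD.pairOk_sound k21_22_9_1) (by decide) hn t21_22_9_1_5 _ _ (by decide +kernel)

/-- certificates of the pair `(9, 1)`, part 6 -/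
def t21_22_9_1_6 : BlkD.Tr :=
  .E 0

lemma s21_22_9_1_6 {n : ℕ} (hn : 7 ≤ n) : NoNd (d21_22_9_1.R : ℤ) d21_22_9_1.H n d21_22_9_1.a d21_22_9_1.b
    (BlkD.inB (BlkD.upd (fun _ => 0) 0 10)
      (fun _ => 22)) :=
  BlkD.tree_sound (BlkD.pairOk_sound k21_22_9_1) (by decide) hn t21_22_9_1_6 _ _ (by decide +kernel)

lemma pr21_22_9_1 {n : ℕ} (hn : 7 ≤ n) : NoPr ((21 : ℕ) : ℤ) ((22 : ℕ) : ℤ) n 9 1 :=
  BlkD.of_root (R := d21_22_9_1.R) (H := d21_22_9_1.H) (a := d21_22_9_1.a) (b := d21_22_9_1.b) (q := 5) (by decide) hn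
    (BlkD.sp 0 9 (BlkD.sp 2 1 (BlkD.sp 0 4 (BlkD.sp 0 2 (BlkD.sp 0 1 (s21_22_9_1_1 hn)
      (s21_22_9_1_2 hn)) (s21_22_9_1_3 hn)) (s21_22_9_1_4 hn)) (s21_22_9_1_5 hn)) (s21_22_9_1_6
      hn))

/-- the numbers of the pair `(9, 2)`, `R = 21`, `H = 22` -/
def d21_22_9_2 : BlkD.Pd :=
  ⟨21, 22, 5, 9, 2, 8, 2, 2, 4, 2, 10, 0, 3, 1, 6, 0, [0, 10, 20, 28, 32, 36, 40, 44, 48], [0, 6,
    12, 17, 20, 23, 26, 29, 32], [⟨1, 1, 1, 4, 8, [0, 4], [0, 4]⟩, ⟨1, 1, 1, 4, 12, [0, 8], [0,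
    4]⟩, ⟨2, 1, 1, 4, 20, [0, 10, 14], [0, 6]⟩]⟩

lemma k21_22_9_2 : BlkD.pairOk d21_22_9_2 = true := by decide +kernel

/-- certificates of the pair `(9, 2)`, part 1 -/
def t21_22_9_2_1 : BlkD.Tr :=
  .L 4 6 [4, 4, 5] [] [] 100000 83334 83334 1090475 66667 0 90476 9524 0 0 0

lemma s21_22_9_2_1 {n : ℕ} (hn : 7 ≤ n) : NoNd (d21_22_9_2.R : ℤ) d21_22_9_2.H n d21_22_9_2.a d21_22_9_2.b
    (BlkD.inB (fun _ => 0)
      (BlkD.upd (BlkD.upd (BlkD.upd (BlkD.upd (BlkD.upd (BlkD.upd (fun _ => 22) 0 9) 2 2) 0 4) 0 2) 0 1) 0 0)) :=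
  BlkD.tree_sound (BlkD.pairOk_sound k21_22_9_2) (by decide) hn t21_22_9_2_1 _ _ (by decide +kernel)

/-- certificates of the pair `(9, 2)`, part 2 -/
def t21_22_9_2_2 : BlkD.Tr :=
  .L 4 6 [4, 4, 5] [] [] 100000 83334 83334 1090475 66667 0 90476 9524 0 0 0

lemma s21_22_9_2_2 {n : ℕ} (hn : 7 ≤ n) : NoNd (d21_22_9_2.R : ℤ) d21_22_9_2.H n d21_22_9_2.a d21_22_9_2.b
    (BlkD.inB (BlkD.upd (fun _ => 0) 0 1)
      (BlkD.upd (BlkD.upd (BlkD.upd (BlkD.upd (BlkD.upd (BlkD.upd (BlkD.upd (fun _ => 22) 0 9) 2 2) 0 4) 0 2) 0 1) 1 11) 1 5)) :=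
  BlkD.tree_sound (BlkD.pairOk_sound k21_22_9_2) (by decide) hn t21_22_9_2_2 _ _ (by decide +kernel)

/-- certificates of the pair `(9, 2)`, part 3 -/
def t21_22_9_2_3 : BlkD.Tr :=
  .L 4 6 [4, 4, 5] [] [] 100000 83334 83334 1090475 66667 0 90476 9524 0 0 0

lemma s21_22_9_2_3 {n : ℕ} (hn : 7 ≤ n) : NoNd (d21_22_9_2.R : ℤ) d21_22_9_2.H n d21_22_9_2.a d21_22_9_2.b
    (BlkD.inB (BlkD.upd (BlkD.upd (fun _ => 0) 0 1) 1 6)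
      (BlkD.upd (BlkD.upd (BlkD.upd (BlkD.upd (BlkD.upd (BlkD.upd (fun _ => 22) 0 9) 2 2) 0 4) 0 2) 0 1) 1 11)) :=
  BlkD.tree_sound (BlkD.pairOk_sound k21_22_9_2) (by decide) hn t21_22_9_2_3 _ _ (by decide +kernel)

/-- certificates of the pair `(9, 2)`, part 4 -/
def t21_22_9_2_4 : BlkD.Tr :=
  .L 4 6 [4, 4, 5] [] [] 100000 83334 83334 1090475 66667 0 90476 9524 0 0 0

lemma s21_22_9_2_4 {n : ℕ} (hn : 7 ≤ n) : NoNd (d21_22_9_2.R : ℤ) d21_22_9_2.H n d21_22_9_2.a d21_22_9_2.b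
    (BlkD.inB (BlkD.upd (BlkD.upd (fun _ => 0) 0 1) 1 12)
      (BlkD.upd (BlkD.upd (BlkD.upd (BlkD.upd (BlkD.upd (fun _ => 22) 0 9) 2 2) 0 4) 0 2) 0 1)) :=
  BlkD.tree_sound (BlkD.pairOk_sound k21_22_9_2) (by decide) hn t21_22_9_2_4 _ _ (by decide +kernel)

/-- certificates of the pair `(9, 2)`, part 5 -/
def t21_22_9_2_5 : BlkD.Tr :=
  .L 4 6 [4, 4, 5] [] [] 100000 83334 83334 1090475 66667 0 90476 9524 0 0 0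

lemma s21_22_9_2_5 {n : ℕ} (hn : 7 ≤ n) : NoNd (d21_22_9_2.R : ℤ) d21_22_9_2.H n d21_22_9_2.a d21_22_9_2.b
    (BlkD.inB (BlkD.upd (fun _ => 0) 0 2)
      (BlkD.upd (BlkD.upd (BlkD.upd (BlkD.upd (BlkD.upd (BlkD.upd (fun _ => 22) 0 9) 2 2) 0 4) 0 2) 1 11) 1 5)) :=
  BlkD.tree_sound (BlkD.pairOk_sound k21_22_9_2) (by decide) hn t21_22_9_2_5 _ _ (by decide +kernel)

/-- certificates of the pair `(9, 2)`, part 6 -/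
def t21_22_9_2_6 : BlkD.Tr :=
  .L 4 6 [4, 4, 5] [] [] 100000 83334 83334 1090475 66667 0 90476 9524 0 0 0

lemma s21_22_9_2_6 {n : ℕ} (hn : 7 ≤ n) : NoNd (d21_22_9_2.R : ℤ) d21_22_9_2.H n d21_22_9_2.a d21_22_9_2.b
    (BlkD.inB (BlkD.upd (BlkD.upd (fun _ => 0) 0 2) 1 6)
      (BlkD.upd (BlkD.upd (BlkD.upd (BlkD.upd (BlkD.upd (fun _ => 22) 0 9) 2 2) 0 4) 0 2) 1 11)) :=
  BlkD.tree_sound (BlkD.pairOk_sound k21_22_9_2) (by decide) hn t21_22_9_2_6 _ _ (by decide +kernel)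

/-- certificates of the pair `(9, 2)`, part 7 -/
def t21_22_9_2_7 : BlkD.Tr :=
  .L 4 6 [4, 4, 5] [] [] 100000 83334 83334 1090475 66667 0 90476 9524 0 0 0

lemma s21_22_9_2_7 {n : ℕ} (hn : 7 ≤ n) : NoNd (d21_22_9_2.R : ℤ) d21_22_9_2.H n d21_22_9_2.a d21_22_9_2.b
    (BlkD.inB (BlkD.upd (BlkD.upd (fun _ => 0) 0 2) 1 12)
      (BlkD.upd (BlkD.upd (BlkD.upd (BlkD.upd (fun _ => 22) 0 9) 2 2) 0 4) 0 2)) :=
  BlkD.tree_sound (BlkD.pairOk_sound k21_22_9_2) (by decide) hn t21_22_9_2_7 _ _ (by decide +kernel)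

/-- certificates of the pair `(9, 2)`, part 8 -/
def t21_22_9_2_8 : BlkD.Tr :=
  .S 1 5 (.L 4 6 [4, 4, 5] [] [] 100000 83334 83334 1090475 66667 0 90476 9524 0 0 0) (.L 4 6 [4,
    4, 5] [] [] 100000 83334 83334 1090475 66667 0 90476 9524 0 0 0)

lemma s21_22_9_2_8 {n : ℕ} (hn : 7 ≤ n) : NoNd (d21_22_9_2.R : ℤ) d21_22_9_2.H n d21_22_9_2.a d21_22_9_2.b
    (BlkD.inB (BlkD.upd (fun _ => 0) 0 3)
      (BlkD.upd (BlkD.upd (BlkD.upd (BlkD.upd (BlkD.upd (fun _ => 22) 0 9) 2 2) 0 4) 0 3) 1 11)) :=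
  BlkD.tree_sound (BlkD.pairOk_sound k21_22_9_2) (by decide) hn t21_22_9_2_8 _ _ (by decide +kernel)

/-- certificates of the pair `(9, 2)`, part 9 -/
def t21_22_9_2_9 : BlkD.Tr :=
  .L 4 6 [4, 4, 5] [] [] 100000 83334 83334 1090475 66667 0 90476 9524 0 0 0

lemma s21_22_9_2_9 {n : ℕ} (hn : 7 ≤ n) : NoNd (d21_22_9_2.R : ℤ) d21_22_9_2.H n d21_22_9_2.a d21_22_9_2.b
    (BlkD.inB (BlkD.upd (BlkD.upd (fun _ => 0) 0 3) 1 12)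
      (BlkD.upd (BlkD.upd (BlkD.upd (BlkD.upd (fun _ => 22) 0 9) 2 2) 0 4) 0 3)) :=
  BlkD.tree_sound (BlkD.pairOk_sound k21_22_9_2) (by decide) hn t21_22_9_2_9 _ _ (by decide +kernel)

/-- certificates of the pair `(9, 2)`, part 10 -/
def t21_22_9_2_10 : BlkD.Tr :=
  .S 1 5 (.L 4 6 [4, 4, 5] [] [] 100000 83334 83334 1090475 66667 0 90476 9524 0 0 0) (.L 4 6 [4,
    4, 5] [] [] 100000 83334 83334 1090475 66667 0 90476 9524 0 0 0)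

lemma s21_22_9_2_10 {n : ℕ} (hn : 7 ≤ n) : NoNd (d21_22_9_2.R : ℤ) d21_22_9_2.H n d21_22_9_2.a d21_22_9_2.b
    (BlkD.inB (BlkD.upd (BlkD.upd (fun _ => 0) 0 3) 0 4)
      (BlkD.upd (BlkD.upd (BlkD.upd (BlkD.upd (fun _ => 22) 0 9) 2 2) 0 4) 1 11)) :=
  BlkD.tree_sound (BlkD.pairOk_sound k21_22_9_2) (by decide) hn t21_22_9_2_10 _ _ (by decide +kernel)

/-- certificates of the pair `(9, 2)`, part 11 -/
def t21_22_9_2_11 : BlkD.Tr :=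
  .L 4 6 [4, 4, 5] [] [] 100000 83334 83334 1090475 66667 0 90476 9524 0 0 0

lemma s21_22_9_2_11 {n : ℕ} (hn : 7 ≤ n) : NoNd (d21_22_9_2.R : ℤ) d21_22_9_2.H n d21_22_9_2.a d21_22_9_2.b
    (BlkD.inB (BlkD.upd (BlkD.upd (BlkD.upd (fun _ => 0) 0 3) 0 4) 1 12)
      (BlkD.upd (BlkD.upd (BlkD.upd (fun _ => 22) 0 9) 2 2) 0 4)) :=
  BlkD.tree_sound (BlkD.pairOk_sound k21_22_9_2) (by decide) hn t21_22_9_2_11 _ _ (by decide +kernel)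

/-- certificates of the pair `(9, 2)`, part 12 -/
def t21_22_9_2_12 : BlkD.Tr :=
  .S 1 17 (.S 1 8 (.L 5 7 [4, 4, 4] [] [] 100000 0 0 1333336 33333 0 33333 33333 0 33333 33333) (.S
    1 13 (.S 1 11 (.S 1 10 (.S 1 9 (.L 5 7 [4, 4, 4] [220, 216, 212, 208, 204, 200] [] 100000 13638
    13638 1299999 45455 0 63636 18182 0 18182 18182) (.L 5 7 [4, 4, 4] [252, 248, 244, 240, 236,
    232] [] 100000 13889 13889 1294447 44444 0 77778 38889 0 27778 33333)) (.L 5 7 [4, 4, 4] [286,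
    282, 278, 274, 270, 266] [] 100000 41666 33333 1133336 58333 0 108333 0 0 0 0)) (.L 5 7 [4, 4,
    4] [] [] 100000 1 1 1383331 16667 0 100000 16667 0 16667 16667)) (.L 5 7 [4, 4, 4] [] [] 100000
    156410 0 2 51282 0 256410 0 0 0 0))) (.E 0)

lemma s21_22_9_2_12 {n : ℕ} (hn : 7 ≤ n) : NoNd (d21_22_9_2.R : ℤ) d21_22_9_2.H n d21_22_9_2.a d21_22_9_2.b
    (BlkD.inB (BlkD.upd (fun _ => 0) 0 5)
      (BlkD.upd (BlkD.upd (BlkD.upd (BlkD.upd (BlkD.upd (fun _ => 22) 0 9) 2 2) 0 7) 0 6) 0 5)) :=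
  BlkD.tree_sound (BlkD.pairOk_sound k21_22_9_2) (by decide) hn t21_22_9_2_12 _ _ (by decide +kernel)

/-- certificates of the pair `(9, 2)`, part 13 -/
def t21_22_9_2_13 : BlkD.Tr :=
  .S 1 16 (.S 1 8 (.S 1 4 (.L 5 7 [4, 4, 4] [] [] 100000 16667 16667 1166668 33333 0 33333 33333 0
    0 0) (.S 1 6 (.L 5 7 [4, 4, 4] [] [] 100000 0 0 1328574 28571 0 28571 28571 0 28571 28571) (.S
    1 7 (.L 5 7 [4, 4, 4] [176, 172, 168, 164, 156, 146] [] 100000 12500 12500 1293750 43750 0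
    62500 25000 0 18750 18750) (.L 5 7 [4, 4, 4] [206, 202, 198, 194, 190, 182] [] 100000 10715
    10715 1292858 42857 0 85714 21429 0 35714 21429)))) (.S 1 12 (.S 1 10 (.S 1 9 (.L 5 7 [4, 4, 4]
    [238, 234, 230, 226, 222, 218] [] 100000 28572 28572 1214287 57143 0 85714 14286 0 14286 0) (.L
    5 7 [4, 4, 4] [272, 268, 264, 260, 256, 252] [] 100000 45455 18182 1027273 63636 0 127273 36364
    0 0 0)) (.L 5 7 [4, 4, 4] [] [] 100000 90910 1 572727 27273 0 190909 27273 0 0 0)) (.E 0))) (.E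
    0)

lemma s21_22_9_2_13 {n : ℕ} (hn : 7 ≤ n) : NoNd (d21_22_9_2.R : ℤ) d21_22_9_2.H n d21_22_9_2.a d21_22_9_2.b
    (BlkD.inB (BlkD.upd (BlkD.upd (fun _ => 0) 0 5) 0 6)
      (BlkD.upd (BlkD.upd (BlkD.upd (BlkD.upd (fun _ => 22) 0 9) 2 2) 0 7) 0 6)) :=
  BlkD.tree_sound (BlkD.pairOk_sound k21_22_9_2) (by decide) hn t21_22_9_2_13 _ _ (by decide +kernel)

/-- certificates of the pair `(9, 2)`, part 14 -/
def t21_22_9_2_14 : BlkD.Tr :=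
  .S 1 15 (.S 1 7 (.L 5 7 [4, 4, 4] [] [] 100000 0 0 1391306 21739 0 73913 21739 4348 13043 13043)
    (.L 5 7 [4, 4, 4] [] [] 100000 8165 6124 1251019 14286 0 102041 14286 0 0 0)) (.E 0)

lemma s21_22_9_2_14 {n : ℕ} (hn : 7 ≤ n) : NoNd (d21_22_9_2.R : ℤ) d21_22_9_2.H n d21_22_9_2.a d21_22_9_2.b
    (BlkD.inB (BlkD.upd (BlkD.upd (fun _ => 0) 0 5) 0 7)
      (BlkD.upd (BlkD.upd (BlkD.upd (fun _ => 22) 0 9) 2 2) 0 7)) :=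
  BlkD.tree_sound (BlkD.pairOk_sound k21_22_9_2) (by decide) hn t21_22_9_2_14 _ _ (by decide +kernel)

/-- certificates of the pair `(9, 2)`, part 15 -/
def t21_22_9_2_15 : BlkD.Tr :=
  .L 5 7 [4, 4, 4] [] [] 100000 0 0 1369232 11538 0 96154 3846 3846 3846 3846

lemma s21_22_9_2_15 {n : ℕ} (hn : 7 ≤ n) : NoNd (d21_22_9_2.R : ℤ) d21_22_9_2.H n d21_22_9_2.a d21_22_9_2.b
    (BlkD.inB (BlkD.upd (BlkD.upd (fun _ => 0) 0 5) 0 8)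
      (BlkD.upd (BlkD.upd (fun _ => 22) 0 9) 2 2)) :=
  BlkD.tree_sound (BlkD.pairOk_sound k21_22_9_2) (by decide) hn t21_22_9_2_15 _ _ (by decide +kernel)

/-- certificates of the pair `(9, 2)`, part 16 -/
def t21_22_9_2_16 : BlkD.Tr :=
  .E 1

lemma s21_22_9_2_16 {n : ℕ} (hn : 7 ≤ n) : NoNd (d21_22_9_2.R : ℤ) d21_22_9_2.H n d21_22_9_2.a d21_22_9_2.b
    (BlkD.inB (BlkD.upd (fun _ => 0) 2 3)
      (BlkD.upd (fun _ => 22) 0 9)) :=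
  BlkD.tree_sound (BlkD.pairOk_sound k21_22_9_2) (by decide) hn t21_22_9_2_16 _ _ (by decide +kernel)

/-- certificates of the pair `(9, 2)`, part 17 -/
def t21_22_9_2_17 : BlkD.Tr :=
  .E 0

lemma s21_22_9_2_17 {n : ℕ} (hn : 7 ≤ n) : NoNd (d21_22_9_2.R : ℤ) d21_22_9_2.H n d21_22_9_2.a d21_22_9_2.b
    (BlkD.inB (BlkD.upd (fun _ => 0) 0 10)
      (fun _ => 22)) :=
  BlkD.tree_sound (BlkD.pairOk_sound k21_22_9_2) (by decide) hn t21_22_9_2_17 _ _ (by decide +kernel)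

lemma pr21_22_9_2 {n : ℕ} (hn : 7 ≤ n) : NoPr ((21 : ℕ) : ℤ) ((22 : ℕ) : ℤ) n 9 2 :=
  BlkD.of_root (R := d21_22_9_2.R) (H := d21_22_9_2.H) (a := d21_22_9_2.a) (b := d21_22_9_2.b) (q := 5) (by decide) hn
    (BlkD.sp 0 9 (BlkD.sp 2 2 (BlkD.sp 0 4 (BlkD.sp 0 2 (BlkD.sp 0 1 (BlkD.sp 0 0 (s21_22_9_2_1 hn)
      (BlkD.sp 1 11 (BlkD.sp 1 5 (s21_22_9_2_2 hn) (s21_22_9_2_3 hn)) (s21_22_9_2_4 hn))) (BlkD.sp
      1 11 (BlkD.sp 1 5 (s21_22_9_2_5 hn) (s21_22_9_2_6 hn)) (s21_22_9_2_7 hn))) (BlkD.sp 0 3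
      (BlkD.sp 1 11 (s21_22_9_2_8 hn) (s21_22_9_2_9 hn)) (BlkD.sp 1 11 (s21_22_9_2_10 hn)
      (s21_22_9_2_11 hn)))) (BlkD.sp 0 7 (BlkD.sp 0 6 (BlkD.sp 0 5 (s21_22_9_2_12 hn)
      (s21_22_9_2_13 hn)) (s21_22_9_2_14 hn)) (s21_22_9_2_15 hn))) (s21_22_9_2_16 hn))
      (s21_22_9_2_17 hn))

end BlkC

end Pool.Agent.Lib.MP_f04ccf_co
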