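import Pool.Agent.Lib.MP_f04ccf_co.M.BlkT

/-!
MP_f04ccf_co, block certificate, data `R = 21`, `H = 22`, part 14 (generated, helper99:
bd10.cpp, gen2.py).
-/

set_option autoImplicit false
set_option maxRecDepth 100000

namespace Pool.Agent.Lib.MP_f04ccf_co

namespace BlkC

/-- the numbers of the pair `(9, 3)`, `R = 21`, `H = 22` -/
def d21_22_9_3 : BlkD.Pd :=
  ⟨21, 22, 5, 9, 3, 7, 2, 2, 4, 2, 10, 0, 2, 2, 6, 0, [0, 10, 20, 26, 30, 34, 38, 42], [0, 6, 12,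
    18, 22, 24, 26, 28], [⟨1, 1, 1, 4, 8, [0, 4], [0, 4]⟩, ⟨1, 1, 1, 4, 14, [0, 8], [0, 6]⟩, ⟨2, 1,
    1, 4, 20, [0, 10, 14], [0, 6]⟩]⟩

lemma k21_22_9_3 : BlkD.pairOk d21_22_9_3 = true := by decide +kernel

/-- certificates of the pair `(9, 3)`, part 1 -/
def t21_22_9_3_1 : BlkD.Tr :=
  .L 5 7 [4, 4, 4, 21] [] [] 100000 118750 118750 956250 87500 0 93750 0 0 0 0

lemma s21_22_9_3_1 {n : ℕ} (hn : 7 ≤ n) : NoNd (d21_22_9_3.R : ℤ) d21_22_9_3.H n d21_22_9_3.a d21_22_9_3.b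
    (BlkD.inB (fun _ => 0)
      (BlkD.upd (BlkD.upd (BlkD.upd (BlkD.upd (BlkD.upd (BlkD.upd (fun _ => 22) 0 9) 2 3) 0 4) 0 2) 0 1) 0 0)) :=
  BlkD.tree_sound (BlkD.pairOk_sound k21_22_9_3) (by decide) hn t21_22_9_3_1 _ _ (by decide +kernel)

/-- certificates of the pair `(9, 3)`, part 2 -/
def t21_22_9_3_2 : BlkD.Tr :=
  .L 5 7 [4, 4, 4, 21] [] [] 100000 118750 118750 956250 87500 0 93750 0 0 0 0

lemma s21_22_9_3_2 {n : ℕ} (hn : 7 ≤ n) : NoNd (d21_22_9_3.R : ℤ) d21_22_9_3.H n d21_22_9_3.a d21_22_9_3.b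
    (BlkD.inB (BlkD.upd (fun _ => 0) 0 1)
      (BlkD.upd (BlkD.upd (BlkD.upd (BlkD.upd (BlkD.upd (BlkD.upd (BlkD.upd (fun _ => 22) 0 9) 2 3) 0 4) 0 2) 0 1) 1 11) 1 5)) :=
  BlkD.tree_sound (BlkD.pairOk_sound k21_22_9_3) (by decide) hn t21_22_9_3_2 _ _ (by decide +kernel)

/-- certificates of the pair `(9, 3)`, part 3 -/
def t21_22_9_3_3 : BlkD.Tr :=
  .S 1 8 (.L 5 7 [4, 4, 4, 21] [] [] 100000 118750 118750 956250 87500 0 93750 0 0 0 0) (.L 5 7 [4,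
    4, 4, 21] [] [] 100000 118750 118750 956250 87500 0 93750 0 0 0 0)

lemma s21_22_9_3_3 {n : ℕ} (hn : 7 ≤ n) : NoNd (d21_22_9_3.R : ℤ) d21_22_9_3.H n d21_22_9_3.a d21_22_9_3.b
    (BlkD.inB (BlkD.upd (BlkD.upd (fun _ => 0) 0 1) 1 6)
      (BlkD.upd (BlkD.upd (BlkD.upd (BlkD.upd (BlkD.upd (BlkD.upd (fun _ => 22) 0 9) 2 3) 0 4) 0 2) 0 1) 1 11)) :=
  BlkD.tree_sound (BlkD.pairOk_sound k21_22_9_3) (by decide) hn t21_22_9_3_3 _ _ (by decide +kernel)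

/-- certificates of the pair `(9, 3)`, part 4 -/
def t21_22_9_3_4 : BlkD.Tr :=
  .L 5 7 [4, 4, 4, 21] [] [] 100000 118750 118750 956250 87500 0 93750 0 0 0 0

lemma s21_22_9_3_4 {n : ℕ} (hn : 7 ≤ n) : NoNd (d21_22_9_3.R : ℤ) d21_22_9_3.H n d21_22_9_3.a d21_22_9_3.b
    (BlkD.inB (BlkD.upd (BlkD.upd (fun _ => 0) 0 1) 1 12)
      (BlkD.upd (BlkD.upd (BlkD.upd (BlkD.upd (BlkD.upd (fun _ => 22) 0 9) 2 3) 0 4) 0 2) 0 1)) :=
  BlkD.tree_sound (BlkD.pairOk_sound k21_22_9_3) (by decide) hn t21_22_9_3_4 _ _ (by decide +kernel)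

/-- certificates of the pair `(9, 3)`, part 5 -/
def t21_22_9_3_5 : BlkD.Tr :=
  .L 5 7 [4, 4, 4, 21] [] [] 100000 118750 118750 956250 87500 0 93750 0 0 0 0

lemma s21_22_9_3_5 {n : ℕ} (hn : 7 ≤ n) : NoNd (d21_22_9_3.R : ℤ) d21_22_9_3.H n d21_22_9_3.a d21_22_9_3.b
    (BlkD.inB (BlkD.upd (fun _ => 0) 0 2)
      (BlkD.upd (BlkD.upd (BlkD.upd (BlkD.upd (BlkD.upd (BlkD.upd (fun _ => 22) 0 9) 2 3) 0 4) 0 2) 1 11) 1 5)) :=
  BlkD.tree_sound (BlkD.pairOk_sound k21_22_9_3) (by decide) hn t21_22_9_3_5 _ _ (by decide +kernel)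

/-- certificates of the pair `(9, 3)`, part 6 -/
def t21_22_9_3_6 : BlkD.Tr :=
  .S 1 8 (.L 5 7 [4, 4, 4, 21] [] [] 100000 118750 118750 956250 87500 0 93750 0 0 0 0) (.L 5 7 [4,
    4, 4, 21] [] [] 100000 118750 118750 956250 87500 0 93750 0 0 0 0)

lemma s21_22_9_3_6 {n : ℕ} (hn : 7 ≤ n) : NoNd (d21_22_9_3.R : ℤ) d21_22_9_3.H n d21_22_9_3.a d21_22_9_3.b
    (BlkD.inB (BlkD.upd (BlkD.upd (fun _ => 0) 0 2) 1 6)
      (BlkD.upd (BlkD.upd (BlkD.upd (BlkD.upd (BlkD.upd (fun _ => 22) 0 9) 2 3) 0 4) 0 2) 1 11)) :=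
  BlkD.tree_sound (BlkD.pairOk_sound k21_22_9_3) (by decide) hn t21_22_9_3_6 _ _ (by decide +kernel)

/-- certificates of the pair `(9, 3)`, part 7 -/
def t21_22_9_3_7 : BlkD.Tr :=
  .L 5 7 [4, 4, 4, 21] [] [] 100000 118750 118750 956250 87500 0 93750 0 0 0 0

lemma s21_22_9_3_7 {n : ℕ} (hn : 7 ≤ n) : NoNd (d21_22_9_3.R : ℤ) d21_22_9_3.H n d21_22_9_3.a d21_22_9_3.b
    (BlkD.inB (BlkD.upd (BlkD.upd (fun _ => 0) 0 2) 1 12)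
      (BlkD.upd (BlkD.upd (BlkD.upd (BlkD.upd (fun _ => 22) 0 9) 2 3) 0 4) 0 2)) :=
  BlkD.tree_sound (BlkD.pairOk_sound k21_22_9_3) (by decide) hn t21_22_9_3_7 _ _ (by decide +kernel)

/-- certificates of the pair `(9, 3)`, part 8 -/
def t21_22_9_3_8 : BlkD.Tr :=
  .L 5 7 [4, 4, 4, 21] [] [] 100000 172368 172368 1131580 73684 0 89474 23684 0 0 0

lemma s21_22_9_3_8 {n : ℕ} (hn : 7 ≤ n) : NoNd (d21_22_9_3.R : ℤ) d21_22_9_3.H n d21_22_9_3.a d21_22_9_3.b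
    (BlkD.inB (BlkD.upd (fun _ => 0) 0 3)
      (BlkD.upd (BlkD.upd (BlkD.upd (BlkD.upd (BlkD.upd (BlkD.upd (fun _ => 22) 0 9) 2 3) 0 4) 0 3) 1 11) 1 5)) :=
  BlkD.tree_sound (BlkD.pairOk_sound k21_22_9_3) (by decide) hn t21_22_9_3_8 _ _ (by decide +kernel)

/-- certificates of the pair `(9, 3)`, part 9 -/
def t21_22_9_3_9 : BlkD.Tr :=
  .S 1 8 (.L 5 7 [4, 4, 4, 21] [] [] 100000 172368 172368 1131580 73684 0 89474 23684 0 0 0) (.L 5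
    7 [4, 4, 4, 21] [] [] 100000 172368 172368 1131580 73684 0 89474 23684 0 0 0)

lemma s21_22_9_3_9 {n : ℕ} (hn : 7 ≤ n) : NoNd (d21_22_9_3.R : ℤ) d21_22_9_3.H n d21_22_9_3.a d21_22_9_3.b
    (BlkD.inB (BlkD.upd (BlkD.upd (fun _ => 0) 0 3) 1 6)
      (BlkD.upd (BlkD.upd (BlkD.upd (BlkD.upd (BlkD.upd (fun _ => 22) 0 9) 2 3) 0 4) 0 3) 1 11)) :=
  BlkD.tree_sound (BlkD.pairOk_sound k21_22_9_3) (by decide) hn t21_22_9_3_9 _ _ (by decide +kernel)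

/-- certificates of the pair `(9, 3)`, part 10 -/
def t21_22_9_3_10 : BlkD.Tr :=
  .L 5 7 [4, 4, 4, 21] [] [] 100000 172368 172368 1131580 73684 0 89474 23684 0 0 0

lemma s21_22_9_3_10 {n : ℕ} (hn : 7 ≤ n) : NoNd (d21_22_9_3.R : ℤ) d21_22_9_3.H n d21_22_9_3.a d21_22_9_3.b
    (BlkD.inB (BlkD.upd (BlkD.upd (fun _ => 0) 0 3) 1 12)
      (BlkD.upd (BlkD.upd (BlkD.upd (BlkD.upd (fun _ => 22) 0 9) 2 3) 0 4) 0 3)) :=
  BlkD.tree_sound (BlkD.pairOk_sound k21_22_9_3) (by decide) hn t21_22_9_3_10 _ _ (by decide +kernel)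

/-- certificates of the pair `(9, 3)`, part 11 -/
def t21_22_9_3_11 : BlkD.Tr :=
  .S 1 4 (.L 5 7 [4, 4, 4, 21] [] [] 100000 13637 13637 1190909 27273 0 27273 9091 0 0 0) (.S 1 7
    (.L 5 7 [4, 4, 4, 21] [] [] 100000 20536 20536 1312503 41071 0 51786 32143 0 0 0) (.S 1 8 (.L 5
    7 [4, 4, 4, 21] [180, 176, 172, 168, 162, 152] [] 100000 21875 21875 1350000 43750 0 43750
    37500 0 0 0) (.L 5 7 [4, 4, 4, 21] [208, 204, 200, 196, 192, 186] [] 100000 33334 33334 1350000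
    50000 0 66667 16667 0 0 0)))

lemma s21_22_9_3_11 {n : ℕ} (hn : 7 ≤ n) : NoNd (d21_22_9_3.R : ℤ) d21_22_9_3.H n d21_22_9_3.a d21_22_9_3.b
    (BlkD.inB (BlkD.upd (BlkD.upd (fun _ => 0) 0 3) 0 4)
      (BlkD.upd (BlkD.upd (BlkD.upd (BlkD.upd (BlkD.upd (fun _ => 22) 0 9) 2 3) 0 4) 1 18) 1 9)) :=
  BlkD.tree_sound (BlkD.pairOk_sound k21_22_9_3) (by decide) hn t21_22_9_3_11 _ _ (by decide +kernel)

/-- certificates of the pair `(9, 3)`, part 12 -/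
def t21_22_9_3_12 : BlkD.Tr :=
  .S 1 14 (.S 1 12 (.S 1 11 (.S 1 10 (.L 5 7 [4, 4, 4, 21] [238, 234, 230, 226, 222, 218] [] 100000
    85715 85715 1242858 71429 0 85714 14286 0 0 0) (.L 5 7 [4, 4, 4, 21] [270, 266, 262, 258, 254,
    250] [] 100000 150000 150000 1100000 100000 0 100000 0 0 0 0)) (.L 5 7 [4, 4, 4, 21] [304, 300,
    296, 292, 288, 284] [] 100000 150000 100000 850000 100000 0 150000 50000 0 0 0)) (.S 1 13 (.L 5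
    7 [4, 4, 4, 21] [340, 336, 332, 328, 324, 320] [] 100000 325000 200000 125000 187500 0 225000
    25000 0 0 0) (.L 5 7 [4, 4, 4, 21] [378, 374, 370, 366, 362, 358] [] 100000 273078 134616 0
    169231 0 238462 0 0 0 0))) (.S 1 16 (.S 1 15 (.L 5 7 [4, 4, 4, 21] [418, 414, 410, 406, 402,
    398] [] 100000 250001 142858 0 164286 0 207143 0 0 0 0) (.L 5 7 [4, 4, 4, 21] [460, 456, 452,
    448, 444, 440] [] 100000 225582 141861 0 162791 0 183721 0 0 0 0)) (.S 1 17 (.L 5 7 [4, 4, 4,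
    21] [504, 500, 496, 492, 488, 484] [] 100000 133334 1 0 116667 0 233333 0 0 0 0) (.L 5 7 [4, 4,
    4, 21] [550, 546, 542, 538, 534, 530] [] 100000 151428 62857 5 125714 0 188571 0 0 0 0)))

lemma s21_22_9_3_12 {n : ℕ} (hn : 7 ≤ n) : NoNd (d21_22_9_3.R : ℤ) d21_22_9_3.H n d21_22_9_3.a d21_22_9_3.b
    (BlkD.inB (BlkD.upd (BlkD.upd (BlkD.upd (fun _ => 0) 0 3) 0 4) 1 10)
      (BlkD.upd (BlkD.upd (BlkD.upd (BlkD.upd (fun _ => 22) 0 9) 2 3) 0 4) 1 18)) :=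
  BlkD.tree_sound (BlkD.pairOk_sound k21_22_9_3) (by decide) hn t21_22_9_3_12 _ _ (by decide +kernel)

/-- certificates of the pair `(9, 3)`, part 13 -/
def t21_22_9_3_13 : BlkD.Tr :=
  .E 0

lemma s21_22_9_3_13 {n : ℕ} (hn : 7 ≤ n) : NoNd (d21_22_9_3.R : ℤ) d21_22_9_3.H n d21_22_9_3.a d21_22_9_3.b
    (BlkD.inB (BlkD.upd (BlkD.upd (BlkD.upd (fun _ => 0) 0 3) 0 4) 1 19)
      (BlkD.upd (BlkD.upd (BlkD.upd (fun _ => 22) 0 9) 2 3) 0 4)) :=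
  BlkD.tree_sound (BlkD.pairOk_sound k21_22_9_3) (by decide) hn t21_22_9_3_13 _ _ (by decide +kernel)

/-- certificates of the pair `(9, 3)`, part 14 -/
def t21_22_9_3_14 : BlkD.Tr :=
  .S 1 4 (.L 5 7 [4, 4, 4, 21] [] [] 100000 13637 13637 1290909 27273 0 27273 9091 0 0 0) (.S 1 6
    (.L 5 7 [4, 4, 4, 21] [] [] 100000 20000 20000 1360000 40000 0 40000 30000 0 0 0) (.S 1 7 (.L 5
    7 [4, 4, 4, 21] [168, 164, 160, 154, 144, 134] [] 100000 15000 15000 1420000 40000 0 40000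
    30000 0 10000 10000) (.L 5 7 [4, 4, 4, 21] [196, 192, 188, 184, 178, 168] [] 100000 42857 42857
    1400003 50000 0 57143 28571 0 21429 21429)))

lemma s21_22_9_3_14 {n : ℕ} (hn : 7 ≤ n) : NoNd (d21_22_9_3.R : ℤ) d21_22_9_3.H n d21_22_9_3.a d21_22_9_3.b
    (BlkD.inB (BlkD.upd (fun _ => 0) 0 5)
      (BlkD.upd (BlkD.upd (BlkD.upd (BlkD.upd (BlkD.upd (BlkD.upd (BlkD.upd (fun _ => 22) 0 9) 2 3) 0 7) 0 6) 0 5) 1 17) 1 8)) :=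
  BlkD.tree_sound (BlkD.pairOk_sound k21_22_9_3) (by decide) hn t21_22_9_3_14 _ _ (by decide +kernel)

/-- certificates of the pair `(9, 3)`, part 15 -/
def t21_22_9_3_15 : BlkD.Tr :=
  .S 1 13 (.S 1 11 (.S 1 10 (.S 1 9 (.L 5 7 [4, 4, 4, 21] [226, 222, 218, 214, 210, 204] [] 100000
    46298 46298 1377776 55556 0 77778 14815 0 7407 7407) (.L 5 7 [4, 4, 4, 21] [258, 254, 250, 246,
    242, 238] [] 100000 100000 100000 1225000 75000 0 100000 25000 0 0 0)) (.L 5 7 [4, 4, 4, 21]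
    [292, 288, 284, 280, 276, 272] [] 100000 126087 104348 1039133 91304 0 121739 34783 0 0 17391))
    (.S 1 12 (.L 5 7 [4, 4, 4, 21] [328, 324, 320, 316, 312, 308] [] 100000 185714 114285 671430
    128571 0 171429 14286 0 0 0) (.L 5 7 [4, 4, 4, 21] [366, 362, 358, 354, 350, 346] [] 100000
    192308 0 0 146154 0 292308 0 0 0 0))) (.S 1 15 (.S 1 14 (.L 5 7 [4, 4, 4, 21] [406, 402, 398,
    394, 390, 386] [] 100000 168183 22728 0 145455 0 245455 0 0 0 0) (.L 5 7 [4, 4, 4, 21] [448,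
    444, 440, 436, 432, 428] [] 100000 150000 16667 4 133333 0 233333 0 0 0 0)) (.L 5 7 [4, 4, 4,
    21] [] [] 100000 189474 0 0 28947 0 289474 0 0 0 0))

lemma s21_22_9_3_15 {n : ℕ} (hn : 7 ≤ n) : NoNd (d21_22_9_3.R : ℤ) d21_22_9_3.H n d21_22_9_3.a d21_22_9_3.b
    (BlkD.inB (BlkD.upd (BlkD.upd (fun _ => 0) 0 5) 1 9)
      (BlkD.upd (BlkD.upd (BlkD.upd (BlkD.upd (BlkD.upd (BlkD.upd (fun _ => 22) 0 9) 2 3) 0 7) 0 6) 0 5) 1 17)) :=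
  BlkD.tree_sound (BlkD.pairOk_sound k21_22_9_3) (by decide) hn t21_22_9_3_15 _ _ (by decide +kernel)

/-- certificates of the pair `(9, 3)`, part 16 -/
def t21_22_9_3_16 : BlkD.Tr :=
  .E 0

lemma s21_22_9_3_16 {n : ℕ} (hn : 7 ≤ n) : NoNd (d21_22_9_3.R : ℤ) d21_22_9_3.H n d21_22_9_3.a d21_22_9_3.b
    (BlkD.inB (BlkD.upd (BlkD.upd (fun _ => 0) 0 5) 1 18)
      (BlkD.upd (BlkD.upd (BlkD.upd (BlkD.upd (BlkD.upd (fun _ => 22) 0 9) 2 3) 0 7) 0 6) 0 5)) :=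
  BlkD.tree_sound (BlkD.pairOk_sound k21_22_9_3) (by decide) hn t21_22_9_3_16 _ _ (by decide +kernel)

/-- certificates of the pair `(9, 3)`, part 17 -/
def t21_22_9_3_17 : BlkD.Tr :=
  .S 1 16 (.S 1 8 (.S 1 4 (.L 5 7 [4, 4, 4, 21] [] [] 100000 25000 25000 1300000 50000 0 50000
    50000 0 0 0) (.S 1 6 (.S 1 5 (.L 5 7 [4, 4, 4, 21] [128, 122, 112, 102, 92, 80] [] 100000 14286
    14286 1385715 42857 0 50000 14286 0 14286 14286) (.S 2 1 (.L 5 7 [4, 4, 4, 21] [154, 150, 144,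
    134, 124, 114] [] 100000 0 0 1484617 30769 15385 46154 30769 0 30769 30769) (.L 5 7 [4, 4, 4,
    21] [154, 150, 144, 134, 124, 114] [] 100000 0 0 1466669 33333 0 33333 33333 0 33333 33333)))
    (.S 1 7 (.S 2 1 (.L 5 7 [4, 4, 4, 21] [182, 178, 174, 168, 158, 148] [] 100000 59823 59823
    1373213 51786 19643 76786 39286 0 10714 0) (.L 5 7 [4, 4, 4, 21] [182, 178, 174, 168, 158, 148]
    [] 100000 37500 37500 1400000 50000 0 75000 25000 0 25000 0)) (.L 5 7 [4, 4, 4, 21] [212, 208,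
    204, 200, 194, 184] [] 100000 83334 83334 1300000 66667 0 100000 33333 0 0 0)))) (.S 1 12 (.S 1
    10 (.S 1 9 (.L 5 7 [4, 4, 4, 21] [244, 240, 236, 232, 228, 222] [] 100000 69118 69118 1276470
    64706 0 100000 35294 0 5882 20588) (.L 5 7 [4, 4, 4, 21] [278, 274, 270, 266, 262, 258] []
    100000 81250 56250 1112500 87500 0 125000 12500 0 0 0)) (.L 5 7 [4, 4, 4, 21] [] [] 100000 0 0
    1475000 5000 0 100000 50000 0 5000 5000)) (.E 0))) (.E 0)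

lemma s21_22_9_3_17 {n : ℕ} (hn : 7 ≤ n) : NoNd (d21_22_9_3.R : ℤ) d21_22_9_3.H n d21_22_9_3.a d21_22_9_3.b
    (BlkD.inB (BlkD.upd (BlkD.upd (fun _ => 0) 0 5) 0 6)
      (BlkD.upd (BlkD.upd (BlkD.upd (BlkD.upd (fun _ => 22) 0 9) 2 3) 0 7) 0 6)) :=
  BlkD.tree_sound (BlkD.pairOk_sound k21_22_9_3) (by decide) hn t21_22_9_3_17 _ _ (by decide +kernel)

/-- certificates of the pair `(9, 3)`, part 18 -/
def t21_22_9_3_18 : BlkD.Tr :=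
  .S 1 15 (.S 1 7 (.S 1 3 (.L 5 7 [4, 4, 4, 21] [] [] 100000 25000 25000 1350000 50000 0 50000
    25000 0 0 0) (.S 1 5 (.S 1 4 (.L 5 7 [4, 4, 4, 21] [110, 100, 90, 80, 68, 0] [] 100000 12500
    12500 1400000 50000 0 50000 25000 0 25000 25000) (.L 5 7 [4, 4, 4, 21] [138, 132, 122, 112,
    102, 90] [] 100000 6668 6668 1463333 36667 0 90000 13333 0 23333 23333)) (.S 1 6 (.L 5 7 [4, 4,
    4, 21] [166, 162, 156, 146, 136, 126] [] 100000 17647 17647 1447061 38235 0 100000 20588 0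
    17647 17647) (.L 5 7 [4, 4, 4, 21] [196, 192, 188, 182, 172, 162] [] 100000 66668 66668 1300000
    66667 0 100000 33333 0 0 0)))) (.L 5 7 [4, 4, 4, 21] [] [] 100000 0 0 1488000 4000 0 100000
    48000 0 4000 4000)) (.E 0)

lemma s21_22_9_3_18 {n : ℕ} (hn : 7 ≤ n) : NoNd (d21_22_9_3.R : ℤ) d21_22_9_3.H n d21_22_9_3.a d21_22_9_3.b
    (BlkD.inB (BlkD.upd (BlkD.upd (fun _ => 0) 0 5) 0 7)
      (BlkD.upd (BlkD.upd (BlkD.upd (fun _ => 22) 0 9) 2 3) 0 7)) :=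
  BlkD.tree_sound (BlkD.pairOk_sound k21_22_9_3) (by decide) hn t21_22_9_3_18 _ _ (by decide +kernel)

/-- certificates of the pair `(9, 3)`, part 19 -/
def t21_22_9_3_19 : BlkD.Tr :=
  .L 5 7 [4, 4, 4, 21] [] [] 100000 4 4 1490476 3175 3175 100000 33333 0 3175 3175

lemma s21_22_9_3_19 {n : ℕ} (hn : 7 ≤ n) : NoNd (d21_22_9_3.R : ℤ) d21_22_9_3.H n d21_22_9_3.a d21_22_9_3.b
    (BlkD.inB (BlkD.upd (BlkD.upd (fun _ => 0) 0 5) 0 8)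
      (BlkD.upd (BlkD.upd (fun _ => 22) 0 9) 2 3)) :=
  BlkD.tree_sound (BlkD.pairOk_sound k21_22_9_3) (by decide) hn t21_22_9_3_19 _ _ (by decide +kernel)

/-- certificates of the pair `(9, 3)`, part 20 -/
def t21_22_9_3_20 : BlkD.Tr :=
  .E 1

lemma s21_22_9_3_20 {n : ℕ} (hn : 7 ≤ n) : NoNd (d21_22_9_3.R : ℤ) d21_22_9_3.H n d21_22_9_3.a d21_22_9_3.b
    (BlkD.inB (BlkD.upd (fun _ => 0) 2 4)
      (BlkD.upd (fun _ => 22) 0 9)) :=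
  BlkD.tree_sound (BlkD.pairOk_sound k21_22_9_3) (by decide) hn t21_22_9_3_20 _ _ (by decide +kernel)

/-- certificates of the pair `(9, 3)`, part 21 -/
def t21_22_9_3_21 : BlkD.Tr :=
  .E 0

lemma s21_22_9_3_21 {n : ℕ} (hn : 7 ≤ n) : NoNd (d21_22_9_3.R : ℤ) d21_22_9_3.H n d21_22_9_3.a d21_22_9_3.b
    (BlkD.inB (BlkD.upd (fun _ => 0) 0 10)
      (fun _ => 22)) :=
  BlkD.tree_sound (BlkD.pairOk_sound k21_22_9_3) (by decide) hn t21_22_9_3_21 _ _ (by decide +kernel)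

lemma pr21_22_9_3 {n : ℕ} (hn : 7 ≤ n) : NoPr ((21 : ℕ) : ℤ) ((22 : ℕ) : ℤ) n 9 3 :=
  BlkD.of_root (R := d21_22_9_3.R) (H := d21_22_9_3.H) (a := d21_22_9_3.a) (b := d21_22_9_3.b) (q := 5) (by decide) hn
    (BlkD.sp 0 9 (BlkD.sp 2 3 (BlkD.sp 0 4 (BlkD.sp 0 2 (BlkD.sp 0 1 (BlkD.sp 0 0 (s21_22_9_3_1 hn)
      (BlkD.sp 1 11 (BlkD.sp 1 5 (s21_22_9_3_2 hn) (s21_22_9_3_3 hn)) (s21_22_9_3_4 hn))) (BlkD.sp
      1 11 (BlkD.sp 1 5 (s21_22_9_3_5 hn) (s21_22_9_3_6 hn)) (s21_22_9_3_7 hn))) (BlkD.sp 0 3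
      (BlkD.sp 1 11 (BlkD.sp 1 5 (s21_22_9_3_8 hn) (s21_22_9_3_9 hn)) (s21_22_9_3_10 hn)) (BlkD.sp
      1 18 (BlkD.sp 1 9 (s21_22_9_3_11 hn) (s21_22_9_3_12 hn)) (s21_22_9_3_13 hn)))) (BlkD.sp 0 7
      (BlkD.sp 0 6 (BlkD.sp 0 5 (BlkD.sp 1 17 (BlkD.sp 1 8 (s21_22_9_3_14 hn) (s21_22_9_3_15 hn))
      (s21_22_9_3_16 hn)) (s21_22_9_3_17 hn)) (s21_22_9_3_18 hn)) (s21_22_9_3_19 hn)))
      (s21_22_9_3_20 hn)) (s21_22_9_3_21 hn))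

end BlkC

end Pool.Agent.Lib.MP_f04ccf_co
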