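import Pool.Agent.Lib.MP_f04ccf_co.M.BlkT

/-!
MP_f04ccf_co, block certificate, data `R = 21`, `H = 22`, part 16 (generated, helper99:
bd10.cpp, gen2.py).
-/

set_option autoImplicit false
set_option maxRecDepth 100000

namespace Pool.Agent.Lib.MP_f04ccf_co

namespace BlkC

/-- the numbers of the pair `(9, 5)`, `R = 21`, `H = 22` -/
def d21_22_9_5 : BlkD.Pd :=
  ⟨21, 22, 5, 9, 5, 5, 0, 3, 0, 4, 4, 0, 0, 4, 4, 0, [0, 4, 8, 12, 16, 20], [0, 4, 8, 12, 16, 20],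
    [⟨1, 1, 1, 4, 8, [0, 4], [0, 4]⟩]⟩

lemma k21_22_9_5 : BlkD.pairOk d21_22_9_5 = true := by decide +kernel

/-- certificates of the pair `(9, 5)`, part 1 -/
def t21_22_9_5_1 : BlkD.Tr :=
  .L 4 4 [4, 21, 21, 21, 21, 21] [] [] 100000 0 0 1600000 50000 50000 100000 50000 0 0 0

lemma s21_22_9_5_1 {n : ℕ} (hn : 7 ≤ n) : NoNd (d21_22_9_5.R : ℤ) d21_22_9_5.H n d21_22_9_5.a d21_22_9_5.b
    (BlkD.inB (fun _ => 0)
      (BlkD.upd (BlkD.upd (BlkD.upd (BlkD.upd (BlkD.upd (BlkD.upd (fun _ => 22) 0 9) 2 5) 0 4) 0 2) 0 1) 0 0)) :=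
  BlkD.tree_sound (BlkD.pairOk_sound k21_22_9_5) (by decide) hn t21_22_9_5_1 _ _ (by decide +kernel)

/-- certificates of the pair `(9, 5)`, part 2 -/
def t21_22_9_5_2 : BlkD.Tr :=
  .L 4 4 [4, 21, 21, 21, 21, 21] [] [] 100000 0 0 1600000 50000 50000 100000 50000 0 0 0

lemma s21_22_9_5_2 {n : ℕ} (hn : 7 ≤ n) : NoNd (d21_22_9_5.R : ℤ) d21_22_9_5.H n d21_22_9_5.a d21_22_9_5.b
    (BlkD.inB (BlkD.upd (fun _ => 0) 0 1)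
      (BlkD.upd (BlkD.upd (BlkD.upd (BlkD.upd (BlkD.upd (BlkD.upd (BlkD.upd (fun _ => 22) 0 9) 2 5) 0 4) 0 2) 0 1) 1 11) 1 5)) :=
  BlkD.tree_sound (BlkD.pairOk_sound k21_22_9_5) (by decide) hn t21_22_9_5_2 _ _ (by decide +kernel)

/-- certificates of the pair `(9, 5)`, part 3 -/
def t21_22_9_5_3 : BlkD.Tr :=
  .L 4 4 [4, 21, 21, 21, 21, 21] [] [] 100000 0 0 1600000 50000 50000 100000 50000 0 0 0

lemma s21_22_9_5_3 {n : ℕ} (hn : 7 ≤ n) : NoNd (d21_22_9_5.R : ℤ) d21_22_9_5.H n d21_22_9_5.a d21_22_9_5.b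
    (BlkD.inB (BlkD.upd (BlkD.upd (fun _ => 0) 0 1) 1 6)
      (BlkD.upd (BlkD.upd (BlkD.upd (BlkD.upd (BlkD.upd (BlkD.upd (fun _ => 22) 0 9) 2 5) 0 4) 0 2) 0 1) 1 11)) :=
  BlkD.tree_sound (BlkD.pairOk_sound k21_22_9_5) (by decide) hn t21_22_9_5_3 _ _ (by decide +kernel)

/-- certificates of the pair `(9, 5)`, part 4 -/
def t21_22_9_5_4 : BlkD.Tr :=
  .L 4 4 [4, 21, 21, 21, 21, 21] [] [] 100000 0 0 1600000 50000 50000 100000 50000 0 0 0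

lemma s21_22_9_5_4 {n : ℕ} (hn : 7 ≤ n) : NoNd (d21_22_9_5.R : ℤ) d21_22_9_5.H n d21_22_9_5.a d21_22_9_5.b
    (BlkD.inB (BlkD.upd (BlkD.upd (fun _ => 0) 0 1) 1 12)
      (BlkD.upd (BlkD.upd (BlkD.upd (BlkD.upd (BlkD.upd (fun _ => 22) 0 9) 2 5) 0 4) 0 2) 0 1)) :=
  BlkD.tree_sound (BlkD.pairOk_sound k21_22_9_5) (by decide) hn t21_22_9_5_4 _ _ (by decide +kernel)

/-- certificates of the pair `(9, 5)`, part 5 -/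
def t21_22_9_5_5 : BlkD.Tr :=
  .L 4 4 [4, 21, 21, 21, 21, 21] [] [] 100000 0 0 1600000 50000 50000 100000 50000 0 0 0

lemma s21_22_9_5_5 {n : ℕ} (hn : 7 ≤ n) : NoNd (d21_22_9_5.R : ℤ) d21_22_9_5.H n d21_22_9_5.a d21_22_9_5.b
    (BlkD.inB (BlkD.upd (fun _ => 0) 0 2)
      (BlkD.upd (BlkD.upd (BlkD.upd (BlkD.upd (BlkD.upd (BlkD.upd (fun _ => 22) 0 9) 2 5) 0 4) 0 2) 1 11) 1 5)) :=
  BlkD.tree_sound (BlkD.pairOk_sound k21_22_9_5) (by decide) hn t21_22_9_5_5 _ _ (by decide +kernel)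

/-- certificates of the pair `(9, 5)`, part 6 -/
def t21_22_9_5_6 : BlkD.Tr :=
  .S 1 8 (.L 4 4 [4, 21, 21, 21, 21, 21] [] [] 100000 0 0 1600000 50000 50000 100000 50000 0 0 0)
    (.L 4 4 [4, 21, 21, 21, 21, 21] [] [] 100000 0 0 1600000 50000 50000 100000 50000 0 0 0)

lemma s21_22_9_5_6 {n : ℕ} (hn : 7 ≤ n) : NoNd (d21_22_9_5.R : ℤ) d21_22_9_5.H n d21_22_9_5.a d21_22_9_5.b
    (BlkD.inB (BlkD.upd (BlkD.upd (fun _ => 0) 0 2) 1 6)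
      (BlkD.upd (BlkD.upd (BlkD.upd (BlkD.upd (BlkD.upd (fun _ => 22) 0 9) 2 5) 0 4) 0 2) 1 11)) :=
  BlkD.tree_sound (BlkD.pairOk_sound k21_22_9_5) (by decide) hn t21_22_9_5_6 _ _ (by decide +kernel)

/-- certificates of the pair `(9, 5)`, part 7 -/
def t21_22_9_5_7 : BlkD.Tr :=
  .L 4 4 [4, 21, 21, 21, 21, 21] [] [] 100000 0 0 1600000 50000 50000 100000 50000 0 0 0

lemma s21_22_9_5_7 {n : ℕ} (hn : 7 ≤ n) : NoNd (d21_22_9_5.R : ℤ) d21_22_9_5.H n d21_22_9_5.a d21_22_9_5.b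
    (BlkD.inB (BlkD.upd (BlkD.upd (fun _ => 0) 0 2) 1 12)
      (BlkD.upd (BlkD.upd (BlkD.upd (BlkD.upd (fun _ => 22) 0 9) 2 5) 0 4) 0 2)) :=
  BlkD.tree_sound (BlkD.pairOk_sound k21_22_9_5) (by decide) hn t21_22_9_5_7 _ _ (by decide +kernel)

/-- certificates of the pair `(9, 5)`, part 8 -/
def t21_22_9_5_8 : BlkD.Tr :=
  .L 4 4 [4, 21, 21, 21, 21, 21] [] [] 100000 0 0 1600000 50000 50000 100000 50000 0 0 0

lemma s21_22_9_5_8 {n : ℕ} (hn : 7 ≤ n) : NoNd (d21_22_9_5.R : ℤ) d21_22_9_5.H n d21_22_9_5.a d21_22_9_5.b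
    (BlkD.inB (BlkD.upd (fun _ => 0) 0 3)
      (BlkD.upd (BlkD.upd (BlkD.upd (BlkD.upd (BlkD.upd (BlkD.upd (fun _ => 22) 0 9) 2 5) 0 4) 0 3) 1 11) 1 5)) :=
  BlkD.tree_sound (BlkD.pairOk_sound k21_22_9_5) (by decide) hn t21_22_9_5_8 _ _ (by decide +kernel)

/-- certificates of the pair `(9, 5)`, part 9 -/
def t21_22_9_5_9 : BlkD.Tr :=
  .L 4 4 [4, 21, 21, 21, 21, 21] [] [] 100000 0 0 1600000 50000 50000 100000 50000 0 0 0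

lemma s21_22_9_5_9 {n : ℕ} (hn : 7 ≤ n) : NoNd (d21_22_9_5.R : ℤ) d21_22_9_5.H n d21_22_9_5.a d21_22_9_5.b
    (BlkD.inB (BlkD.upd (BlkD.upd (fun _ => 0) 0 3) 1 6)
      (BlkD.upd (BlkD.upd (BlkD.upd (BlkD.upd (BlkD.upd (BlkD.upd (fun _ => 22) 0 9) 2 5) 0 4) 0 3) 1 11) 1 8)) :=
  BlkD.tree_sound (BlkD.pairOk_sound k21_22_9_5) (by decide) hn t21_22_9_5_9 _ _ (by decide +kernel)

/-- certificates of the pair `(9, 5)`, part 10 -/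
def t21_22_9_5_10 : BlkD.Tr :=
  .L 4 4 [4, 21, 21, 21, 21, 21] [] [] 100000 0 0 1600000 50000 50000 100000 50000 0 0 0

lemma s21_22_9_5_10 {n : ℕ} (hn : 7 ≤ n) : NoNd (d21_22_9_5.R : ℤ) d21_22_9_5.H n d21_22_9_5.a d21_22_9_5.b
    (BlkD.inB (BlkD.upd (BlkD.upd (BlkD.upd (fun _ => 0) 0 3) 1 6) 1 9)
      (BlkD.upd (BlkD.upd (BlkD.upd (BlkD.upd (BlkD.upd (fun _ => 22) 0 9) 2 5) 0 4) 0 3) 1 11)) :=
  BlkD.tree_sound (BlkD.pairOk_sound k21_22_9_5) (by decide) hn t21_22_9_5_10 _ _ (by decide +kernel)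

/-- certificates of the pair `(9, 5)`, part 11 -/
def t21_22_9_5_11 : BlkD.Tr :=
  .L 4 4 [4, 21, 21, 21, 21, 21] [] [] 100000 0 0 1600000 50000 50000 100000 50000 0 0 0

lemma s21_22_9_5_11 {n : ℕ} (hn : 7 ≤ n) : NoNd (d21_22_9_5.R : ℤ) d21_22_9_5.H n d21_22_9_5.a d21_22_9_5.b
    (BlkD.inB (BlkD.upd (BlkD.upd (fun _ => 0) 0 3) 1 12)
      (BlkD.upd (BlkD.upd (BlkD.upd (BlkD.upd (fun _ => 22) 0 9) 2 5) 0 4) 0 3)) :=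
  BlkD.tree_sound (BlkD.pairOk_sound k21_22_9_5) (by decide) hn t21_22_9_5_11 _ _ (by decide +kernel)

/-- certificates of the pair `(9, 5)`, part 12 -/
def t21_22_9_5_12 : BlkD.Tr :=
  .L 4 4 [4, 21, 21, 21, 21, 21] [] [] 100000 0 0 1600000 50000 50000 100000 50000 0 0 0

lemma s21_22_9_5_12 {n : ℕ} (hn : 7 ≤ n) : NoNd (d21_22_9_5.R : ℤ) d21_22_9_5.H n d21_22_9_5.a d21_22_9_5.b
    (BlkD.inB (BlkD.upd (BlkD.upd (fun _ => 0) 0 3) 0 4)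
      (BlkD.upd (BlkD.upd (BlkD.upd (BlkD.upd (BlkD.upd (fun _ => 22) 0 9) 2 5) 0 4) 1 11) 1 5)) :=
  BlkD.tree_sound (BlkD.pairOk_sound k21_22_9_5) (by decide) hn t21_22_9_5_12 _ _ (by decide +kernel)

/-- certificates of the pair `(9, 5)`, part 13 -/
def t21_22_9_5_13 : BlkD.Tr :=
  .L 4 4 [4, 21, 21, 21, 21, 21] [] [] 100000 0 0 1600000 50000 50000 100000 50000 0 0 0

lemma s21_22_9_5_13 {n : ℕ} (hn : 7 ≤ n) : NoNd (d21_22_9_5.R : ℤ) d21_22_9_5.H n d21_22_9_5.a d21_22_9_5.b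
    (BlkD.inB (BlkD.upd (BlkD.upd (BlkD.upd (fun _ => 0) 0 3) 0 4) 1 6)
      (BlkD.upd (BlkD.upd (BlkD.upd (BlkD.upd (BlkD.upd (fun _ => 22) 0 9) 2 5) 0 4) 1 11) 1 8)) :=
  BlkD.tree_sound (BlkD.pairOk_sound k21_22_9_5) (by decide) hn t21_22_9_5_13 _ _ (by decide +kernel)

/-- certificates of the pair `(9, 5)`, part 14 -/
def t21_22_9_5_14 : BlkD.Tr :=
  .S 1 9 (.L 4 4 [4, 21, 21, 21, 21, 21] [206, 206, 202, 198, 194, 190] [] 100000 0 0 1600000 50000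
    50000 100000 50000 0 0 0) (.L 4 4 [4, 21, 21, 21, 21, 21] [232, 232, 232, 228, 224, 220] []
    100000 0 0 1600000 50000 50000 100000 50000 0 0 0)

lemma s21_22_9_5_14 {n : ℕ} (hn : 7 ≤ n) : NoNd (d21_22_9_5.R : ℤ) d21_22_9_5.H n d21_22_9_5.a d21_22_9_5.b
    (BlkD.inB (BlkD.upd (BlkD.upd (BlkD.upd (BlkD.upd (fun _ => 0) 0 3) 0 4) 1 6) 1 9)
      (BlkD.upd (BlkD.upd (BlkD.upd (BlkD.upd (BlkD.upd (fun _ => 22) 0 9) 2 5) 0 4) 1 11) 1 10)) :=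
  BlkD.tree_sound (BlkD.pairOk_sound k21_22_9_5) (by decide) hn t21_22_9_5_14 _ _ (by decide +kernel)

/-- certificates of the pair `(9, 5)`, part 15 -/
def t21_22_9_5_15 : BlkD.Tr :=
  .L 4 4 [4, 21, 21, 21, 21, 21] [260, 260, 260, 260, 256, 252] [] 100000 0 0 1600000 50000 50000
    100000 50000 0 0 0

lemma s21_22_9_5_15 {n : ℕ} (hn : 7 ≤ n) : NoNd (d21_22_9_5.R : ℤ) d21_22_9_5.H n d21_22_9_5.a d21_22_9_5.b
    (BlkD.inB (BlkD.upd (BlkD.upd (BlkD.upd (BlkD.upd (BlkD.upd (fun _ => 0) 0 3) 0 4) 1 6) 1 9) 1 11)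
      (BlkD.upd (BlkD.upd (BlkD.upd (BlkD.upd (fun _ => 22) 0 9) 2 5) 0 4) 1 11)) :=
  BlkD.tree_sound (BlkD.pairOk_sound k21_22_9_5) (by decide) hn t21_22_9_5_15 _ _ (by decide +kernel)

/-- certificates of the pair `(9, 5)`, part 16 -/
def t21_22_9_5_16 : BlkD.Tr :=
  .L 4 4 [4, 21, 21, 21, 21, 21] [] [] 100000 0 0 1600000 50000 50000 100000 50000 0 0 0

lemma s21_22_9_5_16 {n : ℕ} (hn : 7 ≤ n) : NoNd (d21_22_9_5.R : ℤ) d21_22_9_5.H n d21_22_9_5.a d21_22_9_5.b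
    (BlkD.inB (BlkD.upd (BlkD.upd (BlkD.upd (fun _ => 0) 0 3) 0 4) 1 12)
      (BlkD.upd (BlkD.upd (BlkD.upd (fun _ => 22) 0 9) 2 5) 0 4)) :=
  BlkD.tree_sound (BlkD.pairOk_sound k21_22_9_5) (by decide) hn t21_22_9_5_16 _ _ (by decide +kernel)

/-- certificates of the pair `(9, 5)`, part 17 -/
def t21_22_9_5_17 : BlkD.Tr :=
  .L 4 4 [4, 21, 21, 21, 21, 21] [] [] 100000 0 0 1600000 50000 50000 100000 50000 0 0 0

lemma s21_22_9_5_17 {n : ℕ} (hn : 7 ≤ n) : NoNd (d21_22_9_5.R : ℤ) d21_22_9_5.H n d21_22_9_5.a d21_22_9_5.b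
    (BlkD.inB (BlkD.upd (fun _ => 0) 0 5)
      (BlkD.upd (BlkD.upd (BlkD.upd (BlkD.upd (BlkD.upd (BlkD.upd (BlkD.upd (fun _ => 22) 0 9) 2 5) 0 7) 0 6) 0 5) 1 11) 1 5)) :=
  BlkD.tree_sound (BlkD.pairOk_sound k21_22_9_5) (by decide) hn t21_22_9_5_17 _ _ (by decide +kernel)

/-- certificates of the pair `(9, 5)`, part 18 -/
def t21_22_9_5_18 : BlkD.Tr :=
  .S 1 7 (.L 4 4 [4, 21, 21, 21, 21, 21] [] [] 100000 0 0 1600000 50000 50000 100000 50000 0 0 0)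
    (.L 4 4 [4, 21, 21, 21, 21, 21] [198, 194, 190, 186, 182, 178] [] 100000 0 0 1600000 50000
    50000 100000 50000 0 0 0)

lemma s21_22_9_5_18 {n : ℕ} (hn : 7 ≤ n) : NoNd (d21_22_9_5.R : ℤ) d21_22_9_5.H n d21_22_9_5.a d21_22_9_5.b
    (BlkD.inB (BlkD.upd (BlkD.upd (fun _ => 0) 0 5) 1 6)
      (BlkD.upd (BlkD.upd (BlkD.upd (BlkD.upd (BlkD.upd (BlkD.upd (BlkD.upd (fun _ => 22) 0 9) 2 5) 0 7) 0 6) 0 5) 1 11) 1 8)) :=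
  BlkD.tree_sound (BlkD.pairOk_sound k21_22_9_5) (by decide) hn t21_22_9_5_18 _ _ (by decide +kernel)

/-- certificates of the pair `(9, 5)`, part 19 -/
def t21_22_9_5_19 : BlkD.Tr :=
  .S 1 10 (.L 4 4 [4, 21, 21, 21, 21, 21] [] [] 100000 0 0 1600000 50000 50000 100000 50000 0 0 0)
    (.L 4 4 [4, 21, 21, 21, 21, 21] [282, 282, 282, 282, 278, 274] [] 100000 0 0 1600000 50000
    50000 100000 50000 0 0 0)

lemma s21_22_9_5_19 {n : ℕ} (hn : 7 ≤ n) : NoNd (d21_22_9_5.R : ℤ) d21_22_9_5.H n d21_22_9_5.a d21_22_9_5.b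
    (BlkD.inB (BlkD.upd (BlkD.upd (BlkD.upd (fun _ => 0) 0 5) 1 6) 1 9)
      (BlkD.upd (BlkD.upd (BlkD.upd (BlkD.upd (BlkD.upd (BlkD.upd (fun _ => 22) 0 9) 2 5) 0 7) 0 6) 0 5) 1 11)) :=
  BlkD.tree_sound (BlkD.pairOk_sound k21_22_9_5) (by decide) hn t21_22_9_5_19 _ _ (by decide +kernel)

/-- certificates of the pair `(9, 5)`, part 20 -/
def t21_22_9_5_20 : BlkD.Tr :=
  .L 4 4 [4, 21, 21, 21, 21, 21] [] [] 100000 0 0 1600000 50000 50000 100000 50000 0 0 0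

lemma s21_22_9_5_20 {n : ℕ} (hn : 7 ≤ n) : NoNd (d21_22_9_5.R : ℤ) d21_22_9_5.H n d21_22_9_5.a d21_22_9_5.b
    (BlkD.inB (BlkD.upd (BlkD.upd (fun _ => 0) 0 5) 1 12)
      (BlkD.upd (BlkD.upd (BlkD.upd (BlkD.upd (BlkD.upd (fun _ => 22) 0 9) 2 5) 0 7) 0 6) 0 5)) :=
  BlkD.tree_sound (BlkD.pairOk_sound k21_22_9_5) (by decide) hn t21_22_9_5_20 _ _ (by decide +kernel)

/-- certificates of the pair `(9, 5)`, part 21 -/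
def t21_22_9_5_21 : BlkD.Tr :=
  .L 4 4 [4, 21, 21, 21, 21, 21] [] [] 100000 0 0 1600000 50000 50000 100000 50000 0 0 0

lemma s21_22_9_5_21 {n : ℕ} (hn : 7 ≤ n) : NoNd (d21_22_9_5.R : ℤ) d21_22_9_5.H n d21_22_9_5.a d21_22_9_5.b
    (BlkD.inB (BlkD.upd (BlkD.upd (fun _ => 0) 0 5) 0 6)
      (BlkD.upd (BlkD.upd (BlkD.upd (BlkD.upd (BlkD.upd (BlkD.upd (fun _ => 22) 0 9) 2 5) 0 7) 0 6) 1 11) 1 5)) :=
  BlkD.tree_sound (BlkD.pairOk_sound k21_22_9_5) (by decide) hn t21_22_9_5_21 _ _ (by decide +kernel)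

/-- certificates of the pair `(9, 5)`, part 22 -/
def t21_22_9_5_22 : BlkD.Tr :=
  .S 1 8 (.L 4 4 [4, 21, 21, 21, 21, 21] [] [] 100000 0 0 1600000 50000 50000 100000 50000 0 0 0)
    (.L 4 4 [4, 21, 21, 21, 21, 21] [] [] 100000 0 0 1600000 50000 50000 100000 50000 0 0 0)

lemma s21_22_9_5_22 {n : ℕ} (hn : 7 ≤ n) : NoNd (d21_22_9_5.R : ℤ) d21_22_9_5.H n d21_22_9_5.a d21_22_9_5.b
    (BlkD.inB (BlkD.upd (BlkD.upd (BlkD.upd (fun _ => 0) 0 5) 0 6) 1 6)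
      (BlkD.upd (BlkD.upd (BlkD.upd (BlkD.upd (BlkD.upd (fun _ => 22) 0 9) 2 5) 0 7) 0 6) 1 11)) :=
  BlkD.tree_sound (BlkD.pairOk_sound k21_22_9_5) (by decide) hn t21_22_9_5_22 _ _ (by decide +kernel)

/-- certificates of the pair `(9, 5)`, part 23 -/
def t21_22_9_5_23 : BlkD.Tr :=
  .L 4 4 [4, 21, 21, 21, 21, 21] [] [] 100000 0 0 1600000 50000 50000 100000 50000 0 0 0

lemma s21_22_9_5_23 {n : ℕ} (hn : 7 ≤ n) : NoNd (d21_22_9_5.R : ℤ) d21_22_9_5.H n d21_22_9_5.a d21_22_9_5.b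
    (BlkD.inB (BlkD.upd (BlkD.upd (BlkD.upd (fun _ => 0) 0 5) 0 6) 1 12)
      (BlkD.upd (BlkD.upd (BlkD.upd (BlkD.upd (fun _ => 22) 0 9) 2 5) 0 7) 0 6)) :=
  BlkD.tree_sound (BlkD.pairOk_sound k21_22_9_5) (by decide) hn t21_22_9_5_23 _ _ (by decide +kernel)

/-- certificates of the pair `(9, 5)`, part 24 -/
def t21_22_9_5_24 : BlkD.Tr :=
  .S 1 11 (.S 1 5 (.L 4 4 [4, 21, 21, 21, 21, 21] [] [] 100000 0 0 1600000 50000 50000 100000 50000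
    0 0 0) (.L 4 4 [4, 21, 21, 21, 21, 21] [] [] 100000 0 0 1600000 50000 50000 100000 50000 0 0
    0)) (.L 4 4 [4, 21, 21, 21, 21, 21] [] [] 100000 0 0 1600000 50000 50000 100000 50000 0 0 0)

lemma s21_22_9_5_24 {n : ℕ} (hn : 7 ≤ n) : NoNd (d21_22_9_5.R : ℤ) d21_22_9_5.H n d21_22_9_5.a d21_22_9_5.b
    (BlkD.inB (BlkD.upd (BlkD.upd (fun _ => 0) 0 5) 0 7)
      (BlkD.upd (BlkD.upd (BlkD.upd (fun _ => 22) 0 9) 2 5) 0 7)) :=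
  BlkD.tree_sound (BlkD.pairOk_sound k21_22_9_5) (by decide) hn t21_22_9_5_24 _ _ (by decide +kernel)

/-- certificates of the pair `(9, 5)`, part 25 -/
def t21_22_9_5_25 : BlkD.Tr :=
  .L 4 4 [4, 21, 21, 21, 21, 21] [] [] 100000 0 0 1600000 50000 50000 100000 50000 0 0 0

lemma s21_22_9_5_25 {n : ℕ} (hn : 7 ≤ n) : NoNd (d21_22_9_5.R : ℤ) d21_22_9_5.H n d21_22_9_5.a d21_22_9_5.b
    (BlkD.inB (BlkD.upd (BlkD.upd (fun _ => 0) 0 5) 0 8)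
      (BlkD.upd (BlkD.upd (fun _ => 22) 0 9) 2 5)) :=
  BlkD.tree_sound (BlkD.pairOk_sound k21_22_9_5) (by decide) hn t21_22_9_5_25 _ _ (by decide +kernel)

/-- certificates of the pair `(9, 5)`, part 26 -/
def t21_22_9_5_26 : BlkD.Tr :=
  .E 1

lemma s21_22_9_5_26 {n : ℕ} (hn : 7 ≤ n) : NoNd (d21_22_9_5.R : ℤ) d21_22_9_5.H n d21_22_9_5.a d21_22_9_5.b
    (BlkD.inB (BlkD.upd (fun _ => 0) 2 6)
      (BlkD.upd (fun _ => 22) 0 9)) :=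
  BlkD.tree_sound (BlkD.pairOk_sound k21_22_9_5) (by decide) hn t21_22_9_5_26 _ _ (by decide +kernel)

/-- certificates of the pair `(9, 5)`, part 27 -/
def t21_22_9_5_27 : BlkD.Tr :=
  .E 0

lemma s21_22_9_5_27 {n : ℕ} (hn : 7 ≤ n) : NoNd (d21_22_9_5.R : ℤ) d21_22_9_5.H n d21_22_9_5.a d21_22_9_5.b
    (BlkD.inB (BlkD.upd (fun _ => 0) 0 10)
      (fun _ => 22)) :=
  BlkD.tree_sound (BlkD.pairOk_sound k21_22_9_5) (by decide) hn t21_22_9_5_27 _ _ (by decide +kernel)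

lemma pr21_22_9_5 {n : ℕ} (hn : 7 ≤ n) : NoPr ((21 : ℕ) : ℤ) ((22 : ℕ) : ℤ) n 9 5 :=
  BlkD.of_root (R := d21_22_9_5.R) (H := d21_22_9_5.H) (a := d21_22_9_5.a) (b := d21_22_9_5.b) (q := 5) (by decide) hn
    (BlkD.sp 0 9 (BlkD.sp 2 5 (BlkD.sp 0 4 (BlkD.sp 0 2 (BlkD.sp 0 1 (BlkD.sp 0 0 (s21_22_9_5_1 hn)
      (BlkD.sp 1 11 (BlkD.sp 1 5 (s21_22_9_5_2 hn) (s21_22_9_5_3 hn)) (s21_22_9_5_4 hn))) (BlkD.sp
      1 11 (BlkD.sp 1 5 (s21_22_9_5_5 hn) (s21_22_9_5_6 hn)) (s21_22_9_5_7 hn))) (BlkD.sp 0 3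
      (BlkD.sp 1 11 (BlkD.sp 1 5 (s21_22_9_5_8 hn) (BlkD.sp 1 8 (s21_22_9_5_9 hn) (s21_22_9_5_10
      hn))) (s21_22_9_5_11 hn)) (BlkD.sp 1 11 (BlkD.sp 1 5 (s21_22_9_5_12 hn) (BlkD.sp 1 8
      (s21_22_9_5_13 hn) (BlkD.sp 1 10 (s21_22_9_5_14 hn) (s21_22_9_5_15 hn)))) (s21_22_9_5_16
      hn)))) (BlkD.sp 0 7 (BlkD.sp 0 6 (BlkD.sp 0 5 (BlkD.sp 1 11 (BlkD.sp 1 5 (s21_22_9_5_17 hn)
      (BlkD.sp 1 8 (s21_22_9_5_18 hn) (s21_22_9_5_19 hn))) (s21_22_9_5_20 hn)) (BlkD.sp 1 11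
      (BlkD.sp 1 5 (s21_22_9_5_21 hn) (s21_22_9_5_22 hn)) (s21_22_9_5_23 hn))) (s21_22_9_5_24 hn))
      (s21_22_9_5_25 hn))) (s21_22_9_5_26 hn)) (s21_22_9_5_27 hn))

/-- the numbers of the pair `(10, 0)`, `R = 21`, `H = 22` -/
def d21_22_10_0 : BlkD.Pd :=
  ⟨21, 22, 5, 10, 0, 9, 0, 1, 0, 4, 4, 0, 0, 4, 4, 0, [0, 4, 8, 12, 16, 20, 24, 28, 32, 36], [0, 4,
    8, 12, 16, 20, 24, 28, 32, 36], [⟨1, 1, 1, 4, 8, [0, 4], [0, 4]⟩]⟩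

lemma k21_22_10_0 : BlkD.pairOk d21_22_10_0 = true := by decide +kernel

/-- certificates of the pair `(10, 0)`, part 1 -/
def t21_22_10_0_1 : BlkD.Tr :=
  .L 4 4 [4] [] [] 100000 0 0 1157142 71429 0 71429 0 0 0 0

lemma s21_22_10_0_1 {n : ℕ} (hn : 7 ≤ n) : NoNd (d21_22_10_0.R : ℤ) d21_22_10_0.H n d21_22_10_0.a d21_22_10_0.b
    (BlkD.inB (fun _ => 0)
      (BlkD.upd (BlkD.upd (BlkD.upd (BlkD.upd (fun _ => 22) 0 10) 2 0) 0 5) 0 2)) :=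
  BlkD.tree_sound (BlkD.pairOk_sound k21_22_10_0) (by decide) hn t21_22_10_0_1 _ _ (by decide +kernel)

/-- certificates of the pair `(10, 0)`, part 2 -/
def t21_22_10_0_2 : BlkD.Tr :=
  .L 4 4 [4] [] [] 100000 0 0 1157142 71429 0 71429 0 0 0 0

lemma s21_22_10_0_2 {n : ℕ} (hn : 7 ≤ n) : NoNd (d21_22_10_0.R : ℤ) d21_22_10_0.H n d21_22_10_0.a d21_22_10_0.b
    (BlkD.inB (BlkD.upd (fun _ => 0) 0 3)
      (BlkD.upd (BlkD.upd (BlkD.upd (fun _ => 22) 0 10) 2 0) 0 5)) :=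
  BlkD.tree_sound (BlkD.pairOk_sound k21_22_10_0) (by decide) hn t21_22_10_0_2 _ _ (by decide +kernel)

/-- certificates of the pair `(10, 0)`, part 3 -/
def t21_22_10_0_3 : BlkD.Tr :=
  .L 4 4 [4] [] [] 100000 0 0 1157142 71429 0 71429 0 0 0 0

lemma s21_22_10_0_3 {n : ℕ} (hn : 7 ≤ n) : NoNd (d21_22_10_0.R : ℤ) d21_22_10_0.H n d21_22_10_0.a d21_22_10_0.b
    (BlkD.inB (BlkD.upd (fun _ => 0) 0 6)
      (BlkD.upd (BlkD.upd (fun _ => 22) 0 10) 2 0)) :=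
  BlkD.tree_sound (BlkD.pairOk_sound k21_22_10_0) (by decide) hn t21_22_10_0_3 _ _ (by decide +kernel)

/-- certificates of the pair `(10, 0)`, part 4 -/
def t21_22_10_0_4 : BlkD.Tr :=
  .E 1

lemma s21_22_10_0_4 {n : ℕ} (hn : 7 ≤ n) : NoNd (d21_22_10_0.R : ℤ) d21_22_10_0.H n d21_22_10_0.a d21_22_10_0.b
    (BlkD.inB (BlkD.upd (fun _ => 0) 2 1)
      (BlkD.upd (fun _ => 22) 0 10)) :=
  BlkD.tree_sound (BlkD.pairOk_sound k21_22_10_0) (by decide) hn t21_22_10_0_4 _ _ (by decide +kernel)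

/-- certificates of the pair `(10, 0)`, part 5 -/
def t21_22_10_0_5 : BlkD.Tr :=
  .E 0

lemma s21_22_10_0_5 {n : ℕ} (hn : 7 ≤ n) : NoNd (d21_22_10_0.R : ℤ) d21_22_10_0.H n d21_22_10_0.a d21_22_10_0.b
    (BlkD.inB (BlkD.upd (fun _ => 0) 0 11)
      (fun _ => 22)) :=
  BlkD.tree_sound (BlkD.pairOk_sound k21_22_10_0) (by decide) hn t21_22_10_0_5 _ _ (by decide +kernel)

lemma pr21_22_10_0 {n : ℕ} (hn : 7 ≤ n) : NoPr ((21 : ℕ) : ℤ) ((22 : ℕ) : ℤ) n 10 0 :=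
  BlkD.of_root (R := d21_22_10_0.R) (H := d21_22_10_0.H) (a := d21_22_10_0.a) (b := d21_22_10_0.b) (q := 5) (by decide) hn
    (BlkD.sp 0 10 (BlkD.sp 2 0 (BlkD.sp 0 5 (BlkD.sp 0 2 (s21_22_10_0_1 hn) (s21_22_10_0_2 hn))
      (s21_22_10_0_3 hn)) (s21_22_10_0_4 hn)) (s21_22_10_0_5 hn))

end BlkC

end Pool.Agent.Lib.MP_f04ccf_co
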