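import Pool.Agent.Lib.MP_f04ccf_co.M.BlkT

/-!
MP_f04ccf_co, block certificate, data `R = 21`, `H = 22`, part 17 (generated, helper99:
bd10.cpp, gen2.py).
-/

set_option autoImplicit false
set_option maxRecDepth 100000

namespace Pool.Agent.Lib.MP_f04ccf_co

namespace BlkC

/-- the numbers of the pair `(10, 1)`, `R = 21`, `H = 22` -/
def d21_22_10_1 : BlkD.Pd :=
  ⟨21, 22, 5, 10, 1, 8, 1, 1, 0, 4, 8, 0, 0, 4, 4, 0, [0, 8, 16, 24, 32, 32, 32, 32, 32], [0, 4, 8,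
    12, 16, 20, 24, 28, 32], [⟨1, 1, 1, 4, 8, [0, 4], [0, 4]⟩, ⟨1, 1, 1, 4, 12, [0, 8], [0, 4]⟩]⟩

lemma k21_22_10_1 : BlkD.pairOk d21_22_10_1 = true := by decide +kernel

/-- certificates of the pair `(10, 1)`, part 1 -/
def t21_22_10_1_1 : BlkD.Tr :=
  .S 0 1 (.L 4 6 [4, 4] [] [] 100000 6898 6898 1262070 68966 0 79310 0 0 0 0) (.L 4 6 [4, 4] [] []
    100000 6898 6898 1262070 68966 0 79310 0 0 0 0)

lemma s21_22_10_1_1 {n : ℕ} (hn : 7 ≤ n) : NoNd (d21_22_10_1.R : ℤ) d21_22_10_1.H n d21_22_10_1.a d21_22_10_1.b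
    (BlkD.inB (fun _ => 0)
      (BlkD.upd (BlkD.upd (BlkD.upd (BlkD.upd (fun _ => 22) 0 10) 2 1) 0 5) 0 2)) :=
  BlkD.tree_sound (BlkD.pairOk_sound k21_22_10_1) (by decide) hn t21_22_10_1_1 _ _ (by decide +kernel)

/-- certificates of the pair `(10, 1)`, part 2 -/
def t21_22_10_1_2 : BlkD.Tr :=
  .S 0 3 (.L 4 6 [4, 4] [] [] 100000 6898 6898 1262070 68966 0 79310 0 0 0 0) (.L 4 6 [4, 4] [] []
    100000 6898 6898 1262070 68966 0 79310 0 0 0 0)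

lemma s21_22_10_1_2 {n : ℕ} (hn : 7 ≤ n) : NoNd (d21_22_10_1.R : ℤ) d21_22_10_1.H n d21_22_10_1.a d21_22_10_1.b
    (BlkD.inB (BlkD.upd (fun _ => 0) 0 3)
      (BlkD.upd (BlkD.upd (BlkD.upd (BlkD.upd (fun _ => 22) 0 10) 2 1) 0 5) 0 4)) :=
  BlkD.tree_sound (BlkD.pairOk_sound k21_22_10_1) (by decide) hn t21_22_10_1_2 _ _ (by decide +kernel)

/-- certificates of the pair `(10, 1)`, part 3 -/
def t21_22_10_1_3 : BlkD.Tr :=
  .L 4 6 [4, 4] [] [] 100000 6898 6898 1262070 68966 0 79310 0 0 0 0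

lemma s21_22_10_1_3 {n : ℕ} (hn : 7 ≤ n) : NoNd (d21_22_10_1.R : ℤ) d21_22_10_1.H n d21_22_10_1.a d21_22_10_1.b
    (BlkD.inB (BlkD.upd (BlkD.upd (fun _ => 0) 0 3) 0 5)
      (BlkD.upd (BlkD.upd (BlkD.upd (fun _ => 22) 0 10) 2 1) 0 5)) :=
  BlkD.tree_sound (BlkD.pairOk_sound k21_22_10_1) (by decide) hn t21_22_10_1_3 _ _ (by decide +kernel)

/-- certificates of the pair `(10, 1)`, part 4 -/
def t21_22_10_1_4 : BlkD.Tr :=
  .L 4 6 [4, 4] [] [] 100000 6898 6898 1262070 68966 0 79310 0 0 0 0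

lemma s21_22_10_1_4 {n : ℕ} (hn : 7 ≤ n) : NoNd (d21_22_10_1.R : ℤ) d21_22_10_1.H n d21_22_10_1.a d21_22_10_1.b
    (BlkD.inB (BlkD.upd (fun _ => 0) 0 6)
      (BlkD.upd (BlkD.upd (fun _ => 22) 0 10) 2 1)) :=
  BlkD.tree_sound (BlkD.pairOk_sound k21_22_10_1) (by decide) hn t21_22_10_1_4 _ _ (by decide +kernel)

/-- certificates of the pair `(10, 1)`, part 5 -/
def t21_22_10_1_5 : BlkD.Tr :=
  .E 1

lemma s21_22_10_1_5 {n : ℕ} (hn : 7 ≤ n) : NoNd (d21_22_10_1.R : ℤ) d21_22_10_1.H n d21_22_10_1.a d21_22_10_1.b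
    (BlkD.inB (BlkD.upd (fun _ => 0) 2 2)
      (BlkD.upd (fun _ => 22) 0 10)) :=
  BlkD.tree_sound (BlkD.pairOk_sound k21_22_10_1) (by decide) hn t21_22_10_1_5 _ _ (by decide +kernel)

/-- certificates of the pair `(10, 1)`, part 6 -/
def t21_22_10_1_6 : BlkD.Tr :=
  .E 0

lemma s21_22_10_1_6 {n : ℕ} (hn : 7 ≤ n) : NoNd (d21_22_10_1.R : ℤ) d21_22_10_1.H n d21_22_10_1.a d21_22_10_1.b
    (BlkD.inB (BlkD.upd (fun _ => 0) 0 11)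
      (fun _ => 22)) :=
  BlkD.tree_sound (BlkD.pairOk_sound k21_22_10_1) (by decide) hn t21_22_10_1_6 _ _ (by decide +kernel)

lemma pr21_22_10_1 {n : ℕ} (hn : 7 ≤ n) : NoPr ((21 : ℕ) : ℤ) ((22 : ℕ) : ℤ) n 10 1 :=
  BlkD.of_root (R := d21_22_10_1.R) (H := d21_22_10_1.H) (a := d21_22_10_1.a) (b := d21_22_10_1.b) (q := 5) (by decide) hn
    (BlkD.sp 0 10 (BlkD.sp 2 1 (BlkD.sp 0 5 (BlkD.sp 0 2 (s21_22_10_1_1 hn) (BlkD.sp 0 4
      (s21_22_10_1_2 hn) (s21_22_10_1_3 hn))) (s21_22_10_1_4 hn)) (s21_22_10_1_5 hn))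
      (s21_22_10_1_6 hn))

/-- the numbers of the pair `(10, 2)`, `R = 21`, `H = 22` -/
def d21_22_10_2 : BlkD.Pd :=
  ⟨21, 22, 5, 10, 2, 7, 2, 2, 4, 2, 10, 0, 3, 1, 6, 0, [0, 10, 20, 26, 30, 34, 38, 42], [0, 6, 12,
    16, 19, 22, 25, 28], [⟨1, 1, 1, 4, 8, [0, 4], [0, 4]⟩, ⟨1, 1, 1, 4, 12, [0, 8], [0, 4]⟩, ⟨2, 1,
    1, 4, 20, [0, 10, 14], [0, 6]⟩]⟩

lemma k21_22_10_2 : BlkD.pairOk d21_22_10_2 = true := by decide +kernel

/-- certificates of the pair `(10, 2)`, part 1 -/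
def t21_22_10_2_1 : BlkD.Tr :=
  .L 4 6 [4, 4, 5] [] [] 100000 131818 131818 1227276 72727 0 96970 3030 0 0 0

lemma s21_22_10_2_1 {n : ℕ} (hn : 7 ≤ n) : NoNd (d21_22_10_2.R : ℤ) d21_22_10_2.H n d21_22_10_2.a d21_22_10_2.b
    (BlkD.inB (fun _ => 0)
      (BlkD.upd (BlkD.upd (BlkD.upd (BlkD.upd (BlkD.upd (BlkD.upd (fun _ => 22) 0 10) 2 2) 0 5) 0 2) 0 1) 0 0)) :=
  BlkD.tree_sound (BlkD.pairOk_sound k21_22_10_2) (by decide) hn t21_22_10_2_1 _ _ (by decide +kernel)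

/-- certificates of the pair `(10, 2)`, part 2 -/
def t21_22_10_2_2 : BlkD.Tr :=
  .S 1 11 (.S 1 5 (.L 4 6 [4, 4, 5] [] [] 100000 131818 131818 1227276 72727 0 96970 3030 0 0 0)
    (.L 4 6 [4, 4, 5] [] [] 100000 131818 131818 1227276 72727 0 96970 3030 0 0 0)) (.L 4 6 [4, 4,
    5] [] [] 100000 131818 131818 1227276 72727 0 96970 3030 0 0 0)

lemma s21_22_10_2_2 {n : ℕ} (hn : 7 ≤ n) : NoNd (d21_22_10_2.R : ℤ) d21_22_10_2.H n d21_22_10_2.a d21_22_10_2.b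
    (BlkD.inB (BlkD.upd (fun _ => 0) 0 1)
      (BlkD.upd (BlkD.upd (BlkD.upd (BlkD.upd (BlkD.upd (fun _ => 22) 0 10) 2 2) 0 5) 0 2) 0 1)) :=
  BlkD.tree_sound (BlkD.pairOk_sound k21_22_10_2) (by decide) hn t21_22_10_2_2 _ _ (by decide +kernel)

/-- certificates of the pair `(10, 2)`, part 3 -/
def t21_22_10_2_3 : BlkD.Tr :=
  .S 1 5 (.L 4 6 [4, 4, 5] [] [] 100000 131818 131818 1227276 72727 0 96970 3030 0 0 0) (.L 4 6 [4,
    4, 5] [] [] 100000 131818 131818 1227276 72727 0 96970 3030 0 0 0)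

lemma s21_22_10_2_3 {n : ℕ} (hn : 7 ≤ n) : NoNd (d21_22_10_2.R : ℤ) d21_22_10_2.H n d21_22_10_2.a d21_22_10_2.b
    (BlkD.inB (BlkD.upd (fun _ => 0) 0 2)
      (BlkD.upd (BlkD.upd (BlkD.upd (BlkD.upd (BlkD.upd (fun _ => 22) 0 10) 2 2) 0 5) 0 2) 1 11)) :=
  BlkD.tree_sound (BlkD.pairOk_sound k21_22_10_2) (by decide) hn t21_22_10_2_3 _ _ (by decide +kernel)

/-- certificates of the pair `(10, 2)`, part 4 -/
def t21_22_10_2_4 : BlkD.Tr :=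
  .L 4 6 [4, 4, 5] [] [] 100000 131818 131818 1227276 72727 0 96970 3030 0 0 0

lemma s21_22_10_2_4 {n : ℕ} (hn : 7 ≤ n) : NoNd (d21_22_10_2.R : ℤ) d21_22_10_2.H n d21_22_10_2.a d21_22_10_2.b
    (BlkD.inB (BlkD.upd (BlkD.upd (fun _ => 0) 0 2) 1 12)
      (BlkD.upd (BlkD.upd (BlkD.upd (BlkD.upd (fun _ => 22) 0 10) 2 2) 0 5) 0 2)) :=
  BlkD.tree_sound (BlkD.pairOk_sound k21_22_10_2) (by decide) hn t21_22_10_2_4 _ _ (by decide +kernel)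

/-- certificates of the pair `(10, 2)`, part 5 -/
def t21_22_10_2_5 : BlkD.Tr :=
  .S 1 5 (.L 4 6 [4, 4, 5] [] [] 100000 131818 131818 1227276 72727 0 96970 3030 0 0 0) (.L 4 6 [4,
    4, 5] [] [] 100000 131818 131818 1227276 72727 0 96970 3030 0 0 0)

lemma s21_22_10_2_5 {n : ℕ} (hn : 7 ≤ n) : NoNd (d21_22_10_2.R : ℤ) d21_22_10_2.H n d21_22_10_2.a d21_22_10_2.b
    (BlkD.inB (BlkD.upd (fun _ => 0) 0 3)
      (BlkD.upd (BlkD.upd (BlkD.upd (BlkD.upd (BlkD.upd (BlkD.upd (fun _ => 22) 0 10) 2 2) 0 5) 0 4) 0 3) 1 11)) :=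
  BlkD.tree_sound (BlkD.pairOk_sound k21_22_10_2) (by decide) hn t21_22_10_2_5 _ _ (by decide +kernel)

/-- certificates of the pair `(10, 2)`, part 6 -/
def t21_22_10_2_6 : BlkD.Tr :=
  .L 4 6 [4, 4, 5] [] [] 100000 131818 131818 1227276 72727 0 96970 3030 0 0 0

lemma s21_22_10_2_6 {n : ℕ} (hn : 7 ≤ n) : NoNd (d21_22_10_2.R : ℤ) d21_22_10_2.H n d21_22_10_2.a d21_22_10_2.b
    (BlkD.inB (BlkD.upd (BlkD.upd (fun _ => 0) 0 3) 1 12)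
      (BlkD.upd (BlkD.upd (BlkD.upd (BlkD.upd (BlkD.upd (fun _ => 22) 0 10) 2 2) 0 5) 0 4) 0 3)) :=
  BlkD.tree_sound (BlkD.pairOk_sound k21_22_10_2) (by decide) hn t21_22_10_2_6 _ _ (by decide +kernel)

/-- certificates of the pair `(10, 2)`, part 7 -/
def t21_22_10_2_7 : BlkD.Tr :=
  .S 1 5 (.L 4 6 [4, 4, 5] [] [] 100000 131818 131818 1227276 72727 0 96970 3030 0 0 0) (.L 4 6 [4,
    4, 5] [] [] 100000 131818 131818 1227276 72727 0 96970 3030 0 0 0)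

lemma s21_22_10_2_7 {n : ℕ} (hn : 7 ≤ n) : NoNd (d21_22_10_2.R : ℤ) d21_22_10_2.H n d21_22_10_2.a d21_22_10_2.b
    (BlkD.inB (BlkD.upd (BlkD.upd (fun _ => 0) 0 3) 0 4)
      (BlkD.upd (BlkD.upd (BlkD.upd (BlkD.upd (BlkD.upd (fun _ => 22) 0 10) 2 2) 0 5) 0 4) 1 11)) :=
  BlkD.tree_sound (BlkD.pairOk_sound k21_22_10_2) (by decide) hn t21_22_10_2_7 _ _ (by decide +kernel)

/-- certificates of the pair `(10, 2)`, part 8 -/
def t21_22_10_2_8 : BlkD.Tr :=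
  .L 4 6 [4, 4, 5] [] [] 100000 131818 131818 1227276 72727 0 96970 3030 0 0 0

lemma s21_22_10_2_8 {n : ℕ} (hn : 7 ≤ n) : NoNd (d21_22_10_2.R : ℤ) d21_22_10_2.H n d21_22_10_2.a d21_22_10_2.b
    (BlkD.inB (BlkD.upd (BlkD.upd (BlkD.upd (fun _ => 0) 0 3) 0 4) 1 12)
      (BlkD.upd (BlkD.upd (BlkD.upd (BlkD.upd (fun _ => 22) 0 10) 2 2) 0 5) 0 4)) :=
  BlkD.tree_sound (BlkD.pairOk_sound k21_22_10_2) (by decide) hn t21_22_10_2_8 _ _ (by decide +kernel)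

/-- certificates of the pair `(10, 2)`, part 9 -/
def t21_22_10_2_9 : BlkD.Tr :=
  .S 1 11 (.L 4 6 [4, 4, 5] [] [] 100000 131818 131818 1227276 72727 0 96970 3030 0 0 0) (.L 4 6
    [4, 4, 5] [] [] 100000 131818 131818 1227276 72727 0 96970 3030 0 0 0)

lemma s21_22_10_2_9 {n : ℕ} (hn : 7 ≤ n) : NoNd (d21_22_10_2.R : ℤ) d21_22_10_2.H n d21_22_10_2.a d21_22_10_2.b
    (BlkD.inB (BlkD.upd (BlkD.upd (fun _ => 0) 0 3) 0 5)
      (BlkD.upd (BlkD.upd (BlkD.upd (fun _ => 22) 0 10) 2 2) 0 5)) :=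
  BlkD.tree_sound (BlkD.pairOk_sound k21_22_10_2) (by decide) hn t21_22_10_2_9 _ _ (by decide +kernel)

/-- certificates of the pair `(10, 2)`, part 10 -/
def t21_22_10_2_10 : BlkD.Tr :=
  .S 1 16 (.S 1 8 (.L 5 8 [4, 4, 4] [] [] 100000 16667 16667 1433336 33333 0 33333 33333 0 0 0) (.S
    1 12 (.S 1 10 (.S 1 9 (.L 5 8 [4, 4, 4] [236, 232, 228, 224, 220, 216] [] 100000 38888 38888
    1400004 44444 0 77778 44444 0 22222 33333) (.S 2 1 (.S 2 0 (.L 5 8 [4, 4, 4] [270, 266, 262,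
    258, 254, 250] [] 100000 80000 80000 1300000 60000 0 80000 60000 0 0 0) (.L 4 6 [4, 4, 5] [270,
    266, 262, 258, 254, 250] [] 100000 100001 100001 1266665 66667 0 100000 0 0 33333 0)) (.L 4 6
    [4, 4, 5] [270, 266, 262, 258, 254, 250] [] 100000 450000 350000 0 200000 0 200000 0 0 0 0)))
    (.S 1 11 (.L 4 6 [4, 4, 5] [306, 302, 298, 294, 290, 286] [] 100000 118181 118181 1236366 72727
    0 100000 9091 0 9091 9091) (.L 4 6 [4, 4, 5] [344, 340, 336, 332, 328, 324] [] 100000 100000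
    100000 1200000 75000 0 100000 25000 0 0 0))) (.S 1 14 (.S 1 13 (.L 4 6 [4, 4, 5] [384, 380,
    376, 372, 368, 364] [] 100000 100000 100000 1200000 75000 0 100000 25000 0 0 0) (.L 4 6 [4, 4,
    5] [426, 422, 418, 414, 410, 406] [] 100000 303846 150000 1 176923 0 253846 0 0 0 0)) (.S 1 15
    (.L 4 6 [4, 4, 5] [470, 466, 462, 458, 454, 450] [] 100000 292859 150002 0 171429 0 242857 0 0
    0 0) (.L 4 6 [4, 4, 5] [516, 512, 508, 504, 500, 496] [] 100000 253572 117858 0 157143 0 235714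
    0 0 0 0))))) (.E 0)

lemma s21_22_10_2_10 {n : ℕ} (hn : 7 ≤ n) : NoNd (d21_22_10_2.R : ℤ) d21_22_10_2.H n d21_22_10_2.a d21_22_10_2.b
    (BlkD.inB (BlkD.upd (fun _ => 0) 0 6)
      (BlkD.upd (BlkD.upd (BlkD.upd (BlkD.upd (BlkD.upd (fun _ => 22) 0 10) 2 2) 0 8) 0 7) 0 6)) :=
  BlkD.tree_sound (BlkD.pairOk_sound k21_22_10_2) (by decide) hn t21_22_10_2_10 _ _ (by decide +kernel)

/-- certificates of the pair `(10, 2)`, part 11 -/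
def t21_22_10_2_11 : BlkD.Tr :=
  .S 1 15 (.S 1 7 (.S 1 3 (.L 4 6 [4, 4, 5] [] [] 100000 0 0 1300000 0 0 0 0 0 0 0) (.S 1 5 (.L 4 6
    [4, 4, 5] [] [] 100000 12500 12500 1375000 25000 0 25000 25000 0 0 0) (.S 1 6 (.L 4 6 [4, 4, 5]
    [158, 154, 150, 144, 134, 124] [] 100000 0 0 1450000 25000 0 25000 25000 0 25000 25000) (.L 5 8
    [4, 4, 4] [188, 184, 180, 176, 170, 160] [] 100000 5556 5556 1466669 33333 0 33333 33333 0
    22222 22222)))) (.S 1 11 (.S 1 9 (.S 1 8 (.L 5 8 [4, 4, 4] [220, 216, 212, 208, 204, 198] []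
    100000 36844 36844 1405262 52632 0 68421 26316 0 5263 15789) (.L 5 8 [4, 4, 4] [254, 250, 246,
    242, 238, 234] [] 100000 60000 60000 1340000 60000 0 100000 20000 0 20000 20000)) (.S 1 10 (.L
    5 8 [4, 4, 4] [290, 286, 282, 278, 274, 270] [] 100000 56250 56250 1325000 62500 0 100000 12500
    0 12500 12500) (.L 5 8 [4, 4, 4] [328, 324, 320, 316, 312, 308] [] 100000 71430 71430 1271429
    71429 0 100000 28571 0 14286 0))) (.S 1 13 (.S 1 12 (.L 5 8 [4, 4, 4] [368, 364, 360, 356, 352,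
    348] [] 100000 166666 99999 733334 133333 0 166667 0 0 0 0) (.L 5 8 [4, 4, 4] [410, 406, 402,
    398, 394, 390] [] 100000 265218 91305 0 182609 0 273913 0 0 0 0)) (.S 1 14 (.L 5 8 [4, 4, 4]
    [454, 450, 446, 442, 438, 434] [] 100000 210000 63333 1 173333 0 246667 0 0 0 0) (.L 5 8 [4, 4,
    4] [500, 496, 492, 488, 484, 480] [] 100000 175001 39287 0 157143 0 235714 0 0 0 0))))) (.E 0)

lemma s21_22_10_2_11 {n : ℕ} (hn : 7 ≤ n) : NoNd (d21_22_10_2.R : ℤ) d21_22_10_2.H n d21_22_10_2.a d21_22_10_2.b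
    (BlkD.inB (BlkD.upd (BlkD.upd (fun _ => 0) 0 6) 0 7)
      (BlkD.upd (BlkD.upd (BlkD.upd (BlkD.upd (fun _ => 22) 0 10) 2 2) 0 8) 0 7)) :=
  BlkD.tree_sound (BlkD.pairOk_sound k21_22_10_2) (by decide) hn t21_22_10_2_11 _ _ (by decide +kernel)

/-- certificates of the pair `(10, 2)`, part 12 -/
def t21_22_10_2_12 : BlkD.Tr :=
  .S 1 14 (.S 1 7 (.S 1 3 (.L 5 8 [4, 4, 4] [] [] 100000 0 0 1400000 0 0 0 0 0 0 0) (.S 1 5 (.L 5 8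
    [4, 4, 4] [] [] 100000 0 0 1433335 33333 0 33333 33333 0 33333 33333) (.S 1 6 (.L 5 8 [4, 4, 4]
    [170, 166, 162, 156, 146, 136] [] 100000 13889 13889 1433336 44444 0 66667 22222 0 16667 16667)
    (.L 5 8 [4, 4, 4] [202, 198, 194, 190, 184, 174] [] 100000 25000 25000 1400000 50000 0 100000 0
    0 0 0)))) (.S 1 11 (.S 1 9 (.S 1 8 (.L 5 8 [4, 4, 4] [236, 232, 228, 224, 220, 214] [] 100000
    50000 50000 1340000 60000 0 100000 20000 0 0 0) (.L 5 8 [4, 4, 4] [272, 268, 264, 260, 256,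
    252] [] 100000 25000 25000 1350000 50000 0 100000 50000 0 0 0)) (.L 5 8 [4, 4, 4] [] [] 100000
    0 0 1455556 11111 0 100000 11111 0 11111 11111)) (.L 5 8 [4, 4, 4] [] [] 100000 193335 2 1
    36667 0 293333 0 0 0 0))) (.E 0)

lemma s21_22_10_2_12 {n : ℕ} (hn : 7 ≤ n) : NoNd (d21_22_10_2.R : ℤ) d21_22_10_2.H n d21_22_10_2.a d21_22_10_2.b
    (BlkD.inB (BlkD.upd (BlkD.upd (fun _ => 0) 0 6) 0 8)
      (BlkD.upd (BlkD.upd (BlkD.upd (fun _ => 22) 0 10) 2 2) 0 8)) :=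
  BlkD.tree_sound (BlkD.pairOk_sound k21_22_10_2) (by decide) hn t21_22_10_2_12 _ _ (by decide +kernel)

/-- certificates of the pair `(10, 2)`, part 13 -/
def t21_22_10_2_13 : BlkD.Tr :=
  .S 0 9 (.S 1 13 (.S 1 6 (.L 5 8 [4, 4, 4] [] [] 100000 1 1 1490910 27273 0 63636 27273 0 27273
    27273) (.L 5 8 [4, 4, 4] [] [] 100000 33333 0 1166668 0 0 133333 0 0 0 0)) (.E 0)) (.L 5 8 [4,
    4, 4] [] [] 100000 0 0 1469412 15294 0 57647 5098 10588 10588 10588)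

lemma s21_22_10_2_13 {n : ℕ} (hn : 7 ≤ n) : NoNd (d21_22_10_2.R : ℤ) d21_22_10_2.H n d21_22_10_2.a d21_22_10_2.b
    (BlkD.inB (BlkD.upd (BlkD.upd (fun _ => 0) 0 6) 0 9)
      (BlkD.upd (BlkD.upd (fun _ => 22) 0 10) 2 2)) :=
  BlkD.tree_sound (BlkD.pairOk_sound k21_22_10_2) (by decide) hn t21_22_10_2_13 _ _ (by decide +kernel)

/-- certificates of the pair `(10, 2)`, part 14 -/
def t21_22_10_2_14 : BlkD.Tr :=
  .E 1

lemma s21_22_10_2_14 {n : ℕ} (hn : 7 ≤ n) : NoNd (d21_22_10_2.R : ℤ) d21_22_10_2.H n d21_22_10_2.a d21_22_10_2.b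
    (BlkD.inB (BlkD.upd (fun _ => 0) 2 3)
      (BlkD.upd (fun _ => 22) 0 10)) :=
  BlkD.tree_sound (BlkD.pairOk_sound k21_22_10_2) (by decide) hn t21_22_10_2_14 _ _ (by decide +kernel)

/-- certificates of the pair `(10, 2)`, part 15 -/
def t21_22_10_2_15 : BlkD.Tr :=
  .E 0

lemma s21_22_10_2_15 {n : ℕ} (hn : 7 ≤ n) : NoNd (d21_22_10_2.R : ℤ) d21_22_10_2.H n d21_22_10_2.a d21_22_10_2.b
    (BlkD.inB (BlkD.upd (fun _ => 0) 0 11)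
      (fun _ => 22)) :=
  BlkD.tree_sound (BlkD.pairOk_sound k21_22_10_2) (by decide) hn t21_22_10_2_15 _ _ (by decide +kernel)

lemma pr21_22_10_2 {n : ℕ} (hn : 7 ≤ n) : NoPr ((21 : ℕ) : ℤ) ((22 : ℕ) : ℤ) n 10 2 :=
  BlkD.of_root (R := d21_22_10_2.R) (H := d21_22_10_2.H) (a := d21_22_10_2.a) (b := d21_22_10_2.b) (q := 5) (by decide) hn
    (BlkD.sp 0 10 (BlkD.sp 2 2 (BlkD.sp 0 5 (BlkD.sp 0 2 (BlkD.sp 0 1 (BlkD.sp 0 0 (s21_22_10_2_1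
      hn) (s21_22_10_2_2 hn)) (BlkD.sp 1 11 (s21_22_10_2_3 hn) (s21_22_10_2_4 hn))) (BlkD.sp 0 4
      (BlkD.sp 0 3 (BlkD.sp 1 11 (s21_22_10_2_5 hn) (s21_22_10_2_6 hn)) (BlkD.sp 1 11
      (s21_22_10_2_7 hn) (s21_22_10_2_8 hn))) (s21_22_10_2_9 hn))) (BlkD.sp 0 8 (BlkD.sp 0 7
      (BlkD.sp 0 6 (s21_22_10_2_10 hn) (s21_22_10_2_11 hn)) (s21_22_10_2_12 hn)) (s21_22_10_2_13
      hn))) (s21_22_10_2_14 hn)) (s21_22_10_2_15 hn))

end BlkC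

end Pool.Agent.Lib.MP_f04ccf_co
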