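import Pool.Agent.Lib.MP_f04ccf_co.M.BlkT

/-!
MP_f04ccf_co, block certificate, data `R = 21`, `H = 22`, part 18 (generated, helper99:
bd10.cpp, gen2.py).
-/

set_option autoImplicit false
set_option maxRecDepth 100000

namespace Pool.Agent.Lib.MP_f04ccf_co

namespace BlkC

/-- the numbers of the pair `(10, 3)`, `R = 21`, `H = 22` -/
def d21_22_10_3 : BlkD.Pd :=
  ⟨21, 22, 5, 10, 3, 6, 1, 2, 0, 4, 8, 0, 2, 2, 6, 0, [0, 8, 16, 24, 24, 24, 24], [0, 6, 12, 18,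
    20, 22, 24], [⟨1, 1, 1, 4, 8, [0, 4], [0, 4]⟩, ⟨1, 1, 1, 4, 14, [0, 8], [0, 6]⟩]⟩

lemma k21_22_10_3 : BlkD.pairOk d21_22_10_3 = true := by decide +kernel

/-- certificates of the pair `(10, 3)`, part 1 -/
def t21_22_10_3_1 : BlkD.Tr :=
  .S 0 0 (.L 4 6 [4, 4, 21, 21] [] [] 100000 0 0 1500002 63636 18182 81818 36364 0 0 0) (.S 1 11
    (.S 1 5 (.L 4 6 [4, 4, 21, 21] [] [] 100000 0 0 1500002 63636 18182 81818 36364 0 0 0) (.L 4 6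
    [4, 4, 21, 21] [] [] 100000 0 0 1500002 63636 18182 81818 36364 0 0 0)) (.L 4 6 [4, 4, 21, 21]
    [] [] 100000 0 0 1500002 63636 18182 81818 36364 0 0 0))

lemma s21_22_10_3_1 {n : ℕ} (hn : 7 ≤ n) : NoNd (d21_22_10_3.R : ℤ) d21_22_10_3.H n d21_22_10_3.a d21_22_10_3.b
    (BlkD.inB (fun _ => 0)
      (BlkD.upd (BlkD.upd (BlkD.upd (BlkD.upd (BlkD.upd (fun _ => 22) 0 10) 2 3) 0 5) 0 2) 0 1)) :=
  BlkD.tree_sound (BlkD.pairOk_sound k21_22_10_3) (by decide) hn t21_22_10_3_1 _ _ (by decide +kernel)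

/-- certificates of the pair `(10, 3)`, part 2 -/
def t21_22_10_3_2 : BlkD.Tr :=
  .S 1 11 (.S 1 5 (.L 4 6 [4, 4, 21, 21] [] [] 100000 0 0 1500002 63636 18182 81818 36364 0 0 0)
    (.L 4 6 [4, 4, 21, 21] [] [] 100000 0 0 1500002 63636 18182 81818 36364 0 0 0)) (.L 4 6 [4, 4,
    21, 21] [] [] 100000 0 0 1500002 63636 18182 81818 36364 0 0 0)

lemma s21_22_10_3_2 {n : ℕ} (hn : 7 ≤ n) : NoNd (d21_22_10_3.R : ℤ) d21_22_10_3.H n d21_22_10_3.a d21_22_10_3.b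
    (BlkD.inB (BlkD.upd (fun _ => 0) 0 2)
      (BlkD.upd (BlkD.upd (BlkD.upd (BlkD.upd (fun _ => 22) 0 10) 2 3) 0 5) 0 2)) :=
  BlkD.tree_sound (BlkD.pairOk_sound k21_22_10_3) (by decide) hn t21_22_10_3_2 _ _ (by decide +kernel)

/-- certificates of the pair `(10, 3)`, part 3 -/
def t21_22_10_3_3 : BlkD.Tr :=
  .S 1 5 (.L 4 6 [4, 4, 21, 21] [] [] 100000 0 0 1500002 63636 18182 81818 36364 0 0 0) (.L 4 6 [4,
    4, 21, 21] [] [] 100000 0 0 1500002 63636 18182 81818 36364 0 0 0)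

lemma s21_22_10_3_3 {n : ℕ} (hn : 7 ≤ n) : NoNd (d21_22_10_3.R : ℤ) d21_22_10_3.H n d21_22_10_3.a d21_22_10_3.b
    (BlkD.inB (BlkD.upd (fun _ => 0) 0 3)
      (BlkD.upd (BlkD.upd (BlkD.upd (BlkD.upd (BlkD.upd (BlkD.upd (fun _ => 22) 0 10) 2 3) 0 5) 0 4) 0 3) 1 11)) :=
  BlkD.tree_sound (BlkD.pairOk_sound k21_22_10_3) (by decide) hn t21_22_10_3_3 _ _ (by decide +kernel)

/-- certificates of the pair `(10, 3)`, part 4 -/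
def t21_22_10_3_4 : BlkD.Tr :=
  .L 4 6 [4, 4, 21, 21] [] [] 100000 0 0 1500002 63636 18182 81818 36364 0 0 0

lemma s21_22_10_3_4 {n : ℕ} (hn : 7 ≤ n) : NoNd (d21_22_10_3.R : ℤ) d21_22_10_3.H n d21_22_10_3.a d21_22_10_3.b
    (BlkD.inB (BlkD.upd (BlkD.upd (fun _ => 0) 0 3) 1 12)
      (BlkD.upd (BlkD.upd (BlkD.upd (BlkD.upd (BlkD.upd (fun _ => 22) 0 10) 2 3) 0 5) 0 4) 0 3)) :=
  BlkD.tree_sound (BlkD.pairOk_sound k21_22_10_3) (by decide) hn t21_22_10_3_4 _ _ (by decide +kernel)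

/-- certificates of the pair `(10, 3)`, part 5 -/
def t21_22_10_3_5 : BlkD.Tr :=
  .S 1 5 (.L 4 6 [4, 4, 21, 21] [] [] 100000 0 0 1500002 63636 18182 81818 36364 0 0 0) (.L 4 6 [4,
    4, 21, 21] [] [] 100000 0 0 1500002 63636 18182 81818 36364 0 0 0)

lemma s21_22_10_3_5 {n : ℕ} (hn : 7 ≤ n) : NoNd (d21_22_10_3.R : ℤ) d21_22_10_3.H n d21_22_10_3.a d21_22_10_3.b
    (BlkD.inB (BlkD.upd (BlkD.upd (fun _ => 0) 0 3) 0 4)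
      (BlkD.upd (BlkD.upd (BlkD.upd (BlkD.upd (BlkD.upd (fun _ => 22) 0 10) 2 3) 0 5) 0 4) 1 11)) :=
  BlkD.tree_sound (BlkD.pairOk_sound k21_22_10_3) (by decide) hn t21_22_10_3_5 _ _ (by decide +kernel)

/-- certificates of the pair `(10, 3)`, part 6 -/
def t21_22_10_3_6 : BlkD.Tr :=
  .L 4 6 [4, 4, 21, 21] [] [] 100000 0 0 1500002 63636 18182 81818 36364 0 0 0

lemma s21_22_10_3_6 {n : ℕ} (hn : 7 ≤ n) : NoNd (d21_22_10_3.R : ℤ) d21_22_10_3.H n d21_22_10_3.a d21_22_10_3.b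
    (BlkD.inB (BlkD.upd (BlkD.upd (BlkD.upd (fun _ => 0) 0 3) 0 4) 1 12)
      (BlkD.upd (BlkD.upd (BlkD.upd (BlkD.upd (fun _ => 22) 0 10) 2 3) 0 5) 0 4)) :=
  BlkD.tree_sound (BlkD.pairOk_sound k21_22_10_3) (by decide) hn t21_22_10_3_6 _ _ (by decide +kernel)

/-- certificates of the pair `(10, 3)`, part 7 -/
def t21_22_10_3_7 : BlkD.Tr :=
  .S 1 5 (.L 4 6 [4, 4, 21, 21] [] [] 100000 0 0 1500002 63636 18182 81818 36364 0 0 0) (.L 4 6 [4,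
    4, 21, 21] [] [] 100000 0 0 1500002 63636 18182 81818 36364 0 0 0)

lemma s21_22_10_3_7 {n : ℕ} (hn : 7 ≤ n) : NoNd (d21_22_10_3.R : ℤ) d21_22_10_3.H n d21_22_10_3.a d21_22_10_3.b
    (BlkD.inB (BlkD.upd (BlkD.upd (fun _ => 0) 0 3) 0 5)
      (BlkD.upd (BlkD.upd (BlkD.upd (BlkD.upd (fun _ => 22) 0 10) 2 3) 0 5) 1 11)) :=
  BlkD.tree_sound (BlkD.pairOk_sound k21_22_10_3) (by decide) hn t21_22_10_3_7 _ _ (by decide +kernel)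

/-- certificates of the pair `(10, 3)`, part 8 -/
def t21_22_10_3_8 : BlkD.Tr :=
  .L 4 6 [4, 4, 21, 21] [] [] 100000 0 0 1500002 63636 18182 81818 36364 0 0 0

lemma s21_22_10_3_8 {n : ℕ} (hn : 7 ≤ n) : NoNd (d21_22_10_3.R : ℤ) d21_22_10_3.H n d21_22_10_3.a d21_22_10_3.b
    (BlkD.inB (BlkD.upd (BlkD.upd (BlkD.upd (fun _ => 0) 0 3) 0 5) 1 12)
      (BlkD.upd (BlkD.upd (BlkD.upd (fun _ => 22) 0 10) 2 3) 0 5)) :=
  BlkD.tree_sound (BlkD.pairOk_sound k21_22_10_3) (by decide) hn t21_22_10_3_8 _ _ (by decide +kernel)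

/-- certificates of the pair `(10, 3)`, part 9 -/
def t21_22_10_3_9 : BlkD.Tr :=
  .S 1 5 (.L 4 6 [4, 4, 21, 21] [] [] 100000 0 0 1500002 63636 18182 81818 36364 0 0 0) (.L 4 6 [4,
    4, 21, 21] [] [] 100000 0 0 1500002 63636 18182 81818 36364 0 0 0)

lemma s21_22_10_3_9 {n : ℕ} (hn : 7 ≤ n) : NoNd (d21_22_10_3.R : ℤ) d21_22_10_3.H n d21_22_10_3.a d21_22_10_3.b
    (BlkD.inB (BlkD.upd (fun _ => 0) 0 6)
      (BlkD.upd (BlkD.upd (BlkD.upd (BlkD.upd (BlkD.upd (BlkD.upd (fun _ => 22) 0 10) 2 3) 0 8) 0 7) 0 6) 1 11)) :=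
  BlkD.tree_sound (BlkD.pairOk_sound k21_22_10_3) (by decide) hn t21_22_10_3_9 _ _ (by decide +kernel)

/-- certificates of the pair `(10, 3)`, part 10 -/
def t21_22_10_3_10 : BlkD.Tr :=
  .L 4 6 [4, 4, 21, 21] [] [] 100000 0 0 1500002 63636 18182 81818 36364 0 0 0

lemma s21_22_10_3_10 {n : ℕ} (hn : 7 ≤ n) : NoNd (d21_22_10_3.R : ℤ) d21_22_10_3.H n d21_22_10_3.a d21_22_10_3.b
    (BlkD.inB (BlkD.upd (BlkD.upd (fun _ => 0) 0 6) 1 12)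
      (BlkD.upd (BlkD.upd (BlkD.upd (BlkD.upd (BlkD.upd (fun _ => 22) 0 10) 2 3) 0 8) 0 7) 0 6)) :=
  BlkD.tree_sound (BlkD.pairOk_sound k21_22_10_3) (by decide) hn t21_22_10_3_10 _ _ (by decide +kernel)

/-- certificates of the pair `(10, 3)`, part 11 -/
def t21_22_10_3_11 : BlkD.Tr :=
  .L 4 6 [4, 4, 21, 21] [] [] 100000 0 0 1500002 63636 18182 81818 36364 0 0 0

lemma s21_22_10_3_11 {n : ℕ} (hn : 7 ≤ n) : NoNd (d21_22_10_3.R : ℤ) d21_22_10_3.H n d21_22_10_3.a d21_22_10_3.b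
    (BlkD.inB (BlkD.upd (BlkD.upd (fun _ => 0) 0 6) 0 7)
      (BlkD.upd (BlkD.upd (BlkD.upd (BlkD.upd (fun _ => 22) 0 10) 2 3) 0 8) 0 7)) :=
  BlkD.tree_sound (BlkD.pairOk_sound k21_22_10_3) (by decide) hn t21_22_10_3_11 _ _ (by decide +kernel)

/-- certificates of the pair `(10, 3)`, part 12 -/
def t21_22_10_3_12 : BlkD.Tr :=
  .L 4 6 [4, 4, 21, 21] [] [] 100000 0 0 1500002 63636 18182 81818 36364 0 0 0

lemma s21_22_10_3_12 {n : ℕ} (hn : 7 ≤ n) : NoNd (d21_22_10_3.R : ℤ) d21_22_10_3.H n d21_22_10_3.a d21_22_10_3.b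
    (BlkD.inB (BlkD.upd (BlkD.upd (fun _ => 0) 0 6) 0 8)
      (BlkD.upd (BlkD.upd (BlkD.upd (fun _ => 22) 0 10) 2 3) 0 8)) :=
  BlkD.tree_sound (BlkD.pairOk_sound k21_22_10_3) (by decide) hn t21_22_10_3_12 _ _ (by decide +kernel)

/-- certificates of the pair `(10, 3)`, part 13 -/
def t21_22_10_3_13 : BlkD.Tr :=
  .L 4 6 [4, 4, 21, 21] [] [] 100000 0 0 1500002 63636 18182 81818 36364 0 0 0

lemma s21_22_10_3_13 {n : ℕ} (hn : 7 ≤ n) : NoNd (d21_22_10_3.R : ℤ) d21_22_10_3.H n d21_22_10_3.a d21_22_10_3.b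
    (BlkD.inB (BlkD.upd (BlkD.upd (fun _ => 0) 0 6) 0 9)
      (BlkD.upd (BlkD.upd (fun _ => 22) 0 10) 2 3)) :=
  BlkD.tree_sound (BlkD.pairOk_sound k21_22_10_3) (by decide) hn t21_22_10_3_13 _ _ (by decide +kernel)

/-- certificates of the pair `(10, 3)`, part 14 -/
def t21_22_10_3_14 : BlkD.Tr :=
  .E 1

lemma s21_22_10_3_14 {n : ℕ} (hn : 7 ≤ n) : NoNd (d21_22_10_3.R : ℤ) d21_22_10_3.H n d21_22_10_3.a d21_22_10_3.b
    (BlkD.inB (BlkD.upd (fun _ => 0) 2 4)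
      (BlkD.upd (fun _ => 22) 0 10)) :=
  BlkD.tree_sound (BlkD.pairOk_sound k21_22_10_3) (by decide) hn t21_22_10_3_14 _ _ (by decide +kernel)

/-- certificates of the pair `(10, 3)`, part 15 -/
def t21_22_10_3_15 : BlkD.Tr :=
  .E 0

lemma s21_22_10_3_15 {n : ℕ} (hn : 7 ≤ n) : NoNd (d21_22_10_3.R : ℤ) d21_22_10_3.H n d21_22_10_3.a d21_22_10_3.b
    (BlkD.inB (BlkD.upd (fun _ => 0) 0 11)
      (fun _ => 22)) :=
  BlkD.tree_sound (BlkD.pairOk_sound k21_22_10_3) (by decide) hn t21_22_10_3_15 _ _ (by decide +kernel)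

lemma pr21_22_10_3 {n : ℕ} (hn : 7 ≤ n) : NoPr ((21 : ℕ) : ℤ) ((22 : ℕ) : ℤ) n 10 3 :=
  BlkD.of_root (R := d21_22_10_3.R) (H := d21_22_10_3.H) (a := d21_22_10_3.a) (b := d21_22_10_3.b) (q := 5) (by decide) hn
    (BlkD.sp 0 10 (BlkD.sp 2 3 (BlkD.sp 0 5 (BlkD.sp 0 2 (BlkD.sp 0 1 (s21_22_10_3_1 hn)
      (s21_22_10_3_2 hn)) (BlkD.sp 0 4 (BlkD.sp 0 3 (BlkD.sp 1 11 (s21_22_10_3_3 hn) (s21_22_10_3_4
      hn)) (BlkD.sp 1 11 (s21_22_10_3_5 hn) (s21_22_10_3_6 hn))) (BlkD.sp 1 11 (s21_22_10_3_7 hn)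
      (s21_22_10_3_8 hn)))) (BlkD.sp 0 8 (BlkD.sp 0 7 (BlkD.sp 0 6 (BlkD.sp 1 11 (s21_22_10_3_9 hn)
      (s21_22_10_3_10 hn)) (s21_22_10_3_11 hn)) (s21_22_10_3_12 hn)) (s21_22_10_3_13 hn)))
      (s21_22_10_3_14 hn)) (s21_22_10_3_15 hn))

end BlkC

end Pool.Agent.Lib.MP_f04ccf_co
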