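import Pool.Agent.Lib.MP_f04ccf_co.M.BlkT

/-!
MP_f04ccf_co, block certificate, data `R = 21`, `H = 22`, part 2 (generated, helper99:
bd10.cpp, gen2.py).
-/

set_option autoImplicit false
set_option maxRecDepth 100000

namespace Pool.Agent.Lib.MP_f04ccf_co

namespace BlkC

/-- the numbers of the pair `(5, 5)`, `R = 21`, `H = 22` -/
def d21_22_5_5 : BlkD.Pd :=
  ⟨21, 22, 5, 5, 5, 9, 4, 2, 2, 2, 10, 0, 2, 2, 10, 0, [0, 10, 20, 24, 26, 28, 30, 32, 34, 36], [0,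
    10, 20, 24, 26, 28, 30, 32, 34, 36], [⟨1, 1, 1, 4, 8, [0, 4], [0, 4]⟩, ⟨1, 1, 1, 6, 12, [0, 6],
    [0, 6]⟩, ⟨1, 1, 1, 6, 16, [0, 8], [0, 8]⟩, ⟨1, 1, 1, 6, 20, [0, 10], [0, 10]⟩, ⟨2, 2, 1, 4, 28,
    [0, 10, 14], [0, 10, 14]⟩]⟩

lemma k21_22_5_5 : BlkD.pairOk d21_22_5_5 = true := by decide +kernel

/-- certificates of the pair `(5, 5)`, part 1 -/
def t21_22_5_5_1 : BlkD.Tr :=
  .L 6 6 [4, 4, 5, 5, 5, 21] [] [] 100000 56482 56482 1005559 73611 0 82407 47222 3704 0 16667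

lemma s21_22_5_5_1 {n : ℕ} (hn : 7 ≤ n) : NoNd (d21_22_5_5.R : ℤ) d21_22_5_5.H n d21_22_5_5.a d21_22_5_5.b
    (BlkD.inB (fun _ => 0)
      (BlkD.upd (BlkD.upd (BlkD.upd (BlkD.upd (BlkD.upd (fun _ => 22) 0 5) 2 5) 0 2) 0 1) 0 0)) :=
  BlkD.tree_sound (BlkD.pairOk_sound k21_22_5_5) (by decide) hn t21_22_5_5_1 _ _ (by decide +kernel)

/-- certificates of the pair `(5, 5)`, part 2 -/
def t21_22_5_5_2 : BlkD.Tr :=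
  .L 6 6 [4, 4, 5, 5, 5, 21] [] [] 100000 56482 56482 1005559 73611 0 82407 47222 3704 0 16667

lemma s21_22_5_5_2 {n : ℕ} (hn : 7 ≤ n) : NoNd (d21_22_5_5.R : ℤ) d21_22_5_5.H n d21_22_5_5.a d21_22_5_5.b
    (BlkD.inB (BlkD.upd (fun _ => 0) 0 1)
      (BlkD.upd (BlkD.upd (BlkD.upd (BlkD.upd (BlkD.upd (BlkD.upd (BlkD.upd (fun _ => 22) 0 5) 2 5) 0 2) 0 1) 1 11) 1 5) 1 2)) :=
  BlkD.tree_sound (BlkD.pairOk_sound k21_22_5_5) (by decide) hn t21_22_5_5_2 _ _ (by decide +kernel)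

/-- certificates of the pair `(5, 5)`, part 3 -/
def t21_22_5_5_3 : BlkD.Tr :=
  .L 6 6 [4, 4, 5, 5, 5, 21] [] [] 100000 56482 56482 1005559 73611 0 82407 47222 3704 0 16667

lemma s21_22_5_5_3 {n : ℕ} (hn : 7 ≤ n) : NoNd (d21_22_5_5.R : ℤ) d21_22_5_5.H n d21_22_5_5.a d21_22_5_5.b
    (BlkD.inB (BlkD.upd (BlkD.upd (fun _ => 0) 0 1) 1 3)
      (BlkD.upd (BlkD.upd (BlkD.upd (BlkD.upd (BlkD.upd (BlkD.upd (fun _ => 22) 0 5) 2 5) 0 2) 0 1) 1 11) 1 5)) :=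
  BlkD.tree_sound (BlkD.pairOk_sound k21_22_5_5) (by decide) hn t21_22_5_5_3 _ _ (by decide +kernel)

/-- certificates of the pair `(5, 5)`, part 4 -/
def t21_22_5_5_4 : BlkD.Tr :=
  .L 6 6 [4, 4, 5, 5, 5, 21] [] [] 100000 56482 56482 1005559 73611 0 82407 47222 3704 0 16667

lemma s21_22_5_5_4 {n : ℕ} (hn : 7 ≤ n) : NoNd (d21_22_5_5.R : ℤ) d21_22_5_5.H n d21_22_5_5.a d21_22_5_5.b
    (BlkD.inB (BlkD.upd (BlkD.upd (fun _ => 0) 0 1) 1 6)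
      (BlkD.upd (BlkD.upd (BlkD.upd (BlkD.upd (BlkD.upd (fun _ => 22) 0 5) 2 5) 0 2) 0 1) 1 11)) :=
  BlkD.tree_sound (BlkD.pairOk_sound k21_22_5_5) (by decide) hn t21_22_5_5_4 _ _ (by decide +kernel)

/-- certificates of the pair `(5, 5)`, part 5 -/
def t21_22_5_5_5 : BlkD.Tr :=
  .L 6 6 [4, 4, 5, 5, 5, 21] [] [] 100000 56482 56482 1005559 73611 0 82407 47222 3704 0 16667

lemma s21_22_5_5_5 {n : ℕ} (hn : 7 ≤ n) : NoNd (d21_22_5_5.R : ℤ) d21_22_5_5.H n d21_22_5_5.a d21_22_5_5.b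
    (BlkD.inB (BlkD.upd (BlkD.upd (fun _ => 0) 0 1) 1 12)
      (BlkD.upd (BlkD.upd (BlkD.upd (BlkD.upd (fun _ => 22) 0 5) 2 5) 0 2) 0 1)) :=
  BlkD.tree_sound (BlkD.pairOk_sound k21_22_5_5) (by decide) hn t21_22_5_5_5 _ _ (by decide +kernel)

/-- certificates of the pair `(5, 5)`, part 6 -/
def t21_22_5_5_6 : BlkD.Tr :=
  .L 6 6 [4, 4, 5, 5, 5, 21] [] [] 100000 25000 25000 1100000 12000 2000 12000 72000 0 6000 22000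

lemma s21_22_5_5_6 {n : ℕ} (hn : 7 ≤ n) : NoNd (d21_22_5_5.R : ℤ) d21_22_5_5.H n d21_22_5_5.a d21_22_5_5.b
    (BlkD.inB (BlkD.upd (fun _ => 0) 0 2)
      (BlkD.upd (BlkD.upd (BlkD.upd (BlkD.upd (BlkD.upd (BlkD.upd (BlkD.upd (fun _ => 22) 0 5) 2 5) 0 2) 1 20) 1 10) 1 5) 1 2)) :=
  BlkD.tree_sound (BlkD.pairOk_sound k21_22_5_5) (by decide) hn t21_22_5_5_6 _ _ (by decide +kernel)

/-- certificates of the pair `(5, 5)`, part 7 -/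
def t21_22_5_5_7 : BlkD.Tr :=
  .S 1 4 (.S 1 3 (.L 6 6 [4, 4, 5, 5, 5, 21] [50, 40, 30, 18, 0, 0] [] 100000 20123 20123 1197561
    12195 0 46341 65854 9756 12195 17886) (.S 2 2 (.L 6 6 [4, 4, 5, 5, 5, 21] [66, 60, 50, 40, 28,
    0] [] 100000 23424 23424 1203155 13835 13835 41506 50000 13072 10518 14466) (.L 6 6 [4, 4, 5,
    5, 5, 21] [66, 60, 50, 40, 28, 0] [] 100000 18104 18104 1217241 20690 0 58621 41379 13793 17241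
    20690))) (.S 2 2 (.L 6 6 [4, 4, 5, 5, 5, 21] [82, 78, 72, 62, 52, 40] [] 100000 25676 25676
    1190093 13964 18018 45946 45345 32132 10661 6156) (.L 6 6 [4, 4, 5, 5, 5, 21] [82, 78, 72, 62,
    52, 40] [] 100000 18382 18382 1215144 22197 0 51676 44393 22197 15260 14798))

lemma s21_22_5_5_7 {n : ℕ} (hn : 7 ≤ n) : NoNd (d21_22_5_5.R : ℤ) d21_22_5_5.H n d21_22_5_5.a d21_22_5_5.b
    (BlkD.inB (BlkD.upd (BlkD.upd (fun _ => 0) 0 2) 1 3)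
      (BlkD.upd (BlkD.upd (BlkD.upd (BlkD.upd (BlkD.upd (BlkD.upd (fun _ => 22) 0 5) 2 5) 0 2) 1 20) 1 10) 1 5)) :=
  BlkD.tree_sound (BlkD.pairOk_sound k21_22_5_5) (by decide) hn t21_22_5_5_7 _ _ (by decide +kernel)

/-- certificates of the pair `(5, 5)`, part 8 -/
def t21_22_5_5_8 : BlkD.Tr :=
  .L 6 6 [4, 4, 5, 5, 5, 21] [] [] 100000 20834 20834 1200003 0 0 100000 33333 33333 16667 16667

lemma s21_22_5_5_8 {n : ℕ} (hn : 7 ≤ n) : NoNd (d21_22_5_5.R : ℤ) d21_22_5_5.H n d21_22_5_5.a d21_22_5_5.b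
    (BlkD.inB (BlkD.upd (BlkD.upd (fun _ => 0) 0 2) 1 6)
      (BlkD.upd (BlkD.upd (BlkD.upd (BlkD.upd (BlkD.upd (fun _ => 22) 0 5) 2 5) 0 2) 1 20) 1 10)) :=
  BlkD.tree_sound (BlkD.pairOk_sound k21_22_5_5) (by decide) hn t21_22_5_5_8 _ _ (by decide +kernel)

/-- certificates of the pair `(5, 5)`, part 9 -/
def t21_22_5_5_9 : BlkD.Tr :=
  .E 0

lemma s21_22_5_5_9 {n : ℕ} (hn : 7 ≤ n) : NoNd (d21_22_5_5.R : ℤ) d21_22_5_5.H n d21_22_5_5.a d21_22_5_5.b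
    (BlkD.inB (BlkD.upd (BlkD.upd (fun _ => 0) 0 2) 1 11)
      (BlkD.upd (BlkD.upd (BlkD.upd (BlkD.upd (fun _ => 22) 0 5) 2 5) 0 2) 1 20)) :=
  BlkD.tree_sound (BlkD.pairOk_sound k21_22_5_5) (by decide) hn t21_22_5_5_9 _ _ (by decide +kernel)

/-- certificates of the pair `(5, 5)`, part 10 -/
def t21_22_5_5_10 : BlkD.Tr :=
  .E 0

lemma s21_22_5_5_10 {n : ℕ} (hn : 7 ≤ n) : NoNd (d21_22_5_5.R : ℤ) d21_22_5_5.H n d21_22_5_5.a d21_22_5_5.b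
    (BlkD.inB (BlkD.upd (BlkD.upd (fun _ => 0) 0 2) 1 21)
      (BlkD.upd (BlkD.upd (BlkD.upd (fun _ => 22) 0 5) 2 5) 0 2)) :=
  BlkD.tree_sound (BlkD.pairOk_sound k21_22_5_5) (by decide) hn t21_22_5_5_10 _ _ (by decide +kernel)

/-- certificates of the pair `(5, 5)`, part 11 -/
def t21_22_5_5_11 : BlkD.Tr :=
  .L 6 6 [4, 4, 5, 5, 5, 21] [] [] 100000 20350 20350 1196172 16297 3282 55486 61389 9300 19695
    14825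

lemma s21_22_5_5_11 {n : ℕ} (hn : 7 ≤ n) : NoNd (d21_22_5_5.R : ℤ) d21_22_5_5.H n d21_22_5_5.a d21_22_5_5.b
    (BlkD.inB (BlkD.upd (fun _ => 0) 0 3)
      (BlkD.upd (BlkD.upd (BlkD.upd (BlkD.upd (BlkD.upd (BlkD.upd (BlkD.upd (BlkD.upd (fun _ => 22) 0 5) 2 5) 0 4) 0 3) 1 19) 1 9) 1 4) 1 2)) :=
  BlkD.tree_sound (BlkD.pairOk_sound k21_22_5_5) (by decide) hn t21_22_5_5_11 _ _ (by decide +kernel)

/-- certificates of the pair `(5, 5)`, part 12 -/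
def t21_22_5_5_12 : BlkD.Tr :=
  .S 1 3 (.S 2 2 (.L 6 6 [4, 4, 5, 5, 5, 21] [56, 46, 36, 24, 0, 0] [] 100000 17990 17990 1218717
    11052 9626 53892 47831 14023 14260 18954) (.L 6 6 [4, 4, 5, 5, 5, 21] [56, 46, 36, 24, 0, 0] []
    100000 17498 17498 1200003 17095 0 65810 52513 18803 15004 16251)) (.S 2 2 (.L 6 6 [4, 4, 5, 5,
    5, 21] [74, 68, 58, 48, 36, 0] [] 100000 18824 18824 1218747 8116 18937 43284 40579 27488 12353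
    15588) (.S 2 4 (.S 2 3 (.S 3 12 (.S 3 6 (.S 3 3 (.L 6 6 [4, 4, 5, 5, 5, 21] [74, 68, 58, 48,
    36, 0] [] 100000 20098 20098 1188236 0 23856 55882 64052 38235 9804 16667) (.L 6 6 [4, 4, 5, 5,
    5, 21] [74, 68, 58, 48, 36, 0] [] 100000 4168 4168 1272222 16667 0 27778 50000 72222 55556
    27778)) (.E 1)) (.E 1)) (.L 6 6 [4, 4, 5, 5, 5, 21] [74, 68, 58, 48, 36, 0] [] 100000 3572 3572
    1235715 14286 0 35714 42857 64286 57143 28571)) (.L 6 6 [4, 4, 5, 5, 5, 21] [74, 68, 58, 48,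
    36, 0] [] 100000 4546 4546 1222727 18182 0 31818 45455 68182 54545 27273)))

lemma s21_22_5_5_12 {n : ℕ} (hn : 7 ≤ n) : NoNd (d21_22_5_5.R : ℤ) d21_22_5_5.H n d21_22_5_5.a d21_22_5_5.b
    (BlkD.inB (BlkD.upd (BlkD.upd (fun _ => 0) 0 3) 1 3)
      (BlkD.upd (BlkD.upd (BlkD.upd (BlkD.upd (BlkD.upd (BlkD.upd (BlkD.upd (fun _ => 22) 0 5) 2 5) 0 4) 0 3) 1 19) 1 9) 1 4)) :=
  BlkD.tree_sound (BlkD.pairOk_sound k21_22_5_5) (by decide) hn t21_22_5_5_12 _ _ (by decide +kernel)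

/-- certificates of the pair `(5, 5)`, part 13 -/
def t21_22_5_5_13 : BlkD.Tr :=
  .L 6 6 [4, 4, 5, 5, 5, 21] [] [] 100000 28646 28646 1100000 0 0 100000 50000 29167 6250 14583

lemma s21_22_5_5_13 {n : ℕ} (hn : 7 ≤ n) : NoNd (d21_22_5_5.R : ℤ) d21_22_5_5.H n d21_22_5_5.a d21_22_5_5.b
    (BlkD.inB (BlkD.upd (BlkD.upd (fun _ => 0) 0 3) 1 5)
      (BlkD.upd (BlkD.upd (BlkD.upd (BlkD.upd (BlkD.upd (BlkD.upd (fun _ => 22) 0 5) 2 5) 0 4) 0 3) 1 19) 1 9)) :=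
  BlkD.tree_sound (BlkD.pairOk_sound k21_22_5_5) (by decide) hn t21_22_5_5_13 _ _ (by decide +kernel)

/-- certificates of the pair `(5, 5)`, part 14 -/
def t21_22_5_5_14 : BlkD.Tr :=
  .E 0

lemma s21_22_5_5_14 {n : ℕ} (hn : 7 ≤ n) : NoNd (d21_22_5_5.R : ℤ) d21_22_5_5.H n d21_22_5_5.a d21_22_5_5.b
    (BlkD.inB (BlkD.upd (BlkD.upd (fun _ => 0) 0 3) 1 10)
      (BlkD.upd (BlkD.upd (BlkD.upd (BlkD.upd (BlkD.upd (fun _ => 22) 0 5) 2 5) 0 4) 0 3) 1 19)) :=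
  BlkD.tree_sound (BlkD.pairOk_sound k21_22_5_5) (by decide) hn t21_22_5_5_14 _ _ (by decide +kernel)

/-- certificates of the pair `(5, 5)`, part 15 -/
def t21_22_5_5_15 : BlkD.Tr :=
  .E 0

lemma s21_22_5_5_15 {n : ℕ} (hn : 7 ≤ n) : NoNd (d21_22_5_5.R : ℤ) d21_22_5_5.H n d21_22_5_5.a d21_22_5_5.b
    (BlkD.inB (BlkD.upd (BlkD.upd (fun _ => 0) 0 3) 1 20)
      (BlkD.upd (BlkD.upd (BlkD.upd (BlkD.upd (fun _ => 22) 0 5) 2 5) 0 4) 0 3)) :=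
  BlkD.tree_sound (BlkD.pairOk_sound k21_22_5_5) (by decide) hn t21_22_5_5_15 _ _ (by decide +kernel)

/-- certificates of the pair `(5, 5)`, part 16 -/
def t21_22_5_5_16 : BlkD.Tr :=
  .S 1 18 (.S 1 9 (.S 1 4 (.S 1 2 (.L 6 6 [4, 4, 5, 5, 5, 21] [] [] 100000 18353 18353 1218499
    39306 578 79191 40462 40462 13295 20520) (.S 1 3 (.S 2 2 (.L 6 6 [4, 4, 5, 5, 5, 21] [62, 52,
    42, 30, 0, 0] [] 100000 18751 18751 1197918 13542 18750 39583 45833 33333 12500 15625) (.L 6 6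
    [4, 4, 5, 5, 5, 21] [62, 52, 42, 30, 0, 0] [] 100000 18804 18804 1210661 27757 867 49566 59851
    38042 12392 19950)) (.E 0))) (.E 0)) (.E 0)) (.E 0)

lemma s21_22_5_5_16 {n : ℕ} (hn : 7 ≤ n) : NoNd (d21_22_5_5.R : ℤ) d21_22_5_5.H n d21_22_5_5.a d21_22_5_5.b
    (BlkD.inB (BlkD.upd (BlkD.upd (fun _ => 0) 0 3) 0 4)
      (BlkD.upd (BlkD.upd (BlkD.upd (fun _ => 22) 0 5) 2 5) 0 4)) :=
  BlkD.tree_sound (BlkD.pairOk_sound k21_22_5_5) (by decide) hn t21_22_5_5_16 _ _ (by decide +kernel)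

/-- certificates of the pair `(5, 5)`, part 17 -/
def t21_22_5_5_17 : BlkD.Tr :=
  .S 1 17 (.S 1 8 (.S 1 4 (.S 1 2 (.S 1 1 (.L 6 6 [4, 4, 5, 5, 5, 21] [] [] 100000 14474 14474
    1209871 30921 9868 40789 49342 59211 22368 19737) (.L 6 6 [4, 4, 5, 5, 5, 21] [44, 34, 22, 0,
    0, 0] [] 100000 20834 20834 1200003 0 0 100000 33333 4167 16667 16667)) (.E 0)) (.E 0)) (.E 0))
    (.E 0)

lemma s21_22_5_5_17 {n : ℕ} (hn : 7 ≤ n) : NoNd (d21_22_5_5.R : ℤ) d21_22_5_5.H n d21_22_5_5.a d21_22_5_5.b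
    (BlkD.inB (BlkD.upd (BlkD.upd (fun _ => 0) 0 3) 0 5)
      (BlkD.upd (BlkD.upd (fun _ => 22) 0 5) 2 5)) :=
  BlkD.tree_sound (BlkD.pairOk_sound k21_22_5_5) (by decide) hn t21_22_5_5_17 _ _ (by decide +kernel)

/-- certificates of the pair `(5, 5)`, part 18 -/
def t21_22_5_5_18 : BlkD.Tr :=
  .E 1

lemma s21_22_5_5_18 {n : ℕ} (hn : 7 ≤ n) : NoNd (d21_22_5_5.R : ℤ) d21_22_5_5.H n d21_22_5_5.a d21_22_5_5.b
    (BlkD.inB (BlkD.upd (fun _ => 0) 2 6)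
      (BlkD.upd (fun _ => 22) 0 5)) :=
  BlkD.tree_sound (BlkD.pairOk_sound k21_22_5_5) (by decide) hn t21_22_5_5_18 _ _ (by decide +kernel)

/-- certificates of the pair `(5, 5)`, part 19 -/
def t21_22_5_5_19 : BlkD.Tr :=
  .E 0

lemma s21_22_5_5_19 {n : ℕ} (hn : 7 ≤ n) : NoNd (d21_22_5_5.R : ℤ) d21_22_5_5.H n d21_22_5_5.a d21_22_5_5.b
    (BlkD.inB (BlkD.upd (fun _ => 0) 0 6)
      (fun _ => 22)) :=
  BlkD.tree_sound (BlkD.pairOk_sound k21_22_5_5) (by decide) hn t21_22_5_5_19 _ _ (by decide +kernel)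

lemma pr21_22_5_5 {n : ℕ} (hn : 7 ≤ n) : NoPr ((21 : ℕ) : ℤ) ((22 : ℕ) : ℤ) n 5 5 :=
  BlkD.of_root (R := d21_22_5_5.R) (H := d21_22_5_5.H) (a := d21_22_5_5.a) (b := d21_22_5_5.b) (q := 5) (by decide) hn
    (BlkD.sp 0 5 (BlkD.sp 2 5 (BlkD.sp 0 2 (BlkD.sp 0 1 (BlkD.sp 0 0 (s21_22_5_5_1 hn) (BlkD.sp 1
      11 (BlkD.sp 1 5 (BlkD.sp 1 2 (s21_22_5_5_2 hn) (s21_22_5_5_3 hn)) (s21_22_5_5_4 hn))
      (s21_22_5_5_5 hn))) (BlkD.sp 1 20 (BlkD.sp 1 10 (BlkD.sp 1 5 (BlkD.sp 1 2 (s21_22_5_5_6 hn)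
      (s21_22_5_5_7 hn)) (s21_22_5_5_8 hn)) (s21_22_5_5_9 hn)) (s21_22_5_5_10 hn))) (BlkD.sp 0 4
      (BlkD.sp 0 3 (BlkD.sp 1 19 (BlkD.sp 1 9 (BlkD.sp 1 4 (BlkD.sp 1 2 (s21_22_5_5_11 hn)
      (s21_22_5_5_12 hn)) (s21_22_5_5_13 hn)) (s21_22_5_5_14 hn)) (s21_22_5_5_15 hn))
      (s21_22_5_5_16 hn)) (s21_22_5_5_17 hn))) (s21_22_5_5_18 hn)) (s21_22_5_5_19 hn))

/-- the numbers of the pair `(6, 0)`, `R = 21`, `H = 22` -/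
def d21_22_6_0 : BlkD.Pd :=
  ⟨21, 22, 5, 6, 0, 13, 0, 1, 0, 4, 4, 0, 0, 4, 4, 0, [0, 4, 8, 12, 16, 20, 24, 28, 32, 36, 40, 44,
    48, 52], [0, 4, 8, 12, 16, 20, 24, 28, 32, 36, 40, 44, 48, 52], [⟨1, 1, 1, 4, 8, [0, 4], [0,
    4]⟩]⟩

/-- the certificates of the pair `(6, 0)` -/
def t21_22_6_0 : BlkD.Tr :=
  .S 0 6 (.S 2 0 (.L 4 4 [4] [] [] 100000 0 0 716668 33333 0 50000 50000 0 0 0) (.E 1)) (.E 0)

lemma pr21_22_6_0 {n : ℕ} (hn : 7 ≤ n) : NoPr ((21 : ℕ) : ℤ) ((22 : ℕ) : ℤ) n 6 0 :=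
  BlkD.pair_sound (d := d21_22_6_0) (by decide +kernel) hn (by decide) (tr := t21_22_6_0)
    (by decide +kernel) rfl rfl rfl rfl

/-- the numbers of the pair `(6, 1)`, `R = 21`, `H = 22` -/
def d21_22_6_1 : BlkD.Pd :=
  ⟨21, 22, 5, 6, 1, 12, 1, 1, 2, 2, 6, 0, 0, 4, 4, 0, [0, 6, 12, 18, 24, 30, 36, 38, 40, 42, 44,
    46, 48], [0, 4, 8, 12, 16, 20, 24, 28, 32, 36, 40, 44, 48], [⟨1, 1, 1, 4, 8, [0, 4], [0, 4]⟩,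
    ⟨1, 1, 1, 4, 10, [0, 6], [0, 4]⟩]⟩

lemma k21_22_6_1 : BlkD.pairOk d21_22_6_1 = true := by decide +kernel

/-- certificates of the pair `(6, 1)`, part 1 -/
def t21_22_6_1_1 : BlkD.Tr :=
  .S 0 1 (.L 4 5 [4, 4] [] [] 100000 0 0 850000 50000 0 50000 0 0 0 0) (.L 4 5 [4, 4] [] [] 100000
    0 0 850000 50000 0 50000 0 0 0 0)

lemma s21_22_6_1_1 {n : ℕ} (hn : 7 ≤ n) : NoNd (d21_22_6_1.R : ℤ) d21_22_6_1.H n d21_22_6_1.a d21_22_6_1.b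
    (BlkD.inB (fun _ => 0)
      (BlkD.upd (BlkD.upd (BlkD.upd (fun _ => 22) 0 6) 2 1) 0 3)) :=
  BlkD.tree_sound (BlkD.pairOk_sound k21_22_6_1) (by decide) hn t21_22_6_1_1 _ _ (by decide +kernel)

/-- certificates of the pair `(6, 1)`, part 2 -/
def t21_22_6_1_2 : BlkD.Tr :=
  .L 4 5 [4, 4] [] [] 100000 0 0 850000 50000 0 50000 0 0 0 0

lemma s21_22_6_1_2 {n : ℕ} (hn : 7 ≤ n) : NoNd (d21_22_6_1.R : ℤ) d21_22_6_1.H n d21_22_6_1.a d21_22_6_1.b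
    (BlkD.inB (BlkD.upd (fun _ => 0) 0 4)
      (BlkD.upd (BlkD.upd (fun _ => 22) 0 6) 2 1)) :=
  BlkD.tree_sound (BlkD.pairOk_sound k21_22_6_1) (by decide) hn t21_22_6_1_2 _ _ (by decide +kernel)

/-- certificates of the pair `(6, 1)`, part 3 -/
def t21_22_6_1_3 : BlkD.Tr :=
  .E 1

lemma s21_22_6_1_3 {n : ℕ} (hn : 7 ≤ n) : NoNd (d21_22_6_1.R : ℤ) d21_22_6_1.H n d21_22_6_1.a d21_22_6_1.b
    (BlkD.inB (BlkD.upd (fun _ => 0) 2 2)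
      (BlkD.upd (fun _ => 22) 0 6)) :=
  BlkD.tree_sound (BlkD.pairOk_sound k21_22_6_1) (by decide) hn t21_22_6_1_3 _ _ (by decide +kernel)

/-- certificates of the pair `(6, 1)`, part 4 -/
def t21_22_6_1_4 : BlkD.Tr :=
  .E 0

lemma s21_22_6_1_4 {n : ℕ} (hn : 7 ≤ n) : NoNd (d21_22_6_1.R : ℤ) d21_22_6_1.H n d21_22_6_1.a d21_22_6_1.b
    (BlkD.inB (BlkD.upd (fun _ => 0) 0 7)
      (fun _ => 22)) :=
  BlkD.tree_sound (BlkD.pairOk_sound k21_22_6_1) (by decide) hn t21_22_6_1_4 _ _ (by decide +kernel)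

lemma pr21_22_6_1 {n : ℕ} (hn : 7 ≤ n) : NoPr ((21 : ℕ) : ℤ) ((22 : ℕ) : ℤ) n 6 1 :=
  BlkD.of_root (R := d21_22_6_1.R) (H := d21_22_6_1.H) (a := d21_22_6_1.a) (b := d21_22_6_1.b) (q := 5) (by decide) hn
    (BlkD.sp 0 6 (BlkD.sp 2 1 (BlkD.sp 0 3 (s21_22_6_1_1 hn) (s21_22_6_1_2 hn)) (s21_22_6_1_3 hn))
      (s21_22_6_1_4 hn))

/-- the numbers of the pair `(6, 2)`, `R = 21`, `H = 22` -/
def d21_22_6_2 : BlkD.Pd :=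
  ⟨21, 22, 5, 6, 2, 11, 2, 1, 2, 2, 8, 0, 0, 4, 6, 0, [0, 8, 16, 24, 30, 32, 34, 36, 38, 40, 42,
    44], [0, 6, 12, 18, 24, 30, 36, 42, 44, 44, 44, 44], [⟨1, 1, 1, 4, 8, [0, 4], [0, 4]⟩, ⟨1, 1,
    1, 4, 10, [0, 6], [0, 4]⟩, ⟨1, 1, 1, 6, 14, [0, 8], [0, 6]⟩]⟩

lemma k21_22_6_2 : BlkD.pairOk d21_22_6_2 = true := by decide +kernel

/-- certificates of the pair `(6, 2)`, part 1 -/
def t21_22_6_2_1 : BlkD.Tr :=
  .L 4 5 [4, 4, 5] [] [] 100000 0 0 1001017 24747 0 51515 12374 15152 33333 33333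

lemma s21_22_6_2_1 {n : ℕ} (hn : 7 ≤ n) : NoNd (d21_22_6_2.R : ℤ) d21_22_6_2.H n d21_22_6_2.a d21_22_6_2.b
    (BlkD.inB (fun _ => 0)
      (BlkD.upd (BlkD.upd (BlkD.upd (BlkD.upd (fun _ => 22) 0 6) 2 2) 0 3) 0 1)) :=
  BlkD.tree_sound (BlkD.pairOk_sound k21_22_6_2) (by decide) hn t21_22_6_2_1 _ _ (by decide +kernel)

/-- certificates of the pair `(6, 2)`, part 2 -/
def t21_22_6_2_2 : BlkD.Tr :=
  .L 4 5 [4, 4, 5] [] [] 100000 0 0 1001017 24747 0 51515 12374 15152 33333 33333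

lemma s21_22_6_2_2 {n : ℕ} (hn : 7 ≤ n) : NoNd (d21_22_6_2.R : ℤ) d21_22_6_2.H n d21_22_6_2.a d21_22_6_2.b
    (BlkD.inB (BlkD.upd (fun _ => 0) 0 2)
      (BlkD.upd (BlkD.upd (BlkD.upd (fun _ => 22) 0 6) 2 2) 0 3)) :=
  BlkD.tree_sound (BlkD.pairOk_sound k21_22_6_2) (by decide) hn t21_22_6_2_2 _ _ (by decide +kernel)

/-- certificates of the pair `(6, 2)`, part 3 -/
def t21_22_6_2_3 : BlkD.Tr :=
  .L 4 5 [4, 4, 5] [] [] 100000 0 0 1001017 24747 0 51515 12374 15152 33333 33333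

lemma s21_22_6_2_3 {n : ℕ} (hn : 7 ≤ n) : NoNd (d21_22_6_2.R : ℤ) d21_22_6_2.H n d21_22_6_2.a d21_22_6_2.b
    (BlkD.inB (BlkD.upd (fun _ => 0) 0 4)
      (BlkD.upd (BlkD.upd (fun _ => 22) 0 6) 2 2)) :=
  BlkD.tree_sound (BlkD.pairOk_sound k21_22_6_2) (by decide) hn t21_22_6_2_3 _ _ (by decide +kernel)

/-- certificates of the pair `(6, 2)`, part 4 -/
def t21_22_6_2_4 : BlkD.Tr :=
  .E 1

lemma s21_22_6_2_4 {n : ℕ} (hn : 7 ≤ n) : NoNd (d21_22_6_2.R : ℤ) d21_22_6_2.H n d21_22_6_2.a d21_22_6_2.b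
    (BlkD.inB (BlkD.upd (fun _ => 0) 2 3)
      (BlkD.upd (fun _ => 22) 0 6)) :=
  BlkD.tree_sound (BlkD.pairOk_sound k21_22_6_2) (by decide) hn t21_22_6_2_4 _ _ (by decide +kernel)

/-- certificates of the pair `(6, 2)`, part 5 -/
def t21_22_6_2_5 : BlkD.Tr :=
  .E 0

lemma s21_22_6_2_5 {n : ℕ} (hn : 7 ≤ n) : NoNd (d21_22_6_2.R : ℤ) d21_22_6_2.H n d21_22_6_2.a d21_22_6_2.b
    (BlkD.inB (BlkD.upd (fun _ => 0) 0 7)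
      (fun _ => 22)) :=
  BlkD.tree_sound (BlkD.pairOk_sound k21_22_6_2) (by decide) hn t21_22_6_2_5 _ _ (by decide +kernel)

lemma pr21_22_6_2 {n : ℕ} (hn : 7 ≤ n) : NoPr ((21 : ℕ) : ℤ) ((22 : ℕ) : ℤ) n 6 2 :=
  BlkD.of_root (R := d21_22_6_2.R) (H := d21_22_6_2.H) (a := d21_22_6_2.a) (b := d21_22_6_2.b) (q := 5) (by decide) hn
    (BlkD.sp 0 6 (BlkD.sp 2 2 (BlkD.sp 0 3 (BlkD.sp 0 1 (s21_22_6_2_1 hn) (s21_22_6_2_2 hn))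
      (s21_22_6_2_3 hn)) (s21_22_6_2_4 hn)) (s21_22_6_2_5 hn))

/-- the numbers of the pair `(6, 3)`, `R = 21`, `H = 22` -/
def d21_22_6_3 : BlkD.Pd :=
  ⟨21, 22, 5, 6, 3, 10, 3, 2, 3, 2, 10, 0, 4, 1, 8, 0, [0, 10, 20, 29, 32, 35, 38, 41, 44, 47, 50],
    [0, 8, 16, 22, 26, 30, 34, 38, 42, 46, 50], [⟨1, 1, 1, 4, 8, [0, 4], [0, 4]⟩, ⟨1, 1, 1, 6, 12,
    [0, 6], [0, 6]⟩, ⟨1, 1, 1, 6, 14, [0, 8], [0, 6]⟩, ⟨2, 1, 1, 6, 22, [0, 10, 14], [0, 8]⟩]⟩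

lemma k21_22_6_3 : BlkD.pairOk d21_22_6_3 = true := by decide +kernel

/-- certificates of the pair `(6, 3)`, part 1 -/
def t21_22_6_3_1 : BlkD.Tr :=
  .L 5 6 [4, 4, 5, 5] [] [] 100000 83245 83244 600003 100000 0 100000 33333 0 3704 23280

lemma s21_22_6_3_1 {n : ℕ} (hn : 7 ≤ n) : NoNd (d21_22_6_3.R : ℤ) d21_22_6_3.H n d21_22_6_3.a d21_22_6_3.b
    (BlkD.inB (fun _ => 0)
      (BlkD.upd (BlkD.upd (BlkD.upd (BlkD.upd (BlkD.upd (fun _ => 22) 0 6) 2 3) 0 3) 0 1) 0 0)) :=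
  BlkD.tree_sound (BlkD.pairOk_sound k21_22_6_3) (by decide) hn t21_22_6_3_1 _ _ (by decide +kernel)

/-- certificates of the pair `(6, 3)`, part 2 -/
def t21_22_6_3_2 : BlkD.Tr :=
  .L 5 6 [4, 4, 5, 5] [] [] 100000 83245 83244 600003 100000 0 100000 33333 0 3704 23280

lemma s21_22_6_3_2 {n : ℕ} (hn : 7 ≤ n) : NoNd (d21_22_6_3.R : ℤ) d21_22_6_3.H n d21_22_6_3.a d21_22_6_3.b
    (BlkD.inB (BlkD.upd (fun _ => 0) 0 1)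
      (BlkD.upd (BlkD.upd (BlkD.upd (BlkD.upd (BlkD.upd (BlkD.upd (fun _ => 22) 0 6) 2 3) 0 3) 0 1) 1 11) 1 5)) :=
  BlkD.tree_sound (BlkD.pairOk_sound k21_22_6_3) (by decide) hn t21_22_6_3_2 _ _ (by decide +kernel)

/-- certificates of the pair `(6, 3)`, part 3 -/
def t21_22_6_3_3 : BlkD.Tr :=
  .L 5 6 [4, 4, 5, 5] [] [] 100000 83245 83244 600003 100000 0 100000 33333 0 3704 23280

lemma s21_22_6_3_3 {n : ℕ} (hn : 7 ≤ n) : NoNd (d21_22_6_3.R : ℤ) d21_22_6_3.H n d21_22_6_3.a d21_22_6_3.b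
    (BlkD.inB (BlkD.upd (BlkD.upd (fun _ => 0) 0 1) 1 6)
      (BlkD.upd (BlkD.upd (BlkD.upd (BlkD.upd (BlkD.upd (fun _ => 22) 0 6) 2 3) 0 3) 0 1) 1 11)) :=
  BlkD.tree_sound (BlkD.pairOk_sound k21_22_6_3) (by decide) hn t21_22_6_3_3 _ _ (by decide +kernel)

/-- certificates of the pair `(6, 3)`, part 4 -/
def t21_22_6_3_4 : BlkD.Tr :=
  .L 5 6 [4, 4, 5, 5] [] [] 100000 83245 83244 600003 100000 0 100000 33333 0 3704 23280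

lemma s21_22_6_3_4 {n : ℕ} (hn : 7 ≤ n) : NoNd (d21_22_6_3.R : ℤ) d21_22_6_3.H n d21_22_6_3.a d21_22_6_3.b
    (BlkD.inB (BlkD.upd (BlkD.upd (fun _ => 0) 0 1) 1 12)
      (BlkD.upd (BlkD.upd (BlkD.upd (BlkD.upd (fun _ => 22) 0 6) 2 3) 0 3) 0 1)) :=
  BlkD.tree_sound (BlkD.pairOk_sound k21_22_6_3) (by decide) hn t21_22_6_3_4 _ _ (by decide +kernel)

/-- certificates of the pair `(6, 3)`, part 5 -/
def t21_22_6_3_5 : BlkD.Tr :=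
  .L 5 6 [4, 4, 5, 5] [] [] 100000 24093 24093 1038712 29032 0 58065 34635 4948 17827 21077

lemma s21_22_6_3_5 {n : ℕ} (hn : 7 ≤ n) : NoNd (d21_22_6_3.R : ℤ) d21_22_6_3.H n d21_22_6_3.a d21_22_6_3.b
    (BlkD.inB (BlkD.upd (fun _ => 0) 0 2)
      (BlkD.upd (BlkD.upd (BlkD.upd (BlkD.upd (BlkD.upd (BlkD.upd (fun _ => 22) 0 6) 2 3) 0 3) 0 2) 1 11) 1 5)) :=
  BlkD.tree_sound (BlkD.pairOk_sound k21_22_6_3) (by decide) hn t21_22_6_3_5 _ _ (by decide +kernel)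

/-- certificates of the pair `(6, 3)`, part 6 -/
def t21_22_6_3_6 : BlkD.Tr :=
  .L 5 6 [4, 4, 5, 5] [] [] 100000 24093 24093 1038712 29032 0 58065 34635 4948 17827 21077

lemma s21_22_6_3_6 {n : ℕ} (hn : 7 ≤ n) : NoNd (d21_22_6_3.R : ℤ) d21_22_6_3.H n d21_22_6_3.a d21_22_6_3.b
    (BlkD.inB (BlkD.upd (BlkD.upd (fun _ => 0) 0 2) 1 6)
      (BlkD.upd (BlkD.upd (BlkD.upd (BlkD.upd (BlkD.upd (fun _ => 22) 0 6) 2 3) 0 3) 0 2) 1 11)) :=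
  BlkD.tree_sound (BlkD.pairOk_sound k21_22_6_3) (by decide) hn t21_22_6_3_6 _ _ (by decide +kernel)

/-- certificates of the pair `(6, 3)`, part 7 -/
def t21_22_6_3_7 : BlkD.Tr :=
  .L 5 6 [4, 4, 5, 5] [] [] 100000 24093 24093 1038712 29032 0 58065 34635 4948 17827 21077

lemma s21_22_6_3_7 {n : ℕ} (hn : 7 ≤ n) : NoNd (d21_22_6_3.R : ℤ) d21_22_6_3.H n d21_22_6_3.a d21_22_6_3.b
    (BlkD.inB (BlkD.upd (BlkD.upd (fun _ => 0) 0 2) 1 12)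
      (BlkD.upd (BlkD.upd (BlkD.upd (BlkD.upd (fun _ => 22) 0 6) 2 3) 0 3) 0 2)) :=
  BlkD.tree_sound (BlkD.pairOk_sound k21_22_6_3) (by decide) hn t21_22_6_3_7 _ _ (by decide +kernel)

/-- certificates of the pair `(6, 3)`, part 8 -/
def t21_22_6_3_8 : BlkD.Tr :=
  .S 1 19 (.S 1 9 (.S 1 4 (.L 5 6 [4, 4, 5, 5] [] [] 100000 24662 24661 991262 36247 0 64499 36247
    3625 18763 15938) (.S 1 7 (.S 1 6 (.L 5 6 [4, 4, 5, 5] [] [] 100000 19880 19880 1089321 22136 0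
    66877 33333 9651 21059 20801) (.L 5 6 [4, 4, 5, 5] [133, 130, 127, 123, 114, 104] [] 100000
    32364 5273 802727 16000 0 127091 42000 0 14000 16000)) (.E 0))) (.E 0)) (.E 0)

lemma s21_22_6_3_8 {n : ℕ} (hn : 7 ≤ n) : NoNd (d21_22_6_3.R : ℤ) d21_22_6_3.H n d21_22_6_3.a d21_22_6_3.b
    (BlkD.inB (BlkD.upd (BlkD.upd (fun _ => 0) 0 2) 0 3)
      (BlkD.upd (BlkD.upd (BlkD.upd (fun _ => 22) 0 6) 2 3) 0 3)) :=
  BlkD.tree_sound (BlkD.pairOk_sound k21_22_6_3) (by decide) hn t21_22_6_3_8 _ _ (by decide +kernel)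

/-- certificates of the pair `(6, 3)`, part 9 -/
def t21_22_6_3_9 : BlkD.Tr :=
  .S 0 5 (.S 0 4 (.S 1 18 (.S 1 9 (.S 1 4 (.L 5 6 [4, 4, 5, 5] [] [] 100000 15707 15706 1093833
    26542 0 79627 33333 14120 24638 20290) (.L 5 6 [4, 4, 5, 5] [] [] 100000 19112 19112 1004441
    2794 0 96657 46657 22904 16417 19561)) (.E 0)) (.E 0)) (.L 5 6 [4, 4, 5, 5] [] [] 100000 12034
    12034 1116972 0 0 83032 52708 16968 29964 23466)) (.L 5 6 [4, 4, 5, 5] [] [] 100000 1 1 1100001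
    0 0 50000 33333 66667 0 33333)

lemma s21_22_6_3_9 {n : ℕ} (hn : 7 ≤ n) : NoNd (d21_22_6_3.R : ℤ) d21_22_6_3.H n d21_22_6_3.a d21_22_6_3.b
    (BlkD.inB (BlkD.upd (fun _ => 0) 0 4)
      (BlkD.upd (BlkD.upd (fun _ => 22) 0 6) 2 3)) :=
  BlkD.tree_sound (BlkD.pairOk_sound k21_22_6_3) (by decide) hn t21_22_6_3_9 _ _ (by decide +kernel)

/-- certificates of the pair `(6, 3)`, part 10 -/
def t21_22_6_3_10 : BlkD.Tr :=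
  .E 1

lemma s21_22_6_3_10 {n : ℕ} (hn : 7 ≤ n) : NoNd (d21_22_6_3.R : ℤ) d21_22_6_3.H n d21_22_6_3.a d21_22_6_3.b
    (BlkD.inB (BlkD.upd (fun _ => 0) 2 4)
      (BlkD.upd (fun _ => 22) 0 6)) :=
  BlkD.tree_sound (BlkD.pairOk_sound k21_22_6_3) (by decide) hn t21_22_6_3_10 _ _ (by decide +kernel)

/-- certificates of the pair `(6, 3)`, part 11 -/
def t21_22_6_3_11 : BlkD.Tr :=
  .E 0

lemma s21_22_6_3_11 {n : ℕ} (hn : 7 ≤ n) : NoNd (d21_22_6_3.R : ℤ) d21_22_6_3.H n d21_22_6_3.a d21_22_6_3.b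
    (BlkD.inB (BlkD.upd (fun _ => 0) 0 7)
      (fun _ => 22)) :=
  BlkD.tree_sound (BlkD.pairOk_sound k21_22_6_3) (by decide) hn t21_22_6_3_11 _ _ (by decide +kernel)

lemma pr21_22_6_3 {n : ℕ} (hn : 7 ≤ n) : NoPr ((21 : ℕ) : ℤ) ((22 : ℕ) : ℤ) n 6 3 :=
  BlkD.of_root (R := d21_22_6_3.R) (H := d21_22_6_3.H) (a := d21_22_6_3.a) (b := d21_22_6_3.b) (q := 5) (by decide) hn
    (BlkD.sp 0 6 (BlkD.sp 2 3 (BlkD.sp 0 3 (BlkD.sp 0 1 (BlkD.sp 0 0 (s21_22_6_3_1 hn) (BlkD.sp 1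
      11 (BlkD.sp 1 5 (s21_22_6_3_2 hn) (s21_22_6_3_3 hn)) (s21_22_6_3_4 hn))) (BlkD.sp 0 2
      (BlkD.sp 1 11 (BlkD.sp 1 5 (s21_22_6_3_5 hn) (s21_22_6_3_6 hn)) (s21_22_6_3_7 hn))
      (s21_22_6_3_8 hn))) (s21_22_6_3_9 hn)) (s21_22_6_3_10 hn)) (s21_22_6_3_11 hn))

end BlkC

end Pool.Agent.Lib.MP_f04ccf_co
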