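import Pool.Agent.Lib.MP_f04ccf_co.M.BlkT

/-!
MP_f04ccf_co, block certificate, data `R = 21`, `H = 22`, part 20 (generated, helper99:
bd10.cpp, gen2.py).
-/

set_option autoImplicit false
set_option maxRecDepth 100000

namespace Pool.Agent.Lib.MP_f04ccf_co

namespace BlkC

/-- the numbers of the pair `(11, 2)`, `R = 21`, `H = 22` -/
def d21_22_11_2 : BlkD.Pd :=
  ⟨21, 22, 5, 11, 2, 6, 1, 2, 0, 4, 8, 0, 0, 4, 4, 0, [0, 8, 16, 24, 24, 24, 24], [0, 4, 8, 12, 16,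
    20, 24], [⟨1, 1, 1, 4, 8, [0, 4], [0, 4]⟩, ⟨1, 1, 1, 4, 12, [0, 8], [0, 4]⟩]⟩

lemma k21_22_11_2 : BlkD.pairOk d21_22_11_2 = true := by decide +kernel

/-- certificates of the pair `(11, 2)`, part 1 -/
def t21_22_11_2_1 : BlkD.Tr :=
  .L 4 6 [4, 4, 21] [] [] 100000 1 1 1500000 66667 0 100000 0 0 0 0

lemma s21_22_11_2_1 {n : ℕ} (hn : 7 ≤ n) : NoNd (d21_22_11_2.R : ℤ) d21_22_11_2.H n d21_22_11_2.a d21_22_11_2.b
    (BlkD.inB (fun _ => 0)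
      (BlkD.upd (BlkD.upd (BlkD.upd (BlkD.upd (BlkD.upd (fun _ => 22) 0 11) 2 2) 0 5) 0 2) 0 1)) :=
  BlkD.tree_sound (BlkD.pairOk_sound k21_22_11_2) (by decide) hn t21_22_11_2_1 _ _ (by decide +kernel)

/-- certificates of the pair `(11, 2)`, part 2 -/
def t21_22_11_2_2 : BlkD.Tr :=
  .L 4 6 [4, 4, 21] [] [] 100000 1 1 1500000 66667 0 100000 0 0 0 0

lemma s21_22_11_2_2 {n : ℕ} (hn : 7 ≤ n) : NoNd (d21_22_11_2.R : ℤ) d21_22_11_2.H n d21_22_11_2.a d21_22_11_2.b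
    (BlkD.inB (BlkD.upd (fun _ => 0) 0 2)
      (BlkD.upd (BlkD.upd (BlkD.upd (BlkD.upd (fun _ => 22) 0 11) 2 2) 0 5) 0 2)) :=
  BlkD.tree_sound (BlkD.pairOk_sound k21_22_11_2) (by decide) hn t21_22_11_2_2 _ _ (by decide +kernel)

/-- certificates of the pair `(11, 2)`, part 3 -/
def t21_22_11_2_3 : BlkD.Tr :=
  .L 4 6 [4, 4, 21] [] [] 100000 1 1 1500000 66667 0 100000 0 0 0 0

lemma s21_22_11_2_3 {n : ℕ} (hn : 7 ≤ n) : NoNd (d21_22_11_2.R : ℤ) d21_22_11_2.H n d21_22_11_2.a d21_22_11_2.b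
    (BlkD.inB (BlkD.upd (fun _ => 0) 0 3)
      (BlkD.upd (BlkD.upd (BlkD.upd (BlkD.upd (BlkD.upd (fun _ => 22) 0 11) 2 2) 0 5) 0 4) 0 3)) :=
  BlkD.tree_sound (BlkD.pairOk_sound k21_22_11_2) (by decide) hn t21_22_11_2_3 _ _ (by decide +kernel)

/-- certificates of the pair `(11, 2)`, part 4 -/
def t21_22_11_2_4 : BlkD.Tr :=
  .L 4 6 [4, 4, 21] [] [] 100000 1 1 1500000 66667 0 100000 0 0 0 0

lemma s21_22_11_2_4 {n : ℕ} (hn : 7 ≤ n) : NoNd (d21_22_11_2.R : ℤ) d21_22_11_2.H n d21_22_11_2.a d21_22_11_2.b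
    (BlkD.inB (BlkD.upd (BlkD.upd (fun _ => 0) 0 3) 0 4)
      (BlkD.upd (BlkD.upd (BlkD.upd (BlkD.upd (fun _ => 22) 0 11) 2 2) 0 5) 0 4)) :=
  BlkD.tree_sound (BlkD.pairOk_sound k21_22_11_2) (by decide) hn t21_22_11_2_4 _ _ (by decide +kernel)

/-- certificates of the pair `(11, 2)`, part 5 -/
def t21_22_11_2_5 : BlkD.Tr :=
  .L 4 6 [4, 4, 21] [] [] 100000 1 1 1500000 66667 0 100000 0 0 0 0

lemma s21_22_11_2_5 {n : ℕ} (hn : 7 ≤ n) : NoNd (d21_22_11_2.R : ℤ) d21_22_11_2.H n d21_22_11_2.a d21_22_11_2.b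
    (BlkD.inB (BlkD.upd (BlkD.upd (fun _ => 0) 0 3) 0 5)
      (BlkD.upd (BlkD.upd (BlkD.upd (fun _ => 22) 0 11) 2 2) 0 5)) :=
  BlkD.tree_sound (BlkD.pairOk_sound k21_22_11_2) (by decide) hn t21_22_11_2_5 _ _ (by decide +kernel)

/-- certificates of the pair `(11, 2)`, part 6 -/
def t21_22_11_2_6 : BlkD.Tr :=
  .L 4 6 [4, 4, 21] [] [] 100000 1 1 1500000 66667 0 100000 0 0 0 0

lemma s21_22_11_2_6 {n : ℕ} (hn : 7 ≤ n) : NoNd (d21_22_11_2.R : ℤ) d21_22_11_2.H n d21_22_11_2.a d21_22_11_2.b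
    (BlkD.inB (BlkD.upd (fun _ => 0) 0 6)
      (BlkD.upd (BlkD.upd (BlkD.upd (BlkD.upd (BlkD.upd (fun _ => 22) 0 11) 2 2) 0 8) 0 7) 0 6)) :=
  BlkD.tree_sound (BlkD.pairOk_sound k21_22_11_2) (by decide) hn t21_22_11_2_6 _ _ (by decide +kernel)

/-- certificates of the pair `(11, 2)`, part 7 -/
def t21_22_11_2_7 : BlkD.Tr :=
  .L 4 6 [4, 4, 21] [] [] 100000 1 1 1500000 66667 0 100000 0 0 0 0

lemma s21_22_11_2_7 {n : ℕ} (hn : 7 ≤ n) : NoNd (d21_22_11_2.R : ℤ) d21_22_11_2.H n d21_22_11_2.a d21_22_11_2.b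
    (BlkD.inB (BlkD.upd (BlkD.upd (fun _ => 0) 0 6) 0 7)
      (BlkD.upd (BlkD.upd (BlkD.upd (BlkD.upd (fun _ => 22) 0 11) 2 2) 0 8) 0 7)) :=
  BlkD.tree_sound (BlkD.pairOk_sound k21_22_11_2) (by decide) hn t21_22_11_2_7 _ _ (by decide +kernel)

/-- certificates of the pair `(11, 2)`, part 8 -/
def t21_22_11_2_8 : BlkD.Tr :=
  .L 4 6 [4, 4, 21] [] [] 100000 1 1 1500000 66667 0 100000 0 0 0 0

lemma s21_22_11_2_8 {n : ℕ} (hn : 7 ≤ n) : NoNd (d21_22_11_2.R : ℤ) d21_22_11_2.H n d21_22_11_2.a d21_22_11_2.b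
    (BlkD.inB (BlkD.upd (BlkD.upd (fun _ => 0) 0 6) 0 8)
      (BlkD.upd (BlkD.upd (BlkD.upd (fun _ => 22) 0 11) 2 2) 0 8)) :=
  BlkD.tree_sound (BlkD.pairOk_sound k21_22_11_2) (by decide) hn t21_22_11_2_8 _ _ (by decide +kernel)

/-- certificates of the pair `(11, 2)`, part 9 -/
def t21_22_11_2_9 : BlkD.Tr :=
  .L 4 6 [4, 4, 21] [] [] 100000 1 1 1500000 66667 0 100000 0 0 0 0

lemma s21_22_11_2_9 {n : ℕ} (hn : 7 ≤ n) : NoNd (d21_22_11_2.R : ℤ) d21_22_11_2.H n d21_22_11_2.a d21_22_11_2.b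
    (BlkD.inB (BlkD.upd (BlkD.upd (fun _ => 0) 0 6) 0 9)
      (BlkD.upd (BlkD.upd (fun _ => 22) 0 11) 2 2)) :=
  BlkD.tree_sound (BlkD.pairOk_sound k21_22_11_2) (by decide) hn t21_22_11_2_9 _ _ (by decide +kernel)

/-- certificates of the pair `(11, 2)`, part 10 -/
def t21_22_11_2_10 : BlkD.Tr :=
  .E 1

lemma s21_22_11_2_10 {n : ℕ} (hn : 7 ≤ n) : NoNd (d21_22_11_2.R : ℤ) d21_22_11_2.H n d21_22_11_2.a d21_22_11_2.b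
    (BlkD.inB (BlkD.upd (fun _ => 0) 2 3)
      (BlkD.upd (fun _ => 22) 0 11)) :=
  BlkD.tree_sound (BlkD.pairOk_sound k21_22_11_2) (by decide) hn t21_22_11_2_10 _ _ (by decide +kernel)

/-- certificates of the pair `(11, 2)`, part 11 -/
def t21_22_11_2_11 : BlkD.Tr :=
  .E 0

lemma s21_22_11_2_11 {n : ℕ} (hn : 7 ≤ n) : NoNd (d21_22_11_2.R : ℤ) d21_22_11_2.H n d21_22_11_2.a d21_22_11_2.b
    (BlkD.inB (BlkD.upd (fun _ => 0) 0 12)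
      (fun _ => 22)) :=
  BlkD.tree_sound (BlkD.pairOk_sound k21_22_11_2) (by decide) hn t21_22_11_2_11 _ _ (by decide +kernel)

lemma pr21_22_11_2 {n : ℕ} (hn : 7 ≤ n) : NoPr ((21 : ℕ) : ℤ) ((22 : ℕ) : ℤ) n 11 2 :=
  BlkD.of_root (R := d21_22_11_2.R) (H := d21_22_11_2.H) (a := d21_22_11_2.a) (b := d21_22_11_2.b) (q := 5) (by decide) hn
    (BlkD.sp 0 11 (BlkD.sp 2 2 (BlkD.sp 0 5 (BlkD.sp 0 2 (BlkD.sp 0 1 (s21_22_11_2_1 hn)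
      (s21_22_11_2_2 hn)) (BlkD.sp 0 4 (BlkD.sp 0 3 (s21_22_11_2_3 hn) (s21_22_11_2_4 hn))
      (s21_22_11_2_5 hn))) (BlkD.sp 0 8 (BlkD.sp 0 7 (BlkD.sp 0 6 (s21_22_11_2_6 hn) (s21_22_11_2_7
      hn)) (s21_22_11_2_8 hn)) (s21_22_11_2_9 hn))) (s21_22_11_2_10 hn)) (s21_22_11_2_11 hn))

/-- the numbers of the pair `(11, 3)`, `R = 21`, `H = 22` -/
def d21_22_11_3 : BlkD.Pd :=
  ⟨21, 22, 5, 11, 3, 5, 0, 3, 0, 4, 4, 0, 0, 4, 4, 0, [0, 4, 8, 12, 16, 20], [0, 4, 8, 12, 16, 20],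
    [⟨1, 1, 1, 4, 8, [0, 4], [0, 4]⟩]⟩

lemma k21_22_11_3 : BlkD.pairOk d21_22_11_3 = true := by decide +kernel

/-- certificates of the pair `(11, 3)`, part 1 -/
def t21_22_11_3_1 : BlkD.Tr :=
  .L 4 4 [4, 21, 21, 21] [] [] 100000 0 0 1600000 100000 0 100000 0 0 0 0

lemma s21_22_11_3_1 {n : ℕ} (hn : 7 ≤ n) : NoNd (d21_22_11_3.R : ℤ) d21_22_11_3.H n d21_22_11_3.a d21_22_11_3.b
    (BlkD.inB (fun _ => 0)
      (BlkD.upd (BlkD.upd (BlkD.upd (BlkD.upd (BlkD.upd (BlkD.upd (fun _ => 22) 0 11) 2 3) 0 5) 0 2) 0 1) 0 0)) :=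
  BlkD.tree_sound (BlkD.pairOk_sound k21_22_11_3) (by decide) hn t21_22_11_3_1 _ _ (by decide +kernel)

/-- certificates of the pair `(11, 3)`, part 2 -/
def t21_22_11_3_2 : BlkD.Tr :=
  .S 1 11 (.S 1 5 (.L 4 4 [4, 21, 21, 21] [] [] 100000 0 0 1600000 100000 0 100000 0 0 0 0) (.L 4 4
    [4, 21, 21, 21] [] [] 100000 0 0 1600000 100000 0 100000 0 0 0 0)) (.L 4 4 [4, 21, 21, 21] []
    [] 100000 0 0 1600000 100000 0 100000 0 0 0 0)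

lemma s21_22_11_3_2 {n : ℕ} (hn : 7 ≤ n) : NoNd (d21_22_11_3.R : ℤ) d21_22_11_3.H n d21_22_11_3.a d21_22_11_3.b
    (BlkD.inB (BlkD.upd (fun _ => 0) 0 1)
      (BlkD.upd (BlkD.upd (BlkD.upd (BlkD.upd (BlkD.upd (fun _ => 22) 0 11) 2 3) 0 5) 0 2) 0 1)) :=
  BlkD.tree_sound (BlkD.pairOk_sound k21_22_11_3) (by decide) hn t21_22_11_3_2 _ _ (by decide +kernel)

/-- certificates of the pair `(11, 3)`, part 3 -/
def t21_22_11_3_3 : BlkD.Tr :=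
  .S 1 5 (.L 4 4 [4, 21, 21, 21] [] [] 100000 0 0 1600000 100000 0 100000 0 0 0 0) (.L 4 4 [4, 21,
    21, 21] [] [] 100000 0 0 1600000 100000 0 100000 0 0 0 0)

lemma s21_22_11_3_3 {n : ℕ} (hn : 7 ≤ n) : NoNd (d21_22_11_3.R : ℤ) d21_22_11_3.H n d21_22_11_3.a d21_22_11_3.b
    (BlkD.inB (BlkD.upd (fun _ => 0) 0 2)
      (BlkD.upd (BlkD.upd (BlkD.upd (BlkD.upd (BlkD.upd (fun _ => 22) 0 11) 2 3) 0 5) 0 2) 1 11)) :=
  BlkD.tree_sound (BlkD.pairOk_sound k21_22_11_3) (by decide) hn t21_22_11_3_3 _ _ (by decide +kernel)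

/-- certificates of the pair `(11, 3)`, part 4 -/
def t21_22_11_3_4 : BlkD.Tr :=
  .L 4 4 [4, 21, 21, 21] [] [] 100000 0 0 1600000 100000 0 100000 0 0 0 0

lemma s21_22_11_3_4 {n : ℕ} (hn : 7 ≤ n) : NoNd (d21_22_11_3.R : ℤ) d21_22_11_3.H n d21_22_11_3.a d21_22_11_3.b
    (BlkD.inB (BlkD.upd (BlkD.upd (fun _ => 0) 0 2) 1 12)
      (BlkD.upd (BlkD.upd (BlkD.upd (BlkD.upd (fun _ => 22) 0 11) 2 3) 0 5) 0 2)) :=
  BlkD.tree_sound (BlkD.pairOk_sound k21_22_11_3) (by decide) hn t21_22_11_3_4 _ _ (by decide +kernel)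

/-- certificates of the pair `(11, 3)`, part 5 -/
def t21_22_11_3_5 : BlkD.Tr :=
  .S 1 5 (.L 4 4 [4, 21, 21, 21] [] [] 100000 0 0 1600000 100000 0 100000 0 0 0 0) (.L 4 4 [4, 21,
    21, 21] [] [] 100000 0 0 1600000 100000 0 100000 0 0 0 0)

lemma s21_22_11_3_5 {n : ℕ} (hn : 7 ≤ n) : NoNd (d21_22_11_3.R : ℤ) d21_22_11_3.H n d21_22_11_3.a d21_22_11_3.b
    (BlkD.inB (BlkD.upd (fun _ => 0) 0 3)
      (BlkD.upd (BlkD.upd (BlkD.upd (BlkD.upd (BlkD.upd (BlkD.upd (fun _ => 22) 0 11) 2 3) 0 5) 0 4) 0 3) 1 11)) :=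
  BlkD.tree_sound (BlkD.pairOk_sound k21_22_11_3) (by decide) hn t21_22_11_3_5 _ _ (by decide +kernel)

/-- certificates of the pair `(11, 3)`, part 6 -/
def t21_22_11_3_6 : BlkD.Tr :=
  .L 4 4 [4, 21, 21, 21] [] [] 100000 0 0 1600000 100000 0 100000 0 0 0 0

lemma s21_22_11_3_6 {n : ℕ} (hn : 7 ≤ n) : NoNd (d21_22_11_3.R : ℤ) d21_22_11_3.H n d21_22_11_3.a d21_22_11_3.b
    (BlkD.inB (BlkD.upd (BlkD.upd (fun _ => 0) 0 3) 1 12)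
      (BlkD.upd (BlkD.upd (BlkD.upd (BlkD.upd (BlkD.upd (fun _ => 22) 0 11) 2 3) 0 5) 0 4) 0 3)) :=
  BlkD.tree_sound (BlkD.pairOk_sound k21_22_11_3) (by decide) hn t21_22_11_3_6 _ _ (by decide +kernel)

/-- certificates of the pair `(11, 3)`, part 7 -/
def t21_22_11_3_7 : BlkD.Tr :=
  .S 1 5 (.L 4 4 [4, 21, 21, 21] [] [] 100000 0 0 1600000 100000 0 100000 0 0 0 0) (.L 4 4 [4, 21,
    21, 21] [] [] 100000 0 0 1600000 100000 0 100000 0 0 0 0)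

lemma s21_22_11_3_7 {n : ℕ} (hn : 7 ≤ n) : NoNd (d21_22_11_3.R : ℤ) d21_22_11_3.H n d21_22_11_3.a d21_22_11_3.b
    (BlkD.inB (BlkD.upd (BlkD.upd (fun _ => 0) 0 3) 0 4)
      (BlkD.upd (BlkD.upd (BlkD.upd (BlkD.upd (BlkD.upd (fun _ => 22) 0 11) 2 3) 0 5) 0 4) 1 11)) :=
  BlkD.tree_sound (BlkD.pairOk_sound k21_22_11_3) (by decide) hn t21_22_11_3_7 _ _ (by decide +kernel)

/-- certificates of the pair `(11, 3)`, part 8 -/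
def t21_22_11_3_8 : BlkD.Tr :=
  .L 4 4 [4, 21, 21, 21] [] [] 100000 0 0 1600000 100000 0 100000 0 0 0 0

lemma s21_22_11_3_8 {n : ℕ} (hn : 7 ≤ n) : NoNd (d21_22_11_3.R : ℤ) d21_22_11_3.H n d21_22_11_3.a d21_22_11_3.b
    (BlkD.inB (BlkD.upd (BlkD.upd (BlkD.upd (fun _ => 0) 0 3) 0 4) 1 12)
      (BlkD.upd (BlkD.upd (BlkD.upd (BlkD.upd (fun _ => 22) 0 11) 2 3) 0 5) 0 4)) :=
  BlkD.tree_sound (BlkD.pairOk_sound k21_22_11_3) (by decide) hn t21_22_11_3_8 _ _ (by decide +kernel)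

/-- certificates of the pair `(11, 3)`, part 9 -/
def t21_22_11_3_9 : BlkD.Tr :=
  .S 1 5 (.L 4 4 [4, 21, 21, 21] [] [] 100000 0 0 1600000 100000 0 100000 0 0 0 0) (.L 4 4 [4, 21,
    21, 21] [] [] 100000 0 0 1600000 100000 0 100000 0 0 0 0)

lemma s21_22_11_3_9 {n : ℕ} (hn : 7 ≤ n) : NoNd (d21_22_11_3.R : ℤ) d21_22_11_3.H n d21_22_11_3.a d21_22_11_3.b
    (BlkD.inB (BlkD.upd (BlkD.upd (fun _ => 0) 0 3) 0 5)
      (BlkD.upd (BlkD.upd (BlkD.upd (BlkD.upd (fun _ => 22) 0 11) 2 3) 0 5) 1 11)) :=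
  BlkD.tree_sound (BlkD.pairOk_sound k21_22_11_3) (by decide) hn t21_22_11_3_9 _ _ (by decide +kernel)

/-- certificates of the pair `(11, 3)`, part 10 -/
def t21_22_11_3_10 : BlkD.Tr :=
  .L 4 4 [4, 21, 21, 21] [] [] 100000 0 0 1600000 100000 0 100000 0 0 0 0

lemma s21_22_11_3_10 {n : ℕ} (hn : 7 ≤ n) : NoNd (d21_22_11_3.R : ℤ) d21_22_11_3.H n d21_22_11_3.a d21_22_11_3.b
    (BlkD.inB (BlkD.upd (BlkD.upd (BlkD.upd (fun _ => 0) 0 3) 0 5) 1 12)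
      (BlkD.upd (BlkD.upd (BlkD.upd (fun _ => 22) 0 11) 2 3) 0 5)) :=
  BlkD.tree_sound (BlkD.pairOk_sound k21_22_11_3) (by decide) hn t21_22_11_3_10 _ _ (by decide +kernel)

/-- certificates of the pair `(11, 3)`, part 11 -/
def t21_22_11_3_11 : BlkD.Tr :=
  .S 1 5 (.L 4 4 [4, 21, 21, 21] [] [] 100000 0 0 1600000 100000 0 100000 0 0 0 0) (.L 4 4 [4, 21,
    21, 21] [] [] 100000 0 0 1600000 100000 0 100000 0 0 0 0)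

lemma s21_22_11_3_11 {n : ℕ} (hn : 7 ≤ n) : NoNd (d21_22_11_3.R : ℤ) d21_22_11_3.H n d21_22_11_3.a d21_22_11_3.b
    (BlkD.inB (BlkD.upd (fun _ => 0) 0 6)
      (BlkD.upd (BlkD.upd (BlkD.upd (BlkD.upd (BlkD.upd (BlkD.upd (fun _ => 22) 0 11) 2 3) 0 8) 0 7) 0 6) 1 11)) :=
  BlkD.tree_sound (BlkD.pairOk_sound k21_22_11_3) (by decide) hn t21_22_11_3_11 _ _ (by decide +kernel)

/-- certificates of the pair `(11, 3)`, part 12 -/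
def t21_22_11_3_12 : BlkD.Tr :=
  .L 4 4 [4, 21, 21, 21] [] [] 100000 0 0 1600000 100000 0 100000 0 0 0 0

lemma s21_22_11_3_12 {n : ℕ} (hn : 7 ≤ n) : NoNd (d21_22_11_3.R : ℤ) d21_22_11_3.H n d21_22_11_3.a d21_22_11_3.b
    (BlkD.inB (BlkD.upd (BlkD.upd (fun _ => 0) 0 6) 1 12)
      (BlkD.upd (BlkD.upd (BlkD.upd (BlkD.upd (BlkD.upd (fun _ => 22) 0 11) 2 3) 0 8) 0 7) 0 6)) :=
  BlkD.tree_sound (BlkD.pairOk_sound k21_22_11_3) (by decide) hn t21_22_11_3_12 _ _ (by decide +kernel)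

/-- certificates of the pair `(11, 3)`, part 13 -/
def t21_22_11_3_13 : BlkD.Tr :=
  .S 1 5 (.L 4 4 [4, 21, 21, 21] [] [] 100000 0 0 1600000 100000 0 100000 0 0 0 0) (.L 4 4 [4, 21,
    21, 21] [] [] 100000 0 0 1600000 100000 0 100000 0 0 0 0)

lemma s21_22_11_3_13 {n : ℕ} (hn : 7 ≤ n) : NoNd (d21_22_11_3.R : ℤ) d21_22_11_3.H n d21_22_11_3.a d21_22_11_3.b
    (BlkD.inB (BlkD.upd (BlkD.upd (fun _ => 0) 0 6) 0 7)
      (BlkD.upd (BlkD.upd (BlkD.upd (BlkD.upd (BlkD.upd (fun _ => 22) 0 11) 2 3) 0 8) 0 7) 1 11)) :=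
  BlkD.tree_sound (BlkD.pairOk_sound k21_22_11_3) (by decide) hn t21_22_11_3_13 _ _ (by decide +kernel)

/-- certificates of the pair `(11, 3)`, part 14 -/
def t21_22_11_3_14 : BlkD.Tr :=
  .L 4 4 [4, 21, 21, 21] [] [] 100000 0 0 1600000 100000 0 100000 0 0 0 0

lemma s21_22_11_3_14 {n : ℕ} (hn : 7 ≤ n) : NoNd (d21_22_11_3.R : ℤ) d21_22_11_3.H n d21_22_11_3.a d21_22_11_3.b
    (BlkD.inB (BlkD.upd (BlkD.upd (BlkD.upd (fun _ => 0) 0 6) 0 7) 1 12)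
      (BlkD.upd (BlkD.upd (BlkD.upd (BlkD.upd (fun _ => 22) 0 11) 2 3) 0 8) 0 7)) :=
  BlkD.tree_sound (BlkD.pairOk_sound k21_22_11_3) (by decide) hn t21_22_11_3_14 _ _ (by decide +kernel)

/-- certificates of the pair `(11, 3)`, part 15 -/
def t21_22_11_3_15 : BlkD.Tr :=
  .S 1 11 (.S 1 5 (.L 4 4 [4, 21, 21, 21] [] [] 100000 0 0 1600000 100000 0 100000 0 0 0 0) (.L 4 4
    [4, 21, 21, 21] [] [] 100000 0 0 1600000 100000 0 100000 0 0 0 0)) (.L 4 4 [4, 21, 21, 21] []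
    [] 100000 0 0 1600000 100000 0 100000 0 0 0 0)

lemma s21_22_11_3_15 {n : ℕ} (hn : 7 ≤ n) : NoNd (d21_22_11_3.R : ℤ) d21_22_11_3.H n d21_22_11_3.a d21_22_11_3.b
    (BlkD.inB (BlkD.upd (BlkD.upd (fun _ => 0) 0 6) 0 8)
      (BlkD.upd (BlkD.upd (BlkD.upd (fun _ => 22) 0 11) 2 3) 0 8)) :=
  BlkD.tree_sound (BlkD.pairOk_sound k21_22_11_3) (by decide) hn t21_22_11_3_15 _ _ (by decide +kernel)

/-- certificates of the pair `(11, 3)`, part 16 -/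
def t21_22_11_3_16 : BlkD.Tr :=
  .S 0 10 (.S 0 9 (.L 4 4 [4, 21, 21, 21] [] [] 100000 0 0 1600000 100000 0 100000 0 0 0 0) (.L 4 4
    [4, 21, 21, 21] [] [] 100000 0 0 1600000 100000 0 100000 0 0 0 0)) (.L 4 4 [4, 21, 21, 21] []
    [] 100000 0 0 1600000 100000 0 100000 0 0 0 0)

lemma s21_22_11_3_16 {n : ℕ} (hn : 7 ≤ n) : NoNd (d21_22_11_3.R : ℤ) d21_22_11_3.H n d21_22_11_3.a d21_22_11_3.b
    (BlkD.inB (BlkD.upd (BlkD.upd (fun _ => 0) 0 6) 0 9)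
      (BlkD.upd (BlkD.upd (fun _ => 22) 0 11) 2 3)) :=
  BlkD.tree_sound (BlkD.pairOk_sound k21_22_11_3) (by decide) hn t21_22_11_3_16 _ _ (by decide +kernel)

/-- certificates of the pair `(11, 3)`, part 17 -/
def t21_22_11_3_17 : BlkD.Tr :=
  .E 1

lemma s21_22_11_3_17 {n : ℕ} (hn : 7 ≤ n) : NoNd (d21_22_11_3.R : ℤ) d21_22_11_3.H n d21_22_11_3.a d21_22_11_3.b
    (BlkD.inB (BlkD.upd (fun _ => 0) 2 4)
      (BlkD.upd (fun _ => 22) 0 11)) :=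
  BlkD.tree_sound (BlkD.pairOk_sound k21_22_11_3) (by decide) hn t21_22_11_3_17 _ _ (by decide +kernel)

/-- certificates of the pair `(11, 3)`, part 18 -/
def t21_22_11_3_18 : BlkD.Tr :=
  .E 0

lemma s21_22_11_3_18 {n : ℕ} (hn : 7 ≤ n) : NoNd (d21_22_11_3.R : ℤ) d21_22_11_3.H n d21_22_11_3.a d21_22_11_3.b
    (BlkD.inB (BlkD.upd (fun _ => 0) 0 12)
      (fun _ => 22)) :=
  BlkD.tree_sound (BlkD.pairOk_sound k21_22_11_3) (by decide) hn t21_22_11_3_18 _ _ (by decide +kernel)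

lemma pr21_22_11_3 {n : ℕ} (hn : 7 ≤ n) : NoPr ((21 : ℕ) : ℤ) ((22 : ℕ) : ℤ) n 11 3 :=
  BlkD.of_root (R := d21_22_11_3.R) (H := d21_22_11_3.H) (a := d21_22_11_3.a) (b := d21_22_11_3.b) (q := 5) (by decide) hn
    (BlkD.sp 0 11 (BlkD.sp 2 3 (BlkD.sp 0 5 (BlkD.sp 0 2 (BlkD.sp 0 1 (BlkD.sp 0 0 (s21_22_11_3_1
      hn) (s21_22_11_3_2 hn)) (BlkD.sp 1 11 (s21_22_11_3_3 hn) (s21_22_11_3_4 hn))) (BlkD.sp 0 4
      (BlkD.sp 0 3 (BlkD.sp 1 11 (s21_22_11_3_5 hn) (s21_22_11_3_6 hn)) (BlkD.sp 1 11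
      (s21_22_11_3_7 hn) (s21_22_11_3_8 hn))) (BlkD.sp 1 11 (s21_22_11_3_9 hn) (s21_22_11_3_10
      hn)))) (BlkD.sp 0 8 (BlkD.sp 0 7 (BlkD.sp 0 6 (BlkD.sp 1 11 (s21_22_11_3_11 hn)
      (s21_22_11_3_12 hn)) (BlkD.sp 1 11 (s21_22_11_3_13 hn) (s21_22_11_3_14 hn))) (s21_22_11_3_15
      hn)) (s21_22_11_3_16 hn))) (s21_22_11_3_17 hn)) (s21_22_11_3_18 hn))

end BlkC

end Pool.Agent.Lib.MP_f04ccf_co
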