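import Pool.Agent.Lib.MP_f04ccf_co.M.BlkT

/-!
MP_f04ccf_co, block certificate, data `R = 21`, `H = 22`, part 3 (generated, helper99:
bd10.cpp, gen2.py).
-/

set_option autoImplicit false
set_option maxRecDepth 100000

namespace Pool.Agent.Lib.MP_f04ccf_co

namespace BlkC

/-- the numbers of the pair `(6, 4)`, `R = 21`, `H = 22` -/
def d21_22_6_4 : BlkD.Pd :=
  ⟨21, 22, 5, 6, 4, 9, 4, 2, 4, 2, 12, 0, 2, 2, 10, 0, [0, 12, 24, 30, 34, 38, 42, 46, 50, 54], [0,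
    10, 20, 24, 26, 28, 30, 32, 34, 36], [⟨1, 1, 1, 4, 8, [0, 4], [0, 4]⟩, ⟨1, 1, 1, 6, 12, [0, 6],
    [0, 6]⟩, ⟨1, 1, 1, 6, 16, [0, 8], [0, 8]⟩, ⟨2, 1, 1, 6, 22, [0, 10, 14], [0, 8]⟩, ⟨2, 1, 1, 4,
    28, [0, 12, 18], [0, 10]⟩]⟩

lemma k21_22_6_4 : BlkD.pairOk d21_22_6_4 = true := by decide +kernel

/-- certificates of the pair `(6, 4)`, part 1 -/
def t21_22_6_4_1 : BlkD.Tr :=
  .L 5 6 [4, 4, 5, 5, 6] [] [] 100000 88890 88890 700000 100000 0 100000 100000 0 0 16667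

lemma s21_22_6_4_1 {n : ℕ} (hn : 7 ≤ n) : NoNd (d21_22_6_4.R : ℤ) d21_22_6_4.H n d21_22_6_4.a d21_22_6_4.b
    (BlkD.inB (fun _ => 0)
      (BlkD.upd (BlkD.upd (BlkD.upd (BlkD.upd (BlkD.upd (fun _ => 22) 0 6) 2 4) 0 3) 0 1) 0 0)) :=
  BlkD.tree_sound (BlkD.pairOk_sound k21_22_6_4) (by decide) hn t21_22_6_4_1 _ _ (by decide +kernel)

/-- certificates of the pair `(6, 4)`, part 2 -/
def t21_22_6_4_2 : BlkD.Tr :=
  .L 5 6 [4, 4, 5, 5, 6] [] [] 100000 88890 88890 700000 100000 0 100000 100000 0 0 16667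

lemma s21_22_6_4_2 {n : ℕ} (hn : 7 ≤ n) : NoNd (d21_22_6_4.R : ℤ) d21_22_6_4.H n d21_22_6_4.a d21_22_6_4.b
    (BlkD.inB (BlkD.upd (fun _ => 0) 0 1)
      (BlkD.upd (BlkD.upd (BlkD.upd (BlkD.upd (BlkD.upd (BlkD.upd (fun _ => 22) 0 6) 2 4) 0 3) 0 1) 1 11) 1 5)) :=
  BlkD.tree_sound (BlkD.pairOk_sound k21_22_6_4) (by decide) hn t21_22_6_4_2 _ _ (by decide +kernel)

/-- certificates of the pair `(6, 4)`, part 3 -/
def t21_22_6_4_3 : BlkD.Tr :=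
  .S 1 8 (.L 5 6 [4, 4, 5, 5, 6] [] [] 100000 88890 88890 700000 100000 0 100000 100000 0 0 16667)
    (.L 5 6 [4, 4, 5, 5, 6] [] [] 100000 88890 88890 700000 100000 0 100000 100000 0 0 16667)

lemma s21_22_6_4_3 {n : ℕ} (hn : 7 ≤ n) : NoNd (d21_22_6_4.R : ℤ) d21_22_6_4.H n d21_22_6_4.a d21_22_6_4.b
    (BlkD.inB (BlkD.upd (BlkD.upd (fun _ => 0) 0 1) 1 6)
      (BlkD.upd (BlkD.upd (BlkD.upd (BlkD.upd (BlkD.upd (fun _ => 22) 0 6) 2 4) 0 3) 0 1) 1 11)) :=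
  BlkD.tree_sound (BlkD.pairOk_sound k21_22_6_4) (by decide) hn t21_22_6_4_3 _ _ (by decide +kernel)

/-- certificates of the pair `(6, 4)`, part 4 -/
def t21_22_6_4_4 : BlkD.Tr :=
  .L 5 6 [4, 4, 5, 5, 6] [] [] 100000 88890 88890 700000 100000 0 100000 100000 0 0 16667

lemma s21_22_6_4_4 {n : ℕ} (hn : 7 ≤ n) : NoNd (d21_22_6_4.R : ℤ) d21_22_6_4.H n d21_22_6_4.a d21_22_6_4.b
    (BlkD.inB (BlkD.upd (BlkD.upd (fun _ => 0) 0 1) 1 12)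
      (BlkD.upd (BlkD.upd (BlkD.upd (BlkD.upd (fun _ => 22) 0 6) 2 4) 0 3) 0 1)) :=
  BlkD.tree_sound (BlkD.pairOk_sound k21_22_6_4) (by decide) hn t21_22_6_4_4 _ _ (by decide +kernel)

/-- certificates of the pair `(6, 4)`, part 5 -/
def t21_22_6_4_5 : BlkD.Tr :=
  .S 1 2 (.L 5 6 [4, 4, 5, 5, 6] [] [] 100000 33334 33334 975001 12500 0 12500 33333 0 0 18750) (.S
    1 4 (.L 5 6 [4, 4, 5, 5, 6] [] [] 100000 25000 25000 1170000 7500 0 7500 70000 0 30000 17500)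
    (.L 5 6 [4, 4, 5, 5, 6] [88, 82, 76, 64, 52, 40] [] 100000 59171 59171 1051988 50000 0 63902
    65888 1986 9346 27220))

lemma s21_22_6_4_5 {n : ℕ} (hn : 7 ≤ n) : NoNd (d21_22_6_4.R : ℤ) d21_22_6_4.H n d21_22_6_4.a d21_22_6_4.b
    (BlkD.inB (BlkD.upd (fun _ => 0) 0 2)
      (BlkD.upd (BlkD.upd (BlkD.upd (BlkD.upd (BlkD.upd (BlkD.upd (BlkD.upd (fun _ => 22) 0 6) 2 4) 0 3) 0 2) 1 20) 1 10) 1 5)) :=
  BlkD.tree_sound (BlkD.pairOk_sound k21_22_6_4) (by decide) hn t21_22_6_4_5 _ _ (by decide +kernel)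

/-- certificates of the pair `(6, 4)`, part 6 -/
def t21_22_6_4_6 : BlkD.Tr :=
  .S 1 8 (.S 1 7 (.S 1 6 (.L 5 6 [4, 4, 5, 5, 6] [106, 102, 96, 90, 78, 66] [] 100000 52249 52249
    1090477 50000 0 59524 50000 1190 10053 20238) (.L 5 6 [4, 4, 5, 5, 6] [126, 122, 118, 112, 106,
    94] [] 100000 41956 41956 1104424 38232 0 80884 50000 0 8640 15293)) (.L 5 6 [4, 4, 5, 5, 6]
    [148, 144, 140, 136, 130, 124] [] 100000 24065 24065 1111767 5882 0 94118 82353 59893 11765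
    8021)) (.L 5 6 [4, 4, 5, 5, 6] [] [] 100000 133333 0 2 0 0 233333 100000 0 0 0)

lemma s21_22_6_4_6 {n : ℕ} (hn : 7 ≤ n) : NoNd (d21_22_6_4.R : ℤ) d21_22_6_4.H n d21_22_6_4.a d21_22_6_4.b
    (BlkD.inB (BlkD.upd (BlkD.upd (fun _ => 0) 0 2) 1 6)
      (BlkD.upd (BlkD.upd (BlkD.upd (BlkD.upd (BlkD.upd (BlkD.upd (fun _ => 22) 0 6) 2 4) 0 3) 0 2) 1 20) 1 10)) :=
  BlkD.tree_sound (BlkD.pairOk_sound k21_22_6_4) (by decide) hn t21_22_6_4_6 _ _ (by decide +kernel)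

/-- certificates of the pair `(6, 4)`, part 7 -/
def t21_22_6_4_7 : BlkD.Tr :=
  .E 0

lemma s21_22_6_4_7 {n : ℕ} (hn : 7 ≤ n) : NoNd (d21_22_6_4.R : ℤ) d21_22_6_4.H n d21_22_6_4.a d21_22_6_4.b
    (BlkD.inB (BlkD.upd (BlkD.upd (fun _ => 0) 0 2) 1 11)
      (BlkD.upd (BlkD.upd (BlkD.upd (BlkD.upd (BlkD.upd (fun _ => 22) 0 6) 2 4) 0 3) 0 2) 1 20)) :=
  BlkD.tree_sound (BlkD.pairOk_sound k21_22_6_4) (by decide) hn t21_22_6_4_7 _ _ (by decide +kernel)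

/-- certificates of the pair `(6, 4)`, part 8 -/
def t21_22_6_4_8 : BlkD.Tr :=
  .E 0

lemma s21_22_6_4_8 {n : ℕ} (hn : 7 ≤ n) : NoNd (d21_22_6_4.R : ℤ) d21_22_6_4.H n d21_22_6_4.a d21_22_6_4.b
    (BlkD.inB (BlkD.upd (BlkD.upd (fun _ => 0) 0 2) 1 21)
      (BlkD.upd (BlkD.upd (BlkD.upd (BlkD.upd (fun _ => 22) 0 6) 2 4) 0 3) 0 2)) :=
  BlkD.tree_sound (BlkD.pairOk_sound k21_22_6_4) (by decide) hn t21_22_6_4_8 _ _ (by decide +kernel)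

/-- certificates of the pair `(6, 4)`, part 9 -/
def t21_22_6_4_9 : BlkD.Tr :=
  .S 1 2 (.L 5 6 [4, 4, 5, 5, 6] [] [] 100000 33334 33334 1066667 16667 0 16667 33333 0 0 16667)
    (.S 1 3 (.L 5 6 [4, 4, 5, 5, 6] [60, 48, 36, 24, 0, 0] [] 100000 25000 25000 1170000 10000 0
    10000 70000 0 30000 17500) (.S 2 2 (.S 2 1 (.L 5 6 [4, 4, 5, 5, 6] [78, 72, 60, 48, 36, 0] []
    100000 48976 48976 1073773 17213 52459 82787 74590 0 8197 16393) (.L 5 6 [4, 4, 5, 5, 6] [78,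
    72, 60, 48, 36, 0] [] 100000 27289 27289 1180310 9845 0 92919 80311 345 19689 23316)) (.L 5 6
    [4, 4, 5, 5, 6] [78, 72, 60, 48, 36, 0] [] 100000 33334 33334 1133335 33333 0 66667 33333 0
    66667 33333)))

lemma s21_22_6_4_9 {n : ℕ} (hn : 7 ≤ n) : NoNd (d21_22_6_4.R : ℤ) d21_22_6_4.H n d21_22_6_4.a d21_22_6_4.b
    (BlkD.inB (BlkD.upd (BlkD.upd (fun _ => 0) 0 2) 0 3)
      (BlkD.upd (BlkD.upd (BlkD.upd (BlkD.upd (BlkD.upd (BlkD.upd (fun _ => 22) 0 6) 2 4) 0 3) 1 19) 1 9) 1 4)) :=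
  BlkD.tree_sound (BlkD.pairOk_sound k21_22_6_4) (by decide) hn t21_22_6_4_9 _ _ (by decide +kernel)

/-- certificates of the pair `(6, 4)`, part 10 -/
def t21_22_6_4_10 : BlkD.Tr :=
  .S 1 7 (.S 1 6 (.S 1 5 (.S 2 2 (.S 2 1 (.L 5 6 [4, 4, 5, 5, 6] [98, 92, 86, 74, 62, 50] [] 100000
    46264 46264 1096512 21517 52222 60759 65202 2904 4394 13694) (.L 6 7 [4, 4, 5, 4, 5] [98, 92,
    86, 74, 62, 50] [] 100000 28450 28450 1183335 29167 0 64815 58333 6019 12500 20000)) (.L 6 7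
    [4, 4, 5, 4, 5] [98, 92, 86, 74, 62, 50] [] 100000 22864 22864 1193161 21368 0 71795 64103 8547
    16239 19658)) (.L 6 7 [4, 4, 5, 4, 5] [118, 114, 108, 102, 90, 78] [] 100000 24653 24653
    1180952 19048 0 80952 61905 10317 10119 17659)) (.L 6 7 [4, 4, 5, 4, 5] [140, 136, 132, 126,
    120, 108] [] 100000 25000 25000 1112500 0 0 100000 87500 37500 12500 12500)) (.E 0)

lemma s21_22_6_4_10 {n : ℕ} (hn : 7 ≤ n) : NoNd (d21_22_6_4.R : ℤ) d21_22_6_4.H n d21_22_6_4.a d21_22_6_4.b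
    (BlkD.inB (BlkD.upd (BlkD.upd (BlkD.upd (fun _ => 0) 0 2) 0 3) 1 5)
      (BlkD.upd (BlkD.upd (BlkD.upd (BlkD.upd (BlkD.upd (fun _ => 22) 0 6) 2 4) 0 3) 1 19) 1 9)) :=
  BlkD.tree_sound (BlkD.pairOk_sound k21_22_6_4) (by decide) hn t21_22_6_4_10 _ _ (by decide +kernel)

/-- certificates of the pair `(6, 4)`, part 11 -/
def t21_22_6_4_11 : BlkD.Tr :=
  .E 0

lemma s21_22_6_4_11 {n : ℕ} (hn : 7 ≤ n) : NoNd (d21_22_6_4.R : ℤ) d21_22_6_4.H n d21_22_6_4.a d21_22_6_4.b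
    (BlkD.inB (BlkD.upd (BlkD.upd (BlkD.upd (fun _ => 0) 0 2) 0 3) 1 10)
      (BlkD.upd (BlkD.upd (BlkD.upd (BlkD.upd (fun _ => 22) 0 6) 2 4) 0 3) 1 19)) :=
  BlkD.tree_sound (BlkD.pairOk_sound k21_22_6_4) (by decide) hn t21_22_6_4_11 _ _ (by decide +kernel)

/-- certificates of the pair `(6, 4)`, part 12 -/
def t21_22_6_4_12 : BlkD.Tr :=
  .E 0

lemma s21_22_6_4_12 {n : ℕ} (hn : 7 ≤ n) : NoNd (d21_22_6_4.R : ℤ) d21_22_6_4.H n d21_22_6_4.a d21_22_6_4.b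
    (BlkD.inB (BlkD.upd (BlkD.upd (BlkD.upd (fun _ => 0) 0 2) 0 3) 1 20)
      (BlkD.upd (BlkD.upd (BlkD.upd (fun _ => 22) 0 6) 2 4) 0 3)) :=
  BlkD.tree_sound (BlkD.pairOk_sound k21_22_6_4) (by decide) hn t21_22_6_4_12 _ _ (by decide +kernel)

/-- certificates of the pair `(6, 4)`, part 13 -/
def t21_22_6_4_13 : BlkD.Tr :=
  .S 1 18 (.S 1 9 (.S 1 4 (.S 1 2 (.L 6 7 [4, 4, 5, 4, 5] [] [] 100000 27196 27196 1131084 35135 0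
    39189 69595 676 25000 35135) (.S 1 3 (.L 6 7 [4, 4, 5, 4, 5] [66, 54, 42, 30, 0, 0] [] 100000
    22832 22832 1208198 30602 0 60964 47229 8675 22169 30361) (.S 2 2 (.S 2 1 (.L 6 7 [4, 4, 5, 4,
    5] [86, 80, 68, 56, 44, 0] [] 100000 29667 29667 1123327 12937 43154 64495 62103 7365 9758
    15392) (.S 3 12 (.S 3 6 (.S 3 3 (.L 6 7 [4, 4, 5, 4, 5] [86, 80, 68, 56, 44, 0] [] 100000 25118
    25118 1198902 20182 13518 53882 53882 3835 16976 22100) (.L 6 7 [4, 4, 5, 4, 5] [86, 80, 68,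
    56, 44, 0] [] 100000 35001 35001 1113334 21667 0 88333 100000 13333 0 9333)) (.E 1)) (.E 1)))
    (.L 6 7 [4, 4, 5, 4, 5] [86, 80, 68, 56, 44, 0] [] 100000 20993 20993 1211453 22137 0 67176
    66412 16031 11450 18321)))) (.L 6 7 [4, 4, 5, 4, 5] [] [] 100000 16165 16165 1234487 0 0 82759
    82759 35345 18966 16379)) (.E 0)) (.E 0)

lemma s21_22_6_4_13 {n : ℕ} (hn : 7 ≤ n) : NoNd (d21_22_6_4.R : ℤ) d21_22_6_4.H n d21_22_6_4.a d21_22_6_4.b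
    (BlkD.inB (BlkD.upd (fun _ => 0) 0 4)
      (BlkD.upd (BlkD.upd (BlkD.upd (BlkD.upd (fun _ => 22) 0 6) 2 4) 0 5) 0 4)) :=
  BlkD.tree_sound (BlkD.pairOk_sound k21_22_6_4) (by decide) hn t21_22_6_4_13 _ _ (by decide +kernel)

/-- certificates of the pair `(6, 4)`, part 14 -/
def t21_22_6_4_14 : BlkD.Tr :=
  .L 6 7 [4, 4, 5, 4, 5] [] [] 100000 21906 21906 1211415 0 322 88585 88585 12379 11415 19293

lemma s21_22_6_4_14 {n : ℕ} (hn : 7 ≤ n) : NoNd (d21_22_6_4.R : ℤ) d21_22_6_4.H n d21_22_6_4.a d21_22_6_4.b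
    (BlkD.inB (BlkD.upd (BlkD.upd (fun _ => 0) 0 4) 0 5)
      (BlkD.upd (BlkD.upd (BlkD.upd (fun _ => 22) 0 6) 2 4) 0 5)) :=
  BlkD.tree_sound (BlkD.pairOk_sound k21_22_6_4) (by decide) hn t21_22_6_4_14 _ _ (by decide +kernel)

/-- certificates of the pair `(6, 4)`, part 15 -/
def t21_22_6_4_15 : BlkD.Tr :=
  .L 6 7 [4, 4, 5, 4, 5] [] [] 100000 14256 14256 1206183 0 10955 50000 46910 42978 20506 22472

lemma s21_22_6_4_15 {n : ℕ} (hn : 7 ≤ n) : NoNd (d21_22_6_4.R : ℤ) d21_22_6_4.H n d21_22_6_4.a d21_22_6_4.b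
    (BlkD.inB (BlkD.upd (BlkD.upd (fun _ => 0) 0 4) 0 6)
      (BlkD.upd (BlkD.upd (fun _ => 22) 0 6) 2 4)) :=
  BlkD.tree_sound (BlkD.pairOk_sound k21_22_6_4) (by decide) hn t21_22_6_4_15 _ _ (by decide +kernel)

/-- certificates of the pair `(6, 4)`, part 16 -/
def t21_22_6_4_16 : BlkD.Tr :=
  .E 1

lemma s21_22_6_4_16 {n : ℕ} (hn : 7 ≤ n) : NoNd (d21_22_6_4.R : ℤ) d21_22_6_4.H n d21_22_6_4.a d21_22_6_4.b
    (BlkD.inB (BlkD.upd (fun _ => 0) 2 5)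
      (BlkD.upd (fun _ => 22) 0 6)) :=
  BlkD.tree_sound (BlkD.pairOk_sound k21_22_6_4) (by decide) hn t21_22_6_4_16 _ _ (by decide +kernel)

/-- certificates of the pair `(6, 4)`, part 17 -/
def t21_22_6_4_17 : BlkD.Tr :=
  .E 0

lemma s21_22_6_4_17 {n : ℕ} (hn : 7 ≤ n) : NoNd (d21_22_6_4.R : ℤ) d21_22_6_4.H n d21_22_6_4.a d21_22_6_4.b
    (BlkD.inB (BlkD.upd (fun _ => 0) 0 7)
      (fun _ => 22)) :=
  BlkD.tree_sound (BlkD.pairOk_sound k21_22_6_4) (by decide) hn t21_22_6_4_17 _ _ (by decide +kernel)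

lemma pr21_22_6_4 {n : ℕ} (hn : 7 ≤ n) : NoPr ((21 : ℕ) : ℤ) ((22 : ℕ) : ℤ) n 6 4 :=
  BlkD.of_root (R := d21_22_6_4.R) (H := d21_22_6_4.H) (a := d21_22_6_4.a) (b := d21_22_6_4.b) (q := 5) (by decide) hn
    (BlkD.sp 0 6 (BlkD.sp 2 4 (BlkD.sp 0 3 (BlkD.sp 0 1 (BlkD.sp 0 0 (s21_22_6_4_1 hn) (BlkD.sp 1
      11 (BlkD.sp 1 5 (s21_22_6_4_2 hn) (s21_22_6_4_3 hn)) (s21_22_6_4_4 hn))) (BlkD.sp 0 2
      (BlkD.sp 1 20 (BlkD.sp 1 10 (BlkD.sp 1 5 (s21_22_6_4_5 hn) (s21_22_6_4_6 hn)) (s21_22_6_4_7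
      hn)) (s21_22_6_4_8 hn)) (BlkD.sp 1 19 (BlkD.sp 1 9 (BlkD.sp 1 4 (s21_22_6_4_9 hn)
      (s21_22_6_4_10 hn)) (s21_22_6_4_11 hn)) (s21_22_6_4_12 hn)))) (BlkD.sp 0 5 (BlkD.sp 0 4
      (s21_22_6_4_13 hn) (s21_22_6_4_14 hn)) (s21_22_6_4_15 hn))) (s21_22_6_4_16 hn))
      (s21_22_6_4_17 hn))

/-- the numbers of the pair `(6, 5)`, `R = 21`, `H = 22` -/
def d21_22_6_5 : BlkD.Pd :=
  ⟨21, 22, 5, 6, 5, 8, 3, 2, 1, 3, 10, 0, 2, 2, 10, 0, [0, 10, 20, 27, 28, 29, 30, 31, 32], [0, 10,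
    20, 22, 24, 26, 28, 30, 32], [⟨1, 1, 1, 4, 8, [0, 4], [0, 4]⟩, ⟨1, 1, 1, 4, 12, [0, 6], [0,
    6]⟩, ⟨1, 1, 1, 4, 16, [0, 8], [0, 8]⟩, ⟨2, 1, 1, 4, 24, [0, 10, 14], [0, 10]⟩]⟩

lemma k21_22_6_5 : BlkD.pairOk d21_22_6_5 = true := by decide +kernel

/-- certificates of the pair `(6, 5)`, part 1 -/
def t21_22_6_5_1 : BlkD.Tr :=
  .L 6 6 [4, 4, 4, 5, 21, 21] [] [] 100000 62500 62500 1000000 93750 0 93750 25000 0 0 6250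

lemma s21_22_6_5_1 {n : ℕ} (hn : 7 ≤ n) : NoNd (d21_22_6_5.R : ℤ) d21_22_6_5.H n d21_22_6_5.a d21_22_6_5.b
    (BlkD.inB (fun _ => 0)
      (BlkD.upd (BlkD.upd (BlkD.upd (BlkD.upd (BlkD.upd (fun _ => 22) 0 6) 2 5) 0 3) 0 1) 0 0)) :=
  BlkD.tree_sound (BlkD.pairOk_sound k21_22_6_5) (by decide) hn t21_22_6_5_1 _ _ (by decide +kernel)

/-- certificates of the pair `(6, 5)`, part 2 -/
def t21_22_6_5_2 : BlkD.Tr :=
  .S 1 2 (.L 6 6 [4, 4, 4, 5, 21, 21] [] [] 100000 62500 62500 1000000 93750 0 93750 25000 0 0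
    6250) (.L 6 6 [4, 4, 4, 5, 21, 21] [] [] 100000 62500 62500 1000000 93750 0 93750 25000 0 0
    6250)

lemma s21_22_6_5_2 {n : ℕ} (hn : 7 ≤ n) : NoNd (d21_22_6_5.R : ℤ) d21_22_6_5.H n d21_22_6_5.a d21_22_6_5.b
    (BlkD.inB (BlkD.upd (fun _ => 0) 0 1)
      (BlkD.upd (BlkD.upd (BlkD.upd (BlkD.upd (BlkD.upd (BlkD.upd (fun _ => 22) 0 6) 2 5) 0 3) 0 1) 1 11) 1 5)) :=
  BlkD.tree_sound (BlkD.pairOk_sound k21_22_6_5) (by decide) hn t21_22_6_5_2 _ _ (by decide +kernel)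

/-- certificates of the pair `(6, 5)`, part 3 -/
def t21_22_6_5_3 : BlkD.Tr :=
  .S 1 8 (.L 6 6 [4, 4, 4, 5, 21, 21] [] [] 100000 62500 62500 1000000 93750 0 93750 25000 0 0
    6250) (.L 6 6 [4, 4, 4, 5, 21, 21] [] [] 100000 62500 62500 1000000 93750 0 93750 25000 0 0
    6250)

lemma s21_22_6_5_3 {n : ℕ} (hn : 7 ≤ n) : NoNd (d21_22_6_5.R : ℤ) d21_22_6_5.H n d21_22_6_5.a d21_22_6_5.b
    (BlkD.inB (BlkD.upd (BlkD.upd (fun _ => 0) 0 1) 1 6)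
      (BlkD.upd (BlkD.upd (BlkD.upd (BlkD.upd (BlkD.upd (fun _ => 22) 0 6) 2 5) 0 3) 0 1) 1 11)) :=
  BlkD.tree_sound (BlkD.pairOk_sound k21_22_6_5) (by decide) hn t21_22_6_5_3 _ _ (by decide +kernel)

/-- certificates of the pair `(6, 5)`, part 4 -/
def t21_22_6_5_4 : BlkD.Tr :=
  .L 6 6 [4, 4, 4, 5, 21, 21] [] [] 100000 62500 62500 1000000 93750 0 93750 25000 0 0 6250

lemma s21_22_6_5_4 {n : ℕ} (hn : 7 ≤ n) : NoNd (d21_22_6_5.R : ℤ) d21_22_6_5.H n d21_22_6_5.a d21_22_6_5.b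
    (BlkD.inB (BlkD.upd (BlkD.upd (fun _ => 0) 0 1) 1 12)
      (BlkD.upd (BlkD.upd (BlkD.upd (BlkD.upd (fun _ => 22) 0 6) 2 5) 0 3) 0 1)) :=
  BlkD.tree_sound (BlkD.pairOk_sound k21_22_6_5) (by decide) hn t21_22_6_5_4 _ _ (by decide +kernel)

/-- certificates of the pair `(6, 5)`, part 5 -/
def t21_22_6_5_5 : BlkD.Tr :=
  .S 1 2 (.L 6 6 [4, 4, 4, 5, 21, 21] [] [] 100000 33334 33334 1100000 25000 0 25000 50000 0 0 0)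
    (.S 1 4 (.L 6 6 [4, 4, 4, 5, 21, 21] [] [] 100000 27084 27084 1250000 25000 0 25000 68750 0
    18750 9375) (.L 6 6 [4, 4, 4, 5, 21, 21] [89, 82, 72, 62, 52, 40] [] 100000 27778 27778 1300003
    33333 0 50000 50000 0 16667 33333))

lemma s21_22_6_5_5 {n : ℕ} (hn : 7 ≤ n) : NoNd (d21_22_6_5.R : ℤ) d21_22_6_5.H n d21_22_6_5.a d21_22_6_5.b
    (BlkD.inB (BlkD.upd (fun _ => 0) 0 2)
      (BlkD.upd (BlkD.upd (BlkD.upd (BlkD.upd (BlkD.upd (BlkD.upd (BlkD.upd (fun _ => 22) 0 6) 2 5) 0 3) 0 2) 1 20) 1 10) 1 5)) :=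
  BlkD.tree_sound (BlkD.pairOk_sound k21_22_6_5) (by decide) hn t21_22_6_5_5 _ _ (by decide +kernel)

/-- certificates of the pair `(6, 5)`, part 6 -/
def t21_22_6_5_6 : BlkD.Tr :=
  .S 1 8 (.S 1 7 (.S 1 6 (.S 2 2 (.L 6 6 [4, 4, 4, 5, 21, 21] [104, 103, 96, 86, 76, 66] [] 100000
    49206 49206 1185716 42857 28571 57143 57143 0 0 4762) (.L 6 6 [4, 4, 4, 5, 21, 21] [104, 103,
    96, 86, 76, 66] [] 100000 28030 28030 1272730 31818 0 68182 63636 6818 11364 5682)) (.L 6 6 [4,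
    4, 4, 5, 21, 21] [121, 120, 119, 112, 102, 92] [] 100000 31401 31401 1244932 39130 0 79710
    57971 1449 2899 20290)) (.L 6 6 [4, 4, 4, 5, 21, 21] [140, 139, 138, 137, 130, 120] [] 100000
    50001 40910 1104545 59091 0 109091 50000 0 0 13636)) (.E 0)

lemma s21_22_6_5_6 {n : ℕ} (hn : 7 ≤ n) : NoNd (d21_22_6_5.R : ℤ) d21_22_6_5.H n d21_22_6_5.a d21_22_6_5.b
    (BlkD.inB (BlkD.upd (BlkD.upd (fun _ => 0) 0 2) 1 6)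
      (BlkD.upd (BlkD.upd (BlkD.upd (BlkD.upd (BlkD.upd (BlkD.upd (fun _ => 22) 0 6) 2 5) 0 3) 0 2) 1 20) 1 10)) :=
  BlkD.tree_sound (BlkD.pairOk_sound k21_22_6_5) (by decide) hn t21_22_6_5_6 _ _ (by decide +kernel)

/-- certificates of the pair `(6, 5)`, part 7 -/
def t21_22_6_5_7 : BlkD.Tr :=
  .E 0

lemma s21_22_6_5_7 {n : ℕ} (hn : 7 ≤ n) : NoNd (d21_22_6_5.R : ℤ) d21_22_6_5.H n d21_22_6_5.a d21_22_6_5.b
    (BlkD.inB (BlkD.upd (BlkD.upd (fun _ => 0) 0 2) 1 11)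
      (BlkD.upd (BlkD.upd (BlkD.upd (BlkD.upd (BlkD.upd (fun _ => 22) 0 6) 2 5) 0 3) 0 2) 1 20)) :=
  BlkD.tree_sound (BlkD.pairOk_sound k21_22_6_5) (by decide) hn t21_22_6_5_7 _ _ (by decide +kernel)

/-- certificates of the pair `(6, 5)`, part 8 -/
def t21_22_6_5_8 : BlkD.Tr :=
  .E 0

lemma s21_22_6_5_8 {n : ℕ} (hn : 7 ≤ n) : NoNd (d21_22_6_5.R : ℤ) d21_22_6_5.H n d21_22_6_5.a d21_22_6_5.b
    (BlkD.inB (BlkD.upd (BlkD.upd (fun _ => 0) 0 2) 1 21)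
      (BlkD.upd (BlkD.upd (BlkD.upd (BlkD.upd (fun _ => 22) 0 6) 2 5) 0 3) 0 2)) :=
  BlkD.tree_sound (BlkD.pairOk_sound k21_22_6_5) (by decide) hn t21_22_6_5_8 _ _ (by decide +kernel)

/-- certificates of the pair `(6, 5)`, part 9 -/
def t21_22_6_5_9 : BlkD.Tr :=
  .S 1 2 (.L 6 6 [4, 4, 4, 5, 21, 21] [] [] 100000 33334 33334 1200000 25000 0 25000 50000 0 0 0)
    (.S 1 3 (.L 6 6 [4, 4, 4, 5, 21, 21] [56, 46, 36, 24, 0, 0] [] 100000 26516 26516 1263640 18182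
    9091 27273 79545 0 20455 10227) (.L 6 6 [4, 4, 4, 5, 21, 21] [78, 68, 58, 48, 36, 0] [] 100000
    25667 25667 1320000 20000 8000 56000 54000 7000 9000 27000))

lemma s21_22_6_5_9 {n : ℕ} (hn : 7 ≤ n) : NoNd (d21_22_6_5.R : ℤ) d21_22_6_5.H n d21_22_6_5.a d21_22_6_5.b
    (BlkD.inB (BlkD.upd (BlkD.upd (fun _ => 0) 0 2) 0 3)
      (BlkD.upd (BlkD.upd (BlkD.upd (BlkD.upd (BlkD.upd (BlkD.upd (fun _ => 22) 0 6) 2 5) 0 3) 1 19) 1 9) 1 4)) :=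
  BlkD.tree_sound (BlkD.pairOk_sound k21_22_6_5) (by decide) hn t21_22_6_5_9 _ _ (by decide +kernel)

/-- certificates of the pair `(6, 5)`, part 10 -/
def t21_22_6_5_10 : BlkD.Tr :=
  .S 1 7 (.S 1 6 (.S 1 5 (.S 2 2 (.L 6 6 [4, 4, 4, 5, 21, 21] [99, 92, 82, 72, 62, 50] [] 100000
    23427 23427 1289485 22103 22103 56223 61052 11373 6974 21888) (.S 2 4 (.S 2 3 (.L 6 6 [4, 4, 4,
    5, 21, 21] [99, 92, 82, 72, 62, 50] [] 100000 20035 20035 1330212 20398 14496 62540 67800 14047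
    11802 18730) (.L 6 6 [4, 4, 4, 5, 21, 21] [99, 92, 82, 72, 62, 50] [] 100000 7693 7693 1307694
    23077 0 69231 46154 15385 46154 23077)) (.L 6 6 [4, 4, 4, 5, 21, 21] [99, 92, 82, 72, 62, 50]
    [] 100000 1032 1032 1308247 18557 0 73196 54639 25773 45361 26804))) (.L 6 6 [4, 4, 4, 5, 21,
    21] [116, 115, 108, 98, 88, 78] [] 100000 24269 24269 1305266 33333 0 80702 50000 9649 7895
    19298)) (.L 6 6 [4, 4, 4, 5, 21, 21] [135, 134, 133, 126, 116, 106] [] 100000 29365 29365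
    1223811 38095 0 100000 50000 4762 7143 19048)) (.E 0)

lemma s21_22_6_5_10 {n : ℕ} (hn : 7 ≤ n) : NoNd (d21_22_6_5.R : ℤ) d21_22_6_5.H n d21_22_6_5.a d21_22_6_5.b
    (BlkD.inB (BlkD.upd (BlkD.upd (BlkD.upd (fun _ => 0) 0 2) 0 3) 1 5)
      (BlkD.upd (BlkD.upd (BlkD.upd (BlkD.upd (BlkD.upd (fun _ => 22) 0 6) 2 5) 0 3) 1 19) 1 9)) :=
  BlkD.tree_sound (BlkD.pairOk_sound k21_22_6_5) (by decide) hn t21_22_6_5_10 _ _ (by decide +kernel)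

/-- certificates of the pair `(6, 5)`, part 11 -/
def t21_22_6_5_11 : BlkD.Tr :=
  .E 0

lemma s21_22_6_5_11 {n : ℕ} (hn : 7 ≤ n) : NoNd (d21_22_6_5.R : ℤ) d21_22_6_5.H n d21_22_6_5.a d21_22_6_5.b
    (BlkD.inB (BlkD.upd (BlkD.upd (BlkD.upd (fun _ => 0) 0 2) 0 3) 1 10)
      (BlkD.upd (BlkD.upd (BlkD.upd (BlkD.upd (fun _ => 22) 0 6) 2 5) 0 3) 1 19)) :=
  BlkD.tree_sound (BlkD.pairOk_sound k21_22_6_5) (by decide) hn t21_22_6_5_11 _ _ (by decide +kernel)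

/-- certificates of the pair `(6, 5)`, part 12 -/
def t21_22_6_5_12 : BlkD.Tr :=
  .E 0

lemma s21_22_6_5_12 {n : ℕ} (hn : 7 ≤ n) : NoNd (d21_22_6_5.R : ℤ) d21_22_6_5.H n d21_22_6_5.a d21_22_6_5.b
    (BlkD.inB (BlkD.upd (BlkD.upd (BlkD.upd (fun _ => 0) 0 2) 0 3) 1 20)
      (BlkD.upd (BlkD.upd (BlkD.upd (fun _ => 22) 0 6) 2 5) 0 3)) :=
  BlkD.tree_sound (BlkD.pairOk_sound k21_22_6_5) (by decide) hn t21_22_6_5_12 _ _ (by decide +kernel)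

/-- certificates of the pair `(6, 5)`, part 13 -/
def t21_22_6_5_13 : BlkD.Tr :=
  .S 0 4 (.S 1 18 (.S 1 9 (.S 1 4 (.S 1 2 (.L 6 6 [4, 4, 4, 5, 21, 21] [] [] 100000 26191 26191
    1271432 14286 14286 28571 78571 0 21429 10714) (.S 1 3 (.L 6 6 [4, 4, 4, 5, 21, 21] [62, 52,
    42, 30, 0, 0] [] 100000 18162 18162 1338131 20624 8249 79856 68633 17266 10983 20384) (.S 2 2
    (.L 6 6 [4, 4, 4, 5, 21, 21] [86, 76, 66, 56, 44, 0] [] 100000 16768 16768 1301197 10180 34132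
    60479 61677 20359 8982 20359) (.L 6 6 [4, 4, 4, 5, 21, 21] [86, 76, 66, 56, 44, 0] [] 100000
    10313 10313 1359480 13725 8932 59259 58824 27451 14161 27451)))) (.L 6 6 [4, 4, 4, 5, 21, 21]
    [] [] 100000 15377 15377 1299500 4015 1255 94981 85524 36888 11967 31870)) (.E 0)) (.E 0)) (.L
    6 6 [4, 4, 4, 5, 21, 21] [] [] 100000 18791 18791 1332041 0 16990 67961 67961 14624 14381
    16232)

lemma s21_22_6_5_13 {n : ℕ} (hn : 7 ≤ n) : NoNd (d21_22_6_5.R : ℤ) d21_22_6_5.H n d21_22_6_5.a d21_22_6_5.b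
    (BlkD.inB (BlkD.upd (fun _ => 0) 0 4)
      (BlkD.upd (BlkD.upd (BlkD.upd (fun _ => 22) 0 6) 2 5) 0 5)) :=
  BlkD.tree_sound (BlkD.pairOk_sound k21_22_6_5) (by decide) hn t21_22_6_5_13 _ _ (by decide +kernel)

/-- certificates of the pair `(6, 5)`, part 14 -/
def t21_22_6_5_14 : BlkD.Tr :=
  .L 6 6 [4, 4, 4, 5, 21, 21] [] [] 100000 11191 11191 1300000 0 20000 40000 60000 35000 15000
    17143

lemma s21_22_6_5_14 {n : ℕ} (hn : 7 ≤ n) : NoNd (d21_22_6_5.R : ℤ) d21_22_6_5.H n d21_22_6_5.a d21_22_6_5.b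
    (BlkD.inB (BlkD.upd (BlkD.upd (fun _ => 0) 0 4) 0 6)
      (BlkD.upd (BlkD.upd (fun _ => 22) 0 6) 2 5)) :=
  BlkD.tree_sound (BlkD.pairOk_sound k21_22_6_5) (by decide) hn t21_22_6_5_14 _ _ (by decide +kernel)

/-- certificates of the pair `(6, 5)`, part 15 -/
def t21_22_6_5_15 : BlkD.Tr :=
  .E 1

lemma s21_22_6_5_15 {n : ℕ} (hn : 7 ≤ n) : NoNd (d21_22_6_5.R : ℤ) d21_22_6_5.H n d21_22_6_5.a d21_22_6_5.b
    (BlkD.inB (BlkD.upd (fun _ => 0) 2 6)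
      (BlkD.upd (fun _ => 22) 0 6)) :=
  BlkD.tree_sound (BlkD.pairOk_sound k21_22_6_5) (by decide) hn t21_22_6_5_15 _ _ (by decide +kernel)

/-- certificates of the pair `(6, 5)`, part 16 -/
def t21_22_6_5_16 : BlkD.Tr :=
  .E 0

lemma s21_22_6_5_16 {n : ℕ} (hn : 7 ≤ n) : NoNd (d21_22_6_5.R : ℤ) d21_22_6_5.H n d21_22_6_5.a d21_22_6_5.b
    (BlkD.inB (BlkD.upd (fun _ => 0) 0 7)
      (fun _ => 22)) :=
  BlkD.tree_sound (BlkD.pairOk_sound k21_22_6_5) (by decide) hn t21_22_6_5_16 _ _ (by decide +kernel)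

lemma pr21_22_6_5 {n : ℕ} (hn : 7 ≤ n) : NoPr ((21 : ℕ) : ℤ) ((22 : ℕ) : ℤ) n 6 5 :=
  BlkD.of_root (R := d21_22_6_5.R) (H := d21_22_6_5.H) (a := d21_22_6_5.a) (b := d21_22_6_5.b) (q := 5) (by decide) hn
    (BlkD.sp 0 6 (BlkD.sp 2 5 (BlkD.sp 0 3 (BlkD.sp 0 1 (BlkD.sp 0 0 (s21_22_6_5_1 hn) (BlkD.sp 1
      11 (BlkD.sp 1 5 (s21_22_6_5_2 hn) (s21_22_6_5_3 hn)) (s21_22_6_5_4 hn))) (BlkD.sp 0 2
      (BlkD.sp 1 20 (BlkD.sp 1 10 (BlkD.sp 1 5 (s21_22_6_5_5 hn) (s21_22_6_5_6 hn)) (s21_22_6_5_7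
      hn)) (s21_22_6_5_8 hn)) (BlkD.sp 1 19 (BlkD.sp 1 9 (BlkD.sp 1 4 (s21_22_6_5_9 hn)
      (s21_22_6_5_10 hn)) (s21_22_6_5_11 hn)) (s21_22_6_5_12 hn)))) (BlkD.sp 0 5 (s21_22_6_5_13 hn)
      (s21_22_6_5_14 hn))) (s21_22_6_5_15 hn)) (s21_22_6_5_16 hn))

end BlkC

end Pool.Agent.Lib.MP_f04ccf_co
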