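import Pool.Agent.Lib.MP_f04ccf_co.M.BlkT

/-!
MP_f04ccf_co, block certificate, data `R = 21`, `H = 22`, part 4 (generated, helper99:
bd10.cpp, gen2.py).
-/

set_option autoImplicit false
set_option maxRecDepth 100000

namespace Pool.Agent.Lib.MP_f04ccf_co

namespace BlkC

/-- the numbers of the pair `(6, 6)`, `R = 21`, `H = 22` -/
def d21_22_6_6 : BlkD.Pd :=
  ⟨21, 22, 5, 6, 6, 7, 2, 3, 2, 2, 8, 0, 2, 2, 8, 0, [0, 8, 16, 20, 22, 24, 26, 28], [0, 8, 16, 20,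
    22, 24, 26, 28], [⟨1, 1, 1, 4, 8, [0, 4], [0, 4]⟩, ⟨1, 1, 1, 4, 12, [0, 6], [0, 6]⟩, ⟨1, 1, 1,
    4, 16, [0, 8], [0, 8]⟩]⟩

lemma k21_22_6_6 : BlkD.pairOk d21_22_6_6 = true := by decide +kernel

/-- certificates of the pair `(6, 6)`, part 1 -/
def t21_22_6_6_1 : BlkD.Tr :=
  .L 6 6 [4, 4, 4, 21, 21, 21, 21] [] [] 100000 29564 29564 1262034 57437 12696 68077 51028 0 0 0

lemma s21_22_6_6_1 {n : ℕ} (hn : 7 ≤ n) : NoNd (d21_22_6_6.R : ℤ) d21_22_6_6.H n d21_22_6_6.a d21_22_6_6.b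
    (BlkD.inB (fun _ => 0)
      (BlkD.upd (BlkD.upd (BlkD.upd (BlkD.upd (BlkD.upd (fun _ => 22) 0 6) 2 6) 0 3) 0 1) 0 0)) :=
  BlkD.tree_sound (BlkD.pairOk_sound k21_22_6_6) (by decide) hn t21_22_6_6_1 _ _ (by decide +kernel)

/-- certificates of the pair `(6, 6)`, part 2 -/
def t21_22_6_6_2 : BlkD.Tr :=
  .L 6 6 [4, 4, 4, 21, 21, 21, 21] [] [] 100000 29564 29564 1262034 57437 12696 68077 51028 0 0 0

lemma s21_22_6_6_2 {n : ℕ} (hn : 7 ≤ n) : NoNd (d21_22_6_6.R : ℤ) d21_22_6_6.H n d21_22_6_6.a d21_22_6_6.b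
    (BlkD.inB (BlkD.upd (fun _ => 0) 0 1)
      (BlkD.upd (BlkD.upd (BlkD.upd (BlkD.upd (BlkD.upd (BlkD.upd (BlkD.upd (fun _ => 22) 0 6) 2 6) 0 3) 0 1) 1 11) 1 5) 1 2)) :=
  BlkD.tree_sound (BlkD.pairOk_sound k21_22_6_6) (by decide) hn t21_22_6_6_2 _ _ (by decide +kernel)

/-- certificates of the pair `(6, 6)`, part 3 -/
def t21_22_6_6_3 : BlkD.Tr :=
  .S 1 4 (.L 6 6 [4, 4, 4, 21, 21, 21, 21] [] [] 100000 29564 29564 1262034 57437 12696 68077 51028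
    0 0 0) (.L 6 6 [4, 4, 4, 21, 21, 21, 21] [76, 72, 64, 56, 44, 30] [] 100000 29564 29564 1262034
    57437 12696 68077 51028 0 0 0)

lemma s21_22_6_6_3 {n : ℕ} (hn : 7 ≤ n) : NoNd (d21_22_6_6.R : ℤ) d21_22_6_6.H n d21_22_6_6.a d21_22_6_6.b
    (BlkD.inB (BlkD.upd (BlkD.upd (fun _ => 0) 0 1) 1 3)
      (BlkD.upd (BlkD.upd (BlkD.upd (BlkD.upd (BlkD.upd (BlkD.upd (fun _ => 22) 0 6) 2 6) 0 3) 0 1) 1 11) 1 5)) :=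
  BlkD.tree_sound (BlkD.pairOk_sound k21_22_6_6) (by decide) hn t21_22_6_6_3 _ _ (by decide +kernel)

/-- certificates of the pair `(6, 6)`, part 4 -/
def t21_22_6_6_4 : BlkD.Tr :=
  .S 1 6 (.L 6 6 [4, 4, 4, 21, 21, 21, 21] [92, 88, 84, 76, 68, 56] [] 100000 29564 29564 1262034
    57437 12696 68077 51028 0 0 0) (.L 6 6 [4, 4, 4, 21, 21, 21, 21] [108, 106, 102, 98, 90, 82] []
    100000 29564 29564 1262034 57437 12696 68077 51028 0 0 0)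

lemma s21_22_6_6_4 {n : ℕ} (hn : 7 ≤ n) : NoNd (d21_22_6_6.R : ℤ) d21_22_6_6.H n d21_22_6_6.a d21_22_6_6.b
    (BlkD.inB (BlkD.upd (BlkD.upd (fun _ => 0) 0 1) 1 6)
      (BlkD.upd (BlkD.upd (BlkD.upd (BlkD.upd (BlkD.upd (BlkD.upd (BlkD.upd (fun _ => 22) 0 6) 2 6) 0 3) 0 1) 1 11) 1 8) 1 7)) :=
  BlkD.tree_sound (BlkD.pairOk_sound k21_22_6_6) (by decide) hn t21_22_6_6_4 _ _ (by decide +kernel)

/-- certificates of the pair `(6, 6)`, part 5 -/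
def t21_22_6_6_5 : BlkD.Tr :=
  .L 6 6 [4, 4, 4, 21, 21, 21, 21] [126, 124, 122, 118, 114, 106] [] 100000 29564 29564 1262034
    57437 12696 68077 51028 0 0 0

lemma s21_22_6_6_5 {n : ℕ} (hn : 7 ≤ n) : NoNd (d21_22_6_6.R : ℤ) d21_22_6_6.H n d21_22_6_6.a d21_22_6_6.b
    (BlkD.inB (BlkD.upd (BlkD.upd (BlkD.upd (fun _ => 0) 0 1) 1 6) 1 8)
      (BlkD.upd (BlkD.upd (BlkD.upd (BlkD.upd (BlkD.upd (BlkD.upd (fun _ => 22) 0 6) 2 6) 0 3) 0 1) 1 11) 1 8)) :=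
  BlkD.tree_sound (BlkD.pairOk_sound k21_22_6_6) (by decide) hn t21_22_6_6_5 _ _ (by decide +kernel)

/-- certificates of the pair `(6, 6)`, part 6 -/
def t21_22_6_6_6 : BlkD.Tr :=
  .L 6 6 [4, 4, 4, 21, 21, 21, 21] [] [] 100000 29564 29564 1262034 57437 12696 68077 51028 0 0 0

lemma s21_22_6_6_6 {n : ℕ} (hn : 7 ≤ n) : NoNd (d21_22_6_6.R : ℤ) d21_22_6_6.H n d21_22_6_6.a d21_22_6_6.b
    (BlkD.inB (BlkD.upd (BlkD.upd (BlkD.upd (fun _ => 0) 0 1) 1 6) 1 9)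
      (BlkD.upd (BlkD.upd (BlkD.upd (BlkD.upd (BlkD.upd (fun _ => 22) 0 6) 2 6) 0 3) 0 1) 1 11)) :=
  BlkD.tree_sound (BlkD.pairOk_sound k21_22_6_6) (by decide) hn t21_22_6_6_6 _ _ (by decide +kernel)

/-- certificates of the pair `(6, 6)`, part 7 -/
def t21_22_6_6_7 : BlkD.Tr :=
  .L 6 6 [4, 4, 4, 21, 21, 21, 21] [] [] 100000 29564 29564 1262034 57437 12696 68077 51028 0 0 0

lemma s21_22_6_6_7 {n : ℕ} (hn : 7 ≤ n) : NoNd (d21_22_6_6.R : ℤ) d21_22_6_6.H n d21_22_6_6.a d21_22_6_6.b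
    (BlkD.inB (BlkD.upd (BlkD.upd (fun _ => 0) 0 1) 1 12)
      (BlkD.upd (BlkD.upd (BlkD.upd (BlkD.upd (fun _ => 22) 0 6) 2 6) 0 3) 0 1)) :=
  BlkD.tree_sound (BlkD.pairOk_sound k21_22_6_6) (by decide) hn t21_22_6_6_7 _ _ (by decide +kernel)

/-- certificates of the pair `(6, 6)`, part 8 -/
def t21_22_6_6_8 : BlkD.Tr :=
  .L 6 6 [4, 4, 4, 21, 21, 21, 21] [] [] 100000 0 0 1465000 35000 0 65000 65000 5000 5000 25000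

lemma s21_22_6_6_8 {n : ℕ} (hn : 7 ≤ n) : NoNd (d21_22_6_6.R : ℤ) d21_22_6_6.H n d21_22_6_6.a d21_22_6_6.b
    (BlkD.inB (BlkD.upd (fun _ => 0) 0 2)
      (BlkD.upd (BlkD.upd (BlkD.upd (BlkD.upd (BlkD.upd (BlkD.upd (BlkD.upd (fun _ => 22) 0 6) 2 6) 0 3) 0 2) 1 11) 1 5) 1 2)) :=
  BlkD.tree_sound (BlkD.pairOk_sound k21_22_6_6) (by decide) hn t21_22_6_6_8 _ _ (by decide +kernel)

/-- certificates of the pair `(6, 6)`, part 9 -/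
def t21_22_6_6_9 : BlkD.Tr :=
  .L 6 6 [4, 4, 4, 21, 21, 21, 21] [] [] 100000 0 0 1465000 35000 0 65000 65000 5000 5000 25000

lemma s21_22_6_6_9 {n : ℕ} (hn : 7 ≤ n) : NoNd (d21_22_6_6.R : ℤ) d21_22_6_6.H n d21_22_6_6.a d21_22_6_6.b
    (BlkD.inB (BlkD.upd (BlkD.upd (fun _ => 0) 0 2) 1 3)
      (BlkD.upd (BlkD.upd (BlkD.upd (BlkD.upd (BlkD.upd (BlkD.upd (fun _ => 22) 0 6) 2 6) 0 3) 0 2) 1 11) 1 5)) :=
  BlkD.tree_sound (BlkD.pairOk_sound k21_22_6_6) (by decide) hn t21_22_6_6_9 _ _ (by decide +kernel)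

/-- certificates of the pair `(6, 6)`, part 10 -/
def t21_22_6_6_10 : BlkD.Tr :=
  .L 6 6 [4, 4, 4, 21, 21, 21, 21] [] [] 100000 0 0 1465000 35000 0 65000 65000 5000 5000 25000

lemma s21_22_6_6_10 {n : ℕ} (hn : 7 ≤ n) : NoNd (d21_22_6_6.R : ℤ) d21_22_6_6.H n d21_22_6_6.a d21_22_6_6.b
    (BlkD.inB (BlkD.upd (BlkD.upd (fun _ => 0) 0 2) 1 6)
      (BlkD.upd (BlkD.upd (BlkD.upd (BlkD.upd (BlkD.upd (fun _ => 22) 0 6) 2 6) 0 3) 0 2) 1 11)) :=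
  BlkD.tree_sound (BlkD.pairOk_sound k21_22_6_6) (by decide) hn t21_22_6_6_10 _ _ (by decide +kernel)

/-- certificates of the pair `(6, 6)`, part 11 -/
def t21_22_6_6_11 : BlkD.Tr :=
  .L 6 6 [4, 4, 4, 21, 21, 21, 21] [] [] 100000 0 0 1465000 35000 0 65000 65000 5000 5000 25000

lemma s21_22_6_6_11 {n : ℕ} (hn : 7 ≤ n) : NoNd (d21_22_6_6.R : ℤ) d21_22_6_6.H n d21_22_6_6.a d21_22_6_6.b
    (BlkD.inB (BlkD.upd (BlkD.upd (fun _ => 0) 0 2) 1 12)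
      (BlkD.upd (BlkD.upd (BlkD.upd (BlkD.upd (fun _ => 22) 0 6) 2 6) 0 3) 0 2)) :=
  BlkD.tree_sound (BlkD.pairOk_sound k21_22_6_6) (by decide) hn t21_22_6_6_11 _ _ (by decide +kernel)

/-- certificates of the pair `(6, 6)`, part 12 -/
def t21_22_6_6_12 : BlkD.Tr :=
  .L 6 6 [4, 4, 4, 21, 21, 21, 21] [] [] 100000 2 2 1464284 25000 8929 53571 50000 3571 4847 16582

lemma s21_22_6_6_12 {n : ℕ} (hn : 7 ≤ n) : NoNd (d21_22_6_6.R : ℤ) d21_22_6_6.H n d21_22_6_6.a d21_22_6_6.b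
    (BlkD.inB (BlkD.upd (BlkD.upd (fun _ => 0) 0 2) 0 3)
      (BlkD.upd (BlkD.upd (BlkD.upd (BlkD.upd (BlkD.upd (BlkD.upd (fun _ => 22) 0 6) 2 6) 0 3) 1 19) 1 9) 1 4)) :=
  BlkD.tree_sound (BlkD.pairOk_sound k21_22_6_6) (by decide) hn t21_22_6_6_12 _ _ (by decide +kernel)

/-- certificates of the pair `(6, 6)`, part 13 -/
def t21_22_6_6_13 : BlkD.Tr :=
  .S 1 7 (.S 1 6 (.S 1 5 (.L 6 6 [4, 4, 4, 21, 21, 21, 21] [96, 92, 84, 76, 64, 50] [] 100000 2 2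
    1491762 18824 14118 47647 42941 2941 7647 21765) (.L 6 6 [4, 4, 4, 21, 21, 21, 21] [116, 112,
    108, 100, 92, 80] [] 100000 0 0 1462201 15311 15311 67464 63158 957 5263 16268)) (.L 6 6 [4, 4,
    4, 21, 21, 21, 21] [136, 134, 130, 126, 118, 110] [] 100000 0 0 1400002 33333 0 100000 33333 0
    0 33333)) (.E 0)

lemma s21_22_6_6_13 {n : ℕ} (hn : 7 ≤ n) : NoNd (d21_22_6_6.R : ℤ) d21_22_6_6.H n d21_22_6_6.a d21_22_6_6.b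
    (BlkD.inB (BlkD.upd (BlkD.upd (BlkD.upd (fun _ => 0) 0 2) 0 3) 1 5)
      (BlkD.upd (BlkD.upd (BlkD.upd (BlkD.upd (BlkD.upd (fun _ => 22) 0 6) 2 6) 0 3) 1 19) 1 9)) :=
  BlkD.tree_sound (BlkD.pairOk_sound k21_22_6_6) (by decide) hn t21_22_6_6_13 _ _ (by decide +kernel)

/-- certificates of the pair `(6, 6)`, part 14 -/
def t21_22_6_6_14 : BlkD.Tr :=
  .E 0

lemma s21_22_6_6_14 {n : ℕ} (hn : 7 ≤ n) : NoNd (d21_22_6_6.R : ℤ) d21_22_6_6.H n d21_22_6_6.a d21_22_6_6.b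
    (BlkD.inB (BlkD.upd (BlkD.upd (BlkD.upd (fun _ => 0) 0 2) 0 3) 1 10)
      (BlkD.upd (BlkD.upd (BlkD.upd (BlkD.upd (fun _ => 22) 0 6) 2 6) 0 3) 1 19)) :=
  BlkD.tree_sound (BlkD.pairOk_sound k21_22_6_6) (by decide) hn t21_22_6_6_14 _ _ (by decide +kernel)

/-- certificates of the pair `(6, 6)`, part 15 -/
def t21_22_6_6_15 : BlkD.Tr :=
  .E 0

lemma s21_22_6_6_15 {n : ℕ} (hn : 7 ≤ n) : NoNd (d21_22_6_6.R : ℤ) d21_22_6_6.H n d21_22_6_6.a d21_22_6_6.b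
    (BlkD.inB (BlkD.upd (BlkD.upd (BlkD.upd (fun _ => 0) 0 2) 0 3) 1 20)
      (BlkD.upd (BlkD.upd (BlkD.upd (fun _ => 22) 0 6) 2 6) 0 3)) :=
  BlkD.tree_sound (BlkD.pairOk_sound k21_22_6_6) (by decide) hn t21_22_6_6_15 _ _ (by decide +kernel)

/-- certificates of the pair `(6, 6)`, part 16 -/
def t21_22_6_6_16 : BlkD.Tr :=
  .S 0 4 (.S 1 18 (.S 1 9 (.S 1 4 (.L 6 6 [4, 4, 4, 21, 21, 21, 21] [] [] 100000 0 0 1489277 11246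
    19896 57093 40052 4412 10208 10208) (.L 6 6 [4, 4, 4, 21, 21, 21, 21] [] [] 100000 0 0 1472523
    826 25000 50413 67975 24587 7025 24587)) (.E 0)) (.E 0)) (.L 6 6 [4, 4, 4, 21, 21, 21, 21] []
    [] 100000 1 1 1473319 1168 24349 50584 51303 9075 8356 9075)

lemma s21_22_6_6_16 {n : ℕ} (hn : 7 ≤ n) : NoNd (d21_22_6_6.R : ℤ) d21_22_6_6.H n d21_22_6_6.a d21_22_6_6.b
    (BlkD.inB (BlkD.upd (fun _ => 0) 0 4)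
      (BlkD.upd (BlkD.upd (BlkD.upd (fun _ => 22) 0 6) 2 6) 0 5)) :=
  BlkD.tree_sound (BlkD.pairOk_sound k21_22_6_6) (by decide) hn t21_22_6_6_16 _ _ (by decide +kernel)

/-- certificates of the pair `(6, 6)`, part 17 -/
def t21_22_6_6_17 : BlkD.Tr :=
  .L 6 6 [4, 4, 4, 21, 21, 21, 21] [] [] 100000 0 0 1422417 0 25862 51724 51724 12069 6897 6897

lemma s21_22_6_6_17 {n : ℕ} (hn : 7 ≤ n) : NoNd (d21_22_6_6.R : ℤ) d21_22_6_6.H n d21_22_6_6.a d21_22_6_6.b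
    (BlkD.inB (BlkD.upd (BlkD.upd (fun _ => 0) 0 4) 0 6)
      (BlkD.upd (BlkD.upd (fun _ => 22) 0 6) 2 6)) :=
  BlkD.tree_sound (BlkD.pairOk_sound k21_22_6_6) (by decide) hn t21_22_6_6_17 _ _ (by decide +kernel)

/-- certificates of the pair `(6, 6)`, part 18 -/
def t21_22_6_6_18 : BlkD.Tr :=
  .E 1

lemma s21_22_6_6_18 {n : ℕ} (hn : 7 ≤ n) : NoNd (d21_22_6_6.R : ℤ) d21_22_6_6.H n d21_22_6_6.a d21_22_6_6.b
    (BlkD.inB (BlkD.upd (fun _ => 0) 2 7)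
      (BlkD.upd (fun _ => 22) 0 6)) :=
  BlkD.tree_sound (BlkD.pairOk_sound k21_22_6_6) (by decide) hn t21_22_6_6_18 _ _ (by decide +kernel)

/-- certificates of the pair `(6, 6)`, part 19 -/
def t21_22_6_6_19 : BlkD.Tr :=
  .E 0

lemma s21_22_6_6_19 {n : ℕ} (hn : 7 ≤ n) : NoNd (d21_22_6_6.R : ℤ) d21_22_6_6.H n d21_22_6_6.a d21_22_6_6.b
    (BlkD.inB (BlkD.upd (fun _ => 0) 0 7)
      (fun _ => 22)) :=
  BlkD.tree_sound (BlkD.pairOk_sound k21_22_6_6) (by decide) hn t21_22_6_6_19 _ _ (by decide +kernel)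

lemma pr21_22_6_6 {n : ℕ} (hn : 7 ≤ n) : NoPr ((21 : ℕ) : ℤ) ((22 : ℕ) : ℤ) n 6 6 :=
  BlkD.of_root (R := d21_22_6_6.R) (H := d21_22_6_6.H) (a := d21_22_6_6.a) (b := d21_22_6_6.b) (q := 5) (by decide) hn
    (BlkD.sp 0 6 (BlkD.sp 2 6 (BlkD.sp 0 3 (BlkD.sp 0 1 (BlkD.sp 0 0 (s21_22_6_6_1 hn) (BlkD.sp 1
      11 (BlkD.sp 1 5 (BlkD.sp 1 2 (s21_22_6_6_2 hn) (s21_22_6_6_3 hn)) (BlkD.sp 1 8 (BlkD.sp 1 7
      (s21_22_6_6_4 hn) (s21_22_6_6_5 hn)) (s21_22_6_6_6 hn))) (s21_22_6_6_7 hn))) (BlkD.sp 0 2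
      (BlkD.sp 1 11 (BlkD.sp 1 5 (BlkD.sp 1 2 (s21_22_6_6_8 hn) (s21_22_6_6_9 hn)) (s21_22_6_6_10
      hn)) (s21_22_6_6_11 hn)) (BlkD.sp 1 19 (BlkD.sp 1 9 (BlkD.sp 1 4 (s21_22_6_6_12 hn)
      (s21_22_6_6_13 hn)) (s21_22_6_6_14 hn)) (s21_22_6_6_15 hn)))) (BlkD.sp 0 5 (s21_22_6_6_16 hn)
      (s21_22_6_6_17 hn))) (s21_22_6_6_18 hn)) (s21_22_6_6_19 hn))

/-- the numbers of the pair `(7, 0)`, `R = 21`, `H = 22` -/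
def d21_22_7_0 : BlkD.Pd :=
  ⟨21, 22, 5, 7, 0, 12, 0, 1, 0, 4, 4, 0, 0, 4, 4, 0, [0, 4, 8, 12, 16, 20, 24, 28, 32, 36, 40, 44,
    48], [0, 4, 8, 12, 16, 20, 24, 28, 32, 36, 40, 44, 48], [⟨1, 1, 1, 4, 8, [0, 4], [0, 4]⟩]⟩

/-- the certificates of the pair `(7, 0)` -/
def t21_22_7_0 : BlkD.Tr :=
  .S 0 7 (.S 2 0 (.L 4 4 [4] [] [] 100000 0 0 800000 50000 0 50000 50000 0 0 0) (.E 1)) (.E 0)

lemma pr21_22_7_0 {n : ℕ} (hn : 7 ≤ n) : NoPr ((21 : ℕ) : ℤ) ((22 : ℕ) : ℤ) n 7 0 :=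
  BlkD.pair_sound (d := d21_22_7_0) (by decide +kernel) hn (by decide) (tr := t21_22_7_0)
    (by decide +kernel) rfl rfl rfl rfl

/-- the numbers of the pair `(7, 1)`, `R = 21`, `H = 22` -/
def d21_22_7_1 : BlkD.Pd :=
  ⟨21, 22, 5, 7, 1, 11, 1, 1, 2, 2, 6, 0, 0, 4, 4, 0, [0, 6, 12, 18, 24, 30, 34, 36, 38, 40, 42,
    44], [0, 4, 8, 12, 16, 20, 24, 28, 32, 36, 40, 44], [⟨1, 1, 1, 4, 8, [0, 4], [0, 4]⟩, ⟨1, 1, 1,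
    4, 10, [0, 6], [0, 4]⟩]⟩

lemma k21_22_7_1 : BlkD.pairOk d21_22_7_1 = true := by decide +kernel

/-- certificates of the pair `(7, 1)`, part 1 -/
def t21_22_7_1_1 : BlkD.Tr :=
  .L 4 5 [4, 4] [] [] 100000 0 0 950000 50000 0 75000 0 0 0 0

lemma s21_22_7_1_1 {n : ℕ} (hn : 7 ≤ n) : NoNd (d21_22_7_1.R : ℤ) d21_22_7_1.H n d21_22_7_1.a d21_22_7_1.b
    (BlkD.inB (fun _ => 0)
      (BlkD.upd (BlkD.upd (BlkD.upd (BlkD.upd (fun _ => 22) 0 7) 2 1) 0 3) 0 1)) :=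
  BlkD.tree_sound (BlkD.pairOk_sound k21_22_7_1) (by decide) hn t21_22_7_1_1 _ _ (by decide +kernel)

/-- certificates of the pair `(7, 1)`, part 2 -/
def t21_22_7_1_2 : BlkD.Tr :=
  .L 4 5 [4, 4] [] [] 100000 0 0 950000 50000 0 75000 0 0 0 0

lemma s21_22_7_1_2 {n : ℕ} (hn : 7 ≤ n) : NoNd (d21_22_7_1.R : ℤ) d21_22_7_1.H n d21_22_7_1.a d21_22_7_1.b
    (BlkD.inB (BlkD.upd (fun _ => 0) 0 2)
      (BlkD.upd (BlkD.upd (BlkD.upd (fun _ => 22) 0 7) 2 1) 0 3)) :=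
  BlkD.tree_sound (BlkD.pairOk_sound k21_22_7_1) (by decide) hn t21_22_7_1_2 _ _ (by decide +kernel)

/-- certificates of the pair `(7, 1)`, part 3 -/
def t21_22_7_1_3 : BlkD.Tr :=
  .L 4 5 [4, 4] [] [] 100000 0 0 950000 50000 0 75000 0 0 0 0

lemma s21_22_7_1_3 {n : ℕ} (hn : 7 ≤ n) : NoNd (d21_22_7_1.R : ℤ) d21_22_7_1.H n d21_22_7_1.a d21_22_7_1.b
    (BlkD.inB (BlkD.upd (fun _ => 0) 0 4)
      (BlkD.upd (BlkD.upd (fun _ => 22) 0 7) 2 1)) :=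
  BlkD.tree_sound (BlkD.pairOk_sound k21_22_7_1) (by decide) hn t21_22_7_1_3 _ _ (by decide +kernel)

/-- certificates of the pair `(7, 1)`, part 4 -/
def t21_22_7_1_4 : BlkD.Tr :=
  .E 1

lemma s21_22_7_1_4 {n : ℕ} (hn : 7 ≤ n) : NoNd (d21_22_7_1.R : ℤ) d21_22_7_1.H n d21_22_7_1.a d21_22_7_1.b
    (BlkD.inB (BlkD.upd (fun _ => 0) 2 2)
      (BlkD.upd (fun _ => 22) 0 7)) :=
  BlkD.tree_sound (BlkD.pairOk_sound k21_22_7_1) (by decide) hn t21_22_7_1_4 _ _ (by decide +kernel)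

/-- certificates of the pair `(7, 1)`, part 5 -/
def t21_22_7_1_5 : BlkD.Tr :=
  .E 0

lemma s21_22_7_1_5 {n : ℕ} (hn : 7 ≤ n) : NoNd (d21_22_7_1.R : ℤ) d21_22_7_1.H n d21_22_7_1.a d21_22_7_1.b
    (BlkD.inB (BlkD.upd (fun _ => 0) 0 8)
      (fun _ => 22)) :=
  BlkD.tree_sound (BlkD.pairOk_sound k21_22_7_1) (by decide) hn t21_22_7_1_5 _ _ (by decide +kernel)

lemma pr21_22_7_1 {n : ℕ} (hn : 7 ≤ n) : NoPr ((21 : ℕ) : ℤ) ((22 : ℕ) : ℤ) n 7 1 :=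
  BlkD.of_root (R := d21_22_7_1.R) (H := d21_22_7_1.H) (a := d21_22_7_1.a) (b := d21_22_7_1.b) (q := 5) (by decide) hn
    (BlkD.sp 0 7 (BlkD.sp 2 1 (BlkD.sp 0 3 (BlkD.sp 0 1 (s21_22_7_1_1 hn) (s21_22_7_1_2 hn))
      (s21_22_7_1_3 hn)) (s21_22_7_1_4 hn)) (s21_22_7_1_5 hn))

/-- the numbers of the pair `(7, 2)`, `R = 21`, `H = 22` -/
def d21_22_7_2 : BlkD.Pd :=
  ⟨21, 22, 5, 7, 2, 10, 2, 1, 2, 2, 8, 0, 0, 4, 6, 0, [0, 8, 16, 24, 28, 30, 32, 34, 36, 38, 40],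
    [0, 6, 12, 18, 24, 30, 36, 40, 40, 40, 40], [⟨1, 1, 1, 4, 8, [0, 4], [0, 4]⟩, ⟨1, 1, 1, 4, 10,
    [0, 6], [0, 4]⟩, ⟨1, 1, 1, 6, 14, [0, 8], [0, 6]⟩]⟩

lemma k21_22_7_2 : BlkD.pairOk d21_22_7_2 = true := by decide +kernel

/-- certificates of the pair `(7, 2)`, part 1 -/
def t21_22_7_2_1 : BlkD.Tr :=
  .S 0 0 (.L 4 5 [4, 4, 5] [] [] 100000 0 0 1155404 20657 0 55399 10329 11268 33333 33333) (.L 4 5
    [4, 4, 5] [] [] 100000 0 0 1155404 20657 0 55399 10329 11268 33333 33333)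

lemma s21_22_7_2_1 {n : ℕ} (hn : 7 ≤ n) : NoNd (d21_22_7_2.R : ℤ) d21_22_7_2.H n d21_22_7_2.a d21_22_7_2.b
    (BlkD.inB (fun _ => 0)
      (BlkD.upd (BlkD.upd (BlkD.upd (BlkD.upd (fun _ => 22) 0 7) 2 2) 0 3) 0 1)) :=
  BlkD.tree_sound (BlkD.pairOk_sound k21_22_7_2) (by decide) hn t21_22_7_2_1 _ _ (by decide +kernel)

/-- certificates of the pair `(7, 2)`, part 2 -/
def t21_22_7_2_2 : BlkD.Tr :=
  .L 4 5 [4, 4, 5] [] [] 100000 0 0 1155404 20657 0 55399 10329 11268 33333 33333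

lemma s21_22_7_2_2 {n : ℕ} (hn : 7 ≤ n) : NoNd (d21_22_7_2.R : ℤ) d21_22_7_2.H n d21_22_7_2.a d21_22_7_2.b
    (BlkD.inB (BlkD.upd (fun _ => 0) 0 2)
      (BlkD.upd (BlkD.upd (BlkD.upd (BlkD.upd (fun _ => 22) 0 7) 2 2) 0 3) 0 2)) :=
  BlkD.tree_sound (BlkD.pairOk_sound k21_22_7_2) (by decide) hn t21_22_7_2_2 _ _ (by decide +kernel)

/-- certificates of the pair `(7, 2)`, part 3 -/
def t21_22_7_2_3 : BlkD.Tr :=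
  .L 4 5 [4, 4, 5] [] [] 100000 0 0 1155404 20657 0 55399 10329 11268 33333 33333

lemma s21_22_7_2_3 {n : ℕ} (hn : 7 ≤ n) : NoNd (d21_22_7_2.R : ℤ) d21_22_7_2.H n d21_22_7_2.a d21_22_7_2.b
    (BlkD.inB (BlkD.upd (BlkD.upd (fun _ => 0) 0 2) 0 3)
      (BlkD.upd (BlkD.upd (BlkD.upd (fun _ => 22) 0 7) 2 2) 0 3)) :=
  BlkD.tree_sound (BlkD.pairOk_sound k21_22_7_2) (by decide) hn t21_22_7_2_3 _ _ (by decide +kernel)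

/-- certificates of the pair `(7, 2)`, part 4 -/
def t21_22_7_2_4 : BlkD.Tr :=
  .L 4 5 [4, 4, 5] [] [] 100000 0 0 1155404 20657 0 55399 10329 11268 33333 33333

lemma s21_22_7_2_4 {n : ℕ} (hn : 7 ≤ n) : NoNd (d21_22_7_2.R : ℤ) d21_22_7_2.H n d21_22_7_2.a d21_22_7_2.b
    (BlkD.inB (BlkD.upd (fun _ => 0) 0 4)
      (BlkD.upd (BlkD.upd (fun _ => 22) 0 7) 2 2)) :=
  BlkD.tree_sound (BlkD.pairOk_sound k21_22_7_2) (by decide) hn t21_22_7_2_4 _ _ (by decide +kernel)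

/-- certificates of the pair `(7, 2)`, part 5 -/
def t21_22_7_2_5 : BlkD.Tr :=
  .E 1

lemma s21_22_7_2_5 {n : ℕ} (hn : 7 ≤ n) : NoNd (d21_22_7_2.R : ℤ) d21_22_7_2.H n d21_22_7_2.a d21_22_7_2.b
    (BlkD.inB (BlkD.upd (fun _ => 0) 2 3)
      (BlkD.upd (fun _ => 22) 0 7)) :=
  BlkD.tree_sound (BlkD.pairOk_sound k21_22_7_2) (by decide) hn t21_22_7_2_5 _ _ (by decide +kernel)

/-- certificates of the pair `(7, 2)`, part 6 -/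
def t21_22_7_2_6 : BlkD.Tr :=
  .E 0

lemma s21_22_7_2_6 {n : ℕ} (hn : 7 ≤ n) : NoNd (d21_22_7_2.R : ℤ) d21_22_7_2.H n d21_22_7_2.a d21_22_7_2.b
    (BlkD.inB (BlkD.upd (fun _ => 0) 0 8)
      (fun _ => 22)) :=
  BlkD.tree_sound (BlkD.pairOk_sound k21_22_7_2) (by decide) hn t21_22_7_2_6 _ _ (by decide +kernel)

lemma pr21_22_7_2 {n : ℕ} (hn : 7 ≤ n) : NoPr ((21 : ℕ) : ℤ) ((22 : ℕ) : ℤ) n 7 2 :=
  BlkD.of_root (R := d21_22_7_2.R) (H := d21_22_7_2.H) (a := d21_22_7_2.a) (b := d21_22_7_2.b) (q := 5) (by decide) hn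
    (BlkD.sp 0 7 (BlkD.sp 2 2 (BlkD.sp 0 3 (BlkD.sp 0 1 (s21_22_7_2_1 hn) (BlkD.sp 0 2
      (s21_22_7_2_2 hn) (s21_22_7_2_3 hn))) (s21_22_7_2_4 hn)) (s21_22_7_2_5 hn)) (s21_22_7_2_6
      hn))

end BlkC

end Pool.Agent.Lib.MP_f04ccf_co
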