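import Pool.Agent.Lib.MP_f04ccf_co.M.BlkT

/-!
MP_f04ccf_co, block certificate, data `R = 21`, `H = 22`, part 6 (generated, helper99:
bd10.cpp, gen2.py).
-/

set_option autoImplicit false
set_option maxRecDepth 100000

namespace Pool.Agent.Lib.MP_f04ccf_co

namespace BlkC

/-- the numbers of the pair `(7, 5)`, `R = 21`, `H = 22` -/
def d21_22_7_5 : BlkD.Pd :=
  ⟨21, 22, 5, 7, 5, 7, 2, 3, 2, 2, 8, 0, 2, 2, 8, 0, [0, 8, 16, 20, 22, 24, 26, 28], [0, 8, 16, 20,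
    22, 24, 26, 28], [⟨1, 1, 1, 4, 8, [0, 4], [0, 4]⟩, ⟨1, 1, 1, 4, 12, [0, 6], [0, 6]⟩, ⟨1, 1, 1,
    4, 16, [0, 8], [0, 8]⟩]⟩

lemma k21_22_7_5 : BlkD.pairOk d21_22_7_5 = true := by decide +kernel

/-- certificates of the pair `(7, 5)`, part 1 -/
def t21_22_7_5_1 : BlkD.Tr :=
  .L 6 7 [4, 4, 4, 21, 21, 21] [] [] 100000 50000 50000 1000000 100000 0 100000 50000 0 0 0

lemma s21_22_7_5_1 {n : ℕ} (hn : 7 ≤ n) : NoNd (d21_22_7_5.R : ℤ) d21_22_7_5.H n d21_22_7_5.a d21_22_7_5.b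
    (BlkD.inB (fun _ => 0)
      (BlkD.upd (BlkD.upd (BlkD.upd (BlkD.upd (BlkD.upd (fun _ => 22) 0 7) 2 5) 0 3) 0 1) 0 0)) :=
  BlkD.tree_sound (BlkD.pairOk_sound k21_22_7_5) (by decide) hn t21_22_7_5_1 _ _ (by decide +kernel)

/-- certificates of the pair `(7, 5)`, part 2 -/
def t21_22_7_5_2 : BlkD.Tr :=
  .L 6 7 [4, 4, 4, 21, 21, 21] [] [] 100000 50000 50000 1000000 100000 0 100000 50000 0 0 0

lemma s21_22_7_5_2 {n : ℕ} (hn : 7 ≤ n) : NoNd (d21_22_7_5.R : ℤ) d21_22_7_5.H n d21_22_7_5.a d21_22_7_5.b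
    (BlkD.inB (BlkD.upd (fun _ => 0) 0 1)
      (BlkD.upd (BlkD.upd (BlkD.upd (BlkD.upd (BlkD.upd (BlkD.upd (BlkD.upd (fun _ => 22) 0 7) 2 5) 0 3) 0 1) 1 11) 1 5) 1 2)) :=
  BlkD.tree_sound (BlkD.pairOk_sound k21_22_7_5) (by decide) hn t21_22_7_5_2 _ _ (by decide +kernel)

/-- certificates of the pair `(7, 5)`, part 3 -/
def t21_22_7_5_3 : BlkD.Tr :=
  .S 1 4 (.L 6 7 [4, 4, 4, 21, 21, 21] [] [] 100000 50000 50000 1000000 100000 0 100000 50000 0 0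
    0) (.L 6 7 [4, 4, 4, 21, 21, 21] [76, 72, 64, 56, 44, 30] [] 100000 50000 50000 1000000 100000
    0 100000 50000 0 0 0)

lemma s21_22_7_5_3 {n : ℕ} (hn : 7 ≤ n) : NoNd (d21_22_7_5.R : ℤ) d21_22_7_5.H n d21_22_7_5.a d21_22_7_5.b
    (BlkD.inB (BlkD.upd (BlkD.upd (fun _ => 0) 0 1) 1 3)
      (BlkD.upd (BlkD.upd (BlkD.upd (BlkD.upd (BlkD.upd (BlkD.upd (fun _ => 22) 0 7) 2 5) 0 3) 0 1) 1 11) 1 5)) :=
  BlkD.tree_sound (BlkD.pairOk_sound k21_22_7_5) (by decide) hn t21_22_7_5_3 _ _ (by decide +kernel)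

/-- certificates of the pair `(7, 5)`, part 4 -/
def t21_22_7_5_4 : BlkD.Tr :=
  .L 6 7 [4, 4, 4, 21, 21, 21] [] [] 100000 50000 50000 1000000 100000 0 100000 50000 0 0 0

lemma s21_22_7_5_4 {n : ℕ} (hn : 7 ≤ n) : NoNd (d21_22_7_5.R : ℤ) d21_22_7_5.H n d21_22_7_5.a d21_22_7_5.b
    (BlkD.inB (BlkD.upd (BlkD.upd (fun _ => 0) 0 1) 1 6)
      (BlkD.upd (BlkD.upd (BlkD.upd (BlkD.upd (BlkD.upd (BlkD.upd (BlkD.upd (fun _ => 22) 0 7) 2 5) 0 3) 0 1) 1 11) 1 8) 1 7)) :=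
  BlkD.tree_sound (BlkD.pairOk_sound k21_22_7_5) (by decide) hn t21_22_7_5_4 _ _ (by decide +kernel)

/-- certificates of the pair `(7, 5)`, part 5 -/
def t21_22_7_5_5 : BlkD.Tr :=
  .L 6 7 [4, 4, 4, 21, 21, 21] [126, 124, 122, 118, 114, 106] [] 100000 50000 50000 1000000 100000
    0 100000 50000 0 0 0

lemma s21_22_7_5_5 {n : ℕ} (hn : 7 ≤ n) : NoNd (d21_22_7_5.R : ℤ) d21_22_7_5.H n d21_22_7_5.a d21_22_7_5.b
    (BlkD.inB (BlkD.upd (BlkD.upd (BlkD.upd (fun _ => 0) 0 1) 1 6) 1 8)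
      (BlkD.upd (BlkD.upd (BlkD.upd (BlkD.upd (BlkD.upd (BlkD.upd (fun _ => 22) 0 7) 2 5) 0 3) 0 1) 1 11) 1 8)) :=
  BlkD.tree_sound (BlkD.pairOk_sound k21_22_7_5) (by decide) hn t21_22_7_5_5 _ _ (by decide +kernel)

/-- certificates of the pair `(7, 5)`, part 6 -/
def t21_22_7_5_6 : BlkD.Tr :=
  .L 6 7 [4, 4, 4, 21, 21, 21] [] [] 100000 50000 50000 1000000 100000 0 100000 50000 0 0 0

lemma s21_22_7_5_6 {n : ℕ} (hn : 7 ≤ n) : NoNd (d21_22_7_5.R : ℤ) d21_22_7_5.H n d21_22_7_5.a d21_22_7_5.b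
    (BlkD.inB (BlkD.upd (BlkD.upd (BlkD.upd (fun _ => 0) 0 1) 1 6) 1 9)
      (BlkD.upd (BlkD.upd (BlkD.upd (BlkD.upd (BlkD.upd (fun _ => 22) 0 7) 2 5) 0 3) 0 1) 1 11)) :=
  BlkD.tree_sound (BlkD.pairOk_sound k21_22_7_5) (by decide) hn t21_22_7_5_6 _ _ (by decide +kernel)

/-- certificates of the pair `(7, 5)`, part 7 -/
def t21_22_7_5_7 : BlkD.Tr :=
  .L 6 7 [4, 4, 4, 21, 21, 21] [] [] 100000 50000 50000 1000000 100000 0 100000 50000 0 0 0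

lemma s21_22_7_5_7 {n : ℕ} (hn : 7 ≤ n) : NoNd (d21_22_7_5.R : ℤ) d21_22_7_5.H n d21_22_7_5.a d21_22_7_5.b
    (BlkD.inB (BlkD.upd (BlkD.upd (fun _ => 0) 0 1) 1 12)
      (BlkD.upd (BlkD.upd (BlkD.upd (BlkD.upd (fun _ => 22) 0 7) 2 5) 0 3) 0 1)) :=
  BlkD.tree_sound (BlkD.pairOk_sound k21_22_7_5) (by decide) hn t21_22_7_5_7 _ _ (by decide +kernel)

/-- certificates of the pair `(7, 5)`, part 8 -/
def t21_22_7_5_8 : BlkD.Tr :=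
  .S 1 2 (.L 6 7 [4, 4, 4, 21, 21, 21] [] [] 100000 30357 30357 1350002 50000 0 75000 35714 0 14286
    14286) (.L 6 7 [4, 4, 4, 21, 21, 21] [] [] 100000 30357 30357 1350002 50000 0 75000 35714 0
    14286 14286)

lemma s21_22_7_5_8 {n : ℕ} (hn : 7 ≤ n) : NoNd (d21_22_7_5.R : ℤ) d21_22_7_5.H n d21_22_7_5.a d21_22_7_5.b
    (BlkD.inB (BlkD.upd (fun _ => 0) 0 2)
      (BlkD.upd (BlkD.upd (BlkD.upd (BlkD.upd (BlkD.upd (BlkD.upd (fun _ => 22) 0 7) 2 5) 0 3) 0 2) 1 11) 1 5)) :=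
  BlkD.tree_sound (BlkD.pairOk_sound k21_22_7_5) (by decide) hn t21_22_7_5_8 _ _ (by decide +kernel)

/-- certificates of the pair `(7, 5)`, part 9 -/
def t21_22_7_5_9 : BlkD.Tr :=
  .L 6 7 [4, 4, 4, 21, 21, 21] [] [] 100000 30357 30357 1350002 50000 0 75000 35714 0 14286 14286

lemma s21_22_7_5_9 {n : ℕ} (hn : 7 ≤ n) : NoNd (d21_22_7_5.R : ℤ) d21_22_7_5.H n d21_22_7_5.a d21_22_7_5.b
    (BlkD.inB (BlkD.upd (BlkD.upd (fun _ => 0) 0 2) 1 6)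
      (BlkD.upd (BlkD.upd (BlkD.upd (BlkD.upd (BlkD.upd (BlkD.upd (BlkD.upd (fun _ => 22) 0 7) 2 5) 0 3) 0 2) 1 11) 1 8) 1 7)) :=
  BlkD.tree_sound (BlkD.pairOk_sound k21_22_7_5) (by decide) hn t21_22_7_5_9 _ _ (by decide +kernel)

/-- certificates of the pair `(7, 5)`, part 10 -/
def t21_22_7_5_10 : BlkD.Tr :=
  .L 6 7 [4, 4, 4, 21, 21, 21] [142, 140, 138, 134, 130, 122] [] 100000 30357 30357 1350002 50000 0
    75000 35714 0 14286 14286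

lemma s21_22_7_5_10 {n : ℕ} (hn : 7 ≤ n) : NoNd (d21_22_7_5.R : ℤ) d21_22_7_5.H n d21_22_7_5.a d21_22_7_5.b
    (BlkD.inB (BlkD.upd (BlkD.upd (BlkD.upd (fun _ => 0) 0 2) 1 6) 1 8)
      (BlkD.upd (BlkD.upd (BlkD.upd (BlkD.upd (BlkD.upd (BlkD.upd (fun _ => 22) 0 7) 2 5) 0 3) 0 2) 1 11) 1 8)) :=
  BlkD.tree_sound (BlkD.pairOk_sound k21_22_7_5) (by decide) hn t21_22_7_5_10 _ _ (by decide +kernel)

/-- certificates of the pair `(7, 5)`, part 11 -/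
def t21_22_7_5_11 : BlkD.Tr :=
  .L 6 7 [4, 4, 4, 21, 21, 21] [] [] 100000 30357 30357 1350002 50000 0 75000 35714 0 14286 14286

lemma s21_22_7_5_11 {n : ℕ} (hn : 7 ≤ n) : NoNd (d21_22_7_5.R : ℤ) d21_22_7_5.H n d21_22_7_5.a d21_22_7_5.b
    (BlkD.inB (BlkD.upd (BlkD.upd (BlkD.upd (fun _ => 0) 0 2) 1 6) 1 9)
      (BlkD.upd (BlkD.upd (BlkD.upd (BlkD.upd (BlkD.upd (fun _ => 22) 0 7) 2 5) 0 3) 0 2) 1 11)) :=
  BlkD.tree_sound (BlkD.pairOk_sound k21_22_7_5) (by decide) hn t21_22_7_5_11 _ _ (by decide +kernel)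

/-- certificates of the pair `(7, 5)`, part 12 -/
def t21_22_7_5_12 : BlkD.Tr :=
  .L 6 7 [4, 4, 4, 21, 21, 21] [] [] 100000 30357 30357 1350002 50000 0 75000 35714 0 14286 14286

lemma s21_22_7_5_12 {n : ℕ} (hn : 7 ≤ n) : NoNd (d21_22_7_5.R : ℤ) d21_22_7_5.H n d21_22_7_5.a d21_22_7_5.b
    (BlkD.inB (BlkD.upd (BlkD.upd (fun _ => 0) 0 2) 1 12)
      (BlkD.upd (BlkD.upd (BlkD.upd (BlkD.upd (fun _ => 22) 0 7) 2 5) 0 3) 0 2)) :=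
  BlkD.tree_sound (BlkD.pairOk_sound k21_22_7_5) (by decide) hn t21_22_7_5_12 _ _ (by decide +kernel)

/-- certificates of the pair `(7, 5)`, part 13 -/
def t21_22_7_5_13 : BlkD.Tr :=
  .L 6 7 [4, 4, 4, 21, 21, 21] [] [] 100000 10001 10001 1353333 32593 8148 40741 48889 0 0 12593

lemma s21_22_7_5_13 {n : ℕ} (hn : 7 ≤ n) : NoNd (d21_22_7_5.R : ℤ) d21_22_7_5.H n d21_22_7_5.a d21_22_7_5.b
    (BlkD.inB (BlkD.upd (BlkD.upd (fun _ => 0) 0 2) 0 3)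
      (BlkD.upd (BlkD.upd (BlkD.upd (BlkD.upd (BlkD.upd (BlkD.upd (fun _ => 22) 0 7) 2 5) 0 3) 1 19) 1 9) 1 4)) :=
  BlkD.tree_sound (BlkD.pairOk_sound k21_22_7_5) (by decide) hn t21_22_7_5_13 _ _ (by decide +kernel)

/-- certificates of the pair `(7, 5)`, part 14 -/
def t21_22_7_5_14 : BlkD.Tr :=
  .S 1 6 (.L 6 7 [4, 4, 4, 21, 21, 21] [] [] 100000 2 2 1484810 23199 5599 67113 35200 2386 11100
    11100) (.L 6 7 [4, 4, 4, 21, 21, 21] [136, 134, 130, 126, 118, 110] [] 100000 1564 1564 1464286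
    33929 0 66964 50000 0 14286 16518)

lemma s21_22_7_5_14 {n : ℕ} (hn : 7 ≤ n) : NoNd (d21_22_7_5.R : ℤ) d21_22_7_5.H n d21_22_7_5.a d21_22_7_5.b
    (BlkD.inB (BlkD.upd (BlkD.upd (BlkD.upd (fun _ => 0) 0 2) 0 3) 1 5)
      (BlkD.upd (BlkD.upd (BlkD.upd (BlkD.upd (BlkD.upd (BlkD.upd (fun _ => 22) 0 7) 2 5) 0 3) 1 19) 1 9) 1 7)) :=
  BlkD.tree_sound (BlkD.pairOk_sound k21_22_7_5) (by decide) hn t21_22_7_5_14 _ _ (by decide +kernel)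

/-- certificates of the pair `(7, 5)`, part 15 -/
def t21_22_7_5_15 : BlkD.Tr :=
  .L 6 7 [4, 4, 4, 21, 21, 21] [] [] 100000 0 0 1488890 22222 0 77778 44444 0 11111 11111

lemma s21_22_7_5_15 {n : ℕ} (hn : 7 ≤ n) : NoNd (d21_22_7_5.R : ℤ) d21_22_7_5.H n d21_22_7_5.a d21_22_7_5.b
    (BlkD.inB (BlkD.upd (BlkD.upd (BlkD.upd (BlkD.upd (fun _ => 0) 0 2) 0 3) 1 5) 1 8)
      (BlkD.upd (BlkD.upd (BlkD.upd (BlkD.upd (BlkD.upd (fun _ => 22) 0 7) 2 5) 0 3) 1 19) 1 9)) :=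
  BlkD.tree_sound (BlkD.pairOk_sound k21_22_7_5) (by decide) hn t21_22_7_5_15 _ _ (by decide +kernel)

/-- certificates of the pair `(7, 5)`, part 16 -/
def t21_22_7_5_16 : BlkD.Tr :=
  .E 0

lemma s21_22_7_5_16 {n : ℕ} (hn : 7 ≤ n) : NoNd (d21_22_7_5.R : ℤ) d21_22_7_5.H n d21_22_7_5.a d21_22_7_5.b
    (BlkD.inB (BlkD.upd (BlkD.upd (BlkD.upd (fun _ => 0) 0 2) 0 3) 1 10)
      (BlkD.upd (BlkD.upd (BlkD.upd (BlkD.upd (fun _ => 22) 0 7) 2 5) 0 3) 1 19)) :=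
  BlkD.tree_sound (BlkD.pairOk_sound k21_22_7_5) (by decide) hn t21_22_7_5_16 _ _ (by decide +kernel)

/-- certificates of the pair `(7, 5)`, part 17 -/
def t21_22_7_5_17 : BlkD.Tr :=
  .E 0

lemma s21_22_7_5_17 {n : ℕ} (hn : 7 ≤ n) : NoNd (d21_22_7_5.R : ℤ) d21_22_7_5.H n d21_22_7_5.a d21_22_7_5.b
    (BlkD.inB (BlkD.upd (BlkD.upd (BlkD.upd (fun _ => 0) 0 2) 0 3) 1 20)
      (BlkD.upd (BlkD.upd (BlkD.upd (fun _ => 22) 0 7) 2 5) 0 3)) :=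
  BlkD.tree_sound (BlkD.pairOk_sound k21_22_7_5) (by decide) hn t21_22_7_5_17 _ _ (by decide +kernel)

/-- certificates of the pair `(7, 5)`, part 18 -/
def t21_22_7_5_18 : BlkD.Tr :=
  .L 6 7 [4, 4, 4, 21, 21, 21] [] [] 100000 1 1 1436363 27273 9091 54545 45455 0 0 27273

lemma s21_22_7_5_18 {n : ℕ} (hn : 7 ≤ n) : NoNd (d21_22_7_5.R : ℤ) d21_22_7_5.H n d21_22_7_5.a d21_22_7_5.b
    (BlkD.inB (BlkD.upd (fun _ => 0) 0 4)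
      (BlkD.upd (BlkD.upd (BlkD.upd (BlkD.upd (BlkD.upd (BlkD.upd (BlkD.upd (fun _ => 22) 0 7) 2 5) 0 5) 0 4) 1 18) 1 9) 1 4)) :=
  BlkD.tree_sound (BlkD.pairOk_sound k21_22_7_5) (by decide) hn t21_22_7_5_18 _ _ (by decide +kernel)

/-- certificates of the pair `(7, 5)`, part 19 -/
def t21_22_7_5_19 : BlkD.Tr :=
  .S 1 7 (.S 1 6 (.S 1 5 (.L 6 7 [4, 4, 4, 21, 21, 21] [106, 102, 94, 86, 74, 60] [] 100000 1 1
    1489084 27074 7424 56987 34061 6550 2402 18122) (.L 6 7 [4, 4, 4, 21, 21, 21] [128, 124, 120,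
    112, 104, 92] [] 100000 0 0 1464586 25000 8333 68750 45833 0 10417 14583)) (.L 6 7 [4, 4, 4,
    21, 21, 21] [150, 148, 144, 140, 132, 124] [] 100000 25000 25000 1350000 50000 0 100000 50000 0
    0 0)) (.L 6 7 [4, 4, 4, 21, 21, 21] [] [] 100000 35716 2 1150000 21429 0 135714 100000 0 0 0)

lemma s21_22_7_5_19 {n : ℕ} (hn : 7 ≤ n) : NoNd (d21_22_7_5.R : ℤ) d21_22_7_5.H n d21_22_7_5.a d21_22_7_5.b
    (BlkD.inB (BlkD.upd (BlkD.upd (fun _ => 0) 0 4) 1 5)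
      (BlkD.upd (BlkD.upd (BlkD.upd (BlkD.upd (BlkD.upd (BlkD.upd (fun _ => 22) 0 7) 2 5) 0 5) 0 4) 1 18) 1 9)) :=
  BlkD.tree_sound (BlkD.pairOk_sound k21_22_7_5) (by decide) hn t21_22_7_5_19 _ _ (by decide +kernel)

/-- certificates of the pair `(7, 5)`, part 20 -/
def t21_22_7_5_20 : BlkD.Tr :=
  .E 0

lemma s21_22_7_5_20 {n : ℕ} (hn : 7 ≤ n) : NoNd (d21_22_7_5.R : ℤ) d21_22_7_5.H n d21_22_7_5.a d21_22_7_5.b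
    (BlkD.inB (BlkD.upd (BlkD.upd (fun _ => 0) 0 4) 1 10)
      (BlkD.upd (BlkD.upd (BlkD.upd (BlkD.upd (BlkD.upd (fun _ => 22) 0 7) 2 5) 0 5) 0 4) 1 18)) :=
  BlkD.tree_sound (BlkD.pairOk_sound k21_22_7_5) (by decide) hn t21_22_7_5_20 _ _ (by decide +kernel)

/-- certificates of the pair `(7, 5)`, part 21 -/
def t21_22_7_5_21 : BlkD.Tr :=
  .E 0

lemma s21_22_7_5_21 {n : ℕ} (hn : 7 ≤ n) : NoNd (d21_22_7_5.R : ℤ) d21_22_7_5.H n d21_22_7_5.a d21_22_7_5.b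
    (BlkD.inB (BlkD.upd (BlkD.upd (fun _ => 0) 0 4) 1 19)
      (BlkD.upd (BlkD.upd (BlkD.upd (BlkD.upd (fun _ => 22) 0 7) 2 5) 0 5) 0 4)) :=
  BlkD.tree_sound (BlkD.pairOk_sound k21_22_7_5) (by decide) hn t21_22_7_5_21 _ _ (by decide +kernel)

/-- certificates of the pair `(7, 5)`, part 22 -/
def t21_22_7_5_22 : BlkD.Tr :=
  .S 1 17 (.S 1 8 (.S 1 4 (.L 6 7 [4, 4, 4, 21, 21, 21] [] [] 100000 0 0 1460024 23125 13326 72569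
    47476 6607 8575 8575) (.S 1 6 (.L 6 7 [4, 4, 4, 21, 21, 21] [] [] 100000 0 0 1494113 25736 1472
    70679 50000 11780 6722 11780) (.E 0))) (.E 0)) (.E 0)

lemma s21_22_7_5_22 {n : ℕ} (hn : 7 ≤ n) : NoNd (d21_22_7_5.R : ℤ) d21_22_7_5.H n d21_22_7_5.a d21_22_7_5.b
    (BlkD.inB (BlkD.upd (BlkD.upd (fun _ => 0) 0 4) 0 5)
      (BlkD.upd (BlkD.upd (BlkD.upd (fun _ => 22) 0 7) 2 5) 0 5)) :=
  BlkD.tree_sound (BlkD.pairOk_sound k21_22_7_5) (by decide) hn t21_22_7_5_22 _ _ (by decide +kernel)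

/-- certificates of the pair `(7, 5)`, part 23 -/
def t21_22_7_5_23 : BlkD.Tr :=
  .L 6 7 [4, 4, 4, 21, 21, 21] [] [] 100000 0 0 1488361 5821 15696 50000 50000 9979 9979 9979

lemma s21_22_7_5_23 {n : ℕ} (hn : 7 ≤ n) : NoNd (d21_22_7_5.R : ℤ) d21_22_7_5.H n d21_22_7_5.a d21_22_7_5.b
    (BlkD.inB (BlkD.upd (BlkD.upd (fun _ => 0) 0 4) 0 6)
      (BlkD.upd (BlkD.upd (fun _ => 22) 0 7) 2 5)) :=
  BlkD.tree_sound (BlkD.pairOk_sound k21_22_7_5) (by decide) hn t21_22_7_5_23 _ _ (by decide +kernel)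

/-- certificates of the pair `(7, 5)`, part 24 -/
def t21_22_7_5_24 : BlkD.Tr :=
  .E 1

lemma s21_22_7_5_24 {n : ℕ} (hn : 7 ≤ n) : NoNd (d21_22_7_5.R : ℤ) d21_22_7_5.H n d21_22_7_5.a d21_22_7_5.b
    (BlkD.inB (BlkD.upd (fun _ => 0) 2 6)
      (BlkD.upd (fun _ => 22) 0 7)) :=
  BlkD.tree_sound (BlkD.pairOk_sound k21_22_7_5) (by decide) hn t21_22_7_5_24 _ _ (by decide +kernel)

/-- certificates of the pair `(7, 5)`, part 25 -/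
def t21_22_7_5_25 : BlkD.Tr :=
  .E 0

lemma s21_22_7_5_25 {n : ℕ} (hn : 7 ≤ n) : NoNd (d21_22_7_5.R : ℤ) d21_22_7_5.H n d21_22_7_5.a d21_22_7_5.b
    (BlkD.inB (BlkD.upd (fun _ => 0) 0 8)
      (fun _ => 22)) :=
  BlkD.tree_sound (BlkD.pairOk_sound k21_22_7_5) (by decide) hn t21_22_7_5_25 _ _ (by decide +kernel)

lemma pr21_22_7_5 {n : ℕ} (hn : 7 ≤ n) : NoPr ((21 : ℕ) : ℤ) ((22 : ℕ) : ℤ) n 7 5 :=
  BlkD.of_root (R := d21_22_7_5.R) (H := d21_22_7_5.H) (a := d21_22_7_5.a) (b := d21_22_7_5.b) (q := 5) (by decide) hn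
    (BlkD.sp 0 7 (BlkD.sp 2 5 (BlkD.sp 0 3 (BlkD.sp 0 1 (BlkD.sp 0 0 (s21_22_7_5_1 hn) (BlkD.sp 1
      11 (BlkD.sp 1 5 (BlkD.sp 1 2 (s21_22_7_5_2 hn) (s21_22_7_5_3 hn)) (BlkD.sp 1 8 (BlkD.sp 1 7
      (s21_22_7_5_4 hn) (s21_22_7_5_5 hn)) (s21_22_7_5_6 hn))) (s21_22_7_5_7 hn))) (BlkD.sp 0 2
      (BlkD.sp 1 11 (BlkD.sp 1 5 (s21_22_7_5_8 hn) (BlkD.sp 1 8 (BlkD.sp 1 7 (s21_22_7_5_9 hn)
      (s21_22_7_5_10 hn)) (s21_22_7_5_11 hn))) (s21_22_7_5_12 hn)) (BlkD.sp 1 19 (BlkD.sp 1 9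
      (BlkD.sp 1 4 (s21_22_7_5_13 hn) (BlkD.sp 1 7 (s21_22_7_5_14 hn) (s21_22_7_5_15 hn)))
      (s21_22_7_5_16 hn)) (s21_22_7_5_17 hn)))) (BlkD.sp 0 5 (BlkD.sp 0 4 (BlkD.sp 1 18 (BlkD.sp 1
      9 (BlkD.sp 1 4 (s21_22_7_5_18 hn) (s21_22_7_5_19 hn)) (s21_22_7_5_20 hn)) (s21_22_7_5_21 hn))
      (s21_22_7_5_22 hn)) (s21_22_7_5_23 hn))) (s21_22_7_5_24 hn)) (s21_22_7_5_25 hn))

end BlkC

end Pool.Agent.Lib.MP_f04ccf_co
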