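import Pool.Agent.Lib.MP_f04ccf_co.M.BlkT

/-!
MP_f04ccf_co, block certificate, data `R = 21`, `H = 22`, part 7 (generated, helper99:
bd10.cpp, gen2.py).
-/

set_option autoImplicit false
set_option maxRecDepth 100000

namespace Pool.Agent.Lib.MP_f04ccf_co

namespace BlkC

/-- the numbers of the pair `(7, 6)`, `R = 21`, `H = 22` -/
def d21_22_7_6 : BlkD.Pd :=
  ⟨21, 22, 5, 7, 6, 6, 1, 3, 2, 2, 6, 0, 2, 2, 6, 0, [0, 6, 12, 18, 20, 22, 24], [0, 6, 12, 18, 20,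
    22, 24], [⟨1, 1, 1, 4, 8, [0, 4], [0, 4]⟩, ⟨1, 1, 1, 4, 12, [0, 6], [0, 6]⟩]⟩

lemma k21_22_7_6 : BlkD.pairOk d21_22_7_6 = true := by decide +kernel

/-- certificates of the pair `(7, 6)`, part 1 -/
def t21_22_7_6_1 : BlkD.Tr :=
  .L 5 5 [4, 4, 21, 21, 21, 21, 21] [] [] 100000 0 0 1500000 50000 50000 66667 66667 0 0 0

lemma s21_22_7_6_1 {n : ℕ} (hn : 7 ≤ n) : NoNd (d21_22_7_6.R : ℤ) d21_22_7_6.H n d21_22_7_6.a d21_22_7_6.b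
    (BlkD.inB (fun _ => 0)
      (BlkD.upd (BlkD.upd (BlkD.upd (BlkD.upd (BlkD.upd (fun _ => 22) 0 7) 2 6) 0 3) 0 1) 0 0)) :=
  BlkD.tree_sound (BlkD.pairOk_sound k21_22_7_6) (by decide) hn t21_22_7_6_1 _ _ (by decide +kernel)

/-- certificates of the pair `(7, 6)`, part 2 -/
def t21_22_7_6_2 : BlkD.Tr :=
  .S 1 2 (.L 5 5 [4, 4, 21, 21, 21, 21, 21] [] [] 100000 0 0 1500000 50000 50000 66667 66667 0 0 0)
    (.L 5 5 [4, 4, 21, 21, 21, 21, 21] [] [] 100000 0 0 1500000 50000 50000 66667 66667 0 0 0)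

lemma s21_22_7_6_2 {n : ℕ} (hn : 7 ≤ n) : NoNd (d21_22_7_6.R : ℤ) d21_22_7_6.H n d21_22_7_6.a d21_22_7_6.b
    (BlkD.inB (BlkD.upd (fun _ => 0) 0 1)
      (BlkD.upd (BlkD.upd (BlkD.upd (BlkD.upd (BlkD.upd (BlkD.upd (fun _ => 22) 0 7) 2 6) 0 3) 0 1) 1 11) 1 5)) :=
  BlkD.tree_sound (BlkD.pairOk_sound k21_22_7_6) (by decide) hn t21_22_7_6_2 _ _ (by decide +kernel)

/-- certificates of the pair `(7, 6)`, part 3 -/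
def t21_22_7_6_3 : BlkD.Tr :=
  .L 5 5 [4, 4, 21, 21, 21, 21, 21] [] [] 100000 0 0 1500000 50000 50000 66667 66667 0 0 0

lemma s21_22_7_6_3 {n : ℕ} (hn : 7 ≤ n) : NoNd (d21_22_7_6.R : ℤ) d21_22_7_6.H n d21_22_7_6.a d21_22_7_6.b
    (BlkD.inB (BlkD.upd (BlkD.upd (fun _ => 0) 0 1) 1 6)
      (BlkD.upd (BlkD.upd (BlkD.upd (BlkD.upd (BlkD.upd (BlkD.upd (fun _ => 22) 0 7) 2 6) 0 3) 0 1) 1 11) 1 8)) :=
  BlkD.tree_sound (BlkD.pairOk_sound k21_22_7_6) (by decide) hn t21_22_7_6_3 _ _ (by decide +kernel)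

/-- certificates of the pair `(7, 6)`, part 4 -/
def t21_22_7_6_4 : BlkD.Tr :=
  .L 5 5 [4, 4, 21, 21, 21, 21, 21] [] [] 100000 0 0 1500000 50000 50000 66667 66667 0 0 0

lemma s21_22_7_6_4 {n : ℕ} (hn : 7 ≤ n) : NoNd (d21_22_7_6.R : ℤ) d21_22_7_6.H n d21_22_7_6.a d21_22_7_6.b
    (BlkD.inB (BlkD.upd (BlkD.upd (BlkD.upd (fun _ => 0) 0 1) 1 6) 1 9)
      (BlkD.upd (BlkD.upd (BlkD.upd (BlkD.upd (BlkD.upd (fun _ => 22) 0 7) 2 6) 0 3) 0 1) 1 11)) :=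
  BlkD.tree_sound (BlkD.pairOk_sound k21_22_7_6) (by decide) hn t21_22_7_6_4 _ _ (by decide +kernel)

/-- certificates of the pair `(7, 6)`, part 5 -/
def t21_22_7_6_5 : BlkD.Tr :=
  .L 5 5 [4, 4, 21, 21, 21, 21, 21] [] [] 100000 0 0 1500000 50000 50000 66667 66667 0 0 0

lemma s21_22_7_6_5 {n : ℕ} (hn : 7 ≤ n) : NoNd (d21_22_7_6.R : ℤ) d21_22_7_6.H n d21_22_7_6.a d21_22_7_6.b
    (BlkD.inB (BlkD.upd (BlkD.upd (fun _ => 0) 0 1) 1 12)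
      (BlkD.upd (BlkD.upd (BlkD.upd (BlkD.upd (fun _ => 22) 0 7) 2 6) 0 3) 0 1)) :=
  BlkD.tree_sound (BlkD.pairOk_sound k21_22_7_6) (by decide) hn t21_22_7_6_5 _ _ (by decide +kernel)

/-- certificates of the pair `(7, 6)`, part 6 -/
def t21_22_7_6_6 : BlkD.Tr :=
  .S 1 2 (.L 5 5 [4, 4, 21, 21, 21, 21, 21] [] [] 100000 0 0 1500000 50000 50000 66667 66667 0 0 0)
    (.L 5 5 [4, 4, 21, 21, 21, 21, 21] [] [] 100000 0 0 1500000 50000 50000 66667 66667 0 0 0)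

lemma s21_22_7_6_6 {n : ℕ} (hn : 7 ≤ n) : NoNd (d21_22_7_6.R : ℤ) d21_22_7_6.H n d21_22_7_6.a d21_22_7_6.b
    (BlkD.inB (BlkD.upd (fun _ => 0) 0 2)
      (BlkD.upd (BlkD.upd (BlkD.upd (BlkD.upd (BlkD.upd (BlkD.upd (fun _ => 22) 0 7) 2 6) 0 3) 0 2) 1 11) 1 5)) :=
  BlkD.tree_sound (BlkD.pairOk_sound k21_22_7_6) (by decide) hn t21_22_7_6_6 _ _ (by decide +kernel)

/-- certificates of the pair `(7, 6)`, part 7 -/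
def t21_22_7_6_7 : BlkD.Tr :=
  .S 1 7 (.L 5 5 [4, 4, 21, 21, 21, 21, 21] [] [] 100000 0 0 1500000 50000 50000 66667 66667 0 0 0)
    (.L 5 5 [4, 4, 21, 21, 21, 21, 21] [152, 150, 148, 142, 136, 130] [] 100000 0 0 1500000 50000
    50000 66667 66667 0 0 0)

lemma s21_22_7_6_7 {n : ℕ} (hn : 7 ≤ n) : NoNd (d21_22_7_6.R : ℤ) d21_22_7_6.H n d21_22_7_6.a d21_22_7_6.b
    (BlkD.inB (BlkD.upd (BlkD.upd (fun _ => 0) 0 2) 1 6)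
      (BlkD.upd (BlkD.upd (BlkD.upd (BlkD.upd (BlkD.upd (BlkD.upd (fun _ => 22) 0 7) 2 6) 0 3) 0 2) 1 11) 1 8)) :=
  BlkD.tree_sound (BlkD.pairOk_sound k21_22_7_6) (by decide) hn t21_22_7_6_7 _ _ (by decide +kernel)

/-- certificates of the pair `(7, 6)`, part 8 -/
def t21_22_7_6_8 : BlkD.Tr :=
  .L 5 5 [4, 4, 21, 21, 21, 21, 21] [] [] 100000 0 0 1500000 50000 50000 66667 66667 0 0 0

lemma s21_22_7_6_8 {n : ℕ} (hn : 7 ≤ n) : NoNd (d21_22_7_6.R : ℤ) d21_22_7_6.H n d21_22_7_6.a d21_22_7_6.b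
    (BlkD.inB (BlkD.upd (BlkD.upd (BlkD.upd (fun _ => 0) 0 2) 1 6) 1 9)
      (BlkD.upd (BlkD.upd (BlkD.upd (BlkD.upd (BlkD.upd (fun _ => 22) 0 7) 2 6) 0 3) 0 2) 1 11)) :=
  BlkD.tree_sound (BlkD.pairOk_sound k21_22_7_6) (by decide) hn t21_22_7_6_8 _ _ (by decide +kernel)

/-- certificates of the pair `(7, 6)`, part 9 -/
def t21_22_7_6_9 : BlkD.Tr :=
  .L 5 5 [4, 4, 21, 21, 21, 21, 21] [] [] 100000 0 0 1500000 50000 50000 66667 66667 0 0 0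

lemma s21_22_7_6_9 {n : ℕ} (hn : 7 ≤ n) : NoNd (d21_22_7_6.R : ℤ) d21_22_7_6.H n d21_22_7_6.a d21_22_7_6.b
    (BlkD.inB (BlkD.upd (BlkD.upd (fun _ => 0) 0 2) 1 12)
      (BlkD.upd (BlkD.upd (BlkD.upd (BlkD.upd (fun _ => 22) 0 7) 2 6) 0 3) 0 2)) :=
  BlkD.tree_sound (BlkD.pairOk_sound k21_22_7_6) (by decide) hn t21_22_7_6_9 _ _ (by decide +kernel)

/-- certificates of the pair `(7, 6)`, part 10 -/
def t21_22_7_6_10 : BlkD.Tr :=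
  .S 1 2 (.L 5 5 [4, 4, 21, 21, 21, 21, 21] [] [] 100000 0 0 1500000 50000 50000 66667 66667 0 0 0)
    (.L 5 5 [4, 4, 21, 21, 21, 21, 21] [] [] 100000 0 0 1500000 50000 50000 66667 66667 0 0 0)

lemma s21_22_7_6_10 {n : ℕ} (hn : 7 ≤ n) : NoNd (d21_22_7_6.R : ℤ) d21_22_7_6.H n d21_22_7_6.a d21_22_7_6.b
    (BlkD.inB (BlkD.upd (BlkD.upd (fun _ => 0) 0 2) 0 3)
      (BlkD.upd (BlkD.upd (BlkD.upd (BlkD.upd (BlkD.upd (fun _ => 22) 0 7) 2 6) 0 3) 1 11) 1 5)) :=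
  BlkD.tree_sound (BlkD.pairOk_sound k21_22_7_6) (by decide) hn t21_22_7_6_10 _ _ (by decide +kernel)

/-- certificates of the pair `(7, 6)`, part 11 -/
def t21_22_7_6_11 : BlkD.Tr :=
  .S 1 6 (.L 5 5 [4, 4, 21, 21, 21, 21, 21] [126, 120, 114, 108, 96, 80] [] 100000 0 0 1500000
    50000 50000 66667 66667 0 0 0) (.L 5 5 [4, 4, 21, 21, 21, 21, 21] [146, 144, 138, 132, 126,
    114] [] 100000 0 0 1500000 50000 50000 66667 66667 0 0 0)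

lemma s21_22_7_6_11 {n : ℕ} (hn : 7 ≤ n) : NoNd (d21_22_7_6.R : ℤ) d21_22_7_6.H n d21_22_7_6.a d21_22_7_6.b
    (BlkD.inB (BlkD.upd (BlkD.upd (BlkD.upd (fun _ => 0) 0 2) 0 3) 1 6)
      (BlkD.upd (BlkD.upd (BlkD.upd (BlkD.upd (BlkD.upd (BlkD.upd (fun _ => 22) 0 7) 2 6) 0 3) 1 11) 1 8) 1 7)) :=
  BlkD.tree_sound (BlkD.pairOk_sound k21_22_7_6) (by decide) hn t21_22_7_6_11 _ _ (by decide +kernel)

/-- certificates of the pair `(7, 6)`, part 12 -/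
def t21_22_7_6_12 : BlkD.Tr :=
  .L 5 5 [4, 4, 21, 21, 21, 21, 21] [168, 166, 164, 158, 152, 146] [] 100000 0 0 1500000 50000
    50000 66667 66667 0 0 0

lemma s21_22_7_6_12 {n : ℕ} (hn : 7 ≤ n) : NoNd (d21_22_7_6.R : ℤ) d21_22_7_6.H n d21_22_7_6.a d21_22_7_6.b
    (BlkD.inB (BlkD.upd (BlkD.upd (BlkD.upd (BlkD.upd (fun _ => 0) 0 2) 0 3) 1 6) 1 8)
      (BlkD.upd (BlkD.upd (BlkD.upd (BlkD.upd (BlkD.upd (fun _ => 22) 0 7) 2 6) 0 3) 1 11) 1 8)) :=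
  BlkD.tree_sound (BlkD.pairOk_sound k21_22_7_6) (by decide) hn t21_22_7_6_12 _ _ (by decide +kernel)

/-- certificates of the pair `(7, 6)`, part 13 -/
def t21_22_7_6_13 : BlkD.Tr :=
  .L 5 5 [4, 4, 21, 21, 21, 21, 21] [] [] 100000 0 0 1500000 50000 50000 66667 66667 0 0 0

lemma s21_22_7_6_13 {n : ℕ} (hn : 7 ≤ n) : NoNd (d21_22_7_6.R : ℤ) d21_22_7_6.H n d21_22_7_6.a d21_22_7_6.b
    (BlkD.inB (BlkD.upd (BlkD.upd (BlkD.upd (BlkD.upd (fun _ => 0) 0 2) 0 3) 1 6) 1 9)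
      (BlkD.upd (BlkD.upd (BlkD.upd (BlkD.upd (fun _ => 22) 0 7) 2 6) 0 3) 1 11)) :=
  BlkD.tree_sound (BlkD.pairOk_sound k21_22_7_6) (by decide) hn t21_22_7_6_13 _ _ (by decide +kernel)

/-- certificates of the pair `(7, 6)`, part 14 -/
def t21_22_7_6_14 : BlkD.Tr :=
  .L 5 5 [4, 4, 21, 21, 21, 21, 21] [] [] 100000 0 0 1500000 50000 50000 66667 66667 0 0 0

lemma s21_22_7_6_14 {n : ℕ} (hn : 7 ≤ n) : NoNd (d21_22_7_6.R : ℤ) d21_22_7_6.H n d21_22_7_6.a d21_22_7_6.b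
    (BlkD.inB (BlkD.upd (BlkD.upd (BlkD.upd (fun _ => 0) 0 2) 0 3) 1 12)
      (BlkD.upd (BlkD.upd (BlkD.upd (fun _ => 22) 0 7) 2 6) 0 3)) :=
  BlkD.tree_sound (BlkD.pairOk_sound k21_22_7_6) (by decide) hn t21_22_7_6_14 _ _ (by decide +kernel)

/-- certificates of the pair `(7, 6)`, part 15 -/
def t21_22_7_6_15 : BlkD.Tr :=
  .S 1 2 (.L 5 5 [4, 4, 21, 21, 21, 21, 21] [] [] 100000 0 0 1500000 50000 50000 66667 66667 0 0 0)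
    (.L 5 5 [4, 4, 21, 21, 21, 21, 21] [] [] 100000 0 0 1500000 50000 50000 66667 66667 0 0 0)

lemma s21_22_7_6_15 {n : ℕ} (hn : 7 ≤ n) : NoNd (d21_22_7_6.R : ℤ) d21_22_7_6.H n d21_22_7_6.a d21_22_7_6.b
    (BlkD.inB (BlkD.upd (fun _ => 0) 0 4)
      (BlkD.upd (BlkD.upd (BlkD.upd (BlkD.upd (BlkD.upd (BlkD.upd (fun _ => 22) 0 7) 2 6) 0 5) 0 4) 1 11) 1 5)) :=
  BlkD.tree_sound (BlkD.pairOk_sound k21_22_7_6) (by decide) hn t21_22_7_6_15 _ _ (by decide +kernel)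

/-- certificates of the pair `(7, 6)`, part 16 -/
def t21_22_7_6_16 : BlkD.Tr :=
  .L 5 5 [4, 4, 21, 21, 21, 21, 21] [] [] 100000 0 0 1500000 50000 50000 66667 66667 0 0 0

lemma s21_22_7_6_16 {n : ℕ} (hn : 7 ≤ n) : NoNd (d21_22_7_6.R : ℤ) d21_22_7_6.H n d21_22_7_6.a d21_22_7_6.b
    (BlkD.inB (BlkD.upd (BlkD.upd (fun _ => 0) 0 4) 1 6)
      (BlkD.upd (BlkD.upd (BlkD.upd (BlkD.upd (BlkD.upd (fun _ => 22) 0 7) 2 6) 0 5) 0 4) 1 11)) :=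
  BlkD.tree_sound (BlkD.pairOk_sound k21_22_7_6) (by decide) hn t21_22_7_6_16 _ _ (by decide +kernel)

/-- certificates of the pair `(7, 6)`, part 17 -/
def t21_22_7_6_17 : BlkD.Tr :=
  .L 5 5 [4, 4, 21, 21, 21, 21, 21] [] [] 100000 0 0 1500000 50000 50000 66667 66667 0 0 0

lemma s21_22_7_6_17 {n : ℕ} (hn : 7 ≤ n) : NoNd (d21_22_7_6.R : ℤ) d21_22_7_6.H n d21_22_7_6.a d21_22_7_6.b
    (BlkD.inB (BlkD.upd (BlkD.upd (fun _ => 0) 0 4) 1 12)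
      (BlkD.upd (BlkD.upd (BlkD.upd (BlkD.upd (fun _ => 22) 0 7) 2 6) 0 5) 0 4)) :=
  BlkD.tree_sound (BlkD.pairOk_sound k21_22_7_6) (by decide) hn t21_22_7_6_17 _ _ (by decide +kernel)

/-- certificates of the pair `(7, 6)`, part 18 -/
def t21_22_7_6_18 : BlkD.Tr :=
  .L 5 5 [4, 4, 21, 21, 21, 21, 21] [] [] 100000 0 0 1500000 50000 50000 66667 66667 0 0 0

lemma s21_22_7_6_18 {n : ℕ} (hn : 7 ≤ n) : NoNd (d21_22_7_6.R : ℤ) d21_22_7_6.H n d21_22_7_6.a d21_22_7_6.b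
    (BlkD.inB (BlkD.upd (BlkD.upd (fun _ => 0) 0 4) 0 5)
      (BlkD.upd (BlkD.upd (BlkD.upd (fun _ => 22) 0 7) 2 6) 0 5)) :=
  BlkD.tree_sound (BlkD.pairOk_sound k21_22_7_6) (by decide) hn t21_22_7_6_18 _ _ (by decide +kernel)

/-- certificates of the pair `(7, 6)`, part 19 -/
def t21_22_7_6_19 : BlkD.Tr :=
  .L 5 5 [4, 4, 21, 21, 21, 21, 21] [] [] 100000 0 0 1500000 50000 50000 66667 66667 0 0 0

lemma s21_22_7_6_19 {n : ℕ} (hn : 7 ≤ n) : NoNd (d21_22_7_6.R : ℤ) d21_22_7_6.H n d21_22_7_6.a d21_22_7_6.b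
    (BlkD.inB (BlkD.upd (BlkD.upd (fun _ => 0) 0 4) 0 6)
      (BlkD.upd (BlkD.upd (fun _ => 22) 0 7) 2 6)) :=
  BlkD.tree_sound (BlkD.pairOk_sound k21_22_7_6) (by decide) hn t21_22_7_6_19 _ _ (by decide +kernel)

/-- certificates of the pair `(7, 6)`, part 20 -/
def t21_22_7_6_20 : BlkD.Tr :=
  .E 1

lemma s21_22_7_6_20 {n : ℕ} (hn : 7 ≤ n) : NoNd (d21_22_7_6.R : ℤ) d21_22_7_6.H n d21_22_7_6.a d21_22_7_6.b
    (BlkD.inB (BlkD.upd (fun _ => 0) 2 7)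
      (BlkD.upd (fun _ => 22) 0 7)) :=
  BlkD.tree_sound (BlkD.pairOk_sound k21_22_7_6) (by decide) hn t21_22_7_6_20 _ _ (by decide +kernel)

/-- certificates of the pair `(7, 6)`, part 21 -/
def t21_22_7_6_21 : BlkD.Tr :=
  .E 0

lemma s21_22_7_6_21 {n : ℕ} (hn : 7 ≤ n) : NoNd (d21_22_7_6.R : ℤ) d21_22_7_6.H n d21_22_7_6.a d21_22_7_6.b
    (BlkD.inB (BlkD.upd (fun _ => 0) 0 8)
      (fun _ => 22)) :=
  BlkD.tree_sound (BlkD.pairOk_sound k21_22_7_6) (by decide) hn t21_22_7_6_21 _ _ (by decide +kernel)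

lemma pr21_22_7_6 {n : ℕ} (hn : 7 ≤ n) : NoPr ((21 : ℕ) : ℤ) ((22 : ℕ) : ℤ) n 7 6 :=
  BlkD.of_root (R := d21_22_7_6.R) (H := d21_22_7_6.H) (a := d21_22_7_6.a) (b := d21_22_7_6.b) (q := 5) (by decide) hn
    (BlkD.sp 0 7 (BlkD.sp 2 6 (BlkD.sp 0 3 (BlkD.sp 0 1 (BlkD.sp 0 0 (s21_22_7_6_1 hn) (BlkD.sp 1
      11 (BlkD.sp 1 5 (s21_22_7_6_2 hn) (BlkD.sp 1 8 (s21_22_7_6_3 hn) (s21_22_7_6_4 hn)))
      (s21_22_7_6_5 hn))) (BlkD.sp 0 2 (BlkD.sp 1 11 (BlkD.sp 1 5 (s21_22_7_6_6 hn) (BlkD.sp 1 8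
      (s21_22_7_6_7 hn) (s21_22_7_6_8 hn))) (s21_22_7_6_9 hn)) (BlkD.sp 1 11 (BlkD.sp 1 5
      (s21_22_7_6_10 hn) (BlkD.sp 1 8 (BlkD.sp 1 7 (s21_22_7_6_11 hn) (s21_22_7_6_12 hn))
      (s21_22_7_6_13 hn))) (s21_22_7_6_14 hn)))) (BlkD.sp 0 5 (BlkD.sp 0 4 (BlkD.sp 1 11 (BlkD.sp 1
      5 (s21_22_7_6_15 hn) (s21_22_7_6_16 hn)) (s21_22_7_6_17 hn)) (s21_22_7_6_18 hn))
      (s21_22_7_6_19 hn))) (s21_22_7_6_20 hn)) (s21_22_7_6_21 hn))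

end BlkC

end Pool.Agent.Lib.MP_f04ccf_co
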