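import Pool.Agent.Lib.MP_f04ccf_co.M.BlkT

/-!
MP_f04ccf_co, block certificate, data `R = 21`, `H = 22`, part 8 (generated, helper99:
bd10.cpp, gen2.py).
-/

set_option autoImplicit false
set_option maxRecDepth 100000

namespace Pool.Agent.Lib.MP_f04ccf_co

namespace BlkC

/-- the numbers of the pair `(7, 7)`, `R = 21`, `H = 22` -/
def d21_22_7_7 : BlkD.Pd :=
  ⟨21, 22, 5, 7, 7, 5, 0, 4, 0, 4, 4, 0, 0, 4, 4, 0, [0, 4, 8, 12, 16, 20], [0, 4, 8, 12, 16, 20],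
    [⟨1, 1, 1, 4, 8, [0, 4], [0, 4]⟩]⟩

lemma k21_22_7_7 : BlkD.pairOk d21_22_7_7 = true := by decide +kernel

/-- certificates of the pair `(7, 7)`, part 1 -/
def t21_22_7_7_1 : BlkD.Tr :=
  .L 4 4 [4, 21, 21, 21, 21, 21, 21, 21] [] [] 100000 0 0 1600000 50000 50000 66667 66667 0 0 0

lemma s21_22_7_7_1 {n : ℕ} (hn : 7 ≤ n) : NoNd (d21_22_7_7.R : ℤ) d21_22_7_7.H n d21_22_7_7.a d21_22_7_7.b
    (BlkD.inB (fun _ => 0)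
      (BlkD.upd (BlkD.upd (BlkD.upd (BlkD.upd (BlkD.upd (fun _ => 22) 0 7) 2 7) 0 3) 0 1) 0 0)) :=
  BlkD.tree_sound (BlkD.pairOk_sound k21_22_7_7) (by decide) hn t21_22_7_7_1 _ _ (by decide +kernel)

/-- certificates of the pair `(7, 7)`, part 2 -/
def t21_22_7_7_2 : BlkD.Tr :=
  .L 4 4 [4, 21, 21, 21, 21, 21, 21, 21] [] [] 100000 0 0 1600000 50000 50000 66667 66667 0 0 0

lemma s21_22_7_7_2 {n : ℕ} (hn : 7 ≤ n) : NoNd (d21_22_7_7.R : ℤ) d21_22_7_7.H n d21_22_7_7.a d21_22_7_7.b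
    (BlkD.inB (BlkD.upd (fun _ => 0) 0 1)
      (BlkD.upd (BlkD.upd (BlkD.upd (BlkD.upd (BlkD.upd (BlkD.upd (BlkD.upd (fun _ => 22) 0 7) 2 7) 0 3) 0 1) 1 11) 1 5) 1 2)) :=
  BlkD.tree_sound (BlkD.pairOk_sound k21_22_7_7) (by decide) hn t21_22_7_7_2 _ _ (by decide +kernel)

/-- certificates of the pair `(7, 7)`, part 3 -/
def t21_22_7_7_3 : BlkD.Tr :=
  .S 1 4 (.L 4 4 [4, 21, 21, 21, 21, 21, 21, 21] [] [] 100000 0 0 1600000 50000 50000 66667 66667 0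
    0 0) (.L 4 4 [4, 21, 21, 21, 21, 21, 21, 21] [86, 82, 78, 60, 46, 30] [] 100000 0 0 1600000
    50000 50000 66667 66667 0 0 0)

lemma s21_22_7_7_3 {n : ℕ} (hn : 7 ≤ n) : NoNd (d21_22_7_7.R : ℤ) d21_22_7_7.H n d21_22_7_7.a d21_22_7_7.b
    (BlkD.inB (BlkD.upd (BlkD.upd (fun _ => 0) 0 1) 1 3)
      (BlkD.upd (BlkD.upd (BlkD.upd (BlkD.upd (BlkD.upd (BlkD.upd (fun _ => 22) 0 7) 2 7) 0 3) 0 1) 1 11) 1 5)) :=
  BlkD.tree_sound (BlkD.pairOk_sound k21_22_7_7) (by decide) hn t21_22_7_7_3 _ _ (by decide +kernel)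

/-- certificates of the pair `(7, 7)`, part 4 -/
def t21_22_7_7_4 : BlkD.Tr :=
  .L 4 4 [4, 21, 21, 21, 21, 21, 21, 21] [] [] 100000 0 0 1600000 50000 50000 66667 66667 0 0 0

lemma s21_22_7_7_4 {n : ℕ} (hn : 7 ≤ n) : NoNd (d21_22_7_7.R : ℤ) d21_22_7_7.H n d21_22_7_7.a d21_22_7_7.b
    (BlkD.inB (BlkD.upd (BlkD.upd (fun _ => 0) 0 1) 1 6)
      (BlkD.upd (BlkD.upd (BlkD.upd (BlkD.upd (BlkD.upd (BlkD.upd (BlkD.upd (fun _ => 22) 0 7) 2 7) 0 3) 0 1) 1 11) 1 8) 1 7)) :=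
  BlkD.tree_sound (BlkD.pairOk_sound k21_22_7_7) (by decide) hn t21_22_7_7_4 _ _ (by decide +kernel)

/-- certificates of the pair `(7, 7)`, part 5 -/
def t21_22_7_7_5 : BlkD.Tr :=
  .L 4 4 [4, 21, 21, 21, 21, 21, 21, 21] [140, 136, 132, 128, 124, 120] [] 100000 0 0 1600000 50000
    50000 66667 66667 0 0 0

lemma s21_22_7_7_5 {n : ℕ} (hn : 7 ≤ n) : NoNd (d21_22_7_7.R : ℤ) d21_22_7_7.H n d21_22_7_7.a d21_22_7_7.b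
    (BlkD.inB (BlkD.upd (BlkD.upd (BlkD.upd (fun _ => 0) 0 1) 1 6) 1 8)
      (BlkD.upd (BlkD.upd (BlkD.upd (BlkD.upd (BlkD.upd (BlkD.upd (fun _ => 22) 0 7) 2 7) 0 3) 0 1) 1 11) 1 8)) :=
  BlkD.tree_sound (BlkD.pairOk_sound k21_22_7_7) (by decide) hn t21_22_7_7_5 _ _ (by decide +kernel)

/-- certificates of the pair `(7, 7)`, part 6 -/
def t21_22_7_7_6 : BlkD.Tr :=
  .L 4 4 [4, 21, 21, 21, 21, 21, 21, 21] [] [] 100000 0 0 1600000 50000 50000 66667 66667 0 0 0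

lemma s21_22_7_7_6 {n : ℕ} (hn : 7 ≤ n) : NoNd (d21_22_7_7.R : ℤ) d21_22_7_7.H n d21_22_7_7.a d21_22_7_7.b
    (BlkD.inB (BlkD.upd (BlkD.upd (BlkD.upd (fun _ => 0) 0 1) 1 6) 1 9)
      (BlkD.upd (BlkD.upd (BlkD.upd (BlkD.upd (BlkD.upd (fun _ => 22) 0 7) 2 7) 0 3) 0 1) 1 11)) :=
  BlkD.tree_sound (BlkD.pairOk_sound k21_22_7_7) (by decide) hn t21_22_7_7_6 _ _ (by decide +kernel)

/-- certificates of the pair `(7, 7)`, part 7 -/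
def t21_22_7_7_7 : BlkD.Tr :=
  .L 4 4 [4, 21, 21, 21, 21, 21, 21, 21] [] [] 100000 0 0 1600000 50000 50000 66667 66667 0 0 0

lemma s21_22_7_7_7 {n : ℕ} (hn : 7 ≤ n) : NoNd (d21_22_7_7.R : ℤ) d21_22_7_7.H n d21_22_7_7.a d21_22_7_7.b
    (BlkD.inB (BlkD.upd (BlkD.upd (fun _ => 0) 0 1) 1 12)
      (BlkD.upd (BlkD.upd (BlkD.upd (BlkD.upd (fun _ => 22) 0 7) 2 7) 0 3) 0 1)) :=
  BlkD.tree_sound (BlkD.pairOk_sound k21_22_7_7) (by decide) hn t21_22_7_7_7 _ _ (by decide +kernel)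

/-- certificates of the pair `(7, 7)`, part 8 -/
def t21_22_7_7_8 : BlkD.Tr :=
  .L 4 4 [4, 21, 21, 21, 21, 21, 21, 21] [] [] 100000 0 0 1600000 50000 50000 66667 66667 0 0 0

lemma s21_22_7_7_8 {n : ℕ} (hn : 7 ≤ n) : NoNd (d21_22_7_7.R : ℤ) d21_22_7_7.H n d21_22_7_7.a d21_22_7_7.b
    (BlkD.inB (BlkD.upd (fun _ => 0) 0 2)
      (BlkD.upd (BlkD.upd (BlkD.upd (BlkD.upd (BlkD.upd (BlkD.upd (BlkD.upd (fun _ => 22) 0 7) 2 7) 0 3) 0 2) 1 11) 1 5) 1 2)) :=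
  BlkD.tree_sound (BlkD.pairOk_sound k21_22_7_7) (by decide) hn t21_22_7_7_8 _ _ (by decide +kernel)

/-- certificates of the pair `(7, 7)`, part 9 -/
def t21_22_7_7_9 : BlkD.Tr :=
  .L 4 4 [4, 21, 21, 21, 21, 21, 21, 21] [] [] 100000 0 0 1600000 50000 50000 66667 66667 0 0 0

lemma s21_22_7_7_9 {n : ℕ} (hn : 7 ≤ n) : NoNd (d21_22_7_7.R : ℤ) d21_22_7_7.H n d21_22_7_7.a d21_22_7_7.b
    (BlkD.inB (BlkD.upd (BlkD.upd (fun _ => 0) 0 2) 1 3)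
      (BlkD.upd (BlkD.upd (BlkD.upd (BlkD.upd (BlkD.upd (BlkD.upd (BlkD.upd (fun _ => 22) 0 7) 2 7) 0 3) 0 2) 1 11) 1 5) 1 4)) :=
  BlkD.tree_sound (BlkD.pairOk_sound k21_22_7_7) (by decide) hn t21_22_7_7_9 _ _ (by decide +kernel)

/-- certificates of the pair `(7, 7)`, part 10 -/
def t21_22_7_7_10 : BlkD.Tr :=
  .L 4 4 [4, 21, 21, 21, 21, 21, 21, 21] [96, 92, 88, 70, 56, 40] [] 100000 0 0 1600000 50000 50000
    66667 66667 0 0 0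

lemma s21_22_7_7_10 {n : ℕ} (hn : 7 ≤ n) : NoNd (d21_22_7_7.R : ℤ) d21_22_7_7.H n d21_22_7_7.a d21_22_7_7.b
    (BlkD.inB (BlkD.upd (BlkD.upd (BlkD.upd (fun _ => 0) 0 2) 1 3) 1 5)
      (BlkD.upd (BlkD.upd (BlkD.upd (BlkD.upd (BlkD.upd (BlkD.upd (fun _ => 22) 0 7) 2 7) 0 3) 0 2) 1 11) 1 5)) :=
  BlkD.tree_sound (BlkD.pairOk_sound k21_22_7_7) (by decide) hn t21_22_7_7_10 _ _ (by decide +kernel)

/-- certificates of the pair `(7, 7)`, part 11 -/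
def t21_22_7_7_11 : BlkD.Tr :=
  .S 2 3 (.L 4 4 [4, 21, 21, 21, 21, 21, 21, 21] [114, 110, 106, 102, 84, 70] [] 100000 0 0 1600000
    50000 50000 66667 66667 0 0 0) (.L 4 4 [4, 21, 21, 21, 21, 21, 21, 21] [114, 110, 106, 102, 84,
    70] [] 100000 0 0 1600000 50000 50000 66667 66667 0 0 0)

lemma s21_22_7_7_11 {n : ℕ} (hn : 7 ≤ n) : NoNd (d21_22_7_7.R : ℤ) d21_22_7_7.H n d21_22_7_7.a d21_22_7_7.b
    (BlkD.inB (BlkD.upd (BlkD.upd (fun _ => 0) 0 2) 1 6)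
      (BlkD.upd (BlkD.upd (BlkD.upd (BlkD.upd (BlkD.upd (BlkD.upd (BlkD.upd (BlkD.upd (fun _ => 22) 0 7) 2 7) 0 3) 0 2) 1 11) 1 8) 1 7) 1 6)) :=
  BlkD.tree_sound (BlkD.pairOk_sound k21_22_7_7) (by decide) hn t21_22_7_7_11 _ _ (by decide +kernel)

/-- certificates of the pair `(7, 7)`, part 12 -/
def t21_22_7_7_12 : BlkD.Tr :=
  .L 4 4 [4, 21, 21, 21, 21, 21, 21, 21] [134, 130, 126, 122, 118, 100] [] 100000 0 0 1600000 50000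
    50000 66667 66667 0 0 0

lemma s21_22_7_7_12 {n : ℕ} (hn : 7 ≤ n) : NoNd (d21_22_7_7.R : ℤ) d21_22_7_7.H n d21_22_7_7.a d21_22_7_7.b
    (BlkD.inB (BlkD.upd (BlkD.upd (BlkD.upd (fun _ => 0) 0 2) 1 6) 1 7)
      (BlkD.upd (BlkD.upd (BlkD.upd (BlkD.upd (BlkD.upd (BlkD.upd (BlkD.upd (BlkD.upd (fun _ => 22) 0 7) 2 7) 0 3) 0 2) 1 11) 1 8) 1 7) 2 3)) :=
  BlkD.tree_sound (BlkD.pairOk_sound k21_22_7_7) (by decide) hn t21_22_7_7_12 _ _ (by decide +kernel)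

/-- certificates of the pair `(7, 7)`, part 13 -/
def t21_22_7_7_13 : BlkD.Tr :=
  .L 4 4 [4, 21, 21, 21, 21, 21, 21, 21] [134, 130, 126, 122, 118, 100] [] 100000 0 0 1600000 50000
    50000 66667 66667 0 0 0

lemma s21_22_7_7_13 {n : ℕ} (hn : 7 ≤ n) : NoNd (d21_22_7_7.R : ℤ) d21_22_7_7.H n d21_22_7_7.a d21_22_7_7.b
    (BlkD.inB (BlkD.upd (BlkD.upd (BlkD.upd (BlkD.upd (fun _ => 0) 0 2) 1 6) 1 7) 2 4)
      (BlkD.upd (BlkD.upd (BlkD.upd (BlkD.upd (BlkD.upd (BlkD.upd (BlkD.upd (fun _ => 22) 0 7) 2 7) 0 3) 0 2) 1 11) 1 8) 1 7)) :=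
  BlkD.tree_sound (BlkD.pairOk_sound k21_22_7_7) (by decide) hn t21_22_7_7_13 _ _ (by decide +kernel)

/-- certificates of the pair `(7, 7)`, part 14 -/
def t21_22_7_7_14 : BlkD.Tr :=
  .S 2 1 (.L 4 4 [4, 21, 21, 21, 21, 21, 21, 21] [156, 152, 148, 144, 140, 136] [] 100000 0 0
    1600000 50000 50000 66667 66667 0 0 0) (.L 4 4 [4, 21, 21, 21, 21, 21, 21, 21] [156, 152, 148,
    144, 140, 136] [] 100000 0 0 1600000 50000 50000 66667 66667 0 0 0)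

lemma s21_22_7_7_14 {n : ℕ} (hn : 7 ≤ n) : NoNd (d21_22_7_7.R : ℤ) d21_22_7_7.H n d21_22_7_7.a d21_22_7_7.b
    (BlkD.inB (BlkD.upd (BlkD.upd (BlkD.upd (fun _ => 0) 0 2) 1 6) 1 8)
      (BlkD.upd (BlkD.upd (BlkD.upd (BlkD.upd (BlkD.upd (BlkD.upd (BlkD.upd (fun _ => 22) 0 7) 2 7) 0 3) 0 2) 1 11) 1 8) 2 3)) :=
  BlkD.tree_sound (BlkD.pairOk_sound k21_22_7_7) (by decide) hn t21_22_7_7_14 _ _ (by decide +kernel)

/-- certificates of the pair `(7, 7)`, part 15 -/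
def t21_22_7_7_15 : BlkD.Tr :=
  .L 4 4 [4, 21, 21, 21, 21, 21, 21, 21] [156, 152, 148, 144, 140, 136] [] 100000 0 0 1600000 50000
    50000 66667 66667 0 0 0

lemma s21_22_7_7_15 {n : ℕ} (hn : 7 ≤ n) : NoNd (d21_22_7_7.R : ℤ) d21_22_7_7.H n d21_22_7_7.a d21_22_7_7.b
    (BlkD.inB (BlkD.upd (BlkD.upd (BlkD.upd (BlkD.upd (fun _ => 0) 0 2) 1 6) 1 8) 2 4)
      (BlkD.upd (BlkD.upd (BlkD.upd (BlkD.upd (BlkD.upd (BlkD.upd (fun _ => 22) 0 7) 2 7) 0 3) 0 2) 1 11) 1 8)) :=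
  BlkD.tree_sound (BlkD.pairOk_sound k21_22_7_7) (by decide) hn t21_22_7_7_15 _ _ (by decide +kernel)

/-- certificates of the pair `(7, 7)`, part 16 -/
def t21_22_7_7_16 : BlkD.Tr :=
  .S 2 3 (.L 4 4 [4, 21, 21, 21, 21, 21, 21, 21] [180, 176, 172, 168, 164, 160] [] 100000 0 0
    1600000 50000 50000 66667 66667 0 0 0) (.L 4 4 [4, 21, 21, 21, 21, 21, 21, 21] [180, 176, 172,
    168, 164, 160] [] 100000 0 0 1600000 50000 50000 66667 66667 0 0 0)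

lemma s21_22_7_7_16 {n : ℕ} (hn : 7 ≤ n) : NoNd (d21_22_7_7.R : ℤ) d21_22_7_7.H n d21_22_7_7.a d21_22_7_7.b
    (BlkD.inB (BlkD.upd (BlkD.upd (BlkD.upd (fun _ => 0) 0 2) 1 6) 1 9)
      (BlkD.upd (BlkD.upd (BlkD.upd (BlkD.upd (BlkD.upd (BlkD.upd (BlkD.upd (fun _ => 22) 0 7) 2 7) 0 3) 0 2) 1 11) 1 10) 1 9)) :=
  BlkD.tree_sound (BlkD.pairOk_sound k21_22_7_7) (by decide) hn t21_22_7_7_16 _ _ (by decide +kernel)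

/-- certificates of the pair `(7, 7)`, part 17 -/
def t21_22_7_7_17 : BlkD.Tr :=
  .L 4 4 [4, 21, 21, 21, 21, 21, 21, 21] [202, 202, 198, 194, 190, 186] [] 100000 0 0 1600000 50000
    50000 66667 66667 0 0 0

lemma s21_22_7_7_17 {n : ℕ} (hn : 7 ≤ n) : NoNd (d21_22_7_7.R : ℤ) d21_22_7_7.H n d21_22_7_7.a d21_22_7_7.b
    (BlkD.inB (BlkD.upd (BlkD.upd (BlkD.upd (BlkD.upd (fun _ => 0) 0 2) 1 6) 1 9) 1 10)
      (BlkD.upd (BlkD.upd (BlkD.upd (BlkD.upd (BlkD.upd (BlkD.upd (fun _ => 22) 0 7) 2 7) 0 3) 0 2) 1 11) 1 10)) :=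
  BlkD.tree_sound (BlkD.pairOk_sound k21_22_7_7) (by decide) hn t21_22_7_7_17 _ _ (by decide +kernel)

/-- certificates of the pair `(7, 7)`, part 18 -/
def t21_22_7_7_18 : BlkD.Tr :=
  .L 4 4 [4, 21, 21, 21, 21, 21, 21, 21] [226, 226, 226, 222, 218, 214] [] 100000 0 0 1600000 50000
    50000 66667 66667 0 0 0

lemma s21_22_7_7_18 {n : ℕ} (hn : 7 ≤ n) : NoNd (d21_22_7_7.R : ℤ) d21_22_7_7.H n d21_22_7_7.a d21_22_7_7.b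
    (BlkD.inB (BlkD.upd (BlkD.upd (BlkD.upd (BlkD.upd (fun _ => 0) 0 2) 1 6) 1 9) 1 11)
      (BlkD.upd (BlkD.upd (BlkD.upd (BlkD.upd (BlkD.upd (fun _ => 22) 0 7) 2 7) 0 3) 0 2) 1 11)) :=
  BlkD.tree_sound (BlkD.pairOk_sound k21_22_7_7) (by decide) hn t21_22_7_7_18 _ _ (by decide +kernel)

/-- certificates of the pair `(7, 7)`, part 19 -/
def t21_22_7_7_19 : BlkD.Tr :=
  .L 4 4 [4, 21, 21, 21, 21, 21, 21, 21] [] [] 100000 0 0 1600000 50000 50000 66667 66667 0 0 0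

lemma s21_22_7_7_19 {n : ℕ} (hn : 7 ≤ n) : NoNd (d21_22_7_7.R : ℤ) d21_22_7_7.H n d21_22_7_7.a d21_22_7_7.b
    (BlkD.inB (BlkD.upd (BlkD.upd (fun _ => 0) 0 2) 1 12)
      (BlkD.upd (BlkD.upd (BlkD.upd (BlkD.upd (fun _ => 22) 0 7) 2 7) 0 3) 0 2)) :=
  BlkD.tree_sound (BlkD.pairOk_sound k21_22_7_7) (by decide) hn t21_22_7_7_19 _ _ (by decide +kernel)

/-- certificates of the pair `(7, 7)`, part 20 -/
def t21_22_7_7_20 : BlkD.Tr :=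
  .L 4 4 [4, 21, 21, 21, 21, 21, 21, 21] [] [] 100000 0 0 1600000 50000 50000 66667 66667 0 0 0

lemma s21_22_7_7_20 {n : ℕ} (hn : 7 ≤ n) : NoNd (d21_22_7_7.R : ℤ) d21_22_7_7.H n d21_22_7_7.a d21_22_7_7.b
    (BlkD.inB (BlkD.upd (BlkD.upd (fun _ => 0) 0 2) 0 3)
      (BlkD.upd (BlkD.upd (BlkD.upd (BlkD.upd (BlkD.upd (BlkD.upd (fun _ => 22) 0 7) 2 7) 0 3) 1 11) 1 5) 1 2)) :=
  BlkD.tree_sound (BlkD.pairOk_sound k21_22_7_7) (by decide) hn t21_22_7_7_20 _ _ (by decide +kernel)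

/-- certificates of the pair `(7, 7)`, part 21 -/
def t21_22_7_7_21 : BlkD.Tr :=
  .L 4 4 [4, 21, 21, 21, 21, 21, 21, 21] [] [] 100000 0 0 1600000 50000 50000 66667 66667 0 0 0

lemma s21_22_7_7_21 {n : ℕ} (hn : 7 ≤ n) : NoNd (d21_22_7_7.R : ℤ) d21_22_7_7.H n d21_22_7_7.a d21_22_7_7.b
    (BlkD.inB (BlkD.upd (BlkD.upd (BlkD.upd (fun _ => 0) 0 2) 0 3) 1 3)
      (BlkD.upd (BlkD.upd (BlkD.upd (BlkD.upd (BlkD.upd (BlkD.upd (fun _ => 22) 0 7) 2 7) 0 3) 1 11) 1 5) 1 4)) :=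
  BlkD.tree_sound (BlkD.pairOk_sound k21_22_7_7) (by decide) hn t21_22_7_7_21 _ _ (by decide +kernel)

/-- certificates of the pair `(7, 7)`, part 22 -/
def t21_22_7_7_22 : BlkD.Tr :=
  .S 2 3 (.L 4 4 [4, 21, 21, 21, 21, 21, 21, 21] [106, 102, 98, 80, 66, 50] [] 100000 0 0 1600000
    50000 50000 66667 66667 0 0 0) (.L 4 4 [4, 21, 21, 21, 21, 21, 21, 21] [106, 102, 98, 80, 66,
    50] [] 100000 0 0 1600000 50000 50000 66667 66667 0 0 0)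

lemma s21_22_7_7_22 {n : ℕ} (hn : 7 ≤ n) : NoNd (d21_22_7_7.R : ℤ) d21_22_7_7.H n d21_22_7_7.a d21_22_7_7.b
    (BlkD.inB (BlkD.upd (BlkD.upd (BlkD.upd (BlkD.upd (fun _ => 0) 0 2) 0 3) 1 3) 1 5)
      (BlkD.upd (BlkD.upd (BlkD.upd (BlkD.upd (BlkD.upd (fun _ => 22) 0 7) 2 7) 0 3) 1 11) 1 5)) :=
  BlkD.tree_sound (BlkD.pairOk_sound k21_22_7_7) (by decide) hn t21_22_7_7_22 _ _ (by decide +kernel)

/-- certificates of the pair `(7, 7)`, part 23 -/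
def t21_22_7_7_23 : BlkD.Tr :=
  .S 2 1 (.L 4 4 [4, 21, 21, 21, 21, 21, 21, 21] [126, 122, 118, 114, 96, 82] [] 100000 0 0 1600000
    50000 50000 66667 66667 0 0 0) (.L 4 4 [4, 21, 21, 21, 21, 21, 21, 21] [126, 122, 118, 114, 96,
    82] [] 100000 0 0 1600000 50000 50000 66667 66667 0 0 0)

lemma s21_22_7_7_23 {n : ℕ} (hn : 7 ≤ n) : NoNd (d21_22_7_7.R : ℤ) d21_22_7_7.H n d21_22_7_7.a d21_22_7_7.b
    (BlkD.inB (BlkD.upd (BlkD.upd (BlkD.upd (fun _ => 0) 0 2) 0 3) 1 6)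
      (BlkD.upd (BlkD.upd (BlkD.upd (BlkD.upd (BlkD.upd (BlkD.upd (BlkD.upd (BlkD.upd (fun _ => 22) 0 7) 2 7) 0 3) 1 11) 1 8) 1 7) 1 6) 2 3)) :=
  BlkD.tree_sound (BlkD.pairOk_sound k21_22_7_7) (by decide) hn t21_22_7_7_23 _ _ (by decide +kernel)

/-- certificates of the pair `(7, 7)`, part 24 -/
def t21_22_7_7_24 : BlkD.Tr :=
  .L 4 4 [4, 21, 21, 21, 21, 21, 21, 21] [126, 122, 118, 114, 96, 82] [] 100000 0 0 1600000 50000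
    50000 66667 66667 0 0 0

lemma s21_22_7_7_24 {n : ℕ} (hn : 7 ≤ n) : NoNd (d21_22_7_7.R : ℤ) d21_22_7_7.H n d21_22_7_7.a d21_22_7_7.b
    (BlkD.inB (BlkD.upd (BlkD.upd (BlkD.upd (BlkD.upd (fun _ => 0) 0 2) 0 3) 1 6) 2 4)
      (BlkD.upd (BlkD.upd (BlkD.upd (BlkD.upd (BlkD.upd (BlkD.upd (BlkD.upd (fun _ => 22) 0 7) 2 7) 0 3) 1 11) 1 8) 1 7) 1 6)) :=
  BlkD.tree_sound (BlkD.pairOk_sound k21_22_7_7) (by decide) hn t21_22_7_7_24 _ _ (by decide +kernel)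

/-- certificates of the pair `(7, 7)`, part 25 -/
def t21_22_7_7_25 : BlkD.Tr :=
  .S 2 1 (.L 4 4 [4, 21, 21, 21, 21, 21, 21, 21] [148, 144, 140, 136, 132, 114] [] 100000 0 0
    1600000 50000 50000 66667 66667 0 0 0) (.L 4 4 [4, 21, 21, 21, 21, 21, 21, 21] [148, 144, 140,
    136, 132, 114] [] 100000 0 0 1600000 50000 50000 66667 66667 0 0 0)

lemma s21_22_7_7_25 {n : ℕ} (hn : 7 ≤ n) : NoNd (d21_22_7_7.R : ℤ) d21_22_7_7.H n d21_22_7_7.a d21_22_7_7.b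
    (BlkD.inB (BlkD.upd (BlkD.upd (BlkD.upd (BlkD.upd (fun _ => 0) 0 2) 0 3) 1 6) 1 7)
      (BlkD.upd (BlkD.upd (BlkD.upd (BlkD.upd (BlkD.upd (BlkD.upd (BlkD.upd (fun _ => 22) 0 7) 2 7) 0 3) 1 11) 1 8) 1 7) 2 3)) :=
  BlkD.tree_sound (BlkD.pairOk_sound k21_22_7_7) (by decide) hn t21_22_7_7_25 _ _ (by decide +kernel)

/-- certificates of the pair `(7, 7)`, part 26 -/
def t21_22_7_7_26 : BlkD.Tr :=
  .L 4 4 [4, 21, 21, 21, 21, 21, 21, 21] [148, 144, 140, 136, 132, 114] [] 100000 0 0 1600000 50000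
    50000 66667 66667 0 0 0

lemma s21_22_7_7_26 {n : ℕ} (hn : 7 ≤ n) : NoNd (d21_22_7_7.R : ℤ) d21_22_7_7.H n d21_22_7_7.a d21_22_7_7.b
    (BlkD.inB (BlkD.upd (BlkD.upd (BlkD.upd (BlkD.upd (BlkD.upd (fun _ => 0) 0 2) 0 3) 1 6) 1 7) 2 4)
      (BlkD.upd (BlkD.upd (BlkD.upd (BlkD.upd (BlkD.upd (BlkD.upd (fun _ => 22) 0 7) 2 7) 0 3) 1 11) 1 8) 1 7)) :=
  BlkD.tree_sound (BlkD.pairOk_sound k21_22_7_7) (by decide) hn t21_22_7_7_26 _ _ (by decide +kernel)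

/-- certificates of the pair `(7, 7)`, part 27 -/
def t21_22_7_7_27 : BlkD.Tr :=
  .S 2 3 (.L 4 4 [4, 21, 21, 21, 21, 21, 21, 21] [172, 168, 164, 160, 156, 152] [] 100000 0 0
    1600000 50000 50000 66667 66667 0 0 0) (.L 4 4 [4, 21, 21, 21, 21, 21, 21, 21] [172, 168, 164,
    160, 156, 152] [] 100000 0 0 1600000 50000 50000 66667 66667 0 0 0)

lemma s21_22_7_7_27 {n : ℕ} (hn : 7 ≤ n) : NoNd (d21_22_7_7.R : ℤ) d21_22_7_7.H n d21_22_7_7.a d21_22_7_7.b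
    (BlkD.inB (BlkD.upd (BlkD.upd (BlkD.upd (BlkD.upd (fun _ => 0) 0 2) 0 3) 1 6) 1 8)
      (BlkD.upd (BlkD.upd (BlkD.upd (BlkD.upd (BlkD.upd (fun _ => 22) 0 7) 2 7) 0 3) 1 11) 1 8)) :=
  BlkD.tree_sound (BlkD.pairOk_sound k21_22_7_7) (by decide) hn t21_22_7_7_27 _ _ (by decide +kernel)

/-- certificates of the pair `(7, 7)`, part 28 -/
def t21_22_7_7_28 : BlkD.Tr :=
  .S 1 10 (.S 1 9 (.L 4 4 [4, 21, 21, 21, 21, 21, 21, 21] [198, 194, 190, 186, 182, 178] [] 100000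
    0 0 1600000 50000 50000 66667 66667 0 0 0) (.L 4 4 [4, 21, 21, 21, 21, 21, 21, 21] [222, 222,
    218, 214, 210, 206] [] 100000 0 0 1600000 50000 50000 66667 66667 0 0 0)) (.L 4 4 [4, 21, 21,
    21, 21, 21, 21, 21] [248, 248, 248, 244, 240, 236] [] 100000 0 0 1600000 50000 50000 66667
    66667 0 0 0)

lemma s21_22_7_7_28 {n : ℕ} (hn : 7 ≤ n) : NoNd (d21_22_7_7.R : ℤ) d21_22_7_7.H n d21_22_7_7.a d21_22_7_7.b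
    (BlkD.inB (BlkD.upd (BlkD.upd (BlkD.upd (BlkD.upd (fun _ => 0) 0 2) 0 3) 1 6) 1 9)
      (BlkD.upd (BlkD.upd (BlkD.upd (BlkD.upd (fun _ => 22) 0 7) 2 7) 0 3) 1 11)) :=
  BlkD.tree_sound (BlkD.pairOk_sound k21_22_7_7) (by decide) hn t21_22_7_7_28 _ _ (by decide +kernel)

/-- certificates of the pair `(7, 7)`, part 29 -/
def t21_22_7_7_29 : BlkD.Tr :=
  .L 4 4 [4, 21, 21, 21, 21, 21, 21, 21] [] [] 100000 0 0 1600000 50000 50000 66667 66667 0 0 0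

lemma s21_22_7_7_29 {n : ℕ} (hn : 7 ≤ n) : NoNd (d21_22_7_7.R : ℤ) d21_22_7_7.H n d21_22_7_7.a d21_22_7_7.b
    (BlkD.inB (BlkD.upd (BlkD.upd (BlkD.upd (fun _ => 0) 0 2) 0 3) 1 12)
      (BlkD.upd (BlkD.upd (BlkD.upd (fun _ => 22) 0 7) 2 7) 0 3)) :=
  BlkD.tree_sound (BlkD.pairOk_sound k21_22_7_7) (by decide) hn t21_22_7_7_29 _ _ (by decide +kernel)

/-- certificates of the pair `(7, 7)`, part 30 -/
def t21_22_7_7_30 : BlkD.Tr :=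
  .L 4 4 [4, 21, 21, 21, 21, 21, 21, 21] [] [] 100000 0 0 1600000 50000 50000 66667 66667 0 0 0

lemma s21_22_7_7_30 {n : ℕ} (hn : 7 ≤ n) : NoNd (d21_22_7_7.R : ℤ) d21_22_7_7.H n d21_22_7_7.a d21_22_7_7.b
    (BlkD.inB (BlkD.upd (fun _ => 0) 0 4)
      (BlkD.upd (BlkD.upd (BlkD.upd (BlkD.upd (BlkD.upd (BlkD.upd (BlkD.upd (fun _ => 22) 0 7) 2 7) 0 5) 0 4) 1 11) 1 5) 1 2)) :=
  BlkD.tree_sound (BlkD.pairOk_sound k21_22_7_7) (by decide) hn t21_22_7_7_30 _ _ (by decide +kernel)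

/-- certificates of the pair `(7, 7)`, part 31 -/
def t21_22_7_7_31 : BlkD.Tr :=
  .L 4 4 [4, 21, 21, 21, 21, 21, 21, 21] [78, 60, 46, 30, 0, 0] [] 100000 0 0 1600000 50000 50000
    66667 66667 0 0 0

lemma s21_22_7_7_31 {n : ℕ} (hn : 7 ≤ n) : NoNd (d21_22_7_7.R : ℤ) d21_22_7_7.H n d21_22_7_7.a d21_22_7_7.b
    (BlkD.inB (BlkD.upd (BlkD.upd (fun _ => 0) 0 4) 1 3)
      (BlkD.upd (BlkD.upd (BlkD.upd (BlkD.upd (BlkD.upd (BlkD.upd (BlkD.upd (BlkD.upd (fun _ => 22) 0 7) 2 7) 0 5) 0 4) 1 11) 1 5) 1 4) 1 3)) :=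
  BlkD.tree_sound (BlkD.pairOk_sound k21_22_7_7) (by decide) hn t21_22_7_7_31 _ _ (by decide +kernel)

/-- certificates of the pair `(7, 7)`, part 32 -/
def t21_22_7_7_32 : BlkD.Tr :=
  .L 4 4 [4, 21, 21, 21, 21, 21, 21, 21] [96, 92, 74, 60, 44, 0] [] 100000 0 0 1600000 50000 50000
    66667 66667 0 0 0

lemma s21_22_7_7_32 {n : ℕ} (hn : 7 ≤ n) : NoNd (d21_22_7_7.R : ℤ) d21_22_7_7.H n d21_22_7_7.a d21_22_7_7.b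
    (BlkD.inB (BlkD.upd (BlkD.upd (BlkD.upd (fun _ => 0) 0 4) 1 3) 1 4)
      (BlkD.upd (BlkD.upd (BlkD.upd (BlkD.upd (BlkD.upd (BlkD.upd (BlkD.upd (fun _ => 22) 0 7) 2 7) 0 5) 0 4) 1 11) 1 5) 1 4)) :=
  BlkD.tree_sound (BlkD.pairOk_sound k21_22_7_7) (by decide) hn t21_22_7_7_32 _ _ (by decide +kernel)

/-- certificates of the pair `(7, 7)`, part 33 -/
def t21_22_7_7_33 : BlkD.Tr :=
  .S 2 3 (.L 4 4 [4, 21, 21, 21, 21, 21, 21, 21] [116, 112, 108, 90, 76, 60] [] 100000 0 0 1600000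
    50000 50000 66667 66667 0 0 0) (.L 4 4 [4, 21, 21, 21, 21, 21, 21, 21] [116, 112, 108, 90, 76,
    60] [] 100000 0 0 1600000 50000 50000 66667 66667 0 0 0)

lemma s21_22_7_7_33 {n : ℕ} (hn : 7 ≤ n) : NoNd (d21_22_7_7.R : ℤ) d21_22_7_7.H n d21_22_7_7.a d21_22_7_7.b
    (BlkD.inB (BlkD.upd (BlkD.upd (BlkD.upd (fun _ => 0) 0 4) 1 3) 1 5)
      (BlkD.upd (BlkD.upd (BlkD.upd (BlkD.upd (BlkD.upd (BlkD.upd (fun _ => 22) 0 7) 2 7) 0 5) 0 4) 1 11) 1 5)) :=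
  BlkD.tree_sound (BlkD.pairOk_sound k21_22_7_7) (by decide) hn t21_22_7_7_33 _ _ (by decide +kernel)

/-- certificates of the pair `(7, 7)`, part 34 -/
def t21_22_7_7_34 : BlkD.Tr :=
  .L 4 4 [4, 21, 21, 21, 21, 21, 21, 21] [138, 134, 130, 126, 108, 94] [] 100000 0 0 1600000 50000
    50000 66667 66667 0 0 0

lemma s21_22_7_7_34 {n : ℕ} (hn : 7 ≤ n) : NoNd (d21_22_7_7.R : ℤ) d21_22_7_7.H n d21_22_7_7.a d21_22_7_7.b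
    (BlkD.inB (BlkD.upd (BlkD.upd (fun _ => 0) 0 4) 1 6)
      (BlkD.upd (BlkD.upd (BlkD.upd (BlkD.upd (BlkD.upd (BlkD.upd (BlkD.upd (BlkD.upd (fun _ => 22) 0 7) 2 7) 0 5) 0 4) 1 11) 1 8) 1 7) 1 6)) :=
  BlkD.tree_sound (BlkD.pairOk_sound k21_22_7_7) (by decide) hn t21_22_7_7_34 _ _ (by decide +kernel)

/-- certificates of the pair `(7, 7)`, part 35 -/
def t21_22_7_7_35 : BlkD.Tr :=
  .L 4 4 [4, 21, 21, 21, 21, 21, 21, 21] [162, 158, 154, 150, 146, 128] [] 100000 0 0 1600000 50000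
    50000 66667 66667 0 0 0

lemma s21_22_7_7_35 {n : ℕ} (hn : 7 ≤ n) : NoNd (d21_22_7_7.R : ℤ) d21_22_7_7.H n d21_22_7_7.a d21_22_7_7.b
    (BlkD.inB (BlkD.upd (BlkD.upd (BlkD.upd (fun _ => 0) 0 4) 1 6) 1 7)
      (BlkD.upd (BlkD.upd (BlkD.upd (BlkD.upd (BlkD.upd (BlkD.upd (BlkD.upd (fun _ => 22) 0 7) 2 7) 0 5) 0 4) 1 11) 1 8) 1 7)) :=
  BlkD.tree_sound (BlkD.pairOk_sound k21_22_7_7) (by decide) hn t21_22_7_7_35 _ _ (by decide +kernel)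

/-- certificates of the pair `(7, 7)`, part 36 -/
def t21_22_7_7_36 : BlkD.Tr :=
  .L 4 4 [4, 21, 21, 21, 21, 21, 21, 21] [188, 184, 180, 176, 172, 168] [] 100000 0 0 1600000 50000
    50000 66667 66667 0 0 0

lemma s21_22_7_7_36 {n : ℕ} (hn : 7 ≤ n) : NoNd (d21_22_7_7.R : ℤ) d21_22_7_7.H n d21_22_7_7.a d21_22_7_7.b
    (BlkD.inB (BlkD.upd (BlkD.upd (BlkD.upd (fun _ => 0) 0 4) 1 6) 1 8)
      (BlkD.upd (BlkD.upd (BlkD.upd (BlkD.upd (BlkD.upd (BlkD.upd (fun _ => 22) 0 7) 2 7) 0 5) 0 4) 1 11) 1 8)) :=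
  BlkD.tree_sound (BlkD.pairOk_sound k21_22_7_7) (by decide) hn t21_22_7_7_36 _ _ (by decide +kernel)

/-- certificates of the pair `(7, 7)`, part 37 -/
def t21_22_7_7_37 : BlkD.Tr :=
  .L 4 4 [4, 21, 21, 21, 21, 21, 21, 21] [] [] 100000 0 0 1600000 50000 50000 66667 66667 0 0 0

lemma s21_22_7_7_37 {n : ℕ} (hn : 7 ≤ n) : NoNd (d21_22_7_7.R : ℤ) d21_22_7_7.H n d21_22_7_7.a d21_22_7_7.b
    (BlkD.inB (BlkD.upd (BlkD.upd (BlkD.upd (fun _ => 0) 0 4) 1 6) 1 9)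
      (BlkD.upd (BlkD.upd (BlkD.upd (BlkD.upd (BlkD.upd (fun _ => 22) 0 7) 2 7) 0 5) 0 4) 1 11)) :=
  BlkD.tree_sound (BlkD.pairOk_sound k21_22_7_7) (by decide) hn t21_22_7_7_37 _ _ (by decide +kernel)

/-- certificates of the pair `(7, 7)`, part 38 -/
def t21_22_7_7_38 : BlkD.Tr :=
  .L 4 4 [4, 21, 21, 21, 21, 21, 21, 21] [] [] 100000 0 0 1600000 50000 50000 66667 66667 0 0 0

lemma s21_22_7_7_38 {n : ℕ} (hn : 7 ≤ n) : NoNd (d21_22_7_7.R : ℤ) d21_22_7_7.H n d21_22_7_7.a d21_22_7_7.b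
    (BlkD.inB (BlkD.upd (BlkD.upd (fun _ => 0) 0 4) 1 12)
      (BlkD.upd (BlkD.upd (BlkD.upd (BlkD.upd (fun _ => 22) 0 7) 2 7) 0 5) 0 4)) :=
  BlkD.tree_sound (BlkD.pairOk_sound k21_22_7_7) (by decide) hn t21_22_7_7_38 _ _ (by decide +kernel)

/-- certificates of the pair `(7, 7)`, part 39 -/
def t21_22_7_7_39 : BlkD.Tr :=
  .L 4 4 [4, 21, 21, 21, 21, 21, 21, 21] [] [] 100000 0 0 1600000 50000 50000 66667 66667 0 0 0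

lemma s21_22_7_7_39 {n : ℕ} (hn : 7 ≤ n) : NoNd (d21_22_7_7.R : ℤ) d21_22_7_7.H n d21_22_7_7.a d21_22_7_7.b
    (BlkD.inB (BlkD.upd (BlkD.upd (fun _ => 0) 0 4) 0 5)
      (BlkD.upd (BlkD.upd (BlkD.upd (BlkD.upd (BlkD.upd (BlkD.upd (fun _ => 22) 0 7) 2 7) 0 5) 1 11) 1 5) 1 2)) :=
  BlkD.tree_sound (BlkD.pairOk_sound k21_22_7_7) (by decide) hn t21_22_7_7_39 _ _ (by decide +kernel)

/-- certificates of the pair `(7, 7)`, part 40 -/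
def t21_22_7_7_40 : BlkD.Tr :=
  .L 4 4 [4, 21, 21, 21, 21, 21, 21, 21] [] [] 100000 0 0 1600000 50000 50000 66667 66667 0 0 0

lemma s21_22_7_7_40 {n : ℕ} (hn : 7 ≤ n) : NoNd (d21_22_7_7.R : ℤ) d21_22_7_7.H n d21_22_7_7.a d21_22_7_7.b
    (BlkD.inB (BlkD.upd (BlkD.upd (BlkD.upd (fun _ => 0) 0 4) 0 5) 1 3)
      (BlkD.upd (BlkD.upd (BlkD.upd (BlkD.upd (BlkD.upd (BlkD.upd (fun _ => 22) 0 7) 2 7) 0 5) 1 11) 1 5) 1 4)) :=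
  BlkD.tree_sound (BlkD.pairOk_sound k21_22_7_7) (by decide) hn t21_22_7_7_40 _ _ (by decide +kernel)

/-- certificates of the pair `(7, 7)`, part 41 -/
def t21_22_7_7_41 : BlkD.Tr :=
  .L 4 4 [4, 21, 21, 21, 21, 21, 21, 21] [126, 122, 118, 100, 86, 70] [] 100000 0 0 1600000 50000
    50000 66667 66667 0 0 0

lemma s21_22_7_7_41 {n : ℕ} (hn : 7 ≤ n) : NoNd (d21_22_7_7.R : ℤ) d21_22_7_7.H n d21_22_7_7.a d21_22_7_7.b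
    (BlkD.inB (BlkD.upd (BlkD.upd (BlkD.upd (BlkD.upd (fun _ => 0) 0 4) 0 5) 1 3) 1 5)
      (BlkD.upd (BlkD.upd (BlkD.upd (BlkD.upd (BlkD.upd (fun _ => 22) 0 7) 2 7) 0 5) 1 11) 1 5)) :=
  BlkD.tree_sound (BlkD.pairOk_sound k21_22_7_7) (by decide) hn t21_22_7_7_41 _ _ (by decide +kernel)

/-- certificates of the pair `(7, 7)`, part 42 -/
def t21_22_7_7_42 : BlkD.Tr :=
  .L 4 4 [4, 21, 21, 21, 21, 21, 21, 21] [] [] 100000 0 0 1600000 50000 50000 66667 66667 0 0 0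

lemma s21_22_7_7_42 {n : ℕ} (hn : 7 ≤ n) : NoNd (d21_22_7_7.R : ℤ) d21_22_7_7.H n d21_22_7_7.a d21_22_7_7.b
    (BlkD.inB (BlkD.upd (BlkD.upd (BlkD.upd (fun _ => 0) 0 4) 0 5) 1 6)
      (BlkD.upd (BlkD.upd (BlkD.upd (BlkD.upd (fun _ => 22) 0 7) 2 7) 0 5) 1 11)) :=
  BlkD.tree_sound (BlkD.pairOk_sound k21_22_7_7) (by decide) hn t21_22_7_7_42 _ _ (by decide +kernel)

/-- certificates of the pair `(7, 7)`, part 43 -/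
def t21_22_7_7_43 : BlkD.Tr :=
  .L 4 4 [4, 21, 21, 21, 21, 21, 21, 21] [] [] 100000 0 0 1600000 50000 50000 66667 66667 0 0 0

lemma s21_22_7_7_43 {n : ℕ} (hn : 7 ≤ n) : NoNd (d21_22_7_7.R : ℤ) d21_22_7_7.H n d21_22_7_7.a d21_22_7_7.b
    (BlkD.inB (BlkD.upd (BlkD.upd (BlkD.upd (fun _ => 0) 0 4) 0 5) 1 12)
      (BlkD.upd (BlkD.upd (BlkD.upd (fun _ => 22) 0 7) 2 7) 0 5)) :=
  BlkD.tree_sound (BlkD.pairOk_sound k21_22_7_7) (by decide) hn t21_22_7_7_43 _ _ (by decide +kernel)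

/-- certificates of the pair `(7, 7)`, part 44 -/
def t21_22_7_7_44 : BlkD.Tr :=
  .L 4 4 [4, 21, 21, 21, 21, 21, 21, 21] [] [] 100000 0 0 1600000 50000 50000 66667 66667 0 0 0

lemma s21_22_7_7_44 {n : ℕ} (hn : 7 ≤ n) : NoNd (d21_22_7_7.R : ℤ) d21_22_7_7.H n d21_22_7_7.a d21_22_7_7.b
    (BlkD.inB (BlkD.upd (BlkD.upd (fun _ => 0) 0 4) 0 6)
      (BlkD.upd (BlkD.upd (fun _ => 22) 0 7) 2 7)) :=
  BlkD.tree_sound (BlkD.pairOk_sound k21_22_7_7) (by decide) hn t21_22_7_7_44 _ _ (by decide +kernel)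

/-- certificates of the pair `(7, 7)`, part 45 -/
def t21_22_7_7_45 : BlkD.Tr :=
  .E 1

lemma s21_22_7_7_45 {n : ℕ} (hn : 7 ≤ n) : NoNd (d21_22_7_7.R : ℤ) d21_22_7_7.H n d21_22_7_7.a d21_22_7_7.b
    (BlkD.inB (BlkD.upd (fun _ => 0) 2 8)
      (BlkD.upd (fun _ => 22) 0 7)) :=
  BlkD.tree_sound (BlkD.pairOk_sound k21_22_7_7) (by decide) hn t21_22_7_7_45 _ _ (by decide +kernel)

/-- certificates of the pair `(7, 7)`, part 46 -/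
def t21_22_7_7_46 : BlkD.Tr :=
  .E 0

lemma s21_22_7_7_46 {n : ℕ} (hn : 7 ≤ n) : NoNd (d21_22_7_7.R : ℤ) d21_22_7_7.H n d21_22_7_7.a d21_22_7_7.b
    (BlkD.inB (BlkD.upd (fun _ => 0) 0 8)
      (fun _ => 22)) :=
  BlkD.tree_sound (BlkD.pairOk_sound k21_22_7_7) (by decide) hn t21_22_7_7_46 _ _ (by decide +kernel)

lemma pr21_22_7_7 {n : ℕ} (hn : 7 ≤ n) : NoPr ((21 : ℕ) : ℤ) ((22 : ℕ) : ℤ) n 7 7 :=
  BlkD.of_root (R := d21_22_7_7.R) (H := d21_22_7_7.H) (a := d21_22_7_7.a) (b := d21_22_7_7.b) (q := 5) (by decide) hn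
    (BlkD.sp 0 7 (BlkD.sp 2 7 (BlkD.sp 0 3 (BlkD.sp 0 1 (BlkD.sp 0 0 (s21_22_7_7_1 hn) (BlkD.sp 1
      11 (BlkD.sp 1 5 (BlkD.sp 1 2 (s21_22_7_7_2 hn) (s21_22_7_7_3 hn)) (BlkD.sp 1 8 (BlkD.sp 1 7
      (s21_22_7_7_4 hn) (s21_22_7_7_5 hn)) (s21_22_7_7_6 hn))) (s21_22_7_7_7 hn))) (BlkD.sp 0 2
      (BlkD.sp 1 11 (BlkD.sp 1 5 (BlkD.sp 1 2 (s21_22_7_7_8 hn) (BlkD.sp 1 4 (s21_22_7_7_9 hn)
      (s21_22_7_7_10 hn))) (BlkD.sp 1 8 (BlkD.sp 1 7 (BlkD.sp 1 6 (s21_22_7_7_11 hn) (BlkD.sp 2 3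
      (s21_22_7_7_12 hn) (s21_22_7_7_13 hn))) (BlkD.sp 2 3 (s21_22_7_7_14 hn) (s21_22_7_7_15 hn)))
      (BlkD.sp 1 10 (BlkD.sp 1 9 (s21_22_7_7_16 hn) (s21_22_7_7_17 hn)) (s21_22_7_7_18 hn))))
      (s21_22_7_7_19 hn)) (BlkD.sp 1 11 (BlkD.sp 1 5 (BlkD.sp 1 2 (s21_22_7_7_20 hn) (BlkD.sp 1 4
      (s21_22_7_7_21 hn) (s21_22_7_7_22 hn))) (BlkD.sp 1 8 (BlkD.sp 1 7 (BlkD.sp 1 6 (BlkD.sp 2 3
      (s21_22_7_7_23 hn) (s21_22_7_7_24 hn)) (BlkD.sp 2 3 (s21_22_7_7_25 hn) (s21_22_7_7_26 hn)))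
      (s21_22_7_7_27 hn)) (s21_22_7_7_28 hn))) (s21_22_7_7_29 hn)))) (BlkD.sp 0 5 (BlkD.sp 0 4
      (BlkD.sp 1 11 (BlkD.sp 1 5 (BlkD.sp 1 2 (s21_22_7_7_30 hn) (BlkD.sp 1 4 (BlkD.sp 1 3
      (s21_22_7_7_31 hn) (s21_22_7_7_32 hn)) (s21_22_7_7_33 hn))) (BlkD.sp 1 8 (BlkD.sp 1 7
      (BlkD.sp 1 6 (s21_22_7_7_34 hn) (s21_22_7_7_35 hn)) (s21_22_7_7_36 hn)) (s21_22_7_7_37 hn)))
      (s21_22_7_7_38 hn)) (BlkD.sp 1 11 (BlkD.sp 1 5 (BlkD.sp 1 2 (s21_22_7_7_39 hn) (BlkD.sp 1 4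
      (s21_22_7_7_40 hn) (s21_22_7_7_41 hn))) (s21_22_7_7_42 hn)) (s21_22_7_7_43 hn)))
      (s21_22_7_7_44 hn))) (s21_22_7_7_45 hn)) (s21_22_7_7_46 hn))

end BlkC

end Pool.Agent.Lib.MP_f04ccf_co
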