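import Pool.Agent.Lib.MP_f04ccf_co.M.BlkT

/-!
MP_f04ccf_co, block certificate, data `R = 21`, `H = 22`, part 9 (generated, helper99:
bd10.cpp, gen2.py).
-/

set_option autoImplicit false
set_option maxRecDepth 100000

namespace Pool.Agent.Lib.MP_f04ccf_co

namespace BlkC

/-- the numbers of the pair `(8, 0)`, `R = 21`, `H = 22` -/
def d21_22_8_0 : BlkD.Pd :=
  ⟨21, 22, 5, 8, 0, 11, 0, 1, 0, 4, 4, 0, 0, 4, 4, 0, [0, 4, 8, 12, 16, 20, 24, 28, 32, 36, 40,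
    44], [0, 4, 8, 12, 16, 20, 24, 28, 32, 36, 40, 44], [⟨1, 1, 1, 4, 8, [0, 4], [0, 4]⟩]⟩

/-- the certificates of the pair `(8, 0)` -/
def t21_22_8_0 : BlkD.Tr :=
  .S 0 8 (.S 2 0 (.S 0 4 (.L 4 4 [4] [] [] 100000 0 0 925000 50000 0 75000 25000 0 0 0) (.L 4 4 [4]
    [] [] 100000 0 0 925000 50000 0 75000 25000 0 0 0)) (.E 1)) (.E 0)

lemma pr21_22_8_0 {n : ℕ} (hn : 7 ≤ n) : NoPr ((21 : ℕ) : ℤ) ((22 : ℕ) : ℤ) n 8 0 :=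
  BlkD.pair_sound (d := d21_22_8_0) (by decide +kernel) hn (by decide) (tr := t21_22_8_0)
    (by decide +kernel) rfl rfl rfl rfl

/-- the numbers of the pair `(8, 1)`, `R = 21`, `H = 22` -/
def d21_22_8_1 : BlkD.Pd :=
  ⟨21, 22, 5, 8, 1, 10, 1, 1, 0, 4, 8, 0, 0, 4, 4, 0, [0, 8, 16, 24, 32, 40, 40, 40, 40, 40, 40],
    [0, 4, 8, 12, 16, 20, 24, 28, 32, 36, 40], [⟨1, 1, 1, 4, 8, [0, 4], [0, 4]⟩, ⟨1, 1, 1, 4, 12,
    [0, 8], [0, 4]⟩]⟩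

lemma k21_22_8_1 : BlkD.pairOk d21_22_8_1 = true := by decide +kernel

/-- certificates of the pair `(8, 1)`, part 1 -/
def t21_22_8_1_1 : BlkD.Tr :=
  .L 4 5 [4, 4] [] [] 100000 0 0 1100003 33333 0 66667 0 0 0 0

lemma s21_22_8_1_1 {n : ℕ} (hn : 7 ≤ n) : NoNd (d21_22_8_1.R : ℤ) d21_22_8_1.H n d21_22_8_1.a d21_22_8_1.b
    (BlkD.inB (fun _ => 0)
      (BlkD.upd (BlkD.upd (BlkD.upd (BlkD.upd (BlkD.upd (fun _ => 22) 0 8) 2 1) 0 4) 0 2) 0 1)) :=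
  BlkD.tree_sound (BlkD.pairOk_sound k21_22_8_1) (by decide) hn t21_22_8_1_1 _ _ (by decide +kernel)

/-- certificates of the pair `(8, 1)`, part 2 -/
def t21_22_8_1_2 : BlkD.Tr :=
  .L 4 5 [4, 4] [] [] 100000 0 0 1100003 33333 0 66667 0 0 0 0

lemma s21_22_8_1_2 {n : ℕ} (hn : 7 ≤ n) : NoNd (d21_22_8_1.R : ℤ) d21_22_8_1.H n d21_22_8_1.a d21_22_8_1.b
    (BlkD.inB (BlkD.upd (fun _ => 0) 0 2)
      (BlkD.upd (BlkD.upd (BlkD.upd (BlkD.upd (fun _ => 22) 0 8) 2 1) 0 4) 0 2)) :=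
  BlkD.tree_sound (BlkD.pairOk_sound k21_22_8_1) (by decide) hn t21_22_8_1_2 _ _ (by decide +kernel)

/-- certificates of the pair `(8, 1)`, part 3 -/
def t21_22_8_1_3 : BlkD.Tr :=
  .L 4 5 [4, 4] [] [] 100000 0 0 1100003 33333 0 66667 0 0 0 0

lemma s21_22_8_1_3 {n : ℕ} (hn : 7 ≤ n) : NoNd (d21_22_8_1.R : ℤ) d21_22_8_1.H n d21_22_8_1.a d21_22_8_1.b
    (BlkD.inB (BlkD.upd (fun _ => 0) 0 3)
      (BlkD.upd (BlkD.upd (BlkD.upd (fun _ => 22) 0 8) 2 1) 0 4)) :=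
  BlkD.tree_sound (BlkD.pairOk_sound k21_22_8_1) (by decide) hn t21_22_8_1_3 _ _ (by decide +kernel)

/-- certificates of the pair `(8, 1)`, part 4 -/
def t21_22_8_1_4 : BlkD.Tr :=
  .L 4 5 [4, 4] [] [] 100000 0 0 1100003 33333 0 66667 0 0 0 0

lemma s21_22_8_1_4 {n : ℕ} (hn : 7 ≤ n) : NoNd (d21_22_8_1.R : ℤ) d21_22_8_1.H n d21_22_8_1.a d21_22_8_1.b
    (BlkD.inB (BlkD.upd (fun _ => 0) 0 5)
      (BlkD.upd (BlkD.upd (fun _ => 22) 0 8) 2 1)) :=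
  BlkD.tree_sound (BlkD.pairOk_sound k21_22_8_1) (by decide) hn t21_22_8_1_4 _ _ (by decide +kernel)

/-- certificates of the pair `(8, 1)`, part 5 -/
def t21_22_8_1_5 : BlkD.Tr :=
  .E 1

lemma s21_22_8_1_5 {n : ℕ} (hn : 7 ≤ n) : NoNd (d21_22_8_1.R : ℤ) d21_22_8_1.H n d21_22_8_1.a d21_22_8_1.b
    (BlkD.inB (BlkD.upd (fun _ => 0) 2 2)
      (BlkD.upd (fun _ => 22) 0 8)) :=
  BlkD.tree_sound (BlkD.pairOk_sound k21_22_8_1) (by decide) hn t21_22_8_1_5 _ _ (by decide +kernel)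

/-- certificates of the pair `(8, 1)`, part 6 -/
def t21_22_8_1_6 : BlkD.Tr :=
  .E 0

lemma s21_22_8_1_6 {n : ℕ} (hn : 7 ≤ n) : NoNd (d21_22_8_1.R : ℤ) d21_22_8_1.H n d21_22_8_1.a d21_22_8_1.b
    (BlkD.inB (BlkD.upd (fun _ => 0) 0 9)
      (fun _ => 22)) :=
  BlkD.tree_sound (BlkD.pairOk_sound k21_22_8_1) (by decide) hn t21_22_8_1_6 _ _ (by decide +kernel)

lemma pr21_22_8_1 {n : ℕ} (hn : 7 ≤ n) : NoPr ((21 : ℕ) : ℤ) ((22 : ℕ) : ℤ) n 8 1 :=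
  BlkD.of_root (R := d21_22_8_1.R) (H := d21_22_8_1.H) (a := d21_22_8_1.a) (b := d21_22_8_1.b) (q := 5) (by decide) hn
    (BlkD.sp 0 8 (BlkD.sp 2 1 (BlkD.sp 0 4 (BlkD.sp 0 2 (BlkD.sp 0 1 (s21_22_8_1_1 hn)
      (s21_22_8_1_2 hn)) (s21_22_8_1_3 hn)) (s21_22_8_1_4 hn)) (s21_22_8_1_5 hn)) (s21_22_8_1_6
      hn))

/-- the numbers of the pair `(8, 2)`, `R = 21`, `H = 22` -/
def d21_22_8_2 : BlkD.Pd :=
  ⟨21, 22, 5, 8, 2, 9, 2, 1, 0, 4, 10, 0, 0, 4, 6, 0, [0, 10, 20, 30, 36, 36, 36, 36, 36, 36], [0,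
    6, 12, 18, 24, 30, 36, 36, 36, 36], [⟨1, 1, 1, 4, 8, [0, 4], [0, 4]⟩, ⟨1, 1, 1, 4, 12, [0, 8],
    [0, 4]⟩, ⟨1, 1, 1, 6, 16, [0, 10], [0, 6]⟩]⟩

lemma k21_22_8_2 : BlkD.pairOk d21_22_8_2 = true := by decide +kernel

/-- certificates of the pair `(8, 2)`, part 1 -/
def t21_22_8_2_1 : BlkD.Tr :=
  .S 0 0 (.L 4 6 [4, 4, 5] [] [] 100000 0 0 1200003 33333 0 66667 16667 0 33333 33333) (.S 1 11 (.L
    4 6 [4, 4, 5] [] [] 100000 0 0 1200003 33333 0 66667 16667 0 33333 33333) (.L 4 6 [4, 4, 5] []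
    [] 100000 0 0 1200003 33333 0 66667 16667 0 33333 33333))

lemma s21_22_8_2_1 {n : ℕ} (hn : 7 ≤ n) : NoNd (d21_22_8_2.R : ℤ) d21_22_8_2.H n d21_22_8_2.a d21_22_8_2.b
    (BlkD.inB (fun _ => 0)
      (BlkD.upd (BlkD.upd (BlkD.upd (BlkD.upd (BlkD.upd (fun _ => 22) 0 8) 2 2) 0 4) 0 2) 0 1)) :=
  BlkD.tree_sound (BlkD.pairOk_sound k21_22_8_2) (by decide) hn t21_22_8_2_1 _ _ (by decide +kernel)

/-- certificates of the pair `(8, 2)`, part 2 -/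
def t21_22_8_2_2 : BlkD.Tr :=
  .L 4 6 [4, 4, 5] [] [] 100000 0 0 1200003 33333 0 66667 16667 0 33333 33333

lemma s21_22_8_2_2 {n : ℕ} (hn : 7 ≤ n) : NoNd (d21_22_8_2.R : ℤ) d21_22_8_2.H n d21_22_8_2.a d21_22_8_2.b
    (BlkD.inB (BlkD.upd (fun _ => 0) 0 2)
      (BlkD.upd (BlkD.upd (BlkD.upd (BlkD.upd (fun _ => 22) 0 8) 2 2) 0 4) 0 2)) :=
  BlkD.tree_sound (BlkD.pairOk_sound k21_22_8_2) (by decide) hn t21_22_8_2_2 _ _ (by decide +kernel)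

/-- certificates of the pair `(8, 2)`, part 3 -/
def t21_22_8_2_3 : BlkD.Tr :=
  .L 4 6 [4, 4, 5] [] [] 100000 0 0 1200003 33333 0 66667 16667 0 33333 33333

lemma s21_22_8_2_3 {n : ℕ} (hn : 7 ≤ n) : NoNd (d21_22_8_2.R : ℤ) d21_22_8_2.H n d21_22_8_2.a d21_22_8_2.b
    (BlkD.inB (BlkD.upd (fun _ => 0) 0 3)
      (BlkD.upd (BlkD.upd (BlkD.upd (BlkD.upd (fun _ => 22) 0 8) 2 2) 0 4) 0 3)) :=
  BlkD.tree_sound (BlkD.pairOk_sound k21_22_8_2) (by decide) hn t21_22_8_2_3 _ _ (by decide +kernel)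

/-- certificates of the pair `(8, 2)`, part 4 -/
def t21_22_8_2_4 : BlkD.Tr :=
  .L 4 6 [4, 4, 5] [] [] 100000 0 0 1200003 33333 0 66667 16667 0 33333 33333

lemma s21_22_8_2_4 {n : ℕ} (hn : 7 ≤ n) : NoNd (d21_22_8_2.R : ℤ) d21_22_8_2.H n d21_22_8_2.a d21_22_8_2.b
    (BlkD.inB (BlkD.upd (BlkD.upd (fun _ => 0) 0 3) 0 4)
      (BlkD.upd (BlkD.upd (BlkD.upd (fun _ => 22) 0 8) 2 2) 0 4)) :=
  BlkD.tree_sound (BlkD.pairOk_sound k21_22_8_2) (by decide) hn t21_22_8_2_4 _ _ (by decide +kernel)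

/-- certificates of the pair `(8, 2)`, part 5 -/
def t21_22_8_2_5 : BlkD.Tr :=
  .L 4 6 [4, 4, 5] [] [] 100000 0 0 1297300 17117 0 63063 8559 3604 33333 33333

lemma s21_22_8_2_5 {n : ℕ} (hn : 7 ≤ n) : NoNd (d21_22_8_2.R : ℤ) d21_22_8_2.H n d21_22_8_2.a d21_22_8_2.b
    (BlkD.inB (BlkD.upd (fun _ => 0) 0 5)
      (BlkD.upd (BlkD.upd (fun _ => 22) 0 8) 2 2)) :=
  BlkD.tree_sound (BlkD.pairOk_sound k21_22_8_2) (by decide) hn t21_22_8_2_5 _ _ (by decide +kernel)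

/-- certificates of the pair `(8, 2)`, part 6 -/
def t21_22_8_2_6 : BlkD.Tr :=
  .E 1

lemma s21_22_8_2_6 {n : ℕ} (hn : 7 ≤ n) : NoNd (d21_22_8_2.R : ℤ) d21_22_8_2.H n d21_22_8_2.a d21_22_8_2.b
    (BlkD.inB (BlkD.upd (fun _ => 0) 2 3)
      (BlkD.upd (fun _ => 22) 0 8)) :=
  BlkD.tree_sound (BlkD.pairOk_sound k21_22_8_2) (by decide) hn t21_22_8_2_6 _ _ (by decide +kernel)

/-- certificates of the pair `(8, 2)`, part 7 -/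
def t21_22_8_2_7 : BlkD.Tr :=
  .E 0

lemma s21_22_8_2_7 {n : ℕ} (hn : 7 ≤ n) : NoNd (d21_22_8_2.R : ℤ) d21_22_8_2.H n d21_22_8_2.a d21_22_8_2.b
    (BlkD.inB (BlkD.upd (fun _ => 0) 0 9)
      (fun _ => 22)) :=
  BlkD.tree_sound (BlkD.pairOk_sound k21_22_8_2) (by decide) hn t21_22_8_2_7 _ _ (by decide +kernel)

lemma pr21_22_8_2 {n : ℕ} (hn : 7 ≤ n) : NoPr ((21 : ℕ) : ℤ) ((22 : ℕ) : ℤ) n 8 2 :=
  BlkD.of_root (R := d21_22_8_2.R) (H := d21_22_8_2.H) (a := d21_22_8_2.a) (b := d21_22_8_2.b) (q := 5) (by decide) hn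
    (BlkD.sp 0 8 (BlkD.sp 2 2 (BlkD.sp 0 4 (BlkD.sp 0 2 (BlkD.sp 0 1 (s21_22_8_2_1 hn)
      (s21_22_8_2_2 hn)) (BlkD.sp 0 3 (s21_22_8_2_3 hn) (s21_22_8_2_4 hn))) (s21_22_8_2_5 hn))
      (s21_22_8_2_6 hn)) (s21_22_8_2_7 hn))

/-- the numbers of the pair `(8, 3)`, `R = 21`, `H = 22` -/
def d21_22_8_3 : BlkD.Pd :=
  ⟨21, 22, 5, 8, 3, 8, 3, 2, 1, 4, 12, 0, 4, 1, 8, 0, [0, 12, 24, 35, 36, 37, 38, 39, 40], [0, 8,
    16, 20, 24, 28, 32, 36, 40], [⟨1, 1, 1, 4, 8, [0, 4], [0, 4]⟩, ⟨1, 1, 1, 4, 14, [0, 8], [0,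
    6]⟩, ⟨1, 1, 1, 4, 16, [0, 10], [0, 6]⟩, ⟨2, 1, 1, 4, 26, [0, 12, 18], [0, 8]⟩]⟩

lemma k21_22_8_3 : BlkD.pairOk d21_22_8_3 = true := by decide +kernel

/-- certificates of the pair `(8, 3)`, part 1 -/
def t21_22_8_3_1 : BlkD.Tr :=
  .L 5 7 [4, 4, 4, 5] [] [] 100000 110699 110699 911115 81481 0 96296 29630 0 0 9877

lemma s21_22_8_3_1 {n : ℕ} (hn : 7 ≤ n) : NoNd (d21_22_8_3.R : ℤ) d21_22_8_3.H n d21_22_8_3.a d21_22_8_3.b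
    (BlkD.inB (fun _ => 0)
      (BlkD.upd (BlkD.upd (BlkD.upd (BlkD.upd (BlkD.upd (BlkD.upd (fun _ => 22) 0 8) 2 3) 0 4) 0 2) 0 1) 0 0)) :=
  BlkD.tree_sound (BlkD.pairOk_sound k21_22_8_3) (by decide) hn t21_22_8_3_1 _ _ (by decide +kernel)

/-- certificates of the pair `(8, 3)`, part 2 -/
def t21_22_8_3_2 : BlkD.Tr :=
  .L 5 7 [4, 4, 4, 5] [] [] 100000 110699 110699 911115 81481 0 96296 29630 0 0 9877

lemma s21_22_8_3_2 {n : ℕ} (hn : 7 ≤ n) : NoNd (d21_22_8_3.R : ℤ) d21_22_8_3.H n d21_22_8_3.a d21_22_8_3.b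
    (BlkD.inB (BlkD.upd (fun _ => 0) 0 1)
      (BlkD.upd (BlkD.upd (BlkD.upd (BlkD.upd (BlkD.upd (BlkD.upd (BlkD.upd (fun _ => 22) 0 8) 2 3) 0 4) 0 2) 0 1) 1 11) 1 5)) :=
  BlkD.tree_sound (BlkD.pairOk_sound k21_22_8_3) (by decide) hn t21_22_8_3_2 _ _ (by decide +kernel)

/-- certificates of the pair `(8, 3)`, part 3 -/
def t21_22_8_3_3 : BlkD.Tr :=
  .S 1 8 (.L 5 7 [4, 4, 4, 5] [] [] 100000 110699 110699 911115 81481 0 96296 29630 0 0 9877) (.L 5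
    7 [4, 4, 4, 5] [] [] 100000 110699 110699 911115 81481 0 96296 29630 0 0 9877)

lemma s21_22_8_3_3 {n : ℕ} (hn : 7 ≤ n) : NoNd (d21_22_8_3.R : ℤ) d21_22_8_3.H n d21_22_8_3.a d21_22_8_3.b
    (BlkD.inB (BlkD.upd (BlkD.upd (fun _ => 0) 0 1) 1 6)
      (BlkD.upd (BlkD.upd (BlkD.upd (BlkD.upd (BlkD.upd (BlkD.upd (fun _ => 22) 0 8) 2 3) 0 4) 0 2) 0 1) 1 11)) :=
  BlkD.tree_sound (BlkD.pairOk_sound k21_22_8_3) (by decide) hn t21_22_8_3_3 _ _ (by decide +kernel)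

/-- certificates of the pair `(8, 3)`, part 4 -/
def t21_22_8_3_4 : BlkD.Tr :=
  .L 5 7 [4, 4, 4, 5] [] [] 100000 110699 110699 911115 81481 0 96296 29630 0 0 9877

lemma s21_22_8_3_4 {n : ℕ} (hn : 7 ≤ n) : NoNd (d21_22_8_3.R : ℤ) d21_22_8_3.H n d21_22_8_3.a d21_22_8_3.b
    (BlkD.inB (BlkD.upd (BlkD.upd (fun _ => 0) 0 1) 1 12)
      (BlkD.upd (BlkD.upd (BlkD.upd (BlkD.upd (BlkD.upd (fun _ => 22) 0 8) 2 3) 0 4) 0 2) 0 1)) :=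
  BlkD.tree_sound (BlkD.pairOk_sound k21_22_8_3) (by decide) hn t21_22_8_3_4 _ _ (by decide +kernel)

/-- certificates of the pair `(8, 3)`, part 5 -/
def t21_22_8_3_5 : BlkD.Tr :=
  .L 5 7 [4, 4, 4, 5] [] [] 100000 110699 110699 911115 81481 0 96296 29630 0 0 9877

lemma s21_22_8_3_5 {n : ℕ} (hn : 7 ≤ n) : NoNd (d21_22_8_3.R : ℤ) d21_22_8_3.H n d21_22_8_3.a d21_22_8_3.b
    (BlkD.inB (BlkD.upd (fun _ => 0) 0 2)
      (BlkD.upd (BlkD.upd (BlkD.upd (BlkD.upd (BlkD.upd (BlkD.upd (fun _ => 22) 0 8) 2 3) 0 4) 0 2) 1 11) 1 5)) :=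
  BlkD.tree_sound (BlkD.pairOk_sound k21_22_8_3) (by decide) hn t21_22_8_3_5 _ _ (by decide +kernel)

/-- certificates of the pair `(8, 3)`, part 6 -/
def t21_22_8_3_6 : BlkD.Tr :=
  .L 5 7 [4, 4, 4, 5] [] [] 100000 110699 110699 911115 81481 0 96296 29630 0 0 9877

lemma s21_22_8_3_6 {n : ℕ} (hn : 7 ≤ n) : NoNd (d21_22_8_3.R : ℤ) d21_22_8_3.H n d21_22_8_3.a d21_22_8_3.b
    (BlkD.inB (BlkD.upd (BlkD.upd (fun _ => 0) 0 2) 1 6)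
      (BlkD.upd (BlkD.upd (BlkD.upd (BlkD.upd (BlkD.upd (BlkD.upd (fun _ => 22) 0 8) 2 3) 0 4) 0 2) 1 11) 1 8)) :=
  BlkD.tree_sound (BlkD.pairOk_sound k21_22_8_3) (by decide) hn t21_22_8_3_6 _ _ (by decide +kernel)

/-- certificates of the pair `(8, 3)`, part 7 -/
def t21_22_8_3_7 : BlkD.Tr :=
  .L 5 7 [4, 4, 4, 5] [] [] 100000 110699 110699 911115 81481 0 96296 29630 0 0 9877

lemma s21_22_8_3_7 {n : ℕ} (hn : 7 ≤ n) : NoNd (d21_22_8_3.R : ℤ) d21_22_8_3.H n d21_22_8_3.a d21_22_8_3.b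
    (BlkD.inB (BlkD.upd (BlkD.upd (BlkD.upd (fun _ => 0) 0 2) 1 6) 1 9)
      (BlkD.upd (BlkD.upd (BlkD.upd (BlkD.upd (BlkD.upd (fun _ => 22) 0 8) 2 3) 0 4) 0 2) 1 11)) :=
  BlkD.tree_sound (BlkD.pairOk_sound k21_22_8_3) (by decide) hn t21_22_8_3_7 _ _ (by decide +kernel)

/-- certificates of the pair `(8, 3)`, part 8 -/
def t21_22_8_3_8 : BlkD.Tr :=
  .L 5 7 [4, 4, 4, 5] [] [] 100000 110699 110699 911115 81481 0 96296 29630 0 0 9877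

lemma s21_22_8_3_8 {n : ℕ} (hn : 7 ≤ n) : NoNd (d21_22_8_3.R : ℤ) d21_22_8_3.H n d21_22_8_3.a d21_22_8_3.b
    (BlkD.inB (BlkD.upd (BlkD.upd (fun _ => 0) 0 2) 1 12)
      (BlkD.upd (BlkD.upd (BlkD.upd (BlkD.upd (fun _ => 22) 0 8) 2 3) 0 4) 0 2)) :=
  BlkD.tree_sound (BlkD.pairOk_sound k21_22_8_3) (by decide) hn t21_22_8_3_8 _ _ (by decide +kernel)

/-- certificates of the pair `(8, 3)`, part 9 -/
def t21_22_8_3_9 : BlkD.Tr :=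
  .L 5 7 [4, 4, 4, 5] [] [] 100000 33334 33334 1050001 33333 0 33333 16667 0 0 0

lemma s21_22_8_3_9 {n : ℕ} (hn : 7 ≤ n) : NoNd (d21_22_8_3.R : ℤ) d21_22_8_3.H n d21_22_8_3.a d21_22_8_3.b
    (BlkD.inB (BlkD.upd (fun _ => 0) 0 3)
      (BlkD.upd (BlkD.upd (BlkD.upd (BlkD.upd (BlkD.upd (BlkD.upd (BlkD.upd (fun _ => 22) 0 8) 2 3) 0 4) 0 3) 1 19) 1 9) 1 4)) :=
  BlkD.tree_sound (BlkD.pairOk_sound k21_22_8_3) (by decide) hn t21_22_8_3_9 _ _ (by decide +kernel)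

/-- certificates of the pair `(8, 3)`, part 10 -/
def t21_22_8_3_10 : BlkD.Tr :=
  .S 1 7 (.L 5 7 [4, 4, 4, 5] [] [] 100000 61540 61540 1176926 38462 0 46154 53846 0 15385 23077)
    (.S 1 8 (.L 5 7 [4, 4, 4, 5] [160, 159, 158, 157, 151, 140] [] 100000 56746 56746 1164288 50000
    0 67857 35714 0 14286 16667) (.L 5 7 [4, 4, 4, 5] [183, 182, 181, 180, 179, 173] [] 100000
    52779 52779 1175000 54167 0 58333 45833 0 4167 16667))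

lemma s21_22_8_3_10 {n : ℕ} (hn : 7 ≤ n) : NoNd (d21_22_8_3.R : ℤ) d21_22_8_3.H n d21_22_8_3.a d21_22_8_3.b
    (BlkD.inB (BlkD.upd (BlkD.upd (fun _ => 0) 0 3) 1 5)
      (BlkD.upd (BlkD.upd (BlkD.upd (BlkD.upd (BlkD.upd (BlkD.upd (fun _ => 22) 0 8) 2 3) 0 4) 0 3) 1 19) 1 9)) :=
  BlkD.tree_sound (BlkD.pairOk_sound k21_22_8_3) (by decide) hn t21_22_8_3_10 _ _ (by decide +kernel)

/-- certificates of the pair `(8, 3)`, part 11 -/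
def t21_22_8_3_11 : BlkD.Tr :=
  .S 1 14 (.S 1 12 (.S 1 11 (.S 1 10 (.L 5 7 [4, 4, 4, 5] [208, 207, 206, 205, 204, 203] [] 100000
    108130 98374 926830 92683 0 109756 41463 0 0 2439) (.L 5 7 [4, 4, 4, 5] [235, 234, 233, 232,
    231, 230] [] 100000 116667 89394 813638 101515 0 127273 24242 0 0 3030)) (.L 5 7 [4, 4, 4, 5]
    [264, 263, 262, 261, 260, 259] [] 100000 120690 24138 455172 113793 0 196552 24138 0 0 0)) (.E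
    0)) (.E 0)

lemma s21_22_8_3_11 {n : ℕ} (hn : 7 ≤ n) : NoNd (d21_22_8_3.R : ℤ) d21_22_8_3.H n d21_22_8_3.a d21_22_8_3.b
    (BlkD.inB (BlkD.upd (BlkD.upd (fun _ => 0) 0 3) 1 10)
      (BlkD.upd (BlkD.upd (BlkD.upd (BlkD.upd (BlkD.upd (fun _ => 22) 0 8) 2 3) 0 4) 0 3) 1 19)) :=
  BlkD.tree_sound (BlkD.pairOk_sound k21_22_8_3) (by decide) hn t21_22_8_3_11 _ _ (by decide +kernel)

/-- certificates of the pair `(8, 3)`, part 12 -/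
def t21_22_8_3_12 : BlkD.Tr :=
  .E 0

lemma s21_22_8_3_12 {n : ℕ} (hn : 7 ≤ n) : NoNd (d21_22_8_3.R : ℤ) d21_22_8_3.H n d21_22_8_3.a d21_22_8_3.b
    (BlkD.inB (BlkD.upd (BlkD.upd (fun _ => 0) 0 3) 1 20)
      (BlkD.upd (BlkD.upd (BlkD.upd (BlkD.upd (fun _ => 22) 0 8) 2 3) 0 4) 0 3)) :=
  BlkD.tree_sound (BlkD.pairOk_sound k21_22_8_3) (by decide) hn t21_22_8_3_12 _ _ (by decide +kernel)

/-- certificates of the pair `(8, 3)`, part 13 -/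
def t21_22_8_3_13 : BlkD.Tr :=
  .L 5 7 [4, 4, 4, 5] [] [] 100000 33334 33334 1125000 25000 0 25000 75000 0 0 0

lemma s21_22_8_3_13 {n : ℕ} (hn : 7 ≤ n) : NoNd (d21_22_8_3.R : ℤ) d21_22_8_3.H n d21_22_8_3.a d21_22_8_3.b
    (BlkD.inB (BlkD.upd (BlkD.upd (fun _ => 0) 0 3) 0 4)
      (BlkD.upd (BlkD.upd (BlkD.upd (BlkD.upd (BlkD.upd (BlkD.upd (fun _ => 22) 0 8) 2 3) 0 4) 1 18) 1 9) 1 4)) :=
  BlkD.tree_sound (BlkD.pairOk_sound k21_22_8_3) (by decide) hn t21_22_8_3_13 _ _ (by decide +kernel)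

/-- certificates of the pair `(8, 3)`, part 14 -/
def t21_22_8_3_14 : BlkD.Tr :=
  .S 1 7 (.S 1 6 (.S 1 5 (.L 5 7 [4, 4, 4, 5] [113, 107, 96, 84, 72, 60] [] 100000 44444 44444
    1166668 33333 0 33333 66667 0 0 0) (.L 5 7 [4, 4, 4, 5] [132, 131, 125, 114, 102, 90] [] 100000
    38889 38889 1233336 33333 0 50000 66667 0 16667 16667)) (.L 5 7 [4, 4, 4, 5] [153, 152, 151,
    145, 134, 122] [] 100000 30093 30093 1300002 33333 0 54167 45833 0 20833 22222)) (.S 1 8 (.L 5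
    7 [4, 4, 4, 5] [176, 175, 174, 173, 167, 156] [] 100000 33334 33334 1280000 40000 0 70000 40000
    0 20000 20000) (.L 5 7 [4, 4, 4, 5] [201, 200, 199, 198, 197, 191] [] 100000 51390 51390
    1200000 50000 0 100000 37500 0 12500 16667))

lemma s21_22_8_3_14 {n : ℕ} (hn : 7 ≤ n) : NoNd (d21_22_8_3.R : ℤ) d21_22_8_3.H n d21_22_8_3.a d21_22_8_3.b
    (BlkD.inB (BlkD.upd (BlkD.upd (BlkD.upd (fun _ => 0) 0 3) 0 4) 1 5)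
      (BlkD.upd (BlkD.upd (BlkD.upd (BlkD.upd (BlkD.upd (fun _ => 22) 0 8) 2 3) 0 4) 1 18) 1 9)) :=
  BlkD.tree_sound (BlkD.pairOk_sound k21_22_8_3) (by decide) hn t21_22_8_3_14 _ _ (by decide +kernel)

/-- certificates of the pair `(8, 3)`, part 15 -/
def t21_22_8_3_15 : BlkD.Tr :=
  .S 1 14 (.S 1 12 (.S 1 11 (.S 1 10 (.L 5 7 [4, 4, 4, 5] [228, 227, 226, 225, 224, 223] [] 100000
    73334 63334 1030001 70000 0 110000 33333 0 0 0) (.L 5 7 [4, 4, 4, 5] [257, 256, 255, 254, 253,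
    252] [] 100000 105556 22223 566669 100000 0 183333 33333 0 0 0)) (.E 0)) (.E 0)) (.E 0)

lemma s21_22_8_3_15 {n : ℕ} (hn : 7 ≤ n) : NoNd (d21_22_8_3.R : ℤ) d21_22_8_3.H n d21_22_8_3.a d21_22_8_3.b
    (BlkD.inB (BlkD.upd (BlkD.upd (BlkD.upd (fun _ => 0) 0 3) 0 4) 1 10)
      (BlkD.upd (BlkD.upd (BlkD.upd (BlkD.upd (fun _ => 22) 0 8) 2 3) 0 4) 1 18)) :=
  BlkD.tree_sound (BlkD.pairOk_sound k21_22_8_3) (by decide) hn t21_22_8_3_15 _ _ (by decide +kernel)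

/-- certificates of the pair `(8, 3)`, part 16 -/
def t21_22_8_3_16 : BlkD.Tr :=
  .E 0

lemma s21_22_8_3_16 {n : ℕ} (hn : 7 ≤ n) : NoNd (d21_22_8_3.R : ℤ) d21_22_8_3.H n d21_22_8_3.a d21_22_8_3.b
    (BlkD.inB (BlkD.upd (BlkD.upd (BlkD.upd (fun _ => 0) 0 3) 0 4) 1 19)
      (BlkD.upd (BlkD.upd (BlkD.upd (fun _ => 22) 0 8) 2 3) 0 4)) :=
  BlkD.tree_sound (BlkD.pairOk_sound k21_22_8_3) (by decide) hn t21_22_8_3_16 _ _ (by decide +kernel)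

/-- certificates of the pair `(8, 3)`, part 17 -/
def t21_22_8_3_17 : BlkD.Tr :=
  .L 5 7 [4, 4, 4, 5] [] [] 100000 25000 25000 1225000 25000 0 25000 75000 0 25000 25000

lemma s21_22_8_3_17 {n : ℕ} (hn : 7 ≤ n) : NoNd (d21_22_8_3.R : ℤ) d21_22_8_3.H n d21_22_8_3.a d21_22_8_3.b
    (BlkD.inB (BlkD.upd (fun _ => 0) 0 5)
      (BlkD.upd (BlkD.upd (BlkD.upd (BlkD.upd (BlkD.upd (BlkD.upd (BlkD.upd (fun _ => 22) 0 8) 2 3) 0 6) 0 5) 1 17) 1 8) 1 4)) :=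
  BlkD.tree_sound (BlkD.pairOk_sound k21_22_8_3) (by decide) hn t21_22_8_3_17 _ _ (by decide +kernel)

/-- certificates of the pair `(8, 3)`, part 18 -/
def t21_22_8_3_18 : BlkD.Tr :=
  .S 1 6 (.S 1 5 (.S 2 1 (.S 2 0 (.L 5 7 [4, 4, 4, 5] [123, 117, 106, 94, 82, 70] [] 100000 33334
    33334 1200000 0 0 0 100000 0 0 0) (.S 3 11 (.S 3 5 (.S 3 2 (.L 5 7 [4, 4, 4, 5] [123, 117, 106,
    94, 82, 70] [] 100000 26191 26191 1264287 28571 7143 50000 28571 0 21429 25000) (.S 3 4 (.S 3 3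
    (.L 5 7 [4, 4, 4, 5] [123, 117, 106, 94, 82, 70] [40, 32, 24, 12, 0, 0] 100000 23810 23810
    1285716 28571 0 28571 28571 0 28571 28571) (.L 6 9 [5, 5, 3, 4] [123, 117, 106, 94, 82, 70]
    [54, 48, 40, 32, 20, 0] 100000 33334 33334 1275000 35000 0 35000 50000 0 0 25000)) (.E 1))) (.E
    1)) (.E 1))) (.L 6 9 [5, 5, 3, 4] [123, 117, 106, 94, 82, 70] [] 100000 28334 28334 1290000
    35000 0 40000 35000 0 15000 25000)) (.L 6 9 [5, 5, 3, 4] [144, 143, 137, 126, 114, 102] []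
    100000 26078 26078 1320344 38323 1505 69162 32424 1935 17898 19484)) (.S 1 7 (.L 6 9 [5, 5, 3,
    4] [167, 166, 165, 159, 148, 136] [] 100000 35648 35648 1266668 33333 0 100000 66667 0 12500
    6944) (.L 6 9 [5, 5, 3, 4] [192, 191, 190, 189, 183, 172] [] 100000 38095 38095 1228574 42857 0
    100000 57143 0 14286 7143))

lemma s21_22_8_3_18 {n : ℕ} (hn : 7 ≤ n) : NoNd (d21_22_8_3.R : ℤ) d21_22_8_3.H n d21_22_8_3.a d21_22_8_3.b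
    (BlkD.inB (BlkD.upd (BlkD.upd (fun _ => 0) 0 5) 1 5)
      (BlkD.upd (BlkD.upd (BlkD.upd (BlkD.upd (BlkD.upd (BlkD.upd (fun _ => 22) 0 8) 2 3) 0 6) 0 5) 1 17) 1 8)) :=
  BlkD.tree_sound (BlkD.pairOk_sound k21_22_8_3) (by decide) hn t21_22_8_3_18 _ _ (by decide +kernel)

/-- certificates of the pair `(8, 3)`, part 19 -/
def t21_22_8_3_19 : BlkD.Tr :=
  .L 6 9 [5, 5, 3, 4] [] [] 100000 30304 30304 1272727 9091 0 100000 90909 0 9091 9091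

lemma s21_22_8_3_19 {n : ℕ} (hn : 7 ≤ n) : NoNd (d21_22_8_3.R : ℤ) d21_22_8_3.H n d21_22_8_3.a d21_22_8_3.b
    (BlkD.inB (BlkD.upd (BlkD.upd (fun _ => 0) 0 5) 1 9)
      (BlkD.upd (BlkD.upd (BlkD.upd (BlkD.upd (BlkD.upd (fun _ => 22) 0 8) 2 3) 0 6) 0 5) 1 17)) :=
  BlkD.tree_sound (BlkD.pairOk_sound k21_22_8_3) (by decide) hn t21_22_8_3_19 _ _ (by decide +kernel)

/-- certificates of the pair `(8, 3)`, part 20 -/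
def t21_22_8_3_20 : BlkD.Tr :=
  .E 0

lemma s21_22_8_3_20 {n : ℕ} (hn : 7 ≤ n) : NoNd (d21_22_8_3.R : ℤ) d21_22_8_3.H n d21_22_8_3.a d21_22_8_3.b
    (BlkD.inB (BlkD.upd (BlkD.upd (fun _ => 0) 0 5) 1 18)
      (BlkD.upd (BlkD.upd (BlkD.upd (BlkD.upd (fun _ => 22) 0 8) 2 3) 0 6) 0 5)) :=
  BlkD.tree_sound (BlkD.pairOk_sound k21_22_8_3) (by decide) hn t21_22_8_3_20 _ _ (by decide +kernel)

/-- certificates of the pair `(8, 3)`, part 21 -/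
def t21_22_8_3_21 : BlkD.Tr :=
  .S 1 16 (.S 1 8 (.S 1 4 (.L 6 9 [5, 5, 3, 4] [] [] 100000 23215 23215 1304764 33333 0 95238 33333
    4762 20833 33333) (.S 1 6 (.S 1 5 (.L 6 9 [5, 5, 3, 4] [133, 127, 116, 104, 92, 80] [] 100000
    22877 22877 1303921 31373 1961 94118 49020 5882 19608 19608) (.L 6 9 [5, 5, 3, 4] [156, 155,
    149, 138, 126, 114] [] 100000 27716 27716 1293259 38202 0 92135 38202 4494 15730 7865)) (.L 6 9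
    [5, 5, 3, 4] [] [] 100000 29167 29167 1275000 12500 0 100000 87500 0 12500 12500))) (.E 0)) (.E
    0)

lemma s21_22_8_3_21 {n : ℕ} (hn : 7 ≤ n) : NoNd (d21_22_8_3.R : ℤ) d21_22_8_3.H n d21_22_8_3.a d21_22_8_3.b
    (BlkD.inB (BlkD.upd (BlkD.upd (fun _ => 0) 0 5) 0 6)
      (BlkD.upd (BlkD.upd (BlkD.upd (fun _ => 22) 0 8) 2 3) 0 6)) :=
  BlkD.tree_sound (BlkD.pairOk_sound k21_22_8_3) (by decide) hn t21_22_8_3_21 _ _ (by decide +kernel)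

/-- certificates of the pair `(8, 3)`, part 22 -/
def t21_22_8_3_22 : BlkD.Tr :=
  .S 0 7 (.S 1 15 (.S 1 7 (.L 6 9 [5, 5, 3, 4] [] [] 100000 15080 15080 1350002 16667 0 85714 47619
    14286 26190 26190) (.E 0)) (.E 0)) (.L 6 9 [5, 5, 3, 4] [] [] 100000 0 0 1311250 0 0 88750
    62500 51250 37500 40000)

lemma s21_22_8_3_22 {n : ℕ} (hn : 7 ≤ n) : NoNd (d21_22_8_3.R : ℤ) d21_22_8_3.H n d21_22_8_3.a d21_22_8_3.b
    (BlkD.inB (BlkD.upd (BlkD.upd (fun _ => 0) 0 5) 0 7)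
      (BlkD.upd (BlkD.upd (fun _ => 22) 0 8) 2 3)) :=
  BlkD.tree_sound (BlkD.pairOk_sound k21_22_8_3) (by decide) hn t21_22_8_3_22 _ _ (by decide +kernel)

/-- certificates of the pair `(8, 3)`, part 23 -/
def t21_22_8_3_23 : BlkD.Tr :=
  .E 1

lemma s21_22_8_3_23 {n : ℕ} (hn : 7 ≤ n) : NoNd (d21_22_8_3.R : ℤ) d21_22_8_3.H n d21_22_8_3.a d21_22_8_3.b
    (BlkD.inB (BlkD.upd (fun _ => 0) 2 4)
      (BlkD.upd (fun _ => 22) 0 8)) :=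
  BlkD.tree_sound (BlkD.pairOk_sound k21_22_8_3) (by decide) hn t21_22_8_3_23 _ _ (by decide +kernel)

/-- certificates of the pair `(8, 3)`, part 24 -/
def t21_22_8_3_24 : BlkD.Tr :=
  .E 0

lemma s21_22_8_3_24 {n : ℕ} (hn : 7 ≤ n) : NoNd (d21_22_8_3.R : ℤ) d21_22_8_3.H n d21_22_8_3.a d21_22_8_3.b
    (BlkD.inB (BlkD.upd (fun _ => 0) 0 9)
      (fun _ => 22)) :=
  BlkD.tree_sound (BlkD.pairOk_sound k21_22_8_3) (by decide) hn t21_22_8_3_24 _ _ (by decide +kernel)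

lemma pr21_22_8_3 {n : ℕ} (hn : 7 ≤ n) : NoPr ((21 : ℕ) : ℤ) ((22 : ℕ) : ℤ) n 8 3 :=
  BlkD.of_root (R := d21_22_8_3.R) (H := d21_22_8_3.H) (a := d21_22_8_3.a) (b := d21_22_8_3.b) (q := 5) (by decide) hn
    (BlkD.sp 0 8 (BlkD.sp 2 3 (BlkD.sp 0 4 (BlkD.sp 0 2 (BlkD.sp 0 1 (BlkD.sp 0 0 (s21_22_8_3_1 hn)
      (BlkD.sp 1 11 (BlkD.sp 1 5 (s21_22_8_3_2 hn) (s21_22_8_3_3 hn)) (s21_22_8_3_4 hn))) (BlkD.sp
      1 11 (BlkD.sp 1 5 (s21_22_8_3_5 hn) (BlkD.sp 1 8 (s21_22_8_3_6 hn) (s21_22_8_3_7 hn)))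
      (s21_22_8_3_8 hn))) (BlkD.sp 0 3 (BlkD.sp 1 19 (BlkD.sp 1 9 (BlkD.sp 1 4 (s21_22_8_3_9 hn)
      (s21_22_8_3_10 hn)) (s21_22_8_3_11 hn)) (s21_22_8_3_12 hn)) (BlkD.sp 1 18 (BlkD.sp 1 9
      (BlkD.sp 1 4 (s21_22_8_3_13 hn) (s21_22_8_3_14 hn)) (s21_22_8_3_15 hn)) (s21_22_8_3_16 hn))))
      (BlkD.sp 0 6 (BlkD.sp 0 5 (BlkD.sp 1 17 (BlkD.sp 1 8 (BlkD.sp 1 4 (s21_22_8_3_17 hn)
      (s21_22_8_3_18 hn)) (s21_22_8_3_19 hn)) (s21_22_8_3_20 hn)) (s21_22_8_3_21 hn))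
      (s21_22_8_3_22 hn))) (s21_22_8_3_23 hn)) (s21_22_8_3_24 hn))

end BlkC

end Pool.Agent.Lib.MP_f04ccf_co
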