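import Pool.Agent.Lib.MP_f04ccf_co.M.BlkX21_21_5_5d

/-!
MP_f04ccf_co, block certificate with exceptions, `R = 21`, `H = 21`, the pair `(5, 5)` (data of helper99 / helper13,
generated by helper8, genx.py): the exceptions, part 1 of 1.
-/

set_option autoImplicit false
set_option maxRecDepth 100000

namespace Pool.Agent.Lib.MP_f04ccf_co

namespace BlkC

lemma e21_21_5_5_5_0 : EnPr.lall (fun l => EnPr.one 21 5 (7, 3, 7, 3) (5 :: 5 :: l))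
    (EnPr.prof (5 - 2) 5 (21 - (5 + 1) - 5 - 5)) = true := by
  decide +kernel

lemma e21_21_5_5_5_1 : EnPr.lall (fun l => EnPr.one 21 5 (7, 4, 7, 3) (5 :: 5 :: l))
    (EnPr.prof (5 - 2) 5 (21 - (5 + 1) - 5 - 5)) = true := by
  decide +kernel

lemma g21_21_5_5_5_2_0 : EnPr.one 21 5 (7, 4, 7, 4) [5, 5, 0, 0, 0] = true := by
  decide +kernel

lemma g21_21_5_5_5_2_1 : EnPr.one 21 5 (7, 4, 7, 4) [5, 5, 1, 0, 0] = true := by
  decide +kernel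

lemma g21_21_5_5_5_2_2 : EnPr.one 21 5 (7, 4, 7, 4) [5, 5, 1, 1, 0] = true := by
  decide +kernel

lemma g21_21_5_5_5_2_3 : EnPr.one 21 5 (7, 4, 7, 4) [5, 5, 1, 1, 1] = true := by
  decide +kernel

lemma g21_21_5_5_5_2_4 : EnPr.one 21 5 (7, 4, 7, 4) [5, 5, 2, 0, 0] = true := by
  decide +kernel

lemma g21_21_5_5_5_2_5 : EnPr.one 21 5 (7, 4, 7, 4) [5, 5, 2, 1, 0] = true := by
  decide +kernel

lemma g21_21_5_5_5_2_6 : EnPr.one 21 5 (7, 4, 7, 4) [5, 5, 2, 1, 1] = true := by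
  decide +kernel

lemma g21_21_5_5_5_2_7 : EnPr.one 21 5 (7, 4, 7, 4) [5, 5, 2, 2, 0] = true := by
  decide +kernel

lemma g21_21_5_5_5_2_8 : EnPr.one 21 5 (7, 4, 7, 4) [5, 5, 2, 2, 1] = true := by
  decide +kernel

lemma g21_21_5_5_5_2_9 : EnPr.one 21 5 (7, 4, 7, 4) [5, 5, 3, 0, 0] = true := by
  decide +kernel

lemma g21_21_5_5_5_2_10 : EnPr.one 21 5 (7, 4, 7, 4) [5, 5, 3, 1, 0] = true := by
  decide +kernel

lemma g21_21_5_5_5_2_11 : EnPr.one 21 5 (7, 4, 7, 4) [5, 5, 3, 1, 1] = true := by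
  decide +kernel

lemma g21_21_5_5_5_2_12 : EnPr.one 21 5 (7, 4, 7, 4) [5, 5, 3, 2, 0] = true := by
  decide +kernel

lemma g21_21_5_5_5_2_13 : EnPr.one 21 5 (7, 4, 7, 4) [5, 5, 4, 0, 0] = true := by
  decide +kernel

lemma g21_21_5_5_5_2_14 : EnPr.one 21 5 (7, 4, 7, 4) [5, 5, 4, 1, 0] = true := by
  decide +kernel

lemma g21_21_5_5_5_2_15 : EnPr.one 21 5 (7, 4, 7, 4) [5, 5, 5, 0, 0] = true := by
  decide +kernel

lemma e21_21_5_5_5_2 : EnPr.lall (fun l => EnPr.one 21 5 (7, 4, 7, 4) (5 :: 5 :: l))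
    (EnPr.prof (5 - 2) 5 (21 - (5 + 1) - 5 - 5)) = true := by
  rw [EnPr.lall_iff]
  intro l hl
  rw [show EnPr.prof (5 - 2) 5 (21 - (5 + 1) - 5 - 5) =
      [[0, 0, 0],
      [1, 0, 0],
      [1, 1, 0],
      [1, 1, 1],
      [2, 0, 0],
      [2, 1, 0],
      [2, 1, 1],
      [2, 2, 0],
      [2, 2, 1],
      [3, 0, 0],
      [3, 1, 0],
      [3, 1, 1],
      [3, 2, 0],
      [4, 0, 0],
      [4, 1, 0],
      [5, 0, 0]] by
    decide +kernel] at hl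
  simp only [List.mem_cons, List.not_mem_nil, or_false] at hl
  rcases hl with rfl | rfl | rfl | rfl | rfl | rfl | rfl | rfl | rfl | rfl | rfl | rfl | rfl | rfl | rfl | rfl
  · exact g21_21_5_5_5_2_0
  · exact g21_21_5_5_5_2_1
  · exact g21_21_5_5_5_2_2
  · exact g21_21_5_5_5_2_3
  · exact g21_21_5_5_5_2_4
  · exact g21_21_5_5_5_2_5
  · exact g21_21_5_5_5_2_6
  · exact g21_21_5_5_5_2_7
  · exact g21_21_5_5_5_2_8
  · exact g21_21_5_5_5_2_9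
  · exact g21_21_5_5_5_2_10
  · exact g21_21_5_5_5_2_11
  · exact g21_21_5_5_5_2_12
  · exact g21_21_5_5_5_2_13
  · exact g21_21_5_5_5_2_14
  · exact g21_21_5_5_5_2_15

lemma g21_21_5_5_5_3_0 : EnPr.one 21 5 (7, 5, 7, 5) [5, 5, 0, 0, 0] = true := by
  decide +kernel

lemma g21_21_5_5_5_3_1 : EnPr.one 21 5 (7, 5, 7, 5) [5, 5, 1, 0, 0] = true := by
  decide +kernel

lemma g21_21_5_5_5_3_2 : EnPr.one 21 5 (7, 5, 7, 5) [5, 5, 1, 1, 0] = true := by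
  decide +kernel

lemma g21_21_5_5_5_3_3 : EnPr.one 21 5 (7, 5, 7, 5) [5, 5, 1, 1, 1] = true := by
  decide +kernel

lemma g21_21_5_5_5_3_4 : EnPr.one 21 5 (7, 5, 7, 5) [5, 5, 2, 0, 0] = true := by
  decide +kernel

lemma g21_21_5_5_5_3_5 : EnPr.one 21 5 (7, 5, 7, 5) [5, 5, 2, 1, 0] = true := by
  decide +kernel

lemma g21_21_5_5_5_3_6 : EnPr.one 21 5 (7, 5, 7, 5) [5, 5, 2, 1, 1] = true := by
  decide +kernel

lemma g21_21_5_5_5_3_7 : EnPr.one 21 5 (7, 5, 7, 5) [5, 5, 2, 2, 0] = true := by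
  decide +kernel

lemma g21_21_5_5_5_3_8 : EnPr.one 21 5 (7, 5, 7, 5) [5, 5, 2, 2, 1] = true := by
  decide +kernel

lemma g21_21_5_5_5_3_9 : EnPr.one 21 5 (7, 5, 7, 5) [5, 5, 3, 0, 0] = true := by
  decide +kernel

lemma g21_21_5_5_5_3_10 : EnPr.one 21 5 (7, 5, 7, 5) [5, 5, 3, 1, 0] = true := by
  decide +kernel

lemma g21_21_5_5_5_3_11 : EnPr.one 21 5 (7, 5, 7, 5) [5, 5, 3, 1, 1] = true := by
  decide +kernel

lemma g21_21_5_5_5_3_12 : EnPr.one 21 5 (7, 5, 7, 5) [5, 5, 3, 2, 0] = true := by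
  decide +kernel

lemma g21_21_5_5_5_3_13 : EnPr.one 21 5 (7, 5, 7, 5) [5, 5, 4, 0, 0] = true := by
  decide +kernel

lemma g21_21_5_5_5_3_14 : EnPr.one 21 5 (7, 5, 7, 5) [5, 5, 4, 1, 0] = true := by
  decide +kernel

lemma g21_21_5_5_5_3_15 : EnPr.one 21 5 (7, 5, 7, 5) [5, 5, 5, 0, 0] = true := by
  decide +kernel

lemma e21_21_5_5_5_3 : EnPr.lall (fun l => EnPr.one 21 5 (7, 5, 7, 5) (5 :: 5 :: l))
    (EnPr.prof (5 - 2) 5 (21 - (5 + 1) - 5 - 5)) = true := by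
  rw [EnPr.lall_iff]
  intro l hl
  rw [show EnPr.prof (5 - 2) 5 (21 - (5 + 1) - 5 - 5) =
      [[0, 0, 0],
      [1, 0, 0],
      [1, 1, 0],
      [1, 1, 1],
      [2, 0, 0],
      [2, 1, 0],
      [2, 1, 1],
      [2, 2, 0],
      [2, 2, 1],
      [3, 0, 0],
      [3, 1, 0],
      [3, 1, 1],
      [3, 2, 0],
      [4, 0, 0],
      [4, 1, 0],
      [5, 0, 0]] by
    decide +kernel] at hl
  simp only [List.mem_cons, List.not_mem_nil, or_false] at hl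
  rcases hl with rfl | rfl | rfl | rfl | rfl | rfl | rfl | rfl | rfl | rfl | rfl | rfl | rfl | rfl | rfl | rfl
  · exact g21_21_5_5_5_3_0
  · exact g21_21_5_5_5_3_1
  · exact g21_21_5_5_5_3_2
  · exact g21_21_5_5_5_3_3
  · exact g21_21_5_5_5_3_4
  · exact g21_21_5_5_5_3_5
  · exact g21_21_5_5_5_3_6
  · exact g21_21_5_5_5_3_7
  · exact g21_21_5_5_5_3_8
  · exact g21_21_5_5_5_3_9
  · exact g21_21_5_5_5_3_10
  · exact g21_21_5_5_5_3_11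
  · exact g21_21_5_5_5_3_12
  · exact g21_21_5_5_5_3_13
  · exact g21_21_5_5_5_3_14
  · exact g21_21_5_5_5_3_15

lemma e21_21_5_5_6_0 : EnPr.lall (fun l => EnPr.one 21 6 (7, 3, 7, 3) (5 :: 5 :: l))
    (EnPr.prof (6 - 2) 5 (21 - (6 + 1) - 5 - 5)) = true := by
  decide +kernel

lemma e21_21_5_5_6_1 : EnPr.lall (fun l => EnPr.one 21 6 (7, 4, 7, 3) (5 :: 5 :: l))
    (EnPr.prof (6 - 2) 5 (21 - (6 + 1) - 5 - 5)) = true := by
  decide +kernel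

lemma e21_21_5_5_6_2 : EnPr.lall (fun l => EnPr.one 21 6 (7, 4, 7, 4) (5 :: 5 :: l))
    (EnPr.prof (6 - 2) 5 (21 - (6 + 1) - 5 - 5)) = true := by
  decide +kernel

lemma e21_21_5_5_6_3 : EnPr.lall (fun l => EnPr.one 21 6 (7, 5, 7, 5) (5 :: 5 :: l))
    (EnPr.prof (6 - 2) 5 (21 - (6 + 1) - 5 - 5)) = true := by
  decide +kernel

lemma e21_21_5_5_7_0 : EnPr.lall (fun l => EnPr.one 21 7 (7, 3, 7, 3) (5 :: 5 :: l))
    (EnPr.prof (7 - 2) 5 (21 - (7 + 1) - 5 - 5)) = true := by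
  decide +kernel

lemma e21_21_5_5_7_1 : EnPr.lall (fun l => EnPr.one 21 7 (7, 4, 7, 3) (5 :: 5 :: l))
    (EnPr.prof (7 - 2) 5 (21 - (7 + 1) - 5 - 5)) = true := by
  decide +kernel

lemma e21_21_5_5_7_2 : EnPr.lall (fun l => EnPr.one 21 7 (7, 4, 7, 4) (5 :: 5 :: l))
    (EnPr.prof (7 - 2) 5 (21 - (7 + 1) - 5 - 5)) = true := by
  decide +kernel

lemma e21_21_5_5_7_3 : EnPr.lall (fun l => EnPr.one 21 7 (7, 5, 7, 5) (5 :: 5 :: l))
    (EnPr.prof (7 - 2) 5 (21 - (7 + 1) - 5 - 5)) = true := by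
  decide +kernel

lemma e21_21_5_5_8_0 : EnPr.lall (fun l => EnPr.one 21 8 (7, 3, 7, 3) (5 :: 5 :: l))
    (EnPr.prof (8 - 2) 5 (21 - (8 + 1) - 5 - 5)) = true := by
  decide +kernel

lemma e21_21_5_5_8_1 : EnPr.lall (fun l => EnPr.one 21 8 (7, 4, 7, 3) (5 :: 5 :: l))
    (EnPr.prof (8 - 2) 5 (21 - (8 + 1) - 5 - 5)) = true := by
  decide +kernel

lemma e21_21_5_5_8_2 : EnPr.lall (fun l => EnPr.one 21 8 (7, 4, 7, 4) (5 :: 5 :: l))
    (EnPr.prof (8 - 2) 5 (21 - (8 + 1) - 5 - 5)) = true := by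
  decide +kernel

lemma e21_21_5_5_8_3 : EnPr.lall (fun l => EnPr.one 21 8 (7, 5, 7, 5) (5 :: 5 :: l))
    (EnPr.prof (8 - 2) 5 (21 - (8 + 1) - 5 - 5)) = true := by
  decide +kernel

lemma e21_21_5_5_9_0 : EnPr.lall (fun l => EnPr.one 21 9 (7, 3, 7, 3) (5 :: 5 :: l))
    (EnPr.prof (9 - 2) 5 (21 - (9 + 1) - 5 - 5)) = true := by
  decide +kernel

lemma e21_21_5_5_9_1 : EnPr.lall (fun l => EnPr.one 21 9 (7, 4, 7, 3) (5 :: 5 :: l))
    (EnPr.prof (9 - 2) 5 (21 - (9 + 1) - 5 - 5)) = true := by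
  decide +kernel

lemma e21_21_5_5_9_2 : EnPr.lall (fun l => EnPr.one 21 9 (7, 4, 7, 4) (5 :: 5 :: l))
    (EnPr.prof (9 - 2) 5 (21 - (9 + 1) - 5 - 5)) = true := by
  decide +kernel

lemma e21_21_5_5_9_3 : EnPr.lall (fun l => EnPr.one 21 9 (7, 5, 7, 5) (5 :: 5 :: l))
    (EnPr.prof (9 - 2) 5 (21 - (9 + 1) - 5 - 5)) = true := by
  decide +kernel

lemma e21_21_5_5_10_0 : EnPr.lall (fun l => EnPr.one 21 10 (7, 3, 7, 3) (5 :: 5 :: l))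
    (EnPr.prof (10 - 2) 5 (21 - (10 + 1) - 5 - 5)) = true := by
  decide +kernel

lemma e21_21_5_5_10_1 : EnPr.lall (fun l => EnPr.one 21 10 (7, 4, 7, 3) (5 :: 5 :: l))
    (EnPr.prof (10 - 2) 5 (21 - (10 + 1) - 5 - 5)) = true := by
  decide +kernel

lemma e21_21_5_5_10_2 : EnPr.lall (fun l => EnPr.one 21 10 (7, 4, 7, 4) (5 :: 5 :: l))
    (EnPr.prof (10 - 2) 5 (21 - (10 + 1) - 5 - 5)) = true := by
  decide +kernel

lemma e21_21_5_5_10_3 : EnPr.lall (fun l => EnPr.one 21 10 (7, 5, 7, 5) (5 :: 5 :: l))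
    (EnPr.prof (10 - 2) 5 (21 - (10 + 1) - 5 - 5)) = true := by
  decide +kernel

end BlkC

end Pool.Agent.Lib.MP_f04ccf_co
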