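import Pool.Agent.Lib.MP_f04ccf_co.M.BlkX21_21_5_5d

/-!
MP_f04ccf_co, block certificate with exceptions, `R = 21`, `H = 21`, the pair `(5, 5)` (data of helper99 / helper13,
generated by helper8, genx.py): part 1 of 3.
-/

set_option autoImplicit false
set_option maxRecDepth 100000

namespace Pool.Agent.Lib.MP_f04ccf_co

namespace BlkC

/-- a subtree -/
def t21_21_5_5_0 : BlkD.Tr :=
  .L 6 6 [4, 4, 5, 5, 5, 6] [] [] 100000 60000 60000 780000 0 0 100000 20000 0 0 0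

lemma s21_21_5_5_0 : BlkD.treeX d21_21_5_5 (BlkD.exF 5 5 x21_21_5_5) t21_21_5_5_0
    (fun _ => 0)
    (BlkD.upd (BlkD.upd (BlkD.upd (BlkD.upd (BlkD.upd (fun _ => 21) 0 5) 2 5) 0 2) 0 1) 0 0) = true := by
  decide +kernel

lemma n21_21_5_5_0 {n : ℕ} (hn : 5 ≤ n) : BlkD.NdX d21_21_5_5 (BlkD.exF 5 5 x21_21_5_5) n
    (fun _ => 0)
    (BlkD.upd (BlkD.upd (BlkD.upd (BlkD.upd (BlkD.upd (fun _ => 21) 0 5) 2 5) 0 2) 0 1) 0 0) :=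
  BlkD.NdX.tree s21_21_5_5_0 ok21_21_5_5 (by decide) hn

/-- a subtree -/
def t21_21_5_5_1 : BlkD.Tr :=
  .L 6 6 [4, 4, 5, 5, 5, 6] [] [] 100000 35000 35000 1000000 12500 0 12500 75000 0 25000 25000

lemma s21_21_5_5_1 : BlkD.treeX d21_21_5_5 (BlkD.exF 5 5 x21_21_5_5) t21_21_5_5_1
    (BlkD.upd (fun _ => 0) 0 1)
    (BlkD.upd (BlkD.upd (BlkD.upd (BlkD.upd (BlkD.upd (BlkD.upd (BlkD.upd (BlkD.upd (fun _ => 21) 0 5) 2 5) 0 2) 0 1) 1 20) 1 10) 1 5) 1 2) = true := by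
  decide +kernel

lemma n21_21_5_5_1 {n : ℕ} (hn : 5 ≤ n) : BlkD.NdX d21_21_5_5 (BlkD.exF 5 5 x21_21_5_5) n
    (BlkD.upd (fun _ => 0) 0 1)
    (BlkD.upd (BlkD.upd (BlkD.upd (BlkD.upd (BlkD.upd (BlkD.upd (BlkD.upd (BlkD.upd (fun _ => 21) 0 5) 2 5) 0 2) 0 1) 1 20) 1 10) 1 5) 1 2) :=
  BlkD.NdX.tree s21_21_5_5_1 ok21_21_5_5 (by decide) hn

/-- a subtree -/
def t21_21_5_5_2 : BlkD.Tr :=
  .S 1 3 (.L 6 6 [4, 4, 5, 5, 5, 6] [46, 36, 24, 12, 0, 0] [] 100000 40000 40000 1060000 20000 0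
    20000 80000 0 20000 25000) (.S 2 2 (.S 2 1 (.L 6 6 [4, 4, 5, 5, 5, 6] [60, 54, 44, 32, 20, 0]
    [] 100000 56618 56618 979415 50000 23529 55882 61765 0 6618 25000) (.S 3 14 (.S 3 7 (.S 3 3 (.L
    6 6 [4, 4, 5, 5, 5, 6] [60, 54, 44, 32, 20, 0] [] 100000 40000 40000 1000000 0 0 0 0 0 0 20000)
    (.L 6 6 [4, 4, 5, 5, 5, 6] [60, 54, 44, 32, 20, 0] [] 100000 66177 66177 966177 77941 0 77941
    65441 0 12500 20000)) (.E 1)) (.E 1))) (.S 2 4 (.S 2 3 (.S 3 13 (.S 3 6 (.S 3 3 (.L 6 6 [4, 4,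
    5, 5, 5, 6] [60, 54, 44, 32, 20, 0] [] 100000 40000 40000 1075000 12500 0 12500 43750 0 12500
    20000) (.L 6 6 [4, 4, 5, 5, 5, 6] [60, 54, 44, 32, 20, 0] [] 100000 52941 52940 988236 70588 0
    70588 50000 0 50000 26471)) (.E 1)) (.E 1)) (.L 6 6 [4, 4, 5, 5, 5, 6] [60, 54, 44, 32, 20, 0]
    [] 100000 55556 55556 922222 77778 0 77778 44444 0 55556 22222)) (.L 6 6 [4, 4, 5, 5, 5, 6]
    [60, 54, 44, 32, 20, 0] [] 100000 75961 75960 800000 100000 0 100000 0 0 23077 19231)))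

lemma s21_21_5_5_2 : BlkD.treeX d21_21_5_5 (BlkD.exF 5 5 x21_21_5_5) t21_21_5_5_2
    (BlkD.upd (BlkD.upd (fun _ => 0) 0 1) 1 3)
    (BlkD.upd (BlkD.upd (BlkD.upd (BlkD.upd (BlkD.upd (BlkD.upd (BlkD.upd (BlkD.upd (fun _ => 21) 0 5) 2 5) 0 2) 0 1) 1 20) 1 10) 1 5) 1 4) = true := by
  decide +kernel

lemma n21_21_5_5_2 {n : ℕ} (hn : 5 ≤ n) : BlkD.NdX d21_21_5_5 (BlkD.exF 5 5 x21_21_5_5) n
    (BlkD.upd (BlkD.upd (fun _ => 0) 0 1) 1 3)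
    (BlkD.upd (BlkD.upd (BlkD.upd (BlkD.upd (BlkD.upd (BlkD.upd (BlkD.upd (BlkD.upd (fun _ => 21) 0 5) 2 5) 0 2) 0 1) 1 20) 1 10) 1 5) 1 4) :=
  BlkD.NdX.tree s21_21_5_5_2 ok21_21_5_5 (by decide) hn

/-- a subtree -/
def t21_21_5_5_3 : BlkD.Tr :=
  .S 2 2 (.S 2 1 (.L 6 6 [4, 4, 5, 5, 5, 6] [73, 70, 64, 54, 42, 30] [] 100000 60522 60522 974517
    38224 45560 57143 59846 2317 4633 25000) (.S 3 13 (.S 3 6 (.S 3 3 (.L 6 6 [4, 4, 5, 5, 5, 6]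
    [73, 70, 64, 54, 42, 30] [] 100000 35556 35556 1114819 7407 0 81481 33333 14815 3704 24074) (.S
    3 5 (.S 3 4 (.L 1 1 [10, 13, 15, 18, 17, 16] [73, 70, 64, 54, 42, 30] [68, 62, 52, 40, 28, 0]
    100000 66667 66666 933332 66667 0 66667 66667 0 0 33333) (.L 6 6 [4, 4, 5, 5, 5, 6] [73, 70,
    64, 54, 42, 30] [83, 80, 74, 64, 52, 40] 100000 63530 63530 951765 87059 0 87059 43529 0 43529
    18824)) (.L 6 6 [4, 4, 5, 5, 5, 6] [73, 70, 64, 54, 42, 30] [100, 97, 94, 88, 78, 66] 100000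
    42858 42858 1057144 48980 0 73469 48980 12245 44898 28571))) (.E 1)) (.E 1))) (.S 2 4 (.S 2 3
    (.S 3 12 (.S 3 6 (.S 3 3 (.S 3 1 (.L 6 6 [4, 4, 5, 5, 5, 6] [73, 70, 64, 54, 42, 30] [] 100000
    40000 40000 1000000 0 0 0 0 0 0 20000) (.S 3 2 (.L 6 6 [4, 4, 5, 5, 5, 6] [73, 70, 64, 54, 42,
    30] [38, 26, 14, 0, 0, 0] 100000 36231 36230 1091207 12563 0 53392 80402 8166 13819 25000) (.L
    6 6 [4, 4, 5, 5, 5, 6] [73, 70, 64, 54, 42, 30] [58, 48, 36, 24, 0, 0] 100000 57318 57318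
    1002440 65854 0 65854 65854 0 10976 25000))) (.L 6 6 [4, 4, 5, 5, 5, 6] [73, 70, 64, 54, 42,
    30] [] 100000 44000 44000 1052000 52000 0 76000 46000 8000 52000 28000)) (.E 1)) (.E 1)) (.L 6
    6 [4, 4, 5, 5, 5, 6] [73, 70, 64, 54, 42, 30] [] 100000 61539 61539 892308 100000 0 100000 7692
    0 92308 30769)) (.L 6 6 [4, 4, 5, 5, 5, 6] [73, 70, 64, 54, 42, 30] [] 100000 75961 75960
    800000 100000 0 100000 0 0 23077 19231))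

lemma s21_21_5_5_3 : BlkD.treeX d21_21_5_5 (BlkD.exF 5 5 x21_21_5_5) t21_21_5_5_3
    (BlkD.upd (BlkD.upd (BlkD.upd (fun _ => 0) 0 1) 1 3) 1 5)
    (BlkD.upd (BlkD.upd (BlkD.upd (BlkD.upd (BlkD.upd (BlkD.upd (BlkD.upd (fun _ => 21) 0 5) 2 5) 0 2) 0 1) 1 20) 1 10) 1 5) = true := by
  decide +kernel

lemma n21_21_5_5_3 {n : ℕ} (hn : 5 ≤ n) : BlkD.NdX d21_21_5_5 (BlkD.exF 5 5 x21_21_5_5) n
    (BlkD.upd (BlkD.upd (BlkD.upd (fun _ => 0) 0 1) 1 3) 1 5)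
    (BlkD.upd (BlkD.upd (BlkD.upd (BlkD.upd (BlkD.upd (BlkD.upd (BlkD.upd (fun _ => 21) 0 5) 2 5) 0 2) 0 1) 1 20) 1 10) 1 5) :=
  BlkD.NdX.tree s21_21_5_5_3 ok21_21_5_5 (by decide) hn

/-- a subtree -/
def t21_21_5_5_4 : BlkD.Tr :=
  .S 2 2 (.S 2 1 (.L 6 6 [4, 4, 5, 5, 5, 6] [88, 85, 82, 76, 66, 54] [] 100000 56945 56945 1000001
    27778 44444 55556 72222 16667 0 23611) (.S 3 12 (.S 3 6 (.S 3 3 (.S 3 1 (.L 6 6 [4, 4, 5, 5, 5,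
    6] [88, 85, 82, 76, 66, 54] [] 100000 52000 52000 880000 60000 0 60000 0 0 0 20000) (.S 3 2 (.L
    6 6 [4, 4, 5, 5, 5, 6] [88, 85, 82, 76, 66, 54] [34, 22, 10, 0, 0, 0] 100000 35385 35385
    1053847 23077 0 53846 0 23077 0 23077) (.L 1 1 [10, 13, 15, 18, 17, 16] [88, 85, 82, 76, 66,
    54] [52, 42, 30, 18, 0, 0] 100000 57466 57466 1002265 45701 4977 72398 83710 14027 0 21267)))
    (.S 3 5 (.S 3 4 (.L 7 7 [4, 4, 5, 4, 5, 5] [88, 85, 82, 76, 66, 54] [68, 62, 52, 40, 28, 0]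
    100000 44737 44737 1075002 53684 0 63947 44211 11053 5789 25000) (.L 7 7 [4, 4, 5, 4, 5, 5]
    [88, 85, 82, 76, 66, 54] [83, 80, 74, 64, 52, 40] 100000 47108 47108 1058680 78512 0 81818
    20661 3306 58678 26446)) (.L 7 7 [4, 4, 5, 4, 5, 5] [88, 85, 82, 76, 66, 54] [100, 97, 94, 88,
    78, 66] 100000 60000 60000 992000 100000 0 100000 4000 0 68000 32000))) (.E 1)) (.E 1))) (.L 7
    7 [4, 4, 5, 4, 5, 5] [88, 85, 82, 76, 66, 54] [] 100000 50317 50317 1047154 62025 0 66772 50000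
    9494 6329 25158)

lemma s21_21_5_5_4 : BlkD.treeX d21_21_5_5 (BlkD.exF 5 5 x21_21_5_5) t21_21_5_5_4
    (BlkD.upd (BlkD.upd (fun _ => 0) 0 1) 1 6)
    (BlkD.upd (BlkD.upd (BlkD.upd (BlkD.upd (BlkD.upd (BlkD.upd (BlkD.upd (BlkD.upd (BlkD.upd (fun _ => 21) 0 5) 2 5) 0 2) 0 1) 1 20) 1 10) 1 8) 1 7) 1 6) = true := by
  decide +kernel

lemma n21_21_5_5_4 {n : ℕ} (hn : 5 ≤ n) : BlkD.NdX d21_21_5_5 (BlkD.exF 5 5 x21_21_5_5) n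
    (BlkD.upd (BlkD.upd (fun _ => 0) 0 1) 1 6)
    (BlkD.upd (BlkD.upd (BlkD.upd (BlkD.upd (BlkD.upd (BlkD.upd (BlkD.upd (BlkD.upd (BlkD.upd (fun _ => 21) 0 5) 2 5) 0 2) 0 1) 1 20) 1 10) 1 8) 1 7) 1 6) :=
  BlkD.NdX.tree s21_21_5_5_4 ok21_21_5_5 (by decide) hn

/-- a subtree -/
def t21_21_5_5_5 : BlkD.Tr :=
  .S 2 2 (.S 2 1 (.L 7 7 [4, 4, 5, 4, 5, 5] [105, 102, 99, 96, 90, 80] [] 100000 65218 65218 956522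
    17391 82609 39130 82609 43478 0 17391) (.S 3 11 (.S 3 5 (.S 3 2 (.L 7 7 [4, 4, 5, 4, 5, 5]
    [105, 102, 99, 96, 90, 80] [] 100000 30000 30000 1090000 35000 0 40000 0 50000 0 30000) (.S 3 4
    (.S 3 3 (.L 1 1 [10, 13, 15, 18, 17, 16] [105, 102, 99, 96, 90, 80] [52, 42, 30, 18, 0, 0]
    100000 50000 50000 1025000 50000 0 75000 50000 50000 0 25000) (.L 1 1 [10, 13, 15, 18, 17, 16]
    [105, 102, 99, 96, 90, 80] [68, 62, 52, 40, 28, 0] 100000 61539 61539 969232 61538 0 92308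
    46154 0 7692 30769)) (.L 1 1 [10, 13, 15, 18, 17, 16] [105, 102, 99, 96, 90, 80] [83, 80, 74,
    64, 52, 40] 100000 55556 55556 930555 55556 0 86111 58333 2778 19444 22222))) (.L 1 1 [10, 13,
    15, 18, 17, 16] [105, 102, 99, 96, 90, 80] [] 100000 100000 0 0 0 0 150000 200000 0 0 0)) (.E
    1))) (.S 2 4 (.S 2 3 (.S 3 10 (.S 3 5 (.S 3 2 (.L 1 1 [10, 13, 15, 18, 17, 16] [105, 102, 99,
    96, 90, 80] [] 100000 46875 46875 1038545 46875 0 73958 46875 51042 4167 25000) (.L 1 1 [10,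
    13, 15, 18, 17, 16] [105, 102, 99, 96, 90, 80] [] 100000 38264 38264 1073956 34566 0 65273
    61254 27331 31350 30868)) (.E 1)) (.E 1)) (.L 1 1 [10, 13, 15, 18, 17, 16] [105, 102, 99, 96,
    90, 80] [] 100000 33334 33334 1083334 33333 0 66667 50000 33333 50000 33333)) (.L 1 1 [10, 13,
    15, 18, 17, 16] [105, 102, 99, 96, 90, 80] [] 100000 25000 0 1000000 25000 0 100000 12500 0
    75000 25000))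

lemma s21_21_5_5_5 : BlkD.treeX d21_21_5_5 (BlkD.exF 5 5 x21_21_5_5) t21_21_5_5_5
    (BlkD.upd (BlkD.upd (BlkD.upd (fun _ => 0) 0 1) 1 6) 1 7)
    (BlkD.upd (BlkD.upd (BlkD.upd (BlkD.upd (BlkD.upd (BlkD.upd (BlkD.upd (BlkD.upd (fun _ => 21) 0 5) 2 5) 0 2) 0 1) 1 20) 1 10) 1 8) 1 7) = true := by
  decide +kernel

lemma n21_21_5_5_5 {n : ℕ} (hn : 5 ≤ n) : BlkD.NdX d21_21_5_5 (BlkD.exF 5 5 x21_21_5_5) n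
    (BlkD.upd (BlkD.upd (BlkD.upd (fun _ => 0) 0 1) 1 6) 1 7)
    (BlkD.upd (BlkD.upd (BlkD.upd (BlkD.upd (BlkD.upd (BlkD.upd (BlkD.upd (BlkD.upd (fun _ => 21) 0 5) 2 5) 0 2) 0 1) 1 20) 1 10) 1 8) 1 7) :=
  BlkD.NdX.tree s21_21_5_5_5 ok21_21_5_5 (by decide) hn

/-- a subtree -/
def t21_21_5_5_6 : BlkD.Tr :=
  .E 0

lemma s21_21_5_5_6 : BlkD.treeX d21_21_5_5 (BlkD.exF 5 5 x21_21_5_5) t21_21_5_5_6
    (BlkD.upd (BlkD.upd (BlkD.upd (fun _ => 0) 0 1) 1 6) 1 8)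
    (BlkD.upd (BlkD.upd (BlkD.upd (BlkD.upd (BlkD.upd (BlkD.upd (BlkD.upd (fun _ => 21) 0 5) 2 5) 0 2) 0 1) 1 20) 1 10) 1 8) = true := by
  decide +kernel

lemma n21_21_5_5_6 {n : ℕ} (hn : 5 ≤ n) : BlkD.NdX d21_21_5_5 (BlkD.exF 5 5 x21_21_5_5) n
    (BlkD.upd (BlkD.upd (BlkD.upd (fun _ => 0) 0 1) 1 6) 1 8)
    (BlkD.upd (BlkD.upd (BlkD.upd (BlkD.upd (BlkD.upd (BlkD.upd (BlkD.upd (fun _ => 21) 0 5) 2 5) 0 2) 0 1) 1 20) 1 10) 1 8) :=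
  BlkD.NdX.tree s21_21_5_5_6 ok21_21_5_5 (by decide) hn

/-- a subtree -/
def t21_21_5_5_7 : BlkD.Tr :=
  .E 0

lemma s21_21_5_5_7 : BlkD.treeX d21_21_5_5 (BlkD.exF 5 5 x21_21_5_5) t21_21_5_5_7
    (BlkD.upd (BlkD.upd (BlkD.upd (fun _ => 0) 0 1) 1 6) 1 9)
    (BlkD.upd (BlkD.upd (BlkD.upd (BlkD.upd (BlkD.upd (BlkD.upd (fun _ => 21) 0 5) 2 5) 0 2) 0 1) 1 20) 1 10) = true := by
  decide +kernel

lemma n21_21_5_5_7 {n : ℕ} (hn : 5 ≤ n) : BlkD.NdX d21_21_5_5 (BlkD.exF 5 5 x21_21_5_5) n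
    (BlkD.upd (BlkD.upd (BlkD.upd (fun _ => 0) 0 1) 1 6) 1 9)
    (BlkD.upd (BlkD.upd (BlkD.upd (BlkD.upd (BlkD.upd (BlkD.upd (fun _ => 21) 0 5) 2 5) 0 2) 0 1) 1 20) 1 10) :=
  BlkD.NdX.tree s21_21_5_5_7 ok21_21_5_5 (by decide) hn

/-- a subtree -/
def t21_21_5_5_8 : BlkD.Tr :=
  .E 0

lemma s21_21_5_5_8 : BlkD.treeX d21_21_5_5 (BlkD.exF 5 5 x21_21_5_5) t21_21_5_5_8
    (BlkD.upd (BlkD.upd (fun _ => 0) 0 1) 1 11)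
    (BlkD.upd (BlkD.upd (BlkD.upd (BlkD.upd (BlkD.upd (fun _ => 21) 0 5) 2 5) 0 2) 0 1) 1 20) = true := by
  decide +kernel

lemma n21_21_5_5_8 {n : ℕ} (hn : 5 ≤ n) : BlkD.NdX d21_21_5_5 (BlkD.exF 5 5 x21_21_5_5) n
    (BlkD.upd (BlkD.upd (fun _ => 0) 0 1) 1 11)
    (BlkD.upd (BlkD.upd (BlkD.upd (BlkD.upd (BlkD.upd (fun _ => 21) 0 5) 2 5) 0 2) 0 1) 1 20) :=
  BlkD.NdX.tree s21_21_5_5_8 ok21_21_5_5 (by decide) hn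

/-- a subtree -/
def t21_21_5_5_9 : BlkD.Tr :=
  .E 0

lemma s21_21_5_5_9 : BlkD.treeX d21_21_5_5 (BlkD.exF 5 5 x21_21_5_5) t21_21_5_5_9
    (BlkD.upd (BlkD.upd (fun _ => 0) 0 1) 1 21)
    (BlkD.upd (BlkD.upd (BlkD.upd (BlkD.upd (fun _ => 21) 0 5) 2 5) 0 2) 0 1) = true := by
  decide +kernel

lemma n21_21_5_5_9 {n : ℕ} (hn : 5 ≤ n) : BlkD.NdX d21_21_5_5 (BlkD.exF 5 5 x21_21_5_5) n
    (BlkD.upd (BlkD.upd (fun _ => 0) 0 1) 1 21)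
    (BlkD.upd (BlkD.upd (BlkD.upd (BlkD.upd (fun _ => 21) 0 5) 2 5) 0 2) 0 1) :=
  BlkD.NdX.tree s21_21_5_5_9 ok21_21_5_5 (by decide) hn

/-- a subtree -/
def t21_21_5_5_10 : BlkD.Tr :=
  .L 1 1 [10, 13, 15, 18, 17, 16] [] [] 100000 34667 34667 1113336 0 0 0 86667 0 26667 21667

lemma s21_21_5_5_10 : BlkD.treeX d21_21_5_5 (BlkD.exF 5 5 x21_21_5_5) t21_21_5_5_10
    (BlkD.upd (fun _ => 0) 0 2)
    (BlkD.upd (BlkD.upd (BlkD.upd (BlkD.upd (BlkD.upd (BlkD.upd (BlkD.upd (fun _ => 21) 0 5) 2 5) 0 2) 1 19) 1 9) 1 4) 1 2) = true := by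
  decide +kernel

lemma n21_21_5_5_10 {n : ℕ} (hn : 5 ≤ n) : BlkD.NdX d21_21_5_5 (BlkD.exF 5 5 x21_21_5_5) n
    (BlkD.upd (fun _ => 0) 0 2)
    (BlkD.upd (BlkD.upd (BlkD.upd (BlkD.upd (BlkD.upd (BlkD.upd (BlkD.upd (fun _ => 21) 0 5) 2 5) 0 2) 1 19) 1 9) 1 4) 1 2) :=
  BlkD.NdX.tree s21_21_5_5_10 ok21_21_5_5 (by decide) hn

/-- a subtree -/
def t21_21_5_5_11 : BlkD.Tr :=
  .S 2 1 (.L 1 1 [10, 13, 15, 18, 17, 16] [52, 42, 30, 18, 0, 0] [] 100000 60403 60403 995974 0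
    57718 79866 73154 0 6711 20000) (.S 3 14 (.S 3 7 (.S 3 3 (.L 1 1 [10, 13, 15, 18, 17, 16] [52,
    42, 30, 18, 0, 0] [] 100000 40000 40000 1000000 0 0 0 0 0 0 20000) (.S 3 5 (.S 3 4 (.L 9 9 [5,
    6, 6, 3, 4, 4] [52, 42, 30, 18, 0, 0] [68, 62, 52, 40, 28, 0] 100000 38641 38641 1098058 15534
    1942 15534 49515 0 6796 28155) (.S 4 3 (.S 4 1 (.S 4 0 (.L 9 9 [5, 6, 6, 3, 4, 4] [18, 0, 0, 0,
    0, 0] [83, 80, 74, 64, 52, 40] 100000 22223 22223 1177778 0 33333 0 55556 44444 22222 22222)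
    (.L 9 9 [5, 6, 6, 3, 4, 4] [30, 18, 0, 0, 0, 0] [83, 80, 74, 64, 52, 40] 100000 27500 27500
    1137500 0 0 62500 62500 0 62500 25000)) (.L 9 9 [5, 6, 6, 3, 4, 4] [52, 42, 30, 18, 0, 0] [83,
    80, 74, 64, 52, 40] 100000 26667 26667 1066668 0 0 100000 33333 0 66667 33333)) (.E 2))) (.S 3
    6 (.S 4 3 (.S 4 1 (.S 4 0 (.L 9 9 [5, 6, 6, 3, 4, 4] [18, 0, 0, 0, 0, 0] [100, 97, 94, 88, 78,
    66] 100000 20000 20000 1175000 0 25000 0 75000 50000 25000 25000) (.L 9 9 [5, 6, 6, 3, 4, 4]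
    [30, 18, 0, 0, 0, 0] [100, 97, 94, 88, 78, 66] 100000 25000 25000 1160000 10000 10000 85000
    25000 0 75000 25000)) (.L 9 9 [5, 6, 6, 3, 4, 4] [52, 42, 30, 18, 0, 0] [100, 97, 94, 88, 78,
    66] 100000 25000 25000 1075000 0 0 100000 25000 0 75000 25000)) (.E 2)) (.E 1)))) (.E 1)) (.E
    1))

lemma s21_21_5_5_11 : BlkD.treeX d21_21_5_5 (BlkD.exF 5 5 x21_21_5_5) t21_21_5_5_11
    (BlkD.upd (BlkD.upd (fun _ => 0) 0 2) 1 3)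
    (BlkD.upd (BlkD.upd (BlkD.upd (BlkD.upd (BlkD.upd (BlkD.upd (BlkD.upd (BlkD.upd (fun _ => 21) 0 5) 2 5) 0 2) 1 19) 1 9) 1 4) 1 3) 2 2) = true := by
  decide +kernel

lemma n21_21_5_5_11 {n : ℕ} (hn : 5 ≤ n) : BlkD.NdX d21_21_5_5 (BlkD.exF 5 5 x21_21_5_5) n
    (BlkD.upd (BlkD.upd (fun _ => 0) 0 2) 1 3)
    (BlkD.upd (BlkD.upd (BlkD.upd (BlkD.upd (BlkD.upd (BlkD.upd (BlkD.upd (BlkD.upd (fun _ => 21) 0 5) 2 5) 0 2) 1 19) 1 9) 1 4) 1 3) 2 2) :=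
  BlkD.NdX.tree s21_21_5_5_11 ok21_21_5_5 (by decide) hn

/-- a subtree -/
def t21_21_5_5_12 : BlkD.Tr :=
  .S 2 4 (.S 2 3 (.S 3 13 (.S 3 6 (.S 3 3 (.L 9 9 [5, 6, 6, 3, 4, 4] [52, 42, 30, 18, 0, 0] []
    100000 37500 37500 1100000 12500 0 12500 37500 0 12500 17500) (.S 3 5 (.S 3 4 (.S 4 3 (.S 4 1
    (.S 4 0 (.L 9 9 [5, 6, 6, 3, 4, 4] [18, 0, 0, 0, 0, 0] [76, 70, 60, 48, 36, 0] 100000 20000
    19999 1195876 17526 11340 0 37113 24742 50515 30928) (.L 9 9 [5, 6, 6, 3, 4, 4] [30, 18, 0, 0,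
    0, 0] [76, 70, 60, 48, 36, 0] 100000 30527 30527 1105264 0 0 94737 47368 0 47368 31579)) (.L 9
    9 [5, 6, 6, 3, 4, 4] [52, 42, 30, 18, 0, 0] [76, 70, 60, 48, 36, 0] 100000 35000 35000 1000000
    0 0 100000 50000 0 25000 25000)) (.E 2)) (.L 9 9 [5, 6, 6, 3, 4, 4] [52, 42, 30, 18, 0, 0] [93,
    90, 84, 74, 62, 50] 100000 37143 37143 1107144 0 0 42857 100000 7143 7143 25000)) (.E 1))) (.E
    1)) (.E 1)) (.S 3 12 (.S 3 6 (.S 3 3 (.L 9 9 [5, 6, 6, 3, 4, 4] [52, 42, 30, 18, 0, 0] []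
    100000 22479 22478 1184034 7983 7983 51261 45273 5042 77521 25840) (.L 9 9 [5, 6, 6, 3, 4, 4]
    [52, 42, 30, 18, 0, 0] [] 100000 37500 37500 1100000 0 0 43750 100000 6250 6250 25000)) (.E 1))
    (.E 1))) (.L 9 9 [5, 6, 6, 3, 4, 4] [52, 42, 30, 18, 0, 0] [] 100000 23334 23334 1141666 0 0
    20000 61667 3333 76667 38333)

lemma s21_21_5_5_12 : BlkD.treeX d21_21_5_5 (BlkD.exF 5 5 x21_21_5_5) t21_21_5_5_12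
    (BlkD.upd (BlkD.upd (BlkD.upd (fun _ => 0) 0 2) 1 3) 2 3)
    (BlkD.upd (BlkD.upd (BlkD.upd (BlkD.upd (BlkD.upd (BlkD.upd (BlkD.upd (fun _ => 21) 0 5) 2 5) 0 2) 1 19) 1 9) 1 4) 1 3) = true := by
  decide +kernel

lemma n21_21_5_5_12 {n : ℕ} (hn : 5 ≤ n) : BlkD.NdX d21_21_5_5 (BlkD.exF 5 5 x21_21_5_5) n
    (BlkD.upd (BlkD.upd (BlkD.upd (fun _ => 0) 0 2) 1 3) 2 3)
    (BlkD.upd (BlkD.upd (BlkD.upd (BlkD.upd (BlkD.upd (BlkD.upd (BlkD.upd (fun _ => 21) 0 5) 2 5) 0 2) 1 19) 1 9) 1 4) 1 3) :=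
  BlkD.NdX.tree s21_21_5_5_12 ok21_21_5_5 (by decide) hn

/-- a subtree -/
def t21_21_5_5_13 : BlkD.Tr :=
  .L 6 6 [4, 4, 5, 5, 5, 6] [68, 62, 52, 40, 28, 0] [] 100000 51374 51374 1041759 0 63736 50000
    67033 6044 6593 25000

lemma s21_21_5_5_13 : BlkD.treeX d21_21_5_5 (BlkD.exF 5 5 x21_21_5_5) t21_21_5_5_13
    (BlkD.upd (BlkD.upd (BlkD.upd (fun _ => 0) 0 2) 1 3) 1 4)
    (BlkD.upd (BlkD.upd (BlkD.upd (BlkD.upd (BlkD.upd (BlkD.upd (BlkD.upd (BlkD.upd (fun _ => 21) 0 5) 2 5) 0 2) 1 19) 1 9) 1 4) 2 2) 2 1) = true := by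
  decide +kernel

lemma n21_21_5_5_13 {n : ℕ} (hn : 5 ≤ n) : BlkD.NdX d21_21_5_5 (BlkD.exF 5 5 x21_21_5_5) n
    (BlkD.upd (BlkD.upd (BlkD.upd (fun _ => 0) 0 2) 1 3) 1 4)
    (BlkD.upd (BlkD.upd (BlkD.upd (BlkD.upd (BlkD.upd (BlkD.upd (BlkD.upd (BlkD.upd (fun _ => 21) 0 5) 2 5) 0 2) 1 19) 1 9) 1 4) 2 2) 2 1) :=
  BlkD.NdX.tree s21_21_5_5_13 ok21_21_5_5 (by decide) hn

/-- a subtree -/
def t21_21_5_5_14 : BlkD.Tr :=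
  .S 3 1 (.L 6 6 [4, 4, 5, 5, 5, 6] [68, 62, 52, 40, 28, 0] [] 100000 45000 45000 900000 0 0 0 0 0
    0 15000) (.S 3 2 (.L 6 6 [4, 4, 5, 5, 5, 6] [68, 62, 52, 40, 28, 0] [34, 22, 10, 0, 0, 0]
    100000 40000 40000 1000000 0 0 0 0 0 0 20000) (.L 1 1 [10, 13, 15, 18, 17, 16] [68, 62, 52, 40,
    28, 0] [52, 42, 30, 18, 0, 0] 100000 41513 41513 1089918 0 11765 86555 23529 12605 1681 24580))

lemma s21_21_5_5_14 : BlkD.treeX d21_21_5_5 (BlkD.exF 5 5 x21_21_5_5) t21_21_5_5_14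
    (BlkD.upd (BlkD.upd (BlkD.upd (BlkD.upd (fun _ => 0) 0 2) 1 3) 1 4) 2 2)
    (BlkD.upd (BlkD.upd (BlkD.upd (BlkD.upd (BlkD.upd (BlkD.upd (BlkD.upd (BlkD.upd (BlkD.upd (BlkD.upd (fun _ => 21) 0 5) 2 5) 0 2) 1 19) 1 9) 1 4) 2 2) 3 13) 3 6) 3 3) = true := by
  decide +kernel

lemma n21_21_5_5_14 {n : ℕ} (hn : 5 ≤ n) : BlkD.NdX d21_21_5_5 (BlkD.exF 5 5 x21_21_5_5) n
    (BlkD.upd (BlkD.upd (BlkD.upd (BlkD.upd (fun _ => 0) 0 2) 1 3) 1 4) 2 2)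
    (BlkD.upd (BlkD.upd (BlkD.upd (BlkD.upd (BlkD.upd (BlkD.upd (BlkD.upd (BlkD.upd (BlkD.upd (BlkD.upd (fun _ => 21) 0 5) 2 5) 0 2) 1 19) 1 9) 1 4) 2 2) 3 13) 3 6) 3 3) :=
  BlkD.NdX.tree s21_21_5_5_14 ok21_21_5_5 (by decide) hn

/-- a subtree -/
def t21_21_5_5_15 : BlkD.Tr :=
  .S 3 5 (.S 3 4 (.S 4 4 (.S 4 2 (.S 4 1 (.L 7 7 [4, 4, 5, 4, 5, 5] [40, 28, 0, 0, 0, 0] [68, 62,
    52, 40, 28, 0] 100000 26364 26364 1163636 18182 9091 36364 56818 36364 15909 27273) (.L 7 7 [4,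
    4, 5, 4, 5, 5] [52, 40, 28, 0, 0, 0] [68, 62, 52, 40, 28, 0] 100000 36667 36667 1100002 0 0
    100000 50000 0 16667 25000)) (.L 7 7 [4, 4, 5, 4, 5, 5] [68, 62, 52, 40, 28, 0] [68, 62, 52,
    40, 28, 0] 100000 36667 36667 1000002 0 0 100000 50000 0 16667 25000)) (.E 2)) (.S 4 4 (.S 4 2
    (.S 4 1 (.S 4 0 (.L 7 7 [4, 4, 5, 4, 5, 5] [28, 0, 0, 0, 0, 0] [83, 80, 74, 64, 52, 40] 100000
    22667 22667 1160000 0 40000 0 60000 80000 40000 26667) (.S 5 5 (.S 5 2 (.S 5 1 (.L 7 7 [4, 4,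
    5, 4, 5, 5] [40, 28, 0, 0, 0, 0] [52, 40, 0, 0, 0, 0] 100000 20001 20001 1182352 11765 11765
    70588 29412 17647 76471 29412) (.L 7 7 [4, 4, 5, 4, 5, 5] [40, 28, 0, 0, 0, 0] [64, 52, 40, 0,
    0, 0] 100000 20000 20000 1187917 7500 7500 22083 77500 80000 10000 29167)) (.L 7 7 [4, 4, 5, 4,
    5, 5] [40, 28, 0, 0, 0, 0] [83, 80, 74, 64, 52, 40] 100000 20635 20634 1099206 794 0 17460
    100000 82540 17460 33333)) (.E 2))) (.S 5 5 (.S 5 2 (.L 7 7 [4, 4, 5, 4, 5, 5] [52, 40, 28, 0,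
    0, 0] [64, 52, 40, 0, 0, 0] 100000 20000 20000 1189167 5000 5000 90000 15833 10000 80000 31667)
    (.L 7 7 [4, 4, 5, 4, 5, 5] [52, 40, 28, 0, 0, 0] [83, 80, 74, 64, 52, 40] 100000 40000 40000
    1054546 0 0 81818 81818 0 0 27273)) (.E 2))) (.L 7 7 [4, 4, 5, 4, 5, 5] [68, 62, 52, 40, 28, 0]
    [83, 80, 74, 64, 52, 40] 100000 26667 26667 1066668 0 0 100000 33333 0 66667 33333)) (.E 2)))
    (.S 4 4 (.S 4 2 (.S 4 1 (.L 7 7 [4, 4, 5, 4, 5, 5] [40, 28, 0, 0, 0, 0] [100, 97, 94, 88, 78,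
    66] 100000 23077 23077 1176924 0 7692 15385 100000 76923 7692 30769) (.L 7 7 [4, 4, 5, 4, 5, 5]
    [52, 40, 28, 0, 0, 0] [100, 97, 94, 88, 78, 66] 100000 22581 22581 1170967 3226 3226 100000
    16129 9677 80645 32258)) (.L 7 7 [4, 4, 5, 4, 5, 5] [68, 62, 52, 40, 28, 0] [100, 97, 94, 88,
    78, 66] 100000 28572 14286 1014284 0 14286 114286 14286 0 71429 28571)) (.E 2))

lemma s21_21_5_5_15 : BlkD.treeX d21_21_5_5 (BlkD.exF 5 5 x21_21_5_5) t21_21_5_5_15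
    (BlkD.upd (BlkD.upd (BlkD.upd (BlkD.upd (BlkD.upd (fun _ => 0) 0 2) 1 3) 1 4) 2 2) 3 4)
    (BlkD.upd (BlkD.upd (BlkD.upd (BlkD.upd (BlkD.upd (BlkD.upd (BlkD.upd (BlkD.upd (BlkD.upd (fun _ => 21) 0 5) 2 5) 0 2) 1 19) 1 9) 1 4) 2 2) 3 13) 3 6) = true := by
  decide +kernel

lemma n21_21_5_5_15 {n : ℕ} (hn : 5 ≤ n) : BlkD.NdX d21_21_5_5 (BlkD.exF 5 5 x21_21_5_5) n
    (BlkD.upd (BlkD.upd (BlkD.upd (BlkD.upd (BlkD.upd (fun _ => 0) 0 2) 1 3) 1 4) 2 2) 3 4)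
    (BlkD.upd (BlkD.upd (BlkD.upd (BlkD.upd (BlkD.upd (BlkD.upd (BlkD.upd (BlkD.upd (BlkD.upd (fun _ => 21) 0 5) 2 5) 0 2) 1 19) 1 9) 1 4) 2 2) 3 13) 3 6) :=
  BlkD.NdX.tree s21_21_5_5_15 ok21_21_5_5 (by decide) hn

/-- a subtree -/
def t21_21_5_5_16 : BlkD.Tr :=
  .E 1

lemma s21_21_5_5_16 : BlkD.treeX d21_21_5_5 (BlkD.exF 5 5 x21_21_5_5) t21_21_5_5_16
    (BlkD.upd (BlkD.upd (BlkD.upd (BlkD.upd (BlkD.upd (fun _ => 0) 0 2) 1 3) 1 4) 2 2) 3 7)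
    (BlkD.upd (BlkD.upd (BlkD.upd (BlkD.upd (BlkD.upd (BlkD.upd (BlkD.upd (BlkD.upd (fun _ => 21) 0 5) 2 5) 0 2) 1 19) 1 9) 1 4) 2 2) 3 13) = true := by
  decide +kernel

lemma n21_21_5_5_16 {n : ℕ} (hn : 5 ≤ n) : BlkD.NdX d21_21_5_5 (BlkD.exF 5 5 x21_21_5_5) n
    (BlkD.upd (BlkD.upd (BlkD.upd (BlkD.upd (BlkD.upd (fun _ => 0) 0 2) 1 3) 1 4) 2 2) 3 7)
    (BlkD.upd (BlkD.upd (BlkD.upd (BlkD.upd (BlkD.upd (BlkD.upd (BlkD.upd (BlkD.upd (fun _ => 21) 0 5) 2 5) 0 2) 1 19) 1 9) 1 4) 2 2) 3 13) :=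
  BlkD.NdX.tree s21_21_5_5_16 ok21_21_5_5 (by decide) hn

/-- a subtree -/
def t21_21_5_5_17 : BlkD.Tr :=
  .E 1

lemma s21_21_5_5_17 : BlkD.treeX d21_21_5_5 (BlkD.exF 5 5 x21_21_5_5) t21_21_5_5_17
    (BlkD.upd (BlkD.upd (BlkD.upd (BlkD.upd (BlkD.upd (fun _ => 0) 0 2) 1 3) 1 4) 2 2) 3 14)
    (BlkD.upd (BlkD.upd (BlkD.upd (BlkD.upd (BlkD.upd (BlkD.upd (BlkD.upd (fun _ => 21) 0 5) 2 5) 0 2) 1 19) 1 9) 1 4) 2 2) = true := by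
  decide +kernel

lemma n21_21_5_5_17 {n : ℕ} (hn : 5 ≤ n) : BlkD.NdX d21_21_5_5 (BlkD.exF 5 5 x21_21_5_5) n
    (BlkD.upd (BlkD.upd (BlkD.upd (BlkD.upd (BlkD.upd (fun _ => 0) 0 2) 1 3) 1 4) 2 2) 3 14)
    (BlkD.upd (BlkD.upd (BlkD.upd (BlkD.upd (BlkD.upd (BlkD.upd (BlkD.upd (fun _ => 21) 0 5) 2 5) 0 2) 1 19) 1 9) 1 4) 2 2) :=
  BlkD.NdX.tree s21_21_5_5_17 ok21_21_5_5 (by decide) hn

/-- a subtree -/
def t21_21_5_5_18 : BlkD.Tr :=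
  .S 3 12 (.S 3 6 (.S 3 3 (.S 3 1 (.L 7 7 [4, 4, 5, 4, 5, 5] [68, 62, 52, 40, 28, 0] [] 100000
    40000 40000 1000000 0 0 0 0 0 0 20000) (.S 3 2 (.L 7 7 [4, 4, 5, 4, 5, 5] [68, 62, 52, 40, 28,
    0] [38, 26, 14, 0, 0, 0] 100000 31893 31892 1126919 6017 950 70619 66186 13934 13300 26179) (.S
    4 4 (.S 4 2 (.S 4 1 (.S 4 0 (.L 7 7 [4, 4, 5, 4, 5, 5] [28, 0, 0, 0, 0, 0] [58, 48, 36, 24, 0,
    0] 100000 20000 19999 1197444 1278 17572 0 71565 52716 23642 32907) (.L 7 7 [4, 4, 5, 4, 5, 5]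
    [40, 28, 0, 0, 0, 0] [58, 48, 36, 24, 0, 0] 100000 23500 23500 1180000 20000 0 45000 56250
    45000 18750 25000)) (.L 7 7 [4, 4, 5, 4, 5, 5] [52, 40, 28, 0, 0, 0] [58, 48, 36, 24, 0, 0]
    100000 36667 36667 1100002 0 0 100000 50000 0 16667 25000)) (.L 7 7 [4, 4, 5, 4, 5, 5] [68, 62,
    52, 40, 28, 0] [58, 48, 36, 24, 0, 0] 100000 36667 36667 1000002 0 0 100000 50000 0 16667
    25000)) (.E 2)))) (.S 3 5 (.S 3 4 (.S 4 4 (.S 4 2 (.S 4 1 (.S 4 0 (.L 7 7 [4, 4, 5, 4, 5, 5]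
    [28, 0, 0, 0, 0, 0] [76, 70, 60, 48, 36, 0] 100000 20000 20000 1196000 20000 8000 0 52000 52000
    48000 36000) (.L 7 7 [4, 4, 5, 4, 5, 5] [40, 28, 0, 0, 0, 0] [76, 70, 60, 48, 36, 0] 100000
    20001 20001 1185714 21429 0 50000 42857 35714 42857 28571)) (.L 7 7 [4, 4, 5, 4, 5, 5] [52, 40,
    28, 0, 0, 0] [76, 70, 60, 48, 36, 0] 100000 30527 30527 1110527 0 0 94737 47368 0 47368 31579))
    (.L 7 7 [4, 4, 5, 4, 5, 5] [68, 62, 52, 40, 28, 0] [76, 70, 60, 48, 36, 0] 100000 40000 27500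
    962500 0 0 112500 56250 0 18750 25000)) (.E 2)) (.S 4 4 (.S 4 2 (.S 4 1 (.S 4 0 (.S 5 5 (.S 5 2
    (.E 2) (.S 5 4 (.L 7 7 [4, 4, 5, 4, 5, 5] [28, 0, 0, 0, 0, 0] [90, 84, 74, 62, 50, 0] 100000
    33333 33333 1100002 8333 33333 0 100000 91667 0 33333) (.L 7 7 [4, 4, 5, 4, 5, 5] [28, 0, 0, 0,
    0, 0] [93, 90, 84, 74, 62, 50] 100000 68000 0 656000 36000 0 0 168000 4000 0 20000))) (.E 2))
    (.L 7 7 [4, 4, 5, 4, 5, 5] [40, 28, 0, 0, 0, 0] [93, 90, 84, 74, 62, 50] 100000 33334 33334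
    1116666 16667 0 33333 100000 66667 0 33333)) (.L 7 7 [4, 4, 5, 4, 5, 5] [52, 40, 28, 0, 0, 0]
    [93, 90, 84, 74, 62, 50] 100000 33334 33334 1100000 0 0 100000 50000 0 50000 33333)) (.L 7 7
    [4, 4, 5, 4, 5, 5] [68, 62, 52, 40, 28, 0] [93, 90, 84, 74, 62, 50] 100000 50000 25000 875000 0
    0 125000 75000 0 0 25000)) (.E 2))) (.E 1))) (.E 1)) (.E 1)

lemma s21_21_5_5_18 : BlkD.treeX d21_21_5_5 (BlkD.exF 5 5 x21_21_5_5) t21_21_5_5_18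
    (BlkD.upd (BlkD.upd (BlkD.upd (BlkD.upd (fun _ => 0) 0 2) 1 3) 1 4) 2 3)
    (BlkD.upd (BlkD.upd (BlkD.upd (BlkD.upd (BlkD.upd (BlkD.upd (BlkD.upd (BlkD.upd (fun _ => 21) 0 5) 2 5) 0 2) 1 19) 1 9) 1 4) 2 4) 2 3) = true := by
  decide +kernel

lemma n21_21_5_5_18 {n : ℕ} (hn : 5 ≤ n) : BlkD.NdX d21_21_5_5 (BlkD.exF 5 5 x21_21_5_5) n
    (BlkD.upd (BlkD.upd (BlkD.upd (BlkD.upd (fun _ => 0) 0 2) 1 3) 1 4) 2 3)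
    (BlkD.upd (BlkD.upd (BlkD.upd (BlkD.upd (BlkD.upd (BlkD.upd (BlkD.upd (BlkD.upd (fun _ => 21) 0 5) 2 5) 0 2) 1 19) 1 9) 1 4) 2 4) 2 3) :=
  BlkD.NdX.tree s21_21_5_5_18 ok21_21_5_5 (by decide) hn

/-- a subtree -/
def t21_21_5_5_19 : BlkD.Tr :=
  .S 3 11 (.S 3 5 (.S 3 2 (.S 3 1 (.L 7 7 [4, 4, 5, 4, 5, 5] [68, 62, 52, 40, 28, 0] [] 100000
    27647 27646 1120588 10294 0 61765 61765 20588 20588 25000) (.S 4 4 (.S 4 2 (.L 7 7 [4, 4, 5, 4,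
    5, 5] [52, 40, 28, 0, 0, 0] [42, 30, 18, 0, 0, 0] 100000 20000 20000 1190000 20000 5000 50000
    40000 40000 35000 25000) (.L 7 7 [4, 4, 5, 4, 5, 5] [68, 62, 52, 40, 28, 0] [42, 30, 18, 0, 0,
    0] 100000 33334 1 933334 0 0 133333 0 0 33333 33333)) (.E 2))) (.S 3 4 (.S 3 3 (.S 4 4 (.S 4 2
    (.S 4 1 (.S 4 0 (.L 7 7 [4, 4, 5, 4, 5, 5] [28, 0, 0, 0, 0, 0] [64, 54, 42, 30, 0, 0] 100000
    20001 20001 1194252 20690 11494 0 52874 51724 41379 24138) (.L 7 7 [4, 4, 5, 4, 5, 5] [40, 28,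
    0, 0, 0, 0] [64, 54, 42, 30, 0, 0] 100000 20000 19999 1184615 23077 0 46154 46154 46154 46154
    30769)) (.L 7 7 [4, 4, 5, 4, 5, 5] [52, 40, 28, 0, 0, 0] [64, 54, 42, 30, 0, 0] 100000 25000
    24999 1131250 0 0 84375 42188 0 75000 28125)) (.L 7 7 [4, 4, 5, 4, 5, 5] [68, 62, 52, 40, 28,
    0] [64, 54, 42, 30, 0, 0] 100000 40000 27500 962500 0 0 112500 56250 0 18750 25000)) (.E 2))
    (.L 7 7 [4, 4, 5, 4, 5, 5] [68, 62, 52, 40, 28, 0] [84, 78, 68, 56, 44, 0] 100000 33334 33334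
    1100000 0 0 100000 50000 0 50000 33333)) (.E 1))) (.E 1)) (.E 1)

lemma s21_21_5_5_19 : BlkD.treeX d21_21_5_5 (BlkD.exF 5 5 x21_21_5_5) t21_21_5_5_19
    (BlkD.upd (BlkD.upd (BlkD.upd (BlkD.upd (BlkD.upd (fun _ => 0) 0 2) 1 3) 1 4) 2 3) 2 4)
    (BlkD.upd (BlkD.upd (BlkD.upd (BlkD.upd (BlkD.upd (BlkD.upd (BlkD.upd (fun _ => 21) 0 5) 2 5) 0 2) 1 19) 1 9) 1 4) 2 4) = true := by
  decide +kernel

lemma n21_21_5_5_19 {n : ℕ} (hn : 5 ≤ n) : BlkD.NdX d21_21_5_5 (BlkD.exF 5 5 x21_21_5_5) n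
    (BlkD.upd (BlkD.upd (BlkD.upd (BlkD.upd (BlkD.upd (fun _ => 0) 0 2) 1 3) 1 4) 2 3) 2 4)
    (BlkD.upd (BlkD.upd (BlkD.upd (BlkD.upd (BlkD.upd (BlkD.upd (BlkD.upd (fun _ => 21) 0 5) 2 5) 0 2) 1 19) 1 9) 1 4) 2 4) :=
  BlkD.NdX.tree s21_21_5_5_19 ok21_21_5_5 (by decide) hn

/-- a subtree -/
def t21_21_5_5_20 : BlkD.Tr :=
  .L 7 7 [4, 4, 5, 4, 5, 5] [68, 62, 52, 40, 28, 0] [] 100000 30000 30000 1133335 33333 0 58333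
    33333 25000 58333 25000

lemma s21_21_5_5_20 : BlkD.treeX d21_21_5_5 (BlkD.exF 5 5 x21_21_5_5) t21_21_5_5_20
    (BlkD.upd (BlkD.upd (BlkD.upd (BlkD.upd (BlkD.upd (fun _ => 0) 0 2) 1 3) 1 4) 2 3) 2 5)
    (BlkD.upd (BlkD.upd (BlkD.upd (BlkD.upd (BlkD.upd (BlkD.upd (fun _ => 21) 0 5) 2 5) 0 2) 1 19) 1 9) 1 4) = true := by
  decide +kernel

lemma n21_21_5_5_20 {n : ℕ} (hn : 5 ≤ n) : BlkD.NdX d21_21_5_5 (BlkD.exF 5 5 x21_21_5_5) n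
    (BlkD.upd (BlkD.upd (BlkD.upd (BlkD.upd (BlkD.upd (fun _ => 0) 0 2) 1 3) 1 4) 2 3) 2 5)
    (BlkD.upd (BlkD.upd (BlkD.upd (BlkD.upd (BlkD.upd (BlkD.upd (fun _ => 21) 0 5) 2 5) 0 2) 1 19) 1 9) 1 4) :=
  BlkD.NdX.tree s21_21_5_5_20 ok21_21_5_5 (by decide) hn

/-- a subtree -/
def t21_21_5_5_21 : BlkD.Tr :=
  .L 7 7 [4, 4, 5, 4, 5, 5] [83, 80, 74, 64, 52, 40] [] 100000 46667 46667 1060000 0 80000 20000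
    80000 60000 0 26667

lemma s21_21_5_5_21 : BlkD.treeX d21_21_5_5 (BlkD.exF 5 5 x21_21_5_5) t21_21_5_5_21
    (BlkD.upd (BlkD.upd (fun _ => 0) 0 2) 1 5)
    (BlkD.upd (BlkD.upd (BlkD.upd (BlkD.upd (BlkD.upd (BlkD.upd (BlkD.upd (BlkD.upd (BlkD.upd (BlkD.upd (fun _ => 21) 0 5) 2 5) 0 2) 1 19) 1 9) 1 7) 1 6) 1 5) 2 2) 2 1) = true := by
  decide +kernel

lemma n21_21_5_5_21 {n : ℕ} (hn : 5 ≤ n) : BlkD.NdX d21_21_5_5 (BlkD.exF 5 5 x21_21_5_5) n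
    (BlkD.upd (BlkD.upd (fun _ => 0) 0 2) 1 5)
    (BlkD.upd (BlkD.upd (BlkD.upd (BlkD.upd (BlkD.upd (BlkD.upd (BlkD.upd (BlkD.upd (BlkD.upd (BlkD.upd (fun _ => 21) 0 5) 2 5) 0 2) 1 19) 1 9) 1 7) 1 6) 1 5) 2 2) 2 1) :=
  BlkD.NdX.tree s21_21_5_5_21 ok21_21_5_5 (by decide) hn

/-- a subtree -/
def t21_21_5_5_22 : BlkD.Tr :=
  .S 3 1 (.L 7 7 [4, 4, 5, 4, 5, 5] [83, 80, 74, 64, 52, 40] [] 100000 40000 40000 1000000 0 0 0 0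
    0 0 20000) (.S 3 2 (.L 7 7 [4, 4, 5, 4, 5, 5] [83, 80, 74, 64, 52, 40] [34, 22, 10, 0, 0, 0]
    100000 26667 26667 1100000 0 0 66667 0 66667 0 33333) (.S 4 5 (.S 4 2 (.S 4 1 (.L 7 7 [4, 4, 5,
    4, 5, 5] [52, 40, 0, 0, 0, 0] [52, 42, 30, 18, 0, 0] 100000 20000 19999 1188000 8000 4000 16000
    80000 76000 12000 25333) (.S 5 3 (.S 5 1 (.S 5 0 (.L 7 7 [4, 4, 5, 4, 5, 5] [64, 52, 40, 0, 0,
    0] [18, 0, 0, 0, 0, 0] 100000 20000 20000 1175000 25000 0 75000 0 25000 50000 25000) (.L 7 7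
    [4, 4, 5, 4, 5, 5] [64, 52, 40, 0, 0, 0] [30, 18, 0, 0, 0, 0] 100000 27500 27500 1137500 0 0
    62500 62500 62500 0 25000)) (.L 7 7 [4, 4, 5, 4, 5, 5] [64, 52, 40, 0, 0, 0] [52, 42, 30, 18,
    0, 0] 100000 25000 25000 1075000 0 0 50000 75000 75000 0 25000)) (.E 2))) (.L 7 7 [4, 4, 5, 4,
    5, 5] [83, 80, 74, 64, 52, 40] [52, 42, 30, 18, 0, 0] 100000 38751 38751 1097916 1042 1042
    100000 44792 0 6250 25000)) (.E 2)))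

lemma s21_21_5_5_22 : BlkD.treeX d21_21_5_5 (BlkD.exF 5 5 x21_21_5_5) t21_21_5_5_22
    (BlkD.upd (BlkD.upd (BlkD.upd (fun _ => 0) 0 2) 1 5) 2 2)
    (BlkD.upd (BlkD.upd (BlkD.upd (BlkD.upd (BlkD.upd (BlkD.upd (BlkD.upd (BlkD.upd (BlkD.upd (BlkD.upd (BlkD.upd (BlkD.upd (fun _ => 21) 0 5) 2 5) 0 2) 1 19) 1 9) 1 7) 1 6) 1 5) 2 2) 3 12) 3 6) 3 3) = true := by
  decide +kernel

lemma n21_21_5_5_22 {n : ℕ} (hn : 5 ≤ n) : BlkD.NdX d21_21_5_5 (BlkD.exF 5 5 x21_21_5_5) n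
    (BlkD.upd (BlkD.upd (BlkD.upd (fun _ => 0) 0 2) 1 5) 2 2)
    (BlkD.upd (BlkD.upd (BlkD.upd (BlkD.upd (BlkD.upd (BlkD.upd (BlkD.upd (BlkD.upd (BlkD.upd (BlkD.upd (BlkD.upd (BlkD.upd (fun _ => 21) 0 5) 2 5) 0 2) 1 19) 1 9) 1 7) 1 6) 1 5) 2 2) 3 12) 3 6) 3 3) :=
  BlkD.NdX.tree s21_21_5_5_22 ok21_21_5_5 (by decide) hn

end BlkC

end Pool.Agent.Lib.MP_f04ccf_co
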