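import Pool.Agent.Lib.MP_f04ccf_co.M.BlkX21_21_5_5d

/-!
MP_f04ccf_co, block certificate with exceptions, `R = 21`, `H = 21`, the pair `(5, 5)` (data of helper99 / helper13,
generated by helper8, genx.py): part 2 of 3.
-/

set_option autoImplicit false
set_option maxRecDepth 100000

namespace Pool.Agent.Lib.MP_f04ccf_co

namespace BlkC

/-- a subtree -/
def t21_21_5_5_23 : BlkD.Tr :=
  .S 3 5 (.S 3 4 (.S 4 5 (.S 4 2 (.S 4 1 (.L 7 7 [4, 4, 5, 4, 5, 5] [52, 40, 0, 0, 0, 0] [68, 62,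
    52, 40, 28, 0] 100000 20000 19999 1197197 24299 2804 48598 48598 50467 28972 25234) (.S 5 4 (.S
    5 2 (.S 5 1 (.L 7 7 [4, 4, 5, 4, 5, 5] [64, 52, 40, 0, 0, 0] [40, 28, 0, 0, 0, 0] 100000 20000
    20000 1185000 10000 10000 80000 15000 10000 80000 30000) (.L 7 7 [4, 4, 5, 4, 5, 5] [64, 52,
    40, 0, 0, 0] [52, 40, 28, 0, 0, 0] 100000 20000 20000 1190557 3333 3333 19444 90000 80000 10000
    32222)) (.L 7 7 [4, 4, 5, 4, 5, 5] [64, 52, 40, 0, 0, 0] [68, 62, 52, 40, 28, 0] 100000 25000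
    25000 1075000 6250 0 18750 100000 75000 0 25000)) (.E 2))) (.L 7 7 [4, 4, 5, 4, 5, 5] [83, 80,
    74, 64, 52, 40] [68, 62, 52, 40, 28, 0] 100000 36667 36667 1100002 0 0 100000 50000 0 16667
    25000)) (.E 2)) (.S 4 5 (.S 4 2 (.S 4 1 (.L 4 4 [4, 5, 6, 7, 8, 9] [52, 40, 0, 0, 0, 0] [83,
    80, 74, 64, 52, 40] 100000 39785 39785 1083873 8602 49462 17204 66667 68817 34409 25806) (.S 5
    5 (.S 5 2 (.S 5 1 (.L 4 4 [4, 5, 6, 7, 8, 9] [64, 52, 40, 0, 0, 0] [52, 40, 0, 0, 0, 0] 100000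
    33333 33332 1100001 33333 0 100000 0 0 66667 33333) (.E 9)) (.L 4 4 [4, 5, 6, 7, 8, 9] [64, 52,
    40, 0, 0, 0] [83, 80, 74, 64, 52, 40] 100000 20000 19999 1183333 0 0 16667 100000 83333 20000
    33333)) (.E 2))) (.L 4 4 [4, 5, 6, 7, 8, 9] [83, 80, 74, 64, 52, 40] [83, 80, 74, 64, 52, 40]
    100000 23334 23334 1175000 0 0 100000 25000 8333 75000 33333)) (.E 2))) (.L 4 4 [4, 5, 6, 7, 8,
    9] [83, 80, 74, 64, 52, 40] [100, 97, 94, 88, 78, 66] 100000 40741 40741 1066666 0 0 100000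
    66667 0 22222 29630)

lemma s21_21_5_5_23 : BlkD.treeX d21_21_5_5 (BlkD.exF 5 5 x21_21_5_5) t21_21_5_5_23
    (BlkD.upd (BlkD.upd (BlkD.upd (BlkD.upd (fun _ => 0) 0 2) 1 5) 2 2) 3 4)
    (BlkD.upd (BlkD.upd (BlkD.upd (BlkD.upd (BlkD.upd (BlkD.upd (BlkD.upd (BlkD.upd (BlkD.upd (BlkD.upd (BlkD.upd (fun _ => 21) 0 5) 2 5) 0 2) 1 19) 1 9) 1 7) 1 6) 1 5) 2 2) 3 12) 3 6) = true := by
  decide +kernel

lemma n21_21_5_5_23 {n : ℕ} (hn : 5 ≤ n) : BlkD.NdX d21_21_5_5 (BlkD.exF 5 5 x21_21_5_5) n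
    (BlkD.upd (BlkD.upd (BlkD.upd (BlkD.upd (fun _ => 0) 0 2) 1 5) 2 2) 3 4)
    (BlkD.upd (BlkD.upd (BlkD.upd (BlkD.upd (BlkD.upd (BlkD.upd (BlkD.upd (BlkD.upd (BlkD.upd (BlkD.upd (BlkD.upd (fun _ => 21) 0 5) 2 5) 0 2) 1 19) 1 9) 1 7) 1 6) 1 5) 2 2) 3 12) 3 6) :=
  BlkD.NdX.tree s21_21_5_5_23 ok21_21_5_5 (by decide) hn

/-- a subtree -/
def t21_21_5_5_24 : BlkD.Tr :=
  .E 1

lemma s21_21_5_5_24 : BlkD.treeX d21_21_5_5 (BlkD.exF 5 5 x21_21_5_5) t21_21_5_5_24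
    (BlkD.upd (BlkD.upd (BlkD.upd (BlkD.upd (fun _ => 0) 0 2) 1 5) 2 2) 3 7)
    (BlkD.upd (BlkD.upd (BlkD.upd (BlkD.upd (BlkD.upd (BlkD.upd (BlkD.upd (BlkD.upd (BlkD.upd (BlkD.upd (fun _ => 21) 0 5) 2 5) 0 2) 1 19) 1 9) 1 7) 1 6) 1 5) 2 2) 3 12) = true := by
  decide +kernel

lemma n21_21_5_5_24 {n : ℕ} (hn : 5 ≤ n) : BlkD.NdX d21_21_5_5 (BlkD.exF 5 5 x21_21_5_5) n
    (BlkD.upd (BlkD.upd (BlkD.upd (BlkD.upd (fun _ => 0) 0 2) 1 5) 2 2) 3 7)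
    (BlkD.upd (BlkD.upd (BlkD.upd (BlkD.upd (BlkD.upd (BlkD.upd (BlkD.upd (BlkD.upd (BlkD.upd (BlkD.upd (fun _ => 21) 0 5) 2 5) 0 2) 1 19) 1 9) 1 7) 1 6) 1 5) 2 2) 3 12) :=
  BlkD.NdX.tree s21_21_5_5_24 ok21_21_5_5 (by decide) hn

/-- a subtree -/
def t21_21_5_5_25 : BlkD.Tr :=
  .E 1

lemma s21_21_5_5_25 : BlkD.treeX d21_21_5_5 (BlkD.exF 5 5 x21_21_5_5) t21_21_5_5_25
    (BlkD.upd (BlkD.upd (BlkD.upd (BlkD.upd (fun _ => 0) 0 2) 1 5) 2 2) 3 13)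
    (BlkD.upd (BlkD.upd (BlkD.upd (BlkD.upd (BlkD.upd (BlkD.upd (BlkD.upd (BlkD.upd (BlkD.upd (fun _ => 21) 0 5) 2 5) 0 2) 1 19) 1 9) 1 7) 1 6) 1 5) 2 2) = true := by
  decide +kernel

lemma n21_21_5_5_25 {n : ℕ} (hn : 5 ≤ n) : BlkD.NdX d21_21_5_5 (BlkD.exF 5 5 x21_21_5_5) n
    (BlkD.upd (BlkD.upd (BlkD.upd (BlkD.upd (fun _ => 0) 0 2) 1 5) 2 2) 3 13)
    (BlkD.upd (BlkD.upd (BlkD.upd (BlkD.upd (BlkD.upd (BlkD.upd (BlkD.upd (BlkD.upd (BlkD.upd (fun _ => 21) 0 5) 2 5) 0 2) 1 19) 1 9) 1 7) 1 6) 1 5) 2 2) :=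
  BlkD.NdX.tree s21_21_5_5_25 ok21_21_5_5 (by decide) hn

/-- a subtree -/
def t21_21_5_5_26 : BlkD.Tr :=
  .S 3 11 (.S 3 5 (.S 3 2 (.S 3 1 (.L 4 4 [4, 5, 6, 7, 8, 9] [83, 80, 74, 64, 52, 40] [] 100000
    26667 26667 1100000 0 0 66667 0 66667 0 33333) (.S 4 5 (.S 4 2 (.S 4 1 (.L 4 4 [4, 5, 6, 7, 8,
    9] [52, 40, 0, 0, 0, 0] [38, 26, 14, 0, 0, 0] 100000 22667 22667 1173335 13333 0 26667 86667
    73333 26667 28889) (.S 5 2 (.S 5 1 (.L 4 4 [4, 5, 6, 7, 8, 9] [64, 52, 40, 0, 0, 0] [26, 14, 0,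
    0, 0, 0] 100000 25000 25000 1171875 9375 0 68750 43750 43750 25000 25000) (.L 4 4 [4, 5, 6, 7,
    8, 9] [64, 52, 40, 0, 0, 0] [38, 26, 14, 0, 0, 0] 100000 25000 25000 1075000 0 0 50000 75000
    75000 0 25000)) (.E 2))) (.L 4 4 [4, 5, 6, 7, 8, 9] [83, 80, 74, 64, 52, 40] [38, 26, 14, 0, 0,
    0] 100000 36667 36667 1100002 0 0 100000 50000 0 16667 25000)) (.E 2))) (.S 3 4 (.S 3 3 (.S 4 5
    (.S 4 2 (.S 4 1 (.L 7 7 [4, 4, 5, 4, 5, 5] [52, 40, 0, 0, 0, 0] [58, 48, 36, 24, 0, 0] 100000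
    20000 19999 1196296 23457 2469 54321 51852 69136 46914 30864) (.S 5 3 (.S 5 1 (.L 7 7 [4, 4, 5,
    4, 5, 5] [64, 52, 40, 0, 0, 0] [36, 24, 0, 0, 0, 0] 100000 20000 19999 1191111 6667 6667 83333
    22222 10000 80000 31111) (.L 7 7 [4, 4, 5, 4, 5, 5] [64, 52, 40, 0, 0, 0] [58, 48, 36, 24, 0,
    0] 100000 20000 20000 1188000 6000 0 24000 86000 80000 10000 32000)) (.E 2))) (.L 7 7 [4, 4, 5,
    4, 5, 5] [83, 80, 74, 64, 52, 40] [58, 48, 36, 24, 0, 0] 100000 36667 36667 1100002 0 0 100000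
    50000 0 16667 25000)) (.E 2)) (.S 4 5 (.S 4 2 (.S 4 1 (.L 7 7 [4, 4, 5, 4, 5, 5] [52, 40, 0, 0,
    0, 0] [76, 70, 60, 48, 36, 0] 100000 20000 20000 1193750 25000 0 56250 50000 68750 43750 31250)
    (.L 6 6 [4, 4, 5, 5, 5, 6] [64, 52, 40, 0, 0, 0] [76, 70, 60, 48, 36, 0] 100000 20000 19999
    1196775 22581 0 45161 45161 45161 45161 25806)) (.L 6 6 [4, 4, 5, 5, 5, 6] [83, 80, 74, 64, 52,
    40] [76, 70, 60, 48, 36, 0] 100000 33334 33334 1100000 0 0 100000 50000 0 50000 33333)) (.E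
    2))) (.L 6 6 [4, 4, 5, 5, 5, 6] [83, 80, 74, 64, 52, 40] [93, 90, 84, 74, 62, 50] 100000 33334
    33334 1100000 0 0 100000 50000 0 50000 33333))) (.E 1)) (.E 1)

lemma s21_21_5_5_26 : BlkD.treeX d21_21_5_5 (BlkD.exF 5 5 x21_21_5_5) t21_21_5_5_26
    (BlkD.upd (BlkD.upd (BlkD.upd (fun _ => 0) 0 2) 1 5) 2 3)
    (BlkD.upd (BlkD.upd (BlkD.upd (BlkD.upd (BlkD.upd (BlkD.upd (BlkD.upd (BlkD.upd (BlkD.upd (BlkD.upd (fun _ => 21) 0 5) 2 5) 0 2) 1 19) 1 9) 1 7) 1 6) 1 5) 2 4) 2 3) = true := by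
  decide +kernel

lemma n21_21_5_5_26 {n : ℕ} (hn : 5 ≤ n) : BlkD.NdX d21_21_5_5 (BlkD.exF 5 5 x21_21_5_5) n
    (BlkD.upd (BlkD.upd (BlkD.upd (fun _ => 0) 0 2) 1 5) 2 3)
    (BlkD.upd (BlkD.upd (BlkD.upd (BlkD.upd (BlkD.upd (BlkD.upd (BlkD.upd (BlkD.upd (BlkD.upd (BlkD.upd (fun _ => 21) 0 5) 2 5) 0 2) 1 19) 1 9) 1 7) 1 6) 1 5) 2 4) 2 3) :=
  BlkD.NdX.tree s21_21_5_5_26 ok21_21_5_5 (by decide) hn

/-- a subtree -/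
def t21_21_5_5_27 : BlkD.Tr :=
  .S 3 10 (.S 3 5 (.S 3 2 (.L 6 6 [4, 4, 5, 5, 5, 6] [83, 80, 74, 64, 52, 40] [] 100000 20000 20000
    1194118 17647 0 52941 35294 35294 52941 29412) (.S 3 4 (.S 3 3 (.S 4 5 (.S 4 2 (.S 4 1 (.L 6 6
    [4, 4, 5, 5, 5, 6] [52, 40, 0, 0, 0, 0] [64, 54, 42, 30, 0, 0] 100000 20000 20000 1166668 33333
    0 66667 33333 66667 66667 33333) (.L 6 6 [4, 4, 5, 5, 5, 6] [64, 52, 40, 0, 0, 0] [64, 54, 42,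
    30, 0, 0] 100000 24616 24616 1169231 30769 0 46154 46154 38462 46154 23077)) (.L 6 6 [4, 4, 5,
    5, 5, 6] [83, 80, 74, 64, 52, 40] [64, 54, 42, 30, 0, 0] 100000 33334 33334 1100000 0 0 100000
    50000 0 50000 33333)) (.E 2)) (.E 2)) (.E 1))) (.E 1)) (.E 1)

lemma s21_21_5_5_27 : BlkD.treeX d21_21_5_5 (BlkD.exF 5 5 x21_21_5_5) t21_21_5_5_27
    (BlkD.upd (BlkD.upd (BlkD.upd (BlkD.upd (fun _ => 0) 0 2) 1 5) 2 3) 2 4)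
    (BlkD.upd (BlkD.upd (BlkD.upd (BlkD.upd (BlkD.upd (BlkD.upd (BlkD.upd (BlkD.upd (BlkD.upd (fun _ => 21) 0 5) 2 5) 0 2) 1 19) 1 9) 1 7) 1 6) 1 5) 2 4) = true := by
  decide +kernel

lemma n21_21_5_5_27 {n : ℕ} (hn : 5 ≤ n) : BlkD.NdX d21_21_5_5 (BlkD.exF 5 5 x21_21_5_5) n
    (BlkD.upd (BlkD.upd (BlkD.upd (BlkD.upd (fun _ => 0) 0 2) 1 5) 2 3) 2 4)
    (BlkD.upd (BlkD.upd (BlkD.upd (BlkD.upd (BlkD.upd (BlkD.upd (BlkD.upd (BlkD.upd (BlkD.upd (fun _ => 21) 0 5) 2 5) 0 2) 1 19) 1 9) 1 7) 1 6) 1 5) 2 4) :=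
  BlkD.NdX.tree s21_21_5_5_27 ok21_21_5_5 (by decide) hn

/-- a subtree -/
def t21_21_5_5_28 : BlkD.Tr :=
  .L 6 6 [4, 4, 5, 5, 5, 6] [83, 80, 74, 64, 52, 40] [] 100000 28236 28236 1147059 35294 0 52941
    29412 35294 70588 29412

lemma s21_21_5_5_28 : BlkD.treeX d21_21_5_5 (BlkD.exF 5 5 x21_21_5_5) t21_21_5_5_28
    (BlkD.upd (BlkD.upd (BlkD.upd (BlkD.upd (fun _ => 0) 0 2) 1 5) 2 3) 2 5)
    (BlkD.upd (BlkD.upd (BlkD.upd (BlkD.upd (BlkD.upd (BlkD.upd (BlkD.upd (BlkD.upd (fun _ => 21) 0 5) 2 5) 0 2) 1 19) 1 9) 1 7) 1 6) 1 5) = true := by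
  decide +kernel

lemma n21_21_5_5_28 {n : ℕ} (hn : 5 ≤ n) : BlkD.NdX d21_21_5_5 (BlkD.exF 5 5 x21_21_5_5) n
    (BlkD.upd (BlkD.upd (BlkD.upd (BlkD.upd (fun _ => 0) 0 2) 1 5) 2 3) 2 5)
    (BlkD.upd (BlkD.upd (BlkD.upd (BlkD.upd (BlkD.upd (BlkD.upd (BlkD.upd (BlkD.upd (fun _ => 21) 0 5) 2 5) 0 2) 1 19) 1 9) 1 7) 1 6) 1 5) :=
  BlkD.NdX.tree s21_21_5_5_28 ok21_21_5_5 (by decide) hn

/-- a subtree -/
def t21_21_5_5_29 : BlkD.Tr :=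
  .S 2 1 (.L 6 6 [4, 4, 5, 5, 5, 6] [100, 97, 94, 88, 78, 66] [] 100000 45834 45834 1043750 0 56250
    43750 78125 37500 3125 27083) (.S 3 11 (.S 3 5 (.S 3 2 (.L 6 6 [4, 4, 5, 5, 5, 6] [100, 97, 94,
    88, 78, 66] [] 100000 25000 25000 1125000 0 12500 50000 12500 75000 0 25000) (.S 3 4 (.S 3 3
    (.S 4 6 (.S 4 3 (.S 4 1 (.E 2) (.S 4 2 (.E 2) (.S 5 3 (.S 5 1 (.S 5 0 (.L 6 6 [4, 4, 5, 5, 5,
    6] [88, 78, 66, 54, 0, 0] [18, 0, 0, 0, 0, 0] 100000 50000 50000 1000001 0 83333 50000 0 25000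
    50000 25000) (.L 6 6 [4, 4, 5, 5, 5, 6] [88, 78, 66, 54, 0, 0] [30, 18, 0, 0, 0, 0] 100000
    46667 46667 1049999 0 66667 16667 100000 100000 0 33333)) (.L 6 6 [4, 4, 5, 5, 5, 6] [88, 78,
    66, 54, 0, 0] [52, 42, 30, 18, 0, 0] 100000 25000 25000 1075000 0 0 25000 100000 75000 0
    25000)) (.E 2)))) (.L 6 6 [4, 4, 5, 5, 5, 6] [100, 97, 94, 88, 78, 66] [52, 42, 30, 18, 0, 0]
    100000 37500 37500 1100000 0 0 100000 43750 6250 6250 25000)) (.E 2)) (.S 4 6 (.S 4 3 (.S 4 1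
    (.E 2) (.S 4 2 (.E 2) (.S 5 4 (.S 5 2 (.S 5 1 (.L 6 6 [4, 4, 5, 5, 5, 6] [88, 78, 66, 54, 0, 0]
    [40, 28, 0, 0, 0, 0] 100000 33334 33334 1100000 0 25000 100000 25000 0 100000 33333) (.L 6 6
    [4, 4, 5, 5, 5, 6] [88, 78, 66, 54, 0, 0] [52, 40, 28, 0, 0, 0] 100000 26667 26667 1149999 0
    16667 16667 100000 83333 16667 33333)) (.L 6 6 [4, 4, 5, 5, 5, 6] [88, 78, 66, 54, 0, 0] [68,
    62, 52, 40, 28, 0] 100000 23077 7691 1038460 0 0 15385 115385 76923 7692 30769)) (.E 2)))) (.L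
    6 6 [4, 4, 5, 5, 5, 6] [100, 97, 94, 88, 78, 66] [68, 62, 52, 40, 28, 0] 100000 35000 35000
    1100000 0 0 100000 50000 0 25000 25000)) (.E 2))) (.L 6 6 [4, 4, 5, 5, 5, 6] [100, 97, 94, 88,
    78, 66] [83, 80, 74, 64, 52, 40] 100000 55556 55556 992595 14815 0 81481 100000 3704 0 14815)))
    (.L 6 6 [4, 4, 5, 5, 5, 6] [100, 97, 94, 88, 78, 66] [] 100000 90000 0 0 0 0 190000 130000 0 0
    0)) (.E 1))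

lemma s21_21_5_5_29 : BlkD.treeX d21_21_5_5 (BlkD.exF 5 5 x21_21_5_5) t21_21_5_5_29
    (BlkD.upd (BlkD.upd (BlkD.upd (fun _ => 0) 0 2) 1 5) 1 6)
    (BlkD.upd (BlkD.upd (BlkD.upd (BlkD.upd (BlkD.upd (BlkD.upd (BlkD.upd (BlkD.upd (fun _ => 21) 0 5) 2 5) 0 2) 1 19) 1 9) 1 7) 1 6) 2 2) = true := by
  decide +kernel

lemma n21_21_5_5_29 {n : ℕ} (hn : 5 ≤ n) : BlkD.NdX d21_21_5_5 (BlkD.exF 5 5 x21_21_5_5) n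
    (BlkD.upd (BlkD.upd (BlkD.upd (fun _ => 0) 0 2) 1 5) 1 6)
    (BlkD.upd (BlkD.upd (BlkD.upd (BlkD.upd (BlkD.upd (BlkD.upd (BlkD.upd (BlkD.upd (fun _ => 21) 0 5) 2 5) 0 2) 1 19) 1 9) 1 7) 1 6) 2 2) :=
  BlkD.NdX.tree s21_21_5_5_29 ok21_21_5_5 (by decide) hn

/-- a subtree -/
def t21_21_5_5_30 : BlkD.Tr :=
  .S 2 4 (.S 2 3 (.S 3 10 (.S 3 5 (.S 3 2 (.S 3 1 (.L 6 6 [4, 4, 5, 5, 5, 6] [100, 97, 94, 88, 78,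
    66] [] 100000 25000 25000 1125000 0 25000 50000 25000 75000 0 25000) (.S 4 6 (.S 4 3 (.S 4 1
    (.E 2) (.S 4 2 (.E 2) (.S 5 2 (.S 5 1 (.L 7 7 [4, 4, 5, 4, 5, 5] [88, 78, 66, 54, 0, 0] [26,
    14, 0, 0, 0, 0] 100000 20001 20001 1184848 27273 0 60606 33333 42424 33333 24242) (.L 7 7 [4,
    4, 5, 4, 5, 5] [88, 78, 66, 54, 0, 0] [38, 26, 14, 0, 0, 0] 100000 26923 26923 1065385 11538 0
    23077 100000 65385 0 23077)) (.E 2)))) (.L 7 7 [4, 4, 5, 4, 5, 5] [100, 97, 94, 88, 78, 66]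
    [38, 26, 14, 0, 0, 0] 100000 35000 35000 1100000 0 0 100000 37500 12500 12500 25000)) (.E 2)))
    (.S 3 4 (.S 3 3 (.S 4 6 (.S 4 3 (.S 4 1 (.E 2) (.S 4 2 (.E 2) (.S 5 3 (.S 5 1 (.L 7 7 [4, 4, 5,
    4, 5, 5] [88, 78, 66, 54, 0, 0] [36, 24, 0, 0, 0, 0] 100000 20000 19999 1183333 0 0 100000
    16667 20000 83333 33333) (.L 7 7 [4, 4, 5, 4, 5, 5] [88, 78, 66, 54, 0, 0] [58, 48, 36, 24, 0,
    0] 100000 20755 20755 1180189 943 0 17925 100000 81132 16981 33019)) (.E 2)))) (.L 7 7 [4, 4,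
    5, 4, 5, 5] [100, 97, 94, 88, 78, 66] [58, 48, 36, 24, 0, 0] 100000 33334 33334 1100000 0 0
    75000 75000 25000 25000 33333)) (.E 2)) (.L 7 7 [4, 4, 5, 4, 5, 5] [100, 97, 94, 88, 78, 66]
    [76, 70, 60, 48, 36, 0] 100000 100000 33332 499998 0 0 166667 166667 0 0 0)) (.E 2))) (.E 1))
    (.E 1)) (.L 7 7 [4, 4, 5, 4, 5, 5] [100, 97, 94, 88, 78, 66] [] 100000 20000 19999 1183333 0 0
    100000 16667 20000 83333 33333)) (.L 7 7 [4, 4, 5, 4, 5, 5] [100, 97, 94, 88, 78, 66] [] 100000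
    20000 20000 1100000 0 0 100000 0 25000 75000 25000)

lemma s21_21_5_5_30 : BlkD.treeX d21_21_5_5 (BlkD.exF 5 5 x21_21_5_5) t21_21_5_5_30
    (BlkD.upd (BlkD.upd (BlkD.upd (BlkD.upd (fun _ => 0) 0 2) 1 5) 1 6) 2 3)
    (BlkD.upd (BlkD.upd (BlkD.upd (BlkD.upd (BlkD.upd (BlkD.upd (BlkD.upd (fun _ => 21) 0 5) 2 5) 0 2) 1 19) 1 9) 1 7) 1 6) = true := by
  decide +kernel

lemma n21_21_5_5_30 {n : ℕ} (hn : 5 ≤ n) : BlkD.NdX d21_21_5_5 (BlkD.exF 5 5 x21_21_5_5) n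
    (BlkD.upd (BlkD.upd (BlkD.upd (BlkD.upd (fun _ => 0) 0 2) 1 5) 1 6) 2 3)
    (BlkD.upd (BlkD.upd (BlkD.upd (BlkD.upd (BlkD.upd (BlkD.upd (BlkD.upd (fun _ => 21) 0 5) 2 5) 0 2) 1 19) 1 9) 1 7) 1 6) :=
  BlkD.NdX.tree s21_21_5_5_30 ok21_21_5_5 (by decide) hn

/-- a subtree -/
def t21_21_5_5_31 : BlkD.Tr :=
  .E 0

lemma s21_21_5_5_31 : BlkD.treeX d21_21_5_5 (BlkD.exF 5 5 x21_21_5_5) t21_21_5_5_31
    (BlkD.upd (BlkD.upd (BlkD.upd (fun _ => 0) 0 2) 1 5) 1 7)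
    (BlkD.upd (BlkD.upd (BlkD.upd (BlkD.upd (BlkD.upd (BlkD.upd (fun _ => 21) 0 5) 2 5) 0 2) 1 19) 1 9) 1 7) = true := by
  decide +kernel

lemma n21_21_5_5_31 {n : ℕ} (hn : 5 ≤ n) : BlkD.NdX d21_21_5_5 (BlkD.exF 5 5 x21_21_5_5) n
    (BlkD.upd (BlkD.upd (BlkD.upd (fun _ => 0) 0 2) 1 5) 1 7)
    (BlkD.upd (BlkD.upd (BlkD.upd (BlkD.upd (BlkD.upd (BlkD.upd (fun _ => 21) 0 5) 2 5) 0 2) 1 19) 1 9) 1 7) :=
  BlkD.NdX.tree s21_21_5_5_31 ok21_21_5_5 (by decide) hn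

/-- a subtree -/
def t21_21_5_5_32 : BlkD.Tr :=
  .E 0

lemma s21_21_5_5_32 : BlkD.treeX d21_21_5_5 (BlkD.exF 5 5 x21_21_5_5) t21_21_5_5_32
    (BlkD.upd (BlkD.upd (BlkD.upd (fun _ => 0) 0 2) 1 5) 1 8)
    (BlkD.upd (BlkD.upd (BlkD.upd (BlkD.upd (BlkD.upd (fun _ => 21) 0 5) 2 5) 0 2) 1 19) 1 9) = true := by
  decide +kernel

lemma n21_21_5_5_32 {n : ℕ} (hn : 5 ≤ n) : BlkD.NdX d21_21_5_5 (BlkD.exF 5 5 x21_21_5_5) n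
    (BlkD.upd (BlkD.upd (BlkD.upd (fun _ => 0) 0 2) 1 5) 1 8)
    (BlkD.upd (BlkD.upd (BlkD.upd (BlkD.upd (BlkD.upd (fun _ => 21) 0 5) 2 5) 0 2) 1 19) 1 9) :=
  BlkD.NdX.tree s21_21_5_5_32 ok21_21_5_5 (by decide) hn

/-- a subtree -/
def t21_21_5_5_33 : BlkD.Tr :=
  .E 0

lemma s21_21_5_5_33 : BlkD.treeX d21_21_5_5 (BlkD.exF 5 5 x21_21_5_5) t21_21_5_5_33
    (BlkD.upd (BlkD.upd (fun _ => 0) 0 2) 1 10)
    (BlkD.upd (BlkD.upd (BlkD.upd (BlkD.upd (fun _ => 21) 0 5) 2 5) 0 2) 1 19) = true := by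
  decide +kernel

lemma n21_21_5_5_33 {n : ℕ} (hn : 5 ≤ n) : BlkD.NdX d21_21_5_5 (BlkD.exF 5 5 x21_21_5_5) n
    (BlkD.upd (BlkD.upd (fun _ => 0) 0 2) 1 10)
    (BlkD.upd (BlkD.upd (BlkD.upd (BlkD.upd (fun _ => 21) 0 5) 2 5) 0 2) 1 19) :=
  BlkD.NdX.tree s21_21_5_5_33 ok21_21_5_5 (by decide) hn

/-- a subtree -/
def t21_21_5_5_34 : BlkD.Tr :=
  .E 0

lemma s21_21_5_5_34 : BlkD.treeX d21_21_5_5 (BlkD.exF 5 5 x21_21_5_5) t21_21_5_5_34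
    (BlkD.upd (BlkD.upd (fun _ => 0) 0 2) 1 20)
    (BlkD.upd (BlkD.upd (BlkD.upd (fun _ => 21) 0 5) 2 5) 0 2) = true := by
  decide +kernel

lemma n21_21_5_5_34 {n : ℕ} (hn : 5 ≤ n) : BlkD.NdX d21_21_5_5 (BlkD.exF 5 5 x21_21_5_5) n
    (BlkD.upd (BlkD.upd (fun _ => 0) 0 2) 1 20)
    (BlkD.upd (BlkD.upd (BlkD.upd (fun _ => 21) 0 5) 2 5) 0 2) :=
  BlkD.NdX.tree s21_21_5_5_34 ok21_21_5_5 (by decide) hn

/-- a subtree -/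
def t21_21_5_5_35 : BlkD.Tr :=
  .L 7 7 [4, 4, 5, 4, 5, 5] [] [] 100000 35000 35000 1100000 25000 0 25000 75000 0 25000 25000

lemma s21_21_5_5_35 : BlkD.treeX d21_21_5_5 (BlkD.exF 5 5 x21_21_5_5) t21_21_5_5_35
    (BlkD.upd (fun _ => 0) 0 3)
    (BlkD.upd (BlkD.upd (BlkD.upd (BlkD.upd (BlkD.upd (BlkD.upd (BlkD.upd (BlkD.upd (BlkD.upd (fun _ => 21) 0 5) 2 5) 0 4) 0 3) 1 18) 1 9) 1 4) 1 2) 1 1) = true := by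
  decide +kernel

lemma n21_21_5_5_35 {n : ℕ} (hn : 5 ≤ n) : BlkD.NdX d21_21_5_5 (BlkD.exF 5 5 x21_21_5_5) n
    (BlkD.upd (fun _ => 0) 0 3)
    (BlkD.upd (BlkD.upd (BlkD.upd (BlkD.upd (BlkD.upd (BlkD.upd (BlkD.upd (BlkD.upd (BlkD.upd (fun _ => 21) 0 5) 2 5) 0 4) 0 3) 1 18) 1 9) 1 4) 1 2) 1 1) :=
  BlkD.NdX.tree s21_21_5_5_35 ok21_21_5_5 (by decide) hn

/-- a subtree -/
def t21_21_5_5_36 : BlkD.Tr :=
  .S 2 1 (.L 7 7 [4, 4, 5, 4, 5, 5] [38, 26, 14, 0, 0, 0] [] 100000 50186 50186 1042195 0 63755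
    44981 66543 4833 8364 25093) (.S 3 14 (.S 3 7 (.S 3 3 (.L 7 7 [4, 4, 5, 4, 5, 5] [38, 26, 14,
    0, 0, 0] [] 100000 40000 40000 1000000 0 0 0 0 0 0 20000) (.S 3 5 (.S 3 4 (.L 7 7 [4, 4, 5, 4,
    5, 5] [38, 26, 14, 0, 0, 0] [68, 62, 52, 40, 28, 0] 100000 31893 31892 1126919 950 6017 66186
    70619 13300 13934 26179) (.S 4 2 (.S 4 1 (.S 4 0 (.L 7 7 [4, 4, 5, 4, 5, 5] [14, 0, 0, 0, 0, 0]
    [83, 80, 74, 64, 52, 40] 100000 20000 20000 1192308 0 23077 0 53846 38462 30769 30769) (.L 7 7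
    [4, 4, 5, 4, 5, 5] [26, 14, 0, 0, 0, 0] [83, 80, 74, 64, 52, 40] 100000 27500 27500 1137500 0 0
    62500 62500 0 62500 25000)) (.L 7 7 [4, 4, 5, 4, 5, 5] [38, 26, 14, 0, 0, 0] [83, 80, 74, 64,
    52, 40] 100000 26667 26667 1066668 0 0 100000 33333 0 66667 33333)) (.E 2))) (.S 3 6 (.S 4 2
    (.S 4 1 (.S 4 0 (.L 7 7 [4, 4, 5, 4, 5, 5] [14, 0, 0, 0, 0, 0] [100, 97, 94, 88, 78, 66] 100000
    20000 20000 1183335 8333 8333 0 83333 66667 16667 33333) (.L 7 7 [4, 4, 5, 4, 5, 5] [26, 14, 0,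
    0, 0, 0] [100, 97, 94, 88, 78, 66] 100000 23567 23566 1166241 10191 4459 100000 20382 5732
    76433 31847)) (.L 7 7 [4, 4, 5, 4, 5, 5] [38, 26, 14, 0, 0, 0] [100, 97, 94, 88, 78, 66] 100000
    25000 25000 1075000 0 12500 100000 12500 0 75000 25000)) (.E 2)) (.E 1)))) (.E 1)) (.E 1))

lemma s21_21_5_5_36 : BlkD.treeX d21_21_5_5 (BlkD.exF 5 5 x21_21_5_5) t21_21_5_5_36
    (BlkD.upd (BlkD.upd (fun _ => 0) 0 3) 1 2)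
    (BlkD.upd (BlkD.upd (BlkD.upd (BlkD.upd (BlkD.upd (BlkD.upd (BlkD.upd (BlkD.upd (BlkD.upd (fun _ => 21) 0 5) 2 5) 0 4) 0 3) 1 18) 1 9) 1 4) 1 2) 2 2) = true := by
  decide +kernel

lemma n21_21_5_5_36 {n : ℕ} (hn : 5 ≤ n) : BlkD.NdX d21_21_5_5 (BlkD.exF 5 5 x21_21_5_5) n
    (BlkD.upd (BlkD.upd (fun _ => 0) 0 3) 1 2)
    (BlkD.upd (BlkD.upd (BlkD.upd (BlkD.upd (BlkD.upd (BlkD.upd (BlkD.upd (BlkD.upd (BlkD.upd (fun _ => 21) 0 5) 2 5) 0 4) 0 3) 1 18) 1 9) 1 4) 1 2) 2 2) :=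
  BlkD.NdX.tree s21_21_5_5_36 ok21_21_5_5 (by decide) hn

/-- a subtree -/
def t21_21_5_5_37 : BlkD.Tr :=
  .S 2 4 (.S 2 3 (.S 3 13 (.S 3 6 (.S 3 3 (.L 7 7 [4, 4, 5, 4, 5, 5] [38, 26, 14, 0, 0, 0] []
    100000 31429 31429 1128576 0 0 71429 42857 14286 14286 17857) (.S 3 5 (.S 3 4 (.S 4 2 (.S 4 1
    (.L 7 7 [4, 4, 5, 4, 5, 5] [26, 14, 0, 0, 0, 0] [76, 70, 60, 48, 36, 0] 100000 20000 20000
    1187500 25000 0 62500 50000 37500 37500 25000) (.L 7 7 [4, 4, 5, 4, 5, 5] [38, 26, 14, 0, 0, 0]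
    [76, 70, 60, 48, 36, 0] 100000 35000 35000 1000000 0 0 100000 50000 0 25000 25000)) (.E 2)) (.L
    7 7 [4, 4, 5, 4, 5, 5] [38, 26, 14, 0, 0, 0] [93, 90, 84, 74, 62, 50] 100000 37143 37143
    1100002 7143 0 42857 100000 14286 0 25000)) (.E 1))) (.E 1)) (.E 1)) (.L 7 7 [4, 4, 5, 4, 5, 5]
    [38, 26, 14, 0, 0, 0] [] 100000 24286 24286 1164288 25000 0 60714 50000 14286 50000 25000)) (.L
    7 7 [4, 4, 5, 4, 5, 5] [38, 26, 14, 0, 0, 0] [] 100000 24286 24286 1114288 25000 0 60714 50000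
    14286 50000 25000)

lemma s21_21_5_5_37 : BlkD.treeX d21_21_5_5 (BlkD.exF 5 5 x21_21_5_5) t21_21_5_5_37
    (BlkD.upd (BlkD.upd (BlkD.upd (fun _ => 0) 0 3) 1 2) 2 3)
    (BlkD.upd (BlkD.upd (BlkD.upd (BlkD.upd (BlkD.upd (BlkD.upd (BlkD.upd (BlkD.upd (fun _ => 21) 0 5) 2 5) 0 4) 0 3) 1 18) 1 9) 1 4) 1 2) = true := by
  decide +kernel

lemma n21_21_5_5_37 {n : ℕ} (hn : 5 ≤ n) : BlkD.NdX d21_21_5_5 (BlkD.exF 5 5 x21_21_5_5) n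
    (BlkD.upd (BlkD.upd (BlkD.upd (fun _ => 0) 0 3) 1 2) 2 3)
    (BlkD.upd (BlkD.upd (BlkD.upd (BlkD.upd (BlkD.upd (BlkD.upd (BlkD.upd (BlkD.upd (fun _ => 21) 0 5) 2 5) 0 4) 0 3) 1 18) 1 9) 1 4) 1 2) :=
  BlkD.NdX.tree s21_21_5_5_37 ok21_21_5_5 (by decide) hn

/-- a subtree -/
def t21_21_5_5_38 : BlkD.Tr :=
  .S 2 1 (.L 7 7 [4, 4, 5, 4, 5, 5] [58, 48, 36, 24, 0, 0] [] 100000 51374 51374 1041759 0 63736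
    50000 67033 6044 6593 25000) (.S 3 13 (.S 3 6 (.S 3 3 (.L 7 7 [4, 4, 5, 4, 5, 5] [58, 48, 36,
    24, 0, 0] [] 100000 34622 34621 1113448 0 11765 70588 21849 23529 1681 23529) (.S 3 5 (.S 3 4
    (.S 4 3 (.S 4 1 (.S 4 0 (.L 7 7 [4, 4, 5, 4, 5, 5] [24, 0, 0, 0, 0, 0] [68, 62, 52, 40, 28, 0]
    100000 20000 20000 1160001 13333 20000 0 60000 80000 40000 40000) (.S 5 4 (.S 5 2 (.L 7 7 [4,
    4, 5, 4, 5, 5] [36, 24, 0, 0, 0, 0] [52, 40, 28, 0, 0, 0] 100000 20001 20001 1186239 11927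
    11927 39450 40367 33945 33028 33028) (.L 7 7 [4, 4, 5, 4, 5, 5] [36, 24, 0, 0, 0, 0] [68, 62,
    52, 40, 28, 0] 100000 33334 1 933334 0 0 0 133333 46667 0 20000)) (.E 2))) (.L 7 7 [4, 4, 5, 4,
    5, 5] [58, 48, 36, 24, 0, 0] [68, 62, 52, 40, 28, 0] 100000 36667 36667 1100002 0 0 100000
    50000 0 16667 25000)) (.E 2)) (.S 4 3 (.S 4 1 (.S 4 0 (.L 7 7 [4, 4, 5, 4, 5, 5] [24, 0, 0, 0,
    0, 0] [83, 80, 74, 64, 52, 40] 100000 20000 19999 1165517 0 37931 0 58621 100000 41379 34483)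
    (.S 5 5 (.S 5 2 (.S 5 1 (.L 7 7 [4, 4, 5, 4, 5, 5] [36, 24, 0, 0, 0, 0] [52, 40, 0, 0, 0, 0]
    100000 20000 19999 1183333 0 16667 83333 16667 16667 83333 33333) (.L 7 7 [4, 4, 5, 4, 5, 5]
    [36, 24, 0, 0, 0, 0] [64, 52, 40, 0, 0, 0] 100000 20000 19999 1191111 6667 6667 22222 83333
    80000 10000 31111)) (.L 7 7 [4, 4, 5, 4, 5, 5] [36, 24, 0, 0, 0, 0] [83, 80, 74, 64, 52, 40]
    100000 20513 20513 1100000 0 0 17949 100000 82051 17949 33333)) (.E 2))) (.S 4 2 (.S 5 5 (.S 5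
    2 (.L 7 7 [4, 4, 5, 4, 5, 5] [48, 36, 24, 0, 0, 0] [64, 52, 40, 0, 0, 0] 100000 20931 20931
    1179070 0 10465 89535 18605 8140 79070 32558) (.L 7 7 [4, 4, 5, 4, 5, 5] [48, 36, 24, 0, 0, 0]
    [83, 80, 74, 64, 52, 40] 100000 40000 40000 1054546 0 0 81818 81818 0 0 27273)) (.E 2)) (.L 7 7
    [4, 4, 5, 4, 5, 5] [58, 48, 36, 24, 0, 0] [83, 80, 74, 64, 52, 40] 100000 26667 26667 1066668 0
    0 100000 33333 0 66667 33333))) (.E 2))) (.S 4 3 (.S 4 1 (.L 7 7 [4, 4, 5, 4, 5, 5] [36, 24, 0,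
    0, 0, 0] [100, 97, 94, 88, 78, 66] 100000 20000 19999 1183333 0 0 16667 100000 83333 20000
    33333) (.L 7 7 [4, 4, 5, 4, 5, 5] [58, 48, 36, 24, 0, 0] [100, 97, 94, 88, 78, 66] 100000 23077
    23077 1169231 0 7692 100000 15385 7692 76923 30769)) (.E 2)))) (.E 1)) (.E 1))

lemma s21_21_5_5_38 : BlkD.treeX d21_21_5_5 (BlkD.exF 5 5 x21_21_5_5) t21_21_5_5_38
    (BlkD.upd (BlkD.upd (fun _ => 0) 0 3) 1 3)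
    (BlkD.upd (BlkD.upd (BlkD.upd (BlkD.upd (BlkD.upd (BlkD.upd (BlkD.upd (BlkD.upd (BlkD.upd (fun _ => 21) 0 5) 2 5) 0 4) 0 3) 1 18) 1 9) 1 4) 1 3) 2 2) = true := by
  decide +kernel

lemma n21_21_5_5_38 {n : ℕ} (hn : 5 ≤ n) : BlkD.NdX d21_21_5_5 (BlkD.exF 5 5 x21_21_5_5) n
    (BlkD.upd (BlkD.upd (fun _ => 0) 0 3) 1 3)
    (BlkD.upd (BlkD.upd (BlkD.upd (BlkD.upd (BlkD.upd (BlkD.upd (BlkD.upd (BlkD.upd (BlkD.upd (fun _ => 21) 0 5) 2 5) 0 4) 0 3) 1 18) 1 9) 1 4) 1 3) 2 2) :=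
  BlkD.NdX.tree s21_21_5_5_38 ok21_21_5_5 (by decide) hn

/-- a subtree -/
def t21_21_5_5_39 : BlkD.Tr :=
  .S 2 3 (.S 3 12 (.S 3 6 (.S 3 3 (.S 3 1 (.L 7 7 [4, 4, 5, 4, 5, 5] [58, 48, 36, 24, 0, 0] []
    100000 40000 40000 1000000 0 0 0 0 0 0 20000) (.S 3 2 (.L 7 7 [4, 4, 5, 4, 5, 5] [58, 48, 36,
    24, 0, 0] [38, 26, 14, 0, 0, 0] 100000 30000 30000 1133338 0 0 50000 83333 16667 16667 25000)
    (.S 4 3 (.S 4 1 (.S 4 0 (.L 7 7 [4, 4, 5, 4, 5, 5] [24, 0, 0, 0, 0, 0] [58, 48, 36, 24, 0, 0]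
    100000 20001 20001 1183333 16667 16667 0 66667 100000 50000 50000) (.S 5 3 (.S 5 1 (.L 7 7 [4,
    4, 5, 4, 5, 5] [36, 24, 0, 0, 0, 0] [36, 24, 0, 0, 0, 0] 100000 20000 20000 1182000 6000 6000
    54000 54000 36000 36000 28000) (.L 7 7 [4, 4, 5, 4, 5, 5] [36, 24, 0, 0, 0, 0] [58, 48, 36, 24,
    0, 0] 100000 20000 20000 1116000 4000 4000 14000 90000 80000 10000 26667)) (.E 2))) (.L 7 7 [4,
    4, 5, 4, 5, 5] [58, 48, 36, 24, 0, 0] [58, 48, 36, 24, 0, 0] 100000 36667 36667 1100002 0 0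
    100000 50000 0 16667 25000)) (.E 2)))) (.S 3 5 (.S 3 4 (.S 4 3 (.S 4 1 (.S 4 0 (.L 7 7 [4, 4,
    5, 4, 5, 5] [24, 0, 0, 0, 0, 0] [76, 70, 60, 48, 36, 0] 100000 20000 20000 1166667 22222 0 0
    66667 66667 33333 33333) (.L 7 7 [4, 4, 5, 4, 5, 5] [36, 24, 0, 0, 0, 0] [76, 70, 60, 48, 36,
    0] 100000 20000 20000 1196552 20690 0 62069 41379 41379 41379 27586)) (.L 7 7 [4, 4, 5, 4, 5,
    5] [58, 48, 36, 24, 0, 0] [76, 70, 60, 48, 36, 0] 100000 30527 30527 1110527 0 0 94737 47368 0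
    47368 31579)) (.E 2)) (.S 4 3 (.S 4 1 (.L 7 7 [4, 4, 5, 4, 5, 5] [36, 24, 0, 0, 0, 0] [93, 90,
    84, 74, 62, 50] 100000 25000 25000 1158334 8333 0 25000 100000 83333 0 33333) (.L 7 7 [4, 4, 5,
    4, 5, 5] [58, 48, 36, 24, 0, 0] [93, 90, 84, 74, 62, 50] 100000 33334 33334 1100000 0 0 100000
    50000 0 50000 33333)) (.E 2))) (.E 1))) (.E 1)) (.E 1)) (.S 3 11 (.S 3 5 (.S 3 2 (.L 6 6 [4, 4,
    5, 5, 5, 6] [58, 48, 36, 24, 0, 0] [] 100000 21429 21429 1182858 8571 0 64286 47143 18571 55714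
    25000) (.S 3 4 (.S 3 3 (.S 4 3 (.S 4 1 (.L 6 6 [4, 4, 5, 5, 5, 6] [36, 24, 0, 0, 0, 0] [64, 54,
    42, 30, 0, 0] 100000 20000 20000 1196155 23077 0 69231 34615 46154 69231 30769) (.L 6 6 [4, 4,
    5, 5, 5, 6] [58, 48, 36, 24, 0, 0] [64, 54, 42, 30, 0, 0] 100000 25000 25000 1131250 6250 0
    81250 40625 0 75000 25000)) (.E 2)) (.L 6 6 [4, 4, 5, 5, 5, 6] [58, 48, 36, 24, 0, 0] [84, 78,
    68, 56, 44, 0] 100000 33334 33334 1100000 0 0 50000 100000 50000 0 33333)) (.E 1))) (.E 1)) (.E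
    1))

lemma s21_21_5_5_39 : BlkD.treeX d21_21_5_5 (BlkD.exF 5 5 x21_21_5_5) t21_21_5_5_39
    (BlkD.upd (BlkD.upd (BlkD.upd (fun _ => 0) 0 3) 1 3) 2 3)
    (BlkD.upd (BlkD.upd (BlkD.upd (BlkD.upd (BlkD.upd (BlkD.upd (BlkD.upd (BlkD.upd (BlkD.upd (fun _ => 21) 0 5) 2 5) 0 4) 0 3) 1 18) 1 9) 1 4) 1 3) 2 4) = true := by
  decide +kernel

lemma n21_21_5_5_39 {n : ℕ} (hn : 5 ≤ n) : BlkD.NdX d21_21_5_5 (BlkD.exF 5 5 x21_21_5_5) n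
    (BlkD.upd (BlkD.upd (BlkD.upd (fun _ => 0) 0 3) 1 3) 2 3)
    (BlkD.upd (BlkD.upd (BlkD.upd (BlkD.upd (BlkD.upd (BlkD.upd (BlkD.upd (BlkD.upd (BlkD.upd (fun _ => 21) 0 5) 2 5) 0 4) 0 3) 1 18) 1 9) 1 4) 1 3) 2 4) :=
  BlkD.NdX.tree s21_21_5_5_39 ok21_21_5_5 (by decide) hn

/-- a subtree -/
def t21_21_5_5_40 : BlkD.Tr :=
  .L 6 6 [4, 4, 5, 5, 5, 6] [58, 48, 36, 24, 0, 0] [] 100000 20000 20000 1170814 10526 0 59330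
    48804 31579 48804 26794

lemma s21_21_5_5_40 : BlkD.treeX d21_21_5_5 (BlkD.exF 5 5 x21_21_5_5) t21_21_5_5_40
    (BlkD.upd (BlkD.upd (BlkD.upd (BlkD.upd (fun _ => 0) 0 3) 1 3) 2 3) 2 5)
    (BlkD.upd (BlkD.upd (BlkD.upd (BlkD.upd (BlkD.upd (BlkD.upd (BlkD.upd (BlkD.upd (fun _ => 21) 0 5) 2 5) 0 4) 0 3) 1 18) 1 9) 1 4) 1 3) = true := by
  decide +kernel

lemma n21_21_5_5_40 {n : ℕ} (hn : 5 ≤ n) : BlkD.NdX d21_21_5_5 (BlkD.exF 5 5 x21_21_5_5) n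
    (BlkD.upd (BlkD.upd (BlkD.upd (BlkD.upd (fun _ => 0) 0 3) 1 3) 2 3) 2 5)
    (BlkD.upd (BlkD.upd (BlkD.upd (BlkD.upd (BlkD.upd (BlkD.upd (BlkD.upd (BlkD.upd (fun _ => 21) 0 5) 2 5) 0 4) 0 3) 1 18) 1 9) 1 4) 1 3) :=
  BlkD.NdX.tree s21_21_5_5_40 ok21_21_5_5 (by decide) hn

/-- a subtree -/
def t21_21_5_5_41 : BlkD.Tr :=
  .S 2 1 (.L 6 6 [4, 4, 5, 5, 5, 6] [76, 70, 60, 48, 36, 0] [] 100000 42857 42857 1057144 0 85714 0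
    85714 85714 0 28571) (.S 3 12 (.S 3 6 (.S 3 3 (.S 3 1 (.L 6 6 [4, 4, 5, 5, 5, 6] [76, 70, 60,
    48, 36, 0] [] 100000 40000 40000 1000000 0 0 0 0 0 0 20000) (.S 3 2 (.L 6 6 [4, 4, 5, 5, 5, 6]
    [76, 70, 60, 48, 36, 0] [34, 22, 10, 0, 0, 0] 100000 26667 26667 1100000 0 0 66667 0 66667 0
    33333) (.L 5 5 [4, 4, 5, 6, 6, 7] [76, 70, 60, 48, 36, 0] [52, 42, 30, 18, 0, 0] 100000 26667
    26667 1162965 0 18519 40741 44444 59259 3704 37037))) (.S 3 5 (.S 3 4 (.S 4 4 (.S 4 2 (.S 4 1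
    (.L 5 5 [4, 4, 5, 6, 6, 7] [48, 36, 0, 0, 0, 0] [68, 62, 52, 40, 28, 0] 100000 49813 49813
    1010864 2996 71536 2996 81273 72285 8989 25094) (.S 5 4 (.S 5 2 (.L 1 1 [10, 13, 15, 18, 17,
    16] [60, 48, 36, 0, 0, 0] [52, 40, 28, 0, 0, 0] 100000 32000 32000 1124000 0 30000 56000 58000
    60000 56000 28000) (.L 1 1 [10, 13, 15, 18, 17, 16] [60, 48, 36, 0, 0, 0] [68, 62, 52, 40, 28,
    0] 100000 40000 0 880000 0 0 0 140000 20000 0 20000)) (.E 2))) (.L 1 1 [10, 13, 15, 18, 17, 16]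
    [76, 70, 60, 48, 36, 0] [68, 62, 52, 40, 28, 0] 100000 36667 36667 1100002 0 0 100000 50000 0
    16667 25000)) (.E 2)) (.S 4 4 (.S 4 2 (.S 4 1 (.L 6 6 [4, 4, 5, 5, 5, 6] [48, 36, 0, 0, 0, 0]
    [83, 80, 74, 64, 52, 40] 100000 50000 50000 1025000 0 75000 0 75000 75000 0 25000) (.S 5 5 (.S
    5 2 (.L 6 6 [4, 4, 5, 5, 5, 6] [60, 48, 36, 0, 0, 0] [64, 52, 40, 0, 0, 0] 100000 20000 19999
    1183333 0 0 100000 16667 20000 83333 33333) (.L 6 6 [4, 4, 5, 5, 5, 6] [60, 48, 36, 0, 0, 0]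
    [83, 80, 74, 64, 52, 40] 100000 23077 7691 1038460 0 0 15385 115385 76923 7692 30769)) (.E 2)))
    (.L 6 6 [4, 4, 5, 5, 5, 6] [76, 70, 60, 48, 36, 0] [83, 80, 74, 64, 52, 40] 100000 23334 23334
    1175000 0 0 100000 25000 8333 75000 33333)) (.E 2))) (.L 6 6 [4, 4, 5, 5, 5, 6] [76, 70, 60,
    48, 36, 0] [100, 97, 94, 88, 78, 66] 100000 100000 33332 499998 0 0 166667 166667 0 0 0))) (.E
    1)) (.E 1))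

lemma s21_21_5_5_41 : BlkD.treeX d21_21_5_5 (BlkD.exF 5 5 x21_21_5_5) t21_21_5_5_41
    (BlkD.upd (BlkD.upd (BlkD.upd (fun _ => 0) 0 3) 1 3) 1 4)
    (BlkD.upd (BlkD.upd (BlkD.upd (BlkD.upd (BlkD.upd (BlkD.upd (BlkD.upd (BlkD.upd (fun _ => 21) 0 5) 2 5) 0 4) 0 3) 1 18) 1 9) 1 4) 2 2) = true := by
  decide +kernel

lemma n21_21_5_5_41 {n : ℕ} (hn : 5 ≤ n) : BlkD.NdX d21_21_5_5 (BlkD.exF 5 5 x21_21_5_5) n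
    (BlkD.upd (BlkD.upd (BlkD.upd (fun _ => 0) 0 3) 1 3) 1 4)
    (BlkD.upd (BlkD.upd (BlkD.upd (BlkD.upd (BlkD.upd (BlkD.upd (BlkD.upd (BlkD.upd (fun _ => 21) 0 5) 2 5) 0 4) 0 3) 1 18) 1 9) 1 4) 2 2) :=
  BlkD.NdX.tree s21_21_5_5_41 ok21_21_5_5 (by decide) hn

/-- a subtree -/
def t21_21_5_5_42 : BlkD.Tr :=
  .S 3 11 (.S 3 5 (.S 3 2 (.S 3 1 (.L 6 6 [4, 4, 5, 5, 5, 6] [76, 70, 60, 48, 36, 0] [] 100000
    26667 26667 1100000 0 0 66667 0 66667 0 33333) (.S 4 4 (.S 4 2 (.L 7 7 [4, 4, 5, 4, 5, 5] [60,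
    48, 36, 0, 0, 0] [38, 26, 14, 0, 0, 0] 100000 20000 20000 1180000 0 20000 40000 70000 60000
    20000 25000) (.L 7 7 [4, 4, 5, 4, 5, 5] [76, 70, 60, 48, 36, 0] [38, 26, 14, 0, 0, 0] 100000
    36667 36667 1100002 0 0 100000 50000 0 16667 25000)) (.E 2))) (.S 3 4 (.S 3 3 (.S 4 4 (.S 4 2
    (.S 4 1 (.L 7 7 [4, 4, 5, 4, 5, 5] [48, 36, 0, 0, 0, 0] [58, 48, 36, 24, 0, 0] 100000 20000
    19999 1191666 0 27778 25000 77778 75000 50000 33333) (.L 7 7 [4, 4, 5, 4, 5, 5] [60, 48, 36, 0,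
    0, 0] [58, 48, 36, 24, 0, 0] 100000 20000 20000 1183334 0 0 58333 58333 41667 41667 33333)) (.L
    7 7 [4, 4, 5, 4, 5, 5] [76, 70, 60, 48, 36, 0] [58, 48, 36, 24, 0, 0] 100000 36667 36667
    1100002 0 0 100000 50000 0 16667 25000)) (.E 2)) (.S 4 4 (.S 4 2 (.S 4 1 (.S 4 0 (.E 2) (.S 5 4
    (.S 5 2 (.S 5 1 (.S 5 0 (.E 2) (.E 9)) (.L 7 7 [4, 4, 5, 4, 5, 5] [48, 36, 0, 0, 0, 0] [60, 48,
    36, 0, 0, 0] 100000 33334 33334 1116667 0 33333 16667 100000 83333 0 33333)) (.L 7 7 [4, 4, 5,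
    4, 5, 5] [48, 36, 0, 0, 0, 0] [76, 70, 60, 48, 36, 0] 100000 23077 7691 1038460 0 0 15385
    115385 76923 7692 30769)) (.E 2))) (.L 7 7 [4, 4, 5, 4, 5, 5] [60, 48, 36, 0, 0, 0] [76, 70,
    60, 48, 36, 0] 100000 20000 19999 1195833 0 0 87500 29167 12500 75000 33333)) (.L 7 7 [4, 4, 5,
    4, 5, 5] [76, 70, 60, 48, 36, 0] [76, 70, 60, 48, 36, 0] 100000 33334 33334 1100000 0 0 75000
    75000 25000 25000 33333)) (.E 2))) (.L 7 7 [4, 4, 5, 4, 5, 5] [76, 70, 60, 48, 36, 0] [93, 90,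
    84, 74, 62, 50] 100000 100000 0 400000 0 0 200000 150000 0 0 0))) (.E 1)) (.E 1)

lemma s21_21_5_5_42 : BlkD.treeX d21_21_5_5 (BlkD.exF 5 5 x21_21_5_5) t21_21_5_5_42
    (BlkD.upd (BlkD.upd (BlkD.upd (BlkD.upd (fun _ => 0) 0 3) 1 3) 1 4) 2 3)
    (BlkD.upd (BlkD.upd (BlkD.upd (BlkD.upd (BlkD.upd (BlkD.upd (BlkD.upd (BlkD.upd (BlkD.upd (fun _ => 21) 0 5) 2 5) 0 4) 0 3) 1 18) 1 9) 1 4) 2 4) 2 3) = true := by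
  decide +kernel

lemma n21_21_5_5_42 {n : ℕ} (hn : 5 ≤ n) : BlkD.NdX d21_21_5_5 (BlkD.exF 5 5 x21_21_5_5) n
    (BlkD.upd (BlkD.upd (BlkD.upd (BlkD.upd (fun _ => 0) 0 3) 1 3) 1 4) 2 3)
    (BlkD.upd (BlkD.upd (BlkD.upd (BlkD.upd (BlkD.upd (BlkD.upd (BlkD.upd (BlkD.upd (BlkD.upd (fun _ => 21) 0 5) 2 5) 0 4) 0 3) 1 18) 1 9) 1 4) 2 4) 2 3) :=
  BlkD.NdX.tree s21_21_5_5_42 ok21_21_5_5 (by decide) hn

end BlkC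

end Pool.Agent.Lib.MP_f04ccf_co
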