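import Pool.Agent.Lib.MP_f04ccf_co.M.BlkX21_21_5_5d

/-!
MP_f04ccf_co, block certificate with exceptions, `R = 21`, `H = 21`, the pair `(5, 5)` (data of helper99 / helper13,
generated by helper8, genx.py): part 3 of 3.
-/

set_option autoImplicit false
set_option maxRecDepth 100000

namespace Pool.Agent.Lib.MP_f04ccf_co

namespace BlkC

/-- a subtree -/
def t21_21_5_5_43 : BlkD.Tr :=
  .S 3 10 (.S 3 5 (.S 3 2 (.S 3 1 (.L 7 7 [4, 4, 5, 4, 5, 5] [76, 70, 60, 48, 36, 0] [] 100000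
    20000 19999 1166667 0 33333 33333 66667 33333 33333 33333) (.S 4 4 (.S 4 2 (.S 4 1 (.L 7 7 [4,
    4, 5, 4, 5, 5] [48, 36, 0, 0, 0, 0] [42, 30, 18, 0, 0, 0] 100000 20000 19999 1191666 0 41667
    25000 91667 75000 50000 33333) (.L 7 7 [4, 4, 5, 4, 5, 5] [60, 48, 36, 0, 0, 0] [42, 30, 18, 0,
    0, 0] 100000 20000 20000 1183334 0 0 83333 33333 16667 66667 33333)) (.L 7 7 [4, 4, 5, 4, 5, 5]
    [76, 70, 60, 48, 36, 0] [42, 30, 18, 0, 0, 0] 100000 20513 20513 1100000 0 0 100000 17949 17949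
    82051 33333)) (.E 2))) (.S 3 4 (.S 3 3 (.S 4 4 (.S 4 2 (.S 4 1 (.S 4 0 (.E 2) (.S 5 3 (.S 5 1
    (.S 5 0 (.E 2) (.E 9)) (.L 7 7 [4, 4, 5, 4, 5, 5] [48, 36, 0, 0, 0, 0] [64, 54, 42, 30, 0, 0]
    100000 22223 22223 1172222 0 11111 16667 100000 83333 11111 33333)) (.E 2))) (.L 7 7 [4, 4, 5,
    4, 5, 5] [60, 48, 36, 0, 0, 0] [64, 54, 42, 30, 0, 0] 100000 23334 23334 1166667 8333 0 100000
    16667 6667 83333 33333)) (.L 7 7 [4, 4, 5, 4, 5, 5] [76, 70, 60, 48, 36, 0] [64, 54, 42, 30, 0,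
    0] 100000 33334 33334 1100000 0 0 75000 75000 25000 25000 33333)) (.E 2)) (.E 2)) (.E 1))) (.E
    1)) (.E 1)

lemma s21_21_5_5_43 : BlkD.treeX d21_21_5_5 (BlkD.exF 5 5 x21_21_5_5) t21_21_5_5_43
    (BlkD.upd (BlkD.upd (BlkD.upd (BlkD.upd (BlkD.upd (fun _ => 0) 0 3) 1 3) 1 4) 2 3) 2 4)
    (BlkD.upd (BlkD.upd (BlkD.upd (BlkD.upd (BlkD.upd (BlkD.upd (BlkD.upd (BlkD.upd (fun _ => 21) 0 5) 2 5) 0 4) 0 3) 1 18) 1 9) 1 4) 2 4) = true := by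
  decide +kernel

lemma n21_21_5_5_43 {n : ℕ} (hn : 5 ≤ n) : BlkD.NdX d21_21_5_5 (BlkD.exF 5 5 x21_21_5_5) n
    (BlkD.upd (BlkD.upd (BlkD.upd (BlkD.upd (BlkD.upd (fun _ => 0) 0 3) 1 3) 1 4) 2 3) 2 4)
    (BlkD.upd (BlkD.upd (BlkD.upd (BlkD.upd (BlkD.upd (BlkD.upd (BlkD.upd (BlkD.upd (fun _ => 21) 0 5) 2 5) 0 4) 0 3) 1 18) 1 9) 1 4) 2 4) :=
  BlkD.NdX.tree s21_21_5_5_43 ok21_21_5_5 (by decide) hn

/-- a subtree -/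
def t21_21_5_5_44 : BlkD.Tr :=
  .S 3 9 (.S 3 4 (.S 3 2 (.S 3 1 (.L 7 7 [4, 4, 5, 4, 5, 5] [76, 70, 60, 48, 36, 0] [] 100000 20000
    20000 1187500 12500 0 75000 37500 18750 62500 25000) (.L 7 7 [4, 4, 5, 4, 5, 5] [76, 70, 60,
    48, 36, 0] [46, 34, 22, 0, 0, 0] 100000 33334 33334 1125000 25000 0 50000 75000 75000 25000
    33333)) (.E 1)) (.E 1)) (.E 1)

lemma s21_21_5_5_44 : BlkD.treeX d21_21_5_5 (BlkD.exF 5 5 x21_21_5_5) t21_21_5_5_44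
    (BlkD.upd (BlkD.upd (BlkD.upd (BlkD.upd (BlkD.upd (fun _ => 0) 0 3) 1 3) 1 4) 2 3) 2 5)
    (BlkD.upd (BlkD.upd (BlkD.upd (BlkD.upd (BlkD.upd (BlkD.upd (BlkD.upd (fun _ => 21) 0 5) 2 5) 0 4) 0 3) 1 18) 1 9) 1 4) = true := by
  decide +kernel

lemma n21_21_5_5_44 {n : ℕ} (hn : 5 ≤ n) : BlkD.NdX d21_21_5_5 (BlkD.exF 5 5 x21_21_5_5) n
    (BlkD.upd (BlkD.upd (BlkD.upd (BlkD.upd (BlkD.upd (fun _ => 0) 0 3) 1 3) 1 4) 2 3) 2 5)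
    (BlkD.upd (BlkD.upd (BlkD.upd (BlkD.upd (BlkD.upd (BlkD.upd (BlkD.upd (fun _ => 21) 0 5) 2 5) 0 4) 0 3) 1 18) 1 9) 1 4) :=
  BlkD.NdX.tree s21_21_5_5_44 ok21_21_5_5 (by decide) hn

/-- a subtree -/
def t21_21_5_5_45 : BlkD.Tr :=
  .S 2 1 (.L 7 7 [4, 4, 5, 4, 5, 5] [93, 90, 84, 74, 62, 50] [] 100000 42029 42028 1060872 0 69565
    15217 84783 71739 2174 28986) (.S 3 11 (.S 3 5 (.S 3 2 (.L 7 7 [4, 4, 5, 4, 5, 5] [93, 90, 84,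
    74, 62, 50] [] 100000 40000 40000 1000000 0 0 100000 0 0 0 25000) (.S 3 4 (.S 3 3 (.L 7 7 [4,
    4, 5, 4, 5, 5] [93, 90, 84, 74, 62, 50] [52, 42, 30, 18, 0, 0] 100000 37143 37143 1107144 0 0
    100000 42857 7143 7143 25000) (.S 4 5 (.S 4 2 (.E 2) (.S 4 4 (.S 4 3 (.S 5 4 (.S 5 2 (.S 5 1
    (.L 7 7 [4, 4, 5, 4, 5, 5] [84, 74, 62, 50, 0, 0] [40, 28, 0, 0, 0, 0] 100000 33334 33334
    1100000 0 25000 100000 25000 0 100000 33333) (.L 7 7 [4, 4, 5, 4, 5, 5] [84, 74, 62, 50, 0, 0]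
    [52, 40, 28, 0, 0, 0] 100000 33334 33334 1100000 0 0 50000 100000 50000 0 33333)) (.L 7 7 [4,
    4, 5, 4, 5, 5] [84, 74, 62, 50, 0, 0] [68, 62, 52, 40, 28, 0] 100000 50000 25000 875000 0 0
    75000 125000 0 0 25000)) (.E 2)) (.L 7 7 [4, 4, 5, 4, 5, 5] [90, 84, 74, 62, 50, 0] [68, 62,
    52, 40, 28, 0] 100000 35000 35000 1100000 0 0 100000 50000 0 25000 25000)) (.L 7 7 [4, 4, 5, 4,
    5, 5] [93, 90, 84, 74, 62, 50] [68, 62, 52, 40, 28, 0] 100000 45000 20000 900000 0 0 125000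
    62500 0 12500 25000))) (.E 2))) (.L 7 7 [4, 4, 5, 4, 5, 5] [93, 90, 84, 74, 62, 50] [83, 80,
    74, 64, 52, 40] 100000 33334 33334 1100000 0 0 50000 100000 50000 0 33333))) (.E 2)) (.E 1))

lemma s21_21_5_5_45 : BlkD.treeX d21_21_5_5 (BlkD.exF 5 5 x21_21_5_5) t21_21_5_5_45
    (BlkD.upd (BlkD.upd (fun _ => 0) 0 3) 1 5)
    (BlkD.upd (BlkD.upd (BlkD.upd (BlkD.upd (BlkD.upd (BlkD.upd (BlkD.upd (BlkD.upd (BlkD.upd (BlkD.upd (fun _ => 21) 0 5) 2 5) 0 4) 0 3) 1 18) 1 9) 1 7) 1 6) 1 5) 2 2) = true := by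
  decide +kernel

lemma n21_21_5_5_45 {n : ℕ} (hn : 5 ≤ n) : BlkD.NdX d21_21_5_5 (BlkD.exF 5 5 x21_21_5_5) n
    (BlkD.upd (BlkD.upd (fun _ => 0) 0 3) 1 5)
    (BlkD.upd (BlkD.upd (BlkD.upd (BlkD.upd (BlkD.upd (BlkD.upd (BlkD.upd (BlkD.upd (BlkD.upd (BlkD.upd (fun _ => 21) 0 5) 2 5) 0 4) 0 3) 1 18) 1 9) 1 7) 1 6) 1 5) 2 2) :=
  BlkD.NdX.tree s21_21_5_5_45 ok21_21_5_5 (by decide) hn

/-- a subtree -/
def t21_21_5_5_46 : BlkD.Tr :=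
  .S 2 4 (.S 2 3 (.S 3 10 (.S 3 5 (.S 3 2 (.L 7 7 [4, 4, 5, 4, 5, 5] [93, 90, 84, 74, 62, 50] []
    100000 34286 34286 1114288 0 0 100000 35714 14286 14286 25000) (.S 3 4 (.S 3 3 (.S 4 5 (.S 4 2
    (.E 2) (.S 4 4 (.S 4 3 (.S 5 3 (.S 5 1 (.L 7 7 [4, 4, 5, 4, 5, 5] [84, 74, 62, 50, 0, 0] [36,
    24, 0, 0, 0, 0] 100000 20000 19999 1183333 0 0 100000 16667 0 83333 33333) (.L 7 7 [4, 4, 5, 4,
    5, 5] [84, 74, 62, 50, 0, 0] [58, 48, 36, 24, 0, 0] 100000 33334 33334 1100000 0 0 50000 100000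
    50000 0 33333)) (.E 2)) (.L 7 7 [4, 4, 5, 4, 5, 5] [90, 84, 74, 62, 50, 0] [58, 48, 36, 24, 0,
    0] 100000 33334 33334 1100000 0 0 75000 75000 25000 25000 33333)) (.L 7 7 [4, 4, 5, 4, 5, 5]
    [93, 90, 84, 74, 62, 50] [58, 48, 36, 24, 0, 0] 100000 50000 25000 875000 0 0 125000 75000 0 0
    25000))) (.E 2)) (.L 7 7 [4, 4, 5, 4, 5, 5] [93, 90, 84, 74, 62, 50] [76, 70, 60, 48, 36, 0]
    100000 100000 0 400000 0 0 150000 200000 0 0 0)) (.E 2))) (.E 1)) (.E 1)) (.L 7 7 [4, 4, 5, 4,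
    5, 5] [93, 90, 84, 74, 62, 50] [] 100000 20000 19999 1183333 0 0 100000 16667 20000 83333
    33333)) (.L 7 7 [4, 4, 5, 4, 5, 5] [93, 90, 84, 74, 62, 50] [] 100000 20000 20000 1100000 0 0
    100000 0 25000 75000 25000)

lemma s21_21_5_5_46 : BlkD.treeX d21_21_5_5 (BlkD.exF 5 5 x21_21_5_5) t21_21_5_5_46
    (BlkD.upd (BlkD.upd (BlkD.upd (fun _ => 0) 0 3) 1 5) 2 3)
    (BlkD.upd (BlkD.upd (BlkD.upd (BlkD.upd (BlkD.upd (BlkD.upd (BlkD.upd (BlkD.upd (BlkD.upd (fun _ => 21) 0 5) 2 5) 0 4) 0 3) 1 18) 1 9) 1 7) 1 6) 1 5) = true := by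
  decide +kernel

lemma n21_21_5_5_46 {n : ℕ} (hn : 5 ≤ n) : BlkD.NdX d21_21_5_5 (BlkD.exF 5 5 x21_21_5_5) n
    (BlkD.upd (BlkD.upd (BlkD.upd (fun _ => 0) 0 3) 1 5) 2 3)
    (BlkD.upd (BlkD.upd (BlkD.upd (BlkD.upd (BlkD.upd (BlkD.upd (BlkD.upd (BlkD.upd (BlkD.upd (fun _ => 21) 0 5) 2 5) 0 4) 0 3) 1 18) 1 9) 1 7) 1 6) 1 5) :=
  BlkD.NdX.tree s21_21_5_5_46 ok21_21_5_5 (by decide) hn

/-- a subtree -/
def t21_21_5_5_47 : BlkD.Tr :=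
  .E 0

lemma s21_21_5_5_47 : BlkD.treeX d21_21_5_5 (BlkD.exF 5 5 x21_21_5_5) t21_21_5_5_47
    (BlkD.upd (BlkD.upd (BlkD.upd (fun _ => 0) 0 3) 1 5) 1 6)
    (BlkD.upd (BlkD.upd (BlkD.upd (BlkD.upd (BlkD.upd (BlkD.upd (BlkD.upd (BlkD.upd (fun _ => 21) 0 5) 2 5) 0 4) 0 3) 1 18) 1 9) 1 7) 1 6) = true := by
  decide +kernel

lemma n21_21_5_5_47 {n : ℕ} (hn : 5 ≤ n) : BlkD.NdX d21_21_5_5 (BlkD.exF 5 5 x21_21_5_5) n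
    (BlkD.upd (BlkD.upd (BlkD.upd (fun _ => 0) 0 3) 1 5) 1 6)
    (BlkD.upd (BlkD.upd (BlkD.upd (BlkD.upd (BlkD.upd (BlkD.upd (BlkD.upd (BlkD.upd (fun _ => 21) 0 5) 2 5) 0 4) 0 3) 1 18) 1 9) 1 7) 1 6) :=
  BlkD.NdX.tree s21_21_5_5_47 ok21_21_5_5 (by decide) hn

/-- a subtree -/
def t21_21_5_5_48 : BlkD.Tr :=
  .E 0

lemma s21_21_5_5_48 : BlkD.treeX d21_21_5_5 (BlkD.exF 5 5 x21_21_5_5) t21_21_5_5_48
    (BlkD.upd (BlkD.upd (BlkD.upd (fun _ => 0) 0 3) 1 5) 1 7)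
    (BlkD.upd (BlkD.upd (BlkD.upd (BlkD.upd (BlkD.upd (BlkD.upd (BlkD.upd (fun _ => 21) 0 5) 2 5) 0 4) 0 3) 1 18) 1 9) 1 7) = true := by
  decide +kernel

lemma n21_21_5_5_48 {n : ℕ} (hn : 5 ≤ n) : BlkD.NdX d21_21_5_5 (BlkD.exF 5 5 x21_21_5_5) n
    (BlkD.upd (BlkD.upd (BlkD.upd (fun _ => 0) 0 3) 1 5) 1 7)
    (BlkD.upd (BlkD.upd (BlkD.upd (BlkD.upd (BlkD.upd (BlkD.upd (BlkD.upd (fun _ => 21) 0 5) 2 5) 0 4) 0 3) 1 18) 1 9) 1 7) :=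
  BlkD.NdX.tree s21_21_5_5_48 ok21_21_5_5 (by decide) hn

/-- a subtree -/
def t21_21_5_5_49 : BlkD.Tr :=
  .E 0

lemma s21_21_5_5_49 : BlkD.treeX d21_21_5_5 (BlkD.exF 5 5 x21_21_5_5) t21_21_5_5_49
    (BlkD.upd (BlkD.upd (BlkD.upd (fun _ => 0) 0 3) 1 5) 1 8)
    (BlkD.upd (BlkD.upd (BlkD.upd (BlkD.upd (BlkD.upd (BlkD.upd (fun _ => 21) 0 5) 2 5) 0 4) 0 3) 1 18) 1 9) = true := by
  decide +kernel

lemma n21_21_5_5_49 {n : ℕ} (hn : 5 ≤ n) : BlkD.NdX d21_21_5_5 (BlkD.exF 5 5 x21_21_5_5) n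
    (BlkD.upd (BlkD.upd (BlkD.upd (fun _ => 0) 0 3) 1 5) 1 8)
    (BlkD.upd (BlkD.upd (BlkD.upd (BlkD.upd (BlkD.upd (BlkD.upd (fun _ => 21) 0 5) 2 5) 0 4) 0 3) 1 18) 1 9) :=
  BlkD.NdX.tree s21_21_5_5_49 ok21_21_5_5 (by decide) hn

/-- a subtree -/
def t21_21_5_5_50 : BlkD.Tr :=
  .E 0

lemma s21_21_5_5_50 : BlkD.treeX d21_21_5_5 (BlkD.exF 5 5 x21_21_5_5) t21_21_5_5_50
    (BlkD.upd (BlkD.upd (fun _ => 0) 0 3) 1 10)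
    (BlkD.upd (BlkD.upd (BlkD.upd (BlkD.upd (BlkD.upd (fun _ => 21) 0 5) 2 5) 0 4) 0 3) 1 18) = true := by
  decide +kernel

lemma n21_21_5_5_50 {n : ℕ} (hn : 5 ≤ n) : BlkD.NdX d21_21_5_5 (BlkD.exF 5 5 x21_21_5_5) n
    (BlkD.upd (BlkD.upd (fun _ => 0) 0 3) 1 10)
    (BlkD.upd (BlkD.upd (BlkD.upd (BlkD.upd (BlkD.upd (fun _ => 21) 0 5) 2 5) 0 4) 0 3) 1 18) :=
  BlkD.NdX.tree s21_21_5_5_50 ok21_21_5_5 (by decide) hn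

/-- a subtree -/
def t21_21_5_5_51 : BlkD.Tr :=
  .E 0

lemma s21_21_5_5_51 : BlkD.treeX d21_21_5_5 (BlkD.exF 5 5 x21_21_5_5) t21_21_5_5_51
    (BlkD.upd (BlkD.upd (fun _ => 0) 0 3) 1 19)
    (BlkD.upd (BlkD.upd (BlkD.upd (BlkD.upd (fun _ => 21) 0 5) 2 5) 0 4) 0 3) = true := by
  decide +kernel

lemma n21_21_5_5_51 {n : ℕ} (hn : 5 ≤ n) : BlkD.NdX d21_21_5_5 (BlkD.exF 5 5 x21_21_5_5) n
    (BlkD.upd (BlkD.upd (fun _ => 0) 0 3) 1 19)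
    (BlkD.upd (BlkD.upd (BlkD.upd (BlkD.upd (fun _ => 21) 0 5) 2 5) 0 4) 0 3) :=
  BlkD.NdX.tree s21_21_5_5_51 ok21_21_5_5 (by decide) hn

/-- a subtree -/
def t21_21_5_5_52 : BlkD.Tr :=
  .S 1 0 (.L 7 7 [4, 4, 5, 4, 5, 5] [0, 0, 0, 0, 0, 0] [] 100000 24681 24681 1155321 0 4255 0 65957
    25532 25532 25532) (.S 2 2 (.L 7 7 [4, 4, 5, 4, 5, 5] [20, 8, 0, 0, 0, 0] [] 100000 24940 24940
    1171085 0 14458 43373 57831 43373 15964 25000) (.L 7 7 [4, 4, 5, 4, 5, 5] [20, 8, 0, 0, 0, 0]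
    [] 100000 23077 23077 1161540 38462 0 76923 57692 38462 23077 23077))

lemma s21_21_5_5_52 : BlkD.treeX d21_21_5_5 (BlkD.exF 5 5 x21_21_5_5) t21_21_5_5_52
    (BlkD.upd (BlkD.upd (fun _ => 0) 0 3) 0 4)
    (BlkD.upd (BlkD.upd (BlkD.upd (BlkD.upd (BlkD.upd (BlkD.upd (BlkD.upd (BlkD.upd (fun _ => 21) 0 5) 2 5) 0 4) 1 17) 1 8) 1 4) 1 2) 1 1) = true := by
  decide +kernel

lemma n21_21_5_5_52 {n : ℕ} (hn : 5 ≤ n) : BlkD.NdX d21_21_5_5 (BlkD.exF 5 5 x21_21_5_5) n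
    (BlkD.upd (BlkD.upd (fun _ => 0) 0 3) 0 4)
    (BlkD.upd (BlkD.upd (BlkD.upd (BlkD.upd (BlkD.upd (BlkD.upd (BlkD.upd (BlkD.upd (fun _ => 21) 0 5) 2 5) 0 4) 1 17) 1 8) 1 4) 1 2) 1 1) :=
  BlkD.NdX.tree s21_21_5_5_52 ok21_21_5_5 (by decide) hn

/-- a subtree -/
def t21_21_5_5_53 : BlkD.Tr :=
  .S 2 1 (.L 7 7 [4, 4, 5, 4, 5, 5] [42, 30, 18, 0, 0, 0] [] 100000 55882 55881 900000 0 100000 0
    100000 76471 0 23529) (.S 3 13 (.S 3 6 (.S 3 3 (.L 7 7 [4, 4, 5, 4, 5, 5] [42, 30, 18, 0, 0, 0]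
    [] 100000 28572 28572 1128571 0 25000 3571 46429 50000 3571 25000) (.S 3 5 (.S 3 4 (.L 2 2 [7,
    8, 10, 12, 13, 15] [42, 30, 18, 0, 0, 0] [68, 62, 52, 40, 28, 0] 100000 37374 37374 1112123 0
    33333 33333 78788 45455 17172 29293) (.L 6 6 [4, 4, 5, 5, 5, 6] [42, 30, 18, 0, 0, 0] [83, 80,
    74, 64, 52, 40] 100000 20000 20000 1194118 0 17647 35294 52941 52941 35294 29412)) (.L 6 6 [4,
    4, 5, 5, 5, 6] [42, 30, 18, 0, 0, 0] [100, 97, 94, 88, 78, 66] 100000 23077 23077 1161539 0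
    7692 15385 100000 76923 15385 30769))) (.E 1)) (.E 1))

lemma s21_21_5_5_53 : BlkD.treeX d21_21_5_5 (BlkD.exF 5 5 x21_21_5_5) t21_21_5_5_53
    (BlkD.upd (BlkD.upd (BlkD.upd (fun _ => 0) 0 3) 0 4) 1 2)
    (BlkD.upd (BlkD.upd (BlkD.upd (BlkD.upd (BlkD.upd (BlkD.upd (BlkD.upd (BlkD.upd (fun _ => 21) 0 5) 2 5) 0 4) 1 17) 1 8) 1 4) 1 2) 2 2) = true := by
  decide +kernel

lemma n21_21_5_5_53 {n : ℕ} (hn : 5 ≤ n) : BlkD.NdX d21_21_5_5 (BlkD.exF 5 5 x21_21_5_5) n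
    (BlkD.upd (BlkD.upd (BlkD.upd (fun _ => 0) 0 3) 0 4) 1 2)
    (BlkD.upd (BlkD.upd (BlkD.upd (BlkD.upd (BlkD.upd (BlkD.upd (BlkD.upd (BlkD.upd (fun _ => 21) 0 5) 2 5) 0 4) 1 17) 1 8) 1 4) 1 2) 2 2) :=
  BlkD.NdX.tree s21_21_5_5_53 ok21_21_5_5 (by decide) hn

/-- a subtree -/
def t21_21_5_5_54 : BlkD.Tr :=
  .S 2 4 (.S 2 3 (.S 3 12 (.S 3 6 (.S 3 3 (.L 6 6 [4, 4, 5, 5, 5, 6] [42, 30, 18, 0, 0, 0] []
    100000 22223 22223 1182226 0 8889 48889 57778 57778 15556 26667) (.S 3 5 (.S 3 4 (.S 4 2 (.S 4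
    1 (.S 4 0 (.L 6 6 [4, 4, 5, 5, 5, 6] [18, 0, 0, 0, 0, 0] [76, 70, 60, 48, 36, 0] 100000 20000
    20000 1162500 25000 12500 0 62500 100000 75000 50000) (.S 5 4 (.S 5 2 (.L 6 6 [4, 4, 5, 5, 5,
    6] [30, 18, 0, 0, 0, 0] [60, 48, 36, 0, 0, 0] 100000 21334 21334 1183334 3333 6667 93333 20000
    20000 80000 33333) (.L 6 6 [4, 4, 5, 5, 5, 6] [30, 18, 0, 0, 0, 0] [76, 70, 60, 48, 36, 0]
    100000 20834 20834 1097917 0 2083 16667 100000 83333 16667 33333)) (.E 2))) (.L 6 6 [4, 4, 5,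
    5, 5, 6] [42, 30, 18, 0, 0, 0] [76, 70, 60, 48, 36, 0] 100000 20000 19999 1144444 0 0 77778
    38889 22222 61111 33333)) (.E 2)) (.L 6 6 [4, 4, 5, 5, 5, 6] [42, 30, 18, 0, 0, 0] [93, 90, 84,
    74, 62, 50] 100000 20834 20834 1179167 2083 0 18750 100000 83333 16667 33333)) (.E 1))) (.E 1))
    (.E 1)) (.S 3 11 (.S 3 5 (.S 3 2 (.L 6 6 [4, 4, 5, 5, 5, 6] [42, 30, 18, 0, 0, 0] [] 100000
    20000 19999 1171429 14286 14286 57143 57143 57143 57143 28571) (.S 3 4 (.S 3 3 (.S 4 2 (.S 4 1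
    (.S 4 0 (.L 6 6 [4, 4, 5, 5, 5, 6] [18, 0, 0, 0, 0, 0] [64, 54, 42, 30, 0, 0] 100000 20000
    20000 1150000 50000 0 0 50000 100000 100000 50000) (.L 7 7 [4, 4, 5, 4, 5, 5] [30, 18, 0, 0, 0,
    0] [64, 54, 42, 30, 0, 0] 100000 20001 20001 1192424 31818 0 75758 37879 37879 43939 27273))
    (.L 7 7 [4, 4, 5, 4, 5, 5] [42, 30, 18, 0, 0, 0] [64, 54, 42, 30, 0, 0] 100000 20000 19999
    1144444 0 0 77778 38889 22222 61111 33333)) (.E 2)) (.E 2)) (.E 1))) (.E 1)) (.E 1))) (.L 7 7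
    [4, 4, 5, 4, 5, 5] [42, 30, 18, 0, 0, 0] [] 100000 20000 20000 1150000 37500 0 62500 50000
    50000 50000 25000)

lemma s21_21_5_5_54 : BlkD.treeX d21_21_5_5 (BlkD.exF 5 5 x21_21_5_5) t21_21_5_5_54
    (BlkD.upd (BlkD.upd (BlkD.upd (BlkD.upd (fun _ => 0) 0 3) 0 4) 1 2) 2 3)
    (BlkD.upd (BlkD.upd (BlkD.upd (BlkD.upd (BlkD.upd (BlkD.upd (BlkD.upd (fun _ => 21) 0 5) 2 5) 0 4) 1 17) 1 8) 1 4) 1 2) = true := by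
  decide +kernel

lemma n21_21_5_5_54 {n : ℕ} (hn : 5 ≤ n) : BlkD.NdX d21_21_5_5 (BlkD.exF 5 5 x21_21_5_5) n
    (BlkD.upd (BlkD.upd (BlkD.upd (BlkD.upd (fun _ => 0) 0 3) 0 4) 1 2) 2 3)
    (BlkD.upd (BlkD.upd (BlkD.upd (BlkD.upd (BlkD.upd (BlkD.upd (BlkD.upd (fun _ => 21) 0 5) 2 5) 0 4) 1 17) 1 8) 1 4) 1 2) :=
  BlkD.NdX.tree s21_21_5_5_54 ok21_21_5_5 (by decide) hn

/-- a subtree -/
def t21_21_5_5_55 : BlkD.Tr :=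
  .S 2 1 (.L 7 7 [4, 4, 5, 4, 5, 5] [64, 54, 42, 30, 0, 0] [] 100000 42029 42028 1060872 0 65217
    21739 82609 65217 4348 28986) (.S 3 12 (.S 3 6 (.S 3 3 (.L 7 7 [4, 4, 5, 4, 5, 5] [64, 54, 42,
    30, 0, 0] [] 100000 29841 29840 1136512 0 22222 44444 41270 44444 3175 22222) (.S 3 5 (.S 3 4
    (.S 4 3 (.S 4 1 (.L 7 7 [4, 4, 5, 4, 5, 5] [42, 30, 0, 0, 0, 0] [68, 62, 52, 40, 28, 0] 100000
    47059 47059 1022061 3676 69485 0 76838 75000 7353 25000) (.S 4 2 (.L 3 3 [5, 6, 7, 9, 10, 11]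
    [54, 42, 30, 0, 0, 0] [68, 62, 52, 40, 28, 0] 100000 50000 50000 1026318 0 65789 17105 92105
    65789 23684 25000) (.L 3 3 [5, 6, 7, 9, 10, 11] [64, 54, 42, 30, 0, 0] [68, 62, 52, 40, 28, 0]
    100000 36667 36667 1100002 0 0 100000 50000 0 16667 25000))) (.E 2)) (.S 4 3 (.S 4 1 (.L 6 6
    [4, 4, 5, 5, 5, 6] [42, 30, 0, 0, 0, 0] [83, 80, 74, 64, 52, 40] 100000 50000 50000 1025000 0
    75000 0 75000 75000 0 25000) (.S 4 2 (.L 4 4 [4, 5, 6, 7, 8, 9] [54, 42, 30, 0, 0, 0] [83, 80,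
    74, 64, 52, 40] 100000 31646 31646 1127850 0 41772 25316 54430 62025 25316 26582) (.L 4 4 [4,
    5, 6, 7, 8, 9] [64, 54, 42, 30, 0, 0] [83, 80, 74, 64, 52, 40] 100000 23334 23334 1175000 0 0
    100000 25000 8333 75000 33333))) (.E 2))) (.L 4 4 [4, 5, 6, 7, 8, 9] [64, 54, 42, 30, 0, 0]
    [100, 97, 94, 88, 78, 66] 100000 150000 0 1 83333 0 83333 250000 0 0 0))) (.E 1)) (.E 1))

lemma s21_21_5_5_55 : BlkD.treeX d21_21_5_5 (BlkD.exF 5 5 x21_21_5_5) t21_21_5_5_55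
    (BlkD.upd (BlkD.upd (BlkD.upd (fun _ => 0) 0 3) 0 4) 1 3)
    (BlkD.upd (BlkD.upd (BlkD.upd (BlkD.upd (BlkD.upd (BlkD.upd (BlkD.upd (BlkD.upd (fun _ => 21) 0 5) 2 5) 0 4) 1 17) 1 8) 1 4) 1 3) 2 2) = true := by
  decide +kernel

lemma n21_21_5_5_55 {n : ℕ} (hn : 5 ≤ n) : BlkD.NdX d21_21_5_5 (BlkD.exF 5 5 x21_21_5_5) n
    (BlkD.upd (BlkD.upd (BlkD.upd (fun _ => 0) 0 3) 0 4) 1 3)
    (BlkD.upd (BlkD.upd (BlkD.upd (BlkD.upd (BlkD.upd (BlkD.upd (BlkD.upd (BlkD.upd (fun _ => 21) 0 5) 2 5) 0 4) 1 17) 1 8) 1 4) 1 3) 2 2) :=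
  BlkD.NdX.tree s21_21_5_5_55 ok21_21_5_5 (by decide) hn

/-- a subtree -/
def t21_21_5_5_56 : BlkD.Tr :=
  .S 2 4 (.S 2 3 (.S 3 11 (.S 3 5 (.S 3 2 (.S 3 1 (.L 4 4 [4, 5, 6, 7, 8, 9] [64, 54, 42, 30, 0, 0]
    [] 100000 25000 25000 1075000 0 25000 50000 25000 100000 0 50000) (.L 7 7 [4, 4, 5, 4, 5, 5]
    [64, 54, 42, 30, 0, 0] [38, 26, 14, 0, 0, 0] 100000 24286 24286 1164288 0 25000 50000 60714
    50000 14286 25000)) (.S 3 4 (.S 3 3 (.S 4 3 (.S 4 1 (.L 7 7 [4, 4, 5, 4, 5, 5] [42, 30, 0, 0,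
    0, 0] [58, 48, 36, 24, 0, 0] 100000 20000 19999 1191666 0 27778 25000 77778 75000 50000 33333)
    (.L 7 7 [4, 4, 5, 4, 5, 5] [64, 54, 42, 30, 0, 0] [58, 48, 36, 24, 0, 0] 100000 20851 20850
    1185106 0 0 57447 57447 57447 19149 25532)) (.E 2)) (.S 4 3 (.S 4 1 (.S 4 0 (.E 2) (.S 5 4 (.S
    5 2 (.S 5 1 (.S 5 0 (.E 2) (.E 9)) (.L 7 7 [4, 4, 5, 4, 5, 5] [42, 30, 0, 0, 0, 0] [60, 48, 36,
    0, 0, 0] 100000 33334 33334 1116667 0 33333 16667 100000 83333 0 33333)) (.L 7 7 [4, 4, 5, 4,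
    5, 5] [42, 30, 0, 0, 0, 0] [76, 70, 60, 48, 36, 0] 100000 23077 7691 1038460 0 0 15385 115385
    76923 7692 30769)) (.E 2))) (.L 7 7 [4, 4, 5, 4, 5, 5] [64, 54, 42, 30, 0, 0] [76, 70, 60, 48,
    36, 0] 100000 20000 19999 1195833 0 0 87500 29167 12500 75000 33333)) (.E 2))) (.E 2))) (.E 1))
    (.E 1)) (.S 3 10 (.S 3 5 (.S 3 2 (.S 3 1 (.L 7 7 [4, 4, 5, 4, 5, 5] [64, 54, 42, 30, 0, 0] []
    100000 20000 19999 1166667 0 33333 33333 66667 33333 33333 33333) (.S 4 3 (.S 4 1 (.L 7 7 [4,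
    4, 5, 4, 5, 5] [42, 30, 0, 0, 0, 0] [42, 30, 18, 0, 0, 0] 100000 20000 19999 1191666 0 41667
    25000 91667 75000 50000 33333) (.L 7 7 [4, 4, 5, 4, 5, 5] [64, 54, 42, 30, 0, 0] [42, 30, 18,
    0, 0, 0] 100000 20000 20000 1183334 0 0 58333 58333 41667 41667 33333)) (.E 2))) (.S 3 4 (.S 3
    3 (.S 4 3 (.S 4 1 (.S 4 0 (.E 2) (.S 5 3 (.S 5 1 (.S 5 0 (.E 2) (.E 9)) (.L 7 7 [4, 4, 5, 4, 5,
    5] [42, 30, 0, 0, 0, 0] [64, 54, 42, 30, 0, 0] 100000 22223 22223 1172222 0 11111 16667 100000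
    83333 11111 33333)) (.E 2))) (.L 7 7 [4, 4, 5, 4, 5, 5] [64, 54, 42, 30, 0, 0] [64, 54, 42, 30,
    0, 0] 100000 22223 22223 1172222 11111 0 100000 16667 11111 83333 33333)) (.E 2)) (.E 2)) (.E
    1))) (.E 1)) (.E 1))) (.S 3 9 (.S 3 4 (.S 3 2 (.S 3 1 (.S 3 0 (.L 4 4 [4, 5, 6, 7, 8, 9] [64,
    54, 42, 30, 0, 0] [0, 0, 0, 0, 0, 0] 100000 20000 19999 1166666 16667 0 50000 0 50000 50000
    50000) (.L 6 6 [4, 4, 5, 5, 5, 6] [64, 54, 42, 30, 0, 0] [22, 10, 0, 0, 0, 0] 100000 20000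
    19999 1158334 8333 58333 66667 75000 75000 100000 41667)) (.L 6 6 [4, 4, 5, 5, 5, 6] [64, 54,
    42, 30, 0, 0] [46, 34, 22, 0, 0, 0] 100000 20000 19999 1183333 0 0 16667 100000 83333 0 33333))
    (.E 1)) (.E 1)) (.E 1))

lemma s21_21_5_5_56 : BlkD.treeX d21_21_5_5 (BlkD.exF 5 5 x21_21_5_5) t21_21_5_5_56
    (BlkD.upd (BlkD.upd (BlkD.upd (BlkD.upd (fun _ => 0) 0 3) 0 4) 1 3) 2 3)
    (BlkD.upd (BlkD.upd (BlkD.upd (BlkD.upd (BlkD.upd (BlkD.upd (BlkD.upd (fun _ => 21) 0 5) 2 5) 0 4) 1 17) 1 8) 1 4) 1 3) = true := by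
  decide +kernel

lemma n21_21_5_5_56 {n : ℕ} (hn : 5 ≤ n) : BlkD.NdX d21_21_5_5 (BlkD.exF 5 5 x21_21_5_5) n
    (BlkD.upd (BlkD.upd (BlkD.upd (BlkD.upd (fun _ => 0) 0 3) 0 4) 1 3) 2 3)
    (BlkD.upd (BlkD.upd (BlkD.upd (BlkD.upd (BlkD.upd (BlkD.upd (BlkD.upd (fun _ => 21) 0 5) 2 5) 0 4) 1 17) 1 8) 1 4) 1 3) :=
  BlkD.NdX.tree s21_21_5_5_56 ok21_21_5_5 (by decide) hn

/-- a subtree -/
def t21_21_5_5_57 : BlkD.Tr :=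
  .L 6 6 [4, 4, 5, 5, 5, 6] [84, 78, 68, 56, 44, 0] [] 100000 38572 38572 1100001 0 0 100000 50000
    0 7143 25000

lemma s21_21_5_5_57 : BlkD.treeX d21_21_5_5 (BlkD.exF 5 5 x21_21_5_5) t21_21_5_5_57
    (BlkD.upd (BlkD.upd (BlkD.upd (BlkD.upd (fun _ => 0) 0 3) 0 4) 1 3) 1 4)
    (BlkD.upd (BlkD.upd (BlkD.upd (BlkD.upd (BlkD.upd (BlkD.upd (fun _ => 21) 0 5) 2 5) 0 4) 1 17) 1 8) 1 4) = true := by
  decide +kernel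

lemma n21_21_5_5_57 {n : ℕ} (hn : 5 ≤ n) : BlkD.NdX d21_21_5_5 (BlkD.exF 5 5 x21_21_5_5) n
    (BlkD.upd (BlkD.upd (BlkD.upd (BlkD.upd (fun _ => 0) 0 3) 0 4) 1 3) 1 4)
    (BlkD.upd (BlkD.upd (BlkD.upd (BlkD.upd (BlkD.upd (BlkD.upd (fun _ => 21) 0 5) 2 5) 0 4) 1 17) 1 8) 1 4) :=
  BlkD.NdX.tree s21_21_5_5_57 ok21_21_5_5 (by decide) hn

/-- a subtree -/
def t21_21_5_5_58 : BlkD.Tr :=
  .E 0

lemma s21_21_5_5_58 : BlkD.treeX d21_21_5_5 (BlkD.exF 5 5 x21_21_5_5) t21_21_5_5_58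
    (BlkD.upd (BlkD.upd (BlkD.upd (fun _ => 0) 0 3) 0 4) 1 5)
    (BlkD.upd (BlkD.upd (BlkD.upd (BlkD.upd (BlkD.upd (fun _ => 21) 0 5) 2 5) 0 4) 1 17) 1 8) = true := by
  decide +kernel

lemma n21_21_5_5_58 {n : ℕ} (hn : 5 ≤ n) : BlkD.NdX d21_21_5_5 (BlkD.exF 5 5 x21_21_5_5) n
    (BlkD.upd (BlkD.upd (BlkD.upd (fun _ => 0) 0 3) 0 4) 1 5)
    (BlkD.upd (BlkD.upd (BlkD.upd (BlkD.upd (BlkD.upd (fun _ => 21) 0 5) 2 5) 0 4) 1 17) 1 8) :=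
  BlkD.NdX.tree s21_21_5_5_58 ok21_21_5_5 (by decide) hn

/-- a subtree -/
def t21_21_5_5_59 : BlkD.Tr :=
  .E 0

lemma s21_21_5_5_59 : BlkD.treeX d21_21_5_5 (BlkD.exF 5 5 x21_21_5_5) t21_21_5_5_59
    (BlkD.upd (BlkD.upd (BlkD.upd (fun _ => 0) 0 3) 0 4) 1 9)
    (BlkD.upd (BlkD.upd (BlkD.upd (BlkD.upd (fun _ => 21) 0 5) 2 5) 0 4) 1 17) = true := by
  decide +kernel

lemma n21_21_5_5_59 {n : ℕ} (hn : 5 ≤ n) : BlkD.NdX d21_21_5_5 (BlkD.exF 5 5 x21_21_5_5) n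
    (BlkD.upd (BlkD.upd (BlkD.upd (fun _ => 0) 0 3) 0 4) 1 9)
    (BlkD.upd (BlkD.upd (BlkD.upd (BlkD.upd (fun _ => 21) 0 5) 2 5) 0 4) 1 17) :=
  BlkD.NdX.tree s21_21_5_5_59 ok21_21_5_5 (by decide) hn

/-- a subtree -/
def t21_21_5_5_60 : BlkD.Tr :=
  .E 0

lemma s21_21_5_5_60 : BlkD.treeX d21_21_5_5 (BlkD.exF 5 5 x21_21_5_5) t21_21_5_5_60
    (BlkD.upd (BlkD.upd (BlkD.upd (fun _ => 0) 0 3) 0 4) 1 18)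
    (BlkD.upd (BlkD.upd (BlkD.upd (fun _ => 21) 0 5) 2 5) 0 4) = true := by
  decide +kernel

lemma n21_21_5_5_60 {n : ℕ} (hn : 5 ≤ n) : BlkD.NdX d21_21_5_5 (BlkD.exF 5 5 x21_21_5_5) n
    (BlkD.upd (BlkD.upd (BlkD.upd (fun _ => 0) 0 3) 0 4) 1 18)
    (BlkD.upd (BlkD.upd (BlkD.upd (fun _ => 21) 0 5) 2 5) 0 4) :=
  BlkD.NdX.tree s21_21_5_5_60 ok21_21_5_5 (by decide) hn

/-- a subtree -/
def t21_21_5_5_61 : BlkD.Tr :=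
  .S 1 16 (.S 1 8 (.S 1 4 (.S 1 2 (.S 1 1 (.S 1 0 (.S 2 2 (.L 6 6 [4, 4, 5, 5, 5, 6] [0, 0, 0, 0,
    0, 0] [] 100000 24000 24000 1160000 0 20000 0 60000 60000 20000 20000) (.S 2 4 (.S 2 3 (.L 6 6
    [4, 4, 5, 5, 5, 6] [0, 0, 0, 0, 0, 0] [] 100000 20000 20000 1192308 0 7692 0 53846 46154 30769
    23077) (.S 3 12 (.S 3 6 (.S 3 3 (.S 3 1 (.L 6 6 [4, 4, 5, 5, 5, 6] [0, 0, 0, 0, 0, 0] [] 100000
    40000 40000 1000000 0 0 0 0 0 0 20000) (.S 3 2 (.L 6 6 [4, 4, 5, 5, 5, 6] [0, 0, 0, 0, 0, 0]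
    [42, 30, 18, 0, 0, 0] 100000 20000 19999 1133333 0 0 0 33333 33333 33333 33333) (.L 4 4 [4, 5,
    6, 7, 8, 9] [0, 0, 0, 0, 0, 0] [64, 54, 42, 30, 0, 0] 100000 20000 19999 1166666 0 16667 0
    50000 50000 50000 50000))) (.E 2)) (.E 1)) (.E 1))) (.L 4 4 [4, 5, 6, 7, 8, 9] [0, 0, 0, 0, 0,
    0] [] 100000 20000 20000 1125000 0 0 0 75000 25000 50000 25000))) (.S 2 2 (.L 4 4 [4, 5, 6, 7,
    8, 9] [22, 10, 0, 0, 0, 0] [] 100000 30862 30862 1113246 0 31126 31126 62252 77483 15232 25828)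
    (.L 6 6 [4, 4, 5, 5, 5, 6] [22, 10, 0, 0, 0, 0] [] 100000 20000 19999 1195122 12195 2439 17073
    87805 87805 24390 29268))) (.S 2 2 (.S 2 1 (.L 6 6 [4, 4, 5, 5, 5, 6] [46, 34, 22, 0, 0, 0] []
    100000 62500 62500 800000 0 100000 0 100000 50000 0 25000) (.S 3 12 (.S 3 6 (.S 3 3 (.L 6 6 [4,
    4, 5, 5, 5, 6] [46, 34, 22, 0, 0, 0] [] 100000 60000 59999 900000 0 100000 0 100000 100000 0
    33333) (.S 3 5 (.S 3 4 (.L 6 6 [4, 4, 5, 5, 5, 6] [46, 34, 22, 0, 0, 0] [68, 62, 52, 40, 28, 0]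
    100000 42857 42856 1044643 0 61607 8929 70536 70536 8929 25000) (.L 6 6 [4, 4, 5, 5, 5, 6] [46,
    34, 22, 0, 0, 0] [83, 80, 74, 64, 52, 40] 100000 50000 50000 1025000 0 75000 0 75000 75000 0
    25000)) (.L 6 6 [4, 4, 5, 5, 5, 6] [46, 34, 22, 0, 0, 0] [100, 97, 94, 88, 78, 66] 100000
    150000 0 0 0 0 125000 250000 0 0 0))) (.E 1)) (.E 1))) (.S 2 4 (.S 2 3 (.S 3 11 (.S 3 5 (.S 3 2
    (.L 6 6 [4, 4, 5, 5, 5, 6] [46, 34, 22, 0, 0, 0] [] 100000 20656 20656 1140166 0 8197 56557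
    40984 70492 13115 27049) (.S 3 4 (.L 6 6 [4, 4, 5, 5, 5, 6] [46, 34, 22, 0, 0, 0] [] 100000
    20000 20000 1198388 0 17742 53226 41935 53226 53226 25806) (.E 2))) (.E 1)) (.E 1)) (.L 6 6 [4,
    4, 5, 5, 5, 6] [46, 34, 22, 0, 0, 0] [] 100000 20000 19999 1183333 0 0 100000 16667 0 83333
    33333)) (.L 6 6 [4, 4, 5, 5, 5, 6] [46, 34, 22, 0, 0, 0] [] 100000 33334 33334 1100000 0 0
    100000 50000 0 50000 33333)))) (.E 0)) (.E 0)) (.E 0)) (.E 0)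

lemma s21_21_5_5_61 : BlkD.treeX d21_21_5_5 (BlkD.exF 5 5 x21_21_5_5) t21_21_5_5_61
    (BlkD.upd (BlkD.upd (fun _ => 0) 0 3) 0 5)
    (BlkD.upd (BlkD.upd (fun _ => 21) 0 5) 2 5) = true := by
  decide +kernel

lemma n21_21_5_5_61 {n : ℕ} (hn : 5 ≤ n) : BlkD.NdX d21_21_5_5 (BlkD.exF 5 5 x21_21_5_5) n
    (BlkD.upd (BlkD.upd (fun _ => 0) 0 3) 0 5)
    (BlkD.upd (BlkD.upd (fun _ => 21) 0 5) 2 5) :=
  BlkD.NdX.tree s21_21_5_5_61 ok21_21_5_5 (by decide) hn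

/-- a subtree -/
def t21_21_5_5_62 : BlkD.Tr :=
  .E 1

lemma s21_21_5_5_62 : BlkD.treeX d21_21_5_5 (BlkD.exF 5 5 x21_21_5_5) t21_21_5_5_62
    (BlkD.upd (fun _ => 0) 2 6)
    (BlkD.upd (fun _ => 21) 0 5) = true := by
  decide +kernel

lemma n21_21_5_5_62 {n : ℕ} (hn : 5 ≤ n) : BlkD.NdX d21_21_5_5 (BlkD.exF 5 5 x21_21_5_5) n
    (BlkD.upd (fun _ => 0) 2 6)
    (BlkD.upd (fun _ => 21) 0 5) :=
  BlkD.NdX.tree s21_21_5_5_62 ok21_21_5_5 (by decide) hn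

/-- a subtree -/
def t21_21_5_5_63 : BlkD.Tr :=
  .E 0

lemma s21_21_5_5_63 : BlkD.treeX d21_21_5_5 (BlkD.exF 5 5 x21_21_5_5) t21_21_5_5_63
    (BlkD.upd (fun _ => 0) 0 6)
    (fun _ => 21) = true := by
  decide +kernel

lemma n21_21_5_5_63 {n : ℕ} (hn : 5 ≤ n) : BlkD.NdX d21_21_5_5 (BlkD.exF 5 5 x21_21_5_5) n
    (BlkD.upd (fun _ => 0) 0 6)
    (fun _ => 21) :=
  BlkD.NdX.tree s21_21_5_5_63 ok21_21_5_5 (by decide) hn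

end BlkC

end Pool.Agent.Lib.MP_f04ccf_co
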