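import Pool.Agent.Lib.MP_f04ccf_co.M.BlkX21_21_5_5d
import Pool.Agent.Lib.MP_f04ccf_co.M.BlkX21_21_5_5p1
import Pool.Agent.Lib.MP_f04ccf_co.M.BlkX21_21_5_5p2
import Pool.Agent.Lib.MP_f04ccf_co.M.BlkX21_21_5_5p3
import Pool.Agent.Lib.MP_f04ccf_co.M.BlkX21_21_5_5e1

/-!
MP_f04ccf_co, block certificate with exceptions, `R = 21`, `H = 21`, the pair `(5, 5)` (data of helper99 / helper13,
generated by helper8, genx.py): the parts together.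
-/

set_option autoImplicit false
set_option maxRecDepth 100000

namespace Pool.Agent.Lib.MP_f04ccf_co

namespace BlkC

lemma x21_21_5_5_5 : NoNd ((21 : ℕ) : ℤ) ((21 : ℕ) : ℤ) 5 5 5 fun x y z w _ _ =>
    BlkD.exF 5 5 x21_21_5_5 x y z w := by
  refine NoNd.of_E (by norm_num) (by norm_num) fun e he => ?_
  simp only [x21_21_5_5, List.mem_cons, List.not_mem_nil, or_false] at he
  rcases he with rfl | rfl | rfl | rfl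
  · exact e21_21_5_5_5_0
  · exact e21_21_5_5_5_1
  · exact e21_21_5_5_5_2
  · exact e21_21_5_5_5_3

lemma x21_21_5_5_6 : NoNd ((21 : ℕ) : ℤ) ((21 : ℕ) : ℤ) 6 5 5 fun x y z w _ _ =>
    BlkD.exF 5 5 x21_21_5_5 x y z w := by
  refine NoNd.of_E (by norm_num) (by norm_num) fun e he => ?_
  simp only [x21_21_5_5, List.mem_cons, List.not_mem_nil, or_false] at he
  rcases he with rfl | rfl | rfl | rfl
  · exact e21_21_5_5_6_0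
  · exact e21_21_5_5_6_1
  · exact e21_21_5_5_6_2
  · exact e21_21_5_5_6_3

lemma x21_21_5_5_7 : NoNd ((21 : ℕ) : ℤ) ((21 : ℕ) : ℤ) 7 5 5 fun x y z w _ _ =>
    BlkD.exF 5 5 x21_21_5_5 x y z w := by
  refine NoNd.of_E (by norm_num) (by norm_num) fun e he => ?_
  simp only [x21_21_5_5, List.mem_cons, List.not_mem_nil, or_false] at he
  rcases he with rfl | rfl | rfl | rfl
  · exact e21_21_5_5_7_0
  · exact e21_21_5_5_7_1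
  · exact e21_21_5_5_7_2
  · exact e21_21_5_5_7_3

lemma x21_21_5_5_8 : NoNd ((21 : ℕ) : ℤ) ((21 : ℕ) : ℤ) 8 5 5 fun x y z w _ _ =>
    BlkD.exF 5 5 x21_21_5_5 x y z w := by
  refine NoNd.of_E (by norm_num) (by norm_num) fun e he => ?_
  simp only [x21_21_5_5, List.mem_cons, List.not_mem_nil, or_false] at he
  rcases he with rfl | rfl | rfl | rfl
  · exact e21_21_5_5_8_0
  · exact e21_21_5_5_8_1
  · exact e21_21_5_5_8_2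
  · exact e21_21_5_5_8_3

lemma x21_21_5_5_9 : NoNd ((21 : ℕ) : ℤ) ((21 : ℕ) : ℤ) 9 5 5 fun x y z w _ _ =>
    BlkD.exF 5 5 x21_21_5_5 x y z w := by
  refine NoNd.of_E (by norm_num) (by norm_num) fun e he => ?_
  simp only [x21_21_5_5, List.mem_cons, List.not_mem_nil, or_false] at he
  rcases he with rfl | rfl | rfl | rfl
  · exact e21_21_5_5_9_0
  · exact e21_21_5_5_9_1
  · exact e21_21_5_5_9_2
  · exact e21_21_5_5_9_3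

lemma x21_21_5_5_10 : NoNd ((21 : ℕ) : ℤ) ((21 : ℕ) : ℤ) 10 5 5 fun x y z w _ _ =>
    BlkD.exF 5 5 x21_21_5_5 x y z w := by
  refine NoNd.of_E (by norm_num) (by norm_num) fun e he => ?_
  simp only [x21_21_5_5, List.mem_cons, List.not_mem_nil, or_false] at he
  rcases he with rfl | rfl | rfl | rfl
  · exact e21_21_5_5_10_0
  · exact e21_21_5_5_10_1
  · exact e21_21_5_5_10_2
  · exact e21_21_5_5_10_3

lemma r21_21_5_5 {n : ℕ} (hn : 5 ≤ n) : BlkD.NdX d21_21_5_5 (BlkD.exF 5 5 x21_21_5_5) n (fun _ => 0) (fun _ => 21) :=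
  (BlkD.NdX.sp 0 5
  (BlkD.NdX.sp 2 5
  (BlkD.NdX.sp 0 2
  (BlkD.NdX.sp 0 1
  (BlkD.NdX.sp 0 0
  (n21_21_5_5_0 hn)
  (BlkD.NdX.sp 1 20
  (BlkD.NdX.sp 1 10
  (BlkD.NdX.sp 1 5
  (BlkD.NdX.sp 1 2
  (n21_21_5_5_1 hn)
  (BlkD.NdX.sp 1 4
  (n21_21_5_5_2 hn)
  (n21_21_5_5_3 hn)))
  (BlkD.NdX.sp 1 8
  (BlkD.NdX.sp 1 7
  (BlkD.NdX.sp 1 6
  (n21_21_5_5_4 hn)
  (n21_21_5_5_5 hn))
  (n21_21_5_5_6 hn))
  (n21_21_5_5_7 hn)))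
  (n21_21_5_5_8 hn))
  (n21_21_5_5_9 hn)))
  (BlkD.NdX.sp 1 19
  (BlkD.NdX.sp 1 9
  (BlkD.NdX.sp 1 4
  (BlkD.NdX.sp 1 2
  (n21_21_5_5_10 hn)
  (BlkD.NdX.sp 1 3
  (BlkD.NdX.sp 2 2
  (n21_21_5_5_11 hn)
  (n21_21_5_5_12 hn))
  (BlkD.NdX.sp 2 2
  (BlkD.NdX.sp 2 1
  (n21_21_5_5_13 hn)
  (BlkD.NdX.sp 3 13
  (BlkD.NdX.sp 3 6
  (BlkD.NdX.sp 3 3
  (n21_21_5_5_14 hn)
  (n21_21_5_5_15 hn))
  (n21_21_5_5_16 hn))
  (n21_21_5_5_17 hn)))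
  (BlkD.NdX.sp 2 4
  (BlkD.NdX.sp 2 3
  (n21_21_5_5_18 hn)
  (n21_21_5_5_19 hn))
  (n21_21_5_5_20 hn)))))
  (BlkD.NdX.sp 1 7
  (BlkD.NdX.sp 1 6
  (BlkD.NdX.sp 1 5
  (BlkD.NdX.sp 2 2
  (BlkD.NdX.sp 2 1
  (n21_21_5_5_21 hn)
  (BlkD.NdX.sp 3 12
  (BlkD.NdX.sp 3 6
  (BlkD.NdX.sp 3 3
  (n21_21_5_5_22 hn)
  (n21_21_5_5_23 hn))
  (n21_21_5_5_24 hn))
  (n21_21_5_5_25 hn)))
  (BlkD.NdX.sp 2 4
  (BlkD.NdX.sp 2 3
  (n21_21_5_5_26 hn)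
  (n21_21_5_5_27 hn))
  (n21_21_5_5_28 hn)))
  (BlkD.NdX.sp 2 2
  (n21_21_5_5_29 hn)
  (n21_21_5_5_30 hn)))
  (n21_21_5_5_31 hn))
  (n21_21_5_5_32 hn)))
  (n21_21_5_5_33 hn))
  (n21_21_5_5_34 hn)))
  (BlkD.NdX.sp 0 4
  (BlkD.NdX.sp 0 3
  (BlkD.NdX.sp 1 18
  (BlkD.NdX.sp 1 9
  (BlkD.NdX.sp 1 4
  (BlkD.NdX.sp 1 2
  (BlkD.NdX.sp 1 1
  (n21_21_5_5_35 hn)
  (BlkD.NdX.sp 2 2
  (n21_21_5_5_36 hn)
  (n21_21_5_5_37 hn)))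
  (BlkD.NdX.sp 1 3
  (BlkD.NdX.sp 2 2
  (n21_21_5_5_38 hn)
  (BlkD.NdX.sp 2 4
  (n21_21_5_5_39 hn)
  (n21_21_5_5_40 hn)))
  (BlkD.NdX.sp 2 2
  (n21_21_5_5_41 hn)
  (BlkD.NdX.sp 2 4
  (BlkD.NdX.sp 2 3
  (n21_21_5_5_42 hn)
  (n21_21_5_5_43 hn))
  (n21_21_5_5_44 hn)))))
  (BlkD.NdX.sp 1 7
  (BlkD.NdX.sp 1 6
  (BlkD.NdX.sp 1 5
  (BlkD.NdX.sp 2 2
  (n21_21_5_5_45 hn)
  (n21_21_5_5_46 hn))
  (n21_21_5_5_47 hn))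
  (n21_21_5_5_48 hn))
  (n21_21_5_5_49 hn)))
  (n21_21_5_5_50 hn))
  (n21_21_5_5_51 hn))
  (BlkD.NdX.sp 1 17
  (BlkD.NdX.sp 1 8
  (BlkD.NdX.sp 1 4
  (BlkD.NdX.sp 1 2
  (BlkD.NdX.sp 1 1
  (n21_21_5_5_52 hn)
  (BlkD.NdX.sp 2 2
  (n21_21_5_5_53 hn)
  (n21_21_5_5_54 hn)))
  (BlkD.NdX.sp 1 3
  (BlkD.NdX.sp 2 2
  (n21_21_5_5_55 hn)
  (n21_21_5_5_56 hn))
  (n21_21_5_5_57 hn)))
  (n21_21_5_5_58 hn))
  (n21_21_5_5_59 hn))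
  (n21_21_5_5_60 hn)))
  (n21_21_5_5_61 hn)))
  (n21_21_5_5_62 hn))
  (n21_21_5_5_63 hn))

/-- **`R = 21`, `H = 21`, the pair `(5, 5)`** -/
theorem pr21_21_5_5 {n : ℕ} (hn : 5 ≤ n) : NoPr ((21 : ℕ) : ℤ) ((21 : ℕ) : ℤ) n 5 5 := by
  by_cases h : n < 11
  · interval_cases n
    · exact BlkD.NdX.pr (r21_21_5_5 (by norm_num)) (by decide) (by decide) x21_21_5_5_5 rfl rfl rfl rfl
    · exact BlkD.NdX.pr (r21_21_5_5 (by norm_num)) (by decide) (by decide) x21_21_5_5_6 rfl rfl rfl rfl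
    · exact BlkD.NdX.pr (r21_21_5_5 (by norm_num)) (by decide) (by decide) x21_21_5_5_7 rfl rfl rfl rfl
    · exact BlkD.NdX.pr (r21_21_5_5 (by norm_num)) (by decide) (by decide) x21_21_5_5_8 rfl rfl rfl rfl
    · exact BlkD.NdX.pr (r21_21_5_5 (by norm_num)) (by decide) (by decide) x21_21_5_5_9 rfl rfl rfl rfl
    · exact BlkD.NdX.pr (r21_21_5_5 (by norm_num)) (by decide) (by decide) x21_21_5_5_10 rfl rfl rfl rfl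
  · exact NoPr.big (by omega) (by omega)

end BlkC

end Pool.Agent.Lib.MP_f04ccf_co
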