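import Pool.Agent.Lib.MP_f04ccf_co.M.BlkX21_21_6_6d

/-!
MP_f04ccf_co, block certificate with exceptions, `R = 21`, `H = 21`, the pair `(6, 6)` (data of helper99 / helper13,
generated by helper8, genx.py): part 1 of 1.
-/

set_option autoImplicit false
set_option maxRecDepth 100000

namespace Pool.Agent.Lib.MP_f04ccf_co

namespace BlkC

/-- a subtree -/
def t21_21_6_6_0 : BlkD.Tr :=
  .S 0 0 (.L 7 7 [4, 4, 4, 4, 21, 21, 21] [] [] 100000 44445 44445 1306669 66667 0 73333 53333 0 0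
    26667) (.S 1 10 (.S 1 5 (.S 1 2 (.L 7 7 [4, 4, 4, 4, 21, 21, 21] [] [] 100000 44445 44445
    1306669 66667 0 73333 53333 0 0 26667) (.L 7 7 [4, 4, 4, 4, 21, 21, 21] [] [] 100000 44445
    44445 1306669 66667 0 73333 53333 0 0 26667)) (.S 1 8 (.L 7 7 [4, 4, 4, 4, 21, 21, 21] [] []
    100000 44445 44445 1306669 66667 0 73333 53333 0 0 26667) (.L 7 7 [4, 4, 4, 4, 21, 21, 21] []
    [] 100000 44445 44445 1306669 66667 0 73333 53333 0 0 26667))) (.L 7 7 [4, 4, 4, 4, 21, 21, 21]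
    [] [] 100000 44445 44445 1306669 66667 0 73333 53333 0 0 26667))

lemma s21_21_6_6_0 : BlkD.treeX d21_21_6_6 (BlkD.exF 6 6 x21_21_6_6) t21_21_6_6_0
    (fun _ => 0)
    (BlkD.upd (BlkD.upd (BlkD.upd (BlkD.upd (fun _ => 21) 0 6) 2 6) 0 3) 0 1) = true := by
  decide +kernel

lemma n21_21_6_6_0 {n : ℕ} (hn : 5 ≤ n) : BlkD.NdX d21_21_6_6 (BlkD.exF 6 6 x21_21_6_6) n
    (fun _ => 0)
    (BlkD.upd (BlkD.upd (BlkD.upd (BlkD.upd (fun _ => 21) 0 6) 2 6) 0 3) 0 1) :=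
  BlkD.NdX.tree s21_21_6_6_0 ok21_21_6_6 (by decide) hn

/-- a subtree -/
def t21_21_6_6_1 : BlkD.Tr :=
  .S 1 2 (.L 7 7 [4, 4, 4, 4, 21, 21, 21] [] [] 100000 29488 29488 1300000 0 21154 21154 57692 0
    11538 5769) (.S 1 3 (.L 7 7 [4, 4, 4, 4, 21, 21, 21] [54, 44, 32, 18, 0, 0] [] 100000 29259
    29258 1360002 13333 13333 26667 73333 0 12222 6667) (.S 2 3 (.L 7 7 [4, 4, 4, 4, 21, 21, 21]
    [74, 64, 54, 42, 28, 0] [] 100000 30303 30302 1390909 18182 18182 36364 63636 0 9091 9091) (.L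
    6 6 [4, 4, 4, 5, 21, 21, 21] [74, 64, 54, 42, 28, 0] [] 100000 26667 26667 1400000 25000 0
    50000 75000 0 20000 10000)))

lemma s21_21_6_6_1 : BlkD.treeX d21_21_6_6 (BlkD.exF 6 6 x21_21_6_6) t21_21_6_6_1
    (BlkD.upd (fun _ => 0) 0 2)
    (BlkD.upd (BlkD.upd (BlkD.upd (BlkD.upd (BlkD.upd (BlkD.upd (BlkD.upd (fun _ => 21) 0 6) 2 6) 0 3) 0 2) 1 19) 1 9) 1 4) = true := by
  decide +kernel

lemma n21_21_6_6_1 {n : ℕ} (hn : 5 ≤ n) : BlkD.NdX d21_21_6_6 (BlkD.exF 6 6 x21_21_6_6) n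
    (BlkD.upd (fun _ => 0) 0 2)
    (BlkD.upd (BlkD.upd (BlkD.upd (BlkD.upd (BlkD.upd (BlkD.upd (BlkD.upd (fun _ => 21) 0 6) 2 6) 0 3) 0 2) 1 19) 1 9) 1 4) :=
  BlkD.NdX.tree s21_21_6_6_1 ok21_21_6_6 (by decide) hn

/-- a subtree -/
def t21_21_6_6_2 : BlkD.Tr :=
  .S 2 3 (.S 2 1 (.L 6 6 [4, 4, 4, 5, 21, 21, 21] [90, 86, 76, 66, 54, 40] [] 100000 47826 47825
    1186958 34783 60870 43478 69565 0 0 0) (.S 2 2 (.L 6 6 [4, 4, 4, 5, 21, 21, 21] [90, 86, 76,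
    66, 54, 40] [] 100000 50000 50000 1325000 25000 50000 50000 50000 0 0 0) (.S 3 11 (.S 3 5 (.L 6
    6 [4, 4, 4, 5, 21, 21, 21] [90, 86, 76, 66, 54, 40] [] 100000 32836 32835 1395525 23881 16418
    28358 26866 0 1493 746) (.S 3 8 (.S 3 7 (.S 3 6 (.S 4 5 (.S 4 2 (.L 6 6 [4, 4, 4, 5, 21, 21,
    21] [66, 54, 40, 0, 0, 0] [117, 116, 112, 102, 92, 80] 100000 45455 45455 1354546 27273 27273
    54545 54545 0 0 18182) (.L 6 6 [4, 4, 4, 5, 21, 21, 21] [90, 86, 76, 66, 54, 40] [117, 116,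
    112, 102, 92, 80] 100000 26798 18955 1296079 1961 1961 107843 80392 0 19608 9804)) (.E 2)) (.L
    7 7 [4, 4, 4, 4, 21, 21, 21] [90, 86, 76, 66, 54, 40] [136, 135, 134, 130, 120, 110] 100000
    41667 41667 1350000 25000 25000 50000 75000 0 0 25000)) (.E 1)) (.E 1))) (.E 1)))) (.S 2 5 (.S
    2 4 (.S 3 10 (.S 3 5 (.S 3 2 (.L 7 7 [4, 4, 4, 4, 21, 21, 21] [90, 86, 76, 66, 54, 40] []
    100000 33333 33332 1300000 0 0 0 0 0 0 0) (.S 3 4 (.L 7 7 [4, 4, 4, 4, 21, 21, 21] [90, 86, 76,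
    66, 54, 40] [] 100000 33334 33334 1390908 36364 0 36364 36364 0 0 18182) (.S 4 5 (.S 4 2 (.L 7
    7 [4, 4, 4, 4, 21, 21, 21] [66, 54, 40, 0, 0, 0] [110, 106, 96, 86, 74, 60] 100000 27273 27272
    1399999 45455 0 63636 36364 0 18182 9091) (.L 7 7 [4, 4, 4, 4, 21, 21, 21] [90, 86, 76, 66, 54,
    40] [110, 106, 96, 86, 74, 60] 100000 37706 1 1173770 3279 3279 137705 72131 0 16393 8197)) (.E
    2)))) (.L 7 7 [4, 4, 4, 4, 21, 21, 21] [90, 86, 76, 66, 54, 40] [] 100000 33333 33332 1300000 0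
    0 100000 100000 0 0 0)) (.E 1)) (.L 7 7 [4, 4, 4, 4, 21, 21, 21] [90, 86, 76, 66, 54, 40] []
    100000 28087 28087 1408334 30556 0 55556 50000 0 15741 27778)) (.L 7 7 [4, 4, 4, 4, 21, 21, 21]
    [90, 86, 76, 66, 54, 40] [] 100000 12281 12281 1373685 31579 0 47368 31579 0 63158 31579))

lemma s21_21_6_6_2 : BlkD.treeX d21_21_6_6 (BlkD.exF 6 6 x21_21_6_6) t21_21_6_6_2
    (BlkD.upd (BlkD.upd (fun _ => 0) 0 2) 1 5)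
    (BlkD.upd (BlkD.upd (BlkD.upd (BlkD.upd (BlkD.upd (BlkD.upd (BlkD.upd (BlkD.upd (BlkD.upd (fun _ => 21) 0 6) 2 6) 0 3) 0 2) 1 19) 1 9) 1 7) 1 6) 1 5) = true := by
  decide +kernel

lemma n21_21_6_6_2 {n : ℕ} (hn : 5 ≤ n) : BlkD.NdX d21_21_6_6 (BlkD.exF 6 6 x21_21_6_6) n
    (BlkD.upd (BlkD.upd (fun _ => 0) 0 2) 1 5)
    (BlkD.upd (BlkD.upd (BlkD.upd (BlkD.upd (BlkD.upd (BlkD.upd (BlkD.upd (BlkD.upd (BlkD.upd (fun _ => 21) 0 6) 2 6) 0 3) 0 2) 1 19) 1 9) 1 7) 1 6) 1 5) :=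
  BlkD.NdX.tree s21_21_6_6_2 ok21_21_6_6 (by decide) hn

/-- a subtree -/
def t21_21_6_6_3 : BlkD.Tr :=
  .S 2 3 (.S 2 1 (.L 7 7 [4, 4, 4, 4, 21, 21, 21] [105, 104, 100, 90, 80, 68] [] 100000 49999 49998
    1175004 31944 58333 61111 70833 0 0 4167) (.S 2 2 (.L 7 7 [4, 4, 4, 4, 21, 21, 21] [105, 104,
    100, 90, 80, 68] [] 100000 43111 43110 1350000 20000 50000 50000 60000 6000 0 14667) (.S 3 10
    (.S 3 5 (.S 3 2 (.L 7 7 [4, 4, 4, 4, 21, 21, 21] [105, 104, 100, 90, 80, 68] [] 100000 33333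
    33332 1300000 0 0 0 0 0 0 0) (.S 3 4 (.L 7 7 [4, 4, 4, 4, 21, 21, 21] [105, 104, 100, 90, 80,
    68] [] 100000 33334 33334 1376923 30769 15385 46154 30769 0 0 15385) (.S 4 6 (.S 4 3 (.L 7 7
    [4, 4, 4, 4, 21, 21, 21] [90, 80, 68, 54, 0, 0] [100, 96, 86, 76, 64, 50] 100000 32993 32992
    1395920 40816 14286 53061 28571 0 1020 6122) (.L 7 7 [4, 4, 4, 4, 21, 21, 21] [105, 104, 100,
    90, 80, 68] [100, 96, 86, 76, 64, 50] 100000 27133 20156 1297674 2326 2326 106977 79070 0 18605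
    9302)) (.E 2)))) (.S 3 8 (.S 3 7 (.S 3 6 (.S 4 6 (.S 4 3 (.S 4 1 (.L 7 7 [4, 4, 4, 4, 21, 21,
    21] [68, 54, 0, 0, 0, 0] [117, 116, 112, 102, 92, 80] 100000 4762 4761 1471430 42857 0 71429
    28571 28571 28571 14286) (.S 4 2 (.L 7 7 [4, 4, 4, 4, 21, 21, 21] [80, 68, 54, 0, 0, 0] [117,
    116, 112, 102, 92, 80] 100000 25333 25332 1412000 40000 0 80000 48000 0 12000 20000) (.L 7 7
    [4, 4, 4, 4, 21, 21, 21] [90, 80, 68, 54, 0, 0] [117, 116, 112, 102, 92, 80] 100000 33333 33332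
    1380001 13333 0 100000 80000 0 20000 0))) (.L 7 7 [4, 4, 4, 4, 21, 21, 21] [105, 104, 100, 90,
    80, 68] [117, 116, 112, 102, 92, 80] 100000 35088 29825 1278948 0 21053 105263 42105 0 5263 0))
    (.E 2)) (.S 4 6 (.S 4 3 (.L 7 7 [4, 4, 4, 4, 21, 21, 21] [90, 80, 68, 54, 0, 0] [136, 135, 134,
    130, 120, 110] 100000 116666 116665 1066668 83333 0 100000 100000 0 0 0) (.L 7 7 [4, 4, 4, 4,
    21, 21, 21] [105, 104, 100, 90, 80, 68] [136, 135, 134, 130, 120, 110] 100000 233333 0 2 0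
    100000 333333 133333 0 0 0)) (.E 2))) (.E 1)) (.E 1))) (.E 1)))) (.S 2 5 (.S 2 4 (.S 3 9 (.S 3
    4 (.S 3 2 (.L 7 7 [4, 4, 4, 4, 21, 21, 21] [105, 104, 100, 90, 80, 68] [] 100000 33334 33334
    1311764 29412 29412 58824 58824 0 0 5882) (.S 3 3 (.L 7 7 [4, 4, 4, 4, 21, 21, 21] [105, 104,
    100, 90, 80, 68] [66, 56, 44, 30, 0, 0] 100000 33333 33332 1366668 44444 0 44444 44444 0 0
    11111) (.S 4 6 (.S 4 3 (.L 7 7 [4, 4, 4, 4, 21, 21, 21] [90, 80, 68, 54, 0, 0] [90, 80, 70, 58,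
    44, 0] 100000 30894 30893 1395123 43902 7317 51220 43902 0 7317 6098) (.L 7 7 [4, 4, 4, 4, 21,
    21, 21] [105, 104, 100, 90, 80, 68] [90, 80, 70, 58, 44, 0] 100000 40000 20000 1220000 5000
    5000 120000 65000 0 0 0)) (.E 2)))) (.L 7 7 [4, 4, 4, 4, 21, 21, 21] [105, 104, 100, 90, 80,
    68] [] 100000 4762 4762 1471431 28571 0 57143 42857 14286 42857 28571)) (.E 1)) (.S 3 8 (.S 3 4
    (.S 3 2 (.L 7 7 [4, 4, 4, 4, 21, 21, 21] [105, 104, 100, 90, 80, 68] [] 100000 29861 29860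
    1350002 37500 0 75000 47917 0 10417 5208) (.L 7 7 [4, 4, 4, 4, 21, 21, 21] [105, 104, 100, 90,
    80, 68] [] 100000 6349 6349 1461907 28571 0 52381 50000 14286 52381 33333)) (.E 1)) (.E 1)))
    (.L 7 7 [4, 4, 4, 4, 21, 21, 21] [105, 104, 100, 90, 80, 68] [] 100000 7693 7693 1400002 38462
    0 61538 23077 15385 53846 23077))

lemma s21_21_6_6_3 : BlkD.treeX d21_21_6_6 (BlkD.exF 6 6 x21_21_6_6) t21_21_6_6_3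
    (BlkD.upd (BlkD.upd (BlkD.upd (fun _ => 0) 0 2) 1 5) 1 6)
    (BlkD.upd (BlkD.upd (BlkD.upd (BlkD.upd (BlkD.upd (BlkD.upd (BlkD.upd (BlkD.upd (fun _ => 21) 0 6) 2 6) 0 3) 0 2) 1 19) 1 9) 1 7) 1 6) = true := by
  decide +kernel

lemma n21_21_6_6_3 {n : ℕ} (hn : 5 ≤ n) : BlkD.NdX d21_21_6_6 (BlkD.exF 6 6 x21_21_6_6) n
    (BlkD.upd (BlkD.upd (BlkD.upd (fun _ => 0) 0 2) 1 5) 1 6)
    (BlkD.upd (BlkD.upd (BlkD.upd (BlkD.upd (BlkD.upd (BlkD.upd (BlkD.upd (BlkD.upd (fun _ => 21) 0 6) 2 6) 0 3) 0 2) 1 19) 1 9) 1 7) 1 6) :=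
  BlkD.NdX.tree s21_21_6_6_3 ok21_21_6_6 (by decide) hn

/-- a subtree -/
def t21_21_6_6_4 : BlkD.Tr :=
  .S 2 3 (.S 2 1 (.L 7 7 [4, 4, 4, 4, 21, 21, 21] [122, 121, 120, 116, 106, 96] [] 100000 51142
    51142 1169863 30137 58904 63014 73973 0 0 2740) (.S 2 2 (.L 7 7 [4, 4, 4, 4, 21, 21, 21] [122,
    121, 120, 116, 106, 96] [] 100000 62923 62923 1285391 23596 50562 70787 75281 5618 0 0) (.S 3 9
    (.S 3 4 (.L 7 7 [4, 4, 4, 4, 21, 21, 21] [122, 121, 120, 116, 106, 96] [] 100000 33333 33332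
    1385715 33333 21429 50000 35714 0 0 16667) (.S 3 7 (.S 3 6 (.S 3 5 (.S 4 7 (.S 4 3 (.L 7 7 [4,
    4, 4, 4, 21, 21, 21] [106, 96, 84, 70, 0, 0] [100, 96, 86, 76, 64, 50] 100000 22223 22223
    1416666 50000 0 66667 41667 16667 8333 16667) (.L 7 7 [4, 4, 4, 4, 21, 21, 21] [122, 121, 120,
    116, 106, 96] [100, 96, 86, 76, 64, 50] 100000 27083 27082 1400000 0 6250 100000 81250 0 18750
    9375)) (.E 2)) (.S 4 7 (.S 4 3 (.L 6 6 [4, 4, 4, 5, 21, 21, 21] [106, 96, 84, 70, 0, 0] [117,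
    116, 112, 102, 92, 80] 100000 100000 100000 1100000 100000 0 100000 50000 0 0 0) (.L 6 6 [4, 4,
    4, 5, 21, 21, 21] [122, 121, 120, 116, 106, 96] [117, 116, 112, 102, 92, 80] 100000 83333 83332
    1150000 0 50000 100000 100000 0 0 0)) (.E 2))) (.E 2)) (.E 1))) (.E 1)))) (.S 2 5 (.S 2 4 (.S 3
    8 (.S 3 4 (.L 7 7 [4, 4, 4, 4, 21, 21, 21] [122, 121, 120, 116, 106, 96] [] 100000 28889 28888
    1411110 46667 2222 48889 48889 2222 8889 4444) (.L 7 7 [4, 4, 4, 4, 21, 21, 21] [122, 121, 120,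
    116, 106, 96] [] 100000 0 0 0 0 0 0 0 0 0 0)) (.E 1)) (.L 7 7 [4, 4, 4, 4, 21, 21, 21] [122,
    121, 120, 116, 106, 96] [] 100000 29480 29480 1368788 47399 0 53179 41618 0 11561 15607)) (.L 7
    7 [4, 4, 4, 4, 21, 21, 21] [122, 121, 120, 116, 106, 96] [] 100000 100000 100000 1100000 100000
    0 100000 0 0 0 0))

lemma s21_21_6_6_4 : BlkD.treeX d21_21_6_6 (BlkD.exF 6 6 x21_21_6_6) t21_21_6_6_4
    (BlkD.upd (BlkD.upd (BlkD.upd (fun _ => 0) 0 2) 1 5) 1 7)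
    (BlkD.upd (BlkD.upd (BlkD.upd (BlkD.upd (BlkD.upd (BlkD.upd (BlkD.upd (fun _ => 21) 0 6) 2 6) 0 3) 0 2) 1 19) 1 9) 1 7) = true := by
  decide +kernel

lemma n21_21_6_6_4 {n : ℕ} (hn : 5 ≤ n) : BlkD.NdX d21_21_6_6 (BlkD.exF 6 6 x21_21_6_6) n
    (BlkD.upd (BlkD.upd (BlkD.upd (fun _ => 0) 0 2) 1 5) 1 7)
    (BlkD.upd (BlkD.upd (BlkD.upd (BlkD.upd (BlkD.upd (BlkD.upd (BlkD.upd (fun _ => 21) 0 6) 2 6) 0 3) 0 2) 1 19) 1 9) 1 7) :=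
  BlkD.NdX.tree s21_21_6_6_4 ok21_21_6_6 (by decide) hn

/-- a subtree -/
def t21_21_6_6_5 : BlkD.Tr :=
  .S 1 8 (.S 2 3 (.L 7 7 [4, 4, 4, 4, 21, 21, 21] [141, 140, 139, 138, 134, 124] [] 100000 48485
    48484 1333332 36364 21212 75758 60606 24242 3030 0) (.L 7 7 [4, 4, 4, 4, 21, 21, 21] [141, 140,
    139, 138, 134, 124] [] 100000 52941 52941 1264707 70588 0 100000 23529 0 5882 5882)) (.E 0)

lemma s21_21_6_6_5 : BlkD.treeX d21_21_6_6 (BlkD.exF 6 6 x21_21_6_6) t21_21_6_6_5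
    (BlkD.upd (BlkD.upd (BlkD.upd (fun _ => 0) 0 2) 1 5) 1 8)
    (BlkD.upd (BlkD.upd (BlkD.upd (BlkD.upd (BlkD.upd (BlkD.upd (fun _ => 21) 0 6) 2 6) 0 3) 0 2) 1 19) 1 9) = true := by
  decide +kernel

lemma n21_21_6_6_5 {n : ℕ} (hn : 5 ≤ n) : BlkD.NdX d21_21_6_6 (BlkD.exF 6 6 x21_21_6_6) n
    (BlkD.upd (BlkD.upd (BlkD.upd (fun _ => 0) 0 2) 1 5) 1 8)
    (BlkD.upd (BlkD.upd (BlkD.upd (BlkD.upd (BlkD.upd (BlkD.upd (fun _ => 21) 0 6) 2 6) 0 3) 0 2) 1 19) 1 9) :=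
  BlkD.NdX.tree s21_21_6_6_5 ok21_21_6_6 (by decide) hn

/-- a subtree -/
def t21_21_6_6_6 : BlkD.Tr :=
  .E 0

lemma s21_21_6_6_6 : BlkD.treeX d21_21_6_6 (BlkD.exF 6 6 x21_21_6_6) t21_21_6_6_6
    (BlkD.upd (BlkD.upd (fun _ => 0) 0 2) 1 10)
    (BlkD.upd (BlkD.upd (BlkD.upd (BlkD.upd (BlkD.upd (fun _ => 21) 0 6) 2 6) 0 3) 0 2) 1 19) = true := by
  decide +kernel

lemma n21_21_6_6_6 {n : ℕ} (hn : 5 ≤ n) : BlkD.NdX d21_21_6_6 (BlkD.exF 6 6 x21_21_6_6) n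
    (BlkD.upd (BlkD.upd (fun _ => 0) 0 2) 1 10)
    (BlkD.upd (BlkD.upd (BlkD.upd (BlkD.upd (BlkD.upd (fun _ => 21) 0 6) 2 6) 0 3) 0 2) 1 19) :=
  BlkD.NdX.tree s21_21_6_6_6 ok21_21_6_6 (by decide) hn

/-- a subtree -/
def t21_21_6_6_7 : BlkD.Tr :=
  .E 0

lemma s21_21_6_6_7 : BlkD.treeX d21_21_6_6 (BlkD.exF 6 6 x21_21_6_6) t21_21_6_6_7
    (BlkD.upd (BlkD.upd (fun _ => 0) 0 2) 1 20)
    (BlkD.upd (BlkD.upd (BlkD.upd (BlkD.upd (fun _ => 21) 0 6) 2 6) 0 3) 0 2) = true := by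
  decide +kernel

lemma n21_21_6_6_7 {n : ℕ} (hn : 5 ≤ n) : BlkD.NdX d21_21_6_6 (BlkD.exF 6 6 x21_21_6_6) n
    (BlkD.upd (BlkD.upd (fun _ => 0) 0 2) 1 20)
    (BlkD.upd (BlkD.upd (BlkD.upd (BlkD.upd (fun _ => 21) 0 6) 2 6) 0 3) 0 2) :=
  BlkD.NdX.tree s21_21_6_6_7 ok21_21_6_6 (by decide) hn

/-- a subtree -/
def t21_21_6_6_8 : BlkD.Tr :=
  .S 1 2 (.L 7 7 [4, 4, 4, 4, 21, 21, 21] [] [] 100000 30000 30000 1364706 17647 17647 35294 50000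
    0 10000 8824) (.S 1 3 (.S 2 3 (.L 7 7 [4, 4, 4, 4, 21, 21, 21] [60, 50, 38, 24, 0, 0] [] 100000
    30864 30863 1388890 22222 22222 33333 61111 0 7407 5556) (.L 6 6 [4, 4, 4, 5, 21, 21, 21] [60,
    50, 38, 24, 0, 0] [] 100000 27537 27537 1411594 27536 2899 55072 72464 0 17391 8696)) (.S 2 3
    (.S 2 1 (.L 6 6 [4, 4, 4, 5, 21, 21, 21] [82, 72, 62, 50, 36, 0] [] 100000 33333 33332 1253850
    7692 61538 53846 61538 0 0 0) (.S 2 2 (.L 6 6 [4, 4, 4, 5, 21, 21, 21] [82, 72, 62, 50, 36, 0]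
    [] 100000 31667 31667 1400000 0 50000 35000 65000 5000 0 2500) (.S 3 11 (.S 3 5 (.S 3 2 (.L 6 6
    [4, 4, 4, 5, 21, 21, 21] [82, 72, 62, 50, 36, 0] [] 100000 33333 33332 1200000 0 0 0 0 0 0 0)
    (.S 3 4 (.L 6 6 [4, 4, 4, 5, 21, 21, 21] [82, 72, 62, 50, 36, 0] [] 100000 31667 31667 1370003
    16667 16667 31667 31667 1667 1667 1667) (.S 4 4 (.S 4 2 (.S 4 1 (.S 4 0 (.L 6 6 [4, 4, 4, 5,
    21, 21, 21] [36, 0, 0, 0, 0, 0] [100, 96, 86, 76, 64, 50] 100000 9524 9523 1457144 16667 16667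
    0 52381 23810 23810 23810) (.L 6 6 [4, 4, 4, 5, 21, 21, 21] [50, 36, 0, 0, 0, 0] [100, 96, 86,
    76, 64, 50] 100000 32000 32000 1400000 20000 20000 44000 40000 0 4000 20000)) (.L 6 6 [4, 4, 4,
    5, 21, 21, 21] [62, 50, 36, 0, 0, 0] [100, 96, 86, 76, 64, 50] 100000 31707 31706 1382928 19512
    19512 43902 39024 0 4878 17073)) (.L 6 6 [4, 4, 4, 5, 21, 21, 21] [82, 72, 62, 50, 36, 0] [100,
    96, 86, 76, 64, 50] 100000 29167 29167 1312500 0 12500 87500 75000 0 12500 6250)) (.E 2)))) (.S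
    3 8 (.S 3 7 (.S 3 6 (.S 4 4 (.S 4 2 (.S 4 1 (.S 4 0 (.L 6 6 [4, 4, 4, 5, 21, 21, 21] [36, 0, 0,
    0, 0, 0] [117, 116, 112, 102, 92, 80] 100000 1 1 1467743 12903 12903 0 54839 41935 29032 29032)
    (.L 9 9 [5, 5, 3, 3, 21, 21, 21] [50, 36, 0, 0, 0, 0] [117, 116, 112, 102, 92, 80] 100000 31685
    31685 1402199 19780 19780 79121 59341 0 4945 21429)) (.L 9 9 [5, 5, 3, 3, 21, 21, 21] [62, 50,
    36, 0, 0, 0] [117, 116, 112, 102, 92, 80] 100000 30926 30926 1362224 12222 19444 87222 67778 0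
    7222 25000)) (.L 9 9 [5, 5, 3, 3, 21, 21, 21] [82, 72, 62, 50, 36, 0] [117, 116, 112, 102, 92,
    80] 100000 28205 20512 1292310 0 7692 107692 76923 0 15385 7692)) (.E 2)) (.L 9 9 [5, 5, 3, 3,
    21, 21, 21] [82, 72, 62, 50, 36, 0] [136, 135, 134, 130, 120, 110] 100000 27059 27058 1380001
    11765 11765 61176 100000 9412 9412 29412)) (.E 1)) (.E 1))) (.E 1)))) (.S 2 5 (.S 2 4 (.S 3 10
    (.S 3 5 (.S 3 2 (.L 9 9 [5, 5, 3, 3, 21, 21, 21] [82, 72, 62, 50, 36, 0] [] 100000 33333 33332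
    1300000 0 0 0 0 0 0 0) (.S 3 4 (.S 3 3 (.L 9 9 [5, 5, 3, 3, 21, 21, 21] [82, 72, 62, 50, 36, 0]
    [66, 56, 44, 30, 0, 0] 100000 30435 30435 1400002 26087 26087 52174 43478 0 8696 8696) (.S 4 4
    (.S 4 2 (.S 4 1 (.L 7 7 [4, 4, 4, 4, 21, 21, 21] [50, 36, 0, 0, 0, 0] [90, 80, 70, 58, 44, 0]
    100000 30080 30080 1406448 23941 23204 49355 62431 2210 5341 9208) (.L 7 7 [4, 4, 4, 4, 21, 21,
    21] [62, 50, 36, 0, 0, 0] [90, 80, 70, 58, 44, 0] 100000 30303 30302 1372728 18182 18182 72727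
    63636 0 9091 27273)) (.L 7 7 [4, 4, 4, 4, 21, 21, 21] [82, 72, 62, 50, 36, 0] [90, 80, 70, 58,
    44, 0] 100000 33333 33332 1283334 8333 8333 100000 58333 0 0 0)) (.E 2))) (.S 4 4 (.S 4 2 (.S 4
    1 (.L 6 6 [4, 4, 4, 5, 21, 21, 21] [50, 36, 0, 0, 0, 0] [110, 106, 96, 86, 74, 60] 100000 17817
    17817 1439657 31034 0 67241 49138 5172 36207 18103) (.L 6 6 [4, 4, 4, 5, 21, 21, 21] [62, 50,
    36, 0, 0, 0] [110, 106, 96, 86, 74, 60] 100000 26515 26515 1363639 9091 9091 100000 54545 0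
    20455 14773)) (.L 6 6 [4, 4, 4, 5, 21, 21, 21] [82, 72, 62, 50, 36, 0] [110, 106, 96, 86, 74,
    60] 100000 36938 1 1178378 3604 3604 136937 72072 0 16216 9910)) (.E 2)))) (.L 6 6 [4, 4, 4, 5,
    21, 21, 21] [82, 72, 62, 50, 36, 0] [] 100000 33333 33332 1300000 0 0 100000 100000 0 0 0)) (.E
    1)) (.S 3 9 (.S 3 4 (.S 3 2 (.L 6 6 [4, 4, 4, 5, 21, 21, 21] [82, 72, 62, 50, 36, 0] [] 100000
    30931 30931 1372073 33333 0 60360 38739 901 5405 2703) (.L 6 6 [4, 4, 4, 5, 21, 21, 21] [82,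
    72, 62, 50, 36, 0] [] 100000 1961 1961 1470588 14706 0 72549 50000 10784 72549 36275)) (.E 1))
    (.E 1))) (.L 6 6 [4, 4, 4, 5, 21, 21, 21] [82, 72, 62, 50, 36, 0] [] 100000 1667 1667 1415000
    15000 0 55000 55000 10000 75000 37500))))

lemma s21_21_6_6_8 : BlkD.treeX d21_21_6_6 (BlkD.exF 6 6 x21_21_6_6) t21_21_6_6_8
    (BlkD.upd (BlkD.upd (fun _ => 0) 0 2) 0 3)
    (BlkD.upd (BlkD.upd (BlkD.upd (BlkD.upd (BlkD.upd (BlkD.upd (fun _ => 21) 0 6) 2 6) 0 3) 1 18) 1 9) 1 4) = true := by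
  decide +kernel

lemma n21_21_6_6_8 {n : ℕ} (hn : 5 ≤ n) : BlkD.NdX d21_21_6_6 (BlkD.exF 6 6 x21_21_6_6) n
    (BlkD.upd (BlkD.upd (fun _ => 0) 0 2) 0 3)
    (BlkD.upd (BlkD.upd (BlkD.upd (BlkD.upd (BlkD.upd (BlkD.upd (fun _ => 21) 0 6) 2 6) 0 3) 1 18) 1 9) 1 4) :=
  BlkD.NdX.tree s21_21_6_6_8 ok21_21_6_6 (by decide) hn

/-- a subtree -/
def t21_21_6_6_9 : BlkD.Tr :=
  .S 2 3 (.S 2 1 (.L 6 6 [4, 4, 4, 5, 21, 21, 21] [100, 96, 86, 76, 64, 50] [] 100000 66667 66667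
    1100000 0 100000 100000 100000 0 0 0) (.S 2 2 (.L 7 7 [4, 4, 4, 4, 21, 21, 21] [100, 96, 86,
    76, 64, 50] [] 100000 32371 32371 1392780 3971 51986 43682 69675 6859 0 25271) (.S 3 10 (.S 3 5
    (.S 3 2 (.L 7 7 [4, 4, 4, 4, 21, 21, 21] [100, 96, 86, 76, 64, 50] [] 100000 33333 33332
    1300000 0 0 0 0 0 0 0) (.S 3 4 (.S 3 3 (.L 7 7 [4, 4, 4, 4, 21, 21, 21] [100, 96, 86, 76, 64,
    50] [60, 50, 38, 24, 0, 0] 100000 33333 33332 1350000 25000 25000 50000 25000 0 0 0) (.S 4 5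
    (.S 4 2 (.L 7 7 [4, 4, 4, 4, 21, 21, 21] [76, 64, 50, 0, 0, 0] [82, 72, 62, 50, 36, 0] 100000
    25545 25545 1411218 23364 23364 46729 51402 14019 4673 19626) (.L 7 7 [4, 4, 4, 4, 21, 21, 21]
    [100, 96, 86, 76, 64, 50] [82, 72, 62, 50, 36, 0] 100000 33334 33334 1360000 16667 16667 73333
    53333 0 0 26667)) (.E 2))) (.S 4 5 (.S 4 2 (.S 4 1 (.S 4 0 (.L 7 7 [4, 4, 4, 4, 21, 21, 21]
    [50, 0, 0, 0, 0, 0] [100, 96, 86, 76, 64, 50] 100000 0 0 1482610 19565 19565 0 43478 47826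
    28261 23913) (.L 7 7 [4, 4, 4, 4, 21, 21, 21] [64, 50, 0, 0, 0, 0] [100, 96, 86, 76, 64, 50]
    100000 19872 19871 1425000 23077 23077 59615 54808 26923 6731 13462)) (.L 7 7 [4, 4, 4, 4, 21,
    21, 21] [76, 64, 50, 0, 0, 0] [100, 96, 86, 76, 64, 50] 100000 30434 30433 1407250 21739 21739
    65217 49275 2899 2899 26087)) (.L 7 7 [4, 4, 4, 4, 21, 21, 21] [100, 96, 86, 76, 64, 50] [100,
    96, 86, 76, 64, 50] 100000 28986 28986 1391306 0 13043 91304 78261 0 13043 8696)) (.E 2)))) (.S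
    3 8 (.S 3 7 (.S 3 6 (.S 4 5 (.S 4 2 (.S 4 1 (.L 7 7 [4, 4, 4, 4, 21, 21, 21] [64, 50, 0, 0, 0,
    0] [117, 116, 112, 102, 92, 80] 100000 1754 1753 1473685 5263 5263 5263 100000 63158 31579
    31579) (.L 9 9 [5, 5, 3, 3, 21, 21, 21] [76, 64, 50, 0, 0, 0] [117, 116, 112, 102, 92, 80]
    100000 9091 9091 1454547 9091 9091 72727 63636 0 45455 36364)) (.L 9 9 [5, 5, 3, 3, 21, 21, 21]
    [100, 96, 86, 76, 64, 50] [117, 116, 112, 102, 92, 80] 100000 33333 33332 1300000 0 0 100000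
    100000 0 0 0)) (.E 2)) (.E 2)) (.E 1)) (.E 1))) (.E 1)))) (.S 2 5 (.S 2 4 (.S 3 9 (.S 3 4 (.S 3
    2 (.L 9 9 [5, 5, 3, 3, 21, 21, 21] [100, 96, 86, 76, 64, 50] [] 100000 33333 33332 1366667
    33333 33333 33333 33333 0 0 0) (.S 3 3 (.S 4 5 (.S 4 2 (.L 7 7 [4, 4, 4, 4, 21, 21, 21] [76,
    64, 50, 0, 0, 0] [66, 56, 44, 30, 0, 0] 100000 20607 20606 1433819 25455 25455 50909 58545
    17818 10182 21455) (.L 7 7 [4, 4, 4, 4, 21, 21, 21] [100, 96, 86, 76, 64, 50] [66, 56, 44, 30,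
    0, 0] 100000 30303 30302 1372728 18182 18182 72727 63636 0 9091 27273)) (.E 2)) (.S 4 5 (.S 4 2
    (.S 4 1 (.L 7 7 [4, 4, 4, 4, 21, 21, 21] [64, 50, 0, 0, 0, 0] [90, 80, 70, 58, 44, 0] 100000
    9605 9605 1461017 27119 3390 30508 77966 42373 25424 15254) (.L 6 6 [4, 4, 4, 5, 21, 21, 21]
    [76, 64, 50, 0, 0, 0] [90, 80, 70, 58, 44, 0] 100000 23333 23332 1425000 25000 0 75000 70000
    20000 5000 22500)) (.L 6 6 [4, 4, 4, 5, 21, 21, 21] [100, 96, 86, 76, 64, 50] [90, 80, 70, 58,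
    44, 0] 100000 33334 33334 1366666 16667 0 100000 50000 0 0 0)) (.E 2)))) (.L 6 6 [4, 4, 4, 5,
    21, 21, 21] [100, 96, 86, 76, 64, 50] [] 100000 10000 10000 1420000 10000 0 100000 50000 10000
    60000 30000)) (.E 1)) (.S 3 8 (.S 3 4 (.S 3 2 (.S 3 1 (.L 6 6 [4, 4, 4, 5, 21, 21, 21] [100,
    96, 86, 76, 64, 50] [] 100000 30000 29999 1373333 33333 0 50000 46667 3333 3333 3333) (.L 4 4
    [4, 5, 6, 7, 21, 21, 21] [100, 96, 86, 76, 64, 50] [48, 36, 22, 0, 0, 0] 100000 21003 21003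
    1430411 23197 0 73354 35737 12539 12226 42947)) (.L 4 4 [4, 5, 6, 7, 21, 21, 21] [100, 96, 86,
    76, 64, 50] [] 100000 8333 8332 1437500 25000 0 62500 37500 12500 50000 37500)) (.E 1)) (.E
    1))) (.L 4 4 [4, 5, 6, 7, 21, 21, 21] [100, 96, 86, 76, 64, 50] [] 100000 0 0 1420000 20000 0
    60000 40000 20000 60000 40000))

lemma s21_21_6_6_9 : BlkD.treeX d21_21_6_6 (BlkD.exF 6 6 x21_21_6_6) t21_21_6_6_9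
    (BlkD.upd (BlkD.upd (BlkD.upd (fun _ => 0) 0 2) 0 3) 1 5)
    (BlkD.upd (BlkD.upd (BlkD.upd (BlkD.upd (BlkD.upd (BlkD.upd (BlkD.upd (BlkD.upd (fun _ => 21) 0 6) 2 6) 0 3) 1 18) 1 9) 1 7) 1 6) 1 5) = true := by
  decide +kernel

lemma n21_21_6_6_9 {n : ℕ} (hn : 5 ≤ n) : BlkD.NdX d21_21_6_6 (BlkD.exF 6 6 x21_21_6_6) n
    (BlkD.upd (BlkD.upd (BlkD.upd (fun _ => 0) 0 2) 0 3) 1 5)
    (BlkD.upd (BlkD.upd (BlkD.upd (BlkD.upd (BlkD.upd (BlkD.upd (BlkD.upd (BlkD.upd (fun _ => 21) 0 6) 2 6) 0 3) 1 18) 1 9) 1 7) 1 6) 1 5) :=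
  BlkD.NdX.tree s21_21_6_6_9 ok21_21_6_6 (by decide) hn

/-- a subtree -/
def t21_21_6_6_10 : BlkD.Tr :=
  .L 4 4 [4, 5, 6, 7, 21, 21, 21] [117, 116, 112, 102, 92, 80] [] 100000 66667 66667 1100000 0
    100000 100000 100000 0 0 0

lemma s21_21_6_6_10 : BlkD.treeX d21_21_6_6 (BlkD.exF 6 6 x21_21_6_6) t21_21_6_6_10
    (BlkD.upd (BlkD.upd (BlkD.upd (BlkD.upd (fun _ => 0) 0 2) 0 3) 1 5) 1 6)
    (BlkD.upd (BlkD.upd (BlkD.upd (BlkD.upd (BlkD.upd (BlkD.upd (BlkD.upd (BlkD.upd (BlkD.upd (fun _ => 21) 0 6) 2 6) 0 3) 1 18) 1 9) 1 7) 1 6) 2 3) 2 1) = true := by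
  decide +kernel

lemma n21_21_6_6_10 {n : ℕ} (hn : 5 ≤ n) : BlkD.NdX d21_21_6_6 (BlkD.exF 6 6 x21_21_6_6) n
    (BlkD.upd (BlkD.upd (BlkD.upd (BlkD.upd (fun _ => 0) 0 2) 0 3) 1 5) 1 6)
    (BlkD.upd (BlkD.upd (BlkD.upd (BlkD.upd (BlkD.upd (BlkD.upd (BlkD.upd (BlkD.upd (BlkD.upd (fun _ => 21) 0 6) 2 6) 0 3) 1 18) 1 9) 1 7) 1 6) 2 3) 2 1) :=
  BlkD.NdX.tree s21_21_6_6_10 ok21_21_6_6 (by decide) hn

/-- a subtree -/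
def t21_21_6_6_11 : BlkD.Tr :=
  .L 6 6 [4, 4, 4, 5, 21, 21, 21] [117, 116, 112, 102, 92, 80] [] 100000 60452 60452 1308476 33898
    44068 67797 55932 8475 0 11017

lemma s21_21_6_6_11 : BlkD.treeX d21_21_6_6 (BlkD.exF 6 6 x21_21_6_6) t21_21_6_6_11
    (BlkD.upd (BlkD.upd (BlkD.upd (BlkD.upd (BlkD.upd (fun _ => 0) 0 2) 0 3) 1 5) 1 6) 2 2)
    (BlkD.upd (BlkD.upd (BlkD.upd (BlkD.upd (BlkD.upd (BlkD.upd (BlkD.upd (BlkD.upd (BlkD.upd (fun _ => 21) 0 6) 2 6) 0 3) 1 18) 1 9) 1 7) 1 6) 2 3) 2 2) = true := by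
  decide +kernel

lemma n21_21_6_6_11 {n : ℕ} (hn : 5 ≤ n) : BlkD.NdX d21_21_6_6 (BlkD.exF 6 6 x21_21_6_6) n
    (BlkD.upd (BlkD.upd (BlkD.upd (BlkD.upd (BlkD.upd (fun _ => 0) 0 2) 0 3) 1 5) 1 6) 2 2)
    (BlkD.upd (BlkD.upd (BlkD.upd (BlkD.upd (BlkD.upd (BlkD.upd (BlkD.upd (BlkD.upd (BlkD.upd (fun _ => 21) 0 6) 2 6) 0 3) 1 18) 1 9) 1 7) 1 6) 2 3) 2 2) :=
  BlkD.NdX.tree s21_21_6_6_11 ok21_21_6_6 (by decide) hn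

/-- a subtree -/
def t21_21_6_6_12 : BlkD.Tr :=
  .S 3 2 (.L 6 6 [4, 4, 4, 5, 21, 21, 21] [117, 116, 112, 102, 92, 80] [] 100000 25556 25556
    1340000 20000 20000 76667 40000 23333 0 11667) (.S 3 3 (.L 6 6 [4, 4, 4, 5, 21, 21, 21] [117,
    116, 112, 102, 92, 80] [60, 50, 38, 24, 0, 0] 100000 25001 25001 1416666 16667 16667 75000
    25000 25000 0 12500) (.S 4 6 (.S 4 3 (.L 6 6 [4, 4, 4, 5, 21, 21, 21] [102, 92, 80, 66, 0, 0]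
    [82, 72, 62, 50, 36, 0] 100000 21333 21332 1428000 20000 20000 60000 52000 20000 8000 20000)
    (.L 6 6 [4, 4, 4, 5, 21, 21, 21] [117, 116, 112, 102, 92, 80] [82, 72, 62, 50, 36, 0] 100000
    33333 33332 1362500 0 12500 100000 62500 0 0 0)) (.E 2)))

lemma s21_21_6_6_12 : BlkD.treeX d21_21_6_6 (BlkD.exF 6 6 x21_21_6_6) t21_21_6_6_12
    (BlkD.upd (BlkD.upd (BlkD.upd (BlkD.upd (BlkD.upd (BlkD.upd (fun _ => 0) 0 2) 0 3) 1 5) 1 6) 2 2) 2 3)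
    (BlkD.upd (BlkD.upd (BlkD.upd (BlkD.upd (BlkD.upd (BlkD.upd (BlkD.upd (BlkD.upd (BlkD.upd (BlkD.upd (fun _ => 21) 0 6) 2 6) 0 3) 1 18) 1 9) 1 7) 1 6) 2 3) 3 9) 3 4) = true := by
  decide +kernel

lemma n21_21_6_6_12 {n : ℕ} (hn : 5 ≤ n) : BlkD.NdX d21_21_6_6 (BlkD.exF 6 6 x21_21_6_6) n
    (BlkD.upd (BlkD.upd (BlkD.upd (BlkD.upd (BlkD.upd (BlkD.upd (fun _ => 0) 0 2) 0 3) 1 5) 1 6) 2 2) 2 3)
    (BlkD.upd (BlkD.upd (BlkD.upd (BlkD.upd (BlkD.upd (BlkD.upd (BlkD.upd (BlkD.upd (BlkD.upd (BlkD.upd (fun _ => 21) 0 6) 2 6) 0 3) 1 18) 1 9) 1 7) 1 6) 2 3) 3 9) 3 4) :=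
  BlkD.NdX.tree s21_21_6_6_12 ok21_21_6_6 (by decide) hn

/-- a subtree -/
def t21_21_6_6_13 : BlkD.Tr :=
  .S 4 6 (.S 4 3 (.S 4 1 (.E 2) (.S 4 2 (.L 6 6 [4, 4, 4, 5, 21, 21, 21] [92, 80, 66, 0, 0, 0]
    [100, 96, 86, 76, 64, 50] 100000 1 1 1471427 14286 14286 71429 42857 28571 42857 21429) (.L 4 4
    [4, 5, 6, 7, 21, 21, 21] [102, 92, 80, 66, 0, 0] [100, 96, 86, 76, 64, 50] 100000 55555 55554
    1325002 25000 25000 100000 45833 0 4167 25000))) (.L 4 4 [4, 5, 6, 7, 21, 21, 21] [117, 116,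
    112, 102, 92, 80] [100, 96, 86, 76, 64, 50] 100000 83333 83332 1200000 0 50000 100000 100000 0
    0 0)) (.E 2)

lemma s21_21_6_6_13 : BlkD.treeX d21_21_6_6 (BlkD.exF 6 6 x21_21_6_6) t21_21_6_6_13
    (BlkD.upd (BlkD.upd (BlkD.upd (BlkD.upd (BlkD.upd (BlkD.upd (BlkD.upd (fun _ => 0) 0 2) 0 3) 1 5) 1 6) 2 2) 2 3) 3 5)
    (BlkD.upd (BlkD.upd (BlkD.upd (BlkD.upd (BlkD.upd (BlkD.upd (BlkD.upd (BlkD.upd (BlkD.upd (BlkD.upd (BlkD.upd (BlkD.upd (fun _ => 21) 0 6) 2 6) 0 3) 1 18) 1 9) 1 7) 1 6) 2 3) 3 9) 3 7) 3 6) 3 5) = true := by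
  decide +kernel

lemma n21_21_6_6_13 {n : ℕ} (hn : 5 ≤ n) : BlkD.NdX d21_21_6_6 (BlkD.exF 6 6 x21_21_6_6) n
    (BlkD.upd (BlkD.upd (BlkD.upd (BlkD.upd (BlkD.upd (BlkD.upd (BlkD.upd (fun _ => 0) 0 2) 0 3) 1 5) 1 6) 2 2) 2 3) 3 5)
    (BlkD.upd (BlkD.upd (BlkD.upd (BlkD.upd (BlkD.upd (BlkD.upd (BlkD.upd (BlkD.upd (BlkD.upd (BlkD.upd (BlkD.upd (BlkD.upd (fun _ => 21) 0 6) 2 6) 0 3) 1 18) 1 9) 1 7) 1 6) 2 3) 3 9) 3 7) 3 6) 3 5) :=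
  BlkD.NdX.tree s21_21_6_6_13 ok21_21_6_6 (by decide) hn

/-- a subtree -/
def t21_21_6_6_14 : BlkD.Tr :=
  .E 2

lemma s21_21_6_6_14 : BlkD.treeX d21_21_6_6 (BlkD.exF 6 6 x21_21_6_6) t21_21_6_6_14
    (BlkD.upd (BlkD.upd (BlkD.upd (BlkD.upd (BlkD.upd (BlkD.upd (BlkD.upd (BlkD.upd (fun _ => 0) 0 2) 0 3) 1 5) 1 6) 2 2) 2 3) 3 5) 3 6)
    (BlkD.upd (BlkD.upd (BlkD.upd (BlkD.upd (BlkD.upd (BlkD.upd (BlkD.upd (BlkD.upd (BlkD.upd (BlkD.upd (BlkD.upd (BlkD.upd (BlkD.upd (BlkD.upd (fun _ => 21) 0 6) 2 6) 0 3) 1 18) 1 9) 1 7) 1 6) 2 3) 3 9) 3 7) 3 6) 4 6) 4 3) 4 1) = true := by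
  decide +kernel

lemma n21_21_6_6_14 {n : ℕ} (hn : 5 ≤ n) : BlkD.NdX d21_21_6_6 (BlkD.exF 6 6 x21_21_6_6) n
    (BlkD.upd (BlkD.upd (BlkD.upd (BlkD.upd (BlkD.upd (BlkD.upd (BlkD.upd (BlkD.upd (fun _ => 0) 0 2) 0 3) 1 5) 1 6) 2 2) 2 3) 3 5) 3 6)
    (BlkD.upd (BlkD.upd (BlkD.upd (BlkD.upd (BlkD.upd (BlkD.upd (BlkD.upd (BlkD.upd (BlkD.upd (BlkD.upd (BlkD.upd (BlkD.upd (BlkD.upd (BlkD.upd (fun _ => 21) 0 6) 2 6) 0 3) 1 18) 1 9) 1 7) 1 6) 2 3) 3 9) 3 7) 3 6) 4 6) 4 3) 4 1) :=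
  BlkD.NdX.tree s21_21_6_6_14 ok21_21_6_6 (by decide) hn

/-- a subtree -/
def t21_21_6_6_15 : BlkD.Tr :=
  .L 4 4 [4, 5, 6, 7, 21, 21, 21] [92, 80, 66, 0, 0, 0] [117, 116, 112, 102, 92, 80] 100000 111111
    111110 1088888 0 77778 100000 100000 0 0 11111

lemma s21_21_6_6_15 : BlkD.treeX d21_21_6_6 (BlkD.exF 6 6 x21_21_6_6) t21_21_6_6_15
    (BlkD.upd (BlkD.upd (BlkD.upd (BlkD.upd (BlkD.upd (BlkD.upd (BlkD.upd (BlkD.upd (BlkD.upd (fun _ => 0) 0 2) 0 3) 1 5) 1 6) 2 2) 2 3) 3 5) 3 6) 4 2)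
    (BlkD.upd (BlkD.upd (BlkD.upd (BlkD.upd (BlkD.upd (BlkD.upd (BlkD.upd (BlkD.upd (BlkD.upd (BlkD.upd (BlkD.upd (BlkD.upd (BlkD.upd (BlkD.upd (fun _ => 21) 0 6) 2 6) 0 3) 1 18) 1 9) 1 7) 1 6) 2 3) 3 9) 3 7) 3 6) 4 6) 4 3) 4 2) = true := by
  decide +kernel

lemma n21_21_6_6_15 {n : ℕ} (hn : 5 ≤ n) : BlkD.NdX d21_21_6_6 (BlkD.exF 6 6 x21_21_6_6) n
    (BlkD.upd (BlkD.upd (BlkD.upd (BlkD.upd (BlkD.upd (BlkD.upd (BlkD.upd (BlkD.upd (BlkD.upd (fun _ => 0) 0 2) 0 3) 1 5) 1 6) 2 2) 2 3) 3 5) 3 6) 4 2)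
    (BlkD.upd (BlkD.upd (BlkD.upd (BlkD.upd (BlkD.upd (BlkD.upd (BlkD.upd (BlkD.upd (BlkD.upd (BlkD.upd (BlkD.upd (BlkD.upd (BlkD.upd (BlkD.upd (fun _ => 21) 0 6) 2 6) 0 3) 1 18) 1 9) 1 7) 1 6) 2 3) 3 9) 3 7) 3 6) 4 6) 4 3) 4 2) :=
  BlkD.NdX.tree s21_21_6_6_15 ok21_21_6_6 (by decide) hn

/-- a subtree -/
def t21_21_6_6_16 : BlkD.Tr :=
  .E 2

lemma s21_21_6_6_16 : BlkD.treeX d21_21_6_6 (BlkD.exF 6 6 x21_21_6_6) t21_21_6_6_16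
    (BlkD.upd (BlkD.upd (BlkD.upd (BlkD.upd (BlkD.upd (BlkD.upd (BlkD.upd (BlkD.upd (BlkD.upd (BlkD.upd (fun _ => 0) 0 2) 0 3) 1 5) 1 6) 2 2) 2 3) 3 5) 3 6) 4 2) 4 3)
    (BlkD.upd (BlkD.upd (BlkD.upd (BlkD.upd (BlkD.upd (BlkD.upd (BlkD.upd (BlkD.upd (BlkD.upd (BlkD.upd (BlkD.upd (BlkD.upd (BlkD.upd (BlkD.upd (BlkD.upd (BlkD.upd (fun _ => 21) 0 6) 2 6) 0 3) 1 18) 1 9) 1 7) 1 6) 2 3) 3 9) 3 7) 3 6) 4 6) 4 3) 5 6) 5 3) 5 1) = true := by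
  decide +kernel

lemma n21_21_6_6_16 {n : ℕ} (hn : 5 ≤ n) : BlkD.NdX d21_21_6_6 (BlkD.exF 6 6 x21_21_6_6) n
    (BlkD.upd (BlkD.upd (BlkD.upd (BlkD.upd (BlkD.upd (BlkD.upd (BlkD.upd (BlkD.upd (BlkD.upd (BlkD.upd (fun _ => 0) 0 2) 0 3) 1 5) 1 6) 2 2) 2 3) 3 5) 3 6) 4 2) 4 3)
    (BlkD.upd (BlkD.upd (BlkD.upd (BlkD.upd (BlkD.upd (BlkD.upd (BlkD.upd (BlkD.upd (BlkD.upd (BlkD.upd (BlkD.upd (BlkD.upd (BlkD.upd (BlkD.upd (BlkD.upd (BlkD.upd (fun _ => 21) 0 6) 2 6) 0 3) 1 18) 1 9) 1 7) 1 6) 2 3) 3 9) 3 7) 3 6) 4 6) 4 3) 5 6) 5 3) 5 1) :=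
  BlkD.NdX.tree s21_21_6_6_16 ok21_21_6_6 (by decide) hn

/-- a subtree -/
def t21_21_6_6_17 : BlkD.Tr :=
  .L 4 4 [4, 5, 6, 7, 21, 21, 21] [102, 92, 80, 66, 0, 0] [92, 80, 66, 0, 0, 0] 100000 366667
    266667 0 0 200000 200000 200000 0 0 0

lemma s21_21_6_6_17 : BlkD.treeX d21_21_6_6 (BlkD.exF 6 6 x21_21_6_6) t21_21_6_6_17
    (BlkD.upd (BlkD.upd (BlkD.upd (BlkD.upd (BlkD.upd (BlkD.upd (BlkD.upd (BlkD.upd (BlkD.upd (BlkD.upd (BlkD.upd (fun _ => 0) 0 2) 0 3) 1 5) 1 6) 2 2) 2 3) 3 5) 3 6) 4 2) 4 3) 5 2)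
    (BlkD.upd (BlkD.upd (BlkD.upd (BlkD.upd (BlkD.upd (BlkD.upd (BlkD.upd (BlkD.upd (BlkD.upd (BlkD.upd (BlkD.upd (BlkD.upd (BlkD.upd (BlkD.upd (BlkD.upd (BlkD.upd (fun _ => 21) 0 6) 2 6) 0 3) 1 18) 1 9) 1 7) 1 6) 2 3) 3 9) 3 7) 3 6) 4 6) 4 3) 5 6) 5 3) 5 2) = true := by
  decide +kernel

lemma n21_21_6_6_17 {n : ℕ} (hn : 5 ≤ n) : BlkD.NdX d21_21_6_6 (BlkD.exF 6 6 x21_21_6_6) n
    (BlkD.upd (BlkD.upd (BlkD.upd (BlkD.upd (BlkD.upd (BlkD.upd (BlkD.upd (BlkD.upd (BlkD.upd (BlkD.upd (BlkD.upd (fun _ => 0) 0 2) 0 3) 1 5) 1 6) 2 2) 2 3) 3 5) 3 6) 4 2) 4 3) 5 2)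
    (BlkD.upd (BlkD.upd (BlkD.upd (BlkD.upd (BlkD.upd (BlkD.upd (BlkD.upd (BlkD.upd (BlkD.upd (BlkD.upd (BlkD.upd (BlkD.upd (BlkD.upd (BlkD.upd (BlkD.upd (BlkD.upd (fun _ => 21) 0 6) 2 6) 0 3) 1 18) 1 9) 1 7) 1 6) 2 3) 3 9) 3 7) 3 6) 4 6) 4 3) 5 6) 5 3) 5 2) :=
  BlkD.NdX.tree s21_21_6_6_17 ok21_21_6_6 (by decide) hn

/-- a subtree -/
def t21_21_6_6_18 : BlkD.Tr :=
  .L 4 4 [4, 5, 6, 7, 21, 21, 21] [102, 92, 80, 66, 0, 0] [117, 116, 112, 102, 92, 80] 100000 33333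
    33332 1300000 0 0 100000 100000 0 0 0

lemma s21_21_6_6_18 : BlkD.treeX d21_21_6_6 (BlkD.exF 6 6 x21_21_6_6) t21_21_6_6_18
    (BlkD.upd (BlkD.upd (BlkD.upd (BlkD.upd (BlkD.upd (BlkD.upd (BlkD.upd (BlkD.upd (BlkD.upd (BlkD.upd (BlkD.upd (fun _ => 0) 0 2) 0 3) 1 5) 1 6) 2 2) 2 3) 3 5) 3 6) 4 2) 4 3) 5 4)
    (BlkD.upd (BlkD.upd (BlkD.upd (BlkD.upd (BlkD.upd (BlkD.upd (BlkD.upd (BlkD.upd (BlkD.upd (BlkD.upd (BlkD.upd (BlkD.upd (BlkD.upd (BlkD.upd (fun _ => 21) 0 6) 2 6) 0 3) 1 18) 1 9) 1 7) 1 6) 2 3) 3 9) 3 7) 3 6) 4 6) 4 3) 5 6) = true := by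
  decide +kernel

lemma n21_21_6_6_18 {n : ℕ} (hn : 5 ≤ n) : BlkD.NdX d21_21_6_6 (BlkD.exF 6 6 x21_21_6_6) n
    (BlkD.upd (BlkD.upd (BlkD.upd (BlkD.upd (BlkD.upd (BlkD.upd (BlkD.upd (BlkD.upd (BlkD.upd (BlkD.upd (BlkD.upd (fun _ => 0) 0 2) 0 3) 1 5) 1 6) 2 2) 2 3) 3 5) 3 6) 4 2) 4 3) 5 4)
    (BlkD.upd (BlkD.upd (BlkD.upd (BlkD.upd (BlkD.upd (BlkD.upd (BlkD.upd (BlkD.upd (BlkD.upd (BlkD.upd (BlkD.upd (BlkD.upd (BlkD.upd (BlkD.upd (fun _ => 21) 0 6) 2 6) 0 3) 1 18) 1 9) 1 7) 1 6) 2 3) 3 9) 3 7) 3 6) 4 6) 4 3) 5 6) :=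
  BlkD.NdX.tree s21_21_6_6_18 ok21_21_6_6 (by decide) hn

/-- a subtree -/
def t21_21_6_6_19 : BlkD.Tr :=
  .E 2

lemma s21_21_6_6_19 : BlkD.treeX d21_21_6_6 (BlkD.exF 6 6 x21_21_6_6) t21_21_6_6_19
    (BlkD.upd (BlkD.upd (BlkD.upd (BlkD.upd (BlkD.upd (BlkD.upd (BlkD.upd (BlkD.upd (BlkD.upd (BlkD.upd (BlkD.upd (fun _ => 0) 0 2) 0 3) 1 5) 1 6) 2 2) 2 3) 3 5) 3 6) 4 2) 4 3) 5 7)
    (BlkD.upd (BlkD.upd (BlkD.upd (BlkD.upd (BlkD.upd (BlkD.upd (BlkD.upd (BlkD.upd (BlkD.upd (BlkD.upd (BlkD.upd (BlkD.upd (BlkD.upd (fun _ => 21) 0 6) 2 6) 0 3) 1 18) 1 9) 1 7) 1 6) 2 3) 3 9) 3 7) 3 6) 4 6) 4 3) = true := by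
  decide +kernel

lemma n21_21_6_6_19 {n : ℕ} (hn : 5 ≤ n) : BlkD.NdX d21_21_6_6 (BlkD.exF 6 6 x21_21_6_6) n
    (BlkD.upd (BlkD.upd (BlkD.upd (BlkD.upd (BlkD.upd (BlkD.upd (BlkD.upd (BlkD.upd (BlkD.upd (BlkD.upd (BlkD.upd (fun _ => 0) 0 2) 0 3) 1 5) 1 6) 2 2) 2 3) 3 5) 3 6) 4 2) 4 3) 5 7)
    (BlkD.upd (BlkD.upd (BlkD.upd (BlkD.upd (BlkD.upd (BlkD.upd (BlkD.upd (BlkD.upd (BlkD.upd (BlkD.upd (BlkD.upd (BlkD.upd (BlkD.upd (fun _ => 21) 0 6) 2 6) 0 3) 1 18) 1 9) 1 7) 1 6) 2 3) 3 9) 3 7) 3 6) 4 6) 4 3) :=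
  BlkD.NdX.tree s21_21_6_6_19 ok21_21_6_6 (by decide) hn

/-- a subtree -/
def t21_21_6_6_20 : BlkD.Tr :=
  .L 4 4 [4, 5, 6, 7, 21, 21, 21] [117, 116, 112, 102, 92, 80] [117, 116, 112, 102, 92, 80] 100000
    100000 99999 1099999 0 66667 100000 100000 0 0 0

lemma s21_21_6_6_20 : BlkD.treeX d21_21_6_6 (BlkD.exF 6 6 x21_21_6_6) t21_21_6_6_20
    (BlkD.upd (BlkD.upd (BlkD.upd (BlkD.upd (BlkD.upd (BlkD.upd (BlkD.upd (BlkD.upd (BlkD.upd (fun _ => 0) 0 2) 0 3) 1 5) 1 6) 2 2) 2 3) 3 5) 3 6) 4 4)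
    (BlkD.upd (BlkD.upd (BlkD.upd (BlkD.upd (BlkD.upd (BlkD.upd (BlkD.upd (BlkD.upd (BlkD.upd (BlkD.upd (BlkD.upd (BlkD.upd (fun _ => 21) 0 6) 2 6) 0 3) 1 18) 1 9) 1 7) 1 6) 2 3) 3 9) 3 7) 3 6) 4 6) = true := by
  decide +kernel

lemma n21_21_6_6_20 {n : ℕ} (hn : 5 ≤ n) : BlkD.NdX d21_21_6_6 (BlkD.exF 6 6 x21_21_6_6) n
    (BlkD.upd (BlkD.upd (BlkD.upd (BlkD.upd (BlkD.upd (BlkD.upd (BlkD.upd (BlkD.upd (BlkD.upd (fun _ => 0) 0 2) 0 3) 1 5) 1 6) 2 2) 2 3) 3 5) 3 6) 4 4)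
    (BlkD.upd (BlkD.upd (BlkD.upd (BlkD.upd (BlkD.upd (BlkD.upd (BlkD.upd (BlkD.upd (BlkD.upd (BlkD.upd (BlkD.upd (BlkD.upd (fun _ => 21) 0 6) 2 6) 0 3) 1 18) 1 9) 1 7) 1 6) 2 3) 3 9) 3 7) 3 6) 4 6) :=
  BlkD.NdX.tree s21_21_6_6_20 ok21_21_6_6 (by decide) hn

/-- a subtree -/
def t21_21_6_6_21 : BlkD.Tr :=
  .E 2

lemma s21_21_6_6_21 : BlkD.treeX d21_21_6_6 (BlkD.exF 6 6 x21_21_6_6) t21_21_6_6_21
    (BlkD.upd (BlkD.upd (BlkD.upd (BlkD.upd (BlkD.upd (BlkD.upd (BlkD.upd (BlkD.upd (BlkD.upd (fun _ => 0) 0 2) 0 3) 1 5) 1 6) 2 2) 2 3) 3 5) 3 6) 4 7)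
    (BlkD.upd (BlkD.upd (BlkD.upd (BlkD.upd (BlkD.upd (BlkD.upd (BlkD.upd (BlkD.upd (BlkD.upd (BlkD.upd (BlkD.upd (fun _ => 21) 0 6) 2 6) 0 3) 1 18) 1 9) 1 7) 1 6) 2 3) 3 9) 3 7) 3 6) = true := by
  decide +kernel

lemma n21_21_6_6_21 {n : ℕ} (hn : 5 ≤ n) : BlkD.NdX d21_21_6_6 (BlkD.exF 6 6 x21_21_6_6) n
    (BlkD.upd (BlkD.upd (BlkD.upd (BlkD.upd (BlkD.upd (BlkD.upd (BlkD.upd (BlkD.upd (BlkD.upd (fun _ => 0) 0 2) 0 3) 1 5) 1 6) 2 2) 2 3) 3 5) 3 6) 4 7)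
    (BlkD.upd (BlkD.upd (BlkD.upd (BlkD.upd (BlkD.upd (BlkD.upd (BlkD.upd (BlkD.upd (BlkD.upd (BlkD.upd (BlkD.upd (fun _ => 21) 0 6) 2 6) 0 3) 1 18) 1 9) 1 7) 1 6) 2 3) 3 9) 3 7) 3 6) :=
  BlkD.NdX.tree s21_21_6_6_21 ok21_21_6_6 (by decide) hn

/-- a subtree -/
def t21_21_6_6_22 : BlkD.Tr :=
  .E 2

lemma s21_21_6_6_22 : BlkD.treeX d21_21_6_6 (BlkD.exF 6 6 x21_21_6_6) t21_21_6_6_22
    (BlkD.upd (BlkD.upd (BlkD.upd (BlkD.upd (BlkD.upd (BlkD.upd (BlkD.upd (BlkD.upd (fun _ => 0) 0 2) 0 3) 1 5) 1 6) 2 2) 2 3) 3 5) 3 7)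
    (BlkD.upd (BlkD.upd (BlkD.upd (BlkD.upd (BlkD.upd (BlkD.upd (BlkD.upd (BlkD.upd (BlkD.upd (BlkD.upd (fun _ => 21) 0 6) 2 6) 0 3) 1 18) 1 9) 1 7) 1 6) 2 3) 3 9) 3 7) = true := by
  decide +kernel

lemma n21_21_6_6_22 {n : ℕ} (hn : 5 ≤ n) : BlkD.NdX d21_21_6_6 (BlkD.exF 6 6 x21_21_6_6) n
    (BlkD.upd (BlkD.upd (BlkD.upd (BlkD.upd (BlkD.upd (BlkD.upd (BlkD.upd (BlkD.upd (fun _ => 0) 0 2) 0 3) 1 5) 1 6) 2 2) 2 3) 3 5) 3 7)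
    (BlkD.upd (BlkD.upd (BlkD.upd (BlkD.upd (BlkD.upd (BlkD.upd (BlkD.upd (BlkD.upd (BlkD.upd (BlkD.upd (fun _ => 21) 0 6) 2 6) 0 3) 1 18) 1 9) 1 7) 1 6) 2 3) 3 9) 3 7) :=
  BlkD.NdX.tree s21_21_6_6_22 ok21_21_6_6 (by decide) hn

/-- a subtree -/
def t21_21_6_6_23 : BlkD.Tr :=
  .E 1

lemma s21_21_6_6_23 : BlkD.treeX d21_21_6_6 (BlkD.exF 6 6 x21_21_6_6) t21_21_6_6_23
    (BlkD.upd (BlkD.upd (BlkD.upd (BlkD.upd (BlkD.upd (BlkD.upd (BlkD.upd (BlkD.upd (fun _ => 0) 0 2) 0 3) 1 5) 1 6) 2 2) 2 3) 3 5) 3 8)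
    (BlkD.upd (BlkD.upd (BlkD.upd (BlkD.upd (BlkD.upd (BlkD.upd (BlkD.upd (BlkD.upd (BlkD.upd (fun _ => 21) 0 6) 2 6) 0 3) 1 18) 1 9) 1 7) 1 6) 2 3) 3 9) = true := by
  decide +kernel

lemma n21_21_6_6_23 {n : ℕ} (hn : 5 ≤ n) : BlkD.NdX d21_21_6_6 (BlkD.exF 6 6 x21_21_6_6) n
    (BlkD.upd (BlkD.upd (BlkD.upd (BlkD.upd (BlkD.upd (BlkD.upd (BlkD.upd (BlkD.upd (fun _ => 0) 0 2) 0 3) 1 5) 1 6) 2 2) 2 3) 3 5) 3 8)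
    (BlkD.upd (BlkD.upd (BlkD.upd (BlkD.upd (BlkD.upd (BlkD.upd (BlkD.upd (BlkD.upd (BlkD.upd (fun _ => 21) 0 6) 2 6) 0 3) 1 18) 1 9) 1 7) 1 6) 2 3) 3 9) :=
  BlkD.NdX.tree s21_21_6_6_23 ok21_21_6_6 (by decide) hn

/-- a subtree -/
def t21_21_6_6_24 : BlkD.Tr :=
  .E 1

lemma s21_21_6_6_24 : BlkD.treeX d21_21_6_6 (BlkD.exF 6 6 x21_21_6_6) t21_21_6_6_24
    (BlkD.upd (BlkD.upd (BlkD.upd (BlkD.upd (BlkD.upd (BlkD.upd (BlkD.upd (fun _ => 0) 0 2) 0 3) 1 5) 1 6) 2 2) 2 3) 3 10)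
    (BlkD.upd (BlkD.upd (BlkD.upd (BlkD.upd (BlkD.upd (BlkD.upd (BlkD.upd (BlkD.upd (fun _ => 21) 0 6) 2 6) 0 3) 1 18) 1 9) 1 7) 1 6) 2 3) = true := by
  decide +kernel

lemma n21_21_6_6_24 {n : ℕ} (hn : 5 ≤ n) : BlkD.NdX d21_21_6_6 (BlkD.exF 6 6 x21_21_6_6) n
    (BlkD.upd (BlkD.upd (BlkD.upd (BlkD.upd (BlkD.upd (BlkD.upd (BlkD.upd (fun _ => 0) 0 2) 0 3) 1 5) 1 6) 2 2) 2 3) 3 10)
    (BlkD.upd (BlkD.upd (BlkD.upd (BlkD.upd (BlkD.upd (BlkD.upd (BlkD.upd (BlkD.upd (fun _ => 21) 0 6) 2 6) 0 3) 1 18) 1 9) 1 7) 1 6) 2 3) :=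
  BlkD.NdX.tree s21_21_6_6_24 ok21_21_6_6 (by decide) hn

/-- a subtree -/
def t21_21_6_6_25 : BlkD.Tr :=
  .S 2 5 (.S 2 4 (.S 3 8 (.S 3 4 (.S 3 2 (.L 4 4 [4, 5, 6, 7, 21, 21, 21] [117, 116, 112, 102, 92,
    80] [] 100000 25000 24999 1416667 25000 8333 66667 41667 8333 8333 33333) (.S 3 3 (.S 4 6 (.S 4
    3 (.L 4 4 [4, 5, 6, 7, 21, 21, 21] [102, 92, 80, 66, 0, 0] [66, 56, 44, 30, 0, 0] 100000 18333
    18332 1435000 25000 0 75000 65000 25000 10000 25000) (.L 4 4 [4, 5, 6, 7, 21, 21, 21] [117,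
    116, 112, 102, 92, 80] [66, 56, 44, 30, 0, 0] 100000 32184 32184 1365518 0 17241 100000 65517 0
    3448 48276)) (.E 2)) (.S 4 6 (.S 4 3 (.L 4 4 [4, 5, 6, 7, 21, 21, 21] [102, 92, 80, 66, 0, 0]
    [90, 80, 70, 58, 44, 0] 100000 40909 40908 1354546 36364 0 100000 54545 0 9091 31818) (.L 4 4
    [4, 5, 6, 7, 21, 21, 21] [117, 116, 112, 102, 92, 80] [90, 80, 70, 58, 44, 0] 100000 33333
    33332 1300000 0 0 100000 100000 0 0 0)) (.E 2)))) (.E 2)) (.E 1)) (.L 4 4 [4, 5, 6, 7, 21, 21,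
    21] [117, 116, 112, 102, 92, 80] [] 100000 19429 19429 1436574 21143 0 80857 40286 15429 13143
    40571)) (.L 4 4 [4, 5, 6, 7, 21, 21, 21] [117, 116, 112, 102, 92, 80] [] 100000 33333 33332
    1300002 42857 0 85714 28571 0 42857 28571)

lemma s21_21_6_6_25 : BlkD.treeX d21_21_6_6 (BlkD.exF 6 6 x21_21_6_6) t21_21_6_6_25
    (BlkD.upd (BlkD.upd (BlkD.upd (BlkD.upd (BlkD.upd (fun _ => 0) 0 2) 0 3) 1 5) 1 6) 2 4)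
    (BlkD.upd (BlkD.upd (BlkD.upd (BlkD.upd (BlkD.upd (BlkD.upd (BlkD.upd (fun _ => 21) 0 6) 2 6) 0 3) 1 18) 1 9) 1 7) 1 6) = true := by
  decide +kernel

lemma n21_21_6_6_25 {n : ℕ} (hn : 5 ≤ n) : BlkD.NdX d21_21_6_6 (BlkD.exF 6 6 x21_21_6_6) n
    (BlkD.upd (BlkD.upd (BlkD.upd (BlkD.upd (BlkD.upd (fun _ => 0) 0 2) 0 3) 1 5) 1 6) 2 4)
    (BlkD.upd (BlkD.upd (BlkD.upd (BlkD.upd (BlkD.upd (BlkD.upd (BlkD.upd (fun _ => 21) 0 6) 2 6) 0 3) 1 18) 1 9) 1 7) 1 6) :=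
  BlkD.NdX.tree s21_21_6_6_25 ok21_21_6_6 (by decide) hn

/-- a subtree -/
def t21_21_6_6_26 : BlkD.Tr :=
  .S 2 3 (.L 6 6 [4, 4, 4, 5, 21, 21, 21] [136, 135, 134, 130, 120, 110] [] 100000 59260 59260
    1316668 27778 27778 97222 50000 0 5556 2778) (.L 6 6 [4, 4, 4, 5, 21, 21, 21] [136, 135, 134,
    130, 120, 110] [] 100000 50000 50000 1300000 50000 0 100000 50000 0 0 0)

lemma s21_21_6_6_26 : BlkD.treeX d21_21_6_6 (BlkD.exF 6 6 x21_21_6_6) t21_21_6_6_26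
    (BlkD.upd (BlkD.upd (BlkD.upd (BlkD.upd (fun _ => 0) 0 2) 0 3) 1 5) 1 7)
    (BlkD.upd (BlkD.upd (BlkD.upd (BlkD.upd (BlkD.upd (BlkD.upd (fun _ => 21) 0 6) 2 6) 0 3) 1 18) 1 9) 1 7) = true := by
  decide +kernel

lemma n21_21_6_6_26 {n : ℕ} (hn : 5 ≤ n) : BlkD.NdX d21_21_6_6 (BlkD.exF 6 6 x21_21_6_6) n
    (BlkD.upd (BlkD.upd (BlkD.upd (BlkD.upd (fun _ => 0) 0 2) 0 3) 1 5) 1 7)
    (BlkD.upd (BlkD.upd (BlkD.upd (BlkD.upd (BlkD.upd (BlkD.upd (fun _ => 21) 0 6) 2 6) 0 3) 1 18) 1 9) 1 7) :=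
  BlkD.NdX.tree s21_21_6_6_26 ok21_21_6_6 (by decide) hn

/-- a subtree -/
def t21_21_6_6_27 : BlkD.Tr :=
  .E 0

lemma s21_21_6_6_27 : BlkD.treeX d21_21_6_6 (BlkD.exF 6 6 x21_21_6_6) t21_21_6_6_27
    (BlkD.upd (BlkD.upd (BlkD.upd (BlkD.upd (fun _ => 0) 0 2) 0 3) 1 5) 1 8)
    (BlkD.upd (BlkD.upd (BlkD.upd (BlkD.upd (BlkD.upd (fun _ => 21) 0 6) 2 6) 0 3) 1 18) 1 9) = true := by
  decide +kernel

lemma n21_21_6_6_27 {n : ℕ} (hn : 5 ≤ n) : BlkD.NdX d21_21_6_6 (BlkD.exF 6 6 x21_21_6_6) n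
    (BlkD.upd (BlkD.upd (BlkD.upd (BlkD.upd (fun _ => 0) 0 2) 0 3) 1 5) 1 8)
    (BlkD.upd (BlkD.upd (BlkD.upd (BlkD.upd (BlkD.upd (fun _ => 21) 0 6) 2 6) 0 3) 1 18) 1 9) :=
  BlkD.NdX.tree s21_21_6_6_27 ok21_21_6_6 (by decide) hn

/-- a subtree -/
def t21_21_6_6_28 : BlkD.Tr :=
  .E 0

lemma s21_21_6_6_28 : BlkD.treeX d21_21_6_6 (BlkD.exF 6 6 x21_21_6_6) t21_21_6_6_28
    (BlkD.upd (BlkD.upd (BlkD.upd (fun _ => 0) 0 2) 0 3) 1 10)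
    (BlkD.upd (BlkD.upd (BlkD.upd (BlkD.upd (fun _ => 21) 0 6) 2 6) 0 3) 1 18) = true := by
  decide +kernel

lemma n21_21_6_6_28 {n : ℕ} (hn : 5 ≤ n) : BlkD.NdX d21_21_6_6 (BlkD.exF 6 6 x21_21_6_6) n
    (BlkD.upd (BlkD.upd (BlkD.upd (fun _ => 0) 0 2) 0 3) 1 10)
    (BlkD.upd (BlkD.upd (BlkD.upd (BlkD.upd (fun _ => 21) 0 6) 2 6) 0 3) 1 18) :=
  BlkD.NdX.tree s21_21_6_6_28 ok21_21_6_6 (by decide) hn

/-- a subtree -/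
def t21_21_6_6_29 : BlkD.Tr :=
  .E 0

lemma s21_21_6_6_29 : BlkD.treeX d21_21_6_6 (BlkD.exF 6 6 x21_21_6_6) t21_21_6_6_29
    (BlkD.upd (BlkD.upd (BlkD.upd (fun _ => 0) 0 2) 0 3) 1 19)
    (BlkD.upd (BlkD.upd (BlkD.upd (fun _ => 21) 0 6) 2 6) 0 3) = true := by
  decide +kernel

lemma n21_21_6_6_29 {n : ℕ} (hn : 5 ≤ n) : BlkD.NdX d21_21_6_6 (BlkD.exF 6 6 x21_21_6_6) n
    (BlkD.upd (BlkD.upd (BlkD.upd (fun _ => 0) 0 2) 0 3) 1 19)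
    (BlkD.upd (BlkD.upd (BlkD.upd (fun _ => 21) 0 6) 2 6) 0 3) :=
  BlkD.NdX.tree s21_21_6_6_29 ok21_21_6_6 (by decide) hn

/-- a subtree -/
def t21_21_6_6_30 : BlkD.Tr :=
  .S 1 2 (.S 1 1 (.L 6 6 [4, 4, 4, 5, 21, 21, 21] [] [] 100000 29366 29366 1371430 14286 14286
    28571 71429 0 11905 5952) (.S 2 3 (.L 6 6 [4, 4, 4, 5, 21, 21, 21] [44, 32, 18, 0, 0, 0] []
    100000 28829 28829 1402704 13514 24324 48649 62162 2703 8108 4054) (.L 6 6 [4, 4, 4, 5, 21, 21,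
    21] [44, 32, 18, 0, 0, 0] [] 100000 26042 26042 1415625 40625 3125 53125 81250 3125 15625
    7812))) (.S 1 3 (.S 2 3 (.S 2 1 (.L 6 6 [4, 4, 4, 5, 21, 21, 21] [66, 56, 44, 30, 0, 0] []
    100000 66667 66667 1100000 0 100000 100000 100000 0 0 0) (.S 2 2 (.L 6 6 [4, 4, 4, 5, 21, 21,
    21] [66, 56, 44, 30, 0, 0] [] 100000 38095 38094 1371429 0 57143 28571 71429 0 0 0) (.S 3 11
    (.S 3 5 (.S 3 2 (.L 6 6 [4, 4, 4, 5, 21, 21, 21] [66, 56, 44, 30, 0, 0] [] 100000 33333 33332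
    1200000 0 0 0 0 0 0 0) (.S 3 4 (.L 6 6 [4, 4, 4, 5, 21, 21, 21] [66, 56, 44, 30, 0, 0] []
    100000 33333 33332 1377778 11111 22222 22222 22222 0 0 0) (.S 4 3 (.S 4 1 (.L 4 4 [4, 5, 6, 7,
    21, 21, 21] [44, 30, 0, 0, 0, 0] [100, 96, 86, 76, 64, 50] 100000 12699 12699 1457143 9524
    19048 52381 57143 33333 14286 33333) (.L 4 4 [4, 5, 6, 7, 21, 21, 21] [66, 56, 44, 30, 0, 0]
    [100, 96, 86, 76, 64, 50] 100000 32026 32026 1366669 0 23529 66667 62745 0 3922 33333)) (.E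
    2)))) (.S 3 8 (.S 3 7 (.S 3 6 (.S 4 3 (.S 4 1 (.L 4 4 [4, 5, 6, 7, 21, 21, 21] [44, 30, 0, 0,
    0, 0] [117, 116, 112, 102, 92, 80] 100000 3395 3395 1481484 12037 9259 57407 73148 54630 17593
    45370) (.L 4 4 [4, 5, 6, 7, 21, 21, 21] [66, 56, 44, 30, 0, 0] [117, 116, 112, 102, 92, 80]
    100000 27083 27082 1400000 0 6250 100000 81250 0 18750 18750)) (.E 2)) (.L 4 4 [4, 5, 6, 7, 21,
    21, 21] [66, 56, 44, 30, 0, 0] [136, 135, 134, 130, 120, 110] 100000 20000 20000 1420000 0 0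
    80000 100000 20000 20000 20000)) (.E 1)) (.E 1))) (.E 1)))) (.S 2 5 (.S 2 4 (.S 3 10 (.S 3 5
    (.S 3 2 (.L 4 4 [4, 5, 6, 7, 21, 21, 21] [66, 56, 44, 30, 0, 0] [] 100000 33333 33332 1300000 0
    0 0 0 0 0 0) (.S 3 4 (.S 3 3 (.L 4 4 [4, 5, 6, 7, 21, 21, 21] [66, 56, 44, 30, 0, 0] [66, 56,
    44, 30, 0, 0] 100000 33334 33334 1369231 15385 15385 30769 30769 0 0 7692) (.S 4 3 (.S 4 1 (.L
    6 6 [4, 4, 4, 5, 21, 21, 21] [44, 30, 0, 0, 0, 0] [90, 80, 70, 58, 44, 0] 100000 6173 6173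
    1477781 22222 0 66667 70370 44444 18519 22222) (.L 6 6 [4, 4, 4, 5, 21, 21, 21] [66, 56, 44,
    30, 0, 0] [90, 80, 70, 58, 44, 0] 100000 33333 33332 1375000 0 12500 100000 62500 0 0 0)) (.E
    2))) (.S 4 3 (.S 4 1 (.L 6 6 [4, 4, 4, 5, 21, 21, 21] [44, 30, 0, 0, 0, 0] [110, 106, 96, 86,
    74, 60] 100000 0 0 1459651 28070 1754 78947 54386 49123 45614 23684) (.L 6 6 [4, 4, 4, 5, 21,
    21, 21] [66, 56, 44, 30, 0, 0] [110, 106, 96, 86, 74, 60] 100000 26852 26852 1366667 11111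
    11111 100000 55556 0 19444 15278)) (.E 2)))) (.L 6 6 [4, 4, 4, 5, 21, 21, 21] [66, 56, 44, 30,
    0, 0] [] 100000 233333 0 2 91667 0 183333 333333 0 0 0)) (.E 1)) (.S 3 9 (.S 3 4 (.S 3 2 (.L 6
    6 [4, 4, 4, 5, 21, 21, 21] [66, 56, 44, 30, 0, 0] [] 100000 25501 25501 1409293 33333 0 79781
    46448 9290 7104 7104) (.L 6 6 [4, 4, 4, 5, 21, 21, 21] [66, 56, 44, 30, 0, 0] [] 100000 0 0
    1480001 14286 2857 74286 45714 14286 71429 35714)) (.E 1)) (.E 1))) (.L 6 6 [4, 4, 4, 5, 21,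
    21, 21] [66, 56, 44, 30, 0, 0] [] 100000 0 0 1425926 14815 0 66667 59259 14815 70370 35185)))
    (.S 2 3 (.S 2 1 (.L 6 6 [4, 4, 4, 5, 21, 21, 21] [90, 80, 70, 58, 44, 0] [] 100000 66667 66667
    1100000 0 100000 100000 100000 0 0 0) (.S 2 2 (.L 6 6 [4, 4, 4, 5, 21, 21, 21] [90, 80, 70, 58,
    44, 0] [] 100000 48958 48957 1337500 0 62500 50000 75000 3125 0 0) (.S 3 10 (.S 3 5 (.S 3 2 (.L
    6 6 [4, 4, 4, 5, 21, 21, 21] [90, 80, 70, 58, 44, 0] [] 100000 33333 33332 1300000 0 0 0 0 0 0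
    0) (.S 3 4 (.S 3 3 (.L 6 6 [4, 4, 4, 5, 21, 21, 21] [90, 80, 70, 58, 44, 0] [60, 50, 38, 24, 0,
    0] 100000 33334 33334 1366667 16667 16667 33333 33333 0 0 0) (.S 4 4 (.S 4 2 (.L 6 6 [4, 4, 4,
    5, 21, 21, 21] [70, 58, 44, 0, 0, 0] [82, 72, 62, 50, 36, 0] 100000 24498 24497 1421687 19277
    20482 43373 38554 19277 3614 9639) (.L 6 6 [4, 4, 4, 5, 21, 21, 21] [90, 80, 70, 58, 44, 0]
    [82, 72, 62, 50, 36, 0] 100000 33333 33332 1357144 0 28571 57143 57143 0 0 0)) (.E 2))) (.S 4 4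
    (.S 4 2 (.L 4 4 [4, 5, 6, 7, 21, 21, 21] [70, 58, 44, 0, 0, 0] [100, 96, 86, 76, 64, 50] 100000
    19444 19443 1433335 0 33333 50000 66667 50000 8333 33333) (.L 4 4 [4, 5, 6, 7, 21, 21, 21] [90,
    80, 70, 58, 44, 0] [100, 96, 86, 76, 64, 50] 100000 27083 27082 1400000 0 6250 100000 81250 0
    18750 18750)) (.E 2)))) (.S 3 8 (.S 3 7 (.S 3 6 (.S 4 4 (.S 4 2 (.L 4 4 [4, 5, 6, 7, 21, 21,
    21] [70, 58, 44, 0, 0, 0] [117, 116, 112, 102, 92, 80] 100000 19047 19047 1414288 0 28571 42857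
    85714 57143 14286 42857) (.L 4 4 [4, 5, 6, 7, 21, 21, 21] [90, 80, 70, 58, 44, 0] [117, 116,
    112, 102, 92, 80] 100000 33333 33332 1300000 0 0 100000 100000 0 0 0)) (.E 2)) (.E 2)) (.E 1))
    (.E 1))) (.E 1)))) (.S 2 5 (.S 2 4 (.S 3 9 (.S 3 4 (.S 3 2 (.L 4 4 [4, 5, 6, 7, 21, 21, 21]
    [90, 80, 70, 58, 44, 0] [] 100000 33334 33334 1366666 16667 16667 16667 16667 0 0 0) (.S 3 3
    (.S 4 4 (.S 4 2 (.L 4 4 [4, 5, 6, 7, 21, 21, 21] [70, 58, 44, 0, 0, 0] [66, 56, 44, 30, 0, 0]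
    100000 5186 5186 1473335 6667 6667 60000 84444 53333 15556 40000) (.L 4 4 [4, 5, 6, 7, 21, 21,
    21] [90, 80, 70, 58, 44, 0] [66, 56, 44, 30, 0, 0] 100000 33334 33334 1366666 0 16667 100000
    66667 0 0 50000)) (.E 2)) (.S 4 4 (.S 4 2 (.S 4 1 (.L 7 7 [4, 4, 4, 4, 21, 21, 21] [58, 44, 0,
    0, 0, 0] [90, 80, 70, 58, 44, 0] 100000 0 0 1490000 17500 17500 57500 57500 42500 40000 20000)
    (.L 7 7 [4, 4, 4, 4, 21, 21, 21] [70, 58, 44, 0, 0, 0] [90, 80, 70, 58, 44, 0] 100000 17333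
    17332 1424000 8000 0 88000 80000 16000 20000 12000)) (.L 7 7 [4, 4, 4, 4, 21, 21, 21] [90, 80,
    70, 58, 44, 0] [90, 80, 70, 58, 44, 0] 100000 33333 33332 1300000 0 0 100000 100000 0 0 0)) (.E
    2)))) (.L 7 7 [4, 4, 4, 4, 21, 21, 21] [90, 80, 70, 58, 44, 0] [] 100000 6667 6667 1420000
    20000 0 100000 40000 20000 60000 30000)) (.E 1)) (.S 3 8 (.S 3 4 (.S 3 2 (.L 7 7 [4, 4, 4, 4,
    21, 21, 21] [90, 80, 70, 58, 44, 0] [] 100000 26087 26087 1419566 0 40217 80435 80435 15217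
    3261 7609) (.L 7 7 [4, 4, 4, 4, 21, 21, 21] [90, 80, 70, 58, 44, 0] [] 100000 1 1 1474285 11429
    11429 51429 57143 22857 54286 27143)) (.E 1)) (.E 1))) (.L 7 7 [4, 4, 4, 4, 21, 21, 21] [90,
    80, 70, 58, 44, 0] [] 100000 0 0 1469231 30769 0 76923 30769 30769 46154 23077))))

lemma s21_21_6_6_30 : BlkD.treeX d21_21_6_6 (BlkD.exF 6 6 x21_21_6_6) t21_21_6_6_30
    (BlkD.upd (fun _ => 0) 0 4)
    (BlkD.upd (BlkD.upd (BlkD.upd (BlkD.upd (BlkD.upd (BlkD.upd (BlkD.upd (fun _ => 21) 0 6) 2 6) 0 5) 0 4) 1 17) 1 8) 1 4) = true := by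
  decide +kernel

lemma n21_21_6_6_30 {n : ℕ} (hn : 5 ≤ n) : BlkD.NdX d21_21_6_6 (BlkD.exF 6 6 x21_21_6_6) n
    (BlkD.upd (fun _ => 0) 0 4)
    (BlkD.upd (BlkD.upd (BlkD.upd (BlkD.upd (BlkD.upd (BlkD.upd (BlkD.upd (fun _ => 21) 0 6) 2 6) 0 5) 0 4) 1 17) 1 8) 1 4) :=
  BlkD.NdX.tree s21_21_6_6_30 ok21_21_6_6 (by decide) hn

/-- a subtree -/
def t21_21_6_6_31 : BlkD.Tr :=
  .S 1 6 (.S 1 5 (.S 2 3 (.S 2 1 (.L 7 7 [4, 4, 4, 4, 21, 21, 21] [110, 106, 96, 86, 74, 60] []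
    100000 50000 50000 1100000 0 100000 50000 100000 0 0 0) (.S 2 2 (.L 7 7 [4, 4, 4, 4, 21, 21,
    21] [110, 106, 96, 86, 74, 60] [] 100000 26087 26086 1378260 8696 47826 56522 52174 21739 0
    21739) (.S 3 9 (.S 3 4 (.S 3 2 (.L 7 7 [4, 4, 4, 4, 21, 21, 21] [110, 106, 96, 86, 74, 60] []
    100000 25000 25000 1350000 25000 25000 75000 50000 25000 0 25000) (.S 3 3 (.L 7 7 [4, 4, 4, 4,
    21, 21, 21] [110, 106, 96, 86, 74, 60] [60, 50, 38, 24, 0, 0] 100000 33334 33334 1366667 26667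
    26667 53333 53333 0 0 13333) (.S 4 5 (.S 4 2 (.L 7 7 [4, 4, 4, 4, 21, 21, 21] [86, 74, 60, 0,
    0, 0] [82, 72, 62, 50, 36, 0] 100000 9028 9028 1441668 0 33333 25000 91667 50000 14583 25000)
    (.L 7 7 [4, 4, 4, 4, 21, 21, 21] [110, 106, 96, 86, 74, 60] [82, 72, 62, 50, 36, 0] 100000
    20336 20336 1426416 3774 3774 81132 80503 37736 629 18868)) (.E 2)))) (.L 7 7 [4, 4, 4, 4, 21,
    21, 21] [110, 106, 96, 86, 74, 60] [] 100000 1667 1667 1440000 0 5000 45000 100000 85000 10000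
    42500)) (.E 1)))) (.S 2 5 (.S 2 4 (.S 3 8 (.S 3 4 (.S 3 2 (.L 7 7 [4, 4, 4, 4, 21, 21, 21]
    [110, 106, 96, 86, 74, 60] [] 100000 30486 30485 1379895 30092 30223 60447 61892 7753 394
    18922) (.S 3 3 (.S 4 5 (.S 4 2 (.L 7 7 [4, 4, 4, 4, 21, 21, 21] [86, 74, 60, 0, 0, 0] [66, 56,
    44, 30, 0, 0] 100000 15333 15332 1426000 2000 46000 34000 84000 58000 0 30000) (.L 7 7 [4, 4,
    4, 4, 21, 21, 21] [110, 106, 96, 86, 74, 60] [66, 56, 44, 30, 0, 0] 100000 14286 14286 1428573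
    0 0 85714 85714 28571 14286 14286)) (.E 2)) (.L 7 7 [4, 4, 4, 4, 21, 21, 21] [110, 106, 96, 86,
    74, 60] [90, 80, 70, 58, 44, 0] 100000 6667 6667 1420000 0 20000 40000 100000 60000 20000
    30000))) (.E 2)) (.E 1)) (.L 7 7 [4, 4, 4, 4, 21, 21, 21] [110, 106, 96, 86, 74, 60] [] 100000
    15790 15790 1442106 28947 0 72368 56579 28947 11842 14474)) (.L 7 7 [4, 4, 4, 4, 21, 21, 21]
    [110, 106, 96, 86, 74, 60] [] 100000 3030 3030 1386364 31818 0 81818 0 36364 36364 18182))) (.L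
    7 7 [4, 4, 4, 4, 21, 21, 21] [129, 128, 124, 114, 104, 92] [] 100000 33333 33332 1375000 25000
    0 100000 50000 0 0 0)) (.E 0)

lemma s21_21_6_6_31 : BlkD.treeX d21_21_6_6 (BlkD.exF 6 6 x21_21_6_6) t21_21_6_6_31
    (BlkD.upd (BlkD.upd (fun _ => 0) 0 4) 1 5)
    (BlkD.upd (BlkD.upd (BlkD.upd (BlkD.upd (BlkD.upd (BlkD.upd (fun _ => 21) 0 6) 2 6) 0 5) 0 4) 1 17) 1 8) = true := by
  decide +kernel

lemma n21_21_6_6_31 {n : ℕ} (hn : 5 ≤ n) : BlkD.NdX d21_21_6_6 (BlkD.exF 6 6 x21_21_6_6) n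
    (BlkD.upd (BlkD.upd (fun _ => 0) 0 4) 1 5)
    (BlkD.upd (BlkD.upd (BlkD.upd (BlkD.upd (BlkD.upd (BlkD.upd (fun _ => 21) 0 6) 2 6) 0 5) 0 4) 1 17) 1 8) :=
  BlkD.NdX.tree s21_21_6_6_31 ok21_21_6_6 (by decide) hn

/-- a subtree -/
def t21_21_6_6_32 : BlkD.Tr :=
  .E 0

lemma s21_21_6_6_32 : BlkD.treeX d21_21_6_6 (BlkD.exF 6 6 x21_21_6_6) t21_21_6_6_32
    (BlkD.upd (BlkD.upd (fun _ => 0) 0 4) 1 9)
    (BlkD.upd (BlkD.upd (BlkD.upd (BlkD.upd (BlkD.upd (fun _ => 21) 0 6) 2 6) 0 5) 0 4) 1 17) = true := by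
  decide +kernel

lemma n21_21_6_6_32 {n : ℕ} (hn : 5 ≤ n) : BlkD.NdX d21_21_6_6 (BlkD.exF 6 6 x21_21_6_6) n
    (BlkD.upd (BlkD.upd (fun _ => 0) 0 4) 1 9)
    (BlkD.upd (BlkD.upd (BlkD.upd (BlkD.upd (BlkD.upd (fun _ => 21) 0 6) 2 6) 0 5) 0 4) 1 17) :=
  BlkD.NdX.tree s21_21_6_6_32 ok21_21_6_6 (by decide) hn

/-- a subtree -/
def t21_21_6_6_33 : BlkD.Tr :=
  .E 0

lemma s21_21_6_6_33 : BlkD.treeX d21_21_6_6 (BlkD.exF 6 6 x21_21_6_6) t21_21_6_6_33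
    (BlkD.upd (BlkD.upd (fun _ => 0) 0 4) 1 18)
    (BlkD.upd (BlkD.upd (BlkD.upd (BlkD.upd (fun _ => 21) 0 6) 2 6) 0 5) 0 4) = true := by
  decide +kernel

lemma n21_21_6_6_33 {n : ℕ} (hn : 5 ≤ n) : BlkD.NdX d21_21_6_6 (BlkD.exF 6 6 x21_21_6_6) n
    (BlkD.upd (BlkD.upd (fun _ => 0) 0 4) 1 18)
    (BlkD.upd (BlkD.upd (BlkD.upd (BlkD.upd (fun _ => 21) 0 6) 2 6) 0 5) 0 4) :=
  BlkD.NdX.tree s21_21_6_6_33 ok21_21_6_6 (by decide) hn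

/-- a subtree -/
def t21_21_6_6_34 : BlkD.Tr :=
  .S 1 16 (.S 1 8 (.S 1 4 (.S 1 2 (.S 1 1 (.S 1 0 (.L 7 7 [4, 4, 4, 4, 21, 21, 21] [0, 0, 0, 0, 0,
    0] [] 100000 28962 28962 1378690 0 21311 0 65574 0 13115 6557) (.S 2 3 (.L 7 7 [4, 4, 4, 4, 21,
    21, 21] [24, 10, 0, 0, 0, 0] [] 100000 29710 29709 1382611 30435 30435 58696 63043 2174 6522
    15217) (.L 6 6 [4, 4, 4, 5, 21, 21, 21] [24, 10, 0, 0, 0, 0] [] 100000 26175 26175 1412754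
    77181 3356 83221 83893 2685 16107 8054))) (.S 2 3 (.S 2 1 (.L 6 6 [4, 4, 4, 5, 21, 21, 21] [48,
    36, 22, 0, 0, 0] [] 100000 50000 50000 1100000 0 100000 0 100000 0 0 0) (.S 2 2 (.L 6 6 [4, 4,
    4, 5, 21, 21, 21] [48, 36, 22, 0, 0, 0] [] 100000 50000 50000 1288891 0 66667 44444 77778 5556
    0 0) (.S 3 11 (.S 3 5 (.S 3 2 (.L 6 6 [4, 4, 4, 5, 21, 21, 21] [48, 36, 22, 0, 0, 0] [] 100000
    33333 33332 1200000 0 0 0 0 0 0 0) (.S 3 4 (.L 6 6 [4, 4, 4, 5, 21, 21, 21] [48, 36, 22, 0, 0,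
    0] [] 100000 30931 30931 1372073 0 33333 38739 60360 5405 901 2703) (.L 4 4 [4, 5, 6, 7, 21,
    21, 21] [48, 36, 22, 0, 0, 0] [100, 96, 86, 76, 64, 50] 100000 21775 21775 1427420 0 24194
    45968 73387 8065 18548 45968))) (.L 4 4 [4, 5, 6, 7, 21, 21, 21] [48, 36, 22, 0, 0, 0] []
    100000 4110 4110 1435616 8219 9589 63014 73973 54795 16438 35616)) (.E 1)))) (.S 2 5 (.S 2 4
    (.S 3 10 (.S 3 5 (.S 3 2 (.L 4 4 [4, 5, 6, 7, 21, 21, 21] [48, 36, 22, 0, 0, 0] [] 100000 33333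
    33332 1300000 0 0 0 0 0 0 0) (.S 3 4 (.L 7 7 [4, 4, 4, 4, 21, 21, 21] [48, 36, 22, 0, 0, 0] []
    100000 26087 26087 1419566 40217 0 80435 80435 3261 15217 7609) (.L 7 7 [4, 4, 4, 4, 21, 21,
    21] [48, 36, 22, 0, 0, 0] [110, 106, 96, 86, 74, 60] 100000 0 0 1400000 50000 0 100000 50000
    50000 50000 50000))) (.L 7 7 [4, 4, 4, 4, 21, 21, 21] [48, 36, 22, 0, 0, 0] [] 100000 200000 0
    0 0 0 250000 300000 0 0 0)) (.E 1)) (.L 7 7 [4, 4, 4, 4, 21, 21, 21] [48, 36, 22, 0, 0, 0] []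
    100000 25000 24999 1400000 22917 8333 91667 54167 8333 8333 18750)) (.L 7 7 [4, 4, 4, 4, 21,
    21, 21] [48, 36, 22, 0, 0, 0] [] 100000 0 0 1400000 0 0 50000 50000 40000 40000 20000)))) (.S 1
    3 (.S 2 3 (.L 7 7 [4, 4, 4, 4, 21, 21, 21] [72, 62, 50, 36, 0, 0] [] 100000 17223 17223 1443334
    18333 20000 58333 60000 41667 3333 20833) (.L 7 7 [4, 4, 4, 4, 21, 21, 21] [72, 62, 50, 36, 0,
    0] [] 100000 2035 2035 1487325 21362 4225 53052 68545 63380 15258 31690)) (.S 2 3 (.L 7 7 [4,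
    4, 4, 4, 21, 21, 21] [98, 88, 78, 66, 52, 0] [] 100000 4545 4544 1477274 0 22727 54545 45455
    68182 9091 34091) (.L 7 7 [4, 4, 4, 4, 21, 21, 21] [98, 88, 78, 66, 52, 0] [] 100000 0 0
    1457145 0 0 71429 78571 57143 21429 28571)))) (.E 0)) (.E 0)) (.E 0)

lemma s21_21_6_6_34 : BlkD.treeX d21_21_6_6 (BlkD.exF 6 6 x21_21_6_6) t21_21_6_6_34
    (BlkD.upd (BlkD.upd (fun _ => 0) 0 4) 0 5)
    (BlkD.upd (BlkD.upd (BlkD.upd (fun _ => 21) 0 6) 2 6) 0 5) = true := by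
  decide +kernel

lemma n21_21_6_6_34 {n : ℕ} (hn : 5 ≤ n) : BlkD.NdX d21_21_6_6 (BlkD.exF 6 6 x21_21_6_6) n
    (BlkD.upd (BlkD.upd (fun _ => 0) 0 4) 0 5)
    (BlkD.upd (BlkD.upd (BlkD.upd (fun _ => 21) 0 6) 2 6) 0 5) :=
  BlkD.NdX.tree s21_21_6_6_34 ok21_21_6_6 (by decide) hn

/-- a subtree -/
def t21_21_6_6_35 : BlkD.Tr :=
  .L 7 7 [4, 4, 4, 4, 21, 21, 21] [] [] 100000 0 0 1485368 0 14634 28049 50000 68293 15854 34146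

lemma s21_21_6_6_35 : BlkD.treeX d21_21_6_6 (BlkD.exF 6 6 x21_21_6_6) t21_21_6_6_35
    (BlkD.upd (BlkD.upd (fun _ => 0) 0 4) 0 6)
    (BlkD.upd (BlkD.upd (fun _ => 21) 0 6) 2 6) = true := by
  decide +kernel

lemma n21_21_6_6_35 {n : ℕ} (hn : 5 ≤ n) : BlkD.NdX d21_21_6_6 (BlkD.exF 6 6 x21_21_6_6) n
    (BlkD.upd (BlkD.upd (fun _ => 0) 0 4) 0 6)
    (BlkD.upd (BlkD.upd (fun _ => 21) 0 6) 2 6) :=
  BlkD.NdX.tree s21_21_6_6_35 ok21_21_6_6 (by decide) hn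

/-- a subtree -/
def t21_21_6_6_36 : BlkD.Tr :=
  .E 1

lemma s21_21_6_6_36 : BlkD.treeX d21_21_6_6 (BlkD.exF 6 6 x21_21_6_6) t21_21_6_6_36
    (BlkD.upd (fun _ => 0) 2 7)
    (BlkD.upd (fun _ => 21) 0 6) = true := by
  decide +kernel

lemma n21_21_6_6_36 {n : ℕ} (hn : 5 ≤ n) : BlkD.NdX d21_21_6_6 (BlkD.exF 6 6 x21_21_6_6) n
    (BlkD.upd (fun _ => 0) 2 7)
    (BlkD.upd (fun _ => 21) 0 6) :=
  BlkD.NdX.tree s21_21_6_6_36 ok21_21_6_6 (by decide) hn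

/-- a subtree -/
def t21_21_6_6_37 : BlkD.Tr :=
  .E 0

lemma s21_21_6_6_37 : BlkD.treeX d21_21_6_6 (BlkD.exF 6 6 x21_21_6_6) t21_21_6_6_37
    (BlkD.upd (fun _ => 0) 0 7)
    (fun _ => 21) = true := by
  decide +kernel

lemma n21_21_6_6_37 {n : ℕ} (hn : 5 ≤ n) : BlkD.NdX d21_21_6_6 (BlkD.exF 6 6 x21_21_6_6) n
    (BlkD.upd (fun _ => 0) 0 7)
    (fun _ => 21) :=
  BlkD.NdX.tree s21_21_6_6_37 ok21_21_6_6 (by decide) hn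

end BlkC

end Pool.Agent.Lib.MP_f04ccf_co
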