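import Pool.Agent.Lib.MP_f04ccf_co.M.BlkX21_21_6_6d
import Pool.Agent.Lib.MP_f04ccf_co.M.BlkX21_21_6_6p1
import Pool.Agent.Lib.MP_f04ccf_co.M.BlkX21_21_6_6w

/-!
MP_f04ccf_co, block certificate with exceptions, `R = 21`, `H = 21`, the pair `(6, 6)` (data of helper99 / helper13,
generated by helper8, genx.py): the parts together.
-/

set_option autoImplicit false
set_option maxRecDepth 100000

namespace Pool.Agent.Lib.MP_f04ccf_co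

namespace BlkC

lemma x21_21_6_6_5 : NoNd ((21 : ℕ) : ℤ) ((21 : ℕ) : ℤ) 5 6 6 fun x y z w _ _ =>
    BlkD.exF 6 6 x21_21_6_6 x y z w := by
  refine NoNd.of_E (by norm_num) (by norm_num) fun e he => ?_
  exact absurd he (by simp [x21_21_6_6])

lemma x21_21_6_6_6 : NoNd ((21 : ℕ) : ℤ) ((21 : ℕ) : ℤ) 6 6 6 fun x y z w _ _ =>
    BlkD.exF 6 6 x21_21_6_6 x y z w := by
  refine NoNd.of_E (by norm_num) (by norm_num) fun e he => ?_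
  exact absurd he (by simp [x21_21_6_6])

lemma x21_21_6_6_7 : NoNd ((21 : ℕ) : ℤ) ((21 : ℕ) : ℤ) 7 6 6 fun x y z w _ _ =>
    BlkD.exF 6 6 x21_21_6_6 x y z w := by
  refine NoNd.of_E (by norm_num) (by norm_num) fun e he => ?_
  exact absurd he (by simp [x21_21_6_6])

lemma x21_21_6_6_8 : NoNd ((21 : ℕ) : ℤ) ((21 : ℕ) : ℤ) 8 6 6 fun x y z w _ _ =>
    BlkD.exF 6 6 x21_21_6_6 x y z w := by
  refine NoNd.of_E (by norm_num) (by norm_num) fun e he => ?_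
  exact absurd he (by simp [x21_21_6_6])

lemma r21_21_6_6 {n : ℕ} (hn : 5 ≤ n) : BlkD.NdX d21_21_6_6 (BlkD.exF 6 6 x21_21_6_6) n (fun _ => 0) (fun _ => 21) :=
  (BlkD.NdX.sp 0 6
  (BlkD.NdX.sp 2 6
  (BlkD.NdX.sp 0 3
  (BlkD.NdX.sp 0 1
  (n21_21_6_6_0 hn)
  (BlkD.NdX.sp 0 2
  (BlkD.NdX.sp 1 19
  (BlkD.NdX.sp 1 9
  (BlkD.NdX.sp 1 4
  (n21_21_6_6_1 hn)
  (BlkD.NdX.sp 1 7
  (BlkD.NdX.sp 1 6
  (BlkD.NdX.sp 1 5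
  (n21_21_6_6_2 hn)
  (n21_21_6_6_3 hn))
  (n21_21_6_6_4 hn))
  (n21_21_6_6_5 hn)))
  (n21_21_6_6_6 hn))
  (n21_21_6_6_7 hn))
  (BlkD.NdX.sp 1 18
  (BlkD.NdX.sp 1 9
  (BlkD.NdX.sp 1 4
  (n21_21_6_6_8 hn)
  (BlkD.NdX.sp 1 7
  (BlkD.NdX.sp 1 6
  (BlkD.NdX.sp 1 5
  (n21_21_6_6_9 hn)
  (BlkD.NdX.sp 2 3
  (BlkD.NdX.sp 2 1
  (n21_21_6_6_10 hn)
  (BlkD.NdX.sp 2 2
  (n21_21_6_6_11 hn)
  (BlkD.NdX.sp 3 9
  (BlkD.NdX.sp 3 4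
  (n21_21_6_6_12 hn)
  (BlkD.NdX.sp 3 7
  (BlkD.NdX.sp 3 6
  (BlkD.NdX.sp 3 5
  (n21_21_6_6_13 hn)
  (BlkD.NdX.sp 4 6
  (BlkD.NdX.sp 4 3
  (BlkD.NdX.sp 4 1
  (n21_21_6_6_14 hn)
  (BlkD.NdX.sp 4 2
  (n21_21_6_6_15 hn)
  (BlkD.NdX.sp 5 6
  (BlkD.NdX.sp 5 3
  (BlkD.NdX.sp 5 1
  (n21_21_6_6_16 hn)
  (BlkD.NdX.sp 5 2
  (n21_21_6_6_17 hn)
  (w21_21_6_6_0 hn)))
  (n21_21_6_6_18 hn))
  (n21_21_6_6_19 hn))))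
  (n21_21_6_6_20 hn))
  (n21_21_6_6_21 hn)))
  (n21_21_6_6_22 hn))
  (n21_21_6_6_23 hn)))
  (n21_21_6_6_24 hn))))
  (n21_21_6_6_25 hn)))
  (n21_21_6_6_26 hn))
  (n21_21_6_6_27 hn)))
  (n21_21_6_6_28 hn))
  (n21_21_6_6_29 hn))))
  (BlkD.NdX.sp 0 5
  (BlkD.NdX.sp 0 4
  (BlkD.NdX.sp 1 17
  (BlkD.NdX.sp 1 8
  (BlkD.NdX.sp 1 4
  (n21_21_6_6_30 hn)
  (n21_21_6_6_31 hn))
  (n21_21_6_6_32 hn))
  (n21_21_6_6_33 hn))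
  (n21_21_6_6_34 hn))
  (n21_21_6_6_35 hn)))
  (n21_21_6_6_36 hn))
  (n21_21_6_6_37 hn))

/-- **`R = 21`, `H = 21`, the pair `(6, 6)`** -/
theorem pr21_21_6_6 {n : ℕ} (hn : 5 ≤ n) : NoPr ((21 : ℕ) : ℤ) ((21 : ℕ) : ℤ) n 6 6 := by
  by_cases h : n < 9
  · interval_cases n
    · exact BlkD.NdX.pr (r21_21_6_6 (by norm_num)) (by decide) (by decide) x21_21_6_6_5 rfl rfl rfl rfl
    · exact BlkD.NdX.pr (r21_21_6_6 (by norm_num)) (by decide) (by decide) x21_21_6_6_6 rfl rfl rfl rfl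
    · exact BlkD.NdX.pr (r21_21_6_6 (by norm_num)) (by decide) (by decide) x21_21_6_6_7 rfl rfl rfl rfl
    · exact BlkD.NdX.pr (r21_21_6_6 (by norm_num)) (by decide) (by decide) x21_21_6_6_8 rfl rfl rfl rfl
  · exact NoPr.big (by omega) (by omega)

end BlkC

end Pool.Agent.Lib.MP_f04ccf_co
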