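import Pool.Agent.Lib.MP_f04ccf_co.M.BlkC21a1
import Pool.Agent.Lib.MP_f04ccf_co.M.BlkC21a2
import Pool.Agent.Lib.MP_f04ccf_co.M.BlkC21a3
import Pool.Agent.Lib.MP_f04ccf_co.M.BlkC21a4
import Pool.Agent.Lib.MP_f04ccf_co.M.BlkC21a5
import Pool.Agent.Lib.MP_f04ccf_co.M.BlkC21a6
import Pool.Agent.Lib.MP_f04ccf_co.M.BlkC21a7
import Pool.Agent.Lib.MP_f04ccf_co.M.BlkC21a8
import Pool.Agent.Lib.MP_f04ccf_co.M.BlkC21a9
import Pool.Agent.Lib.MP_f04ccf_co.M.BlkC21a10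
import Pool.Agent.Lib.MP_f04ccf_co.M.BlkC21a11
import Pool.Agent.Lib.MP_f04ccf_co.M.BlkC21a12
import Pool.Agent.Lib.MP_f04ccf_co.M.BlkC21a13
import Pool.Agent.Lib.MP_f04ccf_co.M.BlkC21a14
import Pool.Agent.Lib.MP_f04ccf_co.M.BlkC21a15
import Pool.Agent.Lib.MP_f04ccf_co.M.BlkC21a16
import Pool.Agent.Lib.MP_f04ccf_co.M.BlkC21a17
import Pool.Agent.Lib.MP_f04ccf_co.M.BlkC21a18
import Pool.Agent.Lib.MP_f04ccf_co.M.BlkC21a19
import Pool.Agent.Lib.MP_f04ccf_co.M.BlkC21a20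
import Pool.Agent.Lib.MP_f04ccf_co.M.BlkC21a21
import Pool.Agent.Lib.MP_f04ccf_co.M.BlkC21a22
import Pool.Agent.Lib.MP_f04ccf_co.M.BlkC21a23
import Pool.Agent.Lib.MP_f04ccf_co.M.BlkC21a24
import Pool.Agent.Lib.MP_f04ccf_co.M.BlkC21a25
import Pool.Agent.Lib.MP_f04ccf_co.M.BlkC21b1
import Pool.Agent.Lib.MP_f04ccf_co.M.BlkC21b2
import Pool.Agent.Lib.MP_f04ccf_co.M.BlkC21b3
import Pool.Agent.Lib.MP_f04ccf_co.M.BlkC21b4
import Pool.Agent.Lib.MP_f04ccf_co.M.BlkC21b5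
import Pool.Agent.Lib.MP_f04ccf_co.M.BlkC21b6
import Pool.Agent.Lib.MP_f04ccf_co.M.BlkC21b7
import Pool.Agent.Lib.MP_f04ccf_co.M.BlkC21b8
import Pool.Agent.Lib.MP_f04ccf_co.M.BlkC21b9
import Pool.Agent.Lib.MP_f04ccf_co.M.BlkC21b10
import Pool.Agent.Lib.MP_f04ccf_co.M.BlkC21b11
import Pool.Agent.Lib.MP_f04ccf_co.M.BlkC21b12
import Pool.Agent.Lib.MP_f04ccf_co.M.BlkC21b13
import Pool.Agent.Lib.MP_f04ccf_co.M.BlkC21b14
import Pool.Agent.Lib.MP_f04ccf_co.M.BlkC21b15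
import Pool.Agent.Lib.MP_f04ccf_co.M.BlkC21b16
import Pool.Agent.Lib.MP_f04ccf_co.M.BlkC21b17
import Pool.Agent.Lib.MP_f04ccf_co.M.BlkC21b18
import Pool.Agent.Lib.MP_f04ccf_co.M.BlkC21b19
import Pool.Agent.Lib.MP_f04ccf_co.M.BlkC21b20
import Pool.Agent.Lib.MP_f04ccf_co.M.BlkC21b21
import Pool.Agent.Lib.MP_f04ccf_co.M.BlkX21_21_5_5
import Pool.Agent.Lib.MP_f04ccf_co.M.BlkX21_21_6_6

/-!
MP_f04ccf_co, block certificate, **`R = 21`**: all pairs of shares together (generated, helper99).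
-/

set_option autoImplicit false

namespace Pool.Agent.Lib.MP_f04ccf_co

/-- **`R = 21`, `∑ h ≤ 21`, at least 5 rows: no items** -/
theorem noItC21_21 {n : ℕ} (hn : 5 ≤ n) : NoItC ((21 : ℕ) : ℤ) ((21 : ℕ) : ℤ) n := by
  refine NoItC.of_pr (q := 3) hn fun a b hba hs => ?_
  have ha : a ≤ 15 := by omega
  interval_cases a
  · have hb : b ≤ 0 := by omega
    interval_cases b
    · exact BlkC.pr21_21_0_0 hn
  · have hb : b ≤ 1 := by omega
    interval_cases b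
    · exact BlkC.pr21_21_1_0 hn
    · exact BlkC.pr21_21_1_1 hn
  · have hb : b ≤ 2 := by omega
    interval_cases b
    · exact BlkC.pr21_21_2_0 hn
    · exact BlkC.pr21_21_2_1 hn
    · exact BlkC.pr21_21_2_2 hn
  · have hb : b ≤ 3 := by omega
    interval_cases b
    · exact BlkC.pr21_21_3_0 hn
    · exact BlkC.pr21_21_3_1 hn
    · exact BlkC.pr21_21_3_2 hn
    · exact BlkC.pr21_21_3_3 hn
  · have hb : b ≤ 4 := by omega
    interval_cases b
    · exact BlkC.pr21_21_4_0 hn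
    · exact BlkC.pr21_21_4_1 hn
    · exact BlkC.pr21_21_4_2 hn
    · exact BlkC.pr21_21_4_3 hn
    · exact BlkC.pr21_21_4_4 hn
  · have hb : b ≤ 5 := by omega
    interval_cases b
    · exact BlkC.pr21_21_5_0 hn
    · exact BlkC.pr21_21_5_1 hn
    · exact BlkC.pr21_21_5_2 hn
    · exact BlkC.pr21_21_5_3 hn
    · exact BlkC.pr21_21_5_4 hn
    · exact BlkC.pr21_21_5_5 hn
  · have hb : b ≤ 6 := by omega
    interval_cases b
    · exact BlkC.pr21_21_6_0 hn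
    · exact BlkC.pr21_21_6_1 hn
    · exact BlkC.pr21_21_6_2 hn
    · exact BlkC.pr21_21_6_3 hn
    · exact BlkC.pr21_21_6_4 hn
    · exact BlkC.pr21_21_6_5 hn
    · exact BlkC.pr21_21_6_6 hn
  · have hb : b ≤ 7 := by omega
    interval_cases b
    · exact BlkC.pr21_21_7_0 hn
    · exact BlkC.pr21_21_7_1 hn
    · exact BlkC.pr21_21_7_2 hn
    · exact BlkC.pr21_21_7_3 hn
    · exact BlkC.pr21_21_7_4 hn
    · exact BlkC.pr21_21_7_5 hn
    · exact BlkC.pr21_21_7_6 hn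
    · exact BlkC.pr21_21_7_7 hn
  · have hb : b ≤ 7 := by omega
    interval_cases b
    · exact BlkC.pr21_21_8_0 hn
    · exact BlkC.pr21_21_8_1 hn
    · exact BlkC.pr21_21_8_2 hn
    · exact BlkC.pr21_21_8_3 hn
    · exact BlkC.pr21_21_8_4 hn
    · exact BlkC.pr21_21_8_5 hn
    · exact BlkC.pr21_21_8_6 hn
    · exact BlkC.pr21_21_8_7 hn
  · have hb : b ≤ 6 := by omega
    interval_cases b
    · exact BlkC.pr21_21_9_0 hn
    · exact BlkC.pr21_21_9_1 hn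
    · exact BlkC.pr21_21_9_2 hn
    · exact BlkC.pr21_21_9_3 hn
    · exact BlkC.pr21_21_9_4 hn
    · exact BlkC.pr21_21_9_5 hn
    · exact BlkC.pr21_21_9_6 hn
  · have hb : b ≤ 5 := by omega
    interval_cases b
    · exact BlkC.pr21_21_10_0 hn
    · exact BlkC.pr21_21_10_1 hn
    · exact BlkC.pr21_21_10_2 hn
    · exact BlkC.pr21_21_10_3 hn
    · exact BlkC.pr21_21_10_4 hn
    · exact BlkC.pr21_21_10_5 hn
  · have hb : b ≤ 4 := by omega
    interval_cases b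
    · exact BlkC.pr21_21_11_0 hn
    · exact BlkC.pr21_21_11_1 hn
    · exact BlkC.pr21_21_11_2 hn
    · exact BlkC.pr21_21_11_3 hn
    · exact BlkC.pr21_21_11_4 hn
  · have hb : b ≤ 3 := by omega
    interval_cases b
    · exact BlkC.pr21_21_12_0 hn
    · exact BlkC.pr21_21_12_1 hn
    · exact BlkC.pr21_21_12_2 hn
    · exact BlkC.pr21_21_12_3 hn
  · have hb : b ≤ 2 := by omega
    interval_cases b
    · exact BlkC.pr21_21_13_0 hn
    · exact BlkC.pr21_21_13_1 hn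
    · exact BlkC.pr21_21_13_2 hn
  · have hb : b ≤ 1 := by omega
    interval_cases b
    · exact BlkC.pr21_21_14_0 hn
    · exact BlkC.pr21_21_14_1 hn
  · have hb : b ≤ 0 := by omega
    interval_cases b
    · exact BlkC.pr21_21_15_0 hn

/-- **`R = 21`, `∑ h ≤ 22`, at least 7 rows: no items** -/
theorem noItC21_22 {n : ℕ} (hn : 7 ≤ n) : NoItC ((21 : ℕ) : ℤ) ((22 : ℕ) : ℤ) n := by
  refine NoItC.of_pr (q := 5) hn fun a b hba hs => ?_
  have ha : a ≤ 14 := by omega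
  interval_cases a
  · have hb : b ≤ 0 := by omega
    interval_cases b
    · exact BlkC.pr21_22_0_0 hn
  · have hb : b ≤ 1 := by omega
    interval_cases b
    · exact BlkC.pr21_22_1_0 hn
    · exact BlkC.pr21_22_1_1 hn
  · have hb : b ≤ 2 := by omega
    interval_cases b
    · exact BlkC.pr21_22_2_0 hn
    · exact BlkC.pr21_22_2_1 hn
    · exact BlkC.pr21_22_2_2 hn
  · have hb : b ≤ 3 := by omega
    interval_cases b
    · exact BlkC.pr21_22_3_0 hn
    · exact BlkC.pr21_22_3_1 hn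
    · exact BlkC.pr21_22_3_2 hn
    · exact BlkC.pr21_22_3_3 hn
  · have hb : b ≤ 4 := by omega
    interval_cases b
    · exact BlkC.pr21_22_4_0 hn
    · exact BlkC.pr21_22_4_1 hn
    · exact BlkC.pr21_22_4_2 hn
    · exact BlkC.pr21_22_4_3 hn
    · exact BlkC.pr21_22_4_4 hn
  · have hb : b ≤ 5 := by omega
    interval_cases b
    · exact BlkC.pr21_22_5_0 hn
    · exact BlkC.pr21_22_5_1 hn
    · exact BlkC.pr21_22_5_2 hn
    · exact BlkC.pr21_22_5_3 hn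
    · exact BlkC.pr21_22_5_4 hn
    · exact BlkC.pr21_22_5_5 hn
  · have hb : b ≤ 6 := by omega
    interval_cases b
    · exact BlkC.pr21_22_6_0 hn
    · exact BlkC.pr21_22_6_1 hn
    · exact BlkC.pr21_22_6_2 hn
    · exact BlkC.pr21_22_6_3 hn
    · exact BlkC.pr21_22_6_4 hn
    · exact BlkC.pr21_22_6_5 hn
    · exact BlkC.pr21_22_6_6 hn
  · have hb : b ≤ 7 := by omega
    interval_cases b
    · exact BlkC.pr21_22_7_0 hn
    · exact BlkC.pr21_22_7_1 hn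
    · exact BlkC.pr21_22_7_2 hn
    · exact BlkC.pr21_22_7_3 hn
    · exact BlkC.pr21_22_7_4 hn
    · exact BlkC.pr21_22_7_5 hn
    · exact BlkC.pr21_22_7_6 hn
    · exact BlkC.pr21_22_7_7 hn
  · have hb : b ≤ 6 := by omega
    interval_cases b
    · exact BlkC.pr21_22_8_0 hn
    · exact BlkC.pr21_22_8_1 hn
    · exact BlkC.pr21_22_8_2 hn
    · exact BlkC.pr21_22_8_3 hn
    · exact BlkC.pr21_22_8_4 hn
    · exact BlkC.pr21_22_8_5 hn
    · exact BlkC.pr21_22_8_6 hn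
  · have hb : b ≤ 5 := by omega
    interval_cases b
    · exact BlkC.pr21_22_9_0 hn
    · exact BlkC.pr21_22_9_1 hn
    · exact BlkC.pr21_22_9_2 hn
    · exact BlkC.pr21_22_9_3 hn
    · exact BlkC.pr21_22_9_4 hn
    · exact BlkC.pr21_22_9_5 hn
  · have hb : b ≤ 4 := by omega
    interval_cases b
    · exact BlkC.pr21_22_10_0 hn
    · exact BlkC.pr21_22_10_1 hn
    · exact BlkC.pr21_22_10_2 hn
    · exact BlkC.pr21_22_10_3 hn
    · exact BlkC.pr21_22_10_4 hn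
  · have hb : b ≤ 3 := by omega
    interval_cases b
    · exact BlkC.pr21_22_11_0 hn
    · exact BlkC.pr21_22_11_1 hn
    · exact BlkC.pr21_22_11_2 hn
    · exact BlkC.pr21_22_11_3 hn
  · have hb : b ≤ 2 := by omega
    interval_cases b
    · exact BlkC.pr21_22_12_0 hn
    · exact BlkC.pr21_22_12_1 hn
    · exact BlkC.pr21_22_12_2 hn
  · have hb : b ≤ 1 := by omega
    interval_cases b
    · exact BlkC.pr21_22_13_0 hn
    · exact BlkC.pr21_22_13_1 hn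
  · have hb : b ≤ 0 := by omega
    interval_cases b
    · exact BlkC.pr21_22_14_0 hn

end Pool.Agent.Lib.MP_f04ccf_co
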