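import Pool.Agent.Lib.MP_f04ccf_co.M.BlkT

/-!
MP_f04ccf_co, block certificate, data `R = 21`, `H = 21`, part 1 (generated, helper99:
bd10.cpp, gen2.py).
-/

set_option autoImplicit false
set_option maxRecDepth 100000

namespace Pool.Agent.Lib.MP_f04ccf_co

namespace BlkC

/-- the numbers of the pair `(0, 0)`, `R = 21`, `H = 21` -/
def d21_21_0_0 : BlkD.Pd :=
  ⟨21, 21, 3, 0, 0, 18, 0, 1, 0, 4, 4, 0, 0, 4, 4, 0, [0, 4, 8, 12, 16, 20, 24, 28, 32, 36, 40, 44,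
    48, 52, 56, 60, 64, 68, 72], [0, 4, 8, 12, 16, 20, 24, 28, 32, 36, 40, 44, 48, 52, 56, 60, 64,
    68, 72], [⟨1, 1, 1, 4, 8, [0, 4], [0, 4]⟩]⟩

/-- the certificates of the pair `(0, 0)` -/
def t21_21_0_0 : BlkD.Tr :=
  .S 0 0 (.S 2 0 (.L 4 4 [4] [] [] 100000 0 0 100000 0 0 100000 0 0 0 0) (.E 1)) (.E 0)

lemma pr21_21_0_0 {n : ℕ} (hn : 5 ≤ n) : NoPr ((21 : ℕ) : ℤ) ((21 : ℕ) : ℤ) n 0 0 :=
  BlkD.pair_sound (d := d21_21_0_0) (by decide +kernel) hn (by decide) (tr := t21_21_0_0)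
    (by decide +kernel) rfl rfl rfl rfl

/-- the numbers of the pair `(1, 0)`, `R = 21`, `H = 21` -/
def d21_21_1_0 : BlkD.Pd :=
  ⟨21, 21, 3, 1, 0, 17, 0, 1, 0, 4, 4, 0, 0, 4, 4, 0, [0, 4, 8, 12, 16, 20, 24, 28, 32, 36, 40, 44,
    48, 52, 56, 60, 64, 68], [0, 4, 8, 12, 16, 20, 24, 28, 32, 36, 40, 44, 48, 52, 56, 60, 64, 68],
    [⟨1, 1, 1, 4, 8, [0, 4], [0, 4]⟩]⟩

/-- the certificates of the pair `(1, 0)` -/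
def t21_21_1_0 : BlkD.Tr :=
  .S 0 1 (.S 2 0 (.L 4 4 [4] [] [] 100000 0 0 200000 0 0 0 100000 0 0 0) (.E 1)) (.E 0)

lemma pr21_21_1_0 {n : ℕ} (hn : 5 ≤ n) : NoPr ((21 : ℕ) : ℤ) ((21 : ℕ) : ℤ) n 1 0 :=
  BlkD.pair_sound (d := d21_21_1_0) (by decide +kernel) hn (by decide) (tr := t21_21_1_0)
    (by decide +kernel) rfl rfl rfl rfl

/-- the numbers of the pair `(1, 1)`, `R = 21`, `H = 21` -/
def d21_21_1_1 : BlkD.Pd :=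
  ⟨21, 21, 3, 1, 1, 16, 1, 1, 0, 4, 4, 0, 0, 4, 4, 0, [0, 4, 8, 12, 16, 20, 24, 28, 32, 36, 40, 44,
    48, 52, 56, 60, 64], [0, 4, 8, 12, 16, 20, 24, 28, 32, 36, 40, 44, 48, 52, 56, 60, 64], [⟨1, 1,
    1, 4, 8, [0, 4], [0, 4]⟩, ⟨1, 1, 1, 4, 8, [0, 4], [0, 4]⟩]⟩

/-- the certificates of the pair `(1, 1)` -/
def t21_21_1_1 : BlkD.Tr :=
  .S 0 1 (.S 2 1 (.L 4 4 [4, 4] [] [] 100000 0 0 400000 0 0 0 0 0 0 0) (.E 1)) (.E 0)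

lemma pr21_21_1_1 {n : ℕ} (hn : 5 ≤ n) : NoPr ((21 : ℕ) : ℤ) ((21 : ℕ) : ℤ) n 1 1 :=
  BlkD.pair_sound (d := d21_21_1_1) (by decide +kernel) hn (by decide) (tr := t21_21_1_1)
    (by decide +kernel) rfl rfl rfl rfl

/-- the numbers of the pair `(2, 0)`, `R = 21`, `H = 21` -/
def d21_21_2_0 : BlkD.Pd :=
  ⟨21, 21, 3, 2, 0, 16, 0, 1, 0, 4, 4, 0, 0, 4, 4, 0, [0, 4, 8, 12, 16, 20, 24, 28, 32, 36, 40, 44,
    48, 52, 56, 60, 64], [0, 4, 8, 12, 16, 20, 24, 28, 32, 36, 40, 44, 48, 52, 56, 60, 64], [⟨1, 1,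
    1, 4, 8, [0, 4], [0, 4]⟩]⟩

/-- the certificates of the pair `(2, 0)` -/
def t21_21_2_0 : BlkD.Tr :=
  .S 0 2 (.S 2 0 (.L 4 4 [4] [] [] 100000 0 0 300000 0 0 0 100000 0 0 0) (.E 1)) (.E 0)

lemma pr21_21_2_0 {n : ℕ} (hn : 5 ≤ n) : NoPr ((21 : ℕ) : ℤ) ((21 : ℕ) : ℤ) n 2 0 :=
  BlkD.pair_sound (d := d21_21_2_0) (by decide +kernel) hn (by decide) (tr := t21_21_2_0)
    (by decide +kernel) rfl rfl rfl rfl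

/-- the numbers of the pair `(2, 1)`, `R = 21`, `H = 21` -/
def d21_21_2_1 : BlkD.Pd :=
  ⟨21, 21, 3, 2, 1, 15, 1, 1, 0, 4, 4, 0, 0, 4, 4, 0, [0, 4, 8, 12, 16, 20, 24, 28, 32, 36, 40, 44,
    48, 52, 56, 60], [0, 4, 8, 12, 16, 20, 24, 28, 32, 36, 40, 44, 48, 52, 56, 60], [⟨1, 1, 1, 4,
    8, [0, 4], [0, 4]⟩, ⟨1, 1, 1, 4, 8, [0, 4], [0, 4]⟩]⟩

/-- the certificates of the pair `(2, 1)` -/
def t21_21_2_1 : BlkD.Tr :=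
  .S 0 2 (.S 2 1 (.L 4 4 [4, 4] [] [] 100000 0 0 500000 0 0 0 0 0 0 0) (.E 1)) (.E 0)

lemma pr21_21_2_1 {n : ℕ} (hn : 5 ≤ n) : NoPr ((21 : ℕ) : ℤ) ((21 : ℕ) : ℤ) n 2 1 :=
  BlkD.pair_sound (d := d21_21_2_1) (by decide +kernel) hn (by decide) (tr := t21_21_2_1)
    (by decide +kernel) rfl rfl rfl rfl

/-- the numbers of the pair `(2, 2)`, `R = 21`, `H = 21` -/
def d21_21_2_2 : BlkD.Pd :=
  ⟨21, 21, 3, 2, 2, 14, 2, 1, 0, 4, 6, 0, 0, 4, 6, 0, [0, 6, 12, 18, 24, 30, 36, 42, 48, 54, 56,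
    56, 56, 56, 56], [0, 6, 12, 18, 24, 30, 36, 42, 48, 54, 56, 56, 56, 56, 56], [⟨1, 1, 1, 4, 8,
    [0, 4], [0, 4]⟩, ⟨1, 1, 1, 4, 8, [0, 4], [0, 4]⟩, ⟨1, 1, 1, 6, 12, [0, 6], [0, 6]⟩]⟩

/-- the certificates of the pair `(2, 2)` -/
def t21_21_2_2 : BlkD.Tr :=
  .S 0 2 (.S 2 2 (.L 4 4 [4, 4, 5] [] [] 100000 0 0 600000 0 0 0 0 0 0 0) (.E 1)) (.E 0)

lemma pr21_21_2_2 {n : ℕ} (hn : 5 ≤ n) : NoPr ((21 : ℕ) : ℤ) ((21 : ℕ) : ℤ) n 2 2 :=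
  BlkD.pair_sound (d := d21_21_2_2) (by decide +kernel) hn (by decide) (tr := t21_21_2_2)
    (by decide +kernel) rfl rfl rfl rfl

/-- the numbers of the pair `(3, 0)`, `R = 21`, `H = 21` -/
def d21_21_3_0 : BlkD.Pd :=
  ⟨21, 21, 3, 3, 0, 15, 0, 1, 0, 4, 4, 0, 0, 4, 4, 0, [0, 4, 8, 12, 16, 20, 24, 28, 32, 36, 40, 44,
    48, 52, 56, 60], [0, 4, 8, 12, 16, 20, 24, 28, 32, 36, 40, 44, 48, 52, 56, 60], [⟨1, 1, 1, 4,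
    8, [0, 4], [0, 4]⟩]⟩

/-- the certificates of the pair `(3, 0)` -/
def t21_21_3_0 : BlkD.Tr :=
  .S 0 3 (.S 2 0 (.L 4 4 [4] [] [] 100000 0 0 400000 0 0 0 100000 0 0 0) (.E 1)) (.E 0)

lemma pr21_21_3_0 {n : ℕ} (hn : 5 ≤ n) : NoPr ((21 : ℕ) : ℤ) ((21 : ℕ) : ℤ) n 3 0 :=
  BlkD.pair_sound (d := d21_21_3_0) (by decide +kernel) hn (by decide) (tr := t21_21_3_0)
    (by decide +kernel) rfl rfl rfl rfl

/-- the numbers of the pair `(3, 1)`, `R = 21`, `H = 21` -/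
def d21_21_3_1 : BlkD.Pd :=
  ⟨21, 21, 3, 3, 1, 14, 1, 1, 0, 4, 6, 0, 0, 4, 4, 0, [0, 6, 12, 18, 24, 30, 36, 42, 48, 54, 56,
    56, 56, 56, 56], [0, 4, 8, 12, 16, 20, 24, 28, 32, 36, 40, 44, 48, 52, 56], [⟨1, 1, 1, 4, 8,
    [0, 4], [0, 4]⟩, ⟨1, 1, 1, 4, 10, [0, 6], [0, 4]⟩]⟩

/-- the certificates of the pair `(3, 1)` -/
def t21_21_3_1 : BlkD.Tr :=
  .S 0 3 (.S 2 1 (.L 4 4 [4, 4] [] [] 100000 0 0 600000 0 0 25000 0 0 0 0) (.E 1)) (.E 0)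

lemma pr21_21_3_1 {n : ℕ} (hn : 5 ≤ n) : NoPr ((21 : ℕ) : ℤ) ((21 : ℕ) : ℤ) n 3 1 :=
  BlkD.pair_sound (d := d21_21_3_1) (by decide +kernel) hn (by decide) (tr := t21_21_3_1)
    (by decide +kernel) rfl rfl rfl rfl

/-- the numbers of the pair `(3, 2)`, `R = 21`, `H = 21` -/
def d21_21_3_2 : BlkD.Pd :=
  ⟨21, 21, 3, 3, 2, 13, 2, 1, 0, 4, 6, 0, 0, 4, 6, 0, [0, 6, 12, 18, 24, 30, 36, 42, 48, 52, 52,
    52, 52, 52], [0, 6, 12, 18, 24, 30, 36, 42, 48, 52, 52, 52, 52, 52], [⟨1, 1, 1, 4, 8, [0, 4],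
    [0, 4]⟩, ⟨1, 1, 1, 4, 10, [0, 6], [0, 4]⟩, ⟨1, 1, 1, 6, 12, [0, 6], [0, 6]⟩]⟩

/-- the certificates of the pair `(3, 2)` -/
def t21_21_3_2 : BlkD.Tr :=
  .S 0 3 (.S 2 2 (.L 4 4 [4, 4, 5] [] [] 100000 0 0 700000 0 0 25000 0 0 0 0) (.E 1)) (.E 0)

lemma pr21_21_3_2 {n : ℕ} (hn : 5 ≤ n) : NoPr ((21 : ℕ) : ℤ) ((21 : ℕ) : ℤ) n 3 2 :=
  BlkD.pair_sound (d := d21_21_3_2) (by decide +kernel) hn (by decide) (tr := t21_21_3_2)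
    (by decide +kernel) rfl rfl rfl rfl

/-- the numbers of the pair `(3, 3)`, `R = 21`, `H = 21` -/
def d21_21_3_3 : BlkD.Pd :=
  ⟨21, 21, 3, 3, 3, 12, 3, 1, 4, 1, 8, 0, 4, 1, 8, 0, [0, 8, 16, 24, 28, 32, 36, 40, 44, 48, 52,
    56, 60], [0, 8, 16, 24, 28, 32, 36, 40, 44, 48, 52, 56, 60], [⟨1, 1, 1, 4, 8, [0, 4], [0, 4]⟩,
    ⟨1, 1, 1, 6, 12, [0, 6], [0, 6]⟩, ⟨1, 1, 1, 6, 12, [0, 6], [0, 6]⟩, ⟨1, 1, 1, 8, 16, [0, 8],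
    [0, 8]⟩]⟩

/-- the certificates of the pair `(3, 3)` -/
def t21_21_3_3 : BlkD.Tr :=
  .S 0 3 (.S 2 3 (.L 5 5 [4, 4, 5, 5] [] [] 100000 2587 1 800000 0 0 34483 34483 27586 27586 34483)
    (.E 1)) (.E 0)

lemma pr21_21_3_3 {n : ℕ} (hn : 5 ≤ n) : NoPr ((21 : ℕ) : ℤ) ((21 : ℕ) : ℤ) n 3 3 :=
  BlkD.pair_sound (d := d21_21_3_3) (by decide +kernel) hn (by decide) (tr := t21_21_3_3)
    (by decide +kernel) rfl rfl rfl rfl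

/-- the numbers of the pair `(4, 0)`, `R = 21`, `H = 21` -/
def d21_21_4_0 : BlkD.Pd :=
  ⟨21, 21, 3, 4, 0, 14, 0, 1, 0, 4, 4, 0, 0, 4, 4, 0, [0, 4, 8, 12, 16, 20, 24, 28, 32, 36, 40, 44,
    48, 52, 56], [0, 4, 8, 12, 16, 20, 24, 28, 32, 36, 40, 44, 48, 52, 56], [⟨1, 1, 1, 4, 8, [0,
    4], [0, 4]⟩]⟩

/-- the certificates of the pair `(4, 0)` -/
def t21_21_4_0 : BlkD.Tr :=
  .S 0 4 (.S 2 0 (.L 4 4 [4] [] [] 100000 0 0 514287 14286 0 28571 71429 0 0 0) (.E 1)) (.E 0)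

lemma pr21_21_4_0 {n : ℕ} (hn : 5 ≤ n) : NoPr ((21 : ℕ) : ℤ) ((21 : ℕ) : ℤ) n 4 0 :=
  BlkD.pair_sound (d := d21_21_4_0) (by decide +kernel) hn (by decide) (tr := t21_21_4_0)
    (by decide +kernel) rfl rfl rfl rfl

/-- the numbers of the pair `(4, 1)`, `R = 21`, `H = 21` -/
def d21_21_4_1 : BlkD.Pd :=
  ⟨21, 21, 3, 4, 1, 13, 1, 1, 0, 4, 6, 0, 0, 4, 4, 0, [0, 6, 12, 18, 24, 30, 36, 42, 48, 52, 52,
    52, 52, 52], [0, 4, 8, 12, 16, 20, 24, 28, 32, 36, 40, 44, 48, 52], [⟨1, 1, 1, 4, 8, [0, 4],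
    [0, 4]⟩, ⟨1, 1, 1, 4, 10, [0, 6], [0, 4]⟩]⟩

/-- the certificates of the pair `(4, 1)` -/
def t21_21_4_1 : BlkD.Tr :=
  .S 0 4 (.S 2 1 (.L 4 5 [4, 4] [] [] 100000 0 0 687500 12500 0 37500 0 0 0 0) (.E 1)) (.E 0)

lemma pr21_21_4_1 {n : ℕ} (hn : 5 ≤ n) : NoPr ((21 : ℕ) : ℤ) ((21 : ℕ) : ℤ) n 4 1 :=
  BlkD.pair_sound (d := d21_21_4_1) (by decide +kernel) hn (by decide) (tr := t21_21_4_1)
    (by decide +kernel) rfl rfl rfl rfl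

/-- the numbers of the pair `(4, 2)`, `R = 21`, `H = 21` -/
def d21_21_4_2 : BlkD.Pd :=
  ⟨21, 21, 3, 4, 2, 12, 2, 1, 2, 2, 8, 0, 0, 4, 6, 0, [0, 8, 16, 24, 32, 34, 36, 38, 40, 42, 44,
    46, 48], [0, 6, 12, 18, 24, 30, 36, 42, 48, 48, 48, 48, 48], [⟨1, 1, 1, 4, 8, [0, 4], [0, 4]⟩,
    ⟨1, 1, 1, 4, 10, [0, 6], [0, 4]⟩, ⟨1, 1, 1, 6, 14, [0, 8], [0, 6]⟩]⟩

/-- the certificates of the pair `(4, 2)` -/
def t21_21_4_2 : BlkD.Tr :=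
  .S 0 4 (.S 2 2 (.L 4 5 [4, 4, 5] [] [] 100000 0 0 800000 0 0 50000 0 0 0 0) (.E 1)) (.E 0)

lemma pr21_21_4_2 {n : ℕ} (hn : 5 ≤ n) : NoPr ((21 : ℕ) : ℤ) ((21 : ℕ) : ℤ) n 4 2 :=
  BlkD.pair_sound (d := d21_21_4_2) (by decide +kernel) hn (by decide) (tr := t21_21_4_2)
    (by decide +kernel) rfl rfl rfl rfl

/-- the numbers of the pair `(4, 3)`, `R = 21`, `H = 21` -/
def d21_21_4_3 : BlkD.Pd :=
  ⟨21, 21, 3, 4, 3, 11, 3, 1, 2, 2, 8, 0, 4, 1, 8, 0, [0, 8, 16, 24, 30, 32, 34, 36, 38, 40, 42,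
    44], [0, 8, 16, 23, 27, 31, 35, 39, 43, 47, 51, 55], [⟨1, 1, 1, 4, 8, [0, 4], [0, 4]⟩, ⟨1, 1,
    1, 6, 12, [0, 6], [0, 6]⟩, ⟨1, 1, 1, 6, 14, [0, 8], [0, 6]⟩, ⟨1, 1, 1, 8, 16, [0, 8], [0, 8]⟩]⟩

/-- the certificates of the pair `(4, 3)` -/
def t21_21_4_3 : BlkD.Tr :=
  .S 0 4 (.S 2 3 (.S 0 2 (.L 5 5 [4, 4, 5, 5] [] [] 100000 3002 3000 900000 0 0 50000 40323 25513
    29032 36447) (.L 5 5 [4, 4, 5, 5] [] [] 100000 3002 3000 900000 0 0 50000 40323 25513 29032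
    36447)) (.E 1)) (.E 0)

lemma pr21_21_4_3 {n : ℕ} (hn : 5 ≤ n) : NoPr ((21 : ℕ) : ℤ) ((21 : ℕ) : ℤ) n 4 3 :=
  BlkD.pair_sound (d := d21_21_4_3) (by decide +kernel) hn (by decide) (tr := t21_21_4_3)
    (by decide +kernel) rfl rfl rfl rfl

/-- the numbers of the pair `(4, 4)`, `R = 21`, `H = 21` -/
def d21_21_4_4 : BlkD.Pd :=
  ⟨21, 21, 3, 4, 4, 10, 4, 1, 2, 2, 10, 0, 2, 2, 10, 0, [0, 10, 20, 26, 28, 30, 32, 34, 36, 38,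
    40], [0, 10, 20, 26, 28, 30, 32, 34, 36, 38, 40], [⟨1, 1, 1, 4, 8, [0, 4], [0, 4]⟩, ⟨1, 1, 1,
    6, 12, [0, 6], [0, 6]⟩, ⟨1, 1, 1, 8, 16, [0, 8], [0, 8]⟩, ⟨1, 1, 1, 8, 16, [0, 8], [0, 8]⟩, ⟨1,
    1, 1, 8, 20, [0, 10], [0, 10]⟩]⟩

lemma k21_21_4_4 : BlkD.pairOk d21_21_4_4 = true := by decide +kernel

/-- certificates of the pair `(4, 4)`, part 1 -/
def t21_21_4_4_1 : BlkD.Tr :=
  .S 0 1 (.L 5 5 [4, 4, 5, 5, 6] [] [] 100000 12935 12935 1000000 0 0 58626 58621 24128 24133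
    33333) (.L 5 5 [4, 4, 5, 5, 6] [] [] 100000 12935 12935 1000000 0 0 58626 58621 24128 24133
    33333)

lemma s21_21_4_4_1 {n : ℕ} (hn : 5 ≤ n) : NoNd (d21_21_4_4.R : ℤ) d21_21_4_4.H n d21_21_4_4.a d21_21_4_4.b
    (BlkD.inB (fun _ => 0)
      (BlkD.upd (BlkD.upd (BlkD.upd (fun _ => 21) 0 4) 2 4) 0 2)) :=
  BlkD.tree_sound (BlkD.pairOk_sound k21_21_4_4) (by decide) hn t21_21_4_4_1 _ _ (by decide +kernel)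

/-- certificates of the pair `(4, 4)`, part 2 -/
def t21_21_4_4_2 : BlkD.Tr :=
  .L 5 5 [4, 4, 5, 5, 6] [] [] 100000 12935 12935 1000000 0 0 58626 58621 24128 24133 33333

lemma s21_21_4_4_2 {n : ℕ} (hn : 5 ≤ n) : NoNd (d21_21_4_4.R : ℤ) d21_21_4_4.H n d21_21_4_4.a d21_21_4_4.b
    (BlkD.inB (BlkD.upd (fun _ => 0) 0 3)
      (BlkD.upd (BlkD.upd (fun _ => 21) 0 4) 2 4)) :=
  BlkD.tree_sound (BlkD.pairOk_sound k21_21_4_4) (by decide) hn t21_21_4_4_2 _ _ (by decide +kernel)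

/-- certificates of the pair `(4, 4)`, part 3 -/
def t21_21_4_4_3 : BlkD.Tr :=
  .E 1

lemma s21_21_4_4_3 {n : ℕ} (hn : 5 ≤ n) : NoNd (d21_21_4_4.R : ℤ) d21_21_4_4.H n d21_21_4_4.a d21_21_4_4.b
    (BlkD.inB (BlkD.upd (fun _ => 0) 2 5)
      (BlkD.upd (fun _ => 21) 0 4)) :=
  BlkD.tree_sound (BlkD.pairOk_sound k21_21_4_4) (by decide) hn t21_21_4_4_3 _ _ (by decide +kernel)

/-- certificates of the pair `(4, 4)`, part 4 -/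
def t21_21_4_4_4 : BlkD.Tr :=
  .E 0

lemma s21_21_4_4_4 {n : ℕ} (hn : 5 ≤ n) : NoNd (d21_21_4_4.R : ℤ) d21_21_4_4.H n d21_21_4_4.a d21_21_4_4.b
    (BlkD.inB (BlkD.upd (fun _ => 0) 0 5)
      (fun _ => 21)) :=
  BlkD.tree_sound (BlkD.pairOk_sound k21_21_4_4) (by decide) hn t21_21_4_4_4 _ _ (by decide +kernel)

lemma pr21_21_4_4 {n : ℕ} (hn : 5 ≤ n) : NoPr ((21 : ℕ) : ℤ) ((21 : ℕ) : ℤ) n 4 4 :=
  BlkD.of_root (R := d21_21_4_4.R) (H := d21_21_4_4.H) (a := d21_21_4_4.a) (b := d21_21_4_4.b) (q := 3) (by decide) hn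
    (BlkD.sp 0 4 (BlkD.sp 2 4 (BlkD.sp 0 2 (s21_21_4_4_1 hn) (s21_21_4_4_2 hn)) (s21_21_4_4_3 hn))
      (s21_21_4_4_4 hn))

/-- the numbers of the pair `(5, 0)`, `R = 21`, `H = 21` -/
def d21_21_5_0 : BlkD.Pd :=
  ⟨21, 21, 3, 5, 0, 13, 0, 1, 0, 4, 4, 0, 0, 4, 4, 0, [0, 4, 8, 12, 16, 20, 24, 28, 32, 36, 40, 44,
    48, 52], [0, 4, 8, 12, 16, 20, 24, 28, 32, 36, 40, 44, 48, 52], [⟨1, 1, 1, 4, 8, [0, 4], [0,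
    4]⟩]⟩

/-- the certificates of the pair `(5, 0)` -/
def t21_21_5_0 : BlkD.Tr :=
  .S 0 5 (.S 2 0 (.L 4 4 [4] [] [] 100000 0 0 620000 20000 0 40000 60000 0 0 0) (.E 1)) (.E 0)

lemma pr21_21_5_0 {n : ℕ} (hn : 5 ≤ n) : NoPr ((21 : ℕ) : ℤ) ((21 : ℕ) : ℤ) n 5 0 :=
  BlkD.pair_sound (d := d21_21_5_0) (by decide +kernel) hn (by decide) (tr := t21_21_5_0)
    (by decide +kernel) rfl rfl rfl rfl

/-- the numbers of the pair `(5, 1)`, `R = 21`, `H = 21` -/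
def d21_21_5_1 : BlkD.Pd :=
  ⟨21, 21, 3, 5, 1, 12, 1, 1, 0, 4, 6, 0, 0, 4, 4, 0, [0, 6, 12, 18, 24, 30, 36, 42, 48, 48, 48,
    48, 48], [0, 4, 8, 12, 16, 20, 24, 28, 32, 36, 40, 44, 48], [⟨1, 1, 1, 4, 8, [0, 4], [0, 4]⟩,
    ⟨1, 1, 1, 4, 10, [0, 6], [0, 4]⟩]⟩

/-- the certificates of the pair `(5, 1)` -/
def t21_21_5_1 : BlkD.Tr :=
  .S 0 5 (.S 2 1 (.L 4 5 [4, 4] [] [] 100000 0 0 775000 25000 0 50000 0 0 0 0) (.E 1)) (.E 0)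

lemma pr21_21_5_1 {n : ℕ} (hn : 5 ≤ n) : NoPr ((21 : ℕ) : ℤ) ((21 : ℕ) : ℤ) n 5 1 :=
  BlkD.pair_sound (d := d21_21_5_1) (by decide +kernel) hn (by decide) (tr := t21_21_5_1)
    (by decide +kernel) rfl rfl rfl rfl

/-- the numbers of the pair `(5, 2)`, `R = 21`, `H = 21` -/
def d21_21_5_2 : BlkD.Pd :=
  ⟨21, 21, 3, 5, 2, 11, 2, 1, 2, 2, 8, 0, 0, 4, 6, 0, [0, 8, 16, 24, 30, 32, 34, 36, 38, 40, 42,
    44], [0, 6, 12, 18, 24, 30, 36, 42, 44, 44, 44, 44], [⟨1, 1, 1, 4, 8, [0, 4], [0, 4]⟩, ⟨1, 1,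
    1, 4, 10, [0, 6], [0, 4]⟩, ⟨1, 1, 1, 6, 14, [0, 8], [0, 6]⟩]⟩

lemma k21_21_5_2 : BlkD.pairOk d21_21_5_2 = true := by decide +kernel

/-- certificates of the pair `(5, 2)`, part 1 -/
def t21_21_5_2_1 : BlkD.Tr :=
  .L 4 5 [4, 4, 5] [] [] 100000 2143 0 876430 23571 0 52857 7857 5714 5714 5714

lemma s21_21_5_2_1 {n : ℕ} (hn : 5 ≤ n) : NoNd (d21_21_5_2.R : ℤ) d21_21_5_2.H n d21_21_5_2.a d21_21_5_2.b
    (BlkD.inB (fun _ => 0)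
      (BlkD.upd (BlkD.upd (BlkD.upd (fun _ => 21) 0 5) 2 2) 0 2)) :=
  BlkD.tree_sound (BlkD.pairOk_sound k21_21_5_2) (by decide) hn t21_21_5_2_1 _ _ (by decide +kernel)

/-- certificates of the pair `(5, 2)`, part 2 -/
def t21_21_5_2_2 : BlkD.Tr :=
  .L 4 5 [4, 4, 5] [] [] 100000 2143 0 876430 23571 0 52857 7857 5714 5714 5714

lemma s21_21_5_2_2 {n : ℕ} (hn : 5 ≤ n) : NoNd (d21_21_5_2.R : ℤ) d21_21_5_2.H n d21_21_5_2.a d21_21_5_2.b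
    (BlkD.inB (BlkD.upd (fun _ => 0) 0 3)
      (BlkD.upd (BlkD.upd (fun _ => 21) 0 5) 2 2)) :=
  BlkD.tree_sound (BlkD.pairOk_sound k21_21_5_2) (by decide) hn t21_21_5_2_2 _ _ (by decide +kernel)

/-- certificates of the pair `(5, 2)`, part 3 -/
def t21_21_5_2_3 : BlkD.Tr :=
  .E 1

lemma s21_21_5_2_3 {n : ℕ} (hn : 5 ≤ n) : NoNd (d21_21_5_2.R : ℤ) d21_21_5_2.H n d21_21_5_2.a d21_21_5_2.b
    (BlkD.inB (BlkD.upd (fun _ => 0) 2 3)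
      (BlkD.upd (fun _ => 21) 0 5)) :=
  BlkD.tree_sound (BlkD.pairOk_sound k21_21_5_2) (by decide) hn t21_21_5_2_3 _ _ (by decide +kernel)

/-- certificates of the pair `(5, 2)`, part 4 -/
def t21_21_5_2_4 : BlkD.Tr :=
  .E 0

lemma s21_21_5_2_4 {n : ℕ} (hn : 5 ≤ n) : NoNd (d21_21_5_2.R : ℤ) d21_21_5_2.H n d21_21_5_2.a d21_21_5_2.b
    (BlkD.inB (BlkD.upd (fun _ => 0) 0 6)
      (fun _ => 21)) :=
  BlkD.tree_sound (BlkD.pairOk_sound k21_21_5_2) (by decide) hn t21_21_5_2_4 _ _ (by decide +kernel)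

lemma pr21_21_5_2 {n : ℕ} (hn : 5 ≤ n) : NoPr ((21 : ℕ) : ℤ) ((21 : ℕ) : ℤ) n 5 2 :=
  BlkD.of_root (R := d21_21_5_2.R) (H := d21_21_5_2.H) (a := d21_21_5_2.a) (b := d21_21_5_2.b) (q := 3) (by decide) hn
    (BlkD.sp 0 5 (BlkD.sp 2 2 (BlkD.sp 0 2 (s21_21_5_2_1 hn) (s21_21_5_2_2 hn)) (s21_21_5_2_3 hn))
      (s21_21_5_2_4 hn))

/-- the numbers of the pair `(5, 3)`, `R = 21`, `H = 21` -/
def d21_21_5_3 : BlkD.Pd :=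
  ⟨21, 21, 3, 5, 3, 10, 3, 1, 2, 2, 10, 0, 4, 1, 8, 0, [0, 10, 20, 26, 28, 30, 32, 34, 36, 38, 40],
    [0, 8, 16, 22, 26, 30, 34, 38, 42, 46, 50], [⟨1, 1, 1, 4, 8, [0, 4], [0, 4]⟩, ⟨1, 1, 1, 6, 12,
    [0, 6], [0, 6]⟩, ⟨1, 1, 1, 6, 14, [0, 8], [0, 6]⟩, ⟨1, 1, 1, 8, 18, [0, 10], [0, 8]⟩]⟩

lemma k21_21_5_3 : BlkD.pairOk d21_21_5_3 = true := by decide +kernel

/-- certificates of the pair `(5, 3)`, part 1 -/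
def t21_21_5_3_1 : BlkD.Tr :=
  .L 5 6 [4, 4, 5, 5] [] [] 100000 6141 6140 1047374 8772 0 39474 42105 21930 29825 29825

lemma s21_21_5_3_1 {n : ℕ} (hn : 5 ≤ n) : NoNd (d21_21_5_3.R : ℤ) d21_21_5_3.H n d21_21_5_3.a d21_21_5_3.b
    (BlkD.inB (fun _ => 0)
      (BlkD.upd (BlkD.upd (BlkD.upd (BlkD.upd (fun _ => 21) 0 5) 2 3) 0 2) 0 1)) :=
  BlkD.tree_sound (BlkD.pairOk_sound k21_21_5_3) (by decide) hn t21_21_5_3_1 _ _ (by decide +kernel)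

/-- certificates of the pair `(5, 3)`, part 2 -/
def t21_21_5_3_2 : BlkD.Tr :=
  .L 5 6 [4, 4, 5, 5] [] [] 100000 6141 6140 1047374 8772 0 39474 42105 21930 29825 29825

lemma s21_21_5_3_2 {n : ℕ} (hn : 5 ≤ n) : NoNd (d21_21_5_3.R : ℤ) d21_21_5_3.H n d21_21_5_3.a d21_21_5_3.b
    (BlkD.inB (BlkD.upd (fun _ => 0) 0 2)
      (BlkD.upd (BlkD.upd (BlkD.upd (fun _ => 21) 0 5) 2 3) 0 2)) :=
  BlkD.tree_sound (BlkD.pairOk_sound k21_21_5_3) (by decide) hn t21_21_5_3_2 _ _ (by decide +kernel)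

/-- certificates of the pair `(5, 3)`, part 3 -/
def t21_21_5_3_3 : BlkD.Tr :=
  .L 5 6 [4, 4, 5, 5] [] [] 100000 6141 6140 1047374 8772 0 39474 42105 21930 29825 29825

lemma s21_21_5_3_3 {n : ℕ} (hn : 5 ≤ n) : NoNd (d21_21_5_3.R : ℤ) d21_21_5_3.H n d21_21_5_3.a d21_21_5_3.b
    (BlkD.inB (BlkD.upd (fun _ => 0) 0 3)
      (BlkD.upd (BlkD.upd (fun _ => 21) 0 5) 2 3)) :=
  BlkD.tree_sound (BlkD.pairOk_sound k21_21_5_3) (by decide) hn t21_21_5_3_3 _ _ (by decide +kernel)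

/-- certificates of the pair `(5, 3)`, part 4 -/
def t21_21_5_3_4 : BlkD.Tr :=
  .E 1

lemma s21_21_5_3_4 {n : ℕ} (hn : 5 ≤ n) : NoNd (d21_21_5_3.R : ℤ) d21_21_5_3.H n d21_21_5_3.a d21_21_5_3.b
    (BlkD.inB (BlkD.upd (fun _ => 0) 2 4)
      (BlkD.upd (fun _ => 21) 0 5)) :=
  BlkD.tree_sound (BlkD.pairOk_sound k21_21_5_3) (by decide) hn t21_21_5_3_4 _ _ (by decide +kernel)

/-- certificates of the pair `(5, 3)`, part 5 -/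
def t21_21_5_3_5 : BlkD.Tr :=
  .E 0

lemma s21_21_5_3_5 {n : ℕ} (hn : 5 ≤ n) : NoNd (d21_21_5_3.R : ℤ) d21_21_5_3.H n d21_21_5_3.a d21_21_5_3.b
    (BlkD.inB (BlkD.upd (fun _ => 0) 0 6)
      (fun _ => 21)) :=
  BlkD.tree_sound (BlkD.pairOk_sound k21_21_5_3) (by decide) hn t21_21_5_3_5 _ _ (by decide +kernel)

lemma pr21_21_5_3 {n : ℕ} (hn : 5 ≤ n) : NoPr ((21 : ℕ) : ℤ) ((21 : ℕ) : ℤ) n 5 3 :=
  BlkD.of_root (R := d21_21_5_3.R) (H := d21_21_5_3.H) (a := d21_21_5_3.a) (b := d21_21_5_3.b) (q := 3) (by decide) hn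
    (BlkD.sp 0 5 (BlkD.sp 2 3 (BlkD.sp 0 2 (BlkD.sp 0 1 (s21_21_5_3_1 hn) (s21_21_5_3_2 hn))
      (s21_21_5_3_3 hn)) (s21_21_5_3_4 hn)) (s21_21_5_3_5 hn))

/-- the numbers of the pair `(5, 4)`, `R = 21`, `H = 21` -/
def d21_21_5_4 : BlkD.Pd :=
  ⟨21, 21, 3, 5, 4, 9, 4, 2, 2, 2, 10, 0, 2, 2, 10, 0, [0, 10, 20, 24, 26, 28, 30, 32, 34, 36], [0,
    10, 20, 24, 26, 28, 30, 32, 34, 36], [⟨1, 1, 1, 4, 8, [0, 4], [0, 4]⟩, ⟨1, 1, 1, 6, 12, [0, 6],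
    [0, 6]⟩, ⟨1, 1, 1, 8, 16, [0, 8], [0, 8]⟩, ⟨1, 1, 1, 8, 18, [0, 10], [0, 8]⟩, ⟨2, 1, 1, 8, 24,
    [0, 10, 14], [0, 10]⟩]⟩

lemma k21_21_5_4 : BlkD.pairOk d21_21_5_4 = true := by decide +kernel

/-- certificates of the pair `(5, 4)`, part 1 -/
def t21_21_5_4_1 : BlkD.Tr :=
  .L 5 6 [4, 4, 5, 5, 6] [] [] 100000 45834 45834 600000 0 0 100000 25000 0 0 8333

lemma s21_21_5_4_1 {n : ℕ} (hn : 5 ≤ n) : NoNd (d21_21_5_4.R : ℤ) d21_21_5_4.H n d21_21_5_4.a d21_21_5_4.b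
    (BlkD.inB (fun _ => 0)
      (BlkD.upd (BlkD.upd (BlkD.upd (BlkD.upd (BlkD.upd (fun _ => 21) 0 5) 2 4) 0 2) 0 1) 0 0)) :=
  BlkD.tree_sound (BlkD.pairOk_sound k21_21_5_4) (by decide) hn t21_21_5_4_1 _ _ (by decide +kernel)

/-- certificates of the pair `(5, 4)`, part 2 -/
def t21_21_5_4_2 : BlkD.Tr :=
  .L 5 6 [4, 4, 5, 5, 6] [] [] 100000 40151 40151 939396 43434 0 65151 43434 4356 14029 26970

lemma s21_21_5_4_2 {n : ℕ} (hn : 5 ≤ n) : NoNd (d21_21_5_4.R : ℤ) d21_21_5_4.H n d21_21_5_4.a d21_21_5_4.b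
    (BlkD.inB (BlkD.upd (fun _ => 0) 0 1)
      (BlkD.upd (BlkD.upd (BlkD.upd (BlkD.upd (BlkD.upd (BlkD.upd (BlkD.upd (fun _ => 21) 0 5) 2 4) 0 2) 0 1) 1 20) 1 10) 1 5)) :=
  BlkD.tree_sound (BlkD.pairOk_sound k21_21_5_4) (by decide) hn t21_21_5_4_2 _ _ (by decide +kernel)

/-- certificates of the pair `(5, 4)`, part 3 -/
def t21_21_5_4_3 : BlkD.Tr :=
  .L 5 6 [4, 4, 5, 5, 6] [] [] 100000 15518 15518 1096550 20690 0 36552 47586 32414 17241 32414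

lemma s21_21_5_4_3 {n : ℕ} (hn : 5 ≤ n) : NoNd (d21_21_5_4.R : ℤ) d21_21_5_4.H n d21_21_5_4.a d21_21_5_4.b
    (BlkD.inB (BlkD.upd (BlkD.upd (fun _ => 0) 0 1) 1 6)
      (BlkD.upd (BlkD.upd (BlkD.upd (BlkD.upd (BlkD.upd (BlkD.upd (fun _ => 21) 0 5) 2 4) 0 2) 0 1) 1 20) 1 10)) :=
  BlkD.tree_sound (BlkD.pairOk_sound k21_21_5_4) (by decide) hn t21_21_5_4_3 _ _ (by decide +kernel)

/-- certificates of the pair `(5, 4)`, part 4 -/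
def t21_21_5_4_4 : BlkD.Tr :=
  .E 0

lemma s21_21_5_4_4 {n : ℕ} (hn : 5 ≤ n) : NoNd (d21_21_5_4.R : ℤ) d21_21_5_4.H n d21_21_5_4.a d21_21_5_4.b
    (BlkD.inB (BlkD.upd (BlkD.upd (fun _ => 0) 0 1) 1 11)
      (BlkD.upd (BlkD.upd (BlkD.upd (BlkD.upd (BlkD.upd (fun _ => 21) 0 5) 2 4) 0 2) 0 1) 1 20)) :=
  BlkD.tree_sound (BlkD.pairOk_sound k21_21_5_4) (by decide) hn t21_21_5_4_4 _ _ (by decide +kernel)

/-- certificates of the pair `(5, 4)`, part 5 -/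
def t21_21_5_4_5 : BlkD.Tr :=
  .E 0

lemma s21_21_5_4_5 {n : ℕ} (hn : 5 ≤ n) : NoNd (d21_21_5_4.R : ℤ) d21_21_5_4.H n d21_21_5_4.a d21_21_5_4.b
    (BlkD.inB (BlkD.upd (BlkD.upd (fun _ => 0) 0 1) 1 21)
      (BlkD.upd (BlkD.upd (BlkD.upd (BlkD.upd (fun _ => 21) 0 5) 2 4) 0 2) 0 1)) :=
  BlkD.tree_sound (BlkD.pairOk_sound k21_21_5_4) (by decide) hn t21_21_5_4_5 _ _ (by decide +kernel)

/-- certificates of the pair `(5, 4)`, part 6 -/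
def t21_21_5_4_6 : BlkD.Tr :=
  .S 1 2 (.L 5 6 [4, 4, 5, 5, 6] [] [] 100000 25000 25000 950000 25000 0 25000 25000 0 25000 31250)
    (.S 1 3 (.L 5 6 [4, 4, 5, 5, 6] [48, 38, 28, 18, 0, 0] [] 100000 21315 21315 1044719 18428 0
    44226 26044 7371 25553 37101) (.S 2 2 (.S 2 1 (.S 2 0 (.L 5 6 [4, 4, 5, 5, 6] [62, 58, 48, 38,
    28, 0] [] 100000 50000 50000 700000 0 0 50000 100000 0 0 0) (.S 3 14 (.S 3 7 (.S 3 3 (.L 5 6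
    [4, 4, 5, 5, 6] [62, 58, 48, 38, 28, 0] [] 100000 21667 21667 986670 6667 6667 33333 30000 6667
    6667 33333) (.L 5 6 [4, 4, 5, 5, 6] [62, 58, 48, 38, 28, 0] [] 100000 19967 19966 1071225 0
    29535 34853 40171 10066 31909 27920)) (.E 1)) (.E 1))) (.S 3 13 (.S 3 6 (.S 3 3 (.L 5 6 [4, 4,
    5, 5, 6] [62, 58, 48, 38, 28, 0] [] 100000 19408 19406 1071121 14441 0 46363 14441 11183 28882
    28013) (.L 5 6 [4, 4, 5, 5, 6] [62, 58, 48, 38, 28, 0] [] 100000 9211 9211 1105263 13158 0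
    34211 42105 42105 36842 31579)) (.E 1)) (.E 1))) (.L 5 6 [4, 4, 5, 5, 6] [62, 58, 48, 38, 28,
    0] [] 100000 17664 17664 1082241 11969 0 19305 69884 14672 30116 30116)))

lemma s21_21_5_4_6 {n : ℕ} (hn : 5 ≤ n) : NoNd (d21_21_5_4.R : ℤ) d21_21_5_4.H n d21_21_5_4.a d21_21_5_4.b
    (BlkD.inB (BlkD.upd (fun _ => 0) 0 2)
      (BlkD.upd (BlkD.upd (BlkD.upd (BlkD.upd (BlkD.upd (BlkD.upd (fun _ => 21) 0 5) 2 4) 0 2) 1 19) 1 9) 1 4)) :=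
  BlkD.tree_sound (BlkD.pairOk_sound k21_21_5_4) (by decide) hn t21_21_5_4_6 _ _ (by decide +kernel)

/-- certificates of the pair `(5, 4)`, part 7 -/
def t21_21_5_4_7 : BlkD.Tr :=
  .S 1 7 (.S 1 6 (.S 1 5 (.S 2 2 (.S 2 1 (.L 5 6 [4, 4, 5, 5, 6] [78, 74, 70, 60, 50, 40] [] 100000
    12500 12499 1100003 0 25000 25000 50000 41667 16667 33333) (.L 5 6 [4, 4, 5, 5, 6] [78, 74, 70,
    60, 50, 40] [] 100000 9677 9675 1138712 9677 0 32258 45161 38710 25806 35484)) (.L 5 6 [4, 4,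
    5, 5, 6] [78, 74, 70, 60, 50, 40] [] 100000 2500 2500 1170000 0 0 30000 50000 60000 45000
    45000)) (.S 2 2 (.S 2 1 (.L 5 6 [4, 4, 5, 5, 6] [94, 92, 88, 84, 74, 64] [] 100000 13021 13020
    1114584 0 33333 16667 52083 50000 14583 33333) (.S 3 11 (.S 3 5 (.S 3 2 (.L 5 6 [4, 4, 5, 5, 6]
    [94, 92, 88, 84, 74, 64] [] 100000 22222 22220 1033334 0 0 83333 22222 27778 22222 22222) (.L 5
    6 [4, 4, 5, 5, 6] [94, 92, 88, 84, 74, 64] [] 100000 4167 4167 1166668 16667 0 33333 16667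
    50000 66667 41667)) (.E 1)) (.E 1))) (.L 5 6 [4, 4, 5, 5, 6] [94, 92, 88, 84, 74, 64] [] 100000
    0 0 1150000 0 0 25000 50000 75000 50000 50000))) (.E 0)) (.E 0)

lemma s21_21_5_4_7 {n : ℕ} (hn : 5 ≤ n) : NoNd (d21_21_5_4.R : ℤ) d21_21_5_4.H n d21_21_5_4.a d21_21_5_4.b
    (BlkD.inB (BlkD.upd (BlkD.upd (fun _ => 0) 0 2) 1 5)
      (BlkD.upd (BlkD.upd (BlkD.upd (BlkD.upd (BlkD.upd (fun _ => 21) 0 5) 2 4) 0 2) 1 19) 1 9)) :=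
  BlkD.tree_sound (BlkD.pairOk_sound k21_21_5_4) (by decide) hn t21_21_5_4_7 _ _ (by decide +kernel)

/-- certificates of the pair `(5, 4)`, part 8 -/
def t21_21_5_4_8 : BlkD.Tr :=
  .E 0

lemma s21_21_5_4_8 {n : ℕ} (hn : 5 ≤ n) : NoNd (d21_21_5_4.R : ℤ) d21_21_5_4.H n d21_21_5_4.a d21_21_5_4.b
    (BlkD.inB (BlkD.upd (BlkD.upd (fun _ => 0) 0 2) 1 10)
      (BlkD.upd (BlkD.upd (BlkD.upd (BlkD.upd (fun _ => 21) 0 5) 2 4) 0 2) 1 19)) :=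
  BlkD.tree_sound (BlkD.pairOk_sound k21_21_5_4) (by decide) hn t21_21_5_4_8 _ _ (by decide +kernel)

/-- certificates of the pair `(5, 4)`, part 9 -/
def t21_21_5_4_9 : BlkD.Tr :=
  .E 0

lemma s21_21_5_4_9 {n : ℕ} (hn : 5 ≤ n) : NoNd (d21_21_5_4.R : ℤ) d21_21_5_4.H n d21_21_5_4.a d21_21_5_4.b
    (BlkD.inB (BlkD.upd (BlkD.upd (fun _ => 0) 0 2) 1 20)
      (BlkD.upd (BlkD.upd (BlkD.upd (fun _ => 21) 0 5) 2 4) 0 2)) :=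
  BlkD.tree_sound (BlkD.pairOk_sound k21_21_5_4) (by decide) hn t21_21_5_4_9 _ _ (by decide +kernel)

/-- certificates of the pair `(5, 4)`, part 10 -/
def t21_21_5_4_10 : BlkD.Tr :=
  .S 0 3 (.S 1 18 (.S 1 9 (.S 1 4 (.S 1 2 (.L 5 6 [4, 4, 5, 5, 6] [] [] 100000 20890 20890 1048230
    25754 262 54657 25754 8220 25754 35024) (.S 1 3 (.L 5 6 [4, 4, 5, 5, 6] [54, 44, 34, 24, 0, 0]
    [] 100000 11111 11109 1100001 11111 0 44444 33333 33333 22222 33333) (.S 2 2 (.L 6 6 [4, 4, 5,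
    5, 5] [70, 66, 56, 46, 36, 0] [] 100000 11364 11364 1130303 19697 0 30303 40152 50758 21212
    33333) (.L 6 6 [4, 4, 5, 5, 5] [70, 66, 56, 46, 36, 0] [] 100000 3125 3125 1143750 12500 0
    18750 50000 81250 43750 43750)))) (.L 6 6 [4, 4, 5, 5, 5] [] [] 100000 26562 26560 1003750 0 0
    90000 26250 30000 13750 20000)) (.E 0)) (.E 0)) (.L 6 6 [4, 4, 5, 5, 5] [] [] 100000 11538
    11536 1103848 0 0 48077 50000 34615 19231 34615)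

lemma s21_21_5_4_10 {n : ℕ} (hn : 5 ≤ n) : NoNd (d21_21_5_4.R : ℤ) d21_21_5_4.H n d21_21_5_4.a d21_21_5_4.b
    (BlkD.inB (BlkD.upd (fun _ => 0) 0 3)
      (BlkD.upd (BlkD.upd (BlkD.upd (fun _ => 21) 0 5) 2 4) 0 4)) :=
  BlkD.tree_sound (BlkD.pairOk_sound k21_21_5_4) (by decide) hn t21_21_5_4_10 _ _ (by decide +kernel)

/-- certificates of the pair `(5, 4)`, part 11 -/
def t21_21_5_4_11 : BlkD.Tr :=
  .L 6 6 [4, 4, 5, 5, 5] [] [] 100000 9052 9052 1113794 0 0 43103 50000 37931 25862 37931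

lemma s21_21_5_4_11 {n : ℕ} (hn : 5 ≤ n) : NoNd (d21_21_5_4.R : ℤ) d21_21_5_4.H n d21_21_5_4.a d21_21_5_4.b
    (BlkD.inB (BlkD.upd (BlkD.upd (fun _ => 0) 0 3) 0 5)
      (BlkD.upd (BlkD.upd (fun _ => 21) 0 5) 2 4)) :=
  BlkD.tree_sound (BlkD.pairOk_sound k21_21_5_4) (by decide) hn t21_21_5_4_11 _ _ (by decide +kernel)

/-- certificates of the pair `(5, 4)`, part 12 -/
def t21_21_5_4_12 : BlkD.Tr :=
  .E 1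

lemma s21_21_5_4_12 {n : ℕ} (hn : 5 ≤ n) : NoNd (d21_21_5_4.R : ℤ) d21_21_5_4.H n d21_21_5_4.a d21_21_5_4.b
    (BlkD.inB (BlkD.upd (fun _ => 0) 2 5)
      (BlkD.upd (fun _ => 21) 0 5)) :=
  BlkD.tree_sound (BlkD.pairOk_sound k21_21_5_4) (by decide) hn t21_21_5_4_12 _ _ (by decide +kernel)

/-- certificates of the pair `(5, 4)`, part 13 -/
def t21_21_5_4_13 : BlkD.Tr :=
  .E 0

lemma s21_21_5_4_13 {n : ℕ} (hn : 5 ≤ n) : NoNd (d21_21_5_4.R : ℤ) d21_21_5_4.H n d21_21_5_4.a d21_21_5_4.b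
    (BlkD.inB (BlkD.upd (fun _ => 0) 0 6)
      (fun _ => 21)) :=
  BlkD.tree_sound (BlkD.pairOk_sound k21_21_5_4) (by decide) hn t21_21_5_4_13 _ _ (by decide +kernel)

lemma pr21_21_5_4 {n : ℕ} (hn : 5 ≤ n) : NoPr ((21 : ℕ) : ℤ) ((21 : ℕ) : ℤ) n 5 4 :=
  BlkD.of_root (R := d21_21_5_4.R) (H := d21_21_5_4.H) (a := d21_21_5_4.a) (b := d21_21_5_4.b) (q := 3) (by decide) hn
    (BlkD.sp 0 5 (BlkD.sp 2 4 (BlkD.sp 0 2 (BlkD.sp 0 1 (BlkD.sp 0 0 (s21_21_5_4_1 hn) (BlkD.sp 1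
      20 (BlkD.sp 1 10 (BlkD.sp 1 5 (s21_21_5_4_2 hn) (s21_21_5_4_3 hn)) (s21_21_5_4_4 hn))
      (s21_21_5_4_5 hn))) (BlkD.sp 1 19 (BlkD.sp 1 9 (BlkD.sp 1 4 (s21_21_5_4_6 hn) (s21_21_5_4_7
      hn)) (s21_21_5_4_8 hn)) (s21_21_5_4_9 hn))) (BlkD.sp 0 4 (s21_21_5_4_10 hn) (s21_21_5_4_11
      hn))) (s21_21_5_4_12 hn)) (s21_21_5_4_13 hn))

/-- the numbers of the pair `(6, 0)`, `R = 21`, `H = 21` -/
def d21_21_6_0 : BlkD.Pd :=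
  ⟨21, 21, 3, 6, 0, 12, 0, 1, 0, 4, 4, 0, 0, 4, 4, 0, [0, 4, 8, 12, 16, 20, 24, 28, 32, 36, 40, 44,
    48], [0, 4, 8, 12, 16, 20, 24, 28, 32, 36, 40, 44, 48], [⟨1, 1, 1, 4, 8, [0, 4], [0, 4]⟩]⟩

/-- the certificates of the pair `(6, 0)` -/
def t21_21_6_0 : BlkD.Tr :=
  .S 0 6 (.S 2 0 (.L 4 4 [4] [] [] 100000 0 0 716668 33333 0 50000 50000 0 0 0) (.E 1)) (.E 0)

lemma pr21_21_6_0 {n : ℕ} (hn : 5 ≤ n) : NoPr ((21 : ℕ) : ℤ) ((21 : ℕ) : ℤ) n 6 0 :=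
  BlkD.pair_sound (d := d21_21_6_0) (by decide +kernel) hn (by decide) (tr := t21_21_6_0)
    (by decide +kernel) rfl rfl rfl rfl

/-- the numbers of the pair `(6, 1)`, `R = 21`, `H = 21` -/
def d21_21_6_1 : BlkD.Pd :=
  ⟨21, 21, 3, 6, 1, 11, 1, 1, 2, 2, 6, 0, 0, 4, 4, 0, [0, 6, 12, 18, 24, 30, 34, 36, 38, 40, 42,
    44], [0, 4, 8, 12, 16, 20, 24, 28, 32, 36, 40, 44], [⟨1, 1, 1, 4, 8, [0, 4], [0, 4]⟩, ⟨1, 1, 1,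
    4, 10, [0, 6], [0, 4]⟩]⟩

lemma k21_21_6_1 : BlkD.pairOk d21_21_6_1 = true := by decide +kernel

/-- certificates of the pair `(6, 1)`, part 1 -/
def t21_21_6_1_1 : BlkD.Tr :=
  .S 0 1 (.L 4 5 [4, 4] [] [] 100000 0 0 850000 50000 0 50000 0 0 0 0) (.L 4 5 [4, 4] [] [] 100000
    0 0 850000 50000 0 50000 0 0 0 0)

lemma s21_21_6_1_1 {n : ℕ} (hn : 5 ≤ n) : NoNd (d21_21_6_1.R : ℤ) d21_21_6_1.H n d21_21_6_1.a d21_21_6_1.b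
    (BlkD.inB (fun _ => 0)
      (BlkD.upd (BlkD.upd (BlkD.upd (fun _ => 21) 0 6) 2 1) 0 3)) :=
  BlkD.tree_sound (BlkD.pairOk_sound k21_21_6_1) (by decide) hn t21_21_6_1_1 _ _ (by decide +kernel)

/-- certificates of the pair `(6, 1)`, part 2 -/
def t21_21_6_1_2 : BlkD.Tr :=
  .L 4 5 [4, 4] [] [] 100000 0 0 850000 50000 0 50000 0 0 0 0

lemma s21_21_6_1_2 {n : ℕ} (hn : 5 ≤ n) : NoNd (d21_21_6_1.R : ℤ) d21_21_6_1.H n d21_21_6_1.a d21_21_6_1.b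
    (BlkD.inB (BlkD.upd (fun _ => 0) 0 4)
      (BlkD.upd (BlkD.upd (fun _ => 21) 0 6) 2 1)) :=
  BlkD.tree_sound (BlkD.pairOk_sound k21_21_6_1) (by decide) hn t21_21_6_1_2 _ _ (by decide +kernel)

/-- certificates of the pair `(6, 1)`, part 3 -/
def t21_21_6_1_3 : BlkD.Tr :=
  .E 1

lemma s21_21_6_1_3 {n : ℕ} (hn : 5 ≤ n) : NoNd (d21_21_6_1.R : ℤ) d21_21_6_1.H n d21_21_6_1.a d21_21_6_1.b
    (BlkD.inB (BlkD.upd (fun _ => 0) 2 2)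
      (BlkD.upd (fun _ => 21) 0 6)) :=
  BlkD.tree_sound (BlkD.pairOk_sound k21_21_6_1) (by decide) hn t21_21_6_1_3 _ _ (by decide +kernel)

/-- certificates of the pair `(6, 1)`, part 4 -/
def t21_21_6_1_4 : BlkD.Tr :=
  .E 0

lemma s21_21_6_1_4 {n : ℕ} (hn : 5 ≤ n) : NoNd (d21_21_6_1.R : ℤ) d21_21_6_1.H n d21_21_6_1.a d21_21_6_1.b
    (BlkD.inB (BlkD.upd (fun _ => 0) 0 7)
      (fun _ => 21)) :=
  BlkD.tree_sound (BlkD.pairOk_sound k21_21_6_1) (by decide) hn t21_21_6_1_4 _ _ (by decide +kernel)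

lemma pr21_21_6_1 {n : ℕ} (hn : 5 ≤ n) : NoPr ((21 : ℕ) : ℤ) ((21 : ℕ) : ℤ) n 6 1 :=
  BlkD.of_root (R := d21_21_6_1.R) (H := d21_21_6_1.H) (a := d21_21_6_1.a) (b := d21_21_6_1.b) (q := 3) (by decide) hn
    (BlkD.sp 0 6 (BlkD.sp 2 1 (BlkD.sp 0 3 (s21_21_6_1_1 hn) (s21_21_6_1_2 hn)) (s21_21_6_1_3 hn))
      (s21_21_6_1_4 hn))

end BlkC

end Pool.Agent.Lib.MP_f04ccf_co
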