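import Pool.Agent.Lib.MP_f04ccf_co.M.BlkT

/-!
MP_f04ccf_co, block certificate, data `R = 21`, `H = 21`, part 10 (generated, helper99:
bd10.cpp, gen2.py).
-/

set_option autoImplicit false
set_option maxRecDepth 100000

namespace Pool.Agent.Lib.MP_f04ccf_co

namespace BlkC

/-- the numbers of the pair `(8, 4)`, `R = 21`, `H = 21` -/
def d21_21_8_4 : BlkD.Pd :=
  ⟨21, 21, 3, 8, 4, 6, 3, 2, 1, 4, 12, 0, 2, 2, 8, 0, [0, 12, 24, 27, 28, 29, 30], [0, 8, 16, 18,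
    20, 22, 24], [⟨1, 1, 1, 4, 8, [0, 4], [0, 4]⟩, ⟨1, 1, 1, 4, 14, [0, 8], [0, 6]⟩, ⟨1, 1, 1, 4,
    18, [0, 10], [0, 8]⟩, ⟨2, 1, 1, 4, 26, [0, 12, 18], [0, 8]⟩]⟩

lemma k21_21_8_4 : BlkD.pairOk d21_21_8_4 = true := by decide +kernel

/-- certificates of the pair `(8, 4)`, part 1 -/
def t21_21_8_4_1 : BlkD.Tr :=
  .L 6 9 [4, 4, 4, 4, 21] [] [] 100000 110256 110256 1046156 84615 0 92308 46154 0 0 0

lemma s21_21_8_4_1 {n : ℕ} (hn : 5 ≤ n) : NoNd (d21_21_8_4.R : ℤ) d21_21_8_4.H n d21_21_8_4.a d21_21_8_4.b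
    (BlkD.inB (fun _ => 0)
      (BlkD.upd (BlkD.upd (BlkD.upd (BlkD.upd (BlkD.upd (BlkD.upd (fun _ => 21) 0 8) 2 4) 0 4) 0 2) 0 1) 0 0)) :=
  BlkD.tree_sound (BlkD.pairOk_sound k21_21_8_4) (by decide) hn t21_21_8_4_1 _ _ (by decide +kernel)

/-- certificates of the pair `(8, 4)`, part 2 -/
def t21_21_8_4_2 : BlkD.Tr :=
  .L 6 9 [4, 4, 4, 4, 21] [] [] 100000 110256 110256 1046156 84615 0 92308 46154 0 0 0

lemma s21_21_8_4_2 {n : ℕ} (hn : 5 ≤ n) : NoNd (d21_21_8_4.R : ℤ) d21_21_8_4.H n d21_21_8_4.a d21_21_8_4.b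
    (BlkD.inB (BlkD.upd (fun _ => 0) 0 1)
      (BlkD.upd (BlkD.upd (BlkD.upd (BlkD.upd (BlkD.upd (BlkD.upd (BlkD.upd (fun _ => 21) 0 8) 2 4) 0 4) 0 2) 0 1) 1 10) 1 5)) :=
  BlkD.tree_sound (BlkD.pairOk_sound k21_21_8_4) (by decide) hn t21_21_8_4_2 _ _ (by decide +kernel)

/-- certificates of the pair `(8, 4)`, part 3 -/
def t21_21_8_4_3 : BlkD.Tr :=
  .L 6 9 [4, 4, 4, 4, 21] [] [] 100000 110256 110256 1046156 84615 0 92308 46154 0 0 0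

lemma s21_21_8_4_3 {n : ℕ} (hn : 5 ≤ n) : NoNd (d21_21_8_4.R : ℤ) d21_21_8_4.H n d21_21_8_4.a d21_21_8_4.b
    (BlkD.inB (BlkD.upd (BlkD.upd (fun _ => 0) 0 1) 1 6)
      (BlkD.upd (BlkD.upd (BlkD.upd (BlkD.upd (BlkD.upd (BlkD.upd (fun _ => 21) 0 8) 2 4) 0 4) 0 2) 0 1) 1 10)) :=
  BlkD.tree_sound (BlkD.pairOk_sound k21_21_8_4) (by decide) hn t21_21_8_4_3 _ _ (by decide +kernel)

/-- certificates of the pair `(8, 4)`, part 4 -/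
def t21_21_8_4_4 : BlkD.Tr :=
  .L 6 9 [4, 4, 4, 4, 21] [] [] 100000 110256 110256 1046156 84615 0 92308 46154 0 0 0

lemma s21_21_8_4_4 {n : ℕ} (hn : 5 ≤ n) : NoNd (d21_21_8_4.R : ℤ) d21_21_8_4.H n d21_21_8_4.a d21_21_8_4.b
    (BlkD.inB (BlkD.upd (BlkD.upd (fun _ => 0) 0 1) 1 11)
      (BlkD.upd (BlkD.upd (BlkD.upd (BlkD.upd (BlkD.upd (fun _ => 21) 0 8) 2 4) 0 4) 0 2) 0 1)) :=
  BlkD.tree_sound (BlkD.pairOk_sound k21_21_8_4) (by decide) hn t21_21_8_4_4 _ _ (by decide +kernel)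

/-- certificates of the pair `(8, 4)`, part 5 -/
def t21_21_8_4_5 : BlkD.Tr :=
  .L 6 9 [4, 4, 4, 4, 21] [] [] 100000 110256 110256 1046156 84615 0 92308 46154 0 0 0

lemma s21_21_8_4_5 {n : ℕ} (hn : 5 ≤ n) : NoNd (d21_21_8_4.R : ℤ) d21_21_8_4.H n d21_21_8_4.a d21_21_8_4.b
    (BlkD.inB (BlkD.upd (fun _ => 0) 0 2)
      (BlkD.upd (BlkD.upd (BlkD.upd (BlkD.upd (BlkD.upd (BlkD.upd (fun _ => 21) 0 8) 2 4) 0 4) 0 2) 1 10) 1 5)) :=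
  BlkD.tree_sound (BlkD.pairOk_sound k21_21_8_4) (by decide) hn t21_21_8_4_5 _ _ (by decide +kernel)

/-- certificates of the pair `(8, 4)`, part 6 -/
def t21_21_8_4_6 : BlkD.Tr :=
  .S 1 8 (.L 6 9 [4, 4, 4, 4, 21] [] [] 100000 110256 110256 1046156 84615 0 92308 46154 0 0 0) (.L
    6 9 [4, 4, 4, 4, 21] [] [] 100000 110256 110256 1046156 84615 0 92308 46154 0 0 0)

lemma s21_21_8_4_6 {n : ℕ} (hn : 5 ≤ n) : NoNd (d21_21_8_4.R : ℤ) d21_21_8_4.H n d21_21_8_4.a d21_21_8_4.b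
    (BlkD.inB (BlkD.upd (BlkD.upd (fun _ => 0) 0 2) 1 6)
      (BlkD.upd (BlkD.upd (BlkD.upd (BlkD.upd (BlkD.upd (fun _ => 21) 0 8) 2 4) 0 4) 0 2) 1 10)) :=
  BlkD.tree_sound (BlkD.pairOk_sound k21_21_8_4) (by decide) hn t21_21_8_4_6 _ _ (by decide +kernel)

/-- certificates of the pair `(8, 4)`, part 7 -/
def t21_21_8_4_7 : BlkD.Tr :=
  .L 6 9 [4, 4, 4, 4, 21] [] [] 100000 110256 110256 1046156 84615 0 92308 46154 0 0 0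

lemma s21_21_8_4_7 {n : ℕ} (hn : 5 ≤ n) : NoNd (d21_21_8_4.R : ℤ) d21_21_8_4.H n d21_21_8_4.a d21_21_8_4.b
    (BlkD.inB (BlkD.upd (BlkD.upd (fun _ => 0) 0 2) 1 11)
      (BlkD.upd (BlkD.upd (BlkD.upd (BlkD.upd (fun _ => 21) 0 8) 2 4) 0 4) 0 2)) :=
  BlkD.tree_sound (BlkD.pairOk_sound k21_21_8_4) (by decide) hn t21_21_8_4_7 _ _ (by decide +kernel)

/-- certificates of the pair `(8, 4)`, part 8 -/
def t21_21_8_4_8 : BlkD.Tr :=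
  .L 6 9 [4, 4, 4, 4, 21] [] [] 100000 33333 33332 1250000 12500 0 12500 37500 0 0 0

lemma s21_21_8_4_8 {n : ℕ} (hn : 5 ≤ n) : NoNd (d21_21_8_4.R : ℤ) d21_21_8_4.H n d21_21_8_4.a d21_21_8_4.b
    (BlkD.inB (BlkD.upd (fun _ => 0) 0 3)
      (BlkD.upd (BlkD.upd (BlkD.upd (BlkD.upd (BlkD.upd (BlkD.upd (BlkD.upd (fun _ => 21) 0 8) 2 4) 0 4) 0 3) 1 18) 1 9) 1 4)) :=
  BlkD.tree_sound (BlkD.pairOk_sound k21_21_8_4) (by decide) hn t21_21_8_4_8 _ _ (by decide +kernel)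

/-- certificates of the pair `(8, 4)`, part 9 -/
def t21_21_8_4_9 : BlkD.Tr :=
  .S 1 7 (.S 1 6 (.L 6 9 [4, 4, 4, 4, 21] [] [] 100000 23810 23809 1371428 21429 0 42857 42857 0
    28571 28571) (.L 6 9 [4, 4, 4, 4, 21] [135, 134, 133, 130, 120, 108] [] 100000 25641 25641
    1384617 30769 0 53846 46154 0 23077 23077)) (.S 1 8 (.L 6 9 [4, 4, 4, 4, 21] [156, 155, 154,
    153, 150, 140] [] 100000 30000 30000 1380000 40000 0 60000 50000 0 10000 20000) (.L 6 9 [4, 4,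
    4, 4, 21] [179, 178, 177, 176, 175, 172] [] 100000 42500 42500 1350000 52500 0 70000 35000 0
    17500 17500))

lemma s21_21_8_4_9 {n : ℕ} (hn : 5 ≤ n) : NoNd (d21_21_8_4.R : ℤ) d21_21_8_4.H n d21_21_8_4.a d21_21_8_4.b
    (BlkD.inB (BlkD.upd (BlkD.upd (fun _ => 0) 0 3) 1 5)
      (BlkD.upd (BlkD.upd (BlkD.upd (BlkD.upd (BlkD.upd (BlkD.upd (fun _ => 21) 0 8) 2 4) 0 4) 0 3) 1 18) 1 9)) :=
  BlkD.tree_sound (BlkD.pairOk_sound k21_21_8_4) (by decide) hn t21_21_8_4_9 _ _ (by decide +kernel)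

/-- certificates of the pair `(8, 4)`, part 10 -/
def t21_21_8_4_10 : BlkD.Tr :=
  .S 1 14 (.S 1 12 (.S 1 11 (.S 1 10 (.L 6 9 [4, 4, 4, 4, 21] [204, 203, 202, 201, 200, 199] []
    100000 75000 75000 1200000 75000 0 100000 25000 0 0 0) (.L 6 9 [4, 4, 4, 4, 21] [231, 230, 229,
    228, 227, 226] [] 100000 125000 100000 950000 100000 0 125000 50000 0 0 0)) (.L 6 9 [4, 4, 4,
    4, 21] [260, 259, 258, 257, 256, 255] [] 100000 223530 1 1 182353 0 323529 0 0 0 0)) (.E 0))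
    (.E 0)

lemma s21_21_8_4_10 {n : ℕ} (hn : 5 ≤ n) : NoNd (d21_21_8_4.R : ℤ) d21_21_8_4.H n d21_21_8_4.a d21_21_8_4.b
    (BlkD.inB (BlkD.upd (BlkD.upd (fun _ => 0) 0 3) 1 10)
      (BlkD.upd (BlkD.upd (BlkD.upd (BlkD.upd (BlkD.upd (fun _ => 21) 0 8) 2 4) 0 4) 0 3) 1 18)) :=
  BlkD.tree_sound (BlkD.pairOk_sound k21_21_8_4) (by decide) hn t21_21_8_4_10 _ _ (by decide +kernel)

/-- certificates of the pair `(8, 4)`, part 11 -/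
def t21_21_8_4_11 : BlkD.Tr :=
  .E 0

lemma s21_21_8_4_11 {n : ℕ} (hn : 5 ≤ n) : NoNd (d21_21_8_4.R : ℤ) d21_21_8_4.H n d21_21_8_4.a d21_21_8_4.b
    (BlkD.inB (BlkD.upd (BlkD.upd (fun _ => 0) 0 3) 1 19)
      (BlkD.upd (BlkD.upd (BlkD.upd (BlkD.upd (fun _ => 21) 0 8) 2 4) 0 4) 0 3)) :=
  BlkD.tree_sound (BlkD.pairOk_sound k21_21_8_4) (by decide) hn t21_21_8_4_11 _ _ (by decide +kernel)

/-- certificates of the pair `(8, 4)`, part 12 -/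
def t21_21_8_4_12 : BlkD.Tr :=
  .L 6 9 [4, 4, 4, 4, 21] [] [] 100000 33333 33332 1300000 25000 0 25000 75000 0 0 0

lemma s21_21_8_4_12 {n : ℕ} (hn : 5 ≤ n) : NoNd (d21_21_8_4.R : ℤ) d21_21_8_4.H n d21_21_8_4.a d21_21_8_4.b
    (BlkD.inB (BlkD.upd (BlkD.upd (fun _ => 0) 0 3) 0 4)
      (BlkD.upd (BlkD.upd (BlkD.upd (BlkD.upd (BlkD.upd (BlkD.upd (fun _ => 21) 0 8) 2 4) 0 4) 1 17) 1 8) 1 4)) :=
  BlkD.tree_sound (BlkD.pairOk_sound k21_21_8_4) (by decide) hn t21_21_8_4_12 _ _ (by decide +kernel)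

/-- certificates of the pair `(8, 4)`, part 13 -/
def t21_21_8_4_13 : BlkD.Tr :=
  .S 1 5 (.L 6 9 [4, 4, 4, 4, 21] [109, 106, 96, 84, 72, 60] [] 100000 25000 25000 1375000 25000 0
    50000 50000 0 25000 25000) (.L 6 9 [4, 4, 4, 4, 21] [128, 127, 124, 114, 102, 90] [] 100000
    25641 25641 1415386 30769 0 53846 46154 0 23077 23077)

lemma s21_21_8_4_13 {n : ℕ} (hn : 5 ≤ n) : NoNd (d21_21_8_4.R : ℤ) d21_21_8_4.H n d21_21_8_4.a d21_21_8_4.b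
    (BlkD.inB (BlkD.upd (BlkD.upd (BlkD.upd (fun _ => 0) 0 3) 0 4) 1 5)
      (BlkD.upd (BlkD.upd (BlkD.upd (BlkD.upd (BlkD.upd (BlkD.upd (fun _ => 21) 0 8) 2 4) 0 4) 1 17) 1 8) 1 6)) :=
  BlkD.tree_sound (BlkD.pairOk_sound k21_21_8_4) (by decide) hn t21_21_8_4_13 _ _ (by decide +kernel)

/-- certificates of the pair `(8, 4)`, part 14 -/
def t21_21_8_4_14 : BlkD.Tr :=
  .S 2 2 (.S 2 1 (.L 6 9 [4, 4, 4, 4, 21] [149, 148, 147, 144, 134, 122] [] 100000 58890 58890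
    1299999 46667 40000 66667 60000 0 0 10000) (.S 3 8 (.S 3 4 (.S 3 2 (.L 6 9 [4, 4, 4, 4, 21]
    [149, 148, 147, 144, 134, 122] [] 100000 28334 28334 1394285 40000 0 69286 26429 714 13571
    20000) (.S 3 3 (.L 4 6 [4, 5, 5, 6, 21] [149, 148, 147, 144, 134, 122] [48, 40, 30, 18, 0, 0]
    100000 58333 58332 1300000 50000 0 75000 50000 0 25000 25000) (.L 6 9 [4, 4, 4, 4, 21] [149,
    148, 147, 144, 134, 122] [66, 58, 50, 40, 28, 0] 100000 57575 57575 1300003 54545 0 72727 54545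
    0 18182 0))) (.E 1)) (.E 1))) (.L 6 9 [4, 4, 4, 4, 21] [149, 148, 147, 144, 134, 122] [] 100000
    26667 26667 1400000 40000 0 60000 40000 0 20000 20000)

lemma s21_21_8_4_14 {n : ℕ} (hn : 5 ≤ n) : NoNd (d21_21_8_4.R : ℤ) d21_21_8_4.H n d21_21_8_4.a d21_21_8_4.b
    (BlkD.inB (BlkD.upd (BlkD.upd (BlkD.upd (BlkD.upd (fun _ => 0) 0 3) 0 4) 1 5) 1 7)
      (BlkD.upd (BlkD.upd (BlkD.upd (BlkD.upd (BlkD.upd (BlkD.upd (fun _ => 21) 0 8) 2 4) 0 4) 1 17) 1 8) 1 7)) :=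
  BlkD.tree_sound (BlkD.pairOk_sound k21_21_8_4) (by decide) hn t21_21_8_4_14 _ _ (by decide +kernel)

/-- certificates of the pair `(8, 4)`, part 15 -/
def t21_21_8_4_15 : BlkD.Tr :=
  .S 2 2 (.S 2 1 (.L 6 9 [4, 4, 4, 4, 21] [172, 171, 170, 169, 166, 156] [] 100000 46667 46667
    1320000 40000 40000 80000 60000 0 0 20000) (.S 3 7 (.S 3 3 (.S 3 1 (.L 6 9 [4, 4, 4, 4, 21]
    [172, 171, 170, 169, 166, 156] [] 100000 33333 33332 1340000 40000 0 80000 40000 0 0 20000) (.S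
    3 2 (.L 6 9 [4, 4, 4, 4, 21] [172, 171, 170, 169, 166, 156] [32, 22, 10, 0, 0, 0] 100000 22718
    22718 1426754 38217 0 84076 25478 5096 25478 21656) (.L 6 9 [4, 4, 4, 4, 21] [172, 171, 170,
    169, 166, 156] [48, 40, 30, 18, 0, 0] 100000 15687 15687 1450588 31765 0 82353 40000 4706 31765
    15294))) (.L 6 9 [4, 4, 4, 4, 21] [172, 171, 170, 169, 166, 156] [] 100000 100000 99999 1133332
    77778 0 100000 77778 0 11111 11111)) (.E 1))) (.L 6 9 [4, 4, 4, 4, 21] [172, 171, 170, 169,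
    166, 156] [] 100000 24807 24807 1419766 36047 0 93605 22093 5814 21512 20930)

lemma s21_21_8_4_15 {n : ℕ} (hn : 5 ≤ n) : NoNd (d21_21_8_4.R : ℤ) d21_21_8_4.H n d21_21_8_4.a d21_21_8_4.b
    (BlkD.inB (BlkD.upd (BlkD.upd (BlkD.upd (BlkD.upd (BlkD.upd (fun _ => 0) 0 3) 0 4) 1 5) 1 7) 1 8)
      (BlkD.upd (BlkD.upd (BlkD.upd (BlkD.upd (BlkD.upd (fun _ => 21) 0 8) 2 4) 0 4) 1 17) 1 8)) :=
  BlkD.tree_sound (BlkD.pairOk_sound k21_21_8_4) (by decide) hn t21_21_8_4_15 _ _ (by decide +kernel)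

/-- certificates of the pair `(8, 4)`, part 16 -/
def t21_21_8_4_16 : BlkD.Tr :=
  .S 1 13 (.S 1 11 (.S 1 10 (.S 1 9 (.S 2 2 (.S 2 1 (.L 6 9 [4, 4, 4, 4, 21] [197, 196, 195, 194,
    193, 190] [] 100000 66667 66667 1250000 50000 50000 100000 50000 0 0 0) (.L 5 7 [4, 4, 4, 5,
    21] [197, 196, 195, 194, 193, 190] [] 100000 70371 70371 1266666 66667 0 100000 33333 0 0
    11111)) (.L 5 7 [4, 4, 4, 5, 21] [197, 196, 195, 194, 193, 190] [] 100000 44444 44443 1333334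
    50000 0 83333 50000 0 0 16667)) (.L 5 7 [4, 4, 4, 5, 21] [224, 223, 222, 221, 220, 219] []
    100000 79941 79940 1161948 83186 0 100000 22124 0 4720 5015)) (.E 0)) (.E 0)) (.E 0)

lemma s21_21_8_4_16 {n : ℕ} (hn : 5 ≤ n) : NoNd (d21_21_8_4.R : ℤ) d21_21_8_4.H n d21_21_8_4.a d21_21_8_4.b
    (BlkD.inB (BlkD.upd (BlkD.upd (BlkD.upd (fun _ => 0) 0 3) 0 4) 1 9)
      (BlkD.upd (BlkD.upd (BlkD.upd (BlkD.upd (fun _ => 21) 0 8) 2 4) 0 4) 1 17)) :=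
  BlkD.tree_sound (BlkD.pairOk_sound k21_21_8_4) (by decide) hn t21_21_8_4_16 _ _ (by decide +kernel)

/-- certificates of the pair `(8, 4)`, part 17 -/
def t21_21_8_4_17 : BlkD.Tr :=
  .E 0

lemma s21_21_8_4_17 {n : ℕ} (hn : 5 ≤ n) : NoNd (d21_21_8_4.R : ℤ) d21_21_8_4.H n d21_21_8_4.a d21_21_8_4.b
    (BlkD.inB (BlkD.upd (BlkD.upd (BlkD.upd (fun _ => 0) 0 3) 0 4) 1 18)
      (BlkD.upd (BlkD.upd (BlkD.upd (fun _ => 21) 0 8) 2 4) 0 4)) :=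
  BlkD.tree_sound (BlkD.pairOk_sound k21_21_8_4) (by decide) hn t21_21_8_4_17 _ _ (by decide +kernel)

/-- certificates of the pair `(8, 4)`, part 18 -/
def t21_21_8_4_18 : BlkD.Tr :=
  .L 5 7 [4, 4, 4, 5, 21] [] [] 100000 22222 22221 1400000 25000 0 33333 66667 0 33333 33333

lemma s21_21_8_4_18 {n : ℕ} (hn : 5 ≤ n) : NoNd (d21_21_8_4.R : ℤ) d21_21_8_4.H n d21_21_8_4.a d21_21_8_4.b
    (BlkD.inB (BlkD.upd (fun _ => 0) 0 5)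
      (BlkD.upd (BlkD.upd (BlkD.upd (BlkD.upd (BlkD.upd (BlkD.upd (BlkD.upd (fun _ => 21) 0 8) 2 4) 0 6) 0 5) 1 16) 1 8) 1 4)) :=
  BlkD.tree_sound (BlkD.pairOk_sound k21_21_8_4) (by decide) hn t21_21_8_4_18 _ _ (by decide +kernel)

/-- certificates of the pair `(8, 4)`, part 19 -/
def t21_21_8_4_19 : BlkD.Tr :=
  .S 2 2 (.S 2 1 (.L 6 9 [4, 4, 4, 4, 21] [119, 116, 106, 94, 82, 70] [] 100000 50000 50000 1333335
    33333 50000 66667 66667 0 0 33333) (.S 3 9 (.S 3 4 (.S 3 2 (.L 6 9 [4, 4, 4, 4, 21] [119, 116,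
    106, 94, 82, 70] [] 100000 33333 33332 1375000 25000 25000 25000 25000 0 0 25000) (.S 3 3 (.L 5
    7 [4, 4, 4, 5, 21] [119, 116, 106, 94, 82, 70] [48, 40, 30, 18, 0, 0] 100000 23810 23810
    1414287 28571 0 57143 28571 0 28571 28571) (.S 4 5 (.S 4 2 (.L 6 9 [4, 4, 4, 4, 21] [94, 82,
    70, 0, 0, 0] [66, 58, 50, 40, 28, 0] 100000 26667 26667 1400000 40000 0 60000 40000 0 20000
    20000) (.L 6 9 [4, 4, 4, 4, 21] [119, 116, 106, 94, 82, 70] [66, 58, 50, 40, 28, 0] 100000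
    50000 0 1100000 25000 0 150000 50000 0 0 0)) (.E 2)))) (.E 1)) (.E 1))) (.S 2 3 (.S 3 8 (.S 3 4
    (.S 3 2 (.L 5 7 [4, 4, 4, 5, 21] [119, 116, 106, 94, 82, 70] [] 100000 25000 25000 1400000
    25000 0 50000 50000 0 25000 25000) (.S 3 3 (.S 4 5 (.S 4 2 (.L 6 9 [4, 4, 4, 4, 21] [94, 82,
    70, 0, 0, 0] [54, 46, 36, 24, 0, 0] 100000 26667 26667 1400000 40000 0 40000 40000 0 20000
    20000) (.L 6 9 [4, 4, 4, 4, 21] [119, 116, 106, 94, 82, 70] [54, 46, 36, 24, 0, 0] 100000 60000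
    0 1040000 40000 0 160000 40000 0 0 0)) (.E 2)) (.E 1))) (.E 1)) (.E 1)) (.L 6 9 [4, 4, 4, 4,
    21] [119, 116, 106, 94, 82, 70] [] 100000 16667 16667 1400000 25000 0 25000 0 0 50000 50000))

lemma s21_21_8_4_19 {n : ℕ} (hn : 5 ≤ n) : NoNd (d21_21_8_4.R : ℤ) d21_21_8_4.H n d21_21_8_4.a d21_21_8_4.b
    (BlkD.inB (BlkD.upd (BlkD.upd (fun _ => 0) 0 5) 1 5)
      (BlkD.upd (BlkD.upd (BlkD.upd (BlkD.upd (BlkD.upd (BlkD.upd (BlkD.upd (BlkD.upd (fun _ => 21) 0 8) 2 4) 0 6) 0 5) 1 16) 1 8) 1 6) 1 5)) :=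
  BlkD.tree_sound (BlkD.pairOk_sound k21_21_8_4) (by decide) hn t21_21_8_4_19 _ _ (by decide +kernel)

/-- certificates of the pair `(8, 4)`, part 20 -/
def t21_21_8_4_20 : BlkD.Tr :=
  .S 2 2 (.S 2 1 (.S 2 0 (.L 6 9 [4, 4, 4, 4, 21] [140, 139, 136, 126, 114, 102] [] 100000 33333
    33332 1233333 33333 0 66667 66667 0 0 0) (.S 3 9 (.S 3 4 (.L 6 9 [4, 4, 4, 4, 21] [140, 139,
    136, 126, 114, 102] [] 100000 33334 33334 1374999 32143 39286 64286 50000 0 0 17857) (.S 3 7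
    (.S 3 6 (.S 3 5 (.S 4 6 (.S 4 3 (.L 6 9 [4, 4, 4, 4, 21] [126, 114, 102, 90, 0, 0] [70, 68, 60,
    52, 42, 30] 100000 57894 57893 1305265 42105 42105 100000 63158 0 0 0) (.L 6 9 [4, 4, 4, 4, 21]
    [140, 139, 136, 126, 114, 102] [70, 68, 60, 52, 42, 30] 100000 183334 1 300001 66667 66667
    283333 133333 0 0 0)) (.E 2)) (.L 6 9 [4, 4, 4, 4, 21] [140, 139, 136, 126, 114, 102] [84, 82,
    80, 72, 64, 54] 100000 200000 0 0 100000 0 100000 300000 0 0 0)) (.E 1)) (.E 1))) (.E 1))) (.S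
    3 8 (.S 3 4 (.S 3 2 (.S 3 1 (.L 6 9 [4, 4, 4, 4, 21] [140, 139, 136, 126, 114, 102] [] 100000
    33333 33332 1360000 40000 0 40000 0 0 0 0) (.S 4 6 (.S 4 3 (.L 4 5 [4, 5, 6, 7, 21] [126, 114,
    102, 90, 0, 0] [32, 22, 10, 0, 0, 0] 100000 25965 25964 1421054 26316 0 71579 46316 1053 20000
    33684) (.L 4 5 [4, 5, 6, 7, 21] [140, 139, 136, 126, 114, 102] [32, 22, 10, 0, 0, 0] 100000
    50000 0 1100000 0 0 150000 100000 0 0 0)) (.E 2))) (.S 3 3 (.S 4 6 (.S 4 3 (.S 4 1 (.L 5 7 [4,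
    4, 4, 5, 21] [102, 90, 0, 0, 0, 0] [48, 40, 30, 18, 0, 0] 100000 28789 28789 1372726 45455 0
    90909 45455 0 13636 13636) (.L 5 7 [4, 4, 4, 5, 21] [126, 114, 102, 90, 0, 0] [48, 40, 30, 18,
    0, 0] 100000 26191 26191 1374999 32143 0 96429 32143 0 32143 21429)) (.L 5 7 [4, 4, 4, 5, 21]
    [140, 139, 136, 126, 114, 102] [48, 40, 30, 18, 0, 0] 100000 47369 1 1115790 21053 0 147368
    21053 0 0 5263)) (.E 2)) (.S 4 6 (.S 4 3 (.L 6 9 [4, 4, 4, 4, 21] [126, 114, 102, 90, 0, 0]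
    [66, 58, 50, 40, 28, 0] 100000 36000 36000 1376000 48000 0 84000 32000 0 32000 16000) (.L 6 9
    [4, 4, 4, 4, 21] [140, 139, 136, 126, 114, 102] [66, 58, 50, 40, 28, 0] 100000 100000 0 800000
    50000 0 200000 50000 0 0 0)) (.E 2)))) (.E 1)) (.E 1))) (.S 2 3 (.S 3 7 (.S 3 3 (.S 3 1 (.L 5 7
    [4, 4, 4, 5, 21] [140, 139, 136, 126, 114, 102] [] 100000 22365 22365 1426923 24359 24359 69231
    50000 3846 25641 25214) (.S 3 2 (.L 5 7 [4, 4, 4, 5, 21] [140, 139, 136, 126, 114, 102] [36,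
    26, 14, 0, 0, 0] 100000 23718 23718 1415386 30769 0 71154 46154 0 40385 28846) (.S 4 6 (.S 4 3
    (.L 6 9 [4, 4, 4, 4, 21] [126, 114, 102, 90, 0, 0] [54, 46, 36, 24, 0, 0] 100000 28736 28736
    1386207 45977 0 83908 12644 0 43678 21839) (.L 6 9 [4, 4, 4, 4, 21] [140, 139, 136, 126, 114,
    102] [54, 46, 36, 24, 0, 0] 100000 100000 0 800000 50000 0 200000 50000 0 0 0)) (.E 2)))) (.E
    1)) (.E 1)) (.L 6 9 [4, 4, 4, 4, 21] [140, 139, 136, 126, 114, 102] [] 100000 22728 22728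
    1418182 40909 0 63636 0 4545 36364 22727))

lemma s21_21_8_4_20 {n : ℕ} (hn : 5 ≤ n) : NoNd (d21_21_8_4.R : ℤ) d21_21_8_4.H n d21_21_8_4.a d21_21_8_4.b
    (BlkD.inB (BlkD.upd (BlkD.upd (BlkD.upd (fun _ => 0) 0 5) 1 5) 1 6)
      (BlkD.upd (BlkD.upd (BlkD.upd (BlkD.upd (BlkD.upd (BlkD.upd (BlkD.upd (fun _ => 21) 0 8) 2 4) 0 6) 0 5) 1 16) 1 8) 1 6)) :=
  BlkD.tree_sound (BlkD.pairOk_sound k21_21_8_4) (by decide) hn t21_21_8_4_20 _ _ (by decide +kernel)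

/-- certificates of the pair `(8, 4)`, part 21 -/
def t21_21_8_4_21 : BlkD.Tr :=
  .S 1 7 (.S 2 2 (.S 2 1 (.L 6 9 [4, 4, 4, 4, 21] [163, 162, 161, 158, 148, 136] [] 100000 54168
    54168 1316666 41667 41667 95833 60417 0 0 2083) (.S 3 7 (.S 3 3 (.L 6 9 [4, 4, 4, 4, 21] [163,
    162, 161, 158, 148, 136] [] 100000 30303 30303 1403637 41818 0 87273 40000 0 9091 9091) (.L 6 9
    [4, 4, 4, 4, 21] [163, 162, 161, 158, 148, 136] [] 100000 48781 48780 1343902 51220 0 100000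
    34146 0 7317 7317)) (.E 1))) (.S 2 3 (.S 3 6 (.S 3 3 (.S 3 1 (.L 6 9 [4, 4, 4, 4, 21] [163,
    162, 161, 158, 148, 136] [] 100000 26316 26316 1394737 36842 0 94737 21053 0 21053 21053) (.S 3
    2 (.L 6 9 [4, 4, 4, 4, 21] [163, 162, 161, 158, 148, 136] [36, 26, 14, 0, 0, 0] 100000 20833
    20832 1418750 31250 0 93750 31250 0 31250 18750) (.L 6 9 [4, 4, 4, 4, 21] [163, 162, 161, 158,
    148, 136] [54, 46, 36, 24, 0, 0] 100000 47369 47368 1336840 52632 0 100000 0 0 15789 15789)))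
    (.E 1)) (.E 1)) (.L 6 9 [4, 4, 4, 4, 21] [163, 162, 161, 158, 148, 136] [] 100000 25926 25926
    1366668 33333 0 100000 0 0 22222 22222))) (.L 6 9 [4, 4, 4, 4, 21] [188, 187, 186, 185, 182,
    172] [] 100000 37963 37963 1350000 50000 0 100000 50000 0 8333 13889)

lemma s21_21_8_4_21 {n : ℕ} (hn : 5 ≤ n) : NoNd (d21_21_8_4.R : ℤ) d21_21_8_4.H n d21_21_8_4.a d21_21_8_4.b
    (BlkD.inB (BlkD.upd (BlkD.upd (BlkD.upd (fun _ => 0) 0 5) 1 5) 1 7)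
      (BlkD.upd (BlkD.upd (BlkD.upd (BlkD.upd (BlkD.upd (BlkD.upd (fun _ => 21) 0 8) 2 4) 0 6) 0 5) 1 16) 1 8)) :=
  BlkD.tree_sound (BlkD.pairOk_sound k21_21_8_4) (by decide) hn t21_21_8_4_21 _ _ (by decide +kernel)

/-- certificates of the pair `(8, 4)`, part 22 -/
def t21_21_8_4_22 : BlkD.Tr :=
  .L 6 9 [4, 4, 4, 4, 21] [] [] 100000 33333 33332 1370000 10000 0 100000 90000 0 0 0

lemma s21_21_8_4_22 {n : ℕ} (hn : 5 ≤ n) : NoNd (d21_21_8_4.R : ℤ) d21_21_8_4.H n d21_21_8_4.a d21_21_8_4.b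
    (BlkD.inB (BlkD.upd (BlkD.upd (fun _ => 0) 0 5) 1 9)
      (BlkD.upd (BlkD.upd (BlkD.upd (BlkD.upd (BlkD.upd (fun _ => 21) 0 8) 2 4) 0 6) 0 5) 1 16)) :=
  BlkD.tree_sound (BlkD.pairOk_sound k21_21_8_4) (by decide) hn t21_21_8_4_22 _ _ (by decide +kernel)

/-- certificates of the pair `(8, 4)`, part 23 -/
def t21_21_8_4_23 : BlkD.Tr :=
  .E 0

lemma s21_21_8_4_23 {n : ℕ} (hn : 5 ≤ n) : NoNd (d21_21_8_4.R : ℤ) d21_21_8_4.H n d21_21_8_4.a d21_21_8_4.b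
    (BlkD.inB (BlkD.upd (BlkD.upd (fun _ => 0) 0 5) 1 17)
      (BlkD.upd (BlkD.upd (BlkD.upd (BlkD.upd (fun _ => 21) 0 8) 2 4) 0 6) 0 5)) :=
  BlkD.tree_sound (BlkD.pairOk_sound k21_21_8_4) (by decide) hn t21_21_8_4_23 _ _ (by decide +kernel)

/-- certificates of the pair `(8, 4)`, part 24 -/
def t21_21_8_4_24 : BlkD.Tr :=
  .L 6 9 [4, 4, 4, 4, 21] [] [] 100000 22222 22221 1400001 33333 0 33333 66667 0 33333 33333

lemma s21_21_8_4_24 {n : ℕ} (hn : 5 ≤ n) : NoNd (d21_21_8_4.R : ℤ) d21_21_8_4.H n d21_21_8_4.a d21_21_8_4.b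
    (BlkD.inB (BlkD.upd (BlkD.upd (fun _ => 0) 0 5) 0 6)
      (BlkD.upd (BlkD.upd (BlkD.upd (BlkD.upd (BlkD.upd (BlkD.upd (fun _ => 21) 0 8) 2 4) 0 6) 1 15) 1 7) 1 3)) :=
  BlkD.tree_sound (BlkD.pairOk_sound k21_21_8_4) (by decide) hn t21_21_8_4_24 _ _ (by decide +kernel)

/-- certificates of the pair `(8, 4)`, part 25 -/
def t21_21_8_4_25 : BlkD.Tr :=
  .S 1 5 (.S 1 4 (.S 2 2 (.S 2 1 (.L 6 9 [4, 4, 4, 4, 21] [106, 96, 84, 72, 60, 0] [] 100000 30522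
    30522 1357832 25301 46988 77108 67470 0 8434 24096) (.S 3 9 (.S 3 4 (.S 3 2 (.L 6 9 [4, 4, 4,
    4, 21] [106, 96, 84, 72, 60, 0] [] 100000 24652 24652 1420003 30233 16279 52093 44186 6047
    13953 23256) (.S 3 3 (.L 6 9 [4, 4, 4, 4, 21] [106, 96, 84, 72, 60, 0] [48, 40, 30, 18, 0, 0]
    100000 21987 21987 1429788 27660 14894 68085 57447 2128 29787 29787) (.L 6 9 [4, 4, 4, 4, 21]
    [106, 96, 84, 72, 60, 0] [66, 58, 50, 40, 28, 0] 100000 23333 23332 1400000 40000 0 80000 40000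
    0 50000 30000))) (.E 1)) (.E 1))) (.L 6 9 [4, 4, 4, 4, 21] [106, 96, 84, 72, 60, 0] [] 100000
    17778 17778 1440003 33333 0 93333 33333 6667 33333 33333)) (.S 2 2 (.S 2 1 (.L 6 9 [4, 4, 4, 4,
    21] [129, 126, 116, 104, 92, 80] [] 100000 30303 30303 1365455 21818 45455 89091 69091 0 9091
    10909) (.S 3 8 (.S 3 4 (.S 3 2 (.L 5 7 [4, 4, 4, 5, 21] [129, 126, 116, 104, 92, 80] [] 100000
    27610 27610 1415152 28283 14141 68081 34040 2828 11515 15960) (.L 6 9 [4, 4, 4, 4, 21] [129,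
    126, 116, 104, 92, 80] [] 100000 23810 23810 1414287 28571 0 100000 57143 0 28571 28571)) (.E
    1)) (.E 1))) (.L 6 9 [4, 4, 4, 4, 21] [129, 126, 116, 104, 92, 80] [] 100000 17778 17778
    1440003 33333 0 93333 16667 6667 33333 33333))) (.S 1 6 (.S 2 2 (.S 2 1 (.L 6 9 [4, 4, 4, 4,
    21] [152, 151, 148, 138, 126, 114] [] 100000 31373 31373 1358825 23529 52941 88235 64706 0 5882
    5882) (.S 3 7 (.S 3 3 (.S 3 1 (.L 6 9 [4, 4, 4, 4, 21] [152, 151, 148, 138, 126, 114] [] 100000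
    33333 33332 1366667 33333 0 100000 0 0 0 0) (.S 3 2 (.L 6 9 [4, 4, 4, 4, 21] [152, 151, 148,
    138, 126, 114] [32, 22, 10, 0, 0, 0] 100000 22639 22638 1427501 29167 14583 85000 47917 6667
    18750 18750) (.L 6 9 [4, 4, 4, 4, 21] [152, 151, 148, 138, 126, 114] [48, 40, 30, 18, 0, 0]
    100000 15556 15556 1440000 20000 0 100000 40000 0 53333 26667))) (.L 6 9 [4, 4, 4, 4, 21] [152,
    151, 148, 138, 126, 114] [] 100000 100000 100000 1100000 75000 0 100000 100000 0 0 0)) (.E 1)))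
    (.L 5 7 [4, 4, 4, 5, 21] [152, 151, 148, 138, 126, 114] [] 100000 21213 21212 1416528 30579 0
    91736 34711 6612 34711 23140)) (.L 5 7 [4, 4, 4, 5, 21] [177, 176, 175, 172, 162, 150] []
    100000 33333 33332 1350000 25000 0 100000 100000 0 0 25000))

lemma s21_21_8_4_25 {n : ℕ} (hn : 5 ≤ n) : NoNd (d21_21_8_4.R : ℤ) d21_21_8_4.H n d21_21_8_4.a d21_21_8_4.b
    (BlkD.inB (BlkD.upd (BlkD.upd (BlkD.upd (fun _ => 0) 0 5) 0 6) 1 4)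
      (BlkD.upd (BlkD.upd (BlkD.upd (BlkD.upd (BlkD.upd (fun _ => 21) 0 8) 2 4) 0 6) 1 15) 1 7)) :=
  BlkD.tree_sound (BlkD.pairOk_sound k21_21_8_4) (by decide) hn t21_21_8_4_25 _ _ (by decide +kernel)

/-- certificates of the pair `(8, 4)`, part 26 -/
def t21_21_8_4_26 : BlkD.Tr :=
  .E 0

lemma s21_21_8_4_26 {n : ℕ} (hn : 5 ≤ n) : NoNd (d21_21_8_4.R : ℤ) d21_21_8_4.H n d21_21_8_4.a d21_21_8_4.b
    (BlkD.inB (BlkD.upd (BlkD.upd (BlkD.upd (fun _ => 0) 0 5) 0 6) 1 8)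
      (BlkD.upd (BlkD.upd (BlkD.upd (BlkD.upd (fun _ => 21) 0 8) 2 4) 0 6) 1 15)) :=
  BlkD.tree_sound (BlkD.pairOk_sound k21_21_8_4) (by decide) hn t21_21_8_4_26 _ _ (by decide +kernel)

/-- certificates of the pair `(8, 4)`, part 27 -/
def t21_21_8_4_27 : BlkD.Tr :=
  .E 0

lemma s21_21_8_4_27 {n : ℕ} (hn : 5 ≤ n) : NoNd (d21_21_8_4.R : ℤ) d21_21_8_4.H n d21_21_8_4.a d21_21_8_4.b
    (BlkD.inB (BlkD.upd (BlkD.upd (BlkD.upd (fun _ => 0) 0 5) 0 6) 1 16)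
      (BlkD.upd (BlkD.upd (BlkD.upd (fun _ => 21) 0 8) 2 4) 0 6)) :=
  BlkD.tree_sound (BlkD.pairOk_sound k21_21_8_4) (by decide) hn t21_21_8_4_27 _ _ (by decide +kernel)

/-- certificates of the pair `(8, 4)`, part 28 -/
def t21_21_8_4_28 : BlkD.Tr :=
  .S 0 7 (.S 1 14 (.S 1 7 (.S 1 3 (.L 5 7 [4, 4, 4, 5, 21] [] [] 100000 22807 22806 1426318 36842 0
    100000 36842 10526 21053 15789) (.L 5 7 [4, 4, 4, 5, 21] [] [] 100000 24735 24734 1409566 8696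
    4348 96232 73043 3768 18261 30435)) (.E 0)) (.E 0)) (.L 5 7 [4, 4, 4, 5, 21] [] [] 100000 1 1
    1419048 0 9524 80952 61905 47619 33333 30952)

lemma s21_21_8_4_28 {n : ℕ} (hn : 5 ≤ n) : NoNd (d21_21_8_4.R : ℤ) d21_21_8_4.H n d21_21_8_4.a d21_21_8_4.b
    (BlkD.inB (BlkD.upd (BlkD.upd (fun _ => 0) 0 5) 0 7)
      (BlkD.upd (BlkD.upd (fun _ => 21) 0 8) 2 4)) :=
  BlkD.tree_sound (BlkD.pairOk_sound k21_21_8_4) (by decide) hn t21_21_8_4_28 _ _ (by decide +kernel)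

/-- certificates of the pair `(8, 4)`, part 29 -/
def t21_21_8_4_29 : BlkD.Tr :=
  .E 1

lemma s21_21_8_4_29 {n : ℕ} (hn : 5 ≤ n) : NoNd (d21_21_8_4.R : ℤ) d21_21_8_4.H n d21_21_8_4.a d21_21_8_4.b
    (BlkD.inB (BlkD.upd (fun _ => 0) 2 5)
      (BlkD.upd (fun _ => 21) 0 8)) :=
  BlkD.tree_sound (BlkD.pairOk_sound k21_21_8_4) (by decide) hn t21_21_8_4_29 _ _ (by decide +kernel)

/-- certificates of the pair `(8, 4)`, part 30 -/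
def t21_21_8_4_30 : BlkD.Tr :=
  .E 0

lemma s21_21_8_4_30 {n : ℕ} (hn : 5 ≤ n) : NoNd (d21_21_8_4.R : ℤ) d21_21_8_4.H n d21_21_8_4.a d21_21_8_4.b
    (BlkD.inB (BlkD.upd (fun _ => 0) 0 9)
      (fun _ => 21)) :=
  BlkD.tree_sound (BlkD.pairOk_sound k21_21_8_4) (by decide) hn t21_21_8_4_30 _ _ (by decide +kernel)

lemma pr21_21_8_4 {n : ℕ} (hn : 5 ≤ n) : NoPr ((21 : ℕ) : ℤ) ((21 : ℕ) : ℤ) n 8 4 :=
  BlkD.of_root (R := d21_21_8_4.R) (H := d21_21_8_4.H) (a := d21_21_8_4.a) (b := d21_21_8_4.b) (q := 3) (by decide) hn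
    (BlkD.sp 0 8 (BlkD.sp 2 4 (BlkD.sp 0 4 (BlkD.sp 0 2 (BlkD.sp 0 1 (BlkD.sp 0 0 (s21_21_8_4_1 hn)
      (BlkD.sp 1 10 (BlkD.sp 1 5 (s21_21_8_4_2 hn) (s21_21_8_4_3 hn)) (s21_21_8_4_4 hn))) (BlkD.sp
      1 10 (BlkD.sp 1 5 (s21_21_8_4_5 hn) (s21_21_8_4_6 hn)) (s21_21_8_4_7 hn))) (BlkD.sp 0 3
      (BlkD.sp 1 18 (BlkD.sp 1 9 (BlkD.sp 1 4 (s21_21_8_4_8 hn) (s21_21_8_4_9 hn)) (s21_21_8_4_10
      hn)) (s21_21_8_4_11 hn)) (BlkD.sp 1 17 (BlkD.sp 1 8 (BlkD.sp 1 4 (s21_21_8_4_12 hn) (BlkD.sp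
      1 6 (s21_21_8_4_13 hn) (BlkD.sp 1 7 (s21_21_8_4_14 hn) (s21_21_8_4_15 hn)))) (s21_21_8_4_16
      hn)) (s21_21_8_4_17 hn)))) (BlkD.sp 0 6 (BlkD.sp 0 5 (BlkD.sp 1 16 (BlkD.sp 1 8 (BlkD.sp 1 4
      (s21_21_8_4_18 hn) (BlkD.sp 1 6 (BlkD.sp 1 5 (s21_21_8_4_19 hn) (s21_21_8_4_20 hn))
      (s21_21_8_4_21 hn))) (s21_21_8_4_22 hn)) (s21_21_8_4_23 hn)) (BlkD.sp 1 15 (BlkD.sp 1 7
      (BlkD.sp 1 3 (s21_21_8_4_24 hn) (s21_21_8_4_25 hn)) (s21_21_8_4_26 hn)) (s21_21_8_4_27 hn)))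
      (s21_21_8_4_28 hn))) (s21_21_8_4_29 hn)) (s21_21_8_4_30 hn))

end BlkC

end Pool.Agent.Lib.MP_f04ccf_co
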