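import Pool.Agent.Lib.MP_f04ccf_co.M.BlkT

/-!
MP_f04ccf_co, block certificate, data `R = 21`, `H = 21`, part 20 (generated, helper99:
bd10.cpp, gen2.py).
-/

set_option autoImplicit false
set_option maxRecDepth 100000

namespace Pool.Agent.Lib.MP_f04ccf_co

namespace BlkC

/-- the numbers of the pair `(10, 3)`, `R = 21`, `H = 21` -/
def d21_21_10_3 : BlkD.Pd :=
  ⟨21, 21, 3, 10, 3, 5, 2, 2, 1, 4, 10, 0, 2, 2, 6, 0, [0, 10, 20, 23, 24, 25], [0, 6, 12, 16, 18,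
    20], [⟨1, 1, 1, 4, 8, [0, 4], [0, 4]⟩, ⟨1, 1, 1, 4, 14, [0, 8], [0, 6]⟩, ⟨2, 1, 1, 4, 20, [0,
    10, 14], [0, 6]⟩]⟩

lemma k21_21_10_3 : BlkD.pairOk d21_21_10_3 = true := by decide +kernel

/-- certificates of the pair `(10, 3)`, part 1 -/
def t21_21_10_3_1 : BlkD.Tr :=
  .S 0 0 (.L 5 8 [4, 4, 4, 21] [] [] 100000 150000 150000 900000 100000 0 100000 0 0 0 0) (.L 5 8
    [4, 4, 4, 21] [] [] 100000 150000 150000 900000 100000 0 100000 0 0 0 0)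

lemma s21_21_10_3_1 {n : ℕ} (hn : 5 ≤ n) : NoNd (d21_21_10_3.R : ℤ) d21_21_10_3.H n d21_21_10_3.a d21_21_10_3.b
    (BlkD.inB (fun _ => 0)
      (BlkD.upd (BlkD.upd (BlkD.upd (BlkD.upd (BlkD.upd (fun _ => 21) 0 10) 2 3) 0 5) 0 2) 0 1)) :=
  BlkD.tree_sound (BlkD.pairOk_sound k21_21_10_3) (by decide) hn t21_21_10_3_1 _ _ (by decide +kernel)

/-- certificates of the pair `(10, 3)`, part 2 -/
def t21_21_10_3_2 : BlkD.Tr :=
  .S 1 5 (.L 5 8 [4, 4, 4, 21] [] [] 100000 150000 150000 900000 100000 0 100000 0 0 0 0) (.L 5 8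
    [4, 4, 4, 21] [] [] 100000 150000 150000 900000 100000 0 100000 0 0 0 0)

lemma s21_21_10_3_2 {n : ℕ} (hn : 5 ≤ n) : NoNd (d21_21_10_3.R : ℤ) d21_21_10_3.H n d21_21_10_3.a d21_21_10_3.b
    (BlkD.inB (BlkD.upd (fun _ => 0) 0 2)
      (BlkD.upd (BlkD.upd (BlkD.upd (BlkD.upd (BlkD.upd (fun _ => 21) 0 10) 2 3) 0 5) 0 2) 1 10)) :=
  BlkD.tree_sound (BlkD.pairOk_sound k21_21_10_3) (by decide) hn t21_21_10_3_2 _ _ (by decide +kernel)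

/-- certificates of the pair `(10, 3)`, part 3 -/
def t21_21_10_3_3 : BlkD.Tr :=
  .L 5 8 [4, 4, 4, 21] [] [] 100000 150000 150000 900000 100000 0 100000 0 0 0 0

lemma s21_21_10_3_3 {n : ℕ} (hn : 5 ≤ n) : NoNd (d21_21_10_3.R : ℤ) d21_21_10_3.H n d21_21_10_3.a d21_21_10_3.b
    (BlkD.inB (BlkD.upd (BlkD.upd (fun _ => 0) 0 2) 1 11)
      (BlkD.upd (BlkD.upd (BlkD.upd (BlkD.upd (fun _ => 21) 0 10) 2 3) 0 5) 0 2)) :=
  BlkD.tree_sound (BlkD.pairOk_sound k21_21_10_3) (by decide) hn t21_21_10_3_3 _ _ (by decide +kernel)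

/-- certificates of the pair `(10, 3)`, part 4 -/
def t21_21_10_3_4 : BlkD.Tr :=
  .S 1 5 (.L 5 8 [4, 4, 4, 21] [] [] 100000 172223 172223 1200000 77778 0 77778 22222 0 0 0) (.L 5
    8 [4, 4, 4, 21] [] [] 100000 172223 172223 1200000 77778 0 77778 22222 0 0 0)

lemma s21_21_10_3_4 {n : ℕ} (hn : 5 ≤ n) : NoNd (d21_21_10_3.R : ℤ) d21_21_10_3.H n d21_21_10_3.a d21_21_10_3.b
    (BlkD.inB (BlkD.upd (fun _ => 0) 0 3)
      (BlkD.upd (BlkD.upd (BlkD.upd (BlkD.upd (BlkD.upd (BlkD.upd (fun _ => 21) 0 10) 2 3) 0 5) 0 4) 0 3) 1 10)) :=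
  BlkD.tree_sound (BlkD.pairOk_sound k21_21_10_3) (by decide) hn t21_21_10_3_4 _ _ (by decide +kernel)

/-- certificates of the pair `(10, 3)`, part 5 -/
def t21_21_10_3_5 : BlkD.Tr :=
  .L 5 8 [4, 4, 4, 21] [] [] 100000 172223 172223 1200000 77778 0 77778 22222 0 0 0

lemma s21_21_10_3_5 {n : ℕ} (hn : 5 ≤ n) : NoNd (d21_21_10_3.R : ℤ) d21_21_10_3.H n d21_21_10_3.a d21_21_10_3.b
    (BlkD.inB (BlkD.upd (BlkD.upd (fun _ => 0) 0 3) 1 11)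
      (BlkD.upd (BlkD.upd (BlkD.upd (BlkD.upd (BlkD.upd (fun _ => 21) 0 10) 2 3) 0 5) 0 4) 0 3)) :=
  BlkD.tree_sound (BlkD.pairOk_sound k21_21_10_3) (by decide) hn t21_21_10_3_5 _ _ (by decide +kernel)

/-- certificates of the pair `(10, 3)`, part 6 -/
def t21_21_10_3_6 : BlkD.Tr :=
  .L 5 8 [4, 4, 4, 21] [] [] 100000 21429 21429 1428572 42857 0 42857 0 0 0 0

lemma s21_21_10_3_6 {n : ℕ} (hn : 5 ≤ n) : NoNd (d21_21_10_3.R : ℤ) d21_21_10_3.H n d21_21_10_3.a d21_21_10_3.b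
    (BlkD.inB (BlkD.upd (BlkD.upd (fun _ => 0) 0 3) 0 4)
      (BlkD.upd (BlkD.upd (BlkD.upd (BlkD.upd (BlkD.upd (BlkD.upd (fun _ => 21) 0 10) 2 3) 0 5) 0 4) 1 17) 1 8)) :=
  BlkD.tree_sound (BlkD.pairOk_sound k21_21_10_3) (by decide) hn t21_21_10_3_6 _ _ (by decide +kernel)

/-- certificates of the pair `(10, 3)`, part 7 -/
def t21_21_10_3_7 : BlkD.Tr :=
  .S 1 13 (.S 1 11 (.S 1 10 (.S 1 9 (.L 5 8 [4, 4, 4, 21] [193, 192, 191, 190, 189, 186] [] 100000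
    20000 20000 1440000 40000 0 55000 30000 0 0 0) (.L 5 8 [4, 4, 4, 21] [220, 219, 218, 217, 216,
    215] [] 100000 19180 19180 1475343 42466 0 46575 32877 0 4110 4110)) (.L 5 8 [4, 4, 4, 21]
    [249, 248, 247, 246, 245, 244] [] 100000 25000 25000 1450000 50000 0 50000 50000 0 0 0)) (.S 1
    12 (.L 5 8 [4, 4, 4, 21] [280, 279, 278, 277, 276, 275] [] 100000 175000 175000 1100000 100000
    0 100000 50000 0 0 0) (.L 5 8 [4, 4, 4, 21] [313, 312, 311, 310, 309, 308] [] 100000 400000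
    300000 400000 200000 0 200000 0 0 0 0))) (.S 1 15 (.S 1 14 (.L 5 8 [4, 4, 4, 21] [348, 347,
    346, 345, 344, 343] [] 100000 400000 275000 0 225000 0 225000 0 0 0 0) (.L 5 8 [4, 4, 4, 21]
    [385, 384, 383, 382, 381, 380] [] 100000 372222 261111 1 211111 0 211111 0 0 0 0)) (.S 1 16 (.L
    5 8 [4, 4, 4, 21] [424, 423, 422, 421, 420, 419] [] 100000 331818 240909 1 190909 0 190909 0 0
    0 0) (.L 5 8 [4, 4, 4, 21] [465, 464, 463, 462, 461, 460] [] 100000 250000 175000 0 175000 0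
    175000 0 0 0 0)))

lemma s21_21_10_3_7 {n : ℕ} (hn : 5 ≤ n) : NoNd (d21_21_10_3.R : ℤ) d21_21_10_3.H n d21_21_10_3.a d21_21_10_3.b
    (BlkD.inB (BlkD.upd (BlkD.upd (BlkD.upd (fun _ => 0) 0 3) 0 4) 1 9)
      (BlkD.upd (BlkD.upd (BlkD.upd (BlkD.upd (BlkD.upd (fun _ => 21) 0 10) 2 3) 0 5) 0 4) 1 17)) :=
  BlkD.tree_sound (BlkD.pairOk_sound k21_21_10_3) (by decide) hn t21_21_10_3_7 _ _ (by decide +kernel)

/-- certificates of the pair `(10, 3)`, part 8 -/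
def t21_21_10_3_8 : BlkD.Tr :=
  .E 0

lemma s21_21_10_3_8 {n : ℕ} (hn : 5 ≤ n) : NoNd (d21_21_10_3.R : ℤ) d21_21_10_3.H n d21_21_10_3.a d21_21_10_3.b
    (BlkD.inB (BlkD.upd (BlkD.upd (BlkD.upd (fun _ => 0) 0 3) 0 4) 1 18)
      (BlkD.upd (BlkD.upd (BlkD.upd (BlkD.upd (fun _ => 21) 0 10) 2 3) 0 5) 0 4)) :=
  BlkD.tree_sound (BlkD.pairOk_sound k21_21_10_3) (by decide) hn t21_21_10_3_8 _ _ (by decide +kernel)

/-- certificates of the pair `(10, 3)`, part 9 -/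
def t21_21_10_3_9 : BlkD.Tr :=
  .L 5 8 [4, 4, 4, 21] [] [] 100000 15477 15477 1504762 36905 0 42857 23810 0 5952 5952

lemma s21_21_10_3_9 {n : ℕ} (hn : 5 ≤ n) : NoNd (d21_21_10_3.R : ℤ) d21_21_10_3.H n d21_21_10_3.a d21_21_10_3.b
    (BlkD.inB (BlkD.upd (BlkD.upd (fun _ => 0) 0 3) 0 5)
      (BlkD.upd (BlkD.upd (BlkD.upd (BlkD.upd (BlkD.upd (fun _ => 21) 0 10) 2 3) 0 5) 1 16) 1 8)) :=
  BlkD.tree_sound (BlkD.pairOk_sound k21_21_10_3) (by decide) hn t21_21_10_3_9 _ _ (by decide +kernel)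

/-- certificates of the pair `(10, 3)`, part 10 -/
def t21_21_10_3_10 : BlkD.Tr :=
  .S 1 12 (.S 1 10 (.S 1 9 (.L 5 8 [4, 4, 4, 21] [211, 210, 209, 208, 207, 204] [] 100000 31250
    31250 1506250 43750 0 62500 18750 0 18750 18750) (.S 2 1 (.S 2 0 (.L 5 8 [4, 4, 4, 21] [240,
    239, 238, 237, 236, 235] [] 100000 58334 58334 1383333 50000 0 66667 66667 0 0 0) (.S 3 5 (.S 3
    2 (.L 5 8 [4, 4, 4, 21] [240, 239, 238, 237, 236, 235] [] 100000 4547 4547 1581818 36364 0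
    54545 22727 0 27273 27273) (.L 5 8 [4, 4, 4, 21] [240, 239, 238, 237, 236, 235] [] 100000
    156250 156250 1187500 87500 0 100000 50000 0 25000 25000)) (.E 1))) (.L 5 8 [4, 4, 4, 21] [240,
    239, 238, 237, 236, 235] [] 100000 90000 90000 1400000 60000 0 80000 60000 0 0 0))) (.S 1 11
    (.L 5 8 [4, 4, 4, 21] [271, 270, 269, 268, 267, 266] [] 100000 133333 133333 1300002 83333 0
    100000 33333 0 0 0) (.L 5 8 [4, 4, 4, 21] [304, 303, 302, 301, 300, 299] [] 100000 166667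
    166667 1200001 100000 0 100000 33333 0 0 0))) (.S 1 14 (.S 1 13 (.L 5 8 [4, 4, 4, 21] [339,
    338, 337, 336, 335, 334] [] 100000 464286 307143 0 257143 0 257143 0 0 0 0) (.L 5 8 [4, 4, 4,
    21] [376, 375, 374, 373, 372, 371] [] 100000 362500 193750 0 218750 0 268750 0 0 0 0)) (.S 1 15
    (.L 5 8 [4, 4, 4, 21] [415, 414, 413, 412, 411, 410] [] 100000 320000 210000 0 210000 0 210000
    0 0 0 0) (.L 5 8 [4, 4, 4, 21] [456, 455, 454, 453, 452, 451] [] 100000 281818 190909 1 190909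
    0 190909 0 0 0 0)))

lemma s21_21_10_3_10 {n : ℕ} (hn : 5 ≤ n) : NoNd (d21_21_10_3.R : ℤ) d21_21_10_3.H n d21_21_10_3.a d21_21_10_3.b
    (BlkD.inB (BlkD.upd (BlkD.upd (BlkD.upd (fun _ => 0) 0 3) 0 5) 1 9)
      (BlkD.upd (BlkD.upd (BlkD.upd (BlkD.upd (fun _ => 21) 0 10) 2 3) 0 5) 1 16)) :=
  BlkD.tree_sound (BlkD.pairOk_sound k21_21_10_3) (by decide) hn t21_21_10_3_10 _ _ (by decide +kernel)

/-- certificates of the pair `(10, 3)`, part 11 -/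
def t21_21_10_3_11 : BlkD.Tr :=
  .E 0

lemma s21_21_10_3_11 {n : ℕ} (hn : 5 ≤ n) : NoNd (d21_21_10_3.R : ℤ) d21_21_10_3.H n d21_21_10_3.a d21_21_10_3.b
    (BlkD.inB (BlkD.upd (BlkD.upd (BlkD.upd (fun _ => 0) 0 3) 0 5) 1 17)
      (BlkD.upd (BlkD.upd (BlkD.upd (fun _ => 21) 0 10) 2 3) 0 5)) :=
  BlkD.tree_sound (BlkD.pairOk_sound k21_21_10_3) (by decide) hn t21_21_10_3_11 _ _ (by decide +kernel)

/-- certificates of the pair `(10, 3)`, part 12 -/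
def t21_21_10_3_12 : BlkD.Tr :=
  .S 1 3 (.L 5 8 [4, 4, 4, 21] [] [] 100000 18750 18750 1287500 37500 0 37500 12500 0 0 0) (.S 1 5
    (.L 5 8 [4, 4, 4, 21] [] [] 100000 15000 15000 1450000 30000 0 30000 20000 0 0 0) (.S 1 6 (.L 5
    8 [4, 4, 4, 21] [148, 147, 144, 134, 124, 114] [] 100000 8333 8333 1500002 33333 0 41667 16667
    0 16667 16667) (.L 5 8 [4, 4, 4, 21] [173, 172, 171, 168, 158, 148] [] 100000 10871 10871
    1556522 34783 0 47826 13043 0 13043 13043)))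

lemma s21_21_10_3_12 {n : ℕ} (hn : 5 ≤ n) : NoNd (d21_21_10_3.R : ℤ) d21_21_10_3.H n d21_21_10_3.a d21_21_10_3.b
    (BlkD.inB (BlkD.upd (fun _ => 0) 0 6)
      (BlkD.upd (BlkD.upd (BlkD.upd (BlkD.upd (BlkD.upd (BlkD.upd (BlkD.upd (fun _ => 21) 0 10) 2 3) 0 8) 0 7) 0 6) 1 15) 1 7)) :=
  BlkD.tree_sound (BlkD.pairOk_sound k21_21_10_3) (by decide) hn t21_21_10_3_12 _ _ (by decide +kernel)

/-- certificates of the pair `(10, 3)`, part 13 -/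
def t21_21_10_3_13 : BlkD.Tr :=
  .S 1 9 (.S 1 8 (.S 2 1 (.S 2 0 (.L 5 8 [4, 4, 4, 21] [200, 199, 198, 197, 194, 184] [] 100000
    15790 15790 1473685 31579 0 47368 68421 0 0 26316) (.S 3 6 (.S 3 3 (.L 5 8 [4, 4, 4, 21] [200,
    199, 198, 197, 194, 184] [] 100000 6250 6250 1571875 34375 0 56250 28125 0 21875 21875) (.L 5 8
    [4, 4, 4, 21] [200, 199, 198, 197, 194, 184] [] 100000 200000 200000 1100000 100000 0 100000 0
    0 0 0)) (.E 1))) (.L 5 8 [4, 4, 4, 21] [200, 199, 198, 197, 194, 184] [] 100000 37500 37500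
    1518750 43750 0 62500 31250 0 6250 18750)) (.S 2 1 (.S 2 0 (.L 5 8 [4, 4, 4, 21] [229, 228,
    227, 226, 225, 222] [] 100000 66667 66667 1400000 50000 0 83333 66667 0 0 33333) (.S 3 5 (.S 3
    2 (.S 3 1 (.L 5 8 [4, 4, 4, 21] [229, 228, 227, 226, 225, 222] [] 100000 16667 16667 1533335
    33333 33333 66667 33333 0 0 0) (.S 4 9 (.S 4 4 (.S 4 2 (.L 5 8 [4, 4, 4, 21] [202, 192, 180, 0,
    0, 0] [28, 18, 6, 0, 0, 0] 100000 15000 15000 1550000 40000 20000 70000 30000 0 10000 20000)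
    (.L 5 8 [4, 4, 4, 21] [222, 212, 202, 192, 180, 0] [28, 18, 6, 0, 0, 0] 100000 18183 9092
    1436362 36364 0 109091 18182 0 9091 9091)) (.L 5 8 [4, 4, 4, 21] [229, 228, 227, 226, 225, 222]
    [28, 18, 6, 0, 0, 0] 100000 200000 0 500000 50000 0 300000 100000 0 0 0)) (.E 2))) (.L 5 8 [4,
    4, 4, 21] [229, 228, 227, 226, 225, 222] [] 100000 133334 133334 1325000 75000 0 100000 50000 0
    16667 33333)) (.E 1))) (.S 2 2 (.S 3 4 (.S 3 2 (.S 3 1 (.S 3 0 (.L 5 8 [4, 4, 4, 21] [229, 228,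
    227, 226, 225, 222] [0, 0, 0, 0, 0, 0] 100000 20000 20000 1500000 40000 0 80000 0 0 0 0) (.S 4
    9 (.S 4 4 (.L 4 6 [4, 4, 5, 21] [222, 212, 202, 192, 180, 0] [16, 4, 0, 0, 0, 0] 100000 50000
    50000 1450000 50000 0 100000 0 0 0 0) (.L 4 6 [4, 4, 5, 21] [229, 228, 227, 226, 225, 222] [16,
    4, 0, 0, 0, 0] 100000 278948 1 1 94737 0 378947 0 0 0 0)) (.E 2))) (.L 4 6 [4, 4, 5, 21] [229,
    228, 227, 226, 225, 222] [32, 22, 10, 0, 0, 0] 100000 200000 200000 1100000 100000 0 100000 0 0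
    0 0)) (.L 4 6 [4, 4, 5, 21] [229, 228, 227, 226, 225, 222] [] 100000 566666 444444 2 222222 0
    222222 0 0 0 0)) (.E 1)) (.L 4 6 [4, 4, 5, 21] [229, 228, 227, 226, 225, 222] [] 100000 500000
    400000 200000 200000 0 200000 0 0 0 0)))) (.S 1 10 (.S 2 1 (.S 2 0 (.L 4 6 [4, 4, 5, 21] [260,
    259, 258, 257, 256, 255] [] 100000 100000 100000 1350000 62500 0 87500 50000 0 0 25000) (.S 3 4
    (.S 3 2 (.S 3 1 (.L 5 8 [4, 4, 4, 21] [260, 259, 258, 257, 256, 255] [] 100000 37500 37500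
    1500000 50000 0 75000 25000 0 0 0) (.L 4 6 [4, 4, 5, 21] [260, 259, 258, 257, 256, 255] [28,
    18, 6, 0, 0, 0] 100000 133334 133334 1325000 75000 0 100000 50000 0 16667 33333)) (.L 4 6 [4,
    4, 5, 21] [260, 259, 258, 257, 256, 255] [] 100000 529167 370834 1 225000 0 258333 100000 0 0
    33333)) (.E 1))) (.S 2 2 (.S 3 3 (.S 3 1 (.S 3 0 (.L 5 8 [4, 4, 4, 21] [260, 259, 258, 257,
    256, 255] [0, 0, 0, 0, 0, 0] 100000 83334 83334 1399999 66667 0 100000 0 0 0 0) (.L 4 6 [4, 4,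
    5, 21] [260, 259, 258, 257, 256, 255] [16, 4, 0, 0, 0, 0] 100000 100001 100001 1366665 66667 0
    100000 0 0 0 0)) (.L 4 6 [4, 4, 5, 21] [260, 259, 258, 257, 256, 255] [] 100000 505555 383333 2
    222222 0 222222 0 0 0 0)) (.E 1)) (.L 4 6 [4, 4, 5, 21] [260, 259, 258, 257, 256, 255] []
    100000 477778 366667 1 211111 0 211111 0 0 0 0))) (.L 4 6 [4, 4, 5, 21] [293, 292, 291, 290,
    289, 288] [] 100000 175000 175000 1200000 100000 0 100000 50000 0 0 0))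

lemma s21_21_10_3_13 {n : ℕ} (hn : 5 ≤ n) : NoNd (d21_21_10_3.R : ℤ) d21_21_10_3.H n d21_21_10_3.a d21_21_10_3.b
    (BlkD.inB (BlkD.upd (BlkD.upd (fun _ => 0) 0 6) 1 8)
      (BlkD.upd (BlkD.upd (BlkD.upd (BlkD.upd (BlkD.upd (BlkD.upd (BlkD.upd (fun _ => 21) 0 10) 2 3) 0 8) 0 7) 0 6) 1 15) 1 11)) :=
  BlkD.tree_sound (BlkD.pairOk_sound k21_21_10_3) (by decide) hn t21_21_10_3_13 _ _ (by decide +kernel)

/-- certificates of the pair `(10, 3)`, part 14 -/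
def t21_21_10_3_14 : BlkD.Tr :=
  .S 1 13 (.S 1 12 (.L 4 6 [4, 4, 5, 21] [328, 327, 326, 325, 324, 323] [] 100000 178573 135716
    1028570 114286 0 142857 14286 0 0 0) (.L 4 6 [4, 4, 5, 21] [365, 364, 363, 362, 361, 360] []
    100000 375000 200000 0 225000 0 275000 0 0 0 0)) (.S 1 14 (.L 4 6 [4, 4, 5, 21] [404, 403, 402,
    401, 400, 399] [] 100000 300000 150000 0 200000 0 250000 0 0 0 0) (.L 4 6 [4, 4, 5, 21] [445,
    444, 443, 442, 441, 440] [] 100000 281818 190909 1 190909 0 190909 0 0 0 0))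

lemma s21_21_10_3_14 {n : ℕ} (hn : 5 ≤ n) : NoNd (d21_21_10_3.R : ℤ) d21_21_10_3.H n d21_21_10_3.a d21_21_10_3.b
    (BlkD.inB (BlkD.upd (BlkD.upd (BlkD.upd (fun _ => 0) 0 6) 1 8) 1 12)
      (BlkD.upd (BlkD.upd (BlkD.upd (BlkD.upd (BlkD.upd (BlkD.upd (fun _ => 21) 0 10) 2 3) 0 8) 0 7) 0 6) 1 15)) :=
  BlkD.tree_sound (BlkD.pairOk_sound k21_21_10_3) (by decide) hn t21_21_10_3_14 _ _ (by decide +kernel)

/-- certificates of the pair `(10, 3)`, part 15 -/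
def t21_21_10_3_15 : BlkD.Tr :=
  .E 0

lemma s21_21_10_3_15 {n : ℕ} (hn : 5 ≤ n) : NoNd (d21_21_10_3.R : ℤ) d21_21_10_3.H n d21_21_10_3.a d21_21_10_3.b
    (BlkD.inB (BlkD.upd (BlkD.upd (fun _ => 0) 0 6) 1 16)
      (BlkD.upd (BlkD.upd (BlkD.upd (BlkD.upd (BlkD.upd (fun _ => 21) 0 10) 2 3) 0 8) 0 7) 0 6)) :=
  BlkD.tree_sound (BlkD.pairOk_sound k21_21_10_3) (by decide) hn t21_21_10_3_15 _ _ (by decide +kernel)

/-- certificates of the pair `(10, 3)`, part 16 -/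
def t21_21_10_3_16 : BlkD.Tr :=
  .S 1 3 (.L 4 6 [4, 4, 5, 21] [] [] 100000 16667 16667 1400001 33333 0 33333 0 0 0 0) (.S 1 5 (.L
    5 8 [4, 4, 4, 21] [] [] 100000 10000 10000 1500000 40000 0 60000 20000 0 20000 20000) (.S 1 6
    (.S 2 1 (.S 2 0 (.L 5 8 [4, 4, 4, 21] [160, 159, 156, 146, 136, 126] [] 100000 12500 12500
    1450000 25000 0 37500 75000 0 0 0) (.S 3 7 (.S 3 3 (.L 5 8 [4, 4, 4, 21] [160, 159, 156, 146,
    136, 126] [] 100000 3125 3125 1556250 31250 18750 50000 25000 0 25000 25000) (.S 3 5 (.S 3 4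
    (.S 4 6 (.S 4 3 (.S 4 1 (.L 5 8 [4, 4, 4, 21] [126, 114, 0, 0, 0, 0] [54, 48, 42, 32, 20, 0]
    100000 150000 150000 1200000 100000 0 100000 0 0 0 0) (.L 5 8 [4, 4, 4, 21] [146, 136, 126,
    114, 0, 0] [54, 48, 42, 32, 20, 0] 100000 16667 16667 1466668 33333 0 100000 0 0 0 0)) (.L 5 8
    [4, 4, 4, 21] [160, 159, 156, 146, 136, 126] [54, 48, 42, 32, 20, 0] 100000 300000 0 0 100000 0
    400000 0 0 0 0)) (.E 2)) (.E 1)) (.E 1))) (.E 1))) (.L 5 8 [4, 4, 4, 21] [160, 159, 156, 146,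
    136, 126] [] 100000 0 0 1566669 33333 0 33333 33333 0 33333 33333)) (.S 2 1 (.S 2 0 (.L 5 8 [4,
    4, 4, 21] [187, 186, 185, 182, 172, 162] [] 100000 14286 14286 1485718 28571 0 57143 80952 0 0
    23810) (.S 3 6 (.S 3 3 (.S 3 1 (.L 5 8 [4, 4, 4, 21] [187, 186, 185, 182, 172, 162] [] 100000
    16667 16667 1500001 33333 33333 66667 33333 0 0 0) (.S 3 2 (.L 5 8 [4, 4, 4, 21] [187, 186,
    185, 182, 172, 162] [28, 18, 6, 0, 0, 0] 100000 8697 8697 1578261 34783 8696 52174 17391 0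
    17391 17391) (.S 4 7 (.S 4 3 (.L 5 8 [4, 4, 4, 21] [172, 162, 152, 140, 0, 0] [40, 34, 24, 12,
    0, 0] 100000 11842 11842 1547370 42105 0 63158 31579 0 18421 18421) (.L 5 8 [4, 4, 4, 21] [187,
    186, 185, 182, 172, 162] [40, 34, 24, 12, 0, 0] 100000 60000 0 1200000 40000 0 160000 0 0 0 0))
    (.E 2)))) (.S 3 5 (.S 3 4 (.S 4 7 (.S 4 3 (.L 5 8 [4, 4, 4, 21] [172, 162, 152, 140, 0, 0] [54,
    48, 42, 32, 20, 0] 100000 150000 150000 1200000 100000 0 100000 0 0 0 0) (.L 5 8 [4, 4, 4, 21]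
    [187, 186, 185, 182, 172, 162] [54, 48, 42, 32, 20, 0] 100000 300000 0 0 100000 0 400000 0 0 0
    0)) (.E 2)) (.E 1)) (.E 1))) (.E 1))) (.S 2 2 (.S 3 5 (.S 3 2 (.S 3 1 (.L 5 8 [4, 4, 4, 21]
    [187, 186, 185, 182, 172, 162] [] 100000 18183 18183 1554545 36364 0 48485 36364 0 0 18182) (.S
    4 7 (.S 4 3 (.L 5 8 [4, 4, 4, 21] [172, 162, 152, 140, 0, 0] [32, 22, 10, 0, 0, 0] 100000 77779
    77779 1399999 66667 0 100000 0 0 11111 11111) (.L 5 8 [4, 4, 4, 21] [187, 186, 185, 182, 172,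
    162] [32, 22, 10, 0, 0, 0] 100000 166668 1 666665 66667 0 266667 0 0 0 0)) (.E 2))) (.S 3 4 (.S
    3 3 (.S 4 7 (.S 4 3 (.L 5 8 [4, 4, 4, 21] [172, 162, 152, 140, 0, 0] [46, 40, 30, 18, 0, 0]
    100000 150000 150000 1200000 100000 0 100000 0 0 0 0) (.L 5 8 [4, 4, 4, 21] [187, 186, 185,
    182, 172, 162] [46, 40, 30, 18, 0, 0] 100000 300000 0 0 100000 0 400000 0 0 0 0)) (.E 2)) (.E
    1)) (.E 1))) (.E 1)) (.L 5 8 [4, 4, 4, 21] [187, 186, 185, 182, 172, 162] [] 100000 50000 50000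
    1450000 50000 0 50000 0 0 0 0)))))

lemma s21_21_10_3_16 {n : ℕ} (hn : 5 ≤ n) : NoNd (d21_21_10_3.R : ℤ) d21_21_10_3.H n d21_21_10_3.a d21_21_10_3.b
    (BlkD.inB (BlkD.upd (BlkD.upd (fun _ => 0) 0 6) 0 7)
      (BlkD.upd (BlkD.upd (BlkD.upd (BlkD.upd (BlkD.upd (BlkD.upd (fun _ => 21) 0 10) 2 3) 0 8) 0 7) 1 14) 1 7)) :=
  BlkD.tree_sound (BlkD.pairOk_sound k21_21_10_3) (by decide) hn t21_21_10_3_16 _ _ (by decide +kernel)

/-- certificates of the pair `(10, 3)`, part 17 -/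
def t21_21_10_3_17 : BlkD.Tr :=
  .S 1 11 (.S 1 9 (.S 1 8 (.S 2 1 (.S 2 0 (.L 5 8 [4, 4, 4, 21] [216, 215, 214, 213, 210, 200] []
    100000 36365 36365 1472727 45455 0 63636 63636 0 0 18182) (.S 3 5 (.S 3 2 (.S 3 1 (.L 5 8 [4,
    4, 4, 21] [216, 215, 214, 213, 210, 200] [] 100000 22222 22222 1522224 44444 0 66667 22222 0 0
    0) (.S 4 8 (.S 4 4 (.S 4 2 (.L 5 8 [4, 4, 4, 21] [190, 180, 168, 0, 0, 0] [28, 18, 6, 0, 0, 0]
    100000 27272 27272 1509093 54545 18182 81818 27273 0 9091 9091) (.L 5 8 [4, 4, 4, 21] [210,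
    200, 190, 180, 168, 0] [28, 18, 6, 0, 0, 0] 100000 8333 8333 1500001 33333 0 100000 16667 0
    16667 16667)) (.L 5 8 [4, 4, 4, 21] [216, 215, 214, 213, 210, 200] [28, 18, 6, 0, 0, 0] 100000
    140000 0 800000 40000 0 240000 80000 0 0 0)) (.E 2))) (.S 3 4 (.S 3 3 (.S 4 8 (.S 4 4 (.L 5 8
    [4, 4, 4, 21] [210, 200, 190, 180, 168, 0] [40, 34, 24, 12, 0, 0] 100000 102084 102084 1375000
    75000 0 100000 37500 0 0 8333) (.L 5 8 [4, 4, 4, 21] [216, 215, 214, 213, 210, 200] [40, 34,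
    24, 12, 0, 0] 100000 300000 0 0 100000 0 400000 0 0 0 0)) (.E 2)) (.L 5 8 [4, 4, 4, 21] [216,
    215, 214, 213, 210, 200] [54, 48, 42, 32, 20, 0] 100000 525000 375000 0 250000 0 250000 0 0 0
    0)) (.E 1))) (.E 1))) (.S 2 2 (.S 3 4 (.S 3 2 (.S 3 1 (.S 3 0 (.L 5 8 [4, 4, 4, 21] [216, 215,
    214, 213, 210, 200] [0, 0, 0, 0, 0, 0] 100000 22222 22222 1522224 44444 0 66667 0 0 0 0) (.S 4
    8 (.S 4 4 (.L 5 8 [4, 4, 4, 21] [210, 200, 190, 180, 168, 0] [16, 4, 0, 0, 0, 0] 100000 21875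
    21875 1540625 43750 0 84375 43750 0 0 18750) (.L 5 8 [4, 4, 4, 21] [216, 215, 214, 213, 210,
    200] [16, 4, 0, 0, 0, 0] 100000 166668 1 666665 66667 0 266667 0 0 0 0)) (.E 2))) (.L 5 8 [4,
    4, 4, 21] [216, 215, 214, 213, 210, 200] [32, 22, 10, 0, 0, 0] 100000 150000 150000 1200000
    100000 0 100000 0 0 0 0)) (.L 5 8 [4, 4, 4, 21] [216, 215, 214, 213, 210, 200] [] 100000 525000
    375000 0 250000 0 250000 0 0 0 0)) (.E 1)) (.L 5 8 [4, 4, 4, 21] [216, 215, 214, 213, 210, 200]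
    [] 100000 150000 150000 1200000 100000 0 100000 0 0 0 0))) (.L 4 6 [4, 4, 5, 21] [247, 246,
    245, 244, 243, 240] [] 100000 92858 92858 1400000 71429 0 100000 28571 0 0 0)) (.S 1 10 (.L 4 6
    [4, 4, 5, 21] [280, 279, 278, 277, 276, 275] [] 100000 100000 100000 1375000 75000 0 100000
    25000 0 0 0) (.L 4 6 [4, 4, 5, 21] [315, 314, 313, 312, 311, 310] [] 100000 300000 200000
    600000 200000 0 200000 0 0 0 0))) (.S 1 13 (.S 1 12 (.L 4 6 [4, 4, 5, 21] [352, 351, 350, 349,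
    348, 347] [] 100000 360000 180000 0 240000 0 280000 0 0 0 0) (.L 4 6 [4, 4, 5, 21] [391, 390,
    389, 388, 387, 386] [] 100000 344444 222222 2 222222 0 222222 0 0 0 0)) (.L 4 6 [4, 4, 5, 21]
    [432, 431, 430, 429, 428, 427] [] 100000 320000 210000 0 210000 0 210000 0 0 0 0))

lemma s21_21_10_3_17 {n : ℕ} (hn : 5 ≤ n) : NoNd (d21_21_10_3.R : ℤ) d21_21_10_3.H n d21_21_10_3.a d21_21_10_3.b
    (BlkD.inB (BlkD.upd (BlkD.upd (BlkD.upd (fun _ => 0) 0 6) 0 7) 1 8)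
      (BlkD.upd (BlkD.upd (BlkD.upd (BlkD.upd (BlkD.upd (fun _ => 21) 0 10) 2 3) 0 8) 0 7) 1 14)) :=
  BlkD.tree_sound (BlkD.pairOk_sound k21_21_10_3) (by decide) hn t21_21_10_3_17 _ _ (by decide +kernel)

/-- certificates of the pair `(10, 3)`, part 18 -/
def t21_21_10_3_18 : BlkD.Tr :=
  .E 0

lemma s21_21_10_3_18 {n : ℕ} (hn : 5 ≤ n) : NoNd (d21_21_10_3.R : ℤ) d21_21_10_3.H n d21_21_10_3.a d21_21_10_3.b
    (BlkD.inB (BlkD.upd (BlkD.upd (BlkD.upd (fun _ => 0) 0 6) 0 7) 1 15)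
      (BlkD.upd (BlkD.upd (BlkD.upd (BlkD.upd (fun _ => 21) 0 10) 2 3) 0 8) 0 7)) :=
  BlkD.tree_sound (BlkD.pairOk_sound k21_21_10_3) (by decide) hn t21_21_10_3_18 _ _ (by decide +kernel)

/-- certificates of the pair `(10, 3)`, part 19 -/
def t21_21_10_3_19 : BlkD.Tr :=
  .S 1 3 (.L 4 6 [4, 4, 5, 21] [] [] 100000 25000 25000 1450000 50000 0 50000 25000 0 0 0) (.S 1 5
    (.S 1 4 (.L 5 8 [4, 4, 4, 21] [118, 108, 98, 88, 76, 0] [] 100000 11843 11843 1513158 44737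
    7895 52632 21053 0 21053 21053) (.S 2 1 (.S 2 0 (.L 5 8 [4, 4, 4, 21] [145, 142, 132, 122, 112,
    100] [] 100000 0 0 1500000 0 0 0 100000 0 0 0) (.S 3 7 (.S 3 3 (.L 5 8 [4, 4, 4, 21] [145, 142,
    132, 122, 112, 100] [] 100000 6098 6098 1553660 36585 4878 60976 24390 0 24390 24390) (.S 3 5
    (.S 3 4 (.S 4 5 (.S 4 2 (.S 4 1 (.S 4 0 (.L 5 8 [4, 4, 4, 21] [100, 0, 0, 0, 0, 0] [54, 48, 42,
    32, 20, 0] 100000 100000 100000 1300000 100000 0 0 0 0 0 0) (.L 5 8 [4, 4, 4, 21] [112, 100, 0,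
    0, 0, 0] [54, 48, 42, 32, 20, 0] 100000 10000 10000 1520000 40000 20000 100000 20000 0 20000
    20000)) (.L 5 8 [4, 4, 4, 21] [122, 112, 100, 0, 0, 0] [54, 48, 42, 32, 20, 0] 100000 25000
    25000 1450000 50000 0 100000 0 0 0 0)) (.L 5 8 [4, 4, 4, 21] [145, 142, 132, 122, 112, 100]
    [54, 48, 42, 32, 20, 0] 100000 50000 0 1250000 50000 0 150000 0 0 0 0)) (.E 2)) (.E 1)) (.E
    1))) (.E 1))) (.S 2 2 (.S 3 6 (.S 3 3 (.S 3 1 (.L 5 8 [4, 4, 4, 21] [145, 142, 132, 122, 112,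
    100] [] 100000 20000 20000 1520000 40000 0 40000 40000 0 0 0) (.S 3 2 (.L 5 8 [4, 4, 4, 21]
    [145, 142, 132, 122, 112, 100] [32, 22, 10, 0, 0, 0] 100000 10000 10000 1540000 40000 0 60000 0
    0 20000 20000) (.S 4 5 (.S 4 2 (.L 5 8 [4, 4, 4, 21] [122, 112, 100, 0, 0, 0] [46, 40, 30, 18,
    0, 0] 100000 4168 4168 1558332 41667 0 41667 33333 0 33333 33333) (.L 5 8 [4, 4, 4, 21] [145,
    142, 132, 122, 112, 100] [46, 40, 30, 18, 0, 0] 100000 100000 0 1000000 0 0 200000 200000 0 0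
    0)) (.E 2)))) (.E 1)) (.E 1)) (.L 5 8 [4, 4, 4, 21] [145, 142, 132, 122, 112, 100] [] 100000
    25000 25000 1450000 50000 0 50000 0 0 0 0)))) (.S 2 1 (.S 2 0 (.L 5 8 [4, 4, 4, 21] [172, 171,
    168, 158, 148, 138] [] 100000 16667 16667 1466667 33333 0 66667 66667 0 0 0) (.S 3 6 (.S 3 3
    (.L 5 8 [4, 4, 4, 21] [172, 171, 168, 158, 148, 138] [] 100000 11973 11973 1567606 42254 5634
    63380 22535 0 18310 18310) (.S 3 5 (.S 3 4 (.S 4 6 (.S 4 3 (.S 4 1 (.L 5 8 [4, 4, 4, 21] [138,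
    126, 0, 0, 0, 0] [54, 48, 42, 32, 20, 0] 100000 100000 100000 1300000 100000 0 100000 0 0 0 0)
    (.L 5 8 [4, 4, 4, 21] [158, 148, 138, 126, 0, 0] [54, 48, 42, 32, 20, 0] 100000 25000 25000
    1500000 50000 0 100000 0 0 0 0)) (.L 5 8 [4, 4, 4, 21] [172, 171, 168, 158, 148, 138] [54, 48,
    42, 32, 20, 0] 100000 100000 0 1000000 50000 0 200000 0 0 0 0)) (.E 2)) (.E 1)) (.E 1))) (.E
    1))) (.S 2 2 (.S 3 5 (.S 3 2 (.L 5 8 [4, 4, 4, 21] [172, 171, 168, 158, 148, 138] [] 100000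
    10000 10000 1570000 40000 0 70000 20000 0 20000 20000) (.S 3 4 (.S 3 3 (.S 4 6 (.S 4 3 (.L 5 8
    [4, 4, 4, 21] [158, 148, 138, 126, 0, 0] [46, 40, 30, 18, 0, 0] 100000 42858 42858 1499999
    57143 0 100000 14286 0 14286 14286) (.L 5 8 [4, 4, 4, 21] [172, 171, 168, 158, 148, 138] [46,
    40, 30, 18, 0, 0] 100000 300000 0 0 50000 0 400000 200000 0 0 0)) (.E 2)) (.E 1)) (.E 1))) (.E
    1)) (.L 5 8 [4, 4, 4, 21] [172, 171, 168, 158, 148, 138] [] 100000 25000 25000 1500000 50000 0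
    50000 0 0 0 0))))

lemma s21_21_10_3_19 {n : ℕ} (hn : 5 ≤ n) : NoNd (d21_21_10_3.R : ℤ) d21_21_10_3.H n d21_21_10_3.a d21_21_10_3.b
    (BlkD.inB (BlkD.upd (BlkD.upd (fun _ => 0) 0 6) 0 8)
      (BlkD.upd (BlkD.upd (BlkD.upd (BlkD.upd (BlkD.upd (fun _ => 21) 0 10) 2 3) 0 8) 1 13) 1 6)) :=
  BlkD.tree_sound (BlkD.pairOk_sound k21_21_10_3) (by decide) hn t21_21_10_3_19 _ _ (by decide +kernel)

/-- certificates of the pair `(10, 3)`, part 20 -/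
def t21_21_10_3_20 : BlkD.Tr :=
  .S 1 10 (.S 1 8 (.S 1 7 (.S 2 1 (.S 2 0 (.L 5 8 [4, 4, 4, 21] [201, 200, 199, 196, 186, 176] []
    100000 16667 16667 1466668 33333 0 83333 66667 0 0 0) (.S 3 5 (.S 3 2 (.L 5 8 [4, 4, 4, 21]
    [201, 200, 199, 196, 186, 176] [] 100000 23078 23078 1523076 46154 0 92308 23077 0 0 7692) (.S
    3 4 (.S 3 3 (.L 5 8 [4, 4, 4, 21] [201, 200, 199, 196, 186, 176] [40, 34, 24, 12, 0, 0] 100000
    50001 50001 1485714 57143 0 100000 28571 0 0 14286) (.S 4 7 (.S 4 3 (.L 5 8 [4, 4, 4, 21] [186,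
    176, 166, 154, 0, 0] [54, 48, 42, 32, 20, 0] 100000 471428 285714 2 285714 0 285714 0 0 0 0)
    (.L 5 8 [4, 4, 4, 21] [201, 200, 199, 196, 186, 176] [54, 48, 42, 32, 20, 0] 100000 300000 0 1
    133333 0 400000 0 0 0 0)) (.E 2))) (.E 1))) (.E 1))) (.L 5 8 [4, 4, 4, 21] [201, 200, 199, 196,
    186, 176] [] 100000 50001 50001 1485714 57143 0 100000 28571 0 0 14286)) (.L 5 8 [4, 4, 4, 21]
    [232, 231, 230, 229, 226, 216] [] 100000 66667 66667 1433333 66667 0 100000 33333 0 0 0)) (.S 1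
    9 (.L 5 8 [4, 4, 4, 21] [265, 264, 263, 262, 261, 258] [] 100000 52778 52778 1411112 72222 0
    100000 22222 0 11111 11111) (.L 5 8 [4, 4, 4, 21] [300, 299, 298, 297, 296, 295] [] 100000
    355555 94444 1 272222 0 361111 0 0 0 0))) (.E 0)

lemma s21_21_10_3_20 {n : ℕ} (hn : 5 ≤ n) : NoNd (d21_21_10_3.R : ℤ) d21_21_10_3.H n d21_21_10_3.a d21_21_10_3.b
    (BlkD.inB (BlkD.upd (BlkD.upd (BlkD.upd (fun _ => 0) 0 6) 0 8) 1 7)
      (BlkD.upd (BlkD.upd (BlkD.upd (BlkD.upd (fun _ => 21) 0 10) 2 3) 0 8) 1 13)) :=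
  BlkD.tree_sound (BlkD.pairOk_sound k21_21_10_3) (by decide) hn t21_21_10_3_20 _ _ (by decide +kernel)

/-- certificates of the pair `(10, 3)`, part 21 -/
def t21_21_10_3_21 : BlkD.Tr :=
  .E 0

lemma s21_21_10_3_21 {n : ℕ} (hn : 5 ≤ n) : NoNd (d21_21_10_3.R : ℤ) d21_21_10_3.H n d21_21_10_3.a d21_21_10_3.b
    (BlkD.inB (BlkD.upd (BlkD.upd (BlkD.upd (fun _ => 0) 0 6) 0 8) 1 14)
      (BlkD.upd (BlkD.upd (BlkD.upd (fun _ => 21) 0 10) 2 3) 0 8)) :=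
  BlkD.tree_sound (BlkD.pairOk_sound k21_21_10_3) (by decide) hn t21_21_10_3_21 _ _ (by decide +kernel)

/-- certificates of the pair `(10, 3)`, part 22 -/
def t21_21_10_3_22 : BlkD.Tr :=
  .S 0 9 (.S 1 12 (.S 1 6 (.S 1 3 (.L 5 8 [4, 4, 4, 21] [] [] 100000 10606 10606 1533334 51515
    12121 57576 21212 0 33333 30303) (.S 1 5 (.S 1 4 (.S 2 1 (.L 5 8 [4, 4, 4, 21] [126, 116, 106,
    96, 84, 0] [] 100000 20834 20834 1533333 41667 25000 91667 50000 0 0 0) (.L 5 8 [4, 4, 4, 21]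
    [126, 116, 106, 96, 84, 0] [] 100000 25000 25000 1500000 50000 0 100000 50000 0 0 0)) (.S 2 1
    (.S 2 0 (.L 5 8 [4, 4, 4, 21] [155, 152, 142, 132, 122, 110] [] 100000 0 0 1400000 0 0 100000
    100000 0 0 0) (.S 3 6 (.S 3 3 (.L 5 8 [4, 4, 4, 21] [155, 152, 142, 132, 122, 110] [] 100000
    6579 6579 1563158 42105 0 76316 34211 0 28947 31579) (.S 3 5 (.S 3 4 (.S 4 5 (.S 4 2 (.L 5 8
    [4, 4, 4, 21] [132, 122, 110, 0, 0, 0] [54, 48, 42, 32, 20, 0] 100000 21430 21430 1509523 57143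
    9524 100000 19048 0 14286 14286) (.L 5 8 [4, 4, 4, 21] [155, 152, 142, 132, 122, 110] [54, 48,
    42, 32, 20, 0] 100000 0 0 1533334 22222 11111 100000 22222 0 22222 22222)) (.E 2)) (.E 1)) (.E
    1))) (.E 1))) (.S 2 2 (.S 3 5 (.S 3 2 (.L 5 8 [4, 4, 4, 21] [155, 152, 142, 132, 122, 110] []
    100000 25000 25000 1500000 50000 0 100000 0 0 0 0) (.S 3 4 (.S 3 3 (.S 4 5 (.S 4 2 (.L 5 8 [4,
    4, 4, 21] [132, 122, 110, 0, 0, 0] [46, 40, 30, 18, 0, 0] 100000 28572 28572 1485714 57143 0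
    100000 42857 0 0 14286) (.L 5 8 [4, 4, 4, 21] [155, 152, 142, 132, 122, 110] [46, 40, 30, 18,
    0, 0] 100000 0 0 1500000 0 0 100000 100000 0 0 0)) (.E 2)) (.E 1)) (.E 1))) (.E 1)) (.L 5 8 [4,
    4, 4, 21] [155, 152, 142, 132, 122, 110] [] 100000 25000 25000 1450000 50000 0 100000 0 0 0
    0)))) (.S 2 1 (.S 2 0 (.L 5 8 [4, 4, 4, 21] [184, 183, 180, 170, 160, 150] [] 100000 0 0
    1400000 0 0 100000 100000 0 0 0) (.S 3 5 (.S 3 2 (.L 5 8 [4, 4, 4, 21] [184, 183, 180, 170,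
    160, 150] [] 100000 0 0 1560000 20000 0 100000 40000 0 20000 20000) (.S 3 4 (.S 3 3 (.S 4 6 (.S
    4 3 (.L 5 8 [4, 4, 4, 21] [170, 160, 150, 138, 0, 0] [40, 34, 24, 12, 0, 0] 100000 28572 28572
    1485714 57143 0 100000 42857 0 0 14286) (.L 5 8 [4, 4, 4, 21] [184, 183, 180, 170, 160, 150]
    [40, 34, 24, 12, 0, 0] 100000 0 0 1500000 0 0 100000 100000 0 0 0)) (.E 2)) (.E 2)) (.E 1)))
    (.E 1))) (.L 5 8 [4, 4, 4, 21] [184, 183, 180, 170, 160, 150] [] 100000 25000 25000 1500000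
    50000 0 100000 0 0 0 0)))) (.L 5 8 [4, 4, 4, 21] [] [] 100000 0 0 1589475 5263 0 100000 47368 0
    5263 5263)) (.E 0)) (.L 5 8 [4, 4, 4, 21] [] [] 100000 5 5 1582142 8929 0 58929 12500 0 8929
    8929)

lemma s21_21_10_3_22 {n : ℕ} (hn : 5 ≤ n) : NoNd (d21_21_10_3.R : ℤ) d21_21_10_3.H n d21_21_10_3.a d21_21_10_3.b
    (BlkD.inB (BlkD.upd (BlkD.upd (fun _ => 0) 0 6) 0 9)
      (BlkD.upd (BlkD.upd (fun _ => 21) 0 10) 2 3)) :=
  BlkD.tree_sound (BlkD.pairOk_sound k21_21_10_3) (by decide) hn t21_21_10_3_22 _ _ (by decide +kernel)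

/-- certificates of the pair `(10, 3)`, part 23 -/
def t21_21_10_3_23 : BlkD.Tr :=
  .E 1

lemma s21_21_10_3_23 {n : ℕ} (hn : 5 ≤ n) : NoNd (d21_21_10_3.R : ℤ) d21_21_10_3.H n d21_21_10_3.a d21_21_10_3.b
    (BlkD.inB (BlkD.upd (fun _ => 0) 2 4)
      (BlkD.upd (fun _ => 21) 0 10)) :=
  BlkD.tree_sound (BlkD.pairOk_sound k21_21_10_3) (by decide) hn t21_21_10_3_23 _ _ (by decide +kernel)

/-- certificates of the pair `(10, 3)`, part 24 -/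
def t21_21_10_3_24 : BlkD.Tr :=
  .E 0

lemma s21_21_10_3_24 {n : ℕ} (hn : 5 ≤ n) : NoNd (d21_21_10_3.R : ℤ) d21_21_10_3.H n d21_21_10_3.a d21_21_10_3.b
    (BlkD.inB (BlkD.upd (fun _ => 0) 0 11)
      (fun _ => 21)) :=
  BlkD.tree_sound (BlkD.pairOk_sound k21_21_10_3) (by decide) hn t21_21_10_3_24 _ _ (by decide +kernel)

lemma pr21_21_10_3 {n : ℕ} (hn : 5 ≤ n) : NoPr ((21 : ℕ) : ℤ) ((21 : ℕ) : ℤ) n 10 3 :=
  BlkD.of_root (R := d21_21_10_3.R) (H := d21_21_10_3.H) (a := d21_21_10_3.a) (b := d21_21_10_3.b) (q := 3) (by decide) hn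
    (BlkD.sp 0 10 (BlkD.sp 2 3 (BlkD.sp 0 5 (BlkD.sp 0 2 (BlkD.sp 0 1 (s21_21_10_3_1 hn) (BlkD.sp 1
      10 (s21_21_10_3_2 hn) (s21_21_10_3_3 hn))) (BlkD.sp 0 4 (BlkD.sp 0 3 (BlkD.sp 1 10
      (s21_21_10_3_4 hn) (s21_21_10_3_5 hn)) (BlkD.sp 1 17 (BlkD.sp 1 8 (s21_21_10_3_6 hn)
      (s21_21_10_3_7 hn)) (s21_21_10_3_8 hn))) (BlkD.sp 1 16 (BlkD.sp 1 8 (s21_21_10_3_9 hn)
      (s21_21_10_3_10 hn)) (s21_21_10_3_11 hn)))) (BlkD.sp 0 8 (BlkD.sp 0 7 (BlkD.sp 0 6 (BlkD.sp 1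
      15 (BlkD.sp 1 7 (s21_21_10_3_12 hn) (BlkD.sp 1 11 (s21_21_10_3_13 hn) (s21_21_10_3_14 hn)))
      (s21_21_10_3_15 hn)) (BlkD.sp 1 14 (BlkD.sp 1 7 (s21_21_10_3_16 hn) (s21_21_10_3_17 hn))
      (s21_21_10_3_18 hn))) (BlkD.sp 1 13 (BlkD.sp 1 6 (s21_21_10_3_19 hn) (s21_21_10_3_20 hn))
      (s21_21_10_3_21 hn))) (s21_21_10_3_22 hn))) (s21_21_10_3_23 hn)) (s21_21_10_3_24 hn))

end BlkC

end Pool.Agent.Lib.MP_f04ccf_co
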