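import Pool.Agent.Lib.MP_f04ccf_co.M.BlkT

/-!
MP_f04ccf_co, block certificate, data `R = 21`, `H = 22`, part 15 (generated, helper99:
bd10.cpp, gen2.py).
-/

set_option autoImplicit false
set_option maxRecDepth 100000

namespace Pool.Agent.Lib.MP_f04ccf_co

namespace BlkC

/-- the numbers of the pair `(9, 4)`, `R = 21`, `H = 22` -/
def d21_22_9_4 : BlkD.Pd :=
  ⟨21, 22, 5, 9, 4, 6, 1, 3, 0, 4, 8, 0, 2, 2, 6, 0, [0, 8, 16, 24, 24, 24, 24], [0, 6, 12, 18, 20,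
    22, 24], [⟨1, 1, 1, 4, 8, [0, 4], [0, 4]⟩, ⟨1, 1, 1, 4, 14, [0, 8], [0, 6]⟩]⟩

lemma k21_22_9_4 : BlkD.pairOk d21_22_9_4 = true := by decide +kernel

/-- certificates of the pair `(9, 4)`, part 1 -/
def t21_22_9_4_1 : BlkD.Tr :=
  .L 5 6 [4, 4, 21, 21, 21] [] [] 100000 1 1 1500000 66667 33333 100000 50000 0 0 0

lemma s21_22_9_4_1 {n : ℕ} (hn : 7 ≤ n) : NoNd (d21_22_9_4.R : ℤ) d21_22_9_4.H n d21_22_9_4.a d21_22_9_4.b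
    (BlkD.inB (fun _ => 0)
      (BlkD.upd (BlkD.upd (BlkD.upd (BlkD.upd (BlkD.upd (BlkD.upd (fun _ => 22) 0 9) 2 4) 0 4) 0 2) 0 1) 0 0)) :=
  BlkD.tree_sound (BlkD.pairOk_sound k21_22_9_4) (by decide) hn t21_22_9_4_1 _ _ (by decide +kernel)

/-- certificates of the pair `(9, 4)`, part 2 -/
def t21_22_9_4_2 : BlkD.Tr :=
  .L 5 6 [4, 4, 21, 21, 21] [] [] 100000 1 1 1500000 66667 33333 100000 50000 0 0 0

lemma s21_22_9_4_2 {n : ℕ} (hn : 7 ≤ n) : NoNd (d21_22_9_4.R : ℤ) d21_22_9_4.H n d21_22_9_4.a d21_22_9_4.b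
    (BlkD.inB (BlkD.upd (fun _ => 0) 0 1)
      (BlkD.upd (BlkD.upd (BlkD.upd (BlkD.upd (BlkD.upd (BlkD.upd (BlkD.upd (fun _ => 22) 0 9) 2 4) 0 4) 0 2) 0 1) 1 11) 1 5)) :=
  BlkD.tree_sound (BlkD.pairOk_sound k21_22_9_4) (by decide) hn t21_22_9_4_2 _ _ (by decide +kernel)

/-- certificates of the pair `(9, 4)`, part 3 -/
def t21_22_9_4_3 : BlkD.Tr :=
  .S 1 8 (.L 5 6 [4, 4, 21, 21, 21] [] [] 100000 1 1 1500000 66667 33333 100000 50000 0 0 0) (.L 5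
    6 [4, 4, 21, 21, 21] [] [] 100000 1 1 1500000 66667 33333 100000 50000 0 0 0)

lemma s21_22_9_4_3 {n : ℕ} (hn : 7 ≤ n) : NoNd (d21_22_9_4.R : ℤ) d21_22_9_4.H n d21_22_9_4.a d21_22_9_4.b
    (BlkD.inB (BlkD.upd (BlkD.upd (fun _ => 0) 0 1) 1 6)
      (BlkD.upd (BlkD.upd (BlkD.upd (BlkD.upd (BlkD.upd (BlkD.upd (fun _ => 22) 0 9) 2 4) 0 4) 0 2) 0 1) 1 11)) :=
  BlkD.tree_sound (BlkD.pairOk_sound k21_22_9_4) (by decide) hn t21_22_9_4_3 _ _ (by decide +kernel)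

/-- certificates of the pair `(9, 4)`, part 4 -/
def t21_22_9_4_4 : BlkD.Tr :=
  .L 5 6 [4, 4, 21, 21, 21] [] [] 100000 1 1 1500000 66667 33333 100000 50000 0 0 0

lemma s21_22_9_4_4 {n : ℕ} (hn : 7 ≤ n) : NoNd (d21_22_9_4.R : ℤ) d21_22_9_4.H n d21_22_9_4.a d21_22_9_4.b
    (BlkD.inB (BlkD.upd (BlkD.upd (fun _ => 0) 0 1) 1 12)
      (BlkD.upd (BlkD.upd (BlkD.upd (BlkD.upd (BlkD.upd (fun _ => 22) 0 9) 2 4) 0 4) 0 2) 0 1)) :=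
  BlkD.tree_sound (BlkD.pairOk_sound k21_22_9_4) (by decide) hn t21_22_9_4_4 _ _ (by decide +kernel)

/-- certificates of the pair `(9, 4)`, part 5 -/
def t21_22_9_4_5 : BlkD.Tr :=
  .L 5 6 [4, 4, 21, 21, 21] [] [] 100000 1 1 1500000 66667 33333 100000 50000 0 0 0

lemma s21_22_9_4_5 {n : ℕ} (hn : 7 ≤ n) : NoNd (d21_22_9_4.R : ℤ) d21_22_9_4.H n d21_22_9_4.a d21_22_9_4.b
    (BlkD.inB (BlkD.upd (fun _ => 0) 0 2)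
      (BlkD.upd (BlkD.upd (BlkD.upd (BlkD.upd (BlkD.upd (BlkD.upd (fun _ => 22) 0 9) 2 4) 0 4) 0 2) 1 11) 1 5)) :=
  BlkD.tree_sound (BlkD.pairOk_sound k21_22_9_4) (by decide) hn t21_22_9_4_5 _ _ (by decide +kernel)

/-- certificates of the pair `(9, 4)`, part 6 -/
def t21_22_9_4_6 : BlkD.Tr :=
  .S 1 8 (.L 5 6 [4, 4, 21, 21, 21] [] [] 100000 1 1 1500000 66667 33333 100000 50000 0 0 0) (.L 5
    6 [4, 4, 21, 21, 21] [] [] 100000 1 1 1500000 66667 33333 100000 50000 0 0 0)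

lemma s21_22_9_4_6 {n : ℕ} (hn : 7 ≤ n) : NoNd (d21_22_9_4.R : ℤ) d21_22_9_4.H n d21_22_9_4.a d21_22_9_4.b
    (BlkD.inB (BlkD.upd (BlkD.upd (fun _ => 0) 0 2) 1 6)
      (BlkD.upd (BlkD.upd (BlkD.upd (BlkD.upd (BlkD.upd (fun _ => 22) 0 9) 2 4) 0 4) 0 2) 1 11)) :=
  BlkD.tree_sound (BlkD.pairOk_sound k21_22_9_4) (by decide) hn t21_22_9_4_6 _ _ (by decide +kernel)

/-- certificates of the pair `(9, 4)`, part 7 -/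
def t21_22_9_4_7 : BlkD.Tr :=
  .L 5 6 [4, 4, 21, 21, 21] [] [] 100000 1 1 1500000 66667 33333 100000 50000 0 0 0

lemma s21_22_9_4_7 {n : ℕ} (hn : 7 ≤ n) : NoNd (d21_22_9_4.R : ℤ) d21_22_9_4.H n d21_22_9_4.a d21_22_9_4.b
    (BlkD.inB (BlkD.upd (BlkD.upd (fun _ => 0) 0 2) 1 12)
      (BlkD.upd (BlkD.upd (BlkD.upd (BlkD.upd (fun _ => 22) 0 9) 2 4) 0 4) 0 2)) :=
  BlkD.tree_sound (BlkD.pairOk_sound k21_22_9_4) (by decide) hn t21_22_9_4_7 _ _ (by decide +kernel)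

/-- certificates of the pair `(9, 4)`, part 8 -/
def t21_22_9_4_8 : BlkD.Tr :=
  .L 5 6 [4, 4, 21, 21, 21] [] [] 100000 1 1 1500000 66667 33333 100000 50000 0 0 0

lemma s21_22_9_4_8 {n : ℕ} (hn : 7 ≤ n) : NoNd (d21_22_9_4.R : ℤ) d21_22_9_4.H n d21_22_9_4.a d21_22_9_4.b
    (BlkD.inB (BlkD.upd (fun _ => 0) 0 3)
      (BlkD.upd (BlkD.upd (BlkD.upd (BlkD.upd (BlkD.upd (BlkD.upd (fun _ => 22) 0 9) 2 4) 0 4) 0 3) 1 11) 1 5)) :=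
  BlkD.tree_sound (BlkD.pairOk_sound k21_22_9_4) (by decide) hn t21_22_9_4_8 _ _ (by decide +kernel)

/-- certificates of the pair `(9, 4)`, part 9 -/
def t21_22_9_4_9 : BlkD.Tr :=
  .S 1 8 (.L 5 6 [4, 4, 21, 21, 21] [] [] 100000 1 1 1500000 66667 33333 100000 50000 0 0 0) (.L 5
    6 [4, 4, 21, 21, 21] [] [] 100000 1 1 1500000 66667 33333 100000 50000 0 0 0)

lemma s21_22_9_4_9 {n : ℕ} (hn : 7 ≤ n) : NoNd (d21_22_9_4.R : ℤ) d21_22_9_4.H n d21_22_9_4.a d21_22_9_4.b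
    (BlkD.inB (BlkD.upd (BlkD.upd (fun _ => 0) 0 3) 1 6)
      (BlkD.upd (BlkD.upd (BlkD.upd (BlkD.upd (BlkD.upd (fun _ => 22) 0 9) 2 4) 0 4) 0 3) 1 11)) :=
  BlkD.tree_sound (BlkD.pairOk_sound k21_22_9_4) (by decide) hn t21_22_9_4_9 _ _ (by decide +kernel)

/-- certificates of the pair `(9, 4)`, part 10 -/
def t21_22_9_4_10 : BlkD.Tr :=
  .L 5 6 [4, 4, 21, 21, 21] [] [] 100000 1 1 1500000 66667 33333 100000 50000 0 0 0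

lemma s21_22_9_4_10 {n : ℕ} (hn : 7 ≤ n) : NoNd (d21_22_9_4.R : ℤ) d21_22_9_4.H n d21_22_9_4.a d21_22_9_4.b
    (BlkD.inB (BlkD.upd (BlkD.upd (fun _ => 0) 0 3) 1 12)
      (BlkD.upd (BlkD.upd (BlkD.upd (BlkD.upd (fun _ => 22) 0 9) 2 4) 0 4) 0 3)) :=
  BlkD.tree_sound (BlkD.pairOk_sound k21_22_9_4) (by decide) hn t21_22_9_4_10 _ _ (by decide +kernel)

/-- certificates of the pair `(9, 4)`, part 11 -/
def t21_22_9_4_11 : BlkD.Tr :=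
  .L 5 6 [4, 4, 21, 21, 21] [] [] 100000 1 1 1500000 66667 33333 100000 50000 0 0 0

lemma s21_22_9_4_11 {n : ℕ} (hn : 7 ≤ n) : NoNd (d21_22_9_4.R : ℤ) d21_22_9_4.H n d21_22_9_4.a d21_22_9_4.b
    (BlkD.inB (BlkD.upd (BlkD.upd (fun _ => 0) 0 3) 0 4)
      (BlkD.upd (BlkD.upd (BlkD.upd (BlkD.upd (BlkD.upd (fun _ => 22) 0 9) 2 4) 0 4) 1 11) 1 5)) :=
  BlkD.tree_sound (BlkD.pairOk_sound k21_22_9_4) (by decide) hn t21_22_9_4_11 _ _ (by decide +kernel)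

/-- certificates of the pair `(9, 4)`, part 12 -/
def t21_22_9_4_12 : BlkD.Tr :=
  .L 5 6 [4, 4, 21, 21, 21] [] [] 100000 1 1 1500000 66667 33333 100000 50000 0 0 0

lemma s21_22_9_4_12 {n : ℕ} (hn : 7 ≤ n) : NoNd (d21_22_9_4.R : ℤ) d21_22_9_4.H n d21_22_9_4.a d21_22_9_4.b
    (BlkD.inB (BlkD.upd (BlkD.upd (BlkD.upd (fun _ => 0) 0 3) 0 4) 1 6)
      (BlkD.upd (BlkD.upd (BlkD.upd (BlkD.upd (BlkD.upd (fun _ => 22) 0 9) 2 4) 0 4) 1 11) 1 8)) :=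
  BlkD.tree_sound (BlkD.pairOk_sound k21_22_9_4) (by decide) hn t21_22_9_4_12 _ _ (by decide +kernel)

/-- certificates of the pair `(9, 4)`, part 13 -/
def t21_22_9_4_13 : BlkD.Tr :=
  .L 5 6 [4, 4, 21, 21, 21] [] [] 100000 1 1 1500000 66667 33333 100000 50000 0 0 0

lemma s21_22_9_4_13 {n : ℕ} (hn : 7 ≤ n) : NoNd (d21_22_9_4.R : ℤ) d21_22_9_4.H n d21_22_9_4.a d21_22_9_4.b
    (BlkD.inB (BlkD.upd (BlkD.upd (BlkD.upd (BlkD.upd (fun _ => 0) 0 3) 0 4) 1 6) 1 9)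
      (BlkD.upd (BlkD.upd (BlkD.upd (BlkD.upd (fun _ => 22) 0 9) 2 4) 0 4) 1 11)) :=
  BlkD.tree_sound (BlkD.pairOk_sound k21_22_9_4) (by decide) hn t21_22_9_4_13 _ _ (by decide +kernel)

/-- certificates of the pair `(9, 4)`, part 14 -/
def t21_22_9_4_14 : BlkD.Tr :=
  .L 5 6 [4, 4, 21, 21, 21] [] [] 100000 1 1 1500000 66667 33333 100000 50000 0 0 0

lemma s21_22_9_4_14 {n : ℕ} (hn : 7 ≤ n) : NoNd (d21_22_9_4.R : ℤ) d21_22_9_4.H n d21_22_9_4.a d21_22_9_4.b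
    (BlkD.inB (BlkD.upd (BlkD.upd (BlkD.upd (fun _ => 0) 0 3) 0 4) 1 12)
      (BlkD.upd (BlkD.upd (BlkD.upd (fun _ => 22) 0 9) 2 4) 0 4)) :=
  BlkD.tree_sound (BlkD.pairOk_sound k21_22_9_4) (by decide) hn t21_22_9_4_14 _ _ (by decide +kernel)

/-- certificates of the pair `(9, 4)`, part 15 -/
def t21_22_9_4_15 : BlkD.Tr :=
  .L 5 6 [4, 4, 21, 21, 21] [] [] 100000 1 1 1500000 66667 33333 100000 50000 0 0 0

lemma s21_22_9_4_15 {n : ℕ} (hn : 7 ≤ n) : NoNd (d21_22_9_4.R : ℤ) d21_22_9_4.H n d21_22_9_4.a d21_22_9_4.b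
    (BlkD.inB (BlkD.upd (fun _ => 0) 0 5)
      (BlkD.upd (BlkD.upd (BlkD.upd (BlkD.upd (BlkD.upd (BlkD.upd (BlkD.upd (fun _ => 22) 0 9) 2 4) 0 7) 0 6) 0 5) 1 11) 1 5)) :=
  BlkD.tree_sound (BlkD.pairOk_sound k21_22_9_4) (by decide) hn t21_22_9_4_15 _ _ (by decide +kernel)

/-- certificates of the pair `(9, 4)`, part 16 -/
def t21_22_9_4_16 : BlkD.Tr :=
  .L 5 6 [4, 4, 21, 21, 21] [] [] 100000 1 1 1500000 66667 33333 100000 50000 0 0 0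

lemma s21_22_9_4_16 {n : ℕ} (hn : 7 ≤ n) : NoNd (d21_22_9_4.R : ℤ) d21_22_9_4.H n d21_22_9_4.a d21_22_9_4.b
    (BlkD.inB (BlkD.upd (BlkD.upd (fun _ => 0) 0 5) 1 6)
      (BlkD.upd (BlkD.upd (BlkD.upd (BlkD.upd (BlkD.upd (BlkD.upd (BlkD.upd (fun _ => 22) 0 9) 2 4) 0 7) 0 6) 0 5) 1 11) 1 8)) :=
  BlkD.tree_sound (BlkD.pairOk_sound k21_22_9_4) (by decide) hn t21_22_9_4_16 _ _ (by decide +kernel)

/-- certificates of the pair `(9, 4)`, part 17 -/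
def t21_22_9_4_17 : BlkD.Tr :=
  .L 5 6 [4, 4, 21, 21, 21] [] [] 100000 1 1 1500000 66667 33333 100000 50000 0 0 0

lemma s21_22_9_4_17 {n : ℕ} (hn : 7 ≤ n) : NoNd (d21_22_9_4.R : ℤ) d21_22_9_4.H n d21_22_9_4.a d21_22_9_4.b
    (BlkD.inB (BlkD.upd (BlkD.upd (BlkD.upd (fun _ => 0) 0 5) 1 6) 1 9)
      (BlkD.upd (BlkD.upd (BlkD.upd (BlkD.upd (BlkD.upd (BlkD.upd (fun _ => 22) 0 9) 2 4) 0 7) 0 6) 0 5) 1 11)) :=
  BlkD.tree_sound (BlkD.pairOk_sound k21_22_9_4) (by decide) hn t21_22_9_4_17 _ _ (by decide +kernel)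

/-- certificates of the pair `(9, 4)`, part 18 -/
def t21_22_9_4_18 : BlkD.Tr :=
  .L 5 6 [4, 4, 21, 21, 21] [] [] 100000 1 1 1500000 66667 33333 100000 50000 0 0 0

lemma s21_22_9_4_18 {n : ℕ} (hn : 7 ≤ n) : NoNd (d21_22_9_4.R : ℤ) d21_22_9_4.H n d21_22_9_4.a d21_22_9_4.b
    (BlkD.inB (BlkD.upd (BlkD.upd (fun _ => 0) 0 5) 1 12)
      (BlkD.upd (BlkD.upd (BlkD.upd (BlkD.upd (BlkD.upd (fun _ => 22) 0 9) 2 4) 0 7) 0 6) 0 5)) :=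
  BlkD.tree_sound (BlkD.pairOk_sound k21_22_9_4) (by decide) hn t21_22_9_4_18 _ _ (by decide +kernel)

/-- certificates of the pair `(9, 4)`, part 19 -/
def t21_22_9_4_19 : BlkD.Tr :=
  .L 5 6 [4, 4, 21, 21, 21] [] [] 100000 1 1 1500000 66667 33333 100000 50000 0 0 0

lemma s21_22_9_4_19 {n : ℕ} (hn : 7 ≤ n) : NoNd (d21_22_9_4.R : ℤ) d21_22_9_4.H n d21_22_9_4.a d21_22_9_4.b
    (BlkD.inB (BlkD.upd (BlkD.upd (fun _ => 0) 0 5) 0 6)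
      (BlkD.upd (BlkD.upd (BlkD.upd (BlkD.upd (BlkD.upd (BlkD.upd (fun _ => 22) 0 9) 2 4) 0 7) 0 6) 1 11) 1 5)) :=
  BlkD.tree_sound (BlkD.pairOk_sound k21_22_9_4) (by decide) hn t21_22_9_4_19 _ _ (by decide +kernel)

/-- certificates of the pair `(9, 4)`, part 20 -/
def t21_22_9_4_20 : BlkD.Tr :=
  .L 5 6 [4, 4, 21, 21, 21] [] [] 100000 1 1 1500000 66667 33333 100000 50000 0 0 0

lemma s21_22_9_4_20 {n : ℕ} (hn : 7 ≤ n) : NoNd (d21_22_9_4.R : ℤ) d21_22_9_4.H n d21_22_9_4.a d21_22_9_4.b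
    (BlkD.inB (BlkD.upd (BlkD.upd (BlkD.upd (fun _ => 0) 0 5) 0 6) 1 6)
      (BlkD.upd (BlkD.upd (BlkD.upd (BlkD.upd (BlkD.upd (fun _ => 22) 0 9) 2 4) 0 7) 0 6) 1 11)) :=
  BlkD.tree_sound (BlkD.pairOk_sound k21_22_9_4) (by decide) hn t21_22_9_4_20 _ _ (by decide +kernel)

/-- certificates of the pair `(9, 4)`, part 21 -/
def t21_22_9_4_21 : BlkD.Tr :=
  .L 5 6 [4, 4, 21, 21, 21] [] [] 100000 1 1 1500000 66667 33333 100000 50000 0 0 0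

lemma s21_22_9_4_21 {n : ℕ} (hn : 7 ≤ n) : NoNd (d21_22_9_4.R : ℤ) d21_22_9_4.H n d21_22_9_4.a d21_22_9_4.b
    (BlkD.inB (BlkD.upd (BlkD.upd (BlkD.upd (fun _ => 0) 0 5) 0 6) 1 12)
      (BlkD.upd (BlkD.upd (BlkD.upd (BlkD.upd (fun _ => 22) 0 9) 2 4) 0 7) 0 6)) :=
  BlkD.tree_sound (BlkD.pairOk_sound k21_22_9_4) (by decide) hn t21_22_9_4_21 _ _ (by decide +kernel)

/-- certificates of the pair `(9, 4)`, part 22 -/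
def t21_22_9_4_22 : BlkD.Tr :=
  .L 5 6 [4, 4, 21, 21, 21] [] [] 100000 1 1 1500000 66667 33333 100000 50000 0 0 0

lemma s21_22_9_4_22 {n : ℕ} (hn : 7 ≤ n) : NoNd (d21_22_9_4.R : ℤ) d21_22_9_4.H n d21_22_9_4.a d21_22_9_4.b
    (BlkD.inB (BlkD.upd (BlkD.upd (fun _ => 0) 0 5) 0 7)
      (BlkD.upd (BlkD.upd (BlkD.upd (fun _ => 22) 0 9) 2 4) 0 7)) :=
  BlkD.tree_sound (BlkD.pairOk_sound k21_22_9_4) (by decide) hn t21_22_9_4_22 _ _ (by decide +kernel)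

/-- certificates of the pair `(9, 4)`, part 23 -/
def t21_22_9_4_23 : BlkD.Tr :=
  .L 5 6 [4, 4, 21, 21, 21] [] [] 100000 1 1 1500000 66667 33333 100000 50000 0 0 0

lemma s21_22_9_4_23 {n : ℕ} (hn : 7 ≤ n) : NoNd (d21_22_9_4.R : ℤ) d21_22_9_4.H n d21_22_9_4.a d21_22_9_4.b
    (BlkD.inB (BlkD.upd (BlkD.upd (fun _ => 0) 0 5) 0 8)
      (BlkD.upd (BlkD.upd (fun _ => 22) 0 9) 2 4)) :=
  BlkD.tree_sound (BlkD.pairOk_sound k21_22_9_4) (by decide) hn t21_22_9_4_23 _ _ (by decide +kernel)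

/-- certificates of the pair `(9, 4)`, part 24 -/
def t21_22_9_4_24 : BlkD.Tr :=
  .E 1

lemma s21_22_9_4_24 {n : ℕ} (hn : 7 ≤ n) : NoNd (d21_22_9_4.R : ℤ) d21_22_9_4.H n d21_22_9_4.a d21_22_9_4.b
    (BlkD.inB (BlkD.upd (fun _ => 0) 2 5)
      (BlkD.upd (fun _ => 22) 0 9)) :=
  BlkD.tree_sound (BlkD.pairOk_sound k21_22_9_4) (by decide) hn t21_22_9_4_24 _ _ (by decide +kernel)

/-- certificates of the pair `(9, 4)`, part 25 -/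
def t21_22_9_4_25 : BlkD.Tr :=
  .E 0

lemma s21_22_9_4_25 {n : ℕ} (hn : 7 ≤ n) : NoNd (d21_22_9_4.R : ℤ) d21_22_9_4.H n d21_22_9_4.a d21_22_9_4.b
    (BlkD.inB (BlkD.upd (fun _ => 0) 0 10)
      (fun _ => 22)) :=
  BlkD.tree_sound (BlkD.pairOk_sound k21_22_9_4) (by decide) hn t21_22_9_4_25 _ _ (by decide +kernel)

lemma pr21_22_9_4 {n : ℕ} (hn : 7 ≤ n) : NoPr ((21 : ℕ) : ℤ) ((22 : ℕ) : ℤ) n 9 4 :=
  BlkD.of_root (R := d21_22_9_4.R) (H := d21_22_9_4.H) (a := d21_22_9_4.a) (b := d21_22_9_4.b) (q := 5) (by decide) hn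
    (BlkD.sp 0 9 (BlkD.sp 2 4 (BlkD.sp 0 4 (BlkD.sp 0 2 (BlkD.sp 0 1 (BlkD.sp 0 0 (s21_22_9_4_1 hn)
      (BlkD.sp 1 11 (BlkD.sp 1 5 (s21_22_9_4_2 hn) (s21_22_9_4_3 hn)) (s21_22_9_4_4 hn))) (BlkD.sp
      1 11 (BlkD.sp 1 5 (s21_22_9_4_5 hn) (s21_22_9_4_6 hn)) (s21_22_9_4_7 hn))) (BlkD.sp 0 3
      (BlkD.sp 1 11 (BlkD.sp 1 5 (s21_22_9_4_8 hn) (s21_22_9_4_9 hn)) (s21_22_9_4_10 hn)) (BlkD.sp
      1 11 (BlkD.sp 1 5 (s21_22_9_4_11 hn) (BlkD.sp 1 8 (s21_22_9_4_12 hn) (s21_22_9_4_13 hn)))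
      (s21_22_9_4_14 hn)))) (BlkD.sp 0 7 (BlkD.sp 0 6 (BlkD.sp 0 5 (BlkD.sp 1 11 (BlkD.sp 1 5
      (s21_22_9_4_15 hn) (BlkD.sp 1 8 (s21_22_9_4_16 hn) (s21_22_9_4_17 hn))) (s21_22_9_4_18 hn))
      (BlkD.sp 1 11 (BlkD.sp 1 5 (s21_22_9_4_19 hn) (s21_22_9_4_20 hn)) (s21_22_9_4_21 hn)))
      (s21_22_9_4_22 hn)) (s21_22_9_4_23 hn))) (s21_22_9_4_24 hn)) (s21_22_9_4_25 hn))

end BlkC

end Pool.Agent.Lib.MP_f04ccf_co
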