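import Pool.Agent.Lib.MP_f04ccf_co.M.BlkT

/-!
MP_f04ccf_co, block certificate, data `R = 21`, `H = 22`, part 5 (generated, helper99:
bd10.cpp, gen2.py).
-/

set_option autoImplicit false
set_option maxRecDepth 100000

namespace Pool.Agent.Lib.MP_f04ccf_co

namespace BlkC

/-- the numbers of the pair `(7, 3)`, `R = 21`, `H = 22` -/
def d21_22_7_3 : BlkD.Pd :=
  ⟨21, 22, 5, 7, 3, 9, 3, 2, 1, 4, 10, 0, 4, 1, 8, 0, [0, 10, 20, 30, 40, 41, 42, 43, 44, 45], [0,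
    8, 16, 21, 25, 29, 33, 37, 41, 45], [⟨1, 1, 1, 4, 8, [0, 4], [0, 4]⟩, ⟨1, 1, 1, 6, 12, [0, 6],
    [0, 6]⟩, ⟨1, 1, 1, 6, 14, [0, 8], [0, 6]⟩, ⟨2, 1, 1, 6, 26, [0, 10, 18], [0, 8]⟩]⟩

lemma k21_22_7_3 : BlkD.pairOk d21_22_7_3 = true := by decide +kernel

/-- certificates of the pair `(7, 3)`, part 1 -/
def t21_22_7_3_1 : BlkD.Tr :=
  .L 5 7 [4, 4, 5, 5] [] [] 100000 88889 88889 600001 100000 0 100000 33333 0 0 16667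

lemma s21_22_7_3_1 {n : ℕ} (hn : 7 ≤ n) : NoNd (d21_22_7_3.R : ℤ) d21_22_7_3.H n d21_22_7_3.a d21_22_7_3.b
    (BlkD.inB (fun _ => 0)
      (BlkD.upd (BlkD.upd (BlkD.upd (BlkD.upd (BlkD.upd (fun _ => 22) 0 7) 2 3) 0 3) 0 1) 0 0)) :=
  BlkD.tree_sound (BlkD.pairOk_sound k21_22_7_3) (by decide) hn t21_22_7_3_1 _ _ (by decide +kernel)

/-- certificates of the pair `(7, 3)`, part 2 -/
def t21_22_7_3_2 : BlkD.Tr :=
  .L 5 7 [4, 4, 5, 5] [] [] 100000 88889 88889 600001 100000 0 100000 33333 0 0 16667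

lemma s21_22_7_3_2 {n : ℕ} (hn : 7 ≤ n) : NoNd (d21_22_7_3.R : ℤ) d21_22_7_3.H n d21_22_7_3.a d21_22_7_3.b
    (BlkD.inB (BlkD.upd (fun _ => 0) 0 1)
      (BlkD.upd (BlkD.upd (BlkD.upd (BlkD.upd (BlkD.upd (BlkD.upd (fun _ => 22) 0 7) 2 3) 0 3) 0 1) 1 11) 1 5)) :=
  BlkD.tree_sound (BlkD.pairOk_sound k21_22_7_3) (by decide) hn t21_22_7_3_2 _ _ (by decide +kernel)

/-- certificates of the pair `(7, 3)`, part 3 -/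
def t21_22_7_3_3 : BlkD.Tr :=
  .L 5 7 [4, 4, 5, 5] [] [] 100000 88889 88889 600001 100000 0 100000 33333 0 0 16667

lemma s21_22_7_3_3 {n : ℕ} (hn : 7 ≤ n) : NoNd (d21_22_7_3.R : ℤ) d21_22_7_3.H n d21_22_7_3.a d21_22_7_3.b
    (BlkD.inB (BlkD.upd (BlkD.upd (fun _ => 0) 0 1) 1 6)
      (BlkD.upd (BlkD.upd (BlkD.upd (BlkD.upd (BlkD.upd (BlkD.upd (fun _ => 22) 0 7) 2 3) 0 3) 0 1) 1 11) 1 8)) :=
  BlkD.tree_sound (BlkD.pairOk_sound k21_22_7_3) (by decide) hn t21_22_7_3_3 _ _ (by decide +kernel)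

/-- certificates of the pair `(7, 3)`, part 4 -/
def t21_22_7_3_4 : BlkD.Tr :=
  .L 5 7 [4, 4, 5, 5] [] [] 100000 88889 88889 600001 100000 0 100000 33333 0 0 16667

lemma s21_22_7_3_4 {n : ℕ} (hn : 7 ≤ n) : NoNd (d21_22_7_3.R : ℤ) d21_22_7_3.H n d21_22_7_3.a d21_22_7_3.b
    (BlkD.inB (BlkD.upd (BlkD.upd (BlkD.upd (fun _ => 0) 0 1) 1 6) 1 9)
      (BlkD.upd (BlkD.upd (BlkD.upd (BlkD.upd (BlkD.upd (fun _ => 22) 0 7) 2 3) 0 3) 0 1) 1 11)) :=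
  BlkD.tree_sound (BlkD.pairOk_sound k21_22_7_3) (by decide) hn t21_22_7_3_4 _ _ (by decide +kernel)

/-- certificates of the pair `(7, 3)`, part 5 -/
def t21_22_7_3_5 : BlkD.Tr :=
  .L 5 7 [4, 4, 5, 5] [] [] 100000 88889 88889 600001 100000 0 100000 33333 0 0 16667

lemma s21_22_7_3_5 {n : ℕ} (hn : 7 ≤ n) : NoNd (d21_22_7_3.R : ℤ) d21_22_7_3.H n d21_22_7_3.a d21_22_7_3.b
    (BlkD.inB (BlkD.upd (BlkD.upd (fun _ => 0) 0 1) 1 12)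
      (BlkD.upd (BlkD.upd (BlkD.upd (BlkD.upd (fun _ => 22) 0 7) 2 3) 0 3) 0 1)) :=
  BlkD.tree_sound (BlkD.pairOk_sound k21_22_7_3) (by decide) hn t21_22_7_3_5 _ _ (by decide +kernel)

/-- certificates of the pair `(7, 3)`, part 6 -/
def t21_22_7_3_6 : BlkD.Tr :=
  .L 5 7 [4, 4, 5, 5] [] [] 100000 63581 63581 1025001 50000 0 75000 50000 0 13889 22685

lemma s21_22_7_3_6 {n : ℕ} (hn : 7 ≤ n) : NoNd (d21_22_7_3.R : ℤ) d21_22_7_3.H n d21_22_7_3.a d21_22_7_3.b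
    (BlkD.inB (BlkD.upd (fun _ => 0) 0 2)
      (BlkD.upd (BlkD.upd (BlkD.upd (BlkD.upd (BlkD.upd (BlkD.upd (fun _ => 22) 0 7) 2 3) 0 3) 0 2) 1 11) 1 5)) :=
  BlkD.tree_sound (BlkD.pairOk_sound k21_22_7_3) (by decide) hn t21_22_7_3_6 _ _ (by decide +kernel)

/-- certificates of the pair `(7, 3)`, part 7 -/
def t21_22_7_3_7 : BlkD.Tr :=
  .S 1 8 (.L 5 7 [4, 4, 5, 5] [] [] 100000 63581 63581 1025001 50000 0 75000 50000 0 13889 22685)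
    (.L 5 7 [4, 4, 5, 5] [] [] 100000 63581 63581 1025001 50000 0 75000 50000 0 13889 22685)

lemma s21_22_7_3_7 {n : ℕ} (hn : 7 ≤ n) : NoNd (d21_22_7_3.R : ℤ) d21_22_7_3.H n d21_22_7_3.a d21_22_7_3.b
    (BlkD.inB (BlkD.upd (BlkD.upd (fun _ => 0) 0 2) 1 6)
      (BlkD.upd (BlkD.upd (BlkD.upd (BlkD.upd (BlkD.upd (fun _ => 22) 0 7) 2 3) 0 3) 0 2) 1 11)) :=
  BlkD.tree_sound (BlkD.pairOk_sound k21_22_7_3) (by decide) hn t21_22_7_3_7 _ _ (by decide +kernel)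

/-- certificates of the pair `(7, 3)`, part 8 -/
def t21_22_7_3_8 : BlkD.Tr :=
  .L 5 7 [4, 4, 5, 5] [] [] 100000 63581 63581 1025001 50000 0 75000 50000 0 13889 22685

lemma s21_22_7_3_8 {n : ℕ} (hn : 7 ≤ n) : NoNd (d21_22_7_3.R : ℤ) d21_22_7_3.H n d21_22_7_3.a d21_22_7_3.b
    (BlkD.inB (BlkD.upd (BlkD.upd (fun _ => 0) 0 2) 1 12)
      (BlkD.upd (BlkD.upd (BlkD.upd (BlkD.upd (fun _ => 22) 0 7) 2 3) 0 3) 0 2)) :=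
  BlkD.tree_sound (BlkD.pairOk_sound k21_22_7_3) (by decide) hn t21_22_7_3_8 _ _ (by decide +kernel)

/-- certificates of the pair `(7, 3)`, part 9 -/
def t21_22_7_3_9 : BlkD.Tr :=
  .L 5 7 [4, 4, 5, 5] [] [] 100000 33334 33334 1000001 33333 0 33333 66667 0 0 16667

lemma s21_22_7_3_9 {n : ℕ} (hn : 7 ≤ n) : NoNd (d21_22_7_3.R : ℤ) d21_22_7_3.H n d21_22_7_3.a d21_22_7_3.b
    (BlkD.inB (BlkD.upd (BlkD.upd (fun _ => 0) 0 2) 0 3)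
      (BlkD.upd (BlkD.upd (BlkD.upd (BlkD.upd (BlkD.upd (BlkD.upd (fun _ => 22) 0 7) 2 3) 0 3) 1 19) 1 9) 1 4)) :=
  BlkD.tree_sound (BlkD.pairOk_sound k21_22_7_3) (by decide) hn t21_22_7_3_9 _ _ (by decide +kernel)

/-- certificates of the pair `(7, 3)`, part 10 -/
def t21_22_7_3_10 : BlkD.Tr :=
  .S 1 7 (.S 1 6 (.L 5 7 [4, 4, 5, 5] [] [] 100000 25247 25247 1183336 23333 0 72037 38333 1296
    21667 25000) (.L 5 7 [4, 4, 5, 5] [143, 142, 134, 124, 114, 104] [] 100000 27907 27907 1154264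
    36434 0 63566 36434 0 20155 16279)) (.L 5 7 [4, 4, 5, 5] [] [] 100000 21418 21418 1186726 3793
    0 98103 78621 12471 21379 16667)

lemma s21_22_7_3_10 {n : ℕ} (hn : 7 ≤ n) : NoNd (d21_22_7_3.R : ℤ) d21_22_7_3.H n d21_22_7_3.a d21_22_7_3.b
    (BlkD.inB (BlkD.upd (BlkD.upd (BlkD.upd (fun _ => 0) 0 2) 0 3) 1 5)
      (BlkD.upd (BlkD.upd (BlkD.upd (BlkD.upd (BlkD.upd (fun _ => 22) 0 7) 2 3) 0 3) 1 19) 1 9)) :=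
  BlkD.tree_sound (BlkD.pairOk_sound k21_22_7_3) (by decide) hn t21_22_7_3_10 _ _ (by decide +kernel)

/-- certificates of the pair `(7, 3)`, part 11 -/
def t21_22_7_3_11 : BlkD.Tr :=
  .L 5 7 [4, 4, 5, 5] [] [] 100000 106250 0 243750 18750 0 206250 40625 0 0 0

lemma s21_22_7_3_11 {n : ℕ} (hn : 7 ≤ n) : NoNd (d21_22_7_3.R : ℤ) d21_22_7_3.H n d21_22_7_3.a d21_22_7_3.b
    (BlkD.inB (BlkD.upd (BlkD.upd (BlkD.upd (fun _ => 0) 0 2) 0 3) 1 10)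
      (BlkD.upd (BlkD.upd (BlkD.upd (BlkD.upd (fun _ => 22) 0 7) 2 3) 0 3) 1 19)) :=
  BlkD.tree_sound (BlkD.pairOk_sound k21_22_7_3) (by decide) hn t21_22_7_3_11 _ _ (by decide +kernel)

/-- certificates of the pair `(7, 3)`, part 12 -/
def t21_22_7_3_12 : BlkD.Tr :=
  .E 0

lemma s21_22_7_3_12 {n : ℕ} (hn : 7 ≤ n) : NoNd (d21_22_7_3.R : ℤ) d21_22_7_3.H n d21_22_7_3.a d21_22_7_3.b
    (BlkD.inB (BlkD.upd (BlkD.upd (BlkD.upd (fun _ => 0) 0 2) 0 3) 1 20)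
      (BlkD.upd (BlkD.upd (BlkD.upd (fun _ => 22) 0 7) 2 3) 0 3)) :=
  BlkD.tree_sound (BlkD.pairOk_sound k21_22_7_3) (by decide) hn t21_22_7_3_12 _ _ (by decide +kernel)

/-- certificates of the pair `(7, 3)`, part 13 -/
def t21_22_7_3_13 : BlkD.Tr :=
  .S 1 18 (.S 1 9 (.S 1 4 (.L 5 7 [4, 4, 5, 5] [] [] 100000 25000 25000 1125000 25000 0 25000 75000
    0 25000 25000) (.S 1 7 (.S 1 6 (.S 1 5 (.L 5 7 [4, 4, 5, 5] [110, 100, 90, 80, 70, 60] []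
    100000 20744 20744 1187308 28173 0 69505 52012 8978 19814 21672) (.L 5 7 [4, 4, 5, 5] [136,
    128, 118, 108, 98, 88] [] 100000 26344 26344 1168038 33041 0 66757 41875 1551 17869 17869)) (.L
    5 7 [4, 4, 5, 5] [157, 156, 148, 138, 128, 118] [] 100000 28572 28572 1128575 28571 0 85714
    42857 0 14286 14286)) (.L 5 7 [4, 4, 5, 5] [] [] 100000 22557 14493 1069455 3177 0 108064 48411
    14175 18154 22239))) (.E 0)) (.E 0)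

lemma s21_22_7_3_13 {n : ℕ} (hn : 7 ≤ n) : NoNd (d21_22_7_3.R : ℤ) d21_22_7_3.H n d21_22_7_3.a d21_22_7_3.b
    (BlkD.inB (BlkD.upd (fun _ => 0) 0 4)
      (BlkD.upd (BlkD.upd (BlkD.upd (BlkD.upd (fun _ => 22) 0 7) 2 3) 0 5) 0 4)) :=
  BlkD.tree_sound (BlkD.pairOk_sound k21_22_7_3) (by decide) hn t21_22_7_3_13 _ _ (by decide +kernel)

/-- certificates of the pair `(7, 3)`, part 14 -/
def t21_22_7_3_14 : BlkD.Tr :=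
  .S 1 17 (.S 1 8 (.S 1 4 (.L 5 7 [4, 4, 5, 5] [] [] 100000 19311 19311 1200000 25000 0 86443 49573
    10351 22222 21368) (.L 5 7 [4, 4, 5, 5] [] [] 100000 13219 13219 1213272 3823 0 87631 70240
    25037 22939 17804)) (.E 0)) (.E 0)

lemma s21_22_7_3_14 {n : ℕ} (hn : 7 ≤ n) : NoNd (d21_22_7_3.R : ℤ) d21_22_7_3.H n d21_22_7_3.a d21_22_7_3.b
    (BlkD.inB (BlkD.upd (BlkD.upd (fun _ => 0) 0 4) 0 5)
      (BlkD.upd (BlkD.upd (BlkD.upd (fun _ => 22) 0 7) 2 3) 0 5)) :=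
  BlkD.tree_sound (BlkD.pairOk_sound k21_22_7_3) (by decide) hn t21_22_7_3_14 _ _ (by decide +kernel)

/-- certificates of the pair `(7, 3)`, part 15 -/
def t21_22_7_3_15 : BlkD.Tr :=
  .S 0 6 (.S 1 16 (.S 1 8 (.S 1 4 (.L 5 7 [4, 4, 5, 5] [] [] 100000 13867 13867 1225006 25000 0
    79713 47746 18648 25615 21107) (.L 5 7 [4, 4, 5, 5] [] [] 100000 33333 0 900001 0 0 133333
    50000 0 16667 16667)) (.E 0)) (.E 0)) (.L 5 7 [4, 4, 5, 5] [] [] 100000 0 0 1200000 0 0 50000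
    25000 50000 25000 25000)

lemma s21_22_7_3_15 {n : ℕ} (hn : 7 ≤ n) : NoNd (d21_22_7_3.R : ℤ) d21_22_7_3.H n d21_22_7_3.a d21_22_7_3.b
    (BlkD.inB (BlkD.upd (BlkD.upd (fun _ => 0) 0 4) 0 6)
      (BlkD.upd (BlkD.upd (fun _ => 22) 0 7) 2 3)) :=
  BlkD.tree_sound (BlkD.pairOk_sound k21_22_7_3) (by decide) hn t21_22_7_3_15 _ _ (by decide +kernel)

/-- certificates of the pair `(7, 3)`, part 16 -/
def t21_22_7_3_16 : BlkD.Tr :=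
  .E 1

lemma s21_22_7_3_16 {n : ℕ} (hn : 7 ≤ n) : NoNd (d21_22_7_3.R : ℤ) d21_22_7_3.H n d21_22_7_3.a d21_22_7_3.b
    (BlkD.inB (BlkD.upd (fun _ => 0) 2 4)
      (BlkD.upd (fun _ => 22) 0 7)) :=
  BlkD.tree_sound (BlkD.pairOk_sound k21_22_7_3) (by decide) hn t21_22_7_3_16 _ _ (by decide +kernel)

/-- certificates of the pair `(7, 3)`, part 17 -/
def t21_22_7_3_17 : BlkD.Tr :=
  .E 0

lemma s21_22_7_3_17 {n : ℕ} (hn : 7 ≤ n) : NoNd (d21_22_7_3.R : ℤ) d21_22_7_3.H n d21_22_7_3.a d21_22_7_3.b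
    (BlkD.inB (BlkD.upd (fun _ => 0) 0 8)
      (fun _ => 22)) :=
  BlkD.tree_sound (BlkD.pairOk_sound k21_22_7_3) (by decide) hn t21_22_7_3_17 _ _ (by decide +kernel)

lemma pr21_22_7_3 {n : ℕ} (hn : 7 ≤ n) : NoPr ((21 : ℕ) : ℤ) ((22 : ℕ) : ℤ) n 7 3 :=
  BlkD.of_root (R := d21_22_7_3.R) (H := d21_22_7_3.H) (a := d21_22_7_3.a) (b := d21_22_7_3.b) (q := 5) (by decide) hn
    (BlkD.sp 0 7 (BlkD.sp 2 3 (BlkD.sp 0 3 (BlkD.sp 0 1 (BlkD.sp 0 0 (s21_22_7_3_1 hn) (BlkD.sp 1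
      11 (BlkD.sp 1 5 (s21_22_7_3_2 hn) (BlkD.sp 1 8 (s21_22_7_3_3 hn) (s21_22_7_3_4 hn)))
      (s21_22_7_3_5 hn))) (BlkD.sp 0 2 (BlkD.sp 1 11 (BlkD.sp 1 5 (s21_22_7_3_6 hn) (s21_22_7_3_7
      hn)) (s21_22_7_3_8 hn)) (BlkD.sp 1 19 (BlkD.sp 1 9 (BlkD.sp 1 4 (s21_22_7_3_9 hn)
      (s21_22_7_3_10 hn)) (s21_22_7_3_11 hn)) (s21_22_7_3_12 hn)))) (BlkD.sp 0 5 (BlkD.sp 0 4
      (s21_22_7_3_13 hn) (s21_22_7_3_14 hn)) (s21_22_7_3_15 hn))) (s21_22_7_3_16 hn))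
      (s21_22_7_3_17 hn))

/-- the numbers of the pair `(7, 4)`, `R = 21`, `H = 22` -/
def d21_22_7_4 : BlkD.Pd :=
  ⟨21, 22, 5, 7, 4, 8, 3, 2, 1, 4, 10, 0, 2, 2, 8, 0, [0, 10, 20, 30, 36, 37, 38, 39, 40], [0, 8,
    16, 22, 24, 26, 28, 30, 32], [⟨1, 1, 1, 4, 8, [0, 4], [0, 4]⟩, ⟨1, 1, 1, 4, 12, [0, 6], [0,
    6]⟩, ⟨1, 1, 1, 4, 16, [0, 8], [0, 8]⟩, ⟨2, 1, 1, 4, 26, [0, 10, 18], [0, 8]⟩]⟩

lemma k21_22_7_4 : BlkD.pairOk d21_22_7_4 = true := by decide +kernel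

/-- certificates of the pair `(7, 4)`, part 1 -/
def t21_22_7_4_1 : BlkD.Tr :=
  .L 6 8 [4, 4, 4, 4, 21] [] [] 100000 66667 66667 800000 100000 0 100000 0 0 0 0

lemma s21_22_7_4_1 {n : ℕ} (hn : 7 ≤ n) : NoNd (d21_22_7_4.R : ℤ) d21_22_7_4.H n d21_22_7_4.a d21_22_7_4.b
    (BlkD.inB (fun _ => 0)
      (BlkD.upd (BlkD.upd (BlkD.upd (BlkD.upd (BlkD.upd (fun _ => 22) 0 7) 2 4) 0 3) 0 1) 0 0)) :=
  BlkD.tree_sound (BlkD.pairOk_sound k21_22_7_4) (by decide) hn t21_22_7_4_1 _ _ (by decide +kernel)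

/-- certificates of the pair `(7, 4)`, part 2 -/
def t21_22_7_4_2 : BlkD.Tr :=
  .L 6 8 [4, 4, 4, 4, 21] [] [] 100000 66667 66667 800000 100000 0 100000 0 0 0 0

lemma s21_22_7_4_2 {n : ℕ} (hn : 7 ≤ n) : NoNd (d21_22_7_4.R : ℤ) d21_22_7_4.H n d21_22_7_4.a d21_22_7_4.b
    (BlkD.inB (BlkD.upd (fun _ => 0) 0 1)
      (BlkD.upd (BlkD.upd (BlkD.upd (BlkD.upd (BlkD.upd (BlkD.upd (fun _ => 22) 0 7) 2 4) 0 3) 0 1) 1 11) 1 5)) :=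
  BlkD.tree_sound (BlkD.pairOk_sound k21_22_7_4) (by decide) hn t21_22_7_4_2 _ _ (by decide +kernel)

/-- certificates of the pair `(7, 4)`, part 3 -/
def t21_22_7_4_3 : BlkD.Tr :=
  .L 6 8 [4, 4, 4, 4, 21] [] [] 100000 66667 66667 800000 100000 0 100000 0 0 0 0

lemma s21_22_7_4_3 {n : ℕ} (hn : 7 ≤ n) : NoNd (d21_22_7_4.R : ℤ) d21_22_7_4.H n d21_22_7_4.a d21_22_7_4.b
    (BlkD.inB (BlkD.upd (BlkD.upd (fun _ => 0) 0 1) 1 6)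
      (BlkD.upd (BlkD.upd (BlkD.upd (BlkD.upd (BlkD.upd (BlkD.upd (fun _ => 22) 0 7) 2 4) 0 3) 0 1) 1 11) 1 8)) :=
  BlkD.tree_sound (BlkD.pairOk_sound k21_22_7_4) (by decide) hn t21_22_7_4_3 _ _ (by decide +kernel)

/-- certificates of the pair `(7, 4)`, part 4 -/
def t21_22_7_4_4 : BlkD.Tr :=
  .L 6 8 [4, 4, 4, 4, 21] [] [] 100000 66667 66667 800000 100000 0 100000 0 0 0 0

lemma s21_22_7_4_4 {n : ℕ} (hn : 7 ≤ n) : NoNd (d21_22_7_4.R : ℤ) d21_22_7_4.H n d21_22_7_4.a d21_22_7_4.b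
    (BlkD.inB (BlkD.upd (BlkD.upd (BlkD.upd (fun _ => 0) 0 1) 1 6) 1 9)
      (BlkD.upd (BlkD.upd (BlkD.upd (BlkD.upd (BlkD.upd (fun _ => 22) 0 7) 2 4) 0 3) 0 1) 1 11)) :=
  BlkD.tree_sound (BlkD.pairOk_sound k21_22_7_4) (by decide) hn t21_22_7_4_4 _ _ (by decide +kernel)

/-- certificates of the pair `(7, 4)`, part 5 -/
def t21_22_7_4_5 : BlkD.Tr :=
  .L 6 8 [4, 4, 4, 4, 21] [] [] 100000 66667 66667 800000 100000 0 100000 0 0 0 0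

lemma s21_22_7_4_5 {n : ℕ} (hn : 7 ≤ n) : NoNd (d21_22_7_4.R : ℤ) d21_22_7_4.H n d21_22_7_4.a d21_22_7_4.b
    (BlkD.inB (BlkD.upd (BlkD.upd (fun _ => 0) 0 1) 1 12)
      (BlkD.upd (BlkD.upd (BlkD.upd (BlkD.upd (fun _ => 22) 0 7) 2 4) 0 3) 0 1)) :=
  BlkD.tree_sound (BlkD.pairOk_sound k21_22_7_4) (by decide) hn t21_22_7_4_5 _ _ (by decide +kernel)

/-- certificates of the pair `(7, 4)`, part 6 -/
def t21_22_7_4_6 : BlkD.Tr :=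
  .L 6 8 [4, 4, 4, 4, 21] [] [] 100000 100001 100001 1022222 77778 0 88889 66667 0 0 0

lemma s21_22_7_4_6 {n : ℕ} (hn : 7 ≤ n) : NoNd (d21_22_7_4.R : ℤ) d21_22_7_4.H n d21_22_7_4.a d21_22_7_4.b
    (BlkD.inB (BlkD.upd (fun _ => 0) 0 2)
      (BlkD.upd (BlkD.upd (BlkD.upd (BlkD.upd (BlkD.upd (BlkD.upd (fun _ => 22) 0 7) 2 4) 0 3) 0 2) 1 11) 1 5)) :=
  BlkD.tree_sound (BlkD.pairOk_sound k21_22_7_4) (by decide) hn t21_22_7_4_6 _ _ (by decide +kernel)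

/-- certificates of the pair `(7, 4)`, part 7 -/
def t21_22_7_4_7 : BlkD.Tr :=
  .L 6 8 [4, 4, 4, 4, 21] [] [] 100000 100001 100001 1022222 77778 0 88889 66667 0 0 0

lemma s21_22_7_4_7 {n : ℕ} (hn : 7 ≤ n) : NoNd (d21_22_7_4.R : ℤ) d21_22_7_4.H n d21_22_7_4.a d21_22_7_4.b
    (BlkD.inB (BlkD.upd (BlkD.upd (fun _ => 0) 0 2) 1 6)
      (BlkD.upd (BlkD.upd (BlkD.upd (BlkD.upd (BlkD.upd (BlkD.upd (fun _ => 22) 0 7) 2 4) 0 3) 0 2) 1 11) 1 8)) :=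
  BlkD.tree_sound (BlkD.pairOk_sound k21_22_7_4) (by decide) hn t21_22_7_4_7 _ _ (by decide +kernel)

/-- certificates of the pair `(7, 4)`, part 8 -/
def t21_22_7_4_8 : BlkD.Tr :=
  .L 6 8 [4, 4, 4, 4, 21] [] [] 100000 100001 100001 1022222 77778 0 88889 66667 0 0 0

lemma s21_22_7_4_8 {n : ℕ} (hn : 7 ≤ n) : NoNd (d21_22_7_4.R : ℤ) d21_22_7_4.H n d21_22_7_4.a d21_22_7_4.b
    (BlkD.inB (BlkD.upd (BlkD.upd (BlkD.upd (fun _ => 0) 0 2) 1 6) 1 9)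
      (BlkD.upd (BlkD.upd (BlkD.upd (BlkD.upd (BlkD.upd (fun _ => 22) 0 7) 2 4) 0 3) 0 2) 1 11)) :=
  BlkD.tree_sound (BlkD.pairOk_sound k21_22_7_4) (by decide) hn t21_22_7_4_8 _ _ (by decide +kernel)

/-- certificates of the pair `(7, 4)`, part 9 -/
def t21_22_7_4_9 : BlkD.Tr :=
  .L 6 8 [4, 4, 4, 4, 21] [] [] 100000 100001 100001 1022222 77778 0 88889 66667 0 0 0

lemma s21_22_7_4_9 {n : ℕ} (hn : 7 ≤ n) : NoNd (d21_22_7_4.R : ℤ) d21_22_7_4.H n d21_22_7_4.a d21_22_7_4.b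
    (BlkD.inB (BlkD.upd (BlkD.upd (fun _ => 0) 0 2) 1 12)
      (BlkD.upd (BlkD.upd (BlkD.upd (BlkD.upd (fun _ => 22) 0 7) 2 4) 0 3) 0 2)) :=
  BlkD.tree_sound (BlkD.pairOk_sound k21_22_7_4) (by decide) hn t21_22_7_4_9 _ _ (by decide +kernel)

/-- certificates of the pair `(7, 4)`, part 10 -/
def t21_22_7_4_10 : BlkD.Tr :=
  .L 6 8 [4, 4, 4, 4, 21] [] [] 100000 33334 33334 1185716 28571 0 28571 85714 0 0 0

lemma s21_22_7_4_10 {n : ℕ} (hn : 7 ≤ n) : NoNd (d21_22_7_4.R : ℤ) d21_22_7_4.H n d21_22_7_4.a d21_22_7_4.b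
    (BlkD.inB (BlkD.upd (BlkD.upd (fun _ => 0) 0 2) 0 3)
      (BlkD.upd (BlkD.upd (BlkD.upd (BlkD.upd (BlkD.upd (BlkD.upd (fun _ => 22) 0 7) 2 4) 0 3) 1 19) 1 9) 1 4)) :=
  BlkD.tree_sound (BlkD.pairOk_sound k21_22_7_4) (by decide) hn t21_22_7_4_10 _ _ (by decide +kernel)

/-- certificates of the pair `(7, 4)`, part 11 -/
def t21_22_7_4_11 : BlkD.Tr :=
  .S 1 6 (.S 1 5 (.L 6 8 [4, 4, 4, 4, 21] [102, 92, 82, 72, 62, 50] [] 100000 27778 27778 1233336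
    33333 0 50000 50000 0 16667 16667) (.L 6 8 [4, 4, 4, 4, 21] [124, 118, 108, 98, 88, 78] []
    100000 36800 36800 1245600 42400 0 75200 42400 800 14400 19200)) (.L 6 8 [4, 4, 4, 4, 21] [143,
    142, 136, 126, 116, 106] [] 100000 28330 28330 1286355 42827 0 57698 42337 455 15815 14101)

lemma s21_22_7_4_11 {n : ℕ} (hn : 7 ≤ n) : NoNd (d21_22_7_4.R : ℤ) d21_22_7_4.H n d21_22_7_4.a d21_22_7_4.b
    (BlkD.inB (BlkD.upd (BlkD.upd (BlkD.upd (fun _ => 0) 0 2) 0 3) 1 5)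
      (BlkD.upd (BlkD.upd (BlkD.upd (BlkD.upd (BlkD.upd (BlkD.upd (fun _ => 22) 0 7) 2 4) 0 3) 1 19) 1 9) 1 7)) :=
  BlkD.tree_sound (BlkD.pairOk_sound k21_22_7_4) (by decide) hn t21_22_7_4_11 _ _ (by decide +kernel)

/-- certificates of the pair `(7, 4)`, part 12 -/
def t21_22_7_4_12 : BlkD.Tr :=
  .S 1 8 (.L 6 8 [4, 4, 4, 4, 21] [164, 163, 162, 156, 146, 136] [] 100000 29554 29554 1235052
    46392 0 79381 34021 1031 9278 10309) (.L 6 8 [4, 4, 4, 4, 21] [187, 186, 185, 184, 178, 168] []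
    100000 33334 20834 1137499 41667 0 112500 50000 0 0 12500)

lemma s21_22_7_4_12 {n : ℕ} (hn : 7 ≤ n) : NoNd (d21_22_7_4.R : ℤ) d21_22_7_4.H n d21_22_7_4.a d21_22_7_4.b
    (BlkD.inB (BlkD.upd (BlkD.upd (BlkD.upd (BlkD.upd (fun _ => 0) 0 2) 0 3) 1 5) 1 8)
      (BlkD.upd (BlkD.upd (BlkD.upd (BlkD.upd (BlkD.upd (fun _ => 22) 0 7) 2 4) 0 3) 1 19) 1 9)) :=
  BlkD.tree_sound (BlkD.pairOk_sound k21_22_7_4) (by decide) hn t21_22_7_4_12 _ _ (by decide +kernel)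

/-- certificates of the pair `(7, 4)`, part 13 -/
def t21_22_7_4_13 : BlkD.Tr :=
  .L 6 8 [4, 4, 4, 4, 21] [] [] 100000 162500 0 0 41667 0 262500 41667 0 0 0

lemma s21_22_7_4_13 {n : ℕ} (hn : 7 ≤ n) : NoNd (d21_22_7_4.R : ℤ) d21_22_7_4.H n d21_22_7_4.a d21_22_7_4.b
    (BlkD.inB (BlkD.upd (BlkD.upd (BlkD.upd (fun _ => 0) 0 2) 0 3) 1 10)
      (BlkD.upd (BlkD.upd (BlkD.upd (BlkD.upd (fun _ => 22) 0 7) 2 4) 0 3) 1 19)) :=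
  BlkD.tree_sound (BlkD.pairOk_sound k21_22_7_4) (by decide) hn t21_22_7_4_13 _ _ (by decide +kernel)

/-- certificates of the pair `(7, 4)`, part 14 -/
def t21_22_7_4_14 : BlkD.Tr :=
  .E 0

lemma s21_22_7_4_14 {n : ℕ} (hn : 7 ≤ n) : NoNd (d21_22_7_4.R : ℤ) d21_22_7_4.H n d21_22_7_4.a d21_22_7_4.b
    (BlkD.inB (BlkD.upd (BlkD.upd (BlkD.upd (fun _ => 0) 0 2) 0 3) 1 20)
      (BlkD.upd (BlkD.upd (BlkD.upd (fun _ => 22) 0 7) 2 4) 0 3)) :=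
  BlkD.tree_sound (BlkD.pairOk_sound k21_22_7_4) (by decide) hn t21_22_7_4_14 _ _ (by decide +kernel)

/-- certificates of the pair `(7, 4)`, part 15 -/
def t21_22_7_4_15 : BlkD.Tr :=
  .L 6 8 [4, 4, 4, 4, 21] [] [] 100000 27778 27778 1266669 33333 0 50000 50000 0 16667 33333

lemma s21_22_7_4_15 {n : ℕ} (hn : 7 ≤ n) : NoNd (d21_22_7_4.R : ℤ) d21_22_7_4.H n d21_22_7_4.a d21_22_7_4.b
    (BlkD.inB (BlkD.upd (fun _ => 0) 0 4)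
      (BlkD.upd (BlkD.upd (BlkD.upd (BlkD.upd (BlkD.upd (BlkD.upd (BlkD.upd (fun _ => 22) 0 7) 2 4) 0 5) 0 4) 1 18) 1 9) 1 4)) :=
  BlkD.tree_sound (BlkD.pairOk_sound k21_22_7_4) (by decide) hn t21_22_7_4_15 _ _ (by decide +kernel)

/-- certificates of the pair `(7, 4)`, part 16 -/
def t21_22_7_4_16 : BlkD.Tr :=
  .S 1 7 (.S 1 6 (.S 1 5 (.L 6 8 [4, 4, 4, 4, 21] [112, 102, 92, 82, 72, 60] [] 100000 27441 27441
    1308985 36812 2319 56522 53623 4058 9565 19710) (.L 6 8 [4, 4, 4, 4, 21] [136, 130, 120, 110,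
    100, 90] [] 100000 23285 23285 1299021 33660 0 83170 50490 9477 11193 18382)) (.L 6 8 [4, 4, 4,
    4, 21] [157, 156, 150, 140, 130, 120] [] 100000 28704 28704 1244449 33333 0 94444 61111 5556
    5556 2778)) (.L 6 8 [4, 4, 4, 4, 21] [] [] 100000 34593 25159 1149056 13208 0 109434 96226 0
    3774 1887)

lemma s21_22_7_4_16 {n : ℕ} (hn : 7 ≤ n) : NoNd (d21_22_7_4.R : ℤ) d21_22_7_4.H n d21_22_7_4.a d21_22_7_4.b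
    (BlkD.inB (BlkD.upd (BlkD.upd (fun _ => 0) 0 4) 1 5)
      (BlkD.upd (BlkD.upd (BlkD.upd (BlkD.upd (BlkD.upd (BlkD.upd (fun _ => 22) 0 7) 2 4) 0 5) 0 4) 1 18) 1 9)) :=
  BlkD.tree_sound (BlkD.pairOk_sound k21_22_7_4) (by decide) hn t21_22_7_4_16 _ _ (by decide +kernel)

/-- certificates of the pair `(7, 4)`, part 17 -/
def t21_22_7_4_17 : BlkD.Tr :=
  .E 0

lemma s21_22_7_4_17 {n : ℕ} (hn : 7 ≤ n) : NoNd (d21_22_7_4.R : ℤ) d21_22_7_4.H n d21_22_7_4.a d21_22_7_4.b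
    (BlkD.inB (BlkD.upd (BlkD.upd (fun _ => 0) 0 4) 1 10)
      (BlkD.upd (BlkD.upd (BlkD.upd (BlkD.upd (BlkD.upd (fun _ => 22) 0 7) 2 4) 0 5) 0 4) 1 18)) :=
  BlkD.tree_sound (BlkD.pairOk_sound k21_22_7_4) (by decide) hn t21_22_7_4_17 _ _ (by decide +kernel)

/-- certificates of the pair `(7, 4)`, part 18 -/
def t21_22_7_4_18 : BlkD.Tr :=
  .E 0

lemma s21_22_7_4_18 {n : ℕ} (hn : 7 ≤ n) : NoNd (d21_22_7_4.R : ℤ) d21_22_7_4.H n d21_22_7_4.a d21_22_7_4.b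
    (BlkD.inB (BlkD.upd (BlkD.upd (fun _ => 0) 0 4) 1 19)
      (BlkD.upd (BlkD.upd (BlkD.upd (BlkD.upd (fun _ => 22) 0 7) 2 4) 0 5) 0 4)) :=
  BlkD.tree_sound (BlkD.pairOk_sound k21_22_7_4) (by decide) hn t21_22_7_4_18 _ _ (by decide +kernel)

/-- certificates of the pair `(7, 4)`, part 19 -/
def t21_22_7_4_19 : BlkD.Tr :=
  .S 1 17 (.S 1 8 (.S 1 4 (.L 6 8 [4, 4, 4, 4, 21] [] [] 100000 22344 22344 1314289 30220 1465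
    90659 58974 9341 14286 26740) (.L 6 8 [4, 4, 4, 4, 21] [] [] 100000 20590 20590 1297961 14286 0
    91156 73469 17143 12245 8844)) (.E 0)) (.E 0)

lemma s21_22_7_4_19 {n : ℕ} (hn : 7 ≤ n) : NoNd (d21_22_7_4.R : ℤ) d21_22_7_4.H n d21_22_7_4.a d21_22_7_4.b
    (BlkD.inB (BlkD.upd (BlkD.upd (fun _ => 0) 0 4) 0 5)
      (BlkD.upd (BlkD.upd (BlkD.upd (fun _ => 22) 0 7) 2 4) 0 5)) :=
  BlkD.tree_sound (BlkD.pairOk_sound k21_22_7_4) (by decide) hn t21_22_7_4_19 _ _ (by decide +kernel)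

/-- certificates of the pair `(7, 4)`, part 20 -/
def t21_22_7_4_20 : BlkD.Tr :=
  .S 0 6 (.S 1 16 (.S 1 8 (.L 6 8 [4, 4, 4, 4, 21] [] [] 100000 12620 12620 1360000 11429 5714
    80000 47143 20000 25000 22143) (.E 0)) (.E 0)) (.L 6 8 [4, 4, 4, 4, 21] [] [] 100000 0 0
    1300001 0 16071 51786 51786 51786 25000 23214)

lemma s21_22_7_4_20 {n : ℕ} (hn : 7 ≤ n) : NoNd (d21_22_7_4.R : ℤ) d21_22_7_4.H n d21_22_7_4.a d21_22_7_4.b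
    (BlkD.inB (BlkD.upd (BlkD.upd (fun _ => 0) 0 4) 0 6)
      (BlkD.upd (BlkD.upd (fun _ => 22) 0 7) 2 4)) :=
  BlkD.tree_sound (BlkD.pairOk_sound k21_22_7_4) (by decide) hn t21_22_7_4_20 _ _ (by decide +kernel)

/-- certificates of the pair `(7, 4)`, part 21 -/
def t21_22_7_4_21 : BlkD.Tr :=
  .E 1

lemma s21_22_7_4_21 {n : ℕ} (hn : 7 ≤ n) : NoNd (d21_22_7_4.R : ℤ) d21_22_7_4.H n d21_22_7_4.a d21_22_7_4.b
    (BlkD.inB (BlkD.upd (fun _ => 0) 2 5)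
      (BlkD.upd (fun _ => 22) 0 7)) :=
  BlkD.tree_sound (BlkD.pairOk_sound k21_22_7_4) (by decide) hn t21_22_7_4_21 _ _ (by decide +kernel)

/-- certificates of the pair `(7, 4)`, part 22 -/
def t21_22_7_4_22 : BlkD.Tr :=
  .E 0

lemma s21_22_7_4_22 {n : ℕ} (hn : 7 ≤ n) : NoNd (d21_22_7_4.R : ℤ) d21_22_7_4.H n d21_22_7_4.a d21_22_7_4.b
    (BlkD.inB (BlkD.upd (fun _ => 0) 0 8)
      (fun _ => 22)) :=
  BlkD.tree_sound (BlkD.pairOk_sound k21_22_7_4) (by decide) hn t21_22_7_4_22 _ _ (by decide +kernel)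

lemma pr21_22_7_4 {n : ℕ} (hn : 7 ≤ n) : NoPr ((21 : ℕ) : ℤ) ((22 : ℕ) : ℤ) n 7 4 :=
  BlkD.of_root (R := d21_22_7_4.R) (H := d21_22_7_4.H) (a := d21_22_7_4.a) (b := d21_22_7_4.b) (q := 5) (by decide) hn
    (BlkD.sp 0 7 (BlkD.sp 2 4 (BlkD.sp 0 3 (BlkD.sp 0 1 (BlkD.sp 0 0 (s21_22_7_4_1 hn) (BlkD.sp 1
      11 (BlkD.sp 1 5 (s21_22_7_4_2 hn) (BlkD.sp 1 8 (s21_22_7_4_3 hn) (s21_22_7_4_4 hn)))
      (s21_22_7_4_5 hn))) (BlkD.sp 0 2 (BlkD.sp 1 11 (BlkD.sp 1 5 (s21_22_7_4_6 hn) (BlkD.sp 1 8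
      (s21_22_7_4_7 hn) (s21_22_7_4_8 hn))) (s21_22_7_4_9 hn)) (BlkD.sp 1 19 (BlkD.sp 1 9 (BlkD.sp
      1 4 (s21_22_7_4_10 hn) (BlkD.sp 1 7 (s21_22_7_4_11 hn) (s21_22_7_4_12 hn))) (s21_22_7_4_13
      hn)) (s21_22_7_4_14 hn)))) (BlkD.sp 0 5 (BlkD.sp 0 4 (BlkD.sp 1 18 (BlkD.sp 1 9 (BlkD.sp 1 4
      (s21_22_7_4_15 hn) (s21_22_7_4_16 hn)) (s21_22_7_4_17 hn)) (s21_22_7_4_18 hn)) (s21_22_7_4_19
      hn)) (s21_22_7_4_20 hn))) (s21_22_7_4_21 hn)) (s21_22_7_4_22 hn))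

end BlkC

end Pool.Agent.Lib.MP_f04ccf_co
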