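import Pool.Agent.Lib.MP_f04ccf_co.M.BlkT

/-!
MP_f04ccf_co, block certificate, data `R = 22`, `H = 22`, part 1 (generated, helper99:
bd10.cpp, gen2.py).
-/

set_option autoImplicit false
set_option maxRecDepth 100000

namespace Pool.Agent.Lib.MP_f04ccf_co

namespace BlkC

/-- the numbers of the pair `(0, 0)`, `R = 22`, `H = 22` -/
def d22_22_0_0 : BlkD.Pd :=
  ⟨22, 22, 3, 0, 0, 19, 0, 1, 0, 4, 4, 0, 0, 4, 4, 0, [0, 4, 8, 12, 16, 20, 24, 28, 32, 36, 40, 44,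
    48, 52, 56, 60, 64, 68, 72, 76], [0, 4, 8, 12, 16, 20, 24, 28, 32, 36, 40, 44, 48, 52, 56, 60,
    64, 68, 72, 76], [⟨1, 1, 1, 4, 8, [0, 4], [0, 4]⟩]⟩

/-- the certificates of the pair `(0, 0)` -/
def t22_22_0_0 : BlkD.Tr :=
  .S 0 0 (.S 2 0 (.L 4 4 [4] [] [] 100000 0 0 100000 0 0 100000 0 0 0 0) (.E 1)) (.E 0)

lemma pr22_22_0_0 {n : ℕ} (hn : 5 ≤ n) : NoPr ((22 : ℕ) : ℤ) ((22 : ℕ) : ℤ) n 0 0 :=
  BlkD.pair_sound (d := d22_22_0_0) (by decide +kernel) hn (by decide) (tr := t22_22_0_0)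
    (by decide +kernel) rfl rfl rfl rfl

/-- the numbers of the pair `(1, 0)`, `R = 22`, `H = 22` -/
def d22_22_1_0 : BlkD.Pd :=
  ⟨22, 22, 3, 1, 0, 18, 0, 1, 0, 4, 4, 0, 0, 4, 4, 0, [0, 4, 8, 12, 16, 20, 24, 28, 32, 36, 40, 44,
    48, 52, 56, 60, 64, 68, 72], [0, 4, 8, 12, 16, 20, 24, 28, 32, 36, 40, 44, 48, 52, 56, 60, 64,
    68, 72], [⟨1, 1, 1, 4, 8, [0, 4], [0, 4]⟩]⟩

/-- the certificates of the pair `(1, 0)` -/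
def t22_22_1_0 : BlkD.Tr :=
  .S 0 1 (.S 2 0 (.L 4 4 [4] [] [] 100000 0 0 200000 0 0 0 100000 0 0 0) (.E 1)) (.E 0)

lemma pr22_22_1_0 {n : ℕ} (hn : 5 ≤ n) : NoPr ((22 : ℕ) : ℤ) ((22 : ℕ) : ℤ) n 1 0 :=
  BlkD.pair_sound (d := d22_22_1_0) (by decide +kernel) hn (by decide) (tr := t22_22_1_0)
    (by decide +kernel) rfl rfl rfl rfl

/-- the numbers of the pair `(1, 1)`, `R = 22`, `H = 22` -/
def d22_22_1_1 : BlkD.Pd :=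
  ⟨22, 22, 3, 1, 1, 17, 1, 1, 0, 4, 4, 0, 0, 4, 4, 0, [0, 4, 8, 12, 16, 20, 24, 28, 32, 36, 40, 44,
    48, 52, 56, 60, 64, 68], [0, 4, 8, 12, 16, 20, 24, 28, 32, 36, 40, 44, 48, 52, 56, 60, 64, 68],
    [⟨1, 1, 1, 4, 8, [0, 4], [0, 4]⟩, ⟨1, 1, 1, 4, 8, [0, 4], [0, 4]⟩]⟩

/-- the certificates of the pair `(1, 1)` -/
def t22_22_1_1 : BlkD.Tr :=
  .S 0 1 (.S 2 1 (.L 4 4 [4, 4] [] [] 100000 0 0 400000 0 0 0 0 0 0 0) (.E 1)) (.E 0)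

lemma pr22_22_1_1 {n : ℕ} (hn : 5 ≤ n) : NoPr ((22 : ℕ) : ℤ) ((22 : ℕ) : ℤ) n 1 1 :=
  BlkD.pair_sound (d := d22_22_1_1) (by decide +kernel) hn (by decide) (tr := t22_22_1_1)
    (by decide +kernel) rfl rfl rfl rfl

/-- the numbers of the pair `(2, 0)`, `R = 22`, `H = 22` -/
def d22_22_2_0 : BlkD.Pd :=
  ⟨22, 22, 3, 2, 0, 17, 0, 1, 0, 4, 4, 0, 0, 4, 4, 0, [0, 4, 8, 12, 16, 20, 24, 28, 32, 36, 40, 44,
    48, 52, 56, 60, 64, 68], [0, 4, 8, 12, 16, 20, 24, 28, 32, 36, 40, 44, 48, 52, 56, 60, 64, 68],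
    [⟨1, 1, 1, 4, 8, [0, 4], [0, 4]⟩]⟩

/-- the certificates of the pair `(2, 0)` -/
def t22_22_2_0 : BlkD.Tr :=
  .S 0 2 (.S 2 0 (.L 4 4 [4] [] [] 100000 0 0 300000 0 0 0 100000 0 0 0) (.E 1)) (.E 0)

lemma pr22_22_2_0 {n : ℕ} (hn : 5 ≤ n) : NoPr ((22 : ℕ) : ℤ) ((22 : ℕ) : ℤ) n 2 0 :=
  BlkD.pair_sound (d := d22_22_2_0) (by decide +kernel) hn (by decide) (tr := t22_22_2_0)
    (by decide +kernel) rfl rfl rfl rfl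

/-- the numbers of the pair `(2, 1)`, `R = 22`, `H = 22` -/
def d22_22_2_1 : BlkD.Pd :=
  ⟨22, 22, 3, 2, 1, 16, 1, 1, 0, 4, 4, 0, 0, 4, 4, 0, [0, 4, 8, 12, 16, 20, 24, 28, 32, 36, 40, 44,
    48, 52, 56, 60, 64], [0, 4, 8, 12, 16, 20, 24, 28, 32, 36, 40, 44, 48, 52, 56, 60, 64], [⟨1, 1,
    1, 4, 8, [0, 4], [0, 4]⟩, ⟨1, 1, 1, 4, 8, [0, 4], [0, 4]⟩]⟩

/-- the certificates of the pair `(2, 1)` -/
def t22_22_2_1 : BlkD.Tr :=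
  .S 0 2 (.S 2 1 (.L 4 4 [4, 4] [] [] 100000 0 0 500000 0 0 0 0 0 0 0) (.E 1)) (.E 0)

lemma pr22_22_2_1 {n : ℕ} (hn : 5 ≤ n) : NoPr ((22 : ℕ) : ℤ) ((22 : ℕ) : ℤ) n 2 1 :=
  BlkD.pair_sound (d := d22_22_2_1) (by decide +kernel) hn (by decide) (tr := t22_22_2_1)
    (by decide +kernel) rfl rfl rfl rfl

/-- the numbers of the pair `(2, 2)`, `R = 22`, `H = 22` -/
def d22_22_2_2 : BlkD.Pd :=
  ⟨22, 22, 3, 2, 2, 15, 2, 1, 0, 4, 6, 0, 0, 4, 6, 0, [0, 6, 12, 18, 24, 30, 36, 42, 48, 54, 60,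
    60, 60, 60, 60, 60], [0, 6, 12, 18, 24, 30, 36, 42, 48, 54, 60, 60, 60, 60, 60, 60], [⟨1, 1, 1,
    4, 8, [0, 4], [0, 4]⟩, ⟨1, 1, 1, 4, 8, [0, 4], [0, 4]⟩, ⟨1, 1, 1, 6, 12, [0, 6], [0, 6]⟩]⟩

/-- the certificates of the pair `(2, 2)` -/
def t22_22_2_2 : BlkD.Tr :=
  .S 0 2 (.S 2 2 (.L 4 4 [4, 4, 5] [] [] 100000 0 0 600000 0 0 0 0 0 0 0) (.E 1)) (.E 0)

lemma pr22_22_2_2 {n : ℕ} (hn : 5 ≤ n) : NoPr ((22 : ℕ) : ℤ) ((22 : ℕ) : ℤ) n 2 2 :=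
  BlkD.pair_sound (d := d22_22_2_2) (by decide +kernel) hn (by decide) (tr := t22_22_2_2)
    (by decide +kernel) rfl rfl rfl rfl

/-- the numbers of the pair `(3, 0)`, `R = 22`, `H = 22` -/
def d22_22_3_0 : BlkD.Pd :=
  ⟨22, 22, 3, 3, 0, 16, 0, 1, 0, 4, 4, 0, 0, 4, 4, 0, [0, 4, 8, 12, 16, 20, 24, 28, 32, 36, 40, 44,
    48, 52, 56, 60, 64], [0, 4, 8, 12, 16, 20, 24, 28, 32, 36, 40, 44, 48, 52, 56, 60, 64], [⟨1, 1,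
    1, 4, 8, [0, 4], [0, 4]⟩]⟩

/-- the certificates of the pair `(3, 0)` -/
def t22_22_3_0 : BlkD.Tr :=
  .S 0 3 (.S 2 0 (.L 4 4 [4] [] [] 100000 0 0 400000 0 0 0 100000 0 0 0) (.E 1)) (.E 0)

lemma pr22_22_3_0 {n : ℕ} (hn : 5 ≤ n) : NoPr ((22 : ℕ) : ℤ) ((22 : ℕ) : ℤ) n 3 0 :=
  BlkD.pair_sound (d := d22_22_3_0) (by decide +kernel) hn (by decide) (tr := t22_22_3_0)
    (by decide +kernel) rfl rfl rfl rfl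

/-- the numbers of the pair `(3, 1)`, `R = 22`, `H = 22` -/
def d22_22_3_1 : BlkD.Pd :=
  ⟨22, 22, 3, 3, 1, 15, 1, 1, 0, 4, 6, 0, 0, 4, 4, 0, [0, 6, 12, 18, 24, 30, 36, 42, 48, 54, 60,
    60, 60, 60, 60, 60], [0, 4, 8, 12, 16, 20, 24, 28, 32, 36, 40, 44, 48, 52, 56, 60], [⟨1, 1, 1,
    4, 8, [0, 4], [0, 4]⟩, ⟨1, 1, 1, 4, 10, [0, 6], [0, 4]⟩]⟩

/-- the certificates of the pair `(3, 1)` -/
def t22_22_3_1 : BlkD.Tr :=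
  .S 0 3 (.S 2 1 (.L 4 5 [4, 4] [] [] 100000 0 0 600000 0 0 25000 0 0 0 0) (.E 1)) (.E 0)

lemma pr22_22_3_1 {n : ℕ} (hn : 5 ≤ n) : NoPr ((22 : ℕ) : ℤ) ((22 : ℕ) : ℤ) n 3 1 :=
  BlkD.pair_sound (d := d22_22_3_1) (by decide +kernel) hn (by decide) (tr := t22_22_3_1)
    (by decide +kernel) rfl rfl rfl rfl

/-- the numbers of the pair `(3, 2)`, `R = 22`, `H = 22` -/
def d22_22_3_2 : BlkD.Pd :=
  ⟨22, 22, 3, 3, 2, 14, 2, 1, 0, 4, 6, 0, 0, 4, 6, 0, [0, 6, 12, 18, 24, 30, 36, 42, 48, 54, 56,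
    56, 56, 56, 56], [0, 6, 12, 18, 24, 30, 36, 42, 48, 54, 56, 56, 56, 56, 56], [⟨1, 1, 1, 4, 8,
    [0, 4], [0, 4]⟩, ⟨1, 1, 1, 4, 10, [0, 6], [0, 4]⟩, ⟨1, 1, 1, 6, 12, [0, 6], [0, 6]⟩]⟩

/-- the certificates of the pair `(3, 2)` -/
def t22_22_3_2 : BlkD.Tr :=
  .S 0 3 (.S 2 2 (.L 4 5 [4, 4, 5] [] [] 100000 0 0 700000 0 0 25000 0 0 0 0) (.E 1)) (.E 0)

lemma pr22_22_3_2 {n : ℕ} (hn : 5 ≤ n) : NoPr ((22 : ℕ) : ℤ) ((22 : ℕ) : ℤ) n 3 2 :=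
  BlkD.pair_sound (d := d22_22_3_2) (by decide +kernel) hn (by decide) (tr := t22_22_3_2)
    (by decide +kernel) rfl rfl rfl rfl

/-- the numbers of the pair `(3, 3)`, `R = 22`, `H = 22` -/
def d22_22_3_3 : BlkD.Pd :=
  ⟨22, 22, 3, 3, 3, 13, 3, 1, 4, 1, 8, 0, 4, 1, 8, 0, [0, 8, 16, 24, 29, 33, 37, 41, 45, 49, 53,
    57, 61, 65], [0, 8, 16, 24, 29, 33, 37, 41, 45, 49, 53, 57, 61, 65], [⟨1, 1, 1, 4, 8, [0, 4],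
    [0, 4]⟩, ⟨1, 1, 1, 6, 12, [0, 6], [0, 6]⟩, ⟨1, 1, 1, 6, 12, [0, 6], [0, 6]⟩, ⟨1, 1, 1, 8, 16,
    [0, 8], [0, 8]⟩]⟩

/-- the certificates of the pair `(3, 3)` -/
def t22_22_3_3 : BlkD.Tr :=
  .S 0 3 (.S 2 3 (.L 5 5 [4, 4, 5, 5] [] [] 100000 1154 0 800000 0 0 50000 50000 30769 30769 33846)
    (.E 1)) (.E 0)

lemma pr22_22_3_3 {n : ℕ} (hn : 5 ≤ n) : NoPr ((22 : ℕ) : ℤ) ((22 : ℕ) : ℤ) n 3 3 :=
  BlkD.pair_sound (d := d22_22_3_3) (by decide +kernel) hn (by decide) (tr := t22_22_3_3)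
    (by decide +kernel) rfl rfl rfl rfl

/-- the numbers of the pair `(4, 0)`, `R = 22`, `H = 22` -/
def d22_22_4_0 : BlkD.Pd :=
  ⟨22, 22, 3, 4, 0, 15, 0, 1, 0, 4, 4, 0, 0, 4, 4, 0, [0, 4, 8, 12, 16, 20, 24, 28, 32, 36, 40, 44,
    48, 52, 56, 60], [0, 4, 8, 12, 16, 20, 24, 28, 32, 36, 40, 44, 48, 52, 56, 60], [⟨1, 1, 1, 4,
    8, [0, 4], [0, 4]⟩]⟩

/-- the certificates of the pair `(4, 0)` -/
def t22_22_4_0 : BlkD.Tr :=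
  .S 0 4 (.S 2 0 (.L 4 4 [4] [] [] 100000 0 0 525000 0 0 25000 75000 0 0 0) (.E 1)) (.E 0)

lemma pr22_22_4_0 {n : ℕ} (hn : 5 ≤ n) : NoPr ((22 : ℕ) : ℤ) ((22 : ℕ) : ℤ) n 4 0 :=
  BlkD.pair_sound (d := d22_22_4_0) (by decide +kernel) hn (by decide) (tr := t22_22_4_0)
    (by decide +kernel) rfl rfl rfl rfl

/-- the numbers of the pair `(4, 1)`, `R = 22`, `H = 22` -/
def d22_22_4_1 : BlkD.Pd :=
  ⟨22, 22, 3, 4, 1, 14, 1, 1, 0, 4, 6, 0, 0, 4, 4, 0, [0, 6, 12, 18, 24, 30, 36, 42, 48, 54, 56,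
    56, 56, 56, 56], [0, 4, 8, 12, 16, 20, 24, 28, 32, 36, 40, 44, 48, 52, 56], [⟨1, 1, 1, 4, 8,
    [0, 4], [0, 4]⟩, ⟨1, 1, 1, 4, 10, [0, 6], [0, 4]⟩]⟩

/-- the certificates of the pair `(4, 1)` -/
def t22_22_4_1 : BlkD.Tr :=
  .S 0 4 (.S 2 1 (.L 4 5 [4, 4] [] [] 100000 0 0 700001 0 0 33333 0 0 0 0) (.E 1)) (.E 0)

lemma pr22_22_4_1 {n : ℕ} (hn : 5 ≤ n) : NoPr ((22 : ℕ) : ℤ) ((22 : ℕ) : ℤ) n 4 1 :=
  BlkD.pair_sound (d := d22_22_4_1) (by decide +kernel) hn (by decide) (tr := t22_22_4_1)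
    (by decide +kernel) rfl rfl rfl rfl

/-- the numbers of the pair `(4, 2)`, `R = 22`, `H = 22` -/
def d22_22_4_2 : BlkD.Pd :=
  ⟨22, 22, 3, 4, 2, 13, 2, 1, 2, 2, 8, 0, 0, 4, 6, 0, [0, 8, 16, 24, 32, 36, 38, 40, 42, 44, 46,
    48, 50, 52], [0, 6, 12, 18, 24, 30, 36, 42, 48, 52, 52, 52, 52, 52], [⟨1, 1, 1, 4, 8, [0, 4],
    [0, 4]⟩, ⟨1, 1, 1, 4, 10, [0, 6], [0, 4]⟩, ⟨1, 1, 1, 6, 14, [0, 8], [0, 6]⟩]⟩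

/-- the certificates of the pair `(4, 2)` -/
def t22_22_4_2 : BlkD.Tr :=
  .S 0 4 (.S 2 2 (.L 4 5 [4, 4, 5] [] [] 100000 0 0 800000 0 0 50000 0 0 0 0) (.E 1)) (.E 0)

lemma pr22_22_4_2 {n : ℕ} (hn : 5 ≤ n) : NoPr ((22 : ℕ) : ℤ) ((22 : ℕ) : ℤ) n 4 2 :=
  BlkD.pair_sound (d := d22_22_4_2) (by decide +kernel) hn (by decide) (tr := t22_22_4_2)
    (by decide +kernel) rfl rfl rfl rfl

/-- the numbers of the pair `(4, 3)`, `R = 22`, `H = 22` -/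
def d22_22_4_3 : BlkD.Pd :=
  ⟨22, 22, 3, 4, 3, 12, 3, 1, 2, 2, 8, 0, 4, 1, 8, 0, [0, 8, 16, 24, 32, 34, 36, 38, 40, 42, 44,
    46, 48], [0, 8, 16, 24, 28, 32, 36, 40, 44, 48, 52, 56, 60], [⟨1, 1, 1, 4, 8, [0, 4], [0, 4]⟩,
    ⟨1, 1, 1, 6, 12, [0, 6], [0, 6]⟩, ⟨1, 1, 1, 6, 14, [0, 8], [0, 6]⟩, ⟨1, 1, 1, 8, 16, [0, 8],
    [0, 8]⟩]⟩

/-- the certificates of the pair `(4, 3)` -/
def t22_22_4_3 : BlkD.Tr :=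
  .S 0 4 (.S 2 3 (.S 0 2 (.S 0 1 (.L 5 5 [4, 4, 5, 5] [] [] 100000 1852 0 900004 0 0 50000 50000
    25000 29167 38426) (.L 5 5 [4, 4, 5, 5] [] [] 100000 1852 0 900004 0 0 50000 50000 25000 29167
    38426)) (.L 5 5 [4, 4, 5, 5] [] [] 100000 1852 0 900004 0 0 50000 50000 25000 29167 38426)) (.E
    1)) (.E 0)

lemma pr22_22_4_3 {n : ℕ} (hn : 5 ≤ n) : NoPr ((22 : ℕ) : ℤ) ((22 : ℕ) : ℤ) n 4 3 :=
  BlkD.pair_sound (d := d22_22_4_3) (by decide +kernel) hn (by decide) (tr := t22_22_4_3)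
    (by decide +kernel) rfl rfl rfl rfl

/-- the numbers of the pair `(5, 0)`, `R = 22`, `H = 22` -/
def d22_22_5_0 : BlkD.Pd :=
  ⟨22, 22, 3, 5, 0, 14, 0, 1, 0, 4, 4, 0, 0, 4, 4, 0, [0, 4, 8, 12, 16, 20, 24, 28, 32, 36, 40, 44,
    48, 52, 56], [0, 4, 8, 12, 16, 20, 24, 28, 32, 36, 40, 44, 48, 52, 56], [⟨1, 1, 1, 4, 8, [0,
    4], [0, 4]⟩]⟩

/-- the certificates of the pair `(5, 0)` -/
def t22_22_5_0 : BlkD.Tr :=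
  .S 0 5 (.S 2 0 (.L 4 4 [4] [] [] 100000 0 0 600001 33333 0 33333 66667 0 0 0) (.E 1)) (.E 0)

lemma pr22_22_5_0 {n : ℕ} (hn : 5 ≤ n) : NoPr ((22 : ℕ) : ℤ) ((22 : ℕ) : ℤ) n 5 0 :=
  BlkD.pair_sound (d := d22_22_5_0) (by decide +kernel) hn (by decide) (tr := t22_22_5_0)
    (by decide +kernel) rfl rfl rfl rfl

/-- the numbers of the pair `(5, 1)`, `R = 22`, `H = 22` -/
def d22_22_5_1 : BlkD.Pd :=
  ⟨22, 22, 3, 5, 1, 13, 1, 1, 0, 4, 6, 0, 0, 4, 4, 0, [0, 6, 12, 18, 24, 30, 36, 42, 48, 52, 52,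
    52, 52, 52], [0, 4, 8, 12, 16, 20, 24, 28, 32, 36, 40, 44, 48, 52], [⟨1, 1, 1, 4, 8, [0, 4],
    [0, 4]⟩, ⟨1, 1, 1, 4, 10, [0, 6], [0, 4]⟩]⟩

/-- the certificates of the pair `(5, 1)` -/
def t22_22_5_1 : BlkD.Tr :=
  .S 0 5 (.S 2 1 (.L 4 5 [4, 4] [] [] 100000 0 0 780000 20000 0 40000 0 0 0 0) (.E 1)) (.E 0)

lemma pr22_22_5_1 {n : ℕ} (hn : 5 ≤ n) : NoPr ((22 : ℕ) : ℤ) ((22 : ℕ) : ℤ) n 5 1 :=
  BlkD.pair_sound (d := d22_22_5_1) (by decide +kernel) hn (by decide) (tr := t22_22_5_1)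
    (by decide +kernel) rfl rfl rfl rfl

/-- the numbers of the pair `(5, 2)`, `R = 22`, `H = 22` -/
def d22_22_5_2 : BlkD.Pd :=
  ⟨22, 22, 3, 5, 2, 12, 2, 1, 2, 2, 8, 0, 0, 4, 6, 0, [0, 8, 16, 24, 32, 34, 36, 38, 40, 42, 44,
    46, 48], [0, 6, 12, 18, 24, 30, 36, 42, 48, 48, 48, 48, 48], [⟨1, 1, 1, 4, 8, [0, 4], [0, 4]⟩,
    ⟨1, 1, 1, 4, 10, [0, 6], [0, 4]⟩, ⟨1, 1, 1, 6, 14, [0, 8], [0, 6]⟩]⟩

/-- the certificates of the pair `(5, 2)` -/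
def t22_22_5_2 : BlkD.Tr :=
  .S 0 5 (.S 2 2 (.S 0 2 (.S 0 1 (.L 4 5 [4, 4, 5] [] [] 100000 2084 2 875000 25000 0 50000 0 6250
    6250 6250) (.L 4 5 [4, 4, 5] [] [] 100000 2084 2 875000 25000 0 50000 0 6250 6250 6250)) (.L 4
    5 [4, 4, 5] [] [] 100000 2084 2 875000 25000 0 50000 0 6250 6250 6250)) (.E 1)) (.E 0)

lemma pr22_22_5_2 {n : ℕ} (hn : 5 ≤ n) : NoPr ((22 : ℕ) : ℤ) ((22 : ℕ) : ℤ) n 5 2 :=
  BlkD.pair_sound (d := d22_22_5_2) (by decide +kernel) hn (by decide) (tr := t22_22_5_2)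
    (by decide +kernel) rfl rfl rfl rfl

/-- the numbers of the pair `(5, 3)`, `R = 22`, `H = 22` -/
def d22_22_5_3 : BlkD.Pd :=
  ⟨22, 22, 3, 5, 3, 11, 3, 1, 2, 2, 10, 0, 4, 1, 8, 0, [0, 10, 20, 28, 30, 32, 34, 36, 38, 40, 42,
    44], [0, 8, 16, 23, 27, 31, 35, 39, 43, 47, 51, 55], [⟨1, 1, 1, 4, 8, [0, 4], [0, 4]⟩, ⟨1, 1,
    1, 6, 12, [0, 6], [0, 6]⟩, ⟨1, 1, 1, 6, 14, [0, 8], [0, 6]⟩, ⟨1, 1, 1, 8, 18, [0, 10], [0,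
    8]⟩]⟩

lemma k22_22_5_3 : BlkD.pairOk d22_22_5_3 = true := by decide +kernel

/-- certificates of the pair `(5, 3)`, part 1 -/
def t22_22_5_3_1 : BlkD.Tr :=
  .S 0 1 (.L 5 6 [4, 4, 5, 5] [] [] 100000 3599 3598 1020001 0 0 80000 50000 20000 29091 40114) (.L
    5 6 [4, 4, 5, 5] [] [] 100000 3599 3598 1020001 0 0 80000 50000 20000 29091 40114)

lemma s22_22_5_3_1 {n : ℕ} (hn : 5 ≤ n) : NoNd (d22_22_5_3.R : ℤ) d22_22_5_3.H n d22_22_5_3.a d22_22_5_3.b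
    (BlkD.inB (fun _ => 0)
      (BlkD.upd (BlkD.upd (BlkD.upd (fun _ => 22) 0 5) 2 3) 0 2)) :=
  BlkD.tree_sound (BlkD.pairOk_sound k22_22_5_3) (by decide) hn t22_22_5_3_1 _ _ (by decide +kernel)

/-- certificates of the pair `(5, 3)`, part 2 -/
def t22_22_5_3_2 : BlkD.Tr :=
  .L 5 6 [4, 4, 5, 5] [] [] 100000 3599 3598 1020001 0 0 80000 50000 20000 29091 40114

lemma s22_22_5_3_2 {n : ℕ} (hn : 5 ≤ n) : NoNd (d22_22_5_3.R : ℤ) d22_22_5_3.H n d22_22_5_3.a d22_22_5_3.b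
    (BlkD.inB (BlkD.upd (fun _ => 0) 0 3)
      (BlkD.upd (BlkD.upd (fun _ => 22) 0 5) 2 3)) :=
  BlkD.tree_sound (BlkD.pairOk_sound k22_22_5_3) (by decide) hn t22_22_5_3_2 _ _ (by decide +kernel)

/-- certificates of the pair `(5, 3)`, part 3 -/
def t22_22_5_3_3 : BlkD.Tr :=
  .E 1

lemma s22_22_5_3_3 {n : ℕ} (hn : 5 ≤ n) : NoNd (d22_22_5_3.R : ℤ) d22_22_5_3.H n d22_22_5_3.a d22_22_5_3.b
    (BlkD.inB (BlkD.upd (fun _ => 0) 2 4)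
      (BlkD.upd (fun _ => 22) 0 5)) :=
  BlkD.tree_sound (BlkD.pairOk_sound k22_22_5_3) (by decide) hn t22_22_5_3_3 _ _ (by decide +kernel)

/-- certificates of the pair `(5, 3)`, part 4 -/
def t22_22_5_3_4 : BlkD.Tr :=
  .E 0

lemma s22_22_5_3_4 {n : ℕ} (hn : 5 ≤ n) : NoNd (d22_22_5_3.R : ℤ) d22_22_5_3.H n d22_22_5_3.a d22_22_5_3.b
    (BlkD.inB (BlkD.upd (fun _ => 0) 0 6)
      (fun _ => 22)) :=
  BlkD.tree_sound (BlkD.pairOk_sound k22_22_5_3) (by decide) hn t22_22_5_3_4 _ _ (by decide +kernel)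

lemma pr22_22_5_3 {n : ℕ} (hn : 5 ≤ n) : NoPr ((22 : ℕ) : ℤ) ((22 : ℕ) : ℤ) n 5 3 :=
  BlkD.of_root (R := d22_22_5_3.R) (H := d22_22_5_3.H) (a := d22_22_5_3.a) (b := d22_22_5_3.b) (q := 3) (by decide) hn
    (BlkD.sp 0 5 (BlkD.sp 2 3 (BlkD.sp 0 2 (s22_22_5_3_1 hn) (s22_22_5_3_2 hn)) (s22_22_5_3_3 hn))
      (s22_22_5_3_4 hn))

/-- the numbers of the pair `(5, 4)`, `R = 22`, `H = 22` -/
def d22_22_5_4 : BlkD.Pd :=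
  ⟨22, 22, 3, 5, 4, 10, 4, 2, 2, 2, 10, 0, 2, 2, 10, 0, [0, 10, 20, 26, 28, 30, 32, 34, 36, 38,
    40], [0, 10, 20, 26, 28, 30, 32, 34, 36, 38, 40], [⟨1, 1, 1, 4, 8, [0, 4], [0, 4]⟩, ⟨1, 1, 1,
    6, 12, [0, 6], [0, 6]⟩, ⟨1, 1, 1, 8, 16, [0, 8], [0, 8]⟩, ⟨1, 1, 1, 8, 18, [0, 10], [0, 8]⟩,
    ⟨2, 1, 1, 8, 24, [0, 10, 14], [0, 10]⟩]⟩

lemma k22_22_5_4 : BlkD.pairOk d22_22_5_4 = true := by decide +kernel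

/-- certificates of the pair `(5, 4)`, part 1 -/
def t22_22_5_4_1 : BlkD.Tr :=
  .L 5 6 [4, 4, 5, 5, 6] [] [] 100000 19124 19122 1058208 24630 0 43272 38086 11751 16938 28815

lemma s22_22_5_4_1 {n : ℕ} (hn : 5 ≤ n) : NoNd (d22_22_5_4.R : ℤ) d22_22_5_4.H n d22_22_5_4.a d22_22_5_4.b
    (BlkD.inB (fun _ => 0)
      (BlkD.upd (BlkD.upd (BlkD.upd (BlkD.upd (BlkD.upd (fun _ => 22) 0 5) 2 4) 0 2) 0 1) 0 0)) :=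
  BlkD.tree_sound (BlkD.pairOk_sound k22_22_5_4) (by decide) hn t22_22_5_4_1 _ _ (by decide +kernel)

/-- certificates of the pair `(5, 4)`, part 2 -/
def t22_22_5_4_2 : BlkD.Tr :=
  .S 1 11 (.S 1 5 (.S 1 2 (.L 5 6 [4, 4, 5, 5, 6] [] [] 100000 19124 19122 1058208 24630 0 43272
    38086 11751 16938 28815) (.L 5 6 [4, 4, 5, 5, 6] [] [] 100000 19124 19122 1058208 24630 0 43272
    38086 11751 16938 28815)) (.L 5 6 [4, 4, 5, 5, 6] [] [] 100000 19124 19122 1058208 24630 0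
    43272 38086 11751 16938 28815)) (.L 5 6 [4, 4, 5, 5, 6] [] [] 100000 19124 19122 1058208 24630
    0 43272 38086 11751 16938 28815)

lemma s22_22_5_4_2 {n : ℕ} (hn : 5 ≤ n) : NoNd (d22_22_5_4.R : ℤ) d22_22_5_4.H n d22_22_5_4.a d22_22_5_4.b
    (BlkD.inB (BlkD.upd (fun _ => 0) 0 1)
      (BlkD.upd (BlkD.upd (BlkD.upd (BlkD.upd (fun _ => 22) 0 5) 2 4) 0 2) 0 1)) :=
  BlkD.tree_sound (BlkD.pairOk_sound k22_22_5_4) (by decide) hn t22_22_5_4_2 _ _ (by decide +kernel)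

/-- certificates of the pair `(5, 4)`, part 3 -/
def t22_22_5_4_3 : BlkD.Tr :=
  .S 1 20 (.S 1 10 (.S 1 5 (.S 1 2 (.L 5 6 [4, 4, 5, 5, 6] [] [] 100000 25000 24998 925000 37500 0
    37500 25000 0 8333 33333) (.S 1 4 (.S 1 3 (.L 5 6 [4, 4, 5, 5, 6] [48, 38, 28, 18, 0, 0] []
    100000 21297 21297 1021216 26263 0 55892 17508 7407 19529 33333) (.S 2 2 (.S 2 1 (.L 5 6 [4, 4,
    5, 5, 6] [64, 58, 48, 38, 28, 0] [] 100000 16415 16414 1077993 3774 25786 38805 29560 17170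
    22642 25786) (.L 5 6 [4, 4, 5, 5, 6] [64, 58, 48, 38, 28, 0] [] 100000 12500 12500 1103848
    11538 0 40385 50000 25000 25000 25000)) (.L 5 6 [4, 4, 5, 5, 6] [64, 58, 48, 38, 28, 0] []
    100000 12500 12500 1101924 5769 0 32692 75000 25000 25000 25000))) (.S 2 2 (.S 2 1 (.L 5 6 [4,
    4, 5, 5, 6] [80, 76, 70, 60, 50, 40] [] 100000 14356 14356 1055470 0 28906 28906 64453 45312
    16797 25781) (.L 5 6 [4, 4, 5, 5, 6] [80, 76, 70, 60, 50, 40] [] 100000 13328 13328 1096640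
    17560 0 33123 53312 39853 19664 27024)) (.L 5 6 [4, 4, 5, 5, 6] [80, 76, 70, 60, 50, 40] []
    100000 11042 11042 1106251 15417 0 32083 50000 40000 34583 27917)))) (.L 5 6 [4, 4, 5, 5, 6] []
    [] 100000 21111 21111 995560 0 0 80000 64444 20000 15556 20000)) (.E 0)) (.E 0)

lemma s22_22_5_4_3 {n : ℕ} (hn : 5 ≤ n) : NoNd (d22_22_5_4.R : ℤ) d22_22_5_4.H n d22_22_5_4.a d22_22_5_4.b
    (BlkD.inB (BlkD.upd (fun _ => 0) 0 2)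
      (BlkD.upd (BlkD.upd (BlkD.upd (fun _ => 22) 0 5) 2 4) 0 2)) :=
  BlkD.tree_sound (BlkD.pairOk_sound k22_22_5_4) (by decide) hn t22_22_5_4_3 _ _ (by decide +kernel)

/-- certificates of the pair `(5, 4)`, part 4 -/
def t22_22_5_4_4 : BlkD.Tr :=
  .S 0 4 (.S 0 3 (.S 1 19 (.S 1 9 (.S 1 4 (.S 1 2 (.L 5 6 [4, 4, 5, 5, 6] [] [] 100000 21428 21426
    1014290 42857 0 50000 28571 7143 21429 35714) (.S 1 3 (.L 5 6 [4, 4, 5, 5, 6] [54, 44, 34, 24,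
    0, 0] [] 100000 11806 11806 1073611 15278 0 48611 47222 37500 23611 29167) (.S 2 2 (.S 2 1 (.L
    5 6 [4, 4, 5, 5, 6] [72, 66, 56, 46, 36, 0] [] 100000 13929 13929 1057145 0 28571 28571 64286
    45714 18571 25714) (.L 5 6 [4, 4, 5, 5, 6] [72, 66, 56, 46, 36, 0] [] 100000 11743 11743
    1107071 22222 0 26263 50000 62626 19697 33333)) (.L 5 6 [4, 4, 5, 5, 6] [72, 66, 56, 46, 36, 0]
    [] 100000 8333 8331 1116668 20833 0 20833 50000 66667 33333 33333)))) (.L 5 6 [4, 4, 5, 5, 6]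
    [] [] 100000 41270 15080 732541 0 0 126190 88889 0 11111 16667)) (.E 0)) (.E 0)) (.L 5 6 [4, 4,
    5, 5, 6] [] [] 100000 11875 11875 1100000 0 0 50000 50000 32500 20000 32500)) (.L 5 6 [4, 4, 5,
    5, 6] [] [] 100000 5050 5048 1097980 0 2020 2020 50000 50000 29798 50000)

lemma s22_22_5_4_4 {n : ℕ} (hn : 5 ≤ n) : NoNd (d22_22_5_4.R : ℤ) d22_22_5_4.H n d22_22_5_4.a d22_22_5_4.b
    (BlkD.inB (BlkD.upd (fun _ => 0) 0 3)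
      (BlkD.upd (BlkD.upd (fun _ => 22) 0 5) 2 4)) :=
  BlkD.tree_sound (BlkD.pairOk_sound k22_22_5_4) (by decide) hn t22_22_5_4_4 _ _ (by decide +kernel)

/-- certificates of the pair `(5, 4)`, part 5 -/
def t22_22_5_4_5 : BlkD.Tr :=
  .E 1

lemma s22_22_5_4_5 {n : ℕ} (hn : 5 ≤ n) : NoNd (d22_22_5_4.R : ℤ) d22_22_5_4.H n d22_22_5_4.a d22_22_5_4.b
    (BlkD.inB (BlkD.upd (fun _ => 0) 2 5)
      (BlkD.upd (fun _ => 22) 0 5)) :=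
  BlkD.tree_sound (BlkD.pairOk_sound k22_22_5_4) (by decide) hn t22_22_5_4_5 _ _ (by decide +kernel)

/-- certificates of the pair `(5, 4)`, part 6 -/
def t22_22_5_4_6 : BlkD.Tr :=
  .E 0

lemma s22_22_5_4_6 {n : ℕ} (hn : 5 ≤ n) : NoNd (d22_22_5_4.R : ℤ) d22_22_5_4.H n d22_22_5_4.a d22_22_5_4.b
    (BlkD.inB (BlkD.upd (fun _ => 0) 0 6)
      (fun _ => 22)) :=
  BlkD.tree_sound (BlkD.pairOk_sound k22_22_5_4) (by decide) hn t22_22_5_4_6 _ _ (by decide +kernel)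

lemma pr22_22_5_4 {n : ℕ} (hn : 5 ≤ n) : NoPr ((22 : ℕ) : ℤ) ((22 : ℕ) : ℤ) n 5 4 :=
  BlkD.of_root (R := d22_22_5_4.R) (H := d22_22_5_4.H) (a := d22_22_5_4.a) (b := d22_22_5_4.b) (q := 3) (by decide) hn
    (BlkD.sp 0 5 (BlkD.sp 2 4 (BlkD.sp 0 2 (BlkD.sp 0 1 (BlkD.sp 0 0 (s22_22_5_4_1 hn)
      (s22_22_5_4_2 hn)) (s22_22_5_4_3 hn)) (s22_22_5_4_4 hn)) (s22_22_5_4_5 hn)) (s22_22_5_4_6
      hn))

/-- the numbers of the pair `(6, 0)`, `R = 22`, `H = 22` -/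
def d22_22_6_0 : BlkD.Pd :=
  ⟨22, 22, 3, 6, 0, 13, 0, 1, 0, 4, 4, 0, 0, 4, 4, 0, [0, 4, 8, 12, 16, 20, 24, 28, 32, 36, 40, 44,
    48, 52], [0, 4, 8, 12, 16, 20, 24, 28, 32, 36, 40, 44, 48, 52], [⟨1, 1, 1, 4, 8, [0, 4], [0,
    4]⟩]⟩

/-- the certificates of the pair `(6, 0)` -/
def t22_22_6_0 : BlkD.Tr :=
  .S 0 6 (.S 2 0 (.L 7 7 [4] [] [] 100000 0 0 716668 33333 0 50000 50000 0 0 0) (.E 1)) (.E 0)

lemma pr22_22_6_0 {n : ℕ} (hn : 5 ≤ n) : NoPr ((22 : ℕ) : ℤ) ((22 : ℕ) : ℤ) n 6 0 :=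
  BlkD.pair_sound (d := d22_22_6_0) (by decide +kernel) hn (by decide) (tr := t22_22_6_0)
    (by decide +kernel) rfl rfl rfl rfl

/-- the numbers of the pair `(6, 1)`, `R = 22`, `H = 22` -/
def d22_22_6_1 : BlkD.Pd :=
  ⟨22, 22, 3, 6, 1, 12, 1, 1, 2, 2, 6, 0, 0, 4, 4, 0, [0, 6, 12, 18, 24, 30, 36, 38, 40, 42, 44,
    46, 48], [0, 4, 8, 12, 16, 20, 24, 28, 32, 36, 40, 44, 48], [⟨1, 1, 1, 4, 8, [0, 4], [0, 4]⟩,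
    ⟨1, 1, 1, 4, 10, [0, 6], [0, 4]⟩]⟩

/-- the certificates of the pair `(6, 1)` -/
def t22_22_6_1 : BlkD.Tr :=
  .S 0 6 (.S 2 1 (.S 0 3 (.S 0 1 (.L 7 7 [4, 4] [] [] 100000 0 0 866668 33333 0 50000 0 0 0 0) (.L
    7 7 [4, 4] [] [] 100000 0 0 866668 33333 0 50000 0 0 0 0)) (.L 7 7 [4, 4] [] [] 100000 0 0
    866668 33333 0 50000 0 0 0 0)) (.E 1)) (.E 0)

lemma pr22_22_6_1 {n : ℕ} (hn : 5 ≤ n) : NoPr ((22 : ℕ) : ℤ) ((22 : ℕ) : ℤ) n 6 1 :=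
  BlkD.pair_sound (d := d22_22_6_1) (by decide +kernel) hn (by decide) (tr := t22_22_6_1)
    (by decide +kernel) rfl rfl rfl rfl

end BlkC

end Pool.Agent.Lib.MP_f04ccf_co
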