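import Pool.Agent.Lib.MP_f04ccf_co.M.BlkT

/-!
MP_f04ccf_co, block certificate, data `R = 22`, `H = 22`, part 10 (generated, helper99:
bd10.cpp, gen2.py).
-/

set_option autoImplicit false
set_option maxRecDepth 100000

namespace Pool.Agent.Lib.MP_f04ccf_co

namespace BlkC

/-- the numbers of the pair `(8, 6)`, `R = 22`, `H = 22` -/
def d22_22_8_6 : BlkD.Pd :=
  ⟨22, 22, 3, 8, 6, 5, 2, 3, 0, 4, 10, 0, 2, 2, 8, 0, [0, 10, 20, 20, 20, 20], [0, 8, 14, 16, 18,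
    20], [⟨1, 1, 1, 4, 8, [0, 4], [0, 4]⟩, ⟨1, 1, 1, 4, 14, [0, 8], [0, 6]⟩, ⟨1, 1, 1, 4, 18, [0,
    10], [0, 8]⟩]⟩

lemma k22_22_8_6 : BlkD.pairOk d22_22_8_6 = true := by decide +kernel

/-- certificates of the pair `(8, 6)`, part 1 -/
def t22_22_8_6_1 : BlkD.Tr :=
  .L 5 5 [4, 5, 6, 22, 22, 22, 22] [] [] 100000 83334 83334 1466666 66667 0 100000 66667 0 0 0

lemma s22_22_8_6_1 {n : ℕ} (hn : 5 ≤ n) : NoNd (d22_22_8_6.R : ℤ) d22_22_8_6.H n d22_22_8_6.a d22_22_8_6.b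
    (BlkD.inB (fun _ => 0)
      (BlkD.upd (BlkD.upd (BlkD.upd (BlkD.upd (BlkD.upd (BlkD.upd (fun _ => 22) 0 8) 2 6) 0 4) 0 2) 0 1) 0 0)) :=
  BlkD.tree_sound (BlkD.pairOk_sound k22_22_8_6) (by decide) hn t22_22_8_6_1 _ _ (by decide +kernel)

/-- certificates of the pair `(8, 6)`, part 2 -/
def t22_22_8_6_2 : BlkD.Tr :=
  .L 5 5 [4, 5, 6, 22, 22, 22, 22] [] [] 100000 83334 83334 1466666 66667 0 100000 66667 0 0 0

lemma s22_22_8_6_2 {n : ℕ} (hn : 5 ≤ n) : NoNd (d22_22_8_6.R : ℤ) d22_22_8_6.H n d22_22_8_6.a d22_22_8_6.b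
    (BlkD.inB (BlkD.upd (fun _ => 0) 0 1)
      (BlkD.upd (BlkD.upd (BlkD.upd (BlkD.upd (BlkD.upd (BlkD.upd (BlkD.upd (fun _ => 22) 0 8) 2 6) 0 4) 0 2) 0 1) 1 11) 1 5)) :=
  BlkD.tree_sound (BlkD.pairOk_sound k22_22_8_6) (by decide) hn t22_22_8_6_2 _ _ (by decide +kernel)

/-- certificates of the pair `(8, 6)`, part 3 -/
def t22_22_8_6_3 : BlkD.Tr :=
  .L 5 5 [4, 5, 6, 22, 22, 22, 22] [] [] 100000 83334 83334 1466666 66667 0 100000 66667 0 0 0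

lemma s22_22_8_6_3 {n : ℕ} (hn : 5 ≤ n) : NoNd (d22_22_8_6.R : ℤ) d22_22_8_6.H n d22_22_8_6.a d22_22_8_6.b
    (BlkD.inB (BlkD.upd (BlkD.upd (fun _ => 0) 0 1) 1 6)
      (BlkD.upd (BlkD.upd (BlkD.upd (BlkD.upd (BlkD.upd (BlkD.upd (fun _ => 22) 0 8) 2 6) 0 4) 0 2) 0 1) 1 11)) :=
  BlkD.tree_sound (BlkD.pairOk_sound k22_22_8_6) (by decide) hn t22_22_8_6_3 _ _ (by decide +kernel)

/-- certificates of the pair `(8, 6)`, part 4 -/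
def t22_22_8_6_4 : BlkD.Tr :=
  .L 5 5 [4, 5, 6, 22, 22, 22, 22] [] [] 100000 83334 83334 1466666 66667 0 100000 66667 0 0 0

lemma s22_22_8_6_4 {n : ℕ} (hn : 5 ≤ n) : NoNd (d22_22_8_6.R : ℤ) d22_22_8_6.H n d22_22_8_6.a d22_22_8_6.b
    (BlkD.inB (BlkD.upd (BlkD.upd (fun _ => 0) 0 1) 1 12)
      (BlkD.upd (BlkD.upd (BlkD.upd (BlkD.upd (BlkD.upd (fun _ => 22) 0 8) 2 6) 0 4) 0 2) 0 1)) :=
  BlkD.tree_sound (BlkD.pairOk_sound k22_22_8_6) (by decide) hn t22_22_8_6_4 _ _ (by decide +kernel)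

/-- certificates of the pair `(8, 6)`, part 5 -/
def t22_22_8_6_5 : BlkD.Tr :=
  .L 5 5 [4, 5, 6, 22, 22, 22, 22] [] [] 100000 83334 83334 1466666 66667 0 100000 66667 0 0 0

lemma s22_22_8_6_5 {n : ℕ} (hn : 5 ≤ n) : NoNd (d22_22_8_6.R : ℤ) d22_22_8_6.H n d22_22_8_6.a d22_22_8_6.b
    (BlkD.inB (BlkD.upd (fun _ => 0) 0 2)
      (BlkD.upd (BlkD.upd (BlkD.upd (BlkD.upd (BlkD.upd (BlkD.upd (fun _ => 22) 0 8) 2 6) 0 4) 0 2) 1 11) 1 5)) :=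
  BlkD.tree_sound (BlkD.pairOk_sound k22_22_8_6) (by decide) hn t22_22_8_6_5 _ _ (by decide +kernel)

/-- certificates of the pair `(8, 6)`, part 6 -/
def t22_22_8_6_6 : BlkD.Tr :=
  .L 5 5 [4, 5, 6, 22, 22, 22, 22] [] [] 100000 83334 83334 1466666 66667 0 100000 66667 0 0 0

lemma s22_22_8_6_6 {n : ℕ} (hn : 5 ≤ n) : NoNd (d22_22_8_6.R : ℤ) d22_22_8_6.H n d22_22_8_6.a d22_22_8_6.b
    (BlkD.inB (BlkD.upd (BlkD.upd (fun _ => 0) 0 2) 1 6)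
      (BlkD.upd (BlkD.upd (BlkD.upd (BlkD.upd (BlkD.upd (BlkD.upd (fun _ => 22) 0 8) 2 6) 0 4) 0 2) 1 11) 1 8)) :=
  BlkD.tree_sound (BlkD.pairOk_sound k22_22_8_6) (by decide) hn t22_22_8_6_6 _ _ (by decide +kernel)

/-- certificates of the pair `(8, 6)`, part 7 -/
def t22_22_8_6_7 : BlkD.Tr :=
  .S 1 10 (.L 5 5 [4, 5, 6, 22, 22, 22, 22] [] [] 100000 83334 83334 1466666 66667 0 100000 66667 0
    0 0) (.L 5 5 [4, 5, 6, 22, 22, 22, 22] [216, 216, 216, 216, 216, 216] [] 100000 83334 83334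
    1466666 66667 0 100000 66667 0 0 0)

lemma s22_22_8_6_7 {n : ℕ} (hn : 5 ≤ n) : NoNd (d22_22_8_6.R : ℤ) d22_22_8_6.H n d22_22_8_6.a d22_22_8_6.b
    (BlkD.inB (BlkD.upd (BlkD.upd (BlkD.upd (fun _ => 0) 0 2) 1 6) 1 9)
      (BlkD.upd (BlkD.upd (BlkD.upd (BlkD.upd (BlkD.upd (fun _ => 22) 0 8) 2 6) 0 4) 0 2) 1 11)) :=
  BlkD.tree_sound (BlkD.pairOk_sound k22_22_8_6) (by decide) hn t22_22_8_6_7 _ _ (by decide +kernel)

/-- certificates of the pair `(8, 6)`, part 8 -/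
def t22_22_8_6_8 : BlkD.Tr :=
  .L 5 5 [4, 5, 6, 22, 22, 22, 22] [] [] 100000 83334 83334 1466666 66667 0 100000 66667 0 0 0

lemma s22_22_8_6_8 {n : ℕ} (hn : 5 ≤ n) : NoNd (d22_22_8_6.R : ℤ) d22_22_8_6.H n d22_22_8_6.a d22_22_8_6.b
    (BlkD.inB (BlkD.upd (BlkD.upd (fun _ => 0) 0 2) 1 12)
      (BlkD.upd (BlkD.upd (BlkD.upd (BlkD.upd (fun _ => 22) 0 8) 2 6) 0 4) 0 2)) :=
  BlkD.tree_sound (BlkD.pairOk_sound k22_22_8_6) (by decide) hn t22_22_8_6_8 _ _ (by decide +kernel)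

/-- certificates of the pair `(8, 6)`, part 9 -/
def t22_22_8_6_9 : BlkD.Tr :=
  .L 5 5 [4, 5, 6, 22, 22, 22, 22] [] [] 100000 4546 4546 1590910 27273 0 27273 81818 0 18182 9091

lemma s22_22_8_6_9 {n : ℕ} (hn : 5 ≤ n) : NoNd (d22_22_8_6.R : ℤ) d22_22_8_6.H n d22_22_8_6.a d22_22_8_6.b
    (BlkD.inB (BlkD.upd (fun _ => 0) 0 3)
      (BlkD.upd (BlkD.upd (BlkD.upd (BlkD.upd (BlkD.upd (BlkD.upd (BlkD.upd (fun _ => 22) 0 8) 2 6) 0 4) 0 3) 1 19) 1 9) 1 4)) :=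
  BlkD.tree_sound (BlkD.pairOk_sound k22_22_8_6) (by decide) hn t22_22_8_6_9 _ _ (by decide +kernel)

/-- certificates of the pair `(8, 6)`, part 10 -/
def t22_22_8_6_10 : BlkD.Tr :=
  .S 1 5 (.L 5 6 [4, 4, 5, 22, 22, 22, 22] [112, 102, 92, 80, 66, 50] [] 100000 0 0 1679630 22222
    1852 44444 37037 0 22222 11111) (.S 2 3 (.L 5 6 [4, 4, 5, 22, 22, 22, 22] [128, 128, 118, 108,
    96, 82] [] 100000 45454 45454 1533336 42424 24242 60606 45455 0 9091 0) (.L 5 6 [4, 4, 5, 22,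
    22, 22, 22] [128, 128, 118, 108, 96, 82] [] 100000 23077 23077 1615386 30769 0 61538 61538 0
    7692 0))

lemma s22_22_8_6_10 {n : ℕ} (hn : 5 ≤ n) : NoNd (d22_22_8_6.R : ℤ) d22_22_8_6.H n d22_22_8_6.a d22_22_8_6.b
    (BlkD.inB (BlkD.upd (BlkD.upd (fun _ => 0) 0 3) 1 5)
      (BlkD.upd (BlkD.upd (BlkD.upd (BlkD.upd (BlkD.upd (BlkD.upd (BlkD.upd (BlkD.upd (fun _ => 22) 0 8) 2 6) 0 4) 0 3) 1 19) 1 9) 1 7) 1 6)) :=
  BlkD.tree_sound (BlkD.pairOk_sound k22_22_8_6) (by decide) hn t22_22_8_6_10 _ _ (by decide +kernel)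

/-- certificates of the pair `(8, 6)`, part 11 -/
def t22_22_8_6_11 : BlkD.Tr :=
  .S 2 3 (.L 6 7 [4, 4, 4, 22, 22, 22, 22] [146, 146, 146, 136, 126, 114] [] 100000 37500 37500
    1525000 50000 25000 62500 50000 0 0 0) (.L 6 7 [4, 4, 4, 22, 22, 22, 22] [146, 146, 146, 136,
    126, 114] [] 100000 0 0 1666669 33333 0 66667 33333 0 0 33333)

lemma s22_22_8_6_11 {n : ℕ} (hn : 5 ≤ n) : NoNd (d22_22_8_6.R : ℤ) d22_22_8_6.H n d22_22_8_6.a d22_22_8_6.b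
    (BlkD.inB (BlkD.upd (BlkD.upd (BlkD.upd (fun _ => 0) 0 3) 1 5) 1 7)
      (BlkD.upd (BlkD.upd (BlkD.upd (BlkD.upd (BlkD.upd (BlkD.upd (BlkD.upd (fun _ => 22) 0 8) 2 6) 0 4) 0 3) 1 19) 1 9) 1 7)) :=
  BlkD.tree_sound (BlkD.pairOk_sound k22_22_8_6) (by decide) hn t22_22_8_6_11 _ _ (by decide +kernel)

/-- certificates of the pair `(8, 6)`, part 12 -/
def t22_22_8_6_12 : BlkD.Tr :=
  .S 2 3 (.S 2 1 (.L 6 7 [4, 4, 4, 22, 22, 22, 22] [166, 166, 166, 166, 156, 146] [] 100000 50001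
    50001 1471427 64286 21429 92857 42857 0 0 0) (.L 6 7 [4, 4, 4, 22, 22, 22, 22] [166, 166, 166,
    166, 156, 146] [] 100000 50001 50001 1471427 64286 21429 92857 42857 0 0 0)) (.L 6 7 [4, 4, 4,
    22, 22, 22, 22] [166, 166, 166, 166, 156, 146] [] 100000 83334 83334 1500000 66667 0 100000
    33333 0 0 0)

lemma s22_22_8_6_12 {n : ℕ} (hn : 5 ≤ n) : NoNd (d22_22_8_6.R : ℤ) d22_22_8_6.H n d22_22_8_6.a d22_22_8_6.b
    (BlkD.inB (BlkD.upd (BlkD.upd (BlkD.upd (fun _ => 0) 0 3) 1 5) 1 8)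
      (BlkD.upd (BlkD.upd (BlkD.upd (BlkD.upd (BlkD.upd (BlkD.upd (BlkD.upd (fun _ => 22) 0 8) 2 6) 0 4) 0 3) 1 19) 1 9) 1 8)) :=
  BlkD.tree_sound (BlkD.pairOk_sound k22_22_8_6) (by decide) hn t22_22_8_6_12 _ _ (by decide +kernel)

/-- certificates of the pair `(8, 6)`, part 13 -/
def t22_22_8_6_13 : BlkD.Tr :=
  .S 2 3 (.S 2 1 (.L 6 7 [4, 4, 4, 22, 22, 22, 22] [188, 188, 188, 188, 188, 178] [] 100000 70000
    70000 1400000 80000 20000 100000 40000 0 0 0) (.L 6 7 [4, 4, 4, 22, 22, 22, 22] [188, 188, 188,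
    188, 188, 178] [] 100000 70000 70000 1400000 80000 20000 100000 40000 0 0 0)) (.L 6 7 [4, 4, 4,
    22, 22, 22, 22] [188, 188, 188, 188, 188, 178] [] 100000 50000 50000 1550000 50000 0 100000
    50000 0 0 0)

lemma s22_22_8_6_13 {n : ℕ} (hn : 5 ≤ n) : NoNd (d22_22_8_6.R : ℤ) d22_22_8_6.H n d22_22_8_6.a d22_22_8_6.b
    (BlkD.inB (BlkD.upd (BlkD.upd (BlkD.upd (BlkD.upd (fun _ => 0) 0 3) 1 5) 1 8) 1 9)
      (BlkD.upd (BlkD.upd (BlkD.upd (BlkD.upd (BlkD.upd (BlkD.upd (fun _ => 22) 0 8) 2 6) 0 4) 0 3) 1 19) 1 9)) :=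
  BlkD.tree_sound (BlkD.pairOk_sound k22_22_8_6) (by decide) hn t22_22_8_6_13 _ _ (by decide +kernel)

/-- certificates of the pair `(8, 6)`, part 14 -/
def t22_22_8_6_14 : BlkD.Tr :=
  .S 1 14 (.S 1 12 (.S 1 11 (.S 1 10 (.L 6 7 [4, 4, 4, 22, 22, 22, 22] [212, 212, 212, 212, 212,
    212] [] 100000 70000 70000 1480000 80000 0 100000 20000 0 0 0) (.L 6 7 [4, 4, 4, 22, 22, 22,
    22] [238, 238, 238, 238, 238, 238] [] 100000 111538 57692 1138462 107692 0 153846 38462 0 0 0))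
    (.L 6 7 [4, 4, 4, 22, 22, 22, 22] [266, 266, 266, 266, 266, 266] [] 100000 200000 0 600000
    200000 0 300000 0 0 0 0)) (.E 0)) (.E 0)

lemma s22_22_8_6_14 {n : ℕ} (hn : 5 ≤ n) : NoNd (d22_22_8_6.R : ℤ) d22_22_8_6.H n d22_22_8_6.a d22_22_8_6.b
    (BlkD.inB (BlkD.upd (BlkD.upd (fun _ => 0) 0 3) 1 10)
      (BlkD.upd (BlkD.upd (BlkD.upd (BlkD.upd (BlkD.upd (fun _ => 22) 0 8) 2 6) 0 4) 0 3) 1 19)) :=
  BlkD.tree_sound (BlkD.pairOk_sound k22_22_8_6) (by decide) hn t22_22_8_6_14 _ _ (by decide +kernel)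

/-- certificates of the pair `(8, 6)`, part 15 -/
def t22_22_8_6_15 : BlkD.Tr :=
  .E 0

lemma s22_22_8_6_15 {n : ℕ} (hn : 5 ≤ n) : NoNd (d22_22_8_6.R : ℤ) d22_22_8_6.H n d22_22_8_6.a d22_22_8_6.b
    (BlkD.inB (BlkD.upd (BlkD.upd (fun _ => 0) 0 3) 1 20)
      (BlkD.upd (BlkD.upd (BlkD.upd (BlkD.upd (fun _ => 22) 0 8) 2 6) 0 4) 0 3)) :=
  BlkD.tree_sound (BlkD.pairOk_sound k22_22_8_6) (by decide) hn t22_22_8_6_15 _ _ (by decide +kernel)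

/-- certificates of the pair `(8, 6)`, part 16 -/
def t22_22_8_6_16 : BlkD.Tr :=
  .L 6 7 [4, 4, 4, 22, 22, 22, 22] [] [] 100000 0 0 1647370 31579 5263 47368 42105 0 13158 18421

lemma s22_22_8_6_16 {n : ℕ} (hn : 5 ≤ n) : NoNd (d22_22_8_6.R : ℤ) d22_22_8_6.H n d22_22_8_6.a d22_22_8_6.b
    (BlkD.inB (BlkD.upd (BlkD.upd (fun _ => 0) 0 3) 0 4)
      (BlkD.upd (BlkD.upd (BlkD.upd (BlkD.upd (BlkD.upd (BlkD.upd (fun _ => 22) 0 8) 2 6) 0 4) 1 18) 1 9) 1 4)) :=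
  BlkD.tree_sound (BlkD.pairOk_sound k22_22_8_6) (by decide) hn t22_22_8_6_16 _ _ (by decide +kernel)

/-- certificates of the pair `(8, 6)`, part 17 -/
def t22_22_8_6_17 : BlkD.Tr :=
  .S 1 5 (.S 2 3 (.L 6 7 [4, 4, 4, 22, 22, 22, 22] [122, 112, 102, 90, 76, 60] [] 100000 30000
    30000 1600000 40000 20000 60000 40000 0 0 0) (.L 6 7 [4, 4, 4, 22, 22, 22, 22] [122, 112, 102,
    90, 76, 60] [] 100000 1 1 1664707 26471 2941 50000 50000 0 14118 12353)) (.S 2 3 (.L 6 7 [4, 4,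
    4, 22, 22, 22, 22] [140, 140, 130, 120, 108, 94] [] 100000 37500 37500 1600000 37500 25000
    62500 50000 0 0 0) (.S 2 5 (.S 2 4 (.L 6 7 [4, 4, 4, 22, 22, 22, 22] [140, 140, 130, 120, 108,
    94] [] 100000 870 870 1666957 40000 4348 60000 24348 0 18261 20000) (.L 6 7 [4, 4, 4, 22, 22,
    22, 22] [140, 140, 130, 120, 108, 94] [] 100000 0 0 1666669 33333 0 50000 33333 0 33333 0)) (.L
    6 7 [4, 4, 4, 22, 22, 22, 22] [140, 140, 130, 120, 108, 94] [] 100000 0 0 1600002 33333 0 66667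
    33333 0 0 33333)))

lemma s22_22_8_6_17 {n : ℕ} (hn : 5 ≤ n) : NoNd (d22_22_8_6.R : ℤ) d22_22_8_6.H n d22_22_8_6.a d22_22_8_6.b
    (BlkD.inB (BlkD.upd (BlkD.upd (BlkD.upd (fun _ => 0) 0 3) 0 4) 1 5)
      (BlkD.upd (BlkD.upd (BlkD.upd (BlkD.upd (BlkD.upd (BlkD.upd (BlkD.upd (fun _ => 22) 0 8) 2 6) 0 4) 1 18) 1 9) 1 7) 1 6)) :=
  BlkD.tree_sound (BlkD.pairOk_sound k22_22_8_6) (by decide) hn t22_22_8_6_17 _ _ (by decide +kernel)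

/-- certificates of the pair `(8, 6)`, part 18 -/
def t22_22_8_6_18 : BlkD.Tr :=
  .S 2 3 (.S 2 1 (.L 6 7 [4, 4, 4, 22, 22, 22, 22] [160, 160, 160, 150, 140, 128] [] 100000 45001
    45001 1450000 46667 50000 56667 53333 0 0 0) (.S 2 2 (.L 6 7 [4, 4, 4, 22, 22, 22, 22] [160,
    160, 160, 150, 140, 128] [] 100000 44444 44444 1544448 33333 44444 77778 66667 0 0 0) (.S 3 8
    (.S 3 4 (.L 6 7 [4, 4, 4, 22, 22, 22, 22] [160, 160, 160, 150, 140, 128] [] 100000 0 0 1655770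
    28846 19231 46154 28846 1923 0 26923) (.L 5 6 [4, 4, 5, 22, 22, 22, 22] [160, 160, 160, 150,
    140, 128] [] 100000 55262 55262 1584214 47368 10526 89474 52632 0 10526 0)) (.E 1)))) (.S 2 5
    (.S 2 4 (.S 3 7 (.S 3 3 (.L 6 7 [4, 4, 4, 22, 22, 22, 22] [160, 160, 160, 150, 140, 128] []
    100000 7274 7274 1636362 36364 18182 69091 36364 3636 0 18182) (.L 5 6 [4, 4, 5, 22, 22, 22,
    22] [160, 160, 160, 150, 140, 128] [] 100000 40000 40000 1611668 50000 0 88333 33333 0 20000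
    8333)) (.E 1)) (.L 5 6 [4, 4, 5, 22, 22, 22, 22] [160, 160, 160, 150, 140, 128] [] 100000 25000
    25000 1633335 33333 0 100000 66667 0 16667 16667)) (.L 5 6 [4, 4, 5, 22, 22, 22, 22] [160, 160,
    160, 150, 140, 128] [] 100000 25001 25001 1574999 41667 0 75000 0 0 33333 33333))

lemma s22_22_8_6_18 {n : ℕ} (hn : 5 ≤ n) : NoNd (d22_22_8_6.R : ℤ) d22_22_8_6.H n d22_22_8_6.a d22_22_8_6.b
    (BlkD.inB (BlkD.upd (BlkD.upd (BlkD.upd (BlkD.upd (fun _ => 0) 0 3) 0 4) 1 5) 1 7)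
      (BlkD.upd (BlkD.upd (BlkD.upd (BlkD.upd (BlkD.upd (BlkD.upd (fun _ => 22) 0 8) 2 6) 0 4) 1 18) 1 9) 1 7)) :=
  BlkD.tree_sound (BlkD.pairOk_sound k22_22_8_6) (by decide) hn t22_22_8_6_18 _ _ (by decide +kernel)

/-- certificates of the pair `(8, 6)`, part 19 -/
def t22_22_8_6_19 : BlkD.Tr :=
  .S 1 8 (.S 2 3 (.L 6 7 [4, 4, 4, 22, 22, 22, 22] [182, 182, 182, 182, 172, 162] [] 100000 53334
    53334 1566666 46667 25000 95000 50000 5000 0 0) (.L 6 7 [4, 4, 4, 22, 22, 22, 22] [182, 182,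
    182, 182, 172, 162] [] 100000 0 0 1676927 34615 0 76923 50000 2885 10000 21731)) (.L 6 7 [4, 4,
    4, 22, 22, 22, 22] [206, 206, 206, 206, 206, 196] [] 100000 25000 25000 1600000 50000 0 100000
    50000 0 0 0)

lemma s22_22_8_6_19 {n : ℕ} (hn : 5 ≤ n) : NoNd (d22_22_8_6.R : ℤ) d22_22_8_6.H n d22_22_8_6.a d22_22_8_6.b
    (BlkD.inB (BlkD.upd (BlkD.upd (BlkD.upd (BlkD.upd (fun _ => 0) 0 3) 0 4) 1 5) 1 8)
      (BlkD.upd (BlkD.upd (BlkD.upd (BlkD.upd (BlkD.upd (fun _ => 22) 0 8) 2 6) 0 4) 1 18) 1 9)) :=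
  BlkD.tree_sound (BlkD.pairOk_sound k22_22_8_6) (by decide) hn t22_22_8_6_19 _ _ (by decide +kernel)

/-- certificates of the pair `(8, 6)`, part 20 -/
def t22_22_8_6_20 : BlkD.Tr :=
  .S 1 14 (.S 1 12 (.S 1 11 (.S 1 10 (.L 6 7 [4, 4, 4, 22, 22, 22, 22] [232, 232, 232, 232, 232,
    232] [] 100000 70654 38045 1328261 80435 8696 132609 39130 0 0 0) (.E 0)) (.E 0)) (.E 0)) (.E
    0)

lemma s22_22_8_6_20 {n : ℕ} (hn : 5 ≤ n) : NoNd (d22_22_8_6.R : ℤ) d22_22_8_6.H n d22_22_8_6.a d22_22_8_6.b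
    (BlkD.inB (BlkD.upd (BlkD.upd (BlkD.upd (fun _ => 0) 0 3) 0 4) 1 10)
      (BlkD.upd (BlkD.upd (BlkD.upd (BlkD.upd (fun _ => 22) 0 8) 2 6) 0 4) 1 18)) :=
  BlkD.tree_sound (BlkD.pairOk_sound k22_22_8_6) (by decide) hn t22_22_8_6_20 _ _ (by decide +kernel)

/-- certificates of the pair `(8, 6)`, part 21 -/
def t22_22_8_6_21 : BlkD.Tr :=
  .E 0

lemma s22_22_8_6_21 {n : ℕ} (hn : 5 ≤ n) : NoNd (d22_22_8_6.R : ℤ) d22_22_8_6.H n d22_22_8_6.a d22_22_8_6.b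
    (BlkD.inB (BlkD.upd (BlkD.upd (BlkD.upd (fun _ => 0) 0 3) 0 4) 1 19)
      (BlkD.upd (BlkD.upd (BlkD.upd (fun _ => 22) 0 8) 2 6) 0 4)) :=
  BlkD.tree_sound (BlkD.pairOk_sound k22_22_8_6) (by decide) hn t22_22_8_6_21 _ _ (by decide +kernel)

/-- certificates of the pair `(8, 6)`, part 22 -/
def t22_22_8_6_22 : BlkD.Tr :=
  .S 1 2 (.L 6 7 [4, 4, 4, 22, 22, 22, 22] [] [] 100000 5000 5000 1583333 16667 16667 33333 66667 0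
    6667 0) (.S 1 3 (.L 6 7 [4, 4, 4, 22, 22, 22, 22] [78, 66, 52, 36, 0, 0] [] 100000 0 0 1642107
    31579 10526 52632 42105 0 11842 19737) (.S 2 3 (.L 6 7 [4, 4, 4, 22, 22, 22, 22] [104, 94, 82,
    68, 52, 0] [] 100000 16667 16667 1633334 33333 16667 66667 50000 0 0 0) (.L 6 7 [4, 4, 4, 22,
    22, 22, 22] [104, 94, 82, 68, 52, 0] [] 100000 1 1 1655557 33333 5556 72222 33333 0 0 33333)))

lemma s22_22_8_6_22 {n : ℕ} (hn : 5 ≤ n) : NoNd (d22_22_8_6.R : ℤ) d22_22_8_6.H n d22_22_8_6.a d22_22_8_6.b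
    (BlkD.inB (BlkD.upd (fun _ => 0) 0 5)
      (BlkD.upd (BlkD.upd (BlkD.upd (BlkD.upd (BlkD.upd (BlkD.upd (BlkD.upd (fun _ => 22) 0 8) 2 6) 0 6) 0 5) 1 17) 1 8) 1 4)) :=
  BlkD.tree_sound (BlkD.pairOk_sound k22_22_8_6) (by decide) hn t22_22_8_6_22 _ _ (by decide +kernel)

/-- certificates of the pair `(8, 6)`, part 23 -/
def t22_22_8_6_23 : BlkD.Tr :=
  .S 1 5 (.S 2 3 (.S 2 1 (.L 6 7 [4, 4, 4, 22, 22, 22, 22] [132, 122, 112, 100, 86, 70] [] 100000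
    46552 46552 1444829 34483 55172 86207 65517 0 0 0) (.S 2 2 (.L 6 7 [4, 4, 4, 22, 22, 22, 22]
    [132, 122, 112, 100, 86, 70] [] 100000 15385 15385 1607695 7692 61538 100000 69231 0 0 30769)
    (.S 3 9 (.S 3 4 (.L 6 7 [4, 4, 4, 22, 22, 22, 22] [132, 122, 112, 100, 86, 70] [] 100000 0 0
    1633334 22222 22222 44444 22222 0 0 22222) (.S 3 7 (.S 3 6 (.S 3 5 (.L 6 7 [4, 4, 4, 22, 22,
    22, 22] [132, 122, 112, 100, 86, 70] [106, 100, 92, 80, 66, 50] 100000 0 0 1680000 20000 20000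
    40000 40000 0 0 20000) (.L 8 9 [5, 4, 3, 22, 22, 22, 22] [132, 122, 112, 100, 86, 70] [124,
    122, 116, 108, 96, 82] 100000 1 1 1681819 27273 27273 54545 54545 0 18182 9091)) (.L 8 9 [5, 4,
    3, 22, 22, 22, 22] [132, 122, 112, 100, 86, 70] [144, 142, 140, 134, 126, 114] 100000 300000 0
    100000 100000 0 400000 400000 0 0 0)) (.E 1))) (.E 1)))) (.L 6 7 [4, 4, 4, 22, 22, 22, 22]
    [132, 122, 112, 100, 86, 70] [] 100000 0 0 1699106 31390 2242 94170 35426 5830 1794 23767)) (.S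
    2 3 (.S 2 1 (.L 6 7 [4, 4, 4, 22, 22, 22, 22] [152, 152, 142, 132, 120, 106] [] 100000 43636
    43636 1454546 32727 56364 80000 67273 0 0 0) (.S 2 2 (.L 6 7 [4, 4, 4, 22, 22, 22, 22] [152,
    152, 142, 132, 120, 106] [] 100000 1 1 1666346 6731 50000 66346 75000 8654 0 41346) (.S 3 8 (.S
    3 4 (.L 6 7 [4, 4, 4, 22, 22, 22, 22] [152, 152, 142, 132, 120, 106] [] 100000 0 0 1687062
    23529 21176 42353 23529 4706 0 18824) (.S 3 6 (.S 3 5 (.S 4 6 (.S 4 3 (.S 4 1 (.L 6 7 [4, 4, 4,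
    22, 22, 22, 22] [106, 90, 0, 0, 0, 0] [106, 100, 92, 80, 66, 50] 100000 0 0 1672416 31034 20690
    51724 62069 31034 0 0) (.L 6 7 [4, 4, 4, 22, 22, 22, 22] [132, 120, 106, 90, 0, 0] [106, 100,
    92, 80, 66, 50] 100000 1 1 1637500 35938 6250 100000 37500 0 7813 28125)) (.L 6 7 [4, 4, 4, 22,
    22, 22, 22] [152, 152, 142, 132, 120, 106] [106, 100, 92, 80, 66, 50] 100000 75000 0 1225000 0
    75000 175000 125000 0 0 0)) (.E 2)) (.L 6 7 [4, 4, 4, 22, 22, 22, 22] [152, 152, 142, 132, 120,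
    106] [124, 122, 116, 108, 96, 82] 100000 0 0 1650000 25000 12500 100000 37500 0 0 0)) (.L 6 7
    [4, 4, 4, 22, 22, 22, 22] [152, 152, 142, 132, 120, 106] [] 100000 250001 1 0 116667 0 116667
    350000 0 0 0))) (.E 1)))) (.S 2 5 (.S 2 4 (.S 3 7 (.S 3 3 (.L 6 7 [4, 4, 4, 22, 22, 22, 22]
    [152, 152, 142, 132, 120, 106] [] 100000 1 1 1689908 27523 18349 56881 33028 7339 5505 14679)
    (.S 3 5 (.S 3 4 (.S 4 6 (.S 4 3 (.L 6 7 [4, 4, 4, 22, 22, 22, 22] [132, 120, 106, 90, 0, 0]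
    [94, 86, 74, 60, 44, 0] 100000 6000 6000 1660000 40000 0 92000 60000 8000 16000 4000) (.L 6 7
    [4, 4, 4, 22, 22, 22, 22] [152, 152, 142, 132, 120, 106] [94, 86, 74, 60, 44, 0] 100000 66667 0
    1266667 44444 22222 166667 44444 0 0 0)) (.E 2)) (.L 6 7 [4, 4, 4, 22, 22, 22, 22] [152, 152,
    142, 132, 120, 106] [116, 110, 102, 90, 76, 60] 100000 1 1 1654544 36364 0 100000 18182 0 9091
    0)) (.L 6 7 [4, 4, 4, 22, 22, 22, 22] [152, 152, 142, 132, 120, 106] [] 100000 0 0 0 0 0 0 0 0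
    0 0))) (.E 1)) (.L 6 7 [4, 4, 4, 22, 22, 22, 22] [152, 152, 142, 132, 120, 106] [] 100000 1 1
    1693548 35484 0 83871 35484 12903 14516 8065)) (.L 6 7 [4, 4, 4, 22, 22, 22, 22] [152, 152,
    142, 132, 120, 106] [] 100000 0 0 1650000 30000 0 80000 60000 10000 0 20000)))

lemma s22_22_8_6_23 {n : ℕ} (hn : 5 ≤ n) : NoNd (d22_22_8_6.R : ℤ) d22_22_8_6.H n d22_22_8_6.a d22_22_8_6.b
    (BlkD.inB (BlkD.upd (BlkD.upd (fun _ => 0) 0 5) 1 5)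
      (BlkD.upd (BlkD.upd (BlkD.upd (BlkD.upd (BlkD.upd (BlkD.upd (BlkD.upd (fun _ => 22) 0 8) 2 6) 0 6) 0 5) 1 17) 1 8) 1 6)) :=
  BlkD.tree_sound (BlkD.pairOk_sound k22_22_8_6) (by decide) hn t22_22_8_6_23 _ _ (by decide +kernel)

/-- certificates of the pair `(8, 6)`, part 24 -/
def t22_22_8_6_24 : BlkD.Tr :=
  .S 1 7 (.S 2 3 (.L 6 7 [4, 4, 4, 22, 22, 22, 22] [174, 174, 174, 164, 154, 142] [] 100000 0 0
    1693750 25000 12500 81250 56250 0 0 25000) (.L 6 7 [4, 4, 4, 22, 22, 22, 22] [174, 174, 174,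
    164, 154, 142] [] 100000 0 0 1666670 33333 0 100000 33333 0 6667 26667)) (.L 6 7 [4, 4, 4, 22,
    22, 22, 22] [198, 198, 198, 198, 188, 178] [] 100000 25000 25000 1600000 50000 0 100000 50000 0
    0 0)

lemma s22_22_8_6_24 {n : ℕ} (hn : 5 ≤ n) : NoNd (d22_22_8_6.R : ℤ) d22_22_8_6.H n d22_22_8_6.a d22_22_8_6.b
    (BlkD.inB (BlkD.upd (BlkD.upd (BlkD.upd (fun _ => 0) 0 5) 1 5) 1 7)
      (BlkD.upd (BlkD.upd (BlkD.upd (BlkD.upd (BlkD.upd (BlkD.upd (fun _ => 22) 0 8) 2 6) 0 6) 0 5) 1 17) 1 8)) :=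
  BlkD.tree_sound (BlkD.pairOk_sound k22_22_8_6) (by decide) hn t22_22_8_6_24 _ _ (by decide +kernel)

/-- certificates of the pair `(8, 6)`, part 25 -/
def t22_22_8_6_25 : BlkD.Tr :=
  .L 6 7 [4, 4, 4, 22, 22, 22, 22] [] [] 100000 2 2 1663636 9091 2273 100000 95455 0 0 9091

lemma s22_22_8_6_25 {n : ℕ} (hn : 5 ≤ n) : NoNd (d22_22_8_6.R : ℤ) d22_22_8_6.H n d22_22_8_6.a d22_22_8_6.b
    (BlkD.inB (BlkD.upd (BlkD.upd (fun _ => 0) 0 5) 1 9)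
      (BlkD.upd (BlkD.upd (BlkD.upd (BlkD.upd (BlkD.upd (fun _ => 22) 0 8) 2 6) 0 6) 0 5) 1 17)) :=
  BlkD.tree_sound (BlkD.pairOk_sound k22_22_8_6) (by decide) hn t22_22_8_6_25 _ _ (by decide +kernel)

/-- certificates of the pair `(8, 6)`, part 26 -/
def t22_22_8_6_26 : BlkD.Tr :=
  .E 0

lemma s22_22_8_6_26 {n : ℕ} (hn : 5 ≤ n) : NoNd (d22_22_8_6.R : ℤ) d22_22_8_6.H n d22_22_8_6.a d22_22_8_6.b
    (BlkD.inB (BlkD.upd (BlkD.upd (fun _ => 0) 0 5) 1 18)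
      (BlkD.upd (BlkD.upd (BlkD.upd (BlkD.upd (fun _ => 22) 0 8) 2 6) 0 6) 0 5)) :=
  BlkD.tree_sound (BlkD.pairOk_sound k22_22_8_6) (by decide) hn t22_22_8_6_26 _ _ (by decide +kernel)

/-- certificates of the pair `(8, 6)`, part 27 -/
def t22_22_8_6_27 : BlkD.Tr :=
  .S 1 16 (.S 1 8 (.S 1 4 (.S 1 2 (.L 6 7 [4, 4, 4, 22, 22, 22, 22] [] [] 100000 1 1 1642859 35714
    14286 50000 42857 0 11429 24286) (.S 1 3 (.L 6 7 [4, 4, 4, 22, 22, 22, 22] [84, 72, 58, 42, 0,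
    0] [] 100000 1 1 1690908 36364 9091 59091 36364 0 12500 23864) (.S 2 3 (.L 6 7 [4, 4, 4, 22,
    22, 22, 22] [112, 102, 90, 76, 60, 0] [] 100000 0 0 1680000 24000 16000 76000 56000 0 6400
    17600) (.L 6 7 [4, 4, 4, 22, 22, 22, 22] [112, 102, 90, 76, 60, 0] [] 100000 0 0 1687180 28205
    6410 73718 50000 1282 13077 13846)))) (.S 1 6 (.S 1 5 (.S 2 3 (.L 6 7 [4, 4, 4, 22, 22, 22, 22]
    [142, 132, 122, 110, 96, 80] [] 100000 1 1 1682856 24286 22143 84286 40000 3571 5286 15429) (.L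
    6 7 [4, 4, 4, 22, 22, 22, 22] [142, 132, 122, 110, 96, 80] [] 100000 0 0 1682354 29412 5882
    100000 47059 4706 0 24706)) (.S 2 3 (.L 6 7 [4, 4, 4, 22, 22, 22, 22] [164, 164, 154, 144, 132,
    118] [] 100000 0 0 1692917 30446 17060 70079 34121 7087 3412 19948) (.L 6 7 [4, 4, 4, 22, 22,
    22, 22] [164, 164, 154, 144, 132, 118] [] 100000 25000 25000 1600000 50000 0 100000 50000 0 0
    0))) (.L 6 7 [4, 4, 4, 22, 22, 22, 22] [] [] 100000 1 1 1666667 11111 3704 100000 88889 0 0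
    11111))) (.E 0)) (.E 0)

lemma s22_22_8_6_27 {n : ℕ} (hn : 5 ≤ n) : NoNd (d22_22_8_6.R : ℤ) d22_22_8_6.H n d22_22_8_6.a d22_22_8_6.b
    (BlkD.inB (BlkD.upd (BlkD.upd (fun _ => 0) 0 5) 0 6)
      (BlkD.upd (BlkD.upd (BlkD.upd (fun _ => 22) 0 8) 2 6) 0 6)) :=
  BlkD.tree_sound (BlkD.pairOk_sound k22_22_8_6) (by decide) hn t22_22_8_6_27 _ _ (by decide +kernel)

/-- certificates of the pair `(8, 6)`, part 28 -/
def t22_22_8_6_28 : BlkD.Tr :=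
  .S 0 7 (.S 1 15 (.S 1 7 (.S 1 3 (.S 1 1 (.L 6 7 [4, 4, 4, 22, 22, 22, 22] [] [] 100000 0 0
    1620000 40000 20000 80000 40000 0 5000 35000) (.S 1 2 (.L 6 7 [4, 4, 4, 22, 22, 22, 22] [60,
    46, 30, 0, 0, 0] [] 100000 0 0 1660319 23810 15873 68254 60317 3175 0 20635) (.S 2 3 (.L 6 7
    [4, 4, 4, 22, 22, 22, 22] [90, 78, 64, 48, 0, 0] [] 100000 0 0 1665855 26829 26829 85366 53659
    14634 0 12195) (.L 6 7 [4, 4, 4, 22, 22, 22, 22] [90, 78, 64, 48, 0, 0] [] 100000 1 1 1690909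
    36364 9091 81818 45455 9091 10909 16364)))) (.L 6 7 [4, 4, 4, 22, 22, 22, 22] [] [] 100000 0 0
    1681134 9434 9434 100000 81132 3774 0 5660)) (.E 0)) (.E 0)) (.L 6 7 [4, 4, 4, 22, 22, 22, 22]
    [] [] 100000 0 0 1691045 8955 4478 82090 47761 17910 0 0)

lemma s22_22_8_6_28 {n : ℕ} (hn : 5 ≤ n) : NoNd (d22_22_8_6.R : ℤ) d22_22_8_6.H n d22_22_8_6.a d22_22_8_6.b
    (BlkD.inB (BlkD.upd (BlkD.upd (fun _ => 0) 0 5) 0 7)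
      (BlkD.upd (BlkD.upd (fun _ => 22) 0 8) 2 6)) :=
  BlkD.tree_sound (BlkD.pairOk_sound k22_22_8_6) (by decide) hn t22_22_8_6_28 _ _ (by decide +kernel)

/-- certificates of the pair `(8, 6)`, part 29 -/
def t22_22_8_6_29 : BlkD.Tr :=
  .E 1

lemma s22_22_8_6_29 {n : ℕ} (hn : 5 ≤ n) : NoNd (d22_22_8_6.R : ℤ) d22_22_8_6.H n d22_22_8_6.a d22_22_8_6.b
    (BlkD.inB (BlkD.upd (fun _ => 0) 2 7)
      (BlkD.upd (fun _ => 22) 0 8)) :=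
  BlkD.tree_sound (BlkD.pairOk_sound k22_22_8_6) (by decide) hn t22_22_8_6_29 _ _ (by decide +kernel)

/-- certificates of the pair `(8, 6)`, part 30 -/
def t22_22_8_6_30 : BlkD.Tr :=
  .E 0

lemma s22_22_8_6_30 {n : ℕ} (hn : 5 ≤ n) : NoNd (d22_22_8_6.R : ℤ) d22_22_8_6.H n d22_22_8_6.a d22_22_8_6.b
    (BlkD.inB (BlkD.upd (fun _ => 0) 0 9)
      (fun _ => 22)) :=
  BlkD.tree_sound (BlkD.pairOk_sound k22_22_8_6) (by decide) hn t22_22_8_6_30 _ _ (by decide +kernel)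

lemma pr22_22_8_6 {n : ℕ} (hn : 5 ≤ n) : NoPr ((22 : ℕ) : ℤ) ((22 : ℕ) : ℤ) n 8 6 :=
  BlkD.of_root (R := d22_22_8_6.R) (H := d22_22_8_6.H) (a := d22_22_8_6.a) (b := d22_22_8_6.b) (q := 3) (by decide) hn
    (BlkD.sp 0 8 (BlkD.sp 2 6 (BlkD.sp 0 4 (BlkD.sp 0 2 (BlkD.sp 0 1 (BlkD.sp 0 0 (s22_22_8_6_1 hn)
      (BlkD.sp 1 11 (BlkD.sp 1 5 (s22_22_8_6_2 hn) (s22_22_8_6_3 hn)) (s22_22_8_6_4 hn))) (BlkD.sp
      1 11 (BlkD.sp 1 5 (s22_22_8_6_5 hn) (BlkD.sp 1 8 (s22_22_8_6_6 hn) (s22_22_8_6_7 hn)))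
      (s22_22_8_6_8 hn))) (BlkD.sp 0 3 (BlkD.sp 1 19 (BlkD.sp 1 9 (BlkD.sp 1 4 (s22_22_8_6_9 hn)
      (BlkD.sp 1 7 (BlkD.sp 1 6 (s22_22_8_6_10 hn) (s22_22_8_6_11 hn)) (BlkD.sp 1 8 (s22_22_8_6_12
      hn) (s22_22_8_6_13 hn)))) (s22_22_8_6_14 hn)) (s22_22_8_6_15 hn)) (BlkD.sp 1 18 (BlkD.sp 1 9
      (BlkD.sp 1 4 (s22_22_8_6_16 hn) (BlkD.sp 1 7 (BlkD.sp 1 6 (s22_22_8_6_17 hn) (s22_22_8_6_18
      hn)) (s22_22_8_6_19 hn))) (s22_22_8_6_20 hn)) (s22_22_8_6_21 hn)))) (BlkD.sp 0 6 (BlkD.sp 0 5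
      (BlkD.sp 1 17 (BlkD.sp 1 8 (BlkD.sp 1 4 (s22_22_8_6_22 hn) (BlkD.sp 1 6 (s22_22_8_6_23 hn)
      (s22_22_8_6_24 hn))) (s22_22_8_6_25 hn)) (s22_22_8_6_26 hn)) (s22_22_8_6_27 hn))
      (s22_22_8_6_28 hn))) (s22_22_8_6_29 hn)) (s22_22_8_6_30 hn))

end BlkC

end Pool.Agent.Lib.MP_f04ccf_co
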