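import Pool.Agent.Lib.MP_f04ccf_co.M.BlkT

/-!
MP_f04ccf_co, block certificate, data `R = 22`, `H = 22`, part 11 (generated, helper99:
bd10.cpp, gen2.py).
-/

set_option autoImplicit false
set_option maxRecDepth 100000

namespace Pool.Agent.Lib.MP_f04ccf_co

namespace BlkC

/-- the numbers of the pair `(8, 7)`, `R = 22`, `H = 22` -/
def d22_22_8_7 : BlkD.Pd :=
  ⟨22, 22, 3, 8, 7, 4, 1, 4, 0, 4, 8, 0, 2, 2, 6, 0, [0, 8, 16, 16, 16], [0, 6, 12, 14, 16], [⟨1,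
    1, 1, 4, 8, [0, 4], [0, 4]⟩, ⟨1, 1, 1, 4, 14, [0, 8], [0, 6]⟩]⟩

lemma k22_22_8_7 : BlkD.pairOk d22_22_8_7 = true := by decide +kernel

/-- certificates of the pair `(8, 7)`, part 1 -/
def t22_22_8_7_1 : BlkD.Tr :=
  .L 5 6 [4, 4, 22, 22, 22, 22, 22, 22] [] [] 100000 1 1 1733335 66667 33333 83333 66667 0 0 0

lemma s22_22_8_7_1 {n : ℕ} (hn : 5 ≤ n) : NoNd (d22_22_8_7.R : ℤ) d22_22_8_7.H n d22_22_8_7.a d22_22_8_7.b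
    (BlkD.inB (fun _ => 0)
      (BlkD.upd (BlkD.upd (BlkD.upd (BlkD.upd (BlkD.upd (BlkD.upd (fun _ => 22) 0 8) 2 7) 0 4) 0 2) 0 1) 0 0)) :=
  BlkD.tree_sound (BlkD.pairOk_sound k22_22_8_7) (by decide) hn t22_22_8_7_1 _ _ (by decide +kernel)

/-- certificates of the pair `(8, 7)`, part 2 -/
def t22_22_8_7_2 : BlkD.Tr :=
  .S 1 2 (.L 5 6 [4, 4, 22, 22, 22, 22, 22, 22] [] [] 100000 1 1 1733335 66667 33333 83333 66667 0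
    0 0) (.L 5 6 [4, 4, 22, 22, 22, 22, 22, 22] [] [] 100000 1 1 1733335 66667 33333 83333 66667 0
    0 0)

lemma s22_22_8_7_2 {n : ℕ} (hn : 5 ≤ n) : NoNd (d22_22_8_7.R : ℤ) d22_22_8_7.H n d22_22_8_7.a d22_22_8_7.b
    (BlkD.inB (BlkD.upd (fun _ => 0) 0 1)
      (BlkD.upd (BlkD.upd (BlkD.upd (BlkD.upd (BlkD.upd (BlkD.upd (BlkD.upd (fun _ => 22) 0 8) 2 7) 0 4) 0 2) 0 1) 1 11) 1 5)) :=
  BlkD.tree_sound (BlkD.pairOk_sound k22_22_8_7) (by decide) hn t22_22_8_7_2 _ _ (by decide +kernel)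

/-- certificates of the pair `(8, 7)`, part 3 -/
def t22_22_8_7_3 : BlkD.Tr :=
  .L 5 6 [4, 4, 22, 22, 22, 22, 22, 22] [] [] 100000 1 1 1733335 66667 33333 83333 66667 0 0 0

lemma s22_22_8_7_3 {n : ℕ} (hn : 5 ≤ n) : NoNd (d22_22_8_7.R : ℤ) d22_22_8_7.H n d22_22_8_7.a d22_22_8_7.b
    (BlkD.inB (BlkD.upd (BlkD.upd (fun _ => 0) 0 1) 1 6)
      (BlkD.upd (BlkD.upd (BlkD.upd (BlkD.upd (BlkD.upd (BlkD.upd (fun _ => 22) 0 8) 2 7) 0 4) 0 2) 0 1) 1 11)) :=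
  BlkD.tree_sound (BlkD.pairOk_sound k22_22_8_7) (by decide) hn t22_22_8_7_3 _ _ (by decide +kernel)

/-- certificates of the pair `(8, 7)`, part 4 -/
def t22_22_8_7_4 : BlkD.Tr :=
  .L 5 6 [4, 4, 22, 22, 22, 22, 22, 22] [] [] 100000 1 1 1733335 66667 33333 83333 66667 0 0 0

lemma s22_22_8_7_4 {n : ℕ} (hn : 5 ≤ n) : NoNd (d22_22_8_7.R : ℤ) d22_22_8_7.H n d22_22_8_7.a d22_22_8_7.b
    (BlkD.inB (BlkD.upd (BlkD.upd (fun _ => 0) 0 1) 1 12)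
      (BlkD.upd (BlkD.upd (BlkD.upd (BlkD.upd (BlkD.upd (fun _ => 22) 0 8) 2 7) 0 4) 0 2) 0 1)) :=
  BlkD.tree_sound (BlkD.pairOk_sound k22_22_8_7) (by decide) hn t22_22_8_7_4 _ _ (by decide +kernel)

/-- certificates of the pair `(8, 7)`, part 5 -/
def t22_22_8_7_5 : BlkD.Tr :=
  .S 1 2 (.L 5 6 [4, 4, 22, 22, 22, 22, 22, 22] [] [] 100000 1 1 1733335 66667 33333 83333 66667 0
    0 0) (.L 5 6 [4, 4, 22, 22, 22, 22, 22, 22] [] [] 100000 1 1 1733335 66667 33333 83333 66667 0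
    0 0)

lemma s22_22_8_7_5 {n : ℕ} (hn : 5 ≤ n) : NoNd (d22_22_8_7.R : ℤ) d22_22_8_7.H n d22_22_8_7.a d22_22_8_7.b
    (BlkD.inB (BlkD.upd (fun _ => 0) 0 2)
      (BlkD.upd (BlkD.upd (BlkD.upd (BlkD.upd (BlkD.upd (BlkD.upd (fun _ => 22) 0 8) 2 7) 0 4) 0 2) 1 11) 1 5)) :=
  BlkD.tree_sound (BlkD.pairOk_sound k22_22_8_7) (by decide) hn t22_22_8_7_5 _ _ (by decide +kernel)

/-- certificates of the pair `(8, 7)`, part 6 -/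
def t22_22_8_7_6 : BlkD.Tr :=
  .S 1 7 (.L 5 6 [4, 4, 22, 22, 22, 22, 22, 22] [] [] 100000 1 1 1733335 66667 33333 83333 66667 0
    0 0) (.L 5 6 [4, 4, 22, 22, 22, 22, 22, 22] [164, 164, 164, 156, 148, 136] [] 100000 1 1
    1733335 66667 33333 83333 66667 0 0 0)

lemma s22_22_8_7_6 {n : ℕ} (hn : 5 ≤ n) : NoNd (d22_22_8_7.R : ℤ) d22_22_8_7.H n d22_22_8_7.a d22_22_8_7.b
    (BlkD.inB (BlkD.upd (BlkD.upd (fun _ => 0) 0 2) 1 6)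
      (BlkD.upd (BlkD.upd (BlkD.upd (BlkD.upd (BlkD.upd (BlkD.upd (fun _ => 22) 0 8) 2 7) 0 4) 0 2) 1 11) 1 8)) :=
  BlkD.tree_sound (BlkD.pairOk_sound k22_22_8_7) (by decide) hn t22_22_8_7_6 _ _ (by decide +kernel)

/-- certificates of the pair `(8, 7)`, part 7 -/
def t22_22_8_7_7 : BlkD.Tr :=
  .S 1 10 (.L 5 6 [4, 4, 22, 22, 22, 22, 22, 22] [] [] 100000 1 1 1733335 66667 33333 83333 66667 0
    0 0) (.L 5 6 [4, 4, 22, 22, 22, 22, 22, 22] [230, 230, 230, 230, 230, 230] [] 100000 1 1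
    1733335 66667 33333 83333 66667 0 0 0)

lemma s22_22_8_7_7 {n : ℕ} (hn : 5 ≤ n) : NoNd (d22_22_8_7.R : ℤ) d22_22_8_7.H n d22_22_8_7.a d22_22_8_7.b
    (BlkD.inB (BlkD.upd (BlkD.upd (BlkD.upd (fun _ => 0) 0 2) 1 6) 1 9)
      (BlkD.upd (BlkD.upd (BlkD.upd (BlkD.upd (BlkD.upd (fun _ => 22) 0 8) 2 7) 0 4) 0 2) 1 11)) :=
  BlkD.tree_sound (BlkD.pairOk_sound k22_22_8_7) (by decide) hn t22_22_8_7_7 _ _ (by decide +kernel)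

/-- certificates of the pair `(8, 7)`, part 8 -/
def t22_22_8_7_8 : BlkD.Tr :=
  .L 5 6 [4, 4, 22, 22, 22, 22, 22, 22] [] [] 100000 1 1 1733335 66667 33333 83333 66667 0 0 0

lemma s22_22_8_7_8 {n : ℕ} (hn : 5 ≤ n) : NoNd (d22_22_8_7.R : ℤ) d22_22_8_7.H n d22_22_8_7.a d22_22_8_7.b
    (BlkD.inB (BlkD.upd (BlkD.upd (fun _ => 0) 0 2) 1 12)
      (BlkD.upd (BlkD.upd (BlkD.upd (BlkD.upd (fun _ => 22) 0 8) 2 7) 0 4) 0 2)) :=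
  BlkD.tree_sound (BlkD.pairOk_sound k22_22_8_7) (by decide) hn t22_22_8_7_8 _ _ (by decide +kernel)

/-- certificates of the pair `(8, 7)`, part 9 -/
def t22_22_8_7_9 : BlkD.Tr :=
  .S 1 2 (.L 5 6 [4, 4, 22, 22, 22, 22, 22, 22] [] [] 100000 1 1 1733335 66667 33333 83333 66667 0
    0 0) (.L 5 6 [4, 4, 22, 22, 22, 22, 22, 22] [] [] 100000 1 1 1733335 66667 33333 83333 66667 0
    0 0)

lemma s22_22_8_7_9 {n : ℕ} (hn : 5 ≤ n) : NoNd (d22_22_8_7.R : ℤ) d22_22_8_7.H n d22_22_8_7.a d22_22_8_7.b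
    (BlkD.inB (BlkD.upd (fun _ => 0) 0 3)
      (BlkD.upd (BlkD.upd (BlkD.upd (BlkD.upd (BlkD.upd (BlkD.upd (fun _ => 22) 0 8) 2 7) 0 4) 0 3) 1 11) 1 5)) :=
  BlkD.tree_sound (BlkD.pairOk_sound k22_22_8_7) (by decide) hn t22_22_8_7_9 _ _ (by decide +kernel)

/-- certificates of the pair `(8, 7)`, part 10 -/
def t22_22_8_7_10 : BlkD.Tr :=
  .L 5 6 [4, 4, 22, 22, 22, 22, 22, 22] [142, 134, 126, 114, 100, 82] [] 100000 1 1 1733335 66667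
    33333 83333 66667 0 0 0

lemma s22_22_8_7_10 {n : ℕ} (hn : 5 ≤ n) : NoNd (d22_22_8_7.R : ℤ) d22_22_8_7.H n d22_22_8_7.a d22_22_8_7.b
    (BlkD.inB (BlkD.upd (BlkD.upd (fun _ => 0) 0 3) 1 6)
      (BlkD.upd (BlkD.upd (BlkD.upd (BlkD.upd (BlkD.upd (BlkD.upd (BlkD.upd (BlkD.upd (fun _ => 22) 0 8) 2 7) 0 4) 0 3) 1 11) 1 8) 1 7) 1 6)) :=
  BlkD.tree_sound (BlkD.pairOk_sound k22_22_8_7) (by decide) hn t22_22_8_7_10 _ _ (by decide +kernel)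

/-- certificates of the pair `(8, 7)`, part 11 -/
def t22_22_8_7_11 : BlkD.Tr :=
  .S 2 3 (.L 5 6 [4, 4, 22, 22, 22, 22, 22, 22] [160, 160, 152, 144, 132, 118] [] 100000 1 1
    1733335 66667 33333 83333 66667 0 0 0) (.L 5 6 [4, 4, 22, 22, 22, 22, 22, 22] [160, 160, 152,
    144, 132, 118] [] 100000 1 1 1733335 66667 33333 83333 66667 0 0 0)

lemma s22_22_8_7_11 {n : ℕ} (hn : 5 ≤ n) : NoNd (d22_22_8_7.R : ℤ) d22_22_8_7.H n d22_22_8_7.a d22_22_8_7.b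
    (BlkD.inB (BlkD.upd (BlkD.upd (BlkD.upd (fun _ => 0) 0 3) 1 6) 1 7)
      (BlkD.upd (BlkD.upd (BlkD.upd (BlkD.upd (BlkD.upd (BlkD.upd (BlkD.upd (fun _ => 22) 0 8) 2 7) 0 4) 0 3) 1 11) 1 8) 1 7)) :=
  BlkD.tree_sound (BlkD.pairOk_sound k22_22_8_7) (by decide) hn t22_22_8_7_11 _ _ (by decide +kernel)

/-- certificates of the pair `(8, 7)`, part 12 -/
def t22_22_8_7_12 : BlkD.Tr :=
  .S 2 3 (.S 2 1 (.L 5 6 [4, 4, 22, 22, 22, 22, 22, 22] [180, 180, 180, 172, 164, 152] [] 100000 1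
    1 1733335 66667 33333 83333 66667 0 0 0) (.S 2 2 (.L 5 6 [4, 4, 22, 22, 22, 22, 22, 22] [180,
    180, 180, 172, 164, 152] [] 100000 1 1 1733335 66667 33333 83333 66667 0 0 0) (.L 5 6 [4, 4,
    22, 22, 22, 22, 22, 22] [180, 180, 180, 172, 164, 152] [] 100000 1 1 1733335 66667 33333 83333
    66667 0 0 0))) (.L 5 6 [4, 4, 22, 22, 22, 22, 22, 22] [180, 180, 180, 172, 164, 152] [] 100000
    1 1 1733335 66667 33333 83333 66667 0 0 0)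

lemma s22_22_8_7_12 {n : ℕ} (hn : 5 ≤ n) : NoNd (d22_22_8_7.R : ℤ) d22_22_8_7.H n d22_22_8_7.a d22_22_8_7.b
    (BlkD.inB (BlkD.upd (BlkD.upd (BlkD.upd (fun _ => 0) 0 3) 1 6) 1 8)
      (BlkD.upd (BlkD.upd (BlkD.upd (BlkD.upd (BlkD.upd (BlkD.upd (fun _ => 22) 0 8) 2 7) 0 4) 0 3) 1 11) 1 8)) :=
  BlkD.tree_sound (BlkD.pairOk_sound k22_22_8_7) (by decide) hn t22_22_8_7_12 _ _ (by decide +kernel)

/-- certificates of the pair `(8, 7)`, part 13 -/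
def t22_22_8_7_13 : BlkD.Tr :=
  .S 2 3 (.L 5 6 [4, 4, 22, 22, 22, 22, 22, 22] [202, 202, 202, 202, 194, 186] [] 100000 1 1
    1733335 66667 33333 83333 66667 0 0 0) (.L 5 6 [4, 4, 22, 22, 22, 22, 22, 22] [202, 202, 202,
    202, 194, 186] [] 100000 1 1 1733335 66667 33333 83333 66667 0 0 0)

lemma s22_22_8_7_13 {n : ℕ} (hn : 5 ≤ n) : NoNd (d22_22_8_7.R : ℤ) d22_22_8_7.H n d22_22_8_7.a d22_22_8_7.b
    (BlkD.inB (BlkD.upd (BlkD.upd (BlkD.upd (fun _ => 0) 0 3) 1 6) 1 9)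
      (BlkD.upd (BlkD.upd (BlkD.upd (BlkD.upd (BlkD.upd (BlkD.upd (BlkD.upd (fun _ => 22) 0 8) 2 7) 0 4) 0 3) 1 11) 1 10) 1 9)) :=
  BlkD.tree_sound (BlkD.pairOk_sound k22_22_8_7) (by decide) hn t22_22_8_7_13 _ _ (by decide +kernel)

/-- certificates of the pair `(8, 7)`, part 14 -/
def t22_22_8_7_14 : BlkD.Tr :=
  .S 2 3 (.L 5 6 [4, 4, 22, 22, 22, 22, 22, 22] [226, 226, 226, 226, 226, 218] [] 100000 1 1
    1733335 66667 33333 83333 66667 0 0 0) (.L 5 6 [4, 4, 22, 22, 22, 22, 22, 22] [226, 226, 226,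
    226, 226, 218] [] 100000 1 1 1733335 66667 33333 83333 66667 0 0 0)

lemma s22_22_8_7_14 {n : ℕ} (hn : 5 ≤ n) : NoNd (d22_22_8_7.R : ℤ) d22_22_8_7.H n d22_22_8_7.a d22_22_8_7.b
    (BlkD.inB (BlkD.upd (BlkD.upd (BlkD.upd (BlkD.upd (fun _ => 0) 0 3) 1 6) 1 9) 1 10)
      (BlkD.upd (BlkD.upd (BlkD.upd (BlkD.upd (BlkD.upd (BlkD.upd (fun _ => 22) 0 8) 2 7) 0 4) 0 3) 1 11) 1 10)) :=
  BlkD.tree_sound (BlkD.pairOk_sound k22_22_8_7) (by decide) hn t22_22_8_7_14 _ _ (by decide +kernel)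

/-- certificates of the pair `(8, 7)`, part 15 -/
def t22_22_8_7_15 : BlkD.Tr :=
  .L 5 6 [4, 4, 22, 22, 22, 22, 22, 22] [252, 252, 252, 252, 252, 252] [] 100000 1 1 1733335 66667
    33333 83333 66667 0 0 0

lemma s22_22_8_7_15 {n : ℕ} (hn : 5 ≤ n) : NoNd (d22_22_8_7.R : ℤ) d22_22_8_7.H n d22_22_8_7.a d22_22_8_7.b
    (BlkD.inB (BlkD.upd (BlkD.upd (BlkD.upd (BlkD.upd (fun _ => 0) 0 3) 1 6) 1 9) 1 11)
      (BlkD.upd (BlkD.upd (BlkD.upd (BlkD.upd (BlkD.upd (fun _ => 22) 0 8) 2 7) 0 4) 0 3) 1 11)) :=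
  BlkD.tree_sound (BlkD.pairOk_sound k22_22_8_7) (by decide) hn t22_22_8_7_15 _ _ (by decide +kernel)

/-- certificates of the pair `(8, 7)`, part 16 -/
def t22_22_8_7_16 : BlkD.Tr :=
  .L 5 6 [4, 4, 22, 22, 22, 22, 22, 22] [] [] 100000 1 1 1733335 66667 33333 83333 66667 0 0 0

lemma s22_22_8_7_16 {n : ℕ} (hn : 5 ≤ n) : NoNd (d22_22_8_7.R : ℤ) d22_22_8_7.H n d22_22_8_7.a d22_22_8_7.b
    (BlkD.inB (BlkD.upd (BlkD.upd (fun _ => 0) 0 3) 1 12)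
      (BlkD.upd (BlkD.upd (BlkD.upd (BlkD.upd (fun _ => 22) 0 8) 2 7) 0 4) 0 3)) :=
  BlkD.tree_sound (BlkD.pairOk_sound k22_22_8_7) (by decide) hn t22_22_8_7_16 _ _ (by decide +kernel)

/-- certificates of the pair `(8, 7)`, part 17 -/
def t22_22_8_7_17 : BlkD.Tr :=
  .S 1 2 (.L 5 6 [4, 4, 22, 22, 22, 22, 22, 22] [] [] 100000 1 1 1733335 66667 33333 83333 66667 0
    0 0) (.S 1 4 (.L 5 6 [4, 4, 22, 22, 22, 22, 22, 22] [] [] 100000 1 1 1733335 66667 33333 83333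
    66667 0 0 0) (.L 5 6 [4, 4, 22, 22, 22, 22, 22, 22] [128, 120, 108, 94, 76, 60] [] 100000 1 1
    1733335 66667 33333 83333 66667 0 0 0))

lemma s22_22_8_7_17 {n : ℕ} (hn : 5 ≤ n) : NoNd (d22_22_8_7.R : ℤ) d22_22_8_7.H n d22_22_8_7.a d22_22_8_7.b
    (BlkD.inB (BlkD.upd (BlkD.upd (fun _ => 0) 0 3) 0 4)
      (BlkD.upd (BlkD.upd (BlkD.upd (BlkD.upd (BlkD.upd (fun _ => 22) 0 8) 2 7) 0 4) 1 11) 1 5)) :=
  BlkD.tree_sound (BlkD.pairOk_sound k22_22_8_7) (by decide) hn t22_22_8_7_17 _ _ (by decide +kernel)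

/-- certificates of the pair `(8, 7)`, part 18 -/
def t22_22_8_7_18 : BlkD.Tr :=
  .S 2 3 (.L 5 6 [4, 4, 22, 22, 22, 22, 22, 22] [154, 146, 138, 126, 112, 94] [] 100000 1 1 1733335
    66667 33333 83333 66667 0 0 0) (.L 5 6 [4, 4, 22, 22, 22, 22, 22, 22] [154, 146, 138, 126, 112,
    94] [] 100000 1 1 1733335 66667 33333 83333 66667 0 0 0)

lemma s22_22_8_7_18 {n : ℕ} (hn : 5 ≤ n) : NoNd (d22_22_8_7.R : ℤ) d22_22_8_7.H n d22_22_8_7.a d22_22_8_7.b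
    (BlkD.inB (BlkD.upd (BlkD.upd (BlkD.upd (fun _ => 0) 0 3) 0 4) 1 6)
      (BlkD.upd (BlkD.upd (BlkD.upd (BlkD.upd (BlkD.upd (BlkD.upd (BlkD.upd (fun _ => 22) 0 8) 2 7) 0 4) 1 11) 1 8) 1 7) 1 6)) :=
  BlkD.tree_sound (BlkD.pairOk_sound k22_22_8_7) (by decide) hn t22_22_8_7_18 _ _ (by decide +kernel)

/-- certificates of the pair `(8, 7)`, part 19 -/
def t22_22_8_7_19 : BlkD.Tr :=
  .S 2 3 (.S 2 1 (.L 5 6 [4, 4, 22, 22, 22, 22, 22, 22] [174, 174, 166, 158, 146, 132] [] 100000 1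
    1 1733335 66667 33333 83333 66667 0 0 0) (.L 5 6 [4, 4, 22, 22, 22, 22, 22, 22] [174, 174, 166,
    158, 146, 132] [] 100000 1 1 1733335 66667 33333 83333 66667 0 0 0)) (.L 5 6 [4, 4, 22, 22, 22,
    22, 22, 22] [174, 174, 166, 158, 146, 132] [] 100000 1 1 1733335 66667 33333 83333 66667 0 0 0)

lemma s22_22_8_7_19 {n : ℕ} (hn : 5 ≤ n) : NoNd (d22_22_8_7.R : ℤ) d22_22_8_7.H n d22_22_8_7.a d22_22_8_7.b
    (BlkD.inB (BlkD.upd (BlkD.upd (BlkD.upd (BlkD.upd (fun _ => 0) 0 3) 0 4) 1 6) 1 7)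
      (BlkD.upd (BlkD.upd (BlkD.upd (BlkD.upd (BlkD.upd (BlkD.upd (fun _ => 22) 0 8) 2 7) 0 4) 1 11) 1 8) 1 7)) :=
  BlkD.tree_sound (BlkD.pairOk_sound k22_22_8_7) (by decide) hn t22_22_8_7_19 _ _ (by decide +kernel)

/-- certificates of the pair `(8, 7)`, part 20 -/
def t22_22_8_7_20 : BlkD.Tr :=
  .S 2 3 (.S 2 1 (.L 5 6 [4, 4, 22, 22, 22, 22, 22, 22] [196, 196, 196, 188, 180, 168] [] 100000 1
    1 1733335 66667 33333 83333 66667 0 0 0) (.L 5 6 [4, 4, 22, 22, 22, 22, 22, 22] [196, 196, 196,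
    188, 180, 168] [] 100000 1 1 1733335 66667 33333 83333 66667 0 0 0)) (.L 5 6 [4, 4, 22, 22, 22,
    22, 22, 22] [196, 196, 196, 188, 180, 168] [] 100000 1 1 1733335 66667 33333 83333 66667 0 0 0)

lemma s22_22_8_7_20 {n : ℕ} (hn : 5 ≤ n) : NoNd (d22_22_8_7.R : ℤ) d22_22_8_7.H n d22_22_8_7.a d22_22_8_7.b
    (BlkD.inB (BlkD.upd (BlkD.upd (BlkD.upd (BlkD.upd (fun _ => 0) 0 3) 0 4) 1 6) 1 8)
      (BlkD.upd (BlkD.upd (BlkD.upd (BlkD.upd (BlkD.upd (fun _ => 22) 0 8) 2 7) 0 4) 1 11) 1 8)) :=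
  BlkD.tree_sound (BlkD.pairOk_sound k22_22_8_7) (by decide) hn t22_22_8_7_20 _ _ (by decide +kernel)

/-- certificates of the pair `(8, 7)`, part 21 -/
def t22_22_8_7_21 : BlkD.Tr :=
  .S 1 9 (.S 2 3 (.L 5 6 [4, 4, 22, 22, 22, 22, 22, 22] [220, 220, 220, 220, 212, 204] [] 100000 1
    1 1733335 66667 33333 83333 66667 0 0 0) (.L 5 6 [4, 4, 22, 22, 22, 22, 22, 22] [220, 220, 220,
    220, 212, 204] [] 100000 1 1 1733335 66667 33333 83333 66667 0 0 0)) (.L 5 6 [4, 4, 22, 22, 22,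
    22, 22, 22] [246, 246, 246, 246, 246, 238] [] 100000 1 1 1733335 66667 33333 83333 66667 0 0 0)

lemma s22_22_8_7_21 {n : ℕ} (hn : 5 ≤ n) : NoNd (d22_22_8_7.R : ℤ) d22_22_8_7.H n d22_22_8_7.a d22_22_8_7.b
    (BlkD.inB (BlkD.upd (BlkD.upd (BlkD.upd (BlkD.upd (fun _ => 0) 0 3) 0 4) 1 6) 1 9)
      (BlkD.upd (BlkD.upd (BlkD.upd (BlkD.upd (BlkD.upd (fun _ => 22) 0 8) 2 7) 0 4) 1 11) 1 10)) :=
  BlkD.tree_sound (BlkD.pairOk_sound k22_22_8_7) (by decide) hn t22_22_8_7_21 _ _ (by decide +kernel)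

/-- certificates of the pair `(8, 7)`, part 22 -/
def t22_22_8_7_22 : BlkD.Tr :=
  .L 5 6 [4, 4, 22, 22, 22, 22, 22, 22] [274, 274, 274, 274, 274, 274] [] 100000 1 1 1733335 66667
    33333 83333 66667 0 0 0

lemma s22_22_8_7_22 {n : ℕ} (hn : 5 ≤ n) : NoNd (d22_22_8_7.R : ℤ) d22_22_8_7.H n d22_22_8_7.a d22_22_8_7.b
    (BlkD.inB (BlkD.upd (BlkD.upd (BlkD.upd (BlkD.upd (BlkD.upd (fun _ => 0) 0 3) 0 4) 1 6) 1 9) 1 11)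
      (BlkD.upd (BlkD.upd (BlkD.upd (BlkD.upd (fun _ => 22) 0 8) 2 7) 0 4) 1 11)) :=
  BlkD.tree_sound (BlkD.pairOk_sound k22_22_8_7) (by decide) hn t22_22_8_7_22 _ _ (by decide +kernel)

/-- certificates of the pair `(8, 7)`, part 23 -/
def t22_22_8_7_23 : BlkD.Tr :=
  .L 5 6 [4, 4, 22, 22, 22, 22, 22, 22] [] [] 100000 1 1 1733335 66667 33333 83333 66667 0 0 0

lemma s22_22_8_7_23 {n : ℕ} (hn : 5 ≤ n) : NoNd (d22_22_8_7.R : ℤ) d22_22_8_7.H n d22_22_8_7.a d22_22_8_7.b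
    (BlkD.inB (BlkD.upd (BlkD.upd (BlkD.upd (fun _ => 0) 0 3) 0 4) 1 12)
      (BlkD.upd (BlkD.upd (BlkD.upd (fun _ => 22) 0 8) 2 7) 0 4)) :=
  BlkD.tree_sound (BlkD.pairOk_sound k22_22_8_7) (by decide) hn t22_22_8_7_23 _ _ (by decide +kernel)

/-- certificates of the pair `(8, 7)`, part 24 -/
def t22_22_8_7_24 : BlkD.Tr :=
  .L 5 6 [4, 4, 22, 22, 22, 22, 22, 22] [] [] 100000 1 1 1733335 66667 33333 83333 66667 0 0 0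

lemma s22_22_8_7_24 {n : ℕ} (hn : 5 ≤ n) : NoNd (d22_22_8_7.R : ℤ) d22_22_8_7.H n d22_22_8_7.a d22_22_8_7.b
    (BlkD.inB (BlkD.upd (fun _ => 0) 0 5)
      (BlkD.upd (BlkD.upd (BlkD.upd (BlkD.upd (BlkD.upd (BlkD.upd (BlkD.upd (fun _ => 22) 0 8) 2 7) 0 6) 0 5) 1 11) 1 5) 1 2)) :=
  BlkD.tree_sound (BlkD.pairOk_sound k22_22_8_7) (by decide) hn t22_22_8_7_24 _ _ (by decide +kernel)

/-- certificates of the pair `(8, 7)`, part 25 -/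
def t22_22_8_7_25 : BlkD.Tr :=
  .L 5 6 [4, 4, 22, 22, 22, 22, 22, 22] [] [] 100000 1 1 1733335 66667 33333 83333 66667 0 0 0

lemma s22_22_8_7_25 {n : ℕ} (hn : 5 ≤ n) : NoNd (d22_22_8_7.R : ℤ) d22_22_8_7.H n d22_22_8_7.a d22_22_8_7.b
    (BlkD.inB (BlkD.upd (BlkD.upd (fun _ => 0) 0 5) 1 3)
      (BlkD.upd (BlkD.upd (BlkD.upd (BlkD.upd (BlkD.upd (BlkD.upd (BlkD.upd (fun _ => 22) 0 8) 2 7) 0 6) 0 5) 1 11) 1 5) 1 4)) :=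
  BlkD.tree_sound (BlkD.pairOk_sound k22_22_8_7) (by decide) hn t22_22_8_7_25 _ _ (by decide +kernel)

/-- certificates of the pair `(8, 7)`, part 26 -/
def t22_22_8_7_26 : BlkD.Tr :=
  .L 5 6 [4, 4, 22, 22, 22, 22, 22, 22] [138, 130, 118, 104, 86, 70] [] 100000 1 1 1733335 66667
    33333 83333 66667 0 0 0

lemma s22_22_8_7_26 {n : ℕ} (hn : 5 ≤ n) : NoNd (d22_22_8_7.R : ℤ) d22_22_8_7.H n d22_22_8_7.a d22_22_8_7.b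
    (BlkD.inB (BlkD.upd (BlkD.upd (BlkD.upd (fun _ => 0) 0 5) 1 3) 1 5)
      (BlkD.upd (BlkD.upd (BlkD.upd (BlkD.upd (BlkD.upd (BlkD.upd (fun _ => 22) 0 8) 2 7) 0 6) 0 5) 1 11) 1 5)) :=
  BlkD.tree_sound (BlkD.pairOk_sound k22_22_8_7) (by decide) hn t22_22_8_7_26 _ _ (by decide +kernel)

/-- certificates of the pair `(8, 7)`, part 27 -/
def t22_22_8_7_27 : BlkD.Tr :=
  .L 5 6 [4, 4, 22, 22, 22, 22, 22, 22] [166, 158, 150, 138, 124, 106] [] 100000 1 1 1733335 66667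
    33333 83333 66667 0 0 0

lemma s22_22_8_7_27 {n : ℕ} (hn : 5 ≤ n) : NoNd (d22_22_8_7.R : ℤ) d22_22_8_7.H n d22_22_8_7.a d22_22_8_7.b
    (BlkD.inB (BlkD.upd (BlkD.upd (fun _ => 0) 0 5) 1 6)
      (BlkD.upd (BlkD.upd (BlkD.upd (BlkD.upd (BlkD.upd (BlkD.upd (BlkD.upd (BlkD.upd (fun _ => 22) 0 8) 2 7) 0 6) 0 5) 1 11) 1 8) 1 7) 1 6)) :=
  BlkD.tree_sound (BlkD.pairOk_sound k22_22_8_7) (by decide) hn t22_22_8_7_27 _ _ (by decide +kernel)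

/-- certificates of the pair `(8, 7)`, part 28 -/
def t22_22_8_7_28 : BlkD.Tr :=
  .L 5 6 [4, 4, 22, 22, 22, 22, 22, 22] [188, 188, 180, 172, 160, 146] [] 100000 1 1 1733335 66667
    33333 83333 66667 0 0 0

lemma s22_22_8_7_28 {n : ℕ} (hn : 5 ≤ n) : NoNd (d22_22_8_7.R : ℤ) d22_22_8_7.H n d22_22_8_7.a d22_22_8_7.b
    (BlkD.inB (BlkD.upd (BlkD.upd (BlkD.upd (fun _ => 0) 0 5) 1 6) 1 7)
      (BlkD.upd (BlkD.upd (BlkD.upd (BlkD.upd (BlkD.upd (BlkD.upd (BlkD.upd (fun _ => 22) 0 8) 2 7) 0 6) 0 5) 1 11) 1 8) 1 7)) :=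
  BlkD.tree_sound (BlkD.pairOk_sound k22_22_8_7) (by decide) hn t22_22_8_7_28 _ _ (by decide +kernel)

/-- certificates of the pair `(8, 7)`, part 29 -/
def t22_22_8_7_29 : BlkD.Tr :=
  .L 5 6 [4, 4, 22, 22, 22, 22, 22, 22] [212, 212, 212, 204, 196, 184] [] 100000 1 1 1733335 66667
    33333 83333 66667 0 0 0

lemma s22_22_8_7_29 {n : ℕ} (hn : 5 ≤ n) : NoNd (d22_22_8_7.R : ℤ) d22_22_8_7.H n d22_22_8_7.a d22_22_8_7.b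
    (BlkD.inB (BlkD.upd (BlkD.upd (BlkD.upd (fun _ => 0) 0 5) 1 6) 1 8)
      (BlkD.upd (BlkD.upd (BlkD.upd (BlkD.upd (BlkD.upd (BlkD.upd (fun _ => 22) 0 8) 2 7) 0 6) 0 5) 1 11) 1 8)) :=
  BlkD.tree_sound (BlkD.pairOk_sound k22_22_8_7) (by decide) hn t22_22_8_7_29 _ _ (by decide +kernel)

/-- certificates of the pair `(8, 7)`, part 30 -/
def t22_22_8_7_30 : BlkD.Tr :=
  .L 5 6 [4, 4, 22, 22, 22, 22, 22, 22] [] [] 100000 1 1 1733335 66667 33333 83333 66667 0 0 0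

lemma s22_22_8_7_30 {n : ℕ} (hn : 5 ≤ n) : NoNd (d22_22_8_7.R : ℤ) d22_22_8_7.H n d22_22_8_7.a d22_22_8_7.b
    (BlkD.inB (BlkD.upd (BlkD.upd (BlkD.upd (fun _ => 0) 0 5) 1 6) 1 9)
      (BlkD.upd (BlkD.upd (BlkD.upd (BlkD.upd (BlkD.upd (fun _ => 22) 0 8) 2 7) 0 6) 0 5) 1 11)) :=
  BlkD.tree_sound (BlkD.pairOk_sound k22_22_8_7) (by decide) hn t22_22_8_7_30 _ _ (by decide +kernel)

/-- certificates of the pair `(8, 7)`, part 31 -/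
def t22_22_8_7_31 : BlkD.Tr :=
  .L 5 6 [4, 4, 22, 22, 22, 22, 22, 22] [] [] 100000 1 1 1733335 66667 33333 83333 66667 0 0 0

lemma s22_22_8_7_31 {n : ℕ} (hn : 5 ≤ n) : NoNd (d22_22_8_7.R : ℤ) d22_22_8_7.H n d22_22_8_7.a d22_22_8_7.b
    (BlkD.inB (BlkD.upd (BlkD.upd (fun _ => 0) 0 5) 1 12)
      (BlkD.upd (BlkD.upd (BlkD.upd (BlkD.upd (fun _ => 22) 0 8) 2 7) 0 6) 0 5)) :=
  BlkD.tree_sound (BlkD.pairOk_sound k22_22_8_7) (by decide) hn t22_22_8_7_31 _ _ (by decide +kernel)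

/-- certificates of the pair `(8, 7)`, part 32 -/
def t22_22_8_7_32 : BlkD.Tr :=
  .S 1 2 (.L 5 6 [4, 4, 22, 22, 22, 22, 22, 22] [] [] 100000 1 1 1733335 66667 33333 83333 66667 0
    0 0) (.S 1 4 (.L 5 6 [4, 4, 22, 22, 22, 22, 22, 22] [] [] 100000 1 1 1733335 66667 33333 83333
    66667 0 0 0) (.L 5 6 [4, 4, 22, 22, 22, 22, 22, 22] [148, 140, 128, 114, 96, 80] [] 100000 1 1
    1733335 66667 33333 83333 66667 0 0 0))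

lemma s22_22_8_7_32 {n : ℕ} (hn : 5 ≤ n) : NoNd (d22_22_8_7.R : ℤ) d22_22_8_7.H n d22_22_8_7.a d22_22_8_7.b
    (BlkD.inB (BlkD.upd (BlkD.upd (fun _ => 0) 0 5) 0 6)
      (BlkD.upd (BlkD.upd (BlkD.upd (BlkD.upd (BlkD.upd (fun _ => 22) 0 8) 2 7) 0 6) 1 11) 1 5)) :=
  BlkD.tree_sound (BlkD.pairOk_sound k22_22_8_7) (by decide) hn t22_22_8_7_32 _ _ (by decide +kernel)

/-- certificates of the pair `(8, 7)`, part 33 -/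
def t22_22_8_7_33 : BlkD.Tr :=
  .L 5 6 [4, 4, 22, 22, 22, 22, 22, 22] [] [] 100000 1 1 1733335 66667 33333 83333 66667 0 0 0

lemma s22_22_8_7_33 {n : ℕ} (hn : 5 ≤ n) : NoNd (d22_22_8_7.R : ℤ) d22_22_8_7.H n d22_22_8_7.a d22_22_8_7.b
    (BlkD.inB (BlkD.upd (BlkD.upd (BlkD.upd (fun _ => 0) 0 5) 0 6) 1 6)
      (BlkD.upd (BlkD.upd (BlkD.upd (BlkD.upd (fun _ => 22) 0 8) 2 7) 0 6) 1 11)) :=
  BlkD.tree_sound (BlkD.pairOk_sound k22_22_8_7) (by decide) hn t22_22_8_7_33 _ _ (by decide +kernel)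

/-- certificates of the pair `(8, 7)`, part 34 -/
def t22_22_8_7_34 : BlkD.Tr :=
  .L 5 6 [4, 4, 22, 22, 22, 22, 22, 22] [] [] 100000 1 1 1733335 66667 33333 83333 66667 0 0 0

lemma s22_22_8_7_34 {n : ℕ} (hn : 5 ≤ n) : NoNd (d22_22_8_7.R : ℤ) d22_22_8_7.H n d22_22_8_7.a d22_22_8_7.b
    (BlkD.inB (BlkD.upd (BlkD.upd (BlkD.upd (fun _ => 0) 0 5) 0 6) 1 12)
      (BlkD.upd (BlkD.upd (BlkD.upd (fun _ => 22) 0 8) 2 7) 0 6)) :=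
  BlkD.tree_sound (BlkD.pairOk_sound k22_22_8_7) (by decide) hn t22_22_8_7_34 _ _ (by decide +kernel)

/-- certificates of the pair `(8, 7)`, part 35 -/
def t22_22_8_7_35 : BlkD.Tr :=
  .L 5 6 [4, 4, 22, 22, 22, 22, 22, 22] [] [] 100000 1 1 1733335 66667 33333 83333 66667 0 0 0

lemma s22_22_8_7_35 {n : ℕ} (hn : 5 ≤ n) : NoNd (d22_22_8_7.R : ℤ) d22_22_8_7.H n d22_22_8_7.a d22_22_8_7.b
    (BlkD.inB (BlkD.upd (BlkD.upd (fun _ => 0) 0 5) 0 7)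
      (BlkD.upd (BlkD.upd (fun _ => 22) 0 8) 2 7)) :=
  BlkD.tree_sound (BlkD.pairOk_sound k22_22_8_7) (by decide) hn t22_22_8_7_35 _ _ (by decide +kernel)

/-- certificates of the pair `(8, 7)`, part 36 -/
def t22_22_8_7_36 : BlkD.Tr :=
  .E 1

lemma s22_22_8_7_36 {n : ℕ} (hn : 5 ≤ n) : NoNd (d22_22_8_7.R : ℤ) d22_22_8_7.H n d22_22_8_7.a d22_22_8_7.b
    (BlkD.inB (BlkD.upd (fun _ => 0) 2 8)
      (BlkD.upd (fun _ => 22) 0 8)) :=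
  BlkD.tree_sound (BlkD.pairOk_sound k22_22_8_7) (by decide) hn t22_22_8_7_36 _ _ (by decide +kernel)

/-- certificates of the pair `(8, 7)`, part 37 -/
def t22_22_8_7_37 : BlkD.Tr :=
  .E 0

lemma s22_22_8_7_37 {n : ℕ} (hn : 5 ≤ n) : NoNd (d22_22_8_7.R : ℤ) d22_22_8_7.H n d22_22_8_7.a d22_22_8_7.b
    (BlkD.inB (BlkD.upd (fun _ => 0) 0 9)
      (fun _ => 22)) :=
  BlkD.tree_sound (BlkD.pairOk_sound k22_22_8_7) (by decide) hn t22_22_8_7_37 _ _ (by decide +kernel)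

lemma pr22_22_8_7 {n : ℕ} (hn : 5 ≤ n) : NoPr ((22 : ℕ) : ℤ) ((22 : ℕ) : ℤ) n 8 7 :=
  BlkD.of_root (R := d22_22_8_7.R) (H := d22_22_8_7.H) (a := d22_22_8_7.a) (b := d22_22_8_7.b) (q := 3) (by decide) hn
    (BlkD.sp 0 8 (BlkD.sp 2 7 (BlkD.sp 0 4 (BlkD.sp 0 2 (BlkD.sp 0 1 (BlkD.sp 0 0 (s22_22_8_7_1 hn)
      (BlkD.sp 1 11 (BlkD.sp 1 5 (s22_22_8_7_2 hn) (s22_22_8_7_3 hn)) (s22_22_8_7_4 hn))) (BlkD.sp
      1 11 (BlkD.sp 1 5 (s22_22_8_7_5 hn) (BlkD.sp 1 8 (s22_22_8_7_6 hn) (s22_22_8_7_7 hn)))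
      (s22_22_8_7_8 hn))) (BlkD.sp 0 3 (BlkD.sp 1 11 (BlkD.sp 1 5 (s22_22_8_7_9 hn) (BlkD.sp 1 8
      (BlkD.sp 1 7 (BlkD.sp 1 6 (s22_22_8_7_10 hn) (s22_22_8_7_11 hn)) (s22_22_8_7_12 hn)) (BlkD.sp
      1 10 (BlkD.sp 1 9 (s22_22_8_7_13 hn) (s22_22_8_7_14 hn)) (s22_22_8_7_15 hn)))) (s22_22_8_7_16
      hn)) (BlkD.sp 1 11 (BlkD.sp 1 5 (s22_22_8_7_17 hn) (BlkD.sp 1 8 (BlkD.sp 1 7 (BlkD.sp 1 6
      (s22_22_8_7_18 hn) (s22_22_8_7_19 hn)) (s22_22_8_7_20 hn)) (BlkD.sp 1 10 (s22_22_8_7_21 hn)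
      (s22_22_8_7_22 hn)))) (s22_22_8_7_23 hn)))) (BlkD.sp 0 6 (BlkD.sp 0 5 (BlkD.sp 1 11 (BlkD.sp
      1 5 (BlkD.sp 1 2 (s22_22_8_7_24 hn) (BlkD.sp 1 4 (s22_22_8_7_25 hn) (s22_22_8_7_26 hn)))
      (BlkD.sp 1 8 (BlkD.sp 1 7 (BlkD.sp 1 6 (s22_22_8_7_27 hn) (s22_22_8_7_28 hn)) (s22_22_8_7_29
      hn)) (s22_22_8_7_30 hn))) (s22_22_8_7_31 hn)) (BlkD.sp 1 11 (BlkD.sp 1 5 (s22_22_8_7_32 hn)
      (s22_22_8_7_33 hn)) (s22_22_8_7_34 hn))) (s22_22_8_7_35 hn))) (s22_22_8_7_36 hn))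
      (s22_22_8_7_37 hn))

end BlkC

end Pool.Agent.Lib.MP_f04ccf_co
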