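import Pool.Agent.Lib.MP_f04ccf_co.M.BlkT

/-!
MP_f04ccf_co, block certificate, data `R = 22`, `H = 22`, part 12 (generated, helper99:
bd10.cpp, gen2.py).
-/

set_option autoImplicit false
set_option maxRecDepth 100000

namespace Pool.Agent.Lib.MP_f04ccf_co

namespace BlkC

/-- the numbers of the pair `(8, 8)`, `R = 22`, `H = 22` -/
def d22_22_8_8 : BlkD.Pd :=
  ⟨22, 22, 3, 8, 8, 3, 0, 5, 0, 4, 4, 0, 0, 4, 4, 0, [0, 4, 8, 12], [0, 4, 8, 12], [⟨1, 1, 1, 4, 8,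
    [0, 4], [0, 4]⟩]⟩

lemma k22_22_8_8 : BlkD.pairOk d22_22_8_8 = true := by decide +kernel

/-- certificates of the pair `(8, 8)`, part 1 -/
def t22_22_8_8_1 : BlkD.Tr :=
  .L 4 4 [4, 22, 22, 22, 22, 22, 22, 22, 22] [] [] 100000 0 0 1800000 100000 100000 100000 100000 0
    0 0

lemma s22_22_8_8_1 {n : ℕ} (hn : 5 ≤ n) : NoNd (d22_22_8_8.R : ℤ) d22_22_8_8.H n d22_22_8_8.a d22_22_8_8.b
    (BlkD.inB (fun _ => 0)
      (BlkD.upd (BlkD.upd (BlkD.upd (BlkD.upd (BlkD.upd (BlkD.upd (fun _ => 22) 0 8) 2 8) 0 4) 0 2) 0 1) 0 0)) :=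
  BlkD.tree_sound (BlkD.pairOk_sound k22_22_8_8) (by decide) hn t22_22_8_8_1 _ _ (by decide +kernel)

/-- certificates of the pair `(8, 8)`, part 2 -/
def t22_22_8_8_2 : BlkD.Tr :=
  .S 1 11 (.S 1 5 (.S 1 2 (.L 4 4 [4, 22, 22, 22, 22, 22, 22, 22, 22] [] [] 100000 0 0 1800000
    100000 100000 100000 100000 0 0 0) (.L 4 4 [4, 22, 22, 22, 22, 22, 22, 22, 22] [] [] 100000 0 0
    1800000 100000 100000 100000 100000 0 0 0)) (.L 4 4 [4, 22, 22, 22, 22, 22, 22, 22, 22] [] []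
    100000 0 0 1800000 100000 100000 100000 100000 0 0 0)) (.L 4 4 [4, 22, 22, 22, 22, 22, 22, 22,
    22] [] [] 100000 0 0 1800000 100000 100000 100000 100000 0 0 0)

lemma s22_22_8_8_2 {n : ℕ} (hn : 5 ≤ n) : NoNd (d22_22_8_8.R : ℤ) d22_22_8_8.H n d22_22_8_8.a d22_22_8_8.b
    (BlkD.inB (BlkD.upd (fun _ => 0) 0 1)
      (BlkD.upd (BlkD.upd (BlkD.upd (BlkD.upd (BlkD.upd (fun _ => 22) 0 8) 2 8) 0 4) 0 2) 0 1)) :=
  BlkD.tree_sound (BlkD.pairOk_sound k22_22_8_8) (by decide) hn t22_22_8_8_2 _ _ (by decide +kernel)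

/-- certificates of the pair `(8, 8)`, part 3 -/
def t22_22_8_8_3 : BlkD.Tr :=
  .S 1 2 (.L 4 4 [4, 22, 22, 22, 22, 22, 22, 22, 22] [] [] 100000 0 0 1800000 100000 100000 100000
    100000 0 0 0) (.S 1 4 (.L 4 4 [4, 22, 22, 22, 22, 22, 22, 22, 22] [] [] 100000 0 0 1800000
    100000 100000 100000 100000 0 0 0) (.L 4 4 [4, 22, 22, 22, 22, 22, 22, 22, 22] [120, 108, 94,
    74, 58, 40] [] 100000 0 0 1800000 100000 100000 100000 100000 0 0 0))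

lemma s22_22_8_8_3 {n : ℕ} (hn : 5 ≤ n) : NoNd (d22_22_8_8.R : ℤ) d22_22_8_8.H n d22_22_8_8.a d22_22_8_8.b
    (BlkD.inB (BlkD.upd (fun _ => 0) 0 2)
      (BlkD.upd (BlkD.upd (BlkD.upd (BlkD.upd (BlkD.upd (BlkD.upd (fun _ => 22) 0 8) 2 8) 0 4) 0 2) 1 11) 1 5)) :=
  BlkD.tree_sound (BlkD.pairOk_sound k22_22_8_8) (by decide) hn t22_22_8_8_3 _ _ (by decide +kernel)

/-- certificates of the pair `(8, 8)`, part 4 -/
def t22_22_8_8_4 : BlkD.Tr :=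
  .S 1 6 (.L 4 4 [4, 22, 22, 22, 22, 22, 22, 22, 22] [138, 134, 122, 108, 88, 72] [] 100000 0 0
    1800000 100000 100000 100000 100000 0 0 0) (.L 4 4 [4, 22, 22, 22, 22, 22, 22, 22, 22] [158,
    154, 150, 138, 124, 104] [] 100000 0 0 1800000 100000 100000 100000 100000 0 0 0)

lemma s22_22_8_8_4 {n : ℕ} (hn : 5 ≤ n) : NoNd (d22_22_8_8.R : ℤ) d22_22_8_8.H n d22_22_8_8.a d22_22_8_8.b
    (BlkD.inB (BlkD.upd (BlkD.upd (fun _ => 0) 0 2) 1 6)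
      (BlkD.upd (BlkD.upd (BlkD.upd (BlkD.upd (BlkD.upd (BlkD.upd (BlkD.upd (fun _ => 22) 0 8) 2 8) 0 4) 0 2) 1 11) 1 8) 1 7)) :=
  BlkD.tree_sound (BlkD.pairOk_sound k22_22_8_8) (by decide) hn t22_22_8_8_4 _ _ (by decide +kernel)

/-- certificates of the pair `(8, 8)`, part 5 -/
def t22_22_8_8_5 : BlkD.Tr :=
  .L 4 4 [4, 22, 22, 22, 22, 22, 22, 22, 22] [180, 176, 172, 168, 156, 142] [] 100000 0 0 1800000
    100000 100000 100000 100000 0 0 0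

lemma s22_22_8_8_5 {n : ℕ} (hn : 5 ≤ n) : NoNd (d22_22_8_8.R : ℤ) d22_22_8_8.H n d22_22_8_8.a d22_22_8_8.b
    (BlkD.inB (BlkD.upd (BlkD.upd (BlkD.upd (fun _ => 0) 0 2) 1 6) 1 8)
      (BlkD.upd (BlkD.upd (BlkD.upd (BlkD.upd (BlkD.upd (BlkD.upd (fun _ => 22) 0 8) 2 8) 0 4) 0 2) 1 11) 1 8)) :=
  BlkD.tree_sound (BlkD.pairOk_sound k22_22_8_8) (by decide) hn t22_22_8_8_5 _ _ (by decide +kernel)

/-- certificates of the pair `(8, 8)`, part 6 -/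
def t22_22_8_8_6 : BlkD.Tr :=
  .L 4 4 [4, 22, 22, 22, 22, 22, 22, 22, 22] [] [] 100000 0 0 1800000 100000 100000 100000 100000 0
    0 0

lemma s22_22_8_8_6 {n : ℕ} (hn : 5 ≤ n) : NoNd (d22_22_8_8.R : ℤ) d22_22_8_8.H n d22_22_8_8.a d22_22_8_8.b
    (BlkD.inB (BlkD.upd (BlkD.upd (BlkD.upd (fun _ => 0) 0 2) 1 6) 1 9)
      (BlkD.upd (BlkD.upd (BlkD.upd (BlkD.upd (BlkD.upd (fun _ => 22) 0 8) 2 8) 0 4) 0 2) 1 11)) :=
  BlkD.tree_sound (BlkD.pairOk_sound k22_22_8_8) (by decide) hn t22_22_8_8_6 _ _ (by decide +kernel)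

/-- certificates of the pair `(8, 8)`, part 7 -/
def t22_22_8_8_7 : BlkD.Tr :=
  .L 4 4 [4, 22, 22, 22, 22, 22, 22, 22, 22] [] [] 100000 0 0 1800000 100000 100000 100000 100000 0
    0 0

lemma s22_22_8_8_7 {n : ℕ} (hn : 5 ≤ n) : NoNd (d22_22_8_8.R : ℤ) d22_22_8_8.H n d22_22_8_8.a d22_22_8_8.b
    (BlkD.inB (BlkD.upd (BlkD.upd (fun _ => 0) 0 2) 1 12)
      (BlkD.upd (BlkD.upd (BlkD.upd (BlkD.upd (fun _ => 22) 0 8) 2 8) 0 4) 0 2)) :=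
  BlkD.tree_sound (BlkD.pairOk_sound k22_22_8_8) (by decide) hn t22_22_8_8_7 _ _ (by decide +kernel)

/-- certificates of the pair `(8, 8)`, part 8 -/
def t22_22_8_8_8 : BlkD.Tr :=
  .L 4 4 [4, 22, 22, 22, 22, 22, 22, 22, 22] [] [] 100000 0 0 1800000 100000 100000 100000 100000 0
    0 0

lemma s22_22_8_8_8 {n : ℕ} (hn : 5 ≤ n) : NoNd (d22_22_8_8.R : ℤ) d22_22_8_8.H n d22_22_8_8.a d22_22_8_8.b
    (BlkD.inB (BlkD.upd (fun _ => 0) 0 3)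
      (BlkD.upd (BlkD.upd (BlkD.upd (BlkD.upd (BlkD.upd (BlkD.upd (BlkD.upd (fun _ => 22) 0 8) 2 8) 0 4) 0 3) 1 11) 1 5) 1 2)) :=
  BlkD.tree_sound (BlkD.pairOk_sound k22_22_8_8) (by decide) hn t22_22_8_8_8 _ _ (by decide +kernel)

/-- certificates of the pair `(8, 8)`, part 9 -/
def t22_22_8_8_9 : BlkD.Tr :=
  .L 4 4 [4, 22, 22, 22, 22, 22, 22, 22, 22] [] [] 100000 0 0 1800000 100000 100000 100000 100000 0
    0 0

lemma s22_22_8_8_9 {n : ℕ} (hn : 5 ≤ n) : NoNd (d22_22_8_8.R : ℤ) d22_22_8_8.H n d22_22_8_8.a d22_22_8_8.b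
    (BlkD.inB (BlkD.upd (BlkD.upd (fun _ => 0) 0 3) 1 3)
      (BlkD.upd (BlkD.upd (BlkD.upd (BlkD.upd (BlkD.upd (BlkD.upd (BlkD.upd (fun _ => 22) 0 8) 2 8) 0 4) 0 3) 1 11) 1 5) 1 4)) :=
  BlkD.tree_sound (BlkD.pairOk_sound k22_22_8_8) (by decide) hn t22_22_8_8_9 _ _ (by decide +kernel)

/-- certificates of the pair `(8, 8)`, part 10 -/
def t22_22_8_8_10 : BlkD.Tr :=
  .S 2 4 (.L 4 4 [4, 22, 22, 22, 22, 22, 22, 22, 22] [130, 118, 104, 84, 68, 50] [] 100000 0 0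
    1800000 100000 100000 100000 100000 0 0 0) (.L 4 4 [4, 22, 22, 22, 22, 22, 22, 22, 22] [130,
    118, 104, 84, 68, 50] [] 100000 0 0 1800000 100000 100000 100000 100000 0 0 0)

lemma s22_22_8_8_10 {n : ℕ} (hn : 5 ≤ n) : NoNd (d22_22_8_8.R : ℤ) d22_22_8_8.H n d22_22_8_8.a d22_22_8_8.b
    (BlkD.inB (BlkD.upd (BlkD.upd (BlkD.upd (fun _ => 0) 0 3) 1 3) 1 5)
      (BlkD.upd (BlkD.upd (BlkD.upd (BlkD.upd (BlkD.upd (BlkD.upd (fun _ => 22) 0 8) 2 8) 0 4) 0 3) 1 11) 1 5)) :=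
  BlkD.tree_sound (BlkD.pairOk_sound k22_22_8_8) (by decide) hn t22_22_8_8_10 _ _ (by decide +kernel)

/-- certificates of the pair `(8, 8)`, part 11 -/
def t22_22_8_8_11 : BlkD.Tr :=
  .S 2 4 (.L 4 4 [4, 22, 22, 22, 22, 22, 22, 22, 22] [150, 146, 134, 120, 100, 84] [] 100000 0 0
    1800000 100000 100000 100000 100000 0 0 0) (.L 4 4 [4, 22, 22, 22, 22, 22, 22, 22, 22] [150,
    146, 134, 120, 100, 84] [] 100000 0 0 1800000 100000 100000 100000 100000 0 0 0)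

lemma s22_22_8_8_11 {n : ℕ} (hn : 5 ≤ n) : NoNd (d22_22_8_8.R : ℤ) d22_22_8_8.H n d22_22_8_8.a d22_22_8_8.b
    (BlkD.inB (BlkD.upd (BlkD.upd (fun _ => 0) 0 3) 1 6)
      (BlkD.upd (BlkD.upd (BlkD.upd (BlkD.upd (BlkD.upd (BlkD.upd (BlkD.upd (BlkD.upd (fun _ => 22) 0 8) 2 8) 0 4) 0 3) 1 11) 1 8) 1 7) 1 6)) :=
  BlkD.tree_sound (BlkD.pairOk_sound k22_22_8_8) (by decide) hn t22_22_8_8_11 _ _ (by decide +kernel)

/-- certificates of the pair `(8, 8)`, part 12 -/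
def t22_22_8_8_12 : BlkD.Tr :=
  .S 2 2 (.L 4 4 [4, 22, 22, 22, 22, 22, 22, 22, 22] [172, 168, 164, 152, 138, 118] [] 100000 0 0
    1800000 100000 100000 100000 100000 0 0 0) (.S 2 3 (.L 4 4 [4, 22, 22, 22, 22, 22, 22, 22, 22]
    [172, 168, 164, 152, 138, 118] [] 100000 0 0 1800000 100000 100000 100000 100000 0 0 0) (.L 4 4
    [4, 22, 22, 22, 22, 22, 22, 22, 22] [172, 168, 164, 152, 138, 118] [] 100000 0 0 1800000 100000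
    100000 100000 100000 0 0 0))

lemma s22_22_8_8_12 {n : ℕ} (hn : 5 ≤ n) : NoNd (d22_22_8_8.R : ℤ) d22_22_8_8.H n d22_22_8_8.a d22_22_8_8.b
    (BlkD.inB (BlkD.upd (BlkD.upd (BlkD.upd (fun _ => 0) 0 3) 1 6) 1 7)
      (BlkD.upd (BlkD.upd (BlkD.upd (BlkD.upd (BlkD.upd (BlkD.upd (BlkD.upd (BlkD.upd (fun _ => 22) 0 8) 2 8) 0 4) 0 3) 1 11) 1 8) 1 7) 2 4)) :=
  BlkD.tree_sound (BlkD.pairOk_sound k22_22_8_8) (by decide) hn t22_22_8_8_12 _ _ (by decide +kernel)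

/-- certificates of the pair `(8, 8)`, part 13 -/
def t22_22_8_8_13 : BlkD.Tr :=
  .L 4 4 [4, 22, 22, 22, 22, 22, 22, 22, 22] [172, 168, 164, 152, 138, 118] [] 100000 0 0 1800000
    100000 100000 100000 100000 0 0 0

lemma s22_22_8_8_13 {n : ℕ} (hn : 5 ≤ n) : NoNd (d22_22_8_8.R : ℤ) d22_22_8_8.H n d22_22_8_8.a d22_22_8_8.b
    (BlkD.inB (BlkD.upd (BlkD.upd (BlkD.upd (BlkD.upd (fun _ => 0) 0 3) 1 6) 1 7) 2 5)
      (BlkD.upd (BlkD.upd (BlkD.upd (BlkD.upd (BlkD.upd (BlkD.upd (BlkD.upd (fun _ => 22) 0 8) 2 8) 0 4) 0 3) 1 11) 1 8) 1 7)) :=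
  BlkD.tree_sound (BlkD.pairOk_sound k22_22_8_8) (by decide) hn t22_22_8_8_13 _ _ (by decide +kernel)

/-- certificates of the pair `(8, 8)`, part 14 -/
def t22_22_8_8_14 : BlkD.Tr :=
  .S 2 2 (.L 4 4 [4, 22, 22, 22, 22, 22, 22, 22, 22] [196, 192, 188, 184, 172, 158] [] 100000 0 0
    1800000 100000 100000 100000 100000 0 0 0) (.S 2 3 (.L 4 4 [4, 22, 22, 22, 22, 22, 22, 22, 22]
    [196, 192, 188, 184, 172, 158] [] 100000 0 0 1800000 100000 100000 100000 100000 0 0 0) (.L 4 4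
    [4, 22, 22, 22, 22, 22, 22, 22, 22] [196, 192, 188, 184, 172, 158] [] 100000 0 0 1800000 100000
    100000 100000 100000 0 0 0))

lemma s22_22_8_8_14 {n : ℕ} (hn : 5 ≤ n) : NoNd (d22_22_8_8.R : ℤ) d22_22_8_8.H n d22_22_8_8.a d22_22_8_8.b
    (BlkD.inB (BlkD.upd (BlkD.upd (BlkD.upd (fun _ => 0) 0 3) 1 6) 1 8)
      (BlkD.upd (BlkD.upd (BlkD.upd (BlkD.upd (BlkD.upd (BlkD.upd (BlkD.upd (fun _ => 22) 0 8) 2 8) 0 4) 0 3) 1 11) 1 8) 2 4)) :=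
  BlkD.tree_sound (BlkD.pairOk_sound k22_22_8_8) (by decide) hn t22_22_8_8_14 _ _ (by decide +kernel)

/-- certificates of the pair `(8, 8)`, part 15 -/
def t22_22_8_8_15 : BlkD.Tr :=
  .L 4 4 [4, 22, 22, 22, 22, 22, 22, 22, 22] [196, 192, 188, 184, 172, 158] [] 100000 0 0 1800000
    100000 100000 100000 100000 0 0 0

lemma s22_22_8_8_15 {n : ℕ} (hn : 5 ≤ n) : NoNd (d22_22_8_8.R : ℤ) d22_22_8_8.H n d22_22_8_8.a d22_22_8_8.b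
    (BlkD.inB (BlkD.upd (BlkD.upd (BlkD.upd (BlkD.upd (fun _ => 0) 0 3) 1 6) 1 8) 2 5)
      (BlkD.upd (BlkD.upd (BlkD.upd (BlkD.upd (BlkD.upd (BlkD.upd (fun _ => 22) 0 8) 2 8) 0 4) 0 3) 1 11) 1 8)) :=
  BlkD.tree_sound (BlkD.pairOk_sound k22_22_8_8) (by decide) hn t22_22_8_8_15 _ _ (by decide +kernel)

/-- certificates of the pair `(8, 8)`, part 16 -/
def t22_22_8_8_16 : BlkD.Tr :=
  .S 2 4 (.S 2 2 (.L 4 4 [4, 22, 22, 22, 22, 22, 22, 22, 22] [218, 218, 214, 210, 206, 194] []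
    100000 0 0 1800000 100000 100000 100000 100000 0 0 0) (.L 4 4 [4, 22, 22, 22, 22, 22, 22, 22,
    22] [218, 218, 214, 210, 206, 194] [] 100000 0 0 1800000 100000 100000 100000 100000 0 0 0))
    (.L 4 4 [4, 22, 22, 22, 22, 22, 22, 22, 22] [218, 218, 214, 210, 206, 194] [] 100000 0 0
    1800000 100000 100000 100000 100000 0 0 0)

lemma s22_22_8_8_16 {n : ℕ} (hn : 5 ≤ n) : NoNd (d22_22_8_8.R : ℤ) d22_22_8_8.H n d22_22_8_8.a d22_22_8_8.b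
    (BlkD.inB (BlkD.upd (BlkD.upd (BlkD.upd (fun _ => 0) 0 3) 1 6) 1 9)
      (BlkD.upd (BlkD.upd (BlkD.upd (BlkD.upd (BlkD.upd (BlkD.upd (BlkD.upd (fun _ => 22) 0 8) 2 8) 0 4) 0 3) 1 11) 1 10) 1 9)) :=
  BlkD.tree_sound (BlkD.pairOk_sound k22_22_8_8) (by decide) hn t22_22_8_8_16 _ _ (by decide +kernel)

/-- certificates of the pair `(8, 8)`, part 17 -/
def t22_22_8_8_17 : BlkD.Tr :=
  .L 4 4 [4, 22, 22, 22, 22, 22, 22, 22, 22] [242, 242, 242, 238, 234, 230] [] 100000 0 0 1800000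
    100000 100000 100000 100000 0 0 0

lemma s22_22_8_8_17 {n : ℕ} (hn : 5 ≤ n) : NoNd (d22_22_8_8.R : ℤ) d22_22_8_8.H n d22_22_8_8.a d22_22_8_8.b
    (BlkD.inB (BlkD.upd (BlkD.upd (BlkD.upd (BlkD.upd (fun _ => 0) 0 3) 1 6) 1 9) 1 10)
      (BlkD.upd (BlkD.upd (BlkD.upd (BlkD.upd (BlkD.upd (BlkD.upd (fun _ => 22) 0 8) 2 8) 0 4) 0 3) 1 11) 1 10)) :=
  BlkD.tree_sound (BlkD.pairOk_sound k22_22_8_8) (by decide) hn t22_22_8_8_17 _ _ (by decide +kernel)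

/-- certificates of the pair `(8, 8)`, part 18 -/
def t22_22_8_8_18 : BlkD.Tr :=
  .L 4 4 [4, 22, 22, 22, 22, 22, 22, 22, 22] [268, 268, 268, 268, 264, 260] [] 100000 0 0 1800000
    100000 100000 100000 100000 0 0 0

lemma s22_22_8_8_18 {n : ℕ} (hn : 5 ≤ n) : NoNd (d22_22_8_8.R : ℤ) d22_22_8_8.H n d22_22_8_8.a d22_22_8_8.b
    (BlkD.inB (BlkD.upd (BlkD.upd (BlkD.upd (BlkD.upd (fun _ => 0) 0 3) 1 6) 1 9) 1 11)
      (BlkD.upd (BlkD.upd (BlkD.upd (BlkD.upd (BlkD.upd (fun _ => 22) 0 8) 2 8) 0 4) 0 3) 1 11)) :=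
  BlkD.tree_sound (BlkD.pairOk_sound k22_22_8_8) (by decide) hn t22_22_8_8_18 _ _ (by decide +kernel)

/-- certificates of the pair `(8, 8)`, part 19 -/
def t22_22_8_8_19 : BlkD.Tr :=
  .L 4 4 [4, 22, 22, 22, 22, 22, 22, 22, 22] [] [] 100000 0 0 1800000 100000 100000 100000 100000 0
    0 0

lemma s22_22_8_8_19 {n : ℕ} (hn : 5 ≤ n) : NoNd (d22_22_8_8.R : ℤ) d22_22_8_8.H n d22_22_8_8.a d22_22_8_8.b
    (BlkD.inB (BlkD.upd (BlkD.upd (fun _ => 0) 0 3) 1 12)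
      (BlkD.upd (BlkD.upd (BlkD.upd (BlkD.upd (fun _ => 22) 0 8) 2 8) 0 4) 0 3)) :=
  BlkD.tree_sound (BlkD.pairOk_sound k22_22_8_8) (by decide) hn t22_22_8_8_19 _ _ (by decide +kernel)

/-- certificates of the pair `(8, 8)`, part 20 -/
def t22_22_8_8_20 : BlkD.Tr :=
  .L 4 4 [4, 22, 22, 22, 22, 22, 22, 22, 22] [] [] 100000 0 0 1800000 100000 100000 100000 100000 0
    0 0

lemma s22_22_8_8_20 {n : ℕ} (hn : 5 ≤ n) : NoNd (d22_22_8_8.R : ℤ) d22_22_8_8.H n d22_22_8_8.a d22_22_8_8.b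
    (BlkD.inB (BlkD.upd (BlkD.upd (fun _ => 0) 0 3) 0 4)
      (BlkD.upd (BlkD.upd (BlkD.upd (BlkD.upd (BlkD.upd (BlkD.upd (fun _ => 22) 0 8) 2 8) 0 4) 1 11) 1 5) 1 2)) :=
  BlkD.tree_sound (BlkD.pairOk_sound k22_22_8_8) (by decide) hn t22_22_8_8_20 _ _ (by decide +kernel)

/-- certificates of the pair `(8, 8)`, part 21 -/
def t22_22_8_8_21 : BlkD.Tr :=
  .S 1 3 (.L 4 4 [4, 22, 22, 22, 22, 22, 22, 22, 22] [84, 64, 48, 30, 0, 0] [] 100000 0 0 1800000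
    100000 100000 100000 100000 0 0 0) (.L 4 4 [4, 22, 22, 22, 22, 22, 22, 22, 22] [112, 98, 78,
    62, 44, 0] [] 100000 0 0 1800000 100000 100000 100000 100000 0 0 0)

lemma s22_22_8_8_21 {n : ℕ} (hn : 5 ≤ n) : NoNd (d22_22_8_8.R : ℤ) d22_22_8_8.H n d22_22_8_8.a d22_22_8_8.b
    (BlkD.inB (BlkD.upd (BlkD.upd (BlkD.upd (fun _ => 0) 0 3) 0 4) 1 3)
      (BlkD.upd (BlkD.upd (BlkD.upd (BlkD.upd (BlkD.upd (BlkD.upd (fun _ => 22) 0 8) 2 8) 0 4) 1 11) 1 5) 1 4)) :=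
  BlkD.tree_sound (BlkD.pairOk_sound k22_22_8_8) (by decide) hn t22_22_8_8_21 _ _ (by decide +kernel)

/-- certificates of the pair `(8, 8)`, part 22 -/
def t22_22_8_8_22 : BlkD.Tr :=
  .S 2 4 (.L 4 4 [4, 22, 22, 22, 22, 22, 22, 22, 22] [140, 128, 114, 94, 78, 60] [] 100000 0 0
    1800000 100000 100000 100000 100000 0 0 0) (.L 4 4 [4, 22, 22, 22, 22, 22, 22, 22, 22] [140,
    128, 114, 94, 78, 60] [] 100000 0 0 1800000 100000 100000 100000 100000 0 0 0)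

lemma s22_22_8_8_22 {n : ℕ} (hn : 5 ≤ n) : NoNd (d22_22_8_8.R : ℤ) d22_22_8_8.H n d22_22_8_8.a d22_22_8_8.b
    (BlkD.inB (BlkD.upd (BlkD.upd (BlkD.upd (BlkD.upd (fun _ => 0) 0 3) 0 4) 1 3) 1 5)
      (BlkD.upd (BlkD.upd (BlkD.upd (BlkD.upd (BlkD.upd (fun _ => 22) 0 8) 2 8) 0 4) 1 11) 1 5)) :=
  BlkD.tree_sound (BlkD.pairOk_sound k22_22_8_8) (by decide) hn t22_22_8_8_22 _ _ (by decide +kernel)

/-- certificates of the pair `(8, 8)`, part 23 -/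
def t22_22_8_8_23 : BlkD.Tr :=
  .S 2 2 (.L 4 4 [4, 22, 22, 22, 22, 22, 22, 22, 22] [162, 158, 146, 132, 112, 96] [] 100000 0 0
    1800000 100000 100000 100000 100000 0 0 0) (.S 2 3 (.L 4 4 [4, 22, 22, 22, 22, 22, 22, 22, 22]
    [162, 158, 146, 132, 112, 96] [] 100000 0 0 1800000 100000 100000 100000 100000 0 0 0) (.L 4 4
    [4, 22, 22, 22, 22, 22, 22, 22, 22] [162, 158, 146, 132, 112, 96] [] 100000 0 0 1800000 100000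
    100000 100000 100000 0 0 0))

lemma s22_22_8_8_23 {n : ℕ} (hn : 5 ≤ n) : NoNd (d22_22_8_8.R : ℤ) d22_22_8_8.H n d22_22_8_8.a d22_22_8_8.b
    (BlkD.inB (BlkD.upd (BlkD.upd (BlkD.upd (fun _ => 0) 0 3) 0 4) 1 6)
      (BlkD.upd (BlkD.upd (BlkD.upd (BlkD.upd (BlkD.upd (BlkD.upd (BlkD.upd (BlkD.upd (fun _ => 22) 0 8) 2 8) 0 4) 1 11) 1 8) 1 7) 1 6) 2 4)) :=
  BlkD.tree_sound (BlkD.pairOk_sound k22_22_8_8) (by decide) hn t22_22_8_8_23 _ _ (by decide +kernel)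

/-- certificates of the pair `(8, 8)`, part 24 -/
def t22_22_8_8_24 : BlkD.Tr :=
  .L 4 4 [4, 22, 22, 22, 22, 22, 22, 22, 22] [162, 158, 146, 132, 112, 96] [] 100000 0 0 1800000
    100000 100000 100000 100000 0 0 0

lemma s22_22_8_8_24 {n : ℕ} (hn : 5 ≤ n) : NoNd (d22_22_8_8.R : ℤ) d22_22_8_8.H n d22_22_8_8.a d22_22_8_8.b
    (BlkD.inB (BlkD.upd (BlkD.upd (BlkD.upd (BlkD.upd (fun _ => 0) 0 3) 0 4) 1 6) 2 5)
      (BlkD.upd (BlkD.upd (BlkD.upd (BlkD.upd (BlkD.upd (BlkD.upd (BlkD.upd (fun _ => 22) 0 8) 2 8) 0 4) 1 11) 1 8) 1 7) 1 6)) :=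
  BlkD.tree_sound (BlkD.pairOk_sound k22_22_8_8) (by decide) hn t22_22_8_8_24 _ _ (by decide +kernel)

/-- certificates of the pair `(8, 8)`, part 25 -/
def t22_22_8_8_25 : BlkD.Tr :=
  .S 2 2 (.L 4 4 [4, 22, 22, 22, 22, 22, 22, 22, 22] [186, 182, 178, 166, 152, 132] [] 100000 0 0
    1800000 100000 100000 100000 100000 0 0 0) (.S 2 3 (.L 4 4 [4, 22, 22, 22, 22, 22, 22, 22, 22]
    [186, 182, 178, 166, 152, 132] [] 100000 0 0 1800000 100000 100000 100000 100000 0 0 0) (.L 4 4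
    [4, 22, 22, 22, 22, 22, 22, 22, 22] [186, 182, 178, 166, 152, 132] [] 100000 0 0 1800000 100000
    100000 100000 100000 0 0 0))

lemma s22_22_8_8_25 {n : ℕ} (hn : 5 ≤ n) : NoNd (d22_22_8_8.R : ℤ) d22_22_8_8.H n d22_22_8_8.a d22_22_8_8.b
    (BlkD.inB (BlkD.upd (BlkD.upd (BlkD.upd (BlkD.upd (fun _ => 0) 0 3) 0 4) 1 6) 1 7)
      (BlkD.upd (BlkD.upd (BlkD.upd (BlkD.upd (BlkD.upd (BlkD.upd (BlkD.upd (fun _ => 22) 0 8) 2 8) 0 4) 1 11) 1 8) 1 7) 2 4)) :=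
  BlkD.tree_sound (BlkD.pairOk_sound k22_22_8_8) (by decide) hn t22_22_8_8_25 _ _ (by decide +kernel)

/-- certificates of the pair `(8, 8)`, part 26 -/
def t22_22_8_8_26 : BlkD.Tr :=
  .L 4 4 [4, 22, 22, 22, 22, 22, 22, 22, 22] [186, 182, 178, 166, 152, 132] [] 100000 0 0 1800000
    100000 100000 100000 100000 0 0 0

lemma s22_22_8_8_26 {n : ℕ} (hn : 5 ≤ n) : NoNd (d22_22_8_8.R : ℤ) d22_22_8_8.H n d22_22_8_8.a d22_22_8_8.b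
    (BlkD.inB (BlkD.upd (BlkD.upd (BlkD.upd (BlkD.upd (BlkD.upd (fun _ => 0) 0 3) 0 4) 1 6) 1 7) 2 5)
      (BlkD.upd (BlkD.upd (BlkD.upd (BlkD.upd (BlkD.upd (BlkD.upd (fun _ => 22) 0 8) 2 8) 0 4) 1 11) 1 8) 1 7)) :=
  BlkD.tree_sound (BlkD.pairOk_sound k22_22_8_8) (by decide) hn t22_22_8_8_26 _ _ (by decide +kernel)

/-- certificates of the pair `(8, 8)`, part 27 -/
def t22_22_8_8_27 : BlkD.Tr :=
  .S 2 4 (.L 4 4 [4, 22, 22, 22, 22, 22, 22, 22, 22] [212, 208, 204, 200, 188, 174] [] 100000 0 0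
    1800000 100000 100000 100000 100000 0 0 0) (.L 4 4 [4, 22, 22, 22, 22, 22, 22, 22, 22] [212,
    208, 204, 200, 188, 174] [] 100000 0 0 1800000 100000 100000 100000 100000 0 0 0)

lemma s22_22_8_8_27 {n : ℕ} (hn : 5 ≤ n) : NoNd (d22_22_8_8.R : ℤ) d22_22_8_8.H n d22_22_8_8.a d22_22_8_8.b
    (BlkD.inB (BlkD.upd (BlkD.upd (BlkD.upd (BlkD.upd (fun _ => 0) 0 3) 0 4) 1 6) 1 8)
      (BlkD.upd (BlkD.upd (BlkD.upd (BlkD.upd (BlkD.upd (fun _ => 22) 0 8) 2 8) 0 4) 1 11) 1 8)) :=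
  BlkD.tree_sound (BlkD.pairOk_sound k22_22_8_8) (by decide) hn t22_22_8_8_27 _ _ (by decide +kernel)

/-- certificates of the pair `(8, 8)`, part 28 -/
def t22_22_8_8_28 : BlkD.Tr :=
  .S 1 9 (.S 2 4 (.L 4 4 [4, 22, 22, 22, 22, 22, 22, 22, 22] [236, 236, 232, 228, 224, 212] []
    100000 0 0 1800000 100000 100000 100000 100000 0 0 0) (.L 4 4 [4, 22, 22, 22, 22, 22, 22, 22,
    22] [236, 236, 232, 228, 224, 212] [] 100000 0 0 1800000 100000 100000 100000 100000 0 0 0))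
    (.L 4 4 [4, 22, 22, 22, 22, 22, 22, 22, 22] [262, 262, 262, 258, 254, 250] [] 100000 0 0
    1800000 100000 100000 100000 100000 0 0 0)

lemma s22_22_8_8_28 {n : ℕ} (hn : 5 ≤ n) : NoNd (d22_22_8_8.R : ℤ) d22_22_8_8.H n d22_22_8_8.a d22_22_8_8.b
    (BlkD.inB (BlkD.upd (BlkD.upd (BlkD.upd (BlkD.upd (fun _ => 0) 0 3) 0 4) 1 6) 1 9)
      (BlkD.upd (BlkD.upd (BlkD.upd (BlkD.upd (BlkD.upd (fun _ => 22) 0 8) 2 8) 0 4) 1 11) 1 10)) :=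
  BlkD.tree_sound (BlkD.pairOk_sound k22_22_8_8) (by decide) hn t22_22_8_8_28 _ _ (by decide +kernel)

/-- certificates of the pair `(8, 8)`, part 29 -/
def t22_22_8_8_29 : BlkD.Tr :=
  .L 4 4 [4, 22, 22, 22, 22, 22, 22, 22, 22] [290, 290, 290, 290, 286, 282] [] 100000 0 0 1800000
    100000 100000 100000 100000 0 0 0

lemma s22_22_8_8_29 {n : ℕ} (hn : 5 ≤ n) : NoNd (d22_22_8_8.R : ℤ) d22_22_8_8.H n d22_22_8_8.a d22_22_8_8.b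
    (BlkD.inB (BlkD.upd (BlkD.upd (BlkD.upd (BlkD.upd (BlkD.upd (fun _ => 0) 0 3) 0 4) 1 6) 1 9) 1 11)
      (BlkD.upd (BlkD.upd (BlkD.upd (BlkD.upd (fun _ => 22) 0 8) 2 8) 0 4) 1 11)) :=
  BlkD.tree_sound (BlkD.pairOk_sound k22_22_8_8) (by decide) hn t22_22_8_8_29 _ _ (by decide +kernel)

/-- certificates of the pair `(8, 8)`, part 30 -/
def t22_22_8_8_30 : BlkD.Tr :=
  .L 4 4 [4, 22, 22, 22, 22, 22, 22, 22, 22] [] [] 100000 0 0 1800000 100000 100000 100000 100000 0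
    0 0

lemma s22_22_8_8_30 {n : ℕ} (hn : 5 ≤ n) : NoNd (d22_22_8_8.R : ℤ) d22_22_8_8.H n d22_22_8_8.a d22_22_8_8.b
    (BlkD.inB (BlkD.upd (BlkD.upd (BlkD.upd (fun _ => 0) 0 3) 0 4) 1 12)
      (BlkD.upd (BlkD.upd (BlkD.upd (fun _ => 22) 0 8) 2 8) 0 4)) :=
  BlkD.tree_sound (BlkD.pairOk_sound k22_22_8_8) (by decide) hn t22_22_8_8_30 _ _ (by decide +kernel)

/-- certificates of the pair `(8, 8)`, part 31 -/
def t22_22_8_8_31 : BlkD.Tr :=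
  .L 4 4 [4, 22, 22, 22, 22, 22, 22, 22, 22] [] [] 100000 0 0 1800000 100000 100000 100000 100000 0
    0 0

lemma s22_22_8_8_31 {n : ℕ} (hn : 5 ≤ n) : NoNd (d22_22_8_8.R : ℤ) d22_22_8_8.H n d22_22_8_8.a d22_22_8_8.b
    (BlkD.inB (BlkD.upd (fun _ => 0) 0 5)
      (BlkD.upd (BlkD.upd (BlkD.upd (BlkD.upd (BlkD.upd (BlkD.upd (BlkD.upd (fun _ => 22) 0 8) 2 8) 0 6) 0 5) 1 11) 1 5) 1 2)) :=
  BlkD.tree_sound (BlkD.pairOk_sound k22_22_8_8) (by decide) hn t22_22_8_8_31 _ _ (by decide +kernel)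

/-- certificates of the pair `(8, 8)`, part 32 -/
def t22_22_8_8_32 : BlkD.Tr :=
  .S 1 3 (.L 4 4 [4, 22, 22, 22, 22, 22, 22, 22, 22] [90, 70, 54, 36, 0, 0] [] 100000 0 0 1800000
    100000 100000 100000 100000 0 0 0) (.L 4 4 [4, 22, 22, 22, 22, 22, 22, 22, 22] [120, 106, 86,
    70, 52, 0] [] 100000 0 0 1800000 100000 100000 100000 100000 0 0 0)

lemma s22_22_8_8_32 {n : ℕ} (hn : 5 ≤ n) : NoNd (d22_22_8_8.R : ℤ) d22_22_8_8.H n d22_22_8_8.a d22_22_8_8.b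
    (BlkD.inB (BlkD.upd (BlkD.upd (fun _ => 0) 0 5) 1 3)
      (BlkD.upd (BlkD.upd (BlkD.upd (BlkD.upd (BlkD.upd (BlkD.upd (BlkD.upd (fun _ => 22) 0 8) 2 8) 0 6) 0 5) 1 11) 1 5) 1 4)) :=
  BlkD.tree_sound (BlkD.pairOk_sound k22_22_8_8) (by decide) hn t22_22_8_8_32 _ _ (by decide +kernel)

/-- certificates of the pair `(8, 8)`, part 33 -/
def t22_22_8_8_33 : BlkD.Tr :=
  .S 2 4 (.L 4 4 [4, 22, 22, 22, 22, 22, 22, 22, 22] [150, 138, 124, 104, 88, 70] [] 100000 0 0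
    1800000 100000 100000 100000 100000 0 0 0) (.L 4 4 [4, 22, 22, 22, 22, 22, 22, 22, 22] [150,
    138, 124, 104, 88, 70] [] 100000 0 0 1800000 100000 100000 100000 100000 0 0 0)

lemma s22_22_8_8_33 {n : ℕ} (hn : 5 ≤ n) : NoNd (d22_22_8_8.R : ℤ) d22_22_8_8.H n d22_22_8_8.a d22_22_8_8.b
    (BlkD.inB (BlkD.upd (BlkD.upd (BlkD.upd (fun _ => 0) 0 5) 1 3) 1 5)
      (BlkD.upd (BlkD.upd (BlkD.upd (BlkD.upd (BlkD.upd (BlkD.upd (fun _ => 22) 0 8) 2 8) 0 6) 0 5) 1 11) 1 5)) :=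
  BlkD.tree_sound (BlkD.pairOk_sound k22_22_8_8) (by decide) hn t22_22_8_8_33 _ _ (by decide +kernel)

/-- certificates of the pair `(8, 8)`, part 34 -/
def t22_22_8_8_34 : BlkD.Tr :=
  .S 2 4 (.L 4 4 [4, 22, 22, 22, 22, 22, 22, 22, 22] [174, 170, 158, 144, 124, 108] [] 100000 0 0
    1800000 100000 100000 100000 100000 0 0 0) (.L 4 4 [4, 22, 22, 22, 22, 22, 22, 22, 22] [174,
    170, 158, 144, 124, 108] [] 100000 0 0 1800000 100000 100000 100000 100000 0 0 0)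

lemma s22_22_8_8_34 {n : ℕ} (hn : 5 ≤ n) : NoNd (d22_22_8_8.R : ℤ) d22_22_8_8.H n d22_22_8_8.a d22_22_8_8.b
    (BlkD.inB (BlkD.upd (BlkD.upd (fun _ => 0) 0 5) 1 6)
      (BlkD.upd (BlkD.upd (BlkD.upd (BlkD.upd (BlkD.upd (BlkD.upd (BlkD.upd (BlkD.upd (fun _ => 22) 0 8) 2 8) 0 6) 0 5) 1 11) 1 8) 1 7) 1 6)) :=
  BlkD.tree_sound (BlkD.pairOk_sound k22_22_8_8) (by decide) hn t22_22_8_8_34 _ _ (by decide +kernel)

/-- certificates of the pair `(8, 8)`, part 35 -/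
def t22_22_8_8_35 : BlkD.Tr :=
  .L 4 4 [4, 22, 22, 22, 22, 22, 22, 22, 22] [200, 196, 192, 180, 166, 146] [] 100000 0 0 1800000
    100000 100000 100000 100000 0 0 0

lemma s22_22_8_8_35 {n : ℕ} (hn : 5 ≤ n) : NoNd (d22_22_8_8.R : ℤ) d22_22_8_8.H n d22_22_8_8.a d22_22_8_8.b
    (BlkD.inB (BlkD.upd (BlkD.upd (BlkD.upd (fun _ => 0) 0 5) 1 6) 1 7)
      (BlkD.upd (BlkD.upd (BlkD.upd (BlkD.upd (BlkD.upd (BlkD.upd (BlkD.upd (fun _ => 22) 0 8) 2 8) 0 6) 0 5) 1 11) 1 8) 1 7)) :=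
  BlkD.tree_sound (BlkD.pairOk_sound k22_22_8_8) (by decide) hn t22_22_8_8_35 _ _ (by decide +kernel)

/-- certificates of the pair `(8, 8)`, part 36 -/
def t22_22_8_8_36 : BlkD.Tr :=
  .L 4 4 [4, 22, 22, 22, 22, 22, 22, 22, 22] [228, 224, 220, 216, 204, 190] [] 100000 0 0 1800000
    100000 100000 100000 100000 0 0 0

lemma s22_22_8_8_36 {n : ℕ} (hn : 5 ≤ n) : NoNd (d22_22_8_8.R : ℤ) d22_22_8_8.H n d22_22_8_8.a d22_22_8_8.b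
    (BlkD.inB (BlkD.upd (BlkD.upd (BlkD.upd (fun _ => 0) 0 5) 1 6) 1 8)
      (BlkD.upd (BlkD.upd (BlkD.upd (BlkD.upd (BlkD.upd (BlkD.upd (fun _ => 22) 0 8) 2 8) 0 6) 0 5) 1 11) 1 8)) :=
  BlkD.tree_sound (BlkD.pairOk_sound k22_22_8_8) (by decide) hn t22_22_8_8_36 _ _ (by decide +kernel)

/-- certificates of the pair `(8, 8)`, part 37 -/
def t22_22_8_8_37 : BlkD.Tr :=
  .L 4 4 [4, 22, 22, 22, 22, 22, 22, 22, 22] [] [] 100000 0 0 1800000 100000 100000 100000 100000 0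
    0 0

lemma s22_22_8_8_37 {n : ℕ} (hn : 5 ≤ n) : NoNd (d22_22_8_8.R : ℤ) d22_22_8_8.H n d22_22_8_8.a d22_22_8_8.b
    (BlkD.inB (BlkD.upd (BlkD.upd (BlkD.upd (fun _ => 0) 0 5) 1 6) 1 9)
      (BlkD.upd (BlkD.upd (BlkD.upd (BlkD.upd (BlkD.upd (fun _ => 22) 0 8) 2 8) 0 6) 0 5) 1 11)) :=
  BlkD.tree_sound (BlkD.pairOk_sound k22_22_8_8) (by decide) hn t22_22_8_8_37 _ _ (by decide +kernel)

/-- certificates of the pair `(8, 8)`, part 38 -/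
def t22_22_8_8_38 : BlkD.Tr :=
  .L 4 4 [4, 22, 22, 22, 22, 22, 22, 22, 22] [] [] 100000 0 0 1800000 100000 100000 100000 100000 0
    0 0

lemma s22_22_8_8_38 {n : ℕ} (hn : 5 ≤ n) : NoNd (d22_22_8_8.R : ℤ) d22_22_8_8.H n d22_22_8_8.a d22_22_8_8.b
    (BlkD.inB (BlkD.upd (BlkD.upd (fun _ => 0) 0 5) 1 12)
      (BlkD.upd (BlkD.upd (BlkD.upd (BlkD.upd (fun _ => 22) 0 8) 2 8) 0 6) 0 5)) :=
  BlkD.tree_sound (BlkD.pairOk_sound k22_22_8_8) (by decide) hn t22_22_8_8_38 _ _ (by decide +kernel)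

/-- certificates of the pair `(8, 8)`, part 39 -/
def t22_22_8_8_39 : BlkD.Tr :=
  .L 4 4 [4, 22, 22, 22, 22, 22, 22, 22, 22] [] [] 100000 0 0 1800000 100000 100000 100000 100000 0
    0 0

lemma s22_22_8_8_39 {n : ℕ} (hn : 5 ≤ n) : NoNd (d22_22_8_8.R : ℤ) d22_22_8_8.H n d22_22_8_8.a d22_22_8_8.b
    (BlkD.inB (BlkD.upd (BlkD.upd (fun _ => 0) 0 5) 0 6)
      (BlkD.upd (BlkD.upd (BlkD.upd (BlkD.upd (BlkD.upd (BlkD.upd (fun _ => 22) 0 8) 2 8) 0 6) 1 11) 1 5) 1 2)) :=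
  BlkD.tree_sound (BlkD.pairOk_sound k22_22_8_8) (by decide) hn t22_22_8_8_39 _ _ (by decide +kernel)

/-- certificates of the pair `(8, 8)`, part 40 -/
def t22_22_8_8_40 : BlkD.Tr :=
  .S 1 3 (.L 4 4 [4, 22, 22, 22, 22, 22, 22, 22, 22] [96, 76, 60, 42, 0, 0] [] 100000 0 0 1800000
    100000 100000 100000 100000 0 0 0) (.L 4 4 [4, 22, 22, 22, 22, 22, 22, 22, 22] [128, 114, 94,
    78, 60, 0] [] 100000 0 0 1800000 100000 100000 100000 100000 0 0 0)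

lemma s22_22_8_8_40 {n : ℕ} (hn : 5 ≤ n) : NoNd (d22_22_8_8.R : ℤ) d22_22_8_8.H n d22_22_8_8.a d22_22_8_8.b
    (BlkD.inB (BlkD.upd (BlkD.upd (BlkD.upd (fun _ => 0) 0 5) 0 6) 1 3)
      (BlkD.upd (BlkD.upd (BlkD.upd (BlkD.upd (BlkD.upd (BlkD.upd (fun _ => 22) 0 8) 2 8) 0 6) 1 11) 1 5) 1 4)) :=
  BlkD.tree_sound (BlkD.pairOk_sound k22_22_8_8) (by decide) hn t22_22_8_8_40 _ _ (by decide +kernel)

/-- certificates of the pair `(8, 8)`, part 41 -/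
def t22_22_8_8_41 : BlkD.Tr :=
  .L 4 4 [4, 22, 22, 22, 22, 22, 22, 22, 22] [160, 148, 134, 114, 98, 80] [] 100000 0 0 1800000
    100000 100000 100000 100000 0 0 0

lemma s22_22_8_8_41 {n : ℕ} (hn : 5 ≤ n) : NoNd (d22_22_8_8.R : ℤ) d22_22_8_8.H n d22_22_8_8.a d22_22_8_8.b
    (BlkD.inB (BlkD.upd (BlkD.upd (BlkD.upd (BlkD.upd (fun _ => 0) 0 5) 0 6) 1 3) 1 5)
      (BlkD.upd (BlkD.upd (BlkD.upd (BlkD.upd (BlkD.upd (fun _ => 22) 0 8) 2 8) 0 6) 1 11) 1 5)) :=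
  BlkD.tree_sound (BlkD.pairOk_sound k22_22_8_8) (by decide) hn t22_22_8_8_41 _ _ (by decide +kernel)

/-- certificates of the pair `(8, 8)`, part 42 -/
def t22_22_8_8_42 : BlkD.Tr :=
  .L 4 4 [4, 22, 22, 22, 22, 22, 22, 22, 22] [] [] 100000 0 0 1800000 100000 100000 100000 100000 0
    0 0

lemma s22_22_8_8_42 {n : ℕ} (hn : 5 ≤ n) : NoNd (d22_22_8_8.R : ℤ) d22_22_8_8.H n d22_22_8_8.a d22_22_8_8.b
    (BlkD.inB (BlkD.upd (BlkD.upd (BlkD.upd (fun _ => 0) 0 5) 0 6) 1 6)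
      (BlkD.upd (BlkD.upd (BlkD.upd (BlkD.upd (fun _ => 22) 0 8) 2 8) 0 6) 1 11)) :=
  BlkD.tree_sound (BlkD.pairOk_sound k22_22_8_8) (by decide) hn t22_22_8_8_42 _ _ (by decide +kernel)

/-- certificates of the pair `(8, 8)`, part 43 -/
def t22_22_8_8_43 : BlkD.Tr :=
  .L 4 4 [4, 22, 22, 22, 22, 22, 22, 22, 22] [] [] 100000 0 0 1800000 100000 100000 100000 100000 0
    0 0

lemma s22_22_8_8_43 {n : ℕ} (hn : 5 ≤ n) : NoNd (d22_22_8_8.R : ℤ) d22_22_8_8.H n d22_22_8_8.a d22_22_8_8.b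
    (BlkD.inB (BlkD.upd (BlkD.upd (BlkD.upd (fun _ => 0) 0 5) 0 6) 1 12)
      (BlkD.upd (BlkD.upd (BlkD.upd (fun _ => 22) 0 8) 2 8) 0 6)) :=
  BlkD.tree_sound (BlkD.pairOk_sound k22_22_8_8) (by decide) hn t22_22_8_8_43 _ _ (by decide +kernel)

/-- certificates of the pair `(8, 8)`, part 44 -/
def t22_22_8_8_44 : BlkD.Tr :=
  .S 0 7 (.S 1 11 (.S 1 5 (.S 1 2 (.L 4 4 [4, 22, 22, 22, 22, 22, 22, 22, 22] [] [] 100000 0 0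
    1800000 100000 100000 100000 100000 0 0 0) (.L 4 4 [4, 22, 22, 22, 22, 22, 22, 22, 22] [] []
    100000 0 0 1800000 100000 100000 100000 100000 0 0 0)) (.L 4 4 [4, 22, 22, 22, 22, 22, 22, 22,
    22] [] [] 100000 0 0 1800000 100000 100000 100000 100000 0 0 0)) (.L 4 4 [4, 22, 22, 22, 22,
    22, 22, 22, 22] [] [] 100000 0 0 1800000 100000 100000 100000 100000 0 0 0)) (.L 4 4 [4, 22,
    22, 22, 22, 22, 22, 22, 22] [] [] 100000 0 0 1800000 100000 100000 100000 100000 0 0 0)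

lemma s22_22_8_8_44 {n : ℕ} (hn : 5 ≤ n) : NoNd (d22_22_8_8.R : ℤ) d22_22_8_8.H n d22_22_8_8.a d22_22_8_8.b
    (BlkD.inB (BlkD.upd (BlkD.upd (fun _ => 0) 0 5) 0 7)
      (BlkD.upd (BlkD.upd (fun _ => 22) 0 8) 2 8)) :=
  BlkD.tree_sound (BlkD.pairOk_sound k22_22_8_8) (by decide) hn t22_22_8_8_44 _ _ (by decide +kernel)

/-- certificates of the pair `(8, 8)`, part 45 -/
def t22_22_8_8_45 : BlkD.Tr :=
  .E 1

lemma s22_22_8_8_45 {n : ℕ} (hn : 5 ≤ n) : NoNd (d22_22_8_8.R : ℤ) d22_22_8_8.H n d22_22_8_8.a d22_22_8_8.b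
    (BlkD.inB (BlkD.upd (fun _ => 0) 2 9)
      (BlkD.upd (fun _ => 22) 0 8)) :=
  BlkD.tree_sound (BlkD.pairOk_sound k22_22_8_8) (by decide) hn t22_22_8_8_45 _ _ (by decide +kernel)

/-- certificates of the pair `(8, 8)`, part 46 -/
def t22_22_8_8_46 : BlkD.Tr :=
  .E 0

lemma s22_22_8_8_46 {n : ℕ} (hn : 5 ≤ n) : NoNd (d22_22_8_8.R : ℤ) d22_22_8_8.H n d22_22_8_8.a d22_22_8_8.b
    (BlkD.inB (BlkD.upd (fun _ => 0) 0 9)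
      (fun _ => 22)) :=
  BlkD.tree_sound (BlkD.pairOk_sound k22_22_8_8) (by decide) hn t22_22_8_8_46 _ _ (by decide +kernel)

lemma pr22_22_8_8 {n : ℕ} (hn : 5 ≤ n) : NoPr ((22 : ℕ) : ℤ) ((22 : ℕ) : ℤ) n 8 8 :=
  BlkD.of_root (R := d22_22_8_8.R) (H := d22_22_8_8.H) (a := d22_22_8_8.a) (b := d22_22_8_8.b) (q := 3) (by decide) hn
    (BlkD.sp 0 8 (BlkD.sp 2 8 (BlkD.sp 0 4 (BlkD.sp 0 2 (BlkD.sp 0 1 (BlkD.sp 0 0 (s22_22_8_8_1 hn)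
      (s22_22_8_8_2 hn)) (BlkD.sp 1 11 (BlkD.sp 1 5 (s22_22_8_8_3 hn) (BlkD.sp 1 8 (BlkD.sp 1 7
      (s22_22_8_8_4 hn) (s22_22_8_8_5 hn)) (s22_22_8_8_6 hn))) (s22_22_8_8_7 hn))) (BlkD.sp 0 3
      (BlkD.sp 1 11 (BlkD.sp 1 5 (BlkD.sp 1 2 (s22_22_8_8_8 hn) (BlkD.sp 1 4 (s22_22_8_8_9 hn)
      (s22_22_8_8_10 hn))) (BlkD.sp 1 8 (BlkD.sp 1 7 (BlkD.sp 1 6 (s22_22_8_8_11 hn) (BlkD.sp 2 4
      (s22_22_8_8_12 hn) (s22_22_8_8_13 hn))) (BlkD.sp 2 4 (s22_22_8_8_14 hn) (s22_22_8_8_15 hn)))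
      (BlkD.sp 1 10 (BlkD.sp 1 9 (s22_22_8_8_16 hn) (s22_22_8_8_17 hn)) (s22_22_8_8_18 hn))))
      (s22_22_8_8_19 hn)) (BlkD.sp 1 11 (BlkD.sp 1 5 (BlkD.sp 1 2 (s22_22_8_8_20 hn) (BlkD.sp 1 4
      (s22_22_8_8_21 hn) (s22_22_8_8_22 hn))) (BlkD.sp 1 8 (BlkD.sp 1 7 (BlkD.sp 1 6 (BlkD.sp 2 4
      (s22_22_8_8_23 hn) (s22_22_8_8_24 hn)) (BlkD.sp 2 4 (s22_22_8_8_25 hn) (s22_22_8_8_26 hn)))
      (s22_22_8_8_27 hn)) (BlkD.sp 1 10 (s22_22_8_8_28 hn) (s22_22_8_8_29 hn)))) (s22_22_8_8_30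
      hn)))) (BlkD.sp 0 6 (BlkD.sp 0 5 (BlkD.sp 1 11 (BlkD.sp 1 5 (BlkD.sp 1 2 (s22_22_8_8_31 hn)
      (BlkD.sp 1 4 (s22_22_8_8_32 hn) (s22_22_8_8_33 hn))) (BlkD.sp 1 8 (BlkD.sp 1 7 (BlkD.sp 1 6
      (s22_22_8_8_34 hn) (s22_22_8_8_35 hn)) (s22_22_8_8_36 hn)) (s22_22_8_8_37 hn)))
      (s22_22_8_8_38 hn)) (BlkD.sp 1 11 (BlkD.sp 1 5 (BlkD.sp 1 2 (s22_22_8_8_39 hn) (BlkD.sp 1 4
      (s22_22_8_8_40 hn) (s22_22_8_8_41 hn))) (s22_22_8_8_42 hn)) (s22_22_8_8_43 hn)))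
      (s22_22_8_8_44 hn))) (s22_22_8_8_45 hn)) (s22_22_8_8_46 hn))

end BlkC

end Pool.Agent.Lib.MP_f04ccf_co
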