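import Pool.Agent.Lib.MP_f04ccf_co.M.BlkT

/-!
MP_f04ccf_co, block certificate, data `R = 22`, `H = 22`, part 13 (generated, helper99:
bd10.cpp, gen2.py).
-/

set_option autoImplicit false
set_option maxRecDepth 100000

namespace Pool.Agent.Lib.MP_f04ccf_co

namespace BlkC

/-- the numbers of the pair `(9, 0)`, `R = 22`, `H = 22` -/
def d22_22_9_0 : BlkD.Pd :=
  ⟨22, 22, 3, 9, 0, 10, 0, 1, 0, 4, 4, 0, 0, 4, 4, 0, [0, 4, 8, 12, 16, 20, 24, 28, 32, 36, 40],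
    [0, 4, 8, 12, 16, 20, 24, 28, 32, 36, 40], [⟨1, 1, 1, 4, 8, [0, 4], [0, 4]⟩]⟩

/-- the certificates of the pair `(9, 0)` -/
def t22_22_9_0 : BlkD.Tr :=
  .S 0 9 (.S 2 0 (.S 0 4 (.S 0 2 (.L 4 4 [4] [] [] 100000 0 0 1050000 50000 0 75000 0 0 0 0) (.L 4
    4 [4] [] [] 100000 0 0 1050000 50000 0 75000 0 0 0 0)) (.L 4 4 [4] [] [] 100000 0 0 1050000
    50000 0 75000 0 0 0 0)) (.E 1)) (.E 0)

lemma pr22_22_9_0 {n : ℕ} (hn : 5 ≤ n) : NoPr ((22 : ℕ) : ℤ) ((22 : ℕ) : ℤ) n 9 0 :=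
  BlkD.pair_sound (d := d22_22_9_0) (by decide +kernel) hn (by decide) (tr := t22_22_9_0)
    (by decide +kernel) rfl rfl rfl rfl

/-- the numbers of the pair `(9, 1)`, `R = 22`, `H = 22` -/
def d22_22_9_1 : BlkD.Pd :=
  ⟨22, 22, 3, 9, 1, 9, 1, 1, 0, 4, 8, 0, 0, 4, 4, 0, [0, 8, 16, 24, 32, 36, 36, 36, 36, 36], [0, 4,
    8, 12, 16, 20, 24, 28, 32, 36], [⟨1, 1, 1, 4, 8, [0, 4], [0, 4]⟩, ⟨1, 1, 1, 4, 12, [0, 8], [0,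
    4]⟩]⟩

lemma k22_22_9_1 : BlkD.pairOk d22_22_9_1 = true := by decide +kernel

/-- certificates of the pair `(9, 1)`, part 1 -/
def t22_22_9_1_1 : BlkD.Tr :=
  .S 0 1 (.L 4 6 [4, 4] [] [] 100000 0 0 1150000 50000 0 100000 0 0 0 0) (.L 4 6 [4, 4] [] []
    100000 0 0 1150000 50000 0 100000 0 0 0 0)

lemma s22_22_9_1_1 {n : ℕ} (hn : 5 ≤ n) : NoNd (d22_22_9_1.R : ℤ) d22_22_9_1.H n d22_22_9_1.a d22_22_9_1.b
    (BlkD.inB (fun _ => 0)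
      (BlkD.upd (BlkD.upd (BlkD.upd (BlkD.upd (fun _ => 22) 0 9) 2 1) 0 4) 0 2)) :=
  BlkD.tree_sound (BlkD.pairOk_sound k22_22_9_1) (by decide) hn t22_22_9_1_1 _ _ (by decide +kernel)

/-- certificates of the pair `(9, 1)`, part 2 -/
def t22_22_9_1_2 : BlkD.Tr :=
  .L 4 6 [4, 4] [] [] 100000 0 0 1150000 50000 0 100000 0 0 0 0

lemma s22_22_9_1_2 {n : ℕ} (hn : 5 ≤ n) : NoNd (d22_22_9_1.R : ℤ) d22_22_9_1.H n d22_22_9_1.a d22_22_9_1.b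
    (BlkD.inB (BlkD.upd (fun _ => 0) 0 3)
      (BlkD.upd (BlkD.upd (BlkD.upd (fun _ => 22) 0 9) 2 1) 0 4)) :=
  BlkD.tree_sound (BlkD.pairOk_sound k22_22_9_1) (by decide) hn t22_22_9_1_2 _ _ (by decide +kernel)

/-- certificates of the pair `(9, 1)`, part 3 -/
def t22_22_9_1_3 : BlkD.Tr :=
  .L 4 6 [4, 4] [] [] 100000 0 0 1150000 50000 0 100000 0 0 0 0

lemma s22_22_9_1_3 {n : ℕ} (hn : 5 ≤ n) : NoNd (d22_22_9_1.R : ℤ) d22_22_9_1.H n d22_22_9_1.a d22_22_9_1.b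
    (BlkD.inB (BlkD.upd (fun _ => 0) 0 5)
      (BlkD.upd (BlkD.upd (fun _ => 22) 0 9) 2 1)) :=
  BlkD.tree_sound (BlkD.pairOk_sound k22_22_9_1) (by decide) hn t22_22_9_1_3 _ _ (by decide +kernel)

/-- certificates of the pair `(9, 1)`, part 4 -/
def t22_22_9_1_4 : BlkD.Tr :=
  .E 1

lemma s22_22_9_1_4 {n : ℕ} (hn : 5 ≤ n) : NoNd (d22_22_9_1.R : ℤ) d22_22_9_1.H n d22_22_9_1.a d22_22_9_1.b
    (BlkD.inB (BlkD.upd (fun _ => 0) 2 2)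
      (BlkD.upd (fun _ => 22) 0 9)) :=
  BlkD.tree_sound (BlkD.pairOk_sound k22_22_9_1) (by decide) hn t22_22_9_1_4 _ _ (by decide +kernel)

/-- certificates of the pair `(9, 1)`, part 5 -/
def t22_22_9_1_5 : BlkD.Tr :=
  .E 0

lemma s22_22_9_1_5 {n : ℕ} (hn : 5 ≤ n) : NoNd (d22_22_9_1.R : ℤ) d22_22_9_1.H n d22_22_9_1.a d22_22_9_1.b
    (BlkD.inB (BlkD.upd (fun _ => 0) 0 10)
      (fun _ => 22)) :=
  BlkD.tree_sound (BlkD.pairOk_sound k22_22_9_1) (by decide) hn t22_22_9_1_5 _ _ (by decide +kernel)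

lemma pr22_22_9_1 {n : ℕ} (hn : 5 ≤ n) : NoPr ((22 : ℕ) : ℤ) ((22 : ℕ) : ℤ) n 9 1 :=
  BlkD.of_root (R := d22_22_9_1.R) (H := d22_22_9_1.H) (a := d22_22_9_1.a) (b := d22_22_9_1.b) (q := 3) (by decide) hn
    (BlkD.sp 0 9 (BlkD.sp 2 1 (BlkD.sp 0 4 (BlkD.sp 0 2 (s22_22_9_1_1 hn) (s22_22_9_1_2 hn))
      (s22_22_9_1_3 hn)) (s22_22_9_1_4 hn)) (s22_22_9_1_5 hn))

/-- the numbers of the pair `(9, 2)`, `R = 22`, `H = 22` -/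
def d22_22_9_2 : BlkD.Pd :=
  ⟨22, 22, 3, 9, 2, 8, 2, 2, 0, 4, 10, 0, 3, 1, 6, 0, [0, 10, 20, 30, 32, 32, 32, 32, 32], [0, 6,
    12, 17, 20, 23, 26, 29, 32], [⟨1, 1, 1, 4, 8, [0, 4], [0, 4]⟩, ⟨1, 1, 1, 4, 12, [0, 8], [0,
    4]⟩, ⟨2, 1, 1, 6, 16, [0, 10, 10], [0, 6]⟩]⟩

lemma k22_22_9_2 : BlkD.pairOk d22_22_9_2 = true := by decide +kernel

/-- certificates of the pair `(9, 2)`, part 1 -/
def t22_22_9_2_1 : BlkD.Tr :=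
  .L 4 6 [4, 4, 5] [] [] 100000 20000 20000 1260000 40000 0 80000 20000 0 0 0

lemma s22_22_9_2_1 {n : ℕ} (hn : 5 ≤ n) : NoNd (d22_22_9_2.R : ℤ) d22_22_9_2.H n d22_22_9_2.a d22_22_9_2.b
    (BlkD.inB (fun _ => 0)
      (BlkD.upd (BlkD.upd (BlkD.upd (BlkD.upd (BlkD.upd (BlkD.upd (fun _ => 22) 0 9) 2 2) 0 4) 0 2) 0 1) 0 0)) :=
  BlkD.tree_sound (BlkD.pairOk_sound k22_22_9_2) (by decide) hn t22_22_9_2_1 _ _ (by decide +kernel)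

/-- certificates of the pair `(9, 2)`, part 2 -/
def t22_22_9_2_2 : BlkD.Tr :=
  .S 1 11 (.S 1 5 (.L 4 6 [4, 4, 5] [] [] 100000 20000 20000 1260000 40000 0 80000 20000 0 0 0) (.L
    4 6 [4, 4, 5] [] [] 100000 20000 20000 1260000 40000 0 80000 20000 0 0 0)) (.L 4 6 [4, 4, 5] []
    [] 100000 20000 20000 1260000 40000 0 80000 20000 0 0 0)

lemma s22_22_9_2_2 {n : ℕ} (hn : 5 ≤ n) : NoNd (d22_22_9_2.R : ℤ) d22_22_9_2.H n d22_22_9_2.a d22_22_9_2.b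
    (BlkD.inB (BlkD.upd (fun _ => 0) 0 1)
      (BlkD.upd (BlkD.upd (BlkD.upd (BlkD.upd (BlkD.upd (fun _ => 22) 0 9) 2 2) 0 4) 0 2) 0 1)) :=
  BlkD.tree_sound (BlkD.pairOk_sound k22_22_9_2) (by decide) hn t22_22_9_2_2 _ _ (by decide +kernel)

/-- certificates of the pair `(9, 2)`, part 3 -/
def t22_22_9_2_3 : BlkD.Tr :=
  .S 1 11 (.S 1 5 (.L 4 6 [4, 4, 5] [] [] 100000 20000 20000 1260000 40000 0 80000 20000 0 0 0) (.L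
    4 6 [4, 4, 5] [] [] 100000 20000 20000 1260000 40000 0 80000 20000 0 0 0)) (.L 4 6 [4, 4, 5] []
    [] 100000 20000 20000 1260000 40000 0 80000 20000 0 0 0)

lemma s22_22_9_2_3 {n : ℕ} (hn : 5 ≤ n) : NoNd (d22_22_9_2.R : ℤ) d22_22_9_2.H n d22_22_9_2.a d22_22_9_2.b
    (BlkD.inB (BlkD.upd (fun _ => 0) 0 2)
      (BlkD.upd (BlkD.upd (BlkD.upd (BlkD.upd (fun _ => 22) 0 9) 2 2) 0 4) 0 2)) :=
  BlkD.tree_sound (BlkD.pairOk_sound k22_22_9_2) (by decide) hn t22_22_9_2_3 _ _ (by decide +kernel)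

/-- certificates of the pair `(9, 2)`, part 4 -/
def t22_22_9_2_4 : BlkD.Tr :=
  .S 1 11 (.S 1 5 (.L 4 6 [4, 4, 5] [] [] 100000 20000 20000 1260000 40000 0 80000 20000 0 0 0) (.L
    4 6 [4, 4, 5] [] [] 100000 20000 20000 1260000 40000 0 80000 20000 0 0 0)) (.L 4 6 [4, 4, 5] []
    [] 100000 20000 20000 1260000 40000 0 80000 20000 0 0 0)

lemma s22_22_9_2_4 {n : ℕ} (hn : 5 ≤ n) : NoNd (d22_22_9_2.R : ℤ) d22_22_9_2.H n d22_22_9_2.a d22_22_9_2.b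
    (BlkD.inB (BlkD.upd (fun _ => 0) 0 3)
      (BlkD.upd (BlkD.upd (BlkD.upd (BlkD.upd (fun _ => 22) 0 9) 2 2) 0 4) 0 3)) :=
  BlkD.tree_sound (BlkD.pairOk_sound k22_22_9_2) (by decide) hn t22_22_9_2_4 _ _ (by decide +kernel)

/-- certificates of the pair `(9, 2)`, part 5 -/
def t22_22_9_2_5 : BlkD.Tr :=
  .S 1 11 (.S 1 5 (.L 4 6 [4, 4, 5] [] [] 100000 20000 20000 1260000 40000 0 80000 20000 0 0 0) (.L
    4 6 [4, 4, 5] [] [] 100000 20000 20000 1260000 40000 0 80000 20000 0 0 0)) (.L 4 6 [4, 4, 5] []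
    [] 100000 20000 20000 1260000 40000 0 80000 20000 0 0 0)

lemma s22_22_9_2_5 {n : ℕ} (hn : 5 ≤ n) : NoNd (d22_22_9_2.R : ℤ) d22_22_9_2.H n d22_22_9_2.a d22_22_9_2.b
    (BlkD.inB (BlkD.upd (BlkD.upd (fun _ => 0) 0 3) 0 4)
      (BlkD.upd (BlkD.upd (BlkD.upd (fun _ => 22) 0 9) 2 2) 0 4)) :=
  BlkD.tree_sound (BlkD.pairOk_sound k22_22_9_2) (by decide) hn t22_22_9_2_5 _ _ (by decide +kernel)

/-- certificates of the pair `(9, 2)`, part 6 -/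
def t22_22_9_2_6 : BlkD.Tr :=
  .S 0 5 (.S 1 17 (.S 1 8 (.L 4 6 [4, 4, 5] [] [] 100000 0 0 1333336 33333 0 33333 16667 0 16667
    16667) (.L 4 6 [4, 4, 5] [] [] 100000 0 0 1377779 22222 0 88889 11111 0 11111 11111)) (.E 0))
    (.L 4 6 [4, 4, 5] [] [] 100000 0 0 1391669 20833 0 83333 8333 8333 8333 8333)

lemma s22_22_9_2_6 {n : ℕ} (hn : 5 ≤ n) : NoNd (d22_22_9_2.R : ℤ) d22_22_9_2.H n d22_22_9_2.a d22_22_9_2.b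
    (BlkD.inB (BlkD.upd (fun _ => 0) 0 5)
      (BlkD.upd (BlkD.upd (BlkD.upd (BlkD.upd (fun _ => 22) 0 9) 2 2) 0 7) 0 6)) :=
  BlkD.tree_sound (BlkD.pairOk_sound k22_22_9_2) (by decide) hn t22_22_9_2_6 _ _ (by decide +kernel)

/-- certificates of the pair `(9, 2)`, part 7 -/
def t22_22_9_2_7 : BlkD.Tr :=
  .L 4 6 [4, 4, 5] [] [] 100000 1 1 1394739 21053 0 60526 10526 7895 7895 7895

lemma s22_22_9_2_7 {n : ℕ} (hn : 5 ≤ n) : NoNd (d22_22_9_2.R : ℤ) d22_22_9_2.H n d22_22_9_2.a d22_22_9_2.b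
    (BlkD.inB (BlkD.upd (BlkD.upd (fun _ => 0) 0 5) 0 7)
      (BlkD.upd (BlkD.upd (BlkD.upd (fun _ => 22) 0 9) 2 2) 0 7)) :=
  BlkD.tree_sound (BlkD.pairOk_sound k22_22_9_2) (by decide) hn t22_22_9_2_7 _ _ (by decide +kernel)

/-- certificates of the pair `(9, 2)`, part 8 -/
def t22_22_9_2_8 : BlkD.Tr :=
  .L 4 6 [4, 4, 5] [] [] 100000 1 0 1350001 16667 0 58333 16667 8333 8333 8333

lemma s22_22_9_2_8 {n : ℕ} (hn : 5 ≤ n) : NoNd (d22_22_9_2.R : ℤ) d22_22_9_2.H n d22_22_9_2.a d22_22_9_2.b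
    (BlkD.inB (BlkD.upd (BlkD.upd (fun _ => 0) 0 5) 0 8)
      (BlkD.upd (BlkD.upd (fun _ => 22) 0 9) 2 2)) :=
  BlkD.tree_sound (BlkD.pairOk_sound k22_22_9_2) (by decide) hn t22_22_9_2_8 _ _ (by decide +kernel)

/-- certificates of the pair `(9, 2)`, part 9 -/
def t22_22_9_2_9 : BlkD.Tr :=
  .E 1

lemma s22_22_9_2_9 {n : ℕ} (hn : 5 ≤ n) : NoNd (d22_22_9_2.R : ℤ) d22_22_9_2.H n d22_22_9_2.a d22_22_9_2.b
    (BlkD.inB (BlkD.upd (fun _ => 0) 2 3)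
      (BlkD.upd (fun _ => 22) 0 9)) :=
  BlkD.tree_sound (BlkD.pairOk_sound k22_22_9_2) (by decide) hn t22_22_9_2_9 _ _ (by decide +kernel)

/-- certificates of the pair `(9, 2)`, part 10 -/
def t22_22_9_2_10 : BlkD.Tr :=
  .E 0

lemma s22_22_9_2_10 {n : ℕ} (hn : 5 ≤ n) : NoNd (d22_22_9_2.R : ℤ) d22_22_9_2.H n d22_22_9_2.a d22_22_9_2.b
    (BlkD.inB (BlkD.upd (fun _ => 0) 0 10)
      (fun _ => 22)) :=
  BlkD.tree_sound (BlkD.pairOk_sound k22_22_9_2) (by decide) hn t22_22_9_2_10 _ _ (by decide +kernel)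

lemma pr22_22_9_2 {n : ℕ} (hn : 5 ≤ n) : NoPr ((22 : ℕ) : ℤ) ((22 : ℕ) : ℤ) n 9 2 :=
  BlkD.of_root (R := d22_22_9_2.R) (H := d22_22_9_2.H) (a := d22_22_9_2.a) (b := d22_22_9_2.b) (q := 3) (by decide) hn
    (BlkD.sp 0 9 (BlkD.sp 2 2 (BlkD.sp 0 4 (BlkD.sp 0 2 (BlkD.sp 0 1 (BlkD.sp 0 0 (s22_22_9_2_1 hn)
      (s22_22_9_2_2 hn)) (s22_22_9_2_3 hn)) (BlkD.sp 0 3 (s22_22_9_2_4 hn) (s22_22_9_2_5 hn)))
      (BlkD.sp 0 7 (BlkD.sp 0 6 (s22_22_9_2_6 hn) (s22_22_9_2_7 hn)) (s22_22_9_2_8 hn)))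
      (s22_22_9_2_9 hn)) (s22_22_9_2_10 hn))

end BlkC

end Pool.Agent.Lib.MP_f04ccf_co
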