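import Pool.Agent.Lib.MP_f04ccf_co.M.BlkT

/-!
MP_f04ccf_co, block certificate, data `R = 22`, `H = 22`, part 14 (generated, helper99:
bd10.cpp, gen2.py).
-/

set_option autoImplicit false
set_option maxRecDepth 100000

namespace Pool.Agent.Lib.MP_f04ccf_co

namespace BlkC

/-- the numbers of the pair `(9, 3)`, `R = 22`, `H = 22` -/
def d22_22_9_3 : BlkD.Pd :=
  ⟨22, 22, 3, 9, 3, 7, 3, 2, 1, 5, 12, 0, 4, 1, 8, 0, [0, 12, 24, 36, 39, 40, 41, 42], [0, 8, 15,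
    19, 23, 27, 31, 35], [⟨1, 1, 1, 4, 8, [0, 4], [0, 4]⟩, ⟨1, 1, 1, 6, 14, [0, 8], [0, 6]⟩, ⟨2, 1,
    1, 6, 16, [0, 10, 10], [0, 6]⟩, ⟨2, 1, 1, 6, 30, [0, 12, 22], [0, 8]⟩]⟩

lemma k22_22_9_3 : BlkD.pairOk d22_22_9_3 = true := by decide +kernel

/-- certificates of the pair `(9, 3)`, part 1 -/
def t22_22_9_3_1 : BlkD.Tr :=
  .L 5 8 [4, 4, 5, 5] [] [] 100000 150000 150000 800000 100000 0 100000 0 0 0 0

lemma s22_22_9_3_1 {n : ℕ} (hn : 5 ≤ n) : NoNd (d22_22_9_3.R : ℤ) d22_22_9_3.H n d22_22_9_3.a d22_22_9_3.b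
    (BlkD.inB (fun _ => 0)
      (BlkD.upd (BlkD.upd (BlkD.upd (BlkD.upd (BlkD.upd (BlkD.upd (fun _ => 22) 0 9) 2 3) 0 4) 0 2) 0 1) 0 0)) :=
  BlkD.tree_sound (BlkD.pairOk_sound k22_22_9_3) (by decide) hn t22_22_9_3_1 _ _ (by decide +kernel)

/-- certificates of the pair `(9, 3)`, part 2 -/
def t22_22_9_3_2 : BlkD.Tr :=
  .S 1 5 (.L 5 8 [4, 4, 5, 5] [] [] 100000 150000 150000 800000 100000 0 100000 0 0 0 0) (.S 1 8
    (.L 5 8 [4, 4, 5, 5] [] [] 100000 150000 150000 800000 100000 0 100000 0 0 0 0) (.L 5 8 [4, 4,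
    5, 5] [] [] 100000 150000 150000 800000 100000 0 100000 0 0 0 0))

lemma s22_22_9_3_2 {n : ℕ} (hn : 5 ≤ n) : NoNd (d22_22_9_3.R : ℤ) d22_22_9_3.H n d22_22_9_3.a d22_22_9_3.b
    (BlkD.inB (BlkD.upd (fun _ => 0) 0 1)
      (BlkD.upd (BlkD.upd (BlkD.upd (BlkD.upd (BlkD.upd (BlkD.upd (fun _ => 22) 0 9) 2 3) 0 4) 0 2) 0 1) 1 11)) :=
  BlkD.tree_sound (BlkD.pairOk_sound k22_22_9_3) (by decide) hn t22_22_9_3_2 _ _ (by decide +kernel)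

/-- certificates of the pair `(9, 3)`, part 3 -/
def t22_22_9_3_3 : BlkD.Tr :=
  .L 5 8 [4, 4, 5, 5] [] [] 100000 150000 150000 800000 100000 0 100000 0 0 0 0

lemma s22_22_9_3_3 {n : ℕ} (hn : 5 ≤ n) : NoNd (d22_22_9_3.R : ℤ) d22_22_9_3.H n d22_22_9_3.a d22_22_9_3.b
    (BlkD.inB (BlkD.upd (BlkD.upd (fun _ => 0) 0 1) 1 12)
      (BlkD.upd (BlkD.upd (BlkD.upd (BlkD.upd (BlkD.upd (fun _ => 22) 0 9) 2 3) 0 4) 0 2) 0 1)) :=
  BlkD.tree_sound (BlkD.pairOk_sound k22_22_9_3) (by decide) hn t22_22_9_3_3 _ _ (by decide +kernel)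

/-- certificates of the pair `(9, 3)`, part 4 -/
def t22_22_9_3_4 : BlkD.Tr :=
  .L 5 8 [4, 4, 5, 5] [] [] 100000 150000 150000 800000 100000 0 100000 0 0 0 0

lemma s22_22_9_3_4 {n : ℕ} (hn : 5 ≤ n) : NoNd (d22_22_9_3.R : ℤ) d22_22_9_3.H n d22_22_9_3.a d22_22_9_3.b
    (BlkD.inB (BlkD.upd (fun _ => 0) 0 2)
      (BlkD.upd (BlkD.upd (BlkD.upd (BlkD.upd (BlkD.upd (BlkD.upd (fun _ => 22) 0 9) 2 3) 0 4) 0 2) 1 11) 1 5)) :=
  BlkD.tree_sound (BlkD.pairOk_sound k22_22_9_3) (by decide) hn t22_22_9_3_4 _ _ (by decide +kernel)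

/-- certificates of the pair `(9, 3)`, part 5 -/
def t22_22_9_3_5 : BlkD.Tr :=
  .S 1 8 (.L 5 8 [4, 4, 5, 5] [] [] 100000 150000 150000 800000 100000 0 100000 0 0 0 0) (.L 5 8
    [4, 4, 5, 5] [] [] 100000 150000 150000 800000 100000 0 100000 0 0 0 0)

lemma s22_22_9_3_5 {n : ℕ} (hn : 5 ≤ n) : NoNd (d22_22_9_3.R : ℤ) d22_22_9_3.H n d22_22_9_3.a d22_22_9_3.b
    (BlkD.inB (BlkD.upd (BlkD.upd (fun _ => 0) 0 2) 1 6)
      (BlkD.upd (BlkD.upd (BlkD.upd (BlkD.upd (BlkD.upd (fun _ => 22) 0 9) 2 3) 0 4) 0 2) 1 11)) :=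
  BlkD.tree_sound (BlkD.pairOk_sound k22_22_9_3) (by decide) hn t22_22_9_3_5 _ _ (by decide +kernel)

/-- certificates of the pair `(9, 3)`, part 6 -/
def t22_22_9_3_6 : BlkD.Tr :=
  .L 5 8 [4, 4, 5, 5] [] [] 100000 150000 150000 800000 100000 0 100000 0 0 0 0

lemma s22_22_9_3_6 {n : ℕ} (hn : 5 ≤ n) : NoNd (d22_22_9_3.R : ℤ) d22_22_9_3.H n d22_22_9_3.a d22_22_9_3.b
    (BlkD.inB (BlkD.upd (BlkD.upd (fun _ => 0) 0 2) 1 12)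
      (BlkD.upd (BlkD.upd (BlkD.upd (BlkD.upd (fun _ => 22) 0 9) 2 3) 0 4) 0 2)) :=
  BlkD.tree_sound (BlkD.pairOk_sound k22_22_9_3) (by decide) hn t22_22_9_3_6 _ _ (by decide +kernel)

/-- certificates of the pair `(9, 3)`, part 7 -/
def t22_22_9_3_7 : BlkD.Tr :=
  .S 1 4 (.L 5 8 [4, 4, 5, 5] [] [] 100000 44444 44443 1066668 33333 0 33333 0 0 0 0) (.S 1 7 (.L 5
    8 [4, 4, 5, 5] [] [] 100000 31250 31250 1275000 31250 0 31250 6250 0 25000 6250) (.S 1 8 (.L 5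
    8 [4, 4, 5, 5] [167, 166, 165, 162, 152, 140] [] 100000 32539 32538 1295242 35714 0 42857 19048
    0 23810 7143) (.L 5 8 [4, 4, 5, 5] [190, 189, 188, 187, 184, 174] [] 100000 33660 33660 1310789
    41176 0 52941 18627 0 22549 17647)))

lemma s22_22_9_3_7 {n : ℕ} (hn : 5 ≤ n) : NoNd (d22_22_9_3.R : ℤ) d22_22_9_3.H n d22_22_9_3.a d22_22_9_3.b
    (BlkD.inB (BlkD.upd (fun _ => 0) 0 3)
      (BlkD.upd (BlkD.upd (BlkD.upd (BlkD.upd (BlkD.upd (BlkD.upd (fun _ => 22) 0 9) 2 3) 0 4) 0 3) 1 19) 1 9)) :=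
  BlkD.tree_sound (BlkD.pairOk_sound k22_22_9_3) (by decide) hn t22_22_9_3_7 _ _ (by decide +kernel)

/-- certificates of the pair `(9, 3)`, part 8 -/
def t22_22_9_3_8 : BlkD.Tr :=
  .S 1 14 (.S 1 12 (.S 1 11 (.S 1 10 (.L 5 8 [4, 4, 5, 5] [215, 214, 213, 212, 211, 208] [] 100000
    52041 52040 1235715 52041 0 63265 43878 0 15306 11224) (.L 5 8 [4, 4, 5, 5] [242, 241, 240,
    239, 238, 237] [] 100000 66667 66667 1177779 61111 0 77778 33333 0 0 16667)) (.L 5 8 [4, 4, 5,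
    5] [271, 270, 269, 268, 267, 266] [] 100000 100001 95653 969563 86957 0 104348 34783 0 0 4348))
    (.S 1 13 (.L 5 8 [4, 4, 5, 5] [302, 301, 300, 299, 298, 297] [] 100000 108334 91667 899997
    91667 0 116667 25000 0 0 0) (.L 5 8 [4, 4, 5, 5] [335, 334, 333, 332, 331, 330] [] 100000
    280000 190000 0 190000 0 190000 0 0 0 0))) (.S 1 17 (.S 1 16 (.S 1 15 (.L 5 8 [4, 4, 5, 5]
    [370, 369, 368, 367, 366, 365] [] 100000 195454 98484 2 163636 0 196970 0 0 0 0) (.L 5 8 [4, 4,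
    5, 5] [407, 406, 405, 404, 403, 402] [] 100000 174419 81396 0 155814 0 174419 0 0 0 0)) (.E 0))
    (.E 0))

lemma s22_22_9_3_8 {n : ℕ} (hn : 5 ≤ n) : NoNd (d22_22_9_3.R : ℤ) d22_22_9_3.H n d22_22_9_3.a d22_22_9_3.b
    (BlkD.inB (BlkD.upd (BlkD.upd (fun _ => 0) 0 3) 1 10)
      (BlkD.upd (BlkD.upd (BlkD.upd (BlkD.upd (BlkD.upd (fun _ => 22) 0 9) 2 3) 0 4) 0 3) 1 19)) :=
  BlkD.tree_sound (BlkD.pairOk_sound k22_22_9_3) (by decide) hn t22_22_9_3_8 _ _ (by decide +kernel)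

/-- certificates of the pair `(9, 3)`, part 9 -/
def t22_22_9_3_9 : BlkD.Tr :=
  .E 0

lemma s22_22_9_3_9 {n : ℕ} (hn : 5 ≤ n) : NoNd (d22_22_9_3.R : ℤ) d22_22_9_3.H n d22_22_9_3.a d22_22_9_3.b
    (BlkD.inB (BlkD.upd (BlkD.upd (fun _ => 0) 0 3) 1 20)
      (BlkD.upd (BlkD.upd (BlkD.upd (BlkD.upd (fun _ => 22) 0 9) 2 3) 0 4) 0 3)) :=
  BlkD.tree_sound (BlkD.pairOk_sound k22_22_9_3) (by decide) hn t22_22_9_3_9 _ _ (by decide +kernel)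

/-- certificates of the pair `(9, 3)`, part 10 -/
def t22_22_9_3_10 : BlkD.Tr :=
  .L 5 8 [4, 4, 5, 5] [] [] 100000 41667 41667 1181250 25000 0 25000 18750 0 0 0

lemma s22_22_9_3_10 {n : ℕ} (hn : 5 ≤ n) : NoNd (d22_22_9_3.R : ℤ) d22_22_9_3.H n d22_22_9_3.a d22_22_9_3.b
    (BlkD.inB (BlkD.upd (BlkD.upd (fun _ => 0) 0 3) 0 4)
      (BlkD.upd (BlkD.upd (BlkD.upd (BlkD.upd (BlkD.upd (BlkD.upd (fun _ => 22) 0 9) 2 3) 0 4) 1 18) 1 9) 1 4)) :=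
  BlkD.tree_sound (BlkD.pairOk_sound k22_22_9_3) (by decide) hn t22_22_9_3_10 _ _ (by decide +kernel)

/-- certificates of the pair `(9, 3)`, part 11 -/
def t22_22_9_3_11 : BlkD.Tr :=
  .S 1 6 (.L 5 8 [4, 4, 5, 5] [] [] 100000 22222 22221 1333335 22222 0 22222 33333 0 33333 33333)
    (.L 5 8 [4, 4, 5, 5] [160, 159, 156, 146, 134, 122] [] 100000 46376 46375 1282612 39130 0 57971
    43478 0 17391 8696)

lemma s22_22_9_3_11 {n : ℕ} (hn : 5 ≤ n) : NoNd (d22_22_9_3.R : ℤ) d22_22_9_3.H n d22_22_9_3.a d22_22_9_3.b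
    (BlkD.inB (BlkD.upd (BlkD.upd (BlkD.upd (fun _ => 0) 0 3) 0 4) 1 5)
      (BlkD.upd (BlkD.upd (BlkD.upd (BlkD.upd (BlkD.upd (BlkD.upd (fun _ => 22) 0 9) 2 3) 0 4) 1 18) 1 9) 1 7)) :=
  BlkD.tree_sound (BlkD.pairOk_sound k22_22_9_3) (by decide) hn t22_22_9_3_11 _ _ (by decide +kernel)

/-- certificates of the pair `(9, 3)`, part 12 -/
def t22_22_9_3_12 : BlkD.Tr :=
  .S 1 8 (.S 2 1 (.S 2 0 (.L 5 8 [4, 4, 5, 5] [183, 182, 181, 178, 168, 156] [] 100000 33333 33332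
    1300000 25000 0 37500 75000 0 0 12500) (.L 5 8 [4, 4, 5, 5] [183, 182, 181, 178, 168, 156] []
    100000 52339 52338 1286842 44737 0 78947 55263 0 21930 17544)) (.S 2 2 (.L 5 8 [4, 4, 5, 5]
    [183, 182, 181, 178, 168, 156] [] 100000 40000 40000 1320000 40000 0 60000 60000 0 40000 20000)
    (.L 5 8 [4, 4, 5, 5] [183, 182, 181, 178, 168, 156] [] 100000 55556 55556 1200000 50000 0 50000
    0 0 33333 16667))) (.S 2 1 (.S 2 0 (.L 5 8 [4, 4, 5, 5] [208, 207, 206, 205, 202, 192] []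
    100000 48148 48148 1233336 44444 0 66667 66667 0 0 16667) (.S 3 8 (.S 3 4 (.S 3 2 (.L 5 8 [4,
    4, 5, 5] [208, 207, 206, 205, 202, 192] [] 100000 37037 37037 1344447 44444 0 55556 33333 0
    22222 22222) (.L 5 8 [4, 4, 5, 5] [208, 207, 206, 205, 202, 192] [] 100000 60785 60784 1229409
    58824 0 64706 47059 0 17647 17647)) (.E 1)) (.E 1))) (.S 2 2 (.S 3 7 (.S 3 3 (.S 3 1 (.L 5 8
    [4, 4, 5, 5] [208, 207, 206, 205, 202, 192] [] 100000 25000 25000 1387501 37500 0 45833 25000 0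
    37500 25000) (.L 5 8 [4, 4, 5, 5] [208, 207, 206, 205, 202, 192] [] 100000 100000 99999 1060000
    80000 0 80000 20000 0 6667 6667)) (.E 1)) (.E 1)) (.L 5 8 [4, 4, 5, 5] [208, 207, 206, 205,
    202, 192] [] 100000 41667 41667 1250000 50000 0 50000 0 0 50000 25000)))

lemma s22_22_9_3_12 {n : ℕ} (hn : 5 ≤ n) : NoNd (d22_22_9_3.R : ℤ) d22_22_9_3.H n d22_22_9_3.a d22_22_9_3.b
    (BlkD.inB (BlkD.upd (BlkD.upd (BlkD.upd (BlkD.upd (fun _ => 0) 0 3) 0 4) 1 5) 1 8)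
      (BlkD.upd (BlkD.upd (BlkD.upd (BlkD.upd (BlkD.upd (fun _ => 22) 0 9) 2 3) 0 4) 1 18) 1 9)) :=
  BlkD.tree_sound (BlkD.pairOk_sound k22_22_9_3) (by decide) hn t22_22_9_3_12 _ _ (by decide +kernel)

/-- certificates of the pair `(9, 3)`, part 13 -/
def t22_22_9_3_13 : BlkD.Tr :=
  .S 2 1 (.S 2 0 (.L 5 8 [4, 4, 5, 5] [235, 234, 233, 232, 231, 228] [] 100000 50000 50000 1225000
    50000 0 75000 50000 0 0 25000) (.S 3 7 (.S 3 3 (.S 3 1 (.L 5 8 [4, 4, 5, 5] [235, 234, 233,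
    232, 231, 228] [] 100000 39130 39129 1321740 43478 0 73913 30435 0 13043 21739) (.S 3 2 (.L 5 8
    [4, 4, 5, 5] [235, 234, 233, 232, 231, 228] [28, 18, 6, 0, 0, 0] 100000 39535 39535 1337209
    45349 0 72093 37209 0 18605 22093) (.L 5 8 [4, 4, 5, 5] [235, 234, 233, 232, 231, 228] [42, 34,
    24, 12, 0, 0] 100000 54879 54878 1258534 58537 0 73171 29268 0 43902 23171))) (.L 5 8 [4, 4, 5,
    5] [235, 234, 233, 232, 231, 228] [] 100000 66668 66668 1199997 66667 0 66667 33333 0 16667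
    16667)) (.E 1))) (.S 2 2 (.S 3 6 (.S 3 3 (.S 3 1 (.L 5 8 [4, 4, 5, 5] [235, 234, 233, 232, 231,
    228] [] 100000 33333 33332 1350000 43750 0 75000 25000 0 43750 25000) (.L 5 8 [4, 4, 5, 5]
    [235, 234, 233, 232, 231, 228] [] 100000 66667 66666 1199997 66667 0 66667 33333 0 33333
    22222)) (.E 1)) (.E 1)) (.L 5 8 [4, 4, 5, 5] [235, 234, 233, 232, 231, 228] [] 100000 60000
    60000 1200000 60000 0 80000 0 0 40000 20000))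

lemma s22_22_9_3_13 {n : ℕ} (hn : 5 ≤ n) : NoNd (d22_22_9_3.R : ℤ) d22_22_9_3.H n d22_22_9_3.a d22_22_9_3.b
    (BlkD.inB (BlkD.upd (BlkD.upd (BlkD.upd (fun _ => 0) 0 3) 0 4) 1 10)
      (BlkD.upd (BlkD.upd (BlkD.upd (BlkD.upd (BlkD.upd (BlkD.upd (BlkD.upd (BlkD.upd (fun _ => 22) 0 9) 2 3) 0 4) 1 18) 1 14) 1 12) 1 11) 1 10)) :=
  BlkD.tree_sound (BlkD.pairOk_sound k22_22_9_3) (by decide) hn t22_22_9_3_13 _ _ (by decide +kernel)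

/-- certificates of the pair `(9, 3)`, part 14 -/
def t22_22_9_3_14 : BlkD.Tr :=
  .S 2 1 (.S 2 0 (.L 5 8 [4, 4, 5, 5] [264, 263, 262, 261, 260, 259] [] 100000 41667 41667 1266666
    50000 0 66667 50000 0 0 25000) (.S 3 6 (.S 3 3 (.L 5 8 [4, 4, 5, 5] [264, 263, 262, 261, 260,
    259] [] 100000 32076 32076 1364150 49057 0 71698 24528 0 24528 24528) (.L 5 8 [4, 4, 5, 5]
    [264, 263, 262, 261, 260, 259] [] 100000 40000 40000 1320000 60000 0 60000 20000 0 20000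
    20000)) (.E 1))) (.S 2 2 (.S 3 5 (.S 3 2 (.L 5 8 [4, 4, 5, 5] [264, 263, 262, 261, 260, 259] []
    100000 32000 32000 1364000 49000 0 72000 24000 0 24000 24000) (.L 5 8 [4, 4, 5, 5] [264, 263,
    262, 261, 260, 259] [] 100000 52941 52940 1270587 64706 0 64706 17647 0 17647 17647)) (.E 1))
    (.L 5 8 [4, 4, 5, 5] [264, 263, 262, 261, 260, 259] [] 100000 51515 51515 1227276 63636 0 63636
    0 0 27273 21212))

lemma s22_22_9_3_14 {n : ℕ} (hn : 5 ≤ n) : NoNd (d22_22_9_3.R : ℤ) d22_22_9_3.H n d22_22_9_3.a d22_22_9_3.b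
    (BlkD.inB (BlkD.upd (BlkD.upd (BlkD.upd (BlkD.upd (fun _ => 0) 0 3) 0 4) 1 10) 1 11)
      (BlkD.upd (BlkD.upd (BlkD.upd (BlkD.upd (BlkD.upd (BlkD.upd (BlkD.upd (fun _ => 22) 0 9) 2 3) 0 4) 1 18) 1 14) 1 12) 1 11)) :=
  BlkD.tree_sound (BlkD.pairOk_sound k22_22_9_3) (by decide) hn t22_22_9_3_14 _ _ (by decide +kernel)

/-- certificates of the pair `(9, 3)`, part 15 -/
def t22_22_9_3_15 : BlkD.Tr :=
  .L 5 8 [4, 4, 5, 5] [295, 294, 293, 292, 291, 290] [] 100000 74194 74194 1145160 70968 0 100000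
    35484 0 0 12903

lemma s22_22_9_3_15 {n : ℕ} (hn : 5 ≤ n) : NoNd (d22_22_9_3.R : ℤ) d22_22_9_3.H n d22_22_9_3.a d22_22_9_3.b
    (BlkD.inB (BlkD.upd (BlkD.upd (BlkD.upd (BlkD.upd (fun _ => 0) 0 3) 0 4) 1 10) 1 12)
      (BlkD.upd (BlkD.upd (BlkD.upd (BlkD.upd (BlkD.upd (BlkD.upd (fun _ => 22) 0 9) 2 3) 0 4) 1 18) 1 14) 1 12)) :=
  BlkD.tree_sound (BlkD.pairOk_sound k22_22_9_3) (by decide) hn t22_22_9_3_15 _ _ (by decide +kernel)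

/-- certificates of the pair `(9, 3)`, part 16 -/
def t22_22_9_3_16 : BlkD.Tr :=
  .S 1 13 (.L 5 8 [4, 4, 5, 5] [328, 327, 326, 325, 324, 323] [] 100000 125000 25000 600000 100000
    0 200000 50000 0 0 0) (.L 5 8 [4, 4, 5, 5] [363, 362, 361, 360, 359, 358] [] 100000 190000
    10000 0 190000 0 190000 0 0 0 0)

lemma s22_22_9_3_16 {n : ℕ} (hn : 5 ≤ n) : NoNd (d22_22_9_3.R : ℤ) d22_22_9_3.H n d22_22_9_3.a d22_22_9_3.b
    (BlkD.inB (BlkD.upd (BlkD.upd (BlkD.upd (BlkD.upd (fun _ => 0) 0 3) 0 4) 1 10) 1 13)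
      (BlkD.upd (BlkD.upd (BlkD.upd (BlkD.upd (BlkD.upd (fun _ => 22) 0 9) 2 3) 0 4) 1 18) 1 14)) :=
  BlkD.tree_sound (BlkD.pairOk_sound k22_22_9_3) (by decide) hn t22_22_9_3_16 _ _ (by decide +kernel)

/-- certificates of the pair `(9, 3)`, part 17 -/
def t22_22_9_3_17 : BlkD.Tr :=
  .E 0

lemma s22_22_9_3_17 {n : ℕ} (hn : 5 ≤ n) : NoNd (d22_22_9_3.R : ℤ) d22_22_9_3.H n d22_22_9_3.a d22_22_9_3.b
    (BlkD.inB (BlkD.upd (BlkD.upd (BlkD.upd (BlkD.upd (fun _ => 0) 0 3) 0 4) 1 10) 1 15)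
      (BlkD.upd (BlkD.upd (BlkD.upd (BlkD.upd (fun _ => 22) 0 9) 2 3) 0 4) 1 18)) :=
  BlkD.tree_sound (BlkD.pairOk_sound k22_22_9_3) (by decide) hn t22_22_9_3_17 _ _ (by decide +kernel)

/-- certificates of the pair `(9, 3)`, part 18 -/
def t22_22_9_3_18 : BlkD.Tr :=
  .E 0

lemma s22_22_9_3_18 {n : ℕ} (hn : 5 ≤ n) : NoNd (d22_22_9_3.R : ℤ) d22_22_9_3.H n d22_22_9_3.a d22_22_9_3.b
    (BlkD.inB (BlkD.upd (BlkD.upd (BlkD.upd (fun _ => 0) 0 3) 0 4) 1 19)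
      (BlkD.upd (BlkD.upd (BlkD.upd (fun _ => 22) 0 9) 2 3) 0 4)) :=
  BlkD.tree_sound (BlkD.pairOk_sound k22_22_9_3) (by decide) hn t22_22_9_3_18 _ _ (by decide +kernel)

/-- certificates of the pair `(9, 3)`, part 19 -/
def t22_22_9_3_19 : BlkD.Tr :=
  .L 5 8 [4, 4, 5, 5] [] [] 100000 33333 33332 1225000 25000 0 25000 75000 0 0 12500

lemma s22_22_9_3_19 {n : ℕ} (hn : 5 ≤ n) : NoNd (d22_22_9_3.R : ℤ) d22_22_9_3.H n d22_22_9_3.a d22_22_9_3.b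
    (BlkD.inB (BlkD.upd (fun _ => 0) 0 5)
      (BlkD.upd (BlkD.upd (BlkD.upd (BlkD.upd (BlkD.upd (BlkD.upd (BlkD.upd (BlkD.upd (fun _ => 22) 0 9) 2 3) 0 7) 0 6) 0 5) 1 17) 1 8) 1 4)) :=
  BlkD.tree_sound (BlkD.pairOk_sound k22_22_9_3) (by decide) hn t22_22_9_3_19 _ _ (by decide +kernel)

/-- certificates of the pair `(9, 3)`, part 20 -/
def t22_22_9_3_20 : BlkD.Tr :=
  .S 1 5 (.L 5 8 [4, 4, 5, 5] [128, 118, 106, 94, 82, 70] [] 100000 22222 22221 1333333 20000 0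
    20000 66667 0 33333 33333) (.L 5 8 [4, 4, 5, 5] [151, 148, 138, 126, 114, 102] [] 100000 25103
    25103 1398765 25926 0 25926 45679 0 28395 24691)

lemma s22_22_9_3_20 {n : ℕ} (hn : 5 ≤ n) : NoNd (d22_22_9_3.R : ℤ) d22_22_9_3.H n d22_22_9_3.a d22_22_9_3.b
    (BlkD.inB (BlkD.upd (BlkD.upd (fun _ => 0) 0 5) 1 5)
      (BlkD.upd (BlkD.upd (BlkD.upd (BlkD.upd (BlkD.upd (BlkD.upd (BlkD.upd (BlkD.upd (fun _ => 22) 0 9) 2 3) 0 7) 0 6) 0 5) 1 17) 1 8) 1 6)) :=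
  BlkD.tree_sound (BlkD.pairOk_sound k22_22_9_3) (by decide) hn t22_22_9_3_20 _ _ (by decide +kernel)

/-- certificates of the pair `(9, 3)`, part 21 -/
def t22_22_9_3_21 : BlkD.Tr :=
  .S 2 1 (.S 2 0 (.L 5 8 [4, 4, 5, 5] [174, 173, 170, 160, 148, 136] [] 100000 33333 33332 1300000
    25000 0 50000 75000 0 0 12500) (.S 3 9 (.S 3 4 (.S 3 2 (.L 5 8 [4, 4, 5, 5] [174, 173, 170,
    160, 148, 136] [] 100000 25491 25491 1382352 29412 0 58824 29412 0 23529 23529) (.S 3 3 (.L 6 9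
    [4, 5, 5, 4] [174, 173, 170, 160, 148, 136] [42, 34, 24, 12, 0, 0] 100000 26191 26191 1385715
    38095 0 61905 23810 0 35714 21429) (.S 4 7 (.S 4 3 (.L 6 9 [4, 5, 5, 4] [148, 136, 124, 112, 0,
    0] [57, 50, 42, 32, 20, 0] 100000 27273 27272 1350907 47273 0 47273 18182 0 41818 18182) (.L 6
    9 [4, 5, 5, 4] [174, 173, 170, 160, 148, 136] [57, 50, 42, 32, 20, 0] 100000 71429 0 900000
    28571 0 171429 28571 0 0 0)) (.E 2)))) (.E 1)) (.E 1))) (.S 2 2 (.S 3 8 (.S 3 4 (.S 3 2 (.L 6 9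
    [4, 5, 5, 4] [174, 173, 170, 160, 148, 136] [] 100000 22222 22221 1400002 33333 0 66667 0 0
    33333 33333) (.S 3 3 (.S 4 7 (.S 4 3 (.L 6 9 [4, 5, 5, 4] [148, 136, 124, 112, 0, 0] [48, 40,
    30, 18, 0, 0] 100000 27661 27661 1351060 46809 0 46809 21277 0 40426 17021) (.L 6 9 [4, 5, 5,
    4] [174, 173, 170, 160, 148, 136] [48, 40, 30, 18, 0, 0] 100000 100000 0 700000 0 0 200000
    200000 0 0 0)) (.E 2)) (.E 1))) (.E 1)) (.E 1)) (.L 6 9 [4, 5, 5, 4] [174, 173, 170, 160, 148,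
    136] [] 100000 26667 26667 1320000 40000 0 40000 0 0 40000 20000))

lemma s22_22_9_3_21 {n : ℕ} (hn : 5 ≤ n) : NoNd (d22_22_9_3.R : ℤ) d22_22_9_3.H n d22_22_9_3.a d22_22_9_3.b
    (BlkD.inB (BlkD.upd (BlkD.upd (BlkD.upd (fun _ => 0) 0 5) 1 5) 1 7)
      (BlkD.upd (BlkD.upd (BlkD.upd (BlkD.upd (BlkD.upd (BlkD.upd (BlkD.upd (BlkD.upd (fun _ => 22) 0 9) 2 3) 0 7) 0 6) 0 5) 1 17) 1 8) 1 7)) :=
  BlkD.tree_sound (BlkD.pairOk_sound k22_22_9_3) (by decide) hn t22_22_9_3_21 _ _ (by decide +kernel)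

/-- certificates of the pair `(9, 3)`, part 22 -/
def t22_22_9_3_22 : BlkD.Tr :=
  .S 2 1 (.S 2 0 (.L 6 9 [4, 5, 5, 4] [199, 198, 197, 194, 184, 172] [] 100000 33333 33332 1300001
    33333 0 66667 66667 0 0 0) (.S 3 8 (.S 3 4 (.S 3 2 (.S 3 1 (.L 5 8 [4, 4, 5, 5] [199, 198, 197,
    194, 184, 172] [] 100000 27778 27778 1383335 33333 0 66667 16667 0 16667 16667) (.S 4 8 (.S 4 4
    (.L 5 8 [4, 4, 5, 5] [184, 172, 160, 148, 136, 0] [28, 18, 6, 0, 0, 0] 100000 25000 25000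
    1375000 37500 0 75000 37500 0 25000 25000) (.L 5 8 [4, 4, 5, 5] [199, 198, 197, 194, 184, 172]
    [28, 18, 6, 0, 0, 0] 100000 80000 0 840000 20000 0 180000 80000 0 0 0)) (.E 2))) (.S 3 3 (.S 4
    8 (.S 4 4 (.L 5 8 [4, 4, 5, 5] [184, 172, 160, 148, 136, 0] [42, 34, 24, 12, 0, 0] 100000 41667
    41667 1325000 50000 0 75000 25000 0 25000 25000) (.L 5 8 [4, 4, 5, 5] [199, 198, 197, 194, 184,
    172] [42, 34, 24, 12, 0, 0] 100000 66667 0 933333 33333 0 166667 0 0 0 0)) (.E 2)) (.S 4 8 (.S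
    4 4 (.L 6 9 [4, 5, 5, 4] [184, 172, 160, 148, 136, 0] [57, 50, 42, 32, 20, 0] 100000 22222
    22222 1388892 44444 0 77778 22222 0 33333 22222) (.L 6 9 [4, 5, 5, 4] [199, 198, 197, 194, 184,
    172] [57, 50, 42, 32, 20, 0] 100000 200000 0 0 0 0 300000 300000 0 0 0)) (.E 2)))) (.E 1)) (.E
    1))) (.S 2 2 (.S 3 7 (.S 3 3 (.S 3 1 (.L 5 8 [4, 4, 5, 5] [199, 198, 197, 194, 184, 172] []
    100000 24286 24285 1400951 34286 0 74286 27619 952 37619 25238) (.S 3 2 (.L 6 9 [4, 5, 5, 4]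
    [199, 198, 197, 194, 184, 172] [32, 22, 10, 0, 0, 0] 100000 27160 27159 1385187 41975 0 62963
    10494 0 28395 18519) (.S 4 8 (.S 4 4 (.L 6 9 [4, 5, 5, 4] [184, 172, 160, 148, 136, 0] [48, 40,
    30, 18, 0, 0] 100000 22222 22222 1388892 44444 0 77778 22222 0 33333 22222) (.L 6 9 [4, 5, 5,
    4] [199, 198, 197, 194, 184, 172] [48, 40, 30, 18, 0, 0] 100000 200000 0 0 0 0 300000 300000 0
    0 0)) (.E 2)))) (.E 1)) (.E 1)) (.L 6 9 [4, 5, 5, 4] [199, 198, 197, 194, 184, 172] [] 100000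
    28206 28206 1330768 46154 0 46154 0 0 46154 20513))

lemma s22_22_9_3_22 {n : ℕ} (hn : 5 ≤ n) : NoNd (d22_22_9_3.R : ℤ) d22_22_9_3.H n d22_22_9_3.a d22_22_9_3.b
    (BlkD.inB (BlkD.upd (BlkD.upd (BlkD.upd (BlkD.upd (fun _ => 0) 0 5) 1 5) 1 7) 1 8)
      (BlkD.upd (BlkD.upd (BlkD.upd (BlkD.upd (BlkD.upd (BlkD.upd (BlkD.upd (fun _ => 22) 0 9) 2 3) 0 7) 0 6) 0 5) 1 17) 1 8)) :=
  BlkD.tree_sound (BlkD.pairOk_sound k22_22_9_3) (by decide) hn t22_22_9_3_22 _ _ (by decide +kernel)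

/-- certificates of the pair `(9, 3)`, part 23 -/
def t22_22_9_3_23 : BlkD.Tr :=
  .S 1 9 (.S 2 1 (.S 2 0 (.L 6 9 [4, 5, 5, 4] [226, 225, 224, 223, 220, 210] [] 100000 33333 33332
    1295240 38095 0 76190 61905 0 0 7143) (.S 3 7 (.S 3 3 (.S 3 1 (.L 6 9 [4, 5, 5, 4] [226, 225,
    224, 223, 220, 210] [] 100000 30000 30000 1360000 40000 0 90000 0 0 10000 10000) (.S 3 2 (.S 4
    9 (.S 4 4 (.L 6 9 [4, 5, 5, 4] [210, 198, 186, 174, 162, 0] [28, 18, 6, 0, 0, 0] 100000 25000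
    25000 1362500 42500 12500 92500 25000 0 25000 25000) (.L 6 9 [4, 5, 5, 4] [226, 225, 224, 223,
    220, 210] [28, 18, 6, 0, 0, 0] 100000 50000 0 1050000 25000 0 150000 50000 0 0 0)) (.E 2)) (.S
    4 9 (.S 4 4 (.L 6 9 [4, 5, 5, 4] [210, 198, 186, 174, 162, 0] [42, 34, 24, 12, 0, 0] 100000
    26437 26436 1345976 50575 0 89655 21839 0 34483 21839) (.L 6 9 [4, 5, 5, 4] [226, 225, 224,
    223, 220, 210] [42, 34, 24, 12, 0, 0] 100000 50000 0 1050001 33333 0 150000 16667 0 0 0)) (.E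
    2)))) (.S 3 5 (.S 3 4 (.S 4 9 (.S 4 4 (.L 6 9 [4, 5, 5, 4] [210, 198, 186, 174, 162, 0] [57,
    50, 42, 32, 20, 0] 100000 21795 21794 1361537 48718 0 88462 20513 0 38462 20513) (.L 6 9 [4, 5,
    5, 4] [226, 225, 224, 223, 220, 210] [57, 50, 42, 32, 20, 0] 100000 100000 0 700000 50000 0
    200000 0 0 0 0)) (.E 2)) (.E 1)) (.E 1))) (.E 1))) (.S 2 2 (.S 3 6 (.S 3 3 (.S 3 1 (.L 6 9 [4,
    5, 5, 4] [226, 225, 224, 223, 220, 210] [] 100000 27119 27119 1383052 37288 0 93220 18644 0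
    18644 18644) (.S 3 2 (.L 6 9 [4, 5, 5, 4] [226, 225, 224, 223, 220, 210] [32, 22, 10, 0, 0, 0]
    100000 25641 25640 1374358 46154 0 74359 0 0 46154 17949) (.S 4 9 (.S 4 4 (.L 6 9 [4, 5, 5, 4]
    [210, 198, 186, 174, 162, 0] [48, 40, 30, 18, 0, 0] 100000 23458 23458 1355554 49383 0 90123
    18519 0 35802 18519) (.L 6 9 [4, 5, 5, 4] [226, 225, 224, 223, 220, 210] [48, 40, 30, 18, 0, 0]
    100000 100000 0 700000 50000 0 200000 0 0 0 0)) (.E 2)))) (.E 1)) (.E 1)) (.L 6 9 [4, 5, 5, 4]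
    [226, 225, 224, 223, 220, 210] [] 100000 30000 30000 1310000 50000 0 70000 0 0 50000 20000)))
    (.L 6 9 [4, 5, 5, 4] [255, 254, 253, 252, 251, 248] [] 100000 44445 44445 1316669 50000 0
    100000 33333 0 16667 16667)

lemma s22_22_9_3_23 {n : ℕ} (hn : 5 ≤ n) : NoNd (d22_22_9_3.R : ℤ) d22_22_9_3.H n d22_22_9_3.a d22_22_9_3.b
    (BlkD.inB (BlkD.upd (BlkD.upd (fun _ => 0) 0 5) 1 9)
      (BlkD.upd (BlkD.upd (BlkD.upd (BlkD.upd (BlkD.upd (BlkD.upd (BlkD.upd (BlkD.upd (BlkD.upd (fun _ => 22) 0 9) 2 3) 0 7) 0 6) 0 5) 1 17) 1 13) 1 11) 1 10)) :=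
  BlkD.tree_sound (BlkD.pairOk_sound k22_22_9_3) (by decide) hn t22_22_9_3_23 _ _ (by decide +kernel)

/-- certificates of the pair `(9, 3)`, part 24 -/
def t22_22_9_3_24 : BlkD.Tr :=
  .L 6 9 [4, 5, 5, 4] [286, 285, 284, 283, 282, 281] [] 100000 33334 33334 1314288 57143 0 90476
    14286 0 14286 14286

lemma s22_22_9_3_24 {n : ℕ} (hn : 5 ≤ n) : NoNd (d22_22_9_3.R : ℤ) d22_22_9_3.H n d22_22_9_3.a d22_22_9_3.b
    (BlkD.inB (BlkD.upd (BlkD.upd (BlkD.upd (fun _ => 0) 0 5) 1 9) 1 11)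
      (BlkD.upd (BlkD.upd (BlkD.upd (BlkD.upd (BlkD.upd (BlkD.upd (BlkD.upd (BlkD.upd (fun _ => 22) 0 9) 2 3) 0 7) 0 6) 0 5) 1 17) 1 13) 1 11)) :=
  BlkD.tree_sound (BlkD.pairOk_sound k22_22_9_3) (by decide) hn t22_22_9_3_24 _ _ (by decide +kernel)

/-- certificates of the pair `(9, 3)`, part 25 -/
def t22_22_9_3_25 : BlkD.Tr :=
  .S 1 12 (.L 6 9 [4, 5, 5, 4] [319, 318, 317, 316, 315, 314] [] 100000 100000 0 700000 100000 0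
    200000 0 0 0 0) (.E 0)

lemma s22_22_9_3_25 {n : ℕ} (hn : 5 ≤ n) : NoNd (d22_22_9_3.R : ℤ) d22_22_9_3.H n d22_22_9_3.a d22_22_9_3.b
    (BlkD.inB (BlkD.upd (BlkD.upd (BlkD.upd (fun _ => 0) 0 5) 1 9) 1 12)
      (BlkD.upd (BlkD.upd (BlkD.upd (BlkD.upd (BlkD.upd (BlkD.upd (BlkD.upd (fun _ => 22) 0 9) 2 3) 0 7) 0 6) 0 5) 1 17) 1 13)) :=
  BlkD.tree_sound (BlkD.pairOk_sound k22_22_9_3) (by decide) hn t22_22_9_3_25 _ _ (by decide +kernel)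

/-- certificates of the pair `(9, 3)`, part 26 -/
def t22_22_9_3_26 : BlkD.Tr :=
  .E 0

lemma s22_22_9_3_26 {n : ℕ} (hn : 5 ≤ n) : NoNd (d22_22_9_3.R : ℤ) d22_22_9_3.H n d22_22_9_3.a d22_22_9_3.b
    (BlkD.inB (BlkD.upd (BlkD.upd (BlkD.upd (fun _ => 0) 0 5) 1 9) 1 14)
      (BlkD.upd (BlkD.upd (BlkD.upd (BlkD.upd (BlkD.upd (BlkD.upd (fun _ => 22) 0 9) 2 3) 0 7) 0 6) 0 5) 1 17)) :=
  BlkD.tree_sound (BlkD.pairOk_sound k22_22_9_3) (by decide) hn t22_22_9_3_26 _ _ (by decide +kernel)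

/-- certificates of the pair `(9, 3)`, part 27 -/
def t22_22_9_3_27 : BlkD.Tr :=
  .E 0

lemma s22_22_9_3_27 {n : ℕ} (hn : 5 ≤ n) : NoNd (d22_22_9_3.R : ℤ) d22_22_9_3.H n d22_22_9_3.a d22_22_9_3.b
    (BlkD.inB (BlkD.upd (BlkD.upd (fun _ => 0) 0 5) 1 18)
      (BlkD.upd (BlkD.upd (BlkD.upd (BlkD.upd (BlkD.upd (fun _ => 22) 0 9) 2 3) 0 7) 0 6) 0 5)) :=
  BlkD.tree_sound (BlkD.pairOk_sound k22_22_9_3) (by decide) hn t22_22_9_3_27 _ _ (by decide +kernel)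

/-- certificates of the pair `(9, 3)`, part 28 -/
def t22_22_9_3_28 : BlkD.Tr :=
  .L 6 9 [4, 5, 5, 4] [] [] 100000 27778 27778 1333335 33333 0 33333 33333 0 16667 33333

lemma s22_22_9_3_28 {n : ℕ} (hn : 5 ≤ n) : NoNd (d22_22_9_3.R : ℤ) d22_22_9_3.H n d22_22_9_3.a d22_22_9_3.b
    (BlkD.inB (BlkD.upd (BlkD.upd (fun _ => 0) 0 5) 0 6)
      (BlkD.upd (BlkD.upd (BlkD.upd (BlkD.upd (BlkD.upd (BlkD.upd (BlkD.upd (fun _ => 22) 0 9) 2 3) 0 7) 0 6) 1 16) 1 8) 1 4)) :=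
  BlkD.tree_sound (BlkD.pairOk_sound k22_22_9_3) (by decide) hn t22_22_9_3_28 _ _ (by decide +kernel)

/-- certificates of the pair `(9, 3)`, part 29 -/
def t22_22_9_3_29 : BlkD.Tr :=
  .S 1 5 (.L 6 9 [4, 5, 5, 4] [138, 128, 116, 104, 92, 80] [] 100000 25641 25641 1396924 30769 1538
    41538 49231 0 27692 23077) (.S 2 1 (.S 2 0 (.L 6 9 [4, 5, 5, 4] [163, 160, 150, 138, 126, 114]
    [] 100000 33333 33332 1277778 22222 0 100000 77778 0 0 0) (.S 3 9 (.S 3 4 (.S 3 2 (.L 5 8 [4,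
    4, 5, 5] [163, 160, 150, 138, 126, 114] [] 100000 24378 24378 1400002 31343 5970 55224 34328
    2985 20896 20896) (.S 3 3 (.S 4 6 (.S 4 3 (.L 5 8 [4, 4, 5, 5] [138, 126, 114, 102, 0, 0] [42,
    34, 24, 12, 0, 0] 100000 22223 22223 1407407 38519 0 60741 25926 3704 25926 25926) (.L 5 8 [4,
    4, 5, 5] [163, 160, 150, 138, 126, 114] [42, 34, 24, 12, 0, 0] 100000 42858 1 1100000 21429 0
    142857 28571 0 0 14286)) (.E 2)) (.S 4 6 (.S 4 3 (.L 6 9 [4, 5, 5, 4] [138, 126, 114, 102, 0,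
    0] [57, 50, 42, 32, 20, 0] 100000 25000 25000 1387502 39583 0 77083 37500 0 25000 25000) (.L 6
    9 [4, 5, 5, 4] [163, 160, 150, 138, 126, 114] [57, 50, 42, 32, 20, 0] 100000 100000 0 700000 0
    0 200000 200000 0 0 0)) (.E 2)))) (.E 1)) (.E 1))) (.S 2 2 (.S 3 8 (.S 3 4 (.S 3 2 (.S 3 1 (.L
    5 8 [4, 4, 5, 5] [163, 160, 150, 138, 126, 114] [] 100000 22963 22962 1400000 28889 0 55556
    44444 2222 26667 26667) (.S 4 6 (.S 4 3 (.L 5 8 [4, 4, 5, 5] [138, 126, 114, 102, 0, 0] [32,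
    22, 10, 0, 0, 0] 100000 20513 20512 1411966 37607 0 73504 2991 5983 26496 26496) (.L 5 8 [4, 4,
    5, 5] [163, 160, 150, 138, 126, 114] [32, 22, 10, 0, 0, 0] 100000 80000 0 840000 40000 0 180000
    0 0 0 0)) (.E 2))) (.S 3 3 (.S 4 6 (.S 4 3 (.L 6 9 [4, 5, 5, 4] [138, 126, 114, 102, 0, 0] [48,
    40, 30, 18, 0, 0] 100000 25000 25000 1387502 39583 0 77083 37500 0 25000 25000) (.L 6 9 [4, 5,
    5, 4] [163, 160, 150, 138, 126, 114] [48, 40, 30, 18, 0, 0] 100000 100000 0 700000 0 0 200000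
    200000 0 0 0)) (.E 2)) (.E 1))) (.E 1)) (.E 1)) (.L 6 9 [4, 5, 5, 4] [163, 160, 150, 138, 126,
    114] [] 100000 23383 23382 1371644 38806 0 61194 0 4478 41791 20896)))

lemma s22_22_9_3_29 {n : ℕ} (hn : 5 ≤ n) : NoNd (d22_22_9_3.R : ℤ) d22_22_9_3.H n d22_22_9_3.a d22_22_9_3.b
    (BlkD.inB (BlkD.upd (BlkD.upd (BlkD.upd (fun _ => 0) 0 5) 0 6) 1 5)
      (BlkD.upd (BlkD.upd (BlkD.upd (BlkD.upd (BlkD.upd (BlkD.upd (BlkD.upd (fun _ => 22) 0 9) 2 3) 0 7) 0 6) 1 16) 1 8) 1 6)) :=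
  BlkD.tree_sound (BlkD.pairOk_sound k22_22_9_3) (by decide) hn t22_22_9_3_29 _ _ (by decide +kernel)

/-- certificates of the pair `(9, 3)`, part 30 -/
def t22_22_9_3_30 : BlkD.Tr :=
  .S 2 1 (.S 2 0 (.L 6 9 [4, 5, 5, 4] [188, 187, 184, 174, 162, 150] [] 100000 33333 33332 1277778
    22222 0 100000 77778 0 0 0) (.S 3 8 (.S 3 4 (.S 3 2 (.L 5 8 [4, 4, 5, 5] [188, 187, 184, 174,
    162, 150] [] 100000 26201 26201 1394494 35169 0 74364 32415 1589 18220 21610) (.S 3 3 (.S 4 7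
    (.S 4 3 (.L 5 8 [4, 4, 5, 5] [162, 150, 138, 126, 0, 0] [42, 34, 24, 12, 0, 0] 100000 26316
    26316 1363159 42105 0 100000 26316 0 21053 21053) (.L 5 8 [4, 4, 5, 5] [188, 187, 184, 174,
    162, 150] [42, 34, 24, 12, 0, 0] 100000 26923 0 1211540 7692 0 126923 84615 0 19231 30769)) (.E
    2)) (.S 4 7 (.S 4 3 (.L 5 8 [4, 4, 5, 5] [162, 150, 138, 126, 0, 0] [57, 50, 42, 32, 20, 0]
    100000 20000 20000 1380000 40000 0 100000 20000 0 40000 20000) (.L 5 8 [4, 4, 5, 5] [188, 187,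
    184, 174, 162, 150] [57, 50, 42, 32, 20, 0] 100000 42858 1 1100000 14286 0 142857 85714 0 0
    28571)) (.E 2)))) (.E 1)) (.E 1))) (.S 2 2 (.S 3 7 (.S 3 3 (.S 3 1 (.L 5 8 [4, 4, 5, 5] [188,
    187, 184, 174, 162, 150] [] 100000 22222 22221 1400002 33333 0 66667 33333 0 33333 33333) (.S 3
    2 (.L 6 9 [4, 5, 5, 4] [188, 187, 184, 174, 162, 150] [32, 22, 10, 0, 0, 0] 100000 26667 26667
    1380000 40000 0 80000 20000 0 40000 20000) (.S 4 7 (.S 4 3 (.L 6 9 [4, 5, 5, 4] [162, 150, 138,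
    126, 0, 0] [48, 40, 30, 18, 0, 0] 100000 19355 19355 1370969 45161 0 87097 29032 0 29032 19355)
    (.L 6 9 [4, 5, 5, 4] [188, 187, 184, 174, 162, 150] [48, 40, 30, 18, 0, 0] 100000 38462 0
    1130767 23077 0 138462 46154 0 15385 7692)) (.E 2)))) (.E 1)) (.E 1)) (.L 6 9 [4, 5, 5, 4]
    [188, 187, 184, 174, 162, 150] [] 100000 18750 18750 1406250 37500 0 68750 0 6250 62500 31250))

lemma s22_22_9_3_30 {n : ℕ} (hn : 5 ≤ n) : NoNd (d22_22_9_3.R : ℤ) d22_22_9_3.H n d22_22_9_3.a d22_22_9_3.b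
    (BlkD.inB (BlkD.upd (BlkD.upd (BlkD.upd (BlkD.upd (fun _ => 0) 0 5) 0 6) 1 5) 1 7)
      (BlkD.upd (BlkD.upd (BlkD.upd (BlkD.upd (BlkD.upd (BlkD.upd (BlkD.upd (fun _ => 22) 0 9) 2 3) 0 7) 0 6) 1 16) 1 8) 1 7)) :=
  BlkD.tree_sound (BlkD.pairOk_sound k22_22_9_3) (by decide) hn t22_22_9_3_30 _ _ (by decide +kernel)

/-- certificates of the pair `(9, 3)`, part 31 -/
def t22_22_9_3_31 : BlkD.Tr :=
  .S 2 1 (.S 2 0 (.L 6 9 [4, 5, 5, 4] [215, 214, 213, 210, 200, 188] [] 100000 33333 33332 1266667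
    33333 0 100000 66667 0 0 0) (.S 3 7 (.S 3 3 (.S 3 1 (.L 6 9 [4, 5, 5, 4] [215, 214, 213, 210,
    200, 188] [] 100000 33333 33332 1342858 42857 0 85714 42857 0 0 7143) (.S 3 2 (.L 5 8 [4, 4, 5,
    5] [215, 214, 213, 210, 200, 188] [28, 18, 6, 0, 0, 0] 100000 26667 26667 1380000 40000 0 80000
    40000 0 20000 20000) (.L 6 9 [4, 5, 5, 4] [215, 214, 213, 210, 200, 188] [42, 34, 24, 12, 0, 0]
    100000 22222 22221 1406667 40000 0 80000 33333 0 13333 13333))) (.S 3 5 (.S 3 4 (.S 4 8 (.S 4 4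
    (.L 6 9 [4, 5, 5, 4] [200, 188, 176, 164, 152, 0] [57, 50, 42, 32, 20, 0] 100000 25001 25001
    1332141 46429 0 100000 35714 0 17857 17857) (.L 6 9 [4, 5, 5, 4] [215, 214, 213, 210, 200, 188]
    [57, 50, 42, 32, 20, 0] 100000 100001 1 699999 66667 0 200000 0 0 0 0)) (.E 2)) (.E 1)) (.E
    1))) (.E 1))) (.S 2 2 (.S 3 6 (.S 3 3 (.S 3 1 (.L 5 8 [4, 4, 5, 5] [215, 214, 213, 210, 200,
    188] [] 100000 26667 26667 1380000 40000 0 80000 40000 0 20000 20000) (.S 3 2 (.L 5 8 [4, 4, 5,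
    5] [215, 214, 213, 210, 200, 188] [32, 22, 10, 0, 0, 0] 100000 33333 33333 1355558 44444 0
    88889 22222 0 33333 22222) (.S 4 8 (.S 4 4 (.L 5 8 [4, 4, 5, 5] [200, 188, 176, 164, 152, 0]
    [48, 40, 30, 18, 0, 0] 100000 31035 31035 1334482 48276 0 100000 24138 0 24138 24138) (.L 5 8
    [4, 4, 5, 5] [215, 214, 213, 210, 200, 188] [48, 40, 30, 18, 0, 0] 100000 100001 1 699999 66667
    0 200000 0 0 0 0)) (.E 2)))) (.E 1)) (.E 1)) (.L 5 8 [4, 4, 5, 5] [215, 214, 213, 210, 200,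
    188] [] 100000 42857 42856 1314286 50000 0 92857 0 0 35714 21429))

lemma s22_22_9_3_31 {n : ℕ} (hn : 5 ≤ n) : NoNd (d22_22_9_3.R : ℤ) d22_22_9_3.H n d22_22_9_3.a d22_22_9_3.b
    (BlkD.inB (BlkD.upd (BlkD.upd (BlkD.upd (BlkD.upd (BlkD.upd (fun _ => 0) 0 5) 0 6) 1 5) 1 7) 1 8)
      (BlkD.upd (BlkD.upd (BlkD.upd (BlkD.upd (BlkD.upd (BlkD.upd (fun _ => 22) 0 9) 2 3) 0 7) 0 6) 1 16) 1 8)) :=
  BlkD.tree_sound (BlkD.pairOk_sound k22_22_9_3) (by decide) hn t22_22_9_3_31 _ _ (by decide +kernel)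

/-- certificates of the pair `(9, 3)`, part 32 -/
def t22_22_9_3_32 : BlkD.Tr :=
  .S 1 12 (.S 1 10 (.S 1 9 (.S 2 1 (.S 2 0 (.L 5 8 [4, 4, 5, 5] [244, 243, 242, 241, 238, 228] []
    100000 33333 33332 1242858 28571 0 100000 71429 0 0 28571) (.L 5 8 [4, 4, 5, 5] [244, 243, 242,
    241, 238, 228] [] 100000 22222 22221 1410257 28205 0 100000 48718 0 46154 33333)) (.L 5 8 [4,
    4, 5, 5] [244, 243, 242, 241, 238, 228] [] 100000 22222 22221 1366668 33333 0 100000 0 0 66667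
    33333)) (.L 5 8 [4, 4, 5, 5] [275, 274, 273, 272, 271, 268] [] 100000 31905 31905 1300002 50000
    0 100000 25000 0 14286 20000)) (.E 0)) (.E 0)

lemma s22_22_9_3_32 {n : ℕ} (hn : 5 ≤ n) : NoNd (d22_22_9_3.R : ℤ) d22_22_9_3.H n d22_22_9_3.a d22_22_9_3.b
    (BlkD.inB (BlkD.upd (BlkD.upd (BlkD.upd (fun _ => 0) 0 5) 0 6) 1 9)
      (BlkD.upd (BlkD.upd (BlkD.upd (BlkD.upd (BlkD.upd (fun _ => 22) 0 9) 2 3) 0 7) 0 6) 1 16)) :=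
  BlkD.tree_sound (BlkD.pairOk_sound k22_22_9_3) (by decide) hn t22_22_9_3_32 _ _ (by decide +kernel)

/-- certificates of the pair `(9, 3)`, part 33 -/
def t22_22_9_3_33 : BlkD.Tr :=
  .E 0

lemma s22_22_9_3_33 {n : ℕ} (hn : 5 ≤ n) : NoNd (d22_22_9_3.R : ℤ) d22_22_9_3.H n d22_22_9_3.a d22_22_9_3.b
    (BlkD.inB (BlkD.upd (BlkD.upd (BlkD.upd (fun _ => 0) 0 5) 0 6) 1 17)
      (BlkD.upd (BlkD.upd (BlkD.upd (BlkD.upd (fun _ => 22) 0 9) 2 3) 0 7) 0 6)) :=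
  BlkD.tree_sound (BlkD.pairOk_sound k22_22_9_3) (by decide) hn t22_22_9_3_33 _ _ (by decide +kernel)

/-- certificates of the pair `(9, 3)`, part 34 -/
def t22_22_9_3_34 : BlkD.Tr :=
  .S 1 15 (.S 1 7 (.S 1 3 (.L 5 8 [4, 4, 5, 5] [] [] 100000 22222 22221 1333334 33333 0 33333 66667
    0 33333 33333) (.S 1 5 (.S 1 4 (.S 2 1 (.S 2 0 (.L 5 8 [4, 4, 5, 5] [116, 104, 92, 80, 68, 0]
    [] 100000 33333 33332 1266667 33333 0 66667 66667 0 0 16667) (.S 3 10 (.S 3 5 (.S 3 2 (.L 5 8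
    [4, 4, 5, 5] [116, 104, 92, 80, 68, 0] [] 100000 25926 25926 1366667 33333 0 55556 33333 0
    22222 22222) (.S 3 4 (.S 3 3 (.L 5 8 [4, 4, 5, 5] [116, 104, 92, 80, 68, 0] [42, 34, 24, 12, 0,
    0] 100000 25000 25000 1387500 37500 0 56250 18750 0 37500 25000) (.S 4 4 (.S 4 2 (.L 6 9 [4, 5,
    5, 4] [92, 80, 68, 0, 0, 0] [57, 50, 42, 32, 20, 0] 100000 26667 26667 1380000 50000 0 50000
    20000 0 20000 20000) (.L 6 9 [4, 5, 5, 4] [116, 104, 92, 80, 68, 0] [57, 50, 42, 32, 20, 0]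
    100000 60000 0 980000 20000 0 160000 120000 0 0 0)) (.E 2))) (.E 1))) (.E 1)) (.E 1))) (.S 2 2
    (.S 3 9 (.S 3 4 (.S 3 2 (.L 6 9 [4, 5, 5, 4] [116, 104, 92, 80, 68, 0] [] 100000 22222 22221
    1400001 33333 0 50000 0 0 33333 33333) (.S 3 3 (.S 4 4 (.S 4 2 (.L 6 9 [4, 5, 5, 4] [92, 80,
    68, 0, 0, 0] [48, 40, 30, 18, 0, 0] 100000 26667 26667 1380000 50000 0 50000 20000 0 20000
    20000) (.L 6 9 [4, 5, 5, 4] [116, 104, 92, 80, 68, 0] [48, 40, 30, 18, 0, 0] 100000 60000 0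
    980000 20000 0 160000 120000 0 0 0)) (.E 2)) (.E 1))) (.E 1)) (.E 1)) (.L 6 9 [4, 5, 5, 4]
    [116, 104, 92, 80, 68, 0] [] 100000 33333 33332 1300000 50000 0 50000 0 0 50000 0))) (.S 2 1
    (.S 2 0 (.L 6 9 [4, 5, 5, 4] [148, 138, 126, 114, 102, 90] [] 100000 25000 25000 1300000 0 0
    81250 100000 12500 0 12500) (.S 3 9 (.S 3 4 (.S 3 2 (.L 6 9 [4, 5, 5, 4] [148, 138, 126, 114,
    102, 90] [] 100000 20736 20736 1416459 31646 31646 72875 37975 6872 24051 26582) (.L 6 9 [4, 5,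
    5, 4] [148, 138, 126, 114, 102, 90] [] 100000 22310 22309 1407088 38583 0 77165 38583 3150
    26772 26772)) (.E 1)) (.E 1))) (.L 6 9 [4, 5, 5, 4] [148, 138, 126, 114, 102, 90] [] 100000
    15873 15873 1433336 33333 0 90476 33333 9524 33333 33333))) (.S 1 6 (.L 6 9 [4, 5, 5, 4] [175,
    172, 162, 150, 138, 126] [] 100000 28249 28249 1383051 38983 0 89831 37288 1695 11864 11864)
    (.L 6 9 [4, 5, 5, 4] [202, 201, 198, 188, 176, 164] [] 100000 25137 25137 1368853 32787 0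
    100000 39344 1639 22951 21311)))) (.L 6 9 [4, 5, 5, 4] [] [] 100000 24542 24542 1384618 7692 0
    100000 46154 0 26374 26374)) (.E 0)

lemma s22_22_9_3_34 {n : ℕ} (hn : 5 ≤ n) : NoNd (d22_22_9_3.R : ℤ) d22_22_9_3.H n d22_22_9_3.a d22_22_9_3.b
    (BlkD.inB (BlkD.upd (BlkD.upd (fun _ => 0) 0 5) 0 7)
      (BlkD.upd (BlkD.upd (BlkD.upd (fun _ => 22) 0 9) 2 3) 0 7)) :=
  BlkD.tree_sound (BlkD.pairOk_sound k22_22_9_3) (by decide) hn t22_22_9_3_34 _ _ (by decide +kernel)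

/-- certificates of the pair `(9, 3)`, part 35 -/
def t22_22_9_3_35 : BlkD.Tr :=
  .S 0 8 (.S 1 14 (.S 1 7 (.S 1 3 (.L 6 9 [4, 5, 5, 4] [] [] 100000 14286 14286 1400002 33333 0
    85714 66667 14286 28571 28571) (.S 1 5 (.L 6 9 [4, 5, 5, 4] [] [] 100000 13957 13957 1431709
    26016 0 90244 45122 16667 31707 24797) (.L 6 9 [4, 5, 5, 4] [] [] 100000 25000 0 1225000 0 0
    125000 50000 0 28571 21429))) (.E 0)) (.E 0)) (.L 6 9 [4, 5, 5, 4] [] [] 100000 0 0 1408337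
    1190 0 90476 22917 54167 36310 44643)

lemma s22_22_9_3_35 {n : ℕ} (hn : 5 ≤ n) : NoNd (d22_22_9_3.R : ℤ) d22_22_9_3.H n d22_22_9_3.a d22_22_9_3.b
    (BlkD.inB (BlkD.upd (BlkD.upd (fun _ => 0) 0 5) 0 8)
      (BlkD.upd (BlkD.upd (fun _ => 22) 0 9) 2 3)) :=
  BlkD.tree_sound (BlkD.pairOk_sound k22_22_9_3) (by decide) hn t22_22_9_3_35 _ _ (by decide +kernel)

/-- certificates of the pair `(9, 3)`, part 36 -/
def t22_22_9_3_36 : BlkD.Tr :=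
  .E 1

lemma s22_22_9_3_36 {n : ℕ} (hn : 5 ≤ n) : NoNd (d22_22_9_3.R : ℤ) d22_22_9_3.H n d22_22_9_3.a d22_22_9_3.b
    (BlkD.inB (BlkD.upd (fun _ => 0) 2 4)
      (BlkD.upd (fun _ => 22) 0 9)) :=
  BlkD.tree_sound (BlkD.pairOk_sound k22_22_9_3) (by decide) hn t22_22_9_3_36 _ _ (by decide +kernel)

/-- certificates of the pair `(9, 3)`, part 37 -/
def t22_22_9_3_37 : BlkD.Tr :=
  .E 0

lemma s22_22_9_3_37 {n : ℕ} (hn : 5 ≤ n) : NoNd (d22_22_9_3.R : ℤ) d22_22_9_3.H n d22_22_9_3.a d22_22_9_3.b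
    (BlkD.inB (BlkD.upd (fun _ => 0) 0 10)
      (fun _ => 22)) :=
  BlkD.tree_sound (BlkD.pairOk_sound k22_22_9_3) (by decide) hn t22_22_9_3_37 _ _ (by decide +kernel)

lemma pr22_22_9_3 {n : ℕ} (hn : 5 ≤ n) : NoPr ((22 : ℕ) : ℤ) ((22 : ℕ) : ℤ) n 9 3 :=
  BlkD.of_root (R := d22_22_9_3.R) (H := d22_22_9_3.H) (a := d22_22_9_3.a) (b := d22_22_9_3.b) (q := 3) (by decide) hn
    (BlkD.sp 0 9 (BlkD.sp 2 3 (BlkD.sp 0 4 (BlkD.sp 0 2 (BlkD.sp 0 1 (BlkD.sp 0 0 (s22_22_9_3_1 hn)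
      (BlkD.sp 1 11 (s22_22_9_3_2 hn) (s22_22_9_3_3 hn))) (BlkD.sp 1 11 (BlkD.sp 1 5 (s22_22_9_3_4
      hn) (s22_22_9_3_5 hn)) (s22_22_9_3_6 hn))) (BlkD.sp 0 3 (BlkD.sp 1 19 (BlkD.sp 1 9
      (s22_22_9_3_7 hn) (s22_22_9_3_8 hn)) (s22_22_9_3_9 hn)) (BlkD.sp 1 18 (BlkD.sp 1 9 (BlkD.sp 1
      4 (s22_22_9_3_10 hn) (BlkD.sp 1 7 (s22_22_9_3_11 hn) (s22_22_9_3_12 hn))) (BlkD.sp 1 14
      (BlkD.sp 1 12 (BlkD.sp 1 11 (BlkD.sp 1 10 (s22_22_9_3_13 hn) (s22_22_9_3_14 hn))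
      (s22_22_9_3_15 hn)) (s22_22_9_3_16 hn)) (s22_22_9_3_17 hn))) (s22_22_9_3_18 hn)))) (BlkD.sp 0
      7 (BlkD.sp 0 6 (BlkD.sp 0 5 (BlkD.sp 1 17 (BlkD.sp 1 8 (BlkD.sp 1 4 (s22_22_9_3_19 hn)
      (BlkD.sp 1 6 (s22_22_9_3_20 hn) (BlkD.sp 1 7 (s22_22_9_3_21 hn) (s22_22_9_3_22 hn))))
      (BlkD.sp 1 13 (BlkD.sp 1 11 (BlkD.sp 1 10 (s22_22_9_3_23 hn) (s22_22_9_3_24 hn))
      (s22_22_9_3_25 hn)) (s22_22_9_3_26 hn))) (s22_22_9_3_27 hn)) (BlkD.sp 1 16 (BlkD.sp 1 8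
      (BlkD.sp 1 4 (s22_22_9_3_28 hn) (BlkD.sp 1 6 (s22_22_9_3_29 hn) (BlkD.sp 1 7 (s22_22_9_3_30
      hn) (s22_22_9_3_31 hn)))) (s22_22_9_3_32 hn)) (s22_22_9_3_33 hn))) (s22_22_9_3_34 hn))
      (s22_22_9_3_35 hn))) (s22_22_9_3_36 hn)) (s22_22_9_3_37 hn))

end BlkC

end Pool.Agent.Lib.MP_f04ccf_co
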