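import Pool.Agent.Lib.MP_f04ccf_co.M.BlkT

/-!
MP_f04ccf_co, block certificate, data `R = 22`, `H = 22`, part 15 (generated, helper99:
bd10.cpp, gen2.py).
-/

set_option autoImplicit false
set_option maxRecDepth 100000

namespace Pool.Agent.Lib.MP_f04ccf_co

namespace BlkC

/-- the numbers of the pair `(9, 4)`, `R = 22`, `H = 22` -/
def d22_22_9_4 : BlkD.Pd :=
  ⟨22, 22, 3, 9, 4, 6, 3, 3, 1, 5, 12, 0, 2, 2, 8, 0, [0, 12, 24, 33, 34, 35, 36], [0, 8, 16, 18,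
    20, 22, 24], [⟨1, 1, 1, 4, 8, [0, 4], [0, 4]⟩, ⟨1, 1, 1, 4, 14, [0, 8], [0, 6]⟩, ⟨2, 1, 1, 4,
    18, [0, 10, 10], [0, 8]⟩, ⟨2, 1, 1, 4, 30, [0, 12, 22], [0, 8]⟩]⟩

lemma k22_22_9_4 : BlkD.pairOk d22_22_9_4 = true := by decide +kernel

/-- certificates of the pair `(9, 4)`, part 1 -/
def t22_22_9_4_1 : BlkD.Tr :=
  .L 6 9 [4, 4, 4, 4, 22] [] [] 100000 94118 94118 1158824 76471 0 88235 44118 0 0 11765

lemma s22_22_9_4_1 {n : ℕ} (hn : 5 ≤ n) : NoNd (d22_22_9_4.R : ℤ) d22_22_9_4.H n d22_22_9_4.a d22_22_9_4.b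
    (BlkD.inB (fun _ => 0)
      (BlkD.upd (BlkD.upd (BlkD.upd (BlkD.upd (BlkD.upd (BlkD.upd (fun _ => 22) 0 9) 2 4) 0 4) 0 2) 0 1) 0 0)) :=
  BlkD.tree_sound (BlkD.pairOk_sound k22_22_9_4) (by decide) hn t22_22_9_4_1 _ _ (by decide +kernel)

/-- certificates of the pair `(9, 4)`, part 2 -/
def t22_22_9_4_2 : BlkD.Tr :=
  .L 6 9 [4, 4, 4, 4, 22] [] [] 100000 94118 94118 1158824 76471 0 88235 44118 0 0 11765

lemma s22_22_9_4_2 {n : ℕ} (hn : 5 ≤ n) : NoNd (d22_22_9_4.R : ℤ) d22_22_9_4.H n d22_22_9_4.a d22_22_9_4.b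
    (BlkD.inB (BlkD.upd (fun _ => 0) 0 1)
      (BlkD.upd (BlkD.upd (BlkD.upd (BlkD.upd (BlkD.upd (BlkD.upd (BlkD.upd (fun _ => 22) 0 9) 2 4) 0 4) 0 2) 0 1) 1 11) 1 5)) :=
  BlkD.tree_sound (BlkD.pairOk_sound k22_22_9_4) (by decide) hn t22_22_9_4_2 _ _ (by decide +kernel)

/-- certificates of the pair `(9, 4)`, part 3 -/
def t22_22_9_4_3 : BlkD.Tr :=
  .S 1 8 (.L 6 9 [4, 4, 4, 4, 22] [] [] 100000 94118 94118 1158824 76471 0 88235 44118 0 0 11765)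
    (.L 6 9 [4, 4, 4, 4, 22] [] [] 100000 94118 94118 1158824 76471 0 88235 44118 0 0 11765)

lemma s22_22_9_4_3 {n : ℕ} (hn : 5 ≤ n) : NoNd (d22_22_9_4.R : ℤ) d22_22_9_4.H n d22_22_9_4.a d22_22_9_4.b
    (BlkD.inB (BlkD.upd (BlkD.upd (fun _ => 0) 0 1) 1 6)
      (BlkD.upd (BlkD.upd (BlkD.upd (BlkD.upd (BlkD.upd (BlkD.upd (fun _ => 22) 0 9) 2 4) 0 4) 0 2) 0 1) 1 11)) :=
  BlkD.tree_sound (BlkD.pairOk_sound k22_22_9_4) (by decide) hn t22_22_9_4_3 _ _ (by decide +kernel)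

/-- certificates of the pair `(9, 4)`, part 4 -/
def t22_22_9_4_4 : BlkD.Tr :=
  .L 6 9 [4, 4, 4, 4, 22] [] [] 100000 94118 94118 1158824 76471 0 88235 44118 0 0 11765

lemma s22_22_9_4_4 {n : ℕ} (hn : 5 ≤ n) : NoNd (d22_22_9_4.R : ℤ) d22_22_9_4.H n d22_22_9_4.a d22_22_9_4.b
    (BlkD.inB (BlkD.upd (BlkD.upd (fun _ => 0) 0 1) 1 12)
      (BlkD.upd (BlkD.upd (BlkD.upd (BlkD.upd (BlkD.upd (fun _ => 22) 0 9) 2 4) 0 4) 0 2) 0 1)) :=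
  BlkD.tree_sound (BlkD.pairOk_sound k22_22_9_4) (by decide) hn t22_22_9_4_4 _ _ (by decide +kernel)

/-- certificates of the pair `(9, 4)`, part 5 -/
def t22_22_9_4_5 : BlkD.Tr :=
  .L 6 9 [4, 4, 4, 4, 22] [] [] 100000 94118 94118 1158824 76471 0 88235 44118 0 0 11765

lemma s22_22_9_4_5 {n : ℕ} (hn : 5 ≤ n) : NoNd (d22_22_9_4.R : ℤ) d22_22_9_4.H n d22_22_9_4.a d22_22_9_4.b
    (BlkD.inB (BlkD.upd (fun _ => 0) 0 2)
      (BlkD.upd (BlkD.upd (BlkD.upd (BlkD.upd (BlkD.upd (BlkD.upd (fun _ => 22) 0 9) 2 4) 0 4) 0 2) 1 11) 1 5)) :=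
  BlkD.tree_sound (BlkD.pairOk_sound k22_22_9_4) (by decide) hn t22_22_9_4_5 _ _ (by decide +kernel)

/-- certificates of the pair `(9, 4)`, part 6 -/
def t22_22_9_4_6 : BlkD.Tr :=
  .L 6 9 [4, 4, 4, 4, 22] [] [] 100000 94118 94118 1158824 76471 0 88235 44118 0 0 11765

lemma s22_22_9_4_6 {n : ℕ} (hn : 5 ≤ n) : NoNd (d22_22_9_4.R : ℤ) d22_22_9_4.H n d22_22_9_4.a d22_22_9_4.b
    (BlkD.inB (BlkD.upd (BlkD.upd (fun _ => 0) 0 2) 1 6)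
      (BlkD.upd (BlkD.upd (BlkD.upd (BlkD.upd (BlkD.upd (BlkD.upd (fun _ => 22) 0 9) 2 4) 0 4) 0 2) 1 11) 1 8)) :=
  BlkD.tree_sound (BlkD.pairOk_sound k22_22_9_4) (by decide) hn t22_22_9_4_6 _ _ (by decide +kernel)

/-- certificates of the pair `(9, 4)`, part 7 -/
def t22_22_9_4_7 : BlkD.Tr :=
  .S 1 10 (.L 6 9 [4, 4, 4, 4, 22] [] [] 100000 94118 94118 1158824 76471 0 88235 44118 0 0 11765)
    (.L 6 9 [4, 4, 4, 4, 22] [222, 221, 220, 219, 218, 217] [] 100000 94118 94118 1158824 76471 0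
    88235 44118 0 0 11765)

lemma s22_22_9_4_7 {n : ℕ} (hn : 5 ≤ n) : NoNd (d22_22_9_4.R : ℤ) d22_22_9_4.H n d22_22_9_4.a d22_22_9_4.b
    (BlkD.inB (BlkD.upd (BlkD.upd (BlkD.upd (fun _ => 0) 0 2) 1 6) 1 9)
      (BlkD.upd (BlkD.upd (BlkD.upd (BlkD.upd (BlkD.upd (fun _ => 22) 0 9) 2 4) 0 4) 0 2) 1 11)) :=
  BlkD.tree_sound (BlkD.pairOk_sound k22_22_9_4) (by decide) hn t22_22_9_4_7 _ _ (by decide +kernel)

/-- certificates of the pair `(9, 4)`, part 8 -/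
def t22_22_9_4_8 : BlkD.Tr :=
  .S 1 17 (.S 1 14 (.L 6 9 [4, 4, 4, 4, 22] [] [] 100000 94118 94118 1158824 76471 0 88235 44118 0
    0 11765) (.L 6 9 [4, 4, 4, 4, 22] [] [] 100000 94118 94118 1158824 76471 0 88235 44118 0 0
    11765)) (.L 6 9 [4, 4, 4, 4, 22] [] [] 100000 94118 94118 1158824 76471 0 88235 44118 0 0
    11765)

lemma s22_22_9_4_8 {n : ℕ} (hn : 5 ≤ n) : NoNd (d22_22_9_4.R : ℤ) d22_22_9_4.H n d22_22_9_4.a d22_22_9_4.b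
    (BlkD.inB (BlkD.upd (BlkD.upd (fun _ => 0) 0 2) 1 12)
      (BlkD.upd (BlkD.upd (BlkD.upd (BlkD.upd (fun _ => 22) 0 9) 2 4) 0 4) 0 2)) :=
  BlkD.tree_sound (BlkD.pairOk_sound k22_22_9_4) (by decide) hn t22_22_9_4_8 _ _ (by decide +kernel)

/-- certificates of the pair `(9, 4)`, part 9 -/
def t22_22_9_4_9 : BlkD.Tr :=
  .L 6 9 [4, 4, 4, 4, 22] [] [] 100000 33333 33332 1240000 20000 0 20000 40000 0 0 0

lemma s22_22_9_4_9 {n : ℕ} (hn : 5 ≤ n) : NoNd (d22_22_9_4.R : ℤ) d22_22_9_4.H n d22_22_9_4.a d22_22_9_4.b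
    (BlkD.inB (BlkD.upd (fun _ => 0) 0 3)
      (BlkD.upd (BlkD.upd (BlkD.upd (BlkD.upd (BlkD.upd (BlkD.upd (BlkD.upd (fun _ => 22) 0 9) 2 4) 0 4) 0 3) 1 19) 1 9) 1 4)) :=
  BlkD.tree_sound (BlkD.pairOk_sound k22_22_9_4) (by decide) hn t22_22_9_4_9 _ _ (by decide +kernel)

/-- certificates of the pair `(9, 4)`, part 10 -/
def t22_22_9_4_10 : BlkD.Tr :=
  .S 1 7 (.L 6 9 [4, 4, 4, 4, 22] [] [] 100000 22808 22808 1473684 21053 0 21053 42105 0 31579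
    31579) (.S 1 8 (.L 6 9 [4, 4, 4, 4, 22] [169, 168, 167, 163, 154, 142] [] 100000 41667 41667
    1437500 37500 0 75000 37500 0 25000 12500) (.L 6 9 [4, 4, 4, 4, 22] [192, 191, 190, 189, 185,
    176] [] 100000 33333 33332 1460000 40000 0 60000 40000 0 20000 10000))

lemma s22_22_9_4_10 {n : ℕ} (hn : 5 ≤ n) : NoNd (d22_22_9_4.R : ℤ) d22_22_9_4.H n d22_22_9_4.a d22_22_9_4.b
    (BlkD.inB (BlkD.upd (BlkD.upd (fun _ => 0) 0 3) 1 5)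
      (BlkD.upd (BlkD.upd (BlkD.upd (BlkD.upd (BlkD.upd (BlkD.upd (fun _ => 22) 0 9) 2 4) 0 4) 0 3) 1 19) 1 9)) :=
  BlkD.tree_sound (BlkD.pairOk_sound k22_22_9_4) (by decide) hn t22_22_9_4_10 _ _ (by decide +kernel)

/-- certificates of the pair `(9, 4)`, part 11 -/
def t22_22_9_4_11 : BlkD.Tr :=
  .S 1 11 (.S 1 10 (.L 6 9 [4, 4, 4, 4, 22] [217, 216, 215, 214, 213, 209] [] 100000 100000 100000
    1250000 75000 0 100000 25000 0 0 0) (.L 6 9 [4, 4, 4, 4, 22] [244, 243, 242, 241, 240, 239] []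
    100000 93333 93332 1266670 73333 0 96667 23333 0 6667 3333)) (.L 6 9 [4, 4, 4, 4, 22] [273,
    272, 271, 270, 269, 268] [] 100000 141667 108333 950001 116667 0 133333 16667 0 0 0)

lemma s22_22_9_4_11 {n : ℕ} (hn : 5 ≤ n) : NoNd (d22_22_9_4.R : ℤ) d22_22_9_4.H n d22_22_9_4.a d22_22_9_4.b
    (BlkD.inB (BlkD.upd (BlkD.upd (fun _ => 0) 0 3) 1 10)
      (BlkD.upd (BlkD.upd (BlkD.upd (BlkD.upd (BlkD.upd (BlkD.upd (BlkD.upd (fun _ => 22) 0 9) 2 4) 0 4) 0 3) 1 19) 1 14) 1 12)) :=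
  BlkD.tree_sound (BlkD.pairOk_sound k22_22_9_4) (by decide) hn t22_22_9_4_11 _ _ (by decide +kernel)

/-- certificates of the pair `(9, 4)`, part 12 -/
def t22_22_9_4_12 : BlkD.Tr :=
  .S 1 13 (.L 6 9 [4, 4, 4, 4, 22] [304, 303, 302, 301, 300, 299] [] 100000 142857 99999 857143
    114286 0 142857 28571 0 0 0) (.L 6 9 [4, 4, 4, 4, 22] [337, 336, 335, 334, 333, 332] [] 100000
    330000 200000 0 210000 0 230000 60000 0 0 0)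

lemma s22_22_9_4_12 {n : ℕ} (hn : 5 ≤ n) : NoNd (d22_22_9_4.R : ℤ) d22_22_9_4.H n d22_22_9_4.a d22_22_9_4.b
    (BlkD.inB (BlkD.upd (BlkD.upd (BlkD.upd (fun _ => 0) 0 3) 1 10) 1 13)
      (BlkD.upd (BlkD.upd (BlkD.upd (BlkD.upd (BlkD.upd (BlkD.upd (fun _ => 22) 0 9) 2 4) 0 4) 0 3) 1 19) 1 14)) :=
  BlkD.tree_sound (BlkD.pairOk_sound k22_22_9_4) (by decide) hn t22_22_9_4_12 _ _ (by decide +kernel)

/-- certificates of the pair `(9, 4)`, part 13 -/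
def t22_22_9_4_13 : BlkD.Tr :=
  .S 1 17 (.S 1 16 (.S 1 15 (.L 6 9 [4, 4, 4, 4, 22] [372, 371, 370, 369, 368, 367] [] 100000
    200000 0 0 200000 0 200000 0 0 0 0) (.L 6 9 [4, 4, 4, 4, 22] [409, 408, 407, 406, 405, 404] []
    100000 150001 1 0 166667 0 208333 0 0 0 0)) (.L 6 9 [4, 4, 4, 4, 22] [448, 447, 446, 445, 444,
    443] [] 100000 127586 0 2 151724 0 189655 0 0 0 0)) (.E 0)

lemma s22_22_9_4_13 {n : ℕ} (hn : 5 ≤ n) : NoNd (d22_22_9_4.R : ℤ) d22_22_9_4.H n d22_22_9_4.a d22_22_9_4.b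
    (BlkD.inB (BlkD.upd (BlkD.upd (BlkD.upd (fun _ => 0) 0 3) 1 10) 1 15)
      (BlkD.upd (BlkD.upd (BlkD.upd (BlkD.upd (BlkD.upd (fun _ => 22) 0 9) 2 4) 0 4) 0 3) 1 19)) :=
  BlkD.tree_sound (BlkD.pairOk_sound k22_22_9_4) (by decide) hn t22_22_9_4_13 _ _ (by decide +kernel)

/-- certificates of the pair `(9, 4)`, part 14 -/
def t22_22_9_4_14 : BlkD.Tr :=
  .E 0

lemma s22_22_9_4_14 {n : ℕ} (hn : 5 ≤ n) : NoNd (d22_22_9_4.R : ℤ) d22_22_9_4.H n d22_22_9_4.a d22_22_9_4.b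
    (BlkD.inB (BlkD.upd (BlkD.upd (fun _ => 0) 0 3) 1 20)
      (BlkD.upd (BlkD.upd (BlkD.upd (BlkD.upd (fun _ => 22) 0 9) 2 4) 0 4) 0 3)) :=
  BlkD.tree_sound (BlkD.pairOk_sound k22_22_9_4) (by decide) hn t22_22_9_4_14 _ _ (by decide +kernel)

/-- certificates of the pair `(9, 4)`, part 15 -/
def t22_22_9_4_15 : BlkD.Tr :=
  .L 6 9 [4, 4, 4, 4, 22] [] [] 100000 33333 33332 1350000 16667 0 16667 50000 0 0 0

lemma s22_22_9_4_15 {n : ℕ} (hn : 5 ≤ n) : NoNd (d22_22_9_4.R : ℤ) d22_22_9_4.H n d22_22_9_4.a d22_22_9_4.b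
    (BlkD.inB (BlkD.upd (BlkD.upd (fun _ => 0) 0 3) 0 4)
      (BlkD.upd (BlkD.upd (BlkD.upd (BlkD.upd (BlkD.upd (BlkD.upd (fun _ => 22) 0 9) 2 4) 0 4) 1 18) 1 9) 1 4)) :=
  BlkD.tree_sound (BlkD.pairOk_sound k22_22_9_4) (by decide) hn t22_22_9_4_15 _ _ (by decide +kernel)

/-- certificates of the pair `(9, 4)`, part 16 -/
def t22_22_9_4_16 : BlkD.Tr :=
  .S 1 6 (.L 6 9 [4, 4, 4, 4, 22] [] [] 100000 22808 22808 1494737 21053 0 31579 42105 0 31579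
    31579) (.S 2 2 (.L 6 9 [4, 4, 4, 4, 22] [162, 161, 157, 148, 136, 124] [] 100000 29630 29630
    1475926 38889 3704 56481 25926 0 19444 11111) (.L 6 9 [4, 4, 4, 4, 22] [162, 161, 157, 148,
    136, 124] [] 100000 30556 30556 1475002 33333 0 41667 25000 0 8333 8333))

lemma s22_22_9_4_16 {n : ℕ} (hn : 5 ≤ n) : NoNd (d22_22_9_4.R : ℤ) d22_22_9_4.H n d22_22_9_4.a d22_22_9_4.b
    (BlkD.inB (BlkD.upd (BlkD.upd (BlkD.upd (fun _ => 0) 0 3) 0 4) 1 5)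
      (BlkD.upd (BlkD.upd (BlkD.upd (BlkD.upd (BlkD.upd (BlkD.upd (fun _ => 22) 0 9) 2 4) 0 4) 1 18) 1 9) 1 7)) :=
  BlkD.tree_sound (BlkD.pairOk_sound k22_22_9_4) (by decide) hn t22_22_9_4_16 _ _ (by decide +kernel)

/-- certificates of the pair `(9, 4)`, part 17 -/
def t22_22_9_4_17 : BlkD.Tr :=
  .S 1 8 (.S 2 2 (.L 6 9 [4, 4, 4, 4, 22] [185, 184, 183, 179, 170, 158] [] 100000 36036 36036
    1483786 43243 0 64865 35135 0 13514 16216) (.L 6 9 [4, 4, 4, 4, 22] [185, 184, 183, 179, 170,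
    158] [] 100000 46466 46466 1436363 45455 0 63636 45455 0 18182 21212)) (.S 2 2 (.S 2 1 (.L 6 9
    [4, 4, 4, 4, 22] [210, 209, 208, 207, 203, 194] [] 100000 75239 75239 1340000 54286 44286 80000
    64286 0 0 15714) (.S 3 7 (.S 3 3 (.S 3 1 (.L 6 9 [4, 4, 4, 4, 22] [210, 209, 208, 207, 203,
    194] [] 100000 33333 33332 1440000 40000 0 60000 0 0 0 20000) (.S 3 2 (.L 6 9 [4, 4, 4, 4, 22]
    [210, 209, 208, 207, 203, 194] [36, 24, 10, 0, 0, 0] 100000 42593 42593 1466667 50000 0 66667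
    16667 0 16667 22222) (.L 5 8 [4, 4, 5, 5, 22] [210, 209, 208, 207, 203, 194] [52, 44, 32, 18,
    0, 0] 100000 68800 68800 1368800 61600 0 65600 60000 0 8800 5600))) (.L 5 8 [4, 4, 5, 5, 22]
    [210, 209, 208, 207, 203, 194] [] 100000 72727 72727 1327276 63636 0 63636 63636 0 9091 0)) (.E
    1))) (.L 6 9 [4, 4, 4, 4, 22] [210, 209, 208, 207, 203, 194] [] 100000 52380 52379 1432145
    53571 0 67857 42857 0 14286 10714))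

lemma s22_22_9_4_17 {n : ℕ} (hn : 5 ≤ n) : NoNd (d22_22_9_4.R : ℤ) d22_22_9_4.H n d22_22_9_4.a d22_22_9_4.b
    (BlkD.inB (BlkD.upd (BlkD.upd (BlkD.upd (BlkD.upd (fun _ => 0) 0 3) 0 4) 1 5) 1 8)
      (BlkD.upd (BlkD.upd (BlkD.upd (BlkD.upd (BlkD.upd (fun _ => 22) 0 9) 2 4) 0 4) 1 18) 1 9)) :=
  BlkD.tree_sound (BlkD.pairOk_sound k22_22_9_4) (by decide) hn t22_22_9_4_17 _ _ (by decide +kernel)

/-- certificates of the pair `(9, 4)`, part 18 -/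
def t22_22_9_4_18 : BlkD.Tr :=
  .S 1 11 (.S 1 10 (.S 2 2 (.S 2 1 (.L 6 9 [4, 4, 4, 4, 22] [237, 236, 235, 234, 233, 229] []
    100000 82051 82051 1323079 61538 46154 76923 65385 0 0 0) (.S 3 6 (.S 3 3 (.S 3 1 (.L 6 9 [4,
    4, 4, 4, 22] [237, 236, 235, 234, 233, 229] [] 100000 33333 33332 1450000 50000 0 50000 50000 0
    0 0) (.L 5 8 [4, 4, 5, 5, 22] [237, 236, 235, 234, 233, 229] [] 100000 49506 49505 1447522
    55446 0 75248 26733 0 26733 23762)) (.L 5 8 [4, 4, 5, 5, 22] [237, 236, 235, 234, 233, 229] []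
    100000 150000 150000 1100000 100000 0 100000 0 0 0 0)) (.E 1))) (.L 5 8 [4, 4, 5, 5, 22] [237,
    236, 235, 234, 233, 229] [] 100000 55556 55555 1422220 55556 0 77778 33333 0 11111 22222)) (.L
    6 9 [4, 4, 4, 4, 22] [266, 265, 264, 263, 262, 261] [] 100000 100000 100000 1255556 88889 0
    100000 44444 0 0 0)) (.L 6 9 [4, 4, 4, 4, 22] [297, 296, 295, 294, 293, 292] [] 100000 116666
    83332 1033335 100000 0 133333 33333 0 0 0)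

lemma s22_22_9_4_18 {n : ℕ} (hn : 5 ≤ n) : NoNd (d22_22_9_4.R : ℤ) d22_22_9_4.H n d22_22_9_4.a d22_22_9_4.b
    (BlkD.inB (BlkD.upd (BlkD.upd (BlkD.upd (fun _ => 0) 0 3) 0 4) 1 10)
      (BlkD.upd (BlkD.upd (BlkD.upd (BlkD.upd (BlkD.upd (BlkD.upd (fun _ => 22) 0 9) 2 4) 0 4) 1 18) 1 14) 1 12)) :=
  BlkD.tree_sound (BlkD.pairOk_sound k22_22_9_4) (by decide) hn t22_22_9_4_18 _ _ (by decide +kernel)

/-- certificates of the pair `(9, 4)`, part 19 -/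
def t22_22_9_4_19 : BlkD.Tr :=
  .S 1 13 (.L 6 9 [4, 4, 4, 4, 22] [330, 329, 328, 327, 326, 325] [] 100000 300000 100000 0 225000
    0 300000 0 0 0 0) (.L 6 9 [4, 4, 4, 4, 22] [365, 364, 363, 362, 361, 360] [] 100000 231580 1 0
    221053 0 231579 0 0 0 0)

lemma s22_22_9_4_19 {n : ℕ} (hn : 5 ≤ n) : NoNd (d22_22_9_4.R : ℤ) d22_22_9_4.H n d22_22_9_4.a d22_22_9_4.b
    (BlkD.inB (BlkD.upd (BlkD.upd (BlkD.upd (BlkD.upd (fun _ => 0) 0 3) 0 4) 1 10) 1 13)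
      (BlkD.upd (BlkD.upd (BlkD.upd (BlkD.upd (BlkD.upd (fun _ => 22) 0 9) 2 4) 0 4) 1 18) 1 14)) :=
  BlkD.tree_sound (BlkD.pairOk_sound k22_22_9_4) (by decide) hn t22_22_9_4_19 _ _ (by decide +kernel)

/-- certificates of the pair `(9, 4)`, part 20 -/
def t22_22_9_4_20 : BlkD.Tr :=
  .L 6 9 [4, 4, 4, 4, 22] [] [] 100000 225927 1 0 40741 0 325926 0 0 0 0

lemma s22_22_9_4_20 {n : ℕ} (hn : 5 ≤ n) : NoNd (d22_22_9_4.R : ℤ) d22_22_9_4.H n d22_22_9_4.a d22_22_9_4.b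
    (BlkD.inB (BlkD.upd (BlkD.upd (BlkD.upd (BlkD.upd (fun _ => 0) 0 3) 0 4) 1 10) 1 15)
      (BlkD.upd (BlkD.upd (BlkD.upd (BlkD.upd (fun _ => 22) 0 9) 2 4) 0 4) 1 18)) :=
  BlkD.tree_sound (BlkD.pairOk_sound k22_22_9_4) (by decide) hn t22_22_9_4_20 _ _ (by decide +kernel)

/-- certificates of the pair `(9, 4)`, part 21 -/
def t22_22_9_4_21 : BlkD.Tr :=
  .E 0

lemma s22_22_9_4_21 {n : ℕ} (hn : 5 ≤ n) : NoNd (d22_22_9_4.R : ℤ) d22_22_9_4.H n d22_22_9_4.a d22_22_9_4.b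
    (BlkD.inB (BlkD.upd (BlkD.upd (BlkD.upd (fun _ => 0) 0 3) 0 4) 1 19)
      (BlkD.upd (BlkD.upd (BlkD.upd (fun _ => 22) 0 9) 2 4) 0 4)) :=
  BlkD.tree_sound (BlkD.pairOk_sound k22_22_9_4) (by decide) hn t22_22_9_4_21 _ _ (by decide +kernel)

/-- certificates of the pair `(9, 4)`, part 22 -/
def t22_22_9_4_22 : BlkD.Tr :=
  .L 6 9 [4, 4, 4, 4, 22] [] [] 100000 33333 33332 1400001 33333 0 33333 66667 0 0 0

lemma s22_22_9_4_22 {n : ℕ} (hn : 5 ≤ n) : NoNd (d22_22_9_4.R : ℤ) d22_22_9_4.H n d22_22_9_4.a d22_22_9_4.b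
    (BlkD.inB (BlkD.upd (fun _ => 0) 0 5)
      (BlkD.upd (BlkD.upd (BlkD.upd (BlkD.upd (BlkD.upd (BlkD.upd (BlkD.upd (BlkD.upd (fun _ => 22) 0 9) 2 4) 0 7) 0 6) 0 5) 1 17) 1 8) 1 4)) :=
  BlkD.tree_sound (BlkD.pairOk_sound k22_22_9_4) (by decide) hn t22_22_9_4_22 _ _ (by decide +kernel)

/-- certificates of the pair `(9, 4)`, part 23 -/
def t22_22_9_4_23 : BlkD.Tr :=
  .S 1 5 (.L 6 9 [4, 4, 4, 4, 22] [129, 120, 108, 96, 84, 70] [] 100000 25000 24999 1488889 27778 0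
    47222 36111 0 25000 25000) (.S 2 2 (.S 2 1 (.S 2 0 (.L 6 9 [4, 4, 4, 4, 22] [153, 149, 140,
    128, 116, 104] [] 100000 33333 33332 1350000 25000 0 50000 75000 0 0 0) (.S 3 10 (.S 3 5 (.S 3
    2 (.L 6 9 [4, 4, 4, 4, 22] [153, 149, 140, 128, 116, 104] [] 100000 33333 33332 1400000 0 0 0 0
    0 0 0) (.S 3 4 (.L 6 9 [4, 4, 4, 4, 22] [153, 149, 140, 128, 116, 104] [] 100000 33334 33334
    1466666 26667 26667 53333 40000 0 0 13333) (.S 4 6 (.S 4 3 (.L 6 9 [4, 4, 4, 4, 22] [128, 116,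
    104, 90, 0, 0] [76, 72, 64, 56, 44, 30] 100000 42425 42425 1427271 45455 0 90909 45455 0 36364
    18182) (.L 6 9 [4, 4, 4, 4, 22] [153, 149, 140, 128, 116, 104] [76, 72, 64, 56, 44, 30] 100000
    150000 0 600000 50000 50000 250000 125000 0 0 0)) (.E 2)))) (.L 6 9 [4, 4, 4, 4, 22] [153, 149,
    140, 128, 116, 104] [] 100000 100000 100000 1240000 60000 0 60000 100000 0 0 0)) (.E 1))) (.S 3
    9 (.S 3 4 (.S 3 2 (.L 6 9 [4, 4, 4, 4, 22] [153, 149, 140, 128, 116, 104] [] 100000 33333 33332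
    1464706 35294 0 35294 17647 0 0 11765) (.S 3 3 (.L 6 9 [4, 4, 4, 4, 22] [153, 149, 140, 128,
    116, 104] [52, 44, 32, 18, 0, 0] 100000 23810 23810 1514287 28571 0 57143 28571 0 28571 28571)
    (.S 4 6 (.S 4 3 (.L 6 9 [4, 4, 4, 4, 22] [128, 116, 104, 90, 0, 0] [70, 62, 54, 42, 28, 0]
    100000 42425 42425 1427271 45455 0 90909 45455 0 36364 18182) (.L 6 9 [4, 4, 4, 4, 22] [153,
    149, 140, 128, 116, 104] [70, 62, 54, 42, 28, 0] 100000 128572 1 728573 57143 0 228571 85714 0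
    0 0)) (.E 2)))) (.E 1)) (.E 1))) (.S 2 3 (.L 5 8 [4, 4, 5, 5, 22] [153, 149, 140, 128, 116,
    104] [] 100000 29629 29628 1500002 33333 0 44444 22222 0 44444 22222) (.L 6 9 [4, 4, 4, 4, 22]
    [153, 149, 140, 128, 116, 104] [] 100000 33333 33332 1460000 40000 0 40000 0 0 40000 0)))

lemma s22_22_9_4_23 {n : ℕ} (hn : 5 ≤ n) : NoNd (d22_22_9_4.R : ℤ) d22_22_9_4.H n d22_22_9_4.a d22_22_9_4.b
    (BlkD.inB (BlkD.upd (BlkD.upd (fun _ => 0) 0 5) 1 5)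
      (BlkD.upd (BlkD.upd (BlkD.upd (BlkD.upd (BlkD.upd (BlkD.upd (BlkD.upd (BlkD.upd (fun _ => 22) 0 9) 2 4) 0 7) 0 6) 0 5) 1 17) 1 8) 1 6)) :=
  BlkD.tree_sound (BlkD.pairOk_sound k22_22_9_4) (by decide) hn t22_22_9_4_23 _ _ (by decide +kernel)

/-- certificates of the pair `(9, 4)`, part 24 -/
def t22_22_9_4_24 : BlkD.Tr :=
  .S 2 2 (.S 2 1 (.S 2 0 (.L 6 9 [4, 4, 4, 4, 22] [176, 175, 171, 162, 150, 138] [] 100000 33333
    33332 1366668 33333 0 66667 66667 0 0 0) (.S 3 9 (.S 3 4 (.L 6 9 [4, 4, 4, 4, 22] [176, 175,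
    171, 162, 150, 138] [] 100000 33333 33332 1488891 33333 22222 66667 44444 0 0 22222) (.S 3 7
    (.S 3 6 (.S 3 5 (.S 4 7 (.S 4 3 (.L 6 9 [4, 4, 4, 4, 22] [150, 138, 126, 112, 0, 0] [76, 72,
    64, 56, 44, 30] 100000 23809 23808 1495240 38095 19048 57143 38095 0 11905 16667) (.L 6 9 [4,
    4, 4, 4, 22] [176, 175, 171, 162, 150, 138] [76, 72, 64, 56, 44, 30] 100000 100000 0 900001
    33333 33333 200000 100000 0 0 0)) (.E 2)) (.L 6 9 [4, 4, 4, 4, 22] [176, 175, 171, 162, 150,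
    138] [90, 88, 84, 76, 68, 56] 100000 100000 100000 1240000 60000 0 100000 100000 0 0 0)) (.E
    1)) (.E 1))) (.E 1))) (.S 3 8 (.S 3 4 (.S 3 2 (.S 3 1 (.L 6 9 [4, 4, 4, 4, 22] [176, 175, 171,
    162, 150, 138] [] 100000 33334 33334 1436842 31579 31579 63158 31579 0 0 21053) (.S 4 7 (.S 4 3
    (.L 6 9 [4, 4, 4, 4, 22] [150, 138, 126, 112, 0, 0] [36, 24, 10, 0, 0, 0] 100000 33333 33332
    1485715 38095 19048 57143 38095 0 0 14286) (.L 6 9 [4, 4, 4, 4, 22] [176, 175, 171, 162, 150,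
    138] [36, 24, 10, 0, 0, 0] 100000 29269 1 1324391 17073 0 129268 8537 0 12195 14634)) (.E 2)))
    (.S 3 3 (.S 4 7 (.S 4 3 (.L 6 9 [4, 4, 4, 4, 22] [150, 138, 126, 112, 0, 0] [52, 44, 32, 18, 0,
    0] 100000 26667 26667 1500000 40000 0 80000 40000 0 20000 20000) (.L 6 9 [4, 4, 4, 4, 22] [176,
    175, 171, 162, 150, 138] [52, 44, 32, 18, 0, 0] 100000 42106 1 1247369 13158 13158 142105 13158
    0 0 7895)) (.E 2)) (.S 4 7 (.S 4 3 (.L 6 9 [4, 4, 4, 4, 22] [150, 138, 126, 112, 0, 0] [70, 62,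
    54, 42, 28, 0] 100000 17857 17857 1521430 42857 0 53571 21429 0 32143 17857) (.L 6 9 [4, 4, 4,
    4, 22] [176, 175, 171, 162, 150, 138] [70, 62, 54, 42, 28, 0] 100000 87500 0 975000 37500 0
    187500 75000 0 12500 0)) (.E 2)))) (.E 1)) (.E 1))) (.S 2 3 (.S 3 7 (.S 3 3 (.S 3 1 (.L 6 9 [4,
    4, 4, 4, 22] [176, 175, 171, 162, 150, 138] [] 100000 27778 27778 1500001 33333 0 66667 50000 0
    16667 16667) (.S 3 2 (.S 4 7 (.S 4 3 (.L 6 9 [4, 4, 4, 4, 22] [150, 138, 126, 112, 0, 0] [40,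
    28, 14, 0, 0, 0] 100000 25001 25001 1491666 41667 0 62500 41667 0 25000 25000) (.L 6 9 [4, 4,
    4, 4, 22] [176, 175, 171, 162, 150, 138] [40, 28, 14, 0, 0, 0] 100000 46155 1 1223076 19231 0
    146154 0 0 0 3846)) (.E 2)) (.S 4 7 (.S 4 3 (.L 6 9 [4, 4, 4, 4, 22] [150, 138, 126, 112, 0, 0]
    [58, 50, 38, 24, 0, 0] 100000 22222 22222 1488892 44444 0 66667 22222 0 44444 22222) (.L 6 9
    [4, 4, 4, 4, 22] [176, 175, 171, 162, 150, 138] [58, 50, 38, 24, 0, 0] 100000 114286 0 814285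
    42857 0 214286 42857 0 0 0)) (.E 2)))) (.E 1)) (.E 1)) (.L 6 9 [4, 4, 4, 4, 22] [176, 175, 171,
    162, 150, 138] [] 100000 33333 33332 1493750 43750 0 62500 0 0 25000 18750))

lemma s22_22_9_4_24 {n : ℕ} (hn : 5 ≤ n) : NoNd (d22_22_9_4.R : ℤ) d22_22_9_4.H n d22_22_9_4.a d22_22_9_4.b
    (BlkD.inB (BlkD.upd (BlkD.upd (BlkD.upd (fun _ => 0) 0 5) 1 5) 1 7)
      (BlkD.upd (BlkD.upd (BlkD.upd (BlkD.upd (BlkD.upd (BlkD.upd (BlkD.upd (BlkD.upd (fun _ => 22) 0 9) 2 4) 0 7) 0 6) 0 5) 1 17) 1 8) 1 7)) :=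
  BlkD.tree_sound (BlkD.pairOk_sound k22_22_9_4) (by decide) hn t22_22_9_4_24 _ _ (by decide +kernel)

/-- certificates of the pair `(9, 4)`, part 25 -/
def t22_22_9_4_25 : BlkD.Tr :=
  .S 2 1 (.S 2 0 (.L 6 9 [4, 4, 4, 4, 22] [201, 200, 199, 195, 186, 174] [] 100000 33334 33334
    1381818 36364 0 72727 63636 0 0 9091) (.S 3 8 (.S 3 4 (.S 3 2 (.L 6 9 [4, 4, 4, 4, 22] [201,
    200, 199, 195, 186, 174] [] 100000 30909 30908 1469092 32727 32727 56364 54545 3636 0 18182)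
    (.S 3 3 (.L 6 9 [4, 4, 4, 4, 22] [201, 200, 199, 195, 186, 174] [46, 38, 26, 12, 0, 0] 100000
    42425 42425 1463636 36364 45455 63636 54545 0 0 18182) (.S 4 8 (.S 4 4 (.L 6 9 [4, 4, 4, 4, 22]
    [186, 174, 162, 150, 136, 0] [62, 54, 46, 34, 20, 0] 100000 40625 40625 1446875 43750 31250
    71875 59375 0 3125 12500) (.L 6 9 [4, 4, 4, 4, 22] [201, 200, 199, 195, 186, 174] [62, 54, 46,
    34, 20, 0] 100000 114286 0 814285 42857 42857 214286 71429 0 0 0)) (.E 2)))) (.S 3 6 (.S 3 5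
    (.S 4 8 (.S 4 4 (.L 6 9 [4, 4, 4, 4, 22] [186, 174, 162, 150, 136, 0] [76, 72, 64, 56, 44, 30]
    100000 36000 36000 1459000 46000 23000 73000 46000 0 27000 9000) (.L 6 9 [4, 4, 4, 4, 22] [201,
    200, 199, 195, 186, 174] [76, 72, 64, 56, 44, 30] 100000 250000 0 0 87500 0 350000 118750 0 0
    0)) (.E 2)) (.L 6 9 [4, 4, 4, 4, 22] [201, 200, 199, 195, 186, 174] [90, 88, 84, 76, 68, 56]
    100000 100000 100000 1240000 60000 0 100000 100000 0 0 0)) (.E 1))) (.E 1))) (.S 3 7 (.S 3 3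
    (.S 3 1 (.L 6 9 [4, 4, 4, 4, 22] [201, 200, 199, 195, 186, 174] [] 100000 33333 33332 1480000
    40000 0 60000 0 0 0 0) (.S 3 2 (.S 4 8 (.S 4 4 (.L 5 8 [4, 4, 5, 5, 22] [186, 174, 162, 150,
    136, 0] [36, 24, 10, 0, 0, 0] 100000 30000 30000 1500000 40000 0 80000 50000 0 10000 20000) (.L
    5 8 [4, 4, 5, 5, 22] [201, 200, 199, 195, 186, 174] [36, 24, 10, 0, 0, 0] 100000 50000 0
    1200000 25000 0 150000 25000 0 0 0)) (.E 2)) (.S 4 8 (.S 4 4 (.L 5 8 [4, 4, 5, 5, 22] [186,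
    174, 162, 150, 136, 0] [52, 44, 32, 18, 0, 0] 100000 24444 24443 1520001 40000 0 80000 33333 0
    26667 20000) (.L 5 8 [4, 4, 5, 5, 22] [201, 200, 199, 195, 186, 174] [52, 44, 32, 18, 0, 0]
    100000 83333 0 1000002 33333 0 183333 16667 0 0 0)) (.E 2)))) (.S 3 5 (.S 3 4 (.S 4 8 (.S 4 4
    (.L 5 8 [4, 4, 5, 5, 22] [186, 174, 162, 150, 136, 0] [70, 62, 54, 42, 28, 0] 100000 40000
    40000 1463637 50909 0 80000 25455 0 34545 20000) (.L 5 8 [4, 4, 5, 5, 22] [201, 200, 199, 195,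
    186, 174] [70, 62, 54, 42, 28, 0] 100000 185714 0 385717 28571 0 285714 142857 0 0 0)) (.E 2))
    (.E 1)) (.E 1))) (.E 1))

lemma s22_22_9_4_25 {n : ℕ} (hn : 5 ≤ n) : NoNd (d22_22_9_4.R : ℤ) d22_22_9_4.H n d22_22_9_4.a d22_22_9_4.b
    (BlkD.inB (BlkD.upd (BlkD.upd (BlkD.upd (BlkD.upd (fun _ => 0) 0 5) 1 5) 1 7) 1 8)
      (BlkD.upd (BlkD.upd (BlkD.upd (BlkD.upd (BlkD.upd (BlkD.upd (BlkD.upd (BlkD.upd (fun _ => 22) 0 9) 2 4) 0 7) 0 6) 0 5) 1 17) 1 8) 2 2)) :=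
  BlkD.tree_sound (BlkD.pairOk_sound k22_22_9_4) (by decide) hn t22_22_9_4_25 _ _ (by decide +kernel)

/-- certificates of the pair `(9, 4)`, part 26 -/
def t22_22_9_4_26 : BlkD.Tr :=
  .S 2 3 (.S 3 6 (.S 3 3 (.S 3 1 (.S 3 0 (.L 5 8 [4, 4, 5, 5, 22] [201, 200, 199, 195, 186, 174]
    [0, 0, 0, 0, 0, 0] 100000 33333 33332 1466668 33333 0 66667 0 0 0 16667) (.S 4 8 (.S 4 4 (.L 5
    8 [4, 4, 5, 5, 22] [186, 174, 162, 150, 136, 0] [20, 6, 0, 0, 0, 0] 100000 30000 30000 1500000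
    40000 0 80000 50000 0 10000 20000) (.L 5 8 [4, 4, 5, 5, 22] [201, 200, 199, 195, 186, 174] [20,
    6, 0, 0, 0, 0] 100000 66667 0 1100000 33333 0 166667 0 0 0 0)) (.E 2))) (.S 3 2 (.S 4 8 (.S 4 4
    (.L 5 8 [4, 4, 5, 5, 22] [186, 174, 162, 150, 136, 0] [40, 28, 14, 0, 0, 0] 100000 26667 26667
    1480000 40000 0 80000 40000 0 20000 20000) (.L 5 8 [4, 4, 5, 5, 22] [201, 200, 199, 195, 186,
    174] [40, 28, 14, 0, 0, 0] 100000 114286 0 814285 42857 0 214286 0 0 0 0)) (.E 2)) (.S 4 8 (.S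
    4 4 (.L 5 8 [4, 4, 5, 5, 22] [186, 174, 162, 150, 136, 0] [58, 50, 38, 24, 0, 0] 100000 150000
    150000 1100000 100000 0 100000 0 0 0 0) (.L 5 8 [4, 4, 5, 5, 22] [201, 200, 199, 195, 186, 174]
    [58, 50, 38, 24, 0, 0] 100000 239286 0 0 67857 0 339286 0 0 0 0)) (.E 2)))) (.E 1)) (.E 1)) (.S
    3 5 (.S 3 2 (.S 3 1 (.L 5 8 [4, 4, 5, 5, 22] [201, 200, 199, 195, 186, 174] [] 100000 41380
    41379 1458618 44828 0 72414 0 0 44828 13793) (.L 6 9 [4, 4, 4, 4, 22] [201, 200, 199, 195, 186,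
    174] [44, 32, 18, 0, 0, 0] 100000 150000 150000 1100000 100000 0 100000 0 0 0 0)) (.E 1)) (.E
    1))

lemma s22_22_9_4_26 {n : ℕ} (hn : 5 ≤ n) : NoNd (d22_22_9_4.R : ℤ) d22_22_9_4.H n d22_22_9_4.a d22_22_9_4.b
    (BlkD.inB (BlkD.upd (BlkD.upd (BlkD.upd (BlkD.upd (BlkD.upd (fun _ => 0) 0 5) 1 5) 1 7) 1 8) 2 3)
      (BlkD.upd (BlkD.upd (BlkD.upd (BlkD.upd (BlkD.upd (BlkD.upd (BlkD.upd (fun _ => 22) 0 9) 2 4) 0 7) 0 6) 0 5) 1 17) 1 8)) :=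
  BlkD.tree_sound (BlkD.pairOk_sound k22_22_9_4) (by decide) hn t22_22_9_4_26 _ _ (by decide +kernel)

/-- certificates of the pair `(9, 4)`, part 27 -/
def t22_22_9_4_27 : BlkD.Tr :=
  .S 1 10 (.S 1 9 (.S 2 2 (.S 2 1 (.L 6 9 [4, 4, 4, 4, 22] [228, 227, 226, 225, 221, 212] [] 100000
    51613 51613 1432259 48387 30645 83871 46774 0 1613 8065) (.S 3 6 (.S 3 3 (.S 3 1 (.L 6 9 [4, 4,
    4, 4, 22] [228, 227, 226, 225, 221, 212] [] 100000 33334 33334 1469230 46154 0 69231 23077 0 0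
    15385) (.S 3 2 (.S 4 9 (.S 4 4 (.L 6 9 [4, 4, 4, 4, 22] [212, 200, 188, 176, 162, 0] [36, 24,
    10, 0, 0, 0] 100000 52632 52632 1421052 63158 0 100000 36842 0 10526 15789) (.L 6 9 [4, 4, 4,
    4, 22] [228, 227, 226, 225, 221, 212] [36, 24, 10, 0, 0, 0] 100000 33333 0 1300002 33333 0
    133333 16667 0 33333 16667)) (.E 2)) (.S 4 9 (.S 4 4 (.L 6 9 [4, 4, 4, 4, 22] [212, 200, 188,
    176, 162, 0] [52, 44, 32, 18, 0, 0] 100000 53333 53332 1400000 60000 0 100000 60000 0 0 20000)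
    (.L 6 9 [4, 4, 4, 4, 22] [228, 227, 226, 225, 221, 212] [52, 44, 32, 18, 0, 0] 100000 100000 0
    900000 50000 0 200000 50000 0 0 0)) (.E 2)))) (.L 6 9 [4, 4, 4, 4, 22] [228, 227, 226, 225,
    221, 212] [] 100000 44445 44444 1444443 55556 0 83333 27778 0 27778 0)) (.E 1))) (.L 6 9 [4, 4,
    4, 4, 22] [228, 227, 226, 225, 221, 212] [] 100000 40000 40000 1470000 50000 0 90000 30000 0
    20000 5000)) (.L 5 8 [4, 4, 5, 5, 22] [257, 256, 255, 254, 253, 249] [] 100000 48572 48571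
    1442856 51429 0 100000 25714 0 8571 8571)) (.L 5 8 [4, 4, 5, 5, 22] [288, 287, 286, 285, 284,
    283] [] 100000 66667 66666 1333332 66667 0 100000 33333 0 0 0)

lemma s22_22_9_4_27 {n : ℕ} (hn : 5 ≤ n) : NoNd (d22_22_9_4.R : ℤ) d22_22_9_4.H n d22_22_9_4.a d22_22_9_4.b
    (BlkD.inB (BlkD.upd (BlkD.upd (fun _ => 0) 0 5) 1 9)
      (BlkD.upd (BlkD.upd (BlkD.upd (BlkD.upd (BlkD.upd (BlkD.upd (BlkD.upd (BlkD.upd (fun _ => 22) 0 9) 2 4) 0 7) 0 6) 0 5) 1 17) 1 13) 1 11)) :=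
  BlkD.tree_sound (BlkD.pairOk_sound k22_22_9_4) (by decide) hn t22_22_9_4_27 _ _ (by decide +kernel)

/-- certificates of the pair `(9, 4)`, part 28 -/
def t22_22_9_4_28 : BlkD.Tr :=
  .S 1 12 (.L 5 8 [4, 4, 5, 5, 22] [321, 320, 319, 318, 317, 316] [] 100000 166667 0 500001 133333
    0 266667 0 0 0 0) (.L 5 8 [4, 4, 5, 5, 22] [356, 355, 354, 353, 352, 351] [] 100000 166667 0 0
    133333 0 266667 0 0 0 0)

lemma s22_22_9_4_28 {n : ℕ} (hn : 5 ≤ n) : NoNd (d22_22_9_4.R : ℤ) d22_22_9_4.H n d22_22_9_4.a d22_22_9_4.b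
    (BlkD.inB (BlkD.upd (BlkD.upd (BlkD.upd (fun _ => 0) 0 5) 1 9) 1 12)
      (BlkD.upd (BlkD.upd (BlkD.upd (BlkD.upd (BlkD.upd (BlkD.upd (BlkD.upd (fun _ => 22) 0 9) 2 4) 0 7) 0 6) 0 5) 1 17) 1 13)) :=
  BlkD.tree_sound (BlkD.pairOk_sound k22_22_9_4) (by decide) hn t22_22_9_4_28 _ _ (by decide +kernel)

/-- certificates of the pair `(9, 4)`, part 29 -/
def t22_22_9_4_29 : BlkD.Tr :=
  .E 0

lemma s22_22_9_4_29 {n : ℕ} (hn : 5 ≤ n) : NoNd (d22_22_9_4.R : ℤ) d22_22_9_4.H n d22_22_9_4.a d22_22_9_4.b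
    (BlkD.inB (BlkD.upd (BlkD.upd (BlkD.upd (fun _ => 0) 0 5) 1 9) 1 14)
      (BlkD.upd (BlkD.upd (BlkD.upd (BlkD.upd (BlkD.upd (BlkD.upd (fun _ => 22) 0 9) 2 4) 0 7) 0 6) 0 5) 1 17)) :=
  BlkD.tree_sound (BlkD.pairOk_sound k22_22_9_4) (by decide) hn t22_22_9_4_29 _ _ (by decide +kernel)

/-- certificates of the pair `(9, 4)`, part 30 -/
def t22_22_9_4_30 : BlkD.Tr :=
  .E 0

lemma s22_22_9_4_30 {n : ℕ} (hn : 5 ≤ n) : NoNd (d22_22_9_4.R : ℤ) d22_22_9_4.H n d22_22_9_4.a d22_22_9_4.b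
    (BlkD.inB (BlkD.upd (BlkD.upd (fun _ => 0) 0 5) 1 18)
      (BlkD.upd (BlkD.upd (BlkD.upd (BlkD.upd (BlkD.upd (fun _ => 22) 0 9) 2 4) 0 7) 0 6) 0 5)) :=
  BlkD.tree_sound (BlkD.pairOk_sound k22_22_9_4) (by decide) hn t22_22_9_4_30 _ _ (by decide +kernel)

/-- certificates of the pair `(9, 4)`, part 31 -/
def t22_22_9_4_31 : BlkD.Tr :=
  .L 5 8 [4, 4, 5, 5, 22] [] [] 100000 20833 20832 1525000 25000 0 25000 62500 0 37500 37500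

lemma s22_22_9_4_31 {n : ℕ} (hn : 5 ≤ n) : NoNd (d22_22_9_4.R : ℤ) d22_22_9_4.H n d22_22_9_4.a d22_22_9_4.b
    (BlkD.inB (BlkD.upd (BlkD.upd (fun _ => 0) 0 5) 0 6)
      (BlkD.upd (BlkD.upd (BlkD.upd (BlkD.upd (BlkD.upd (BlkD.upd (BlkD.upd (fun _ => 22) 0 9) 2 4) 0 7) 0 6) 1 16) 1 8) 1 4)) :=
  BlkD.tree_sound (BlkD.pairOk_sound k22_22_9_4) (by decide) hn t22_22_9_4_31 _ _ (by decide +kernel)

/-- certificates of the pair `(9, 4)`, part 32 -/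
def t22_22_9_4_32 : BlkD.Tr :=
  .S 2 2 (.S 2 1 (.S 2 0 (.L 5 8 [4, 4, 5, 5, 22] [139, 130, 118, 106, 94, 80] [] 100000 33333
    33332 1375000 25000 0 37500 75000 0 0 0) (.S 3 10 (.S 3 5 (.S 3 2 (.L 5 8 [4, 4, 5, 5, 22]
    [139, 130, 118, 106, 94, 80] [] 100000 33333 33332 1400000 0 0 0 0 0 0 0) (.S 3 4 (.L 6 9 [4,
    4, 4, 4, 22] [139, 130, 118, 106, 94, 80] [] 100000 33333 33332 1473685 31579 31579 47368 39474
    0 0 5263) (.S 4 5 (.S 4 2 (.L 6 9 [4, 4, 4, 4, 22] [106, 94, 80, 0, 0, 0] [76, 72, 64, 56, 44,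
    30] 100000 25001 25001 1489284 39286 14286 64286 39286 0 25000 25000) (.L 6 9 [4, 4, 4, 4, 22]
    [139, 130, 118, 106, 94, 80] [76, 72, 64, 56, 44, 30] 100000 42857 0 1242858 28571 0 142857
    57143 0 0 7143)) (.E 2)))) (.L 6 9 [4, 4, 4, 4, 22] [139, 130, 118, 106, 94, 80] [] 100000
    57143 57143 1328572 42857 0 100000 100000 0 0 0)) (.E 1))) (.S 3 9 (.S 3 4 (.S 3 2 (.L 6 9 [4,
    4, 4, 4, 22] [139, 130, 118, 106, 94, 80] [] 100000 33333 33332 1471429 28571 28571 28571 28571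
    0 0 0) (.S 3 3 (.S 4 5 (.S 4 2 (.L 6 9 [4, 4, 4, 4, 22] [106, 94, 80, 0, 0, 0] [52, 44, 32, 18,
    0, 0] 100000 25000 25000 1503572 40476 7738 60714 32143 0 25000 25000) (.L 6 9 [4, 4, 4, 4, 22]
    [139, 130, 118, 106, 94, 80] [52, 44, 32, 18, 0, 0] 100000 27273 0 1336363 9091 9091 127273
    9091 0 18182 13636)) (.E 2)) (.S 4 5 (.S 4 2 (.L 6 9 [4, 4, 4, 4, 22] [106, 94, 80, 0, 0, 0]
    [70, 62, 54, 42, 28, 0] 100000 25001 25001 1491666 41667 0 62500 41667 0 25000 25000) (.L 6 9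
    [4, 4, 4, 4, 22] [139, 130, 118, 106, 94, 80] [70, 62, 54, 42, 28, 0] 100000 42857 0 1242858
    28571 0 142857 57143 0 0 7143)) (.E 2)))) (.E 1)) (.E 1))) (.S 2 3 (.S 3 8 (.S 3 4 (.S 3 2 (.L
    6 9 [4, 4, 4, 4, 22] [139, 130, 118, 106, 94, 80] [] 100000 25926 25926 1500001 33333 0 50000
    33333 0 33333 22222) (.S 3 3 (.S 4 5 (.S 4 2 (.L 6 9 [4, 4, 4, 4, 22] [106, 94, 80, 0, 0, 0]
    [58, 50, 38, 24, 0, 0] 100000 25001 25001 1491665 41667 0 41667 41667 0 25000 25000) (.L 6 9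
    [4, 4, 4, 4, 22] [139, 130, 118, 106, 94, 80] [58, 50, 38, 24, 0, 0] 100000 60000 0 1140000
    40000 0 160000 40000 0 0 0)) (.E 2)) (.E 1))) (.E 1)) (.E 1)) (.L 6 9 [4, 4, 4, 4, 22] [139,
    130, 118, 106, 94, 80] [] 100000 26667 26667 1500000 40000 0 40000 0 0 60000 20000))

lemma s22_22_9_4_32 {n : ℕ} (hn : 5 ≤ n) : NoNd (d22_22_9_4.R : ℤ) d22_22_9_4.H n d22_22_9_4.a d22_22_9_4.b
    (BlkD.inB (BlkD.upd (BlkD.upd (BlkD.upd (fun _ => 0) 0 5) 0 6) 1 5)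
      (BlkD.upd (BlkD.upd (BlkD.upd (BlkD.upd (BlkD.upd (BlkD.upd (BlkD.upd (BlkD.upd (fun _ => 22) 0 9) 2 4) 0 7) 0 6) 1 16) 1 8) 1 6) 1 5)) :=
  BlkD.tree_sound (BlkD.pairOk_sound k22_22_9_4) (by decide) hn t22_22_9_4_32 _ _ (by decide +kernel)

/-- certificates of the pair `(9, 4)`, part 33 -/
def t22_22_9_4_33 : BlkD.Tr :=
  .S 2 1 (.S 2 0 (.L 6 9 [4, 4, 4, 4, 22] [165, 161, 152, 140, 128, 116] [] 100000 33333 33332
    1371430 28571 0 71429 85714 0 0 0) (.S 3 9 (.S 3 4 (.S 3 2 (.L 6 9 [4, 4, 4, 4, 22] [165, 161,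
    152, 140, 128, 116] [] 100000 33333 33332 1442858 28571 28571 57143 57143 0 0 0) (.S 3 3 (.L 6
    9 [4, 4, 4, 4, 22] [165, 161, 152, 140, 128, 116] [46, 38, 26, 12, 0, 0] 100000 33333 33332
    1476924 30769 30769 61538 46154 0 0 15385) (.S 4 6 (.S 4 3 (.L 6 9 [4, 4, 4, 4, 22] [140, 128,
    116, 102, 0, 0] [62, 54, 46, 34, 20, 0] 100000 33333 33332 1475000 37500 37500 75000 37500 0 0
    12500) (.L 6 9 [4, 4, 4, 4, 22] [165, 161, 152, 140, 128, 116] [62, 54, 46, 34, 20, 0] 100000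
    45455 0 1227271 18182 18182 145455 48485 0 0 4545)) (.E 2)))) (.S 3 7 (.S 3 6 (.S 3 5 (.S 4 6
    (.S 4 3 (.S 4 1 (.L 6 9 [4, 4, 4, 4, 22] [116, 102, 0, 0, 0, 0] [76, 72, 64, 56, 44, 30] 100000
    47370 47370 1405261 52632 26316 78947 52632 0 0 0) (.L 6 9 [4, 4, 4, 4, 22] [140, 128, 116,
    102, 0, 0] [76, 72, 64, 56, 44, 30] 100000 24114 24114 1476596 38298 0 85106 42553 0 12766
    6383)) (.L 6 9 [4, 4, 4, 4, 22] [165, 161, 152, 140, 128, 116] [76, 72, 64, 56, 44, 30] 100000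
    107693 1 853846 38462 38462 207692 123077 0 0 0)) (.E 2)) (.L 6 9 [4, 4, 4, 4, 22] [165, 161,
    152, 140, 128, 116] [90, 88, 84, 76, 68, 56] 100000 32500 32500 1405000 7500 65000 100000
    100000 0 0 2500)) (.E 1)) (.E 1))) (.E 1))) (.S 3 8 (.S 3 4 (.S 3 2 (.S 3 1 (.L 6 9 [4, 4, 4,
    4, 22] [165, 161, 152, 140, 128, 116] [] 100000 33333 33332 1466667 33333 33333 33333 33333 0 0
    16667) (.S 4 6 (.S 4 3 (.L 5 8 [4, 4, 5, 5, 22] [140, 128, 116, 102, 0, 0] [36, 24, 10, 0, 0,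
    0] 100000 23976 23975 1526319 38596 0 77193 35088 3509 21053 21053) (.L 5 8 [4, 4, 5, 5, 22]
    [165, 161, 152, 140, 128, 116] [36, 24, 10, 0, 0, 0] 100000 25000 0 1350000 0 0 125000 0 0
    25000 12500)) (.E 2))) (.S 3 3 (.S 4 6 (.S 4 3 (.S 4 1 (.L 5 8 [4, 4, 5, 5, 22] [116, 102, 0,
    0, 0, 0] [52, 44, 32, 18, 0, 0] 100000 26786 26786 1501788 41071 16964 67857 33929 0 19643
    19643) (.L 5 8 [4, 4, 5, 5, 22] [140, 128, 116, 102, 0, 0] [52, 44, 32, 18, 0, 0] 100000 26087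
    26087 1463045 39130 0 80435 39130 0 21739 21739)) (.L 5 8 [4, 4, 5, 5, 22] [165, 161, 152, 140,
    128, 116] [52, 44, 32, 18, 0, 0] 100000 40000 0 1260000 20000 0 140000 10000 0 0 10000)) (.E
    2)) (.S 4 6 (.S 4 3 (.S 4 1 (.L 5 8 [4, 4, 5, 5, 22] [116, 102, 0, 0, 0, 0] [70, 62, 54, 42,
    28, 0] 100000 21428 21427 1507144 42857 0 78571 42857 0 14286 14286) (.L 5 8 [4, 4, 5, 5, 22]
    [140, 128, 116, 102, 0, 0] [70, 62, 54, 42, 28, 0] 100000 17544 17543 1505263 31579 0 84211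
    42105 0 31579 15789)) (.L 5 8 [4, 4, 5, 5, 22] [165, 161, 152, 140, 128, 116] [70, 62, 54, 42,
    28, 0] 100000 71430 1 1071427 21429 0 171429 85714 0 0 0)) (.E 2)))) (.E 1)) (.E 1))

lemma s22_22_9_4_33 {n : ℕ} (hn : 5 ≤ n) : NoNd (d22_22_9_4.R : ℤ) d22_22_9_4.H n d22_22_9_4.a d22_22_9_4.b
    (BlkD.inB (BlkD.upd (BlkD.upd (BlkD.upd (BlkD.upd (fun _ => 0) 0 5) 0 6) 1 5) 1 6)
      (BlkD.upd (BlkD.upd (BlkD.upd (BlkD.upd (BlkD.upd (BlkD.upd (BlkD.upd (BlkD.upd (fun _ => 22) 0 9) 2 4) 0 7) 0 6) 1 16) 1 8) 1 6) 2 2)) :=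
  BlkD.tree_sound (BlkD.pairOk_sound k22_22_9_4) (by decide) hn t22_22_9_4_33 _ _ (by decide +kernel)

/-- certificates of the pair `(9, 4)`, part 34 -/
def t22_22_9_4_34 : BlkD.Tr :=
  .S 2 3 (.S 3 7 (.S 3 3 (.S 3 1 (.S 3 0 (.L 5 8 [4, 4, 5, 5, 22] [165, 161, 152, 140, 128, 116]
    [0, 0, 0, 0, 0, 0] 100000 33333 33332 1466667 33333 0 33333 0 0 0 0) (.S 4 6 (.S 4 3 (.L 5 8
    [4, 4, 5, 5, 22] [140, 128, 116, 102, 0, 0] [20, 6, 0, 0, 0, 0] 100000 21739 21739 1519567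
    35507 13768 66667 39855 4348 26087 26087) (.L 5 8 [4, 4, 5, 5, 22] [165, 161, 152, 140, 128,
    116] [20, 6, 0, 0, 0, 0] 100000 35000 0 1290000 20000 0 135000 0 0 10000 10000)) (.E 2))) (.S 3
    2 (.S 4 6 (.S 4 3 (.L 5 8 [4, 4, 5, 5, 22] [140, 128, 116, 102, 0, 0] [40, 28, 14, 0, 0, 0]
    100000 26087 26087 1504350 39130 0 58696 39130 0 21739 21739) (.L 5 8 [4, 4, 5, 5, 22] [165,
    161, 152, 140, 128, 116] [40, 28, 14, 0, 0, 0] 100000 50000 0 1200000 25000 0 150000 0 0 0 0))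
    (.E 2)) (.S 4 6 (.S 4 3 (.S 4 1 (.L 5 8 [4, 4, 5, 5, 22] [116, 102, 0, 0, 0, 0] [58, 50, 38,
    24, 0, 0] 100000 17647 17646 1499999 47059 0 64706 17647 0 47059 17647) (.L 5 8 [4, 4, 5, 5,
    22] [140, 128, 116, 102, 0, 0] [58, 50, 38, 24, 0, 0] 100000 41177 41177 1411764 47059 0 100000
    0 0 29412 17647)) (.L 5 8 [4, 4, 5, 5, 22] [165, 161, 152, 140, 128, 116] [58, 50, 38, 24, 0,
    0] 100000 100000 0 900000 50000 0 200000 0 0 0 0)) (.E 2)))) (.E 1)) (.E 1)) (.S 3 6 (.S 3 3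
    (.S 3 1 (.L 5 8 [4, 4, 5, 5, 22] [165, 161, 152, 140, 128, 116] [] 100000 23189 23188 1526086
    34783 0 56522 0 4348 39130 21739) (.S 3 2 (.S 4 6 (.S 4 3 (.L 5 8 [4, 4, 5, 5, 22] [140, 128,
    116, 102, 0, 0] [44, 32, 18, 0, 0, 0] 100000 20000 20000 1520000 40000 0 80000 0 0 40000 20000)
    (.L 5 8 [4, 4, 5, 5, 22] [165, 161, 152, 140, 128, 116] [44, 32, 18, 0, 0, 0] 100000 100000 0
    900000 50000 0 200000 0 0 0 0)) (.E 2)) (.E 1))) (.E 1)) (.E 1))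

lemma s22_22_9_4_34 {n : ℕ} (hn : 5 ≤ n) : NoNd (d22_22_9_4.R : ℤ) d22_22_9_4.H n d22_22_9_4.a d22_22_9_4.b
    (BlkD.inB (BlkD.upd (BlkD.upd (BlkD.upd (BlkD.upd (BlkD.upd (fun _ => 0) 0 5) 0 6) 1 5) 1 6) 2 3)
      (BlkD.upd (BlkD.upd (BlkD.upd (BlkD.upd (BlkD.upd (BlkD.upd (BlkD.upd (fun _ => 22) 0 9) 2 4) 0 7) 0 6) 1 16) 1 8) 1 6)) :=
  BlkD.tree_sound (BlkD.pairOk_sound k22_22_9_4) (by decide) hn t22_22_9_4_34 _ _ (by decide +kernel)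

/-- certificates of the pair `(9, 4)`, part 35 -/
def t22_22_9_4_35 : BlkD.Tr :=
  .S 2 1 (.S 2 0 (.L 5 8 [4, 4, 5, 5, 22] [190, 189, 185, 176, 164, 152] [] 100000 33333 33332
    1400001 33333 0 66667 66667 0 0 0) (.S 3 8 (.S 3 4 (.S 3 2 (.L 6 9 [4, 4, 4, 4, 22] [190, 189,
    185, 176, 164, 152] [] 100000 33333 33332 1458824 35294 35294 70588 35294 0 0 17647) (.S 3 3
    (.L 6 9 [4, 4, 4, 4, 22] [190, 189, 185, 176, 164, 152] [46, 38, 26, 12, 0, 0] 100000 33333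
    33332 1485716 35714 42857 64286 42857 0 0 14286) (.S 4 7 (.S 4 3 (.L 6 9 [4, 4, 4, 4, 22] [164,
    152, 140, 126, 0, 0] [62, 54, 46, 34, 20, 0] 100000 50000 50000 1400000 50000 50000 100000
    50000 0 0 0) (.L 6 9 [4, 4, 4, 4, 22] [190, 189, 185, 176, 164, 152] [62, 54, 46, 34, 20, 0]
    100000 24325 2703 1362161 18919 16216 121622 45946 0 27027 13514)) (.E 2)))) (.L 6 9 [4, 4, 4,
    4, 22] [190, 189, 185, 176, 164, 152] [] 100000 50000 50000 1442858 42857 21429 100000 42857 0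
    28571 14286)) (.E 1))) (.S 3 7 (.S 3 3 (.S 3 1 (.L 6 9 [4, 4, 4, 4, 22] [190, 189, 185, 176,
    164, 152] [] 100000 33333 33332 1480000 40000 0 80000 40000 0 0 20000) (.S 3 2 (.S 4 7 (.S 4 3
    (.L 6 9 [4, 4, 4, 4, 22] [164, 152, 140, 126, 0, 0] [36, 24, 10, 0, 0, 0] 100000 28479 28478
    1513593 49515 0 98058 30097 1942 10680 10680) (.L 6 9 [4, 4, 4, 4, 22] [190, 189, 185, 176,
    164, 152] [36, 24, 10, 0, 0, 0] 100000 25926 25926 1433334 33333 0 100000 16667 0 33333 22222))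
    (.E 2)) (.S 4 7 (.S 4 3 (.L 6 9 [4, 4, 4, 4, 22] [164, 152, 140, 126, 0, 0] [52, 44, 32, 18, 0,
    0] 100000 31580 31580 1484210 52632 0 100000 31579 0 15789 5263) (.L 6 9 [4, 4, 4, 4, 22] [190,
    189, 185, 176, 164, 152] [52, 44, 32, 18, 0, 0] 100000 25000 0 1350000 25000 0 125000 25000 0
    25000 25000)) (.E 2)))) (.S 3 5 (.S 3 4 (.S 4 7 (.S 4 3 (.L 6 9 [4, 4, 4, 4, 22] [164, 152,
    140, 126, 0, 0] [70, 62, 54, 42, 28, 0] 100000 33333 33332 1450000 50000 0 100000 50000 0 0 0)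
    (.L 6 9 [4, 4, 4, 4, 22] [190, 189, 185, 176, 164, 152] [70, 62, 54, 42, 28, 0] 100000 42857 0
    1242859 28571 0 142857 71429 0 28571 0)) (.E 2)) (.E 1)) (.E 1))) (.E 1))

lemma s22_22_9_4_35 {n : ℕ} (hn : 5 ≤ n) : NoNd (d22_22_9_4.R : ℤ) d22_22_9_4.H n d22_22_9_4.a d22_22_9_4.b
    (BlkD.inB (BlkD.upd (BlkD.upd (BlkD.upd (BlkD.upd (fun _ => 0) 0 5) 0 6) 1 5) 1 7)
      (BlkD.upd (BlkD.upd (BlkD.upd (BlkD.upd (BlkD.upd (BlkD.upd (BlkD.upd (BlkD.upd (fun _ => 22) 0 9) 2 4) 0 7) 0 6) 1 16) 1 8) 1 7) 2 2)) :=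
  BlkD.tree_sound (BlkD.pairOk_sound k22_22_9_4) (by decide) hn t22_22_9_4_35 _ _ (by decide +kernel)

/-- certificates of the pair `(9, 4)`, part 36 -/
def t22_22_9_4_36 : BlkD.Tr :=
  .S 2 3 (.S 3 6 (.S 3 3 (.S 3 1 (.S 3 0 (.L 6 9 [4, 4, 4, 4, 22] [190, 189, 185, 176, 164, 152]
    [0, 0, 0, 0, 0, 0] 100000 33333 33332 1480000 40000 0 80000 0 0 0 20000) (.S 4 7 (.S 4 3 (.L 6
    9 [4, 4, 4, 4, 22] [164, 152, 140, 126, 0, 0] [20, 6, 0, 0, 0, 0] 100000 26984 26984 1485715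
    42857 42857 85714 61905 0 19048 19048) (.L 6 9 [4, 4, 4, 4, 22] [190, 189, 185, 176, 164, 152]
    [20, 6, 0, 0, 0, 0] 100000 21213 3031 1381817 27273 0 118182 0 0 45455 18182)) (.E 2))) (.S 3 2
    (.S 4 7 (.S 4 3 (.L 6 9 [4, 4, 4, 4, 22] [164, 152, 140, 126, 0, 0] [40, 28, 14, 0, 0, 0]
    100000 33333 33332 1450000 50000 0 100000 50000 0 0 0) (.L 6 9 [4, 4, 4, 4, 22] [190, 189, 185,
    176, 164, 152] [40, 28, 14, 0, 0, 0] 100000 33333 0 1300002 33333 0 133333 0 0 50000 16667))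
    (.E 2)) (.L 6 9 [4, 4, 4, 4, 22] [190, 189, 185, 176, 164, 152] [58, 50, 38, 24, 0, 0] 100000
    29411 29410 1500002 41176 0 97059 0 0 55882 14706))) (.E 1)) (.E 1)) (.L 6 9 [4, 4, 4, 4, 22]
    [190, 189, 185, 176, 164, 152] [] 100000 29411 29410 1500002 41176 0 97059 0 0 55882 14706)

lemma s22_22_9_4_36 {n : ℕ} (hn : 5 ≤ n) : NoNd (d22_22_9_4.R : ℤ) d22_22_9_4.H n d22_22_9_4.a d22_22_9_4.b
    (BlkD.inB (BlkD.upd (BlkD.upd (BlkD.upd (BlkD.upd (BlkD.upd (fun _ => 0) 0 5) 0 6) 1 5) 1 7) 2 3)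
      (BlkD.upd (BlkD.upd (BlkD.upd (BlkD.upd (BlkD.upd (BlkD.upd (BlkD.upd (fun _ => 22) 0 9) 2 4) 0 7) 0 6) 1 16) 1 8) 1 7)) :=
  BlkD.tree_sound (BlkD.pairOk_sound k22_22_9_4) (by decide) hn t22_22_9_4_36 _ _ (by decide +kernel)

/-- certificates of the pair `(9, 4)`, part 37 -/
def t22_22_9_4_37 : BlkD.Tr :=
  .S 2 2 (.S 2 1 (.S 2 0 (.L 6 9 [4, 4, 4, 4, 22] [217, 216, 215, 211, 202, 190] [] 100000 33334
    33334 1359091 40909 0 86364 59091 0 0 4545) (.S 3 7 (.S 3 3 (.L 6 9 [4, 4, 4, 4, 22] [217, 216,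
    215, 211, 202, 190] [] 100000 33334 33334 1481818 36364 36364 72727 63636 0 0 9091) (.L 6 8 [4,
    4, 4, 5, 22] [217, 216, 215, 211, 202, 190] [] 100000 77778 77778 1350000 50000 50000 100000
    75000 0 0 8333)) (.E 1))) (.S 3 6 (.S 3 3 (.S 3 1 (.L 5 8 [4, 4, 5, 5, 22] [217, 216, 215, 211,
    202, 190] [] 100000 29088 29088 1511322 39151 1415 79717 19811 1415 9906 20283) (.S 3 2 (.S 4 8
    (.S 4 4 (.L 5 8 [4, 4, 5, 5, 22] [202, 190, 178, 166, 152, 0] [36, 24, 10, 0, 0, 0] 100000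
    32258 32258 1470969 46774 0 95161 48387 0 3226 17742) (.L 5 8 [4, 4, 5, 5, 22] [217, 216, 215,
    211, 202, 190] [36, 24, 10, 0, 0, 0] 100000 25000 0 1350000 25000 0 125000 25000 0 25000
    25000)) (.E 2)) (.S 4 8 (.S 4 4 (.L 5 8 [4, 4, 5, 5, 22] [202, 190, 178, 166, 152, 0] [52, 44,
    32, 18, 0, 0] 100000 28973 28973 1461680 47664 0 100000 31776 0 31776 12150) (.L 5 8 [4, 4, 5,
    5, 22] [217, 216, 215, 211, 202, 190] [52, 44, 32, 18, 0, 0] 100000 50000 0 1200001 33333 0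
    150000 16667 0 0 0)) (.E 2)))) (.L 6 9 [4, 4, 4, 4, 22] [217, 216, 215, 211, 202, 190] []
    100000 66667 66666 1366666 66667 0 100000 33333 0 0 0)) (.E 1))) (.S 2 3 (.S 3 5 (.S 3 2 (.S 3
    1 (.L 6 9 [4, 4, 4, 4, 22] [217, 216, 215, 211, 202, 190] [] 100000 30001 30001 1505713 41429 0
    87143 45714 2857 8571 4286) (.L 6 9 [4, 4, 4, 4, 22] [217, 216, 215, 211, 202, 190] [40, 28,
    14, 0, 0, 0] 100000 29629 29628 1500002 33333 0 100000 50000 0 11111 5556)) (.L 6 9 [4, 4, 4,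
    4, 22] [217, 216, 215, 211, 202, 190] [] 100000 60000 60000 1371430 65714 0 100000 0 0 17143
    8571)) (.E 1)) (.L 6 9 [4, 4, 4, 4, 22] [217, 216, 215, 211, 202, 190] [] 100000 41667 41667
    1450000 50000 0 100000 0 0 25000 12500))

lemma s22_22_9_4_37 {n : ℕ} (hn : 5 ≤ n) : NoNd (d22_22_9_4.R : ℤ) d22_22_9_4.H n d22_22_9_4.a d22_22_9_4.b
    (BlkD.inB (BlkD.upd (BlkD.upd (BlkD.upd (BlkD.upd (BlkD.upd (fun _ => 0) 0 5) 0 6) 1 5) 1 7) 1 8)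
      (BlkD.upd (BlkD.upd (BlkD.upd (BlkD.upd (BlkD.upd (BlkD.upd (fun _ => 22) 0 9) 2 4) 0 7) 0 6) 1 16) 1 8)) :=
  BlkD.tree_sound (BlkD.pairOk_sound k22_22_9_4) (by decide) hn t22_22_9_4_37 _ _ (by decide +kernel)

/-- certificates of the pair `(9, 4)`, part 38 -/
def t22_22_9_4_38 : BlkD.Tr :=
  .S 1 12 (.S 1 10 (.S 1 9 (.L 6 9 [4, 4, 4, 4, 22] [246, 245, 244, 243, 239, 230] [] 100000 30556
    30556 1450000 50000 0 100000 29167 0 8333 8333) (.L 6 9 [4, 4, 4, 4, 22] [277, 276, 275, 274,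
    273, 269] [] 100000 50001 50001 1354544 68182 2273 100000 36364 0 4545 13636)) (.L 6 9 [4, 4,
    4, 4, 22] [] [] 100000 233333 0 2 0 0 333333 0 0 0 0)) (.E 0)

lemma s22_22_9_4_38 {n : ℕ} (hn : 5 ≤ n) : NoNd (d22_22_9_4.R : ℤ) d22_22_9_4.H n d22_22_9_4.a d22_22_9_4.b
    (BlkD.inB (BlkD.upd (BlkD.upd (BlkD.upd (fun _ => 0) 0 5) 0 6) 1 9)
      (BlkD.upd (BlkD.upd (BlkD.upd (BlkD.upd (BlkD.upd (fun _ => 22) 0 9) 2 4) 0 7) 0 6) 1 16)) :=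
  BlkD.tree_sound (BlkD.pairOk_sound k22_22_9_4) (by decide) hn t22_22_9_4_38 _ _ (by decide +kernel)

/-- certificates of the pair `(9, 4)`, part 39 -/
def t22_22_9_4_39 : BlkD.Tr :=
  .E 0

lemma s22_22_9_4_39 {n : ℕ} (hn : 5 ≤ n) : NoNd (d22_22_9_4.R : ℤ) d22_22_9_4.H n d22_22_9_4.a d22_22_9_4.b
    (BlkD.inB (BlkD.upd (BlkD.upd (BlkD.upd (fun _ => 0) 0 5) 0 6) 1 17)
      (BlkD.upd (BlkD.upd (BlkD.upd (BlkD.upd (fun _ => 22) 0 9) 2 4) 0 7) 0 6)) :=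
  BlkD.tree_sound (BlkD.pairOk_sound k22_22_9_4) (by decide) hn t22_22_9_4_39 _ _ (by decide +kernel)

/-- certificates of the pair `(9, 4)`, part 40 -/
def t22_22_9_4_40 : BlkD.Tr :=
  .L 6 9 [4, 4, 4, 4, 22] [] [] 100000 22222 22221 1500001 33333 0 66667 66667 0 33333 33333

lemma s22_22_9_4_40 {n : ℕ} (hn : 5 ≤ n) : NoNd (d22_22_9_4.R : ℤ) d22_22_9_4.H n d22_22_9_4.a d22_22_9_4.b
    (BlkD.inB (BlkD.upd (BlkD.upd (fun _ => 0) 0 5) 0 7)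
      (BlkD.upd (BlkD.upd (BlkD.upd (BlkD.upd (BlkD.upd (BlkD.upd (fun _ => 22) 0 9) 2 4) 0 7) 1 15) 1 7) 1 3)) :=
  BlkD.tree_sound (BlkD.pairOk_sound k22_22_9_4) (by decide) hn t22_22_9_4_40 _ _ (by decide +kernel)

/-- certificates of the pair `(9, 4)`, part 41 -/
def t22_22_9_4_41 : BlkD.Tr :=
  .S 2 2 (.S 2 1 (.S 2 0 (.L 6 9 [4, 4, 4, 4, 22] [118, 106, 94, 82, 68, 0] [] 100000 33333 33332
    1400000 0 0 0 100000 0 0 0) (.S 3 10 (.S 3 5 (.S 3 2 (.L 6 9 [4, 4, 4, 4, 22] [118, 106, 94,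
    82, 68, 0] [] 100000 33333 33332 1400000 0 0 0 0 0 0 0) (.S 3 4 (.L 6 9 [4, 4, 4, 4, 22] [118,
    106, 94, 82, 68, 0] [] 100000 33333 33332 1476924 30769 30769 61538 46154 0 0 0) (.S 4 4 (.S 4
    2 (.L 6 9 [4, 4, 4, 4, 22] [94, 82, 68, 0, 0, 0] [76, 72, 64, 56, 44, 30] 100000 46666 46665
    1433335 53333 26667 80000 53333 0 0 0) (.L 6 9 [4, 4, 4, 4, 22] [118, 106, 94, 82, 68, 0] [76,
    72, 64, 56, 44, 30] 100000 50000 0 1200000 25000 25000 150000 87500 0 0 0)) (.E 2)))) (.L 6 9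
    [4, 4, 4, 4, 22] [118, 106, 94, 82, 68, 0] [] 100000 80000 0 1020000 60000 0 150000 180000 0 0
    0)) (.E 1))) (.S 3 9 (.S 3 4 (.S 3 2 (.L 5 8 [4, 4, 5, 5, 22] [118, 106, 94, 82, 68, 0] []
    100000 33333 33332 1480000 20000 20000 20000 20000 0 0 0) (.S 3 3 (.S 4 4 (.S 4 2 (.L 5 8 [4,
    4, 5, 5, 22] [94, 82, 68, 0, 0, 0] [52, 44, 32, 18, 0, 0] 100000 22223 22223 1518519 40741 0
    44444 37037 0 33333 33333) (.L 5 8 [4, 4, 5, 5, 22] [118, 106, 94, 82, 68, 0] [52, 44, 32, 18,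
    0, 0] 100000 25000 0 1350000 25000 0 125000 0 0 25000 12500)) (.E 2)) (.S 4 4 (.S 4 2 (.L 6 9
    [4, 4, 4, 4, 22] [94, 82, 68, 0, 0, 0] [70, 62, 54, 42, 28, 0] 100000 25000 25000 1500000 50000
    0 75000 25000 0 25000 25000) (.L 6 9 [4, 4, 4, 4, 22] [118, 106, 94, 82, 68, 0] [70, 62, 54,
    42, 28, 0] 100000 33334 1 1300001 0 0 133333 66667 0 0 16667)) (.E 2)))) (.E 1)) (.E 1))) (.S 2
    3 (.S 3 8 (.S 3 4 (.S 3 2 (.L 5 8 [4, 4, 5, 5, 22] [118, 106, 94, 82, 68, 0] [] 100000 22222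
    22221 1500001 33333 0 66667 33333 0 33333 33333) (.S 3 3 (.S 4 4 (.S 4 2 (.L 6 9 [4, 4, 4, 4,
    22] [94, 82, 68, 0, 0, 0] [58, 50, 38, 24, 0, 0] 100000 32000 32000 1476000 56000 0 96000 16000
    0 28000 28000) (.L 6 9 [4, 4, 4, 4, 22] [118, 106, 94, 82, 68, 0] [58, 50, 38, 24, 0, 0] 100000
    33334 1 1300001 0 0 133333 0 0 0 16667)) (.E 2)) (.E 1))) (.E 1)) (.E 1)) (.S 3 7 (.S 3 3 (.S 3
    1 (.L 6 9 [4, 4, 4, 4, 22] [118, 106, 94, 82, 68, 0] [] 100000 22222 22221 1500001 33333 0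
    33333 0 0 33333 33333) (.S 3 2 (.S 4 4 (.S 4 2 (.L 6 9 [4, 4, 4, 4, 22] [94, 82, 68, 0, 0, 0]
    [44, 32, 18, 0, 0, 0] 100000 38461 38461 1453848 61538 0 61538 0 0 30769 30769) (.L 6 9 [4, 4,
    4, 4, 22] [118, 106, 94, 82, 68, 0] [44, 32, 18, 0, 0, 0] 100000 50000 0 1200000 50000 0 150000
    0 0 0 0)) (.E 2)) (.E 1))) (.E 1)) (.E 1)))

lemma s22_22_9_4_41 {n : ℕ} (hn : 5 ≤ n) : NoNd (d22_22_9_4.R : ℤ) d22_22_9_4.H n d22_22_9_4.a d22_22_9_4.b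
    (BlkD.inB (BlkD.upd (BlkD.upd (BlkD.upd (fun _ => 0) 0 5) 0 7) 1 4)
      (BlkD.upd (BlkD.upd (BlkD.upd (BlkD.upd (BlkD.upd (BlkD.upd (BlkD.upd (fun _ => 22) 0 9) 2 4) 0 7) 1 15) 1 7) 1 5) 1 4)) :=
  BlkD.tree_sound (BlkD.pairOk_sound k22_22_9_4) (by decide) hn t22_22_9_4_41 _ _ (by decide +kernel)

/-- certificates of the pair `(9, 4)`, part 42 -/
def t22_22_9_4_42 : BlkD.Tr :=
  .S 2 2 (.S 2 1 (.L 6 9 [4, 4, 4, 4, 22] [149, 140, 128, 116, 104, 90] [] 100000 28304 28304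
    1513163 36918 25361 69984 43820 1926 11236 11236) (.S 3 8 (.S 3 4 (.S 3 2 (.S 3 1 (.L 6 9 [4,
    4, 4, 4, 22] [149, 140, 128, 116, 104, 90] [] 100000 29033 29033 1500002 38710 38710 32258
    38710 6452 0 22581) (.S 4 5 (.S 4 2 (.L 5 8 [4, 4, 5, 5, 22] [116, 104, 90, 0, 0, 0] [36, 24,
    10, 0, 0, 0] 100000 25620 25620 1514052 42975 9091 72727 47107 4959 13223 23967) (.L 5 8 [4, 4,
    5, 5, 22] [149, 140, 128, 116, 104, 90] [36, 24, 10, 0, 0, 0] 100000 24445 24445 1460000 20000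
    20000 100000 20000 0 26667 26667)) (.E 2))) (.S 3 3 (.S 4 5 (.S 4 2 (.L 5 8 [4, 4, 5, 5, 22]
    [116, 104, 90, 0, 0, 0] [52, 44, 32, 18, 0, 0] 100000 24000 24000 1524000 46000 4000 76000
    28000 2000 24000 24000) (.L 5 8 [4, 4, 5, 5, 22] [149, 140, 128, 116, 104, 90] [52, 44, 32, 18,
    0, 0] 100000 23810 23810 1442858 28571 0 100000 28571 0 28571 28571)) (.E 2)) (.S 4 5 (.S 4 2
    (.L 5 8 [4, 4, 5, 5, 22] [116, 104, 90, 0, 0, 0] [70, 62, 54, 42, 28, 0] 100000 31819 31819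
    1481817 45455 0 90909 45455 0 0 22727) (.L 5 8 [4, 4, 5, 5, 22] [149, 140, 128, 116, 104, 90]
    [70, 62, 54, 42, 28, 0] 100000 16667 16667 1462500 18750 0 100000 50000 0 50000 25000)) (.E
    2)))) (.E 1)) (.E 1))) (.S 2 3 (.S 3 7 (.S 3 3 (.S 3 1 (.S 3 0 (.L 5 8 [4, 4, 5, 5, 22] [149,
    140, 128, 116, 104, 90] [0, 0, 0, 0, 0, 0] 100000 33333 33332 1466667 33333 0 33333 0 0 0 0)
    (.L 6 9 [4, 4, 4, 4, 22] [149, 140, 128, 116, 104, 90] [20, 6, 0, 0, 0, 0] 100000 18699 18698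
    1536586 31707 31707 68293 65854 4878 34146 34146)) (.S 3 2 (.S 4 5 (.S 4 2 (.L 6 9 [4, 4, 4, 4,
    22] [116, 104, 90, 0, 0, 0] [40, 28, 14, 0, 0, 0] 100000 18391 18391 1534487 41379 6897 75862
    41379 6897 31034 31034) (.L 6 9 [4, 4, 4, 4, 22] [149, 140, 128, 116, 104, 90] [40, 28, 14, 0,
    0, 0] 100000 26667 26667 1420000 40000 0 100000 0 0 40000 20000)) (.E 2)) (.L 6 9 [4, 4, 4, 4,
    22] [149, 140, 128, 116, 104, 90] [58, 50, 38, 24, 0, 0] 100000 14359 14359 1547693 30769 0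
    98462 30769 9231 46154 23077))) (.E 1)) (.E 1)) (.L 6 9 [4, 4, 4, 4, 22] [149, 140, 128, 116,
    104, 90] [] 100000 23703 23702 1515558 42222 0 90000 0 5556 35556 17778))

lemma s22_22_9_4_42 {n : ℕ} (hn : 5 ≤ n) : NoNd (d22_22_9_4.R : ℤ) d22_22_9_4.H n d22_22_9_4.a d22_22_9_4.b
    (BlkD.inB (BlkD.upd (BlkD.upd (BlkD.upd (BlkD.upd (fun _ => 0) 0 5) 0 7) 1 4) 1 5)
      (BlkD.upd (BlkD.upd (BlkD.upd (BlkD.upd (BlkD.upd (BlkD.upd (fun _ => 22) 0 9) 2 4) 0 7) 1 15) 1 7) 1 5)) :=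
  BlkD.tree_sound (BlkD.pairOk_sound k22_22_9_4) (by decide) hn t22_22_9_4_42 _ _ (by decide +kernel)

/-- certificates of the pair `(9, 4)`, part 43 -/
def t22_22_9_4_43 : BlkD.Tr :=
  .S 1 6 (.S 2 2 (.S 2 1 (.L 6 9 [4, 4, 4, 4, 22] [177, 173, 164, 152, 140, 128] [] 100000 34524
    34524 1489287 35714 44643 78571 51786 0 5357 7143) (.S 3 7 (.S 3 3 (.S 3 1 (.L 6 9 [4, 4, 4, 4,
    22] [177, 173, 164, 152, 140, 128] [] 100000 33333 33332 1471429 42857 0 85714 42857 0 0 7143)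
    (.S 3 2 (.S 4 6 (.S 4 3 (.L 6 9 [4, 4, 4, 4, 22] [152, 140, 128, 114, 0, 0] [36, 24, 10, 0, 0,
    0] 100000 25000 25000 1512500 37500 12500 100000 37500 0 25000 25000) (.L 6 9 [4, 4, 4, 4, 22]
    [177, 173, 164, 152, 140, 128] [36, 24, 10, 0, 0, 0] 100000 23810 23810 1442858 28571 0 100000
    28571 0 28571 28571)) (.E 2)) (.S 4 6 (.S 4 3 (.L 6 9 [4, 4, 4, 4, 22] [152, 140, 128, 114, 0,
    0] [52, 44, 32, 18, 0, 0] 100000 15385 15385 1523076 46154 0 92308 23077 0 46154 23077) (.L 6 9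
    [4, 4, 4, 4, 22] [177, 173, 164, 152, 140, 128] [52, 44, 32, 18, 0, 0] 100000 23077 23077
    1438462 30769 0 100000 30769 0 30769 15385)) (.E 2)))) (.L 6 9 [4, 4, 4, 4, 22] [177, 173, 164,
    152, 140, 128] [] 100000 9091 9090 1545454 18182 0 100000 40909 0 45455 13636)) (.E 1))) (.S 2
    3 (.S 3 6 (.S 3 3 (.S 3 1 (.L 6 9 [4, 4, 4, 4, 22] [177, 173, 164, 152, 140, 128] [] 100000
    29060 29060 1494873 35897 10256 97436 35897 0 25641 12821) (.L 6 9 [4, 4, 4, 4, 22] [177, 173,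
    164, 152, 140, 128] [] 100000 21368 21368 1530770 38462 0 84615 30769 0 20513 10256)) (.E 1))
    (.E 1)) (.L 6 9 [4, 4, 4, 4, 22] [177, 173, 164, 152, 140, 128] [] 100000 28206 28206 1484614
    38462 0 100000 0 0 30769 15385))) (.L 6 9 [4, 4, 4, 4, 22] [204, 203, 199, 190, 178, 166] []
    100000 28205 28204 1507694 46154 0 100000 30769 0 15385 15385)

lemma s22_22_9_4_43 {n : ℕ} (hn : 5 ≤ n) : NoNd (d22_22_9_4.R : ℤ) d22_22_9_4.H n d22_22_9_4.a d22_22_9_4.b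
    (BlkD.inB (BlkD.upd (BlkD.upd (BlkD.upd (BlkD.upd (fun _ => 0) 0 5) 0 7) 1 4) 1 6)
      (BlkD.upd (BlkD.upd (BlkD.upd (BlkD.upd (BlkD.upd (fun _ => 22) 0 9) 2 4) 0 7) 1 15) 1 7)) :=
  BlkD.tree_sound (BlkD.pairOk_sound k22_22_9_4) (by decide) hn t22_22_9_4_43 _ _ (by decide +kernel)

/-- certificates of the pair `(9, 4)`, part 44 -/
def t22_22_9_4_44 : BlkD.Tr :=
  .S 1 11 (.S 1 9 (.S 1 8 (.L 6 9 [4, 4, 4, 4, 22] [233, 232, 231, 227, 218, 206] [] 100000 35714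
    35713 1428572 57143 0 100000 28571 0 7143 7143) (.L 6 9 [4, 4, 4, 4, 22] [264, 263, 262, 261,
    257, 248] [] 100000 216667 0 0 0 0 316667 0 0 0 0)) (.E 0)) (.E 0)

lemma s22_22_9_4_44 {n : ℕ} (hn : 5 ≤ n) : NoNd (d22_22_9_4.R : ℤ) d22_22_9_4.H n d22_22_9_4.a d22_22_9_4.b
    (BlkD.inB (BlkD.upd (BlkD.upd (BlkD.upd (fun _ => 0) 0 5) 0 7) 1 8)
      (BlkD.upd (BlkD.upd (BlkD.upd (BlkD.upd (fun _ => 22) 0 9) 2 4) 0 7) 1 15)) :=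
  BlkD.tree_sound (BlkD.pairOk_sound k22_22_9_4) (by decide) hn t22_22_9_4_44 _ _ (by decide +kernel)

/-- certificates of the pair `(9, 4)`, part 45 -/
def t22_22_9_4_45 : BlkD.Tr :=
  .E 0

lemma s22_22_9_4_45 {n : ℕ} (hn : 5 ≤ n) : NoNd (d22_22_9_4.R : ℤ) d22_22_9_4.H n d22_22_9_4.a d22_22_9_4.b
    (BlkD.inB (BlkD.upd (BlkD.upd (BlkD.upd (fun _ => 0) 0 5) 0 7) 1 16)
      (BlkD.upd (BlkD.upd (BlkD.upd (fun _ => 22) 0 9) 2 4) 0 7)) :=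
  BlkD.tree_sound (BlkD.pairOk_sound k22_22_9_4) (by decide) hn t22_22_9_4_45 _ _ (by decide +kernel)

/-- certificates of the pair `(9, 4)`, part 46 -/
def t22_22_9_4_46 : BlkD.Tr :=
  .S 0 8 (.S 1 14 (.S 1 7 (.S 1 3 (.L 6 9 [4, 4, 4, 4, 22] [] [] 100000 26511 26511 1519300 42105
    3509 89474 40351 585 19298 19298) (.S 1 5 (.S 1 4 (.L 5 8 [4, 4, 5, 5, 22] [126, 114, 102, 90,
    76, 0] [] 100000 24580 24580 1526051 38235 2731 94748 36870 5252 15756 21744) (.L 5 8 [4, 4, 5,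
    5, 22] [159, 150, 138, 126, 114, 100] [] 100000 28342 28341 1477005 35829 0 97861 53476 2139
    10695 10695)) (.L 5 8 [4, 4, 5, 5, 22] [] [] 100000 27524 27524 1497604 12709 3631 100000 76979
    3486 13943 10458))) (.E 0)) (.E 0)) (.L 5 8 [4, 4, 5, 5, 22] [] [] 100000 0 0 1538462 0 12821
    61538 50000 38462 23077 38462)

lemma s22_22_9_4_46 {n : ℕ} (hn : 5 ≤ n) : NoNd (d22_22_9_4.R : ℤ) d22_22_9_4.H n d22_22_9_4.a d22_22_9_4.b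
    (BlkD.inB (BlkD.upd (BlkD.upd (fun _ => 0) 0 5) 0 8)
      (BlkD.upd (BlkD.upd (fun _ => 22) 0 9) 2 4)) :=
  BlkD.tree_sound (BlkD.pairOk_sound k22_22_9_4) (by decide) hn t22_22_9_4_46 _ _ (by decide +kernel)

/-- certificates of the pair `(9, 4)`, part 47 -/
def t22_22_9_4_47 : BlkD.Tr :=
  .E 1

lemma s22_22_9_4_47 {n : ℕ} (hn : 5 ≤ n) : NoNd (d22_22_9_4.R : ℤ) d22_22_9_4.H n d22_22_9_4.a d22_22_9_4.b
    (BlkD.inB (BlkD.upd (fun _ => 0) 2 5)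
      (BlkD.upd (fun _ => 22) 0 9)) :=
  BlkD.tree_sound (BlkD.pairOk_sound k22_22_9_4) (by decide) hn t22_22_9_4_47 _ _ (by decide +kernel)

/-- certificates of the pair `(9, 4)`, part 48 -/
def t22_22_9_4_48 : BlkD.Tr :=
  .E 0

lemma s22_22_9_4_48 {n : ℕ} (hn : 5 ≤ n) : NoNd (d22_22_9_4.R : ℤ) d22_22_9_4.H n d22_22_9_4.a d22_22_9_4.b
    (BlkD.inB (BlkD.upd (fun _ => 0) 0 10)
      (fun _ => 22)) :=
  BlkD.tree_sound (BlkD.pairOk_sound k22_22_9_4) (by decide) hn t22_22_9_4_48 _ _ (by decide +kernel)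

lemma pr22_22_9_4 {n : ℕ} (hn : 5 ≤ n) : NoPr ((22 : ℕ) : ℤ) ((22 : ℕ) : ℤ) n 9 4 :=
  BlkD.of_root (R := d22_22_9_4.R) (H := d22_22_9_4.H) (a := d22_22_9_4.a) (b := d22_22_9_4.b) (q := 3) (by decide) hn
    (BlkD.sp 0 9 (BlkD.sp 2 4 (BlkD.sp 0 4 (BlkD.sp 0 2 (BlkD.sp 0 1 (BlkD.sp 0 0 (s22_22_9_4_1 hn)
      (BlkD.sp 1 11 (BlkD.sp 1 5 (s22_22_9_4_2 hn) (s22_22_9_4_3 hn)) (s22_22_9_4_4 hn))) (BlkD.sp
      1 11 (BlkD.sp 1 5 (s22_22_9_4_5 hn) (BlkD.sp 1 8 (s22_22_9_4_6 hn) (s22_22_9_4_7 hn)))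
      (s22_22_9_4_8 hn))) (BlkD.sp 0 3 (BlkD.sp 1 19 (BlkD.sp 1 9 (BlkD.sp 1 4 (s22_22_9_4_9 hn)
      (s22_22_9_4_10 hn)) (BlkD.sp 1 14 (BlkD.sp 1 12 (s22_22_9_4_11 hn) (s22_22_9_4_12 hn))
      (s22_22_9_4_13 hn))) (s22_22_9_4_14 hn)) (BlkD.sp 1 18 (BlkD.sp 1 9 (BlkD.sp 1 4
      (s22_22_9_4_15 hn) (BlkD.sp 1 7 (s22_22_9_4_16 hn) (s22_22_9_4_17 hn))) (BlkD.sp 1 14
      (BlkD.sp 1 12 (s22_22_9_4_18 hn) (s22_22_9_4_19 hn)) (s22_22_9_4_20 hn))) (s22_22_9_4_21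
      hn)))) (BlkD.sp 0 7 (BlkD.sp 0 6 (BlkD.sp 0 5 (BlkD.sp 1 17 (BlkD.sp 1 8 (BlkD.sp 1 4
      (s22_22_9_4_22 hn) (BlkD.sp 1 6 (s22_22_9_4_23 hn) (BlkD.sp 1 7 (s22_22_9_4_24 hn) (BlkD.sp 2
      2 (s22_22_9_4_25 hn) (s22_22_9_4_26 hn))))) (BlkD.sp 1 13 (BlkD.sp 1 11 (s22_22_9_4_27 hn)
      (s22_22_9_4_28 hn)) (s22_22_9_4_29 hn))) (s22_22_9_4_30 hn)) (BlkD.sp 1 16 (BlkD.sp 1 8
      (BlkD.sp 1 4 (s22_22_9_4_31 hn) (BlkD.sp 1 6 (BlkD.sp 1 5 (s22_22_9_4_32 hn) (BlkD.sp 2 2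
      (s22_22_9_4_33 hn) (s22_22_9_4_34 hn))) (BlkD.sp 1 7 (BlkD.sp 2 2 (s22_22_9_4_35 hn)
      (s22_22_9_4_36 hn)) (s22_22_9_4_37 hn)))) (s22_22_9_4_38 hn)) (s22_22_9_4_39 hn))) (BlkD.sp 1
      15 (BlkD.sp 1 7 (BlkD.sp 1 3 (s22_22_9_4_40 hn) (BlkD.sp 1 5 (BlkD.sp 1 4 (s22_22_9_4_41 hn)
      (s22_22_9_4_42 hn)) (s22_22_9_4_43 hn))) (s22_22_9_4_44 hn)) (s22_22_9_4_45 hn)))
      (s22_22_9_4_46 hn))) (s22_22_9_4_47 hn)) (s22_22_9_4_48 hn))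

end BlkC

end Pool.Agent.Lib.MP_f04ccf_co
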