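import Pool.Agent.Lib.MP_f04ccf_co.M.BlkT

/-!
MP_f04ccf_co, block certificate, data `R = 22`, `H = 22`, part 16 (generated, helper99:
bd10.cpp, gen2.py).
-/

set_option autoImplicit false
set_option maxRecDepth 100000

namespace Pool.Agent.Lib.MP_f04ccf_co

namespace BlkC

/-- the numbers of the pair `(9, 6)`, `R = 22`, `H = 22` -/
def d22_22_9_6 : BlkD.Pd :=
  ⟨22, 22, 3, 9, 6, 4, 1, 4, 0, 4, 8, 0, 2, 2, 6, 0, [0, 8, 16, 16, 16], [0, 6, 12, 14, 16], [⟨1,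
    1, 1, 4, 8, [0, 4], [0, 4]⟩, ⟨1, 1, 1, 4, 14, [0, 8], [0, 6]⟩]⟩

lemma k22_22_9_6 : BlkD.pairOk d22_22_9_6 = true := by decide +kernel

/-- certificates of the pair `(9, 6)`, part 1 -/
def t22_22_9_6_1 : BlkD.Tr :=
  .L 5 6 [4, 4, 22, 22, 22, 22, 22] [] [] 100000 1 1 1733334 66667 33333 83333 66667 0 0 0

lemma s22_22_9_6_1 {n : ℕ} (hn : 5 ≤ n) : NoNd (d22_22_9_6.R : ℤ) d22_22_9_6.H n d22_22_9_6.a d22_22_9_6.b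
    (BlkD.inB (fun _ => 0)
      (BlkD.upd (BlkD.upd (BlkD.upd (BlkD.upd (BlkD.upd (BlkD.upd (fun _ => 22) 0 9) 2 6) 0 4) 0 2) 0 1) 0 0)) :=
  BlkD.tree_sound (BlkD.pairOk_sound k22_22_9_6) (by decide) hn t22_22_9_6_1 _ _ (by decide +kernel)

/-- certificates of the pair `(9, 6)`, part 2 -/
def t22_22_9_6_2 : BlkD.Tr :=
  .S 1 11 (.S 1 5 (.L 5 6 [4, 4, 22, 22, 22, 22, 22] [] [] 100000 1 1 1733334 66667 33333 83333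
    66667 0 0 0) (.L 5 6 [4, 4, 22, 22, 22, 22, 22] [] [] 100000 1 1 1733334 66667 33333 83333
    66667 0 0 0)) (.L 5 6 [4, 4, 22, 22, 22, 22, 22] [] [] 100000 1 1 1733334 66667 33333 83333
    66667 0 0 0)

lemma s22_22_9_6_2 {n : ℕ} (hn : 5 ≤ n) : NoNd (d22_22_9_6.R : ℤ) d22_22_9_6.H n d22_22_9_6.a d22_22_9_6.b
    (BlkD.inB (BlkD.upd (fun _ => 0) 0 1)
      (BlkD.upd (BlkD.upd (BlkD.upd (BlkD.upd (BlkD.upd (fun _ => 22) 0 9) 2 6) 0 4) 0 2) 0 1)) :=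
  BlkD.tree_sound (BlkD.pairOk_sound k22_22_9_6) (by decide) hn t22_22_9_6_2 _ _ (by decide +kernel)

/-- certificates of the pair `(9, 6)`, part 3 -/
def t22_22_9_6_3 : BlkD.Tr :=
  .L 5 6 [4, 4, 22, 22, 22, 22, 22] [] [] 100000 1 1 1733334 66667 33333 83333 66667 0 0 0

lemma s22_22_9_6_3 {n : ℕ} (hn : 5 ≤ n) : NoNd (d22_22_9_6.R : ℤ) d22_22_9_6.H n d22_22_9_6.a d22_22_9_6.b
    (BlkD.inB (BlkD.upd (fun _ => 0) 0 2)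
      (BlkD.upd (BlkD.upd (BlkD.upd (BlkD.upd (BlkD.upd (BlkD.upd (fun _ => 22) 0 9) 2 6) 0 4) 0 2) 1 11) 1 5)) :=
  BlkD.tree_sound (BlkD.pairOk_sound k22_22_9_6) (by decide) hn t22_22_9_6_3 _ _ (by decide +kernel)

/-- certificates of the pair `(9, 6)`, part 4 -/
def t22_22_9_6_4 : BlkD.Tr :=
  .S 1 8 (.L 5 6 [4, 4, 22, 22, 22, 22, 22] [] [] 100000 1 1 1733334 66667 33333 83333 66667 0 0 0)
    (.L 5 6 [4, 4, 22, 22, 22, 22, 22] [] [] 100000 1 1 1733334 66667 33333 83333 66667 0 0 0)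

lemma s22_22_9_6_4 {n : ℕ} (hn : 5 ≤ n) : NoNd (d22_22_9_6.R : ℤ) d22_22_9_6.H n d22_22_9_6.a d22_22_9_6.b
    (BlkD.inB (BlkD.upd (BlkD.upd (fun _ => 0) 0 2) 1 6)
      (BlkD.upd (BlkD.upd (BlkD.upd (BlkD.upd (BlkD.upd (fun _ => 22) 0 9) 2 6) 0 4) 0 2) 1 11)) :=
  BlkD.tree_sound (BlkD.pairOk_sound k22_22_9_6) (by decide) hn t22_22_9_6_4 _ _ (by decide +kernel)

/-- certificates of the pair `(9, 6)`, part 5 -/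
def t22_22_9_6_5 : BlkD.Tr :=
  .L 5 6 [4, 4, 22, 22, 22, 22, 22] [] [] 100000 1 1 1733334 66667 33333 83333 66667 0 0 0

lemma s22_22_9_6_5 {n : ℕ} (hn : 5 ≤ n) : NoNd (d22_22_9_6.R : ℤ) d22_22_9_6.H n d22_22_9_6.a d22_22_9_6.b
    (BlkD.inB (BlkD.upd (BlkD.upd (fun _ => 0) 0 2) 1 12)
      (BlkD.upd (BlkD.upd (BlkD.upd (BlkD.upd (fun _ => 22) 0 9) 2 6) 0 4) 0 2)) :=
  BlkD.tree_sound (BlkD.pairOk_sound k22_22_9_6) (by decide) hn t22_22_9_6_5 _ _ (by decide +kernel)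

/-- certificates of the pair `(9, 6)`, part 6 -/
def t22_22_9_6_6 : BlkD.Tr :=
  .L 5 6 [4, 4, 22, 22, 22, 22, 22] [] [] 100000 1 1 1733334 66667 33333 83333 66667 0 0 0

lemma s22_22_9_6_6 {n : ℕ} (hn : 5 ≤ n) : NoNd (d22_22_9_6.R : ℤ) d22_22_9_6.H n d22_22_9_6.a d22_22_9_6.b
    (BlkD.inB (BlkD.upd (fun _ => 0) 0 3)
      (BlkD.upd (BlkD.upd (BlkD.upd (BlkD.upd (BlkD.upd (BlkD.upd (fun _ => 22) 0 9) 2 6) 0 4) 0 3) 1 11) 1 5)) :=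
  BlkD.tree_sound (BlkD.pairOk_sound k22_22_9_6) (by decide) hn t22_22_9_6_6 _ _ (by decide +kernel)

/-- certificates of the pair `(9, 6)`, part 7 -/
def t22_22_9_6_7 : BlkD.Tr :=
  .S 1 7 (.L 5 6 [4, 4, 22, 22, 22, 22, 22] [] [] 100000 1 1 1733334 66667 33333 83333 66667 0 0 0)
    (.L 5 6 [4, 4, 22, 22, 22, 22, 22] [180, 180, 180, 172, 164, 152] [] 100000 1 1 1733334 66667
    33333 83333 66667 0 0 0)

lemma s22_22_9_6_7 {n : ℕ} (hn : 5 ≤ n) : NoNd (d22_22_9_6.R : ℤ) d22_22_9_6.H n d22_22_9_6.a d22_22_9_6.b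
    (BlkD.inB (BlkD.upd (BlkD.upd (fun _ => 0) 0 3) 1 6)
      (BlkD.upd (BlkD.upd (BlkD.upd (BlkD.upd (BlkD.upd (BlkD.upd (fun _ => 22) 0 9) 2 6) 0 4) 0 3) 1 11) 1 8)) :=
  BlkD.tree_sound (BlkD.pairOk_sound k22_22_9_6) (by decide) hn t22_22_9_6_7 _ _ (by decide +kernel)

/-- certificates of the pair `(9, 6)`, part 8 -/
def t22_22_9_6_8 : BlkD.Tr :=
  .S 1 9 (.L 5 6 [4, 4, 22, 22, 22, 22, 22] [202, 202, 202, 202, 194, 186] [] 100000 1 1 1733334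
    66667 33333 83333 66667 0 0 0) (.L 5 6 [4, 4, 22, 22, 22, 22, 22] [226, 226, 226, 226, 226,
    218] [] 100000 1 1 1733334 66667 33333 83333 66667 0 0 0)

lemma s22_22_9_6_8 {n : ℕ} (hn : 5 ≤ n) : NoNd (d22_22_9_6.R : ℤ) d22_22_9_6.H n d22_22_9_6.a d22_22_9_6.b
    (BlkD.inB (BlkD.upd (BlkD.upd (BlkD.upd (fun _ => 0) 0 3) 1 6) 1 9)
      (BlkD.upd (BlkD.upd (BlkD.upd (BlkD.upd (BlkD.upd (BlkD.upd (fun _ => 22) 0 9) 2 6) 0 4) 0 3) 1 11) 1 10)) :=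
  BlkD.tree_sound (BlkD.pairOk_sound k22_22_9_6) (by decide) hn t22_22_9_6_8 _ _ (by decide +kernel)

/-- certificates of the pair `(9, 6)`, part 9 -/
def t22_22_9_6_9 : BlkD.Tr :=
  .L 5 6 [4, 4, 22, 22, 22, 22, 22] [252, 252, 252, 252, 252, 252] [] 100000 1 1 1733334 66667
    33333 83333 66667 0 0 0

lemma s22_22_9_6_9 {n : ℕ} (hn : 5 ≤ n) : NoNd (d22_22_9_6.R : ℤ) d22_22_9_6.H n d22_22_9_6.a d22_22_9_6.b
    (BlkD.inB (BlkD.upd (BlkD.upd (BlkD.upd (BlkD.upd (fun _ => 0) 0 3) 1 6) 1 9) 1 11)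
      (BlkD.upd (BlkD.upd (BlkD.upd (BlkD.upd (BlkD.upd (fun _ => 22) 0 9) 2 6) 0 4) 0 3) 1 11)) :=
  BlkD.tree_sound (BlkD.pairOk_sound k22_22_9_6) (by decide) hn t22_22_9_6_9 _ _ (by decide +kernel)

/-- certificates of the pair `(9, 6)`, part 10 -/
def t22_22_9_6_10 : BlkD.Tr :=
  .S 1 17 (.S 1 14 (.S 1 13 (.L 5 6 [4, 4, 22, 22, 22, 22, 22] [] [] 100000 1 1 1733334 66667 33333
    83333 66667 0 0 0) (.L 5 6 [4, 4, 22, 22, 22, 22, 22] [342, 342, 342, 342, 342, 342] [] 100000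
    1 1 1733334 66667 33333 83333 66667 0 0 0)) (.L 5 6 [4, 4, 22, 22, 22, 22, 22] [] [] 100000 1 1
    1733334 66667 33333 83333 66667 0 0 0)) (.L 5 6 [4, 4, 22, 22, 22, 22, 22] [] [] 100000 1 1
    1733334 66667 33333 83333 66667 0 0 0)

lemma s22_22_9_6_10 {n : ℕ} (hn : 5 ≤ n) : NoNd (d22_22_9_6.R : ℤ) d22_22_9_6.H n d22_22_9_6.a d22_22_9_6.b
    (BlkD.inB (BlkD.upd (BlkD.upd (fun _ => 0) 0 3) 1 12)
      (BlkD.upd (BlkD.upd (BlkD.upd (BlkD.upd (fun _ => 22) 0 9) 2 6) 0 4) 0 3)) :=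
  BlkD.tree_sound (BlkD.pairOk_sound k22_22_9_6) (by decide) hn t22_22_9_6_10 _ _ (by decide +kernel)

/-- certificates of the pair `(9, 6)`, part 11 -/
def t22_22_9_6_11 : BlkD.Tr :=
  .L 5 6 [4, 4, 22, 22, 22, 22, 22] [] [] 100000 1 1 1733334 66667 33333 83333 66667 0 0 0

lemma s22_22_9_6_11 {n : ℕ} (hn : 5 ≤ n) : NoNd (d22_22_9_6.R : ℤ) d22_22_9_6.H n d22_22_9_6.a d22_22_9_6.b
    (BlkD.inB (BlkD.upd (BlkD.upd (fun _ => 0) 0 3) 0 4)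
      (BlkD.upd (BlkD.upd (BlkD.upd (BlkD.upd (BlkD.upd (fun _ => 22) 0 9) 2 6) 0 4) 1 11) 1 5)) :=
  BlkD.tree_sound (BlkD.pairOk_sound k22_22_9_6) (by decide) hn t22_22_9_6_11 _ _ (by decide +kernel)

/-- certificates of the pair `(9, 6)`, part 12 -/
def t22_22_9_6_12 : BlkD.Tr :=
  .L 5 6 [4, 4, 22, 22, 22, 22, 22] [] [] 100000 1 1 1733334 66667 33333 83333 66667 0 0 0

lemma s22_22_9_6_12 {n : ℕ} (hn : 5 ≤ n) : NoNd (d22_22_9_6.R : ℤ) d22_22_9_6.H n d22_22_9_6.a d22_22_9_6.b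
    (BlkD.inB (BlkD.upd (BlkD.upd (BlkD.upd (fun _ => 0) 0 3) 0 4) 1 6)
      (BlkD.upd (BlkD.upd (BlkD.upd (BlkD.upd (BlkD.upd (BlkD.upd (fun _ => 22) 0 9) 2 6) 0 4) 1 11) 1 8) 1 7)) :=
  BlkD.tree_sound (BlkD.pairOk_sound k22_22_9_6) (by decide) hn t22_22_9_6_12 _ _ (by decide +kernel)

/-- certificates of the pair `(9, 6)`, part 13 -/
def t22_22_9_6_13 : BlkD.Tr :=
  .L 5 6 [4, 4, 22, 22, 22, 22, 22] [196, 196, 196, 188, 180, 168] [] 100000 1 1 1733334 66667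
    33333 83333 66667 0 0 0

lemma s22_22_9_6_13 {n : ℕ} (hn : 5 ≤ n) : NoNd (d22_22_9_6.R : ℤ) d22_22_9_6.H n d22_22_9_6.a d22_22_9_6.b
    (BlkD.inB (BlkD.upd (BlkD.upd (BlkD.upd (BlkD.upd (fun _ => 0) 0 3) 0 4) 1 6) 1 8)
      (BlkD.upd (BlkD.upd (BlkD.upd (BlkD.upd (BlkD.upd (fun _ => 22) 0 9) 2 6) 0 4) 1 11) 1 8)) :=
  BlkD.tree_sound (BlkD.pairOk_sound k22_22_9_6) (by decide) hn t22_22_9_6_13 _ _ (by decide +kernel)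

/-- certificates of the pair `(9, 6)`, part 14 -/
def t22_22_9_6_14 : BlkD.Tr :=
  .S 2 3 (.S 2 1 (.L 5 6 [4, 4, 22, 22, 22, 22, 22] [220, 220, 220, 220, 212, 204] [] 100000 1 1
    1733334 66667 33333 83333 66667 0 0 0) (.L 5 6 [4, 4, 22, 22, 22, 22, 22] [220, 220, 220, 220,
    212, 204] [] 100000 1 1 1733334 66667 33333 83333 66667 0 0 0)) (.L 5 6 [4, 4, 22, 22, 22, 22,
    22] [220, 220, 220, 220, 212, 204] [] 100000 1 1 1733334 66667 33333 83333 66667 0 0 0)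

lemma s22_22_9_6_14 {n : ℕ} (hn : 5 ≤ n) : NoNd (d22_22_9_6.R : ℤ) d22_22_9_6.H n d22_22_9_6.a d22_22_9_6.b
    (BlkD.inB (BlkD.upd (BlkD.upd (BlkD.upd (BlkD.upd (fun _ => 0) 0 3) 0 4) 1 6) 1 9)
      (BlkD.upd (BlkD.upd (BlkD.upd (BlkD.upd (BlkD.upd (BlkD.upd (fun _ => 22) 0 9) 2 6) 0 4) 1 11) 1 10) 1 9)) :=
  BlkD.tree_sound (BlkD.pairOk_sound k22_22_9_6) (by decide) hn t22_22_9_6_14 _ _ (by decide +kernel)

/-- certificates of the pair `(9, 6)`, part 15 -/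
def t22_22_9_6_15 : BlkD.Tr :=
  .S 2 3 (.S 2 1 (.L 5 6 [4, 4, 22, 22, 22, 22, 22] [246, 246, 246, 246, 246, 238] [] 100000 1 1
    1733334 66667 33333 83333 66667 0 0 0) (.L 5 6 [4, 4, 22, 22, 22, 22, 22] [246, 246, 246, 246,
    246, 238] [] 100000 1 1 1733334 66667 33333 83333 66667 0 0 0)) (.L 5 6 [4, 4, 22, 22, 22, 22,
    22] [246, 246, 246, 246, 246, 238] [] 100000 1 1 1733334 66667 33333 83333 66667 0 0 0)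

lemma s22_22_9_6_15 {n : ℕ} (hn : 5 ≤ n) : NoNd (d22_22_9_6.R : ℤ) d22_22_9_6.H n d22_22_9_6.a d22_22_9_6.b
    (BlkD.inB (BlkD.upd (BlkD.upd (BlkD.upd (BlkD.upd (BlkD.upd (fun _ => 0) 0 3) 0 4) 1 6) 1 9) 1 10)
      (BlkD.upd (BlkD.upd (BlkD.upd (BlkD.upd (BlkD.upd (fun _ => 22) 0 9) 2 6) 0 4) 1 11) 1 10)) :=
  BlkD.tree_sound (BlkD.pairOk_sound k22_22_9_6) (by decide) hn t22_22_9_6_15 _ _ (by decide +kernel)

/-- certificates of the pair `(9, 6)`, part 16 -/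
def t22_22_9_6_16 : BlkD.Tr :=
  .S 2 3 (.L 5 6 [4, 4, 22, 22, 22, 22, 22] [274, 274, 274, 274, 274, 274] [] 100000 1 1 1733334
    66667 33333 83333 66667 0 0 0) (.L 5 6 [4, 4, 22, 22, 22, 22, 22] [274, 274, 274, 274, 274,
    274] [] 100000 1 1 1733334 66667 33333 83333 66667 0 0 0)

lemma s22_22_9_6_16 {n : ℕ} (hn : 5 ≤ n) : NoNd (d22_22_9_6.R : ℤ) d22_22_9_6.H n d22_22_9_6.a d22_22_9_6.b
    (BlkD.inB (BlkD.upd (BlkD.upd (BlkD.upd (BlkD.upd (BlkD.upd (fun _ => 0) 0 3) 0 4) 1 6) 1 9) 1 11)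
      (BlkD.upd (BlkD.upd (BlkD.upd (BlkD.upd (fun _ => 22) 0 9) 2 6) 0 4) 1 11)) :=
  BlkD.tree_sound (BlkD.pairOk_sound k22_22_9_6) (by decide) hn t22_22_9_6_16 _ _ (by decide +kernel)

/-- certificates of the pair `(9, 6)`, part 17 -/
def t22_22_9_6_17 : BlkD.Tr :=
  .S 1 17 (.S 1 14 (.S 1 13 (.S 1 12 (.L 5 6 [4, 4, 22, 22, 22, 22, 22] [304, 304, 304, 304, 304,
    304] [] 100000 1 1 1733334 66667 33333 83333 66667 0 0 0) (.L 5 6 [4, 4, 22, 22, 22, 22, 22]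
    [336, 336, 336, 336, 336, 336] [] 100000 1 1 1733334 66667 33333 83333 66667 0 0 0)) (.L 5 6
    [4, 4, 22, 22, 22, 22, 22] [370, 370, 370, 370, 370, 370] [] 100000 1 1 1733334 66667 33333
    83333 66667 0 0 0)) (.L 5 6 [4, 4, 22, 22, 22, 22, 22] [] [] 100000 1 1 1733334 66667 33333
    83333 66667 0 0 0)) (.L 5 6 [4, 4, 22, 22, 22, 22, 22] [] [] 100000 1 1 1733334 66667 33333
    83333 66667 0 0 0)

lemma s22_22_9_6_17 {n : ℕ} (hn : 5 ≤ n) : NoNd (d22_22_9_6.R : ℤ) d22_22_9_6.H n d22_22_9_6.a d22_22_9_6.b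
    (BlkD.inB (BlkD.upd (BlkD.upd (BlkD.upd (fun _ => 0) 0 3) 0 4) 1 12)
      (BlkD.upd (BlkD.upd (BlkD.upd (fun _ => 22) 0 9) 2 6) 0 4)) :=
  BlkD.tree_sound (BlkD.pairOk_sound k22_22_9_6) (by decide) hn t22_22_9_6_17 _ _ (by decide +kernel)

/-- certificates of the pair `(9, 6)`, part 18 -/
def t22_22_9_6_18 : BlkD.Tr :=
  .L 5 6 [4, 4, 22, 22, 22, 22, 22] [] [] 100000 1 1 1733334 66667 33333 83333 66667 0 0 0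

lemma s22_22_9_6_18 {n : ℕ} (hn : 5 ≤ n) : NoNd (d22_22_9_6.R : ℤ) d22_22_9_6.H n d22_22_9_6.a d22_22_9_6.b
    (BlkD.inB (BlkD.upd (fun _ => 0) 0 5)
      (BlkD.upd (BlkD.upd (BlkD.upd (BlkD.upd (BlkD.upd (BlkD.upd (BlkD.upd (fun _ => 22) 0 9) 2 6) 0 7) 0 6) 0 5) 1 11) 1 5)) :=
  BlkD.tree_sound (BlkD.pairOk_sound k22_22_9_6) (by decide) hn t22_22_9_6_18 _ _ (by decide +kernel)

/-- certificates of the pair `(9, 6)`, part 19 -/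
def t22_22_9_6_19 : BlkD.Tr :=
  .S 1 6 (.L 5 6 [4, 4, 22, 22, 22, 22, 22] [166, 158, 150, 138, 124, 106] [] 100000 1 1 1733334
    66667 33333 83333 66667 0 0 0) (.S 2 3 (.L 5 6 [4, 4, 22, 22, 22, 22, 22] [188, 188, 180, 172,
    160, 146] [] 100000 1 1 1733334 66667 33333 83333 66667 0 0 0) (.L 5 6 [4, 4, 22, 22, 22, 22,
    22] [188, 188, 180, 172, 160, 146] [] 100000 1 1 1733334 66667 33333 83333 66667 0 0 0))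

lemma s22_22_9_6_19 {n : ℕ} (hn : 5 ≤ n) : NoNd (d22_22_9_6.R : ℤ) d22_22_9_6.H n d22_22_9_6.a d22_22_9_6.b
    (BlkD.inB (BlkD.upd (BlkD.upd (fun _ => 0) 0 5) 1 6)
      (BlkD.upd (BlkD.upd (BlkD.upd (BlkD.upd (BlkD.upd (BlkD.upd (BlkD.upd (BlkD.upd (fun _ => 22) 0 9) 2 6) 0 7) 0 6) 0 5) 1 11) 1 8) 1 7)) :=
  BlkD.tree_sound (BlkD.pairOk_sound k22_22_9_6) (by decide) hn t22_22_9_6_19 _ _ (by decide +kernel)

/-- certificates of the pair `(9, 6)`, part 20 -/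
def t22_22_9_6_20 : BlkD.Tr :=
  .S 2 3 (.S 2 1 (.L 5 6 [4, 4, 22, 22, 22, 22, 22] [212, 212, 212, 204, 196, 184] [] 100000 1 1
    1733334 66667 33333 83333 66667 0 0 0) (.L 5 6 [4, 4, 22, 22, 22, 22, 22] [212, 212, 212, 204,
    196, 184] [] 100000 1 1 1733334 66667 33333 83333 66667 0 0 0)) (.L 5 6 [4, 4, 22, 22, 22, 22,
    22] [212, 212, 212, 204, 196, 184] [] 100000 1 1 1733334 66667 33333 83333 66667 0 0 0)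

lemma s22_22_9_6_20 {n : ℕ} (hn : 5 ≤ n) : NoNd (d22_22_9_6.R : ℤ) d22_22_9_6.H n d22_22_9_6.a d22_22_9_6.b
    (BlkD.inB (BlkD.upd (BlkD.upd (BlkD.upd (fun _ => 0) 0 5) 1 6) 1 8)
      (BlkD.upd (BlkD.upd (BlkD.upd (BlkD.upd (BlkD.upd (BlkD.upd (BlkD.upd (fun _ => 22) 0 9) 2 6) 0 7) 0 6) 0 5) 1 11) 1 8)) :=
  BlkD.tree_sound (BlkD.pairOk_sound k22_22_9_6) (by decide) hn t22_22_9_6_20 _ _ (by decide +kernel)

/-- certificates of the pair `(9, 6)`, part 21 -/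
def t22_22_9_6_21 : BlkD.Tr :=
  .S 2 3 (.L 5 6 [4, 4, 22, 22, 22, 22, 22] [238, 238, 238, 238, 230, 222] [] 100000 1 1 1733334
    66667 33333 83333 66667 0 0 0) (.L 5 6 [4, 4, 22, 22, 22, 22, 22] [238, 238, 238, 238, 230,
    222] [] 100000 1 1 1733334 66667 33333 83333 66667 0 0 0)

lemma s22_22_9_6_21 {n : ℕ} (hn : 5 ≤ n) : NoNd (d22_22_9_6.R : ℤ) d22_22_9_6.H n d22_22_9_6.a d22_22_9_6.b
    (BlkD.inB (BlkD.upd (BlkD.upd (BlkD.upd (fun _ => 0) 0 5) 1 6) 1 9)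
      (BlkD.upd (BlkD.upd (BlkD.upd (BlkD.upd (BlkD.upd (BlkD.upd (BlkD.upd (BlkD.upd (fun _ => 22) 0 9) 2 6) 0 7) 0 6) 0 5) 1 11) 1 10) 1 9)) :=
  BlkD.tree_sound (BlkD.pairOk_sound k22_22_9_6) (by decide) hn t22_22_9_6_21 _ _ (by decide +kernel)

/-- certificates of the pair `(9, 6)`, part 22 -/
def t22_22_9_6_22 : BlkD.Tr :=
  .S 2 3 (.L 5 6 [4, 4, 22, 22, 22, 22, 22] [266, 266, 266, 266, 266, 258] [] 100000 1 1 1733334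
    66667 33333 83333 66667 0 0 0) (.L 5 6 [4, 4, 22, 22, 22, 22, 22] [266, 266, 266, 266, 266,
    258] [] 100000 1 1 1733334 66667 33333 83333 66667 0 0 0)

lemma s22_22_9_6_22 {n : ℕ} (hn : 5 ≤ n) : NoNd (d22_22_9_6.R : ℤ) d22_22_9_6.H n d22_22_9_6.a d22_22_9_6.b
    (BlkD.inB (BlkD.upd (BlkD.upd (BlkD.upd (BlkD.upd (fun _ => 0) 0 5) 1 6) 1 9) 1 10)
      (BlkD.upd (BlkD.upd (BlkD.upd (BlkD.upd (BlkD.upd (BlkD.upd (BlkD.upd (fun _ => 22) 0 9) 2 6) 0 7) 0 6) 0 5) 1 11) 1 10)) :=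
  BlkD.tree_sound (BlkD.pairOk_sound k22_22_9_6) (by decide) hn t22_22_9_6_22 _ _ (by decide +kernel)

/-- certificates of the pair `(9, 6)`, part 23 -/
def t22_22_9_6_23 : BlkD.Tr :=
  .L 5 6 [4, 4, 22, 22, 22, 22, 22] [296, 296, 296, 296, 296, 296] [] 100000 1 1 1733334 66667
    33333 83333 66667 0 0 0

lemma s22_22_9_6_23 {n : ℕ} (hn : 5 ≤ n) : NoNd (d22_22_9_6.R : ℤ) d22_22_9_6.H n d22_22_9_6.a d22_22_9_6.b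
    (BlkD.inB (BlkD.upd (BlkD.upd (BlkD.upd (BlkD.upd (fun _ => 0) 0 5) 1 6) 1 9) 1 11)
      (BlkD.upd (BlkD.upd (BlkD.upd (BlkD.upd (BlkD.upd (BlkD.upd (fun _ => 22) 0 9) 2 6) 0 7) 0 6) 0 5) 1 11)) :=
  BlkD.tree_sound (BlkD.pairOk_sound k22_22_9_6) (by decide) hn t22_22_9_6_23 _ _ (by decide +kernel)

/-- certificates of the pair `(9, 6)`, part 24 -/
def t22_22_9_6_24 : BlkD.Tr :=
  .L 5 6 [4, 4, 22, 22, 22, 22, 22] [] [] 100000 1 1 1733334 66667 33333 83333 66667 0 0 0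

lemma s22_22_9_6_24 {n : ℕ} (hn : 5 ≤ n) : NoNd (d22_22_9_6.R : ℤ) d22_22_9_6.H n d22_22_9_6.a d22_22_9_6.b
    (BlkD.inB (BlkD.upd (BlkD.upd (fun _ => 0) 0 5) 1 12)
      (BlkD.upd (BlkD.upd (BlkD.upd (BlkD.upd (BlkD.upd (fun _ => 22) 0 9) 2 6) 0 7) 0 6) 0 5)) :=
  BlkD.tree_sound (BlkD.pairOk_sound k22_22_9_6) (by decide) hn t22_22_9_6_24 _ _ (by decide +kernel)

/-- certificates of the pair `(9, 6)`, part 25 -/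
def t22_22_9_6_25 : BlkD.Tr :=
  .S 1 2 (.L 5 6 [4, 4, 22, 22, 22, 22, 22] [] [] 100000 1 1 1733334 66667 33333 83333 66667 0 0 0)
    (.L 5 6 [4, 4, 22, 22, 22, 22, 22] [] [] 100000 1 1 1733334 66667 33333 83333 66667 0 0 0)

lemma s22_22_9_6_25 {n : ℕ} (hn : 5 ≤ n) : NoNd (d22_22_9_6.R : ℤ) d22_22_9_6.H n d22_22_9_6.a d22_22_9_6.b
    (BlkD.inB (BlkD.upd (BlkD.upd (fun _ => 0) 0 5) 0 6)
      (BlkD.upd (BlkD.upd (BlkD.upd (BlkD.upd (BlkD.upd (BlkD.upd (fun _ => 22) 0 9) 2 6) 0 7) 0 6) 1 11) 1 5)) :=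
  BlkD.tree_sound (BlkD.pairOk_sound k22_22_9_6) (by decide) hn t22_22_9_6_25 _ _ (by decide +kernel)

/-- certificates of the pair `(9, 6)`, part 26 -/
def t22_22_9_6_26 : BlkD.Tr :=
  .S 1 6 (.L 5 6 [4, 4, 22, 22, 22, 22, 22] [178, 170, 162, 150, 136, 118] [] 100000 1 1 1733334
    66667 33333 83333 66667 0 0 0) (.L 5 6 [4, 4, 22, 22, 22, 22, 22] [202, 202, 194, 186, 174,
    160] [] 100000 1 1 1733334 66667 33333 83333 66667 0 0 0)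

lemma s22_22_9_6_26 {n : ℕ} (hn : 5 ≤ n) : NoNd (d22_22_9_6.R : ℤ) d22_22_9_6.H n d22_22_9_6.a d22_22_9_6.b
    (BlkD.inB (BlkD.upd (BlkD.upd (BlkD.upd (fun _ => 0) 0 5) 0 6) 1 6)
      (BlkD.upd (BlkD.upd (BlkD.upd (BlkD.upd (BlkD.upd (BlkD.upd (BlkD.upd (fun _ => 22) 0 9) 2 6) 0 7) 0 6) 1 11) 1 8) 1 7)) :=
  BlkD.tree_sound (BlkD.pairOk_sound k22_22_9_6) (by decide) hn t22_22_9_6_26 _ _ (by decide +kernel)

/-- certificates of the pair `(9, 6)`, part 27 -/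
def t22_22_9_6_27 : BlkD.Tr :=
  .L 5 6 [4, 4, 22, 22, 22, 22, 22] [228, 228, 228, 220, 212, 200] [] 100000 1 1 1733334 66667
    33333 83333 66667 0 0 0

lemma s22_22_9_6_27 {n : ℕ} (hn : 5 ≤ n) : NoNd (d22_22_9_6.R : ℤ) d22_22_9_6.H n d22_22_9_6.a d22_22_9_6.b
    (BlkD.inB (BlkD.upd (BlkD.upd (BlkD.upd (BlkD.upd (fun _ => 0) 0 5) 0 6) 1 6) 1 8)
      (BlkD.upd (BlkD.upd (BlkD.upd (BlkD.upd (BlkD.upd (BlkD.upd (fun _ => 22) 0 9) 2 6) 0 7) 0 6) 1 11) 1 8)) :=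
  BlkD.tree_sound (BlkD.pairOk_sound k22_22_9_6) (by decide) hn t22_22_9_6_27 _ _ (by decide +kernel)

/-- certificates of the pair `(9, 6)`, part 28 -/
def t22_22_9_6_28 : BlkD.Tr :=
  .L 5 6 [4, 4, 22, 22, 22, 22, 22] [] [] 100000 1 1 1733334 66667 33333 83333 66667 0 0 0

lemma s22_22_9_6_28 {n : ℕ} (hn : 5 ≤ n) : NoNd (d22_22_9_6.R : ℤ) d22_22_9_6.H n d22_22_9_6.a d22_22_9_6.b
    (BlkD.inB (BlkD.upd (BlkD.upd (BlkD.upd (BlkD.upd (fun _ => 0) 0 5) 0 6) 1 6) 1 9)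
      (BlkD.upd (BlkD.upd (BlkD.upd (BlkD.upd (BlkD.upd (fun _ => 22) 0 9) 2 6) 0 7) 0 6) 1 11)) :=
  BlkD.tree_sound (BlkD.pairOk_sound k22_22_9_6) (by decide) hn t22_22_9_6_28 _ _ (by decide +kernel)

/-- certificates of the pair `(9, 6)`, part 29 -/
def t22_22_9_6_29 : BlkD.Tr :=
  .L 5 6 [4, 4, 22, 22, 22, 22, 22] [] [] 100000 1 1 1733334 66667 33333 83333 66667 0 0 0

lemma s22_22_9_6_29 {n : ℕ} (hn : 5 ≤ n) : NoNd (d22_22_9_6.R : ℤ) d22_22_9_6.H n d22_22_9_6.a d22_22_9_6.b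
    (BlkD.inB (BlkD.upd (BlkD.upd (BlkD.upd (fun _ => 0) 0 5) 0 6) 1 12)
      (BlkD.upd (BlkD.upd (BlkD.upd (BlkD.upd (fun _ => 22) 0 9) 2 6) 0 7) 0 6)) :=
  BlkD.tree_sound (BlkD.pairOk_sound k22_22_9_6) (by decide) hn t22_22_9_6_29 _ _ (by decide +kernel)

/-- certificates of the pair `(9, 6)`, part 30 -/
def t22_22_9_6_30 : BlkD.Tr :=
  .S 1 2 (.L 5 6 [4, 4, 22, 22, 22, 22, 22] [] [] 100000 1 1 1733334 66667 33333 83333 66667 0 0 0)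
    (.S 1 4 (.L 5 6 [4, 4, 22, 22, 22, 22, 22] [] [] 100000 1 1 1733334 66667 33333 83333 66667 0 0
    0) (.L 5 6 [4, 4, 22, 22, 22, 22, 22] [158, 150, 138, 124, 106, 90] [] 100000 1 1 1733334 66667
    33333 83333 66667 0 0 0))

lemma s22_22_9_6_30 {n : ℕ} (hn : 5 ≤ n) : NoNd (d22_22_9_6.R : ℤ) d22_22_9_6.H n d22_22_9_6.a d22_22_9_6.b
    (BlkD.inB (BlkD.upd (BlkD.upd (fun _ => 0) 0 5) 0 7)
      (BlkD.upd (BlkD.upd (BlkD.upd (BlkD.upd (BlkD.upd (fun _ => 22) 0 9) 2 6) 0 7) 1 11) 1 5)) :=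
  BlkD.tree_sound (BlkD.pairOk_sound k22_22_9_6) (by decide) hn t22_22_9_6_30 _ _ (by decide +kernel)

/-- certificates of the pair `(9, 6)`, part 31 -/
def t22_22_9_6_31 : BlkD.Tr :=
  .L 5 6 [4, 4, 22, 22, 22, 22, 22] [] [] 100000 1 1 1733334 66667 33333 83333 66667 0 0 0

lemma s22_22_9_6_31 {n : ℕ} (hn : 5 ≤ n) : NoNd (d22_22_9_6.R : ℤ) d22_22_9_6.H n d22_22_9_6.a d22_22_9_6.b
    (BlkD.inB (BlkD.upd (BlkD.upd (BlkD.upd (fun _ => 0) 0 5) 0 7) 1 6)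
      (BlkD.upd (BlkD.upd (BlkD.upd (BlkD.upd (fun _ => 22) 0 9) 2 6) 0 7) 1 11)) :=
  BlkD.tree_sound (BlkD.pairOk_sound k22_22_9_6) (by decide) hn t22_22_9_6_31 _ _ (by decide +kernel)

/-- certificates of the pair `(9, 6)`, part 32 -/
def t22_22_9_6_32 : BlkD.Tr :=
  .L 5 6 [4, 4, 22, 22, 22, 22, 22] [] [] 100000 1 1 1733334 66667 33333 83333 66667 0 0 0

lemma s22_22_9_6_32 {n : ℕ} (hn : 5 ≤ n) : NoNd (d22_22_9_6.R : ℤ) d22_22_9_6.H n d22_22_9_6.a d22_22_9_6.b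
    (BlkD.inB (BlkD.upd (BlkD.upd (BlkD.upd (fun _ => 0) 0 5) 0 7) 1 12)
      (BlkD.upd (BlkD.upd (BlkD.upd (fun _ => 22) 0 9) 2 6) 0 7)) :=
  BlkD.tree_sound (BlkD.pairOk_sound k22_22_9_6) (by decide) hn t22_22_9_6_32 _ _ (by decide +kernel)

/-- certificates of the pair `(9, 6)`, part 33 -/
def t22_22_9_6_33 : BlkD.Tr :=
  .L 5 6 [4, 4, 22, 22, 22, 22, 22] [] [] 100000 1 1 1733334 66667 33333 83333 66667 0 0 0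

lemma s22_22_9_6_33 {n : ℕ} (hn : 5 ≤ n) : NoNd (d22_22_9_6.R : ℤ) d22_22_9_6.H n d22_22_9_6.a d22_22_9_6.b
    (BlkD.inB (BlkD.upd (BlkD.upd (fun _ => 0) 0 5) 0 8)
      (BlkD.upd (BlkD.upd (fun _ => 22) 0 9) 2 6)) :=
  BlkD.tree_sound (BlkD.pairOk_sound k22_22_9_6) (by decide) hn t22_22_9_6_33 _ _ (by decide +kernel)

/-- certificates of the pair `(9, 6)`, part 34 -/
def t22_22_9_6_34 : BlkD.Tr :=
  .E 1

lemma s22_22_9_6_34 {n : ℕ} (hn : 5 ≤ n) : NoNd (d22_22_9_6.R : ℤ) d22_22_9_6.H n d22_22_9_6.a d22_22_9_6.b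
    (BlkD.inB (BlkD.upd (fun _ => 0) 2 7)
      (BlkD.upd (fun _ => 22) 0 9)) :=
  BlkD.tree_sound (BlkD.pairOk_sound k22_22_9_6) (by decide) hn t22_22_9_6_34 _ _ (by decide +kernel)

/-- certificates of the pair `(9, 6)`, part 35 -/
def t22_22_9_6_35 : BlkD.Tr :=
  .E 0

lemma s22_22_9_6_35 {n : ℕ} (hn : 5 ≤ n) : NoNd (d22_22_9_6.R : ℤ) d22_22_9_6.H n d22_22_9_6.a d22_22_9_6.b
    (BlkD.inB (BlkD.upd (fun _ => 0) 0 10)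
      (fun _ => 22)) :=
  BlkD.tree_sound (BlkD.pairOk_sound k22_22_9_6) (by decide) hn t22_22_9_6_35 _ _ (by decide +kernel)

lemma pr22_22_9_6 {n : ℕ} (hn : 5 ≤ n) : NoPr ((22 : ℕ) : ℤ) ((22 : ℕ) : ℤ) n 9 6 :=
  BlkD.of_root (R := d22_22_9_6.R) (H := d22_22_9_6.H) (a := d22_22_9_6.a) (b := d22_22_9_6.b) (q := 3) (by decide) hn
    (BlkD.sp 0 9 (BlkD.sp 2 6 (BlkD.sp 0 4 (BlkD.sp 0 2 (BlkD.sp 0 1 (BlkD.sp 0 0 (s22_22_9_6_1 hn)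
      (s22_22_9_6_2 hn)) (BlkD.sp 1 11 (BlkD.sp 1 5 (s22_22_9_6_3 hn) (s22_22_9_6_4 hn))
      (s22_22_9_6_5 hn))) (BlkD.sp 0 3 (BlkD.sp 1 11 (BlkD.sp 1 5 (s22_22_9_6_6 hn) (BlkD.sp 1 8
      (s22_22_9_6_7 hn) (BlkD.sp 1 10 (s22_22_9_6_8 hn) (s22_22_9_6_9 hn)))) (s22_22_9_6_10 hn))
      (BlkD.sp 1 11 (BlkD.sp 1 5 (s22_22_9_6_11 hn) (BlkD.sp 1 8 (BlkD.sp 1 7 (s22_22_9_6_12 hn)
      (s22_22_9_6_13 hn)) (BlkD.sp 1 10 (BlkD.sp 1 9 (s22_22_9_6_14 hn) (s22_22_9_6_15 hn))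
      (s22_22_9_6_16 hn)))) (s22_22_9_6_17 hn)))) (BlkD.sp 0 7 (BlkD.sp 0 6 (BlkD.sp 0 5 (BlkD.sp 1
      11 (BlkD.sp 1 5 (s22_22_9_6_18 hn) (BlkD.sp 1 8 (BlkD.sp 1 7 (s22_22_9_6_19 hn)
      (s22_22_9_6_20 hn)) (BlkD.sp 1 10 (BlkD.sp 1 9 (s22_22_9_6_21 hn) (s22_22_9_6_22 hn))
      (s22_22_9_6_23 hn)))) (s22_22_9_6_24 hn)) (BlkD.sp 1 11 (BlkD.sp 1 5 (s22_22_9_6_25 hn)
      (BlkD.sp 1 8 (BlkD.sp 1 7 (s22_22_9_6_26 hn) (s22_22_9_6_27 hn)) (s22_22_9_6_28 hn)))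
      (s22_22_9_6_29 hn))) (BlkD.sp 1 11 (BlkD.sp 1 5 (s22_22_9_6_30 hn) (s22_22_9_6_31 hn))
      (s22_22_9_6_32 hn))) (s22_22_9_6_33 hn))) (s22_22_9_6_34 hn)) (s22_22_9_6_35 hn))

end BlkC

end Pool.Agent.Lib.MP_f04ccf_co
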