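import Pool.Agent.Lib.MP_f04ccf_co.M.BlkT

/-!
MP_f04ccf_co, block certificate, data `R = 22`, `H = 22`, part 17 (generated, helper99:
bd10.cpp, gen2.py).
-/

set_option autoImplicit false
set_option maxRecDepth 100000

namespace Pool.Agent.Lib.MP_f04ccf_co

namespace BlkC

/-- the numbers of the pair `(9, 7)`, `R = 22`, `H = 22` -/
def d22_22_9_7 : BlkD.Pd :=
  ⟨22, 22, 3, 9, 7, 3, 0, 5, 0, 4, 4, 0, 0, 4, 4, 0, [0, 4, 8, 12], [0, 4, 8, 12], [⟨1, 1, 1, 4, 8,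
    [0, 4], [0, 4]⟩]⟩

lemma k22_22_9_7 : BlkD.pairOk d22_22_9_7 = true := by decide +kernel

/-- certificates of the pair `(9, 7)`, part 1 -/
def t22_22_9_7_1 : BlkD.Tr :=
  .L 4 4 [4, 22, 22, 22, 22, 22, 22, 22] [] [] 100000 0 0 1800000 100000 100000 100000 100000 0 0 0

lemma s22_22_9_7_1 {n : ℕ} (hn : 5 ≤ n) : NoNd (d22_22_9_7.R : ℤ) d22_22_9_7.H n d22_22_9_7.a d22_22_9_7.b
    (BlkD.inB (fun _ => 0)
      (BlkD.upd (BlkD.upd (BlkD.upd (BlkD.upd (BlkD.upd (BlkD.upd (fun _ => 22) 0 9) 2 7) 0 4) 0 2) 0 1) 0 0)) :=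
  BlkD.tree_sound (BlkD.pairOk_sound k22_22_9_7) (by decide) hn t22_22_9_7_1 _ _ (by decide +kernel)

/-- certificates of the pair `(9, 7)`, part 2 -/
def t22_22_9_7_2 : BlkD.Tr :=
  .S 1 11 (.S 1 5 (.L 4 4 [4, 22, 22, 22, 22, 22, 22, 22] [] [] 100000 0 0 1800000 100000 100000
    100000 100000 0 0 0) (.L 4 4 [4, 22, 22, 22, 22, 22, 22, 22] [] [] 100000 0 0 1800000 100000
    100000 100000 100000 0 0 0)) (.L 4 4 [4, 22, 22, 22, 22, 22, 22, 22] [] [] 100000 0 0 1800000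
    100000 100000 100000 100000 0 0 0)

lemma s22_22_9_7_2 {n : ℕ} (hn : 5 ≤ n) : NoNd (d22_22_9_7.R : ℤ) d22_22_9_7.H n d22_22_9_7.a d22_22_9_7.b
    (BlkD.inB (BlkD.upd (fun _ => 0) 0 1)
      (BlkD.upd (BlkD.upd (BlkD.upd (BlkD.upd (BlkD.upd (fun _ => 22) 0 9) 2 7) 0 4) 0 2) 0 1)) :=
  BlkD.tree_sound (BlkD.pairOk_sound k22_22_9_7) (by decide) hn t22_22_9_7_2 _ _ (by decide +kernel)

/-- certificates of the pair `(9, 7)`, part 3 -/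
def t22_22_9_7_3 : BlkD.Tr :=
  .L 4 4 [4, 22, 22, 22, 22, 22, 22, 22] [] [] 100000 0 0 1800000 100000 100000 100000 100000 0 0 0

lemma s22_22_9_7_3 {n : ℕ} (hn : 5 ≤ n) : NoNd (d22_22_9_7.R : ℤ) d22_22_9_7.H n d22_22_9_7.a d22_22_9_7.b
    (BlkD.inB (BlkD.upd (fun _ => 0) 0 2)
      (BlkD.upd (BlkD.upd (BlkD.upd (BlkD.upd (BlkD.upd (BlkD.upd (fun _ => 22) 0 9) 2 7) 0 4) 0 2) 1 11) 1 5)) :=
  BlkD.tree_sound (BlkD.pairOk_sound k22_22_9_7) (by decide) hn t22_22_9_7_3 _ _ (by decide +kernel)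

/-- certificates of the pair `(9, 7)`, part 4 -/
def t22_22_9_7_4 : BlkD.Tr :=
  .S 1 8 (.L 4 4 [4, 22, 22, 22, 22, 22, 22, 22] [] [] 100000 0 0 1800000 100000 100000 100000
    100000 0 0 0) (.L 4 4 [4, 22, 22, 22, 22, 22, 22, 22] [] [] 100000 0 0 1800000 100000 100000
    100000 100000 0 0 0)

lemma s22_22_9_7_4 {n : ℕ} (hn : 5 ≤ n) : NoNd (d22_22_9_7.R : ℤ) d22_22_9_7.H n d22_22_9_7.a d22_22_9_7.b
    (BlkD.inB (BlkD.upd (BlkD.upd (fun _ => 0) 0 2) 1 6)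
      (BlkD.upd (BlkD.upd (BlkD.upd (BlkD.upd (BlkD.upd (fun _ => 22) 0 9) 2 7) 0 4) 0 2) 1 11)) :=
  BlkD.tree_sound (BlkD.pairOk_sound k22_22_9_7) (by decide) hn t22_22_9_7_4 _ _ (by decide +kernel)

/-- certificates of the pair `(9, 7)`, part 5 -/
def t22_22_9_7_5 : BlkD.Tr :=
  .L 4 4 [4, 22, 22, 22, 22, 22, 22, 22] [] [] 100000 0 0 1800000 100000 100000 100000 100000 0 0 0

lemma s22_22_9_7_5 {n : ℕ} (hn : 5 ≤ n) : NoNd (d22_22_9_7.R : ℤ) d22_22_9_7.H n d22_22_9_7.a d22_22_9_7.b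
    (BlkD.inB (BlkD.upd (BlkD.upd (fun _ => 0) 0 2) 1 12)
      (BlkD.upd (BlkD.upd (BlkD.upd (BlkD.upd (fun _ => 22) 0 9) 2 7) 0 4) 0 2)) :=
  BlkD.tree_sound (BlkD.pairOk_sound k22_22_9_7) (by decide) hn t22_22_9_7_5 _ _ (by decide +kernel)

/-- certificates of the pair `(9, 7)`, part 6 -/
def t22_22_9_7_6 : BlkD.Tr :=
  .L 4 4 [4, 22, 22, 22, 22, 22, 22, 22] [] [] 100000 0 0 1800000 100000 100000 100000 100000 0 0 0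

lemma s22_22_9_7_6 {n : ℕ} (hn : 5 ≤ n) : NoNd (d22_22_9_7.R : ℤ) d22_22_9_7.H n d22_22_9_7.a d22_22_9_7.b
    (BlkD.inB (BlkD.upd (fun _ => 0) 0 3)
      (BlkD.upd (BlkD.upd (BlkD.upd (BlkD.upd (BlkD.upd (BlkD.upd (fun _ => 22) 0 9) 2 7) 0 4) 0 3) 1 11) 1 5)) :=
  BlkD.tree_sound (BlkD.pairOk_sound k22_22_9_7) (by decide) hn t22_22_9_7_6 _ _ (by decide +kernel)

/-- certificates of the pair `(9, 7)`, part 7 -/
def t22_22_9_7_7 : BlkD.Tr :=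
  .S 1 6 (.L 4 4 [4, 22, 22, 22, 22, 22, 22, 22] [142, 138, 134, 120, 100, 84] [] 100000 0 0
    1800000 100000 100000 100000 100000 0 0 0) (.L 4 4 [4, 22, 22, 22, 22, 22, 22, 22] [164, 160,
    156, 152, 138, 118] [] 100000 0 0 1800000 100000 100000 100000 100000 0 0 0)

lemma s22_22_9_7_7 {n : ℕ} (hn : 5 ≤ n) : NoNd (d22_22_9_7.R : ℤ) d22_22_9_7.H n d22_22_9_7.a d22_22_9_7.b
    (BlkD.inB (BlkD.upd (BlkD.upd (fun _ => 0) 0 3) 1 6)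
      (BlkD.upd (BlkD.upd (BlkD.upd (BlkD.upd (BlkD.upd (BlkD.upd (BlkD.upd (fun _ => 22) 0 9) 2 7) 0 4) 0 3) 1 11) 1 8) 1 7)) :=
  BlkD.tree_sound (BlkD.pairOk_sound k22_22_9_7) (by decide) hn t22_22_9_7_7 _ _ (by decide +kernel)

/-- certificates of the pair `(9, 7)`, part 8 -/
def t22_22_9_7_8 : BlkD.Tr :=
  .L 4 4 [4, 22, 22, 22, 22, 22, 22, 22] [186, 184, 180, 176, 172, 158] [] 100000 0 0 1800000
    100000 100000 100000 100000 0 0 0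

lemma s22_22_9_7_8 {n : ℕ} (hn : 5 ≤ n) : NoNd (d22_22_9_7.R : ℤ) d22_22_9_7.H n d22_22_9_7.a d22_22_9_7.b
    (BlkD.inB (BlkD.upd (BlkD.upd (BlkD.upd (fun _ => 0) 0 3) 1 6) 1 8)
      (BlkD.upd (BlkD.upd (BlkD.upd (BlkD.upd (BlkD.upd (BlkD.upd (fun _ => 22) 0 9) 2 7) 0 4) 0 3) 1 11) 1 8)) :=
  BlkD.tree_sound (BlkD.pairOk_sound k22_22_9_7) (by decide) hn t22_22_9_7_8 _ _ (by decide +kernel)

/-- certificates of the pair `(9, 7)`, part 9 -/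
def t22_22_9_7_9 : BlkD.Tr :=
  .S 1 9 (.L 4 4 [4, 22, 22, 22, 22, 22, 22, 22] [208, 208, 206, 202, 198, 194] [] 100000 0 0
    1800000 100000 100000 100000 100000 0 0 0) (.L 4 4 [4, 22, 22, 22, 22, 22, 22, 22] [232, 232,
    232, 230, 226, 222] [] 100000 0 0 1800000 100000 100000 100000 100000 0 0 0)

lemma s22_22_9_7_9 {n : ℕ} (hn : 5 ≤ n) : NoNd (d22_22_9_7.R : ℤ) d22_22_9_7.H n d22_22_9_7.a d22_22_9_7.b
    (BlkD.inB (BlkD.upd (BlkD.upd (BlkD.upd (fun _ => 0) 0 3) 1 6) 1 9)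
      (BlkD.upd (BlkD.upd (BlkD.upd (BlkD.upd (BlkD.upd (BlkD.upd (fun _ => 22) 0 9) 2 7) 0 4) 0 3) 1 11) 1 10)) :=
  BlkD.tree_sound (BlkD.pairOk_sound k22_22_9_7) (by decide) hn t22_22_9_7_9 _ _ (by decide +kernel)

/-- certificates of the pair `(9, 7)`, part 10 -/
def t22_22_9_7_10 : BlkD.Tr :=
  .L 4 4 [4, 22, 22, 22, 22, 22, 22, 22] [258, 258, 258, 258, 256, 252] [] 100000 0 0 1800000
    100000 100000 100000 100000 0 0 0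

lemma s22_22_9_7_10 {n : ℕ} (hn : 5 ≤ n) : NoNd (d22_22_9_7.R : ℤ) d22_22_9_7.H n d22_22_9_7.a d22_22_9_7.b
    (BlkD.inB (BlkD.upd (BlkD.upd (BlkD.upd (BlkD.upd (fun _ => 0) 0 3) 1 6) 1 9) 1 11)
      (BlkD.upd (BlkD.upd (BlkD.upd (BlkD.upd (BlkD.upd (fun _ => 22) 0 9) 2 7) 0 4) 0 3) 1 11)) :=
  BlkD.tree_sound (BlkD.pairOk_sound k22_22_9_7) (by decide) hn t22_22_9_7_10 _ _ (by decide +kernel)

/-- certificates of the pair `(9, 7)`, part 11 -/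
def t22_22_9_7_11 : BlkD.Tr :=
  .L 4 4 [4, 22, 22, 22, 22, 22, 22, 22] [] [] 100000 0 0 1800000 100000 100000 100000 100000 0 0 0

lemma s22_22_9_7_11 {n : ℕ} (hn : 5 ≤ n) : NoNd (d22_22_9_7.R : ℤ) d22_22_9_7.H n d22_22_9_7.a d22_22_9_7.b
    (BlkD.inB (BlkD.upd (BlkD.upd (fun _ => 0) 0 3) 1 12)
      (BlkD.upd (BlkD.upd (BlkD.upd (BlkD.upd (fun _ => 22) 0 9) 2 7) 0 4) 0 3)) :=
  BlkD.tree_sound (BlkD.pairOk_sound k22_22_9_7) (by decide) hn t22_22_9_7_11 _ _ (by decide +kernel)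

/-- certificates of the pair `(9, 7)`, part 12 -/
def t22_22_9_7_12 : BlkD.Tr :=
  .S 1 2 (.L 4 4 [4, 22, 22, 22, 22, 22, 22, 22] [] [] 100000 0 0 1800000 100000 100000 100000
    100000 0 0 0) (.L 4 4 [4, 22, 22, 22, 22, 22, 22, 22] [] [] 100000 0 0 1800000 100000 100000
    100000 100000 0 0 0)

lemma s22_22_9_7_12 {n : ℕ} (hn : 5 ≤ n) : NoNd (d22_22_9_7.R : ℤ) d22_22_9_7.H n d22_22_9_7.a d22_22_9_7.b
    (BlkD.inB (BlkD.upd (BlkD.upd (fun _ => 0) 0 3) 0 4)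
      (BlkD.upd (BlkD.upd (BlkD.upd (BlkD.upd (BlkD.upd (fun _ => 22) 0 9) 2 7) 0 4) 1 11) 1 5)) :=
  BlkD.tree_sound (BlkD.pairOk_sound k22_22_9_7) (by decide) hn t22_22_9_7_12 _ _ (by decide +kernel)

/-- certificates of the pair `(9, 7)`, part 13 -/
def t22_22_9_7_13 : BlkD.Tr :=
  .L 4 4 [4, 22, 22, 22, 22, 22, 22, 22] [154, 150, 146, 132, 112, 96] [] 100000 0 0 1800000 100000
    100000 100000 100000 0 0 0

lemma s22_22_9_7_13 {n : ℕ} (hn : 5 ≤ n) : NoNd (d22_22_9_7.R : ℤ) d22_22_9_7.H n d22_22_9_7.a d22_22_9_7.b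
    (BlkD.inB (BlkD.upd (BlkD.upd (BlkD.upd (fun _ => 0) 0 3) 0 4) 1 6)
      (BlkD.upd (BlkD.upd (BlkD.upd (BlkD.upd (BlkD.upd (BlkD.upd (BlkD.upd (fun _ => 22) 0 9) 2 7) 0 4) 1 11) 1 8) 1 7) 1 6)) :=
  BlkD.tree_sound (BlkD.pairOk_sound k22_22_9_7) (by decide) hn t22_22_9_7_13 _ _ (by decide +kernel)

/-- certificates of the pair `(9, 7)`, part 14 -/
def t22_22_9_7_14 : BlkD.Tr :=
  .S 2 3 (.L 4 4 [4, 22, 22, 22, 22, 22, 22, 22] [178, 174, 170, 166, 152, 132] [] 100000 0 0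
    1800000 100000 100000 100000 100000 0 0 0) (.L 4 4 [4, 22, 22, 22, 22, 22, 22, 22] [178, 174,
    170, 166, 152, 132] [] 100000 0 0 1800000 100000 100000 100000 100000 0 0 0)

lemma s22_22_9_7_14 {n : ℕ} (hn : 5 ≤ n) : NoNd (d22_22_9_7.R : ℤ) d22_22_9_7.H n d22_22_9_7.a d22_22_9_7.b
    (BlkD.inB (BlkD.upd (BlkD.upd (BlkD.upd (BlkD.upd (fun _ => 0) 0 3) 0 4) 1 6) 1 7)
      (BlkD.upd (BlkD.upd (BlkD.upd (BlkD.upd (BlkD.upd (BlkD.upd (fun _ => 22) 0 9) 2 7) 0 4) 1 11) 1 8) 1 7)) :=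
  BlkD.tree_sound (BlkD.pairOk_sound k22_22_9_7) (by decide) hn t22_22_9_7_14 _ _ (by decide +kernel)

/-- certificates of the pair `(9, 7)`, part 15 -/
def t22_22_9_7_15 : BlkD.Tr :=
  .S 2 3 (.L 4 4 [4, 22, 22, 22, 22, 22, 22, 22] [202, 200, 196, 192, 188, 174] [] 100000 0 0
    1800000 100000 100000 100000 100000 0 0 0) (.L 4 4 [4, 22, 22, 22, 22, 22, 22, 22] [202, 200,
    196, 192, 188, 174] [] 100000 0 0 1800000 100000 100000 100000 100000 0 0 0)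

lemma s22_22_9_7_15 {n : ℕ} (hn : 5 ≤ n) : NoNd (d22_22_9_7.R : ℤ) d22_22_9_7.H n d22_22_9_7.a d22_22_9_7.b
    (BlkD.inB (BlkD.upd (BlkD.upd (BlkD.upd (BlkD.upd (fun _ => 0) 0 3) 0 4) 1 6) 1 8)
      (BlkD.upd (BlkD.upd (BlkD.upd (BlkD.upd (BlkD.upd (fun _ => 22) 0 9) 2 7) 0 4) 1 11) 1 8)) :=
  BlkD.tree_sound (BlkD.pairOk_sound k22_22_9_7) (by decide) hn t22_22_9_7_15 _ _ (by decide +kernel)

/-- certificates of the pair `(9, 7)`, part 16 -/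
def t22_22_9_7_16 : BlkD.Tr :=
  .S 2 3 (.S 2 1 (.L 4 4 [4, 22, 22, 22, 22, 22, 22, 22] [226, 226, 224, 220, 216, 212] [] 100000 0
    0 1800000 100000 100000 100000 100000 0 0 0) (.S 2 2 (.L 4 4 [4, 22, 22, 22, 22, 22, 22, 22]
    [226, 226, 224, 220, 216, 212] [] 100000 0 0 1800000 100000 100000 100000 100000 0 0 0) (.L 4 4
    [4, 22, 22, 22, 22, 22, 22, 22] [226, 226, 224, 220, 216, 212] [] 100000 0 0 1800000 100000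
    100000 100000 100000 0 0 0))) (.L 4 4 [4, 22, 22, 22, 22, 22, 22, 22] [226, 226, 224, 220, 216,
    212] [] 100000 0 0 1800000 100000 100000 100000 100000 0 0 0)

lemma s22_22_9_7_16 {n : ℕ} (hn : 5 ≤ n) : NoNd (d22_22_9_7.R : ℤ) d22_22_9_7.H n d22_22_9_7.a d22_22_9_7.b
    (BlkD.inB (BlkD.upd (BlkD.upd (BlkD.upd (BlkD.upd (fun _ => 0) 0 3) 0 4) 1 6) 1 9)
      (BlkD.upd (BlkD.upd (BlkD.upd (BlkD.upd (BlkD.upd (BlkD.upd (fun _ => 22) 0 9) 2 7) 0 4) 1 11) 1 10) 1 9)) :=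
  BlkD.tree_sound (BlkD.pairOk_sound k22_22_9_7) (by decide) hn t22_22_9_7_16 _ _ (by decide +kernel)

/-- certificates of the pair `(9, 7)`, part 17 -/
def t22_22_9_7_17 : BlkD.Tr :=
  .S 2 3 (.L 4 4 [4, 22, 22, 22, 22, 22, 22, 22] [252, 252, 252, 250, 246, 242] [] 100000 0 0
    1800000 100000 100000 100000 100000 0 0 0) (.L 4 4 [4, 22, 22, 22, 22, 22, 22, 22] [252, 252,
    252, 250, 246, 242] [] 100000 0 0 1800000 100000 100000 100000 100000 0 0 0)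

lemma s22_22_9_7_17 {n : ℕ} (hn : 5 ≤ n) : NoNd (d22_22_9_7.R : ℤ) d22_22_9_7.H n d22_22_9_7.a d22_22_9_7.b
    (BlkD.inB (BlkD.upd (BlkD.upd (BlkD.upd (BlkD.upd (BlkD.upd (fun _ => 0) 0 3) 0 4) 1 6) 1 9) 1 10)
      (BlkD.upd (BlkD.upd (BlkD.upd (BlkD.upd (BlkD.upd (fun _ => 22) 0 9) 2 7) 0 4) 1 11) 1 10)) :=
  BlkD.tree_sound (BlkD.pairOk_sound k22_22_9_7) (by decide) hn t22_22_9_7_17 _ _ (by decide +kernel)

/-- certificates of the pair `(9, 7)`, part 18 -/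
def t22_22_9_7_18 : BlkD.Tr :=
  .L 4 4 [4, 22, 22, 22, 22, 22, 22, 22] [280, 280, 280, 280, 278, 274] [] 100000 0 0 1800000
    100000 100000 100000 100000 0 0 0

lemma s22_22_9_7_18 {n : ℕ} (hn : 5 ≤ n) : NoNd (d22_22_9_7.R : ℤ) d22_22_9_7.H n d22_22_9_7.a d22_22_9_7.b
    (BlkD.inB (BlkD.upd (BlkD.upd (BlkD.upd (BlkD.upd (BlkD.upd (fun _ => 0) 0 3) 0 4) 1 6) 1 9) 1 11)
      (BlkD.upd (BlkD.upd (BlkD.upd (BlkD.upd (fun _ => 22) 0 9) 2 7) 0 4) 1 11)) :=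
  BlkD.tree_sound (BlkD.pairOk_sound k22_22_9_7) (by decide) hn t22_22_9_7_18 _ _ (by decide +kernel)

/-- certificates of the pair `(9, 7)`, part 19 -/
def t22_22_9_7_19 : BlkD.Tr :=
  .L 4 4 [4, 22, 22, 22, 22, 22, 22, 22] [] [] 100000 0 0 1800000 100000 100000 100000 100000 0 0 0

lemma s22_22_9_7_19 {n : ℕ} (hn : 5 ≤ n) : NoNd (d22_22_9_7.R : ℤ) d22_22_9_7.H n d22_22_9_7.a d22_22_9_7.b
    (BlkD.inB (BlkD.upd (BlkD.upd (BlkD.upd (fun _ => 0) 0 3) 0 4) 1 12)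
      (BlkD.upd (BlkD.upd (BlkD.upd (fun _ => 22) 0 9) 2 7) 0 4)) :=
  BlkD.tree_sound (BlkD.pairOk_sound k22_22_9_7) (by decide) hn t22_22_9_7_19 _ _ (by decide +kernel)

/-- certificates of the pair `(9, 7)`, part 20 -/
def t22_22_9_7_20 : BlkD.Tr :=
  .S 1 2 (.L 4 4 [4, 22, 22, 22, 22, 22, 22, 22] [] [] 100000 0 0 1800000 100000 100000 100000
    100000 0 0 0) (.S 1 4 (.L 4 4 [4, 22, 22, 22, 22, 22, 22, 22] [] [] 100000 0 0 1800000 100000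
    100000 100000 100000 0 0 0) (.L 4 4 [4, 22, 22, 22, 22, 22, 22, 22] [142, 138, 124, 104, 88,
    70] [] 100000 0 0 1800000 100000 100000 100000 100000 0 0 0))

lemma s22_22_9_7_20 {n : ℕ} (hn : 5 ≤ n) : NoNd (d22_22_9_7.R : ℤ) d22_22_9_7.H n d22_22_9_7.a d22_22_9_7.b
    (BlkD.inB (BlkD.upd (fun _ => 0) 0 5)
      (BlkD.upd (BlkD.upd (BlkD.upd (BlkD.upd (BlkD.upd (BlkD.upd (BlkD.upd (fun _ => 22) 0 9) 2 7) 0 7) 0 6) 0 5) 1 11) 1 5)) :=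
  BlkD.tree_sound (BlkD.pairOk_sound k22_22_9_7) (by decide) hn t22_22_9_7_20 _ _ (by decide +kernel)

/-- certificates of the pair `(9, 7)`, part 21 -/
def t22_22_9_7_21 : BlkD.Tr :=
  .S 2 3 (.L 4 4 [4, 22, 22, 22, 22, 22, 22, 22] [166, 162, 158, 144, 124, 108] [] 100000 0 0
    1800000 100000 100000 100000 100000 0 0 0) (.L 4 4 [4, 22, 22, 22, 22, 22, 22, 22] [166, 162,
    158, 144, 124, 108] [] 100000 0 0 1800000 100000 100000 100000 100000 0 0 0)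

lemma s22_22_9_7_21 {n : ℕ} (hn : 5 ≤ n) : NoNd (d22_22_9_7.R : ℤ) d22_22_9_7.H n d22_22_9_7.a d22_22_9_7.b
    (BlkD.inB (BlkD.upd (BlkD.upd (fun _ => 0) 0 5) 1 6)
      (BlkD.upd (BlkD.upd (BlkD.upd (BlkD.upd (BlkD.upd (BlkD.upd (BlkD.upd (BlkD.upd (BlkD.upd (fun _ => 22) 0 9) 2 7) 0 7) 0 6) 0 5) 1 11) 1 8) 1 7) 1 6)) :=
  BlkD.tree_sound (BlkD.pairOk_sound k22_22_9_7) (by decide) hn t22_22_9_7_21 _ _ (by decide +kernel)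

/-- certificates of the pair `(9, 7)`, part 22 -/
def t22_22_9_7_22 : BlkD.Tr :=
  .S 2 3 (.L 4 4 [4, 22, 22, 22, 22, 22, 22, 22] [192, 188, 184, 180, 166, 146] [] 100000 0 0
    1800000 100000 100000 100000 100000 0 0 0) (.L 4 4 [4, 22, 22, 22, 22, 22, 22, 22] [192, 188,
    184, 180, 166, 146] [] 100000 0 0 1800000 100000 100000 100000 100000 0 0 0)

lemma s22_22_9_7_22 {n : ℕ} (hn : 5 ≤ n) : NoNd (d22_22_9_7.R : ℤ) d22_22_9_7.H n d22_22_9_7.a d22_22_9_7.b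
    (BlkD.inB (BlkD.upd (BlkD.upd (BlkD.upd (fun _ => 0) 0 5) 1 6) 1 7)
      (BlkD.upd (BlkD.upd (BlkD.upd (BlkD.upd (BlkD.upd (BlkD.upd (BlkD.upd (BlkD.upd (fun _ => 22) 0 9) 2 7) 0 7) 0 6) 0 5) 1 11) 1 8) 1 7)) :=
  BlkD.tree_sound (BlkD.pairOk_sound k22_22_9_7) (by decide) hn t22_22_9_7_22 _ _ (by decide +kernel)

/-- certificates of the pair `(9, 7)`, part 23 -/
def t22_22_9_7_23 : BlkD.Tr :=
  .S 2 3 (.S 2 1 (.L 4 4 [4, 22, 22, 22, 22, 22, 22, 22] [218, 216, 212, 208, 204, 190] [] 100000 0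
    0 1800000 100000 100000 100000 100000 0 0 0) (.L 4 4 [4, 22, 22, 22, 22, 22, 22, 22] [218, 216,
    212, 208, 204, 190] [] 100000 0 0 1800000 100000 100000 100000 100000 0 0 0)) (.L 4 4 [4, 22,
    22, 22, 22, 22, 22, 22] [218, 216, 212, 208, 204, 190] [] 100000 0 0 1800000 100000 100000
    100000 100000 0 0 0)

lemma s22_22_9_7_23 {n : ℕ} (hn : 5 ≤ n) : NoNd (d22_22_9_7.R : ℤ) d22_22_9_7.H n d22_22_9_7.a d22_22_9_7.b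
    (BlkD.inB (BlkD.upd (BlkD.upd (BlkD.upd (fun _ => 0) 0 5) 1 6) 1 8)
      (BlkD.upd (BlkD.upd (BlkD.upd (BlkD.upd (BlkD.upd (BlkD.upd (BlkD.upd (fun _ => 22) 0 9) 2 7) 0 7) 0 6) 0 5) 1 11) 1 8)) :=
  BlkD.tree_sound (BlkD.pairOk_sound k22_22_9_7) (by decide) hn t22_22_9_7_23 _ _ (by decide +kernel)

/-- certificates of the pair `(9, 7)`, part 24 -/
def t22_22_9_7_24 : BlkD.Tr :=
  .S 2 3 (.L 4 4 [4, 22, 22, 22, 22, 22, 22, 22] [244, 244, 242, 238, 234, 230] [] 100000 0 0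
    1800000 100000 100000 100000 100000 0 0 0) (.L 4 4 [4, 22, 22, 22, 22, 22, 22, 22] [244, 244,
    242, 238, 234, 230] [] 100000 0 0 1800000 100000 100000 100000 100000 0 0 0)

lemma s22_22_9_7_24 {n : ℕ} (hn : 5 ≤ n) : NoNd (d22_22_9_7.R : ℤ) d22_22_9_7.H n d22_22_9_7.a d22_22_9_7.b
    (BlkD.inB (BlkD.upd (BlkD.upd (BlkD.upd (fun _ => 0) 0 5) 1 6) 1 9)
      (BlkD.upd (BlkD.upd (BlkD.upd (BlkD.upd (BlkD.upd (BlkD.upd (BlkD.upd (BlkD.upd (fun _ => 22) 0 9) 2 7) 0 7) 0 6) 0 5) 1 11) 1 10) 1 9)) :=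
  BlkD.tree_sound (BlkD.pairOk_sound k22_22_9_7) (by decide) hn t22_22_9_7_24 _ _ (by decide +kernel)

/-- certificates of the pair `(9, 7)`, part 25 -/
def t22_22_9_7_25 : BlkD.Tr :=
  .L 4 4 [4, 22, 22, 22, 22, 22, 22, 22] [272, 272, 272, 270, 266, 262] [] 100000 0 0 1800000
    100000 100000 100000 100000 0 0 0

lemma s22_22_9_7_25 {n : ℕ} (hn : 5 ≤ n) : NoNd (d22_22_9_7.R : ℤ) d22_22_9_7.H n d22_22_9_7.a d22_22_9_7.b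
    (BlkD.inB (BlkD.upd (BlkD.upd (BlkD.upd (BlkD.upd (fun _ => 0) 0 5) 1 6) 1 9) 1 10)
      (BlkD.upd (BlkD.upd (BlkD.upd (BlkD.upd (BlkD.upd (BlkD.upd (BlkD.upd (fun _ => 22) 0 9) 2 7) 0 7) 0 6) 0 5) 1 11) 1 10)) :=
  BlkD.tree_sound (BlkD.pairOk_sound k22_22_9_7) (by decide) hn t22_22_9_7_25 _ _ (by decide +kernel)

/-- certificates of the pair `(9, 7)`, part 26 -/
def t22_22_9_7_26 : BlkD.Tr :=
  .L 4 4 [4, 22, 22, 22, 22, 22, 22, 22] [302, 302, 302, 302, 300, 296] [] 100000 0 0 1800000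
    100000 100000 100000 100000 0 0 0

lemma s22_22_9_7_26 {n : ℕ} (hn : 5 ≤ n) : NoNd (d22_22_9_7.R : ℤ) d22_22_9_7.H n d22_22_9_7.a d22_22_9_7.b
    (BlkD.inB (BlkD.upd (BlkD.upd (BlkD.upd (BlkD.upd (fun _ => 0) 0 5) 1 6) 1 9) 1 11)
      (BlkD.upd (BlkD.upd (BlkD.upd (BlkD.upd (BlkD.upd (BlkD.upd (fun _ => 22) 0 9) 2 7) 0 7) 0 6) 0 5) 1 11)) :=
  BlkD.tree_sound (BlkD.pairOk_sound k22_22_9_7) (by decide) hn t22_22_9_7_26 _ _ (by decide +kernel)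

/-- certificates of the pair `(9, 7)`, part 27 -/
def t22_22_9_7_27 : BlkD.Tr :=
  .L 4 4 [4, 22, 22, 22, 22, 22, 22, 22] [] [] 100000 0 0 1800000 100000 100000 100000 100000 0 0 0

lemma s22_22_9_7_27 {n : ℕ} (hn : 5 ≤ n) : NoNd (d22_22_9_7.R : ℤ) d22_22_9_7.H n d22_22_9_7.a d22_22_9_7.b
    (BlkD.inB (BlkD.upd (BlkD.upd (fun _ => 0) 0 5) 1 12)
      (BlkD.upd (BlkD.upd (BlkD.upd (BlkD.upd (BlkD.upd (fun _ => 22) 0 9) 2 7) 0 7) 0 6) 0 5)) :=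
  BlkD.tree_sound (BlkD.pairOk_sound k22_22_9_7) (by decide) hn t22_22_9_7_27 _ _ (by decide +kernel)

/-- certificates of the pair `(9, 7)`, part 28 -/
def t22_22_9_7_28 : BlkD.Tr :=
  .L 4 4 [4, 22, 22, 22, 22, 22, 22, 22] [] [] 100000 0 0 1800000 100000 100000 100000 100000 0 0 0

lemma s22_22_9_7_28 {n : ℕ} (hn : 5 ≤ n) : NoNd (d22_22_9_7.R : ℤ) d22_22_9_7.H n d22_22_9_7.a d22_22_9_7.b
    (BlkD.inB (BlkD.upd (BlkD.upd (fun _ => 0) 0 5) 0 6)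
      (BlkD.upd (BlkD.upd (BlkD.upd (BlkD.upd (BlkD.upd (BlkD.upd (BlkD.upd (fun _ => 22) 0 9) 2 7) 0 7) 0 6) 1 11) 1 5) 1 2)) :=
  BlkD.tree_sound (BlkD.pairOk_sound k22_22_9_7) (by decide) hn t22_22_9_7_28 _ _ (by decide +kernel)

/-- certificates of the pair `(9, 7)`, part 29 -/
def t22_22_9_7_29 : BlkD.Tr :=
  .S 1 4 (.L 4 4 [4, 22, 22, 22, 22, 22, 22, 22] [] [] 100000 0 0 1800000 100000 100000 100000
    100000 0 0 0) (.L 4 4 [4, 22, 22, 22, 22, 22, 22, 22] [152, 148, 134, 114, 98, 80] [] 100000 0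
    0 1800000 100000 100000 100000 100000 0 0 0)

lemma s22_22_9_7_29 {n : ℕ} (hn : 5 ≤ n) : NoNd (d22_22_9_7.R : ℤ) d22_22_9_7.H n d22_22_9_7.a d22_22_9_7.b
    (BlkD.inB (BlkD.upd (BlkD.upd (BlkD.upd (fun _ => 0) 0 5) 0 6) 1 3)
      (BlkD.upd (BlkD.upd (BlkD.upd (BlkD.upd (BlkD.upd (BlkD.upd (fun _ => 22) 0 9) 2 7) 0 7) 0 6) 1 11) 1 5)) :=
  BlkD.tree_sound (BlkD.pairOk_sound k22_22_9_7) (by decide) hn t22_22_9_7_29 _ _ (by decide +kernel)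

/-- certificates of the pair `(9, 7)`, part 30 -/
def t22_22_9_7_30 : BlkD.Tr :=
  .L 4 4 [4, 22, 22, 22, 22, 22, 22, 22] [178, 174, 170, 156, 136, 120] [] 100000 0 0 1800000
    100000 100000 100000 100000 0 0 0

lemma s22_22_9_7_30 {n : ℕ} (hn : 5 ≤ n) : NoNd (d22_22_9_7.R : ℤ) d22_22_9_7.H n d22_22_9_7.a d22_22_9_7.b
    (BlkD.inB (BlkD.upd (BlkD.upd (BlkD.upd (fun _ => 0) 0 5) 0 6) 1 6)
      (BlkD.upd (BlkD.upd (BlkD.upd (BlkD.upd (BlkD.upd (BlkD.upd (BlkD.upd (BlkD.upd (fun _ => 22) 0 9) 2 7) 0 7) 0 6) 1 11) 1 8) 1 7) 1 6)) :=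
  BlkD.tree_sound (BlkD.pairOk_sound k22_22_9_7) (by decide) hn t22_22_9_7_30 _ _ (by decide +kernel)

/-- certificates of the pair `(9, 7)`, part 31 -/
def t22_22_9_7_31 : BlkD.Tr :=
  .L 4 4 [4, 22, 22, 22, 22, 22, 22, 22] [206, 202, 198, 194, 180, 160] [] 100000 0 0 1800000
    100000 100000 100000 100000 0 0 0

lemma s22_22_9_7_31 {n : ℕ} (hn : 5 ≤ n) : NoNd (d22_22_9_7.R : ℤ) d22_22_9_7.H n d22_22_9_7.a d22_22_9_7.b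
    (BlkD.inB (BlkD.upd (BlkD.upd (BlkD.upd (BlkD.upd (fun _ => 0) 0 5) 0 6) 1 6) 1 7)
      (BlkD.upd (BlkD.upd (BlkD.upd (BlkD.upd (BlkD.upd (BlkD.upd (BlkD.upd (fun _ => 22) 0 9) 2 7) 0 7) 0 6) 1 11) 1 8) 1 7)) :=
  BlkD.tree_sound (BlkD.pairOk_sound k22_22_9_7) (by decide) hn t22_22_9_7_31 _ _ (by decide +kernel)

/-- certificates of the pair `(9, 7)`, part 32 -/
def t22_22_9_7_32 : BlkD.Tr :=
  .L 4 4 [4, 22, 22, 22, 22, 22, 22, 22] [234, 232, 228, 224, 220, 206] [] 100000 0 0 1800000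
    100000 100000 100000 100000 0 0 0

lemma s22_22_9_7_32 {n : ℕ} (hn : 5 ≤ n) : NoNd (d22_22_9_7.R : ℤ) d22_22_9_7.H n d22_22_9_7.a d22_22_9_7.b
    (BlkD.inB (BlkD.upd (BlkD.upd (BlkD.upd (BlkD.upd (fun _ => 0) 0 5) 0 6) 1 6) 1 8)
      (BlkD.upd (BlkD.upd (BlkD.upd (BlkD.upd (BlkD.upd (BlkD.upd (fun _ => 22) 0 9) 2 7) 0 7) 0 6) 1 11) 1 8)) :=
  BlkD.tree_sound (BlkD.pairOk_sound k22_22_9_7) (by decide) hn t22_22_9_7_32 _ _ (by decide +kernel)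

/-- certificates of the pair `(9, 7)`, part 33 -/
def t22_22_9_7_33 : BlkD.Tr :=
  .S 1 10 (.L 4 4 [4, 22, 22, 22, 22, 22, 22, 22] [] [] 100000 0 0 1800000 100000 100000 100000
    100000 0 0 0) (.L 4 4 [4, 22, 22, 22, 22, 22, 22, 22] [324, 324, 324, 324, 322, 318] [] 100000
    0 0 1800000 100000 100000 100000 100000 0 0 0)

lemma s22_22_9_7_33 {n : ℕ} (hn : 5 ≤ n) : NoNd (d22_22_9_7.R : ℤ) d22_22_9_7.H n d22_22_9_7.a d22_22_9_7.b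
    (BlkD.inB (BlkD.upd (BlkD.upd (BlkD.upd (BlkD.upd (fun _ => 0) 0 5) 0 6) 1 6) 1 9)
      (BlkD.upd (BlkD.upd (BlkD.upd (BlkD.upd (BlkD.upd (fun _ => 22) 0 9) 2 7) 0 7) 0 6) 1 11)) :=
  BlkD.tree_sound (BlkD.pairOk_sound k22_22_9_7) (by decide) hn t22_22_9_7_33 _ _ (by decide +kernel)

/-- certificates of the pair `(9, 7)`, part 34 -/
def t22_22_9_7_34 : BlkD.Tr :=
  .L 4 4 [4, 22, 22, 22, 22, 22, 22, 22] [] [] 100000 0 0 1800000 100000 100000 100000 100000 0 0 0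

lemma s22_22_9_7_34 {n : ℕ} (hn : 5 ≤ n) : NoNd (d22_22_9_7.R : ℤ) d22_22_9_7.H n d22_22_9_7.a d22_22_9_7.b
    (BlkD.inB (BlkD.upd (BlkD.upd (BlkD.upd (fun _ => 0) 0 5) 0 6) 1 12)
      (BlkD.upd (BlkD.upd (BlkD.upd (BlkD.upd (fun _ => 22) 0 9) 2 7) 0 7) 0 6)) :=
  BlkD.tree_sound (BlkD.pairOk_sound k22_22_9_7) (by decide) hn t22_22_9_7_34 _ _ (by decide +kernel)

/-- certificates of the pair `(9, 7)`, part 35 -/
def t22_22_9_7_35 : BlkD.Tr :=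
  .L 4 4 [4, 22, 22, 22, 22, 22, 22, 22] [] [] 100000 0 0 1800000 100000 100000 100000 100000 0 0 0

lemma s22_22_9_7_35 {n : ℕ} (hn : 5 ≤ n) : NoNd (d22_22_9_7.R : ℤ) d22_22_9_7.H n d22_22_9_7.a d22_22_9_7.b
    (BlkD.inB (BlkD.upd (BlkD.upd (fun _ => 0) 0 5) 0 7)
      (BlkD.upd (BlkD.upd (BlkD.upd (BlkD.upd (BlkD.upd (BlkD.upd (fun _ => 22) 0 9) 2 7) 0 7) 1 11) 1 5) 1 2)) :=
  BlkD.tree_sound (BlkD.pairOk_sound k22_22_9_7) (by decide) hn t22_22_9_7_35 _ _ (by decide +kernel)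

/-- certificates of the pair `(9, 7)`, part 36 -/
def t22_22_9_7_36 : BlkD.Tr :=
  .S 1 4 (.L 4 4 [4, 22, 22, 22, 22, 22, 22, 22] [] [] 100000 0 0 1800000 100000 100000 100000
    100000 0 0 0) (.L 4 4 [4, 22, 22, 22, 22, 22, 22, 22] [162, 158, 144, 124, 108, 90] [] 100000 0
    0 1800000 100000 100000 100000 100000 0 0 0)

lemma s22_22_9_7_36 {n : ℕ} (hn : 5 ≤ n) : NoNd (d22_22_9_7.R : ℤ) d22_22_9_7.H n d22_22_9_7.a d22_22_9_7.b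
    (BlkD.inB (BlkD.upd (BlkD.upd (BlkD.upd (fun _ => 0) 0 5) 0 7) 1 3)
      (BlkD.upd (BlkD.upd (BlkD.upd (BlkD.upd (BlkD.upd (fun _ => 22) 0 9) 2 7) 0 7) 1 11) 1 5)) :=
  BlkD.tree_sound (BlkD.pairOk_sound k22_22_9_7) (by decide) hn t22_22_9_7_36 _ _ (by decide +kernel)

/-- certificates of the pair `(9, 7)`, part 37 -/
def t22_22_9_7_37 : BlkD.Tr :=
  .S 1 8 (.S 1 7 (.L 4 4 [4, 22, 22, 22, 22, 22, 22, 22] [] [] 100000 0 0 1800000 100000 100000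
    100000 100000 0 0 0) (.L 4 4 [4, 22, 22, 22, 22, 22, 22, 22] [250, 248, 244, 240, 236, 222] []
    100000 0 0 1800000 100000 100000 100000 100000 0 0 0)) (.L 4 4 [4, 22, 22, 22, 22, 22, 22, 22]
    [] [] 100000 0 0 1800000 100000 100000 100000 100000 0 0 0)

lemma s22_22_9_7_37 {n : ℕ} (hn : 5 ≤ n) : NoNd (d22_22_9_7.R : ℤ) d22_22_9_7.H n d22_22_9_7.a d22_22_9_7.b
    (BlkD.inB (BlkD.upd (BlkD.upd (BlkD.upd (fun _ => 0) 0 5) 0 7) 1 6)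
      (BlkD.upd (BlkD.upd (BlkD.upd (BlkD.upd (fun _ => 22) 0 9) 2 7) 0 7) 1 11)) :=
  BlkD.tree_sound (BlkD.pairOk_sound k22_22_9_7) (by decide) hn t22_22_9_7_37 _ _ (by decide +kernel)

/-- certificates of the pair `(9, 7)`, part 38 -/
def t22_22_9_7_38 : BlkD.Tr :=
  .L 4 4 [4, 22, 22, 22, 22, 22, 22, 22] [] [] 100000 0 0 1800000 100000 100000 100000 100000 0 0 0

lemma s22_22_9_7_38 {n : ℕ} (hn : 5 ≤ n) : NoNd (d22_22_9_7.R : ℤ) d22_22_9_7.H n d22_22_9_7.a d22_22_9_7.b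
    (BlkD.inB (BlkD.upd (BlkD.upd (BlkD.upd (fun _ => 0) 0 5) 0 7) 1 12)
      (BlkD.upd (BlkD.upd (BlkD.upd (fun _ => 22) 0 9) 2 7) 0 7)) :=
  BlkD.tree_sound (BlkD.pairOk_sound k22_22_9_7) (by decide) hn t22_22_9_7_38 _ _ (by decide +kernel)

/-- certificates of the pair `(9, 7)`, part 39 -/
def t22_22_9_7_39 : BlkD.Tr :=
  .S 0 8 (.S 1 11 (.S 1 5 (.L 4 4 [4, 22, 22, 22, 22, 22, 22, 22] [] [] 100000 0 0 1800000 100000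
    100000 100000 100000 0 0 0) (.L 4 4 [4, 22, 22, 22, 22, 22, 22, 22] [] [] 100000 0 0 1800000
    100000 100000 100000 100000 0 0 0)) (.L 4 4 [4, 22, 22, 22, 22, 22, 22, 22] [] [] 100000 0 0
    1800000 100000 100000 100000 100000 0 0 0)) (.L 4 4 [4, 22, 22, 22, 22, 22, 22, 22] [] []
    100000 0 0 1800000 100000 100000 100000 100000 0 0 0)

lemma s22_22_9_7_39 {n : ℕ} (hn : 5 ≤ n) : NoNd (d22_22_9_7.R : ℤ) d22_22_9_7.H n d22_22_9_7.a d22_22_9_7.b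
    (BlkD.inB (BlkD.upd (BlkD.upd (fun _ => 0) 0 5) 0 8)
      (BlkD.upd (BlkD.upd (fun _ => 22) 0 9) 2 7)) :=
  BlkD.tree_sound (BlkD.pairOk_sound k22_22_9_7) (by decide) hn t22_22_9_7_39 _ _ (by decide +kernel)

/-- certificates of the pair `(9, 7)`, part 40 -/
def t22_22_9_7_40 : BlkD.Tr :=
  .E 1

lemma s22_22_9_7_40 {n : ℕ} (hn : 5 ≤ n) : NoNd (d22_22_9_7.R : ℤ) d22_22_9_7.H n d22_22_9_7.a d22_22_9_7.b
    (BlkD.inB (BlkD.upd (fun _ => 0) 2 8)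
      (BlkD.upd (fun _ => 22) 0 9)) :=
  BlkD.tree_sound (BlkD.pairOk_sound k22_22_9_7) (by decide) hn t22_22_9_7_40 _ _ (by decide +kernel)

/-- certificates of the pair `(9, 7)`, part 41 -/
def t22_22_9_7_41 : BlkD.Tr :=
  .E 0

lemma s22_22_9_7_41 {n : ℕ} (hn : 5 ≤ n) : NoNd (d22_22_9_7.R : ℤ) d22_22_9_7.H n d22_22_9_7.a d22_22_9_7.b
    (BlkD.inB (BlkD.upd (fun _ => 0) 0 10)
      (fun _ => 22)) :=
  BlkD.tree_sound (BlkD.pairOk_sound k22_22_9_7) (by decide) hn t22_22_9_7_41 _ _ (by decide +kernel)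

lemma pr22_22_9_7 {n : ℕ} (hn : 5 ≤ n) : NoPr ((22 : ℕ) : ℤ) ((22 : ℕ) : ℤ) n 9 7 :=
  BlkD.of_root (R := d22_22_9_7.R) (H := d22_22_9_7.H) (a := d22_22_9_7.a) (b := d22_22_9_7.b) (q := 3) (by decide) hn
    (BlkD.sp 0 9 (BlkD.sp 2 7 (BlkD.sp 0 4 (BlkD.sp 0 2 (BlkD.sp 0 1 (BlkD.sp 0 0 (s22_22_9_7_1 hn)
      (s22_22_9_7_2 hn)) (BlkD.sp 1 11 (BlkD.sp 1 5 (s22_22_9_7_3 hn) (s22_22_9_7_4 hn))
      (s22_22_9_7_5 hn))) (BlkD.sp 0 3 (BlkD.sp 1 11 (BlkD.sp 1 5 (s22_22_9_7_6 hn) (BlkD.sp 1 8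
      (BlkD.sp 1 7 (s22_22_9_7_7 hn) (s22_22_9_7_8 hn)) (BlkD.sp 1 10 (s22_22_9_7_9 hn)
      (s22_22_9_7_10 hn)))) (s22_22_9_7_11 hn)) (BlkD.sp 1 11 (BlkD.sp 1 5 (s22_22_9_7_12 hn)
      (BlkD.sp 1 8 (BlkD.sp 1 7 (BlkD.sp 1 6 (s22_22_9_7_13 hn) (s22_22_9_7_14 hn)) (s22_22_9_7_15
      hn)) (BlkD.sp 1 10 (BlkD.sp 1 9 (s22_22_9_7_16 hn) (s22_22_9_7_17 hn)) (s22_22_9_7_18 hn))))
      (s22_22_9_7_19 hn)))) (BlkD.sp 0 7 (BlkD.sp 0 6 (BlkD.sp 0 5 (BlkD.sp 1 11 (BlkD.sp 1 5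
      (s22_22_9_7_20 hn) (BlkD.sp 1 8 (BlkD.sp 1 7 (BlkD.sp 1 6 (s22_22_9_7_21 hn) (s22_22_9_7_22
      hn)) (s22_22_9_7_23 hn)) (BlkD.sp 1 10 (BlkD.sp 1 9 (s22_22_9_7_24 hn) (s22_22_9_7_25 hn))
      (s22_22_9_7_26 hn)))) (s22_22_9_7_27 hn)) (BlkD.sp 1 11 (BlkD.sp 1 5 (BlkD.sp 1 2
      (s22_22_9_7_28 hn) (s22_22_9_7_29 hn)) (BlkD.sp 1 8 (BlkD.sp 1 7 (BlkD.sp 1 6 (s22_22_9_7_30
      hn) (s22_22_9_7_31 hn)) (s22_22_9_7_32 hn)) (s22_22_9_7_33 hn))) (s22_22_9_7_34 hn)))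
      (BlkD.sp 1 11 (BlkD.sp 1 5 (BlkD.sp 1 2 (s22_22_9_7_35 hn) (s22_22_9_7_36 hn)) (s22_22_9_7_37
      hn)) (s22_22_9_7_38 hn))) (s22_22_9_7_39 hn))) (s22_22_9_7_40 hn)) (s22_22_9_7_41 hn))

end BlkC

end Pool.Agent.Lib.MP_f04ccf_co
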