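import Pool.Agent.Lib.MP_f04ccf_co.M.BlkT

/-!
MP_f04ccf_co, block certificate, data `R = 22`, `H = 22`, part 18 (generated, helper99:
bd10.cpp, gen2.py).
-/

set_option autoImplicit false
set_option maxRecDepth 100000

namespace Pool.Agent.Lib.MP_f04ccf_co

namespace BlkC

/-- the numbers of the pair `(10, 0)`, `R = 22`, `H = 22` -/
def d22_22_10_0 : BlkD.Pd :=
  ⟨22, 22, 3, 10, 0, 9, 0, 1, 0, 4, 4, 0, 0, 4, 4, 0, [0, 4, 8, 12, 16, 20, 24, 28, 32, 36], [0, 4,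
    8, 12, 16, 20, 24, 28, 32, 36], [⟨1, 1, 1, 4, 8, [0, 4], [0, 4]⟩]⟩

/-- the certificates of the pair `(10, 0)` -/
def t22_22_10_0 : BlkD.Tr :=
  .S 0 10 (.S 2 0 (.S 0 5 (.S 0 2 (.L 4 4 [4] [] [] 100000 0 0 1150000 50000 0 100000 0 0 0 0) (.L
    4 4 [4] [] [] 100000 0 0 1150000 50000 0 100000 0 0 0 0)) (.L 4 4 [4] [] [] 100000 0 0 1150000
    50000 0 100000 0 0 0 0)) (.E 1)) (.E 0)

lemma pr22_22_10_0 {n : ℕ} (hn : 5 ≤ n) : NoPr ((22 : ℕ) : ℤ) ((22 : ℕ) : ℤ) n 10 0 :=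
  BlkD.pair_sound (d := d22_22_10_0) (by decide +kernel) hn (by decide) (tr := t22_22_10_0)
    (by decide +kernel) rfl rfl rfl rfl

/-- the numbers of the pair `(10, 1)`, `R = 22`, `H = 22` -/
def d22_22_10_1 : BlkD.Pd :=
  ⟨22, 22, 3, 10, 1, 8, 1, 1, 0, 4, 8, 0, 0, 4, 4, 0, [0, 8, 16, 24, 32, 32, 32, 32, 32], [0, 4, 8,
    12, 16, 20, 24, 28, 32], [⟨1, 1, 1, 4, 8, [0, 4], [0, 4]⟩, ⟨1, 1, 1, 4, 12, [0, 8], [0, 4]⟩]⟩

lemma k22_22_10_1 : BlkD.pairOk d22_22_10_1 = true := by decide +kernel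

/-- certificates of the pair `(10, 1)`, part 1 -/
def t22_22_10_1_1 : BlkD.Tr :=
  .S 0 1 (.L 4 6 [4, 4] [] [] 100000 0 0 1265217 56522 0 78261 0 0 0 0) (.L 4 6 [4, 4] [] [] 100000
    0 0 1265217 56522 0 78261 0 0 0 0)

lemma s22_22_10_1_1 {n : ℕ} (hn : 5 ≤ n) : NoNd (d22_22_10_1.R : ℤ) d22_22_10_1.H n d22_22_10_1.a d22_22_10_1.b
    (BlkD.inB (fun _ => 0)
      (BlkD.upd (BlkD.upd (BlkD.upd (BlkD.upd (fun _ => 22) 0 10) 2 1) 0 5) 0 2)) :=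
  BlkD.tree_sound (BlkD.pairOk_sound k22_22_10_1) (by decide) hn t22_22_10_1_1 _ _ (by decide +kernel)

/-- certificates of the pair `(10, 1)`, part 2 -/
def t22_22_10_1_2 : BlkD.Tr :=
  .S 0 4 (.S 0 3 (.L 4 6 [4, 4] [] [] 100000 0 0 1265217 56522 0 78261 0 0 0 0) (.L 4 6 [4, 4] []
    [] 100000 0 0 1265217 56522 0 78261 0 0 0 0)) (.L 4 6 [4, 4] [] [] 100000 0 0 1265217 56522 0
    78261 0 0 0 0)

lemma s22_22_10_1_2 {n : ℕ} (hn : 5 ≤ n) : NoNd (d22_22_10_1.R : ℤ) d22_22_10_1.H n d22_22_10_1.a d22_22_10_1.b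
    (BlkD.inB (BlkD.upd (fun _ => 0) 0 3)
      (BlkD.upd (BlkD.upd (BlkD.upd (fun _ => 22) 0 10) 2 1) 0 5)) :=
  BlkD.tree_sound (BlkD.pairOk_sound k22_22_10_1) (by decide) hn t22_22_10_1_2 _ _ (by decide +kernel)

/-- certificates of the pair `(10, 1)`, part 3 -/
def t22_22_10_1_3 : BlkD.Tr :=
  .L 4 6 [4, 4] [] [] 100000 0 0 1265217 56522 0 78261 0 0 0 0

lemma s22_22_10_1_3 {n : ℕ} (hn : 5 ≤ n) : NoNd (d22_22_10_1.R : ℤ) d22_22_10_1.H n d22_22_10_1.a d22_22_10_1.b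
    (BlkD.inB (BlkD.upd (fun _ => 0) 0 6)
      (BlkD.upd (BlkD.upd (fun _ => 22) 0 10) 2 1)) :=
  BlkD.tree_sound (BlkD.pairOk_sound k22_22_10_1) (by decide) hn t22_22_10_1_3 _ _ (by decide +kernel)

/-- certificates of the pair `(10, 1)`, part 4 -/
def t22_22_10_1_4 : BlkD.Tr :=
  .E 1

lemma s22_22_10_1_4 {n : ℕ} (hn : 5 ≤ n) : NoNd (d22_22_10_1.R : ℤ) d22_22_10_1.H n d22_22_10_1.a d22_22_10_1.b
    (BlkD.inB (BlkD.upd (fun _ => 0) 2 2)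
      (BlkD.upd (fun _ => 22) 0 10)) :=
  BlkD.tree_sound (BlkD.pairOk_sound k22_22_10_1) (by decide) hn t22_22_10_1_4 _ _ (by decide +kernel)

/-- certificates of the pair `(10, 1)`, part 5 -/
def t22_22_10_1_5 : BlkD.Tr :=
  .E 0

lemma s22_22_10_1_5 {n : ℕ} (hn : 5 ≤ n) : NoNd (d22_22_10_1.R : ℤ) d22_22_10_1.H n d22_22_10_1.a d22_22_10_1.b
    (BlkD.inB (BlkD.upd (fun _ => 0) 0 11)
      (fun _ => 22)) :=
  BlkD.tree_sound (BlkD.pairOk_sound k22_22_10_1) (by decide) hn t22_22_10_1_5 _ _ (by decide +kernel)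

lemma pr22_22_10_1 {n : ℕ} (hn : 5 ≤ n) : NoPr ((22 : ℕ) : ℤ) ((22 : ℕ) : ℤ) n 10 1 :=
  BlkD.of_root (R := d22_22_10_1.R) (H := d22_22_10_1.H) (a := d22_22_10_1.a) (b := d22_22_10_1.b) (q := 3) (by decide) hn
    (BlkD.sp 0 10 (BlkD.sp 2 1 (BlkD.sp 0 5 (BlkD.sp 0 2 (s22_22_10_1_1 hn) (s22_22_10_1_2 hn))
      (s22_22_10_1_3 hn)) (s22_22_10_1_4 hn)) (s22_22_10_1_5 hn))

/-- the numbers of the pair `(10, 2)`, `R = 22`, `H = 22` -/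
def d22_22_10_2 : BlkD.Pd :=
  ⟨22, 22, 3, 10, 2, 7, 2, 2, 4, 2, 10, 0, 3, 1, 6, 0, [0, 10, 20, 26, 30, 34, 38, 42], [0, 6, 12,
    16, 19, 22, 25, 28], [⟨1, 1, 1, 4, 8, [0, 4], [0, 4]⟩, ⟨1, 1, 1, 4, 12, [0, 8], [0, 4]⟩, ⟨2, 1,
    1, 6, 20, [0, 10, 14], [0, 6]⟩]⟩

lemma k22_22_10_2 : BlkD.pairOk d22_22_10_2 = true := by decide +kernel

/-- certificates of the pair `(10, 2)`, part 1 -/
def t22_22_10_2_1 : BlkD.Tr :=
  .S 0 0 (.L 4 7 [4, 4, 5] [] [] 100000 50000 50000 600000 100000 0 100000 0 0 0 0) (.S 1 11 (.S 1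
    5 (.L 4 7 [4, 4, 5] [] [] 100000 50000 50000 600000 100000 0 100000 0 0 0 0) (.L 4 7 [4, 4, 5]
    [] [] 100000 50000 50000 600000 100000 0 100000 0 0 0 0)) (.L 4 7 [4, 4, 5] [] [] 100000 50000
    50000 600000 100000 0 100000 0 0 0 0))

lemma s22_22_10_2_1 {n : ℕ} (hn : 5 ≤ n) : NoNd (d22_22_10_2.R : ℤ) d22_22_10_2.H n d22_22_10_2.a d22_22_10_2.b
    (BlkD.inB (fun _ => 0)
      (BlkD.upd (BlkD.upd (BlkD.upd (BlkD.upd (BlkD.upd (fun _ => 22) 0 10) 2 2) 0 5) 0 2) 0 1)) :=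
  BlkD.tree_sound (BlkD.pairOk_sound k22_22_10_2) (by decide) hn t22_22_10_2_1 _ _ (by decide +kernel)

/-- certificates of the pair `(10, 2)`, part 2 -/
def t22_22_10_2_2 : BlkD.Tr :=
  .S 1 5 (.L 4 7 [4, 4, 5] [] [] 100000 50000 50000 600000 100000 0 100000 0 0 0 0) (.L 4 7 [4, 4,
    5] [] [] 100000 50000 50000 600000 100000 0 100000 0 0 0 0)

lemma s22_22_10_2_2 {n : ℕ} (hn : 5 ≤ n) : NoNd (d22_22_10_2.R : ℤ) d22_22_10_2.H n d22_22_10_2.a d22_22_10_2.b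
    (BlkD.inB (BlkD.upd (fun _ => 0) 0 2)
      (BlkD.upd (BlkD.upd (BlkD.upd (BlkD.upd (BlkD.upd (fun _ => 22) 0 10) 2 2) 0 5) 0 2) 1 11)) :=
  BlkD.tree_sound (BlkD.pairOk_sound k22_22_10_2) (by decide) hn t22_22_10_2_2 _ _ (by decide +kernel)

/-- certificates of the pair `(10, 2)`, part 3 -/
def t22_22_10_2_3 : BlkD.Tr :=
  .L 4 7 [4, 4, 5] [] [] 100000 50000 50000 600000 100000 0 100000 0 0 0 0

lemma s22_22_10_2_3 {n : ℕ} (hn : 5 ≤ n) : NoNd (d22_22_10_2.R : ℤ) d22_22_10_2.H n d22_22_10_2.a d22_22_10_2.b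
    (BlkD.inB (BlkD.upd (BlkD.upd (fun _ => 0) 0 2) 1 12)
      (BlkD.upd (BlkD.upd (BlkD.upd (BlkD.upd (fun _ => 22) 0 10) 2 2) 0 5) 0 2)) :=
  BlkD.tree_sound (BlkD.pairOk_sound k22_22_10_2) (by decide) hn t22_22_10_2_3 _ _ (by decide +kernel)

/-- certificates of the pair `(10, 2)`, part 4 -/
def t22_22_10_2_4 : BlkD.Tr :=
  .S 1 11 (.S 1 5 (.L 4 7 [4, 4, 5] [] [] 100000 93750 93750 1112500 75000 0 87500 12500 0 0 0) (.L
    4 7 [4, 4, 5] [] [] 100000 93750 93750 1112500 75000 0 87500 12500 0 0 0)) (.L 4 7 [4, 4, 5] []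
    [] 100000 93750 93750 1112500 75000 0 87500 12500 0 0 0)

lemma s22_22_10_2_4 {n : ℕ} (hn : 5 ≤ n) : NoNd (d22_22_10_2.R : ℤ) d22_22_10_2.H n d22_22_10_2.a d22_22_10_2.b
    (BlkD.inB (BlkD.upd (fun _ => 0) 0 3)
      (BlkD.upd (BlkD.upd (BlkD.upd (BlkD.upd (BlkD.upd (fun _ => 22) 0 10) 2 2) 0 5) 0 4) 0 3)) :=
  BlkD.tree_sound (BlkD.pairOk_sound k22_22_10_2) (by decide) hn t22_22_10_2_4 _ _ (by decide +kernel)

/-- certificates of the pair `(10, 2)`, part 5 -/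
def t22_22_10_2_5 : BlkD.Tr :=
  .S 1 11 (.S 1 5 (.L 4 7 [4, 4, 5] [] [] 100000 93750 93750 1112500 75000 0 87500 12500 0 0 0) (.L
    4 7 [4, 4, 5] [] [] 100000 93750 93750 1112500 75000 0 87500 12500 0 0 0)) (.L 4 7 [4, 4, 5] []
    [] 100000 93750 93750 1112500 75000 0 87500 12500 0 0 0)

lemma s22_22_10_2_5 {n : ℕ} (hn : 5 ≤ n) : NoNd (d22_22_10_2.R : ℤ) d22_22_10_2.H n d22_22_10_2.a d22_22_10_2.b
    (BlkD.inB (BlkD.upd (BlkD.upd (fun _ => 0) 0 3) 0 4)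
      (BlkD.upd (BlkD.upd (BlkD.upd (BlkD.upd (fun _ => 22) 0 10) 2 2) 0 5) 0 4)) :=
  BlkD.tree_sound (BlkD.pairOk_sound k22_22_10_2) (by decide) hn t22_22_10_2_5 _ _ (by decide +kernel)

/-- certificates of the pair `(10, 2)`, part 6 -/
def t22_22_10_2_6 : BlkD.Tr :=
  .L 4 7 [4, 4, 5] [] [] 100000 27272 27272 1272729 42424 0 42424 30303 0 0 0

lemma s22_22_10_2_6 {n : ℕ} (hn : 5 ≤ n) : NoNd (d22_22_10_2.R : ℤ) d22_22_10_2.H n d22_22_10_2.a d22_22_10_2.b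
    (BlkD.inB (BlkD.upd (BlkD.upd (fun _ => 0) 0 3) 0 5)
      (BlkD.upd (BlkD.upd (BlkD.upd (BlkD.upd (BlkD.upd (fun _ => 22) 0 10) 2 2) 0 5) 1 17) 1 8)) :=
  BlkD.tree_sound (BlkD.pairOk_sound k22_22_10_2) (by decide) hn t22_22_10_2_6 _ _ (by decide +kernel)

/-- certificates of the pair `(10, 2)`, part 7 -/
def t22_22_10_2_7 : BlkD.Tr :=
  .S 1 13 (.S 1 11 (.S 1 10 (.L 4 7 [4, 4, 5] [] [] 100000 0 0 1466670 33333 0 33333 33333 0 33333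
    33333) (.S 2 1 (.S 2 0 (.S 3 6 (.S 3 3 (.S 3 1 (.L 4 7 [4, 4, 5] [284, 280, 276, 272, 268, 264]
    [] 100000 14285 14284 1371430 42857 0 57143 14286 0 14286 14286) (.S 3 2 (.L 4 7 [4, 4, 5]
    [284, 280, 276, 272, 268, 264] [18, 12, 2, 0, 0, 0] 100000 25000 25000 1350000 50000 0 50000 0
    0 0 0) (.S 4 11 (.S 4 5 (.L 4 7 [4, 4, 5] [260, 256, 250, 240, 230, 220] [28, 22, 16, 6, 0, 0]
    100000 13637 13636 1409087 45455 0 63636 18182 0 18182 18182) (.L 4 7 [4, 4, 5] [284, 280, 276,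
    272, 268, 264] [28, 22, 16, 6, 0, 0] 100000 171429 0 0 67857 0 271429 0 0 0 0)) (.E 2)))) (.E
    1)) (.E 1)) (.L 4 7 [4, 4, 5] [284, 280, 276, 272, 268, 264] [] 100000 25000 25000 1350000
    50000 0 50000 0 0 0 0)) (.L 4 7 [4, 4, 5] [284, 280, 276, 272, 268, 264] [] 100000 150000
    150000 800000 100000 0 100000 0 0 0 0))) (.S 1 12 (.S 2 1 (.S 2 0 (.S 3 5 (.S 3 2 (.L 4 7 [4,
    4, 5] [320, 316, 312, 308, 304, 300] [] 100000 14286 14286 1428572 42857 0 71429 14286 0 14286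
    14286) (.S 3 4 (.S 3 3 (.S 4 12 (.S 4 6 (.L 4 7 [4, 4, 5] [296, 292, 288, 282, 272, 262] [28,
    22, 16, 6, 0, 0] 100000 278787 172725 2 172727 0 206061 33333 0 33333 33333) (.L 4 7 [4, 4, 5]
    [320, 316, 312, 308, 304, 300] [28, 22, 16, 6, 0, 0] 100000 150000 0 0 62500 0 250000 0 0 0 0))
    (.E 2)) (.E 1)) (.E 1))) (.E 1)) (.L 4 7 [4, 4, 5] [320, 316, 312, 308, 304, 300] [] 100000
    31250 31250 1350000 50000 0 75000 0 0 12500 12500)) (.L 4 7 [4, 4, 5] [320, 316, 312, 308, 304,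
    300] [] 100000 150000 150000 800000 100000 0 100000 0 0 0 0)) (.S 2 1 (.S 2 0 (.S 3 4 (.S 3 2
    (.S 3 1 (.L 4 7 [4, 4, 5] [358, 354, 350, 346, 342, 338] [] 100000 25000 24999 1366666 50000 0
    66667 16667 0 16667 16667) (.S 4 13 (.S 4 6 (.L 4 7 [4, 4, 5] [330, 326, 322, 316, 306, 296]
    [18, 12, 2, 0, 0, 0] 100000 263636 181818 2 181818 0 181818 0 0 0 0) (.L 4 7 [4, 4, 5] [358,
    354, 350, 346, 342, 338] [18, 12, 2, 0, 0, 0] 100000 160871 1 0 86957 0 260870 0 0 0 0)) (.E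
    2))) (.S 3 3 (.S 4 13 (.S 4 6 (.L 4 7 [4, 4, 5] [330, 326, 322, 316, 306, 296] [28, 22, 16, 6,
    0, 0] 100000 250000 175000 0 175000 0 175000 0 0 0 0) (.L 4 7 [4, 4, 5] [358, 354, 350, 346,
    342, 338] [28, 22, 16, 6, 0, 0] 100000 142308 0 0 80769 0 242308 0 0 0 0)) (.E 2)) (.E 1))) (.E
    1)) (.L 4 7 [4, 4, 5] [358, 354, 350, 346, 342, 338] [] 100000 41667 41667 1300000 50000 0
    100000 0 0 16667 16667)) (.L 4 7 [4, 4, 5] [358, 354, 350, 346, 342, 338] [] 100000 150000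
    150000 800000 100000 0 100000 0 0 0 0)))) (.S 1 15 (.S 1 14 (.L 4 7 [4, 4, 5] [398, 394, 390,
    386, 382, 378] [] 100000 133333 99999 833334 100000 0 133333 0 0 33333 33333) (.L 4 7 [4, 4, 5]
    [440, 436, 432, 428, 424, 420] [] 100000 263636 154545 3 163636 0 209091 0 0 27273 27273)) (.S
    1 16 (.L 4 7 [4, 4, 5] [484, 480, 476, 472, 468, 464] [] 100000 232692 128846 2 153846 0 203846
    0 0 0 0) (.L 4 7 [4, 4, 5] [530, 526, 522, 518, 514, 510] [] 100000 210869 119565 4 143478 0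
    191304 0 0 0 0)))

lemma s22_22_10_2_7 {n : ℕ} (hn : 5 ≤ n) : NoNd (d22_22_10_2.R : ℤ) d22_22_10_2.H n d22_22_10_2.a d22_22_10_2.b
    (BlkD.inB (BlkD.upd (BlkD.upd (BlkD.upd (fun _ => 0) 0 3) 0 5) 1 9)
      (BlkD.upd (BlkD.upd (BlkD.upd (BlkD.upd (fun _ => 22) 0 10) 2 2) 0 5) 1 17)) :=
  BlkD.tree_sound (BlkD.pairOk_sound k22_22_10_2) (by decide) hn t22_22_10_2_7 _ _ (by decide +kernel)

/-- certificates of the pair `(10, 2)`, part 8 -/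
def t22_22_10_2_8 : BlkD.Tr :=
  .E 0

lemma s22_22_10_2_8 {n : ℕ} (hn : 5 ≤ n) : NoNd (d22_22_10_2.R : ℤ) d22_22_10_2.H n d22_22_10_2.a d22_22_10_2.b
    (BlkD.inB (BlkD.upd (BlkD.upd (BlkD.upd (fun _ => 0) 0 3) 0 5) 1 18)
      (BlkD.upd (BlkD.upd (BlkD.upd (fun _ => 22) 0 10) 2 2) 0 5)) :=
  BlkD.tree_sound (BlkD.pairOk_sound k22_22_10_2) (by decide) hn t22_22_10_2_8 _ _ (by decide +kernel)

/-- certificates of the pair `(10, 2)`, part 9 -/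
def t22_22_10_2_9 : BlkD.Tr :=
  .S 1 16 (.S 1 8 (.L 4 7 [4, 4, 5] [] [] 100000 0 0 1471432 28571 0 28571 28571 0 28571 28571) (.S
    1 12 (.S 1 10 (.S 1 9 (.S 2 1 (.S 2 0 (.L 4 7 [4, 4, 5] [236, 232, 228, 224, 220, 216] []
    100000 0 0 1466670 33333 0 66667 33333 0 33333 33333) (.S 3 6 (.S 3 3 (.S 3 1 (.L 4 7 [4, 4, 5]
    [236, 232, 228, 224, 220, 216] [] 100000 0 0 1466669 33333 0 33333 0 0 33333 33333) (.S 3 2 (.S
    4 9 (.S 4 4 (.L 4 7 [4, 4, 5] [216, 210, 200, 190, 180, 0] [22, 16, 6, 0, 0, 0] 100000 13638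
    13638 1390905 45455 0 45455 0 0 18182 18182) (.L 4 7 [4, 4, 5] [236, 232, 228, 224, 220, 216]
    [22, 16, 6, 0, 0, 0] 100000 200000 0 0 75000 0 300000 0 0 0 0)) (.E 2)) (.E 1))) (.E 1)) (.E
    1))) (.S 3 5 (.S 3 2 (.S 3 1 (.S 3 0 (.L 4 7 [4, 4, 5] [236, 232, 228, 224, 220, 216] [0, 0, 0,
    0, 0, 0] 100000 0 0 1433336 33333 0 33333 0 0 33333 33333) (.S 4 9 (.S 4 4 (.L 4 7 [4, 4, 5]
    [216, 210, 200, 190, 180, 0] [14, 4, 0, 0, 0, 0] 100000 13638 13638 1390905 45455 0 45455 0 0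
    18182 18182) (.L 4 7 [4, 4, 5] [236, 232, 228, 224, 220, 216] [14, 4, 0, 0, 0, 0] 100000 200000
    0 0 75000 0 300000 0 0 0 0)) (.E 2))) (.E 1)) (.E 1)) (.E 1))) (.S 2 1 (.S 2 0 (.S 3 6 (.S 3 3
    (.S 3 1 (.L 4 7 [4, 4, 5] [270, 266, 262, 258, 254, 250] [] 100000 14286 14286 1385715 42857 0
    71429 14286 0 14286 14286) (.S 3 2 (.L 4 7 [4, 4, 5] [270, 266, 262, 258, 254, 250] [18, 12, 2,
    0, 0, 0] 100000 15625 15625 1400000 43750 0 62500 31250 0 12500 18750) (.S 4 10 (.S 4 5 (.L 4 7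
    [4, 4, 5] [250, 246, 240, 230, 220, 210] [28, 22, 16, 6, 0, 0] 100000 10000 10000 1420000 40000
    0 80000 40000 0 20000 20000) (.L 4 7 [4, 4, 5] [270, 266, 262, 258, 254, 250] [28, 22, 16, 6,
    0, 0] 100000 181481 0 4 70370 0 281481 0 0 0 0)) (.E 2)))) (.E 1)) (.E 1)) (.L 4 7 [4, 4, 5]
    [270, 266, 262, 258, 254, 250] [] 100000 25000 24999 1383333 50000 0 66667 0 0 16667 16667))
    (.L 4 7 [4, 4, 5] [270, 266, 262, 258, 254, 250] [] 100000 25000 24999 1383333 50000 0 66667 0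
    0 16667 16667))) (.S 1 11 (.L 4 7 [4, 4, 5] [306, 302, 298, 294, 290, 286] [] 100000 10000 9999
    1433332 40000 0 86667 26667 0 26667 26667) (.L 4 7 [4, 4, 5] [344, 340, 336, 332, 328, 324] []
    100000 25000 25000 1350000 50000 0 100000 0 0 0 0))) (.S 1 14 (.S 1 13 (.L 4 7 [4, 4, 5] [384,
    380, 376, 372, 368, 364] [] 100000 25000 25000 1350000 50000 0 100000 0 0 0 0) (.L 4 7 [4, 4,
    5] [426, 422, 418, 414, 410, 406] [] 100000 162500 0 0 131250 0 262500 0 0 0 0)) (.L 4 7 [4, 4,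
    5] [] [] 100000 206978 1 0 51163 0 306977 0 0 0 0)))) (.E 0)

lemma s22_22_10_2_9 {n : ℕ} (hn : 5 ≤ n) : NoNd (d22_22_10_2.R : ℤ) d22_22_10_2.H n d22_22_10_2.a d22_22_10_2.b
    (BlkD.inB (BlkD.upd (fun _ => 0) 0 6)
      (BlkD.upd (BlkD.upd (BlkD.upd (BlkD.upd (BlkD.upd (fun _ => 22) 0 10) 2 2) 0 8) 0 7) 0 6)) :=
  BlkD.tree_sound (BlkD.pairOk_sound k22_22_10_2) (by decide) hn t22_22_10_2_9 _ _ (by decide +kernel)

/-- certificates of the pair `(10, 2)`, part 10 -/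
def t22_22_10_2_10 : BlkD.Tr :=
  .S 1 15 (.S 1 7 (.S 1 3 (.L 4 7 [4, 4, 5] [] [] 100000 0 0 1300000 0 0 0 0 0 0 0) (.S 1 5 (.L 4 7
    [4, 4, 5] [] [] 100000 21428 21427 1300001 42857 0 42857 28571 0 0 0) (.S 1 6 (.L 4 7 [4, 4, 5]
    [158, 154, 150, 144, 134, 124] [] 100000 0 0 1400002 33333 0 33333 33333 0 33333 33333) (.L 4 7
    [4, 4, 5] [188, 184, 180, 176, 170, 160] [] 100000 7142 7141 1450002 35714 0 53571 17857 0
    21429 21429)))) (.S 1 11 (.S 1 9 (.S 1 8 (.L 4 7 [4, 4, 5] [220, 216, 212, 208, 204, 198] []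
    100000 10000 10000 1440000 40000 0 80000 20000 0 20000 20000) (.L 4 7 [4, 4, 5] [254, 250, 246,
    242, 238, 234] [] 100000 7500 7500 1405000 40000 0 85000 25000 0 25000 25000)) (.S 1 10 (.L 4 7
    [4, 4, 5] [290, 286, 282, 278, 274, 270] [] 100000 9375 9375 1393750 43750 0 81250 25000 0
    25000 25000) (.L 4 7 [4, 4, 5] [328, 324, 320, 316, 312, 308] [] 100000 100000 0 700000 100000
    0 200000 0 0 0 0))) (.L 4 7 [4, 4, 5] [] [] 100000 100000 0 700000 25000 0 200000 25000 0 0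
    0))) (.E 0)

lemma s22_22_10_2_10 {n : ℕ} (hn : 5 ≤ n) : NoNd (d22_22_10_2.R : ℤ) d22_22_10_2.H n d22_22_10_2.a d22_22_10_2.b
    (BlkD.inB (BlkD.upd (BlkD.upd (fun _ => 0) 0 6) 0 7)
      (BlkD.upd (BlkD.upd (BlkD.upd (BlkD.upd (fun _ => 22) 0 10) 2 2) 0 8) 0 7)) :=
  BlkD.tree_sound (BlkD.pairOk_sound k22_22_10_2) (by decide) hn t22_22_10_2_10 _ _ (by decide +kernel)

/-- certificates of the pair `(10, 2)`, part 11 -/
def t22_22_10_2_11 : BlkD.Tr :=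
  .S 1 14 (.S 1 7 (.S 1 3 (.L 4 7 [4, 4, 5] [] [] 100000 0 0 1400000 0 0 0 0 0 0 0) (.S 1 5 (.L 4 7
    [4, 4, 5] [] [] 100000 0 0 1433335 33333 0 33333 33333 0 33333 33333) (.S 1 6 (.L 4 7 [4, 4, 5]
    [170, 166, 162, 156, 146, 136] [] 100000 1 1 1443334 35000 0 81667 21667 6667 21667 21667) (.L
    4 7 [4, 4, 5] [202, 198, 194, 190, 184, 174] [] 100000 0 0 1400000 25000 0 100000 25000 0 25000
    25000)))) (.L 4 7 [4, 4, 5] [] [] 100000 0 0 1455556 11111 0 100000 0 0 11111 11111)) (.E 0)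

lemma s22_22_10_2_11 {n : ℕ} (hn : 5 ≤ n) : NoNd (d22_22_10_2.R : ℤ) d22_22_10_2.H n d22_22_10_2.a d22_22_10_2.b
    (BlkD.inB (BlkD.upd (BlkD.upd (fun _ => 0) 0 6) 0 8)
      (BlkD.upd (BlkD.upd (BlkD.upd (fun _ => 22) 0 10) 2 2) 0 8)) :=
  BlkD.tree_sound (BlkD.pairOk_sound k22_22_10_2) (by decide) hn t22_22_10_2_11 _ _ (by decide +kernel)

/-- certificates of the pair `(10, 2)`, part 12 -/
def t22_22_10_2_12 : BlkD.Tr :=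
  .L 4 7 [4, 4, 5] [] [] 100000 1 1 1472414 10345 0 96552 3448 3448 3448 3448

lemma s22_22_10_2_12 {n : ℕ} (hn : 5 ≤ n) : NoNd (d22_22_10_2.R : ℤ) d22_22_10_2.H n d22_22_10_2.a d22_22_10_2.b
    (BlkD.inB (BlkD.upd (BlkD.upd (fun _ => 0) 0 6) 0 9)
      (BlkD.upd (BlkD.upd (fun _ => 22) 0 10) 2 2)) :=
  BlkD.tree_sound (BlkD.pairOk_sound k22_22_10_2) (by decide) hn t22_22_10_2_12 _ _ (by decide +kernel)

/-- certificates of the pair `(10, 2)`, part 13 -/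
def t22_22_10_2_13 : BlkD.Tr :=
  .E 1

lemma s22_22_10_2_13 {n : ℕ} (hn : 5 ≤ n) : NoNd (d22_22_10_2.R : ℤ) d22_22_10_2.H n d22_22_10_2.a d22_22_10_2.b
    (BlkD.inB (BlkD.upd (fun _ => 0) 2 3)
      (BlkD.upd (fun _ => 22) 0 10)) :=
  BlkD.tree_sound (BlkD.pairOk_sound k22_22_10_2) (by decide) hn t22_22_10_2_13 _ _ (by decide +kernel)

/-- certificates of the pair `(10, 2)`, part 14 -/
def t22_22_10_2_14 : BlkD.Tr :=
  .E 0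

lemma s22_22_10_2_14 {n : ℕ} (hn : 5 ≤ n) : NoNd (d22_22_10_2.R : ℤ) d22_22_10_2.H n d22_22_10_2.a d22_22_10_2.b
    (BlkD.inB (BlkD.upd (fun _ => 0) 0 11)
      (fun _ => 22)) :=
  BlkD.tree_sound (BlkD.pairOk_sound k22_22_10_2) (by decide) hn t22_22_10_2_14 _ _ (by decide +kernel)

lemma pr22_22_10_2 {n : ℕ} (hn : 5 ≤ n) : NoPr ((22 : ℕ) : ℤ) ((22 : ℕ) : ℤ) n 10 2 :=
  BlkD.of_root (R := d22_22_10_2.R) (H := d22_22_10_2.H) (a := d22_22_10_2.a) (b := d22_22_10_2.b) (q := 3) (by decide) hn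
    (BlkD.sp 0 10 (BlkD.sp 2 2 (BlkD.sp 0 5 (BlkD.sp 0 2 (BlkD.sp 0 1 (s22_22_10_2_1 hn) (BlkD.sp 1
      11 (s22_22_10_2_2 hn) (s22_22_10_2_3 hn))) (BlkD.sp 0 4 (BlkD.sp 0 3 (s22_22_10_2_4 hn)
      (s22_22_10_2_5 hn)) (BlkD.sp 1 17 (BlkD.sp 1 8 (s22_22_10_2_6 hn) (s22_22_10_2_7 hn))
      (s22_22_10_2_8 hn)))) (BlkD.sp 0 8 (BlkD.sp 0 7 (BlkD.sp 0 6 (s22_22_10_2_9 hn)
      (s22_22_10_2_10 hn)) (s22_22_10_2_11 hn)) (s22_22_10_2_12 hn))) (s22_22_10_2_13 hn))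
      (s22_22_10_2_14 hn))

end BlkC

end Pool.Agent.Lib.MP_f04ccf_co
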