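import Pool.Agent.Lib.MP_f04ccf_co.M.BlkT

/-!
MP_f04ccf_co, block certificate, data `R = 22`, `H = 22`, part 19 (generated, helper99:
bd10.cpp, gen2.py).
-/

set_option autoImplicit false
set_option maxRecDepth 100000

namespace Pool.Agent.Lib.MP_f04ccf_co

namespace BlkC

/-- the numbers of the pair `(10, 4)`, `R = 22`, `H = 22` -/
def d22_22_10_4 : BlkD.Pd :=
  ⟨22, 22, 3, 10, 4, 5, 2, 3, 1, 4, 10, 0, 2, 2, 8, 0, [0, 10, 20, 23, 24, 25], [0, 8, 14, 16, 18,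
    20], [⟨1, 1, 1, 4, 8, [0, 4], [0, 4]⟩, ⟨1, 1, 1, 4, 14, [0, 8], [0, 6]⟩, ⟨2, 1, 1, 4, 22, [0,
    10, 14], [0, 8]⟩]⟩

lemma k22_22_10_4 : BlkD.pairOk d22_22_10_4 = true := by decide +kernel

/-- certificates of the pair `(10, 4)`, part 1 -/
def t22_22_10_4_1 : BlkD.Tr :=
  .L 5 7 [4, 4, 5, 22, 22] [] [] 100000 150000 150000 1100000 100000 0 100000 0 0 0 0

lemma s22_22_10_4_1 {n : ℕ} (hn : 5 ≤ n) : NoNd (d22_22_10_4.R : ℤ) d22_22_10_4.H n d22_22_10_4.a d22_22_10_4.b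
    (BlkD.inB (fun _ => 0)
      (BlkD.upd (BlkD.upd (BlkD.upd (BlkD.upd (BlkD.upd (BlkD.upd (fun _ => 22) 0 10) 2 4) 0 5) 0 2) 0 1) 0 0)) :=
  BlkD.tree_sound (BlkD.pairOk_sound k22_22_10_4) (by decide) hn t22_22_10_4_1 _ _ (by decide +kernel)

/-- certificates of the pair `(10, 4)`, part 2 -/
def t22_22_10_4_2 : BlkD.Tr :=
  .L 5 7 [4, 4, 5, 22, 22] [] [] 100000 150000 150000 1100000 100000 0 100000 0 0 0 0

lemma s22_22_10_4_2 {n : ℕ} (hn : 5 ≤ n) : NoNd (d22_22_10_4.R : ℤ) d22_22_10_4.H n d22_22_10_4.a d22_22_10_4.b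
    (BlkD.inB (BlkD.upd (fun _ => 0) 0 1)
      (BlkD.upd (BlkD.upd (BlkD.upd (BlkD.upd (BlkD.upd (BlkD.upd (BlkD.upd (fun _ => 22) 0 10) 2 4) 0 5) 0 2) 0 1) 1 11) 1 5)) :=
  BlkD.tree_sound (BlkD.pairOk_sound k22_22_10_4) (by decide) hn t22_22_10_4_2 _ _ (by decide +kernel)

/-- certificates of the pair `(10, 4)`, part 3 -/
def t22_22_10_4_3 : BlkD.Tr :=
  .L 5 7 [4, 4, 5, 22, 22] [] [] 100000 150000 150000 1100000 100000 0 100000 0 0 0 0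

lemma s22_22_10_4_3 {n : ℕ} (hn : 5 ≤ n) : NoNd (d22_22_10_4.R : ℤ) d22_22_10_4.H n d22_22_10_4.a d22_22_10_4.b
    (BlkD.inB (BlkD.upd (BlkD.upd (fun _ => 0) 0 1) 1 6)
      (BlkD.upd (BlkD.upd (BlkD.upd (BlkD.upd (BlkD.upd (BlkD.upd (fun _ => 22) 0 10) 2 4) 0 5) 0 2) 0 1) 1 11)) :=
  BlkD.tree_sound (BlkD.pairOk_sound k22_22_10_4) (by decide) hn t22_22_10_4_3 _ _ (by decide +kernel)

/-- certificates of the pair `(10, 4)`, part 4 -/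
def t22_22_10_4_4 : BlkD.Tr :=
  .L 5 7 [4, 4, 5, 22, 22] [] [] 100000 150000 150000 1100000 100000 0 100000 0 0 0 0

lemma s22_22_10_4_4 {n : ℕ} (hn : 5 ≤ n) : NoNd (d22_22_10_4.R : ℤ) d22_22_10_4.H n d22_22_10_4.a d22_22_10_4.b
    (BlkD.inB (BlkD.upd (BlkD.upd (fun _ => 0) 0 1) 1 12)
      (BlkD.upd (BlkD.upd (BlkD.upd (BlkD.upd (BlkD.upd (fun _ => 22) 0 10) 2 4) 0 5) 0 2) 0 1)) :=
  BlkD.tree_sound (BlkD.pairOk_sound k22_22_10_4) (by decide) hn t22_22_10_4_4 _ _ (by decide +kernel)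

/-- certificates of the pair `(10, 4)`, part 5 -/
def t22_22_10_4_5 : BlkD.Tr :=
  .L 5 7 [4, 4, 5, 22, 22] [] [] 100000 150000 150000 1100000 100000 0 100000 0 0 0 0

lemma s22_22_10_4_5 {n : ℕ} (hn : 5 ≤ n) : NoNd (d22_22_10_4.R : ℤ) d22_22_10_4.H n d22_22_10_4.a d22_22_10_4.b
    (BlkD.inB (BlkD.upd (fun _ => 0) 0 2)
      (BlkD.upd (BlkD.upd (BlkD.upd (BlkD.upd (BlkD.upd (BlkD.upd (fun _ => 22) 0 10) 2 4) 0 5) 0 2) 1 11) 1 5)) :=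
  BlkD.tree_sound (BlkD.pairOk_sound k22_22_10_4) (by decide) hn t22_22_10_4_5 _ _ (by decide +kernel)

/-- certificates of the pair `(10, 4)`, part 6 -/
def t22_22_10_4_6 : BlkD.Tr :=
  .S 1 8 (.L 5 7 [4, 4, 5, 22, 22] [] [] 100000 150000 150000 1100000 100000 0 100000 0 0 0 0) (.L
    5 7 [4, 4, 5, 22, 22] [] [] 100000 150000 150000 1100000 100000 0 100000 0 0 0 0)

lemma s22_22_10_4_6 {n : ℕ} (hn : 5 ≤ n) : NoNd (d22_22_10_4.R : ℤ) d22_22_10_4.H n d22_22_10_4.a d22_22_10_4.b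
    (BlkD.inB (BlkD.upd (BlkD.upd (fun _ => 0) 0 2) 1 6)
      (BlkD.upd (BlkD.upd (BlkD.upd (BlkD.upd (BlkD.upd (fun _ => 22) 0 10) 2 4) 0 5) 0 2) 1 11)) :=
  BlkD.tree_sound (BlkD.pairOk_sound k22_22_10_4) (by decide) hn t22_22_10_4_6 _ _ (by decide +kernel)

/-- certificates of the pair `(10, 4)`, part 7 -/
def t22_22_10_4_7 : BlkD.Tr :=
  .L 5 7 [4, 4, 5, 22, 22] [] [] 100000 150000 150000 1100000 100000 0 100000 0 0 0 0

lemma s22_22_10_4_7 {n : ℕ} (hn : 5 ≤ n) : NoNd (d22_22_10_4.R : ℤ) d22_22_10_4.H n d22_22_10_4.a d22_22_10_4.b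
    (BlkD.inB (BlkD.upd (BlkD.upd (fun _ => 0) 0 2) 1 12)
      (BlkD.upd (BlkD.upd (BlkD.upd (BlkD.upd (fun _ => 22) 0 10) 2 4) 0 5) 0 2)) :=
  BlkD.tree_sound (BlkD.pairOk_sound k22_22_10_4) (by decide) hn t22_22_10_4_7 _ _ (by decide +kernel)

/-- certificates of the pair `(10, 4)`, part 8 -/
def t22_22_10_4_8 : BlkD.Tr :=
  .L 5 7 [4, 4, 5, 22, 22] [] [] 100000 162500 162500 1350000 75000 0 75000 25000 0 0 0

lemma s22_22_10_4_8 {n : ℕ} (hn : 5 ≤ n) : NoNd (d22_22_10_4.R : ℤ) d22_22_10_4.H n d22_22_10_4.a d22_22_10_4.b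
    (BlkD.inB (BlkD.upd (fun _ => 0) 0 3)
      (BlkD.upd (BlkD.upd (BlkD.upd (BlkD.upd (BlkD.upd (BlkD.upd (BlkD.upd (fun _ => 22) 0 10) 2 4) 0 5) 0 4) 0 3) 1 11) 1 5)) :=
  BlkD.tree_sound (BlkD.pairOk_sound k22_22_10_4) (by decide) hn t22_22_10_4_8 _ _ (by decide +kernel)

/-- certificates of the pair `(10, 4)`, part 9 -/
def t22_22_10_4_9 : BlkD.Tr :=
  .L 5 7 [4, 4, 5, 22, 22] [] [] 100000 162500 162500 1350000 75000 0 75000 25000 0 0 0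

lemma s22_22_10_4_9 {n : ℕ} (hn : 5 ≤ n) : NoNd (d22_22_10_4.R : ℤ) d22_22_10_4.H n d22_22_10_4.a d22_22_10_4.b
    (BlkD.inB (BlkD.upd (BlkD.upd (fun _ => 0) 0 3) 1 6)
      (BlkD.upd (BlkD.upd (BlkD.upd (BlkD.upd (BlkD.upd (BlkD.upd (BlkD.upd (fun _ => 22) 0 10) 2 4) 0 5) 0 4) 0 3) 1 11) 1 8)) :=
  BlkD.tree_sound (BlkD.pairOk_sound k22_22_10_4) (by decide) hn t22_22_10_4_9 _ _ (by decide +kernel)

/-- certificates of the pair `(10, 4)`, part 10 -/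
def t22_22_10_4_10 : BlkD.Tr :=
  .S 1 10 (.L 5 7 [4, 4, 5, 22, 22] [] [] 100000 162500 162500 1350000 75000 0 75000 25000 0 0 0)
    (.L 5 7 [4, 4, 5, 22, 22] [240, 239, 238, 237, 236, 235] [] 100000 162500 162500 1350000 75000
    0 75000 25000 0 0 0)

lemma s22_22_10_4_10 {n : ℕ} (hn : 5 ≤ n) : NoNd (d22_22_10_4.R : ℤ) d22_22_10_4.H n d22_22_10_4.a d22_22_10_4.b
    (BlkD.inB (BlkD.upd (BlkD.upd (BlkD.upd (fun _ => 0) 0 3) 1 6) 1 9)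
      (BlkD.upd (BlkD.upd (BlkD.upd (BlkD.upd (BlkD.upd (BlkD.upd (fun _ => 22) 0 10) 2 4) 0 5) 0 4) 0 3) 1 11)) :=
  BlkD.tree_sound (BlkD.pairOk_sound k22_22_10_4) (by decide) hn t22_22_10_4_10 _ _ (by decide +kernel)

/-- certificates of the pair `(10, 4)`, part 11 -/
def t22_22_10_4_11 : BlkD.Tr :=
  .S 1 17 (.S 1 14 (.S 1 13 (.L 5 7 [4, 4, 5, 22, 22] [] [] 100000 162500 162500 1350000 75000 0
    75000 25000 0 0 0) (.L 5 7 [4, 4, 5, 22, 22] [333, 332, 331, 330, 329, 328] [] 100000 162500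
    162500 1350000 75000 0 75000 25000 0 0 0)) (.L 5 7 [4, 4, 5, 22, 22] [] [] 100000 162500 162500
    1350000 75000 0 75000 25000 0 0 0)) (.L 5 7 [4, 4, 5, 22, 22] [] [] 100000 162500 162500
    1350000 75000 0 75000 25000 0 0 0)

lemma s22_22_10_4_11 {n : ℕ} (hn : 5 ≤ n) : NoNd (d22_22_10_4.R : ℤ) d22_22_10_4.H n d22_22_10_4.a d22_22_10_4.b
    (BlkD.inB (BlkD.upd (BlkD.upd (fun _ => 0) 0 3) 1 12)
      (BlkD.upd (BlkD.upd (BlkD.upd (BlkD.upd (BlkD.upd (fun _ => 22) 0 10) 2 4) 0 5) 0 4) 0 3)) :=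
  BlkD.tree_sound (BlkD.pairOk_sound k22_22_10_4) (by decide) hn t22_22_10_4_11 _ _ (by decide +kernel)

/-- certificates of the pair `(10, 4)`, part 12 -/
def t22_22_10_4_12 : BlkD.Tr :=
  .S 1 4 (.L 5 7 [4, 4, 5, 22, 22] [] [] 100000 16667 16667 1633337 33333 0 33333 33333 0 0 0) (.L
    5 7 [4, 4, 5, 22, 22] [] [] 100000 16667 16667 1633337 33333 0 33333 33333 0 0 0)

lemma s22_22_10_4_12 {n : ℕ} (hn : 5 ≤ n) : NoNd (d22_22_10_4.R : ℤ) d22_22_10_4.H n d22_22_10_4.a d22_22_10_4.b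
    (BlkD.inB (BlkD.upd (BlkD.upd (fun _ => 0) 0 3) 0 4)
      (BlkD.upd (BlkD.upd (BlkD.upd (BlkD.upd (BlkD.upd (BlkD.upd (fun _ => 22) 0 10) 2 4) 0 5) 0 4) 1 18) 1 9)) :=
  BlkD.tree_sound (BlkD.pairOk_sound k22_22_10_4) (by decide) hn t22_22_10_4_12 _ _ (by decide +kernel)

/-- certificates of the pair `(10, 4)`, part 13 -/
def t22_22_10_4_13 : BlkD.Tr :=
  .S 1 11 (.S 1 10 (.L 5 7 [4, 4, 5, 22, 22] [233, 232, 231, 230, 229, 226] [] 100000 50000 50000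
    1550000 50000 0 50000 50000 0 0 0) (.L 5 7 [4, 4, 5, 22, 22] [262, 261, 260, 259, 258, 257] []
    100000 95000 95000 1490000 60000 0 80000 30000 0 0 0)) (.L 5 7 [4, 4, 5, 22, 22] [293, 292,
    291, 290, 289, 288] [] 100000 150000 150000 1300000 100000 0 100000 0 0 0 0)

lemma s22_22_10_4_13 {n : ℕ} (hn : 5 ≤ n) : NoNd (d22_22_10_4.R : ℤ) d22_22_10_4.H n d22_22_10_4.a d22_22_10_4.b
    (BlkD.inB (BlkD.upd (BlkD.upd (BlkD.upd (fun _ => 0) 0 3) 0 4) 1 10)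
      (BlkD.upd (BlkD.upd (BlkD.upd (BlkD.upd (BlkD.upd (BlkD.upd (BlkD.upd (fun _ => 22) 0 10) 2 4) 0 5) 0 4) 1 18) 1 14) 1 12)) :=
  BlkD.tree_sound (BlkD.pairOk_sound k22_22_10_4) (by decide) hn t22_22_10_4_13 _ _ (by decide +kernel)

/-- certificates of the pair `(10, 4)`, part 14 -/
def t22_22_10_4_14 : BlkD.Tr :=
  .S 1 13 (.L 5 7 [4, 4, 5, 22, 22] [326, 325, 324, 323, 322, 321] [] 100000 221875 190625 1025000
    125000 0 131250 12500 0 0 0) (.L 5 7 [4, 4, 5, 22, 22] [361, 360, 359, 358, 357, 356] [] 100000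
    542858 385715 0 257143 0 257143 0 0 0 0)

lemma s22_22_10_4_14 {n : ℕ} (hn : 5 ≤ n) : NoNd (d22_22_10_4.R : ℤ) d22_22_10_4.H n d22_22_10_4.a d22_22_10_4.b
    (BlkD.inB (BlkD.upd (BlkD.upd (BlkD.upd (BlkD.upd (fun _ => 0) 0 3) 0 4) 1 10) 1 13)
      (BlkD.upd (BlkD.upd (BlkD.upd (BlkD.upd (BlkD.upd (BlkD.upd (fun _ => 22) 0 10) 2 4) 0 5) 0 4) 1 18) 1 14)) :=
  BlkD.tree_sound (BlkD.pairOk_sound k22_22_10_4) (by decide) hn t22_22_10_4_14 _ _ (by decide +kernel)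

/-- certificates of the pair `(10, 4)`, part 15 -/
def t22_22_10_4_15 : BlkD.Tr :=
  .S 1 16 (.S 1 15 (.L 5 7 [4, 4, 5, 22, 22] [398, 397, 396, 395, 394, 393] [] 100000 394444 272222
    2 222222 0 222222 0 0 0 0) (.L 5 7 [4, 4, 5, 22, 22] [437, 436, 435, 434, 433, 432] [] 100000
    350000 250000 0 200000 0 200000 0 0 0 0)) (.S 1 17 (.L 5 7 [4, 4, 5, 22, 22] [478, 477, 476,
    475, 474, 473] [] 100000 266666 183333 4 183333 0 183333 0 0 0 0) (.L 5 7 [4, 4, 5, 22, 22]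
    [521, 520, 519, 518, 517, 516] [] 100000 238462 169231 0 169231 0 169231 0 0 0 0))

lemma s22_22_10_4_15 {n : ℕ} (hn : 5 ≤ n) : NoNd (d22_22_10_4.R : ℤ) d22_22_10_4.H n d22_22_10_4.a d22_22_10_4.b
    (BlkD.inB (BlkD.upd (BlkD.upd (BlkD.upd (BlkD.upd (fun _ => 0) 0 3) 0 4) 1 10) 1 15)
      (BlkD.upd (BlkD.upd (BlkD.upd (BlkD.upd (BlkD.upd (fun _ => 22) 0 10) 2 4) 0 5) 0 4) 1 18)) :=
  BlkD.tree_sound (BlkD.pairOk_sound k22_22_10_4) (by decide) hn t22_22_10_4_15 _ _ (by decide +kernel)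

/-- certificates of the pair `(10, 4)`, part 16 -/
def t22_22_10_4_16 : BlkD.Tr :=
  .E 0

lemma s22_22_10_4_16 {n : ℕ} (hn : 5 ≤ n) : NoNd (d22_22_10_4.R : ℤ) d22_22_10_4.H n d22_22_10_4.a d22_22_10_4.b
    (BlkD.inB (BlkD.upd (BlkD.upd (BlkD.upd (fun _ => 0) 0 3) 0 4) 1 19)
      (BlkD.upd (BlkD.upd (BlkD.upd (BlkD.upd (fun _ => 22) 0 10) 2 4) 0 5) 0 4)) :=
  BlkD.tree_sound (BlkD.pairOk_sound k22_22_10_4) (by decide) hn t22_22_10_4_16 _ _ (by decide +kernel)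

/-- certificates of the pair `(10, 4)`, part 17 -/
def t22_22_10_4_17 : BlkD.Tr :=
  .S 1 4 (.L 5 7 [4, 4, 5, 22, 22] [] [] 100000 45160 45160 1606455 41935 0 53226 32258 0 19355 0)
    (.L 5 7 [4, 4, 5, 22, 22] [] [] 100000 45160 45160 1606455 41935 0 53226 32258 0 19355 0)

lemma s22_22_10_4_17 {n : ℕ} (hn : 5 ≤ n) : NoNd (d22_22_10_4.R : ℤ) d22_22_10_4.H n d22_22_10_4.a d22_22_10_4.b
    (BlkD.inB (BlkD.upd (BlkD.upd (fun _ => 0) 0 3) 0 5)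
      (BlkD.upd (BlkD.upd (BlkD.upd (BlkD.upd (BlkD.upd (fun _ => 22) 0 10) 2 4) 0 5) 1 17) 1 8)) :=
  BlkD.tree_sound (BlkD.pairOk_sound k22_22_10_4) (by decide) hn t22_22_10_4_17 _ _ (by decide +kernel)

/-- certificates of the pair `(10, 4)`, part 18 -/
def t22_22_10_4_18 : BlkD.Tr :=
  .S 1 10 (.S 1 9 (.S 2 2 (.L 6 8 [4, 4, 4, 22, 22] [224, 223, 222, 221, 218, 208] [] 100000 27777
    27777 1633338 44444 0 66667 33333 0 0 0) (.L 6 8 [4, 4, 4, 22, 22] [224, 223, 222, 221, 218,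
    208] [] 100000 21429 21429 1628573 42857 0 57143 28571 0 0 0)) (.S 2 2 (.S 2 1 (.L 6 8 [4, 4,
    4, 22, 22] [253, 252, 251, 250, 249, 246] [] 100000 116668 116668 1433333 66667 33333 100000
    66667 0 0 0) (.S 3 5 (.S 3 2 (.S 3 1 (.L 6 8 [4, 4, 4, 22, 22] [253, 252, 251, 250, 249, 246]
    [] 100000 22222 22222 1577780 44444 0 66667 22222 0 0 0) (.S 4 10 (.S 4 5 (.L 3 4 [5, 6, 8, 22,
    22] [246, 236, 226, 216, 204, 190] [36, 24, 10, 0, 0, 0] 100000 126925 126925 1442308 65385 0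
    80769 46154 0 13462 40385) (.L 3 4 [5, 6, 8, 22, 22] [253, 252, 251, 250, 249, 246] [36, 24,
    10, 0, 0, 0] 100000 320000 0 0 64000 0 420000 92000 0 0 0)) (.E 2))) (.L 6 8 [4, 4, 4, 22, 22]
    [253, 252, 251, 250, 249, 246] [] 100000 91668 91668 1499999 66667 0 100000 50000 0 0 0)) (.E
    1))) (.L 6 8 [4, 4, 4, 22, 22] [253, 252, 251, 250, 249, 246] [] 100000 83334 83334 1499999
    66667 0 100000 33333 0 0 0))) (.S 2 2 (.S 2 1 (.L 6 8 [4, 4, 4, 22, 22] [284, 283, 282, 281,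
    280, 279] [] 100000 100001 100001 1466666 66667 22222 100000 44444 0 0 0) (.L 6 8 [4, 4, 4, 22,
    22] [284, 283, 282, 281, 280, 279] [] 100000 106250 106250 1475000 75000 0 100000 37500 0 0 0))
    (.L 6 8 [4, 4, 4, 22, 22] [284, 283, 282, 281, 280, 279] [] 100000 83334 83334 1499999 66667 0
    100000 33333 0 0 0))

lemma s22_22_10_4_18 {n : ℕ} (hn : 5 ≤ n) : NoNd (d22_22_10_4.R : ℤ) d22_22_10_4.H n d22_22_10_4.a d22_22_10_4.b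
    (BlkD.inB (BlkD.upd (BlkD.upd (BlkD.upd (fun _ => 0) 0 3) 0 5) 1 9)
      (BlkD.upd (BlkD.upd (BlkD.upd (BlkD.upd (BlkD.upd (BlkD.upd (fun _ => 22) 0 10) 2 4) 0 5) 1 17) 1 13) 1 11)) :=
  BlkD.tree_sound (BlkD.pairOk_sound k22_22_10_4) (by decide) hn t22_22_10_4_18 _ _ (by decide +kernel)

/-- certificates of the pair `(10, 4)`, part 19 -/
def t22_22_10_4_19 : BlkD.Tr :=
  .S 1 12 (.L 6 8 [4, 4, 4, 22, 22] [317, 316, 315, 314, 313, 312] [] 100000 133333 133333 1400002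
    83333 0 100000 50000 0 0 0) (.L 6 8 [4, 4, 4, 22, 22] [352, 351, 350, 349, 348, 347] [] 100000
    225000 125000 850000 150000 0 200000 0 0 0 0)

lemma s22_22_10_4_19 {n : ℕ} (hn : 5 ≤ n) : NoNd (d22_22_10_4.R : ℤ) d22_22_10_4.H n d22_22_10_4.a d22_22_10_4.b
    (BlkD.inB (BlkD.upd (BlkD.upd (BlkD.upd (BlkD.upd (fun _ => 0) 0 3) 0 5) 1 9) 1 12)
      (BlkD.upd (BlkD.upd (BlkD.upd (BlkD.upd (BlkD.upd (fun _ => 22) 0 10) 2 4) 0 5) 1 17) 1 13)) :=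
  BlkD.tree_sound (BlkD.pairOk_sound k22_22_10_4) (by decide) hn t22_22_10_4_19 _ _ (by decide +kernel)

/-- certificates of the pair `(10, 4)`, part 20 -/
def t22_22_10_4_20 : BlkD.Tr :=
  .S 1 15 (.S 1 14 (.L 6 8 [4, 4, 4, 22, 22] [389, 388, 387, 386, 385, 384] [] 100000 400000 200000
    2 233333 0 300000 0 0 0 0) (.L 6 8 [4, 4, 4, 22, 22] [428, 427, 426, 425, 424, 423] [] 100000
    366666 233333 3 233333 0 233333 0 0 0 0)) (.S 1 16 (.L 6 8 [4, 4, 4, 22, 22] [469, 468, 467,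
    466, 465, 464] [] 100000 300000 200000 0 200000 0 200000 0 0 0 0) (.L 6 8 [4, 4, 4, 22, 22]
    [512, 511, 510, 509, 508, 507] [] 100000 266666 183333 4 183333 0 183333 0 0 0 0))

lemma s22_22_10_4_20 {n : ℕ} (hn : 5 ≤ n) : NoNd (d22_22_10_4.R : ℤ) d22_22_10_4.H n d22_22_10_4.a d22_22_10_4.b
    (BlkD.inB (BlkD.upd (BlkD.upd (BlkD.upd (BlkD.upd (fun _ => 0) 0 3) 0 5) 1 9) 1 14)
      (BlkD.upd (BlkD.upd (BlkD.upd (BlkD.upd (fun _ => 22) 0 10) 2 4) 0 5) 1 17)) :=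
  BlkD.tree_sound (BlkD.pairOk_sound k22_22_10_4) (by decide) hn t22_22_10_4_20 _ _ (by decide +kernel)

/-- certificates of the pair `(10, 4)`, part 21 -/
def t22_22_10_4_21 : BlkD.Tr :=
  .E 0

lemma s22_22_10_4_21 {n : ℕ} (hn : 5 ≤ n) : NoNd (d22_22_10_4.R : ℤ) d22_22_10_4.H n d22_22_10_4.a d22_22_10_4.b
    (BlkD.inB (BlkD.upd (BlkD.upd (BlkD.upd (fun _ => 0) 0 3) 0 5) 1 18)
      (BlkD.upd (BlkD.upd (BlkD.upd (fun _ => 22) 0 10) 2 4) 0 5)) :=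
  BlkD.tree_sound (BlkD.pairOk_sound k22_22_10_4) (by decide) hn t22_22_10_4_21 _ _ (by decide +kernel)

/-- certificates of the pair `(10, 4)`, part 22 -/
def t22_22_10_4_22 : BlkD.Tr :=
  .L 6 8 [4, 4, 4, 22, 22] [] [] 100000 0 0 1600000 0 0 0 50000 0 0 0

lemma s22_22_10_4_22 {n : ℕ} (hn : 5 ≤ n) : NoNd (d22_22_10_4.R : ℤ) d22_22_10_4.H n d22_22_10_4.a d22_22_10_4.b
    (BlkD.inB (BlkD.upd (fun _ => 0) 0 6)
      (BlkD.upd (BlkD.upd (BlkD.upd (BlkD.upd (BlkD.upd (BlkD.upd (BlkD.upd (BlkD.upd (fun _ => 22) 0 10) 2 4) 0 8) 0 7) 0 6) 1 16) 1 8) 1 4)) :=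
  BlkD.tree_sound (BlkD.pairOk_sound k22_22_10_4) (by decide) hn t22_22_10_4_22 _ _ (by decide +kernel)

/-- certificates of the pair `(10, 4)`, part 23 -/
def t22_22_10_4_23 : BlkD.Tr :=
  .L 6 8 [4, 4, 4, 22, 22] [] [] 100000 2564 2564 1658976 28205 0 56410 35897 0 23077 0

lemma s22_22_10_4_23 {n : ℕ} (hn : 5 ≤ n) : NoNd (d22_22_10_4.R : ℤ) d22_22_10_4.H n d22_22_10_4.a d22_22_10_4.b
    (BlkD.inB (BlkD.upd (BlkD.upd (fun _ => 0) 0 6) 1 5)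
      (BlkD.upd (BlkD.upd (BlkD.upd (BlkD.upd (BlkD.upd (BlkD.upd (BlkD.upd (BlkD.upd (fun _ => 22) 0 10) 2 4) 0 8) 0 7) 0 6) 1 16) 1 8) 1 6)) :=
  BlkD.tree_sound (BlkD.pairOk_sound k22_22_10_4) (by decide) hn t22_22_10_4_23 _ _ (by decide +kernel)

/-- certificates of the pair `(10, 4)`, part 24 -/
def t22_22_10_4_24 : BlkD.Tr :=
  .S 1 7 (.S 2 2 (.S 2 1 (.S 2 0 (.L 6 8 [4, 4, 4, 22, 22] [186, 185, 182, 172, 162, 152] [] 100000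
    12500 12500 1550000 25000 0 25000 75000 0 0 0) (.S 3 8 (.S 3 4 (.L 6 8 [4, 4, 4, 22, 22] [186,
    185, 182, 172, 162, 152] [] 100000 14286 14286 1628574 28571 28571 57143 28571 0 0 0) (.S 3 6
    (.S 3 5 (.S 4 7 (.S 4 3 (.L 6 8 [4, 4, 4, 22, 22] [162, 152, 140, 126, 0, 0] [80, 74, 66, 56,
    44, 30] 100000 50000 50000 1550000 50000 0 100000 50000 0 0 0) (.L 6 8 [4, 4, 4, 22, 22] [186,
    185, 182, 172, 162, 152] [80, 74, 66, 56, 44, 30] 100000 300001 1 99999 66667 66667 400000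
    200000 0 0 0)) (.E 2)) (.L 6 8 [4, 4, 4, 22, 22] [186, 185, 182, 172, 162, 152] [94, 92, 86,
    78, 68, 56] 100000 250000 250000 1100000 100000 0 100000 100000 0 0 0)) (.E 1))) (.E 1))) (.S 3
    7 (.S 3 3 (.L 6 8 [4, 4, 4, 22, 22] [186, 185, 182, 172, 162, 152] [] 100000 7692 7692 1676925
    30769 0 46154 30769 0 15385 0) (.S 3 5 (.S 3 4 (.S 4 7 (.S 4 3 (.L 6 8 [4, 4, 4, 22, 22] [162,
    152, 140, 126, 0, 0] [72, 64, 54, 42, 28, 0] 100000 50000 50000 1550000 50000 0 100000 50000 0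
    0 0) (.L 6 8 [4, 4, 4, 22, 22] [186, 185, 182, 172, 162, 152] [72, 64, 54, 42, 28, 0] 100000
    233334 1 433334 66667 0 333333 66667 0 0 0)) (.E 2)) (.L 6 8 [4, 4, 4, 22, 22] [186, 185, 182,
    172, 162, 152] [90, 84, 76, 66, 54, 40] 100000 250000 250000 1100000 100000 0 100000 100000 0 0
    0)) (.E 1))) (.E 1))) (.S 2 3 (.S 3 6 (.S 3 3 (.S 3 1 (.L 6 8 [4, 4, 4, 22, 22] [186, 185, 182,
    172, 162, 152] [] 100000 0 0 1642858 28571 0 57143 28571 0 28571 0) (.S 3 2 (.L 6 8 [4, 4, 4,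
    22, 22] [186, 185, 182, 172, 162, 152] [40, 28, 14, 0, 0, 0] 100000 0 0 1657145 28571 0 57143
    28571 0 28571 0) (.S 4 7 (.S 4 3 (.L 6 8 [4, 4, 4, 22, 22] [162, 152, 140, 126, 0, 0] [60, 50,
    38, 24, 0, 0] 100000 83335 83335 1466665 66667 0 100000 33333 0 33333 33333) (.L 6 8 [4, 4, 4,
    22, 22] [186, 185, 182, 172, 162, 152] [60, 50, 38, 24, 0, 0] 100000 233334 1 433334 66667 0
    333333 0 0 0 0)) (.E 2)))) (.E 1)) (.E 1)) (.L 6 8 [4, 4, 4, 22, 22] [186, 185, 182, 172, 162,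
    152] [] 100000 20000 20000 1620000 40000 0 40000 0 0 0 0))) (.S 2 2 (.S 2 1 (.S 2 0 (.L 6 8 [4,
    4, 4, 22, 22] [213, 212, 211, 208, 198, 188] [] 100000 16000 16000 1564000 32000 0 40000 72000
    0 0 0) (.S 3 7 (.S 3 3 (.L 6 8 [4, 4, 4, 22, 22] [213, 212, 211, 208, 198, 188] [] 100000 14286
    14286 1628574 28571 28571 57143 57143 0 0 0) (.S 3 5 (.S 3 4 (.L 6 8 [4, 4, 4, 22, 22] [213,
    212, 211, 208, 198, 188] [64, 56, 46, 34, 20, 0] 100000 17308 17308 1657695 34615 19231 65385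
    42308 0 0 0) (.S 4 8 (.S 4 4 (.L 6 8 [4, 4, 4, 22, 22] [198, 188, 178, 166, 152, 0] [80, 74,
    66, 56, 44, 30] 100000 160000 160000 1320000 80000 40000 100000 80000 0 0 0) (.L 6 8 [4, 4, 4,
    22, 22] [213, 212, 211, 208, 198, 188] [80, 74, 66, 56, 44, 30] 100000 320000 0 0 84000 0
    420000 34000 0 0 0)) (.E 2))) (.L 6 8 [4, 4, 4, 22, 22] [213, 212, 211, 208, 198, 188] []
    100000 635000 525000 0 210000 0 210000 210000 0 0 0))) (.E 1))) (.S 3 6 (.S 3 3 (.S 3 1 (.L 6 8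
    [4, 4, 4, 22, 22] [213, 212, 211, 208, 198, 188] [] 100000 16667 16667 1600001 33333 33333
    66667 33333 0 0 0) (.S 3 2 (.L 6 8 [4, 4, 4, 22, 22] [213, 212, 211, 208, 198, 188] [36, 24,
    10, 0, 0, 0] 100000 18750 18750 1650000 37500 6250 68750 31250 0 0 0) (.S 4 8 (.S 4 4 (.S 4 2
    (.L 6 8 [4, 4, 4, 22, 22] [178, 166, 152, 0, 0, 0] [54, 44, 32, 18, 0, 0] 100000 25000 25000
    1600000 50000 0 100000 50000 0 0 0) (.L 6 8 [4, 4, 4, 22, 22] [198, 188, 178, 166, 152, 0] [54,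
    44, 32, 18, 0, 0] 100000 16667 16667 1566668 33333 0 100000 16667 0 0 0)) (.L 6 8 [4, 4, 4, 22,
    22] [213, 212, 211, 208, 198, 188] [54, 44, 32, 18, 0, 0] 100000 233334 1 433334 66667 0 333333
    66667 0 0 0)) (.E 2)))) (.S 3 5 (.S 3 4 (.S 4 8 (.S 4 4 (.L 6 8 [4, 4, 4, 22, 22] [198, 188,
    178, 166, 152, 0] [72, 64, 54, 42, 28, 0] 100000 112500 112500 1425000 75000 0 100000 50000 0
    25000 25000) (.L 6 8 [4, 4, 4, 22, 22] [213, 212, 211, 208, 198, 188] [72, 64, 54, 42, 28, 0]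
    100000 300000 0 0 0 0 400000 0 0 0 0)) (.E 2)) (.L 6 8 [4, 4, 4, 22, 22] [213, 212, 211, 208,
    198, 188] [90, 84, 76, 66, 54, 40] 100000 635000 525000 0 210000 0 210000 210000 0 0 0)) (.E
    1))) (.E 1))) (.S 2 3 (.S 3 5 (.S 3 2 (.S 3 1 (.L 6 8 [4, 4, 4, 22, 22] [213, 212, 211, 208,
    198, 188] [] 100000 15625 15625 1650000 37500 12500 62500 43750 0 6250 6250) (.S 4 8 (.S 4 4
    (.L 5 7 [4, 4, 5, 22, 22] [198, 188, 178, 166, 152, 0] [40, 28, 14, 0, 0, 0] 100000 0 0 1666669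
    33333 0 66667 33333 0 33333 33333) (.L 5 7 [4, 4, 5, 22, 22] [213, 212, 211, 208, 198, 188]
    [40, 28, 14, 0, 0, 0] 100000 313044 1 1 82609 0 413043 0 0 0 0)) (.E 2))) (.L 5 7 [4, 4, 5, 22,
    22] [213, 212, 211, 208, 198, 188] [] 100000 150000 150000 1360000 80000 0 100000 0 0 0 0)) (.E
    1)) (.L 5 7 [4, 4, 5, 22, 22] [213, 212, 211, 208, 198, 188] [] 100000 200000 200000 1200000
    100000 0 100000 0 0 0 0)))

lemma s22_22_10_4_24 {n : ℕ} (hn : 5 ≤ n) : NoNd (d22_22_10_4.R : ℤ) d22_22_10_4.H n d22_22_10_4.a d22_22_10_4.b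
    (BlkD.inB (BlkD.upd (BlkD.upd (BlkD.upd (fun _ => 0) 0 6) 1 5) 1 7)
      (BlkD.upd (BlkD.upd (BlkD.upd (BlkD.upd (BlkD.upd (BlkD.upd (BlkD.upd (fun _ => 22) 0 10) 2 4) 0 8) 0 7) 0 6) 1 16) 1 8)) :=
  BlkD.tree_sound (BlkD.pairOk_sound k22_22_10_4) (by decide) hn t22_22_10_4_24 _ _ (by decide +kernel)

/-- certificates of the pair `(10, 4)`, part 25 -/
def t22_22_10_4_25 : BlkD.Tr :=
  .S 2 2 (.S 2 1 (.S 2 0 (.L 5 7 [4, 4, 5, 22, 22] [242, 241, 240, 239, 236, 226] [] 100000 75001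
    75001 1483333 50000 0 66667 66667 0 0 16667) (.S 3 6 (.S 3 3 (.S 3 1 (.L 5 7 [4, 4, 5, 22, 22]
    [242, 241, 240, 239, 236, 226] [] 100000 12500 12500 1600000 25000 25000 50000 25000 0 0 0) (.S
    3 2 (.L 5 7 [4, 4, 5, 22, 22] [242, 241, 240, 239, 236, 226] [32, 20, 6, 0, 0, 0] 100000 25000
    25000 1620000 30000 30000 60000 60000 0 0 20000) (.S 4 9 (.S 4 4 (.L 5 7 [4, 4, 5, 22, 22]
    [226, 216, 206, 194, 180, 0] [48, 38, 26, 12, 0, 0] 100000 100000 100000 1480000 60000 40000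
    100000 60000 0 0 0) (.L 5 7 [4, 4, 5, 22, 22] [242, 241, 240, 239, 236, 226] [48, 38, 26, 12,
    0, 0] 100000 50000 0 1350001 33333 0 150000 16667 0 0 0)) (.E 2)))) (.L 6 8 [4, 4, 4, 22, 22]
    [242, 241, 240, 239, 236, 226] [] 100000 150000 150000 1375000 75000 50000 100000 75000 0 0 0))
    (.E 1))) (.S 3 5 (.S 3 2 (.S 3 1 (.L 6 8 [4, 4, 4, 22, 22] [242, 241, 240, 239, 236, 226] []
    100000 20000 20000 1640000 40000 0 60000 20000 0 0 0) (.S 4 9 (.S 4 4 (.S 4 2 (.L 5 7 [4, 4, 5,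
    22, 22] [206, 194, 180, 0, 0, 0] [36, 24, 10, 0, 0, 0] 100000 21875 21875 1637500 43750 3125
    81250 40625 0 0 18750) (.L 5 7 [4, 4, 5, 22, 22] [226, 216, 206, 194, 180, 0] [36, 24, 10, 0,
    0, 0] 100000 43750 43750 1550000 50000 0 100000 25000 0 25000 12500)) (.L 5 7 [4, 4, 5, 22, 22]
    [242, 241, 240, 239, 236, 226] [36, 24, 10, 0, 0, 0] 100000 50000 0 1350001 33333 0 150000
    16667 0 0 0)) (.E 2))) (.S 3 4 (.S 3 3 (.S 4 9 (.S 4 4 (.L 5 7 [4, 4, 5, 22, 22] [226, 216,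
    206, 194, 180, 0] [54, 44, 32, 18, 0, 0] 100000 133333 133333 1416669 83333 0 100000 50000 0
    33333 0) (.L 5 7 [4, 4, 5, 22, 22] [242, 241, 240, 239, 236, 226] [54, 44, 32, 18, 0, 0] 100000
    200001 1 600000 66667 0 300000 33333 0 0 0)) (.E 2)) (.L 6 8 [4, 4, 4, 22, 22] [242, 241, 240,
    239, 236, 226] [72, 64, 54, 42, 28, 0] 100000 599999 466666 3 233333 0 233333 233333 0 0 0))
    (.L 6 8 [4, 4, 4, 22, 22] [242, 241, 240, 239, 236, 226] [90, 84, 76, 66, 54, 40] 100000 320001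
    1 0 106667 0 306667 420000 0 0 0))) (.E 1))) (.S 2 3 (.S 3 4 (.S 3 2 (.S 3 1 (.S 3 0 (.L 6 8
    [4, 4, 4, 22, 22] [242, 241, 240, 239, 236, 226] [0, 0, 0, 0, 0, 0] 100000 20000 20000 1640000
    40000 0 60000 0 0 0 0) (.S 4 9 (.S 4 4 (.L 6 8 [4, 4, 4, 22, 22] [226, 216, 206, 194, 180, 0]
    [20, 6, 0, 0, 0, 0] 100000 12500 12500 1656250 43750 25000 68750 43750 0 18750 18750) (.L 6 8
    [4, 4, 4, 22, 22] [242, 241, 240, 239, 236, 226] [20, 6, 0, 0, 0, 0] 100000 100000 0 1100000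
    50000 0 200000 0 0 0 0)) (.E 2))) (.L 6 8 [4, 4, 4, 22, 22] [242, 241, 240, 239, 236, 226] [40,
    28, 14, 0, 0, 0] 100000 116668 116668 1455555 77778 0 100000 33333 0 33333 33333)) (.L 6 8 [4,
    4, 4, 22, 22] [242, 241, 240, 239, 236, 226] [] 100000 575000 425000 0 250000 0 250000 100000 0
    0 0)) (.E 1)) (.L 5 7 [4, 4, 5, 22, 22] [242, 241, 240, 239, 236, 226] [] 100000 200000 200000
    1200000 100000 0 100000 0 0 0 0))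

lemma s22_22_10_4_25 {n : ℕ} (hn : 5 ≤ n) : NoNd (d22_22_10_4.R : ℤ) d22_22_10_4.H n d22_22_10_4.a d22_22_10_4.b
    (BlkD.inB (BlkD.upd (BlkD.upd (fun _ => 0) 0 6) 1 9)
      (BlkD.upd (BlkD.upd (BlkD.upd (BlkD.upd (BlkD.upd (BlkD.upd (BlkD.upd (BlkD.upd (BlkD.upd (fun _ => 22) 0 10) 2 4) 0 8) 0 7) 0 6) 1 16) 1 12) 1 10) 1 9)) :=
  BlkD.tree_sound (BlkD.pairOk_sound k22_22_10_4) (by decide) hn t22_22_10_4_25 _ _ (by decide +kernel)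

/-- certificates of the pair `(10, 4)`, part 26 -/
def t22_22_10_4_26 : BlkD.Tr :=
  .S 2 2 (.S 2 1 (.S 2 0 (.L 5 7 [4, 4, 5, 22, 22] [273, 272, 271, 270, 269, 266] [] 100000 73076
    73076 1450003 57692 0 80769 53846 0 0 0) (.S 3 5 (.S 3 2 (.L 5 7 [4, 4, 5, 22, 22] [273, 272,
    271, 270, 269, 266] [] 100000 62500 62500 1550000 50000 25000 75000 50000 0 0 0) (.S 3 4 (.S 3
    3 (.S 4 10 (.S 4 5 (.L 5 7 [4, 4, 5, 22, 22] [266, 256, 246, 236, 224, 210] [48, 38, 26, 12, 0,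
    0] 100000 116668 116668 1433333 66667 33333 100000 66667 0 0 0) (.L 5 7 [4, 4, 5, 22, 22] [273,
    272, 271, 270, 269, 266] [48, 38, 26, 12, 0, 0] 100000 266668 1 266665 66667 33333 366667 66667
    0 0 0)) (.E 2)) (.L 5 7 [4, 4, 5, 22, 22] [273, 272, 271, 270, 269, 266] [64, 56, 46, 34, 20,
    0] 100000 635000 525000 0 210000 210000 210000 210000 0 0 0)) (.L 5 7 [4, 4, 5, 22, 22] [273,
    272, 271, 270, 269, 266] [80, 74, 66, 56, 44, 30] 100000 511110 366666 4 244444 0 244444 0 0 0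
    0))) (.L 5 7 [4, 4, 5, 22, 22] [273, 272, 271, 270, 269, 266] [] 100000 0 100000 0 0 0 0 0 0 0
    0))) (.S 3 4 (.S 3 2 (.S 3 1 (.L 6 8 [4, 4, 4, 22, 22] [273, 272, 271, 270, 269, 266] [] 100000
    22729 22729 1627271 45455 18182 72727 18182 0 0 0) (.S 4 10 (.S 4 5 (.S 4 2 (.L 6 8 [4, 4, 4,
    22, 22] [236, 224, 210, 0, 0, 0] [36, 24, 10, 0, 0, 0] 100000 50000 50000 1525000 75000 0
    100000 25000 0 0 0) (.L 6 8 [4, 4, 4, 22, 22] [266, 256, 246, 236, 224, 210] [36, 24, 10, 0, 0,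
    0] 100000 34375 34375 1575000 56250 0 100000 18750 0 12500 12500)) (.L 6 8 [4, 4, 4, 22, 22]
    [273, 272, 271, 270, 269, 266] [36, 24, 10, 0, 0, 0] 100000 300000 0 100000 100000 0 400000
    50000 0 0 0)) (.E 2))) (.L 5 7 [4, 4, 5, 22, 22] [273, 272, 271, 270, 269, 266] [] 100000
    183334 183334 1300000 100000 0 100000 66667 0 33333 0)) (.L 5 7 [4, 4, 5, 22, 22] [273, 272,
    271, 270, 269, 266] [] 100000 0 100000 0 0 0 0 0 0 0 0))) (.S 2 3 (.S 3 3 (.S 3 1 (.S 3 0 (.L 5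
    7 [4, 4, 5, 22, 22] [273, 272, 271, 270, 269, 266] [0, 0, 0, 0, 0, 0] 100000 50000 50000
    1550000 50000 0 100000 0 0 0 0) (.S 4 10 (.S 4 5 (.L 5 7 [4, 4, 5, 22, 22] [266, 256, 246, 236,
    224, 210] [20, 6, 0, 0, 0, 0] 100000 68750 68750 1550000 62500 0 100000 12500 0 12500 12500)
    (.L 5 7 [4, 4, 5, 22, 22] [273, 272, 271, 270, 269, 266] [20, 6, 0, 0, 0, 0] 100000 300000 0 0
    100000 0 400000 0 0 0 0)) (.E 2))) (.L 5 7 [4, 4, 5, 22, 22] [273, 272, 271, 270, 269, 266] []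
    100000 556250 393750 0 262500 0 262500 0 0 100000 0)) (.E 1)) (.L 5 7 [4, 4, 5, 22, 22] [273,
    272, 271, 270, 269, 266] [] 100000 525000 375000 0 250000 0 250000 0 0 100000 0))

lemma s22_22_10_4_26 {n : ℕ} (hn : 5 ≤ n) : NoNd (d22_22_10_4.R : ℤ) d22_22_10_4.H n d22_22_10_4.a d22_22_10_4.b
    (BlkD.inB (BlkD.upd (BlkD.upd (BlkD.upd (fun _ => 0) 0 6) 1 9) 1 10)
      (BlkD.upd (BlkD.upd (BlkD.upd (BlkD.upd (BlkD.upd (BlkD.upd (BlkD.upd (BlkD.upd (fun _ => 22) 0 10) 2 4) 0 8) 0 7) 0 6) 1 16) 1 12) 1 10)) :=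
  BlkD.tree_sound (BlkD.pairOk_sound k22_22_10_4) (by decide) hn t22_22_10_4_26 _ _ (by decide +kernel)

/-- certificates of the pair `(10, 4)`, part 27 -/
def t22_22_10_4_27 : BlkD.Tr :=
  .S 1 11 (.L 5 7 [4, 4, 5, 22, 22] [306, 305, 304, 303, 302, 301] [] 100000 83334 83334 1499999
    66667 0 100000 33333 0 0 0) (.L 5 7 [4, 4, 5, 22, 22] [341, 340, 339, 338, 337, 336] [] 100000
    150001 95456 1136364 109091 0 154545 18182 0 0 9091)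

lemma s22_22_10_4_27 {n : ℕ} (hn : 5 ≤ n) : NoNd (d22_22_10_4.R : ℤ) d22_22_10_4.H n d22_22_10_4.a d22_22_10_4.b
    (BlkD.inB (BlkD.upd (BlkD.upd (BlkD.upd (fun _ => 0) 0 6) 1 9) 1 11)
      (BlkD.upd (BlkD.upd (BlkD.upd (BlkD.upd (BlkD.upd (BlkD.upd (BlkD.upd (fun _ => 22) 0 10) 2 4) 0 8) 0 7) 0 6) 1 16) 1 12)) :=
  BlkD.tree_sound (BlkD.pairOk_sound k22_22_10_4) (by decide) hn t22_22_10_4_27 _ _ (by decide +kernel)

/-- certificates of the pair `(10, 4)`, part 28 -/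
def t22_22_10_4_28 : BlkD.Tr :=
  .S 1 14 (.S 1 13 (.L 5 7 [4, 4, 5, 22, 22] [378, 377, 376, 375, 374, 373] [] 100000 442858 271429
    0 271429 0 271429 0 0 0 0) (.L 5 7 [4, 4, 5, 22, 22] [417, 416, 415, 414, 413, 412] [] 100000
    308334 141667 0 216667 0 266667 0 0 0 0)) (.S 1 15 (.L 5 7 [4, 4, 5, 22, 22] [458, 457, 456,
    455, 454, 453] [] 100000 320000 210000 0 210000 0 210000 0 0 0 0) (.L 5 7 [4, 4, 5, 22, 22]
    [501, 500, 499, 498, 497, 496] [] 100000 266666 183333 4 183333 0 183333 0 0 0 0))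

lemma s22_22_10_4_28 {n : ℕ} (hn : 5 ≤ n) : NoNd (d22_22_10_4.R : ℤ) d22_22_10_4.H n d22_22_10_4.a d22_22_10_4.b
    (BlkD.inB (BlkD.upd (BlkD.upd (BlkD.upd (fun _ => 0) 0 6) 1 9) 1 13)
      (BlkD.upd (BlkD.upd (BlkD.upd (BlkD.upd (BlkD.upd (BlkD.upd (fun _ => 22) 0 10) 2 4) 0 8) 0 7) 0 6) 1 16)) :=
  BlkD.tree_sound (BlkD.pairOk_sound k22_22_10_4) (by decide) hn t22_22_10_4_28 _ _ (by decide +kernel)

/-- certificates of the pair `(10, 4)`, part 29 -/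
def t22_22_10_4_29 : BlkD.Tr :=
  .E 0

lemma s22_22_10_4_29 {n : ℕ} (hn : 5 ≤ n) : NoNd (d22_22_10_4.R : ℤ) d22_22_10_4.H n d22_22_10_4.a d22_22_10_4.b
    (BlkD.inB (BlkD.upd (BlkD.upd (fun _ => 0) 0 6) 1 17)
      (BlkD.upd (BlkD.upd (BlkD.upd (BlkD.upd (BlkD.upd (fun _ => 22) 0 10) 2 4) 0 8) 0 7) 0 6)) :=
  BlkD.tree_sound (BlkD.pairOk_sound k22_22_10_4) (by decide) hn t22_22_10_4_29 _ _ (by decide +kernel)

/-- certificates of the pair `(10, 4)`, part 30 -/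
def t22_22_10_4_30 : BlkD.Tr :=
  .L 5 7 [4, 4, 5, 22, 22] [] [] 100000 16667 16667 1533335 33333 0 33333 33333 0 0 0

lemma s22_22_10_4_30 {n : ℕ} (hn : 5 ≤ n) : NoNd (d22_22_10_4.R : ℤ) d22_22_10_4.H n d22_22_10_4.a d22_22_10_4.b
    (BlkD.inB (BlkD.upd (BlkD.upd (fun _ => 0) 0 6) 0 7)
      (BlkD.upd (BlkD.upd (BlkD.upd (BlkD.upd (BlkD.upd (BlkD.upd (BlkD.upd (fun _ => 22) 0 10) 2 4) 0 8) 0 7) 1 15) 1 7) 1 3)) :=
  BlkD.tree_sound (BlkD.pairOk_sound k22_22_10_4) (by decide) hn t22_22_10_4_30 _ _ (by decide +kernel)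

/-- certificates of the pair `(10, 4)`, part 31 -/
def t22_22_10_4_31 : BlkD.Tr :=
  .L 5 7 [4, 4, 5, 22, 22] [] [] 100000 0 0 1696298 25926 0 25926 37037 0 29630 25926

lemma s22_22_10_4_31 {n : ℕ} (hn : 5 ≤ n) : NoNd (d22_22_10_4.R : ℤ) d22_22_10_4.H n d22_22_10_4.a d22_22_10_4.b
    (BlkD.inB (BlkD.upd (BlkD.upd (BlkD.upd (fun _ => 0) 0 6) 0 7) 1 4)
      (BlkD.upd (BlkD.upd (BlkD.upd (BlkD.upd (BlkD.upd (BlkD.upd (BlkD.upd (fun _ => 22) 0 10) 2 4) 0 8) 0 7) 1 15) 1 7) 1 5)) :=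
  BlkD.tree_sound (BlkD.pairOk_sound k22_22_10_4) (by decide) hn t22_22_10_4_31 _ _ (by decide +kernel)

/-- certificates of the pair `(10, 4)`, part 32 -/
def t22_22_10_4_32 : BlkD.Tr :=
  .S 1 6 (.S 2 2 (.S 2 1 (.S 2 0 (.L 5 7 [4, 4, 5, 22, 22] [173, 170, 160, 150, 140, 128] [] 100000
    12500 12500 1550000 25000 0 25000 75000 0 0 0) (.S 3 8 (.S 3 4 (.L 6 8 [4, 4, 4, 22, 22] [173,
    170, 160, 150, 140, 128] [] 100000 16667 16667 1633335 33333 25000 50000 41667 0 0 0) (.S 3 6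
    (.S 3 5 (.S 4 6 (.S 4 3 (.S 4 1 (.L 6 8 [4, 4, 4, 22, 22] [128, 114, 0, 0, 0, 0] [80, 74, 66,
    56, 44, 30] 100000 25000 25000 1600000 50000 0 50000 50000 0 0 0) (.L 6 8 [4, 4, 4, 22, 22]
    [150, 140, 128, 114, 0, 0] [80, 74, 66, 56, 44, 30] 100000 13890 13890 1572222 27778 27778
    94444 61111 0 0 0)) (.L 6 8 [4, 4, 4, 22, 22] [173, 170, 160, 150, 140, 128] [80, 74, 66, 56,
    44, 30] 100000 233334 1 433334 66667 66667 333333 166667 0 0 0)) (.E 2)) (.L 6 8 [4, 4, 4, 22,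
    22] [173, 170, 160, 150, 140, 128] [94, 92, 86, 78, 68, 56] 100000 12500 12500 1575000 25000 0
    100000 100000 0 0 0)) (.E 1))) (.E 1))) (.S 3 7 (.S 3 3 (.L 6 8 [4, 4, 4, 22, 22] [173, 170,
    160, 150, 140, 128] [] 100000 4167 4167 1683335 33333 8333 58333 25000 0 25000 8333) (.S 3 5
    (.S 3 4 (.S 4 6 (.S 4 3 (.S 4 1 (.L 6 8 [4, 4, 4, 22, 22] [128, 114, 0, 0, 0, 0] [72, 64, 54,
    42, 28, 0] 100000 25000 25000 1600000 50000 0 50000 50000 0 0 0) (.L 6 8 [4, 4, 4, 22, 22]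
    [150, 140, 128, 114, 0, 0] [72, 64, 54, 42, 28, 0] 100000 0 0 1625000 25000 0 100000 12500 0
    25000 25000)) (.L 6 8 [4, 4, 4, 22, 22] [173, 170, 160, 150, 140, 128] [72, 64, 54, 42, 28, 0]
    100000 166668 1 766666 66667 0 266667 33333 0 0 0)) (.E 2)) (.L 6 8 [4, 4, 4, 22, 22] [173,
    170, 160, 150, 140, 128] [90, 84, 76, 66, 54, 40] 100000 12500 12500 1575000 25000 0 100000
    100000 0 0 0)) (.E 1))) (.E 1))) (.S 2 3 (.S 3 6 (.S 3 3 (.S 3 1 (.L 6 8 [4, 4, 4, 22, 22]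
    [173, 170, 160, 150, 140, 128] [] 100000 9092 9092 1645455 36364 18182 54545 36364 0 18182
    18182) (.S 3 2 (.L 6 8 [4, 4, 4, 22, 22] [173, 170, 160, 150, 140, 128] [40, 28, 14, 0, 0, 0]
    100000 0 0 1666668 33333 0 50000 33333 0 33333 0) (.S 4 6 (.S 4 3 (.S 4 1 (.L 6 8 [4, 4, 4, 22,
    22] [128, 114, 0, 0, 0, 0] [60, 50, 38, 24, 0, 0] 100000 25000 25000 1600000 50000 0 50000
    50000 0 0 0) (.L 6 8 [4, 4, 4, 22, 22] [150, 140, 128, 114, 0, 0] [60, 50, 38, 24, 0, 0] 100000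
    0 0 1625000 25000 0 100000 0 0 25000 25000)) (.L 6 8 [4, 4, 4, 22, 22] [173, 170, 160, 150,
    140, 128] [60, 50, 38, 24, 0, 0] 100000 166668 1 766665 66667 0 266667 0 0 0 0)) (.E 2)))) (.E
    1)) (.E 1)) (.L 6 8 [4, 4, 4, 22, 22] [173, 170, 160, 150, 140, 128] [] 100000 22222 22222
    1633336 44444 0 66667 0 0 22222 22222))) (.S 2 2 (.S 2 1 (.S 2 0 (.L 6 8 [4, 4, 4, 22, 22]
    [200, 199, 196, 186, 176, 166] [] 100000 16667 16667 1566668 33333 0 66667 66667 0 0 0) (.S 3 7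
    (.S 3 3 (.L 6 8 [4, 4, 4, 22, 22] [200, 199, 196, 186, 176, 166] [] 100000 16667 16667 1633335
    33333 33333 66667 33333 0 0 0) (.S 3 5 (.S 3 4 (.S 4 7 (.S 4 3 (.L 6 8 [4, 4, 4, 22, 22] [176,
    166, 154, 140, 0, 0] [64, 56, 46, 34, 20, 0] 100000 50000 50000 1550000 50000 50000 100000
    50000 0 0 0) (.L 6 8 [4, 4, 4, 22, 22] [200, 199, 196, 186, 176, 166] [64, 56, 46, 34, 20, 0]
    100000 66667 0 1266667 33333 33333 166667 66667 0 0 0)) (.E 2)) (.S 4 7 (.S 4 3 (.L 6 8 [4, 4,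
    4, 22, 22] [176, 166, 154, 140, 0, 0] [80, 74, 66, 56, 44, 30] 100000 112500 112500 1425000
    75000 25000 100000 50000 0 0 0) (.L 6 8 [4, 4, 4, 22, 22] [200, 199, 196, 186, 176, 166] [80,
    74, 66, 56, 44, 30] 100000 320000 0 0 100000 20000 420000 220000 0 0 0)) (.E 2))) (.L 6 8 [4,
    4, 4, 22, 22] [200, 199, 196, 186, 176, 166] [] 100000 350000 50000 0 100000 0 400000 400000 0
    0 0))) (.E 1))) (.S 3 6 (.S 3 3 (.S 3 1 (.L 6 8 [4, 4, 4, 22, 22] [200, 199, 196, 186, 176,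
    166] [] 100000 20000 20000 1620000 40000 0 80000 40000 0 0 0) (.S 3 2 (.S 4 7 (.S 4 3 (.S 4 1
    (.L 6 8 [4, 4, 4, 22, 22] [154, 140, 0, 0, 0, 0] [36, 24, 10, 0, 0, 0] 100000 28572 28572
    1614286 57143 14286 78571 35714 0 0 0) (.L 6 8 [4, 4, 4, 22, 22] [176, 166, 154, 140, 0, 0]
    [36, 24, 10, 0, 0, 0] 100000 0 0 1633335 33333 0 100000 33333 0 33333 33333)) (.L 6 8 [4, 4, 4,
    22, 22] [200, 199, 196, 186, 176, 166] [36, 24, 10, 0, 0, 0] 100000 0 0 1600000 0 0 100000 0 0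
    0 0)) (.E 2)) (.S 4 7 (.S 4 3 (.L 6 8 [4, 4, 4, 22, 22] [176, 166, 154, 140, 0, 0] [54, 44, 32,
    18, 0, 0] 100000 3391 3391 1679660 44068 0 74576 28814 0 37288 13559) (.L 6 8 [4, 4, 4, 22, 22]
    [200, 199, 196, 186, 176, 166] [54, 44, 32, 18, 0, 0] 100000 33333 0 1433335 33333 0 133333
    16667 0 0 0)) (.E 2)))) (.S 3 5 (.S 3 4 (.S 4 7 (.S 4 3 (.L 6 8 [4, 4, 4, 22, 22] [176, 166,
    154, 140, 0, 0] [72, 64, 54, 42, 28, 0] 100000 66668 66668 1533332 66667 0 100000 33333 0 0 0)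
    (.L 6 8 [4, 4, 4, 22, 22] [200, 199, 196, 186, 176, 166] [72, 64, 54, 42, 28, 0] 100000 300000
    0 100000 100000 0 400000 100000 0 0 0)) (.E 2)) (.L 6 8 [4, 4, 4, 22, 22] [200, 199, 196, 186,
    176, 166] [90, 84, 76, 66, 54, 40] 100000 350000 50000 0 100000 0 400000 400000 0 0 0)) (.E
    1))) (.E 1))) (.S 2 3 (.S 3 5 (.S 3 2 (.S 3 1 (.L 6 8 [4, 4, 4, 22, 22] [200, 199, 196, 186,
    176, 166] [] 100000 11765 11765 1670589 35294 23529 58824 47059 0 11765 11765) (.S 4 7 (.S 4 3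
    (.L 6 8 [4, 4, 4, 22, 22] [176, 166, 154, 140, 0, 0] [40, 28, 14, 0, 0, 0] 100000 0 0 1681250
    43750 0 65625 0 0 43750 18750) (.L 6 8 [4, 4, 4, 22, 22] [200, 199, 196, 186, 176, 166] [40,
    28, 14, 0, 0, 0] 100000 33333 0 1433335 33333 0 133333 0 0 0 0)) (.E 2))) (.S 3 4 (.S 3 3 (.S 4
    7 (.S 4 3 (.L 6 8 [4, 4, 4, 22, 22] [176, 166, 154, 140, 0, 0] [60, 50, 38, 24, 0, 0] 100000
    66668 66668 1533332 66667 0 100000 33333 0 0 0) (.L 6 8 [4, 4, 4, 22, 22] [200, 199, 196, 186,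
    176, 166] [60, 50, 38, 24, 0, 0] 100000 300000 0 100000 100000 0 400000 100000 0 0 0)) (.E 2))
    (.E 1)) (.E 1))) (.E 1)) (.S 3 4 (.S 3 2 (.S 3 1 (.L 6 8 [4, 4, 4, 22, 22] [200, 199, 196, 186,
    176, 166] [] 100000 1 1 1690908 36364 0 36364 0 0 36364 18182) (.S 4 7 (.S 4 3 (.L 6 8 [4, 4,
    4, 22, 22] [176, 166, 154, 140, 0, 0] [44, 32, 18, 0, 0, 0] 100000 150000 150000 1300000 100000
    0 100000 0 0 0 0) (.L 6 8 [4, 4, 4, 22, 22] [200, 199, 196, 186, 176, 166] [44, 32, 18, 0, 0,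
    0] 100000 300000 0 100000 100000 0 400000 0 0 0 0)) (.E 2))) (.E 1)) (.E 1))))

lemma s22_22_10_4_32 {n : ℕ} (hn : 5 ≤ n) : NoNd (d22_22_10_4.R : ℤ) d22_22_10_4.H n d22_22_10_4.a d22_22_10_4.b
    (BlkD.inB (BlkD.upd (BlkD.upd (BlkD.upd (BlkD.upd (fun _ => 0) 0 6) 0 7) 1 4) 1 6)
      (BlkD.upd (BlkD.upd (BlkD.upd (BlkD.upd (BlkD.upd (BlkD.upd (fun _ => 22) 0 10) 2 4) 0 8) 0 7) 1 15) 1 7)) :=
  BlkD.tree_sound (BlkD.pairOk_sound k22_22_10_4) (by decide) hn t22_22_10_4_32 _ _ (by decide +kernel)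

/-- certificates of the pair `(10, 4)`, part 33 -/
def t22_22_10_4_33 : BlkD.Tr :=
  .S 1 11 (.S 1 9 (.S 1 8 (.S 2 2 (.S 2 1 (.S 2 0 (.L 6 8 [4, 4, 4, 22, 22] [229, 228, 227, 224,
    214, 204] [] 100000 20000 20000 1560000 40000 0 80000 60000 0 0 0) (.S 3 6 (.S 3 3 (.L 6 8 [4,
    4, 4, 22, 22] [229, 228, 227, 224, 214, 204] [] 100000 18750 18750 1637500 37500 37500 75000
    37500 0 0 0) (.S 3 5 (.S 3 4 (.S 4 8 (.S 4 4 (.L 6 8 [4, 4, 4, 22, 22] [214, 204, 194, 182,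
    168, 0] [64, 56, 46, 34, 20, 0] 100000 50000 50000 1550000 50000 50000 100000 50000 0 0 0) (.L
    6 8 [4, 4, 4, 22, 22] [229, 228, 227, 224, 214, 204] [64, 56, 46, 34, 20, 0] 100000 320000 0 0
    100000 20000 420000 100000 0 0 0)) (.E 2)) (.L 6 8 [4, 4, 4, 22, 22] [229, 228, 227, 224, 214,
    204] [80, 74, 66, 56, 44, 30] 100000 158333 158333 1350003 83333 33333 100000 66667 0 0 0)) (.L
    6 8 [4, 4, 4, 22, 22] [229, 228, 227, 224, 214, 204] [94, 92, 86, 78, 68, 56] 100000 238462 0 1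
    84615 0 338462 253846 0 0 0))) (.E 1))) (.S 3 5 (.S 3 2 (.S 3 1 (.L 6 8 [4, 4, 4, 22, 22] [229,
    228, 227, 224, 214, 204] [] 100000 21429 21429 1628572 42857 0 85714 0 0 0 0) (.S 4 8 (.S 4 4
    (.S 4 2 (.L 6 8 [4, 4, 4, 22, 22] [194, 182, 168, 0, 0, 0] [36, 24, 10, 0, 0, 0] 100000 27779
    27779 1599999 55556 22222 100000 44444 0 11111 11111) (.L 6 8 [4, 4, 4, 22, 22] [214, 204, 194,
    182, 168, 0] [36, 24, 10, 0, 0, 0] 100000 0 0 1633335 33333 0 100000 33333 0 33333 33333)) (.L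
    6 8 [4, 4, 4, 22, 22] [229, 228, 227, 224, 214, 204] [36, 24, 10, 0, 0, 0] 100000 33333 0
    1433335 33333 0 133333 16667 0 0 0)) (.E 2))) (.S 3 4 (.S 3 3 (.S 4 8 (.S 4 4 (.L 6 8 [4, 4, 4,
    22, 22] [214, 204, 194, 182, 168, 0] [54, 44, 32, 18, 0, 0] 100000 30769 30769 1630770 53846 0
    100000 30769 0 7692 7692) (.L 6 8 [4, 4, 4, 22, 22] [229, 228, 227, 224, 214, 204] [54, 44, 32,
    18, 0, 0] 100000 300000 0 100000 100000 0 400000 100000 0 0 0)) (.E 2)) (.S 4 8 (.S 4 4 (.L 6 8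
    [4, 4, 4, 22, 22] [214, 204, 194, 182, 168, 0] [72, 64, 54, 42, 28, 0] 100000 66668 66668
    1533332 66667 0 100000 33333 0 0 0) (.L 6 8 [4, 4, 4, 22, 22] [229, 228, 227, 224, 214, 204]
    [72, 64, 54, 42, 28, 0] 100000 320000 0 0 0 0 420000 0 0 0 0)) (.E 2))) (.L 6 8 [4, 4, 4, 22,
    22] [229, 228, 227, 224, 214, 204] [90, 84, 76, 66, 54, 40] 100000 0 100000 0 0 0 0 0 0 0 0)))
    (.E 1))) (.S 2 3 (.S 3 4 (.S 3 2 (.S 3 1 (.S 3 0 (.L 6 8 [4, 4, 4, 22, 22] [229, 228, 227, 224,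
    214, 204] [0, 0, 0, 0, 0, 0] 100000 21429 21429 1628572 42857 0 85714 0 0 0 0) (.S 4 8 (.S 4 4
    (.L 6 8 [4, 4, 4, 22, 22] [214, 204, 194, 182, 168, 0] [20, 6, 0, 0, 0, 0] 100000 12500 12500
    1659375 43750 25000 84375 43750 0 18750 18750) (.L 6 8 [4, 4, 4, 22, 22] [229, 228, 227, 224,
    214, 204] [20, 6, 0, 0, 0, 0] 100000 60000 0 1300000 40000 0 160000 0 0 0 0)) (.E 2))) (.S 4 8
    (.S 4 4 (.L 6 8 [4, 4, 4, 22, 22] [214, 204, 194, 182, 168, 0] [40, 28, 14, 0, 0, 0] 100000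
    35715 35715 1614285 57143 0 100000 0 0 14286 14286) (.L 6 8 [4, 4, 4, 22, 22] [229, 228, 227,
    224, 214, 204] [40, 28, 14, 0, 0, 0] 100000 300000 0 100000 100000 0 400000 0 0 0 0)) (.E 2)))
    (.L 6 8 [4, 4, 4, 22, 22] [229, 228, 227, 224, 214, 204] [] 100000 100000 100000 1475000 75000
    0 100000 25000 0 0 0)) (.E 1)) (.L 5 7 [4, 4, 5, 22, 22] [229, 228, 227, 224, 214, 204] []
    100000 150000 150000 1300000 100000 0 100000 0 0 100000 0))) (.L 6 8 [4, 4, 4, 22, 22] [260,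
    259, 258, 257, 254, 244] [] 100000 33335 33335 1622220 55556 0 100000 22222 0 11111 11111)) (.S
    1 10 (.L 6 8 [4, 4, 4, 22, 22] [293, 292, 291, 290, 289, 286] [] 100000 75000 75000 1483335
    83333 0 100000 16667 0 0 0) (.L 6 8 [4, 4, 4, 22, 22] [328, 327, 326, 325, 324, 323] [] 100000
    150000 83333 1100001 133333 0 166667 0 0 0 0))) (.S 1 13 (.S 1 12 (.L 6 8 [4, 4, 4, 22, 22]
    [365, 364, 363, 362, 361, 360] [] 100000 440000 240000 0 280000 0 300000 0 0 0 0) (.L 6 8 [4,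
    4, 4, 22, 22] [404, 403, 402, 401, 400, 399] [] 100000 299999 114285 3 228571 0 285714 0 0 0
    0)) (.E 0))

lemma s22_22_10_4_33 {n : ℕ} (hn : 5 ≤ n) : NoNd (d22_22_10_4.R : ℤ) d22_22_10_4.H n d22_22_10_4.a d22_22_10_4.b
    (BlkD.inB (BlkD.upd (BlkD.upd (BlkD.upd (fun _ => 0) 0 6) 0 7) 1 8)
      (BlkD.upd (BlkD.upd (BlkD.upd (BlkD.upd (BlkD.upd (fun _ => 22) 0 10) 2 4) 0 8) 0 7) 1 15)) :=
  BlkD.tree_sound (BlkD.pairOk_sound k22_22_10_4) (by decide) hn t22_22_10_4_33 _ _ (by decide +kernel)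

/-- certificates of the pair `(10, 4)`, part 34 -/
def t22_22_10_4_34 : BlkD.Tr :=
  .E 0

lemma s22_22_10_4_34 {n : ℕ} (hn : 5 ≤ n) : NoNd (d22_22_10_4.R : ℤ) d22_22_10_4.H n d22_22_10_4.a d22_22_10_4.b
    (BlkD.inB (BlkD.upd (BlkD.upd (BlkD.upd (fun _ => 0) 0 6) 0 7) 1 16)
      (BlkD.upd (BlkD.upd (BlkD.upd (BlkD.upd (fun _ => 22) 0 10) 2 4) 0 8) 0 7)) :=
  BlkD.tree_sound (BlkD.pairOk_sound k22_22_10_4) (by decide) hn t22_22_10_4_34 _ _ (by decide +kernel)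

/-- certificates of the pair `(10, 4)`, part 35 -/
def t22_22_10_4_35 : BlkD.Tr :=
  .L 6 8 [4, 4, 4, 22, 22] [] [] 100000 11957 11957 1608696 45652 13043 45652 34783 0 21739 0

lemma s22_22_10_4_35 {n : ℕ} (hn : 5 ≤ n) : NoNd (d22_22_10_4.R : ℤ) d22_22_10_4.H n d22_22_10_4.a d22_22_10_4.b
    (BlkD.inB (BlkD.upd (BlkD.upd (fun _ => 0) 0 6) 0 8)
      (BlkD.upd (BlkD.upd (BlkD.upd (BlkD.upd (BlkD.upd (BlkD.upd (fun _ => 22) 0 10) 2 4) 0 8) 1 14) 1 7) 1 3)) :=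
  BlkD.tree_sound (BlkD.pairOk_sound k22_22_10_4) (by decide) hn t22_22_10_4_35 _ _ (by decide +kernel)

/-- certificates of the pair `(10, 4)`, part 36 -/
def t22_22_10_4_36 : BlkD.Tr :=
  .S 1 5 (.S 1 4 (.L 6 8 [4, 4, 4, 22, 22] [122, 112, 102, 90, 76, 0] [] 100000 10639 10639 1646808
    38298 7447 61702 38298 0 17021 0) (.S 2 2 (.S 2 1 (.S 2 0 (.L 6 8 [4, 4, 4, 22, 22] [156, 146,
    136, 126, 114, 100] [] 100000 0 0 1600000 0 0 0 100000 0 0 0) (.S 3 8 (.S 3 4 (.L 6 8 [4, 4, 4,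
    22, 22] [156, 146, 136, 126, 114, 100] [] 100000 16667 16667 1633335 33333 33333 66667 33333 0
    0 0) (.S 3 6 (.S 3 5 (.S 4 5 (.S 4 2 (.L 6 8 [4, 4, 4, 22, 22] [126, 114, 100, 0, 0, 0] [80,
    74, 66, 56, 44, 30] 100000 50000 50000 1550000 50000 50000 100000 50000 0 0 0) (.L 6 8 [4, 4,
    4, 22, 22] [156, 146, 136, 126, 114, 100] [80, 74, 66, 56, 44, 30] 100000 50000 0 1350000 50000
    0 150000 75000 0 0 0)) (.E 2)) (.L 6 8 [4, 4, 4, 22, 22] [156, 146, 136, 126, 114, 100] [94,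
    92, 86, 78, 68, 56] 100000 350000 50000 0 100000 100000 400000 400000 0 0 0)) (.E 1))) (.E 1)))
    (.S 3 7 (.S 3 3 (.S 3 1 (.L 6 8 [4, 4, 4, 22, 22] [156, 146, 136, 126, 114, 100] [] 100000 0 0
    1600000 0 0 0 0 0 0 0) (.S 3 2 (.L 6 8 [4, 4, 4, 22, 22] [156, 146, 136, 126, 114, 100] [36,
    24, 10, 0, 0, 0] 100000 16667 16667 1633334 33333 33333 66667 33333 0 0 0) (.S 4 5 (.S 4 2 (.L
    6 8 [4, 4, 4, 22, 22] [126, 114, 100, 0, 0, 0] [54, 44, 32, 18, 0, 0] 100000 0 0 1680000 40000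
    0 80000 40000 0 40000 20000) (.L 6 8 [4, 4, 4, 22, 22] [156, 146, 136, 126, 114, 100] [54, 44,
    32, 18, 0, 0] 100000 0 0 1600000 0 0 100000 0 0 0 0)) (.E 2)))) (.S 3 5 (.S 3 4 (.S 4 5 (.S 4 2
    (.L 6 8 [4, 4, 4, 22, 22] [126, 114, 100, 0, 0, 0] [72, 64, 54, 42, 28, 0] 100000 50001 50001
    1566666 66667 0 100000 33333 0 33333 33333) (.L 6 8 [4, 4, 4, 22, 22] [156, 146, 136, 126, 114,
    100] [72, 64, 54, 42, 28, 0] 100000 50000 0 1350000 50000 0 150000 50000 0 0 0)) (.E 2)) (.L 6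
    8 [4, 4, 4, 22, 22] [156, 146, 136, 126, 114, 100] [90, 84, 76, 66, 54, 40] 100000 250000 50000
    500000 100000 0 300000 300000 0 0 0)) (.E 1))) (.E 1))) (.S 2 3 (.S 3 6 (.S 3 3 (.S 3 1 (.L 6 8
    [4, 4, 4, 22, 22] [156, 146, 136, 126, 114, 100] [] 100000 0 0 1666667 33333 0 33333 33333 0
    33333 0) (.S 3 2 (.L 6 8 [4, 4, 4, 22, 22] [156, 146, 136, 126, 114, 100] [40, 28, 14, 0, 0, 0]
    100000 1 1 1684615 38462 0 69231 7692 0 38462 7692) (.S 4 5 (.S 4 2 (.L 6 8 [4, 4, 4, 22, 22]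
    [126, 114, 100, 0, 0, 0] [60, 50, 38, 24, 0, 0] 100000 50001 50001 1566666 66667 0 100000 33333
    0 33333 33333) (.L 6 8 [4, 4, 4, 22, 22] [156, 146, 136, 126, 114, 100] [60, 50, 38, 24, 0, 0]
    100000 50000 0 1350000 50000 0 150000 50000 0 0 0)) (.E 2)))) (.E 1)) (.E 1)) (.S 3 5 (.S 3 2
    (.S 3 1 (.L 6 8 [4, 4, 4, 22, 22] [156, 146, 136, 126, 114, 100] [] 100000 0 0 1660000 40000 0
    40000 0 0 40000 0) (.S 4 5 (.S 4 2 (.L 6 8 [4, 4, 4, 22, 22] [126, 114, 100, 0, 0, 0] [44, 32,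
    18, 0, 0, 0] 100000 50001 50001 1566665 66667 0 66667 0 0 33333 33333) (.L 6 8 [4, 4, 4, 22,
    22] [156, 146, 136, 126, 114, 100] [44, 32, 18, 0, 0, 0] 100000 50000 0 1350000 50000 0 150000
    0 0 0 0)) (.E 2))) (.E 1)) (.E 1))))) (.S 1 6 (.S 2 2 (.S 2 1 (.L 6 8 [4, 4, 4, 22, 22] [185,
    182, 172, 162, 152, 140] [] 100000 17857 17857 1650002 35714 35714 85714 35714 0 0 0) (.S 3 6
    (.S 3 3 (.S 3 1 (.L 6 8 [4, 4, 4, 22, 22] [185, 182, 172, 162, 152, 140] [] 100000 21429 21429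
    1614286 42857 0 85714 42857 0 0 0) (.S 3 2 (.L 6 8 [4, 4, 4, 22, 22] [185, 182, 172, 162, 152,
    140] [36, 24, 10, 0, 0, 0] 100000 9092 9092 1672728 36364 18182 72727 36364 0 18182 0) (.S 4 6
    (.S 4 3 (.L 6 8 [4, 4, 4, 22, 22] [162, 152, 140, 126, 0, 0] [54, 44, 32, 18, 0, 0] 100000
    12500 12500 1650000 50000 0 100000 25000 0 25000 25000) (.L 6 8 [4, 4, 4, 22, 22] [185, 182,
    172, 162, 152, 140] [54, 44, 32, 18, 0, 0] 100000 50000 0 1350000 50000 0 150000 50000 0 0 0))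
    (.E 2)))) (.L 6 8 [4, 4, 4, 22, 22] [185, 182, 172, 162, 152, 140] [] 100000 0 0 1666668 33333
    0 100000 33333 0 33333 33333)) (.E 1))) (.L 6 8 [4, 4, 4, 22, 22] [185, 182, 172, 162, 152,
    140] [] 100000 3847 3847 1676923 38462 0 84615 30769 0 30769 15385)) (.S 2 2 (.S 2 1 (.L 6 8
    [4, 4, 4, 22, 22] [214, 213, 210, 200, 190, 180] [] 100000 50000 50000 1550000 50000 50000
    100000 50000 0 0 0) (.S 3 5 (.S 3 2 (.S 3 1 (.L 6 8 [4, 4, 4, 22, 22] [214, 213, 210, 200, 190,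
    180] [] 100000 25000 25000 1600000 50000 0 100000 0 0 0 0) (.S 4 7 (.S 4 3 (.L 6 8 [4, 4, 4,
    22, 22] [190, 180, 168, 154, 0, 0] [36, 24, 10, 0, 0, 0] 100000 27779 27779 1588888 55556 22222
    100000 44444 0 11111 11111) (.L 6 8 [4, 4, 4, 22, 22] [214, 213, 210, 200, 190, 180] [36, 24,
    10, 0, 0, 0] 100000 10000 10000 1580000 40000 0 100000 20000 0 20000 20000)) (.E 2))) (.L 6 8
    [4, 4, 4, 22, 22] [214, 213, 210, 200, 190, 180] [] 100000 35715 35715 1614285 57143 0 100000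
    14286 0 14286 14286)) (.E 1))) (.L 6 8 [4, 4, 4, 22, 22] [214, 213, 210, 200, 190, 180] []
    100000 25000 25000 1600000 50000 0 100000 50000 0 0 0)))

lemma s22_22_10_4_36 {n : ℕ} (hn : 5 ≤ n) : NoNd (d22_22_10_4.R : ℤ) d22_22_10_4.H n d22_22_10_4.a d22_22_10_4.b
    (BlkD.inB (BlkD.upd (BlkD.upd (BlkD.upd (fun _ => 0) 0 6) 0 8) 1 4)
      (BlkD.upd (BlkD.upd (BlkD.upd (BlkD.upd (BlkD.upd (fun _ => 22) 0 10) 2 4) 0 8) 1 14) 1 7)) :=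
  BlkD.tree_sound (BlkD.pairOk_sound k22_22_10_4) (by decide) hn t22_22_10_4_36 _ _ (by decide +kernel)

/-- certificates of the pair `(10, 4)`, part 37 -/
def t22_22_10_4_37 : BlkD.Tr :=
  .S 1 11 (.S 1 9 (.S 1 8 (.L 6 8 [4, 4, 4, 22, 22] [245, 244, 243, 240, 230, 220] [] 100000 25000
    25000 1600000 50000 0 100000 50000 0 0 0) (.L 6 8 [4, 4, 4, 22, 22] [278, 277, 276, 275, 272,
    262] [] 100000 71429 71429 1471428 82143 0 100000 32143 0 3571 0)) (.L 6 8 [4, 4, 4, 22, 22] []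
    [] 100000 5556 5556 1655556 11111 0 100000 100000 0 0 0)) (.E 0)

lemma s22_22_10_4_37 {n : ℕ} (hn : 5 ≤ n) : NoNd (d22_22_10_4.R : ℤ) d22_22_10_4.H n d22_22_10_4.a d22_22_10_4.b
    (BlkD.inB (BlkD.upd (BlkD.upd (BlkD.upd (fun _ => 0) 0 6) 0 8) 1 8)
      (BlkD.upd (BlkD.upd (BlkD.upd (BlkD.upd (fun _ => 22) 0 10) 2 4) 0 8) 1 14)) :=
  BlkD.tree_sound (BlkD.pairOk_sound k22_22_10_4) (by decide) hn t22_22_10_4_37 _ _ (by decide +kernel)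

/-- certificates of the pair `(10, 4)`, part 38 -/
def t22_22_10_4_38 : BlkD.Tr :=
  .E 0

lemma s22_22_10_4_38 {n : ℕ} (hn : 5 ≤ n) : NoNd (d22_22_10_4.R : ℤ) d22_22_10_4.H n d22_22_10_4.a d22_22_10_4.b
    (BlkD.inB (BlkD.upd (BlkD.upd (BlkD.upd (fun _ => 0) 0 6) 0 8) 1 15)
      (BlkD.upd (BlkD.upd (BlkD.upd (fun _ => 22) 0 10) 2 4) 0 8)) :=
  BlkD.tree_sound (BlkD.pairOk_sound k22_22_10_4) (by decide) hn t22_22_10_4_38 _ _ (by decide +kernel)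

/-- certificates of the pair `(10, 4)`, part 39 -/
def t22_22_10_4_39 : BlkD.Tr :=
  .S 0 9 (.S 1 13 (.S 1 6 (.S 1 3 (.L 6 8 [4, 4, 4, 22, 22] [] [] 100000 3062 3062 1659184 40816
    9184 91837 55102 8163 18367 18367) (.S 1 5 (.S 1 4 (.L 6 8 [4, 4, 4, 22, 22] [130, 120, 110,
    98, 84, 0] [] 100000 3847 3847 1669230 43590 0 87179 43590 10256 15385 12821) (.L 6 8 [4, 4, 4,
    22, 22] [166, 156, 146, 136, 124, 110] [] 100000 5233 5233 1658142 26744 11047 93023 61628 2326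
    11628 6977)) (.L 6 8 [4, 4, 4, 22, 22] [197, 194, 184, 174, 164, 152] [] 100000 20349 20349
    1596512 50000 3488 100000 26744 0 9302 9302))) (.L 6 8 [4, 4, 4, 22, 22] [] [] 100000 11539
    11539 1638462 0 30769 100000 61538 0 7692 7692)) (.E 0)) (.L 6 8 [4, 4, 4, 22, 22] [] [] 100000
    0 0 1619231 0 26923 96154 80769 3846 19231 19231)

lemma s22_22_10_4_39 {n : ℕ} (hn : 5 ≤ n) : NoNd (d22_22_10_4.R : ℤ) d22_22_10_4.H n d22_22_10_4.a d22_22_10_4.b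
    (BlkD.inB (BlkD.upd (BlkD.upd (fun _ => 0) 0 6) 0 9)
      (BlkD.upd (BlkD.upd (fun _ => 22) 0 10) 2 4)) :=
  BlkD.tree_sound (BlkD.pairOk_sound k22_22_10_4) (by decide) hn t22_22_10_4_39 _ _ (by decide +kernel)

/-- certificates of the pair `(10, 4)`, part 40 -/
def t22_22_10_4_40 : BlkD.Tr :=
  .E 1

lemma s22_22_10_4_40 {n : ℕ} (hn : 5 ≤ n) : NoNd (d22_22_10_4.R : ℤ) d22_22_10_4.H n d22_22_10_4.a d22_22_10_4.b
    (BlkD.inB (BlkD.upd (fun _ => 0) 2 5)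
      (BlkD.upd (fun _ => 22) 0 10)) :=
  BlkD.tree_sound (BlkD.pairOk_sound k22_22_10_4) (by decide) hn t22_22_10_4_40 _ _ (by decide +kernel)

/-- certificates of the pair `(10, 4)`, part 41 -/
def t22_22_10_4_41 : BlkD.Tr :=
  .E 0

lemma s22_22_10_4_41 {n : ℕ} (hn : 5 ≤ n) : NoNd (d22_22_10_4.R : ℤ) d22_22_10_4.H n d22_22_10_4.a d22_22_10_4.b
    (BlkD.inB (BlkD.upd (fun _ => 0) 0 11)
      (fun _ => 22)) :=
  BlkD.tree_sound (BlkD.pairOk_sound k22_22_10_4) (by decide) hn t22_22_10_4_41 _ _ (by decide +kernel)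

lemma pr22_22_10_4 {n : ℕ} (hn : 5 ≤ n) : NoPr ((22 : ℕ) : ℤ) ((22 : ℕ) : ℤ) n 10 4 :=
  BlkD.of_root (R := d22_22_10_4.R) (H := d22_22_10_4.H) (a := d22_22_10_4.a) (b := d22_22_10_4.b) (q := 3) (by decide) hn
    (BlkD.sp 0 10 (BlkD.sp 2 4 (BlkD.sp 0 5 (BlkD.sp 0 2 (BlkD.sp 0 1 (BlkD.sp 0 0 (s22_22_10_4_1
      hn) (BlkD.sp 1 11 (BlkD.sp 1 5 (s22_22_10_4_2 hn) (s22_22_10_4_3 hn)) (s22_22_10_4_4 hn)))
      (BlkD.sp 1 11 (BlkD.sp 1 5 (s22_22_10_4_5 hn) (s22_22_10_4_6 hn)) (s22_22_10_4_7 hn)))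
      (BlkD.sp 0 4 (BlkD.sp 0 3 (BlkD.sp 1 11 (BlkD.sp 1 5 (s22_22_10_4_8 hn) (BlkD.sp 1 8
      (s22_22_10_4_9 hn) (s22_22_10_4_10 hn))) (s22_22_10_4_11 hn)) (BlkD.sp 1 18 (BlkD.sp 1 9
      (s22_22_10_4_12 hn) (BlkD.sp 1 14 (BlkD.sp 1 12 (s22_22_10_4_13 hn) (s22_22_10_4_14 hn))
      (s22_22_10_4_15 hn))) (s22_22_10_4_16 hn))) (BlkD.sp 1 17 (BlkD.sp 1 8 (s22_22_10_4_17 hn)
      (BlkD.sp 1 13 (BlkD.sp 1 11 (s22_22_10_4_18 hn) (s22_22_10_4_19 hn)) (s22_22_10_4_20 hn)))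
      (s22_22_10_4_21 hn)))) (BlkD.sp 0 8 (BlkD.sp 0 7 (BlkD.sp 0 6 (BlkD.sp 1 16 (BlkD.sp 1 8
      (BlkD.sp 1 4 (s22_22_10_4_22 hn) (BlkD.sp 1 6 (s22_22_10_4_23 hn) (s22_22_10_4_24 hn)))
      (BlkD.sp 1 12 (BlkD.sp 1 10 (BlkD.sp 1 9 (s22_22_10_4_25 hn) (s22_22_10_4_26 hn))
      (s22_22_10_4_27 hn)) (s22_22_10_4_28 hn))) (s22_22_10_4_29 hn)) (BlkD.sp 1 15 (BlkD.sp 1 7
      (BlkD.sp 1 3 (s22_22_10_4_30 hn) (BlkD.sp 1 5 (s22_22_10_4_31 hn) (s22_22_10_4_32 hn)))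
      (s22_22_10_4_33 hn)) (s22_22_10_4_34 hn))) (BlkD.sp 1 14 (BlkD.sp 1 7 (BlkD.sp 1 3
      (s22_22_10_4_35 hn) (s22_22_10_4_36 hn)) (s22_22_10_4_37 hn)) (s22_22_10_4_38 hn)))
      (s22_22_10_4_39 hn))) (s22_22_10_4_40 hn)) (s22_22_10_4_41 hn))

end BlkC

end Pool.Agent.Lib.MP_f04ccf_co
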