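import Pool.Agent.Lib.MP_f04ccf_co.M.BlkT

/-!
MP_f04ccf_co, block certificate, data `R = 22`, `H = 22`, part 2 (generated, helper99:
bd10.cpp, gen2.py).
-/

set_option autoImplicit false
set_option maxRecDepth 100000

namespace Pool.Agent.Lib.MP_f04ccf_co

namespace BlkC

/-- the numbers of the pair `(6, 2)`, `R = 22`, `H = 22` -/
def d22_22_6_2 : BlkD.Pd :=
  ⟨22, 22, 3, 6, 2, 11, 2, 1, 2, 2, 8, 0, 0, 4, 6, 0, [0, 8, 16, 24, 30, 32, 34, 36, 38, 40, 42,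
    44], [0, 6, 12, 18, 24, 30, 36, 42, 44, 44, 44, 44], [⟨1, 1, 1, 4, 8, [0, 4], [0, 4]⟩, ⟨1, 1,
    1, 4, 10, [0, 6], [0, 4]⟩, ⟨1, 1, 1, 6, 14, [0, 8], [0, 6]⟩]⟩

lemma k22_22_6_2 : BlkD.pairOk d22_22_6_2 = true := by decide +kernel

/-- certificates of the pair `(6, 2)`, part 1 -/
def t22_22_6_2_1 : BlkD.Tr :=
  .L 7 7 [4, 4, 5] [] [] 100000 654 1 992813 26797 0 53595 8932 0 12418 12418

lemma s22_22_6_2_1 {n : ℕ} (hn : 5 ≤ n) : NoNd (d22_22_6_2.R : ℤ) d22_22_6_2.H n d22_22_6_2.a d22_22_6_2.b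
    (BlkD.inB (fun _ => 0)
      (BlkD.upd (BlkD.upd (BlkD.upd (BlkD.upd (fun _ => 22) 0 6) 2 2) 0 3) 0 1)) :=
  BlkD.tree_sound (BlkD.pairOk_sound k22_22_6_2) (by decide) hn t22_22_6_2_1 _ _ (by decide +kernel)

/-- certificates of the pair `(6, 2)`, part 2 -/
def t22_22_6_2_2 : BlkD.Tr :=
  .L 7 7 [4, 4, 5] [] [] 100000 654 1 992813 26797 0 53595 8932 0 12418 12418

lemma s22_22_6_2_2 {n : ℕ} (hn : 5 ≤ n) : NoNd (d22_22_6_2.R : ℤ) d22_22_6_2.H n d22_22_6_2.a d22_22_6_2.b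
    (BlkD.inB (BlkD.upd (fun _ => 0) 0 2)
      (BlkD.upd (BlkD.upd (BlkD.upd (fun _ => 22) 0 6) 2 2) 0 3)) :=
  BlkD.tree_sound (BlkD.pairOk_sound k22_22_6_2) (by decide) hn t22_22_6_2_2 _ _ (by decide +kernel)

/-- certificates of the pair `(6, 2)`, part 3 -/
def t22_22_6_2_3 : BlkD.Tr :=
  .L 7 7 [4, 4, 5] [] [] 100000 654 1 992813 26797 0 53595 8932 0 12418 12418

lemma s22_22_6_2_3 {n : ℕ} (hn : 5 ≤ n) : NoNd (d22_22_6_2.R : ℤ) d22_22_6_2.H n d22_22_6_2.a d22_22_6_2.b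
    (BlkD.inB (BlkD.upd (fun _ => 0) 0 4)
      (BlkD.upd (BlkD.upd (fun _ => 22) 0 6) 2 2)) :=
  BlkD.tree_sound (BlkD.pairOk_sound k22_22_6_2) (by decide) hn t22_22_6_2_3 _ _ (by decide +kernel)

/-- certificates of the pair `(6, 2)`, part 4 -/
def t22_22_6_2_4 : BlkD.Tr :=
  .E 1

lemma s22_22_6_2_4 {n : ℕ} (hn : 5 ≤ n) : NoNd (d22_22_6_2.R : ℤ) d22_22_6_2.H n d22_22_6_2.a d22_22_6_2.b
    (BlkD.inB (BlkD.upd (fun _ => 0) 2 3)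
      (BlkD.upd (fun _ => 22) 0 6)) :=
  BlkD.tree_sound (BlkD.pairOk_sound k22_22_6_2) (by decide) hn t22_22_6_2_4 _ _ (by decide +kernel)

/-- certificates of the pair `(6, 2)`, part 5 -/
def t22_22_6_2_5 : BlkD.Tr :=
  .E 0

lemma s22_22_6_2_5 {n : ℕ} (hn : 5 ≤ n) : NoNd (d22_22_6_2.R : ℤ) d22_22_6_2.H n d22_22_6_2.a d22_22_6_2.b
    (BlkD.inB (BlkD.upd (fun _ => 0) 0 7)
      (fun _ => 22)) :=
  BlkD.tree_sound (BlkD.pairOk_sound k22_22_6_2) (by decide) hn t22_22_6_2_5 _ _ (by decide +kernel)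

lemma pr22_22_6_2 {n : ℕ} (hn : 5 ≤ n) : NoPr ((22 : ℕ) : ℤ) ((22 : ℕ) : ℤ) n 6 2 :=
  BlkD.of_root (R := d22_22_6_2.R) (H := d22_22_6_2.H) (a := d22_22_6_2.a) (b := d22_22_6_2.b) (q := 3) (by decide) hn
    (BlkD.sp 0 6 (BlkD.sp 2 2 (BlkD.sp 0 3 (BlkD.sp 0 1 (s22_22_6_2_1 hn) (s22_22_6_2_2 hn))
      (s22_22_6_2_3 hn)) (s22_22_6_2_4 hn)) (s22_22_6_2_5 hn))

/-- the numbers of the pair `(6, 3)`, `R = 22`, `H = 22` -/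
def d22_22_6_3 : BlkD.Pd :=
  ⟨22, 22, 3, 6, 3, 10, 3, 2, 2, 2, 10, 0, 4, 1, 8, 0, [0, 10, 20, 26, 28, 30, 32, 34, 36, 38, 40],
    [0, 8, 16, 22, 26, 30, 34, 38, 42, 46, 50], [⟨1, 1, 1, 4, 8, [0, 4], [0, 4]⟩, ⟨1, 1, 1, 6, 12,
    [0, 6], [0, 6]⟩, ⟨1, 1, 1, 6, 14, [0, 8], [0, 6]⟩, ⟨2, 1, 1, 8, 18, [0, 10, 10], [0, 8]⟩]⟩

lemma k22_22_6_3 : BlkD.pairOk d22_22_6_3 = true := by decide +kernel

/-- certificates of the pair `(6, 3)`, part 1 -/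
def t22_22_6_3_1 : BlkD.Tr :=
  .L 7 7 [4, 4, 5, 5] [] [] 100000 10654 10652 1099635 20073 0 50000 34159 13512 24963 29561

lemma s22_22_6_3_1 {n : ℕ} (hn : 5 ≤ n) : NoNd (d22_22_6_3.R : ℤ) d22_22_6_3.H n d22_22_6_3.a d22_22_6_3.b
    (BlkD.inB (fun _ => 0)
      (BlkD.upd (BlkD.upd (BlkD.upd (BlkD.upd (BlkD.upd (fun _ => 22) 0 6) 2 3) 0 3) 0 1) 0 0)) :=
  BlkD.tree_sound (BlkD.pairOk_sound k22_22_6_3) (by decide) hn t22_22_6_3_1 _ _ (by decide +kernel)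

/-- certificates of the pair `(6, 3)`, part 2 -/
def t22_22_6_3_2 : BlkD.Tr :=
  .S 1 11 (.S 1 5 (.L 7 7 [4, 4, 5, 5] [] [] 100000 10654 10652 1099635 20073 0 50000 34159 13512
    24963 29561) (.L 7 7 [4, 4, 5, 5] [] [] 100000 10654 10652 1099635 20073 0 50000 34159 13512
    24963 29561)) (.L 7 7 [4, 4, 5, 5] [] [] 100000 10654 10652 1099635 20073 0 50000 34159 13512
    24963 29561)

lemma s22_22_6_3_2 {n : ℕ} (hn : 5 ≤ n) : NoNd (d22_22_6_3.R : ℤ) d22_22_6_3.H n d22_22_6_3.a d22_22_6_3.b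
    (BlkD.inB (BlkD.upd (fun _ => 0) 0 1)
      (BlkD.upd (BlkD.upd (BlkD.upd (BlkD.upd (fun _ => 22) 0 6) 2 3) 0 3) 0 1)) :=
  BlkD.tree_sound (BlkD.pairOk_sound k22_22_6_3) (by decide) hn t22_22_6_3_2 _ _ (by decide +kernel)

/-- certificates of the pair `(6, 3)`, part 3 -/
def t22_22_6_3_3 : BlkD.Tr :=
  .S 1 11 (.S 1 5 (.L 7 7 [4, 4, 5, 5] [] [] 100000 10654 10652 1099635 20073 0 50000 34159 13512
    24963 29561) (.L 7 7 [4, 4, 5, 5] [] [] 100000 10654 10652 1099635 20073 0 50000 34159 13512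
    24963 29561)) (.L 7 7 [4, 4, 5, 5] [] [] 100000 10654 10652 1099635 20073 0 50000 34159 13512
    24963 29561)

lemma s22_22_6_3_3 {n : ℕ} (hn : 5 ≤ n) : NoNd (d22_22_6_3.R : ℤ) d22_22_6_3.H n d22_22_6_3.a d22_22_6_3.b
    (BlkD.inB (BlkD.upd (fun _ => 0) 0 2)
      (BlkD.upd (BlkD.upd (BlkD.upd (BlkD.upd (fun _ => 22) 0 6) 2 3) 0 3) 0 2)) :=
  BlkD.tree_sound (BlkD.pairOk_sound k22_22_6_3) (by decide) hn t22_22_6_3_3 _ _ (by decide +kernel)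

/-- certificates of the pair `(6, 3)`, part 4 -/
def t22_22_6_3_4 : BlkD.Tr :=
  .L 7 7 [4, 4, 5, 5] [] [] 100000 10654 10652 1099635 20073 0 50000 34159 13512 24963 29561

lemma s22_22_6_3_4 {n : ℕ} (hn : 5 ≤ n) : NoNd (d22_22_6_3.R : ℤ) d22_22_6_3.H n d22_22_6_3.a d22_22_6_3.b
    (BlkD.inB (BlkD.upd (BlkD.upd (fun _ => 0) 0 2) 0 3)
      (BlkD.upd (BlkD.upd (BlkD.upd (fun _ => 22) 0 6) 2 3) 0 3)) :=
  BlkD.tree_sound (BlkD.pairOk_sound k22_22_6_3) (by decide) hn t22_22_6_3_4 _ _ (by decide +kernel)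

/-- certificates of the pair `(6, 3)`, part 5 -/
def t22_22_6_3_5 : BlkD.Tr :=
  .L 7 7 [4, 4, 5, 5] [] [] 100000 0 0 1185614 3597 0 28058 48201 23741 34173 42086

lemma s22_22_6_3_5 {n : ℕ} (hn : 5 ≤ n) : NoNd (d22_22_6_3.R : ℤ) d22_22_6_3.H n d22_22_6_3.a d22_22_6_3.b
    (BlkD.inB (BlkD.upd (fun _ => 0) 0 4)
      (BlkD.upd (BlkD.upd (fun _ => 22) 0 6) 2 3)) :=
  BlkD.tree_sound (BlkD.pairOk_sound k22_22_6_3) (by decide) hn t22_22_6_3_5 _ _ (by decide +kernel)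

/-- certificates of the pair `(6, 3)`, part 6 -/
def t22_22_6_3_6 : BlkD.Tr :=
  .E 1

lemma s22_22_6_3_6 {n : ℕ} (hn : 5 ≤ n) : NoNd (d22_22_6_3.R : ℤ) d22_22_6_3.H n d22_22_6_3.a d22_22_6_3.b
    (BlkD.inB (BlkD.upd (fun _ => 0) 2 4)
      (BlkD.upd (fun _ => 22) 0 6)) :=
  BlkD.tree_sound (BlkD.pairOk_sound k22_22_6_3) (by decide) hn t22_22_6_3_6 _ _ (by decide +kernel)

/-- certificates of the pair `(6, 3)`, part 7 -/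
def t22_22_6_3_7 : BlkD.Tr :=
  .E 0

lemma s22_22_6_3_7 {n : ℕ} (hn : 5 ≤ n) : NoNd (d22_22_6_3.R : ℤ) d22_22_6_3.H n d22_22_6_3.a d22_22_6_3.b
    (BlkD.inB (BlkD.upd (fun _ => 0) 0 7)
      (fun _ => 22)) :=
  BlkD.tree_sound (BlkD.pairOk_sound k22_22_6_3) (by decide) hn t22_22_6_3_7 _ _ (by decide +kernel)

lemma pr22_22_6_3 {n : ℕ} (hn : 5 ≤ n) : NoPr ((22 : ℕ) : ℤ) ((22 : ℕ) : ℤ) n 6 3 :=
  BlkD.of_root (R := d22_22_6_3.R) (H := d22_22_6_3.H) (a := d22_22_6_3.a) (b := d22_22_6_3.b) (q := 3) (by decide) hn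
    (BlkD.sp 0 6 (BlkD.sp 2 3 (BlkD.sp 0 3 (BlkD.sp 0 1 (BlkD.sp 0 0 (s22_22_6_3_1 hn)
      (s22_22_6_3_2 hn)) (BlkD.sp 0 2 (s22_22_6_3_3 hn) (s22_22_6_3_4 hn))) (s22_22_6_3_5 hn))
      (s22_22_6_3_6 hn)) (s22_22_6_3_7 hn))

/-- the numbers of the pair `(6, 4)`, `R = 22`, `H = 22` -/
def d22_22_6_4 : BlkD.Pd :=
  ⟨22, 22, 3, 6, 4, 9, 4, 2, 4, 2, 12, 0, 2, 2, 10, 0, [0, 12, 24, 30, 34, 38, 42, 46, 50, 54], [0,
    10, 20, 24, 26, 28, 30, 32, 34, 36], [⟨1, 1, 1, 4, 8, [0, 4], [0, 4]⟩, ⟨1, 1, 1, 6, 12, [0, 6],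
    [0, 6]⟩, ⟨1, 1, 1, 8, 16, [0, 8], [0, 8]⟩, ⟨2, 1, 1, 8, 18, [0, 10, 10], [0, 8]⟩, ⟨2, 1, 1, 8,
    28, [0, 12, 18], [0, 10]⟩]⟩

lemma k22_22_6_4 : BlkD.pairOk d22_22_6_4 = true := by decide +kernel

/-- certificates of the pair `(6, 4)`, part 1 -/
def t22_22_6_4_1 : BlkD.Tr :=
  .L 7 7 [4, 4, 5, 5, 5] [] [] 100000 79375 79375 722500 100000 0 100000 77500 0 2500 20000

lemma s22_22_6_4_1 {n : ℕ} (hn : 5 ≤ n) : NoNd (d22_22_6_4.R : ℤ) d22_22_6_4.H n d22_22_6_4.a d22_22_6_4.b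
    (BlkD.inB (fun _ => 0)
      (BlkD.upd (BlkD.upd (BlkD.upd (BlkD.upd (BlkD.upd (fun _ => 22) 0 6) 2 4) 0 3) 0 1) 0 0)) :=
  BlkD.tree_sound (BlkD.pairOk_sound k22_22_6_4) (by decide) hn t22_22_6_4_1 _ _ (by decide +kernel)

/-- certificates of the pair `(6, 4)`, part 2 -/
def t22_22_6_4_2 : BlkD.Tr :=
  .S 1 2 (.L 7 7 [4, 4, 5, 5, 5] [] [] 100000 79375 79375 722500 100000 0 100000 77500 0 2500
    20000) (.L 7 7 [4, 4, 5, 5, 5] [] [] 100000 79375 79375 722500 100000 0 100000 77500 0 2500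
    20000)

lemma s22_22_6_4_2 {n : ℕ} (hn : 5 ≤ n) : NoNd (d22_22_6_4.R : ℤ) d22_22_6_4.H n d22_22_6_4.a d22_22_6_4.b
    (BlkD.inB (BlkD.upd (fun _ => 0) 0 1)
      (BlkD.upd (BlkD.upd (BlkD.upd (BlkD.upd (BlkD.upd (BlkD.upd (fun _ => 22) 0 6) 2 4) 0 3) 0 1) 1 11) 1 5)) :=
  BlkD.tree_sound (BlkD.pairOk_sound k22_22_6_4) (by decide) hn t22_22_6_4_2 _ _ (by decide +kernel)

/-- certificates of the pair `(6, 4)`, part 3 -/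
def t22_22_6_4_3 : BlkD.Tr :=
  .S 1 8 (.L 7 7 [4, 4, 5, 5, 5] [] [] 100000 79375 79375 722500 100000 0 100000 77500 0 2500
    20000) (.L 7 7 [4, 4, 5, 5, 5] [] [] 100000 79375 79375 722500 100000 0 100000 77500 0 2500
    20000)

lemma s22_22_6_4_3 {n : ℕ} (hn : 5 ≤ n) : NoNd (d22_22_6_4.R : ℤ) d22_22_6_4.H n d22_22_6_4.a d22_22_6_4.b
    (BlkD.inB (BlkD.upd (BlkD.upd (fun _ => 0) 0 1) 1 6)
      (BlkD.upd (BlkD.upd (BlkD.upd (BlkD.upd (BlkD.upd (fun _ => 22) 0 6) 2 4) 0 3) 0 1) 1 11)) :=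
  BlkD.tree_sound (BlkD.pairOk_sound k22_22_6_4) (by decide) hn t22_22_6_4_3 _ _ (by decide +kernel)

/-- certificates of the pair `(6, 4)`, part 4 -/
def t22_22_6_4_4 : BlkD.Tr :=
  .L 7 7 [4, 4, 5, 5, 5] [] [] 100000 79375 79375 722500 100000 0 100000 77500 0 2500 20000

lemma s22_22_6_4_4 {n : ℕ} (hn : 5 ≤ n) : NoNd (d22_22_6_4.R : ℤ) d22_22_6_4.H n d22_22_6_4.a d22_22_6_4.b
    (BlkD.inB (BlkD.upd (BlkD.upd (fun _ => 0) 0 1) 1 12)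
      (BlkD.upd (BlkD.upd (BlkD.upd (BlkD.upd (fun _ => 22) 0 6) 2 4) 0 3) 0 1)) :=
  BlkD.tree_sound (BlkD.pairOk_sound k22_22_6_4) (by decide) hn t22_22_6_4_4 _ _ (by decide +kernel)

/-- certificates of the pair `(6, 4)`, part 5 -/
def t22_22_6_4_5 : BlkD.Tr :=
  .S 1 2 (.L 7 7 [4, 4, 5, 5, 5] [] [] 100000 33333 33331 960000 20000 0 20000 20000 0 0 22222) (.S
    1 4 (.L 7 7 [4, 4, 5, 5, 5] [] [] 100000 25000 24998 1110000 22500 0 22500 26667 0 23333 33333)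
    (.L 6 7 [4, 4, 5, 5, 5] [88, 82, 76, 64, 52, 40] [] 100000 23305 23305 1157599 23734 0 47468
    23734 3391 22242 30470))

lemma s22_22_6_4_5 {n : ℕ} (hn : 5 ≤ n) : NoNd (d22_22_6_4.R : ℤ) d22_22_6_4.H n d22_22_6_4.a d22_22_6_4.b
    (BlkD.inB (BlkD.upd (fun _ => 0) 0 2)
      (BlkD.upd (BlkD.upd (BlkD.upd (BlkD.upd (BlkD.upd (BlkD.upd (BlkD.upd (fun _ => 22) 0 6) 2 4) 0 3) 0 2) 1 20) 1 10) 1 5)) :=
  BlkD.tree_sound (BlkD.pairOk_sound k22_22_6_4) (by decide) hn t22_22_6_4_5 _ _ (by decide +kernel)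

/-- certificates of the pair `(6, 4)`, part 6 -/
def t22_22_6_4_6 : BlkD.Tr :=
  .S 2 2 (.S 2 1 (.S 2 0 (.L 6 7 [4, 4, 5, 5, 5] [106, 102, 96, 90, 78, 66] [] 100000 41667 41667
    900001 0 0 33333 100000 0 0 11111) (.S 3 13 (.S 3 6 (.S 3 3 (.L 6 7 [4, 4, 5, 5, 5] [106, 102,
    96, 90, 78, 66] [] 100000 24584 24584 1100833 20000 20000 32917 27917 833 833 33333) (.S 3 5
    (.S 3 4 (.L 6 7 [4, 4, 5, 5, 5] [106, 102, 96, 90, 78, 66] [58, 52, 42, 32, 20, 0] 100000 23293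
    23291 1157340 22184 10580 44369 34471 3413 13311 30034) (.S 4 6 (.S 4 3 (.L 6 7 [4, 4, 5, 5, 5]
    [90, 78, 66, 54, 0, 0] [72, 68, 62, 52, 42, 30] 100000 13158 13156 1184211 28070 0 43860 31579
    31579 49123 24561) (.L 6 7 [4, 4, 5, 5, 5] [106, 102, 96, 90, 78, 66] [72, 68, 62, 52, 42, 30]
    100000 60466 1 655814 0 51163 160465 51163 0 34884 13953)) (.E 2))) (.E 1))) (.E 1)) (.E 1)))
    (.S 3 12 (.S 3 6 (.S 3 3 (.S 3 1 (.L 6 7 [4, 4, 5, 5, 5] [106, 102, 96, 90, 78, 66] [] 100000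
    25000 24999 1050000 25000 0 25000 0 0 0 33333) (.L 6 7 [4, 4, 5, 5, 5] [106, 102, 96, 90, 78,
    66] [] 100000 22297 22295 1162935 27413 4247 46332 27413 5405 41313 25483)) (.S 3 5 (.S 3 4 (.S
    4 6 (.S 4 3 (.L 6 7 [4, 4, 5, 5, 5] [90, 78, 66, 54, 0, 0] [66, 60, 50, 40, 28, 0] 100000 13158
    13156 1184211 28070 0 43860 31579 31579 49123 24561) (.L 6 7 [4, 4, 5, 5, 5] [106, 102, 96, 90,
    78, 66] [66, 60, 50, 40, 28, 0] 100000 42667 0 816000 6667 0 142667 4444 0 12000 20000)) (.E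
    2)) (.E 1)) (.E 1))) (.E 1)) (.E 1))) (.S 2 3 (.S 3 11 (.S 3 5 (.S 3 2 (.L 6 7 [4, 4, 5, 5, 5]
    [106, 102, 96, 90, 78, 66] [] 100000 21543 21543 1140959 27660 0 48404 27660 6915 34574 25532)
    (.S 3 4 (.S 3 3 (.S 4 6 (.S 4 3 (.L 6 7 [4, 4, 5, 5, 5] [90, 78, 66, 54, 0, 0] [56, 46, 36, 24,
    0, 0] 100000 9616 9616 1215384 23077 0 38462 30769 30769 38462 30769) (.L 6 7 [4, 4, 5, 5, 5]
    [106, 102, 96, 90, 78, 66] [56, 46, 36, 24, 0, 0] 100000 76191 1 514287 4762 0 176190 171429 0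
    0 19048)) (.E 2)) (.E 1)) (.E 1))) (.E 1)) (.E 1)) (.L 6 7 [4, 4, 5, 5, 5] [106, 102, 96, 90,
    78, 66] [] 100000 20098 20096 1136600 29412 0 45752 16340 9804 60784 27451))

lemma s22_22_6_4_6 {n : ℕ} (hn : 5 ≤ n) : NoNd (d22_22_6_4.R : ℤ) d22_22_6_4.H n d22_22_6_4.a d22_22_6_4.b
    (BlkD.inB (BlkD.upd (BlkD.upd (fun _ => 0) 0 2) 1 6)
      (BlkD.upd (BlkD.upd (BlkD.upd (BlkD.upd (BlkD.upd (BlkD.upd (BlkD.upd (BlkD.upd (BlkD.upd (fun _ => 22) 0 6) 2 4) 0 3) 0 2) 1 20) 1 10) 1 8) 1 7) 1 6)) :=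
  BlkD.tree_sound (BlkD.pairOk_sound k22_22_6_4) (by decide) hn t22_22_6_4_6 _ _ (by decide +kernel)

/-- certificates of the pair `(6, 4)`, part 7 -/
def t22_22_6_4_7 : BlkD.Tr :=
  .S 2 2 (.S 2 1 (.S 2 0 (.L 6 7 [4, 4, 5, 5, 5] [126, 122, 118, 112, 106, 94] [] 100000 41667
    41667 900000 0 0 50000 100000 0 0 11111) (.S 3 12 (.S 3 6 (.S 3 3 (.L 6 7 [4, 4, 5, 5, 5] [126,
    122, 118, 112, 106, 94] [] 100000 19015 19013 1173126 14037 14037 42655 42655 11970 14363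
    32535) (.L 6 7 [4, 4, 5, 5, 5] [126, 122, 118, 112, 106, 94] [] 100000 23809 23807 1149209
    33333 0 58730 33333 19048 44444 22222)) (.E 1)) (.E 1))) (.S 3 11 (.S 3 5 (.S 3 2 (.L 6 7 [4,
    4, 5, 5, 5] [126, 122, 118, 112, 106, 94] [] 100000 18263 18263 1185637 24823 532 38830 39362
    13475 13475 33333) (.L 6 7 [4, 4, 5, 5, 5] [126, 122, 118, 112, 106, 94] [] 100000 23809 23807
    1149209 33333 0 58730 33333 19048 44444 22222)) (.E 1)) (.E 1))) (.L 6 7 [4, 4, 5, 5, 5] [126,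
    122, 118, 112, 106, 94] [] 100000 20738 20736 1172730 25000 0 51136 50000 21023 22159 27841)

lemma s22_22_6_4_7 {n : ℕ} (hn : 5 ≤ n) : NoNd (d22_22_6_4.R : ℤ) d22_22_6_4.H n d22_22_6_4.a d22_22_6_4.b
    (BlkD.inB (BlkD.upd (BlkD.upd (BlkD.upd (fun _ => 0) 0 2) 1 6) 1 7)
      (BlkD.upd (BlkD.upd (BlkD.upd (BlkD.upd (BlkD.upd (BlkD.upd (BlkD.upd (BlkD.upd (fun _ => 22) 0 6) 2 4) 0 3) 0 2) 1 20) 1 10) 1 8) 1 7)) :=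
  BlkD.tree_sound (BlkD.pairOk_sound k22_22_6_4) (by decide) hn t22_22_6_4_7 _ _ (by decide +kernel)

/-- certificates of the pair `(6, 4)`, part 8 -/
def t22_22_6_4_8 : BlkD.Tr :=
  .L 6 7 [4, 4, 5, 5, 5] [148, 144, 140, 136, 130, 124] [] 100000 31875 31875 1012500 0 0 100000
    87500 0 12500 20000

lemma s22_22_6_4_8 {n : ℕ} (hn : 5 ≤ n) : NoNd (d22_22_6_4.R : ℤ) d22_22_6_4.H n d22_22_6_4.a d22_22_6_4.b
    (BlkD.inB (BlkD.upd (BlkD.upd (BlkD.upd (fun _ => 0) 0 2) 1 6) 1 8)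
      (BlkD.upd (BlkD.upd (BlkD.upd (BlkD.upd (BlkD.upd (BlkD.upd (BlkD.upd (fun _ => 22) 0 6) 2 4) 0 3) 0 2) 1 20) 1 10) 1 8)) :=
  BlkD.tree_sound (BlkD.pairOk_sound k22_22_6_4) (by decide) hn t22_22_6_4_8 _ _ (by decide +kernel)

/-- certificates of the pair `(6, 4)`, part 9 -/
def t22_22_6_4_9 : BlkD.Tr :=
  .E 0

lemma s22_22_6_4_9 {n : ℕ} (hn : 5 ≤ n) : NoNd (d22_22_6_4.R : ℤ) d22_22_6_4.H n d22_22_6_4.a d22_22_6_4.b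
    (BlkD.inB (BlkD.upd (BlkD.upd (BlkD.upd (fun _ => 0) 0 2) 1 6) 1 9)
      (BlkD.upd (BlkD.upd (BlkD.upd (BlkD.upd (BlkD.upd (BlkD.upd (fun _ => 22) 0 6) 2 4) 0 3) 0 2) 1 20) 1 10)) :=
  BlkD.tree_sound (BlkD.pairOk_sound k22_22_6_4) (by decide) hn t22_22_6_4_9 _ _ (by decide +kernel)

/-- certificates of the pair `(6, 4)`, part 10 -/
def t22_22_6_4_10 : BlkD.Tr :=
  .E 0

lemma s22_22_6_4_10 {n : ℕ} (hn : 5 ≤ n) : NoNd (d22_22_6_4.R : ℤ) d22_22_6_4.H n d22_22_6_4.a d22_22_6_4.b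
    (BlkD.inB (BlkD.upd (BlkD.upd (fun _ => 0) 0 2) 1 11)
      (BlkD.upd (BlkD.upd (BlkD.upd (BlkD.upd (BlkD.upd (fun _ => 22) 0 6) 2 4) 0 3) 0 2) 1 20)) :=
  BlkD.tree_sound (BlkD.pairOk_sound k22_22_6_4) (by decide) hn t22_22_6_4_10 _ _ (by decide +kernel)

/-- certificates of the pair `(6, 4)`, part 11 -/
def t22_22_6_4_11 : BlkD.Tr :=
  .E 0

lemma s22_22_6_4_11 {n : ℕ} (hn : 5 ≤ n) : NoNd (d22_22_6_4.R : ℤ) d22_22_6_4.H n d22_22_6_4.a d22_22_6_4.b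
    (BlkD.inB (BlkD.upd (BlkD.upd (fun _ => 0) 0 2) 1 21)
      (BlkD.upd (BlkD.upd (BlkD.upd (BlkD.upd (fun _ => 22) 0 6) 2 4) 0 3) 0 2)) :=
  BlkD.tree_sound (BlkD.pairOk_sound k22_22_6_4) (by decide) hn t22_22_6_4_11 _ _ (by decide +kernel)

/-- certificates of the pair `(6, 4)`, part 12 -/
def t22_22_6_4_12 : BlkD.Tr :=
  .S 1 2 (.L 6 7 [4, 4, 5, 5, 5] [] [] 100000 25000 24999 1033334 33333 0 33333 33333 0 0 33333)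
    (.S 1 3 (.L 6 7 [4, 4, 5, 5, 5] [60, 48, 36, 24, 0, 0] [] 100000 22246 22246 1117161 29449 0
    68008 32415 5508 23517 35169) (.S 2 2 (.S 2 1 (.S 2 0 (.L 6 7 [4, 4, 5, 5, 5] [78, 72, 60, 48,
    36, 0] [] 100000 50000 50000 840000 0 0 60000 100000 0 0 0) (.S 3 14 (.S 3 7 (.S 3 3 (.L 6 7
    [4, 4, 5, 5, 5] [78, 72, 60, 48, 36, 0] [] 100000 24731 24729 1059140 8602 33333 40860 33333
    1075 0 33333) (.S 3 5 (.S 3 4 (.L 6 7 [4, 4, 5, 5, 5] [78, 72, 60, 48, 36, 0] [58, 52, 42, 32,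
    20, 0] 100000 24648 24648 1118310 7042 33803 39437 38028 704 1408 33099) (.L 6 7 [4, 4, 5, 5,
    5] [78, 72, 60, 48, 36, 0] [72, 68, 62, 52, 42, 30] 100000 22955 22954 1160940 26585 2045 55215
    28630 4090 44785 28221)) (.E 1))) (.E 1)) (.E 1))) (.S 3 13 (.S 3 6 (.S 3 3 (.L 6 7 [4, 4, 5,
    5, 5] [78, 72, 60, 48, 36, 0] [] 100000 21343 21341 1148805 25599 0 58511 25599 7314 25207
    31781) (.L 6 7 [4, 4, 5, 5, 5] [78, 72, 60, 48, 36, 0] [] 100000 22943 22943 1161454 27435 0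
    56241 28807 4115 43759 28532)) (.E 1)) (.E 1))) (.L 6 7 [4, 4, 5, 5, 5] [78, 72, 60, 48, 36, 0]
    [] 100000 21722 21722 1159016 22951 0 45902 49180 6557 27869 29508)))

lemma s22_22_6_4_12 {n : ℕ} (hn : 5 ≤ n) : NoNd (d22_22_6_4.R : ℤ) d22_22_6_4.H n d22_22_6_4.a d22_22_6_4.b
    (BlkD.inB (BlkD.upd (BlkD.upd (fun _ => 0) 0 2) 0 3)
      (BlkD.upd (BlkD.upd (BlkD.upd (BlkD.upd (BlkD.upd (BlkD.upd (fun _ => 22) 0 6) 2 4) 0 3) 1 19) 1 9) 1 4)) :=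
  BlkD.tree_sound (BlkD.pairOk_sound k22_22_6_4) (by decide) hn t22_22_6_4_12 _ _ (by decide +kernel)

/-- certificates of the pair `(6, 4)`, part 13 -/
def t22_22_6_4_13 : BlkD.Tr :=
  .S 2 2 (.S 2 1 (.S 2 0 (.L 6 7 [4, 4, 5, 5, 5] [98, 92, 86, 74, 62, 50] [] 100000 50000 50000
    840000 0 0 60000 100000 0 0 0) (.S 3 13 (.S 3 6 (.S 3 3 (.L 6 7 [4, 4, 5, 5, 5] [98, 92, 86,
    74, 62, 50] [] 100000 23889 23888 1120000 13333 26667 35556 35556 2222 2222 33333) (.S 3 5 (.S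
    3 4 (.S 4 5 (.S 4 2 (.L 6 7 [4, 4, 5, 5, 5] [74, 62, 50, 0, 0, 0] [58, 52, 42, 32, 20, 0]
    100000 11666 11664 1181906 7619 33333 28571 46667 46667 26667 26667) (.L 6 7 [4, 4, 5, 5, 5]
    [98, 92, 86, 74, 62, 50] [58, 52, 42, 32, 20, 0] 100000 25000 25000 1081250 0 9375 100000 31250
    0 43750 25000)) (.E 2)) (.L 6 7 [4, 4, 5, 5, 5] [98, 92, 86, 74, 62, 50] [72, 68, 62, 52, 42,
    30] 100000 18868 18868 1175472 0 24528 54717 75472 24528 37736 20755)) (.E 1))) (.E 1)) (.E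
    1))) (.S 3 12 (.S 3 6 (.S 3 3 (.S 3 1 (.L 6 7 [4, 4, 5, 5, 5] [98, 92, 86, 74, 62, 50] []
    100000 20902 20902 1098364 18033 18033 41803 18033 8197 8197 36066) (.S 3 2 (.L 6 7 [4, 4, 5,
    5, 5] [98, 92, 86, 74, 62, 50] [32, 22, 10, 0, 0, 0] 100000 22252 22250 1154950 19780 5495
    44505 19780 5495 5495 35165) (.S 4 5 (.S 4 2 (.L 6 7 [4, 4, 5, 5, 5] [74, 62, 50, 0, 0, 0] [50,
    40, 30, 18, 0, 0] 100000 9746 9745 1205084 23729 0 38983 28814 30508 38983 30508) (.L 6 7 [4,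
    4, 5, 5, 5] [98, 92, 86, 74, 62, 50] [50, 40, 30, 18, 0, 0] 100000 25000 25000 1076924 11538 0
    100000 11538 0 61538 26923)) (.E 2)))) (.S 3 5 (.S 3 4 (.S 4 5 (.S 4 2 (.L 6 7 [4, 4, 5, 5, 5]
    [74, 62, 50, 0, 0, 0] [66, 60, 50, 40, 28, 0] 100000 12143 12142 1202859 8571 0 47143 77143
    28571 45714 25714) (.L 6 7 [4, 4, 5, 5, 5] [98, 92, 86, 74, 62, 50] [66, 60, 50, 40, 28, 0]
    100000 22727 22725 1081818 9091 0 100000 9091 9091 63636 27273)) (.E 2)) (.E 1)) (.E 1))) (.E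
    1)) (.E 1))) (.S 2 3 (.S 3 11 (.S 3 5 (.S 3 2 (.L 6 7 [4, 4, 5, 5, 5] [98, 92, 86, 74, 62, 50]
    [] 100000 21187 21187 1166540 26692 0 46711 40038 7626 59962 25548) (.L 6 7 [4, 4, 5, 5, 5]
    [98, 92, 86, 74, 62, 50] [] 100000 11364 11364 1209091 9091 0 45455 72727 27273 45455 27273))
    (.E 1)) (.E 1)) (.L 6 7 [4, 4, 5, 5, 5] [98, 92, 86, 74, 62, 50] [] 100000 17857 17856 1157146
    28571 0 42857 28571 14286 57143 28571))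

lemma s22_22_6_4_13 {n : ℕ} (hn : 5 ≤ n) : NoNd (d22_22_6_4.R : ℤ) d22_22_6_4.H n d22_22_6_4.a d22_22_6_4.b
    (BlkD.inB (BlkD.upd (BlkD.upd (BlkD.upd (fun _ => 0) 0 2) 0 3) 1 5)
      (BlkD.upd (BlkD.upd (BlkD.upd (BlkD.upd (BlkD.upd (BlkD.upd (BlkD.upd (BlkD.upd (fun _ => 22) 0 6) 2 4) 0 3) 1 19) 1 9) 1 7) 1 6) 1 5)) :=
  BlkD.tree_sound (BlkD.pairOk_sound k22_22_6_4) (by decide) hn t22_22_6_4_13 _ _ (by decide +kernel)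

/-- certificates of the pair `(6, 4)`, part 14 -/
def t22_22_6_4_14 : BlkD.Tr :=
  .S 2 2 (.S 2 1 (.S 2 0 (.L 6 7 [4, 4, 5, 5, 5] [118, 114, 108, 102, 90, 78] [] 100000 50000 50000
    840000 0 0 60000 100000 0 0 0) (.S 3 12 (.S 3 6 (.S 3 3 (.L 6 7 [4, 4, 5, 5, 5] [118, 114, 108,
    102, 90, 78] [] 100000 16154 16153 1174359 0 26667 45641 53333 22051 13333 33333) (.L 6 7 [4,
    4, 5, 5, 5] [118, 114, 108, 102, 90, 78] [] 100000 13415 13415 1197562 0 34146 36585 63415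
    39024 34146 24390)) (.E 1)) (.E 1))) (.S 3 11 (.S 3 5 (.S 3 2 (.L 6 7 [4, 4, 5, 5, 5] [118,
    114, 108, 102, 90, 78] [] 100000 13786 13785 1207410 0 23148 46296 46296 27778 17078 33333) (.S
    3 4 (.S 3 3 (.L 6 7 [4, 4, 5, 5, 5] [118, 114, 108, 102, 90, 78] [50, 40, 30, 18, 0, 0] 100000
    11842 11842 1227371 7368 15789 51579 37895 26316 51579 26316) (.L 6 7 [4, 4, 5, 5, 5] [118,
    114, 108, 102, 90, 78] [66, 60, 50, 40, 28, 0] 100000 13942 13940 1192310 9615 0 34615 100000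
    44231 15385 28846)) (.E 1))) (.E 1)) (.E 1))) (.S 2 3 (.S 3 10 (.S 3 5 (.S 3 2 (.L 6 7 [4, 4,
    5, 5, 5] [118, 114, 108, 102, 90, 78] [] 100000 11364 11364 1218182 18182 0 54545 27273 27273
    45455 27273) (.L 6 7 [4, 4, 5, 5, 5] [118, 114, 108, 102, 90, 78] [] 100000 12121 12119 1204544
    7576 0 32576 100000 51515 21212 30303)) (.E 1)) (.E 1)) (.L 6 7 [4, 4, 5, 5, 5] [118, 114, 108,
    102, 90, 78] [] 100000 11667 11667 1206666 10000 0 76667 10000 30000 63333 26667))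

lemma s22_22_6_4_14 {n : ℕ} (hn : 5 ≤ n) : NoNd (d22_22_6_4.R : ℤ) d22_22_6_4.H n d22_22_6_4.a d22_22_6_4.b
    (BlkD.inB (BlkD.upd (BlkD.upd (BlkD.upd (BlkD.upd (fun _ => 0) 0 2) 0 3) 1 5) 1 6)
      (BlkD.upd (BlkD.upd (BlkD.upd (BlkD.upd (BlkD.upd (BlkD.upd (BlkD.upd (fun _ => 22) 0 6) 2 4) 0 3) 1 19) 1 9) 1 7) 1 6)) :=
  BlkD.tree_sound (BlkD.pairOk_sound k22_22_6_4) (by decide) hn t22_22_6_4_14 _ _ (by decide +kernel)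

/-- certificates of the pair `(6, 4)`, part 15 -/
def t22_22_6_4_15 : BlkD.Tr :=
  .L 6 7 [4, 4, 5, 5, 5] [140, 136, 132, 126, 120, 108] [] 100000 31875 31875 1012500 0 0 100000
    87500 0 12500 20000

lemma s22_22_6_4_15 {n : ℕ} (hn : 5 ≤ n) : NoNd (d22_22_6_4.R : ℤ) d22_22_6_4.H n d22_22_6_4.a d22_22_6_4.b
    (BlkD.inB (BlkD.upd (BlkD.upd (BlkD.upd (BlkD.upd (fun _ => 0) 0 2) 0 3) 1 5) 1 7)
      (BlkD.upd (BlkD.upd (BlkD.upd (BlkD.upd (BlkD.upd (BlkD.upd (fun _ => 22) 0 6) 2 4) 0 3) 1 19) 1 9) 1 7)) :=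
  BlkD.tree_sound (BlkD.pairOk_sound k22_22_6_4) (by decide) hn t22_22_6_4_15 _ _ (by decide +kernel)

/-- certificates of the pair `(6, 4)`, part 16 -/
def t22_22_6_4_16 : BlkD.Tr :=
  .E 0

lemma s22_22_6_4_16 {n : ℕ} (hn : 5 ≤ n) : NoNd (d22_22_6_4.R : ℤ) d22_22_6_4.H n d22_22_6_4.a d22_22_6_4.b
    (BlkD.inB (BlkD.upd (BlkD.upd (BlkD.upd (BlkD.upd (fun _ => 0) 0 2) 0 3) 1 5) 1 8)
      (BlkD.upd (BlkD.upd (BlkD.upd (BlkD.upd (BlkD.upd (fun _ => 22) 0 6) 2 4) 0 3) 1 19) 1 9)) :=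
  BlkD.tree_sound (BlkD.pairOk_sound k22_22_6_4) (by decide) hn t22_22_6_4_16 _ _ (by decide +kernel)

/-- certificates of the pair `(6, 4)`, part 17 -/
def t22_22_6_4_17 : BlkD.Tr :=
  .E 0

lemma s22_22_6_4_17 {n : ℕ} (hn : 5 ≤ n) : NoNd (d22_22_6_4.R : ℤ) d22_22_6_4.H n d22_22_6_4.a d22_22_6_4.b
    (BlkD.inB (BlkD.upd (BlkD.upd (BlkD.upd (fun _ => 0) 0 2) 0 3) 1 10)
      (BlkD.upd (BlkD.upd (BlkD.upd (BlkD.upd (fun _ => 22) 0 6) 2 4) 0 3) 1 19)) :=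
  BlkD.tree_sound (BlkD.pairOk_sound k22_22_6_4) (by decide) hn t22_22_6_4_17 _ _ (by decide +kernel)

/-- certificates of the pair `(6, 4)`, part 18 -/
def t22_22_6_4_18 : BlkD.Tr :=
  .E 0

lemma s22_22_6_4_18 {n : ℕ} (hn : 5 ≤ n) : NoNd (d22_22_6_4.R : ℤ) d22_22_6_4.H n d22_22_6_4.a d22_22_6_4.b
    (BlkD.inB (BlkD.upd (BlkD.upd (BlkD.upd (fun _ => 0) 0 2) 0 3) 1 20)
      (BlkD.upd (BlkD.upd (BlkD.upd (fun _ => 22) 0 6) 2 4) 0 3)) :=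
  BlkD.tree_sound (BlkD.pairOk_sound k22_22_6_4) (by decide) hn t22_22_6_4_18 _ _ (by decide +kernel)

/-- certificates of the pair `(6, 4)`, part 19 -/
def t22_22_6_4_19 : BlkD.Tr :=
  .L 6 7 [4, 4, 5, 5, 5] [] [] 100000 23107 23105 1112088 43956 0 74237 43956 3785 23565 34066

lemma s22_22_6_4_19 {n : ℕ} (hn : 5 ≤ n) : NoNd (d22_22_6_4.R : ℤ) d22_22_6_4.H n d22_22_6_4.a d22_22_6_4.b
    (BlkD.inB (BlkD.upd (fun _ => 0) 0 4)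
      (BlkD.upd (BlkD.upd (BlkD.upd (BlkD.upd (BlkD.upd (BlkD.upd (BlkD.upd (BlkD.upd (fun _ => 22) 0 6) 2 4) 0 5) 0 4) 1 18) 1 9) 1 4) 1 2)) :=
  BlkD.tree_sound (BlkD.pairOk_sound k22_22_6_4) (by decide) hn t22_22_6_4_19 _ _ (by decide +kernel)

/-- certificates of the pair `(6, 4)`, part 20 -/
def t22_22_6_4_20 : BlkD.Tr :=
  .S 1 3 (.L 6 7 [4, 4, 5, 5, 5] [66, 54, 42, 30, 0, 0] [] 100000 16978 16977 1192222 24745 0 68015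
    33549 16044 25765 32903) (.S 2 2 (.S 2 1 (.S 2 0 (.L 6 7 [4, 4, 5, 5, 5] [86, 80, 68, 56, 44,
    0] [] 100000 50000 50000 840000 0 0 60000 100000 0 0 0) (.S 3 13 (.S 3 6 (.S 3 3 (.L 6 7 [4, 4,
    5, 5, 5] [86, 80, 68, 56, 44, 0] [] 100000 19015 19015 1139302 0 30351 49335 45828 11971 15478
    32164) (.S 3 5 (.S 3 4 (.L 6 7 [4, 4, 5, 5, 5] [86, 80, 68, 56, 44, 0] [58, 52, 42, 32, 20, 0]
    100000 17187 17185 1190625 0 31250 46875 46875 15625 31250 28125) (.L 6 7 [4, 4, 5, 5, 5] [86,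
    80, 68, 56, 44, 0] [72, 68, 62, 52, 42, 30] 100000 12500 12499 1199999 5556 33333 41667 38889
    38889 36111 25000)) (.E 1))) (.E 1)) (.E 1))) (.S 3 12 (.S 3 6 (.S 3 3 (.S 3 1 (.L 6 7 [4, 4,
    5, 5, 5] [86, 80, 68, 56, 44, 0] [] 100000 19792 19792 1100000 0 0 72917 0 20833 0 33333) (.S 3
    2 (.L 6 7 [4, 4, 5, 5, 5] [86, 80, 68, 56, 44, 0] [32, 22, 10, 0, 0, 0] 100000 13141 13140
    1196796 1603 13462 56410 56410 23718 23718 33333) (.S 4 4 (.S 4 2 (.L 6 7 [4, 4, 5, 5, 5] [68,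
    56, 44, 0, 0, 0] [50, 40, 30, 18, 0, 0] 100000 7895 7895 1225001 25000 0 42105 28947 34211
    36842 34211) (.L 6 7 [4, 4, 5, 5, 5] [86, 80, 68, 56, 44, 0] [50, 40, 30, 18, 0, 0] 100000
    23125 23125 1092500 7500 7500 100000 7500 7500 72500 27500)) (.E 2)))) (.L 6 7 [4, 4, 5, 5, 5]
    [86, 80, 68, 56, 44, 0] [] 100000 11363 11361 1209092 6818 0 47727 81818 36364 36364 27273))
    (.E 1)) (.E 1))) (.S 2 3 (.S 3 11 (.S 3 5 (.S 3 2 (.S 3 1 (.L 6 7 [4, 4, 5, 5, 5] [86, 80, 68,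
    56, 44, 0] [] 100000 14913 14911 1174065 12968 12968 57637 51873 20173 25937 31412) (.S 4 4 (.S
    4 2 (.L 6 7 [4, 4, 5, 5, 5] [68, 56, 44, 0, 0, 0] [36, 26, 14, 0, 0, 0] 100000 8334 8334
    1203032 24242 0 40909 36364 33333 33333 33333) (.L 6 7 [4, 4, 5, 5, 5] [86, 80, 68, 56, 44, 0]
    [36, 26, 14, 0, 0, 0] 100000 30000 30000 1020000 0 0 100000 80000 0 20000 20000)) (.E 2))) (.L
    6 7 [4, 4, 5, 5, 5] [86, 80, 68, 56, 44, 0] [] 100000 11363 11361 1209092 6818 0 47727 81818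
    36364 36364 27273)) (.E 1)) (.E 1)) (.L 6 7 [4, 4, 5, 5, 5] [86, 80, 68, 56, 44, 0] [] 100000
    10119 10117 1214286 21429 0 54762 21429 29762 41667 29762)))

lemma s22_22_6_4_20 {n : ℕ} (hn : 5 ≤ n) : NoNd (d22_22_6_4.R : ℤ) d22_22_6_4.H n d22_22_6_4.a d22_22_6_4.b
    (BlkD.inB (BlkD.upd (BlkD.upd (fun _ => 0) 0 4) 1 3)
      (BlkD.upd (BlkD.upd (BlkD.upd (BlkD.upd (BlkD.upd (BlkD.upd (BlkD.upd (fun _ => 22) 0 6) 2 4) 0 5) 0 4) 1 18) 1 9) 1 4)) :=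
  BlkD.tree_sound (BlkD.pairOk_sound k22_22_6_4) (by decide) hn t22_22_6_4_20 _ _ (by decide +kernel)

/-- certificates of the pair `(6, 4)`, part 21 -/
def t22_22_6_4_21 : BlkD.Tr :=
  .L 6 7 [4, 4, 5, 5, 5] [] [] 100000 14062 14060 1193750 0 0 75000 56250 50000 18750 25000

lemma s22_22_6_4_21 {n : ℕ} (hn : 5 ≤ n) : NoNd (d22_22_6_4.R : ℤ) d22_22_6_4.H n d22_22_6_4.a d22_22_6_4.b
    (BlkD.inB (BlkD.upd (BlkD.upd (fun _ => 0) 0 4) 1 5)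
      (BlkD.upd (BlkD.upd (BlkD.upd (BlkD.upd (BlkD.upd (BlkD.upd (fun _ => 22) 0 6) 2 4) 0 5) 0 4) 1 18) 1 9)) :=
  BlkD.tree_sound (BlkD.pairOk_sound k22_22_6_4) (by decide) hn t22_22_6_4_21 _ _ (by decide +kernel)

/-- certificates of the pair `(6, 4)`, part 22 -/
def t22_22_6_4_22 : BlkD.Tr :=
  .E 0

lemma s22_22_6_4_22 {n : ℕ} (hn : 5 ≤ n) : NoNd (d22_22_6_4.R : ℤ) d22_22_6_4.H n d22_22_6_4.a d22_22_6_4.b
    (BlkD.inB (BlkD.upd (BlkD.upd (fun _ => 0) 0 4) 1 10)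
      (BlkD.upd (BlkD.upd (BlkD.upd (BlkD.upd (BlkD.upd (fun _ => 22) 0 6) 2 4) 0 5) 0 4) 1 18)) :=
  BlkD.tree_sound (BlkD.pairOk_sound k22_22_6_4) (by decide) hn t22_22_6_4_22 _ _ (by decide +kernel)

/-- certificates of the pair `(6, 4)`, part 23 -/
def t22_22_6_4_23 : BlkD.Tr :=
  .E 0

lemma s22_22_6_4_23 {n : ℕ} (hn : 5 ≤ n) : NoNd (d22_22_6_4.R : ℤ) d22_22_6_4.H n d22_22_6_4.a d22_22_6_4.b
    (BlkD.inB (BlkD.upd (BlkD.upd (fun _ => 0) 0 4) 1 19)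
      (BlkD.upd (BlkD.upd (BlkD.upd (BlkD.upd (fun _ => 22) 0 6) 2 4) 0 5) 0 4)) :=
  BlkD.tree_sound (BlkD.pairOk_sound k22_22_6_4) (by decide) hn t22_22_6_4_23 _ _ (by decide +kernel)

/-- certificates of the pair `(6, 4)`, part 24 -/
def t22_22_6_4_24 : BlkD.Tr :=
  .L 6 7 [4, 4, 5, 5, 5] [] [] 100000 7870 7868 1250002 0 0 50000 50000 40741 27778 40741

lemma s22_22_6_4_24 {n : ℕ} (hn : 5 ≤ n) : NoNd (d22_22_6_4.R : ℤ) d22_22_6_4.H n d22_22_6_4.a d22_22_6_4.b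
    (BlkD.inB (BlkD.upd (BlkD.upd (fun _ => 0) 0 4) 0 5)
      (BlkD.upd (BlkD.upd (BlkD.upd (fun _ => 22) 0 6) 2 4) 0 5)) :=
  BlkD.tree_sound (BlkD.pairOk_sound k22_22_6_4) (by decide) hn t22_22_6_4_24 _ _ (by decide +kernel)

/-- certificates of the pair `(6, 4)`, part 25 -/
def t22_22_6_4_25 : BlkD.Tr :=
  .L 6 7 [4, 4, 5, 5, 5] [] [] 100000 8796 8794 1200000 0 0 50000 50000 42593 22222 42593

lemma s22_22_6_4_25 {n : ℕ} (hn : 5 ≤ n) : NoNd (d22_22_6_4.R : ℤ) d22_22_6_4.H n d22_22_6_4.a d22_22_6_4.b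
    (BlkD.inB (BlkD.upd (BlkD.upd (fun _ => 0) 0 4) 0 6)
      (BlkD.upd (BlkD.upd (fun _ => 22) 0 6) 2 4)) :=
  BlkD.tree_sound (BlkD.pairOk_sound k22_22_6_4) (by decide) hn t22_22_6_4_25 _ _ (by decide +kernel)

/-- certificates of the pair `(6, 4)`, part 26 -/
def t22_22_6_4_26 : BlkD.Tr :=
  .E 1

lemma s22_22_6_4_26 {n : ℕ} (hn : 5 ≤ n) : NoNd (d22_22_6_4.R : ℤ) d22_22_6_4.H n d22_22_6_4.a d22_22_6_4.b
    (BlkD.inB (BlkD.upd (fun _ => 0) 2 5)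
      (BlkD.upd (fun _ => 22) 0 6)) :=
  BlkD.tree_sound (BlkD.pairOk_sound k22_22_6_4) (by decide) hn t22_22_6_4_26 _ _ (by decide +kernel)

/-- certificates of the pair `(6, 4)`, part 27 -/
def t22_22_6_4_27 : BlkD.Tr :=
  .E 0

lemma s22_22_6_4_27 {n : ℕ} (hn : 5 ≤ n) : NoNd (d22_22_6_4.R : ℤ) d22_22_6_4.H n d22_22_6_4.a d22_22_6_4.b
    (BlkD.inB (BlkD.upd (fun _ => 0) 0 7)
      (fun _ => 22)) :=
  BlkD.tree_sound (BlkD.pairOk_sound k22_22_6_4) (by decide) hn t22_22_6_4_27 _ _ (by decide +kernel)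

lemma pr22_22_6_4 {n : ℕ} (hn : 5 ≤ n) : NoPr ((22 : ℕ) : ℤ) ((22 : ℕ) : ℤ) n 6 4 :=
  BlkD.of_root (R := d22_22_6_4.R) (H := d22_22_6_4.H) (a := d22_22_6_4.a) (b := d22_22_6_4.b) (q := 3) (by decide) hn
    (BlkD.sp 0 6 (BlkD.sp 2 4 (BlkD.sp 0 3 (BlkD.sp 0 1 (BlkD.sp 0 0 (s22_22_6_4_1 hn) (BlkD.sp 1
      11 (BlkD.sp 1 5 (s22_22_6_4_2 hn) (s22_22_6_4_3 hn)) (s22_22_6_4_4 hn))) (BlkD.sp 0 2
      (BlkD.sp 1 20 (BlkD.sp 1 10 (BlkD.sp 1 5 (s22_22_6_4_5 hn) (BlkD.sp 1 8 (BlkD.sp 1 7 (BlkD.sp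
      1 6 (s22_22_6_4_6 hn) (s22_22_6_4_7 hn)) (s22_22_6_4_8 hn)) (s22_22_6_4_9 hn)))
      (s22_22_6_4_10 hn)) (s22_22_6_4_11 hn)) (BlkD.sp 1 19 (BlkD.sp 1 9 (BlkD.sp 1 4
      (s22_22_6_4_12 hn) (BlkD.sp 1 7 (BlkD.sp 1 6 (BlkD.sp 1 5 (s22_22_6_4_13 hn) (s22_22_6_4_14
      hn)) (s22_22_6_4_15 hn)) (s22_22_6_4_16 hn))) (s22_22_6_4_17 hn)) (s22_22_6_4_18 hn))))
      (BlkD.sp 0 5 (BlkD.sp 0 4 (BlkD.sp 1 18 (BlkD.sp 1 9 (BlkD.sp 1 4 (BlkD.sp 1 2 (s22_22_6_4_19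
      hn) (s22_22_6_4_20 hn)) (s22_22_6_4_21 hn)) (s22_22_6_4_22 hn)) (s22_22_6_4_23 hn))
      (s22_22_6_4_24 hn)) (s22_22_6_4_25 hn))) (s22_22_6_4_26 hn)) (s22_22_6_4_27 hn))

end BlkC

end Pool.Agent.Lib.MP_f04ccf_co
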