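import Pool.Agent.Lib.MP_f04ccf_co.M.BlkT

/-!
MP_f04ccf_co, block certificate, data `R = 22`, `H = 22`, part 20 (generated, helper99:
bd10.cpp, gen2.py).
-/

set_option autoImplicit false
set_option maxRecDepth 100000

namespace Pool.Agent.Lib.MP_f04ccf_co

namespace BlkC

/-- the numbers of the pair `(10, 5)`, `R = 22`, `H = 22` -/
def d22_22_10_5 : BlkD.Pd :=
  ⟨22, 22, 3, 10, 5, 4, 1, 4, 0, 4, 8, 0, 2, 2, 6, 0, [0, 8, 16, 16, 16], [0, 6, 12, 14, 16], [⟨1,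
    1, 1, 4, 8, [0, 4], [0, 4]⟩, ⟨1, 1, 1, 4, 14, [0, 8], [0, 6]⟩]⟩

lemma k22_22_10_5 : BlkD.pairOk d22_22_10_5 = true := by decide +kernel

/-- certificates of the pair `(10, 5)`, part 1 -/
def t22_22_10_5_1 : BlkD.Tr :=
  .L 5 6 [4, 4, 22, 22, 22, 22] [] [] 100000 1 1 1733333 66667 16667 100000 50000 0 0 0

lemma s22_22_10_5_1 {n : ℕ} (hn : 5 ≤ n) : NoNd (d22_22_10_5.R : ℤ) d22_22_10_5.H n d22_22_10_5.a d22_22_10_5.b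
    (BlkD.inB (fun _ => 0)
      (BlkD.upd (BlkD.upd (BlkD.upd (BlkD.upd (BlkD.upd (BlkD.upd (fun _ => 22) 0 10) 2 5) 0 5) 0 2) 0 1) 0 0)) :=
  BlkD.tree_sound (BlkD.pairOk_sound k22_22_10_5) (by decide) hn t22_22_10_5_1 _ _ (by decide +kernel)

/-- certificates of the pair `(10, 5)`, part 2 -/
def t22_22_10_5_2 : BlkD.Tr :=
  .S 1 11 (.S 1 5 (.L 5 6 [4, 4, 22, 22, 22, 22] [] [] 100000 1 1 1733333 66667 16667 100000 50000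
    0 0 0) (.L 5 6 [4, 4, 22, 22, 22, 22] [] [] 100000 1 1 1733333 66667 16667 100000 50000 0 0 0))
    (.L 5 6 [4, 4, 22, 22, 22, 22] [] [] 100000 1 1 1733333 66667 16667 100000 50000 0 0 0)

lemma s22_22_10_5_2 {n : ℕ} (hn : 5 ≤ n) : NoNd (d22_22_10_5.R : ℤ) d22_22_10_5.H n d22_22_10_5.a d22_22_10_5.b
    (BlkD.inB (BlkD.upd (fun _ => 0) 0 1)
      (BlkD.upd (BlkD.upd (BlkD.upd (BlkD.upd (BlkD.upd (fun _ => 22) 0 10) 2 5) 0 5) 0 2) 0 1)) :=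
  BlkD.tree_sound (BlkD.pairOk_sound k22_22_10_5) (by decide) hn t22_22_10_5_2 _ _ (by decide +kernel)

/-- certificates of the pair `(10, 5)`, part 3 -/
def t22_22_10_5_3 : BlkD.Tr :=
  .L 5 6 [4, 4, 22, 22, 22, 22] [] [] 100000 1 1 1733333 66667 16667 100000 50000 0 0 0

lemma s22_22_10_5_3 {n : ℕ} (hn : 5 ≤ n) : NoNd (d22_22_10_5.R : ℤ) d22_22_10_5.H n d22_22_10_5.a d22_22_10_5.b
    (BlkD.inB (BlkD.upd (fun _ => 0) 0 2)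
      (BlkD.upd (BlkD.upd (BlkD.upd (BlkD.upd (BlkD.upd (BlkD.upd (fun _ => 22) 0 10) 2 5) 0 5) 0 2) 1 11) 1 5)) :=
  BlkD.tree_sound (BlkD.pairOk_sound k22_22_10_5) (by decide) hn t22_22_10_5_3 _ _ (by decide +kernel)

/-- certificates of the pair `(10, 5)`, part 4 -/
def t22_22_10_5_4 : BlkD.Tr :=
  .S 1 8 (.L 5 6 [4, 4, 22, 22, 22, 22] [] [] 100000 1 1 1733333 66667 16667 100000 50000 0 0 0)
    (.L 5 6 [4, 4, 22, 22, 22, 22] [] [] 100000 1 1 1733333 66667 16667 100000 50000 0 0 0)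

lemma s22_22_10_5_4 {n : ℕ} (hn : 5 ≤ n) : NoNd (d22_22_10_5.R : ℤ) d22_22_10_5.H n d22_22_10_5.a d22_22_10_5.b
    (BlkD.inB (BlkD.upd (BlkD.upd (fun _ => 0) 0 2) 1 6)
      (BlkD.upd (BlkD.upd (BlkD.upd (BlkD.upd (BlkD.upd (fun _ => 22) 0 10) 2 5) 0 5) 0 2) 1 11)) :=
  BlkD.tree_sound (BlkD.pairOk_sound k22_22_10_5) (by decide) hn t22_22_10_5_4 _ _ (by decide +kernel)

/-- certificates of the pair `(10, 5)`, part 5 -/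
def t22_22_10_5_5 : BlkD.Tr :=
  .L 5 6 [4, 4, 22, 22, 22, 22] [] [] 100000 1 1 1733333 66667 16667 100000 50000 0 0 0

lemma s22_22_10_5_5 {n : ℕ} (hn : 5 ≤ n) : NoNd (d22_22_10_5.R : ℤ) d22_22_10_5.H n d22_22_10_5.a d22_22_10_5.b
    (BlkD.inB (BlkD.upd (BlkD.upd (fun _ => 0) 0 2) 1 12)
      (BlkD.upd (BlkD.upd (BlkD.upd (BlkD.upd (fun _ => 22) 0 10) 2 5) 0 5) 0 2)) :=
  BlkD.tree_sound (BlkD.pairOk_sound k22_22_10_5) (by decide) hn t22_22_10_5_5 _ _ (by decide +kernel)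

/-- certificates of the pair `(10, 5)`, part 6 -/
def t22_22_10_5_6 : BlkD.Tr :=
  .L 5 6 [4, 4, 22, 22, 22, 22] [] [] 100000 1 1 1733333 66667 16667 100000 50000 0 0 0

lemma s22_22_10_5_6 {n : ℕ} (hn : 5 ≤ n) : NoNd (d22_22_10_5.R : ℤ) d22_22_10_5.H n d22_22_10_5.a d22_22_10_5.b
    (BlkD.inB (BlkD.upd (fun _ => 0) 0 3)
      (BlkD.upd (BlkD.upd (BlkD.upd (BlkD.upd (BlkD.upd (BlkD.upd (BlkD.upd (fun _ => 22) 0 10) 2 5) 0 5) 0 4) 0 3) 1 11) 1 5)) :=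
  BlkD.tree_sound (BlkD.pairOk_sound k22_22_10_5) (by decide) hn t22_22_10_5_6 _ _ (by decide +kernel)

/-- certificates of the pair `(10, 5)`, part 7 -/
def t22_22_10_5_7 : BlkD.Tr :=
  .S 1 8 (.L 5 6 [4, 4, 22, 22, 22, 22] [] [] 100000 1 1 1733333 66667 16667 100000 50000 0 0 0)
    (.L 5 6 [4, 4, 22, 22, 22, 22] [] [] 100000 1 1 1733333 66667 16667 100000 50000 0 0 0)

lemma s22_22_10_5_7 {n : ℕ} (hn : 5 ≤ n) : NoNd (d22_22_10_5.R : ℤ) d22_22_10_5.H n d22_22_10_5.a d22_22_10_5.b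
    (BlkD.inB (BlkD.upd (BlkD.upd (fun _ => 0) 0 3) 1 6)
      (BlkD.upd (BlkD.upd (BlkD.upd (BlkD.upd (BlkD.upd (BlkD.upd (fun _ => 22) 0 10) 2 5) 0 5) 0 4) 0 3) 1 11)) :=
  BlkD.tree_sound (BlkD.pairOk_sound k22_22_10_5) (by decide) hn t22_22_10_5_7 _ _ (by decide +kernel)

/-- certificates of the pair `(10, 5)`, part 8 -/
def t22_22_10_5_8 : BlkD.Tr :=
  .L 5 6 [4, 4, 22, 22, 22, 22] [] [] 100000 1 1 1733333 66667 16667 100000 50000 0 0 0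

lemma s22_22_10_5_8 {n : ℕ} (hn : 5 ≤ n) : NoNd (d22_22_10_5.R : ℤ) d22_22_10_5.H n d22_22_10_5.a d22_22_10_5.b
    (BlkD.inB (BlkD.upd (BlkD.upd (fun _ => 0) 0 3) 1 12)
      (BlkD.upd (BlkD.upd (BlkD.upd (BlkD.upd (BlkD.upd (fun _ => 22) 0 10) 2 5) 0 5) 0 4) 0 3)) :=
  BlkD.tree_sound (BlkD.pairOk_sound k22_22_10_5) (by decide) hn t22_22_10_5_8 _ _ (by decide +kernel)

/-- certificates of the pair `(10, 5)`, part 9 -/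
def t22_22_10_5_9 : BlkD.Tr :=
  .L 5 6 [4, 4, 22, 22, 22, 22] [] [] 100000 1 1 1733333 66667 16667 100000 50000 0 0 0

lemma s22_22_10_5_9 {n : ℕ} (hn : 5 ≤ n) : NoNd (d22_22_10_5.R : ℤ) d22_22_10_5.H n d22_22_10_5.a d22_22_10_5.b
    (BlkD.inB (BlkD.upd (BlkD.upd (fun _ => 0) 0 3) 0 4)
      (BlkD.upd (BlkD.upd (BlkD.upd (BlkD.upd (BlkD.upd (BlkD.upd (fun _ => 22) 0 10) 2 5) 0 5) 0 4) 1 11) 1 5)) :=
  BlkD.tree_sound (BlkD.pairOk_sound k22_22_10_5) (by decide) hn t22_22_10_5_9 _ _ (by decide +kernel)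

/-- certificates of the pair `(10, 5)`, part 10 -/
def t22_22_10_5_10 : BlkD.Tr :=
  .L 5 6 [4, 4, 22, 22, 22, 22] [] [] 100000 1 1 1733333 66667 16667 100000 50000 0 0 0

lemma s22_22_10_5_10 {n : ℕ} (hn : 5 ≤ n) : NoNd (d22_22_10_5.R : ℤ) d22_22_10_5.H n d22_22_10_5.a d22_22_10_5.b
    (BlkD.inB (BlkD.upd (BlkD.upd (BlkD.upd (fun _ => 0) 0 3) 0 4) 1 6)
      (BlkD.upd (BlkD.upd (BlkD.upd (BlkD.upd (BlkD.upd (BlkD.upd (fun _ => 22) 0 10) 2 5) 0 5) 0 4) 1 11) 1 8)) :=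
  BlkD.tree_sound (BlkD.pairOk_sound k22_22_10_5) (by decide) hn t22_22_10_5_10 _ _ (by decide +kernel)

/-- certificates of the pair `(10, 5)`, part 11 -/
def t22_22_10_5_11 : BlkD.Tr :=
  .S 1 10 (.L 5 6 [4, 4, 22, 22, 22, 22] [] [] 100000 1 1 1733333 66667 16667 100000 50000 0 0 0)
    (.L 5 6 [4, 4, 22, 22, 22, 22] [258, 258, 258, 258, 258, 258] [] 100000 1 1 1733333 66667 16667
    100000 50000 0 0 0)

lemma s22_22_10_5_11 {n : ℕ} (hn : 5 ≤ n) : NoNd (d22_22_10_5.R : ℤ) d22_22_10_5.H n d22_22_10_5.a d22_22_10_5.b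
    (BlkD.inB (BlkD.upd (BlkD.upd (BlkD.upd (BlkD.upd (fun _ => 0) 0 3) 0 4) 1 6) 1 9)
      (BlkD.upd (BlkD.upd (BlkD.upd (BlkD.upd (BlkD.upd (fun _ => 22) 0 10) 2 5) 0 5) 0 4) 1 11)) :=
  BlkD.tree_sound (BlkD.pairOk_sound k22_22_10_5) (by decide) hn t22_22_10_5_11 _ _ (by decide +kernel)

/-- certificates of the pair `(10, 5)`, part 12 -/
def t22_22_10_5_12 : BlkD.Tr :=
  .S 1 17 (.S 1 14 (.S 1 13 (.S 1 12 (.L 5 6 [4, 4, 22, 22, 22, 22] [288, 288, 288, 288, 288, 288]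
    [] 100000 1 1 1733333 66667 16667 100000 50000 0 0 0) (.L 5 6 [4, 4, 22, 22, 22, 22] [320, 320,
    320, 320, 320, 320] [] 100000 1 1 1733333 66667 16667 100000 50000 0 0 0)) (.L 5 6 [4, 4, 22,
    22, 22, 22] [354, 354, 354, 354, 354, 354] [] 100000 1 1 1733333 66667 16667 100000 50000 0 0
    0)) (.L 5 6 [4, 4, 22, 22, 22, 22] [] [] 100000 1 1 1733333 66667 16667 100000 50000 0 0 0))
    (.L 5 6 [4, 4, 22, 22, 22, 22] [] [] 100000 1 1 1733333 66667 16667 100000 50000 0 0 0)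

lemma s22_22_10_5_12 {n : ℕ} (hn : 5 ≤ n) : NoNd (d22_22_10_5.R : ℤ) d22_22_10_5.H n d22_22_10_5.a d22_22_10_5.b
    (BlkD.inB (BlkD.upd (BlkD.upd (BlkD.upd (fun _ => 0) 0 3) 0 4) 1 12)
      (BlkD.upd (BlkD.upd (BlkD.upd (BlkD.upd (fun _ => 22) 0 10) 2 5) 0 5) 0 4)) :=
  BlkD.tree_sound (BlkD.pairOk_sound k22_22_10_5) (by decide) hn t22_22_10_5_12 _ _ (by decide +kernel)

/-- certificates of the pair `(10, 5)`, part 13 -/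
def t22_22_10_5_13 : BlkD.Tr :=
  .L 5 6 [4, 4, 22, 22, 22, 22] [] [] 100000 1 1 1733333 66667 16667 100000 50000 0 0 0

lemma s22_22_10_5_13 {n : ℕ} (hn : 5 ≤ n) : NoNd (d22_22_10_5.R : ℤ) d22_22_10_5.H n d22_22_10_5.a d22_22_10_5.b
    (BlkD.inB (BlkD.upd (BlkD.upd (fun _ => 0) 0 3) 0 5)
      (BlkD.upd (BlkD.upd (BlkD.upd (BlkD.upd (BlkD.upd (fun _ => 22) 0 10) 2 5) 0 5) 1 11) 1 5)) :=
  BlkD.tree_sound (BlkD.pairOk_sound k22_22_10_5) (by decide) hn t22_22_10_5_13 _ _ (by decide +kernel)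

/-- certificates of the pair `(10, 5)`, part 14 -/
def t22_22_10_5_14 : BlkD.Tr :=
  .L 5 6 [4, 4, 22, 22, 22, 22] [] [] 100000 1 1 1733333 66667 16667 100000 50000 0 0 0

lemma s22_22_10_5_14 {n : ℕ} (hn : 5 ≤ n) : NoNd (d22_22_10_5.R : ℤ) d22_22_10_5.H n d22_22_10_5.a d22_22_10_5.b
    (BlkD.inB (BlkD.upd (BlkD.upd (BlkD.upd (fun _ => 0) 0 3) 0 5) 1 6)
      (BlkD.upd (BlkD.upd (BlkD.upd (BlkD.upd (BlkD.upd (fun _ => 22) 0 10) 2 5) 0 5) 1 11) 1 8)) :=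
  BlkD.tree_sound (BlkD.pairOk_sound k22_22_10_5) (by decide) hn t22_22_10_5_14 _ _ (by decide +kernel)

/-- certificates of the pair `(10, 5)`, part 15 -/
def t22_22_10_5_15 : BlkD.Tr :=
  .S 1 9 (.L 5 6 [4, 4, 22, 22, 22, 22] [222, 222, 222, 222, 220, 212] [] 100000 1 1 1733333 66667
    16667 100000 50000 0 0 0) (.L 5 6 [4, 4, 22, 22, 22, 22] [250, 250, 250, 250, 250, 248] []
    100000 1 1 1733333 66667 16667 100000 50000 0 0 0)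

lemma s22_22_10_5_15 {n : ℕ} (hn : 5 ≤ n) : NoNd (d22_22_10_5.R : ℤ) d22_22_10_5.H n d22_22_10_5.a d22_22_10_5.b
    (BlkD.inB (BlkD.upd (BlkD.upd (BlkD.upd (BlkD.upd (fun _ => 0) 0 3) 0 5) 1 6) 1 9)
      (BlkD.upd (BlkD.upd (BlkD.upd (BlkD.upd (BlkD.upd (fun _ => 22) 0 10) 2 5) 0 5) 1 11) 1 10)) :=
  BlkD.tree_sound (BlkD.pairOk_sound k22_22_10_5) (by decide) hn t22_22_10_5_15 _ _ (by decide +kernel)

/-- certificates of the pair `(10, 5)`, part 16 -/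
def t22_22_10_5_16 : BlkD.Tr :=
  .L 5 6 [4, 4, 22, 22, 22, 22] [280, 280, 280, 280, 280, 280] [] 100000 1 1 1733333 66667 16667
    100000 50000 0 0 0

lemma s22_22_10_5_16 {n : ℕ} (hn : 5 ≤ n) : NoNd (d22_22_10_5.R : ℤ) d22_22_10_5.H n d22_22_10_5.a d22_22_10_5.b
    (BlkD.inB (BlkD.upd (BlkD.upd (BlkD.upd (BlkD.upd (BlkD.upd (fun _ => 0) 0 3) 0 5) 1 6) 1 9) 1 11)
      (BlkD.upd (BlkD.upd (BlkD.upd (BlkD.upd (fun _ => 22) 0 10) 2 5) 0 5) 1 11)) :=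
  BlkD.tree_sound (BlkD.pairOk_sound k22_22_10_5) (by decide) hn t22_22_10_5_16 _ _ (by decide +kernel)

/-- certificates of the pair `(10, 5)`, part 17 -/
def t22_22_10_5_17 : BlkD.Tr :=
  .S 1 17 (.S 1 14 (.S 1 13 (.S 1 12 (.L 5 6 [4, 4, 22, 22, 22, 22] [312, 312, 312, 312, 312, 312]
    [] 100000 1 1 1733333 66667 16667 100000 50000 0 0 0) (.L 5 6 [4, 4, 22, 22, 22, 22] [346, 346,
    346, 346, 346, 346] [] 100000 1 1 1733333 66667 16667 100000 50000 0 0 0)) (.L 5 6 [4, 4, 22,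
    22, 22, 22] [382, 382, 382, 382, 382, 382] [] 100000 1 1 1733333 66667 16667 100000 50000 0 0
    0)) (.L 5 6 [4, 4, 22, 22, 22, 22] [] [] 100000 1 1 1733333 66667 16667 100000 50000 0 0 0))
    (.L 5 6 [4, 4, 22, 22, 22, 22] [] [] 100000 1 1 1733333 66667 16667 100000 50000 0 0 0)

lemma s22_22_10_5_17 {n : ℕ} (hn : 5 ≤ n) : NoNd (d22_22_10_5.R : ℤ) d22_22_10_5.H n d22_22_10_5.a d22_22_10_5.b
    (BlkD.inB (BlkD.upd (BlkD.upd (BlkD.upd (fun _ => 0) 0 3) 0 5) 1 12)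
      (BlkD.upd (BlkD.upd (BlkD.upd (fun _ => 22) 0 10) 2 5) 0 5)) :=
  BlkD.tree_sound (BlkD.pairOk_sound k22_22_10_5) (by decide) hn t22_22_10_5_17 _ _ (by decide +kernel)

/-- certificates of the pair `(10, 5)`, part 18 -/
def t22_22_10_5_18 : BlkD.Tr :=
  .L 5 6 [4, 4, 22, 22, 22, 22] [] [] 100000 1 1 1733333 66667 16667 100000 50000 0 0 0

lemma s22_22_10_5_18 {n : ℕ} (hn : 5 ≤ n) : NoNd (d22_22_10_5.R : ℤ) d22_22_10_5.H n d22_22_10_5.a d22_22_10_5.b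
    (BlkD.inB (BlkD.upd (fun _ => 0) 0 6)
      (BlkD.upd (BlkD.upd (BlkD.upd (BlkD.upd (BlkD.upd (BlkD.upd (BlkD.upd (fun _ => 22) 0 10) 2 5) 0 8) 0 7) 0 6) 1 11) 1 5)) :=
  BlkD.tree_sound (BlkD.pairOk_sound k22_22_10_5) (by decide) hn t22_22_10_5_18 _ _ (by decide +kernel)

/-- certificates of the pair `(10, 5)`, part 19 -/
def t22_22_10_5_19 : BlkD.Tr :=
  .S 1 7 (.L 5 6 [4, 4, 22, 22, 22, 22] [] [] 100000 1 1 1733333 66667 16667 100000 50000 0 0 0)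
    (.L 5 6 [4, 4, 22, 22, 22, 22] [212, 212, 212, 210, 202, 194] [] 100000 1 1 1733333 66667 16667
    100000 50000 0 0 0)

lemma s22_22_10_5_19 {n : ℕ} (hn : 5 ≤ n) : NoNd (d22_22_10_5.R : ℤ) d22_22_10_5.H n d22_22_10_5.a d22_22_10_5.b
    (BlkD.inB (BlkD.upd (BlkD.upd (fun _ => 0) 0 6) 1 6)
      (BlkD.upd (BlkD.upd (BlkD.upd (BlkD.upd (BlkD.upd (BlkD.upd (BlkD.upd (fun _ => 22) 0 10) 2 5) 0 8) 0 7) 0 6) 1 11) 1 8)) :=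
  BlkD.tree_sound (BlkD.pairOk_sound k22_22_10_5) (by decide) hn t22_22_10_5_19 _ _ (by decide +kernel)

/-- certificates of the pair `(10, 5)`, part 20 -/
def t22_22_10_5_20 : BlkD.Tr :=
  .S 1 9 (.L 5 6 [4, 4, 22, 22, 22, 22] [240, 240, 240, 240, 238, 230] [] 100000 1 1 1733333 66667
    16667 100000 50000 0 0 0) (.L 5 6 [4, 4, 22, 22, 22, 22] [270, 270, 270, 270, 270, 268] []
    100000 1 1 1733333 66667 16667 100000 50000 0 0 0)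

lemma s22_22_10_5_20 {n : ℕ} (hn : 5 ≤ n) : NoNd (d22_22_10_5.R : ℤ) d22_22_10_5.H n d22_22_10_5.a d22_22_10_5.b
    (BlkD.inB (BlkD.upd (BlkD.upd (BlkD.upd (fun _ => 0) 0 6) 1 6) 1 9)
      (BlkD.upd (BlkD.upd (BlkD.upd (BlkD.upd (BlkD.upd (BlkD.upd (BlkD.upd (fun _ => 22) 0 10) 2 5) 0 8) 0 7) 0 6) 1 11) 1 10)) :=
  BlkD.tree_sound (BlkD.pairOk_sound k22_22_10_5) (by decide) hn t22_22_10_5_20 _ _ (by decide +kernel)

/-- certificates of the pair `(10, 5)`, part 21 -/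
def t22_22_10_5_21 : BlkD.Tr :=
  .L 5 6 [4, 4, 22, 22, 22, 22] [302, 302, 302, 302, 302, 302] [] 100000 1 1 1733333 66667 16667
    100000 50000 0 0 0

lemma s22_22_10_5_21 {n : ℕ} (hn : 5 ≤ n) : NoNd (d22_22_10_5.R : ℤ) d22_22_10_5.H n d22_22_10_5.a d22_22_10_5.b
    (BlkD.inB (BlkD.upd (BlkD.upd (BlkD.upd (BlkD.upd (fun _ => 0) 0 6) 1 6) 1 9) 1 11)
      (BlkD.upd (BlkD.upd (BlkD.upd (BlkD.upd (BlkD.upd (BlkD.upd (fun _ => 22) 0 10) 2 5) 0 8) 0 7) 0 6) 1 11)) :=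
  BlkD.tree_sound (BlkD.pairOk_sound k22_22_10_5) (by decide) hn t22_22_10_5_21 _ _ (by decide +kernel)

/-- certificates of the pair `(10, 5)`, part 22 -/
def t22_22_10_5_22 : BlkD.Tr :=
  .L 5 6 [4, 4, 22, 22, 22, 22] [] [] 100000 1 1 1733333 66667 16667 100000 50000 0 0 0

lemma s22_22_10_5_22 {n : ℕ} (hn : 5 ≤ n) : NoNd (d22_22_10_5.R : ℤ) d22_22_10_5.H n d22_22_10_5.a d22_22_10_5.b
    (BlkD.inB (BlkD.upd (BlkD.upd (fun _ => 0) 0 6) 1 12)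
      (BlkD.upd (BlkD.upd (BlkD.upd (BlkD.upd (BlkD.upd (fun _ => 22) 0 10) 2 5) 0 8) 0 7) 0 6)) :=
  BlkD.tree_sound (BlkD.pairOk_sound k22_22_10_5) (by decide) hn t22_22_10_5_22 _ _ (by decide +kernel)

/-- certificates of the pair `(10, 5)`, part 23 -/
def t22_22_10_5_23 : BlkD.Tr :=
  .L 5 6 [4, 4, 22, 22, 22, 22] [] [] 100000 1 1 1733333 66667 16667 100000 50000 0 0 0

lemma s22_22_10_5_23 {n : ℕ} (hn : 5 ≤ n) : NoNd (d22_22_10_5.R : ℤ) d22_22_10_5.H n d22_22_10_5.a d22_22_10_5.b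
    (BlkD.inB (BlkD.upd (BlkD.upd (fun _ => 0) 0 6) 0 7)
      (BlkD.upd (BlkD.upd (BlkD.upd (BlkD.upd (BlkD.upd (BlkD.upd (fun _ => 22) 0 10) 2 5) 0 8) 0 7) 1 11) 1 5)) :=
  BlkD.tree_sound (BlkD.pairOk_sound k22_22_10_5) (by decide) hn t22_22_10_5_23 _ _ (by decide +kernel)

/-- certificates of the pair `(10, 5)`, part 24 -/
def t22_22_10_5_24 : BlkD.Tr :=
  .S 1 7 (.L 5 6 [4, 4, 22, 22, 22, 22] [] [] 100000 1 1 1733333 66667 16667 100000 50000 0 0 0)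
    (.L 5 6 [4, 4, 22, 22, 22, 22] [228, 228, 228, 226, 218, 210] [] 100000 1 1 1733333 66667 16667
    100000 50000 0 0 0)

lemma s22_22_10_5_24 {n : ℕ} (hn : 5 ≤ n) : NoNd (d22_22_10_5.R : ℤ) d22_22_10_5.H n d22_22_10_5.a d22_22_10_5.b
    (BlkD.inB (BlkD.upd (BlkD.upd (BlkD.upd (fun _ => 0) 0 6) 0 7) 1 6)
      (BlkD.upd (BlkD.upd (BlkD.upd (BlkD.upd (BlkD.upd (BlkD.upd (fun _ => 22) 0 10) 2 5) 0 8) 0 7) 1 11) 1 8)) :=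
  BlkD.tree_sound (BlkD.pairOk_sound k22_22_10_5) (by decide) hn t22_22_10_5_24 _ _ (by decide +kernel)

/-- certificates of the pair `(10, 5)`, part 25 -/
def t22_22_10_5_25 : BlkD.Tr :=
  .L 5 6 [4, 4, 22, 22, 22, 22] [] [] 100000 1 1 1733333 66667 16667 100000 50000 0 0 0

lemma s22_22_10_5_25 {n : ℕ} (hn : 5 ≤ n) : NoNd (d22_22_10_5.R : ℤ) d22_22_10_5.H n d22_22_10_5.a d22_22_10_5.b
    (BlkD.inB (BlkD.upd (BlkD.upd (BlkD.upd (BlkD.upd (fun _ => 0) 0 6) 0 7) 1 6) 1 9)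
      (BlkD.upd (BlkD.upd (BlkD.upd (BlkD.upd (BlkD.upd (fun _ => 22) 0 10) 2 5) 0 8) 0 7) 1 11)) :=
  BlkD.tree_sound (BlkD.pairOk_sound k22_22_10_5) (by decide) hn t22_22_10_5_25 _ _ (by decide +kernel)

/-- certificates of the pair `(10, 5)`, part 26 -/
def t22_22_10_5_26 : BlkD.Tr :=
  .L 5 6 [4, 4, 22, 22, 22, 22] [] [] 100000 1 1 1733333 66667 16667 100000 50000 0 0 0

lemma s22_22_10_5_26 {n : ℕ} (hn : 5 ≤ n) : NoNd (d22_22_10_5.R : ℤ) d22_22_10_5.H n d22_22_10_5.a d22_22_10_5.b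
    (BlkD.inB (BlkD.upd (BlkD.upd (BlkD.upd (fun _ => 0) 0 6) 0 7) 1 12)
      (BlkD.upd (BlkD.upd (BlkD.upd (BlkD.upd (fun _ => 22) 0 10) 2 5) 0 8) 0 7)) :=
  BlkD.tree_sound (BlkD.pairOk_sound k22_22_10_5) (by decide) hn t22_22_10_5_26 _ _ (by decide +kernel)

/-- certificates of the pair `(10, 5)`, part 27 -/
def t22_22_10_5_27 : BlkD.Tr :=
  .S 1 11 (.S 1 5 (.L 5 6 [4, 4, 22, 22, 22, 22] [] [] 100000 1 1 1733333 66667 16667 100000 50000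
    0 0 0) (.L 5 6 [4, 4, 22, 22, 22, 22] [] [] 100000 1 1 1733333 66667 16667 100000 50000 0 0 0))
    (.L 5 6 [4, 4, 22, 22, 22, 22] [] [] 100000 1 1 1733333 66667 16667 100000 50000 0 0 0)

lemma s22_22_10_5_27 {n : ℕ} (hn : 5 ≤ n) : NoNd (d22_22_10_5.R : ℤ) d22_22_10_5.H n d22_22_10_5.a d22_22_10_5.b
    (BlkD.inB (BlkD.upd (BlkD.upd (fun _ => 0) 0 6) 0 8)
      (BlkD.upd (BlkD.upd (BlkD.upd (fun _ => 22) 0 10) 2 5) 0 8)) :=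
  BlkD.tree_sound (BlkD.pairOk_sound k22_22_10_5) (by decide) hn t22_22_10_5_27 _ _ (by decide +kernel)

/-- certificates of the pair `(10, 5)`, part 28 -/
def t22_22_10_5_28 : BlkD.Tr :=
  .L 5 6 [4, 4, 22, 22, 22, 22] [] [] 100000 1 1 1733333 66667 16667 100000 50000 0 0 0

lemma s22_22_10_5_28 {n : ℕ} (hn : 5 ≤ n) : NoNd (d22_22_10_5.R : ℤ) d22_22_10_5.H n d22_22_10_5.a d22_22_10_5.b
    (BlkD.inB (BlkD.upd (BlkD.upd (fun _ => 0) 0 6) 0 9)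
      (BlkD.upd (BlkD.upd (fun _ => 22) 0 10) 2 5)) :=
  BlkD.tree_sound (BlkD.pairOk_sound k22_22_10_5) (by decide) hn t22_22_10_5_28 _ _ (by decide +kernel)

/-- certificates of the pair `(10, 5)`, part 29 -/
def t22_22_10_5_29 : BlkD.Tr :=
  .E 1

lemma s22_22_10_5_29 {n : ℕ} (hn : 5 ≤ n) : NoNd (d22_22_10_5.R : ℤ) d22_22_10_5.H n d22_22_10_5.a d22_22_10_5.b
    (BlkD.inB (BlkD.upd (fun _ => 0) 2 6)
      (BlkD.upd (fun _ => 22) 0 10)) :=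
  BlkD.tree_sound (BlkD.pairOk_sound k22_22_10_5) (by decide) hn t22_22_10_5_29 _ _ (by decide +kernel)

/-- certificates of the pair `(10, 5)`, part 30 -/
def t22_22_10_5_30 : BlkD.Tr :=
  .E 0

lemma s22_22_10_5_30 {n : ℕ} (hn : 5 ≤ n) : NoNd (d22_22_10_5.R : ℤ) d22_22_10_5.H n d22_22_10_5.a d22_22_10_5.b
    (BlkD.inB (BlkD.upd (fun _ => 0) 0 11)
      (fun _ => 22)) :=
  BlkD.tree_sound (BlkD.pairOk_sound k22_22_10_5) (by decide) hn t22_22_10_5_30 _ _ (by decide +kernel)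

lemma pr22_22_10_5 {n : ℕ} (hn : 5 ≤ n) : NoPr ((22 : ℕ) : ℤ) ((22 : ℕ) : ℤ) n 10 5 :=
  BlkD.of_root (R := d22_22_10_5.R) (H := d22_22_10_5.H) (a := d22_22_10_5.a) (b := d22_22_10_5.b) (q := 3) (by decide) hn
    (BlkD.sp 0 10 (BlkD.sp 2 5 (BlkD.sp 0 5 (BlkD.sp 0 2 (BlkD.sp 0 1 (BlkD.sp 0 0 (s22_22_10_5_1
      hn) (s22_22_10_5_2 hn)) (BlkD.sp 1 11 (BlkD.sp 1 5 (s22_22_10_5_3 hn) (s22_22_10_5_4 hn))
      (s22_22_10_5_5 hn))) (BlkD.sp 0 4 (BlkD.sp 0 3 (BlkD.sp 1 11 (BlkD.sp 1 5 (s22_22_10_5_6 hn)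
      (s22_22_10_5_7 hn)) (s22_22_10_5_8 hn)) (BlkD.sp 1 11 (BlkD.sp 1 5 (s22_22_10_5_9 hn)
      (BlkD.sp 1 8 (s22_22_10_5_10 hn) (s22_22_10_5_11 hn))) (s22_22_10_5_12 hn))) (BlkD.sp 1 11
      (BlkD.sp 1 5 (s22_22_10_5_13 hn) (BlkD.sp 1 8 (s22_22_10_5_14 hn) (BlkD.sp 1 10
      (s22_22_10_5_15 hn) (s22_22_10_5_16 hn)))) (s22_22_10_5_17 hn)))) (BlkD.sp 0 8 (BlkD.sp 0 7
      (BlkD.sp 0 6 (BlkD.sp 1 11 (BlkD.sp 1 5 (s22_22_10_5_18 hn) (BlkD.sp 1 8 (s22_22_10_5_19 hn)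
      (BlkD.sp 1 10 (s22_22_10_5_20 hn) (s22_22_10_5_21 hn)))) (s22_22_10_5_22 hn)) (BlkD.sp 1 11
      (BlkD.sp 1 5 (s22_22_10_5_23 hn) (BlkD.sp 1 8 (s22_22_10_5_24 hn) (s22_22_10_5_25 hn)))
      (s22_22_10_5_26 hn))) (s22_22_10_5_27 hn)) (s22_22_10_5_28 hn))) (s22_22_10_5_29 hn))
      (s22_22_10_5_30 hn))

end BlkC

end Pool.Agent.Lib.MP_f04ccf_co
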