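import Pool.Agent.Lib.MP_f04ccf_co.M.BlkT

/-!
MP_f04ccf_co, block certificate, data `R = 22`, `H = 22`, part 21 (generated, helper99:
bd10.cpp, gen2.py).
-/

set_option autoImplicit false
set_option maxRecDepth 100000

namespace Pool.Agent.Lib.MP_f04ccf_co

namespace BlkC

/-- the numbers of the pair `(10, 6)`, `R = 22`, `H = 22` -/
def d22_22_10_6 : BlkD.Pd :=
  ⟨22, 22, 3, 10, 6, 3, 0, 4, 0, 4, 4, 0, 0, 4, 4, 0, [0, 4, 8, 12], [0, 4, 8, 12], [⟨1, 1, 1, 4,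
    8, [0, 4], [0, 4]⟩]⟩

lemma k22_22_10_6 : BlkD.pairOk d22_22_10_6 = true := by decide +kernel

/-- certificates of the pair `(10, 6)`, part 1 -/
def t22_22_10_6_1 : BlkD.Tr :=
  .S 0 0 (.L 4 4 [4, 22, 22, 22, 22, 22, 22] [] [] 100000 0 0 1800000 100000 50000 100000 50000 0 0
    0) (.S 1 11 (.S 1 5 (.L 4 4 [4, 22, 22, 22, 22, 22, 22] [] [] 100000 0 0 1800000 100000 50000
    100000 50000 0 0 0) (.L 4 4 [4, 22, 22, 22, 22, 22, 22] [] [] 100000 0 0 1800000 100000 50000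
    100000 50000 0 0 0)) (.L 4 4 [4, 22, 22, 22, 22, 22, 22] [] [] 100000 0 0 1800000 100000 50000
    100000 50000 0 0 0))

lemma s22_22_10_6_1 {n : ℕ} (hn : 5 ≤ n) : NoNd (d22_22_10_6.R : ℤ) d22_22_10_6.H n d22_22_10_6.a d22_22_10_6.b
    (BlkD.inB (fun _ => 0)
      (BlkD.upd (BlkD.upd (BlkD.upd (BlkD.upd (BlkD.upd (fun _ => 22) 0 10) 2 6) 0 5) 0 2) 0 1)) :=
  BlkD.tree_sound (BlkD.pairOk_sound k22_22_10_6) (by decide) hn t22_22_10_6_1 _ _ (by decide +kernel)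

/-- certificates of the pair `(10, 6)`, part 2 -/
def t22_22_10_6_2 : BlkD.Tr :=
  .S 1 11 (.S 1 5 (.L 4 4 [4, 22, 22, 22, 22, 22, 22] [] [] 100000 0 0 1800000 100000 50000 100000
    50000 0 0 0) (.L 4 4 [4, 22, 22, 22, 22, 22, 22] [] [] 100000 0 0 1800000 100000 50000 100000
    50000 0 0 0)) (.L 4 4 [4, 22, 22, 22, 22, 22, 22] [] [] 100000 0 0 1800000 100000 50000 100000
    50000 0 0 0)

lemma s22_22_10_6_2 {n : ℕ} (hn : 5 ≤ n) : NoNd (d22_22_10_6.R : ℤ) d22_22_10_6.H n d22_22_10_6.a d22_22_10_6.b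
    (BlkD.inB (BlkD.upd (fun _ => 0) 0 2)
      (BlkD.upd (BlkD.upd (BlkD.upd (BlkD.upd (fun _ => 22) 0 10) 2 6) 0 5) 0 2)) :=
  BlkD.tree_sound (BlkD.pairOk_sound k22_22_10_6) (by decide) hn t22_22_10_6_2 _ _ (by decide +kernel)

/-- certificates of the pair `(10, 6)`, part 3 -/
def t22_22_10_6_3 : BlkD.Tr :=
  .S 1 5 (.L 4 4 [4, 22, 22, 22, 22, 22, 22] [] [] 100000 0 0 1800000 100000 50000 100000 50000 0 0
    0) (.L 4 4 [4, 22, 22, 22, 22, 22, 22] [] [] 100000 0 0 1800000 100000 50000 100000 50000 0 0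
    0)

lemma s22_22_10_6_3 {n : ℕ} (hn : 5 ≤ n) : NoNd (d22_22_10_6.R : ℤ) d22_22_10_6.H n d22_22_10_6.a d22_22_10_6.b
    (BlkD.inB (BlkD.upd (fun _ => 0) 0 3)
      (BlkD.upd (BlkD.upd (BlkD.upd (BlkD.upd (BlkD.upd (BlkD.upd (fun _ => 22) 0 10) 2 6) 0 5) 0 4) 0 3) 1 11)) :=
  BlkD.tree_sound (BlkD.pairOk_sound k22_22_10_6) (by decide) hn t22_22_10_6_3 _ _ (by decide +kernel)

/-- certificates of the pair `(10, 6)`, part 4 -/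
def t22_22_10_6_4 : BlkD.Tr :=
  .L 4 4 [4, 22, 22, 22, 22, 22, 22] [] [] 100000 0 0 1800000 100000 50000 100000 50000 0 0 0

lemma s22_22_10_6_4 {n : ℕ} (hn : 5 ≤ n) : NoNd (d22_22_10_6.R : ℤ) d22_22_10_6.H n d22_22_10_6.a d22_22_10_6.b
    (BlkD.inB (BlkD.upd (BlkD.upd (fun _ => 0) 0 3) 1 12)
      (BlkD.upd (BlkD.upd (BlkD.upd (BlkD.upd (BlkD.upd (fun _ => 22) 0 10) 2 6) 0 5) 0 4) 0 3)) :=
  BlkD.tree_sound (BlkD.pairOk_sound k22_22_10_6) (by decide) hn t22_22_10_6_4 _ _ (by decide +kernel)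

/-- certificates of the pair `(10, 6)`, part 5 -/
def t22_22_10_6_5 : BlkD.Tr :=
  .L 4 4 [4, 22, 22, 22, 22, 22, 22] [] [] 100000 0 0 1800000 100000 50000 100000 50000 0 0 0

lemma s22_22_10_6_5 {n : ℕ} (hn : 5 ≤ n) : NoNd (d22_22_10_6.R : ℤ) d22_22_10_6.H n d22_22_10_6.a d22_22_10_6.b
    (BlkD.inB (BlkD.upd (BlkD.upd (fun _ => 0) 0 3) 0 4)
      (BlkD.upd (BlkD.upd (BlkD.upd (BlkD.upd (BlkD.upd (BlkD.upd (fun _ => 22) 0 10) 2 6) 0 5) 0 4) 1 11) 1 5)) :=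
  BlkD.tree_sound (BlkD.pairOk_sound k22_22_10_6) (by decide) hn t22_22_10_6_5 _ _ (by decide +kernel)

/-- certificates of the pair `(10, 6)`, part 6 -/
def t22_22_10_6_6 : BlkD.Tr :=
  .S 1 7 (.L 4 4 [4, 22, 22, 22, 22, 22, 22] [] [] 100000 0 0 1800000 100000 50000 100000 50000 0 0
    0) (.L 4 4 [4, 22, 22, 22, 22, 22, 22] [200, 200, 196, 192, 188, 174] [] 100000 0 0 1800000
    100000 50000 100000 50000 0 0 0)

lemma s22_22_10_6_6 {n : ℕ} (hn : 5 ≤ n) : NoNd (d22_22_10_6.R : ℤ) d22_22_10_6.H n d22_22_10_6.a d22_22_10_6.b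
    (BlkD.inB (BlkD.upd (BlkD.upd (BlkD.upd (fun _ => 0) 0 3) 0 4) 1 6)
      (BlkD.upd (BlkD.upd (BlkD.upd (BlkD.upd (BlkD.upd (BlkD.upd (fun _ => 22) 0 10) 2 6) 0 5) 0 4) 1 11) 1 8)) :=
  BlkD.tree_sound (BlkD.pairOk_sound k22_22_10_6) (by decide) hn t22_22_10_6_6 _ _ (by decide +kernel)

/-- certificates of the pair `(10, 6)`, part 7 -/
def t22_22_10_6_7 : BlkD.Tr :=
  .S 1 9 (.L 4 4 [4, 22, 22, 22, 22, 22, 22] [224, 224, 224, 220, 216, 212] [] 100000 0 0 1800000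
    100000 50000 100000 50000 0 0 0) (.L 4 4 [4, 22, 22, 22, 22, 22, 22] [250, 250, 250, 250, 246,
    242] [] 100000 0 0 1800000 100000 50000 100000 50000 0 0 0)

lemma s22_22_10_6_7 {n : ℕ} (hn : 5 ≤ n) : NoNd (d22_22_10_6.R : ℤ) d22_22_10_6.H n d22_22_10_6.a d22_22_10_6.b
    (BlkD.inB (BlkD.upd (BlkD.upd (BlkD.upd (BlkD.upd (fun _ => 0) 0 3) 0 4) 1 6) 1 9)
      (BlkD.upd (BlkD.upd (BlkD.upd (BlkD.upd (BlkD.upd (BlkD.upd (fun _ => 22) 0 10) 2 6) 0 5) 0 4) 1 11) 1 10)) :=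
  BlkD.tree_sound (BlkD.pairOk_sound k22_22_10_6) (by decide) hn t22_22_10_6_7 _ _ (by decide +kernel)

/-- certificates of the pair `(10, 6)`, part 8 -/
def t22_22_10_6_8 : BlkD.Tr :=
  .L 4 4 [4, 22, 22, 22, 22, 22, 22] [278, 278, 278, 278, 278, 274] [] 100000 0 0 1800000 100000
    50000 100000 50000 0 0 0

lemma s22_22_10_6_8 {n : ℕ} (hn : 5 ≤ n) : NoNd (d22_22_10_6.R : ℤ) d22_22_10_6.H n d22_22_10_6.a d22_22_10_6.b
    (BlkD.inB (BlkD.upd (BlkD.upd (BlkD.upd (BlkD.upd (BlkD.upd (fun _ => 0) 0 3) 0 4) 1 6) 1 9) 1 11)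
      (BlkD.upd (BlkD.upd (BlkD.upd (BlkD.upd (BlkD.upd (fun _ => 22) 0 10) 2 6) 0 5) 0 4) 1 11)) :=
  BlkD.tree_sound (BlkD.pairOk_sound k22_22_10_6) (by decide) hn t22_22_10_6_8 _ _ (by decide +kernel)

/-- certificates of the pair `(10, 6)`, part 9 -/
def t22_22_10_6_9 : BlkD.Tr :=
  .L 4 4 [4, 22, 22, 22, 22, 22, 22] [] [] 100000 0 0 1800000 100000 50000 100000 50000 0 0 0

lemma s22_22_10_6_9 {n : ℕ} (hn : 5 ≤ n) : NoNd (d22_22_10_6.R : ℤ) d22_22_10_6.H n d22_22_10_6.a d22_22_10_6.b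
    (BlkD.inB (BlkD.upd (BlkD.upd (BlkD.upd (fun _ => 0) 0 3) 0 4) 1 12)
      (BlkD.upd (BlkD.upd (BlkD.upd (BlkD.upd (fun _ => 22) 0 10) 2 6) 0 5) 0 4)) :=
  BlkD.tree_sound (BlkD.pairOk_sound k22_22_10_6) (by decide) hn t22_22_10_6_9 _ _ (by decide +kernel)

/-- certificates of the pair `(10, 6)`, part 10 -/
def t22_22_10_6_10 : BlkD.Tr :=
  .L 4 4 [4, 22, 22, 22, 22, 22, 22] [] [] 100000 0 0 1800000 100000 50000 100000 50000 0 0 0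

lemma s22_22_10_6_10 {n : ℕ} (hn : 5 ≤ n) : NoNd (d22_22_10_6.R : ℤ) d22_22_10_6.H n d22_22_10_6.a d22_22_10_6.b
    (BlkD.inB (BlkD.upd (BlkD.upd (fun _ => 0) 0 3) 0 5)
      (BlkD.upd (BlkD.upd (BlkD.upd (BlkD.upd (BlkD.upd (fun _ => 22) 0 10) 2 6) 0 5) 1 11) 1 5)) :=
  BlkD.tree_sound (BlkD.pairOk_sound k22_22_10_6) (by decide) hn t22_22_10_6_10 _ _ (by decide +kernel)

/-- certificates of the pair `(10, 6)`, part 11 -/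
def t22_22_10_6_11 : BlkD.Tr :=
  .S 1 7 (.L 4 4 [4, 22, 22, 22, 22, 22, 22] [] [] 100000 0 0 1800000 100000 50000 100000 50000 0 0
    0) (.L 4 4 [4, 22, 22, 22, 22, 22, 22] [216, 216, 212, 208, 204, 190] [] 100000 0 0 1800000
    100000 50000 100000 50000 0 0 0)

lemma s22_22_10_6_11 {n : ℕ} (hn : 5 ≤ n) : NoNd (d22_22_10_6.R : ℤ) d22_22_10_6.H n d22_22_10_6.a d22_22_10_6.b
    (BlkD.inB (BlkD.upd (BlkD.upd (BlkD.upd (fun _ => 0) 0 3) 0 5) 1 6)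
      (BlkD.upd (BlkD.upd (BlkD.upd (BlkD.upd (BlkD.upd (fun _ => 22) 0 10) 2 6) 0 5) 1 11) 1 8)) :=
  BlkD.tree_sound (BlkD.pairOk_sound k22_22_10_6) (by decide) hn t22_22_10_6_11 _ _ (by decide +kernel)

/-- certificates of the pair `(10, 6)`, part 12 -/
def t22_22_10_6_12 : BlkD.Tr :=
  .S 2 3 (.L 4 4 [4, 22, 22, 22, 22, 22, 22] [242, 242, 242, 238, 234, 230] [] 100000 0 0 1800000
    100000 50000 100000 50000 0 0 0) (.L 4 4 [4, 22, 22, 22, 22, 22, 22] [242, 242, 242, 238, 234,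
    230] [] 100000 0 0 1800000 100000 50000 100000 50000 0 0 0)

lemma s22_22_10_6_12 {n : ℕ} (hn : 5 ≤ n) : NoNd (d22_22_10_6.R : ℤ) d22_22_10_6.H n d22_22_10_6.a d22_22_10_6.b
    (BlkD.inB (BlkD.upd (BlkD.upd (BlkD.upd (BlkD.upd (fun _ => 0) 0 3) 0 5) 1 6) 1 9)
      (BlkD.upd (BlkD.upd (BlkD.upd (BlkD.upd (BlkD.upd (BlkD.upd (fun _ => 22) 0 10) 2 6) 0 5) 1 11) 1 10) 1 9)) :=
  BlkD.tree_sound (BlkD.pairOk_sound k22_22_10_6) (by decide) hn t22_22_10_6_12 _ _ (by decide +kernel)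

/-- certificates of the pair `(10, 6)`, part 13 -/
def t22_22_10_6_13 : BlkD.Tr :=
  .S 2 3 (.S 2 1 (.L 4 4 [4, 22, 22, 22, 22, 22, 22] [270, 270, 270, 270, 266, 262] [] 100000 0 0
    1800000 100000 50000 100000 50000 0 0 0) (.L 4 4 [4, 22, 22, 22, 22, 22, 22] [270, 270, 270,
    270, 266, 262] [] 100000 0 0 1800000 100000 50000 100000 50000 0 0 0)) (.L 4 4 [4, 22, 22, 22,
    22, 22, 22] [270, 270, 270, 270, 266, 262] [] 100000 0 0 1800000 100000 50000 100000 50000 0 0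
    0)

lemma s22_22_10_6_13 {n : ℕ} (hn : 5 ≤ n) : NoNd (d22_22_10_6.R : ℤ) d22_22_10_6.H n d22_22_10_6.a d22_22_10_6.b
    (BlkD.inB (BlkD.upd (BlkD.upd (BlkD.upd (BlkD.upd (BlkD.upd (fun _ => 0) 0 3) 0 5) 1 6) 1 9) 1 10)
      (BlkD.upd (BlkD.upd (BlkD.upd (BlkD.upd (BlkD.upd (fun _ => 22) 0 10) 2 6) 0 5) 1 11) 1 10)) :=
  BlkD.tree_sound (BlkD.pairOk_sound k22_22_10_6) (by decide) hn t22_22_10_6_13 _ _ (by decide +kernel)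

/-- certificates of the pair `(10, 6)`, part 14 -/
def t22_22_10_6_14 : BlkD.Tr :=
  .S 2 3 (.S 2 1 (.L 4 4 [4, 22, 22, 22, 22, 22, 22] [300, 300, 300, 300, 300, 296] [] 100000 0 0
    1800000 100000 50000 100000 50000 0 0 0) (.L 4 4 [4, 22, 22, 22, 22, 22, 22] [300, 300, 300,
    300, 300, 296] [] 100000 0 0 1800000 100000 50000 100000 50000 0 0 0)) (.L 4 4 [4, 22, 22, 22,
    22, 22, 22] [300, 300, 300, 300, 300, 296] [] 100000 0 0 1800000 100000 50000 100000 50000 0 0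
    0)

lemma s22_22_10_6_14 {n : ℕ} (hn : 5 ≤ n) : NoNd (d22_22_10_6.R : ℤ) d22_22_10_6.H n d22_22_10_6.a d22_22_10_6.b
    (BlkD.inB (BlkD.upd (BlkD.upd (BlkD.upd (BlkD.upd (BlkD.upd (fun _ => 0) 0 3) 0 5) 1 6) 1 9) 1 11)
      (BlkD.upd (BlkD.upd (BlkD.upd (BlkD.upd (fun _ => 22) 0 10) 2 6) 0 5) 1 11)) :=
  BlkD.tree_sound (BlkD.pairOk_sound k22_22_10_6) (by decide) hn t22_22_10_6_14 _ _ (by decide +kernel)

/-- certificates of the pair `(10, 6)`, part 15 -/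
def t22_22_10_6_15 : BlkD.Tr :=
  .S 1 17 (.S 1 14 (.S 1 13 (.L 4 4 [4, 22, 22, 22, 22, 22, 22] [] [] 100000 0 0 1800000 100000
    50000 100000 50000 0 0 0) (.L 4 4 [4, 22, 22, 22, 22, 22, 22] [402, 402, 402, 402, 402, 402] []
    100000 0 0 1800000 100000 50000 100000 50000 0 0 0)) (.L 4 4 [4, 22, 22, 22, 22, 22, 22] [] []
    100000 0 0 1800000 100000 50000 100000 50000 0 0 0)) (.L 4 4 [4, 22, 22, 22, 22, 22, 22] [] []
    100000 0 0 1800000 100000 50000 100000 50000 0 0 0)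

lemma s22_22_10_6_15 {n : ℕ} (hn : 5 ≤ n) : NoNd (d22_22_10_6.R : ℤ) d22_22_10_6.H n d22_22_10_6.a d22_22_10_6.b
    (BlkD.inB (BlkD.upd (BlkD.upd (BlkD.upd (fun _ => 0) 0 3) 0 5) 1 12)
      (BlkD.upd (BlkD.upd (BlkD.upd (fun _ => 22) 0 10) 2 6) 0 5)) :=
  BlkD.tree_sound (BlkD.pairOk_sound k22_22_10_6) (by decide) hn t22_22_10_6_15 _ _ (by decide +kernel)

/-- certificates of the pair `(10, 6)`, part 16 -/
def t22_22_10_6_16 : BlkD.Tr :=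
  .L 4 4 [4, 22, 22, 22, 22, 22, 22] [] [] 100000 0 0 1800000 100000 50000 100000 50000 0 0 0

lemma s22_22_10_6_16 {n : ℕ} (hn : 5 ≤ n) : NoNd (d22_22_10_6.R : ℤ) d22_22_10_6.H n d22_22_10_6.a d22_22_10_6.b
    (BlkD.inB (BlkD.upd (fun _ => 0) 0 6)
      (BlkD.upd (BlkD.upd (BlkD.upd (BlkD.upd (BlkD.upd (BlkD.upd (BlkD.upd (fun _ => 22) 0 10) 2 6) 0 8) 0 7) 0 6) 1 11) 1 5)) :=
  BlkD.tree_sound (BlkD.pairOk_sound k22_22_10_6) (by decide) hn t22_22_10_6_16 _ _ (by decide +kernel)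

/-- certificates of the pair `(10, 6)`, part 17 -/
def t22_22_10_6_17 : BlkD.Tr :=
  .S 1 6 (.L 4 4 [4, 22, 22, 22, 22, 22, 22] [178, 174, 170, 156, 136, 118] [] 100000 0 0 1800000
    100000 50000 100000 50000 0 0 0) (.L 4 4 [4, 22, 22, 22, 22, 22, 22] [206, 202, 198, 194, 180,
    160] [] 100000 0 0 1800000 100000 50000 100000 50000 0 0 0)

lemma s22_22_10_6_17 {n : ℕ} (hn : 5 ≤ n) : NoNd (d22_22_10_6.R : ℤ) d22_22_10_6.H n d22_22_10_6.a d22_22_10_6.b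
    (BlkD.inB (BlkD.upd (BlkD.upd (fun _ => 0) 0 6) 1 6)
      (BlkD.upd (BlkD.upd (BlkD.upd (BlkD.upd (BlkD.upd (BlkD.upd (BlkD.upd (BlkD.upd (fun _ => 22) 0 10) 2 6) 0 8) 0 7) 0 6) 1 11) 1 8) 1 7)) :=
  BlkD.tree_sound (BlkD.pairOk_sound k22_22_10_6) (by decide) hn t22_22_10_6_17 _ _ (by decide +kernel)

/-- certificates of the pair `(10, 6)`, part 18 -/
def t22_22_10_6_18 : BlkD.Tr :=
  .S 2 3 (.L 4 4 [4, 22, 22, 22, 22, 22, 22] [232, 232, 228, 224, 220, 206] [] 100000 0 0 1800000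
    100000 50000 100000 50000 0 0 0) (.L 4 4 [4, 22, 22, 22, 22, 22, 22] [232, 232, 228, 224, 220,
    206] [] 100000 0 0 1800000 100000 50000 100000 50000 0 0 0)

lemma s22_22_10_6_18 {n : ℕ} (hn : 5 ≤ n) : NoNd (d22_22_10_6.R : ℤ) d22_22_10_6.H n d22_22_10_6.a d22_22_10_6.b
    (BlkD.inB (BlkD.upd (BlkD.upd (BlkD.upd (fun _ => 0) 0 6) 1 6) 1 8)
      (BlkD.upd (BlkD.upd (BlkD.upd (BlkD.upd (BlkD.upd (BlkD.upd (BlkD.upd (fun _ => 22) 0 10) 2 6) 0 8) 0 7) 0 6) 1 11) 1 8)) :=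
  BlkD.tree_sound (BlkD.pairOk_sound k22_22_10_6) (by decide) hn t22_22_10_6_18 _ _ (by decide +kernel)

/-- certificates of the pair `(10, 6)`, part 19 -/
def t22_22_10_6_19 : BlkD.Tr :=
  .S 2 3 (.S 2 1 (.L 4 4 [4, 22, 22, 22, 22, 22, 22] [260, 260, 260, 256, 252, 248] [] 100000 0 0
    1800000 100000 50000 100000 50000 0 0 0) (.L 4 4 [4, 22, 22, 22, 22, 22, 22] [260, 260, 260,
    256, 252, 248] [] 100000 0 0 1800000 100000 50000 100000 50000 0 0 0)) (.L 4 4 [4, 22, 22, 22,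
    22, 22, 22] [260, 260, 260, 256, 252, 248] [] 100000 0 0 1800000 100000 50000 100000 50000 0 0
    0)

lemma s22_22_10_6_19 {n : ℕ} (hn : 5 ≤ n) : NoNd (d22_22_10_6.R : ℤ) d22_22_10_6.H n d22_22_10_6.a d22_22_10_6.b
    (BlkD.inB (BlkD.upd (BlkD.upd (BlkD.upd (fun _ => 0) 0 6) 1 6) 1 9)
      (BlkD.upd (BlkD.upd (BlkD.upd (BlkD.upd (BlkD.upd (BlkD.upd (BlkD.upd (BlkD.upd (fun _ => 22) 0 10) 2 6) 0 8) 0 7) 0 6) 1 11) 1 10) 1 9)) :=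
  BlkD.tree_sound (BlkD.pairOk_sound k22_22_10_6) (by decide) hn t22_22_10_6_19 _ _ (by decide +kernel)

/-- certificates of the pair `(10, 6)`, part 20 -/
def t22_22_10_6_20 : BlkD.Tr :=
  .L 4 4 [4, 22, 22, 22, 22, 22, 22] [290, 290, 290, 290, 286, 282] [] 100000 0 0 1800000 100000
    50000 100000 50000 0 0 0

lemma s22_22_10_6_20 {n : ℕ} (hn : 5 ≤ n) : NoNd (d22_22_10_6.R : ℤ) d22_22_10_6.H n d22_22_10_6.a d22_22_10_6.b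
    (BlkD.inB (BlkD.upd (BlkD.upd (BlkD.upd (BlkD.upd (fun _ => 0) 0 6) 1 6) 1 9) 1 10)
      (BlkD.upd (BlkD.upd (BlkD.upd (BlkD.upd (BlkD.upd (BlkD.upd (BlkD.upd (fun _ => 22) 0 10) 2 6) 0 8) 0 7) 0 6) 1 11) 1 10)) :=
  BlkD.tree_sound (BlkD.pairOk_sound k22_22_10_6) (by decide) hn t22_22_10_6_20 _ _ (by decide +kernel)

/-- certificates of the pair `(10, 6)`, part 21 -/
def t22_22_10_6_21 : BlkD.Tr :=
  .L 4 4 [4, 22, 22, 22, 22, 22, 22] [322, 322, 322, 322, 322, 318] [] 100000 0 0 1800000 100000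
    50000 100000 50000 0 0 0

lemma s22_22_10_6_21 {n : ℕ} (hn : 5 ≤ n) : NoNd (d22_22_10_6.R : ℤ) d22_22_10_6.H n d22_22_10_6.a d22_22_10_6.b
    (BlkD.inB (BlkD.upd (BlkD.upd (BlkD.upd (BlkD.upd (fun _ => 0) 0 6) 1 6) 1 9) 1 11)
      (BlkD.upd (BlkD.upd (BlkD.upd (BlkD.upd (BlkD.upd (BlkD.upd (fun _ => 22) 0 10) 2 6) 0 8) 0 7) 0 6) 1 11)) :=
  BlkD.tree_sound (BlkD.pairOk_sound k22_22_10_6) (by decide) hn t22_22_10_6_21 _ _ (by decide +kernel)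

/-- certificates of the pair `(10, 6)`, part 22 -/
def t22_22_10_6_22 : BlkD.Tr :=
  .L 4 4 [4, 22, 22, 22, 22, 22, 22] [] [] 100000 0 0 1800000 100000 50000 100000 50000 0 0 0

lemma s22_22_10_6_22 {n : ℕ} (hn : 5 ≤ n) : NoNd (d22_22_10_6.R : ℤ) d22_22_10_6.H n d22_22_10_6.a d22_22_10_6.b
    (BlkD.inB (BlkD.upd (BlkD.upd (fun _ => 0) 0 6) 1 12)
      (BlkD.upd (BlkD.upd (BlkD.upd (BlkD.upd (BlkD.upd (fun _ => 22) 0 10) 2 6) 0 8) 0 7) 0 6)) :=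
  BlkD.tree_sound (BlkD.pairOk_sound k22_22_10_6) (by decide) hn t22_22_10_6_22 _ _ (by decide +kernel)

/-- certificates of the pair `(10, 6)`, part 23 -/
def t22_22_10_6_23 : BlkD.Tr :=
  .L 4 4 [4, 22, 22, 22, 22, 22, 22] [] [] 100000 0 0 1800000 100000 50000 100000 50000 0 0 0

lemma s22_22_10_6_23 {n : ℕ} (hn : 5 ≤ n) : NoNd (d22_22_10_6.R : ℤ) d22_22_10_6.H n d22_22_10_6.a d22_22_10_6.b
    (BlkD.inB (BlkD.upd (BlkD.upd (fun _ => 0) 0 6) 0 7)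
      (BlkD.upd (BlkD.upd (BlkD.upd (BlkD.upd (BlkD.upd (BlkD.upd (fun _ => 22) 0 10) 2 6) 0 8) 0 7) 1 11) 1 5)) :=
  BlkD.tree_sound (BlkD.pairOk_sound k22_22_10_6) (by decide) hn t22_22_10_6_23 _ _ (by decide +kernel)

/-- certificates of the pair `(10, 6)`, part 24 -/
def t22_22_10_6_24 : BlkD.Tr :=
  .S 1 6 (.L 4 4 [4, 22, 22, 22, 22, 22, 22] [190, 186, 182, 168, 148, 130] [] 100000 0 0 1800000
    100000 50000 100000 50000 0 0 0) (.L 4 4 [4, 22, 22, 22, 22, 22, 22] [220, 216, 212, 208, 194,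
    174] [] 100000 0 0 1800000 100000 50000 100000 50000 0 0 0)

lemma s22_22_10_6_24 {n : ℕ} (hn : 5 ≤ n) : NoNd (d22_22_10_6.R : ℤ) d22_22_10_6.H n d22_22_10_6.a d22_22_10_6.b
    (BlkD.inB (BlkD.upd (BlkD.upd (BlkD.upd (fun _ => 0) 0 6) 0 7) 1 6)
      (BlkD.upd (BlkD.upd (BlkD.upd (BlkD.upd (BlkD.upd (BlkD.upd (BlkD.upd (fun _ => 22) 0 10) 2 6) 0 8) 0 7) 1 11) 1 8) 1 7)) :=
  BlkD.tree_sound (BlkD.pairOk_sound k22_22_10_6) (by decide) hn t22_22_10_6_24 _ _ (by decide +kernel)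

/-- certificates of the pair `(10, 6)`, part 25 -/
def t22_22_10_6_25 : BlkD.Tr :=
  .L 4 4 [4, 22, 22, 22, 22, 22, 22] [248, 248, 244, 240, 236, 222] [] 100000 0 0 1800000 100000
    50000 100000 50000 0 0 0

lemma s22_22_10_6_25 {n : ℕ} (hn : 5 ≤ n) : NoNd (d22_22_10_6.R : ℤ) d22_22_10_6.H n d22_22_10_6.a d22_22_10_6.b
    (BlkD.inB (BlkD.upd (BlkD.upd (BlkD.upd (BlkD.upd (fun _ => 0) 0 6) 0 7) 1 6) 1 8)
      (BlkD.upd (BlkD.upd (BlkD.upd (BlkD.upd (BlkD.upd (BlkD.upd (fun _ => 22) 0 10) 2 6) 0 8) 0 7) 1 11) 1 8)) :=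
  BlkD.tree_sound (BlkD.pairOk_sound k22_22_10_6) (by decide) hn t22_22_10_6_25 _ _ (by decide +kernel)

/-- certificates of the pair `(10, 6)`, part 26 -/
def t22_22_10_6_26 : BlkD.Tr :=
  .S 1 10 (.L 4 4 [4, 22, 22, 22, 22, 22, 22] [] [] 100000 0 0 1800000 100000 50000 100000 50000 0
    0 0) (.L 4 4 [4, 22, 22, 22, 22, 22, 22] [344, 344, 344, 344, 344, 340] [] 100000 0 0 1800000
    100000 50000 100000 50000 0 0 0)

lemma s22_22_10_6_26 {n : ℕ} (hn : 5 ≤ n) : NoNd (d22_22_10_6.R : ℤ) d22_22_10_6.H n d22_22_10_6.a d22_22_10_6.b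
    (BlkD.inB (BlkD.upd (BlkD.upd (BlkD.upd (BlkD.upd (fun _ => 0) 0 6) 0 7) 1 6) 1 9)
      (BlkD.upd (BlkD.upd (BlkD.upd (BlkD.upd (BlkD.upd (fun _ => 22) 0 10) 2 6) 0 8) 0 7) 1 11)) :=
  BlkD.tree_sound (BlkD.pairOk_sound k22_22_10_6) (by decide) hn t22_22_10_6_26 _ _ (by decide +kernel)

/-- certificates of the pair `(10, 6)`, part 27 -/
def t22_22_10_6_27 : BlkD.Tr :=
  .L 4 4 [4, 22, 22, 22, 22, 22, 22] [] [] 100000 0 0 1800000 100000 50000 100000 50000 0 0 0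

lemma s22_22_10_6_27 {n : ℕ} (hn : 5 ≤ n) : NoNd (d22_22_10_6.R : ℤ) d22_22_10_6.H n d22_22_10_6.a d22_22_10_6.b
    (BlkD.inB (BlkD.upd (BlkD.upd (BlkD.upd (fun _ => 0) 0 6) 0 7) 1 12)
      (BlkD.upd (BlkD.upd (BlkD.upd (BlkD.upd (fun _ => 22) 0 10) 2 6) 0 8) 0 7)) :=
  BlkD.tree_sound (BlkD.pairOk_sound k22_22_10_6) (by decide) hn t22_22_10_6_27 _ _ (by decide +kernel)

/-- certificates of the pair `(10, 6)`, part 28 -/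
def t22_22_10_6_28 : BlkD.Tr :=
  .S 1 2 (.L 4 4 [4, 22, 22, 22, 22, 22, 22] [] [] 100000 0 0 1800000 100000 50000 100000 50000 0 0
    0) (.S 1 4 (.L 4 4 [4, 22, 22, 22, 22, 22, 22] [] [] 100000 0 0 1800000 100000 50000 100000
    50000 0 0 0) (.L 4 4 [4, 22, 22, 22, 22, 22, 22] [172, 168, 154, 134, 116, 100] [] 100000 0 0
    1800000 100000 50000 100000 50000 0 0 0))

lemma s22_22_10_6_28 {n : ℕ} (hn : 5 ≤ n) : NoNd (d22_22_10_6.R : ℤ) d22_22_10_6.H n d22_22_10_6.a d22_22_10_6.b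
    (BlkD.inB (BlkD.upd (BlkD.upd (fun _ => 0) 0 6) 0 8)
      (BlkD.upd (BlkD.upd (BlkD.upd (BlkD.upd (BlkD.upd (fun _ => 22) 0 10) 2 6) 0 8) 1 11) 1 5)) :=
  BlkD.tree_sound (BlkD.pairOk_sound k22_22_10_6) (by decide) hn t22_22_10_6_28 _ _ (by decide +kernel)

/-- certificates of the pair `(10, 6)`, part 29 -/
def t22_22_10_6_29 : BlkD.Tr :=
  .S 1 8 (.S 1 7 (.L 4 4 [4, 22, 22, 22, 22, 22, 22] [] [] 100000 0 0 1800000 100000 50000 100000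
    50000 0 0 0) (.L 4 4 [4, 22, 22, 22, 22, 22, 22] [264, 264, 260, 256, 252, 238] [] 100000 0 0
    1800000 100000 50000 100000 50000 0 0 0)) (.L 4 4 [4, 22, 22, 22, 22, 22, 22] [] [] 100000 0 0
    1800000 100000 50000 100000 50000 0 0 0)

lemma s22_22_10_6_29 {n : ℕ} (hn : 5 ≤ n) : NoNd (d22_22_10_6.R : ℤ) d22_22_10_6.H n d22_22_10_6.a d22_22_10_6.b
    (BlkD.inB (BlkD.upd (BlkD.upd (BlkD.upd (fun _ => 0) 0 6) 0 8) 1 6)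
      (BlkD.upd (BlkD.upd (BlkD.upd (BlkD.upd (fun _ => 22) 0 10) 2 6) 0 8) 1 11)) :=
  BlkD.tree_sound (BlkD.pairOk_sound k22_22_10_6) (by decide) hn t22_22_10_6_29 _ _ (by decide +kernel)

/-- certificates of the pair `(10, 6)`, part 30 -/
def t22_22_10_6_30 : BlkD.Tr :=
  .L 4 4 [4, 22, 22, 22, 22, 22, 22] [] [] 100000 0 0 1800000 100000 50000 100000 50000 0 0 0

lemma s22_22_10_6_30 {n : ℕ} (hn : 5 ≤ n) : NoNd (d22_22_10_6.R : ℤ) d22_22_10_6.H n d22_22_10_6.a d22_22_10_6.b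
    (BlkD.inB (BlkD.upd (BlkD.upd (BlkD.upd (fun _ => 0) 0 6) 0 8) 1 12)
      (BlkD.upd (BlkD.upd (BlkD.upd (fun _ => 22) 0 10) 2 6) 0 8)) :=
  BlkD.tree_sound (BlkD.pairOk_sound k22_22_10_6) (by decide) hn t22_22_10_6_30 _ _ (by decide +kernel)

/-- certificates of the pair `(10, 6)`, part 31 -/
def t22_22_10_6_31 : BlkD.Tr :=
  .S 0 9 (.S 1 11 (.S 1 5 (.L 4 4 [4, 22, 22, 22, 22, 22, 22] [] [] 100000 0 0 1800000 100000 50000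
    100000 50000 0 0 0) (.L 4 4 [4, 22, 22, 22, 22, 22, 22] [] [] 100000 0 0 1800000 100000 50000
    100000 50000 0 0 0)) (.L 4 4 [4, 22, 22, 22, 22, 22, 22] [] [] 100000 0 0 1800000 100000 50000
    100000 50000 0 0 0)) (.L 4 4 [4, 22, 22, 22, 22, 22, 22] [] [] 100000 0 0 1800000 100000 50000
    100000 50000 0 0 0)

lemma s22_22_10_6_31 {n : ℕ} (hn : 5 ≤ n) : NoNd (d22_22_10_6.R : ℤ) d22_22_10_6.H n d22_22_10_6.a d22_22_10_6.b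
    (BlkD.inB (BlkD.upd (BlkD.upd (fun _ => 0) 0 6) 0 9)
      (BlkD.upd (BlkD.upd (fun _ => 22) 0 10) 2 6)) :=
  BlkD.tree_sound (BlkD.pairOk_sound k22_22_10_6) (by decide) hn t22_22_10_6_31 _ _ (by decide +kernel)

/-- certificates of the pair `(10, 6)`, part 32 -/
def t22_22_10_6_32 : BlkD.Tr :=
  .E 1

lemma s22_22_10_6_32 {n : ℕ} (hn : 5 ≤ n) : NoNd (d22_22_10_6.R : ℤ) d22_22_10_6.H n d22_22_10_6.a d22_22_10_6.b
    (BlkD.inB (BlkD.upd (fun _ => 0) 2 7)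
      (BlkD.upd (fun _ => 22) 0 10)) :=
  BlkD.tree_sound (BlkD.pairOk_sound k22_22_10_6) (by decide) hn t22_22_10_6_32 _ _ (by decide +kernel)

/-- certificates of the pair `(10, 6)`, part 33 -/
def t22_22_10_6_33 : BlkD.Tr :=
  .E 0

lemma s22_22_10_6_33 {n : ℕ} (hn : 5 ≤ n) : NoNd (d22_22_10_6.R : ℤ) d22_22_10_6.H n d22_22_10_6.a d22_22_10_6.b
    (BlkD.inB (BlkD.upd (fun _ => 0) 0 11)
      (fun _ => 22)) :=
  BlkD.tree_sound (BlkD.pairOk_sound k22_22_10_6) (by decide) hn t22_22_10_6_33 _ _ (by decide +kernel)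

lemma pr22_22_10_6 {n : ℕ} (hn : 5 ≤ n) : NoPr ((22 : ℕ) : ℤ) ((22 : ℕ) : ℤ) n 10 6 :=
  BlkD.of_root (R := d22_22_10_6.R) (H := d22_22_10_6.H) (a := d22_22_10_6.a) (b := d22_22_10_6.b) (q := 3) (by decide) hn
    (BlkD.sp 0 10 (BlkD.sp 2 6 (BlkD.sp 0 5 (BlkD.sp 0 2 (BlkD.sp 0 1 (s22_22_10_6_1 hn)
      (s22_22_10_6_2 hn)) (BlkD.sp 0 4 (BlkD.sp 0 3 (BlkD.sp 1 11 (s22_22_10_6_3 hn) (s22_22_10_6_4
      hn)) (BlkD.sp 1 11 (BlkD.sp 1 5 (s22_22_10_6_5 hn) (BlkD.sp 1 8 (s22_22_10_6_6 hn) (BlkD.sp 1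
      10 (s22_22_10_6_7 hn) (s22_22_10_6_8 hn)))) (s22_22_10_6_9 hn))) (BlkD.sp 1 11 (BlkD.sp 1 5
      (s22_22_10_6_10 hn) (BlkD.sp 1 8 (s22_22_10_6_11 hn) (BlkD.sp 1 10 (BlkD.sp 1 9
      (s22_22_10_6_12 hn) (s22_22_10_6_13 hn)) (s22_22_10_6_14 hn)))) (s22_22_10_6_15 hn))))
      (BlkD.sp 0 8 (BlkD.sp 0 7 (BlkD.sp 0 6 (BlkD.sp 1 11 (BlkD.sp 1 5 (s22_22_10_6_16 hn)
      (BlkD.sp 1 8 (BlkD.sp 1 7 (s22_22_10_6_17 hn) (s22_22_10_6_18 hn)) (BlkD.sp 1 10 (BlkD.sp 1 9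
      (s22_22_10_6_19 hn) (s22_22_10_6_20 hn)) (s22_22_10_6_21 hn)))) (s22_22_10_6_22 hn)) (BlkD.sp
      1 11 (BlkD.sp 1 5 (s22_22_10_6_23 hn) (BlkD.sp 1 8 (BlkD.sp 1 7 (s22_22_10_6_24 hn)
      (s22_22_10_6_25 hn)) (s22_22_10_6_26 hn))) (s22_22_10_6_27 hn))) (BlkD.sp 1 11 (BlkD.sp 1 5
      (s22_22_10_6_28 hn) (s22_22_10_6_29 hn)) (s22_22_10_6_30 hn))) (s22_22_10_6_31 hn)))
      (s22_22_10_6_32 hn)) (s22_22_10_6_33 hn))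

end BlkC

end Pool.Agent.Lib.MP_f04ccf_co
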