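import Pool.Agent.Lib.MP_f04ccf_co.M.BlkT

/-!
MP_f04ccf_co, block certificate, data `R = 22`, `H = 22`, part 22 (generated, helper99:
bd10.cpp, gen2.py).
-/

set_option autoImplicit false
set_option maxRecDepth 100000

namespace Pool.Agent.Lib.MP_f04ccf_co

namespace BlkC

/-- the numbers of the pair `(11, 0)`, `R = 22`, `H = 22` -/
def d22_22_11_0 : BlkD.Pd :=
  ⟨22, 22, 3, 11, 0, 8, 0, 1, 0, 4, 4, 0, 0, 4, 4, 0, [0, 4, 8, 12, 16, 20, 24, 28, 32], [0, 4, 8,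
    12, 16, 20, 24, 28, 32], [⟨1, 1, 1, 4, 8, [0, 4], [0, 4]⟩]⟩

lemma k22_22_11_0 : BlkD.pairOk d22_22_11_0 = true := by decide +kernel

/-- certificates of the pair `(11, 0)`, part 1 -/
def t22_22_11_0_1 : BlkD.Tr :=
  .S 0 5 (.S 0 2 (.L 4 4 [4] [] [] 100000 0 0 1254549 72727 0 72727 0 0 0 0) (.L 4 4 [4] [] []
    100000 0 0 1254549 72727 0 72727 0 0 0 0)) (.L 4 4 [4] [] [] 100000 0 0 1254549 72727 0 72727 0
    0 0 0)

lemma s22_22_11_0_1 {n : ℕ} (hn : 5 ≤ n) : NoNd (d22_22_11_0.R : ℤ) d22_22_11_0.H n d22_22_11_0.a d22_22_11_0.b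
    (BlkD.inB (fun _ => 0)
      (BlkD.upd (BlkD.upd (fun _ => 22) 0 11) 2 0)) :=
  BlkD.tree_sound (BlkD.pairOk_sound k22_22_11_0) (by decide) hn t22_22_11_0_1 _ _ (by decide +kernel)

/-- certificates of the pair `(11, 0)`, part 2 -/
def t22_22_11_0_2 : BlkD.Tr :=
  .E 1

lemma s22_22_11_0_2 {n : ℕ} (hn : 5 ≤ n) : NoNd (d22_22_11_0.R : ℤ) d22_22_11_0.H n d22_22_11_0.a d22_22_11_0.b
    (BlkD.inB (BlkD.upd (fun _ => 0) 2 1)
      (BlkD.upd (fun _ => 22) 0 11)) :=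
  BlkD.tree_sound (BlkD.pairOk_sound k22_22_11_0) (by decide) hn t22_22_11_0_2 _ _ (by decide +kernel)

/-- certificates of the pair `(11, 0)`, part 3 -/
def t22_22_11_0_3 : BlkD.Tr :=
  .E 0

lemma s22_22_11_0_3 {n : ℕ} (hn : 5 ≤ n) : NoNd (d22_22_11_0.R : ℤ) d22_22_11_0.H n d22_22_11_0.a d22_22_11_0.b
    (BlkD.inB (BlkD.upd (fun _ => 0) 0 12)
      (fun _ => 22)) :=
  BlkD.tree_sound (BlkD.pairOk_sound k22_22_11_0) (by decide) hn t22_22_11_0_3 _ _ (by decide +kernel)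

lemma pr22_22_11_0 {n : ℕ} (hn : 5 ≤ n) : NoPr ((22 : ℕ) : ℤ) ((22 : ℕ) : ℤ) n 11 0 :=
  BlkD.of_root (R := d22_22_11_0.R) (H := d22_22_11_0.H) (a := d22_22_11_0.a) (b := d22_22_11_0.b) (q := 3) (by decide) hn
    (BlkD.sp 0 11 (BlkD.sp 2 0 (s22_22_11_0_1 hn) (s22_22_11_0_2 hn)) (s22_22_11_0_3 hn))

/-- the numbers of the pair `(11, 1)`, `R = 22`, `H = 22` -/
def d22_22_11_1 : BlkD.Pd :=
  ⟨22, 22, 3, 11, 1, 7, 1, 1, 0, 4, 8, 0, 0, 4, 4, 0, [0, 8, 16, 24, 28, 28, 28, 28], [0, 4, 8, 12,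
    16, 20, 24, 28], [⟨1, 1, 1, 4, 8, [0, 4], [0, 4]⟩, ⟨1, 1, 1, 4, 12, [0, 8], [0, 4]⟩]⟩

lemma k22_22_11_1 : BlkD.pairOk d22_22_11_1 = true := by decide +kernel

/-- certificates of the pair `(11, 1)`, part 1 -/
def t22_22_11_1_1 : BlkD.Tr :=
  .L 4 6 [4, 4] [] [] 100000 1 1 1366667 66667 0 83333 0 0 0 0

lemma s22_22_11_1_1 {n : ℕ} (hn : 5 ≤ n) : NoNd (d22_22_11_1.R : ℤ) d22_22_11_1.H n d22_22_11_1.a d22_22_11_1.b
    (BlkD.inB (fun _ => 0)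
      (BlkD.upd (BlkD.upd (BlkD.upd (BlkD.upd (fun _ => 22) 0 11) 2 1) 0 5) 0 2)) :=
  BlkD.tree_sound (BlkD.pairOk_sound k22_22_11_1) (by decide) hn t22_22_11_1_1 _ _ (by decide +kernel)

/-- certificates of the pair `(11, 1)`, part 2 -/
def t22_22_11_1_2 : BlkD.Tr :=
  .S 0 4 (.L 4 6 [4, 4] [] [] 100000 1 1 1366667 66667 0 83333 0 0 0 0) (.L 4 6 [4, 4] [] [] 100000
    1 1 1366667 66667 0 83333 0 0 0 0)

lemma s22_22_11_1_2 {n : ℕ} (hn : 5 ≤ n) : NoNd (d22_22_11_1.R : ℤ) d22_22_11_1.H n d22_22_11_1.a d22_22_11_1.b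
    (BlkD.inB (BlkD.upd (fun _ => 0) 0 3)
      (BlkD.upd (BlkD.upd (BlkD.upd (fun _ => 22) 0 11) 2 1) 0 5)) :=
  BlkD.tree_sound (BlkD.pairOk_sound k22_22_11_1) (by decide) hn t22_22_11_1_2 _ _ (by decide +kernel)

/-- certificates of the pair `(11, 1)`, part 3 -/
def t22_22_11_1_3 : BlkD.Tr :=
  .S 0 8 (.L 4 6 [4, 4] [] [] 100000 1 1 1366667 66667 0 83333 0 0 0 0) (.L 4 6 [4, 4] [] [] 100000
    1 1 1366667 66667 0 83333 0 0 0 0)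

lemma s22_22_11_1_3 {n : ℕ} (hn : 5 ≤ n) : NoNd (d22_22_11_1.R : ℤ) d22_22_11_1.H n d22_22_11_1.a d22_22_11_1.b
    (BlkD.inB (BlkD.upd (fun _ => 0) 0 6)
      (BlkD.upd (BlkD.upd (fun _ => 22) 0 11) 2 1)) :=
  BlkD.tree_sound (BlkD.pairOk_sound k22_22_11_1) (by decide) hn t22_22_11_1_3 _ _ (by decide +kernel)

/-- certificates of the pair `(11, 1)`, part 4 -/
def t22_22_11_1_4 : BlkD.Tr :=
  .E 1

lemma s22_22_11_1_4 {n : ℕ} (hn : 5 ≤ n) : NoNd (d22_22_11_1.R : ℤ) d22_22_11_1.H n d22_22_11_1.a d22_22_11_1.b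
    (BlkD.inB (BlkD.upd (fun _ => 0) 2 2)
      (BlkD.upd (fun _ => 22) 0 11)) :=
  BlkD.tree_sound (BlkD.pairOk_sound k22_22_11_1) (by decide) hn t22_22_11_1_4 _ _ (by decide +kernel)

/-- certificates of the pair `(11, 1)`, part 5 -/
def t22_22_11_1_5 : BlkD.Tr :=
  .E 0

lemma s22_22_11_1_5 {n : ℕ} (hn : 5 ≤ n) : NoNd (d22_22_11_1.R : ℤ) d22_22_11_1.H n d22_22_11_1.a d22_22_11_1.b
    (BlkD.inB (BlkD.upd (fun _ => 0) 0 12)
      (fun _ => 22)) :=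
  BlkD.tree_sound (BlkD.pairOk_sound k22_22_11_1) (by decide) hn t22_22_11_1_5 _ _ (by decide +kernel)

lemma pr22_22_11_1 {n : ℕ} (hn : 5 ≤ n) : NoPr ((22 : ℕ) : ℤ) ((22 : ℕ) : ℤ) n 11 1 :=
  BlkD.of_root (R := d22_22_11_1.R) (H := d22_22_11_1.H) (a := d22_22_11_1.a) (b := d22_22_11_1.b) (q := 3) (by decide) hn
    (BlkD.sp 0 11 (BlkD.sp 2 1 (BlkD.sp 0 5 (BlkD.sp 0 2 (s22_22_11_1_1 hn) (s22_22_11_1_2 hn))
      (s22_22_11_1_3 hn)) (s22_22_11_1_4 hn)) (s22_22_11_1_5 hn))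

/-- the numbers of the pair `(11, 2)`, `R = 22`, `H = 22` -/
def d22_22_11_2 : BlkD.Pd :=
  ⟨22, 22, 3, 11, 2, 6, 2, 2, 0, 6, 10, 0, 3, 1, 6, 0, [0, 10, 20, 30, 36, 36, 36], [0, 6, 12, 15,
    18, 21, 24], [⟨1, 1, 1, 4, 8, [0, 4], [0, 4]⟩, ⟨1, 1, 1, 4, 12, [0, 8], [0, 4]⟩, ⟨2, 1, 1, 4,
    24, [0, 10, 18], [0, 6]⟩]⟩

lemma k22_22_11_2 : BlkD.pairOk d22_22_11_2 = true := by decide +kernel

/-- certificates of the pair `(11, 2)`, part 1 -/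
def t22_22_11_2_1 : BlkD.Tr :=
  .S 0 0 (.L 5 8 [4, 4, 4] [] [] 100000 50000 50000 600000 100000 0 100000 0 0 0 0) (.S 1 11 (.S 1
    5 (.L 5 8 [4, 4, 4] [] [] 100000 50000 50000 600000 100000 0 100000 0 0 0 0) (.L 5 8 [4, 4, 4]
    [] [] 100000 50000 50000 600000 100000 0 100000 0 0 0 0)) (.L 5 8 [4, 4, 4] [] [] 100000 50000
    50000 600000 100000 0 100000 0 0 0 0))

lemma s22_22_11_2_1 {n : ℕ} (hn : 5 ≤ n) : NoNd (d22_22_11_2.R : ℤ) d22_22_11_2.H n d22_22_11_2.a d22_22_11_2.b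
    (BlkD.inB (fun _ => 0)
      (BlkD.upd (BlkD.upd (BlkD.upd (BlkD.upd (BlkD.upd (fun _ => 22) 0 11) 2 2) 0 5) 0 2) 0 1)) :=
  BlkD.tree_sound (BlkD.pairOk_sound k22_22_11_2) (by decide) hn t22_22_11_2_1 _ _ (by decide +kernel)

/-- certificates of the pair `(11, 2)`, part 2 -/
def t22_22_11_2_2 : BlkD.Tr :=
  .S 1 11 (.S 1 5 (.L 5 8 [4, 4, 4] [] [] 100000 50000 50000 600000 100000 0 100000 0 0 0 0) (.L 5
    8 [4, 4, 4] [] [] 100000 50000 50000 600000 100000 0 100000 0 0 0 0)) (.L 5 8 [4, 4, 4] [] []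
    100000 50000 50000 600000 100000 0 100000 0 0 0 0)

lemma s22_22_11_2_2 {n : ℕ} (hn : 5 ≤ n) : NoNd (d22_22_11_2.R : ℤ) d22_22_11_2.H n d22_22_11_2.a d22_22_11_2.b
    (BlkD.inB (BlkD.upd (fun _ => 0) 0 2)
      (BlkD.upd (BlkD.upd (BlkD.upd (BlkD.upd (fun _ => 22) 0 11) 2 2) 0 5) 0 2)) :=
  BlkD.tree_sound (BlkD.pairOk_sound k22_22_11_2) (by decide) hn t22_22_11_2_2 _ _ (by decide +kernel)

/-- certificates of the pair `(11, 2)`, part 3 -/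
def t22_22_11_2_3 : BlkD.Tr :=
  .S 1 11 (.S 1 5 (.L 5 8 [4, 4, 4] [] [] 100000 150000 150000 1000000 100000 0 100000 0 0 0 0) (.L
    5 8 [4, 4, 4] [] [] 100000 150000 150000 1000000 100000 0 100000 0 0 0 0)) (.L 5 8 [4, 4, 4] []
    [] 100000 150000 150000 1000000 100000 0 100000 0 0 0 0)

lemma s22_22_11_2_3 {n : ℕ} (hn : 5 ≤ n) : NoNd (d22_22_11_2.R : ℤ) d22_22_11_2.H n d22_22_11_2.a d22_22_11_2.b
    (BlkD.inB (BlkD.upd (fun _ => 0) 0 3)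
      (BlkD.upd (BlkD.upd (BlkD.upd (BlkD.upd (BlkD.upd (fun _ => 22) 0 11) 2 2) 0 5) 0 4) 0 3)) :=
  BlkD.tree_sound (BlkD.pairOk_sound k22_22_11_2) (by decide) hn t22_22_11_2_3 _ _ (by decide +kernel)

/-- certificates of the pair `(11, 2)`, part 4 -/
def t22_22_11_2_4 : BlkD.Tr :=
  .S 1 11 (.L 5 8 [4, 4, 4] [] [] 100000 150000 150000 1000000 100000 0 100000 0 0 0 0) (.L 5 8 [4,
    4, 4] [] [] 100000 150000 150000 1000000 100000 0 100000 0 0 0 0)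

lemma s22_22_11_2_4 {n : ℕ} (hn : 5 ≤ n) : NoNd (d22_22_11_2.R : ℤ) d22_22_11_2.H n d22_22_11_2.a d22_22_11_2.b
    (BlkD.inB (BlkD.upd (BlkD.upd (fun _ => 0) 0 3) 0 4)
      (BlkD.upd (BlkD.upd (BlkD.upd (BlkD.upd (fun _ => 22) 0 11) 2 2) 0 5) 0 4)) :=
  BlkD.tree_sound (BlkD.pairOk_sound k22_22_11_2) (by decide) hn t22_22_11_2_4 _ _ (by decide +kernel)

/-- certificates of the pair `(11, 2)`, part 5 -/
def t22_22_11_2_5 : BlkD.Tr :=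
  .S 1 17 (.S 1 8 (.L 5 8 [4, 4, 4] [] [] 100000 20000 20000 1380000 40000 0 40000 0 0 0 0) (.S 1
    13 (.S 1 11 (.L 5 8 [4, 4, 4] [] [] 100000 0 0 1566670 33333 0 33333 0 0 33333 33333) (.S 1 12
    (.L 5 8 [4, 4, 4] [306, 306, 306, 306, 306, 306] [] 100000 18183 18183 1500000 45455 0 54545 0
    0 9091 9091) (.L 5 8 [4, 4, 4] [340, 340, 340, 340, 340, 340] [] 100000 150000 150000 1100000
    100000 0 100000 0 0 0 0))) (.S 1 15 (.S 1 14 (.L 5 8 [4, 4, 4] [376, 376, 376, 376, 376, 376]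
    [] 100000 150000 150000 1100000 100000 0 100000 0 0 0 0) (.L 5 8 [4, 4, 4] [414, 414, 414, 414,
    414, 414] [] 100000 150000 150000 1100000 100000 0 100000 0 0 0 0)) (.S 1 16 (.L 5 8 [4, 4, 4]
    [454, 454, 454, 454, 454, 454] [] 100000 297728 161364 0 186364 0 236364 0 0 0 0) (.L 5 8 [4,
    4, 4] [496, 496, 496, 496, 496, 496] [] 100000 266666 183333 4 183333 0 183333 0 0 0 0))))) (.E
    0)

lemma s22_22_11_2_5 {n : ℕ} (hn : 5 ≤ n) : NoNd (d22_22_11_2.R : ℤ) d22_22_11_2.H n d22_22_11_2.a d22_22_11_2.b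
    (BlkD.inB (BlkD.upd (BlkD.upd (fun _ => 0) 0 3) 0 5)
      (BlkD.upd (BlkD.upd (BlkD.upd (fun _ => 22) 0 11) 2 2) 0 5)) :=
  BlkD.tree_sound (BlkD.pairOk_sound k22_22_11_2) (by decide) hn t22_22_11_2_5 _ _ (by decide +kernel)

/-- certificates of the pair `(11, 2)`, part 6 -/
def t22_22_11_2_6 : BlkD.Tr :=
  .S 1 16 (.S 1 8 (.L 5 8 [4, 4, 4] [] [] 100000 0 0 1500003 28571 0 28571 0 0 28571 28571) (.S 1
    12 (.S 1 10 (.S 1 9 (.L 5 8 [4, 4, 4] [234, 234, 234, 234, 228, 220] [] 100000 15625 15625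
    1500000 37500 0 43750 0 0 6250 6250) (.L 5 8 [4, 4, 4] [264, 264, 264, 264, 264, 258] [] 100000
    22221 22221 1500004 44444 0 55556 22222 0 22222 22222)) (.S 1 11 (.S 2 1 (.S 2 0 (.L 5 8 [4, 4,
    4] [296, 296, 296, 296, 296, 296] [] 100000 41666 41665 1466668 50000 0 83333 33333 0 16667
    16667) (.S 3 4 (.S 3 2 (.S 3 1 (.L 5 8 [4, 4, 4] [296, 296, 296, 296, 296, 296] [] 100000 10000
    10000 1540000 40000 0 60000 0 0 20000 20000) (.L 5 8 [4, 4, 4] [296, 296, 296, 296, 296, 296]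
    [24, 16, 6, 0, 0, 0] 100000 183333 183332 1000000 100000 0 100000 0 0 33333 33333)) (.E 1)) (.E
    1))) (.L 5 8 [4, 4, 4] [296, 296, 296, 296, 296, 296] [] 100000 408333 318332 0 190000 0 190000
    0 0 33333 33333)) (.S 2 1 (.S 2 0 (.L 5 8 [4, 4, 4] [330, 330, 330, 330, 330, 330] [] 100000
    83334 83334 1333332 66667 0 100000 33333 0 0 0) (.S 3 3 (.S 3 1 (.S 3 0 (.S 4 12 (.S 4 6 (.L 5
    8 [4, 4, 4] [330, 324, 316, 306, 296, 286] [0, 0, 0, 0, 0, 0] 100000 66667 66666 1366665 66667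
    0 100000 0 0 0 0) (.L 5 8 [4, 4, 4] [330, 330, 330, 330, 330, 330] [0, 0, 0, 0, 0, 0] 100000
    204000 0 0 76000 0 304000 0 0 0 0)) (.E 2)) (.L 5 8 [4, 4, 4] [330, 330, 330, 330, 330, 330]
    [12, 2, 0, 0, 0, 0] 100000 400000 300000 0 200000 0 200000 0 0 0 0)) (.L 5 8 [4, 4, 4] [330,
    330, 330, 330, 330, 330] [] 100000 377272 286362 1 190909 0 190909 0 0 0 0)) (.E 1))) (.L 5 8
    [4, 4, 4] [330, 330, 330, 330, 330, 330] [] 100000 354545 272727 2 181818 0 181818 0 0 0 0))))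
    (.S 1 14 (.S 1 13 (.S 2 1 (.S 2 0 (.S 3 3 (.S 3 1 (.L 5 8 [4, 4, 4] [366, 366, 366, 366, 366,
    366] [] 100000 50000 50000 1440000 60000 0 80000 20000 0 0 0) (.L 5 8 [4, 4, 4] [366, 366, 366,
    366, 366, 366] [] 100000 150000 150000 1100000 100000 0 100000 0 0 0 0)) (.E 1)) (.L 4 7 [4, 4,
    5] [366, 366, 366, 366, 366, 366] [] 100000 150000 150000 1100000 100000 0 100000 0 0 100000
    0)) (.L 4 7 [4, 4, 5] [366, 366, 366, 366, 366, 366] [] 100000 337500 262500 0 175000 0 175000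
    0 0 100000 0)) (.L 4 7 [4, 4, 5] [404, 404, 404, 404, 404, 404] [] 100000 150000 150000 1100000
    100000 0 100000 0 0 0 0)) (.S 1 15 (.L 4 7 [4, 4, 5] [444, 444, 444, 444, 444, 444] [] 100000
    319230 149999 3 184615 0 269231 0 0 0 0) (.L 4 7 [4, 4, 5] [486, 486, 486, 486, 486, 486] []
    100000 300000 200000 0 200000 0 200000 0 0 0 0))))) (.E 0)

lemma s22_22_11_2_6 {n : ℕ} (hn : 5 ≤ n) : NoNd (d22_22_11_2.R : ℤ) d22_22_11_2.H n d22_22_11_2.a d22_22_11_2.b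
    (BlkD.inB (BlkD.upd (fun _ => 0) 0 6)
      (BlkD.upd (BlkD.upd (BlkD.upd (BlkD.upd (BlkD.upd (fun _ => 22) 0 11) 2 2) 0 8) 0 7) 0 6)) :=
  BlkD.tree_sound (BlkD.pairOk_sound k22_22_11_2) (by decide) hn t22_22_11_2_6 _ _ (by decide +kernel)

/-- certificates of the pair `(11, 2)`, part 7 -/
def t22_22_11_2_7 : BlkD.Tr :=
  .S 1 15 (.S 1 7 (.L 5 8 [4, 4, 4] [] [] 100000 16666 16665 1500002 33333 0 33333 0 0 0 0) (.S 1
    11 (.S 1 9 (.S 1 8 (.L 5 8 [4, 4, 4] [222, 222, 222, 216, 208, 198] [] 100000 20000 20000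
    1520000 40000 0 45000 0 0 0 0) (.S 2 1 (.S 2 0 (.L 5 8 [4, 4, 4] [252, 252, 252, 252, 246, 238]
    [] 100000 10000 10000 1560000 40000 0 46667 20000 0 20000 20000) (.S 3 5 (.S 3 2 (.S 3 1 (.L 5
    8 [4, 4, 4] [252, 252, 252, 252, 246, 238] [] 100000 10000 10000 1520000 40000 0 60000 0 0
    20000 20000) (.S 4 9 (.S 4 4 (.L 5 8 [4, 4, 4] [238, 228, 218, 208, 198, 0] [24, 16, 6, 0, 0,
    0] 100000 150000 150000 1100000 100000 0 100000 0 0 0 0) (.L 5 8 [4, 4, 4] [252, 252, 252, 252,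
    246, 238] [24, 16, 6, 0, 0, 0] 100000 230436 1 0 82609 0 330435 0 0 0 0)) (.E 2))) (.E 1)) (.E
    1))) (.L 5 8 [4, 4, 4] [252, 252, 252, 252, 246, 238] [] 100000 10000 10000 1540000 40000 0
    40000 0 0 20000 20000))) (.S 1 10 (.S 2 1 (.S 2 0 (.S 3 5 (.S 3 2 (.S 3 1 (.L 5 8 [4, 4, 4]
    [284, 284, 284, 284, 284, 278] [] 100000 22222 22222 1511114 44444 0 66667 22222 0 0 0) (.S 4
    10 (.S 4 5 (.L 5 8 [4, 4, 4] [278, 270, 260, 250, 240, 230] [20, 12, 2, 0, 0, 0] 100000 11539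
    11539 1530768 46154 0 69231 23077 0 23077 23077) (.L 5 8 [4, 4, 4] [284, 284, 284, 284, 284,
    278] [20, 12, 2, 0, 0, 0] 100000 230436 1 0 82609 0 330435 0 0 0 0)) (.E 2))) (.L 5 8 [4, 4, 4]
    [284, 284, 284, 284, 284, 278] [] 100000 150000 150000 1100000 100000 0 100000 0 0 0 0)) (.E
    1)) (.S 3 4 (.S 3 2 (.S 3 1 (.S 3 0 (.L 5 8 [4, 4, 4] [284, 284, 284, 284, 284, 278] [0, 0, 0,
    0, 0, 0] 100000 10000 10000 1560000 40000 0 60000 0 0 20000 20000) (.L 5 8 [4, 4, 4] [284, 284,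
    284, 284, 284, 278] [12, 2, 0, 0, 0, 0] 100000 150000 150000 1100000 100000 0 100000 0 0 0 0))
    (.L 5 8 [4, 4, 4] [284, 284, 284, 284, 284, 278] [24, 16, 6, 0, 0, 0] 100000 150000 150000
    1100000 100000 0 100000 0 0 0 0)) (.E 1)) (.E 1))) (.L 5 8 [4, 4, 4] [284, 284, 284, 284, 284,
    278] [] 100000 233332 199998 700003 133333 0 133333 0 0 0 0)) (.S 2 1 (.S 2 0 (.S 3 4 (.S 3 2
    (.S 3 1 (.L 5 8 [4, 4, 4] [318, 318, 318, 318, 318, 318] [] 100000 25000 25000 1516667 50000 0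
    66667 33333 0 0 0) (.L 5 8 [4, 4, 4] [318, 318, 318, 318, 318, 318] [20, 12, 2, 0, 0, 0] 100000
    0 0 1592858 42857 0 64286 21429 0 14286 14286)) (.L 5 8 [4, 4, 4] [318, 318, 318, 318, 318,
    318] [] 100000 150000 150000 1100000 100000 0 100000 0 0 0 0)) (.E 1)) (.S 3 3 (.S 3 1 (.L 5 8
    [4, 4, 4] [318, 318, 318, 318, 318, 318] [] 100000 26923 26923 1515386 53846 0 69231 0 0 15385
    15385) (.L 5 8 [4, 4, 4] [318, 318, 318, 318, 318, 318] [] 100000 150000 150000 1100000 100000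
    0 100000 0 0 0 0)) (.E 1))) (.L 5 8 [4, 4, 4] [318, 318, 318, 318, 318, 318] [] 100000 400000
    300000 0 200000 0 200000 0 0 0 0)))) (.S 1 13 (.S 1 12 (.S 2 1 (.S 2 0 (.L 5 8 [4, 4, 4] [354,
    354, 354, 354, 354, 354] [] 100000 66667 66666 1366665 66667 0 100000 66667 0 0 0) (.L 5 8 [4,
    4, 4] [354, 354, 354, 354, 354, 354] [] 100000 72223 61112 1311110 77778 0 111111 0 0 33333
    33333)) (.L 5 8 [4, 4, 4] [354, 354, 354, 354, 354, 354] [] 100000 329545 238635 1 190909 0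
    190909 0 0 4545 4545)) (.L 5 8 [4, 4, 4] [392, 392, 392, 392, 392, 392] [] 100000 43750 43750
    1462500 62500 0 100000 25000 0 25000 0)) (.S 1 14 (.L 5 8 [4, 4, 4] [432, 432, 432, 432, 432,
    432] [] 100000 366666 233333 3 233333 0 233333 0 0 0 0) (.L 5 8 [4, 4, 4] [474, 474, 474, 474,
    474, 474] [] 100000 300000 200000 0 200000 0 200000 0 0 0 0))))) (.E 0)

lemma s22_22_11_2_7 {n : ℕ} (hn : 5 ≤ n) : NoNd (d22_22_11_2.R : ℤ) d22_22_11_2.H n d22_22_11_2.a d22_22_11_2.b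
    (BlkD.inB (BlkD.upd (BlkD.upd (fun _ => 0) 0 6) 0 7)
      (BlkD.upd (BlkD.upd (BlkD.upd (BlkD.upd (fun _ => 22) 0 11) 2 2) 0 8) 0 7)) :=
  BlkD.tree_sound (BlkD.pairOk_sound k22_22_11_2) (by decide) hn t22_22_11_2_7 _ _ (by decide +kernel)

/-- certificates of the pair `(11, 2)`, part 8 -/
def t22_22_11_2_8 : BlkD.Tr :=
  .S 1 14 (.S 1 7 (.S 1 3 (.L 5 8 [4, 4, 4] [] [] 100000 0 0 1400000 0 0 0 0 0 0 0) (.S 1 5 (.L 5 8
    [4, 4, 4] [] [] 100000 25000 25000 1400000 50000 0 50000 0 0 0 0) (.S 1 6 (.L 5 8 [4, 4, 4]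
    [180, 174, 166, 156, 146, 136] [] 100000 0 0 1557145 28571 0 28571 0 0 28571 28571) (.L 5 8 [4,
    4, 4] [208, 208, 202, 194, 184, 174] [] 100000 10000 10000 1560000 40000 0 40000 0 0 20000
    20000)))) (.S 1 11 (.S 1 9 (.S 1 8 (.S 2 1 (.S 2 0 (.S 3 6 (.S 3 3 (.S 3 1 (.L 5 8 [4, 4, 4]
    [238, 238, 238, 232, 224, 214] [] 100000 20000 20000 1500000 40000 0 80000 40000 0 0 0) (.S 3 2
    (.L 5 8 [4, 4, 4] [238, 238, 238, 232, 224, 214] [20, 12, 2, 0, 0, 0] 100000 10000 10000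
    1560000 40000 0 60000 20000 0 20000 20000) (.S 4 8 (.S 4 4 (.L 5 8 [4, 4, 4] [224, 214, 204,
    194, 184, 0] [30, 24, 16, 6, 0, 0] 100000 25000 25000 1500000 50000 0 50000 50000 0 0 0) (.L 5
    8 [4, 4, 4] [238, 238, 238, 232, 224, 214] [30, 24, 16, 6, 0, 0] 100000 250000 0 0 75000 0
    350000 0 0 0 0)) (.E 2)))) (.E 1)) (.E 1)) (.S 3 5 (.S 3 2 (.S 3 1 (.L 5 8 [4, 4, 4] [238, 238,
    238, 232, 224, 214] [] 100000 14285 14284 1542858 42857 0 57143 0 0 14286 14286) (.S 4 8 (.S 4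
    4 (.L 4 7 [4, 4, 5] [224, 214, 204, 194, 184, 0] [24, 16, 6, 0, 0, 0] 100000 150000 150000
    1100000 100000 0 100000 0 0 0 0) (.L 4 7 [4, 4, 5] [238, 238, 238, 232, 224, 214] [24, 16, 6,
    0, 0, 0] 100000 230436 1 0 82609 0 330435 0 0 0 0)) (.E 2))) (.E 1)) (.E 1))) (.L 5 8 [4, 4, 4]
    [238, 238, 238, 232, 224, 214] [] 100000 150000 150000 1100000 100000 0 100000 0 0 0 0)) (.S 2
    1 (.S 2 0 (.S 3 5 (.S 3 2 (.L 5 8 [4, 4, 4] [270, 270, 270, 270, 264, 256] [] 100000 13334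
    13334 1549999 46667 0 70000 23333 0 20000 20000) (.S 3 4 (.S 3 3 (.S 4 9 (.S 4 4 (.L 5 8 [4, 4,
    4] [256, 246, 236, 226, 216, 0] [30, 24, 16, 6, 0, 0] 100000 150000 150000 1100000 100000 0
    100000 100000 0 0 0) (.L 5 8 [4, 4, 4] [270, 270, 270, 270, 264, 256] [30, 24, 16, 6, 0, 0]
    100000 247827 1 0 86957 0 347826 0 0 0 0)) (.E 2)) (.E 1)) (.E 1))) (.E 1)) (.S 3 4 (.S 3 2 (.S
    3 1 (.L 5 8 [4, 4, 4] [270, 270, 270, 270, 264, 256] [] 100000 16667 16667 1533333 50000 0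
    66667 0 0 16667 16667) (.L 4 7 [4, 4, 5] [270, 270, 270, 270, 264, 256] [24, 16, 6, 0, 0, 0]
    100000 150000 150000 1100000 100000 0 100000 0 0 0 0)) (.E 1)) (.E 1))) (.L 4 7 [4, 4, 5] [270,
    270, 270, 270, 264, 256] [] 100000 150000 150000 1100000 100000 0 100000 0 0 0 0))) (.S 1 10
    (.S 2 1 (.S 2 0 (.L 5 8 [4, 4, 4] [304, 304, 304, 304, 304, 298] [] 100000 25000 25000 1500000
    50000 0 100000 50000 0 0 0) (.L 5 8 [4, 4, 4] [304, 304, 304, 304, 304, 298] [] 100000 50001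
    50001 1433332 66667 0 100000 0 0 33333 33333)) (.L 5 8 [4, 4, 4] [304, 304, 304, 304, 304, 298]
    [] 100000 377777 255554 2 222222 0 222222 0 0 33333 33333)) (.L 5 8 [4, 4, 4] [340, 340, 340,
    340, 340, 340] [] 100000 50000 49999 1433332 66667 0 100000 0 0 0 0))) (.S 1 13 (.S 1 12 (.L 5
    8 [4, 4, 4] [378, 378, 378, 378, 378, 378] [] 100000 33334 33334 1466665 66667 0 100000 0 0 0
    0) (.L 5 8 [4, 4, 4] [418, 418, 418, 418, 418, 418] [] 100000 230000 0 0 220000 0 275000 0 0 0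
    0)) (.L 5 8 [4, 4, 4] [460, 460, 460, 460, 460, 460] [] 100000 206977 1 1 204651 0 255814 0 0 0
    0)))) (.E 0)

lemma s22_22_11_2_8 {n : ℕ} (hn : 5 ≤ n) : NoNd (d22_22_11_2.R : ℤ) d22_22_11_2.H n d22_22_11_2.a d22_22_11_2.b
    (BlkD.inB (BlkD.upd (BlkD.upd (fun _ => 0) 0 6) 0 8)
      (BlkD.upd (BlkD.upd (BlkD.upd (fun _ => 22) 0 11) 2 2) 0 8)) :=
  BlkD.tree_sound (BlkD.pairOk_sound k22_22_11_2) (by decide) hn t22_22_11_2_8 _ _ (by decide +kernel)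

/-- certificates of the pair `(11, 2)`, part 9 -/
def t22_22_11_2_9 : BlkD.Tr :=
  .S 0 10 (.S 0 9 (.S 1 13 (.S 1 6 (.S 1 3 (.L 5 8 [4, 4, 4] [] [] 100000 0 0 1500000 0 0 0 0 0 0
    0) (.S 1 5 (.L 5 8 [4, 4, 4] [] [] 100000 0 0 1566668 33333 0 33333 0 0 33333 33333) (.S 2 1
    (.S 2 0 (.S 3 7 (.S 3 3 (.S 3 1 (.L 5 8 [4, 4, 4] [192, 186, 178, 168, 158, 148] [] 100000
    12500 12500 1500000 37500 0 75000 37500 0 12500 12500) (.S 3 2 (.L 5 8 [4, 4, 4] [192, 186,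
    178, 168, 158, 148] [20, 12, 2, 0, 0, 0] 100000 10000 10000 1520000 40000 0 80000 20000 0 20000
    20000) (.S 4 6 (.S 4 3 (.L 5 8 [4, 4, 4] [168, 158, 148, 138, 0, 0] [30, 24, 16, 6, 0, 0]
    100000 0 0 1566668 33333 0 33333 66667 0 33333 33333) (.L 5 8 [4, 4, 4] [192, 186, 178, 168,
    158, 148] [30, 24, 16, 6, 0, 0] 100000 200000 0 300000 75000 0 300000 225000 0 0 0)) (.E 2))))
    (.E 1)) (.E 1)) (.L 5 8 [4, 4, 4] [192, 186, 178, 168, 158, 148] [] 100000 10000 10000 1560000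
    40000 0 80000 0 0 20000 20000)) (.L 5 8 [4, 4, 4] [192, 186, 178, 168, 158, 148] [] 100000
    25000 25000 1500000 50000 0 50000 0 0 0 0)))) (.S 1 10 (.S 1 8 (.S 1 7 (.S 2 1 (.S 2 0 (.S 3 6
    (.S 3 3 (.S 3 1 (.L 5 8 [4, 4, 4] [222, 222, 216, 208, 198, 188] [] 100000 21428 21427 1485715
    42857 0 85714 42857 0 0 0) (.S 3 2 (.L 5 8 [4, 4, 4] [222, 222, 216, 208, 198, 188] [20, 12, 2,
    0, 0, 0] 100000 10714 10714 1542858 42857 0 64286 42857 0 21429 21429) (.S 4 7 (.S 4 3 (.L 5 8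
    [4, 4, 4] [198, 188, 178, 168, 0, 0] [30, 24, 16, 6, 0, 0] 100000 0 0 1557144 42857 0 85714
    42857 0 42857 42857) (.L 5 8 [4, 4, 4] [222, 222, 216, 208, 198, 188] [30, 24, 16, 6, 0, 0]
    100000 166668 1 499998 66667 0 266667 200000 0 0 0)) (.E 2)))) (.E 1)) (.E 1)) (.L 5 8 [4, 4,
    4] [222, 222, 216, 208, 198, 188] [] 100000 25000 25000 1500000 50000 0 100000 0 0 0 0)) (.L 5
    8 [4, 4, 4] [222, 222, 216, 208, 198, 188] [] 100000 25000 25000 1500000 50000 0 100000 0 0 0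
    0)) (.L 5 8 [4, 4, 4] [254, 254, 254, 248, 240, 230] [] 100000 25000 25000 1500000 50000 0
    100000 50000 0 0 0)) (.S 1 9 (.L 5 8 [4, 4, 4] [288, 288, 288, 288, 282, 274] [] 100000 25000
    25000 1500000 50000 0 100000 50000 0 0 0) (.L 5 8 [4, 4, 4] [324, 324, 324, 324, 324, 318] []
    100000 33334 16667 1383332 66667 0 116667 50000 0 16667 0))) (.S 1 12 (.S 1 11 (.L 5 8 [4, 4,
    4] [362, 362, 362, 362, 362, 362] [] 100000 150000 50000 750000 150000 0 200000 0 0 0 0) (.L 5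
    8 [4, 4, 4] [402, 402, 402, 402, 402, 402] [] 100000 230000 0 0 220000 0 275000 0 0 0 0)) (.L 5
    8 [4, 4, 4] [444, 444, 444, 444, 444, 444] [] 100000 175000 0 2 183333 0 275000 0 0 0 0)))) (.E
    0)) (.S 1 12 (.S 1 6 (.S 1 3 (.L 5 8 [4, 4, 4] [] [] 100000 0 0 1500000 50000 0 50000 0 0 50000
    50000) (.S 1 5 (.L 5 8 [4, 4, 4] [] [] 100000 0 0 1566668 33333 0 66667 33333 0 33333 33333)
    (.L 5 8 [4, 4, 4] [204, 198, 190, 180, 170, 160] [] 100000 0 0 1500001 33333 0 100000 33333 0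
    33333 33333))) (.L 5 8 [4, 4, 4] [] [] 100000 0 0 1570000 10000 0 100000 10000 0 10000 10000))
    (.E 0))) (.L 5 8 [4, 4, 4] [] [] 100000 2 2 1571428 14286 0 71429 0 28571 0 0)

lemma s22_22_11_2_9 {n : ℕ} (hn : 5 ≤ n) : NoNd (d22_22_11_2.R : ℤ) d22_22_11_2.H n d22_22_11_2.a d22_22_11_2.b
    (BlkD.inB (BlkD.upd (BlkD.upd (fun _ => 0) 0 6) 0 9)
      (BlkD.upd (BlkD.upd (fun _ => 22) 0 11) 2 2)) :=
  BlkD.tree_sound (BlkD.pairOk_sound k22_22_11_2) (by decide) hn t22_22_11_2_9 _ _ (by decide +kernel)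

/-- certificates of the pair `(11, 2)`, part 10 -/
def t22_22_11_2_10 : BlkD.Tr :=
  .E 1

lemma s22_22_11_2_10 {n : ℕ} (hn : 5 ≤ n) : NoNd (d22_22_11_2.R : ℤ) d22_22_11_2.H n d22_22_11_2.a d22_22_11_2.b
    (BlkD.inB (BlkD.upd (fun _ => 0) 2 3)
      (BlkD.upd (fun _ => 22) 0 11)) :=
  BlkD.tree_sound (BlkD.pairOk_sound k22_22_11_2) (by decide) hn t22_22_11_2_10 _ _ (by decide +kernel)

/-- certificates of the pair `(11, 2)`, part 11 -/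
def t22_22_11_2_11 : BlkD.Tr :=
  .E 0

lemma s22_22_11_2_11 {n : ℕ} (hn : 5 ≤ n) : NoNd (d22_22_11_2.R : ℤ) d22_22_11_2.H n d22_22_11_2.a d22_22_11_2.b
    (BlkD.inB (BlkD.upd (fun _ => 0) 0 12)
      (fun _ => 22)) :=
  BlkD.tree_sound (BlkD.pairOk_sound k22_22_11_2) (by decide) hn t22_22_11_2_11 _ _ (by decide +kernel)

lemma pr22_22_11_2 {n : ℕ} (hn : 5 ≤ n) : NoPr ((22 : ℕ) : ℤ) ((22 : ℕ) : ℤ) n 11 2 :=
  BlkD.of_root (R := d22_22_11_2.R) (H := d22_22_11_2.H) (a := d22_22_11_2.a) (b := d22_22_11_2.b) (q := 3) (by decide) hn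
    (BlkD.sp 0 11 (BlkD.sp 2 2 (BlkD.sp 0 5 (BlkD.sp 0 2 (BlkD.sp 0 1 (s22_22_11_2_1 hn)
      (s22_22_11_2_2 hn)) (BlkD.sp 0 4 (BlkD.sp 0 3 (s22_22_11_2_3 hn) (s22_22_11_2_4 hn))
      (s22_22_11_2_5 hn))) (BlkD.sp 0 8 (BlkD.sp 0 7 (BlkD.sp 0 6 (s22_22_11_2_6 hn) (s22_22_11_2_7
      hn)) (s22_22_11_2_8 hn)) (s22_22_11_2_9 hn))) (s22_22_11_2_10 hn)) (s22_22_11_2_11 hn))

end BlkC

end Pool.Agent.Lib.MP_f04ccf_co
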