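import Pool.Agent.Lib.MP_f04ccf_co.M.BlkT

/-!
MP_f04ccf_co, block certificate, data `R = 22`, `H = 22`, part 24 (generated, helper99:
bd10.cpp, gen2.py).
-/

set_option autoImplicit false
set_option maxRecDepth 100000

namespace Pool.Agent.Lib.MP_f04ccf_co

namespace BlkC

/-- the numbers of the pair `(11, 4)`, `R = 22`, `H = 22` -/
def d22_22_11_4 : BlkD.Pd :=
  ⟨22, 22, 3, 11, 4, 4, 1, 3, 0, 4, 8, 0, 2, 2, 6, 0, [0, 8, 16, 16, 16], [0, 6, 12, 14, 16], [⟨1,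
    1, 1, 4, 8, [0, 4], [0, 4]⟩, ⟨1, 1, 1, 4, 14, [0, 8], [0, 6]⟩]⟩

lemma k22_22_11_4 : BlkD.pairOk d22_22_11_4 = true := by decide +kernel

/-- certificates of the pair `(11, 4)`, part 1 -/
def t22_22_11_4_1 : BlkD.Tr :=
  .S 0 0 (.L 5 6 [4, 4, 22, 22, 22] [] [] 100000 1 1 1733334 66667 22222 83333 66667 0 0 0) (.L 5 6
    [4, 4, 22, 22, 22] [] [] 100000 1 1 1733334 66667 22222 83333 66667 0 0 0)

lemma s22_22_11_4_1 {n : ℕ} (hn : 5 ≤ n) : NoNd (d22_22_11_4.R : ℤ) d22_22_11_4.H n d22_22_11_4.a d22_22_11_4.b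
    (BlkD.inB (fun _ => 0)
      (BlkD.upd (BlkD.upd (BlkD.upd (BlkD.upd (BlkD.upd (fun _ => 22) 0 11) 2 4) 0 5) 0 2) 0 1)) :=
  BlkD.tree_sound (BlkD.pairOk_sound k22_22_11_4) (by decide) hn t22_22_11_4_1 _ _ (by decide +kernel)

/-- certificates of the pair `(11, 4)`, part 2 -/
def t22_22_11_4_2 : BlkD.Tr :=
  .S 1 11 (.S 1 5 (.L 5 6 [4, 4, 22, 22, 22] [] [] 100000 1 1 1733334 66667 22222 83333 66667 0 0
    0) (.L 5 6 [4, 4, 22, 22, 22] [] [] 100000 1 1 1733334 66667 22222 83333 66667 0 0 0)) (.L 5 6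
    [4, 4, 22, 22, 22] [] [] 100000 1 1 1733334 66667 22222 83333 66667 0 0 0)

lemma s22_22_11_4_2 {n : ℕ} (hn : 5 ≤ n) : NoNd (d22_22_11_4.R : ℤ) d22_22_11_4.H n d22_22_11_4.a d22_22_11_4.b
    (BlkD.inB (BlkD.upd (fun _ => 0) 0 2)
      (BlkD.upd (BlkD.upd (BlkD.upd (BlkD.upd (fun _ => 22) 0 11) 2 4) 0 5) 0 2)) :=
  BlkD.tree_sound (BlkD.pairOk_sound k22_22_11_4) (by decide) hn t22_22_11_4_2 _ _ (by decide +kernel)

/-- certificates of the pair `(11, 4)`, part 3 -/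
def t22_22_11_4_3 : BlkD.Tr :=
  .S 1 11 (.S 1 5 (.L 5 6 [4, 4, 22, 22, 22] [] [] 100000 1 1 1733334 66667 22222 83333 66667 0 0
    0) (.L 5 6 [4, 4, 22, 22, 22] [] [] 100000 1 1 1733334 66667 22222 83333 66667 0 0 0)) (.L 5 6
    [4, 4, 22, 22, 22] [] [] 100000 1 1 1733334 66667 22222 83333 66667 0 0 0)

lemma s22_22_11_4_3 {n : ℕ} (hn : 5 ≤ n) : NoNd (d22_22_11_4.R : ℤ) d22_22_11_4.H n d22_22_11_4.a d22_22_11_4.b
    (BlkD.inB (BlkD.upd (fun _ => 0) 0 3)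
      (BlkD.upd (BlkD.upd (BlkD.upd (BlkD.upd (BlkD.upd (fun _ => 22) 0 11) 2 4) 0 5) 0 4) 0 3)) :=
  BlkD.tree_sound (BlkD.pairOk_sound k22_22_11_4) (by decide) hn t22_22_11_4_3 _ _ (by decide +kernel)

/-- certificates of the pair `(11, 4)`, part 4 -/
def t22_22_11_4_4 : BlkD.Tr :=
  .S 1 11 (.S 1 5 (.L 5 6 [4, 4, 22, 22, 22] [] [] 100000 1 1 1733334 66667 22222 83333 66667 0 0
    0) (.L 5 6 [4, 4, 22, 22, 22] [] [] 100000 1 1 1733334 66667 22222 83333 66667 0 0 0)) (.L 5 6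
    [4, 4, 22, 22, 22] [] [] 100000 1 1 1733334 66667 22222 83333 66667 0 0 0)

lemma s22_22_11_4_4 {n : ℕ} (hn : 5 ≤ n) : NoNd (d22_22_11_4.R : ℤ) d22_22_11_4.H n d22_22_11_4.a d22_22_11_4.b
    (BlkD.inB (BlkD.upd (BlkD.upd (fun _ => 0) 0 3) 0 4)
      (BlkD.upd (BlkD.upd (BlkD.upd (BlkD.upd (fun _ => 22) 0 11) 2 4) 0 5) 0 4)) :=
  BlkD.tree_sound (BlkD.pairOk_sound k22_22_11_4) (by decide) hn t22_22_11_4_4 _ _ (by decide +kernel)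

/-- certificates of the pair `(11, 4)`, part 5 -/
def t22_22_11_4_5 : BlkD.Tr :=
  .S 1 5 (.L 5 6 [4, 4, 22, 22, 22] [] [] 100000 1 1 1733334 66667 22222 83333 66667 0 0 0) (.L 5 6
    [4, 4, 22, 22, 22] [] [] 100000 1 1 1733334 66667 22222 83333 66667 0 0 0)

lemma s22_22_11_4_5 {n : ℕ} (hn : 5 ≤ n) : NoNd (d22_22_11_4.R : ℤ) d22_22_11_4.H n d22_22_11_4.a d22_22_11_4.b
    (BlkD.inB (BlkD.upd (BlkD.upd (fun _ => 0) 0 3) 0 5)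
      (BlkD.upd (BlkD.upd (BlkD.upd (BlkD.upd (fun _ => 22) 0 11) 2 4) 0 5) 1 11)) :=
  BlkD.tree_sound (BlkD.pairOk_sound k22_22_11_4) (by decide) hn t22_22_11_4_5 _ _ (by decide +kernel)

/-- certificates of the pair `(11, 4)`, part 6 -/
def t22_22_11_4_6 : BlkD.Tr :=
  .L 5 6 [4, 4, 22, 22, 22] [] [] 100000 1 1 1733334 66667 22222 83333 66667 0 0 0

lemma s22_22_11_4_6 {n : ℕ} (hn : 5 ≤ n) : NoNd (d22_22_11_4.R : ℤ) d22_22_11_4.H n d22_22_11_4.a d22_22_11_4.b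
    (BlkD.inB (BlkD.upd (BlkD.upd (BlkD.upd (fun _ => 0) 0 3) 0 5) 1 12)
      (BlkD.upd (BlkD.upd (BlkD.upd (fun _ => 22) 0 11) 2 4) 0 5)) :=
  BlkD.tree_sound (BlkD.pairOk_sound k22_22_11_4) (by decide) hn t22_22_11_4_6 _ _ (by decide +kernel)

/-- certificates of the pair `(11, 4)`, part 7 -/
def t22_22_11_4_7 : BlkD.Tr :=
  .S 1 5 (.L 5 6 [4, 4, 22, 22, 22] [] [] 100000 1 1 1733334 66667 22222 83333 66667 0 0 0) (.S 1 8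
    (.L 5 6 [4, 4, 22, 22, 22] [] [] 100000 1 1 1733334 66667 22222 83333 66667 0 0 0) (.L 5 6 [4,
    4, 22, 22, 22] [] [] 100000 1 1 1733334 66667 22222 83333 66667 0 0 0))

lemma s22_22_11_4_7 {n : ℕ} (hn : 5 ≤ n) : NoNd (d22_22_11_4.R : ℤ) d22_22_11_4.H n d22_22_11_4.a d22_22_11_4.b
    (BlkD.inB (BlkD.upd (fun _ => 0) 0 6)
      (BlkD.upd (BlkD.upd (BlkD.upd (BlkD.upd (BlkD.upd (BlkD.upd (fun _ => 22) 0 11) 2 4) 0 8) 0 7) 0 6) 1 11)) :=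
  BlkD.tree_sound (BlkD.pairOk_sound k22_22_11_4) (by decide) hn t22_22_11_4_7 _ _ (by decide +kernel)

/-- certificates of the pair `(11, 4)`, part 8 -/
def t22_22_11_4_8 : BlkD.Tr :=
  .L 5 6 [4, 4, 22, 22, 22] [] [] 100000 1 1 1733334 66667 22222 83333 66667 0 0 0

lemma s22_22_11_4_8 {n : ℕ} (hn : 5 ≤ n) : NoNd (d22_22_11_4.R : ℤ) d22_22_11_4.H n d22_22_11_4.a d22_22_11_4.b
    (BlkD.inB (BlkD.upd (BlkD.upd (fun _ => 0) 0 6) 1 12)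
      (BlkD.upd (BlkD.upd (BlkD.upd (BlkD.upd (BlkD.upd (fun _ => 22) 0 11) 2 4) 0 8) 0 7) 0 6)) :=
  BlkD.tree_sound (BlkD.pairOk_sound k22_22_11_4) (by decide) hn t22_22_11_4_8 _ _ (by decide +kernel)

/-- certificates of the pair `(11, 4)`, part 9 -/
def t22_22_11_4_9 : BlkD.Tr :=
  .S 1 5 (.L 5 6 [4, 4, 22, 22, 22] [] [] 100000 1 1 1733334 66667 22222 83333 66667 0 0 0) (.S 1 8
    (.L 5 6 [4, 4, 22, 22, 22] [] [] 100000 1 1 1733334 66667 22222 83333 66667 0 0 0) (.L 5 6 [4,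
    4, 22, 22, 22] [] [] 100000 1 1 1733334 66667 22222 83333 66667 0 0 0))

lemma s22_22_11_4_9 {n : ℕ} (hn : 5 ≤ n) : NoNd (d22_22_11_4.R : ℤ) d22_22_11_4.H n d22_22_11_4.a d22_22_11_4.b
    (BlkD.inB (BlkD.upd (BlkD.upd (fun _ => 0) 0 6) 0 7)
      (BlkD.upd (BlkD.upd (BlkD.upd (BlkD.upd (BlkD.upd (fun _ => 22) 0 11) 2 4) 0 8) 0 7) 1 11)) :=
  BlkD.tree_sound (BlkD.pairOk_sound k22_22_11_4) (by decide) hn t22_22_11_4_9 _ _ (by decide +kernel)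

/-- certificates of the pair `(11, 4)`, part 10 -/
def t22_22_11_4_10 : BlkD.Tr :=
  .L 5 6 [4, 4, 22, 22, 22] [] [] 100000 1 1 1733334 66667 22222 83333 66667 0 0 0

lemma s22_22_11_4_10 {n : ℕ} (hn : 5 ≤ n) : NoNd (d22_22_11_4.R : ℤ) d22_22_11_4.H n d22_22_11_4.a d22_22_11_4.b
    (BlkD.inB (BlkD.upd (BlkD.upd (BlkD.upd (fun _ => 0) 0 6) 0 7) 1 12)
      (BlkD.upd (BlkD.upd (BlkD.upd (BlkD.upd (fun _ => 22) 0 11) 2 4) 0 8) 0 7)) :=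
  BlkD.tree_sound (BlkD.pairOk_sound k22_22_11_4) (by decide) hn t22_22_11_4_10 _ _ (by decide +kernel)

/-- certificates of the pair `(11, 4)`, part 11 -/
def t22_22_11_4_11 : BlkD.Tr :=
  .S 1 11 (.S 1 5 (.L 5 6 [4, 4, 22, 22, 22] [] [] 100000 1 1 1733334 66667 22222 83333 66667 0 0
    0) (.S 1 8 (.L 5 6 [4, 4, 22, 22, 22] [] [] 100000 1 1 1733334 66667 22222 83333 66667 0 0 0)
    (.L 5 6 [4, 4, 22, 22, 22] [] [] 100000 1 1 1733334 66667 22222 83333 66667 0 0 0))) (.L 5 6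
    [4, 4, 22, 22, 22] [] [] 100000 1 1 1733334 66667 22222 83333 66667 0 0 0)

lemma s22_22_11_4_11 {n : ℕ} (hn : 5 ≤ n) : NoNd (d22_22_11_4.R : ℤ) d22_22_11_4.H n d22_22_11_4.a d22_22_11_4.b
    (BlkD.inB (BlkD.upd (BlkD.upd (fun _ => 0) 0 6) 0 8)
      (BlkD.upd (BlkD.upd (BlkD.upd (fun _ => 22) 0 11) 2 4) 0 8)) :=
  BlkD.tree_sound (BlkD.pairOk_sound k22_22_11_4) (by decide) hn t22_22_11_4_11 _ _ (by decide +kernel)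

/-- certificates of the pair `(11, 4)`, part 12 -/
def t22_22_11_4_12 : BlkD.Tr :=
  .S 0 10 (.S 0 9 (.L 5 6 [4, 4, 22, 22, 22] [] [] 100000 1 1 1733334 66667 22222 83333 66667 0 0
    0) (.L 5 6 [4, 4, 22, 22, 22] [] [] 100000 1 1 1733334 66667 22222 83333 66667 0 0 0)) (.L 5 6
    [4, 4, 22, 22, 22] [] [] 100000 1 1 1733334 66667 22222 83333 66667 0 0 0)

lemma s22_22_11_4_12 {n : ℕ} (hn : 5 ≤ n) : NoNd (d22_22_11_4.R : ℤ) d22_22_11_4.H n d22_22_11_4.a d22_22_11_4.b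
    (BlkD.inB (BlkD.upd (BlkD.upd (fun _ => 0) 0 6) 0 9)
      (BlkD.upd (BlkD.upd (fun _ => 22) 0 11) 2 4)) :=
  BlkD.tree_sound (BlkD.pairOk_sound k22_22_11_4) (by decide) hn t22_22_11_4_12 _ _ (by decide +kernel)

/-- certificates of the pair `(11, 4)`, part 13 -/
def t22_22_11_4_13 : BlkD.Tr :=
  .E 1

lemma s22_22_11_4_13 {n : ℕ} (hn : 5 ≤ n) : NoNd (d22_22_11_4.R : ℤ) d22_22_11_4.H n d22_22_11_4.a d22_22_11_4.b
    (BlkD.inB (BlkD.upd (fun _ => 0) 2 5)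
      (BlkD.upd (fun _ => 22) 0 11)) :=
  BlkD.tree_sound (BlkD.pairOk_sound k22_22_11_4) (by decide) hn t22_22_11_4_13 _ _ (by decide +kernel)

/-- certificates of the pair `(11, 4)`, part 14 -/
def t22_22_11_4_14 : BlkD.Tr :=
  .E 0

lemma s22_22_11_4_14 {n : ℕ} (hn : 5 ≤ n) : NoNd (d22_22_11_4.R : ℤ) d22_22_11_4.H n d22_22_11_4.a d22_22_11_4.b
    (BlkD.inB (BlkD.upd (fun _ => 0) 0 12)
      (fun _ => 22)) :=
  BlkD.tree_sound (BlkD.pairOk_sound k22_22_11_4) (by decide) hn t22_22_11_4_14 _ _ (by decide +kernel)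

lemma pr22_22_11_4 {n : ℕ} (hn : 5 ≤ n) : NoPr ((22 : ℕ) : ℤ) ((22 : ℕ) : ℤ) n 11 4 :=
  BlkD.of_root (R := d22_22_11_4.R) (H := d22_22_11_4.H) (a := d22_22_11_4.a) (b := d22_22_11_4.b) (q := 3) (by decide) hn
    (BlkD.sp 0 11 (BlkD.sp 2 4 (BlkD.sp 0 5 (BlkD.sp 0 2 (BlkD.sp 0 1 (s22_22_11_4_1 hn)
      (s22_22_11_4_2 hn)) (BlkD.sp 0 4 (BlkD.sp 0 3 (s22_22_11_4_3 hn) (s22_22_11_4_4 hn)) (BlkD.sp
      1 11 (s22_22_11_4_5 hn) (s22_22_11_4_6 hn)))) (BlkD.sp 0 8 (BlkD.sp 0 7 (BlkD.sp 0 6 (BlkD.sp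
      1 11 (s22_22_11_4_7 hn) (s22_22_11_4_8 hn)) (BlkD.sp 1 11 (s22_22_11_4_9 hn) (s22_22_11_4_10
      hn))) (s22_22_11_4_11 hn)) (s22_22_11_4_12 hn))) (s22_22_11_4_13 hn)) (s22_22_11_4_14 hn))

end BlkC

end Pool.Agent.Lib.MP_f04ccf_co
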