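import Pool.Agent.Lib.MP_f04ccf_co.M.BlkT

/-!
MP_f04ccf_co, block certificate, data `R = 22`, `H = 22`, part 25 (generated, helper99:
bd10.cpp, gen2.py).
-/

set_option autoImplicit false
set_option maxRecDepth 100000

namespace Pool.Agent.Lib.MP_f04ccf_co

namespace BlkC

/-- the numbers of the pair `(11, 5)`, `R = 22`, `H = 22` -/
def d22_22_11_5 : BlkD.Pd :=
  ⟨22, 22, 3, 11, 5, 3, 0, 4, 0, 4, 4, 0, 0, 4, 4, 0, [0, 4, 8, 12], [0, 4, 8, 12], [⟨1, 1, 1, 4,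
    8, [0, 4], [0, 4]⟩]⟩

lemma k22_22_11_5 : BlkD.pairOk d22_22_11_5 = true := by decide +kernel

/-- certificates of the pair `(11, 5)`, part 1 -/
def t22_22_11_5_1 : BlkD.Tr :=
  .S 0 0 (.L 4 4 [4, 22, 22, 22, 22, 22] [] [] 100000 0 0 1800000 100000 50000 100000 100000 0 0 0)
    (.L 4 4 [4, 22, 22, 22, 22, 22] [] [] 100000 0 0 1800000 100000 50000 100000 100000 0 0 0)

lemma s22_22_11_5_1 {n : ℕ} (hn : 5 ≤ n) : NoNd (d22_22_11_5.R : ℤ) d22_22_11_5.H n d22_22_11_5.a d22_22_11_5.b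
    (BlkD.inB (fun _ => 0)
      (BlkD.upd (BlkD.upd (BlkD.upd (BlkD.upd (BlkD.upd (fun _ => 22) 0 11) 2 5) 0 5) 0 2) 0 1)) :=
  BlkD.tree_sound (BlkD.pairOk_sound k22_22_11_5) (by decide) hn t22_22_11_5_1 _ _ (by decide +kernel)

/-- certificates of the pair `(11, 5)`, part 2 -/
def t22_22_11_5_2 : BlkD.Tr :=
  .S 1 11 (.S 1 5 (.L 4 4 [4, 22, 22, 22, 22, 22] [] [] 100000 0 0 1800000 100000 50000 100000
    100000 0 0 0) (.L 4 4 [4, 22, 22, 22, 22, 22] [] [] 100000 0 0 1800000 100000 50000 100000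
    100000 0 0 0)) (.L 4 4 [4, 22, 22, 22, 22, 22] [] [] 100000 0 0 1800000 100000 50000 100000
    100000 0 0 0)

lemma s22_22_11_5_2 {n : ℕ} (hn : 5 ≤ n) : NoNd (d22_22_11_5.R : ℤ) d22_22_11_5.H n d22_22_11_5.a d22_22_11_5.b
    (BlkD.inB (BlkD.upd (fun _ => 0) 0 2)
      (BlkD.upd (BlkD.upd (BlkD.upd (BlkD.upd (fun _ => 22) 0 11) 2 5) 0 5) 0 2)) :=
  BlkD.tree_sound (BlkD.pairOk_sound k22_22_11_5) (by decide) hn t22_22_11_5_2 _ _ (by decide +kernel)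

/-- certificates of the pair `(11, 5)`, part 3 -/
def t22_22_11_5_3 : BlkD.Tr :=
  .S 1 11 (.S 1 5 (.L 4 4 [4, 22, 22, 22, 22, 22] [] [] 100000 0 0 1800000 100000 50000 100000
    100000 0 0 0) (.L 4 4 [4, 22, 22, 22, 22, 22] [] [] 100000 0 0 1800000 100000 50000 100000
    100000 0 0 0)) (.L 4 4 [4, 22, 22, 22, 22, 22] [] [] 100000 0 0 1800000 100000 50000 100000
    100000 0 0 0)

lemma s22_22_11_5_3 {n : ℕ} (hn : 5 ≤ n) : NoNd (d22_22_11_5.R : ℤ) d22_22_11_5.H n d22_22_11_5.a d22_22_11_5.b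
    (BlkD.inB (BlkD.upd (fun _ => 0) 0 3)
      (BlkD.upd (BlkD.upd (BlkD.upd (BlkD.upd (BlkD.upd (fun _ => 22) 0 11) 2 5) 0 5) 0 4) 0 3)) :=
  BlkD.tree_sound (BlkD.pairOk_sound k22_22_11_5) (by decide) hn t22_22_11_5_3 _ _ (by decide +kernel)

/-- certificates of the pair `(11, 5)`, part 4 -/
def t22_22_11_5_4 : BlkD.Tr :=
  .S 1 11 (.S 1 5 (.L 4 4 [4, 22, 22, 22, 22, 22] [] [] 100000 0 0 1800000 100000 50000 100000
    100000 0 0 0) (.L 4 4 [4, 22, 22, 22, 22, 22] [] [] 100000 0 0 1800000 100000 50000 100000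
    100000 0 0 0)) (.L 4 4 [4, 22, 22, 22, 22, 22] [] [] 100000 0 0 1800000 100000 50000 100000
    100000 0 0 0)

lemma s22_22_11_5_4 {n : ℕ} (hn : 5 ≤ n) : NoNd (d22_22_11_5.R : ℤ) d22_22_11_5.H n d22_22_11_5.a d22_22_11_5.b
    (BlkD.inB (BlkD.upd (BlkD.upd (fun _ => 0) 0 3) 0 4)
      (BlkD.upd (BlkD.upd (BlkD.upd (BlkD.upd (fun _ => 22) 0 11) 2 5) 0 5) 0 4)) :=
  BlkD.tree_sound (BlkD.pairOk_sound k22_22_11_5) (by decide) hn t22_22_11_5_4 _ _ (by decide +kernel)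

/-- certificates of the pair `(11, 5)`, part 5 -/
def t22_22_11_5_5 : BlkD.Tr :=
  .L 4 4 [4, 22, 22, 22, 22, 22] [] [] 100000 0 0 1800000 100000 50000 100000 100000 0 0 0

lemma s22_22_11_5_5 {n : ℕ} (hn : 5 ≤ n) : NoNd (d22_22_11_5.R : ℤ) d22_22_11_5.H n d22_22_11_5.a d22_22_11_5.b
    (BlkD.inB (BlkD.upd (BlkD.upd (fun _ => 0) 0 3) 0 5)
      (BlkD.upd (BlkD.upd (BlkD.upd (BlkD.upd (BlkD.upd (fun _ => 22) 0 11) 2 5) 0 5) 1 11) 1 5)) :=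
  BlkD.tree_sound (BlkD.pairOk_sound k22_22_11_5) (by decide) hn t22_22_11_5_5 _ _ (by decide +kernel)

/-- certificates of the pair `(11, 5)`, part 6 -/
def t22_22_11_5_6 : BlkD.Tr :=
  .S 1 8 (.L 4 4 [4, 22, 22, 22, 22, 22] [] [] 100000 0 0 1800000 100000 50000 100000 100000 0 0 0)
    (.S 1 10 (.L 4 4 [4, 22, 22, 22, 22, 22] [] [] 100000 0 0 1800000 100000 50000 100000 100000 0
    0 0) (.L 4 4 [4, 22, 22, 22, 22, 22] [292, 292, 292, 292, 292, 288] [] 100000 0 0 1800000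
    100000 50000 100000 100000 0 0 0))

lemma s22_22_11_5_6 {n : ℕ} (hn : 5 ≤ n) : NoNd (d22_22_11_5.R : ℤ) d22_22_11_5.H n d22_22_11_5.a d22_22_11_5.b
    (BlkD.inB (BlkD.upd (BlkD.upd (BlkD.upd (fun _ => 0) 0 3) 0 5) 1 6)
      (BlkD.upd (BlkD.upd (BlkD.upd (BlkD.upd (fun _ => 22) 0 11) 2 5) 0 5) 1 11)) :=
  BlkD.tree_sound (BlkD.pairOk_sound k22_22_11_5) (by decide) hn t22_22_11_5_6 _ _ (by decide +kernel)

/-- certificates of the pair `(11, 5)`, part 7 -/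
def t22_22_11_5_7 : BlkD.Tr :=
  .L 4 4 [4, 22, 22, 22, 22, 22] [] [] 100000 0 0 1800000 100000 50000 100000 100000 0 0 0

lemma s22_22_11_5_7 {n : ℕ} (hn : 5 ≤ n) : NoNd (d22_22_11_5.R : ℤ) d22_22_11_5.H n d22_22_11_5.a d22_22_11_5.b
    (BlkD.inB (BlkD.upd (BlkD.upd (BlkD.upd (fun _ => 0) 0 3) 0 5) 1 12)
      (BlkD.upd (BlkD.upd (BlkD.upd (fun _ => 22) 0 11) 2 5) 0 5)) :=
  BlkD.tree_sound (BlkD.pairOk_sound k22_22_11_5) (by decide) hn t22_22_11_5_7 _ _ (by decide +kernel)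

/-- certificates of the pair `(11, 5)`, part 8 -/
def t22_22_11_5_8 : BlkD.Tr :=
  .L 4 4 [4, 22, 22, 22, 22, 22] [] [] 100000 0 0 1800000 100000 50000 100000 100000 0 0 0

lemma s22_22_11_5_8 {n : ℕ} (hn : 5 ≤ n) : NoNd (d22_22_11_5.R : ℤ) d22_22_11_5.H n d22_22_11_5.a d22_22_11_5.b
    (BlkD.inB (BlkD.upd (fun _ => 0) 0 6)
      (BlkD.upd (BlkD.upd (BlkD.upd (BlkD.upd (BlkD.upd (BlkD.upd (BlkD.upd (fun _ => 22) 0 11) 2 5) 0 8) 0 7) 0 6) 1 11) 1 5)) :=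
  BlkD.tree_sound (BlkD.pairOk_sound k22_22_11_5) (by decide) hn t22_22_11_5_8 _ _ (by decide +kernel)

/-- certificates of the pair `(11, 5)`, part 9 -/
def t22_22_11_5_9 : BlkD.Tr :=
  .L 4 4 [4, 22, 22, 22, 22, 22] [] [] 100000 0 0 1800000 100000 50000 100000 100000 0 0 0

lemma s22_22_11_5_9 {n : ℕ} (hn : 5 ≤ n) : NoNd (d22_22_11_5.R : ℤ) d22_22_11_5.H n d22_22_11_5.a d22_22_11_5.b
    (BlkD.inB (BlkD.upd (BlkD.upd (fun _ => 0) 0 6) 1 6)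
      (BlkD.upd (BlkD.upd (BlkD.upd (BlkD.upd (BlkD.upd (BlkD.upd (BlkD.upd (fun _ => 22) 0 11) 2 5) 0 8) 0 7) 0 6) 1 11) 1 8)) :=
  BlkD.tree_sound (BlkD.pairOk_sound k22_22_11_5) (by decide) hn t22_22_11_5_9 _ _ (by decide +kernel)

/-- certificates of the pair `(11, 5)`, part 10 -/
def t22_22_11_5_10 : BlkD.Tr :=
  .S 1 10 (.L 4 4 [4, 22, 22, 22, 22, 22] [] [] 100000 0 0 1800000 100000 50000 100000 100000 0 0
    0) (.L 4 4 [4, 22, 22, 22, 22, 22] [314, 314, 314, 314, 314, 310] [] 100000 0 0 1800000 100000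
    50000 100000 100000 0 0 0)

lemma s22_22_11_5_10 {n : ℕ} (hn : 5 ≤ n) : NoNd (d22_22_11_5.R : ℤ) d22_22_11_5.H n d22_22_11_5.a d22_22_11_5.b
    (BlkD.inB (BlkD.upd (BlkD.upd (BlkD.upd (fun _ => 0) 0 6) 1 6) 1 9)
      (BlkD.upd (BlkD.upd (BlkD.upd (BlkD.upd (BlkD.upd (BlkD.upd (fun _ => 22) 0 11) 2 5) 0 8) 0 7) 0 6) 1 11)) :=
  BlkD.tree_sound (BlkD.pairOk_sound k22_22_11_5) (by decide) hn t22_22_11_5_10 _ _ (by decide +kernel)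

/-- certificates of the pair `(11, 5)`, part 11 -/
def t22_22_11_5_11 : BlkD.Tr :=
  .L 4 4 [4, 22, 22, 22, 22, 22] [] [] 100000 0 0 1800000 100000 50000 100000 100000 0 0 0

lemma s22_22_11_5_11 {n : ℕ} (hn : 5 ≤ n) : NoNd (d22_22_11_5.R : ℤ) d22_22_11_5.H n d22_22_11_5.a d22_22_11_5.b
    (BlkD.inB (BlkD.upd (BlkD.upd (fun _ => 0) 0 6) 1 12)
      (BlkD.upd (BlkD.upd (BlkD.upd (BlkD.upd (BlkD.upd (fun _ => 22) 0 11) 2 5) 0 8) 0 7) 0 6)) :=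
  BlkD.tree_sound (BlkD.pairOk_sound k22_22_11_5) (by decide) hn t22_22_11_5_11 _ _ (by decide +kernel)

/-- certificates of the pair `(11, 5)`, part 12 -/
def t22_22_11_5_12 : BlkD.Tr :=
  .L 4 4 [4, 22, 22, 22, 22, 22] [] [] 100000 0 0 1800000 100000 50000 100000 100000 0 0 0

lemma s22_22_11_5_12 {n : ℕ} (hn : 5 ≤ n) : NoNd (d22_22_11_5.R : ℤ) d22_22_11_5.H n d22_22_11_5.a d22_22_11_5.b
    (BlkD.inB (BlkD.upd (BlkD.upd (fun _ => 0) 0 6) 0 7)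
      (BlkD.upd (BlkD.upd (BlkD.upd (BlkD.upd (BlkD.upd (BlkD.upd (fun _ => 22) 0 11) 2 5) 0 8) 0 7) 1 11) 1 5)) :=
  BlkD.tree_sound (BlkD.pairOk_sound k22_22_11_5) (by decide) hn t22_22_11_5_12 _ _ (by decide +kernel)

/-- certificates of the pair `(11, 5)`, part 13 -/
def t22_22_11_5_13 : BlkD.Tr :=
  .L 4 4 [4, 22, 22, 22, 22, 22] [] [] 100000 0 0 1800000 100000 50000 100000 100000 0 0 0

lemma s22_22_11_5_13 {n : ℕ} (hn : 5 ≤ n) : NoNd (d22_22_11_5.R : ℤ) d22_22_11_5.H n d22_22_11_5.a d22_22_11_5.b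
    (BlkD.inB (BlkD.upd (BlkD.upd (BlkD.upd (fun _ => 0) 0 6) 0 7) 1 6)
      (BlkD.upd (BlkD.upd (BlkD.upd (BlkD.upd (BlkD.upd (BlkD.upd (fun _ => 22) 0 11) 2 5) 0 8) 0 7) 1 11) 1 8)) :=
  BlkD.tree_sound (BlkD.pairOk_sound k22_22_11_5) (by decide) hn t22_22_11_5_13 _ _ (by decide +kernel)

/-- certificates of the pair `(11, 5)`, part 14 -/
def t22_22_11_5_14 : BlkD.Tr :=
  .S 1 10 (.L 4 4 [4, 22, 22, 22, 22, 22] [] [] 100000 0 0 1800000 100000 50000 100000 100000 0 0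
    0) (.L 4 4 [4, 22, 22, 22, 22, 22] [336, 336, 336, 336, 336, 332] [] 100000 0 0 1800000 100000
    50000 100000 100000 0 0 0)

lemma s22_22_11_5_14 {n : ℕ} (hn : 5 ≤ n) : NoNd (d22_22_11_5.R : ℤ) d22_22_11_5.H n d22_22_11_5.a d22_22_11_5.b
    (BlkD.inB (BlkD.upd (BlkD.upd (BlkD.upd (BlkD.upd (fun _ => 0) 0 6) 0 7) 1 6) 1 9)
      (BlkD.upd (BlkD.upd (BlkD.upd (BlkD.upd (BlkD.upd (fun _ => 22) 0 11) 2 5) 0 8) 0 7) 1 11)) :=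
  BlkD.tree_sound (BlkD.pairOk_sound k22_22_11_5) (by decide) hn t22_22_11_5_14 _ _ (by decide +kernel)

/-- certificates of the pair `(11, 5)`, part 15 -/
def t22_22_11_5_15 : BlkD.Tr :=
  .L 4 4 [4, 22, 22, 22, 22, 22] [] [] 100000 0 0 1800000 100000 50000 100000 100000 0 0 0

lemma s22_22_11_5_15 {n : ℕ} (hn : 5 ≤ n) : NoNd (d22_22_11_5.R : ℤ) d22_22_11_5.H n d22_22_11_5.a d22_22_11_5.b
    (BlkD.inB (BlkD.upd (BlkD.upd (BlkD.upd (fun _ => 0) 0 6) 0 7) 1 12)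
      (BlkD.upd (BlkD.upd (BlkD.upd (BlkD.upd (fun _ => 22) 0 11) 2 5) 0 8) 0 7)) :=
  BlkD.tree_sound (BlkD.pairOk_sound k22_22_11_5) (by decide) hn t22_22_11_5_15 _ _ (by decide +kernel)

/-- certificates of the pair `(11, 5)`, part 16 -/
def t22_22_11_5_16 : BlkD.Tr :=
  .L 4 4 [4, 22, 22, 22, 22, 22] [] [] 100000 0 0 1800000 100000 50000 100000 100000 0 0 0

lemma s22_22_11_5_16 {n : ℕ} (hn : 5 ≤ n) : NoNd (d22_22_11_5.R : ℤ) d22_22_11_5.H n d22_22_11_5.a d22_22_11_5.b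
    (BlkD.inB (BlkD.upd (BlkD.upd (fun _ => 0) 0 6) 0 8)
      (BlkD.upd (BlkD.upd (BlkD.upd (BlkD.upd (BlkD.upd (fun _ => 22) 0 11) 2 5) 0 8) 1 11) 1 5)) :=
  BlkD.tree_sound (BlkD.pairOk_sound k22_22_11_5) (by decide) hn t22_22_11_5_16 _ _ (by decide +kernel)

/-- certificates of the pair `(11, 5)`, part 17 -/
def t22_22_11_5_17 : BlkD.Tr :=
  .S 1 8 (.L 4 4 [4, 22, 22, 22, 22, 22] [] [] 100000 0 0 1800000 100000 50000 100000 100000 0 0 0)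
    (.L 4 4 [4, 22, 22, 22, 22, 22] [] [] 100000 0 0 1800000 100000 50000 100000 100000 0 0 0)

lemma s22_22_11_5_17 {n : ℕ} (hn : 5 ≤ n) : NoNd (d22_22_11_5.R : ℤ) d22_22_11_5.H n d22_22_11_5.a d22_22_11_5.b
    (BlkD.inB (BlkD.upd (BlkD.upd (BlkD.upd (fun _ => 0) 0 6) 0 8) 1 6)
      (BlkD.upd (BlkD.upd (BlkD.upd (BlkD.upd (fun _ => 22) 0 11) 2 5) 0 8) 1 11)) :=
  BlkD.tree_sound (BlkD.pairOk_sound k22_22_11_5) (by decide) hn t22_22_11_5_17 _ _ (by decide +kernel)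

/-- certificates of the pair `(11, 5)`, part 18 -/
def t22_22_11_5_18 : BlkD.Tr :=
  .L 4 4 [4, 22, 22, 22, 22, 22] [] [] 100000 0 0 1800000 100000 50000 100000 100000 0 0 0

lemma s22_22_11_5_18 {n : ℕ} (hn : 5 ≤ n) : NoNd (d22_22_11_5.R : ℤ) d22_22_11_5.H n d22_22_11_5.a d22_22_11_5.b
    (BlkD.inB (BlkD.upd (BlkD.upd (BlkD.upd (fun _ => 0) 0 6) 0 8) 1 12)
      (BlkD.upd (BlkD.upd (BlkD.upd (fun _ => 22) 0 11) 2 5) 0 8)) :=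
  BlkD.tree_sound (BlkD.pairOk_sound k22_22_11_5) (by decide) hn t22_22_11_5_18 _ _ (by decide +kernel)

/-- certificates of the pair `(11, 5)`, part 19 -/
def t22_22_11_5_19 : BlkD.Tr :=
  .S 1 11 (.S 1 5 (.L 4 4 [4, 22, 22, 22, 22, 22] [] [] 100000 0 0 1800000 100000 50000 100000
    100000 0 0 0) (.L 4 4 [4, 22, 22, 22, 22, 22] [] [] 100000 0 0 1800000 100000 50000 100000
    100000 0 0 0)) (.L 4 4 [4, 22, 22, 22, 22, 22] [] [] 100000 0 0 1800000 100000 50000 100000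
    100000 0 0 0)

lemma s22_22_11_5_19 {n : ℕ} (hn : 5 ≤ n) : NoNd (d22_22_11_5.R : ℤ) d22_22_11_5.H n d22_22_11_5.a d22_22_11_5.b
    (BlkD.inB (BlkD.upd (BlkD.upd (fun _ => 0) 0 6) 0 9)
      (BlkD.upd (BlkD.upd (BlkD.upd (BlkD.upd (fun _ => 22) 0 11) 2 5) 0 10) 0 9)) :=
  BlkD.tree_sound (BlkD.pairOk_sound k22_22_11_5) (by decide) hn t22_22_11_5_19 _ _ (by decide +kernel)

/-- certificates of the pair `(11, 5)`, part 20 -/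
def t22_22_11_5_20 : BlkD.Tr :=
  .L 4 4 [4, 22, 22, 22, 22, 22] [] [] 100000 0 0 1800000 100000 50000 100000 100000 0 0 0

lemma s22_22_11_5_20 {n : ℕ} (hn : 5 ≤ n) : NoNd (d22_22_11_5.R : ℤ) d22_22_11_5.H n d22_22_11_5.a d22_22_11_5.b
    (BlkD.inB (BlkD.upd (BlkD.upd (BlkD.upd (fun _ => 0) 0 6) 0 9) 0 10)
      (BlkD.upd (BlkD.upd (BlkD.upd (fun _ => 22) 0 11) 2 5) 0 10)) :=
  BlkD.tree_sound (BlkD.pairOk_sound k22_22_11_5) (by decide) hn t22_22_11_5_20 _ _ (by decide +kernel)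

/-- certificates of the pair `(11, 5)`, part 21 -/
def t22_22_11_5_21 : BlkD.Tr :=
  .L 4 4 [4, 22, 22, 22, 22, 22] [] [] 100000 0 0 1800000 100000 50000 100000 100000 0 0 0

lemma s22_22_11_5_21 {n : ℕ} (hn : 5 ≤ n) : NoNd (d22_22_11_5.R : ℤ) d22_22_11_5.H n d22_22_11_5.a d22_22_11_5.b
    (BlkD.inB (BlkD.upd (BlkD.upd (BlkD.upd (fun _ => 0) 0 6) 0 9) 0 11)
      (BlkD.upd (BlkD.upd (fun _ => 22) 0 11) 2 5)) :=
  BlkD.tree_sound (BlkD.pairOk_sound k22_22_11_5) (by decide) hn t22_22_11_5_21 _ _ (by decide +kernel)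

/-- certificates of the pair `(11, 5)`, part 22 -/
def t22_22_11_5_22 : BlkD.Tr :=
  .E 1

lemma s22_22_11_5_22 {n : ℕ} (hn : 5 ≤ n) : NoNd (d22_22_11_5.R : ℤ) d22_22_11_5.H n d22_22_11_5.a d22_22_11_5.b
    (BlkD.inB (BlkD.upd (fun _ => 0) 2 6)
      (BlkD.upd (fun _ => 22) 0 11)) :=
  BlkD.tree_sound (BlkD.pairOk_sound k22_22_11_5) (by decide) hn t22_22_11_5_22 _ _ (by decide +kernel)

/-- certificates of the pair `(11, 5)`, part 23 -/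
def t22_22_11_5_23 : BlkD.Tr :=
  .E 0

lemma s22_22_11_5_23 {n : ℕ} (hn : 5 ≤ n) : NoNd (d22_22_11_5.R : ℤ) d22_22_11_5.H n d22_22_11_5.a d22_22_11_5.b
    (BlkD.inB (BlkD.upd (fun _ => 0) 0 12)
      (fun _ => 22)) :=
  BlkD.tree_sound (BlkD.pairOk_sound k22_22_11_5) (by decide) hn t22_22_11_5_23 _ _ (by decide +kernel)

lemma pr22_22_11_5 {n : ℕ} (hn : 5 ≤ n) : NoPr ((22 : ℕ) : ℤ) ((22 : ℕ) : ℤ) n 11 5 :=
  BlkD.of_root (R := d22_22_11_5.R) (H := d22_22_11_5.H) (a := d22_22_11_5.a) (b := d22_22_11_5.b) (q := 3) (by decide) hn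
    (BlkD.sp 0 11 (BlkD.sp 2 5 (BlkD.sp 0 5 (BlkD.sp 0 2 (BlkD.sp 0 1 (s22_22_11_5_1 hn)
      (s22_22_11_5_2 hn)) (BlkD.sp 0 4 (BlkD.sp 0 3 (s22_22_11_5_3 hn) (s22_22_11_5_4 hn)) (BlkD.sp
      1 11 (BlkD.sp 1 5 (s22_22_11_5_5 hn) (s22_22_11_5_6 hn)) (s22_22_11_5_7 hn)))) (BlkD.sp 0 8
      (BlkD.sp 0 7 (BlkD.sp 0 6 (BlkD.sp 1 11 (BlkD.sp 1 5 (s22_22_11_5_8 hn) (BlkD.sp 1 8
      (s22_22_11_5_9 hn) (s22_22_11_5_10 hn))) (s22_22_11_5_11 hn)) (BlkD.sp 1 11 (BlkD.sp 1 5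
      (s22_22_11_5_12 hn) (BlkD.sp 1 8 (s22_22_11_5_13 hn) (s22_22_11_5_14 hn))) (s22_22_11_5_15
      hn))) (BlkD.sp 1 11 (BlkD.sp 1 5 (s22_22_11_5_16 hn) (s22_22_11_5_17 hn)) (s22_22_11_5_18
      hn))) (BlkD.sp 0 10 (BlkD.sp 0 9 (s22_22_11_5_19 hn) (s22_22_11_5_20 hn)) (s22_22_11_5_21
      hn)))) (s22_22_11_5_22 hn)) (s22_22_11_5_23 hn))

/-- the numbers of the pair `(12, 0)`, `R = 22`, `H = 22` -/
def d22_22_12_0 : BlkD.Pd :=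
  ⟨22, 22, 3, 12, 0, 7, 0, 1, 0, 4, 4, 0, 0, 4, 4, 0, [0, 4, 8, 12, 16, 20, 24, 28], [0, 4, 8, 12,
    16, 20, 24, 28], [⟨1, 1, 1, 4, 8, [0, 4], [0, 4]⟩]⟩

/-- the certificates of the pair `(12, 0)` -/
def t22_22_12_0 : BlkD.Tr :=
  .S 0 12 (.S 2 0 (.S 0 6 (.S 0 3 (.L 4 4 [4] [] [] 100000 0 0 1300000 100000 0 100000 0 0 0 0) (.L
    4 4 [4] [] [] 100000 0 0 1300000 100000 0 100000 0 0 0 0)) (.L 4 4 [4] [] [] 100000 0 0 1300000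
    100000 0 100000 0 0 0 0)) (.E 1)) (.E 0)

lemma pr22_22_12_0 {n : ℕ} (hn : 5 ≤ n) : NoPr ((22 : ℕ) : ℤ) ((22 : ℕ) : ℤ) n 12 0 :=
  BlkD.pair_sound (d := d22_22_12_0) (by decide +kernel) hn (by decide) (tr := t22_22_12_0)
    (by decide +kernel) rfl rfl rfl rfl

end BlkC

end Pool.Agent.Lib.MP_f04ccf_co
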