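import Pool.Agent.Lib.MP_f04ccf_co.M.BlkT

/-!
MP_f04ccf_co, block certificate, data `R = 22`, `H = 22`, part 27 (generated, helper99:
bd10.cpp, gen2.py).
-/

set_option autoImplicit false
set_option maxRecDepth 100000

namespace Pool.Agent.Lib.MP_f04ccf_co

namespace BlkC

/-- the numbers of the pair `(12, 3)`, `R = 22`, `H = 22` -/
def d22_22_12_3 : BlkD.Pd :=
  ⟨22, 22, 3, 12, 3, 4, 1, 3, 0, 4, 8, 0, 2, 2, 6, 0, [0, 8, 16, 16, 16], [0, 6, 12, 14, 16], [⟨1,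
    1, 1, 4, 8, [0, 4], [0, 4]⟩, ⟨1, 1, 1, 4, 14, [0, 8], [0, 6]⟩]⟩

lemma k22_22_12_3 : BlkD.pairOk d22_22_12_3 = true := by decide +kernel

/-- certificates of the pair `(12, 3)`, part 1 -/
def t22_22_12_3_1 : BlkD.Tr :=
  .L 5 6 [4, 4, 22, 22] [] [] 100000 1 1 1733333 66667 26667 86667 40000 0 0 0

lemma s22_22_12_3_1 {n : ℕ} (hn : 5 ≤ n) : NoNd (d22_22_12_3.R : ℤ) d22_22_12_3.H n d22_22_12_3.a d22_22_12_3.b
    (BlkD.inB (fun _ => 0)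
      (BlkD.upd (BlkD.upd (BlkD.upd (BlkD.upd (BlkD.upd (fun _ => 22) 0 12) 2 3) 0 6) 0 3) 0 1)) :=
  BlkD.tree_sound (BlkD.pairOk_sound k22_22_12_3) (by decide) hn t22_22_12_3_1 _ _ (by decide +kernel)

/-- certificates of the pair `(12, 3)`, part 2 -/
def t22_22_12_3_2 : BlkD.Tr :=
  .S 1 11 (.L 5 6 [4, 4, 22, 22] [] [] 100000 1 1 1733333 66667 26667 86667 40000 0 0 0) (.L 5 6
    [4, 4, 22, 22] [] [] 100000 1 1 1733333 66667 26667 86667 40000 0 0 0)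

lemma s22_22_12_3_2 {n : ℕ} (hn : 5 ≤ n) : NoNd (d22_22_12_3.R : ℤ) d22_22_12_3.H n d22_22_12_3.a d22_22_12_3.b
    (BlkD.inB (BlkD.upd (fun _ => 0) 0 2)
      (BlkD.upd (BlkD.upd (BlkD.upd (BlkD.upd (BlkD.upd (fun _ => 22) 0 12) 2 3) 0 6) 0 3) 0 2)) :=
  BlkD.tree_sound (BlkD.pairOk_sound k22_22_12_3) (by decide) hn t22_22_12_3_2 _ _ (by decide +kernel)

/-- certificates of the pair `(12, 3)`, part 3 -/
def t22_22_12_3_3 : BlkD.Tr :=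
  .S 1 11 (.L 5 6 [4, 4, 22, 22] [] [] 100000 1 1 1733333 66667 26667 86667 40000 0 0 0) (.L 5 6
    [4, 4, 22, 22] [] [] 100000 1 1 1733333 66667 26667 86667 40000 0 0 0)

lemma s22_22_12_3_3 {n : ℕ} (hn : 5 ≤ n) : NoNd (d22_22_12_3.R : ℤ) d22_22_12_3.H n d22_22_12_3.a d22_22_12_3.b
    (BlkD.inB (BlkD.upd (BlkD.upd (fun _ => 0) 0 2) 0 3)
      (BlkD.upd (BlkD.upd (BlkD.upd (BlkD.upd (fun _ => 22) 0 12) 2 3) 0 6) 0 3)) :=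
  BlkD.tree_sound (BlkD.pairOk_sound k22_22_12_3) (by decide) hn t22_22_12_3_3 _ _ (by decide +kernel)

/-- certificates of the pair `(12, 3)`, part 4 -/
def t22_22_12_3_4 : BlkD.Tr :=
  .L 5 6 [4, 4, 22, 22] [] [] 100000 1 1 1733333 66667 26667 86667 40000 0 0 0

lemma s22_22_12_3_4 {n : ℕ} (hn : 5 ≤ n) : NoNd (d22_22_12_3.R : ℤ) d22_22_12_3.H n d22_22_12_3.a d22_22_12_3.b
    (BlkD.inB (BlkD.upd (fun _ => 0) 0 4)
      (BlkD.upd (BlkD.upd (BlkD.upd (BlkD.upd (BlkD.upd (fun _ => 22) 0 12) 2 3) 0 6) 0 5) 0 4)) :=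
  BlkD.tree_sound (BlkD.pairOk_sound k22_22_12_3) (by decide) hn t22_22_12_3_4 _ _ (by decide +kernel)

/-- certificates of the pair `(12, 3)`, part 5 -/
def t22_22_12_3_5 : BlkD.Tr :=
  .S 1 11 (.L 5 6 [4, 4, 22, 22] [] [] 100000 1 1 1733333 66667 26667 86667 40000 0 0 0) (.L 5 6
    [4, 4, 22, 22] [] [] 100000 1 1 1733333 66667 26667 86667 40000 0 0 0)

lemma s22_22_12_3_5 {n : ℕ} (hn : 5 ≤ n) : NoNd (d22_22_12_3.R : ℤ) d22_22_12_3.H n d22_22_12_3.a d22_22_12_3.b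
    (BlkD.inB (BlkD.upd (BlkD.upd (fun _ => 0) 0 4) 0 5)
      (BlkD.upd (BlkD.upd (BlkD.upd (BlkD.upd (fun _ => 22) 0 12) 2 3) 0 6) 0 5)) :=
  BlkD.tree_sound (BlkD.pairOk_sound k22_22_12_3) (by decide) hn t22_22_12_3_5 _ _ (by decide +kernel)

/-- certificates of the pair `(12, 3)`, part 6 -/
def t22_22_12_3_6 : BlkD.Tr :=
  .S 1 11 (.L 5 6 [4, 4, 22, 22] [] [] 100000 1 1 1733333 66667 26667 86667 40000 0 0 0) (.L 5 6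
    [4, 4, 22, 22] [] [] 100000 1 1 1733333 66667 26667 86667 40000 0 0 0)

lemma s22_22_12_3_6 {n : ℕ} (hn : 5 ≤ n) : NoNd (d22_22_12_3.R : ℤ) d22_22_12_3.H n d22_22_12_3.a d22_22_12_3.b
    (BlkD.inB (BlkD.upd (BlkD.upd (fun _ => 0) 0 4) 0 6)
      (BlkD.upd (BlkD.upd (BlkD.upd (fun _ => 22) 0 12) 2 3) 0 6)) :=
  BlkD.tree_sound (BlkD.pairOk_sound k22_22_12_3) (by decide) hn t22_22_12_3_6 _ _ (by decide +kernel)

/-- certificates of the pair `(12, 3)`, part 7 -/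
def t22_22_12_3_7 : BlkD.Tr :=
  .S 1 11 (.L 5 6 [4, 4, 22, 22] [] [] 100000 1 1 1733333 66667 26667 86667 40000 0 0 0) (.L 5 6
    [4, 4, 22, 22] [] [] 100000 1 1 1733333 66667 26667 86667 40000 0 0 0)

lemma s22_22_12_3_7 {n : ℕ} (hn : 5 ≤ n) : NoNd (d22_22_12_3.R : ℤ) d22_22_12_3.H n d22_22_12_3.a d22_22_12_3.b
    (BlkD.inB (BlkD.upd (fun _ => 0) 0 7)
      (BlkD.upd (BlkD.upd (BlkD.upd (BlkD.upd (BlkD.upd (fun _ => 22) 0 12) 2 3) 0 9) 0 8) 0 7)) :=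
  BlkD.tree_sound (BlkD.pairOk_sound k22_22_12_3) (by decide) hn t22_22_12_3_7 _ _ (by decide +kernel)

/-- certificates of the pair `(12, 3)`, part 8 -/
def t22_22_12_3_8 : BlkD.Tr :=
  .L 5 6 [4, 4, 22, 22] [] [] 100000 1 1 1733333 66667 26667 86667 40000 0 0 0

lemma s22_22_12_3_8 {n : ℕ} (hn : 5 ≤ n) : NoNd (d22_22_12_3.R : ℤ) d22_22_12_3.H n d22_22_12_3.a d22_22_12_3.b
    (BlkD.inB (BlkD.upd (BlkD.upd (fun _ => 0) 0 7) 0 8)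
      (BlkD.upd (BlkD.upd (BlkD.upd (BlkD.upd (fun _ => 22) 0 12) 2 3) 0 9) 0 8)) :=
  BlkD.tree_sound (BlkD.pairOk_sound k22_22_12_3) (by decide) hn t22_22_12_3_8 _ _ (by decide +kernel)

/-- certificates of the pair `(12, 3)`, part 9 -/
def t22_22_12_3_9 : BlkD.Tr :=
  .L 5 6 [4, 4, 22, 22] [] [] 100000 1 1 1733333 66667 26667 86667 40000 0 0 0

lemma s22_22_12_3_9 {n : ℕ} (hn : 5 ≤ n) : NoNd (d22_22_12_3.R : ℤ) d22_22_12_3.H n d22_22_12_3.a d22_22_12_3.b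
    (BlkD.inB (BlkD.upd (BlkD.upd (fun _ => 0) 0 7) 0 9)
      (BlkD.upd (BlkD.upd (BlkD.upd (fun _ => 22) 0 12) 2 3) 0 9)) :=
  BlkD.tree_sound (BlkD.pairOk_sound k22_22_12_3) (by decide) hn t22_22_12_3_9 _ _ (by decide +kernel)

/-- certificates of the pair `(12, 3)`, part 10 -/
def t22_22_12_3_10 : BlkD.Tr :=
  .S 0 11 (.S 0 10 (.L 5 6 [4, 4, 22, 22] [] [] 100000 1 1 1733333 66667 26667 86667 40000 0 0 0)
    (.L 5 6 [4, 4, 22, 22] [] [] 100000 1 1 1733333 66667 26667 86667 40000 0 0 0)) (.L 5 6 [4, 4,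
    22, 22] [] [] 100000 1 1 1733333 66667 26667 86667 40000 0 0 0)

lemma s22_22_12_3_10 {n : ℕ} (hn : 5 ≤ n) : NoNd (d22_22_12_3.R : ℤ) d22_22_12_3.H n d22_22_12_3.a d22_22_12_3.b
    (BlkD.inB (BlkD.upd (BlkD.upd (fun _ => 0) 0 7) 0 10)
      (BlkD.upd (BlkD.upd (fun _ => 22) 0 12) 2 3)) :=
  BlkD.tree_sound (BlkD.pairOk_sound k22_22_12_3) (by decide) hn t22_22_12_3_10 _ _ (by decide +kernel)

/-- certificates of the pair `(12, 3)`, part 11 -/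
def t22_22_12_3_11 : BlkD.Tr :=
  .E 1

lemma s22_22_12_3_11 {n : ℕ} (hn : 5 ≤ n) : NoNd (d22_22_12_3.R : ℤ) d22_22_12_3.H n d22_22_12_3.a d22_22_12_3.b
    (BlkD.inB (BlkD.upd (fun _ => 0) 2 4)
      (BlkD.upd (fun _ => 22) 0 12)) :=
  BlkD.tree_sound (BlkD.pairOk_sound k22_22_12_3) (by decide) hn t22_22_12_3_11 _ _ (by decide +kernel)

/-- certificates of the pair `(12, 3)`, part 12 -/
def t22_22_12_3_12 : BlkD.Tr :=
  .E 0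

lemma s22_22_12_3_12 {n : ℕ} (hn : 5 ≤ n) : NoNd (d22_22_12_3.R : ℤ) d22_22_12_3.H n d22_22_12_3.a d22_22_12_3.b
    (BlkD.inB (BlkD.upd (fun _ => 0) 0 13)
      (fun _ => 22)) :=
  BlkD.tree_sound (BlkD.pairOk_sound k22_22_12_3) (by decide) hn t22_22_12_3_12 _ _ (by decide +kernel)

lemma pr22_22_12_3 {n : ℕ} (hn : 5 ≤ n) : NoPr ((22 : ℕ) : ℤ) ((22 : ℕ) : ℤ) n 12 3 :=
  BlkD.of_root (R := d22_22_12_3.R) (H := d22_22_12_3.H) (a := d22_22_12_3.a) (b := d22_22_12_3.b) (q := 3) (by decide) hn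
    (BlkD.sp 0 12 (BlkD.sp 2 3 (BlkD.sp 0 6 (BlkD.sp 0 3 (BlkD.sp 0 1 (s22_22_12_3_1 hn) (BlkD.sp 0
      2 (s22_22_12_3_2 hn) (s22_22_12_3_3 hn))) (BlkD.sp 0 5 (BlkD.sp 0 4 (s22_22_12_3_4 hn)
      (s22_22_12_3_5 hn)) (s22_22_12_3_6 hn))) (BlkD.sp 0 9 (BlkD.sp 0 8 (BlkD.sp 0 7
      (s22_22_12_3_7 hn) (s22_22_12_3_8 hn)) (s22_22_12_3_9 hn)) (s22_22_12_3_10 hn)))
      (s22_22_12_3_11 hn)) (s22_22_12_3_12 hn))

/-- the numbers of the pair `(12, 4)`, `R = 22`, `H = 22` -/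
def d22_22_12_4 : BlkD.Pd :=
  ⟨22, 22, 3, 12, 4, 3, 0, 3, 0, 4, 4, 0, 0, 4, 4, 0, [0, 4, 8, 12], [0, 4, 8, 12], [⟨1, 1, 1, 4,
    8, [0, 4], [0, 4]⟩]⟩

lemma k22_22_12_4 : BlkD.pairOk d22_22_12_4 = true := by decide +kernel

/-- certificates of the pair `(12, 4)`, part 1 -/
def t22_22_12_4_1 : BlkD.Tr :=
  .L 4 4 [4, 22, 22, 22, 22] [] [] 100000 0 0 1800001 100000 33333 100000 66667 0 0 0

lemma s22_22_12_4_1 {n : ℕ} (hn : 5 ≤ n) : NoNd (d22_22_12_4.R : ℤ) d22_22_12_4.H n d22_22_12_4.a d22_22_12_4.b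
    (BlkD.inB (fun _ => 0)
      (BlkD.upd (BlkD.upd (BlkD.upd (BlkD.upd (BlkD.upd (fun _ => 22) 0 12) 2 4) 0 6) 0 3) 0 1)) :=
  BlkD.tree_sound (BlkD.pairOk_sound k22_22_12_4) (by decide) hn t22_22_12_4_1 _ _ (by decide +kernel)

/-- certificates of the pair `(12, 4)`, part 2 -/
def t22_22_12_4_2 : BlkD.Tr :=
  .S 0 2 (.L 4 4 [4, 22, 22, 22, 22] [] [] 100000 0 0 1800001 100000 33333 100000 66667 0 0 0) (.L
    4 4 [4, 22, 22, 22, 22] [] [] 100000 0 0 1800001 100000 33333 100000 66667 0 0 0)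

lemma s22_22_12_4_2 {n : ℕ} (hn : 5 ≤ n) : NoNd (d22_22_12_4.R : ℤ) d22_22_12_4.H n d22_22_12_4.a d22_22_12_4.b
    (BlkD.inB (BlkD.upd (fun _ => 0) 0 2)
      (BlkD.upd (BlkD.upd (BlkD.upd (BlkD.upd (fun _ => 22) 0 12) 2 4) 0 6) 0 3)) :=
  BlkD.tree_sound (BlkD.pairOk_sound k22_22_12_4) (by decide) hn t22_22_12_4_2 _ _ (by decide +kernel)

/-- certificates of the pair `(12, 4)`, part 3 -/
def t22_22_12_4_3 : BlkD.Tr :=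
  .L 4 4 [4, 22, 22, 22, 22] [] [] 100000 0 0 1800001 100000 33333 100000 66667 0 0 0

lemma s22_22_12_4_3 {n : ℕ} (hn : 5 ≤ n) : NoNd (d22_22_12_4.R : ℤ) d22_22_12_4.H n d22_22_12_4.a d22_22_12_4.b
    (BlkD.inB (BlkD.upd (fun _ => 0) 0 4)
      (BlkD.upd (BlkD.upd (BlkD.upd (BlkD.upd (BlkD.upd (fun _ => 22) 0 12) 2 4) 0 6) 0 5) 0 4)) :=
  BlkD.tree_sound (BlkD.pairOk_sound k22_22_12_4) (by decide) hn t22_22_12_4_3 _ _ (by decide +kernel)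

/-- certificates of the pair `(12, 4)`, part 4 -/
def t22_22_12_4_4 : BlkD.Tr :=
  .S 1 11 (.L 4 4 [4, 22, 22, 22, 22] [] [] 100000 0 0 1800001 100000 33333 100000 66667 0 0 0) (.L
    4 4 [4, 22, 22, 22, 22] [] [] 100000 0 0 1800001 100000 33333 100000 66667 0 0 0)

lemma s22_22_12_4_4 {n : ℕ} (hn : 5 ≤ n) : NoNd (d22_22_12_4.R : ℤ) d22_22_12_4.H n d22_22_12_4.a d22_22_12_4.b
    (BlkD.inB (BlkD.upd (BlkD.upd (fun _ => 0) 0 4) 0 5)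
      (BlkD.upd (BlkD.upd (BlkD.upd (BlkD.upd (fun _ => 22) 0 12) 2 4) 0 6) 0 5)) :=
  BlkD.tree_sound (BlkD.pairOk_sound k22_22_12_4) (by decide) hn t22_22_12_4_4 _ _ (by decide +kernel)

/-- certificates of the pair `(12, 4)`, part 5 -/
def t22_22_12_4_5 : BlkD.Tr :=
  .S 1 11 (.L 4 4 [4, 22, 22, 22, 22] [] [] 100000 0 0 1800001 100000 33333 100000 66667 0 0 0) (.L
    4 4 [4, 22, 22, 22, 22] [] [] 100000 0 0 1800001 100000 33333 100000 66667 0 0 0)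

lemma s22_22_12_4_5 {n : ℕ} (hn : 5 ≤ n) : NoNd (d22_22_12_4.R : ℤ) d22_22_12_4.H n d22_22_12_4.a d22_22_12_4.b
    (BlkD.inB (BlkD.upd (BlkD.upd (fun _ => 0) 0 4) 0 6)
      (BlkD.upd (BlkD.upd (BlkD.upd (fun _ => 22) 0 12) 2 4) 0 6)) :=
  BlkD.tree_sound (BlkD.pairOk_sound k22_22_12_4) (by decide) hn t22_22_12_4_5 _ _ (by decide +kernel)

/-- certificates of the pair `(12, 4)`, part 6 -/
def t22_22_12_4_6 : BlkD.Tr :=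
  .S 1 11 (.L 4 4 [4, 22, 22, 22, 22] [] [] 100000 0 0 1800001 100000 33333 100000 66667 0 0 0) (.L
    4 4 [4, 22, 22, 22, 22] [] [] 100000 0 0 1800001 100000 33333 100000 66667 0 0 0)

lemma s22_22_12_4_6 {n : ℕ} (hn : 5 ≤ n) : NoNd (d22_22_12_4.R : ℤ) d22_22_12_4.H n d22_22_12_4.a d22_22_12_4.b
    (BlkD.inB (BlkD.upd (fun _ => 0) 0 7)
      (BlkD.upd (BlkD.upd (BlkD.upd (BlkD.upd (BlkD.upd (fun _ => 22) 0 12) 2 4) 0 9) 0 8) 0 7)) :=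
  BlkD.tree_sound (BlkD.pairOk_sound k22_22_12_4) (by decide) hn t22_22_12_4_6 _ _ (by decide +kernel)

/-- certificates of the pair `(12, 4)`, part 7 -/
def t22_22_12_4_7 : BlkD.Tr :=
  .S 1 11 (.S 1 5 (.L 4 4 [4, 22, 22, 22, 22] [] [] 100000 0 0 1800001 100000 33333 100000 66667 0
    0 0) (.L 4 4 [4, 22, 22, 22, 22] [] [] 100000 0 0 1800001 100000 33333 100000 66667 0 0 0)) (.L
    4 4 [4, 22, 22, 22, 22] [] [] 100000 0 0 1800001 100000 33333 100000 66667 0 0 0)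

lemma s22_22_12_4_7 {n : ℕ} (hn : 5 ≤ n) : NoNd (d22_22_12_4.R : ℤ) d22_22_12_4.H n d22_22_12_4.a d22_22_12_4.b
    (BlkD.inB (BlkD.upd (BlkD.upd (fun _ => 0) 0 7) 0 8)
      (BlkD.upd (BlkD.upd (BlkD.upd (BlkD.upd (fun _ => 22) 0 12) 2 4) 0 9) 0 8)) :=
  BlkD.tree_sound (BlkD.pairOk_sound k22_22_12_4) (by decide) hn t22_22_12_4_7 _ _ (by decide +kernel)

/-- certificates of the pair `(12, 4)`, part 8 -/
def t22_22_12_4_8 : BlkD.Tr :=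
  .S 1 11 (.S 1 5 (.L 4 4 [4, 22, 22, 22, 22] [] [] 100000 0 0 1800001 100000 33333 100000 66667 0
    0 0) (.L 4 4 [4, 22, 22, 22, 22] [] [] 100000 0 0 1800001 100000 33333 100000 66667 0 0 0)) (.L
    4 4 [4, 22, 22, 22, 22] [] [] 100000 0 0 1800001 100000 33333 100000 66667 0 0 0)

lemma s22_22_12_4_8 {n : ℕ} (hn : 5 ≤ n) : NoNd (d22_22_12_4.R : ℤ) d22_22_12_4.H n d22_22_12_4.a d22_22_12_4.b
    (BlkD.inB (BlkD.upd (BlkD.upd (fun _ => 0) 0 7) 0 9)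
      (BlkD.upd (BlkD.upd (BlkD.upd (fun _ => 22) 0 12) 2 4) 0 9)) :=
  BlkD.tree_sound (BlkD.pairOk_sound k22_22_12_4) (by decide) hn t22_22_12_4_8 _ _ (by decide +kernel)

/-- certificates of the pair `(12, 4)`, part 9 -/
def t22_22_12_4_9 : BlkD.Tr :=
  .S 0 11 (.S 0 10 (.L 4 4 [4, 22, 22, 22, 22] [] [] 100000 0 0 1800001 100000 33333 100000 66667 0
    0 0) (.L 4 4 [4, 22, 22, 22, 22] [] [] 100000 0 0 1800001 100000 33333 100000 66667 0 0 0)) (.L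
    4 4 [4, 22, 22, 22, 22] [] [] 100000 0 0 1800001 100000 33333 100000 66667 0 0 0)

lemma s22_22_12_4_9 {n : ℕ} (hn : 5 ≤ n) : NoNd (d22_22_12_4.R : ℤ) d22_22_12_4.H n d22_22_12_4.a d22_22_12_4.b
    (BlkD.inB (BlkD.upd (BlkD.upd (fun _ => 0) 0 7) 0 10)
      (BlkD.upd (BlkD.upd (fun _ => 22) 0 12) 2 4)) :=
  BlkD.tree_sound (BlkD.pairOk_sound k22_22_12_4) (by decide) hn t22_22_12_4_9 _ _ (by decide +kernel)

/-- certificates of the pair `(12, 4)`, part 10 -/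
def t22_22_12_4_10 : BlkD.Tr :=
  .E 1

lemma s22_22_12_4_10 {n : ℕ} (hn : 5 ≤ n) : NoNd (d22_22_12_4.R : ℤ) d22_22_12_4.H n d22_22_12_4.a d22_22_12_4.b
    (BlkD.inB (BlkD.upd (fun _ => 0) 2 5)
      (BlkD.upd (fun _ => 22) 0 12)) :=
  BlkD.tree_sound (BlkD.pairOk_sound k22_22_12_4) (by decide) hn t22_22_12_4_10 _ _ (by decide +kernel)

/-- certificates of the pair `(12, 4)`, part 11 -/
def t22_22_12_4_11 : BlkD.Tr :=
  .E 0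

lemma s22_22_12_4_11 {n : ℕ} (hn : 5 ≤ n) : NoNd (d22_22_12_4.R : ℤ) d22_22_12_4.H n d22_22_12_4.a d22_22_12_4.b
    (BlkD.inB (BlkD.upd (fun _ => 0) 0 13)
      (fun _ => 22)) :=
  BlkD.tree_sound (BlkD.pairOk_sound k22_22_12_4) (by decide) hn t22_22_12_4_11 _ _ (by decide +kernel)

lemma pr22_22_12_4 {n : ℕ} (hn : 5 ≤ n) : NoPr ((22 : ℕ) : ℤ) ((22 : ℕ) : ℤ) n 12 4 :=
  BlkD.of_root (R := d22_22_12_4.R) (H := d22_22_12_4.H) (a := d22_22_12_4.a) (b := d22_22_12_4.b) (q := 3) (by decide) hn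
    (BlkD.sp 0 12 (BlkD.sp 2 4 (BlkD.sp 0 6 (BlkD.sp 0 3 (BlkD.sp 0 1 (s22_22_12_4_1 hn)
      (s22_22_12_4_2 hn)) (BlkD.sp 0 5 (BlkD.sp 0 4 (s22_22_12_4_3 hn) (s22_22_12_4_4 hn))
      (s22_22_12_4_5 hn))) (BlkD.sp 0 9 (BlkD.sp 0 8 (BlkD.sp 0 7 (s22_22_12_4_6 hn) (s22_22_12_4_7
      hn)) (s22_22_12_4_8 hn)) (s22_22_12_4_9 hn))) (s22_22_12_4_10 hn)) (s22_22_12_4_11 hn))

end BlkC

end Pool.Agent.Lib.MP_f04ccf_co
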