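import Pool.Agent.Lib.MP_f04ccf_co.M.BlkT

/-!
MP_f04ccf_co, block certificate, data `R = 22`, `H = 22`, part 3 (generated, helper99:
bd10.cpp, gen2.py).
-/

set_option autoImplicit false
set_option maxRecDepth 100000

namespace Pool.Agent.Lib.MP_f04ccf_co

namespace BlkC

/-- the numbers of the pair `(7, 0)`, `R = 22`, `H = 22` -/
def d22_22_7_0 : BlkD.Pd :=
  ⟨22, 22, 3, 7, 0, 12, 0, 1, 0, 4, 4, 0, 0, 4, 4, 0, [0, 4, 8, 12, 16, 20, 24, 28, 32, 36, 40, 44,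
    48], [0, 4, 8, 12, 16, 20, 24, 28, 32, 36, 40, 44, 48], [⟨1, 1, 1, 4, 8, [0, 4], [0, 4]⟩]⟩

/-- the certificates of the pair `(7, 0)` -/
def t22_22_7_0 : BlkD.Tr :=
  .S 0 7 (.S 2 0 (.L 4 4 [4] [] [] 100000 0 0 800000 50000 0 50000 50000 0 0 0) (.E 1)) (.E 0)

lemma pr22_22_7_0 {n : ℕ} (hn : 5 ≤ n) : NoPr ((22 : ℕ) : ℤ) ((22 : ℕ) : ℤ) n 7 0 :=
  BlkD.pair_sound (d := d22_22_7_0) (by decide +kernel) hn (by decide) (tr := t22_22_7_0)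
    (by decide +kernel) rfl rfl rfl rfl

/-- the numbers of the pair `(7, 1)`, `R = 22`, `H = 22` -/
def d22_22_7_1 : BlkD.Pd :=
  ⟨22, 22, 3, 7, 1, 11, 1, 1, 2, 2, 6, 0, 0, 4, 4, 0, [0, 6, 12, 18, 24, 30, 34, 36, 38, 40, 42,
    44], [0, 4, 8, 12, 16, 20, 24, 28, 32, 36, 40, 44], [⟨1, 1, 1, 4, 8, [0, 4], [0, 4]⟩, ⟨1, 1, 1,
    4, 10, [0, 6], [0, 4]⟩]⟩

lemma k22_22_7_1 : BlkD.pairOk d22_22_7_1 = true := by decide +kernel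

/-- certificates of the pair `(7, 1)`, part 1 -/
def t22_22_7_1_1 : BlkD.Tr :=
  .S 0 1 (.L 4 5 [4, 4] [] [] 100000 0 0 950000 50000 0 50000 0 0 0 0) (.L 4 5 [4, 4] [] [] 100000
    0 0 950000 50000 0 50000 0 0 0 0)

lemma s22_22_7_1_1 {n : ℕ} (hn : 5 ≤ n) : NoNd (d22_22_7_1.R : ℤ) d22_22_7_1.H n d22_22_7_1.a d22_22_7_1.b
    (BlkD.inB (fun _ => 0)
      (BlkD.upd (BlkD.upd (BlkD.upd (fun _ => 22) 0 7) 2 1) 0 3)) :=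
  BlkD.tree_sound (BlkD.pairOk_sound k22_22_7_1) (by decide) hn t22_22_7_1_1 _ _ (by decide +kernel)

/-- certificates of the pair `(7, 1)`, part 2 -/
def t22_22_7_1_2 : BlkD.Tr :=
  .L 4 5 [4, 4] [] [] 100000 0 0 950000 50000 0 50000 0 0 0 0

lemma s22_22_7_1_2 {n : ℕ} (hn : 5 ≤ n) : NoNd (d22_22_7_1.R : ℤ) d22_22_7_1.H n d22_22_7_1.a d22_22_7_1.b
    (BlkD.inB (BlkD.upd (fun _ => 0) 0 4)
      (BlkD.upd (BlkD.upd (fun _ => 22) 0 7) 2 1)) :=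
  BlkD.tree_sound (BlkD.pairOk_sound k22_22_7_1) (by decide) hn t22_22_7_1_2 _ _ (by decide +kernel)

/-- certificates of the pair `(7, 1)`, part 3 -/
def t22_22_7_1_3 : BlkD.Tr :=
  .E 1

lemma s22_22_7_1_3 {n : ℕ} (hn : 5 ≤ n) : NoNd (d22_22_7_1.R : ℤ) d22_22_7_1.H n d22_22_7_1.a d22_22_7_1.b
    (BlkD.inB (BlkD.upd (fun _ => 0) 2 2)
      (BlkD.upd (fun _ => 22) 0 7)) :=
  BlkD.tree_sound (BlkD.pairOk_sound k22_22_7_1) (by decide) hn t22_22_7_1_3 _ _ (by decide +kernel)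

/-- certificates of the pair `(7, 1)`, part 4 -/
def t22_22_7_1_4 : BlkD.Tr :=
  .E 0

lemma s22_22_7_1_4 {n : ℕ} (hn : 5 ≤ n) : NoNd (d22_22_7_1.R : ℤ) d22_22_7_1.H n d22_22_7_1.a d22_22_7_1.b
    (BlkD.inB (BlkD.upd (fun _ => 0) 0 8)
      (fun _ => 22)) :=
  BlkD.tree_sound (BlkD.pairOk_sound k22_22_7_1) (by decide) hn t22_22_7_1_4 _ _ (by decide +kernel)

lemma pr22_22_7_1 {n : ℕ} (hn : 5 ≤ n) : NoPr ((22 : ℕ) : ℤ) ((22 : ℕ) : ℤ) n 7 1 :=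
  BlkD.of_root (R := d22_22_7_1.R) (H := d22_22_7_1.H) (a := d22_22_7_1.a) (b := d22_22_7_1.b) (q := 3) (by decide) hn
    (BlkD.sp 0 7 (BlkD.sp 2 1 (BlkD.sp 0 3 (s22_22_7_1_1 hn) (s22_22_7_1_2 hn)) (s22_22_7_1_3 hn))
      (s22_22_7_1_4 hn))

/-- the numbers of the pair `(7, 2)`, `R = 22`, `H = 22` -/
def d22_22_7_2 : BlkD.Pd :=
  ⟨22, 22, 3, 7, 2, 10, 2, 1, 2, 2, 8, 0, 0, 4, 6, 0, [0, 8, 16, 24, 28, 30, 32, 34, 36, 38, 40],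
    [0, 6, 12, 18, 24, 30, 36, 40, 40, 40, 40], [⟨1, 1, 1, 4, 8, [0, 4], [0, 4]⟩, ⟨1, 1, 1, 4, 10,
    [0, 6], [0, 4]⟩, ⟨1, 1, 1, 6, 14, [0, 8], [0, 6]⟩]⟩

lemma k22_22_7_2 : BlkD.pairOk d22_22_7_2 = true := by decide +kernel

/-- certificates of the pair `(7, 2)`, part 1 -/
def t22_22_7_2_1 : BlkD.Tr :=
  .S 0 0 (.L 4 6 [4, 4, 5] [] [] 100000 0 0 1100000 25000 0 50000 0 0 25000 25000) (.L 4 6 [4, 4,
    5] [] [] 100000 0 0 1100000 25000 0 50000 0 0 25000 25000)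

lemma s22_22_7_2_1 {n : ℕ} (hn : 5 ≤ n) : NoNd (d22_22_7_2.R : ℤ) d22_22_7_2.H n d22_22_7_2.a d22_22_7_2.b
    (BlkD.inB (fun _ => 0)
      (BlkD.upd (BlkD.upd (BlkD.upd (BlkD.upd (fun _ => 22) 0 7) 2 2) 0 3) 0 1)) :=
  BlkD.tree_sound (BlkD.pairOk_sound k22_22_7_2) (by decide) hn t22_22_7_2_1 _ _ (by decide +kernel)

/-- certificates of the pair `(7, 2)`, part 2 -/
def t22_22_7_2_2 : BlkD.Tr :=
  .S 0 2 (.L 4 6 [4, 4, 5] [] [] 100000 0 0 1100000 25000 0 50000 0 0 25000 25000) (.L 4 6 [4, 4,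
    5] [] [] 100000 0 0 1100000 25000 0 50000 0 0 25000 25000)

lemma s22_22_7_2_2 {n : ℕ} (hn : 5 ≤ n) : NoNd (d22_22_7_2.R : ℤ) d22_22_7_2.H n d22_22_7_2.a d22_22_7_2.b
    (BlkD.inB (BlkD.upd (fun _ => 0) 0 2)
      (BlkD.upd (BlkD.upd (BlkD.upd (fun _ => 22) 0 7) 2 2) 0 3)) :=
  BlkD.tree_sound (BlkD.pairOk_sound k22_22_7_2) (by decide) hn t22_22_7_2_2 _ _ (by decide +kernel)

/-- certificates of the pair `(7, 2)`, part 3 -/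
def t22_22_7_2_3 : BlkD.Tr :=
  .L 4 6 [4, 4, 5] [] [] 100000 0 0 1100000 25000 0 50000 0 0 25000 25000

lemma s22_22_7_2_3 {n : ℕ} (hn : 5 ≤ n) : NoNd (d22_22_7_2.R : ℤ) d22_22_7_2.H n d22_22_7_2.a d22_22_7_2.b
    (BlkD.inB (BlkD.upd (fun _ => 0) 0 4)
      (BlkD.upd (BlkD.upd (fun _ => 22) 0 7) 2 2)) :=
  BlkD.tree_sound (BlkD.pairOk_sound k22_22_7_2) (by decide) hn t22_22_7_2_3 _ _ (by decide +kernel)

/-- certificates of the pair `(7, 2)`, part 4 -/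
def t22_22_7_2_4 : BlkD.Tr :=
  .E 1

lemma s22_22_7_2_4 {n : ℕ} (hn : 5 ≤ n) : NoNd (d22_22_7_2.R : ℤ) d22_22_7_2.H n d22_22_7_2.a d22_22_7_2.b
    (BlkD.inB (BlkD.upd (fun _ => 0) 2 3)
      (BlkD.upd (fun _ => 22) 0 7)) :=
  BlkD.tree_sound (BlkD.pairOk_sound k22_22_7_2) (by decide) hn t22_22_7_2_4 _ _ (by decide +kernel)

/-- certificates of the pair `(7, 2)`, part 5 -/
def t22_22_7_2_5 : BlkD.Tr :=
  .E 0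

lemma s22_22_7_2_5 {n : ℕ} (hn : 5 ≤ n) : NoNd (d22_22_7_2.R : ℤ) d22_22_7_2.H n d22_22_7_2.a d22_22_7_2.b
    (BlkD.inB (BlkD.upd (fun _ => 0) 0 8)
      (fun _ => 22)) :=
  BlkD.tree_sound (BlkD.pairOk_sound k22_22_7_2) (by decide) hn t22_22_7_2_5 _ _ (by decide +kernel)

lemma pr22_22_7_2 {n : ℕ} (hn : 5 ≤ n) : NoPr ((22 : ℕ) : ℤ) ((22 : ℕ) : ℤ) n 7 2 :=
  BlkD.of_root (R := d22_22_7_2.R) (H := d22_22_7_2.H) (a := d22_22_7_2.a) (b := d22_22_7_2.b) (q := 3) (by decide) hn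
    (BlkD.sp 0 7 (BlkD.sp 2 2 (BlkD.sp 0 3 (BlkD.sp 0 1 (s22_22_7_2_1 hn) (s22_22_7_2_2 hn))
      (s22_22_7_2_3 hn)) (s22_22_7_2_4 hn)) (s22_22_7_2_5 hn))

/-- the numbers of the pair `(7, 3)`, `R = 22`, `H = 22` -/
def d22_22_7_3 : BlkD.Pd :=
  ⟨22, 22, 3, 7, 3, 9, 3, 2, 1, 3, 10, 0, 4, 1, 8, 0, [0, 10, 20, 30, 31, 32, 33, 34, 35, 36], [0,
    8, 16, 21, 25, 29, 33, 37, 41, 45], [⟨1, 1, 1, 4, 8, [0, 4], [0, 4]⟩, ⟨1, 1, 1, 6, 12, [0, 6],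
    [0, 6]⟩, ⟨1, 1, 1, 6, 14, [0, 8], [0, 6]⟩, ⟨2, 1, 1, 8, 22, [0, 10, 14], [0, 8]⟩]⟩

lemma k22_22_7_3 : BlkD.pairOk d22_22_7_3 = true := by decide +kernel

/-- certificates of the pair `(7, 3)`, part 1 -/
def t22_22_7_3_1 : BlkD.Tr :=
  .L 5 7 [4, 4, 5, 5] [] [] 100000 66666 66664 600000 100000 0 100000 0 0 0 0

lemma s22_22_7_3_1 {n : ℕ} (hn : 5 ≤ n) : NoNd (d22_22_7_3.R : ℤ) d22_22_7_3.H n d22_22_7_3.a d22_22_7_3.b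
    (BlkD.inB (fun _ => 0)
      (BlkD.upd (BlkD.upd (BlkD.upd (BlkD.upd (BlkD.upd (fun _ => 22) 0 7) 2 3) 0 3) 0 1) 0 0)) :=
  BlkD.tree_sound (BlkD.pairOk_sound k22_22_7_3) (by decide) hn t22_22_7_3_1 _ _ (by decide +kernel)

/-- certificates of the pair `(7, 3)`, part 2 -/
def t22_22_7_3_2 : BlkD.Tr :=
  .L 5 7 [4, 4, 5, 5] [] [] 100000 66666 66664 600000 100000 0 100000 0 0 0 0

lemma s22_22_7_3_2 {n : ℕ} (hn : 5 ≤ n) : NoNd (d22_22_7_3.R : ℤ) d22_22_7_3.H n d22_22_7_3.a d22_22_7_3.b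
    (BlkD.inB (BlkD.upd (fun _ => 0) 0 1)
      (BlkD.upd (BlkD.upd (BlkD.upd (BlkD.upd (BlkD.upd (BlkD.upd (fun _ => 22) 0 7) 2 3) 0 3) 0 1) 1 11) 1 5)) :=
  BlkD.tree_sound (BlkD.pairOk_sound k22_22_7_3) (by decide) hn t22_22_7_3_2 _ _ (by decide +kernel)

/-- certificates of the pair `(7, 3)`, part 3 -/
def t22_22_7_3_3 : BlkD.Tr :=
  .S 1 8 (.L 5 7 [4, 4, 5, 5] [] [] 100000 66666 66664 600000 100000 0 100000 0 0 0 0) (.L 5 7 [4,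
    4, 5, 5] [] [] 100000 66666 66664 600000 100000 0 100000 0 0 0 0)

lemma s22_22_7_3_3 {n : ℕ} (hn : 5 ≤ n) : NoNd (d22_22_7_3.R : ℤ) d22_22_7_3.H n d22_22_7_3.a d22_22_7_3.b
    (BlkD.inB (BlkD.upd (BlkD.upd (fun _ => 0) 0 1) 1 6)
      (BlkD.upd (BlkD.upd (BlkD.upd (BlkD.upd (BlkD.upd (fun _ => 22) 0 7) 2 3) 0 3) 0 1) 1 11)) :=
  BlkD.tree_sound (BlkD.pairOk_sound k22_22_7_3) (by decide) hn t22_22_7_3_3 _ _ (by decide +kernel)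

/-- certificates of the pair `(7, 3)`, part 4 -/
def t22_22_7_3_4 : BlkD.Tr :=
  .L 5 7 [4, 4, 5, 5] [] [] 100000 66666 66664 600000 100000 0 100000 0 0 0 0

lemma s22_22_7_3_4 {n : ℕ} (hn : 5 ≤ n) : NoNd (d22_22_7_3.R : ℤ) d22_22_7_3.H n d22_22_7_3.a d22_22_7_3.b
    (BlkD.inB (BlkD.upd (BlkD.upd (fun _ => 0) 0 1) 1 12)
      (BlkD.upd (BlkD.upd (BlkD.upd (BlkD.upd (fun _ => 22) 0 7) 2 3) 0 3) 0 1)) :=
  BlkD.tree_sound (BlkD.pairOk_sound k22_22_7_3) (by decide) hn t22_22_7_3_4 _ _ (by decide +kernel)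

/-- certificates of the pair `(7, 3)`, part 5 -/
def t22_22_7_3_5 : BlkD.Tr :=
  .S 1 11 (.S 1 5 (.L 5 7 [4, 4, 5, 5] [] [] 100000 11639 11637 1177264 27842 0 51895 36079 7386
    20959 36736) (.L 5 7 [4, 4, 5, 5] [] [] 100000 11639 11637 1177264 27842 0 51895 36079 7386
    20959 36736)) (.L 5 7 [4, 4, 5, 5] [] [] 100000 11639 11637 1177264 27842 0 51895 36079 7386
    20959 36736)

lemma s22_22_7_3_5 {n : ℕ} (hn : 5 ≤ n) : NoNd (d22_22_7_3.R : ℤ) d22_22_7_3.H n d22_22_7_3.a d22_22_7_3.b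
    (BlkD.inB (BlkD.upd (fun _ => 0) 0 2)
      (BlkD.upd (BlkD.upd (BlkD.upd (BlkD.upd (fun _ => 22) 0 7) 2 3) 0 3) 0 2)) :=
  BlkD.tree_sound (BlkD.pairOk_sound k22_22_7_3) (by decide) hn t22_22_7_3_5 _ _ (by decide +kernel)

/-- certificates of the pair `(7, 3)`, part 6 -/
def t22_22_7_3_6 : BlkD.Tr :=
  .S 1 11 (.S 1 5 (.L 5 7 [4, 4, 5, 5] [] [] 100000 9768 9766 1233626 17196 0 63198 31599 9200
    27869 33627) (.L 5 7 [4, 4, 5, 5] [] [] 100000 9768 9766 1233626 17196 0 63198 31599 9200 27869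
    33627)) (.L 5 7 [4, 4, 5, 5] [] [] 100000 9768 9766 1233626 17196 0 63198 31599 9200 27869
    33627)

lemma s22_22_7_3_6 {n : ℕ} (hn : 5 ≤ n) : NoNd (d22_22_7_3.R : ℤ) d22_22_7_3.H n d22_22_7_3.a d22_22_7_3.b
    (BlkD.inB (BlkD.upd (BlkD.upd (fun _ => 0) 0 2) 0 3)
      (BlkD.upd (BlkD.upd (BlkD.upd (fun _ => 22) 0 7) 2 3) 0 3)) :=
  BlkD.tree_sound (BlkD.pairOk_sound k22_22_7_3) (by decide) hn t22_22_7_3_6 _ _ (by decide +kernel)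

/-- certificates of the pair `(7, 3)`, part 7 -/
def t22_22_7_3_7 : BlkD.Tr :=
  .S 0 4 (.S 1 18 (.S 1 9 (.S 1 4 (.L 5 7 [4, 4, 5, 5] [] [] 100000 11111 11110 1125000 25000 0
    25000 37500 0 33333 33333) (.S 1 7 (.L 5 7 [4, 4, 5, 5] [] [] 100000 8245 8243 1245097 14460 0
    82605 34041 17395 27233 30637) (.E 0))) (.E 0)) (.E 0)) (.L 5 7 [4, 4, 5, 5] [] [] 100000 0 0
    1284893 3777 0 51889 27833 16457 37420 46123)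

lemma s22_22_7_3_7 {n : ℕ} (hn : 5 ≤ n) : NoNd (d22_22_7_3.R : ℤ) d22_22_7_3.H n d22_22_7_3.a d22_22_7_3.b
    (BlkD.inB (BlkD.upd (fun _ => 0) 0 4)
      (BlkD.upd (BlkD.upd (BlkD.upd (fun _ => 22) 0 7) 2 3) 0 5)) :=
  BlkD.tree_sound (BlkD.pairOk_sound k22_22_7_3) (by decide) hn t22_22_7_3_7 _ _ (by decide +kernel)

/-- certificates of the pair `(7, 3)`, part 8 -/
def t22_22_7_3_8 : BlkD.Tr :=
  .L 5 7 [4, 4, 5, 5] [] [] 100000 240 239 1222222 0 0 77778 38889 22222 35802 41255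

lemma s22_22_7_3_8 {n : ℕ} (hn : 5 ≤ n) : NoNd (d22_22_7_3.R : ℤ) d22_22_7_3.H n d22_22_7_3.a d22_22_7_3.b
    (BlkD.inB (BlkD.upd (BlkD.upd (fun _ => 0) 0 4) 0 6)
      (BlkD.upd (BlkD.upd (fun _ => 22) 0 7) 2 3)) :=
  BlkD.tree_sound (BlkD.pairOk_sound k22_22_7_3) (by decide) hn t22_22_7_3_8 _ _ (by decide +kernel)

/-- certificates of the pair `(7, 3)`, part 9 -/
def t22_22_7_3_9 : BlkD.Tr :=
  .E 1

lemma s22_22_7_3_9 {n : ℕ} (hn : 5 ≤ n) : NoNd (d22_22_7_3.R : ℤ) d22_22_7_3.H n d22_22_7_3.a d22_22_7_3.b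
    (BlkD.inB (BlkD.upd (fun _ => 0) 2 4)
      (BlkD.upd (fun _ => 22) 0 7)) :=
  BlkD.tree_sound (BlkD.pairOk_sound k22_22_7_3) (by decide) hn t22_22_7_3_9 _ _ (by decide +kernel)

/-- certificates of the pair `(7, 3)`, part 10 -/
def t22_22_7_3_10 : BlkD.Tr :=
  .E 0

lemma s22_22_7_3_10 {n : ℕ} (hn : 5 ≤ n) : NoNd (d22_22_7_3.R : ℤ) d22_22_7_3.H n d22_22_7_3.a d22_22_7_3.b
    (BlkD.inB (BlkD.upd (fun _ => 0) 0 8)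
      (fun _ => 22)) :=
  BlkD.tree_sound (BlkD.pairOk_sound k22_22_7_3) (by decide) hn t22_22_7_3_10 _ _ (by decide +kernel)

lemma pr22_22_7_3 {n : ℕ} (hn : 5 ≤ n) : NoPr ((22 : ℕ) : ℤ) ((22 : ℕ) : ℤ) n 7 3 :=
  BlkD.of_root (R := d22_22_7_3.R) (H := d22_22_7_3.H) (a := d22_22_7_3.a) (b := d22_22_7_3.b) (q := 3) (by decide) hn
    (BlkD.sp 0 7 (BlkD.sp 2 3 (BlkD.sp 0 3 (BlkD.sp 0 1 (BlkD.sp 0 0 (s22_22_7_3_1 hn) (BlkD.sp 1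
      11 (BlkD.sp 1 5 (s22_22_7_3_2 hn) (s22_22_7_3_3 hn)) (s22_22_7_3_4 hn))) (BlkD.sp 0 2
      (s22_22_7_3_5 hn) (s22_22_7_3_6 hn))) (BlkD.sp 0 5 (s22_22_7_3_7 hn) (s22_22_7_3_8 hn)))
      (s22_22_7_3_9 hn)) (s22_22_7_3_10 hn))

end BlkC

end Pool.Agent.Lib.MP_f04ccf_co
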