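import Pool.Agent.Lib.MP_f04ccf_co.M.BlkT

/-!
MP_f04ccf_co, block certificate, data `R = 22`, `H = 22`, part 4 (generated, helper99:
bd10.cpp, gen2.py).
-/

set_option autoImplicit false
set_option maxRecDepth 100000

namespace Pool.Agent.Lib.MP_f04ccf_co

namespace BlkC

/-- the numbers of the pair `(7, 4)`, `R = 22`, `H = 22` -/
def d22_22_7_4 : BlkD.Pd :=
  ⟨22, 22, 3, 7, 4, 8, 4, 2, 1, 4, 12, 0, 2, 2, 10, 0, [0, 12, 24, 35, 36, 37, 38, 39, 40], [0, 10,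
    20, 22, 24, 26, 28, 30, 32], [⟨1, 1, 1, 4, 8, [0, 4], [0, 4]⟩, ⟨1, 1, 1, 6, 12, [0, 6], [0,
    6]⟩, ⟨1, 1, 1, 6, 16, [0, 8], [0, 8]⟩, ⟨2, 1, 1, 6, 22, [0, 10, 14], [0, 8]⟩, ⟨2, 1, 1, 6, 32,
    [0, 12, 22], [0, 10]⟩]⟩

lemma k22_22_7_4 : BlkD.pairOk d22_22_7_4 = true := by decide +kernel

/-- certificates of the pair `(7, 4)`, part 1 -/
def t22_22_7_4_1 : BlkD.Tr :=
  .L 5 7 [4, 4, 5, 5, 6] [] [] 100000 95833 95832 700000 100000 0 100000 100000 0 0 6250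

lemma s22_22_7_4_1 {n : ℕ} (hn : 5 ≤ n) : NoNd (d22_22_7_4.R : ℤ) d22_22_7_4.H n d22_22_7_4.a d22_22_7_4.b
    (BlkD.inB (fun _ => 0)
      (BlkD.upd (BlkD.upd (BlkD.upd (BlkD.upd (BlkD.upd (fun _ => 22) 0 7) 2 4) 0 3) 0 1) 0 0)) :=
  BlkD.tree_sound (BlkD.pairOk_sound k22_22_7_4) (by decide) hn t22_22_7_4_1 _ _ (by decide +kernel)

/-- certificates of the pair `(7, 4)`, part 2 -/
def t22_22_7_4_2 : BlkD.Tr :=
  .L 5 7 [4, 4, 5, 5, 6] [] [] 100000 95833 95832 700000 100000 0 100000 100000 0 0 6250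

lemma s22_22_7_4_2 {n : ℕ} (hn : 5 ≤ n) : NoNd (d22_22_7_4.R : ℤ) d22_22_7_4.H n d22_22_7_4.a d22_22_7_4.b
    (BlkD.inB (BlkD.upd (fun _ => 0) 0 1)
      (BlkD.upd (BlkD.upd (BlkD.upd (BlkD.upd (BlkD.upd (BlkD.upd (fun _ => 22) 0 7) 2 4) 0 3) 0 1) 1 11) 1 5)) :=
  BlkD.tree_sound (BlkD.pairOk_sound k22_22_7_4) (by decide) hn t22_22_7_4_2 _ _ (by decide +kernel)

/-- certificates of the pair `(7, 4)`, part 3 -/
def t22_22_7_4_3 : BlkD.Tr :=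
  .S 1 8 (.L 5 7 [4, 4, 5, 5, 6] [] [] 100000 95833 95832 700000 100000 0 100000 100000 0 0 6250)
    (.L 5 7 [4, 4, 5, 5, 6] [] [] 100000 95833 95832 700000 100000 0 100000 100000 0 0 6250)

lemma s22_22_7_4_3 {n : ℕ} (hn : 5 ≤ n) : NoNd (d22_22_7_4.R : ℤ) d22_22_7_4.H n d22_22_7_4.a d22_22_7_4.b
    (BlkD.inB (BlkD.upd (BlkD.upd (fun _ => 0) 0 1) 1 6)
      (BlkD.upd (BlkD.upd (BlkD.upd (BlkD.upd (BlkD.upd (fun _ => 22) 0 7) 2 4) 0 3) 0 1) 1 11)) :=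
  BlkD.tree_sound (BlkD.pairOk_sound k22_22_7_4) (by decide) hn t22_22_7_4_3 _ _ (by decide +kernel)

/-- certificates of the pair `(7, 4)`, part 4 -/
def t22_22_7_4_4 : BlkD.Tr :=
  .L 5 7 [4, 4, 5, 5, 6] [] [] 100000 95833 95832 700000 100000 0 100000 100000 0 0 6250

lemma s22_22_7_4_4 {n : ℕ} (hn : 5 ≤ n) : NoNd (d22_22_7_4.R : ℤ) d22_22_7_4.H n d22_22_7_4.a d22_22_7_4.b
    (BlkD.inB (BlkD.upd (BlkD.upd (fun _ => 0) 0 1) 1 12)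
      (BlkD.upd (BlkD.upd (BlkD.upd (BlkD.upd (fun _ => 22) 0 7) 2 4) 0 3) 0 1)) :=
  BlkD.tree_sound (BlkD.pairOk_sound k22_22_7_4) (by decide) hn t22_22_7_4_4 _ _ (by decide +kernel)

/-- certificates of the pair `(7, 4)`, part 5 -/
def t22_22_7_4_5 : BlkD.Tr :=
  .L 5 7 [4, 4, 5, 5, 6] [] [] 100000 25000 25000 1219120 16176 0 16176 25000 0 29412 35294

lemma s22_22_7_4_5 {n : ℕ} (hn : 5 ≤ n) : NoNd (d22_22_7_4.R : ℤ) d22_22_7_4.H n d22_22_7_4.a d22_22_7_4.b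
    (BlkD.inB (BlkD.upd (fun _ => 0) 0 2)
      (BlkD.upd (BlkD.upd (BlkD.upd (BlkD.upd (BlkD.upd (BlkD.upd (BlkD.upd (fun _ => 22) 0 7) 2 4) 0 3) 0 2) 1 20) 1 10) 1 5)) :=
  BlkD.tree_sound (BlkD.pairOk_sound k22_22_7_4) (by decide) hn t22_22_7_4_5 _ _ (by decide +kernel)

/-- certificates of the pair `(7, 4)`, part 6 -/
def t22_22_7_4_6 : BlkD.Tr :=
  .S 1 7 (.S 1 6 (.L 6 8 [4, 4, 5, 5, 5] [112, 111, 101, 90, 78, 66] [] 100000 44792 44792 1150002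
    41667 0 41667 41667 0 16667 29167) (.L 6 8 [4, 4, 5, 5, 5] [129, 128, 127, 117, 106, 94] []
    100000 40217 40216 1195653 43478 0 52174 34783 0 17391 26087)) (.L 6 8 [4, 4, 5, 5, 5] [148,
    147, 146, 145, 135, 124] [] 100000 42361 42360 1165278 50000 0 67361 34722 0 12500 23611)

lemma s22_22_7_4_6 {n : ℕ} (hn : 5 ≤ n) : NoNd (d22_22_7_4.R : ℤ) d22_22_7_4.H n d22_22_7_4.a d22_22_7_4.b
    (BlkD.inB (BlkD.upd (BlkD.upd (fun _ => 0) 0 2) 1 6)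
      (BlkD.upd (BlkD.upd (BlkD.upd (BlkD.upd (BlkD.upd (BlkD.upd (BlkD.upd (fun _ => 22) 0 7) 2 4) 0 3) 0 2) 1 20) 1 10) 1 8)) :=
  BlkD.tree_sound (BlkD.pairOk_sound k22_22_7_4) (by decide) hn t22_22_7_4_6 _ _ (by decide +kernel)

/-- certificates of the pair `(7, 4)`, part 7 -/
def t22_22_7_4_7 : BlkD.Tr :=
  .S 1 9 (.L 6 8 [4, 4, 5, 5, 5] [169, 168, 167, 166, 165, 155] [] 100000 28893 28893 1231876 39659
    0 69830 33333 4501 15085 27981) (.L 6 8 [4, 4, 5, 5, 5] [192, 191, 190, 189, 188, 187] []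
    100000 66667 66667 988889 77778 0 100000 33333 0 11111 13889)

lemma s22_22_7_4_7 {n : ℕ} (hn : 5 ≤ n) : NoNd (d22_22_7_4.R : ℤ) d22_22_7_4.H n d22_22_7_4.a d22_22_7_4.b
    (BlkD.inB (BlkD.upd (BlkD.upd (BlkD.upd (fun _ => 0) 0 2) 1 6) 1 9)
      (BlkD.upd (BlkD.upd (BlkD.upd (BlkD.upd (BlkD.upd (BlkD.upd (fun _ => 22) 0 7) 2 4) 0 3) 0 2) 1 20) 1 10)) :=
  BlkD.tree_sound (BlkD.pairOk_sound k22_22_7_4) (by decide) hn t22_22_7_4_7 _ _ (by decide +kernel)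

/-- certificates of the pair `(7, 4)`, part 8 -/
def t22_22_7_4_8 : BlkD.Tr :=
  .E 0

lemma s22_22_7_4_8 {n : ℕ} (hn : 5 ≤ n) : NoNd (d22_22_7_4.R : ℤ) d22_22_7_4.H n d22_22_7_4.a d22_22_7_4.b
    (BlkD.inB (BlkD.upd (BlkD.upd (fun _ => 0) 0 2) 1 11)
      (BlkD.upd (BlkD.upd (BlkD.upd (BlkD.upd (BlkD.upd (fun _ => 22) 0 7) 2 4) 0 3) 0 2) 1 20)) :=
  BlkD.tree_sound (BlkD.pairOk_sound k22_22_7_4) (by decide) hn t22_22_7_4_8 _ _ (by decide +kernel)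

/-- certificates of the pair `(7, 4)`, part 9 -/
def t22_22_7_4_9 : BlkD.Tr :=
  .E 0

lemma s22_22_7_4_9 {n : ℕ} (hn : 5 ≤ n) : NoNd (d22_22_7_4.R : ℤ) d22_22_7_4.H n d22_22_7_4.a d22_22_7_4.b
    (BlkD.inB (BlkD.upd (BlkD.upd (fun _ => 0) 0 2) 1 21)
      (BlkD.upd (BlkD.upd (BlkD.upd (BlkD.upd (fun _ => 22) 0 7) 2 4) 0 3) 0 2)) :=
  BlkD.tree_sound (BlkD.pairOk_sound k22_22_7_4) (by decide) hn t22_22_7_4_9 _ _ (by decide +kernel)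

/-- certificates of the pair `(7, 4)`, part 10 -/
def t22_22_7_4_10 : BlkD.Tr :=
  .L 6 8 [4, 4, 5, 5, 5] [] [] 100000 25000 25000 1228572 17857 0 17857 26786 0 28571 42857

lemma s22_22_7_4_10 {n : ℕ} (hn : 5 ≤ n) : NoNd (d22_22_7_4.R : ℤ) d22_22_7_4.H n d22_22_7_4.a d22_22_7_4.b
    (BlkD.inB (BlkD.upd (BlkD.upd (fun _ => 0) 0 2) 0 3)
      (BlkD.upd (BlkD.upd (BlkD.upd (BlkD.upd (BlkD.upd (BlkD.upd (fun _ => 22) 0 7) 2 4) 0 3) 1 19) 1 9) 1 4)) :=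
  BlkD.tree_sound (BlkD.pairOk_sound k22_22_7_4) (by decide) hn t22_22_7_4_10 _ _ (by decide +kernel)

/-- certificates of the pair `(7, 4)`, part 11 -/
def t22_22_7_4_11 : BlkD.Tr :=
  .S 2 2 (.S 2 1 (.L 6 8 [4, 4, 5, 5, 5] [107, 97, 86, 74, 62, 50] [] 100000 36365 36365 1215908
    20455 40909 40909 61364 0 17045 39773) (.S 3 12 (.S 3 6 (.S 3 3 (.L 6 8 [4, 4, 5, 5, 5] [107,
    97, 86, 74, 62, 50] [] 100000 25000 25000 1257628 21186 0 37288 16102 0 32203 31356) (.S 3 5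
    (.S 3 4 (.S 4 5 (.S 4 2 (.L 6 8 [4, 4, 5, 5, 5] [74, 62, 50, 0, 0, 0] [70, 60, 50, 40, 28, 0]
    100000 27778 27778 1233335 33333 0 50000 33333 0 44444 22222) (.L 6 8 [4, 4, 5, 5, 5] [107, 97,
    86, 74, 62, 50] [70, 60, 50, 40, 28, 0] 100000 47620 1 919047 19048 0 147619 19048 0 0 14286))
    (.E 2)) (.E 1)) (.E 1))) (.E 1)) (.E 1))) (.S 2 3 (.S 3 11 (.S 3 5 (.S 3 2 (.L 6 8 [4, 4, 5, 5,
    5] [107, 97, 86, 74, 62, 50] [] 100000 25000 25000 1225000 25000 0 37500 25000 0 50000 25000)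
    (.S 3 4 (.S 3 3 (.S 4 5 (.S 4 2 (.L 6 8 [4, 4, 5, 5, 5] [74, 62, 50, 0, 0, 0] [56, 46, 36, 24,
    0, 0] 100000 36111 36111 1177780 44444 0 44444 0 0 44444 22222) (.L 6 8 [4, 4, 5, 5, 5] [107,
    97, 86, 74, 62, 50] [56, 46, 36, 24, 0, 0] 100000 47620 1 919047 19048 0 147619 0 0 0 14286))
    (.E 2)) (.E 1)) (.E 1))) (.E 1)) (.E 1)) (.L 6 8 [4, 4, 5, 5, 5] [107, 97, 86, 74, 62, 50] []
    100000 25000 25000 1200000 25000 0 25000 0 0 50000 25000))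

lemma s22_22_7_4_11 {n : ℕ} (hn : 5 ≤ n) : NoNd (d22_22_7_4.R : ℤ) d22_22_7_4.H n d22_22_7_4.a d22_22_7_4.b
    (BlkD.inB (BlkD.upd (BlkD.upd (BlkD.upd (fun _ => 0) 0 2) 0 3) 1 5)
      (BlkD.upd (BlkD.upd (BlkD.upd (BlkD.upd (BlkD.upd (BlkD.upd (BlkD.upd (BlkD.upd (fun _ => 22) 0 7) 2 4) 0 3) 1 19) 1 9) 1 7) 1 6) 1 5)) :=
  BlkD.tree_sound (BlkD.pairOk_sound k22_22_7_4) (by decide) hn t22_22_7_4_11 _ _ (by decide +kernel)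

/-- certificates of the pair `(7, 4)`, part 12 -/
def t22_22_7_4_12 : BlkD.Tr :=
  .S 2 1 (.S 2 0 (.L 6 8 [4, 4, 5, 5, 5] [124, 123, 113, 102, 90, 78] [] 100000 46875 46875 1000000
    0 0 100000 100000 0 0 4167) (.S 3 12 (.S 3 6 (.S 3 3 (.L 6 8 [4, 4, 5, 5, 5] [124, 123, 113,
    102, 90, 78] [] 100000 24314 24314 1250549 15385 15385 51648 51648 6044 6044 46154) (.S 3 5 (.S
    3 4 (.S 4 6 (.S 4 3 (.L 6 8 [4, 4, 5, 5, 5] [102, 90, 78, 66, 0, 0] [62, 52, 42, 32, 20, 0]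
    100000 20834 20834 1280000 20000 20000 58333 46667 8333 26667 33333) (.L 6 8 [4, 4, 5, 5, 5]
    [124, 123, 113, 102, 90, 78] [62, 52, 42, 32, 20, 0] 100000 49057 0 907547 15094 15094 149057
    30189 0 0 13208)) (.E 2)) (.S 4 6 (.S 4 3 (.L 6 8 [4, 4, 5, 5, 5] [102, 90, 78, 66, 0, 0] [74,
    72, 62, 52, 42, 30] 100000 22753 22753 1270788 32584 2247 61798 32584 4494 34831 32584) (.L 6 8
    [4, 4, 5, 5, 5] [124, 123, 113, 102, 90, 78] [74, 72, 62, 52, 42, 30] 100000 80000 0 660000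
    30000 30000 180000 60000 0 0 10000)) (.E 2))) (.L 6 8 [4, 4, 5, 5, 5] [124, 123, 113, 102, 90,
    78] [88, 86, 84, 74, 64, 54] 100000 142858 1 0 104762 0 104762 242857 0 0 0))) (.E 1)) (.E 1)))
    (.S 3 11 (.S 3 5 (.S 3 2 (.L 6 8 [4, 4, 5, 5, 5] [124, 123, 113, 102, 90, 78] [] 100000 22403
    22403 1276628 18182 0 66234 28571 6494 15584 36364) (.S 3 4 (.S 3 3 (.L 6 8 [4, 4, 5, 5, 5]
    [124, 123, 113, 102, 90, 78] [50, 40, 30, 18, 0, 0] 100000 20109 20109 1295655 26087 0 68478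
    39130 9783 52174 26087) (.S 4 6 (.S 4 3 (.L 6 8 [4, 4, 5, 5, 5] [102, 90, 78, 66, 0, 0] [70,
    60, 50, 40, 28, 0] 100000 22449 22449 1273470 32653 0 63265 32653 5102 34694 30612) (.L 6 8 [4,
    4, 5, 5, 5] [124, 123, 113, 102, 90, 78] [70, 60, 50, 40, 28, 0] 100000 61539 1 807694 23077 0
    161538 23077 0 0 7692)) (.E 2))) (.E 1))) (.E 1)) (.E 1))

lemma s22_22_7_4_12 {n : ℕ} (hn : 5 ≤ n) : NoNd (d22_22_7_4.R : ℤ) d22_22_7_4.H n d22_22_7_4.a d22_22_7_4.b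
    (BlkD.inB (BlkD.upd (BlkD.upd (BlkD.upd (BlkD.upd (fun _ => 0) 0 2) 0 3) 1 5) 1 6)
      (BlkD.upd (BlkD.upd (BlkD.upd (BlkD.upd (BlkD.upd (BlkD.upd (BlkD.upd (BlkD.upd (fun _ => 22) 0 7) 2 4) 0 3) 1 19) 1 9) 1 7) 1 6) 2 2)) :=
  BlkD.tree_sound (BlkD.pairOk_sound k22_22_7_4) (by decide) hn t22_22_7_4_12 _ _ (by decide +kernel)

/-- certificates of the pair `(7, 4)`, part 13 -/
def t22_22_7_4_13 : BlkD.Tr :=
  .S 2 3 (.S 3 10 (.S 3 5 (.S 3 2 (.L 6 8 [4, 4, 5, 5, 5] [124, 123, 113, 102, 90, 78] [] 100000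
    19486 19486 1271325 25735 0 71691 31250 11029 48529 28676) (.S 3 4 (.S 3 3 (.S 4 6 (.S 4 3 (.L
    6 8 [4, 4, 5, 5, 5] [102, 90, 78, 66, 0, 0] [56, 46, 36, 24, 0, 0] 100000 29245 29245 1228306
    41509 0 64151 22642 3774 35849 22642) (.L 6 8 [4, 4, 5, 5, 5] [124, 123, 113, 102, 90, 78] [56,
    46, 36, 24, 0, 0] 100000 60870 0 813042 21739 0 160870 0 0 0 4348)) (.E 2)) (.E 1)) (.E 1)))
    (.E 1)) (.E 1)) (.L 6 8 [4, 4, 5, 5, 5] [124, 123, 113, 102, 90, 78] [] 100000 20455 20455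
    1263637 27273 0 54545 9091 9091 54545 27273)

lemma s22_22_7_4_13 {n : ℕ} (hn : 5 ≤ n) : NoNd (d22_22_7_4.R : ℤ) d22_22_7_4.H n d22_22_7_4.a d22_22_7_4.b
    (BlkD.inB (BlkD.upd (BlkD.upd (BlkD.upd (BlkD.upd (BlkD.upd (fun _ => 0) 0 2) 0 3) 1 5) 1 6) 2 3)
      (BlkD.upd (BlkD.upd (BlkD.upd (BlkD.upd (BlkD.upd (BlkD.upd (BlkD.upd (fun _ => 22) 0 7) 2 4) 0 3) 1 19) 1 9) 1 7) 1 6)) :=
  BlkD.tree_sound (BlkD.pairOk_sound k22_22_7_4) (by decide) hn t22_22_7_4_13 _ _ (by decide +kernel)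

/-- certificates of the pair `(7, 4)`, part 14 -/
def t22_22_7_4_14 : BlkD.Tr :=
  .S 2 2 (.S 2 1 (.S 2 0 (.L 6 8 [4, 4, 5, 5, 5] [143, 142, 141, 131, 120, 108] [] 100000 46875
    46875 1000000 0 0 100000 100000 0 0 4167) (.S 3 11 (.S 3 5 (.S 3 2 (.L 6 8 [4, 4, 5, 5, 5]
    [143, 142, 141, 131, 120, 108] [] 100000 25715 25715 1231428 20000 20000 54286 34286 5714 5714
    40000) (.S 3 4 (.S 3 3 (.L 6 8 [4, 4, 5, 5, 5] [143, 142, 141, 131, 120, 108] [44, 34, 24, 12,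
    0, 0] 100000 19908 19908 1296298 19444 12963 65741 44444 10185 25000 26852) (.S 4 7 (.S 4 3 (.L
    6 8 [4, 4, 5, 5, 5] [120, 108, 96, 84, 0, 0] [62, 52, 42, 32, 20, 0] 100000 22768 22768 1266964
    28125 25000 58036 40625 4464 28125 25000) (.L 6 8 [4, 4, 5, 5, 5] [143, 142, 141, 131, 120,
    108] [62, 52, 42, 32, 20, 0] 100000 32000 0 1044000 12000 12000 132000 24000 0 22667 29333))
    (.E 2))) (.L 6 8 [4, 4, 5, 5, 5] [143, 142, 141, 131, 120, 108] [74, 72, 62, 52, 42, 30] 100000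
    25001 25001 1272413 32759 0 65517 32759 0 41379 24138))) (.L 6 8 [4, 4, 5, 5, 5] [143, 142,
    141, 131, 120, 108] [] 100000 142858 1 0 104082 0 104082 242857 0 0 0)) (.E 1))) (.S 3 10 (.S 3
    5 (.S 3 2 (.S 3 1 (.L 6 8 [4, 4, 5, 5, 5] [143, 142, 141, 131, 120, 108] [] 100000 33333 33332
    1200001 33333 0 66667 0 0 0 33333) (.L 6 8 [4, 4, 5, 5, 5] [143, 142, 141, 131, 120, 108] [32,
    22, 10, 0, 0, 0] 100000 22022 22022 1280852 29787 0 65532 32766 5957 35745 25106)) (.L 6 8 [4,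
    4, 5, 5, 5] [143, 142, 141, 131, 120, 108] [] 100000 25923 25923 1269183 32584 0 67897 33708
    642 37560 23756)) (.E 1)) (.E 1))) (.L 6 8 [4, 4, 5, 5, 5] [143, 142, 141, 131, 120, 108] []
    100000 26191 26191 1266669 33333 0 66667 33333 0 38095 23810)

lemma s22_22_7_4_14 {n : ℕ} (hn : 5 ≤ n) : NoNd (d22_22_7_4.R : ℤ) d22_22_7_4.H n d22_22_7_4.a d22_22_7_4.b
    (BlkD.inB (BlkD.upd (BlkD.upd (BlkD.upd (BlkD.upd (fun _ => 0) 0 2) 0 3) 1 5) 1 7)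
      (BlkD.upd (BlkD.upd (BlkD.upd (BlkD.upd (BlkD.upd (BlkD.upd (fun _ => 22) 0 7) 2 4) 0 3) 1 19) 1 9) 1 7)) :=
  BlkD.tree_sound (BlkD.pairOk_sound k22_22_7_4) (by decide) hn t22_22_7_4_14 _ _ (by decide +kernel)

/-- certificates of the pair `(7, 4)`, part 15 -/
def t22_22_7_4_15 : BlkD.Tr :=
  .S 1 8 (.L 6 8 [4, 4, 5, 5, 5] [164, 163, 162, 161, 151, 140] [] 100000 27051 27051 1255165 23621
    0 86987 63366 2122 11174 25460) (.L 6 8 [4, 4, 5, 5, 5] [187, 186, 185, 184, 183, 173] []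
    100000 20919 20919 1216330 14286 0 100000 40816 16327 16327 28571)

lemma s22_22_7_4_15 {n : ℕ} (hn : 5 ≤ n) : NoNd (d22_22_7_4.R : ℤ) d22_22_7_4.H n d22_22_7_4.a d22_22_7_4.b
    (BlkD.inB (BlkD.upd (BlkD.upd (BlkD.upd (BlkD.upd (fun _ => 0) 0 2) 0 3) 1 5) 1 8)
      (BlkD.upd (BlkD.upd (BlkD.upd (BlkD.upd (BlkD.upd (fun _ => 22) 0 7) 2 4) 0 3) 1 19) 1 9)) :=
  BlkD.tree_sound (BlkD.pairOk_sound k22_22_7_4) (by decide) hn t22_22_7_4_15 _ _ (by decide +kernel)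

/-- certificates of the pair `(7, 4)`, part 16 -/
def t22_22_7_4_16 : BlkD.Tr :=
  .E 0

lemma s22_22_7_4_16 {n : ℕ} (hn : 5 ≤ n) : NoNd (d22_22_7_4.R : ℤ) d22_22_7_4.H n d22_22_7_4.a d22_22_7_4.b
    (BlkD.inB (BlkD.upd (BlkD.upd (BlkD.upd (fun _ => 0) 0 2) 0 3) 1 10)
      (BlkD.upd (BlkD.upd (BlkD.upd (BlkD.upd (fun _ => 22) 0 7) 2 4) 0 3) 1 19)) :=
  BlkD.tree_sound (BlkD.pairOk_sound k22_22_7_4) (by decide) hn t22_22_7_4_16 _ _ (by decide +kernel)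

/-- certificates of the pair `(7, 4)`, part 17 -/
def t22_22_7_4_17 : BlkD.Tr :=
  .E 0

lemma s22_22_7_4_17 {n : ℕ} (hn : 5 ≤ n) : NoNd (d22_22_7_4.R : ℤ) d22_22_7_4.H n d22_22_7_4.a d22_22_7_4.b
    (BlkD.inB (BlkD.upd (BlkD.upd (BlkD.upd (fun _ => 0) 0 2) 0 3) 1 20)
      (BlkD.upd (BlkD.upd (BlkD.upd (fun _ => 22) 0 7) 2 4) 0 3)) :=
  BlkD.tree_sound (BlkD.pairOk_sound k22_22_7_4) (by decide) hn t22_22_7_4_17 _ _ (by decide +kernel)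

/-- certificates of the pair `(7, 4)`, part 18 -/
def t22_22_7_4_18 : BlkD.Tr :=
  .S 1 2 (.L 6 8 [4, 4, 5, 5, 5] [] [] 100000 25000 25000 1150000 25000 0 25000 25000 0 25000
    25000) (.S 1 3 (.L 6 8 [4, 4, 5, 5, 5] [66, 54, 42, 30, 0, 0] [] 100000 25001 25001 1228571
    23810 0 23810 25000 0 28571 42857) (.S 2 2 (.S 2 1 (.S 2 0 (.L 6 8 [4, 4, 5, 5, 5] [91, 80, 68,
    56, 44, 0] [] 100000 46875 46875 1000000 0 0 0 100000 0 0 4167) (.S 3 13 (.S 3 6 (.S 3 3 (.L 6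
    8 [4, 4, 5, 5, 5] [91, 80, 68, 56, 44, 0] [] 100000 25000 24999 1200000 0 0 0 0 0 0 33333) (.L
    6 8 [4, 4, 5, 5, 5] [91, 80, 68, 56, 44, 0] [] 100000 21429 21429 1285715 14286 28571 73810
    47619 7143 38095 33333)) (.E 1)) (.E 1))) (.S 3 12 (.S 3 6 (.S 3 3 (.L 6 8 [4, 4, 5, 5, 5] [91,
    80, 68, 56, 44, 0] [] 100000 23100 23100 1273601 18933 5633 47367 36033 3800 30400 37667) (.S 3
    5 (.S 3 4 (.S 4 4 (.S 4 2 (.L 6 8 [4, 4, 5, 5, 5] [68, 56, 44, 0, 0, 0] [70, 60, 50, 40, 28, 0]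
    100000 21809 21809 1280852 29787 0 74468 29787 6383 44681 25532) (.L 6 8 [4, 4, 5, 5, 5] [91,
    80, 68, 56, 44, 0] [70, 60, 50, 40, 28, 0] 100000 40000 0 980000 0 0 140000 0 0 0 20000)) (.E
    2)) (.E 1)) (.E 1))) (.E 1)) (.E 1))) (.S 2 3 (.S 3 11 (.S 3 5 (.S 3 2 (.L 6 8 [4, 4, 5, 5, 5]
    [91, 80, 68, 56, 44, 0] [] 100000 21875 21875 1250000 25000 0 68750 31250 6250 41667 33333) (.S
    3 4 (.S 3 3 (.S 4 4 (.S 4 2 (.L 6 8 [4, 4, 5, 5, 5] [68, 56, 44, 0, 0, 0] [56, 46, 36, 24, 0,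
    0] 100000 21667 21667 1280002 30000 0 76667 6667 6667 46667 26667) (.L 6 8 [4, 4, 5, 5, 5] [91,
    80, 68, 56, 44, 0] [56, 46, 36, 24, 0, 0] 100000 45162 1 938711 25806 0 145161 0 0 0 16129))
    (.E 2)) (.E 1)) (.E 1))) (.E 1)) (.E 1)) (.L 6 8 [4, 4, 5, 5, 5] [91, 80, 68, 56, 44, 0] []
    100000 19643 19643 1235714 25000 0 89286 10714 10714 50000 25000))))

lemma s22_22_7_4_18 {n : ℕ} (hn : 5 ≤ n) : NoNd (d22_22_7_4.R : ℤ) d22_22_7_4.H n d22_22_7_4.a d22_22_7_4.b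
    (BlkD.inB (BlkD.upd (fun _ => 0) 0 4)
      (BlkD.upd (BlkD.upd (BlkD.upd (BlkD.upd (BlkD.upd (BlkD.upd (BlkD.upd (fun _ => 22) 0 7) 2 4) 0 5) 0 4) 1 18) 1 9) 1 4)) :=
  BlkD.tree_sound (BlkD.pairOk_sound k22_22_7_4) (by decide) hn t22_22_7_4_18 _ _ (by decide +kernel)

/-- certificates of the pair `(7, 4)`, part 19 -/
def t22_22_7_4_19 : BlkD.Tr :=
  .S 2 2 (.S 2 1 (.S 2 0 (.L 6 8 [4, 4, 5, 5, 5] [117, 107, 96, 84, 72, 60] [] 100000 46875 46875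
    1000000 0 0 50000 100000 0 0 4167) (.S 3 12 (.S 3 6 (.S 3 3 (.L 6 8 [4, 4, 5, 5, 5] [117, 107,
    96, 84, 72, 60] [] 100000 26197 26196 1242553 14894 27660 75798 53191 5053 12766 29787) (.L 6 8
    [4, 4, 5, 5, 5] [117, 107, 96, 84, 72, 60] [] 100000 23349 23348 1271700 20755 22642 70283
    41509 3302 37736 26415)) (.E 1)) (.E 1))) (.S 3 11 (.S 3 5 (.S 3 2 (.L 6 8 [4, 4, 5, 5, 5]
    [117, 107, 96, 84, 72, 60] [] 100000 20000 20000 1290000 10000 10000 80000 60000 10000 10000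
    30000) (.S 3 4 (.S 3 3 (.S 4 5 (.S 4 2 (.L 6 8 [4, 4, 5, 5, 5] [84, 72, 60, 0, 0, 0] [50, 40,
    30, 18, 0, 0] 100000 22104 22104 1279782 29071 3934 73552 43607 5792 29071 26448) (.L 6 8 [4,
    4, 5, 5, 5] [117, 107, 96, 84, 72, 60] [50, 40, 30, 18, 0, 0] 100000 25000 23076 1169230 13462
    0 101923 13462 0 13462 28846)) (.E 2)) (.S 4 5 (.S 4 2 (.L 6 8 [4, 4, 5, 5, 5] [84, 72, 60, 0,
    0, 0] [70, 60, 50, 40, 28, 0] 100000 25000 25000 1250001 33333 0 75000 41667 0 33333 25000) (.L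
    6 8 [4, 4, 5, 5, 5] [117, 107, 96, 84, 72, 60] [70, 60, 50, 40, 28, 0] 100000 25000 0 1100001
    12500 0 125000 14583 0 29167 33333)) (.E 2))) (.E 1))) (.E 1)) (.E 1))) (.S 2 3 (.S 3 10 (.S 3
    5 (.S 3 2 (.L 6 8 [4, 4, 5, 5, 5] [117, 107, 96, 84, 72, 60] [] 100000 21875 21875 1275000
    25000 0 68750 50000 6250 31250 25000) (.S 3 4 (.S 3 3 (.S 4 5 (.S 4 2 (.L 6 8 [4, 4, 5, 5, 5]
    [84, 72, 60, 0, 0, 0] [56, 46, 36, 24, 0, 0] 100000 25000 25000 1250001 33333 0 75000 41667 0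
    33333 25000) (.L 6 8 [4, 4, 5, 5, 5] [117, 107, 96, 84, 72, 60] [56, 46, 36, 24, 0, 0] 100000
    25000 0 1100000 12500 0 125000 0 0 31250 31250)) (.E 2)) (.E 1)) (.E 1))) (.E 1)) (.E 1)) (.L 6
    8 [4, 4, 5, 5, 5] [117, 107, 96, 84, 72, 60] [] 100000 18056 18056 1275000 25000 0 79167 25000
    13889 54167 30556))

lemma s22_22_7_4_19 {n : ℕ} (hn : 5 ≤ n) : NoNd (d22_22_7_4.R : ℤ) d22_22_7_4.H n d22_22_7_4.a d22_22_7_4.b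
    (BlkD.inB (BlkD.upd (BlkD.upd (fun _ => 0) 0 4) 1 5)
      (BlkD.upd (BlkD.upd (BlkD.upd (BlkD.upd (BlkD.upd (BlkD.upd (BlkD.upd (BlkD.upd (BlkD.upd (fun _ => 22) 0 7) 2 4) 0 5) 0 4) 1 18) 1 9) 1 7) 1 6) 1 5)) :=
  BlkD.tree_sound (BlkD.pairOk_sound k22_22_7_4) (by decide) hn t22_22_7_4_19 _ _ (by decide +kernel)

/-- certificates of the pair `(7, 4)`, part 20 -/
def t22_22_7_4_20 : BlkD.Tr :=
  .S 2 1 (.S 2 0 (.L 6 8 [4, 4, 5, 5, 5] [136, 135, 125, 114, 102, 90] [] 100000 46875 46875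
    1000000 0 0 66667 100000 0 0 4167) (.S 3 11 (.S 3 5 (.S 3 2 (.L 6 8 [4, 4, 5, 5, 5] [136, 135,
    125, 114, 102, 90] [] 100000 25001 25001 1249999 16667 16667 75000 16667 8333 0 33333) (.S 3 4
    (.S 3 3 (.L 6 8 [4, 4, 5, 5, 5] [136, 135, 125, 114, 102, 90] [44, 34, 24, 12, 0, 0] 100000
    20448 20448 1296298 17284 17284 62500 53086 9105 18519 33333) (.S 4 6 (.S 4 3 (.L 6 8 [4, 4, 5,
    5, 5] [114, 102, 90, 78, 0, 0] [62, 52, 42, 32, 20, 0] 100000 25000 25000 1264617 27692 23077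
    60000 50769 0 23077 27692) (.L 6 8 [4, 4, 5, 5, 5] [136, 135, 125, 114, 102, 90] [62, 52, 42,
    32, 20, 0] 100000 26316 0 1089474 5263 10526 126316 21053 0 21053 26316)) (.E 2))) (.L 2 2 [7,
    9, 12, 14, 16] [136, 135, 125, 114, 102, 90] [74, 72, 62, 52, 42, 30] 100000 46296 46295
    1155556 0 59259 88889 88889 0 0 33333))) (.L 2 2 [7, 9, 12, 14, 16] [136, 135, 125, 114, 102,
    90] [] 100000 138710 0 0 9677 0 238710 238710 0 0 0)) (.E 1))) (.S 3 10 (.S 3 5 (.S 3 2 (.S 3 1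
    (.L 5 7 [4, 4, 5, 5, 6] [136, 135, 125, 114, 102, 90] [] 100000 22766 22766 1262570 15363 15363
    61453 24022 7821 8659 30726) (.L 5 7 [4, 4, 5, 5, 6] [136, 135, 125, 114, 102, 90] [32, 22, 10,
    0, 0, 0] 100000 19465 19465 1301699 23911 2657 69077 41402 11070 38745 26716)) (.S 3 4 (.S 3 3
    (.S 4 6 (.S 4 3 (.L 5 7 [4, 4, 5, 5, 6] [114, 102, 90, 78, 0, 0] [50, 40, 30, 18, 0, 0] 100000
    27420 27420 1250539 34409 0 77419 51613 1434 40502 21864) (.L 5 7 [4, 4, 5, 5, 6] [136, 135,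
    125, 114, 102, 90] [50, 40, 30, 18, 0, 0] 100000 25000 4167 1112501 12500 0 120833 12500 0
    58333 29167)) (.E 2)) (.S 4 6 (.S 4 3 (.L 5 7 [4, 4, 5, 5, 6] [114, 102, 90, 78, 0, 0] [70, 60,
    50, 40, 28, 0] 100000 25000 25000 1266669 33333 0 77778 44444 0 44444 22222) (.L 5 7 [4, 4, 5,
    5, 6] [136, 135, 125, 114, 102, 90] [70, 60, 50, 40, 28, 0] 100000 33334 1 1033335 0 16667
    133333 33333 0 33333 25000)) (.E 2))) (.E 1))) (.E 1)) (.E 1))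

lemma s22_22_7_4_20 {n : ℕ} (hn : 5 ≤ n) : NoNd (d22_22_7_4.R : ℤ) d22_22_7_4.H n d22_22_7_4.a d22_22_7_4.b
    (BlkD.inB (BlkD.upd (BlkD.upd (BlkD.upd (fun _ => 0) 0 4) 1 5) 1 6)
      (BlkD.upd (BlkD.upd (BlkD.upd (BlkD.upd (BlkD.upd (BlkD.upd (BlkD.upd (BlkD.upd (BlkD.upd (fun _ => 22) 0 7) 2 4) 0 5) 0 4) 1 18) 1 9) 1 7) 1 6) 2 2)) :=
  BlkD.tree_sound (BlkD.pairOk_sound k22_22_7_4) (by decide) hn t22_22_7_4_20 _ _ (by decide +kernel)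

/-- certificates of the pair `(7, 4)`, part 21 -/
def t22_22_7_4_21 : BlkD.Tr :=
  .S 2 3 (.S 3 9 (.S 3 4 (.S 3 2 (.S 3 1 (.L 5 7 [4, 4, 5, 5, 6] [136, 135, 125, 114, 102, 90] []
    100000 18878 18878 1302041 24490 0 67347 42857 12245 36735 26531) (.L 5 7 [4, 4, 5, 5, 6] [136,
    135, 125, 114, 102, 90] [36, 26, 14, 0, 0, 0] 100000 25000 25000 1266669 33333 0 66667 33333 0
    66667 33333)) (.S 3 3 (.S 4 6 (.S 4 3 (.L 5 7 [4, 4, 5, 5, 6] [114, 102, 90, 78, 0, 0] [56, 46,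
    36, 24, 0, 0] 100000 25000 25000 1266669 33333 0 77778 44444 0 44444 22222) (.L 5 7 [4, 4, 5,
    5, 6] [136, 135, 125, 114, 102, 90] [56, 46, 36, 24, 0, 0] 100000 33334 1 1033334 16667 0
    133333 0 0 50000 25000)) (.E 2)) (.E 1))) (.E 1)) (.E 1)) (.L 5 7 [4, 4, 5, 5, 6] [136, 135,
    125, 114, 102, 90] [] 100000 21875 21875 1281250 31250 0 62500 0 6250 62500 31250)

lemma s22_22_7_4_21 {n : ℕ} (hn : 5 ≤ n) : NoNd (d22_22_7_4.R : ℤ) d22_22_7_4.H n d22_22_7_4.a d22_22_7_4.b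
    (BlkD.inB (BlkD.upd (BlkD.upd (BlkD.upd (BlkD.upd (fun _ => 0) 0 4) 1 5) 1 6) 2 3)
      (BlkD.upd (BlkD.upd (BlkD.upd (BlkD.upd (BlkD.upd (BlkD.upd (BlkD.upd (BlkD.upd (fun _ => 22) 0 7) 2 4) 0 5) 0 4) 1 18) 1 9) 1 7) 1 6)) :=
  BlkD.tree_sound (BlkD.pairOk_sound k22_22_7_4) (by decide) hn t22_22_7_4_21 _ _ (by decide +kernel)

/-- certificates of the pair `(7, 4)`, part 22 -/
def t22_22_7_4_22 : BlkD.Tr :=
  .S 2 2 (.S 2 1 (.S 2 0 (.L 5 7 [4, 4, 5, 5, 6] [157, 156, 155, 145, 134, 122] [] 100000 46875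
    46875 1000000 0 0 100000 100000 0 0 4167) (.S 3 10 (.S 3 5 (.S 3 2 (.L 5 7 [4, 4, 5, 5, 6]
    [157, 156, 155, 145, 134, 122] [] 100000 17858 17858 1278574 18182 9091 68182 39610 18182 10390
    27273) (.S 3 4 (.S 3 3 (.L 5 7 [4, 4, 5, 5, 6] [157, 156, 155, 145, 134, 122] [44, 34, 24, 12,
    0, 0] 100000 16177 16177 1301471 22059 0 66176 44118 17647 23529 25490) (.L 1 1 [11, 14, 18,
    19, 18] [157, 156, 155, 145, 134, 122] [62, 52, 42, 32, 20, 0] 100000 37500 37500 1187500 0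
    62500 75000 75000 25000 25000 25000)) (.L 1 1 [11, 14, 18, 19, 18] [157, 156, 155, 145, 134,
    122] [74, 72, 62, 52, 42, 30] 100000 50000 50000 1050000 0 50000 100000 100000 0 0 25000))) (.E
    2)) (.E 1))) (.L 6 8 [4, 4, 5, 5, 5] [157, 156, 155, 145, 134, 122] [] 100000 16364 16364
    1313635 16364 0 79091 41818 20909 13636 28182)) (.L 6 8 [4, 4, 5, 5, 5] [157, 156, 155, 145,
    134, 122] [] 100000 12500 12500 1325000 12500 0 75000 50000 25000 25000 25000)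

lemma s22_22_7_4_22 {n : ℕ} (hn : 5 ≤ n) : NoNd (d22_22_7_4.R : ℤ) d22_22_7_4.H n d22_22_7_4.a d22_22_7_4.b
    (BlkD.inB (BlkD.upd (BlkD.upd (BlkD.upd (fun _ => 0) 0 4) 1 5) 1 7)
      (BlkD.upd (BlkD.upd (BlkD.upd (BlkD.upd (BlkD.upd (BlkD.upd (BlkD.upd (fun _ => 22) 0 7) 2 4) 0 5) 0 4) 1 18) 1 9) 1 7)) :=
  BlkD.tree_sound (BlkD.pairOk_sound k22_22_7_4) (by decide) hn t22_22_7_4_22 _ _ (by decide +kernel)

/-- certificates of the pair `(7, 4)`, part 23 -/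
def t22_22_7_4_23 : BlkD.Tr :=
  .L 6 8 [4, 4, 5, 5, 5] [] [] 100000 21429 21429 1214288 0 0 100000 85714 14286 14286 28571

lemma s22_22_7_4_23 {n : ℕ} (hn : 5 ≤ n) : NoNd (d22_22_7_4.R : ℤ) d22_22_7_4.H n d22_22_7_4.a d22_22_7_4.b
    (BlkD.inB (BlkD.upd (BlkD.upd (BlkD.upd (fun _ => 0) 0 4) 1 5) 1 8)
      (BlkD.upd (BlkD.upd (BlkD.upd (BlkD.upd (BlkD.upd (BlkD.upd (fun _ => 22) 0 7) 2 4) 0 5) 0 4) 1 18) 1 9)) :=
  BlkD.tree_sound (BlkD.pairOk_sound k22_22_7_4) (by decide) hn t22_22_7_4_23 _ _ (by decide +kernel)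

/-- certificates of the pair `(7, 4)`, part 24 -/
def t22_22_7_4_24 : BlkD.Tr :=
  .E 0

lemma s22_22_7_4_24 {n : ℕ} (hn : 5 ≤ n) : NoNd (d22_22_7_4.R : ℤ) d22_22_7_4.H n d22_22_7_4.a d22_22_7_4.b
    (BlkD.inB (BlkD.upd (BlkD.upd (fun _ => 0) 0 4) 1 10)
      (BlkD.upd (BlkD.upd (BlkD.upd (BlkD.upd (BlkD.upd (fun _ => 22) 0 7) 2 4) 0 5) 0 4) 1 18)) :=
  BlkD.tree_sound (BlkD.pairOk_sound k22_22_7_4) (by decide) hn t22_22_7_4_24 _ _ (by decide +kernel)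

/-- certificates of the pair `(7, 4)`, part 25 -/
def t22_22_7_4_25 : BlkD.Tr :=
  .E 0

lemma s22_22_7_4_25 {n : ℕ} (hn : 5 ≤ n) : NoNd (d22_22_7_4.R : ℤ) d22_22_7_4.H n d22_22_7_4.a d22_22_7_4.b
    (BlkD.inB (BlkD.upd (BlkD.upd (fun _ => 0) 0 4) 1 19)
      (BlkD.upd (BlkD.upd (BlkD.upd (BlkD.upd (fun _ => 22) 0 7) 2 4) 0 5) 0 4)) :=
  BlkD.tree_sound (BlkD.pairOk_sound k22_22_7_4) (by decide) hn t22_22_7_4_25 _ _ (by decide +kernel)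

/-- certificates of the pair `(7, 4)`, part 26 -/
def t22_22_7_4_26 : BlkD.Tr :=
  .S 1 2 (.L 6 8 [4, 4, 5, 5, 5] [] [] 100000 27067 27066 1226772 36614 1575 36614 36614 0 28346
    42913) (.S 1 3 (.S 2 2 (.L 6 8 [4, 4, 5, 5, 5] [72, 60, 48, 36, 0, 0] [] 100000 23042 23042
    1284340 23494 7831 88253 45181 3916 28313 34337) (.L 6 8 [4, 4, 5, 5, 5] [72, 60, 48, 36, 0, 0]
    [] 100000 22917 22917 1266670 33333 0 95833 33333 4167 33333 33333)) (.S 2 2 (.S 2 1 (.L 6 8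
    [4, 4, 5, 5, 5] [99, 88, 76, 64, 52, 0] [] 100000 20920 20920 1285952 16529 32231 69525 47107
    14773 19008 33058) (.S 3 11 (.S 3 5 (.S 3 2 (.L 6 8 [4, 4, 5, 5, 5] [99, 88, 76, 64, 52, 0] []
    100000 15566 15566 1301889 15094 9434 79245 49057 20755 16981 28302) (.S 3 4 (.S 3 3 (.S 4 4
    (.S 4 2 (.L 6 8 [4, 4, 5, 5, 5] [76, 64, 52, 0, 0, 0] [50, 40, 30, 18, 0, 0] 100000 6579 6578
    1321053 26316 0 68421 28947 42105 47368 31579) (.L 6 8 [4, 4, 5, 5, 5] [99, 88, 76, 64, 52, 0]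
    [50, 40, 30, 18, 0, 0] 100000 25000 25000 1175000 25000 0 100000 25000 0 25000 25000)) (.E 2))
    (.S 4 4 (.S 4 2 (.L 6 8 [4, 4, 5, 5, 5] [76, 64, 52, 0, 0, 0] [70, 60, 50, 40, 28, 0] 100000
    7143 7143 1314286 25000 0 67857 42857 42857 42857 28571) (.L 6 8 [4, 4, 5, 5, 5] [99, 88, 76,
    64, 52, 0] [70, 60, 50, 40, 28, 0] 100000 25000 8332 1124999 16667 8333 116667 20833 0 33333
    33333)) (.E 2))) (.E 1))) (.E 1)) (.E 1))) (.S 2 3 (.S 3 10 (.S 3 5 (.S 3 2 (.L 6 8 [4, 4, 5,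
    5, 5] [99, 88, 76, 64, 52, 0] [] 100000 16406 16405 1300002 25000 0 70313 37500 17188 25000
    25000) (.S 3 4 (.S 3 3 (.S 4 4 (.S 4 2 (.L 6 8 [4, 4, 5, 5, 5] [76, 64, 52, 0, 0, 0] [56, 46,
    36, 24, 0, 0] 100000 7143 7143 1314286 25000 0 67857 42857 42857 42857 28571) (.L 6 8 [4, 4, 5,
    5, 5] [99, 88, 76, 64, 52, 0] [56, 46, 36, 24, 0, 0] 100000 25000 25000 1175000 25000 0 100000
    0 0 25000 25000)) (.E 2)) (.E 1)) (.E 1))) (.E 1)) (.E 1)) (.L 6 8 [4, 4, 5, 5, 5] [99, 88, 76,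
    64, 52, 0] [] 100000 12500 12500 1300000 25000 0 75000 25000 25000 25000 25000))))

lemma s22_22_7_4_26 {n : ℕ} (hn : 5 ≤ n) : NoNd (d22_22_7_4.R : ℤ) d22_22_7_4.H n d22_22_7_4.a d22_22_7_4.b
    (BlkD.inB (BlkD.upd (BlkD.upd (fun _ => 0) 0 4) 0 5)
      (BlkD.upd (BlkD.upd (BlkD.upd (BlkD.upd (BlkD.upd (BlkD.upd (fun _ => 22) 0 7) 2 4) 0 5) 1 17) 1 8) 1 4)) :=
  BlkD.tree_sound (BlkD.pairOk_sound k22_22_7_4) (by decide) hn t22_22_7_4_26 _ _ (by decide +kernel)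

/-- certificates of the pair `(7, 4)`, part 27 -/
def t22_22_7_4_27 : BlkD.Tr :=
  .S 1 6 (.S 1 5 (.S 2 2 (.S 2 1 (.L 6 8 [4, 4, 5, 5, 5] [127, 117, 106, 94, 82, 70] [] 100000
    23073 23073 1275164 22484 22484 67452 44968 8994 12206 25839) (.L 6 8 [4, 4, 5, 5, 5] [127,
    117, 106, 94, 82, 70] [] 100000 18378 18378 1299288 14320 239 85919 57757 14320 12411 28560))
    (.L 6 8 [4, 4, 5, 5, 5] [127, 117, 106, 94, 82, 70] [] 100000 17046 17046 1281819 22727 0 75000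
    50000 15909 22727 25758)) (.L 6 8 [4, 4, 5, 5, 5] [148, 147, 137, 126, 114, 102] [] 100000
    21429 21429 1214288 0 0 100000 85714 14286 14286 28571)) (.E 0)

lemma s22_22_7_4_27 {n : ℕ} (hn : 5 ≤ n) : NoNd (d22_22_7_4.R : ℤ) d22_22_7_4.H n d22_22_7_4.a d22_22_7_4.b
    (BlkD.inB (BlkD.upd (BlkD.upd (BlkD.upd (fun _ => 0) 0 4) 0 5) 1 5)
      (BlkD.upd (BlkD.upd (BlkD.upd (BlkD.upd (BlkD.upd (fun _ => 22) 0 7) 2 4) 0 5) 1 17) 1 8)) :=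
  BlkD.tree_sound (BlkD.pairOk_sound k22_22_7_4) (by decide) hn t22_22_7_4_27 _ _ (by decide +kernel)

/-- certificates of the pair `(7, 4)`, part 28 -/
def t22_22_7_4_28 : BlkD.Tr :=
  .E 0

lemma s22_22_7_4_28 {n : ℕ} (hn : 5 ≤ n) : NoNd (d22_22_7_4.R : ℤ) d22_22_7_4.H n d22_22_7_4.a d22_22_7_4.b
    (BlkD.inB (BlkD.upd (BlkD.upd (BlkD.upd (fun _ => 0) 0 4) 0 5) 1 9)
      (BlkD.upd (BlkD.upd (BlkD.upd (BlkD.upd (fun _ => 22) 0 7) 2 4) 0 5) 1 17)) :=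
  BlkD.tree_sound (BlkD.pairOk_sound k22_22_7_4) (by decide) hn t22_22_7_4_28 _ _ (by decide +kernel)

/-- certificates of the pair `(7, 4)`, part 29 -/
def t22_22_7_4_29 : BlkD.Tr :=
  .E 0

lemma s22_22_7_4_29 {n : ℕ} (hn : 5 ≤ n) : NoNd (d22_22_7_4.R : ℤ) d22_22_7_4.H n d22_22_7_4.a d22_22_7_4.b
    (BlkD.inB (BlkD.upd (BlkD.upd (BlkD.upd (fun _ => 0) 0 4) 0 5) 1 18)
      (BlkD.upd (BlkD.upd (BlkD.upd (fun _ => 22) 0 7) 2 4) 0 5)) :=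
  BlkD.tree_sound (BlkD.pairOk_sound k22_22_7_4) (by decide) hn t22_22_7_4_29 _ _ (by decide +kernel)

/-- certificates of the pair `(7, 4)`, part 30 -/
def t22_22_7_4_30 : BlkD.Tr :=
  .S 0 6 (.S 1 16 (.S 1 8 (.S 1 4 (.L 6 8 [4, 4, 5, 5, 5] [] [] 100000 18334 18334 1306666 6667 0
    86667 80000 13333 13333 28889) (.L 6 8 [4, 4, 5, 5, 5] [] [] 100000 40000 0 980000 0 0 140000
    100000 0 0 20000)) (.E 0)) (.E 0)) (.L 6 8 [4, 4, 5, 5, 5] [] [] 100000 6435 6435 1298832 1170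
    1170 50585 50585 49415 24854 49415)

lemma s22_22_7_4_30 {n : ℕ} (hn : 5 ≤ n) : NoNd (d22_22_7_4.R : ℤ) d22_22_7_4.H n d22_22_7_4.a d22_22_7_4.b
    (BlkD.inB (BlkD.upd (BlkD.upd (fun _ => 0) 0 4) 0 6)
      (BlkD.upd (BlkD.upd (fun _ => 22) 0 7) 2 4)) :=
  BlkD.tree_sound (BlkD.pairOk_sound k22_22_7_4) (by decide) hn t22_22_7_4_30 _ _ (by decide +kernel)

/-- certificates of the pair `(7, 4)`, part 31 -/
def t22_22_7_4_31 : BlkD.Tr :=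
  .E 1

lemma s22_22_7_4_31 {n : ℕ} (hn : 5 ≤ n) : NoNd (d22_22_7_4.R : ℤ) d22_22_7_4.H n d22_22_7_4.a d22_22_7_4.b
    (BlkD.inB (BlkD.upd (fun _ => 0) 2 5)
      (BlkD.upd (fun _ => 22) 0 7)) :=
  BlkD.tree_sound (BlkD.pairOk_sound k22_22_7_4) (by decide) hn t22_22_7_4_31 _ _ (by decide +kernel)

/-- certificates of the pair `(7, 4)`, part 32 -/
def t22_22_7_4_32 : BlkD.Tr :=
  .E 0

lemma s22_22_7_4_32 {n : ℕ} (hn : 5 ≤ n) : NoNd (d22_22_7_4.R : ℤ) d22_22_7_4.H n d22_22_7_4.a d22_22_7_4.b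
    (BlkD.inB (BlkD.upd (fun _ => 0) 0 8)
      (fun _ => 22)) :=
  BlkD.tree_sound (BlkD.pairOk_sound k22_22_7_4) (by decide) hn t22_22_7_4_32 _ _ (by decide +kernel)

lemma pr22_22_7_4 {n : ℕ} (hn : 5 ≤ n) : NoPr ((22 : ℕ) : ℤ) ((22 : ℕ) : ℤ) n 7 4 :=
  BlkD.of_root (R := d22_22_7_4.R) (H := d22_22_7_4.H) (a := d22_22_7_4.a) (b := d22_22_7_4.b) (q := 3) (by decide) hn
    (BlkD.sp 0 7 (BlkD.sp 2 4 (BlkD.sp 0 3 (BlkD.sp 0 1 (BlkD.sp 0 0 (s22_22_7_4_1 hn) (BlkD.sp 1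
      11 (BlkD.sp 1 5 (s22_22_7_4_2 hn) (s22_22_7_4_3 hn)) (s22_22_7_4_4 hn))) (BlkD.sp 0 2
      (BlkD.sp 1 20 (BlkD.sp 1 10 (BlkD.sp 1 5 (s22_22_7_4_5 hn) (BlkD.sp 1 8 (s22_22_7_4_6 hn)
      (s22_22_7_4_7 hn))) (s22_22_7_4_8 hn)) (s22_22_7_4_9 hn)) (BlkD.sp 1 19 (BlkD.sp 1 9 (BlkD.sp
      1 4 (s22_22_7_4_10 hn) (BlkD.sp 1 7 (BlkD.sp 1 6 (BlkD.sp 1 5 (s22_22_7_4_11 hn) (BlkD.sp 2 2
      (s22_22_7_4_12 hn) (s22_22_7_4_13 hn))) (s22_22_7_4_14 hn)) (s22_22_7_4_15 hn)))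
      (s22_22_7_4_16 hn)) (s22_22_7_4_17 hn)))) (BlkD.sp 0 5 (BlkD.sp 0 4 (BlkD.sp 1 18 (BlkD.sp 1
      9 (BlkD.sp 1 4 (s22_22_7_4_18 hn) (BlkD.sp 1 7 (BlkD.sp 1 6 (BlkD.sp 1 5 (s22_22_7_4_19 hn)
      (BlkD.sp 2 2 (s22_22_7_4_20 hn) (s22_22_7_4_21 hn))) (s22_22_7_4_22 hn)) (s22_22_7_4_23 hn)))
      (s22_22_7_4_24 hn)) (s22_22_7_4_25 hn)) (BlkD.sp 1 17 (BlkD.sp 1 8 (BlkD.sp 1 4
      (s22_22_7_4_26 hn) (s22_22_7_4_27 hn)) (s22_22_7_4_28 hn)) (s22_22_7_4_29 hn)))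
      (s22_22_7_4_30 hn))) (s22_22_7_4_31 hn)) (s22_22_7_4_32 hn))

end BlkC

end Pool.Agent.Lib.MP_f04ccf_co
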