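import Pool.Agent.Lib.MP_f04ccf_co.M.BlkT

/-!
MP_f04ccf_co, block certificate, data `R = 22`, `H = 22`, part 5 (generated, helper99:
bd10.cpp, gen2.py).
-/

set_option autoImplicit false
set_option maxRecDepth 100000

namespace Pool.Agent.Lib.MP_f04ccf_co

namespace BlkC

/-- the numbers of the pair `(7, 6)`, `R = 22`, `H = 22` -/
def d22_22_7_6 : BlkD.Pd :=
  ⟨22, 22, 3, 7, 6, 6, 3, 3, 1, 3, 10, 0, 2, 2, 10, 0, [0, 10, 20, 21, 22, 23, 24], [0, 10, 16, 18,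
    20, 22, 24], [⟨1, 1, 1, 4, 8, [0, 4], [0, 4]⟩, ⟨1, 1, 1, 4, 12, [0, 6], [0, 6]⟩, ⟨1, 1, 1, 4,
    16, [0, 8], [0, 8]⟩, ⟨2, 2, 1, 4, 24, [0, 10, 14], [0, 10, 10]⟩]⟩

lemma k22_22_7_6 : BlkD.pairOk d22_22_7_6 = true := by decide +kernel

/-- certificates of the pair `(7, 6)`, part 1 -/
def t22_22_7_6_1 : BlkD.Tr :=
  .L 6 7 [4, 4, 4, 5, 22, 22, 22] [] [] 100000 48889 48889 1280000 80000 0 80000 40000 0 0 13333

lemma s22_22_7_6_1 {n : ℕ} (hn : 5 ≤ n) : NoNd (d22_22_7_6.R : ℤ) d22_22_7_6.H n d22_22_7_6.a d22_22_7_6.b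
    (BlkD.inB (fun _ => 0)
      (BlkD.upd (BlkD.upd (BlkD.upd (BlkD.upd (BlkD.upd (fun _ => 22) 0 7) 2 6) 0 3) 0 1) 0 0)) :=
  BlkD.tree_sound (BlkD.pairOk_sound k22_22_7_6) (by decide) hn t22_22_7_6_1 _ _ (by decide +kernel)

/-- certificates of the pair `(7, 6)`, part 2 -/
def t22_22_7_6_2 : BlkD.Tr :=
  .S 1 2 (.L 6 7 [4, 4, 4, 5, 22, 22, 22] [] [] 100000 48889 48889 1280000 80000 0 80000 40000 0 0
    13333) (.L 6 7 [4, 4, 4, 5, 22, 22, 22] [] [] 100000 48889 48889 1280000 80000 0 80000 40000 0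
    0 13333)

lemma s22_22_7_6_2 {n : ℕ} (hn : 5 ≤ n) : NoNd (d22_22_7_6.R : ℤ) d22_22_7_6.H n d22_22_7_6.a d22_22_7_6.b
    (BlkD.inB (BlkD.upd (fun _ => 0) 0 1)
      (BlkD.upd (BlkD.upd (BlkD.upd (BlkD.upd (BlkD.upd (BlkD.upd (fun _ => 22) 0 7) 2 6) 0 3) 0 1) 1 11) 1 5)) :=
  BlkD.tree_sound (BlkD.pairOk_sound k22_22_7_6) (by decide) hn t22_22_7_6_2 _ _ (by decide +kernel)

/-- certificates of the pair `(7, 6)`, part 3 -/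
def t22_22_7_6_3 : BlkD.Tr :=
  .S 1 7 (.L 6 7 [4, 4, 4, 5, 22, 22, 22] [] [] 100000 48889 48889 1280000 80000 0 80000 40000 0 0
    13333) (.L 6 7 [4, 4, 4, 5, 22, 22, 22] [131, 130, 129, 128, 118, 108] [] 100000 48889 48889
    1280000 80000 0 80000 40000 0 0 13333)

lemma s22_22_7_6_3 {n : ℕ} (hn : 5 ≤ n) : NoNd (d22_22_7_6.R : ℤ) d22_22_7_6.H n d22_22_7_6.a d22_22_7_6.b
    (BlkD.inB (BlkD.upd (BlkD.upd (fun _ => 0) 0 1) 1 6)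
      (BlkD.upd (BlkD.upd (BlkD.upd (BlkD.upd (BlkD.upd (BlkD.upd (fun _ => 22) 0 7) 2 6) 0 3) 0 1) 1 11) 1 8)) :=
  BlkD.tree_sound (BlkD.pairOk_sound k22_22_7_6) (by decide) hn t22_22_7_6_3 _ _ (by decide +kernel)

/-- certificates of the pair `(7, 6)`, part 4 -/
def t22_22_7_6_4 : BlkD.Tr :=
  .L 6 7 [4, 4, 4, 5, 22, 22, 22] [] [] 100000 48889 48889 1280000 80000 0 80000 40000 0 0 13333

lemma s22_22_7_6_4 {n : ℕ} (hn : 5 ≤ n) : NoNd (d22_22_7_6.R : ℤ) d22_22_7_6.H n d22_22_7_6.a d22_22_7_6.b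
    (BlkD.inB (BlkD.upd (BlkD.upd (BlkD.upd (fun _ => 0) 0 1) 1 6) 1 9)
      (BlkD.upd (BlkD.upd (BlkD.upd (BlkD.upd (BlkD.upd (fun _ => 22) 0 7) 2 6) 0 3) 0 1) 1 11)) :=
  BlkD.tree_sound (BlkD.pairOk_sound k22_22_7_6) (by decide) hn t22_22_7_6_4 _ _ (by decide +kernel)

/-- certificates of the pair `(7, 6)`, part 5 -/
def t22_22_7_6_5 : BlkD.Tr :=
  .L 6 7 [4, 4, 4, 5, 22, 22, 22] [] [] 100000 48889 48889 1280000 80000 0 80000 40000 0 0 13333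

lemma s22_22_7_6_5 {n : ℕ} (hn : 5 ≤ n) : NoNd (d22_22_7_6.R : ℤ) d22_22_7_6.H n d22_22_7_6.a d22_22_7_6.b
    (BlkD.inB (BlkD.upd (BlkD.upd (fun _ => 0) 0 1) 1 12)
      (BlkD.upd (BlkD.upd (BlkD.upd (BlkD.upd (fun _ => 22) 0 7) 2 6) 0 3) 0 1)) :=
  BlkD.tree_sound (BlkD.pairOk_sound k22_22_7_6) (by decide) hn t22_22_7_6_5 _ _ (by decide +kernel)

/-- certificates of the pair `(7, 6)`, part 6 -/
def t22_22_7_6_6 : BlkD.Tr :=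
  .S 1 2 (.L 6 7 [4, 4, 4, 5, 22, 22, 22] [] [] 100000 28986 28985 1499999 34783 0 52174 60870 0
    13043 26087) (.L 6 7 [4, 4, 4, 5, 22, 22, 22] [] [] 100000 28986 28985 1499999 34783 0 52174
    60870 0 13043 26087)

lemma s22_22_7_6_6 {n : ℕ} (hn : 5 ≤ n) : NoNd (d22_22_7_6.R : ℤ) d22_22_7_6.H n d22_22_7_6.a d22_22_7_6.b
    (BlkD.inB (BlkD.upd (fun _ => 0) 0 2)
      (BlkD.upd (BlkD.upd (BlkD.upd (BlkD.upd (BlkD.upd (BlkD.upd (BlkD.upd (fun _ => 22) 0 7) 2 6) 0 3) 0 2) 1 20) 1 10) 1 5)) :=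
  BlkD.tree_sound (BlkD.pairOk_sound k22_22_7_6) (by decide) hn t22_22_7_6_6 _ _ (by decide +kernel)

/-- certificates of the pair `(7, 6)`, part 7 -/
def t22_22_7_6_7 : BlkD.Tr :=
  .S 2 3 (.L 6 7 [4, 4, 4, 5, 22, 22, 22] [111, 110, 100, 90, 80, 68] [] 100000 39912 39912 1444739
    36842 18421 55263 42105 0 7895 27632) (.L 6 7 [4, 4, 4, 5, 22, 22, 22] [111, 110, 100, 90, 80,
    68] [] 100000 28283 28283 1481820 36364 0 54545 54545 0 15152 24242)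

lemma s22_22_7_6_7 {n : ℕ} (hn : 5 ≤ n) : NoNd (d22_22_7_6.R : ℤ) d22_22_7_6.H n d22_22_7_6.a d22_22_7_6.b
    (BlkD.inB (BlkD.upd (BlkD.upd (fun _ => 0) 0 2) 1 6)
      (BlkD.upd (BlkD.upd (BlkD.upd (BlkD.upd (BlkD.upd (BlkD.upd (BlkD.upd (BlkD.upd (BlkD.upd (fun _ => 22) 0 7) 2 6) 0 3) 0 2) 1 20) 1 10) 1 8) 1 7) 1 6)) :=
  BlkD.tree_sound (BlkD.pairOk_sound k22_22_7_6) (by decide) hn t22_22_7_6_7 _ _ (by decide +kernel)

/-- certificates of the pair `(7, 6)`, part 8 -/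
def t22_22_7_6_8 : BlkD.Tr :=
  .S 2 3 (.L 6 7 [4, 4, 4, 5, 22, 22, 22] [128, 127, 126, 116, 106, 96] [] 100000 55347 55347
    1430188 45283 22642 52830 45283 0 7547 26415) (.L 6 7 [4, 4, 4, 5, 22, 22, 22] [128, 127, 126,
    116, 106, 96] [] 100000 39815 39815 1450000 50000 0 66667 33333 0 13889 33333)

lemma s22_22_7_6_8 {n : ℕ} (hn : 5 ≤ n) : NoNd (d22_22_7_6.R : ℤ) d22_22_7_6.H n d22_22_7_6.a d22_22_7_6.b
    (BlkD.inB (BlkD.upd (BlkD.upd (BlkD.upd (fun _ => 0) 0 2) 1 6) 1 7)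
      (BlkD.upd (BlkD.upd (BlkD.upd (BlkD.upd (BlkD.upd (BlkD.upd (BlkD.upd (BlkD.upd (fun _ => 22) 0 7) 2 6) 0 3) 0 2) 1 20) 1 10) 1 8) 1 7)) :=
  BlkD.tree_sound (BlkD.pairOk_sound k22_22_7_6) (by decide) hn t22_22_7_6_8 _ _ (by decide +kernel)

/-- certificates of the pair `(7, 6)`, part 9 -/
def t22_22_7_6_9 : BlkD.Tr :=
  .S 2 3 (.S 2 1 (.L 6 7 [4, 4, 4, 5, 22, 22, 22] [147, 146, 145, 144, 134, 124] [] 100000 58975
    58975 1207692 53846 51923 65385 63462 0 0 0) (.S 2 2 (.L 6 7 [4, 4, 4, 5, 22, 22, 22] [147,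
    146, 145, 144, 134, 124] [] 100000 53333 53332 1390000 50000 30000 60000 40000 0 0 0) (.S 3 9
    (.S 3 4 (.L 6 7 [4, 4, 4, 5, 22, 22, 22] [147, 146, 145, 144, 134, 124] [] 100000 30556 30556
    1449999 47222 5556 52778 38889 0 8333 2778) (.S 3 7 (.S 3 6 (.S 3 5 (.L 6 7 [4, 4, 4, 5, 22,
    22, 22] [147, 146, 145, 144, 134, 124] [102, 96, 86, 76, 64, 50] 100000 53846 53846 1400003
    61538 0 76923 30769 0 0 7692) (.L 2 2 [7, 9, 12, 14, 22, 22, 22] [147, 146, 145, 144, 134, 124]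
    [120, 118, 112, 102, 92, 80] 100000 100000 100000 1275000 62500 0 100000 50000 0 50000 50000))
    (.L 2 2 [7, 9, 12, 14, 22, 22, 22] [147, 146, 145, 144, 134, 124] [140, 138, 136, 130, 120,
    110] 100000 104545 0 5 0 0 204545 154545 0 0 0)) (.E 1))) (.E 1)))) (.L 6 7 [4, 4, 4, 5, 22,
    22, 22] [147, 146, 145, 144, 134, 124] [] 100000 33333 33333 1464518 45161 0 77419 32258 0
    12903 22581)

lemma s22_22_7_6_9 {n : ℕ} (hn : 5 ≤ n) : NoNd (d22_22_7_6.R : ℤ) d22_22_7_6.H n d22_22_7_6.a d22_22_7_6.b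
    (BlkD.inB (BlkD.upd (BlkD.upd (BlkD.upd (fun _ => 0) 0 2) 1 6) 1 8)
      (BlkD.upd (BlkD.upd (BlkD.upd (BlkD.upd (BlkD.upd (BlkD.upd (BlkD.upd (fun _ => 22) 0 7) 2 6) 0 3) 0 2) 1 20) 1 10) 1 8)) :=
  BlkD.tree_sound (BlkD.pairOk_sound k22_22_7_6) (by decide) hn t22_22_7_6_9 _ _ (by decide +kernel)

/-- certificates of the pair `(7, 6)`, part 10 -/
def t22_22_7_6_10 : BlkD.Tr :=
  .S 1 9 (.L 6 7 [4, 4, 4, 5, 22, 22, 22] [168, 167, 166, 165, 164, 154] [] 100000 56250 56250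
    1412500 62500 0 75000 50000 0 6250 12500) (.L 6 7 [4, 4, 4, 5, 22, 22, 22] [191, 190, 189, 188,
    187, 186] [] 100000 90000 70000 1140000 100000 0 120000 20000 0 0 0)

lemma s22_22_7_6_10 {n : ℕ} (hn : 5 ≤ n) : NoNd (d22_22_7_6.R : ℤ) d22_22_7_6.H n d22_22_7_6.a d22_22_7_6.b
    (BlkD.inB (BlkD.upd (BlkD.upd (BlkD.upd (fun _ => 0) 0 2) 1 6) 1 9)
      (BlkD.upd (BlkD.upd (BlkD.upd (BlkD.upd (BlkD.upd (BlkD.upd (fun _ => 22) 0 7) 2 6) 0 3) 0 2) 1 20) 1 10)) :=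
  BlkD.tree_sound (BlkD.pairOk_sound k22_22_7_6) (by decide) hn t22_22_7_6_10 _ _ (by decide +kernel)

/-- certificates of the pair `(7, 6)`, part 11 -/
def t22_22_7_6_11 : BlkD.Tr :=
  .E 0

lemma s22_22_7_6_11 {n : ℕ} (hn : 5 ≤ n) : NoNd (d22_22_7_6.R : ℤ) d22_22_7_6.H n d22_22_7_6.a d22_22_7_6.b
    (BlkD.inB (BlkD.upd (BlkD.upd (fun _ => 0) 0 2) 1 11)
      (BlkD.upd (BlkD.upd (BlkD.upd (BlkD.upd (BlkD.upd (fun _ => 22) 0 7) 2 6) 0 3) 0 2) 1 20)) :=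
  BlkD.tree_sound (BlkD.pairOk_sound k22_22_7_6) (by decide) hn t22_22_7_6_11 _ _ (by decide +kernel)

/-- certificates of the pair `(7, 6)`, part 12 -/
def t22_22_7_6_12 : BlkD.Tr :=
  .E 0

lemma s22_22_7_6_12 {n : ℕ} (hn : 5 ≤ n) : NoNd (d22_22_7_6.R : ℤ) d22_22_7_6.H n d22_22_7_6.a d22_22_7_6.b
    (BlkD.inB (BlkD.upd (BlkD.upd (fun _ => 0) 0 2) 1 21)
      (BlkD.upd (BlkD.upd (BlkD.upd (BlkD.upd (fun _ => 22) 0 7) 2 6) 0 3) 0 2)) :=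
  BlkD.tree_sound (BlkD.pairOk_sound k22_22_7_6) (by decide) hn t22_22_7_6_12 _ _ (by decide +kernel)

/-- certificates of the pair `(7, 6)`, part 13 -/
def t22_22_7_6_13 : BlkD.Tr :=
  .S 1 2 (.L 6 7 [4, 4, 4, 5, 22, 22, 22] [] [] 100000 27778 27778 1400002 8333 17778 8333 65556 0
    16667 5556) (.S 1 3 (.L 6 7 [4, 4, 4, 5, 22, 22, 22] [60, 50, 38, 24, 0, 0] [] 100000 29630
    29630 1455556 22222 11111 33333 66667 0 11111 11111) (.S 2 3 (.L 6 7 [4, 4, 4, 5, 22, 22, 22]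
    [82, 72, 62, 50, 36, 0] [] 100000 30576 30576 1459714 30216 19424 51079 51079 0 8273 10432) (.L
    6 7 [4, 4, 4, 5, 22, 22, 22] [82, 72, 62, 50, 36, 0] [] 100000 28889 28889 1480000 40000 0
    80000 40000 0 13333 13333)))

lemma s22_22_7_6_13 {n : ℕ} (hn : 5 ≤ n) : NoNd (d22_22_7_6.R : ℤ) d22_22_7_6.H n d22_22_7_6.a d22_22_7_6.b
    (BlkD.inB (BlkD.upd (BlkD.upd (fun _ => 0) 0 2) 0 3)
      (BlkD.upd (BlkD.upd (BlkD.upd (BlkD.upd (BlkD.upd (BlkD.upd (fun _ => 22) 0 7) 2 6) 0 3) 1 19) 1 9) 1 4)) :=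
  BlkD.tree_sound (BlkD.pairOk_sound k22_22_7_6) (by decide) hn t22_22_7_6_13 _ _ (by decide +kernel)

/-- certificates of the pair `(7, 6)`, part 14 -/
def t22_22_7_6_14 : BlkD.Tr :=
  .S 2 3 (.S 2 1 (.L 6 7 [4, 4, 4, 5, 22, 22, 22] [106, 96, 86, 76, 64, 50] [] 100000 44444 44443
    1300001 33333 55556 50000 66667 0 0 5556) (.S 2 2 (.L 6 7 [4, 4, 4, 5, 22, 22, 22] [106, 96,
    86, 76, 64, 50] [] 100000 45454 45453 1400001 31818 40909 54545 59091 0 0 13636) (.S 3 11 (.S 3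
    5 (.L 6 7 [4, 4, 4, 5, 22, 22, 22] [106, 96, 86, 76, 64, 50] [] 100000 31925 31924 1479577
    28521 21127 39085 42254 0 4225 5282) (.S 3 8 (.S 3 7 (.S 3 6 (.L 6 7 [4, 4, 4, 5, 22, 22, 22]
    [106, 96, 86, 76, 64, 50] [120, 118, 112, 102, 92, 80] 100000 31599 31598 1498845 27746 20809
    48555 41618 0 5202 10405) (.L 6 7 [4, 4, 4, 5, 22, 22, 22] [106, 96, 86, 76, 64, 50] [140, 138,
    136, 130, 120, 110] 100000 133333 133332 1100000 100000 0 100000 100000 0 0 0)) (.E 1)) (.E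
    1))) (.E 1)))) (.S 2 5 (.S 2 4 (.S 3 10 (.S 3 5 (.S 3 2 (.L 6 7 [4, 4, 4, 5, 22, 22, 22] [106,
    96, 86, 76, 64, 50] [] 100000 33333 33332 1400000 0 0 0 0 0 0 0) (.S 3 4 (.L 6 7 [4, 4, 4, 5,
    22, 22, 22] [106, 96, 86, 76, 64, 50] [] 100000 29333 29332 1506000 26000 14000 40000 62000 0
    12000 6000) (.L 6 7 [4, 4, 4, 5, 22, 22, 22] [106, 96, 86, 76, 64, 50] [112, 106, 96, 86, 74,
    60] 100000 21769 21768 1502040 34694 0 59184 59184 0 34694 16327))) (.L 6 7 [4, 4, 4, 5, 22,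
    22, 22] [106, 96, 86, 76, 64, 50] [] 100000 44444 11110 1266669 13333 0 80000 133333 0 0
    33333)) (.E 1)) (.L 6 7 [4, 4, 4, 5, 22, 22, 22] [106, 96, 86, 76, 64, 50] [] 100000 22222
    22221 1500002 33333 0 50000 33333 0 33333 16667)) (.L 6 7 [4, 4, 4, 5, 22, 22, 22] [106, 96,
    86, 76, 64, 50] [] 100000 22222 22221 1433335 33333 0 33333 0 0 33333 11111))

lemma s22_22_7_6_14 {n : ℕ} (hn : 5 ≤ n) : NoNd (d22_22_7_6.R : ℤ) d22_22_7_6.H n d22_22_7_6.a d22_22_7_6.b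
    (BlkD.inB (BlkD.upd (BlkD.upd (BlkD.upd (fun _ => 0) 0 2) 0 3) 1 5)
      (BlkD.upd (BlkD.upd (BlkD.upd (BlkD.upd (BlkD.upd (BlkD.upd (BlkD.upd (BlkD.upd (fun _ => 22) 0 7) 2 6) 0 3) 1 19) 1 9) 1 7) 1 6) 1 5)) :=
  BlkD.tree_sound (BlkD.pairOk_sound k22_22_7_6) (by decide) hn t22_22_7_6_14 _ _ (by decide +kernel)

/-- certificates of the pair `(7, 6)`, part 15 -/
def t22_22_7_6_15 : BlkD.Tr :=
  .S 2 1 (.L 6 7 [4, 4, 4, 5, 22, 22, 22] [123, 122, 112, 102, 92, 80] [] 100000 49123 49123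
    1300000 42105 52632 57895 57895 0 0 5263) (.S 2 2 (.L 6 7 [4, 4, 4, 5, 22, 22, 22] [123, 122,
    112, 102, 92, 80] [] 100000 53062 53062 1404082 38776 44898 53061 53061 0 0 6122) (.S 3 10 (.S
    3 5 (.S 3 2 (.L 6 7 [4, 4, 4, 5, 22, 22, 22] [123, 122, 112, 102, 92, 80] [] 100000 33333 33332
    1400000 0 0 0 0 0 0 0) (.S 3 4 (.L 6 7 [4, 4, 4, 5, 22, 22, 22] [123, 122, 112, 102, 92, 80] []
    100000 32343 32342 1475248 32673 19802 42574 34653 0 2970 9901) (.S 4 6 (.S 4 3 (.S 4 1 (.L 6 7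
    [4, 4, 4, 5, 22, 22, 22] [80, 66, 0, 0, 0, 0] [102, 96, 86, 76, 64, 50] 100000 28261 28261
    1510462 33832 16304 61413 44837 4755 5707 11957) (.L 6 7 [4, 4, 4, 5, 22, 22, 22] [102, 92, 80,
    66, 0, 0] [102, 96, 86, 76, 64, 50] 100000 32796 32796 1474195 25806 17742 69355 51613 0 1613
    20968)) (.L 6 7 [4, 4, 4, 5, 22, 22, 22] [123, 122, 112, 102, 92, 80] [102, 96, 86, 76, 64, 50]
    100000 38462 0 1269230 3846 3846 138462 73077 0 13846 9231)) (.E 2)))) (.S 3 8 (.S 3 7 (.S 3 6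
    (.S 4 6 (.S 4 3 (.S 4 1 (.L 6 7 [4, 4, 4, 5, 22, 22, 22] [80, 66, 0, 0, 0, 0] [120, 118, 112,
    102, 92, 80] 100000 1 1 1588374 25581 6977 58140 44186 25581 32558 18605) (.L 6 7 [4, 4, 4, 5,
    22, 22, 22] [102, 92, 80, 66, 0, 0] [120, 118, 112, 102, 92, 80] 100000 19883 19882 1521931
    27193 6140 75439 40789 0 15789 16228)) (.L 6 7 [4, 4, 4, 5, 22, 22, 22] [123, 122, 112, 102,
    92, 80] [120, 118, 112, 102, 92, 80] 100000 80000 0 1020000 0 20000 180000 100000 0 0 0)) (.E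
    2)) (.L 6 7 [4, 4, 4, 5, 22, 22, 22] [123, 122, 112, 102, 92, 80] [140, 138, 136, 130, 120,
    110] 100000 203030 0 3 43939 0 165152 303030 0 0 0)) (.E 1)) (.E 1))) (.E 1)))

lemma s22_22_7_6_15 {n : ℕ} (hn : 5 ≤ n) : NoNd (d22_22_7_6.R : ℤ) d22_22_7_6.H n d22_22_7_6.a d22_22_7_6.b
    (BlkD.inB (BlkD.upd (BlkD.upd (BlkD.upd (BlkD.upd (fun _ => 0) 0 2) 0 3) 1 5) 1 6)
      (BlkD.upd (BlkD.upd (BlkD.upd (BlkD.upd (BlkD.upd (BlkD.upd (BlkD.upd (BlkD.upd (fun _ => 22) 0 7) 2 6) 0 3) 1 19) 1 9) 1 7) 1 6) 2 3)) :=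
  BlkD.tree_sound (BlkD.pairOk_sound k22_22_7_6) (by decide) hn t22_22_7_6_15 _ _ (by decide +kernel)

/-- certificates of the pair `(7, 6)`, part 16 -/
def t22_22_7_6_16 : BlkD.Tr :=
  .S 2 5 (.S 2 4 (.S 3 9 (.S 3 4 (.S 3 2 (.L 6 7 [4, 4, 4, 5, 22, 22, 22] [123, 122, 112, 102, 92,
    80] [] 100000 32203 32202 1428815 37288 16949 54237 50847 0 3390 1695) (.S 3 3 (.L 6 7 [4, 4,
    4, 5, 22, 22, 22] [123, 122, 112, 102, 92, 80] [66, 56, 44, 30, 0, 0] 100000 32292 32292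
    1471875 40625 6250 59375 40625 0 3125 1563) (.S 4 6 (.S 4 3 (.S 4 1 (.L 6 7 [4, 4, 4, 5, 22,
    22, 22] [80, 66, 0, 0, 0, 0] [90, 80, 70, 58, 44, 0] 100000 25624 25623 1511427 34286 17143
    54014 52245 2585 17959 16190) (.L 6 7 [4, 4, 4, 5, 22, 22, 22] [102, 92, 80, 66, 0, 0] [90, 80,
    70, 58, 44, 0] 100000 30645 30645 1474196 32258 0 96774 32258 0 8065 22581)) (.L 6 7 [4, 4, 4,
    5, 22, 22, 22] [123, 122, 112, 102, 92, 80] [90, 80, 70, 58, 44, 0] 100000 48148 0 1211112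
    11111 11111 148148 22222 0 0 3704)) (.E 2)))) (.L 6 7 [4, 4, 4, 5, 22, 22, 22] [123, 122, 112,
    102, 92, 80] [] 100000 14815 14815 1533336 33333 0 66667 33333 0 33333 22222)) (.E 1)) (.L 6 7
    [4, 4, 4, 5, 22, 22, 22] [123, 122, 112, 102, 92, 80] [] 100000 20514 20514 1517947 38462 0
    65385 28205 3846 30769 25641)) (.L 6 7 [4, 4, 4, 5, 22, 22, 22] [123, 122, 112, 102, 92, 80] []
    100000 9910 9910 1475678 32432 0 62162 29730 2703 64865 24324)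

lemma s22_22_7_6_16 {n : ℕ} (hn : 5 ≤ n) : NoNd (d22_22_7_6.R : ℤ) d22_22_7_6.H n d22_22_7_6.a d22_22_7_6.b
    (BlkD.inB (BlkD.upd (BlkD.upd (BlkD.upd (BlkD.upd (BlkD.upd (fun _ => 0) 0 2) 0 3) 1 5) 1 6) 2 4)
      (BlkD.upd (BlkD.upd (BlkD.upd (BlkD.upd (BlkD.upd (BlkD.upd (BlkD.upd (fun _ => 22) 0 7) 2 6) 0 3) 1 19) 1 9) 1 7) 1 6)) :=
  BlkD.tree_sound (BlkD.pairOk_sound k22_22_7_6) (by decide) hn t22_22_7_6_16 _ _ (by decide +kernel)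

/-- certificates of the pair `(7, 6)`, part 17 -/
def t22_22_7_6_17 : BlkD.Tr :=
  .S 2 1 (.L 6 7 [4, 4, 4, 5, 22, 22, 22] [142, 141, 140, 130, 120, 110] [] 100000 48485 48485
    1300001 36364 54545 59091 63636 0 0 4545) (.S 2 2 (.L 6 7 [4, 4, 4, 5, 22, 22, 22] [142, 141,
    140, 130, 120, 110] [] 100000 39953 39953 1468086 33333 34752 57447 46099 0 7092 3546) (.S 3 9
    (.S 3 4 (.S 3 2 (.L 6 7 [4, 4, 4, 5, 22, 22, 22] [142, 141, 140, 130, 120, 110] [] 100000 33333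
    33332 1405883 35294 23529 47059 35294 0 0 0) (.S 3 3 (.L 6 7 [4, 4, 4, 5, 22, 22, 22] [142,
    141, 140, 130, 120, 110] [60, 50, 38, 24, 0, 0] 100000 33334 33334 1463158 31579 21053 42105
    31579 0 0 0) (.S 4 7 (.S 4 3 (.L 6 7 [4, 4, 4, 5, 22, 22, 22] [120, 110, 98, 84, 0, 0] [82, 72,
    62, 50, 36, 0] 100000 28105 28104 1508605 29511 21922 63406 38617 7083 1518 15936) (.L 6 7 [4,
    4, 4, 5, 22, 22, 22] [142, 141, 140, 130, 120, 110] [82, 72, 62, 50, 36, 0] 100000 31401 31401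
    1434785 13043 13043 100000 42029 0 5797 33333)) (.E 2)))) (.S 3 7 (.S 3 6 (.S 3 5 (.S 4 7 (.S 4
    3 (.S 4 1 (.L 6 7 [4, 4, 4, 5, 22, 22, 22] [98, 84, 0, 0, 0, 0] [102, 96, 86, 76, 64, 50]
    100000 1 0 1577212 24051 17722 67089 30380 41772 25316 22785) (.L 6 7 [4, 4, 4, 5, 22, 22, 22]
    [120, 110, 98, 84, 0, 0] [102, 96, 86, 76, 64, 50] 100000 25807 25807 1504839 38710 6452 95161
    25806 0 17742 17742)) (.L 6 7 [4, 4, 4, 5, 22, 22, 22] [142, 141, 140, 130, 120, 110] [102, 96,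
    86, 76, 64, 50] 100000 33333 33332 1400000 0 0 100000 100000 0 0 0)) (.E 2)) (.S 4 7 (.S 4 3
    (.L 4 4 [4, 5, 7, 8, 22, 22, 22] [120, 110, 98, 84, 0, 0] [120, 118, 112, 102, 92, 80] 100000
    144445 144445 1133333 100000 0 100000 66667 0 33333 0) (.L 4 4 [4, 5, 7, 8, 22, 22, 22] [142,
    141, 140, 130, 120, 110] [120, 118, 112, 102, 92, 80] 100000 125000 0 750000 0 50000 225000
    100000 0 0 0)) (.E 2))) (.E 2)) (.E 1))) (.E 1)))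

lemma s22_22_7_6_17 {n : ℕ} (hn : 5 ≤ n) : NoNd (d22_22_7_6.R : ℤ) d22_22_7_6.H n d22_22_7_6.a d22_22_7_6.b
    (BlkD.inB (BlkD.upd (BlkD.upd (BlkD.upd (BlkD.upd (fun _ => 0) 0 2) 0 3) 1 5) 1 7)
      (BlkD.upd (BlkD.upd (BlkD.upd (BlkD.upd (BlkD.upd (BlkD.upd (BlkD.upd (fun _ => 22) 0 7) 2 6) 0 3) 1 19) 1 9) 1 7) 2 3)) :=
  BlkD.tree_sound (BlkD.pairOk_sound k22_22_7_6) (by decide) hn t22_22_7_6_17 _ _ (by decide +kernel)

/-- certificates of the pair `(7, 6)`, part 18 -/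
def t22_22_7_6_18 : BlkD.Tr :=
  .S 2 5 (.S 2 4 (.S 3 8 (.S 3 4 (.S 3 2 (.L 4 4 [4, 5, 7, 8, 22, 22, 22] [142, 141, 140, 130, 120,
    110] [] 100000 28485 28485 1507274 20000 16364 56364 60000 7273 0 36364) (.S 3 3 (.L 6 7 [4, 4,
    4, 5, 22, 22, 22] [142, 141, 140, 130, 120, 110] [66, 56, 44, 30, 0, 0] 100000 25642 25642
    1515384 38462 0 69231 42308 3846 15385 5128) (.S 4 7 (.S 4 3 (.L 6 7 [4, 4, 4, 5, 22, 22, 22]
    [120, 110, 98, 84, 0, 0] [90, 80, 70, 58, 44, 0] 100000 15751 15751 1528942 39560 0 76190 38095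
    3663 25275 20147) (.L 6 7 [4, 4, 4, 5, 22, 22, 22] [142, 141, 140, 130, 120, 110] [90, 80, 70,
    58, 44, 0] 100000 27778 11110 1366666 16667 0 116667 50000 0 16667 33333)) (.E 2)))) (.L 6 7
    [4, 4, 4, 5, 22, 22, 22] [142, 141, 140, 130, 120, 110] [] 100000 128572 128571 1142855 71429 0
    100000 100000 0 0 0)) (.E 1)) (.L 6 7 [4, 4, 4, 5, 22, 22, 22] [142, 141, 140, 130, 120, 110]
    [] 100000 17829 17828 1520931 37209 0 68605 32558 6977 32558 32558)) (.L 6 7 [4, 4, 4, 5, 22,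
    22, 22] [142, 141, 140, 130, 120, 110] [] 100000 6216 6216 1504239 36441 0 65254 21186 17797
    57627 21186)

lemma s22_22_7_6_18 {n : ℕ} (hn : 5 ≤ n) : NoNd (d22_22_7_6.R : ℤ) d22_22_7_6.H n d22_22_7_6.a d22_22_7_6.b
    (BlkD.inB (BlkD.upd (BlkD.upd (BlkD.upd (BlkD.upd (BlkD.upd (fun _ => 0) 0 2) 0 3) 1 5) 1 7) 2 4)
      (BlkD.upd (BlkD.upd (BlkD.upd (BlkD.upd (BlkD.upd (BlkD.upd (fun _ => 22) 0 7) 2 6) 0 3) 1 19) 1 9) 1 7)) :=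
  BlkD.tree_sound (BlkD.pairOk_sound k22_22_7_6) (by decide) hn t22_22_7_6_18 _ _ (by decide +kernel)

/-- certificates of the pair `(7, 6)`, part 19 -/
def t22_22_7_6_19 : BlkD.Tr :=
  .S 1 8 (.S 2 3 (.S 2 1 (.L 6 7 [4, 4, 4, 5, 22, 22, 22] [163, 162, 161, 160, 150, 140] [] 100000
    44445 44445 1300001 36364 54545 59091 63636 0 0 16667) (.S 2 2 (.L 6 7 [4, 4, 4, 5, 22, 22, 22]
    [163, 162, 161, 160, 150, 140] [] 100000 56411 56411 1392308 46154 38462 53846 53846 0 0 7692)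
    (.S 3 8 (.S 3 4 (.S 3 2 (.L 6 7 [4, 4, 4, 5, 22, 22, 22] [163, 162, 161, 160, 150, 140] []
    100000 33333 33332 1400000 40000 30000 60000 40000 0 0 20000) (.S 3 3 (.L 6 7 [4, 4, 4, 5, 22,
    22, 22] [163, 162, 161, 160, 150, 140] [60, 50, 38, 24, 0, 0] 100000 33333 33332 1440000 40000
    20000 60000 40000 0 0 20000) (.S 4 8 (.S 4 4 (.L 6 7 [4, 4, 4, 5, 22, 22, 22] [150, 140, 130,
    118, 104, 0] [82, 72, 62, 50, 36, 0] 100000 21450 21450 1513043 32174 12174 77391 44348 0 13043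
    22609) (.L 6 7 [4, 4, 4, 5, 22, 22, 22] [163, 162, 161, 160, 150, 140] [82, 72, 62, 50, 36, 0]
    100000 33077 9231 1329232 7692 3846 123846 72308 0 769 30769)) (.E 2)))) (.L 6 7 [4, 4, 4, 5,
    22, 22, 22] [163, 162, 161, 160, 150, 140] [] 100000 88889 88889 1250000 50000 0 100000 100000
    0 0 33333)) (.E 1)))) (.L 6 7 [4, 4, 4, 5, 22, 22, 22] [163, 162, 161, 160, 150, 140] [] 100000
    30783 30783 1481634 37245 0 74490 57653 1276 5102 20918)) (.L 6 7 [4, 4, 4, 5, 22, 22, 22]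
    [186, 185, 184, 183, 182, 172] [] 100000 75000 75000 1300000 75000 0 100000 50000 0 0 12500)

lemma s22_22_7_6_19 {n : ℕ} (hn : 5 ≤ n) : NoNd (d22_22_7_6.R : ℤ) d22_22_7_6.H n d22_22_7_6.a d22_22_7_6.b
    (BlkD.inB (BlkD.upd (BlkD.upd (BlkD.upd (BlkD.upd (fun _ => 0) 0 2) 0 3) 1 5) 1 8)
      (BlkD.upd (BlkD.upd (BlkD.upd (BlkD.upd (BlkD.upd (fun _ => 22) 0 7) 2 6) 0 3) 1 19) 1 9)) :=
  BlkD.tree_sound (BlkD.pairOk_sound k22_22_7_6) (by decide) hn t22_22_7_6_19 _ _ (by decide +kernel)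

/-- certificates of the pair `(7, 6)`, part 20 -/
def t22_22_7_6_20 : BlkD.Tr :=
  .E 0

lemma s22_22_7_6_20 {n : ℕ} (hn : 5 ≤ n) : NoNd (d22_22_7_6.R : ℤ) d22_22_7_6.H n d22_22_7_6.a d22_22_7_6.b
    (BlkD.inB (BlkD.upd (BlkD.upd (BlkD.upd (fun _ => 0) 0 2) 0 3) 1 10)
      (BlkD.upd (BlkD.upd (BlkD.upd (BlkD.upd (fun _ => 22) 0 7) 2 6) 0 3) 1 19)) :=
  BlkD.tree_sound (BlkD.pairOk_sound k22_22_7_6) (by decide) hn t22_22_7_6_20 _ _ (by decide +kernel)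

/-- certificates of the pair `(7, 6)`, part 21 -/
def t22_22_7_6_21 : BlkD.Tr :=
  .E 0

lemma s22_22_7_6_21 {n : ℕ} (hn : 5 ≤ n) : NoNd (d22_22_7_6.R : ℤ) d22_22_7_6.H n d22_22_7_6.a d22_22_7_6.b
    (BlkD.inB (BlkD.upd (BlkD.upd (BlkD.upd (fun _ => 0) 0 2) 0 3) 1 20)
      (BlkD.upd (BlkD.upd (BlkD.upd (fun _ => 22) 0 7) 2 6) 0 3)) :=
  BlkD.tree_sound (BlkD.pairOk_sound k22_22_7_6) (by decide) hn t22_22_7_6_21 _ _ (by decide +kernel)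

/-- certificates of the pair `(7, 6)`, part 22 -/
def t22_22_7_6_22 : BlkD.Tr :=
  .L 6 7 [4, 4, 4, 5, 22, 22, 22] [] [] 100000 29631 29631 1466666 16667 16667 16667 66667 0 11111
    11111

lemma s22_22_7_6_22 {n : ℕ} (hn : 5 ≤ n) : NoNd (d22_22_7_6.R : ℤ) d22_22_7_6.H n d22_22_7_6.a d22_22_7_6.b
    (BlkD.inB (BlkD.upd (fun _ => 0) 0 4)
      (BlkD.upd (BlkD.upd (BlkD.upd (BlkD.upd (BlkD.upd (BlkD.upd (BlkD.upd (BlkD.upd (fun _ => 22) 0 7) 2 6) 0 5) 0 4) 1 18) 1 9) 1 4) 1 2)) :=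
  BlkD.tree_sound (BlkD.pairOk_sound k22_22_7_6) (by decide) hn t22_22_7_6_22 _ _ (by decide +kernel)

/-- certificates of the pair `(7, 6)`, part 23 -/
def t22_22_7_6_23 : BlkD.Tr :=
  .S 2 3 (.L 6 7 [4, 4, 4, 5, 22, 22, 22] [66, 56, 44, 30, 0, 0] [] 100000 31250 31250 1475000
    25000 25000 50000 50000 0 6250 6250) (.L 6 7 [4, 4, 4, 5, 22, 22, 22] [66, 56, 44, 30, 0, 0] []
    100000 27879 27879 1498184 30909 9091 52727 52727 0 16364 16364)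

lemma s22_22_7_6_23 {n : ℕ} (hn : 5 ≤ n) : NoNd (d22_22_7_6.R : ℤ) d22_22_7_6.H n d22_22_7_6.a d22_22_7_6.b
    (BlkD.inB (BlkD.upd (BlkD.upd (fun _ => 0) 0 4) 1 3)
      (BlkD.upd (BlkD.upd (BlkD.upd (BlkD.upd (BlkD.upd (BlkD.upd (BlkD.upd (BlkD.upd (fun _ => 22) 0 7) 2 6) 0 5) 0 4) 1 18) 1 9) 1 4) 1 3)) :=
  BlkD.tree_sound (BlkD.pairOk_sound k22_22_7_6) (by decide) hn t22_22_7_6_23 _ _ (by decide +kernel)

/-- certificates of the pair `(7, 6)`, part 24 -/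
def t22_22_7_6_24 : BlkD.Tr :=
  .S 2 3 (.S 2 1 (.L 6 7 [4, 4, 4, 5, 22, 22, 22] [90, 80, 70, 58, 44, 0] [] 100000 33333 33332
    1360000 20000 60000 60000 60000 0 0 0) (.S 2 2 (.L 6 7 [4, 4, 4, 5, 22, 22, 22] [90, 80, 70,
    58, 44, 0] [] 100000 28142 28142 1507790 14344 38934 71311 56967 7787 0 21721) (.S 3 11 (.S 3 5
    (.S 3 2 (.L 6 7 [4, 4, 4, 5, 22, 22, 22] [90, 80, 70, 58, 44, 0] [] 100000 33333 33332 1300000
    0 0 0 0 0 0 0) (.S 3 4 (.L 6 7 [4, 4, 4, 5, 22, 22, 22] [90, 80, 70, 58, 44, 0] [] 100000 33333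
    33332 1455556 22222 22222 44444 44444 0 0 0) (.S 4 4 (.S 4 2 (.S 4 1 (.L 6 6 [4, 4, 5, 6, 22,
    22, 22] [58, 44, 0, 0, 0, 0] [102, 96, 86, 76, 64, 50] 100000 31503 31503 1504579 19908 19908
    43936 40503 686 4119 20137) (.L 6 6 [4, 4, 5, 6, 22, 22, 22] [70, 58, 44, 0, 0, 0] [102, 96,
    86, 76, 64, 50] 100000 32223 32223 1449999 16667 16667 83333 50000 0 3333 33333)) (.L 6 6 [4,
    4, 5, 6, 22, 22, 22] [90, 80, 70, 58, 44, 0] [102, 96, 86, 76, 64, 50] 100000 30160 26985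
    1377777 7937 7937 103175 55556 0 9524 3175)) (.E 2)))) (.S 3 8 (.S 3 7 (.S 3 6 (.S 4 4 (.S 4 2
    (.S 4 1 (.S 4 0 (.L 6 7 [4, 4, 4, 5, 22, 22, 22] [44, 0, 0, 0, 0, 0] [120, 118, 112, 102, 92,
    80] 100000 0 0 1571136 23711 11340 0 48454 25773 48454 25773) (.L 6 7 [4, 4, 4, 5, 22, 22, 22]
    [58, 44, 0, 0, 0, 0] [120, 118, 112, 102, 92, 80] 100000 26667 26667 1500001 33333 0 100000
    56667 0 20000 33333)) (.L 6 7 [4, 4, 4, 5, 22, 22, 22] [70, 58, 44, 0, 0, 0] [120, 118, 112,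
    102, 92, 80] 100000 26923 26923 1433335 29487 3846 100000 55128 0 19231 29487)) (.L 6 7 [4, 4,
    4, 5, 22, 22, 22] [90, 80, 70, 58, 44, 0] [120, 118, 112, 102, 92, 80] 100000 39131 1 1265218 0
    8696 139130 73913 0 21739 0)) (.E 2)) (.L 6 7 [4, 4, 4, 5, 22, 22, 22] [90, 80, 70, 58, 44, 0]
    [140, 138, 136, 130, 120, 110] 100000 33333 33332 1400000 0 0 100000 100000 0 0 0)) (.E 1)) (.E
    1))) (.E 1)))) (.S 2 5 (.S 2 4 (.S 3 10 (.S 3 5 (.S 3 2 (.L 6 7 [4, 4, 4, 5, 22, 22, 22] [90,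
    80, 70, 58, 44, 0] [] 100000 33333 33332 1400000 0 0 0 0 0 0 0) (.S 3 4 (.S 3 3 (.L 6 7 [4, 4,
    4, 5, 22, 22, 22] [90, 80, 70, 58, 44, 0] [66, 56, 44, 30, 0, 0] 100000 33333 33332 1471429
    28571 28571 28571 28571 0 0 0) (.S 4 4 (.S 4 2 (.S 4 1 (.L 5 6 [4, 4, 5, 6, 22, 22, 22] [58,
    44, 0, 0, 0, 0] [90, 80, 70, 58, 44, 0] 100000 28775 28774 1511112 27350 8547 63248 46154 1709
    10256 18803) (.L 5 6 [4, 4, 5, 6, 22, 22, 22] [70, 58, 44, 0, 0, 0] [90, 80, 70, 58, 44, 0]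
    100000 29167 29167 1462500 12500 12500 100000 37500 0 12500 12500)) (.L 5 6 [4, 4, 5, 6, 22,
    22, 22] [90, 80, 70, 58, 44, 0] [90, 80, 70, 58, 44, 0] 100000 33334 16667 1349999 0 16667
    116667 16667 0 0 16667)) (.E 2))) (.L 6 7 [4, 4, 4, 5, 22, 22, 22] [90, 80, 70, 58, 44, 0]
    [112, 106, 96, 86, 74, 60] 100000 10345 10345 1558622 34483 0 89655 37931 6897 55172 31034)))
    (.L 6 7 [4, 4, 4, 5, 22, 22, 22] [90, 80, 70, 58, 44, 0] [] 100000 100000 0 900000 25000 0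
    125000 200000 0 0 0)) (.E 1)) (.L 6 7 [4, 4, 4, 5, 22, 22, 22] [90, 80, 70, 58, 44, 0] []
    100000 16523 16523 1535652 27826 6957 73913 46087 7826 34783 26957)) (.L 6 7 [4, 4, 4, 5, 22,
    22, 22] [90, 80, 70, 58, 44, 0] [] 100000 11111 11111 1466668 33333 0 33333 33333 0 66667
    33333))

lemma s22_22_7_6_24 {n : ℕ} (hn : 5 ≤ n) : NoNd (d22_22_7_6.R : ℤ) d22_22_7_6.H n d22_22_7_6.a d22_22_7_6.b
    (BlkD.inB (BlkD.upd (BlkD.upd (BlkD.upd (fun _ => 0) 0 4) 1 3) 1 4)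
      (BlkD.upd (BlkD.upd (BlkD.upd (BlkD.upd (BlkD.upd (BlkD.upd (BlkD.upd (fun _ => 22) 0 7) 2 6) 0 5) 0 4) 1 18) 1 9) 1 4)) :=
  BlkD.tree_sound (BlkD.pairOk_sound k22_22_7_6) (by decide) hn t22_22_7_6_24 _ _ (by decide +kernel)

/-- certificates of the pair `(7, 6)`, part 25 -/
def t22_22_7_6_25 : BlkD.Tr :=
  .S 2 1 (.L 6 7 [4, 4, 4, 5, 22, 22, 22] [116, 106, 96, 86, 74, 60] [] 100000 33334 33333 1353124
    15625 64063 71875 64063 0 0 26563) (.S 2 2 (.L 6 7 [4, 4, 4, 5, 22, 22, 22] [116, 106, 96, 86,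
    74, 60] [] 100000 29875 29875 1500943 21698 30189 69811 51887 943 8491 30189) (.S 3 10 (.S 3 5
    (.S 3 2 (.L 6 7 [4, 4, 4, 5, 22, 22, 22] [116, 106, 96, 86, 74, 60] [] 100000 33333 33332
    1400000 0 0 0 0 0 0 0) (.S 3 4 (.S 3 3 (.L 6 7 [4, 4, 4, 5, 22, 22, 22] [116, 106, 96, 86, 74,
    60] [60, 50, 38, 24, 0, 0] 100000 30994 30993 1468422 31579 17544 49123 35088 3509 0 17544) (.S
    4 5 (.S 4 2 (.S 4 1 (.L 6 7 [4, 4, 4, 5, 22, 22, 22] [74, 60, 0, 0, 0, 0] [82, 72, 62, 50, 36,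
    0] 100000 6562 6562 1554330 21260 15748 55118 44882 33858 12598 33858) (.L 6 7 [4, 4, 4, 5, 22,
    22, 22] [86, 74, 60, 0, 0, 0] [82, 72, 62, 50, 36, 0] 100000 32381 32381 1485715 28571 14286
    71429 42857 0 2857 14286)) (.L 6 7 [4, 4, 4, 5, 22, 22, 22] [116, 106, 96, 86, 74, 60] [82, 72,
    62, 50, 36, 0] 100000 32699 32699 1438096 19048 19048 85714 47619 0 1905 33333)) (.E 2))) (.S 4
    5 (.S 4 2 (.S 4 1 (.L 6 7 [4, 4, 4, 5, 22, 22, 22] [74, 60, 0, 0, 0, 0] [102, 96, 86, 76, 64,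
    50] 100000 4167 4167 1566072 19643 17857 66071 42857 30357 28571 28571) (.L 6 7 [4, 4, 4, 5,
    22, 22, 22] [86, 74, 60, 0, 0, 0] [102, 96, 86, 76, 64, 50] 100000 31313 31313 1493942 24242
    18182 78788 48485 0 6061 33333)) (.L 6 7 [4, 4, 4, 5, 22, 22, 22] [116, 106, 96, 86, 74, 60]
    [102, 96, 86, 76, 64, 50] 100000 30994 30994 1441231 14912 9649 100000 59649 0 7018 33333)) (.E
    2)))) (.S 3 8 (.S 3 7 (.S 3 6 (.S 4 5 (.S 4 2 (.S 4 1 (.L 6 7 [4, 4, 4, 5, 22, 22, 22] [74, 60,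
    0, 0, 0, 0] [120, 118, 112, 102, 92, 80] 100000 0 0 1572224 22222 0 94444 44444 27778 66667
    27778) (.L 6 7 [4, 4, 4, 5, 22, 22, 22] [86, 74, 60, 0, 0, 0] [120, 118, 112, 102, 92, 80]
    100000 27778 27778 1500003 33333 0 100000 33333 0 16667 33333)) (.L 6 7 [4, 4, 4, 5, 22, 22,
    22] [116, 106, 96, 86, 74, 60] [120, 118, 112, 102, 92, 80] 100000 26667 26667 1440000 0 20000
    100000 60000 0 20000 20000)) (.E 2)) (.L 6 7 [4, 4, 4, 5, 22, 22, 22] [116, 106, 96, 86, 74,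
    60] [140, 138, 136, 130, 120, 110] 100000 200000 0 0 80000 0 80000 300000 0 0 0)) (.E 1)) (.E
    1))) (.E 1)))

lemma s22_22_7_6_25 {n : ℕ} (hn : 5 ≤ n) : NoNd (d22_22_7_6.R : ℤ) d22_22_7_6.H n d22_22_7_6.a d22_22_7_6.b
    (BlkD.inB (BlkD.upd (BlkD.upd (fun _ => 0) 0 4) 1 5)
      (BlkD.upd (BlkD.upd (BlkD.upd (BlkD.upd (BlkD.upd (BlkD.upd (BlkD.upd (BlkD.upd (BlkD.upd (BlkD.upd (fun _ => 22) 0 7) 2 6) 0 5) 0 4) 1 18) 1 9) 1 7) 1 6) 1 5) 2 3)) :=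
  BlkD.tree_sound (BlkD.pairOk_sound k22_22_7_6) (by decide) hn t22_22_7_6_25 _ _ (by decide +kernel)

/-- certificates of the pair `(7, 6)`, part 26 -/
def t22_22_7_6_26 : BlkD.Tr :=
  .S 2 5 (.S 2 4 (.S 3 9 (.S 3 4 (.S 3 2 (.L 6 7 [4, 4, 4, 5, 22, 22, 22] [116, 106, 96, 86, 74,
    60] [] 100000 32388 32387 1465957 35461 21277 41135 35461 1418 0 14184) (.S 3 3 (.S 4 5 (.S 4 2
    (.S 4 1 (.L 6 7 [4, 4, 4, 5, 22, 22, 22] [74, 60, 0, 0, 0, 0] [66, 56, 44, 30, 0, 0] 100000 0 0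
    1551490 21702 12340 62128 50213 38298 23830 37872) (.L 6 7 [4, 4, 4, 5, 22, 22, 22] [86, 74,
    60, 0, 0, 0] [66, 56, 44, 30, 0, 0] 100000 31784 31784 1477906 24419 24419 76744 53488 0 4651
    29070)) (.L 6 7 [4, 4, 4, 5, 22, 22, 22] [116, 106, 96, 86, 74, 60] [66, 56, 44, 30, 0, 0]
    100000 28704 28703 1450001 16667 16667 100000 44444 0 13889 27778)) (.E 2)) (.S 4 5 (.S 4 2 (.S
    4 1 (.L 6 7 [4, 4, 4, 5, 22, 22, 22] [74, 60, 0, 0, 0, 0] [90, 80, 70, 58, 44, 0] 100000 0 0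
    1575000 25000 0 75000 50000 50000 25000 25000) (.L 6 7 [4, 4, 4, 5, 22, 22, 22] [86, 74, 60, 0,
    0, 0] [90, 80, 70, 58, 44, 0] 100000 27778 27777 1490910 22727 6061 95455 56061 0 16667 33333))
    (.L 6 7 [4, 4, 4, 5, 22, 22, 22] [116, 106, 96, 86, 74, 60] [90, 80, 70, 58, 44, 0] 100000
    27337 27337 1444974 25397 2116 100000 50794 0 17989 33333)) (.E 2)))) (.L 6 7 [4, 4, 4, 5, 22,
    22, 22] [116, 106, 96, 86, 74, 60] [] 100000 10223 10223 1534666 26667 0 92000 33333 1333 60000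
    33333)) (.E 1)) (.S 3 8 (.S 3 4 (.S 3 2 (.L 6 7 [4, 4, 4, 5, 22, 22, 22] [116, 106, 96, 86, 74,
    60] [] 100000 20480 20480 1527451 24183 24183 63399 71242 7843 22876 33333) (.L 6 7 [4, 4, 4,
    5, 22, 22, 22] [116, 106, 96, 86, 74, 60] [] 100000 8333 8332 1528125 28125 0 84375 31250 3125
    68750 31250)) (.E 1)) (.E 1))) (.L 6 7 [4, 4, 4, 5, 22, 22, 22] [116, 106, 96, 86, 74, 60] []
    100000 3210 3210 1534077 25185 0 76296 40741 15556 59259 33333)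

lemma s22_22_7_6_26 {n : ℕ} (hn : 5 ≤ n) : NoNd (d22_22_7_6.R : ℤ) d22_22_7_6.H n d22_22_7_6.a d22_22_7_6.b
    (BlkD.inB (BlkD.upd (BlkD.upd (BlkD.upd (fun _ => 0) 0 4) 1 5) 2 4)
      (BlkD.upd (BlkD.upd (BlkD.upd (BlkD.upd (BlkD.upd (BlkD.upd (BlkD.upd (BlkD.upd (BlkD.upd (fun _ => 22) 0 7) 2 6) 0 5) 0 4) 1 18) 1 9) 1 7) 1 6) 1 5)) :=
  BlkD.tree_sound (BlkD.pairOk_sound k22_22_7_6) (by decide) hn t22_22_7_6_26 _ _ (by decide +kernel)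

/-- certificates of the pair `(7, 6)`, part 27 -/
def t22_22_7_6_27 : BlkD.Tr :=
  .S 2 1 (.L 6 7 [4, 4, 4, 5, 22, 22, 22] [135, 134, 124, 114, 104, 92] [] 100000 33334 33334
    1366666 16667 66667 58333 66667 0 0 25000) (.S 2 2 (.S 3 10 (.S 3 5 (.L 6 7 [4, 4, 4, 5, 22,
    22, 22] [135, 134, 124, 114, 104, 92] [] 100000 28333 28332 1510000 25000 25000 70000 45000
    5000 5000 20000) (.S 3 8 (.S 3 7 (.S 3 6 (.L 3 3 [5, 7, 9, 10, 22, 22, 22] [135, 134, 124, 114,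
    104, 92] [108, 106, 100, 90, 80, 68] 100000 60715 60715 1414287 0 48214 96429 96429 5357 5357
    1786) (.L 3 3 [5, 7, 9, 10, 22, 22, 22] [135, 134, 124, 114, 104, 92] [126, 124, 122, 116, 106,
    96] 100000 77778 44444 1166666 0 66667 66667 133333 33333 0 0)) (.E 2)) (.E 1))) (.E 1)) (.S 3
    9 (.S 3 4 (.S 3 2 (.L 3 3 [5, 7, 9, 10, 22, 22, 22] [135, 134, 124, 114, 104, 92] [] 100000
    33334 33334 1447059 17647 8824 35294 26471 0 0 29412) (.S 3 3 (.L 6 7 [4, 4, 4, 5, 22, 22, 22]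
    [135, 134, 124, 114, 104, 92] [60, 50, 38, 24, 0, 0] 100000 32099 32099 1490742 29630 20370
    48148 38889 1852 0 15741) (.S 4 6 (.S 4 3 (.S 4 1 (.L 6 7 [4, 4, 4, 5, 22, 22, 22] [92, 78, 0,
    0, 0, 0] [82, 72, 62, 50, 36, 0] 100000 1588 1587 1566665 19048 19048 52381 52381 47619 14286
    33333) (.L 6 7 [4, 4, 4, 5, 22, 22, 22] [114, 104, 92, 78, 0, 0] [82, 72, 62, 50, 36, 0] 100000
    30457 30457 1506094 31472 21827 65482 37056 3046 2538 17259)) (.L 6 7 [4, 4, 4, 5, 22, 22, 22]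
    [135, 134, 124, 114, 104, 92] [82, 72, 62, 50, 36, 0] 100000 32223 32223 1430000 10000 16667
    100000 50000 0 3333 30000)) (.E 2)))) (.S 3 7 (.S 3 6 (.S 3 5 (.S 4 6 (.S 4 3 (.S 4 1 (.L 6 7
    [4, 4, 4, 5, 22, 22, 22] [92, 78, 0, 0, 0, 0] [102, 96, 86, 76, 64, 50] 100000 1 1 1589998
    21429 14286 65714 44286 27143 38571 17143) (.S 4 2 (.L 6 7 [4, 4, 4, 5, 22, 22, 22] [104, 92,
    78, 0, 0, 0] [102, 96, 86, 76, 64, 50] 100000 1 1 1577779 11111 0 88889 44444 30556 58333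
    19444) (.L 6 7 [4, 4, 4, 5, 22, 22, 22] [114, 104, 92, 78, 0, 0] [102, 96, 86, 76, 64, 50]
    100000 33334 33334 1471427 14286 14286 100000 57143 0 0 28571))) (.L 6 7 [4, 4, 4, 5, 22, 22,
    22] [135, 134, 124, 114, 104, 92] [102, 96, 86, 76, 64, 50] 100000 33333 33332 1400000 0 0
    100000 100000 0 0 0)) (.E 2)) (.L 6 7 [4, 4, 4, 5, 22, 22, 22] [135, 134, 124, 114, 104, 92]
    [120, 118, 112, 102, 92, 80] 100000 189190 1 0 75676 0 75676 289189 0 0 0)) (.E 2)) (.E 1)))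
    (.E 1)))

lemma s22_22_7_6_27 {n : ℕ} (hn : 5 ≤ n) : NoNd (d22_22_7_6.R : ℤ) d22_22_7_6.H n d22_22_7_6.a d22_22_7_6.b
    (BlkD.inB (BlkD.upd (BlkD.upd (BlkD.upd (fun _ => 0) 0 4) 1 5) 1 6)
      (BlkD.upd (BlkD.upd (BlkD.upd (BlkD.upd (BlkD.upd (BlkD.upd (BlkD.upd (BlkD.upd (BlkD.upd (fun _ => 22) 0 7) 2 6) 0 5) 0 4) 1 18) 1 9) 1 7) 1 6) 2 3)) :=
  BlkD.tree_sound (BlkD.pairOk_sound k22_22_7_6) (by decide) hn t22_22_7_6_27 _ _ (by decide +kernel)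

/-- certificates of the pair `(7, 6)`, part 28 -/
def t22_22_7_6_28 : BlkD.Tr :=
  .S 2 5 (.S 2 4 (.S 3 8 (.S 3 4 (.S 3 2 (.L 6 7 [4, 4, 4, 5, 22, 22, 22] [135, 134, 124, 114, 104,
    92] [] 100000 30497 30497 1489362 29787 25532 55319 51064 4255 0 17021) (.S 3 3 (.S 4 6 (.S 4 3
    (.S 4 1 (.L 6 7 [4, 4, 4, 5, 22, 22, 22] [92, 78, 0, 0, 0, 0] [66, 56, 44, 30, 0, 0] 100000 1 1
    1559061 24832 16779 65772 45638 48322 24832 26846) (.L 6 7 [4, 4, 4, 5, 22, 22, 22] [114, 104,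
    92, 78, 0, 0] [66, 56, 44, 30, 0, 0] 100000 26375 26375 1501478 29151 16394 81919 54665 7011
    6853 23616)) (.L 6 7 [4, 4, 4, 5, 22, 22, 22] [135, 134, 124, 114, 104, 92] [66, 56, 44, 30, 0,
    0] 100000 28868 28868 1435886 12440 19617 100000 52632 0 13397 29187)) (.E 2)) (.S 4 6 (.S 4 3
    (.L 6 7 [4, 4, 4, 5, 22, 22, 22] [114, 104, 92, 78, 0, 0] [90, 80, 70, 58, 44, 0] 100000 17377
    17377 1546858 27586 10953 71400 52333 4462 14807 24138) (.L 6 7 [4, 4, 4, 5, 22, 22, 22] [135,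
    134, 124, 114, 104, 92] [90, 80, 70, 58, 44, 0] 100000 26667 6667 1360000 0 0 120000 80000 0
    20000 20000)) (.E 2)))) (.E 2)) (.E 1)) (.S 3 7 (.S 3 3 (.S 3 1 (.L 6 7 [4, 4, 4, 5, 22, 22,
    22] [135, 134, 124, 114, 104, 92] [] 100000 33333 33332 1480000 40000 0 80000 40000 0 0 20000)
    (.S 3 2 (.L 4 4 [4, 5, 7, 8, 22, 22, 22] [135, 134, 124, 114, 104, 92] [48, 36, 22, 0, 0, 0]
    100000 10938 10938 1561720 19531 0 77344 40625 3906 59375 22656) (.L 4 4 [4, 5, 7, 8, 22, 22,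
    22] [135, 134, 124, 114, 104, 92] [72, 62, 50, 36, 0, 0] 100000 60690 60690 1400690 55862 0
    79310 40690 2069 59310 22069))) (.E 2)) (.E 1))) (.L 4 4 [4, 5, 7, 8, 22, 22, 22] [135, 134,
    124, 114, 104, 92] [] 100000 22222 22222 1466668 33333 0 66667 33333 0 66667 33333)

lemma s22_22_7_6_28 {n : ℕ} (hn : 5 ≤ n) : NoNd (d22_22_7_6.R : ℤ) d22_22_7_6.H n d22_22_7_6.a d22_22_7_6.b
    (BlkD.inB (BlkD.upd (BlkD.upd (BlkD.upd (BlkD.upd (fun _ => 0) 0 4) 1 5) 1 6) 2 4)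
      (BlkD.upd (BlkD.upd (BlkD.upd (BlkD.upd (BlkD.upd (BlkD.upd (BlkD.upd (BlkD.upd (fun _ => 22) 0 7) 2 6) 0 5) 0 4) 1 18) 1 9) 1 7) 1 6)) :=
  BlkD.tree_sound (BlkD.pairOk_sound k22_22_7_6) (by decide) hn t22_22_7_6_28 _ _ (by decide +kernel)

/-- certificates of the pair `(7, 6)`, part 29 -/
def t22_22_7_6_29 : BlkD.Tr :=
  .S 2 3 (.S 2 1 (.L 4 4 [4, 5, 7, 8, 22, 22, 22] [156, 155, 154, 144, 134, 124] [] 100000 66667
    66667 1200000 0 100000 100000 100000 0 0 0) (.S 2 2 (.L 4 4 [4, 5, 7, 8, 22, 22, 22] [156, 155,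
    154, 144, 134, 124] [] 100000 38039 38039 1474120 8235 48235 61176 55294 15294 0 23529) (.S 3 8
    (.S 3 4 (.S 3 2 (.L 4 4 [4, 5, 7, 8, 22, 22, 22] [156, 155, 154, 144, 134, 124] [] 100000 25000
    25000 1487500 25000 6250 62500 31250 12500 0 37500) (.S 3 3 (.L 6 7 [4, 4, 4, 5, 22, 22, 22]
    [156, 155, 154, 144, 134, 124] [60, 50, 38, 24, 0, 0] 100000 31164 31164 1478604 31628 22326
    63256 50233 3256 0 22791) (.S 4 7 (.S 4 3 (.L 6 7 [4, 4, 4, 5, 22, 22, 22] [134, 124, 112, 98,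
    0, 0] [82, 72, 62, 50, 36, 0] 100000 11111 11110 1522224 33333 11111 88889 33333 33333 22222
    22222) (.L 6 7 [4, 4, 4, 5, 22, 22, 22] [156, 155, 154, 144, 134, 124] [82, 72, 62, 50, 36, 0]
    100000 33333 33332 1480000 10000 10000 100000 70000 0 0 30000)) (.E 2)))) (.S 3 6 (.S 3 5 (.S 4
    7 (.S 4 3 (.L 6 7 [4, 4, 4, 5, 22, 22, 22] [134, 124, 112, 98, 0, 0] [102, 96, 86, 76, 64, 50]
    100000 66667 66667 1300000 50000 0 100000 100000 0 0 0) (.L 6 7 [4, 4, 4, 5, 22, 22, 22] [156,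
    155, 154, 144, 134, 124] [102, 96, 86, 76, 64, 50] 100000 33333 33332 1400000 0 0 100000 100000
    0 0 0)) (.E 2)) (.E 2)) (.E 2))) (.E 1)))) (.S 2 5 (.S 2 4 (.S 3 7 (.S 3 3 (.S 3 1 (.L 6 7 [4,
    4, 4, 5, 22, 22, 22] [156, 155, 154, 144, 134, 124] [] 100000 30939 30939 1437127 40719 29940
    68263 53892 3593 0 19760) (.S 3 2 (.L 6 7 [4, 4, 4, 5, 22, 22, 22] [156, 155, 154, 144, 134,
    124] [44, 32, 18, 0, 0, 0] 100000 28468 28468 1485401 32117 28467 62774 57664 7299 0 22628) (.L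
    6 7 [4, 4, 4, 5, 22, 22, 22] [156, 155, 154, 144, 134, 124] [66, 56, 44, 30, 0, 0] 100000 8730
    8729 1554763 21429 2381 78571 40476 38095 14286 26190))) (.E 2)) (.E 1)) (.L 6 7 [4, 4, 4, 5,
    22, 22, 22] [156, 155, 154, 144, 134, 124] [] 100000 6667 6667 1548000 24000 0 92000 20000
    28000 44000 20000)) (.L 6 7 [4, 4, 4, 5, 22, 22, 22] [156, 155, 154, 144, 134, 124] [] 100000
    22222 22221 1433334 33333 0 100000 0 0 33333 16667))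

lemma s22_22_7_6_29 {n : ℕ} (hn : 5 ≤ n) : NoNd (d22_22_7_6.R : ℤ) d22_22_7_6.H n d22_22_7_6.a d22_22_7_6.b
    (BlkD.inB (BlkD.upd (BlkD.upd (BlkD.upd (fun _ => 0) 0 4) 1 5) 1 7)
      (BlkD.upd (BlkD.upd (BlkD.upd (BlkD.upd (BlkD.upd (BlkD.upd (BlkD.upd (fun _ => 22) 0 7) 2 6) 0 5) 0 4) 1 18) 1 9) 1 7)) :=
  BlkD.tree_sound (BlkD.pairOk_sound k22_22_7_6) (by decide) hn t22_22_7_6_29 _ _ (by decide +kernel)

/-- certificates of the pair `(7, 6)`, part 30 -/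
def t22_22_7_6_30 : BlkD.Tr :=
  .S 1 8 (.L 6 7 [4, 4, 4, 5, 22, 22, 22] [179, 178, 177, 176, 166, 156] [] 100000 40000 39999
    1428571 57143 0 100000 20000 0 0 14286) (.E 0)

lemma s22_22_7_6_30 {n : ℕ} (hn : 5 ≤ n) : NoNd (d22_22_7_6.R : ℤ) d22_22_7_6.H n d22_22_7_6.a d22_22_7_6.b
    (BlkD.inB (BlkD.upd (BlkD.upd (BlkD.upd (fun _ => 0) 0 4) 1 5) 1 8)
      (BlkD.upd (BlkD.upd (BlkD.upd (BlkD.upd (BlkD.upd (BlkD.upd (fun _ => 22) 0 7) 2 6) 0 5) 0 4) 1 18) 1 9)) :=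
  BlkD.tree_sound (BlkD.pairOk_sound k22_22_7_6) (by decide) hn t22_22_7_6_30 _ _ (by decide +kernel)

/-- certificates of the pair `(7, 6)`, part 31 -/
def t22_22_7_6_31 : BlkD.Tr :=
  .E 0

lemma s22_22_7_6_31 {n : ℕ} (hn : 5 ≤ n) : NoNd (d22_22_7_6.R : ℤ) d22_22_7_6.H n d22_22_7_6.a d22_22_7_6.b
    (BlkD.inB (BlkD.upd (BlkD.upd (fun _ => 0) 0 4) 1 10)
      (BlkD.upd (BlkD.upd (BlkD.upd (BlkD.upd (BlkD.upd (fun _ => 22) 0 7) 2 6) 0 5) 0 4) 1 18)) :=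
  BlkD.tree_sound (BlkD.pairOk_sound k22_22_7_6) (by decide) hn t22_22_7_6_31 _ _ (by decide +kernel)

/-- certificates of the pair `(7, 6)`, part 32 -/
def t22_22_7_6_32 : BlkD.Tr :=
  .E 0

lemma s22_22_7_6_32 {n : ℕ} (hn : 5 ≤ n) : NoNd (d22_22_7_6.R : ℤ) d22_22_7_6.H n d22_22_7_6.a d22_22_7_6.b
    (BlkD.inB (BlkD.upd (BlkD.upd (fun _ => 0) 0 4) 1 19)
      (BlkD.upd (BlkD.upd (BlkD.upd (BlkD.upd (fun _ => 22) 0 7) 2 6) 0 5) 0 4)) :=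
  BlkD.tree_sound (BlkD.pairOk_sound k22_22_7_6) (by decide) hn t22_22_7_6_32 _ _ (by decide +kernel)

/-- certificates of the pair `(7, 6)`, part 33 -/
def t22_22_7_6_33 : BlkD.Tr :=
  .S 1 1 (.L 6 7 [4, 4, 4, 5, 22, 22, 22] [] [] 100000 29630 29629 1466667 33333 16667 33333 66667
    0 11111 11111) (.S 2 3 (.L 6 7 [4, 4, 4, 5, 22, 22, 22] [48, 36, 22, 0, 0, 0] [] 100000 31944
    31943 1475002 37500 25000 50000 50000 0 4167 4167) (.L 6 7 [4, 4, 4, 5, 22, 22, 22] [48, 36,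
    22, 0, 0, 0] [] 100000 30066 30066 1498040 39216 11765 50980 50980 0 9804 9804))

lemma s22_22_7_6_33 {n : ℕ} (hn : 5 ≤ n) : NoNd (d22_22_7_6.R : ℤ) d22_22_7_6.H n d22_22_7_6.a d22_22_7_6.b
    (BlkD.inB (BlkD.upd (BlkD.upd (fun _ => 0) 0 4) 0 5)
      (BlkD.upd (BlkD.upd (BlkD.upd (BlkD.upd (BlkD.upd (BlkD.upd (BlkD.upd (fun _ => 22) 0 7) 2 6) 0 5) 1 17) 1 8) 1 4) 1 2)) :=
  BlkD.tree_sound (BlkD.pairOk_sound k22_22_7_6) (by decide) hn t22_22_7_6_33 _ _ (by decide +kernel)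

/-- certificates of the pair `(7, 6)`, part 34 -/
def t22_22_7_6_34 : BlkD.Tr :=
  .S 2 3 (.S 2 1 (.L 6 7 [4, 4, 4, 5, 22, 22, 22] [72, 62, 50, 36, 0, 0] [] 100000 33334 33334
    1326667 26667 58333 63333 61667 0 0 0) (.S 2 2 (.L 6 7 [4, 4, 4, 5, 22, 22, 22] [72, 62, 50,
    36, 0, 0] [] 100000 31658 31658 1449723 11173 51397 62570 62570 3911 0 13966) (.S 3 11 (.S 3 5
    (.L 6 7 [4, 4, 4, 5, 22, 22, 22] [72, 62, 50, 36, 0, 0] [] 100000 30894 30893 1502440 24390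
    24390 51220 51220 2439 2439 2439) (.L 6 7 [4, 4, 4, 5, 22, 22, 22] [72, 62, 50, 36, 0, 0] []
    100000 23546 23546 1515548 34542 11744 80138 57340 3800 21762 24698)) (.E 1)))) (.S 2 5 (.S 2 4
    (.S 3 10 (.S 3 5 (.S 3 2 (.L 6 7 [4, 4, 4, 5, 22, 22, 22] [72, 62, 50, 36, 0, 0] [] 100000
    33333 33332 1400000 0 0 0 0 0 0 0) (.S 3 4 (.S 3 3 (.L 6 7 [4, 4, 4, 5, 22, 22, 22] [72, 62,
    50, 36, 0, 0] [66, 56, 44, 30, 0, 0] 100000 28432 28432 1504413 29412 27941 52941 51471 4412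
    5882 4412) (.S 4 3 (.S 4 1 (.L 5 6 [4, 4, 5, 6, 22, 22, 22] [50, 36, 0, 0, 0, 0] [90, 80, 70,
    58, 44, 0] 100000 26042 26042 1518750 28125 12500 62500 56250 0 21875 21875) (.L 5 6 [4, 4, 5,
    6, 22, 22, 22] [72, 62, 50, 36, 0, 0] [90, 80, 70, 58, 44, 0] 100000 26984 26984 1461906 28571
    4762 100000 57143 0 19048 28571)) (.E 2))) (.L 5 6 [4, 4, 5, 6, 22, 22, 22] [72, 62, 50, 36, 0,
    0] [112, 106, 96, 86, 74, 60] 100000 8334 8334 1537501 20833 0 91667 50000 8333 58333 19444)))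
    (.L 5 6 [4, 4, 5, 6, 22, 22, 22] [72, 62, 50, 36, 0, 0] [] 100000 0 0 0 0 0 0 0 0 0 0)) (.E 1))
    (.L 5 6 [4, 4, 5, 6, 22, 22, 22] [72, 62, 50, 36, 0, 0] [] 100000 16815 16815 1537612 20796
    7522 60619 52655 2212 45133 15044)) (.L 5 6 [4, 4, 5, 6, 22, 22, 22] [72, 62, 50, 36, 0, 0] []
    100000 5128 5127 1500000 23077 0 53846 30769 7692 69231 23077))

lemma s22_22_7_6_34 {n : ℕ} (hn : 5 ≤ n) : NoNd (d22_22_7_6.R : ℤ) d22_22_7_6.H n d22_22_7_6.a d22_22_7_6.b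
    (BlkD.inB (BlkD.upd (BlkD.upd (BlkD.upd (fun _ => 0) 0 4) 0 5) 1 3)
      (BlkD.upd (BlkD.upd (BlkD.upd (BlkD.upd (BlkD.upd (BlkD.upd (BlkD.upd (fun _ => 22) 0 7) 2 6) 0 5) 1 17) 1 8) 1 4) 1 3)) :=
  BlkD.tree_sound (BlkD.pairOk_sound k22_22_7_6) (by decide) hn t22_22_7_6_34 _ _ (by decide +kernel)

/-- certificates of the pair `(7, 6)`, part 35 -/
def t22_22_7_6_35 : BlkD.Tr :=
  .S 2 3 (.S 2 1 (.L 5 6 [4, 4, 5, 6, 22, 22, 22] [98, 88, 78, 66, 52, 0] [] 100000 66667 66667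
    1200000 0 100000 100000 100000 0 0 0) (.S 2 2 (.L 5 6 [4, 4, 5, 6, 22, 22, 22] [98, 88, 78, 66,
    52, 0] [] 100000 28341 28341 1491228 4387 47806 49470 65204 10590 0 27837) (.S 3 10 (.S 3 5 (.S
    3 2 (.L 5 6 [4, 4, 5, 6, 22, 22, 22] [98, 88, 78, 66, 52, 0] [] 100000 33333 33332 1400000 0 0
    0 0 0 0 0) (.S 3 4 (.S 3 3 (.L 5 6 [4, 4, 5, 6, 22, 22, 22] [98, 88, 78, 66, 52, 0] [60, 50,
    38, 24, 0, 0] 100000 31624 31623 1474359 25641 15385 30769 25641 2564 0 25641) (.S 4 4 (.S 4 2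
    (.L 6 7 [4, 4, 4, 5, 22, 22, 22] [78, 66, 52, 0, 0, 0] [82, 72, 62, 50, 36, 0] 100000 15197
    15197 1540686 21569 21569 65196 46078 24510 5392 33333) (.L 6 7 [4, 4, 4, 5, 22, 22, 22] [98,
    88, 78, 66, 52, 0] [82, 72, 62, 50, 36, 0] 100000 31734 31734 1445333 10667 24000 96000 48000 0
    4800 33333)) (.E 2))) (.S 4 4 (.S 4 2 (.L 6 7 [4, 4, 4, 5, 22, 22, 22] [78, 66, 52, 0, 0, 0]
    [102, 96, 86, 76, 64, 50] 100000 3102 3102 1586820 23256 10078 56589 59690 43411 13953 33333)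
    (.L 6 7 [4, 4, 4, 5, 22, 22, 22] [98, 88, 78, 66, 52, 0] [102, 96, 86, 76, 64, 50] 100000 32382
    32382 1428570 0 23810 100000 61905 0 2857 33333)) (.E 2)))) (.L 6 7 [4, 4, 4, 5, 22, 22, 22]
    [98, 88, 78, 66, 52, 0] [] 100000 2060 2060 1533149 19663 1685 93258 37640 13483 73596 24719))
    (.E 1)))) (.S 2 5 (.S 2 4 (.S 3 9 (.S 3 4 (.S 3 2 (.L 6 7 [4, 4, 4, 5, 22, 22, 22] [98, 88, 78,
    66, 52, 0] [] 100000 25490 25490 1500002 23529 23529 58824 70588 11765 0 11765) (.S 3 3 (.S 4 4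
    (.S 4 2 (.L 6 7 [4, 4, 4, 5, 22, 22, 22] [78, 66, 52, 0, 0, 0] [66, 56, 44, 30, 0, 0] 100000
    5556 5556 1564707 23529 11765 64706 49020 35294 12745 35294) (.L 6 7 [4, 4, 4, 5, 22, 22, 22]
    [98, 88, 78, 66, 52, 0] [66, 56, 44, 30, 0, 0] 100000 31111 31111 1436669 3333 30000 100000
    66667 0 6667 33333)) (.E 2)) (.S 4 4 (.S 4 2 (.L 6 7 [4, 4, 4, 5, 22, 22, 22] [78, 66, 52, 0,
    0, 0] [90, 80, 70, 58, 44, 0] 100000 1995 1995 1575783 29915 4558 63248 55271 33333 27350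
    33333) (.L 6 7 [4, 4, 4, 5, 22, 22, 22] [98, 88, 78, 66, 52, 0] [90, 80, 70, 58, 44, 0] 100000
    27778 27778 1450002 0 25000 100000 58333 0 16667 33333)) (.E 2)))) (.L 6 7 [4, 4, 4, 5, 22, 22,
    22] [98, 88, 78, 66, 52, 0] [] 100000 33333 33332 1400000 0 0 100000 100000 0 0 0)) (.E 1)) (.L
    6 7 [4, 4, 4, 5, 22, 22, 22] [98, 88, 78, 66, 52, 0] [] 100000 4445 4445 1580000 20000 0 76667
    60000 23333 40000 23333)) (.L 6 7 [4, 4, 4, 5, 22, 22, 22] [98, 88, 78, 66, 52, 0] [] 100000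
    1588 1588 1538096 33333 0 71429 28571 28571 38095 28571))

lemma s22_22_7_6_35 {n : ℕ} (hn : 5 ≤ n) : NoNd (d22_22_7_6.R : ℤ) d22_22_7_6.H n d22_22_7_6.a d22_22_7_6.b
    (BlkD.inB (BlkD.upd (BlkD.upd (BlkD.upd (BlkD.upd (fun _ => 0) 0 4) 0 5) 1 3) 1 4)
      (BlkD.upd (BlkD.upd (BlkD.upd (BlkD.upd (BlkD.upd (BlkD.upd (fun _ => 22) 0 7) 2 6) 0 5) 1 17) 1 8) 1 4)) :=
  BlkD.tree_sound (BlkD.pairOk_sound k22_22_7_6) (by decide) hn t22_22_7_6_35 _ _ (by decide +kernel)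

/-- certificates of the pair `(7, 6)`, part 36 -/
def t22_22_7_6_36 : BlkD.Tr :=
  .S 1 6 (.S 1 5 (.S 2 3 (.S 2 1 (.L 6 7 [4, 4, 4, 5, 22, 22, 22] [126, 116, 106, 96, 84, 70] []
    100000 66667 66667 1200000 0 100000 100000 100000 0 0 0) (.S 2 2 (.L 6 7 [4, 4, 4, 5, 22, 22,
    22] [126, 116, 106, 96, 84, 70] [] 100000 23742 23742 1500002 7075 44811 53302 67925 14623 0
    14151) (.S 3 9 (.S 3 4 (.S 3 2 (.L 6 7 [4, 4, 4, 5, 22, 22, 22] [126, 116, 106, 96, 84, 70] []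
    100000 25000 25000 1462500 25000 25000 75000 25000 12500 0 12500) (.S 3 3 (.L 6 7 [4, 4, 4, 5,
    22, 22, 22] [126, 116, 106, 96, 84, 70] [60, 50, 38, 24, 0, 0] 100000 25695 25695 1512501 22396
    22396 72396 55208 10417 2083 32813) (.S 4 5 (.S 4 2 (.L 6 7 [4, 4, 4, 5, 22, 22, 22] [96, 84,
    70, 0, 0, 0] [82, 72, 62, 50, 36, 0] 100000 0 0 1562501 17857 17857 66071 48214 48214 30357
    21429) (.L 6 7 [4, 4, 4, 5, 22, 22, 22] [126, 116, 106, 96, 84, 70] [82, 72, 62, 50, 36, 0]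
    100000 33333 33332 1481819 12121 12121 90909 78788 0 0 33333)) (.E 2)))) (.L 6 7 [4, 4, 4, 5,
    22, 22, 22] [126, 116, 106, 96, 84, 70] [] 100000 1205 1205 1583133 14458 0 86747 43373 25301
    57831 19277)) (.E 1)))) (.S 2 5 (.S 2 4 (.S 3 8 (.S 3 4 (.S 3 2 (.L 6 7 [4, 4, 4, 5, 22, 22,
    22] [126, 116, 106, 96, 84, 70] [] 100000 25320 25320 1499454 25137 25137 73224 62295 12022 0
    33333) (.L 6 7 [4, 4, 4, 5, 22, 22, 22] [126, 116, 106, 96, 84, 70] [] 100000 20462 20462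
    1537130 32178 0 83168 49257 8911 20792 29950)) (.E 2)) (.E 1)) (.L 6 7 [4, 4, 4, 5, 22, 22, 22]
    [126, 116, 106, 96, 84, 70] [] 100000 7885 7884 1553765 21505 3226 80645 40860 19355 37634
    21505)) (.L 6 7 [4, 4, 4, 5, 22, 22, 22] [126, 116, 106, 96, 84, 70] [] 100000 0 0 1500000 0 0
    100000 0 25000 75000 25000))) (.S 2 3 (.L 6 7 [4, 4, 4, 5, 22, 22, 22] [147, 146, 136, 126,
    116, 104] [] 100000 4431 4430 1567858 3571 13889 73016 51190 59127 595 32143) (.L 6 7 [4, 4, 4,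
    5, 22, 22, 22] [147, 146, 136, 126, 116, 104] [] 100000 8333 8332 1525000 25000 0 75000 50000
    50000 0 25000))) (.E 0)

lemma s22_22_7_6_36 {n : ℕ} (hn : 5 ≤ n) : NoNd (d22_22_7_6.R : ℤ) d22_22_7_6.H n d22_22_7_6.a d22_22_7_6.b
    (BlkD.inB (BlkD.upd (BlkD.upd (BlkD.upd (fun _ => 0) 0 4) 0 5) 1 5)
      (BlkD.upd (BlkD.upd (BlkD.upd (BlkD.upd (BlkD.upd (fun _ => 22) 0 7) 2 6) 0 5) 1 17) 1 8)) :=
  BlkD.tree_sound (BlkD.pairOk_sound k22_22_7_6) (by decide) hn t22_22_7_6_36 _ _ (by decide +kernel)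

/-- certificates of the pair `(7, 6)`, part 37 -/
def t22_22_7_6_37 : BlkD.Tr :=
  .E 0

lemma s22_22_7_6_37 {n : ℕ} (hn : 5 ≤ n) : NoNd (d22_22_7_6.R : ℤ) d22_22_7_6.H n d22_22_7_6.a d22_22_7_6.b
    (BlkD.inB (BlkD.upd (BlkD.upd (BlkD.upd (fun _ => 0) 0 4) 0 5) 1 9)
      (BlkD.upd (BlkD.upd (BlkD.upd (BlkD.upd (fun _ => 22) 0 7) 2 6) 0 5) 1 17)) :=
  BlkD.tree_sound (BlkD.pairOk_sound k22_22_7_6) (by decide) hn t22_22_7_6_37 _ _ (by decide +kernel)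

/-- certificates of the pair `(7, 6)`, part 38 -/
def t22_22_7_6_38 : BlkD.Tr :=
  .E 0

lemma s22_22_7_6_38 {n : ℕ} (hn : 5 ≤ n) : NoNd (d22_22_7_6.R : ℤ) d22_22_7_6.H n d22_22_7_6.a d22_22_7_6.b
    (BlkD.inB (BlkD.upd (BlkD.upd (BlkD.upd (fun _ => 0) 0 4) 0 5) 1 18)
      (BlkD.upd (BlkD.upd (BlkD.upd (fun _ => 22) 0 7) 2 6) 0 5)) :=
  BlkD.tree_sound (BlkD.pairOk_sound k22_22_7_6) (by decide) hn t22_22_7_6_38 _ _ (by decide +kernel)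

/-- certificates of the pair `(7, 6)`, part 39 -/
def t22_22_7_6_39 : BlkD.Tr :=
  .S 0 6 (.S 1 16 (.S 1 8 (.S 1 4 (.S 1 2 (.S 1 1 (.L 6 7 [4, 4, 4, 5, 22, 22, 22] [] [] 100000
    27742 27741 1511293 35484 17742 88710 53226 4839 7097 13548) (.S 2 3 (.S 2 1 (.L 6 7 [4, 4, 4,
    5, 22, 22, 22] [52, 40, 26, 0, 0, 0] [] 100000 33333 33332 1300000 0 66667 33333 100000 0 0 0)
    (.S 2 2 (.L 6 7 [4, 4, 4, 5, 22, 22, 22] [52, 40, 26, 0, 0, 0] [] 100000 34783 34782 1426089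
    13043 60870 56522 65217 8696 0 8696) (.S 3 11 (.S 3 5 (.L 6 7 [4, 4, 4, 5, 22, 22, 22] [52, 40,
    26, 0, 0, 0] [] 100000 24167 24167 1525000 25000 25000 62500 62500 12500 2500 12500) (.L 6 7
    [4, 4, 4, 5, 22, 22, 22] [52, 40, 26, 0, 0, 0] [] 100000 8610 8610 1544370 36424 9934 62914
    62914 10596 52980 18543)) (.E 1)))) (.S 2 5 (.S 2 4 (.S 3 10 (.S 3 5 (.S 3 2 (.L 6 7 [4, 4, 4,
    5, 22, 22, 22] [52, 40, 26, 0, 0, 0] [] 100000 33333 33332 1400000 0 0 0 0 0 0 0) (.S 3 4 (.S 3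
    3 (.L 6 7 [4, 4, 4, 5, 22, 22, 22] [52, 40, 26, 0, 0, 0] [66, 56, 44, 30, 0, 0] 100000 26667
    26667 1508000 16000 40000 56000 44000 8000 4000 8000) (.L 6 7 [4, 4, 4, 5, 22, 22, 22] [52, 40,
    26, 0, 0, 0] [90, 80, 70, 58, 44, 0] 100000 17735 17734 1540385 35256 19872 74359 69872 10897
    25000 25000)) (.L 6 7 [4, 4, 4, 5, 22, 22, 22] [52, 40, 26, 0, 0, 0] [112, 106, 96, 86, 74, 60]
    100000 9196 9196 1458621 37931 0 79310 82759 37931 17241 17241))) (.E 2)) (.E 1)) (.L 6 7 [4,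
    4, 4, 5, 22, 22, 22] [52, 40, 26, 0, 0, 0] [] 100000 5555 5554 1550002 25000 0 83333 50000
    16667 50000 16667)) (.L 6 7 [4, 4, 4, 5, 22, 22, 22] [52, 40, 26, 0, 0, 0] [] 100000 3704 3704
    1500002 27778 0 83333 44444 16667 55556 18519)))) (.S 1 3 (.S 2 3 (.L 6 7 [4, 4, 4, 5, 22, 22,
    22] [78, 68, 56, 42, 0, 0] [] 100000 7408 7408 1555555 22222 16667 66667 50000 44444 0 33333)
    (.L 6 7 [4, 4, 4, 5, 22, 22, 22] [78, 68, 56, 42, 0, 0] [] 100000 9524 9524 1556350 30952 6349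
    75397 44444 44444 2381 33333)) (.L 6 7 [4, 4, 4, 5, 22, 22, 22] [106, 96, 86, 74, 60, 0] []
    100000 2566 2566 1570768 3846 8462 66923 49231 58462 769 33077))) (.L 6 7 [4, 4, 4, 5, 22, 22,
    22] [] [] 100000 22222 22221 1455556 0 11111 100000 33333 33333 0 33333)) (.E 0)) (.E 0)) (.L 6
    7 [4, 4, 4, 5, 22, 22, 22] [] [] 100000 0 0 1584711 0 15289 50000 38017 60744 19008 20248)

lemma s22_22_7_6_39 {n : ℕ} (hn : 5 ≤ n) : NoNd (d22_22_7_6.R : ℤ) d22_22_7_6.H n d22_22_7_6.a d22_22_7_6.b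
    (BlkD.inB (BlkD.upd (BlkD.upd (fun _ => 0) 0 4) 0 6)
      (BlkD.upd (BlkD.upd (fun _ => 22) 0 7) 2 6)) :=
  BlkD.tree_sound (BlkD.pairOk_sound k22_22_7_6) (by decide) hn t22_22_7_6_39 _ _ (by decide +kernel)

/-- certificates of the pair `(7, 6)`, part 40 -/
def t22_22_7_6_40 : BlkD.Tr :=
  .E 1

lemma s22_22_7_6_40 {n : ℕ} (hn : 5 ≤ n) : NoNd (d22_22_7_6.R : ℤ) d22_22_7_6.H n d22_22_7_6.a d22_22_7_6.b
    (BlkD.inB (BlkD.upd (fun _ => 0) 2 7)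
      (BlkD.upd (fun _ => 22) 0 7)) :=
  BlkD.tree_sound (BlkD.pairOk_sound k22_22_7_6) (by decide) hn t22_22_7_6_40 _ _ (by decide +kernel)

/-- certificates of the pair `(7, 6)`, part 41 -/
def t22_22_7_6_41 : BlkD.Tr :=
  .E 0

lemma s22_22_7_6_41 {n : ℕ} (hn : 5 ≤ n) : NoNd (d22_22_7_6.R : ℤ) d22_22_7_6.H n d22_22_7_6.a d22_22_7_6.b
    (BlkD.inB (BlkD.upd (fun _ => 0) 0 8)
      (fun _ => 22)) :=
  BlkD.tree_sound (BlkD.pairOk_sound k22_22_7_6) (by decide) hn t22_22_7_6_41 _ _ (by decide +kernel)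

lemma pr22_22_7_6 {n : ℕ} (hn : 5 ≤ n) : NoPr ((22 : ℕ) : ℤ) ((22 : ℕ) : ℤ) n 7 6 :=
  BlkD.of_root (R := d22_22_7_6.R) (H := d22_22_7_6.H) (a := d22_22_7_6.a) (b := d22_22_7_6.b) (q := 3) (by decide) hn
    (BlkD.sp 0 7 (BlkD.sp 2 6 (BlkD.sp 0 3 (BlkD.sp 0 1 (BlkD.sp 0 0 (s22_22_7_6_1 hn) (BlkD.sp 1
      11 (BlkD.sp 1 5 (s22_22_7_6_2 hn) (BlkD.sp 1 8 (s22_22_7_6_3 hn) (s22_22_7_6_4 hn)))
      (s22_22_7_6_5 hn))) (BlkD.sp 0 2 (BlkD.sp 1 20 (BlkD.sp 1 10 (BlkD.sp 1 5 (s22_22_7_6_6 hn)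
      (BlkD.sp 1 8 (BlkD.sp 1 7 (BlkD.sp 1 6 (s22_22_7_6_7 hn) (s22_22_7_6_8 hn)) (s22_22_7_6_9
      hn)) (s22_22_7_6_10 hn))) (s22_22_7_6_11 hn)) (s22_22_7_6_12 hn)) (BlkD.sp 1 19 (BlkD.sp 1 9
      (BlkD.sp 1 4 (s22_22_7_6_13 hn) (BlkD.sp 1 7 (BlkD.sp 1 6 (BlkD.sp 1 5 (s22_22_7_6_14 hn)
      (BlkD.sp 2 3 (s22_22_7_6_15 hn) (s22_22_7_6_16 hn))) (BlkD.sp 2 3 (s22_22_7_6_17 hn)
      (s22_22_7_6_18 hn))) (s22_22_7_6_19 hn))) (s22_22_7_6_20 hn)) (s22_22_7_6_21 hn)))) (BlkD.sp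
      0 5 (BlkD.sp 0 4 (BlkD.sp 1 18 (BlkD.sp 1 9 (BlkD.sp 1 4 (BlkD.sp 1 2 (s22_22_7_6_22 hn)
      (BlkD.sp 1 3 (s22_22_7_6_23 hn) (s22_22_7_6_24 hn))) (BlkD.sp 1 7 (BlkD.sp 1 6 (BlkD.sp 1 5
      (BlkD.sp 2 3 (s22_22_7_6_25 hn) (s22_22_7_6_26 hn)) (BlkD.sp 2 3 (s22_22_7_6_27 hn)
      (s22_22_7_6_28 hn))) (s22_22_7_6_29 hn)) (s22_22_7_6_30 hn))) (s22_22_7_6_31 hn))
      (s22_22_7_6_32 hn)) (BlkD.sp 1 17 (BlkD.sp 1 8 (BlkD.sp 1 4 (BlkD.sp 1 2 (s22_22_7_6_33 hn)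
      (BlkD.sp 1 3 (s22_22_7_6_34 hn) (s22_22_7_6_35 hn))) (s22_22_7_6_36 hn)) (s22_22_7_6_37 hn))
      (s22_22_7_6_38 hn))) (s22_22_7_6_39 hn))) (s22_22_7_6_40 hn)) (s22_22_7_6_41 hn))

end BlkC

end Pool.Agent.Lib.MP_f04ccf_co
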