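import Pool.Agent.Lib.MP_f04ccf_co.M.BlkT

/-!
MP_f04ccf_co, block certificate, data `R = 22`, `H = 22`, part 6 (generated, helper99:
bd10.cpp, gen2.py).
-/

set_option autoImplicit false
set_option maxRecDepth 100000

namespace Pool.Agent.Lib.MP_f04ccf_co

namespace BlkC

/-- the numbers of the pair `(7, 7)`, `R = 22`, `H = 22` -/
def d22_22_7_7 : BlkD.Pd :=
  ⟨22, 22, 3, 7, 7, 5, 2, 3, 2, 2, 8, 0, 2, 2, 8, 0, [0, 8, 14, 16, 18, 20], [0, 8, 14, 16, 18,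
    20], [⟨1, 1, 1, 4, 8, [0, 4], [0, 4]⟩, ⟨1, 1, 1, 4, 12, [0, 6], [0, 6]⟩, ⟨1, 1, 1, 4, 16, [0,
    8], [0, 8]⟩]⟩

lemma k22_22_7_7 : BlkD.pairOk d22_22_7_7 = true := by decide +kernel

/-- certificates of the pair `(7, 7)`, part 1 -/
def t22_22_7_7_1 : BlkD.Tr :=
  .L 6 6 [4, 4, 5, 22, 22, 22, 22, 22] [] [] 100000 45222 45222 1449263 63971 11765 80147 55882 0 0
    0

lemma s22_22_7_7_1 {n : ℕ} (hn : 5 ≤ n) : NoNd (d22_22_7_7.R : ℤ) d22_22_7_7.H n d22_22_7_7.a d22_22_7_7.b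
    (BlkD.inB (fun _ => 0)
      (BlkD.upd (BlkD.upd (BlkD.upd (BlkD.upd (BlkD.upd (fun _ => 22) 0 7) 2 7) 0 3) 0 1) 0 0)) :=
  BlkD.tree_sound (BlkD.pairOk_sound k22_22_7_7) (by decide) hn t22_22_7_7_1 _ _ (by decide +kernel)

/-- certificates of the pair `(7, 7)`, part 2 -/
def t22_22_7_7_2 : BlkD.Tr :=
  .S 1 2 (.L 6 6 [4, 4, 5, 22, 22, 22, 22, 22] [] [] 100000 45222 45222 1449263 63971 11765 80147
    55882 0 0 0) (.L 6 6 [4, 4, 5, 22, 22, 22, 22, 22] [] [] 100000 45222 45222 1449263 63971 11765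
    80147 55882 0 0 0)

lemma s22_22_7_7_2 {n : ℕ} (hn : 5 ≤ n) : NoNd (d22_22_7_7.R : ℤ) d22_22_7_7.H n d22_22_7_7.a d22_22_7_7.b
    (BlkD.inB (BlkD.upd (fun _ => 0) 0 1)
      (BlkD.upd (BlkD.upd (BlkD.upd (BlkD.upd (BlkD.upd (BlkD.upd (fun _ => 22) 0 7) 2 7) 0 3) 0 1) 1 11) 1 5)) :=
  BlkD.tree_sound (BlkD.pairOk_sound k22_22_7_7) (by decide) hn t22_22_7_7_2 _ _ (by decide +kernel)

/-- certificates of the pair `(7, 7)`, part 3 -/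
def t22_22_7_7_3 : BlkD.Tr :=
  .S 1 8 (.S 1 7 (.L 6 6 [4, 4, 5, 22, 22, 22, 22, 22] [] [] 100000 45222 45222 1449263 63971 11765
    80147 55882 0 0 0) (.L 6 6 [4, 4, 5, 22, 22, 22, 22, 22] [134, 132, 130, 128, 122, 114] []
    100000 45222 45222 1449263 63971 11765 80147 55882 0 0 0)) (.L 6 6 [4, 4, 5, 22, 22, 22, 22,
    22] [] [] 100000 45222 45222 1449263 63971 11765 80147 55882 0 0 0)

lemma s22_22_7_7_3 {n : ℕ} (hn : 5 ≤ n) : NoNd (d22_22_7_7.R : ℤ) d22_22_7_7.H n d22_22_7_7.a d22_22_7_7.b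
    (BlkD.inB (BlkD.upd (BlkD.upd (fun _ => 0) 0 1) 1 6)
      (BlkD.upd (BlkD.upd (BlkD.upd (BlkD.upd (BlkD.upd (fun _ => 22) 0 7) 2 7) 0 3) 0 1) 1 11)) :=
  BlkD.tree_sound (BlkD.pairOk_sound k22_22_7_7) (by decide) hn t22_22_7_7_3 _ _ (by decide +kernel)

/-- certificates of the pair `(7, 7)`, part 4 -/
def t22_22_7_7_4 : BlkD.Tr :=
  .L 6 6 [4, 4, 5, 22, 22, 22, 22, 22] [] [] 100000 45222 45222 1449263 63971 11765 80147 55882 0 0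
    0

lemma s22_22_7_7_4 {n : ℕ} (hn : 5 ≤ n) : NoNd (d22_22_7_7.R : ℤ) d22_22_7_7.H n d22_22_7_7.a d22_22_7_7.b
    (BlkD.inB (BlkD.upd (BlkD.upd (fun _ => 0) 0 1) 1 12)
      (BlkD.upd (BlkD.upd (BlkD.upd (BlkD.upd (fun _ => 22) 0 7) 2 7) 0 3) 0 1)) :=
  BlkD.tree_sound (BlkD.pairOk_sound k22_22_7_7) (by decide) hn t22_22_7_7_4 _ _ (by decide +kernel)

/-- certificates of the pair `(7, 7)`, part 5 -/
def t22_22_7_7_5 : BlkD.Tr :=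
  .S 1 2 (.L 6 6 [4, 4, 5, 22, 22, 22, 22, 22] [] [] 100000 2 2 1683332 27778 5556 55556 50000 0
    5556 22222) (.L 6 6 [4, 4, 5, 22, 22, 22, 22, 22] [] [] 100000 2 2 1683332 27778 5556 55556
    50000 0 5556 22222)

lemma s22_22_7_7_5 {n : ℕ} (hn : 5 ≤ n) : NoNd (d22_22_7_7.R : ℤ) d22_22_7_7.H n d22_22_7_7.a d22_22_7_7.b
    (BlkD.inB (BlkD.upd (fun _ => 0) 0 2)
      (BlkD.upd (BlkD.upd (BlkD.upd (BlkD.upd (BlkD.upd (BlkD.upd (BlkD.upd (fun _ => 22) 0 7) 2 7) 0 3) 0 2) 1 20) 1 10) 1 5)) :=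
  BlkD.tree_sound (BlkD.pairOk_sound k22_22_7_7) (by decide) hn t22_22_7_7_5 _ _ (by decide +kernel)

/-- certificates of the pair `(7, 7)`, part 6 -/
def t22_22_7_7_6 : BlkD.Tr :=
  .L 7 7 [4, 4, 4, 22, 22, 22, 22, 22] [112, 110, 104, 96, 84, 70] [] 100000 0 0 1680001 36000 8000
    64000 36000 0 2667 33333

lemma s22_22_7_7_6 {n : ℕ} (hn : 5 ≤ n) : NoNd (d22_22_7_7.R : ℤ) d22_22_7_7.H n d22_22_7_7.a d22_22_7_7.b
    (BlkD.inB (BlkD.upd (BlkD.upd (fun _ => 0) 0 2) 1 6)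
      (BlkD.upd (BlkD.upd (BlkD.upd (BlkD.upd (BlkD.upd (BlkD.upd (BlkD.upd (BlkD.upd (BlkD.upd (fun _ => 22) 0 7) 2 7) 0 3) 0 2) 1 20) 1 10) 1 8) 1 7) 1 6)) :=
  BlkD.tree_sound (BlkD.pairOk_sound k22_22_7_7) (by decide) hn t22_22_7_7_6 _ _ (by decide +kernel)

/-- certificates of the pair `(7, 7)`, part 7 -/
def t22_22_7_7_7 : BlkD.Tr :=
  .S 2 3 (.S 2 1 (.L 7 7 [4, 4, 4, 22, 22, 22, 22, 22] [130, 128, 126, 120, 112, 100] [] 100000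
    28126 28126 1441667 56250 41667 66667 52083 0 0 0) (.L 7 7 [4, 4, 4, 22, 22, 22, 22, 22] [130,
    128, 126, 120, 112, 100] [] 100000 28126 28126 1441667 56250 41667 66667 52083 0 0 0)) (.L 7 7
    [4, 4, 4, 22, 22, 22, 22, 22] [130, 128, 126, 120, 112, 100] [] 100000 23077 23077 1592310
    61538 0 69231 30769 0 3846 11538)

lemma s22_22_7_7_7 {n : ℕ} (hn : 5 ≤ n) : NoNd (d22_22_7_7.R : ℤ) d22_22_7_7.H n d22_22_7_7.a d22_22_7_7.b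
    (BlkD.inB (BlkD.upd (BlkD.upd (BlkD.upd (fun _ => 0) 0 2) 1 6) 1 7)
      (BlkD.upd (BlkD.upd (BlkD.upd (BlkD.upd (BlkD.upd (BlkD.upd (BlkD.upd (BlkD.upd (fun _ => 22) 0 7) 2 7) 0 3) 0 2) 1 20) 1 10) 1 8) 1 7)) :=
  BlkD.tree_sound (BlkD.pairOk_sound k22_22_7_7) (by decide) hn t22_22_7_7_7 _ _ (by decide +kernel)

/-- certificates of the pair `(7, 7)`, part 8 -/
def t22_22_7_7_8 : BlkD.Tr :=
  .L 7 7 [4, 4, 4, 22, 22, 22, 22, 22] [150, 148, 146, 144, 138, 130] [] 100000 8334 8334 1666668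
    50000 0 83333 33333 0 0 33333

lemma s22_22_7_7_8 {n : ℕ} (hn : 5 ≤ n) : NoNd (d22_22_7_7.R : ℤ) d22_22_7_7.H n d22_22_7_7.a d22_22_7_7.b
    (BlkD.inB (BlkD.upd (BlkD.upd (BlkD.upd (fun _ => 0) 0 2) 1 6) 1 8)
      (BlkD.upd (BlkD.upd (BlkD.upd (BlkD.upd (BlkD.upd (BlkD.upd (BlkD.upd (fun _ => 22) 0 7) 2 7) 0 3) 0 2) 1 20) 1 10) 1 8)) :=
  BlkD.tree_sound (BlkD.pairOk_sound k22_22_7_7) (by decide) hn t22_22_7_7_8 _ _ (by decide +kernel)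

/-- certificates of the pair `(7, 7)`, part 9 -/
def t22_22_7_7_9 : BlkD.Tr :=
  .L 7 7 [4, 4, 4, 22, 22, 22, 22, 22] [] [] 100000 80000 80000 1500000 80000 0 100000 40000 0 0 0

lemma s22_22_7_7_9 {n : ℕ} (hn : 5 ≤ n) : NoNd (d22_22_7_7.R : ℤ) d22_22_7_7.H n d22_22_7_7.a d22_22_7_7.b
    (BlkD.inB (BlkD.upd (BlkD.upd (BlkD.upd (fun _ => 0) 0 2) 1 6) 1 9)
      (BlkD.upd (BlkD.upd (BlkD.upd (BlkD.upd (BlkD.upd (BlkD.upd (fun _ => 22) 0 7) 2 7) 0 3) 0 2) 1 20) 1 10)) :=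
  BlkD.tree_sound (BlkD.pairOk_sound k22_22_7_7) (by decide) hn t22_22_7_7_9 _ _ (by decide +kernel)

/-- certificates of the pair `(7, 7)`, part 10 -/
def t22_22_7_7_10 : BlkD.Tr :=
  .E 0

lemma s22_22_7_7_10 {n : ℕ} (hn : 5 ≤ n) : NoNd (d22_22_7_7.R : ℤ) d22_22_7_7.H n d22_22_7_7.a d22_22_7_7.b
    (BlkD.inB (BlkD.upd (BlkD.upd (fun _ => 0) 0 2) 1 11)
      (BlkD.upd (BlkD.upd (BlkD.upd (BlkD.upd (BlkD.upd (fun _ => 22) 0 7) 2 7) 0 3) 0 2) 1 20)) :=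
  BlkD.tree_sound (BlkD.pairOk_sound k22_22_7_7) (by decide) hn t22_22_7_7_10 _ _ (by decide +kernel)

/-- certificates of the pair `(7, 7)`, part 11 -/
def t22_22_7_7_11 : BlkD.Tr :=
  .E 0

lemma s22_22_7_7_11 {n : ℕ} (hn : 5 ≤ n) : NoNd (d22_22_7_7.R : ℤ) d22_22_7_7.H n d22_22_7_7.a d22_22_7_7.b
    (BlkD.inB (BlkD.upd (BlkD.upd (fun _ => 0) 0 2) 1 21)
      (BlkD.upd (BlkD.upd (BlkD.upd (BlkD.upd (fun _ => 22) 0 7) 2 7) 0 3) 0 2)) :=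
  BlkD.tree_sound (BlkD.pairOk_sound k22_22_7_7) (by decide) hn t22_22_7_7_11 _ _ (by decide +kernel)

/-- certificates of the pair `(7, 7)`, part 12 -/
def t22_22_7_7_12 : BlkD.Tr :=
  .L 7 7 [4, 4, 4, 22, 22, 22, 22, 22] [] [] 100000 2 2 1661537 23077 15385 46154 69231 0 4615
    18462

lemma s22_22_7_7_12 {n : ℕ} (hn : 5 ≤ n) : NoNd (d22_22_7_7.R : ℤ) d22_22_7_7.H n d22_22_7_7.a d22_22_7_7.b
    (BlkD.inB (BlkD.upd (BlkD.upd (fun _ => 0) 0 2) 0 3)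
      (BlkD.upd (BlkD.upd (BlkD.upd (BlkD.upd (BlkD.upd (BlkD.upd (fun _ => 22) 0 7) 2 7) 0 3) 1 19) 1 9) 1 4)) :=
  BlkD.tree_sound (BlkD.pairOk_sound k22_22_7_7) (by decide) hn t22_22_7_7_12 _ _ (by decide +kernel)

/-- certificates of the pair `(7, 7)`, part 13 -/
def t22_22_7_7_13 : BlkD.Tr :=
  .S 2 3 (.L 7 7 [4, 4, 4, 22, 22, 22, 22, 22] [106, 100, 92, 80, 66, 50] [] 100000 22581 22581
    1535485 32258 45161 48387 64516 0 0 0) (.L 7 7 [4, 4, 4, 22, 22, 22, 22, 22] [106, 100, 92, 80,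
    66, 50] [] 100000 0 0 1695558 24444 11111 62222 62222 0 3333 21111)

lemma s22_22_7_7_13 {n : ℕ} (hn : 5 ≤ n) : NoNd (d22_22_7_7.R : ℤ) d22_22_7_7.H n d22_22_7_7.a d22_22_7_7.b
    (BlkD.inB (BlkD.upd (BlkD.upd (BlkD.upd (fun _ => 0) 0 2) 0 3) 1 5)
      (BlkD.upd (BlkD.upd (BlkD.upd (BlkD.upd (BlkD.upd (BlkD.upd (BlkD.upd (BlkD.upd (fun _ => 22) 0 7) 2 7) 0 3) 1 19) 1 9) 1 7) 1 6) 1 5)) :=
  BlkD.tree_sound (BlkD.pairOk_sound k22_22_7_7) (by decide) hn t22_22_7_7_13 _ _ (by decide +kernel)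

/-- certificates of the pair `(7, 7)`, part 14 -/
def t22_22_7_7_14 : BlkD.Tr :=
  .S 2 3 (.L 7 7 [4, 4, 4, 22, 22, 22, 22, 22] [124, 122, 116, 108, 96, 82] [] 100000 1 1 1613635
    27273 36364 40909 68182 0 0 36364) (.S 2 5 (.S 2 4 (.L 7 7 [4, 4, 4, 22, 22, 22, 22, 22] [124,
    122, 116, 108, 96, 82] [] 100000 0 0 1695457 22727 22727 50000 45455 0 0 22727) (.S 3 8 (.S 3 4
    (.L 7 7 [4, 4, 4, 22, 22, 22, 22, 22] [124, 122, 116, 108, 96, 82] [] 100000 1377 1377 1662386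
    27523 27523 41284 44037 0 11009 13761) (.L 7 7 [4, 4, 4, 22, 22, 22, 22, 22] [124, 122, 116,
    108, 96, 82] [] 100000 0 0 1690000 30000 0 60000 90000 0 12000 18000)) (.E 1))) (.L 7 7 [4, 4,
    4, 22, 22, 22, 22, 22] [124, 122, 116, 108, 96, 82] [] 100000 0 0 1657146 35714 0 71429 50000
    4286 14286 17143))

lemma s22_22_7_7_14 {n : ℕ} (hn : 5 ≤ n) : NoNd (d22_22_7_7.R : ℤ) d22_22_7_7.H n d22_22_7_7.a d22_22_7_7.b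
    (BlkD.inB (BlkD.upd (BlkD.upd (BlkD.upd (BlkD.upd (fun _ => 0) 0 2) 0 3) 1 5) 1 6)
      (BlkD.upd (BlkD.upd (BlkD.upd (BlkD.upd (BlkD.upd (BlkD.upd (BlkD.upd (fun _ => 22) 0 7) 2 7) 0 3) 1 19) 1 9) 1 7) 1 6)) :=
  BlkD.tree_sound (BlkD.pairOk_sound k22_22_7_7) (by decide) hn t22_22_7_7_14 _ _ (by decide +kernel)

/-- certificates of the pair `(7, 7)`, part 15 -/
def t22_22_7_7_15 : BlkD.Tr :=
  .S 2 3 (.L 7 7 [4, 4, 4, 22, 22, 22, 22, 22] [144, 142, 140, 134, 126, 114] [] 100000 30000 30000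
    1560000 40000 40000 60000 60000 0 0 0) (.S 2 5 (.S 2 4 (.L 6 6 [4, 4, 5, 22, 22, 22, 22, 22]
    [144, 142, 140, 134, 126, 114] [] 100000 2500 2500 1690000 20000 20000 70000 50000 0 10000
    5000) (.S 3 7 (.S 3 3 (.L 6 6 [4, 4, 5, 22, 22, 22, 22, 22] [144, 142, 140, 134, 126, 114] []
    100000 16256 16256 1608643 43210 20576 45679 48971 1646 4527 4527) (.S 3 5 (.S 3 4 (.L 6 6 [4,
    4, 5, 22, 22, 22, 22, 22] [144, 142, 140, 134, 126, 114] [102, 94, 82, 68, 52, 0] 100000 0 0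
    1683337 20833 20833 70833 45833 0 16667 16667) (.L 6 6 [4, 4, 5, 22, 22, 22, 22, 22] [144, 142,
    140, 134, 126, 114] [126, 120, 112, 100, 86, 70] 100000 233334 1 2 66667 0 333333 333333 0 0
    0)) (.E 2))) (.E 1))) (.L 6 6 [4, 4, 5, 22, 22, 22, 22, 22] [144, 142, 140, 134, 126, 114] []
    100000 9559 9559 1608826 35294 0 85294 50000 0 8824 7353))

lemma s22_22_7_7_15 {n : ℕ} (hn : 5 ≤ n) : NoNd (d22_22_7_7.R : ℤ) d22_22_7_7.H n d22_22_7_7.a d22_22_7_7.b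
    (BlkD.inB (BlkD.upd (BlkD.upd (BlkD.upd (BlkD.upd (fun _ => 0) 0 2) 0 3) 1 5) 1 7)
      (BlkD.upd (BlkD.upd (BlkD.upd (BlkD.upd (BlkD.upd (BlkD.upd (fun _ => 22) 0 7) 2 7) 0 3) 1 19) 1 9) 1 7)) :=
  BlkD.tree_sound (BlkD.pairOk_sound k22_22_7_7) (by decide) hn t22_22_7_7_15 _ _ (by decide +kernel)

/-- certificates of the pair `(7, 7)`, part 16 -/
def t22_22_7_7_16 : BlkD.Tr :=
  .S 1 8 (.S 2 3 (.L 6 6 [4, 4, 5, 22, 22, 22, 22, 22] [166, 164, 162, 160, 154, 146] [] 100000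
    67857 67857 1471430 42857 42857 78571 57143 0 0 0) (.L 6 6 [4, 4, 5, 22, 22, 22, 22, 22] [166,
    164, 162, 160, 154, 146] [] 100000 25000 25000 1600000 50000 0 100000 50000 0 0 0)) (.L 6 6 [4,
    4, 5, 22, 22, 22, 22, 22] [190, 188, 186, 184, 182, 176] [] 100000 83333 83333 1450002 83333 0
    100000 33333 0 0 0)

lemma s22_22_7_7_16 {n : ℕ} (hn : 5 ≤ n) : NoNd (d22_22_7_7.R : ℤ) d22_22_7_7.H n d22_22_7_7.a d22_22_7_7.b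
    (BlkD.inB (BlkD.upd (BlkD.upd (BlkD.upd (BlkD.upd (fun _ => 0) 0 2) 0 3) 1 5) 1 8)
      (BlkD.upd (BlkD.upd (BlkD.upd (BlkD.upd (BlkD.upd (fun _ => 22) 0 7) 2 7) 0 3) 1 19) 1 9)) :=
  BlkD.tree_sound (BlkD.pairOk_sound k22_22_7_7) (by decide) hn t22_22_7_7_16 _ _ (by decide +kernel)

/-- certificates of the pair `(7, 7)`, part 17 -/
def t22_22_7_7_17 : BlkD.Tr :=
  .E 0

lemma s22_22_7_7_17 {n : ℕ} (hn : 5 ≤ n) : NoNd (d22_22_7_7.R : ℤ) d22_22_7_7.H n d22_22_7_7.a d22_22_7_7.b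
    (BlkD.inB (BlkD.upd (BlkD.upd (BlkD.upd (fun _ => 0) 0 2) 0 3) 1 10)
      (BlkD.upd (BlkD.upd (BlkD.upd (BlkD.upd (fun _ => 22) 0 7) 2 7) 0 3) 1 19)) :=
  BlkD.tree_sound (BlkD.pairOk_sound k22_22_7_7) (by decide) hn t22_22_7_7_17 _ _ (by decide +kernel)

/-- certificates of the pair `(7, 7)`, part 18 -/
def t22_22_7_7_18 : BlkD.Tr :=
  .E 0

lemma s22_22_7_7_18 {n : ℕ} (hn : 5 ≤ n) : NoNd (d22_22_7_7.R : ℤ) d22_22_7_7.H n d22_22_7_7.a d22_22_7_7.b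
    (BlkD.inB (BlkD.upd (BlkD.upd (BlkD.upd (fun _ => 0) 0 2) 0 3) 1 20)
      (BlkD.upd (BlkD.upd (BlkD.upd (fun _ => 22) 0 7) 2 7) 0 3)) :=
  BlkD.tree_sound (BlkD.pairOk_sound k22_22_7_7) (by decide) hn t22_22_7_7_18 _ _ (by decide +kernel)

/-- certificates of the pair `(7, 7)`, part 19 -/
def t22_22_7_7_19 : BlkD.Tr :=
  .S 1 2 (.L 6 6 [4, 4, 5, 22, 22, 22, 22, 22] [] [] 100000 2 2 1642856 14286 14286 21429 71429 0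
    5714 8571) (.S 1 3 (.L 7 7 [4, 4, 4, 22, 22, 22, 22, 22] [72, 60, 46, 30, 0, 0] [] 100000 0 0
    1669567 26087 17391 34783 65217 0 5217 20870) (.S 2 3 (.L 7 7 [4, 4, 4, 22, 22, 22, 22, 22]
    [94, 86, 74, 60, 44, 0] [] 100000 25000 25000 1550000 25000 50000 50000 75000 0 0 0) (.L 7 7
    [4, 4, 4, 22, 22, 22, 22, 22] [94, 86, 74, 60, 44, 0] [] 100000 0 0 1696725 21311 16393 47541
    73770 0 7213 14098)))

lemma s22_22_7_7_19 {n : ℕ} (hn : 5 ≤ n) : NoNd (d22_22_7_7.R : ℤ) d22_22_7_7.H n d22_22_7_7.a d22_22_7_7.b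
    (BlkD.inB (BlkD.upd (fun _ => 0) 0 4)
      (BlkD.upd (BlkD.upd (BlkD.upd (BlkD.upd (BlkD.upd (BlkD.upd (BlkD.upd (fun _ => 22) 0 7) 2 7) 0 5) 0 4) 1 18) 1 9) 1 4)) :=
  BlkD.tree_sound (BlkD.pairOk_sound k22_22_7_7) (by decide) hn t22_22_7_7_19 _ _ (by decide +kernel)

/-- certificates of the pair `(7, 7)`, part 20 -/
def t22_22_7_7_20 : BlkD.Tr :=
  .S 1 7 (.S 1 6 (.S 1 5 (.S 2 3 (.L 7 7 [4, 4, 4, 22, 22, 22, 22, 22] [116, 110, 102, 90, 76, 60]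
    [] 100000 1 1 1653333 26667 30000 50000 53333 0 8000 22000) (.S 2 5 (.L 7 7 [4, 4, 4, 22, 22,
    22, 22, 22] [116, 110, 102, 90, 76, 60] [] 100000 0 0 1692480 22566 22566 49558 47345 3097 3097
    16372) (.L 7 7 [4, 4, 4, 22, 22, 22, 22, 22] [116, 110, 102, 90, 76, 60] [] 100000 0 0 1666667
    33333 0 66667 100000 0 0 33333))) (.S 2 3 (.L 7 7 [4, 4, 4, 22, 22, 22, 22, 22] [136, 134, 128,
    120, 108, 94] [] 100000 1 1 1663156 26316 26316 63158 52632 5263 8421 12632) (.S 2 5 (.S 2 4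
    (.L 7 7 [4, 4, 4, 22, 22, 22, 22, 22] [136, 134, 128, 120, 108, 94] [] 100000 0 0 1693025 20930
    20930 51163 60465 7558 0 13372) (.S 3 7 (.S 3 3 (.L 7 7 [4, 4, 4, 22, 22, 22, 22, 22] [136,
    134, 128, 120, 108, 94] [] 100000 0 0 1652115 29577 29577 63380 52113 7042 7042 15493) (.L 7 7
    [4, 4, 4, 22, 22, 22, 22, 22] [136, 134, 128, 120, 108, 94] [] 100000 0 0 1657896 10526 10526
    100000 94737 10526 0 0)) (.E 1))) (.L 7 7 [4, 4, 4, 22, 22, 22, 22, 22] [136, 134, 128, 120,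
    108, 94] [] 100000 0 0 1689475 36842 0 94737 21053 12632 5263 18947)))) (.S 2 3 (.L 7 7 [4, 4,
    4, 22, 22, 22, 22, 22] [158, 156, 154, 148, 140, 128] [] 100000 21429 21429 1585715 22857 42857
    51429 71429 0 0 0) (.L 7 7 [4, 4, 4, 22, 22, 22, 22, 22] [158, 156, 154, 148, 140, 128] []
    100000 2 2 1681480 37037 4630 88889 30556 6481 0 30556))) (.L 7 7 [4, 4, 4, 22, 22, 22, 22, 22]
    [] [] 100000 2 2 1635713 0 21429 100000 50000 21429 0 0)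

lemma s22_22_7_7_20 {n : ℕ} (hn : 5 ≤ n) : NoNd (d22_22_7_7.R : ℤ) d22_22_7_7.H n d22_22_7_7.a d22_22_7_7.b
    (BlkD.inB (BlkD.upd (BlkD.upd (fun _ => 0) 0 4) 1 5)
      (BlkD.upd (BlkD.upd (BlkD.upd (BlkD.upd (BlkD.upd (BlkD.upd (fun _ => 22) 0 7) 2 7) 0 5) 0 4) 1 18) 1 9)) :=
  BlkD.tree_sound (BlkD.pairOk_sound k22_22_7_7) (by decide) hn t22_22_7_7_20 _ _ (by decide +kernel)

/-- certificates of the pair `(7, 7)`, part 21 -/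
def t22_22_7_7_21 : BlkD.Tr :=
  .E 0

lemma s22_22_7_7_21 {n : ℕ} (hn : 5 ≤ n) : NoNd (d22_22_7_7.R : ℤ) d22_22_7_7.H n d22_22_7_7.a d22_22_7_7.b
    (BlkD.inB (BlkD.upd (BlkD.upd (fun _ => 0) 0 4) 1 10)
      (BlkD.upd (BlkD.upd (BlkD.upd (BlkD.upd (BlkD.upd (fun _ => 22) 0 7) 2 7) 0 5) 0 4) 1 18)) :=
  BlkD.tree_sound (BlkD.pairOk_sound k22_22_7_7) (by decide) hn t22_22_7_7_21 _ _ (by decide +kernel)

/-- certificates of the pair `(7, 7)`, part 22 -/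
def t22_22_7_7_22 : BlkD.Tr :=
  .E 0

lemma s22_22_7_7_22 {n : ℕ} (hn : 5 ≤ n) : NoNd (d22_22_7_7.R : ℤ) d22_22_7_7.H n d22_22_7_7.a d22_22_7_7.b
    (BlkD.inB (BlkD.upd (BlkD.upd (fun _ => 0) 0 4) 1 19)
      (BlkD.upd (BlkD.upd (BlkD.upd (BlkD.upd (fun _ => 22) 0 7) 2 7) 0 5) 0 4)) :=
  BlkD.tree_sound (BlkD.pairOk_sound k22_22_7_7) (by decide) hn t22_22_7_7_22 _ _ (by decide +kernel)

/-- certificates of the pair `(7, 7)`, part 23 -/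
def t22_22_7_7_23 : BlkD.Tr :=
  .S 1 17 (.S 1 8 (.S 1 4 (.S 1 2 (.L 7 7 [4, 4, 4, 22, 22, 22, 22, 22] [] [] 100000 0 0 1660000
    30000 20000 61000 49000 0 6000 24000) (.S 1 3 (.L 7 7 [4, 4, 4, 22, 22, 22, 22, 22] [78, 66,
    52, 36, 0, 0] [] 100000 0 0 1697964 20408 20408 48980 51020 4082 4082 12245) (.S 2 3 (.L 7 7
    [4, 4, 4, 22, 22, 22, 22, 22] [102, 94, 82, 68, 52, 0] [] 100000 9599 9599 1618629 17908 50000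
    37822 77650 8453 2436 19914) (.S 2 5 (.S 2 4 (.L 7 7 [4, 4, 4, 22, 22, 22, 22, 22] [102, 94,
    82, 68, 52, 0] [] 100000 1 1 1670370 25926 25926 51852 66667 7407 7407 11111) (.S 3 8 (.S 3 4
    (.L 7 7 [4, 4, 4, 22, 22, 22, 22, 22] [102, 94, 82, 68, 52, 0] [] 100000 0 0 1695242 26190
    26190 51190 51190 9524 9524 9524) (.L 7 7 [4, 4, 4, 22, 22, 22, 22, 22] [102, 94, 82, 68, 52,
    0] [] 100000 9092 1 1554546 18182 18182 109091 72727 0 0 0)) (.E 1))) (.L 7 7 [4, 4, 4, 22, 22,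
    22, 22, 22] [102, 94, 82, 68, 52, 0] [] 100000 0 0 1682354 17647 17647 41176 82353 7059 0
    10588))))) (.S 1 6 (.S 1 5 (.S 2 3 (.L 7 7 [4, 4, 4, 22, 22, 22, 22, 22] [126, 120, 112, 100,
    86, 70] [] 100000 0 0 1641669 8333 33333 100000 66667 0 0 33333) (.S 2 5 (.L 7 7 [4, 4, 4, 22,
    22, 22, 22, 22] [126, 120, 112, 100, 86, 70] [] 100000 0 0 1680000 20000 20000 60000 60000 8000
    0 12000) (.L 7 7 [4, 4, 4, 22, 22, 22, 22, 22] [126, 120, 112, 100, 86, 70] [] 100000 0 0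
    1658032 35751 3109 100000 35233 0 7254 28497))) (.L 7 7 [4, 4, 4, 22, 22, 22, 22, 22] [148,
    146, 140, 132, 120, 106] [] 100000 0 0 1684378 36458 2083 90625 48958 14583 0 21875)) (.E 0)))
    (.E 0)) (.E 0)

lemma s22_22_7_7_23 {n : ℕ} (hn : 5 ≤ n) : NoNd (d22_22_7_7.R : ℤ) d22_22_7_7.H n d22_22_7_7.a d22_22_7_7.b
    (BlkD.inB (BlkD.upd (BlkD.upd (fun _ => 0) 0 4) 0 5)
      (BlkD.upd (BlkD.upd (BlkD.upd (fun _ => 22) 0 7) 2 7) 0 5)) :=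
  BlkD.tree_sound (BlkD.pairOk_sound k22_22_7_7) (by decide) hn t22_22_7_7_23 _ _ (by decide +kernel)

/-- certificates of the pair `(7, 7)`, part 24 -/
def t22_22_7_7_24 : BlkD.Tr :=
  .S 0 6 (.S 1 16 (.S 1 8 (.S 1 4 (.S 1 2 (.L 7 7 [4, 4, 4, 22, 22, 22, 22, 22] [] [] 100000 2 2
    1685059 22989 22989 62069 54023 6897 6897 9195) (.S 1 3 (.L 7 7 [4, 4, 4, 22, 22, 22, 22, 22]
    [84, 72, 58, 42, 0, 0] [] 100000 1 1 1690909 18182 18182 72727 63636 12727 0 5455) (.L 7 7 [4,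
    4, 4, 22, 22, 22, 22, 22] [110, 102, 90, 76, 60, 0] [] 100000 0 0 1687500 6250 25000 53125
    50000 25000 0 0))) (.L 7 7 [4, 4, 4, 22, 22, 22, 22, 22] [] [] 100000 24138 0 1479312 0 29310
    124138 43103 0 0 0)) (.E 0)) (.E 0)) (.L 7 7 [4, 4, 4, 22, 22, 22, 22, 22] [] [] 100000 5 5
    1693887 6114 17686 35371 55240 9389 9389 9389)

lemma s22_22_7_7_24 {n : ℕ} (hn : 5 ≤ n) : NoNd (d22_22_7_7.R : ℤ) d22_22_7_7.H n d22_22_7_7.a d22_22_7_7.b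
    (BlkD.inB (BlkD.upd (BlkD.upd (fun _ => 0) 0 4) 0 6)
      (BlkD.upd (BlkD.upd (fun _ => 22) 0 7) 2 7)) :=
  BlkD.tree_sound (BlkD.pairOk_sound k22_22_7_7) (by decide) hn t22_22_7_7_24 _ _ (by decide +kernel)

/-- certificates of the pair `(7, 7)`, part 25 -/
def t22_22_7_7_25 : BlkD.Tr :=
  .E 1

lemma s22_22_7_7_25 {n : ℕ} (hn : 5 ≤ n) : NoNd (d22_22_7_7.R : ℤ) d22_22_7_7.H n d22_22_7_7.a d22_22_7_7.b
    (BlkD.inB (BlkD.upd (fun _ => 0) 2 8)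
      (BlkD.upd (fun _ => 22) 0 7)) :=
  BlkD.tree_sound (BlkD.pairOk_sound k22_22_7_7) (by decide) hn t22_22_7_7_25 _ _ (by decide +kernel)

/-- certificates of the pair `(7, 7)`, part 26 -/
def t22_22_7_7_26 : BlkD.Tr :=
  .E 0

lemma s22_22_7_7_26 {n : ℕ} (hn : 5 ≤ n) : NoNd (d22_22_7_7.R : ℤ) d22_22_7_7.H n d22_22_7_7.a d22_22_7_7.b
    (BlkD.inB (BlkD.upd (fun _ => 0) 0 8)
      (fun _ => 22)) :=
  BlkD.tree_sound (BlkD.pairOk_sound k22_22_7_7) (by decide) hn t22_22_7_7_26 _ _ (by decide +kernel)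

lemma pr22_22_7_7 {n : ℕ} (hn : 5 ≤ n) : NoPr ((22 : ℕ) : ℤ) ((22 : ℕ) : ℤ) n 7 7 :=
  BlkD.of_root (R := d22_22_7_7.R) (H := d22_22_7_7.H) (a := d22_22_7_7.a) (b := d22_22_7_7.b) (q := 3) (by decide) hn
    (BlkD.sp 0 7 (BlkD.sp 2 7 (BlkD.sp 0 3 (BlkD.sp 0 1 (BlkD.sp 0 0 (s22_22_7_7_1 hn) (BlkD.sp 1
      11 (BlkD.sp 1 5 (s22_22_7_7_2 hn) (s22_22_7_7_3 hn)) (s22_22_7_7_4 hn))) (BlkD.sp 0 2
      (BlkD.sp 1 20 (BlkD.sp 1 10 (BlkD.sp 1 5 (s22_22_7_7_5 hn) (BlkD.sp 1 8 (BlkD.sp 1 7 (BlkD.sp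
      1 6 (s22_22_7_7_6 hn) (s22_22_7_7_7 hn)) (s22_22_7_7_8 hn)) (s22_22_7_7_9 hn)))
      (s22_22_7_7_10 hn)) (s22_22_7_7_11 hn)) (BlkD.sp 1 19 (BlkD.sp 1 9 (BlkD.sp 1 4
      (s22_22_7_7_12 hn) (BlkD.sp 1 7 (BlkD.sp 1 6 (BlkD.sp 1 5 (s22_22_7_7_13 hn) (s22_22_7_7_14
      hn)) (s22_22_7_7_15 hn)) (s22_22_7_7_16 hn))) (s22_22_7_7_17 hn)) (s22_22_7_7_18 hn))))
      (BlkD.sp 0 5 (BlkD.sp 0 4 (BlkD.sp 1 18 (BlkD.sp 1 9 (BlkD.sp 1 4 (s22_22_7_7_19 hn)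
      (s22_22_7_7_20 hn)) (s22_22_7_7_21 hn)) (s22_22_7_7_22 hn)) (s22_22_7_7_23 hn))
      (s22_22_7_7_24 hn))) (s22_22_7_7_25 hn)) (s22_22_7_7_26 hn))

/-- the numbers of the pair `(8, 0)`, `R = 22`, `H = 22` -/
def d22_22_8_0 : BlkD.Pd :=
  ⟨22, 22, 3, 8, 0, 11, 0, 1, 0, 4, 4, 0, 0, 4, 4, 0, [0, 4, 8, 12, 16, 20, 24, 28, 32, 36, 40,
    44], [0, 4, 8, 12, 16, 20, 24, 28, 32, 36, 40, 44], [⟨1, 1, 1, 4, 8, [0, 4], [0, 4]⟩]⟩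

/-- the certificates of the pair `(8, 0)` -/
def t22_22_8_0 : BlkD.Tr :=
  .S 0 8 (.S 2 0 (.S 0 4 (.L 4 4 [4] [] [] 100000 0 0 900000 50000 0 50000 50000 0 0 0) (.L 4 4 [4]
    [] [] 100000 0 0 900000 50000 0 50000 50000 0 0 0)) (.E 1)) (.E 0)

lemma pr22_22_8_0 {n : ℕ} (hn : 5 ≤ n) : NoPr ((22 : ℕ) : ℤ) ((22 : ℕ) : ℤ) n 8 0 :=
  BlkD.pair_sound (d := d22_22_8_0) (by decide +kernel) hn (by decide) (tr := t22_22_8_0)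
    (by decide +kernel) rfl rfl rfl rfl

/-- the numbers of the pair `(8, 1)`, `R = 22`, `H = 22` -/
def d22_22_8_1 : BlkD.Pd :=
  ⟨22, 22, 3, 8, 1, 10, 1, 1, 0, 4, 8, 0, 0, 4, 4, 0, [0, 8, 16, 24, 32, 40, 40, 40, 40, 40, 40],
    [0, 4, 8, 12, 16, 20, 24, 28, 32, 36, 40], [⟨1, 1, 1, 4, 8, [0, 4], [0, 4]⟩, ⟨1, 1, 1, 4, 12,
    [0, 8], [0, 4]⟩]⟩

lemma k22_22_8_1 : BlkD.pairOk d22_22_8_1 = true := by decide +kernel

/-- certificates of the pair `(8, 1)`, part 1 -/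
def t22_22_8_1_1 : BlkD.Tr :=
  .S 0 1 (.L 4 6 [4, 4] [] [] 100000 0 0 1050000 50000 0 75000 0 0 0 0) (.L 4 6 [4, 4] [] [] 100000
    0 0 1050000 50000 0 75000 0 0 0 0)

lemma s22_22_8_1_1 {n : ℕ} (hn : 5 ≤ n) : NoNd (d22_22_8_1.R : ℤ) d22_22_8_1.H n d22_22_8_1.a d22_22_8_1.b
    (BlkD.inB (fun _ => 0)
      (BlkD.upd (BlkD.upd (BlkD.upd (BlkD.upd (fun _ => 22) 0 8) 2 1) 0 4) 0 2)) :=
  BlkD.tree_sound (BlkD.pairOk_sound k22_22_8_1) (by decide) hn t22_22_8_1_1 _ _ (by decide +kernel)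

/-- certificates of the pair `(8, 1)`, part 2 -/
def t22_22_8_1_2 : BlkD.Tr :=
  .L 4 6 [4, 4] [] [] 100000 0 0 1050000 50000 0 75000 0 0 0 0

lemma s22_22_8_1_2 {n : ℕ} (hn : 5 ≤ n) : NoNd (d22_22_8_1.R : ℤ) d22_22_8_1.H n d22_22_8_1.a d22_22_8_1.b
    (BlkD.inB (BlkD.upd (fun _ => 0) 0 3)
      (BlkD.upd (BlkD.upd (BlkD.upd (fun _ => 22) 0 8) 2 1) 0 4)) :=
  BlkD.tree_sound (BlkD.pairOk_sound k22_22_8_1) (by decide) hn t22_22_8_1_2 _ _ (by decide +kernel)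

/-- certificates of the pair `(8, 1)`, part 3 -/
def t22_22_8_1_3 : BlkD.Tr :=
  .L 4 6 [4, 4] [] [] 100000 0 0 1050000 50000 0 75000 0 0 0 0

lemma s22_22_8_1_3 {n : ℕ} (hn : 5 ≤ n) : NoNd (d22_22_8_1.R : ℤ) d22_22_8_1.H n d22_22_8_1.a d22_22_8_1.b
    (BlkD.inB (BlkD.upd (fun _ => 0) 0 5)
      (BlkD.upd (BlkD.upd (fun _ => 22) 0 8) 2 1)) :=
  BlkD.tree_sound (BlkD.pairOk_sound k22_22_8_1) (by decide) hn t22_22_8_1_3 _ _ (by decide +kernel)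

/-- certificates of the pair `(8, 1)`, part 4 -/
def t22_22_8_1_4 : BlkD.Tr :=
  .E 1

lemma s22_22_8_1_4 {n : ℕ} (hn : 5 ≤ n) : NoNd (d22_22_8_1.R : ℤ) d22_22_8_1.H n d22_22_8_1.a d22_22_8_1.b
    (BlkD.inB (BlkD.upd (fun _ => 0) 2 2)
      (BlkD.upd (fun _ => 22) 0 8)) :=
  BlkD.tree_sound (BlkD.pairOk_sound k22_22_8_1) (by decide) hn t22_22_8_1_4 _ _ (by decide +kernel)

/-- certificates of the pair `(8, 1)`, part 5 -/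
def t22_22_8_1_5 : BlkD.Tr :=
  .E 0

lemma s22_22_8_1_5 {n : ℕ} (hn : 5 ≤ n) : NoNd (d22_22_8_1.R : ℤ) d22_22_8_1.H n d22_22_8_1.a d22_22_8_1.b
    (BlkD.inB (BlkD.upd (fun _ => 0) 0 9)
      (fun _ => 22)) :=
  BlkD.tree_sound (BlkD.pairOk_sound k22_22_8_1) (by decide) hn t22_22_8_1_5 _ _ (by decide +kernel)

lemma pr22_22_8_1 {n : ℕ} (hn : 5 ≤ n) : NoPr ((22 : ℕ) : ℤ) ((22 : ℕ) : ℤ) n 8 1 :=
  BlkD.of_root (R := d22_22_8_1.R) (H := d22_22_8_1.H) (a := d22_22_8_1.a) (b := d22_22_8_1.b) (q := 3) (by decide) hn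
    (BlkD.sp 0 8 (BlkD.sp 2 1 (BlkD.sp 0 4 (BlkD.sp 0 2 (s22_22_8_1_1 hn) (s22_22_8_1_2 hn))
      (s22_22_8_1_3 hn)) (s22_22_8_1_4 hn)) (s22_22_8_1_5 hn))

end BlkC

end Pool.Agent.Lib.MP_f04ccf_co
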