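import Pool.Agent.Lib.MP_f04ccf_co.M.BlkT

/-!
MP_f04ccf_co, block certificate, data `R = 22`, `H = 22`, part 7 (generated, helper99:
bd10.cpp, gen2.py).
-/

set_option autoImplicit false
set_option maxRecDepth 100000

namespace Pool.Agent.Lib.MP_f04ccf_co

namespace BlkC

/-- the numbers of the pair `(8, 2)`, `R = 22`, `H = 22` -/
def d22_22_8_2 : BlkD.Pd :=
  ⟨22, 22, 3, 8, 2, 9, 2, 1, 0, 4, 10, 0, 0, 4, 6, 0, [0, 10, 20, 30, 36, 36, 36, 36, 36, 36], [0,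
    6, 12, 18, 24, 30, 36, 36, 36, 36], [⟨1, 1, 1, 4, 8, [0, 4], [0, 4]⟩, ⟨1, 1, 1, 4, 12, [0, 8],
    [0, 4]⟩, ⟨1, 1, 1, 6, 16, [0, 10], [0, 6]⟩]⟩

lemma k22_22_8_2 : BlkD.pairOk d22_22_8_2 = true := by decide +kernel

/-- certificates of the pair `(8, 2)`, part 1 -/
def t22_22_8_2_1 : BlkD.Tr :=
  .S 0 0 (.L 4 6 [4, 4, 5] [] [] 100000 1 1 1271204 21466 0 60733 10733 4188 32461 32461) (.L 4 6
    [4, 4, 5] [] [] 100000 1 1 1271204 21466 0 60733 10733 4188 32461 32461)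

lemma s22_22_8_2_1 {n : ℕ} (hn : 5 ≤ n) : NoNd (d22_22_8_2.R : ℤ) d22_22_8_2.H n d22_22_8_2.a d22_22_8_2.b
    (BlkD.inB (fun _ => 0)
      (BlkD.upd (BlkD.upd (BlkD.upd (BlkD.upd (BlkD.upd (fun _ => 22) 0 8) 2 2) 0 4) 0 2) 0 1)) :=
  BlkD.tree_sound (BlkD.pairOk_sound k22_22_8_2) (by decide) hn t22_22_8_2_1 _ _ (by decide +kernel)

/-- certificates of the pair `(8, 2)`, part 2 -/
def t22_22_8_2_2 : BlkD.Tr :=
  .L 4 6 [4, 4, 5] [] [] 100000 1 1 1271204 21466 0 60733 10733 4188 32461 32461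

lemma s22_22_8_2_2 {n : ℕ} (hn : 5 ≤ n) : NoNd (d22_22_8_2.R : ℤ) d22_22_8_2.H n d22_22_8_2.a d22_22_8_2.b
    (BlkD.inB (BlkD.upd (fun _ => 0) 0 2)
      (BlkD.upd (BlkD.upd (BlkD.upd (BlkD.upd (fun _ => 22) 0 8) 2 2) 0 4) 0 2)) :=
  BlkD.tree_sound (BlkD.pairOk_sound k22_22_8_2) (by decide) hn t22_22_8_2_2 _ _ (by decide +kernel)

/-- certificates of the pair `(8, 2)`, part 3 -/
def t22_22_8_2_3 : BlkD.Tr :=
  .S 0 3 (.L 4 6 [4, 4, 5] [] [] 100000 1 1 1271204 21466 0 60733 10733 4188 32461 32461) (.L 4 6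
    [4, 4, 5] [] [] 100000 1 1 1271204 21466 0 60733 10733 4188 32461 32461)

lemma s22_22_8_2_3 {n : ℕ} (hn : 5 ≤ n) : NoNd (d22_22_8_2.R : ℤ) d22_22_8_2.H n d22_22_8_2.a d22_22_8_2.b
    (BlkD.inB (BlkD.upd (fun _ => 0) 0 3)
      (BlkD.upd (BlkD.upd (BlkD.upd (fun _ => 22) 0 8) 2 2) 0 4)) :=
  BlkD.tree_sound (BlkD.pairOk_sound k22_22_8_2) (by decide) hn t22_22_8_2_3 _ _ (by decide +kernel)

/-- certificates of the pair `(8, 2)`, part 4 -/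
def t22_22_8_2_4 : BlkD.Tr :=
  .L 4 6 [4, 4, 5] [] [] 100000 1 1 1271204 21466 0 60733 10733 4188 32461 32461

lemma s22_22_8_2_4 {n : ℕ} (hn : 5 ≤ n) : NoNd (d22_22_8_2.R : ℤ) d22_22_8_2.H n d22_22_8_2.a d22_22_8_2.b
    (BlkD.inB (BlkD.upd (fun _ => 0) 0 5)
      (BlkD.upd (BlkD.upd (fun _ => 22) 0 8) 2 2)) :=
  BlkD.tree_sound (BlkD.pairOk_sound k22_22_8_2) (by decide) hn t22_22_8_2_4 _ _ (by decide +kernel)

/-- certificates of the pair `(8, 2)`, part 5 -/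
def t22_22_8_2_5 : BlkD.Tr :=
  .E 1

lemma s22_22_8_2_5 {n : ℕ} (hn : 5 ≤ n) : NoNd (d22_22_8_2.R : ℤ) d22_22_8_2.H n d22_22_8_2.a d22_22_8_2.b
    (BlkD.inB (BlkD.upd (fun _ => 0) 2 3)
      (BlkD.upd (fun _ => 22) 0 8)) :=
  BlkD.tree_sound (BlkD.pairOk_sound k22_22_8_2) (by decide) hn t22_22_8_2_5 _ _ (by decide +kernel)

/-- certificates of the pair `(8, 2)`, part 6 -/
def t22_22_8_2_6 : BlkD.Tr :=
  .E 0

lemma s22_22_8_2_6 {n : ℕ} (hn : 5 ≤ n) : NoNd (d22_22_8_2.R : ℤ) d22_22_8_2.H n d22_22_8_2.a d22_22_8_2.b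
    (BlkD.inB (BlkD.upd (fun _ => 0) 0 9)
      (fun _ => 22)) :=
  BlkD.tree_sound (BlkD.pairOk_sound k22_22_8_2) (by decide) hn t22_22_8_2_6 _ _ (by decide +kernel)

lemma pr22_22_8_2 {n : ℕ} (hn : 5 ≤ n) : NoPr ((22 : ℕ) : ℤ) ((22 : ℕ) : ℤ) n 8 2 :=
  BlkD.of_root (R := d22_22_8_2.R) (H := d22_22_8_2.H) (a := d22_22_8_2.a) (b := d22_22_8_2.b) (q := 3) (by decide) hn
    (BlkD.sp 0 8 (BlkD.sp 2 2 (BlkD.sp 0 4 (BlkD.sp 0 2 (BlkD.sp 0 1 (s22_22_8_2_1 hn)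
      (s22_22_8_2_2 hn)) (s22_22_8_2_3 hn)) (s22_22_8_2_4 hn)) (s22_22_8_2_5 hn)) (s22_22_8_2_6
      hn))

/-- the numbers of the pair `(8, 3)`, `R = 22`, `H = 22` -/
def d22_22_8_3 : BlkD.Pd :=
  ⟨22, 22, 3, 8, 3, 8, 3, 2, 1, 4, 12, 0, 4, 1, 8, 0, [0, 12, 24, 35, 36, 37, 38, 39, 40], [0, 8,
    16, 20, 24, 28, 32, 36, 40], [⟨1, 1, 1, 4, 8, [0, 4], [0, 4]⟩, ⟨1, 1, 1, 6, 14, [0, 8], [0,
    6]⟩, ⟨1, 1, 1, 6, 16, [0, 10], [0, 6]⟩, ⟨2, 1, 1, 6, 26, [0, 12, 18], [0, 8]⟩]⟩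

lemma k22_22_8_3 : BlkD.pairOk d22_22_8_3 = true := by decide +kernel

/-- certificates of the pair `(8, 3)`, part 1 -/
def t22_22_8_3_1 : BlkD.Tr :=
  .L 5 7 [4, 4, 5, 5] [] [] 100000 69167 69167 1040000 60000 0 80000 40000 0 12500 16250

lemma s22_22_8_3_1 {n : ℕ} (hn : 5 ≤ n) : NoNd (d22_22_8_3.R : ℤ) d22_22_8_3.H n d22_22_8_3.a d22_22_8_3.b
    (BlkD.inB (fun _ => 0)
      (BlkD.upd (BlkD.upd (BlkD.upd (BlkD.upd (BlkD.upd (BlkD.upd (fun _ => 22) 0 8) 2 3) 0 4) 0 2) 0 1) 0 0)) :=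
  BlkD.tree_sound (BlkD.pairOk_sound k22_22_8_3) (by decide) hn t22_22_8_3_1 _ _ (by decide +kernel)

/-- certificates of the pair `(8, 3)`, part 2 -/
def t22_22_8_3_2 : BlkD.Tr :=
  .L 5 7 [4, 4, 5, 5] [] [] 100000 69167 69167 1040000 60000 0 80000 40000 0 12500 16250

lemma s22_22_8_3_2 {n : ℕ} (hn : 5 ≤ n) : NoNd (d22_22_8_3.R : ℤ) d22_22_8_3.H n d22_22_8_3.a d22_22_8_3.b
    (BlkD.inB (BlkD.upd (fun _ => 0) 0 1)
      (BlkD.upd (BlkD.upd (BlkD.upd (BlkD.upd (BlkD.upd (BlkD.upd (BlkD.upd (fun _ => 22) 0 8) 2 3) 0 4) 0 2) 0 1) 1 11) 1 5)) :=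
  BlkD.tree_sound (BlkD.pairOk_sound k22_22_8_3) (by decide) hn t22_22_8_3_2 _ _ (by decide +kernel)

/-- certificates of the pair `(8, 3)`, part 3 -/
def t22_22_8_3_3 : BlkD.Tr :=
  .S 1 8 (.L 5 7 [4, 4, 5, 5] [] [] 100000 69167 69167 1040000 60000 0 80000 40000 0 12500 16250)
    (.L 5 7 [4, 4, 5, 5] [] [] 100000 69167 69167 1040000 60000 0 80000 40000 0 12500 16250)

lemma s22_22_8_3_3 {n : ℕ} (hn : 5 ≤ n) : NoNd (d22_22_8_3.R : ℤ) d22_22_8_3.H n d22_22_8_3.a d22_22_8_3.b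
    (BlkD.inB (BlkD.upd (BlkD.upd (fun _ => 0) 0 1) 1 6)
      (BlkD.upd (BlkD.upd (BlkD.upd (BlkD.upd (BlkD.upd (BlkD.upd (fun _ => 22) 0 8) 2 3) 0 4) 0 2) 0 1) 1 11)) :=
  BlkD.tree_sound (BlkD.pairOk_sound k22_22_8_3) (by decide) hn t22_22_8_3_3 _ _ (by decide +kernel)

/-- certificates of the pair `(8, 3)`, part 4 -/
def t22_22_8_3_4 : BlkD.Tr :=
  .L 5 7 [4, 4, 5, 5] [] [] 100000 69167 69167 1040000 60000 0 80000 40000 0 12500 16250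

lemma s22_22_8_3_4 {n : ℕ} (hn : 5 ≤ n) : NoNd (d22_22_8_3.R : ℤ) d22_22_8_3.H n d22_22_8_3.a d22_22_8_3.b
    (BlkD.inB (BlkD.upd (BlkD.upd (fun _ => 0) 0 1) 1 12)
      (BlkD.upd (BlkD.upd (BlkD.upd (BlkD.upd (BlkD.upd (fun _ => 22) 0 8) 2 3) 0 4) 0 2) 0 1)) :=
  BlkD.tree_sound (BlkD.pairOk_sound k22_22_8_3) (by decide) hn t22_22_8_3_4 _ _ (by decide +kernel)

/-- certificates of the pair `(8, 3)`, part 5 -/
def t22_22_8_3_5 : BlkD.Tr :=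
  .L 5 7 [4, 4, 5, 5] [] [] 100000 69167 69167 1040000 60000 0 80000 40000 0 12500 16250

lemma s22_22_8_3_5 {n : ℕ} (hn : 5 ≤ n) : NoNd (d22_22_8_3.R : ℤ) d22_22_8_3.H n d22_22_8_3.a d22_22_8_3.b
    (BlkD.inB (BlkD.upd (fun _ => 0) 0 2)
      (BlkD.upd (BlkD.upd (BlkD.upd (BlkD.upd (BlkD.upd (BlkD.upd (fun _ => 22) 0 8) 2 3) 0 4) 0 2) 1 11) 1 5)) :=
  BlkD.tree_sound (BlkD.pairOk_sound k22_22_8_3) (by decide) hn t22_22_8_3_5 _ _ (by decide +kernel)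

/-- certificates of the pair `(8, 3)`, part 6 -/
def t22_22_8_3_6 : BlkD.Tr :=
  .S 1 8 (.L 5 7 [4, 4, 5, 5] [] [] 100000 69167 69167 1040000 60000 0 80000 40000 0 12500 16250)
    (.L 5 7 [4, 4, 5, 5] [] [] 100000 69167 69167 1040000 60000 0 80000 40000 0 12500 16250)

lemma s22_22_8_3_6 {n : ℕ} (hn : 5 ≤ n) : NoNd (d22_22_8_3.R : ℤ) d22_22_8_3.H n d22_22_8_3.a d22_22_8_3.b
    (BlkD.inB (BlkD.upd (BlkD.upd (fun _ => 0) 0 2) 1 6)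
      (BlkD.upd (BlkD.upd (BlkD.upd (BlkD.upd (BlkD.upd (fun _ => 22) 0 8) 2 3) 0 4) 0 2) 1 11)) :=
  BlkD.tree_sound (BlkD.pairOk_sound k22_22_8_3) (by decide) hn t22_22_8_3_6 _ _ (by decide +kernel)

/-- certificates of the pair `(8, 3)`, part 7 -/
def t22_22_8_3_7 : BlkD.Tr :=
  .L 5 7 [4, 4, 5, 5] [] [] 100000 69167 69167 1040000 60000 0 80000 40000 0 12500 16250

lemma s22_22_8_3_7 {n : ℕ} (hn : 5 ≤ n) : NoNd (d22_22_8_3.R : ℤ) d22_22_8_3.H n d22_22_8_3.a d22_22_8_3.b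
    (BlkD.inB (BlkD.upd (BlkD.upd (fun _ => 0) 0 2) 1 12)
      (BlkD.upd (BlkD.upd (BlkD.upd (BlkD.upd (fun _ => 22) 0 8) 2 3) 0 4) 0 2)) :=
  BlkD.tree_sound (BlkD.pairOk_sound k22_22_8_3) (by decide) hn t22_22_8_3_7 _ _ (by decide +kernel)

/-- certificates of the pair `(8, 3)`, part 8 -/
def t22_22_8_3_8 : BlkD.Tr :=
  .S 1 4 (.L 5 7 [4, 4, 5, 5] [] [] 100000 50000 50000 950000 50000 0 50000 50000 0 0 0) (.S 1 7
    (.L 5 7 [4, 4, 5, 5] [] [] 100000 29730 29729 1221622 29730 0 29730 70270 0 18919 10811) (.S 1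
    8 (.L 5 7 [4, 4, 5, 5] [160, 159, 158, 157, 151, 140] [] 100000 26667 26667 1220000 40000 0
    60000 40000 0 20000 20000) (.L 5 7 [4, 4, 5, 5] [183, 182, 181, 180, 179, 173] [] 100000 35294
    35293 1170587 47059 0 82353 35294 0 17647 17647)))

lemma s22_22_8_3_8 {n : ℕ} (hn : 5 ≤ n) : NoNd (d22_22_8_3.R : ℤ) d22_22_8_3.H n d22_22_8_3.a d22_22_8_3.b
    (BlkD.inB (BlkD.upd (fun _ => 0) 0 3)
      (BlkD.upd (BlkD.upd (BlkD.upd (BlkD.upd (BlkD.upd (BlkD.upd (fun _ => 22) 0 8) 2 3) 0 4) 0 3) 1 19) 1 9)) :=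
  BlkD.tree_sound (BlkD.pairOk_sound k22_22_8_3) (by decide) hn t22_22_8_3_8 _ _ (by decide +kernel)

/-- certificates of the pair `(8, 3)`, part 9 -/
def t22_22_8_3_9 : BlkD.Tr :=
  .S 1 14 (.S 1 12 (.S 1 11 (.S 1 10 (.L 5 7 [4, 4, 5, 5] [208, 207, 206, 205, 204, 203] [] 100000
    48670 48669 1092022 62500 0 78989 33511 0 11436 16489) (.L 5 7 [4, 4, 5, 5] [235, 234, 233,
    232, 231, 230] [] 100000 60714 24999 889287 67857 0 135714 32143 0 0 10714)) (.E 0)) (.E 0))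
    (.E 0)

lemma s22_22_8_3_9 {n : ℕ} (hn : 5 ≤ n) : NoNd (d22_22_8_3.R : ℤ) d22_22_8_3.H n d22_22_8_3.a d22_22_8_3.b
    (BlkD.inB (BlkD.upd (BlkD.upd (fun _ => 0) 0 3) 1 10)
      (BlkD.upd (BlkD.upd (BlkD.upd (BlkD.upd (BlkD.upd (fun _ => 22) 0 8) 2 3) 0 4) 0 3) 1 19)) :=
  BlkD.tree_sound (BlkD.pairOk_sound k22_22_8_3) (by decide) hn t22_22_8_3_9 _ _ (by decide +kernel)

/-- certificates of the pair `(8, 3)`, part 10 -/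
def t22_22_8_3_10 : BlkD.Tr :=
  .E 0

lemma s22_22_8_3_10 {n : ℕ} (hn : 5 ≤ n) : NoNd (d22_22_8_3.R : ℤ) d22_22_8_3.H n d22_22_8_3.a d22_22_8_3.b
    (BlkD.inB (BlkD.upd (BlkD.upd (fun _ => 0) 0 3) 1 20)
      (BlkD.upd (BlkD.upd (BlkD.upd (BlkD.upd (fun _ => 22) 0 8) 2 3) 0 4) 0 3)) :=
  BlkD.tree_sound (BlkD.pairOk_sound k22_22_8_3) (by decide) hn t22_22_8_3_10 _ _ (by decide +kernel)

/-- certificates of the pair `(8, 3)`, part 11 -/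
def t22_22_8_3_11 : BlkD.Tr :=
  .L 5 7 [4, 4, 5, 5] [] [] 100000 30303 30302 1118181 27273 0 27273 72727 0 9091 9091

lemma s22_22_8_3_11 {n : ℕ} (hn : 5 ≤ n) : NoNd (d22_22_8_3.R : ℤ) d22_22_8_3.H n d22_22_8_3.a d22_22_8_3.b
    (BlkD.inB (BlkD.upd (BlkD.upd (fun _ => 0) 0 3) 0 4)
      (BlkD.upd (BlkD.upd (BlkD.upd (BlkD.upd (BlkD.upd (BlkD.upd (fun _ => 22) 0 8) 2 3) 0 4) 1 18) 1 9) 1 4)) :=
  BlkD.tree_sound (BlkD.pairOk_sound k22_22_8_3) (by decide) hn t22_22_8_3_11 _ _ (by decide +kernel)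

/-- certificates of the pair `(8, 3)`, part 12 -/
def t22_22_8_3_12 : BlkD.Tr :=
  .S 1 7 (.S 1 6 (.L 5 7 [4, 4, 5, 5] [] [] 100000 27896 27896 1258156 29078 0 29078 67376 0 23404
    16312) (.S 2 1 (.S 2 0 (.L 5 7 [4, 4, 5, 5] [153, 152, 151, 145, 134, 122] [] 100000 33333
    33332 1133334 33333 0 66667 66667 0 0 16667) (.S 3 10 (.S 3 5 (.S 3 2 (.L 5 7 [4, 4, 5, 5]
    [153, 152, 151, 145, 134, 122] [] 100000 26191 26191 1235716 35714 0 57143 57143 0 21429 21429)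
    (.S 3 4 (.S 3 3 (.L 5 7 [4, 4, 5, 5] [153, 152, 151, 145, 134, 122] [40, 32, 24, 12, 0, 0]
    100000 24510 24510 1251472 38235 0 57353 19118 0 36765 26471) (.L 6 9 [4, 5, 5, 4] [153, 152,
    151, 145, 134, 122] [54, 48, 40, 32, 20, 0] 100000 27778 27777 1233333 50000 0 50000 16667 0
    33333 16667)) (.E 1))) (.E 1)) (.E 1))) (.L 6 9 [4, 5, 5, 4] [153, 152, 151, 145, 134, 122] []
    100000 26985 26985 1250000 45238 0 59524 19048 0 28571 19048))) (.S 1 8 (.L 6 9 [4, 5, 5, 4]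
    [176, 175, 174, 173, 167, 156] [] 100000 28571 28570 1242859 42857 0 85714 28571 0 14286 14286)
    (.L 6 9 [4, 5, 5, 4] [201, 200, 199, 198, 197, 191] [] 100000 24074 24074 1227780 33333 0 92361
    66667 7639 12500 12500))

lemma s22_22_8_3_12 {n : ℕ} (hn : 5 ≤ n) : NoNd (d22_22_8_3.R : ℤ) d22_22_8_3.H n d22_22_8_3.a d22_22_8_3.b
    (BlkD.inB (BlkD.upd (BlkD.upd (BlkD.upd (fun _ => 0) 0 3) 0 4) 1 5)
      (BlkD.upd (BlkD.upd (BlkD.upd (BlkD.upd (BlkD.upd (fun _ => 22) 0 8) 2 3) 0 4) 1 18) 1 9)) :=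
  BlkD.tree_sound (BlkD.pairOk_sound k22_22_8_3) (by decide) hn t22_22_8_3_12 _ _ (by decide +kernel)

/-- certificates of the pair `(8, 3)`, part 13 -/
def t22_22_8_3_13 : BlkD.Tr :=
  .L 6 9 [4, 5, 5, 4] [] [] 100000 26042 26042 1250000 12500 0 100000 43750 0 21875 21875

lemma s22_22_8_3_13 {n : ℕ} (hn : 5 ≤ n) : NoNd (d22_22_8_3.R : ℤ) d22_22_8_3.H n d22_22_8_3.a d22_22_8_3.b
    (BlkD.inB (BlkD.upd (BlkD.upd (BlkD.upd (fun _ => 0) 0 3) 0 4) 1 10)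
      (BlkD.upd (BlkD.upd (BlkD.upd (BlkD.upd (fun _ => 22) 0 8) 2 3) 0 4) 1 18)) :=
  BlkD.tree_sound (BlkD.pairOk_sound k22_22_8_3) (by decide) hn t22_22_8_3_13 _ _ (by decide +kernel)

/-- certificates of the pair `(8, 3)`, part 14 -/
def t22_22_8_3_14 : BlkD.Tr :=
  .E 0

lemma s22_22_8_3_14 {n : ℕ} (hn : 5 ≤ n) : NoNd (d22_22_8_3.R : ℤ) d22_22_8_3.H n d22_22_8_3.a d22_22_8_3.b
    (BlkD.inB (BlkD.upd (BlkD.upd (BlkD.upd (fun _ => 0) 0 3) 0 4) 1 19)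
      (BlkD.upd (BlkD.upd (BlkD.upd (fun _ => 22) 0 8) 2 3) 0 4)) :=
  BlkD.tree_sound (BlkD.pairOk_sound k22_22_8_3) (by decide) hn t22_22_8_3_14 _ _ (by decide +kernel)

/-- certificates of the pair `(8, 3)`, part 15 -/
def t22_22_8_3_15 : BlkD.Tr :=
  .S 1 17 (.S 1 8 (.S 1 4 (.L 6 9 [4, 5, 5, 4] [] [] 100000 23810 23810 1228573 33333 0 33333 38095
    0 28571 28571) (.S 1 6 (.S 1 5 (.L 6 9 [4, 5, 5, 4] [123, 117, 106, 94, 82, 70] [] 100000 25403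
    25403 1264992 38182 0 74649 29818 3169 17455 30545) (.S 2 1 (.S 2 0 (.L 6 9 [4, 5, 5, 4] [144,
    143, 137, 126, 114, 102] [] 100000 26761 26761 1178873 21127 0 90141 100000 9859 0 15493) (.S 3
    10 (.S 3 5 (.S 3 2 (.L 6 9 [4, 5, 5, 4] [144, 143, 137, 126, 114, 102] [] 100000 22024 22024
    1285716 28571 28571 72321 39286 6250 21429 21429) (.S 3 4 (.S 3 3 (.L 6 9 [4, 5, 5, 4] [144,
    143, 137, 126, 114, 102] [40, 32, 24, 12, 0, 0] 100000 22874 22874 1282758 36207 0 72414 36207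
    5172 21034 21034) (.L 6 9 [4, 5, 5, 4] [144, 143, 137, 126, 114, 102] [54, 48, 40, 32, 20, 0]
    100000 30000 30000 1220000 20000 0 100000 100000 0 10000 10000)) (.E 1))) (.E 1)) (.E 1))) (.S
    2 2 (.S 3 9 (.S 3 4 (.S 3 2 (.L 6 9 [4, 5, 5, 4] [144, 143, 137, 126, 114, 102] [] 100000 20176
    20175 1297369 34211 0 75000 15789 6579 26316 26316) (.L 6 9 [4, 5, 5, 4] [144, 143, 137, 126,
    114, 102] [] 100000 30000 30000 1220000 20000 0 100000 100000 0 10000 10000)) (.E 1)) (.E 1))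
    (.L 6 9 [4, 5, 5, 4] [144, 143, 137, 126, 114, 102] [] 100000 24510 24510 1229412 45098 0 48039
    0 980 46078 24510)))) (.S 1 7 (.L 6 9 [4, 5, 5, 4] [167, 166, 165, 159, 148, 136] [] 100000
    26190 26189 1252384 33333 0 97619 33333 2381 16667 16667) (.L 6 9 [4, 5, 5, 4] [192, 191, 190,
    189, 183, 172] [] 100000 33333 33332 1150000 50000 0 100000 50000 0 0 0)))) (.E 0)) (.E 0)

lemma s22_22_8_3_15 {n : ℕ} (hn : 5 ≤ n) : NoNd (d22_22_8_3.R : ℤ) d22_22_8_3.H n d22_22_8_3.a d22_22_8_3.b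
    (BlkD.inB (BlkD.upd (fun _ => 0) 0 5)
      (BlkD.upd (BlkD.upd (BlkD.upd (BlkD.upd (fun _ => 22) 0 8) 2 3) 0 6) 0 5)) :=
  BlkD.tree_sound (BlkD.pairOk_sound k22_22_8_3) (by decide) hn t22_22_8_3_15 _ _ (by decide +kernel)

/-- certificates of the pair `(8, 3)`, part 16 -/
def t22_22_8_3_16 : BlkD.Tr :=
  .S 1 16 (.S 1 8 (.S 1 4 (.L 6 9 [4, 5, 5, 4] [] [] 100000 19330 19330 1300001 36292 0 63511 63708
    9073 23866 32742) (.S 1 6 (.L 6 9 [4, 5, 5, 4] [] [] 100000 15476 15476 1314288 25000 0 85714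
    50000 14286 25000 25000) (.L 6 9 [4, 5, 5, 4] [] [] 100000 22272 1 1121835 11354 0 122271 44323
    9607 23581 31878))) (.E 0)) (.E 0)

lemma s22_22_8_3_16 {n : ℕ} (hn : 5 ≤ n) : NoNd (d22_22_8_3.R : ℤ) d22_22_8_3.H n d22_22_8_3.a d22_22_8_3.b
    (BlkD.inB (BlkD.upd (BlkD.upd (fun _ => 0) 0 5) 0 6)
      (BlkD.upd (BlkD.upd (BlkD.upd (fun _ => 22) 0 8) 2 3) 0 6)) :=
  BlkD.tree_sound (BlkD.pairOk_sound k22_22_8_3) (by decide) hn t22_22_8_3_16 _ _ (by decide +kernel)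

/-- certificates of the pair `(8, 3)`, part 17 -/
def t22_22_8_3_17 : BlkD.Tr :=
  .S 0 7 (.S 1 15 (.S 1 7 (.S 1 3 (.L 6 9 [4, 5, 5, 4] [] [] 100000 16667 16667 1300001 33333 0
    87500 66667 12500 25000 25000) (.L 6 9 [4, 5, 5, 4] [] [] 100000 16146 16146 1268754 15625 0
    100000 40625 21875 29688 29688)) (.E 0)) (.E 0)) (.L 6 9 [4, 5, 5, 4] [] [] 100000 1 1 1307696
    0 0 92308 30769 53846 38462 46154)

lemma s22_22_8_3_17 {n : ℕ} (hn : 5 ≤ n) : NoNd (d22_22_8_3.R : ℤ) d22_22_8_3.H n d22_22_8_3.a d22_22_8_3.b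
    (BlkD.inB (BlkD.upd (BlkD.upd (fun _ => 0) 0 5) 0 7)
      (BlkD.upd (BlkD.upd (fun _ => 22) 0 8) 2 3)) :=
  BlkD.tree_sound (BlkD.pairOk_sound k22_22_8_3) (by decide) hn t22_22_8_3_17 _ _ (by decide +kernel)

/-- certificates of the pair `(8, 3)`, part 18 -/
def t22_22_8_3_18 : BlkD.Tr :=
  .E 1

lemma s22_22_8_3_18 {n : ℕ} (hn : 5 ≤ n) : NoNd (d22_22_8_3.R : ℤ) d22_22_8_3.H n d22_22_8_3.a d22_22_8_3.b
    (BlkD.inB (BlkD.upd (fun _ => 0) 2 4)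
      (BlkD.upd (fun _ => 22) 0 8)) :=
  BlkD.tree_sound (BlkD.pairOk_sound k22_22_8_3) (by decide) hn t22_22_8_3_18 _ _ (by decide +kernel)

/-- certificates of the pair `(8, 3)`, part 19 -/
def t22_22_8_3_19 : BlkD.Tr :=
  .E 0

lemma s22_22_8_3_19 {n : ℕ} (hn : 5 ≤ n) : NoNd (d22_22_8_3.R : ℤ) d22_22_8_3.H n d22_22_8_3.a d22_22_8_3.b
    (BlkD.inB (BlkD.upd (fun _ => 0) 0 9)
      (fun _ => 22)) :=
  BlkD.tree_sound (BlkD.pairOk_sound k22_22_8_3) (by decide) hn t22_22_8_3_19 _ _ (by decide +kernel)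

lemma pr22_22_8_3 {n : ℕ} (hn : 5 ≤ n) : NoPr ((22 : ℕ) : ℤ) ((22 : ℕ) : ℤ) n 8 3 :=
  BlkD.of_root (R := d22_22_8_3.R) (H := d22_22_8_3.H) (a := d22_22_8_3.a) (b := d22_22_8_3.b) (q := 3) (by decide) hn
    (BlkD.sp 0 8 (BlkD.sp 2 3 (BlkD.sp 0 4 (BlkD.sp 0 2 (BlkD.sp 0 1 (BlkD.sp 0 0 (s22_22_8_3_1 hn)
      (BlkD.sp 1 11 (BlkD.sp 1 5 (s22_22_8_3_2 hn) (s22_22_8_3_3 hn)) (s22_22_8_3_4 hn))) (BlkD.sp
      1 11 (BlkD.sp 1 5 (s22_22_8_3_5 hn) (s22_22_8_3_6 hn)) (s22_22_8_3_7 hn))) (BlkD.sp 0 3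
      (BlkD.sp 1 19 (BlkD.sp 1 9 (s22_22_8_3_8 hn) (s22_22_8_3_9 hn)) (s22_22_8_3_10 hn)) (BlkD.sp
      1 18 (BlkD.sp 1 9 (BlkD.sp 1 4 (s22_22_8_3_11 hn) (s22_22_8_3_12 hn)) (s22_22_8_3_13 hn))
      (s22_22_8_3_14 hn)))) (BlkD.sp 0 6 (BlkD.sp 0 5 (s22_22_8_3_15 hn) (s22_22_8_3_16 hn))
      (s22_22_8_3_17 hn))) (s22_22_8_3_18 hn)) (s22_22_8_3_19 hn))

end BlkC

end Pool.Agent.Lib.MP_f04ccf_co
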