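import Pool.Agent.Lib.MP_f04ccf_co.M.BlkT

/-!
MP_f04ccf_co, block certificate, data `R = 22`, `H = 22`, part 8 (generated, helper99:
bd10.cpp, gen2.py).
-/

set_option autoImplicit false
set_option maxRecDepth 100000

namespace Pool.Agent.Lib.MP_f04ccf_co

namespace BlkC

/-- the numbers of the pair `(8, 4)`, `R = 22`, `H = 22` -/
def d22_22_8_4 : BlkD.Pd :=
  ⟨22, 22, 3, 8, 4, 7, 4, 2, 1, 4, 12, 0, 2, 2, 10, 0, [0, 12, 24, 31, 32, 33, 34, 35], [0, 10, 18,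
    20, 22, 24, 26, 28], [⟨1, 1, 1, 4, 8, [0, 4], [0, 4]⟩, ⟨1, 1, 1, 6, 14, [0, 8], [0, 6]⟩, ⟨1, 1,
    1, 6, 18, [0, 10], [0, 8]⟩, ⟨2, 1, 1, 6, 26, [0, 12, 18], [0, 8]⟩, ⟨2, 1, 1, 4, 32, [0, 12,
    22], [0, 10]⟩]⟩

lemma k22_22_8_4 : BlkD.pairOk d22_22_8_4 = true := by decide +kernel

/-- certificates of the pair `(8, 4)`, part 1 -/
def t22_22_8_4_1 : BlkD.Tr :=
  .L 6 9 [4, 5, 5, 4, 5] [] [] 100000 84419 84419 1113019 73373 0 82249 46746 0 4734 33333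

lemma s22_22_8_4_1 {n : ℕ} (hn : 5 ≤ n) : NoNd (d22_22_8_4.R : ℤ) d22_22_8_4.H n d22_22_8_4.a d22_22_8_4.b
    (BlkD.inB (fun _ => 0)
      (BlkD.upd (BlkD.upd (BlkD.upd (BlkD.upd (BlkD.upd (BlkD.upd (fun _ => 22) 0 8) 2 4) 0 4) 0 2) 0 1) 0 0)) :=
  BlkD.tree_sound (BlkD.pairOk_sound k22_22_8_4) (by decide) hn t22_22_8_4_1 _ _ (by decide +kernel)

/-- certificates of the pair `(8, 4)`, part 2 -/
def t22_22_8_4_2 : BlkD.Tr :=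
  .L 6 9 [4, 5, 5, 4, 5] [] [] 100000 84419 84419 1113019 73373 0 82249 46746 0 4734 33333

lemma s22_22_8_4_2 {n : ℕ} (hn : 5 ≤ n) : NoNd (d22_22_8_4.R : ℤ) d22_22_8_4.H n d22_22_8_4.a d22_22_8_4.b
    (BlkD.inB (BlkD.upd (fun _ => 0) 0 1)
      (BlkD.upd (BlkD.upd (BlkD.upd (BlkD.upd (BlkD.upd (BlkD.upd (BlkD.upd (fun _ => 22) 0 8) 2 4) 0 4) 0 2) 0 1) 1 11) 1 5)) :=
  BlkD.tree_sound (BlkD.pairOk_sound k22_22_8_4) (by decide) hn t22_22_8_4_2 _ _ (by decide +kernel)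

/-- certificates of the pair `(8, 4)`, part 3 -/
def t22_22_8_4_3 : BlkD.Tr :=
  .S 1 8 (.L 6 9 [4, 5, 5, 4, 5] [] [] 100000 84419 84419 1113019 73373 0 82249 46746 0 4734 33333)
    (.L 6 9 [4, 5, 5, 4, 5] [] [] 100000 84419 84419 1113019 73373 0 82249 46746 0 4734 33333)

lemma s22_22_8_4_3 {n : ℕ} (hn : 5 ≤ n) : NoNd (d22_22_8_4.R : ℤ) d22_22_8_4.H n d22_22_8_4.a d22_22_8_4.b
    (BlkD.inB (BlkD.upd (BlkD.upd (fun _ => 0) 0 1) 1 6)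
      (BlkD.upd (BlkD.upd (BlkD.upd (BlkD.upd (BlkD.upd (BlkD.upd (fun _ => 22) 0 8) 2 4) 0 4) 0 2) 0 1) 1 11)) :=
  BlkD.tree_sound (BlkD.pairOk_sound k22_22_8_4) (by decide) hn t22_22_8_4_3 _ _ (by decide +kernel)

/-- certificates of the pair `(8, 4)`, part 4 -/
def t22_22_8_4_4 : BlkD.Tr :=
  .L 6 9 [4, 5, 5, 4, 5] [] [] 100000 84419 84419 1113019 73373 0 82249 46746 0 4734 33333

lemma s22_22_8_4_4 {n : ℕ} (hn : 5 ≤ n) : NoNd (d22_22_8_4.R : ℤ) d22_22_8_4.H n d22_22_8_4.a d22_22_8_4.b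
    (BlkD.inB (BlkD.upd (BlkD.upd (fun _ => 0) 0 1) 1 12)
      (BlkD.upd (BlkD.upd (BlkD.upd (BlkD.upd (BlkD.upd (fun _ => 22) 0 8) 2 4) 0 4) 0 2) 0 1)) :=
  BlkD.tree_sound (BlkD.pairOk_sound k22_22_8_4) (by decide) hn t22_22_8_4_4 _ _ (by decide +kernel)

/-- certificates of the pair `(8, 4)`, part 5 -/
def t22_22_8_4_5 : BlkD.Tr :=
  .L 6 9 [4, 5, 5, 4, 5] [] [] 100000 84419 84419 1113019 73373 0 82249 46746 0 4734 33333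

lemma s22_22_8_4_5 {n : ℕ} (hn : 5 ≤ n) : NoNd (d22_22_8_4.R : ℤ) d22_22_8_4.H n d22_22_8_4.a d22_22_8_4.b
    (BlkD.inB (BlkD.upd (fun _ => 0) 0 2)
      (BlkD.upd (BlkD.upd (BlkD.upd (BlkD.upd (BlkD.upd (BlkD.upd (fun _ => 22) 0 8) 2 4) 0 4) 0 2) 1 11) 1 5)) :=
  BlkD.tree_sound (BlkD.pairOk_sound k22_22_8_4) (by decide) hn t22_22_8_4_5 _ _ (by decide +kernel)

/-- certificates of the pair `(8, 4)`, part 6 -/
def t22_22_8_4_6 : BlkD.Tr :=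
  .L 6 9 [4, 5, 5, 4, 5] [] [] 100000 84419 84419 1113019 73373 0 82249 46746 0 4734 33333

lemma s22_22_8_4_6 {n : ℕ} (hn : 5 ≤ n) : NoNd (d22_22_8_4.R : ℤ) d22_22_8_4.H n d22_22_8_4.a d22_22_8_4.b
    (BlkD.inB (BlkD.upd (BlkD.upd (fun _ => 0) 0 2) 1 6)
      (BlkD.upd (BlkD.upd (BlkD.upd (BlkD.upd (BlkD.upd (BlkD.upd (fun _ => 22) 0 8) 2 4) 0 4) 0 2) 1 11) 1 8)) :=
  BlkD.tree_sound (BlkD.pairOk_sound k22_22_8_4) (by decide) hn t22_22_8_4_6 _ _ (by decide +kernel)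

/-- certificates of the pair `(8, 4)`, part 7 -/
def t22_22_8_4_7 : BlkD.Tr :=
  .L 6 9 [4, 5, 5, 4, 5] [] [] 100000 84419 84419 1113019 73373 0 82249 46746 0 4734 33333

lemma s22_22_8_4_7 {n : ℕ} (hn : 5 ≤ n) : NoNd (d22_22_8_4.R : ℤ) d22_22_8_4.H n d22_22_8_4.a d22_22_8_4.b
    (BlkD.inB (BlkD.upd (BlkD.upd (BlkD.upd (fun _ => 0) 0 2) 1 6) 1 9)
      (BlkD.upd (BlkD.upd (BlkD.upd (BlkD.upd (BlkD.upd (fun _ => 22) 0 8) 2 4) 0 4) 0 2) 1 11)) :=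
  BlkD.tree_sound (BlkD.pairOk_sound k22_22_8_4) (by decide) hn t22_22_8_4_7 _ _ (by decide +kernel)

/-- certificates of the pair `(8, 4)`, part 8 -/
def t22_22_8_4_8 : BlkD.Tr :=
  .L 6 9 [4, 5, 5, 4, 5] [] [] 100000 84419 84419 1113019 73373 0 82249 46746 0 4734 33333

lemma s22_22_8_4_8 {n : ℕ} (hn : 5 ≤ n) : NoNd (d22_22_8_4.R : ℤ) d22_22_8_4.H n d22_22_8_4.a d22_22_8_4.b
    (BlkD.inB (BlkD.upd (BlkD.upd (fun _ => 0) 0 2) 1 12)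
      (BlkD.upd (BlkD.upd (BlkD.upd (BlkD.upd (fun _ => 22) 0 8) 2 4) 0 4) 0 2)) :=
  BlkD.tree_sound (BlkD.pairOk_sound k22_22_8_4) (by decide) hn t22_22_8_4_8 _ _ (by decide +kernel)

/-- certificates of the pair `(8, 4)`, part 9 -/
def t22_22_8_4_9 : BlkD.Tr :=
  .L 6 9 [4, 5, 5, 4, 5] [] [] 100000 33333 33332 1225000 18750 0 18750 28125 0 0 25000

lemma s22_22_8_4_9 {n : ℕ} (hn : 5 ≤ n) : NoNd (d22_22_8_4.R : ℤ) d22_22_8_4.H n d22_22_8_4.a d22_22_8_4.b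
    (BlkD.inB (BlkD.upd (fun _ => 0) 0 3)
      (BlkD.upd (BlkD.upd (BlkD.upd (BlkD.upd (BlkD.upd (BlkD.upd (BlkD.upd (fun _ => 22) 0 8) 2 4) 0 4) 0 3) 1 19) 1 9) 1 4)) :=
  BlkD.tree_sound (BlkD.pairOk_sound k22_22_8_4) (by decide) hn t22_22_8_4_9 _ _ (by decide +kernel)

/-- certificates of the pair `(8, 4)`, part 10 -/
def t22_22_8_4_10 : BlkD.Tr :=
  .S 1 6 (.S 1 5 (.L 6 9 [4, 5, 5, 4, 5] [103, 96, 86, 74, 62, 50] [] 100000 25000 25000 1300585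
    19883 0 19883 29825 0 28655 29240) (.L 6 9 [4, 5, 5, 4, 5] [120, 119, 112, 102, 90, 78] []
    100000 31250 31250 1350000 25000 0 25000 37500 0 25000 25000)) (.S 2 2 (.L 6 9 [4, 5, 5, 4, 5]
    [139, 138, 137, 130, 120, 108] [] 100000 32936 32935 1366671 33333 0 50000 33333 0 23810 22222)
    (.L 6 9 [4, 5, 5, 4, 5] [139, 138, 137, 130, 120, 108] [] 100000 42857 42857 1300001 42857 0
    57143 28571 0 42857 28571))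

lemma s22_22_8_4_10 {n : ℕ} (hn : 5 ≤ n) : NoNd (d22_22_8_4.R : ℤ) d22_22_8_4.H n d22_22_8_4.a d22_22_8_4.b
    (BlkD.inB (BlkD.upd (BlkD.upd (fun _ => 0) 0 3) 1 5)
      (BlkD.upd (BlkD.upd (BlkD.upd (BlkD.upd (BlkD.upd (BlkD.upd (BlkD.upd (fun _ => 22) 0 8) 2 4) 0 4) 0 3) 1 19) 1 9) 1 7)) :=
  BlkD.tree_sound (BlkD.pairOk_sound k22_22_8_4) (by decide) hn t22_22_8_4_10 _ _ (by decide +kernel)

/-- certificates of the pair `(8, 4)`, part 11 -/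
def t22_22_8_4_11 : BlkD.Tr :=
  .S 1 8 (.S 2 2 (.S 2 1 (.L 6 9 [4, 5, 5, 4, 5] [160, 159, 158, 157, 150, 140] [] 100000 53847
    53847 1261538 46154 30769 69231 61538 0 7692 23077) (.L 5 7 [4, 4, 5, 5, 6] [160, 159, 158,
    157, 150, 140] [] 100000 58990 58989 1258889 53312 0 67928 59937 0 9359 14616)) (.L 6 9 [4, 4,
    5, 5, 5] [160, 159, 158, 157, 150, 140] [] 100000 37314 37313 1326864 43284 0 71642 28358 0
    43284 23881)) (.L 5 7 [4, 4, 5, 5, 6] [183, 182, 181, 180, 179, 172] [] 100000 60382 60382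
    1251694 53390 0 90678 45339 0 9322 17797)

lemma s22_22_8_4_11 {n : ℕ} (hn : 5 ≤ n) : NoNd (d22_22_8_4.R : ℤ) d22_22_8_4.H n d22_22_8_4.a d22_22_8_4.b
    (BlkD.inB (BlkD.upd (BlkD.upd (BlkD.upd (fun _ => 0) 0 3) 1 5) 1 8)
      (BlkD.upd (BlkD.upd (BlkD.upd (BlkD.upd (BlkD.upd (BlkD.upd (fun _ => 22) 0 8) 2 4) 0 4) 0 3) 1 19) 1 9)) :=
  BlkD.tree_sound (BlkD.pairOk_sound k22_22_8_4) (by decide) hn t22_22_8_4_11 _ _ (by decide +kernel)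

/-- certificates of the pair `(8, 4)`, part 12 -/
def t22_22_8_4_12 : BlkD.Tr :=
  .S 1 14 (.S 1 12 (.S 1 11 (.S 1 10 (.L 5 7 [4, 4, 5, 5, 6] [208, 207, 206, 205, 204, 203] []
    100000 73685 73685 1144078 65132 0 100000 60526 0 658 17434) (.L 5 7 [4, 4, 5, 5, 6] [235, 234,
    233, 232, 231, 230] [] 100000 100000 50000 850000 100000 0 150000 50000 0 0 0)) (.E 0)) (.E 0))
    (.E 0)

lemma s22_22_8_4_12 {n : ℕ} (hn : 5 ≤ n) : NoNd (d22_22_8_4.R : ℤ) d22_22_8_4.H n d22_22_8_4.a d22_22_8_4.b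
    (BlkD.inB (BlkD.upd (BlkD.upd (fun _ => 0) 0 3) 1 10)
      (BlkD.upd (BlkD.upd (BlkD.upd (BlkD.upd (BlkD.upd (fun _ => 22) 0 8) 2 4) 0 4) 0 3) 1 19)) :=
  BlkD.tree_sound (BlkD.pairOk_sound k22_22_8_4) (by decide) hn t22_22_8_4_12 _ _ (by decide +kernel)

/-- certificates of the pair `(8, 4)`, part 13 -/
def t22_22_8_4_13 : BlkD.Tr :=
  .E 0

lemma s22_22_8_4_13 {n : ℕ} (hn : 5 ≤ n) : NoNd (d22_22_8_4.R : ℤ) d22_22_8_4.H n d22_22_8_4.a d22_22_8_4.b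
    (BlkD.inB (BlkD.upd (BlkD.upd (fun _ => 0) 0 3) 1 20)
      (BlkD.upd (BlkD.upd (BlkD.upd (BlkD.upd (fun _ => 22) 0 8) 2 4) 0 4) 0 3)) :=
  BlkD.tree_sound (BlkD.pairOk_sound k22_22_8_4) (by decide) hn t22_22_8_4_13 _ _ (by decide +kernel)

/-- certificates of the pair `(8, 4)`, part 14 -/
def t22_22_8_4_14 : BlkD.Tr :=
  .L 5 7 [4, 4, 5, 5, 6] [] [] 100000 25001 25001 1333333 16667 0 16667 25000 0 33333 33333

lemma s22_22_8_4_14 {n : ℕ} (hn : 5 ≤ n) : NoNd (d22_22_8_4.R : ℤ) d22_22_8_4.H n d22_22_8_4.a d22_22_8_4.b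
    (BlkD.inB (BlkD.upd (BlkD.upd (fun _ => 0) 0 3) 0 4)
      (BlkD.upd (BlkD.upd (BlkD.upd (BlkD.upd (BlkD.upd (BlkD.upd (fun _ => 22) 0 8) 2 4) 0 4) 1 18) 1 9) 1 4)) :=
  BlkD.tree_sound (BlkD.pairOk_sound k22_22_8_4) (by decide) hn t22_22_8_4_14 _ _ (by decide +kernel)

/-- certificates of the pair `(8, 4)`, part 15 -/
def t22_22_8_4_15 : BlkD.Tr :=
  .L 6 9 [4, 4, 5, 5, 5] [113, 106, 96, 84, 72, 60] [] 100000 25000 25000 1398233 20354 0 20354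
    30531 0 28319 26549

lemma s22_22_8_4_15 {n : ℕ} (hn : 5 ≤ n) : NoNd (d22_22_8_4.R : ℤ) d22_22_8_4.H n d22_22_8_4.a d22_22_8_4.b
    (BlkD.inB (BlkD.upd (BlkD.upd (BlkD.upd (fun _ => 0) 0 3) 0 4) 1 5)
      (BlkD.upd (BlkD.upd (BlkD.upd (BlkD.upd (BlkD.upd (BlkD.upd (BlkD.upd (BlkD.upd (fun _ => 22) 0 8) 2 4) 0 4) 1 18) 1 9) 1 7) 1 6) 1 5)) :=
  BlkD.tree_sound (BlkD.pairOk_sound k22_22_8_4) (by decide) hn t22_22_8_4_15 _ _ (by decide +kernel)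

/-- certificates of the pair `(8, 4)`, part 16 -/
def t22_22_8_4_16 : BlkD.Tr :=
  .S 2 1 (.S 2 0 (.L 6 9 [4, 4, 5, 5, 5] [132, 131, 124, 114, 102, 90] [] 100000 35714 35714
    1200000 0 0 0 100000 0 0 14286) (.S 3 11 (.S 3 5 (.S 3 2 (.L 6 9 [4, 4, 5, 5, 5] [132, 131,
    124, 114, 102, 90] [] 100000 33334 33334 1276000 24000 12000 24000 24000 0 0 25333) (.S 3 4 (.S
    3 3 (.L 6 9 [4, 4, 5, 5, 5] [132, 131, 124, 114, 102, 90] [44, 34, 24, 12, 0, 0] 100000 33334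
    33334 1335714 21429 21429 32143 21429 0 0 26190) (.S 4 6 (.S 4 3 (.L 6 9 [4, 4, 5, 5, 5] [114,
    102, 90, 78, 0, 0] [60, 52, 42, 32, 20, 0] 100000 33334 33334 1342104 26316 26316 52632 52632 0
    0 24561) (.L 6 9 [4, 4, 5, 5, 5] [132, 131, 124, 114, 102, 90] [60, 52, 42, 32, 20, 0] 100000
    50000 0 1050000 0 0 150000 0 0 0 0)) (.E 2))) (.S 4 6 (.S 4 3 (.L 6 9 [4, 4, 5, 5, 5] [114,
    102, 90, 78, 0, 0] [72, 70, 62, 52, 42, 30] 100000 40000 40000 1320000 40000 20000 60000 40000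
    0 40000 20000) (.L 6 9 [4, 4, 5, 5, 5] [132, 131, 124, 114, 102, 90] [72, 70, 62, 52, 42, 30]
    100000 90910 1 763636 36364 0 190909 36364 0 0 0)) (.E 2)))) (.E 1)) (.E 1))) (.S 3 10 (.S 3 5
    (.S 3 2 (.L 6 9 [4, 4, 5, 5, 5] [132, 131, 124, 114, 102, 90] [] 100000 28986 28986 1373913
    26087 0 26087 13043 0 13043 24638) (.S 3 4 (.S 3 3 (.S 4 6 (.S 4 3 (.S 4 1 (.L 6 9 [4, 4, 5, 5,
    5] [90, 78, 0, 0, 0, 0] [50, 40, 30, 18, 0, 0] 100000 26120 26120 1379104 35075 7836 70149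
    26866 0 38060 21642) (.L 6 9 [4, 4, 5, 5, 5] [114, 102, 90, 78, 0, 0] [50, 40, 30, 18, 0, 0]
    100000 25000 25000 1322223 22222 0 88889 33333 0 29630 25926)) (.L 6 9 [4, 4, 5, 5, 5] [132,
    131, 124, 114, 102, 90] [50, 40, 30, 18, 0, 0] 100000 60000 0 980000 20000 0 160000 20000 0 0
    0)) (.E 2)) (.S 4 6 (.S 4 3 (.L 6 9 [4, 4, 5, 5, 5] [114, 102, 90, 78, 0, 0] [68, 60, 50, 40,
    28, 0] 100000 44445 44445 1316667 50000 0 66667 33333 0 33333 22222) (.L 6 9 [4, 4, 5, 5, 5]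
    [132, 131, 124, 114, 102, 90] [68, 60, 50, 40, 28, 0] 100000 90910 1 763636 36364 0 190909
    36364 0 0 0)) (.E 2))) (.E 1))) (.E 1)) (.E 1))

lemma s22_22_8_4_16 {n : ℕ} (hn : 5 ≤ n) : NoNd (d22_22_8_4.R : ℤ) d22_22_8_4.H n d22_22_8_4.a d22_22_8_4.b
    (BlkD.inB (BlkD.upd (BlkD.upd (BlkD.upd (BlkD.upd (fun _ => 0) 0 3) 0 4) 1 5) 1 6)
      (BlkD.upd (BlkD.upd (BlkD.upd (BlkD.upd (BlkD.upd (BlkD.upd (BlkD.upd (BlkD.upd (fun _ => 22) 0 8) 2 4) 0 4) 1 18) 1 9) 1 7) 1 6) 2 2)) :=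
  BlkD.tree_sound (BlkD.pairOk_sound k22_22_8_4) (by decide) hn t22_22_8_4_16 _ _ (by decide +kernel)

/-- certificates of the pair `(8, 4)`, part 17 -/
def t22_22_8_4_17 : BlkD.Tr :=
  .S 2 3 (.S 3 9 (.S 3 4 (.S 3 2 (.L 6 9 [4, 4, 5, 5, 5] [132, 131, 124, 114, 102, 90] [] 100000
    25000 25000 1389286 22619 0 42857 42857 0 25000 33333) (.S 3 3 (.L 6 9 [4, 5, 5, 4, 5] [132,
    131, 124, 114, 102, 90] [56, 46, 36, 24, 0, 0] 100000 54545 54545 1272730 54545 0 54545 0 0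
    36364 18182) (.E 1))) (.E 1)) (.E 1)) (.L 6 9 [4, 5, 5, 4, 5] [132, 131, 124, 114, 102, 90] []
    100000 33333 33333 1333335 33333 0 33333 0 0 33333 16667)

lemma s22_22_8_4_17 {n : ℕ} (hn : 5 ≤ n) : NoNd (d22_22_8_4.R : ℤ) d22_22_8_4.H n d22_22_8_4.a d22_22_8_4.b
    (BlkD.inB (BlkD.upd (BlkD.upd (BlkD.upd (BlkD.upd (BlkD.upd (fun _ => 0) 0 3) 0 4) 1 5) 1 6) 2 3)
      (BlkD.upd (BlkD.upd (BlkD.upd (BlkD.upd (BlkD.upd (BlkD.upd (BlkD.upd (fun _ => 22) 0 8) 2 4) 0 4) 1 18) 1 9) 1 7) 1 6)) :=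
  BlkD.tree_sound (BlkD.pairOk_sound k22_22_8_4) (by decide) hn t22_22_8_4_17 _ _ (by decide +kernel)

/-- certificates of the pair `(8, 4)`, part 18 -/
def t22_22_8_4_18 : BlkD.Tr :=
  .S 2 0 (.L 6 9 [4, 5, 5, 4, 5] [153, 152, 151, 144, 134, 122] [] 100000 33333 33332 1217391 23913
    0 58696 76087 0 0 17391) (.S 3 10 (.S 3 5 (.S 3 2 (.L 6 9 [4, 5, 5, 4, 5] [153, 152, 151, 144,
    134, 122] [] 100000 33334 33334 1320000 26667 26667 40000 26667 0 0 25000) (.S 3 4 (.S 3 3 (.L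
    6 9 [4, 5, 5, 4, 5] [153, 152, 151, 144, 134, 122] [44, 34, 24, 12, 0, 0] 100000 34375 34375
    1350000 25000 37500 50000 50000 0 0 25000) (.S 4 7 (.S 4 3 (.L 6 9 [4, 5, 5, 4, 5] [134, 122,
    110, 98, 0, 0] [60, 52, 42, 32, 20, 0] 100000 62500 62500 1225000 50000 50000 75000 75000 0 0
    18750) (.L 6 9 [4, 5, 5, 4, 5] [153, 152, 151, 144, 134, 122] [60, 52, 42, 32, 20, 0] 100000
    31250 0 1181250 6250 6250 131250 12500 0 25000 12500)) (.E 2))) (.S 4 7 (.S 4 3 (.L 6 9 [4, 5,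
    5, 4, 5] [134, 122, 110, 98, 0, 0] [72, 70, 62, 52, 42, 30] 100000 54000 54000 1238000 52000
    34000 86000 48000 0 26000 20000) (.L 6 9 [4, 5, 5, 4, 5] [153, 152, 151, 144, 134, 122] [72,
    70, 62, 52, 42, 30] 100000 101640 1 688525 40984 40984 201639 81967 0 1639 11475)) (.E 2))))
    (.E 1)) (.E 1))

lemma s22_22_8_4_18 {n : ℕ} (hn : 5 ≤ n) : NoNd (d22_22_8_4.R : ℤ) d22_22_8_4.H n d22_22_8_4.a d22_22_8_4.b
    (BlkD.inB (BlkD.upd (BlkD.upd (BlkD.upd (BlkD.upd (fun _ => 0) 0 3) 0 4) 1 5) 1 7)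
      (BlkD.upd (BlkD.upd (BlkD.upd (BlkD.upd (BlkD.upd (BlkD.upd (BlkD.upd (BlkD.upd (fun _ => 22) 0 8) 2 4) 0 4) 1 18) 1 9) 1 7) 2 2) 2 1)) :=
  BlkD.tree_sound (BlkD.pairOk_sound k22_22_8_4) (by decide) hn t22_22_8_4_18 _ _ (by decide +kernel)

/-- certificates of the pair `(8, 4)`, part 19 -/
def t22_22_8_4_19 : BlkD.Tr :=
  .S 3 9 (.S 3 4 (.S 3 2 (.S 3 1 (.L 6 9 [4, 5, 5, 4, 5] [153, 152, 151, 144, 134, 122] [] 100000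
    33333 33332 1333334 33333 0 33333 33333 0 0 25000) (.S 4 7 (.S 4 3 (.S 4 1 (.L 6 9 [4, 5, 5, 4,
    5] [110, 98, 0, 0, 0, 0] [32, 22, 10, 0, 0, 0] 100000 22799 22799 1404407 42138 0 76101 23270
    4403 30818 23270) (.L 6 9 [4, 5, 5, 4, 5] [134, 122, 110, 98, 0, 0] [32, 22, 10, 0, 0, 0]
    100000 25000 25000 1350000 30000 0 90000 30000 0 30000 25000)) (.L 6 9 [4, 5, 5, 4, 5] [153,
    152, 151, 144, 134, 122] [32, 22, 10, 0, 0, 0] 100000 45370 3702 1088889 11111 0 141667 94444 0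
    0 5556)) (.E 2))) (.S 3 3 (.S 4 7 (.S 4 3 (.L 4 6 [4, 5, 6, 6, 7] [134, 122, 110, 98, 0, 0]
    [50, 40, 30, 18, 0, 0] 100000 55172 55171 1268968 55172 0 82759 34483 0 34483 24138) (.L 4 6
    [4, 5, 6, 6, 7] [153, 152, 151, 144, 134, 122] [50, 40, 30, 18, 0, 0] 100000 28000 0 1204000
    4000 0 128000 2000 0 32000 16000)) (.E 2)) (.S 4 7 (.S 4 3 (.L 5 7 [4, 4, 5, 5, 6] [134, 122,
    110, 98, 0, 0] [68, 60, 50, 40, 28, 0] 100000 57446 57445 1253194 59574 0 89362 29787 0 46809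
    12766) (.L 5 7 [4, 4, 5, 5, 6] [153, 152, 151, 144, 134, 122] [68, 60, 50, 40, 28, 0] 100000
    69698 1 912120 36364 0 169697 36364 0 36364 21212)) (.E 2)))) (.E 1)) (.E 1)

lemma s22_22_8_4_19 {n : ℕ} (hn : 5 ≤ n) : NoNd (d22_22_8_4.R : ℤ) d22_22_8_4.H n d22_22_8_4.a d22_22_8_4.b
    (BlkD.inB (BlkD.upd (BlkD.upd (BlkD.upd (BlkD.upd (BlkD.upd (fun _ => 0) 0 3) 0 4) 1 5) 1 7) 2 2)
      (BlkD.upd (BlkD.upd (BlkD.upd (BlkD.upd (BlkD.upd (BlkD.upd (BlkD.upd (fun _ => 22) 0 8) 2 4) 0 4) 1 18) 1 9) 1 7) 2 2)) :=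
  BlkD.tree_sound (BlkD.pairOk_sound k22_22_8_4) (by decide) hn t22_22_8_4_19 _ _ (by decide +kernel)

/-- certificates of the pair `(8, 4)`, part 20 -/
def t22_22_8_4_20 : BlkD.Tr :=
  .S 2 3 (.S 3 8 (.S 3 4 (.S 3 2 (.S 3 1 (.S 3 0 (.L 5 7 [4, 4, 5, 5, 6] [153, 152, 151, 144, 134,
    122] [0, 0, 0, 0, 0, 0] 100000 33334 33334 1320000 26667 0 53333 0 0 0 24444) (.S 4 7 (.S 4 3
    (.L 6 9 [4, 4, 5, 5, 5] [134, 122, 110, 98, 0, 0] [18, 6, 0, 0, 0, 0] 100000 24188 24188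
    1390978 27256 27256 74910 65162 1625 37906 24188) (.L 6 9 [4, 4, 5, 5, 5] [153, 152, 151, 144,
    134, 122] [18, 6, 0, 0, 0, 0] 100000 43478 0 1095654 13043 0 143478 78261 0 0 21739)) (.E 2)))
    (.S 4 7 (.S 4 3 (.L 6 9 [4, 4, 5, 5, 5] [134, 122, 110, 98, 0, 0] [36, 26, 14, 0, 0, 0] 100000
    35000 35000 1320000 40000 0 80000 60000 0 20000 20000) (.L 6 9 [4, 4, 5, 5, 5] [153, 152, 151,
    144, 134, 122] [36, 26, 14, 0, 0, 0] 100000 62713 1 961015 28814 0 162712 64407 0 0 27119)) (.E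
    2))) (.S 3 3 (.S 4 7 (.S 4 3 (.L 6 9 [4, 4, 5, 5, 5] [134, 122, 110, 98, 0, 0] [56, 46, 36, 24,
    0, 0] 100000 50000 49999 1266668 60000 0 73333 4444 0 40000 13333) (.L 6 9 [4, 4, 5, 5, 5]
    [153, 152, 151, 144, 134, 122] [56, 46, 36, 24, 0, 0] 100000 76191 1 866669 42857 0 176190 0 0
    23810 19048)) (.E 2)) (.E 1))) (.E 1)) (.E 1)) (.L 5 7 [4, 4, 5, 5, 6] [153, 152, 151, 144,
    134, 122] [] 100000 50000 50000 1275000 50000 0 75000 0 0 50000 25000)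

lemma s22_22_8_4_20 {n : ℕ} (hn : 5 ≤ n) : NoNd (d22_22_8_4.R : ℤ) d22_22_8_4.H n d22_22_8_4.a d22_22_8_4.b
    (BlkD.inB (BlkD.upd (BlkD.upd (BlkD.upd (BlkD.upd (BlkD.upd (fun _ => 0) 0 3) 0 4) 1 5) 1 7) 2 3)
      (BlkD.upd (BlkD.upd (BlkD.upd (BlkD.upd (BlkD.upd (BlkD.upd (fun _ => 22) 0 8) 2 4) 0 4) 1 18) 1 9) 1 7)) :=
  BlkD.tree_sound (BlkD.pairOk_sound k22_22_8_4) (by decide) hn t22_22_8_4_20 _ _ (by decide +kernel)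

/-- certificates of the pair `(8, 4)`, part 21 -/
def t22_22_8_4_21 : BlkD.Tr :=
  .L 5 7 [4, 4, 5, 5, 6] [176, 175, 174, 173, 166, 156] [] 100000 40000 40000 1176000 24000 0 88000
    88000 0 0 10000

lemma s22_22_8_4_21 {n : ℕ} (hn : 5 ≤ n) : NoNd (d22_22_8_4.R : ℤ) d22_22_8_4.H n d22_22_8_4.a d22_22_8_4.b
    (BlkD.inB (BlkD.upd (BlkD.upd (BlkD.upd (BlkD.upd (fun _ => 0) 0 3) 0 4) 1 5) 1 8)
      (BlkD.upd (BlkD.upd (BlkD.upd (BlkD.upd (BlkD.upd (BlkD.upd (BlkD.upd (BlkD.upd (BlkD.upd (fun _ => 22) 0 8) 2 4) 0 4) 1 18) 1 9) 1 8) 2 2) 2 1) 2 0)) :=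
  BlkD.tree_sound (BlkD.pairOk_sound k22_22_8_4) (by decide) hn t22_22_8_4_21 _ _ (by decide +kernel)

/-- certificates of the pair `(8, 4)`, part 22 -/
def t22_22_8_4_22 : BlkD.Tr :=
  .S 3 9 (.S 3 4 (.S 3 2 (.L 5 7 [4, 4, 5, 5, 6] [176, 175, 174, 173, 166, 156] [] 100000 50001
    50001 1281817 36364 36364 72727 72727 0 0 18182) (.S 3 3 (.S 4 8 (.S 4 4 (.L 5 7 [4, 4, 5, 5,
    6] [166, 156, 144, 132, 120, 0] [44, 34, 24, 12, 0, 0] 100000 58824 58824 1235294 47059 47059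
    82353 70588 0 0 17647) (.L 5 7 [4, 4, 5, 5, 6] [176, 175, 174, 173, 166, 156] [44, 34, 24, 12,
    0, 0] 100000 66667 0 933333 33333 0 166667 66667 0 0 16667)) (.E 2)) (.L 4 6 [4, 5, 6, 6, 7]
    [176, 175, 174, 173, 166, 156] [60, 52, 42, 32, 20, 0] 100000 66667 66666 1230554 52778 25000
    77778 52778 0 2778 22222))) (.L 5 7 [4, 4, 5, 5, 6] [176, 175, 174, 173, 166, 156] [] 100000
    82090 82089 1149252 62687 29851 92537 61194 0 19403 8955)) (.E 1)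

lemma s22_22_8_4_22 {n : ℕ} (hn : 5 ≤ n) : NoNd (d22_22_8_4.R : ℤ) d22_22_8_4.H n d22_22_8_4.a d22_22_8_4.b
    (BlkD.inB (BlkD.upd (BlkD.upd (BlkD.upd (BlkD.upd (BlkD.upd (fun _ => 0) 0 3) 0 4) 1 5) 1 8) 2 1)
      (BlkD.upd (BlkD.upd (BlkD.upd (BlkD.upd (BlkD.upd (BlkD.upd (BlkD.upd (BlkD.upd (fun _ => 22) 0 8) 2 4) 0 4) 1 18) 1 9) 1 8) 2 2) 2 1)) :=
  BlkD.tree_sound (BlkD.pairOk_sound k22_22_8_4) (by decide) hn t22_22_8_4_22 _ _ (by decide +kernel)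

/-- certificates of the pair `(8, 4)`, part 23 -/
def t22_22_8_4_23 : BlkD.Tr :=
  .S 3 8 (.S 3 4 (.S 3 2 (.S 3 1 (.S 3 0 (.L 5 7 [4, 4, 5, 5, 6] [176, 175, 174, 173, 166, 156] [0,
    0, 0, 0, 0, 0] 100000 27461 27460 1335752 24352 0 68394 0 8808 0 21244) (.S 4 8 (.S 4 4 (.L 6 9
    [4, 4, 5, 5, 5] [166, 156, 144, 132, 120, 0] [16, 4, 0, 0, 0, 0] 100000 36111 36111 1322224
    44444 0 66667 22222 0 0 22222) (.L 6 9 [4, 4, 5, 5, 5] [176, 175, 174, 173, 166, 156] [16, 4,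
    0, 0, 0, 0] 100000 50000 0 1050000 0 0 150000 0 0 0 0)) (.E 2))) (.S 4 8 (.S 4 4 (.S 4 2 (.L 5
    7 [4, 4, 5, 5, 6] [144, 132, 120, 0, 0, 0] [32, 22, 10, 0, 0, 0] 100000 43750 43750 1300000
    50000 0 100000 50000 0 0 25000) (.L 5 7 [4, 4, 5, 5, 6] [166, 156, 144, 132, 120, 0] [32, 22,
    10, 0, 0, 0] 100000 33333 33332 1300002 33333 0 100000 33333 0 33333 11111)) (.L 5 7 [4, 4, 5,
    5, 6] [176, 175, 174, 173, 166, 156] [32, 22, 10, 0, 0, 0] 100000 66667 0 933333 33333 0 166667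
    66667 0 0 16667)) (.E 2))) (.S 3 3 (.S 4 8 (.S 4 4 (.L 5 7 [4, 4, 5, 5, 6] [166, 156, 144, 132,
    120, 0] [50, 40, 30, 18, 0, 0] 100000 60000 60000 1240000 60000 0 100000 60000 0 20000 20000)
    (.L 5 7 [4, 4, 5, 5, 6] [176, 175, 174, 173, 166, 156] [50, 40, 30, 18, 0, 0] 100000 94872 0
    735898 61538 0 194872 30769 0 56410 12821)) (.E 2)) (.L 5 7 [4, 4, 5, 5, 6] [176, 175, 174,
    173, 166, 156] [68, 60, 50, 40, 28, 0] 100000 64286 64285 1235712 64286 0 89286 21429 0 42857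
    17857))) (.E 1)) (.E 1)

lemma s22_22_8_4_23 {n : ℕ} (hn : 5 ≤ n) : NoNd (d22_22_8_4.R : ℤ) d22_22_8_4.H n d22_22_8_4.a d22_22_8_4.b
    (BlkD.inB (BlkD.upd (BlkD.upd (BlkD.upd (BlkD.upd (BlkD.upd (fun _ => 0) 0 3) 0 4) 1 5) 1 8) 2 2)
      (BlkD.upd (BlkD.upd (BlkD.upd (BlkD.upd (BlkD.upd (BlkD.upd (BlkD.upd (fun _ => 22) 0 8) 2 4) 0 4) 1 18) 1 9) 1 8) 2 2)) :=
  BlkD.tree_sound (BlkD.pairOk_sound k22_22_8_4) (by decide) hn t22_22_8_4_23 _ _ (by decide +kernel)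

/-- certificates of the pair `(8, 4)`, part 24 -/
def t22_22_8_4_24 : BlkD.Tr :=
  .S 2 3 (.S 3 7 (.S 3 3 (.S 3 1 (.S 3 0 (.L 6 9 [4, 4, 5, 5, 5] [176, 175, 174, 173, 166, 156] [0,
    0, 0, 0, 0, 0] 100000 29203 29202 1376110 30973 0 73451 0 7080 0 23009) (.L 4 6 [4, 5, 6, 6, 7]
    [176, 175, 174, 173, 166, 156] [18, 6, 0, 0, 0, 0] 100000 40000 40000 1320000 40000 0 80000
    40000 0 40000 20000)) (.S 3 2 (.S 4 8 (.S 4 4 (.L 4 6 [4, 5, 6, 6, 7] [166, 156, 144, 132, 120,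
    0] [36, 26, 14, 0, 0, 0] 100000 50000 50000 1250000 50000 0 100000 50000 0 25000 25000) (.L 4 6
    [4, 5, 6, 6, 7] [176, 175, 174, 173, 166, 156] [36, 26, 14, 0, 0, 0] 100000 133333 0 466669
    33333 0 233333 200000 0 0 33333)) (.E 2)) (.L 5 7 [4, 4, 5, 5, 6] [176, 175, 174, 173, 166,
    156] [56, 46, 36, 24, 0, 0] 100000 62746 62746 1247057 58824 0 100000 13725 0 52941 15686)))
    (.E 1)) (.E 1)) (.L 5 7 [4, 4, 5, 5, 6] [176, 175, 174, 173, 166, 156] [] 100000 62746 62746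
    1205880 58824 0 100000 0 0 52941 15686)

lemma s22_22_8_4_24 {n : ℕ} (hn : 5 ≤ n) : NoNd (d22_22_8_4.R : ℤ) d22_22_8_4.H n d22_22_8_4.a d22_22_8_4.b
    (BlkD.inB (BlkD.upd (BlkD.upd (BlkD.upd (BlkD.upd (BlkD.upd (fun _ => 0) 0 3) 0 4) 1 5) 1 8) 2 3)
      (BlkD.upd (BlkD.upd (BlkD.upd (BlkD.upd (BlkD.upd (BlkD.upd (fun _ => 22) 0 8) 2 4) 0 4) 1 18) 1 9) 1 8)) :=
  BlkD.tree_sound (BlkD.pairOk_sound k22_22_8_4) (by decide) hn t22_22_8_4_24 _ _ (by decide +kernel)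

/-- certificates of the pair `(8, 4)`, part 25 -/
def t22_22_8_4_25 : BlkD.Tr :=
  .L 5 7 [4, 4, 5, 5, 6] [201, 200, 199, 198, 197, 190] [] 100000 54546 54546 1250000 50000 0
    100000 50000 0 0 18182

lemma s22_22_8_4_25 {n : ℕ} (hn : 5 ≤ n) : NoNd (d22_22_8_4.R : ℤ) d22_22_8_4.H n d22_22_8_4.a d22_22_8_4.b
    (BlkD.inB (BlkD.upd (BlkD.upd (BlkD.upd (BlkD.upd (BlkD.upd (fun _ => 0) 0 3) 0 4) 1 5) 1 8) 1 9)
      (BlkD.upd (BlkD.upd (BlkD.upd (BlkD.upd (BlkD.upd (fun _ => 22) 0 8) 2 4) 0 4) 1 18) 1 9)) :=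
  BlkD.tree_sound (BlkD.pairOk_sound k22_22_8_4) (by decide) hn t22_22_8_4_25 _ _ (by decide +kernel)

/-- certificates of the pair `(8, 4)`, part 26 -/
def t22_22_8_4_26 : BlkD.Tr :=
  .S 1 14 (.S 1 12 (.S 1 11 (.S 1 10 (.L 5 7 [4, 4, 5, 5, 6] [228, 227, 226, 225, 224, 223] []
    100000 70000 30000 1000000 70000 0 140000 50000 0 0 10000) (.E 0)) (.E 0)) (.E 0)) (.E 0)

lemma s22_22_8_4_26 {n : ℕ} (hn : 5 ≤ n) : NoNd (d22_22_8_4.R : ℤ) d22_22_8_4.H n d22_22_8_4.a d22_22_8_4.b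
    (BlkD.inB (BlkD.upd (BlkD.upd (BlkD.upd (fun _ => 0) 0 3) 0 4) 1 10)
      (BlkD.upd (BlkD.upd (BlkD.upd (BlkD.upd (fun _ => 22) 0 8) 2 4) 0 4) 1 18)) :=
  BlkD.tree_sound (BlkD.pairOk_sound k22_22_8_4) (by decide) hn t22_22_8_4_26 _ _ (by decide +kernel)

/-- certificates of the pair `(8, 4)`, part 27 -/
def t22_22_8_4_27 : BlkD.Tr :=
  .E 0

lemma s22_22_8_4_27 {n : ℕ} (hn : 5 ≤ n) : NoNd (d22_22_8_4.R : ℤ) d22_22_8_4.H n d22_22_8_4.a d22_22_8_4.b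
    (BlkD.inB (BlkD.upd (BlkD.upd (BlkD.upd (fun _ => 0) 0 3) 0 4) 1 19)
      (BlkD.upd (BlkD.upd (BlkD.upd (fun _ => 22) 0 8) 2 4) 0 4)) :=
  BlkD.tree_sound (BlkD.pairOk_sound k22_22_8_4) (by decide) hn t22_22_8_4_27 _ _ (by decide +kernel)

/-- certificates of the pair `(8, 4)`, part 28 -/
def t22_22_8_4_28 : BlkD.Tr :=
  .S 1 2 (.L 5 7 [4, 4, 5, 5, 6] [] [] 100000 26667 26667 1260000 20000 0 20000 20000 0 20000
    20000) (.S 1 3 (.L 5 7 [4, 4, 5, 5, 6] [72, 60, 48, 36, 0, 0] [] 100000 25000 25000 1333334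
    22222 0 22222 33333 0 33333 33333) (.S 2 2 (.S 2 1 (.L 6 9 [4, 4, 5, 5, 5] [98, 88, 76, 64, 52,
    0] [] 100000 25000 24999 1386669 18889 18889 37778 37778 0 26667 32222) (.S 3 11 (.S 3 5 (.S 3
    2 (.L 6 9 [4, 4, 5, 5, 5] [98, 88, 76, 64, 52, 0] [] 100000 33333 33332 1300000 0 0 0 0 0 0
    16667) (.S 3 4 (.S 3 3 (.L 6 9 [4, 4, 5, 5, 5] [98, 88, 76, 64, 52, 0] [50, 40, 30, 18, 0, 0]
    100000 25001 25001 1370833 18056 11111 29167 36111 0 25000 30556) (.S 4 4 (.S 4 2 (.L 6 9 [4,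
    4, 5, 5, 5] [76, 64, 52, 0, 0, 0] [68, 60, 50, 40, 28, 0] 100000 25715 25715 1374284 31429 0
    31429 31429 0 45714 22857) (.L 6 9 [4, 4, 5, 5, 5] [98, 88, 76, 64, 52, 0] [68, 60, 50, 40, 28,
    0] 100000 50000 0 1050000 0 0 150000 0 0 0 0)) (.E 2))) (.E 1))) (.E 1)) (.E 1))) (.S 2 3 (.S 3
    10 (.S 3 5 (.S 3 2 (.L 6 9 [4, 4, 5, 5, 5] [98, 88, 76, 64, 52, 0] [] 100000 25000 25000
    1355556 22222 0 44444 44444 0 25000 33333) (.S 3 4 (.S 3 3 (.S 4 4 (.S 4 2 (.L 6 9 [4, 4, 5, 5,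
    5] [76, 64, 52, 0, 0, 0] [56, 46, 36, 24, 0, 0] 100000 25000 25000 1366668 33333 0 33333 0 0
    66667 33333) (.L 6 9 [4, 4, 5, 5, 5] [98, 88, 76, 64, 52, 0] [56, 46, 36, 24, 0, 0] 100000
    60000 0 980000 40000 0 160000 0 0 0 0)) (.E 2)) (.E 1)) (.E 1))) (.E 1)) (.E 1)) (.L 6 9 [4, 4,
    5, 5, 5] [98, 88, 76, 64, 52, 0] [] 100000 25000 25000 1325000 25000 0 25000 0 0 25000
    25000))))

lemma s22_22_8_4_28 {n : ℕ} (hn : 5 ≤ n) : NoNd (d22_22_8_4.R : ℤ) d22_22_8_4.H n d22_22_8_4.a d22_22_8_4.b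
    (BlkD.inB (BlkD.upd (fun _ => 0) 0 5)
      (BlkD.upd (BlkD.upd (BlkD.upd (BlkD.upd (BlkD.upd (BlkD.upd (BlkD.upd (fun _ => 22) 0 8) 2 4) 0 6) 0 5) 1 17) 1 8) 1 4)) :=
  BlkD.tree_sound (BlkD.pairOk_sound k22_22_8_4) (by decide) hn t22_22_8_4_28 _ _ (by decide +kernel)

/-- certificates of the pair `(8, 4)`, part 29 -/
def t22_22_8_4_29 : BlkD.Tr :=
  .S 2 1 (.S 2 0 (.L 6 9 [4, 4, 5, 5, 5] [123, 116, 106, 94, 82, 70] [] 100000 50000 50000 1120000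
    0 0 80000 100000 0 0 0) (.S 3 11 (.S 3 5 (.S 3 2 (.L 6 9 [4, 4, 5, 5, 5] [123, 116, 106, 94,
    82, 70] [] 100000 31008 31008 1303488 20930 20930 17442 20930 3488 0 26357) (.S 3 4 (.S 3 3 (.L
    6 9 [4, 4, 5, 5, 5] [123, 116, 106, 94, 82, 70] [44, 34, 24, 12, 0, 0] 100000 33334 33334
    1335714 21429 21429 42857 42857 0 0 26190) (.L 6 9 [4, 4, 5, 5, 5] [123, 116, 106, 94, 82, 70]
    [60, 52, 42, 32, 20, 0] 100000 26128 26128 1394741 21053 21053 60150 42105 3008 21053 26316))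
    (.S 4 5 (.S 4 2 (.L 5 7 [4, 4, 5, 5, 6] [94, 82, 70, 0, 0, 0] [72, 70, 62, 52, 42, 30] 100000
    59575 59574 1244680 34043 61702 95745 78723 0 0 27660) (.L 5 7 [4, 4, 5, 5, 6] [123, 116, 106,
    94, 82, 70] [72, 70, 62, 52, 42, 30] 100000 28572 1 1200001 7143 0 128571 17857 0 35714 14286))
    (.E 2)))) (.E 1)) (.E 1))) (.S 3 10 (.S 3 5 (.S 3 2 (.L 5 7 [4, 4, 5, 5, 6] [123, 116, 106, 94,
    82, 70] [] 100000 24823 24823 1385817 17021 0 53901 36879 2837 19858 26241) (.S 3 4 (.S 3 3 (.S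
    4 5 (.S 4 2 (.S 4 1 (.L 5 7 [4, 4, 5, 5, 6] [82, 70, 0, 0, 0, 0] [50, 40, 30, 18, 0, 0] 100000
    29167 29167 1366668 33333 0 66667 50000 0 33333 16667) (.L 5 7 [4, 4, 5, 5, 6] [94, 82, 70, 0,
    0, 0] [50, 40, 30, 18, 0, 0] 100000 25000 25000 1325000 25000 0 100000 25000 0 50000 25000))
    (.L 5 7 [4, 4, 5, 5, 6] [123, 116, 106, 94, 82, 70] [50, 40, 30, 18, 0, 0] 100000 25001 11668
    1260000 6667 0 113333 6667 0 33333 13333)) (.E 2)) (.S 4 5 (.S 4 2 (.S 4 1 (.L 6 9 [4, 4, 5, 5,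
    5] [82, 70, 0, 0, 0, 0] [68, 60, 50, 40, 28, 0] 100000 34783 34783 1339132 43478 0 86957 43478
    0 21739 21739) (.L 6 9 [4, 4, 5, 5, 5] [94, 82, 70, 0, 0, 0] [68, 60, 50, 40, 28, 0] 100000
    25000 25000 1325000 25000 0 100000 25000 0 25000 25000)) (.L 6 9 [4, 4, 5, 5, 5] [123, 116,
    106, 94, 82, 70] [68, 60, 50, 40, 28, 0] 100000 30001 1 1190000 10000 0 130000 10000 0 26667
    13333)) (.E 2))) (.E 1))) (.E 1)) (.E 1))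

lemma s22_22_8_4_29 {n : ℕ} (hn : 5 ≤ n) : NoNd (d22_22_8_4.R : ℤ) d22_22_8_4.H n d22_22_8_4.a d22_22_8_4.b
    (BlkD.inB (BlkD.upd (BlkD.upd (fun _ => 0) 0 5) 1 5)
      (BlkD.upd (BlkD.upd (BlkD.upd (BlkD.upd (BlkD.upd (BlkD.upd (BlkD.upd (BlkD.upd (BlkD.upd (fun _ => 22) 0 8) 2 4) 0 6) 0 5) 1 17) 1 8) 1 6) 1 5) 2 2)) :=
  BlkD.tree_sound (BlkD.pairOk_sound k22_22_8_4) (by decide) hn t22_22_8_4_29 _ _ (by decide +kernel)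

/-- certificates of the pair `(8, 4)`, part 30 -/
def t22_22_8_4_30 : BlkD.Tr :=
  .S 2 3 (.S 3 9 (.S 3 4 (.S 3 2 (.S 3 1 (.L 6 9 [4, 4, 5, 5, 5] [123, 116, 106, 94, 82, 70] []
    100000 23334 23334 1384509 19412 18824 58824 42157 3333 23333 26863) (.S 4 5 (.S 4 2 (.L 6 9
    [4, 4, 5, 5, 5] [94, 82, 70, 0, 0, 0] [36, 26, 14, 0, 0, 0] 100000 25000 25000 1385000 30000 0
    55000 55000 0 30000 25000) (.L 6 9 [4, 4, 5, 5, 5] [123, 116, 106, 94, 82, 70] [36, 26, 14, 0,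
    0, 0] 100000 40909 0 1113637 13636 0 140909 77273 0 0 18182)) (.E 2))) (.S 3 3 (.S 4 5 (.S 4 2
    (.L 6 9 [4, 4, 5, 5, 5] [94, 82, 70, 0, 0, 0] [56, 46, 36, 24, 0, 0] 100000 31250 31250 1356250
    43750 0 68750 25000 0 50000 25000) (.L 6 9 [4, 4, 5, 5, 5] [123, 116, 106, 94, 82, 70] [56, 46,
    36, 24, 0, 0] 100000 41667 0 1108333 33333 0 141667 0 0 50000 25000)) (.E 2)) (.E 1))) (.E 1))
    (.E 1)) (.L 6 9 [4, 4, 5, 5, 5] [123, 116, 106, 94, 82, 70] [] 100000 23052 23052 1380520 29870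
    0 53247 3896 3896 53247 23377)

lemma s22_22_8_4_30 {n : ℕ} (hn : 5 ≤ n) : NoNd (d22_22_8_4.R : ℤ) d22_22_8_4.H n d22_22_8_4.a d22_22_8_4.b
    (BlkD.inB (BlkD.upd (BlkD.upd (BlkD.upd (fun _ => 0) 0 5) 1 5) 2 3)
      (BlkD.upd (BlkD.upd (BlkD.upd (BlkD.upd (BlkD.upd (BlkD.upd (BlkD.upd (BlkD.upd (fun _ => 22) 0 8) 2 4) 0 6) 0 5) 1 17) 1 8) 1 6) 1 5)) :=
  BlkD.tree_sound (BlkD.pairOk_sound k22_22_8_4) (by decide) hn t22_22_8_4_30 _ _ (by decide +kernel)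

/-- certificates of the pair `(8, 4)`, part 31 -/
def t22_22_8_4_31 : BlkD.Tr :=
  .S 2 0 (.L 6 9 [4, 4, 5, 5, 5] [144, 143, 136, 126, 114, 102] [] 100000 35714 35714 1200000 0 0
    50000 100000 0 0 14286) (.S 3 10 (.S 3 5 (.S 3 2 (.L 6 9 [4, 4, 5, 5, 5] [144, 143, 136, 126,
    114, 102] [] 100000 31707 31706 1343903 24390 31707 46341 34146 2439 0 24390) (.S 3 4 (.S 3 3
    (.L 6 9 [4, 4, 5, 5, 5] [144, 143, 136, 126, 114, 102] [44, 34, 24, 12, 0, 0] 100000 31250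
    31250 1371875 25000 28125 50000 50000 3125 0 25000) (.S 4 6 (.S 4 3 (.L 6 9 [4, 4, 5, 5, 5]
    [126, 114, 102, 90, 0, 0] [60, 52, 42, 32, 20, 0] 100000 40000 40000 1337500 32500 55000 72500
    55000 0 12500 20000) (.L 6 9 [4, 4, 5, 5, 5] [144, 143, 136, 126, 114, 102] [60, 52, 42, 32,
    20, 0] 100000 30556 0 1186110 8333 5556 130556 11111 0 8333 30556)) (.E 2))) (.S 4 6 (.S 4 3
    (.L 6 9 [4, 4, 5, 5, 5] [126, 114, 102, 90, 0, 0] [72, 70, 62, 52, 42, 30] 100000 42425 42425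
    1312120 36364 42424 78788 60606 0 3030 21212) (.L 6 9 [4, 4, 5, 5, 5] [144, 143, 136, 126, 114,
    102] [72, 70, 62, 52, 42, 30] 100000 125000 0 525000 0 137500 225000 137500 0 0 12500)) (.E
    2)))) (.E 1)) (.E 1))

lemma s22_22_8_4_31 {n : ℕ} (hn : 5 ≤ n) : NoNd (d22_22_8_4.R : ℤ) d22_22_8_4.H n d22_22_8_4.a d22_22_8_4.b
    (BlkD.inB (BlkD.upd (BlkD.upd (BlkD.upd (fun _ => 0) 0 5) 1 5) 1 6)
      (BlkD.upd (BlkD.upd (BlkD.upd (BlkD.upd (BlkD.upd (BlkD.upd (BlkD.upd (BlkD.upd (BlkD.upd (fun _ => 22) 0 8) 2 4) 0 6) 0 5) 1 17) 1 8) 1 6) 2 2) 2 1)) :=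
  BlkD.tree_sound (BlkD.pairOk_sound k22_22_8_4) (by decide) hn t22_22_8_4_31 _ _ (by decide +kernel)

/-- certificates of the pair `(8, 4)`, part 32 -/
def t22_22_8_4_32 : BlkD.Tr :=
  .S 3 9 (.S 3 4 (.S 3 2 (.S 3 1 (.L 6 9 [4, 4, 5, 5, 5] [144, 143, 136, 126, 114, 102] [] 100000
    30485 30485 1370088 29915 4274 55556 29915 4274 0 23362) (.S 4 6 (.S 4 3 (.S 4 1 (.L 6 9 [4, 4,
    5, 5, 5] [102, 90, 0, 0, 0, 0] [32, 22, 10, 0, 0, 0] 100000 16667 16667 1425758 30303 15152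
    62121 31061 16667 16667 22727) (.L 6 9 [4, 4, 5, 5, 5] [126, 114, 102, 90, 0, 0] [32, 22, 10,
    0, 0, 0] 100000 25743 25743 1375248 25743 2970 93069 36634 0 22772 24752)) (.L 6 9 [4, 4, 5, 5,
    5] [144, 143, 136, 126, 114, 102] [32, 22, 10, 0, 0, 0] 100000 38542 4167 1137500 12500 0
    134375 68750 0 0 18750)) (.E 2))) (.S 3 3 (.S 4 6 (.S 4 3 (.S 4 1 (.L 6 9 [4, 4, 5, 5, 5] [102,
    90, 0, 0, 0, 0] [50, 40, 30, 18, 0, 0] 100000 20213 20212 1403191 39362 0 79787 43617 9574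
    20213 20213) (.L 6 9 [4, 4, 5, 5, 5] [126, 114, 102, 90, 0, 0] [50, 40, 30, 18, 0, 0] 100000
    26786 26786 1371429 37500 0 78571 37500 0 30357 19643)) (.L 6 9 [4, 4, 5, 5, 5] [144, 143, 136,
    126, 114, 102] [50, 40, 30, 18, 0, 0] 100000 30000 0 1190000 10000 0 130000 10000 0 10000
    30000)) (.E 2)) (.S 4 6 (.S 4 3 (.S 4 1 (.L 6 9 [4, 4, 5, 5, 5] [102, 90, 0, 0, 0, 0] [68, 60,
    50, 40, 28, 0] 100000 41176 41175 1282354 52941 0 100000 52941 0 0 17647) (.S 4 2 (.L 6 9 [4,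
    4, 5, 5, 5] [114, 102, 90, 0, 0, 0] [68, 60, 50, 40, 28, 0] 100000 30000 30000 1340000 40000 0
    100000 40000 0 40000 20000) (.L 6 9 [4, 4, 5, 5, 5] [126, 114, 102, 90, 0, 0] [68, 60, 50, 40,
    28, 0] 100000 25000 25000 1325000 25000 0 100000 25000 0 25000 25000))) (.L 6 9 [4, 4, 5, 5, 5]
    [144, 143, 136, 126, 114, 102] [68, 60, 50, 40, 28, 0] 100000 50000 0 1050000 25000 0 150000
    25000 0 0 25000)) (.E 2)))) (.E 1)) (.E 1)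

lemma s22_22_8_4_32 {n : ℕ} (hn : 5 ≤ n) : NoNd (d22_22_8_4.R : ℤ) d22_22_8_4.H n d22_22_8_4.a d22_22_8_4.b
    (BlkD.inB (BlkD.upd (BlkD.upd (BlkD.upd (BlkD.upd (fun _ => 0) 0 5) 1 5) 1 6) 2 2)
      (BlkD.upd (BlkD.upd (BlkD.upd (BlkD.upd (BlkD.upd (BlkD.upd (BlkD.upd (BlkD.upd (fun _ => 22) 0 8) 2 4) 0 6) 0 5) 1 17) 1 8) 1 6) 2 2)) :=
  BlkD.tree_sound (BlkD.pairOk_sound k22_22_8_4) (by decide) hn t22_22_8_4_32 _ _ (by decide +kernel)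

/-- certificates of the pair `(8, 4)`, part 33 -/
def t22_22_8_4_33 : BlkD.Tr :=
  .S 2 3 (.S 3 8 (.S 3 4 (.S 3 2 (.S 3 1 (.S 3 0 (.L 6 9 [4, 4, 5, 5, 5] [144, 143, 136, 126, 114,
    102] [0, 0, 0, 0, 0, 0] 100000 30494 30493 1369234 30769 0 57143 0 4396 0 23077) (.S 4 6 (.S 4
    3 (.S 4 1 (.L 6 9 [4, 4, 5, 5, 5] [102, 90, 0, 0, 0, 0] [18, 6, 0, 0, 0, 0] 100000 10295 10295
    1429411 29412 11765 76471 47059 35294 35294 23529) (.L 6 9 [4, 4, 5, 5, 5] [126, 114, 102, 90,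
    0, 0] [18, 6, 0, 0, 0, 0] 100000 25000 25000 1350000 30000 0 90000 30000 0 30000 25000)) (.L 6
    9 [4, 4, 5, 5, 5] [144, 143, 136, 126, 114, 102] [18, 6, 0, 0, 0, 0] 100000 38542 4167 1137500
    12500 0 134375 68750 0 0 18750)) (.E 2))) (.S 4 6 (.S 4 3 (.L 6 9 [4, 4, 5, 5, 5] [126, 114,
    102, 90, 0, 0] [36, 26, 14, 0, 0, 0] 100000 25715 25715 1394284 34286 0 74286 51429 5714 20000
    20000) (.L 6 9 [4, 4, 5, 5, 5] [144, 143, 136, 126, 114, 102] [36, 26, 14, 0, 0, 0] 100000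
    45455 0 1081818 13636 0 145455 54545 0 0 9091)) (.E 2))) (.S 3 3 (.S 4 6 (.S 4 3 (.L 6 9 [4, 4,
    5, 5, 5] [126, 114, 102, 90, 0, 0] [56, 46, 36, 24, 0, 0] 100000 37839 37839 1343241 48649 0
    91892 21622 0 35135 18919) (.L 6 9 [4, 4, 5, 5, 5] [144, 143, 136, 126, 114, 102] [56, 46, 36,
    24, 0, 0] 100000 55556 0 1011110 33333 0 155556 0 0 22222 22222)) (.E 2)) (.E 1))) (.E 1)) (.E
    1)) (.S 3 7 (.S 3 3 (.S 3 1 (.S 3 0 (.L 6 9 [4, 4, 5, 5, 5] [144, 143, 136, 126, 114, 102] [0,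
    0, 0, 0, 0, 0] 100000 19367 19367 1415494 28169 0 70423 0 11268 42254 23944) (.S 4 6 (.S 4 3
    (.L 6 9 [4, 4, 5, 5, 5] [126, 114, 102, 90, 0, 0] [20, 8, 0, 0, 0, 0] 100000 29688 29688
    1354688 43750 0 80469 26562 9375 36719 26563) (.L 6 9 [4, 4, 5, 5, 5] [144, 143, 136, 126, 114,
    102] [20, 8, 0, 0, 0, 0] 100000 77778 0 855555 33333 0 177778 0 0 0 0)) (.E 2))) (.E 1)) (.E
    1)) (.E 1))

lemma s22_22_8_4_33 {n : ℕ} (hn : 5 ≤ n) : NoNd (d22_22_8_4.R : ℤ) d22_22_8_4.H n d22_22_8_4.a d22_22_8_4.b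
    (BlkD.inB (BlkD.upd (BlkD.upd (BlkD.upd (BlkD.upd (fun _ => 0) 0 5) 1 5) 1 6) 2 3)
      (BlkD.upd (BlkD.upd (BlkD.upd (BlkD.upd (BlkD.upd (BlkD.upd (BlkD.upd (fun _ => 22) 0 8) 2 4) 0 6) 0 5) 1 17) 1 8) 1 6)) :=
  BlkD.tree_sound (BlkD.pairOk_sound k22_22_8_4) (by decide) hn t22_22_8_4_33 _ _ (by decide +kernel)

/-- certificates of the pair `(8, 4)`, part 34 -/
def t22_22_8_4_34 : BlkD.Tr :=
  .S 2 0 (.L 6 9 [4, 4, 5, 5, 5] [167, 166, 165, 158, 148, 136] [] 100000 35714 35714 1200000 0 0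
    50000 100000 0 0 14286) (.S 3 9 (.S 3 4 (.S 3 2 (.L 6 9 [4, 4, 5, 5, 5] [167, 166, 165, 158,
    148, 136] [] 100000 30411 30411 1350749 30597 26866 61194 53731 4478 0 23134) (.S 3 3 (.L 6 9
    [4, 4, 5, 5, 5] [167, 166, 165, 158, 148, 136] [44, 34, 24, 12, 0, 0] 100000 25000 25000
    1396429 25000 28571 71429 50000 3571 21429 25000) (.L 6 9 [4, 4, 5, 5, 5] [167, 166, 165, 158,
    148, 136] [60, 52, 42, 32, 20, 0] 100000 34437 34437 1355630 26490 39735 79470 52980 0 26490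
    13907))) (.L 6 9 [4, 4, 5, 5, 5] [167, 166, 165, 158, 148, 136] [] 100000 42857 42857 1292858
    35714 0 100000 64286 0 14286 21429)) (.E 1))

lemma s22_22_8_4_34 {n : ℕ} (hn : 5 ≤ n) : NoNd (d22_22_8_4.R : ℤ) d22_22_8_4.H n d22_22_8_4.a d22_22_8_4.b
    (BlkD.inB (BlkD.upd (BlkD.upd (BlkD.upd (fun _ => 0) 0 5) 1 5) 1 7)
      (BlkD.upd (BlkD.upd (BlkD.upd (BlkD.upd (BlkD.upd (BlkD.upd (BlkD.upd (BlkD.upd (BlkD.upd (fun _ => 22) 0 8) 2 4) 0 6) 0 5) 1 17) 1 8) 1 7) 2 2) 2 1)) :=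
  BlkD.tree_sound (BlkD.pairOk_sound k22_22_8_4) (by decide) hn t22_22_8_4_34 _ _ (by decide +kernel)

/-- certificates of the pair `(8, 4)`, part 35 -/
def t22_22_8_4_35 : BlkD.Tr :=
  .S 3 8 (.S 3 4 (.S 3 2 (.S 3 1 (.L 6 9 [4, 4, 5, 5, 5] [167, 166, 165, 158, 148, 136] [] 100000
    34211 34211 1352632 36842 0 73684 36842 0 0 21053) (.S 4 7 (.S 4 3 (.L 6 9 [4, 4, 5, 5, 5]
    [148, 136, 124, 112, 0, 0] [32, 22, 10, 0, 0, 0] 100000 25408 25408 1381523 36413 8696 91848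
    36413 7609 19022 21196) (.L 6 9 [4, 4, 5, 5, 5] [167, 166, 165, 158, 148, 136] [32, 22, 10, 0,
    0, 0] 100000 25000 24999 1305357 14286 5357 100000 51786 0 25000 28571)) (.E 2))) (.S 3 3 (.S 4
    7 (.S 4 3 (.L 6 9 [4, 4, 5, 5, 5] [148, 136, 124, 112, 0, 0] [50, 40, 30, 18, 0, 0] 100000
    37500 37500 1300000 50000 0 100000 50000 0 18750 18750) (.L 6 9 [4, 4, 5, 5, 5] [167, 166, 165,
    158, 148, 136] [50, 40, 30, 18, 0, 0] 100000 25000 25000 1325000 25000 0 100000 25000 0 50000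
    25000)) (.E 2)) (.L 6 9 [4, 4, 5, 5, 5] [167, 166, 165, 158, 148, 136] [68, 60, 50, 40, 28, 0]
    100000 42857 42857 1292858 35714 0 100000 64286 0 14286 21429))) (.E 1)) (.E 1)

lemma s22_22_8_4_35 {n : ℕ} (hn : 5 ≤ n) : NoNd (d22_22_8_4.R : ℤ) d22_22_8_4.H n d22_22_8_4.a d22_22_8_4.b
    (BlkD.inB (BlkD.upd (BlkD.upd (BlkD.upd (BlkD.upd (fun _ => 0) 0 5) 1 5) 1 7) 2 2)
      (BlkD.upd (BlkD.upd (BlkD.upd (BlkD.upd (BlkD.upd (BlkD.upd (BlkD.upd (BlkD.upd (fun _ => 22) 0 8) 2 4) 0 6) 0 5) 1 17) 1 8) 1 7) 2 2)) :=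
  BlkD.tree_sound (BlkD.pairOk_sound k22_22_8_4) (by decide) hn t22_22_8_4_35 _ _ (by decide +kernel)

/-- certificates of the pair `(8, 4)`, part 36 -/
def t22_22_8_4_36 : BlkD.Tr :=
  .S 2 3 (.S 3 7 (.S 3 3 (.S 3 1 (.L 6 9 [4, 4, 5, 5, 5] [167, 166, 165, 158, 148, 136] [] 100000
    21222 21222 1413954 27326 5233 76744 49419 7558 33721 22093) (.L 6 9 [4, 4, 5, 5, 5] [167, 166,
    165, 158, 148, 136] [] 100000 41270 41270 1315875 38095 0 96825 57143 0 22222 20635)) (.E 1))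
    (.E 1)) (.L 6 9 [4, 4, 5, 5, 5] [167, 166, 165, 158, 148, 136] [] 100000 34375 34375 1325000
    37500 0 100000 25000 0 62500 25000)

lemma s22_22_8_4_36 {n : ℕ} (hn : 5 ≤ n) : NoNd (d22_22_8_4.R : ℤ) d22_22_8_4.H n d22_22_8_4.a d22_22_8_4.b
    (BlkD.inB (BlkD.upd (BlkD.upd (BlkD.upd (BlkD.upd (fun _ => 0) 0 5) 1 5) 1 7) 2 3)
      (BlkD.upd (BlkD.upd (BlkD.upd (BlkD.upd (BlkD.upd (BlkD.upd (BlkD.upd (fun _ => 22) 0 8) 2 4) 0 6) 0 5) 1 17) 1 8) 1 7)) :=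
  BlkD.tree_sound (BlkD.pairOk_sound k22_22_8_4) (by decide) hn t22_22_8_4_36 _ _ (by decide +kernel)

/-- certificates of the pair `(8, 4)`, part 37 -/
def t22_22_8_4_37 : BlkD.Tr :=
  .L 6 9 [4, 4, 5, 5, 5] [192, 191, 190, 189, 182, 172] [] 100000 31250 31250 1350000 25000 0
    100000 75000 0 6250 25000

lemma s22_22_8_4_37 {n : ℕ} (hn : 5 ≤ n) : NoNd (d22_22_8_4.R : ℤ) d22_22_8_4.H n d22_22_8_4.a d22_22_8_4.b
    (BlkD.inB (BlkD.upd (BlkD.upd (BlkD.upd (BlkD.upd (fun _ => 0) 0 5) 1 5) 1 7) 1 8)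
      (BlkD.upd (BlkD.upd (BlkD.upd (BlkD.upd (BlkD.upd (BlkD.upd (fun _ => 22) 0 8) 2 4) 0 6) 0 5) 1 17) 1 8)) :=
  BlkD.tree_sound (BlkD.pairOk_sound k22_22_8_4) (by decide) hn t22_22_8_4_37 _ _ (by decide +kernel)

/-- certificates of the pair `(8, 4)`, part 38 -/
def t22_22_8_4_38 : BlkD.Tr :=
  .E 0

lemma s22_22_8_4_38 {n : ℕ} (hn : 5 ≤ n) : NoNd (d22_22_8_4.R : ℤ) d22_22_8_4.H n d22_22_8_4.a d22_22_8_4.b
    (BlkD.inB (BlkD.upd (BlkD.upd (fun _ => 0) 0 5) 1 9)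
      (BlkD.upd (BlkD.upd (BlkD.upd (BlkD.upd (BlkD.upd (fun _ => 22) 0 8) 2 4) 0 6) 0 5) 1 17)) :=
  BlkD.tree_sound (BlkD.pairOk_sound k22_22_8_4) (by decide) hn t22_22_8_4_38 _ _ (by decide +kernel)

/-- certificates of the pair `(8, 4)`, part 39 -/
def t22_22_8_4_39 : BlkD.Tr :=
  .E 0

lemma s22_22_8_4_39 {n : ℕ} (hn : 5 ≤ n) : NoNd (d22_22_8_4.R : ℤ) d22_22_8_4.H n d22_22_8_4.a d22_22_8_4.b
    (BlkD.inB (BlkD.upd (BlkD.upd (fun _ => 0) 0 5) 1 18)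
      (BlkD.upd (BlkD.upd (BlkD.upd (BlkD.upd (fun _ => 22) 0 8) 2 4) 0 6) 0 5)) :=
  BlkD.tree_sound (BlkD.pairOk_sound k22_22_8_4) (by decide) hn t22_22_8_4_39 _ _ (by decide +kernel)

/-- certificates of the pair `(8, 4)`, part 40 -/
def t22_22_8_4_40 : BlkD.Tr :=
  .L 6 9 [4, 4, 5, 5, 5] [] [] 100000 26250 26249 1325556 37222 6667 37222 37222 0 32222 33333

lemma s22_22_8_4_40 {n : ℕ} (hn : 5 ≤ n) : NoNd (d22_22_8_4.R : ℤ) d22_22_8_4.H n d22_22_8_4.a d22_22_8_4.b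
    (BlkD.inB (BlkD.upd (BlkD.upd (fun _ => 0) 0 5) 0 6)
      (BlkD.upd (BlkD.upd (BlkD.upd (BlkD.upd (BlkD.upd (BlkD.upd (BlkD.upd (fun _ => 22) 0 8) 2 4) 0 6) 1 16) 1 8) 1 4) 1 2)) :=
  BlkD.tree_sound (BlkD.pairOk_sound k22_22_8_4) (by decide) hn t22_22_8_4_40 _ _ (by decide +kernel)

/-- certificates of the pair `(8, 4)`, part 41 -/
def t22_22_8_4_41 : BlkD.Tr :=
  .S 2 2 (.S 2 1 (.L 6 9 [4, 4, 5, 5, 5] [78, 66, 54, 42, 0, 0] [] 100000 28847 28847 1369231 17949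
    38462 56410 56410 0 23077 33333) (.S 3 11 (.S 3 5 (.S 3 2 (.L 6 9 [4, 4, 5, 5, 5] [78, 66, 54,
    42, 0, 0] [] 100000 33333 33332 1300000 0 0 0 0 0 0 16667) (.S 3 4 (.S 3 3 (.L 6 9 [4, 4, 5, 5,
    5] [78, 66, 54, 42, 0, 0] [50, 40, 30, 18, 0, 0] 100000 25000 25000 1378334 23333 10833 23333
    23333 0 25000 33333) (.S 4 3 (.S 4 1 (.L 6 9 [4, 4, 5, 5, 5] [54, 42, 0, 0, 0, 0] [68, 60, 50,
    40, 28, 0] 100000 25000 25000 1387500 37500 0 37500 37500 0 37500 25000) (.L 6 9 [4, 4, 5, 5,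
    5] [78, 66, 54, 42, 0, 0] [68, 60, 50, 40, 28, 0] 100000 25000 10000 1255000 15000 0 115000
    15000 0 25000 15000)) (.E 2))) (.E 1))) (.E 1)) (.E 1))) (.S 2 3 (.S 3 10 (.S 3 5 (.S 3 2 (.L 6
    9 [4, 4, 5, 5, 5] [78, 66, 54, 42, 0, 0] [] 100000 25000 25000 1366667 33333 0 33333 33333 0
    33333 33333) (.S 3 4 (.S 3 3 (.S 4 3 (.S 4 1 (.L 6 9 [4, 4, 5, 5, 5] [54, 42, 0, 0, 0, 0] [56,
    46, 36, 24, 0, 0] 100000 25000 25000 1366668 44444 0 44444 0 0 66667 33333) (.L 6 9 [4, 4, 5,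
    5, 5] [78, 66, 54, 42, 0, 0] [56, 46, 36, 24, 0, 0] 100000 25000 0 1225000 25000 0 125000 0 0
    25000 25000)) (.E 2)) (.E 1)) (.E 1))) (.E 1)) (.E 1)) (.L 6 9 [4, 4, 5, 5, 5] [78, 66, 54, 42,
    0, 0] [] 100000 25000 25000 1333334 33333 0 33333 0 0 33333 33333))

lemma s22_22_8_4_41 {n : ℕ} (hn : 5 ≤ n) : NoNd (d22_22_8_4.R : ℤ) d22_22_8_4.H n d22_22_8_4.a d22_22_8_4.b
    (BlkD.inB (BlkD.upd (BlkD.upd (BlkD.upd (fun _ => 0) 0 5) 0 6) 1 3)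
      (BlkD.upd (BlkD.upd (BlkD.upd (BlkD.upd (BlkD.upd (BlkD.upd (BlkD.upd (fun _ => 22) 0 8) 2 4) 0 6) 1 16) 1 8) 1 4) 1 3)) :=
  BlkD.tree_sound (BlkD.pairOk_sound k22_22_8_4) (by decide) hn t22_22_8_4_41 _ _ (by decide +kernel)

/-- certificates of the pair `(8, 4)`, part 42 -/
def t22_22_8_4_42 : BlkD.Tr :=
  .S 2 2 (.S 2 1 (.S 2 0 (.L 6 9 [4, 4, 5, 5, 5] [106, 96, 84, 72, 60, 0] [] 100000 50000 50000
    1120000 0 0 80000 100000 0 0 0) (.S 3 11 (.S 3 5 (.S 3 2 (.L 6 9 [4, 4, 5, 5, 5] [106, 96, 84,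
    72, 60, 0] [] 100000 30000 30000 1310000 25000 25000 20000 25000 5000 0 22500) (.S 3 4 (.L 6 9
    [4, 4, 5, 5, 5] [106, 96, 84, 72, 60, 0] [] 100000 22222 22221 1398891 20000 26667 67778 40000
    5556 26667 26667) (.L 3 3 [5, 7, 9, 11, 13] [106, 96, 84, 72, 60, 0] [72, 70, 62, 52, 42, 30]
    100000 32667 32667 1366667 0 46667 93333 93333 9333 9333 28667))) (.E 1)) (.E 1))) (.S 3 10 (.S
    3 5 (.S 3 2 (.L 5 7 [4, 4, 5, 5, 6] [106, 96, 84, 72, 60, 0] [] 100000 22100 22100 1385636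
    14365 7182 57459 35912 7182 19337 20994) (.S 3 4 (.S 3 3 (.S 4 4 (.S 4 2 (.L 6 9 [4, 4, 5, 5,
    5] [84, 72, 60, 0, 0, 0] [50, 40, 30, 18, 0, 0] 100000 19835 19835 1414879 31818 0 83471 42562
    10331 37603 19835) (.L 6 9 [4, 4, 5, 5, 5] [106, 96, 84, 72, 60, 0] [50, 40, 30, 18, 0, 0]
    100000 25000 11537 1259614 13462 0 113462 13462 0 25000 15385)) (.E 2)) (.S 4 4 (.S 4 2 (.L 6 9
    [4, 4, 5, 5, 5] [84, 72, 60, 0, 0, 0] [68, 60, 50, 40, 28, 0] 100000 19445 19445 1411112 33333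
    0 88889 33333 11111 44444 22222) (.L 6 9 [4, 4, 5, 5, 5] [106, 96, 84, 72, 60, 0] [68, 60, 50,
    40, 28, 0] 100000 25000 0 1225000 0 0 125000 0 0 25000 25000)) (.E 2))) (.E 1))) (.E 1)) (.E
    1))) (.S 2 3 (.S 3 9 (.S 3 4 (.S 3 2 (.L 6 9 [4, 4, 5, 5, 5] [106, 96, 84, 72, 60, 0] [] 100000
    20536 20536 1403573 24107 0 70536 48214 8929 24107 20536) (.S 3 3 (.S 4 4 (.S 4 2 (.L 6 9 [4,
    4, 5, 5, 5] [84, 72, 60, 0, 0, 0] [56, 46, 36, 24, 0, 0] 100000 20265 20265 1400760 35606 0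
    92424 18939 11364 56818 25000) (.L 6 9 [4, 4, 5, 5, 5] [106, 96, 84, 72, 60, 0] [56, 46, 36,
    24, 0, 0] 100000 28572 1 1200001 14286 0 128571 0 0 28571 14286)) (.E 2)) (.E 1))) (.E 1)) (.E
    1)) (.L 6 9 [4, 4, 5, 5, 5] [106, 96, 84, 72, 60, 0] [] 100000 16000 16000 1400000 26000 0
    82000 22000 18000 34000 22000))

lemma s22_22_8_4_42 {n : ℕ} (hn : 5 ≤ n) : NoNd (d22_22_8_4.R : ℤ) d22_22_8_4.H n d22_22_8_4.a d22_22_8_4.b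
    (BlkD.inB (BlkD.upd (BlkD.upd (BlkD.upd (BlkD.upd (fun _ => 0) 0 5) 0 6) 1 3) 1 4)
      (BlkD.upd (BlkD.upd (BlkD.upd (BlkD.upd (BlkD.upd (BlkD.upd (fun _ => 22) 0 8) 2 4) 0 6) 1 16) 1 8) 1 4)) :=
  BlkD.tree_sound (BlkD.pairOk_sound k22_22_8_4) (by decide) hn t22_22_8_4_42 _ _ (by decide +kernel)

/-- certificates of the pair `(8, 4)`, part 43 -/
def t22_22_8_4_43 : BlkD.Tr :=
  .S 2 1 (.S 2 0 (.L 6 9 [4, 4, 5, 5, 5] [133, 126, 116, 104, 92, 80] [] 100000 50000 50000 1120000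
    0 0 80000 100000 0 0 0) (.S 3 10 (.S 3 5 (.S 3 2 (.L 6 9 [4, 4, 5, 5, 5] [133, 126, 116, 104,
    92, 80] [] 100000 25000 24999 1366666 25000 25000 66667 41667 8333 8333 25000) (.S 3 4 (.S 3 3
    (.L 6 9 [4, 4, 5, 5, 5] [133, 126, 116, 104, 92, 80] [44, 34, 24, 12, 0, 0] 100000 29911 29911
    1371429 25000 39286 62500 48214 5357 8929 25000) (.L 3 3 [5, 7, 9, 11, 13] [133, 126, 116, 104,
    92, 80] [60, 52, 42, 32, 20, 0] 100000 32667 32667 1366667 0 46667 93333 93333 9333 9333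
    28667)) (.L 3 3 [5, 7, 9, 11, 13] [133, 126, 116, 104, 92, 80] [72, 70, 62, 52, 42, 30] 100000
    50000 50000 1250000 0 75000 100000 100000 0 0 25000))) (.E 1)) (.E 1))) (.S 3 9 (.S 3 4 (.S 3 2
    (.S 3 1 (.L 5 7 [4, 4, 5, 5, 6] [133, 126, 116, 104, 92, 80] [] 100000 25909 25908 1373184
    18182 18182 65000 27727 6364 9545 28636) (.S 4 5 (.S 4 2 (.L 5 7 [4, 4, 5, 5, 6] [104, 92, 80,
    0, 0, 0] [32, 22, 10, 0, 0, 0] 100000 4412 4412 1447059 17647 0 64706 47059 47059 52941 35294)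
    (.L 5 7 [4, 4, 5, 5, 6] [133, 126, 116, 104, 92, 80] [32, 22, 10, 0, 0, 0] 100000 25000 25000
    1308334 8333 0 100000 75000 0 25000 25000)) (.E 2))) (.S 3 3 (.S 4 5 (.S 4 2 (.L 5 7 [4, 4, 5,
    5, 6] [104, 92, 80, 0, 0, 0] [50, 40, 30, 18, 0, 0] 100000 6250 6250 1450000 25000 0 75000
    25000 50000 75000 25000) (.L 5 7 [4, 4, 5, 5, 6] [133, 126, 116, 104, 92, 80] [50, 40, 30, 18,
    0, 0] 100000 25000 25000 1350000 25000 0 100000 12500 0 75000 25000)) (.E 2)) (.S 4 5 (.S 4 2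
    (.L 5 7 [4, 4, 5, 5, 6] [104, 92, 80, 0, 0, 0] [68, 60, 50, 40, 28, 0] 100000 40000 40000
    1300000 40000 0 100000 80000 0 0 20000) (.L 5 7 [4, 4, 5, 5, 6] [133, 126, 116, 104, 92, 80]
    [68, 60, 50, 40, 28, 0] 100000 25000 24999 1341666 16667 12500 100000 25000 0 75000 25000)) (.E
    2)))) (.E 1)) (.E 1))

lemma s22_22_8_4_43 {n : ℕ} (hn : 5 ≤ n) : NoNd (d22_22_8_4.R : ℤ) d22_22_8_4.H n d22_22_8_4.a d22_22_8_4.b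
    (BlkD.inB (BlkD.upd (BlkD.upd (BlkD.upd (fun _ => 0) 0 5) 0 6) 1 5)
      (BlkD.upd (BlkD.upd (BlkD.upd (BlkD.upd (BlkD.upd (BlkD.upd (BlkD.upd (BlkD.upd (fun _ => 22) 0 8) 2 4) 0 6) 1 16) 1 8) 1 6) 1 5) 2 2)) :=
  BlkD.tree_sound (BlkD.pairOk_sound k22_22_8_4) (by decide) hn t22_22_8_4_43 _ _ (by decide +kernel)

/-- certificates of the pair `(8, 4)`, part 44 -/
def t22_22_8_4_44 : BlkD.Tr :=
  .S 2 3 (.S 3 8 (.S 3 4 (.S 3 2 (.S 3 1 (.L 6 9 [4, 4, 5, 5, 5] [133, 126, 116, 104, 92, 80] []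
    100000 18334 18334 1420000 26667 0 80000 26667 13333 26667 20000) (.S 4 5 (.S 4 2 (.L 6 9 [4,
    4, 5, 5, 5] [104, 92, 80, 0, 0, 0] [36, 26, 14, 0, 0, 0] 100000 9559 9558 1414705 29412 0 67647
    44118 38235 38235 23529) (.L 6 9 [4, 4, 5, 5, 5] [133, 126, 116, 104, 92, 80] [36, 26, 14, 0,
    0, 0] 100000 25000 25000 1308334 8333 0 100000 75000 0 25000 25000)) (.E 2))) (.S 3 3 (.S 4 5
    (.S 4 2 (.L 6 9 [4, 4, 5, 5, 5] [104, 92, 80, 0, 0, 0] [56, 46, 36, 24, 0, 0] 100000 33334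
    33334 1316667 50000 0 100000 33333 0 33333 16667) (.L 6 9 [4, 4, 5, 5, 5] [133, 126, 116, 104,
    92, 80] [56, 46, 36, 24, 0, 0] 100000 26667 26667 1342222 28889 0 100000 0 0 40000 20000)) (.E
    2)) (.E 1))) (.E 1)) (.E 1)) (.L 6 9 [4, 4, 5, 5, 5] [133, 126, 116, 104, 92, 80] [] 100000
    14535 14535 1420931 25581 0 79070 23256 20930 30233 23256)

lemma s22_22_8_4_44 {n : ℕ} (hn : 5 ≤ n) : NoNd (d22_22_8_4.R : ℤ) d22_22_8_4.H n d22_22_8_4.a d22_22_8_4.b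
    (BlkD.inB (BlkD.upd (BlkD.upd (BlkD.upd (BlkD.upd (fun _ => 0) 0 5) 0 6) 1 5) 2 3)
      (BlkD.upd (BlkD.upd (BlkD.upd (BlkD.upd (BlkD.upd (BlkD.upd (BlkD.upd (fun _ => 22) 0 8) 2 4) 0 6) 1 16) 1 8) 1 6) 1 5)) :=
  BlkD.tree_sound (BlkD.pairOk_sound k22_22_8_4) (by decide) hn t22_22_8_4_44 _ _ (by decide +kernel)

/-- certificates of the pair `(8, 4)`, part 45 -/
def t22_22_8_4_45 : BlkD.Tr :=
  .S 2 2 (.S 2 1 (.L 6 9 [4, 4, 5, 5, 5] [156, 155, 148, 138, 126, 114] [] 100000 35000 35000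
    1335000 25000 45000 75000 70000 0 5000 17500) (.L 6 9 [4, 4, 5, 5, 5] [156, 155, 148, 138, 126,
    114] [] 100000 26584 26584 1386428 28054 0 92760 36652 5204 11312 23982)) (.L 6 9 [4, 4, 5, 5,
    5] [156, 155, 148, 138, 126, 114] [] 100000 22561 22561 1385367 31707 0 75610 43902 4878 31707
    22561)

lemma s22_22_8_4_45 {n : ℕ} (hn : 5 ≤ n) : NoNd (d22_22_8_4.R : ℤ) d22_22_8_4.H n d22_22_8_4.a d22_22_8_4.b
    (BlkD.inB (BlkD.upd (BlkD.upd (BlkD.upd (BlkD.upd (fun _ => 0) 0 5) 0 6) 1 5) 1 6)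
      (BlkD.upd (BlkD.upd (BlkD.upd (BlkD.upd (BlkD.upd (BlkD.upd (fun _ => 22) 0 8) 2 4) 0 6) 1 16) 1 8) 1 6)) :=
  BlkD.tree_sound (BlkD.pairOk_sound k22_22_8_4) (by decide) hn t22_22_8_4_45 _ _ (by decide +kernel)

/-- certificates of the pair `(8, 4)`, part 46 -/
def t22_22_8_4_46 : BlkD.Tr :=
  .L 6 9 [4, 4, 5, 5, 5] [] [] 100000 20833 20832 1316669 0 0 100000 83333 20833 16667 20833

lemma s22_22_8_4_46 {n : ℕ} (hn : 5 ≤ n) : NoNd (d22_22_8_4.R : ℤ) d22_22_8_4.H n d22_22_8_4.a d22_22_8_4.b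
    (BlkD.inB (BlkD.upd (BlkD.upd (BlkD.upd (BlkD.upd (fun _ => 0) 0 5) 0 6) 1 5) 1 7)
      (BlkD.upd (BlkD.upd (BlkD.upd (BlkD.upd (BlkD.upd (fun _ => 22) 0 8) 2 4) 0 6) 1 16) 1 8)) :=
  BlkD.tree_sound (BlkD.pairOk_sound k22_22_8_4) (by decide) hn t22_22_8_4_46 _ _ (by decide +kernel)

/-- certificates of the pair `(8, 4)`, part 47 -/
def t22_22_8_4_47 : BlkD.Tr :=
  .E 0

lemma s22_22_8_4_47 {n : ℕ} (hn : 5 ≤ n) : NoNd (d22_22_8_4.R : ℤ) d22_22_8_4.H n d22_22_8_4.a d22_22_8_4.b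
    (BlkD.inB (BlkD.upd (BlkD.upd (BlkD.upd (fun _ => 0) 0 5) 0 6) 1 9)
      (BlkD.upd (BlkD.upd (BlkD.upd (BlkD.upd (fun _ => 22) 0 8) 2 4) 0 6) 1 16)) :=
  BlkD.tree_sound (BlkD.pairOk_sound k22_22_8_4) (by decide) hn t22_22_8_4_47 _ _ (by decide +kernel)

/-- certificates of the pair `(8, 4)`, part 48 -/
def t22_22_8_4_48 : BlkD.Tr :=
  .E 0

lemma s22_22_8_4_48 {n : ℕ} (hn : 5 ≤ n) : NoNd (d22_22_8_4.R : ℤ) d22_22_8_4.H n d22_22_8_4.a d22_22_8_4.b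
    (BlkD.inB (BlkD.upd (BlkD.upd (BlkD.upd (fun _ => 0) 0 5) 0 6) 1 17)
      (BlkD.upd (BlkD.upd (BlkD.upd (fun _ => 22) 0 8) 2 4) 0 6)) :=
  BlkD.tree_sound (BlkD.pairOk_sound k22_22_8_4) (by decide) hn t22_22_8_4_48 _ _ (by decide +kernel)

/-- certificates of the pair `(8, 4)`, part 49 -/
def t22_22_8_4_49 : BlkD.Tr :=
  .S 0 7 (.S 1 15 (.S 1 7 (.S 1 3 (.S 1 1 (.L 6 9 [4, 4, 5, 5, 5] [] [] 100000 25000 25000 1362500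
    37500 0 37500 37500 0 37500 25000) (.S 1 2 (.L 6 9 [4, 4, 5, 5, 5] [54, 42, 30, 0, 0, 0] []
    100000 22355 22355 1400000 37037 0 94709 59259 5291 37037 33333) (.S 2 2 (.S 2 1 (.L 6 9 [4, 4,
    5, 5, 5] [84, 72, 60, 48, 0, 0] [] 100000 28031 28031 1333333 6061 51515 87879 72727 12121
    15152 12121) (.S 3 10 (.S 3 5 (.S 3 2 (.L 6 9 [4, 4, 5, 5, 5] [84, 72, 60, 48, 0, 0] [] 100000
    17857 17856 1400000 0 0 71429 100000 28571 0 28571) (.L 6 9 [4, 4, 5, 5, 5] [84, 72, 60, 48, 0,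
    0] [] 100000 15476 15476 1433336 33333 0 80952 33333 19048 47619 19048)) (.E 1)) (.E 1))) (.L 6
    9 [4, 4, 5, 5, 5] [84, 72, 60, 48, 0, 0] [] 100000 16837 16837 1414289 28571 0 83673 42857
    16327 40306 16837)))) (.L 6 9 [4, 4, 5, 5, 5] [] [] 100000 18750 18749 1416669 0 0 91667 91667
    18750 16667 18750)) (.E 0)) (.E 0)) (.L 6 9 [4, 4, 5, 5, 5] [] [] 100000 7778 7778 1437778 2963
    2963 59259 53333 40741 28148 40741)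

lemma s22_22_8_4_49 {n : ℕ} (hn : 5 ≤ n) : NoNd (d22_22_8_4.R : ℤ) d22_22_8_4.H n d22_22_8_4.a d22_22_8_4.b
    (BlkD.inB (BlkD.upd (BlkD.upd (fun _ => 0) 0 5) 0 7)
      (BlkD.upd (BlkD.upd (fun _ => 22) 0 8) 2 4)) :=
  BlkD.tree_sound (BlkD.pairOk_sound k22_22_8_4) (by decide) hn t22_22_8_4_49 _ _ (by decide +kernel)

/-- certificates of the pair `(8, 4)`, part 50 -/
def t22_22_8_4_50 : BlkD.Tr :=
  .E 1

lemma s22_22_8_4_50 {n : ℕ} (hn : 5 ≤ n) : NoNd (d22_22_8_4.R : ℤ) d22_22_8_4.H n d22_22_8_4.a d22_22_8_4.b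
    (BlkD.inB (BlkD.upd (fun _ => 0) 2 5)
      (BlkD.upd (fun _ => 22) 0 8)) :=
  BlkD.tree_sound (BlkD.pairOk_sound k22_22_8_4) (by decide) hn t22_22_8_4_50 _ _ (by decide +kernel)

/-- certificates of the pair `(8, 4)`, part 51 -/
def t22_22_8_4_51 : BlkD.Tr :=
  .E 0

lemma s22_22_8_4_51 {n : ℕ} (hn : 5 ≤ n) : NoNd (d22_22_8_4.R : ℤ) d22_22_8_4.H n d22_22_8_4.a d22_22_8_4.b
    (BlkD.inB (BlkD.upd (fun _ => 0) 0 9)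
      (fun _ => 22)) :=
  BlkD.tree_sound (BlkD.pairOk_sound k22_22_8_4) (by decide) hn t22_22_8_4_51 _ _ (by decide +kernel)

lemma pr22_22_8_4 {n : ℕ} (hn : 5 ≤ n) : NoPr ((22 : ℕ) : ℤ) ((22 : ℕ) : ℤ) n 8 4 :=
  BlkD.of_root (R := d22_22_8_4.R) (H := d22_22_8_4.H) (a := d22_22_8_4.a) (b := d22_22_8_4.b) (q := 3) (by decide) hn
    (BlkD.sp 0 8 (BlkD.sp 2 4 (BlkD.sp 0 4 (BlkD.sp 0 2 (BlkD.sp 0 1 (BlkD.sp 0 0 (s22_22_8_4_1 hn)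
      (BlkD.sp 1 11 (BlkD.sp 1 5 (s22_22_8_4_2 hn) (s22_22_8_4_3 hn)) (s22_22_8_4_4 hn))) (BlkD.sp
      1 11 (BlkD.sp 1 5 (s22_22_8_4_5 hn) (BlkD.sp 1 8 (s22_22_8_4_6 hn) (s22_22_8_4_7 hn)))
      (s22_22_8_4_8 hn))) (BlkD.sp 0 3 (BlkD.sp 1 19 (BlkD.sp 1 9 (BlkD.sp 1 4 (s22_22_8_4_9 hn)
      (BlkD.sp 1 7 (s22_22_8_4_10 hn) (s22_22_8_4_11 hn))) (s22_22_8_4_12 hn)) (s22_22_8_4_13 hn))
      (BlkD.sp 1 18 (BlkD.sp 1 9 (BlkD.sp 1 4 (s22_22_8_4_14 hn) (BlkD.sp 1 7 (BlkD.sp 1 6 (BlkD.sp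
      1 5 (s22_22_8_4_15 hn) (BlkD.sp 2 2 (s22_22_8_4_16 hn) (s22_22_8_4_17 hn))) (BlkD.sp 2 2
      (BlkD.sp 2 1 (s22_22_8_4_18 hn) (s22_22_8_4_19 hn)) (s22_22_8_4_20 hn))) (BlkD.sp 1 8
      (BlkD.sp 2 2 (BlkD.sp 2 1 (BlkD.sp 2 0 (s22_22_8_4_21 hn) (s22_22_8_4_22 hn)) (s22_22_8_4_23
      hn)) (s22_22_8_4_24 hn)) (s22_22_8_4_25 hn)))) (s22_22_8_4_26 hn)) (s22_22_8_4_27 hn))))
      (BlkD.sp 0 6 (BlkD.sp 0 5 (BlkD.sp 1 17 (BlkD.sp 1 8 (BlkD.sp 1 4 (s22_22_8_4_28 hn) (BlkD.sp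
      1 6 (BlkD.sp 1 5 (BlkD.sp 2 2 (s22_22_8_4_29 hn) (s22_22_8_4_30 hn)) (BlkD.sp 2 2 (BlkD.sp 2
      1 (s22_22_8_4_31 hn) (s22_22_8_4_32 hn)) (s22_22_8_4_33 hn))) (BlkD.sp 1 7 (BlkD.sp 2 2
      (BlkD.sp 2 1 (s22_22_8_4_34 hn) (s22_22_8_4_35 hn)) (s22_22_8_4_36 hn)) (s22_22_8_4_37 hn))))
      (s22_22_8_4_38 hn)) (s22_22_8_4_39 hn)) (BlkD.sp 1 16 (BlkD.sp 1 8 (BlkD.sp 1 4 (BlkD.sp 1 2
      (s22_22_8_4_40 hn) (BlkD.sp 1 3 (s22_22_8_4_41 hn) (s22_22_8_4_42 hn))) (BlkD.sp 1 6 (BlkD.sp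
      1 5 (BlkD.sp 2 2 (s22_22_8_4_43 hn) (s22_22_8_4_44 hn)) (s22_22_8_4_45 hn)) (s22_22_8_4_46
      hn))) (s22_22_8_4_47 hn)) (s22_22_8_4_48 hn))) (s22_22_8_4_49 hn))) (s22_22_8_4_50 hn))
      (s22_22_8_4_51 hn))

end BlkC

end Pool.Agent.Lib.MP_f04ccf_co
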