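import Pool.Agent.Lib.MP_f04ccf_co.M.BlkT

/-!
MP_f04ccf_co, block certificate, data `R = 22`, `H = 22`, part 9 (generated, helper99:
bd10.cpp, gen2.py).
-/

set_option autoImplicit false
set_option maxRecDepth 100000

namespace Pool.Agent.Lib.MP_f04ccf_co

namespace BlkC

/-- the numbers of the pair `(8, 5)`, `R = 22`, `H = 22` -/
def d22_22_8_5 : BlkD.Pd :=
  ⟨22, 22, 3, 8, 5, 6, 3, 3, 1, 4, 12, 0, 2, 2, 10, 0, [0, 12, 24, 27, 28, 29, 30], [0, 10, 16, 18,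
    20, 22, 24], [⟨1, 1, 1, 4, 8, [0, 4], [0, 4]⟩, ⟨1, 1, 1, 4, 14, [0, 8], [0, 6]⟩, ⟨1, 1, 1, 4,
    18, [0, 10], [0, 8]⟩, ⟨2, 1, 1, 4, 28, [0, 12, 18], [0, 10]⟩]⟩

lemma k22_22_8_5 : BlkD.pairOk d22_22_8_5 = true := by decide +kernel

/-- certificates of the pair `(8, 5)`, part 1 -/
def t22_22_8_5_1 : BlkD.Tr :=
  .L 6 7 [4, 4, 4, 5, 22, 22] [] [] 100000 83334 83334 1300000 66667 0 83333 50000 0 0 16667

lemma s22_22_8_5_1 {n : ℕ} (hn : 5 ≤ n) : NoNd (d22_22_8_5.R : ℤ) d22_22_8_5.H n d22_22_8_5.a d22_22_8_5.b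
    (BlkD.inB (fun _ => 0)
      (BlkD.upd (BlkD.upd (BlkD.upd (BlkD.upd (BlkD.upd (BlkD.upd (fun _ => 22) 0 8) 2 5) 0 4) 0 2) 0 1) 0 0)) :=
  BlkD.tree_sound (BlkD.pairOk_sound k22_22_8_5) (by decide) hn t22_22_8_5_1 _ _ (by decide +kernel)

/-- certificates of the pair `(8, 5)`, part 2 -/
def t22_22_8_5_2 : BlkD.Tr :=
  .S 1 2 (.L 6 7 [4, 4, 4, 5, 22, 22] [] [] 100000 83334 83334 1300000 66667 0 83333 50000 0 0
    16667) (.L 6 7 [4, 4, 4, 5, 22, 22] [] [] 100000 83334 83334 1300000 66667 0 83333 50000 0 0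
    16667)

lemma s22_22_8_5_2 {n : ℕ} (hn : 5 ≤ n) : NoNd (d22_22_8_5.R : ℤ) d22_22_8_5.H n d22_22_8_5.a d22_22_8_5.b
    (BlkD.inB (BlkD.upd (fun _ => 0) 0 1)
      (BlkD.upd (BlkD.upd (BlkD.upd (BlkD.upd (BlkD.upd (BlkD.upd (BlkD.upd (fun _ => 22) 0 8) 2 5) 0 4) 0 2) 0 1) 1 11) 1 5)) :=
  BlkD.tree_sound (BlkD.pairOk_sound k22_22_8_5) (by decide) hn t22_22_8_5_2 _ _ (by decide +kernel)

/-- certificates of the pair `(8, 5)`, part 3 -/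
def t22_22_8_5_3 : BlkD.Tr :=
  .S 1 8 (.L 6 7 [4, 4, 4, 5, 22, 22] [] [] 100000 83334 83334 1300000 66667 0 83333 50000 0 0
    16667) (.L 6 7 [4, 4, 4, 5, 22, 22] [] [] 100000 83334 83334 1300000 66667 0 83333 50000 0 0
    16667)

lemma s22_22_8_5_3 {n : ℕ} (hn : 5 ≤ n) : NoNd (d22_22_8_5.R : ℤ) d22_22_8_5.H n d22_22_8_5.a d22_22_8_5.b
    (BlkD.inB (BlkD.upd (BlkD.upd (fun _ => 0) 0 1) 1 6)
      (BlkD.upd (BlkD.upd (BlkD.upd (BlkD.upd (BlkD.upd (BlkD.upd (fun _ => 22) 0 8) 2 5) 0 4) 0 2) 0 1) 1 11)) :=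
  BlkD.tree_sound (BlkD.pairOk_sound k22_22_8_5) (by decide) hn t22_22_8_5_3 _ _ (by decide +kernel)

/-- certificates of the pair `(8, 5)`, part 4 -/
def t22_22_8_5_4 : BlkD.Tr :=
  .L 6 7 [4, 4, 4, 5, 22, 22] [] [] 100000 83334 83334 1300000 66667 0 83333 50000 0 0 16667

lemma s22_22_8_5_4 {n : ℕ} (hn : 5 ≤ n) : NoNd (d22_22_8_5.R : ℤ) d22_22_8_5.H n d22_22_8_5.a d22_22_8_5.b
    (BlkD.inB (BlkD.upd (BlkD.upd (fun _ => 0) 0 1) 1 12)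
      (BlkD.upd (BlkD.upd (BlkD.upd (BlkD.upd (BlkD.upd (fun _ => 22) 0 8) 2 5) 0 4) 0 2) 0 1)) :=
  BlkD.tree_sound (BlkD.pairOk_sound k22_22_8_5) (by decide) hn t22_22_8_5_4 _ _ (by decide +kernel)

/-- certificates of the pair `(8, 5)`, part 5 -/
def t22_22_8_5_5 : BlkD.Tr :=
  .S 1 2 (.L 6 7 [4, 4, 4, 5, 22, 22] [] [] 100000 83334 83334 1300000 66667 0 83333 50000 0 0
    16667) (.L 6 7 [4, 4, 4, 5, 22, 22] [] [] 100000 83334 83334 1300000 66667 0 83333 50000 0 0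
    16667)

lemma s22_22_8_5_5 {n : ℕ} (hn : 5 ≤ n) : NoNd (d22_22_8_5.R : ℤ) d22_22_8_5.H n d22_22_8_5.a d22_22_8_5.b
    (BlkD.inB (BlkD.upd (fun _ => 0) 0 2)
      (BlkD.upd (BlkD.upd (BlkD.upd (BlkD.upd (BlkD.upd (BlkD.upd (fun _ => 22) 0 8) 2 5) 0 4) 0 2) 1 11) 1 5)) :=
  BlkD.tree_sound (BlkD.pairOk_sound k22_22_8_5) (by decide) hn t22_22_8_5_5 _ _ (by decide +kernel)

/-- certificates of the pair `(8, 5)`, part 6 -/
def t22_22_8_5_6 : BlkD.Tr :=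
  .S 1 7 (.L 6 7 [4, 4, 4, 5, 22, 22] [] [] 100000 83334 83334 1300000 66667 0 83333 50000 0 0
    16667) (.L 6 7 [4, 4, 4, 5, 22, 22] [153, 152, 151, 148, 138, 126] [] 100000 83334 83334
    1300000 66667 0 83333 50000 0 0 16667)

lemma s22_22_8_5_6 {n : ℕ} (hn : 5 ≤ n) : NoNd (d22_22_8_5.R : ℤ) d22_22_8_5.H n d22_22_8_5.a d22_22_8_5.b
    (BlkD.inB (BlkD.upd (BlkD.upd (fun _ => 0) 0 2) 1 6)
      (BlkD.upd (BlkD.upd (BlkD.upd (BlkD.upd (BlkD.upd (BlkD.upd (fun _ => 22) 0 8) 2 5) 0 4) 0 2) 1 11) 1 8)) :=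
  BlkD.tree_sound (BlkD.pairOk_sound k22_22_8_5) (by decide) hn t22_22_8_5_6 _ _ (by decide +kernel)

/-- certificates of the pair `(8, 5)`, part 7 -/
def t22_22_8_5_7 : BlkD.Tr :=
  .S 1 10 (.S 1 9 (.L 6 7 [4, 4, 4, 5, 22, 22] [174, 173, 172, 171, 168, 158] [] 100000 83334 83334
    1300000 66667 0 83333 50000 0 0 16667) (.L 6 7 [4, 4, 4, 5, 22, 22] [197, 196, 195, 194, 193,
    190] [] 100000 83334 83334 1300000 66667 0 83333 50000 0 0 16667)) (.L 6 7 [4, 4, 4, 5, 22, 22]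
    [222, 221, 220, 219, 218, 217] [] 100000 83334 83334 1300000 66667 0 83333 50000 0 0 16667)

lemma s22_22_8_5_7 {n : ℕ} (hn : 5 ≤ n) : NoNd (d22_22_8_5.R : ℤ) d22_22_8_5.H n d22_22_8_5.a d22_22_8_5.b
    (BlkD.inB (BlkD.upd (BlkD.upd (BlkD.upd (fun _ => 0) 0 2) 1 6) 1 9)
      (BlkD.upd (BlkD.upd (BlkD.upd (BlkD.upd (BlkD.upd (fun _ => 22) 0 8) 2 5) 0 4) 0 2) 1 11)) :=
  BlkD.tree_sound (BlkD.pairOk_sound k22_22_8_5) (by decide) hn t22_22_8_5_7 _ _ (by decide +kernel)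

/-- certificates of the pair `(8, 5)`, part 8 -/
def t22_22_8_5_8 : BlkD.Tr :=
  .L 6 7 [4, 4, 4, 5, 22, 22] [] [] 100000 83334 83334 1300000 66667 0 83333 50000 0 0 16667

lemma s22_22_8_5_8 {n : ℕ} (hn : 5 ≤ n) : NoNd (d22_22_8_5.R : ℤ) d22_22_8_5.H n d22_22_8_5.a d22_22_8_5.b
    (BlkD.inB (BlkD.upd (BlkD.upd (fun _ => 0) 0 2) 1 12)
      (BlkD.upd (BlkD.upd (BlkD.upd (BlkD.upd (fun _ => 22) 0 8) 2 5) 0 4) 0 2)) :=
  BlkD.tree_sound (BlkD.pairOk_sound k22_22_8_5) (by decide) hn t22_22_8_5_8 _ _ (by decide +kernel)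

/-- certificates of the pair `(8, 5)`, part 9 -/
def t22_22_8_5_9 : BlkD.Tr :=
  .L 6 7 [4, 4, 4, 5, 22, 22] [] [] 100000 28889 28888 1393333 26667 0 26667 80000 0 13333 6667

lemma s22_22_8_5_9 {n : ℕ} (hn : 5 ≤ n) : NoNd (d22_22_8_5.R : ℤ) d22_22_8_5.H n d22_22_8_5.a d22_22_8_5.b
    (BlkD.inB (BlkD.upd (fun _ => 0) 0 3)
      (BlkD.upd (BlkD.upd (BlkD.upd (BlkD.upd (BlkD.upd (BlkD.upd (BlkD.upd (fun _ => 22) 0 8) 2 5) 0 4) 0 3) 1 19) 1 9) 1 4)) :=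
  BlkD.tree_sound (BlkD.pairOk_sound k22_22_8_5) (by decide) hn t22_22_8_5_9 _ _ (by decide +kernel)

/-- certificates of the pair `(8, 5)`, part 10 -/
def t22_22_8_5_10 : BlkD.Tr :=
  .S 1 6 (.S 1 5 (.L 6 7 [4, 4, 4, 5, 22, 22] [110, 100, 88, 76, 64, 50] [] 100000 26496 26496
    1471796 25641 0 51282 51282 0 20513 28205) (.S 2 2 (.L 6 7 [4, 4, 4, 5, 22, 22] [129, 126, 116,
    104, 92, 80] [] 100000 42425 42425 1427273 36364 18182 54545 54545 0 9091 9091) (.L 6 7 [4, 4,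
    4, 5, 22, 22] [129, 126, 116, 104, 92, 80] [] 100000 28571 28570 1485717 28571 0 57143 42857 0
    14286 28571))) (.S 2 2 (.L 6 7 [4, 4, 4, 5, 22, 22] [148, 147, 144, 134, 122, 110] [] 100000
    46667 46667 1440000 40000 20000 60000 40000 0 10000 10000) (.S 2 4 (.S 2 3 (.L 6 7 [4, 4, 4, 5,
    22, 22] [148, 147, 144, 134, 122, 110] [] 100000 25926 25926 1516668 33333 0 50000 50000 0
    22222 11111) (.L 6 7 [4, 4, 4, 5, 22, 22] [148, 147, 144, 134, 122, 110] [] 100000 40000 40000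
    1460000 40000 0 60000 40000 0 0 20000)) (.L 6 7 [4, 4, 4, 5, 22, 22] [148, 147, 144, 134, 122,
    110] [] 100000 22222 22222 1466669 33333 0 33333 0 0 50000 16667)))

lemma s22_22_8_5_10 {n : ℕ} (hn : 5 ≤ n) : NoNd (d22_22_8_5.R : ℤ) d22_22_8_5.H n d22_22_8_5.a d22_22_8_5.b
    (BlkD.inB (BlkD.upd (BlkD.upd (fun _ => 0) 0 3) 1 5)
      (BlkD.upd (BlkD.upd (BlkD.upd (BlkD.upd (BlkD.upd (BlkD.upd (BlkD.upd (fun _ => 22) 0 8) 2 5) 0 4) 0 3) 1 19) 1 9) 1 7)) :=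
  BlkD.tree_sound (BlkD.pairOk_sound k22_22_8_5) (by decide) hn t22_22_8_5_10 _ _ (by decide +kernel)

/-- certificates of the pair `(8, 5)`, part 11 -/
def t22_22_8_5_11 : BlkD.Tr :=
  .S 2 2 (.L 6 7 [4, 4, 4, 5, 22, 22] [169, 168, 167, 164, 154, 142] [] 100000 61250 61250 1400000
    50000 25000 62500 50000 0 7500 8750) (.S 2 4 (.S 2 3 (.S 3 8 (.S 3 4 (.S 3 2 (.L 6 7 [4, 4, 4,
    5, 22, 22] [169, 168, 167, 164, 154, 142] [] 100000 38889 38889 1400000 50000 0 50000 50000 0 0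
    33333) (.S 3 3 (.L 4 5 [4, 5, 6, 7, 22, 22] [169, 168, 167, 164, 154, 142] [60, 50, 38, 24, 0,
    0] 100000 40000 40000 1460000 40000 0 60000 40000 0 20000 20000) (.L 6 7 [4, 4, 4, 5, 22, 22]
    [169, 168, 167, 164, 154, 142] [82, 72, 62, 50, 36, 0] 100000 31111 31110 1500000 40000 0 60000
    60000 0 26667 13333))) (.L 6 7 [4, 4, 4, 5, 22, 22] [169, 168, 167, 164, 154, 142] [] 100000
    133333 133332 1100000 100000 0 100000 0 0 0 0)) (.E 1)) (.L 6 7 [4, 4, 4, 5, 22, 22] [169, 168,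
    167, 164, 154, 142] [] 100000 47223 47223 1433333 50000 0 66667 41667 0 25000 16667)) (.L 6 7
    [4, 4, 4, 5, 22, 22] [169, 168, 167, 164, 154, 142] [] 100000 33333 33333 1433337 44444 0 66667
    11111 0 44444 22222))

lemma s22_22_8_5_11 {n : ℕ} (hn : 5 ≤ n) : NoNd (d22_22_8_5.R : ℤ) d22_22_8_5.H n d22_22_8_5.a d22_22_8_5.b
    (BlkD.inB (BlkD.upd (BlkD.upd (BlkD.upd (fun _ => 0) 0 3) 1 5) 1 8)
      (BlkD.upd (BlkD.upd (BlkD.upd (BlkD.upd (BlkD.upd (BlkD.upd (BlkD.upd (fun _ => 22) 0 8) 2 5) 0 4) 0 3) 1 19) 1 9) 1 8)) :=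
  BlkD.tree_sound (BlkD.pairOk_sound k22_22_8_5) (by decide) hn t22_22_8_5_11 _ _ (by decide +kernel)

/-- certificates of the pair `(8, 5)`, part 12 -/
def t22_22_8_5_12 : BlkD.Tr :=
  .S 2 2 (.L 6 7 [4, 4, 4, 5, 22, 22] [192, 191, 190, 189, 186, 176] [] 100000 100000 100000
    1250000 75000 25000 100000 50000 0 0 0) (.S 2 4 (.S 2 3 (.S 3 7 (.S 3 3 (.S 3 1 (.L 6 7 [4, 4,
    4, 5, 22, 22] [192, 191, 190, 189, 186, 176] [] 100000 66667 66667 1300000 66667 0 100000 33333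
    0 0 0) (.S 3 2 (.L 6 7 [4, 4, 4, 5, 22, 22] [192, 191, 190, 189, 186, 176] [40, 28, 14, 0, 0,
    0] 100000 57971 57971 1347828 65217 0 91304 39130 0 13043 13043) (.L 4 4 [4, 6, 7, 9, 22, 22]
    [192, 191, 190, 189, 186, 176] [60, 50, 38, 24, 0, 0] 100000 77778 77778 1350000 50000 0 100000
    50000 0 0 33333))) (.L 4 4 [4, 6, 7, 9, 22, 22] [192, 191, 190, 189, 186, 176] [] 100000 131580
    131580 1152630 84211 0 100000 42105 0 42105 0)) (.E 1)) (.L 4 4 [4, 6, 7, 9, 22, 22] [192, 191,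
    190, 189, 186, 176] [] 100000 76923 76922 1346154 53846 0 92308 46154 0 7692 30769)) (.L 4 4
    [4, 6, 7, 9, 22, 22] [192, 191, 190, 189, 186, 176] [] 100000 100000 100000 1210000 70000 0
    100000 0 0 50000 25000))

lemma s22_22_8_5_12 {n : ℕ} (hn : 5 ≤ n) : NoNd (d22_22_8_5.R : ℤ) d22_22_8_5.H n d22_22_8_5.a d22_22_8_5.b
    (BlkD.inB (BlkD.upd (BlkD.upd (BlkD.upd (BlkD.upd (fun _ => 0) 0 3) 1 5) 1 8) 1 9)
      (BlkD.upd (BlkD.upd (BlkD.upd (BlkD.upd (BlkD.upd (BlkD.upd (fun _ => 22) 0 8) 2 5) 0 4) 0 3) 1 19) 1 9)) :=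
  BlkD.tree_sound (BlkD.pairOk_sound k22_22_8_5) (by decide) hn t22_22_8_5_12 _ _ (by decide +kernel)

/-- certificates of the pair `(8, 5)`, part 13 -/
def t22_22_8_5_13 : BlkD.Tr :=
  .S 1 14 (.S 1 12 (.S 1 11 (.S 1 10 (.L 4 4 [4, 6, 7, 9, 22, 22] [217, 216, 215, 214, 213, 210] []
    100000 84091 84091 1342427 62121 0 92424 46212 0 7576 18939) (.L 4 4 [4, 6, 7, 9, 22, 22] [244,
    243, 242, 241, 240, 239] [] 100000 104166 87498 1166668 83333 0 116667 33333 0 8333 22917)) (.L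
    4 4 [4, 6, 7, 9, 22, 22] [273, 272, 271, 270, 269, 268] [] 100000 166666 66665 700002 133333 0
    200000 0 0 0 0)) (.E 0)) (.E 0)

lemma s22_22_8_5_13 {n : ℕ} (hn : 5 ≤ n) : NoNd (d22_22_8_5.R : ℤ) d22_22_8_5.H n d22_22_8_5.a d22_22_8_5.b
    (BlkD.inB (BlkD.upd (BlkD.upd (fun _ => 0) 0 3) 1 10)
      (BlkD.upd (BlkD.upd (BlkD.upd (BlkD.upd (BlkD.upd (fun _ => 22) 0 8) 2 5) 0 4) 0 3) 1 19)) :=
  BlkD.tree_sound (BlkD.pairOk_sound k22_22_8_5) (by decide) hn t22_22_8_5_13 _ _ (by decide +kernel)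

/-- certificates of the pair `(8, 5)`, part 14 -/
def t22_22_8_5_14 : BlkD.Tr :=
  .E 0

lemma s22_22_8_5_14 {n : ℕ} (hn : 5 ≤ n) : NoNd (d22_22_8_5.R : ℤ) d22_22_8_5.H n d22_22_8_5.a d22_22_8_5.b
    (BlkD.inB (BlkD.upd (BlkD.upd (fun _ => 0) 0 3) 1 20)
      (BlkD.upd (BlkD.upd (BlkD.upd (BlkD.upd (fun _ => 22) 0 8) 2 5) 0 4) 0 3)) :=
  BlkD.tree_sound (BlkD.pairOk_sound k22_22_8_5) (by decide) hn t22_22_8_5_14 _ _ (by decide +kernel)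

/-- certificates of the pair `(8, 5)`, part 15 -/
def t22_22_8_5_15 : BlkD.Tr :=
  .L 6 7 [4, 4, 4, 5, 22, 22] [] [] 100000 29630 29630 1466668 33333 0 44444 55556 0 11111 33333

lemma s22_22_8_5_15 {n : ℕ} (hn : 5 ≤ n) : NoNd (d22_22_8_5.R : ℤ) d22_22_8_5.H n d22_22_8_5.a d22_22_8_5.b
    (BlkD.inB (BlkD.upd (BlkD.upd (fun _ => 0) 0 3) 0 4)
      (BlkD.upd (BlkD.upd (BlkD.upd (BlkD.upd (BlkD.upd (BlkD.upd (fun _ => 22) 0 8) 2 5) 0 4) 1 18) 1 9) 1 4)) :=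
  BlkD.tree_sound (BlkD.pairOk_sound k22_22_8_5) (by decide) hn t22_22_8_5_15 _ _ (by decide +kernel)

/-- certificates of the pair `(8, 5)`, part 16 -/
def t22_22_8_5_16 : BlkD.Tr :=
  .S 2 2 (.L 6 7 [4, 4, 4, 5, 22, 22] [120, 110, 98, 86, 74, 60] [] 100000 57812 57812 1420315
    39062 28125 67188 56250 0 6250 32813) (.S 2 4 (.S 2 3 (.L 6 7 [4, 4, 4, 5, 22, 22] [120, 110,
    98, 86, 74, 60] [] 100000 25641 25641 1507693 30769 0 46154 53846 0 23077 23077) (.S 3 9 (.S 3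
    4 (.L 6 7 [4, 4, 4, 5, 22, 22] [120, 110, 98, 86, 74, 60] [] 100000 33333 33332 1462500 37500 0
    50000 50000 0 37500 12500) (.E 1)) (.E 1))) (.L 6 7 [4, 4, 4, 5, 22, 22] [120, 110, 98, 86, 74,
    60] [] 100000 16667 16667 1475000 25000 0 25000 0 0 50000 25000))

lemma s22_22_8_5_16 {n : ℕ} (hn : 5 ≤ n) : NoNd (d22_22_8_5.R : ℤ) d22_22_8_5.H n d22_22_8_5.a d22_22_8_5.b
    (BlkD.inB (BlkD.upd (BlkD.upd (BlkD.upd (fun _ => 0) 0 3) 0 4) 1 5)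
      (BlkD.upd (BlkD.upd (BlkD.upd (BlkD.upd (BlkD.upd (BlkD.upd (BlkD.upd (BlkD.upd (fun _ => 22) 0 8) 2 5) 0 4) 1 18) 1 9) 1 7) 1 6) 1 5)) :=
  BlkD.tree_sound (BlkD.pairOk_sound k22_22_8_5) (by decide) hn t22_22_8_5_16 _ _ (by decide +kernel)

/-- certificates of the pair `(8, 5)`, part 17 -/
def t22_22_8_5_17 : BlkD.Tr :=
  .S 2 2 (.S 2 1 (.L 6 7 [4, 4, 4, 5, 22, 22] [141, 138, 128, 116, 104, 92] [] 100000 62962 62961
    1344448 44444 44444 66667 66667 0 0 33333) (.S 3 10 (.S 3 5 (.S 3 2 (.L 6 7 [4, 4, 4, 5, 22,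
    22] [141, 138, 128, 116, 104, 92] [] 100000 33333 33332 1400000 0 0 0 0 0 0 0) (.S 3 4 (.L 6 7
    [4, 4, 4, 5, 22, 22] [141, 138, 128, 116, 104, 92] [] 100000 33333 33332 1488890 22222 22222
    44444 44444 0 0 33333) (.S 4 6 (.S 4 3 (.L 7 9 [4, 4, 4, 4, 22, 22] [116, 104, 92, 78, 0, 0]
    [92, 86, 76, 66, 54, 40] 100000 27778 27778 1500003 33333 16667 66667 50000 0 16667 33333) (.L
    7 9 [4, 4, 4, 4, 22, 22] [141, 138, 128, 116, 104, 92] [92, 86, 76, 66, 54, 40] 100000 100000 0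
    900000 0 0 200000 200000 0 0 0)) (.E 2)))) (.L 7 9 [4, 4, 4, 4, 22, 22] [141, 138, 128, 116,
    104, 92] [] 100000 57143 57143 1400000 57143 0 85714 57143 0 42857 14286)) (.E 1))) (.S 2 4 (.S
    2 3 (.S 3 9 (.S 3 4 (.S 3 2 (.L 7 9 [4, 4, 4, 4, 22, 22] [141, 138, 128, 116, 104, 92] []
    100000 33333 33332 1460000 40000 0 40000 40000 0 0 0) (.S 3 3 (.S 4 6 (.S 4 3 (.L 5 6 [4, 4, 5,
    6, 22, 22] [116, 104, 92, 78, 0, 0] [60, 50, 38, 24, 0, 0] 100000 28205 28205 1507694 30769 0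
    46154 30769 0 15385 23077) (.L 5 6 [4, 4, 5, 6, 22, 22] [141, 138, 128, 116, 104, 92] [60, 50,
    38, 24, 0, 0] 100000 66667 0 1100000 33333 0 166667 100000 0 0 0)) (.E 2)) (.S 4 6 (.S 4 3 (.L
    5 6 [4, 4, 5, 6, 22, 22] [116, 104, 92, 78, 0, 0] [82, 72, 62, 50, 36, 0] 100000 37777 37776
    1483335 43333 0 63333 33333 0 43333 20000) (.L 5 6 [4, 4, 5, 6, 22, 22] [141, 138, 128, 116,
    104, 92] [82, 72, 62, 50, 36, 0] 100000 120000 0 780000 40000 0 220000 180000 0 0 0)) (.E 2))))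
    (.S 3 7 (.S 3 6 (.S 3 5 (.S 4 6 (.S 4 3 (.L 6 7 [4, 4, 4, 5, 22, 22] [116, 104, 92, 78, 0, 0]
    [102, 96, 86, 76, 64, 50] 100000 100000 100000 1250000 75000 0 100000 75000 0 0 25000) (.L 6 7
    [4, 4, 4, 5, 22, 22] [141, 138, 128, 116, 104, 92] [102, 96, 86, 76, 64, 50] 100000 250000 0 0
    100000 0 350000 200000 0 0 0)) (.E 2)) (.E 1)) (.E 1)) (.E 1))) (.E 1)) (.S 3 8 (.S 3 4 (.S 3 2
    (.L 6 7 [4, 4, 4, 5, 22, 22] [141, 138, 128, 116, 104, 92] [] 100000 22222 22221 1500001 33333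
    0 66667 33333 0 33333 33333) (.S 3 3 (.L 6 7 [4, 4, 4, 5, 22, 22] [141, 138, 128, 116, 104, 92]
    [66, 56, 44, 30, 0, 0] 100000 18333 18332 1537500 32500 0 47500 25000 0 52500 22500) (.L 6 7
    [4, 4, 4, 5, 22, 22] [141, 138, 128, 116, 104, 92] [90, 80, 70, 58, 44, 0] 100000 33333 33332
    1420000 20000 0 100000 100000 0 0 0))) (.E 1)) (.E 1))) (.L 6 7 [4, 4, 4, 5, 22, 22] [141, 138,
    128, 116, 104, 92] [] 100000 22222 22222 1500002 33333 0 50000 0 0 44444 22222))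

lemma s22_22_8_5_17 {n : ℕ} (hn : 5 ≤ n) : NoNd (d22_22_8_5.R : ℤ) d22_22_8_5.H n d22_22_8_5.a d22_22_8_5.b
    (BlkD.inB (BlkD.upd (BlkD.upd (BlkD.upd (BlkD.upd (fun _ => 0) 0 3) 0 4) 1 5) 1 6)
      (BlkD.upd (BlkD.upd (BlkD.upd (BlkD.upd (BlkD.upd (BlkD.upd (BlkD.upd (fun _ => 22) 0 8) 2 5) 0 4) 1 18) 1 9) 1 7) 1 6)) :=
  BlkD.tree_sound (BlkD.pairOk_sound k22_22_8_5) (by decide) hn t22_22_8_5_17 _ _ (by decide +kernel)

/-- certificates of the pair `(8, 5)`, part 18 -/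
def t22_22_8_5_18 : BlkD.Tr :=
  .S 2 1 (.L 6 7 [4, 4, 4, 5, 22, 22] [162, 161, 158, 148, 136, 124] [] 100000 59259 59258 1366668
    38889 44444 77778 77778 0 0 11111) (.S 3 9 (.S 3 4 (.S 3 2 (.L 6 7 [4, 4, 4, 5, 22, 22] [162,
    161, 158, 148, 136, 124] [] 100000 33333 33332 1425000 30000 15000 45000 30000 0 0 25000) (.S 3
    3 (.L 6 7 [4, 4, 4, 5, 22, 22] [162, 161, 158, 148, 136, 124] [54, 44, 32, 18, 0, 0] 100000
    32027 32027 1494117 31373 11765 49020 31373 1961 0 25490) (.S 4 7 (.S 4 3 (.L 4 5 [4, 5, 6, 7,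
    22, 22] [136, 124, 112, 98, 0, 0] [74, 64, 54, 42, 28, 0] 100000 70057 70056 1389265 46893
    26554 72881 70056 565 3390 26554) (.L 4 5 [4, 5, 6, 7, 22, 22] [162, 161, 158, 148, 136, 124]
    [74, 64, 54, 42, 28, 0] 100000 33334 1 1300001 0 0 133333 133333 0 0 33333)) (.E 2)))) (.S 3 7
    (.S 3 6 (.S 3 5 (.S 4 7 (.S 4 3 (.L 4 5 [4, 5, 6, 7, 22, 22] [136, 124, 112, 98, 0, 0] [92, 86,
    76, 66, 54, 40] 100000 85715 85715 1328570 57143 14286 100000 57143 0 0 14286) (.L 4 5 [4, 5,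
    6, 7, 22, 22] [162, 161, 158, 148, 136, 124] [92, 86, 76, 66, 54, 40] 100000 44445 1 1233335
    11111 0 144444 100000 0 0 33333)) (.E 2)) (.S 4 7 (.S 4 3 (.L 4 5 [4, 5, 6, 7, 22, 22] [136,
    124, 112, 98, 0, 0] [108, 106, 100, 90, 80, 68] 100000 125000 124999 1208333 75000 25000 100000
    66667 0 16667 16667) (.L 4 5 [4, 5, 6, 7, 22, 22] [162, 161, 158, 148, 136, 124] [108, 106,
    100, 90, 80, 68] 100000 250000 0 0 0 100000 350000 300000 0 0 0)) (.E 2))) (.E 1)) (.E 1))) (.E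
    1))

lemma s22_22_8_5_18 {n : ℕ} (hn : 5 ≤ n) : NoNd (d22_22_8_5.R : ℤ) d22_22_8_5.H n d22_22_8_5.a d22_22_8_5.b
    (BlkD.inB (BlkD.upd (BlkD.upd (BlkD.upd (BlkD.upd (fun _ => 0) 0 3) 0 4) 1 5) 1 7)
      (BlkD.upd (BlkD.upd (BlkD.upd (BlkD.upd (BlkD.upd (BlkD.upd (BlkD.upd (fun _ => 22) 0 8) 2 5) 0 4) 1 18) 1 9) 1 7) 2 2)) :=
  BlkD.tree_sound (BlkD.pairOk_sound k22_22_8_5) (by decide) hn t22_22_8_5_18 _ _ (by decide +kernel)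

/-- certificates of the pair `(8, 5)`, part 19 -/
def t22_22_8_5_19 : BlkD.Tr :=
  .S 2 4 (.S 2 3 (.S 3 8 (.S 3 4 (.S 3 2 (.L 6 7 [4, 4, 4, 5, 22, 22] [162, 161, 158, 148, 136,
    124] [] 100000 30556 30556 1500001 33333 8333 50000 41667 0 8333 25000) (.S 3 3 (.S 4 7 (.S 4 3
    (.L 4 5 [4, 5, 6, 7, 22, 22] [136, 124, 112, 98, 0, 0] [60, 50, 38, 24, 0, 0] 100000 52381
    52381 1433335 47619 0 85714 57143 0 19048 23810) (.L 4 5 [4, 5, 6, 7, 22, 22] [162, 161, 158,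
    148, 136, 124] [60, 50, 38, 24, 0, 0] 100000 33333 8332 1325001 8333 0 125000 100000 0 0
    33333)) (.E 2)) (.S 4 7 (.S 4 3 (.L 4 5 [4, 5, 6, 7, 22, 22] [136, 124, 112, 98, 0, 0] [82, 72,
    62, 50, 36, 0] 100000 66666 66665 1383335 58333 0 91667 33333 0 25000 16667) (.L 4 5 [4, 5, 6,
    7, 22, 22] [162, 161, 158, 148, 136, 124] [82, 72, 62, 50, 36, 0] 100000 55557 1 1166664 5556 0
    155556 150000 0 0 33333)) (.E 2)))) (.L 4 5 [4, 5, 6, 7, 22, 22] [162, 161, 158, 148, 136, 124]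
    [] 100000 64285 64284 1400002 35714 0 85714 100000 0 0 28571)) (.E 1)) (.S 3 7 (.S 3 3 (.S 3 1
    (.L 4 5 [4, 5, 6, 7, 22, 22] [162, 161, 158, 148, 136, 124] [] 100000 21839 21838 1527586 24138
    0 72414 27586 3448 27586 13793) (.S 3 2 (.S 4 7 (.S 4 3 (.L 4 5 [4, 5, 6, 7, 22, 22] [136, 124,
    112, 98, 0, 0] [44, 32, 18, 0, 0, 0] 100000 33333 33332 1460000 40000 0 80000 40000 0 40000
    20000) (.L 4 5 [4, 5, 6, 7, 22, 22] [162, 161, 158, 148, 136, 124] [44, 32, 18, 0, 0, 0] 100000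
    45947 1 1224324 18919 0 145946 0 0 5405 2703)) (.E 2)) (.L 6 7 [4, 4, 4, 5, 22, 22] [162, 161,
    158, 148, 136, 124] [66, 56, 44, 30, 0, 0] 100000 27273 27272 1509090 36364 0 72727 36364 0
    36364 18182))) (.L 6 7 [4, 4, 4, 5, 22, 22] [162, 161, 158, 148, 136, 124] [] 100000 0 0 0 0 0
    0 0 0 0 0)) (.E 1))) (.L 6 7 [4, 4, 4, 5, 22, 22] [162, 161, 158, 148, 136, 124] [] 100000
    30107 30107 1480648 41935 0 67742 0 0 45161 22581)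

lemma s22_22_8_5_19 {n : ℕ} (hn : 5 ≤ n) : NoNd (d22_22_8_5.R : ℤ) d22_22_8_5.H n d22_22_8_5.a d22_22_8_5.b
    (BlkD.inB (BlkD.upd (BlkD.upd (BlkD.upd (BlkD.upd (BlkD.upd (fun _ => 0) 0 3) 0 4) 1 5) 1 7) 2 3)
      (BlkD.upd (BlkD.upd (BlkD.upd (BlkD.upd (BlkD.upd (BlkD.upd (fun _ => 22) 0 8) 2 5) 0 4) 1 18) 1 9) 1 7)) :=
  BlkD.tree_sound (BlkD.pairOk_sound k22_22_8_5) (by decide) hn t22_22_8_5_19 _ _ (by decide +kernel)

/-- certificates of the pair `(8, 5)`, part 20 -/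
def t22_22_8_5_20 : BlkD.Tr :=
  .S 2 1 (.L 6 7 [4, 4, 4, 5, 22, 22] [185, 184, 183, 180, 170, 158] [] 100000 56667 56667 1360000
    40000 50000 80000 70000 0 0 10000) (.S 3 8 (.S 3 4 (.S 3 2 (.L 6 7 [4, 4, 4, 5, 22, 22] [185,
    184, 183, 180, 170, 158] [] 100000 33333 33332 1455557 33333 22222 55556 27778 0 0 22222) (.S 3
    3 (.L 6 7 [4, 4, 4, 5, 22, 22] [185, 184, 183, 180, 170, 158] [54, 44, 32, 18, 0, 0] 100000
    31111 31110 1503335 33333 16667 63333 33333 3333 0 18333) (.S 4 8 (.S 4 4 (.L 6 7 [4, 4, 4, 5,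
    22, 22] [170, 158, 146, 134, 120, 0] [74, 64, 54, 42, 28, 0] 100000 44706 44706 1465216 37793
    35452 77258 55518 4013 4682 20736) (.L 6 7 [4, 4, 4, 5, 22, 22] [185, 184, 183, 180, 170, 158]
    [74, 64, 54, 42, 28, 0] 100000 66667 0 1100000 33333 0 166667 100000 0 0 0)) (.E 2)))) (.L 6 7
    [4, 4, 4, 5, 22, 22] [185, 184, 183, 180, 170, 158] [] 100000 102222 102222 1264446 62222 31111
    100000 93333 0 4444 2222)) (.E 1))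

lemma s22_22_8_5_20 {n : ℕ} (hn : 5 ≤ n) : NoNd (d22_22_8_5.R : ℤ) d22_22_8_5.H n d22_22_8_5.a d22_22_8_5.b
    (BlkD.inB (BlkD.upd (BlkD.upd (BlkD.upd (BlkD.upd (fun _ => 0) 0 3) 0 4) 1 5) 1 8)
      (BlkD.upd (BlkD.upd (BlkD.upd (BlkD.upd (BlkD.upd (BlkD.upd (BlkD.upd (fun _ => 22) 0 8) 2 5) 0 4) 1 18) 1 9) 1 8) 2 2)) :=
  BlkD.tree_sound (BlkD.pairOk_sound k22_22_8_5) (by decide) hn t22_22_8_5_20 _ _ (by decide +kernel)

/-- certificates of the pair `(8, 5)`, part 21 -/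
def t22_22_8_5_21 : BlkD.Tr :=
  .S 2 4 (.S 2 3 (.S 3 7 (.S 3 3 (.S 3 1 (.L 6 7 [4, 4, 4, 5, 22, 22] [185, 184, 183, 180, 170,
    158] [] 100000 33333 33332 1440000 40000 20000 60000 40000 0 0 20000) (.S 3 2 (.S 4 8 (.S 4 4
    (.L 6 7 [4, 4, 4, 5, 22, 22] [170, 158, 146, 134, 120, 0] [40, 28, 14, 0, 0, 0] 100000 27408
    27408 1498097 44762 0 80317 35556 2540 12698 18413) (.L 6 7 [4, 4, 4, 5, 22, 22] [185, 184,
    183, 180, 170, 158] [40, 28, 14, 0, 0, 0] 100000 50000 0 1200000 25000 0 150000 75000 0 0 0))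
    (.E 2)) (.S 4 8 (.S 4 4 (.L 4 5 [4, 5, 6, 7, 22, 22] [170, 158, 146, 134, 120, 0] [60, 50, 38,
    24, 0, 0] 100000 47059 47058 1423528 47059 0 94118 47059 0 23529 17647) (.L 4 5 [4, 5, 6, 7,
    22, 22] [185, 184, 183, 180, 170, 158] [60, 50, 38, 24, 0, 0] 100000 42858 1 1242857 14286 0
    142857 85714 0 0 28571)) (.E 2)))) (.S 3 5 (.S 3 4 (.S 4 8 (.S 4 4 (.L 4 5 [4, 5, 6, 7, 22, 22]
    [170, 158, 146, 134, 120, 0] [82, 72, 62, 50, 36, 0] 100000 66667 66667 1357142 57143 0 100000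
    57143 0 14286 14286) (.L 4 5 [4, 5, 6, 7, 22, 22] [185, 184, 183, 180, 170, 158] [82, 72, 62,
    50, 36, 0] 100000 220000 0 180000 40000 0 320000 320000 0 0 20000)) (.E 2)) (.L 4 5 [4, 5, 6,
    7, 22, 22] [185, 184, 183, 180, 170, 158] [102, 96, 86, 76, 64, 50] 100000 128572 128571
    1171426 71429 0 100000 100000 0 0 0)) (.E 1))) (.E 1)) (.S 3 6 (.S 3 3 (.S 3 1 (.S 3 0 (.L 4 5
    [4, 5, 6, 7, 22, 22] [185, 184, 183, 180, 170, 158] [0, 0, 0, 0, 0, 0] 100000 63889 63889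
    1400000 50000 0 91667 0 8333 0 4167) (.S 4 8 (.S 4 4 (.L 4 5 [4, 5, 6, 7, 22, 22] [170, 158,
    146, 134, 120, 0] [22, 8, 0, 0, 0, 0] 100000 40476 40476 1442858 42857 0 85714 50000 0 7143
    28571) (.L 4 5 [4, 5, 6, 7, 22, 22] [185, 184, 183, 180, 170, 158] [22, 8, 0, 0, 0, 0] 100000
    50000 0 1200000 25000 0 150000 0 0 0 0)) (.E 2))) (.S 3 2 (.S 4 8 (.S 4 4 (.L 4 5 [4, 5, 6, 7,
    22, 22] [170, 158, 146, 134, 120, 0] [44, 32, 18, 0, 0, 0] 100000 43397 43397 1422640 49057 0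
    90566 33962 0 37736 18868) (.L 4 5 [4, 5, 6, 7, 22, 22] [185, 184, 183, 180, 170, 158] [44, 32,
    18, 0, 0, 0] 100000 150001 1 599999 66667 0 250000 66667 0 0 16667)) (.E 2)) (.L 4 5 [4, 5, 6,
    7, 22, 22] [185, 184, 183, 180, 170, 158] [66, 56, 44, 30, 0, 0] 100000 112195 112194 1231707
    78049 0 100000 39024 0 0 7317))) (.L 4 5 [4, 5, 6, 7, 22, 22] [185, 184, 183, 180, 170, 158] []
    100000 0 0 0 0 0 0 0 0 0 0)) (.E 1))) (.L 4 5 [4, 5, 6, 7, 22, 22] [185, 184, 183, 180, 170,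
    158] [] 100000 100000 100000 1250000 75000 0 100000 0 0 75000 0)

lemma s22_22_8_5_21 {n : ℕ} (hn : 5 ≤ n) : NoNd (d22_22_8_5.R : ℤ) d22_22_8_5.H n d22_22_8_5.a d22_22_8_5.b
    (BlkD.inB (BlkD.upd (BlkD.upd (BlkD.upd (BlkD.upd (BlkD.upd (fun _ => 0) 0 3) 0 4) 1 5) 1 8) 2 3)
      (BlkD.upd (BlkD.upd (BlkD.upd (BlkD.upd (BlkD.upd (BlkD.upd (fun _ => 22) 0 8) 2 5) 0 4) 1 18) 1 9) 1 8)) :=
  BlkD.tree_sound (BlkD.pairOk_sound k22_22_8_5) (by decide) hn t22_22_8_5_21 _ _ (by decide +kernel)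

/-- certificates of the pair `(8, 5)`, part 22 -/
def t22_22_8_5_22 : BlkD.Tr :=
  .S 2 2 (.L 4 5 [4, 5, 6, 7, 22, 22] [210, 209, 208, 207, 204, 194] [] 100000 95333 95332 1300000
    58000 28000 98000 62000 0 0 2000) (.L 4 5 [4, 5, 6, 7, 22, 22] [210, 209, 208, 207, 204, 194]
    [] 100000 70707 70707 1381821 54545 0 100000 45455 0 9091 3030)

lemma s22_22_8_5_22 {n : ℕ} (hn : 5 ≤ n) : NoNd (d22_22_8_5.R : ℤ) d22_22_8_5.H n d22_22_8_5.a d22_22_8_5.b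
    (BlkD.inB (BlkD.upd (BlkD.upd (BlkD.upd (BlkD.upd (BlkD.upd (fun _ => 0) 0 3) 0 4) 1 5) 1 8) 1 9)
      (BlkD.upd (BlkD.upd (BlkD.upd (BlkD.upd (BlkD.upd (fun _ => 22) 0 8) 2 5) 0 4) 1 18) 1 9)) :=
  BlkD.tree_sound (BlkD.pairOk_sound k22_22_8_5) (by decide) hn t22_22_8_5_22 _ _ (by decide +kernel)

/-- certificates of the pair `(8, 5)`, part 23 -/
def t22_22_8_5_23 : BlkD.Tr :=
  .S 1 14 (.S 1 12 (.S 1 11 (.S 1 10 (.L 4 5 [4, 5, 6, 7, 22, 22] [237, 236, 235, 234, 233, 230] []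
    100000 90909 90909 1263638 72727 0 100000 72727 0 0 9091) (.L 4 5 [4, 5, 6, 7, 22, 22] [266,
    265, 264, 263, 262, 261] [] 100000 233333 0 2 0 0 333333 0 0 0 0)) (.E 0)) (.E 0)) (.E 0)

lemma s22_22_8_5_23 {n : ℕ} (hn : 5 ≤ n) : NoNd (d22_22_8_5.R : ℤ) d22_22_8_5.H n d22_22_8_5.a d22_22_8_5.b
    (BlkD.inB (BlkD.upd (BlkD.upd (BlkD.upd (fun _ => 0) 0 3) 0 4) 1 10)
      (BlkD.upd (BlkD.upd (BlkD.upd (BlkD.upd (fun _ => 22) 0 8) 2 5) 0 4) 1 18)) :=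
  BlkD.tree_sound (BlkD.pairOk_sound k22_22_8_5) (by decide) hn t22_22_8_5_23 _ _ (by decide +kernel)

/-- certificates of the pair `(8, 5)`, part 24 -/
def t22_22_8_5_24 : BlkD.Tr :=
  .E 0

lemma s22_22_8_5_24 {n : ℕ} (hn : 5 ≤ n) : NoNd (d22_22_8_5.R : ℤ) d22_22_8_5.H n d22_22_8_5.a d22_22_8_5.b
    (BlkD.inB (BlkD.upd (BlkD.upd (BlkD.upd (fun _ => 0) 0 3) 0 4) 1 19)
      (BlkD.upd (BlkD.upd (BlkD.upd (fun _ => 22) 0 8) 2 5) 0 4)) :=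
  BlkD.tree_sound (BlkD.pairOk_sound k22_22_8_5) (by decide) hn t22_22_8_5_24 _ _ (by decide +kernel)

/-- certificates of the pair `(8, 5)`, part 25 -/
def t22_22_8_5_25 : BlkD.Tr :=
  .S 1 2 (.L 4 5 [4, 5, 6, 7, 22, 22] [] [] 100000 33333 33332 1400000 50000 0 50000 50000 0 0 0)
    (.S 1 3 (.L 6 7 [4, 4, 4, 5, 22, 22] [74, 62, 50, 36, 0, 0] [] 100000 28519 28519 1486667 33333
    6667 41111 52222 0 14444 33333) (.S 2 2 (.S 2 1 (.L 6 7 [4, 4, 4, 5, 22, 22] [102, 90, 78, 66,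
    52, 0] [] 100000 33333 33332 1425000 18750 50000 43750 75000 0 0 25000) (.S 3 11 (.S 3 5 (.L 6
    7 [4, 4, 4, 5, 22, 22] [102, 90, 78, 66, 52, 0] [] 100000 33333 33332 1488890 22222 22222 44444
    44444 0 0 33333) (.S 3 8 (.S 3 7 (.S 3 6 (.L 7 9 [4, 4, 4, 4, 22, 22] [102, 90, 78, 66, 52, 0]
    [108, 106, 100, 90, 80, 68] 100000 22222 22221 1500000 40000 0 80000 40000 0 33333 33333) (.E
    1)) (.E 1)) (.E 1))) (.E 1))) (.L 7 9 [4, 4, 4, 4, 22, 22] [102, 90, 78, 66, 52, 0] [] 100000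
    26853 26853 1516666 38889 2778 58333 41667 0 19444 30556)))

lemma s22_22_8_5_25 {n : ℕ} (hn : 5 ≤ n) : NoNd (d22_22_8_5.R : ℤ) d22_22_8_5.H n d22_22_8_5.a d22_22_8_5.b
    (BlkD.inB (BlkD.upd (fun _ => 0) 0 5)
      (BlkD.upd (BlkD.upd (BlkD.upd (BlkD.upd (BlkD.upd (BlkD.upd (BlkD.upd (fun _ => 22) 0 8) 2 5) 0 6) 0 5) 1 17) 1 8) 1 4)) :=
  BlkD.tree_sound (BlkD.pairOk_sound k22_22_8_5) (by decide) hn t22_22_8_5_25 _ _ (by decide +kernel)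

/-- certificates of the pair `(8, 5)`, part 26 -/
def t22_22_8_5_26 : BlkD.Tr :=
  .S 2 2 (.S 2 1 (.L 7 9 [4, 4, 4, 4, 22, 22] [130, 120, 108, 96, 84, 70] [] 100000 50000 50000
    1400001 33333 50000 66667 66667 0 0 0) (.S 3 10 (.S 3 5 (.S 3 2 (.L 7 9 [4, 4, 4, 4, 22, 22]
    [130, 120, 108, 96, 84, 70] [] 100000 33333 33332 1400000 0 0 0 0 0 0 0) (.S 3 4 (.S 3 3 (.L 7
    9 [4, 4, 4, 4, 22, 22] [130, 120, 108, 96, 84, 70] [54, 44, 32, 18, 0, 0] 100000 33333 33332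
    1471429 28571 28571 28571 28571 0 0 0) (.S 4 5 (.S 4 2 (.L 7 9 [4, 4, 4, 4, 22, 22] [96, 84,
    70, 0, 0, 0] [74, 64, 54, 42, 28, 0] 100000 33334 33334 1493333 26667 40000 53333 53333 0 0
    13333) (.L 7 9 [4, 4, 4, 4, 22, 22] [130, 120, 108, 96, 84, 70] [74, 64, 54, 42, 28, 0] 100000
    33333 33332 1400000 0 0 100000 100000 0 0 0)) (.E 2))) (.S 4 5 (.S 4 2 (.L 7 9 [4, 4, 4, 4, 22,
    22] [96, 84, 70, 0, 0, 0] [92, 86, 76, 66, 54, 40] 100000 24890 24890 1521332 30667 28000 72000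
    52000 4000 17333 17333) (.L 7 9 [4, 4, 4, 4, 22, 22] [130, 120, 108, 96, 84, 70] [92, 86, 76,
    66, 54, 40] 100000 33334 25642 1346154 15385 15385 107692 107692 0 0 7692)) (.E 2)))) (.S 3 8
    (.S 3 7 (.S 3 6 (.S 4 5 (.S 4 2 (.L 7 9 [4, 4, 4, 4, 22, 22] [96, 84, 70, 0, 0, 0] [108, 106,
    100, 90, 80, 68] 100000 18056 18056 1512500 37500 0 87500 50000 0 33333 16667) (.L 7 9 [4, 4,
    4, 4, 22, 22] [130, 120, 108, 96, 84, 70] [108, 106, 100, 90, 80, 68] 100000 50000 0 1200000 0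
    50000 150000 100000 0 0 0)) (.E 2)) (.E 1)) (.E 1)) (.E 1))) (.E 1))) (.S 2 4 (.S 2 3 (.S 3 9
    (.S 3 4 (.S 3 2 (.L 7 9 [4, 4, 4, 4, 22, 22] [130, 120, 108, 96, 84, 70] [] 100000 29730 29730
    1505405 27027 27027 21622 27027 5405 0 5405) (.S 3 3 (.S 4 5 (.S 4 2 (.S 4 1 (.L 4 5 [4, 5, 6,
    7, 22, 22] [84, 70, 0, 0, 0, 0] [60, 50, 38, 24, 0, 0] 100000 25833 25832 1502500 32500 0 77500
    50000 2500 17500 22500) (.L 4 5 [4, 5, 6, 7, 22, 22] [96, 84, 70, 0, 0, 0] [60, 50, 38, 24, 0,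
    0] 100000 26316 26315 1463157 21053 0 94737 73684 0 21053 26316)) (.L 4 5 [4, 5, 6, 7, 22, 22]
    [130, 120, 108, 96, 84, 70] [60, 50, 38, 24, 0, 0] 100000 33334 33334 1381818 18182 0 100000
    81818 0 0 27273)) (.E 2)) (.S 4 5 (.S 4 2 (.L 7 9 [4, 4, 4, 4, 22, 22] [96, 84, 70, 0, 0, 0]
    [82, 72, 62, 50, 36, 0] 100000 20120 20120 1524326 35135 0 83784 70270 2703 34234 17117) (.L 7
    9 [4, 4, 4, 4, 22, 22] [130, 120, 108, 96, 84, 70] [82, 72, 62, 50, 36, 0] 100000 33334 1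
    1300001 0 0 133333 133333 0 0 33333)) (.E 2)))) (.L 7 9 [4, 4, 4, 4, 22, 22] [130, 120, 108,
    96, 84, 70] [] 100000 26667 26667 1440000 20000 0 100000 100000 0 20000 20000)) (.E 1)) (.S 3 8
    (.S 3 4 (.S 3 2 (.L 7 9 [4, 4, 4, 4, 22, 22] [130, 120, 108, 96, 84, 70] [] 100000 18974 18973
    1536924 30769 3846 63077 65385 6154 30769 23077) (.L 7 9 [4, 4, 4, 4, 22, 22] [130, 120, 108,
    96, 84, 70] [] 100000 17647 17647 1523532 35294 0 77941 35294 1471 64706 22059)) (.E 1)) (.E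
    1))) (.L 7 9 [4, 4, 4, 4, 22, 22] [130, 120, 108, 96, 84, 70] [] 100000 4167 4167 1575000 25000
    0 87500 12500 12500 62500 31250))

lemma s22_22_8_5_26 {n : ℕ} (hn : 5 ≤ n) : NoNd (d22_22_8_5.R : ℤ) d22_22_8_5.H n d22_22_8_5.a d22_22_8_5.b
    (BlkD.inB (BlkD.upd (BlkD.upd (fun _ => 0) 0 5) 1 5)
      (BlkD.upd (BlkD.upd (BlkD.upd (BlkD.upd (BlkD.upd (BlkD.upd (BlkD.upd (BlkD.upd (fun _ => 22) 0 8) 2 5) 0 6) 0 5) 1 17) 1 8) 1 6) 1 5)) :=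
  BlkD.tree_sound (BlkD.pairOk_sound k22_22_8_5) (by decide) hn t22_22_8_5_26 _ _ (by decide +kernel)

/-- certificates of the pair `(8, 5)`, part 27 -/
def t22_22_8_5_27 : BlkD.Tr :=
  .S 2 1 (.L 7 9 [4, 4, 4, 4, 22, 22] [153, 150, 140, 128, 116, 104] [] 100000 41177 41177 1411764
    29412 64706 70588 70588 0 0 14706) (.S 3 9 (.S 3 4 (.S 3 2 (.L 7 9 [4, 4, 4, 4, 22, 22] [153,
    150, 140, 128, 116, 104] [] 100000 30973 30972 1468143 35398 17699 49558 35398 3540 0 19469)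
    (.S 3 3 (.L 6 7 [4, 4, 4, 5, 22, 22] [153, 150, 140, 128, 116, 104] [54, 44, 32, 18, 0, 0]
    100000 29546 29546 1509092 25000 22727 52273 47727 4545 2273 25000) (.S 4 6 (.S 4 3 (.S 4 1 (.L
    6 7 [4, 4, 4, 5, 22, 22] [104, 90, 0, 0, 0, 0] [74, 64, 54, 42, 28, 0] 100000 8333 8332 1550000
    25000 25000 75000 50000 25000 25000 25000) (.L 6 7 [4, 4, 4, 5, 22, 22] [128, 116, 104, 90, 0,
    0] [74, 64, 54, 42, 28, 0] 100000 32354 32354 1479410 29412 26471 79412 50000 0 2941 23529))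
    (.L 6 7 [4, 4, 4, 5, 22, 22] [153, 150, 140, 128, 116, 104] [74, 64, 54, 42, 28, 0] 100000
    36364 24243 1336364 18182 9091 112121 103030 0 0 3030)) (.E 2)))) (.S 3 7 (.S 3 6 (.S 3 5 (.S 4
    6 (.S 4 3 (.S 4 1 (.L 6 7 [4, 4, 4, 5, 22, 22] [104, 90, 0, 0, 0, 0] [92, 86, 76, 66, 54, 40]
    100000 33333 33332 1460000 40000 20000 100000 60000 0 0 20000) (.L 6 7 [4, 4, 4, 5, 22, 22]
    [128, 116, 104, 90, 0, 0] [92, 86, 76, 66, 54, 40] 100000 35897 35896 1461541 30769 15385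
    100000 53846 0 15385 0)) (.L 6 7 [4, 4, 4, 5, 22, 22] [153, 150, 140, 128, 116, 104] [92, 86,
    76, 66, 54, 40] 100000 87500 0 975000 6250 62500 187500 125000 0 0 0)) (.E 2)) (.L 6 6 [4, 4,
    5, 6, 22, 22] [153, 150, 140, 128, 116, 104] [108, 106, 100, 90, 80, 68] 100000 33333 33332
    1450000 0 50000 100000 100000 0 0 0)) (.E 1)) (.E 1))) (.E 1))

lemma s22_22_8_5_27 {n : ℕ} (hn : 5 ≤ n) : NoNd (d22_22_8_5.R : ℤ) d22_22_8_5.H n d22_22_8_5.a d22_22_8_5.b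
    (BlkD.inB (BlkD.upd (BlkD.upd (BlkD.upd (fun _ => 0) 0 5) 1 5) 1 6)
      (BlkD.upd (BlkD.upd (BlkD.upd (BlkD.upd (BlkD.upd (BlkD.upd (BlkD.upd (BlkD.upd (fun _ => 22) 0 8) 2 5) 0 6) 0 5) 1 17) 1 8) 1 6) 2 2)) :=
  BlkD.tree_sound (BlkD.pairOk_sound k22_22_8_5) (by decide) hn t22_22_8_5_27 _ _ (by decide +kernel)

/-- certificates of the pair `(8, 5)`, part 28 -/
def t22_22_8_5_28 : BlkD.Tr :=
  .S 2 4 (.S 2 3 (.S 3 8 (.S 3 4 (.S 3 2 (.S 3 1 (.L 6 6 [4, 4, 5, 6, 22, 22] [153, 150, 140, 128,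
    116, 104] [] 100000 30640 30640 1475758 24242 24242 44444 28283 4040 0 25253) (.S 4 6 (.S 4 3
    (.S 4 1 (.L 6 6 [4, 4, 5, 6, 22, 22] [104, 90, 0, 0, 0, 0] [40, 28, 14, 0, 0, 0] 100000 6667
    6667 1560000 20000 20000 60000 80000 40000 20000 20000) (.L 6 6 [4, 4, 5, 6, 22, 22] [128, 116,
    104, 90, 0, 0] [40, 28, 14, 0, 0, 0] 100000 31111 31111 1473336 33333 0 93333 60000 0 6667
    13333)) (.L 6 6 [4, 4, 5, 6, 22, 22] [153, 150, 140, 128, 116, 104] [40, 28, 14, 0, 0, 0]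
    100000 33333 33332 1400000 0 0 100000 50000 0 0 0)) (.E 2))) (.S 3 3 (.S 4 6 (.S 4 3 (.S 4 1
    (.L 6 7 [4, 4, 4, 5, 22, 22] [104, 90, 0, 0, 0, 0] [60, 50, 38, 24, 0, 0] 100000 0 0 1591479
    23295 15341 74432 50568 35227 39205 25568) (.L 6 7 [4, 4, 4, 5, 22, 22] [128, 116, 104, 90, 0,
    0] [60, 50, 38, 24, 0, 0] 100000 21986 21986 1514895 36170 2128 89362 38298 0 34043 21277)) (.L
    6 7 [4, 4, 4, 5, 22, 22] [153, 150, 140, 128, 116, 104] [60, 50, 38, 24, 0, 0] 100000 33334 1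
    1300001 0 0 133333 133333 0 0 33333)) (.E 2)) (.S 4 6 (.S 4 3 (.L 7 9 [4, 4, 4, 4, 22, 22]
    [128, 116, 104, 90, 0, 0] [82, 72, 62, 50, 36, 0] 100000 14852 14852 1554457 32673 0 82178
    65347 3960 33663 16832) (.L 7 9 [4, 4, 4, 4, 22, 22] [153, 150, 140, 128, 116, 104] [82, 72,
    62, 50, 36, 0] 100000 50000 0 1200000 25000 0 150000 100000 0 0 0)) (.E 2)))) (.L 7 9 [4, 4, 4,
    4, 22, 22] [153, 150, 140, 128, 116, 104] [] 100000 30953 30953 1414284 21429 0 100000 100000 0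
    0 7143)) (.E 1)) (.S 3 7 (.S 3 3 (.S 3 1 (.S 3 0 (.L 7 9 [4, 4, 4, 4, 22, 22] [153, 150, 140,
    128, 116, 104] [0, 0, 0, 0, 0, 0] 100000 33333 33332 1455556 44444 0 44444 0 0 0 22222) (.L 6 7
    [4, 4, 4, 5, 22, 22] [153, 150, 140, 128, 116, 104] [22, 8, 0, 0, 0, 0] 100000 19397 19397
    1540767 27875 27875 71429 55749 8711 24390 24042)) (.S 3 2 (.S 4 6 (.S 4 3 (.L 6 7 [4, 4, 4, 5,
    22, 22] [128, 116, 104, 90, 0, 0] [44, 32, 18, 0, 0, 0] 100000 14894 14894 1551065 29787 0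
    82979 59574 10638 34043 23404) (.L 6 7 [4, 4, 4, 5, 22, 22] [153, 150, 140, 128, 116, 104] [44,
    32, 18, 0, 0, 0] 100000 50000 0 1200000 25000 0 150000 50000 0 0 0)) (.E 2)) (.S 4 6 (.S 4 3
    (.L 6 7 [4, 4, 4, 5, 22, 22] [128, 116, 104, 90, 0, 0] [66, 56, 44, 30, 0, 0] 100000 8124 8124
    1557982 31933 0 82353 31933 12605 45378 22689) (.L 6 7 [4, 4, 4, 5, 22, 22] [153, 150, 140,
    128, 116, 104] [66, 56, 44, 30, 0, 0] 100000 70000 0 1080000 20000 20000 170000 20000 0 0 0))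
    (.E 2)))) (.L 6 7 [4, 4, 4, 5, 22, 22] [153, 150, 140, 128, 116, 104] [] 100000 0 0 0 0 0 0 0 0
    0 0)) (.E 1))) (.L 6 7 [4, 4, 4, 5, 22, 22] [153, 150, 140, 128, 116, 104] [] 100000 19230
    19229 1526925 36538 0 67308 23077 1923 46154 23077)

lemma s22_22_8_5_28 {n : ℕ} (hn : 5 ≤ n) : NoNd (d22_22_8_5.R : ℤ) d22_22_8_5.H n d22_22_8_5.a d22_22_8_5.b
    (BlkD.inB (BlkD.upd (BlkD.upd (BlkD.upd (BlkD.upd (fun _ => 0) 0 5) 1 5) 1 6) 2 3)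
      (BlkD.upd (BlkD.upd (BlkD.upd (BlkD.upd (BlkD.upd (BlkD.upd (BlkD.upd (fun _ => 22) 0 8) 2 5) 0 6) 0 5) 1 17) 1 8) 1 6)) :=
  BlkD.tree_sound (BlkD.pairOk_sound k22_22_8_5) (by decide) hn t22_22_8_5_28 _ _ (by decide +kernel)

/-- certificates of the pair `(8, 5)`, part 29 -/
def t22_22_8_5_29 : BlkD.Tr :=
  .S 2 2 (.S 2 1 (.L 6 7 [4, 4, 4, 5, 22, 22] [176, 175, 172, 162, 150, 138] [] 100000 33333 33332
    1425000 25000 50000 75000 75000 0 0 25000) (.S 3 8 (.S 3 4 (.S 3 2 (.L 6 7 [4, 4, 4, 5, 22, 22]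
    [176, 175, 172, 162, 150, 138] [] 100000 33333 33332 1466668 33333 16667 66667 33333 0 0 16667)
    (.S 3 3 (.S 4 7 (.S 4 3 (.L 6 7 [4, 4, 4, 5, 22, 22] [150, 138, 126, 112, 0, 0] [54, 44, 32,
    18, 0, 0] 100000 37045 37045 1455034 39400 29122 83512 52677 2998 4711 14989) (.L 6 7 [4, 4, 4,
    5, 22, 22] [176, 175, 172, 162, 150, 138] [54, 44, 32, 18, 0, 0] 100000 33333 33332 1436844
    15789 15789 100000 100000 0 0 5263)) (.E 2)) (.S 4 7 (.S 4 3 (.L 6 7 [4, 4, 4, 5, 22, 22] [150,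
    138, 126, 112, 0, 0] [74, 64, 54, 42, 28, 0] 100000 38418 38417 1459323 44068 22034 93220 49153
    6780 5085 3390) (.L 6 7 [4, 4, 4, 5, 22, 22] [176, 175, 172, 162, 150, 138] [74, 64, 54, 42,
    28, 0] 100000 30000 30000 1430000 15000 25000 100000 75000 0 10000 5000)) (.E 2)))) (.L 6 7 [4,
    4, 4, 5, 22, 22] [176, 175, 172, 162, 150, 138] [] 100000 63636 63636 1372730 54545 0 100000
    54545 0 18182 18182)) (.E 1))) (.S 2 4 (.S 2 3 (.S 3 7 (.S 3 3 (.S 3 1 (.L 6 7 [4, 4, 4, 5, 22,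
    22] [176, 175, 172, 162, 150, 138] [] 100000 33333 33332 1466668 33333 33333 66667 33333 0 0
    16667) (.S 3 2 (.L 6 7 [4, 4, 4, 5, 22, 22] [176, 175, 172, 162, 150, 138] [40, 28, 14, 0, 0,
    0] 100000 27122 27121 1511484 37270 2167 80390 48971 3467 11701 20368) (.S 4 7 (.S 4 3 (.L 6 7
    [4, 4, 4, 5, 22, 22] [150, 138, 126, 112, 0, 0] [60, 50, 38, 24, 0, 0] 100000 21762 21762
    1518136 35233 9326 96373 35233 5181 25907 12953) (.L 6 7 [4, 4, 4, 5, 22, 22] [176, 175, 172,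
    162, 150, 138] [60, 50, 38, 24, 0, 0] 100000 27778 27778 1450000 25000 0 100000 75000 0 16667
    8333)) (.E 2)))) (.L 6 7 [4, 4, 4, 5, 22, 22] [176, 175, 172, 162, 150, 138] [] 100000 60976
    60975 1378048 58537 0 100000 29268 0 48780 19512)) (.E 1)) (.L 6 7 [4, 4, 4, 5, 22, 22] [176,
    175, 172, 162, 150, 138] [] 100000 24000 24000 1514670 33333 0 85333 52000 4667 18667 16000))
    (.L 6 7 [4, 4, 4, 5, 22, 22] [176, 175, 172, 162, 150, 138] [] 100000 8046 8046 1506897 27586 0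
    82759 17241 13793 48276 24138))

lemma s22_22_8_5_29 {n : ℕ} (hn : 5 ≤ n) : NoNd (d22_22_8_5.R : ℤ) d22_22_8_5.H n d22_22_8_5.a d22_22_8_5.b
    (BlkD.inB (BlkD.upd (BlkD.upd (BlkD.upd (fun _ => 0) 0 5) 1 5) 1 7)
      (BlkD.upd (BlkD.upd (BlkD.upd (BlkD.upd (BlkD.upd (BlkD.upd (BlkD.upd (fun _ => 22) 0 8) 2 5) 0 6) 0 5) 1 17) 1 8) 1 7)) :=
  BlkD.tree_sound (BlkD.pairOk_sound k22_22_8_5) (by decide) hn t22_22_8_5_29 _ _ (by decide +kernel)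

/-- certificates of the pair `(8, 5)`, part 30 -/
def t22_22_8_5_30 : BlkD.Tr :=
  .L 6 7 [4, 4, 4, 5, 22, 22] [201, 200, 199, 196, 186, 174] [] 100000 30497 30496 1500000 40426 0
    89362 51064 0 8511 10638

lemma s22_22_8_5_30 {n : ℕ} (hn : 5 ≤ n) : NoNd (d22_22_8_5.R : ℤ) d22_22_8_5.H n d22_22_8_5.a d22_22_8_5.b
    (BlkD.inB (BlkD.upd (BlkD.upd (BlkD.upd (BlkD.upd (fun _ => 0) 0 5) 1 5) 1 7) 1 8)
      (BlkD.upd (BlkD.upd (BlkD.upd (BlkD.upd (BlkD.upd (BlkD.upd (fun _ => 22) 0 8) 2 5) 0 6) 0 5) 1 17) 1 8)) :=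
  BlkD.tree_sound (BlkD.pairOk_sound k22_22_8_5) (by decide) hn t22_22_8_5_30 _ _ (by decide +kernel)

/-- certificates of the pair `(8, 5)`, part 31 -/
def t22_22_8_5_31 : BlkD.Tr :=
  .S 1 13 (.S 1 11 (.S 1 10 (.S 1 9 (.L 6 7 [4, 4, 4, 5, 22, 22] [228, 227, 226, 225, 222, 212] []
    100000 62500 50000 1275000 75000 0 112500 50000 0 0 0) (.E 0)) (.E 0)) (.E 0)) (.E 0)

lemma s22_22_8_5_31 {n : ℕ} (hn : 5 ≤ n) : NoNd (d22_22_8_5.R : ℤ) d22_22_8_5.H n d22_22_8_5.a d22_22_8_5.b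
    (BlkD.inB (BlkD.upd (BlkD.upd (fun _ => 0) 0 5) 1 9)
      (BlkD.upd (BlkD.upd (BlkD.upd (BlkD.upd (BlkD.upd (fun _ => 22) 0 8) 2 5) 0 6) 0 5) 1 17)) :=
  BlkD.tree_sound (BlkD.pairOk_sound k22_22_8_5) (by decide) hn t22_22_8_5_31 _ _ (by decide +kernel)

/-- certificates of the pair `(8, 5)`, part 32 -/
def t22_22_8_5_32 : BlkD.Tr :=
  .E 0

lemma s22_22_8_5_32 {n : ℕ} (hn : 5 ≤ n) : NoNd (d22_22_8_5.R : ℤ) d22_22_8_5.H n d22_22_8_5.a d22_22_8_5.b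
    (BlkD.inB (BlkD.upd (BlkD.upd (fun _ => 0) 0 5) 1 18)
      (BlkD.upd (BlkD.upd (BlkD.upd (BlkD.upd (fun _ => 22) 0 8) 2 5) 0 6) 0 5)) :=
  BlkD.tree_sound (BlkD.pairOk_sound k22_22_8_5) (by decide) hn t22_22_8_5_32 _ _ (by decide +kernel)

/-- certificates of the pair `(8, 5)`, part 33 -/
def t22_22_8_5_33 : BlkD.Tr :=
  .S 1 2 (.L 6 7 [4, 4, 4, 5, 22, 22] [] [] 100000 28704 28704 1483335 45833 8333 55556 52778 0
    13889 33333) (.S 1 3 (.S 2 2 (.S 2 1 (.L 6 7 [4, 4, 4, 5, 22, 22] [80, 68, 56, 42, 0, 0] []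
    100000 33334 33334 1416666 27778 50000 52778 62500 0 0 33333) (.S 3 11 (.S 3 5 (.L 6 7 [4, 4,
    4, 5, 22, 22] [80, 68, 56, 42, 0, 0] [] 100000 30651 30650 1496552 29885 21839 51724 41954 0
    8046 33333) (.S 3 8 (.S 3 7 (.S 3 6 (.L 7 9 [4, 4, 4, 4, 22, 22] [80, 68, 56, 42, 0, 0] [108,
    106, 100, 90, 80, 68] 100000 25000 24999 1491667 41667 20833 62500 41667 0 25000 33333) (.E 1))
    (.E 1)) (.E 1))) (.E 1))) (.S 2 4 (.S 2 3 (.S 3 10 (.S 3 5 (.S 3 2 (.L 7 9 [4, 4, 4, 4, 22, 22]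
    [80, 68, 56, 42, 0, 0] [] 100000 33333 33332 1400000 0 0 0 0 0 0 0) (.S 3 4 (.S 3 3 (.L 6 7 [4,
    4, 4, 5, 22, 22] [80, 68, 56, 42, 0, 0] [60, 50, 38, 24, 0, 0] 100000 28396 28396 1500001 29630
    14815 44444 44444 0 14815 33333) (.L 7 9 [4, 4, 4, 4, 22, 22] [80, 68, 56, 42, 0, 0] [82, 72,
    62, 50, 36, 0] 100000 20371 20371 1522222 38889 0 77778 77778 0 38889 33333)) (.L 7 9 [4, 4, 4,
    4, 22, 22] [80, 68, 56, 42, 0, 0] [102, 96, 86, 76, 64, 50] 100000 22222 22221 1433334 33333 0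
    100000 100000 0 33333 33333))) (.E 1)) (.E 1)) (.L 7 9 [4, 4, 4, 4, 22, 22] [80, 68, 56, 42, 0,
    0] [] 100000 14815 14815 1511112 44444 0 55556 44444 0 55556 33333)) (.L 7 9 [4, 4, 4, 4, 22,
    22] [80, 68, 56, 42, 0, 0] [] 100000 11111 11110 1500001 33333 0 33333 0 0 66667 33333))) (.S 2
    2 (.S 2 1 (.L 7 9 [4, 4, 4, 4, 22, 22] [110, 98, 86, 74, 60, 0] [] 100000 33333 33332 1414287
    28571 50000 64286 85714 0 0 21429) (.S 3 10 (.S 3 5 (.L 6 7 [4, 4, 4, 5, 22, 22] [110, 98, 86,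
    74, 60, 0] [] 100000 30142 30142 1508512 26064 22872 70745 64362 0 9574 25000) (.L 6 7 [4, 4,
    4, 5, 22, 22] [110, 98, 86, 74, 60, 0] [] 100000 28333 28332 1460000 0 50000 90000 100000 10000
    0 5000)) (.E 1))) (.S 2 4 (.S 2 3 (.S 3 9 (.S 3 4 (.S 3 2 (.L 6 7 [4, 4, 4, 5, 22, 22] [110,
    98, 86, 74, 60, 0] [] 100000 30595 30595 1500002 24658 24658 20548 24658 4110 0 26027) (.S 3 3
    (.S 4 4 (.S 4 2 (.S 4 1 (.S 4 0 (.L 6 7 [4, 4, 4, 5, 22, 22] [60, 0, 0, 0, 0, 0] [60, 50, 38,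
    24, 0, 0] 100000 1 1 1546429 26786 17857 0 57143 60714 60714 30357) (.L 6 7 [4, 4, 4, 5, 22,
    22] [74, 60, 0, 0, 0, 0] [60, 50, 38, 24, 0, 0] 100000 27778 27778 1500001 33333 16667 83333
    50000 0 16667 16667)) (.L 6 7 [4, 4, 4, 5, 22, 22] [86, 74, 60, 0, 0, 0] [60, 50, 38, 24, 0, 0]
    100000 22619 22619 1492858 35714 3571 100000 35714 0 32143 17857)) (.L 6 7 [4, 4, 4, 5, 22, 22]
    [110, 98, 86, 74, 60, 0] [60, 50, 38, 24, 0, 0] 100000 33333 33332 1400000 0 0 100000 100000 0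
    0 0)) (.E 2)) (.L 6 7 [4, 4, 4, 5, 22, 22] [110, 98, 86, 74, 60, 0] [82, 72, 62, 50, 36, 0]
    100000 10000 10000 1560000 25000 0 90000 50000 10000 50000 25000))) (.L 6 7 [4, 4, 4, 5, 22,
    22] [110, 98, 86, 74, 60, 0] [] 100000 28000 24000 1404000 28000 0 104000 104000 16000 8000
    12000)) (.E 1)) (.L 6 7 [4, 4, 4, 5, 22, 22] [110, 98, 86, 74, 60, 0] [] 100000 13178 13178
    1550003 31395 0 69767 50000 5233 50000 30814)) (.L 6 7 [4, 4, 4, 5, 22, 22] [110, 98, 86, 74,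
    60, 0] [] 100000 3030 3030 1542428 24242 0 84848 15152 15152 60606 33333))))

lemma s22_22_8_5_33 {n : ℕ} (hn : 5 ≤ n) : NoNd (d22_22_8_5.R : ℤ) d22_22_8_5.H n d22_22_8_5.a d22_22_8_5.b
    (BlkD.inB (BlkD.upd (BlkD.upd (fun _ => 0) 0 5) 0 6)
      (BlkD.upd (BlkD.upd (BlkD.upd (BlkD.upd (BlkD.upd (BlkD.upd (fun _ => 22) 0 8) 2 5) 0 6) 1 16) 1 8) 1 4)) :=
  BlkD.tree_sound (BlkD.pairOk_sound k22_22_8_5) (by decide) hn t22_22_8_5_33 _ _ (by decide +kernel)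

/-- certificates of the pair `(8, 5)`, part 34 -/
def t22_22_8_5_34 : BlkD.Tr :=
  .S 1 6 (.S 1 5 (.S 2 2 (.S 2 1 (.L 6 7 [4, 4, 4, 5, 22, 22] [140, 130, 118, 106, 94, 80] []
    100000 33333 33332 1404762 9524 83333 88095 83333 0 0 16667) (.S 3 9 (.S 3 4 (.S 3 2 (.L 6 7
    [4, 4, 4, 5, 22, 22] [140, 130, 118, 106, 94, 80] [] 100000 31401 31401 1468119 31884 17391
    46377 31884 2899 0 16667) (.S 3 3 (.L 6 7 [4, 4, 4, 5, 22, 22] [140, 130, 118, 106, 94, 80]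
    [54, 44, 32, 18, 0, 0] 100000 29207 29207 1496428 27143 27143 59286 54048 5000 2381 24286) (.S
    4 5 (.S 4 2 (.L 6 7 [4, 4, 4, 5, 22, 22] [106, 94, 80, 0, 0, 0] [74, 64, 54, 42, 28, 0] 100000
    9434 9434 1545284 24528 28302 69811 43396 30189 26415 15094) (.L 6 7 [4, 4, 4, 5, 22, 22] [140,
    130, 118, 106, 94, 80] [74, 64, 54, 42, 28, 0] 100000 33333 33332 1440000 20000 20000 100000
    80000 0 0 10000)) (.E 2)))) (.L 6 7 [4, 4, 4, 5, 22, 22] [140, 130, 118, 106, 94, 80] [] 100000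
    19048 19048 1528573 14286 28571 85714 71429 14286 14286 14286)) (.E 1))) (.S 2 4 (.S 2 3 (.S 3
    8 (.S 3 4 (.S 3 2 (.S 3 1 (.L 6 7 [4, 4, 4, 5, 22, 22] [140, 130, 118, 106, 94, 80] [] 100000
    33333 33332 1466667 33333 33333 33333 33333 0 0 16667) (.L 6 7 [4, 4, 4, 5, 22, 22] [140, 130,
    118, 106, 94, 80] [40, 28, 14, 0, 0, 0] 100000 24770 24770 1525100 30632 13636 74704 67391 6126
    13439 23123)) (.S 3 3 (.L 5 6 [4, 4, 5, 6, 22, 22] [140, 130, 118, 106, 94, 80] [60, 50, 38,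
    24, 0, 0] 100000 21213 21213 1529545 27273 0 88636 61364 6818 34091 11364) (.L 6 7 [4, 4, 4, 5,
    22, 22] [140, 130, 118, 106, 94, 80] [82, 72, 62, 50, 36, 0] 100000 5208 5207 1562500 25000 0
    81250 56250 21875 43750 21875))) (.L 6 7 [4, 4, 4, 5, 22, 22] [140, 130, 118, 106, 94, 80] []
    100000 216667 0 0 0 0 316667 316667 0 0 0)) (.E 1)) (.L 6 7 [4, 4, 4, 5, 22, 22] [140, 130,
    118, 106, 94, 80] [] 100000 12500 12500 1550000 25000 0 87500 62500 12500 37500 18750)) (.L 6 7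
    [4, 4, 4, 5, 22, 22] [140, 130, 118, 106, 94, 80] [] 100000 0 0 1525000 25000 0 75000 50000
    25000 50000 25000))) (.S 2 2 (.L 6 7 [4, 4, 4, 5, 22, 22] [165, 162, 152, 140, 128, 116] []
    100000 26585 26585 1512270 28834 24540 76074 53374 6135 7975 20859) (.L 6 7 [4, 4, 4, 5, 22,
    22] [165, 162, 152, 140, 128, 116] [] 100000 29825 29825 1489474 42105 0 84211 52632 2632 5263
    15789))) (.S 1 7 (.L 6 7 [4, 4, 4, 5, 22, 22] [190, 189, 186, 176, 164, 152] [] 100000 33334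
    33334 1463635 45455 0 100000 45455 0 0 18182) (.E 0))

lemma s22_22_8_5_34 {n : ℕ} (hn : 5 ≤ n) : NoNd (d22_22_8_5.R : ℤ) d22_22_8_5.H n d22_22_8_5.a d22_22_8_5.b
    (BlkD.inB (BlkD.upd (BlkD.upd (BlkD.upd (fun _ => 0) 0 5) 0 6) 1 5)
      (BlkD.upd (BlkD.upd (BlkD.upd (BlkD.upd (BlkD.upd (fun _ => 22) 0 8) 2 5) 0 6) 1 16) 1 8)) :=
  BlkD.tree_sound (BlkD.pairOk_sound k22_22_8_5) (by decide) hn t22_22_8_5_34 _ _ (by decide +kernel)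

/-- certificates of the pair `(8, 5)`, part 35 -/
def t22_22_8_5_35 : BlkD.Tr :=
  .E 0

lemma s22_22_8_5_35 {n : ℕ} (hn : 5 ≤ n) : NoNd (d22_22_8_5.R : ℤ) d22_22_8_5.H n d22_22_8_5.a d22_22_8_5.b
    (BlkD.inB (BlkD.upd (BlkD.upd (BlkD.upd (fun _ => 0) 0 5) 0 6) 1 9)
      (BlkD.upd (BlkD.upd (BlkD.upd (BlkD.upd (fun _ => 22) 0 8) 2 5) 0 6) 1 16)) :=
  BlkD.tree_sound (BlkD.pairOk_sound k22_22_8_5) (by decide) hn t22_22_8_5_35 _ _ (by decide +kernel)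

/-- certificates of the pair `(8, 5)`, part 36 -/
def t22_22_8_5_36 : BlkD.Tr :=
  .E 0

lemma s22_22_8_5_36 {n : ℕ} (hn : 5 ≤ n) : NoNd (d22_22_8_5.R : ℤ) d22_22_8_5.H n d22_22_8_5.a d22_22_8_5.b
    (BlkD.inB (BlkD.upd (BlkD.upd (BlkD.upd (fun _ => 0) 0 5) 0 6) 1 17)
      (BlkD.upd (BlkD.upd (BlkD.upd (fun _ => 22) 0 8) 2 5) 0 6)) :=
  BlkD.tree_sound (BlkD.pairOk_sound k22_22_8_5) (by decide) hn t22_22_8_5_36 _ _ (by decide +kernel)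

/-- certificates of the pair `(8, 5)`, part 37 -/
def t22_22_8_5_37 : BlkD.Tr :=
  .S 0 7 (.S 1 15 (.S 1 7 (.S 1 3 (.S 1 1 (.L 6 7 [4, 4, 4, 5, 22, 22] [] [] 100000 27778 27778
    1500002 16667 20833 37500 62500 0 16667 20833) (.S 1 2 (.S 2 2 (.L 6 7 [4, 4, 4, 5, 22, 22]
    [56, 44, 30, 0, 0, 0] [] 100000 29629 29628 1466670 33333 33333 94444 66667 5556 0 33333) (.L 6
    7 [4, 4, 4, 5, 22, 22] [56, 44, 30, 0, 0, 0] [] 100000 26389 26389 1518752 40625 6250 80208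
    68750 1042 18750 12500)) (.S 2 2 (.L 6 7 [4, 4, 4, 5, 22, 22] [86, 74, 62, 48, 0, 0] [] 100000
    25000 24999 1508334 8333 41667 91667 83333 8333 8333 8333) (.S 2 4 (.S 2 3 (.S 3 9 (.S 3 4 (.S
    3 2 (.L 6 7 [4, 4, 4, 5, 22, 22] [86, 74, 62, 48, 0, 0] [] 100000 28415 28414 1504918 29508
    29508 49180 49180 4918 4918 26230) (.S 3 3 (.L 5 5 [4, 5, 6, 7, 22, 22] [86, 74, 62, 48, 0, 0]
    [60, 50, 38, 24, 0, 0] 100000 17544 17544 1536842 31579 0 94737 63158 5263 36842 31579) (.L 5 5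
    [4, 5, 6, 7, 22, 22] [86, 74, 62, 48, 0, 0] [82, 72, 62, 50, 36, 0] 100000 15151 15150 1527274
    24242 0 90909 100000 27273 18182 33333))) (.L 5 5 [4, 5, 6, 7, 22, 22] [86, 74, 62, 48, 0, 0]
    [] 100000 66667 0 1099999 33333 0 166667 166667 0 0 33333)) (.E 1)) (.L 5 5 [4, 5, 6, 7, 22,
    22] [86, 74, 62, 48, 0, 0] [] 100000 8333 8332 1550000 25000 0 87500 50000 12500 50000 25000))
    (.L 5 5 [4, 5, 6, 7, 22, 22] [86, 74, 62, 48, 0, 0] [] 100000 4445 4445 1520000 26667 0 80000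
    26667 20000 46667 23333))))) (.S 1 5 (.S 1 4 (.S 2 2 (.L 5 5 [4, 5, 6, 7, 22, 22] [118, 106,
    94, 82, 68, 0] [] 100000 15556 15556 1540000 0 40000 80000 46667 20000 13333 20000) (.L 5 5 [4,
    5, 6, 7, 22, 22] [118, 106, 94, 82, 68, 0] [] 100000 13333 13332 1553334 23333 0 80000 66667
    20000 20000 20000)) (.L 5 5 [4, 5, 6, 7, 22, 22] [150, 140, 128, 116, 104, 90] [] 100000 25992
    25992 1486609 13393 4464 100000 86607 20536 1488 28869)) (.L 5 5 [4, 5, 6, 7, 22, 22] [] []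
    100000 36364 0 1281817 0 9091 136364 45455 0 0 27273))) (.E 0)) (.E 0)) (.L 5 5 [4, 5, 6, 7,
    22, 22] [] [] 100000 1 1 1556757 0 10811 60811 50000 53378 14865 31757)

lemma s22_22_8_5_37 {n : ℕ} (hn : 5 ≤ n) : NoNd (d22_22_8_5.R : ℤ) d22_22_8_5.H n d22_22_8_5.a d22_22_8_5.b
    (BlkD.inB (BlkD.upd (BlkD.upd (fun _ => 0) 0 5) 0 7)
      (BlkD.upd (BlkD.upd (fun _ => 22) 0 8) 2 5)) :=
  BlkD.tree_sound (BlkD.pairOk_sound k22_22_8_5) (by decide) hn t22_22_8_5_37 _ _ (by decide +kernel)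

/-- certificates of the pair `(8, 5)`, part 38 -/
def t22_22_8_5_38 : BlkD.Tr :=
  .E 1

lemma s22_22_8_5_38 {n : ℕ} (hn : 5 ≤ n) : NoNd (d22_22_8_5.R : ℤ) d22_22_8_5.H n d22_22_8_5.a d22_22_8_5.b
    (BlkD.inB (BlkD.upd (fun _ => 0) 2 6)
      (BlkD.upd (fun _ => 22) 0 8)) :=
  BlkD.tree_sound (BlkD.pairOk_sound k22_22_8_5) (by decide) hn t22_22_8_5_38 _ _ (by decide +kernel)

/-- certificates of the pair `(8, 5)`, part 39 -/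
def t22_22_8_5_39 : BlkD.Tr :=
  .E 0

lemma s22_22_8_5_39 {n : ℕ} (hn : 5 ≤ n) : NoNd (d22_22_8_5.R : ℤ) d22_22_8_5.H n d22_22_8_5.a d22_22_8_5.b
    (BlkD.inB (BlkD.upd (fun _ => 0) 0 9)
      (fun _ => 22)) :=
  BlkD.tree_sound (BlkD.pairOk_sound k22_22_8_5) (by decide) hn t22_22_8_5_39 _ _ (by decide +kernel)

lemma pr22_22_8_5 {n : ℕ} (hn : 5 ≤ n) : NoPr ((22 : ℕ) : ℤ) ((22 : ℕ) : ℤ) n 8 5 :=
  BlkD.of_root (R := d22_22_8_5.R) (H := d22_22_8_5.H) (a := d22_22_8_5.a) (b := d22_22_8_5.b) (q := 3) (by decide) hn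
    (BlkD.sp 0 8 (BlkD.sp 2 5 (BlkD.sp 0 4 (BlkD.sp 0 2 (BlkD.sp 0 1 (BlkD.sp 0 0 (s22_22_8_5_1 hn)
      (BlkD.sp 1 11 (BlkD.sp 1 5 (s22_22_8_5_2 hn) (s22_22_8_5_3 hn)) (s22_22_8_5_4 hn))) (BlkD.sp
      1 11 (BlkD.sp 1 5 (s22_22_8_5_5 hn) (BlkD.sp 1 8 (s22_22_8_5_6 hn) (s22_22_8_5_7 hn)))
      (s22_22_8_5_8 hn))) (BlkD.sp 0 3 (BlkD.sp 1 19 (BlkD.sp 1 9 (BlkD.sp 1 4 (s22_22_8_5_9 hn)
      (BlkD.sp 1 7 (s22_22_8_5_10 hn) (BlkD.sp 1 8 (s22_22_8_5_11 hn) (s22_22_8_5_12 hn))))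
      (s22_22_8_5_13 hn)) (s22_22_8_5_14 hn)) (BlkD.sp 1 18 (BlkD.sp 1 9 (BlkD.sp 1 4
      (s22_22_8_5_15 hn) (BlkD.sp 1 7 (BlkD.sp 1 6 (BlkD.sp 1 5 (s22_22_8_5_16 hn) (s22_22_8_5_17
      hn)) (BlkD.sp 2 2 (s22_22_8_5_18 hn) (s22_22_8_5_19 hn))) (BlkD.sp 1 8 (BlkD.sp 2 2
      (s22_22_8_5_20 hn) (s22_22_8_5_21 hn)) (s22_22_8_5_22 hn)))) (s22_22_8_5_23 hn))
      (s22_22_8_5_24 hn)))) (BlkD.sp 0 6 (BlkD.sp 0 5 (BlkD.sp 1 17 (BlkD.sp 1 8 (BlkD.sp 1 4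
      (s22_22_8_5_25 hn) (BlkD.sp 1 6 (BlkD.sp 1 5 (s22_22_8_5_26 hn) (BlkD.sp 2 2 (s22_22_8_5_27
      hn) (s22_22_8_5_28 hn))) (BlkD.sp 1 7 (s22_22_8_5_29 hn) (s22_22_8_5_30 hn)))) (s22_22_8_5_31
      hn)) (s22_22_8_5_32 hn)) (BlkD.sp 1 16 (BlkD.sp 1 8 (BlkD.sp 1 4 (s22_22_8_5_33 hn)
      (s22_22_8_5_34 hn)) (s22_22_8_5_35 hn)) (s22_22_8_5_36 hn))) (s22_22_8_5_37 hn)))
      (s22_22_8_5_38 hn)) (s22_22_8_5_39 hn))

end BlkC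

end Pool.Agent.Lib.MP_f04ccf_co
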