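import Pool.Agent.Lib.MP_f04ccf_co.M.BlkT

/-!
MP_f04ccf_co, block certificate, data `R = 22`, `H = 23`, part 1 (generated, helper99:
bd10.cpp, gen2.py).
-/

set_option autoImplicit false
set_option maxRecDepth 100000

namespace Pool.Agent.Lib.MP_f04ccf_co

namespace BlkC

/-- the numbers of the pair `(0, 0)`, `R = 22`, `H = 23` -/
def d22_23_0_0 : BlkD.Pd :=
  ⟨22, 23, 5, 0, 0, 20, 0, 1, 0, 4, 4, 0, 0, 4, 4, 0, [0, 4, 8, 12, 16, 20, 24, 28, 32, 36, 40, 44,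
    48, 52, 56, 60, 64, 68, 72, 76, 80], [0, 4, 8, 12, 16, 20, 24, 28, 32, 36, 40, 44, 48, 52, 56,
    60, 64, 68, 72, 76, 80], [⟨1, 1, 1, 4, 8, [0, 4], [0, 4]⟩]⟩

/-- the certificates of the pair `(0, 0)` -/
def t22_23_0_0 : BlkD.Tr :=
  .S 0 0 (.S 2 0 (.L 4 4 [4] [] [] 100000 0 0 100000 0 0 100000 0 0 0 0) (.E 1)) (.E 0)

lemma pr22_23_0_0 {n : ℕ} (hn : 7 ≤ n) : NoPr ((22 : ℕ) : ℤ) ((23 : ℕ) : ℤ) n 0 0 :=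
  BlkD.pair_sound (d := d22_23_0_0) (by decide +kernel) hn (by decide) (tr := t22_23_0_0)
    (by decide +kernel) rfl rfl rfl rfl

/-- the numbers of the pair `(1, 0)`, `R = 22`, `H = 23` -/
def d22_23_1_0 : BlkD.Pd :=
  ⟨22, 23, 5, 1, 0, 19, 0, 1, 0, 4, 4, 0, 0, 4, 4, 0, [0, 4, 8, 12, 16, 20, 24, 28, 32, 36, 40, 44,
    48, 52, 56, 60, 64, 68, 72, 76], [0, 4, 8, 12, 16, 20, 24, 28, 32, 36, 40, 44, 48, 52, 56, 60,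
    64, 68, 72, 76], [⟨1, 1, 1, 4, 8, [0, 4], [0, 4]⟩]⟩

/-- the certificates of the pair `(1, 0)` -/
def t22_23_1_0 : BlkD.Tr :=
  .S 0 1 (.S 2 0 (.L 4 4 [4] [] [] 100000 0 0 200000 0 0 0 100000 0 0 0) (.E 1)) (.E 0)

lemma pr22_23_1_0 {n : ℕ} (hn : 7 ≤ n) : NoPr ((22 : ℕ) : ℤ) ((23 : ℕ) : ℤ) n 1 0 :=
  BlkD.pair_sound (d := d22_23_1_0) (by decide +kernel) hn (by decide) (tr := t22_23_1_0)
    (by decide +kernel) rfl rfl rfl rfl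

/-- the numbers of the pair `(1, 1)`, `R = 22`, `H = 23` -/
def d22_23_1_1 : BlkD.Pd :=
  ⟨22, 23, 5, 1, 1, 18, 1, 1, 0, 4, 4, 0, 0, 4, 4, 0, [0, 4, 8, 12, 16, 20, 24, 28, 32, 36, 40, 44,
    48, 52, 56, 60, 64, 68, 72], [0, 4, 8, 12, 16, 20, 24, 28, 32, 36, 40, 44, 48, 52, 56, 60, 64,
    68, 72], [⟨1, 1, 1, 4, 8, [0, 4], [0, 4]⟩, ⟨1, 1, 1, 4, 8, [0, 4], [0, 4]⟩]⟩

/-- the certificates of the pair `(1, 1)` -/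
def t22_23_1_1 : BlkD.Tr :=
  .S 0 1 (.S 2 1 (.L 4 4 [4, 4] [] [] 100000 0 0 400000 0 0 0 0 0 0 0) (.E 1)) (.E 0)

lemma pr22_23_1_1 {n : ℕ} (hn : 7 ≤ n) : NoPr ((22 : ℕ) : ℤ) ((23 : ℕ) : ℤ) n 1 1 :=
  BlkD.pair_sound (d := d22_23_1_1) (by decide +kernel) hn (by decide) (tr := t22_23_1_1)
    (by decide +kernel) rfl rfl rfl rfl

/-- the numbers of the pair `(2, 0)`, `R = 22`, `H = 23` -/
def d22_23_2_0 : BlkD.Pd :=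
  ⟨22, 23, 5, 2, 0, 18, 0, 1, 0, 4, 4, 0, 0, 4, 4, 0, [0, 4, 8, 12, 16, 20, 24, 28, 32, 36, 40, 44,
    48, 52, 56, 60, 64, 68, 72], [0, 4, 8, 12, 16, 20, 24, 28, 32, 36, 40, 44, 48, 52, 56, 60, 64,
    68, 72], [⟨1, 1, 1, 4, 8, [0, 4], [0, 4]⟩]⟩

/-- the certificates of the pair `(2, 0)` -/
def t22_23_2_0 : BlkD.Tr :=
  .S 0 2 (.S 2 0 (.L 4 4 [4] [] [] 100000 0 0 300000 0 0 0 100000 0 0 0) (.E 1)) (.E 0)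

lemma pr22_23_2_0 {n : ℕ} (hn : 7 ≤ n) : NoPr ((22 : ℕ) : ℤ) ((23 : ℕ) : ℤ) n 2 0 :=
  BlkD.pair_sound (d := d22_23_2_0) (by decide +kernel) hn (by decide) (tr := t22_23_2_0)
    (by decide +kernel) rfl rfl rfl rfl

/-- the numbers of the pair `(2, 1)`, `R = 22`, `H = 23` -/
def d22_23_2_1 : BlkD.Pd :=
  ⟨22, 23, 5, 2, 1, 17, 1, 1, 0, 4, 4, 0, 0, 4, 4, 0, [0, 4, 8, 12, 16, 20, 24, 28, 32, 36, 40, 44,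
    48, 52, 56, 60, 64, 68], [0, 4, 8, 12, 16, 20, 24, 28, 32, 36, 40, 44, 48, 52, 56, 60, 64, 68],
    [⟨1, 1, 1, 4, 8, [0, 4], [0, 4]⟩, ⟨1, 1, 1, 4, 8, [0, 4], [0, 4]⟩]⟩

/-- the certificates of the pair `(2, 1)` -/
def t22_23_2_1 : BlkD.Tr :=
  .S 0 2 (.S 2 1 (.L 4 4 [4, 4] [] [] 100000 0 0 500000 0 0 0 0 0 0 0) (.E 1)) (.E 0)

lemma pr22_23_2_1 {n : ℕ} (hn : 7 ≤ n) : NoPr ((22 : ℕ) : ℤ) ((23 : ℕ) : ℤ) n 2 1 :=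
  BlkD.pair_sound (d := d22_23_2_1) (by decide +kernel) hn (by decide) (tr := t22_23_2_1)
    (by decide +kernel) rfl rfl rfl rfl

/-- the numbers of the pair `(2, 2)`, `R = 22`, `H = 23` -/
def d22_23_2_2 : BlkD.Pd :=
  ⟨22, 23, 5, 2, 2, 16, 2, 1, 0, 4, 6, 0, 0, 4, 6, 0, [0, 6, 12, 18, 24, 30, 36, 42, 48, 54, 60,
    64, 64, 64, 64, 64, 64], [0, 6, 12, 18, 24, 30, 36, 42, 48, 54, 60, 64, 64, 64, 64, 64, 64],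
    [⟨1, 1, 1, 4, 8, [0, 4], [0, 4]⟩, ⟨1, 1, 1, 4, 8, [0, 4], [0, 4]⟩, ⟨1, 1, 1, 6, 12, [0, 6], [0,
    6]⟩]⟩

/-- the certificates of the pair `(2, 2)` -/
def t22_23_2_2 : BlkD.Tr :=
  .S 0 2 (.S 2 2 (.L 4 4 [4, 4, 5] [] [] 100000 0 0 600000 0 0 0 0 0 0 0) (.E 1)) (.E 0)

lemma pr22_23_2_2 {n : ℕ} (hn : 7 ≤ n) : NoPr ((22 : ℕ) : ℤ) ((23 : ℕ) : ℤ) n 2 2 :=
  BlkD.pair_sound (d := d22_23_2_2) (by decide +kernel) hn (by decide) (tr := t22_23_2_2)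
    (by decide +kernel) rfl rfl rfl rfl

/-- the numbers of the pair `(3, 0)`, `R = 22`, `H = 23` -/
def d22_23_3_0 : BlkD.Pd :=
  ⟨22, 23, 5, 3, 0, 17, 0, 1, 0, 4, 4, 0, 0, 4, 4, 0, [0, 4, 8, 12, 16, 20, 24, 28, 32, 36, 40, 44,
    48, 52, 56, 60, 64, 68], [0, 4, 8, 12, 16, 20, 24, 28, 32, 36, 40, 44, 48, 52, 56, 60, 64, 68],
    [⟨1, 1, 1, 4, 8, [0, 4], [0, 4]⟩]⟩

/-- the certificates of the pair `(3, 0)` -/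
def t22_23_3_0 : BlkD.Tr :=
  .S 0 3 (.S 2 0 (.L 4 4 [4] [] [] 100000 0 0 400000 0 0 0 100000 0 0 0) (.E 1)) (.E 0)

lemma pr22_23_3_0 {n : ℕ} (hn : 7 ≤ n) : NoPr ((22 : ℕ) : ℤ) ((23 : ℕ) : ℤ) n 3 0 :=
  BlkD.pair_sound (d := d22_23_3_0) (by decide +kernel) hn (by decide) (tr := t22_23_3_0)
    (by decide +kernel) rfl rfl rfl rfl

/-- the numbers of the pair `(3, 1)`, `R = 22`, `H = 23` -/
def d22_23_3_1 : BlkD.Pd :=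
  ⟨22, 23, 5, 3, 1, 16, 1, 1, 0, 4, 6, 0, 0, 4, 4, 0, [0, 6, 12, 18, 24, 30, 36, 42, 48, 54, 60,
    64, 64, 64, 64, 64, 64], [0, 4, 8, 12, 16, 20, 24, 28, 32, 36, 40, 44, 48, 52, 56, 60, 64],
    [⟨1, 1, 1, 4, 8, [0, 4], [0, 4]⟩, ⟨1, 1, 1, 4, 10, [0, 6], [0, 4]⟩]⟩

/-- the certificates of the pair `(3, 1)` -/
def t22_23_3_1 : BlkD.Tr :=
  .S 0 3 (.S 2 1 (.L 4 5 [4, 4] [] [] 100000 0 0 600000 0 0 25000 0 0 0 0) (.E 1)) (.E 0)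

lemma pr22_23_3_1 {n : ℕ} (hn : 7 ≤ n) : NoPr ((22 : ℕ) : ℤ) ((23 : ℕ) : ℤ) n 3 1 :=
  BlkD.pair_sound (d := d22_23_3_1) (by decide +kernel) hn (by decide) (tr := t22_23_3_1)
    (by decide +kernel) rfl rfl rfl rfl

/-- the numbers of the pair `(3, 2)`, `R = 22`, `H = 23` -/
def d22_23_3_2 : BlkD.Pd :=
  ⟨22, 23, 5, 3, 2, 15, 2, 1, 0, 4, 6, 0, 0, 4, 6, 0, [0, 6, 12, 18, 24, 30, 36, 42, 48, 54, 60,
    60, 60, 60, 60, 60], [0, 6, 12, 18, 24, 30, 36, 42, 48, 54, 60, 60, 60, 60, 60, 60], [⟨1, 1, 1,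
    4, 8, [0, 4], [0, 4]⟩, ⟨1, 1, 1, 4, 10, [0, 6], [0, 4]⟩, ⟨1, 1, 1, 6, 12, [0, 6], [0, 6]⟩]⟩

/-- the certificates of the pair `(3, 2)` -/
def t22_23_3_2 : BlkD.Tr :=
  .S 0 3 (.S 2 2 (.L 4 5 [4, 4, 5] [] [] 100000 0 0 700000 0 0 25000 0 0 0 0) (.E 1)) (.E 0)

lemma pr22_23_3_2 {n : ℕ} (hn : 7 ≤ n) : NoPr ((22 : ℕ) : ℤ) ((23 : ℕ) : ℤ) n 3 2 :=
  BlkD.pair_sound (d := d22_23_3_2) (by decide +kernel) hn (by decide) (tr := t22_23_3_2)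
    (by decide +kernel) rfl rfl rfl rfl

/-- the numbers of the pair `(3, 3)`, `R = 22`, `H = 23` -/
def d22_23_3_3 : BlkD.Pd :=
  ⟨22, 23, 5, 3, 3, 14, 3, 1, 4, 1, 8, 0, 4, 1, 8, 0, [0, 8, 16, 24, 30, 34, 38, 42, 46, 50, 54,
    58, 62, 66, 70], [0, 8, 16, 24, 30, 34, 38, 42, 46, 50, 54, 58, 62, 66, 70], [⟨1, 1, 1, 4, 8,
    [0, 4], [0, 4]⟩, ⟨1, 1, 1, 6, 12, [0, 6], [0, 6]⟩, ⟨1, 1, 1, 6, 12, [0, 6], [0, 6]⟩, ⟨1, 1, 1,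
    8, 16, [0, 8], [0, 8]⟩]⟩

/-- the certificates of the pair `(3, 3)` -/
def t22_23_3_3 : BlkD.Tr :=
  .S 0 3 (.S 2 3 (.L 5 5 [4, 4, 5, 5] [] [] 100000 3897 3897 800000 0 0 50000 50000 28571 28571
    31169) (.E 1)) (.E 0)

lemma pr22_23_3_3 {n : ℕ} (hn : 7 ≤ n) : NoPr ((22 : ℕ) : ℤ) ((23 : ℕ) : ℤ) n 3 3 :=
  BlkD.pair_sound (d := d22_23_3_3) (by decide +kernel) hn (by decide) (tr := t22_23_3_3)
    (by decide +kernel) rfl rfl rfl rfl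

/-- the numbers of the pair `(4, 0)`, `R = 22`, `H = 23` -/
def d22_23_4_0 : BlkD.Pd :=
  ⟨22, 23, 5, 4, 0, 16, 0, 1, 0, 4, 4, 0, 0, 4, 4, 0, [0, 4, 8, 12, 16, 20, 24, 28, 32, 36, 40, 44,
    48, 52, 56, 60, 64], [0, 4, 8, 12, 16, 20, 24, 28, 32, 36, 40, 44, 48, 52, 56, 60, 64], [⟨1, 1,
    1, 4, 8, [0, 4], [0, 4]⟩]⟩

/-- the certificates of the pair `(4, 0)` -/
def t22_23_4_0 : BlkD.Tr :=
  .S 0 4 (.S 2 0 (.L 4 4 [4] [] [] 100000 0 0 525000 0 0 25000 75000 0 0 0) (.E 1)) (.E 0)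

lemma pr22_23_4_0 {n : ℕ} (hn : 7 ≤ n) : NoPr ((22 : ℕ) : ℤ) ((23 : ℕ) : ℤ) n 4 0 :=
  BlkD.pair_sound (d := d22_23_4_0) (by decide +kernel) hn (by decide) (tr := t22_23_4_0)
    (by decide +kernel) rfl rfl rfl rfl

/-- the numbers of the pair `(4, 1)`, `R = 22`, `H = 23` -/
def d22_23_4_1 : BlkD.Pd :=
  ⟨22, 23, 5, 4, 1, 15, 1, 1, 0, 4, 6, 0, 0, 4, 4, 0, [0, 6, 12, 18, 24, 30, 36, 42, 48, 54, 60,
    60, 60, 60, 60, 60], [0, 4, 8, 12, 16, 20, 24, 28, 32, 36, 40, 44, 48, 52, 56, 60], [⟨1, 1, 1,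
    4, 8, [0, 4], [0, 4]⟩, ⟨1, 1, 1, 4, 10, [0, 6], [0, 4]⟩]⟩

/-- the certificates of the pair `(4, 1)` -/
def t22_23_4_1 : BlkD.Tr :=
  .S 0 4 (.S 2 1 (.L 4 5 [4, 4] [] [] 100000 0 0 700001 0 0 33333 0 0 0 0) (.E 1)) (.E 0)

lemma pr22_23_4_1 {n : ℕ} (hn : 7 ≤ n) : NoPr ((22 : ℕ) : ℤ) ((23 : ℕ) : ℤ) n 4 1 :=
  BlkD.pair_sound (d := d22_23_4_1) (by decide +kernel) hn (by decide) (tr := t22_23_4_1)
    (by decide +kernel) rfl rfl rfl rfl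

/-- the numbers of the pair `(4, 2)`, `R = 22`, `H = 23` -/
def d22_23_4_2 : BlkD.Pd :=
  ⟨22, 23, 5, 4, 2, 14, 2, 1, 2, 2, 8, 0, 0, 4, 6, 0, [0, 8, 16, 24, 32, 38, 40, 42, 44, 46, 48,
    50, 52, 54, 56], [0, 6, 12, 18, 24, 30, 36, 42, 48, 54, 56, 56, 56, 56, 56], [⟨1, 1, 1, 4, 8,
    [0, 4], [0, 4]⟩, ⟨1, 1, 1, 4, 10, [0, 6], [0, 4]⟩, ⟨1, 1, 1, 6, 14, [0, 8], [0, 6]⟩]⟩

/-- the certificates of the pair `(4, 2)` -/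
def t22_23_4_2 : BlkD.Tr :=
  .S 0 4 (.S 2 2 (.S 0 2 (.L 4 5 [4, 4, 5] [] [] 100000 0 0 800000 0 0 50000 0 0 0 0) (.L 4 5 [4,
    4, 5] [] [] 100000 0 0 800000 0 0 50000 0 0 0 0)) (.E 1)) (.E 0)

lemma pr22_23_4_2 {n : ℕ} (hn : 7 ≤ n) : NoPr ((22 : ℕ) : ℤ) ((23 : ℕ) : ℤ) n 4 2 :=
  BlkD.pair_sound (d := d22_23_4_2) (by decide +kernel) hn (by decide) (tr := t22_23_4_2)
    (by decide +kernel) rfl rfl rfl rfl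

/-- the numbers of the pair `(4, 3)`, `R = 22`, `H = 23` -/
def d22_23_4_3 : BlkD.Pd :=
  ⟨22, 23, 5, 4, 3, 13, 3, 1, 2, 2, 8, 0, 4, 1, 8, 0, [0, 8, 16, 24, 32, 36, 38, 40, 42, 44, 46,
    48, 50, 52], [0, 8, 16, 24, 29, 33, 37, 41, 45, 49, 53, 57, 61, 65], [⟨1, 1, 1, 4, 8, [0, 4],
    [0, 4]⟩, ⟨1, 1, 1, 6, 12, [0, 6], [0, 6]⟩, ⟨1, 1, 1, 6, 14, [0, 8], [0, 6]⟩, ⟨1, 1, 1, 8, 16,
    [0, 8], [0, 8]⟩]⟩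

/-- the certificates of the pair `(4, 3)` -/
def t22_23_4_3 : BlkD.Tr :=
  .S 0 4 (.S 2 3 (.S 0 2 (.S 0 1 (.L 5 5 [4, 4, 5, 5] [] [] 100000 5000 5000 900001 0 0 50000 50000
    23077 26923 35000) (.L 5 5 [4, 4, 5, 5] [] [] 100000 5000 5000 900001 0 0 50000 50000 23077
    26923 35000)) (.L 5 5 [4, 4, 5, 5] [] [] 100000 5000 5000 900001 0 0 50000 50000 23077 26923
    35000)) (.E 1)) (.E 0)

lemma pr22_23_4_3 {n : ℕ} (hn : 7 ≤ n) : NoPr ((22 : ℕ) : ℤ) ((23 : ℕ) : ℤ) n 4 3 :=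
  BlkD.pair_sound (d := d22_23_4_3) (by decide +kernel) hn (by decide) (tr := t22_23_4_3)
    (by decide +kernel) rfl rfl rfl rfl

/-- the numbers of the pair `(4, 4)`, `R = 22`, `H = 23` -/
def d22_23_4_4 : BlkD.Pd :=
  ⟨22, 23, 5, 4, 4, 12, 4, 1, 5, 1, 10, 0, 5, 1, 10, 0, [0, 10, 20, 27, 32, 37, 42, 47, 52, 57, 62,
    67, 72], [0, 10, 20, 27, 32, 37, 42, 47, 52, 57, 62, 67, 72], [⟨1, 1, 1, 4, 8, [0, 4], [0, 4]⟩,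
    ⟨1, 1, 1, 6, 12, [0, 6], [0, 6]⟩, ⟨1, 1, 1, 8, 16, [0, 8], [0, 8]⟩, ⟨1, 1, 1, 8, 16, [0, 8],
    [0, 8]⟩, ⟨1, 1, 1, 8, 20, [0, 10], [0, 10]⟩]⟩

lemma k22_23_4_4 : BlkD.pairOk d22_23_4_4 = true := by decide +kernel

/-- certificates of the pair `(4, 4)`, part 1 -/
def t22_23_4_4_1 : BlkD.Tr :=
  .S 0 1 (.L 5 5 [4, 4, 5, 5, 6] [] [] 100000 13942 13941 1000003 0 0 79021 51748 20979 23252
    25000) (.L 5 5 [4, 4, 5, 5, 6] [] [] 100000 13942 13941 1000003 0 0 79021 51748 20979 23252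
    25000)

lemma s22_23_4_4_1 {n : ℕ} (hn : 7 ≤ n) : NoNd (d22_23_4_4.R : ℤ) d22_23_4_4.H n d22_23_4_4.a d22_23_4_4.b
    (BlkD.inB (fun _ => 0)
      (BlkD.upd (BlkD.upd (BlkD.upd (fun _ => 23) 0 4) 2 4) 0 2)) :=
  BlkD.tree_sound (BlkD.pairOk_sound k22_23_4_4) (by decide) hn t22_23_4_4_1 _ _ (by decide +kernel)

/-- certificates of the pair `(4, 4)`, part 2 -/
def t22_23_4_4_2 : BlkD.Tr :=
  .L 5 5 [4, 4, 5, 5, 6] [] [] 100000 13942 13941 1000003 0 0 79021 51748 20979 23252 25000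

lemma s22_23_4_4_2 {n : ℕ} (hn : 7 ≤ n) : NoNd (d22_23_4_4.R : ℤ) d22_23_4_4.H n d22_23_4_4.a d22_23_4_4.b
    (BlkD.inB (BlkD.upd (fun _ => 0) 0 3)
      (BlkD.upd (BlkD.upd (fun _ => 23) 0 4) 2 4)) :=
  BlkD.tree_sound (BlkD.pairOk_sound k22_23_4_4) (by decide) hn t22_23_4_4_2 _ _ (by decide +kernel)

/-- certificates of the pair `(4, 4)`, part 3 -/
def t22_23_4_4_3 : BlkD.Tr :=
  .E 1

lemma s22_23_4_4_3 {n : ℕ} (hn : 7 ≤ n) : NoNd (d22_23_4_4.R : ℤ) d22_23_4_4.H n d22_23_4_4.a d22_23_4_4.b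
    (BlkD.inB (BlkD.upd (fun _ => 0) 2 5)
      (BlkD.upd (fun _ => 23) 0 4)) :=
  BlkD.tree_sound (BlkD.pairOk_sound k22_23_4_4) (by decide) hn t22_23_4_4_3 _ _ (by decide +kernel)

/-- certificates of the pair `(4, 4)`, part 4 -/
def t22_23_4_4_4 : BlkD.Tr :=
  .E 0

lemma s22_23_4_4_4 {n : ℕ} (hn : 7 ≤ n) : NoNd (d22_23_4_4.R : ℤ) d22_23_4_4.H n d22_23_4_4.a d22_23_4_4.b
    (BlkD.inB (BlkD.upd (fun _ => 0) 0 5)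
      (fun _ => 23)) :=
  BlkD.tree_sound (BlkD.pairOk_sound k22_23_4_4) (by decide) hn t22_23_4_4_4 _ _ (by decide +kernel)

lemma pr22_23_4_4 {n : ℕ} (hn : 7 ≤ n) : NoPr ((22 : ℕ) : ℤ) ((23 : ℕ) : ℤ) n 4 4 :=
  BlkD.of_root (R := d22_23_4_4.R) (H := d22_23_4_4.H) (a := d22_23_4_4.a) (b := d22_23_4_4.b) (q := 5) (by decide) hn
    (BlkD.sp 0 4 (BlkD.sp 2 4 (BlkD.sp 0 2 (s22_23_4_4_1 hn) (s22_23_4_4_2 hn)) (s22_23_4_4_3 hn))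
      (s22_23_4_4_4 hn))

/-- the numbers of the pair `(5, 0)`, `R = 22`, `H = 23` -/
def d22_23_5_0 : BlkD.Pd :=
  ⟨22, 23, 5, 5, 0, 15, 0, 1, 0, 4, 4, 0, 0, 4, 4, 0, [0, 4, 8, 12, 16, 20, 24, 28, 32, 36, 40, 44,
    48, 52, 56, 60], [0, 4, 8, 12, 16, 20, 24, 28, 32, 36, 40, 44, 48, 52, 56, 60], [⟨1, 1, 1, 4,
    8, [0, 4], [0, 4]⟩]⟩

/-- the certificates of the pair `(5, 0)` -/
def t22_23_5_0 : BlkD.Tr :=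
  .S 0 5 (.S 2 0 (.L 4 4 [4] [] [] 100000 0 0 600001 33333 0 33333 66667 0 0 0) (.E 1)) (.E 0)

lemma pr22_23_5_0 {n : ℕ} (hn : 7 ≤ n) : NoPr ((22 : ℕ) : ℤ) ((23 : ℕ) : ℤ) n 5 0 :=
  BlkD.pair_sound (d := d22_23_5_0) (by decide +kernel) hn (by decide) (tr := t22_23_5_0)
    (by decide +kernel) rfl rfl rfl rfl

/-- the numbers of the pair `(5, 1)`, `R = 22`, `H = 23` -/
def d22_23_5_1 : BlkD.Pd :=
  ⟨22, 23, 5, 5, 1, 14, 1, 1, 0, 4, 6, 0, 0, 4, 4, 0, [0, 6, 12, 18, 24, 30, 36, 42, 48, 54, 56,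
    56, 56, 56, 56], [0, 4, 8, 12, 16, 20, 24, 28, 32, 36, 40, 44, 48, 52, 56], [⟨1, 1, 1, 4, 8,
    [0, 4], [0, 4]⟩, ⟨1, 1, 1, 4, 10, [0, 6], [0, 4]⟩]⟩

/-- the certificates of the pair `(5, 1)` -/
def t22_23_5_1 : BlkD.Tr :=
  .S 0 5 (.S 2 1 (.S 0 2 (.L 4 5 [4, 4] [] [] 100000 0 0 780000 20000 0 40000 0 0 0 0) (.L 4 5 [4,
    4] [] [] 100000 0 0 780000 20000 0 40000 0 0 0 0)) (.E 1)) (.E 0)

lemma pr22_23_5_1 {n : ℕ} (hn : 7 ≤ n) : NoPr ((22 : ℕ) : ℤ) ((23 : ℕ) : ℤ) n 5 1 :=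
  BlkD.pair_sound (d := d22_23_5_1) (by decide +kernel) hn (by decide) (tr := t22_23_5_1)
    (by decide +kernel) rfl rfl rfl rfl

/-- the numbers of the pair `(5, 2)`, `R = 22`, `H = 23` -/
def d22_23_5_2 : BlkD.Pd :=
  ⟨22, 23, 5, 5, 2, 13, 2, 1, 2, 2, 8, 0, 0, 4, 6, 0, [0, 8, 16, 24, 32, 36, 38, 40, 42, 44, 46,
    48, 50, 52], [0, 6, 12, 18, 24, 30, 36, 42, 48, 52, 52, 52, 52, 52], [⟨1, 1, 1, 4, 8, [0, 4],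
    [0, 4]⟩, ⟨1, 1, 1, 4, 10, [0, 6], [0, 4]⟩, ⟨1, 1, 1, 6, 14, [0, 8], [0, 6]⟩]⟩

lemma k22_23_5_2 : BlkD.pairOk d22_23_5_2 = true := by decide +kernel

/-- certificates of the pair `(5, 2)`, part 1 -/
def t22_23_5_2_1 : BlkD.Tr :=
  .S 0 1 (.L 4 5 [4, 4, 5] [] [] 100000 2885 2885 875000 25000 0 50000 0 6410 6410 6410) (.L 4 5
    [4, 4, 5] [] [] 100000 2885 2885 875000 25000 0 50000 0 6410 6410 6410)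

lemma s22_23_5_2_1 {n : ℕ} (hn : 7 ≤ n) : NoNd (d22_23_5_2.R : ℤ) d22_23_5_2.H n d22_23_5_2.a d22_23_5_2.b
    (BlkD.inB (fun _ => 0)
      (BlkD.upd (BlkD.upd (BlkD.upd (fun _ => 23) 0 5) 2 2) 0 2)) :=
  BlkD.tree_sound (BlkD.pairOk_sound k22_23_5_2) (by decide) hn t22_23_5_2_1 _ _ (by decide +kernel)

/-- certificates of the pair `(5, 2)`, part 2 -/
def t22_23_5_2_2 : BlkD.Tr :=
  .L 4 5 [4, 4, 5] [] [] 100000 2885 2885 875000 25000 0 50000 0 6410 6410 6410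

lemma s22_23_5_2_2 {n : ℕ} (hn : 7 ≤ n) : NoNd (d22_23_5_2.R : ℤ) d22_23_5_2.H n d22_23_5_2.a d22_23_5_2.b
    (BlkD.inB (BlkD.upd (fun _ => 0) 0 3)
      (BlkD.upd (BlkD.upd (fun _ => 23) 0 5) 2 2)) :=
  BlkD.tree_sound (BlkD.pairOk_sound k22_23_5_2) (by decide) hn t22_23_5_2_2 _ _ (by decide +kernel)

/-- certificates of the pair `(5, 2)`, part 3 -/
def t22_23_5_2_3 : BlkD.Tr :=
  .E 1

lemma s22_23_5_2_3 {n : ℕ} (hn : 7 ≤ n) : NoNd (d22_23_5_2.R : ℤ) d22_23_5_2.H n d22_23_5_2.a d22_23_5_2.b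
    (BlkD.inB (BlkD.upd (fun _ => 0) 2 3)
      (BlkD.upd (fun _ => 23) 0 5)) :=
  BlkD.tree_sound (BlkD.pairOk_sound k22_23_5_2) (by decide) hn t22_23_5_2_3 _ _ (by decide +kernel)

/-- certificates of the pair `(5, 2)`, part 4 -/
def t22_23_5_2_4 : BlkD.Tr :=
  .E 0

lemma s22_23_5_2_4 {n : ℕ} (hn : 7 ≤ n) : NoNd (d22_23_5_2.R : ℤ) d22_23_5_2.H n d22_23_5_2.a d22_23_5_2.b
    (BlkD.inB (BlkD.upd (fun _ => 0) 0 6)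
      (fun _ => 23)) :=
  BlkD.tree_sound (BlkD.pairOk_sound k22_23_5_2) (by decide) hn t22_23_5_2_4 _ _ (by decide +kernel)

lemma pr22_23_5_2 {n : ℕ} (hn : 7 ≤ n) : NoPr ((22 : ℕ) : ℤ) ((23 : ℕ) : ℤ) n 5 2 :=
  BlkD.of_root (R := d22_23_5_2.R) (H := d22_23_5_2.H) (a := d22_23_5_2.a) (b := d22_23_5_2.b) (q := 5) (by decide) hn
    (BlkD.sp 0 5 (BlkD.sp 2 2 (BlkD.sp 0 2 (s22_23_5_2_1 hn) (s22_23_5_2_2 hn)) (s22_23_5_2_3 hn))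
      (s22_23_5_2_4 hn))

/-- the numbers of the pair `(5, 3)`, `R = 22`, `H = 23` -/
def d22_23_5_3 : BlkD.Pd :=
  ⟨22, 23, 5, 5, 3, 12, 3, 1, 2, 2, 10, 0, 4, 1, 8, 0, [0, 10, 20, 30, 32, 34, 36, 38, 40, 42, 44,
    46, 48], [0, 8, 16, 24, 28, 32, 36, 40, 44, 48, 52, 56, 60], [⟨1, 1, 1, 4, 8, [0, 4], [0, 4]⟩,
    ⟨1, 1, 1, 6, 12, [0, 6], [0, 6]⟩, ⟨1, 1, 1, 6, 14, [0, 8], [0, 6]⟩, ⟨1, 1, 1, 8, 18, [0, 10],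
    [0, 8]⟩]⟩

lemma k22_23_5_3 : BlkD.pairOk d22_23_5_3 = true := by decide +kernel

/-- certificates of the pair `(5, 3)`, part 1 -/
def t22_23_5_3_1 : BlkD.Tr :=
  .S 0 1 (.S 0 0 (.L 5 6 [4, 4, 5, 5] [] [] 100000 9612 9612 994288 5714 0 88571 47143 17143 24524
    29497) (.L 5 6 [4, 4, 5, 5] [] [] 100000 9612 9612 994288 5714 0 88571 47143 17143 24524
    29497)) (.L 5 6 [4, 4, 5, 5] [] [] 100000 9612 9612 994288 5714 0 88571 47143 17143 24524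
    29497)

lemma s22_23_5_3_1 {n : ℕ} (hn : 7 ≤ n) : NoNd (d22_23_5_3.R : ℤ) d22_23_5_3.H n d22_23_5_3.a d22_23_5_3.b
    (BlkD.inB (fun _ => 0)
      (BlkD.upd (BlkD.upd (BlkD.upd (fun _ => 23) 0 5) 2 3) 0 2)) :=
  BlkD.tree_sound (BlkD.pairOk_sound k22_23_5_3) (by decide) hn t22_23_5_3_1 _ _ (by decide +kernel)

/-- certificates of the pair `(5, 3)`, part 2 -/
def t22_23_5_3_2 : BlkD.Tr :=
  .L 5 6 [4, 4, 5, 5] [] [] 100000 9612 9612 994288 5714 0 88571 47143 17143 24524 29497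

lemma s22_23_5_3_2 {n : ℕ} (hn : 7 ≤ n) : NoNd (d22_23_5_3.R : ℤ) d22_23_5_3.H n d22_23_5_3.a d22_23_5_3.b
    (BlkD.inB (BlkD.upd (fun _ => 0) 0 3)
      (BlkD.upd (BlkD.upd (fun _ => 23) 0 5) 2 3)) :=
  BlkD.tree_sound (BlkD.pairOk_sound k22_23_5_3) (by decide) hn t22_23_5_3_2 _ _ (by decide +kernel)

/-- certificates of the pair `(5, 3)`, part 3 -/
def t22_23_5_3_3 : BlkD.Tr :=
  .E 1

lemma s22_23_5_3_3 {n : ℕ} (hn : 7 ≤ n) : NoNd (d22_23_5_3.R : ℤ) d22_23_5_3.H n d22_23_5_3.a d22_23_5_3.b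
    (BlkD.inB (BlkD.upd (fun _ => 0) 2 4)
      (BlkD.upd (fun _ => 23) 0 5)) :=
  BlkD.tree_sound (BlkD.pairOk_sound k22_23_5_3) (by decide) hn t22_23_5_3_3 _ _ (by decide +kernel)

/-- certificates of the pair `(5, 3)`, part 4 -/
def t22_23_5_3_4 : BlkD.Tr :=
  .E 0

lemma s22_23_5_3_4 {n : ℕ} (hn : 7 ≤ n) : NoNd (d22_23_5_3.R : ℤ) d22_23_5_3.H n d22_23_5_3.a d22_23_5_3.b
    (BlkD.inB (BlkD.upd (fun _ => 0) 0 6)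
      (fun _ => 23)) :=
  BlkD.tree_sound (BlkD.pairOk_sound k22_23_5_3) (by decide) hn t22_23_5_3_4 _ _ (by decide +kernel)

lemma pr22_23_5_3 {n : ℕ} (hn : 7 ≤ n) : NoPr ((22 : ℕ) : ℤ) ((23 : ℕ) : ℤ) n 5 3 :=
  BlkD.of_root (R := d22_23_5_3.R) (H := d22_23_5_3.H) (a := d22_23_5_3.a) (b := d22_23_5_3.b) (q := 5) (by decide) hn
    (BlkD.sp 0 5 (BlkD.sp 2 3 (BlkD.sp 0 2 (s22_23_5_3_1 hn) (s22_23_5_3_2 hn)) (s22_23_5_3_3 hn))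
      (s22_23_5_3_4 hn))

end BlkC

end Pool.Agent.Lib.MP_f04ccf_co
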