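import Pool.Agent.Lib.MP_f04ccf_co.M.BlkT

/-!
MP_f04ccf_co, block certificate, data `R = 22`, `H = 23`, part 10 (generated, helper99:
bd10.cpp, gen2.py).
-/

set_option autoImplicit false
set_option maxRecDepth 100000

namespace Pool.Agent.Lib.MP_f04ccf_co

namespace BlkC

/-- the numbers of the pair `(7, 7)`, `R = 22`, `H = 23` -/
def d22_23_7_7 : BlkD.Pd :=
  ⟨22, 23, 5, 7, 7, 6, 1, 3, 2, 2, 6, 0, 2, 2, 6, 0, [0, 6, 12, 18, 20, 22, 24], [0, 6, 12, 18, 20,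
    22, 24], [⟨1, 1, 1, 4, 8, [0, 4], [0, 4]⟩, ⟨1, 1, 1, 4, 12, [0, 6], [0, 6]⟩]⟩

lemma k22_23_7_7 : BlkD.pairOk d22_23_7_7 = true := by decide +kernel

/-- certificates of the pair `(7, 7)`, part 1 -/
def t22_23_7_7_1 : BlkD.Tr :=
  .L 5 5 [4, 4, 22, 22, 22, 22, 22, 22] [] [] 100000 0 0 1600000 50000 50000 50000 50000 0 0 0

lemma s22_23_7_7_1 {n : ℕ} (hn : 7 ≤ n) : NoNd (d22_23_7_7.R : ℤ) d22_23_7_7.H n d22_23_7_7.a d22_23_7_7.b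
    (BlkD.inB (fun _ => 0)
      (BlkD.upd (BlkD.upd (BlkD.upd (BlkD.upd (BlkD.upd (fun _ => 23) 0 7) 2 7) 0 3) 0 1) 0 0)) :=
  BlkD.tree_sound (BlkD.pairOk_sound k22_23_7_7) (by decide) hn t22_23_7_7_1 _ _ (by decide +kernel)

/-- certificates of the pair `(7, 7)`, part 2 -/
def t22_23_7_7_2 : BlkD.Tr :=
  .S 1 2 (.L 5 5 [4, 4, 22, 22, 22, 22, 22, 22] [] [] 100000 0 0 1600000 50000 50000 50000 50000 0
    0 0) (.L 5 5 [4, 4, 22, 22, 22, 22, 22, 22] [] [] 100000 0 0 1600000 50000 50000 50000 50000 0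
    0 0)

lemma s22_23_7_7_2 {n : ℕ} (hn : 7 ≤ n) : NoNd (d22_23_7_7.R : ℤ) d22_23_7_7.H n d22_23_7_7.a d22_23_7_7.b
    (BlkD.inB (BlkD.upd (fun _ => 0) 0 1)
      (BlkD.upd (BlkD.upd (BlkD.upd (BlkD.upd (BlkD.upd (BlkD.upd (fun _ => 23) 0 7) 2 7) 0 3) 0 1) 1 11) 1 5)) :=
  BlkD.tree_sound (BlkD.pairOk_sound k22_23_7_7) (by decide) hn t22_23_7_7_2 _ _ (by decide +kernel)

/-- certificates of the pair `(7, 7)`, part 3 -/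
def t22_23_7_7_3 : BlkD.Tr :=
  .S 1 7 (.L 5 5 [4, 4, 22, 22, 22, 22, 22, 22] [] [] 100000 0 0 1600000 50000 50000 50000 50000 0
    0 0) (.L 5 5 [4, 4, 22, 22, 22, 22, 22, 22] [136, 134, 132, 126, 120, 114] [] 100000 0 0
    1600000 50000 50000 50000 50000 0 0 0)

lemma s22_23_7_7_3 {n : ℕ} (hn : 7 ≤ n) : NoNd (d22_23_7_7.R : ℤ) d22_23_7_7.H n d22_23_7_7.a d22_23_7_7.b
    (BlkD.inB (BlkD.upd (BlkD.upd (fun _ => 0) 0 1) 1 6)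
      (BlkD.upd (BlkD.upd (BlkD.upd (BlkD.upd (BlkD.upd (BlkD.upd (fun _ => 23) 0 7) 2 7) 0 3) 0 1) 1 11) 1 8)) :=
  BlkD.tree_sound (BlkD.pairOk_sound k22_23_7_7) (by decide) hn t22_23_7_7_3 _ _ (by decide +kernel)

/-- certificates of the pair `(7, 7)`, part 4 -/
def t22_23_7_7_4 : BlkD.Tr :=
  .L 5 5 [4, 4, 22, 22, 22, 22, 22, 22] [] [] 100000 0 0 1600000 50000 50000 50000 50000 0 0 0

lemma s22_23_7_7_4 {n : ℕ} (hn : 7 ≤ n) : NoNd (d22_23_7_7.R : ℤ) d22_23_7_7.H n d22_23_7_7.a d22_23_7_7.b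
    (BlkD.inB (BlkD.upd (BlkD.upd (BlkD.upd (fun _ => 0) 0 1) 1 6) 1 9)
      (BlkD.upd (BlkD.upd (BlkD.upd (BlkD.upd (BlkD.upd (fun _ => 23) 0 7) 2 7) 0 3) 0 1) 1 11)) :=
  BlkD.tree_sound (BlkD.pairOk_sound k22_23_7_7) (by decide) hn t22_23_7_7_4 _ _ (by decide +kernel)

/-- certificates of the pair `(7, 7)`, part 5 -/
def t22_23_7_7_5 : BlkD.Tr :=
  .L 5 5 [4, 4, 22, 22, 22, 22, 22, 22] [] [] 100000 0 0 1600000 50000 50000 50000 50000 0 0 0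

lemma s22_23_7_7_5 {n : ℕ} (hn : 7 ≤ n) : NoNd (d22_23_7_7.R : ℤ) d22_23_7_7.H n d22_23_7_7.a d22_23_7_7.b
    (BlkD.inB (BlkD.upd (BlkD.upd (fun _ => 0) 0 1) 1 12)
      (BlkD.upd (BlkD.upd (BlkD.upd (BlkD.upd (fun _ => 23) 0 7) 2 7) 0 3) 0 1)) :=
  BlkD.tree_sound (BlkD.pairOk_sound k22_23_7_7) (by decide) hn t22_23_7_7_5 _ _ (by decide +kernel)

/-- certificates of the pair `(7, 7)`, part 6 -/
def t22_23_7_7_6 : BlkD.Tr :=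
  .S 1 2 (.L 5 5 [4, 4, 22, 22, 22, 22, 22, 22] [] [] 100000 0 0 1600000 50000 50000 50000 50000 0
    0 0) (.S 1 4 (.L 5 5 [4, 4, 22, 22, 22, 22, 22, 22] [] [] 100000 0 0 1600000 50000 50000 50000
    50000 0 0 0) (.L 5 5 [4, 4, 22, 22, 22, 22, 22, 22] [94, 88, 82, 70, 56, 40] [] 100000 0 0
    1600000 50000 50000 50000 50000 0 0 0))

lemma s22_23_7_7_6 {n : ℕ} (hn : 7 ≤ n) : NoNd (d22_23_7_7.R : ℤ) d22_23_7_7.H n d22_23_7_7.a d22_23_7_7.b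
    (BlkD.inB (BlkD.upd (fun _ => 0) 0 2)
      (BlkD.upd (BlkD.upd (BlkD.upd (BlkD.upd (BlkD.upd (BlkD.upd (fun _ => 23) 0 7) 2 7) 0 3) 0 2) 1 11) 1 5)) :=
  BlkD.tree_sound (BlkD.pairOk_sound k22_23_7_7) (by decide) hn t22_23_7_7_6 _ _ (by decide +kernel)

/-- certificates of the pair `(7, 7)`, part 7 -/
def t22_23_7_7_7 : BlkD.Tr :=
  .S 1 6 (.L 5 5 [4, 4, 22, 22, 22, 22, 22, 22] [114, 108, 102, 96, 84, 70] [] 100000 0 0 1600000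
    50000 50000 50000 50000 0 0 0) (.L 5 5 [4, 4, 22, 22, 22, 22, 22, 22] [132, 130, 124, 118, 112,
    100] [] 100000 0 0 1600000 50000 50000 50000 50000 0 0 0)

lemma s22_23_7_7_7 {n : ℕ} (hn : 7 ≤ n) : NoNd (d22_23_7_7.R : ℤ) d22_23_7_7.H n d22_23_7_7.a d22_23_7_7.b
    (BlkD.inB (BlkD.upd (BlkD.upd (fun _ => 0) 0 2) 1 6)
      (BlkD.upd (BlkD.upd (BlkD.upd (BlkD.upd (BlkD.upd (BlkD.upd (BlkD.upd (fun _ => 23) 0 7) 2 7) 0 3) 0 2) 1 11) 1 8) 1 7)) :=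
  BlkD.tree_sound (BlkD.pairOk_sound k22_23_7_7) (by decide) hn t22_23_7_7_7 _ _ (by decide +kernel)

/-- certificates of the pair `(7, 7)`, part 8 -/
def t22_23_7_7_8 : BlkD.Tr :=
  .L 5 5 [4, 4, 22, 22, 22, 22, 22, 22] [152, 150, 148, 142, 136, 130] [] 100000 0 0 1600000 50000
    50000 50000 50000 0 0 0

lemma s22_23_7_7_8 {n : ℕ} (hn : 7 ≤ n) : NoNd (d22_23_7_7.R : ℤ) d22_23_7_7.H n d22_23_7_7.a d22_23_7_7.b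
    (BlkD.inB (BlkD.upd (BlkD.upd (BlkD.upd (fun _ => 0) 0 2) 1 6) 1 8)
      (BlkD.upd (BlkD.upd (BlkD.upd (BlkD.upd (BlkD.upd (BlkD.upd (fun _ => 23) 0 7) 2 7) 0 3) 0 2) 1 11) 1 8)) :=
  BlkD.tree_sound (BlkD.pairOk_sound k22_23_7_7) (by decide) hn t22_23_7_7_8 _ _ (by decide +kernel)

/-- certificates of the pair `(7, 7)`, part 9 -/
def t22_23_7_7_9 : BlkD.Tr :=
  .L 5 5 [4, 4, 22, 22, 22, 22, 22, 22] [] [] 100000 0 0 1600000 50000 50000 50000 50000 0 0 0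

lemma s22_23_7_7_9 {n : ℕ} (hn : 7 ≤ n) : NoNd (d22_23_7_7.R : ℤ) d22_23_7_7.H n d22_23_7_7.a d22_23_7_7.b
    (BlkD.inB (BlkD.upd (BlkD.upd (BlkD.upd (fun _ => 0) 0 2) 1 6) 1 9)
      (BlkD.upd (BlkD.upd (BlkD.upd (BlkD.upd (BlkD.upd (fun _ => 23) 0 7) 2 7) 0 3) 0 2) 1 11)) :=
  BlkD.tree_sound (BlkD.pairOk_sound k22_23_7_7) (by decide) hn t22_23_7_7_9 _ _ (by decide +kernel)

/-- certificates of the pair `(7, 7)`, part 10 -/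
def t22_23_7_7_10 : BlkD.Tr :=
  .L 5 5 [4, 4, 22, 22, 22, 22, 22, 22] [] [] 100000 0 0 1600000 50000 50000 50000 50000 0 0 0

lemma s22_23_7_7_10 {n : ℕ} (hn : 7 ≤ n) : NoNd (d22_23_7_7.R : ℤ) d22_23_7_7.H n d22_23_7_7.a d22_23_7_7.b
    (BlkD.inB (BlkD.upd (BlkD.upd (fun _ => 0) 0 2) 1 12)
      (BlkD.upd (BlkD.upd (BlkD.upd (BlkD.upd (fun _ => 23) 0 7) 2 7) 0 3) 0 2)) :=
  BlkD.tree_sound (BlkD.pairOk_sound k22_23_7_7) (by decide) hn t22_23_7_7_10 _ _ (by decide +kernel)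

/-- certificates of the pair `(7, 7)`, part 11 -/
def t22_23_7_7_11 : BlkD.Tr :=
  .L 5 5 [4, 4, 22, 22, 22, 22, 22, 22] [] [] 100000 0 0 1600000 50000 50000 50000 50000 0 0 0

lemma s22_23_7_7_11 {n : ℕ} (hn : 7 ≤ n) : NoNd (d22_23_7_7.R : ℤ) d22_23_7_7.H n d22_23_7_7.a d22_23_7_7.b
    (BlkD.inB (BlkD.upd (BlkD.upd (fun _ => 0) 0 2) 0 3)
      (BlkD.upd (BlkD.upd (BlkD.upd (BlkD.upd (BlkD.upd (BlkD.upd (fun _ => 23) 0 7) 2 7) 0 3) 1 11) 1 5) 1 2)) :=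
  BlkD.tree_sound (BlkD.pairOk_sound k22_23_7_7) (by decide) hn t22_23_7_7_11 _ _ (by decide +kernel)

/-- certificates of the pair `(7, 7)`, part 12 -/
def t22_23_7_7_12 : BlkD.Tr :=
  .S 1 4 (.L 5 5 [4, 4, 22, 22, 22, 22, 22, 22] [] [] 100000 0 0 1600000 50000 50000 50000 50000 0
    0 0) (.L 5 5 [4, 4, 22, 22, 22, 22, 22, 22] [104, 98, 92, 80, 66, 50] [] 100000 0 0 1600000
    50000 50000 50000 50000 0 0 0)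

lemma s22_23_7_7_12 {n : ℕ} (hn : 7 ≤ n) : NoNd (d22_23_7_7.R : ℤ) d22_23_7_7.H n d22_23_7_7.a d22_23_7_7.b
    (BlkD.inB (BlkD.upd (BlkD.upd (BlkD.upd (fun _ => 0) 0 2) 0 3) 1 3)
      (BlkD.upd (BlkD.upd (BlkD.upd (BlkD.upd (BlkD.upd (fun _ => 23) 0 7) 2 7) 0 3) 1 11) 1 5)) :=
  BlkD.tree_sound (BlkD.pairOk_sound k22_23_7_7) (by decide) hn t22_23_7_7_12 _ _ (by decide +kernel)

/-- certificates of the pair `(7, 7)`, part 13 -/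
def t22_23_7_7_13 : BlkD.Tr :=
  .S 2 3 (.L 5 5 [4, 4, 22, 22, 22, 22, 22, 22] [126, 120, 114, 108, 96, 82] [] 100000 0 0 1600000
    50000 50000 50000 50000 0 0 0) (.L 5 5 [4, 4, 22, 22, 22, 22, 22, 22] [126, 120, 114, 108, 96,
    82] [] 100000 0 0 1600000 50000 50000 50000 50000 0 0 0)

lemma s22_23_7_7_13 {n : ℕ} (hn : 7 ≤ n) : NoNd (d22_23_7_7.R : ℤ) d22_23_7_7.H n d22_23_7_7.a d22_23_7_7.b
    (BlkD.inB (BlkD.upd (BlkD.upd (BlkD.upd (fun _ => 0) 0 2) 0 3) 1 6)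
      (BlkD.upd (BlkD.upd (BlkD.upd (BlkD.upd (BlkD.upd (BlkD.upd (BlkD.upd (fun _ => 23) 0 7) 2 7) 0 3) 1 11) 1 8) 1 7) 1 6)) :=
  BlkD.tree_sound (BlkD.pairOk_sound k22_23_7_7) (by decide) hn t22_23_7_7_13 _ _ (by decide +kernel)

/-- certificates of the pair `(7, 7)`, part 14 -/
def t22_23_7_7_14 : BlkD.Tr :=
  .L 5 5 [4, 4, 22, 22, 22, 22, 22, 22] [146, 144, 138, 132, 126, 114] [] 100000 0 0 1600000 50000
    50000 50000 50000 0 0 0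

lemma s22_23_7_7_14 {n : ℕ} (hn : 7 ≤ n) : NoNd (d22_23_7_7.R : ℤ) d22_23_7_7.H n d22_23_7_7.a d22_23_7_7.b
    (BlkD.inB (BlkD.upd (BlkD.upd (BlkD.upd (BlkD.upd (fun _ => 0) 0 2) 0 3) 1 6) 1 7)
      (BlkD.upd (BlkD.upd (BlkD.upd (BlkD.upd (BlkD.upd (BlkD.upd (fun _ => 23) 0 7) 2 7) 0 3) 1 11) 1 8) 1 7)) :=
  BlkD.tree_sound (BlkD.pairOk_sound k22_23_7_7) (by decide) hn t22_23_7_7_14 _ _ (by decide +kernel)

/-- certificates of the pair `(7, 7)`, part 15 -/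
def t22_23_7_7_15 : BlkD.Tr :=
  .L 5 5 [4, 4, 22, 22, 22, 22, 22, 22] [168, 166, 164, 158, 152, 146] [] 100000 0 0 1600000 50000
    50000 50000 50000 0 0 0

lemma s22_23_7_7_15 {n : ℕ} (hn : 7 ≤ n) : NoNd (d22_23_7_7.R : ℤ) d22_23_7_7.H n d22_23_7_7.a d22_23_7_7.b
    (BlkD.inB (BlkD.upd (BlkD.upd (BlkD.upd (BlkD.upd (fun _ => 0) 0 2) 0 3) 1 6) 1 8)
      (BlkD.upd (BlkD.upd (BlkD.upd (BlkD.upd (BlkD.upd (fun _ => 23) 0 7) 2 7) 0 3) 1 11) 1 8)) :=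
  BlkD.tree_sound (BlkD.pairOk_sound k22_23_7_7) (by decide) hn t22_23_7_7_15 _ _ (by decide +kernel)

/-- certificates of the pair `(7, 7)`, part 16 -/
def t22_23_7_7_16 : BlkD.Tr :=
  .L 5 5 [4, 4, 22, 22, 22, 22, 22, 22] [] [] 100000 0 0 1600000 50000 50000 50000 50000 0 0 0

lemma s22_23_7_7_16 {n : ℕ} (hn : 7 ≤ n) : NoNd (d22_23_7_7.R : ℤ) d22_23_7_7.H n d22_23_7_7.a d22_23_7_7.b
    (BlkD.inB (BlkD.upd (BlkD.upd (BlkD.upd (BlkD.upd (fun _ => 0) 0 2) 0 3) 1 6) 1 9)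
      (BlkD.upd (BlkD.upd (BlkD.upd (BlkD.upd (fun _ => 23) 0 7) 2 7) 0 3) 1 11)) :=
  BlkD.tree_sound (BlkD.pairOk_sound k22_23_7_7) (by decide) hn t22_23_7_7_16 _ _ (by decide +kernel)

/-- certificates of the pair `(7, 7)`, part 17 -/
def t22_23_7_7_17 : BlkD.Tr :=
  .L 5 5 [4, 4, 22, 22, 22, 22, 22, 22] [] [] 100000 0 0 1600000 50000 50000 50000 50000 0 0 0

lemma s22_23_7_7_17 {n : ℕ} (hn : 7 ≤ n) : NoNd (d22_23_7_7.R : ℤ) d22_23_7_7.H n d22_23_7_7.a d22_23_7_7.b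
    (BlkD.inB (BlkD.upd (BlkD.upd (BlkD.upd (fun _ => 0) 0 2) 0 3) 1 12)
      (BlkD.upd (BlkD.upd (BlkD.upd (fun _ => 23) 0 7) 2 7) 0 3)) :=
  BlkD.tree_sound (BlkD.pairOk_sound k22_23_7_7) (by decide) hn t22_23_7_7_17 _ _ (by decide +kernel)

/-- certificates of the pair `(7, 7)`, part 18 -/
def t22_23_7_7_18 : BlkD.Tr :=
  .L 5 5 [4, 4, 22, 22, 22, 22, 22, 22] [] [] 100000 0 0 1600000 50000 50000 50000 50000 0 0 0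

lemma s22_23_7_7_18 {n : ℕ} (hn : 7 ≤ n) : NoNd (d22_23_7_7.R : ℤ) d22_23_7_7.H n d22_23_7_7.a d22_23_7_7.b
    (BlkD.inB (BlkD.upd (fun _ => 0) 0 4)
      (BlkD.upd (BlkD.upd (BlkD.upd (BlkD.upd (BlkD.upd (BlkD.upd (BlkD.upd (fun _ => 23) 0 7) 2 7) 0 5) 0 4) 1 11) 1 5) 1 2)) :=
  BlkD.tree_sound (BlkD.pairOk_sound k22_23_7_7) (by decide) hn t22_23_7_7_18 _ _ (by decide +kernel)

/-- certificates of the pair `(7, 7)`, part 19 -/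
def t22_23_7_7_19 : BlkD.Tr :=
  .S 1 4 (.L 5 5 [4, 4, 22, 22, 22, 22, 22, 22] [] [] 100000 0 0 1600000 50000 50000 50000 50000 0
    0 0) (.L 5 5 [4, 4, 22, 22, 22, 22, 22, 22] [114, 108, 102, 90, 76, 60] [] 100000 0 0 1600000
    50000 50000 50000 50000 0 0 0)

lemma s22_23_7_7_19 {n : ℕ} (hn : 7 ≤ n) : NoNd (d22_23_7_7.R : ℤ) d22_23_7_7.H n d22_23_7_7.a d22_23_7_7.b
    (BlkD.inB (BlkD.upd (BlkD.upd (fun _ => 0) 0 4) 1 3)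
      (BlkD.upd (BlkD.upd (BlkD.upd (BlkD.upd (BlkD.upd (BlkD.upd (fun _ => 23) 0 7) 2 7) 0 5) 0 4) 1 11) 1 5)) :=
  BlkD.tree_sound (BlkD.pairOk_sound k22_23_7_7) (by decide) hn t22_23_7_7_19 _ _ (by decide +kernel)

/-- certificates of the pair `(7, 7)`, part 20 -/
def t22_23_7_7_20 : BlkD.Tr :=
  .L 5 5 [4, 4, 22, 22, 22, 22, 22, 22] [] [] 100000 0 0 1600000 50000 50000 50000 50000 0 0 0

lemma s22_23_7_7_20 {n : ℕ} (hn : 7 ≤ n) : NoNd (d22_23_7_7.R : ℤ) d22_23_7_7.H n d22_23_7_7.a d22_23_7_7.b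
    (BlkD.inB (BlkD.upd (BlkD.upd (fun _ => 0) 0 4) 1 6)
      (BlkD.upd (BlkD.upd (BlkD.upd (BlkD.upd (BlkD.upd (fun _ => 23) 0 7) 2 7) 0 5) 0 4) 1 11)) :=
  BlkD.tree_sound (BlkD.pairOk_sound k22_23_7_7) (by decide) hn t22_23_7_7_20 _ _ (by decide +kernel)

/-- certificates of the pair `(7, 7)`, part 21 -/
def t22_23_7_7_21 : BlkD.Tr :=
  .L 5 5 [4, 4, 22, 22, 22, 22, 22, 22] [] [] 100000 0 0 1600000 50000 50000 50000 50000 0 0 0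

lemma s22_23_7_7_21 {n : ℕ} (hn : 7 ≤ n) : NoNd (d22_23_7_7.R : ℤ) d22_23_7_7.H n d22_23_7_7.a d22_23_7_7.b
    (BlkD.inB (BlkD.upd (BlkD.upd (fun _ => 0) 0 4) 1 12)
      (BlkD.upd (BlkD.upd (BlkD.upd (BlkD.upd (fun _ => 23) 0 7) 2 7) 0 5) 0 4)) :=
  BlkD.tree_sound (BlkD.pairOk_sound k22_23_7_7) (by decide) hn t22_23_7_7_21 _ _ (by decide +kernel)

/-- certificates of the pair `(7, 7)`, part 22 -/
def t22_23_7_7_22 : BlkD.Tr :=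
  .S 1 11 (.S 1 5 (.S 1 2 (.L 5 5 [4, 4, 22, 22, 22, 22, 22, 22] [] [] 100000 0 0 1600000 50000
    50000 50000 50000 0 0 0) (.L 5 5 [4, 4, 22, 22, 22, 22, 22, 22] [] [] 100000 0 0 1600000 50000
    50000 50000 50000 0 0 0)) (.L 5 5 [4, 4, 22, 22, 22, 22, 22, 22] [] [] 100000 0 0 1600000 50000
    50000 50000 50000 0 0 0)) (.L 5 5 [4, 4, 22, 22, 22, 22, 22, 22] [] [] 100000 0 0 1600000 50000
    50000 50000 50000 0 0 0)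

lemma s22_23_7_7_22 {n : ℕ} (hn : 7 ≤ n) : NoNd (d22_23_7_7.R : ℤ) d22_23_7_7.H n d22_23_7_7.a d22_23_7_7.b
    (BlkD.inB (BlkD.upd (BlkD.upd (fun _ => 0) 0 4) 0 5)
      (BlkD.upd (BlkD.upd (BlkD.upd (fun _ => 23) 0 7) 2 7) 0 5)) :=
  BlkD.tree_sound (BlkD.pairOk_sound k22_23_7_7) (by decide) hn t22_23_7_7_22 _ _ (by decide +kernel)

/-- certificates of the pair `(7, 7)`, part 23 -/
def t22_23_7_7_23 : BlkD.Tr :=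
  .L 5 5 [4, 4, 22, 22, 22, 22, 22, 22] [] [] 100000 0 0 1600000 50000 50000 50000 50000 0 0 0

lemma s22_23_7_7_23 {n : ℕ} (hn : 7 ≤ n) : NoNd (d22_23_7_7.R : ℤ) d22_23_7_7.H n d22_23_7_7.a d22_23_7_7.b
    (BlkD.inB (BlkD.upd (BlkD.upd (fun _ => 0) 0 4) 0 6)
      (BlkD.upd (BlkD.upd (fun _ => 23) 0 7) 2 7)) :=
  BlkD.tree_sound (BlkD.pairOk_sound k22_23_7_7) (by decide) hn t22_23_7_7_23 _ _ (by decide +kernel)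

/-- certificates of the pair `(7, 7)`, part 24 -/
def t22_23_7_7_24 : BlkD.Tr :=
  .E 1

lemma s22_23_7_7_24 {n : ℕ} (hn : 7 ≤ n) : NoNd (d22_23_7_7.R : ℤ) d22_23_7_7.H n d22_23_7_7.a d22_23_7_7.b
    (BlkD.inB (BlkD.upd (fun _ => 0) 2 8)
      (BlkD.upd (fun _ => 23) 0 7)) :=
  BlkD.tree_sound (BlkD.pairOk_sound k22_23_7_7) (by decide) hn t22_23_7_7_24 _ _ (by decide +kernel)

/-- certificates of the pair `(7, 7)`, part 25 -/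
def t22_23_7_7_25 : BlkD.Tr :=
  .E 0

lemma s22_23_7_7_25 {n : ℕ} (hn : 7 ≤ n) : NoNd (d22_23_7_7.R : ℤ) d22_23_7_7.H n d22_23_7_7.a d22_23_7_7.b
    (BlkD.inB (BlkD.upd (fun _ => 0) 0 8)
      (fun _ => 23)) :=
  BlkD.tree_sound (BlkD.pairOk_sound k22_23_7_7) (by decide) hn t22_23_7_7_25 _ _ (by decide +kernel)

lemma pr22_23_7_7 {n : ℕ} (hn : 7 ≤ n) : NoPr ((22 : ℕ) : ℤ) ((23 : ℕ) : ℤ) n 7 7 :=
  BlkD.of_root (R := d22_23_7_7.R) (H := d22_23_7_7.H) (a := d22_23_7_7.a) (b := d22_23_7_7.b) (q := 5) (by decide) hn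
    (BlkD.sp 0 7 (BlkD.sp 2 7 (BlkD.sp 0 3 (BlkD.sp 0 1 (BlkD.sp 0 0 (s22_23_7_7_1 hn) (BlkD.sp 1
      11 (BlkD.sp 1 5 (s22_23_7_7_2 hn) (BlkD.sp 1 8 (s22_23_7_7_3 hn) (s22_23_7_7_4 hn)))
      (s22_23_7_7_5 hn))) (BlkD.sp 0 2 (BlkD.sp 1 11 (BlkD.sp 1 5 (s22_23_7_7_6 hn) (BlkD.sp 1 8
      (BlkD.sp 1 7 (s22_23_7_7_7 hn) (s22_23_7_7_8 hn)) (s22_23_7_7_9 hn))) (s22_23_7_7_10 hn))
      (BlkD.sp 1 11 (BlkD.sp 1 5 (BlkD.sp 1 2 (s22_23_7_7_11 hn) (s22_23_7_7_12 hn)) (BlkD.sp 1 8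
      (BlkD.sp 1 7 (BlkD.sp 1 6 (s22_23_7_7_13 hn) (s22_23_7_7_14 hn)) (s22_23_7_7_15 hn))
      (s22_23_7_7_16 hn))) (s22_23_7_7_17 hn)))) (BlkD.sp 0 5 (BlkD.sp 0 4 (BlkD.sp 1 11 (BlkD.sp 1
      5 (BlkD.sp 1 2 (s22_23_7_7_18 hn) (s22_23_7_7_19 hn)) (s22_23_7_7_20 hn)) (s22_23_7_7_21 hn))
      (s22_23_7_7_22 hn)) (s22_23_7_7_23 hn))) (s22_23_7_7_24 hn)) (s22_23_7_7_25 hn))

/-- the numbers of the pair `(8, 0)`, `R = 22`, `H = 23` -/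
def d22_23_8_0 : BlkD.Pd :=
  ⟨22, 23, 5, 8, 0, 12, 0, 1, 0, 4, 4, 0, 0, 4, 4, 0, [0, 4, 8, 12, 16, 20, 24, 28, 32, 36, 40, 44,
    48], [0, 4, 8, 12, 16, 20, 24, 28, 32, 36, 40, 44, 48], [⟨1, 1, 1, 4, 8, [0, 4], [0, 4]⟩]⟩

/-- the certificates of the pair `(8, 0)` -/
def t22_23_8_0 : BlkD.Tr :=
  .S 0 8 (.S 2 0 (.S 0 4 (.S 0 2 (.L 4 4 [4] [] [] 100000 0 0 900000 50000 0 50000 50000 0 0 0) (.L
    4 4 [4] [] [] 100000 0 0 900000 50000 0 50000 50000 0 0 0)) (.L 4 4 [4] [] [] 100000 0 0 900000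
    50000 0 50000 50000 0 0 0)) (.E 1)) (.E 0)

lemma pr22_23_8_0 {n : ℕ} (hn : 7 ≤ n) : NoPr ((22 : ℕ) : ℤ) ((23 : ℕ) : ℤ) n 8 0 :=
  BlkD.pair_sound (d := d22_23_8_0) (by decide +kernel) hn (by decide) (tr := t22_23_8_0)
    (by decide +kernel) rfl rfl rfl rfl

end BlkC

end Pool.Agent.Lib.MP_f04ccf_co
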