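import Pool.Agent.Lib.MP_f04ccf_co.M.BlkT

/-!
MP_f04ccf_co, block certificate, data `R = 22`, `H = 23`, part 11 (generated, helper99:
bd10.cpp, gen2.py).
-/

set_option autoImplicit false
set_option maxRecDepth 100000

namespace Pool.Agent.Lib.MP_f04ccf_co

namespace BlkC

/-- the numbers of the pair `(8, 1)`, `R = 22`, `H = 23` -/
def d22_23_8_1 : BlkD.Pd :=
  ⟨22, 23, 5, 8, 1, 11, 1, 1, 0, 4, 8, 0, 0, 4, 4, 0, [0, 8, 16, 24, 32, 40, 44, 44, 44, 44, 44,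
    44], [0, 4, 8, 12, 16, 20, 24, 28, 32, 36, 40, 44], [⟨1, 1, 1, 4, 8, [0, 4], [0, 4]⟩, ⟨1, 1, 1,
    4, 12, [0, 8], [0, 4]⟩]⟩

lemma k22_23_8_1 : BlkD.pairOk d22_23_8_1 = true := by decide +kernel

/-- certificates of the pair `(8, 1)`, part 1 -/
def t22_23_8_1_1 : BlkD.Tr :=
  .S 0 1 (.L 4 6 [4, 4] [] [] 100000 0 0 1050000 50000 0 75000 0 0 0 0) (.L 4 6 [4, 4] [] [] 100000
    0 0 1050000 50000 0 75000 0 0 0 0)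

lemma s22_23_8_1_1 {n : ℕ} (hn : 7 ≤ n) : NoNd (d22_23_8_1.R : ℤ) d22_23_8_1.H n d22_23_8_1.a d22_23_8_1.b
    (BlkD.inB (fun _ => 0)
      (BlkD.upd (BlkD.upd (BlkD.upd (BlkD.upd (fun _ => 23) 0 8) 2 1) 0 4) 0 2)) :=
  BlkD.tree_sound (BlkD.pairOk_sound k22_23_8_1) (by decide) hn t22_23_8_1_1 _ _ (by decide +kernel)

/-- certificates of the pair `(8, 1)`, part 2 -/
def t22_23_8_1_2 : BlkD.Tr :=
  .L 4 6 [4, 4] [] [] 100000 0 0 1050000 50000 0 75000 0 0 0 0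

lemma s22_23_8_1_2 {n : ℕ} (hn : 7 ≤ n) : NoNd (d22_23_8_1.R : ℤ) d22_23_8_1.H n d22_23_8_1.a d22_23_8_1.b
    (BlkD.inB (BlkD.upd (fun _ => 0) 0 3)
      (BlkD.upd (BlkD.upd (BlkD.upd (fun _ => 23) 0 8) 2 1) 0 4)) :=
  BlkD.tree_sound (BlkD.pairOk_sound k22_23_8_1) (by decide) hn t22_23_8_1_2 _ _ (by decide +kernel)

/-- certificates of the pair `(8, 1)`, part 3 -/
def t22_23_8_1_3 : BlkD.Tr :=
  .L 4 6 [4, 4] [] [] 100000 0 0 1050000 50000 0 75000 0 0 0 0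

lemma s22_23_8_1_3 {n : ℕ} (hn : 7 ≤ n) : NoNd (d22_23_8_1.R : ℤ) d22_23_8_1.H n d22_23_8_1.a d22_23_8_1.b
    (BlkD.inB (BlkD.upd (fun _ => 0) 0 5)
      (BlkD.upd (BlkD.upd (fun _ => 23) 0 8) 2 1)) :=
  BlkD.tree_sound (BlkD.pairOk_sound k22_23_8_1) (by decide) hn t22_23_8_1_3 _ _ (by decide +kernel)

/-- certificates of the pair `(8, 1)`, part 4 -/
def t22_23_8_1_4 : BlkD.Tr :=
  .E 1

lemma s22_23_8_1_4 {n : ℕ} (hn : 7 ≤ n) : NoNd (d22_23_8_1.R : ℤ) d22_23_8_1.H n d22_23_8_1.a d22_23_8_1.b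
    (BlkD.inB (BlkD.upd (fun _ => 0) 2 2)
      (BlkD.upd (fun _ => 23) 0 8)) :=
  BlkD.tree_sound (BlkD.pairOk_sound k22_23_8_1) (by decide) hn t22_23_8_1_4 _ _ (by decide +kernel)

/-- certificates of the pair `(8, 1)`, part 5 -/
def t22_23_8_1_5 : BlkD.Tr :=
  .E 0

lemma s22_23_8_1_5 {n : ℕ} (hn : 7 ≤ n) : NoNd (d22_23_8_1.R : ℤ) d22_23_8_1.H n d22_23_8_1.a d22_23_8_1.b
    (BlkD.inB (BlkD.upd (fun _ => 0) 0 9)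
      (fun _ => 23)) :=
  BlkD.tree_sound (BlkD.pairOk_sound k22_23_8_1) (by decide) hn t22_23_8_1_5 _ _ (by decide +kernel)

lemma pr22_23_8_1 {n : ℕ} (hn : 7 ≤ n) : NoPr ((22 : ℕ) : ℤ) ((23 : ℕ) : ℤ) n 8 1 :=
  BlkD.of_root (R := d22_23_8_1.R) (H := d22_23_8_1.H) (a := d22_23_8_1.a) (b := d22_23_8_1.b) (q := 5) (by decide) hn
    (BlkD.sp 0 8 (BlkD.sp 2 1 (BlkD.sp 0 4 (BlkD.sp 0 2 (s22_23_8_1_1 hn) (s22_23_8_1_2 hn))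
      (s22_23_8_1_3 hn)) (s22_23_8_1_4 hn)) (s22_23_8_1_5 hn))

/-- the numbers of the pair `(8, 2)`, `R = 22`, `H = 23` -/
def d22_23_8_2 : BlkD.Pd :=
  ⟨22, 23, 5, 8, 2, 10, 2, 1, 0, 4, 10, 0, 0, 4, 6, 0, [0, 10, 20, 30, 40, 40, 40, 40, 40, 40, 40],
    [0, 6, 12, 18, 24, 30, 36, 40, 40, 40, 40], [⟨1, 1, 1, 4, 8, [0, 4], [0, 4]⟩, ⟨1, 1, 1, 4, 12,
    [0, 8], [0, 4]⟩, ⟨1, 1, 1, 6, 16, [0, 10], [0, 6]⟩]⟩

lemma k22_23_8_2 : BlkD.pairOk d22_23_8_2 = true := by decide +kernel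

/-- certificates of the pair `(8, 2)`, part 1 -/
def t22_23_8_2_1 : BlkD.Tr :=
  .S 0 0 (.L 4 6 [4, 4, 5] [] [] 100000 0 0 1273336 21111 0 64444 6667 2222 33333 33333) (.S 1 11
    (.S 1 5 (.L 4 6 [4, 4, 5] [] [] 100000 0 0 1273336 21111 0 64444 6667 2222 33333 33333) (.L 4 6
    [4, 4, 5] [] [] 100000 0 0 1273336 21111 0 64444 6667 2222 33333 33333)) (.L 4 6 [4, 4, 5] []
    [] 100000 0 0 1273336 21111 0 64444 6667 2222 33333 33333))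

lemma s22_23_8_2_1 {n : ℕ} (hn : 7 ≤ n) : NoNd (d22_23_8_2.R : ℤ) d22_23_8_2.H n d22_23_8_2.a d22_23_8_2.b
    (BlkD.inB (fun _ => 0)
      (BlkD.upd (BlkD.upd (BlkD.upd (BlkD.upd (BlkD.upd (fun _ => 23) 0 8) 2 2) 0 4) 0 2) 0 1)) :=
  BlkD.tree_sound (BlkD.pairOk_sound k22_23_8_2) (by decide) hn t22_23_8_2_1 _ _ (by decide +kernel)

/-- certificates of the pair `(8, 2)`, part 2 -/
def t22_23_8_2_2 : BlkD.Tr :=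
  .S 1 11 (.L 4 6 [4, 4, 5] [] [] 100000 0 0 1273336 21111 0 64444 6667 2222 33333 33333) (.L 4 6
    [4, 4, 5] [] [] 100000 0 0 1273336 21111 0 64444 6667 2222 33333 33333)

lemma s22_23_8_2_2 {n : ℕ} (hn : 7 ≤ n) : NoNd (d22_23_8_2.R : ℤ) d22_23_8_2.H n d22_23_8_2.a d22_23_8_2.b
    (BlkD.inB (BlkD.upd (fun _ => 0) 0 2)
      (BlkD.upd (BlkD.upd (BlkD.upd (BlkD.upd (fun _ => 23) 0 8) 2 2) 0 4) 0 2)) :=
  BlkD.tree_sound (BlkD.pairOk_sound k22_23_8_2) (by decide) hn t22_23_8_2_2 _ _ (by decide +kernel)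

/-- certificates of the pair `(8, 2)`, part 3 -/
def t22_23_8_2_3 : BlkD.Tr :=
  .S 0 3 (.L 4 6 [4, 4, 5] [] [] 100000 0 0 1273336 21111 0 64444 6667 2222 33333 33333) (.L 4 6
    [4, 4, 5] [] [] 100000 0 0 1273336 21111 0 64444 6667 2222 33333 33333)

lemma s22_23_8_2_3 {n : ℕ} (hn : 7 ≤ n) : NoNd (d22_23_8_2.R : ℤ) d22_23_8_2.H n d22_23_8_2.a d22_23_8_2.b
    (BlkD.inB (BlkD.upd (fun _ => 0) 0 3)
      (BlkD.upd (BlkD.upd (BlkD.upd (fun _ => 23) 0 8) 2 2) 0 4)) :=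
  BlkD.tree_sound (BlkD.pairOk_sound k22_23_8_2) (by decide) hn t22_23_8_2_3 _ _ (by decide +kernel)

/-- certificates of the pair `(8, 2)`, part 4 -/
def t22_23_8_2_4 : BlkD.Tr :=
  .L 4 6 [4, 4, 5] [] [] 100000 0 0 1273336 21111 0 64444 6667 2222 33333 33333

lemma s22_23_8_2_4 {n : ℕ} (hn : 7 ≤ n) : NoNd (d22_23_8_2.R : ℤ) d22_23_8_2.H n d22_23_8_2.a d22_23_8_2.b
    (BlkD.inB (BlkD.upd (fun _ => 0) 0 5)
      (BlkD.upd (BlkD.upd (fun _ => 23) 0 8) 2 2)) :=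
  BlkD.tree_sound (BlkD.pairOk_sound k22_23_8_2) (by decide) hn t22_23_8_2_4 _ _ (by decide +kernel)

/-- certificates of the pair `(8, 2)`, part 5 -/
def t22_23_8_2_5 : BlkD.Tr :=
  .E 1

lemma s22_23_8_2_5 {n : ℕ} (hn : 7 ≤ n) : NoNd (d22_23_8_2.R : ℤ) d22_23_8_2.H n d22_23_8_2.a d22_23_8_2.b
    (BlkD.inB (BlkD.upd (fun _ => 0) 2 3)
      (BlkD.upd (fun _ => 23) 0 8)) :=
  BlkD.tree_sound (BlkD.pairOk_sound k22_23_8_2) (by decide) hn t22_23_8_2_5 _ _ (by decide +kernel)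

/-- certificates of the pair `(8, 2)`, part 6 -/
def t22_23_8_2_6 : BlkD.Tr :=
  .E 0

lemma s22_23_8_2_6 {n : ℕ} (hn : 7 ≤ n) : NoNd (d22_23_8_2.R : ℤ) d22_23_8_2.H n d22_23_8_2.a d22_23_8_2.b
    (BlkD.inB (BlkD.upd (fun _ => 0) 0 9)
      (fun _ => 23)) :=
  BlkD.tree_sound (BlkD.pairOk_sound k22_23_8_2) (by decide) hn t22_23_8_2_6 _ _ (by decide +kernel)

lemma pr22_23_8_2 {n : ℕ} (hn : 7 ≤ n) : NoPr ((22 : ℕ) : ℤ) ((23 : ℕ) : ℤ) n 8 2 :=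
  BlkD.of_root (R := d22_23_8_2.R) (H := d22_23_8_2.H) (a := d22_23_8_2.a) (b := d22_23_8_2.b) (q := 5) (by decide) hn
    (BlkD.sp 0 8 (BlkD.sp 2 2 (BlkD.sp 0 4 (BlkD.sp 0 2 (BlkD.sp 0 1 (s22_23_8_2_1 hn)
      (s22_23_8_2_2 hn)) (s22_23_8_2_3 hn)) (s22_23_8_2_4 hn)) (s22_23_8_2_5 hn)) (s22_23_8_2_6
      hn))

end BlkC

end Pool.Agent.Lib.MP_f04ccf_co
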