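import Pool.Agent.Lib.MP_f04ccf_co.M.BlkT

/-!
MP_f04ccf_co, block certificate, data `R = 22`, `H = 23`, part 12 (generated, helper99:
bd10.cpp, gen2.py).
-/

set_option autoImplicit false
set_option maxRecDepth 100000

namespace Pool.Agent.Lib.MP_f04ccf_co

namespace BlkC

/-- the numbers of the pair `(8, 3)`, `R = 22`, `H = 23` -/
def d22_23_8_3 : BlkD.Pd :=
  ⟨22, 23, 5, 8, 3, 9, 3, 2, 1, 4, 12, 0, 4, 1, 8, 0, [0, 12, 24, 36, 40, 41, 42, 43, 44, 45], [0,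
    8, 16, 21, 25, 29, 33, 37, 41, 45], [⟨1, 1, 1, 4, 8, [0, 4], [0, 4]⟩, ⟨1, 1, 1, 6, 14, [0, 8],
    [0, 6]⟩, ⟨1, 1, 1, 6, 16, [0, 10], [0, 6]⟩, ⟨2, 1, 1, 6, 26, [0, 12, 18], [0, 8]⟩]⟩

lemma k22_23_8_3 : BlkD.pairOk d22_23_8_3 = true := by decide +kernel

/-- certificates of the pair `(8, 3)`, part 1 -/
def t22_23_8_3_1 : BlkD.Tr :=
  .L 5 7 [4, 4, 5, 5] [] [] 100000 113638 113638 845453 86364 0 95455 36364 0 0 15909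

lemma s22_23_8_3_1 {n : ℕ} (hn : 7 ≤ n) : NoNd (d22_23_8_3.R : ℤ) d22_23_8_3.H n d22_23_8_3.a d22_23_8_3.b
    (BlkD.inB (fun _ => 0)
      (BlkD.upd (BlkD.upd (BlkD.upd (BlkD.upd (BlkD.upd (BlkD.upd (fun _ => 23) 0 8) 2 3) 0 4) 0 2) 0 1) 0 0)) :=
  BlkD.tree_sound (BlkD.pairOk_sound k22_23_8_3) (by decide) hn t22_23_8_3_1 _ _ (by decide +kernel)

/-- certificates of the pair `(8, 3)`, part 2 -/
def t22_23_8_3_2 : BlkD.Tr :=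
  .L 5 7 [4, 4, 5, 5] [] [] 100000 113638 113638 845453 86364 0 95455 36364 0 0 15909

lemma s22_23_8_3_2 {n : ℕ} (hn : 7 ≤ n) : NoNd (d22_23_8_3.R : ℤ) d22_23_8_3.H n d22_23_8_3.a d22_23_8_3.b
    (BlkD.inB (BlkD.upd (fun _ => 0) 0 1)
      (BlkD.upd (BlkD.upd (BlkD.upd (BlkD.upd (BlkD.upd (BlkD.upd (BlkD.upd (fun _ => 23) 0 8) 2 3) 0 4) 0 2) 0 1) 1 11) 1 5)) :=
  BlkD.tree_sound (BlkD.pairOk_sound k22_23_8_3) (by decide) hn t22_23_8_3_2 _ _ (by decide +kernel)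

/-- certificates of the pair `(8, 3)`, part 3 -/
def t22_23_8_3_3 : BlkD.Tr :=
  .S 1 8 (.L 5 7 [4, 4, 5, 5] [] [] 100000 113638 113638 845453 86364 0 95455 36364 0 0 15909) (.L
    5 7 [4, 4, 5, 5] [] [] 100000 113638 113638 845453 86364 0 95455 36364 0 0 15909)

lemma s22_23_8_3_3 {n : ℕ} (hn : 7 ≤ n) : NoNd (d22_23_8_3.R : ℤ) d22_23_8_3.H n d22_23_8_3.a d22_23_8_3.b
    (BlkD.inB (BlkD.upd (BlkD.upd (fun _ => 0) 0 1) 1 6)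
      (BlkD.upd (BlkD.upd (BlkD.upd (BlkD.upd (BlkD.upd (BlkD.upd (fun _ => 23) 0 8) 2 3) 0 4) 0 2) 0 1) 1 11)) :=
  BlkD.tree_sound (BlkD.pairOk_sound k22_23_8_3) (by decide) hn t22_23_8_3_3 _ _ (by decide +kernel)

/-- certificates of the pair `(8, 3)`, part 4 -/
def t22_23_8_3_4 : BlkD.Tr :=
  .L 5 7 [4, 4, 5, 5] [] [] 100000 113638 113638 845453 86364 0 95455 36364 0 0 15909

lemma s22_23_8_3_4 {n : ℕ} (hn : 7 ≤ n) : NoNd (d22_23_8_3.R : ℤ) d22_23_8_3.H n d22_23_8_3.a d22_23_8_3.b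
    (BlkD.inB (BlkD.upd (BlkD.upd (fun _ => 0) 0 1) 1 12)
      (BlkD.upd (BlkD.upd (BlkD.upd (BlkD.upd (BlkD.upd (fun _ => 23) 0 8) 2 3) 0 4) 0 2) 0 1)) :=
  BlkD.tree_sound (BlkD.pairOk_sound k22_23_8_3) (by decide) hn t22_23_8_3_4 _ _ (by decide +kernel)

/-- certificates of the pair `(8, 3)`, part 5 -/
def t22_23_8_3_5 : BlkD.Tr :=
  .L 5 7 [4, 4, 5, 5] [] [] 100000 113638 113638 845453 86364 0 95455 36364 0 0 15909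

lemma s22_23_8_3_5 {n : ℕ} (hn : 7 ≤ n) : NoNd (d22_23_8_3.R : ℤ) d22_23_8_3.H n d22_23_8_3.a d22_23_8_3.b
    (BlkD.inB (BlkD.upd (fun _ => 0) 0 2)
      (BlkD.upd (BlkD.upd (BlkD.upd (BlkD.upd (BlkD.upd (BlkD.upd (fun _ => 23) 0 8) 2 3) 0 4) 0 2) 1 11) 1 5)) :=
  BlkD.tree_sound (BlkD.pairOk_sound k22_23_8_3) (by decide) hn t22_23_8_3_5 _ _ (by decide +kernel)

/-- certificates of the pair `(8, 3)`, part 6 -/
def t22_23_8_3_6 : BlkD.Tr :=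
  .L 5 7 [4, 4, 5, 5] [] [] 100000 113638 113638 845453 86364 0 95455 36364 0 0 15909

lemma s22_23_8_3_6 {n : ℕ} (hn : 7 ≤ n) : NoNd (d22_23_8_3.R : ℤ) d22_23_8_3.H n d22_23_8_3.a d22_23_8_3.b
    (BlkD.inB (BlkD.upd (BlkD.upd (fun _ => 0) 0 2) 1 6)
      (BlkD.upd (BlkD.upd (BlkD.upd (BlkD.upd (BlkD.upd (BlkD.upd (fun _ => 23) 0 8) 2 3) 0 4) 0 2) 1 11) 1 8)) :=
  BlkD.tree_sound (BlkD.pairOk_sound k22_23_8_3) (by decide) hn t22_23_8_3_6 _ _ (by decide +kernel)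

/-- certificates of the pair `(8, 3)`, part 7 -/
def t22_23_8_3_7 : BlkD.Tr :=
  .L 5 7 [4, 4, 5, 5] [] [] 100000 113638 113638 845453 86364 0 95455 36364 0 0 15909

lemma s22_23_8_3_7 {n : ℕ} (hn : 7 ≤ n) : NoNd (d22_23_8_3.R : ℤ) d22_23_8_3.H n d22_23_8_3.a d22_23_8_3.b
    (BlkD.inB (BlkD.upd (BlkD.upd (BlkD.upd (fun _ => 0) 0 2) 1 6) 1 9)
      (BlkD.upd (BlkD.upd (BlkD.upd (BlkD.upd (BlkD.upd (fun _ => 23) 0 8) 2 3) 0 4) 0 2) 1 11)) :=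
  BlkD.tree_sound (BlkD.pairOk_sound k22_23_8_3) (by decide) hn t22_23_8_3_7 _ _ (by decide +kernel)

/-- certificates of the pair `(8, 3)`, part 8 -/
def t22_23_8_3_8 : BlkD.Tr :=
  .L 5 7 [4, 4, 5, 5] [] [] 100000 113638 113638 845453 86364 0 95455 36364 0 0 15909

lemma s22_23_8_3_8 {n : ℕ} (hn : 7 ≤ n) : NoNd (d22_23_8_3.R : ℤ) d22_23_8_3.H n d22_23_8_3.a d22_23_8_3.b
    (BlkD.inB (BlkD.upd (BlkD.upd (fun _ => 0) 0 2) 1 12)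
      (BlkD.upd (BlkD.upd (BlkD.upd (BlkD.upd (fun _ => 23) 0 8) 2 3) 0 4) 0 2)) :=
  BlkD.tree_sound (BlkD.pairOk_sound k22_23_8_3) (by decide) hn t22_23_8_3_8 _ _ (by decide +kernel)

/-- certificates of the pair `(8, 3)`, part 9 -/
def t22_23_8_3_9 : BlkD.Tr :=
  .L 5 7 [4, 4, 5, 5] [] [] 100000 50000 50000 1000000 50000 0 50000 50000 0 0 0

lemma s22_23_8_3_9 {n : ℕ} (hn : 7 ≤ n) : NoNd (d22_23_8_3.R : ℤ) d22_23_8_3.H n d22_23_8_3.a d22_23_8_3.b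
    (BlkD.inB (BlkD.upd (fun _ => 0) 0 3)
      (BlkD.upd (BlkD.upd (BlkD.upd (BlkD.upd (BlkD.upd (BlkD.upd (BlkD.upd (fun _ => 23) 0 8) 2 3) 0 4) 0 3) 1 20) 1 10) 1 5)) :=
  BlkD.tree_sound (BlkD.pairOk_sound k22_23_8_3) (by decide) hn t22_23_8_3_9 _ _ (by decide +kernel)

/-- certificates of the pair `(8, 3)`, part 10 -/
def t22_23_8_3_10 : BlkD.Tr :=
  .S 1 8 (.S 1 7 (.L 5 7 [4, 4, 5, 5] [] [] 100000 29269 29269 1224392 29268 0 29268 70732 0 17073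
    12195) (.L 5 7 [4, 4, 5, 5] [164, 163, 162, 158, 152, 140] [] 100000 48040 48040 1150003 50000
    0 55882 44118 0 11765 5882)) (.S 1 9 (.L 5 7 [4, 4, 5, 5] [187, 186, 185, 184, 180, 174] []
    100000 37500 37500 1175000 50000 0 62500 50000 0 12500 12500) (.L 5 7 [4, 4, 5, 5] [212, 211,
    210, 209, 208, 204] [] 100000 57144 57144 1071429 57143 0 100000 28571 0 0 14286))

lemma s22_23_8_3_10 {n : ℕ} (hn : 7 ≤ n) : NoNd (d22_23_8_3.R : ℤ) d22_23_8_3.H n d22_23_8_3.a d22_23_8_3.b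
    (BlkD.inB (BlkD.upd (BlkD.upd (fun _ => 0) 0 3) 1 6)
      (BlkD.upd (BlkD.upd (BlkD.upd (BlkD.upd (BlkD.upd (BlkD.upd (fun _ => 23) 0 8) 2 3) 0 4) 0 3) 1 20) 1 10)) :=
  BlkD.tree_sound (BlkD.pairOk_sound k22_23_8_3) (by decide) hn t22_23_8_3_10 _ _ (by decide +kernel)

/-- certificates of the pair `(8, 3)`, part 11 -/
def t22_23_8_3_11 : BlkD.Tr :=
  .S 1 15 (.S 1 13 (.S 1 12 (.S 1 11 (.L 5 7 [4, 4, 5, 5] [239, 238, 237, 236, 235, 234] [] 100000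
    64790 33804 885913 70423 0 130986 39437 0 0 8451) (.L 5 7 [4, 4, 5, 5] [268, 267, 266, 265,
    264, 263] [] 100000 133333 0 2 100000 0 233333 0 0 0 0)) (.E 0)) (.E 0)) (.E 0)

lemma s22_23_8_3_11 {n : ℕ} (hn : 7 ≤ n) : NoNd (d22_23_8_3.R : ℤ) d22_23_8_3.H n d22_23_8_3.a d22_23_8_3.b
    (BlkD.inB (BlkD.upd (BlkD.upd (fun _ => 0) 0 3) 1 11)
      (BlkD.upd (BlkD.upd (BlkD.upd (BlkD.upd (BlkD.upd (fun _ => 23) 0 8) 2 3) 0 4) 0 3) 1 20)) :=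
  BlkD.tree_sound (BlkD.pairOk_sound k22_23_8_3) (by decide) hn t22_23_8_3_11 _ _ (by decide +kernel)

/-- certificates of the pair `(8, 3)`, part 12 -/
def t22_23_8_3_12 : BlkD.Tr :=
  .E 0

lemma s22_23_8_3_12 {n : ℕ} (hn : 7 ≤ n) : NoNd (d22_23_8_3.R : ℤ) d22_23_8_3.H n d22_23_8_3.a d22_23_8_3.b
    (BlkD.inB (BlkD.upd (BlkD.upd (fun _ => 0) 0 3) 1 21)
      (BlkD.upd (BlkD.upd (BlkD.upd (BlkD.upd (fun _ => 23) 0 8) 2 3) 0 4) 0 3)) :=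
  BlkD.tree_sound (BlkD.pairOk_sound k22_23_8_3) (by decide) hn t22_23_8_3_12 _ _ (by decide +kernel)

/-- certificates of the pair `(8, 3)`, part 13 -/
def t22_23_8_3_13 : BlkD.Tr :=
  .L 5 7 [4, 4, 5, 5] [] [] 100000 28572 28572 1114287 28571 0 28571 71429 0 14286 14286

lemma s22_23_8_3_13 {n : ℕ} (hn : 7 ≤ n) : NoNd (d22_23_8_3.R : ℤ) d22_23_8_3.H n d22_23_8_3.a d22_23_8_3.b
    (BlkD.inB (BlkD.upd (BlkD.upd (fun _ => 0) 0 3) 0 4)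
      (BlkD.upd (BlkD.upd (BlkD.upd (BlkD.upd (BlkD.upd (BlkD.upd (fun _ => 23) 0 8) 2 3) 0 4) 1 19) 1 9) 1 4)) :=
  BlkD.tree_sound (BlkD.pairOk_sound k22_23_8_3) (by decide) hn t22_23_8_3_13 _ _ (by decide +kernel)

/-- certificates of the pair `(8, 3)`, part 14 -/
def t22_23_8_3_14 : BlkD.Tr :=
  .S 1 7 (.S 1 6 (.L 5 7 [4, 4, 5, 5] [] [] 100000 30000 30000 1250000 30000 0 30000 70000 0 20000
    15000) (.L 5 7 [4, 4, 5, 5] [157, 156, 152, 146, 134, 122] [] 100000 43548 43548 1214518 43548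
    0 67742 56452 0 11290 17742)) (.S 1 8 (.L 5 7 [4, 4, 5, 5] [180, 179, 178, 174, 168, 156] []
    100000 31482 31482 1272225 44444 0 66667 27778 0 16667 22222) (.L 5 7 [4, 4, 5, 5] [205, 204,
    203, 202, 198, 192] [] 100000 29630 29630 1200003 33333 0 100000 33333 0 11111 22222))

lemma s22_23_8_3_14 {n : ℕ} (hn : 7 ≤ n) : NoNd (d22_23_8_3.R : ℤ) d22_23_8_3.H n d22_23_8_3.a d22_23_8_3.b
    (BlkD.inB (BlkD.upd (BlkD.upd (BlkD.upd (fun _ => 0) 0 3) 0 4) 1 5)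
      (BlkD.upd (BlkD.upd (BlkD.upd (BlkD.upd (BlkD.upd (fun _ => 23) 0 8) 2 3) 0 4) 1 19) 1 9)) :=
  BlkD.tree_sound (BlkD.pairOk_sound k22_23_8_3) (by decide) hn t22_23_8_3_14 _ _ (by decide +kernel)

/-- certificates of the pair `(8, 3)`, part 15 -/
def t22_23_8_3_15 : BlkD.Tr :=
  .L 5 7 [4, 4, 5, 5] [] [] 100000 26308 26308 1279392 5152 0 100000 94848 0 21077 28571

lemma s22_23_8_3_15 {n : ℕ} (hn : 7 ≤ n) : NoNd (d22_23_8_3.R : ℤ) d22_23_8_3.H n d22_23_8_3.a d22_23_8_3.b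
    (BlkD.inB (BlkD.upd (BlkD.upd (BlkD.upd (fun _ => 0) 0 3) 0 4) 1 10)
      (BlkD.upd (BlkD.upd (BlkD.upd (BlkD.upd (fun _ => 23) 0 8) 2 3) 0 4) 1 19)) :=
  BlkD.tree_sound (BlkD.pairOk_sound k22_23_8_3) (by decide) hn t22_23_8_3_15 _ _ (by decide +kernel)

/-- certificates of the pair `(8, 3)`, part 16 -/
def t22_23_8_3_16 : BlkD.Tr :=
  .E 0

lemma s22_23_8_3_16 {n : ℕ} (hn : 7 ≤ n) : NoNd (d22_23_8_3.R : ℤ) d22_23_8_3.H n d22_23_8_3.a d22_23_8_3.b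
    (BlkD.inB (BlkD.upd (BlkD.upd (BlkD.upd (fun _ => 0) 0 3) 0 4) 1 20)
      (BlkD.upd (BlkD.upd (BlkD.upd (fun _ => 23) 0 8) 2 3) 0 4)) :=
  BlkD.tree_sound (BlkD.pairOk_sound k22_23_8_3) (by decide) hn t22_23_8_3_16 _ _ (by decide +kernel)

/-- certificates of the pair `(8, 3)`, part 17 -/
def t22_23_8_3_17 : BlkD.Tr :=
  .S 1 18 (.S 1 9 (.S 1 4 (.L 5 7 [4, 4, 5, 5] [] [] 100000 25000 25000 1225000 31250 0 31250 50000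
    0 25000 25000) (.S 1 7 (.S 1 6 (.S 1 5 (.L 5 7 [4, 4, 5, 5] [124, 118, 106, 94, 82, 70] []
    100000 27323 27323 1262297 34426 0 62295 37705 0 18033 27869) (.L 5 7 [4, 4, 5, 5] [148, 144,
    138, 126, 114, 102] [] 100000 27143 27143 1289886 35019 0 70038 35019 722 17127 20399)) (.L 5 7
    [4, 4, 5, 5] [171, 170, 166, 160, 148, 136] [] 100000 27938 27938 1247290 31186 0 98390 32797 0
    16186 19661)) (.L 5 7 [4, 4, 5, 5] [] [] 100000 26353 26353 1282723 5759 0 100000 94241 0 20942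
    27749))) (.E 0)) (.E 0)

lemma s22_23_8_3_17 {n : ℕ} (hn : 7 ≤ n) : NoNd (d22_23_8_3.R : ℤ) d22_23_8_3.H n d22_23_8_3.a d22_23_8_3.b
    (BlkD.inB (BlkD.upd (fun _ => 0) 0 5)
      (BlkD.upd (BlkD.upd (BlkD.upd (BlkD.upd (fun _ => 23) 0 8) 2 3) 0 6) 0 5)) :=
  BlkD.tree_sound (BlkD.pairOk_sound k22_23_8_3) (by decide) hn t22_23_8_3_17 _ _ (by decide +kernel)

/-- certificates of the pair `(8, 3)`, part 18 -/
def t22_23_8_3_18 : BlkD.Tr :=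
  .S 1 17 (.S 1 8 (.S 1 4 (.L 5 7 [4, 4, 5, 5] [] [] 100000 25705 25705 1270131 32468 0 81006 51461
    2110 18669 29870) (.S 1 6 (.L 5 7 [4, 4, 5, 5] [] [] 100000 16489 16489 1333482 20000 0 86518
    47857 13482 23571 25714) (.L 5 7 [4, 4, 5, 5] [] [] 100000 21121 8131 1150573 10457 0 112990
    44772 15582 21060 28571))) (.E 0)) (.E 0)

lemma s22_23_8_3_18 {n : ℕ} (hn : 7 ≤ n) : NoNd (d22_23_8_3.R : ℤ) d22_23_8_3.H n d22_23_8_3.a d22_23_8_3.b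
    (BlkD.inB (BlkD.upd (BlkD.upd (fun _ => 0) 0 5) 0 6)
      (BlkD.upd (BlkD.upd (BlkD.upd (fun _ => 23) 0 8) 2 3) 0 6)) :=
  BlkD.tree_sound (BlkD.pairOk_sound k22_23_8_3) (by decide) hn t22_23_8_3_18 _ _ (by decide +kernel)

/-- certificates of the pair `(8, 3)`, part 19 -/
def t22_23_8_3_19 : BlkD.Tr :=
  .S 0 7 (.S 1 16 (.S 1 8 (.S 1 4 (.L 5 7 [4, 4, 5, 5] [] [] 100000 18836 18836 1305263 31579 0
    90424 49342 9576 24342 26316) (.L 5 7 [4, 4, 5, 5] [] [] 100000 23077 20513 1194872 0 0 102564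
    50000 8547 22222 11111)) (.E 0)) (.E 0)) (.L 5 7 [4, 4, 5, 5] [] [] 100000 0 0 1306360 0 14124
    79520 31215 50000 34040 25000)

lemma s22_23_8_3_19 {n : ℕ} (hn : 7 ≤ n) : NoNd (d22_23_8_3.R : ℤ) d22_23_8_3.H n d22_23_8_3.a d22_23_8_3.b
    (BlkD.inB (BlkD.upd (BlkD.upd (fun _ => 0) 0 5) 0 7)
      (BlkD.upd (BlkD.upd (fun _ => 23) 0 8) 2 3)) :=
  BlkD.tree_sound (BlkD.pairOk_sound k22_23_8_3) (by decide) hn t22_23_8_3_19 _ _ (by decide +kernel)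

/-- certificates of the pair `(8, 3)`, part 20 -/
def t22_23_8_3_20 : BlkD.Tr :=
  .E 1

lemma s22_23_8_3_20 {n : ℕ} (hn : 7 ≤ n) : NoNd (d22_23_8_3.R : ℤ) d22_23_8_3.H n d22_23_8_3.a d22_23_8_3.b
    (BlkD.inB (BlkD.upd (fun _ => 0) 2 4)
      (BlkD.upd (fun _ => 23) 0 8)) :=
  BlkD.tree_sound (BlkD.pairOk_sound k22_23_8_3) (by decide) hn t22_23_8_3_20 _ _ (by decide +kernel)

/-- certificates of the pair `(8, 3)`, part 21 -/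
def t22_23_8_3_21 : BlkD.Tr :=
  .E 0

lemma s22_23_8_3_21 {n : ℕ} (hn : 7 ≤ n) : NoNd (d22_23_8_3.R : ℤ) d22_23_8_3.H n d22_23_8_3.a d22_23_8_3.b
    (BlkD.inB (BlkD.upd (fun _ => 0) 0 9)
      (fun _ => 23)) :=
  BlkD.tree_sound (BlkD.pairOk_sound k22_23_8_3) (by decide) hn t22_23_8_3_21 _ _ (by decide +kernel)

lemma pr22_23_8_3 {n : ℕ} (hn : 7 ≤ n) : NoPr ((22 : ℕ) : ℤ) ((23 : ℕ) : ℤ) n 8 3 :=
  BlkD.of_root (R := d22_23_8_3.R) (H := d22_23_8_3.H) (a := d22_23_8_3.a) (b := d22_23_8_3.b) (q := 5) (by decide) hn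
    (BlkD.sp 0 8 (BlkD.sp 2 3 (BlkD.sp 0 4 (BlkD.sp 0 2 (BlkD.sp 0 1 (BlkD.sp 0 0 (s22_23_8_3_1 hn)
      (BlkD.sp 1 11 (BlkD.sp 1 5 (s22_23_8_3_2 hn) (s22_23_8_3_3 hn)) (s22_23_8_3_4 hn))) (BlkD.sp
      1 11 (BlkD.sp 1 5 (s22_23_8_3_5 hn) (BlkD.sp 1 8 (s22_23_8_3_6 hn) (s22_23_8_3_7 hn)))
      (s22_23_8_3_8 hn))) (BlkD.sp 0 3 (BlkD.sp 1 20 (BlkD.sp 1 10 (BlkD.sp 1 5 (s22_23_8_3_9 hn)
      (s22_23_8_3_10 hn)) (s22_23_8_3_11 hn)) (s22_23_8_3_12 hn)) (BlkD.sp 1 19 (BlkD.sp 1 9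
      (BlkD.sp 1 4 (s22_23_8_3_13 hn) (s22_23_8_3_14 hn)) (s22_23_8_3_15 hn)) (s22_23_8_3_16 hn))))
      (BlkD.sp 0 6 (BlkD.sp 0 5 (s22_23_8_3_17 hn) (s22_23_8_3_18 hn)) (s22_23_8_3_19 hn)))
      (s22_23_8_3_20 hn)) (s22_23_8_3_21 hn))

end BlkC

end Pool.Agent.Lib.MP_f04ccf_co
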