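import Pool.Agent.Lib.MP_f04ccf_co.M.BlkT

/-!
MP_f04ccf_co, block certificate, data `R = 22`, `H = 23`, part 13 (generated, helper99:
bd10.cpp, gen2.py).
-/

set_option autoImplicit false
set_option maxRecDepth 100000

namespace Pool.Agent.Lib.MP_f04ccf_co

namespace BlkC

/-- the numbers of the pair `(8, 4)`, `R = 22`, `H = 23` -/
def d22_23_8_4 : BlkD.Pd :=
  ⟨22, 23, 5, 8, 4, 8, 3, 2, 1, 4, 12, 0, 2, 2, 8, 0, [0, 12, 24, 35, 36, 37, 38, 39, 40], [0, 8,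
    16, 22, 24, 26, 28, 30, 32], [⟨1, 1, 1, 4, 8, [0, 4], [0, 4]⟩, ⟨1, 1, 1, 4, 14, [0, 8], [0,
    6]⟩, ⟨1, 1, 1, 4, 18, [0, 10], [0, 8]⟩, ⟨2, 1, 1, 4, 26, [0, 12, 18], [0, 8]⟩]⟩

lemma k22_23_8_4 : BlkD.pairOk d22_23_8_4 = true := by decide +kernel

/-- certificates of the pair `(8, 4)`, part 1 -/
def t22_23_8_4_1 : BlkD.Tr :=
  .L 6 9 [4, 4, 4, 4, 22] [] [] 100000 96297 96297 1066666 77778 0 88889 38889 0 0 11111

lemma s22_23_8_4_1 {n : ℕ} (hn : 7 ≤ n) : NoNd (d22_23_8_4.R : ℤ) d22_23_8_4.H n d22_23_8_4.a d22_23_8_4.b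
    (BlkD.inB (fun _ => 0)
      (BlkD.upd (BlkD.upd (BlkD.upd (BlkD.upd (BlkD.upd (BlkD.upd (fun _ => 23) 0 8) 2 4) 0 4) 0 2) 0 1) 0 0)) :=
  BlkD.tree_sound (BlkD.pairOk_sound k22_23_8_4) (by decide) hn t22_23_8_4_1 _ _ (by decide +kernel)

/-- certificates of the pair `(8, 4)`, part 2 -/
def t22_23_8_4_2 : BlkD.Tr :=
  .L 6 9 [4, 4, 4, 4, 22] [] [] 100000 96297 96297 1066666 77778 0 88889 38889 0 0 11111

lemma s22_23_8_4_2 {n : ℕ} (hn : 7 ≤ n) : NoNd (d22_23_8_4.R : ℤ) d22_23_8_4.H n d22_23_8_4.a d22_23_8_4.b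
    (BlkD.inB (BlkD.upd (fun _ => 0) 0 1)
      (BlkD.upd (BlkD.upd (BlkD.upd (BlkD.upd (BlkD.upd (BlkD.upd (BlkD.upd (fun _ => 23) 0 8) 2 4) 0 4) 0 2) 0 1) 1 11) 1 5)) :=
  BlkD.tree_sound (BlkD.pairOk_sound k22_23_8_4) (by decide) hn t22_23_8_4_2 _ _ (by decide +kernel)

/-- certificates of the pair `(8, 4)`, part 3 -/
def t22_23_8_4_3 : BlkD.Tr :=
  .S 1 8 (.L 6 9 [4, 4, 4, 4, 22] [] [] 100000 96297 96297 1066666 77778 0 88889 38889 0 0 11111)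
    (.L 6 9 [4, 4, 4, 4, 22] [] [] 100000 96297 96297 1066666 77778 0 88889 38889 0 0 11111)

lemma s22_23_8_4_3 {n : ℕ} (hn : 7 ≤ n) : NoNd (d22_23_8_4.R : ℤ) d22_23_8_4.H n d22_23_8_4.a d22_23_8_4.b
    (BlkD.inB (BlkD.upd (BlkD.upd (fun _ => 0) 0 1) 1 6)
      (BlkD.upd (BlkD.upd (BlkD.upd (BlkD.upd (BlkD.upd (BlkD.upd (fun _ => 23) 0 8) 2 4) 0 4) 0 2) 0 1) 1 11)) :=
  BlkD.tree_sound (BlkD.pairOk_sound k22_23_8_4) (by decide) hn t22_23_8_4_3 _ _ (by decide +kernel)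

/-- certificates of the pair `(8, 4)`, part 4 -/
def t22_23_8_4_4 : BlkD.Tr :=
  .L 6 9 [4, 4, 4, 4, 22] [] [] 100000 96297 96297 1066666 77778 0 88889 38889 0 0 11111

lemma s22_23_8_4_4 {n : ℕ} (hn : 7 ≤ n) : NoNd (d22_23_8_4.R : ℤ) d22_23_8_4.H n d22_23_8_4.a d22_23_8_4.b
    (BlkD.inB (BlkD.upd (BlkD.upd (fun _ => 0) 0 1) 1 12)
      (BlkD.upd (BlkD.upd (BlkD.upd (BlkD.upd (BlkD.upd (fun _ => 23) 0 8) 2 4) 0 4) 0 2) 0 1)) :=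
  BlkD.tree_sound (BlkD.pairOk_sound k22_23_8_4) (by decide) hn t22_23_8_4_4 _ _ (by decide +kernel)

/-- certificates of the pair `(8, 4)`, part 5 -/
def t22_23_8_4_5 : BlkD.Tr :=
  .L 6 9 [4, 4, 4, 4, 22] [] [] 100000 96297 96297 1066666 77778 0 88889 38889 0 0 11111

lemma s22_23_8_4_5 {n : ℕ} (hn : 7 ≤ n) : NoNd (d22_23_8_4.R : ℤ) d22_23_8_4.H n d22_23_8_4.a d22_23_8_4.b
    (BlkD.inB (BlkD.upd (fun _ => 0) 0 2)
      (BlkD.upd (BlkD.upd (BlkD.upd (BlkD.upd (BlkD.upd (BlkD.upd (fun _ => 23) 0 8) 2 4) 0 4) 0 2) 1 11) 1 5)) :=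
  BlkD.tree_sound (BlkD.pairOk_sound k22_23_8_4) (by decide) hn t22_23_8_4_5 _ _ (by decide +kernel)

/-- certificates of the pair `(8, 4)`, part 6 -/
def t22_23_8_4_6 : BlkD.Tr :=
  .S 1 7 (.L 6 9 [4, 4, 4, 4, 22] [] [] 100000 96297 96297 1066666 77778 0 88889 38889 0 0 11111)
    (.L 6 9 [4, 4, 4, 4, 22] [148, 147, 146, 145, 135, 124] [] 100000 96297 96297 1066666 77778 0
    88889 38889 0 0 11111)

lemma s22_23_8_4_6 {n : ℕ} (hn : 7 ≤ n) : NoNd (d22_23_8_4.R : ℤ) d22_23_8_4.H n d22_23_8_4.a d22_23_8_4.b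
    (BlkD.inB (BlkD.upd (BlkD.upd (fun _ => 0) 0 2) 1 6)
      (BlkD.upd (BlkD.upd (BlkD.upd (BlkD.upd (BlkD.upd (BlkD.upd (fun _ => 23) 0 8) 2 4) 0 4) 0 2) 1 11) 1 8)) :=
  BlkD.tree_sound (BlkD.pairOk_sound k22_23_8_4) (by decide) hn t22_23_8_4_6 _ _ (by decide +kernel)

/-- certificates of the pair `(8, 4)`, part 7 -/
def t22_23_8_4_7 : BlkD.Tr :=
  .S 1 10 (.L 6 9 [4, 4, 4, 4, 22] [] [] 100000 96297 96297 1066666 77778 0 88889 38889 0 0 11111)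
    (.L 6 9 [4, 4, 4, 4, 22] [217, 216, 215, 214, 213, 212] [] 100000 96297 96297 1066666 77778 0
    88889 38889 0 0 11111)

lemma s22_23_8_4_7 {n : ℕ} (hn : 7 ≤ n) : NoNd (d22_23_8_4.R : ℤ) d22_23_8_4.H n d22_23_8_4.a d22_23_8_4.b
    (BlkD.inB (BlkD.upd (BlkD.upd (BlkD.upd (fun _ => 0) 0 2) 1 6) 1 9)
      (BlkD.upd (BlkD.upd (BlkD.upd (BlkD.upd (BlkD.upd (fun _ => 23) 0 8) 2 4) 0 4) 0 2) 1 11)) :=
  BlkD.tree_sound (BlkD.pairOk_sound k22_23_8_4) (by decide) hn t22_23_8_4_7 _ _ (by decide +kernel)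

/-- certificates of the pair `(8, 4)`, part 8 -/
def t22_23_8_4_8 : BlkD.Tr :=
  .L 6 9 [4, 4, 4, 4, 22] [] [] 100000 96297 96297 1066666 77778 0 88889 38889 0 0 11111

lemma s22_23_8_4_8 {n : ℕ} (hn : 7 ≤ n) : NoNd (d22_23_8_4.R : ℤ) d22_23_8_4.H n d22_23_8_4.a d22_23_8_4.b
    (BlkD.inB (BlkD.upd (BlkD.upd (fun _ => 0) 0 2) 1 12)
      (BlkD.upd (BlkD.upd (BlkD.upd (BlkD.upd (fun _ => 23) 0 8) 2 4) 0 4) 0 2)) :=
  BlkD.tree_sound (BlkD.pairOk_sound k22_23_8_4) (by decide) hn t22_23_8_4_8 _ _ (by decide +kernel)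

/-- certificates of the pair `(8, 4)`, part 9 -/
def t22_23_8_4_9 : BlkD.Tr :=
  .L 6 9 [4, 4, 4, 4, 22] [] [] 100000 33334 33334 1246155 30769 0 30769 46154 0 0 0

lemma s22_23_8_4_9 {n : ℕ} (hn : 7 ≤ n) : NoNd (d22_23_8_4.R : ℤ) d22_23_8_4.H n d22_23_8_4.a d22_23_8_4.b
    (BlkD.inB (BlkD.upd (fun _ => 0) 0 3)
      (BlkD.upd (BlkD.upd (BlkD.upd (BlkD.upd (BlkD.upd (BlkD.upd (BlkD.upd (fun _ => 23) 0 8) 2 4) 0 4) 0 3) 1 20) 1 10) 1 5)) :=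
  BlkD.tree_sound (BlkD.pairOk_sound k22_23_8_4) (by decide) hn t22_23_8_4_9 _ _ (by decide +kernel)

/-- certificates of the pair `(8, 4)`, part 10 -/
def t22_23_8_4_10 : BlkD.Tr :=
  .S 1 7 (.L 6 9 [4, 4, 4, 4, 22] [] [] 100000 35416 35416 1366669 33333 0 50000 33333 0 20833
    27083) (.L 6 9 [4, 4, 4, 4, 22] [164, 163, 162, 161, 151, 140] [] 100000 26957 26957 1364347
    44348 0 58261 28696 0 19130 13913)

lemma s22_23_8_4_10 {n : ℕ} (hn : 7 ≤ n) : NoNd (d22_23_8_4.R : ℤ) d22_23_8_4.H n d22_23_8_4.a d22_23_8_4.b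
    (BlkD.inB (BlkD.upd (BlkD.upd (fun _ => 0) 0 3) 1 6)
      (BlkD.upd (BlkD.upd (BlkD.upd (BlkD.upd (BlkD.upd (BlkD.upd (BlkD.upd (fun _ => 23) 0 8) 2 4) 0 4) 0 3) 1 20) 1 10) 1 8)) :=
  BlkD.tree_sound (BlkD.pairOk_sound k22_23_8_4) (by decide) hn t22_23_8_4_10 _ _ (by decide +kernel)

/-- certificates of the pair `(8, 4)`, part 11 -/
def t22_23_8_4_11 : BlkD.Tr :=
  .S 1 9 (.L 6 9 [4, 4, 4, 4, 22] [187, 186, 185, 184, 183, 173] [] 100000 37793 37793 1304684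
    54515 0 77258 25753 0 12375 15050) (.L 6 9 [4, 4, 4, 4, 22] [212, 211, 210, 209, 208, 207] []
    100000 75000 75000 1175000 75000 0 100000 25000 0 0 0)

lemma s22_23_8_4_11 {n : ℕ} (hn : 7 ≤ n) : NoNd (d22_23_8_4.R : ℤ) d22_23_8_4.H n d22_23_8_4.a d22_23_8_4.b
    (BlkD.inB (BlkD.upd (BlkD.upd (BlkD.upd (fun _ => 0) 0 3) 1 6) 1 9)
      (BlkD.upd (BlkD.upd (BlkD.upd (BlkD.upd (BlkD.upd (BlkD.upd (fun _ => 23) 0 8) 2 4) 0 4) 0 3) 1 20) 1 10)) :=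
  BlkD.tree_sound (BlkD.pairOk_sound k22_23_8_4) (by decide) hn t22_23_8_4_11 _ _ (by decide +kernel)

/-- certificates of the pair `(8, 4)`, part 12 -/
def t22_23_8_4_12 : BlkD.Tr :=
  .S 1 15 (.S 1 13 (.S 1 12 (.S 1 11 (.L 6 9 [4, 4, 4, 4, 22] [239, 238, 237, 236, 235, 234] []
    100000 100000 50000 850000 100000 0 150000 50000 0 0 0) (.L 6 9 [4, 4, 4, 4, 22] [268, 267,
    266, 265, 264, 263] [] 100000 166667 0 0 100000 0 266667 0 0 0 0)) (.E 0)) (.E 0)) (.E 0)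

lemma s22_23_8_4_12 {n : ℕ} (hn : 7 ≤ n) : NoNd (d22_23_8_4.R : ℤ) d22_23_8_4.H n d22_23_8_4.a d22_23_8_4.b
    (BlkD.inB (BlkD.upd (BlkD.upd (fun _ => 0) 0 3) 1 11)
      (BlkD.upd (BlkD.upd (BlkD.upd (BlkD.upd (BlkD.upd (fun _ => 23) 0 8) 2 4) 0 4) 0 3) 1 20)) :=
  BlkD.tree_sound (BlkD.pairOk_sound k22_23_8_4) (by decide) hn t22_23_8_4_12 _ _ (by decide +kernel)

/-- certificates of the pair `(8, 4)`, part 13 -/
def t22_23_8_4_13 : BlkD.Tr :=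
  .E 0

lemma s22_23_8_4_13 {n : ℕ} (hn : 7 ≤ n) : NoNd (d22_23_8_4.R : ℤ) d22_23_8_4.H n d22_23_8_4.a d22_23_8_4.b
    (BlkD.inB (BlkD.upd (BlkD.upd (fun _ => 0) 0 3) 1 21)
      (BlkD.upd (BlkD.upd (BlkD.upd (BlkD.upd (fun _ => 23) 0 8) 2 4) 0 4) 0 3)) :=
  BlkD.tree_sound (BlkD.pairOk_sound k22_23_8_4) (by decide) hn t22_23_8_4_13 _ _ (by decide +kernel)

/-- certificates of the pair `(8, 4)`, part 14 -/
def t22_23_8_4_14 : BlkD.Tr :=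
  .L 6 9 [4, 4, 4, 4, 22] [] [] 100000 33334 33334 1300000 25000 0 25000 37500 0 0 0

lemma s22_23_8_4_14 {n : ℕ} (hn : 7 ≤ n) : NoNd (d22_23_8_4.R : ℤ) d22_23_8_4.H n d22_23_8_4.a d22_23_8_4.b
    (BlkD.inB (BlkD.upd (BlkD.upd (fun _ => 0) 0 3) 0 4)
      (BlkD.upd (BlkD.upd (BlkD.upd (BlkD.upd (BlkD.upd (BlkD.upd (fun _ => 23) 0 8) 2 4) 0 4) 1 19) 1 9) 1 4)) :=
  BlkD.tree_sound (BlkD.pairOk_sound k22_23_8_4) (by decide) hn t22_23_8_4_14 _ _ (by decide +kernel)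

/-- certificates of the pair `(8, 4)`, part 15 -/
def t22_23_8_4_15 : BlkD.Tr :=
  .S 1 7 (.S 1 6 (.S 1 5 (.L 6 9 [4, 4, 4, 4, 22] [117, 107, 96, 84, 72, 60] [] 100000 26857 26857
    1355450 28910 7820 50000 28910 0 19431 24171) (.L 6 9 [4, 4, 4, 4, 22] [136, 135, 125, 114,
    102, 90] [] 100000 26970 26970 1382728 39091 0 58636 26818 0 19091 15000)) (.L 6 9 [4, 4, 4, 4,
    22] [157, 156, 155, 145, 134, 122] [] 100000 27711 27711 1393976 40964 0 62048 41566 0 16867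
    12651)) (.S 1 8 (.L 6 9 [4, 4, 4, 4, 22] [180, 179, 178, 177, 167, 156] [] 100000 32469 32469
    1383118 45455 0 80519 36364 1299 0 18182) (.L 6 9 [4, 4, 4, 4, 22] [205, 204, 203, 202, 201,
    191] [] 100000 40001 40001 1313335 46667 0 100000 33333 0 6667 13333))

lemma s22_23_8_4_15 {n : ℕ} (hn : 7 ≤ n) : NoNd (d22_23_8_4.R : ℤ) d22_23_8_4.H n d22_23_8_4.a d22_23_8_4.b
    (BlkD.inB (BlkD.upd (BlkD.upd (BlkD.upd (fun _ => 0) 0 3) 0 4) 1 5)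
      (BlkD.upd (BlkD.upd (BlkD.upd (BlkD.upd (BlkD.upd (fun _ => 23) 0 8) 2 4) 0 4) 1 19) 1 9)) :=
  BlkD.tree_sound (BlkD.pairOk_sound k22_23_8_4) (by decide) hn t22_23_8_4_15 _ _ (by decide +kernel)

/-- certificates of the pair `(8, 4)`, part 16 -/
def t22_23_8_4_16 : BlkD.Tr :=
  .L 6 9 [4, 4, 4, 4, 22] [] [] 100000 33334 33334 1350000 12500 0 100000 87500 0 0 0

lemma s22_23_8_4_16 {n : ℕ} (hn : 7 ≤ n) : NoNd (d22_23_8_4.R : ℤ) d22_23_8_4.H n d22_23_8_4.a d22_23_8_4.b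
    (BlkD.inB (BlkD.upd (BlkD.upd (BlkD.upd (fun _ => 0) 0 3) 0 4) 1 10)
      (BlkD.upd (BlkD.upd (BlkD.upd (BlkD.upd (fun _ => 23) 0 8) 2 4) 0 4) 1 19)) :=
  BlkD.tree_sound (BlkD.pairOk_sound k22_23_8_4) (by decide) hn t22_23_8_4_16 _ _ (by decide +kernel)

/-- certificates of the pair `(8, 4)`, part 17 -/
def t22_23_8_4_17 : BlkD.Tr :=
  .E 0

lemma s22_23_8_4_17 {n : ℕ} (hn : 7 ≤ n) : NoNd (d22_23_8_4.R : ℤ) d22_23_8_4.H n d22_23_8_4.a d22_23_8_4.b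
    (BlkD.inB (BlkD.upd (BlkD.upd (BlkD.upd (fun _ => 0) 0 3) 0 4) 1 20)
      (BlkD.upd (BlkD.upd (BlkD.upd (fun _ => 23) 0 8) 2 4) 0 4)) :=
  BlkD.tree_sound (BlkD.pairOk_sound k22_23_8_4) (by decide) hn t22_23_8_4_17 _ _ (by decide +kernel)

/-- certificates of the pair `(8, 4)`, part 18 -/
def t22_23_8_4_18 : BlkD.Tr :=
  .S 1 18 (.S 1 9 (.S 1 4 (.L 6 9 [4, 4, 4, 4, 22] [] [] 100000 26795 26795 1356924 35769 7308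
    48077 35769 0 19615 27692) (.S 1 7 (.S 1 6 (.S 1 5 (.L 6 9 [4, 4, 4, 4, 22] [127, 117, 106, 94,
    82, 70] [] 100000 26472 26472 1400980 32353 9314 76471 37255 980 18627 22549) (.L 5 7 [4, 4, 5,
    5, 22] [148, 147, 137, 126, 114, 102] [] 100000 28021 28021 1411495 39573 0 69786 36624 1068
    13803 20214)) (.L 5 7 [4, 4, 5, 5, 22] [171, 170, 169, 159, 148, 136] [] 100000 29460 29460
    1379032 36400 0 92285 38971 297 11029 19238)) (.S 1 8 (.L 5 7 [4, 4, 5, 5, 22] [196, 195, 194,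
    193, 183, 172] [] 100000 60417 60417 1250000 62500 0 100000 43750 0 6250 6250) (.L 5 7 [4, 4,
    5, 5, 22] [223, 222, 221, 220, 219, 209] [] 100000 50000 0 1000000 50000 0 150000 50000 0 0
    0)))) (.E 0)) (.E 0)

lemma s22_23_8_4_18 {n : ℕ} (hn : 7 ≤ n) : NoNd (d22_23_8_4.R : ℤ) d22_23_8_4.H n d22_23_8_4.a d22_23_8_4.b
    (BlkD.inB (BlkD.upd (fun _ => 0) 0 5)
      (BlkD.upd (BlkD.upd (BlkD.upd (BlkD.upd (fun _ => 23) 0 8) 2 4) 0 6) 0 5)) :=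
  BlkD.tree_sound (BlkD.pairOk_sound k22_23_8_4) (by decide) hn t22_23_8_4_18 _ _ (by decide +kernel)

/-- certificates of the pair `(8, 4)`, part 19 -/
def t22_23_8_4_19 : BlkD.Tr :=
  .S 1 17 (.S 1 8 (.S 1 4 (.L 5 7 [4, 4, 5, 5, 22] [] [] 100000 26389 26389 1400001 33333 0 100000
    45833 0 20833 33333) (.S 1 6 (.S 1 5 (.L 5 7 [4, 4, 5, 5, 22] [137, 127, 116, 104, 92, 80] []
    100000 22818 22818 1409526 33333 0 90476 33333 9524 12500 21429) (.L 5 7 [4, 4, 5, 5, 22] [160,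
    159, 149, 138, 126, 114] [] 100000 31885 31885 1336958 34783 0 97826 60870 0 4348 2174)) (.L 5
    7 [4, 4, 5, 5, 22] [] [] 100000 33334 26191 1264285 14286 0 107143 85714 0 0 3571))) (.E 0))
    (.E 0)

lemma s22_23_8_4_19 {n : ℕ} (hn : 7 ≤ n) : NoNd (d22_23_8_4.R : ℤ) d22_23_8_4.H n d22_23_8_4.a d22_23_8_4.b
    (BlkD.inB (BlkD.upd (BlkD.upd (fun _ => 0) 0 5) 0 6)
      (BlkD.upd (BlkD.upd (BlkD.upd (fun _ => 23) 0 8) 2 4) 0 6)) :=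
  BlkD.tree_sound (BlkD.pairOk_sound k22_23_8_4) (by decide) hn t22_23_8_4_19 _ _ (by decide +kernel)

/-- certificates of the pair `(8, 4)`, part 20 -/
def t22_23_8_4_20 : BlkD.Tr :=
  .S 0 7 (.S 1 16 (.S 1 8 (.S 1 4 (.L 5 7 [4, 4, 5, 5, 22] [] [] 100000 23050 23050 1430500 30496
    2837 89894 39007 7270 16312 33333) (.L 5 7 [4, 4, 5, 5, 22] [] [] 100000 33334 33334 1300000
    14286 0 100000 85714 0 0 0)) (.E 0)) (.E 0)) (.L 5 7 [4, 4, 5, 5, 22] [] [] 100000 2 2 1408962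
    0 13208 77830 50000 54481 23349 22170)

lemma s22_23_8_4_20 {n : ℕ} (hn : 7 ≤ n) : NoNd (d22_23_8_4.R : ℤ) d22_23_8_4.H n d22_23_8_4.a d22_23_8_4.b
    (BlkD.inB (BlkD.upd (BlkD.upd (fun _ => 0) 0 5) 0 7)
      (BlkD.upd (BlkD.upd (fun _ => 23) 0 8) 2 4)) :=
  BlkD.tree_sound (BlkD.pairOk_sound k22_23_8_4) (by decide) hn t22_23_8_4_20 _ _ (by decide +kernel)

/-- certificates of the pair `(8, 4)`, part 21 -/
def t22_23_8_4_21 : BlkD.Tr :=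
  .E 1

lemma s22_23_8_4_21 {n : ℕ} (hn : 7 ≤ n) : NoNd (d22_23_8_4.R : ℤ) d22_23_8_4.H n d22_23_8_4.a d22_23_8_4.b
    (BlkD.inB (BlkD.upd (fun _ => 0) 2 5)
      (BlkD.upd (fun _ => 23) 0 8)) :=
  BlkD.tree_sound (BlkD.pairOk_sound k22_23_8_4) (by decide) hn t22_23_8_4_21 _ _ (by decide +kernel)

/-- certificates of the pair `(8, 4)`, part 22 -/
def t22_23_8_4_22 : BlkD.Tr :=
  .E 0

lemma s22_23_8_4_22 {n : ℕ} (hn : 7 ≤ n) : NoNd (d22_23_8_4.R : ℤ) d22_23_8_4.H n d22_23_8_4.a d22_23_8_4.b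
    (BlkD.inB (BlkD.upd (fun _ => 0) 0 9)
      (fun _ => 23)) :=
  BlkD.tree_sound (BlkD.pairOk_sound k22_23_8_4) (by decide) hn t22_23_8_4_22 _ _ (by decide +kernel)

lemma pr22_23_8_4 {n : ℕ} (hn : 7 ≤ n) : NoPr ((22 : ℕ) : ℤ) ((23 : ℕ) : ℤ) n 8 4 :=
  BlkD.of_root (R := d22_23_8_4.R) (H := d22_23_8_4.H) (a := d22_23_8_4.a) (b := d22_23_8_4.b) (q := 5) (by decide) hn
    (BlkD.sp 0 8 (BlkD.sp 2 4 (BlkD.sp 0 4 (BlkD.sp 0 2 (BlkD.sp 0 1 (BlkD.sp 0 0 (s22_23_8_4_1 hn)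
      (BlkD.sp 1 11 (BlkD.sp 1 5 (s22_23_8_4_2 hn) (s22_23_8_4_3 hn)) (s22_23_8_4_4 hn))) (BlkD.sp
      1 11 (BlkD.sp 1 5 (s22_23_8_4_5 hn) (BlkD.sp 1 8 (s22_23_8_4_6 hn) (s22_23_8_4_7 hn)))
      (s22_23_8_4_8 hn))) (BlkD.sp 0 3 (BlkD.sp 1 20 (BlkD.sp 1 10 (BlkD.sp 1 5 (s22_23_8_4_9 hn)
      (BlkD.sp 1 8 (s22_23_8_4_10 hn) (s22_23_8_4_11 hn))) (s22_23_8_4_12 hn)) (s22_23_8_4_13 hn))
      (BlkD.sp 1 19 (BlkD.sp 1 9 (BlkD.sp 1 4 (s22_23_8_4_14 hn) (s22_23_8_4_15 hn)) (s22_23_8_4_16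
      hn)) (s22_23_8_4_17 hn)))) (BlkD.sp 0 6 (BlkD.sp 0 5 (s22_23_8_4_18 hn) (s22_23_8_4_19 hn))
      (s22_23_8_4_20 hn))) (s22_23_8_4_21 hn)) (s22_23_8_4_22 hn))

end BlkC

end Pool.Agent.Lib.MP_f04ccf_co
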