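import Pool.Agent.Lib.MP_f04ccf_co.M.BlkT

/-!
MP_f04ccf_co, block certificate, data `R = 22`, `H = 23`, part 14 (generated, helper99:
bd10.cpp, gen2.py).
-/

set_option autoImplicit false
set_option maxRecDepth 100000

namespace Pool.Agent.Lib.MP_f04ccf_co

namespace BlkC

/-- the numbers of the pair `(8, 5)`, `R = 22`, `H = 23` -/
def d22_23_8_5 : BlkD.Pd :=
  ⟨22, 23, 5, 8, 5, 7, 2, 3, 0, 4, 10, 0, 2, 2, 8, 0, [0, 10, 20, 28, 28, 28, 28, 28], [0, 8, 16,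
    20, 22, 24, 26, 28], [⟨1, 1, 1, 4, 8, [0, 4], [0, 4]⟩, ⟨1, 1, 1, 4, 14, [0, 8], [0, 6]⟩, ⟨1, 1,
    1, 4, 18, [0, 10], [0, 8]⟩]⟩

lemma k22_23_8_5 : BlkD.pairOk d22_23_8_5 = true := by decide +kernel

/-- certificates of the pair `(8, 5)`, part 1 -/
def t22_23_8_5_1 : BlkD.Tr :=
  .L 5 6 [4, 4, 5, 22, 22, 22] [] [] 100000 75000 75000 1300000 62500 0 87500 62500 0 0 0

lemma s22_23_8_5_1 {n : ℕ} (hn : 7 ≤ n) : NoNd (d22_23_8_5.R : ℤ) d22_23_8_5.H n d22_23_8_5.a d22_23_8_5.b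
    (BlkD.inB (fun _ => 0)
      (BlkD.upd (BlkD.upd (BlkD.upd (BlkD.upd (BlkD.upd (BlkD.upd (fun _ => 23) 0 8) 2 5) 0 4) 0 2) 0 1) 0 0)) :=
  BlkD.tree_sound (BlkD.pairOk_sound k22_23_8_5) (by decide) hn t22_23_8_5_1 _ _ (by decide +kernel)

/-- certificates of the pair `(8, 5)`, part 2 -/
def t22_23_8_5_2 : BlkD.Tr :=
  .S 1 2 (.L 5 6 [4, 4, 5, 22, 22, 22] [] [] 100000 75000 75000 1300000 62500 0 87500 62500 0 0 0)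
    (.L 5 6 [4, 4, 5, 22, 22, 22] [] [] 100000 75000 75000 1300000 62500 0 87500 62500 0 0 0)

lemma s22_23_8_5_2 {n : ℕ} (hn : 7 ≤ n) : NoNd (d22_23_8_5.R : ℤ) d22_23_8_5.H n d22_23_8_5.a d22_23_8_5.b
    (BlkD.inB (BlkD.upd (fun _ => 0) 0 1)
      (BlkD.upd (BlkD.upd (BlkD.upd (BlkD.upd (BlkD.upd (BlkD.upd (BlkD.upd (fun _ => 23) 0 8) 2 5) 0 4) 0 2) 0 1) 1 11) 1 5)) :=
  BlkD.tree_sound (BlkD.pairOk_sound k22_23_8_5) (by decide) hn t22_23_8_5_2 _ _ (by decide +kernel)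

/-- certificates of the pair `(8, 5)`, part 3 -/
def t22_23_8_5_3 : BlkD.Tr :=
  .S 1 7 (.L 5 6 [4, 4, 5, 22, 22, 22] [] [] 100000 75000 75000 1300000 62500 0 87500 62500 0 0 0)
    (.L 5 6 [4, 4, 5, 22, 22, 22] [136, 136, 136, 128, 118, 108] [] 100000 75000 75000 1300000
    62500 0 87500 62500 0 0 0)

lemma s22_23_8_5_3 {n : ℕ} (hn : 7 ≤ n) : NoNd (d22_23_8_5.R : ℤ) d22_23_8_5.H n d22_23_8_5.a d22_23_8_5.b
    (BlkD.inB (BlkD.upd (BlkD.upd (fun _ => 0) 0 1) 1 6)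
      (BlkD.upd (BlkD.upd (BlkD.upd (BlkD.upd (BlkD.upd (BlkD.upd (BlkD.upd (fun _ => 23) 0 8) 2 5) 0 4) 0 2) 0 1) 1 11) 1 8)) :=
  BlkD.tree_sound (BlkD.pairOk_sound k22_23_8_5) (by decide) hn t22_23_8_5_3 _ _ (by decide +kernel)

/-- certificates of the pair `(8, 5)`, part 4 -/
def t22_23_8_5_4 : BlkD.Tr :=
  .L 5 6 [4, 4, 5, 22, 22, 22] [] [] 100000 75000 75000 1300000 62500 0 87500 62500 0 0 0

lemma s22_23_8_5_4 {n : ℕ} (hn : 7 ≤ n) : NoNd (d22_23_8_5.R : ℤ) d22_23_8_5.H n d22_23_8_5.a d22_23_8_5.b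
    (BlkD.inB (BlkD.upd (BlkD.upd (BlkD.upd (fun _ => 0) 0 1) 1 6) 1 9)
      (BlkD.upd (BlkD.upd (BlkD.upd (BlkD.upd (BlkD.upd (BlkD.upd (fun _ => 23) 0 8) 2 5) 0 4) 0 2) 0 1) 1 11)) :=
  BlkD.tree_sound (BlkD.pairOk_sound k22_23_8_5) (by decide) hn t22_23_8_5_4 _ _ (by decide +kernel)

/-- certificates of the pair `(8, 5)`, part 5 -/
def t22_23_8_5_5 : BlkD.Tr :=
  .L 5 6 [4, 4, 5, 22, 22, 22] [] [] 100000 75000 75000 1300000 62500 0 87500 62500 0 0 0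

lemma s22_23_8_5_5 {n : ℕ} (hn : 7 ≤ n) : NoNd (d22_23_8_5.R : ℤ) d22_23_8_5.H n d22_23_8_5.a d22_23_8_5.b
    (BlkD.inB (BlkD.upd (BlkD.upd (fun _ => 0) 0 1) 1 12)
      (BlkD.upd (BlkD.upd (BlkD.upd (BlkD.upd (BlkD.upd (fun _ => 23) 0 8) 2 5) 0 4) 0 2) 0 1)) :=
  BlkD.tree_sound (BlkD.pairOk_sound k22_23_8_5) (by decide) hn t22_23_8_5_5 _ _ (by decide +kernel)

/-- certificates of the pair `(8, 5)`, part 6 -/
def t22_23_8_5_6 : BlkD.Tr :=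
  .S 1 2 (.L 5 6 [4, 4, 5, 22, 22, 22] [] [] 100000 75000 75000 1300000 62500 0 87500 62500 0 0 0)
    (.L 5 6 [4, 4, 5, 22, 22, 22] [] [] 100000 75000 75000 1300000 62500 0 87500 62500 0 0 0)

lemma s22_23_8_5_6 {n : ℕ} (hn : 7 ≤ n) : NoNd (d22_23_8_5.R : ℤ) d22_23_8_5.H n d22_23_8_5.a d22_23_8_5.b
    (BlkD.inB (BlkD.upd (fun _ => 0) 0 2)
      (BlkD.upd (BlkD.upd (BlkD.upd (BlkD.upd (BlkD.upd (BlkD.upd (fun _ => 23) 0 8) 2 5) 0 4) 0 2) 1 11) 1 5)) :=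
  BlkD.tree_sound (BlkD.pairOk_sound k22_23_8_5) (by decide) hn t22_23_8_5_6 _ _ (by decide +kernel)

/-- certificates of the pair `(8, 5)`, part 7 -/
def t22_23_8_5_7 : BlkD.Tr :=
  .S 1 7 (.L 5 6 [4, 4, 5, 22, 22, 22] [] [] 100000 75000 75000 1300000 62500 0 87500 62500 0 0 0)
    (.L 5 6 [4, 4, 5, 22, 22, 22] [152, 152, 152, 144, 134, 124] [] 100000 75000 75000 1300000
    62500 0 87500 62500 0 0 0)

lemma s22_23_8_5_7 {n : ℕ} (hn : 7 ≤ n) : NoNd (d22_23_8_5.R : ℤ) d22_23_8_5.H n d22_23_8_5.a d22_23_8_5.b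
    (BlkD.inB (BlkD.upd (BlkD.upd (fun _ => 0) 0 2) 1 6)
      (BlkD.upd (BlkD.upd (BlkD.upd (BlkD.upd (BlkD.upd (BlkD.upd (fun _ => 23) 0 8) 2 5) 0 4) 0 2) 1 11) 1 8)) :=
  BlkD.tree_sound (BlkD.pairOk_sound k22_23_8_5) (by decide) hn t22_23_8_5_7 _ _ (by decide +kernel)

/-- certificates of the pair `(8, 5)`, part 8 -/
def t22_23_8_5_8 : BlkD.Tr :=
  .S 1 10 (.S 1 9 (.L 5 6 [4, 4, 5, 22, 22, 22] [172, 172, 172, 172, 164, 154] [] 100000 75000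
    75000 1300000 62500 0 87500 62500 0 0 0) (.L 5 6 [4, 4, 5, 22, 22, 22] [194, 194, 194, 194,
    194, 186] [] 100000 75000 75000 1300000 62500 0 87500 62500 0 0 0)) (.L 5 6 [4, 4, 5, 22, 22,
    22] [218, 218, 218, 218, 218, 218] [] 100000 75000 75000 1300000 62500 0 87500 62500 0 0 0)

lemma s22_23_8_5_8 {n : ℕ} (hn : 7 ≤ n) : NoNd (d22_23_8_5.R : ℤ) d22_23_8_5.H n d22_23_8_5.a d22_23_8_5.b
    (BlkD.inB (BlkD.upd (BlkD.upd (BlkD.upd (fun _ => 0) 0 2) 1 6) 1 9)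
      (BlkD.upd (BlkD.upd (BlkD.upd (BlkD.upd (BlkD.upd (fun _ => 23) 0 8) 2 5) 0 4) 0 2) 1 11)) :=
  BlkD.tree_sound (BlkD.pairOk_sound k22_23_8_5) (by decide) hn t22_23_8_5_8 _ _ (by decide +kernel)

/-- certificates of the pair `(8, 5)`, part 9 -/
def t22_23_8_5_9 : BlkD.Tr :=
  .L 5 6 [4, 4, 5, 22, 22, 22] [] [] 100000 75000 75000 1300000 62500 0 87500 62500 0 0 0

lemma s22_23_8_5_9 {n : ℕ} (hn : 7 ≤ n) : NoNd (d22_23_8_5.R : ℤ) d22_23_8_5.H n d22_23_8_5.a d22_23_8_5.b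
    (BlkD.inB (BlkD.upd (BlkD.upd (fun _ => 0) 0 2) 1 12)
      (BlkD.upd (BlkD.upd (BlkD.upd (BlkD.upd (fun _ => 23) 0 8) 2 5) 0 4) 0 2)) :=
  BlkD.tree_sound (BlkD.pairOk_sound k22_23_8_5) (by decide) hn t22_23_8_5_9 _ _ (by decide +kernel)

/-- certificates of the pair `(8, 5)`, part 10 -/
def t22_23_8_5_10 : BlkD.Tr :=
  .S 1 2 (.L 6 7 [4, 4, 4, 22, 22, 22] [] [] 100000 14286 14286 1566670 33333 0 95238 33333 4762 0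
    0) (.L 6 7 [4, 4, 4, 22, 22, 22] [] [] 100000 14286 14286 1566670 33333 0 95238 33333 4762 0 0)

lemma s22_23_8_5_10 {n : ℕ} (hn : 7 ≤ n) : NoNd (d22_23_8_5.R : ℤ) d22_23_8_5.H n d22_23_8_5.a d22_23_8_5.b
    (BlkD.inB (BlkD.upd (fun _ => 0) 0 3)
      (BlkD.upd (BlkD.upd (BlkD.upd (BlkD.upd (BlkD.upd (BlkD.upd (fun _ => 23) 0 8) 2 5) 0 4) 0 3) 1 11) 1 5)) :=
  BlkD.tree_sound (BlkD.pairOk_sound k22_23_8_5) (by decide) hn t22_23_8_5_10 _ _ (by decide +kernel)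

/-- certificates of the pair `(8, 5)`, part 11 -/
def t22_23_8_5_11 : BlkD.Tr :=
  .S 1 7 (.L 6 7 [4, 4, 4, 22, 22, 22] [] [] 100000 14286 14286 1566670 33333 0 95238 33333 4762 0
    0) (.L 6 7 [4, 4, 4, 22, 22, 22] [168, 168, 168, 160, 150, 140] [] 100000 14286 14286 1566670
    33333 0 95238 33333 4762 0 0)

lemma s22_23_8_5_11 {n : ℕ} (hn : 7 ≤ n) : NoNd (d22_23_8_5.R : ℤ) d22_23_8_5.H n d22_23_8_5.a d22_23_8_5.b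
    (BlkD.inB (BlkD.upd (BlkD.upd (fun _ => 0) 0 3) 1 6)
      (BlkD.upd (BlkD.upd (BlkD.upd (BlkD.upd (BlkD.upd (BlkD.upd (fun _ => 23) 0 8) 2 5) 0 4) 0 3) 1 11) 1 8)) :=
  BlkD.tree_sound (BlkD.pairOk_sound k22_23_8_5) (by decide) hn t22_23_8_5_11 _ _ (by decide +kernel)

/-- certificates of the pair `(8, 5)`, part 12 -/
def t22_23_8_5_12 : BlkD.Tr :=
  .L 6 7 [4, 4, 4, 22, 22, 22] [] [] 100000 14286 14286 1566670 33333 0 95238 33333 4762 0 0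

lemma s22_23_8_5_12 {n : ℕ} (hn : 7 ≤ n) : NoNd (d22_23_8_5.R : ℤ) d22_23_8_5.H n d22_23_8_5.a d22_23_8_5.b
    (BlkD.inB (BlkD.upd (BlkD.upd (BlkD.upd (fun _ => 0) 0 3) 1 6) 1 9)
      (BlkD.upd (BlkD.upd (BlkD.upd (BlkD.upd (BlkD.upd (fun _ => 23) 0 8) 2 5) 0 4) 0 3) 1 11)) :=
  BlkD.tree_sound (BlkD.pairOk_sound k22_23_8_5) (by decide) hn t22_23_8_5_12 _ _ (by decide +kernel)

/-- certificates of the pair `(8, 5)`, part 13 -/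
def t22_23_8_5_13 : BlkD.Tr :=
  .L 6 7 [4, 4, 4, 22, 22, 22] [] [] 100000 14286 14286 1566670 33333 0 95238 33333 4762 0 0

lemma s22_23_8_5_13 {n : ℕ} (hn : 7 ≤ n) : NoNd (d22_23_8_5.R : ℤ) d22_23_8_5.H n d22_23_8_5.a d22_23_8_5.b
    (BlkD.inB (BlkD.upd (BlkD.upd (fun _ => 0) 0 3) 1 12)
      (BlkD.upd (BlkD.upd (BlkD.upd (BlkD.upd (fun _ => 23) 0 8) 2 5) 0 4) 0 3)) :=
  BlkD.tree_sound (BlkD.pairOk_sound k22_23_8_5) (by decide) hn t22_23_8_5_13 _ _ (by decide +kernel)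

/-- certificates of the pair `(8, 5)`, part 14 -/
def t22_23_8_5_14 : BlkD.Tr :=
  .L 6 7 [4, 4, 4, 22, 22, 22] [] [] 100000 3441 3441 1483946 25229 15138 30275 30275 0 0 18349

lemma s22_23_8_5_14 {n : ℕ} (hn : 7 ≤ n) : NoNd (d22_23_8_5.R : ℤ) d22_23_8_5.H n d22_23_8_5.a d22_23_8_5.b
    (BlkD.inB (BlkD.upd (BlkD.upd (fun _ => 0) 0 3) 0 4)
      (BlkD.upd (BlkD.upd (BlkD.upd (BlkD.upd (BlkD.upd (BlkD.upd (fun _ => 23) 0 8) 2 5) 0 4) 1 19) 1 9) 1 4)) :=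
  BlkD.tree_sound (BlkD.pairOk_sound k22_23_8_5) (by decide) hn t22_23_8_5_14 _ _ (by decide +kernel)

/-- certificates of the pair `(8, 5)`, part 15 -/
def t22_23_8_5_15 : BlkD.Tr :=
  .S 1 6 (.S 1 5 (.L 6 7 [4, 4, 4, 22, 22, 22] [116, 106, 96, 86, 74, 60] [] 100000 0 0 1533336
    33333 0 44444 33333 0 14286 19048) (.L 6 7 [4, 4, 4, 22, 22, 22] [142, 134, 124, 114, 104, 92]
    [] 100000 0 0 1566670 33333 0 50000 33333 0 16667 16667)) (.L 6 7 [4, 4, 4, 22, 22, 22] [162,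
    162, 154, 144, 134, 124] [] 100000 1 1 1591086 29070 5426 98450 29070 1550 14858 12661)

lemma s22_23_8_5_15 {n : ℕ} (hn : 7 ≤ n) : NoNd (d22_23_8_5.R : ℤ) d22_23_8_5.H n d22_23_8_5.a d22_23_8_5.b
    (BlkD.inB (BlkD.upd (BlkD.upd (BlkD.upd (fun _ => 0) 0 3) 0 4) 1 5)
      (BlkD.upd (BlkD.upd (BlkD.upd (BlkD.upd (BlkD.upd (BlkD.upd (fun _ => 23) 0 8) 2 5) 0 4) 1 19) 1 9) 1 7)) :=
  BlkD.tree_sound (BlkD.pairOk_sound k22_23_8_5) (by decide) hn t22_23_8_5_15 _ _ (by decide +kernel)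

/-- certificates of the pair `(8, 5)`, part 16 -/
def t22_23_8_5_16 : BlkD.Tr :=
  .S 1 8 (.L 6 7 [4, 4, 4, 22, 22, 22] [184, 184, 184, 176, 166, 156] [] 100000 0 0 1573110 40336 0
    73109 25210 1681 13445 25210) (.L 6 7 [4, 4, 4, 22, 22, 22] [208, 208, 208, 208, 200, 190] []
    100000 47223 47223 1405558 66667 0 100000 27778 0 5556 0)

lemma s22_23_8_5_16 {n : ℕ} (hn : 7 ≤ n) : NoNd (d22_23_8_5.R : ℤ) d22_23_8_5.H n d22_23_8_5.a d22_23_8_5.b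
    (BlkD.inB (BlkD.upd (BlkD.upd (BlkD.upd (BlkD.upd (fun _ => 0) 0 3) 0 4) 1 5) 1 8)
      (BlkD.upd (BlkD.upd (BlkD.upd (BlkD.upd (BlkD.upd (fun _ => 23) 0 8) 2 5) 0 4) 1 19) 1 9)) :=
  BlkD.tree_sound (BlkD.pairOk_sound k22_23_8_5) (by decide) hn t22_23_8_5_16 _ _ (by decide +kernel)

/-- certificates of the pair `(8, 5)`, part 17 -/
def t22_23_8_5_17 : BlkD.Tr :=
  .L 6 7 [4, 4, 4, 22, 22, 22] [] [] 100000 0 0 1520000 20000 0 100000 40000 0 0 20000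

lemma s22_23_8_5_17 {n : ℕ} (hn : 7 ≤ n) : NoNd (d22_23_8_5.R : ℤ) d22_23_8_5.H n d22_23_8_5.a d22_23_8_5.b
    (BlkD.inB (BlkD.upd (BlkD.upd (BlkD.upd (fun _ => 0) 0 3) 0 4) 1 10)
      (BlkD.upd (BlkD.upd (BlkD.upd (BlkD.upd (fun _ => 23) 0 8) 2 5) 0 4) 1 19)) :=
  BlkD.tree_sound (BlkD.pairOk_sound k22_23_8_5) (by decide) hn t22_23_8_5_17 _ _ (by decide +kernel)

/-- certificates of the pair `(8, 5)`, part 18 -/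
def t22_23_8_5_18 : BlkD.Tr :=
  .E 0

lemma s22_23_8_5_18 {n : ℕ} (hn : 7 ≤ n) : NoNd (d22_23_8_5.R : ℤ) d22_23_8_5.H n d22_23_8_5.a d22_23_8_5.b
    (BlkD.inB (BlkD.upd (BlkD.upd (BlkD.upd (fun _ => 0) 0 3) 0 4) 1 20)
      (BlkD.upd (BlkD.upd (BlkD.upd (fun _ => 23) 0 8) 2 5) 0 4)) :=
  BlkD.tree_sound (BlkD.pairOk_sound k22_23_8_5) (by decide) hn t22_23_8_5_18 _ _ (by decide +kernel)

/-- certificates of the pair `(8, 5)`, part 19 -/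
def t22_23_8_5_19 : BlkD.Tr :=
  .L 6 7 [4, 4, 4, 22, 22, 22] [] [] 100000 0 0 1533336 33333 8333 66667 25000 0 8333 25000

lemma s22_23_8_5_19 {n : ℕ} (hn : 7 ≤ n) : NoNd (d22_23_8_5.R : ℤ) d22_23_8_5.H n d22_23_8_5.a d22_23_8_5.b
    (BlkD.inB (BlkD.upd (fun _ => 0) 0 5)
      (BlkD.upd (BlkD.upd (BlkD.upd (BlkD.upd (BlkD.upd (BlkD.upd (BlkD.upd (fun _ => 23) 0 8) 2 5) 0 6) 0 5) 1 18) 1 9) 1 4)) :=
  BlkD.tree_sound (BlkD.pairOk_sound k22_23_8_5) (by decide) hn t22_23_8_5_19 _ _ (by decide +kernel)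

/-- certificates of the pair `(8, 5)`, part 20 -/
def t22_23_8_5_20 : BlkD.Tr :=
  .S 1 7 (.S 1 6 (.S 1 5 (.L 6 7 [4, 4, 4, 22, 22, 22] [126, 116, 106, 96, 84, 70] [] 100000 0 0
    1564410 30508 3390 93220 33898 3390 3390 23729) (.L 6 7 [4, 4, 4, 22, 22, 22] [154, 146, 136,
    126, 116, 104] [] 100000 1 1 1594595 33784 1351 90541 33784 9459 0 24324)) (.L 6 7 [4, 4, 4,
    22, 22, 22] [176, 176, 168, 158, 148, 138] [] 100000 0 0 1566669 33333 0 100000 33333 0 9524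
    23810)) (.L 6 7 [4, 4, 4, 22, 22, 22] [] [] 100000 0 0 1543753 14062 4687 100000 50000 0 1339
    12723)

lemma s22_23_8_5_20 {n : ℕ} (hn : 7 ≤ n) : NoNd (d22_23_8_5.R : ℤ) d22_23_8_5.H n d22_23_8_5.a d22_23_8_5.b
    (BlkD.inB (BlkD.upd (BlkD.upd (fun _ => 0) 0 5) 1 5)
      (BlkD.upd (BlkD.upd (BlkD.upd (BlkD.upd (BlkD.upd (BlkD.upd (fun _ => 23) 0 8) 2 5) 0 6) 0 5) 1 18) 1 9)) :=
  BlkD.tree_sound (BlkD.pairOk_sound k22_23_8_5) (by decide) hn t22_23_8_5_20 _ _ (by decide +kernel)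

/-- certificates of the pair `(8, 5)`, part 21 -/
def t22_23_8_5_21 : BlkD.Tr :=
  .E 0

lemma s22_23_8_5_21 {n : ℕ} (hn : 7 ≤ n) : NoNd (d22_23_8_5.R : ℤ) d22_23_8_5.H n d22_23_8_5.a d22_23_8_5.b
    (BlkD.inB (BlkD.upd (BlkD.upd (fun _ => 0) 0 5) 1 10)
      (BlkD.upd (BlkD.upd (BlkD.upd (BlkD.upd (BlkD.upd (fun _ => 23) 0 8) 2 5) 0 6) 0 5) 1 18)) :=
  BlkD.tree_sound (BlkD.pairOk_sound k22_23_8_5) (by decide) hn t22_23_8_5_21 _ _ (by decide +kernel)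

/-- certificates of the pair `(8, 5)`, part 22 -/
def t22_23_8_5_22 : BlkD.Tr :=
  .E 0

lemma s22_23_8_5_22 {n : ℕ} (hn : 7 ≤ n) : NoNd (d22_23_8_5.R : ℤ) d22_23_8_5.H n d22_23_8_5.a d22_23_8_5.b
    (BlkD.inB (BlkD.upd (BlkD.upd (fun _ => 0) 0 5) 1 19)
      (BlkD.upd (BlkD.upd (BlkD.upd (BlkD.upd (fun _ => 23) 0 8) 2 5) 0 6) 0 5)) :=
  BlkD.tree_sound (BlkD.pairOk_sound k22_23_8_5) (by decide) hn t22_23_8_5_22 _ _ (by decide +kernel)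

/-- certificates of the pair `(8, 5)`, part 23 -/
def t22_23_8_5_23 : BlkD.Tr :=
  .S 1 17 (.S 1 8 (.S 1 4 (.L 6 7 [4, 4, 4, 22, 22, 22] [] [] 100000 1 1 1562163 18919 12613 81081
    62162 901 12484 5534) (.S 1 6 (.L 6 7 [4, 4, 4, 22, 22, 22] [] [] 100000 1 1 1592859 26786 0
    92857 53571 14286 2806 9694) (.L 6 7 [4, 4, 4, 22, 22, 22] [] [] 100000 7693 1 1446155 19231
    3846 107692 50000 0 0 0))) (.E 0)) (.E 0)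

lemma s22_23_8_5_23 {n : ℕ} (hn : 7 ≤ n) : NoNd (d22_23_8_5.R : ℤ) d22_23_8_5.H n d22_23_8_5.a d22_23_8_5.b
    (BlkD.inB (BlkD.upd (BlkD.upd (fun _ => 0) 0 5) 0 6)
      (BlkD.upd (BlkD.upd (BlkD.upd (fun _ => 23) 0 8) 2 5) 0 6)) :=
  BlkD.tree_sound (BlkD.pairOk_sound k22_23_8_5) (by decide) hn t22_23_8_5_23 _ _ (by decide +kernel)

/-- certificates of the pair `(8, 5)`, part 24 -/
def t22_23_8_5_24 : BlkD.Tr :=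
  .L 6 7 [4, 4, 4, 22, 22, 22] [] [] 100000 0 0 1589785 5109 5109 89781 94891 2190 2920 0

lemma s22_23_8_5_24 {n : ℕ} (hn : 7 ≤ n) : NoNd (d22_23_8_5.R : ℤ) d22_23_8_5.H n d22_23_8_5.a d22_23_8_5.b
    (BlkD.inB (BlkD.upd (BlkD.upd (fun _ => 0) 0 5) 0 7)
      (BlkD.upd (BlkD.upd (fun _ => 23) 0 8) 2 5)) :=
  BlkD.tree_sound (BlkD.pairOk_sound k22_23_8_5) (by decide) hn t22_23_8_5_24 _ _ (by decide +kernel)

/-- certificates of the pair `(8, 5)`, part 25 -/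
def t22_23_8_5_25 : BlkD.Tr :=
  .E 1

lemma s22_23_8_5_25 {n : ℕ} (hn : 7 ≤ n) : NoNd (d22_23_8_5.R : ℤ) d22_23_8_5.H n d22_23_8_5.a d22_23_8_5.b
    (BlkD.inB (BlkD.upd (fun _ => 0) 2 6)
      (BlkD.upd (fun _ => 23) 0 8)) :=
  BlkD.tree_sound (BlkD.pairOk_sound k22_23_8_5) (by decide) hn t22_23_8_5_25 _ _ (by decide +kernel)

/-- certificates of the pair `(8, 5)`, part 26 -/
def t22_23_8_5_26 : BlkD.Tr :=
  .E 0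

lemma s22_23_8_5_26 {n : ℕ} (hn : 7 ≤ n) : NoNd (d22_23_8_5.R : ℤ) d22_23_8_5.H n d22_23_8_5.a d22_23_8_5.b
    (BlkD.inB (BlkD.upd (fun _ => 0) 0 9)
      (fun _ => 23)) :=
  BlkD.tree_sound (BlkD.pairOk_sound k22_23_8_5) (by decide) hn t22_23_8_5_26 _ _ (by decide +kernel)

lemma pr22_23_8_5 {n : ℕ} (hn : 7 ≤ n) : NoPr ((22 : ℕ) : ℤ) ((23 : ℕ) : ℤ) n 8 5 :=
  BlkD.of_root (R := d22_23_8_5.R) (H := d22_23_8_5.H) (a := d22_23_8_5.a) (b := d22_23_8_5.b) (q := 5) (by decide) hn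
    (BlkD.sp 0 8 (BlkD.sp 2 5 (BlkD.sp 0 4 (BlkD.sp 0 2 (BlkD.sp 0 1 (BlkD.sp 0 0 (s22_23_8_5_1 hn)
      (BlkD.sp 1 11 (BlkD.sp 1 5 (s22_23_8_5_2 hn) (BlkD.sp 1 8 (s22_23_8_5_3 hn) (s22_23_8_5_4
      hn))) (s22_23_8_5_5 hn))) (BlkD.sp 1 11 (BlkD.sp 1 5 (s22_23_8_5_6 hn) (BlkD.sp 1 8
      (s22_23_8_5_7 hn) (s22_23_8_5_8 hn))) (s22_23_8_5_9 hn))) (BlkD.sp 0 3 (BlkD.sp 1 11 (BlkD.sp
      1 5 (s22_23_8_5_10 hn) (BlkD.sp 1 8 (s22_23_8_5_11 hn) (s22_23_8_5_12 hn))) (s22_23_8_5_13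
      hn)) (BlkD.sp 1 19 (BlkD.sp 1 9 (BlkD.sp 1 4 (s22_23_8_5_14 hn) (BlkD.sp 1 7 (s22_23_8_5_15
      hn) (s22_23_8_5_16 hn))) (s22_23_8_5_17 hn)) (s22_23_8_5_18 hn)))) (BlkD.sp 0 6 (BlkD.sp 0 5
      (BlkD.sp 1 18 (BlkD.sp 1 9 (BlkD.sp 1 4 (s22_23_8_5_19 hn) (s22_23_8_5_20 hn)) (s22_23_8_5_21
      hn)) (s22_23_8_5_22 hn)) (s22_23_8_5_23 hn)) (s22_23_8_5_24 hn))) (s22_23_8_5_25 hn))
      (s22_23_8_5_26 hn))

end BlkC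

end Pool.Agent.Lib.MP_f04ccf_co
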