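import Pool.Agent.Lib.MP_f04ccf_co.M.BlkT

/-!
MP_f04ccf_co, block certificate, data `R = 22`, `H = 23`, part 15 (generated, helper99:
bd10.cpp, gen2.py).
-/

set_option autoImplicit false
set_option maxRecDepth 100000

namespace Pool.Agent.Lib.MP_f04ccf_co

namespace BlkC

/-- the numbers of the pair `(8, 6)`, `R = 22`, `H = 23` -/
def d22_23_8_6 : BlkD.Pd :=
  ⟨22, 23, 5, 8, 6, 6, 1, 3, 0, 4, 8, 0, 2, 2, 6, 0, [0, 8, 16, 24, 24, 24, 24], [0, 6, 12, 18, 20,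
    22, 24], [⟨1, 1, 1, 4, 8, [0, 4], [0, 4]⟩, ⟨1, 1, 1, 4, 14, [0, 8], [0, 6]⟩]⟩

lemma k22_23_8_6 : BlkD.pairOk d22_23_8_6 = true := by decide +kernel

/-- certificates of the pair `(8, 6)`, part 1 -/
def t22_23_8_6_1 : BlkD.Tr :=
  .L 5 6 [4, 4, 22, 22, 22, 22, 22] [] [] 100000 1 1 1633333 66667 23810 71429 47619 0 0 0

lemma s22_23_8_6_1 {n : ℕ} (hn : 7 ≤ n) : NoNd (d22_23_8_6.R : ℤ) d22_23_8_6.H n d22_23_8_6.a d22_23_8_6.b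
    (BlkD.inB (fun _ => 0)
      (BlkD.upd (BlkD.upd (BlkD.upd (BlkD.upd (BlkD.upd (BlkD.upd (fun _ => 23) 0 8) 2 6) 0 4) 0 2) 0 1) 0 0)) :=
  BlkD.tree_sound (BlkD.pairOk_sound k22_23_8_6) (by decide) hn t22_23_8_6_1 _ _ (by decide +kernel)

/-- certificates of the pair `(8, 6)`, part 2 -/
def t22_23_8_6_2 : BlkD.Tr :=
  .S 1 2 (.L 5 6 [4, 4, 22, 22, 22, 22, 22] [] [] 100000 1 1 1633333 66667 23810 71429 47619 0 0 0)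
    (.L 5 6 [4, 4, 22, 22, 22, 22, 22] [] [] 100000 1 1 1633333 66667 23810 71429 47619 0 0 0)

lemma s22_23_8_6_2 {n : ℕ} (hn : 7 ≤ n) : NoNd (d22_23_8_6.R : ℤ) d22_23_8_6.H n d22_23_8_6.a d22_23_8_6.b
    (BlkD.inB (BlkD.upd (fun _ => 0) 0 1)
      (BlkD.upd (BlkD.upd (BlkD.upd (BlkD.upd (BlkD.upd (BlkD.upd (BlkD.upd (fun _ => 23) 0 8) 2 6) 0 4) 0 2) 0 1) 1 11) 1 5)) :=
  BlkD.tree_sound (BlkD.pairOk_sound k22_23_8_6) (by decide) hn t22_23_8_6_2 _ _ (by decide +kernel)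

/-- certificates of the pair `(8, 6)`, part 3 -/
def t22_23_8_6_3 : BlkD.Tr :=
  .S 1 8 (.S 1 7 (.L 5 6 [4, 4, 22, 22, 22, 22, 22] [] [] 100000 1 1 1633333 66667 23810 71429
    47619 0 0 0) (.L 5 6 [4, 4, 22, 22, 22, 22, 22] [138, 138, 138, 130, 122, 114] [] 100000 1 1
    1633333 66667 23810 71429 47619 0 0 0)) (.L 5 6 [4, 4, 22, 22, 22, 22, 22] [] [] 100000 1 1
    1633333 66667 23810 71429 47619 0 0 0)

lemma s22_23_8_6_3 {n : ℕ} (hn : 7 ≤ n) : NoNd (d22_23_8_6.R : ℤ) d22_23_8_6.H n d22_23_8_6.a d22_23_8_6.b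
    (BlkD.inB (BlkD.upd (BlkD.upd (fun _ => 0) 0 1) 1 6)
      (BlkD.upd (BlkD.upd (BlkD.upd (BlkD.upd (BlkD.upd (BlkD.upd (fun _ => 23) 0 8) 2 6) 0 4) 0 2) 0 1) 1 11)) :=
  BlkD.tree_sound (BlkD.pairOk_sound k22_23_8_6) (by decide) hn t22_23_8_6_3 _ _ (by decide +kernel)

/-- certificates of the pair `(8, 6)`, part 4 -/
def t22_23_8_6_4 : BlkD.Tr :=
  .L 5 6 [4, 4, 22, 22, 22, 22, 22] [] [] 100000 1 1 1633333 66667 23810 71429 47619 0 0 0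

lemma s22_23_8_6_4 {n : ℕ} (hn : 7 ≤ n) : NoNd (d22_23_8_6.R : ℤ) d22_23_8_6.H n d22_23_8_6.a d22_23_8_6.b
    (BlkD.inB (BlkD.upd (BlkD.upd (fun _ => 0) 0 1) 1 12)
      (BlkD.upd (BlkD.upd (BlkD.upd (BlkD.upd (BlkD.upd (fun _ => 23) 0 8) 2 6) 0 4) 0 2) 0 1)) :=
  BlkD.tree_sound (BlkD.pairOk_sound k22_23_8_6) (by decide) hn t22_23_8_6_4 _ _ (by decide +kernel)

/-- certificates of the pair `(8, 6)`, part 5 -/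
def t22_23_8_6_5 : BlkD.Tr :=
  .S 1 2 (.L 5 6 [4, 4, 22, 22, 22, 22, 22] [] [] 100000 1 1 1633333 66667 23810 71429 47619 0 0 0)
    (.L 5 6 [4, 4, 22, 22, 22, 22, 22] [] [] 100000 1 1 1633333 66667 23810 71429 47619 0 0 0)

lemma s22_23_8_6_5 {n : ℕ} (hn : 7 ≤ n) : NoNd (d22_23_8_6.R : ℤ) d22_23_8_6.H n d22_23_8_6.a d22_23_8_6.b
    (BlkD.inB (BlkD.upd (fun _ => 0) 0 2)
      (BlkD.upd (BlkD.upd (BlkD.upd (BlkD.upd (BlkD.upd (BlkD.upd (fun _ => 23) 0 8) 2 6) 0 4) 0 2) 1 11) 1 5)) :=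
  BlkD.tree_sound (BlkD.pairOk_sound k22_23_8_6) (by decide) hn t22_23_8_6_5 _ _ (by decide +kernel)

/-- certificates of the pair `(8, 6)`, part 6 -/
def t22_23_8_6_6 : BlkD.Tr :=
  .S 1 7 (.L 5 6 [4, 4, 22, 22, 22, 22, 22] [] [] 100000 1 1 1633333 66667 23810 71429 47619 0 0 0)
    (.L 5 6 [4, 4, 22, 22, 22, 22, 22] [154, 154, 154, 146, 138, 130] [] 100000 1 1 1633333 66667
    23810 71429 47619 0 0 0)

lemma s22_23_8_6_6 {n : ℕ} (hn : 7 ≤ n) : NoNd (d22_23_8_6.R : ℤ) d22_23_8_6.H n d22_23_8_6.a d22_23_8_6.b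
    (BlkD.inB (BlkD.upd (BlkD.upd (fun _ => 0) 0 2) 1 6)
      (BlkD.upd (BlkD.upd (BlkD.upd (BlkD.upd (BlkD.upd (BlkD.upd (fun _ => 23) 0 8) 2 6) 0 4) 0 2) 1 11) 1 8)) :=
  BlkD.tree_sound (BlkD.pairOk_sound k22_23_8_6) (by decide) hn t22_23_8_6_6 _ _ (by decide +kernel)

/-- certificates of the pair `(8, 6)`, part 7 -/
def t22_23_8_6_7 : BlkD.Tr :=
  .L 5 6 [4, 4, 22, 22, 22, 22, 22] [] [] 100000 1 1 1633333 66667 23810 71429 47619 0 0 0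

lemma s22_23_8_6_7 {n : ℕ} (hn : 7 ≤ n) : NoNd (d22_23_8_6.R : ℤ) d22_23_8_6.H n d22_23_8_6.a d22_23_8_6.b
    (BlkD.inB (BlkD.upd (BlkD.upd (BlkD.upd (fun _ => 0) 0 2) 1 6) 1 9)
      (BlkD.upd (BlkD.upd (BlkD.upd (BlkD.upd (BlkD.upd (fun _ => 23) 0 8) 2 6) 0 4) 0 2) 1 11)) :=
  BlkD.tree_sound (BlkD.pairOk_sound k22_23_8_6) (by decide) hn t22_23_8_6_7 _ _ (by decide +kernel)

/-- certificates of the pair `(8, 6)`, part 8 -/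
def t22_23_8_6_8 : BlkD.Tr :=
  .L 5 6 [4, 4, 22, 22, 22, 22, 22] [] [] 100000 1 1 1633333 66667 23810 71429 47619 0 0 0

lemma s22_23_8_6_8 {n : ℕ} (hn : 7 ≤ n) : NoNd (d22_23_8_6.R : ℤ) d22_23_8_6.H n d22_23_8_6.a d22_23_8_6.b
    (BlkD.inB (BlkD.upd (BlkD.upd (fun _ => 0) 0 2) 1 12)
      (BlkD.upd (BlkD.upd (BlkD.upd (BlkD.upd (fun _ => 23) 0 8) 2 6) 0 4) 0 2)) :=
  BlkD.tree_sound (BlkD.pairOk_sound k22_23_8_6) (by decide) hn t22_23_8_6_8 _ _ (by decide +kernel)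

/-- certificates of the pair `(8, 6)`, part 9 -/
def t22_23_8_6_9 : BlkD.Tr :=
  .S 1 2 (.L 5 6 [4, 4, 22, 22, 22, 22, 22] [] [] 100000 1 1 1633333 66667 23810 71429 47619 0 0 0)
    (.L 5 6 [4, 4, 22, 22, 22, 22, 22] [] [] 100000 1 1 1633333 66667 23810 71429 47619 0 0 0)

lemma s22_23_8_6_9 {n : ℕ} (hn : 7 ≤ n) : NoNd (d22_23_8_6.R : ℤ) d22_23_8_6.H n d22_23_8_6.a d22_23_8_6.b
    (BlkD.inB (BlkD.upd (fun _ => 0) 0 3)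
      (BlkD.upd (BlkD.upd (BlkD.upd (BlkD.upd (BlkD.upd (BlkD.upd (fun _ => 23) 0 8) 2 6) 0 4) 0 3) 1 11) 1 5)) :=
  BlkD.tree_sound (BlkD.pairOk_sound k22_23_8_6) (by decide) hn t22_23_8_6_9 _ _ (by decide +kernel)

/-- certificates of the pair `(8, 6)`, part 10 -/
def t22_23_8_6_10 : BlkD.Tr :=
  .S 1 7 (.L 5 6 [4, 4, 22, 22, 22, 22, 22] [] [] 100000 1 1 1633333 66667 23810 71429 47619 0 0 0)
    (.L 5 6 [4, 4, 22, 22, 22, 22, 22] [170, 170, 170, 162, 154, 146] [] 100000 1 1 1633333 66667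
    23810 71429 47619 0 0 0)

lemma s22_23_8_6_10 {n : ℕ} (hn : 7 ≤ n) : NoNd (d22_23_8_6.R : ℤ) d22_23_8_6.H n d22_23_8_6.a d22_23_8_6.b
    (BlkD.inB (BlkD.upd (BlkD.upd (fun _ => 0) 0 3) 1 6)
      (BlkD.upd (BlkD.upd (BlkD.upd (BlkD.upd (BlkD.upd (BlkD.upd (fun _ => 23) 0 8) 2 6) 0 4) 0 3) 1 11) 1 8)) :=
  BlkD.tree_sound (BlkD.pairOk_sound k22_23_8_6) (by decide) hn t22_23_8_6_10 _ _ (by decide +kernel)

/-- certificates of the pair `(8, 6)`, part 11 -/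
def t22_23_8_6_11 : BlkD.Tr :=
  .S 1 10 (.S 1 9 (.L 5 6 [4, 4, 22, 22, 22, 22, 22] [192, 192, 192, 192, 184, 176] [] 100000 1 1
    1633333 66667 23810 71429 47619 0 0 0) (.L 5 6 [4, 4, 22, 22, 22, 22, 22] [216, 216, 216, 216,
    216, 208] [] 100000 1 1 1633333 66667 23810 71429 47619 0 0 0)) (.L 5 6 [4, 4, 22, 22, 22, 22,
    22] [242, 242, 242, 242, 242, 242] [] 100000 1 1 1633333 66667 23810 71429 47619 0 0 0)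

lemma s22_23_8_6_11 {n : ℕ} (hn : 7 ≤ n) : NoNd (d22_23_8_6.R : ℤ) d22_23_8_6.H n d22_23_8_6.a d22_23_8_6.b
    (BlkD.inB (BlkD.upd (BlkD.upd (BlkD.upd (fun _ => 0) 0 3) 1 6) 1 9)
      (BlkD.upd (BlkD.upd (BlkD.upd (BlkD.upd (BlkD.upd (fun _ => 23) 0 8) 2 6) 0 4) 0 3) 1 11)) :=
  BlkD.tree_sound (BlkD.pairOk_sound k22_23_8_6) (by decide) hn t22_23_8_6_11 _ _ (by decide +kernel)

/-- certificates of the pair `(8, 6)`, part 12 -/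
def t22_23_8_6_12 : BlkD.Tr :=
  .L 5 6 [4, 4, 22, 22, 22, 22, 22] [] [] 100000 1 1 1633333 66667 23810 71429 47619 0 0 0

lemma s22_23_8_6_12 {n : ℕ} (hn : 7 ≤ n) : NoNd (d22_23_8_6.R : ℤ) d22_23_8_6.H n d22_23_8_6.a d22_23_8_6.b
    (BlkD.inB (BlkD.upd (BlkD.upd (fun _ => 0) 0 3) 1 12)
      (BlkD.upd (BlkD.upd (BlkD.upd (BlkD.upd (fun _ => 23) 0 8) 2 6) 0 4) 0 3)) :=
  BlkD.tree_sound (BlkD.pairOk_sound k22_23_8_6) (by decide) hn t22_23_8_6_12 _ _ (by decide +kernel)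

/-- certificates of the pair `(8, 6)`, part 13 -/
def t22_23_8_6_13 : BlkD.Tr :=
  .S 1 2 (.L 5 6 [4, 4, 22, 22, 22, 22, 22] [] [] 100000 1 1 1633333 66667 23810 71429 47619 0 0 0)
    (.L 5 6 [4, 4, 22, 22, 22, 22, 22] [] [] 100000 1 1 1633333 66667 23810 71429 47619 0 0 0)

lemma s22_23_8_6_13 {n : ℕ} (hn : 7 ≤ n) : NoNd (d22_23_8_6.R : ℤ) d22_23_8_6.H n d22_23_8_6.a d22_23_8_6.b
    (BlkD.inB (BlkD.upd (BlkD.upd (fun _ => 0) 0 3) 0 4)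
      (BlkD.upd (BlkD.upd (BlkD.upd (BlkD.upd (BlkD.upd (fun _ => 23) 0 8) 2 6) 0 4) 1 11) 1 5)) :=
  BlkD.tree_sound (BlkD.pairOk_sound k22_23_8_6) (by decide) hn t22_23_8_6_13 _ _ (by decide +kernel)

/-- certificates of the pair `(8, 6)`, part 14 -/
def t22_23_8_6_14 : BlkD.Tr :=
  .S 1 6 (.L 5 6 [4, 4, 22, 22, 22, 22, 22] [144, 136, 128, 120, 108, 94] [] 100000 1 1 1633333
    66667 23810 71429 47619 0 0 0) (.L 5 6 [4, 4, 22, 22, 22, 22, 22] [164, 164, 156, 148, 140,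
    128] [] 100000 1 1 1633333 66667 23810 71429 47619 0 0 0)

lemma s22_23_8_6_14 {n : ℕ} (hn : 7 ≤ n) : NoNd (d22_23_8_6.R : ℤ) d22_23_8_6.H n d22_23_8_6.a d22_23_8_6.b
    (BlkD.inB (BlkD.upd (BlkD.upd (BlkD.upd (fun _ => 0) 0 3) 0 4) 1 6)
      (BlkD.upd (BlkD.upd (BlkD.upd (BlkD.upd (BlkD.upd (BlkD.upd (fun _ => 23) 0 8) 2 6) 0 4) 1 11) 1 8) 1 7)) :=
  BlkD.tree_sound (BlkD.pairOk_sound k22_23_8_6) (by decide) hn t22_23_8_6_14 _ _ (by decide +kernel)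

/-- certificates of the pair `(8, 6)`, part 15 -/
def t22_23_8_6_15 : BlkD.Tr :=
  .L 5 6 [4, 4, 22, 22, 22, 22, 22] [186, 186, 186, 178, 170, 162] [] 100000 1 1 1633333 66667
    23810 71429 47619 0 0 0

lemma s22_23_8_6_15 {n : ℕ} (hn : 7 ≤ n) : NoNd (d22_23_8_6.R : ℤ) d22_23_8_6.H n d22_23_8_6.a d22_23_8_6.b
    (BlkD.inB (BlkD.upd (BlkD.upd (BlkD.upd (BlkD.upd (fun _ => 0) 0 3) 0 4) 1 6) 1 8)
      (BlkD.upd (BlkD.upd (BlkD.upd (BlkD.upd (BlkD.upd (fun _ => 23) 0 8) 2 6) 0 4) 1 11) 1 8)) :=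
  BlkD.tree_sound (BlkD.pairOk_sound k22_23_8_6) (by decide) hn t22_23_8_6_15 _ _ (by decide +kernel)

/-- certificates of the pair `(8, 6)`, part 16 -/
def t22_23_8_6_16 : BlkD.Tr :=
  .L 5 6 [4, 4, 22, 22, 22, 22, 22] [] [] 100000 1 1 1633333 66667 23810 71429 47619 0 0 0

lemma s22_23_8_6_16 {n : ℕ} (hn : 7 ≤ n) : NoNd (d22_23_8_6.R : ℤ) d22_23_8_6.H n d22_23_8_6.a d22_23_8_6.b
    (BlkD.inB (BlkD.upd (BlkD.upd (BlkD.upd (BlkD.upd (fun _ => 0) 0 3) 0 4) 1 6) 1 9)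
      (BlkD.upd (BlkD.upd (BlkD.upd (BlkD.upd (fun _ => 23) 0 8) 2 6) 0 4) 1 11)) :=
  BlkD.tree_sound (BlkD.pairOk_sound k22_23_8_6) (by decide) hn t22_23_8_6_16 _ _ (by decide +kernel)

/-- certificates of the pair `(8, 6)`, part 17 -/
def t22_23_8_6_17 : BlkD.Tr :=
  .L 5 6 [4, 4, 22, 22, 22, 22, 22] [] [] 100000 1 1 1633333 66667 23810 71429 47619 0 0 0

lemma s22_23_8_6_17 {n : ℕ} (hn : 7 ≤ n) : NoNd (d22_23_8_6.R : ℤ) d22_23_8_6.H n d22_23_8_6.a d22_23_8_6.b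
    (BlkD.inB (BlkD.upd (BlkD.upd (BlkD.upd (fun _ => 0) 0 3) 0 4) 1 12)
      (BlkD.upd (BlkD.upd (BlkD.upd (fun _ => 23) 0 8) 2 6) 0 4)) :=
  BlkD.tree_sound (BlkD.pairOk_sound k22_23_8_6) (by decide) hn t22_23_8_6_17 _ _ (by decide +kernel)

/-- certificates of the pair `(8, 6)`, part 18 -/
def t22_23_8_6_18 : BlkD.Tr :=
  .S 1 2 (.L 5 6 [4, 4, 22, 22, 22, 22, 22] [] [] 100000 1 1 1633333 66667 23810 71429 47619 0 0 0)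
    (.L 5 6 [4, 4, 22, 22, 22, 22, 22] [] [] 100000 1 1 1633333 66667 23810 71429 47619 0 0 0)

lemma s22_23_8_6_18 {n : ℕ} (hn : 7 ≤ n) : NoNd (d22_23_8_6.R : ℤ) d22_23_8_6.H n d22_23_8_6.a d22_23_8_6.b
    (BlkD.inB (BlkD.upd (fun _ => 0) 0 5)
      (BlkD.upd (BlkD.upd (BlkD.upd (BlkD.upd (BlkD.upd (BlkD.upd (fun _ => 23) 0 8) 2 6) 0 6) 0 5) 1 11) 1 5)) :=
  BlkD.tree_sound (BlkD.pairOk_sound k22_23_8_6) (by decide) hn t22_23_8_6_18 _ _ (by decide +kernel)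

/-- certificates of the pair `(8, 6)`, part 19 -/
def t22_23_8_6_19 : BlkD.Tr :=
  .S 1 8 (.S 1 7 (.L 5 6 [4, 4, 22, 22, 22, 22, 22] [] [] 100000 1 1 1633333 66667 23810 71429
    47619 0 0 0) (.L 5 6 [4, 4, 22, 22, 22, 22, 22] [202, 202, 202, 194, 186, 178] [] 100000 1 1
    1633333 66667 23810 71429 47619 0 0 0)) (.L 5 6 [4, 4, 22, 22, 22, 22, 22] [] [] 100000 1 1
    1633333 66667 23810 71429 47619 0 0 0)

lemma s22_23_8_6_19 {n : ℕ} (hn : 7 ≤ n) : NoNd (d22_23_8_6.R : ℤ) d22_23_8_6.H n d22_23_8_6.a d22_23_8_6.b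
    (BlkD.inB (BlkD.upd (BlkD.upd (fun _ => 0) 0 5) 1 6)
      (BlkD.upd (BlkD.upd (BlkD.upd (BlkD.upd (BlkD.upd (fun _ => 23) 0 8) 2 6) 0 6) 0 5) 1 11)) :=
  BlkD.tree_sound (BlkD.pairOk_sound k22_23_8_6) (by decide) hn t22_23_8_6_19 _ _ (by decide +kernel)

/-- certificates of the pair `(8, 6)`, part 20 -/
def t22_23_8_6_20 : BlkD.Tr :=
  .L 5 6 [4, 4, 22, 22, 22, 22, 22] [] [] 100000 1 1 1633333 66667 23810 71429 47619 0 0 0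

lemma s22_23_8_6_20 {n : ℕ} (hn : 7 ≤ n) : NoNd (d22_23_8_6.R : ℤ) d22_23_8_6.H n d22_23_8_6.a d22_23_8_6.b
    (BlkD.inB (BlkD.upd (BlkD.upd (fun _ => 0) 0 5) 1 12)
      (BlkD.upd (BlkD.upd (BlkD.upd (BlkD.upd (fun _ => 23) 0 8) 2 6) 0 6) 0 5)) :=
  BlkD.tree_sound (BlkD.pairOk_sound k22_23_8_6) (by decide) hn t22_23_8_6_20 _ _ (by decide +kernel)

/-- certificates of the pair `(8, 6)`, part 21 -/
def t22_23_8_6_21 : BlkD.Tr :=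
  .S 1 11 (.S 1 5 (.S 1 2 (.L 5 6 [4, 4, 22, 22, 22, 22, 22] [] [] 100000 1 1 1633333 66667 23810
    71429 47619 0 0 0) (.L 5 6 [4, 4, 22, 22, 22, 22, 22] [] [] 100000 1 1 1633333 66667 23810
    71429 47619 0 0 0)) (.L 5 6 [4, 4, 22, 22, 22, 22, 22] [] [] 100000 1 1 1633333 66667 23810
    71429 47619 0 0 0)) (.L 5 6 [4, 4, 22, 22, 22, 22, 22] [] [] 100000 1 1 1633333 66667 23810
    71429 47619 0 0 0)

lemma s22_23_8_6_21 {n : ℕ} (hn : 7 ≤ n) : NoNd (d22_23_8_6.R : ℤ) d22_23_8_6.H n d22_23_8_6.a d22_23_8_6.b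
    (BlkD.inB (BlkD.upd (BlkD.upd (fun _ => 0) 0 5) 0 6)
      (BlkD.upd (BlkD.upd (BlkD.upd (fun _ => 23) 0 8) 2 6) 0 6)) :=
  BlkD.tree_sound (BlkD.pairOk_sound k22_23_8_6) (by decide) hn t22_23_8_6_21 _ _ (by decide +kernel)

/-- certificates of the pair `(8, 6)`, part 22 -/
def t22_23_8_6_22 : BlkD.Tr :=
  .L 5 6 [4, 4, 22, 22, 22, 22, 22] [] [] 100000 1 1 1633333 66667 23810 71429 47619 0 0 0

lemma s22_23_8_6_22 {n : ℕ} (hn : 7 ≤ n) : NoNd (d22_23_8_6.R : ℤ) d22_23_8_6.H n d22_23_8_6.a d22_23_8_6.b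
    (BlkD.inB (BlkD.upd (BlkD.upd (fun _ => 0) 0 5) 0 7)
      (BlkD.upd (BlkD.upd (fun _ => 23) 0 8) 2 6)) :=
  BlkD.tree_sound (BlkD.pairOk_sound k22_23_8_6) (by decide) hn t22_23_8_6_22 _ _ (by decide +kernel)

/-- certificates of the pair `(8, 6)`, part 23 -/
def t22_23_8_6_23 : BlkD.Tr :=
  .E 1

lemma s22_23_8_6_23 {n : ℕ} (hn : 7 ≤ n) : NoNd (d22_23_8_6.R : ℤ) d22_23_8_6.H n d22_23_8_6.a d22_23_8_6.b
    (BlkD.inB (BlkD.upd (fun _ => 0) 2 7)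
      (BlkD.upd (fun _ => 23) 0 8)) :=
  BlkD.tree_sound (BlkD.pairOk_sound k22_23_8_6) (by decide) hn t22_23_8_6_23 _ _ (by decide +kernel)

/-- certificates of the pair `(8, 6)`, part 24 -/
def t22_23_8_6_24 : BlkD.Tr :=
  .E 0

lemma s22_23_8_6_24 {n : ℕ} (hn : 7 ≤ n) : NoNd (d22_23_8_6.R : ℤ) d22_23_8_6.H n d22_23_8_6.a d22_23_8_6.b
    (BlkD.inB (BlkD.upd (fun _ => 0) 0 9)
      (fun _ => 23)) :=
  BlkD.tree_sound (BlkD.pairOk_sound k22_23_8_6) (by decide) hn t22_23_8_6_24 _ _ (by decide +kernel)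

lemma pr22_23_8_6 {n : ℕ} (hn : 7 ≤ n) : NoPr ((22 : ℕ) : ℤ) ((23 : ℕ) : ℤ) n 8 6 :=
  BlkD.of_root (R := d22_23_8_6.R) (H := d22_23_8_6.H) (a := d22_23_8_6.a) (b := d22_23_8_6.b) (q := 5) (by decide) hn
    (BlkD.sp 0 8 (BlkD.sp 2 6 (BlkD.sp 0 4 (BlkD.sp 0 2 (BlkD.sp 0 1 (BlkD.sp 0 0 (s22_23_8_6_1 hn)
      (BlkD.sp 1 11 (BlkD.sp 1 5 (s22_23_8_6_2 hn) (s22_23_8_6_3 hn)) (s22_23_8_6_4 hn))) (BlkD.sp
      1 11 (BlkD.sp 1 5 (s22_23_8_6_5 hn) (BlkD.sp 1 8 (s22_23_8_6_6 hn) (s22_23_8_6_7 hn)))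
      (s22_23_8_6_8 hn))) (BlkD.sp 0 3 (BlkD.sp 1 11 (BlkD.sp 1 5 (s22_23_8_6_9 hn) (BlkD.sp 1 8
      (s22_23_8_6_10 hn) (s22_23_8_6_11 hn))) (s22_23_8_6_12 hn)) (BlkD.sp 1 11 (BlkD.sp 1 5
      (s22_23_8_6_13 hn) (BlkD.sp 1 8 (BlkD.sp 1 7 (s22_23_8_6_14 hn) (s22_23_8_6_15 hn))
      (s22_23_8_6_16 hn))) (s22_23_8_6_17 hn)))) (BlkD.sp 0 6 (BlkD.sp 0 5 (BlkD.sp 1 11 (BlkD.sp 1
      5 (s22_23_8_6_18 hn) (s22_23_8_6_19 hn)) (s22_23_8_6_20 hn)) (s22_23_8_6_21 hn))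
      (s22_23_8_6_22 hn))) (s22_23_8_6_23 hn)) (s22_23_8_6_24 hn))

end BlkC

end Pool.Agent.Lib.MP_f04ccf_co
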