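import Pool.Agent.Lib.MP_f04ccf_co.M.BlkT

/-!
MP_f04ccf_co, block certificate, data `R = 22`, `H = 23`, part 16 (generated, helper99:
bd10.cpp, gen2.py).
-/

set_option autoImplicit false
set_option maxRecDepth 100000

namespace Pool.Agent.Lib.MP_f04ccf_co

namespace BlkC

/-- the numbers of the pair `(8, 7)`, `R = 22`, `H = 23` -/
def d22_23_8_7 : BlkD.Pd :=
  ⟨22, 23, 5, 8, 7, 5, 0, 4, 0, 4, 4, 0, 0, 4, 4, 0, [0, 4, 8, 12, 16, 20], [0, 4, 8, 12, 16, 20],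
    [⟨1, 1, 1, 4, 8, [0, 4], [0, 4]⟩]⟩

lemma k22_23_8_7 : BlkD.pairOk d22_23_8_7 = true := by decide +kernel

/-- certificates of the pair `(8, 7)`, part 1 -/
def t22_23_8_7_1 : BlkD.Tr :=
  .L 4 4 [4, 22, 22, 22, 22, 22, 22, 22] [] [] 100000 0 0 1700000 50000 50000 100000 50000 0 0 0

lemma s22_23_8_7_1 {n : ℕ} (hn : 7 ≤ n) : NoNd (d22_23_8_7.R : ℤ) d22_23_8_7.H n d22_23_8_7.a d22_23_8_7.b
    (BlkD.inB (fun _ => 0)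
      (BlkD.upd (BlkD.upd (BlkD.upd (BlkD.upd (BlkD.upd (BlkD.upd (fun _ => 23) 0 8) 2 7) 0 4) 0 2) 0 1) 0 0)) :=
  BlkD.tree_sound (BlkD.pairOk_sound k22_23_8_7) (by decide) hn t22_23_8_7_1 _ _ (by decide +kernel)

/-- certificates of the pair `(8, 7)`, part 2 -/
def t22_23_8_7_2 : BlkD.Tr :=
  .S 1 2 (.L 4 4 [4, 22, 22, 22, 22, 22, 22, 22] [] [] 100000 0 0 1700000 50000 50000 100000 50000
    0 0 0) (.S 1 4 (.L 4 4 [4, 22, 22, 22, 22, 22, 22, 22] [] [] 100000 0 0 1700000 50000 50000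
    100000 50000 0 0 0) (.L 4 4 [4, 22, 22, 22, 22, 22, 22, 22] [94, 90, 78, 64, 46, 30] [] 100000
    0 0 1700000 50000 50000 100000 50000 0 0 0))

lemma s22_23_8_7_2 {n : ℕ} (hn : 7 ≤ n) : NoNd (d22_23_8_7.R : ℤ) d22_23_8_7.H n d22_23_8_7.a d22_23_8_7.b
    (BlkD.inB (BlkD.upd (fun _ => 0) 0 1)
      (BlkD.upd (BlkD.upd (BlkD.upd (BlkD.upd (BlkD.upd (BlkD.upd (BlkD.upd (fun _ => 23) 0 8) 2 7) 0 4) 0 2) 0 1) 1 11) 1 5)) :=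
  BlkD.tree_sound (BlkD.pairOk_sound k22_23_8_7) (by decide) hn t22_23_8_7_2 _ _ (by decide +kernel)

/-- certificates of the pair `(8, 7)`, part 3 -/
def t22_23_8_7_3 : BlkD.Tr :=
  .S 1 8 (.S 1 7 (.L 4 4 [4, 22, 22, 22, 22, 22, 22, 22] [] [] 100000 0 0 1700000 50000 50000
    100000 50000 0 0 0) (.L 4 4 [4, 22, 22, 22, 22, 22, 22, 22] [148, 144, 140, 136, 132, 120] []
    100000 0 0 1700000 50000 50000 100000 50000 0 0 0)) (.L 4 4 [4, 22, 22, 22, 22, 22, 22, 22] []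
    [] 100000 0 0 1700000 50000 50000 100000 50000 0 0 0)

lemma s22_23_8_7_3 {n : ℕ} (hn : 7 ≤ n) : NoNd (d22_23_8_7.R : ℤ) d22_23_8_7.H n d22_23_8_7.a d22_23_8_7.b
    (BlkD.inB (BlkD.upd (BlkD.upd (fun _ => 0) 0 1) 1 6)
      (BlkD.upd (BlkD.upd (BlkD.upd (BlkD.upd (BlkD.upd (BlkD.upd (fun _ => 23) 0 8) 2 7) 0 4) 0 2) 0 1) 1 11)) :=
  BlkD.tree_sound (BlkD.pairOk_sound k22_23_8_7) (by decide) hn t22_23_8_7_3 _ _ (by decide +kernel)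

/-- certificates of the pair `(8, 7)`, part 4 -/
def t22_23_8_7_4 : BlkD.Tr :=
  .L 4 4 [4, 22, 22, 22, 22, 22, 22, 22] [] [] 100000 0 0 1700000 50000 50000 100000 50000 0 0 0

lemma s22_23_8_7_4 {n : ℕ} (hn : 7 ≤ n) : NoNd (d22_23_8_7.R : ℤ) d22_23_8_7.H n d22_23_8_7.a d22_23_8_7.b
    (BlkD.inB (BlkD.upd (BlkD.upd (fun _ => 0) 0 1) 1 12)
      (BlkD.upd (BlkD.upd (BlkD.upd (BlkD.upd (BlkD.upd (fun _ => 23) 0 8) 2 7) 0 4) 0 2) 0 1)) :=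
  BlkD.tree_sound (BlkD.pairOk_sound k22_23_8_7) (by decide) hn t22_23_8_7_4 _ _ (by decide +kernel)

/-- certificates of the pair `(8, 7)`, part 5 -/
def t22_23_8_7_5 : BlkD.Tr :=
  .S 1 2 (.L 4 4 [4, 22, 22, 22, 22, 22, 22, 22] [] [] 100000 0 0 1700000 50000 50000 100000 50000
    0 0 0) (.S 1 4 (.L 4 4 [4, 22, 22, 22, 22, 22, 22, 22] [] [] 100000 0 0 1700000 50000 50000
    100000 50000 0 0 0) (.L 4 4 [4, 22, 22, 22, 22, 22, 22, 22] [104, 100, 88, 74, 56, 40] []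
    100000 0 0 1700000 50000 50000 100000 50000 0 0 0))

lemma s22_23_8_7_5 {n : ℕ} (hn : 7 ≤ n) : NoNd (d22_23_8_7.R : ℤ) d22_23_8_7.H n d22_23_8_7.a d22_23_8_7.b
    (BlkD.inB (BlkD.upd (fun _ => 0) 0 2)
      (BlkD.upd (BlkD.upd (BlkD.upd (BlkD.upd (BlkD.upd (BlkD.upd (fun _ => 23) 0 8) 2 7) 0 4) 0 2) 1 11) 1 5)) :=
  BlkD.tree_sound (BlkD.pairOk_sound k22_23_8_7) (by decide) hn t22_23_8_7_5 _ _ (by decide +kernel)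

/-- certificates of the pair `(8, 7)`, part 6 -/
def t22_23_8_7_6 : BlkD.Tr :=
  .S 1 6 (.L 4 4 [4, 22, 22, 22, 22, 22, 22, 22] [122, 118, 114, 102, 88, 70] [] 100000 0 0 1700000
    50000 50000 100000 50000 0 0 0) (.L 4 4 [4, 22, 22, 22, 22, 22, 22, 22] [142, 138, 134, 130,
    118, 104] [] 100000 0 0 1700000 50000 50000 100000 50000 0 0 0)

lemma s22_23_8_7_6 {n : ℕ} (hn : 7 ≤ n) : NoNd (d22_23_8_7.R : ℤ) d22_23_8_7.H n d22_23_8_7.a d22_23_8_7.b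
    (BlkD.inB (BlkD.upd (BlkD.upd (fun _ => 0) 0 2) 1 6)
      (BlkD.upd (BlkD.upd (BlkD.upd (BlkD.upd (BlkD.upd (BlkD.upd (BlkD.upd (fun _ => 23) 0 8) 2 7) 0 4) 0 2) 1 11) 1 8) 1 7)) :=
  BlkD.tree_sound (BlkD.pairOk_sound k22_23_8_7) (by decide) hn t22_23_8_7_6 _ _ (by decide +kernel)

/-- certificates of the pair `(8, 7)`, part 7 -/
def t22_23_8_7_7 : BlkD.Tr :=
  .L 4 4 [4, 22, 22, 22, 22, 22, 22, 22] [164, 160, 156, 152, 148, 136] [] 100000 0 0 1700000 50000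
    50000 100000 50000 0 0 0

lemma s22_23_8_7_7 {n : ℕ} (hn : 7 ≤ n) : NoNd (d22_23_8_7.R : ℤ) d22_23_8_7.H n d22_23_8_7.a d22_23_8_7.b
    (BlkD.inB (BlkD.upd (BlkD.upd (BlkD.upd (fun _ => 0) 0 2) 1 6) 1 8)
      (BlkD.upd (BlkD.upd (BlkD.upd (BlkD.upd (BlkD.upd (BlkD.upd (fun _ => 23) 0 8) 2 7) 0 4) 0 2) 1 11) 1 8)) :=
  BlkD.tree_sound (BlkD.pairOk_sound k22_23_8_7) (by decide) hn t22_23_8_7_7 _ _ (by decide +kernel)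

/-- certificates of the pair `(8, 7)`, part 8 -/
def t22_23_8_7_8 : BlkD.Tr :=
  .S 2 3 (.L 4 4 [4, 22, 22, 22, 22, 22, 22, 22] [188, 184, 180, 176, 172, 168] [] 100000 0 0
    1700000 50000 50000 100000 50000 0 0 0) (.L 4 4 [4, 22, 22, 22, 22, 22, 22, 22] [188, 184, 180,
    176, 172, 168] [] 100000 0 0 1700000 50000 50000 100000 50000 0 0 0)

lemma s22_23_8_7_8 {n : ℕ} (hn : 7 ≤ n) : NoNd (d22_23_8_7.R : ℤ) d22_23_8_7.H n d22_23_8_7.a d22_23_8_7.b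
    (BlkD.inB (BlkD.upd (BlkD.upd (BlkD.upd (fun _ => 0) 0 2) 1 6) 1 9)
      (BlkD.upd (BlkD.upd (BlkD.upd (BlkD.upd (BlkD.upd (BlkD.upd (BlkD.upd (fun _ => 23) 0 8) 2 7) 0 4) 0 2) 1 11) 1 10) 1 9)) :=
  BlkD.tree_sound (BlkD.pairOk_sound k22_23_8_7) (by decide) hn t22_23_8_7_8 _ _ (by decide +kernel)

/-- certificates of the pair `(8, 7)`, part 9 -/
def t22_23_8_7_9 : BlkD.Tr :=
  .L 4 4 [4, 22, 22, 22, 22, 22, 22, 22] [210, 210, 206, 202, 198, 194] [] 100000 0 0 1700000 50000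
    50000 100000 50000 0 0 0

lemma s22_23_8_7_9 {n : ℕ} (hn : 7 ≤ n) : NoNd (d22_23_8_7.R : ℤ) d22_23_8_7.H n d22_23_8_7.a d22_23_8_7.b
    (BlkD.inB (BlkD.upd (BlkD.upd (BlkD.upd (BlkD.upd (fun _ => 0) 0 2) 1 6) 1 9) 1 10)
      (BlkD.upd (BlkD.upd (BlkD.upd (BlkD.upd (BlkD.upd (BlkD.upd (fun _ => 23) 0 8) 2 7) 0 4) 0 2) 1 11) 1 10)) :=
  BlkD.tree_sound (BlkD.pairOk_sound k22_23_8_7) (by decide) hn t22_23_8_7_9 _ _ (by decide +kernel)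

/-- certificates of the pair `(8, 7)`, part 10 -/
def t22_23_8_7_10 : BlkD.Tr :=
  .L 4 4 [4, 22, 22, 22, 22, 22, 22, 22] [234, 234, 234, 230, 226, 222] [] 100000 0 0 1700000 50000
    50000 100000 50000 0 0 0

lemma s22_23_8_7_10 {n : ℕ} (hn : 7 ≤ n) : NoNd (d22_23_8_7.R : ℤ) d22_23_8_7.H n d22_23_8_7.a d22_23_8_7.b
    (BlkD.inB (BlkD.upd (BlkD.upd (BlkD.upd (BlkD.upd (fun _ => 0) 0 2) 1 6) 1 9) 1 11)
      (BlkD.upd (BlkD.upd (BlkD.upd (BlkD.upd (BlkD.upd (fun _ => 23) 0 8) 2 7) 0 4) 0 2) 1 11)) :=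
  BlkD.tree_sound (BlkD.pairOk_sound k22_23_8_7) (by decide) hn t22_23_8_7_10 _ _ (by decide +kernel)

/-- certificates of the pair `(8, 7)`, part 11 -/
def t22_23_8_7_11 : BlkD.Tr :=
  .L 4 4 [4, 22, 22, 22, 22, 22, 22, 22] [] [] 100000 0 0 1700000 50000 50000 100000 50000 0 0 0

lemma s22_23_8_7_11 {n : ℕ} (hn : 7 ≤ n) : NoNd (d22_23_8_7.R : ℤ) d22_23_8_7.H n d22_23_8_7.a d22_23_8_7.b
    (BlkD.inB (BlkD.upd (BlkD.upd (fun _ => 0) 0 2) 1 12)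
      (BlkD.upd (BlkD.upd (BlkD.upd (BlkD.upd (fun _ => 23) 0 8) 2 7) 0 4) 0 2)) :=
  BlkD.tree_sound (BlkD.pairOk_sound k22_23_8_7) (by decide) hn t22_23_8_7_11 _ _ (by decide +kernel)

/-- certificates of the pair `(8, 7)`, part 12 -/
def t22_23_8_7_12 : BlkD.Tr :=
  .S 1 2 (.L 4 4 [4, 22, 22, 22, 22, 22, 22, 22] [] [] 100000 0 0 1700000 50000 50000 100000 50000
    0 0 0) (.S 1 4 (.L 4 4 [4, 22, 22, 22, 22, 22, 22, 22] [] [] 100000 0 0 1700000 50000 50000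
    100000 50000 0 0 0) (.L 4 4 [4, 22, 22, 22, 22, 22, 22, 22] [114, 110, 98, 84, 66, 50] []
    100000 0 0 1700000 50000 50000 100000 50000 0 0 0))

lemma s22_23_8_7_12 {n : ℕ} (hn : 7 ≤ n) : NoNd (d22_23_8_7.R : ℤ) d22_23_8_7.H n d22_23_8_7.a d22_23_8_7.b
    (BlkD.inB (BlkD.upd (fun _ => 0) 0 3)
      (BlkD.upd (BlkD.upd (BlkD.upd (BlkD.upd (BlkD.upd (BlkD.upd (fun _ => 23) 0 8) 2 7) 0 4) 0 3) 1 11) 1 5)) :=
  BlkD.tree_sound (BlkD.pairOk_sound k22_23_8_7) (by decide) hn t22_23_8_7_12 _ _ (by decide +kernel)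

/-- certificates of the pair `(8, 7)`, part 13 -/
def t22_23_8_7_13 : BlkD.Tr :=
  .L 4 4 [4, 22, 22, 22, 22, 22, 22, 22] [134, 130, 126, 114, 100, 82] [] 100000 0 0 1700000 50000
    50000 100000 50000 0 0 0

lemma s22_23_8_7_13 {n : ℕ} (hn : 7 ≤ n) : NoNd (d22_23_8_7.R : ℤ) d22_23_8_7.H n d22_23_8_7.a d22_23_8_7.b
    (BlkD.inB (BlkD.upd (BlkD.upd (fun _ => 0) 0 3) 1 6)
      (BlkD.upd (BlkD.upd (BlkD.upd (BlkD.upd (BlkD.upd (BlkD.upd (BlkD.upd (BlkD.upd (fun _ => 23) 0 8) 2 7) 0 4) 0 3) 1 11) 1 8) 1 7) 1 6)) :=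
  BlkD.tree_sound (BlkD.pairOk_sound k22_23_8_7) (by decide) hn t22_23_8_7_13 _ _ (by decide +kernel)

/-- certificates of the pair `(8, 7)`, part 14 -/
def t22_23_8_7_14 : BlkD.Tr :=
  .S 2 3 (.S 2 1 (.L 4 4 [4, 22, 22, 22, 22, 22, 22, 22] [156, 152, 148, 144, 132, 118] [] 100000 0
    0 1700000 50000 50000 100000 50000 0 0 0) (.L 4 4 [4, 22, 22, 22, 22, 22, 22, 22] [156, 152,
    148, 144, 132, 118] [] 100000 0 0 1700000 50000 50000 100000 50000 0 0 0)) (.L 4 4 [4, 22, 22,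
    22, 22, 22, 22, 22] [156, 152, 148, 144, 132, 118] [] 100000 0 0 1700000 50000 50000 100000
    50000 0 0 0)

lemma s22_23_8_7_14 {n : ℕ} (hn : 7 ≤ n) : NoNd (d22_23_8_7.R : ℤ) d22_23_8_7.H n d22_23_8_7.a d22_23_8_7.b
    (BlkD.inB (BlkD.upd (BlkD.upd (BlkD.upd (fun _ => 0) 0 3) 1 6) 1 7)
      (BlkD.upd (BlkD.upd (BlkD.upd (BlkD.upd (BlkD.upd (BlkD.upd (BlkD.upd (fun _ => 23) 0 8) 2 7) 0 4) 0 3) 1 11) 1 8) 1 7)) :=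
  BlkD.tree_sound (BlkD.pairOk_sound k22_23_8_7) (by decide) hn t22_23_8_7_14 _ _ (by decide +kernel)

/-- certificates of the pair `(8, 7)`, part 15 -/
def t22_23_8_7_15 : BlkD.Tr :=
  .S 2 1 (.L 4 4 [4, 22, 22, 22, 22, 22, 22, 22] [180, 176, 172, 168, 164, 152] [] 100000 0 0
    1700000 50000 50000 100000 50000 0 0 0) (.S 2 2 (.L 4 4 [4, 22, 22, 22, 22, 22, 22, 22] [180,
    176, 172, 168, 164, 152] [] 100000 0 0 1700000 50000 50000 100000 50000 0 0 0) (.L 4 4 [4, 22,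
    22, 22, 22, 22, 22, 22] [180, 176, 172, 168, 164, 152] [] 100000 0 0 1700000 50000 50000 100000
    50000 0 0 0))

lemma s22_23_8_7_15 {n : ℕ} (hn : 7 ≤ n) : NoNd (d22_23_8_7.R : ℤ) d22_23_8_7.H n d22_23_8_7.a d22_23_8_7.b
    (BlkD.inB (BlkD.upd (BlkD.upd (BlkD.upd (fun _ => 0) 0 3) 1 6) 1 8)
      (BlkD.upd (BlkD.upd (BlkD.upd (BlkD.upd (BlkD.upd (BlkD.upd (BlkD.upd (fun _ => 23) 0 8) 2 7) 0 4) 0 3) 1 11) 1 8) 2 3)) :=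
  BlkD.tree_sound (BlkD.pairOk_sound k22_23_8_7) (by decide) hn t22_23_8_7_15 _ _ (by decide +kernel)

/-- certificates of the pair `(8, 7)`, part 16 -/
def t22_23_8_7_16 : BlkD.Tr :=
  .L 4 4 [4, 22, 22, 22, 22, 22, 22, 22] [180, 176, 172, 168, 164, 152] [] 100000 0 0 1700000 50000
    50000 100000 50000 0 0 0

lemma s22_23_8_7_16 {n : ℕ} (hn : 7 ≤ n) : NoNd (d22_23_8_7.R : ℤ) d22_23_8_7.H n d22_23_8_7.a d22_23_8_7.b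
    (BlkD.inB (BlkD.upd (BlkD.upd (BlkD.upd (BlkD.upd (fun _ => 0) 0 3) 1 6) 1 8) 2 4)
      (BlkD.upd (BlkD.upd (BlkD.upd (BlkD.upd (BlkD.upd (BlkD.upd (fun _ => 23) 0 8) 2 7) 0 4) 0 3) 1 11) 1 8)) :=
  BlkD.tree_sound (BlkD.pairOk_sound k22_23_8_7) (by decide) hn t22_23_8_7_16 _ _ (by decide +kernel)

/-- certificates of the pair `(8, 7)`, part 17 -/
def t22_23_8_7_17 : BlkD.Tr :=
  .S 2 1 (.L 4 4 [4, 22, 22, 22, 22, 22, 22, 22] [206, 202, 198, 194, 190, 186] [] 100000 0 0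
    1700000 50000 50000 100000 50000 0 0 0) (.S 2 2 (.L 4 4 [4, 22, 22, 22, 22, 22, 22, 22] [206,
    202, 198, 194, 190, 186] [] 100000 0 0 1700000 50000 50000 100000 50000 0 0 0) (.L 4 4 [4, 22,
    22, 22, 22, 22, 22, 22] [206, 202, 198, 194, 190, 186] [] 100000 0 0 1700000 50000 50000 100000
    50000 0 0 0))

lemma s22_23_8_7_17 {n : ℕ} (hn : 7 ≤ n) : NoNd (d22_23_8_7.R : ℤ) d22_23_8_7.H n d22_23_8_7.a d22_23_8_7.b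
    (BlkD.inB (BlkD.upd (BlkD.upd (BlkD.upd (fun _ => 0) 0 3) 1 6) 1 9)
      (BlkD.upd (BlkD.upd (BlkD.upd (BlkD.upd (BlkD.upd (BlkD.upd (BlkD.upd (BlkD.upd (fun _ => 23) 0 8) 2 7) 0 4) 0 3) 1 11) 1 10) 1 9) 2 3)) :=
  BlkD.tree_sound (BlkD.pairOk_sound k22_23_8_7) (by decide) hn t22_23_8_7_17 _ _ (by decide +kernel)

/-- certificates of the pair `(8, 7)`, part 18 -/
def t22_23_8_7_18 : BlkD.Tr :=
  .L 4 4 [4, 22, 22, 22, 22, 22, 22, 22] [206, 202, 198, 194, 190, 186] [] 100000 0 0 1700000 50000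
    50000 100000 50000 0 0 0

lemma s22_23_8_7_18 {n : ℕ} (hn : 7 ≤ n) : NoNd (d22_23_8_7.R : ℤ) d22_23_8_7.H n d22_23_8_7.a d22_23_8_7.b
    (BlkD.inB (BlkD.upd (BlkD.upd (BlkD.upd (BlkD.upd (fun _ => 0) 0 3) 1 6) 1 9) 2 4)
      (BlkD.upd (BlkD.upd (BlkD.upd (BlkD.upd (BlkD.upd (BlkD.upd (BlkD.upd (fun _ => 23) 0 8) 2 7) 0 4) 0 3) 1 11) 1 10) 1 9)) :=
  BlkD.tree_sound (BlkD.pairOk_sound k22_23_8_7) (by decide) hn t22_23_8_7_18 _ _ (by decide +kernel)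

/-- certificates of the pair `(8, 7)`, part 19 -/
def t22_23_8_7_19 : BlkD.Tr :=
  .S 2 3 (.S 2 1 (.L 4 4 [4, 22, 22, 22, 22, 22, 22, 22] [230, 230, 226, 222, 218, 214] [] 100000 0
    0 1700000 50000 50000 100000 50000 0 0 0) (.L 4 4 [4, 22, 22, 22, 22, 22, 22, 22] [230, 230,
    226, 222, 218, 214] [] 100000 0 0 1700000 50000 50000 100000 50000 0 0 0)) (.L 4 4 [4, 22, 22,
    22, 22, 22, 22, 22] [230, 230, 226, 222, 218, 214] [] 100000 0 0 1700000 50000 50000 100000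
    50000 0 0 0)

lemma s22_23_8_7_19 {n : ℕ} (hn : 7 ≤ n) : NoNd (d22_23_8_7.R : ℤ) d22_23_8_7.H n d22_23_8_7.a d22_23_8_7.b
    (BlkD.inB (BlkD.upd (BlkD.upd (BlkD.upd (BlkD.upd (fun _ => 0) 0 3) 1 6) 1 9) 1 10)
      (BlkD.upd (BlkD.upd (BlkD.upd (BlkD.upd (BlkD.upd (BlkD.upd (fun _ => 23) 0 8) 2 7) 0 4) 0 3) 1 11) 1 10)) :=
  BlkD.tree_sound (BlkD.pairOk_sound k22_23_8_7) (by decide) hn t22_23_8_7_19 _ _ (by decide +kernel)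

/-- certificates of the pair `(8, 7)`, part 20 -/
def t22_23_8_7_20 : BlkD.Tr :=
  .L 4 4 [4, 22, 22, 22, 22, 22, 22, 22] [256, 256, 256, 252, 248, 244] [] 100000 0 0 1700000 50000
    50000 100000 50000 0 0 0

lemma s22_23_8_7_20 {n : ℕ} (hn : 7 ≤ n) : NoNd (d22_23_8_7.R : ℤ) d22_23_8_7.H n d22_23_8_7.a d22_23_8_7.b
    (BlkD.inB (BlkD.upd (BlkD.upd (BlkD.upd (BlkD.upd (fun _ => 0) 0 3) 1 6) 1 9) 1 11)
      (BlkD.upd (BlkD.upd (BlkD.upd (BlkD.upd (BlkD.upd (fun _ => 23) 0 8) 2 7) 0 4) 0 3) 1 11)) :=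
  BlkD.tree_sound (BlkD.pairOk_sound k22_23_8_7) (by decide) hn t22_23_8_7_20 _ _ (by decide +kernel)

/-- certificates of the pair `(8, 7)`, part 21 -/
def t22_23_8_7_21 : BlkD.Tr :=
  .L 4 4 [4, 22, 22, 22, 22, 22, 22, 22] [] [] 100000 0 0 1700000 50000 50000 100000 50000 0 0 0

lemma s22_23_8_7_21 {n : ℕ} (hn : 7 ≤ n) : NoNd (d22_23_8_7.R : ℤ) d22_23_8_7.H n d22_23_8_7.a d22_23_8_7.b
    (BlkD.inB (BlkD.upd (BlkD.upd (fun _ => 0) 0 3) 1 12)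
      (BlkD.upd (BlkD.upd (BlkD.upd (BlkD.upd (fun _ => 23) 0 8) 2 7) 0 4) 0 3)) :=
  BlkD.tree_sound (BlkD.pairOk_sound k22_23_8_7) (by decide) hn t22_23_8_7_21 _ _ (by decide +kernel)

/-- certificates of the pair `(8, 7)`, part 22 -/
def t22_23_8_7_22 : BlkD.Tr :=
  .L 4 4 [4, 22, 22, 22, 22, 22, 22, 22] [] [] 100000 0 0 1700000 50000 50000 100000 50000 0 0 0

lemma s22_23_8_7_22 {n : ℕ} (hn : 7 ≤ n) : NoNd (d22_23_8_7.R : ℤ) d22_23_8_7.H n d22_23_8_7.a d22_23_8_7.b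
    (BlkD.inB (BlkD.upd (BlkD.upd (fun _ => 0) 0 3) 0 4)
      (BlkD.upd (BlkD.upd (BlkD.upd (BlkD.upd (BlkD.upd (BlkD.upd (fun _ => 23) 0 8) 2 7) 0 4) 1 11) 1 5) 1 2)) :=
  BlkD.tree_sound (BlkD.pairOk_sound k22_23_8_7) (by decide) hn t22_23_8_7_22 _ _ (by decide +kernel)

/-- certificates of the pair `(8, 7)`, part 23 -/
def t22_23_8_7_23 : BlkD.Tr :=
  .S 1 4 (.L 4 4 [4, 22, 22, 22, 22, 22, 22, 22] [] [] 100000 0 0 1700000 50000 50000 100000 50000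
    0 0 0) (.L 4 4 [4, 22, 22, 22, 22, 22, 22, 22] [124, 120, 108, 94, 76, 60] [] 100000 0 0
    1700000 50000 50000 100000 50000 0 0 0)

lemma s22_23_8_7_23 {n : ℕ} (hn : 7 ≤ n) : NoNd (d22_23_8_7.R : ℤ) d22_23_8_7.H n d22_23_8_7.a d22_23_8_7.b
    (BlkD.inB (BlkD.upd (BlkD.upd (BlkD.upd (fun _ => 0) 0 3) 0 4) 1 3)
      (BlkD.upd (BlkD.upd (BlkD.upd (BlkD.upd (BlkD.upd (fun _ => 23) 0 8) 2 7) 0 4) 1 11) 1 5)) :=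
  BlkD.tree_sound (BlkD.pairOk_sound k22_23_8_7) (by decide) hn t22_23_8_7_23 _ _ (by decide +kernel)

/-- certificates of the pair `(8, 7)`, part 24 -/
def t22_23_8_7_24 : BlkD.Tr :=
  .S 2 3 (.S 2 1 (.L 4 4 [4, 22, 22, 22, 22, 22, 22, 22] [146, 142, 138, 126, 112, 94] [] 100000 0
    0 1700000 50000 50000 100000 50000 0 0 0) (.L 4 4 [4, 22, 22, 22, 22, 22, 22, 22] [146, 142,
    138, 126, 112, 94] [] 100000 0 0 1700000 50000 50000 100000 50000 0 0 0)) (.L 4 4 [4, 22, 22,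
    22, 22, 22, 22, 22] [146, 142, 138, 126, 112, 94] [] 100000 0 0 1700000 50000 50000 100000
    50000 0 0 0)

lemma s22_23_8_7_24 {n : ℕ} (hn : 7 ≤ n) : NoNd (d22_23_8_7.R : ℤ) d22_23_8_7.H n d22_23_8_7.a d22_23_8_7.b
    (BlkD.inB (BlkD.upd (BlkD.upd (BlkD.upd (fun _ => 0) 0 3) 0 4) 1 6)
      (BlkD.upd (BlkD.upd (BlkD.upd (BlkD.upd (BlkD.upd (BlkD.upd (BlkD.upd (fun _ => 23) 0 8) 2 7) 0 4) 1 11) 1 8) 1 7) 1 6)) :=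
  BlkD.tree_sound (BlkD.pairOk_sound k22_23_8_7) (by decide) hn t22_23_8_7_24 _ _ (by decide +kernel)

/-- certificates of the pair `(8, 7)`, part 25 -/
def t22_23_8_7_25 : BlkD.Tr :=
  .S 2 1 (.L 4 4 [4, 22, 22, 22, 22, 22, 22, 22] [170, 166, 162, 158, 146, 132] [] 100000 0 0
    1700000 50000 50000 100000 50000 0 0 0) (.S 2 2 (.L 4 4 [4, 22, 22, 22, 22, 22, 22, 22] [170,
    166, 162, 158, 146, 132] [] 100000 0 0 1700000 50000 50000 100000 50000 0 0 0) (.L 4 4 [4, 22,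
    22, 22, 22, 22, 22, 22] [170, 166, 162, 158, 146, 132] [] 100000 0 0 1700000 50000 50000 100000
    50000 0 0 0))

lemma s22_23_8_7_25 {n : ℕ} (hn : 7 ≤ n) : NoNd (d22_23_8_7.R : ℤ) d22_23_8_7.H n d22_23_8_7.a d22_23_8_7.b
    (BlkD.inB (BlkD.upd (BlkD.upd (BlkD.upd (BlkD.upd (fun _ => 0) 0 3) 0 4) 1 6) 1 7)
      (BlkD.upd (BlkD.upd (BlkD.upd (BlkD.upd (BlkD.upd (BlkD.upd (BlkD.upd (fun _ => 23) 0 8) 2 7) 0 4) 1 11) 1 8) 1 7) 2 3)) :=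
  BlkD.tree_sound (BlkD.pairOk_sound k22_23_8_7) (by decide) hn t22_23_8_7_25 _ _ (by decide +kernel)

/-- certificates of the pair `(8, 7)`, part 26 -/
def t22_23_8_7_26 : BlkD.Tr :=
  .L 4 4 [4, 22, 22, 22, 22, 22, 22, 22] [170, 166, 162, 158, 146, 132] [] 100000 0 0 1700000 50000
    50000 100000 50000 0 0 0

lemma s22_23_8_7_26 {n : ℕ} (hn : 7 ≤ n) : NoNd (d22_23_8_7.R : ℤ) d22_23_8_7.H n d22_23_8_7.a d22_23_8_7.b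
    (BlkD.inB (BlkD.upd (BlkD.upd (BlkD.upd (BlkD.upd (BlkD.upd (fun _ => 0) 0 3) 0 4) 1 6) 1 7) 2 4)
      (BlkD.upd (BlkD.upd (BlkD.upd (BlkD.upd (BlkD.upd (BlkD.upd (fun _ => 23) 0 8) 2 7) 0 4) 1 11) 1 8) 1 7)) :=
  BlkD.tree_sound (BlkD.pairOk_sound k22_23_8_7) (by decide) hn t22_23_8_7_26 _ _ (by decide +kernel)

/-- certificates of the pair `(8, 7)`, part 27 -/
def t22_23_8_7_27 : BlkD.Tr :=
  .S 2 3 (.S 2 1 (.L 4 4 [4, 22, 22, 22, 22, 22, 22, 22] [196, 192, 188, 184, 180, 168] [] 100000 0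
    0 1700000 50000 50000 100000 50000 0 0 0) (.L 4 4 [4, 22, 22, 22, 22, 22, 22, 22] [196, 192,
    188, 184, 180, 168] [] 100000 0 0 1700000 50000 50000 100000 50000 0 0 0)) (.L 4 4 [4, 22, 22,
    22, 22, 22, 22, 22] [196, 192, 188, 184, 180, 168] [] 100000 0 0 1700000 50000 50000 100000
    50000 0 0 0)

lemma s22_23_8_7_27 {n : ℕ} (hn : 7 ≤ n) : NoNd (d22_23_8_7.R : ℤ) d22_23_8_7.H n d22_23_8_7.a d22_23_8_7.b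
    (BlkD.inB (BlkD.upd (BlkD.upd (BlkD.upd (BlkD.upd (fun _ => 0) 0 3) 0 4) 1 6) 1 8)
      (BlkD.upd (BlkD.upd (BlkD.upd (BlkD.upd (BlkD.upd (fun _ => 23) 0 8) 2 7) 0 4) 1 11) 1 8)) :=
  BlkD.tree_sound (BlkD.pairOk_sound k22_23_8_7) (by decide) hn t22_23_8_7_27 _ _ (by decide +kernel)

/-- certificates of the pair `(8, 7)`, part 28 -/
def t22_23_8_7_28 : BlkD.Tr :=
  .S 2 3 (.S 2 1 (.L 4 4 [4, 22, 22, 22, 22, 22, 22, 22] [224, 220, 216, 212, 208, 204] [] 100000 0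
    0 1700000 50000 50000 100000 50000 0 0 0) (.L 4 4 [4, 22, 22, 22, 22, 22, 22, 22] [224, 220,
    216, 212, 208, 204] [] 100000 0 0 1700000 50000 50000 100000 50000 0 0 0)) (.L 4 4 [4, 22, 22,
    22, 22, 22, 22, 22] [224, 220, 216, 212, 208, 204] [] 100000 0 0 1700000 50000 50000 100000
    50000 0 0 0)

lemma s22_23_8_7_28 {n : ℕ} (hn : 7 ≤ n) : NoNd (d22_23_8_7.R : ℤ) d22_23_8_7.H n d22_23_8_7.a d22_23_8_7.b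
    (BlkD.inB (BlkD.upd (BlkD.upd (BlkD.upd (BlkD.upd (fun _ => 0) 0 3) 0 4) 1 6) 1 9)
      (BlkD.upd (BlkD.upd (BlkD.upd (BlkD.upd (BlkD.upd (BlkD.upd (fun _ => 23) 0 8) 2 7) 0 4) 1 11) 1 10) 1 9)) :=
  BlkD.tree_sound (BlkD.pairOk_sound k22_23_8_7) (by decide) hn t22_23_8_7_28 _ _ (by decide +kernel)

/-- certificates of the pair `(8, 7)`, part 29 -/
def t22_23_8_7_29 : BlkD.Tr :=
  .L 4 4 [4, 22, 22, 22, 22, 22, 22, 22] [250, 250, 246, 242, 238, 234] [] 100000 0 0 1700000 50000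
    50000 100000 50000 0 0 0

lemma s22_23_8_7_29 {n : ℕ} (hn : 7 ≤ n) : NoNd (d22_23_8_7.R : ℤ) d22_23_8_7.H n d22_23_8_7.a d22_23_8_7.b
    (BlkD.inB (BlkD.upd (BlkD.upd (BlkD.upd (BlkD.upd (BlkD.upd (fun _ => 0) 0 3) 0 4) 1 6) 1 9) 1 10)
      (BlkD.upd (BlkD.upd (BlkD.upd (BlkD.upd (BlkD.upd (fun _ => 23) 0 8) 2 7) 0 4) 1 11) 1 10)) :=
  BlkD.tree_sound (BlkD.pairOk_sound k22_23_8_7) (by decide) hn t22_23_8_7_29 _ _ (by decide +kernel)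

/-- certificates of the pair `(8, 7)`, part 30 -/
def t22_23_8_7_30 : BlkD.Tr :=
  .L 4 4 [4, 22, 22, 22, 22, 22, 22, 22] [278, 278, 278, 274, 270, 266] [] 100000 0 0 1700000 50000
    50000 100000 50000 0 0 0

lemma s22_23_8_7_30 {n : ℕ} (hn : 7 ≤ n) : NoNd (d22_23_8_7.R : ℤ) d22_23_8_7.H n d22_23_8_7.a d22_23_8_7.b
    (BlkD.inB (BlkD.upd (BlkD.upd (BlkD.upd (BlkD.upd (BlkD.upd (fun _ => 0) 0 3) 0 4) 1 6) 1 9) 1 11)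
      (BlkD.upd (BlkD.upd (BlkD.upd (BlkD.upd (fun _ => 23) 0 8) 2 7) 0 4) 1 11)) :=
  BlkD.tree_sound (BlkD.pairOk_sound k22_23_8_7) (by decide) hn t22_23_8_7_30 _ _ (by decide +kernel)

/-- certificates of the pair `(8, 7)`, part 31 -/
def t22_23_8_7_31 : BlkD.Tr :=
  .L 4 4 [4, 22, 22, 22, 22, 22, 22, 22] [] [] 100000 0 0 1700000 50000 50000 100000 50000 0 0 0

lemma s22_23_8_7_31 {n : ℕ} (hn : 7 ≤ n) : NoNd (d22_23_8_7.R : ℤ) d22_23_8_7.H n d22_23_8_7.a d22_23_8_7.b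
    (BlkD.inB (BlkD.upd (BlkD.upd (BlkD.upd (fun _ => 0) 0 3) 0 4) 1 12)
      (BlkD.upd (BlkD.upd (BlkD.upd (fun _ => 23) 0 8) 2 7) 0 4)) :=
  BlkD.tree_sound (BlkD.pairOk_sound k22_23_8_7) (by decide) hn t22_23_8_7_31 _ _ (by decide +kernel)

/-- certificates of the pair `(8, 7)`, part 32 -/
def t22_23_8_7_32 : BlkD.Tr :=
  .L 4 4 [4, 22, 22, 22, 22, 22, 22, 22] [] [] 100000 0 0 1700000 50000 50000 100000 50000 0 0 0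

lemma s22_23_8_7_32 {n : ℕ} (hn : 7 ≤ n) : NoNd (d22_23_8_7.R : ℤ) d22_23_8_7.H n d22_23_8_7.a d22_23_8_7.b
    (BlkD.inB (BlkD.upd (fun _ => 0) 0 5)
      (BlkD.upd (BlkD.upd (BlkD.upd (BlkD.upd (BlkD.upd (BlkD.upd (BlkD.upd (fun _ => 23) 0 8) 2 7) 0 6) 0 5) 1 11) 1 5) 1 2)) :=
  BlkD.tree_sound (BlkD.pairOk_sound k22_23_8_7) (by decide) hn t22_23_8_7_32 _ _ (by decide +kernel)

/-- certificates of the pair `(8, 7)`, part 33 -/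
def t22_23_8_7_33 : BlkD.Tr :=
  .S 1 3 (.L 4 4 [4, 22, 22, 22, 22, 22, 22, 22] [84, 70, 52, 36, 0, 0] [] 100000 0 0 1700000 50000
    50000 100000 50000 0 0 0) (.L 4 4 [4, 22, 22, 22, 22, 22, 22, 22] [112, 100, 86, 68, 52, 0] []
    100000 0 0 1700000 50000 50000 100000 50000 0 0 0)

lemma s22_23_8_7_33 {n : ℕ} (hn : 7 ≤ n) : NoNd (d22_23_8_7.R : ℤ) d22_23_8_7.H n d22_23_8_7.a d22_23_8_7.b
    (BlkD.inB (BlkD.upd (BlkD.upd (fun _ => 0) 0 5) 1 3)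
      (BlkD.upd (BlkD.upd (BlkD.upd (BlkD.upd (BlkD.upd (BlkD.upd (BlkD.upd (fun _ => 23) 0 8) 2 7) 0 6) 0 5) 1 11) 1 5) 1 4)) :=
  BlkD.tree_sound (BlkD.pairOk_sound k22_23_8_7) (by decide) hn t22_23_8_7_33 _ _ (by decide +kernel)

/-- certificates of the pair `(8, 7)`, part 34 -/
def t22_23_8_7_34 : BlkD.Tr :=
  .S 2 3 (.L 4 4 [4, 22, 22, 22, 22, 22, 22, 22] [134, 130, 118, 104, 86, 70] [] 100000 0 0 1700000
    50000 50000 100000 50000 0 0 0) (.L 4 4 [4, 22, 22, 22, 22, 22, 22, 22] [134, 130, 118, 104,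
    86, 70] [] 100000 0 0 1700000 50000 50000 100000 50000 0 0 0)

lemma s22_23_8_7_34 {n : ℕ} (hn : 7 ≤ n) : NoNd (d22_23_8_7.R : ℤ) d22_23_8_7.H n d22_23_8_7.a d22_23_8_7.b
    (BlkD.inB (BlkD.upd (BlkD.upd (BlkD.upd (fun _ => 0) 0 5) 1 3) 1 5)
      (BlkD.upd (BlkD.upd (BlkD.upd (BlkD.upd (BlkD.upd (BlkD.upd (fun _ => 23) 0 8) 2 7) 0 6) 0 5) 1 11) 1 5)) :=
  BlkD.tree_sound (BlkD.pairOk_sound k22_23_8_7) (by decide) hn t22_23_8_7_34 _ _ (by decide +kernel)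

/-- certificates of the pair `(8, 7)`, part 35 -/
def t22_23_8_7_35 : BlkD.Tr :=
  .S 2 3 (.L 4 4 [4, 22, 22, 22, 22, 22, 22, 22] [158, 154, 150, 138, 124, 106] [] 100000 0 0
    1700000 50000 50000 100000 50000 0 0 0) (.L 4 4 [4, 22, 22, 22, 22, 22, 22, 22] [158, 154, 150,
    138, 124, 106] [] 100000 0 0 1700000 50000 50000 100000 50000 0 0 0)

lemma s22_23_8_7_35 {n : ℕ} (hn : 7 ≤ n) : NoNd (d22_23_8_7.R : ℤ) d22_23_8_7.H n d22_23_8_7.a d22_23_8_7.b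
    (BlkD.inB (BlkD.upd (BlkD.upd (fun _ => 0) 0 5) 1 6)
      (BlkD.upd (BlkD.upd (BlkD.upd (BlkD.upd (BlkD.upd (BlkD.upd (BlkD.upd (BlkD.upd (fun _ => 23) 0 8) 2 7) 0 6) 0 5) 1 11) 1 8) 1 7) 1 6)) :=
  BlkD.tree_sound (BlkD.pairOk_sound k22_23_8_7) (by decide) hn t22_23_8_7_35 _ _ (by decide +kernel)

/-- certificates of the pair `(8, 7)`, part 36 -/
def t22_23_8_7_36 : BlkD.Tr :=
  .L 4 4 [4, 22, 22, 22, 22, 22, 22, 22] [184, 180, 176, 172, 160, 146] [] 100000 0 0 1700000 50000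
    50000 100000 50000 0 0 0

lemma s22_23_8_7_36 {n : ℕ} (hn : 7 ≤ n) : NoNd (d22_23_8_7.R : ℤ) d22_23_8_7.H n d22_23_8_7.a d22_23_8_7.b
    (BlkD.inB (BlkD.upd (BlkD.upd (BlkD.upd (fun _ => 0) 0 5) 1 6) 1 7)
      (BlkD.upd (BlkD.upd (BlkD.upd (BlkD.upd (BlkD.upd (BlkD.upd (BlkD.upd (fun _ => 23) 0 8) 2 7) 0 6) 0 5) 1 11) 1 8) 1 7)) :=
  BlkD.tree_sound (BlkD.pairOk_sound k22_23_8_7) (by decide) hn t22_23_8_7_36 _ _ (by decide +kernel)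

/-- certificates of the pair `(8, 7)`, part 37 -/
def t22_23_8_7_37 : BlkD.Tr :=
  .L 4 4 [4, 22, 22, 22, 22, 22, 22, 22] [212, 208, 204, 200, 196, 184] [] 100000 0 0 1700000 50000
    50000 100000 50000 0 0 0

lemma s22_23_8_7_37 {n : ℕ} (hn : 7 ≤ n) : NoNd (d22_23_8_7.R : ℤ) d22_23_8_7.H n d22_23_8_7.a d22_23_8_7.b
    (BlkD.inB (BlkD.upd (BlkD.upd (BlkD.upd (fun _ => 0) 0 5) 1 6) 1 8)
      (BlkD.upd (BlkD.upd (BlkD.upd (BlkD.upd (BlkD.upd (BlkD.upd (fun _ => 23) 0 8) 2 7) 0 6) 0 5) 1 11) 1 8)) :=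
  BlkD.tree_sound (BlkD.pairOk_sound k22_23_8_7) (by decide) hn t22_23_8_7_37 _ _ (by decide +kernel)

/-- certificates of the pair `(8, 7)`, part 38 -/
def t22_23_8_7_38 : BlkD.Tr :=
  .L 4 4 [4, 22, 22, 22, 22, 22, 22, 22] [] [] 100000 0 0 1700000 50000 50000 100000 50000 0 0 0

lemma s22_23_8_7_38 {n : ℕ} (hn : 7 ≤ n) : NoNd (d22_23_8_7.R : ℤ) d22_23_8_7.H n d22_23_8_7.a d22_23_8_7.b
    (BlkD.inB (BlkD.upd (BlkD.upd (BlkD.upd (fun _ => 0) 0 5) 1 6) 1 9)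
      (BlkD.upd (BlkD.upd (BlkD.upd (BlkD.upd (BlkD.upd (fun _ => 23) 0 8) 2 7) 0 6) 0 5) 1 11)) :=
  BlkD.tree_sound (BlkD.pairOk_sound k22_23_8_7) (by decide) hn t22_23_8_7_38 _ _ (by decide +kernel)

/-- certificates of the pair `(8, 7)`, part 39 -/
def t22_23_8_7_39 : BlkD.Tr :=
  .L 4 4 [4, 22, 22, 22, 22, 22, 22, 22] [] [] 100000 0 0 1700000 50000 50000 100000 50000 0 0 0

lemma s22_23_8_7_39 {n : ℕ} (hn : 7 ≤ n) : NoNd (d22_23_8_7.R : ℤ) d22_23_8_7.H n d22_23_8_7.a d22_23_8_7.b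
    (BlkD.inB (BlkD.upd (BlkD.upd (fun _ => 0) 0 5) 1 12)
      (BlkD.upd (BlkD.upd (BlkD.upd (BlkD.upd (fun _ => 23) 0 8) 2 7) 0 6) 0 5)) :=
  BlkD.tree_sound (BlkD.pairOk_sound k22_23_8_7) (by decide) hn t22_23_8_7_39 _ _ (by decide +kernel)

/-- certificates of the pair `(8, 7)`, part 40 -/
def t22_23_8_7_40 : BlkD.Tr :=
  .L 4 4 [4, 22, 22, 22, 22, 22, 22, 22] [] [] 100000 0 0 1700000 50000 50000 100000 50000 0 0 0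

lemma s22_23_8_7_40 {n : ℕ} (hn : 7 ≤ n) : NoNd (d22_23_8_7.R : ℤ) d22_23_8_7.H n d22_23_8_7.a d22_23_8_7.b
    (BlkD.inB (BlkD.upd (BlkD.upd (fun _ => 0) 0 5) 0 6)
      (BlkD.upd (BlkD.upd (BlkD.upd (BlkD.upd (BlkD.upd (BlkD.upd (fun _ => 23) 0 8) 2 7) 0 6) 1 11) 1 5) 1 2)) :=
  BlkD.tree_sound (BlkD.pairOk_sound k22_23_8_7) (by decide) hn t22_23_8_7_40 _ _ (by decide +kernel)

/-- certificates of the pair `(8, 7)`, part 41 -/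
def t22_23_8_7_41 : BlkD.Tr :=
  .S 1 4 (.S 1 3 (.L 4 4 [4, 22, 22, 22, 22, 22, 22, 22] [90, 76, 58, 42, 0, 0] [] 100000 0 0
    1700000 50000 50000 100000 50000 0 0 0) (.L 4 4 [4, 22, 22, 22, 22, 22, 22, 22] [120, 108, 94,
    76, 60, 0] [] 100000 0 0 1700000 50000 50000 100000 50000 0 0 0)) (.L 4 4 [4, 22, 22, 22, 22,
    22, 22, 22] [144, 140, 128, 114, 96, 80] [] 100000 0 0 1700000 50000 50000 100000 50000 0 0 0)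

lemma s22_23_8_7_41 {n : ℕ} (hn : 7 ≤ n) : NoNd (d22_23_8_7.R : ℤ) d22_23_8_7.H n d22_23_8_7.a d22_23_8_7.b
    (BlkD.inB (BlkD.upd (BlkD.upd (BlkD.upd (fun _ => 0) 0 5) 0 6) 1 3)
      (BlkD.upd (BlkD.upd (BlkD.upd (BlkD.upd (BlkD.upd (fun _ => 23) 0 8) 2 7) 0 6) 1 11) 1 5)) :=
  BlkD.tree_sound (BlkD.pairOk_sound k22_23_8_7) (by decide) hn t22_23_8_7_41 _ _ (by decide +kernel)

/-- certificates of the pair `(8, 7)`, part 42 -/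
def t22_23_8_7_42 : BlkD.Tr :=
  .L 4 4 [4, 22, 22, 22, 22, 22, 22, 22] [] [] 100000 0 0 1700000 50000 50000 100000 50000 0 0 0

lemma s22_23_8_7_42 {n : ℕ} (hn : 7 ≤ n) : NoNd (d22_23_8_7.R : ℤ) d22_23_8_7.H n d22_23_8_7.a d22_23_8_7.b
    (BlkD.inB (BlkD.upd (BlkD.upd (BlkD.upd (fun _ => 0) 0 5) 0 6) 1 6)
      (BlkD.upd (BlkD.upd (BlkD.upd (BlkD.upd (fun _ => 23) 0 8) 2 7) 0 6) 1 11)) :=
  BlkD.tree_sound (BlkD.pairOk_sound k22_23_8_7) (by decide) hn t22_23_8_7_42 _ _ (by decide +kernel)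

/-- certificates of the pair `(8, 7)`, part 43 -/
def t22_23_8_7_43 : BlkD.Tr :=
  .L 4 4 [4, 22, 22, 22, 22, 22, 22, 22] [] [] 100000 0 0 1700000 50000 50000 100000 50000 0 0 0

lemma s22_23_8_7_43 {n : ℕ} (hn : 7 ≤ n) : NoNd (d22_23_8_7.R : ℤ) d22_23_8_7.H n d22_23_8_7.a d22_23_8_7.b
    (BlkD.inB (BlkD.upd (BlkD.upd (BlkD.upd (fun _ => 0) 0 5) 0 6) 1 12)
      (BlkD.upd (BlkD.upd (BlkD.upd (fun _ => 23) 0 8) 2 7) 0 6)) :=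
  BlkD.tree_sound (BlkD.pairOk_sound k22_23_8_7) (by decide) hn t22_23_8_7_43 _ _ (by decide +kernel)

/-- certificates of the pair `(8, 7)`, part 44 -/
def t22_23_8_7_44 : BlkD.Tr :=
  .S 0 7 (.L 4 4 [4, 22, 22, 22, 22, 22, 22, 22] [] [] 100000 0 0 1700000 50000 50000 100000 50000
    0 0 0) (.L 4 4 [4, 22, 22, 22, 22, 22, 22, 22] [] [] 100000 0 0 1700000 50000 50000 100000
    50000 0 0 0)

lemma s22_23_8_7_44 {n : ℕ} (hn : 7 ≤ n) : NoNd (d22_23_8_7.R : ℤ) d22_23_8_7.H n d22_23_8_7.a d22_23_8_7.b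
    (BlkD.inB (BlkD.upd (BlkD.upd (fun _ => 0) 0 5) 0 7)
      (BlkD.upd (BlkD.upd (fun _ => 23) 0 8) 2 7)) :=
  BlkD.tree_sound (BlkD.pairOk_sound k22_23_8_7) (by decide) hn t22_23_8_7_44 _ _ (by decide +kernel)

/-- certificates of the pair `(8, 7)`, part 45 -/
def t22_23_8_7_45 : BlkD.Tr :=
  .E 1

lemma s22_23_8_7_45 {n : ℕ} (hn : 7 ≤ n) : NoNd (d22_23_8_7.R : ℤ) d22_23_8_7.H n d22_23_8_7.a d22_23_8_7.b
    (BlkD.inB (BlkD.upd (fun _ => 0) 2 8)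
      (BlkD.upd (fun _ => 23) 0 8)) :=
  BlkD.tree_sound (BlkD.pairOk_sound k22_23_8_7) (by decide) hn t22_23_8_7_45 _ _ (by decide +kernel)

/-- certificates of the pair `(8, 7)`, part 46 -/
def t22_23_8_7_46 : BlkD.Tr :=
  .E 0

lemma s22_23_8_7_46 {n : ℕ} (hn : 7 ≤ n) : NoNd (d22_23_8_7.R : ℤ) d22_23_8_7.H n d22_23_8_7.a d22_23_8_7.b
    (BlkD.inB (BlkD.upd (fun _ => 0) 0 9)
      (fun _ => 23)) :=
  BlkD.tree_sound (BlkD.pairOk_sound k22_23_8_7) (by decide) hn t22_23_8_7_46 _ _ (by decide +kernel)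

lemma pr22_23_8_7 {n : ℕ} (hn : 7 ≤ n) : NoPr ((22 : ℕ) : ℤ) ((23 : ℕ) : ℤ) n 8 7 :=
  BlkD.of_root (R := d22_23_8_7.R) (H := d22_23_8_7.H) (a := d22_23_8_7.a) (b := d22_23_8_7.b) (q := 5) (by decide) hn
    (BlkD.sp 0 8 (BlkD.sp 2 7 (BlkD.sp 0 4 (BlkD.sp 0 2 (BlkD.sp 0 1 (BlkD.sp 0 0 (s22_23_8_7_1 hn)
      (BlkD.sp 1 11 (BlkD.sp 1 5 (s22_23_8_7_2 hn) (s22_23_8_7_3 hn)) (s22_23_8_7_4 hn))) (BlkD.sp
      1 11 (BlkD.sp 1 5 (s22_23_8_7_5 hn) (BlkD.sp 1 8 (BlkD.sp 1 7 (s22_23_8_7_6 hn) (s22_23_8_7_7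
      hn)) (BlkD.sp 1 10 (BlkD.sp 1 9 (s22_23_8_7_8 hn) (s22_23_8_7_9 hn)) (s22_23_8_7_10 hn))))
      (s22_23_8_7_11 hn))) (BlkD.sp 0 3 (BlkD.sp 1 11 (BlkD.sp 1 5 (s22_23_8_7_12 hn) (BlkD.sp 1 8
      (BlkD.sp 1 7 (BlkD.sp 1 6 (s22_23_8_7_13 hn) (s22_23_8_7_14 hn)) (BlkD.sp 2 3 (s22_23_8_7_15
      hn) (s22_23_8_7_16 hn))) (BlkD.sp 1 10 (BlkD.sp 1 9 (BlkD.sp 2 3 (s22_23_8_7_17 hn)
      (s22_23_8_7_18 hn)) (s22_23_8_7_19 hn)) (s22_23_8_7_20 hn)))) (s22_23_8_7_21 hn)) (BlkD.sp 1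
      11 (BlkD.sp 1 5 (BlkD.sp 1 2 (s22_23_8_7_22 hn) (s22_23_8_7_23 hn)) (BlkD.sp 1 8 (BlkD.sp 1 7
      (BlkD.sp 1 6 (s22_23_8_7_24 hn) (BlkD.sp 2 3 (s22_23_8_7_25 hn) (s22_23_8_7_26 hn)))
      (s22_23_8_7_27 hn)) (BlkD.sp 1 10 (BlkD.sp 1 9 (s22_23_8_7_28 hn) (s22_23_8_7_29 hn))
      (s22_23_8_7_30 hn)))) (s22_23_8_7_31 hn)))) (BlkD.sp 0 6 (BlkD.sp 0 5 (BlkD.sp 1 11 (BlkD.sp
      1 5 (BlkD.sp 1 2 (s22_23_8_7_32 hn) (BlkD.sp 1 4 (s22_23_8_7_33 hn) (s22_23_8_7_34 hn)))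
      (BlkD.sp 1 8 (BlkD.sp 1 7 (BlkD.sp 1 6 (s22_23_8_7_35 hn) (s22_23_8_7_36 hn)) (s22_23_8_7_37
      hn)) (s22_23_8_7_38 hn))) (s22_23_8_7_39 hn)) (BlkD.sp 1 11 (BlkD.sp 1 5 (BlkD.sp 1 2
      (s22_23_8_7_40 hn) (s22_23_8_7_41 hn)) (s22_23_8_7_42 hn)) (s22_23_8_7_43 hn)))
      (s22_23_8_7_44 hn))) (s22_23_8_7_45 hn)) (s22_23_8_7_46 hn))

end BlkC

end Pool.Agent.Lib.MP_f04ccf_co
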