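import Pool.Agent.Lib.MP_f04ccf_co.M.BlkT

/-!
MP_f04ccf_co, block certificate, data `R = 22`, `H = 23`, part 17 (generated, helper99:
bd10.cpp, gen2.py).
-/

set_option autoImplicit false
set_option maxRecDepth 100000

namespace Pool.Agent.Lib.MP_f04ccf_co

namespace BlkC

/-- the numbers of the pair `(9, 0)`, `R = 22`, `H = 23` -/
def d22_23_9_0 : BlkD.Pd :=
  ⟨22, 23, 5, 9, 0, 11, 0, 1, 0, 4, 4, 0, 0, 4, 4, 0, [0, 4, 8, 12, 16, 20, 24, 28, 32, 36, 40,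
    44], [0, 4, 8, 12, 16, 20, 24, 28, 32, 36, 40, 44], [⟨1, 1, 1, 4, 8, [0, 4], [0, 4]⟩]⟩

/-- the certificates of the pair `(9, 0)` -/
def t22_23_9_0 : BlkD.Tr :=
  .S 0 9 (.S 2 0 (.S 0 4 (.S 0 2 (.L 4 4 [4] [] [] 100000 0 0 1025000 50000 0 75000 25000 0 0 0)
    (.L 4 4 [4] [] [] 100000 0 0 1025000 50000 0 75000 25000 0 0 0)) (.L 4 4 [4] [] [] 100000 0 0
    1025000 50000 0 75000 25000 0 0 0)) (.E 1)) (.E 0)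

lemma pr22_23_9_0 {n : ℕ} (hn : 7 ≤ n) : NoPr ((22 : ℕ) : ℤ) ((23 : ℕ) : ℤ) n 9 0 :=
  BlkD.pair_sound (d := d22_23_9_0) (by decide +kernel) hn (by decide) (tr := t22_23_9_0)
    (by decide +kernel) rfl rfl rfl rfl

/-- the numbers of the pair `(9, 1)`, `R = 22`, `H = 23` -/
def d22_23_9_1 : BlkD.Pd :=
  ⟨22, 23, 5, 9, 1, 10, 1, 1, 0, 4, 8, 0, 0, 4, 4, 0, [0, 8, 16, 24, 32, 40, 40, 40, 40, 40, 40],
    [0, 4, 8, 12, 16, 20, 24, 28, 32, 36, 40], [⟨1, 1, 1, 4, 8, [0, 4], [0, 4]⟩, ⟨1, 1, 1, 4, 12,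
    [0, 8], [0, 4]⟩]⟩

lemma k22_23_9_1 : BlkD.pairOk d22_23_9_1 = true := by decide +kernel

/-- certificates of the pair `(9, 1)`, part 1 -/
def t22_23_9_1_1 : BlkD.Tr :=
  .S 0 1 (.L 4 6 [4, 4] [] [] 100000 0 0 1189475 42105 0 68421 0 0 0 0) (.L 4 6 [4, 4] [] [] 100000
    0 0 1189475 42105 0 68421 0 0 0 0)

lemma s22_23_9_1_1 {n : ℕ} (hn : 7 ≤ n) : NoNd (d22_23_9_1.R : ℤ) d22_23_9_1.H n d22_23_9_1.a d22_23_9_1.b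
    (BlkD.inB (fun _ => 0)
      (BlkD.upd (BlkD.upd (BlkD.upd (BlkD.upd (fun _ => 23) 0 9) 2 1) 0 4) 0 2)) :=
  BlkD.tree_sound (BlkD.pairOk_sound k22_23_9_1) (by decide) hn t22_23_9_1_1 _ _ (by decide +kernel)

/-- certificates of the pair `(9, 1)`, part 2 -/
def t22_23_9_1_2 : BlkD.Tr :=
  .S 0 3 (.L 4 6 [4, 4] [] [] 100000 0 0 1189475 42105 0 68421 0 0 0 0) (.L 4 6 [4, 4] [] [] 100000
    0 0 1189475 42105 0 68421 0 0 0 0)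

lemma s22_23_9_1_2 {n : ℕ} (hn : 7 ≤ n) : NoNd (d22_23_9_1.R : ℤ) d22_23_9_1.H n d22_23_9_1.a d22_23_9_1.b
    (BlkD.inB (BlkD.upd (fun _ => 0) 0 3)
      (BlkD.upd (BlkD.upd (BlkD.upd (fun _ => 23) 0 9) 2 1) 0 4)) :=
  BlkD.tree_sound (BlkD.pairOk_sound k22_23_9_1) (by decide) hn t22_23_9_1_2 _ _ (by decide +kernel)

/-- certificates of the pair `(9, 1)`, part 3 -/
def t22_23_9_1_3 : BlkD.Tr :=
  .S 0 7 (.L 4 6 [4, 4] [] [] 100000 0 0 1189475 42105 0 68421 0 0 0 0) (.L 4 6 [4, 4] [] [] 100000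
    0 0 1189475 42105 0 68421 0 0 0 0)

lemma s22_23_9_1_3 {n : ℕ} (hn : 7 ≤ n) : NoNd (d22_23_9_1.R : ℤ) d22_23_9_1.H n d22_23_9_1.a d22_23_9_1.b
    (BlkD.inB (BlkD.upd (fun _ => 0) 0 5)
      (BlkD.upd (BlkD.upd (fun _ => 23) 0 9) 2 1)) :=
  BlkD.tree_sound (BlkD.pairOk_sound k22_23_9_1) (by decide) hn t22_23_9_1_3 _ _ (by decide +kernel)

/-- certificates of the pair `(9, 1)`, part 4 -/
def t22_23_9_1_4 : BlkD.Tr :=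
  .E 1

lemma s22_23_9_1_4 {n : ℕ} (hn : 7 ≤ n) : NoNd (d22_23_9_1.R : ℤ) d22_23_9_1.H n d22_23_9_1.a d22_23_9_1.b
    (BlkD.inB (BlkD.upd (fun _ => 0) 2 2)
      (BlkD.upd (fun _ => 23) 0 9)) :=
  BlkD.tree_sound (BlkD.pairOk_sound k22_23_9_1) (by decide) hn t22_23_9_1_4 _ _ (by decide +kernel)

/-- certificates of the pair `(9, 1)`, part 5 -/
def t22_23_9_1_5 : BlkD.Tr :=
  .E 0

lemma s22_23_9_1_5 {n : ℕ} (hn : 7 ≤ n) : NoNd (d22_23_9_1.R : ℤ) d22_23_9_1.H n d22_23_9_1.a d22_23_9_1.b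
    (BlkD.inB (BlkD.upd (fun _ => 0) 0 10)
      (fun _ => 23)) :=
  BlkD.tree_sound (BlkD.pairOk_sound k22_23_9_1) (by decide) hn t22_23_9_1_5 _ _ (by decide +kernel)

lemma pr22_23_9_1 {n : ℕ} (hn : 7 ≤ n) : NoPr ((22 : ℕ) : ℤ) ((23 : ℕ) : ℤ) n 9 1 :=
  BlkD.of_root (R := d22_23_9_1.R) (H := d22_23_9_1.H) (a := d22_23_9_1.a) (b := d22_23_9_1.b) (q := 5) (by decide) hn
    (BlkD.sp 0 9 (BlkD.sp 2 1 (BlkD.sp 0 4 (BlkD.sp 0 2 (s22_23_9_1_1 hn) (s22_23_9_1_2 hn))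
      (s22_23_9_1_3 hn)) (s22_23_9_1_4 hn)) (s22_23_9_1_5 hn))

/-- the numbers of the pair `(9, 2)`, `R = 22`, `H = 23` -/
def d22_23_9_2 : BlkD.Pd :=
  ⟨22, 23, 5, 9, 2, 9, 2, 2, 0, 4, 10, 0, 0, 4, 6, 0, [0, 10, 20, 30, 36, 36, 36, 36, 36, 36], [0,
    6, 12, 18, 24, 30, 36, 36, 36, 36], [⟨1, 1, 1, 4, 8, [0, 4], [0, 4]⟩, ⟨1, 1, 1, 4, 12, [0, 8],
    [0, 4]⟩, ⟨2, 1, 1, 6, 16, [0, 10, 10], [0, 6]⟩]⟩

lemma k22_23_9_2 : BlkD.pairOk d22_23_9_2 = true := by decide +kernel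

/-- certificates of the pair `(9, 2)`, part 1 -/
def t22_23_9_2_1 : BlkD.Tr :=
  .L 4 6 [4, 4, 5] [] [] 100000 20000 20000 1260000 40000 0 80000 20000 0 0 0

lemma s22_23_9_2_1 {n : ℕ} (hn : 7 ≤ n) : NoNd (d22_23_9_2.R : ℤ) d22_23_9_2.H n d22_23_9_2.a d22_23_9_2.b
    (BlkD.inB (fun _ => 0)
      (BlkD.upd (BlkD.upd (BlkD.upd (BlkD.upd (BlkD.upd (BlkD.upd (fun _ => 23) 0 9) 2 2) 0 4) 0 2) 0 1) 0 0)) :=
  BlkD.tree_sound (BlkD.pairOk_sound k22_23_9_2) (by decide) hn t22_23_9_2_1 _ _ (by decide +kernel)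

/-- certificates of the pair `(9, 2)`, part 2 -/
def t22_23_9_2_2 : BlkD.Tr :=
  .S 1 5 (.L 4 6 [4, 4, 5] [] [] 100000 20000 20000 1260000 40000 0 80000 20000 0 0 0) (.S 1 8 (.L
    4 6 [4, 4, 5] [] [] 100000 20000 20000 1260000 40000 0 80000 20000 0 0 0) (.L 4 6 [4, 4, 5] []
    [] 100000 20000 20000 1260000 40000 0 80000 20000 0 0 0))

lemma s22_23_9_2_2 {n : ℕ} (hn : 7 ≤ n) : NoNd (d22_23_9_2.R : ℤ) d22_23_9_2.H n d22_23_9_2.a d22_23_9_2.b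
    (BlkD.inB (BlkD.upd (fun _ => 0) 0 1)
      (BlkD.upd (BlkD.upd (BlkD.upd (BlkD.upd (BlkD.upd (BlkD.upd (fun _ => 23) 0 9) 2 2) 0 4) 0 2) 0 1) 1 11)) :=
  BlkD.tree_sound (BlkD.pairOk_sound k22_23_9_2) (by decide) hn t22_23_9_2_2 _ _ (by decide +kernel)

/-- certificates of the pair `(9, 2)`, part 3 -/
def t22_23_9_2_3 : BlkD.Tr :=
  .L 4 6 [4, 4, 5] [] [] 100000 20000 20000 1260000 40000 0 80000 20000 0 0 0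

lemma s22_23_9_2_3 {n : ℕ} (hn : 7 ≤ n) : NoNd (d22_23_9_2.R : ℤ) d22_23_9_2.H n d22_23_9_2.a d22_23_9_2.b
    (BlkD.inB (BlkD.upd (BlkD.upd (fun _ => 0) 0 1) 1 12)
      (BlkD.upd (BlkD.upd (BlkD.upd (BlkD.upd (BlkD.upd (fun _ => 23) 0 9) 2 2) 0 4) 0 2) 0 1)) :=
  BlkD.tree_sound (BlkD.pairOk_sound k22_23_9_2) (by decide) hn t22_23_9_2_3 _ _ (by decide +kernel)

/-- certificates of the pair `(9, 2)`, part 4 -/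
def t22_23_9_2_4 : BlkD.Tr :=
  .S 1 5 (.L 4 6 [4, 4, 5] [] [] 100000 20000 20000 1260000 40000 0 80000 20000 0 0 0) (.L 4 6 [4,
    4, 5] [] [] 100000 20000 20000 1260000 40000 0 80000 20000 0 0 0)

lemma s22_23_9_2_4 {n : ℕ} (hn : 7 ≤ n) : NoNd (d22_23_9_2.R : ℤ) d22_23_9_2.H n d22_23_9_2.a d22_23_9_2.b
    (BlkD.inB (BlkD.upd (fun _ => 0) 0 2)
      (BlkD.upd (BlkD.upd (BlkD.upd (BlkD.upd (BlkD.upd (fun _ => 23) 0 9) 2 2) 0 4) 0 2) 1 11)) :=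
  BlkD.tree_sound (BlkD.pairOk_sound k22_23_9_2) (by decide) hn t22_23_9_2_4 _ _ (by decide +kernel)

/-- certificates of the pair `(9, 2)`, part 5 -/
def t22_23_9_2_5 : BlkD.Tr :=
  .L 4 6 [4, 4, 5] [] [] 100000 20000 20000 1260000 40000 0 80000 20000 0 0 0

lemma s22_23_9_2_5 {n : ℕ} (hn : 7 ≤ n) : NoNd (d22_23_9_2.R : ℤ) d22_23_9_2.H n d22_23_9_2.a d22_23_9_2.b
    (BlkD.inB (BlkD.upd (BlkD.upd (fun _ => 0) 0 2) 1 12)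
      (BlkD.upd (BlkD.upd (BlkD.upd (BlkD.upd (fun _ => 23) 0 9) 2 2) 0 4) 0 2)) :=
  BlkD.tree_sound (BlkD.pairOk_sound k22_23_9_2) (by decide) hn t22_23_9_2_5 _ _ (by decide +kernel)

/-- certificates of the pair `(9, 2)`, part 6 -/
def t22_23_9_2_6 : BlkD.Tr :=
  .S 1 11 (.S 1 5 (.L 4 6 [4, 4, 5] [] [] 100000 20000 20000 1260000 40000 0 80000 20000 0 0 0) (.L
    4 6 [4, 4, 5] [] [] 100000 20000 20000 1260000 40000 0 80000 20000 0 0 0)) (.L 4 6 [4, 4, 5] []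
    [] 100000 20000 20000 1260000 40000 0 80000 20000 0 0 0)

lemma s22_23_9_2_6 {n : ℕ} (hn : 7 ≤ n) : NoNd (d22_23_9_2.R : ℤ) d22_23_9_2.H n d22_23_9_2.a d22_23_9_2.b
    (BlkD.inB (BlkD.upd (fun _ => 0) 0 3)
      (BlkD.upd (BlkD.upd (BlkD.upd (BlkD.upd (fun _ => 23) 0 9) 2 2) 0 4) 0 3)) :=
  BlkD.tree_sound (BlkD.pairOk_sound k22_23_9_2) (by decide) hn t22_23_9_2_6 _ _ (by decide +kernel)

/-- certificates of the pair `(9, 2)`, part 7 -/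
def t22_23_9_2_7 : BlkD.Tr :=
  .S 1 11 (.S 1 5 (.L 4 6 [4, 4, 5] [] [] 100000 20000 20000 1260000 40000 0 80000 20000 0 0 0) (.L
    4 6 [4, 4, 5] [] [] 100000 20000 20000 1260000 40000 0 80000 20000 0 0 0)) (.L 4 6 [4, 4, 5] []
    [] 100000 20000 20000 1260000 40000 0 80000 20000 0 0 0)

lemma s22_23_9_2_7 {n : ℕ} (hn : 7 ≤ n) : NoNd (d22_23_9_2.R : ℤ) d22_23_9_2.H n d22_23_9_2.a d22_23_9_2.b
    (BlkD.inB (BlkD.upd (BlkD.upd (fun _ => 0) 0 3) 0 4)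
      (BlkD.upd (BlkD.upd (BlkD.upd (fun _ => 23) 0 9) 2 2) 0 4)) :=
  BlkD.tree_sound (BlkD.pairOk_sound k22_23_9_2) (by decide) hn t22_23_9_2_7 _ _ (by decide +kernel)

/-- certificates of the pair `(9, 2)`, part 8 -/
def t22_23_9_2_8 : BlkD.Tr :=
  .S 1 18 (.S 1 9 (.L 4 6 [4, 4, 5] [] [] 100000 1 1 1381818 27273 0 63636 13636 0 13636 13636) (.L
    4 6 [4, 4, 5] [] [] 100000 0 0 1377779 22222 0 88889 11111 0 11111 11111)) (.E 0)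

lemma s22_23_9_2_8 {n : ℕ} (hn : 7 ≤ n) : NoNd (d22_23_9_2.R : ℤ) d22_23_9_2.H n d22_23_9_2.a d22_23_9_2.b
    (BlkD.inB (BlkD.upd (fun _ => 0) 0 5)
      (BlkD.upd (BlkD.upd (BlkD.upd (BlkD.upd (BlkD.upd (fun _ => 23) 0 9) 2 2) 0 7) 0 6) 0 5)) :=
  BlkD.tree_sound (BlkD.pairOk_sound k22_23_9_2) (by decide) hn t22_23_9_2_8 _ _ (by decide +kernel)

/-- certificates of the pair `(9, 2)`, part 9 -/
def t22_23_9_2_9 : BlkD.Tr :=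
  .L 4 6 [4, 4, 5] [] [] 100000 0 0 1392595 20370 0 85185 7407 7407 7407 7407

lemma s22_23_9_2_9 {n : ℕ} (hn : 7 ≤ n) : NoNd (d22_23_9_2.R : ℤ) d22_23_9_2.H n d22_23_9_2.a d22_23_9_2.b
    (BlkD.inB (BlkD.upd (BlkD.upd (fun _ => 0) 0 5) 0 6)
      (BlkD.upd (BlkD.upd (BlkD.upd (BlkD.upd (fun _ => 23) 0 9) 2 2) 0 7) 0 6)) :=
  BlkD.tree_sound (BlkD.pairOk_sound k22_23_9_2) (by decide) hn t22_23_9_2_9 _ _ (by decide +kernel)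

/-- certificates of the pair `(9, 2)`, part 10 -/
def t22_23_9_2_10 : BlkD.Tr :=
  .L 4 6 [4, 4, 5] [] [] 100000 0 0 1395605 20879 0 60440 10440 6593 7143 7143

lemma s22_23_9_2_10 {n : ℕ} (hn : 7 ≤ n) : NoNd (d22_23_9_2.R : ℤ) d22_23_9_2.H n d22_23_9_2.a d22_23_9_2.b
    (BlkD.inB (BlkD.upd (BlkD.upd (fun _ => 0) 0 5) 0 7)
      (BlkD.upd (BlkD.upd (BlkD.upd (fun _ => 23) 0 9) 2 2) 0 7)) :=
  BlkD.tree_sound (BlkD.pairOk_sound k22_23_9_2) (by decide) hn t22_23_9_2_10 _ _ (by decide +kernel)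

/-- certificates of the pair `(9, 2)`, part 11 -/
def t22_23_9_2_11 : BlkD.Tr :=
  .L 4 6 [4, 4, 5] [] [] 100000 1 1 1350437 16522 0 58261 16522 6957 6957 6957

lemma s22_23_9_2_11 {n : ℕ} (hn : 7 ≤ n) : NoNd (d22_23_9_2.R : ℤ) d22_23_9_2.H n d22_23_9_2.a d22_23_9_2.b
    (BlkD.inB (BlkD.upd (BlkD.upd (fun _ => 0) 0 5) 0 8)
      (BlkD.upd (BlkD.upd (fun _ => 23) 0 9) 2 2)) :=
  BlkD.tree_sound (BlkD.pairOk_sound k22_23_9_2) (by decide) hn t22_23_9_2_11 _ _ (by decide +kernel)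

/-- certificates of the pair `(9, 2)`, part 12 -/
def t22_23_9_2_12 : BlkD.Tr :=
  .E 1

lemma s22_23_9_2_12 {n : ℕ} (hn : 7 ≤ n) : NoNd (d22_23_9_2.R : ℤ) d22_23_9_2.H n d22_23_9_2.a d22_23_9_2.b
    (BlkD.inB (BlkD.upd (fun _ => 0) 2 3)
      (BlkD.upd (fun _ => 23) 0 9)) :=
  BlkD.tree_sound (BlkD.pairOk_sound k22_23_9_2) (by decide) hn t22_23_9_2_12 _ _ (by decide +kernel)

/-- certificates of the pair `(9, 2)`, part 13 -/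
def t22_23_9_2_13 : BlkD.Tr :=
  .E 0

lemma s22_23_9_2_13 {n : ℕ} (hn : 7 ≤ n) : NoNd (d22_23_9_2.R : ℤ) d22_23_9_2.H n d22_23_9_2.a d22_23_9_2.b
    (BlkD.inB (BlkD.upd (fun _ => 0) 0 10)
      (fun _ => 23)) :=
  BlkD.tree_sound (BlkD.pairOk_sound k22_23_9_2) (by decide) hn t22_23_9_2_13 _ _ (by decide +kernel)

lemma pr22_23_9_2 {n : ℕ} (hn : 7 ≤ n) : NoPr ((22 : ℕ) : ℤ) ((23 : ℕ) : ℤ) n 9 2 :=
  BlkD.of_root (R := d22_23_9_2.R) (H := d22_23_9_2.H) (a := d22_23_9_2.a) (b := d22_23_9_2.b) (q := 5) (by decide) hn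
    (BlkD.sp 0 9 (BlkD.sp 2 2 (BlkD.sp 0 4 (BlkD.sp 0 2 (BlkD.sp 0 1 (BlkD.sp 0 0 (s22_23_9_2_1 hn)
      (BlkD.sp 1 11 (s22_23_9_2_2 hn) (s22_23_9_2_3 hn))) (BlkD.sp 1 11 (s22_23_9_2_4 hn)
      (s22_23_9_2_5 hn))) (BlkD.sp 0 3 (s22_23_9_2_6 hn) (s22_23_9_2_7 hn))) (BlkD.sp 0 7 (BlkD.sp
      0 6 (BlkD.sp 0 5 (s22_23_9_2_8 hn) (s22_23_9_2_9 hn)) (s22_23_9_2_10 hn)) (s22_23_9_2_11
      hn))) (s22_23_9_2_12 hn)) (s22_23_9_2_13 hn))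

end BlkC

end Pool.Agent.Lib.MP_f04ccf_co
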