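import Pool.Agent.Lib.MP_f04ccf_co.M.BlkT

/-!
MP_f04ccf_co, block certificate, data `R = 22`, `H = 23`, part 18 (generated, helper99:
bd10.cpp, gen2.py).
-/

set_option autoImplicit false
set_option maxRecDepth 100000

namespace Pool.Agent.Lib.MP_f04ccf_co

namespace BlkC

/-- the numbers of the pair `(9, 3)`, `R = 22`, `H = 23` -/
def d22_23_9_3 : BlkD.Pd :=
  ⟨22, 23, 5, 9, 3, 8, 3, 2, 1, 5, 12, 0, 4, 1, 8, 0, [0, 12, 24, 36, 44, 45, 46, 47, 48], [0, 8,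
    16, 20, 24, 28, 32, 36, 40], [⟨1, 1, 1, 4, 8, [0, 4], [0, 4]⟩, ⟨1, 1, 1, 4, 14, [0, 8], [0,
    6]⟩, ⟨2, 1, 1, 4, 16, [0, 10, 10], [0, 6]⟩, ⟨2, 1, 1, 4, 30, [0, 12, 22], [0, 8]⟩]⟩

lemma k22_23_9_3 : BlkD.pairOk d22_23_9_3 = true := by decide +kernel

/-- certificates of the pair `(9, 3)`, part 1 -/
def t22_23_9_3_1 : BlkD.Tr :=
  .L 5 8 [4, 4, 4, 5] [] [] 100000 133334 133334 800000 100000 0 100000 0 0 0 0

lemma s22_23_9_3_1 {n : ℕ} (hn : 7 ≤ n) : NoNd (d22_23_9_3.R : ℤ) d22_23_9_3.H n d22_23_9_3.a d22_23_9_3.b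
    (BlkD.inB (fun _ => 0)
      (BlkD.upd (BlkD.upd (BlkD.upd (BlkD.upd (BlkD.upd (BlkD.upd (fun _ => 23) 0 9) 2 3) 0 4) 0 2) 0 1) 0 0)) :=
  BlkD.tree_sound (BlkD.pairOk_sound k22_23_9_3) (by decide) hn t22_23_9_3_1 _ _ (by decide +kernel)

/-- certificates of the pair `(9, 3)`, part 2 -/
def t22_23_9_3_2 : BlkD.Tr :=
  .L 5 8 [4, 4, 4, 5] [] [] 100000 133334 133334 800000 100000 0 100000 0 0 0 0

lemma s22_23_9_3_2 {n : ℕ} (hn : 7 ≤ n) : NoNd (d22_23_9_3.R : ℤ) d22_23_9_3.H n d22_23_9_3.a d22_23_9_3.b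
    (BlkD.inB (BlkD.upd (fun _ => 0) 0 1)
      (BlkD.upd (BlkD.upd (BlkD.upd (BlkD.upd (BlkD.upd (BlkD.upd (BlkD.upd (fun _ => 23) 0 9) 2 3) 0 4) 0 2) 0 1) 1 11) 1 5)) :=
  BlkD.tree_sound (BlkD.pairOk_sound k22_23_9_3) (by decide) hn t22_23_9_3_2 _ _ (by decide +kernel)

/-- certificates of the pair `(9, 3)`, part 3 -/
def t22_23_9_3_3 : BlkD.Tr :=
  .S 1 8 (.L 5 8 [4, 4, 4, 5] [] [] 100000 133334 133334 800000 100000 0 100000 0 0 0 0) (.L 5 8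
    [4, 4, 4, 5] [] [] 100000 133334 133334 800000 100000 0 100000 0 0 0 0)

lemma s22_23_9_3_3 {n : ℕ} (hn : 7 ≤ n) : NoNd (d22_23_9_3.R : ℤ) d22_23_9_3.H n d22_23_9_3.a d22_23_9_3.b
    (BlkD.inB (BlkD.upd (BlkD.upd (fun _ => 0) 0 1) 1 6)
      (BlkD.upd (BlkD.upd (BlkD.upd (BlkD.upd (BlkD.upd (BlkD.upd (fun _ => 23) 0 9) 2 3) 0 4) 0 2) 0 1) 1 11)) :=
  BlkD.tree_sound (BlkD.pairOk_sound k22_23_9_3) (by decide) hn t22_23_9_3_3 _ _ (by decide +kernel)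

/-- certificates of the pair `(9, 3)`, part 4 -/
def t22_23_9_3_4 : BlkD.Tr :=
  .L 5 8 [4, 4, 4, 5] [] [] 100000 133334 133334 800000 100000 0 100000 0 0 0 0

lemma s22_23_9_3_4 {n : ℕ} (hn : 7 ≤ n) : NoNd (d22_23_9_3.R : ℤ) d22_23_9_3.H n d22_23_9_3.a d22_23_9_3.b
    (BlkD.inB (BlkD.upd (BlkD.upd (fun _ => 0) 0 1) 1 12)
      (BlkD.upd (BlkD.upd (BlkD.upd (BlkD.upd (BlkD.upd (fun _ => 23) 0 9) 2 3) 0 4) 0 2) 0 1)) :=
  BlkD.tree_sound (BlkD.pairOk_sound k22_23_9_3) (by decide) hn t22_23_9_3_4 _ _ (by decide +kernel)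

/-- certificates of the pair `(9, 3)`, part 5 -/
def t22_23_9_3_5 : BlkD.Tr :=
  .L 5 8 [4, 4, 4, 5] [] [] 100000 133334 133334 800000 100000 0 100000 0 0 0 0

lemma s22_23_9_3_5 {n : ℕ} (hn : 7 ≤ n) : NoNd (d22_23_9_3.R : ℤ) d22_23_9_3.H n d22_23_9_3.a d22_23_9_3.b
    (BlkD.inB (BlkD.upd (fun _ => 0) 0 2)
      (BlkD.upd (BlkD.upd (BlkD.upd (BlkD.upd (BlkD.upd (BlkD.upd (fun _ => 23) 0 9) 2 3) 0 4) 0 2) 1 11) 1 5)) :=
  BlkD.tree_sound (BlkD.pairOk_sound k22_23_9_3) (by decide) hn t22_23_9_3_5 _ _ (by decide +kernel)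

/-- certificates of the pair `(9, 3)`, part 6 -/
def t22_23_9_3_6 : BlkD.Tr :=
  .S 1 8 (.L 5 8 [4, 4, 4, 5] [] [] 100000 133334 133334 800000 100000 0 100000 0 0 0 0) (.L 5 8
    [4, 4, 4, 5] [] [] 100000 133334 133334 800000 100000 0 100000 0 0 0 0)

lemma s22_23_9_3_6 {n : ℕ} (hn : 7 ≤ n) : NoNd (d22_23_9_3.R : ℤ) d22_23_9_3.H n d22_23_9_3.a d22_23_9_3.b
    (BlkD.inB (BlkD.upd (BlkD.upd (fun _ => 0) 0 2) 1 6)
      (BlkD.upd (BlkD.upd (BlkD.upd (BlkD.upd (BlkD.upd (fun _ => 23) 0 9) 2 3) 0 4) 0 2) 1 11)) :=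
  BlkD.tree_sound (BlkD.pairOk_sound k22_23_9_3) (by decide) hn t22_23_9_3_6 _ _ (by decide +kernel)

/-- certificates of the pair `(9, 3)`, part 7 -/
def t22_23_9_3_7 : BlkD.Tr :=
  .L 5 8 [4, 4, 4, 5] [] [] 100000 133334 133334 800000 100000 0 100000 0 0 0 0

lemma s22_23_9_3_7 {n : ℕ} (hn : 7 ≤ n) : NoNd (d22_23_9_3.R : ℤ) d22_23_9_3.H n d22_23_9_3.a d22_23_9_3.b
    (BlkD.inB (BlkD.upd (BlkD.upd (fun _ => 0) 0 2) 1 12)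
      (BlkD.upd (BlkD.upd (BlkD.upd (BlkD.upd (fun _ => 23) 0 9) 2 3) 0 4) 0 2)) :=
  BlkD.tree_sound (BlkD.pairOk_sound k22_23_9_3) (by decide) hn t22_23_9_3_7 _ _ (by decide +kernel)

/-- certificates of the pair `(9, 3)`, part 8 -/
def t22_23_9_3_8 : BlkD.Tr :=
  .L 5 8 [4, 4, 4, 5] [] [] 100000 89102 89102 1209618 55769 0 72596 32692 0 12500 6250

lemma s22_23_9_3_8 {n : ℕ} (hn : 7 ≤ n) : NoNd (d22_23_9_3.R : ℤ) d22_23_9_3.H n d22_23_9_3.a d22_23_9_3.b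
    (BlkD.inB (BlkD.upd (fun _ => 0) 0 3)
      (BlkD.upd (BlkD.upd (BlkD.upd (BlkD.upd (BlkD.upd (BlkD.upd (BlkD.upd (fun _ => 23) 0 9) 2 3) 0 4) 0 3) 1 20) 1 10) 1 5)) :=
  BlkD.tree_sound (BlkD.pairOk_sound k22_23_9_3) (by decide) hn t22_23_9_3_8 _ _ (by decide +kernel)

/-- certificates of the pair `(9, 3)`, part 9 -/
def t22_23_9_3_9 : BlkD.Tr :=
  .S 1 8 (.L 5 8 [4, 4, 4, 5] [] [] 100000 89102 89102 1209618 55769 0 72596 32692 0 12500 6250)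
    (.L 5 8 [4, 4, 4, 5] [] [] 100000 89102 89102 1209618 55769 0 72596 32692 0 12500 6250)

lemma s22_23_9_3_9 {n : ℕ} (hn : 7 ≤ n) : NoNd (d22_23_9_3.R : ℤ) d22_23_9_3.H n d22_23_9_3.a d22_23_9_3.b
    (BlkD.inB (BlkD.upd (BlkD.upd (fun _ => 0) 0 3) 1 6)
      (BlkD.upd (BlkD.upd (BlkD.upd (BlkD.upd (BlkD.upd (BlkD.upd (fun _ => 23) 0 9) 2 3) 0 4) 0 3) 1 20) 1 10)) :=
  BlkD.tree_sound (BlkD.pairOk_sound k22_23_9_3) (by decide) hn t22_23_9_3_9 _ _ (by decide +kernel)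

/-- certificates of the pair `(9, 3)`, part 10 -/
def t22_23_9_3_10 : BlkD.Tr :=
  .S 1 15 (.S 1 13 (.S 1 12 (.S 1 11 (.L 5 8 [4, 4, 4, 5] [247, 246, 245, 244, 243, 242] [] 100000
    133334 133334 1000000 100000 0 100000 0 0 0 0) (.L 5 8 [4, 4, 4, 5] [276, 275, 274, 273, 272,
    271] [] 100000 133333 92157 794120 105882 0 141176 29412 0 0 0)) (.L 5 8 [4, 4, 4, 5] [307,
    306, 305, 304, 303, 302] [] 100000 176923 115385 561541 130769 0 161538 23077 0 0 0)) (.L 5 8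
    [4, 4, 4, 5] [] [] 100000 195834 195834 900000 100000 0 100000 37500 0 12500 6250)) (.L 5 8 [4,
    4, 4, 5] [] [] 100000 333333 253333 3 153333 0 180000 53333 0 0 0)

lemma s22_23_9_3_10 {n : ℕ} (hn : 7 ≤ n) : NoNd (d22_23_9_3.R : ℤ) d22_23_9_3.H n d22_23_9_3.a d22_23_9_3.b
    (BlkD.inB (BlkD.upd (BlkD.upd (fun _ => 0) 0 3) 1 11)
      (BlkD.upd (BlkD.upd (BlkD.upd (BlkD.upd (BlkD.upd (fun _ => 23) 0 9) 2 3) 0 4) 0 3) 1 20)) :=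
  BlkD.tree_sound (BlkD.pairOk_sound k22_23_9_3) (by decide) hn t22_23_9_3_10 _ _ (by decide +kernel)

/-- certificates of the pair `(9, 3)`, part 11 -/
def t22_23_9_3_11 : BlkD.Tr :=
  .E 0

lemma s22_23_9_3_11 {n : ℕ} (hn : 7 ≤ n) : NoNd (d22_23_9_3.R : ℤ) d22_23_9_3.H n d22_23_9_3.a d22_23_9_3.b
    (BlkD.inB (BlkD.upd (BlkD.upd (fun _ => 0) 0 3) 1 21)
      (BlkD.upd (BlkD.upd (BlkD.upd (BlkD.upd (fun _ => 23) 0 9) 2 3) 0 4) 0 3)) :=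
  BlkD.tree_sound (BlkD.pairOk_sound k22_23_9_3) (by decide) hn t22_23_9_3_11 _ _ (by decide +kernel)

/-- certificates of the pair `(9, 3)`, part 12 -/
def t22_23_9_3_12 : BlkD.Tr :=
  .L 5 8 [4, 4, 4, 5] [] [] 100000 33334 33334 1187500 25000 0 25000 12500 0 0 0

lemma s22_23_9_3_12 {n : ℕ} (hn : 7 ≤ n) : NoNd (d22_23_9_3.R : ℤ) d22_23_9_3.H n d22_23_9_3.a d22_23_9_3.b
    (BlkD.inB (BlkD.upd (BlkD.upd (fun _ => 0) 0 3) 0 4)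
      (BlkD.upd (BlkD.upd (BlkD.upd (BlkD.upd (BlkD.upd (BlkD.upd (fun _ => 23) 0 9) 2 3) 0 4) 1 19) 1 9) 1 4)) :=
  BlkD.tree_sound (BlkD.pairOk_sound k22_23_9_3) (by decide) hn t22_23_9_3_12 _ _ (by decide +kernel)

/-- certificates of the pair `(9, 3)`, part 13 -/
def t22_23_9_3_13 : BlkD.Tr :=
  .S 1 7 (.S 1 6 (.L 5 8 [4, 4, 4, 5] [] [] 100000 33334 33334 1300000 25000 0 25000 50000 0 0 0)
    (.L 5 8 [4, 4, 4, 5] [165, 164, 156, 146, 134, 122] [] 100000 45977 45977 1286208 37931 0 55172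
    48276 0 13793 6897)) (.S 1 8 (.L 5 8 [4, 4, 4, 5] [188, 187, 186, 178, 168, 156] [] 100000
    57389 57389 1288659 46392 0 72165 40206 0 13402 9278) (.L 5 8 [4, 4, 4, 5] [213, 212, 211, 210,
    202, 192] [] 100000 50000 50000 1312500 50000 0 62500 37500 0 12500 12500))

lemma s22_23_9_3_13 {n : ℕ} (hn : 7 ≤ n) : NoNd (d22_23_9_3.R : ℤ) d22_23_9_3.H n d22_23_9_3.a d22_23_9_3.b
    (BlkD.inB (BlkD.upd (BlkD.upd (BlkD.upd (fun _ => 0) 0 3) 0 4) 1 5)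
      (BlkD.upd (BlkD.upd (BlkD.upd (BlkD.upd (BlkD.upd (fun _ => 23) 0 9) 2 3) 0 4) 1 19) 1 9)) :=
  BlkD.tree_sound (BlkD.pairOk_sound k22_23_9_3) (by decide) hn t22_23_9_3_13 _ _ (by decide +kernel)

/-- certificates of the pair `(9, 3)`, part 14 -/
def t22_23_9_3_14 : BlkD.Tr :=
  .S 1 14 (.S 1 12 (.S 1 11 (.S 1 10 (.L 5 8 [4, 4, 4, 5] [240, 239, 238, 237, 236, 228] [] 100000
    54545 54545 1290913 54545 0 72727 45455 0 0 13636) (.L 5 8 [4, 4, 4, 5] [269, 268, 267, 266,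
    265, 264] [] 100000 105600 105600 1088800 83200 0 100000 78400 0 4800 5600)) (.L 5 8 [4, 4, 4,
    5] [300, 299, 298, 297, 296, 295] [] 100000 120000 100000 940000 100000 0 120000 40000 0 0 0))
    (.S 1 13 (.L 5 8 [4, 4, 4, 5] [333, 332, 331, 330, 329, 328] [] 100000 138461 76923 676926
    107692 0 161538 46154 0 0 0) (.L 5 8 [4, 4, 4, 5] [368, 367, 366, 365, 364, 363] [] 100000
    226667 113334 2 180000 0 213333 0 0 0 0))) (.S 1 17 (.S 1 16 (.S 1 15 (.L 5 8 [4, 4, 4, 5]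
    [405, 404, 403, 402, 401, 400] [] 100000 182691 80768 4 161538 0 201923 0 0 0 0) (.E 0)) (.E
    0)) (.E 0))

lemma s22_23_9_3_14 {n : ℕ} (hn : 7 ≤ n) : NoNd (d22_23_9_3.R : ℤ) d22_23_9_3.H n d22_23_9_3.a d22_23_9_3.b
    (BlkD.inB (BlkD.upd (BlkD.upd (BlkD.upd (fun _ => 0) 0 3) 0 4) 1 10)
      (BlkD.upd (BlkD.upd (BlkD.upd (BlkD.upd (fun _ => 23) 0 9) 2 3) 0 4) 1 19)) :=
  BlkD.tree_sound (BlkD.pairOk_sound k22_23_9_3) (by decide) hn t22_23_9_3_14 _ _ (by decide +kernel)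

/-- certificates of the pair `(9, 3)`, part 15 -/
def t22_23_9_3_15 : BlkD.Tr :=
  .E 0

lemma s22_23_9_3_15 {n : ℕ} (hn : 7 ≤ n) : NoNd (d22_23_9_3.R : ℤ) d22_23_9_3.H n d22_23_9_3.a d22_23_9_3.b
    (BlkD.inB (BlkD.upd (BlkD.upd (BlkD.upd (fun _ => 0) 0 3) 0 4) 1 20)
      (BlkD.upd (BlkD.upd (BlkD.upd (fun _ => 23) 0 9) 2 3) 0 4)) :=
  BlkD.tree_sound (BlkD.pairOk_sound k22_23_9_3) (by decide) hn t22_23_9_3_15 _ _ (by decide +kernel)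

/-- certificates of the pair `(9, 3)`, part 16 -/
def t22_23_9_3_16 : BlkD.Tr :=
  .L 5 8 [4, 4, 4, 5] [] [] 100000 33334 33334 1225000 25000 0 25000 75000 0 0 0

lemma s22_23_9_3_16 {n : ℕ} (hn : 7 ≤ n) : NoNd (d22_23_9_3.R : ℤ) d22_23_9_3.H n d22_23_9_3.a d22_23_9_3.b
    (BlkD.inB (BlkD.upd (fun _ => 0) 0 5)
      (BlkD.upd (BlkD.upd (BlkD.upd (BlkD.upd (BlkD.upd (BlkD.upd (BlkD.upd (BlkD.upd (fun _ => 23) 0 9) 2 3) 0 7) 0 6) 0 5) 1 18) 1 9) 1 4)) :=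
  BlkD.tree_sound (BlkD.pairOk_sound k22_23_9_3) (by decide) hn t22_23_9_3_16 _ _ (by decide +kernel)

/-- certificates of the pair `(9, 3)`, part 17 -/
def t22_23_9_3_17 : BlkD.Tr :=
  .S 1 6 (.S 1 5 (.L 5 8 [4, 4, 4, 5] [128, 118, 106, 94, 82, 70] [] 100000 29630 29630 1311112
    22222 0 22222 77778 0 22222 11111) (.L 5 8 [4, 4, 4, 5] [156, 148, 138, 126, 114, 102] []
    100000 46155 46155 1323080 38462 0 46154 46154 0 15385 7692)) (.S 2 1 (.S 2 0 (.L 5 8 [4, 4, 4,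
    5] [179, 178, 170, 160, 148, 136] [] 100000 33334 33334 1311112 22222 0 44444 88889 0 0 0) (.S
    3 10 (.S 3 5 (.S 3 2 (.L 5 8 [4, 4, 4, 5] [179, 178, 170, 160, 148, 136] [] 100000 25000 25000
    1400000 25000 0 50000 25000 0 25000 25000) (.L 5 8 [4, 4, 4, 5] [179, 178, 170, 160, 148, 136]
    [] 100000 75363 75363 1260870 56522 0 79710 43478 0 15942 15942)) (.E 1)) (.E 1))) (.S 2 2 (.S
    3 9 (.S 3 4 (.S 3 2 (.L 5 8 [4, 4, 4, 5] [179, 178, 170, 160, 148, 136] [] 100000 40000 40000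
    1360000 40000 0 60000 20000 0 40000 20000) (.L 5 8 [4, 4, 4, 5] [179, 178, 170, 160, 148, 136]
    [] 100000 100002 100002 1157140 71429 0 71429 42857 0 0 14286)) (.E 1)) (.E 1)) (.L 5 8 [4, 4,
    4, 5] [179, 178, 170, 160, 148, 136] [] 100000 66668 66668 1214285 57143 0 57143 0 0 28571
    14286)))

lemma s22_23_9_3_17 {n : ℕ} (hn : 7 ≤ n) : NoNd (d22_23_9_3.R : ℤ) d22_23_9_3.H n d22_23_9_3.a d22_23_9_3.b
    (BlkD.inB (BlkD.upd (BlkD.upd (fun _ => 0) 0 5) 1 5)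
      (BlkD.upd (BlkD.upd (BlkD.upd (BlkD.upd (BlkD.upd (BlkD.upd (BlkD.upd (BlkD.upd (fun _ => 23) 0 9) 2 3) 0 7) 0 6) 0 5) 1 18) 1 9) 1 7)) :=
  BlkD.tree_sound (BlkD.pairOk_sound k22_23_9_3) (by decide) hn t22_23_9_3_17 _ _ (by decide +kernel)

/-- certificates of the pair `(9, 3)`, part 18 -/
def t22_23_9_3_18 : BlkD.Tr :=
  .S 1 8 (.S 2 1 (.S 2 0 (.L 5 8 [4, 4, 4, 5] [204, 203, 202, 194, 184, 172] [] 100000 33334 33334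
    1303334 30000 0 76667 73333 0 0 23333) (.S 3 9 (.S 3 4 (.S 3 2 (.L 5 8 [4, 4, 4, 5] [204, 203,
    202, 194, 184, 172] [] 100000 27778 27778 1400002 33333 0 66667 41667 0 16667 25000) (.L 5 8
    [4, 4, 4, 5] [204, 203, 202, 194, 184, 172] [] 100000 100000 100000 1163638 72727 0 100000
    36364 0 63636 0)) (.E 1)) (.E 1))) (.S 2 2 (.S 3 8 (.S 3 4 (.S 3 2 (.L 5 8 [4, 4, 4, 5] [204,
    203, 202, 194, 184, 172] [] 100000 33334 33334 1380000 40000 0 80000 20000 0 40000 20000) (.L 5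
    8 [4, 4, 4, 5] [204, 203, 202, 194, 184, 172] [] 100000 150000 150000 1000000 100000 0 100000 0
    0 50000 0)) (.E 1)) (.E 1)) (.L 5 8 [4, 4, 4, 5] [204, 203, 202, 194, 184, 172] [] 100000
    100000 100000 1120000 80000 0 80000 0 0 80000 0))) (.S 2 1 (.S 2 0 (.L 5 8 [4, 4, 4, 5] [231,
    230, 229, 228, 220, 210] [] 100000 40000 40000 1280000 40000 0 80000 60000 0 0 20000) (.S 3 8
    (.S 3 4 (.S 3 2 (.L 5 8 [4, 4, 4, 5] [231, 230, 229, 228, 220, 210] [] 100000 27084 27084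
    1394793 37500 0 80208 32292 0 29167 18750) (.L 5 8 [4, 4, 4, 5] [231, 230, 229, 228, 220, 210]
    [] 100000 100000 100000 1163638 72727 0 100000 36364 0 0 0)) (.E 1)) (.E 1))) (.L 5 8 [4, 4, 4,
    5] [231, 230, 229, 228, 220, 210] [] 100000 73334 73334 1260000 60000 0 100000 20000 0 20000
    10000))

lemma s22_23_9_3_18 {n : ℕ} (hn : 7 ≤ n) : NoNd (d22_23_9_3.R : ℤ) d22_23_9_3.H n d22_23_9_3.a d22_23_9_3.b
    (BlkD.inB (BlkD.upd (BlkD.upd (BlkD.upd (fun _ => 0) 0 5) 1 5) 1 8)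
      (BlkD.upd (BlkD.upd (BlkD.upd (BlkD.upd (BlkD.upd (BlkD.upd (BlkD.upd (fun _ => 23) 0 9) 2 3) 0 7) 0 6) 0 5) 1 18) 1 9)) :=
  BlkD.tree_sound (BlkD.pairOk_sound k22_23_9_3) (by decide) hn t22_23_9_3_18 _ _ (by decide +kernel)

/-- certificates of the pair `(9, 3)`, part 19 -/
def t22_23_9_3_19 : BlkD.Tr :=
  .S 1 14 (.S 1 12 (.S 1 11 (.S 1 10 (.L 5 8 [4, 4, 4, 5] [260, 259, 258, 257, 256, 248] [] 100000
    69951 69951 1231817 61364 0 100000 45455 0 6818 14394) (.L 5 8 [4, 4, 4, 5] [291, 290, 289,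
    288, 287, 286] [] 100000 66667 66667 1200000 66667 0 100000 33333 0 0 0)) (.L 5 8 [4, 4, 4, 5]
    [324, 323, 322, 321, 320, 319] [] 100000 117241 51724 720692 113793 0 165517 31034 0 0 0)) (.S
    1 13 (.L 5 8 [4, 4, 4, 5] [359, 358, 357, 356, 355, 354] [] 100000 219685 86614 0 184252 0
    233071 46457 0 0 0) (.E 0))) (.E 0)

lemma s22_23_9_3_19 {n : ℕ} (hn : 7 ≤ n) : NoNd (d22_23_9_3.R : ℤ) d22_23_9_3.H n d22_23_9_3.a d22_23_9_3.b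
    (BlkD.inB (BlkD.upd (BlkD.upd (fun _ => 0) 0 5) 1 10)
      (BlkD.upd (BlkD.upd (BlkD.upd (BlkD.upd (BlkD.upd (BlkD.upd (fun _ => 23) 0 9) 2 3) 0 7) 0 6) 0 5) 1 18)) :=
  BlkD.tree_sound (BlkD.pairOk_sound k22_23_9_3) (by decide) hn t22_23_9_3_19 _ _ (by decide +kernel)

/-- certificates of the pair `(9, 3)`, part 20 -/
def t22_23_9_3_20 : BlkD.Tr :=
  .E 0

lemma s22_23_9_3_20 {n : ℕ} (hn : 7 ≤ n) : NoNd (d22_23_9_3.R : ℤ) d22_23_9_3.H n d22_23_9_3.a d22_23_9_3.b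
    (BlkD.inB (BlkD.upd (BlkD.upd (fun _ => 0) 0 5) 1 19)
      (BlkD.upd (BlkD.upd (BlkD.upd (BlkD.upd (BlkD.upd (fun _ => 23) 0 9) 2 3) 0 7) 0 6) 0 5)) :=
  BlkD.tree_sound (BlkD.pairOk_sound k22_23_9_3) (by decide) hn t22_23_9_3_20 _ _ (by decide +kernel)

/-- certificates of the pair `(9, 3)`, part 21 -/
def t22_23_9_3_21 : BlkD.Tr :=
  .S 1 4 (.L 5 8 [4, 4, 4, 5] [] [] 100000 27273 27273 1318184 27273 0 27273 72727 0 27273 18182)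
    (.S 1 6 (.S 1 5 (.S 2 1 (.S 2 0 (.L 5 8 [4, 4, 4, 5] [138, 128, 116, 104, 92, 80] [] 100000
    33334 33334 1300000 0 0 0 100000 0 0 0) (.S 3 11 (.S 3 5 (.S 3 2 (.L 5 8 [4, 4, 4, 5] [138,
    128, 116, 104, 92, 80] [] 100000 33334 33334 1350000 25000 0 50000 25000 0 0 0) (.S 3 4 (.S 3 3
    (.L 5 8 [4, 4, 4, 5] [138, 128, 116, 104, 92, 80] [42, 34, 24, 12, 0, 0] 100000 33333 33333
    1366668 33333 0 33333 33333 0 33333 16667) (.L 6 9 [4, 4, 4, 4] [138, 128, 116, 104, 92, 80]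
    [58, 50, 42, 32, 20, 0] 100000 48000 48000 1304000 52000 0 52000 36000 0 48000 16000)) (.E 1)))
    (.E 1)) (.E 1))) (.L 6 9 [4, 4, 4, 4] [138, 128, 116, 104, 92, 80] [] 100000 31250 31250
    1368750 37500 0 56250 43750 0 6250 6250)) (.S 2 1 (.S 2 0 (.L 6 9 [4, 4, 4, 4] [168, 160, 150,
    138, 126, 114] [] 100000 33334 33334 1275000 25000 0 100000 75000 0 0 0) (.L 6 9 [4, 4, 4, 4]
    [168, 160, 150, 138, 126, 114] [] 100000 25001 25001 1423438 36875 2396 76979 29062 1979 28854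
    21042)) (.L 6 9 [4, 4, 4, 4] [168, 160, 150, 138, 126, 114] [] 100000 25628 25628 1422116 39698
    0 69849 20101 1508 30151 20101))) (.S 1 7 (.L 6 9 [4, 4, 4, 4] [193, 192, 184, 174, 162, 150]
    [] 100000 27594 27594 1407776 35556 0 85556 51667 1389 14444 16111) (.L 6 9 [4, 4, 4, 4] [220,
    219, 218, 210, 200, 188] [] 100000 27778 27778 1400003 33333 0 100000 33333 0 16667 16667)))

lemma s22_23_9_3_21 {n : ℕ} (hn : 7 ≤ n) : NoNd (d22_23_9_3.R : ℤ) d22_23_9_3.H n d22_23_9_3.a d22_23_9_3.b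
    (BlkD.inB (BlkD.upd (BlkD.upd (fun _ => 0) 0 5) 0 6)
      (BlkD.upd (BlkD.upd (BlkD.upd (BlkD.upd (BlkD.upd (BlkD.upd (fun _ => 23) 0 9) 2 3) 0 7) 0 6) 1 17) 1 8)) :=
  BlkD.tree_sound (BlkD.pairOk_sound k22_23_9_3) (by decide) hn t22_23_9_3_21 _ _ (by decide +kernel)

/-- certificates of the pair `(9, 3)`, part 22 -/
def t22_23_9_3_22 : BlkD.Tr :=
  .S 1 13 (.S 1 11 (.S 1 10 (.S 1 9 (.L 6 9 [4, 4, 4, 4] [249, 248, 247, 246, 238, 228] [] 100000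
    36365 36365 1318181 45455 0 100000 54545 0 9091 18182) (.L 6 9 [4, 4, 4, 4] [280, 279, 278,
    277, 276, 268] [] 100000 52941 41176 1182353 70588 0 111765 29412 0 0 5882)) (.L 6 9 [4, 4, 4,
    4] [313, 312, 311, 310, 309, 308] [] 100000 81482 25926 877776 100000 0 155556 0 0 0 11111))
    (.E 0)) (.E 0)

lemma s22_23_9_3_22 {n : ℕ} (hn : 7 ≤ n) : NoNd (d22_23_9_3.R : ℤ) d22_23_9_3.H n d22_23_9_3.a d22_23_9_3.b
    (BlkD.inB (BlkD.upd (BlkD.upd (BlkD.upd (fun _ => 0) 0 5) 0 6) 1 9)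
      (BlkD.upd (BlkD.upd (BlkD.upd (BlkD.upd (BlkD.upd (fun _ => 23) 0 9) 2 3) 0 7) 0 6) 1 17)) :=
  BlkD.tree_sound (BlkD.pairOk_sound k22_23_9_3) (by decide) hn t22_23_9_3_22 _ _ (by decide +kernel)

/-- certificates of the pair `(9, 3)`, part 23 -/
def t22_23_9_3_23 : BlkD.Tr :=
  .E 0

lemma s22_23_9_3_23 {n : ℕ} (hn : 7 ≤ n) : NoNd (d22_23_9_3.R : ℤ) d22_23_9_3.H n d22_23_9_3.a d22_23_9_3.b
    (BlkD.inB (BlkD.upd (BlkD.upd (BlkD.upd (fun _ => 0) 0 5) 0 6) 1 18)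
      (BlkD.upd (BlkD.upd (BlkD.upd (BlkD.upd (fun _ => 23) 0 9) 2 3) 0 7) 0 6)) :=
  BlkD.tree_sound (BlkD.pairOk_sound k22_23_9_3) (by decide) hn t22_23_9_3_23 _ _ (by decide +kernel)

/-- certificates of the pair `(9, 3)`, part 24 -/
def t22_23_9_3_24 : BlkD.Tr :=
  .S 1 16 (.S 1 8 (.S 1 4 (.S 1 2 (.L 6 9 [4, 4, 4, 4] [] [] 100000 33334 33334 1300000 40000 0
    40000 20000 0 0 0) (.S 1 3 (.L 6 9 [4, 4, 4, 4] [84, 72, 60, 48, 0, 0] [] 100000 25000 25000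
    1350000 50000 0 50000 25000 0 25000 25000) (.S 2 1 (.S 2 0 (.L 6 9 [4, 4, 4, 4] [116, 104, 92,
    80, 68, 0] [] 100000 33334 33334 1300000 0 0 0 100000 0 0 0) (.S 3 11 (.S 3 5 (.S 3 2 (.L 6 9
    [4, 4, 4, 4] [116, 104, 92, 80, 68, 0] [] 100000 27274 27274 1381819 36364 18182 54545 18182 0
    18182 18182) (.S 3 4 (.S 3 3 (.L 6 9 [4, 4, 4, 4] [116, 104, 92, 80, 68, 0] [42, 34, 24, 12, 0,
    0] 100000 22223 22223 1400001 33333 0 50000 33333 0 33333 33333) (.S 4 4 (.S 4 2 (.L 6 9 [4, 4,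
    4, 4] [92, 80, 68, 0, 0, 0] [58, 50, 42, 32, 20, 0] 100000 40910 40910 1318181 59091 0 59091
    45455 0 13636 13636) (.L 6 9 [4, 4, 4, 4] [116, 104, 92, 80, 68, 0] [58, 50, 42, 32, 20, 0]
    100000 50000 0 1000000 50000 0 150000 100000 0 0 0)) (.E 2))) (.E 1))) (.E 1)) (.E 1))) (.S 2 2
    (.S 3 10 (.S 3 5 (.S 3 2 (.L 6 9 [4, 4, 4, 4] [116, 104, 92, 80, 68, 0] [] 100000 22223 22223
    1400001 33333 0 50000 0 0 33333 33333) (.S 3 4 (.S 3 3 (.S 4 4 (.S 4 2 (.L 6 9 [4, 4, 4, 4]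
    [92, 80, 68, 0, 0, 0] [48, 40, 30, 18, 0, 0] 100000 40910 40910 1318181 59091 0 59091 45455 0
    13636 13636) (.L 6 9 [4, 4, 4, 4] [116, 104, 92, 80, 68, 0] [48, 40, 30, 18, 0, 0] 100000 50000
    0 1000000 50000 0 150000 100000 0 0 0)) (.E 2)) (.E 1)) (.E 1))) (.E 1)) (.E 1)) (.L 6 9 [4, 4,
    4, 4] [116, 104, 92, 80, 68, 0] [] 100000 33334 33334 1300000 50000 0 50000 0 0 0 0))))) (.S 1
    6 (.S 1 5 (.L 6 9 [4, 4, 4, 4] [148, 138, 126, 114, 102, 90] [] 100000 24167 24167 1423334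
    38333 833 83542 40833 7708 12083 12083) (.L 6 9 [4, 4, 4, 4] [180, 172, 162, 150, 138, 126] []
    100000 28826 28826 1381968 39344 0 89344 40164 1639 10246 10246)) (.S 1 7 (.L 6 9 [4, 4, 4, 4]
    [207, 206, 198, 188, 176, 164] [] 100000 26528 26528 1355748 44254 0 100000 30440 3790 16626
    13936) (.L 6 9 [4, 4, 4, 4] [236, 235, 234, 226, 216, 204] [] 100000 33334 33334 1300000 50000
    0 100000 50000 0 0 0)))) (.L 6 9 [4, 4, 4, 4] [] [] 100000 25641 25641 1384616 7692 0 100000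
    46154 0 23077 23077)) (.E 0)

lemma s22_23_9_3_24 {n : ℕ} (hn : 7 ≤ n) : NoNd (d22_23_9_3.R : ℤ) d22_23_9_3.H n d22_23_9_3.a d22_23_9_3.b
    (BlkD.inB (BlkD.upd (BlkD.upd (fun _ => 0) 0 5) 0 7)
      (BlkD.upd (BlkD.upd (BlkD.upd (fun _ => 23) 0 9) 2 3) 0 7)) :=
  BlkD.tree_sound (BlkD.pairOk_sound k22_23_9_3) (by decide) hn t22_23_9_3_24 _ _ (by decide +kernel)

/-- certificates of the pair `(9, 3)`, part 25 -/
def t22_23_9_3_25 : BlkD.Tr :=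
  .S 0 8 (.S 1 15 (.S 1 7 (.L 6 9 [4, 4, 4, 4] [] [] 100000 14762 14762 1452857 20000 0 87143 30000
    12857 30000 30000) (.E 0)) (.E 0)) (.L 6 9 [4, 4, 4, 4] [] [] 100000 1 1 1409236 4320 0 86445
    28815 54618 31827 20531)

lemma s22_23_9_3_25 {n : ℕ} (hn : 7 ≤ n) : NoNd (d22_23_9_3.R : ℤ) d22_23_9_3.H n d22_23_9_3.a d22_23_9_3.b
    (BlkD.inB (BlkD.upd (BlkD.upd (fun _ => 0) 0 5) 0 8)
      (BlkD.upd (BlkD.upd (fun _ => 23) 0 9) 2 3)) :=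
  BlkD.tree_sound (BlkD.pairOk_sound k22_23_9_3) (by decide) hn t22_23_9_3_25 _ _ (by decide +kernel)

/-- certificates of the pair `(9, 3)`, part 26 -/
def t22_23_9_3_26 : BlkD.Tr :=
  .E 1

lemma s22_23_9_3_26 {n : ℕ} (hn : 7 ≤ n) : NoNd (d22_23_9_3.R : ℤ) d22_23_9_3.H n d22_23_9_3.a d22_23_9_3.b
    (BlkD.inB (BlkD.upd (fun _ => 0) 2 4)
      (BlkD.upd (fun _ => 23) 0 9)) :=
  BlkD.tree_sound (BlkD.pairOk_sound k22_23_9_3) (by decide) hn t22_23_9_3_26 _ _ (by decide +kernel)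

/-- certificates of the pair `(9, 3)`, part 27 -/
def t22_23_9_3_27 : BlkD.Tr :=
  .E 0

lemma s22_23_9_3_27 {n : ℕ} (hn : 7 ≤ n) : NoNd (d22_23_9_3.R : ℤ) d22_23_9_3.H n d22_23_9_3.a d22_23_9_3.b
    (BlkD.inB (BlkD.upd (fun _ => 0) 0 10)
      (fun _ => 23)) :=
  BlkD.tree_sound (BlkD.pairOk_sound k22_23_9_3) (by decide) hn t22_23_9_3_27 _ _ (by decide +kernel)

lemma pr22_23_9_3 {n : ℕ} (hn : 7 ≤ n) : NoPr ((22 : ℕ) : ℤ) ((23 : ℕ) : ℤ) n 9 3 :=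
  BlkD.of_root (R := d22_23_9_3.R) (H := d22_23_9_3.H) (a := d22_23_9_3.a) (b := d22_23_9_3.b) (q := 5) (by decide) hn
    (BlkD.sp 0 9 (BlkD.sp 2 3 (BlkD.sp 0 4 (BlkD.sp 0 2 (BlkD.sp 0 1 (BlkD.sp 0 0 (s22_23_9_3_1 hn)
      (BlkD.sp 1 11 (BlkD.sp 1 5 (s22_23_9_3_2 hn) (s22_23_9_3_3 hn)) (s22_23_9_3_4 hn))) (BlkD.sp
      1 11 (BlkD.sp 1 5 (s22_23_9_3_5 hn) (s22_23_9_3_6 hn)) (s22_23_9_3_7 hn))) (BlkD.sp 0 3
      (BlkD.sp 1 20 (BlkD.sp 1 10 (BlkD.sp 1 5 (s22_23_9_3_8 hn) (s22_23_9_3_9 hn)) (s22_23_9_3_10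
      hn)) (s22_23_9_3_11 hn)) (BlkD.sp 1 19 (BlkD.sp 1 9 (BlkD.sp 1 4 (s22_23_9_3_12 hn)
      (s22_23_9_3_13 hn)) (s22_23_9_3_14 hn)) (s22_23_9_3_15 hn)))) (BlkD.sp 0 7 (BlkD.sp 0 6
      (BlkD.sp 0 5 (BlkD.sp 1 18 (BlkD.sp 1 9 (BlkD.sp 1 4 (s22_23_9_3_16 hn) (BlkD.sp 1 7
      (s22_23_9_3_17 hn) (s22_23_9_3_18 hn))) (s22_23_9_3_19 hn)) (s22_23_9_3_20 hn)) (BlkD.sp 1 17
      (BlkD.sp 1 8 (s22_23_9_3_21 hn) (s22_23_9_3_22 hn)) (s22_23_9_3_23 hn))) (s22_23_9_3_24 hn))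
      (s22_23_9_3_25 hn))) (s22_23_9_3_26 hn)) (s22_23_9_3_27 hn))

end BlkC

end Pool.Agent.Lib.MP_f04ccf_co
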