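import Pool.Agent.Lib.MP_f04ccf_co.M.BlkT

/-!
MP_f04ccf_co, block certificate, data `R = 22`, `H = 23`, part 19 (generated, helper99:
bd10.cpp, gen2.py).
-/

set_option autoImplicit false
set_option maxRecDepth 100000

namespace Pool.Agent.Lib.MP_f04ccf_co

namespace BlkC

/-- the numbers of the pair `(9, 4)`, `R = 22`, `H = 23` -/
def d22_23_9_4 : BlkD.Pd :=
  ⟨22, 23, 5, 9, 4, 7, 2, 3, 0, 4, 10, 0, 2, 2, 8, 0, [0, 10, 20, 28, 28, 28, 28, 28], [0, 8, 16,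
    20, 22, 24, 26, 28], [⟨1, 1, 1, 4, 8, [0, 4], [0, 4]⟩, ⟨1, 1, 1, 4, 14, [0, 8], [0, 6]⟩, ⟨2, 1,
    1, 4, 18, [0, 10, 10], [0, 8]⟩]⟩

lemma k22_23_9_4 : BlkD.pairOk d22_23_9_4 = true := by decide +kernel

/-- certificates of the pair `(9, 4)`, part 1 -/
def t22_23_9_4_1 : BlkD.Tr :=
  .L 6 9 [4, 4, 4, 22, 22] [] [] 100000 83333 83333 1175001 75000 0 83333 37500 0 0 0

lemma s22_23_9_4_1 {n : ℕ} (hn : 7 ≤ n) : NoNd (d22_23_9_4.R : ℤ) d22_23_9_4.H n d22_23_9_4.a d22_23_9_4.b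
    (BlkD.inB (fun _ => 0)
      (BlkD.upd (BlkD.upd (BlkD.upd (BlkD.upd (BlkD.upd (BlkD.upd (fun _ => 23) 0 9) 2 4) 0 4) 0 2) 0 1) 0 0)) :=
  BlkD.tree_sound (BlkD.pairOk_sound k22_23_9_4) (by decide) hn t22_23_9_4_1 _ _ (by decide +kernel)

/-- certificates of the pair `(9, 4)`, part 2 -/
def t22_23_9_4_2 : BlkD.Tr :=
  .S 1 2 (.L 6 9 [4, 4, 4, 22, 22] [] [] 100000 83333 83333 1175001 75000 0 83333 37500 0 0 0) (.L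
    6 9 [4, 4, 4, 22, 22] [] [] 100000 83333 83333 1175001 75000 0 83333 37500 0 0 0)

lemma s22_23_9_4_2 {n : ℕ} (hn : 7 ≤ n) : NoNd (d22_23_9_4.R : ℤ) d22_23_9_4.H n d22_23_9_4.a d22_23_9_4.b
    (BlkD.inB (BlkD.upd (fun _ => 0) 0 1)
      (BlkD.upd (BlkD.upd (BlkD.upd (BlkD.upd (BlkD.upd (BlkD.upd (BlkD.upd (fun _ => 23) 0 9) 2 4) 0 4) 0 2) 0 1) 1 11) 1 5)) :=
  BlkD.tree_sound (BlkD.pairOk_sound k22_23_9_4) (by decide) hn t22_23_9_4_2 _ _ (by decide +kernel)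

/-- certificates of the pair `(9, 4)`, part 3 -/
def t22_23_9_4_3 : BlkD.Tr :=
  .S 1 7 (.L 6 9 [4, 4, 4, 22, 22] [] [] 100000 83333 83333 1175001 75000 0 83333 37500 0 0 0) (.L
    6 9 [4, 4, 4, 22, 22] [130, 130, 130, 126, 118, 108] [] 100000 83333 83333 1175001 75000 0
    83333 37500 0 0 0)

lemma s22_23_9_4_3 {n : ℕ} (hn : 7 ≤ n) : NoNd (d22_23_9_4.R : ℤ) d22_23_9_4.H n d22_23_9_4.a d22_23_9_4.b
    (BlkD.inB (BlkD.upd (BlkD.upd (fun _ => 0) 0 1) 1 6)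
      (BlkD.upd (BlkD.upd (BlkD.upd (BlkD.upd (BlkD.upd (BlkD.upd (BlkD.upd (fun _ => 23) 0 9) 2 4) 0 4) 0 2) 0 1) 1 11) 1 8)) :=
  BlkD.tree_sound (BlkD.pairOk_sound k22_23_9_4) (by decide) hn t22_23_9_4_3 _ _ (by decide +kernel)

/-- certificates of the pair `(9, 4)`, part 4 -/
def t22_23_9_4_4 : BlkD.Tr :=
  .L 6 9 [4, 4, 4, 22, 22] [] [] 100000 83333 83333 1175001 75000 0 83333 37500 0 0 0

lemma s22_23_9_4_4 {n : ℕ} (hn : 7 ≤ n) : NoNd (d22_23_9_4.R : ℤ) d22_23_9_4.H n d22_23_9_4.a d22_23_9_4.b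
    (BlkD.inB (BlkD.upd (BlkD.upd (BlkD.upd (fun _ => 0) 0 1) 1 6) 1 9)
      (BlkD.upd (BlkD.upd (BlkD.upd (BlkD.upd (BlkD.upd (BlkD.upd (fun _ => 23) 0 9) 2 4) 0 4) 0 2) 0 1) 1 11)) :=
  BlkD.tree_sound (BlkD.pairOk_sound k22_23_9_4) (by decide) hn t22_23_9_4_4 _ _ (by decide +kernel)

/-- certificates of the pair `(9, 4)`, part 5 -/
def t22_23_9_4_5 : BlkD.Tr :=
  .L 6 9 [4, 4, 4, 22, 22] [] [] 100000 83333 83333 1175001 75000 0 83333 37500 0 0 0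

lemma s22_23_9_4_5 {n : ℕ} (hn : 7 ≤ n) : NoNd (d22_23_9_4.R : ℤ) d22_23_9_4.H n d22_23_9_4.a d22_23_9_4.b
    (BlkD.inB (BlkD.upd (BlkD.upd (fun _ => 0) 0 1) 1 12)
      (BlkD.upd (BlkD.upd (BlkD.upd (BlkD.upd (BlkD.upd (fun _ => 23) 0 9) 2 4) 0 4) 0 2) 0 1)) :=
  BlkD.tree_sound (BlkD.pairOk_sound k22_23_9_4) (by decide) hn t22_23_9_4_5 _ _ (by decide +kernel)

/-- certificates of the pair `(9, 4)`, part 6 -/
def t22_23_9_4_6 : BlkD.Tr :=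
  .S 1 2 (.L 6 9 [4, 4, 4, 22, 22] [] [] 100000 83333 83333 1175001 75000 0 83333 37500 0 0 0) (.L
    6 9 [4, 4, 4, 22, 22] [] [] 100000 83333 83333 1175001 75000 0 83333 37500 0 0 0)

lemma s22_23_9_4_6 {n : ℕ} (hn : 7 ≤ n) : NoNd (d22_23_9_4.R : ℤ) d22_23_9_4.H n d22_23_9_4.a d22_23_9_4.b
    (BlkD.inB (BlkD.upd (fun _ => 0) 0 2)
      (BlkD.upd (BlkD.upd (BlkD.upd (BlkD.upd (BlkD.upd (BlkD.upd (fun _ => 23) 0 9) 2 4) 0 4) 0 2) 1 11) 1 5)) :=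
  BlkD.tree_sound (BlkD.pairOk_sound k22_23_9_4) (by decide) hn t22_23_9_4_6 _ _ (by decide +kernel)

/-- certificates of the pair `(9, 4)`, part 7 -/
def t22_23_9_4_7 : BlkD.Tr :=
  .S 1 7 (.L 6 9 [4, 4, 4, 22, 22] [] [] 100000 83333 83333 1175001 75000 0 83333 37500 0 0 0) (.L
    6 9 [4, 4, 4, 22, 22] [146, 146, 146, 142, 134, 124] [] 100000 83333 83333 1175001 75000 0
    83333 37500 0 0 0)

lemma s22_23_9_4_7 {n : ℕ} (hn : 7 ≤ n) : NoNd (d22_23_9_4.R : ℤ) d22_23_9_4.H n d22_23_9_4.a d22_23_9_4.b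
    (BlkD.inB (BlkD.upd (BlkD.upd (fun _ => 0) 0 2) 1 6)
      (BlkD.upd (BlkD.upd (BlkD.upd (BlkD.upd (BlkD.upd (BlkD.upd (fun _ => 23) 0 9) 2 4) 0 4) 0 2) 1 11) 1 8)) :=
  BlkD.tree_sound (BlkD.pairOk_sound k22_23_9_4) (by decide) hn t22_23_9_4_7 _ _ (by decide +kernel)

/-- certificates of the pair `(9, 4)`, part 8 -/
def t22_23_9_4_8 : BlkD.Tr :=
  .S 1 10 (.L 6 9 [4, 4, 4, 22, 22] [] [] 100000 83333 83333 1175001 75000 0 83333 37500 0 0 0) (.L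
    6 9 [4, 4, 4, 22, 22] [212, 212, 212, 212, 212, 212] [] 100000 83333 83333 1175001 75000 0
    83333 37500 0 0 0)

lemma s22_23_9_4_8 {n : ℕ} (hn : 7 ≤ n) : NoNd (d22_23_9_4.R : ℤ) d22_23_9_4.H n d22_23_9_4.a d22_23_9_4.b
    (BlkD.inB (BlkD.upd (BlkD.upd (BlkD.upd (fun _ => 0) 0 2) 1 6) 1 9)
      (BlkD.upd (BlkD.upd (BlkD.upd (BlkD.upd (BlkD.upd (fun _ => 23) 0 9) 2 4) 0 4) 0 2) 1 11)) :=
  BlkD.tree_sound (BlkD.pairOk_sound k22_23_9_4) (by decide) hn t22_23_9_4_8 _ _ (by decide +kernel)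

/-- certificates of the pair `(9, 4)`, part 9 -/
def t22_23_9_4_9 : BlkD.Tr :=
  .S 1 17 (.S 1 14 (.S 1 13 (.L 6 9 [4, 4, 4, 22, 22] [] [] 100000 83333 83333 1175001 75000 0
    83333 37500 0 0 0) (.L 6 9 [4, 4, 4, 22, 22] [296, 296, 296, 296, 296, 296] [] 100000 83333
    83333 1175001 75000 0 83333 37500 0 0 0)) (.L 6 9 [4, 4, 4, 22, 22] [] [] 100000 83333 83333
    1175001 75000 0 83333 37500 0 0 0)) (.L 6 9 [4, 4, 4, 22, 22] [] [] 100000 83333 83333 1175001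
    75000 0 83333 37500 0 0 0)

lemma s22_23_9_4_9 {n : ℕ} (hn : 7 ≤ n) : NoNd (d22_23_9_4.R : ℤ) d22_23_9_4.H n d22_23_9_4.a d22_23_9_4.b
    (BlkD.inB (BlkD.upd (BlkD.upd (fun _ => 0) 0 2) 1 12)
      (BlkD.upd (BlkD.upd (BlkD.upd (BlkD.upd (fun _ => 23) 0 9) 2 4) 0 4) 0 2)) :=
  BlkD.tree_sound (BlkD.pairOk_sound k22_23_9_4) (by decide) hn t22_23_9_4_9 _ _ (by decide +kernel)

/-- certificates of the pair `(9, 4)`, part 10 -/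
def t22_23_9_4_10 : BlkD.Tr :=
  .S 1 2 (.L 6 9 [4, 4, 4, 22, 22] [] [] 100000 133334 133334 1316667 66667 0 83333 33333 0 0 0)
    (.L 6 9 [4, 4, 4, 22, 22] [] [] 100000 133334 133334 1316667 66667 0 83333 33333 0 0 0)

lemma s22_23_9_4_10 {n : ℕ} (hn : 7 ≤ n) : NoNd (d22_23_9_4.R : ℤ) d22_23_9_4.H n d22_23_9_4.a d22_23_9_4.b
    (BlkD.inB (BlkD.upd (fun _ => 0) 0 3)
      (BlkD.upd (BlkD.upd (BlkD.upd (BlkD.upd (BlkD.upd (BlkD.upd (fun _ => 23) 0 9) 2 4) 0 4) 0 3) 1 11) 1 5)) :=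
  BlkD.tree_sound (BlkD.pairOk_sound k22_23_9_4) (by decide) hn t22_23_9_4_10 _ _ (by decide +kernel)

/-- certificates of the pair `(9, 4)`, part 11 -/
def t22_23_9_4_11 : BlkD.Tr :=
  .S 1 7 (.L 6 9 [4, 4, 4, 22, 22] [] [] 100000 133334 133334 1316667 66667 0 83333 33333 0 0 0)
    (.L 6 9 [4, 4, 4, 22, 22] [162, 162, 162, 158, 150, 140] [] 100000 133334 133334 1316667 66667
    0 83333 33333 0 0 0)

lemma s22_23_9_4_11 {n : ℕ} (hn : 7 ≤ n) : NoNd (d22_23_9_4.R : ℤ) d22_23_9_4.H n d22_23_9_4.a d22_23_9_4.b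
    (BlkD.inB (BlkD.upd (BlkD.upd (fun _ => 0) 0 3) 1 6)
      (BlkD.upd (BlkD.upd (BlkD.upd (BlkD.upd (BlkD.upd (BlkD.upd (fun _ => 23) 0 9) 2 4) 0 4) 0 3) 1 11) 1 8)) :=
  BlkD.tree_sound (BlkD.pairOk_sound k22_23_9_4) (by decide) hn t22_23_9_4_11 _ _ (by decide +kernel)

/-- certificates of the pair `(9, 4)`, part 12 -/
def t22_23_9_4_12 : BlkD.Tr :=
  .S 1 10 (.L 6 9 [4, 4, 4, 22, 22] [] [] 100000 133334 133334 1316667 66667 0 83333 33333 0 0 0)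
    (.L 6 9 [4, 4, 4, 22, 22] [234, 234, 234, 234, 234, 234] [] 100000 133334 133334 1316667 66667
    0 83333 33333 0 0 0)

lemma s22_23_9_4_12 {n : ℕ} (hn : 7 ≤ n) : NoNd (d22_23_9_4.R : ℤ) d22_23_9_4.H n d22_23_9_4.a d22_23_9_4.b
    (BlkD.inB (BlkD.upd (BlkD.upd (BlkD.upd (fun _ => 0) 0 3) 1 6) 1 9)
      (BlkD.upd (BlkD.upd (BlkD.upd (BlkD.upd (BlkD.upd (fun _ => 23) 0 9) 2 4) 0 4) 0 3) 1 11)) :=
  BlkD.tree_sound (BlkD.pairOk_sound k22_23_9_4) (by decide) hn t22_23_9_4_12 _ _ (by decide +kernel)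

/-- certificates of the pair `(9, 4)`, part 13 -/
def t22_23_9_4_13 : BlkD.Tr :=
  .S 1 17 (.S 1 14 (.L 6 9 [4, 4, 4, 22, 22] [] [] 100000 133334 133334 1316667 66667 0 83333 33333
    0 0 0) (.L 6 9 [4, 4, 4, 22, 22] [] [] 100000 133334 133334 1316667 66667 0 83333 33333 0 0 0))
    (.L 6 9 [4, 4, 4, 22, 22] [] [] 100000 133334 133334 1316667 66667 0 83333 33333 0 0 0)

lemma s22_23_9_4_13 {n : ℕ} (hn : 7 ≤ n) : NoNd (d22_23_9_4.R : ℤ) d22_23_9_4.H n d22_23_9_4.a d22_23_9_4.b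
    (BlkD.inB (BlkD.upd (BlkD.upd (fun _ => 0) 0 3) 1 12)
      (BlkD.upd (BlkD.upd (BlkD.upd (BlkD.upd (fun _ => 23) 0 9) 2 4) 0 4) 0 3)) :=
  BlkD.tree_sound (BlkD.pairOk_sound k22_23_9_4) (by decide) hn t22_23_9_4_13 _ _ (by decide +kernel)

/-- certificates of the pair `(9, 4)`, part 14 -/
def t22_23_9_4_14 : BlkD.Tr :=
  .L 6 9 [4, 4, 4, 22, 22] [] [] 100000 7143 7143 1357143 14286 0 14286 42857 0 0 0

lemma s22_23_9_4_14 {n : ℕ} (hn : 7 ≤ n) : NoNd (d22_23_9_4.R : ℤ) d22_23_9_4.H n d22_23_9_4.a d22_23_9_4.b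
    (BlkD.inB (BlkD.upd (BlkD.upd (fun _ => 0) 0 3) 0 4)
      (BlkD.upd (BlkD.upd (BlkD.upd (BlkD.upd (BlkD.upd (BlkD.upd (fun _ => 23) 0 9) 2 4) 0 4) 1 19) 1 9) 1 4)) :=
  BlkD.tree_sound (BlkD.pairOk_sound k22_23_9_4) (by decide) hn t22_23_9_4_14 _ _ (by decide +kernel)

/-- certificates of the pair `(9, 4)`, part 15 -/
def t22_23_9_4_15 : BlkD.Tr :=
  .L 6 9 [4, 4, 4, 22, 22] [] [] 100000 2439 2439 1488621 36585 813 54472 27642 0 17886 13821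

lemma s22_23_9_4_15 {n : ℕ} (hn : 7 ≤ n) : NoNd (d22_23_9_4.R : ℤ) d22_23_9_4.H n d22_23_9_4.a d22_23_9_4.b
    (BlkD.inB (BlkD.upd (BlkD.upd (BlkD.upd (fun _ => 0) 0 3) 0 4) 1 5)
      (BlkD.upd (BlkD.upd (BlkD.upd (BlkD.upd (BlkD.upd (BlkD.upd (fun _ => 23) 0 9) 2 4) 0 4) 1 19) 1 9) 1 7)) :=
  BlkD.tree_sound (BlkD.pairOk_sound k22_23_9_4) (by decide) hn t22_23_9_4_15 _ _ (by decide +kernel)

/-- certificates of the pair `(9, 4)`, part 16 -/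
def t22_23_9_4_16 : BlkD.Tr :=
  .S 1 8 (.L 6 9 [4, 4, 4, 22, 22] [178, 178, 178, 174, 166, 156] [] 100000 0 0 1533337 33333 0
    50000 50000 0 21429 11905) (.L 6 9 [4, 4, 4, 22, 22] [202, 202, 202, 202, 198, 190] [] 100000
    37500 37500 1450000 50000 0 75000 50000 0 0 0)

lemma s22_23_9_4_16 {n : ℕ} (hn : 7 ≤ n) : NoNd (d22_23_9_4.R : ℤ) d22_23_9_4.H n d22_23_9_4.a d22_23_9_4.b
    (BlkD.inB (BlkD.upd (BlkD.upd (BlkD.upd (BlkD.upd (fun _ => 0) 0 3) 0 4) 1 5) 1 8)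
      (BlkD.upd (BlkD.upd (BlkD.upd (BlkD.upd (BlkD.upd (fun _ => 23) 0 9) 2 4) 0 4) 1 19) 1 9)) :=
  BlkD.tree_sound (BlkD.pairOk_sound k22_23_9_4) (by decide) hn t22_23_9_4_16 _ _ (by decide +kernel)

/-- certificates of the pair `(9, 4)`, part 17 -/
def t22_23_9_4_17 : BlkD.Tr :=
  .S 1 14 (.S 1 12 (.S 1 11 (.S 1 10 (.L 6 9 [4, 4, 4, 22, 22] [228, 228, 228, 228, 228, 224] []
    100000 33333 33333 1466668 50000 0 83333 33333 0 0 0) (.L 6 9 [4, 4, 4, 22, 22] [256, 256, 256,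
    256, 256, 256] [] 100000 91666 66666 1191669 83333 0 125000 50000 0 0 0)) (.L 6 9 [4, 4, 4, 22,
    22] [286, 286, 286, 286, 286, 286] [] 100000 116667 83334 1033335 100000 0 133333 33333 0 0 0))
    (.S 1 13 (.L 6 9 [4, 4, 4, 22, 22] [318, 318, 318, 318, 318, 318] [] 100000 280000 100000 40000
    220000 0 280000 0 0 0 0) (.L 6 9 [4, 4, 4, 22, 22] [352, 352, 352, 352, 352, 352] [] 100000
    241026 97436 0 194872 0 243590 0 0 0 0))) (.E 0)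

lemma s22_23_9_4_17 {n : ℕ} (hn : 7 ≤ n) : NoNd (d22_23_9_4.R : ℤ) d22_23_9_4.H n d22_23_9_4.a d22_23_9_4.b
    (BlkD.inB (BlkD.upd (BlkD.upd (BlkD.upd (fun _ => 0) 0 3) 0 4) 1 10)
      (BlkD.upd (BlkD.upd (BlkD.upd (BlkD.upd (fun _ => 23) 0 9) 2 4) 0 4) 1 19)) :=
  BlkD.tree_sound (BlkD.pairOk_sound k22_23_9_4) (by decide) hn t22_23_9_4_17 _ _ (by decide +kernel)

/-- certificates of the pair `(9, 4)`, part 18 -/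
def t22_23_9_4_18 : BlkD.Tr :=
  .E 0

lemma s22_23_9_4_18 {n : ℕ} (hn : 7 ≤ n) : NoNd (d22_23_9_4.R : ℤ) d22_23_9_4.H n d22_23_9_4.a d22_23_9_4.b
    (BlkD.inB (BlkD.upd (BlkD.upd (BlkD.upd (fun _ => 0) 0 3) 0 4) 1 20)
      (BlkD.upd (BlkD.upd (BlkD.upd (fun _ => 23) 0 9) 2 4) 0 4)) :=
  BlkD.tree_sound (BlkD.pairOk_sound k22_23_9_4) (by decide) hn t22_23_9_4_18 _ _ (by decide +kernel)

/-- certificates of the pair `(9, 4)`, part 19 -/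
def t22_23_9_4_19 : BlkD.Tr :=
  .L 6 9 [4, 4, 4, 22, 22] [] [] 100000 10000 10000 1440000 20000 0 20000 40000 0 0 0

lemma s22_23_9_4_19 {n : ℕ} (hn : 7 ≤ n) : NoNd (d22_23_9_4.R : ℤ) d22_23_9_4.H n d22_23_9_4.a d22_23_9_4.b
    (BlkD.inB (BlkD.upd (fun _ => 0) 0 5)
      (BlkD.upd (BlkD.upd (BlkD.upd (BlkD.upd (BlkD.upd (BlkD.upd (BlkD.upd (BlkD.upd (fun _ => 23) 0 9) 2 4) 0 7) 0 6) 0 5) 1 18) 1 9) 1 4)) :=
  BlkD.tree_sound (BlkD.pairOk_sound k22_23_9_4) (by decide) hn t22_23_9_4_19 _ _ (by decide +kernel)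

/-- certificates of the pair `(9, 4)`, part 20 -/
def t22_23_9_4_20 : BlkD.Tr :=
  .S 1 7 (.L 6 9 [4, 4, 4, 22, 22] [] [] 100000 5556 5556 1566670 33333 0 44444 44444 0 20370 1852)
    (.S 1 8 (.L 6 9 [4, 4, 4, 22, 22] [194, 194, 194, 190, 182, 172] [] 100000 11905 11905 1547622
    38095 0 85714 33333 0 0 14286) (.L 6 9 [4, 4, 4, 22, 22] [220, 220, 220, 220, 216, 208] []
    100000 10418 10418 1549999 41667 0 79167 33333 0 16071 4762))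

lemma s22_23_9_4_20 {n : ℕ} (hn : 7 ≤ n) : NoNd (d22_23_9_4.R : ℤ) d22_23_9_4.H n d22_23_9_4.a d22_23_9_4.b
    (BlkD.inB (BlkD.upd (BlkD.upd (fun _ => 0) 0 5) 1 5)
      (BlkD.upd (BlkD.upd (BlkD.upd (BlkD.upd (BlkD.upd (BlkD.upd (BlkD.upd (fun _ => 23) 0 9) 2 4) 0 7) 0 6) 0 5) 1 18) 1 9)) :=
  BlkD.tree_sound (BlkD.pairOk_sound k22_23_9_4) (by decide) hn t22_23_9_4_20 _ _ (by decide +kernel)

/-- certificates of the pair `(9, 4)`, part 21 -/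
def t22_23_9_4_21 : BlkD.Tr :=
  .S 1 14 (.S 1 12 (.S 1 11 (.S 1 10 (.L 6 9 [4, 4, 4, 22, 22] [248, 248, 248, 248, 248, 244] []
    100000 68750 56250 1300000 75000 0 112500 37500 0 0 0) (.L 6 9 [4, 4, 4, 22, 22] [278, 278,
    278, 278, 278, 278] [] 100000 83334 27778 1055554 88889 0 155556 66667 0 0 0)) (.L 6 9 [4, 4,
    4, 22, 22] [310, 310, 310, 310, 310, 310] [] 100000 177779 55557 533333 166667 0 222222 0 0 0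
    0)) (.E 0)) (.E 0)

lemma s22_23_9_4_21 {n : ℕ} (hn : 7 ≤ n) : NoNd (d22_23_9_4.R : ℤ) d22_23_9_4.H n d22_23_9_4.a d22_23_9_4.b
    (BlkD.inB (BlkD.upd (BlkD.upd (fun _ => 0) 0 5) 1 10)
      (BlkD.upd (BlkD.upd (BlkD.upd (BlkD.upd (BlkD.upd (BlkD.upd (fun _ => 23) 0 9) 2 4) 0 7) 0 6) 0 5) 1 18)) :=
  BlkD.tree_sound (BlkD.pairOk_sound k22_23_9_4) (by decide) hn t22_23_9_4_21 _ _ (by decide +kernel)

/-- certificates of the pair `(9, 4)`, part 22 -/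
def t22_23_9_4_22 : BlkD.Tr :=
  .E 0

lemma s22_23_9_4_22 {n : ℕ} (hn : 7 ≤ n) : NoNd (d22_23_9_4.R : ℤ) d22_23_9_4.H n d22_23_9_4.a d22_23_9_4.b
    (BlkD.inB (BlkD.upd (BlkD.upd (fun _ => 0) 0 5) 1 19)
      (BlkD.upd (BlkD.upd (BlkD.upd (BlkD.upd (BlkD.upd (fun _ => 23) 0 9) 2 4) 0 7) 0 6) 0 5)) :=
  BlkD.tree_sound (BlkD.pairOk_sound k22_23_9_4) (by decide) hn t22_23_9_4_22 _ _ (by decide +kernel)

/-- certificates of the pair `(9, 4)`, part 23 -/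
def t22_23_9_4_23 : BlkD.Tr :=
  .L 6 9 [4, 4, 4, 22, 22] [] [] 100000 0 0 1500002 33333 0 33333 33333 0 22222 11111

lemma s22_23_9_4_23 {n : ℕ} (hn : 7 ≤ n) : NoNd (d22_23_9_4.R : ℤ) d22_23_9_4.H n d22_23_9_4.a d22_23_9_4.b
    (BlkD.inB (BlkD.upd (BlkD.upd (fun _ => 0) 0 5) 0 6)
      (BlkD.upd (BlkD.upd (BlkD.upd (BlkD.upd (BlkD.upd (BlkD.upd (BlkD.upd (fun _ => 23) 0 9) 2 4) 0 7) 0 6) 1 17) 1 8) 1 4)) :=
  BlkD.tree_sound (BlkD.pairOk_sound k22_23_9_4) (by decide) hn t22_23_9_4_23 _ _ (by decide +kernel)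

/-- certificates of the pair `(9, 4)`, part 24 -/
def t22_23_9_4_24 : BlkD.Tr :=
  .S 1 6 (.S 1 5 (.L 6 9 [4, 4, 4, 22, 22] [134, 126, 116, 106, 94, 80] [] 100000 0 0 1533336 33333
    0 66667 33333 0 16667 16667) (.L 6 9 [4, 4, 4, 22, 22] [160, 156, 148, 138, 128, 116] [] 100000
    6250 6250 1575000 37500 0 62500 25000 0 12500 12500)) (.S 1 7 (.L 6 9 [4, 4, 4, 22, 22] [184,
    184, 180, 172, 162, 152] [] 100000 6251 6251 1550001 41667 0 70833 33333 0 0 29167) (.L 6 9 [4,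
    4, 4, 22, 22] [210, 210, 210, 206, 198, 188] [] 100000 33335 33335 1477777 55556 0 100000 33333
    0 11111 11111))

lemma s22_23_9_4_24 {n : ℕ} (hn : 7 ≤ n) : NoNd (d22_23_9_4.R : ℤ) d22_23_9_4.H n d22_23_9_4.a d22_23_9_4.b
    (BlkD.inB (BlkD.upd (BlkD.upd (BlkD.upd (fun _ => 0) 0 5) 0 6) 1 5)
      (BlkD.upd (BlkD.upd (BlkD.upd (BlkD.upd (BlkD.upd (BlkD.upd (fun _ => 23) 0 9) 2 4) 0 7) 0 6) 1 17) 1 8)) :=
  BlkD.tree_sound (BlkD.pairOk_sound k22_23_9_4) (by decide) hn t22_23_9_4_24 _ _ (by decide +kernel)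

/-- certificates of the pair `(9, 4)`, part 25 -/
def t22_23_9_4_25 : BlkD.Tr :=
  .S 1 13 (.S 1 11 (.S 1 10 (.S 1 9 (.L 6 9 [4, 4, 4, 22, 22] [238, 238, 238, 238, 234, 226] []
    100000 25000 25000 1450000 50000 0 100000 25000 0 0 0) (.L 6 9 [4, 4, 4, 22, 22] [268, 268,
    268, 268, 268, 264] [] 100000 83334 16667 999999 100000 0 166667 50000 0 0 0)) (.E 0)) (.E 0))
    (.E 0)

lemma s22_23_9_4_25 {n : ℕ} (hn : 7 ≤ n) : NoNd (d22_23_9_4.R : ℤ) d22_23_9_4.H n d22_23_9_4.a d22_23_9_4.b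
    (BlkD.inB (BlkD.upd (BlkD.upd (BlkD.upd (fun _ => 0) 0 5) 0 6) 1 9)
      (BlkD.upd (BlkD.upd (BlkD.upd (BlkD.upd (BlkD.upd (fun _ => 23) 0 9) 2 4) 0 7) 0 6) 1 17)) :=
  BlkD.tree_sound (BlkD.pairOk_sound k22_23_9_4) (by decide) hn t22_23_9_4_25 _ _ (by decide +kernel)

/-- certificates of the pair `(9, 4)`, part 26 -/
def t22_23_9_4_26 : BlkD.Tr :=
  .E 0

lemma s22_23_9_4_26 {n : ℕ} (hn : 7 ≤ n) : NoNd (d22_23_9_4.R : ℤ) d22_23_9_4.H n d22_23_9_4.a d22_23_9_4.b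
    (BlkD.inB (BlkD.upd (BlkD.upd (BlkD.upd (fun _ => 0) 0 5) 0 6) 1 18)
      (BlkD.upd (BlkD.upd (BlkD.upd (BlkD.upd (fun _ => 23) 0 9) 2 4) 0 7) 0 6)) :=
  BlkD.tree_sound (BlkD.pairOk_sound k22_23_9_4) (by decide) hn t22_23_9_4_26 _ _ (by decide +kernel)

/-- certificates of the pair `(9, 4)`, part 27 -/
def t22_23_9_4_27 : BlkD.Tr :=
  .S 1 16 (.S 1 8 (.S 1 4 (.L 6 9 [4, 4, 4, 22, 22] [] [] 100000 0 0 1540000 40000 0 60000 40000 0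
    20000 20000) (.S 1 6 (.S 1 5 (.L 6 9 [4, 4, 4, 22, 22] [144, 136, 126, 116, 104, 90] [] 100000
    2 2 1562163 38739 3604 72072 33333 2703 8108 27928) (.L 6 9 [4, 4, 4, 22, 22] [172, 168, 160,
    150, 140, 128] [] 100000 16496 16496 1511344 46392 1031 94845 42784 5155 3093 5155)) (.L 6 9
    [4, 4, 4, 22, 22] [] [] 100000 8335 8335 1549999 16667 0 100000 83333 0 0 0))) (.E 0)) (.E 0)

lemma s22_23_9_4_27 {n : ℕ} (hn : 7 ≤ n) : NoNd (d22_23_9_4.R : ℤ) d22_23_9_4.H n d22_23_9_4.a d22_23_9_4.b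
    (BlkD.inB (BlkD.upd (BlkD.upd (fun _ => 0) 0 5) 0 7)
      (BlkD.upd (BlkD.upd (BlkD.upd (fun _ => 23) 0 9) 2 4) 0 7)) :=
  BlkD.tree_sound (BlkD.pairOk_sound k22_23_9_4) (by decide) hn t22_23_9_4_27 _ _ (by decide +kernel)

/-- certificates of the pair `(9, 4)`, part 28 -/
def t22_23_9_4_28 : BlkD.Tr :=
  .L 6 9 [4, 4, 4, 22, 22] [] [] 100000 0 0 1589475 5263 2632 97368 47368 0 2632 2632

lemma s22_23_9_4_28 {n : ℕ} (hn : 7 ≤ n) : NoNd (d22_23_9_4.R : ℤ) d22_23_9_4.H n d22_23_9_4.a d22_23_9_4.b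
    (BlkD.inB (BlkD.upd (BlkD.upd (fun _ => 0) 0 5) 0 8)
      (BlkD.upd (BlkD.upd (fun _ => 23) 0 9) 2 4)) :=
  BlkD.tree_sound (BlkD.pairOk_sound k22_23_9_4) (by decide) hn t22_23_9_4_28 _ _ (by decide +kernel)

/-- certificates of the pair `(9, 4)`, part 29 -/
def t22_23_9_4_29 : BlkD.Tr :=
  .E 1

lemma s22_23_9_4_29 {n : ℕ} (hn : 7 ≤ n) : NoNd (d22_23_9_4.R : ℤ) d22_23_9_4.H n d22_23_9_4.a d22_23_9_4.b
    (BlkD.inB (BlkD.upd (fun _ => 0) 2 5)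
      (BlkD.upd (fun _ => 23) 0 9)) :=
  BlkD.tree_sound (BlkD.pairOk_sound k22_23_9_4) (by decide) hn t22_23_9_4_29 _ _ (by decide +kernel)

/-- certificates of the pair `(9, 4)`, part 30 -/
def t22_23_9_4_30 : BlkD.Tr :=
  .E 0

lemma s22_23_9_4_30 {n : ℕ} (hn : 7 ≤ n) : NoNd (d22_23_9_4.R : ℤ) d22_23_9_4.H n d22_23_9_4.a d22_23_9_4.b
    (BlkD.inB (BlkD.upd (fun _ => 0) 0 10)
      (fun _ => 23)) :=
  BlkD.tree_sound (BlkD.pairOk_sound k22_23_9_4) (by decide) hn t22_23_9_4_30 _ _ (by decide +kernel)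

lemma pr22_23_9_4 {n : ℕ} (hn : 7 ≤ n) : NoPr ((22 : ℕ) : ℤ) ((23 : ℕ) : ℤ) n 9 4 :=
  BlkD.of_root (R := d22_23_9_4.R) (H := d22_23_9_4.H) (a := d22_23_9_4.a) (b := d22_23_9_4.b) (q := 5) (by decide) hn
    (BlkD.sp 0 9 (BlkD.sp 2 4 (BlkD.sp 0 4 (BlkD.sp 0 2 (BlkD.sp 0 1 (BlkD.sp 0 0 (s22_23_9_4_1 hn)
      (BlkD.sp 1 11 (BlkD.sp 1 5 (s22_23_9_4_2 hn) (BlkD.sp 1 8 (s22_23_9_4_3 hn) (s22_23_9_4_4
      hn))) (s22_23_9_4_5 hn))) (BlkD.sp 1 11 (BlkD.sp 1 5 (s22_23_9_4_6 hn) (BlkD.sp 1 8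
      (s22_23_9_4_7 hn) (s22_23_9_4_8 hn))) (s22_23_9_4_9 hn))) (BlkD.sp 0 3 (BlkD.sp 1 11 (BlkD.sp
      1 5 (s22_23_9_4_10 hn) (BlkD.sp 1 8 (s22_23_9_4_11 hn) (s22_23_9_4_12 hn))) (s22_23_9_4_13
      hn)) (BlkD.sp 1 19 (BlkD.sp 1 9 (BlkD.sp 1 4 (s22_23_9_4_14 hn) (BlkD.sp 1 7 (s22_23_9_4_15
      hn) (s22_23_9_4_16 hn))) (s22_23_9_4_17 hn)) (s22_23_9_4_18 hn)))) (BlkD.sp 0 7 (BlkD.sp 0 6
      (BlkD.sp 0 5 (BlkD.sp 1 18 (BlkD.sp 1 9 (BlkD.sp 1 4 (s22_23_9_4_19 hn) (s22_23_9_4_20 hn))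
      (s22_23_9_4_21 hn)) (s22_23_9_4_22 hn)) (BlkD.sp 1 17 (BlkD.sp 1 8 (BlkD.sp 1 4
      (s22_23_9_4_23 hn) (s22_23_9_4_24 hn)) (s22_23_9_4_25 hn)) (s22_23_9_4_26 hn)))
      (s22_23_9_4_27 hn)) (s22_23_9_4_28 hn))) (s22_23_9_4_29 hn)) (s22_23_9_4_30 hn))

end BlkC

end Pool.Agent.Lib.MP_f04ccf_co
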