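import Pool.Agent.Lib.MP_f04ccf_co.M.BlkT

/-!
MP_f04ccf_co, block certificate, data `R = 22`, `H = 23`, part 2 (generated, helper99:
bd10.cpp, gen2.py).
-/

set_option autoImplicit false
set_option maxRecDepth 100000

namespace Pool.Agent.Lib.MP_f04ccf_co

namespace BlkC

/-- the numbers of the pair `(5, 4)`, `R = 22`, `H = 23` -/
def d22_23_5_4 : BlkD.Pd :=
  ⟨22, 23, 5, 5, 4, 11, 4, 2, 2, 2, 10, 0, 2, 2, 10, 0, [0, 10, 20, 28, 30, 32, 34, 36, 38, 40, 42,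
    44], [0, 10, 20, 28, 30, 32, 34, 36, 38, 40, 42, 44], [⟨1, 1, 1, 4, 8, [0, 4], [0, 4]⟩, ⟨1, 1,
    1, 6, 12, [0, 6], [0, 6]⟩, ⟨1, 1, 1, 8, 16, [0, 8], [0, 8]⟩, ⟨1, 1, 1, 8, 18, [0, 10], [0, 8]⟩,
    ⟨2, 1, 1, 8, 24, [0, 10, 14], [0, 10]⟩]⟩

lemma k22_23_5_4 : BlkD.pairOk d22_23_5_4 = true := by decide +kernel

/-- certificates of the pair `(5, 4)`, part 1 -/
def t22_23_5_4_1 : BlkD.Tr :=
  .L 5 6 [4, 4, 5, 5, 6] [] [] 100000 50000 50000 600000 0 0 100000 25000 0 0 0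

lemma s22_23_5_4_1 {n : ℕ} (hn : 7 ≤ n) : NoNd (d22_23_5_4.R : ℤ) d22_23_5_4.H n d22_23_5_4.a d22_23_5_4.b
    (BlkD.inB (fun _ => 0)
      (BlkD.upd (BlkD.upd (BlkD.upd (BlkD.upd (BlkD.upd (fun _ => 23) 0 5) 2 4) 0 2) 0 1) 0 0)) :=
  BlkD.tree_sound (BlkD.pairOk_sound k22_23_5_4) (by decide) hn t22_23_5_4_1 _ _ (by decide +kernel)

/-- certificates of the pair `(5, 4)`, part 2 -/
def t22_23_5_4_2 : BlkD.Tr :=
  .S 1 2 (.L 5 6 [4, 4, 5, 5, 6] [] [] 100000 23981 23981 1032624 27807 0 41979 28342 8021 21658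
    26003) (.L 5 6 [4, 4, 5, 5, 6] [] [] 100000 23981 23981 1032624 27807 0 41979 28342 8021 21658
    26003)

lemma s22_23_5_4_2 {n : ℕ} (hn : 7 ≤ n) : NoNd (d22_23_5_4.R : ℤ) d22_23_5_4.H n d22_23_5_4.a d22_23_5_4.b
    (BlkD.inB (BlkD.upd (fun _ => 0) 0 1)
      (BlkD.upd (BlkD.upd (BlkD.upd (BlkD.upd (BlkD.upd (BlkD.upd (BlkD.upd (fun _ => 23) 0 5) 2 4) 0 2) 0 1) 1 22) 1 11) 1 5)) :=
  BlkD.tree_sound (BlkD.pairOk_sound k22_23_5_4) (by decide) hn t22_23_5_4_2 _ _ (by decide +kernel)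

/-- certificates of the pair `(5, 4)`, part 3 -/
def t22_23_5_4_3 : BlkD.Tr :=
  .L 5 6 [4, 4, 5, 5, 6] [] [] 100000 14216 14216 1109807 13725 0 35294 43137 25490 17647 25490

lemma s22_23_5_4_3 {n : ℕ} (hn : 7 ≤ n) : NoNd (d22_23_5_4.R : ℤ) d22_23_5_4.H n d22_23_5_4.a d22_23_5_4.b
    (BlkD.inB (BlkD.upd (BlkD.upd (fun _ => 0) 0 1) 1 6)
      (BlkD.upd (BlkD.upd (BlkD.upd (BlkD.upd (BlkD.upd (BlkD.upd (fun _ => 23) 0 5) 2 4) 0 2) 0 1) 1 22) 1 11)) :=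
  BlkD.tree_sound (BlkD.pairOk_sound k22_23_5_4) (by decide) hn t22_23_5_4_3 _ _ (by decide +kernel)

/-- certificates of the pair `(5, 4)`, part 4 -/
def t22_23_5_4_4 : BlkD.Tr :=
  .E 0

lemma s22_23_5_4_4 {n : ℕ} (hn : 7 ≤ n) : NoNd (d22_23_5_4.R : ℤ) d22_23_5_4.H n d22_23_5_4.a d22_23_5_4.b
    (BlkD.inB (BlkD.upd (BlkD.upd (fun _ => 0) 0 1) 1 12)
      (BlkD.upd (BlkD.upd (BlkD.upd (BlkD.upd (BlkD.upd (fun _ => 23) 0 5) 2 4) 0 2) 0 1) 1 22)) :=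
  BlkD.tree_sound (BlkD.pairOk_sound k22_23_5_4) (by decide) hn t22_23_5_4_4 _ _ (by decide +kernel)

/-- certificates of the pair `(5, 4)`, part 5 -/
def t22_23_5_4_5 : BlkD.Tr :=
  .E 0

lemma s22_23_5_4_5 {n : ℕ} (hn : 7 ≤ n) : NoNd (d22_23_5_4.R : ℤ) d22_23_5_4.H n d22_23_5_4.a d22_23_5_4.b
    (BlkD.inB (BlkD.upd (BlkD.upd (fun _ => 0) 0 1) 1 23)
      (BlkD.upd (BlkD.upd (BlkD.upd (BlkD.upd (fun _ => 23) 0 5) 2 4) 0 2) 0 1)) :=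
  BlkD.tree_sound (BlkD.pairOk_sound k22_23_5_4) (by decide) hn t22_23_5_4_5 _ _ (by decide +kernel)

/-- certificates of the pair `(5, 4)`, part 6 -/
def t22_23_5_4_6 : BlkD.Tr :=
  .L 5 6 [4, 4, 5, 5, 6] [] [] 100000 25000 24999 933334 33333 0 33333 22222 0 0 33333

lemma s22_23_5_4_6 {n : ℕ} (hn : 7 ≤ n) : NoNd (d22_23_5_4.R : ℤ) d22_23_5_4.H n d22_23_5_4.a d22_23_5_4.b
    (BlkD.inB (BlkD.upd (fun _ => 0) 0 2)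
      (BlkD.upd (BlkD.upd (BlkD.upd (BlkD.upd (BlkD.upd (BlkD.upd (BlkD.upd (fun _ => 23) 0 5) 2 4) 0 2) 1 21) 1 10) 1 5) 1 2)) :=
  BlkD.tree_sound (BlkD.pairOk_sound k22_23_5_4) (by decide) hn t22_23_5_4_6 _ _ (by decide +kernel)

/-- certificates of the pair `(5, 4)`, part 7 -/
def t22_23_5_4_7 : BlkD.Tr :=
  .S 1 3 (.L 5 6 [4, 4, 5, 5, 6] [48, 38, 28, 18, 0, 0] [] 100000 25000 25000 1018400 27200 0 27200
    20000 0 17600 32800) (.S 2 2 (.S 2 1 (.S 2 0 (.L 5 6 [4, 4, 5, 5, 6] [66, 58, 48, 38, 28, 0] []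
    100000 45454 45453 700000 0 0 50000 100000 0 0 6061) (.S 3 16 (.S 3 8 (.S 3 4 (.L 5 6 [4, 4, 5,
    5, 6] [66, 58, 48, 38, 28, 0] [] 100000 20328 20328 1050935 13240 4673 39720 18847 9346 16978
    27674) (.L 5 6 [4, 4, 5, 5, 6] [66, 58, 48, 38, 28, 0] [] 100000 31717 31717 991045 0 41791
    41791 83582 31343 16418 16418)) (.E 1)) (.E 1))) (.S 3 15 (.S 3 7 (.S 3 3 (.L 5 6 [4, 4, 5, 5,
    6] [66, 58, 48, 38, 28, 0] [] 100000 18614 18614 1053112 15630 0 43445 18739 12773 21849 26050)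
    (.L 5 6 [4, 4, 5, 5, 6] [66, 58, 48, 38, 28, 0] [] 100000 19118 19118 1058824 20588 0 47059
    58824 52941 41176 20588)) (.E 1)) (.E 1))) (.S 2 3 (.S 3 14 (.S 3 7 (.S 3 3 (.S 3 1 (.L 5 6 [4,
    4, 5, 5, 6] [66, 58, 48, 38, 28, 0] [] 100000 20000 19999 980000 20000 0 40000 10000 10000
    20000 26667) (.S 3 2 (.L 5 6 [4, 4, 5, 5, 6] [66, 58, 48, 38, 28, 0] [34, 24, 14, 0, 0, 0]
    100000 17898 17898 1053130 15625 0 48295 15625 14205 31250 25000) (.L 5 6 [4, 4, 5, 5, 6] [66,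
    58, 48, 38, 28, 0] [54, 44, 34, 24, 0, 0] 100000 18125 18125 1065000 17500 0 43750 65000 52500
    35000 21250))) (.E 1)) (.E 1)) (.E 1)) (.L 5 6 [4, 4, 5, 5, 6] [66, 58, 48, 38, 28, 0] []
    100000 17921 17920 1025663 22124 0 29204 0 14159 36283 30088)))

lemma s22_23_5_4_7 {n : ℕ} (hn : 7 ≤ n) : NoNd (d22_23_5_4.R : ℤ) d22_23_5_4.H n d22_23_5_4.a d22_23_5_4.b
    (BlkD.inB (BlkD.upd (BlkD.upd (fun _ => 0) 0 2) 1 3)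
      (BlkD.upd (BlkD.upd (BlkD.upd (BlkD.upd (BlkD.upd (BlkD.upd (BlkD.upd (fun _ => 23) 0 5) 2 4) 0 2) 1 21) 1 10) 1 5) 1 4)) :=
  BlkD.tree_sound (BlkD.pairOk_sound k22_23_5_4) (by decide) hn t22_23_5_4_7 _ _ (by decide +kernel)

/-- certificates of the pair `(5, 4)`, part 8 -/
def t22_23_5_4_8 : BlkD.Tr :=
  .S 2 2 (.S 2 1 (.L 5 6 [4, 4, 5, 5, 6] [82, 78, 70, 60, 50, 40] [] 100000 21922 21922 1033335 0
    33333 33333 66667 44745 14114 21922) (.S 3 14 (.S 3 7 (.S 3 3 (.L 5 6 [4, 4, 5, 5, 6] [82, 78,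
    70, 60, 50, 40] [] 100000 13670 13670 1115715 14286 0 27143 18571 25714 19610 25714) (.L 5 6
    [4, 4, 5, 5, 6] [82, 78, 70, 60, 50, 40] [] 100000 28262 28262 1006520 8696 0 58696 100000
    26087 0 17391)) (.E 1)) (.E 1))) (.L 5 6 [4, 4, 5, 5, 6] [82, 78, 70, 60, 50, 40] [] 100000
    14375 14375 1112500 12500 0 37500 50000 38750 37500 23750)

lemma s22_23_5_4_8 {n : ℕ} (hn : 7 ≤ n) : NoNd (d22_23_5_4.R : ℤ) d22_23_5_4.H n d22_23_5_4.a d22_23_5_4.b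
    (BlkD.inB (BlkD.upd (BlkD.upd (BlkD.upd (fun _ => 0) 0 2) 1 3) 1 5)
      (BlkD.upd (BlkD.upd (BlkD.upd (BlkD.upd (BlkD.upd (BlkD.upd (fun _ => 23) 0 5) 2 4) 0 2) 1 21) 1 10) 1 5)) :=
  BlkD.tree_sound (BlkD.pairOk_sound k22_23_5_4) (by decide) hn t22_23_5_4_8 _ _ (by decide +kernel)

/-- certificates of the pair `(5, 4)`, part 9 -/
def t22_23_5_4_9 : BlkD.Tr :=
  .L 5 6 [4, 4, 5, 5, 6] [] [] 100000 29286 29286 954291 0 0 85714 88571 14286 11429 14286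

lemma s22_23_5_4_9 {n : ℕ} (hn : 7 ≤ n) : NoNd (d22_23_5_4.R : ℤ) d22_23_5_4.H n d22_23_5_4.a d22_23_5_4.b
    (BlkD.inB (BlkD.upd (BlkD.upd (fun _ => 0) 0 2) 1 6)
      (BlkD.upd (BlkD.upd (BlkD.upd (BlkD.upd (BlkD.upd (fun _ => 23) 0 5) 2 4) 0 2) 1 21) 1 10)) :=
  BlkD.tree_sound (BlkD.pairOk_sound k22_23_5_4) (by decide) hn t22_23_5_4_9 _ _ (by decide +kernel)

/-- certificates of the pair `(5, 4)`, part 10 -/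
def t22_23_5_4_10 : BlkD.Tr :=
  .E 0

lemma s22_23_5_4_10 {n : ℕ} (hn : 7 ≤ n) : NoNd (d22_23_5_4.R : ℤ) d22_23_5_4.H n d22_23_5_4.a d22_23_5_4.b
    (BlkD.inB (BlkD.upd (BlkD.upd (fun _ => 0) 0 2) 1 11)
      (BlkD.upd (BlkD.upd (BlkD.upd (BlkD.upd (fun _ => 23) 0 5) 2 4) 0 2) 1 21)) :=
  BlkD.tree_sound (BlkD.pairOk_sound k22_23_5_4) (by decide) hn t22_23_5_4_10 _ _ (by decide +kernel)

/-- certificates of the pair `(5, 4)`, part 11 -/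
def t22_23_5_4_11 : BlkD.Tr :=
  .E 0

lemma s22_23_5_4_11 {n : ℕ} (hn : 7 ≤ n) : NoNd (d22_23_5_4.R : ℤ) d22_23_5_4.H n d22_23_5_4.a d22_23_5_4.b
    (BlkD.inB (BlkD.upd (BlkD.upd (fun _ => 0) 0 2) 1 22)
      (BlkD.upd (BlkD.upd (BlkD.upd (fun _ => 23) 0 5) 2 4) 0 2)) :=
  BlkD.tree_sound (BlkD.pairOk_sound k22_23_5_4) (by decide) hn t22_23_5_4_11 _ _ (by decide +kernel)

/-- certificates of the pair `(5, 4)`, part 12 -/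
def t22_23_5_4_12 : BlkD.Tr :=
  .S 0 3 (.S 1 20 (.S 1 10 (.S 1 5 (.S 1 2 (.L 5 6 [4, 4, 5, 5, 6] [] [] 100000 21581 21581 1029946
    35027 0 38447 25631 6839 20134 31352) (.S 1 4 (.S 1 3 (.L 5 6 [4, 4, 5, 5, 6] [54, 44, 34, 24,
    0, 0] [] 100000 13151 13150 1084377 8333 0 45313 53646 38021 22396 25000) (.S 2 2 (.S 2 1 (.L 5
    6 [4, 4, 5, 5, 6] [74, 66, 56, 46, 36, 0] [] 100000 21818 21817 1033339 0 33333 33333 66667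
    44848 15152 21818) (.S 3 14 (.S 3 7 (.S 3 3 (.L 5 6 [4, 4, 5, 5, 6] [74, 66, 56, 46, 36, 0] []
    100000 12236 12235 1125984 17523 0 21450 26284 42900 20544 30514) (.L 5 6 [4, 4, 5, 5, 6] [74,
    66, 56, 46, 36, 0] [] 100000 13710 13710 1061292 9677 0 9677 100000 70968 16129 29032)) (.E 1))
    (.E 1))) (.L 5 6 [4, 4, 5, 5, 6] [74, 66, 56, 46, 36, 0] [] 100000 10000 10000 1130000 17500 0
    17500 50000 70000 32500 30000))) (.L 5 6 [4, 4, 5, 5, 6] [92, 88, 80, 70, 60, 50] [] 100000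
    35715 35715 914286 0 0 100000 85714 0 14286 14286))) (.E 0)) (.E 0)) (.E 0)) (.L 5 6 [4, 4, 5,
    5, 6] [] [] 100000 14205 14205 1100002 0 0 50000 50000 25000 18182 25000)

lemma s22_23_5_4_12 {n : ℕ} (hn : 7 ≤ n) : NoNd (d22_23_5_4.R : ℤ) d22_23_5_4.H n d22_23_5_4.a d22_23_5_4.b
    (BlkD.inB (BlkD.upd (fun _ => 0) 0 3)
      (BlkD.upd (BlkD.upd (BlkD.upd (fun _ => 23) 0 5) 2 4) 0 4)) :=
  BlkD.tree_sound (BlkD.pairOk_sound k22_23_5_4) (by decide) hn t22_23_5_4_12 _ _ (by decide +kernel)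

/-- certificates of the pair `(5, 4)`, part 13 -/
def t22_23_5_4_13 : BlkD.Tr :=
  .L 5 6 [4, 4, 5, 5, 6] [] [] 100000 7046 7046 1100003 0 0 0 50000 55455 27273 44545

lemma s22_23_5_4_13 {n : ℕ} (hn : 7 ≤ n) : NoNd (d22_23_5_4.R : ℤ) d22_23_5_4.H n d22_23_5_4.a d22_23_5_4.b
    (BlkD.inB (BlkD.upd (BlkD.upd (fun _ => 0) 0 3) 0 5)
      (BlkD.upd (BlkD.upd (fun _ => 23) 0 5) 2 4)) :=
  BlkD.tree_sound (BlkD.pairOk_sound k22_23_5_4) (by decide) hn t22_23_5_4_13 _ _ (by decide +kernel)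

/-- certificates of the pair `(5, 4)`, part 14 -/
def t22_23_5_4_14 : BlkD.Tr :=
  .E 1

lemma s22_23_5_4_14 {n : ℕ} (hn : 7 ≤ n) : NoNd (d22_23_5_4.R : ℤ) d22_23_5_4.H n d22_23_5_4.a d22_23_5_4.b
    (BlkD.inB (BlkD.upd (fun _ => 0) 2 5)
      (BlkD.upd (fun _ => 23) 0 5)) :=
  BlkD.tree_sound (BlkD.pairOk_sound k22_23_5_4) (by decide) hn t22_23_5_4_14 _ _ (by decide +kernel)

/-- certificates of the pair `(5, 4)`, part 15 -/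
def t22_23_5_4_15 : BlkD.Tr :=
  .E 0

lemma s22_23_5_4_15 {n : ℕ} (hn : 7 ≤ n) : NoNd (d22_23_5_4.R : ℤ) d22_23_5_4.H n d22_23_5_4.a d22_23_5_4.b
    (BlkD.inB (BlkD.upd (fun _ => 0) 0 6)
      (fun _ => 23)) :=
  BlkD.tree_sound (BlkD.pairOk_sound k22_23_5_4) (by decide) hn t22_23_5_4_15 _ _ (by decide +kernel)

lemma pr22_23_5_4 {n : ℕ} (hn : 7 ≤ n) : NoPr ((22 : ℕ) : ℤ) ((23 : ℕ) : ℤ) n 5 4 :=
  BlkD.of_root (R := d22_23_5_4.R) (H := d22_23_5_4.H) (a := d22_23_5_4.a) (b := d22_23_5_4.b) (q := 5) (by decide) hn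
    (BlkD.sp 0 5 (BlkD.sp 2 4 (BlkD.sp 0 2 (BlkD.sp 0 1 (BlkD.sp 0 0 (s22_23_5_4_1 hn) (BlkD.sp 1
      22 (BlkD.sp 1 11 (BlkD.sp 1 5 (s22_23_5_4_2 hn) (s22_23_5_4_3 hn)) (s22_23_5_4_4 hn))
      (s22_23_5_4_5 hn))) (BlkD.sp 1 21 (BlkD.sp 1 10 (BlkD.sp 1 5 (BlkD.sp 1 2 (s22_23_5_4_6 hn)
      (BlkD.sp 1 4 (s22_23_5_4_7 hn) (s22_23_5_4_8 hn))) (s22_23_5_4_9 hn)) (s22_23_5_4_10 hn))
      (s22_23_5_4_11 hn))) (BlkD.sp 0 4 (s22_23_5_4_12 hn) (s22_23_5_4_13 hn))) (s22_23_5_4_14 hn))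
      (s22_23_5_4_15 hn))

/-- the numbers of the pair `(6, 0)`, `R = 22`, `H = 23` -/
def d22_23_6_0 : BlkD.Pd :=
  ⟨22, 23, 5, 6, 0, 14, 0, 1, 0, 4, 4, 0, 0, 4, 4, 0, [0, 4, 8, 12, 16, 20, 24, 28, 32, 36, 40, 44,
    48, 52, 56], [0, 4, 8, 12, 16, 20, 24, 28, 32, 36, 40, 44, 48, 52, 56], [⟨1, 1, 1, 4, 8, [0,
    4], [0, 4]⟩]⟩

/-- the certificates of the pair `(6, 0)` -/
def t22_23_6_0 : BlkD.Tr :=
  .S 0 6 (.S 2 0 (.L 4 4 [4] [] [] 100000 0 0 716668 33333 0 50000 50000 0 0 0) (.E 1)) (.E 0)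

lemma pr22_23_6_0 {n : ℕ} (hn : 7 ≤ n) : NoPr ((22 : ℕ) : ℤ) ((23 : ℕ) : ℤ) n 6 0 :=
  BlkD.pair_sound (d := d22_23_6_0) (by decide +kernel) hn (by decide) (tr := t22_23_6_0)
    (by decide +kernel) rfl rfl rfl rfl

/-- the numbers of the pair `(6, 1)`, `R = 22`, `H = 23` -/
def d22_23_6_1 : BlkD.Pd :=
  ⟨22, 23, 5, 6, 1, 13, 1, 1, 2, 2, 6, 0, 0, 4, 4, 0, [0, 6, 12, 18, 24, 30, 36, 40, 42, 44, 46,
    48, 50, 52], [0, 4, 8, 12, 16, 20, 24, 28, 32, 36, 40, 44, 48, 52], [⟨1, 1, 1, 4, 8, [0, 4],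
    [0, 4]⟩, ⟨1, 1, 1, 4, 10, [0, 6], [0, 4]⟩]⟩

/-- the certificates of the pair `(6, 1)` -/
def t22_23_6_1 : BlkD.Tr :=
  .S 0 6 (.S 2 1 (.S 0 3 (.S 0 1 (.L 4 5 [4, 4] [] [] 100000 0 0 866668 33333 0 50000 0 0 0 0) (.L
    4 5 [4, 4] [] [] 100000 0 0 866668 33333 0 50000 0 0 0 0)) (.L 4 5 [4, 4] [] [] 100000 0 0
    866668 33333 0 50000 0 0 0 0)) (.E 1)) (.E 0)

lemma pr22_23_6_1 {n : ℕ} (hn : 7 ≤ n) : NoPr ((22 : ℕ) : ℤ) ((23 : ℕ) : ℤ) n 6 1 :=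
  BlkD.pair_sound (d := d22_23_6_1) (by decide +kernel) hn (by decide) (tr := t22_23_6_1)
    (by decide +kernel) rfl rfl rfl rfl

/-- the numbers of the pair `(6, 2)`, `R = 22`, `H = 23` -/
def d22_23_6_2 : BlkD.Pd :=
  ⟨22, 23, 5, 6, 2, 12, 2, 1, 2, 2, 8, 0, 0, 4, 6, 0, [0, 8, 16, 24, 32, 34, 36, 38, 40, 42, 44,
    46, 48], [0, 6, 12, 18, 24, 30, 36, 42, 48, 48, 48, 48, 48], [⟨1, 1, 1, 4, 8, [0, 4], [0, 4]⟩,
    ⟨1, 1, 1, 4, 10, [0, 6], [0, 4]⟩, ⟨1, 1, 1, 6, 14, [0, 8], [0, 6]⟩]⟩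

lemma k22_23_6_2 : BlkD.pairOk d22_23_6_2 = true := by decide +kernel

/-- certificates of the pair `(6, 2)`, part 1 -/
def t22_23_6_2_1 : BlkD.Tr :=
  .S 0 0 (.L 4 5 [4, 4, 5] [] [] 100000 893 892 992857 26786 0 53571 0 0 12500 12500) (.L 4 5 [4,
    4, 5] [] [] 100000 893 892 992857 26786 0 53571 0 0 12500 12500)

lemma s22_23_6_2_1 {n : ℕ} (hn : 7 ≤ n) : NoNd (d22_23_6_2.R : ℤ) d22_23_6_2.H n d22_23_6_2.a d22_23_6_2.b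
    (BlkD.inB (fun _ => 0)
      (BlkD.upd (BlkD.upd (BlkD.upd (BlkD.upd (fun _ => 23) 0 6) 2 2) 0 3) 0 1)) :=
  BlkD.tree_sound (BlkD.pairOk_sound k22_23_6_2) (by decide) hn t22_23_6_2_1 _ _ (by decide +kernel)

/-- certificates of the pair `(6, 2)`, part 2 -/
def t22_23_6_2_2 : BlkD.Tr :=
  .S 0 2 (.L 4 5 [4, 4, 5] [] [] 100000 893 892 992857 26786 0 53571 0 0 12500 12500) (.L 4 5 [4,
    4, 5] [] [] 100000 893 892 992857 26786 0 53571 0 0 12500 12500)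

lemma s22_23_6_2_2 {n : ℕ} (hn : 7 ≤ n) : NoNd (d22_23_6_2.R : ℤ) d22_23_6_2.H n d22_23_6_2.a d22_23_6_2.b
    (BlkD.inB (BlkD.upd (fun _ => 0) 0 2)
      (BlkD.upd (BlkD.upd (BlkD.upd (fun _ => 23) 0 6) 2 2) 0 3)) :=
  BlkD.tree_sound (BlkD.pairOk_sound k22_23_6_2) (by decide) hn t22_23_6_2_2 _ _ (by decide +kernel)

/-- certificates of the pair `(6, 2)`, part 3 -/
def t22_23_6_2_3 : BlkD.Tr :=
  .L 4 5 [4, 4, 5] [] [] 100000 893 892 992857 26786 0 53571 0 0 12500 12500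

lemma s22_23_6_2_3 {n : ℕ} (hn : 7 ≤ n) : NoNd (d22_23_6_2.R : ℤ) d22_23_6_2.H n d22_23_6_2.a d22_23_6_2.b
    (BlkD.inB (BlkD.upd (fun _ => 0) 0 4)
      (BlkD.upd (BlkD.upd (fun _ => 23) 0 6) 2 2)) :=
  BlkD.tree_sound (BlkD.pairOk_sound k22_23_6_2) (by decide) hn t22_23_6_2_3 _ _ (by decide +kernel)

/-- certificates of the pair `(6, 2)`, part 4 -/
def t22_23_6_2_4 : BlkD.Tr :=
  .E 1

lemma s22_23_6_2_4 {n : ℕ} (hn : 7 ≤ n) : NoNd (d22_23_6_2.R : ℤ) d22_23_6_2.H n d22_23_6_2.a d22_23_6_2.b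
    (BlkD.inB (BlkD.upd (fun _ => 0) 2 3)
      (BlkD.upd (fun _ => 23) 0 6)) :=
  BlkD.tree_sound (BlkD.pairOk_sound k22_23_6_2) (by decide) hn t22_23_6_2_4 _ _ (by decide +kernel)

/-- certificates of the pair `(6, 2)`, part 5 -/
def t22_23_6_2_5 : BlkD.Tr :=
  .E 0

lemma s22_23_6_2_5 {n : ℕ} (hn : 7 ≤ n) : NoNd (d22_23_6_2.R : ℤ) d22_23_6_2.H n d22_23_6_2.a d22_23_6_2.b
    (BlkD.inB (BlkD.upd (fun _ => 0) 0 7)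
      (fun _ => 23)) :=
  BlkD.tree_sound (BlkD.pairOk_sound k22_23_6_2) (by decide) hn t22_23_6_2_5 _ _ (by decide +kernel)

lemma pr22_23_6_2 {n : ℕ} (hn : 7 ≤ n) : NoPr ((22 : ℕ) : ℤ) ((23 : ℕ) : ℤ) n 6 2 :=
  BlkD.of_root (R := d22_23_6_2.R) (H := d22_23_6_2.H) (a := d22_23_6_2.a) (b := d22_23_6_2.b) (q := 5) (by decide) hn
    (BlkD.sp 0 6 (BlkD.sp 2 2 (BlkD.sp 0 3 (BlkD.sp 0 1 (s22_23_6_2_1 hn) (s22_23_6_2_2 hn))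
      (s22_23_6_2_3 hn)) (s22_23_6_2_4 hn)) (s22_23_6_2_5 hn))

/-- the numbers of the pair `(6, 3)`, `R = 22`, `H = 23` -/
def d22_23_6_3 : BlkD.Pd :=
  ⟨22, 23, 5, 6, 3, 11, 3, 2, 2, 2, 10, 0, 4, 1, 8, 0, [0, 10, 20, 28, 30, 32, 34, 36, 38, 40, 42,
    44], [0, 8, 16, 23, 27, 31, 35, 39, 43, 47, 51, 55], [⟨1, 1, 1, 4, 8, [0, 4], [0, 4]⟩, ⟨1, 1,
    1, 6, 12, [0, 6], [0, 6]⟩, ⟨1, 1, 1, 6, 14, [0, 8], [0, 6]⟩, ⟨2, 1, 1, 8, 18, [0, 10, 10], [0,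
    8]⟩]⟩

lemma k22_23_6_3 : BlkD.pairOk d22_23_6_3 = true := by decide +kernel

/-- certificates of the pair `(6, 3)`, part 1 -/
def t22_23_6_3_1 : BlkD.Tr :=
  .L 5 6 [4, 4, 5, 5] [] [] 100000 12802 12802 1097161 20568 0 50000 28846 10665 24339 26593

lemma s22_23_6_3_1 {n : ℕ} (hn : 7 ≤ n) : NoNd (d22_23_6_3.R : ℤ) d22_23_6_3.H n d22_23_6_3.a d22_23_6_3.b
    (BlkD.inB (fun _ => 0)
      (BlkD.upd (BlkD.upd (BlkD.upd (BlkD.upd (BlkD.upd (fun _ => 23) 0 6) 2 3) 0 3) 0 1) 0 0)) :=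
  BlkD.tree_sound (BlkD.pairOk_sound k22_23_6_3) (by decide) hn t22_23_6_3_1 _ _ (by decide +kernel)

/-- certificates of the pair `(6, 3)`, part 2 -/
def t22_23_6_3_2 : BlkD.Tr :=
  .L 5 6 [4, 4, 5, 5] [] [] 100000 12802 12802 1097161 20568 0 50000 28846 10665 24339 26593

lemma s22_23_6_3_2 {n : ℕ} (hn : 7 ≤ n) : NoNd (d22_23_6_3.R : ℤ) d22_23_6_3.H n d22_23_6_3.a d22_23_6_3.b
    (BlkD.inB (BlkD.upd (fun _ => 0) 0 1)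
      (BlkD.upd (BlkD.upd (BlkD.upd (BlkD.upd (BlkD.upd (BlkD.upd (fun _ => 23) 0 6) 2 3) 0 3) 0 1) 1 11) 1 5)) :=
  BlkD.tree_sound (BlkD.pairOk_sound k22_23_6_3) (by decide) hn t22_23_6_3_2 _ _ (by decide +kernel)

/-- certificates of the pair `(6, 3)`, part 3 -/
def t22_23_6_3_3 : BlkD.Tr :=
  .L 5 6 [4, 4, 5, 5] [] [] 100000 12802 12802 1097161 20568 0 50000 28846 10665 24339 26593

lemma s22_23_6_3_3 {n : ℕ} (hn : 7 ≤ n) : NoNd (d22_23_6_3.R : ℤ) d22_23_6_3.H n d22_23_6_3.a d22_23_6_3.b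
    (BlkD.inB (BlkD.upd (BlkD.upd (fun _ => 0) 0 1) 1 6)
      (BlkD.upd (BlkD.upd (BlkD.upd (BlkD.upd (BlkD.upd (fun _ => 23) 0 6) 2 3) 0 3) 0 1) 1 11)) :=
  BlkD.tree_sound (BlkD.pairOk_sound k22_23_6_3) (by decide) hn t22_23_6_3_3 _ _ (by decide +kernel)

/-- certificates of the pair `(6, 3)`, part 4 -/
def t22_23_6_3_4 : BlkD.Tr :=
  .L 5 6 [4, 4, 5, 5] [] [] 100000 12802 12802 1097161 20568 0 50000 28846 10665 24339 26593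

lemma s22_23_6_3_4 {n : ℕ} (hn : 7 ≤ n) : NoNd (d22_23_6_3.R : ℤ) d22_23_6_3.H n d22_23_6_3.a d22_23_6_3.b
    (BlkD.inB (BlkD.upd (BlkD.upd (fun _ => 0) 0 1) 1 12)
      (BlkD.upd (BlkD.upd (BlkD.upd (BlkD.upd (fun _ => 23) 0 6) 2 3) 0 3) 0 1)) :=
  BlkD.tree_sound (BlkD.pairOk_sound k22_23_6_3) (by decide) hn t22_23_6_3_4 _ _ (by decide +kernel)

/-- certificates of the pair `(6, 3)`, part 5 -/
def t22_23_6_3_5 : BlkD.Tr :=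
  .S 1 11 (.S 1 5 (.L 5 6 [4, 4, 5, 5] [] [] 100000 12802 12802 1097161 20568 0 50000 28846 10665
    24339 26593) (.L 5 6 [4, 4, 5, 5] [] [] 100000 12802 12802 1097161 20568 0 50000 28846 10665
    24339 26593)) (.L 5 6 [4, 4, 5, 5] [] [] 100000 12802 12802 1097161 20568 0 50000 28846 10665
    24339 26593)

lemma s22_23_6_3_5 {n : ℕ} (hn : 7 ≤ n) : NoNd (d22_23_6_3.R : ℤ) d22_23_6_3.H n d22_23_6_3.a d22_23_6_3.b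
    (BlkD.inB (BlkD.upd (fun _ => 0) 0 2)
      (BlkD.upd (BlkD.upd (BlkD.upd (BlkD.upd (fun _ => 23) 0 6) 2 3) 0 3) 0 2)) :=
  BlkD.tree_sound (BlkD.pairOk_sound k22_23_6_3) (by decide) hn t22_23_6_3_5 _ _ (by decide +kernel)

/-- certificates of the pair `(6, 3)`, part 6 -/
def t22_23_6_3_6 : BlkD.Tr :=
  .L 5 6 [4, 4, 5, 5] [] [] 100000 12802 12802 1097161 20568 0 50000 28846 10665 24339 26593

lemma s22_23_6_3_6 {n : ℕ} (hn : 7 ≤ n) : NoNd (d22_23_6_3.R : ℤ) d22_23_6_3.H n d22_23_6_3.a d22_23_6_3.b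
    (BlkD.inB (BlkD.upd (BlkD.upd (fun _ => 0) 0 2) 0 3)
      (BlkD.upd (BlkD.upd (BlkD.upd (fun _ => 23) 0 6) 2 3) 0 3)) :=
  BlkD.tree_sound (BlkD.pairOk_sound k22_23_6_3) (by decide) hn t22_23_6_3_6 _ _ (by decide +kernel)

/-- certificates of the pair `(6, 3)`, part 7 -/
def t22_23_6_3_7 : BlkD.Tr :=
  .S 0 5 (.S 0 4 (.L 5 6 [4, 4, 5, 5] [] [] 100000 8115 8115 1147968 13009 0 42006 25000 15298
    30180 30180) (.L 5 6 [4, 4, 5, 5] [] [] 100000 0 0 1134314 0 0 65686 25000 34804 30392 34804))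
    (.L 5 6 [4, 4, 5, 5] [] [] 100000 894 894 1092628 0 7373 50000 26843 33085 31148 33085)

lemma s22_23_6_3_7 {n : ℕ} (hn : 7 ≤ n) : NoNd (d22_23_6_3.R : ℤ) d22_23_6_3.H n d22_23_6_3.a d22_23_6_3.b
    (BlkD.inB (BlkD.upd (fun _ => 0) 0 4)
      (BlkD.upd (BlkD.upd (fun _ => 23) 0 6) 2 3)) :=
  BlkD.tree_sound (BlkD.pairOk_sound k22_23_6_3) (by decide) hn t22_23_6_3_7 _ _ (by decide +kernel)

/-- certificates of the pair `(6, 3)`, part 8 -/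
def t22_23_6_3_8 : BlkD.Tr :=
  .E 1

lemma s22_23_6_3_8 {n : ℕ} (hn : 7 ≤ n) : NoNd (d22_23_6_3.R : ℤ) d22_23_6_3.H n d22_23_6_3.a d22_23_6_3.b
    (BlkD.inB (BlkD.upd (fun _ => 0) 2 4)
      (BlkD.upd (fun _ => 23) 0 6)) :=
  BlkD.tree_sound (BlkD.pairOk_sound k22_23_6_3) (by decide) hn t22_23_6_3_8 _ _ (by decide +kernel)

/-- certificates of the pair `(6, 3)`, part 9 -/
def t22_23_6_3_9 : BlkD.Tr :=
  .E 0

lemma s22_23_6_3_9 {n : ℕ} (hn : 7 ≤ n) : NoNd (d22_23_6_3.R : ℤ) d22_23_6_3.H n d22_23_6_3.a d22_23_6_3.b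
    (BlkD.inB (BlkD.upd (fun _ => 0) 0 7)
      (fun _ => 23)) :=
  BlkD.tree_sound (BlkD.pairOk_sound k22_23_6_3) (by decide) hn t22_23_6_3_9 _ _ (by decide +kernel)

lemma pr22_23_6_3 {n : ℕ} (hn : 7 ≤ n) : NoPr ((22 : ℕ) : ℤ) ((23 : ℕ) : ℤ) n 6 3 :=
  BlkD.of_root (R := d22_23_6_3.R) (H := d22_23_6_3.H) (a := d22_23_6_3.a) (b := d22_23_6_3.b) (q := 5) (by decide) hn
    (BlkD.sp 0 6 (BlkD.sp 2 3 (BlkD.sp 0 3 (BlkD.sp 0 1 (BlkD.sp 0 0 (s22_23_6_3_1 hn) (BlkD.sp 1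
      11 (BlkD.sp 1 5 (s22_23_6_3_2 hn) (s22_23_6_3_3 hn)) (s22_23_6_3_4 hn))) (BlkD.sp 0 2
      (s22_23_6_3_5 hn) (s22_23_6_3_6 hn))) (s22_23_6_3_7 hn)) (s22_23_6_3_8 hn)) (s22_23_6_3_9
      hn))

end BlkC

end Pool.Agent.Lib.MP_f04ccf_co
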