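import Pool.Agent.Lib.MP_f04ccf_co.M.BlkT

/-!
MP_f04ccf_co, block certificate, data `R = 22`, `H = 23`, part 20 (generated, helper99:
bd10.cpp, gen2.py).
-/

set_option autoImplicit false
set_option maxRecDepth 100000

namespace Pool.Agent.Lib.MP_f04ccf_co

namespace BlkC

/-- the numbers of the pair `(9, 5)`, `R = 22`, `H = 23` -/
def d22_23_9_5 : BlkD.Pd :=
  ⟨22, 23, 5, 9, 5, 6, 1, 3, 0, 4, 8, 0, 2, 2, 6, 0, [0, 8, 16, 24, 24, 24, 24], [0, 6, 12, 18, 20,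
    22, 24], [⟨1, 1, 1, 4, 8, [0, 4], [0, 4]⟩, ⟨1, 1, 1, 4, 14, [0, 8], [0, 6]⟩]⟩

lemma k22_23_9_5 : BlkD.pairOk d22_23_9_5 = true := by decide +kernel

/-- certificates of the pair `(9, 5)`, part 1 -/
def t22_23_9_5_1 : BlkD.Tr :=
  .L 6 9 [5, 3, 22, 22, 22, 22] [] [] 100000 0 0 1600000 100000 100000 100000 100000 0 0 0

lemma s22_23_9_5_1 {n : ℕ} (hn : 7 ≤ n) : NoNd (d22_23_9_5.R : ℤ) d22_23_9_5.H n d22_23_9_5.a d22_23_9_5.b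
    (BlkD.inB (fun _ => 0)
      (BlkD.upd (BlkD.upd (BlkD.upd (BlkD.upd (BlkD.upd (BlkD.upd (fun _ => 23) 0 9) 2 5) 0 4) 0 2) 0 1) 0 0)) :=
  BlkD.tree_sound (BlkD.pairOk_sound k22_23_9_5) (by decide) hn t22_23_9_5_1 _ _ (by decide +kernel)

/-- certificates of the pair `(9, 5)`, part 2 -/
def t22_23_9_5_2 : BlkD.Tr :=
  .L 6 9 [5, 3, 22, 22, 22, 22] [] [] 100000 0 0 1600000 100000 100000 100000 100000 0 0 0

lemma s22_23_9_5_2 {n : ℕ} (hn : 7 ≤ n) : NoNd (d22_23_9_5.R : ℤ) d22_23_9_5.H n d22_23_9_5.a d22_23_9_5.b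
    (BlkD.inB (BlkD.upd (fun _ => 0) 0 1)
      (BlkD.upd (BlkD.upd (BlkD.upd (BlkD.upd (BlkD.upd (BlkD.upd (BlkD.upd (fun _ => 23) 0 9) 2 5) 0 4) 0 2) 0 1) 1 11) 1 5)) :=
  BlkD.tree_sound (BlkD.pairOk_sound k22_23_9_5) (by decide) hn t22_23_9_5_2 _ _ (by decide +kernel)

/-- certificates of the pair `(9, 5)`, part 3 -/
def t22_23_9_5_3 : BlkD.Tr :=
  .S 1 8 (.L 6 9 [5, 3, 22, 22, 22, 22] [] [] 100000 0 0 1600000 100000 100000 100000 100000 0 0 0)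
    (.L 6 9 [5, 3, 22, 22, 22, 22] [] [] 100000 0 0 1600000 100000 100000 100000 100000 0 0 0)

lemma s22_23_9_5_3 {n : ℕ} (hn : 7 ≤ n) : NoNd (d22_23_9_5.R : ℤ) d22_23_9_5.H n d22_23_9_5.a d22_23_9_5.b
    (BlkD.inB (BlkD.upd (BlkD.upd (fun _ => 0) 0 1) 1 6)
      (BlkD.upd (BlkD.upd (BlkD.upd (BlkD.upd (BlkD.upd (BlkD.upd (fun _ => 23) 0 9) 2 5) 0 4) 0 2) 0 1) 1 11)) :=
  BlkD.tree_sound (BlkD.pairOk_sound k22_23_9_5) (by decide) hn t22_23_9_5_3 _ _ (by decide +kernel)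

/-- certificates of the pair `(9, 5)`, part 4 -/
def t22_23_9_5_4 : BlkD.Tr :=
  .L 6 9 [5, 3, 22, 22, 22, 22] [] [] 100000 0 0 1600000 100000 100000 100000 100000 0 0 0

lemma s22_23_9_5_4 {n : ℕ} (hn : 7 ≤ n) : NoNd (d22_23_9_5.R : ℤ) d22_23_9_5.H n d22_23_9_5.a d22_23_9_5.b
    (BlkD.inB (BlkD.upd (BlkD.upd (fun _ => 0) 0 1) 1 12)
      (BlkD.upd (BlkD.upd (BlkD.upd (BlkD.upd (BlkD.upd (fun _ => 23) 0 9) 2 5) 0 4) 0 2) 0 1)) :=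
  BlkD.tree_sound (BlkD.pairOk_sound k22_23_9_5) (by decide) hn t22_23_9_5_4 _ _ (by decide +kernel)

/-- certificates of the pair `(9, 5)`, part 5 -/
def t22_23_9_5_5 : BlkD.Tr :=
  .L 6 9 [5, 3, 22, 22, 22, 22] [] [] 100000 0 0 1600000 100000 100000 100000 100000 0 0 0

lemma s22_23_9_5_5 {n : ℕ} (hn : 7 ≤ n) : NoNd (d22_23_9_5.R : ℤ) d22_23_9_5.H n d22_23_9_5.a d22_23_9_5.b
    (BlkD.inB (BlkD.upd (fun _ => 0) 0 2)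
      (BlkD.upd (BlkD.upd (BlkD.upd (BlkD.upd (BlkD.upd (BlkD.upd (fun _ => 23) 0 9) 2 5) 0 4) 0 2) 1 11) 1 5)) :=
  BlkD.tree_sound (BlkD.pairOk_sound k22_23_9_5) (by decide) hn t22_23_9_5_5 _ _ (by decide +kernel)

/-- certificates of the pair `(9, 5)`, part 6 -/
def t22_23_9_5_6 : BlkD.Tr :=
  .S 1 8 (.L 6 9 [5, 3, 22, 22, 22, 22] [] [] 100000 0 0 1600000 100000 100000 100000 100000 0 0 0)
    (.L 6 9 [5, 3, 22, 22, 22, 22] [] [] 100000 0 0 1600000 100000 100000 100000 100000 0 0 0)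

lemma s22_23_9_5_6 {n : ℕ} (hn : 7 ≤ n) : NoNd (d22_23_9_5.R : ℤ) d22_23_9_5.H n d22_23_9_5.a d22_23_9_5.b
    (BlkD.inB (BlkD.upd (BlkD.upd (fun _ => 0) 0 2) 1 6)
      (BlkD.upd (BlkD.upd (BlkD.upd (BlkD.upd (BlkD.upd (fun _ => 23) 0 9) 2 5) 0 4) 0 2) 1 11)) :=
  BlkD.tree_sound (BlkD.pairOk_sound k22_23_9_5) (by decide) hn t22_23_9_5_6 _ _ (by decide +kernel)

/-- certificates of the pair `(9, 5)`, part 7 -/
def t22_23_9_5_7 : BlkD.Tr :=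
  .L 6 9 [5, 3, 22, 22, 22, 22] [] [] 100000 0 0 1600000 100000 100000 100000 100000 0 0 0

lemma s22_23_9_5_7 {n : ℕ} (hn : 7 ≤ n) : NoNd (d22_23_9_5.R : ℤ) d22_23_9_5.H n d22_23_9_5.a d22_23_9_5.b
    (BlkD.inB (BlkD.upd (BlkD.upd (fun _ => 0) 0 2) 1 12)
      (BlkD.upd (BlkD.upd (BlkD.upd (BlkD.upd (fun _ => 23) 0 9) 2 5) 0 4) 0 2)) :=
  BlkD.tree_sound (BlkD.pairOk_sound k22_23_9_5) (by decide) hn t22_23_9_5_7 _ _ (by decide +kernel)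

/-- certificates of the pair `(9, 5)`, part 8 -/
def t22_23_9_5_8 : BlkD.Tr :=
  .L 6 9 [5, 3, 22, 22, 22, 22] [] [] 100000 0 0 1600000 100000 100000 100000 100000 0 0 0

lemma s22_23_9_5_8 {n : ℕ} (hn : 7 ≤ n) : NoNd (d22_23_9_5.R : ℤ) d22_23_9_5.H n d22_23_9_5.a d22_23_9_5.b
    (BlkD.inB (BlkD.upd (fun _ => 0) 0 3)
      (BlkD.upd (BlkD.upd (BlkD.upd (BlkD.upd (BlkD.upd (BlkD.upd (fun _ => 23) 0 9) 2 5) 0 4) 0 3) 1 11) 1 5)) :=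
  BlkD.tree_sound (BlkD.pairOk_sound k22_23_9_5) (by decide) hn t22_23_9_5_8 _ _ (by decide +kernel)

/-- certificates of the pair `(9, 5)`, part 9 -/
def t22_23_9_5_9 : BlkD.Tr :=
  .S 1 8 (.L 6 9 [5, 3, 22, 22, 22, 22] [] [] 100000 0 0 1600000 100000 100000 100000 100000 0 0 0)
    (.L 6 9 [5, 3, 22, 22, 22, 22] [] [] 100000 0 0 1600000 100000 100000 100000 100000 0 0 0)

lemma s22_23_9_5_9 {n : ℕ} (hn : 7 ≤ n) : NoNd (d22_23_9_5.R : ℤ) d22_23_9_5.H n d22_23_9_5.a d22_23_9_5.b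
    (BlkD.inB (BlkD.upd (BlkD.upd (fun _ => 0) 0 3) 1 6)
      (BlkD.upd (BlkD.upd (BlkD.upd (BlkD.upd (BlkD.upd (fun _ => 23) 0 9) 2 5) 0 4) 0 3) 1 11)) :=
  BlkD.tree_sound (BlkD.pairOk_sound k22_23_9_5) (by decide) hn t22_23_9_5_9 _ _ (by decide +kernel)

/-- certificates of the pair `(9, 5)`, part 10 -/
def t22_23_9_5_10 : BlkD.Tr :=
  .L 6 9 [5, 3, 22, 22, 22, 22] [] [] 100000 0 0 1600000 100000 100000 100000 100000 0 0 0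

lemma s22_23_9_5_10 {n : ℕ} (hn : 7 ≤ n) : NoNd (d22_23_9_5.R : ℤ) d22_23_9_5.H n d22_23_9_5.a d22_23_9_5.b
    (BlkD.inB (BlkD.upd (BlkD.upd (fun _ => 0) 0 3) 1 12)
      (BlkD.upd (BlkD.upd (BlkD.upd (BlkD.upd (fun _ => 23) 0 9) 2 5) 0 4) 0 3)) :=
  BlkD.tree_sound (BlkD.pairOk_sound k22_23_9_5) (by decide) hn t22_23_9_5_10 _ _ (by decide +kernel)

/-- certificates of the pair `(9, 5)`, part 11 -/
def t22_23_9_5_11 : BlkD.Tr :=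
  .L 6 9 [5, 3, 22, 22, 22, 22] [] [] 100000 0 0 1600000 100000 100000 100000 100000 0 0 0

lemma s22_23_9_5_11 {n : ℕ} (hn : 7 ≤ n) : NoNd (d22_23_9_5.R : ℤ) d22_23_9_5.H n d22_23_9_5.a d22_23_9_5.b
    (BlkD.inB (BlkD.upd (BlkD.upd (fun _ => 0) 0 3) 0 4)
      (BlkD.upd (BlkD.upd (BlkD.upd (BlkD.upd (BlkD.upd (fun _ => 23) 0 9) 2 5) 0 4) 1 11) 1 5)) :=
  BlkD.tree_sound (BlkD.pairOk_sound k22_23_9_5) (by decide) hn t22_23_9_5_11 _ _ (by decide +kernel)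

/-- certificates of the pair `(9, 5)`, part 12 -/
def t22_23_9_5_12 : BlkD.Tr :=
  .L 6 9 [5, 3, 22, 22, 22, 22] [] [] 100000 0 0 1600000 100000 100000 100000 100000 0 0 0

lemma s22_23_9_5_12 {n : ℕ} (hn : 7 ≤ n) : NoNd (d22_23_9_5.R : ℤ) d22_23_9_5.H n d22_23_9_5.a d22_23_9_5.b
    (BlkD.inB (BlkD.upd (BlkD.upd (BlkD.upd (fun _ => 0) 0 3) 0 4) 1 6)
      (BlkD.upd (BlkD.upd (BlkD.upd (BlkD.upd (BlkD.upd (fun _ => 23) 0 9) 2 5) 0 4) 1 11) 1 8)) :=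
  BlkD.tree_sound (BlkD.pairOk_sound k22_23_9_5) (by decide) hn t22_23_9_5_12 _ _ (by decide +kernel)

/-- certificates of the pair `(9, 5)`, part 13 -/
def t22_23_9_5_13 : BlkD.Tr :=
  .S 1 10 (.L 6 9 [5, 3, 22, 22, 22, 22] [] [] 100000 0 0 1600000 100000 100000 100000 100000 0 0
    0) (.L 6 9 [5, 3, 22, 22, 22, 22] [264, 264, 264, 264, 264, 264] [] 100000 0 0 1600000 100000
    100000 100000 100000 0 0 0)

lemma s22_23_9_5_13 {n : ℕ} (hn : 7 ≤ n) : NoNd (d22_23_9_5.R : ℤ) d22_23_9_5.H n d22_23_9_5.a d22_23_9_5.b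
    (BlkD.inB (BlkD.upd (BlkD.upd (BlkD.upd (BlkD.upd (fun _ => 0) 0 3) 0 4) 1 6) 1 9)
      (BlkD.upd (BlkD.upd (BlkD.upd (BlkD.upd (fun _ => 23) 0 9) 2 5) 0 4) 1 11)) :=
  BlkD.tree_sound (BlkD.pairOk_sound k22_23_9_5) (by decide) hn t22_23_9_5_13 _ _ (by decide +kernel)

/-- certificates of the pair `(9, 5)`, part 14 -/
def t22_23_9_5_14 : BlkD.Tr :=
  .L 6 9 [5, 3, 22, 22, 22, 22] [] [] 100000 0 0 1600000 100000 100000 100000 100000 0 0 0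

lemma s22_23_9_5_14 {n : ℕ} (hn : 7 ≤ n) : NoNd (d22_23_9_5.R : ℤ) d22_23_9_5.H n d22_23_9_5.a d22_23_9_5.b
    (BlkD.inB (BlkD.upd (BlkD.upd (BlkD.upd (fun _ => 0) 0 3) 0 4) 1 12)
      (BlkD.upd (BlkD.upd (BlkD.upd (fun _ => 23) 0 9) 2 5) 0 4)) :=
  BlkD.tree_sound (BlkD.pairOk_sound k22_23_9_5) (by decide) hn t22_23_9_5_14 _ _ (by decide +kernel)

/-- certificates of the pair `(9, 5)`, part 15 -/
def t22_23_9_5_15 : BlkD.Tr :=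
  .L 6 9 [5, 3, 22, 22, 22, 22] [] [] 100000 0 0 1600000 100000 100000 100000 100000 0 0 0

lemma s22_23_9_5_15 {n : ℕ} (hn : 7 ≤ n) : NoNd (d22_23_9_5.R : ℤ) d22_23_9_5.H n d22_23_9_5.a d22_23_9_5.b
    (BlkD.inB (BlkD.upd (fun _ => 0) 0 5)
      (BlkD.upd (BlkD.upd (BlkD.upd (BlkD.upd (BlkD.upd (BlkD.upd (BlkD.upd (fun _ => 23) 0 9) 2 5) 0 7) 0 6) 0 5) 1 11) 1 5)) :=
  BlkD.tree_sound (BlkD.pairOk_sound k22_23_9_5) (by decide) hn t22_23_9_5_15 _ _ (by decide +kernel)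

/-- certificates of the pair `(9, 5)`, part 16 -/
def t22_23_9_5_16 : BlkD.Tr :=
  .S 1 8 (.L 6 9 [5, 3, 22, 22, 22, 22] [] [] 100000 0 0 1600000 100000 100000 100000 100000 0 0 0)
    (.L 6 9 [5, 3, 22, 22, 22, 22] [] [] 100000 0 0 1600000 100000 100000 100000 100000 0 0 0)

lemma s22_23_9_5_16 {n : ℕ} (hn : 7 ≤ n) : NoNd (d22_23_9_5.R : ℤ) d22_23_9_5.H n d22_23_9_5.a d22_23_9_5.b
    (BlkD.inB (BlkD.upd (BlkD.upd (fun _ => 0) 0 5) 1 6)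
      (BlkD.upd (BlkD.upd (BlkD.upd (BlkD.upd (BlkD.upd (BlkD.upd (fun _ => 23) 0 9) 2 5) 0 7) 0 6) 0 5) 1 11)) :=
  BlkD.tree_sound (BlkD.pairOk_sound k22_23_9_5) (by decide) hn t22_23_9_5_16 _ _ (by decide +kernel)

/-- certificates of the pair `(9, 5)`, part 17 -/
def t22_23_9_5_17 : BlkD.Tr :=
  .L 6 9 [5, 3, 22, 22, 22, 22] [] [] 100000 0 0 1600000 100000 100000 100000 100000 0 0 0

lemma s22_23_9_5_17 {n : ℕ} (hn : 7 ≤ n) : NoNd (d22_23_9_5.R : ℤ) d22_23_9_5.H n d22_23_9_5.a d22_23_9_5.b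
    (BlkD.inB (BlkD.upd (BlkD.upd (fun _ => 0) 0 5) 1 12)
      (BlkD.upd (BlkD.upd (BlkD.upd (BlkD.upd (BlkD.upd (fun _ => 23) 0 9) 2 5) 0 7) 0 6) 0 5)) :=
  BlkD.tree_sound (BlkD.pairOk_sound k22_23_9_5) (by decide) hn t22_23_9_5_17 _ _ (by decide +kernel)

/-- certificates of the pair `(9, 5)`, part 18 -/
def t22_23_9_5_18 : BlkD.Tr :=
  .S 1 11 (.S 1 5 (.L 6 9 [5, 3, 22, 22, 22, 22] [] [] 100000 0 0 1600000 100000 100000 100000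
    100000 0 0 0) (.L 6 9 [5, 3, 22, 22, 22, 22] [] [] 100000 0 0 1600000 100000 100000 100000
    100000 0 0 0)) (.L 6 9 [5, 3, 22, 22, 22, 22] [] [] 100000 0 0 1600000 100000 100000 100000
    100000 0 0 0)

lemma s22_23_9_5_18 {n : ℕ} (hn : 7 ≤ n) : NoNd (d22_23_9_5.R : ℤ) d22_23_9_5.H n d22_23_9_5.a d22_23_9_5.b
    (BlkD.inB (BlkD.upd (BlkD.upd (fun _ => 0) 0 5) 0 6)
      (BlkD.upd (BlkD.upd (BlkD.upd (BlkD.upd (fun _ => 23) 0 9) 2 5) 0 7) 0 6)) :=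
  BlkD.tree_sound (BlkD.pairOk_sound k22_23_9_5) (by decide) hn t22_23_9_5_18 _ _ (by decide +kernel)

/-- certificates of the pair `(9, 5)`, part 19 -/
def t22_23_9_5_19 : BlkD.Tr :=
  .L 6 9 [5, 3, 22, 22, 22, 22] [] [] 100000 0 0 1600000 100000 100000 100000 100000 0 0 0

lemma s22_23_9_5_19 {n : ℕ} (hn : 7 ≤ n) : NoNd (d22_23_9_5.R : ℤ) d22_23_9_5.H n d22_23_9_5.a d22_23_9_5.b
    (BlkD.inB (BlkD.upd (BlkD.upd (fun _ => 0) 0 5) 0 7)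
      (BlkD.upd (BlkD.upd (BlkD.upd (fun _ => 23) 0 9) 2 5) 0 7)) :=
  BlkD.tree_sound (BlkD.pairOk_sound k22_23_9_5) (by decide) hn t22_23_9_5_19 _ _ (by decide +kernel)

/-- certificates of the pair `(9, 5)`, part 20 -/
def t22_23_9_5_20 : BlkD.Tr :=
  .L 6 9 [5, 3, 22, 22, 22, 22] [] [] 100000 0 0 1600000 100000 100000 100000 100000 0 0 0

lemma s22_23_9_5_20 {n : ℕ} (hn : 7 ≤ n) : NoNd (d22_23_9_5.R : ℤ) d22_23_9_5.H n d22_23_9_5.a d22_23_9_5.b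
    (BlkD.inB (BlkD.upd (BlkD.upd (fun _ => 0) 0 5) 0 8)
      (BlkD.upd (BlkD.upd (fun _ => 23) 0 9) 2 5)) :=
  BlkD.tree_sound (BlkD.pairOk_sound k22_23_9_5) (by decide) hn t22_23_9_5_20 _ _ (by decide +kernel)

/-- certificates of the pair `(9, 5)`, part 21 -/
def t22_23_9_5_21 : BlkD.Tr :=
  .E 1

lemma s22_23_9_5_21 {n : ℕ} (hn : 7 ≤ n) : NoNd (d22_23_9_5.R : ℤ) d22_23_9_5.H n d22_23_9_5.a d22_23_9_5.b
    (BlkD.inB (BlkD.upd (fun _ => 0) 2 6)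
      (BlkD.upd (fun _ => 23) 0 9)) :=
  BlkD.tree_sound (BlkD.pairOk_sound k22_23_9_5) (by decide) hn t22_23_9_5_21 _ _ (by decide +kernel)

/-- certificates of the pair `(9, 5)`, part 22 -/
def t22_23_9_5_22 : BlkD.Tr :=
  .E 0

lemma s22_23_9_5_22 {n : ℕ} (hn : 7 ≤ n) : NoNd (d22_23_9_5.R : ℤ) d22_23_9_5.H n d22_23_9_5.a d22_23_9_5.b
    (BlkD.inB (BlkD.upd (fun _ => 0) 0 10)
      (fun _ => 23)) :=
  BlkD.tree_sound (BlkD.pairOk_sound k22_23_9_5) (by decide) hn t22_23_9_5_22 _ _ (by decide +kernel)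

lemma pr22_23_9_5 {n : ℕ} (hn : 7 ≤ n) : NoPr ((22 : ℕ) : ℤ) ((23 : ℕ) : ℤ) n 9 5 :=
  BlkD.of_root (R := d22_23_9_5.R) (H := d22_23_9_5.H) (a := d22_23_9_5.a) (b := d22_23_9_5.b) (q := 5) (by decide) hn
    (BlkD.sp 0 9 (BlkD.sp 2 5 (BlkD.sp 0 4 (BlkD.sp 0 2 (BlkD.sp 0 1 (BlkD.sp 0 0 (s22_23_9_5_1 hn)
      (BlkD.sp 1 11 (BlkD.sp 1 5 (s22_23_9_5_2 hn) (s22_23_9_5_3 hn)) (s22_23_9_5_4 hn))) (BlkD.sp
      1 11 (BlkD.sp 1 5 (s22_23_9_5_5 hn) (s22_23_9_5_6 hn)) (s22_23_9_5_7 hn))) (BlkD.sp 0 3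
      (BlkD.sp 1 11 (BlkD.sp 1 5 (s22_23_9_5_8 hn) (s22_23_9_5_9 hn)) (s22_23_9_5_10 hn)) (BlkD.sp
      1 11 (BlkD.sp 1 5 (s22_23_9_5_11 hn) (BlkD.sp 1 8 (s22_23_9_5_12 hn) (s22_23_9_5_13 hn)))
      (s22_23_9_5_14 hn)))) (BlkD.sp 0 7 (BlkD.sp 0 6 (BlkD.sp 0 5 (BlkD.sp 1 11 (BlkD.sp 1 5
      (s22_23_9_5_15 hn) (s22_23_9_5_16 hn)) (s22_23_9_5_17 hn)) (s22_23_9_5_18 hn)) (s22_23_9_5_19
      hn)) (s22_23_9_5_20 hn))) (s22_23_9_5_21 hn)) (s22_23_9_5_22 hn))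

end BlkC

end Pool.Agent.Lib.MP_f04ccf_co
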