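import Pool.Agent.Lib.MP_f04ccf_co.M.BlkT

/-!
MP_f04ccf_co, block certificate, data `R = 22`, `H = 23`, part 21 (generated, helper99:
bd10.cpp, gen2.py).
-/

set_option autoImplicit false
set_option maxRecDepth 100000

namespace Pool.Agent.Lib.MP_f04ccf_co

namespace BlkC

/-- the numbers of the pair `(9, 6)`, `R = 22`, `H = 23` -/
def d22_23_9_6 : BlkD.Pd :=
  ⟨22, 23, 5, 9, 6, 5, 0, 4, 0, 4, 4, 0, 0, 4, 4, 0, [0, 4, 8, 12, 16, 20], [0, 4, 8, 12, 16, 20],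
    [⟨1, 1, 1, 4, 8, [0, 4], [0, 4]⟩]⟩

lemma k22_23_9_6 : BlkD.pairOk d22_23_9_6 = true := by decide +kernel

/-- certificates of the pair `(9, 6)`, part 1 -/
def t22_23_9_6_1 : BlkD.Tr :=
  .L 4 4 [4, 22, 22, 22, 22, 22, 22] [] [] 100000 0 0 1700000 50000 50000 75000 50000 0 0 0

lemma s22_23_9_6_1 {n : ℕ} (hn : 7 ≤ n) : NoNd (d22_23_9_6.R : ℤ) d22_23_9_6.H n d22_23_9_6.a d22_23_9_6.b
    (BlkD.inB (fun _ => 0)
      (BlkD.upd (BlkD.upd (BlkD.upd (BlkD.upd (BlkD.upd (BlkD.upd (fun _ => 23) 0 9) 2 6) 0 4) 0 2) 0 1) 0 0)) :=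
  BlkD.tree_sound (BlkD.pairOk_sound k22_23_9_6) (by decide) hn t22_23_9_6_1 _ _ (by decide +kernel)

/-- certificates of the pair `(9, 6)`, part 2 -/
def t22_23_9_6_2 : BlkD.Tr :=
  .S 1 2 (.L 4 4 [4, 22, 22, 22, 22, 22, 22] [] [] 100000 0 0 1700000 50000 50000 75000 50000 0 0
    0) (.L 4 4 [4, 22, 22, 22, 22, 22, 22] [] [] 100000 0 0 1700000 50000 50000 75000 50000 0 0 0)

lemma s22_23_9_6_2 {n : ℕ} (hn : 7 ≤ n) : NoNd (d22_23_9_6.R : ℤ) d22_23_9_6.H n d22_23_9_6.a d22_23_9_6.b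
    (BlkD.inB (BlkD.upd (fun _ => 0) 0 1)
      (BlkD.upd (BlkD.upd (BlkD.upd (BlkD.upd (BlkD.upd (BlkD.upd (BlkD.upd (fun _ => 23) 0 9) 2 6) 0 4) 0 2) 0 1) 1 11) 1 5)) :=
  BlkD.tree_sound (BlkD.pairOk_sound k22_23_9_6) (by decide) hn t22_23_9_6_2 _ _ (by decide +kernel)

/-- certificates of the pair `(9, 6)`, part 3 -/
def t22_23_9_6_3 : BlkD.Tr :=
  .S 1 8 (.S 1 7 (.L 4 4 [4, 22, 22, 22, 22, 22, 22] [] [] 100000 0 0 1700000 50000 50000 75000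
    50000 0 0 0) (.L 4 4 [4, 22, 22, 22, 22, 22, 22] [148, 144, 140, 136, 132, 120] [] 100000 0 0
    1700000 50000 50000 75000 50000 0 0 0)) (.L 4 4 [4, 22, 22, 22, 22, 22, 22] [] [] 100000 0 0
    1700000 50000 50000 75000 50000 0 0 0)

lemma s22_23_9_6_3 {n : ℕ} (hn : 7 ≤ n) : NoNd (d22_23_9_6.R : ℤ) d22_23_9_6.H n d22_23_9_6.a d22_23_9_6.b
    (BlkD.inB (BlkD.upd (BlkD.upd (fun _ => 0) 0 1) 1 6)
      (BlkD.upd (BlkD.upd (BlkD.upd (BlkD.upd (BlkD.upd (BlkD.upd (fun _ => 23) 0 9) 2 6) 0 4) 0 2) 0 1) 1 11)) :=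
  BlkD.tree_sound (BlkD.pairOk_sound k22_23_9_6) (by decide) hn t22_23_9_6_3 _ _ (by decide +kernel)

/-- certificates of the pair `(9, 6)`, part 4 -/
def t22_23_9_6_4 : BlkD.Tr :=
  .L 4 4 [4, 22, 22, 22, 22, 22, 22] [] [] 100000 0 0 1700000 50000 50000 75000 50000 0 0 0

lemma s22_23_9_6_4 {n : ℕ} (hn : 7 ≤ n) : NoNd (d22_23_9_6.R : ℤ) d22_23_9_6.H n d22_23_9_6.a d22_23_9_6.b
    (BlkD.inB (BlkD.upd (BlkD.upd (fun _ => 0) 0 1) 1 12)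
      (BlkD.upd (BlkD.upd (BlkD.upd (BlkD.upd (BlkD.upd (fun _ => 23) 0 9) 2 6) 0 4) 0 2) 0 1)) :=
  BlkD.tree_sound (BlkD.pairOk_sound k22_23_9_6) (by decide) hn t22_23_9_6_4 _ _ (by decide +kernel)

/-- certificates of the pair `(9, 6)`, part 5 -/
def t22_23_9_6_5 : BlkD.Tr :=
  .S 1 2 (.L 4 4 [4, 22, 22, 22, 22, 22, 22] [] [] 100000 0 0 1700000 50000 50000 75000 50000 0 0
    0) (.L 4 4 [4, 22, 22, 22, 22, 22, 22] [] [] 100000 0 0 1700000 50000 50000 75000 50000 0 0 0)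

lemma s22_23_9_6_5 {n : ℕ} (hn : 7 ≤ n) : NoNd (d22_23_9_6.R : ℤ) d22_23_9_6.H n d22_23_9_6.a d22_23_9_6.b
    (BlkD.inB (BlkD.upd (fun _ => 0) 0 2)
      (BlkD.upd (BlkD.upd (BlkD.upd (BlkD.upd (BlkD.upd (BlkD.upd (fun _ => 23) 0 9) 2 6) 0 4) 0 2) 1 11) 1 5)) :=
  BlkD.tree_sound (BlkD.pairOk_sound k22_23_9_6) (by decide) hn t22_23_9_6_5 _ _ (by decide +kernel)

/-- certificates of the pair `(9, 6)`, part 6 -/
def t22_23_9_6_6 : BlkD.Tr :=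
  .S 1 7 (.L 4 4 [4, 22, 22, 22, 22, 22, 22] [] [] 100000 0 0 1700000 50000 50000 75000 50000 0 0
    0) (.L 4 4 [4, 22, 22, 22, 22, 22, 22] [164, 160, 156, 152, 148, 136] [] 100000 0 0 1700000
    50000 50000 75000 50000 0 0 0)

lemma s22_23_9_6_6 {n : ℕ} (hn : 7 ≤ n) : NoNd (d22_23_9_6.R : ℤ) d22_23_9_6.H n d22_23_9_6.a d22_23_9_6.b
    (BlkD.inB (BlkD.upd (BlkD.upd (fun _ => 0) 0 2) 1 6)
      (BlkD.upd (BlkD.upd (BlkD.upd (BlkD.upd (BlkD.upd (BlkD.upd (fun _ => 23) 0 9) 2 6) 0 4) 0 2) 1 11) 1 8)) :=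
  BlkD.tree_sound (BlkD.pairOk_sound k22_23_9_6) (by decide) hn t22_23_9_6_6 _ _ (by decide +kernel)

/-- certificates of the pair `(9, 6)`, part 7 -/
def t22_23_9_6_7 : BlkD.Tr :=
  .S 1 10 (.L 4 4 [4, 22, 22, 22, 22, 22, 22] [] [] 100000 0 0 1700000 50000 50000 75000 50000 0 0
    0) (.L 4 4 [4, 22, 22, 22, 22, 22, 22] [234, 234, 234, 230, 226, 222] [] 100000 0 0 1700000
    50000 50000 75000 50000 0 0 0)

lemma s22_23_9_6_7 {n : ℕ} (hn : 7 ≤ n) : NoNd (d22_23_9_6.R : ℤ) d22_23_9_6.H n d22_23_9_6.a d22_23_9_6.b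
    (BlkD.inB (BlkD.upd (BlkD.upd (BlkD.upd (fun _ => 0) 0 2) 1 6) 1 9)
      (BlkD.upd (BlkD.upd (BlkD.upd (BlkD.upd (BlkD.upd (fun _ => 23) 0 9) 2 6) 0 4) 0 2) 1 11)) :=
  BlkD.tree_sound (BlkD.pairOk_sound k22_23_9_6) (by decide) hn t22_23_9_6_7 _ _ (by decide +kernel)

/-- certificates of the pair `(9, 6)`, part 8 -/
def t22_23_9_6_8 : BlkD.Tr :=
  .S 1 17 (.S 1 14 (.S 1 13 (.L 4 4 [4, 22, 22, 22, 22, 22, 22] [] [] 100000 0 0 1700000 50000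
    50000 75000 50000 0 0 0) (.L 4 4 [4, 22, 22, 22, 22, 22, 22] [318, 318, 318, 318, 318, 318] []
    100000 0 0 1700000 50000 50000 75000 50000 0 0 0)) (.L 4 4 [4, 22, 22, 22, 22, 22, 22] [] []
    100000 0 0 1700000 50000 50000 75000 50000 0 0 0)) (.L 4 4 [4, 22, 22, 22, 22, 22, 22] [] []
    100000 0 0 1700000 50000 50000 75000 50000 0 0 0)

lemma s22_23_9_6_8 {n : ℕ} (hn : 7 ≤ n) : NoNd (d22_23_9_6.R : ℤ) d22_23_9_6.H n d22_23_9_6.a d22_23_9_6.b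
    (BlkD.inB (BlkD.upd (BlkD.upd (fun _ => 0) 0 2) 1 12)
      (BlkD.upd (BlkD.upd (BlkD.upd (BlkD.upd (fun _ => 23) 0 9) 2 6) 0 4) 0 2)) :=
  BlkD.tree_sound (BlkD.pairOk_sound k22_23_9_6) (by decide) hn t22_23_9_6_8 _ _ (by decide +kernel)

/-- certificates of the pair `(9, 6)`, part 9 -/
def t22_23_9_6_9 : BlkD.Tr :=
  .S 1 2 (.L 4 4 [4, 22, 22, 22, 22, 22, 22] [] [] 100000 0 0 1700000 50000 50000 75000 50000 0 0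
    0) (.L 4 4 [4, 22, 22, 22, 22, 22, 22] [] [] 100000 0 0 1700000 50000 50000 75000 50000 0 0 0)

lemma s22_23_9_6_9 {n : ℕ} (hn : 7 ≤ n) : NoNd (d22_23_9_6.R : ℤ) d22_23_9_6.H n d22_23_9_6.a d22_23_9_6.b
    (BlkD.inB (BlkD.upd (fun _ => 0) 0 3)
      (BlkD.upd (BlkD.upd (BlkD.upd (BlkD.upd (BlkD.upd (BlkD.upd (fun _ => 23) 0 9) 2 6) 0 4) 0 3) 1 11) 1 5)) :=
  BlkD.tree_sound (BlkD.pairOk_sound k22_23_9_6) (by decide) hn t22_23_9_6_9 _ _ (by decide +kernel)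

/-- certificates of the pair `(9, 6)`, part 10 -/
def t22_23_9_6_10 : BlkD.Tr :=
  .S 1 7 (.L 4 4 [4, 22, 22, 22, 22, 22, 22] [] [] 100000 0 0 1700000 50000 50000 75000 50000 0 0
    0) (.L 4 4 [4, 22, 22, 22, 22, 22, 22] [180, 176, 172, 168, 164, 152] [] 100000 0 0 1700000
    50000 50000 75000 50000 0 0 0)

lemma s22_23_9_6_10 {n : ℕ} (hn : 7 ≤ n) : NoNd (d22_23_9_6.R : ℤ) d22_23_9_6.H n d22_23_9_6.a d22_23_9_6.b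
    (BlkD.inB (BlkD.upd (BlkD.upd (fun _ => 0) 0 3) 1 6)
      (BlkD.upd (BlkD.upd (BlkD.upd (BlkD.upd (BlkD.upd (BlkD.upd (fun _ => 23) 0 9) 2 6) 0 4) 0 3) 1 11) 1 8)) :=
  BlkD.tree_sound (BlkD.pairOk_sound k22_23_9_6) (by decide) hn t22_23_9_6_10 _ _ (by decide +kernel)

/-- certificates of the pair `(9, 6)`, part 11 -/
def t22_23_9_6_11 : BlkD.Tr :=
  .S 2 3 (.L 4 4 [4, 22, 22, 22, 22, 22, 22] [206, 202, 198, 194, 190, 186] [] 100000 0 0 1700000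
    50000 50000 75000 50000 0 0 0) (.L 4 4 [4, 22, 22, 22, 22, 22, 22] [206, 202, 198, 194, 190,
    186] [] 100000 0 0 1700000 50000 50000 75000 50000 0 0 0)

lemma s22_23_9_6_11 {n : ℕ} (hn : 7 ≤ n) : NoNd (d22_23_9_6.R : ℤ) d22_23_9_6.H n d22_23_9_6.a d22_23_9_6.b
    (BlkD.inB (BlkD.upd (BlkD.upd (BlkD.upd (fun _ => 0) 0 3) 1 6) 1 9)
      (BlkD.upd (BlkD.upd (BlkD.upd (BlkD.upd (BlkD.upd (BlkD.upd (BlkD.upd (fun _ => 23) 0 9) 2 6) 0 4) 0 3) 1 11) 1 10) 1 9)) :=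
  BlkD.tree_sound (BlkD.pairOk_sound k22_23_9_6) (by decide) hn t22_23_9_6_11 _ _ (by decide +kernel)

/-- certificates of the pair `(9, 6)`, part 12 -/
def t22_23_9_6_12 : BlkD.Tr :=
  .S 2 3 (.S 2 1 (.L 4 4 [4, 22, 22, 22, 22, 22, 22] [230, 230, 226, 222, 218, 214] [] 100000 0 0
    1700000 50000 50000 75000 50000 0 0 0) (.L 4 4 [4, 22, 22, 22, 22, 22, 22] [230, 230, 226, 222,
    218, 214] [] 100000 0 0 1700000 50000 50000 75000 50000 0 0 0)) (.L 4 4 [4, 22, 22, 22, 22, 22,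
    22] [230, 230, 226, 222, 218, 214] [] 100000 0 0 1700000 50000 50000 75000 50000 0 0 0)

lemma s22_23_9_6_12 {n : ℕ} (hn : 7 ≤ n) : NoNd (d22_23_9_6.R : ℤ) d22_23_9_6.H n d22_23_9_6.a d22_23_9_6.b
    (BlkD.inB (BlkD.upd (BlkD.upd (BlkD.upd (BlkD.upd (fun _ => 0) 0 3) 1 6) 1 9) 1 10)
      (BlkD.upd (BlkD.upd (BlkD.upd (BlkD.upd (BlkD.upd (BlkD.upd (fun _ => 23) 0 9) 2 6) 0 4) 0 3) 1 11) 1 10)) :=
  BlkD.tree_sound (BlkD.pairOk_sound k22_23_9_6) (by decide) hn t22_23_9_6_12 _ _ (by decide +kernel)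

/-- certificates of the pair `(9, 6)`, part 13 -/
def t22_23_9_6_13 : BlkD.Tr :=
  .S 2 3 (.S 2 1 (.L 4 4 [4, 22, 22, 22, 22, 22, 22] [256, 256, 256, 252, 248, 244] [] 100000 0 0
    1700000 50000 50000 75000 50000 0 0 0) (.L 4 4 [4, 22, 22, 22, 22, 22, 22] [256, 256, 256, 252,
    248, 244] [] 100000 0 0 1700000 50000 50000 75000 50000 0 0 0)) (.L 4 4 [4, 22, 22, 22, 22, 22,
    22] [256, 256, 256, 252, 248, 244] [] 100000 0 0 1700000 50000 50000 75000 50000 0 0 0)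

lemma s22_23_9_6_13 {n : ℕ} (hn : 7 ≤ n) : NoNd (d22_23_9_6.R : ℤ) d22_23_9_6.H n d22_23_9_6.a d22_23_9_6.b
    (BlkD.inB (BlkD.upd (BlkD.upd (BlkD.upd (BlkD.upd (fun _ => 0) 0 3) 1 6) 1 9) 1 11)
      (BlkD.upd (BlkD.upd (BlkD.upd (BlkD.upd (BlkD.upd (fun _ => 23) 0 9) 2 6) 0 4) 0 3) 1 11)) :=
  BlkD.tree_sound (BlkD.pairOk_sound k22_23_9_6) (by decide) hn t22_23_9_6_13 _ _ (by decide +kernel)

/-- certificates of the pair `(9, 6)`, part 14 -/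
def t22_23_9_6_14 : BlkD.Tr :=
  .S 2 3 (.S 2 1 (.L 4 4 [4, 22, 22, 22, 22, 22, 22] [284, 284, 284, 284, 280, 276] [] 100000 0 0
    1700000 50000 50000 75000 50000 0 0 0) (.L 4 4 [4, 22, 22, 22, 22, 22, 22] [284, 284, 284, 284,
    280, 276] [] 100000 0 0 1700000 50000 50000 75000 50000 0 0 0)) (.L 4 4 [4, 22, 22, 22, 22, 22,
    22] [284, 284, 284, 284, 280, 276] [] 100000 0 0 1700000 50000 50000 75000 50000 0 0 0)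

lemma s22_23_9_6_14 {n : ℕ} (hn : 7 ≤ n) : NoNd (d22_23_9_6.R : ℤ) d22_23_9_6.H n d22_23_9_6.a d22_23_9_6.b
    (BlkD.inB (BlkD.upd (BlkD.upd (fun _ => 0) 0 3) 1 12)
      (BlkD.upd (BlkD.upd (BlkD.upd (BlkD.upd (BlkD.upd (BlkD.upd (BlkD.upd (BlkD.upd (fun _ => 23) 0 9) 2 6) 0 4) 0 3) 1 17) 1 14) 1 13) 1 12)) :=
  BlkD.tree_sound (BlkD.pairOk_sound k22_23_9_6) (by decide) hn t22_23_9_6_14 _ _ (by decide +kernel)

/-- certificates of the pair `(9, 6)`, part 15 -/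
def t22_23_9_6_15 : BlkD.Tr :=
  .L 4 4 [4, 22, 22, 22, 22, 22, 22] [314, 314, 314, 314, 314, 310] [] 100000 0 0 1700000 50000
    50000 75000 50000 0 0 0

lemma s22_23_9_6_15 {n : ℕ} (hn : 7 ≤ n) : NoNd (d22_23_9_6.R : ℤ) d22_23_9_6.H n d22_23_9_6.a d22_23_9_6.b
    (BlkD.inB (BlkD.upd (BlkD.upd (BlkD.upd (fun _ => 0) 0 3) 1 12) 1 13)
      (BlkD.upd (BlkD.upd (BlkD.upd (BlkD.upd (BlkD.upd (BlkD.upd (BlkD.upd (fun _ => 23) 0 9) 2 6) 0 4) 0 3) 1 17) 1 14) 1 13)) :=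
  BlkD.tree_sound (BlkD.pairOk_sound k22_23_9_6) (by decide) hn t22_23_9_6_15 _ _ (by decide +kernel)

/-- certificates of the pair `(9, 6)`, part 16 -/
def t22_23_9_6_16 : BlkD.Tr :=
  .L 4 4 [4, 22, 22, 22, 22, 22, 22] [346, 346, 346, 346, 346, 346] [] 100000 0 0 1700000 50000
    50000 75000 50000 0 0 0

lemma s22_23_9_6_16 {n : ℕ} (hn : 7 ≤ n) : NoNd (d22_23_9_6.R : ℤ) d22_23_9_6.H n d22_23_9_6.a d22_23_9_6.b
    (BlkD.inB (BlkD.upd (BlkD.upd (BlkD.upd (fun _ => 0) 0 3) 1 12) 1 14)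
      (BlkD.upd (BlkD.upd (BlkD.upd (BlkD.upd (BlkD.upd (BlkD.upd (fun _ => 23) 0 9) 2 6) 0 4) 0 3) 1 17) 1 14)) :=
  BlkD.tree_sound (BlkD.pairOk_sound k22_23_9_6) (by decide) hn t22_23_9_6_16 _ _ (by decide +kernel)

/-- certificates of the pair `(9, 6)`, part 17 -/
def t22_23_9_6_17 : BlkD.Tr :=
  .L 4 4 [4, 22, 22, 22, 22, 22, 22] [] [] 100000 0 0 1700000 50000 50000 75000 50000 0 0 0

lemma s22_23_9_6_17 {n : ℕ} (hn : 7 ≤ n) : NoNd (d22_23_9_6.R : ℤ) d22_23_9_6.H n d22_23_9_6.a d22_23_9_6.b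
    (BlkD.inB (BlkD.upd (BlkD.upd (BlkD.upd (fun _ => 0) 0 3) 1 12) 1 15)
      (BlkD.upd (BlkD.upd (BlkD.upd (BlkD.upd (BlkD.upd (fun _ => 23) 0 9) 2 6) 0 4) 0 3) 1 17)) :=
  BlkD.tree_sound (BlkD.pairOk_sound k22_23_9_6) (by decide) hn t22_23_9_6_17 _ _ (by decide +kernel)

/-- certificates of the pair `(9, 6)`, part 18 -/
def t22_23_9_6_18 : BlkD.Tr :=
  .L 4 4 [4, 22, 22, 22, 22, 22, 22] [] [] 100000 0 0 1700000 50000 50000 75000 50000 0 0 0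

lemma s22_23_9_6_18 {n : ℕ} (hn : 7 ≤ n) : NoNd (d22_23_9_6.R : ℤ) d22_23_9_6.H n d22_23_9_6.a d22_23_9_6.b
    (BlkD.inB (BlkD.upd (BlkD.upd (BlkD.upd (fun _ => 0) 0 3) 1 12) 1 18)
      (BlkD.upd (BlkD.upd (BlkD.upd (BlkD.upd (fun _ => 23) 0 9) 2 6) 0 4) 0 3)) :=
  BlkD.tree_sound (BlkD.pairOk_sound k22_23_9_6) (by decide) hn t22_23_9_6_18 _ _ (by decide +kernel)

/-- certificates of the pair `(9, 6)`, part 19 -/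
def t22_23_9_6_19 : BlkD.Tr :=
  .S 1 2 (.L 4 4 [4, 22, 22, 22, 22, 22, 22] [] [] 100000 0 0 1700000 50000 50000 75000 50000 0 0
    0) (.L 4 4 [4, 22, 22, 22, 22, 22, 22] [] [] 100000 0 0 1700000 50000 50000 75000 50000 0 0 0)

lemma s22_23_9_6_19 {n : ℕ} (hn : 7 ≤ n) : NoNd (d22_23_9_6.R : ℤ) d22_23_9_6.H n d22_23_9_6.a d22_23_9_6.b
    (BlkD.inB (BlkD.upd (BlkD.upd (fun _ => 0) 0 3) 0 4)
      (BlkD.upd (BlkD.upd (BlkD.upd (BlkD.upd (BlkD.upd (fun _ => 23) 0 9) 2 6) 0 4) 1 11) 1 5)) :=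
  BlkD.tree_sound (BlkD.pairOk_sound k22_23_9_6) (by decide) hn t22_23_9_6_19 _ _ (by decide +kernel)

/-- certificates of the pair `(9, 6)`, part 20 -/
def t22_23_9_6_20 : BlkD.Tr :=
  .S 1 6 (.L 4 4 [4, 22, 22, 22, 22, 22, 22] [146, 142, 138, 126, 112, 94] [] 100000 0 0 1700000
    50000 50000 75000 50000 0 0 0) (.L 4 4 [4, 22, 22, 22, 22, 22, 22] [170, 166, 162, 158, 146,
    132] [] 100000 0 0 1700000 50000 50000 75000 50000 0 0 0)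

lemma s22_23_9_6_20 {n : ℕ} (hn : 7 ≤ n) : NoNd (d22_23_9_6.R : ℤ) d22_23_9_6.H n d22_23_9_6.a d22_23_9_6.b
    (BlkD.inB (BlkD.upd (BlkD.upd (BlkD.upd (fun _ => 0) 0 3) 0 4) 1 6)
      (BlkD.upd (BlkD.upd (BlkD.upd (BlkD.upd (BlkD.upd (BlkD.upd (fun _ => 23) 0 9) 2 6) 0 4) 1 11) 1 8) 1 7)) :=
  BlkD.tree_sound (BlkD.pairOk_sound k22_23_9_6) (by decide) hn t22_23_9_6_20 _ _ (by decide +kernel)

/-- certificates of the pair `(9, 6)`, part 21 -/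
def t22_23_9_6_21 : BlkD.Tr :=
  .S 2 3 (.S 2 1 (.L 4 4 [4, 22, 22, 22, 22, 22, 22] [196, 192, 188, 184, 180, 168] [] 100000 0 0
    1700000 50000 50000 75000 50000 0 0 0) (.L 4 4 [4, 22, 22, 22, 22, 22, 22] [196, 192, 188, 184,
    180, 168] [] 100000 0 0 1700000 50000 50000 75000 50000 0 0 0)) (.L 4 4 [4, 22, 22, 22, 22, 22,
    22] [196, 192, 188, 184, 180, 168] [] 100000 0 0 1700000 50000 50000 75000 50000 0 0 0)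

lemma s22_23_9_6_21 {n : ℕ} (hn : 7 ≤ n) : NoNd (d22_23_9_6.R : ℤ) d22_23_9_6.H n d22_23_9_6.a d22_23_9_6.b
    (BlkD.inB (BlkD.upd (BlkD.upd (BlkD.upd (BlkD.upd (fun _ => 0) 0 3) 0 4) 1 6) 1 8)
      (BlkD.upd (BlkD.upd (BlkD.upd (BlkD.upd (BlkD.upd (fun _ => 23) 0 9) 2 6) 0 4) 1 11) 1 8)) :=
  BlkD.tree_sound (BlkD.pairOk_sound k22_23_9_6) (by decide) hn t22_23_9_6_21 _ _ (by decide +kernel)

/-- certificates of the pair `(9, 6)`, part 22 -/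
def t22_23_9_6_22 : BlkD.Tr :=
  .L 4 4 [4, 22, 22, 22, 22, 22, 22] [224, 220, 216, 212, 208, 204] [] 100000 0 0 1700000 50000
    50000 75000 50000 0 0 0

lemma s22_23_9_6_22 {n : ℕ} (hn : 7 ≤ n) : NoNd (d22_23_9_6.R : ℤ) d22_23_9_6.H n d22_23_9_6.a d22_23_9_6.b
    (BlkD.inB (BlkD.upd (BlkD.upd (BlkD.upd (BlkD.upd (fun _ => 0) 0 3) 0 4) 1 6) 1 9)
      (BlkD.upd (BlkD.upd (BlkD.upd (BlkD.upd (BlkD.upd (BlkD.upd (BlkD.upd (BlkD.upd (fun _ => 23) 0 9) 2 6) 0 4) 1 11) 1 10) 1 9) 2 3) 2 1)) :=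
  BlkD.tree_sound (BlkD.pairOk_sound k22_23_9_6) (by decide) hn t22_23_9_6_22 _ _ (by decide +kernel)

/-- certificates of the pair `(9, 6)`, part 23 -/
def t22_23_9_6_23 : BlkD.Tr :=
  .S 2 2 (.L 4 4 [4, 22, 22, 22, 22, 22, 22] [224, 220, 216, 212, 208, 204] [] 100000 0 0 1700000
    50000 50000 75000 50000 0 0 0) (.L 4 4 [4, 22, 22, 22, 22, 22, 22] [224, 220, 216, 212, 208,
    204] [] 100000 0 0 1700000 50000 50000 75000 50000 0 0 0)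

lemma s22_23_9_6_23 {n : ℕ} (hn : 7 ≤ n) : NoNd (d22_23_9_6.R : ℤ) d22_23_9_6.H n d22_23_9_6.a d22_23_9_6.b
    (BlkD.inB (BlkD.upd (BlkD.upd (BlkD.upd (BlkD.upd (BlkD.upd (fun _ => 0) 0 3) 0 4) 1 6) 1 9) 2 2)
      (BlkD.upd (BlkD.upd (BlkD.upd (BlkD.upd (BlkD.upd (BlkD.upd (BlkD.upd (fun _ => 23) 0 9) 2 6) 0 4) 1 11) 1 10) 1 9) 2 3)) :=
  BlkD.tree_sound (BlkD.pairOk_sound k22_23_9_6) (by decide) hn t22_23_9_6_23 _ _ (by decide +kernel)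

/-- certificates of the pair `(9, 6)`, part 24 -/
def t22_23_9_6_24 : BlkD.Tr :=
  .L 4 4 [4, 22, 22, 22, 22, 22, 22] [224, 220, 216, 212, 208, 204] [] 100000 0 0 1700000 50000
    50000 75000 50000 0 0 0

lemma s22_23_9_6_24 {n : ℕ} (hn : 7 ≤ n) : NoNd (d22_23_9_6.R : ℤ) d22_23_9_6.H n d22_23_9_6.a d22_23_9_6.b
    (BlkD.inB (BlkD.upd (BlkD.upd (BlkD.upd (BlkD.upd (BlkD.upd (fun _ => 0) 0 3) 0 4) 1 6) 1 9) 2 4)
      (BlkD.upd (BlkD.upd (BlkD.upd (BlkD.upd (BlkD.upd (BlkD.upd (fun _ => 23) 0 9) 2 6) 0 4) 1 11) 1 10) 1 9)) :=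
  BlkD.tree_sound (BlkD.pairOk_sound k22_23_9_6) (by decide) hn t22_23_9_6_24 _ _ (by decide +kernel)

/-- certificates of the pair `(9, 6)`, part 25 -/
def t22_23_9_6_25 : BlkD.Tr :=
  .L 4 4 [4, 22, 22, 22, 22, 22, 22] [250, 250, 246, 242, 238, 234] [] 100000 0 0 1700000 50000
    50000 75000 50000 0 0 0

lemma s22_23_9_6_25 {n : ℕ} (hn : 7 ≤ n) : NoNd (d22_23_9_6.R : ℤ) d22_23_9_6.H n d22_23_9_6.a d22_23_9_6.b
    (BlkD.inB (BlkD.upd (BlkD.upd (BlkD.upd (BlkD.upd (BlkD.upd (fun _ => 0) 0 3) 0 4) 1 6) 1 9) 1 10)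
      (BlkD.upd (BlkD.upd (BlkD.upd (BlkD.upd (BlkD.upd (BlkD.upd (BlkD.upd (fun _ => 23) 0 9) 2 6) 0 4) 1 11) 1 10) 2 3) 2 1)) :=
  BlkD.tree_sound (BlkD.pairOk_sound k22_23_9_6) (by decide) hn t22_23_9_6_25 _ _ (by decide +kernel)

/-- certificates of the pair `(9, 6)`, part 26 -/
def t22_23_9_6_26 : BlkD.Tr :=
  .S 2 2 (.L 4 4 [4, 22, 22, 22, 22, 22, 22] [250, 250, 246, 242, 238, 234] [] 100000 0 0 1700000
    50000 50000 75000 50000 0 0 0) (.L 4 4 [4, 22, 22, 22, 22, 22, 22] [250, 250, 246, 242, 238,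
    234] [] 100000 0 0 1700000 50000 50000 75000 50000 0 0 0)

lemma s22_23_9_6_26 {n : ℕ} (hn : 7 ≤ n) : NoNd (d22_23_9_6.R : ℤ) d22_23_9_6.H n d22_23_9_6.a d22_23_9_6.b
    (BlkD.inB (BlkD.upd (BlkD.upd (BlkD.upd (BlkD.upd (BlkD.upd (BlkD.upd (fun _ => 0) 0 3) 0 4) 1 6) 1 9) 1 10) 2 2)
      (BlkD.upd (BlkD.upd (BlkD.upd (BlkD.upd (BlkD.upd (BlkD.upd (fun _ => 23) 0 9) 2 6) 0 4) 1 11) 1 10) 2 3)) :=
  BlkD.tree_sound (BlkD.pairOk_sound k22_23_9_6) (by decide) hn t22_23_9_6_26 _ _ (by decide +kernel)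

/-- certificates of the pair `(9, 6)`, part 27 -/
def t22_23_9_6_27 : BlkD.Tr :=
  .L 4 4 [4, 22, 22, 22, 22, 22, 22] [250, 250, 246, 242, 238, 234] [] 100000 0 0 1700000 50000
    50000 75000 50000 0 0 0

lemma s22_23_9_6_27 {n : ℕ} (hn : 7 ≤ n) : NoNd (d22_23_9_6.R : ℤ) d22_23_9_6.H n d22_23_9_6.a d22_23_9_6.b
    (BlkD.inB (BlkD.upd (BlkD.upd (BlkD.upd (BlkD.upd (BlkD.upd (BlkD.upd (fun _ => 0) 0 3) 0 4) 1 6) 1 9) 1 10) 2 4)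
      (BlkD.upd (BlkD.upd (BlkD.upd (BlkD.upd (BlkD.upd (fun _ => 23) 0 9) 2 6) 0 4) 1 11) 1 10)) :=
  BlkD.tree_sound (BlkD.pairOk_sound k22_23_9_6) (by decide) hn t22_23_9_6_27 _ _ (by decide +kernel)

/-- certificates of the pair `(9, 6)`, part 28 -/
def t22_23_9_6_28 : BlkD.Tr :=
  .S 2 3 (.S 2 1 (.L 4 4 [4, 22, 22, 22, 22, 22, 22] [278, 278, 278, 274, 270, 266] [] 100000 0 0
    1700000 50000 50000 75000 50000 0 0 0) (.L 4 4 [4, 22, 22, 22, 22, 22, 22] [278, 278, 278, 274,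
    270, 266] [] 100000 0 0 1700000 50000 50000 75000 50000 0 0 0)) (.L 4 4 [4, 22, 22, 22, 22, 22,
    22] [278, 278, 278, 274, 270, 266] [] 100000 0 0 1700000 50000 50000 75000 50000 0 0 0)

lemma s22_23_9_6_28 {n : ℕ} (hn : 7 ≤ n) : NoNd (d22_23_9_6.R : ℤ) d22_23_9_6.H n d22_23_9_6.a d22_23_9_6.b
    (BlkD.inB (BlkD.upd (BlkD.upd (BlkD.upd (BlkD.upd (BlkD.upd (fun _ => 0) 0 3) 0 4) 1 6) 1 9) 1 11)
      (BlkD.upd (BlkD.upd (BlkD.upd (BlkD.upd (fun _ => 23) 0 9) 2 6) 0 4) 1 11)) :=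
  BlkD.tree_sound (BlkD.pairOk_sound k22_23_9_6) (by decide) hn t22_23_9_6_28 _ _ (by decide +kernel)

/-- certificates of the pair `(9, 6)`, part 29 -/
def t22_23_9_6_29 : BlkD.Tr :=
  .S 2 3 (.S 2 1 (.L 4 4 [4, 22, 22, 22, 22, 22, 22] [308, 308, 308, 308, 304, 300] [] 100000 0 0
    1700000 50000 50000 75000 50000 0 0 0) (.L 4 4 [4, 22, 22, 22, 22, 22, 22] [308, 308, 308, 308,
    304, 300] [] 100000 0 0 1700000 50000 50000 75000 50000 0 0 0)) (.L 4 4 [4, 22, 22, 22, 22, 22,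
    22] [308, 308, 308, 308, 304, 300] [] 100000 0 0 1700000 50000 50000 75000 50000 0 0 0)

lemma s22_23_9_6_29 {n : ℕ} (hn : 7 ≤ n) : NoNd (d22_23_9_6.R : ℤ) d22_23_9_6.H n d22_23_9_6.a d22_23_9_6.b
    (BlkD.inB (BlkD.upd (BlkD.upd (BlkD.upd (fun _ => 0) 0 3) 0 4) 1 12)
      (BlkD.upd (BlkD.upd (BlkD.upd (BlkD.upd (BlkD.upd (BlkD.upd (BlkD.upd (fun _ => 23) 0 9) 2 6) 0 4) 1 17) 1 14) 1 13) 1 12)) :=
  BlkD.tree_sound (BlkD.pairOk_sound k22_23_9_6) (by decide) hn t22_23_9_6_29 _ _ (by decide +kernel)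

/-- certificates of the pair `(9, 6)`, part 30 -/
def t22_23_9_6_30 : BlkD.Tr :=
  .L 4 4 [4, 22, 22, 22, 22, 22, 22] [340, 340, 340, 340, 340, 336] [] 100000 0 0 1700000 50000
    50000 75000 50000 0 0 0

lemma s22_23_9_6_30 {n : ℕ} (hn : 7 ≤ n) : NoNd (d22_23_9_6.R : ℤ) d22_23_9_6.H n d22_23_9_6.a d22_23_9_6.b
    (BlkD.inB (BlkD.upd (BlkD.upd (BlkD.upd (BlkD.upd (fun _ => 0) 0 3) 0 4) 1 12) 1 13)
      (BlkD.upd (BlkD.upd (BlkD.upd (BlkD.upd (BlkD.upd (BlkD.upd (fun _ => 23) 0 9) 2 6) 0 4) 1 17) 1 14) 1 13)) :=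
  BlkD.tree_sound (BlkD.pairOk_sound k22_23_9_6) (by decide) hn t22_23_9_6_30 _ _ (by decide +kernel)

/-- certificates of the pair `(9, 6)`, part 31 -/
def t22_23_9_6_31 : BlkD.Tr :=
  .L 4 4 [4, 22, 22, 22, 22, 22, 22] [374, 374, 374, 374, 374, 374] [] 100000 0 0 1700000 50000
    50000 75000 50000 0 0 0

lemma s22_23_9_6_31 {n : ℕ} (hn : 7 ≤ n) : NoNd (d22_23_9_6.R : ℤ) d22_23_9_6.H n d22_23_9_6.a d22_23_9_6.b
    (BlkD.inB (BlkD.upd (BlkD.upd (BlkD.upd (BlkD.upd (fun _ => 0) 0 3) 0 4) 1 12) 1 14)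
      (BlkD.upd (BlkD.upd (BlkD.upd (BlkD.upd (BlkD.upd (fun _ => 23) 0 9) 2 6) 0 4) 1 17) 1 14)) :=
  BlkD.tree_sound (BlkD.pairOk_sound k22_23_9_6) (by decide) hn t22_23_9_6_31 _ _ (by decide +kernel)

/-- certificates of the pair `(9, 6)`, part 32 -/
def t22_23_9_6_32 : BlkD.Tr :=
  .L 4 4 [4, 22, 22, 22, 22, 22, 22] [] [] 100000 0 0 1700000 50000 50000 75000 50000 0 0 0

lemma s22_23_9_6_32 {n : ℕ} (hn : 7 ≤ n) : NoNd (d22_23_9_6.R : ℤ) d22_23_9_6.H n d22_23_9_6.a d22_23_9_6.b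
    (BlkD.inB (BlkD.upd (BlkD.upd (BlkD.upd (BlkD.upd (fun _ => 0) 0 3) 0 4) 1 12) 1 15)
      (BlkD.upd (BlkD.upd (BlkD.upd (BlkD.upd (fun _ => 23) 0 9) 2 6) 0 4) 1 17)) :=
  BlkD.tree_sound (BlkD.pairOk_sound k22_23_9_6) (by decide) hn t22_23_9_6_32 _ _ (by decide +kernel)

/-- certificates of the pair `(9, 6)`, part 33 -/
def t22_23_9_6_33 : BlkD.Tr :=
  .L 4 4 [4, 22, 22, 22, 22, 22, 22] [] [] 100000 0 0 1700000 50000 50000 75000 50000 0 0 0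

lemma s22_23_9_6_33 {n : ℕ} (hn : 7 ≤ n) : NoNd (d22_23_9_6.R : ℤ) d22_23_9_6.H n d22_23_9_6.a d22_23_9_6.b
    (BlkD.inB (BlkD.upd (BlkD.upd (BlkD.upd (BlkD.upd (fun _ => 0) 0 3) 0 4) 1 12) 1 18)
      (BlkD.upd (BlkD.upd (BlkD.upd (fun _ => 23) 0 9) 2 6) 0 4)) :=
  BlkD.tree_sound (BlkD.pairOk_sound k22_23_9_6) (by decide) hn t22_23_9_6_33 _ _ (by decide +kernel)

/-- certificates of the pair `(9, 6)`, part 34 -/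
def t22_23_9_6_34 : BlkD.Tr :=
  .S 1 2 (.L 4 4 [4, 22, 22, 22, 22, 22, 22] [] [] 100000 0 0 1700000 50000 50000 75000 50000 0 0
    0) (.S 1 4 (.L 4 4 [4, 22, 22, 22, 22, 22, 22] [] [] 100000 0 0 1700000 50000 50000 75000 50000
    0 0 0) (.L 4 4 [4, 22, 22, 22, 22, 22, 22] [134, 130, 118, 104, 86, 70] [] 100000 0 0 1700000
    50000 50000 75000 50000 0 0 0))

lemma s22_23_9_6_34 {n : ℕ} (hn : 7 ≤ n) : NoNd (d22_23_9_6.R : ℤ) d22_23_9_6.H n d22_23_9_6.a d22_23_9_6.b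
    (BlkD.inB (BlkD.upd (fun _ => 0) 0 5)
      (BlkD.upd (BlkD.upd (BlkD.upd (BlkD.upd (BlkD.upd (BlkD.upd (BlkD.upd (fun _ => 23) 0 9) 2 6) 0 7) 0 6) 0 5) 1 11) 1 5)) :=
  BlkD.tree_sound (BlkD.pairOk_sound k22_23_9_6) (by decide) hn t22_23_9_6_34 _ _ (by decide +kernel)

/-- certificates of the pair `(9, 6)`, part 35 -/
def t22_23_9_6_35 : BlkD.Tr :=
  .L 4 4 [4, 22, 22, 22, 22, 22, 22] [158, 154, 150, 138, 124, 106] [] 100000 0 0 1700000 50000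
    50000 75000 50000 0 0 0

lemma s22_23_9_6_35 {n : ℕ} (hn : 7 ≤ n) : NoNd (d22_23_9_6.R : ℤ) d22_23_9_6.H n d22_23_9_6.a d22_23_9_6.b
    (BlkD.inB (BlkD.upd (BlkD.upd (fun _ => 0) 0 5) 1 6)
      (BlkD.upd (BlkD.upd (BlkD.upd (BlkD.upd (BlkD.upd (BlkD.upd (BlkD.upd (BlkD.upd (BlkD.upd (fun _ => 23) 0 9) 2 6) 0 7) 0 6) 0 5) 1 11) 1 8) 1 7) 1 6)) :=
  BlkD.tree_sound (BlkD.pairOk_sound k22_23_9_6) (by decide) hn t22_23_9_6_35 _ _ (by decide +kernel)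

/-- certificates of the pair `(9, 6)`, part 36 -/
def t22_23_9_6_36 : BlkD.Tr :=
  .S 2 3 (.S 2 1 (.L 4 4 [4, 22, 22, 22, 22, 22, 22] [184, 180, 176, 172, 160, 146] [] 100000 0 0
    1700000 50000 50000 75000 50000 0 0 0) (.L 4 4 [4, 22, 22, 22, 22, 22, 22] [184, 180, 176, 172,
    160, 146] [] 100000 0 0 1700000 50000 50000 75000 50000 0 0 0)) (.L 4 4 [4, 22, 22, 22, 22, 22,
    22] [184, 180, 176, 172, 160, 146] [] 100000 0 0 1700000 50000 50000 75000 50000 0 0 0)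

lemma s22_23_9_6_36 {n : ℕ} (hn : 7 ≤ n) : NoNd (d22_23_9_6.R : ℤ) d22_23_9_6.H n d22_23_9_6.a d22_23_9_6.b
    (BlkD.inB (BlkD.upd (BlkD.upd (BlkD.upd (fun _ => 0) 0 5) 1 6) 1 7)
      (BlkD.upd (BlkD.upd (BlkD.upd (BlkD.upd (BlkD.upd (BlkD.upd (BlkD.upd (BlkD.upd (fun _ => 23) 0 9) 2 6) 0 7) 0 6) 0 5) 1 11) 1 8) 1 7)) :=
  BlkD.tree_sound (BlkD.pairOk_sound k22_23_9_6) (by decide) hn t22_23_9_6_36 _ _ (by decide +kernel)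

/-- certificates of the pair `(9, 6)`, part 37 -/
def t22_23_9_6_37 : BlkD.Tr :=
  .S 2 1 (.L 4 4 [4, 22, 22, 22, 22, 22, 22] [212, 208, 204, 200, 196, 184] [] 100000 0 0 1700000
    50000 50000 75000 50000 0 0 0) (.S 2 2 (.L 4 4 [4, 22, 22, 22, 22, 22, 22] [212, 208, 204, 200,
    196, 184] [] 100000 0 0 1700000 50000 50000 75000 50000 0 0 0) (.L 4 4 [4, 22, 22, 22, 22, 22,
    22] [212, 208, 204, 200, 196, 184] [] 100000 0 0 1700000 50000 50000 75000 50000 0 0 0))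

lemma s22_23_9_6_37 {n : ℕ} (hn : 7 ≤ n) : NoNd (d22_23_9_6.R : ℤ) d22_23_9_6.H n d22_23_9_6.a d22_23_9_6.b
    (BlkD.inB (BlkD.upd (BlkD.upd (BlkD.upd (fun _ => 0) 0 5) 1 6) 1 8)
      (BlkD.upd (BlkD.upd (BlkD.upd (BlkD.upd (BlkD.upd (BlkD.upd (BlkD.upd (BlkD.upd (fun _ => 23) 0 9) 2 6) 0 7) 0 6) 0 5) 1 11) 1 8) 2 3)) :=
  BlkD.tree_sound (BlkD.pairOk_sound k22_23_9_6) (by decide) hn t22_23_9_6_37 _ _ (by decide +kernel)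

/-- certificates of the pair `(9, 6)`, part 38 -/
def t22_23_9_6_38 : BlkD.Tr :=
  .L 4 4 [4, 22, 22, 22, 22, 22, 22] [212, 208, 204, 200, 196, 184] [] 100000 0 0 1700000 50000
    50000 75000 50000 0 0 0

lemma s22_23_9_6_38 {n : ℕ} (hn : 7 ≤ n) : NoNd (d22_23_9_6.R : ℤ) d22_23_9_6.H n d22_23_9_6.a d22_23_9_6.b
    (BlkD.inB (BlkD.upd (BlkD.upd (BlkD.upd (BlkD.upd (fun _ => 0) 0 5) 1 6) 1 8) 2 4)
      (BlkD.upd (BlkD.upd (BlkD.upd (BlkD.upd (BlkD.upd (BlkD.upd (BlkD.upd (fun _ => 23) 0 9) 2 6) 0 7) 0 6) 0 5) 1 11) 1 8)) :=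
  BlkD.tree_sound (BlkD.pairOk_sound k22_23_9_6) (by decide) hn t22_23_9_6_38 _ _ (by decide +kernel)

/-- certificates of the pair `(9, 6)`, part 39 -/
def t22_23_9_6_39 : BlkD.Tr :=
  .S 2 3 (.S 2 1 (.L 4 4 [4, 22, 22, 22, 22, 22, 22] [242, 238, 234, 230, 226, 222] [] 100000 0 0
    1700000 50000 50000 75000 50000 0 0 0) (.L 4 4 [4, 22, 22, 22, 22, 22, 22] [242, 238, 234, 230,
    226, 222] [] 100000 0 0 1700000 50000 50000 75000 50000 0 0 0)) (.L 4 4 [4, 22, 22, 22, 22, 22,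
    22] [242, 238, 234, 230, 226, 222] [] 100000 0 0 1700000 50000 50000 75000 50000 0 0 0)

lemma s22_23_9_6_39 {n : ℕ} (hn : 7 ≤ n) : NoNd (d22_23_9_6.R : ℤ) d22_23_9_6.H n d22_23_9_6.a d22_23_9_6.b
    (BlkD.inB (BlkD.upd (BlkD.upd (BlkD.upd (fun _ => 0) 0 5) 1 6) 1 9)
      (BlkD.upd (BlkD.upd (BlkD.upd (BlkD.upd (BlkD.upd (BlkD.upd (BlkD.upd (BlkD.upd (fun _ => 23) 0 9) 2 6) 0 7) 0 6) 0 5) 1 11) 1 10) 1 9)) :=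
  BlkD.tree_sound (BlkD.pairOk_sound k22_23_9_6) (by decide) hn t22_23_9_6_39 _ _ (by decide +kernel)

/-- certificates of the pair `(9, 6)`, part 40 -/
def t22_23_9_6_40 : BlkD.Tr :=
  .S 2 3 (.S 2 1 (.L 4 4 [4, 22, 22, 22, 22, 22, 22] [270, 270, 266, 262, 258, 254] [] 100000 0 0
    1700000 50000 50000 75000 50000 0 0 0) (.L 4 4 [4, 22, 22, 22, 22, 22, 22] [270, 270, 266, 262,
    258, 254] [] 100000 0 0 1700000 50000 50000 75000 50000 0 0 0)) (.L 4 4 [4, 22, 22, 22, 22, 22,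
    22] [270, 270, 266, 262, 258, 254] [] 100000 0 0 1700000 50000 50000 75000 50000 0 0 0)

lemma s22_23_9_6_40 {n : ℕ} (hn : 7 ≤ n) : NoNd (d22_23_9_6.R : ℤ) d22_23_9_6.H n d22_23_9_6.a d22_23_9_6.b
    (BlkD.inB (BlkD.upd (BlkD.upd (BlkD.upd (BlkD.upd (fun _ => 0) 0 5) 1 6) 1 9) 1 10)
      (BlkD.upd (BlkD.upd (BlkD.upd (BlkD.upd (BlkD.upd (BlkD.upd (BlkD.upd (fun _ => 23) 0 9) 2 6) 0 7) 0 6) 0 5) 1 11) 1 10)) :=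
  BlkD.tree_sound (BlkD.pairOk_sound k22_23_9_6) (by decide) hn t22_23_9_6_40 _ _ (by decide +kernel)

/-- certificates of the pair `(9, 6)`, part 41 -/
def t22_23_9_6_41 : BlkD.Tr :=
  .L 4 4 [4, 22, 22, 22, 22, 22, 22] [300, 300, 300, 296, 292, 288] [] 100000 0 0 1700000 50000
    50000 75000 50000 0 0 0

lemma s22_23_9_6_41 {n : ℕ} (hn : 7 ≤ n) : NoNd (d22_23_9_6.R : ℤ) d22_23_9_6.H n d22_23_9_6.a d22_23_9_6.b
    (BlkD.inB (BlkD.upd (BlkD.upd (BlkD.upd (BlkD.upd (fun _ => 0) 0 5) 1 6) 1 9) 1 11)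
      (BlkD.upd (BlkD.upd (BlkD.upd (BlkD.upd (BlkD.upd (BlkD.upd (fun _ => 23) 0 9) 2 6) 0 7) 0 6) 0 5) 1 11)) :=
  BlkD.tree_sound (BlkD.pairOk_sound k22_23_9_6) (by decide) hn t22_23_9_6_41 _ _ (by decide +kernel)

/-- certificates of the pair `(9, 6)`, part 42 -/
def t22_23_9_6_42 : BlkD.Tr :=
  .L 4 4 [4, 22, 22, 22, 22, 22, 22] [] [] 100000 0 0 1700000 50000 50000 75000 50000 0 0 0

lemma s22_23_9_6_42 {n : ℕ} (hn : 7 ≤ n) : NoNd (d22_23_9_6.R : ℤ) d22_23_9_6.H n d22_23_9_6.a d22_23_9_6.b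
    (BlkD.inB (BlkD.upd (BlkD.upd (fun _ => 0) 0 5) 1 12)
      (BlkD.upd (BlkD.upd (BlkD.upd (BlkD.upd (BlkD.upd (fun _ => 23) 0 9) 2 6) 0 7) 0 6) 0 5)) :=
  BlkD.tree_sound (BlkD.pairOk_sound k22_23_9_6) (by decide) hn t22_23_9_6_42 _ _ (by decide +kernel)

/-- certificates of the pair `(9, 6)`, part 43 -/
def t22_23_9_6_43 : BlkD.Tr :=
  .S 1 2 (.L 4 4 [4, 22, 22, 22, 22, 22, 22] [] [] 100000 0 0 1700000 50000 50000 75000 50000 0 0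
    0) (.S 1 4 (.L 4 4 [4, 22, 22, 22, 22, 22, 22] [] [] 100000 0 0 1700000 50000 50000 75000 50000
    0 0 0) (.L 4 4 [4, 22, 22, 22, 22, 22, 22] [144, 140, 128, 114, 96, 80] [] 100000 0 0 1700000
    50000 50000 75000 50000 0 0 0))

lemma s22_23_9_6_43 {n : ℕ} (hn : 7 ≤ n) : NoNd (d22_23_9_6.R : ℤ) d22_23_9_6.H n d22_23_9_6.a d22_23_9_6.b
    (BlkD.inB (BlkD.upd (BlkD.upd (fun _ => 0) 0 5) 0 6)
      (BlkD.upd (BlkD.upd (BlkD.upd (BlkD.upd (BlkD.upd (BlkD.upd (fun _ => 23) 0 9) 2 6) 0 7) 0 6) 1 11) 1 5)) :=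
  BlkD.tree_sound (BlkD.pairOk_sound k22_23_9_6) (by decide) hn t22_23_9_6_43 _ _ (by decide +kernel)

/-- certificates of the pair `(9, 6)`, part 44 -/
def t22_23_9_6_44 : BlkD.Tr :=
  .S 2 3 (.L 4 4 [4, 22, 22, 22, 22, 22, 22] [170, 166, 162, 150, 136, 118] [] 100000 0 0 1700000
    50000 50000 75000 50000 0 0 0) (.L 4 4 [4, 22, 22, 22, 22, 22, 22] [170, 166, 162, 150, 136,
    118] [] 100000 0 0 1700000 50000 50000 75000 50000 0 0 0)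

lemma s22_23_9_6_44 {n : ℕ} (hn : 7 ≤ n) : NoNd (d22_23_9_6.R : ℤ) d22_23_9_6.H n d22_23_9_6.a d22_23_9_6.b
    (BlkD.inB (BlkD.upd (BlkD.upd (BlkD.upd (fun _ => 0) 0 5) 0 6) 1 6)
      (BlkD.upd (BlkD.upd (BlkD.upd (BlkD.upd (BlkD.upd (BlkD.upd (BlkD.upd (BlkD.upd (fun _ => 23) 0 9) 2 6) 0 7) 0 6) 1 11) 1 8) 1 7) 1 6)) :=
  BlkD.tree_sound (BlkD.pairOk_sound k22_23_9_6) (by decide) hn t22_23_9_6_44 _ _ (by decide +kernel)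

/-- certificates of the pair `(9, 6)`, part 45 -/
def t22_23_9_6_45 : BlkD.Tr :=
  .S 2 3 (.L 4 4 [4, 22, 22, 22, 22, 22, 22] [198, 194, 190, 186, 174, 160] [] 100000 0 0 1700000
    50000 50000 75000 50000 0 0 0) (.L 4 4 [4, 22, 22, 22, 22, 22, 22] [198, 194, 190, 186, 174,
    160] [] 100000 0 0 1700000 50000 50000 75000 50000 0 0 0)

lemma s22_23_9_6_45 {n : ℕ} (hn : 7 ≤ n) : NoNd (d22_23_9_6.R : ℤ) d22_23_9_6.H n d22_23_9_6.a d22_23_9_6.b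
    (BlkD.inB (BlkD.upd (BlkD.upd (BlkD.upd (BlkD.upd (fun _ => 0) 0 5) 0 6) 1 6) 1 7)
      (BlkD.upd (BlkD.upd (BlkD.upd (BlkD.upd (BlkD.upd (BlkD.upd (BlkD.upd (fun _ => 23) 0 9) 2 6) 0 7) 0 6) 1 11) 1 8) 1 7)) :=
  BlkD.tree_sound (BlkD.pairOk_sound k22_23_9_6) (by decide) hn t22_23_9_6_45 _ _ (by decide +kernel)

/-- certificates of the pair `(9, 6)`, part 46 -/
def t22_23_9_6_46 : BlkD.Tr :=
  .L 4 4 [4, 22, 22, 22, 22, 22, 22] [228, 224, 220, 216, 212, 200] [] 100000 0 0 1700000 50000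
    50000 75000 50000 0 0 0

lemma s22_23_9_6_46 {n : ℕ} (hn : 7 ≤ n) : NoNd (d22_23_9_6.R : ℤ) d22_23_9_6.H n d22_23_9_6.a d22_23_9_6.b
    (BlkD.inB (BlkD.upd (BlkD.upd (BlkD.upd (BlkD.upd (fun _ => 0) 0 5) 0 6) 1 6) 1 8)
      (BlkD.upd (BlkD.upd (BlkD.upd (BlkD.upd (BlkD.upd (BlkD.upd (fun _ => 23) 0 9) 2 6) 0 7) 0 6) 1 11) 1 8)) :=
  BlkD.tree_sound (BlkD.pairOk_sound k22_23_9_6) (by decide) hn t22_23_9_6_46 _ _ (by decide +kernel)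

/-- certificates of the pair `(9, 6)`, part 47 -/
def t22_23_9_6_47 : BlkD.Tr :=
  .S 1 10 (.S 1 9 (.L 4 4 [4, 22, 22, 22, 22, 22, 22] [260, 256, 252, 248, 244, 240] [] 100000 0 0
    1700000 50000 50000 75000 50000 0 0 0) (.L 4 4 [4, 22, 22, 22, 22, 22, 22] [290, 290, 286, 282,
    278, 274] [] 100000 0 0 1700000 50000 50000 75000 50000 0 0 0)) (.L 4 4 [4, 22, 22, 22, 22, 22,
    22] [322, 322, 322, 318, 314, 310] [] 100000 0 0 1700000 50000 50000 75000 50000 0 0 0)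

lemma s22_23_9_6_47 {n : ℕ} (hn : 7 ≤ n) : NoNd (d22_23_9_6.R : ℤ) d22_23_9_6.H n d22_23_9_6.a d22_23_9_6.b
    (BlkD.inB (BlkD.upd (BlkD.upd (BlkD.upd (BlkD.upd (fun _ => 0) 0 5) 0 6) 1 6) 1 9)
      (BlkD.upd (BlkD.upd (BlkD.upd (BlkD.upd (BlkD.upd (fun _ => 23) 0 9) 2 6) 0 7) 0 6) 1 11)) :=
  BlkD.tree_sound (BlkD.pairOk_sound k22_23_9_6) (by decide) hn t22_23_9_6_47 _ _ (by decide +kernel)

/-- certificates of the pair `(9, 6)`, part 48 -/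
def t22_23_9_6_48 : BlkD.Tr :=
  .L 4 4 [4, 22, 22, 22, 22, 22, 22] [] [] 100000 0 0 1700000 50000 50000 75000 50000 0 0 0

lemma s22_23_9_6_48 {n : ℕ} (hn : 7 ≤ n) : NoNd (d22_23_9_6.R : ℤ) d22_23_9_6.H n d22_23_9_6.a d22_23_9_6.b
    (BlkD.inB (BlkD.upd (BlkD.upd (BlkD.upd (fun _ => 0) 0 5) 0 6) 1 12)
      (BlkD.upd (BlkD.upd (BlkD.upd (BlkD.upd (fun _ => 23) 0 9) 2 6) 0 7) 0 6)) :=
  BlkD.tree_sound (BlkD.pairOk_sound k22_23_9_6) (by decide) hn t22_23_9_6_48 _ _ (by decide +kernel)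

/-- certificates of the pair `(9, 6)`, part 49 -/
def t22_23_9_6_49 : BlkD.Tr :=
  .S 1 2 (.L 4 4 [4, 22, 22, 22, 22, 22, 22] [] [] 100000 0 0 1700000 50000 50000 75000 50000 0 0
    0) (.S 1 4 (.L 4 4 [4, 22, 22, 22, 22, 22, 22] [] [] 100000 0 0 1700000 50000 50000 75000 50000
    0 0 0) (.L 4 4 [4, 22, 22, 22, 22, 22, 22] [154, 150, 138, 124, 106, 90] [] 100000 0 0 1700000
    50000 50000 75000 50000 0 0 0))

lemma s22_23_9_6_49 {n : ℕ} (hn : 7 ≤ n) : NoNd (d22_23_9_6.R : ℤ) d22_23_9_6.H n d22_23_9_6.a d22_23_9_6.b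
    (BlkD.inB (BlkD.upd (BlkD.upd (fun _ => 0) 0 5) 0 7)
      (BlkD.upd (BlkD.upd (BlkD.upd (BlkD.upd (BlkD.upd (fun _ => 23) 0 9) 2 6) 0 7) 1 11) 1 5)) :=
  BlkD.tree_sound (BlkD.pairOk_sound k22_23_9_6) (by decide) hn t22_23_9_6_49 _ _ (by decide +kernel)

/-- certificates of the pair `(9, 6)`, part 50 -/
def t22_23_9_6_50 : BlkD.Tr :=
  .S 1 8 (.S 1 7 (.L 4 4 [4, 22, 22, 22, 22, 22, 22] [] [] 100000 0 0 1700000 50000 50000 75000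
    50000 0 0 0) (.L 4 4 [4, 22, 22, 22, 22, 22, 22] [244, 240, 236, 232, 228, 216] [] 100000 0 0
    1700000 50000 50000 75000 50000 0 0 0)) (.L 4 4 [4, 22, 22, 22, 22, 22, 22] [] [] 100000 0 0
    1700000 50000 50000 75000 50000 0 0 0)

lemma s22_23_9_6_50 {n : ℕ} (hn : 7 ≤ n) : NoNd (d22_23_9_6.R : ℤ) d22_23_9_6.H n d22_23_9_6.a d22_23_9_6.b
    (BlkD.inB (BlkD.upd (BlkD.upd (BlkD.upd (fun _ => 0) 0 5) 0 7) 1 6)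
      (BlkD.upd (BlkD.upd (BlkD.upd (BlkD.upd (fun _ => 23) 0 9) 2 6) 0 7) 1 11)) :=
  BlkD.tree_sound (BlkD.pairOk_sound k22_23_9_6) (by decide) hn t22_23_9_6_50 _ _ (by decide +kernel)

/-- certificates of the pair `(9, 6)`, part 51 -/
def t22_23_9_6_51 : BlkD.Tr :=
  .L 4 4 [4, 22, 22, 22, 22, 22, 22] [] [] 100000 0 0 1700000 50000 50000 75000 50000 0 0 0

lemma s22_23_9_6_51 {n : ℕ} (hn : 7 ≤ n) : NoNd (d22_23_9_6.R : ℤ) d22_23_9_6.H n d22_23_9_6.a d22_23_9_6.b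
    (BlkD.inB (BlkD.upd (BlkD.upd (BlkD.upd (fun _ => 0) 0 5) 0 7) 1 12)
      (BlkD.upd (BlkD.upd (BlkD.upd (fun _ => 23) 0 9) 2 6) 0 7)) :=
  BlkD.tree_sound (BlkD.pairOk_sound k22_23_9_6) (by decide) hn t22_23_9_6_51 _ _ (by decide +kernel)

/-- certificates of the pair `(9, 6)`, part 52 -/
def t22_23_9_6_52 : BlkD.Tr :=
  .S 0 8 (.L 4 4 [4, 22, 22, 22, 22, 22, 22] [] [] 100000 0 0 1700000 50000 50000 75000 50000 0 0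
    0) (.L 4 4 [4, 22, 22, 22, 22, 22, 22] [] [] 100000 0 0 1700000 50000 50000 75000 50000 0 0 0)

lemma s22_23_9_6_52 {n : ℕ} (hn : 7 ≤ n) : NoNd (d22_23_9_6.R : ℤ) d22_23_9_6.H n d22_23_9_6.a d22_23_9_6.b
    (BlkD.inB (BlkD.upd (BlkD.upd (fun _ => 0) 0 5) 0 8)
      (BlkD.upd (BlkD.upd (fun _ => 23) 0 9) 2 6)) :=
  BlkD.tree_sound (BlkD.pairOk_sound k22_23_9_6) (by decide) hn t22_23_9_6_52 _ _ (by decide +kernel)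

/-- certificates of the pair `(9, 6)`, part 53 -/
def t22_23_9_6_53 : BlkD.Tr :=
  .E 1

lemma s22_23_9_6_53 {n : ℕ} (hn : 7 ≤ n) : NoNd (d22_23_9_6.R : ℤ) d22_23_9_6.H n d22_23_9_6.a d22_23_9_6.b
    (BlkD.inB (BlkD.upd (fun _ => 0) 2 7)
      (BlkD.upd (fun _ => 23) 0 9)) :=
  BlkD.tree_sound (BlkD.pairOk_sound k22_23_9_6) (by decide) hn t22_23_9_6_53 _ _ (by decide +kernel)

/-- certificates of the pair `(9, 6)`, part 54 -/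
def t22_23_9_6_54 : BlkD.Tr :=
  .E 0

lemma s22_23_9_6_54 {n : ℕ} (hn : 7 ≤ n) : NoNd (d22_23_9_6.R : ℤ) d22_23_9_6.H n d22_23_9_6.a d22_23_9_6.b
    (BlkD.inB (BlkD.upd (fun _ => 0) 0 10)
      (fun _ => 23)) :=
  BlkD.tree_sound (BlkD.pairOk_sound k22_23_9_6) (by decide) hn t22_23_9_6_54 _ _ (by decide +kernel)

lemma pr22_23_9_6 {n : ℕ} (hn : 7 ≤ n) : NoPr ((22 : ℕ) : ℤ) ((23 : ℕ) : ℤ) n 9 6 :=
  BlkD.of_root (R := d22_23_9_6.R) (H := d22_23_9_6.H) (a := d22_23_9_6.a) (b := d22_23_9_6.b) (q := 5) (by decide) hn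
    (BlkD.sp 0 9 (BlkD.sp 2 6 (BlkD.sp 0 4 (BlkD.sp 0 2 (BlkD.sp 0 1 (BlkD.sp 0 0 (s22_23_9_6_1 hn)
      (BlkD.sp 1 11 (BlkD.sp 1 5 (s22_23_9_6_2 hn) (s22_23_9_6_3 hn)) (s22_23_9_6_4 hn))) (BlkD.sp
      1 11 (BlkD.sp 1 5 (s22_23_9_6_5 hn) (BlkD.sp 1 8 (s22_23_9_6_6 hn) (s22_23_9_6_7 hn)))
      (s22_23_9_6_8 hn))) (BlkD.sp 0 3 (BlkD.sp 1 11 (BlkD.sp 1 5 (s22_23_9_6_9 hn) (BlkD.sp 1 8
      (s22_23_9_6_10 hn) (BlkD.sp 1 10 (BlkD.sp 1 9 (s22_23_9_6_11 hn) (s22_23_9_6_12 hn))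
      (s22_23_9_6_13 hn)))) (BlkD.sp 1 17 (BlkD.sp 1 14 (BlkD.sp 1 13 (BlkD.sp 1 12 (s22_23_9_6_14
      hn) (s22_23_9_6_15 hn)) (s22_23_9_6_16 hn)) (s22_23_9_6_17 hn)) (s22_23_9_6_18 hn))) (BlkD.sp
      1 11 (BlkD.sp 1 5 (s22_23_9_6_19 hn) (BlkD.sp 1 8 (BlkD.sp 1 7 (s22_23_9_6_20 hn)
      (s22_23_9_6_21 hn)) (BlkD.sp 1 10 (BlkD.sp 1 9 (BlkD.sp 2 3 (BlkD.sp 2 1 (s22_23_9_6_22 hn)
      (s22_23_9_6_23 hn)) (s22_23_9_6_24 hn)) (BlkD.sp 2 3 (BlkD.sp 2 1 (s22_23_9_6_25 hn)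
      (s22_23_9_6_26 hn)) (s22_23_9_6_27 hn))) (s22_23_9_6_28 hn)))) (BlkD.sp 1 17 (BlkD.sp 1 14
      (BlkD.sp 1 13 (BlkD.sp 1 12 (s22_23_9_6_29 hn) (s22_23_9_6_30 hn)) (s22_23_9_6_31 hn))
      (s22_23_9_6_32 hn)) (s22_23_9_6_33 hn))))) (BlkD.sp 0 7 (BlkD.sp 0 6 (BlkD.sp 0 5 (BlkD.sp 1
      11 (BlkD.sp 1 5 (s22_23_9_6_34 hn) (BlkD.sp 1 8 (BlkD.sp 1 7 (BlkD.sp 1 6 (s22_23_9_6_35 hn)
      (s22_23_9_6_36 hn)) (BlkD.sp 2 3 (s22_23_9_6_37 hn) (s22_23_9_6_38 hn))) (BlkD.sp 1 10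
      (BlkD.sp 1 9 (s22_23_9_6_39 hn) (s22_23_9_6_40 hn)) (s22_23_9_6_41 hn)))) (s22_23_9_6_42 hn))
      (BlkD.sp 1 11 (BlkD.sp 1 5 (s22_23_9_6_43 hn) (BlkD.sp 1 8 (BlkD.sp 1 7 (BlkD.sp 1 6
      (s22_23_9_6_44 hn) (s22_23_9_6_45 hn)) (s22_23_9_6_46 hn)) (s22_23_9_6_47 hn)))
      (s22_23_9_6_48 hn))) (BlkD.sp 1 11 (BlkD.sp 1 5 (s22_23_9_6_49 hn) (s22_23_9_6_50 hn))
      (s22_23_9_6_51 hn))) (s22_23_9_6_52 hn))) (s22_23_9_6_53 hn)) (s22_23_9_6_54 hn))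

end BlkC

end Pool.Agent.Lib.MP_f04ccf_co
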