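import Pool.Agent.Lib.MP_f04ccf_co.M.BlkT

/-!
MP_f04ccf_co, block certificate, data `R = 22`, `H = 23`, part 22 (generated, helper99:
bd10.cpp, gen2.py).
-/

set_option autoImplicit false
set_option maxRecDepth 100000

namespace Pool.Agent.Lib.MP_f04ccf_co

namespace BlkC

/-- the numbers of the pair `(10, 0)`, `R = 22`, `H = 23` -/
def d22_23_10_0 : BlkD.Pd :=
  ⟨22, 23, 5, 10, 0, 10, 0, 1, 0, 4, 4, 0, 0, 4, 4, 0, [0, 4, 8, 12, 16, 20, 24, 28, 32, 36, 40],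
    [0, 4, 8, 12, 16, 20, 24, 28, 32, 36, 40], [⟨1, 1, 1, 4, 8, [0, 4], [0, 4]⟩]⟩

lemma k22_23_10_0 : BlkD.pairOk d22_23_10_0 = true := by decide +kernel

/-- certificates of the pair `(10, 0)`, part 1 -/
def t22_23_10_0_1 : BlkD.Tr :=
  .S 0 2 (.L 4 4 [4] [] [] 100000 0 0 1150000 50000 0 100000 0 0 0 0) (.L 4 4 [4] [] [] 100000 0 0
    1150000 50000 0 100000 0 0 0 0)

lemma s22_23_10_0_1 {n : ℕ} (hn : 7 ≤ n) : NoNd (d22_23_10_0.R : ℤ) d22_23_10_0.H n d22_23_10_0.a d22_23_10_0.b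
    (BlkD.inB (fun _ => 0)
      (BlkD.upd (BlkD.upd (BlkD.upd (fun _ => 23) 0 10) 2 0) 0 5)) :=
  BlkD.tree_sound (BlkD.pairOk_sound k22_23_10_0) (by decide) hn t22_23_10_0_1 _ _ (by decide +kernel)

/-- certificates of the pair `(10, 0)`, part 2 -/
def t22_23_10_0_2 : BlkD.Tr :=
  .L 4 4 [4] [] [] 100000 0 0 1150000 50000 0 100000 0 0 0 0

lemma s22_23_10_0_2 {n : ℕ} (hn : 7 ≤ n) : NoNd (d22_23_10_0.R : ℤ) d22_23_10_0.H n d22_23_10_0.a d22_23_10_0.b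
    (BlkD.inB (BlkD.upd (fun _ => 0) 0 6)
      (BlkD.upd (BlkD.upd (fun _ => 23) 0 10) 2 0)) :=
  BlkD.tree_sound (BlkD.pairOk_sound k22_23_10_0) (by decide) hn t22_23_10_0_2 _ _ (by decide +kernel)

/-- certificates of the pair `(10, 0)`, part 3 -/
def t22_23_10_0_3 : BlkD.Tr :=
  .E 1

lemma s22_23_10_0_3 {n : ℕ} (hn : 7 ≤ n) : NoNd (d22_23_10_0.R : ℤ) d22_23_10_0.H n d22_23_10_0.a d22_23_10_0.b
    (BlkD.inB (BlkD.upd (fun _ => 0) 2 1)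
      (BlkD.upd (fun _ => 23) 0 10)) :=
  BlkD.tree_sound (BlkD.pairOk_sound k22_23_10_0) (by decide) hn t22_23_10_0_3 _ _ (by decide +kernel)

/-- certificates of the pair `(10, 0)`, part 4 -/
def t22_23_10_0_4 : BlkD.Tr :=
  .E 0

lemma s22_23_10_0_4 {n : ℕ} (hn : 7 ≤ n) : NoNd (d22_23_10_0.R : ℤ) d22_23_10_0.H n d22_23_10_0.a d22_23_10_0.b
    (BlkD.inB (BlkD.upd (fun _ => 0) 0 11)
      (fun _ => 23)) :=
  BlkD.tree_sound (BlkD.pairOk_sound k22_23_10_0) (by decide) hn t22_23_10_0_4 _ _ (by decide +kernel)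

lemma pr22_23_10_0 {n : ℕ} (hn : 7 ≤ n) : NoPr ((22 : ℕ) : ℤ) ((23 : ℕ) : ℤ) n 10 0 :=
  BlkD.of_root (R := d22_23_10_0.R) (H := d22_23_10_0.H) (a := d22_23_10_0.a) (b := d22_23_10_0.b) (q := 5) (by decide) hn
    (BlkD.sp 0 10 (BlkD.sp 2 0 (BlkD.sp 0 5 (s22_23_10_0_1 hn) (s22_23_10_0_2 hn)) (s22_23_10_0_3
      hn)) (s22_23_10_0_4 hn))

/-- the numbers of the pair `(10, 1)`, `R = 22`, `H = 23` -/
def d22_23_10_1 : BlkD.Pd :=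
  ⟨22, 23, 5, 10, 1, 9, 1, 1, 0, 4, 8, 0, 0, 4, 4, 0, [0, 8, 16, 24, 32, 36, 36, 36, 36, 36], [0,
    4, 8, 12, 16, 20, 24, 28, 32, 36], [⟨1, 1, 1, 4, 8, [0, 4], [0, 4]⟩, ⟨1, 1, 1, 4, 12, [0, 8],
    [0, 4]⟩]⟩

lemma k22_23_10_1 : BlkD.pairOk d22_23_10_1 = true := by decide +kernel

/-- certificates of the pair `(10, 1)`, part 1 -/
def t22_23_10_1_1 : BlkD.Tr :=
  .S 0 1 (.L 4 6 [4, 4] [] [] 100000 0 0 1262502 58333 0 79167 0 0 0 0) (.L 4 6 [4, 4] [] [] 100000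
    0 0 1262502 58333 0 79167 0 0 0 0)

lemma s22_23_10_1_1 {n : ℕ} (hn : 7 ≤ n) : NoNd (d22_23_10_1.R : ℤ) d22_23_10_1.H n d22_23_10_1.a d22_23_10_1.b
    (BlkD.inB (fun _ => 0)
      (BlkD.upd (BlkD.upd (BlkD.upd (BlkD.upd (fun _ => 23) 0 10) 2 1) 0 5) 0 2)) :=
  BlkD.tree_sound (BlkD.pairOk_sound k22_23_10_1) (by decide) hn t22_23_10_1_1 _ _ (by decide +kernel)

/-- certificates of the pair `(10, 1)`, part 2 -/
def t22_23_10_1_2 : BlkD.Tr :=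
  .S 0 3 (.L 4 6 [4, 4] [] [] 100000 0 0 1262502 58333 0 79167 0 0 0 0) (.L 4 6 [4, 4] [] [] 100000
    0 0 1262502 58333 0 79167 0 0 0 0)

lemma s22_23_10_1_2 {n : ℕ} (hn : 7 ≤ n) : NoNd (d22_23_10_1.R : ℤ) d22_23_10_1.H n d22_23_10_1.a d22_23_10_1.b
    (BlkD.inB (BlkD.upd (fun _ => 0) 0 3)
      (BlkD.upd (BlkD.upd (BlkD.upd (BlkD.upd (fun _ => 23) 0 10) 2 1) 0 5) 0 4)) :=
  BlkD.tree_sound (BlkD.pairOk_sound k22_23_10_1) (by decide) hn t22_23_10_1_2 _ _ (by decide +kernel)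

/-- certificates of the pair `(10, 1)`, part 3 -/
def t22_23_10_1_3 : BlkD.Tr :=
  .L 4 6 [4, 4] [] [] 100000 0 0 1262502 58333 0 79167 0 0 0 0

lemma s22_23_10_1_3 {n : ℕ} (hn : 7 ≤ n) : NoNd (d22_23_10_1.R : ℤ) d22_23_10_1.H n d22_23_10_1.a d22_23_10_1.b
    (BlkD.inB (BlkD.upd (BlkD.upd (fun _ => 0) 0 3) 0 5)
      (BlkD.upd (BlkD.upd (BlkD.upd (fun _ => 23) 0 10) 2 1) 0 5)) :=
  BlkD.tree_sound (BlkD.pairOk_sound k22_23_10_1) (by decide) hn t22_23_10_1_3 _ _ (by decide +kernel)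

/-- certificates of the pair `(10, 1)`, part 4 -/
def t22_23_10_1_4 : BlkD.Tr :=
  .S 0 8 (.L 4 6 [4, 4] [] [] 100000 0 0 1262502 58333 0 79167 0 0 0 0) (.L 4 6 [4, 4] [] [] 100000
    0 0 1262502 58333 0 79167 0 0 0 0)

lemma s22_23_10_1_4 {n : ℕ} (hn : 7 ≤ n) : NoNd (d22_23_10_1.R : ℤ) d22_23_10_1.H n d22_23_10_1.a d22_23_10_1.b
    (BlkD.inB (BlkD.upd (fun _ => 0) 0 6)
      (BlkD.upd (BlkD.upd (fun _ => 23) 0 10) 2 1)) :=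
  BlkD.tree_sound (BlkD.pairOk_sound k22_23_10_1) (by decide) hn t22_23_10_1_4 _ _ (by decide +kernel)

/-- certificates of the pair `(10, 1)`, part 5 -/
def t22_23_10_1_5 : BlkD.Tr :=
  .E 1

lemma s22_23_10_1_5 {n : ℕ} (hn : 7 ≤ n) : NoNd (d22_23_10_1.R : ℤ) d22_23_10_1.H n d22_23_10_1.a d22_23_10_1.b
    (BlkD.inB (BlkD.upd (fun _ => 0) 2 2)
      (BlkD.upd (fun _ => 23) 0 10)) :=
  BlkD.tree_sound (BlkD.pairOk_sound k22_23_10_1) (by decide) hn t22_23_10_1_5 _ _ (by decide +kernel)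

/-- certificates of the pair `(10, 1)`, part 6 -/
def t22_23_10_1_6 : BlkD.Tr :=
  .E 0

lemma s22_23_10_1_6 {n : ℕ} (hn : 7 ≤ n) : NoNd (d22_23_10_1.R : ℤ) d22_23_10_1.H n d22_23_10_1.a d22_23_10_1.b
    (BlkD.inB (BlkD.upd (fun _ => 0) 0 11)
      (fun _ => 23)) :=
  BlkD.tree_sound (BlkD.pairOk_sound k22_23_10_1) (by decide) hn t22_23_10_1_6 _ _ (by decide +kernel)

lemma pr22_23_10_1 {n : ℕ} (hn : 7 ≤ n) : NoPr ((22 : ℕ) : ℤ) ((23 : ℕ) : ℤ) n 10 1 :=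
  BlkD.of_root (R := d22_23_10_1.R) (H := d22_23_10_1.H) (a := d22_23_10_1.a) (b := d22_23_10_1.b) (q := 5) (by decide) hn
    (BlkD.sp 0 10 (BlkD.sp 2 1 (BlkD.sp 0 5 (BlkD.sp 0 2 (s22_23_10_1_1 hn) (BlkD.sp 0 4
      (s22_23_10_1_2 hn) (s22_23_10_1_3 hn))) (s22_23_10_1_4 hn)) (s22_23_10_1_5 hn))
      (s22_23_10_1_6 hn))

/-- the numbers of the pair `(10, 2)`, `R = 22`, `H = 23` -/
def d22_23_10_2 : BlkD.Pd :=
  ⟨22, 23, 5, 10, 2, 8, 2, 2, 4, 2, 10, 0, 3, 1, 6, 0, [0, 10, 20, 28, 32, 36, 40, 44, 48], [0, 6,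
    12, 17, 20, 23, 26, 29, 32], [⟨1, 1, 1, 4, 8, [0, 4], [0, 4]⟩, ⟨1, 1, 1, 4, 12, [0, 8], [0,
    4]⟩, ⟨2, 1, 1, 4, 20, [0, 10, 14], [0, 6]⟩]⟩

lemma k22_23_10_2 : BlkD.pairOk d22_23_10_2 = true := by decide +kernel

/-- certificates of the pair `(10, 2)`, part 1 -/
def t22_23_10_2_1 : BlkD.Tr :=
  .L 4 7 [4, 4, 5] [] [] 100000 50000 50000 600000 100000 0 100000 0 0 0 0

lemma s22_23_10_2_1 {n : ℕ} (hn : 7 ≤ n) : NoNd (d22_23_10_2.R : ℤ) d22_23_10_2.H n d22_23_10_2.a d22_23_10_2.b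
    (BlkD.inB (fun _ => 0)
      (BlkD.upd (BlkD.upd (BlkD.upd (BlkD.upd (BlkD.upd (BlkD.upd (fun _ => 23) 0 10) 2 2) 0 5) 0 2) 0 1) 0 0)) :=
  BlkD.tree_sound (BlkD.pairOk_sound k22_23_10_2) (by decide) hn t22_23_10_2_1 _ _ (by decide +kernel)

/-- certificates of the pair `(10, 2)`, part 2 -/
def t22_23_10_2_2 : BlkD.Tr :=
  .S 1 5 (.L 4 7 [4, 4, 5] [] [] 100000 50000 50000 600000 100000 0 100000 0 0 0 0) (.S 1 8 (.L 4 7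
    [4, 4, 5] [] [] 100000 50000 50000 600000 100000 0 100000 0 0 0 0) (.L 4 7 [4, 4, 5] [] []
    100000 50000 50000 600000 100000 0 100000 0 0 0 0))

lemma s22_23_10_2_2 {n : ℕ} (hn : 7 ≤ n) : NoNd (d22_23_10_2.R : ℤ) d22_23_10_2.H n d22_23_10_2.a d22_23_10_2.b
    (BlkD.inB (BlkD.upd (fun _ => 0) 0 1)
      (BlkD.upd (BlkD.upd (BlkD.upd (BlkD.upd (BlkD.upd (BlkD.upd (fun _ => 23) 0 10) 2 2) 0 5) 0 2) 0 1) 1 11)) :=
  BlkD.tree_sound (BlkD.pairOk_sound k22_23_10_2) (by decide) hn t22_23_10_2_2 _ _ (by decide +kernel)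

/-- certificates of the pair `(10, 2)`, part 3 -/
def t22_23_10_2_3 : BlkD.Tr :=
  .L 4 7 [4, 4, 5] [] [] 100000 50000 50000 600000 100000 0 100000 0 0 0 0

lemma s22_23_10_2_3 {n : ℕ} (hn : 7 ≤ n) : NoNd (d22_23_10_2.R : ℤ) d22_23_10_2.H n d22_23_10_2.a d22_23_10_2.b
    (BlkD.inB (BlkD.upd (BlkD.upd (fun _ => 0) 0 1) 1 12)
      (BlkD.upd (BlkD.upd (BlkD.upd (BlkD.upd (BlkD.upd (fun _ => 23) 0 10) 2 2) 0 5) 0 2) 0 1)) :=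
  BlkD.tree_sound (BlkD.pairOk_sound k22_23_10_2) (by decide) hn t22_23_10_2_3 _ _ (by decide +kernel)

/-- certificates of the pair `(10, 2)`, part 4 -/
def t22_23_10_2_4 : BlkD.Tr :=
  .L 4 7 [4, 4, 5] [] [] 100000 50000 50000 600000 100000 0 100000 0 0 0 0

lemma s22_23_10_2_4 {n : ℕ} (hn : 7 ≤ n) : NoNd (d22_23_10_2.R : ℤ) d22_23_10_2.H n d22_23_10_2.a d22_23_10_2.b
    (BlkD.inB (BlkD.upd (fun _ => 0) 0 2)
      (BlkD.upd (BlkD.upd (BlkD.upd (BlkD.upd (BlkD.upd (BlkD.upd (fun _ => 23) 0 10) 2 2) 0 5) 0 2) 1 11) 1 5)) :=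
  BlkD.tree_sound (BlkD.pairOk_sound k22_23_10_2) (by decide) hn t22_23_10_2_4 _ _ (by decide +kernel)

/-- certificates of the pair `(10, 2)`, part 5 -/
def t22_23_10_2_5 : BlkD.Tr :=
  .S 1 8 (.L 4 7 [4, 4, 5] [] [] 100000 50000 50000 600000 100000 0 100000 0 0 0 0) (.L 4 7 [4, 4,
    5] [] [] 100000 50000 50000 600000 100000 0 100000 0 0 0 0)

lemma s22_23_10_2_5 {n : ℕ} (hn : 7 ≤ n) : NoNd (d22_23_10_2.R : ℤ) d22_23_10_2.H n d22_23_10_2.a d22_23_10_2.b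
    (BlkD.inB (BlkD.upd (BlkD.upd (fun _ => 0) 0 2) 1 6)
      (BlkD.upd (BlkD.upd (BlkD.upd (BlkD.upd (BlkD.upd (fun _ => 23) 0 10) 2 2) 0 5) 0 2) 1 11)) :=
  BlkD.tree_sound (BlkD.pairOk_sound k22_23_10_2) (by decide) hn t22_23_10_2_5 _ _ (by decide +kernel)

/-- certificates of the pair `(10, 2)`, part 6 -/
def t22_23_10_2_6 : BlkD.Tr :=
  .L 4 7 [4, 4, 5] [] [] 100000 50000 50000 600000 100000 0 100000 0 0 0 0

lemma s22_23_10_2_6 {n : ℕ} (hn : 7 ≤ n) : NoNd (d22_23_10_2.R : ℤ) d22_23_10_2.H n d22_23_10_2.a d22_23_10_2.b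
    (BlkD.inB (BlkD.upd (BlkD.upd (fun _ => 0) 0 2) 1 12)
      (BlkD.upd (BlkD.upd (BlkD.upd (BlkD.upd (fun _ => 23) 0 10) 2 2) 0 5) 0 2)) :=
  BlkD.tree_sound (BlkD.pairOk_sound k22_23_10_2) (by decide) hn t22_23_10_2_6 _ _ (by decide +kernel)

/-- certificates of the pair `(10, 2)`, part 7 -/
def t22_23_10_2_7 : BlkD.Tr :=
  .S 1 5 (.L 4 7 [4, 4, 5] [] [] 100000 109375 109375 1062500 81250 0 93750 0 0 0 0) (.L 4 7 [4, 4,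
    5] [] [] 100000 109375 109375 1062500 81250 0 93750 0 0 0 0)

lemma s22_23_10_2_7 {n : ℕ} (hn : 7 ≤ n) : NoNd (d22_23_10_2.R : ℤ) d22_23_10_2.H n d22_23_10_2.a d22_23_10_2.b
    (BlkD.inB (BlkD.upd (fun _ => 0) 0 3)
      (BlkD.upd (BlkD.upd (BlkD.upd (BlkD.upd (BlkD.upd (BlkD.upd (fun _ => 23) 0 10) 2 2) 0 5) 0 4) 0 3) 1 11)) :=
  BlkD.tree_sound (BlkD.pairOk_sound k22_23_10_2) (by decide) hn t22_23_10_2_7 _ _ (by decide +kernel)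

/-- certificates of the pair `(10, 2)`, part 8 -/
def t22_23_10_2_8 : BlkD.Tr :=
  .L 4 7 [4, 4, 5] [] [] 100000 109375 109375 1062500 81250 0 93750 0 0 0 0

lemma s22_23_10_2_8 {n : ℕ} (hn : 7 ≤ n) : NoNd (d22_23_10_2.R : ℤ) d22_23_10_2.H n d22_23_10_2.a d22_23_10_2.b
    (BlkD.inB (BlkD.upd (BlkD.upd (fun _ => 0) 0 3) 1 12)
      (BlkD.upd (BlkD.upd (BlkD.upd (BlkD.upd (BlkD.upd (fun _ => 23) 0 10) 2 2) 0 5) 0 4) 0 3)) :=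
  BlkD.tree_sound (BlkD.pairOk_sound k22_23_10_2) (by decide) hn t22_23_10_2_8 _ _ (by decide +kernel)

/-- certificates of the pair `(10, 2)`, part 9 -/
def t22_23_10_2_9 : BlkD.Tr :=
  .S 1 5 (.L 4 7 [4, 4, 5] [] [] 100000 109375 109375 1062500 81250 0 93750 0 0 0 0) (.L 4 7 [4, 4,
    5] [] [] 100000 109375 109375 1062500 81250 0 93750 0 0 0 0)

lemma s22_23_10_2_9 {n : ℕ} (hn : 7 ≤ n) : NoNd (d22_23_10_2.R : ℤ) d22_23_10_2.H n d22_23_10_2.a d22_23_10_2.b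
    (BlkD.inB (BlkD.upd (BlkD.upd (fun _ => 0) 0 3) 0 4)
      (BlkD.upd (BlkD.upd (BlkD.upd (BlkD.upd (BlkD.upd (fun _ => 23) 0 10) 2 2) 0 5) 0 4) 1 11)) :=
  BlkD.tree_sound (BlkD.pairOk_sound k22_23_10_2) (by decide) hn t22_23_10_2_9 _ _ (by decide +kernel)

/-- certificates of the pair `(10, 2)`, part 10 -/
def t22_23_10_2_10 : BlkD.Tr :=
  .L 4 7 [4, 4, 5] [] [] 100000 109375 109375 1062500 81250 0 93750 0 0 0 0

lemma s22_23_10_2_10 {n : ℕ} (hn : 7 ≤ n) : NoNd (d22_23_10_2.R : ℤ) d22_23_10_2.H n d22_23_10_2.a d22_23_10_2.b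
    (BlkD.inB (BlkD.upd (BlkD.upd (BlkD.upd (fun _ => 0) 0 3) 0 4) 1 12)
      (BlkD.upd (BlkD.upd (BlkD.upd (BlkD.upd (fun _ => 23) 0 10) 2 2) 0 5) 0 4)) :=
  BlkD.tree_sound (BlkD.pairOk_sound k22_23_10_2) (by decide) hn t22_23_10_2_10 _ _ (by decide +kernel)

/-- certificates of the pair `(10, 2)`, part 11 -/
def t22_23_10_2_11 : BlkD.Tr :=
  .S 1 18 (.S 1 9 (.L 4 7 [4, 4, 5] [] [] 100000 20000 20000 1340000 40000 0 40000 40000 0 0 0) (.S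
    1 14 (.S 1 12 (.S 1 11 (.S 1 10 (.L 4 7 [4, 4, 5] [252, 248, 244, 240, 236, 232] [] 100000
    37500 37500 1325000 50000 0 50000 25000 0 25000 25000) (.L 4 7 [4, 4, 5] [286, 282, 278, 274,
    270, 266] [] 100000 26924 26924 1392307 46154 0 69231 23077 0 46154 0)) (.L 4 7 [4, 4, 5] [322,
    318, 314, 310, 306, 302] [] 100000 70834 70834 1224999 66667 0 83333 8333 0 8333 8333)) (.S 1
    13 (.L 4 7 [4, 4, 5] [360, 356, 352, 348, 344, 340] [] 100000 83334 83334 1166665 66667 0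
    100000 33333 0 0 0) (.L 4 7 [4, 4, 5] [400, 396, 392, 388, 384, 380] [] 100000 180000 140000
    660000 120000 0 140000 20000 0 20000 20000))) (.S 1 16 (.S 1 15 (.L 4 7 [4, 4, 5] [442, 438,
    434, 430, 426, 422] [] 100000 283334 183334 0 166667 0 200000 0 0 0 0) (.L 4 7 [4, 4, 5] [486,
    482, 478, 474, 470, 466] [] 100000 231250 118750 0 150000 0 212500 0 0 37500 0)) (.S 1 17 (.L 4
    7 [4, 4, 5] [532, 528, 524, 520, 516, 512] [] 100000 225000 125000 0 150000 0 200000 0 0 50000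
    0) (.L 4 7 [4, 4, 5] [580, 576, 572, 568, 564, 560] [] 100000 209616 132693 0 147436 0 176923 0
    0 0 0))))) (.E 0)

lemma s22_23_10_2_11 {n : ℕ} (hn : 7 ≤ n) : NoNd (d22_23_10_2.R : ℤ) d22_23_10_2.H n d22_23_10_2.a d22_23_10_2.b
    (BlkD.inB (BlkD.upd (BlkD.upd (fun _ => 0) 0 3) 0 5)
      (BlkD.upd (BlkD.upd (BlkD.upd (fun _ => 23) 0 10) 2 2) 0 5)) :=
  BlkD.tree_sound (BlkD.pairOk_sound k22_23_10_2) (by decide) hn t22_23_10_2_11 _ _ (by decide +kernel)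

/-- certificates of the pair `(10, 2)`, part 12 -/
def t22_23_10_2_12 : BlkD.Tr :=
  .S 1 17 (.S 1 8 (.L 4 7 [4, 4, 5] [] [] 100000 0 0 1471432 28571 0 28571 28571 0 28571 28571) (.S
    1 13 (.S 1 11 (.S 1 10 (.S 1 9 (.L 5 8 [4, 4, 4] [238, 234, 230, 226, 222, 218] [] 100000 37500
    37500 1350000 50000 0 75000 25000 0 0 0) (.L 5 8 [4, 4, 4] [272, 268, 264, 260, 256, 252] []
    100000 25000 25000 1375000 50000 0 75000 25000 0 0 0)) (.L 5 8 [4, 4, 4] [308, 304, 300, 296,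
    292, 288] [] 100000 37500 31250 1256250 56250 0 106250 43750 0 0 0)) (.S 1 12 (.L 5 8 [4, 4, 4]
    [346, 342, 338, 334, 330, 326] [] 100000 69566 52175 1104349 73913 0 117391 43478 0 13043 0)
    (.L 5 8 [4, 4, 4] [386, 382, 378, 374, 370, 366] [] 100000 140000 80000 680000 120000 0 160000
    0 0 0 0))) (.S 1 15 (.S 1 14 (.L 5 8 [4, 4, 4] [428, 424, 420, 416, 412, 408] [] 100000 182692
    40384 2 161538 0 242308 0 0 0 0) (.L 5 8 [4, 4, 4] [472, 468, 464, 460, 456, 452] [] 100000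
    156668 36668 0 146667 0 220000 0 0 0 0)) (.S 1 16 (.L 5 8 [4, 4, 4] [518, 514, 510, 506, 502,
    498] [] 100000 134616 11539 0 123077 0 223077 0 0 0 0) (.L 5 8 [4, 4, 4] [566, 562, 558, 554,
    550, 546] [] 100000 136765 33824 2 135294 0 202941 0 0 0 0))))) (.E 0)

lemma s22_23_10_2_12 {n : ℕ} (hn : 7 ≤ n) : NoNd (d22_23_10_2.R : ℤ) d22_23_10_2.H n d22_23_10_2.a d22_23_10_2.b
    (BlkD.inB (BlkD.upd (fun _ => 0) 0 6)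
      (BlkD.upd (BlkD.upd (BlkD.upd (BlkD.upd (BlkD.upd (fun _ => 23) 0 10) 2 2) 0 8) 0 7) 0 6)) :=
  BlkD.tree_sound (BlkD.pairOk_sound k22_23_10_2) (by decide) hn t22_23_10_2_12 _ _ (by decide +kernel)

/-- certificates of the pair `(10, 2)`, part 13 -/
def t22_23_10_2_13 : BlkD.Tr :=
  .S 1 16 (.S 1 8 (.S 1 4 (.L 5 8 [4, 4, 4] [] [] 100000 25000 25000 1250000 50000 0 50000 0 0 0 0)
    (.S 1 6 (.L 5 8 [4, 4, 4] [] [] 100000 0 0 1428574 28571 0 28571 28571 0 28571 0) (.S 1 7 (.L 5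
    8 [4, 4, 4] [190, 186, 182, 178, 170, 160] [] 100000 0 0 1460000 40000 0 40000 0 0 40000 0) (.L
    5 8 [4, 4, 4] [222, 218, 214, 210, 206, 198] [] 100000 11539 11539 1407692 46154 0 69231 23077
    0 23077 7692)))) (.S 1 12 (.S 1 10 (.S 1 9 (.L 5 8 [4, 4, 4] [256, 252, 248, 244, 240, 236] []
    100000 25000 25000 1300000 50000 0 100000 50000 0 0 0) (.L 5 8 [4, 4, 4] [292, 288, 284, 280,
    276, 272] [] 100000 40000 30000 1230000 70000 0 110000 0 0 0 0)) (.L 5 8 [4, 4, 4] [] [] 100000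
    1 1 1428570 14286 0 100000 14286 0 14286 14286)) (.L 5 8 [4, 4, 4] [] [] 100000 133333 0 333337
    33333 0 233333 33333 0 0 0))) (.E 0)

lemma s22_23_10_2_13 {n : ℕ} (hn : 7 ≤ n) : NoNd (d22_23_10_2.R : ℤ) d22_23_10_2.H n d22_23_10_2.a d22_23_10_2.b
    (BlkD.inB (BlkD.upd (BlkD.upd (fun _ => 0) 0 6) 0 7)
      (BlkD.upd (BlkD.upd (BlkD.upd (BlkD.upd (fun _ => 23) 0 10) 2 2) 0 8) 0 7)) :=
  BlkD.tree_sound (BlkD.pairOk_sound k22_23_10_2) (by decide) hn t22_23_10_2_13 _ _ (by decide +kernel)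

/-- certificates of the pair `(10, 2)`, part 14 -/
def t22_23_10_2_14 : BlkD.Tr :=
  .S 1 15 (.S 1 7 (.S 1 3 (.L 5 8 [4, 4, 4] [] [] 100000 0 0 1400000 0 0 0 0 0 0 0) (.S 1 5 (.L 5 8
    [4, 4, 4] [] [] 100000 0 0 1433335 33333 0 33333 33333 0 33333 0) (.S 1 6 (.L 5 8 [4, 4, 4]
    [172, 168, 164, 156, 146, 136] [] 100000 7500 7500 1390000 45000 0 85000 35000 5000 20000
    10000) (.L 5 8 [4, 4, 4] [204, 200, 196, 192, 184, 174] [] 100000 25000 25000 1300000 50000 0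
    100000 50000 0 0 0)))) (.L 5 8 [4, 4, 4] [] [] 100000 0 0 1450000 12500 0 100000 12500 0 12500
    12500)) (.E 0)

lemma s22_23_10_2_14 {n : ℕ} (hn : 7 ≤ n) : NoNd (d22_23_10_2.R : ℤ) d22_23_10_2.H n d22_23_10_2.a d22_23_10_2.b
    (BlkD.inB (BlkD.upd (BlkD.upd (fun _ => 0) 0 6) 0 8)
      (BlkD.upd (BlkD.upd (BlkD.upd (fun _ => 23) 0 10) 2 2) 0 8)) :=
  BlkD.tree_sound (BlkD.pairOk_sound k22_23_10_2) (by decide) hn t22_23_10_2_14 _ _ (by decide +kernel)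

/-- certificates of the pair `(10, 2)`, part 15 -/
def t22_23_10_2_15 : BlkD.Tr :=
  .L 5 8 [4, 4, 4] [] [] 100000 0 0 1470000 10000 0 100000 5000 0 10000 10000

lemma s22_23_10_2_15 {n : ℕ} (hn : 7 ≤ n) : NoNd (d22_23_10_2.R : ℤ) d22_23_10_2.H n d22_23_10_2.a d22_23_10_2.b
    (BlkD.inB (BlkD.upd (BlkD.upd (fun _ => 0) 0 6) 0 9)
      (BlkD.upd (BlkD.upd (fun _ => 23) 0 10) 2 2)) :=
  BlkD.tree_sound (BlkD.pairOk_sound k22_23_10_2) (by decide) hn t22_23_10_2_15 _ _ (by decide +kernel)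

/-- certificates of the pair `(10, 2)`, part 16 -/
def t22_23_10_2_16 : BlkD.Tr :=
  .E 1

lemma s22_23_10_2_16 {n : ℕ} (hn : 7 ≤ n) : NoNd (d22_23_10_2.R : ℤ) d22_23_10_2.H n d22_23_10_2.a d22_23_10_2.b
    (BlkD.inB (BlkD.upd (fun _ => 0) 2 3)
      (BlkD.upd (fun _ => 23) 0 10)) :=
  BlkD.tree_sound (BlkD.pairOk_sound k22_23_10_2) (by decide) hn t22_23_10_2_16 _ _ (by decide +kernel)

/-- certificates of the pair `(10, 2)`, part 17 -/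
def t22_23_10_2_17 : BlkD.Tr :=
  .E 0

lemma s22_23_10_2_17 {n : ℕ} (hn : 7 ≤ n) : NoNd (d22_23_10_2.R : ℤ) d22_23_10_2.H n d22_23_10_2.a d22_23_10_2.b
    (BlkD.inB (BlkD.upd (fun _ => 0) 0 11)
      (fun _ => 23)) :=
  BlkD.tree_sound (BlkD.pairOk_sound k22_23_10_2) (by decide) hn t22_23_10_2_17 _ _ (by decide +kernel)

lemma pr22_23_10_2 {n : ℕ} (hn : 7 ≤ n) : NoPr ((22 : ℕ) : ℤ) ((23 : ℕ) : ℤ) n 10 2 :=
  BlkD.of_root (R := d22_23_10_2.R) (H := d22_23_10_2.H) (a := d22_23_10_2.a) (b := d22_23_10_2.b) (q := 5) (by decide) hn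
    (BlkD.sp 0 10 (BlkD.sp 2 2 (BlkD.sp 0 5 (BlkD.sp 0 2 (BlkD.sp 0 1 (BlkD.sp 0 0 (s22_23_10_2_1
      hn) (BlkD.sp 1 11 (s22_23_10_2_2 hn) (s22_23_10_2_3 hn))) (BlkD.sp 1 11 (BlkD.sp 1 5
      (s22_23_10_2_4 hn) (s22_23_10_2_5 hn)) (s22_23_10_2_6 hn))) (BlkD.sp 0 4 (BlkD.sp 0 3
      (BlkD.sp 1 11 (s22_23_10_2_7 hn) (s22_23_10_2_8 hn)) (BlkD.sp 1 11 (s22_23_10_2_9 hn)
      (s22_23_10_2_10 hn))) (s22_23_10_2_11 hn))) (BlkD.sp 0 8 (BlkD.sp 0 7 (BlkD.sp 0 6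
      (s22_23_10_2_12 hn) (s22_23_10_2_13 hn)) (s22_23_10_2_14 hn)) (s22_23_10_2_15 hn)))
      (s22_23_10_2_16 hn)) (s22_23_10_2_17 hn))

end BlkC

end Pool.Agent.Lib.MP_f04ccf_co
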