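import Pool.Agent.Lib.MP_f04ccf_co.M.BlkT

/-!
MP_f04ccf_co, block certificate, data `R = 22`, `H = 23`, part 23 (generated, helper99:
bd10.cpp, gen2.py).
-/

set_option autoImplicit false
set_option maxRecDepth 100000

namespace Pool.Agent.Lib.MP_f04ccf_co

namespace BlkC

/-- the numbers of the pair `(10, 3)`, `R = 22`, `H = 23` -/
def d22_23_10_3 : BlkD.Pd :=
  ⟨22, 23, 5, 10, 3, 7, 2, 2, 4, 2, 10, 0, 2, 2, 6, 0, [0, 10, 20, 26, 30, 34, 38, 42], [0, 6, 12,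
    18, 22, 24, 26, 28], [⟨1, 1, 1, 4, 8, [0, 4], [0, 4]⟩, ⟨1, 1, 1, 4, 14, [0, 8], [0, 6]⟩, ⟨2, 1,
    1, 4, 20, [0, 10, 14], [0, 6]⟩]⟩

lemma k22_23_10_3 : BlkD.pairOk d22_23_10_3 = true := by decide +kernel

/-- certificates of the pair `(10, 3)`, part 1 -/
def t22_23_10_3_1 : BlkD.Tr :=
  .L 5 8 [4, 4, 4, 22] [] [] 100000 106250 106250 1375000 62500 0 100000 50000 0 0 0

lemma s22_23_10_3_1 {n : ℕ} (hn : 7 ≤ n) : NoNd (d22_23_10_3.R : ℤ) d22_23_10_3.H n d22_23_10_3.a d22_23_10_3.b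
    (BlkD.inB (fun _ => 0)
      (BlkD.upd (BlkD.upd (BlkD.upd (BlkD.upd (BlkD.upd (BlkD.upd (fun _ => 23) 0 10) 2 3) 0 5) 0 2) 0 1) 0 0)) :=
  BlkD.tree_sound (BlkD.pairOk_sound k22_23_10_3) (by decide) hn t22_23_10_3_1 _ _ (by decide +kernel)

/-- certificates of the pair `(10, 3)`, part 2 -/
def t22_23_10_3_2 : BlkD.Tr :=
  .S 1 11 (.S 1 5 (.L 5 8 [4, 4, 4, 22] [] [] 100000 106250 106250 1375000 62500 0 100000 50000 0 0
    0) (.L 5 8 [4, 4, 4, 22] [] [] 100000 106250 106250 1375000 62500 0 100000 50000 0 0 0)) (.L 5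
    8 [4, 4, 4, 22] [] [] 100000 106250 106250 1375000 62500 0 100000 50000 0 0 0)

lemma s22_23_10_3_2 {n : ℕ} (hn : 7 ≤ n) : NoNd (d22_23_10_3.R : ℤ) d22_23_10_3.H n d22_23_10_3.a d22_23_10_3.b
    (BlkD.inB (BlkD.upd (fun _ => 0) 0 1)
      (BlkD.upd (BlkD.upd (BlkD.upd (BlkD.upd (BlkD.upd (fun _ => 23) 0 10) 2 3) 0 5) 0 2) 0 1)) :=
  BlkD.tree_sound (BlkD.pairOk_sound k22_23_10_3) (by decide) hn t22_23_10_3_2 _ _ (by decide +kernel)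

/-- certificates of the pair `(10, 3)`, part 3 -/
def t22_23_10_3_3 : BlkD.Tr :=
  .S 1 5 (.L 5 8 [4, 4, 4, 22] [] [] 100000 106250 106250 1375000 62500 0 100000 50000 0 0 0) (.L 5
    8 [4, 4, 4, 22] [] [] 100000 106250 106250 1375000 62500 0 100000 50000 0 0 0)

lemma s22_23_10_3_3 {n : ℕ} (hn : 7 ≤ n) : NoNd (d22_23_10_3.R : ℤ) d22_23_10_3.H n d22_23_10_3.a d22_23_10_3.b
    (BlkD.inB (BlkD.upd (fun _ => 0) 0 2)
      (BlkD.upd (BlkD.upd (BlkD.upd (BlkD.upd (BlkD.upd (fun _ => 23) 0 10) 2 3) 0 5) 0 2) 1 11)) :=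
  BlkD.tree_sound (BlkD.pairOk_sound k22_23_10_3) (by decide) hn t22_23_10_3_3 _ _ (by decide +kernel)

/-- certificates of the pair `(10, 3)`, part 4 -/
def t22_23_10_3_4 : BlkD.Tr :=
  .L 5 8 [4, 4, 4, 22] [] [] 100000 106250 106250 1375000 62500 0 100000 50000 0 0 0

lemma s22_23_10_3_4 {n : ℕ} (hn : 7 ≤ n) : NoNd (d22_23_10_3.R : ℤ) d22_23_10_3.H n d22_23_10_3.a d22_23_10_3.b
    (BlkD.inB (BlkD.upd (BlkD.upd (fun _ => 0) 0 2) 1 12)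
      (BlkD.upd (BlkD.upd (BlkD.upd (BlkD.upd (fun _ => 23) 0 10) 2 3) 0 5) 0 2)) :=
  BlkD.tree_sound (BlkD.pairOk_sound k22_23_10_3) (by decide) hn t22_23_10_3_4 _ _ (by decide +kernel)

/-- certificates of the pair `(10, 3)`, part 5 -/
def t22_23_10_3_5 : BlkD.Tr :=
  .S 1 5 (.L 5 8 [4, 4, 4, 22] [] [] 100000 106250 106250 1375000 62500 0 100000 50000 0 0 0) (.L 5
    8 [4, 4, 4, 22] [] [] 100000 106250 106250 1375000 62500 0 100000 50000 0 0 0)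

lemma s22_23_10_3_5 {n : ℕ} (hn : 7 ≤ n) : NoNd (d22_23_10_3.R : ℤ) d22_23_10_3.H n d22_23_10_3.a d22_23_10_3.b
    (BlkD.inB (BlkD.upd (fun _ => 0) 0 3)
      (BlkD.upd (BlkD.upd (BlkD.upd (BlkD.upd (BlkD.upd (BlkD.upd (fun _ => 23) 0 10) 2 3) 0 5) 0 4) 0 3) 1 11)) :=
  BlkD.tree_sound (BlkD.pairOk_sound k22_23_10_3) (by decide) hn t22_23_10_3_5 _ _ (by decide +kernel)

/-- certificates of the pair `(10, 3)`, part 6 -/
def t22_23_10_3_6 : BlkD.Tr :=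
  .L 5 8 [4, 4, 4, 22] [] [] 100000 106250 106250 1375000 62500 0 100000 50000 0 0 0

lemma s22_23_10_3_6 {n : ℕ} (hn : 7 ≤ n) : NoNd (d22_23_10_3.R : ℤ) d22_23_10_3.H n d22_23_10_3.a d22_23_10_3.b
    (BlkD.inB (BlkD.upd (BlkD.upd (fun _ => 0) 0 3) 1 12)
      (BlkD.upd (BlkD.upd (BlkD.upd (BlkD.upd (BlkD.upd (fun _ => 23) 0 10) 2 3) 0 5) 0 4) 0 3)) :=
  BlkD.tree_sound (BlkD.pairOk_sound k22_23_10_3) (by decide) hn t22_23_10_3_6 _ _ (by decide +kernel)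

/-- certificates of the pair `(10, 3)`, part 7 -/
def t22_23_10_3_7 : BlkD.Tr :=
  .S 1 5 (.L 5 8 [4, 4, 4, 22] [] [] 100000 106250 106250 1375000 62500 0 100000 50000 0 0 0) (.L 5
    8 [4, 4, 4, 22] [] [] 100000 106250 106250 1375000 62500 0 100000 50000 0 0 0)

lemma s22_23_10_3_7 {n : ℕ} (hn : 7 ≤ n) : NoNd (d22_23_10_3.R : ℤ) d22_23_10_3.H n d22_23_10_3.a d22_23_10_3.b
    (BlkD.inB (BlkD.upd (BlkD.upd (fun _ => 0) 0 3) 0 4)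
      (BlkD.upd (BlkD.upd (BlkD.upd (BlkD.upd (BlkD.upd (fun _ => 23) 0 10) 2 3) 0 5) 0 4) 1 11)) :=
  BlkD.tree_sound (BlkD.pairOk_sound k22_23_10_3) (by decide) hn t22_23_10_3_7 _ _ (by decide +kernel)

/-- certificates of the pair `(10, 3)`, part 8 -/
def t22_23_10_3_8 : BlkD.Tr :=
  .L 5 8 [4, 4, 4, 22] [] [] 100000 106250 106250 1375000 62500 0 100000 50000 0 0 0

lemma s22_23_10_3_8 {n : ℕ} (hn : 7 ≤ n) : NoNd (d22_23_10_3.R : ℤ) d22_23_10_3.H n d22_23_10_3.a d22_23_10_3.b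
    (BlkD.inB (BlkD.upd (BlkD.upd (BlkD.upd (fun _ => 0) 0 3) 0 4) 1 12)
      (BlkD.upd (BlkD.upd (BlkD.upd (BlkD.upd (fun _ => 23) 0 10) 2 3) 0 5) 0 4)) :=
  BlkD.tree_sound (BlkD.pairOk_sound k22_23_10_3) (by decide) hn t22_23_10_3_8 _ _ (by decide +kernel)

/-- certificates of the pair `(10, 3)`, part 9 -/
def t22_23_10_3_9 : BlkD.Tr :=
  .S 1 5 (.L 5 8 [4, 4, 4, 22] [] [] 100000 106250 106250 1375000 62500 0 100000 50000 0 0 0) (.L 5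
    8 [4, 4, 4, 22] [] [] 100000 106250 106250 1375000 62500 0 100000 50000 0 0 0)

lemma s22_23_10_3_9 {n : ℕ} (hn : 7 ≤ n) : NoNd (d22_23_10_3.R : ℤ) d22_23_10_3.H n d22_23_10_3.a d22_23_10_3.b
    (BlkD.inB (BlkD.upd (BlkD.upd (fun _ => 0) 0 3) 0 5)
      (BlkD.upd (BlkD.upd (BlkD.upd (BlkD.upd (fun _ => 23) 0 10) 2 3) 0 5) 1 11)) :=
  BlkD.tree_sound (BlkD.pairOk_sound k22_23_10_3) (by decide) hn t22_23_10_3_9 _ _ (by decide +kernel)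

/-- certificates of the pair `(10, 3)`, part 10 -/
def t22_23_10_3_10 : BlkD.Tr :=
  .L 5 8 [4, 4, 4, 22] [] [] 100000 106250 106250 1375000 62500 0 100000 50000 0 0 0

lemma s22_23_10_3_10 {n : ℕ} (hn : 7 ≤ n) : NoNd (d22_23_10_3.R : ℤ) d22_23_10_3.H n d22_23_10_3.a d22_23_10_3.b
    (BlkD.inB (BlkD.upd (BlkD.upd (BlkD.upd (fun _ => 0) 0 3) 0 5) 1 12)
      (BlkD.upd (BlkD.upd (BlkD.upd (fun _ => 23) 0 10) 2 3) 0 5)) :=
  BlkD.tree_sound (BlkD.pairOk_sound k22_23_10_3) (by decide) hn t22_23_10_3_10 _ _ (by decide +kernel)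

/-- certificates of the pair `(10, 3)`, part 11 -/
def t22_23_10_3_11 : BlkD.Tr :=
  .S 1 4 (.L 5 8 [4, 4, 4, 22] [] [] 100000 18750 18750 1300000 37500 0 37500 50000 0 0 0) (.S 1 6
    (.L 5 8 [4, 4, 4, 22] [] [] 100000 17857 17857 1464287 35714 0 35714 21429 0 0 0) (.S 1 7 (.L 5
    8 [4, 4, 4, 22] [182, 178, 174, 168, 158, 148] [] 100000 75000 75000 1400000 50000 0 100000
    50000 0 0 0) (.L 5 8 [4, 4, 4, 22] [212, 208, 204, 200, 194, 184] [] 100000 33332 33332 1500004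
    44444 0 55556 44444 0 0 0)))

lemma s22_23_10_3_11 {n : ℕ} (hn : 7 ≤ n) : NoNd (d22_23_10_3.R : ℤ) d22_23_10_3.H n d22_23_10_3.a d22_23_10_3.b
    (BlkD.inB (BlkD.upd (fun _ => 0) 0 6)
      (BlkD.upd (BlkD.upd (BlkD.upd (BlkD.upd (BlkD.upd (BlkD.upd (BlkD.upd (fun _ => 23) 0 10) 2 3) 0 8) 0 7) 0 6) 1 17) 1 8)) :=
  BlkD.tree_sound (BlkD.pairOk_sound k22_23_10_3) (by decide) hn t22_23_10_3_11 _ _ (by decide +kernel)

/-- certificates of the pair `(10, 3)`, part 12 -/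
def t22_23_10_3_12 : BlkD.Tr :=
  .S 1 13 (.S 1 11 (.S 1 10 (.S 1 9 (.L 5 8 [4, 4, 4, 22] [244, 240, 236, 232, 228, 222] [] 100000
    100001 100001 1366666 66667 0 100000 66667 0 0 0) (.L 5 8 [4, 4, 4, 22] [278, 274, 270, 266,
    262, 258] [] 100000 83334 83334 1366666 66667 0 100000 33333 0 0 0)) (.L 5 8 [4, 4, 4, 22]
    [314, 310, 306, 302, 298, 294] [] 100000 81579 76316 1310528 73684 0 105263 26316 0 0 0)) (.S 1
    12 (.L 5 8 [4, 4, 4, 22] [352, 348, 344, 340, 336, 332] [] 100000 156250 106250 937500 112500 0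
    150000 25000 0 0 0) (.L 5 8 [4, 4, 4, 22] [392, 388, 384, 380, 376, 372] [] 100000 290000
    150000 220000 180000 0 240000 40000 0 0 0))) (.S 1 15 (.S 1 14 (.L 5 8 [4, 4, 4, 22] [434, 430,
    426, 422, 418, 414] [] 100000 214286 0 0 157143 0 314286 0 0 0 0) (.L 5 8 [4, 4, 4, 22] [478,
    474, 470, 466, 462, 458] [] 100000 257142 139285 4 178571 0 217857 0 0 0 0)) (.L 5 8 [4, 4, 4,
    22] [] [] 100000 541666 458333 4 183333 0 183333 100000 0 0 0))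

lemma s22_23_10_3_12 {n : ℕ} (hn : 7 ≤ n) : NoNd (d22_23_10_3.R : ℤ) d22_23_10_3.H n d22_23_10_3.a d22_23_10_3.b
    (BlkD.inB (BlkD.upd (BlkD.upd (fun _ => 0) 0 6) 1 9)
      (BlkD.upd (BlkD.upd (BlkD.upd (BlkD.upd (BlkD.upd (BlkD.upd (fun _ => 23) 0 10) 2 3) 0 8) 0 7) 0 6) 1 17)) :=
  BlkD.tree_sound (BlkD.pairOk_sound k22_23_10_3) (by decide) hn t22_23_10_3_12 _ _ (by decide +kernel)

/-- certificates of the pair `(10, 3)`, part 13 -/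
def t22_23_10_3_13 : BlkD.Tr :=
  .E 0

lemma s22_23_10_3_13 {n : ℕ} (hn : 7 ≤ n) : NoNd (d22_23_10_3.R : ℤ) d22_23_10_3.H n d22_23_10_3.a d22_23_10_3.b
    (BlkD.inB (BlkD.upd (BlkD.upd (fun _ => 0) 0 6) 1 18)
      (BlkD.upd (BlkD.upd (BlkD.upd (BlkD.upd (BlkD.upd (fun _ => 23) 0 10) 2 3) 0 8) 0 7) 0 6)) :=
  BlkD.tree_sound (BlkD.pairOk_sound k22_23_10_3) (by decide) hn t22_23_10_3_13 _ _ (by decide +kernel)

/-- certificates of the pair `(10, 3)`, part 14 -/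
def t22_23_10_3_14 : BlkD.Tr :=
  .S 1 16 (.S 1 8 (.S 1 4 (.L 5 8 [4, 4, 4, 22] [] [] 100000 20834 20834 1400001 41667 0 41667
    33333 0 0 0) (.S 1 6 (.S 1 5 (.L 5 8 [4, 4, 4, 22] [138, 132, 122, 112, 102, 90] [] 100000
    15000 15000 1470000 40000 0 40000 30000 0 10000 0) (.L 5 8 [4, 4, 4, 22] [166, 162, 156, 146,
    136, 126] [] 100000 50000 50000 1450000 50000 0 75000 50000 0 0 0)) (.S 1 7 (.S 2 1 (.S 2 0 (.L
    5 8 [4, 4, 4, 22] [196, 192, 188, 182, 172, 162] [] 100000 16667 16667 1466668 33333 0 50000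
    66667 0 0 0) (.S 3 8 (.S 3 4 (.S 3 2 (.L 5 8 [4, 4, 4, 22] [196, 192, 188, 182, 172, 162] []
    100000 20000 20000 1500000 40000 0 80000 40000 0 0 0) (.S 3 3 (.L 5 8 [4, 4, 4, 22] [196, 192,
    188, 182, 172, 162] [40, 34, 24, 12, 0, 0] 100000 10000 10000 1560000 40000 0 50000 20000 0
    20000 20000) (.S 4 7 (.S 4 3 (.L 5 8 [4, 4, 4, 22] [172, 162, 152, 140, 0, 0] [54, 48, 42, 32,
    20, 0] 100000 150000 150000 1200000 100000 0 100000 0 0 0 0) (.L 5 8 [4, 4, 4, 22] [196, 192,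
    188, 182, 172, 162] [54, 48, 42, 32, 20, 0] 100000 100000 0 800000 50000 0 200000 150000 0 0
    0)) (.E 2)))) (.E 1)) (.E 1))) (.S 2 2 (.S 3 7 (.S 3 3 (.S 3 1 (.L 5 8 [4, 4, 4, 22] [196, 192,
    188, 182, 172, 162] [] 100000 0 0 1533335 33333 0 66667 33333 0 33333 0) (.S 3 2 (.L 5 8 [4, 4,
    4, 22] [196, 192, 188, 182, 172, 162] [32, 22, 10, 0, 0, 0] 100000 10000 10000 1560000 40000 0
    40000 0 0 20000 20000) (.S 4 7 (.S 4 3 (.L 5 8 [4, 4, 4, 22] [172, 162, 152, 140, 0, 0] [46,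
    40, 30, 18, 0, 0] 100000 150000 150000 1200000 100000 0 100000 0 0 0 0) (.L 5 8 [4, 4, 4, 22]
    [196, 192, 188, 182, 172, 162] [46, 40, 30, 18, 0, 0] 100000 100000 0 800000 50000 0 200000
    150000 0 0 0)) (.E 2)))) (.E 1)) (.E 1)) (.L 5 8 [4, 4, 4, 22] [196, 192, 188, 182, 172, 162]
    [] 100000 41667 41667 1450000 50000 0 50000 0 0 16667 16667))) (.L 5 8 [4, 4, 4, 22] [228, 224,
    220, 216, 210, 200] [] 100000 60000 60000 1460000 60000 0 100000 20000 0 0 0)))) (.S 1 12 (.S 1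
    10 (.S 1 9 (.L 5 8 [4, 4, 4, 22] [262, 258, 254, 250, 246, 240] [] 100000 57144 57144 1414284
    64286 0 100000 21429 0 7143 7143) (.L 5 8 [4, 4, 4, 22] [298, 294, 290, 286, 282, 278] []
    100000 90625 71875 1225000 87500 0 118750 31250 0 0 0)) (.S 1 11 (.L 5 8 [4, 4, 4, 22] [336,
    332, 328, 324, 320, 316] [] 100000 100000 50000 1050000 100000 0 150000 0 0 0 0) (.L 5 8 [4, 4,
    4, 22] [376, 372, 368, 364, 360, 356] [] 100000 234091 47727 0 190909 0 286364 0 0 0 0))) (.L 5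
    8 [4, 4, 4, 22] [] [] 100000 12000 0 1448001 16000 0 112000 33333 0 4000 0))) (.E 0)

lemma s22_23_10_3_14 {n : ℕ} (hn : 7 ≤ n) : NoNd (d22_23_10_3.R : ℤ) d22_23_10_3.H n d22_23_10_3.a d22_23_10_3.b
    (BlkD.inB (BlkD.upd (BlkD.upd (fun _ => 0) 0 6) 0 7)
      (BlkD.upd (BlkD.upd (BlkD.upd (BlkD.upd (fun _ => 23) 0 10) 2 3) 0 8) 0 7)) :=
  BlkD.tree_sound (BlkD.pairOk_sound k22_23_10_3) (by decide) hn t22_23_10_3_14 _ _ (by decide +kernel)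

/-- certificates of the pair `(10, 3)`, part 15 -/
def t22_23_10_3_15 : BlkD.Tr :=
  .S 1 15 (.S 1 7 (.S 1 3 (.L 5 8 [4, 4, 4, 22] [] [] 100000 20000 20000 1406667 46667 0 46667
    53333 0 6667 0) (.S 1 5 (.S 1 4 (.L 5 8 [4, 4, 4, 22] [118, 108, 98, 88, 76, 0] [] 100000 16667
    16667 1466668 50000 0 50000 33333 0 16667 0) (.S 2 1 (.S 2 0 (.L 5 8 [4, 4, 4, 22] [148, 142,
    132, 122, 112, 100] [] 100000 16667 16667 1433334 33333 0 50000 66667 0 0 0) (.S 3 9 (.S 3 4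
    (.S 3 2 (.L 5 8 [4, 4, 4, 22] [148, 142, 132, 122, 112, 100] [] 100000 8333 8333 1516668 33333
    16667 50000 33333 0 16667 0) (.S 3 3 (.L 5 8 [4, 4, 4, 22] [148, 142, 132, 122, 112, 100] [40,
    34, 24, 12, 0, 0] 100000 1 1 1554544 36364 0 45455 18182 0 36364 0) (.S 4 5 (.S 4 2 (.L 5 8 [4,
    4, 4, 22] [122, 112, 100, 0, 0, 0] [54, 48, 42, 32, 20, 0] 100000 150000 150000 1200000 100000
    0 100000 100000 0 0 0) (.L 5 8 [4, 4, 4, 22] [148, 142, 132, 122, 112, 100] [54, 48, 42, 32,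
    20, 0] 100000 50000 0 1150000 50000 0 150000 100000 0 0 0)) (.E 2)))) (.E 1)) (.E 1))) (.S 2 2
    (.S 3 8 (.S 3 4 (.S 3 2 (.L 5 8 [4, 4, 4, 22] [148, 142, 132, 122, 112, 100] [] 100000 0 0
    1540000 40000 0 40000 0 0 40000 0) (.S 3 3 (.S 4 5 (.S 4 2 (.L 5 8 [4, 4, 4, 22] [122, 112,
    100, 0, 0, 0] [46, 40, 30, 18, 0, 0] 100000 150000 150000 1200000 100000 0 100000 100000 0 0 0)
    (.L 5 8 [4, 4, 4, 22] [148, 142, 132, 122, 112, 100] [46, 40, 30, 18, 0, 0] 100000 50000 0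
    1150000 50000 0 150000 100000 0 0 0)) (.E 2)) (.E 1))) (.E 1)) (.E 1)) (.L 5 8 [4, 4, 4, 22]
    [148, 142, 132, 122, 112, 100] [] 100000 25000 25000 1450000 50000 0 50000 0 0 0 0)))) (.S 1 6
    (.L 5 8 [4, 4, 4, 22] [178, 174, 168, 158, 148, 138] [] 100000 12887 12887 1530929 42268 0
    85567 28866 0 16495 2062) (.L 5 8 [4, 4, 4, 22] [210, 206, 202, 196, 186, 176] [] 100000 14243
    14243 1506060 48485 0 91515 37576 3030 13939 13939)))) (.L 5 8 [4, 4, 4, 22] [] [] 100000 0 0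
    1562500 12500 0 100000 43750 0 12500 12500)) (.E 0)

lemma s22_23_10_3_15 {n : ℕ} (hn : 7 ≤ n) : NoNd (d22_23_10_3.R : ℤ) d22_23_10_3.H n d22_23_10_3.a d22_23_10_3.b
    (BlkD.inB (BlkD.upd (BlkD.upd (fun _ => 0) 0 6) 0 8)
      (BlkD.upd (BlkD.upd (BlkD.upd (fun _ => 23) 0 10) 2 3) 0 8)) :=
  BlkD.tree_sound (BlkD.pairOk_sound k22_23_10_3) (by decide) hn t22_23_10_3_15 _ _ (by decide +kernel)

/-- certificates of the pair `(10, 3)`, part 16 -/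
def t22_23_10_3_16 : BlkD.Tr :=
  .L 5 8 [4, 4, 4, 22] [] [] 100000 0 0 1575000 12500 0 87500 87500 12500 0 0

lemma s22_23_10_3_16 {n : ℕ} (hn : 7 ≤ n) : NoNd (d22_23_10_3.R : ℤ) d22_23_10_3.H n d22_23_10_3.a d22_23_10_3.b
    (BlkD.inB (BlkD.upd (BlkD.upd (fun _ => 0) 0 6) 0 9)
      (BlkD.upd (BlkD.upd (fun _ => 23) 0 10) 2 3)) :=
  BlkD.tree_sound (BlkD.pairOk_sound k22_23_10_3) (by decide) hn t22_23_10_3_16 _ _ (by decide +kernel)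

/-- certificates of the pair `(10, 3)`, part 17 -/
def t22_23_10_3_17 : BlkD.Tr :=
  .E 1

lemma s22_23_10_3_17 {n : ℕ} (hn : 7 ≤ n) : NoNd (d22_23_10_3.R : ℤ) d22_23_10_3.H n d22_23_10_3.a d22_23_10_3.b
    (BlkD.inB (BlkD.upd (fun _ => 0) 2 4)
      (BlkD.upd (fun _ => 23) 0 10)) :=
  BlkD.tree_sound (BlkD.pairOk_sound k22_23_10_3) (by decide) hn t22_23_10_3_17 _ _ (by decide +kernel)

/-- certificates of the pair `(10, 3)`, part 18 -/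
def t22_23_10_3_18 : BlkD.Tr :=
  .E 0

lemma s22_23_10_3_18 {n : ℕ} (hn : 7 ≤ n) : NoNd (d22_23_10_3.R : ℤ) d22_23_10_3.H n d22_23_10_3.a d22_23_10_3.b
    (BlkD.inB (BlkD.upd (fun _ => 0) 0 11)
      (fun _ => 23)) :=
  BlkD.tree_sound (BlkD.pairOk_sound k22_23_10_3) (by decide) hn t22_23_10_3_18 _ _ (by decide +kernel)

lemma pr22_23_10_3 {n : ℕ} (hn : 7 ≤ n) : NoPr ((22 : ℕ) : ℤ) ((23 : ℕ) : ℤ) n 10 3 :=
  BlkD.of_root (R := d22_23_10_3.R) (H := d22_23_10_3.H) (a := d22_23_10_3.a) (b := d22_23_10_3.b) (q := 5) (by decide) hn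
    (BlkD.sp 0 10 (BlkD.sp 2 3 (BlkD.sp 0 5 (BlkD.sp 0 2 (BlkD.sp 0 1 (BlkD.sp 0 0 (s22_23_10_3_1
      hn) (s22_23_10_3_2 hn)) (BlkD.sp 1 11 (s22_23_10_3_3 hn) (s22_23_10_3_4 hn))) (BlkD.sp 0 4
      (BlkD.sp 0 3 (BlkD.sp 1 11 (s22_23_10_3_5 hn) (s22_23_10_3_6 hn)) (BlkD.sp 1 11
      (s22_23_10_3_7 hn) (s22_23_10_3_8 hn))) (BlkD.sp 1 11 (s22_23_10_3_9 hn) (s22_23_10_3_10
      hn)))) (BlkD.sp 0 8 (BlkD.sp 0 7 (BlkD.sp 0 6 (BlkD.sp 1 17 (BlkD.sp 1 8 (s22_23_10_3_11 hn)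
      (s22_23_10_3_12 hn)) (s22_23_10_3_13 hn)) (s22_23_10_3_14 hn)) (s22_23_10_3_15 hn))
      (s22_23_10_3_16 hn))) (s22_23_10_3_17 hn)) (s22_23_10_3_18 hn))

end BlkC

end Pool.Agent.Lib.MP_f04ccf_co
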