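import Pool.Agent.Lib.MP_f04ccf_co.M.BlkT

/-!
MP_f04ccf_co, block certificate, data `R = 22`, `H = 23`, part 25 (generated, helper99:
bd10.cpp, gen2.py).
-/

set_option autoImplicit false
set_option maxRecDepth 100000

namespace Pool.Agent.Lib.MP_f04ccf_co

namespace BlkC

/-- the numbers of the pair `(10, 5)`, `R = 22`, `H = 23` -/
def d22_23_10_5 : BlkD.Pd :=
  ⟨22, 23, 5, 10, 5, 5, 0, 4, 0, 4, 4, 0, 0, 4, 4, 0, [0, 4, 8, 12, 16, 20], [0, 4, 8, 12, 16, 20],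
    [⟨1, 1, 1, 4, 8, [0, 4], [0, 4]⟩]⟩

lemma k22_23_10_5 : BlkD.pairOk d22_23_10_5 = true := by decide +kernel

/-- certificates of the pair `(10, 5)`, part 1 -/
def t22_23_10_5_1 : BlkD.Tr :=
  .L 4 4 [4, 22, 22, 22, 22, 22] [] [] 100000 0 0 1700000 100000 25000 100000 50000 0 0 0

lemma s22_23_10_5_1 {n : ℕ} (hn : 7 ≤ n) : NoNd (d22_23_10_5.R : ℤ) d22_23_10_5.H n d22_23_10_5.a d22_23_10_5.b
    (BlkD.inB (fun _ => 0)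
      (BlkD.upd (BlkD.upd (BlkD.upd (BlkD.upd (BlkD.upd (BlkD.upd (fun _ => 23) 0 10) 2 5) 0 5) 0 2) 0 1) 0 0)) :=
  BlkD.tree_sound (BlkD.pairOk_sound k22_23_10_5) (by decide) hn t22_23_10_5_1 _ _ (by decide +kernel)

/-- certificates of the pair `(10, 5)`, part 2 -/
def t22_23_10_5_2 : BlkD.Tr :=
  .S 1 2 (.L 4 4 [4, 22, 22, 22, 22, 22] [] [] 100000 0 0 1700000 100000 25000 100000 50000 0 0 0)
    (.L 4 4 [4, 22, 22, 22, 22, 22] [] [] 100000 0 0 1700000 100000 25000 100000 50000 0 0 0)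

lemma s22_23_10_5_2 {n : ℕ} (hn : 7 ≤ n) : NoNd (d22_23_10_5.R : ℤ) d22_23_10_5.H n d22_23_10_5.a d22_23_10_5.b
    (BlkD.inB (BlkD.upd (fun _ => 0) 0 1)
      (BlkD.upd (BlkD.upd (BlkD.upd (BlkD.upd (BlkD.upd (BlkD.upd (BlkD.upd (fun _ => 23) 0 10) 2 5) 0 5) 0 2) 0 1) 1 11) 1 5)) :=
  BlkD.tree_sound (BlkD.pairOk_sound k22_23_10_5) (by decide) hn t22_23_10_5_2 _ _ (by decide +kernel)

/-- certificates of the pair `(10, 5)`, part 3 -/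
def t22_23_10_5_3 : BlkD.Tr :=
  .S 1 8 (.L 4 4 [4, 22, 22, 22, 22, 22] [] [] 100000 0 0 1700000 100000 25000 100000 50000 0 0 0)
    (.L 4 4 [4, 22, 22, 22, 22, 22] [] [] 100000 0 0 1700000 100000 25000 100000 50000 0 0 0)

lemma s22_23_10_5_3 {n : ℕ} (hn : 7 ≤ n) : NoNd (d22_23_10_5.R : ℤ) d22_23_10_5.H n d22_23_10_5.a d22_23_10_5.b
    (BlkD.inB (BlkD.upd (BlkD.upd (fun _ => 0) 0 1) 1 6)
      (BlkD.upd (BlkD.upd (BlkD.upd (BlkD.upd (BlkD.upd (BlkD.upd (fun _ => 23) 0 10) 2 5) 0 5) 0 2) 0 1) 1 11)) :=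
  BlkD.tree_sound (BlkD.pairOk_sound k22_23_10_5) (by decide) hn t22_23_10_5_3 _ _ (by decide +kernel)

/-- certificates of the pair `(10, 5)`, part 4 -/
def t22_23_10_5_4 : BlkD.Tr :=
  .L 4 4 [4, 22, 22, 22, 22, 22] [] [] 100000 0 0 1700000 100000 25000 100000 50000 0 0 0

lemma s22_23_10_5_4 {n : ℕ} (hn : 7 ≤ n) : NoNd (d22_23_10_5.R : ℤ) d22_23_10_5.H n d22_23_10_5.a d22_23_10_5.b
    (BlkD.inB (BlkD.upd (BlkD.upd (fun _ => 0) 0 1) 1 12)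
      (BlkD.upd (BlkD.upd (BlkD.upd (BlkD.upd (BlkD.upd (fun _ => 23) 0 10) 2 5) 0 5) 0 2) 0 1)) :=
  BlkD.tree_sound (BlkD.pairOk_sound k22_23_10_5) (by decide) hn t22_23_10_5_4 _ _ (by decide +kernel)

/-- certificates of the pair `(10, 5)`, part 5 -/
def t22_23_10_5_5 : BlkD.Tr :=
  .S 1 2 (.L 4 4 [4, 22, 22, 22, 22, 22] [] [] 100000 0 0 1700000 100000 25000 100000 50000 0 0 0)
    (.L 4 4 [4, 22, 22, 22, 22, 22] [] [] 100000 0 0 1700000 100000 25000 100000 50000 0 0 0)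

lemma s22_23_10_5_5 {n : ℕ} (hn : 7 ≤ n) : NoNd (d22_23_10_5.R : ℤ) d22_23_10_5.H n d22_23_10_5.a d22_23_10_5.b
    (BlkD.inB (BlkD.upd (fun _ => 0) 0 2)
      (BlkD.upd (BlkD.upd (BlkD.upd (BlkD.upd (BlkD.upd (BlkD.upd (fun _ => 23) 0 10) 2 5) 0 5) 0 2) 1 11) 1 5)) :=
  BlkD.tree_sound (BlkD.pairOk_sound k22_23_10_5) (by decide) hn t22_23_10_5_5 _ _ (by decide +kernel)

/-- certificates of the pair `(10, 5)`, part 6 -/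
def t22_23_10_5_6 : BlkD.Tr :=
  .S 1 8 (.L 4 4 [4, 22, 22, 22, 22, 22] [] [] 100000 0 0 1700000 100000 25000 100000 50000 0 0 0)
    (.L 4 4 [4, 22, 22, 22, 22, 22] [] [] 100000 0 0 1700000 100000 25000 100000 50000 0 0 0)

lemma s22_23_10_5_6 {n : ℕ} (hn : 7 ≤ n) : NoNd (d22_23_10_5.R : ℤ) d22_23_10_5.H n d22_23_10_5.a d22_23_10_5.b
    (BlkD.inB (BlkD.upd (BlkD.upd (fun _ => 0) 0 2) 1 6)
      (BlkD.upd (BlkD.upd (BlkD.upd (BlkD.upd (BlkD.upd (fun _ => 23) 0 10) 2 5) 0 5) 0 2) 1 11)) :=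
  BlkD.tree_sound (BlkD.pairOk_sound k22_23_10_5) (by decide) hn t22_23_10_5_6 _ _ (by decide +kernel)

/-- certificates of the pair `(10, 5)`, part 7 -/
def t22_23_10_5_7 : BlkD.Tr :=
  .L 4 4 [4, 22, 22, 22, 22, 22] [] [] 100000 0 0 1700000 100000 25000 100000 50000 0 0 0

lemma s22_23_10_5_7 {n : ℕ} (hn : 7 ≤ n) : NoNd (d22_23_10_5.R : ℤ) d22_23_10_5.H n d22_23_10_5.a d22_23_10_5.b
    (BlkD.inB (BlkD.upd (BlkD.upd (fun _ => 0) 0 2) 1 12)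
      (BlkD.upd (BlkD.upd (BlkD.upd (BlkD.upd (fun _ => 23) 0 10) 2 5) 0 5) 0 2)) :=
  BlkD.tree_sound (BlkD.pairOk_sound k22_23_10_5) (by decide) hn t22_23_10_5_7 _ _ (by decide +kernel)

/-- certificates of the pair `(10, 5)`, part 8 -/
def t22_23_10_5_8 : BlkD.Tr :=
  .L 4 4 [4, 22, 22, 22, 22, 22] [] [] 100000 0 0 1700000 100000 25000 100000 50000 0 0 0

lemma s22_23_10_5_8 {n : ℕ} (hn : 7 ≤ n) : NoNd (d22_23_10_5.R : ℤ) d22_23_10_5.H n d22_23_10_5.a d22_23_10_5.b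
    (BlkD.inB (BlkD.upd (fun _ => 0) 0 3)
      (BlkD.upd (BlkD.upd (BlkD.upd (BlkD.upd (BlkD.upd (BlkD.upd (BlkD.upd (fun _ => 23) 0 10) 2 5) 0 5) 0 4) 0 3) 1 11) 1 5)) :=
  BlkD.tree_sound (BlkD.pairOk_sound k22_23_10_5) (by decide) hn t22_23_10_5_8 _ _ (by decide +kernel)

/-- certificates of the pair `(10, 5)`, part 9 -/
def t22_23_10_5_9 : BlkD.Tr :=
  .S 1 8 (.L 4 4 [4, 22, 22, 22, 22, 22] [] [] 100000 0 0 1700000 100000 25000 100000 50000 0 0 0)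
    (.L 4 4 [4, 22, 22, 22, 22, 22] [] [] 100000 0 0 1700000 100000 25000 100000 50000 0 0 0)

lemma s22_23_10_5_9 {n : ℕ} (hn : 7 ≤ n) : NoNd (d22_23_10_5.R : ℤ) d22_23_10_5.H n d22_23_10_5.a d22_23_10_5.b
    (BlkD.inB (BlkD.upd (BlkD.upd (fun _ => 0) 0 3) 1 6)
      (BlkD.upd (BlkD.upd (BlkD.upd (BlkD.upd (BlkD.upd (BlkD.upd (fun _ => 23) 0 10) 2 5) 0 5) 0 4) 0 3) 1 11)) :=
  BlkD.tree_sound (BlkD.pairOk_sound k22_23_10_5) (by decide) hn t22_23_10_5_9 _ _ (by decide +kernel)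

/-- certificates of the pair `(10, 5)`, part 10 -/
def t22_23_10_5_10 : BlkD.Tr :=
  .L 4 4 [4, 22, 22, 22, 22, 22] [] [] 100000 0 0 1700000 100000 25000 100000 50000 0 0 0

lemma s22_23_10_5_10 {n : ℕ} (hn : 7 ≤ n) : NoNd (d22_23_10_5.R : ℤ) d22_23_10_5.H n d22_23_10_5.a d22_23_10_5.b
    (BlkD.inB (BlkD.upd (BlkD.upd (fun _ => 0) 0 3) 1 12)
      (BlkD.upd (BlkD.upd (BlkD.upd (BlkD.upd (BlkD.upd (fun _ => 23) 0 10) 2 5) 0 5) 0 4) 0 3)) :=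
  BlkD.tree_sound (BlkD.pairOk_sound k22_23_10_5) (by decide) hn t22_23_10_5_10 _ _ (by decide +kernel)

/-- certificates of the pair `(10, 5)`, part 11 -/
def t22_23_10_5_11 : BlkD.Tr :=
  .L 4 4 [4, 22, 22, 22, 22, 22] [] [] 100000 0 0 1700000 100000 25000 100000 50000 0 0 0

lemma s22_23_10_5_11 {n : ℕ} (hn : 7 ≤ n) : NoNd (d22_23_10_5.R : ℤ) d22_23_10_5.H n d22_23_10_5.a d22_23_10_5.b
    (BlkD.inB (BlkD.upd (BlkD.upd (fun _ => 0) 0 3) 0 4)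
      (BlkD.upd (BlkD.upd (BlkD.upd (BlkD.upd (BlkD.upd (BlkD.upd (fun _ => 23) 0 10) 2 5) 0 5) 0 4) 1 11) 1 5)) :=
  BlkD.tree_sound (BlkD.pairOk_sound k22_23_10_5) (by decide) hn t22_23_10_5_11 _ _ (by decide +kernel)

/-- certificates of the pair `(10, 5)`, part 12 -/
def t22_23_10_5_12 : BlkD.Tr :=
  .L 4 4 [4, 22, 22, 22, 22, 22] [] [] 100000 0 0 1700000 100000 25000 100000 50000 0 0 0

lemma s22_23_10_5_12 {n : ℕ} (hn : 7 ≤ n) : NoNd (d22_23_10_5.R : ℤ) d22_23_10_5.H n d22_23_10_5.a d22_23_10_5.b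
    (BlkD.inB (BlkD.upd (BlkD.upd (BlkD.upd (fun _ => 0) 0 3) 0 4) 1 6)
      (BlkD.upd (BlkD.upd (BlkD.upd (BlkD.upd (BlkD.upd (BlkD.upd (fun _ => 23) 0 10) 2 5) 0 5) 0 4) 1 11) 1 8)) :=
  BlkD.tree_sound (BlkD.pairOk_sound k22_23_10_5) (by decide) hn t22_23_10_5_12 _ _ (by decide +kernel)

/-- certificates of the pair `(10, 5)`, part 13 -/
def t22_23_10_5_13 : BlkD.Tr :=
  .S 1 10 (.L 4 4 [4, 22, 22, 22, 22, 22] [] [] 100000 0 0 1700000 100000 25000 100000 50000 0 0 0)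
    (.L 4 4 [4, 22, 22, 22, 22, 22] [262, 262, 262, 260, 256, 252] [] 100000 0 0 1700000 100000
    25000 100000 50000 0 0 0)

lemma s22_23_10_5_13 {n : ℕ} (hn : 7 ≤ n) : NoNd (d22_23_10_5.R : ℤ) d22_23_10_5.H n d22_23_10_5.a d22_23_10_5.b
    (BlkD.inB (BlkD.upd (BlkD.upd (BlkD.upd (BlkD.upd (fun _ => 0) 0 3) 0 4) 1 6) 1 9)
      (BlkD.upd (BlkD.upd (BlkD.upd (BlkD.upd (BlkD.upd (fun _ => 23) 0 10) 2 5) 0 5) 0 4) 1 11)) :=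
  BlkD.tree_sound (BlkD.pairOk_sound k22_23_10_5) (by decide) hn t22_23_10_5_13 _ _ (by decide +kernel)

/-- certificates of the pair `(10, 5)`, part 14 -/
def t22_23_10_5_14 : BlkD.Tr :=
  .S 1 13 (.S 1 12 (.L 4 4 [4, 22, 22, 22, 22, 22] [292, 292, 292, 292, 290, 286] [] 100000 0 0
    1700000 100000 25000 100000 50000 0 0 0) (.L 4 4 [4, 22, 22, 22, 22, 22] [324, 324, 324, 324,
    324, 322] [] 100000 0 0 1700000 100000 25000 100000 50000 0 0 0)) (.L 4 4 [4, 22, 22, 22, 22,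
    22] [358, 358, 358, 358, 358, 358] [] 100000 0 0 1700000 100000 25000 100000 50000 0 0 0)

lemma s22_23_10_5_14 {n : ℕ} (hn : 7 ≤ n) : NoNd (d22_23_10_5.R : ℤ) d22_23_10_5.H n d22_23_10_5.a d22_23_10_5.b
    (BlkD.inB (BlkD.upd (BlkD.upd (BlkD.upd (fun _ => 0) 0 3) 0 4) 1 12)
      (BlkD.upd (BlkD.upd (BlkD.upd (BlkD.upd (BlkD.upd (BlkD.upd (fun _ => 23) 0 10) 2 5) 0 5) 0 4) 1 17) 1 14)) :=
  BlkD.tree_sound (BlkD.pairOk_sound k22_23_10_5) (by decide) hn t22_23_10_5_14 _ _ (by decide +kernel)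

/-- certificates of the pair `(10, 5)`, part 15 -/
def t22_23_10_5_15 : BlkD.Tr :=
  .L 4 4 [4, 22, 22, 22, 22, 22] [] [] 100000 0 0 1700000 100000 25000 100000 50000 0 0 0

lemma s22_23_10_5_15 {n : ℕ} (hn : 7 ≤ n) : NoNd (d22_23_10_5.R : ℤ) d22_23_10_5.H n d22_23_10_5.a d22_23_10_5.b
    (BlkD.inB (BlkD.upd (BlkD.upd (BlkD.upd (BlkD.upd (fun _ => 0) 0 3) 0 4) 1 12) 1 15)
      (BlkD.upd (BlkD.upd (BlkD.upd (BlkD.upd (BlkD.upd (fun _ => 23) 0 10) 2 5) 0 5) 0 4) 1 17)) :=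
  BlkD.tree_sound (BlkD.pairOk_sound k22_23_10_5) (by decide) hn t22_23_10_5_15 _ _ (by decide +kernel)

/-- certificates of the pair `(10, 5)`, part 16 -/
def t22_23_10_5_16 : BlkD.Tr :=
  .L 4 4 [4, 22, 22, 22, 22, 22] [] [] 100000 0 0 1700000 100000 25000 100000 50000 0 0 0

lemma s22_23_10_5_16 {n : ℕ} (hn : 7 ≤ n) : NoNd (d22_23_10_5.R : ℤ) d22_23_10_5.H n d22_23_10_5.a d22_23_10_5.b
    (BlkD.inB (BlkD.upd (BlkD.upd (BlkD.upd (BlkD.upd (fun _ => 0) 0 3) 0 4) 1 12) 1 18)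
      (BlkD.upd (BlkD.upd (BlkD.upd (BlkD.upd (fun _ => 23) 0 10) 2 5) 0 5) 0 4)) :=
  BlkD.tree_sound (BlkD.pairOk_sound k22_23_10_5) (by decide) hn t22_23_10_5_16 _ _ (by decide +kernel)

/-- certificates of the pair `(10, 5)`, part 17 -/
def t22_23_10_5_17 : BlkD.Tr :=
  .L 4 4 [4, 22, 22, 22, 22, 22] [] [] 100000 0 0 1700000 100000 25000 100000 50000 0 0 0

lemma s22_23_10_5_17 {n : ℕ} (hn : 7 ≤ n) : NoNd (d22_23_10_5.R : ℤ) d22_23_10_5.H n d22_23_10_5.a d22_23_10_5.b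
    (BlkD.inB (BlkD.upd (BlkD.upd (fun _ => 0) 0 3) 0 5)
      (BlkD.upd (BlkD.upd (BlkD.upd (BlkD.upd (BlkD.upd (fun _ => 23) 0 10) 2 5) 0 5) 1 11) 1 5)) :=
  BlkD.tree_sound (BlkD.pairOk_sound k22_23_10_5) (by decide) hn t22_23_10_5_17 _ _ (by decide +kernel)

/-- certificates of the pair `(10, 5)`, part 18 -/
def t22_23_10_5_18 : BlkD.Tr :=
  .S 1 7 (.L 4 4 [4, 22, 22, 22, 22, 22] [] [] 100000 0 0 1700000 100000 25000 100000 50000 0 0 0)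
    (.L 4 4 [4, 22, 22, 22, 22, 22] [198, 194, 190, 186, 182, 178] [] 100000 0 0 1700000 100000
    25000 100000 50000 0 0 0)

lemma s22_23_10_5_18 {n : ℕ} (hn : 7 ≤ n) : NoNd (d22_23_10_5.R : ℤ) d22_23_10_5.H n d22_23_10_5.a d22_23_10_5.b
    (BlkD.inB (BlkD.upd (BlkD.upd (BlkD.upd (fun _ => 0) 0 3) 0 5) 1 6)
      (BlkD.upd (BlkD.upd (BlkD.upd (BlkD.upd (BlkD.upd (fun _ => 23) 0 10) 2 5) 0 5) 1 11) 1 8)) :=
  BlkD.tree_sound (BlkD.pairOk_sound k22_23_10_5) (by decide) hn t22_23_10_5_18 _ _ (by decide +kernel)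

/-- certificates of the pair `(10, 5)`, part 19 -/
def t22_23_10_5_19 : BlkD.Tr :=
  .S 1 9 (.L 4 4 [4, 22, 22, 22, 22, 22] [226, 224, 220, 216, 212, 208] [] 100000 0 0 1700000
    100000 25000 100000 50000 0 0 0) (.L 4 4 [4, 22, 22, 22, 22, 22] [254, 254, 252, 248, 244, 240]
    [] 100000 0 0 1700000 100000 25000 100000 50000 0 0 0)

lemma s22_23_10_5_19 {n : ℕ} (hn : 7 ≤ n) : NoNd (d22_23_10_5.R : ℤ) d22_23_10_5.H n d22_23_10_5.a d22_23_10_5.b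
    (BlkD.inB (BlkD.upd (BlkD.upd (BlkD.upd (BlkD.upd (fun _ => 0) 0 3) 0 5) 1 6) 1 9)
      (BlkD.upd (BlkD.upd (BlkD.upd (BlkD.upd (BlkD.upd (fun _ => 23) 0 10) 2 5) 0 5) 1 11) 1 10)) :=
  BlkD.tree_sound (BlkD.pairOk_sound k22_23_10_5) (by decide) hn t22_23_10_5_19 _ _ (by decide +kernel)

/-- certificates of the pair `(10, 5)`, part 20 -/
def t22_23_10_5_20 : BlkD.Tr :=
  .S 2 2 (.L 4 4 [4, 22, 22, 22, 22, 22] [284, 284, 284, 282, 278, 274] [] 100000 0 0 1700000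
    100000 25000 100000 50000 0 0 0) (.L 4 4 [4, 22, 22, 22, 22, 22] [284, 284, 284, 282, 278, 274]
    [] 100000 0 0 1700000 100000 25000 100000 50000 0 0 0)

lemma s22_23_10_5_20 {n : ℕ} (hn : 7 ≤ n) : NoNd (d22_23_10_5.R : ℤ) d22_23_10_5.H n d22_23_10_5.a d22_23_10_5.b
    (BlkD.inB (BlkD.upd (BlkD.upd (BlkD.upd (BlkD.upd (BlkD.upd (fun _ => 0) 0 3) 0 5) 1 6) 1 9) 1 11)
      (BlkD.upd (BlkD.upd (BlkD.upd (BlkD.upd (fun _ => 23) 0 10) 2 5) 0 5) 1 11)) :=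
  BlkD.tree_sound (BlkD.pairOk_sound k22_23_10_5) (by decide) hn t22_23_10_5_20 _ _ (by decide +kernel)

/-- certificates of the pair `(10, 5)`, part 21 -/
def t22_23_10_5_21 : BlkD.Tr :=
  .S 1 12 (.L 4 4 [4, 22, 22, 22, 22, 22] [316, 316, 316, 316, 314, 310] [] 100000 0 0 1700000
    100000 25000 100000 50000 0 0 0) (.L 4 4 [4, 22, 22, 22, 22, 22] [350, 350, 350, 350, 350, 348]
    [] 100000 0 0 1700000 100000 25000 100000 50000 0 0 0)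

lemma s22_23_10_5_21 {n : ℕ} (hn : 7 ≤ n) : NoNd (d22_23_10_5.R : ℤ) d22_23_10_5.H n d22_23_10_5.a d22_23_10_5.b
    (BlkD.inB (BlkD.upd (BlkD.upd (BlkD.upd (fun _ => 0) 0 3) 0 5) 1 12)
      (BlkD.upd (BlkD.upd (BlkD.upd (BlkD.upd (BlkD.upd (BlkD.upd (fun _ => 23) 0 10) 2 5) 0 5) 1 17) 1 14) 1 13)) :=
  BlkD.tree_sound (BlkD.pairOk_sound k22_23_10_5) (by decide) hn t22_23_10_5_21 _ _ (by decide +kernel)

/-- certificates of the pair `(10, 5)`, part 22 -/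
def t22_23_10_5_22 : BlkD.Tr :=
  .L 4 4 [4, 22, 22, 22, 22, 22] [386, 386, 386, 386, 386, 386] [] 100000 0 0 1700000 100000 25000
    100000 50000 0 0 0

lemma s22_23_10_5_22 {n : ℕ} (hn : 7 ≤ n) : NoNd (d22_23_10_5.R : ℤ) d22_23_10_5.H n d22_23_10_5.a d22_23_10_5.b
    (BlkD.inB (BlkD.upd (BlkD.upd (BlkD.upd (BlkD.upd (fun _ => 0) 0 3) 0 5) 1 12) 1 14)
      (BlkD.upd (BlkD.upd (BlkD.upd (BlkD.upd (BlkD.upd (fun _ => 23) 0 10) 2 5) 0 5) 1 17) 1 14)) :=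
  BlkD.tree_sound (BlkD.pairOk_sound k22_23_10_5) (by decide) hn t22_23_10_5_22 _ _ (by decide +kernel)

/-- certificates of the pair `(10, 5)`, part 23 -/
def t22_23_10_5_23 : BlkD.Tr :=
  .L 4 4 [4, 22, 22, 22, 22, 22] [] [] 100000 0 0 1700000 100000 25000 100000 50000 0 0 0

lemma s22_23_10_5_23 {n : ℕ} (hn : 7 ≤ n) : NoNd (d22_23_10_5.R : ℤ) d22_23_10_5.H n d22_23_10_5.a d22_23_10_5.b
    (BlkD.inB (BlkD.upd (BlkD.upd (BlkD.upd (BlkD.upd (fun _ => 0) 0 3) 0 5) 1 12) 1 15)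
      (BlkD.upd (BlkD.upd (BlkD.upd (BlkD.upd (fun _ => 23) 0 10) 2 5) 0 5) 1 17)) :=
  BlkD.tree_sound (BlkD.pairOk_sound k22_23_10_5) (by decide) hn t22_23_10_5_23 _ _ (by decide +kernel)

/-- certificates of the pair `(10, 5)`, part 24 -/
def t22_23_10_5_24 : BlkD.Tr :=
  .L 4 4 [4, 22, 22, 22, 22, 22] [] [] 100000 0 0 1700000 100000 25000 100000 50000 0 0 0

lemma s22_23_10_5_24 {n : ℕ} (hn : 7 ≤ n) : NoNd (d22_23_10_5.R : ℤ) d22_23_10_5.H n d22_23_10_5.a d22_23_10_5.b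
    (BlkD.inB (BlkD.upd (BlkD.upd (BlkD.upd (BlkD.upd (fun _ => 0) 0 3) 0 5) 1 12) 1 18)
      (BlkD.upd (BlkD.upd (BlkD.upd (fun _ => 23) 0 10) 2 5) 0 5)) :=
  BlkD.tree_sound (BlkD.pairOk_sound k22_23_10_5) (by decide) hn t22_23_10_5_24 _ _ (by decide +kernel)

/-- certificates of the pair `(10, 5)`, part 25 -/
def t22_23_10_5_25 : BlkD.Tr :=
  .L 4 4 [4, 22, 22, 22, 22, 22] [] [] 100000 0 0 1700000 100000 25000 100000 50000 0 0 0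

lemma s22_23_10_5_25 {n : ℕ} (hn : 7 ≤ n) : NoNd (d22_23_10_5.R : ℤ) d22_23_10_5.H n d22_23_10_5.a d22_23_10_5.b
    (BlkD.inB (BlkD.upd (fun _ => 0) 0 6)
      (BlkD.upd (BlkD.upd (BlkD.upd (BlkD.upd (BlkD.upd (BlkD.upd (BlkD.upd (fun _ => 23) 0 10) 2 5) 0 8) 0 7) 0 6) 1 11) 1 5)) :=
  BlkD.tree_sound (BlkD.pairOk_sound k22_23_10_5) (by decide) hn t22_23_10_5_25 _ _ (by decide +kernel)

/-- certificates of the pair `(10, 5)`, part 26 -/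
def t22_23_10_5_26 : BlkD.Tr :=
  .S 1 7 (.L 4 4 [4, 22, 22, 22, 22, 22] [] [] 100000 0 0 1700000 100000 25000 100000 50000 0 0 0)
    (.L 4 4 [4, 22, 22, 22, 22, 22] [214, 210, 206, 202, 198, 194] [] 100000 0 0 1700000 100000
    25000 100000 50000 0 0 0)

lemma s22_23_10_5_26 {n : ℕ} (hn : 7 ≤ n) : NoNd (d22_23_10_5.R : ℤ) d22_23_10_5.H n d22_23_10_5.a d22_23_10_5.b
    (BlkD.inB (BlkD.upd (BlkD.upd (fun _ => 0) 0 6) 1 6)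
      (BlkD.upd (BlkD.upd (BlkD.upd (BlkD.upd (BlkD.upd (BlkD.upd (BlkD.upd (fun _ => 23) 0 10) 2 5) 0 8) 0 7) 0 6) 1 11) 1 8)) :=
  BlkD.tree_sound (BlkD.pairOk_sound k22_23_10_5) (by decide) hn t22_23_10_5_26 _ _ (by decide +kernel)

/-- certificates of the pair `(10, 5)`, part 27 -/
def t22_23_10_5_27 : BlkD.Tr :=
  .S 1 9 (.L 4 4 [4, 22, 22, 22, 22, 22] [244, 242, 238, 234, 230, 226] [] 100000 0 0 1700000
    100000 25000 100000 50000 0 0 0) (.L 4 4 [4, 22, 22, 22, 22, 22] [274, 274, 272, 268, 264, 260]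
    [] 100000 0 0 1700000 100000 25000 100000 50000 0 0 0)

lemma s22_23_10_5_27 {n : ℕ} (hn : 7 ≤ n) : NoNd (d22_23_10_5.R : ℤ) d22_23_10_5.H n d22_23_10_5.a d22_23_10_5.b
    (BlkD.inB (BlkD.upd (BlkD.upd (BlkD.upd (fun _ => 0) 0 6) 1 6) 1 9)
      (BlkD.upd (BlkD.upd (BlkD.upd (BlkD.upd (BlkD.upd (BlkD.upd (BlkD.upd (fun _ => 23) 0 10) 2 5) 0 8) 0 7) 0 6) 1 11) 1 10)) :=
  BlkD.tree_sound (BlkD.pairOk_sound k22_23_10_5) (by decide) hn t22_23_10_5_27 _ _ (by decide +kernel)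

/-- certificates of the pair `(10, 5)`, part 28 -/
def t22_23_10_5_28 : BlkD.Tr :=
  .L 4 4 [4, 22, 22, 22, 22, 22] [306, 306, 306, 304, 300, 296] [] 100000 0 0 1700000 100000 25000
    100000 50000 0 0 0

lemma s22_23_10_5_28 {n : ℕ} (hn : 7 ≤ n) : NoNd (d22_23_10_5.R : ℤ) d22_23_10_5.H n d22_23_10_5.a d22_23_10_5.b
    (BlkD.inB (BlkD.upd (BlkD.upd (BlkD.upd (BlkD.upd (fun _ => 0) 0 6) 1 6) 1 9) 1 11)
      (BlkD.upd (BlkD.upd (BlkD.upd (BlkD.upd (BlkD.upd (BlkD.upd (fun _ => 23) 0 10) 2 5) 0 8) 0 7) 0 6) 1 11)) :=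
  BlkD.tree_sound (BlkD.pairOk_sound k22_23_10_5) (by decide) hn t22_23_10_5_28 _ _ (by decide +kernel)

/-- certificates of the pair `(10, 5)`, part 29 -/
def t22_23_10_5_29 : BlkD.Tr :=
  .L 4 4 [4, 22, 22, 22, 22, 22] [] [] 100000 0 0 1700000 100000 25000 100000 50000 0 0 0

lemma s22_23_10_5_29 {n : ℕ} (hn : 7 ≤ n) : NoNd (d22_23_10_5.R : ℤ) d22_23_10_5.H n d22_23_10_5.a d22_23_10_5.b
    (BlkD.inB (BlkD.upd (BlkD.upd (fun _ => 0) 0 6) 1 12)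
      (BlkD.upd (BlkD.upd (BlkD.upd (BlkD.upd (BlkD.upd (fun _ => 23) 0 10) 2 5) 0 8) 0 7) 0 6)) :=
  BlkD.tree_sound (BlkD.pairOk_sound k22_23_10_5) (by decide) hn t22_23_10_5_29 _ _ (by decide +kernel)

/-- certificates of the pair `(10, 5)`, part 30 -/
def t22_23_10_5_30 : BlkD.Tr :=
  .L 4 4 [4, 22, 22, 22, 22, 22] [] [] 100000 0 0 1700000 100000 25000 100000 50000 0 0 0

lemma s22_23_10_5_30 {n : ℕ} (hn : 7 ≤ n) : NoNd (d22_23_10_5.R : ℤ) d22_23_10_5.H n d22_23_10_5.a d22_23_10_5.b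
    (BlkD.inB (BlkD.upd (BlkD.upd (fun _ => 0) 0 6) 0 7)
      (BlkD.upd (BlkD.upd (BlkD.upd (BlkD.upd (BlkD.upd (BlkD.upd (fun _ => 23) 0 10) 2 5) 0 8) 0 7) 1 11) 1 5)) :=
  BlkD.tree_sound (BlkD.pairOk_sound k22_23_10_5) (by decide) hn t22_23_10_5_30 _ _ (by decide +kernel)

/-- certificates of the pair `(10, 5)`, part 31 -/
def t22_23_10_5_31 : BlkD.Tr :=
  .S 1 7 (.S 1 6 (.L 4 4 [4, 22, 22, 22, 22, 22] [168, 164, 160, 156, 144, 130] [] 100000 0 0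
    1700000 100000 25000 100000 50000 0 0 0) (.L 4 4 [4, 22, 22, 22, 22, 22] [198, 194, 190, 186,
    182, 170] [] 100000 0 0 1700000 100000 25000 100000 50000 0 0 0)) (.L 4 4 [4, 22, 22, 22, 22,
    22] [230, 226, 222, 218, 214, 210] [] 100000 0 0 1700000 100000 25000 100000 50000 0 0 0)

lemma s22_23_10_5_31 {n : ℕ} (hn : 7 ≤ n) : NoNd (d22_23_10_5.R : ℤ) d22_23_10_5.H n d22_23_10_5.a d22_23_10_5.b
    (BlkD.inB (BlkD.upd (BlkD.upd (BlkD.upd (fun _ => 0) 0 6) 0 7) 1 6)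
      (BlkD.upd (BlkD.upd (BlkD.upd (BlkD.upd (BlkD.upd (BlkD.upd (fun _ => 23) 0 10) 2 5) 0 8) 0 7) 1 11) 1 8)) :=
  BlkD.tree_sound (BlkD.pairOk_sound k22_23_10_5) (by decide) hn t22_23_10_5_31 _ _ (by decide +kernel)

/-- certificates of the pair `(10, 5)`, part 32 -/
def t22_23_10_5_32 : BlkD.Tr :=
  .L 4 4 [4, 22, 22, 22, 22, 22] [] [] 100000 0 0 1700000 100000 25000 100000 50000 0 0 0

lemma s22_23_10_5_32 {n : ℕ} (hn : 7 ≤ n) : NoNd (d22_23_10_5.R : ℤ) d22_23_10_5.H n d22_23_10_5.a d22_23_10_5.b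
    (BlkD.inB (BlkD.upd (BlkD.upd (BlkD.upd (BlkD.upd (fun _ => 0) 0 6) 0 7) 1 6) 1 9)
      (BlkD.upd (BlkD.upd (BlkD.upd (BlkD.upd (BlkD.upd (fun _ => 23) 0 10) 2 5) 0 8) 0 7) 1 11)) :=
  BlkD.tree_sound (BlkD.pairOk_sound k22_23_10_5) (by decide) hn t22_23_10_5_32 _ _ (by decide +kernel)

/-- certificates of the pair `(10, 5)`, part 33 -/
def t22_23_10_5_33 : BlkD.Tr :=
  .L 4 4 [4, 22, 22, 22, 22, 22] [] [] 100000 0 0 1700000 100000 25000 100000 50000 0 0 0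

lemma s22_23_10_5_33 {n : ℕ} (hn : 7 ≤ n) : NoNd (d22_23_10_5.R : ℤ) d22_23_10_5.H n d22_23_10_5.a d22_23_10_5.b
    (BlkD.inB (BlkD.upd (BlkD.upd (BlkD.upd (fun _ => 0) 0 6) 0 7) 1 12)
      (BlkD.upd (BlkD.upd (BlkD.upd (BlkD.upd (fun _ => 23) 0 10) 2 5) 0 8) 0 7)) :=
  BlkD.tree_sound (BlkD.pairOk_sound k22_23_10_5) (by decide) hn t22_23_10_5_33 _ _ (by decide +kernel)

/-- certificates of the pair `(10, 5)`, part 34 -/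
def t22_23_10_5_34 : BlkD.Tr :=
  .L 4 4 [4, 22, 22, 22, 22, 22] [] [] 100000 0 0 1700000 100000 25000 100000 50000 0 0 0

lemma s22_23_10_5_34 {n : ℕ} (hn : 7 ≤ n) : NoNd (d22_23_10_5.R : ℤ) d22_23_10_5.H n d22_23_10_5.a d22_23_10_5.b
    (BlkD.inB (BlkD.upd (BlkD.upd (fun _ => 0) 0 6) 0 8)
      (BlkD.upd (BlkD.upd (BlkD.upd (BlkD.upd (BlkD.upd (fun _ => 23) 0 10) 2 5) 0 8) 1 11) 1 5)) :=
  BlkD.tree_sound (BlkD.pairOk_sound k22_23_10_5) (by decide) hn t22_23_10_5_34 _ _ (by decide +kernel)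

/-- certificates of the pair `(10, 5)`, part 35 -/
def t22_23_10_5_35 : BlkD.Tr :=
  .L 4 4 [4, 22, 22, 22, 22, 22] [] [] 100000 0 0 1700000 100000 25000 100000 50000 0 0 0

lemma s22_23_10_5_35 {n : ℕ} (hn : 7 ≤ n) : NoNd (d22_23_10_5.R : ℤ) d22_23_10_5.H n d22_23_10_5.a d22_23_10_5.b
    (BlkD.inB (BlkD.upd (BlkD.upd (BlkD.upd (fun _ => 0) 0 6) 0 8) 1 6)
      (BlkD.upd (BlkD.upd (BlkD.upd (BlkD.upd (fun _ => 23) 0 10) 2 5) 0 8) 1 11)) :=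
  BlkD.tree_sound (BlkD.pairOk_sound k22_23_10_5) (by decide) hn t22_23_10_5_35 _ _ (by decide +kernel)

/-- certificates of the pair `(10, 5)`, part 36 -/
def t22_23_10_5_36 : BlkD.Tr :=
  .L 4 4 [4, 22, 22, 22, 22, 22] [] [] 100000 0 0 1700000 100000 25000 100000 50000 0 0 0

lemma s22_23_10_5_36 {n : ℕ} (hn : 7 ≤ n) : NoNd (d22_23_10_5.R : ℤ) d22_23_10_5.H n d22_23_10_5.a d22_23_10_5.b
    (BlkD.inB (BlkD.upd (BlkD.upd (BlkD.upd (fun _ => 0) 0 6) 0 8) 1 12)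
      (BlkD.upd (BlkD.upd (BlkD.upd (fun _ => 23) 0 10) 2 5) 0 8)) :=
  BlkD.tree_sound (BlkD.pairOk_sound k22_23_10_5) (by decide) hn t22_23_10_5_36 _ _ (by decide +kernel)

/-- certificates of the pair `(10, 5)`, part 37 -/
def t22_23_10_5_37 : BlkD.Tr :=
  .L 4 4 [4, 22, 22, 22, 22, 22] [] [] 100000 0 0 1700000 100000 25000 100000 50000 0 0 0

lemma s22_23_10_5_37 {n : ℕ} (hn : 7 ≤ n) : NoNd (d22_23_10_5.R : ℤ) d22_23_10_5.H n d22_23_10_5.a d22_23_10_5.b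
    (BlkD.inB (BlkD.upd (BlkD.upd (fun _ => 0) 0 6) 0 9)
      (BlkD.upd (BlkD.upd (fun _ => 23) 0 10) 2 5)) :=
  BlkD.tree_sound (BlkD.pairOk_sound k22_23_10_5) (by decide) hn t22_23_10_5_37 _ _ (by decide +kernel)

/-- certificates of the pair `(10, 5)`, part 38 -/
def t22_23_10_5_38 : BlkD.Tr :=
  .E 1

lemma s22_23_10_5_38 {n : ℕ} (hn : 7 ≤ n) : NoNd (d22_23_10_5.R : ℤ) d22_23_10_5.H n d22_23_10_5.a d22_23_10_5.b
    (BlkD.inB (BlkD.upd (fun _ => 0) 2 6)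
      (BlkD.upd (fun _ => 23) 0 10)) :=
  BlkD.tree_sound (BlkD.pairOk_sound k22_23_10_5) (by decide) hn t22_23_10_5_38 _ _ (by decide +kernel)

/-- certificates of the pair `(10, 5)`, part 39 -/
def t22_23_10_5_39 : BlkD.Tr :=
  .E 0

lemma s22_23_10_5_39 {n : ℕ} (hn : 7 ≤ n) : NoNd (d22_23_10_5.R : ℤ) d22_23_10_5.H n d22_23_10_5.a d22_23_10_5.b
    (BlkD.inB (BlkD.upd (fun _ => 0) 0 11)
      (fun _ => 23)) :=
  BlkD.tree_sound (BlkD.pairOk_sound k22_23_10_5) (by decide) hn t22_23_10_5_39 _ _ (by decide +kernel)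

lemma pr22_23_10_5 {n : ℕ} (hn : 7 ≤ n) : NoPr ((22 : ℕ) : ℤ) ((23 : ℕ) : ℤ) n 10 5 :=
  BlkD.of_root (R := d22_23_10_5.R) (H := d22_23_10_5.H) (a := d22_23_10_5.a) (b := d22_23_10_5.b) (q := 5) (by decide) hn
    (BlkD.sp 0 10 (BlkD.sp 2 5 (BlkD.sp 0 5 (BlkD.sp 0 2 (BlkD.sp 0 1 (BlkD.sp 0 0 (s22_23_10_5_1
      hn) (BlkD.sp 1 11 (BlkD.sp 1 5 (s22_23_10_5_2 hn) (s22_23_10_5_3 hn)) (s22_23_10_5_4 hn)))
      (BlkD.sp 1 11 (BlkD.sp 1 5 (s22_23_10_5_5 hn) (s22_23_10_5_6 hn)) (s22_23_10_5_7 hn)))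
      (BlkD.sp 0 4 (BlkD.sp 0 3 (BlkD.sp 1 11 (BlkD.sp 1 5 (s22_23_10_5_8 hn) (s22_23_10_5_9 hn))
      (s22_23_10_5_10 hn)) (BlkD.sp 1 11 (BlkD.sp 1 5 (s22_23_10_5_11 hn) (BlkD.sp 1 8
      (s22_23_10_5_12 hn) (s22_23_10_5_13 hn))) (BlkD.sp 1 17 (BlkD.sp 1 14 (s22_23_10_5_14 hn)
      (s22_23_10_5_15 hn)) (s22_23_10_5_16 hn)))) (BlkD.sp 1 11 (BlkD.sp 1 5 (s22_23_10_5_17 hn)
      (BlkD.sp 1 8 (s22_23_10_5_18 hn) (BlkD.sp 1 10 (s22_23_10_5_19 hn) (s22_23_10_5_20 hn))))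
      (BlkD.sp 1 17 (BlkD.sp 1 14 (BlkD.sp 1 13 (s22_23_10_5_21 hn) (s22_23_10_5_22 hn))
      (s22_23_10_5_23 hn)) (s22_23_10_5_24 hn))))) (BlkD.sp 0 8 (BlkD.sp 0 7 (BlkD.sp 0 6 (BlkD.sp
      1 11 (BlkD.sp 1 5 (s22_23_10_5_25 hn) (BlkD.sp 1 8 (s22_23_10_5_26 hn) (BlkD.sp 1 10
      (s22_23_10_5_27 hn) (s22_23_10_5_28 hn)))) (s22_23_10_5_29 hn)) (BlkD.sp 1 11 (BlkD.sp 1 5
      (s22_23_10_5_30 hn) (BlkD.sp 1 8 (s22_23_10_5_31 hn) (s22_23_10_5_32 hn))) (s22_23_10_5_33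
      hn))) (BlkD.sp 1 11 (BlkD.sp 1 5 (s22_23_10_5_34 hn) (s22_23_10_5_35 hn)) (s22_23_10_5_36
      hn))) (s22_23_10_5_37 hn))) (s22_23_10_5_38 hn)) (s22_23_10_5_39 hn))

end BlkC

end Pool.Agent.Lib.MP_f04ccf_co
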