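import Pool.Agent.Lib.MP_f04ccf_co.M.BlkT

/-!
MP_f04ccf_co, block certificate, data `R = 22`, `H = 23`, part 26 (generated, helper99:
bd10.cpp, gen2.py).
-/

set_option autoImplicit false
set_option maxRecDepth 100000

namespace Pool.Agent.Lib.MP_f04ccf_co

namespace BlkC

/-- the numbers of the pair `(11, 0)`, `R = 22`, `H = 23` -/
def d22_23_11_0 : BlkD.Pd :=
  ⟨22, 23, 5, 11, 0, 9, 0, 1, 0, 4, 4, 0, 0, 4, 4, 0, [0, 4, 8, 12, 16, 20, 24, 28, 32, 36], [0, 4,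
    8, 12, 16, 20, 24, 28, 32, 36], [⟨1, 1, 1, 4, 8, [0, 4], [0, 4]⟩]⟩

lemma k22_23_11_0 : BlkD.pairOk d22_23_11_0 = true := by decide +kernel

/-- certificates of the pair `(11, 0)`, part 1 -/
def t22_23_11_0_1 : BlkD.Tr :=
  .S 0 2 (.L 4 4 [4] [] [] 100000 0 0 1250000 75000 0 75000 0 0 0 0) (.L 4 4 [4] [] [] 100000 0 0
    1250000 75000 0 75000 0 0 0 0)

lemma s22_23_11_0_1 {n : ℕ} (hn : 7 ≤ n) : NoNd (d22_23_11_0.R : ℤ) d22_23_11_0.H n d22_23_11_0.a d22_23_11_0.b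
    (BlkD.inB (fun _ => 0)
      (BlkD.upd (BlkD.upd (BlkD.upd (fun _ => 23) 0 11) 2 0) 0 5)) :=
  BlkD.tree_sound (BlkD.pairOk_sound k22_23_11_0) (by decide) hn t22_23_11_0_1 _ _ (by decide +kernel)

/-- certificates of the pair `(11, 0)`, part 2 -/
def t22_23_11_0_2 : BlkD.Tr :=
  .L 4 4 [4] [] [] 100000 0 0 1250000 75000 0 75000 0 0 0 0

lemma s22_23_11_0_2 {n : ℕ} (hn : 7 ≤ n) : NoNd (d22_23_11_0.R : ℤ) d22_23_11_0.H n d22_23_11_0.a d22_23_11_0.b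
    (BlkD.inB (BlkD.upd (fun _ => 0) 0 6)
      (BlkD.upd (BlkD.upd (fun _ => 23) 0 11) 2 0)) :=
  BlkD.tree_sound (BlkD.pairOk_sound k22_23_11_0) (by decide) hn t22_23_11_0_2 _ _ (by decide +kernel)

/-- certificates of the pair `(11, 0)`, part 3 -/
def t22_23_11_0_3 : BlkD.Tr :=
  .E 1

lemma s22_23_11_0_3 {n : ℕ} (hn : 7 ≤ n) : NoNd (d22_23_11_0.R : ℤ) d22_23_11_0.H n d22_23_11_0.a d22_23_11_0.b
    (BlkD.inB (BlkD.upd (fun _ => 0) 2 1)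
      (BlkD.upd (fun _ => 23) 0 11)) :=
  BlkD.tree_sound (BlkD.pairOk_sound k22_23_11_0) (by decide) hn t22_23_11_0_3 _ _ (by decide +kernel)

/-- certificates of the pair `(11, 0)`, part 4 -/
def t22_23_11_0_4 : BlkD.Tr :=
  .E 0

lemma s22_23_11_0_4 {n : ℕ} (hn : 7 ≤ n) : NoNd (d22_23_11_0.R : ℤ) d22_23_11_0.H n d22_23_11_0.a d22_23_11_0.b
    (BlkD.inB (BlkD.upd (fun _ => 0) 0 12)
      (fun _ => 23)) :=
  BlkD.tree_sound (BlkD.pairOk_sound k22_23_11_0) (by decide) hn t22_23_11_0_4 _ _ (by decide +kernel)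

lemma pr22_23_11_0 {n : ℕ} (hn : 7 ≤ n) : NoPr ((22 : ℕ) : ℤ) ((23 : ℕ) : ℤ) n 11 0 :=
  BlkD.of_root (R := d22_23_11_0.R) (H := d22_23_11_0.H) (a := d22_23_11_0.a) (b := d22_23_11_0.b) (q := 5) (by decide) hn
    (BlkD.sp 0 11 (BlkD.sp 2 0 (BlkD.sp 0 5 (s22_23_11_0_1 hn) (s22_23_11_0_2 hn)) (s22_23_11_0_3
      hn)) (s22_23_11_0_4 hn))

/-- the numbers of the pair `(11, 1)`, `R = 22`, `H = 23` -/
def d22_23_11_1 : BlkD.Pd :=
  ⟨22, 23, 5, 11, 1, 8, 1, 1, 0, 4, 8, 0, 0, 4, 4, 0, [0, 8, 16, 24, 32, 32, 32, 32, 32], [0, 4, 8,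
    12, 16, 20, 24, 28, 32], [⟨1, 1, 1, 4, 8, [0, 4], [0, 4]⟩, ⟨1, 1, 1, 4, 12, [0, 8], [0, 4]⟩]⟩

lemma k22_23_11_1 : BlkD.pairOk d22_23_11_1 = true := by decide +kernel

/-- certificates of the pair `(11, 1)`, part 1 -/
def t22_23_11_1_1 : BlkD.Tr :=
  .S 0 1 (.L 4 6 [4, 4] [] [] 100000 5263 5263 1363158 68421 0 84211 0 0 0 0) (.L 4 6 [4, 4] [] []
    100000 5263 5263 1363158 68421 0 84211 0 0 0 0)

lemma s22_23_11_1_1 {n : ℕ} (hn : 7 ≤ n) : NoNd (d22_23_11_1.R : ℤ) d22_23_11_1.H n d22_23_11_1.a d22_23_11_1.b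
    (BlkD.inB (fun _ => 0)
      (BlkD.upd (BlkD.upd (BlkD.upd (BlkD.upd (fun _ => 23) 0 11) 2 1) 0 5) 0 2)) :=
  BlkD.tree_sound (BlkD.pairOk_sound k22_23_11_1) (by decide) hn t22_23_11_1_1 _ _ (by decide +kernel)

/-- certificates of the pair `(11, 1)`, part 2 -/
def t22_23_11_1_2 : BlkD.Tr :=
  .S 0 4 (.S 0 3 (.L 4 6 [4, 4] [] [] 100000 5263 5263 1363158 68421 0 84211 0 0 0 0) (.L 4 6 [4,
    4] [] [] 100000 5263 5263 1363158 68421 0 84211 0 0 0 0)) (.L 4 6 [4, 4] [] [] 100000 5263 5263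
    1363158 68421 0 84211 0 0 0 0)

lemma s22_23_11_1_2 {n : ℕ} (hn : 7 ≤ n) : NoNd (d22_23_11_1.R : ℤ) d22_23_11_1.H n d22_23_11_1.a d22_23_11_1.b
    (BlkD.inB (BlkD.upd (fun _ => 0) 0 3)
      (BlkD.upd (BlkD.upd (BlkD.upd (fun _ => 23) 0 11) 2 1) 0 5)) :=
  BlkD.tree_sound (BlkD.pairOk_sound k22_23_11_1) (by decide) hn t22_23_11_1_2 _ _ (by decide +kernel)

/-- certificates of the pair `(11, 1)`, part 3 -/
def t22_23_11_1_3 : BlkD.Tr :=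
  .S 0 8 (.S 0 7 (.L 4 6 [4, 4] [] [] 100000 5263 5263 1363158 68421 0 84211 0 0 0 0) (.L 4 6 [4,
    4] [] [] 100000 5263 5263 1363158 68421 0 84211 0 0 0 0)) (.L 4 6 [4, 4] [] [] 100000 5263 5263
    1363158 68421 0 84211 0 0 0 0)

lemma s22_23_11_1_3 {n : ℕ} (hn : 7 ≤ n) : NoNd (d22_23_11_1.R : ℤ) d22_23_11_1.H n d22_23_11_1.a d22_23_11_1.b
    (BlkD.inB (BlkD.upd (fun _ => 0) 0 6)
      (BlkD.upd (BlkD.upd (fun _ => 23) 0 11) 2 1)) :=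
  BlkD.tree_sound (BlkD.pairOk_sound k22_23_11_1) (by decide) hn t22_23_11_1_3 _ _ (by decide +kernel)

/-- certificates of the pair `(11, 1)`, part 4 -/
def t22_23_11_1_4 : BlkD.Tr :=
  .E 1

lemma s22_23_11_1_4 {n : ℕ} (hn : 7 ≤ n) : NoNd (d22_23_11_1.R : ℤ) d22_23_11_1.H n d22_23_11_1.a d22_23_11_1.b
    (BlkD.inB (BlkD.upd (fun _ => 0) 2 2)
      (BlkD.upd (fun _ => 23) 0 11)) :=
  BlkD.tree_sound (BlkD.pairOk_sound k22_23_11_1) (by decide) hn t22_23_11_1_4 _ _ (by decide +kernel)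

/-- certificates of the pair `(11, 1)`, part 5 -/
def t22_23_11_1_5 : BlkD.Tr :=
  .E 0

lemma s22_23_11_1_5 {n : ℕ} (hn : 7 ≤ n) : NoNd (d22_23_11_1.R : ℤ) d22_23_11_1.H n d22_23_11_1.a d22_23_11_1.b
    (BlkD.inB (BlkD.upd (fun _ => 0) 0 12)
      (fun _ => 23)) :=
  BlkD.tree_sound (BlkD.pairOk_sound k22_23_11_1) (by decide) hn t22_23_11_1_5 _ _ (by decide +kernel)

lemma pr22_23_11_1 {n : ℕ} (hn : 7 ≤ n) : NoPr ((22 : ℕ) : ℤ) ((23 : ℕ) : ℤ) n 11 1 :=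
  BlkD.of_root (R := d22_23_11_1.R) (H := d22_23_11_1.H) (a := d22_23_11_1.a) (b := d22_23_11_1.b) (q := 5) (by decide) hn
    (BlkD.sp 0 11 (BlkD.sp 2 1 (BlkD.sp 0 5 (BlkD.sp 0 2 (s22_23_11_1_1 hn) (s22_23_11_1_2 hn))
      (s22_23_11_1_3 hn)) (s22_23_11_1_4 hn)) (s22_23_11_1_5 hn))

/-- the numbers of the pair `(11, 2)`, `R = 22`, `H = 23` -/
def d22_23_11_2 : BlkD.Pd :=
  ⟨22, 23, 5, 11, 2, 7, 2, 2, 0, 6, 10, 0, 3, 1, 6, 0, [0, 10, 20, 30, 40, 42, 42, 42], [0, 6, 12,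
    16, 19, 22, 25, 28], [⟨1, 1, 1, 4, 8, [0, 4], [0, 4]⟩, ⟨1, 1, 1, 4, 12, [0, 8], [0, 4]⟩, ⟨2, 1,
    1, 4, 24, [0, 10, 18], [0, 6]⟩]⟩

lemma k22_23_11_2 : BlkD.pairOk d22_23_11_2 = true := by decide +kernel

/-- certificates of the pair `(11, 2)`, part 1 -/
def t22_23_11_2_1 : BlkD.Tr :=
  .S 0 0 (.L 5 8 [4, 4, 4] [] [] 100000 158333 158333 1233336 83333 0 100000 33333 0 0 0) (.S 1 11
    (.S 1 5 (.L 5 8 [4, 4, 4] [] [] 100000 158333 158333 1233336 83333 0 100000 33333 0 0 0) (.L 5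
    8 [4, 4, 4] [] [] 100000 158333 158333 1233336 83333 0 100000 33333 0 0 0)) (.L 5 8 [4, 4, 4]
    [] [] 100000 158333 158333 1233336 83333 0 100000 33333 0 0 0))

lemma s22_23_11_2_1 {n : ℕ} (hn : 7 ≤ n) : NoNd (d22_23_11_2.R : ℤ) d22_23_11_2.H n d22_23_11_2.a d22_23_11_2.b
    (BlkD.inB (fun _ => 0)
      (BlkD.upd (BlkD.upd (BlkD.upd (BlkD.upd (BlkD.upd (fun _ => 23) 0 11) 2 2) 0 5) 0 2) 0 1)) :=
  BlkD.tree_sound (BlkD.pairOk_sound k22_23_11_2) (by decide) hn t22_23_11_2_1 _ _ (by decide +kernel)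

/-- certificates of the pair `(11, 2)`, part 2 -/
def t22_23_11_2_2 : BlkD.Tr :=
  .S 1 11 (.S 1 5 (.L 5 8 [4, 4, 4] [] [] 100000 158333 158333 1233336 83333 0 100000 33333 0 0 0)
    (.L 5 8 [4, 4, 4] [] [] 100000 158333 158333 1233336 83333 0 100000 33333 0 0 0)) (.L 5 8 [4,
    4, 4] [] [] 100000 158333 158333 1233336 83333 0 100000 33333 0 0 0)

lemma s22_23_11_2_2 {n : ℕ} (hn : 7 ≤ n) : NoNd (d22_23_11_2.R : ℤ) d22_23_11_2.H n d22_23_11_2.a d22_23_11_2.b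
    (BlkD.inB (BlkD.upd (fun _ => 0) 0 2)
      (BlkD.upd (BlkD.upd (BlkD.upd (BlkD.upd (fun _ => 23) 0 11) 2 2) 0 5) 0 2)) :=
  BlkD.tree_sound (BlkD.pairOk_sound k22_23_11_2) (by decide) hn t22_23_11_2_2 _ _ (by decide +kernel)

/-- certificates of the pair `(11, 2)`, part 3 -/
def t22_23_11_2_3 : BlkD.Tr :=
  .S 1 11 (.S 1 5 (.L 5 8 [4, 4, 4] [] [] 100000 158333 158333 1233336 83333 0 100000 33333 0 0 0)
    (.L 5 8 [4, 4, 4] [] [] 100000 158333 158333 1233336 83333 0 100000 33333 0 0 0)) (.L 5 8 [4,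
    4, 4] [] [] 100000 158333 158333 1233336 83333 0 100000 33333 0 0 0)

lemma s22_23_11_2_3 {n : ℕ} (hn : 7 ≤ n) : NoNd (d22_23_11_2.R : ℤ) d22_23_11_2.H n d22_23_11_2.a d22_23_11_2.b
    (BlkD.inB (BlkD.upd (fun _ => 0) 0 3)
      (BlkD.upd (BlkD.upd (BlkD.upd (BlkD.upd (BlkD.upd (fun _ => 23) 0 11) 2 2) 0 5) 0 4) 0 3)) :=
  BlkD.tree_sound (BlkD.pairOk_sound k22_23_11_2) (by decide) hn t22_23_11_2_3 _ _ (by decide +kernel)

/-- certificates of the pair `(11, 2)`, part 4 -/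
def t22_23_11_2_4 : BlkD.Tr :=
  .S 1 11 (.S 1 5 (.L 5 8 [4, 4, 4] [] [] 100000 158333 158333 1233336 83333 0 100000 33333 0 0 0)
    (.L 5 8 [4, 4, 4] [] [] 100000 158333 158333 1233336 83333 0 100000 33333 0 0 0)) (.L 5 8 [4,
    4, 4] [] [] 100000 158333 158333 1233336 83333 0 100000 33333 0 0 0)

lemma s22_23_11_2_4 {n : ℕ} (hn : 7 ≤ n) : NoNd (d22_23_11_2.R : ℤ) d22_23_11_2.H n d22_23_11_2.a d22_23_11_2.b
    (BlkD.inB (BlkD.upd (BlkD.upd (fun _ => 0) 0 3) 0 4)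
      (BlkD.upd (BlkD.upd (BlkD.upd (BlkD.upd (fun _ => 23) 0 11) 2 2) 0 5) 0 4)) :=
  BlkD.tree_sound (BlkD.pairOk_sound k22_23_11_2) (by decide) hn t22_23_11_2_4 _ _ (by decide +kernel)

/-- certificates of the pair `(11, 2)`, part 5 -/
def t22_23_11_2_5 : BlkD.Tr :=
  .S 1 11 (.S 1 5 (.L 5 8 [4, 4, 4] [] [] 100000 158333 158333 1233336 83333 0 100000 33333 0 0 0)
    (.L 5 8 [4, 4, 4] [] [] 100000 158333 158333 1233336 83333 0 100000 33333 0 0 0)) (.L 5 8 [4,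
    4, 4] [] [] 100000 158333 158333 1233336 83333 0 100000 33333 0 0 0)

lemma s22_23_11_2_5 {n : ℕ} (hn : 7 ≤ n) : NoNd (d22_23_11_2.R : ℤ) d22_23_11_2.H n d22_23_11_2.a d22_23_11_2.b
    (BlkD.inB (BlkD.upd (BlkD.upd (fun _ => 0) 0 3) 0 5)
      (BlkD.upd (BlkD.upd (BlkD.upd (fun _ => 23) 0 11) 2 2) 0 5)) :=
  BlkD.tree_sound (BlkD.pairOk_sound k22_23_11_2) (by decide) hn t22_23_11_2_5 _ _ (by decide +kernel)

/-- certificates of the pair `(11, 2)`, part 6 -/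
def t22_23_11_2_6 : BlkD.Tr :=
  .S 1 17 (.S 1 8 (.L 5 8 [4, 4, 4] [] [] 100000 16667 16667 1466669 33333 0 33333 0 0 0 0) (.S 1
    13 (.S 1 11 (.S 1 10 (.S 1 9 (.L 5 8 [4, 4, 4] [240, 240, 240, 238, 230, 220] [] 100000 35714
    35714 1457144 42857 0 57143 0 0 0 0) (.L 5 8 [4, 4, 4] [270, 270, 270, 270, 268, 260] [] 100000
    58334 58334 1450000 50000 0 66667 16667 0 0 0)) (.L 5 8 [4, 4, 4] [302, 302, 302, 302, 302,
    300] [] 100000 59090 59090 1454550 54545 0 72727 9091 0 9091 9091)) (.S 1 12 (.L 5 8 [4, 4, 4]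
    [336, 336, 336, 336, 336, 336] [] 100000 94446 94446 1366665 66667 0 100000 11111 0 11111
    11111) (.L 5 8 [4, 4, 4] [372, 372, 372, 372, 372, 372] [] 100000 150000 150000 1200000 100000
    0 100000 0 0 0 0))) (.S 1 15 (.S 1 14 (.L 5 8 [4, 4, 4] [410, 410, 410, 410, 410, 410] []
    100000 87500 87500 1325000 75000 0 100000 0 0 0 0) (.L 5 8 [4, 4, 4] [450, 450, 450, 450, 450,
    450] [] 100000 325000 175000 0 200000 0 250000 0 0 0 0)) (.S 1 16 (.L 5 8 [4, 4, 4] [492, 492,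
    492, 492, 492, 492] [] 100000 297728 161364 0 186364 0 236364 0 0 0 0) (.L 5 8 [4, 4, 4] [536,
    536, 536, 536, 536, 536] [] 100000 283334 191667 0 191667 0 191667 0 0 0 0))))) (.E 0)

lemma s22_23_11_2_6 {n : ℕ} (hn : 7 ≤ n) : NoNd (d22_23_11_2.R : ℤ) d22_23_11_2.H n d22_23_11_2.a d22_23_11_2.b
    (BlkD.inB (BlkD.upd (fun _ => 0) 0 6)
      (BlkD.upd (BlkD.upd (BlkD.upd (BlkD.upd (BlkD.upd (fun _ => 23) 0 11) 2 2) 0 8) 0 7) 0 6)) :=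
  BlkD.tree_sound (BlkD.pairOk_sound k22_23_11_2) (by decide) hn t22_23_11_2_6 _ _ (by decide +kernel)

/-- certificates of the pair `(11, 2)`, part 7 -/
def t22_23_11_2_7 : BlkD.Tr :=
  .S 1 16 (.S 1 8 (.S 1 4 (.L 5 8 [4, 4, 4] [] [] 100000 16667 16667 1300001 33333 0 33333 0 0 0 0)
    (.S 1 6 (.L 5 8 [4, 4, 4] [] [] 100000 16667 16667 1433335 33333 0 33333 0 0 0 0) (.S 1 7 (.L 5
    8 [4, 4, 4] [200, 198, 190, 180, 170, 160] [] 100000 8333 8333 1500002 33333 0 33333 0 0 16667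
    16667) (.L 5 8 [4, 4, 4] [228, 228, 226, 218, 208, 198] [] 100000 50001 50001 1476923 46154 0
    69231 7692 0 23077 23077)))) (.S 1 12 (.S 1 10 (.S 1 9 (.L 5 8 [4, 4, 4] [258, 258, 258, 256,
    248, 238] [] 100000 41667 41667 1500000 50000 0 66667 16667 0 16667 16667) (.L 5 8 [4, 4, 4]
    [290, 290, 290, 290, 288, 280] [] 100000 94446 94446 1399999 66667 0 100000 11111 0 11111
    11111)) (.S 1 11 (.L 5 8 [4, 4, 4] [324, 324, 324, 324, 324, 322] [] 100000 100000 100000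
    1350000 75000 0 100000 25000 0 0 0) (.L 5 8 [4, 4, 4] [360, 360, 360, 360, 360, 360] [] 100000
    87500 87500 1350000 75000 0 100000 25000 0 0 0))) (.S 1 14 (.S 1 13 (.L 5 8 [4, 4, 4] [398,
    398, 398, 398, 398, 398] [] 100000 150000 150000 1200000 100000 0 100000 0 0 0 0) (.L 5 8 [4,
    4, 4] [438, 438, 438, 438, 438, 438] [] 100000 347222 186111 1 211111 0 261111 0 0 0 0)) (.S 1
    15 (.L 5 8 [4, 4, 4] [480, 480, 480, 480, 480, 480] [] 100000 340000 220000 0 220000 0 220000 0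
    0 0 0) (.L 5 8 [4, 4, 4] [524, 524, 524, 524, 524, 524] [] 100000 263158 121053 1 181579 0
    242105 0 0 0 0))))) (.E 0)

lemma s22_23_11_2_7 {n : ℕ} (hn : 7 ≤ n) : NoNd (d22_23_11_2.R : ℤ) d22_23_11_2.H n d22_23_11_2.a d22_23_11_2.b
    (BlkD.inB (BlkD.upd (BlkD.upd (fun _ => 0) 0 6) 0 7)
      (BlkD.upd (BlkD.upd (BlkD.upd (BlkD.upd (fun _ => 23) 0 11) 2 2) 0 8) 0 7)) :=
  BlkD.tree_sound (BlkD.pairOk_sound k22_23_11_2) (by decide) hn t22_23_11_2_7 _ _ (by decide +kernel)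

/-- certificates of the pair `(11, 2)`, part 8 -/
def t22_23_11_2_8 : BlkD.Tr :=
  .S 1 15 (.S 1 7 (.S 1 3 (.L 5 8 [4, 4, 4] [] [] 100000 0 0 1400000 0 0 0 0 0 0 0) (.S 1 5 (.L 5 8
    [4, 4, 4] [] [] 100000 25000 25000 1400000 50000 0 50000 0 0 0 0) (.S 1 6 (.L 5 8 [4, 4, 4]
    [184, 176, 166, 156, 146, 136] [] 100000 20000 20000 1500000 40000 0 40000 0 0 0 0) (.L 5 8 [4,
    4, 4] [214, 212, 204, 194, 184, 174] [] 100000 10000 10000 1560000 40000 0 40000 0 0 20000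
    20000)))) (.S 1 11 (.S 1 9 (.S 1 8 (.S 2 1 (.S 2 0 (.S 3 7 (.S 3 3 (.S 3 1 (.L 5 8 [4, 4, 4]
    [244, 244, 242, 234, 224, 214] [] 100000 20000 20000 1500000 40000 0 80000 40000 0 0 0) (.S 3 2
    (.L 5 8 [4, 4, 4] [244, 244, 242, 234, 224, 214] [20, 12, 2, 0, 0, 0] 100000 10000 10000
    1560000 40000 0 60000 20000 0 20000 20000) (.S 4 8 (.S 4 4 (.L 5 8 [4, 4, 4] [224, 214, 204,
    194, 184, 0] [30, 24, 16, 6, 0, 0] 100000 150000 150000 1200000 100000 0 100000 0 0 0 0) (.L 5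
    8 [4, 4, 4] [244, 244, 242, 234, 224, 214] [30, 24, 16, 6, 0, 0] 100000 214286 0 0 78571 0
    314286 171429 0 0 0)) (.E 2)))) (.E 1)) (.E 1)) (.S 3 6 (.S 3 3 (.S 3 1 (.L 5 8 [4, 4, 4] [244,
    244, 242, 234, 224, 214] [] 100000 10000 10000 1560000 40000 0 50000 0 0 20000 20000) (.L 4 7
    [4, 4, 5] [244, 244, 242, 234, 224, 214] [] 100000 200000 200000 1100000 100000 0 100000 0 0 0
    0)) (.E 1)) (.E 1))) (.L 4 7 [4, 4, 5] [244, 244, 242, 234, 224, 214] [] 100000 200000 200000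
    1100000 100000 0 100000 0 0 0 0)) (.L 5 8 [4, 4, 4] [276, 276, 276, 274, 266, 256] [] 100000
    72223 72223 1444444 66667 0 88889 22222 0 0 0)) (.S 1 10 (.L 5 8 [4, 4, 4] [310, 310, 310, 310,
    308, 300] [] 100000 61112 61112 1433333 66667 0 100000 11111 0 11111 11111) (.L 5 8 [4, 4, 4]
    [346, 346, 346, 346, 346, 344] [] 100000 61112 61112 1433332 66667 0 100000 11111 0 11111 0)))
    (.S 1 13 (.S 1 12 (.L 5 8 [4, 4, 4] [384, 384, 384, 384, 384, 384] [] 100000 100000 100000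
    1300000 100000 0 100000 0 0 0 0) (.L 5 8 [4, 4, 4] [424, 424, 424, 424, 424, 424] [] 100000
    250000 50000 0 200000 0 300000 0 0 0 0)) (.S 1 14 (.L 5 8 [4, 4, 4] [466, 466, 466, 466, 466,
    466] [] 100000 265909 104545 0 209091 0 261364 0 0 0 0) (.L 5 8 [4, 4, 4] [510, 510, 510, 510,
    510, 510] [] 100000 235418 95835 0 191667 0 239583 0 0 0 0))))) (.E 0)

lemma s22_23_11_2_8 {n : ℕ} (hn : 7 ≤ n) : NoNd (d22_23_11_2.R : ℤ) d22_23_11_2.H n d22_23_11_2.a d22_23_11_2.b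
    (BlkD.inB (BlkD.upd (BlkD.upd (fun _ => 0) 0 6) 0 8)
      (BlkD.upd (BlkD.upd (BlkD.upd (fun _ => 23) 0 11) 2 2) 0 8)) :=
  BlkD.tree_sound (BlkD.pairOk_sound k22_23_11_2) (by decide) hn t22_23_11_2_8 _ _ (by decide +kernel)

/-- certificates of the pair `(11, 2)`, part 9 -/
def t22_23_11_2_9 : BlkD.Tr :=
  .S 0 10 (.S 0 9 (.S 1 14 (.S 1 7 (.S 1 3 (.L 5 8 [4, 4, 4] [] [] 100000 0 0 1500000 0 0 0 0 0 0
    0) (.S 1 5 (.L 5 8 [4, 4, 4] [] [] 100000 25000 25000 1500000 50000 0 50000 0 0 0 0) (.S 1 6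
    (.S 2 1 (.S 2 0 (.S 3 8 (.S 3 4 (.S 3 2 (.L 5 8 [4, 4, 4] [196, 188, 178, 168, 158, 148] []
    100000 20000 20000 1500000 40000 0 80000 40000 0 0 0) (.S 3 3 (.S 4 6 (.S 4 3 (.L 5 8 [4, 4, 4]
    [168, 158, 148, 138, 0, 0] [30, 24, 16, 6, 0, 0] 100000 25000 25000 1500000 50000 0 50000 50000
    0 0 0) (.L 5 8 [4, 4, 4] [196, 188, 178, 168, 158, 148] [30, 24, 16, 6, 0, 0] 100000 100000 0
    800000 50000 0 200000 150000 0 0 0)) (.E 2)) (.E 1))) (.E 1)) (.E 1)) (.L 5 8 [4, 4, 4] [196,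
    188, 178, 168, 158, 148] [] 100000 10000 10000 1560000 40000 0 80000 0 0 20000 20000)) (.L 5 8
    [4, 4, 4] [196, 188, 178, 168, 158, 148] [] 100000 83335 83335 1399998 66667 0 66667 0 0 33333
    33333)) (.S 2 1 (.S 2 0 (.S 3 7 (.S 3 3 (.S 3 1 (.L 5 8 [4, 4, 4] [228, 226, 218, 208, 198,
    188] [] 100000 21429 21429 1485715 42857 0 85714 42857 0 0 0) (.S 3 2 (.L 5 8 [4, 4, 4] [228,
    226, 218, 208, 198, 188] [20, 12, 2, 0, 0, 0] 100000 15790 15790 1531581 47368 0 63158 31579 0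
    15789 15789) (.S 4 7 (.S 4 3 (.L 5 8 [4, 4, 4] [198, 188, 178, 168, 0, 0] [30, 24, 16, 6, 0, 0]
    100000 100000 100000 1300000 100000 0 100000 0 0 0 0) (.L 5 8 [4, 4, 4] [228, 226, 218, 208,
    198, 188] [30, 24, 16, 6, 0, 0] 100000 71429 0 999999 42857 0 171429 128571 0 0 0)) (.E 2))))
    (.E 1)) (.E 1)) (.L 5 8 [4, 4, 4] [228, 226, 218, 208, 198, 188] [] 100000 25000 25000 1500000
    50000 0 100000 0 0 0 0)) (.L 5 8 [4, 4, 4] [228, 226, 218, 208, 198, 188] [] 100000 150000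
    150000 1200000 100000 0 100000 0 0 0 0))))) (.S 1 11 (.S 1 9 (.S 1 8 (.L 5 8 [4, 4, 4] [260,
    260, 258, 250, 240, 230] [] 100000 25000 25000 1500000 50000 0 100000 50000 0 0 0) (.L 5 8 [4,
    4, 4] [294, 294, 294, 292, 284, 274] [] 100000 50001 50001 1433333 66667 0 100000 33333 0 0 0))
    (.S 1 10 (.L 5 8 [4, 4, 4] [330, 330, 330, 330, 328, 320] [] 100000 33334 33334 1466666 66667 0
    100000 0 0 0 0) (.L 5 8 [4, 4, 4] [368, 368, 368, 368, 368, 366] [] 100000 75000 25000 1100000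
    100000 0 150000 50000 0 0 0))) (.S 1 13 (.S 1 12 (.L 5 8 [4, 4, 4] [408, 408, 408, 408, 408,
    408] [] 100000 150000 50000 700000 150000 0 200000 0 0 0 0) (.L 5 8 [4, 4, 4] [450, 450, 450,
    450, 450, 450] [] 100000 265909 104545 0 209091 0 261364 0 0 0 0)) (.L 5 8 [4, 4, 4] [494, 494,
    494, 494, 494, 494] [] 100000 235418 95835 0 191667 0 239583 0 0 0 0)))) (.E 0)) (.S 1 13 (.S 1
    6 (.S 1 3 (.L 5 8 [4, 4, 4] [] [] 100000 0 0 1500000 50000 0 50000 0 0 50000 50000) (.S 1 5 (.L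
    5 8 [4, 4, 4] [] [] 100000 0 0 1566668 33333 0 66667 33333 0 33333 33333) (.L 5 8 [4, 4, 4]
    [208, 200, 190, 180, 170, 160] [] 100000 25000 25000 1450000 50000 0 100000 50000 0 0 0))) (.L
    5 8 [4, 4, 4] [] [] 100000 0 0 1570000 10000 0 100000 10000 0 10000 10000)) (.E 0))) (.L 5 8
    [4, 4, 4] [] [] 100000 0 0 1572840 13580 0 75309 0 24691 0 0)

lemma s22_23_11_2_9 {n : ℕ} (hn : 7 ≤ n) : NoNd (d22_23_11_2.R : ℤ) d22_23_11_2.H n d22_23_11_2.a d22_23_11_2.b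
    (BlkD.inB (BlkD.upd (BlkD.upd (fun _ => 0) 0 6) 0 9)
      (BlkD.upd (BlkD.upd (fun _ => 23) 0 11) 2 2)) :=
  BlkD.tree_sound (BlkD.pairOk_sound k22_23_11_2) (by decide) hn t22_23_11_2_9 _ _ (by decide +kernel)

/-- certificates of the pair `(11, 2)`, part 10 -/
def t22_23_11_2_10 : BlkD.Tr :=
  .E 1

lemma s22_23_11_2_10 {n : ℕ} (hn : 7 ≤ n) : NoNd (d22_23_11_2.R : ℤ) d22_23_11_2.H n d22_23_11_2.a d22_23_11_2.b
    (BlkD.inB (BlkD.upd (fun _ => 0) 2 3)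
      (BlkD.upd (fun _ => 23) 0 11)) :=
  BlkD.tree_sound (BlkD.pairOk_sound k22_23_11_2) (by decide) hn t22_23_11_2_10 _ _ (by decide +kernel)

/-- certificates of the pair `(11, 2)`, part 11 -/
def t22_23_11_2_11 : BlkD.Tr :=
  .E 0

lemma s22_23_11_2_11 {n : ℕ} (hn : 7 ≤ n) : NoNd (d22_23_11_2.R : ℤ) d22_23_11_2.H n d22_23_11_2.a d22_23_11_2.b
    (BlkD.inB (BlkD.upd (fun _ => 0) 0 12)
      (fun _ => 23)) :=
  BlkD.tree_sound (BlkD.pairOk_sound k22_23_11_2) (by decide) hn t22_23_11_2_11 _ _ (by decide +kernel)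

lemma pr22_23_11_2 {n : ℕ} (hn : 7 ≤ n) : NoPr ((22 : ℕ) : ℤ) ((23 : ℕ) : ℤ) n 11 2 :=
  BlkD.of_root (R := d22_23_11_2.R) (H := d22_23_11_2.H) (a := d22_23_11_2.a) (b := d22_23_11_2.b) (q := 5) (by decide) hn
    (BlkD.sp 0 11 (BlkD.sp 2 2 (BlkD.sp 0 5 (BlkD.sp 0 2 (BlkD.sp 0 1 (s22_23_11_2_1 hn)
      (s22_23_11_2_2 hn)) (BlkD.sp 0 4 (BlkD.sp 0 3 (s22_23_11_2_3 hn) (s22_23_11_2_4 hn))
      (s22_23_11_2_5 hn))) (BlkD.sp 0 8 (BlkD.sp 0 7 (BlkD.sp 0 6 (s22_23_11_2_6 hn) (s22_23_11_2_7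
      hn)) (s22_23_11_2_8 hn)) (s22_23_11_2_9 hn))) (s22_23_11_2_10 hn)) (s22_23_11_2_11 hn))

end BlkC

end Pool.Agent.Lib.MP_f04ccf_co
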