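import Pool.Agent.Lib.MP_f04ccf_co.M.BlkT

/-!
MP_f04ccf_co, block certificate, data `R = 22`, `H = 23`, part 27 (generated, helper99:
bd10.cpp, gen2.py).
-/

set_option autoImplicit false
set_option maxRecDepth 100000

namespace Pool.Agent.Lib.MP_f04ccf_co

namespace BlkC

/-- the numbers of the pair `(11, 3)`, `R = 22`, `H = 23` -/
def d22_23_11_3 : BlkD.Pd :=
  ⟨22, 23, 5, 11, 3, 6, 1, 2, 0, 4, 8, 0, 2, 2, 6, 0, [0, 8, 16, 24, 24, 24, 24], [0, 6, 12, 18,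
    20, 22, 24], [⟨1, 1, 1, 4, 8, [0, 4], [0, 4]⟩, ⟨1, 1, 1, 4, 14, [0, 8], [0, 6]⟩]⟩

lemma k22_23_11_3 : BlkD.pairOk d22_23_11_3 = true := by decide +kernel

/-- certificates of the pair `(11, 3)`, part 1 -/
def t22_23_11_3_1 : BlkD.Tr :=
  .S 0 0 (.L 5 6 [4, 4, 22, 22] [] [] 100000 0 0 1600000 62500 0 100000 37500 0 0 0) (.S 1 11 (.S 1
    5 (.L 5 6 [4, 4, 22, 22] [] [] 100000 0 0 1600000 62500 0 100000 37500 0 0 0) (.L 5 6 [4, 4,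
    22, 22] [] [] 100000 0 0 1600000 62500 0 100000 37500 0 0 0)) (.L 5 6 [4, 4, 22, 22] [] []
    100000 0 0 1600000 62500 0 100000 37500 0 0 0))

lemma s22_23_11_3_1 {n : ℕ} (hn : 7 ≤ n) : NoNd (d22_23_11_3.R : ℤ) d22_23_11_3.H n d22_23_11_3.a d22_23_11_3.b
    (BlkD.inB (fun _ => 0)
      (BlkD.upd (BlkD.upd (BlkD.upd (BlkD.upd (BlkD.upd (fun _ => 23) 0 11) 2 3) 0 5) 0 2) 0 1)) :=
  BlkD.tree_sound (BlkD.pairOk_sound k22_23_11_3) (by decide) hn t22_23_11_3_1 _ _ (by decide +kernel)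

/-- certificates of the pair `(11, 3)`, part 2 -/
def t22_23_11_3_2 : BlkD.Tr :=
  .S 1 11 (.S 1 5 (.L 5 6 [4, 4, 22, 22] [] [] 100000 0 0 1600000 62500 0 100000 37500 0 0 0) (.L 5
    6 [4, 4, 22, 22] [] [] 100000 0 0 1600000 62500 0 100000 37500 0 0 0)) (.L 5 6 [4, 4, 22, 22]
    [] [] 100000 0 0 1600000 62500 0 100000 37500 0 0 0)

lemma s22_23_11_3_2 {n : ℕ} (hn : 7 ≤ n) : NoNd (d22_23_11_3.R : ℤ) d22_23_11_3.H n d22_23_11_3.a d22_23_11_3.b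
    (BlkD.inB (BlkD.upd (fun _ => 0) 0 2)
      (BlkD.upd (BlkD.upd (BlkD.upd (BlkD.upd (fun _ => 23) 0 11) 2 3) 0 5) 0 2)) :=
  BlkD.tree_sound (BlkD.pairOk_sound k22_23_11_3) (by decide) hn t22_23_11_3_2 _ _ (by decide +kernel)

/-- certificates of the pair `(11, 3)`, part 3 -/
def t22_23_11_3_3 : BlkD.Tr :=
  .S 1 11 (.S 1 5 (.L 5 6 [4, 4, 22, 22] [] [] 100000 0 0 1600000 62500 0 100000 37500 0 0 0) (.L 5
    6 [4, 4, 22, 22] [] [] 100000 0 0 1600000 62500 0 100000 37500 0 0 0)) (.L 5 6 [4, 4, 22, 22]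
    [] [] 100000 0 0 1600000 62500 0 100000 37500 0 0 0)

lemma s22_23_11_3_3 {n : ℕ} (hn : 7 ≤ n) : NoNd (d22_23_11_3.R : ℤ) d22_23_11_3.H n d22_23_11_3.a d22_23_11_3.b
    (BlkD.inB (BlkD.upd (fun _ => 0) 0 3)
      (BlkD.upd (BlkD.upd (BlkD.upd (BlkD.upd (BlkD.upd (fun _ => 23) 0 11) 2 3) 0 5) 0 4) 0 3)) :=
  BlkD.tree_sound (BlkD.pairOk_sound k22_23_11_3) (by decide) hn t22_23_11_3_3 _ _ (by decide +kernel)

/-- certificates of the pair `(11, 3)`, part 4 -/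
def t22_23_11_3_4 : BlkD.Tr :=
  .S 1 11 (.S 1 5 (.L 5 6 [4, 4, 22, 22] [] [] 100000 0 0 1600000 62500 0 100000 37500 0 0 0) (.L 5
    6 [4, 4, 22, 22] [] [] 100000 0 0 1600000 62500 0 100000 37500 0 0 0)) (.L 5 6 [4, 4, 22, 22]
    [] [] 100000 0 0 1600000 62500 0 100000 37500 0 0 0)

lemma s22_23_11_3_4 {n : ℕ} (hn : 7 ≤ n) : NoNd (d22_23_11_3.R : ℤ) d22_23_11_3.H n d22_23_11_3.a d22_23_11_3.b
    (BlkD.inB (BlkD.upd (BlkD.upd (fun _ => 0) 0 3) 0 4)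
      (BlkD.upd (BlkD.upd (BlkD.upd (BlkD.upd (fun _ => 23) 0 11) 2 3) 0 5) 0 4)) :=
  BlkD.tree_sound (BlkD.pairOk_sound k22_23_11_3) (by decide) hn t22_23_11_3_4 _ _ (by decide +kernel)

/-- certificates of the pair `(11, 3)`, part 5 -/
def t22_23_11_3_5 : BlkD.Tr :=
  .S 1 11 (.L 5 6 [4, 4, 22, 22] [] [] 100000 0 0 1600000 62500 0 100000 37500 0 0 0) (.L 5 6 [4,
    4, 22, 22] [] [] 100000 0 0 1600000 62500 0 100000 37500 0 0 0)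

lemma s22_23_11_3_5 {n : ℕ} (hn : 7 ≤ n) : NoNd (d22_23_11_3.R : ℤ) d22_23_11_3.H n d22_23_11_3.a d22_23_11_3.b
    (BlkD.inB (BlkD.upd (BlkD.upd (fun _ => 0) 0 3) 0 5)
      (BlkD.upd (BlkD.upd (BlkD.upd (fun _ => 23) 0 11) 2 3) 0 5)) :=
  BlkD.tree_sound (BlkD.pairOk_sound k22_23_11_3) (by decide) hn t22_23_11_3_5 _ _ (by decide +kernel)

/-- certificates of the pair `(11, 3)`, part 6 -/
def t22_23_11_3_6 : BlkD.Tr :=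
  .S 1 11 (.L 5 6 [4, 4, 22, 22] [] [] 100000 0 0 1600000 62500 0 100000 37500 0 0 0) (.L 5 6 [4,
    4, 22, 22] [] [] 100000 0 0 1600000 62500 0 100000 37500 0 0 0)

lemma s22_23_11_3_6 {n : ℕ} (hn : 7 ≤ n) : NoNd (d22_23_11_3.R : ℤ) d22_23_11_3.H n d22_23_11_3.a d22_23_11_3.b
    (BlkD.inB (BlkD.upd (fun _ => 0) 0 6)
      (BlkD.upd (BlkD.upd (BlkD.upd (BlkD.upd (BlkD.upd (fun _ => 23) 0 11) 2 3) 0 8) 0 7) 0 6)) :=
  BlkD.tree_sound (BlkD.pairOk_sound k22_23_11_3) (by decide) hn t22_23_11_3_6 _ _ (by decide +kernel)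

/-- certificates of the pair `(11, 3)`, part 7 -/
def t22_23_11_3_7 : BlkD.Tr :=
  .S 1 11 (.L 5 6 [4, 4, 22, 22] [] [] 100000 0 0 1600000 62500 0 100000 37500 0 0 0) (.L 5 6 [4,
    4, 22, 22] [] [] 100000 0 0 1600000 62500 0 100000 37500 0 0 0)

lemma s22_23_11_3_7 {n : ℕ} (hn : 7 ≤ n) : NoNd (d22_23_11_3.R : ℤ) d22_23_11_3.H n d22_23_11_3.a d22_23_11_3.b
    (BlkD.inB (BlkD.upd (BlkD.upd (fun _ => 0) 0 6) 0 7)
      (BlkD.upd (BlkD.upd (BlkD.upd (BlkD.upd (fun _ => 23) 0 11) 2 3) 0 8) 0 7)) :=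
  BlkD.tree_sound (BlkD.pairOk_sound k22_23_11_3) (by decide) hn t22_23_11_3_7 _ _ (by decide +kernel)

/-- certificates of the pair `(11, 3)`, part 8 -/
def t22_23_11_3_8 : BlkD.Tr :=
  .L 5 6 [4, 4, 22, 22] [] [] 100000 0 0 1600000 62500 0 100000 37500 0 0 0

lemma s22_23_11_3_8 {n : ℕ} (hn : 7 ≤ n) : NoNd (d22_23_11_3.R : ℤ) d22_23_11_3.H n d22_23_11_3.a d22_23_11_3.b
    (BlkD.inB (BlkD.upd (BlkD.upd (fun _ => 0) 0 6) 0 8)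
      (BlkD.upd (BlkD.upd (BlkD.upd (fun _ => 23) 0 11) 2 3) 0 8)) :=
  BlkD.tree_sound (BlkD.pairOk_sound k22_23_11_3) (by decide) hn t22_23_11_3_8 _ _ (by decide +kernel)

/-- certificates of the pair `(11, 3)`, part 9 -/
def t22_23_11_3_9 : BlkD.Tr :=
  .L 5 6 [4, 4, 22, 22] [] [] 100000 0 0 1600000 62500 0 100000 37500 0 0 0

lemma s22_23_11_3_9 {n : ℕ} (hn : 7 ≤ n) : NoNd (d22_23_11_3.R : ℤ) d22_23_11_3.H n d22_23_11_3.a d22_23_11_3.b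
    (BlkD.inB (BlkD.upd (BlkD.upd (fun _ => 0) 0 6) 0 9)
      (BlkD.upd (BlkD.upd (fun _ => 23) 0 11) 2 3)) :=
  BlkD.tree_sound (BlkD.pairOk_sound k22_23_11_3) (by decide) hn t22_23_11_3_9 _ _ (by decide +kernel)

/-- certificates of the pair `(11, 3)`, part 10 -/
def t22_23_11_3_10 : BlkD.Tr :=
  .E 1

lemma s22_23_11_3_10 {n : ℕ} (hn : 7 ≤ n) : NoNd (d22_23_11_3.R : ℤ) d22_23_11_3.H n d22_23_11_3.a d22_23_11_3.b
    (BlkD.inB (BlkD.upd (fun _ => 0) 2 4)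
      (BlkD.upd (fun _ => 23) 0 11)) :=
  BlkD.tree_sound (BlkD.pairOk_sound k22_23_11_3) (by decide) hn t22_23_11_3_10 _ _ (by decide +kernel)

/-- certificates of the pair `(11, 3)`, part 11 -/
def t22_23_11_3_11 : BlkD.Tr :=
  .E 0

lemma s22_23_11_3_11 {n : ℕ} (hn : 7 ≤ n) : NoNd (d22_23_11_3.R : ℤ) d22_23_11_3.H n d22_23_11_3.a d22_23_11_3.b
    (BlkD.inB (BlkD.upd (fun _ => 0) 0 12)
      (fun _ => 23)) :=
  BlkD.tree_sound (BlkD.pairOk_sound k22_23_11_3) (by decide) hn t22_23_11_3_11 _ _ (by decide +kernel)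

lemma pr22_23_11_3 {n : ℕ} (hn : 7 ≤ n) : NoPr ((22 : ℕ) : ℤ) ((23 : ℕ) : ℤ) n 11 3 :=
  BlkD.of_root (R := d22_23_11_3.R) (H := d22_23_11_3.H) (a := d22_23_11_3.a) (b := d22_23_11_3.b) (q := 5) (by decide) hn
    (BlkD.sp 0 11 (BlkD.sp 2 3 (BlkD.sp 0 5 (BlkD.sp 0 2 (BlkD.sp 0 1 (s22_23_11_3_1 hn)
      (s22_23_11_3_2 hn)) (BlkD.sp 0 4 (BlkD.sp 0 3 (s22_23_11_3_3 hn) (s22_23_11_3_4 hn))
      (s22_23_11_3_5 hn))) (BlkD.sp 0 8 (BlkD.sp 0 7 (BlkD.sp 0 6 (s22_23_11_3_6 hn) (s22_23_11_3_7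
      hn)) (s22_23_11_3_8 hn)) (s22_23_11_3_9 hn))) (s22_23_11_3_10 hn)) (s22_23_11_3_11 hn))

end BlkC

end Pool.Agent.Lib.MP_f04ccf_co
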