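import Pool.Agent.Lib.MP_f04ccf_co.M.BlkT

/-!
MP_f04ccf_co, block certificate, data `R = 22`, `H = 23`, part 3 (generated, helper99:
bd10.cpp, gen2.py).
-/

set_option autoImplicit false
set_option maxRecDepth 100000

namespace Pool.Agent.Lib.MP_f04ccf_co

namespace BlkC

/-- the numbers of the pair `(6, 4)`, `R = 22`, `H = 23` -/
def d22_23_6_4 : BlkD.Pd :=
  ⟨22, 23, 5, 6, 4, 10, 4, 2, 4, 2, 12, 0, 2, 2, 10, 0, [0, 12, 24, 32, 36, 40, 44, 48, 52, 56,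
    60], [0, 10, 20, 26, 28, 30, 32, 34, 36, 38, 40], [⟨1, 1, 1, 4, 8, [0, 4], [0, 4]⟩, ⟨1, 1, 1,
    6, 12, [0, 6], [0, 6]⟩, ⟨1, 1, 1, 6, 16, [0, 8], [0, 8]⟩, ⟨2, 1, 1, 6, 18, [0, 10, 10], [0,
    8]⟩, ⟨2, 1, 1, 6, 28, [0, 12, 18], [0, 10]⟩]⟩

lemma k22_23_6_4 : BlkD.pairOk d22_23_6_4 = true := by decide +kernel

/-- certificates of the pair `(6, 4)`, part 1 -/
def t22_23_6_4_1 : BlkD.Tr :=
  .L 5 6 [4, 4, 5, 5, 6] [] [] 100000 75000 75000 750000 100000 0 100000 50000 0 0 25000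

lemma s22_23_6_4_1 {n : ℕ} (hn : 7 ≤ n) : NoNd (d22_23_6_4.R : ℤ) d22_23_6_4.H n d22_23_6_4.a d22_23_6_4.b
    (BlkD.inB (fun _ => 0)
      (BlkD.upd (BlkD.upd (BlkD.upd (BlkD.upd (BlkD.upd (fun _ => 23) 0 6) 2 4) 0 3) 0 1) 0 0)) :=
  BlkD.tree_sound (BlkD.pairOk_sound k22_23_6_4) (by decide) hn t22_23_6_4_1 _ _ (by decide +kernel)

/-- certificates of the pair `(6, 4)`, part 2 -/
def t22_23_6_4_2 : BlkD.Tr :=
  .S 1 2 (.L 5 6 [4, 4, 5, 5, 6] [] [] 100000 75000 75000 750000 100000 0 100000 50000 0 0 25000)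
    (.L 5 6 [4, 4, 5, 5, 6] [] [] 100000 75000 75000 750000 100000 0 100000 50000 0 0 25000)

lemma s22_23_6_4_2 {n : ℕ} (hn : 7 ≤ n) : NoNd (d22_23_6_4.R : ℤ) d22_23_6_4.H n d22_23_6_4.a d22_23_6_4.b
    (BlkD.inB (BlkD.upd (fun _ => 0) 0 1)
      (BlkD.upd (BlkD.upd (BlkD.upd (BlkD.upd (BlkD.upd (BlkD.upd (fun _ => 23) 0 6) 2 4) 0 3) 0 1) 1 11) 1 5)) :=
  BlkD.tree_sound (BlkD.pairOk_sound k22_23_6_4) (by decide) hn t22_23_6_4_2 _ _ (by decide +kernel)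

/-- certificates of the pair `(6, 4)`, part 3 -/
def t22_23_6_4_3 : BlkD.Tr :=
  .S 1 8 (.S 1 7 (.L 5 6 [4, 4, 5, 5, 6] [] [] 100000 75000 75000 750000 100000 0 100000 50000 0 0
    25000) (.L 5 6 [4, 4, 5, 5, 6] [134, 130, 126, 122, 116, 108] [] 100000 75000 75000 750000
    100000 0 100000 50000 0 0 25000)) (.L 5 6 [4, 4, 5, 5, 6] [] [] 100000 75000 75000 750000
    100000 0 100000 50000 0 0 25000)

lemma s22_23_6_4_3 {n : ℕ} (hn : 7 ≤ n) : NoNd (d22_23_6_4.R : ℤ) d22_23_6_4.H n d22_23_6_4.a d22_23_6_4.b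
    (BlkD.inB (BlkD.upd (BlkD.upd (fun _ => 0) 0 1) 1 6)
      (BlkD.upd (BlkD.upd (BlkD.upd (BlkD.upd (BlkD.upd (fun _ => 23) 0 6) 2 4) 0 3) 0 1) 1 11)) :=
  BlkD.tree_sound (BlkD.pairOk_sound k22_23_6_4) (by decide) hn t22_23_6_4_3 _ _ (by decide +kernel)

/-- certificates of the pair `(6, 4)`, part 4 -/
def t22_23_6_4_4 : BlkD.Tr :=
  .L 5 6 [4, 4, 5, 5, 6] [] [] 100000 75000 75000 750000 100000 0 100000 50000 0 0 25000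

lemma s22_23_6_4_4 {n : ℕ} (hn : 7 ≤ n) : NoNd (d22_23_6_4.R : ℤ) d22_23_6_4.H n d22_23_6_4.a d22_23_6_4.b
    (BlkD.inB (BlkD.upd (BlkD.upd (fun _ => 0) 0 1) 1 12)
      (BlkD.upd (BlkD.upd (BlkD.upd (BlkD.upd (fun _ => 23) 0 6) 2 4) 0 3) 0 1)) :=
  BlkD.tree_sound (BlkD.pairOk_sound k22_23_6_4) (by decide) hn t22_23_6_4_4 _ _ (by decide +kernel)

/-- certificates of the pair `(6, 4)`, part 5 -/
def t22_23_6_4_5 : BlkD.Tr :=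
  .S 1 2 (.L 5 6 [4, 4, 5, 5, 6] [] [] 100000 23281 23280 1178981 13851 0 65619 51768 3438 24460
    30943) (.L 5 6 [4, 4, 5, 5, 6] [] [] 100000 23281 23280 1178981 13851 0 65619 51768 3438 24460
    30943)

lemma s22_23_6_4_5 {n : ℕ} (hn : 7 ≤ n) : NoNd (d22_23_6_4.R : ℤ) d22_23_6_4.H n d22_23_6_4.a d22_23_6_4.b
    (BlkD.inB (BlkD.upd (fun _ => 0) 0 2)
      (BlkD.upd (BlkD.upd (BlkD.upd (BlkD.upd (BlkD.upd (BlkD.upd (BlkD.upd (fun _ => 23) 0 6) 2 4) 0 3) 0 2) 1 21) 1 10) 1 5)) :=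
  BlkD.tree_sound (BlkD.pairOk_sound k22_23_6_4) (by decide) hn t22_23_6_4_5 _ _ (by decide +kernel)

/-- certificates of the pair `(6, 4)`, part 6 -/
def t22_23_6_4_6 : BlkD.Tr :=
  .S 1 8 (.S 1 7 (.S 1 6 (.L 6 7 [4, 4, 5, 5, 5] [108, 104, 98, 90, 78, 66] [] 100000 28334 28334
    1150004 33333 0 50000 33333 0 16667 23333) (.L 6 7 [4, 4, 5, 5, 5] [128, 124, 120, 114, 106,
    94] [] 100000 28464 28464 1124272 36354 0 66667 33333 8229 12500 19062)) (.L 6 7 [4, 4, 5, 5,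
    5] [150, 146, 142, 138, 132, 124] [] 100000 38889 38889 1033335 33333 0 100000 33333 11111 0
    11111)) (.E 0)

lemma s22_23_6_4_6 {n : ℕ} (hn : 7 ≤ n) : NoNd (d22_23_6_4.R : ℤ) d22_23_6_4.H n d22_23_6_4.a d22_23_6_4.b
    (BlkD.inB (BlkD.upd (BlkD.upd (fun _ => 0) 0 2) 1 6)
      (BlkD.upd (BlkD.upd (BlkD.upd (BlkD.upd (BlkD.upd (BlkD.upd (fun _ => 23) 0 6) 2 4) 0 3) 0 2) 1 21) 1 10)) :=
  BlkD.tree_sound (BlkD.pairOk_sound k22_23_6_4) (by decide) hn t22_23_6_4_6 _ _ (by decide +kernel)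

/-- certificates of the pair `(6, 4)`, part 7 -/
def t22_23_6_4_7 : BlkD.Tr :=
  .E 0

lemma s22_23_6_4_7 {n : ℕ} (hn : 7 ≤ n) : NoNd (d22_23_6_4.R : ℤ) d22_23_6_4.H n d22_23_6_4.a d22_23_6_4.b
    (BlkD.inB (BlkD.upd (BlkD.upd (fun _ => 0) 0 2) 1 11)
      (BlkD.upd (BlkD.upd (BlkD.upd (BlkD.upd (BlkD.upd (fun _ => 23) 0 6) 2 4) 0 3) 0 2) 1 21)) :=
  BlkD.tree_sound (BlkD.pairOk_sound k22_23_6_4) (by decide) hn t22_23_6_4_7 _ _ (by decide +kernel)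

/-- certificates of the pair `(6, 4)`, part 8 -/
def t22_23_6_4_8 : BlkD.Tr :=
  .E 0

lemma s22_23_6_4_8 {n : ℕ} (hn : 7 ≤ n) : NoNd (d22_23_6_4.R : ℤ) d22_23_6_4.H n d22_23_6_4.a d22_23_6_4.b
    (BlkD.inB (BlkD.upd (BlkD.upd (fun _ => 0) 0 2) 1 22)
      (BlkD.upd (BlkD.upd (BlkD.upd (BlkD.upd (fun _ => 23) 0 6) 2 4) 0 3) 0 2)) :=
  BlkD.tree_sound (BlkD.pairOk_sound k22_23_6_4) (by decide) hn t22_23_6_4_8 _ _ (by decide +kernel)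

/-- certificates of the pair `(6, 4)`, part 9 -/
def t22_23_6_4_9 : BlkD.Tr :=
  .S 1 2 (.L 6 7 [4, 4, 5, 5, 5] [] [] 100000 25000 24999 1050000 25000 0 25000 25000 0 0 33333)
    (.S 1 4 (.L 6 7 [4, 4, 5, 5, 5] [] [] 100000 20782 20782 1180358 19644 0 73929 41068 8438 23665
    27456) (.S 2 2 (.S 2 1 (.L 6 7 [4, 4, 5, 5, 5] [100, 94, 86, 74, 62, 50] [] 100000 27972 27972
    1134428 11475 37705 55738 47541 5328 12910 21516) (.S 3 13 (.S 3 6 (.S 3 3 (.L 6 7 [4, 4, 5, 5,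
    5] [100, 94, 86, 74, 62, 50] [] 100000 25452 25452 1170923 29452 3757 49737 33208 4132 16679
    24418) (.L 6 7 [4, 4, 5, 5, 5] [100, 94, 86, 74, 62, 50] [] 100000 21818 21817 1176366 21818 0
    60000 57273 6364 33182 22273)) (.E 1)) (.E 1))) (.L 6 7 [4, 4, 5, 5, 5] [100, 94, 86, 74, 62,
    50] [] 100000 20834 20834 1170370 25926 0 50926 50000 8333 34722 21759)))

lemma s22_23_6_4_9 {n : ℕ} (hn : 7 ≤ n) : NoNd (d22_23_6_4.R : ℤ) d22_23_6_4.H n d22_23_6_4.a d22_23_6_4.b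
    (BlkD.inB (BlkD.upd (BlkD.upd (fun _ => 0) 0 2) 0 3)
      (BlkD.upd (BlkD.upd (BlkD.upd (BlkD.upd (BlkD.upd (BlkD.upd (fun _ => 23) 0 6) 2 4) 0 3) 1 20) 1 10) 1 5)) :=
  BlkD.tree_sound (BlkD.pairOk_sound k22_23_6_4) (by decide) hn t22_23_6_4_9 _ _ (by decide +kernel)

/-- certificates of the pair `(6, 4)`, part 10 -/
def t22_23_6_4_10 : BlkD.Tr :=
  .S 1 8 (.S 1 7 (.S 1 6 (.S 2 2 (.L 5 6 [4, 4, 5, 5, 6] [120, 116, 110, 102, 90, 78] [] 100000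
    19333 19332 1202225 24444 0 62222 37778 22667 16444 20889) (.L 5 6 [4, 4, 5, 5, 6] [120, 116,
    110, 102, 90, 78] [] 100000 27778 27778 1144444 27778 0 72222 50000 2778 33333 16667)) (.L 5 6
    [4, 4, 5, 5, 6] [142, 138, 134, 128, 120, 108] [] 100000 38462 30770 969232 7692 0 107692 92308
    0 0 15385)) (.E 0)) (.E 0)

lemma s22_23_6_4_10 {n : ℕ} (hn : 7 ≤ n) : NoNd (d22_23_6_4.R : ℤ) d22_23_6_4.H n d22_23_6_4.a d22_23_6_4.b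
    (BlkD.inB (BlkD.upd (BlkD.upd (BlkD.upd (fun _ => 0) 0 2) 0 3) 1 6)
      (BlkD.upd (BlkD.upd (BlkD.upd (BlkD.upd (BlkD.upd (fun _ => 23) 0 6) 2 4) 0 3) 1 20) 1 10)) :=
  BlkD.tree_sound (BlkD.pairOk_sound k22_23_6_4) (by decide) hn t22_23_6_4_10 _ _ (by decide +kernel)

/-- certificates of the pair `(6, 4)`, part 11 -/
def t22_23_6_4_11 : BlkD.Tr :=
  .E 0

lemma s22_23_6_4_11 {n : ℕ} (hn : 7 ≤ n) : NoNd (d22_23_6_4.R : ℤ) d22_23_6_4.H n d22_23_6_4.a d22_23_6_4.b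
    (BlkD.inB (BlkD.upd (BlkD.upd (BlkD.upd (fun _ => 0) 0 2) 0 3) 1 11)
      (BlkD.upd (BlkD.upd (BlkD.upd (BlkD.upd (fun _ => 23) 0 6) 2 4) 0 3) 1 20)) :=
  BlkD.tree_sound (BlkD.pairOk_sound k22_23_6_4) (by decide) hn t22_23_6_4_11 _ _ (by decide +kernel)

/-- certificates of the pair `(6, 4)`, part 12 -/
def t22_23_6_4_12 : BlkD.Tr :=
  .E 0

lemma s22_23_6_4_12 {n : ℕ} (hn : 7 ≤ n) : NoNd (d22_23_6_4.R : ℤ) d22_23_6_4.H n d22_23_6_4.a d22_23_6_4.b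
    (BlkD.inB (BlkD.upd (BlkD.upd (BlkD.upd (fun _ => 0) 0 2) 0 3) 1 21)
      (BlkD.upd (BlkD.upd (BlkD.upd (fun _ => 23) 0 6) 2 4) 0 3)) :=
  BlkD.tree_sound (BlkD.pairOk_sound k22_23_6_4) (by decide) hn t22_23_6_4_12 _ _ (by decide +kernel)

/-- certificates of the pair `(6, 4)`, part 13 -/
def t22_23_6_4_13 : BlkD.Tr :=
  .S 1 19 (.S 1 9 (.S 1 4 (.S 1 2 (.L 5 6 [4, 4, 5, 5, 6] [] [] 100000 24167 24167 1133337 33333 0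
    93333 43333 6667 23333 33333) (.S 1 3 (.L 5 6 [4, 4, 5, 5, 6] [66, 54, 42, 30, 0, 0] [] 100000
    18354 18354 1180493 19512 0 70854 60976 13293 23171 25610) (.S 2 2 (.S 2 1 (.L 5 6 [4, 4, 5, 5,
    6] [88, 80, 68, 56, 44, 0] [] 100000 31772 31771 1103900 8442 44805 54221 81169 8024 10390
    15492) (.S 3 13 (.S 3 6 (.S 3 3 (.S 3 1 (.L 5 6 [4, 4, 5, 5, 6] [88, 80, 68, 56, 44, 0] []
    100000 20000 20000 1100000 0 0 80000 0 20000 0 26667) (.L 5 6 [4, 4, 5, 5, 6] [88, 80, 68, 56,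
    44, 0] [] 100000 19551 19551 1187447 18134 13339 58500 46992 10898 40715 25632)) (.L 5 6 [4, 4,
    5, 5, 6] [88, 80, 68, 56, 44, 0] [] 100000 10000 10000 1200000 10000 0 50000 80000 40000 40000
    20000)) (.E 1)) (.E 1))) (.L 5 6 [4, 4, 5, 5, 6] [88, 80, 68, 56, 44, 0] [] 100000 17106 17106
    1194737 26316 0 55263 50000 15789 44737 25000)))) (.L 5 6 [4, 4, 5, 5, 6] [] [] 100000 20673
    20673 1151928 0 0 82692 82692 34615 13462 17308)) (.E 0)) (.E 0)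

lemma s22_23_6_4_13 {n : ℕ} (hn : 7 ≤ n) : NoNd (d22_23_6_4.R : ℤ) d22_23_6_4.H n d22_23_6_4.a d22_23_6_4.b
    (BlkD.inB (BlkD.upd (fun _ => 0) 0 4)
      (BlkD.upd (BlkD.upd (BlkD.upd (BlkD.upd (fun _ => 23) 0 6) 2 4) 0 5) 0 4)) :=
  BlkD.tree_sound (BlkD.pairOk_sound k22_23_6_4) (by decide) hn t22_23_6_4_13 _ _ (by decide +kernel)

/-- certificates of the pair `(6, 4)`, part 14 -/
def t22_23_6_4_14 : BlkD.Tr :=
  .L 5 6 [4, 4, 5, 5, 6] [] [] 100000 10632 10631 1241380 0 0 58621 58621 33333 24138 33333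

lemma s22_23_6_4_14 {n : ℕ} (hn : 7 ≤ n) : NoNd (d22_23_6_4.R : ℤ) d22_23_6_4.H n d22_23_6_4.a d22_23_6_4.b
    (BlkD.inB (BlkD.upd (BlkD.upd (fun _ => 0) 0 4) 0 5)
      (BlkD.upd (BlkD.upd (BlkD.upd (fun _ => 23) 0 6) 2 4) 0 5)) :=
  BlkD.tree_sound (BlkD.pairOk_sound k22_23_6_4) (by decide) hn t22_23_6_4_14 _ _ (by decide +kernel)

/-- certificates of the pair `(6, 4)`, part 15 -/
def t22_23_6_4_15 : BlkD.Tr :=
  .L 5 6 [4, 4, 5, 5, 6] [] [] 100000 10417 10417 1200000 0 0 50000 50000 38333 20000 38333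

lemma s22_23_6_4_15 {n : ℕ} (hn : 7 ≤ n) : NoNd (d22_23_6_4.R : ℤ) d22_23_6_4.H n d22_23_6_4.a d22_23_6_4.b
    (BlkD.inB (BlkD.upd (BlkD.upd (fun _ => 0) 0 4) 0 6)
      (BlkD.upd (BlkD.upd (fun _ => 23) 0 6) 2 4)) :=
  BlkD.tree_sound (BlkD.pairOk_sound k22_23_6_4) (by decide) hn t22_23_6_4_15 _ _ (by decide +kernel)

/-- certificates of the pair `(6, 4)`, part 16 -/
def t22_23_6_4_16 : BlkD.Tr :=
  .E 1

lemma s22_23_6_4_16 {n : ℕ} (hn : 7 ≤ n) : NoNd (d22_23_6_4.R : ℤ) d22_23_6_4.H n d22_23_6_4.a d22_23_6_4.b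
    (BlkD.inB (BlkD.upd (fun _ => 0) 2 5)
      (BlkD.upd (fun _ => 23) 0 6)) :=
  BlkD.tree_sound (BlkD.pairOk_sound k22_23_6_4) (by decide) hn t22_23_6_4_16 _ _ (by decide +kernel)

/-- certificates of the pair `(6, 4)`, part 17 -/
def t22_23_6_4_17 : BlkD.Tr :=
  .E 0

lemma s22_23_6_4_17 {n : ℕ} (hn : 7 ≤ n) : NoNd (d22_23_6_4.R : ℤ) d22_23_6_4.H n d22_23_6_4.a d22_23_6_4.b
    (BlkD.inB (BlkD.upd (fun _ => 0) 0 7)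
      (fun _ => 23)) :=
  BlkD.tree_sound (BlkD.pairOk_sound k22_23_6_4) (by decide) hn t22_23_6_4_17 _ _ (by decide +kernel)

lemma pr22_23_6_4 {n : ℕ} (hn : 7 ≤ n) : NoPr ((22 : ℕ) : ℤ) ((23 : ℕ) : ℤ) n 6 4 :=
  BlkD.of_root (R := d22_23_6_4.R) (H := d22_23_6_4.H) (a := d22_23_6_4.a) (b := d22_23_6_4.b) (q := 5) (by decide) hn
    (BlkD.sp 0 6 (BlkD.sp 2 4 (BlkD.sp 0 3 (BlkD.sp 0 1 (BlkD.sp 0 0 (s22_23_6_4_1 hn) (BlkD.sp 1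
      11 (BlkD.sp 1 5 (s22_23_6_4_2 hn) (s22_23_6_4_3 hn)) (s22_23_6_4_4 hn))) (BlkD.sp 0 2
      (BlkD.sp 1 21 (BlkD.sp 1 10 (BlkD.sp 1 5 (s22_23_6_4_5 hn) (s22_23_6_4_6 hn)) (s22_23_6_4_7
      hn)) (s22_23_6_4_8 hn)) (BlkD.sp 1 20 (BlkD.sp 1 10 (BlkD.sp 1 5 (s22_23_6_4_9 hn)
      (s22_23_6_4_10 hn)) (s22_23_6_4_11 hn)) (s22_23_6_4_12 hn)))) (BlkD.sp 0 5 (BlkD.sp 0 4
      (s22_23_6_4_13 hn) (s22_23_6_4_14 hn)) (s22_23_6_4_15 hn))) (s22_23_6_4_16 hn))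
      (s22_23_6_4_17 hn))

end BlkC

end Pool.Agent.Lib.MP_f04ccf_co
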