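import Pool.Agent.Lib.MP_f04ccf_co.M.BlkT

/-!
MP_f04ccf_co, block certificate, data `R = 22`, `H = 23`, part 31 (generated, helper99:
bd10.cpp, gen2.py).
-/

set_option autoImplicit false
set_option maxRecDepth 100000

namespace Pool.Agent.Lib.MP_f04ccf_co

namespace BlkC

/-- the numbers of the pair `(13, 2)`, `R = 22`, `H = 23` -/
def d22_23_13_2 : BlkD.Pd :=
  ⟨22, 23, 5, 13, 2, 5, 0, 2, 0, 4, 4, 0, 0, 4, 4, 0, [0, 4, 8, 12, 16, 20], [0, 4, 8, 12, 16, 20],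
    [⟨1, 1, 1, 4, 8, [0, 4], [0, 4]⟩]⟩

lemma k22_23_13_2 : BlkD.pairOk d22_23_13_2 = true := by decide +kernel

/-- certificates of the pair `(13, 2)`, part 1 -/
def t22_23_13_2_1 : BlkD.Tr :=
  .L 4 4 [4, 22, 22] [] [] 100000 0 0 1700000 100000 0 100000 0 0 0 0

lemma s22_23_13_2_1 {n : ℕ} (hn : 7 ≤ n) : NoNd (d22_23_13_2.R : ℤ) d22_23_13_2.H n d22_23_13_2.a d22_23_13_2.b
    (BlkD.inB (fun _ => 0)
      (BlkD.upd (BlkD.upd (BlkD.upd (BlkD.upd (BlkD.upd (fun _ => 23) 0 13) 2 2) 0 6) 0 3) 0 1)) :=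
  BlkD.tree_sound (BlkD.pairOk_sound k22_23_13_2) (by decide) hn t22_23_13_2_1 _ _ (by decide +kernel)

/-- certificates of the pair `(13, 2)`, part 2 -/
def t22_23_13_2_2 : BlkD.Tr :=
  .S 0 2 (.L 4 4 [4, 22, 22] [] [] 100000 0 0 1700000 100000 0 100000 0 0 0 0) (.L 4 4 [4, 22, 22]
    [] [] 100000 0 0 1700000 100000 0 100000 0 0 0 0)

lemma s22_23_13_2_2 {n : ℕ} (hn : 7 ≤ n) : NoNd (d22_23_13_2.R : ℤ) d22_23_13_2.H n d22_23_13_2.a d22_23_13_2.b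
    (BlkD.inB (BlkD.upd (fun _ => 0) 0 2)
      (BlkD.upd (BlkD.upd (BlkD.upd (BlkD.upd (fun _ => 23) 0 13) 2 2) 0 6) 0 3)) :=
  BlkD.tree_sound (BlkD.pairOk_sound k22_23_13_2) (by decide) hn t22_23_13_2_2 _ _ (by decide +kernel)

/-- certificates of the pair `(13, 2)`, part 3 -/
def t22_23_13_2_3 : BlkD.Tr :=
  .S 0 4 (.L 4 4 [4, 22, 22] [] [] 100000 0 0 1700000 100000 0 100000 0 0 0 0) (.L 4 4 [4, 22, 22]
    [] [] 100000 0 0 1700000 100000 0 100000 0 0 0 0)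

lemma s22_23_13_2_3 {n : ℕ} (hn : 7 ≤ n) : NoNd (d22_23_13_2.R : ℤ) d22_23_13_2.H n d22_23_13_2.a d22_23_13_2.b
    (BlkD.inB (BlkD.upd (fun _ => 0) 0 4)
      (BlkD.upd (BlkD.upd (BlkD.upd (BlkD.upd (fun _ => 23) 0 13) 2 2) 0 6) 0 5)) :=
  BlkD.tree_sound (BlkD.pairOk_sound k22_23_13_2) (by decide) hn t22_23_13_2_3 _ _ (by decide +kernel)

/-- certificates of the pair `(13, 2)`, part 4 -/
def t22_23_13_2_4 : BlkD.Tr :=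
  .L 4 4 [4, 22, 22] [] [] 100000 0 0 1700000 100000 0 100000 0 0 0 0

lemma s22_23_13_2_4 {n : ℕ} (hn : 7 ≤ n) : NoNd (d22_23_13_2.R : ℤ) d22_23_13_2.H n d22_23_13_2.a d22_23_13_2.b
    (BlkD.inB (BlkD.upd (BlkD.upd (fun _ => 0) 0 4) 0 6)
      (BlkD.upd (BlkD.upd (BlkD.upd (fun _ => 23) 0 13) 2 2) 0 6)) :=
  BlkD.tree_sound (BlkD.pairOk_sound k22_23_13_2) (by decide) hn t22_23_13_2_4 _ _ (by decide +kernel)

/-- certificates of the pair `(13, 2)`, part 5 -/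
def t22_23_13_2_5 : BlkD.Tr :=
  .S 0 7 (.L 4 4 [4, 22, 22] [] [] 100000 0 0 1700000 100000 0 100000 0 0 0 0) (.L 4 4 [4, 22, 22]
    [] [] 100000 0 0 1700000 100000 0 100000 0 0 0 0)

lemma s22_23_13_2_5 {n : ℕ} (hn : 7 ≤ n) : NoNd (d22_23_13_2.R : ℤ) d22_23_13_2.H n d22_23_13_2.a d22_23_13_2.b
    (BlkD.inB (BlkD.upd (fun _ => 0) 0 7)
      (BlkD.upd (BlkD.upd (BlkD.upd (BlkD.upd (fun _ => 23) 0 13) 2 2) 0 10) 0 8)) :=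
  BlkD.tree_sound (BlkD.pairOk_sound k22_23_13_2) (by decide) hn t22_23_13_2_5 _ _ (by decide +kernel)

/-- certificates of the pair `(13, 2)`, part 6 -/
def t22_23_13_2_6 : BlkD.Tr :=
  .L 4 4 [4, 22, 22] [] [] 100000 0 0 1700000 100000 0 100000 0 0 0 0

lemma s22_23_13_2_6 {n : ℕ} (hn : 7 ≤ n) : NoNd (d22_23_13_2.R : ℤ) d22_23_13_2.H n d22_23_13_2.a d22_23_13_2.b
    (BlkD.inB (BlkD.upd (BlkD.upd (fun _ => 0) 0 7) 0 9)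
      (BlkD.upd (BlkD.upd (BlkD.upd (fun _ => 23) 0 13) 2 2) 0 10)) :=
  BlkD.tree_sound (BlkD.pairOk_sound k22_23_13_2) (by decide) hn t22_23_13_2_6 _ _ (by decide +kernel)

/-- certificates of the pair `(13, 2)`, part 7 -/
def t22_23_13_2_7 : BlkD.Tr :=
  .L 4 4 [4, 22, 22] [] [] 100000 0 0 1700000 100000 0 100000 0 0 0 0

lemma s22_23_13_2_7 {n : ℕ} (hn : 7 ≤ n) : NoNd (d22_23_13_2.R : ℤ) d22_23_13_2.H n d22_23_13_2.a d22_23_13_2.b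
    (BlkD.inB (BlkD.upd (BlkD.upd (fun _ => 0) 0 7) 0 11)
      (BlkD.upd (BlkD.upd (fun _ => 23) 0 13) 2 2)) :=
  BlkD.tree_sound (BlkD.pairOk_sound k22_23_13_2) (by decide) hn t22_23_13_2_7 _ _ (by decide +kernel)

/-- certificates of the pair `(13, 2)`, part 8 -/
def t22_23_13_2_8 : BlkD.Tr :=
  .E 1

lemma s22_23_13_2_8 {n : ℕ} (hn : 7 ≤ n) : NoNd (d22_23_13_2.R : ℤ) d22_23_13_2.H n d22_23_13_2.a d22_23_13_2.b
    (BlkD.inB (BlkD.upd (fun _ => 0) 2 3)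
      (BlkD.upd (fun _ => 23) 0 13)) :=
  BlkD.tree_sound (BlkD.pairOk_sound k22_23_13_2) (by decide) hn t22_23_13_2_8 _ _ (by decide +kernel)

/-- certificates of the pair `(13, 2)`, part 9 -/
def t22_23_13_2_9 : BlkD.Tr :=
  .E 0

lemma s22_23_13_2_9 {n : ℕ} (hn : 7 ≤ n) : NoNd (d22_23_13_2.R : ℤ) d22_23_13_2.H n d22_23_13_2.a d22_23_13_2.b
    (BlkD.inB (BlkD.upd (fun _ => 0) 0 14)
      (fun _ => 23)) :=
  BlkD.tree_sound (BlkD.pairOk_sound k22_23_13_2) (by decide) hn t22_23_13_2_9 _ _ (by decide +kernel)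

lemma pr22_23_13_2 {n : ℕ} (hn : 7 ≤ n) : NoPr ((22 : ℕ) : ℤ) ((23 : ℕ) : ℤ) n 13 2 :=
  BlkD.of_root (R := d22_23_13_2.R) (H := d22_23_13_2.H) (a := d22_23_13_2.a) (b := d22_23_13_2.b) (q := 5) (by decide) hn
    (BlkD.sp 0 13 (BlkD.sp 2 2 (BlkD.sp 0 6 (BlkD.sp 0 3 (BlkD.sp 0 1 (s22_23_13_2_1 hn)
      (s22_23_13_2_2 hn)) (BlkD.sp 0 5 (s22_23_13_2_3 hn) (s22_23_13_2_4 hn))) (BlkD.sp 0 10
      (BlkD.sp 0 8 (s22_23_13_2_5 hn) (s22_23_13_2_6 hn)) (s22_23_13_2_7 hn))) (s22_23_13_2_8 hn))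
      (s22_23_13_2_9 hn))

/-- the numbers of the pair `(14, 0)`, `R = 22`, `H = 23` -/
def d22_23_14_0 : BlkD.Pd :=
  ⟨22, 23, 5, 14, 0, 6, 0, 1, 0, 4, 4, 0, 0, 4, 4, 0, [0, 4, 8, 12, 16, 20, 24], [0, 4, 8, 12, 16,
    20, 24], [⟨1, 1, 1, 4, 8, [0, 4], [0, 4]⟩]⟩

/-- the certificates of the pair `(14, 0)` -/
def t22_23_14_0 : BlkD.Tr :=
  .S 0 14 (.S 2 0 (.S 0 7 (.S 0 3 (.L 4 4 [4] [] [] 100000 0 0 1500000 100000 0 100000 0 0 0 0) (.L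
    4 4 [4] [] [] 100000 0 0 1500000 100000 0 100000 0 0 0 0)) (.L 4 4 [4] [] [] 100000 0 0 1500000
    100000 0 100000 0 0 0 0)) (.E 1)) (.E 0)

lemma pr22_23_14_0 {n : ℕ} (hn : 7 ≤ n) : NoPr ((22 : ℕ) : ℤ) ((23 : ℕ) : ℤ) n 14 0 :=
  BlkD.pair_sound (d := d22_23_14_0) (by decide +kernel) hn (by decide) (tr := t22_23_14_0)
    (by decide +kernel) rfl rfl rfl rfl

/-- the numbers of the pair `(14, 1)`, `R = 22`, `H = 23` -/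
def d22_23_14_1 : BlkD.Pd :=
  ⟨22, 23, 5, 14, 1, 5, 0, 1, 0, 4, 4, 0, 0, 4, 4, 0, [0, 4, 8, 12, 16, 20], [0, 4, 8, 12, 16, 20],
    [⟨1, 1, 1, 4, 8, [0, 4], [0, 4]⟩]⟩

lemma k22_23_14_1 : BlkD.pairOk d22_23_14_1 = true := by decide +kernel

/-- certificates of the pair `(14, 1)`, part 1 -/
def t22_23_14_1_1 : BlkD.Tr :=
  .L 4 4 [4, 22] [] [] 100000 0 0 1700002 85714 0 85714 0 0 0 0

lemma s22_23_14_1_1 {n : ℕ} (hn : 7 ≤ n) : NoNd (d22_23_14_1.R : ℤ) d22_23_14_1.H n d22_23_14_1.a d22_23_14_1.b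
    (BlkD.inB (fun _ => 0)
      (BlkD.upd (BlkD.upd (BlkD.upd (BlkD.upd (fun _ => 23) 0 14) 2 1) 0 7) 0 3)) :=
  BlkD.tree_sound (BlkD.pairOk_sound k22_23_14_1) (by decide) hn t22_23_14_1_1 _ _ (by decide +kernel)

/-- certificates of the pair `(14, 1)`, part 2 -/
def t22_23_14_1_2 : BlkD.Tr :=
  .S 0 5 (.L 4 4 [4, 22] [] [] 100000 0 0 1700002 85714 0 85714 0 0 0 0) (.L 4 4 [4, 22] [] []
    100000 0 0 1700002 85714 0 85714 0 0 0 0)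

lemma s22_23_14_1_2 {n : ℕ} (hn : 7 ≤ n) : NoNd (d22_23_14_1.R : ℤ) d22_23_14_1.H n d22_23_14_1.a d22_23_14_1.b
    (BlkD.inB (BlkD.upd (fun _ => 0) 0 4)
      (BlkD.upd (BlkD.upd (BlkD.upd (fun _ => 23) 0 14) 2 1) 0 7)) :=
  BlkD.tree_sound (BlkD.pairOk_sound k22_23_14_1) (by decide) hn t22_23_14_1_2 _ _ (by decide +kernel)

/-- certificates of the pair `(14, 1)`, part 3 -/
def t22_23_14_1_3 : BlkD.Tr :=
  .L 4 4 [4, 22] [] [] 100000 0 0 1700002 85714 0 85714 0 0 0 0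

lemma s22_23_14_1_3 {n : ℕ} (hn : 7 ≤ n) : NoNd (d22_23_14_1.R : ℤ) d22_23_14_1.H n d22_23_14_1.a d22_23_14_1.b
    (BlkD.inB (BlkD.upd (fun _ => 0) 0 8)
      (BlkD.upd (BlkD.upd (fun _ => 23) 0 14) 2 1)) :=
  BlkD.tree_sound (BlkD.pairOk_sound k22_23_14_1) (by decide) hn t22_23_14_1_3 _ _ (by decide +kernel)

/-- certificates of the pair `(14, 1)`, part 4 -/
def t22_23_14_1_4 : BlkD.Tr :=
  .E 1

lemma s22_23_14_1_4 {n : ℕ} (hn : 7 ≤ n) : NoNd (d22_23_14_1.R : ℤ) d22_23_14_1.H n d22_23_14_1.a d22_23_14_1.b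
    (BlkD.inB (BlkD.upd (fun _ => 0) 2 2)
      (BlkD.upd (fun _ => 23) 0 14)) :=
  BlkD.tree_sound (BlkD.pairOk_sound k22_23_14_1) (by decide) hn t22_23_14_1_4 _ _ (by decide +kernel)

/-- certificates of the pair `(14, 1)`, part 5 -/
def t22_23_14_1_5 : BlkD.Tr :=
  .E 0

lemma s22_23_14_1_5 {n : ℕ} (hn : 7 ≤ n) : NoNd (d22_23_14_1.R : ℤ) d22_23_14_1.H n d22_23_14_1.a d22_23_14_1.b
    (BlkD.inB (BlkD.upd (fun _ => 0) 0 15)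
      (fun _ => 23)) :=
  BlkD.tree_sound (BlkD.pairOk_sound k22_23_14_1) (by decide) hn t22_23_14_1_5 _ _ (by decide +kernel)

lemma pr22_23_14_1 {n : ℕ} (hn : 7 ≤ n) : NoPr ((22 : ℕ) : ℤ) ((23 : ℕ) : ℤ) n 14 1 :=
  BlkD.of_root (R := d22_23_14_1.R) (H := d22_23_14_1.H) (a := d22_23_14_1.a) (b := d22_23_14_1.b) (q := 5) (by decide) hn
    (BlkD.sp 0 14 (BlkD.sp 2 1 (BlkD.sp 0 7 (BlkD.sp 0 3 (s22_23_14_1_1 hn) (s22_23_14_1_2 hn))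
      (s22_23_14_1_3 hn)) (s22_23_14_1_4 hn)) (s22_23_14_1_5 hn))

/-- the numbers of the pair `(15, 0)`, `R = 22`, `H = 23` -/
def d22_23_15_0 : BlkD.Pd :=
  ⟨22, 23, 5, 15, 0, 5, 0, 1, 0, 4, 4, 0, 0, 4, 4, 0, [0, 4, 8, 12, 16, 20], [0, 4, 8, 12, 16, 20],
    [⟨1, 1, 1, 4, 8, [0, 4], [0, 4]⟩]⟩

/-- the certificates of the pair `(15, 0)` -/
def t22_23_15_0 : BlkD.Tr :=
  .S 0 15 (.S 2 0 (.S 0 7 (.L 4 4 [4] [] [] 100000 0 0 1600000 100000 0 100000 0 0 0 0) (.L 4 4 [4]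
    [] [] 100000 0 0 1600000 100000 0 100000 0 0 0 0)) (.E 1)) (.E 0)

lemma pr22_23_15_0 {n : ℕ} (hn : 7 ≤ n) : NoPr ((22 : ℕ) : ℤ) ((23 : ℕ) : ℤ) n 15 0 :=
  BlkD.pair_sound (d := d22_23_15_0) (by decide +kernel) hn (by decide) (tr := t22_23_15_0)
    (by decide +kernel) rfl rfl rfl rfl

end BlkC

end Pool.Agent.Lib.MP_f04ccf_co
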