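import Pool.Agent.Lib.MP_f04ccf_co.M.BlkT

/-!
MP_f04ccf_co, block certificate, data `R = 22`, `H = 23`, part 4 (generated, helper99:
bd10.cpp, gen2.py).
-/

set_option autoImplicit false
set_option maxRecDepth 100000

namespace Pool.Agent.Lib.MP_f04ccf_co

namespace BlkC

/-- the numbers of the pair `(6, 5)`, `R = 22`, `H = 23` -/
def d22_23_6_5 : BlkD.Pd :=
  ⟨22, 23, 5, 6, 5, 9, 4, 2, 4, 2, 12, 0, 2, 2, 10, 0, [0, 12, 24, 30, 34, 38, 42, 46, 50, 54], [0,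
    10, 20, 24, 26, 28, 30, 32, 34, 36], [⟨1, 1, 1, 4, 8, [0, 4], [0, 4]⟩, ⟨1, 1, 1, 6, 12, [0, 6],
    [0, 6]⟩, ⟨1, 1, 1, 6, 16, [0, 8], [0, 8]⟩, ⟨2, 1, 1, 6, 20, [0, 10, 10], [0, 10]⟩, ⟨2, 2, 1, 4,
    32, [0, 12, 18], [0, 10, 14]⟩]⟩

lemma k22_23_6_5 : BlkD.pairOk d22_23_6_5 = true := by decide +kernel

/-- certificates of the pair `(6, 5)`, part 1 -/
def t22_23_6_5_1 : BlkD.Tr :=
  .L 6 6 [4, 4, 5, 5, 6, 22] [] [] 100000 75000 75000 900000 100000 0 100000 50000 0 0 16667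

lemma s22_23_6_5_1 {n : ℕ} (hn : 7 ≤ n) : NoNd (d22_23_6_5.R : ℤ) d22_23_6_5.H n d22_23_6_5.a d22_23_6_5.b
    (BlkD.inB (fun _ => 0)
      (BlkD.upd (BlkD.upd (BlkD.upd (BlkD.upd (BlkD.upd (fun _ => 23) 0 6) 2 5) 0 3) 0 1) 0 0)) :=
  BlkD.tree_sound (BlkD.pairOk_sound k22_23_6_5) (by decide) hn t22_23_6_5_1 _ _ (by decide +kernel)

/-- certificates of the pair `(6, 5)`, part 2 -/
def t22_23_6_5_2 : BlkD.Tr :=
  .S 1 2 (.L 6 6 [4, 4, 5, 5, 6, 22] [] [] 100000 75000 75000 900000 100000 0 100000 50000 0 0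
    16667) (.L 6 6 [4, 4, 5, 5, 6, 22] [] [] 100000 75000 75000 900000 100000 0 100000 50000 0 0
    16667)

lemma s22_23_6_5_2 {n : ℕ} (hn : 7 ≤ n) : NoNd (d22_23_6_5.R : ℤ) d22_23_6_5.H n d22_23_6_5.a d22_23_6_5.b
    (BlkD.inB (BlkD.upd (fun _ => 0) 0 1)
      (BlkD.upd (BlkD.upd (BlkD.upd (BlkD.upd (BlkD.upd (BlkD.upd (fun _ => 23) 0 6) 2 5) 0 3) 0 1) 1 11) 1 5)) :=
  BlkD.tree_sound (BlkD.pairOk_sound k22_23_6_5) (by decide) hn t22_23_6_5_2 _ _ (by decide +kernel)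

/-- certificates of the pair `(6, 5)`, part 3 -/
def t22_23_6_5_3 : BlkD.Tr :=
  .S 1 8 (.S 1 7 (.L 6 6 [4, 4, 5, 5, 6, 22] [] [] 100000 75000 75000 900000 100000 0 100000 50000
    0 0 16667) (.L 6 6 [4, 4, 5, 5, 6, 22] [136, 132, 128, 124, 118, 108] [] 100000 75000 75000
    900000 100000 0 100000 50000 0 0 16667)) (.L 6 6 [4, 4, 5, 5, 6, 22] [] [] 100000 75000 75000
    900000 100000 0 100000 50000 0 0 16667)

lemma s22_23_6_5_3 {n : ℕ} (hn : 7 ≤ n) : NoNd (d22_23_6_5.R : ℤ) d22_23_6_5.H n d22_23_6_5.a d22_23_6_5.b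
    (BlkD.inB (BlkD.upd (BlkD.upd (fun _ => 0) 0 1) 1 6)
      (BlkD.upd (BlkD.upd (BlkD.upd (BlkD.upd (BlkD.upd (fun _ => 23) 0 6) 2 5) 0 3) 0 1) 1 11)) :=
  BlkD.tree_sound (BlkD.pairOk_sound k22_23_6_5) (by decide) hn t22_23_6_5_3 _ _ (by decide +kernel)

/-- certificates of the pair `(6, 5)`, part 4 -/
def t22_23_6_5_4 : BlkD.Tr :=
  .L 6 6 [4, 4, 5, 5, 6, 22] [] [] 100000 75000 75000 900000 100000 0 100000 50000 0 0 16667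

lemma s22_23_6_5_4 {n : ℕ} (hn : 7 ≤ n) : NoNd (d22_23_6_5.R : ℤ) d22_23_6_5.H n d22_23_6_5.a d22_23_6_5.b
    (BlkD.inB (BlkD.upd (BlkD.upd (fun _ => 0) 0 1) 1 12)
      (BlkD.upd (BlkD.upd (BlkD.upd (BlkD.upd (fun _ => 23) 0 6) 2 5) 0 3) 0 1)) :=
  BlkD.tree_sound (BlkD.pairOk_sound k22_23_6_5) (by decide) hn t22_23_6_5_4 _ _ (by decide +kernel)

/-- certificates of the pair `(6, 5)`, part 5 -/
def t22_23_6_5_5 : BlkD.Tr :=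
  .S 1 2 (.L 6 6 [4, 4, 5, 5, 6, 22] [] [] 100000 26316 26316 1110526 1316 5263 1316 76316 0 0
    23684) (.S 1 4 (.L 6 6 [4, 4, 5, 5, 6, 22] [] [] 100000 25000 25000 1280000 15000 0 15000 60000
    0 20000 20000) (.S 2 2 (.L 6 6 [4, 4, 5, 5, 6, 22] [92, 86, 76, 64, 52, 40] [] 100000 25457
    25457 1290397 25456 5091 58982 33525 2305 19020 18636) (.L 6 6 [4, 4, 5, 5, 6, 22] [92, 86, 76,
    64, 52, 40] [] 100000 35715 35715 1241272 31746 0 65079 33333 4762 12698 17989)))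

lemma s22_23_6_5_5 {n : ℕ} (hn : 7 ≤ n) : NoNd (d22_23_6_5.R : ℤ) d22_23_6_5.H n d22_23_6_5.a d22_23_6_5.b
    (BlkD.inB (BlkD.upd (fun _ => 0) 0 2)
      (BlkD.upd (BlkD.upd (BlkD.upd (BlkD.upd (BlkD.upd (BlkD.upd (BlkD.upd (fun _ => 23) 0 6) 2 5) 0 3) 0 2) 1 21) 1 10) 1 5)) :=
  BlkD.tree_sound (BlkD.pairOk_sound k22_23_6_5) (by decide) hn t22_23_6_5_5 _ _ (by decide +kernel)

/-- certificates of the pair `(6, 5)`, part 6 -/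
def t22_23_6_5_6 : BlkD.Tr :=
  .S 1 8 (.S 1 7 (.S 1 6 (.S 2 2 (.S 2 1 (.L 6 6 [4, 4, 5, 5, 6, 22] [110, 106, 100, 90, 78, 66] []
    100000 75000 75000 1000000 0 100000 100000 100000 0 0 0) (.S 3 13 (.S 3 6 (.S 3 3 (.L 6 6 [4,
    4, 5, 5, 6, 22] [110, 106, 100, 90, 78, 66] [] 100000 26432 26432 1238895 18914 9158 57443
    33566 4196 4795 32434) (.S 3 5 (.S 3 4 (.L 6 6 [4, 4, 5, 5, 6, 22] [110, 106, 100, 90, 78, 66]
    [70, 60, 50, 40, 28, 0] 100000 39405 39405 1223179 25828 24503 50331 50331 3311 8609 19205) (.L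
    6 6 [4, 4, 5, 5, 6, 22] [110, 106, 100, 90, 78, 66] [86, 82, 72, 62, 52, 40] 100000 21250 21250
    1313335 23333 0 70000 46667 13333 46667 13889)) (.L 6 6 [4, 4, 5, 5, 6, 22] [110, 106, 100, 90,
    78, 66] [102, 100, 96, 86, 76, 66] 100000 42411 42411 1145538 16071 0 74107 100000 11607 0
    14286))) (.E 1)) (.E 1))) (.L 6 6 [4, 4, 5, 5, 6, 22] [110, 106, 100, 90, 78, 66] [] 100000
    33643 33643 1259876 35031 0 64969 35031 3549 12500 20988)) (.S 2 2 (.L 6 6 [4, 4, 5, 5, 6, 22]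
    [130, 126, 122, 116, 106, 94] [] 100000 24041 24041 1302163 25899 5036 58273 46763 13429 10552
    15588) (.L 6 6 [4, 4, 5, 5, 6, 22] [130, 126, 122, 116, 106, 94] [] 100000 28859 28859 1258360
    31672 0 73312 36656 9968 11254 17203))) (.L 6 6 [4, 4, 5, 5, 6, 22] [152, 148, 144, 140, 134,
    124] [] 100000 60898 60898 1103366 65545 0 100000 33333 0 160 6891)) (.L 6 6 [4, 4, 5, 5, 6,
    22] [] [] 100000 142857 0 1 0 0 242857 0 0 0 0)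

lemma s22_23_6_5_6 {n : ℕ} (hn : 7 ≤ n) : NoNd (d22_23_6_5.R : ℤ) d22_23_6_5.H n d22_23_6_5.a d22_23_6_5.b
    (BlkD.inB (BlkD.upd (BlkD.upd (fun _ => 0) 0 2) 1 6)
      (BlkD.upd (BlkD.upd (BlkD.upd (BlkD.upd (BlkD.upd (BlkD.upd (fun _ => 23) 0 6) 2 5) 0 3) 0 2) 1 21) 1 10)) :=
  BlkD.tree_sound (BlkD.pairOk_sound k22_23_6_5) (by decide) hn t22_23_6_5_6 _ _ (by decide +kernel)

/-- certificates of the pair `(6, 5)`, part 7 -/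
def t22_23_6_5_7 : BlkD.Tr :=
  .E 0

lemma s22_23_6_5_7 {n : ℕ} (hn : 7 ≤ n) : NoNd (d22_23_6_5.R : ℤ) d22_23_6_5.H n d22_23_6_5.a d22_23_6_5.b
    (BlkD.inB (BlkD.upd (BlkD.upd (fun _ => 0) 0 2) 1 11)
      (BlkD.upd (BlkD.upd (BlkD.upd (BlkD.upd (BlkD.upd (fun _ => 23) 0 6) 2 5) 0 3) 0 2) 1 21)) :=
  BlkD.tree_sound (BlkD.pairOk_sound k22_23_6_5) (by decide) hn t22_23_6_5_7 _ _ (by decide +kernel)

/-- certificates of the pair `(6, 5)`, part 8 -/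
def t22_23_6_5_8 : BlkD.Tr :=
  .E 0

lemma s22_23_6_5_8 {n : ℕ} (hn : 7 ≤ n) : NoNd (d22_23_6_5.R : ℤ) d22_23_6_5.H n d22_23_6_5.a d22_23_6_5.b
    (BlkD.inB (BlkD.upd (BlkD.upd (fun _ => 0) 0 2) 1 22)
      (BlkD.upd (BlkD.upd (BlkD.upd (BlkD.upd (fun _ => 23) 0 6) 2 5) 0 3) 0 2)) :=
  BlkD.tree_sound (BlkD.pairOk_sound k22_23_6_5) (by decide) hn t22_23_6_5_8 _ _ (by decide +kernel)

/-- certificates of the pair `(6, 5)`, part 9 -/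
def t22_23_6_5_9 : BlkD.Tr :=
  .L 6 6 [4, 4, 5, 5, 6, 22] [] [] 100000 25000 25000 1200001 11538 3846 11538 69231 0 11538 19231

lemma s22_23_6_5_9 {n : ℕ} (hn : 7 ≤ n) : NoNd (d22_23_6_5.R : ℤ) d22_23_6_5.H n d22_23_6_5.a d22_23_6_5.b
    (BlkD.inB (BlkD.upd (BlkD.upd (fun _ => 0) 0 2) 0 3)
      (BlkD.upd (BlkD.upd (BlkD.upd (BlkD.upd (BlkD.upd (BlkD.upd (BlkD.upd (fun _ => 23) 0 6) 2 5) 0 3) 1 20) 1 10) 1 5) 1 2)) :=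
  BlkD.tree_sound (BlkD.pairOk_sound k22_23_6_5) (by decide) hn t22_23_6_5_9 _ _ (by decide +kernel)

/-- certificates of the pair `(6, 5)`, part 10 -/
def t22_23_6_5_10 : BlkD.Tr :=
  .S 1 3 (.L 6 6 [4, 4, 5, 5, 6, 22] [60, 48, 36, 24, 0, 0] [] 100000 20735 20735 1296209 17536 0
    77251 59716 8531 20853 19905) (.S 2 2 (.S 2 1 (.L 6 6 [4, 4, 5, 5, 6, 22] [82, 72, 60, 48, 36,
    0] [] 100000 75000 75000 1000000 0 100000 100000 100000 0 0 0) (.S 3 14 (.S 3 7 (.S 3 3 (.L 6 6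
    [4, 4, 5, 5, 6, 22] [82, 72, 60, 48, 36, 0] [] 100000 25000 25000 1200000 0 0 0 0 0 0 25000)
    (.S 3 5 (.S 3 4 (.L 6 6 [4, 4, 5, 5, 6, 22] [82, 72, 60, 48, 36, 0] [70, 60, 50, 40, 28, 0]
    100000 22613 22613 1265786 11406 13793 47215 41777 4775 13793 34218) (.L 6 6 [4, 4, 5, 5, 6,
    22] [82, 72, 60, 48, 36, 0] [86, 82, 72, 62, 52, 40] 100000 21784 21784 1305266 15789 15789
    51462 42105 6433 36842 21053)) (.L 6 6 [4, 4, 5, 5, 6, 22] [82, 72, 60, 48, 36, 0] [] 100000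
    28126 28126 1227085 0 0 72917 100000 10417 16667 16667))) (.E 1)) (.E 1))) (.S 2 4 (.S 2 3 (.S
    3 13 (.S 3 6 (.S 3 3 (.L 6 6 [4, 4, 5, 5, 6, 22] [82, 72, 60, 48, 36, 0] [] 100000 21798 21798
    1285332 10537 10537 44835 36777 6405 14463 34298) (.L 6 6 [4, 4, 5, 5, 6, 22] [82, 72, 60, 48,
    36, 0] [] 100000 20139 20139 1300000 25000 0 71528 43750 9722 56250 18750)) (.E 1)) (.E 1)) (.L
    6 6 [4, 4, 5, 5, 6, 22] [82, 72, 60, 48, 36, 0] [] 100000 18519 18519 1283333 16667 0 87037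
    50000 12963 50000 16667)) (.L 6 6 [4, 4, 5, 5, 6, 22] [82, 72, 60, 48, 36, 0] [] 100000 45834
    45834 1159525 47619 0 97619 50000 7143 50000 16667)))

lemma s22_23_6_5_10 {n : ℕ} (hn : 7 ≤ n) : NoNd (d22_23_6_5.R : ℤ) d22_23_6_5.H n d22_23_6_5.a d22_23_6_5.b
    (BlkD.inB (BlkD.upd (BlkD.upd (BlkD.upd (fun _ => 0) 0 2) 0 3) 1 3)
      (BlkD.upd (BlkD.upd (BlkD.upd (BlkD.upd (BlkD.upd (BlkD.upd (BlkD.upd (fun _ => 23) 0 6) 2 5) 0 3) 1 20) 1 10) 1 5) 1 4)) :=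
  BlkD.tree_sound (BlkD.pairOk_sound k22_23_6_5) (by decide) hn t22_23_6_5_10 _ _ (by decide +kernel)

/-- certificates of the pair `(6, 5)`, part 11 -/
def t22_23_6_5_11 : BlkD.Tr :=
  .S 2 1 (.L 6 6 [4, 4, 5, 5, 6, 22] [102, 96, 86, 74, 62, 50] [] 100000 75000 75000 1000000 0
    100000 100000 100000 0 0 0) (.S 3 13 (.S 3 6 (.S 3 3 (.L 6 6 [4, 4, 5, 5, 6, 22] [102, 96, 86,
    74, 62, 50] [] 100000 24105 24105 1251945 13433 13433 46269 40597 5672 5672 34627) (.S 3 5 (.S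
    3 4 (.L 7 7 [4, 4, 5, 5, 5, 22] [102, 96, 86, 74, 62, 50] [70, 60, 50, 40, 28, 0] 100000 22918
    22918 1299998 16667 16667 66667 41667 8333 16667 16667) (.S 4 5 (.S 4 2 (.L 7 7 [4, 4, 5, 5, 5,
    22] [74, 62, 50, 0, 0, 0] [86, 82, 72, 62, 52, 40] 100000 19229 19229 1292613 14143 25947 56533
    50631 32888 35226 10579) (.L 7 7 [4, 4, 5, 5, 5, 22] [102, 96, 86, 74, 62, 50] [86, 82, 72, 62,
    52, 40] 100000 25001 19445 1172220 2778 2778 105556 55556 0 25000 16667)) (.E 2))) (.L 7 7 [4,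
    4, 5, 5, 5, 22] [102, 96, 86, 74, 62, 50] [102, 100, 96, 86, 76, 66] 100000 50001 35715 1028570
    0 0 114286 114286 0 0 14286))) (.E 1)) (.E 1))

lemma s22_23_6_5_11 {n : ℕ} (hn : 7 ≤ n) : NoNd (d22_23_6_5.R : ℤ) d22_23_6_5.H n d22_23_6_5.a d22_23_6_5.b
    (BlkD.inB (BlkD.upd (BlkD.upd (BlkD.upd (BlkD.upd (fun _ => 0) 0 2) 0 3) 1 3) 1 5)
      (BlkD.upd (BlkD.upd (BlkD.upd (BlkD.upd (BlkD.upd (BlkD.upd (BlkD.upd (fun _ => 23) 0 6) 2 5) 0 3) 1 20) 1 10) 1 5) 2 2)) :=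
  BlkD.tree_sound (BlkD.pairOk_sound k22_23_6_5) (by decide) hn t22_23_6_5_11 _ _ (by decide +kernel)

/-- certificates of the pair `(6, 5)`, part 12 -/
def t22_23_6_5_12 : BlkD.Tr :=
  .S 2 4 (.S 2 3 (.S 3 12 (.S 3 6 (.S 3 3 (.S 3 1 (.L 7 7 [4, 4, 5, 5, 5, 22] [102, 96, 86, 74, 62,
    50] [] 100000 25000 25000 1200000 0 0 0 0 0 0 25000) (.S 3 2 (.L 7 7 [4, 4, 5, 5, 5, 22] [102,
    96, 86, 74, 62, 50] [36, 26, 14, 0, 0, 0] 100000 20589 20589 1273537 17647 8824 55882 47059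
    8824 8824 20588) (.L 7 7 [4, 4, 5, 5, 5, 22] [102, 96, 86, 74, 62, 50] [56, 46, 36, 24, 0, 0]
    100000 21649 21649 1310614 10615 22719 57542 58473 6704 35754 17877))) (.S 3 5 (.S 3 4 (.S 4 5
    (.S 4 2 (.L 7 7 [4, 4, 5, 5, 5, 22] [74, 62, 50, 0, 0, 0] [78, 68, 58, 48, 36, 0] 100000 11932
    11932 1334945 15625 15341 51420 51562 36222 36222 16051) (.L 7 7 [4, 4, 5, 5, 5, 22] [102, 96,
    86, 74, 62, 50] [78, 68, 58, 48, 36, 0] 100000 25000 20455 1177274 9091 0 104545 47727 0 25000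
    18182)) (.E 2)) (.L 7 7 [4, 4, 5, 5, 5, 22] [102, 96, 86, 74, 62, 50] [96, 92, 82, 72, 62, 50]
    100000 50001 35715 1028570 0 0 114286 114286 0 0 14286)) (.E 1))) (.E 1)) (.E 1)) (.L 7 7 [4,
    4, 5, 5, 5, 22] [102, 96, 86, 74, 62, 50] [] 100000 19546 19546 1305456 23636 0 61818 47273
    10909 36364 12727)) (.L 7 7 [4, 4, 5, 5, 5, 22] [102, 96, 86, 74, 62, 50] [] 100000 17154 17154
    1306569 21168 0 60584 51095 18248 35766 13139)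

lemma s22_23_6_5_12 {n : ℕ} (hn : 7 ≤ n) : NoNd (d22_23_6_5.R : ℤ) d22_23_6_5.H n d22_23_6_5.a d22_23_6_5.b
    (BlkD.inB (BlkD.upd (BlkD.upd (BlkD.upd (BlkD.upd (BlkD.upd (fun _ => 0) 0 2) 0 3) 1 3) 1 5) 2 3)
      (BlkD.upd (BlkD.upd (BlkD.upd (BlkD.upd (BlkD.upd (BlkD.upd (fun _ => 23) 0 6) 2 5) 0 3) 1 20) 1 10) 1 5)) :=
  BlkD.tree_sound (BlkD.pairOk_sound k22_23_6_5) (by decide) hn t22_23_6_5_12 _ _ (by decide +kernel)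

/-- certificates of the pair `(6, 5)`, part 13 -/
def t22_23_6_5_13 : BlkD.Tr :=
  .S 1 8 (.S 1 7 (.S 1 6 (.S 2 2 (.S 2 1 (.L 7 7 [4, 4, 5, 5, 5, 22] [122, 118, 112, 102, 90, 78]
    [] 100000 62500 62500 1050000 0 100000 50000 100000 0 0 0) (.S 3 12 (.S 3 6 (.S 3 3 (.L 7 7 [4,
    4, 5, 5, 5, 22] [122, 118, 112, 102, 90, 78] [] 100000 33318 33318 1251144 14829 34791 51711
    56844 9316 4183 24144) (.L 7 7 [4, 4, 5, 5, 5, 22] [122, 118, 112, 102, 90, 78] [] 100000 17437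
    17437 1329561 11246 16739 58500 45989 18047 23838 12207)) (.E 1)) (.E 1))) (.S 2 4 (.S 2 3 (.S
    3 11 (.S 3 5 (.S 3 2 (.L 7 7 [4, 4, 5, 5, 5, 22] [122, 118, 112, 102, 90, 78] [] 100000 18500
    18500 1311331 15365 13606 59095 61949 17037 13001 17613) (.L 7 7 [4, 4, 5, 5, 5, 22] [122, 118,
    112, 102, 90, 78] [] 100000 14644 14644 1340126 8464 17241 65831 42633 27586 50784 14017)) (.E
    1)) (.E 1)) (.L 7 7 [4, 4, 5, 5, 5, 22] [122, 118, 112, 102, 90, 78] [] 100000 15449 15449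
    1304153 21761 0 65282 43522 23920 34718 14286)) (.L 7 7 [4, 4, 5, 5, 5, 22] [122, 118, 112,
    102, 90, 78] [] 100000 9475 9475 1299999 11053 0 77895 33158 44211 44211 17895))) (.L 7 7 [4,
    4, 5, 5, 5, 22] [144, 140, 136, 130, 120, 108] [] 100000 24618 21520 1186041 1555 1555 103098
    50000 15036 11111 18134)) (.E 0)) (.E 0)

lemma s22_23_6_5_13 {n : ℕ} (hn : 7 ≤ n) : NoNd (d22_23_6_5.R : ℤ) d22_23_6_5.H n d22_23_6_5.a d22_23_6_5.b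
    (BlkD.inB (BlkD.upd (BlkD.upd (BlkD.upd (fun _ => 0) 0 2) 0 3) 1 6)
      (BlkD.upd (BlkD.upd (BlkD.upd (BlkD.upd (BlkD.upd (fun _ => 23) 0 6) 2 5) 0 3) 1 20) 1 10)) :=
  BlkD.tree_sound (BlkD.pairOk_sound k22_23_6_5) (by decide) hn t22_23_6_5_13 _ _ (by decide +kernel)

/-- certificates of the pair `(6, 5)`, part 14 -/
def t22_23_6_5_14 : BlkD.Tr :=
  .E 0

lemma s22_23_6_5_14 {n : ℕ} (hn : 7 ≤ n) : NoNd (d22_23_6_5.R : ℤ) d22_23_6_5.H n d22_23_6_5.a d22_23_6_5.b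
    (BlkD.inB (BlkD.upd (BlkD.upd (BlkD.upd (fun _ => 0) 0 2) 0 3) 1 11)
      (BlkD.upd (BlkD.upd (BlkD.upd (BlkD.upd (fun _ => 23) 0 6) 2 5) 0 3) 1 20)) :=
  BlkD.tree_sound (BlkD.pairOk_sound k22_23_6_5) (by decide) hn t22_23_6_5_14 _ _ (by decide +kernel)

/-- certificates of the pair `(6, 5)`, part 15 -/
def t22_23_6_5_15 : BlkD.Tr :=
  .E 0

lemma s22_23_6_5_15 {n : ℕ} (hn : 7 ≤ n) : NoNd (d22_23_6_5.R : ℤ) d22_23_6_5.H n d22_23_6_5.a d22_23_6_5.b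
    (BlkD.inB (BlkD.upd (BlkD.upd (BlkD.upd (fun _ => 0) 0 2) 0 3) 1 21)
      (BlkD.upd (BlkD.upd (BlkD.upd (fun _ => 23) 0 6) 2 5) 0 3)) :=
  BlkD.tree_sound (BlkD.pairOk_sound k22_23_6_5) (by decide) hn t22_23_6_5_15 _ _ (by decide +kernel)

/-- certificates of the pair `(6, 5)`, part 16 -/
def t22_23_6_5_16 : BlkD.Tr :=
  .L 7 7 [4, 4, 5, 5, 5, 22] [] [] 100000 20951 20951 1292538 21704 3731 86491 52861 8098 21393
    13557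

lemma s22_23_6_5_16 {n : ℕ} (hn : 7 ≤ n) : NoNd (d22_23_6_5.R : ℤ) d22_23_6_5.H n d22_23_6_5.a d22_23_6_5.b
    (BlkD.inB (BlkD.upd (fun _ => 0) 0 4)
      (BlkD.upd (BlkD.upd (BlkD.upd (BlkD.upd (BlkD.upd (BlkD.upd (BlkD.upd (BlkD.upd (fun _ => 23) 0 6) 2 5) 0 5) 0 4) 1 19) 1 9) 1 4) 1 2)) :=
  BlkD.tree_sound (BlkD.pairOk_sound k22_23_6_5) (by decide) hn t22_23_6_5_16 _ _ (by decide +kernel)

/-- certificates of the pair `(6, 5)`, part 17 -/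
def t22_23_6_5_17 : BlkD.Tr :=
  .S 1 3 (.S 2 2 (.L 7 7 [4, 4, 5, 5, 5, 22] [66, 54, 42, 30, 0, 0] [] 100000 17041 17041 1325801
    18146 9881 65002 45059 15918 19260 17715) (.L 7 7 [4, 4, 5, 5, 5, 22] [66, 54, 42, 30, 0, 0] []
    100000 14453 14453 1327349 24219 0 70312 48437 21094 21094 21094)) (.S 2 2 (.S 2 1 (.L 7 7 [4,
    4, 5, 5, 5, 22] [90, 80, 68, 56, 44, 0] [] 100000 62500 62500 1050000 0 100000 50000 100000 0 0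
    0) (.S 3 13 (.S 3 6 (.S 3 3 (.L 7 7 [4, 4, 5, 5, 5, 22] [90, 80, 68, 56, 44, 0] [] 100000 21244
    21244 1264321 13615 16901 47418 48357 8451 7512 22066) (.S 3 5 (.S 3 4 (.L 7 7 [4, 4, 5, 5, 5,
    22] [90, 80, 68, 56, 44, 0] [70, 60, 50, 40, 28, 0] 100000 15689 15689 1324343 13988 16847
    58501 44513 18624 19397 19397) (.L 7 7 [4, 4, 5, 5, 5, 22] [90, 80, 68, 56, 44, 0] [86, 82, 72,
    62, 52, 40] 100000 17950 17950 1319232 3846 30769 65385 42308 16667 38462 11538)) (.L 7 7 [4,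
    4, 5, 5, 5, 22] [90, 80, 68, 56, 44, 0] [102, 100, 96, 86, 76, 66] 100000 57144 42858 999998
    14286 0 114286 114286 0 0 14286))) (.E 1)) (.E 1))) (.S 2 4 (.S 2 3 (.S 3 12 (.S 3 6 (.S 3 3
    (.L 7 7 [4, 4, 5, 5, 5, 22] [90, 80, 68, 56, 44, 0] [] 100000 14874 14874 1339241 0 20253 60759
    67089 20253 20886 20886) (.S 3 5 (.S 3 4 (.S 4 4 (.S 4 2 (.L 7 7 [4, 4, 5, 5, 5, 22] [68, 56,
    44, 0, 0, 0] [78, 68, 58, 48, 36, 0] 100000 11112 11112 1347221 13889 13889 55556 55556 41667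
    38889 16667) (.L 7 7 [4, 4, 5, 5, 5, 22] [90, 80, 68, 56, 44, 0] [78, 68, 58, 48, 36, 0] 100000
    25000 20000 1175000 10000 0 105000 52500 0 25000 17500)) (.E 2)) (.L 7 7 [4, 4, 5, 5, 5, 22]
    [90, 80, 68, 56, 44, 0] [96, 92, 82, 72, 62, 50] 100000 128573 57144 428568 71429 0 171429
    171429 0 0 14286)) (.E 1))) (.E 1)) (.E 1)) (.L 7 7 [4, 4, 5, 5, 5, 22] [90, 80, 68, 56, 44, 0]
    [] 100000 14638 14638 1332051 22650 0 71368 46154 24359 24359 17094)) (.L 7 7 [4, 4, 5, 5, 5,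
    22] [90, 80, 68, 56, 44, 0] [] 100000 10375 10375 1334695 16327 0 57823 48980 34694 34694
    23810)))

lemma s22_23_6_5_17 {n : ℕ} (hn : 7 ≤ n) : NoNd (d22_23_6_5.R : ℤ) d22_23_6_5.H n d22_23_6_5.a d22_23_6_5.b
    (BlkD.inB (BlkD.upd (BlkD.upd (fun _ => 0) 0 4) 1 3)
      (BlkD.upd (BlkD.upd (BlkD.upd (BlkD.upd (BlkD.upd (BlkD.upd (BlkD.upd (fun _ => 23) 0 6) 2 5) 0 5) 0 4) 1 19) 1 9) 1 4)) :=
  BlkD.tree_sound (BlkD.pairOk_sound k22_23_6_5) (by decide) hn t22_23_6_5_17 _ _ (by decide +kernel)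

/-- certificates of the pair `(6, 5)`, part 18 -/
def t22_23_6_5_18 : BlkD.Tr :=
  .L 7 7 [4, 4, 5, 5, 5, 22] [] [] 100000 21725 21725 1300690 1379 345 97931 49655 21724 11034
    19655

lemma s22_23_6_5_18 {n : ℕ} (hn : 7 ≤ n) : NoNd (d22_23_6_5.R : ℤ) d22_23_6_5.H n d22_23_6_5.a d22_23_6_5.b
    (BlkD.inB (BlkD.upd (BlkD.upd (fun _ => 0) 0 4) 1 5)
      (BlkD.upd (BlkD.upd (BlkD.upd (BlkD.upd (BlkD.upd (BlkD.upd (fun _ => 23) 0 6) 2 5) 0 5) 0 4) 1 19) 1 9)) :=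
  BlkD.tree_sound (BlkD.pairOk_sound k22_23_6_5) (by decide) hn t22_23_6_5_18 _ _ (by decide +kernel)

/-- certificates of the pair `(6, 5)`, part 19 -/
def t22_23_6_5_19 : BlkD.Tr :=
  .E 0

lemma s22_23_6_5_19 {n : ℕ} (hn : 7 ≤ n) : NoNd (d22_23_6_5.R : ℤ) d22_23_6_5.H n d22_23_6_5.a d22_23_6_5.b
    (BlkD.inB (BlkD.upd (BlkD.upd (fun _ => 0) 0 4) 1 10)
      (BlkD.upd (BlkD.upd (BlkD.upd (BlkD.upd (BlkD.upd (fun _ => 23) 0 6) 2 5) 0 5) 0 4) 1 19)) :=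
  BlkD.tree_sound (BlkD.pairOk_sound k22_23_6_5) (by decide) hn t22_23_6_5_19 _ _ (by decide +kernel)

/-- certificates of the pair `(6, 5)`, part 20 -/
def t22_23_6_5_20 : BlkD.Tr :=
  .E 0

lemma s22_23_6_5_20 {n : ℕ} (hn : 7 ≤ n) : NoNd (d22_23_6_5.R : ℤ) d22_23_6_5.H n d22_23_6_5.a d22_23_6_5.b
    (BlkD.inB (BlkD.upd (BlkD.upd (fun _ => 0) 0 4) 1 20)
      (BlkD.upd (BlkD.upd (BlkD.upd (BlkD.upd (fun _ => 23) 0 6) 2 5) 0 5) 0 4)) :=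
  BlkD.tree_sound (BlkD.pairOk_sound k22_23_6_5) (by decide) hn t22_23_6_5_20 _ _ (by decide +kernel)

/-- certificates of the pair `(6, 5)`, part 21 -/
def t22_23_6_5_21 : BlkD.Tr :=
  .S 1 18 (.S 1 9 (.S 1 4 (.S 1 2 (.L 7 7 [4, 4, 5, 5, 5, 22] [] [] 100000 16522 16522 1308096
    26204 6551 65703 46050 34297 16956 16956) (.S 1 3 (.S 2 2 (.L 7 7 [4, 4, 5, 5, 5, 22] [72, 60,
    48, 36, 0, 0] [] 100000 19233 19233 1284482 13793 22414 56897 48276 37931 11576 11494) (.L 7 7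
    [4, 4, 5, 5, 5, 22] [72, 60, 48, 36, 0, 0] [] 100000 15065 15065 1328205 14103 0 71795 71795
    39103 25000 14744)) (.L 7 7 [4, 4, 5, 5, 5, 22] [98, 88, 76, 64, 52, 0] [] 100000 19566 19566
    1284783 19565 0 97826 28261 19565 19565 17391))) (.E 0)) (.E 0)) (.E 0)

lemma s22_23_6_5_21 {n : ℕ} (hn : 7 ≤ n) : NoNd (d22_23_6_5.R : ℤ) d22_23_6_5.H n d22_23_6_5.a d22_23_6_5.b
    (BlkD.inB (BlkD.upd (BlkD.upd (fun _ => 0) 0 4) 0 5)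
      (BlkD.upd (BlkD.upd (BlkD.upd (fun _ => 23) 0 6) 2 5) 0 5)) :=
  BlkD.tree_sound (BlkD.pairOk_sound k22_23_6_5) (by decide) hn t22_23_6_5_21 _ _ (by decide +kernel)

/-- certificates of the pair `(6, 5)`, part 22 -/
def t22_23_6_5_22 : BlkD.Tr :=
  .L 7 7 [4, 4, 5, 5, 5, 22] [] [] 100000 18131 18131 1312985 0 10576 44712 65863 43885 16079 11403

lemma s22_23_6_5_22 {n : ℕ} (hn : 7 ≤ n) : NoNd (d22_23_6_5.R : ℤ) d22_23_6_5.H n d22_23_6_5.a d22_23_6_5.b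
    (BlkD.inB (BlkD.upd (BlkD.upd (fun _ => 0) 0 4) 0 6)
      (BlkD.upd (BlkD.upd (fun _ => 23) 0 6) 2 5)) :=
  BlkD.tree_sound (BlkD.pairOk_sound k22_23_6_5) (by decide) hn t22_23_6_5_22 _ _ (by decide +kernel)

/-- certificates of the pair `(6, 5)`, part 23 -/
def t22_23_6_5_23 : BlkD.Tr :=
  .E 1

lemma s22_23_6_5_23 {n : ℕ} (hn : 7 ≤ n) : NoNd (d22_23_6_5.R : ℤ) d22_23_6_5.H n d22_23_6_5.a d22_23_6_5.b
    (BlkD.inB (BlkD.upd (fun _ => 0) 2 6)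
      (BlkD.upd (fun _ => 23) 0 6)) :=
  BlkD.tree_sound (BlkD.pairOk_sound k22_23_6_5) (by decide) hn t22_23_6_5_23 _ _ (by decide +kernel)

/-- certificates of the pair `(6, 5)`, part 24 -/
def t22_23_6_5_24 : BlkD.Tr :=
  .E 0

lemma s22_23_6_5_24 {n : ℕ} (hn : 7 ≤ n) : NoNd (d22_23_6_5.R : ℤ) d22_23_6_5.H n d22_23_6_5.a d22_23_6_5.b
    (BlkD.inB (BlkD.upd (fun _ => 0) 0 7)
      (fun _ => 23)) :=
  BlkD.tree_sound (BlkD.pairOk_sound k22_23_6_5) (by decide) hn t22_23_6_5_24 _ _ (by decide +kernel)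

lemma pr22_23_6_5 {n : ℕ} (hn : 7 ≤ n) : NoPr ((22 : ℕ) : ℤ) ((23 : ℕ) : ℤ) n 6 5 :=
  BlkD.of_root (R := d22_23_6_5.R) (H := d22_23_6_5.H) (a := d22_23_6_5.a) (b := d22_23_6_5.b) (q := 5) (by decide) hn
    (BlkD.sp 0 6 (BlkD.sp 2 5 (BlkD.sp 0 3 (BlkD.sp 0 1 (BlkD.sp 0 0 (s22_23_6_5_1 hn) (BlkD.sp 1
      11 (BlkD.sp 1 5 (s22_23_6_5_2 hn) (s22_23_6_5_3 hn)) (s22_23_6_5_4 hn))) (BlkD.sp 0 2
      (BlkD.sp 1 21 (BlkD.sp 1 10 (BlkD.sp 1 5 (s22_23_6_5_5 hn) (s22_23_6_5_6 hn)) (s22_23_6_5_7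
      hn)) (s22_23_6_5_8 hn)) (BlkD.sp 1 20 (BlkD.sp 1 10 (BlkD.sp 1 5 (BlkD.sp 1 2 (s22_23_6_5_9
      hn) (BlkD.sp 1 4 (s22_23_6_5_10 hn) (BlkD.sp 2 2 (s22_23_6_5_11 hn) (s22_23_6_5_12 hn))))
      (s22_23_6_5_13 hn)) (s22_23_6_5_14 hn)) (s22_23_6_5_15 hn)))) (BlkD.sp 0 5 (BlkD.sp 0 4
      (BlkD.sp 1 19 (BlkD.sp 1 9 (BlkD.sp 1 4 (BlkD.sp 1 2 (s22_23_6_5_16 hn) (s22_23_6_5_17 hn))
      (s22_23_6_5_18 hn)) (s22_23_6_5_19 hn)) (s22_23_6_5_20 hn)) (s22_23_6_5_21 hn))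
      (s22_23_6_5_22 hn))) (s22_23_6_5_23 hn)) (s22_23_6_5_24 hn))

end BlkC

end Pool.Agent.Lib.MP_f04ccf_co
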