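import Pool.Agent.Lib.MP_f04ccf_co.M.BlkT

/-!
MP_f04ccf_co, block certificate, data `R = 22`, `H = 23`, part 5 (generated, helper99:
bd10.cpp, gen2.py).
-/

set_option autoImplicit false
set_option maxRecDepth 100000

namespace Pool.Agent.Lib.MP_f04ccf_co

namespace BlkC

/-- the numbers of the pair `(6, 6)`, `R = 22`, `H = 23` -/
def d22_23_6_6 : BlkD.Pd :=
  ⟨22, 23, 5, 6, 6, 8, 3, 3, 2, 2, 10, 0, 2, 2, 10, 0, [0, 10, 20, 22, 24, 26, 28, 30, 32], [0, 10,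
    20, 22, 24, 26, 28, 30, 32], [⟨1, 1, 1, 4, 8, [0, 4], [0, 4]⟩, ⟨1, 1, 1, 4, 12, [0, 6], [0,
    6]⟩, ⟨1, 1, 1, 4, 16, [0, 8], [0, 8]⟩, ⟨2, 2, 1, 4, 20, [0, 10, 10], [0, 10, 10]⟩]⟩

lemma k22_23_6_6 : BlkD.pairOk d22_23_6_6 = true := by decide +kernel

/-- certificates of the pair `(6, 6)`, part 1 -/
def t22_23_6_6_1 : BlkD.Tr :=
  .L 7 7 [4, 4, 4, 5, 22, 22, 22] [] [] 100000 36112 36112 1274999 66667 0 75000 41667 0 0 16667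

lemma s22_23_6_6_1 {n : ℕ} (hn : 7 ≤ n) : NoNd (d22_23_6_6.R : ℤ) d22_23_6_6.H n d22_23_6_6.a d22_23_6_6.b
    (BlkD.inB (fun _ => 0)
      (BlkD.upd (BlkD.upd (BlkD.upd (BlkD.upd (BlkD.upd (fun _ => 23) 0 6) 2 6) 0 3) 0 1) 0 0)) :=
  BlkD.tree_sound (BlkD.pairOk_sound k22_23_6_6) (by decide) hn t22_23_6_6_1 _ _ (by decide +kernel)

/-- certificates of the pair `(6, 6)`, part 2 -/
def t22_23_6_6_2 : BlkD.Tr :=
  .L 7 7 [4, 4, 4, 5, 22, 22, 22] [] [] 100000 36112 36112 1274999 66667 0 75000 41667 0 0 16667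

lemma s22_23_6_6_2 {n : ℕ} (hn : 7 ≤ n) : NoNd (d22_23_6_6.R : ℤ) d22_23_6_6.H n d22_23_6_6.a d22_23_6_6.b
    (BlkD.inB (BlkD.upd (fun _ => 0) 0 1)
      (BlkD.upd (BlkD.upd (BlkD.upd (BlkD.upd (BlkD.upd (BlkD.upd (BlkD.upd (fun _ => 23) 0 6) 2 6) 0 3) 0 1) 1 11) 1 5) 1 2)) :=
  BlkD.tree_sound (BlkD.pairOk_sound k22_23_6_6) (by decide) hn t22_23_6_6_2 _ _ (by decide +kernel)

/-- certificates of the pair `(6, 6)`, part 3 -/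
def t22_23_6_6_3 : BlkD.Tr :=
  .S 1 4 (.L 7 7 [4, 4, 4, 5, 22, 22, 22] [] [] 100000 36112 36112 1274999 66667 0 75000 41667 0 0
    16667) (.L 7 7 [4, 4, 4, 5, 22, 22, 22] [80, 76, 66, 56, 44, 30] [] 100000 36112 36112 1274999
    66667 0 75000 41667 0 0 16667)

lemma s22_23_6_6_3 {n : ℕ} (hn : 7 ≤ n) : NoNd (d22_23_6_6.R : ℤ) d22_23_6_6.H n d22_23_6_6.a d22_23_6_6.b
    (BlkD.inB (BlkD.upd (BlkD.upd (fun _ => 0) 0 1) 1 3)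
      (BlkD.upd (BlkD.upd (BlkD.upd (BlkD.upd (BlkD.upd (BlkD.upd (fun _ => 23) 0 6) 2 6) 0 3) 0 1) 1 11) 1 5)) :=
  BlkD.tree_sound (BlkD.pairOk_sound k22_23_6_6) (by decide) hn t22_23_6_6_3 _ _ (by decide +kernel)

/-- certificates of the pair `(6, 6)`, part 4 -/
def t22_23_6_6_4 : BlkD.Tr :=
  .S 1 8 (.S 1 7 (.S 1 6 (.L 7 7 [4, 4, 4, 5, 22, 22, 22] [94, 92, 88, 78, 68, 56] [] 100000 36112
    36112 1274999 66667 0 75000 41667 0 0 16667) (.L 7 7 [4, 4, 4, 5, 22, 22, 22] [110, 108, 106,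
    102, 92, 82] [] 100000 36112 36112 1274999 66667 0 75000 41667 0 0 16667)) (.L 7 7 [4, 4, 4, 5,
    22, 22, 22] [128, 126, 124, 122, 118, 108] [] 100000 36112 36112 1274999 66667 0 75000 41667 0
    0 16667)) (.L 7 7 [4, 4, 4, 5, 22, 22, 22] [] [] 100000 36112 36112 1274999 66667 0 75000 41667
    0 0 16667)

lemma s22_23_6_6_4 {n : ℕ} (hn : 7 ≤ n) : NoNd (d22_23_6_6.R : ℤ) d22_23_6_6.H n d22_23_6_6.a d22_23_6_6.b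
    (BlkD.inB (BlkD.upd (BlkD.upd (fun _ => 0) 0 1) 1 6)
      (BlkD.upd (BlkD.upd (BlkD.upd (BlkD.upd (BlkD.upd (fun _ => 23) 0 6) 2 6) 0 3) 0 1) 1 11)) :=
  BlkD.tree_sound (BlkD.pairOk_sound k22_23_6_6) (by decide) hn t22_23_6_6_4 _ _ (by decide +kernel)

/-- certificates of the pair `(6, 6)`, part 5 -/
def t22_23_6_6_5 : BlkD.Tr :=
  .L 7 7 [4, 4, 4, 5, 22, 22, 22] [] [] 100000 36112 36112 1274999 66667 0 75000 41667 0 0 16667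

lemma s22_23_6_6_5 {n : ℕ} (hn : 7 ≤ n) : NoNd (d22_23_6_6.R : ℤ) d22_23_6_6.H n d22_23_6_6.a d22_23_6_6.b
    (BlkD.inB (BlkD.upd (BlkD.upd (fun _ => 0) 0 1) 1 12)
      (BlkD.upd (BlkD.upd (BlkD.upd (BlkD.upd (fun _ => 23) 0 6) 2 6) 0 3) 0 1)) :=
  BlkD.tree_sound (BlkD.pairOk_sound k22_23_6_6) (by decide) hn t22_23_6_6_5 _ _ (by decide +kernel)

/-- certificates of the pair `(6, 6)`, part 6 -/
def t22_23_6_6_6 : BlkD.Tr :=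
  .L 7 7 [4, 4, 4, 5, 22, 22, 22] [] [] 100000 16667 16667 1300000 0 0 0 50000 0 0 50000

lemma s22_23_6_6_6 {n : ℕ} (hn : 7 ≤ n) : NoNd (d22_23_6_6.R : ℤ) d22_23_6_6.H n d22_23_6_6.a d22_23_6_6.b
    (BlkD.inB (BlkD.upd (fun _ => 0) 0 2)
      (BlkD.upd (BlkD.upd (BlkD.upd (BlkD.upd (BlkD.upd (BlkD.upd (BlkD.upd (BlkD.upd (fun _ => 23) 0 6) 2 6) 0 3) 0 2) 1 21) 1 10) 1 5) 1 2)) :=
  BlkD.tree_sound (BlkD.pairOk_sound k22_23_6_6) (by decide) hn t22_23_6_6_6 _ _ (by decide +kernel)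

/-- certificates of the pair `(6, 6)`, part 7 -/
def t22_23_6_6_7 : BlkD.Tr :=
  .S 1 4 (.L 7 7 [4, 4, 4, 5, 22, 22, 22] [] [] 100000 14584 14584 1436461 15104 8333 23437 45833 0
    12500 43750) (.S 2 3 (.L 7 7 [4, 4, 4, 5, 22, 22, 22] [90, 86, 76, 66, 54, 40] [] 100000 22852
    22852 1408280 20246 20246 50000 50000 1585 8275 21585) (.L 7 7 [4, 4, 4, 5, 22, 22, 22] [90,
    86, 76, 66, 54, 40] [] 100000 17719 17719 1411893 29369 0 67476 50000 5825 8495 32524))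

lemma s22_23_6_6_7 {n : ℕ} (hn : 7 ≤ n) : NoNd (d22_23_6_6.R : ℤ) d22_23_6_6.H n d22_23_6_6.a d22_23_6_6.b
    (BlkD.inB (BlkD.upd (BlkD.upd (fun _ => 0) 0 2) 1 3)
      (BlkD.upd (BlkD.upd (BlkD.upd (BlkD.upd (BlkD.upd (BlkD.upd (BlkD.upd (fun _ => 23) 0 6) 2 6) 0 3) 0 2) 1 21) 1 10) 1 5)) :=
  BlkD.tree_sound (BlkD.pairOk_sound k22_23_6_6) (by decide) hn t22_23_6_6_7 _ _ (by decide +kernel)

/-- certificates of the pair `(6, 6)`, part 8 -/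
def t22_23_6_6_8 : BlkD.Tr :=
  .S 1 8 (.S 1 7 (.S 1 6 (.S 2 3 (.L 7 7 [4, 4, 4, 5, 22, 22, 22] [106, 104, 100, 90, 80, 68] []
    100000 25799 25799 1404702 30651 18174 49593 49231 5108 5470 12025) (.L 7 7 [4, 4, 4, 5, 22,
    22, 22] [106, 104, 100, 90, 80, 68] [] 100000 19608 19608 1423532 35294 0 70588 35294 11765
    5882 23529)) (.S 2 3 (.L 7 7 [4, 4, 4, 5, 22, 22, 22] [124, 122, 120, 116, 106, 96] [] 100000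
    25463 25463 1404134 26897 19212 49952 53794 7973 4131 11508) (.L 7 7 [4, 4, 4, 5, 22, 22, 22]
    [124, 122, 120, 116, 106, 96] [] 100000 23986 23986 1400003 44444 0 66667 33333 0 9524 18519)))
    (.L 7 7 [4, 4, 4, 5, 22, 22, 22] [144, 142, 140, 138, 134, 124] [] 100000 46155 46155 1284614
    69231 0 92308 23077 0 0 7692)) (.E 0)

lemma s22_23_6_6_8 {n : ℕ} (hn : 7 ≤ n) : NoNd (d22_23_6_6.R : ℤ) d22_23_6_6.H n d22_23_6_6.a d22_23_6_6.b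
    (BlkD.inB (BlkD.upd (BlkD.upd (fun _ => 0) 0 2) 1 6)
      (BlkD.upd (BlkD.upd (BlkD.upd (BlkD.upd (BlkD.upd (BlkD.upd (fun _ => 23) 0 6) 2 6) 0 3) 0 2) 1 21) 1 10)) :=
  BlkD.tree_sound (BlkD.pairOk_sound k22_23_6_6) (by decide) hn t22_23_6_6_8 _ _ (by decide +kernel)

/-- certificates of the pair `(6, 6)`, part 9 -/
def t22_23_6_6_9 : BlkD.Tr :=
  .E 0

lemma s22_23_6_6_9 {n : ℕ} (hn : 7 ≤ n) : NoNd (d22_23_6_6.R : ℤ) d22_23_6_6.H n d22_23_6_6.a d22_23_6_6.b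
    (BlkD.inB (BlkD.upd (BlkD.upd (fun _ => 0) 0 2) 1 11)
      (BlkD.upd (BlkD.upd (BlkD.upd (BlkD.upd (BlkD.upd (fun _ => 23) 0 6) 2 6) 0 3) 0 2) 1 21)) :=
  BlkD.tree_sound (BlkD.pairOk_sound k22_23_6_6) (by decide) hn t22_23_6_6_9 _ _ (by decide +kernel)

/-- certificates of the pair `(6, 6)`, part 10 -/
def t22_23_6_6_10 : BlkD.Tr :=
  .E 0

lemma s22_23_6_6_10 {n : ℕ} (hn : 7 ≤ n) : NoNd (d22_23_6_6.R : ℤ) d22_23_6_6.H n d22_23_6_6.a d22_23_6_6.b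
    (BlkD.inB (BlkD.upd (BlkD.upd (fun _ => 0) 0 2) 1 22)
      (BlkD.upd (BlkD.upd (BlkD.upd (BlkD.upd (fun _ => 23) 0 6) 2 6) 0 3) 0 2)) :=
  BlkD.tree_sound (BlkD.pairOk_sound k22_23_6_6) (by decide) hn t22_23_6_6_10 _ _ (by decide +kernel)

/-- certificates of the pair `(6, 6)`, part 11 -/
def t22_23_6_6_11 : BlkD.Tr :=
  .L 7 7 [4, 4, 4, 5, 22, 22, 22] [] [] 100000 13304 13304 1371053 14474 9649 14474 52412 0 12500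
    47588

lemma s22_23_6_6_11 {n : ℕ} (hn : 7 ≤ n) : NoNd (d22_23_6_6.R : ℤ) d22_23_6_6.H n d22_23_6_6.a d22_23_6_6.b
    (BlkD.inB (BlkD.upd (BlkD.upd (fun _ => 0) 0 2) 0 3)
      (BlkD.upd (BlkD.upd (BlkD.upd (BlkD.upd (BlkD.upd (BlkD.upd (BlkD.upd (fun _ => 23) 0 6) 2 6) 0 3) 1 20) 1 10) 1 5) 1 2)) :=
  BlkD.tree_sound (BlkD.pairOk_sound k22_23_6_6) (by decide) hn t22_23_6_6_11 _ _ (by decide +kernel)

/-- certificates of the pair `(6, 6)`, part 12 -/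
def t22_23_6_6_12 : BlkD.Tr :=
  .S 1 4 (.S 1 3 (.L 7 7 [4, 4, 4, 5, 22, 22, 22] [60, 50, 38, 24, 0, 0] [] 100000 16791 16791
    1430952 15934 10623 26557 50000 0 11172 38462) (.S 2 3 (.L 7 7 [4, 4, 4, 5, 22, 22, 22] [82,
    72, 62, 50, 36, 0] [] 100000 21334 21334 1416002 24000 16000 56000 56000 2667 9333 24000) (.L 6
    6 [4, 4, 4, 5, 22, 22, 22] [82, 72, 62, 50, 36, 0] [] 100000 13555 13555 1446282 26556 202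
    57538 50101 4426 12449 42462))) (.S 2 3 (.L 6 6 [4, 4, 4, 5, 22, 22, 22] [100, 96, 86, 76, 64,
    50] [] 100000 23537 23537 1429052 17640 22476 63656 45767 6574 6822 15997) (.L 6 6 [4, 4, 4, 5,
    22, 22, 22] [100, 96, 86, 76, 64, 50] [] 100000 15943 15943 1447832 30435 0 67391 45652 10870
    8696 32609))

lemma s22_23_6_6_12 {n : ℕ} (hn : 7 ≤ n) : NoNd (d22_23_6_6.R : ℤ) d22_23_6_6.H n d22_23_6_6.a d22_23_6_6.b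
    (BlkD.inB (BlkD.upd (BlkD.upd (BlkD.upd (fun _ => 0) 0 2) 0 3) 1 3)
      (BlkD.upd (BlkD.upd (BlkD.upd (BlkD.upd (BlkD.upd (BlkD.upd (fun _ => 23) 0 6) 2 6) 0 3) 1 20) 1 10) 1 5)) :=
  BlkD.tree_sound (BlkD.pairOk_sound k22_23_6_6) (by decide) hn t22_23_6_6_12 _ _ (by decide +kernel)

/-- certificates of the pair `(6, 6)`, part 13 -/
def t22_23_6_6_13 : BlkD.Tr :=
  .S 1 8 (.S 1 7 (.S 1 6 (.S 2 3 (.L 6 6 [4, 4, 4, 5, 22, 22, 22] [118, 116, 112, 102, 92, 80] []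
    100000 23186 23186 1413534 8758 29618 50478 64809 19108 4777 6561) (.L 6 6 [4, 4, 4, 5, 22, 22,
    22] [118, 116, 112, 102, 92, 80] [] 100000 15754 15754 1418754 29167 0 64583 58333 25000 6548
    21190)) (.L 6 6 [4, 4, 4, 5, 22, 22, 22] [138, 136, 134, 130, 120, 110] [] 100000 26667 26667
    1350000 25000 0 100000 50000 20000 0 20000)) (.E 0)) (.E 0)

lemma s22_23_6_6_13 {n : ℕ} (hn : 7 ≤ n) : NoNd (d22_23_6_6.R : ℤ) d22_23_6_6.H n d22_23_6_6.a d22_23_6_6.b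
    (BlkD.inB (BlkD.upd (BlkD.upd (BlkD.upd (fun _ => 0) 0 2) 0 3) 1 6)
      (BlkD.upd (BlkD.upd (BlkD.upd (BlkD.upd (BlkD.upd (fun _ => 23) 0 6) 2 6) 0 3) 1 20) 1 10)) :=
  BlkD.tree_sound (BlkD.pairOk_sound k22_23_6_6) (by decide) hn t22_23_6_6_13 _ _ (by decide +kernel)

/-- certificates of the pair `(6, 6)`, part 14 -/
def t22_23_6_6_14 : BlkD.Tr :=
  .E 0

lemma s22_23_6_6_14 {n : ℕ} (hn : 7 ≤ n) : NoNd (d22_23_6_6.R : ℤ) d22_23_6_6.H n d22_23_6_6.a d22_23_6_6.b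
    (BlkD.inB (BlkD.upd (BlkD.upd (BlkD.upd (fun _ => 0) 0 2) 0 3) 1 11)
      (BlkD.upd (BlkD.upd (BlkD.upd (BlkD.upd (fun _ => 23) 0 6) 2 6) 0 3) 1 20)) :=
  BlkD.tree_sound (BlkD.pairOk_sound k22_23_6_6) (by decide) hn t22_23_6_6_14 _ _ (by decide +kernel)

/-- certificates of the pair `(6, 6)`, part 15 -/
def t22_23_6_6_15 : BlkD.Tr :=
  .E 0

lemma s22_23_6_6_15 {n : ℕ} (hn : 7 ≤ n) : NoNd (d22_23_6_6.R : ℤ) d22_23_6_6.H n d22_23_6_6.a d22_23_6_6.b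
    (BlkD.inB (BlkD.upd (BlkD.upd (BlkD.upd (fun _ => 0) 0 2) 0 3) 1 21)
      (BlkD.upd (BlkD.upd (BlkD.upd (fun _ => 23) 0 6) 2 6) 0 3)) :=
  BlkD.tree_sound (BlkD.pairOk_sound k22_23_6_6) (by decide) hn t22_23_6_6_15 _ _ (by decide +kernel)

/-- certificates of the pair `(6, 6)`, part 16 -/
def t22_23_6_6_16 : BlkD.Tr :=
  .S 1 19 (.S 1 9 (.S 1 4 (.S 1 2 (.L 6 6 [4, 4, 4, 5, 22, 22, 22] [] [] 100000 17350 17350 1424535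
    21561 10781 32342 55390 0 11152 36803) (.S 1 3 (.S 2 3 (.L 6 6 [4, 4, 4, 5, 22, 22, 22] [66,
    56, 44, 30, 0, 0] [] 100000 24612 24612 1395938 16860 26744 63372 53488 5233 5233 15698) (.L 6
    6 [4, 4, 4, 5, 22, 22, 22] [66, 56, 44, 30, 0, 0] [] 100000 11372 11372 1462560 27962 3161
    41390 51580 8610 11710 45570)) (.S 2 3 (.L 6 6 [4, 4, 4, 5, 22, 22, 22] [90, 80, 70, 58, 44, 0]
    [] 100000 23191 23191 1416926 11095 27739 56693 61025 14298 4755 11378) (.S 2 5 (.S 2 4 (.S 3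
    11 (.S 3 5 (.S 3 2 (.L 6 6 [4, 4, 4, 5, 22, 22, 22] [90, 80, 70, 58, 44, 0] [] 100000 12501
    12501 1377779 16667 16667 50000 31944 11111 1389 50000) (.S 3 4 (.L 6 6 [4, 4, 4, 5, 22, 22,
    22] [90, 80, 70, 58, 44, 0] [] 100000 12778 12778 1460002 20000 15000 70000 45000 21667 10000
    30000) (.L 6 6 [4, 4, 4, 5, 22, 22, 22] [90, 80, 70, 58, 44, 0] [110, 106, 96, 86, 74, 60]
    100000 44445 11112 1100001 0 0 133333 100000 0 0 0))) (.E 1)) (.E 1)) (.L 6 6 [4, 4, 4, 5, 22,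
    22, 22] [90, 80, 70, 58, 44, 0] [] 100000 0 0 1480000 20000 0 40000 60000 20000 40000 40000))
    (.L 6 6 [4, 4, 4, 5, 22, 22, 22] [90, 80, 70, 58, 44, 0] [] 100000 2 2 1419185 19184 4082 45714
    61633 56327 19184 24490))))) (.L 6 6 [4, 4, 4, 5, 22, 22, 22] [] [] 100000 3508 3508 1479207 0
    6931 66770 52599 66460 866 22153)) (.E 0)) (.E 0)

lemma s22_23_6_6_16 {n : ℕ} (hn : 7 ≤ n) : NoNd (d22_23_6_6.R : ℤ) d22_23_6_6.H n d22_23_6_6.a d22_23_6_6.b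
    (BlkD.inB (BlkD.upd (fun _ => 0) 0 4)
      (BlkD.upd (BlkD.upd (BlkD.upd (BlkD.upd (fun _ => 23) 0 6) 2 6) 0 5) 0 4)) :=
  BlkD.tree_sound (BlkD.pairOk_sound k22_23_6_6) (by decide) hn t22_23_6_6_16 _ _ (by decide +kernel)

/-- certificates of the pair `(6, 6)`, part 17 -/
def t22_23_6_6_17 : BlkD.Tr :=
  .S 1 18 (.S 1 9 (.S 1 4 (.S 1 2 (.L 6 6 [4, 4, 4, 5, 22, 22, 22] [] [] 100000 11683 11683 1449313
    30413 10138 55069 55069 34793 6884 23279) (.L 6 6 [4, 4, 4, 5, 22, 22, 22] [] [] 100000 2784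
    2784 1488851 13953 9302 46036 45349 64535 5603 21512)) (.E 0)) (.E 0)) (.E 0)

lemma s22_23_6_6_17 {n : ℕ} (hn : 7 ≤ n) : NoNd (d22_23_6_6.R : ℤ) d22_23_6_6.H n d22_23_6_6.a d22_23_6_6.b
    (BlkD.inB (BlkD.upd (BlkD.upd (fun _ => 0) 0 4) 0 5)
      (BlkD.upd (BlkD.upd (BlkD.upd (fun _ => 23) 0 6) 2 6) 0 5)) :=
  BlkD.tree_sound (BlkD.pairOk_sound k22_23_6_6) (by decide) hn t22_23_6_6_17 _ _ (by decide +kernel)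

/-- certificates of the pair `(6, 6)`, part 18 -/
def t22_23_6_6_18 : BlkD.Tr :=
  .L 6 6 [4, 4, 4, 5, 22, 22, 22] [] [] 100000 0 0 1463221 0 9195 50000 45402 63218 12069 24713

lemma s22_23_6_6_18 {n : ℕ} (hn : 7 ≤ n) : NoNd (d22_23_6_6.R : ℤ) d22_23_6_6.H n d22_23_6_6.a d22_23_6_6.b
    (BlkD.inB (BlkD.upd (BlkD.upd (fun _ => 0) 0 4) 0 6)
      (BlkD.upd (BlkD.upd (fun _ => 23) 0 6) 2 6)) :=
  BlkD.tree_sound (BlkD.pairOk_sound k22_23_6_6) (by decide) hn t22_23_6_6_18 _ _ (by decide +kernel)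

/-- certificates of the pair `(6, 6)`, part 19 -/
def t22_23_6_6_19 : BlkD.Tr :=
  .E 1

lemma s22_23_6_6_19 {n : ℕ} (hn : 7 ≤ n) : NoNd (d22_23_6_6.R : ℤ) d22_23_6_6.H n d22_23_6_6.a d22_23_6_6.b
    (BlkD.inB (BlkD.upd (fun _ => 0) 2 7)
      (BlkD.upd (fun _ => 23) 0 6)) :=
  BlkD.tree_sound (BlkD.pairOk_sound k22_23_6_6) (by decide) hn t22_23_6_6_19 _ _ (by decide +kernel)

/-- certificates of the pair `(6, 6)`, part 20 -/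
def t22_23_6_6_20 : BlkD.Tr :=
  .E 0

lemma s22_23_6_6_20 {n : ℕ} (hn : 7 ≤ n) : NoNd (d22_23_6_6.R : ℤ) d22_23_6_6.H n d22_23_6_6.a d22_23_6_6.b
    (BlkD.inB (BlkD.upd (fun _ => 0) 0 7)
      (fun _ => 23)) :=
  BlkD.tree_sound (BlkD.pairOk_sound k22_23_6_6) (by decide) hn t22_23_6_6_20 _ _ (by decide +kernel)

lemma pr22_23_6_6 {n : ℕ} (hn : 7 ≤ n) : NoPr ((22 : ℕ) : ℤ) ((23 : ℕ) : ℤ) n 6 6 :=
  BlkD.of_root (R := d22_23_6_6.R) (H := d22_23_6_6.H) (a := d22_23_6_6.a) (b := d22_23_6_6.b) (q := 5) (by decide) hn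
    (BlkD.sp 0 6 (BlkD.sp 2 6 (BlkD.sp 0 3 (BlkD.sp 0 1 (BlkD.sp 0 0 (s22_23_6_6_1 hn) (BlkD.sp 1
      11 (BlkD.sp 1 5 (BlkD.sp 1 2 (s22_23_6_6_2 hn) (s22_23_6_6_3 hn)) (s22_23_6_6_4 hn))
      (s22_23_6_6_5 hn))) (BlkD.sp 0 2 (BlkD.sp 1 21 (BlkD.sp 1 10 (BlkD.sp 1 5 (BlkD.sp 1 2
      (s22_23_6_6_6 hn) (s22_23_6_6_7 hn)) (s22_23_6_6_8 hn)) (s22_23_6_6_9 hn)) (s22_23_6_6_10
      hn)) (BlkD.sp 1 20 (BlkD.sp 1 10 (BlkD.sp 1 5 (BlkD.sp 1 2 (s22_23_6_6_11 hn) (s22_23_6_6_12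
      hn)) (s22_23_6_6_13 hn)) (s22_23_6_6_14 hn)) (s22_23_6_6_15 hn)))) (BlkD.sp 0 5 (BlkD.sp 0 4
      (s22_23_6_6_16 hn) (s22_23_6_6_17 hn)) (s22_23_6_6_18 hn))) (s22_23_6_6_19 hn))
      (s22_23_6_6_20 hn))

/-- the numbers of the pair `(7, 0)`, `R = 22`, `H = 23` -/
def d22_23_7_0 : BlkD.Pd :=
  ⟨22, 23, 5, 7, 0, 13, 0, 1, 0, 4, 4, 0, 0, 4, 4, 0, [0, 4, 8, 12, 16, 20, 24, 28, 32, 36, 40, 44,
    48, 52], [0, 4, 8, 12, 16, 20, 24, 28, 32, 36, 40, 44, 48, 52], [⟨1, 1, 1, 4, 8, [0, 4], [0,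
    4]⟩]⟩

/-- the certificates of the pair `(7, 0)` -/
def t22_23_7_0 : BlkD.Tr :=
  .S 0 7 (.S 2 0 (.L 4 4 [4] [] [] 100000 0 0 800000 50000 0 50000 50000 0 0 0) (.E 1)) (.E 0)

lemma pr22_23_7_0 {n : ℕ} (hn : 7 ≤ n) : NoPr ((22 : ℕ) : ℤ) ((23 : ℕ) : ℤ) n 7 0 :=
  BlkD.pair_sound (d := d22_23_7_0) (by decide +kernel) hn (by decide) (tr := t22_23_7_0)
    (by decide +kernel) rfl rfl rfl rfl

/-- the numbers of the pair `(7, 1)`, `R = 22`, `H = 23` -/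
def d22_23_7_1 : BlkD.Pd :=
  ⟨22, 23, 5, 7, 1, 12, 1, 1, 2, 2, 6, 0, 0, 4, 4, 0, [0, 6, 12, 18, 24, 30, 36, 38, 40, 42, 44,
    46, 48], [0, 4, 8, 12, 16, 20, 24, 28, 32, 36, 40, 44, 48], [⟨1, 1, 1, 4, 8, [0, 4], [0, 4]⟩,
    ⟨1, 1, 1, 4, 10, [0, 6], [0, 4]⟩]⟩

lemma k22_23_7_1 : BlkD.pairOk d22_23_7_1 = true := by decide +kernel

/-- certificates of the pair `(7, 1)`, part 1 -/
def t22_23_7_1_1 : BlkD.Tr :=
  .L 4 5 [4, 4] [] [] 100000 0 0 950000 50000 0 50000 0 0 0 0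

lemma s22_23_7_1_1 {n : ℕ} (hn : 7 ≤ n) : NoNd (d22_23_7_1.R : ℤ) d22_23_7_1.H n d22_23_7_1.a d22_23_7_1.b
    (BlkD.inB (fun _ => 0)
      (BlkD.upd (BlkD.upd (BlkD.upd (BlkD.upd (fun _ => 23) 0 7) 2 1) 0 3) 0 1)) :=
  BlkD.tree_sound (BlkD.pairOk_sound k22_23_7_1) (by decide) hn t22_23_7_1_1 _ _ (by decide +kernel)

/-- certificates of the pair `(7, 1)`, part 2 -/
def t22_23_7_1_2 : BlkD.Tr :=
  .L 4 5 [4, 4] [] [] 100000 0 0 950000 50000 0 50000 0 0 0 0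

lemma s22_23_7_1_2 {n : ℕ} (hn : 7 ≤ n) : NoNd (d22_23_7_1.R : ℤ) d22_23_7_1.H n d22_23_7_1.a d22_23_7_1.b
    (BlkD.inB (BlkD.upd (fun _ => 0) 0 2)
      (BlkD.upd (BlkD.upd (BlkD.upd (fun _ => 23) 0 7) 2 1) 0 3)) :=
  BlkD.tree_sound (BlkD.pairOk_sound k22_23_7_1) (by decide) hn t22_23_7_1_2 _ _ (by decide +kernel)

/-- certificates of the pair `(7, 1)`, part 3 -/
def t22_23_7_1_3 : BlkD.Tr :=
  .L 4 5 [4, 4] [] [] 100000 0 0 950000 50000 0 50000 0 0 0 0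

lemma s22_23_7_1_3 {n : ℕ} (hn : 7 ≤ n) : NoNd (d22_23_7_1.R : ℤ) d22_23_7_1.H n d22_23_7_1.a d22_23_7_1.b
    (BlkD.inB (BlkD.upd (fun _ => 0) 0 4)
      (BlkD.upd (BlkD.upd (fun _ => 23) 0 7) 2 1)) :=
  BlkD.tree_sound (BlkD.pairOk_sound k22_23_7_1) (by decide) hn t22_23_7_1_3 _ _ (by decide +kernel)

/-- certificates of the pair `(7, 1)`, part 4 -/
def t22_23_7_1_4 : BlkD.Tr :=
  .E 1

lemma s22_23_7_1_4 {n : ℕ} (hn : 7 ≤ n) : NoNd (d22_23_7_1.R : ℤ) d22_23_7_1.H n d22_23_7_1.a d22_23_7_1.b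
    (BlkD.inB (BlkD.upd (fun _ => 0) 2 2)
      (BlkD.upd (fun _ => 23) 0 7)) :=
  BlkD.tree_sound (BlkD.pairOk_sound k22_23_7_1) (by decide) hn t22_23_7_1_4 _ _ (by decide +kernel)

/-- certificates of the pair `(7, 1)`, part 5 -/
def t22_23_7_1_5 : BlkD.Tr :=
  .E 0

lemma s22_23_7_1_5 {n : ℕ} (hn : 7 ≤ n) : NoNd (d22_23_7_1.R : ℤ) d22_23_7_1.H n d22_23_7_1.a d22_23_7_1.b
    (BlkD.inB (BlkD.upd (fun _ => 0) 0 8)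
      (fun _ => 23)) :=
  BlkD.tree_sound (BlkD.pairOk_sound k22_23_7_1) (by decide) hn t22_23_7_1_5 _ _ (by decide +kernel)

lemma pr22_23_7_1 {n : ℕ} (hn : 7 ≤ n) : NoPr ((22 : ℕ) : ℤ) ((23 : ℕ) : ℤ) n 7 1 :=
  BlkD.of_root (R := d22_23_7_1.R) (H := d22_23_7_1.H) (a := d22_23_7_1.a) (b := d22_23_7_1.b) (q := 5) (by decide) hn
    (BlkD.sp 0 7 (BlkD.sp 2 1 (BlkD.sp 0 3 (BlkD.sp 0 1 (s22_23_7_1_1 hn) (s22_23_7_1_2 hn))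
      (s22_23_7_1_3 hn)) (s22_23_7_1_4 hn)) (s22_23_7_1_5 hn))

/-- the numbers of the pair `(7, 2)`, `R = 22`, `H = 23` -/
def d22_23_7_2 : BlkD.Pd :=
  ⟨22, 23, 5, 7, 2, 11, 2, 1, 2, 2, 8, 0, 0, 4, 6, 0, [0, 8, 16, 24, 30, 32, 34, 36, 38, 40, 42,
    44], [0, 6, 12, 18, 24, 30, 36, 42, 44, 44, 44, 44], [⟨1, 1, 1, 4, 8, [0, 4], [0, 4]⟩, ⟨1, 1,
    1, 4, 10, [0, 6], [0, 4]⟩, ⟨1, 1, 1, 6, 14, [0, 8], [0, 6]⟩]⟩

lemma k22_23_7_2 : BlkD.pairOk d22_23_7_2 = true := by decide +kernel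

/-- certificates of the pair `(7, 2)`, part 1 -/
def t22_23_7_2_1 : BlkD.Tr :=
  .S 0 0 (.L 4 6 [4, 4, 5] [] [] 100000 0 0 1100000 25000 0 50000 0 0 25000 25000) (.S 1 11 (.S 1 5
    (.L 4 6 [4, 4, 5] [] [] 100000 0 0 1100000 25000 0 50000 0 0 25000 25000) (.L 4 6 [4, 4, 5] []
    [] 100000 0 0 1100000 25000 0 50000 0 0 25000 25000)) (.L 4 6 [4, 4, 5] [] [] 100000 0 0
    1100000 25000 0 50000 0 0 25000 25000))

lemma s22_23_7_2_1 {n : ℕ} (hn : 7 ≤ n) : NoNd (d22_23_7_2.R : ℤ) d22_23_7_2.H n d22_23_7_2.a d22_23_7_2.b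
    (BlkD.inB (fun _ => 0)
      (BlkD.upd (BlkD.upd (BlkD.upd (BlkD.upd (fun _ => 23) 0 7) 2 2) 0 3) 0 1)) :=
  BlkD.tree_sound (BlkD.pairOk_sound k22_23_7_2) (by decide) hn t22_23_7_2_1 _ _ (by decide +kernel)

/-- certificates of the pair `(7, 2)`, part 2 -/
def t22_23_7_2_2 : BlkD.Tr :=
  .S 0 2 (.L 4 6 [4, 4, 5] [] [] 100000 0 0 1100000 25000 0 50000 0 0 25000 25000) (.L 4 6 [4, 4,
    5] [] [] 100000 0 0 1100000 25000 0 50000 0 0 25000 25000)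

lemma s22_23_7_2_2 {n : ℕ} (hn : 7 ≤ n) : NoNd (d22_23_7_2.R : ℤ) d22_23_7_2.H n d22_23_7_2.a d22_23_7_2.b
    (BlkD.inB (BlkD.upd (fun _ => 0) 0 2)
      (BlkD.upd (BlkD.upd (BlkD.upd (fun _ => 23) 0 7) 2 2) 0 3)) :=
  BlkD.tree_sound (BlkD.pairOk_sound k22_23_7_2) (by decide) hn t22_23_7_2_2 _ _ (by decide +kernel)

/-- certificates of the pair `(7, 2)`, part 3 -/
def t22_23_7_2_3 : BlkD.Tr :=
  .L 4 6 [4, 4, 5] [] [] 100000 0 0 1100000 25000 0 50000 0 0 25000 25000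

lemma s22_23_7_2_3 {n : ℕ} (hn : 7 ≤ n) : NoNd (d22_23_7_2.R : ℤ) d22_23_7_2.H n d22_23_7_2.a d22_23_7_2.b
    (BlkD.inB (BlkD.upd (fun _ => 0) 0 4)
      (BlkD.upd (BlkD.upd (fun _ => 23) 0 7) 2 2)) :=
  BlkD.tree_sound (BlkD.pairOk_sound k22_23_7_2) (by decide) hn t22_23_7_2_3 _ _ (by decide +kernel)

/-- certificates of the pair `(7, 2)`, part 4 -/
def t22_23_7_2_4 : BlkD.Tr :=
  .E 1

lemma s22_23_7_2_4 {n : ℕ} (hn : 7 ≤ n) : NoNd (d22_23_7_2.R : ℤ) d22_23_7_2.H n d22_23_7_2.a d22_23_7_2.b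
    (BlkD.inB (BlkD.upd (fun _ => 0) 2 3)
      (BlkD.upd (fun _ => 23) 0 7)) :=
  BlkD.tree_sound (BlkD.pairOk_sound k22_23_7_2) (by decide) hn t22_23_7_2_4 _ _ (by decide +kernel)

/-- certificates of the pair `(7, 2)`, part 5 -/
def t22_23_7_2_5 : BlkD.Tr :=
  .E 0

lemma s22_23_7_2_5 {n : ℕ} (hn : 7 ≤ n) : NoNd (d22_23_7_2.R : ℤ) d22_23_7_2.H n d22_23_7_2.a d22_23_7_2.b
    (BlkD.inB (BlkD.upd (fun _ => 0) 0 8)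
      (fun _ => 23)) :=
  BlkD.tree_sound (BlkD.pairOk_sound k22_23_7_2) (by decide) hn t22_23_7_2_5 _ _ (by decide +kernel)

lemma pr22_23_7_2 {n : ℕ} (hn : 7 ≤ n) : NoPr ((22 : ℕ) : ℤ) ((23 : ℕ) : ℤ) n 7 2 :=
  BlkD.of_root (R := d22_23_7_2.R) (H := d22_23_7_2.H) (a := d22_23_7_2.a) (b := d22_23_7_2.b) (q := 5) (by decide) hn
    (BlkD.sp 0 7 (BlkD.sp 2 2 (BlkD.sp 0 3 (BlkD.sp 0 1 (s22_23_7_2_1 hn) (s22_23_7_2_2 hn))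
      (s22_23_7_2_3 hn)) (s22_23_7_2_4 hn)) (s22_23_7_2_5 hn))

end BlkC

end Pool.Agent.Lib.MP_f04ccf_co
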