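import Pool.Agent.Lib.MP_f04ccf_co.M.BlkT

/-!
MP_f04ccf_co, block certificate, data `R = 22`, `H = 23`, part 6 (generated, helper99:
bd10.cpp, gen2.py).
-/

set_option autoImplicit false
set_option maxRecDepth 100000

namespace Pool.Agent.Lib.MP_f04ccf_co

namespace BlkC

/-- the numbers of the pair `(7, 3)`, `R = 22`, `H = 23` -/
def d22_23_7_3 : BlkD.Pd :=
  ⟨22, 23, 5, 7, 3, 10, 3, 2, 1, 3, 10, 0, 4, 1, 8, 0, [0, 10, 20, 30, 34, 35, 36, 37, 38, 39, 40],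
    [0, 8, 16, 22, 26, 30, 34, 38, 42, 46, 50], [⟨1, 1, 1, 4, 8, [0, 4], [0, 4]⟩, ⟨1, 1, 1, 6, 12,
    [0, 6], [0, 6]⟩, ⟨1, 1, 1, 6, 14, [0, 8], [0, 6]⟩, ⟨2, 1, 1, 6, 22, [0, 10, 14], [0, 8]⟩]⟩

lemma k22_23_7_3 : BlkD.pairOk d22_23_7_3 = true := by decide +kernel

/-- certificates of the pair `(7, 3)`, part 1 -/
def t22_23_7_3_1 : BlkD.Tr :=
  .L 5 7 [4, 4, 5, 5] [] [] 100000 15970 15970 1198048 25244 0 58578 29289 4762 22329 25000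

lemma s22_23_7_3_1 {n : ℕ} (hn : 7 ≤ n) : NoNd (d22_23_7_3.R : ℤ) d22_23_7_3.H n d22_23_7_3.a d22_23_7_3.b
    (BlkD.inB (fun _ => 0)
      (BlkD.upd (BlkD.upd (BlkD.upd (BlkD.upd (BlkD.upd (fun _ => 23) 0 7) 2 3) 0 3) 0 1) 0 0)) :=
  BlkD.tree_sound (BlkD.pairOk_sound k22_23_7_3) (by decide) hn t22_23_7_3_1 _ _ (by decide +kernel)

/-- certificates of the pair `(7, 3)`, part 2 -/
def t22_23_7_3_2 : BlkD.Tr :=
  .L 5 7 [4, 4, 5, 5] [] [] 100000 15970 15970 1198048 25244 0 58578 29289 4762 22329 25000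

lemma s22_23_7_3_2 {n : ℕ} (hn : 7 ≤ n) : NoNd (d22_23_7_3.R : ℤ) d22_23_7_3.H n d22_23_7_3.a d22_23_7_3.b
    (BlkD.inB (BlkD.upd (fun _ => 0) 0 1)
      (BlkD.upd (BlkD.upd (BlkD.upd (BlkD.upd (BlkD.upd (BlkD.upd (fun _ => 23) 0 7) 2 3) 0 3) 0 1) 1 11) 1 5)) :=
  BlkD.tree_sound (BlkD.pairOk_sound k22_23_7_3) (by decide) hn t22_23_7_3_2 _ _ (by decide +kernel)

/-- certificates of the pair `(7, 3)`, part 3 -/
def t22_23_7_3_3 : BlkD.Tr :=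
  .S 1 8 (.L 5 7 [4, 4, 5, 5] [] [] 100000 15970 15970 1198048 25244 0 58578 29289 4762 22329
    25000) (.L 5 7 [4, 4, 5, 5] [] [] 100000 15970 15970 1198048 25244 0 58578 29289 4762 22329
    25000)

lemma s22_23_7_3_3 {n : ℕ} (hn : 7 ≤ n) : NoNd (d22_23_7_3.R : ℤ) d22_23_7_3.H n d22_23_7_3.a d22_23_7_3.b
    (BlkD.inB (BlkD.upd (BlkD.upd (fun _ => 0) 0 1) 1 6)
      (BlkD.upd (BlkD.upd (BlkD.upd (BlkD.upd (BlkD.upd (fun _ => 23) 0 7) 2 3) 0 3) 0 1) 1 11)) :=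
  BlkD.tree_sound (BlkD.pairOk_sound k22_23_7_3) (by decide) hn t22_23_7_3_3 _ _ (by decide +kernel)

/-- certificates of the pair `(7, 3)`, part 4 -/
def t22_23_7_3_4 : BlkD.Tr :=
  .L 5 7 [4, 4, 5, 5] [] [] 100000 15970 15970 1198048 25244 0 58578 29289 4762 22329 25000

lemma s22_23_7_3_4 {n : ℕ} (hn : 7 ≤ n) : NoNd (d22_23_7_3.R : ℤ) d22_23_7_3.H n d22_23_7_3.a d22_23_7_3.b
    (BlkD.inB (BlkD.upd (BlkD.upd (fun _ => 0) 0 1) 1 12)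
      (BlkD.upd (BlkD.upd (BlkD.upd (BlkD.upd (fun _ => 23) 0 7) 2 3) 0 3) 0 1)) :=
  BlkD.tree_sound (BlkD.pairOk_sound k22_23_7_3) (by decide) hn t22_23_7_3_4 _ _ (by decide +kernel)

/-- certificates of the pair `(7, 3)`, part 5 -/
def t22_23_7_3_5 : BlkD.Tr :=
  .L 5 7 [4, 4, 5, 5] [] [] 100000 15970 15970 1198048 25244 0 58578 29289 4762 22329 25000

lemma s22_23_7_3_5 {n : ℕ} (hn : 7 ≤ n) : NoNd (d22_23_7_3.R : ℤ) d22_23_7_3.H n d22_23_7_3.a d22_23_7_3.b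
    (BlkD.inB (BlkD.upd (fun _ => 0) 0 2)
      (BlkD.upd (BlkD.upd (BlkD.upd (BlkD.upd (BlkD.upd (BlkD.upd (fun _ => 23) 0 7) 2 3) 0 3) 0 2) 1 11) 1 5)) :=
  BlkD.tree_sound (BlkD.pairOk_sound k22_23_7_3) (by decide) hn t22_23_7_3_5 _ _ (by decide +kernel)

/-- certificates of the pair `(7, 3)`, part 6 -/
def t22_23_7_3_6 : BlkD.Tr :=
  .L 5 7 [4, 4, 5, 5] [] [] 100000 15970 15970 1198048 25244 0 58578 29289 4762 22329 25000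

lemma s22_23_7_3_6 {n : ℕ} (hn : 7 ≤ n) : NoNd (d22_23_7_3.R : ℤ) d22_23_7_3.H n d22_23_7_3.a d22_23_7_3.b
    (BlkD.inB (BlkD.upd (BlkD.upd (fun _ => 0) 0 2) 1 6)
      (BlkD.upd (BlkD.upd (BlkD.upd (BlkD.upd (BlkD.upd (fun _ => 23) 0 7) 2 3) 0 3) 0 2) 1 11)) :=
  BlkD.tree_sound (BlkD.pairOk_sound k22_23_7_3) (by decide) hn t22_23_7_3_6 _ _ (by decide +kernel)

/-- certificates of the pair `(7, 3)`, part 7 -/
def t22_23_7_3_7 : BlkD.Tr :=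
  .L 5 7 [4, 4, 5, 5] [] [] 100000 15970 15970 1198048 25244 0 58578 29289 4762 22329 25000

lemma s22_23_7_3_7 {n : ℕ} (hn : 7 ≤ n) : NoNd (d22_23_7_3.R : ℤ) d22_23_7_3.H n d22_23_7_3.a d22_23_7_3.b
    (BlkD.inB (BlkD.upd (BlkD.upd (fun _ => 0) 0 2) 1 12)
      (BlkD.upd (BlkD.upd (BlkD.upd (BlkD.upd (fun _ => 23) 0 7) 2 3) 0 3) 0 2)) :=
  BlkD.tree_sound (BlkD.pairOk_sound k22_23_7_3) (by decide) hn t22_23_7_3_7 _ _ (by decide +kernel)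

/-- certificates of the pair `(7, 3)`, part 8 -/
def t22_23_7_3_8 : BlkD.Tr :=
  .S 1 11 (.S 1 5 (.L 5 7 [4, 4, 5, 5] [] [] 100000 15970 15970 1198048 25244 0 58578 29289 4762
    22329 25000) (.L 5 7 [4, 4, 5, 5] [] [] 100000 15970 15970 1198048 25244 0 58578 29289 4762
    22329 25000)) (.L 5 7 [4, 4, 5, 5] [] [] 100000 15970 15970 1198048 25244 0 58578 29289 4762
    22329 25000)

lemma s22_23_7_3_8 {n : ℕ} (hn : 7 ≤ n) : NoNd (d22_23_7_3.R : ℤ) d22_23_7_3.H n d22_23_7_3.a d22_23_7_3.b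
    (BlkD.inB (BlkD.upd (BlkD.upd (fun _ => 0) 0 2) 0 3)
      (BlkD.upd (BlkD.upd (BlkD.upd (fun _ => 23) 0 7) 2 3) 0 3)) :=
  BlkD.tree_sound (BlkD.pairOk_sound k22_23_7_3) (by decide) hn t22_23_7_3_8 _ _ (by decide +kernel)

/-- certificates of the pair `(7, 3)`, part 9 -/
def t22_23_7_3_9 : BlkD.Tr :=
  .S 0 4 (.S 1 19 (.S 1 9 (.S 1 4 (.L 5 7 [4, 4, 5, 5] [] [] 100000 13333 13332 1100002 33333 0
    33333 33333 0 26667 33333) (.S 1 7 (.L 5 7 [4, 4, 5, 5] [] [] 100000 15200 15200 1201324 26324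
    0 67056 29868 9268 20132 25000) (.E 0))) (.E 0)) (.E 0)) (.L 5 7 [4, 4, 5, 5] [] [] 100000
    10093 10092 1247204 13199 0 56600 35089 14340 30380 25000)

lemma s22_23_7_3_9 {n : ℕ} (hn : 7 ≤ n) : NoNd (d22_23_7_3.R : ℤ) d22_23_7_3.H n d22_23_7_3.a d22_23_7_3.b
    (BlkD.inB (BlkD.upd (fun _ => 0) 0 4)
      (BlkD.upd (BlkD.upd (BlkD.upd (fun _ => 23) 0 7) 2 3) 0 5)) :=
  BlkD.tree_sound (BlkD.pairOk_sound k22_23_7_3) (by decide) hn t22_23_7_3_9 _ _ (by decide +kernel)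

/-- certificates of the pair `(7, 3)`, part 10 -/
def t22_23_7_3_10 : BlkD.Tr :=
  .L 5 7 [4, 4, 5, 5] [] [] 100000 4191 4190 1220000 0 0 80000 40000 20000 32000 35429

lemma s22_23_7_3_10 {n : ℕ} (hn : 7 ≤ n) : NoNd (d22_23_7_3.R : ℤ) d22_23_7_3.H n d22_23_7_3.a d22_23_7_3.b
    (BlkD.inB (BlkD.upd (BlkD.upd (fun _ => 0) 0 4) 0 6)
      (BlkD.upd (BlkD.upd (fun _ => 23) 0 7) 2 3)) :=
  BlkD.tree_sound (BlkD.pairOk_sound k22_23_7_3) (by decide) hn t22_23_7_3_10 _ _ (by decide +kernel)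

/-- certificates of the pair `(7, 3)`, part 11 -/
def t22_23_7_3_11 : BlkD.Tr :=
  .E 1

lemma s22_23_7_3_11 {n : ℕ} (hn : 7 ≤ n) : NoNd (d22_23_7_3.R : ℤ) d22_23_7_3.H n d22_23_7_3.a d22_23_7_3.b
    (BlkD.inB (BlkD.upd (fun _ => 0) 2 4)
      (BlkD.upd (fun _ => 23) 0 7)) :=
  BlkD.tree_sound (BlkD.pairOk_sound k22_23_7_3) (by decide) hn t22_23_7_3_11 _ _ (by decide +kernel)

/-- certificates of the pair `(7, 3)`, part 12 -/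
def t22_23_7_3_12 : BlkD.Tr :=
  .E 0

lemma s22_23_7_3_12 {n : ℕ} (hn : 7 ≤ n) : NoNd (d22_23_7_3.R : ℤ) d22_23_7_3.H n d22_23_7_3.a d22_23_7_3.b
    (BlkD.inB (BlkD.upd (fun _ => 0) 0 8)
      (fun _ => 23)) :=
  BlkD.tree_sound (BlkD.pairOk_sound k22_23_7_3) (by decide) hn t22_23_7_3_12 _ _ (by decide +kernel)

lemma pr22_23_7_3 {n : ℕ} (hn : 7 ≤ n) : NoPr ((22 : ℕ) : ℤ) ((23 : ℕ) : ℤ) n 7 3 :=
  BlkD.of_root (R := d22_23_7_3.R) (H := d22_23_7_3.H) (a := d22_23_7_3.a) (b := d22_23_7_3.b) (q := 5) (by decide) hn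
    (BlkD.sp 0 7 (BlkD.sp 2 3 (BlkD.sp 0 3 (BlkD.sp 0 1 (BlkD.sp 0 0 (s22_23_7_3_1 hn) (BlkD.sp 1
      11 (BlkD.sp 1 5 (s22_23_7_3_2 hn) (s22_23_7_3_3 hn)) (s22_23_7_3_4 hn))) (BlkD.sp 0 2
      (BlkD.sp 1 11 (BlkD.sp 1 5 (s22_23_7_3_5 hn) (s22_23_7_3_6 hn)) (s22_23_7_3_7 hn))
      (s22_23_7_3_8 hn))) (BlkD.sp 0 5 (s22_23_7_3_9 hn) (s22_23_7_3_10 hn))) (s22_23_7_3_11 hn))
      (s22_23_7_3_12 hn))

end BlkC

end Pool.Agent.Lib.MP_f04ccf_co
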