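import Pool.Agent.Lib.MP_f04ccf_co.M.BlkT

/-!
MP_f04ccf_co, block certificate, data `R = 22`, `H = 23`, part 7 (generated, helper99:
bd10.cpp, gen2.py).
-/

set_option autoImplicit false
set_option maxRecDepth 100000

namespace Pool.Agent.Lib.MP_f04ccf_co

namespace BlkC

/-- the numbers of the pair `(7, 4)`, `R = 22`, `H = 23` -/
def d22_23_7_4 : BlkD.Pd :=
  ⟨22, 23, 5, 7, 4, 9, 4, 2, 1, 4, 12, 0, 2, 2, 10, 0, [0, 12, 24, 36, 40, 41, 42, 43, 44, 45], [0,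
    10, 20, 24, 26, 28, 30, 32, 34, 36], [⟨1, 1, 1, 4, 8, [0, 4], [0, 4]⟩, ⟨1, 1, 1, 6, 12, [0, 6],
    [0, 6]⟩, ⟨1, 1, 1, 6, 16, [0, 8], [0, 8]⟩, ⟨2, 1, 1, 6, 22, [0, 10, 14], [0, 8]⟩, ⟨2, 1, 1, 4,
    32, [0, 12, 22], [0, 10]⟩]⟩

lemma k22_23_7_4 : BlkD.pairOk d22_23_7_4 = true := by decide +kernel

/-- certificates of the pair `(7, 4)`, part 1 -/
def t22_23_7_4_1 : BlkD.Tr :=
  .L 5 7 [4, 4, 5, 5, 6] [] [] 100000 80000 80000 760000 100000 0 100000 40000 0 0 0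

lemma s22_23_7_4_1 {n : ℕ} (hn : 7 ≤ n) : NoNd (d22_23_7_4.R : ℤ) d22_23_7_4.H n d22_23_7_4.a d22_23_7_4.b
    (BlkD.inB (fun _ => 0)
      (BlkD.upd (BlkD.upd (BlkD.upd (BlkD.upd (BlkD.upd (fun _ => 23) 0 7) 2 4) 0 3) 0 1) 0 0)) :=
  BlkD.tree_sound (BlkD.pairOk_sound k22_23_7_4) (by decide) hn t22_23_7_4_1 _ _ (by decide +kernel)

/-- certificates of the pair `(7, 4)`, part 2 -/
def t22_23_7_4_2 : BlkD.Tr :=
  .S 1 2 (.L 5 7 [4, 4, 5, 5, 6] [] [] 100000 80000 80000 760000 100000 0 100000 40000 0 0 0) (.L 5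
    7 [4, 4, 5, 5, 6] [] [] 100000 80000 80000 760000 100000 0 100000 40000 0 0 0)

lemma s22_23_7_4_2 {n : ℕ} (hn : 7 ≤ n) : NoNd (d22_23_7_4.R : ℤ) d22_23_7_4.H n d22_23_7_4.a d22_23_7_4.b
    (BlkD.inB (BlkD.upd (fun _ => 0) 0 1)
      (BlkD.upd (BlkD.upd (BlkD.upd (BlkD.upd (BlkD.upd (BlkD.upd (fun _ => 23) 0 7) 2 4) 0 3) 0 1) 1 11) 1 5)) :=
  BlkD.tree_sound (BlkD.pairOk_sound k22_23_7_4) (by decide) hn t22_23_7_4_2 _ _ (by decide +kernel)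

/-- certificates of the pair `(7, 4)`, part 3 -/
def t22_23_7_4_3 : BlkD.Tr :=
  .S 1 7 (.L 5 7 [4, 4, 5, 5, 6] [] [] 100000 80000 80000 760000 100000 0 100000 40000 0 0 0) (.L 5
    7 [4, 4, 5, 5, 6] [136, 135, 134, 130, 120, 108] [] 100000 80000 80000 760000 100000 0 100000
    40000 0 0 0)

lemma s22_23_7_4_3 {n : ℕ} (hn : 7 ≤ n) : NoNd (d22_23_7_4.R : ℤ) d22_23_7_4.H n d22_23_7_4.a d22_23_7_4.b
    (BlkD.inB (BlkD.upd (BlkD.upd (fun _ => 0) 0 1) 1 6)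
      (BlkD.upd (BlkD.upd (BlkD.upd (BlkD.upd (BlkD.upd (BlkD.upd (fun _ => 23) 0 7) 2 4) 0 3) 0 1) 1 11) 1 8)) :=
  BlkD.tree_sound (BlkD.pairOk_sound k22_23_7_4) (by decide) hn t22_23_7_4_3 _ _ (by decide +kernel)

/-- certificates of the pair `(7, 4)`, part 4 -/
def t22_23_7_4_4 : BlkD.Tr :=
  .L 5 7 [4, 4, 5, 5, 6] [] [] 100000 80000 80000 760000 100000 0 100000 40000 0 0 0

lemma s22_23_7_4_4 {n : ℕ} (hn : 7 ≤ n) : NoNd (d22_23_7_4.R : ℤ) d22_23_7_4.H n d22_23_7_4.a d22_23_7_4.b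
    (BlkD.inB (BlkD.upd (BlkD.upd (BlkD.upd (fun _ => 0) 0 1) 1 6) 1 9)
      (BlkD.upd (BlkD.upd (BlkD.upd (BlkD.upd (BlkD.upd (fun _ => 23) 0 7) 2 4) 0 3) 0 1) 1 11)) :=
  BlkD.tree_sound (BlkD.pairOk_sound k22_23_7_4) (by decide) hn t22_23_7_4_4 _ _ (by decide +kernel)

/-- certificates of the pair `(7, 4)`, part 5 -/
def t22_23_7_4_5 : BlkD.Tr :=
  .L 5 7 [4, 4, 5, 5, 6] [] [] 100000 80000 80000 760000 100000 0 100000 40000 0 0 0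

lemma s22_23_7_4_5 {n : ℕ} (hn : 7 ≤ n) : NoNd (d22_23_7_4.R : ℤ) d22_23_7_4.H n d22_23_7_4.a d22_23_7_4.b
    (BlkD.inB (BlkD.upd (BlkD.upd (fun _ => 0) 0 1) 1 12)
      (BlkD.upd (BlkD.upd (BlkD.upd (BlkD.upd (fun _ => 23) 0 7) 2 4) 0 3) 0 1)) :=
  BlkD.tree_sound (BlkD.pairOk_sound k22_23_7_4) (by decide) hn t22_23_7_4_5 _ _ (by decide +kernel)

/-- certificates of the pair `(7, 4)`, part 6 -/
def t22_23_7_4_6 : BlkD.Tr :=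
  .L 6 8 [4, 4, 5, 5, 5] [] [] 100000 66667 66667 1132224 57778 0 78889 33333 617 9383 33333

lemma s22_23_7_4_6 {n : ℕ} (hn : 7 ≤ n) : NoNd (d22_23_7_4.R : ℤ) d22_23_7_4.H n d22_23_7_4.a d22_23_7_4.b
    (BlkD.inB (BlkD.upd (fun _ => 0) 0 2)
      (BlkD.upd (BlkD.upd (BlkD.upd (BlkD.upd (BlkD.upd (BlkD.upd (fun _ => 23) 0 7) 2 4) 0 3) 0 2) 1 11) 1 5)) :=
  BlkD.tree_sound (BlkD.pairOk_sound k22_23_7_4) (by decide) hn t22_23_7_4_6 _ _ (by decide +kernel)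

/-- certificates of the pair `(7, 4)`, part 7 -/
def t22_23_7_4_7 : BlkD.Tr :=
  .S 1 8 (.S 1 7 (.L 6 8 [4, 4, 5, 5, 5] [] [] 100000 66667 66667 1132224 57778 0 78889 33333 617
    9383 33333) (.L 6 8 [4, 4, 5, 5, 5] [152, 151, 150, 146, 136, 124] [] 100000 66667 66667
    1132224 57778 0 78889 33333 617 9383 33333)) (.L 6 8 [4, 4, 5, 5, 5] [] [] 100000 66667 66667
    1132224 57778 0 78889 33333 617 9383 33333)

lemma s22_23_7_4_7 {n : ℕ} (hn : 7 ≤ n) : NoNd (d22_23_7_4.R : ℤ) d22_23_7_4.H n d22_23_7_4.a d22_23_7_4.b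
    (BlkD.inB (BlkD.upd (BlkD.upd (fun _ => 0) 0 2) 1 6)
      (BlkD.upd (BlkD.upd (BlkD.upd (BlkD.upd (BlkD.upd (fun _ => 23) 0 7) 2 4) 0 3) 0 2) 1 11)) :=
  BlkD.tree_sound (BlkD.pairOk_sound k22_23_7_4) (by decide) hn t22_23_7_4_7 _ _ (by decide +kernel)

/-- certificates of the pair `(7, 4)`, part 8 -/
def t22_23_7_4_8 : BlkD.Tr :=
  .L 6 8 [4, 4, 5, 5, 5] [] [] 100000 66667 66667 1132224 57778 0 78889 33333 617 9383 33333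

lemma s22_23_7_4_8 {n : ℕ} (hn : 7 ≤ n) : NoNd (d22_23_7_4.R : ℤ) d22_23_7_4.H n d22_23_7_4.a d22_23_7_4.b
    (BlkD.inB (BlkD.upd (BlkD.upd (fun _ => 0) 0 2) 1 12)
      (BlkD.upd (BlkD.upd (BlkD.upd (BlkD.upd (fun _ => 23) 0 7) 2 4) 0 3) 0 2)) :=
  BlkD.tree_sound (BlkD.pairOk_sound k22_23_7_4) (by decide) hn t22_23_7_4_8 _ _ (by decide +kernel)

/-- certificates of the pair `(7, 4)`, part 9 -/
def t22_23_7_4_9 : BlkD.Tr :=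
  .S 1 2 (.L 6 8 [4, 4, 5, 5, 5] [] [] 100000 37037 37037 1033335 33333 0 33333 33333 0 0 12963)
    (.S 1 4 (.L 6 8 [4, 4, 5, 5, 5] [] [] 100000 25001 25001 1210000 22500 0 22500 33750 0 23333
    33333) (.L 6 8 [4, 4, 5, 5, 5] [108, 98, 86, 74, 62, 50] [] 100000 32500 32500 1250001 30000 0
    41667 33333 0 20000 23333))

lemma s22_23_7_4_9 {n : ℕ} (hn : 7 ≤ n) : NoNd (d22_23_7_4.R : ℤ) d22_23_7_4.H n d22_23_7_4.a d22_23_7_4.b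
    (BlkD.inB (BlkD.upd (BlkD.upd (fun _ => 0) 0 2) 0 3)
      (BlkD.upd (BlkD.upd (BlkD.upd (BlkD.upd (BlkD.upd (BlkD.upd (fun _ => 23) 0 7) 2 4) 0 3) 1 20) 1 10) 1 5)) :=
  BlkD.tree_sound (BlkD.pairOk_sound k22_23_7_4) (by decide) hn t22_23_7_4_9 _ _ (by decide +kernel)

/-- certificates of the pair `(7, 4)`, part 10 -/
def t22_23_7_4_10 : BlkD.Tr :=
  .S 1 8 (.S 1 7 (.S 1 6 (.S 2 2 (.S 2 1 (.L 6 8 [4, 4, 5, 5, 5] [128, 124, 114, 102, 90, 78] []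
    100000 54156 54156 1172975 31081 51351 75000 65541 4730 3378 7568) (.L 6 8 [4, 4, 5, 5, 5]
    [128, 124, 114, 102, 90, 78] [] 100000 32422 32422 1268753 32812 0 71875 34375 6250 12500
    21875)) (.L 6 8 [4, 4, 5, 5, 5] [128, 124, 114, 102, 90, 78] [] 100000 33824 33824 1244117
    39216 0 59804 20588 2941 36275 20588)) (.S 2 2 (.L 5 7 [4, 4, 5, 5, 6] [147, 146, 142, 132,
    120, 108] [] 100000 50701 50701 1196887 43302 0 86604 43302 4984 8723 17445) (.L 5 7 [4, 4, 5,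
    5, 6] [147, 146, 142, 132, 120, 108] [] 100000 39286 39286 1214287 42857 0 71429 28571 0 42857
    14286))) (.L 5 7 [4, 4, 5, 5, 6] [168, 167, 166, 162, 152, 140] [] 100000 62500 62500 1100000
    50000 0 100000 50000 0 0 6250)) (.L 5 7 [4, 4, 5, 5, 6] [] [] 100000 25000 25000 1200000 0 0
    100000 100000 0 0 25000)

lemma s22_23_7_4_10 {n : ℕ} (hn : 7 ≤ n) : NoNd (d22_23_7_4.R : ℤ) d22_23_7_4.H n d22_23_7_4.a d22_23_7_4.b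
    (BlkD.inB (BlkD.upd (BlkD.upd (BlkD.upd (fun _ => 0) 0 2) 0 3) 1 6)
      (BlkD.upd (BlkD.upd (BlkD.upd (BlkD.upd (BlkD.upd (fun _ => 23) 0 7) 2 4) 0 3) 1 20) 1 10)) :=
  BlkD.tree_sound (BlkD.pairOk_sound k22_23_7_4) (by decide) hn t22_23_7_4_10 _ _ (by decide +kernel)

/-- certificates of the pair `(7, 4)`, part 11 -/
def t22_23_7_4_11 : BlkD.Tr :=
  .E 0

lemma s22_23_7_4_11 {n : ℕ} (hn : 7 ≤ n) : NoNd (d22_23_7_4.R : ℤ) d22_23_7_4.H n d22_23_7_4.a d22_23_7_4.b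
    (BlkD.inB (BlkD.upd (BlkD.upd (BlkD.upd (fun _ => 0) 0 2) 0 3) 1 11)
      (BlkD.upd (BlkD.upd (BlkD.upd (BlkD.upd (fun _ => 23) 0 7) 2 4) 0 3) 1 20)) :=
  BlkD.tree_sound (BlkD.pairOk_sound k22_23_7_4) (by decide) hn t22_23_7_4_11 _ _ (by decide +kernel)

/-- certificates of the pair `(7, 4)`, part 12 -/
def t22_23_7_4_12 : BlkD.Tr :=
  .E 0

lemma s22_23_7_4_12 {n : ℕ} (hn : 7 ≤ n) : NoNd (d22_23_7_4.R : ℤ) d22_23_7_4.H n d22_23_7_4.a d22_23_7_4.b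
    (BlkD.inB (BlkD.upd (BlkD.upd (BlkD.upd (fun _ => 0) 0 2) 0 3) 1 21)
      (BlkD.upd (BlkD.upd (BlkD.upd (fun _ => 23) 0 7) 2 4) 0 3)) :=
  BlkD.tree_sound (BlkD.pairOk_sound k22_23_7_4) (by decide) hn t22_23_7_4_12 _ _ (by decide +kernel)

/-- certificates of the pair `(7, 4)`, part 13 -/
def t22_23_7_4_13 : BlkD.Tr :=
  .L 6 8 [4, 4, 5, 5, 5] [] [] 100000 21297 21297 1310000 22500 0 81759 43333 7407 23333 33333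

lemma s22_23_7_4_13 {n : ℕ} (hn : 7 ≤ n) : NoNd (d22_23_7_4.R : ℤ) d22_23_7_4.H n d22_23_7_4.a d22_23_7_4.b
    (BlkD.inB (BlkD.upd (fun _ => 0) 0 4)
      (BlkD.upd (BlkD.upd (BlkD.upd (BlkD.upd (BlkD.upd (BlkD.upd (BlkD.upd (fun _ => 23) 0 7) 2 4) 0 5) 0 4) 1 19) 1 9) 1 4)) :=
  BlkD.tree_sound (BlkD.pairOk_sound k22_23_7_4) (by decide) hn t22_23_7_4_13 _ _ (by decide +kernel)

/-- certificates of the pair `(7, 4)`, part 14 -/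
def t22_23_7_4_14 : BlkD.Tr :=
  .S 2 2 (.S 2 1 (.L 6 8 [4, 4, 5, 5, 5] [118, 108, 96, 84, 72, 60] [] 100000 38830 38830 1221278
    17021 55319 68085 63830 0 8511 14894) (.S 3 12 (.S 3 6 (.S 3 3 (.L 6 8 [4, 4, 5, 5, 5] [118,
    108, 96, 84, 72, 60] [] 100000 25207 25207 1293095 24041 10742 48878 36061 1762 19693 25320)
    (.S 3 5 (.S 3 4 (.S 4 5 (.S 4 2 (.L 6 8 [4, 4, 5, 5, 5] [84, 72, 60, 0, 0, 0] [70, 60, 50, 40,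
    28, 0] 100000 39394 39394 1192427 43939 0 87879 43939 0 6061 16667) (.L 6 8 [4, 4, 5, 5, 5]
    [118, 108, 96, 84, 72, 60] [70, 60, 50, 40, 28, 0] 100000 25000 16667 1158335 8333 0 108333
    8333 0 8333 25000)) (.E 2)) (.E 1)) (.E 1))) (.E 1)) (.E 1))) (.S 2 3 (.S 3 11 (.S 3 5 (.S 3 2
    (.L 6 8 [4, 4, 5, 5, 5] [118, 108, 96, 84, 72, 60] [] 100000 25000 25000 1275000 25000 0 50000
    50000 0 25000 25000) (.S 3 4 (.S 3 3 (.S 4 5 (.S 4 2 (.L 6 8 [4, 4, 5, 5, 5] [84, 72, 60, 0, 0,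
    0] [56, 46, 36, 24, 0, 0] 100000 50001 50001 1149999 56667 0 90000 33333 0 16667 16667) (.L 6 8
    [4, 4, 5, 5, 5] [118, 108, 96, 84, 72, 60] [56, 46, 36, 24, 0, 0] 100000 25000 13889 1144445
    11111 0 111111 0 0 11111 33333)) (.E 2)) (.E 1)) (.E 1))) (.E 1)) (.E 1)) (.L 6 8 [4, 4, 5, 5,
    5] [118, 108, 96, 84, 72, 60] [] 100000 20968 20968 1272585 27419 0 64516 17742 8065 46774
    17742))

lemma s22_23_7_4_14 {n : ℕ} (hn : 7 ≤ n) : NoNd (d22_23_7_4.R : ℤ) d22_23_7_4.H n d22_23_7_4.a d22_23_7_4.b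
    (BlkD.inB (BlkD.upd (BlkD.upd (fun _ => 0) 0 4) 1 5)
      (BlkD.upd (BlkD.upd (BlkD.upd (BlkD.upd (BlkD.upd (BlkD.upd (BlkD.upd (BlkD.upd (BlkD.upd (fun _ => 23) 0 7) 2 4) 0 5) 0 4) 1 19) 1 9) 1 7) 1 6) 1 5)) :=
  BlkD.tree_sound (BlkD.pairOk_sound k22_23_7_4) (by decide) hn t22_23_7_4_14 _ _ (by decide +kernel)

/-- certificates of the pair `(7, 4)`, part 15 -/
def t22_23_7_4_15 : BlkD.Tr :=
  .S 2 2 (.S 2 1 (.L 6 8 [4, 4, 5, 5, 5] [140, 136, 126, 114, 102, 90] [] 100000 45455 45455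
    1200001 18182 63636 72727 81818 0 0 9091) (.S 3 11 (.S 3 5 (.S 3 2 (.S 3 1 (.L 6 8 [4, 4, 5, 5,
    5] [140, 136, 126, 114, 102, 90] [] 100000 30202 30202 1236912 31544 0 74497 31544 5369 0
    22819) (.L 6 8 [4, 4, 5, 5, 5] [140, 136, 126, 114, 102, 90] [32, 22, 10, 0, 0, 0] 100000 20813
    20813 1307537 23116 11558 70184 35092 8375 23953 25628)) (.S 3 4 (.S 3 3 (.L 6 8 [4, 4, 5, 5,
    5] [140, 136, 126, 114, 102, 90] [50, 40, 30, 18, 0, 0] 100000 22696 22696 1306452 32258 0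
    64516 32719 4608 33641 17281) (.S 4 6 (.S 4 3 (.L 6 8 [4, 4, 5, 5, 5] [114, 102, 90, 78, 0, 0]
    [70, 60, 50, 40, 28, 0] 100000 42858 42858 1160713 46429 0 100000 53571 0 0 10714) (.L 6 8 [4,
    4, 5, 5, 5] [140, 136, 126, 114, 102, 90] [70, 60, 50, 40, 28, 0] 100000 25000 1000 1080000
    12000 0 124000 16000 0 32000 28000)) (.E 2))) (.E 1))) (.E 1)) (.E 1))) (.S 2 3 (.S 3 10 (.S 3
    5 (.S 3 2 (.L 6 8 [4, 4, 5, 5, 5] [140, 136, 126, 114, 102, 90] [] 100000 20703 20703 1302346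
    25000 0 72656 37500 8594 25000 18750) (.S 3 4 (.S 3 3 (.S 4 6 (.S 4 3 (.L 6 8 [4, 4, 5, 5, 5]
    [114, 102, 90, 78, 0, 0] [56, 46, 36, 24, 0, 0] 100000 42858 42858 1160713 46429 0 100000 53571
    0 0 10714) (.L 6 8 [4, 4, 5, 5, 5] [140, 136, 126, 114, 102, 90] [56, 46, 36, 24, 0, 0] 100000
    25000 0 1075000 12500 0 125000 0 0 37500 25000)) (.E 2)) (.E 1)) (.E 1))) (.E 1)) (.E 1)) (.L 6
    8 [4, 4, 5, 5, 5] [140, 136, 126, 114, 102, 90] [] 100000 22094 22094 1274418 36047 0 62791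
    18605 5814 54651 18605))

lemma s22_23_7_4_15 {n : ℕ} (hn : 7 ≤ n) : NoNd (d22_23_7_4.R : ℤ) d22_23_7_4.H n d22_23_7_4.a d22_23_7_4.b
    (BlkD.inB (BlkD.upd (BlkD.upd (BlkD.upd (fun _ => 0) 0 4) 1 5) 1 6)
      (BlkD.upd (BlkD.upd (BlkD.upd (BlkD.upd (BlkD.upd (BlkD.upd (BlkD.upd (BlkD.upd (fun _ => 23) 0 7) 2 4) 0 5) 0 4) 1 19) 1 9) 1 7) 1 6)) :=
  BlkD.tree_sound (BlkD.pairOk_sound k22_23_7_4) (by decide) hn t22_23_7_4_15 _ _ (by decide +kernel)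

/-- certificates of the pair `(7, 4)`, part 16 -/
def t22_23_7_4_16 : BlkD.Tr :=
  .L 6 8 [4, 4, 5, 5, 5] [161, 160, 156, 146, 134, 122] [] 100000 22039 22039 1287681 24171 0 81991
    51659 12796 10427 18957

lemma s22_23_7_4_16 {n : ℕ} (hn : 7 ≤ n) : NoNd (d22_23_7_4.R : ℤ) d22_23_7_4.H n d22_23_7_4.a d22_23_7_4.b
    (BlkD.inB (BlkD.upd (BlkD.upd (BlkD.upd (fun _ => 0) 0 4) 1 5) 1 7)
      (BlkD.upd (BlkD.upd (BlkD.upd (BlkD.upd (BlkD.upd (BlkD.upd (BlkD.upd (fun _ => 23) 0 7) 2 4) 0 5) 0 4) 1 19) 1 9) 1 7)) :=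
  BlkD.tree_sound (BlkD.pairOk_sound k22_23_7_4) (by decide) hn t22_23_7_4_16 _ _ (by decide +kernel)

/-- certificates of the pair `(7, 4)`, part 17 -/
def t22_23_7_4_17 : BlkD.Tr :=
  .L 6 8 [4, 4, 5, 5, 5] [] [] 100000 25000 25000 1200000 0 0 100000 100000 0 0 25000

lemma s22_23_7_4_17 {n : ℕ} (hn : 7 ≤ n) : NoNd (d22_23_7_4.R : ℤ) d22_23_7_4.H n d22_23_7_4.a d22_23_7_4.b
    (BlkD.inB (BlkD.upd (BlkD.upd (BlkD.upd (fun _ => 0) 0 4) 1 5) 1 8)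
      (BlkD.upd (BlkD.upd (BlkD.upd (BlkD.upd (BlkD.upd (BlkD.upd (fun _ => 23) 0 7) 2 4) 0 5) 0 4) 1 19) 1 9)) :=
  BlkD.tree_sound (BlkD.pairOk_sound k22_23_7_4) (by decide) hn t22_23_7_4_17 _ _ (by decide +kernel)

/-- certificates of the pair `(7, 4)`, part 18 -/
def t22_23_7_4_18 : BlkD.Tr :=
  .E 0

lemma s22_23_7_4_18 {n : ℕ} (hn : 7 ≤ n) : NoNd (d22_23_7_4.R : ℤ) d22_23_7_4.H n d22_23_7_4.a d22_23_7_4.b
    (BlkD.inB (BlkD.upd (BlkD.upd (fun _ => 0) 0 4) 1 10)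
      (BlkD.upd (BlkD.upd (BlkD.upd (BlkD.upd (BlkD.upd (fun _ => 23) 0 7) 2 4) 0 5) 0 4) 1 19)) :=
  BlkD.tree_sound (BlkD.pairOk_sound k22_23_7_4) (by decide) hn t22_23_7_4_18 _ _ (by decide +kernel)

/-- certificates of the pair `(7, 4)`, part 19 -/
def t22_23_7_4_19 : BlkD.Tr :=
  .E 0

lemma s22_23_7_4_19 {n : ℕ} (hn : 7 ≤ n) : NoNd (d22_23_7_4.R : ℤ) d22_23_7_4.H n d22_23_7_4.a d22_23_7_4.b
    (BlkD.inB (BlkD.upd (BlkD.upd (fun _ => 0) 0 4) 1 20)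
      (BlkD.upd (BlkD.upd (BlkD.upd (BlkD.upd (fun _ => 23) 0 7) 2 4) 0 5) 0 4)) :=
  BlkD.tree_sound (BlkD.pairOk_sound k22_23_7_4) (by decide) hn t22_23_7_4_19 _ _ (by decide +kernel)

/-- certificates of the pair `(7, 4)`, part 20 -/
def t22_23_7_4_20 : BlkD.Tr :=
  .S 1 18 (.S 1 9 (.S 1 4 (.S 1 2 (.L 6 8 [4, 4, 5, 5, 5] [] [] 100000 29225 29225 1217809 41096
    6393 41096 41096 0 24201 33333) (.S 1 3 (.L 6 8 [4, 4, 5, 5, 5] [72, 60, 48, 36, 0, 0] []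
    100000 23611 23611 1290002 25000 5000 82222 35000 2778 25000 30000) (.S 2 2 (.S 2 1 (.L 6 8 [4,
    4, 5, 5, 5] [100, 88, 76, 64, 52, 0] [] 100000 30433 30433 1246668 15556 53333 70864 60000 9136
    13333 15556) (.S 3 12 (.S 3 6 (.S 3 3 (.L 6 8 [4, 4, 5, 5, 5] [100, 88, 76, 64, 52, 0] []
    100000 19260 19260 1320001 26667 0 78519 33333 14815 20000 20000) (.L 6 8 [4, 4, 5, 5, 5] [100,
    88, 76, 64, 52, 0] [] 100000 28572 28572 1271430 14286 0 100000 85714 14286 0 14286)) (.E 1))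
    (.E 1))) (.L 6 8 [4, 4, 5, 5, 5] [100, 88, 76, 64, 52, 0] [] 100000 22917 22917 1300000 25000 0
    75000 50000 8333 16667 18750)))) (.L 6 8 [4, 4, 5, 5, 5] [] [] 100000 20313 20313 1312500 0 0
    93750 93750 12500 12500 20312)) (.E 0)) (.E 0)

lemma s22_23_7_4_20 {n : ℕ} (hn : 7 ≤ n) : NoNd (d22_23_7_4.R : ℤ) d22_23_7_4.H n d22_23_7_4.a d22_23_7_4.b
    (BlkD.inB (BlkD.upd (BlkD.upd (fun _ => 0) 0 4) 0 5)
      (BlkD.upd (BlkD.upd (BlkD.upd (fun _ => 23) 0 7) 2 4) 0 5)) :=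
  BlkD.tree_sound (BlkD.pairOk_sound k22_23_7_4) (by decide) hn t22_23_7_4_20 _ _ (by decide +kernel)

/-- certificates of the pair `(7, 4)`, part 21 -/
def t22_23_7_4_21 : BlkD.Tr :=
  .L 6 8 [4, 4, 5, 5, 5] [] [] 100000 18836 18836 1310961 685 685 87671 87671 12329 12329 21918

lemma s22_23_7_4_21 {n : ℕ} (hn : 7 ≤ n) : NoNd (d22_23_7_4.R : ℤ) d22_23_7_4.H n d22_23_7_4.a d22_23_7_4.b
    (BlkD.inB (BlkD.upd (BlkD.upd (fun _ => 0) 0 4) 0 6)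
      (BlkD.upd (BlkD.upd (fun _ => 23) 0 7) 2 4)) :=
  BlkD.tree_sound (BlkD.pairOk_sound k22_23_7_4) (by decide) hn t22_23_7_4_21 _ _ (by decide +kernel)

/-- certificates of the pair `(7, 4)`, part 22 -/
def t22_23_7_4_22 : BlkD.Tr :=
  .E 1

lemma s22_23_7_4_22 {n : ℕ} (hn : 7 ≤ n) : NoNd (d22_23_7_4.R : ℤ) d22_23_7_4.H n d22_23_7_4.a d22_23_7_4.b
    (BlkD.inB (BlkD.upd (fun _ => 0) 2 5)
      (BlkD.upd (fun _ => 23) 0 7)) :=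
  BlkD.tree_sound (BlkD.pairOk_sound k22_23_7_4) (by decide) hn t22_23_7_4_22 _ _ (by decide +kernel)

/-- certificates of the pair `(7, 4)`, part 23 -/
def t22_23_7_4_23 : BlkD.Tr :=
  .E 0

lemma s22_23_7_4_23 {n : ℕ} (hn : 7 ≤ n) : NoNd (d22_23_7_4.R : ℤ) d22_23_7_4.H n d22_23_7_4.a d22_23_7_4.b
    (BlkD.inB (BlkD.upd (fun _ => 0) 0 8)
      (fun _ => 23)) :=
  BlkD.tree_sound (BlkD.pairOk_sound k22_23_7_4) (by decide) hn t22_23_7_4_23 _ _ (by decide +kernel)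

lemma pr22_23_7_4 {n : ℕ} (hn : 7 ≤ n) : NoPr ((22 : ℕ) : ℤ) ((23 : ℕ) : ℤ) n 7 4 :=
  BlkD.of_root (R := d22_23_7_4.R) (H := d22_23_7_4.H) (a := d22_23_7_4.a) (b := d22_23_7_4.b) (q := 5) (by decide) hn
    (BlkD.sp 0 7 (BlkD.sp 2 4 (BlkD.sp 0 3 (BlkD.sp 0 1 (BlkD.sp 0 0 (s22_23_7_4_1 hn) (BlkD.sp 1
      11 (BlkD.sp 1 5 (s22_23_7_4_2 hn) (BlkD.sp 1 8 (s22_23_7_4_3 hn) (s22_23_7_4_4 hn)))
      (s22_23_7_4_5 hn))) (BlkD.sp 0 2 (BlkD.sp 1 11 (BlkD.sp 1 5 (s22_23_7_4_6 hn) (s22_23_7_4_7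
      hn)) (s22_23_7_4_8 hn)) (BlkD.sp 1 20 (BlkD.sp 1 10 (BlkD.sp 1 5 (s22_23_7_4_9 hn)
      (s22_23_7_4_10 hn)) (s22_23_7_4_11 hn)) (s22_23_7_4_12 hn)))) (BlkD.sp 0 5 (BlkD.sp 0 4
      (BlkD.sp 1 19 (BlkD.sp 1 9 (BlkD.sp 1 4 (s22_23_7_4_13 hn) (BlkD.sp 1 7 (BlkD.sp 1 6 (BlkD.sp
      1 5 (s22_23_7_4_14 hn) (s22_23_7_4_15 hn)) (s22_23_7_4_16 hn)) (s22_23_7_4_17 hn)))
      (s22_23_7_4_18 hn)) (s22_23_7_4_19 hn)) (s22_23_7_4_20 hn)) (s22_23_7_4_21 hn)))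
      (s22_23_7_4_22 hn)) (s22_23_7_4_23 hn))

end BlkC

end Pool.Agent.Lib.MP_f04ccf_co
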