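import Pool.Agent.Lib.MP_f04ccf_co.M.BlkT

/-!
MP_f04ccf_co, block certificate, data `R = 22`, `H = 23`, part 8 (generated, helper99:
bd10.cpp, gen2.py).
-/

set_option autoImplicit false
set_option maxRecDepth 100000

namespace Pool.Agent.Lib.MP_f04ccf_co

namespace BlkC

/-- the numbers of the pair `(7, 5)`, `R = 22`, `H = 23` -/
def d22_23_7_5 : BlkD.Pd :=
  ⟨22, 23, 5, 7, 5, 8, 3, 3, 1, 3, 10, 0, 2, 2, 10, 0, [0, 10, 20, 27, 28, 29, 30, 31, 32], [0, 10,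
    20, 22, 24, 26, 28, 30, 32], [⟨1, 1, 1, 4, 8, [0, 4], [0, 4]⟩, ⟨1, 1, 1, 4, 12, [0, 6], [0,
    6]⟩, ⟨1, 1, 1, 4, 16, [0, 8], [0, 8]⟩, ⟨2, 1, 1, 4, 24, [0, 10, 14], [0, 10]⟩]⟩

lemma k22_23_7_5 : BlkD.pairOk d22_23_7_5 = true := by decide +kernel

/-- certificates of the pair `(7, 5)`, part 1 -/
def t22_23_7_5_1 : BlkD.Tr :=
  .L 6 7 [4, 4, 4, 5, 22, 22] [] [] 100000 66667 66667 1000000 100000 0 100000 50000 0 0 0

lemma s22_23_7_5_1 {n : ℕ} (hn : 7 ≤ n) : NoNd (d22_23_7_5.R : ℤ) d22_23_7_5.H n d22_23_7_5.a d22_23_7_5.b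
    (BlkD.inB (fun _ => 0)
      (BlkD.upd (BlkD.upd (BlkD.upd (BlkD.upd (BlkD.upd (fun _ => 23) 0 7) 2 5) 0 3) 0 1) 0 0)) :=
  BlkD.tree_sound (BlkD.pairOk_sound k22_23_7_5) (by decide) hn t22_23_7_5_1 _ _ (by decide +kernel)

/-- certificates of the pair `(7, 5)`, part 2 -/
def t22_23_7_5_2 : BlkD.Tr :=
  .S 1 2 (.L 6 7 [4, 4, 4, 5, 22, 22] [] [] 100000 66667 66667 1000000 100000 0 100000 50000 0 0 0)
    (.S 1 4 (.L 6 7 [4, 4, 4, 5, 22, 22] [] [] 100000 66667 66667 1000000 100000 0 100000 50000 0 0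
    0) (.L 6 7 [4, 4, 4, 5, 22, 22] [83, 76, 66, 56, 44, 30] [] 100000 66667 66667 1000000 100000 0
    100000 50000 0 0 0))

lemma s22_23_7_5_2 {n : ℕ} (hn : 7 ≤ n) : NoNd (d22_23_7_5.R : ℤ) d22_23_7_5.H n d22_23_7_5.a d22_23_7_5.b
    (BlkD.inB (BlkD.upd (fun _ => 0) 0 1)
      (BlkD.upd (BlkD.upd (BlkD.upd (BlkD.upd (BlkD.upd (BlkD.upd (fun _ => 23) 0 7) 2 5) 0 3) 0 1) 1 11) 1 5)) :=
  BlkD.tree_sound (BlkD.pairOk_sound k22_23_7_5) (by decide) hn t22_23_7_5_2 _ _ (by decide +kernel)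

/-- certificates of the pair `(7, 5)`, part 3 -/
def t22_23_7_5_3 : BlkD.Tr :=
  .S 1 7 (.S 1 6 (.L 6 7 [4, 4, 4, 5, 22, 22] [96, 95, 88, 78, 68, 56] [] 100000 66667 66667
    1000000 100000 0 100000 50000 0 0 0) (.L 6 7 [4, 4, 4, 5, 22, 22] [111, 110, 109, 102, 92, 82]
    [] 100000 66667 66667 1000000 100000 0 100000 50000 0 0 0)) (.L 6 7 [4, 4, 4, 5, 22, 22] [128,
    127, 126, 125, 118, 108] [] 100000 66667 66667 1000000 100000 0 100000 50000 0 0 0)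

lemma s22_23_7_5_3 {n : ℕ} (hn : 7 ≤ n) : NoNd (d22_23_7_5.R : ℤ) d22_23_7_5.H n d22_23_7_5.a d22_23_7_5.b
    (BlkD.inB (BlkD.upd (BlkD.upd (fun _ => 0) 0 1) 1 6)
      (BlkD.upd (BlkD.upd (BlkD.upd (BlkD.upd (BlkD.upd (BlkD.upd (fun _ => 23) 0 7) 2 5) 0 3) 0 1) 1 11) 1 8)) :=
  BlkD.tree_sound (BlkD.pairOk_sound k22_23_7_5) (by decide) hn t22_23_7_5_3 _ _ (by decide +kernel)

/-- certificates of the pair `(7, 5)`, part 4 -/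
def t22_23_7_5_4 : BlkD.Tr :=
  .L 6 7 [4, 4, 4, 5, 22, 22] [] [] 100000 66667 66667 1000000 100000 0 100000 50000 0 0 0

lemma s22_23_7_5_4 {n : ℕ} (hn : 7 ≤ n) : NoNd (d22_23_7_5.R : ℤ) d22_23_7_5.H n d22_23_7_5.a d22_23_7_5.b
    (BlkD.inB (BlkD.upd (BlkD.upd (BlkD.upd (fun _ => 0) 0 1) 1 6) 1 9)
      (BlkD.upd (BlkD.upd (BlkD.upd (BlkD.upd (BlkD.upd (fun _ => 23) 0 7) 2 5) 0 3) 0 1) 1 11)) :=
  BlkD.tree_sound (BlkD.pairOk_sound k22_23_7_5) (by decide) hn t22_23_7_5_4 _ _ (by decide +kernel)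

/-- certificates of the pair `(7, 5)`, part 5 -/
def t22_23_7_5_5 : BlkD.Tr :=
  .L 6 7 [4, 4, 4, 5, 22, 22] [] [] 100000 66667 66667 1000000 100000 0 100000 50000 0 0 0

lemma s22_23_7_5_5 {n : ℕ} (hn : 7 ≤ n) : NoNd (d22_23_7_5.R : ℤ) d22_23_7_5.H n d22_23_7_5.a d22_23_7_5.b
    (BlkD.inB (BlkD.upd (BlkD.upd (fun _ => 0) 0 1) 1 12)
      (BlkD.upd (BlkD.upd (BlkD.upd (BlkD.upd (fun _ => 23) 0 7) 2 5) 0 3) 0 1)) :=
  BlkD.tree_sound (BlkD.pairOk_sound k22_23_7_5) (by decide) hn t22_23_7_5_5 _ _ (by decide +kernel)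

/-- certificates of the pair `(7, 5)`, part 6 -/
def t22_23_7_5_6 : BlkD.Tr :=
  .S 1 2 (.L 6 7 [4, 4, 4, 5, 22, 22] [] [] 100000 65477 65477 1271428 57143 0 71429 71429 0 3571
    3571) (.S 1 4 (.L 6 7 [4, 4, 4, 5, 22, 22] [] [] 100000 65477 65477 1271428 57143 0 71429 71429
    0 3571 3571) (.L 6 7 [4, 4, 4, 5, 22, 22] [93, 86, 76, 66, 54, 40] [] 100000 65477 65477
    1271428 57143 0 71429 71429 0 3571 3571))

lemma s22_23_7_5_6 {n : ℕ} (hn : 7 ≤ n) : NoNd (d22_23_7_5.R : ℤ) d22_23_7_5.H n d22_23_7_5.a d22_23_7_5.b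
    (BlkD.inB (BlkD.upd (fun _ => 0) 0 2)
      (BlkD.upd (BlkD.upd (BlkD.upd (BlkD.upd (BlkD.upd (BlkD.upd (fun _ => 23) 0 7) 2 5) 0 3) 0 2) 1 11) 1 5)) :=
  BlkD.tree_sound (BlkD.pairOk_sound k22_23_7_5) (by decide) hn t22_23_7_5_6 _ _ (by decide +kernel)

/-- certificates of the pair `(7, 5)`, part 7 -/
def t22_23_7_5_7 : BlkD.Tr :=
  .S 1 6 (.L 6 7 [4, 4, 4, 5, 22, 22] [108, 107, 100, 90, 80, 68] [] 100000 65477 65477 1271428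
    57143 0 71429 71429 0 3571 3571) (.L 6 7 [4, 4, 4, 5, 22, 22] [125, 124, 123, 116, 106, 96] []
    100000 65477 65477 1271428 57143 0 71429 71429 0 3571 3571)

lemma s22_23_7_5_7 {n : ℕ} (hn : 7 ≤ n) : NoNd (d22_23_7_5.R : ℤ) d22_23_7_5.H n d22_23_7_5.a d22_23_7_5.b
    (BlkD.inB (BlkD.upd (BlkD.upd (fun _ => 0) 0 2) 1 6)
      (BlkD.upd (BlkD.upd (BlkD.upd (BlkD.upd (BlkD.upd (BlkD.upd (BlkD.upd (fun _ => 23) 0 7) 2 5) 0 3) 0 2) 1 11) 1 8) 1 7)) :=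
  BlkD.tree_sound (BlkD.pairOk_sound k22_23_7_5) (by decide) hn t22_23_7_5_7 _ _ (by decide +kernel)

/-- certificates of the pair `(7, 5)`, part 8 -/
def t22_23_7_5_8 : BlkD.Tr :=
  .L 6 7 [4, 4, 4, 5, 22, 22] [144, 143, 142, 141, 134, 124] [] 100000 65477 65477 1271428 57143 0
    71429 71429 0 3571 3571

lemma s22_23_7_5_8 {n : ℕ} (hn : 7 ≤ n) : NoNd (d22_23_7_5.R : ℤ) d22_23_7_5.H n d22_23_7_5.a d22_23_7_5.b
    (BlkD.inB (BlkD.upd (BlkD.upd (BlkD.upd (fun _ => 0) 0 2) 1 6) 1 8)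
      (BlkD.upd (BlkD.upd (BlkD.upd (BlkD.upd (BlkD.upd (BlkD.upd (fun _ => 23) 0 7) 2 5) 0 3) 0 2) 1 11) 1 8)) :=
  BlkD.tree_sound (BlkD.pairOk_sound k22_23_7_5) (by decide) hn t22_23_7_5_8 _ _ (by decide +kernel)

/-- certificates of the pair `(7, 5)`, part 9 -/
def t22_23_7_5_9 : BlkD.Tr :=
  .L 6 7 [4, 4, 4, 5, 22, 22] [] [] 100000 65477 65477 1271428 57143 0 71429 71429 0 3571 3571

lemma s22_23_7_5_9 {n : ℕ} (hn : 7 ≤ n) : NoNd (d22_23_7_5.R : ℤ) d22_23_7_5.H n d22_23_7_5.a d22_23_7_5.b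
    (BlkD.inB (BlkD.upd (BlkD.upd (BlkD.upd (fun _ => 0) 0 2) 1 6) 1 9)
      (BlkD.upd (BlkD.upd (BlkD.upd (BlkD.upd (BlkD.upd (fun _ => 23) 0 7) 2 5) 0 3) 0 2) 1 11)) :=
  BlkD.tree_sound (BlkD.pairOk_sound k22_23_7_5) (by decide) hn t22_23_7_5_9 _ _ (by decide +kernel)

/-- certificates of the pair `(7, 5)`, part 10 -/
def t22_23_7_5_10 : BlkD.Tr :=
  .L 6 7 [4, 4, 4, 5, 22, 22] [] [] 100000 65477 65477 1271428 57143 0 71429 71429 0 3571 3571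

lemma s22_23_7_5_10 {n : ℕ} (hn : 7 ≤ n) : NoNd (d22_23_7_5.R : ℤ) d22_23_7_5.H n d22_23_7_5.a d22_23_7_5.b
    (BlkD.inB (BlkD.upd (BlkD.upd (fun _ => 0) 0 2) 1 12)
      (BlkD.upd (BlkD.upd (BlkD.upd (BlkD.upd (fun _ => 23) 0 7) 2 5) 0 3) 0 2)) :=
  BlkD.tree_sound (BlkD.pairOk_sound k22_23_7_5) (by decide) hn t22_23_7_5_10 _ _ (by decide +kernel)

/-- certificates of the pair `(7, 5)`, part 11 -/
def t22_23_7_5_11 : BlkD.Tr :=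
  .S 1 2 (.L 6 7 [4, 4, 4, 5, 22, 22] [] [] 100000 28572 28572 1380955 33333 0 52381 52381 0 14286
    33333) (.S 1 4 (.L 6 7 [4, 4, 4, 5, 22, 22] [] [] 100000 28572 28572 1380955 33333 0 52381
    52381 0 14286 33333) (.L 6 7 [4, 4, 4, 5, 22, 22] [103, 96, 86, 76, 64, 50] [] 100000 28572
    28572 1380955 33333 0 52381 52381 0 14286 33333))

lemma s22_23_7_5_11 {n : ℕ} (hn : 7 ≤ n) : NoNd (d22_23_7_5.R : ℤ) d22_23_7_5.H n d22_23_7_5.a d22_23_7_5.b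
    (BlkD.inB (BlkD.upd (BlkD.upd (fun _ => 0) 0 2) 0 3)
      (BlkD.upd (BlkD.upd (BlkD.upd (BlkD.upd (BlkD.upd (BlkD.upd (fun _ => 23) 0 7) 2 5) 0 3) 1 20) 1 10) 1 5)) :=
  BlkD.tree_sound (BlkD.pairOk_sound k22_23_7_5) (by decide) hn t22_23_7_5_11 _ _ (by decide +kernel)

/-- certificates of the pair `(7, 5)`, part 12 -/
def t22_23_7_5_12 : BlkD.Tr :=
  .S 1 8 (.S 1 7 (.S 1 6 (.L 6 7 [4, 4, 4, 5, 22, 22] [120, 119, 112, 102, 92, 80] [] 100000 29167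
    29167 1400000 40000 0 67500 40000 0 12500 20000) (.L 6 7 [4, 4, 4, 5, 22, 22] [139, 138, 137,
    130, 120, 110] [] 100000 24631 24631 1412218 36432 0 78486 50000 9081 7946 21189)) (.L 6 7 [4,
    4, 4, 5, 22, 22] [160, 159, 158, 157, 150, 140] [] 100000 27778 27778 1356793 40123 0 82716
    57407 7099 2469 8642)) (.L 6 7 [4, 4, 4, 5, 22, 22] [] [] 100000 19334 19334 1361000 9000 3000
    100000 50000 31000 11000 31000)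

lemma s22_23_7_5_12 {n : ℕ} (hn : 7 ≤ n) : NoNd (d22_23_7_5.R : ℤ) d22_23_7_5.H n d22_23_7_5.a d22_23_7_5.b
    (BlkD.inB (BlkD.upd (BlkD.upd (BlkD.upd (fun _ => 0) 0 2) 0 3) 1 6)
      (BlkD.upd (BlkD.upd (BlkD.upd (BlkD.upd (BlkD.upd (fun _ => 23) 0 7) 2 5) 0 3) 1 20) 1 10)) :=
  BlkD.tree_sound (BlkD.pairOk_sound k22_23_7_5) (by decide) hn t22_23_7_5_12 _ _ (by decide +kernel)

/-- certificates of the pair `(7, 5)`, part 13 -/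
def t22_23_7_5_13 : BlkD.Tr :=
  .E 0

lemma s22_23_7_5_13 {n : ℕ} (hn : 7 ≤ n) : NoNd (d22_23_7_5.R : ℤ) d22_23_7_5.H n d22_23_7_5.a d22_23_7_5.b
    (BlkD.inB (BlkD.upd (BlkD.upd (BlkD.upd (fun _ => 0) 0 2) 0 3) 1 11)
      (BlkD.upd (BlkD.upd (BlkD.upd (BlkD.upd (fun _ => 23) 0 7) 2 5) 0 3) 1 20)) :=
  BlkD.tree_sound (BlkD.pairOk_sound k22_23_7_5) (by decide) hn t22_23_7_5_13 _ _ (by decide +kernel)

/-- certificates of the pair `(7, 5)`, part 14 -/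
def t22_23_7_5_14 : BlkD.Tr :=
  .E 0

lemma s22_23_7_5_14 {n : ℕ} (hn : 7 ≤ n) : NoNd (d22_23_7_5.R : ℤ) d22_23_7_5.H n d22_23_7_5.a d22_23_7_5.b
    (BlkD.inB (BlkD.upd (BlkD.upd (BlkD.upd (fun _ => 0) 0 2) 0 3) 1 21)
      (BlkD.upd (BlkD.upd (BlkD.upd (fun _ => 23) 0 7) 2 5) 0 3)) :=
  BlkD.tree_sound (BlkD.pairOk_sound k22_23_7_5) (by decide) hn t22_23_7_5_14 _ _ (by decide +kernel)

/-- certificates of the pair `(7, 5)`, part 15 -/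
def t22_23_7_5_15 : BlkD.Tr :=
  .L 6 7 [4, 4, 4, 5, 22, 22] [] [] 100000 28401 28401 1395405 32950 5747 69492 62308 2155 10489
    33333

lemma s22_23_7_5_15 {n : ℕ} (hn : 7 ≤ n) : NoNd (d22_23_7_5.R : ℤ) d22_23_7_5.H n d22_23_7_5.a d22_23_7_5.b
    (BlkD.inB (BlkD.upd (fun _ => 0) 0 4)
      (BlkD.upd (BlkD.upd (BlkD.upd (BlkD.upd (BlkD.upd (BlkD.upd (BlkD.upd (fun _ => 23) 0 7) 2 5) 0 5) 0 4) 1 19) 1 9) 1 4)) :=
  BlkD.tree_sound (BlkD.pairOk_sound k22_23_7_5) (by decide) hn t22_23_7_5_15 _ _ (by decide +kernel)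

/-- certificates of the pair `(7, 5)`, part 16 -/
def t22_23_7_5_16 : BlkD.Tr :=
  .S 1 7 (.S 1 6 (.S 1 5 (.S 2 2 (.L 6 7 [4, 4, 4, 5, 22, 22] [113, 106, 96, 86, 74, 60] [] 100000
    32653 32653 1362161 28891 27237 67802 63619 4961 6031 25778) (.S 2 4 (.S 2 3 (.L 6 7 [4, 4, 4,
    5, 22, 22] [113, 106, 96, 86, 74, 60] [] 100000 28632 28632 1413549 27441 19670 57018 50000
    1651 10806 29577) (.L 6 7 [4, 4, 4, 5, 22, 22] [113, 106, 96, 86, 74, 60] [] 100000 13095 13095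
    1414290 28571 0 76786 57143 8929 42857 14286)) (.L 6 7 [4, 4, 4, 5, 22, 22] [113, 106, 96, 86,
    74, 60] [] 100000 11443 11443 1365673 34328 0 76119 20896 2985 59701 20896))) (.S 2 2 (.L 6 7
    [4, 4, 4, 5, 22, 22] [132, 131, 124, 114, 104, 92] [] 100000 37148 37148 1369329 34765 28423
    58490 61242 5470 2718 20117) (.S 2 4 (.S 2 3 (.S 3 10 (.S 3 5 (.S 3 2 (.L 6 7 [4, 4, 4, 5, 22,
    22] [132, 131, 124, 114, 104, 92] [] 100000 28334 28334 1380000 35000 15000 60000 60000 5000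
    5000 20000) (.L 6 7 [4, 4, 4, 5, 22, 22] [132, 131, 124, 114, 104, 92] [] 100000 18161 18161
    1431721 25182 13559 77240 42373 6538 32446 16223)) (.E 1)) (.E 1)) (.L 6 7 [4, 4, 4, 5, 22, 22]
    [132, 131, 124, 114, 104, 92] [] 100000 15910 15910 1414775 28409 0 86364 50000 11364 29545
    11364)) (.L 6 7 [4, 4, 4, 5, 22, 22] [132, 131, 124, 114, 104, 92] [] 100000 2881 2881 1396296
    25926 0 77778 22222 17284 56790 24691)))) (.L 6 7 [4, 4, 4, 5, 22, 22] [153, 152, 151, 144,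
    134, 124] [] 100000 19016 19016 1414097 35570 0 79195 56376 17450 8054 20805)) (.L 6 7 [4, 4,
    4, 5, 22, 22] [] [] 100000 175000 0 0 0 25000 275000 50000 0 0 0)

lemma s22_23_7_5_16 {n : ℕ} (hn : 7 ≤ n) : NoNd (d22_23_7_5.R : ℤ) d22_23_7_5.H n d22_23_7_5.a d22_23_7_5.b
    (BlkD.inB (BlkD.upd (BlkD.upd (fun _ => 0) 0 4) 1 5)
      (BlkD.upd (BlkD.upd (BlkD.upd (BlkD.upd (BlkD.upd (BlkD.upd (fun _ => 23) 0 7) 2 5) 0 5) 0 4) 1 19) 1 9)) :=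
  BlkD.tree_sound (BlkD.pairOk_sound k22_23_7_5) (by decide) hn t22_23_7_5_16 _ _ (by decide +kernel)

/-- certificates of the pair `(7, 5)`, part 17 -/
def t22_23_7_5_17 : BlkD.Tr :=
  .E 0

lemma s22_23_7_5_17 {n : ℕ} (hn : 7 ≤ n) : NoNd (d22_23_7_5.R : ℤ) d22_23_7_5.H n d22_23_7_5.a d22_23_7_5.b
    (BlkD.inB (BlkD.upd (BlkD.upd (fun _ => 0) 0 4) 1 10)
      (BlkD.upd (BlkD.upd (BlkD.upd (BlkD.upd (BlkD.upd (fun _ => 23) 0 7) 2 5) 0 5) 0 4) 1 19)) :=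
  BlkD.tree_sound (BlkD.pairOk_sound k22_23_7_5) (by decide) hn t22_23_7_5_17 _ _ (by decide +kernel)

/-- certificates of the pair `(7, 5)`, part 18 -/
def t22_23_7_5_18 : BlkD.Tr :=
  .E 0

lemma s22_23_7_5_18 {n : ℕ} (hn : 7 ≤ n) : NoNd (d22_23_7_5.R : ℤ) d22_23_7_5.H n d22_23_7_5.a d22_23_7_5.b
    (BlkD.inB (BlkD.upd (BlkD.upd (fun _ => 0) 0 4) 1 20)
      (BlkD.upd (BlkD.upd (BlkD.upd (BlkD.upd (fun _ => 23) 0 7) 2 5) 0 5) 0 4)) :=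
  BlkD.tree_sound (BlkD.pairOk_sound k22_23_7_5) (by decide) hn t22_23_7_5_18 _ _ (by decide +kernel)

/-- certificates of the pair `(7, 5)`, part 19 -/
def t22_23_7_5_19 : BlkD.Tr :=
  .S 1 18 (.S 1 9 (.S 1 4 (.S 1 2 (.L 6 7 [4, 4, 4, 5, 22, 22] [] [] 100000 27933 27933 1362965
    37037 18519 37037 50463 0 16204 33333) (.S 1 3 (.L 6 7 [4, 4, 4, 5, 22, 22] [72, 62, 50, 36, 0,
    0] [] 100000 29215 29215 1389655 36782 11494 62069 53161 1149 10057 31034) (.S 2 2 (.L 6 7 [4,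
    4, 4, 5, 22, 22] [98, 88, 78, 66, 52, 0] [] 100000 28093 28093 1374214 18868 44025 50000 74214
    5346 5031 24057) (.S 2 4 (.S 2 3 (.L 6 7 [4, 4, 4, 5, 22, 22] [98, 88, 78, 66, 52, 0] [] 100000
    18951 18951 1438358 24658 12329 72945 78082 16096 10959 20377) (.L 6 7 [4, 4, 4, 5, 22, 22]
    [98, 88, 78, 66, 52, 0] [] 100000 4167 4167 1450000 16667 0 81250 50000 18750 50000 18750)) (.L
    6 7 [4, 4, 4, 5, 22, 22] [98, 88, 78, 66, 52, 0] [] 100000 0 0 1400000 25000 0 75000 25000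
    25000 56250 18750))))) (.S 1 7 (.S 1 6 (.S 1 5 (.L 6 7 [4, 4, 4, 5, 22, 22] [123, 116, 106, 96,
    84, 70] [] 100000 21465 21465 1424208 28224 6449 78224 64579 13318 8972 23551) (.L 6 7 [4, 4,
    4, 5, 22, 22] [144, 143, 136, 126, 116, 104] [] 100000 25536 25536 1351837 19266 9633 100000
    50000 13303 10092 13303)) (.E 0)) (.E 0))) (.E 0)) (.E 0)

lemma s22_23_7_5_19 {n : ℕ} (hn : 7 ≤ n) : NoNd (d22_23_7_5.R : ℤ) d22_23_7_5.H n d22_23_7_5.a d22_23_7_5.b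
    (BlkD.inB (BlkD.upd (BlkD.upd (fun _ => 0) 0 4) 0 5)
      (BlkD.upd (BlkD.upd (BlkD.upd (fun _ => 23) 0 7) 2 5) 0 5)) :=
  BlkD.tree_sound (BlkD.pairOk_sound k22_23_7_5) (by decide) hn t22_23_7_5_19 _ _ (by decide +kernel)

/-- certificates of the pair `(7, 5)`, part 20 -/
def t22_23_7_5_20 : BlkD.Tr :=
  .S 0 6 (.S 1 17 (.S 1 8 (.S 1 4 (.S 1 2 (.L 6 7 [4, 4, 4, 5, 22, 22] [] [] 100000 25587 25587
    1407840 46080 11520 83180 69120 5300 12640 31520) (.L 6 7 [4, 4, 4, 5, 22, 22] [] [] 100000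
    3633 3633 1441030 23718 5769 73718 53205 50000 12821 26282)) (.L 6 7 [4, 4, 4, 5, 22, 22] [] []
    100000 32540 13492 1207142 0 17857 119048 50000 0 10714 10714)) (.E 0)) (.E 0)) (.L 6 7 [4, 4,
    4, 5, 22, 22] [] [] 100000 0 0 1436846 0 15789 50000 63158 59211 21053 19737)

lemma s22_23_7_5_20 {n : ℕ} (hn : 7 ≤ n) : NoNd (d22_23_7_5.R : ℤ) d22_23_7_5.H n d22_23_7_5.a d22_23_7_5.b
    (BlkD.inB (BlkD.upd (BlkD.upd (fun _ => 0) 0 4) 0 6)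
      (BlkD.upd (BlkD.upd (fun _ => 23) 0 7) 2 5)) :=
  BlkD.tree_sound (BlkD.pairOk_sound k22_23_7_5) (by decide) hn t22_23_7_5_20 _ _ (by decide +kernel)

/-- certificates of the pair `(7, 5)`, part 21 -/
def t22_23_7_5_21 : BlkD.Tr :=
  .E 1

lemma s22_23_7_5_21 {n : ℕ} (hn : 7 ≤ n) : NoNd (d22_23_7_5.R : ℤ) d22_23_7_5.H n d22_23_7_5.a d22_23_7_5.b
    (BlkD.inB (BlkD.upd (fun _ => 0) 2 6)
      (BlkD.upd (fun _ => 23) 0 7)) :=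
  BlkD.tree_sound (BlkD.pairOk_sound k22_23_7_5) (by decide) hn t22_23_7_5_21 _ _ (by decide +kernel)

/-- certificates of the pair `(7, 5)`, part 22 -/
def t22_23_7_5_22 : BlkD.Tr :=
  .E 0

lemma s22_23_7_5_22 {n : ℕ} (hn : 7 ≤ n) : NoNd (d22_23_7_5.R : ℤ) d22_23_7_5.H n d22_23_7_5.a d22_23_7_5.b
    (BlkD.inB (BlkD.upd (fun _ => 0) 0 8)
      (fun _ => 23)) :=
  BlkD.tree_sound (BlkD.pairOk_sound k22_23_7_5) (by decide) hn t22_23_7_5_22 _ _ (by decide +kernel)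

lemma pr22_23_7_5 {n : ℕ} (hn : 7 ≤ n) : NoPr ((22 : ℕ) : ℤ) ((23 : ℕ) : ℤ) n 7 5 :=
  BlkD.of_root (R := d22_23_7_5.R) (H := d22_23_7_5.H) (a := d22_23_7_5.a) (b := d22_23_7_5.b) (q := 5) (by decide) hn
    (BlkD.sp 0 7 (BlkD.sp 2 5 (BlkD.sp 0 3 (BlkD.sp 0 1 (BlkD.sp 0 0 (s22_23_7_5_1 hn) (BlkD.sp 1
      11 (BlkD.sp 1 5 (s22_23_7_5_2 hn) (BlkD.sp 1 8 (s22_23_7_5_3 hn) (s22_23_7_5_4 hn)))
      (s22_23_7_5_5 hn))) (BlkD.sp 0 2 (BlkD.sp 1 11 (BlkD.sp 1 5 (s22_23_7_5_6 hn) (BlkD.sp 1 8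
      (BlkD.sp 1 7 (s22_23_7_5_7 hn) (s22_23_7_5_8 hn)) (s22_23_7_5_9 hn))) (s22_23_7_5_10 hn))
      (BlkD.sp 1 20 (BlkD.sp 1 10 (BlkD.sp 1 5 (s22_23_7_5_11 hn) (s22_23_7_5_12 hn))
      (s22_23_7_5_13 hn)) (s22_23_7_5_14 hn)))) (BlkD.sp 0 5 (BlkD.sp 0 4 (BlkD.sp 1 19 (BlkD.sp 1
      9 (BlkD.sp 1 4 (s22_23_7_5_15 hn) (s22_23_7_5_16 hn)) (s22_23_7_5_17 hn)) (s22_23_7_5_18 hn))
      (s22_23_7_5_19 hn)) (s22_23_7_5_20 hn))) (s22_23_7_5_21 hn)) (s22_23_7_5_22 hn))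

end BlkC

end Pool.Agent.Lib.MP_f04ccf_co
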