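import Pool.Agent.Lib.MP_f04ccf_co.M.BlkT

/-!
MP_f04ccf_co, block certificate, data `R = 22`, `H = 23`, part 9 (generated, helper99:
bd10.cpp, gen2.py).
-/

set_option autoImplicit false
set_option maxRecDepth 100000

namespace Pool.Agent.Lib.MP_f04ccf_co

namespace BlkC

/-- the numbers of the pair `(7, 6)`, `R = 22`, `H = 23` -/
def d22_23_7_6 : BlkD.Pd :=
  ⟨22, 23, 5, 7, 6, 7, 2, 3, 2, 2, 8, 0, 2, 2, 8, 0, [0, 8, 16, 20, 22, 24, 26, 28], [0, 8, 16, 20,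
    22, 24, 26, 28], [⟨1, 1, 1, 4, 8, [0, 4], [0, 4]⟩, ⟨1, 1, 1, 4, 12, [0, 6], [0, 6]⟩, ⟨1, 1, 1,
    4, 16, [0, 8], [0, 8]⟩]⟩

lemma k22_23_7_6 : BlkD.pairOk d22_23_7_6 = true := by decide +kernel

/-- certificates of the pair `(7, 6)`, part 1 -/
def t22_23_7_6_1 : BlkD.Tr :=
  .L 6 7 [4, 4, 4, 22, 22, 22, 22] [] [] 100000 0 0 1598736 22785 11392 53165 41772 5063 5823 11899

lemma s22_23_7_6_1 {n : ℕ} (hn : 7 ≤ n) : NoNd (d22_23_7_6.R : ℤ) d22_23_7_6.H n d22_23_7_6.a d22_23_7_6.b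
    (BlkD.inB (fun _ => 0)
      (BlkD.upd (BlkD.upd (BlkD.upd (BlkD.upd (BlkD.upd (fun _ => 23) 0 7) 2 6) 0 3) 0 1) 0 0)) :=
  BlkD.tree_sound (BlkD.pairOk_sound k22_23_7_6) (by decide) hn t22_23_7_6_1 _ _ (by decide +kernel)

/-- certificates of the pair `(7, 6)`, part 2 -/
def t22_23_7_6_2 : BlkD.Tr :=
  .S 1 2 (.L 6 7 [4, 4, 4, 22, 22, 22, 22] [] [] 100000 0 0 1598736 22785 11392 53165 41772 5063
    5823 11899) (.S 1 4 (.L 6 7 [4, 4, 4, 22, 22, 22, 22] [] [] 100000 0 0 1598736 22785 11392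
    53165 41772 5063 5823 11899) (.L 6 7 [4, 4, 4, 22, 22, 22, 22] [82, 74, 66, 56, 44, 30] []
    100000 0 0 1598736 22785 11392 53165 41772 5063 5823 11899))

lemma s22_23_7_6_2 {n : ℕ} (hn : 7 ≤ n) : NoNd (d22_23_7_6.R : ℤ) d22_23_7_6.H n d22_23_7_6.a d22_23_7_6.b
    (BlkD.inB (BlkD.upd (fun _ => 0) 0 1)
      (BlkD.upd (BlkD.upd (BlkD.upd (BlkD.upd (BlkD.upd (BlkD.upd (fun _ => 23) 0 7) 2 6) 0 3) 0 1) 1 11) 1 5)) :=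
  BlkD.tree_sound (BlkD.pairOk_sound k22_23_7_6) (by decide) hn t22_23_7_6_2 _ _ (by decide +kernel)

/-- certificates of the pair `(7, 6)`, part 3 -/
def t22_23_7_6_3 : BlkD.Tr :=
  .S 1 7 (.L 6 7 [4, 4, 4, 22, 22, 22, 22] [] [] 100000 0 0 1598736 22785 11392 53165 41772 5063
    5823 11899) (.L 6 7 [4, 4, 4, 22, 22, 22, 22] [132, 130, 128, 124, 116, 108] [] 100000 0 0
    1598736 22785 11392 53165 41772 5063 5823 11899)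

lemma s22_23_7_6_3 {n : ℕ} (hn : 7 ≤ n) : NoNd (d22_23_7_6.R : ℤ) d22_23_7_6.H n d22_23_7_6.a d22_23_7_6.b
    (BlkD.inB (BlkD.upd (BlkD.upd (fun _ => 0) 0 1) 1 6)
      (BlkD.upd (BlkD.upd (BlkD.upd (BlkD.upd (BlkD.upd (BlkD.upd (fun _ => 23) 0 7) 2 6) 0 3) 0 1) 1 11) 1 8)) :=
  BlkD.tree_sound (BlkD.pairOk_sound k22_23_7_6) (by decide) hn t22_23_7_6_3 _ _ (by decide +kernel)

/-- certificates of the pair `(7, 6)`, part 4 -/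
def t22_23_7_6_4 : BlkD.Tr :=
  .L 6 7 [4, 4, 4, 22, 22, 22, 22] [] [] 100000 0 0 1598736 22785 11392 53165 41772 5063 5823 11899

lemma s22_23_7_6_4 {n : ℕ} (hn : 7 ≤ n) : NoNd (d22_23_7_6.R : ℤ) d22_23_7_6.H n d22_23_7_6.a d22_23_7_6.b
    (BlkD.inB (BlkD.upd (BlkD.upd (BlkD.upd (fun _ => 0) 0 1) 1 6) 1 9)
      (BlkD.upd (BlkD.upd (BlkD.upd (BlkD.upd (BlkD.upd (fun _ => 23) 0 7) 2 6) 0 3) 0 1) 1 11)) :=
  BlkD.tree_sound (BlkD.pairOk_sound k22_23_7_6) (by decide) hn t22_23_7_6_4 _ _ (by decide +kernel)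

/-- certificates of the pair `(7, 6)`, part 5 -/
def t22_23_7_6_5 : BlkD.Tr :=
  .L 6 7 [4, 4, 4, 22, 22, 22, 22] [] [] 100000 0 0 1598736 22785 11392 53165 41772 5063 5823 11899

lemma s22_23_7_6_5 {n : ℕ} (hn : 7 ≤ n) : NoNd (d22_23_7_6.R : ℤ) d22_23_7_6.H n d22_23_7_6.a d22_23_7_6.b
    (BlkD.inB (BlkD.upd (BlkD.upd (fun _ => 0) 0 1) 1 12)
      (BlkD.upd (BlkD.upd (BlkD.upd (BlkD.upd (fun _ => 23) 0 7) 2 6) 0 3) 0 1)) :=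
  BlkD.tree_sound (BlkD.pairOk_sound k22_23_7_6) (by decide) hn t22_23_7_6_5 _ _ (by decide +kernel)

/-- certificates of the pair `(7, 6)`, part 6 -/
def t22_23_7_6_6 : BlkD.Tr :=
  .S 1 2 (.L 6 7 [4, 4, 4, 22, 22, 22, 22] [] [] 100000 0 0 1598736 22785 11392 53165 41772 5063
    5823 11899) (.L 6 7 [4, 4, 4, 22, 22, 22, 22] [] [] 100000 0 0 1598736 22785 11392 53165 41772
    5063 5823 11899)

lemma s22_23_7_6_6 {n : ℕ} (hn : 7 ≤ n) : NoNd (d22_23_7_6.R : ℤ) d22_23_7_6.H n d22_23_7_6.a d22_23_7_6.b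
    (BlkD.inB (BlkD.upd (fun _ => 0) 0 2)
      (BlkD.upd (BlkD.upd (BlkD.upd (BlkD.upd (BlkD.upd (BlkD.upd (fun _ => 23) 0 7) 2 6) 0 3) 0 2) 1 11) 1 5)) :=
  BlkD.tree_sound (BlkD.pairOk_sound k22_23_7_6) (by decide) hn t22_23_7_6_6 _ _ (by decide +kernel)

/-- certificates of the pair `(7, 6)`, part 7 -/
def t22_23_7_6_7 : BlkD.Tr :=
  .S 1 7 (.L 6 7 [4, 4, 4, 22, 22, 22, 22] [] [] 100000 0 0 1598736 22785 11392 53165 41772 5063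
    5823 11899) (.L 6 7 [4, 4, 4, 22, 22, 22, 22] [148, 146, 144, 140, 132, 124] [] 100000 0 0
    1598736 22785 11392 53165 41772 5063 5823 11899)

lemma s22_23_7_6_7 {n : ℕ} (hn : 7 ≤ n) : NoNd (d22_23_7_6.R : ℤ) d22_23_7_6.H n d22_23_7_6.a d22_23_7_6.b
    (BlkD.inB (BlkD.upd (BlkD.upd (fun _ => 0) 0 2) 1 6)
      (BlkD.upd (BlkD.upd (BlkD.upd (BlkD.upd (BlkD.upd (BlkD.upd (fun _ => 23) 0 7) 2 6) 0 3) 0 2) 1 11) 1 8)) :=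
  BlkD.tree_sound (BlkD.pairOk_sound k22_23_7_6) (by decide) hn t22_23_7_6_7 _ _ (by decide +kernel)

/-- certificates of the pair `(7, 6)`, part 8 -/
def t22_23_7_6_8 : BlkD.Tr :=
  .L 6 7 [4, 4, 4, 22, 22, 22, 22] [] [] 100000 0 0 1598736 22785 11392 53165 41772 5063 5823 11899

lemma s22_23_7_6_8 {n : ℕ} (hn : 7 ≤ n) : NoNd (d22_23_7_6.R : ℤ) d22_23_7_6.H n d22_23_7_6.a d22_23_7_6.b
    (BlkD.inB (BlkD.upd (BlkD.upd (BlkD.upd (fun _ => 0) 0 2) 1 6) 1 9)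
      (BlkD.upd (BlkD.upd (BlkD.upd (BlkD.upd (BlkD.upd (fun _ => 23) 0 7) 2 6) 0 3) 0 2) 1 11)) :=
  BlkD.tree_sound (BlkD.pairOk_sound k22_23_7_6) (by decide) hn t22_23_7_6_8 _ _ (by decide +kernel)

/-- certificates of the pair `(7, 6)`, part 9 -/
def t22_23_7_6_9 : BlkD.Tr :=
  .L 6 7 [4, 4, 4, 22, 22, 22, 22] [] [] 100000 0 0 1598736 22785 11392 53165 41772 5063 5823 11899

lemma s22_23_7_6_9 {n : ℕ} (hn : 7 ≤ n) : NoNd (d22_23_7_6.R : ℤ) d22_23_7_6.H n d22_23_7_6.a d22_23_7_6.b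
    (BlkD.inB (BlkD.upd (BlkD.upd (fun _ => 0) 0 2) 1 12)
      (BlkD.upd (BlkD.upd (BlkD.upd (BlkD.upd (fun _ => 23) 0 7) 2 6) 0 3) 0 2)) :=
  BlkD.tree_sound (BlkD.pairOk_sound k22_23_7_6) (by decide) hn t22_23_7_6_9 _ _ (by decide +kernel)

/-- certificates of the pair `(7, 6)`, part 10 -/
def t22_23_7_6_10 : BlkD.Tr :=
  .S 1 2 (.L 6 7 [4, 4, 4, 22, 22, 22, 22] [] [] 100000 0 0 1598736 22785 11392 53165 41772 5063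
    5823 11899) (.S 1 4 (.L 6 7 [4, 4, 4, 22, 22, 22, 22] [] [] 100000 0 0 1598736 22785 11392
    53165 41772 5063 5823 11899) (.L 6 7 [4, 4, 4, 22, 22, 22, 22] [102, 94, 86, 76, 64, 50] []
    100000 0 0 1598736 22785 11392 53165 41772 5063 5823 11899))

lemma s22_23_7_6_10 {n : ℕ} (hn : 7 ≤ n) : NoNd (d22_23_7_6.R : ℤ) d22_23_7_6.H n d22_23_7_6.a d22_23_7_6.b
    (BlkD.inB (BlkD.upd (BlkD.upd (fun _ => 0) 0 2) 0 3)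
      (BlkD.upd (BlkD.upd (BlkD.upd (BlkD.upd (BlkD.upd (fun _ => 23) 0 7) 2 6) 0 3) 1 11) 1 5)) :=
  BlkD.tree_sound (BlkD.pairOk_sound k22_23_7_6) (by decide) hn t22_23_7_6_10 _ _ (by decide +kernel)

/-- certificates of the pair `(7, 6)`, part 11 -/
def t22_23_7_6_11 : BlkD.Tr :=
  .S 1 8 (.S 1 7 (.S 1 6 (.L 6 7 [4, 4, 4, 22, 22, 22, 22] [122, 118, 110, 102, 92, 80] [] 100000 0
    0 1598736 22785 11392 53165 41772 5063 5823 11899) (.L 6 7 [4, 4, 4, 22, 22, 22, 22] [142, 140,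
    136, 128, 120, 110] [] 100000 0 0 1598736 22785 11392 53165 41772 5063 5823 11899)) (.L 6 7 [4,
    4, 4, 22, 22, 22, 22] [164, 162, 160, 156, 148, 140] [] 100000 0 0 1598736 22785 11392 53165
    41772 5063 5823 11899)) (.L 6 7 [4, 4, 4, 22, 22, 22, 22] [] [] 100000 0 0 1598736 22785 11392
    53165 41772 5063 5823 11899)

lemma s22_23_7_6_11 {n : ℕ} (hn : 7 ≤ n) : NoNd (d22_23_7_6.R : ℤ) d22_23_7_6.H n d22_23_7_6.a d22_23_7_6.b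
    (BlkD.inB (BlkD.upd (BlkD.upd (BlkD.upd (fun _ => 0) 0 2) 0 3) 1 6)
      (BlkD.upd (BlkD.upd (BlkD.upd (BlkD.upd (fun _ => 23) 0 7) 2 6) 0 3) 1 11)) :=
  BlkD.tree_sound (BlkD.pairOk_sound k22_23_7_6) (by decide) hn t22_23_7_6_11 _ _ (by decide +kernel)

/-- certificates of the pair `(7, 6)`, part 12 -/
def t22_23_7_6_12 : BlkD.Tr :=
  .L 6 7 [4, 4, 4, 22, 22, 22, 22] [] [] 100000 0 0 1598736 22785 11392 53165 41772 5063 5823 11899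

lemma s22_23_7_6_12 {n : ℕ} (hn : 7 ≤ n) : NoNd (d22_23_7_6.R : ℤ) d22_23_7_6.H n d22_23_7_6.a d22_23_7_6.b
    (BlkD.inB (BlkD.upd (BlkD.upd (BlkD.upd (fun _ => 0) 0 2) 0 3) 1 12)
      (BlkD.upd (BlkD.upd (BlkD.upd (fun _ => 23) 0 7) 2 6) 0 3)) :=
  BlkD.tree_sound (BlkD.pairOk_sound k22_23_7_6) (by decide) hn t22_23_7_6_12 _ _ (by decide +kernel)

/-- certificates of the pair `(7, 6)`, part 13 -/
def t22_23_7_6_13 : BlkD.Tr :=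
  .L 6 7 [4, 4, 4, 22, 22, 22, 22] [] [] 100000 1 1 1538234 29412 14706 64706 55882 5882 5882 17647

lemma s22_23_7_6_13 {n : ℕ} (hn : 7 ≤ n) : NoNd (d22_23_7_6.R : ℤ) d22_23_7_6.H n d22_23_7_6.a d22_23_7_6.b
    (BlkD.inB (BlkD.upd (fun _ => 0) 0 4)
      (BlkD.upd (BlkD.upd (BlkD.upd (BlkD.upd (BlkD.upd (BlkD.upd (BlkD.upd (fun _ => 23) 0 7) 2 6) 0 5) 0 4) 1 19) 1 9) 1 4)) :=
  BlkD.tree_sound (BlkD.pairOk_sound k22_23_7_6) (by decide) hn t22_23_7_6_13 _ _ (by decide +kernel)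

/-- certificates of the pair `(7, 6)`, part 14 -/
def t22_23_7_6_14 : BlkD.Tr :=
  .S 1 7 (.S 1 6 (.L 6 7 [4, 4, 4, 22, 22, 22, 22] [] [] 100000 0 0 1590875 21826 12472 56570 50445
    5791 5791 10245) (.L 6 7 [4, 4, 4, 22, 22, 22, 22] [156, 154, 150, 142, 134, 124] [] 100000 2 2
    1525805 38710 4839 83871 32258 10000 0 28710)) (.L 6 7 [4, 4, 4, 22, 22, 22, 22] [] [] 100000
    28572 1 1300001 7143 25000 128571 50000 0 0 0)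

lemma s22_23_7_6_14 {n : ℕ} (hn : 7 ≤ n) : NoNd (d22_23_7_6.R : ℤ) d22_23_7_6.H n d22_23_7_6.a d22_23_7_6.b
    (BlkD.inB (BlkD.upd (BlkD.upd (fun _ => 0) 0 4) 1 5)
      (BlkD.upd (BlkD.upd (BlkD.upd (BlkD.upd (BlkD.upd (BlkD.upd (fun _ => 23) 0 7) 2 6) 0 5) 0 4) 1 19) 1 9)) :=
  BlkD.tree_sound (BlkD.pairOk_sound k22_23_7_6) (by decide) hn t22_23_7_6_14 _ _ (by decide +kernel)

/-- certificates of the pair `(7, 6)`, part 15 -/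
def t22_23_7_6_15 : BlkD.Tr :=
  .E 0

lemma s22_23_7_6_15 {n : ℕ} (hn : 7 ≤ n) : NoNd (d22_23_7_6.R : ℤ) d22_23_7_6.H n d22_23_7_6.a d22_23_7_6.b
    (BlkD.inB (BlkD.upd (BlkD.upd (fun _ => 0) 0 4) 1 10)
      (BlkD.upd (BlkD.upd (BlkD.upd (BlkD.upd (BlkD.upd (fun _ => 23) 0 7) 2 6) 0 5) 0 4) 1 19)) :=
  BlkD.tree_sound (BlkD.pairOk_sound k22_23_7_6) (by decide) hn t22_23_7_6_15 _ _ (by decide +kernel)

/-- certificates of the pair `(7, 6)`, part 16 -/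
def t22_23_7_6_16 : BlkD.Tr :=
  .E 0

lemma s22_23_7_6_16 {n : ℕ} (hn : 7 ≤ n) : NoNd (d22_23_7_6.R : ℤ) d22_23_7_6.H n d22_23_7_6.a d22_23_7_6.b
    (BlkD.inB (BlkD.upd (BlkD.upd (fun _ => 0) 0 4) 1 20)
      (BlkD.upd (BlkD.upd (BlkD.upd (BlkD.upd (fun _ => 23) 0 7) 2 6) 0 5) 0 4)) :=
  BlkD.tree_sound (BlkD.pairOk_sound k22_23_7_6) (by decide) hn t22_23_7_6_16 _ _ (by decide +kernel)

/-- certificates of the pair `(7, 6)`, part 17 -/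
def t22_23_7_6_17 : BlkD.Tr :=
  .S 1 18 (.S 1 9 (.S 1 4 (.L 6 7 [4, 4, 4, 22, 22, 22, 22] [] [] 100000 0 0 1567002 29557 14778
    50493 48768 6897 6897 15764) (.L 6 7 [4, 4, 4, 22, 22, 22, 22] [] [] 100000 0 0 1571431 10714
    7143 89286 82143 3571 1531 5612)) (.E 0)) (.E 0)

lemma s22_23_7_6_17 {n : ℕ} (hn : 7 ≤ n) : NoNd (d22_23_7_6.R : ℤ) d22_23_7_6.H n d22_23_7_6.a d22_23_7_6.b
    (BlkD.inB (BlkD.upd (BlkD.upd (fun _ => 0) 0 4) 0 5)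
      (BlkD.upd (BlkD.upd (BlkD.upd (fun _ => 23) 0 7) 2 6) 0 5)) :=
  BlkD.tree_sound (BlkD.pairOk_sound k22_23_7_6) (by decide) hn t22_23_7_6_17 _ _ (by decide +kernel)

/-- certificates of the pair `(7, 6)`, part 18 -/
def t22_23_7_6_18 : BlkD.Tr :=
  .L 6 7 [4, 4, 4, 22, 22, 22, 22] [] [] 100000 0 0 1588237 5882 5882 94118 88235 0 0 5882

lemma s22_23_7_6_18 {n : ℕ} (hn : 7 ≤ n) : NoNd (d22_23_7_6.R : ℤ) d22_23_7_6.H n d22_23_7_6.a d22_23_7_6.b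
    (BlkD.inB (BlkD.upd (BlkD.upd (fun _ => 0) 0 4) 0 6)
      (BlkD.upd (BlkD.upd (fun _ => 23) 0 7) 2 6)) :=
  BlkD.tree_sound (BlkD.pairOk_sound k22_23_7_6) (by decide) hn t22_23_7_6_18 _ _ (by decide +kernel)

/-- certificates of the pair `(7, 6)`, part 19 -/
def t22_23_7_6_19 : BlkD.Tr :=
  .E 1

lemma s22_23_7_6_19 {n : ℕ} (hn : 7 ≤ n) : NoNd (d22_23_7_6.R : ℤ) d22_23_7_6.H n d22_23_7_6.a d22_23_7_6.b
    (BlkD.inB (BlkD.upd (fun _ => 0) 2 7)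
      (BlkD.upd (fun _ => 23) 0 7)) :=
  BlkD.tree_sound (BlkD.pairOk_sound k22_23_7_6) (by decide) hn t22_23_7_6_19 _ _ (by decide +kernel)

/-- certificates of the pair `(7, 6)`, part 20 -/
def t22_23_7_6_20 : BlkD.Tr :=
  .E 0

lemma s22_23_7_6_20 {n : ℕ} (hn : 7 ≤ n) : NoNd (d22_23_7_6.R : ℤ) d22_23_7_6.H n d22_23_7_6.a d22_23_7_6.b
    (BlkD.inB (BlkD.upd (fun _ => 0) 0 8)
      (fun _ => 23)) :=
  BlkD.tree_sound (BlkD.pairOk_sound k22_23_7_6) (by decide) hn t22_23_7_6_20 _ _ (by decide +kernel)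

lemma pr22_23_7_6 {n : ℕ} (hn : 7 ≤ n) : NoPr ((22 : ℕ) : ℤ) ((23 : ℕ) : ℤ) n 7 6 :=
  BlkD.of_root (R := d22_23_7_6.R) (H := d22_23_7_6.H) (a := d22_23_7_6.a) (b := d22_23_7_6.b) (q := 5) (by decide) hn
    (BlkD.sp 0 7 (BlkD.sp 2 6 (BlkD.sp 0 3 (BlkD.sp 0 1 (BlkD.sp 0 0 (s22_23_7_6_1 hn) (BlkD.sp 1
      11 (BlkD.sp 1 5 (s22_23_7_6_2 hn) (BlkD.sp 1 8 (s22_23_7_6_3 hn) (s22_23_7_6_4 hn)))
      (s22_23_7_6_5 hn))) (BlkD.sp 0 2 (BlkD.sp 1 11 (BlkD.sp 1 5 (s22_23_7_6_6 hn) (BlkD.sp 1 8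
      (s22_23_7_6_7 hn) (s22_23_7_6_8 hn))) (s22_23_7_6_9 hn)) (BlkD.sp 1 11 (BlkD.sp 1 5
      (s22_23_7_6_10 hn) (s22_23_7_6_11 hn)) (s22_23_7_6_12 hn)))) (BlkD.sp 0 5 (BlkD.sp 0 4
      (BlkD.sp 1 19 (BlkD.sp 1 9 (BlkD.sp 1 4 (s22_23_7_6_13 hn) (s22_23_7_6_14 hn)) (s22_23_7_6_15
      hn)) (s22_23_7_6_16 hn)) (s22_23_7_6_17 hn)) (s22_23_7_6_18 hn))) (s22_23_7_6_19 hn))
      (s22_23_7_6_20 hn))

end BlkC

end Pool.Agent.Lib.MP_f04ccf_co
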