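import Pool.Agent.Lib.MP_f04ccf_co.M.BlkF

/-!
MP_f04ccf_co, PLAN W, block certificate: **the pair test of any two rows in naturals**.
`Bk.Wd.EXg`: the energy of a row without the excess of one cell; `Bk.Wd.LDg`: the pair test of two rows
with the PC pairs, singles and doubled tails of both hosts; `Bk.Wd.LD0`, `Bk.Wd.LD1`: a row of the block
and a rest row, with the bound `nr` per PC pair in the rest.
-/

set_option autoImplicit false

namespace Pool.Agent.Lib.MP_f04ccf_co

open Finset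

namespace Bk

namespace Wd

variable {R n : ℕ} {t h mu : ℕ → ℕ} {q : ℕ → ℕ → ℕ} {s e : ℕ → ℤ} {P A D : ℕ → ℕ → ℕ}
  {N W : ℕ → ℕ → ℤ}

/-- the energy of a row without the excess of the cell `x z` -/
theorem EXg (H : Wd R n t h mu q s e P A D N W) {x z : ℕ} (hx : x < n) (hz : z < n)
    (hxz : x ≠ z) {G : ℕ} (hG : ∑ j ∈ ((range n).erase x).erase z, N x j ≤ (G : ℤ)) :
    2 * e x ≤ ((2 * (mu x * h x) - mu x * (mu x + 1) + G : ℕ) : ℤ) + N x z := by
  have h3 := H.C.en x hx
  rw [← add_sum_erase _ _ (mem_erase.2 ⟨hxz.symm, mem_range.2 hz⟩)] at h3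
  have h8 := H.C.muh x hx
  have h9 : mu x ≤ h x := by exact_mod_cast h8
  have h10 : mu x * (mu x + 1) ≤ 2 * (mu x * h x) := by
    rcases Nat.eq_zero_or_pos (mu x) with h | h <;> nlinarith
  rw [Nat.cast_add, Nat.cast_sub h10]
  push_cast
  linarith

/-- **the pair test of two rows** -/
theorem LDg (H : Wd R n t h mu q s e P A D N W) {x z : ℕ} (hx : x < n) (hz : z < n)
    (hxz : x ≠ z) (h5 : P x z + P z x ≤ 5) {F0 F1 : ℕ}
    (hF0 : 2 * e x ≤ (F0 : ℤ) + N x z) (hF1 : 2 * e z ≤ (F1 : ℤ) + N z x) :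
    2 * ((R - 1) * (h x + h z) + h x * (t z + 1) + h z * (t x + 1)
      + (P x z * (R - t z) + A x z * w R t q x z + D x z * (R - t z + w R t q x z))
      + (P z x * (R - t x) + A z x * w R t q z x + D z x * (R - t x + w R t q z x)))
      ≤ F0 + F1 + nt (P x z) (P z x)
        + 2 * (R + 1 + h x * h z + (t x + 1) * (t z + 1) + (R - 1) * (t x + t z + 2)) := by
  have h1 := H.C.pair x hx z hz hxz
  have h2 := H.nt_spec hx hz hxz h5
  have hR0 := H.C.tR x hx
  have hR1 := H.C.tR z hz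
  have r0 : t x + 1 ≤ R := by exact_mod_cast hR0
  have r1 : t z + 1 ≤ R := by exact_mod_cast hR1
  have c0 : ((R - t x : ℕ) : ℤ) = R - t x := by rw [Nat.cast_sub (by omega)]
  have c1 : ((R - t z : ℕ) : ℤ) = R - t z := by rw [Nat.cast_sub (by omega)]
  have cR : ((R - 1 : ℕ) : ℤ) = R - 1 := by
    rw [Nat.cast_sub (by omega)]
    norm_num
  have w01 : ((w R t q x z : ℕ) : ℤ) = max 0 ((R : ℤ) - t z - q x z) := by
    unfold w
    omega
  have w10 : ((w R t q z x : ℕ) : ℤ) = max 0 ((R : ℤ) - t x - q z x) := by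
    unfold w
    omega
  rw [← w01, ← w10] at h1
  have a0 := H.C.hh x hx
  have a1 := H.C.hh z hz
  have s0 : s x = (h x : ℤ) - t x - 1 := by linarith
  have s1 : s z = (h z : ℤ) - t z - 1 := by linarith
  rw [s0, s1] at h1
  zify [c0, c1, cR]
  nlinarith

/-- a bound per PC pair in the rest -/
theorem nr_spec (H : Wd R n t h mu q s e P A D N W) {x : ℕ} (hx : x < n) {nr tm : ℕ}
    (htm : ∀ y ∈ Ico 2 n, y ≠ x → t y ≤ tm)
    (hnr : ∀ g, 1 ≤ g → (g - 1) * R ≤ t x * tm + g * g → fx R (t x * tm) g ≤ g * nr)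
    {y : ℕ} (hy : y ∈ Ico 2 n) (hyx : y ≠ x) : N x y ≤ ((P x y * nr : ℕ) : ℤ) := by
  have hyn := (mem_Ico.1 hy).2
  have h1 := H.fx_spec hx hyn (Ne.symm hyx)
  have h2 := htm y hy hyx
  have h3 : t x * t y ≤ t x * tm := Nat.mul_le_mul_left _ h2
  have isqle : ∀ v : ℕ, Ld.isq v ^ 2 ≤ v := by
    intro v
    have key : ∀ f r : ℕ, r ^ 2 ≤ v → Ld.isqF v f r ^ 2 ≤ v := by
      intro f
      induction f with
      | zero =>
        intro r h
        exact h
      | succ f ih =>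
        intro r h
        have h0 : Ld.isqF v (f + 1) r = Bool.rec (motive := fun _ => ℕ) r
          (Ld.isqF v f (Nat.succ r)) (Nat.ble (Nat.mul (Nat.succ r) (Nat.succ r)) v) := rfl
        rw [h0]
        rcases h1 : Nat.ble (Nat.mul (Nat.succ r) (Nat.succ r)) v with _ | _
        · exact h
        · refine ih (Nat.succ r) ?_
          have h2 : (r + 1) * (r + 1) ≤ v := Nat.le_of_ble_eq_true h1
          show (r + 1) ^ 2 ≤ v
          nlinarith
    exact key v 0 (by simp)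
  have mono : ∀ a b : ℕ, a ≤ b → Ld.isq a ≤ Ld.isq b := by
    intro a b hab
    by_contra h4
    push Not at h4
    have h5 := isqle a
    have h6 := Ld.isq_spec b
    have h7 : (Ld.isq b + 1) ^ 2 ≤ Ld.isq a ^ 2 := Nat.pow_le_pow_left h4 2
    omega
  rcases h0 : P x y with _ | g
  · rw [h0] at h1
    rw [Nat.zero_mul]
    exact h1
  · have h4 := H.C.jn x hx y hyn (Ne.symm hyx) (g + 1) (by omega)
    have h5 : g * R ≤ t x * t y + (g + 1) * (g + 1) := by
      zify
      push_cast at h4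
      nlinarith
    have h6 := hnr (g + 1) (by omega) (by
      rw [Nat.add_sub_cancel]
      omega)
    rw [h0] at h1
    have h7 : fx R (t x * t y) (g + 1) ≤ fx R (t x * tm) (g + 1) := by
      show (g + 1) * (3 * g + 2 + 2 * Ld.isq (t x * t y + (g + 1) * (g + 1) - g * R))
        ≤ (g + 1) * (3 * g + 2 + 2 * Ld.isq (t x * tm + (g + 1) * (g + 1) - g * R))
      refine Nat.mul_le_mul_left _ ?_
      have := mono _ _ (show t x * t y + (g + 1) * (g + 1) - g * R
        ≤ t x * tm + (g + 1) * (g + 1) - g * R by omega)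
      omega
    have h8 : (((fx R (t x * t y) (g + 1)) : ℕ) : ℤ) ≤ (((g + 1) * nr : ℕ) : ℤ) := by
      exact_mod_cast h7.trans h6
    exact h1.trans h8

/-- the energy of a row of the block without the excess of the cells `x z` and `x x'` -/
theorem EB (H : Wd R n t h mu q s e P A D N W) {x x' z : ℕ} (hx : x < n) (hx' : x' < n)
    (hz : z ∈ Ico 2 n) (hxx : (x = 0 ∧ x' = 1) ∨ (x = 1 ∧ x' = 0)) {nr f : ℕ}
    (hf : N x x' ≤ (f : ℤ)) (hnr : ∀ y ∈ Ico 2 n, N x y ≤ ((P x y * nr : ℕ) : ℤ)) :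
    2 * e x ≤ ((2 * (mu x * h x) - mu x * (mu x + 1)
      + (f + (∑ y ∈ Ico 2 n, P x y - P x z) * nr) : ℕ) : ℤ) + N x z := by
  have hzn := (mem_Ico.1 hz).2
  have hz2 := (mem_Ico.1 hz).1
  refine H.EXg hx hzn (by omega) ?_
  have h1 : ((range n).erase x).erase z = insert x' ((Ico 2 n).erase z) := by
    ext y
    simp only [mem_erase, mem_range, mem_insert, mem_Ico]
    omega
  have h2 : x' ∉ (Ico 2 n).erase z := by
    simp only [mem_erase, mem_Ico]
    omega
  rw [h1, sum_insert h2]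
  have h3 := sum_le_sum (s := (Ico 2 n).erase z) fun y hy => hnr y (mem_of_mem_erase hy)
  have h4 : ∑ y ∈ (Ico 2 n).erase z, (P x y * nr) = (∑ y ∈ Ico 2 n, P x y - P x z) * nr := by
    rw [← sum_mul, ← add_sum_erase _ (fun y => P x y) hz, Nat.add_sub_cancel_left]
  have h5 : ∑ y ∈ (Ico 2 n).erase z, ((P x y * nr : ℕ) : ℤ)
      = (((∑ y ∈ Ico 2 n, P x y - P x z) * nr : ℕ) : ℤ) := by
    rw [← h4]
    push_cast
    rfl
  rw [h5] at h3
  push_cast at h3 ⊢
  linarith

/-- the energy of a rest row without the excess of the cell with the row `x` of the block -/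
theorem ER (H : Wd R n t h mu q s e P A D N W) {x x' z : ℕ} (hz : z ∈ Ico 2 n)
    (hxx : (x = 0 ∧ x' = 1) ∨ (x = 1 ∧ x' = 0)) {nr f : ℕ} (hf : N z x' ≤ (f : ℤ))
    (hnr : ∀ y ∈ (Ico 2 n).erase z, N z y ≤ ((P z y * nr : ℕ) : ℤ)) :
    2 * e z ≤ ((2 * (mu z * h z) - mu z * (mu z + 1)
      + (f + (∑ y ∈ (Ico 2 n).erase z, P z y) * nr) : ℕ) : ℤ) + N z x := by
  have hzn := (mem_Ico.1 hz).2
  have hz2 := (mem_Ico.1 hz).1
  refine H.EXg hzn (by omega) (by omega) ?_
  have h1 : ((range n).erase z).erase x = insert x' ((Ico 2 n).erase z) := by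
    ext y
    simp only [mem_erase, mem_range, mem_insert, mem_Ico]
    omega
  have h2 : x' ∉ (Ico 2 n).erase z := by
    simp only [mem_erase, mem_Ico]
    omega
  rw [h1, sum_insert h2]
  have h3 := sum_le_sum hnr
  push_cast at h3 ⊢
  rw [← sum_mul] at h3
  linarith

end Wd

end Bk

end Pool.Agent.Lib.MP_f04ccf_co
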