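import Pool.Agent.Lib.MP_f04ccf_co.M.BlkB

/-!
MP_f04ccf_co, PLAN W, block certificate: **a rest row in the kernel**.
`BlkR.RowF`: the numbers of a rest row: own PC pairs `g0 g1 gr` with tail 0, 1, rest; PC ends `P0 P1 b` of
the hosts 0, 1, rest; singles and doubled tails `A0 D0 A1 D1` of the hosts; the row test for all
sub-amounts, the pair tests with the rows 0 and 1.
`BlkR.chk`: the computed check, `BlkR.chk_sound`: the value of the row.
-/

set_option autoImplicit false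

namespace Pool.Agent.Lib.MP_f04ccf_co

open Finset Mid BlkB

namespace BlkR

/-- the row test: `X` the left side, `W` the points, `g = 2 h` -/
noncomputable def tk (r g X W : ℕ) : Bool :=
  Nat.ble X (Nat.add r (Nat.mul W (Nat.pred (Nat.add g W))))

lemma tk_eq {r g X W : ℕ} : tk r g X W = true ↔ X ≤ r + W * (g + W - 1) :=
  ⟨fun h => Nat.le_of_ble_eq_true h, fun h => Nat.ble_eq_true_of_le h⟩

/-- the element of a list (`0` outside) -/
noncomputable def nth (l : List ℕ) (i : ℕ) : ℕ :=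
  List.rec (motive := fun _ => ℕ → ℕ) (fun _ => 0)
    (fun v _ ih i => Nat.rec (motive := fun _ => ℕ) v (fun j _ => ih j) i) l i

/-- the loop `i, i + 1, ..` as long as the row test holds -/
noncomputable def lw (dx dw r g : ℕ) (body : ℕ → ℕ → ℕ → Bool) (n : ℕ) : ℕ → ℕ → ℕ → Bool :=
  Nat.rec (motive := fun _ => ℕ → ℕ → ℕ → Bool)
    (fun i X W => Bool.rec (motive := fun _ => Bool) true (body i X W) (tk r g X W))
    (fun _ ih i X W => Bool.rec (motive := fun _ => Bool) true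
      (Bool.rec (motive := fun _ => Bool) false
        (frN (Nat.succ i) fun i' => frN (Nat.add X dx) fun X' => frN (Nat.add W dw) fun W' =>
          ih i' X' W')
        (body i X W)) (tk r g X W)) n

lemma lw_sound {dx dw r g : ℕ} {body : ℕ → ℕ → ℕ → Bool} : ∀ n i X W : ℕ,
    lw dx dw r g body n i X W = true → ∀ j ≤ n,
    (∀ l ≤ j, tk r g (X + l * dx) (W + l * dw) = true) →
    body (i + j) (X + j * dx) (W + j * dw) = true := by
  intro n
  induction n with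
  | zero =>
    intro i X W h j hj ht
    have hj0 : j = 0 := by omega
    subst hj0
    have h1 : (Bool.rec (motive := fun _ => Bool) true (body i X W) (tk r g X W) : Bool) = true := h
    have h2 := ht 0 le_rfl
    simp only [Nat.zero_mul, Nat.add_zero] at h2 ⊢
    rw [h2] at h1
    exact h1
  | succ n ih =>
    intro i X W h j hj ht
    have h1 : (Bool.rec (motive := fun _ => Bool) true
      (Bool.rec (motive := fun _ => Bool) false
        (frN (Nat.succ i) fun i' => frN (Nat.add X dx) fun X' => frN (Nat.add W dw) fun W' =>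
          lw dx dw r g body n i' X' W')
        (body i X W)) (tk r g X W) : Bool) = true := h
    have h2 := ht 0 (Nat.zero_le _)
    simp only [Nat.zero_mul, Nat.add_zero] at h2
    rw [h2] at h1
    simp only [frN_eq] at h1
    rcases h3 : body i X W with _ | _
    · rw [h3] at h1
      exact absurd h1 Bool.false_ne_true
    · rw [h3] at h1
      rcases Nat.eq_zero_or_pos j with h4 | h4
      · subst h4
        simpa using h3
      · obtain ⟨j', rfl⟩ : ∃ j', j = j' + 1 := ⟨j - 1, by omega⟩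
        have h5 := ih _ _ _ h1 j' (by omega) fun l hl => by
          have h6 := ht (l + 1) (by omega)
          have h7 : X + (l + 1) * dx = Nat.add X dx + l * dx := by
            show X + (l + 1) * dx = X + dx + l * dx
            ring
          have h8 : W + (l + 1) * dw = Nat.add W dw + l * dw := by
            show W + (l + 1) * dw = W + dw + l * dw
            ring
          rw [h7, h8] at h6
          exact h6
        have h7 : X + (j' + 1) * dx = Nat.add X dx + j' * dx := by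
          show X + (j' + 1) * dx = X + dx + j' * dx
          ring
        have h8 : W + (j' + 1) * dw = Nat.add W dw + j' * dw := by
          show W + (j' + 1) * dw = W + dw + j' * dw
          ring
        have h9 : i + (j' + 1) = Nat.succ i + j' := by
          show i + (j' + 1) = i + 1 + j'
          ring
        rw [h7, h8, h9]
        exact h5

/-- the singles and doubled tails of one host: `K d a X W` -/
noncomputable def two (ca cd kc u r g : ℕ) (K : ℕ → ℕ → ℕ → ℕ → Bool) (X W : ℕ) : Bool :=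
  lw cd 3 r g (fun d X' W' =>
    frN (mnb (Nat.sub kc d) (Nat.sub u (Nat.mul 2 d))) fun na => lw ca 2 r g (K d) na 0 X' W')
    (mnb kc (Nat.div u 2)) 0 X W

lemma two_sound {ca cd kc u r g : ℕ} {K : ℕ → ℕ → ℕ → ℕ → Bool} {X W : ℕ}
    (h : two ca cd kc u r g K X W = true) {A D : ℕ} (h1 : A + D ≤ kc) (h2 : A + 2 * D ≤ u)
    (ht : ∀ l ≤ D, ∀ i ≤ A, tk r g (X + l * cd + i * ca) (W + l * 3 + i * 2) = true) :
    K D A (X + D * cd + A * ca) (W + D * 3 + A * 2) = true := by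
  have h3 := lw_sound _ _ _ _ h D (by
    rw [mnb_eq]
    have : u.div 2 = u / 2 := rfl
    omega) fun l hl => by
      have := ht l hl 0 (Nat.zero_le _)
      simpa using this
  rw [Nat.zero_add, frN_eq] at h3
  have h4 := lw_sound _ _ _ _ h3 A (by
    rw [mnb_eq]
    have e1 : Nat.sub kc D = kc - D := rfl
    have e2 : Nat.sub u (Nat.mul 2 D) = u - 2 * D := rfl
    omega) fun i hi => ht D le_rfl i hi
  rwa [Nat.zero_add] at h4

/-- the contents of the two hosts -/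
noncomputable def cont (ca0 cd0 ca1 cd1 kc0 kc1 hA0 hD0 hA1 hD1 L0 L1 r g : ℕ)
    (u0 u1 v rb lb0 lim0 lb1 lim1 X W : ℕ) : Bool :=
  frN (Nat.mul L0 (mnb (Nat.mul 2 kc0) u0)) fun q0 =>
  orb (Nat.ble (Nat.add v (Nat.add q0 (Nat.mul L1 (mnb (Nat.mul 2 kc1) u1)))) rb)
    (two ca1 cd1 kc1 u1 r g (fun d a X' W' =>
      orb (Nat.ble lim1 (Nat.add lb1 (Nat.add (Nat.mul a hA1) (Nat.mul d hD1))))
        (frN (Nat.add v (Nat.mul L1 (Nat.add a (Nat.mul 2 d)))) fun v' =>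
          orb (Nat.ble (Nat.add v' q0) rb)
            (two ca0 cd0 kc0 u0 r g (fun d' a' _ _ =>
              orb (Nat.ble (Nat.add v' (Nat.mul L0 (Nat.add a' (Nat.mul 2 d')))) rb)
                (Nat.ble lim0 (Nat.add lb0 (Nat.add (Nat.mul a' hA0) (Nat.mul d' hD0)))))
              X' W'))) X W)

lemma cont_sound {ca0 cd0 ca1 cd1 kc0 kc1 hA0 hD0 hA1 hD1 L0 L1 r g u0 u1 v rb lb0 lim0 lb1 lim1 X W
    : ℕ} (hc : cont ca0 cd0 ca1 cd1 kc0 kc1 hA0 hD0 hA1 hD1 L0 L1 r g u0 u1 v rb lb0 lim0 lb1 lim1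
      X W = true) {A0 D0 A1 D1 : ℕ} (h0 : A0 + D0 ≤ kc0) (h1 : A1 + D1 ≤ kc1)
    (h2 : A0 + 2 * D0 ≤ u0) (h3 : A1 + 2 * D1 ≤ u1)
    (ht : ∀ l1 ≤ D1, ∀ i1 ≤ A1, ∀ l0 ≤ D0, ∀ i0 ≤ A0,
      tk r g (X + l1 * cd1 + i1 * ca1 + l0 * cd0 + i0 * ca0)
        (W + l1 * 3 + i1 * 2 + l0 * 3 + i0 * 2) = true)
    (l0 : lb0 + (A0 * hA0 + D0 * hD0) < lim0) (l1 : lb1 + (A1 * hA1 + D1 * hD1) < lim1) :
    v + (L0 * (A0 + 2 * D0) + L1 * (A1 + 2 * D1)) ≤ rb := by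
  unfold cont at hc
  rw [frN_eq] at hc
  have k0 : L0 * (A0 + 2 * D0) ≤ L0 * mnb (2 * kc0) u0 :=
    Nat.mul_le_mul_left _ (by rw [mnb_eq]; omega)
  have k1 : L1 * (A1 + 2 * D1) ≤ L1 * mnb (2 * kc1) u1 :=
    Nat.mul_le_mul_left _ (by rw [mnb_eq]; omega)
  rcases orb_true hc with h4 | h4
  · have h5 : v + (L0 * mnb (2 * kc0) u0 + L1 * mnb (2 * kc1) u1) ≤ rb :=
      Nat.le_of_ble_eq_true h4
    omega
  · have h5 := two_sound h4 h1 h3 fun l hl i hi => by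
      have := ht l hl i hi 0 (Nat.zero_le _) 0 (Nat.zero_le _)
      simpa using this
    rcases orb_true h5 with h6 | h6
    · have h7 : lim1 ≤ lb1 + (A1 * hA1 + D1 * hD1) := Nat.le_of_ble_eq_true h6
      omega
    · rw [frN_eq] at h6
      rcases orb_true h6 with h7 | h7
      · have h8 : v + L1 * (A1 + 2 * D1) + L0 * mnb (2 * kc0) u0 ≤ rb := Nat.le_of_ble_eq_true h7
        omega
      · have h8 := two_sound h7 h0 h2 fun l hl i hi => ht D1 le_rfl A1 le_rfl l hl i hi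
        rcases orb_true h8 with h9 | h9
        · have h10 : v + L1 * (A1 + 2 * D1) + L0 * (A0 + 2 * D0) ≤ rb :=
            Nat.le_of_ble_eq_true h9
          omega
        · have h10 : lim0 ≤ lb0 + (A0 * hA0 + D0 * hD0) := Nat.le_of_ble_eq_true h9
          omega

/-- **the numbers of a rest row**; the pair test with the row `i` has the constant `lc i`, the factors
`lh i` (left) and `rh i` (right) of `h`, the bound `nth (S i) P` of the energy of the row `i` -/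
structure RowF (R2 a c ca0 cd0 ca1 cd1 G0 G1 kc0 kc1 u0 u1 Bc Hc nr : ℕ) (n0 n1 S0 S1 : List ℕ)
    (KA lc0 lh0 rh0 hP0 hg0 hA0 hD0 KB lc1 lh1 rh1 hP1 hg1 hA1 hD1 : ℕ) (nt : ℕ → ℕ → ℕ)
    (h g0 g1 gr b P0 P1 A0 D0 A1 D1 : ℕ) : Prop where
  hH : h ≤ Hc
  hg : g0 + g1 + gr ≤ h
  c0 : P0 + g0 ≤ G0
  c1 : P1 + g1 ≤ G1
  kp0 : A0 + D0 ≤ kc0
  kp1 : A1 + D1 ≤ kc1
  ku0 : P0 + A0 + 2 * D0 ≤ u0
  ku1 : P1 + A1 + 2 * D1 ≤ u1
  bb : b ≤ Bc
  T : ∀ b' ≤ P0 + P1 + b, ∀ i0 ≤ A0, ∀ l0 ≤ D0, ∀ i1 ≤ A1, ∀ l1 ≤ D1,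
    R2 * h + b' * c + (i0 * ca0 + l0 * cd0) + (i1 * ca1 + l1 * cd1)
      ≤ h * (h - 1) + (nth n0 g0 + nth n1 g1 + gr * nr) + R2 * a
        + (2 * b' + 2 * i0 + 3 * l0 + 2 * i1 + 3 * l1)
          * (2 * h + (2 * b' + 2 * i0 + 3 * l0 + 2 * i1 + 3 * l1) - 1)
  LA : lc0 + h * lh0 + P0 * hP0 + g0 * hg0 + (A0 * hA0 + D0 * hD0)
    ≤ nth S0 P0 + (KA + h * (h - 1)) + (nth n1 g1 + gr * nr) + nt P0 g0 + h * rh0
  LB : lc1 + h * lh1 + P1 * hP1 + g1 * hg1 + (A1 * hA1 + D1 * hD1)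
    ≤ nth S1 P1 + (KB + h * (h - 1)) + (nth n0 g0 + gr * nr) + nt P1 g1 + h * rh1

/-- the PC ends, then the contents; `K` the largest number of PC ends of the rest (`0` if `VC = 0`) -/
noncomputable def pcs (c ca0 cd0 ca1 cd1 G0 G1 kc0 kc1 u0 u1 Bc : ℕ) (S0 S1 : List ℕ)
    (hP0 hA0 hD0 hP1 hA1 hD1 : ℕ) (nt : ℕ → ℕ → ℕ) (L0 L1 V0 V1 VC : ℕ)
    (g0 g1 r g v rb la0 ra0 la1 ra1 X : ℕ) : Bool :=
  lw c 2 r g (fun P0 X0 Q0 =>
    frN (Nat.add la0 (Nat.mul P0 hP0)) fun lb0 =>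
    frN (Nat.succ (Nat.add ra0 (Nat.add (nth S0 P0) (nt P0 g0)))) fun lim0 =>
    frN (Nat.sub u0 P0) fun u0' =>
    frN (Nat.add v (Nat.mul V0 P0)) fun v0 =>
    orb (Nat.ble lim0 lb0)
      (lw c 2 r g (fun P1 X1 Q1 =>
        frN (Nat.add la1 (Nat.mul P1 hP1)) fun lb1 =>
        frN (Nat.succ (Nat.add ra1 (Nat.add (nth S1 P1) (nt P1 g1)))) fun lim1 =>
        frN (Nat.sub u1 P1) fun u1' =>
        frN (Nat.add v0 (Nat.mul V1 P1)) fun v1 =>
        orb (Nat.ble lim1 lb1)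
          (lw c 2 r g (fun b X2 Q2 => frN (Nat.add v1 (Nat.mul VC b)) fun v2 =>
            cont ca0 cd0 ca1 cd1 kc0 kc1 hA0 hD0 hA1 hD1 L0 L1 r g u0' u1' v2 rb lb0 lim0 lb1
              lim1 X2 Q2) Bc 0 X1 Q1))
        (mnb (Nat.sub G1 g1) u1) 0 X0 Q0))
    (mnb (Nat.sub G0 g0) u0) 0 X 0

/-- the states of a rest row; `gz` tells that only the largest `gr` is needed -/
noncomputable def chk (R2 a c ca0 cd0 ca1 cd1 G0 G1 kc0 kc1 u0 u1 Bc Hc nr : ℕ)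
    (n0 n1 S0 S1 : List ℕ) (KA lc0 lh0 rh0 hP0 hg0 hA0 hD0 KB lc1 lh1 rh1 hP1 hg1 hA1 hD1 : ℕ)
    (nt : ℕ → ℕ → ℕ) (L0 L1 V0 V1 W0 W1 VC den top : ℕ) (nx : ℕ) : Bool :=
  allN (fun h =>
    frN (Nat.mul 2 h) fun g =>
    frN (Nat.add (Nat.mul h (Nat.pred h)) (Nat.mul R2 a)) fun r0 =>
    frN (Nat.mul R2 h) fun X =>
    orb (Nat.ble (Nat.succ (Nat.add r0 (Nat.add nx (Nat.mul h nr)))) X)
      (frN (Nat.mul h (Nat.pred h)) fun e0 =>
       allN (fun g0 => allN (fun g1 =>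
        frN (Nat.add (nth n0 g0) (nth n1 g1)) fun n01 =>
        allN (fun gr' => frN (Nat.sub (Nat.sub (Nat.sub h g0) g1) gr') fun gr =>
          frN (Nat.add r0 (Nat.add n01 (Nat.mul gr nr))) fun r =>
          orb (Nat.ble (Nat.succ r) X)
            (frN (Nat.mul den h) fun v =>
             frN (Nat.add top (Nat.add (Nat.mul W0 g0) (Nat.add (Nat.mul W1 g1)
               (Nat.mul VC gr)))) fun rb =>
             frN (Nat.add (Nat.add lc0 (Nat.mul h lh0)) (Nat.mul g0 hg0)) fun la0 =>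
             frN (Nat.add (Nat.add lc1 (Nat.mul h lh1)) (Nat.mul g1 hg1)) fun la1 =>
             frN (Nat.add (Nat.add (Nat.add KA e0) (Nat.mul h rh0))
               (Nat.add (nth n1 g1) (Nat.mul gr nr))) fun ra0 =>
             frN (Nat.add (Nat.add (Nat.add KB e0) (Nat.mul h rh1))
               (Nat.add (nth n0 g0) (Nat.mul gr nr))) fun ra1 =>
             pcs c ca0 cd0 ca1 cd1 G0 G1 kc0 kc1 u0 u1 Bc S0 S1 hP0 hA0 hD0 hP1 hA1 hD1 nt
               L0 L1 V0 V1 VC g0 g1 r g v rb la0 ra0 la1 ra1 X))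
          (Bool.rec (motive := fun _ => ℕ) (Nat.succ (Nat.sub (Nat.sub h g0) g1)) 1
            (Nat.beq VC 0)))
        (Nat.succ (mnb G1 (Nat.sub h g0)))) (Nat.succ (mnb G0 h)))) (Nat.succ Hc)

lemma pcs_sound {R2 a c ca0 cd0 ca1 cd1 G0 G1 kc0 kc1 u0 u1 Bc Hc nr : ℕ} {n0 n1 S0 S1 : List ℕ}
    {KA lc0 lh0 rh0 hP0 hg0 hA0 hD0 KB lc1 lh1 rh1 hP1 hg1 hA1 hD1 : ℕ} {nt : ℕ → ℕ → ℕ}
    {h g0 g1 gr b P0 P1 A0 D0 A1 D1 : ℕ}
    (F : RowF R2 a c ca0 cd0 ca1 cd1 G0 G1 kc0 kc1 u0 u1 Bc Hc nr n0 n1 S0 S1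
      KA lc0 lh0 rh0 hP0 hg0 hA0 hD0 KB lc1 lh1 rh1 hP1 hg1 hA1 hD1 nt h g0 g1 gr b P0 P1 A0 D0 A1 D1)
    {L0 L1 V0 V1 VC v rb : ℕ}
    (hc : pcs c ca0 cd0 ca1 cd1 G0 G1 kc0 kc1 u0 u1 Bc S0 S1 hP0 hA0 hD0 hP1 hA1 hD1 nt
      L0 L1 V0 V1 VC g0 g1 (h * (h - 1) + R2 * a + (nth n0 g0 + nth n1 g1 + gr * nr)) (2 * h)
      v rb (lc0 + h * lh0 + g0 * hg0) (KA + h * (h - 1) + h * rh0 + (nth n1 g1 + gr * nr))
      (lc1 + h * lh1 + g1 * hg1) (KB + h * (h - 1) + h * rh1 + (nth n0 g0 + gr * nr)) (R2 * h)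
      = true) :
    v + (L0 * (A0 + 2 * D0) + L1 * (A1 + 2 * D1)) + (V0 * P0 + V1 * P1 + VC * b) ≤ rb := by
  have hT : ∀ b' ≤ P0 + P1 + b, ∀ l1 ≤ D1, ∀ i1 ≤ A1, ∀ l0 ≤ D0, ∀ i0 ≤ A0,
      tk (h * (h - 1) + R2 * a + (nth n0 g0 + nth n1 g1 + gr * nr)) (2 * h)
        (R2 * h + b' * c + l1 * cd1 + i1 * ca1 + l0 * cd0 + i0 * ca0)
        (0 + b' * 2 + l1 * 3 + i1 * 2 + l0 * 3 + i0 * 2) = true := by
    intro b' hb l1 h1 i1 h2 l0 h3 i0 h4
    rw [tk_eq]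
    have h5 := F.T b' hb i0 h4 l0 h3 i1 h2 l1 h1
    have e1 : 0 + b' * 2 + l1 * 3 + i1 * 2 + l0 * 3 + i0 * 2
        = 2 * b' + 2 * i0 + 3 * l0 + 2 * i1 + 3 * l1 := by ring
    rw [e1]
    omega
  have c0 := F.c0
  have c1 := F.c1
  have ku0 := F.ku0
  have ku1 := F.ku1
  have hLA := F.LA
  have hLB := F.LB
  unfold pcs at hc
  have h1 := lw_sound _ _ _ _ hc P0 (by
    rw [mnb_eq]
    have : Nat.sub G0 g0 = G0 - g0 := rfl
    omega) fun l hl => by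
      have := hT l (by omega) 0 (Nat.zero_le _) 0 (Nat.zero_le _) 0 (Nat.zero_le _) 0
        (Nat.zero_le _)
      simpa using this
  simp only [frN_eq, Nat.zero_add] at h1
  rcases orb_true h1 with h2 | h2
  · have h3 : KA + h * (h - 1) + h * rh0 + (nth n1 g1 + gr * nr) + (nth S0 P0 + nt P0 g0) + 1
        ≤ lc0 + h * lh0 + g0 * hg0 + P0 * hP0 := Nat.le_of_ble_eq_true h2
    omega
  have h3 := lw_sound _ _ _ _ h2 P1 (by
    rw [mnb_eq]
    have : Nat.sub G1 g1 = G1 - g1 := rfl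
    omega) fun l hl => by
      have := hT (P0 + l) (by omega) 0 (Nat.zero_le _) 0 (Nat.zero_le _) 0 (Nat.zero_le _) 0
        (Nat.zero_le _)
      have e1 : R2 * h + P0 * c + l * c = R2 * h + (P0 + l) * c := by ring
      have e2 : P0 * 2 + l * 2 = 0 + (P0 + l) * 2 := by ring
      rw [e1, e2]
      simpa using this
  simp only [Nat.zero_add] at h3
  rcases orb_true h3 with h4 | h4
  · have h5 : KB + h * (h - 1) + h * rh1 + (nth n0 g0 + gr * nr) + (nth S1 P1 + nt P1 g1) + 1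
        ≤ lc1 + h * lh1 + g1 * hg1 + P1 * hP1 := Nat.le_of_ble_eq_true h4
    omega
  have h5 := lw_sound _ _ _ _ h4 b F.bb fun l hl => by
      have := hT (P0 + P1 + l) (by omega) 0 (Nat.zero_le _) 0 (Nat.zero_le _) 0 (Nat.zero_le _) 0
        (Nat.zero_le _)
      have e1 : R2 * h + P0 * c + P1 * c + l * c = R2 * h + (P0 + P1 + l) * c := by ring
      have e2 : P0 * 2 + P1 * 2 + l * 2 = 0 + (P0 + P1 + l) * 2 := by ring
      rw [e1, e2]
      simpa using this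
  simp only [Nat.zero_add] at h5
  have e1 : Nat.sub u0 P0 = u0 - P0 := rfl
  have e2 : Nat.sub u1 P1 = u1 - P1 := rfl
  have h6 := cont_sound h5 F.kp0 F.kp1 (by omega) (by omega) (fun l1 h1 i1 h2 l0 h3 i0 h4 => by
      have := hT (P0 + P1 + b) le_rfl l1 h1 i1 h2 l0 h3 i0 h4
      have e3 : R2 * h + P0 * c + P1 * c + b * c = R2 * h + (P0 + P1 + b) * c := by ring
      have e4 : P0 * 2 + P1 * 2 + b * 2 = 0 + (P0 + P1 + b) * 2 := by ring
      rw [e3, e4]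
      exact this) (by
      show lc0 + h * lh0 + g0 * hg0 + P0 * hP0 + (A0 * hA0 + D0 * hD0)
        < KA + h * (h - 1) + h * rh0 + (nth n1 g1 + gr * nr) + (nth S0 P0 + nt P0 g0) + 1
      omega) (by
      show lc1 + h * lh1 + g1 * hg1 + P1 * hP1 + (A1 * hA1 + D1 * hD1)
        < KB + h * (h - 1) + h * rh1 + (nth n0 g0 + gr * nr) + (nth S1 P1 + nt P1 g1) + 1
      omega)
  have h7 : v + V0 * P0 + V1 * P1 + VC * b + (L0 * (A0 + 2 * D0) + L1 * (A1 + 2 * D1)) ≤ rb := h6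
  omega

/-- **a rest row**; `nx` bounds `nth n0 g0 + nth n1 g1` -/
theorem chk_sound {R2 a c ca0 cd0 ca1 cd1 G0 G1 kc0 kc1 u0 u1 Bc Hc nr : ℕ} {n0 n1 S0 S1 : List ℕ}
    {KA lc0 lh0 rh0 hP0 hg0 hA0 hD0 KB lc1 lh1 rh1 hP1 hg1 hA1 hD1 : ℕ} {nt : ℕ → ℕ → ℕ}
    {h g0 g1 gr b P0 P1 A0 D0 A1 D1 : ℕ}
    (F : RowF R2 a c ca0 cd0 ca1 cd1 G0 G1 kc0 kc1 u0 u1 Bc Hc nr n0 n1 S0 S1
      KA lc0 lh0 rh0 hP0 hg0 hA0 hD0 KB lc1 lh1 rh1 hP1 hg1 hA1 hD1 nt h g0 g1 gr b P0 P1 A0 D0 A1 D1)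
    {L0 L1 V0 V1 W0 W1 VC den top nx : ℕ} (hgr : VC = 0 → g0 + g1 + gr = h)
    (hnx : nth n0 g0 + nth n1 g1 ≤ nx)
    (hc : chk R2 a c ca0 cd0 ca1 cd1 G0 G1 kc0 kc1 u0 u1 Bc Hc nr n0 n1 S0 S1
      KA lc0 lh0 rh0 hP0 hg0 hA0 hD0 KB lc1 lh1 rh1 hP1 hg1 hA1 hD1 nt L0 L1 V0 V1 W0 W1 VC den top nx
      = true) :
    den * h + (L0 * (A0 + 2 * D0) + L1 * (A1 + 2 * D1)) + (V0 * P0 + V1 * P1 + VC * b)
      ≤ top + (W0 * g0 + W1 * g1 + VC * gr) := by
  have c0 := F.c0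
  have c1 := F.c1
  have hg := F.hg
  have hH := F.hH
  unfold chk at hc
  have h1 := allN_sound hc h (Nat.lt_succ_of_le hH)
  simp only [frN_eq] at h1
  have hT0 := F.T 0 (Nat.zero_le _) 0 (Nat.zero_le _) 0 (Nat.zero_le _) 0 (Nat.zero_le _) 0
    (Nat.zero_le _)
  simp only [Nat.zero_mul, Nat.mul_zero, Nat.add_zero] at hT0
  rcases orb_true h1 with h2 | h2
  · have h3 : h * (h - 1) + R2 * a + (nx + h * nr) + 1 ≤ R2 * h := Nat.le_of_ble_eq_true h2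
    have h4 : gr * nr ≤ h * nr := Nat.mul_le_mul_right _ (by omega)
    omega
  have h3 := allN_sound h2 g0 (by
    rw [mnb_eq]
    show g0 < min G0 h + 1
    omega)
  have h4 := allN_sound h3 g1 (by
    rw [mnb_eq]
    have : Nat.sub h g0 = h - g0 := rfl
    show g1 < min G1 (Nat.sub h g0) + 1
    omega)
  have e1 : Nat.sub (Nat.sub h g0) g1 = h - g0 - g1 := rfl
  have h5 := allN_sound h4 (h - g0 - g1 - gr) (by
    rw [e1]
    rcases h6 : Nat.beq VC 0 with _ | _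
    · show h - g0 - g1 - gr < h - g0 - g1 + 1
      omega
    · have h7 := hgr (Nat.eq_of_beq_eq_true h6)
      show h - g0 - g1 - gr < 1
      omega)
  have e2 : Nat.sub (Nat.sub (Nat.sub h g0) g1) (h - g0 - g1 - gr) = gr := by
    show h - g0 - g1 - (h - g0 - g1 - gr) = gr
    omega
  simp only [e2] at h5
  rcases orb_true h5 with h6 | h6
  · have h7 : h * (h - 1) + R2 * a + (nth n0 g0 + nth n1 g1 + gr * nr) + 1 ≤ R2 * h :=
      Nat.le_of_ble_eq_true h6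
    omega
  · have h7 := pcs_sound F (L0 := L0) (L1 := L1) (V0 := V0) (V1 := V1) (VC := VC)
      (v := den * h) (rb := top + (W0 * g0 + (W1 * g1 + VC * gr))) h6
    omega

end BlkR

end Pool.Agent.Lib.MP_f04ccf_co
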