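import Pool.Agent.Lib.MP_f04ccf_co.M.BlkP
import Pool.Agent.Lib.MP_f04ccf_co.M.BlkG
import Pool.Agent.Lib.MP_f04ccf_co.M.BlkR

/-!
MP_f04ccf_co, PLAN W, block certificate: **the rest rows of a node from the kernel check**
(`Bk.Wd`, `BkW` -> `BlkR.RowF` -> `BlkR.chk_sound`).

* `BlkD.rdOk`: the numbers of the rest rows of share `t` (once per pair of shares);
* `BlkD.sOk`: the lists `S0`, `S1`: the energy of a row of the block with exact `(h, mu)` without one cell;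
* `BlkD.rowOk`, `BlkD.row`: the check of the rest rows of share `t` and the hypothesis `rest` of
  `NoNd.of_blk`.
-/

set_option autoImplicit false

namespace Pool.Agent.Lib.MP_f04ccf_co

open Finset Mid BlkB

namespace BlkD

/-! ### the excess is monotone -/

lemma isq_sq (v : ℕ) : Ld.isq v ^ 2 ≤ v := by
  have key : ∀ f r : ℕ, r ^ 2 ≤ v → Ld.isqF v f r ^ 2 ≤ v := by
    intro f
    induction f with
    | zero =>
      intro r h
      exact h
    | succ f ih =>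
      intro r h
      have h0 : Ld.isqF v (f + 1) r = Bool.rec (motive := fun _ => ℕ) r
        (Ld.isqF v f (Nat.succ r)) (Nat.ble (Nat.mul (Nat.succ r) (Nat.succ r)) v) := rfl
      rw [h0]
      rcases h1 : Nat.ble (Nat.mul (Nat.succ r) (Nat.succ r)) v with _ | _
      · exact h
      · refine ih (Nat.succ r) ?_
        have h2 : (r + 1) * (r + 1) ≤ v := Nat.le_of_ble_eq_true h1
        show (r + 1) ^ 2 ≤ v
        nlinarith
  exact key v 0 (by simp)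

lemma isq_mono {a b : ℕ} (hab : a ≤ b) : Ld.isq a ≤ Ld.isq b := by
  by_contra h4
  push Not at h4
  have h5 := isq_sq a
  have h6 := Ld.isq_spec b
  have h7 : (Ld.isq b + 1) ^ 2 ≤ Ld.isq a ^ 2 := Nat.pow_le_pow_left h4 2
  omega

lemma fx_mono {R τ τ' : ℕ} (h : τ ≤ τ') (g : ℕ) : Bk.fx R τ g ≤ Bk.fx R τ' g := by
  rcases g with _ | g
  · exact Nat.zero_le _
  · show (g + 1) * (3 * g + 2 + 2 * Ld.isq (τ + (g + 1) * (g + 1) - g * R))
      ≤ (g + 1) * (3 * g + 2 + 2 * Ld.isq (τ' + (g + 1) * (g + 1) - g * R))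
    refine Nat.mul_le_mul_left _ ?_
    have := isq_mono (show τ + (g + 1) * (g + 1) - g * R ≤ τ' + (g + 1) * (g + 1) - g * R by omega)
    omega

/-! ### the checks once per pair of shares -/

/-- the bound `nr` per PC pair in a cell with product at most `τ`, at most `cc` pairs -/
noncomputable def nrOk (R τ cc nr : ℕ) : Bool :=
  anb (Nat.ble (Nat.succ (Nat.add τ (Nat.mul (Nat.succ cc) (Nat.succ cc)))) (Nat.mul cc R))
    (allN (fun g => orb (Nat.ble (Bk.fx R τ g) (Nat.mul g nr))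
      (Nat.ble (Nat.succ (Nat.add τ (Nat.mul g g))) (Nat.mul (Nat.pred g) R))) (Nat.succ cc))

/-- the numbers of the rest rows of share `t` -/
noncomputable def rdOk (R a b B q t G0 G1 cc nr nx : ℕ) (n0 n1 : List ℕ) : Bool :=
  anb (Nat.ble (Nat.succ (Nat.add (Nat.mul a t) (Nat.mul (Nat.succ G0) (Nat.succ G0))))
      (Nat.mul G0 R)) (anb (Nat.ble G0 5)
    (anb (Nat.ble (Nat.succ (Nat.add (Nat.mul b t) (Nat.mul (Nat.succ G1) (Nat.succ G1))))
      (Nat.mul G1 R)) (anb (Nat.ble G1 5)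
    (frN (mnb b (Nat.sub (Nat.sub B t) q)) fun xm =>
      anb (nrOk R (Nat.mul t xm) cc nr) (anb (gcp R t xm)
      (anb (allN (fun g => Nat.ble (Bk.fx R (Nat.mul t a) g) (BlkR.nth n0 g)) (Nat.succ G0))
      (anb (allN (fun g => Nat.ble (Bk.fx R (Nat.mul t b) g) (BlkR.nth n1 g)) (Nat.succ G1))
      (allN (fun g => allN (fun g' => Nat.ble (Nat.add (BlkR.nth n0 g) (BlkR.nth n1 g')) nx)
        (Nat.succ G1)) (Nat.succ G0)))))))))

/-- the smaller of the two lines -/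
noncomputable def ln (al bt al' bt' B m : ℕ) : ℕ :=
  mnb (Nat.add (Nat.mul al m) (Nat.mul bt B)) (Nat.add (Nat.mul al' m) (Nat.mul bt' B))

lemma ln_eq (al bt al' bt' B m : ℕ) :
    ln al bt al' bt' B m = min (al * m + bt * B) (al' * m + bt' * B) := mnb_eq _ _

lemma ln_mono {al bt al' bt' B m m' : ℕ} (h : m ≤ m') :
    ln al bt al' bt' B m ≤ ln al bt al' bt' B m' := by
  rw [ln_eq, ln_eq]
  have h1 := Nat.mul_le_mul_left al h
  have h2 := Nat.mul_le_mul_left al' h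
  omega

/-- the list `S` of a row of the block with `(h, mu)`, at most `K` PC pairs -/
noncomputable def sOk (R τ G K h mu al bt al' bt' B : ℕ) (S : List ℕ) : Bool :=
  frN (Nat.mul mu (Nat.sub (Nat.pred (Nat.mul 2 h)) mu)) fun v =>
    allN (fun p => frN (Nat.add v (Bk.fx R τ p)) fun f =>
      allN (fun p' => orb (Nat.ble (Nat.succ K) (Nat.add p p'))
        (Nat.ble (Nat.add f (ln al bt al' bt' B (Nat.sub (Nat.sub K p) p'))) (BlkR.nth S p')))
        6) (Nat.succ G)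

section Rows

variable {R n : ℕ} {t h mu : ℕ → ℕ} {q : ℕ → ℕ → ℕ} {s e : ℕ → ℤ} {P A D : ℕ → ℕ → ℕ}
  {N W : ℕ → ℕ → ℤ}

/-- at most `G` PC pairs in a cell -/
lemma cell_le (H : Bk.Wd R n t h mu q s e P A D N W) {x z : ℕ} (hx : x < n) (hz : z < n)
    (hxz : x ≠ z) {τ G : ℕ} (ht : t x * t z ≤ τ) (hG : τ + (G + 1) * (G + 1) + 1 ≤ G * R) :
    P x z + P z x ≤ G := by
  by_contra hcon
  push Not at hcon
  have h1 := H.C.jn x hx z hz hxz (G + 1) (by omega)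
  have h2 : (((G + 1 : ℕ) : ℤ) - 1) * R ≤ (t x : ℤ) * t z + ((G + 1 : ℕ) : ℤ) ^ 2 := h1
  have h3 : (t x : ℤ) * t z ≤ τ := by exact_mod_cast ht
  zify at hG
  push_cast at h2
  linarith

/-- the bound per PC pair -/
lemma nr_le (H : Bk.Wd R n t h mu q s e P A D N W) {x z : ℕ} (hx : x < n) (hz : z < n)
    (hxz : x ≠ z) {τ cc nr : ℕ} (ht : t x * t z ≤ τ) (ok : nrOk R τ cc nr = true) :
    N x z ≤ ((P x z * nr : ℕ) : ℤ) := by
  obtain ⟨h1, h2⟩ := anb_true ok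
  have h3 : τ + (cc + 1) * (cc + 1) + 1 ≤ cc * R := Nat.le_of_ble_eq_true h1
  have h4 := cell_le H hx hz hxz ht h3
  have h5 := allN_sound h2 (P x z) (by show P x z < cc + 1; omega)
  have h6 := H.fx_spec hx hz hxz
  have h7 : ((Bk.fx R (t x * t z) (P x z) : ℕ) : ℤ) ≤ ((Bk.fx R τ (P x z) : ℕ) : ℤ) := by
    exact_mod_cast fx_mono ht (P x z)
  rcases orb_true h5 with h8 | h8
  · have h9 : Bk.fx R τ (P x z) ≤ P x z * nr := Nat.le_of_ble_eq_true h8
    have h10 : ((Bk.fx R τ (P x z) : ℕ) : ℤ) ≤ ((P x z * nr : ℕ) : ℤ) := by exact_mod_cast h9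
    linarith
  · exfalso
    have h9 : τ + P x z * P x z + 1 ≤ (P x z - 1) * R := Nat.le_of_ble_eq_true h8
    have h10 := H.C.jn x hx z hz hxz (P x z) (by omega)
    have h11 : (t x : ℤ) * t z ≤ τ := by exact_mod_cast ht
    rcases Nat.eq_zero_or_pos (P x z) with h12 | h12
    · rw [h12] at h9
      simp at h9
    · have h13 : ((P x z - 1 : ℕ) : ℤ) = (P x z : ℤ) - 1 := by
        rw [Nat.cast_sub h12]
        norm_num
      zify [h13] at h9
      have h14 : ((P x z : ℤ) - 1) * R ≤ (t x : ℤ) * t z + (P x z : ℤ) ^ 2 := h10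
      linarith

/-- at most `t y + 1` PC pairs in a cell -/
lemma gx_le (H : Bk.Wd R n t h mu q s e P A D N W) {y z : ℕ} (hy : y < n) (hz : z < n)
    (hyz : y ≠ z) {xm : ℕ} (hg : gcp R (t z) xm = true) (hx : t y ≤ xm) :
    P y z + P z y ≤ t y + 1 := by
  have h1 := allN_sound hg (t y) (by show t y < xm + 1; omega)
  have h3 : t z * t y + (t y + 2) * (t y + 2) + 1 ≤ (t y + 1) * R := Nat.le_of_ble_eq_true h1
  refine cell_le H hy hz hyz (τ := t z * t y) (by rw [Nat.mul_comm]) ?_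
  exact h3

/-- the energy in the form of the check -/
lemma mh_eq {m' h' : ℕ} (h1 : m' ≤ h') :
    2 * (m' * h') - m' * (m' + 1) = m' * (2 * h' - 1 - m') := by
  rcases Nat.eq_zero_or_pos m' with h5 | h5
  · subst h5
    simp
  · obtain ⟨k, rfl⟩ : ∃ k, h' = m' + k := ⟨h' - m', by omega⟩
    obtain ⟨a, rfl⟩ : ∃ a, m' = a + 1 := ⟨m' - 1, by omega⟩
    have h6 : 2 * (a + 1 + k) - 1 - (a + 1) = a + 2 * k := by omega
    rw [h6]
    have h7 : 2 * ((a + 1) * (a + 1 + k)) = (a + 1) * (a + 2 * k) + (a + 1) * (a + 1 + 1) := by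
      ring
    rw [h7, Nat.add_sub_cancel]

/-- **the energy of a row of the block with exact `(h, mu)`** without the cell of a rest row -/
lemma FB (C : Bk.Wd R n t h mu q s e P A D N W) {x x' z : ℕ}
    (hxx : (x = 0 ∧ x' = 1) ∨ (x = 1 ∧ x' = 0)) (hz : z ∈ Ico 2 n) {tm B : ℕ}
    (hg : gcp R (t x) tm = true) {al bt al' bt' : ℕ} (hl : lin R (t x) al bt tm = true)
    (hl' : lin R (t x) al' bt' tm = true) (htm : ∀ y ∈ Ico 2 n, t y ≤ tm)
    (hB : ∑ y ∈ Ico 2 n, (t y + 1) ≤ B) {τ G K hh mm : ℕ} {S : List ℕ}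
    (hτ : t x * t x' = τ) (hG : τ + (G + 1) * (G + 1) + 1 ≤ G * R) (hh0 : h x = hh)
    (hm0 : mu x = mm) (hK : ∑ j ∈ (range n).erase x, P x j ≤ K) (h5 : P x z ≤ 5)
    (ok : sOk R τ G K hh mm al bt al' bt' B S = true) :
    2 * e x ≤ ((BlkR.nth S (P x z) : ℕ) : ℤ) + N x z := by
  have hn := C.n3
  have hz2 := (mem_Ico.1 hz).1
  have hzn := (mem_Ico.1 hz).2
  have hxn : x < n := by omega
  have hx'n : x' < n := by omega
  have h1 : ((range n).erase x).erase z = insert x' ((Ico 2 n).erase z) := by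
    ext y
    simp only [mem_erase, mem_range, mem_insert, mem_Ico]
    omega
  have h2 : x' ∉ (Ico 2 n).erase z := by
    simp only [mem_erase, mem_Ico]
    omega
  have h3 : P x z + (P x x' + ∑ y ∈ (Ico 2 n).erase z, P x y) ≤ K := by
    refine le_trans (le_of_eq ?_) hK
    rw [← add_sum_erase _ _ (mem_erase.2 ⟨(show z ≠ x by omega), mem_range.2 hzn⟩), h1,
      sum_insert h2]
  -- the excess in the rest
  have h4 : ∀ {al bt : ℕ}, lin R (t x) al bt tm = true → ∑ y ∈ (Ico 2 n).erase z, N x y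
      ≤ ((al * ∑ y ∈ (Ico 2 n).erase z, P x y + bt * B : ℕ) : ℤ) := by
    intro al bt hl
    have h6 : ∑ y ∈ (Ico 2 n).erase z, N x y
        ≤ ∑ y ∈ (Ico 2 n).erase z, ((al * P x y + bt * (t y + 1) : ℕ) : ℤ) :=
      sum_le_sum fun y hy => n_le C (by omega) hg hl (mem_Ico.1 (mem_of_mem_erase hy)).1
        (mem_Ico.1 (mem_of_mem_erase hy)).2 (htm y (mem_of_mem_erase hy))
    refine h6.trans ?_
    rw [← Nat.cast_sum, sum_add_distrib, ← mul_sum, ← mul_sum]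
    have h7 : ∑ y ∈ (Ico 2 n).erase z, (t y + 1) ≤ B :=
      (sum_le_sum_of_subset (erase_subset _ _)).trans hB
    have h8 := Nat.mul_le_mul_left bt h7
    exact_mod_cast (by omega : al * ∑ y ∈ (Ico 2 n).erase z, P x y
      + bt * ∑ y ∈ (Ico 2 n).erase z, (t y + 1)
      ≤ al * ∑ y ∈ (Ico 2 n).erase z, P x y + bt * B)
  have h6 := h4 hl
  have h7 := h4 hl'
  have h8 : ∑ y ∈ (Ico 2 n).erase z, N x y
      ≤ ((ln al bt al' bt' B (∑ y ∈ (Ico 2 n).erase z, P x y) : ℕ) : ℤ) := by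
    rw [ln_eq]
    push_cast at h6 h7 ⊢
    exact le_min h6 h7
  have h9 : ln al bt al' bt' B (∑ y ∈ (Ico 2 n).erase z, P x y)
      ≤ ln al bt al' bt' B (K - P x x' - P x z) := ln_mono (by omega)
  have h10 := C.fx_spec hxn hx'n (show x ≠ x' by omega)
  rw [hτ] at h10
  have h11 := C.EXg (x := x) (z := z) hxn hzn (by omega)
    (G := Bk.fx R τ (P x x') + ln al bt al' bt' B (K - P x x' - P x z)) (by
      rw [h1, sum_insert h2]
      have h12 : ((ln al bt al' bt' B (∑ y ∈ (Ico 2 n).erase z, P x y) : ℕ) : ℤ)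
        ≤ ((ln al bt al' bt' B (K - P x x' - P x z) : ℕ) : ℤ) := by exact_mod_cast h9
      push_cast
      linarith)
  have hmh : mu x ≤ h x := by exact_mod_cast C.C.muh x hxn
  rw [mh_eq hmh, hh0, hm0] at h11
  -- the check
  have hPG : P x x' ≤ G := by
    have := cell_le C hxn hx'n (show x ≠ x' by omega) (le_of_eq hτ) hG
    omega
  unfold sOk at ok
  rw [frN_eq] at ok
  have k1 := allN_sound ok (P x x') (by show P x x' < G + 1; omega)
  rw [frN_eq] at k1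
  have k2 := allN_sound k1 (P x z) (by omega)
  rcases orb_true k2 with k3 | k3
  · have k4 : K + 1 ≤ P x x' + P x z := Nat.le_of_ble_eq_true k3
    omega
  · have k4 : mm * (2 * hh - 1 - mm) + Bk.fx R τ (P x x')
        + ln al bt al' bt' B (K - P x x' - P x z) ≤ BlkR.nth S (P x z) := Nat.le_of_ble_eq_true k3
    refine h11.trans ?_
    have k5 : ((mm * (2 * hh - 1 - mm)
        + (Bk.fx R τ (P x x') + ln al bt al' bt' B (K - P x x' - P x z)) : ℕ) : ℤ)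
        ≤ ((BlkR.nth S (P x z) : ℕ) : ℤ) := by
      exact_mod_cast (by omega : mm * (2 * hh - 1 - mm)
        + (Bk.fx R τ (P x x') + ln al bt al' bt' B (K - P x x' - P x z)) ≤ BlkR.nth S (P x z))
    linarith

end Rows

/-- **the check of the rest rows of share `t`**; `w` the threshold, `e0`, `e1` tell whether the box is
exact in the row 0, 1 -/
noncomputable def rowOk (R a b B Hc e0 h0 e1 h1 kc0 kc1 u0 u1 : ℕ) (S0 S1 : List ℕ)
    (den al ga L0 L1 V0 V1 W0 W1 VC t w G0 G1 nr nx : ℕ) (n0 n1 : List ℕ) : Bool :=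
  frN (Nat.mul 2 R) fun R2 => frN (Nat.mul 2 (Nat.sub R t)) fun c2 =>
  frN (Nat.mul 2 (Nat.sub (Nat.sub R t) w)) fun w2 =>
  frN (Nat.add c2 (Nat.mul 4 t)) fun c => frN (Nat.add w2 (Nat.mul 4 t)) fun ca =>
  frN (Nat.add (Nat.add c2 w2) (Nat.mul 6 t)) fun cd =>
  frN (Nat.mul 2 (Nat.pred R)) fun Rm => frN (Nat.succ a) fun a' => frN (Nat.succ b) fun b' =>
  frN (Nat.succ t) fun t' =>
  frN (Nat.add (Nat.mul 2 (Nat.succ R)) (Nat.add (Nat.mul 2 (Nat.mul a' t'))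
    (Nat.mul Rm (Nat.add a' t')))) fun KA =>
  frN (Nat.add (Nat.mul 2 (Nat.succ R)) (Nat.add (Nat.mul 2 (Nat.mul b' t'))
    (Nat.mul Rm (Nat.add b' t')))) fun KB =>
  frN (Nat.mul e0 (Nat.add (Nat.mul Rm h0) (Nat.mul 2 (Nat.mul h0 t')))) fun lc0 =>
  frN (Nat.mul e0 (Nat.add Rm (Nat.mul 2 a'))) fun lh0 => frN (Nat.mul e0 c2) fun hP0 =>
  frN (Nat.mul e0 (Nat.mul 2 (Nat.sub R a))) fun hg0 => frN (Nat.mul e0 w2) fun hA0 =>
  frN (Nat.mul e0 (Nat.add c2 w2)) fun hD0 => frN (Nat.mul 2 h0) fun rh0 =>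
  frN (Nat.mul e1 (Nat.add (Nat.mul Rm h1) (Nat.mul 2 (Nat.mul h1 t')))) fun lc1 =>
  frN (Nat.mul e1 (Nat.add Rm (Nat.mul 2 b'))) fun lh1 => frN (Nat.mul e1 c2) fun hP1 =>
  frN (Nat.mul e1 (Nat.mul 2 (Nat.sub R b))) fun hg1 => frN (Nat.mul e1 w2) fun hA1 =>
  frN (Nat.mul e1 (Nat.add c2 w2)) fun hD1 => frN (Nat.mul 2 h1) fun rh1 =>
  frN (Bool.rec (motive := fun _ => ℕ) kc0 0 (Nat.beq L0 0)) fun k0 =>
  frN (Bool.rec (motive := fun _ => ℕ) kc1 0 (Nat.beq L1 0)) fun k1 =>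
  frN (Bool.rec (motive := fun _ => ℕ) (Nat.sub B t') 0 (Nat.beq VC 0)) fun Bc =>
  anb (Nat.ble ga (Nat.mul (Nat.add den al) t'))
    (frN (Nat.sub (Nat.mul (Nat.add den al) t') ga) fun top =>
      BlkR.chk R2 t' c ca cd ca cd G0 G1 k0 k1 u0 u1 Bc Hc nr n0 n1 S0 S1
        KA lc0 lh0 rh0 hP0 hg0 hA0 hD0 KB lc1 lh1 rh1 hP1 hg1 hA1 hD1 Bk.nt
        L0 L1 V0 V1 W0 W1 VC den top nx)

section Row

variable {R H n q a b : ℕ} {p : ℕ → ℕ → ℕ → ℕ → ℕ → ℕ → Bool} {t h mu : ℕ → ℕ}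
  {qq : ℕ → ℕ → ℕ} {s e : ℕ → ℤ} {P A D : ℕ → ℕ → ℕ} {N W : ℕ → ℕ → ℤ}

lemma sum_part {f : ℕ → ℕ} {z : ℕ} (h2 : 2 ≤ z) (hz : z < n) :
    ∑ x ∈ (range n).erase z, f x = f 0 + (f 1 + ∑ y ∈ (Ico 2 n).erase z, f y) := by
  have h5 : (range n).erase z = insert 0 (insert 1 ((Ico 2 n).erase z)) := by
    ext x
    simp only [mem_erase, mem_range, mem_insert, mem_Ico]
    omega
  rw [h5, sum_insert (by simp), sum_insert (by simp)]

lemma jh' {J h' : ℕ} : J * (2 * h' + (J - 1)) ≤ J * (2 * h' + J - 1) := by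
  rcases Nat.eq_zero_or_pos J with h1 | h1
  · subst h1
    simp
  · exact Nat.mul_le_mul_left _ (by omega)

lemma sel_eq {L k : ℕ} :
    (Bool.rec (motive := fun _ => ℕ) k 0 (Nat.beq L 0) : ℕ) = if L = 0 then 0 else k := by
  rcases L with _ | L
  · rfl
  · rfl

/-- **a rest row** -/
theorem row (C : Bk.Wd R n t h mu qq s e P A D N W) (F : BkW H n q a b p t h mu P)
    {z : ℕ} (hz : z ∈ Ico 2 n) {B Hc e0 h0 e1 h1 kc0 kc1 u0 u1 w G0 G1 cc nr nx : ℕ}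
    {S0 S1 n0 n1 : List ℕ} (hB : a + b + 3 + B = H)
    (q0 : qq 0 z = w) (q1 : qq 1 z = w)
    (rd : rdOk R a b B q (t z) G0 G1 cc nr nx n0 n1 = true)
    (hE0 : e0 = 0 ∨ e0 = 1 ∧ h 0 = h0 ∧ 2 * e 0 ≤ ((BlkR.nth S0 (P 0 z) : ℕ) : ℤ) + N 0 z)
    (hE1 : e1 = 0 ∨ e1 = 1 ∧ h 1 = h1 ∧ 2 * e 1 ≤ ((BlkR.nth S1 (P 1 z) : ℕ) : ℤ) + N 1 z)
    (hk0 : h 0 ≤ mu 0 + kc0) (hk1 : h 1 ≤ mu 1 + kc1) (hu0 : mu 0 ≤ u0) (hu1 : mu 1 ≤ u1)
    (hH : h z ≤ Hc) {den al ga L0 L1 V0 V1 W0 W1 VC : ℕ}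
    (ok : rowOk R a b B Hc e0 h0 e1 h1 kc0 kc1 u0 u1 S0 S1 den al ga L0 L1 V0 V1 W0 W1 VC (t z) w
      G0 G1 nr nx n0 n1 = true) :
    den * h z + (L0 * (A 0 z + 2 * D 0 z) + L1 * (A 1 z + 2 * D 1 z))
        + (V0 * P 0 z + V1 * P 1 z + VC * ∑ y ∈ (Ico 2 n).erase z, P y z) + ga
      ≤ (den + al) * (t z + 1)
        + (W0 * P z 0 + W1 * P z 1 + VC * ∑ y ∈ (Ico 2 n).erase z, P z y) := by
  have hn := C.n3
  have hz2 := (mem_Ico.1 hz).1
  have hzn := (mem_Ico.1 hz).2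
  have hR0 : t 0 + 1 ≤ R := by exact_mod_cast C.C.tR 0 (by omega)
  have hR1 : t 1 + 1 ≤ R := by exact_mod_cast C.C.tR 1 (by omega)
  have hRz : t z + 1 ≤ R := by exact_mod_cast C.C.tR z hzn
  have ta := F.ta
  have tb := F.tb
  -- the numbers of the row
  obtain ⟨r1, r2⟩ := anb_true rd
  obtain ⟨r3, r4⟩ := anb_true r2
  obtain ⟨r5, r6⟩ := anb_true r4
  obtain ⟨r7, r8⟩ := anb_true r6
  rw [frN_eq] at r8
  obtain ⟨r9, r10⟩ := anb_true r8
  obtain ⟨r11, r12⟩ := anb_true r10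
  obtain ⟨r13, r14⟩ := anb_true r12
  obtain ⟨r15, r16⟩ := anb_true r14
  have cG0 : a * t z + (G0 + 1) * (G0 + 1) + 1 ≤ G0 * R := Nat.le_of_ble_eq_true r1
  have G05 : G0 ≤ 5 := Nat.le_of_ble_eq_true r3
  have cG1 : b * t z + (G1 + 1) * (G1 + 1) + 1 ≤ G1 * R := Nat.le_of_ble_eq_true r5
  have G15 : G1 ≤ 5 := Nat.le_of_ble_eq_true r7
  obtain ⟨xm, hxm⟩ : ∃ xm, xm = min b (B - t z - q) := ⟨_, rfl⟩
  have hxm' : mnb b (Nat.sub (Nat.sub B (t z)) q) = xm := by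
    rw [mnb_eq, hxm]
    rfl
  rw [hxm'] at r9 r11
  have c0 : P 0 z + P z 0 ≤ G0 :=
    cell_le C (by omega) hzn (by omega) (le_of_eq (by rw [ta])) cG0
  have c1 : P 1 z + P z 1 ≤ G1 :=
    cell_le C (by omega) hzn (by omega) (le_of_eq (by rw [tb])) cG1
  have txm : ∀ y ∈ (Ico 2 n).erase z, t y ≤ xm := by
    intro y hy
    have hyz := ne_of_mem_erase hy
    have hy2 := (mem_Ico.1 (mem_of_mem_erase hy)).1
    have hyn := (mem_Ico.1 (mem_of_mem_erase hy)).2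
    have h3 := F.cap2 hz2 hzn hy2 hyn (Ne.symm hyz)
    have h4 := F.tz (show 1 ≤ y by omega) hyn
    omega
  have hnr : ∀ y ∈ (Ico 2 n).erase z, N z y ≤ ((P z y * nr : ℕ) : ℤ) := by
    intro y hy
    have hyz := ne_of_mem_erase hy
    have hyn := (mem_Ico.1 (mem_of_mem_erase hy)).2
    exact nr_le C hzn hyn (Ne.symm hyz) (Nat.mul_le_mul_left _ (txm y hy)) r9
  have hb : ∑ y ∈ (Ico 2 n).erase z, P y z ≤ B - (t z + 1) := by
    have h3 : ∑ y ∈ (Ico 2 n).erase z, P y z ≤ ∑ y ∈ (Ico 2 n).erase z, (t y + 1) :=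
      sum_le_sum fun y hy => by
        have hyz := ne_of_mem_erase hy
        have hyn := (mem_Ico.1 (mem_of_mem_erase hy)).2
        have := gx_le C hyn hzn hyz r11 (txm y hy)
        omega
    have h4 := F.cape hz2 hzn
    omega
  have hpm : P z 0 + (P z 1 + ∑ y ∈ (Ico 2 n).erase z, P z y) ≤ h z := by
    have h3 := C.C.pm z hzn
    rw [← Nat.cast_sum, sum_part hz2 hzn] at h3
    have h4 : P z 0 + (P z 1 + ∑ y ∈ (Ico 2 n).erase z, P z y) ≤ mu z := by exact_mod_cast h3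
    have h5 : mu z ≤ h z := by exact_mod_cast C.C.muh z hzn
    omega
  have v0 := C.C.cap 0 (by omega) z hzn (by omega)
  have v1 := C.C.cap 1 (by omega) z hzn (by omega)
  have s0 : P 0 z ≤ ∑ j ∈ (range n).erase 0, P 0 j :=
    single_le_sum (f := fun j => P 0 j) (fun _ _ => Nat.zero_le _)
      (mem_erase.2 ⟨by omega, mem_range.2 hzn⟩)
  have s1 : P 1 z ≤ ∑ j ∈ (range n).erase 1, P 1 j :=
    single_le_sum (f := fun j => P 1 j) (fun _ _ => Nat.zero_le _)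
      (mem_erase.2 ⟨by omega, mem_range.2 hzn⟩)
  rw [← Nat.cast_sum] at v0 v1
  have p0 := C.C.prt 0 (by omega) z hzn (by omega)
  have p1 := C.C.prt 1 (by omega) z hzn (by omega)
  -- the energies
  have E2 := C.E2 hzn hz2 hnr
  rw [ta, tb] at E2
  have f0 : Bk.fx R (t z * a) (P z 0) ≤ BlkR.nth n0 (P z 0) := by
    have h3 := allN_sound r13 (P z 0) (by show P z 0 < G0 + 1; omega)
    exact Nat.le_of_ble_eq_true h3
  have f1 : Bk.fx R (t z * b) (P z 1) ≤ BlkR.nth n1 (P z 1) := by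
    have h3 := allN_sound r15 (P z 1) (by show P z 1 < G1 + 1; omega)
    exact Nat.le_of_ble_eq_true h3
  have fz0 : N z 0 ≤ ((BlkR.nth n0 (P z 0) : ℕ) : ℤ) := by
    have h3 := C.fx_spec hzn (show 0 < n by omega) (by omega)
    rw [ta] at h3
    have h4 : ((Bk.fx R (t z * a) (P z 0) : ℕ) : ℤ) ≤ ((BlkR.nth n0 (P z 0) : ℕ) : ℤ) := by
      exact_mod_cast f0
    linarith
  have fz1 : N z 1 ≤ ((BlkR.nth n1 (P z 1) : ℕ) : ℤ) := by
    have h3 := C.fx_spec hzn (show 1 < n by omega) (by omega)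
    rw [tb] at h3
    have h4 : ((Bk.fx R (t z * b) (P z 1) : ℕ) : ℤ) ≤ ((BlkR.nth n1 (P z 1) : ℕ) : ℤ) := by
      exact_mod_cast f1
    linarith
  obtain ⟨E, hE⟩ : ∃ E, E = h z * (h z - 1) + (BlkR.nth n0 (P z 0) + BlkR.nth n1 (P z 1)
    + (∑ y ∈ (Ico 2 n).erase z, P z y) * nr) := ⟨_, rfl⟩
  have E2' : 2 * e z ≤ (E : ℤ) := by
    refine E2.trans ?_
    rw [hE]
    exact_mod_cast (by omega : h z * (h z - 1) + (Bk.fx R (t z * a) (P z 0)
      + (Bk.fx R (t z * b) (P z 1) + (∑ y ∈ (Ico 2 n).erase z, P z y) * nr))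
      ≤ h z * (h z - 1) + (BlkR.nth n0 (P z 0) + BlkR.nth n1 (P z 1)
      + (∑ y ∈ (Ico 2 n).erase z, P z y) * nr))
  have hmz : mu z ≤ h z := by exact_mod_cast C.C.muh z hzn
  have hmz2 : mu z * (mu z + 1) ≤ 2 * (mu z * h z) := by
    rcases Nat.eq_zero_or_pos (mu z) with h3 | h3 <;> nlinarith
  have hbase : 2 * (mu z * h z) - mu z * (mu z + 1) ≤ h z * (h z - 1) := by
    have := Bk.Wd.base_le hmz
    omega
  -- the amounts
  obtain ⟨gr, hgr⟩ : ∃ g, g = ∑ y ∈ (Ico 2 n).erase z, P z y := ⟨_, rfl⟩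
  obtain ⟨bb, hbb⟩ : ∃ g, g = ∑ y ∈ (Ico 2 n).erase z, P y z := ⟨_, rfl⟩
  rw [← hgr] at hpm hE ⊢
  rw [← hbb] at hb ⊢
  obtain ⟨A0, hA0⟩ : ∃ x, x = if L0 = 0 then 0 else A 0 z := ⟨_, rfl⟩
  obtain ⟨D0, hD0⟩ : ∃ x, x = if L0 = 0 then 0 else D 0 z := ⟨_, rfl⟩
  obtain ⟨A1, hA1⟩ : ∃ x, x = if L1 = 0 then 0 else A 1 z := ⟨_, rfl⟩
  obtain ⟨D1, hD1⟩ : ∃ x, x = if L1 = 0 then 0 else D 1 z := ⟨_, rfl⟩
  obtain ⟨gv, hgv⟩ : ∃ x, x = if VC = 0 then h z - P z 0 - P z 1 else gr := ⟨_, rfl⟩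
  obtain ⟨bv, hbv⟩ : ∃ x, x = if VC = 0 then 0 else bb := ⟨_, rfl⟩
  have lA0 : A0 ≤ A 0 z := by rw [hA0]; split_ifs <;> omega
  have lD0 : D0 ≤ D 0 z := by rw [hD0]; split_ifs <;> omega
  have lA1 : A1 ≤ A 1 z := by rw [hA1]; split_ifs <;> omega
  have lD1 : D1 ≤ D 1 z := by rw [hD1]; split_ifs <;> omega
  have lgv : gr ≤ gv := by rw [hgv]; split_ifs <;> omega
  have lbv : bv ≤ bb := by rw [hbv]; split_ifs <;> omega
  have lgr : gr * nr ≤ gv * nr := Nat.mul_le_mul_right _ lgv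
  have w0 : Bk.w R t qq 0 z = R - t z - w := by
    unfold Bk.w
    rw [q0]
  have w1 : Bk.w R t qq 1 z = R - t z - w := by
    unfold Bk.w
    rw [q1]
  -- the pair tests
  have LA : ∀ {x x' hx : ℕ} {S nx' ny' : List ℕ}, (x = 0 ∧ x' = 1) ∨ (x = 1 ∧ x' = 0) →
      Bk.w R t qq x z = R - t z - w → h x = hx → P x z + P z x ≤ 5 →
      2 * e x ≤ ((BlkR.nth S (P x z) : ℕ) : ℤ) + N x z →
      N z x' ≤ ((BlkR.nth ny' (P z x') : ℕ) : ℤ) → ∀ Ax Dx : ℕ, Ax ≤ A x z → Dx ≤ D x z →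
      2 * (R - 1) * hx + 2 * (hx * (t z + 1)) + h z * (2 * (R - 1) + 2 * (t x + 1))
        + P x z * (2 * (R - t z)) + P z x * (2 * (R - t x))
        + (Ax * (2 * (R - t z - w)) + Dx * (2 * (R - t z) + 2 * (R - t z - w)))
      ≤ BlkR.nth S (P x z) + (2 * (R + 1) + (2 * ((t x + 1) * (t z + 1))
          + 2 * (R - 1) * (t x + 1 + (t z + 1))) + h z * (h z - 1))
        + (BlkR.nth ny' (P z x') + gv * nr) + Bk.nt (P x z) (P z x) + h z * (2 * hx) := by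
    intro x x' hx S _ ny' hxx hw hhx h5 hF hN Ax Dx hAx hDx
    have hxn : x < n := by omega
    have k1 := C.ER (x := x) (x' := x') hz hxx hN hnr
    rw [← hgr] at k1
    have k2 := C.LDg hxn hzn (show x ≠ z by omega) h5 hF k1
    rw [hw, hhx] at k2
    have k3 := Nat.mul_le_mul_right (R - t z - w) hAx
    have k4 := Nat.mul_le_mul_right (R - t z + (R - t z - w)) hDx
    have k5 : 2 * (R - 1) * hx + 2 * (hx * (t z + 1)) + h z * (2 * (R - 1) + 2 * (t x + 1))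
        + P x z * (2 * (R - t z)) + P z x * (2 * (R - t x))
        + (Ax * (2 * (R - t z - w)) + Dx * (2 * (R - t z) + 2 * (R - t z - w)))
        = 2 * ((R - 1) * (hx + h z) + hx * (t z + 1) + h z * (t x + 1)
          + (P x z * (R - t z) + Ax * (R - t z - w) + Dx * (R - t z + (R - t z - w)))
          + P z x * (R - t x)) := by ring
    have k6 : 2 * (R + 1) + (2 * ((t x + 1) * (t z + 1)) + 2 * (R - 1) * (t x + 1 + (t z + 1)))
        + h z * (2 * hx)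
        = 2 * (R + 1 + hx * h z + (t x + 1) * (t z + 1) + (R - 1) * (t x + t z + 2)) := by ring
    rw [k5]
    omega
  have T : ∀ b' ≤ P 0 z + P 1 z + bv, ∀ i0 ≤ A0, ∀ l0 ≤ D0, ∀ i1 ≤ A1, ∀ l1 ≤ D1,
      2 * R * h z + b' * (2 * (R - t z) + 4 * t z)
        + (i0 * (2 * (R - t z - w) + 4 * t z)
          + l0 * (2 * (R - t z) + 2 * (R - t z - w) + 6 * t z))
        + (i1 * (2 * (R - t z - w) + 4 * t z)
          + l1 * (2 * (R - t z) + 2 * (R - t z - w) + 6 * t z))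
      ≤ h z * (h z - 1) + (BlkR.nth n0 (P z 0) + BlkR.nth n1 (P z 1) + gv * nr)
        + 2 * R * (t z + 1) + (2 * b' + 2 * i0 + 3 * l0 + 2 * i1 + 3 * l1)
          * (2 * h z + (2 * b' + 2 * i0 + 3 * l0 + 2 * i1 + 3 * l1) - 1) := by
    intro b' hb' i0 hi0 l0 hl0 i1 hi1 l1 hl1
    have k1 := C.T2 hzn hz2 E2' (b := b') (a0 := i0) (a1 := i1) (d0 := l0) (d1 := l1) (c0 := 0)
      (c1 := 0) (by rw [sum_part hz2 hzn, ← hbb]; omega) (by omega) (by omega) (by omega) (by omega)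
    rw [w0, w1] at k1
    have k2 := jh' (J := 2 * b' + 2 * i0 + 3 * l0 + 2 * i1 + 3 * l1) (h' := h z)
    have k3 : 2 * b' + (2 * (i0 + 0) + 3 * l0 + (2 * (i1 + 0) + 3 * l1))
        = 2 * b' + 2 * i0 + 3 * l0 + 2 * i1 + 3 * l1 := by ring
    rw [k3] at k1
    have k4 : 2 * R * h z + b' * (2 * (R - t z) + 4 * t z)
        + (i0 * (2 * (R - t z - w) + 4 * t z)
          + l0 * (2 * (R - t z) + 2 * (R - t z - w) + 6 * t z))
        + (i1 * (2 * (R - t z - w) + 4 * t z)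
          + l1 * (2 * (R - t z) + 2 * (R - t z - w) + 6 * t z))
        = 2 * (R * h z + (b' * (R - t z) + (0 * (R - t z) + i0 * (R - t z - w)
          + l0 * (R - t z + (R - t z - w)) + (0 * (R - t z) + i1 * (R - t z - w)
          + l1 * (R - t z + (R - t z - w)))))
          + (2 * b' + 2 * i0 + 3 * l0 + 2 * i1 + 3 * l1) * t z) := by ring
    rw [k4]
    refine k1.trans ?_
    rw [hE]
    omega
  unfold rowOk at ok
  simp only [frN_eq, sel_eq] at ok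
  obtain ⟨o1, o2⟩ := anb_true ok
  have o3 : ga ≤ (den + al) * (t z + 1) := Nat.le_of_ble_eq_true o1
  have RF : BlkR.RowF (2 * R) (t z + 1) (2 * (R - t z) + 4 * t z)
      (2 * (R - t z - w) + 4 * t z) (2 * (R - t z) + 2 * (R - t z - w) + 6 * t z)
      (2 * (R - t z - w) + 4 * t z) (2 * (R - t z) + 2 * (R - t z - w) + 6 * t z)
      G0 G1 (if L0 = 0 then 0 else kc0) (if L1 = 0 then 0 else kc1) u0 u1
      (if VC = 0 then 0 else B - (t z + 1)) Hc nr n0 n1 S0 S1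
      (2 * (R + 1) + (2 * ((a + 1) * (t z + 1)) + 2 * (R - 1) * (a + 1 + (t z + 1))))
      (e0 * (2 * (R - 1) * h0 + 2 * (h0 * (t z + 1)))) (e0 * (2 * (R - 1) + 2 * (a + 1))) (2 * h0)
      (e0 * (2 * (R - t z))) (e0 * (2 * (R - a))) (e0 * (2 * (R - t z - w)))
      (e0 * (2 * (R - t z) + 2 * (R - t z - w)))
      (2 * (R + 1) + (2 * ((b + 1) * (t z + 1)) + 2 * (R - 1) * (b + 1 + (t z + 1))))
      (e1 * (2 * (R - 1) * h1 + 2 * (h1 * (t z + 1)))) (e1 * (2 * (R - 1) + 2 * (b + 1))) (2 * h1)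
      (e1 * (2 * (R - t z))) (e1 * (2 * (R - b))) (e1 * (2 * (R - t z - w)))
      (e1 * (2 * (R - t z) + 2 * (R - t z - w))) Bk.nt
      (h z) (P z 0) (P z 1) gv bv (P 0 z) (P 1 z) A0 D0 A1 D1 := by
    refine ⟨hH, ?_, c0, c1, ?_, ?_, by omega, by omega, ?_, T, ?_, ?_⟩
    · rw [hgv]
      split_ifs <;> omega
    · rw [hA0, hD0]
      split_ifs <;> omega
    · rw [hA1, hD1]
      split_ifs <;> omega
    · rw [hbv]
      split_ifs <;> omega
    · rcases hE0 with h3 | ⟨h3, h4, h5⟩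
      · rw [h3]
        simp only [Nat.zero_mul, Nat.mul_zero, Nat.add_zero]
        exact Nat.zero_le _
      · have k1 := LA (x := 0) (x' := 1) (nx' := n0) (ny' := n1) (Or.inl ⟨rfl, rfl⟩) w0 h4
          (by omega) h5 fz1 A0 D0 lA0 lD0
        rw [h3, ta] at *
        simp only [Nat.one_mul]
        omega
    · rcases hE1 with h3 | ⟨h3, h4, h5⟩
      · rw [h3]
        simp only [Nat.zero_mul, Nat.mul_zero, Nat.add_zero]
        exact Nat.zero_le _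
      · have k1 := LA (x := 1) (x' := 0) (nx' := n0) (ny' := n0) (Or.inr ⟨rfl, rfl⟩) w1 h4
          (by omega) h5 fz0 A1 D1 lA1 lD1
        rw [h3, tb] at *
        simp only [Nat.one_mul]
        omega
  have key := BlkR.chk_sound RF (L0 := L0) (L1 := L1) (V0 := V0) (V1 := V1) (W0 := W0) (W1 := W1)
    (VC := VC) (den := den) (top := (den + al) * (t z + 1) - ga) (nx := nx) (fun h3 => by
      rw [hgv, if_pos h3]
      omega) (by
      have h3 := allN_sound r16 (P z 0) (by show P z 0 < G0 + 1; omega)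
      have h4 := allN_sound h3 (P z 1) (by show P z 1 < G1 + 1; omega)
      exact Nat.le_of_ble_eq_true h4) o2
  have x0 : L0 * (A0 + 2 * D0) = L0 * (A 0 z + 2 * D 0 z) := by
    rw [hA0, hD0]
    split_ifs with h3
    · rw [h3, Nat.zero_mul, Nat.zero_mul]
    · rfl
  have x1 : L1 * (A1 + 2 * D1) = L1 * (A 1 z + 2 * D 1 z) := by
    rw [hA1, hD1]
    split_ifs with h3
    · rw [h3, Nat.zero_mul, Nat.zero_mul]
    · rfl
  have x2 : VC * gv = VC * gr := by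
    rw [hgv]
    split_ifs with h3
    · rw [h3, Nat.zero_mul, Nat.zero_mul]
    · rfl
  have x3 : VC * bv = VC * bb := by
    rw [hbv]
    split_ifs with h3
    · rw [h3, Nat.zero_mul, Nat.zero_mul]
    · rfl
  rw [x0, x1, x2, x3] at key
  omega

end Row

end BlkD

end Pool.Agent.Lib.MP_f04ccf_co
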