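import Pool.Agent.Lib.MP_f04ccf_co.M.BlkT

/-!
MP_f04ccf_co, block certificate, data `R = 16`, `H = 16`, part 1 (generated, helper99:
bd10.cpp, gen2.py).
-/

set_option autoImplicit false
set_option maxRecDepth 100000

namespace Pool.Agent.Lib.MP_f04ccf_co

namespace BlkC

/-- the numbers of the pair `(0, 0)`, `R = 16`, `H = 16` -/
def d16_16_0_0 : BlkD.Pd :=
  ⟨16, 16, 3, 0, 0, 13, 0, 1, 0, 4, 4, 0, 0, 4, 4, 0, [0, 4, 8, 12, 16, 20, 24, 28, 32, 36, 40, 44,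
    48, 52], [0, 4, 8, 12, 16, 20, 24, 28, 32, 36, 40, 44, 48, 52], [⟨1, 1, 1, 4, 8, [0, 4], [0,
    4]⟩]⟩

/-- the certificates of the pair `(0, 0)` -/
def t16_16_0_0 : BlkD.Tr :=
  .S 0 0 (.S 2 0 (.L 3 3 [4] [] [] 100000 0 0 100000 0 0 100000 0 0 0 0) (.E 1)) (.E 0)

lemma pr16_16_0_0 {n : ℕ} (hn : 5 ≤ n) : NoPr ((16 : ℕ) : ℤ) ((16 : ℕ) : ℤ) n 0 0 :=
  BlkD.pair_sound (d := d16_16_0_0) (by decide +kernel) hn (by decide) (tr := t16_16_0_0)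
    (by decide +kernel) rfl rfl rfl rfl

/-- the numbers of the pair `(1, 0)`, `R = 16`, `H = 16` -/
def d16_16_1_0 : BlkD.Pd :=
  ⟨16, 16, 3, 1, 0, 12, 0, 1, 0, 4, 4, 0, 0, 4, 4, 0, [0, 4, 8, 12, 16, 20, 24, 28, 32, 36, 40, 44,
    48], [0, 4, 8, 12, 16, 20, 24, 28, 32, 36, 40, 44, 48], [⟨1, 1, 1, 4, 8, [0, 4], [0, 4]⟩]⟩

/-- the certificates of the pair `(1, 0)` -/
def t16_16_1_0 : BlkD.Tr :=
  .S 0 1 (.S 2 0 (.L 3 3 [4] [] [] 100000 0 0 200000 0 0 0 100000 0 0 0) (.E 1)) (.E 0)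

lemma pr16_16_1_0 {n : ℕ} (hn : 5 ≤ n) : NoPr ((16 : ℕ) : ℤ) ((16 : ℕ) : ℤ) n 1 0 :=
  BlkD.pair_sound (d := d16_16_1_0) (by decide +kernel) hn (by decide) (tr := t16_16_1_0)
    (by decide +kernel) rfl rfl rfl rfl

/-- the numbers of the pair `(1, 1)`, `R = 16`, `H = 16` -/
def d16_16_1_1 : BlkD.Pd :=
  ⟨16, 16, 3, 1, 1, 11, 1, 1, 0, 4, 4, 0, 0, 4, 4, 0, [0, 4, 8, 12, 16, 20, 24, 28, 32, 36, 40,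
    44], [0, 4, 8, 12, 16, 20, 24, 28, 32, 36, 40, 44], [⟨1, 1, 1, 4, 8, [0, 4], [0, 4]⟩, ⟨1, 1, 1,
    4, 8, [0, 4], [0, 4]⟩]⟩

/-- the certificates of the pair `(1, 1)` -/
def t16_16_1_1 : BlkD.Tr :=
  .S 0 1 (.S 2 1 (.L 3 3 [4, 4] [] [] 100000 0 0 400000 0 0 0 0 0 0 0) (.E 1)) (.E 0)

lemma pr16_16_1_1 {n : ℕ} (hn : 5 ≤ n) : NoPr ((16 : ℕ) : ℤ) ((16 : ℕ) : ℤ) n 1 1 :=
  BlkD.pair_sound (d := d16_16_1_1) (by decide +kernel) hn (by decide) (tr := t16_16_1_1)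
    (by decide +kernel) rfl rfl rfl rfl

/-- the numbers of the pair `(2, 0)`, `R = 16`, `H = 16` -/
def d16_16_2_0 : BlkD.Pd :=
  ⟨16, 16, 3, 2, 0, 11, 0, 1, 0, 4, 4, 0, 0, 4, 4, 0, [0, 4, 8, 12, 16, 20, 24, 28, 32, 36, 40,
    44], [0, 4, 8, 12, 16, 20, 24, 28, 32, 36, 40, 44], [⟨1, 1, 1, 4, 8, [0, 4], [0, 4]⟩]⟩

/-- the certificates of the pair `(2, 0)` -/
def t16_16_2_0 : BlkD.Tr :=
  .S 0 2 (.S 2 0 (.L 3 3 [4] [] [] 100000 0 0 300000 0 0 0 100000 0 0 0) (.E 1)) (.E 0)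

lemma pr16_16_2_0 {n : ℕ} (hn : 5 ≤ n) : NoPr ((16 : ℕ) : ℤ) ((16 : ℕ) : ℤ) n 2 0 :=
  BlkD.pair_sound (d := d16_16_2_0) (by decide +kernel) hn (by decide) (tr := t16_16_2_0)
    (by decide +kernel) rfl rfl rfl rfl

/-- the numbers of the pair `(2, 1)`, `R = 16`, `H = 16` -/
def d16_16_2_1 : BlkD.Pd :=
  ⟨16, 16, 3, 2, 1, 10, 1, 1, 0, 4, 4, 0, 0, 4, 4, 0, [0, 4, 8, 12, 16, 20, 24, 28, 32, 36, 40],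
    [0, 4, 8, 12, 16, 20, 24, 28, 32, 36, 40], [⟨1, 1, 1, 4, 8, [0, 4], [0, 4]⟩, ⟨1, 1, 1, 4, 8,
    [0, 4], [0, 4]⟩]⟩

/-- the certificates of the pair `(2, 1)` -/
def t16_16_2_1 : BlkD.Tr :=
  .S 0 2 (.S 2 1 (.L 3 3 [4, 4] [] [] 100000 0 0 500000 0 0 0 0 0 0 0) (.E 1)) (.E 0)

lemma pr16_16_2_1 {n : ℕ} (hn : 5 ≤ n) : NoPr ((16 : ℕ) : ℤ) ((16 : ℕ) : ℤ) n 2 1 :=
  BlkD.pair_sound (d := d16_16_2_1) (by decide +kernel) hn (by decide) (tr := t16_16_2_1)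
    (by decide +kernel) rfl rfl rfl rfl

/-- the numbers of the pair `(2, 2)`, `R = 16`, `H = 16` -/
def d16_16_2_2 : BlkD.Pd :=
  ⟨16, 16, 3, 2, 2, 9, 2, 1, 0, 4, 6, 0, 0, 4, 6, 0, [0, 6, 12, 18, 24, 30, 36, 36, 36, 36], [0, 6,
    12, 18, 24, 30, 36, 36, 36, 36], [⟨1, 1, 1, 4, 8, [0, 4], [0, 4]⟩, ⟨1, 1, 1, 4, 8, [0, 4], [0,
    4]⟩, ⟨1, 1, 1, 6, 12, [0, 6], [0, 6]⟩]⟩

/-- the certificates of the pair `(2, 2)` -/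
def t16_16_2_2 : BlkD.Tr :=
  .S 0 2 (.S 2 2 (.L 4 4 [4, 4, 4] [] [] 100000 1 1 600000 0 0 25000 25000 16667 0 41667) (.E 1))
    (.E 0)

lemma pr16_16_2_2 {n : ℕ} (hn : 5 ≤ n) : NoPr ((16 : ℕ) : ℤ) ((16 : ℕ) : ℤ) n 2 2 :=
  BlkD.pair_sound (d := d16_16_2_2) (by decide +kernel) hn (by decide) (tr := t16_16_2_2)
    (by decide +kernel) rfl rfl rfl rfl

/-- the numbers of the pair `(3, 0)`, `R = 16`, `H = 16` -/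
def d16_16_3_0 : BlkD.Pd :=
  ⟨16, 16, 3, 3, 0, 10, 0, 1, 0, 4, 4, 0, 0, 4, 4, 0, [0, 4, 8, 12, 16, 20, 24, 28, 32, 36, 40],
    [0, 4, 8, 12, 16, 20, 24, 28, 32, 36, 40], [⟨1, 1, 1, 4, 8, [0, 4], [0, 4]⟩]⟩

/-- the certificates of the pair `(3, 0)` -/
def t16_16_3_0 : BlkD.Tr :=
  .S 0 3 (.S 2 0 (.L 3 3 [4] [] [] 100000 0 0 400001 33333 0 33333 66667 0 0 0) (.E 1)) (.E 0)

lemma pr16_16_3_0 {n : ℕ} (hn : 5 ≤ n) : NoPr ((16 : ℕ) : ℤ) ((16 : ℕ) : ℤ) n 3 0 :=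
  BlkD.pair_sound (d := d16_16_3_0) (by decide +kernel) hn (by decide) (tr := t16_16_3_0)
    (by decide +kernel) rfl rfl rfl rfl

/-- the numbers of the pair `(3, 1)`, `R = 16`, `H = 16` -/
def d16_16_3_1 : BlkD.Pd :=
  ⟨16, 16, 3, 3, 1, 9, 1, 1, 0, 4, 6, 0, 0, 4, 4, 0, [0, 6, 12, 18, 24, 30, 36, 36, 36, 36], [0, 4,
    8, 12, 16, 20, 24, 28, 32, 36], [⟨1, 1, 1, 4, 8, [0, 4], [0, 4]⟩, ⟨1, 1, 1, 4, 10, [0, 6], [0,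
    4]⟩]⟩

/-- the certificates of the pair `(3, 1)` -/
def t16_16_3_1 : BlkD.Tr :=
  .S 0 3 (.S 2 1 (.L 3 3 [4, 4] [] [] 100000 0 0 580000 20000 0 40000 0 0 0 0) (.E 1)) (.E 0)

lemma pr16_16_3_1 {n : ℕ} (hn : 5 ≤ n) : NoPr ((16 : ℕ) : ℤ) ((16 : ℕ) : ℤ) n 3 1 :=
  BlkD.pair_sound (d := d16_16_3_1) (by decide +kernel) hn (by decide) (tr := t16_16_3_1)
    (by decide +kernel) rfl rfl rfl rfl

/-- the numbers of the pair `(3, 2)`, `R = 16`, `H = 16` -/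
def d16_16_3_2 : BlkD.Pd :=
  ⟨16, 16, 3, 3, 2, 8, 2, 1, 0, 4, 6, 0, 3, 1, 6, 0, [0, 6, 12, 18, 24, 30, 32, 32, 32], [0, 6, 12,
    17, 20, 23, 26, 29, 32], [⟨1, 1, 1, 4, 8, [0, 4], [0, 4]⟩, ⟨1, 1, 1, 4, 10, [0, 6], [0, 4]⟩,
    ⟨1, 1, 1, 6, 12, [0, 6], [0, 6]⟩]⟩

/-- the certificates of the pair `(3, 2)` -/
def t16_16_3_2 : BlkD.Tr :=
  .S 0 3 (.S 2 2 (.L 4 4 [4, 4, 4] [] [] 100000 0 0 700000 0 0 50000 25000 10000 0 45000) (.E 1))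
    (.E 0)

lemma pr16_16_3_2 {n : ℕ} (hn : 5 ≤ n) : NoPr ((16 : ℕ) : ℤ) ((16 : ℕ) : ℤ) n 3 2 :=
  BlkD.pair_sound (d := d16_16_3_2) (by decide +kernel) hn (by decide) (tr := t16_16_3_2)
    (by decide +kernel) rfl rfl rfl rfl

/-- the numbers of the pair `(3, 3)`, `R = 16`, `H = 16` -/
def d16_16_3_3 : BlkD.Pd :=
  ⟨16, 16, 3, 3, 3, 7, 3, 1, 4, 1, 8, 0, 4, 1, 8, 0, [0, 8, 15, 19, 23, 27, 31, 35], [0, 8, 15, 19,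
    23, 27, 31, 35], [⟨1, 1, 1, 4, 8, [0, 4], [0, 4]⟩, ⟨1, 1, 1, 6, 12, [0, 6], [0, 6]⟩, ⟨1, 1, 1,
    6, 12, [0, 6], [0, 6]⟩, ⟨1, 1, 1, 6, 16, [0, 8], [0, 8]⟩]⟩

/-- the certificates of the pair `(3, 3)` -/
def t16_16_3_3 : BlkD.Tr :=
  .S 0 3 (.S 2 3 (.L 4 4 [4, 4, 4, 5] [] [] 100000 18750 18750 800003 0 0 50000 56250 22321 21429
    50000) (.E 1)) (.E 0)

lemma pr16_16_3_3 {n : ℕ} (hn : 5 ≤ n) : NoPr ((16 : ℕ) : ℤ) ((16 : ℕ) : ℤ) n 3 3 :=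
  BlkD.pair_sound (d := d16_16_3_3) (by decide +kernel) hn (by decide) (tr := t16_16_3_3)
    (by decide +kernel) rfl rfl rfl rfl

/-- the numbers of the pair `(4, 0)`, `R = 16`, `H = 16` -/
def d16_16_4_0 : BlkD.Pd :=
  ⟨16, 16, 3, 4, 0, 9, 0, 1, 0, 4, 4, 0, 0, 4, 4, 0, [0, 4, 8, 12, 16, 20, 24, 28, 32, 36], [0, 4,
    8, 12, 16, 20, 24, 28, 32, 36], [⟨1, 1, 1, 4, 8, [0, 4], [0, 4]⟩]⟩

/-- the certificates of the pair `(4, 0)` -/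
def t16_16_4_0 : BlkD.Tr :=
  .S 0 4 (.S 2 0 (.L 3 3 [4] [] [] 100000 0 0 525000 25000 0 50000 50000 0 0 0) (.E 1)) (.E 0)

lemma pr16_16_4_0 {n : ℕ} (hn : 5 ≤ n) : NoPr ((16 : ℕ) : ℤ) ((16 : ℕ) : ℤ) n 4 0 :=
  BlkD.pair_sound (d := d16_16_4_0) (by decide +kernel) hn (by decide) (tr := t16_16_4_0)
    (by decide +kernel) rfl rfl rfl rfl

/-- the numbers of the pair `(4, 1)`, `R = 16`, `H = 16` -/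
def d16_16_4_1 : BlkD.Pd :=
  ⟨16, 16, 3, 4, 1, 8, 1, 1, 2, 2, 6, 0, 0, 4, 4, 0, [0, 6, 12, 18, 24, 26, 28, 30, 32], [0, 4, 8,
    12, 16, 20, 24, 28, 32], [⟨1, 1, 1, 4, 8, [0, 4], [0, 4]⟩, ⟨1, 1, 1, 4, 10, [0, 6], [0, 4]⟩]⟩

/-- the certificates of the pair `(4, 1)` -/
def t16_16_4_1 : BlkD.Tr :=
  .S 0 4 (.S 2 1 (.L 3 4 [4, 4] [] [] 100000 0 0 675000 25000 0 50000 0 0 0 0) (.E 1)) (.E 0)

lemma pr16_16_4_1 {n : ℕ} (hn : 5 ≤ n) : NoPr ((16 : ℕ) : ℤ) ((16 : ℕ) : ℤ) n 4 1 :=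
  BlkD.pair_sound (d := d16_16_4_1) (by decide +kernel) hn (by decide) (tr := t16_16_4_1)
    (by decide +kernel) rfl rfl rfl rfl

/-- the numbers of the pair `(4, 2)`, `R = 16`, `H = 16` -/
def d16_16_4_2 : BlkD.Pd :=
  ⟨16, 16, 3, 4, 2, 7, 2, 1, 2, 2, 8, 0, 3, 1, 6, 0, [0, 8, 16, 20, 22, 24, 26, 28], [0, 6, 12, 16,
    19, 22, 25, 28], [⟨1, 1, 1, 4, 8, [0, 4], [0, 4]⟩, ⟨1, 1, 1, 4, 10, [0, 6], [0, 4]⟩, ⟨1, 1, 1,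
    6, 14, [0, 8], [0, 6]⟩]⟩

/-- the certificates of the pair `(4, 2)` -/
def t16_16_4_2 : BlkD.Tr :=
  .S 0 4 (.S 2 2 (.L 4 4 [4, 4, 4] [] [] 100000 4898 4898 814288 0 0 85714 42857 14286 30612 45306)
    (.E 1)) (.E 0)

lemma pr16_16_4_2 {n : ℕ} (hn : 5 ≤ n) : NoPr ((16 : ℕ) : ℤ) ((16 : ℕ) : ℤ) n 4 2 :=
  BlkD.pair_sound (d := d16_16_4_2) (by decide +kernel) hn (by decide) (tr := t16_16_4_2)
    (by decide +kernel) rfl rfl rfl rfl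

/-- the numbers of the pair `(4, 3)`, `R = 16`, `H = 16` -/
def d16_16_4_3 : BlkD.Pd :=
  ⟨16, 16, 3, 4, 3, 6, 3, 2, 2, 2, 8, 0, 2, 2, 8, 0, [0, 8, 16, 18, 20, 22, 24], [0, 8, 16, 18, 20,
    22, 24], [⟨1, 1, 1, 4, 8, [0, 4], [0, 4]⟩, ⟨1, 1, 1, 4, 12, [0, 6], [0, 6]⟩, ⟨1, 1, 1, 4, 14,
    [0, 8], [0, 6]⟩, ⟨2, 1, 1, 4, 18, [0, 8, 10], [0, 8]⟩]⟩

/-- the certificates of the pair `(4, 3)` -/
def t16_16_4_3 : BlkD.Tr :=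
  .S 0 4 (.S 2 3 (.L 4 4 [4, 4, 4, 5] [] [] 100000 20421 20421 935138 0 0 64865 64865 16216 22523
    33333) (.E 1)) (.E 0)

lemma pr16_16_4_3 {n : ℕ} (hn : 5 ≤ n) : NoPr ((16 : ℕ) : ℤ) ((16 : ℕ) : ℤ) n 4 3 :=
  BlkD.pair_sound (d := d16_16_4_3) (by decide +kernel) hn (by decide) (tr := t16_16_4_3)
    (by decide +kernel) rfl rfl rfl rfl

/-- the numbers of the pair `(4, 4)`, `R = 16`, `H = 16` -/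
def d16_16_4_4 : BlkD.Pd :=
  ⟨16, 16, 3, 4, 4, 5, 2, 2, 2, 2, 8, 0, 2, 2, 8, 0, [0, 8, 14, 16, 18, 20], [0, 8, 14, 16, 18,
    20], [⟨1, 1, 1, 4, 8, [0, 4], [0, 4]⟩, ⟨1, 1, 1, 4, 12, [0, 6], [0, 6]⟩, ⟨1, 1, 1, 4, 16, [0,
    8], [0, 8]⟩]⟩

/-- the certificates of the pair `(4, 4)` -/
def t16_16_4_4 : BlkD.Tr :=
  .S 0 4 (.S 2 4 (.S 0 2 (.S 0 1 (.L 4 4 [4, 4, 4, 16, 16] [] [] 100000 60000 60000 920000 60000 0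
    80000 60000 0 0 0) (.L 4 4 [4, 4, 4, 16, 16] [] [] 100000 12500 12500 1068750 6250 6250 59375
    90625 15625 9375 50000)) (.L 4 4 [4, 4, 4, 16, 16] [] [] 100000 8750 8750 1062500 0 12500 53125
    59375 21875 10625 50000)) (.E 1)) (.E 0)

lemma pr16_16_4_4 {n : ℕ} (hn : 5 ≤ n) : NoPr ((16 : ℕ) : ℤ) ((16 : ℕ) : ℤ) n 4 4 :=
  BlkD.pair_sound (d := d16_16_4_4) (by decide +kernel) hn (by decide) (tr := t16_16_4_4)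
    (by decide +kernel) rfl rfl rfl rfl

/-- the numbers of the pair `(5, 0)`, `R = 16`, `H = 16` -/
def d16_16_5_0 : BlkD.Pd :=
  ⟨16, 16, 3, 5, 0, 8, 0, 1, 0, 4, 4, 0, 0, 4, 4, 0, [0, 4, 8, 12, 16, 20, 24, 28, 32], [0, 4, 8,
    12, 16, 20, 24, 28, 32], [⟨1, 1, 1, 4, 8, [0, 4], [0, 4]⟩]⟩

/-- the certificates of the pair `(5, 0)` -/
def t16_16_5_0 : BlkD.Tr :=
  .S 0 5 (.S 2 0 (.L 3 3 [4] [] [] 100000 0 0 600000 50000 0 50000 50000 0 0 0) (.E 1)) (.E 0)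

lemma pr16_16_5_0 {n : ℕ} (hn : 5 ≤ n) : NoPr ((16 : ℕ) : ℤ) ((16 : ℕ) : ℤ) n 5 0 :=
  BlkD.pair_sound (d := d16_16_5_0) (by decide +kernel) hn (by decide) (tr := t16_16_5_0)
    (by decide +kernel) rfl rfl rfl rfl

/-- the numbers of the pair `(5, 1)`, `R = 16`, `H = 16` -/
def d16_16_5_1 : BlkD.Pd :=
  ⟨16, 16, 3, 5, 1, 7, 1, 1, 2, 2, 6, 0, 0, 4, 4, 0, [0, 6, 12, 18, 22, 24, 26, 28], [0, 4, 8, 12,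
    16, 20, 24, 28], [⟨1, 1, 1, 4, 8, [0, 4], [0, 4]⟩, ⟨1, 1, 1, 4, 10, [0, 6], [0, 4]⟩]⟩

/-- the certificates of the pair `(5, 1)` -/
def t16_16_5_1 : BlkD.Tr :=
  .S 0 5 (.S 2 1 (.L 3 4 [4, 4] [] [] 100000 0 0 811112 22222 0 55556 0 11111 11111 11111) (.E 1))
    (.E 0)

lemma pr16_16_5_1 {n : ℕ} (hn : 5 ≤ n) : NoPr ((16 : ℕ) : ℤ) ((16 : ℕ) : ℤ) n 5 1 :=
  BlkD.pair_sound (d := d16_16_5_1) (by decide +kernel) hn (by decide) (tr := t16_16_5_1)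
    (by decide +kernel) rfl rfl rfl rfl

/-- the numbers of the pair `(5, 2)`, `R = 16`, `H = 16` -/
def d16_16_5_2 : BlkD.Pd :=
  ⟨16, 16, 3, 5, 2, 6, 2, 1, 2, 2, 8, 0, 3, 1, 6, 0, [0, 8, 16, 18, 20, 22, 24], [0, 6, 12, 15, 18,
    21, 24], [⟨1, 1, 1, 4, 8, [0, 4], [0, 4]⟩, ⟨1, 1, 1, 4, 10, [0, 6], [0, 4]⟩, ⟨1, 1, 1, 4, 14,
    [0, 8], [0, 6]⟩]⟩

/-- the certificates of the pair `(5, 2)` -/
def t16_16_5_2 : BlkD.Tr :=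
  .S 0 5 (.S 2 2 (.L 4 5 [4, 4, 4] [] [] 100000 0 0 968631 7843 0 84314 30392 8824 32353 30392) (.E
    1)) (.E 0)

lemma pr16_16_5_2 {n : ℕ} (hn : 5 ≤ n) : NoPr ((16 : ℕ) : ℤ) ((16 : ℕ) : ℤ) n 5 2 :=
  BlkD.pair_sound (d := d16_16_5_2) (by decide +kernel) hn (by decide) (tr := t16_16_5_2)
    (by decide +kernel) rfl rfl rfl rfl

end BlkC

end Pool.Agent.Lib.MP_f04ccf_co
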