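import Pool.Agent.Lib.MP_f04ccf_co.M.BlkT

/-!
MP_f04ccf_co, block certificate, data `R = 16`, `H = 16`, part 2 (generated, helper99:
bd10.cpp, gen2.py).
-/

set_option autoImplicit false
set_option maxRecDepth 100000

namespace Pool.Agent.Lib.MP_f04ccf_co

namespace BlkC

/-- the numbers of the pair `(5, 3)`, `R = 16`, `H = 16` -/
def d16_16_5_3 : BlkD.Pd :=
  ⟨16, 16, 3, 5, 3, 5, 2, 2, 2, 2, 8, 0, 2, 2, 6, 0, [0, 8, 14, 16, 18, 20], [0, 6, 12, 16, 18,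
    20], [⟨1, 1, 1, 4, 8, [0, 4], [0, 4]⟩, ⟨1, 1, 1, 4, 12, [0, 6], [0, 6]⟩, ⟨1, 1, 1, 4, 14, [0,
    8], [0, 6]⟩]⟩

/-- the certificates of the pair `(5, 3)` -/
def t16_16_5_3 : BlkD.Tr :=
  .S 0 5 (.S 2 3 (.S 0 2 (.L 4 5 [4, 4, 4, 16] [] [] 100000 807 807 1093549 1613 1613 98387 49194 0
    19355 39516) (.L 4 5 [4, 4, 4, 16] [] [] 100000 807 807 1093549 1613 1613 98387 49194 0 19355
    39516)) (.E 1)) (.E 0)

lemma pr16_16_5_3 {n : ℕ} (hn : 5 ≤ n) : NoPr ((16 : ℕ) : ℤ) ((16 : ℕ) : ℤ) n 5 3 :=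
  BlkD.pair_sound (d := d16_16_5_3) (by decide +kernel) hn (by decide) (tr := t16_16_5_3)
    (by decide +kernel) rfl rfl rfl rfl

/-- the numbers of the pair `(5, 4)`, `R = 16`, `H = 16` -/
def d16_16_5_4 : BlkD.Pd :=
  ⟨16, 16, 3, 5, 4, 4, 1, 2, 2, 2, 6, 0, 2, 2, 6, 0, [0, 6, 12, 14, 16], [0, 6, 12, 14, 16], [⟨1,
    1, 1, 4, 8, [0, 4], [0, 4]⟩, ⟨1, 1, 1, 4, 12, [0, 6], [0, 6]⟩]⟩

/-- the certificates of the pair `(5, 4)` -/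
def t16_16_5_4 : BlkD.Tr :=
  .S 0 5 (.S 2 4 (.S 0 2 (.L 4 4 [4, 4, 16, 16, 16] [] [] 100000 7141 7141 1185717 28571 0 57143
    35714 7143 7143 7143) (.L 5 5 [4, 3, 16, 16, 16] [] [] 100000 0 0 1183335 8333 8333 83333 75000
    0 0 0)) (.E 1)) (.E 0)

lemma pr16_16_5_4 {n : ℕ} (hn : 5 ≤ n) : NoPr ((16 : ℕ) : ℤ) ((16 : ℕ) : ℤ) n 5 4 :=
  BlkD.pair_sound (d := d16_16_5_4) (by decide +kernel) hn (by decide) (tr := t16_16_5_4)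
    (by decide +kernel) rfl rfl rfl rfl

/-- the numbers of the pair `(6, 0)`, `R = 16`, `H = 16` -/
def d16_16_6_0 : BlkD.Pd :=
  ⟨16, 16, 3, 6, 0, 7, 0, 1, 0, 4, 4, 0, 0, 4, 4, 0, [0, 4, 8, 12, 16, 20, 24, 28], [0, 4, 8, 12,
    16, 20, 24, 28], [⟨1, 1, 1, 4, 8, [0, 4], [0, 4]⟩]⟩

/-- the certificates of the pair `(6, 0)` -/
def t16_16_6_0 : BlkD.Tr :=
  .S 0 6 (.S 2 0 (.L 3 3 [4] [] [] 100000 0 0 725000 50000 0 75000 25000 0 0 0) (.E 1)) (.E 0)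

lemma pr16_16_6_0 {n : ℕ} (hn : 5 ≤ n) : NoPr ((16 : ℕ) : ℤ) ((16 : ℕ) : ℤ) n 6 0 :=
  BlkD.pair_sound (d := d16_16_6_0) (by decide +kernel) hn (by decide) (tr := t16_16_6_0)
    (by decide +kernel) rfl rfl rfl rfl

/-- the numbers of the pair `(6, 1)`, `R = 16`, `H = 16` -/
def d16_16_6_1 : BlkD.Pd :=
  ⟨16, 16, 3, 6, 1, 6, 1, 1, 2, 2, 6, 0, 0, 4, 4, 0, [0, 6, 12, 18, 20, 22, 24], [0, 4, 8, 12, 16,
    20, 24], [⟨1, 1, 1, 4, 8, [0, 4], [0, 4]⟩, ⟨1, 1, 1, 4, 10, [0, 6], [0, 4]⟩]⟩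

/-- the certificates of the pair `(6, 1)` -/
def t16_16_6_1 : BlkD.Tr :=
  .S 0 6 (.S 2 1 (.L 3 4 [4, 4] [] [] 100000 1 1 997142 17143 0 63810 0 2857 2857 2857) (.E 1)) (.E
    0)

lemma pr16_16_6_1 {n : ℕ} (hn : 5 ≤ n) : NoPr ((16 : ℕ) : ℤ) ((16 : ℕ) : ℤ) n 6 1 :=
  BlkD.pair_sound (d := d16_16_6_1) (by decide +kernel) hn (by decide) (tr := t16_16_6_1)
    (by decide +kernel) rfl rfl rfl rfl

/-- the numbers of the pair `(6, 2)`, `R = 16`, `H = 16` -/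
def d16_16_6_2 : BlkD.Pd :=
  ⟨16, 16, 3, 6, 2, 5, 2, 2, 2, 2, 8, 0, 3, 1, 6, 0, [0, 8, 14, 16, 18, 20], [0, 6, 11, 14, 17,
    20], [⟨1, 1, 1, 4, 8, [0, 4], [0, 4]⟩, ⟨1, 1, 1, 4, 10, [0, 6], [0, 4]⟩, ⟨2, 1, 1, 4, 16, [0,
    8, 10], [0, 6]⟩]⟩

lemma k16_16_6_2 : BlkD.pairOk d16_16_6_2 = true := by decide +kernel

/-- certificates of the pair `(6, 2)`, part 1 -/
def t16_16_6_2_1 : BlkD.Tr :=
  .S 0 1 (.L 4 5 [4, 4, 4] [] [] 100000 100000 100000 500000 100000 0 100000 0 0 0 0) (.S 0 2 (.L 4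
    5 [4, 4, 4] [] [] 100000 140001 140001 800001 66667 0 100000 33333 0 6667 20000) (.S 1 13 (.S 1
    6 (.S 1 3 (.L 4 5 [4, 4, 4] [] [] 100000 42001 42001 860000 20000 0 20000 40000 0 10667 5333)
    (.S 1 5 (.L 4 5 [4, 4, 4] [] [] 100000 18657 18657 1022388 19403 0 19403 40299 0 28358 34328)
    (.L 4 5 [4, 4, 4] [94, 92, 90, 88, 82, 74] [] 100000 40000 40000 1000002 33333 0 66667 33333 0
    20000 10000))) (.S 1 10 (.S 1 8 (.S 1 7 (.L 4 5 [4, 4, 4] [114, 112, 110, 108, 106, 100] []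
    100000 50000 50000 950000 37500 0 100000 37500 0 12500 12500) (.L 4 5 [4, 4, 4] [136, 134, 132,
    130, 128, 126] [] 100000 81818 54545 754546 63636 0 127273 18182 0 0 9091)) (.E 0)) (.E 0)))
    (.E 0)))

lemma s16_16_6_2_1 {n : ℕ} (hn : 5 ≤ n) : NoNd (d16_16_6_2.R : ℤ) d16_16_6_2.H n d16_16_6_2.a d16_16_6_2.b
    (BlkD.inB (fun _ => 0)
      (BlkD.upd (BlkD.upd (BlkD.upd (fun _ => 16) 0 6) 2 2) 0 3)) :=
  BlkD.tree_sound (BlkD.pairOk_sound k16_16_6_2) (by decide) hn t16_16_6_2_1 _ _ (by decide +kernel)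

/-- certificates of the pair `(6, 2)`, part 2 -/
def t16_16_6_2_2 : BlkD.Tr :=
  .S 0 5 (.S 0 4 (.S 1 12 (.S 1 6 (.S 1 3 (.L 4 5 [4, 4, 4] [] [] 100000 10910 10910 963636 18182 0
    18182 40909 0 32727 45455) (.S 1 5 (.S 1 4 (.L 4 5 [4, 4, 4] [68, 66, 60, 52, 44, 0] [] 100000
    16000 16000 1040000 20000 0 20000 40000 0 28000 40000) (.L 4 5 [4, 4, 4] [86, 84, 82, 76, 68,
    60] [] 100000 23779 23779 1006666 29778 0 74222 33778 4000 17333 27111)) (.L 4 5 [4, 4, 4]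
    [106, 104, 102, 100, 94, 86] [] 100000 33334 33334 944447 33333 0 94444 33333 0 11111 22222)))
    (.L 4 5 [4, 4, 4] [] [] 100000 160000 0 0 0 0 260000 0 0 0 0)) (.E 0)) (.L 4 5 [4, 4, 4] [] []
    100000 0 0 1095745 1420 0 50710 49290 11968 27181 48884)) (.L 4 5 [4, 4, 4] [] [] 100000 1 1
    1008333 0 0 91667 16667 8333 33333 50000)

lemma s16_16_6_2_2 {n : ℕ} (hn : 5 ≤ n) : NoNd (d16_16_6_2.R : ℤ) d16_16_6_2.H n d16_16_6_2.a d16_16_6_2.b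
    (BlkD.inB (BlkD.upd (fun _ => 0) 0 4)
      (BlkD.upd (BlkD.upd (fun _ => 16) 0 6) 2 2)) :=
  BlkD.tree_sound (BlkD.pairOk_sound k16_16_6_2) (by decide) hn t16_16_6_2_2 _ _ (by decide +kernel)

/-- certificates of the pair `(6, 2)`, part 3 -/
def t16_16_6_2_3 : BlkD.Tr :=
  .E 1

lemma s16_16_6_2_3 {n : ℕ} (hn : 5 ≤ n) : NoNd (d16_16_6_2.R : ℤ) d16_16_6_2.H n d16_16_6_2.a d16_16_6_2.b
    (BlkD.inB (BlkD.upd (fun _ => 0) 2 3)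
      (BlkD.upd (fun _ => 16) 0 6)) :=
  BlkD.tree_sound (BlkD.pairOk_sound k16_16_6_2) (by decide) hn t16_16_6_2_3 _ _ (by decide +kernel)

/-- certificates of the pair `(6, 2)`, part 4 -/
def t16_16_6_2_4 : BlkD.Tr :=
  .E 0

lemma s16_16_6_2_4 {n : ℕ} (hn : 5 ≤ n) : NoNd (d16_16_6_2.R : ℤ) d16_16_6_2.H n d16_16_6_2.a d16_16_6_2.b
    (BlkD.inB (BlkD.upd (fun _ => 0) 0 7)
      (fun _ => 16)) :=
  BlkD.tree_sound (BlkD.pairOk_sound k16_16_6_2) (by decide) hn t16_16_6_2_4 _ _ (by decide +kernel)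

lemma pr16_16_6_2 {n : ℕ} (hn : 5 ≤ n) : NoPr ((16 : ℕ) : ℤ) ((16 : ℕ) : ℤ) n 6 2 :=
  BlkD.of_root (R := d16_16_6_2.R) (H := d16_16_6_2.H) (a := d16_16_6_2.a) (b := d16_16_6_2.b) (q := 3) (by decide) hn
    (BlkD.sp 0 6 (BlkD.sp 2 2 (BlkD.sp 0 3 (s16_16_6_2_1 hn) (s16_16_6_2_2 hn)) (s16_16_6_2_3 hn))
      (s16_16_6_2_4 hn))

/-- the numbers of the pair `(6, 3)`, `R = 16`, `H = 16` -/
def d16_16_6_3 : BlkD.Pd :=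
  ⟨16, 16, 3, 6, 3, 4, 1, 2, 2, 2, 6, 0, 2, 2, 6, 0, [0, 6, 12, 14, 16], [0, 6, 12, 14, 16], [⟨1,
    1, 1, 4, 8, [0, 4], [0, 4]⟩, ⟨1, 1, 1, 4, 12, [0, 6], [0, 6]⟩]⟩

/-- the certificates of the pair `(6, 3)` -/
def t16_16_6_3 : BlkD.Tr :=
  .S 0 6 (.S 2 3 (.S 0 3 (.S 0 1 (.L 4 5 [4, 3, 16, 16] [] [] 100000 25000 25000 1075000 50000 0
    75000 75000 0 0 0) (.L 4 5 [4, 3, 16, 16] [] [] 100000 25000 25000 1075000 50000 0 75000 75000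
    0 0 0)) (.S 0 5 (.L 4 5 [4, 3, 16, 16] [] [] 100000 1 1 1190909 27273 0 63636 25000 0 0 0) (.L
    4 5 [4, 3, 16, 16] [] [] 100000 0 0 1100000 0 0 100000 50000 0 0 0))) (.E 1)) (.E 0)

lemma pr16_16_6_3 {n : ℕ} (hn : 5 ≤ n) : NoPr ((16 : ℕ) : ℤ) ((16 : ℕ) : ℤ) n 6 3 :=
  BlkD.pair_sound (d := d16_16_6_3) (by decide +kernel) hn (by decide) (tr := t16_16_6_3)
    (by decide +kernel) rfl rfl rfl rfl

end BlkC

end Pool.Agent.Lib.MP_f04ccf_co
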