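import Pool.Agent.Lib.MP_f04ccf_co.M.BlkT

/-!
MP_f04ccf_co, block certificate, data `R = 16`, `H = 16`, part 3 (generated, helper99:
bd10.cpp, gen2.py).
-/

set_option autoImplicit false
set_option maxRecDepth 100000

namespace Pool.Agent.Lib.MP_f04ccf_co

namespace BlkC

/-- the numbers of the pair `(7, 0)`, `R = 16`, `H = 16` -/
def d16_16_7_0 : BlkD.Pd :=
  ⟨16, 16, 3, 7, 0, 6, 0, 1, 0, 4, 4, 0, 0, 4, 4, 0, [0, 4, 8, 12, 16, 20, 24], [0, 4, 8, 12, 16,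
    20, 24], [⟨1, 1, 1, 4, 8, [0, 4], [0, 4]⟩]⟩

/-- the certificates of the pair `(7, 0)` -/
def t16_16_7_0 : BlkD.Tr :=
  .S 0 7 (.S 2 0 (.L 3 3 [4] [] [] 100000 0 0 870000 50000 0 80000 0 0 0 0) (.E 1)) (.E 0)

lemma pr16_16_7_0 {n : ℕ} (hn : 5 ≤ n) : NoPr ((16 : ℕ) : ℤ) ((16 : ℕ) : ℤ) n 7 0 :=
  BlkD.pair_sound (d := d16_16_7_0) (by decide +kernel) hn (by decide) (tr := t16_16_7_0)
    (by decide +kernel) rfl rfl rfl rfl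

/-- the numbers of the pair `(7, 1)`, `R = 16`, `H = 16` -/
def d16_16_7_1 : BlkD.Pd :=
  ⟨16, 16, 3, 7, 1, 5, 1, 1, 2, 2, 6, 0, 0, 4, 4, 0, [0, 6, 12, 16, 18, 20], [0, 4, 8, 12, 16, 20],
    [⟨1, 1, 1, 4, 8, [0, 4], [0, 4]⟩, ⟨1, 1, 1, 4, 10, [0, 6], [0, 4]⟩]⟩

/-- the certificates of the pair `(7, 1)` -/
def t16_16_7_1 : BlkD.Tr :=
  .S 0 7 (.S 2 1 (.S 0 3 (.L 3 4 [4, 4] [] [] 100000 50000 50000 900000 50000 0 100000 0 0 0 0) (.S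
    0 5 (.S 0 4 (.S 1 12 (.S 1 6 (.L 3 4 [4, 4] [] [] 100000 0 0 1050000 25000 0 25000 0 0 0 0) (.S
    1 9 (.S 1 8 (.S 1 7 (.L 3 4 [4, 4] [126, 124, 122, 120, 116, 110] [] 100000 0 0 1066669 33333 0
    33333 0 0 33333 33333) (.L 3 4 [4, 4] [150, 148, 146, 144, 142, 138] [] 100000 0 0 1028574
    28571 0 100000 0 0 14286 14286)) (.L 3 4 [4, 4] [176, 174, 172, 170, 168, 166] [] 100000 0 0
    1000002 33333 0 100000 0 0 0 0)) (.L 3 4 [4, 4] [] [] 100000 0 0 1050000 25000 0 100000 0 0 0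
    0))) (.E 0)) (.S 1 11 (.S 1 5 (.S 1 2 (.L 3 4 [4, 4] [] [] 100000 0 0 800000 50000 0 50000 0 0
    0 0) (.S 1 4 (.L 3 4 [4, 4] [] [] 100000 0 0 1000000 25000 0 25000 0 0 0 0) (.L 3 4 [4, 4] [94,
    92, 88, 82, 76, 70] [] 100000 0 0 1046155 30769 0 30769 0 0 23077 23077))) (.S 1 8 (.S 1 7 (.S
    1 6 (.L 3 4 [4, 4] [116, 114, 112, 108, 102, 96] [] 100000 0 0 1057145 28571 0 100000 0 0 14286
    14286) (.L 3 4 [4, 4] [140, 138, 136, 134, 130, 124] [] 100000 20000 0 900000 40000 0 120000 0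
    0 0 0)) (.L 3 4 [4, 4] [166, 164, 162, 160, 158, 154] [] 100000 200000 0 0 100000 0 300000 0 0
    0 0)) (.E 0))) (.E 0))) (.L 3 4 [4, 4] [] [] 100000 2 2 1057142 14286 0 100000 0 0 0 0))) (.E
    1)) (.E 0)

lemma pr16_16_7_1 {n : ℕ} (hn : 5 ≤ n) : NoPr ((16 : ℕ) : ℤ) ((16 : ℕ) : ℤ) n 7 1 :=
  BlkD.pair_sound (d := d16_16_7_1) (by decide +kernel) hn (by decide) (tr := t16_16_7_1)
    (by decide +kernel) rfl rfl rfl rfl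

/-- the numbers of the pair `(7, 2)`, `R = 16`, `H = 16` -/
def d16_16_7_2 : BlkD.Pd :=
  ⟨16, 16, 3, 7, 2, 4, 1, 2, 2, 2, 6, 0, 0, 4, 4, 0, [0, 6, 12, 14, 16], [0, 4, 8, 12, 16], [⟨1, 1,
    1, 4, 8, [0, 4], [0, 4]⟩, ⟨1, 1, 1, 4, 10, [0, 6], [0, 4]⟩]⟩

/-- the certificates of the pair `(7, 2)` -/
def t16_16_7_2 : BlkD.Tr :=
  .S 0 7 (.S 2 2 (.S 0 3 (.S 0 1 (.L 4 5 [4, 3, 16] [] [] 100000 112500 112500 950000 75000 0 87500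
    25000 0 0 0) (.L 4 5 [4, 3, 16] [] [] 100000 112500 112500 950000 75000 0 87500 25000 0 0 0))
    (.S 0 5 (.S 0 4 (.L 4 5 [4, 3, 16] [] [] 100000 75000 75000 1100000 50000 0 75000 50000 0 0 0)
    (.S 1 11 (.S 1 5 (.L 4 5 [4, 3, 16] [] [] 100000 0 0 1166669 33333 0 33333 33333 0 0 0) (.S 1 8
    (.S 1 7 (.S 1 6 (.L 4 5 [4, 3, 16] [120, 118, 116, 110, 104, 98] [] 100000 25000 25000 1125000
    50000 0 75000 25000 0 0 0) (.L 4 5 [4, 3, 16] [144, 142, 140, 138, 132, 126] [] 100000 0 0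
    1100002 33333 0 100000 33333 0 0 0)) (.L 4 5 [4, 3, 16] [170, 168, 166, 164, 162, 156] []
    100000 100000 0 700000 100000 0 200000 0 0 0 0)) (.L 4 5 [4, 3, 16] [] [] 100000 240910 1 0
    68182 0 340909 0 0 0 0))) (.E 0))) (.L 4 5 [4, 3, 16] [] [] 100000 2 2 1166666 16667 0 83333
    41667 0 0 0))) (.E 1)) (.E 0)

lemma pr16_16_7_2 {n : ℕ} (hn : 5 ≤ n) : NoPr ((16 : ℕ) : ℤ) ((16 : ℕ) : ℤ) n 7 2 :=
  BlkD.pair_sound (d := d16_16_7_2) (by decide +kernel) hn (by decide) (tr := t16_16_7_2)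
    (by decide +kernel) rfl rfl rfl rfl

/-- the numbers of the pair `(7, 3)`, `R = 16`, `H = 16` -/
def d16_16_7_3 : BlkD.Pd :=
  ⟨16, 16, 3, 7, 3, 3, 0, 2, 0, 4, 4, 0, 0, 4, 4, 0, [0, 4, 8, 12], [0, 4, 8, 12], [⟨1, 1, 1, 4, 8,
    [0, 4], [0, 4]⟩]⟩

/-- the certificates of the pair `(7, 3)` -/
def t16_16_7_3 : BlkD.Tr :=
  .S 0 7 (.S 2 3 (.S 0 3 (.L 3 3 [4, 16, 16, 16] [] [] 100000 0 0 1200001 66667 33333 100000 33333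
    0 0 0) (.L 3 3 [4, 16, 16, 16] [] [] 100000 0 0 1200001 66667 33333 100000 33333 0 0 0)) (.E
    1)) (.E 0)

lemma pr16_16_7_3 {n : ℕ} (hn : 5 ≤ n) : NoPr ((16 : ℕ) : ℤ) ((16 : ℕ) : ℤ) n 7 3 :=
  BlkD.pair_sound (d := d16_16_7_3) (by decide +kernel) hn (by decide) (tr := t16_16_7_3)
    (by decide +kernel) rfl rfl rfl rfl

/-- the numbers of the pair `(8, 0)`, `R = 16`, `H = 16` -/
def d16_16_8_0 : BlkD.Pd :=
  ⟨16, 16, 3, 8, 0, 5, 0, 1, 0, 4, 4, 0, 0, 4, 4, 0, [0, 4, 8, 12, 16, 20], [0, 4, 8, 12, 16, 20],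
    [⟨1, 1, 1, 4, 8, [0, 4], [0, 4]⟩]⟩

/-- the certificates of the pair `(8, 0)` -/
def t16_16_8_0 : BlkD.Tr :=
  .S 0 8 (.S 2 0 (.L 3 3 [4] [] [] 100000 0 0 900000 100000 0 100000 0 0 0 0) (.E 1)) (.E 0)

lemma pr16_16_8_0 {n : ℕ} (hn : 5 ≤ n) : NoPr ((16 : ℕ) : ℤ) ((16 : ℕ) : ℤ) n 8 0 :=
  BlkD.pair_sound (d := d16_16_8_0) (by decide +kernel) hn (by decide) (tr := t16_16_8_0)
    (by decide +kernel) rfl rfl rfl rfl

/-- the numbers of the pair `(8, 1)`, `R = 16`, `H = 16` -/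
def d16_16_8_1 : BlkD.Pd :=
  ⟨16, 16, 3, 8, 1, 4, 1, 1, 0, 4, 8, 0, 0, 4, 4, 0, [0, 8, 16, 16, 16], [0, 4, 8, 12, 16], [⟨1, 1,
    1, 4, 8, [0, 4], [0, 4]⟩, ⟨1, 1, 1, 4, 12, [0, 8], [0, 4]⟩]⟩

/-- the certificates of the pair `(8, 1)` -/
def t16_16_8_1 : BlkD.Tr :=
  .S 0 8 (.S 2 1 (.S 0 4 (.L 4 6 [4, 3] [] [] 100000 220000 220000 940000 80000 0 100000 60000 0 0
    0) (.S 0 6 (.S 0 5 (.S 1 11 (.S 1 5 (.L 4 6 [4, 3] [] [] 100000 0 0 1075000 25000 0 25000 0 0 0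
    0) (.S 1 8 (.S 1 7 (.L 4 6 [4, 3] [] [] 100000 0 0 1166669 33333 0 33333 33333 0 0 0) (.L 4 6
    [4, 3] [160, 160, 160, 160, 160, 160] [] 100000 100001 100001 1033333 66667 0 100000 33333 0 0
    0)) (.S 1 10 (.S 1 9 (.L 4 6 [4, 3] [186, 186, 186, 186, 186, 186] [] 100000 200000 200000
    900000 100000 0 100000 0 0 0 0) (.L 4 6 [4, 3] [214, 214, 214, 214, 214, 214] [] 100000 200000
    200000 900000 100000 0 100000 0 0 0 0)) (.L 4 6 [4, 3] [244, 244, 244, 244, 244, 244] [] 100000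
    500000 300000 0 200000 0 300000 0 0 0 0)))) (.E 0)) (.S 1 10 (.S 1 5 (.L 4 6 [4, 3] [] []
    100000 2 2 1127273 36364 0 54545 18182 0 0 0) (.S 1 8 (.S 1 7 (.S 1 6 (.L 4 6 [4, 3] [126, 126,
    126, 126, 118, 110] [] 100000 0 0 1142858 42857 0 64286 28571 0 0 0) (.L 4 6 [4, 3] [150, 150,
    150, 150, 150, 142] [] 100000 50000 50000 1100000 50000 0 100000 50000 0 0 0)) (.L 3 4 [4, 4]
    [176, 176, 176, 176, 176, 176] [] 100000 200000 200000 900000 100000 0 100000 0 0 0 0)) (.S 1 9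
    (.L 3 4 [4, 4] [204, 204, 204, 204, 204, 204] [] 100000 200000 200000 900000 100000 0 100000 0
    0 0 0) (.L 3 4 [4, 4] [234, 234, 234, 234, 234, 234] [] 100000 255556 0 0 177778 0 355556 0 0 0
    0)))) (.E 0))) (.S 0 7 (.S 1 9 (.S 1 4 (.L 4 6 [4, 3] [] [] 100000 0 0 1128572 42857 0 42857
    28571 0 0 0) (.S 1 7 (.S 1 6 (.S 1 5 (.L 4 6 [4, 3] [114, 114, 114, 106, 98, 90] [] 100000
    50000 50000 1100000 50000 0 100000 50000 0 0 0) (.L 4 6 [4, 3] [138, 138, 138, 138, 130, 122]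
    [] 100000 0 0 1128572 42857 0 100000 28571 0 0 0)) (.L 4 6 [4, 3] [164, 164, 164, 164, 164,
    156] [] 100000 0 0 1100000 50000 0 100000 0 0 0 0)) (.S 1 8 (.L 4 6 [4, 3] [192, 192, 192, 192,
    192, 192] [] 100000 500000 300000 0 300000 0 300000 0 0 0 0) (.E 0)))) (.E 0)) (.L 4 6 [4, 3]
    [] [] 100000 0 0 1164706 17647 0 58824 0 0 0 0)))) (.E 1)) (.E 0)

lemma pr16_16_8_1 {n : ℕ} (hn : 5 ≤ n) : NoPr ((16 : ℕ) : ℤ) ((16 : ℕ) : ℤ) n 8 1 :=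
  BlkD.pair_sound (d := d16_16_8_1) (by decide +kernel) hn (by decide) (tr := t16_16_8_1)
    (by decide +kernel) rfl rfl rfl rfl

end BlkC

end Pool.Agent.Lib.MP_f04ccf_co
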