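import Pool.Agent.Lib.MP_f04ccf_co.M.BlkT

/-!
MP_f04ccf_co, block certificate, data `R = 16`, `H = 16`, part 4 (generated, helper99:
bd10.cpp, gen2.py).
-/

set_option autoImplicit false
set_option maxRecDepth 100000

namespace Pool.Agent.Lib.MP_f04ccf_co

namespace BlkC

/-- the numbers of the pair `(8, 2)`, `R = 16`, `H = 16` -/
def d16_16_8_2 : BlkD.Pd :=
  ⟨16, 16, 3, 8, 2, 3, 0, 2, 0, 4, 4, 0, 0, 4, 4, 0, [0, 4, 8, 12], [0, 4, 8, 12], [⟨1, 1, 1, 4, 8,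
    [0, 4], [0, 4]⟩]⟩

/-- the certificates of the pair `(8, 2)` -/
def t16_16_8_2 : BlkD.Tr :=
  .S 0 8 (.S 2 2 (.S 0 4 (.L 3 3 [4, 16, 16] [] [] 100000 0 0 1200000 66667 0 100000 33333 0 0 0)
    (.L 3 3 [4, 16, 16] [] [] 100000 0 0 1200000 66667 0 100000 33333 0 0 0)) (.E 1)) (.E 0)

lemma pr16_16_8_2 {n : ℕ} (hn : 5 ≤ n) : NoPr ((16 : ℕ) : ℤ) ((16 : ℕ) : ℤ) n 8 2 :=
  BlkD.pair_sound (d := d16_16_8_2) (by decide +kernel) hn (by decide) (tr := t16_16_8_2)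
    (by decide +kernel) rfl rfl rfl rfl

/-- the numbers of the pair `(9, 0)`, `R = 16`, `H = 16` -/
def d16_16_9_0 : BlkD.Pd :=
  ⟨16, 16, 3, 9, 0, 4, 0, 1, 0, 4, 4, 0, 0, 4, 4, 0, [0, 4, 8, 12, 16], [0, 4, 8, 12, 16], [⟨1, 1,
    1, 4, 8, [0, 4], [0, 4]⟩]⟩

/-- the certificates of the pair `(9, 0)` -/
def t16_16_9_0 : BlkD.Tr :=
  .S 0 9 (.S 2 0 (.L 3 3 [4] [] [] 100000 0 0 1000000 100000 0 100000 0 0 0 0) (.E 1)) (.E 0)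

lemma pr16_16_9_0 {n : ℕ} (hn : 5 ≤ n) : NoPr ((16 : ℕ) : ℤ) ((16 : ℕ) : ℤ) n 9 0 :=
  BlkD.pair_sound (d := d16_16_9_0) (by decide +kernel) hn (by decide) (tr := t16_16_9_0)
    (by decide +kernel) rfl rfl rfl rfl

/-- the numbers of the pair `(9, 1)`, `R = 16`, `H = 16` -/
def d16_16_9_1 : BlkD.Pd :=
  ⟨16, 16, 3, 9, 1, 3, 0, 1, 0, 4, 4, 0, 0, 4, 4, 0, [0, 4, 8, 12], [0, 4, 8, 12], [⟨1, 1, 1, 4, 8,
    [0, 4], [0, 4]⟩]⟩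

/-- the certificates of the pair `(9, 1)` -/
def t16_16_9_1 : BlkD.Tr :=
  .S 0 9 (.S 2 1 (.L 3 3 [4, 16] [] [] 100000 0 0 1200000 75000 0 100000 0 0 0 0) (.E 1)) (.E 0)

lemma pr16_16_9_1 {n : ℕ} (hn : 5 ≤ n) : NoPr ((16 : ℕ) : ℤ) ((16 : ℕ) : ℤ) n 9 1 :=
  BlkD.pair_sound (d := d16_16_9_1) (by decide +kernel) hn (by decide) (tr := t16_16_9_1)
    (by decide +kernel) rfl rfl rfl rfl

/-- the numbers of the pair `(10, 0)`, `R = 16`, `H = 16` -/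
def d16_16_10_0 : BlkD.Pd :=
  ⟨16, 16, 3, 10, 0, 3, 0, 1, 0, 4, 4, 0, 0, 4, 4, 0, [0, 4, 8, 12], [0, 4, 8, 12], [⟨1, 1, 1, 4,
    8, [0, 4], [0, 4]⟩]⟩

/-- the certificates of the pair `(10, 0)` -/
def t16_16_10_0 : BlkD.Tr :=
  .S 0 10 (.S 2 0 (.L 3 3 [4] [] [] 100000 0 0 1100000 100000 0 100000 0 0 0 0) (.E 1)) (.E 0)

lemma pr16_16_10_0 {n : ℕ} (hn : 5 ≤ n) : NoPr ((16 : ℕ) : ℤ) ((16 : ℕ) : ℤ) n 10 0 :=
  BlkD.pair_sound (d := d16_16_10_0) (by decide +kernel) hn (by decide) (tr := t16_16_10_0)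
    (by decide +kernel) rfl rfl rfl rfl

end BlkC

end Pool.Agent.Lib.MP_f04ccf_co
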