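import Pool.Agent.Lib.MP_f04ccf_co.M.BlkT

/-!
MP_f04ccf_co, block certificate, data `R = 16`, `H = 17`, part 1 (generated, helper99:
bd10.cpp, gen2.py).
-/

set_option autoImplicit false
set_option maxRecDepth 100000

namespace Pool.Agent.Lib.MP_f04ccf_co

namespace BlkC

/-- the numbers of the pair `(0, 0)`, `R = 16`, `H = 17` -/
def d16_17_0_0 : BlkD.Pd :=
  ⟨16, 17, 4, 0, 0, 14, 0, 1, 0, 4, 4, 0, 0, 4, 4, 0, [0, 4, 8, 12, 16, 20, 24, 28, 32, 36, 40, 44,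
    48, 52, 56], [0, 4, 8, 12, 16, 20, 24, 28, 32, 36, 40, 44, 48, 52, 56], [⟨1, 1, 1, 4, 8, [0,
    4], [0, 4]⟩]⟩

/-- the certificates of the pair `(0, 0)` -/
def t16_17_0_0 : BlkD.Tr :=
  .S 0 0 (.S 2 0 (.L 3 3 [4] [] [] 100000 0 0 100000 0 0 100000 0 0 0 0) (.E 1)) (.E 0)

lemma pr16_17_0_0 {n : ℕ} (hn : 6 ≤ n) : NoPr ((16 : ℕ) : ℤ) ((17 : ℕ) : ℤ) n 0 0 :=
  BlkD.pair_sound (d := d16_17_0_0) (by decide +kernel) hn (by decide) (tr := t16_17_0_0)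
    (by decide +kernel) rfl rfl rfl rfl

/-- the numbers of the pair `(1, 0)`, `R = 16`, `H = 17` -/
def d16_17_1_0 : BlkD.Pd :=
  ⟨16, 17, 4, 1, 0, 13, 0, 1, 0, 4, 4, 0, 0, 4, 4, 0, [0, 4, 8, 12, 16, 20, 24, 28, 32, 36, 40, 44,
    48, 52], [0, 4, 8, 12, 16, 20, 24, 28, 32, 36, 40, 44, 48, 52], [⟨1, 1, 1, 4, 8, [0, 4], [0,
    4]⟩]⟩

/-- the certificates of the pair `(1, 0)` -/
def t16_17_1_0 : BlkD.Tr :=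
  .S 0 1 (.S 2 0 (.L 3 3 [4] [] [] 100000 0 0 200000 0 0 0 100000 0 0 0) (.E 1)) (.E 0)

lemma pr16_17_1_0 {n : ℕ} (hn : 6 ≤ n) : NoPr ((16 : ℕ) : ℤ) ((17 : ℕ) : ℤ) n 1 0 :=
  BlkD.pair_sound (d := d16_17_1_0) (by decide +kernel) hn (by decide) (tr := t16_17_1_0)
    (by decide +kernel) rfl rfl rfl rfl

/-- the numbers of the pair `(1, 1)`, `R = 16`, `H = 17` -/
def d16_17_1_1 : BlkD.Pd :=
  ⟨16, 17, 4, 1, 1, 12, 1, 1, 0, 4, 4, 0, 0, 4, 4, 0, [0, 4, 8, 12, 16, 20, 24, 28, 32, 36, 40, 44,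
    48], [0, 4, 8, 12, 16, 20, 24, 28, 32, 36, 40, 44, 48], [⟨1, 1, 1, 4, 8, [0, 4], [0, 4]⟩, ⟨1,
    1, 1, 4, 8, [0, 4], [0, 4]⟩]⟩

/-- the certificates of the pair `(1, 1)` -/
def t16_17_1_1 : BlkD.Tr :=
  .S 0 1 (.S 2 1 (.L 3 3 [4, 4] [] [] 100000 0 0 400000 0 0 0 0 0 0 0) (.E 1)) (.E 0)

lemma pr16_17_1_1 {n : ℕ} (hn : 6 ≤ n) : NoPr ((16 : ℕ) : ℤ) ((17 : ℕ) : ℤ) n 1 1 :=
  BlkD.pair_sound (d := d16_17_1_1) (by decide +kernel) hn (by decide) (tr := t16_17_1_1)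
    (by decide +kernel) rfl rfl rfl rfl

/-- the numbers of the pair `(2, 0)`, `R = 16`, `H = 17` -/
def d16_17_2_0 : BlkD.Pd :=
  ⟨16, 17, 4, 2, 0, 12, 0, 1, 0, 4, 4, 0, 0, 4, 4, 0, [0, 4, 8, 12, 16, 20, 24, 28, 32, 36, 40, 44,
    48], [0, 4, 8, 12, 16, 20, 24, 28, 32, 36, 40, 44, 48], [⟨1, 1, 1, 4, 8, [0, 4], [0, 4]⟩]⟩

/-- the certificates of the pair `(2, 0)` -/
def t16_17_2_0 : BlkD.Tr :=
  .S 0 2 (.S 2 0 (.L 3 3 [4] [] [] 100000 0 0 300000 0 0 0 100000 0 0 0) (.E 1)) (.E 0)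

lemma pr16_17_2_0 {n : ℕ} (hn : 6 ≤ n) : NoPr ((16 : ℕ) : ℤ) ((17 : ℕ) : ℤ) n 2 0 :=
  BlkD.pair_sound (d := d16_17_2_0) (by decide +kernel) hn (by decide) (tr := t16_17_2_0)
    (by decide +kernel) rfl rfl rfl rfl

/-- the numbers of the pair `(2, 1)`, `R = 16`, `H = 17` -/
def d16_17_2_1 : BlkD.Pd :=
  ⟨16, 17, 4, 2, 1, 11, 1, 1, 0, 4, 4, 0, 0, 4, 4, 0, [0, 4, 8, 12, 16, 20, 24, 28, 32, 36, 40,
    44], [0, 4, 8, 12, 16, 20, 24, 28, 32, 36, 40, 44], [⟨1, 1, 1, 4, 8, [0, 4], [0, 4]⟩, ⟨1, 1, 1,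
    4, 8, [0, 4], [0, 4]⟩]⟩

/-- the certificates of the pair `(2, 1)` -/
def t16_17_2_1 : BlkD.Tr :=
  .S 0 2 (.S 2 1 (.L 3 3 [4, 4] [] [] 100000 0 0 500000 0 0 0 0 0 0 0) (.E 1)) (.E 0)

lemma pr16_17_2_1 {n : ℕ} (hn : 6 ≤ n) : NoPr ((16 : ℕ) : ℤ) ((17 : ℕ) : ℤ) n 2 1 :=
  BlkD.pair_sound (d := d16_17_2_1) (by decide +kernel) hn (by decide) (tr := t16_17_2_1)
    (by decide +kernel) rfl rfl rfl rfl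

/-- the numbers of the pair `(2, 2)`, `R = 16`, `H = 17` -/
def d16_17_2_2 : BlkD.Pd :=
  ⟨16, 17, 4, 2, 2, 10, 2, 1, 0, 4, 6, 0, 0, 4, 6, 0, [0, 6, 12, 18, 24, 30, 36, 40, 40, 40, 40],
    [0, 6, 12, 18, 24, 30, 36, 40, 40, 40, 40], [⟨1, 1, 1, 4, 8, [0, 4], [0, 4]⟩, ⟨1, 1, 1, 4, 8,
    [0, 4], [0, 4]⟩, ⟨1, 1, 1, 6, 12, [0, 6], [0, 6]⟩]⟩

/-- the certificates of the pair `(2, 2)` -/
def t16_17_2_2 : BlkD.Tr :=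
  .S 0 2 (.S 2 2 (.L 4 4 [4, 4, 4] [] [] 100000 1 1 600000 0 0 25000 25000 27500 1071 35714) (.E
    1)) (.E 0)

lemma pr16_17_2_2 {n : ℕ} (hn : 6 ≤ n) : NoPr ((16 : ℕ) : ℤ) ((17 : ℕ) : ℤ) n 2 2 :=
  BlkD.pair_sound (d := d16_17_2_2) (by decide +kernel) hn (by decide) (tr := t16_17_2_2)
    (by decide +kernel) rfl rfl rfl rfl

/-- the numbers of the pair `(3, 0)`, `R = 16`, `H = 17` -/
def d16_17_3_0 : BlkD.Pd :=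
  ⟨16, 17, 4, 3, 0, 11, 0, 1, 0, 4, 4, 0, 0, 4, 4, 0, [0, 4, 8, 12, 16, 20, 24, 28, 32, 36, 40,
    44], [0, 4, 8, 12, 16, 20, 24, 28, 32, 36, 40, 44], [⟨1, 1, 1, 4, 8, [0, 4], [0, 4]⟩]⟩

/-- the certificates of the pair `(3, 0)` -/
def t16_17_3_0 : BlkD.Tr :=
  .S 0 3 (.S 2 0 (.L 3 3 [4] [] [] 100000 0 0 400001 33333 0 33333 66667 0 0 0) (.E 1)) (.E 0)

lemma pr16_17_3_0 {n : ℕ} (hn : 6 ≤ n) : NoPr ((16 : ℕ) : ℤ) ((17 : ℕ) : ℤ) n 3 0 :=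
  BlkD.pair_sound (d := d16_17_3_0) (by decide +kernel) hn (by decide) (tr := t16_17_3_0)
    (by decide +kernel) rfl rfl rfl rfl

/-- the numbers of the pair `(3, 1)`, `R = 16`, `H = 17` -/
def d16_17_3_1 : BlkD.Pd :=
  ⟨16, 17, 4, 3, 1, 10, 1, 1, 0, 4, 6, 0, 0, 4, 4, 0, [0, 6, 12, 18, 24, 30, 36, 40, 40, 40, 40],
    [0, 4, 8, 12, 16, 20, 24, 28, 32, 36, 40], [⟨1, 1, 1, 4, 8, [0, 4], [0, 4]⟩, ⟨1, 1, 1, 4, 10,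
    [0, 6], [0, 4]⟩]⟩

/-- the certificates of the pair `(3, 1)` -/
def t16_17_3_1 : BlkD.Tr :=
  .S 0 3 (.S 2 1 (.L 3 3 [4, 4] [] [] 100000 0 0 580000 20000 0 40000 0 0 0 0) (.E 1)) (.E 0)

lemma pr16_17_3_1 {n : ℕ} (hn : 6 ≤ n) : NoPr ((16 : ℕ) : ℤ) ((17 : ℕ) : ℤ) n 3 1 :=
  BlkD.pair_sound (d := d16_17_3_1) (by decide +kernel) hn (by decide) (tr := t16_17_3_1)
    (by decide +kernel) rfl rfl rfl rfl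

/-- the numbers of the pair `(3, 2)`, `R = 16`, `H = 17` -/
def d16_17_3_2 : BlkD.Pd :=
  ⟨16, 17, 4, 3, 2, 9, 2, 1, 0, 4, 6, 0, 0, 4, 6, 0, [0, 6, 12, 18, 24, 30, 36, 36, 36, 36], [0, 6,
    12, 18, 24, 30, 36, 36, 36, 36], [⟨1, 1, 1, 4, 8, [0, 4], [0, 4]⟩, ⟨1, 1, 1, 4, 10, [0, 6], [0,
    4]⟩, ⟨1, 1, 1, 6, 12, [0, 6], [0, 6]⟩]⟩

/-- the certificates of the pair `(3, 2)` -/
def t16_17_3_2 : BlkD.Tr :=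
  .S 0 3 (.S 2 2 (.L 4 4 [4, 4, 4] [] [] 100000 0 0 700000 0 0 50000 25000 19444 5556 37500) (.E
    1)) (.E 0)

lemma pr16_17_3_2 {n : ℕ} (hn : 6 ≤ n) : NoPr ((16 : ℕ) : ℤ) ((17 : ℕ) : ℤ) n 3 2 :=
  BlkD.pair_sound (d := d16_17_3_2) (by decide +kernel) hn (by decide) (tr := t16_17_3_2)
    (by decide +kernel) rfl rfl rfl rfl

/-- the numbers of the pair `(4, 0)`, `R = 16`, `H = 17` -/
def d16_17_4_0 : BlkD.Pd :=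
  ⟨16, 17, 4, 4, 0, 10, 0, 1, 0, 4, 4, 0, 0, 4, 4, 0, [0, 4, 8, 12, 16, 20, 24, 28, 32, 36, 40],
    [0, 4, 8, 12, 16, 20, 24, 28, 32, 36, 40], [⟨1, 1, 1, 4, 8, [0, 4], [0, 4]⟩]⟩

/-- the certificates of the pair `(4, 0)` -/
def t16_17_4_0 : BlkD.Tr :=
  .S 0 4 (.S 2 0 (.L 3 3 [4] [] [] 100000 0 0 525000 25000 0 50000 50000 0 0 0) (.E 1)) (.E 0)

lemma pr16_17_4_0 {n : ℕ} (hn : 6 ≤ n) : NoPr ((16 : ℕ) : ℤ) ((17 : ℕ) : ℤ) n 4 0 :=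
  BlkD.pair_sound (d := d16_17_4_0) (by decide +kernel) hn (by decide) (tr := t16_17_4_0)
    (by decide +kernel) rfl rfl rfl rfl

/-- the numbers of the pair `(4, 1)`, `R = 16`, `H = 17` -/
def d16_17_4_1 : BlkD.Pd :=
  ⟨16, 17, 4, 4, 1, 9, 1, 1, 2, 2, 6, 0, 0, 4, 4, 0, [0, 6, 12, 18, 24, 28, 30, 32, 34, 36], [0, 4,
    8, 12, 16, 20, 24, 28, 32, 36], [⟨1, 1, 1, 4, 8, [0, 4], [0, 4]⟩, ⟨1, 1, 1, 4, 10, [0, 6], [0,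
    4]⟩]⟩

/-- the certificates of the pair `(4, 1)` -/
def t16_17_4_1 : BlkD.Tr :=
  .S 0 4 (.S 2 1 (.L 3 4 [4, 4] [] [] 100000 0 0 675000 25000 0 50000 0 0 0 0) (.E 1)) (.E 0)

lemma pr16_17_4_1 {n : ℕ} (hn : 6 ≤ n) : NoPr ((16 : ℕ) : ℤ) ((17 : ℕ) : ℤ) n 4 1 :=
  BlkD.pair_sound (d := d16_17_4_1) (by decide +kernel) hn (by decide) (tr := t16_17_4_1)
    (by decide +kernel) rfl rfl rfl rfl

/-- the numbers of the pair `(4, 2)`, `R = 16`, `H = 17` -/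
def d16_17_4_2 : BlkD.Pd :=
  ⟨16, 17, 4, 4, 2, 8, 2, 1, 2, 2, 8, 0, 3, 1, 6, 0, [0, 8, 16, 22, 24, 26, 28, 30, 32], [0, 6, 12,
    17, 20, 23, 26, 29, 32], [⟨1, 1, 1, 4, 8, [0, 4], [0, 4]⟩, ⟨1, 1, 1, 4, 10, [0, 6], [0, 4]⟩,
    ⟨1, 1, 1, 6, 14, [0, 8], [0, 6]⟩]⟩

/-- the certificates of the pair `(4, 2)` -/
def t16_17_4_2 : BlkD.Tr :=
  .S 0 4 (.S 2 2 (.L 4 4 [4, 4, 4] [] [] 100000 11328 11328 812504 0 0 87500 43750 12500 26563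
    38281) (.E 1)) (.E 0)

lemma pr16_17_4_2 {n : ℕ} (hn : 6 ≤ n) : NoPr ((16 : ℕ) : ℤ) ((17 : ℕ) : ℤ) n 4 2 :=
  BlkD.pair_sound (d := d16_17_4_2) (by decide +kernel) hn (by decide) (tr := t16_17_4_2)
    (by decide +kernel) rfl rfl rfl rfl

/-- the numbers of the pair `(4, 3)`, `R = 16`, `H = 17` -/
def d16_17_4_3 : BlkD.Pd :=
  ⟨16, 17, 4, 4, 3, 7, 3, 2, 2, 2, 8, 0, 4, 1, 8, 0, [0, 8, 16, 20, 22, 24, 26, 28], [0, 8, 15, 19,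
    23, 27, 31, 35], [⟨1, 1, 1, 4, 8, [0, 4], [0, 4]⟩, ⟨1, 1, 1, 4, 12, [0, 6], [0, 6]⟩, ⟨1, 1, 1,
    4, 14, [0, 8], [0, 6]⟩, ⟨2, 1, 1, 4, 18, [0, 8, 10], [0, 8]⟩]⟩

/-- the certificates of the pair `(4, 3)` -/
def t16_17_4_3 : BlkD.Tr :=
  .S 0 4 (.S 2 3 (.S 0 2 (.S 0 1 (.L 4 4 [4, 4, 4, 5] [] [] 100000 65271 65271 772776 52880 0 68586
    52880 3141 3665 23909) (.S 1 15 (.S 1 7 (.S 1 3 (.L 4 4 [4, 4, 4, 5] [] [] 100000 23291 23291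
    910898 3205 0 43590 79487 9615 20513 20513) (.S 1 5 (.S 1 4 (.L 4 4 [4, 4, 4, 5] [56, 52, 44,
    36, 28, 0] [] 100000 27184 27184 916237 14391 0 54982 42804 8118 16605 22509) (.S 2 1 (.S 2 0
    (.L 4 4 [4, 4, 4, 5] [70, 68, 64, 56, 48, 40] [] 100000 77778 44445 433334 0 0 133333 100000 0
    0 0) (.S 3 9 (.S 3 4 (.S 3 2 (.L 4 4 [4, 4, 4, 5] [70, 68, 64, 56, 48, 40] [] 100000 56411
    56411 753846 0 23077 100000 46154 0 7692 15385) (.S 3 3 (.S 4 5 (.S 4 2 (.E 2) (.S 4 4 (.L 4 4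
    [4, 4, 4, 5] [68, 64, 56, 48, 40, 0] [35, 28, 20, 12, 0, 0] 100000 76667 76667 720000 50000
    10000 100000 60000 0 0 10000) (.L 4 4 [4, 4, 4, 5] [70, 68, 64, 56, 48, 40] [35, 28, 20, 12, 0,
    0] 100000 100000 0 200000 0 0 200000 100000 0 0 0))) (.E 2)) (.L 4 4 [4, 4, 4, 5] [70, 68, 64,
    56, 48, 40] [47, 43, 36, 28, 20, 0] 100000 128571 0 1 0 14286 228571 14286 0 0 0))) (.E 1)) (.E
    1))) (.L 4 4 [4, 4, 4, 5] [70, 68, 64, 56, 48, 40] [] 100000 33334 33334 850000 0 0 75000 50000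
    0 0 25000))) (.E 0))) (.E 0)) (.E 0))) (.S 0 3 (.S 1 14 (.S 1 7 (.S 1 3 (.S 1 1 (.L 4 4 [4, 4,
    4, 5] [] [] 100000 33334 33334 800000 0 0 0 100000 0 0 16667) (.S 1 2 (.L 4 4 [4, 4, 4, 5] [30,
    22, 14, 0, 0, 0] [] 100000 22619 22619 891670 8333 0 58333 51190 8333 23810 23810) (.L 4 4 [4,
    4, 4, 5] [48, 40, 32, 24, 0, 0] [] 100000 16536 16536 937797 16535 0 45669 41732 33071 19685
    30709))) (.L 4 4 [4, 4, 4, 5] [] [] 100000 46667 46667 760000 0 0 100000 40000 0 0 20000)) (.E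
    0)) (.E 0)) (.L 4 4 [4, 4, 4, 5] [] [] 100000 16667 16667 900003 0 0 50000 50000 28571 21429
    28571))) (.E 1)) (.E 0)

lemma pr16_17_4_3 {n : ℕ} (hn : 6 ≤ n) : NoPr ((16 : ℕ) : ℤ) ((17 : ℕ) : ℤ) n 4 3 :=
  BlkD.pair_sound (d := d16_17_4_3) (by decide +kernel) hn (by decide) (tr := t16_17_4_3)
    (by decide +kernel) rfl rfl rfl rfl

/-- the numbers of the pair `(4, 4)`, `R = 16`, `H = 17` -/
def d16_17_4_4 : BlkD.Pd :=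
  ⟨16, 17, 4, 4, 4, 6, 2, 2, 2, 2, 8, 0, 2, 2, 8, 0, [0, 8, 16, 18, 20, 22, 24], [0, 8, 16, 18, 20,
    22, 24], [⟨1, 1, 1, 4, 8, [0, 4], [0, 4]⟩, ⟨1, 1, 1, 4, 12, [0, 6], [0, 6]⟩, ⟨1, 1, 1, 4, 16,
    [0, 8], [0, 8]⟩]⟩

/-- the certificates of the pair `(4, 4)` -/
def t16_17_4_4 : BlkD.Tr :=
  .S 0 4 (.S 2 4 (.S 0 2 (.S 0 1 (.L 4 4 [4, 4, 4, 16, 16] [] [] 100000 60000 60000 920000 60000 0
    80000 60000 0 0 0) (.S 1 15 (.S 1 7 (.S 1 3 (.S 1 1 (.L 4 4 [4, 4, 4, 16, 16] [] [] 100000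
    25000 25000 900000 0 0 0 100000 0 0 50000) (.S 1 2 (.L 4 4 [4, 4, 4, 16, 16] [28, 20, 10, 0, 0,
    0] [] 100000 20834 20834 1000002 16667 0 16667 83333 0 16667 41667) (.L 4 4 [4, 4, 4, 16, 16]
    [44, 36, 28, 18, 0, 0] [] 100000 16667 16667 1060000 20000 0 81667 50000 18333 8333 40000)))
    (.L 4 4 [4, 4, 4, 16, 16] [] [] 100000 24480 24480 1050002 12500 6250 79688 53125 20313 5729
    25000)) (.E 0)) (.E 0))) (.L 4 4 [4, 4, 4, 16, 16] [] [] 100000 30859 30859 1037502 0 20833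
    58333 62500 13542 9375 15365)) (.E 1)) (.E 0)

lemma pr16_17_4_4 {n : ℕ} (hn : 6 ≤ n) : NoPr ((16 : ℕ) : ℤ) ((17 : ℕ) : ℤ) n 4 4 :=
  BlkD.pair_sound (d := d16_17_4_4) (by decide +kernel) hn (by decide) (tr := t16_17_4_4)
    (by decide +kernel) rfl rfl rfl rfl

/-- the numbers of the pair `(5, 0)`, `R = 16`, `H = 17` -/
def d16_17_5_0 : BlkD.Pd :=
  ⟨16, 17, 4, 5, 0, 9, 0, 1, 0, 4, 4, 0, 0, 4, 4, 0, [0, 4, 8, 12, 16, 20, 24, 28, 32, 36], [0, 4,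
    8, 12, 16, 20, 24, 28, 32, 36], [⟨1, 1, 1, 4, 8, [0, 4], [0, 4]⟩]⟩

/-- the certificates of the pair `(5, 0)` -/
def t16_17_5_0 : BlkD.Tr :=
  .S 0 5 (.S 2 0 (.L 3 3 [4] [] [] 100000 0 0 600000 50000 0 50000 50000 0 0 0) (.E 1)) (.E 0)

lemma pr16_17_5_0 {n : ℕ} (hn : 6 ≤ n) : NoPr ((16 : ℕ) : ℤ) ((17 : ℕ) : ℤ) n 5 0 :=
  BlkD.pair_sound (d := d16_17_5_0) (by decide +kernel) hn (by decide) (tr := t16_17_5_0)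
    (by decide +kernel) rfl rfl rfl rfl

/-- the numbers of the pair `(5, 1)`, `R = 16`, `H = 17` -/
def d16_17_5_1 : BlkD.Pd :=
  ⟨16, 17, 4, 5, 1, 8, 1, 1, 2, 2, 6, 0, 0, 4, 4, 0, [0, 6, 12, 18, 24, 26, 28, 30, 32], [0, 4, 8,
    12, 16, 20, 24, 28, 32], [⟨1, 1, 1, 4, 8, [0, 4], [0, 4]⟩, ⟨1, 1, 1, 4, 10, [0, 6], [0, 4]⟩]⟩

/-- the certificates of the pair `(5, 1)` -/
def t16_17_5_1 : BlkD.Tr :=
  .S 0 5 (.S 2 1 (.L 3 4 [4, 4] [] [] 100000 0 0 812196 21951 0 56911 0 9756 9756 9756) (.E 1)) (.E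
    0)

lemma pr16_17_5_1 {n : ℕ} (hn : 6 ≤ n) : NoPr ((16 : ℕ) : ℤ) ((17 : ℕ) : ℤ) n 5 1 :=
  BlkD.pair_sound (d := d16_17_5_1) (by decide +kernel) hn (by decide) (tr := t16_17_5_1)
    (by decide +kernel) rfl rfl rfl rfl

end BlkC

end Pool.Agent.Lib.MP_f04ccf_co
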