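import Pool.Agent.Lib.MP_f04ccf_co.M.BlkT

/-!
MP_f04ccf_co, block certificate, data `R = 16`, `H = 17`, part 2 (generated, helper99:
bd10.cpp, gen2.py).
-/

set_option autoImplicit false
set_option maxRecDepth 100000

namespace Pool.Agent.Lib.MP_f04ccf_co

namespace BlkC

/-- the numbers of the pair `(5, 2)`, `R = 16`, `H = 17` -/
def d16_17_5_2 : BlkD.Pd :=
  ⟨16, 17, 4, 5, 2, 7, 2, 1, 2, 2, 8, 0, 3, 1, 6, 0, [0, 8, 16, 20, 22, 24, 26, 28], [0, 6, 12, 16,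
    19, 22, 25, 28], [⟨1, 1, 1, 4, 8, [0, 4], [0, 4]⟩, ⟨1, 1, 1, 4, 10, [0, 6], [0, 4]⟩, ⟨1, 1, 1,
    4, 14, [0, 8], [0, 6]⟩]⟩

/-- the certificates of the pair `(5, 2)` -/
def t16_17_5_2 : BlkD.Tr :=
  .S 0 5 (.S 2 2 (.L 4 5 [4, 4, 4] [] [] 100000 1 1 979724 5069 0 89862 29954 7834 28571 31797) (.E
    1)) (.E 0)

lemma pr16_17_5_2 {n : ℕ} (hn : 6 ≤ n) : NoPr ((16 : ℕ) : ℤ) ((17 : ℕ) : ℤ) n 5 2 :=
  BlkD.pair_sound (d := d16_17_5_2) (by decide +kernel) hn (by decide) (tr := t16_17_5_2)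
    (by decide +kernel) rfl rfl rfl rfl

/-- the numbers of the pair `(5, 3)`, `R = 16`, `H = 17` -/
def d16_17_5_3 : BlkD.Pd :=
  ⟨16, 17, 4, 5, 3, 6, 2, 2, 2, 2, 8, 0, 2, 2, 6, 0, [0, 8, 16, 18, 20, 22, 24], [0, 6, 12, 18, 20,
    22, 24], [⟨1, 1, 1, 4, 8, [0, 4], [0, 4]⟩, ⟨1, 1, 1, 4, 12, [0, 6], [0, 6]⟩, ⟨1, 1, 1, 4, 14,
    [0, 8], [0, 6]⟩]⟩

/-- the certificates of the pair `(5, 3)` -/
def t16_17_5_3 : BlkD.Tr :=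
  .S 0 5 (.S 2 3 (.S 0 2 (.S 0 1 (.L 4 5 [4, 4, 4, 16] [] [] 100000 676 676 1094597 1351 1351 98649
    49324 0 16216 41216) (.L 4 5 [4, 4, 4, 16] [] [] 100000 676 676 1094597 1351 1351 98649 49324 0
    16216 41216)) (.L 4 5 [4, 4, 4, 16] [] [] 100000 676 676 1094597 1351 1351 98649 49324 0 16216
    41216)) (.E 1)) (.E 0)

lemma pr16_17_5_3 {n : ℕ} (hn : 6 ≤ n) : NoPr ((16 : ℕ) : ℤ) ((17 : ℕ) : ℤ) n 5 3 :=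
  BlkD.pair_sound (d := d16_17_5_3) (by decide +kernel) hn (by decide) (tr := t16_17_5_3)
    (by decide +kernel) rfl rfl rfl rfl

/-- the numbers of the pair `(5, 4)`, `R = 16`, `H = 17` -/
def d16_17_5_4 : BlkD.Pd :=
  ⟨16, 17, 4, 5, 4, 5, 1, 2, 2, 2, 6, 0, 2, 2, 6, 0, [0, 6, 12, 16, 18, 20], [0, 6, 12, 16, 18,
    20], [⟨1, 1, 1, 4, 8, [0, 4], [0, 4]⟩, ⟨1, 1, 1, 4, 12, [0, 6], [0, 6]⟩]⟩

/-- the certificates of the pair `(5, 4)` -/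
def t16_17_5_4 : BlkD.Tr :=
  .S 0 5 (.S 2 4 (.S 0 2 (.S 0 1 (.L 4 4 [4, 4, 16, 16, 16] [] [] 100000 5556 5556 1188892 27778 0
    58333 36111 5556 5556 5556) (.L 4 4 [4, 4, 16, 16, 16] [] [] 100000 5556 5556 1188892 27778 0
    58333 36111 5556 5556 5556)) (.L 5 5 [4, 3, 16, 16, 16] [] [] 100000 0 0 1183335 8333 8333
    83333 75000 0 0 0)) (.E 1)) (.E 0)

lemma pr16_17_5_4 {n : ℕ} (hn : 6 ≤ n) : NoPr ((16 : ℕ) : ℤ) ((17 : ℕ) : ℤ) n 5 4 :=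
  BlkD.pair_sound (d := d16_17_5_4) (by decide +kernel) hn (by decide) (tr := t16_17_5_4)
    (by decide +kernel) rfl rfl rfl rfl

/-- the numbers of the pair `(6, 0)`, `R = 16`, `H = 17` -/
def d16_17_6_0 : BlkD.Pd :=
  ⟨16, 17, 4, 6, 0, 8, 0, 1, 0, 4, 4, 0, 0, 4, 4, 0, [0, 4, 8, 12, 16, 20, 24, 28, 32], [0, 4, 8,
    12, 16, 20, 24, 28, 32], [⟨1, 1, 1, 4, 8, [0, 4], [0, 4]⟩]⟩

/-- the certificates of the pair `(6, 0)` -/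
def t16_17_6_0 : BlkD.Tr :=
  .S 0 6 (.S 2 0 (.L 3 3 [4] [] [] 100000 0 0 725000 50000 0 75000 25000 0 0 0) (.E 1)) (.E 0)

lemma pr16_17_6_0 {n : ℕ} (hn : 6 ≤ n) : NoPr ((16 : ℕ) : ℤ) ((17 : ℕ) : ℤ) n 6 0 :=
  BlkD.pair_sound (d := d16_17_6_0) (by decide +kernel) hn (by decide) (tr := t16_17_6_0)
    (by decide +kernel) rfl rfl rfl rfl

/-- the numbers of the pair `(6, 1)`, `R = 16`, `H = 17` -/
def d16_17_6_1 : BlkD.Pd :=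
  ⟨16, 17, 4, 6, 1, 7, 1, 1, 2, 2, 6, 0, 0, 4, 4, 0, [0, 6, 12, 18, 22, 24, 26, 28], [0, 4, 8, 12,
    16, 20, 24, 28], [⟨1, 1, 1, 4, 8, [0, 4], [0, 4]⟩, ⟨1, 1, 1, 4, 10, [0, 6], [0, 4]⟩]⟩

/-- the certificates of the pair `(6, 1)` -/
def t16_17_6_1 : BlkD.Tr :=
  .S 0 6 (.S 2 1 (.L 3 4 [4, 4] [] [] 100000 0 0 997562 17073 0 65854 0 2439 2439 2439) (.E 1)) (.E
    0)

lemma pr16_17_6_1 {n : ℕ} (hn : 6 ≤ n) : NoPr ((16 : ℕ) : ℤ) ((17 : ℕ) : ℤ) n 6 1 :=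
  BlkD.pair_sound (d := d16_17_6_1) (by decide +kernel) hn (by decide) (tr := t16_17_6_1)
    (by decide +kernel) rfl rfl rfl rfl

end BlkC

end Pool.Agent.Lib.MP_f04ccf_co
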