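import Pool.Agent.Lib.MP_f04ccf_co.M.BlkT

/-!
MP_f04ccf_co, block certificate, data `R = 16`, `H = 17`, part 3 (generated, helper99:
bd10.cpp, gen2.py).
-/

set_option autoImplicit false
set_option maxRecDepth 100000

namespace Pool.Agent.Lib.MP_f04ccf_co

namespace BlkC

/-- the numbers of the pair `(6, 2)`, `R = 16`, `H = 17` -/
def d16_17_6_2 : BlkD.Pd :=
  ⟨16, 17, 4, 6, 2, 6, 2, 2, 2, 2, 8, 0, 3, 1, 6, 0, [0, 8, 16, 18, 20, 22, 24], [0, 6, 12, 15, 18,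
    21, 24], [⟨1, 1, 1, 4, 8, [0, 4], [0, 4]⟩, ⟨1, 1, 1, 4, 10, [0, 6], [0, 4]⟩, ⟨2, 1, 1, 4, 16,
    [0, 8, 10], [0, 6]⟩]⟩

lemma k16_17_6_2 : BlkD.pairOk d16_17_6_2 = true := by decide +kernel

/-- certificates of the pair `(6, 2)`, part 1 -/
def t16_17_6_2_1 : BlkD.Tr :=
  .L 4 5 [4, 4, 4] [] [] 100000 125000 125000 500000 100000 0 100000 50000 0 0 0

lemma s16_17_6_2_1 {n : ℕ} (hn : 6 ≤ n) : NoNd (d16_17_6_2.R : ℤ) d16_17_6_2.H n d16_17_6_2.a d16_17_6_2.b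
    (BlkD.inB (fun _ => 0)
      (BlkD.upd (BlkD.upd (BlkD.upd (BlkD.upd (fun _ => 17) 0 6) 2 2) 0 3) 0 1)) :=
  BlkD.tree_sound (BlkD.pairOk_sound k16_17_6_2) (by decide) hn t16_17_6_2_1 _ _ (by decide +kernel)

/-- certificates of the pair `(6, 2)`, part 2 -/
def t16_17_6_2_2 : BlkD.Tr :=
  .S 0 2 (.L 4 5 [4, 4, 4] [] [] 100000 140279 140279 800002 66667 0 98611 36111 0 5556 20833) (.S
    1 14 (.S 1 7 (.S 1 3 (.L 4 5 [4, 4, 4] [] [] 100000 35000 35000 860000 20000 0 20000 40000 0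
    20000 10000) (.S 1 5 (.L 4 5 [4, 4, 4] [] [] 100000 23216 23216 1014286 21429 0 23214 39286 0
    22619 30952) (.S 1 6 (.L 4 5 [4, 4, 4] [96, 94, 92, 90, 82, 74] [] 100000 41667 41667 1000003
    33333 0 66667 33333 0 16667 8333) (.L 4 5 [4, 4, 4] [116, 114, 112, 110, 108, 100] [] 100000
    55555 55555 944446 44444 0 88889 33333 0 11111 11111)))) (.S 1 11 (.S 1 9 (.S 1 8 (.L 4 5 [4,
    4, 4] [138, 136, 134, 132, 130, 128] [] 100000 41667 41667 950001 33333 0 91667 50000 0 0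
    16667) (.L 4 5 [4, 4, 4] [162, 160, 158, 156, 154, 152] [] 100000 133333 0 2 0 0 233333 0 0 0
    0)) (.E 0)) (.E 0))) (.E 0))

lemma s16_17_6_2_2 {n : ℕ} (hn : 6 ≤ n) : NoNd (d16_17_6_2.R : ℤ) d16_17_6_2.H n d16_17_6_2.a d16_17_6_2.b
    (BlkD.inB (BlkD.upd (fun _ => 0) 0 2)
      (BlkD.upd (BlkD.upd (BlkD.upd (fun _ => 17) 0 6) 2 2) 0 3)) :=
  BlkD.tree_sound (BlkD.pairOk_sound k16_17_6_2) (by decide) hn t16_17_6_2_2 _ _ (by decide +kernel)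

/-- certificates of the pair `(6, 2)`, part 3 -/
def t16_17_6_2_3 : BlkD.Tr :=
  .S 0 5 (.S 0 4 (.S 1 13 (.S 1 6 (.S 1 3 (.L 4 5 [4, 4, 4] [] [] 100000 14407 14407 962714 18644 0
    18644 40678 0 27119 44068) (.S 1 5 (.S 1 4 (.L 4 5 [4, 4, 4] [70, 68, 60, 52, 44, 0] [] 100000
    18982 18982 1038890 20370 0 20370 39815 0 23148 38889) (.L 4 5 [4, 4, 4] [88, 86, 84, 76, 68,
    60] [] 100000 27618 27618 1010007 27655 0 79374 34683 5271 13063 21161)) (.L 4 5 [4, 4, 4]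
    [108, 106, 104, 102, 94, 86] [] 100000 41667 41667 933335 33333 0 100000 33333 0 0 16667))) (.L
    4 5 [4, 4, 4] [] [] 100000 100000 0 400000 0 0 200000 50000 0 0 0)) (.E 0)) (.S 1 12 (.S 1 6
    (.S 1 3 (.L 4 5 [4, 4, 4] [] [] 100000 18982 18982 1038890 20370 0 40741 39815 0 23148 38889)
    (.L 4 5 [4, 4, 4] [] [] 100000 23333 23333 980322 9841 0 100000 23810 2540 27937 25397)) (.E
    0)) (.E 0))) (.L 4 5 [4, 4, 4] [] [] 100000 10671 10671 1004878 0 0 95122 12195 4878 29268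
    39634)

lemma s16_17_6_2_3 {n : ℕ} (hn : 6 ≤ n) : NoNd (d16_17_6_2.R : ℤ) d16_17_6_2.H n d16_17_6_2.a d16_17_6_2.b
    (BlkD.inB (BlkD.upd (fun _ => 0) 0 4)
      (BlkD.upd (BlkD.upd (fun _ => 17) 0 6) 2 2)) :=
  BlkD.tree_sound (BlkD.pairOk_sound k16_17_6_2) (by decide) hn t16_17_6_2_3 _ _ (by decide +kernel)

/-- certificates of the pair `(6, 2)`, part 4 -/
def t16_17_6_2_4 : BlkD.Tr :=
  .E 1

lemma s16_17_6_2_4 {n : ℕ} (hn : 6 ≤ n) : NoNd (d16_17_6_2.R : ℤ) d16_17_6_2.H n d16_17_6_2.a d16_17_6_2.b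
    (BlkD.inB (BlkD.upd (fun _ => 0) 2 3)
      (BlkD.upd (fun _ => 17) 0 6)) :=
  BlkD.tree_sound (BlkD.pairOk_sound k16_17_6_2) (by decide) hn t16_17_6_2_4 _ _ (by decide +kernel)

/-- certificates of the pair `(6, 2)`, part 5 -/
def t16_17_6_2_5 : BlkD.Tr :=
  .E 0

lemma s16_17_6_2_5 {n : ℕ} (hn : 6 ≤ n) : NoNd (d16_17_6_2.R : ℤ) d16_17_6_2.H n d16_17_6_2.a d16_17_6_2.b
    (BlkD.inB (BlkD.upd (fun _ => 0) 0 7)
      (fun _ => 17)) :=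
  BlkD.tree_sound (BlkD.pairOk_sound k16_17_6_2) (by decide) hn t16_17_6_2_5 _ _ (by decide +kernel)

lemma pr16_17_6_2 {n : ℕ} (hn : 6 ≤ n) : NoPr ((16 : ℕ) : ℤ) ((17 : ℕ) : ℤ) n 6 2 :=
  BlkD.of_root (R := d16_17_6_2.R) (H := d16_17_6_2.H) (a := d16_17_6_2.a) (b := d16_17_6_2.b) (q := 4) (by decide) hn
    (BlkD.sp 0 6 (BlkD.sp 2 2 (BlkD.sp 0 3 (BlkD.sp 0 1 (s16_17_6_2_1 hn) (s16_17_6_2_2 hn))
      (s16_17_6_2_3 hn)) (s16_17_6_2_4 hn)) (s16_17_6_2_5 hn))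

/-- the numbers of the pair `(6, 3)`, `R = 16`, `H = 17` -/
def d16_17_6_3 : BlkD.Pd :=
  ⟨16, 17, 4, 6, 3, 5, 1, 2, 2, 2, 6, 0, 2, 2, 6, 0, [0, 6, 12, 16, 18, 20], [0, 6, 12, 16, 18,
    20], [⟨1, 1, 1, 4, 8, [0, 4], [0, 4]⟩, ⟨1, 1, 1, 4, 12, [0, 6], [0, 6]⟩]⟩

lemma k16_17_6_3 : BlkD.pairOk d16_17_6_3 = true := by decide +kernel

/-- certificates of the pair `(6, 3)`, part 1 -/
def t16_17_6_3_1 : BlkD.Tr :=
  .S 0 1 (.L 4 5 [4, 3, 16, 16] [] [] 100000 25000 25000 1075000 50000 0 75000 75000 0 0 0) (.L 4 5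
    [4, 3, 16, 16] [] [] 100000 25000 25000 1075000 50000 0 75000 75000 0 0 0)

lemma s16_17_6_3_1 {n : ℕ} (hn : 6 ≤ n) : NoNd (d16_17_6_3.R : ℤ) d16_17_6_3.H n d16_17_6_3.a d16_17_6_3.b
    (BlkD.inB (fun _ => 0)
      (BlkD.upd (BlkD.upd (BlkD.upd (fun _ => 17) 0 6) 2 3) 0 3)) :=
  BlkD.tree_sound (BlkD.pairOk_sound k16_17_6_3) (by decide) hn t16_17_6_3_1 _ _ (by decide +kernel)

/-- certificates of the pair `(6, 3)`, part 2 -/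
def t16_17_6_3_2 : BlkD.Tr :=
  .S 0 5 (.L 4 5 [4, 3, 16, 16] [] [] 100000 1 1 1190910 27273 0 63636 33333 0 0 0) (.L 4 5 [4, 3,
    16, 16] [] [] 100000 0 0 1100000 0 0 100000 50000 0 0 0)

lemma s16_17_6_3_2 {n : ℕ} (hn : 6 ≤ n) : NoNd (d16_17_6_3.R : ℤ) d16_17_6_3.H n d16_17_6_3.a d16_17_6_3.b
    (BlkD.inB (BlkD.upd (fun _ => 0) 0 4)
      (BlkD.upd (BlkD.upd (fun _ => 17) 0 6) 2 3)) :=
  BlkD.tree_sound (BlkD.pairOk_sound k16_17_6_3) (by decide) hn t16_17_6_3_2 _ _ (by decide +kernel)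

/-- certificates of the pair `(6, 3)`, part 3 -/
def t16_17_6_3_3 : BlkD.Tr :=
  .E 1

lemma s16_17_6_3_3 {n : ℕ} (hn : 6 ≤ n) : NoNd (d16_17_6_3.R : ℤ) d16_17_6_3.H n d16_17_6_3.a d16_17_6_3.b
    (BlkD.inB (BlkD.upd (fun _ => 0) 2 4)
      (BlkD.upd (fun _ => 17) 0 6)) :=
  BlkD.tree_sound (BlkD.pairOk_sound k16_17_6_3) (by decide) hn t16_17_6_3_3 _ _ (by decide +kernel)

/-- certificates of the pair `(6, 3)`, part 4 -/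
def t16_17_6_3_4 : BlkD.Tr :=
  .E 0

lemma s16_17_6_3_4 {n : ℕ} (hn : 6 ≤ n) : NoNd (d16_17_6_3.R : ℤ) d16_17_6_3.H n d16_17_6_3.a d16_17_6_3.b
    (BlkD.inB (BlkD.upd (fun _ => 0) 0 7)
      (fun _ => 17)) :=
  BlkD.tree_sound (BlkD.pairOk_sound k16_17_6_3) (by decide) hn t16_17_6_3_4 _ _ (by decide +kernel)

lemma pr16_17_6_3 {n : ℕ} (hn : 6 ≤ n) : NoPr ((16 : ℕ) : ℤ) ((17 : ℕ) : ℤ) n 6 3 :=
  BlkD.of_root (R := d16_17_6_3.R) (H := d16_17_6_3.H) (a := d16_17_6_3.a) (b := d16_17_6_3.b) (q := 4) (by decide) hn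
    (BlkD.sp 0 6 (BlkD.sp 2 3 (BlkD.sp 0 3 (s16_17_6_3_1 hn) (s16_17_6_3_2 hn)) (s16_17_6_3_3 hn))
      (s16_17_6_3_4 hn))

/-- the numbers of the pair `(7, 0)`, `R = 16`, `H = 17` -/
def d16_17_7_0 : BlkD.Pd :=
  ⟨16, 17, 4, 7, 0, 7, 0, 1, 0, 4, 4, 0, 0, 4, 4, 0, [0, 4, 8, 12, 16, 20, 24, 28], [0, 4, 8, 12,
    16, 20, 24, 28], [⟨1, 1, 1, 4, 8, [0, 4], [0, 4]⟩]⟩

/-- the certificates of the pair `(7, 0)` -/
def t16_17_7_0 : BlkD.Tr :=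
  .S 0 7 (.S 2 0 (.L 3 3 [4] [] [] 100000 0 0 830000 70000 0 75000 25000 0 0 0) (.E 1)) (.E 0)

lemma pr16_17_7_0 {n : ℕ} (hn : 6 ≤ n) : NoPr ((16 : ℕ) : ℤ) ((17 : ℕ) : ℤ) n 7 0 :=
  BlkD.pair_sound (d := d16_17_7_0) (by decide +kernel) hn (by decide) (tr := t16_17_7_0)
    (by decide +kernel) rfl rfl rfl rfl

/-- the numbers of the pair `(7, 1)`, `R = 16`, `H = 17` -/
def d16_17_7_1 : BlkD.Pd :=
  ⟨16, 17, 4, 7, 1, 6, 1, 1, 2, 2, 6, 0, 0, 4, 4, 0, [0, 6, 12, 18, 20, 22, 24], [0, 4, 8, 12, 16,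
    20, 24], [⟨1, 1, 1, 4, 8, [0, 4], [0, 4]⟩, ⟨1, 1, 1, 4, 10, [0, 6], [0, 4]⟩]⟩

/-- the certificates of the pair `(7, 1)` -/
def t16_17_7_1 : BlkD.Tr :=
  .S 0 7 (.S 2 1 (.S 0 3 (.L 3 4 [4, 4] [] [] 100000 100001 100001 799999 66667 0 100000 0 0 0 0)
    (.S 0 5 (.S 0 4 (.S 1 13 (.S 1 6 (.L 3 4 [4, 4] [] [] 100000 0 0 1050000 25000 0 25000 0 0 0 0)
    (.S 1 10 (.S 1 8 (.S 1 7 (.L 3 4 [4, 4] [128, 126, 124, 122, 116, 110] [] 100000 0 0 1066669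
    33333 0 33333 0 0 33333 33333) (.L 3 4 [4, 4] [152, 150, 148, 146, 144, 138] [] 100000 0 0
    1028574 28571 0 100000 0 0 14286 14286)) (.L 3 4 [4, 4] [] [] 100000 0 0 1050000 25000 0 100000
    0 0 0 0)) (.L 3 4 [4, 4] [] [] 100000 0 0 1050000 25000 0 100000 0 0 0 0))) (.E 0)) (.S 1 12
    (.S 1 6 (.S 1 3 (.L 3 4 [4, 4] [] [] 100000 0 0 900001 33333 0 33333 0 0 0 0) (.S 1 5 (.S 1 4
    (.L 3 4 [4, 4] [76, 70, 64, 58, 52, 0] [] 100000 0 0 1000000 25000 0 25000 0 0 0 0) (.L 3 4 [4,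
    4] [96, 94, 88, 82, 76, 70] [] 100000 0 0 1046155 30769 0 30769 0 0 23077 23077)) (.L 3 4 [4,
    4] [118, 116, 114, 108, 102, 96] [] 100000 0 0 1057145 28571 0 100000 0 0 14286 14286))) (.L 3
    4 [4, 4] [] [] 100000 0 0 1020000 20000 0 100000 0 0 0 0)) (.E 0))) (.L 3 4 [4, 4] [] [] 100000
    2 2 1057142 14286 0 100000 0 0 0 0))) (.E 1)) (.E 0)

lemma pr16_17_7_1 {n : ℕ} (hn : 6 ≤ n) : NoPr ((16 : ℕ) : ℤ) ((17 : ℕ) : ℤ) n 7 1 :=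
  BlkD.pair_sound (d := d16_17_7_1) (by decide +kernel) hn (by decide) (tr := t16_17_7_1)
    (by decide +kernel) rfl rfl rfl rfl

end BlkC

end Pool.Agent.Lib.MP_f04ccf_co
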