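import Pool.Agent.Lib.MP_f04ccf_co.M.BlkT

/-!
MP_f04ccf_co, block certificate, data `R = 16`, `H = 17`, part 4 (generated, helper99:
bd10.cpp, gen2.py).
-/

set_option autoImplicit false
set_option maxRecDepth 100000

namespace Pool.Agent.Lib.MP_f04ccf_co

namespace BlkC

/-- the numbers of the pair `(7, 2)`, `R = 16`, `H = 17` -/
def d16_17_7_2 : BlkD.Pd :=
  ⟨16, 17, 4, 7, 2, 5, 1, 2, 2, 2, 6, 0, 0, 4, 4, 0, [0, 6, 12, 16, 18, 20], [0, 4, 8, 12, 16, 20],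
    [⟨1, 1, 1, 4, 8, [0, 4], [0, 4]⟩, ⟨1, 1, 1, 4, 10, [0, 6], [0, 4]⟩]⟩

lemma k16_17_7_2 : BlkD.pairOk d16_17_7_2 = true := by decide +kernel

/-- certificates of the pair `(7, 2)`, part 1 -/
def t16_17_7_2_1 : BlkD.Tr :=
  .S 0 1 (.L 4 5 [4, 3, 16] [] [] 100000 100001 100001 966666 66667 0 100000 33333 0 0 0) (.S 0 2
    (.L 4 5 [4, 3, 16] [] [] 100000 100001 100001 966666 66667 0 100000 33333 0 0 0) (.L 4 5 [4, 3,
    16] [] [] 100000 100001 100001 966666 66667 0 100000 33333 0 0 0))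

lemma s16_17_7_2_1 {n : ℕ} (hn : 6 ≤ n) : NoNd (d16_17_7_2.R : ℤ) d16_17_7_2.H n d16_17_7_2.a d16_17_7_2.b
    (BlkD.inB (fun _ => 0)
      (BlkD.upd (BlkD.upd (BlkD.upd (fun _ => 17) 0 7) 2 2) 0 3)) :=
  BlkD.tree_sound (BlkD.pairOk_sound k16_17_7_2) (by decide) hn t16_17_7_2_1 _ _ (by decide +kernel)

/-- certificates of the pair `(7, 2)`, part 2 -/
def t16_17_7_2_2 : BlkD.Tr :=
  .S 0 5 (.S 0 4 (.L 4 5 [4, 3, 16] [] [] 100000 83333 83333 1100001 50000 0 83333 50000 0 0 0) (.S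
    1 12 (.S 1 6 (.S 1 3 (.L 4 5 [4, 3, 16] [] [] 100000 0 0 1100000 0 0 0 50000 0 0 0) (.S 1 5 (.L
    4 5 [4, 3, 16] [] [] 100000 0 0 1166669 33333 0 33333 33333 0 0 0) (.L 4 5 [4, 3, 16] [122,
    120, 116, 110, 104, 98] [] 100000 25000 25000 1125000 50000 0 75000 25000 0 0 0))) (.L 4 5 [4,
    3, 16] [] [] 100000 0 0 1140000 20000 0 100000 40000 0 0 0)) (.E 0))) (.L 4 5 [4, 3, 16] [] []
    100000 2 2 1166666 16667 0 83333 41667 0 0 0)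

lemma s16_17_7_2_2 {n : ℕ} (hn : 6 ≤ n) : NoNd (d16_17_7_2.R : ℤ) d16_17_7_2.H n d16_17_7_2.a d16_17_7_2.b
    (BlkD.inB (BlkD.upd (fun _ => 0) 0 4)
      (BlkD.upd (BlkD.upd (fun _ => 17) 0 7) 2 2)) :=
  BlkD.tree_sound (BlkD.pairOk_sound k16_17_7_2) (by decide) hn t16_17_7_2_2 _ _ (by decide +kernel)

/-- certificates of the pair `(7, 2)`, part 3 -/
def t16_17_7_2_3 : BlkD.Tr :=
  .E 1

lemma s16_17_7_2_3 {n : ℕ} (hn : 6 ≤ n) : NoNd (d16_17_7_2.R : ℤ) d16_17_7_2.H n d16_17_7_2.a d16_17_7_2.b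
    (BlkD.inB (BlkD.upd (fun _ => 0) 2 3)
      (BlkD.upd (fun _ => 17) 0 7)) :=
  BlkD.tree_sound (BlkD.pairOk_sound k16_17_7_2) (by decide) hn t16_17_7_2_3 _ _ (by decide +kernel)

/-- certificates of the pair `(7, 2)`, part 4 -/
def t16_17_7_2_4 : BlkD.Tr :=
  .E 0

lemma s16_17_7_2_4 {n : ℕ} (hn : 6 ≤ n) : NoNd (d16_17_7_2.R : ℤ) d16_17_7_2.H n d16_17_7_2.a d16_17_7_2.b
    (BlkD.inB (BlkD.upd (fun _ => 0) 0 8)
      (fun _ => 17)) :=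
  BlkD.tree_sound (BlkD.pairOk_sound k16_17_7_2) (by decide) hn t16_17_7_2_4 _ _ (by decide +kernel)

lemma pr16_17_7_2 {n : ℕ} (hn : 6 ≤ n) : NoPr ((16 : ℕ) : ℤ) ((17 : ℕ) : ℤ) n 7 2 :=
  BlkD.of_root (R := d16_17_7_2.R) (H := d16_17_7_2.H) (a := d16_17_7_2.a) (b := d16_17_7_2.b) (q := 4) (by decide) hn
    (BlkD.sp 0 7 (BlkD.sp 2 2 (BlkD.sp 0 3 (s16_17_7_2_1 hn) (s16_17_7_2_2 hn)) (s16_17_7_2_3 hn))
      (s16_17_7_2_4 hn))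

/-- the numbers of the pair `(7, 3)`, `R = 16`, `H = 17` -/
def d16_17_7_3 : BlkD.Pd :=
  ⟨16, 17, 4, 7, 3, 4, 0, 2, 0, 4, 4, 0, 0, 4, 4, 0, [0, 4, 8, 12, 16], [0, 4, 8, 12, 16], [⟨1, 1,
    1, 4, 8, [0, 4], [0, 4]⟩]⟩

lemma k16_17_7_3 : BlkD.pairOk d16_17_7_3 = true := by decide +kernel

/-- certificates of the pair `(7, 3)`, part 1 -/
def t16_17_7_3_1 : BlkD.Tr :=
  .S 0 1 (.L 3 3 [4, 16, 16, 16] [] [] 100000 0 0 1200001 66667 33333 100000 33333 0 0 0) (.L 3 3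
    [4, 16, 16, 16] [] [] 100000 0 0 1200001 66667 33333 100000 33333 0 0 0)

lemma s16_17_7_3_1 {n : ℕ} (hn : 6 ≤ n) : NoNd (d16_17_7_3.R : ℤ) d16_17_7_3.H n d16_17_7_3.a d16_17_7_3.b
    (BlkD.inB (fun _ => 0)
      (BlkD.upd (BlkD.upd (BlkD.upd (fun _ => 17) 0 7) 2 3) 0 3)) :=
  BlkD.tree_sound (BlkD.pairOk_sound k16_17_7_3) (by decide) hn t16_17_7_3_1 _ _ (by decide +kernel)

/-- certificates of the pair `(7, 3)`, part 2 -/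
def t16_17_7_3_2 : BlkD.Tr :=
  .L 3 3 [4, 16, 16, 16] [] [] 100000 0 0 1200001 66667 33333 100000 33333 0 0 0

lemma s16_17_7_3_2 {n : ℕ} (hn : 6 ≤ n) : NoNd (d16_17_7_3.R : ℤ) d16_17_7_3.H n d16_17_7_3.a d16_17_7_3.b
    (BlkD.inB (BlkD.upd (fun _ => 0) 0 4)
      (BlkD.upd (BlkD.upd (fun _ => 17) 0 7) 2 3)) :=
  BlkD.tree_sound (BlkD.pairOk_sound k16_17_7_3) (by decide) hn t16_17_7_3_2 _ _ (by decide +kernel)

/-- certificates of the pair `(7, 3)`, part 3 -/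
def t16_17_7_3_3 : BlkD.Tr :=
  .E 1

lemma s16_17_7_3_3 {n : ℕ} (hn : 6 ≤ n) : NoNd (d16_17_7_3.R : ℤ) d16_17_7_3.H n d16_17_7_3.a d16_17_7_3.b
    (BlkD.inB (BlkD.upd (fun _ => 0) 2 4)
      (BlkD.upd (fun _ => 17) 0 7)) :=
  BlkD.tree_sound (BlkD.pairOk_sound k16_17_7_3) (by decide) hn t16_17_7_3_3 _ _ (by decide +kernel)

/-- certificates of the pair `(7, 3)`, part 4 -/
def t16_17_7_3_4 : BlkD.Tr :=
  .E 0

lemma s16_17_7_3_4 {n : ℕ} (hn : 6 ≤ n) : NoNd (d16_17_7_3.R : ℤ) d16_17_7_3.H n d16_17_7_3.a d16_17_7_3.b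
    (BlkD.inB (BlkD.upd (fun _ => 0) 0 8)
      (fun _ => 17)) :=
  BlkD.tree_sound (BlkD.pairOk_sound k16_17_7_3) (by decide) hn t16_17_7_3_4 _ _ (by decide +kernel)

lemma pr16_17_7_3 {n : ℕ} (hn : 6 ≤ n) : NoPr ((16 : ℕ) : ℤ) ((17 : ℕ) : ℤ) n 7 3 :=
  BlkD.of_root (R := d16_17_7_3.R) (H := d16_17_7_3.H) (a := d16_17_7_3.a) (b := d16_17_7_3.b) (q := 4) (by decide) hn
    (BlkD.sp 0 7 (BlkD.sp 2 3 (BlkD.sp 0 3 (s16_17_7_3_1 hn) (s16_17_7_3_2 hn)) (s16_17_7_3_3 hn))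
      (s16_17_7_3_4 hn))

/-- the numbers of the pair `(8, 0)`, `R = 16`, `H = 17` -/
def d16_17_8_0 : BlkD.Pd :=
  ⟨16, 17, 4, 8, 0, 6, 0, 1, 0, 4, 4, 0, 0, 4, 4, 0, [0, 4, 8, 12, 16, 20, 24], [0, 4, 8, 12, 16,
    20, 24], [⟨1, 1, 1, 4, 8, [0, 4], [0, 4]⟩]⟩

/-- the certificates of the pair `(8, 0)` -/
def t16_17_8_0 : BlkD.Tr :=
  .S 0 8 (.S 2 0 (.L 3 3 [4] [] [] 100000 0 0 900000 100000 0 100000 0 0 0 0) (.E 1)) (.E 0)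

lemma pr16_17_8_0 {n : ℕ} (hn : 6 ≤ n) : NoPr ((16 : ℕ) : ℤ) ((17 : ℕ) : ℤ) n 8 0 :=
  BlkD.pair_sound (d := d16_17_8_0) (by decide +kernel) hn (by decide) (tr := t16_17_8_0)
    (by decide +kernel) rfl rfl rfl rfl

/-- the numbers of the pair `(8, 1)`, `R = 16`, `H = 17` -/
def d16_17_8_1 : BlkD.Pd :=
  ⟨16, 17, 4, 8, 1, 5, 1, 1, 0, 4, 8, 0, 0, 4, 4, 0, [0, 8, 16, 20, 20, 20], [0, 4, 8, 12, 16, 20],
    [⟨1, 1, 1, 4, 8, [0, 4], [0, 4]⟩, ⟨1, 1, 1, 4, 12, [0, 8], [0, 4]⟩]⟩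

/-- the certificates of the pair `(8, 1)` -/
def t16_17_8_1 : BlkD.Tr :=
  .S 0 8 (.S 2 1 (.S 0 4 (.L 4 6 [4, 3] [] [] 100000 233332 233332 933336 83333 0 100000 66667 0 0
    0) (.S 0 6 (.S 0 5 (.S 1 12 (.S 1 6 (.L 4 6 [4, 3] [] [] 100000 0 0 1112500 31250 0 43750 25000
    0 0 0) (.S 1 9 (.S 1 8 (.S 1 7 (.L 4 6 [4, 3] [140, 140, 140, 140, 136, 128] [] 100000 2 2
    1154545 36364 0 54545 18182 0 0 0) (.L 3 4 [4, 4] [164, 164, 164, 164, 164, 160] [] 100000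
    166668 166668 999999 66667 0 100000 0 0 0 0)) (.L 3 4 [4, 4] [190, 190, 190, 190, 190, 190] []
    100000 181817 181817 990911 72727 0 100000 0 0 9091 9091)) (.S 1 11 (.S 1 10 (.L 4 6 [4, 3]
    [218, 218, 218, 218, 218, 218] [] 100000 200000 200000 900000 100000 0 100000 0 0 0 0) (.L 4 6
    [4, 3] [248, 248, 248, 248, 248, 248] [] 100000 585713 457142 3 228571 0 228571 0 0 0 0)) (.L 4
    6 [4, 3] [280, 280, 280, 280, 280, 280] [] 100000 537500 425000 0 212500 0 212500 0 0 0 0))))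
    (.E 0)) (.S 1 11 (.S 1 5 (.L 4 6 [4, 3] [] [] 100000 2 2 1127273 36364 0 54545 18182 0 0 0) (.S
    1 8 (.S 1 7 (.S 1 6 (.L 4 6 [4, 3] [130, 130, 130, 126, 118, 110] [] 100000 0 0 1175000 37500 0
    56250 12500 0 0 0) (.L 4 6 [4, 3] [154, 154, 154, 154, 150, 142] [] 100000 50000 50000 1100000
    50000 0 100000 50000 0 0 0)) (.S 2 0 (.S 3 3 (.S 3 1 (.S 3 0 (.L 4 6 [4, 3] [180, 180, 180,
    180, 180, 176] [0, 0, 0, 0, 0, 0] 100000 100001 100001 1066666 66667 0 100000 0 0 0 0) (.L 3 4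
    [4, 4] [180, 180, 180, 180, 180, 176] [8, 0, 0, 0, 0, 0] 100000 266667 266667 900000 100000 0
    100000 0 0 33333 33333)) (.L 3 4 [4, 4] [180, 180, 180, 180, 180, 176] [] 100000 508335 383335
    0 191667 0 225000 33333 0 33333 33333)) (.E 1)) (.L 3 4 [4, 4] [180, 180, 180, 180, 180, 176]
    [] 100000 609525 495239 0 214286 0 214286 0 0 33333 33333))) (.S 1 10 (.S 1 9 (.L 3 4 [4, 4]
    [208, 208, 208, 208, 208, 208] [] 100000 200000 200000 900000 100000 0 100000 0 0 0 0) (.L 3 4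
    [4, 4] [238, 238, 238, 238, 238, 238] [] 100000 585713 457142 3 228571 0 228571 0 0 0 0)) (.L 3
    4 [4, 4] [270, 270, 270, 270, 270, 270] [] 100000 380000 200000 0 190000 0 280000 0 0 0 0))))
    (.E 0))) (.S 0 7 (.S 1 10 (.S 1 5 (.S 1 2 (.L 3 4 [4, 4] [] [] 100000 0 0 1000000 50000 0 50000
    0 0 0 0) (.S 1 4 (.L 4 6 [4, 3] [] [] 100000 0 0 1128572 42857 0 42857 28571 0 0 0) (.L 4 6 [4,
    3] [118, 118, 114, 106, 98, 90] [] 100000 50000 50000 1100000 50000 0 100000 50000 0 0 0))) (.S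
    1 8 (.S 1 7 (.S 1 6 (.L 4 6 [4, 3] [142, 142, 142, 138, 130, 122] [] 100000 50000 50000 1100000
    50000 0 100000 50000 0 0 0) (.L 4 6 [4, 3] [168, 168, 168, 168, 164, 156] [] 100000 0 0 1100000
    50000 0 100000 50000 0 0 0)) (.L 4 6 [4, 3] [196, 196, 196, 196, 196, 192] [] 100000 100000
    100000 1000000 100000 0 100000 0 0 0 0)) (.S 1 9 (.L 4 6 [4, 3] [226, 226, 226, 226, 226, 226]
    [] 100000 433334 266667 0 266667 0 266667 0 0 0 0) (.L 4 6 [4, 3] [258, 258, 258, 258, 258,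
    258] [] 100000 300000 100000 0 200000 0 300000 0 0 0 0)))) (.E 0)) (.L 4 6 [4, 3] [] [] 100000
    0 0 1168000 16000 0 72000 0 0 0 0)))) (.E 1)) (.E 0)

lemma pr16_17_8_1 {n : ℕ} (hn : 6 ≤ n) : NoPr ((16 : ℕ) : ℤ) ((17 : ℕ) : ℤ) n 8 1 :=
  BlkD.pair_sound (d := d16_17_8_1) (by decide +kernel) hn (by decide) (tr := t16_17_8_1)
    (by decide +kernel) rfl rfl rfl rfl

end BlkC

end Pool.Agent.Lib.MP_f04ccf_co
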