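import Pool.Agent.Lib.MP_f04ccf_co.M.BlkX16_17_3_3d

/-!
MP_f04ccf_co, block certificate with exceptions, `R = 16`, `H = 17`, the pair `(3, 3)` (data of helper99 / helper13,
generated by helper8, genx.py): the exceptions, part 1 of 1.
-/

set_option autoImplicit false
set_option maxRecDepth 100000

namespace Pool.Agent.Lib.MP_f04ccf_co

namespace BlkC

lemma e16_17_3_3_6_0 : EnPr.lall (fun l => EnPr.one 16 6 (5, 3, 4, 3) (3 :: 3 :: l))
    (EnPr.prof (6 - 2) 3 (17 - (6 + 1) - 3 - 3)) = true := by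
  decide +kernel

lemma e16_17_3_3_6_1 : EnPr.lall (fun l => EnPr.one 16 6 (5, 4, 4, 3) (3 :: 3 :: l))
    (EnPr.prof (6 - 2) 3 (17 - (6 + 1) - 3 - 3)) = true := by
  decide +kernel

lemma e16_17_3_3_7_0 : EnPr.lall (fun l => EnPr.one 16 7 (5, 3, 4, 3) (3 :: 3 :: l))
    (EnPr.prof (7 - 2) 3 (17 - (7 + 1) - 3 - 3)) = true := by
  decide +kernel

lemma e16_17_3_3_7_1 : EnPr.lall (fun l => EnPr.one 16 7 (5, 4, 4, 3) (3 :: 3 :: l))
    (EnPr.prof (7 - 2) 3 (17 - (7 + 1) - 3 - 3)) = true := by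
  decide +kernel

lemma e16_17_3_3_8_0 : EnPr.lall (fun l => EnPr.one 16 8 (5, 3, 4, 3) (3 :: 3 :: l))
    (EnPr.prof (8 - 2) 3 (17 - (8 + 1) - 3 - 3)) = true := by
  decide +kernel

lemma e16_17_3_3_8_1 : EnPr.lall (fun l => EnPr.one 16 8 (5, 4, 4, 3) (3 :: 3 :: l))
    (EnPr.prof (8 - 2) 3 (17 - (8 + 1) - 3 - 3)) = true := by
  decide +kernel

lemma e16_17_3_3_9_0 : EnPr.lall (fun l => EnPr.one 16 9 (5, 3, 4, 3) (3 :: 3 :: l))
    (EnPr.prof (9 - 2) 3 (17 - (9 + 1) - 3 - 3)) = true := by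
  decide +kernel

lemma e16_17_3_3_9_1 : EnPr.lall (fun l => EnPr.one 16 9 (5, 4, 4, 3) (3 :: 3 :: l))
    (EnPr.prof (9 - 2) 3 (17 - (9 + 1) - 3 - 3)) = true := by
  decide +kernel

lemma e16_17_3_3_10_0 : EnPr.lall (fun l => EnPr.one 16 10 (5, 3, 4, 3) (3 :: 3 :: l))
    (EnPr.prof (10 - 2) 3 (17 - (10 + 1) - 3 - 3)) = true := by
  decide +kernel

lemma e16_17_3_3_10_1 : EnPr.lall (fun l => EnPr.one 16 10 (5, 4, 4, 3) (3 :: 3 :: l))
    (EnPr.prof (10 - 2) 3 (17 - (10 + 1) - 3 - 3)) = true := by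
  decide +kernel

end BlkC

end Pool.Agent.Lib.MP_f04ccf_co
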