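import Pool.Agent.Lib.MP_f04ccf_co.M.BlkX16_17_3_3d
import Pool.Agent.Lib.MP_f04ccf_co.M.BlkX16_17_3_3p1
import Pool.Agent.Lib.MP_f04ccf_co.M.BlkX16_17_3_3e1

/-!
MP_f04ccf_co, block certificate with exceptions, `R = 16`, `H = 17`, the pair `(3, 3)` (data of helper99 / helper13,
generated by helper8, genx.py): the parts together.
-/

set_option autoImplicit false
set_option maxRecDepth 100000

namespace Pool.Agent.Lib.MP_f04ccf_co

namespace BlkC

lemma x16_17_3_3_6 : NoNd ((16 : ℕ) : ℤ) ((17 : ℕ) : ℤ) 6 3 3 fun x y z w _ _ =>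
    BlkD.exF 3 3 x16_17_3_3 x y z w := by
  refine NoNd.of_E (by norm_num) (by norm_num) fun e he => ?_
  simp only [x16_17_3_3, List.mem_cons, List.not_mem_nil, or_false] at he
  rcases he with rfl | rfl
  · exact e16_17_3_3_6_0
  · exact e16_17_3_3_6_1

lemma x16_17_3_3_7 : NoNd ((16 : ℕ) : ℤ) ((17 : ℕ) : ℤ) 7 3 3 fun x y z w _ _ =>
    BlkD.exF 3 3 x16_17_3_3 x y z w := by
  refine NoNd.of_E (by norm_num) (by norm_num) fun e he => ?_
  simp only [x16_17_3_3, List.mem_cons, List.not_mem_nil, or_false] at he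
  rcases he with rfl | rfl
  · exact e16_17_3_3_7_0
  · exact e16_17_3_3_7_1

lemma x16_17_3_3_8 : NoNd ((16 : ℕ) : ℤ) ((17 : ℕ) : ℤ) 8 3 3 fun x y z w _ _ =>
    BlkD.exF 3 3 x16_17_3_3 x y z w := by
  refine NoNd.of_E (by norm_num) (by norm_num) fun e he => ?_
  simp only [x16_17_3_3, List.mem_cons, List.not_mem_nil, or_false] at he
  rcases he with rfl | rfl
  · exact e16_17_3_3_8_0
  · exact e16_17_3_3_8_1

lemma x16_17_3_3_9 : NoNd ((16 : ℕ) : ℤ) ((17 : ℕ) : ℤ) 9 3 3 fun x y z w _ _ =>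
    BlkD.exF 3 3 x16_17_3_3 x y z w := by
  refine NoNd.of_E (by norm_num) (by norm_num) fun e he => ?_
  simp only [x16_17_3_3, List.mem_cons, List.not_mem_nil, or_false] at he
  rcases he with rfl | rfl
  · exact e16_17_3_3_9_0
  · exact e16_17_3_3_9_1

lemma x16_17_3_3_10 : NoNd ((16 : ℕ) : ℤ) ((17 : ℕ) : ℤ) 10 3 3 fun x y z w _ _ =>
    BlkD.exF 3 3 x16_17_3_3 x y z w := by
  refine NoNd.of_E (by norm_num) (by norm_num) fun e he => ?_
  simp only [x16_17_3_3, List.mem_cons, List.not_mem_nil, or_false] at he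
  rcases he with rfl | rfl
  · exact e16_17_3_3_10_0
  · exact e16_17_3_3_10_1

lemma r16_17_3_3 {n : ℕ} (hn : 6 ≤ n) : BlkD.NdX d16_17_3_3 (BlkD.exF 3 3 x16_17_3_3) n (fun _ => 0) (fun _ => 17) :=
  (n16_17_3_3_0 hn)

/-- **`R = 16`, `H = 17`, the pair `(3, 3)`** -/
theorem pr16_17_3_3 {n : ℕ} (hn : 6 ≤ n) : NoPr ((16 : ℕ) : ℤ) ((17 : ℕ) : ℤ) n 3 3 := by
  by_cases h : n < 11
  · interval_cases n
    · exact BlkD.NdX.pr (r16_17_3_3 (by norm_num)) (by decide) (by decide) x16_17_3_3_6 rfl rfl rfl rfl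
    · exact BlkD.NdX.pr (r16_17_3_3 (by norm_num)) (by decide) (by decide) x16_17_3_3_7 rfl rfl rfl rfl
    · exact BlkD.NdX.pr (r16_17_3_3 (by norm_num)) (by decide) (by decide) x16_17_3_3_8 rfl rfl rfl rfl
    · exact BlkD.NdX.pr (r16_17_3_3 (by norm_num)) (by decide) (by decide) x16_17_3_3_9 rfl rfl rfl rfl
    · exact BlkD.NdX.pr (r16_17_3_3 (by norm_num)) (by decide) (by decide) x16_17_3_3_10 rfl rfl rfl rfl
  · exact NoPr.big (by omega) (by omega)

end BlkC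

end Pool.Agent.Lib.MP_f04ccf_co
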