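import Pool.Agent.Lib.MP_f04ccf_co.M.BlkC16a1
import Pool.Agent.Lib.MP_f04ccf_co.M.BlkE16a1
import Pool.Agent.Lib.MP_f04ccf_co.M.BlkE16a2
import Pool.Agent.Lib.MP_f04ccf_co.M.BlkE16a3
import Pool.Agent.Lib.MP_f04ccf_co.M.BlkE16a4
import Pool.Agent.Lib.MP_f04ccf_co.M.BlkC16b1
import Pool.Agent.Lib.MP_f04ccf_co.M.BlkE16b1
import Pool.Agent.Lib.MP_f04ccf_co.M.BlkE16b2
import Pool.Agent.Lib.MP_f04ccf_co.M.BlkE16b3
import Pool.Agent.Lib.MP_f04ccf_co.M.BlkE16b4
import Pool.Agent.Lib.MP_f04ccf_co.M.BlkE16b5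
import Pool.Agent.Lib.MP_f04ccf_co.M.BlkX16_17_3_3

/-!
MP_f04ccf_co, block certificate, **`R = 16`**: all pairs of shares together (generated, helper99).
-/

set_option autoImplicit false

namespace Pool.Agent.Lib.MP_f04ccf_co

/-- **`R = 16`, `∑ h ≤ 16`, at least 5 rows: no items** -/
theorem noItC16_16 {n : ℕ} (hn : 5 ≤ n) : NoItC ((16 : ℕ) : ℤ) ((16 : ℕ) : ℤ) n := by
  refine NoItC.of_pr (q := 3) hn fun a b hba hs => ?_
  have ha : a ≤ 10 := by omega
  interval_cases a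
  · have hb : b ≤ 0 := by omega
    interval_cases b
    · exact BlkC.pr16_16_0_0 hn
  · have hb : b ≤ 1 := by omega
    interval_cases b
    · exact BlkC.pr16_16_1_0 hn
    · exact BlkC.pr16_16_1_1 hn
  · have hb : b ≤ 2 := by omega
    interval_cases b
    · exact BlkC.pr16_16_2_0 hn
    · exact BlkC.pr16_16_2_1 hn
    · exact BlkC.pr16_16_2_2 hn
  · have hb : b ≤ 3 := by omega
    interval_cases b
    · exact BlkC.pr16_16_3_0 hn
    · exact BlkC.pr16_16_3_1 hn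
    · exact BlkC.pr16_16_3_2 hn
    · exact BlkC.pr16_16_3_3 hn
  · have hb : b ≤ 4 := by omega
    interval_cases b
    · exact BlkC.pr16_16_4_0 hn
    · exact BlkC.pr16_16_4_1 hn
    · exact BlkC.pr16_16_4_2 hn
    · exact BlkC.pr16_16_4_3 hn
    · exact BlkC.pr16_16_4_4 hn
  · have hb : b ≤ 5 := by omega
    interval_cases b
    · exact BlkC.pr16_16_5_0 hn
    · exact BlkC.pr16_16_5_1 hn
    · exact BlkC.pr16_16_5_2 hn
    · exact BlkC.pr16_16_5_3 hn
    · exact BlkC.pr16_16_5_4 hn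
    · exact BlkC.pr16_16_5_5 hn
  · have hb : b ≤ 4 := by omega
    interval_cases b
    · exact BlkC.pr16_16_6_0 hn
    · exact BlkC.pr16_16_6_1 hn
    · exact BlkC.pr16_16_6_2 hn
    · exact BlkC.pr16_16_6_3 hn
    · exact BlkC.pr16_16_6_4 hn
  · have hb : b ≤ 3 := by omega
    interval_cases b
    · exact BlkC.pr16_16_7_0 hn
    · exact BlkC.pr16_16_7_1 hn
    · exact BlkC.pr16_16_7_2 hn
    · exact BlkC.pr16_16_7_3 hn
  · have hb : b ≤ 2 := by omega
    interval_cases b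
    · exact BlkC.pr16_16_8_0 hn
    · exact BlkC.pr16_16_8_1 hn
    · exact BlkC.pr16_16_8_2 hn
  · have hb : b ≤ 1 := by omega
    interval_cases b
    · exact BlkC.pr16_16_9_0 hn
    · exact BlkC.pr16_16_9_1 hn
  · have hb : b ≤ 0 := by omega
    interval_cases b
    · exact BlkC.pr16_16_10_0 hn

/-- **`R = 16`, `∑ h ≤ 17`, at least 6 rows: no items** -/
theorem noItC16_17 {n : ℕ} (hn : 6 ≤ n) : NoItC ((16 : ℕ) : ℤ) ((17 : ℕ) : ℤ) n := by
  refine NoItC.of_pr (q := 4) hn fun a b hba hs => ?_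
  have ha : a ≤ 10 := by omega
  interval_cases a
  · have hb : b ≤ 0 := by omega
    interval_cases b
    · exact BlkC.pr16_17_0_0 hn
  · have hb : b ≤ 1 := by omega
    interval_cases b
    · exact BlkC.pr16_17_1_0 hn
    · exact BlkC.pr16_17_1_1 hn
  · have hb : b ≤ 2 := by omega
    interval_cases b
    · exact BlkC.pr16_17_2_0 hn
    · exact BlkC.pr16_17_2_1 hn
    · exact BlkC.pr16_17_2_2 hn
  · have hb : b ≤ 3 := by omega
    interval_cases b
    · exact BlkC.pr16_17_3_0 hn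
    · exact BlkC.pr16_17_3_1 hn
    · exact BlkC.pr16_17_3_2 hn
    · exact BlkC.pr16_17_3_3 hn
  · have hb : b ≤ 4 := by omega
    interval_cases b
    · exact BlkC.pr16_17_4_0 hn
    · exact BlkC.pr16_17_4_1 hn
    · exact BlkC.pr16_17_4_2 hn
    · exact BlkC.pr16_17_4_3 hn
    · exact BlkC.pr16_17_4_4 hn
  · have hb : b ≤ 5 := by omega
    interval_cases b
    · exact BlkC.pr16_17_5_0 hn
    · exact BlkC.pr16_17_5_1 hn
    · exact BlkC.pr16_17_5_2 hn
    · exact BlkC.pr16_17_5_3 hn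
    · exact BlkC.pr16_17_5_4 hn
    · exact BlkC.pr16_17_5_5 hn
  · have hb : b ≤ 4 := by omega
    interval_cases b
    · exact BlkC.pr16_17_6_0 hn
    · exact BlkC.pr16_17_6_1 hn
    · exact BlkC.pr16_17_6_2 hn
    · exact BlkC.pr16_17_6_3 hn
    · exact BlkC.pr16_17_6_4 hn
  · have hb : b ≤ 3 := by omega
    interval_cases b
    · exact BlkC.pr16_17_7_0 hn
    · exact BlkC.pr16_17_7_1 hn
    · exact BlkC.pr16_17_7_2 hn
    · exact BlkC.pr16_17_7_3 hn
  · have hb : b ≤ 2 := by omega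
    interval_cases b
    · exact BlkC.pr16_17_8_0 hn
    · exact BlkC.pr16_17_8_1 hn
    · exact BlkC.pr16_17_8_2 hn
  · have hb : b ≤ 1 := by omega
    interval_cases b
    · exact BlkC.pr16_17_9_0 hn
    · exact BlkC.pr16_17_9_1 hn
  · have hb : b ≤ 0 := by omega
    interval_cases b
    · exact BlkC.pr16_17_10_0 hn

end Pool.Agent.Lib.MP_f04ccf_co
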