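import Pool.Agent.Lib.MP_f04ccf_co.M.BlkT

/-!
MP_f04ccf_co, block certificate, data `R = 16`, `H = 17`, part 5 (generated, helper99:
bd10.cpp, gen2.py).
-/

set_option autoImplicit false
set_option maxRecDepth 100000

namespace Pool.Agent.Lib.MP_f04ccf_co

namespace BlkC

/-- the numbers of the pair `(8, 2)`, `R = 16`, `H = 17` -/
def d16_17_8_2 : BlkD.Pd :=
  ⟨16, 17, 4, 8, 2, 4, 0, 2, 0, 4, 4, 0, 0, 4, 4, 0, [0, 4, 8, 12, 16], [0, 4, 8, 12, 16], [⟨1, 1,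
    1, 4, 8, [0, 4], [0, 4]⟩]⟩

lemma k16_17_8_2 : BlkD.pairOk d16_17_8_2 = true := by decide +kernel

/-- certificates of the pair `(8, 2)`, part 1 -/
def t16_17_8_2_1 : BlkD.Tr :=
  .S 0 2 (.L 3 3 [4, 16, 16] [] [] 100000 0 0 1200000 66667 0 100000 33333 0 0 0) (.L 3 3 [4, 16,
    16] [] [] 100000 0 0 1200000 66667 0 100000 33333 0 0 0)

lemma s16_17_8_2_1 {n : ℕ} (hn : 6 ≤ n) : NoNd (d16_17_8_2.R : ℤ) d16_17_8_2.H n d16_17_8_2.a d16_17_8_2.b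
    (BlkD.inB (fun _ => 0)
      (BlkD.upd (BlkD.upd (BlkD.upd (fun _ => 17) 0 8) 2 2) 0 4)) :=
  BlkD.tree_sound (BlkD.pairOk_sound k16_17_8_2) (by decide) hn t16_17_8_2_1 _ _ (by decide +kernel)

/-- certificates of the pair `(8, 2)`, part 2 -/
def t16_17_8_2_2 : BlkD.Tr :=
  .L 3 3 [4, 16, 16] [] [] 100000 0 0 1200000 66667 0 100000 33333 0 0 0

lemma s16_17_8_2_2 {n : ℕ} (hn : 6 ≤ n) : NoNd (d16_17_8_2.R : ℤ) d16_17_8_2.H n d16_17_8_2.a d16_17_8_2.b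
    (BlkD.inB (BlkD.upd (fun _ => 0) 0 5)
      (BlkD.upd (BlkD.upd (fun _ => 17) 0 8) 2 2)) :=
  BlkD.tree_sound (BlkD.pairOk_sound k16_17_8_2) (by decide) hn t16_17_8_2_2 _ _ (by decide +kernel)

/-- certificates of the pair `(8, 2)`, part 3 -/
def t16_17_8_2_3 : BlkD.Tr :=
  .E 1

lemma s16_17_8_2_3 {n : ℕ} (hn : 6 ≤ n) : NoNd (d16_17_8_2.R : ℤ) d16_17_8_2.H n d16_17_8_2.a d16_17_8_2.b
    (BlkD.inB (BlkD.upd (fun _ => 0) 2 3)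
      (BlkD.upd (fun _ => 17) 0 8)) :=
  BlkD.tree_sound (BlkD.pairOk_sound k16_17_8_2) (by decide) hn t16_17_8_2_3 _ _ (by decide +kernel)

/-- certificates of the pair `(8, 2)`, part 4 -/
def t16_17_8_2_4 : BlkD.Tr :=
  .E 0

lemma s16_17_8_2_4 {n : ℕ} (hn : 6 ≤ n) : NoNd (d16_17_8_2.R : ℤ) d16_17_8_2.H n d16_17_8_2.a d16_17_8_2.b
    (BlkD.inB (BlkD.upd (fun _ => 0) 0 9)
      (fun _ => 17)) :=
  BlkD.tree_sound (BlkD.pairOk_sound k16_17_8_2) (by decide) hn t16_17_8_2_4 _ _ (by decide +kernel)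

lemma pr16_17_8_2 {n : ℕ} (hn : 6 ≤ n) : NoPr ((16 : ℕ) : ℤ) ((17 : ℕ) : ℤ) n 8 2 :=
  BlkD.of_root (R := d16_17_8_2.R) (H := d16_17_8_2.H) (a := d16_17_8_2.a) (b := d16_17_8_2.b) (q := 4) (by decide) hn
    (BlkD.sp 0 8 (BlkD.sp 2 2 (BlkD.sp 0 4 (s16_17_8_2_1 hn) (s16_17_8_2_2 hn)) (s16_17_8_2_3 hn))
      (s16_17_8_2_4 hn))

/-- the numbers of the pair `(9, 0)`, `R = 16`, `H = 17` -/
def d16_17_9_0 : BlkD.Pd :=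
  ⟨16, 17, 4, 9, 0, 5, 0, 1, 0, 4, 4, 0, 0, 4, 4, 0, [0, 4, 8, 12, 16, 20], [0, 4, 8, 12, 16, 20],
    [⟨1, 1, 1, 4, 8, [0, 4], [0, 4]⟩]⟩

/-- the certificates of the pair `(9, 0)` -/
def t16_17_9_0 : BlkD.Tr :=
  .S 0 9 (.S 2 0 (.L 3 3 [4] [] [] 100000 0 0 1000000 100000 0 100000 0 0 0 0) (.E 1)) (.E 0)

lemma pr16_17_9_0 {n : ℕ} (hn : 6 ≤ n) : NoPr ((16 : ℕ) : ℤ) ((17 : ℕ) : ℤ) n 9 0 :=
  BlkD.pair_sound (d := d16_17_9_0) (by decide +kernel) hn (by decide) (tr := t16_17_9_0)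
    (by decide +kernel) rfl rfl rfl rfl

/-- the numbers of the pair `(9, 1)`, `R = 16`, `H = 17` -/
def d16_17_9_1 : BlkD.Pd :=
  ⟨16, 17, 4, 9, 1, 4, 0, 1, 0, 4, 4, 0, 0, 4, 4, 0, [0, 4, 8, 12, 16], [0, 4, 8, 12, 16], [⟨1, 1,
    1, 4, 8, [0, 4], [0, 4]⟩]⟩

/-- the certificates of the pair `(9, 1)` -/
def t16_17_9_1 : BlkD.Tr :=
  .S 0 9 (.S 2 1 (.L 3 3 [4, 16] [] [] 100000 0 0 1200000 80000 0 100000 0 0 0 0) (.E 1)) (.E 0)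

lemma pr16_17_9_1 {n : ℕ} (hn : 6 ≤ n) : NoPr ((16 : ℕ) : ℤ) ((17 : ℕ) : ℤ) n 9 1 :=
  BlkD.pair_sound (d := d16_17_9_1) (by decide +kernel) hn (by decide) (tr := t16_17_9_1)
    (by decide +kernel) rfl rfl rfl rfl

/-- the numbers of the pair `(10, 0)`, `R = 16`, `H = 17` -/
def d16_17_10_0 : BlkD.Pd :=
  ⟨16, 17, 4, 10, 0, 4, 0, 1, 0, 4, 4, 0, 0, 4, 4, 0, [0, 4, 8, 12, 16], [0, 4, 8, 12, 16], [⟨1, 1,
    1, 4, 8, [0, 4], [0, 4]⟩]⟩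

/-- the certificates of the pair `(10, 0)` -/
def t16_17_10_0 : BlkD.Tr :=
  .S 0 10 (.S 2 0 (.L 3 3 [4] [] [] 100000 0 0 1100000 100000 0 100000 0 0 0 0) (.E 1)) (.E 0)

lemma pr16_17_10_0 {n : ℕ} (hn : 6 ≤ n) : NoPr ((16 : ℕ) : ℤ) ((17 : ℕ) : ℤ) n 10 0 :=
  BlkD.pair_sound (d := d16_17_10_0) (by decide +kernel) hn (by decide) (tr := t16_17_10_0)
    (by decide +kernel) rfl rfl rfl rfl

end BlkC

end Pool.Agent.Lib.MP_f04ccf_co
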