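import Pool.Agent.Lib.MP_f04ccf_co.M.LdC

/-!
MP_f04ccf_co, PLAN W, finite part: **the kernel test of the loads**.
`Ld.ldT R rows`: rows `(t, h, mu)`; the PC pairs cell by cell, at every node the energies with the most
excess possible, (P), the row test of the PC ends, the cap of the other good ends of a row (row test)
and of a cell (pair test); a host whose value is more than the sum of its caps is a contradiction.
Everything is written with recursors (speed under `decide +kernel`).
-/

set_option autoImplicit false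

namespace Pool.Agent.Lib.MP_f04ccf_co

open Finset

namespace Ld

/-- integer square root by search -/
noncomputable def isqF (v : ℕ) (f : ℕ) : ℕ → ℕ :=
  Nat.rec (motive := fun _ => ℕ → ℕ) (fun r => r)
    (fun _ ih r => Bool.rec (motive := fun _ => ℕ) r (ih (Nat.succ r))
      (Nat.ble (Nat.mul (Nat.succ r) (Nat.succ r)) v)) f

/-- integer square root -/
noncomputable def isq (v : ℕ) : ℕ := isqF v v 0

lemma isqF_spec (v : ℕ) : ∀ f r : ℕ, v < (r + f + 1) ^ 2 → v < (isqF v f r + 1) ^ 2 := by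
  intro f
  induction f with
  | zero =>
    intro r h
    exact h
  | succ f ih =>
    intro r h
    have h0 : isqF v (f + 1) r = Bool.rec (motive := fun _ => ℕ) r (isqF v f (Nat.succ r))
      (Nat.ble (Nat.mul (Nat.succ r) (Nat.succ r)) v) := rfl
    rw [h0]
    rcases h1 : Nat.ble (Nat.mul (Nat.succ r) (Nat.succ r)) v with _ | _
    · show v < (r + 1) ^ 2
      by_contra h2
      have h3 : Nat.ble (Nat.mul (Nat.succ r) (Nat.succ r)) v = true := by
        refine Nat.ble_eq_true_of_le ?_
        show (r + 1) * (r + 1) ≤ v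
        nlinarith
      rw [h1] at h3
      exact absurd h3 (by simp)
    · exact ih (r + 1) (by
        have : r + 1 + f + 1 = r + (f + 1) + 1 := by ring
        rw [this]
        exact h)

lemma isq_spec (v : ℕ) : v < (isq v + 1) ^ 2 :=
  isqF_spec v v 0 (by nlinarith)

/-- a row: index, `t`, `h`, `mu`, twice the energy without excess, class points, hits of a good end,
largest number of PC ends -/
structure Rw where
  i : ℕ
  t : ℕ
  h : ℕ
  mu : ℕ
  B : ℕ
  c : ℕ
  g : ℕ
  q : ℕ

section Fun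

variable {α : Type*}

/-- sum over a list -/
noncomputable def lsum (f : α → ℕ) (L : List α) : ℕ :=
  List.rec (motive := fun _ => ℕ) 0 (fun a _ r => Nat.add (f a) r) L

/-- maximum of two numbers -/
noncomputable def mx (a b : ℕ) : ℕ := Bool.rec (motive := fun _ => ℕ) a b (Nat.ble a b)

/-- minimum of two numbers -/
noncomputable def mi (a b : ℕ) : ℕ := Bool.rec (motive := fun _ => ℕ) b a (Nat.ble a b)

/-- maximum over a list -/
noncomputable def lmax (f : α → ℕ) (L : List α) : ℕ :=
  List.rec (motive := fun _ => ℕ) 0 (fun a _ r => mx (f a) r) L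

/-- some member of a list -/
noncomputable def lany (f : α → Bool) (L : List α) : Bool :=
  List.rec (motive := fun _ => Bool) false
    (fun a _ r => Bool.rec (motive := fun _ => Bool) r true (f a)) L

/-- evaluate the number first -/
noncomputable def frc {β : Type} (n : ℕ) (f : ℕ → β) : β :=
  Nat.rec (motive := fun _ => β) (f 0) (fun m _ => f (Nat.succ m)) n

lemma frc_eq {β : Type} (n : ℕ) (f : ℕ → β) : frc n f = f n := by
  rcases n with _ | n <;> rfl

lemma mx_eq (a b : ℕ) : mx a b = max a b := by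
  unfold mx
  rcases h : Nat.ble a b with _ | _
  · have : ¬ a ≤ b := fun h1 => by
      rw [Nat.ble_eq_true_of_le h1] at h
      exact absurd h (by simp)
    show a = max a b
    omega
  · have := Nat.le_of_ble_eq_true h
    show b = max a b
    omega

lemma mi_eq (a b : ℕ) : mi a b = min a b := by
  unfold mi
  rcases h : Nat.ble a b with _ | _
  · have : ¬ a ≤ b := fun h1 => by
      rw [Nat.ble_eq_true_of_le h1] at h
      exact absurd h (by simp)
    show b = min a b
    omega
  · have := Nat.le_of_ble_eq_true h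
    show a = min a b
    omega

lemma lsum_eq (f : α → ℕ) (L : List α) : lsum f L = (L.map f).sum := by
  induction L with
  | nil => rfl
  | cons a L ih =>
    rw [List.map_cons, List.sum_cons, ← ih]
    rfl

lemma le_lmax (f : α → ℕ) {L : List α} {a : α} (ha : a ∈ L) : f a ≤ lmax f L := by
  induction L with
  | nil => simp at ha
  | cons b L ih =>
    have h0 : lmax f (b :: L) = mx (f b) (lmax f L) := rfl
    rw [h0, mx_eq]
    rcases List.mem_cons.1 ha with rfl | h1
    · exact le_max_left _ _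
    · exact (ih h1).trans (le_max_right _ _)

lemma lany_eq {f : α → Bool} {L : List α} (h : lany f L = true) : ∃ a ∈ L, f a = true := by
  induction L with
  | nil => exact absurd h (by simp [lany])
  | cons b L ih =>
    have h0 : lany f (b :: L) = Bool.rec (motive := fun _ => Bool) (lany f L) true (f b) := rfl
    rw [h0] at h
    rcases h1 : f b with _ | _
    · rw [h1] at h
      obtain ⟨a, ha, h2⟩ := ih h
      exact ⟨a, List.mem_cons_of_mem _ ha, h2⟩
    · exact ⟨b, List.mem_cons_self, h1⟩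

end Fun

/-- the excess of one PC pair of the cell -/
noncomputable def nb (x z : Rw) : ℕ := Nat.succ (isq (Nat.succ (Nat.mul x.t z.t)))

/-- the largest number of PC pairs of a cell -/
noncomputable def cG (R : ℕ) (x z : Rw) : ℕ :=
  Bool.rec (motive := fun _ => ℕ) 1 2 (Nat.ble R (Nat.add (Nat.mul x.t z.t) 4))

/-- the sum of the excesses -/
noncomputable def ns (hi : Rw → Rw → ℕ) (L : List Rw) (z : Rw) : ℕ :=
  lsum (fun y => Bool.rec (motive := fun _ => ℕ) (Nat.mul (hi z y) (nb z y)) 0
    (Nat.beq z.i y.i)) L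

/-- the number of PC pairs times the largest excess -/
noncomputable def nm (hi : Rw → Rw → ℕ) (L : List Rw) (z : Rw) : ℕ :=
  Nat.mul z.mu (lmax (fun y => Bool.rec (motive := fun _ => ℕ)
    (Bool.rec (motive := fun _ => ℕ) (nb z y) 0 (Nat.beq (hi z y) 0)) 0 (Nat.beq z.i y.i)) L)

/-- the row test: `p` PC ends, `k` good ends, `E` twice the energy (`true`: it holds) -/
noncomputable def rt (R : ℕ) (z : Rw) (E p k : ℕ) : Bool :=
  Bool.rec (motive := fun _ => Bool) true
    (Nat.ble (Nat.add (Nat.mul 2 (Nat.add (Nat.mul R z.h)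
        (Nat.add (Nat.mul p z.c) (Nat.mul k z.g))))
        (Nat.mul (Nat.add p k) (Nat.add (Nat.mul 4 z.t) 2)))
      (Nat.add E (Nat.add (Nat.mul (Nat.mul 4 (Nat.add p k)) (Nat.add z.h (Nat.add p k)))
        (Nat.mul (Nat.mul 2 R) (Nat.succ z.t)))))
    (Nat.ble z.t (Nat.add z.h 3))

/-- the cap of the good ends of a row -/
noncomputable def kc (R : ℕ) (z : Rw) (E p : ℕ) (f : ℕ) : ℕ → ℕ :=
  Nat.rec (motive := fun _ => ℕ → ℕ) (fun k => k)
    (fun _ ih k => Bool.rec (motive := fun _ => ℕ) k (ih (Nat.succ k))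
      (rt R z E p (Nat.succ k))) f

/-- twice the energy -/
noncomputable def en (z : Rw) (a b : ℕ) : ℕ := Nat.add z.B (Nat.mul 2 (mi a b))

/-- the number of PC ends at a row -/
noncomputable def pin (lo : Rw → Rw → ℕ) (L : List Rw) (z : Rw) : ℕ :=
  lsum (fun y => Bool.rec (motive := fun _ => ℕ) (lo y z) 0 (Nat.beq z.i y.i)) L

/-- the rows with their numbers, `true` if a row is impossible -/
noncomputable def prep (R : ℕ) (lo hi : Rw → Rw → ℕ) (L : List Rw)
    (cont : List (Rw × ℕ × ℕ × ℕ) → Bool) (M : List Rw) : List (Rw × ℕ × ℕ × ℕ) → Bool :=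
  List.rec (motive := fun _ => List (Rw × ℕ × ℕ × ℕ) → Bool) cont
    (fun z _ ih acc => frc (ns hi L z) fun a => frc (nm hi L z) fun b =>
      frc (en z a b) fun E => Bool.rec (motive := fun _ => Bool) true
        (frc (pin lo L z) fun p => Bool.rec (motive := fun _ => Bool) true
          (frc (kc R z E p 16 0) fun k => ih ((z, a, b, k) :: acc)) (rt R z E p 0))
        (rt R z E 0 0)) M

/-- the net excess of a cell -/
noncomputable def net (R : ℕ) (hi : Rw → Rw → ℕ) (x z : Rw) : ℕ :=
  Nat.rec (motive := fun _ => ℕ) 0 (fun m _ => Nat.rec (motive := fun _ => ℕ) 2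
    (fun _ _ => Bool.rec (motive := fun _ => ℕ) 2 6 (Nat.ble R (Nat.add (Nat.mul x.t z.t) 4))) m)
    (Nat.add (hi x z) (hi z x))

/-- the slack of the pair test, twice -/
noncomputable def slk (R : ℕ) (lo hi : Rw → Rw → ℕ) (d f : Rw × ℕ × ℕ × ℕ) : ℕ :=
  Nat.sub
    (Nat.add (Nat.add (Nat.add d.1.B f.1.B)
      (Nat.add (Nat.mul 2 (Nat.add
        (mi (Nat.sub d.2.1 (Nat.mul (hi d.1 f.1) (nb d.1 f.1))) d.2.2.1)
        (mi (Nat.sub f.2.1 (Nat.mul (hi f.1 d.1) (nb f.1 d.1))) f.2.2.1)))
        (net R hi d.1 f.1)))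
      (Nat.mul 2 (Nat.add (Nat.add (Nat.add R 1) (Nat.mul d.1.h f.1.h))
        (Nat.add (Nat.mul (Nat.succ d.1.t) (Nat.succ f.1.t))
          (Nat.mul (Nat.sub R 1) (Nat.add (Nat.add d.1.t f.1.t) 2))))))
    (Nat.mul 2 (Nat.add (Nat.add (Nat.mul (Nat.sub R 1) (Nat.add d.1.h f.1.h))
      (Nat.add (Nat.mul d.1.h (Nat.succ f.1.t)) (Nat.mul f.1.h (Nat.succ d.1.t))))
      (Nat.add (Nat.mul (lo d.1 f.1) f.1.c) (Nat.mul (lo f.1 d.1) d.1.c))))

/-- the cap of the good ends of the host `d` at the row `f` -/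
noncomputable def cap (R : ℕ) (lo hi : Rw → Rw → ℕ) (d f : Rw × ℕ × ℕ × ℕ) : ℕ :=
  Bool.rec (motive := fun _ => ℕ)
    (mi f.2.2.2 (Nat.div (slk R lo hi d f) (Nat.mul 2 f.1.g))) d.1.mu (Nat.beq f.1.g 0)

/-- the test of one host -/
noncomputable def host (R : ℕ) (lo hi : Rw → Rw → ℕ) (D : List (Rw × ℕ × ℕ × ℕ))
    (d : Rw × ℕ × ℕ × ℕ) : Bool :=
  Bool.rec (motive := fun _ => Bool)
    (Bool.rec (motive := fun _ => Bool) false
      (Nat.ble (Nat.succ (lsum (fun f => Bool.rec (motive := fun _ => ℕ)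
        (Nat.add (cap R lo hi d f) (lo d.1 f.1)) 0 (Nat.beq d.1.i f.1.i)) D)) d.1.mu)
      (Nat.ble d.1.mu 16)) false (Nat.beq d.1.mu 0)

/-- one node -/
noncomputable def node (R : ℕ) (L : List Rw) (lo hi : Rw → Rw → ℕ) : Bool :=
  prep R lo hi L (fun D => lany (host R lo hi D) D) L []

/-- change one value -/
noncomputable def upd (f : Rw → Rw → ℕ) (x z : Rw) (v : ℕ) (a b : Rw) : ℕ :=
  Bool.rec (motive := fun _ => ℕ) (f a b)
    (Bool.rec (motive := fun _ => ℕ) (f a b) v (Nat.beq b.i z.i)) (Nat.beq a.i x.i)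

/-- one configuration of a cell -/
noncomputable def cfg (R : ℕ) (lo hi : Rw → Rw → ℕ) (x z : Rw)
    (ih : (Rw → Rw → ℕ) → (Rw → Rw → ℕ) → Bool) (p q : ℕ) : Bool :=
  Bool.rec (motive := fun _ => Bool) true
    (Bool.rec (motive := fun _ => Bool) true
      (Bool.rec (motive := fun _ => Bool) true
        (ih (upd (upd lo x z p) z x q) (upd (upd hi x z p) z x q))
        (Nat.ble (Nat.add p q) (cG R x z)))
      (Nat.ble q (hi z x)))
    (Nat.ble p (hi x z))

/-- the search over the cells -/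
noncomputable def srch (R : ℕ) (L : List Rw) (cs : List (Rw × Rw)) :
    (Rw → Rw → ℕ) → (Rw → Rw → ℕ) → Bool :=
  List.rec (motive := fun _ => (Rw → Rw → ℕ) → (Rw → Rw → ℕ) → Bool)
    (fun lo hi => node R L lo hi)
    (fun c _ ih lo hi => Bool.rec (motive := fun _ => Bool)
      (Bool.rec (motive := fun _ => Bool)
        (cfg R lo hi c.1 c.2 ih 0 0 && (cfg R lo hi c.1 c.2 ih 1 0 &&
          (cfg R lo hi c.1 c.2 ih 0 1 && (cfg R lo hi c.1 c.2 ih 2 0 &&
          (cfg R lo hi c.1 c.2 ih 1 1 && cfg R lo hi c.1 c.2 ih 0 2)))))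
        true (node R L lo hi))
      (ih lo hi) (Nat.beq (Nat.add (hi c.1 c.2) (hi c.2 c.1)) 0)) cs

/-- the cells -/
noncomputable def prs (L : List Rw) : List (Rw × Rw) :=
  List.rec (motive := fun _ => List (Rw × Rw)) []
    (fun x L' r => (L'.map fun z => (x, z)) ++ r) L

/-- the rows with `q`, `true` if a row is impossible -/
noncomputable def top (R : ℕ) (L : List Rw) (cont : List Rw → Bool) (M : List Rw) :
    List Rw → Bool :=
  List.rec (motive := fun _ => List Rw → Bool) cont
    (fun z _ ih acc => frc (en z (ns (cG R) L z) (nm (cG R) L z)) fun E =>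
      Bool.rec (motive := fun _ => Bool) true
        (Bool.rec (motive := fun _ => Bool) (ih (⟨z.i, z.t, z.h, z.mu, z.B, z.c, z.g, 0⟩ :: acc))
          (Bool.rec (motive := fun _ => Bool)
            (ih (⟨z.i, z.t, z.h, z.mu, z.B, z.c, z.g, 1⟩ :: acc))
            (ih (⟨z.i, z.t, z.h, z.mu, z.B, z.c, z.g, 2⟩ :: acc)) (rt R z E 2 0))
          (rt R z E 1 0)) (rt R z E 0 0)) M

/-- the raw rows -/
noncomputable def raw {δ : Type} (R : ℕ) (cont : List Rw → Bool) (l : List (ℕ × ℕ × ℕ × δ)) :
    ℕ → List Rw → Bool :=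
  List.rec (motive := fun _ => ℕ → List Rw → Bool) (fun _ acc => cont acc)
    (fun a _ ih k acc => frc (Nat.sub (Nat.mul 2 (Nat.mul a.2.2.1 a.2.1))
      (Nat.mul a.2.2.1 (Nat.succ a.2.2.1))) fun B =>
      frc (Nat.sub R a.1) fun c =>
      frc (Nat.sub c (isq (Nat.add R (Nat.mul a.1 a.1)))) fun g =>
      ih (Nat.succ k) (⟨k, a.1, a.2.1, a.2.2.1, B, c, g, 0⟩ :: acc)) l

/-- all products of `t` at most `R` -/
noncomputable def okT (R : ℕ) (L : List Rw) : Bool :=
  lany (fun x => lany (fun z => Bool.rec (motive := fun _ => Bool)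
    (Bool.rec (motive := fun _ => Bool) true false (Nat.ble (Nat.mul x.t z.t) R)) false
      (Nat.beq x.i z.i)) L) L

/-- **the kernel test** -/
noncomputable def ldT {δ : Type} (R : ℕ) (rows : List (ℕ × ℕ × ℕ × δ)) : Bool :=
  raw R (fun L => Bool.rec (motive := fun _ => Bool)
    (top R L (fun L' => srch R L' (prs L') (fun _ _ => 0) (fun x z => mi z.q (cG R x z))) L [])
    false (okT R L)) rows 0 []

end Ld

end Pool.Agent.Lib.MP_f04ccf_co
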