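import Pool.Agent.Lib.MP_f04ccf_co.M.BlkN
import Pool.Agent.Lib.MP_f04ccf_co.M.LdK

/-!
MP_f04ccf_co, PLAN W, block certificate: **the facts in naturals**.
`Bk.Wd`: the loads with natural numbers `t h mu`, thresholds `q x z`; `Bk.Wd.T`: the row test with any
number of PC ends and the items of the hosts; `Bk.Wd.T2`, `Bk.Wd.T0`, `Bk.Wd.T1`: a rest row and the
rows of the block; `Bk.Wd.E2`, `Bk.Wd.E0`, `Bk.Wd.E1`: the energies; `Bk.Wd.LD`: the pair test of the
block; `Bk.fx`: the largest excess of `g` PC pairs of one host in a cell, `Bk.nt`: the net excess.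
-/

set_option autoImplicit false

namespace Pool.Agent.Lib.MP_f04ccf_co

open Finset

namespace Bk

/-- a part of a sum -/
lemma exists_sub_sum (S : Finset ℕ) (f : ℕ → ℕ) : ∀ b : ℕ, b ≤ ∑ x ∈ S, f x →
    ∃ p : ℕ → ℕ, (∀ x, p x ≤ f x) ∧ ∑ x ∈ S, p x = b := by
  classical
  induction S using Finset.induction_on with
  | empty =>
    intro b hb
    exact ⟨fun _ => 0, fun _ => Nat.zero_le _, by simpa using (Nat.le_zero.1 hb).symm⟩
  | insert a S ha ih =>
    intro b hb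
    rw [sum_insert ha] at hb
    obtain ⟨p, h1, h2⟩ := ih (b - min b (f a)) (by omega)
    refine ⟨fun x => if x = a then min b (f a) else p x, fun x => ?_, ?_⟩
    · show (if x = a then min b (f a) else p x) ≤ f x
      split_ifs with h3
      · rw [h3]
        exact min_le_right _ _
      · exact h1 x
    · rw [sum_insert ha, if_pos rfl]
      have h3 : ∑ x ∈ S, (if x = a then min b (f a) else p x) = ∑ x ∈ S, p x :=
        sum_congr rfl fun x hx => by
          rw [if_neg]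
          rintro rfl
          exact ha hx
      rw [h3, h2]
      omega

/-- the largest excess of `g` PC pairs of one host in a cell with the product `τ` -/
noncomputable def fx (R τ g : ℕ) : ℕ :=
  Nat.rec (motive := fun _ => ℕ) 0 (fun g' _ =>
    Nat.mul (Nat.succ g') (Nat.add (Nat.add (Nat.mul 3 g') 2)
      (Nat.mul 2 (Ld.isq (Nat.sub (Nat.add τ (Nat.mul (Nat.succ g') (Nat.succ g')))
        (Nat.mul g' R)))))) g

/-- the net excess of a cell with `p` and `q` PC pairs, at most five in all -/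
noncomputable def nt (p q : ℕ) : ℕ :=
  Nat.rec (motive := fun _ => ℕ) 0 (fun a _ =>
    Nat.rec (motive := fun _ => ℕ) 2 (fun b _ =>
      Nat.rec (motive := fun _ => ℕ) 6 (fun c _ =>
        Nat.rec (motive := fun _ => ℕ)
          (Bool.rec (motive := fun _ => ℕ) 12 14 (Nat.beq (Nat.mul p q) 0)) (fun d _ =>
          Nat.rec (motive := fun _ => ℕ) 24 (fun _ _ => 38) d) c) b) a) (Nat.add p q)

/-- the loads with natural numbers -/
structure Wd (R n : ℕ) (t h mu : ℕ → ℕ) (q : ℕ → ℕ → ℕ) (s e : ℕ → ℤ) (P A D : ℕ → ℕ → ℕ)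
    (N W : ℕ → ℕ → ℤ) : Prop where
  C : LdG (R : ℤ) n (fun i => (t i : ℤ)) s (fun i => (h i : ℤ)) e (fun i => (mu i : ℤ))
    (fun x z => (q x z : ℤ)) P A D N W
  n3 : 3 ≤ n

/-- the hits of a single -/
def w (R : ℕ) (t : ℕ → ℕ) (q : ℕ → ℕ → ℕ) (x z : ℕ) : ℕ := R - t z - q x z

namespace Wd

variable {R n : ℕ} {t h mu : ℕ → ℕ} {q : ℕ → ℕ → ℕ} {s e : ℕ → ℤ} {P A D : ℕ → ℕ → ℕ}
  {N W : ℕ → ℕ → ℤ}

/-- **the row test** -/
theorem T (H : Wd R n t h mu q s e P A D N W) {z : ℕ} (hz : z < n) {E b : ℕ}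
    (hE : 2 * e z ≤ (E : ℤ)) (hb : b ≤ ∑ x ∈ (range n).erase z, P x z) {a d d' : ℕ → ℕ}
    (ha : ∀ x < n, x ≠ z → a x ≤ A x z ∧ d x + d' x ≤ D x z) {J X : ℕ}
    (hJ : J = 2 * b + ∑ x ∈ (range n).erase z, (2 * (a x + d' x) + 3 * d x))
    (hX : X = b * (R - t z) + ∑ x ∈ (range n).erase z, (d' x * (R - t z)
      + a x * w R t q x z + d x * (R - t z + w R t q x z))) :
    2 * (R * h z + X + J * t z) ≤ E + J * (2 * h z + (J - 1)) + 2 * R * (t z + 1) := by
  obtain ⟨p, hp1, hp2⟩ := exists_sub_sum _ _ b hb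
  have h1 := H.C.row z hz p a d d' (fun x hx hxz => ⟨hp1 x, ha x hx hxz⟩) 0
  have hR := H.C.tR z hz
  have hc : ((R - t z : ℕ) : ℤ) = R - t z := by
    have h2 : t z + 1 ≤ R := by exact_mod_cast hR
    rw [Nat.cast_sub (by omega)]
  have hw : ∀ x, ((w R t q x z : ℕ) : ℤ) = max 0 ((R : ℤ) - t z - q x z) := by
    intro x
    have h2 : t z + 1 ≤ R := by exact_mod_cast hR
    unfold w
    omega
  have eJ : ∑ x ∈ (range n).erase z, (2 * ((p x : ℤ) + a x + d' x) + 3 * d x) = (J : ℤ) := by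
    rw [hJ, ← hp2]
    push_cast
    rw [mul_sum, ← sum_add_distrib]
    exact sum_congr rfl fun x _ => by ring
  have eX : ∑ x ∈ (range n).erase z, (((p x : ℤ) + d' x) * ((R : ℤ) - t z)
        + a x * max 0 ((R : ℤ) - t z - q x z) + d x * ((R : ℤ) - t z
          + max 0 ((R : ℤ) - t z - q x z))) = (X : ℤ) := by
    rw [hX, ← hp2]
    push_cast
    rw [hc, sum_mul, ← sum_add_distrib]
    exact sum_congr rfl fun x _ => by
      rw [hw x]
      ring
  rw [eJ, eX] at h1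
  have h2 := H.C.hh z hz
  rcases Nat.eq_zero_or_pos J with h3 | h3
  · rw [h3] at h1 ⊢
    zify
    push_cast at h1
    have h4 : s z = (h z : ℤ) - t z - 1 := by linarith
    rw [h4] at h1
    nlinarith
  · have h4 : ((J - 1 : ℕ) : ℤ) = (J : ℤ) - 1 := by
      rw [Nat.cast_sub h3]
      norm_num
    have h5 : s z = (h z : ℤ) - t z - 1 := by linarith
    rw [h5] at h1
    zify [h4]
    nlinarith

/-- a sum over the other rows of a function of the hosts 0, 1 -/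
lemma sum2 (H : Wd R n t h mu q s e P A D N W) {z : ℕ} (h2 : 2 ≤ z) {f : ℕ → ℕ}
    (hf : ∀ x, 2 ≤ x → f x = 0) : ∑ x ∈ (range n).erase z, f x = f 0 + f 1 := by
  have hn := H.n3
  have h3 : ({0, 1} : Finset ℕ) ⊆ (range n).erase z := by
    intro x hx
    rw [mem_insert, mem_singleton] at hx
    rw [mem_erase, mem_range]
    omega
  rw [← sum_subset h3 fun x _ hx => ?_, sum_pair (by norm_num)]
  rw [mem_insert, mem_singleton] at hx
  exact hf x (by omega)

lemma sum0 (H : Wd R n t h mu q s e P A D N W) {f : ℕ → ℕ}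
    (hf : ∀ x, 2 ≤ x → f x = 0) : ∑ x ∈ (range n).erase 0, f x = f 1 := by
  have hn := H.n3
  have h3 : ({1} : Finset ℕ) ⊆ (range n).erase 0 := by
    intro x hx
    rw [mem_singleton] at hx
    rw [mem_erase, mem_range]
    omega
  rw [← sum_subset h3 fun x hx' hx => ?_, sum_singleton]
  rw [mem_singleton] at hx
  rw [mem_erase] at hx'
  exact hf x (by omega)

lemma sum1 (H : Wd R n t h mu q s e P A D N W) {f : ℕ → ℕ}
    (hf : ∀ x, 2 ≤ x → f x = 0) : ∑ x ∈ (range n).erase 1, f x = f 0 := by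
  have hn := H.n3
  have h3 : ({0} : Finset ℕ) ⊆ (range n).erase 1 := by
    intro x hx
    rw [mem_singleton] at hx
    rw [mem_erase, mem_range]
    omega
  rw [← sum_subset h3 fun x hx' hx => ?_, sum_singleton]
  rw [mem_singleton] at hx
  rw [mem_erase] at hx'
  exact hf x (by omega)

/-- **the row test of a rest row** -/
theorem T2 (H : Wd R n t h mu q s e P A D N W) {z : ℕ} (hz : z < n) (h2 : 2 ≤ z) {E b : ℕ}
    (hE : 2 * e z ≤ (E : ℤ)) (hb : b ≤ ∑ x ∈ (range n).erase z, P x z)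
    {a0 a1 d0 d1 c0 c1 : ℕ} (ha0 : a0 ≤ A 0 z) (ha1 : a1 ≤ A 1 z) (hd0 : d0 + c0 ≤ D 0 z)
    (hd1 : d1 + c1 ≤ D 1 z) :
    2 * (R * h z + (b * (R - t z) + (c0 * (R - t z) + a0 * w R t q 0 z
      + d0 * (R - t z + w R t q 0 z) + (c1 * (R - t z) + a1 * w R t q 1 z
      + d1 * (R - t z + w R t q 1 z)))) + (2 * b + (2 * (a0 + c0) + 3 * d0
        + (2 * (a1 + c1) + 3 * d1))) * t z)
      ≤ E + (2 * b + (2 * (a0 + c0) + 3 * d0 + (2 * (a1 + c1) + 3 * d1)))
        * (2 * h z + (2 * b + (2 * (a0 + c0) + 3 * d0 + (2 * (a1 + c1) + 3 * d1)) - 1))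
        + 2 * R * (t z + 1) := by
  set f : ℕ → ℕ → ℕ → ℕ := fun u v x => if x = 0 then u else if x = 1 then v else 0 with hf
  have f0 : ∀ u v, f u v 0 = u := fun u v => by simp [hf]
  have f1 : ∀ u v, f u v 1 = v := fun u v => by simp [hf]
  have f2 : ∀ u v x, 2 ≤ x → f u v x = 0 := fun u v x hx => by
    have h3 : x ≠ 0 := by omega
    have h4 : x ≠ 1 := by omega
    simp [hf, h3, h4]
  refine H.T hz hE hb (a := f a0 a1) (d := f d0 d1) (d' := f c0 c1) (fun x hx hxz => ?_) ?_ ?_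
  · rcases Nat.lt_or_ge x 2 with h3 | h3
    · have h4 : x = 0 ∨ x = 1 := by omega
      rcases h4 with rfl | rfl
      · rw [f0, f0, f0]
        exact ⟨ha0, hd0⟩
      · rw [f1, f1, f1]
        exact ⟨ha1, hd1⟩
    · rw [f2 _ _ x h3, f2 _ _ x h3, f2 _ _ x h3]
      exact ⟨Nat.zero_le _, Nat.zero_le _⟩
  · rw [H.sum2 h2 (f := fun x => 2 * (f a0 a1 x + f c0 c1 x) + 3 * f d0 d1 x) fun x hx => by
      rw [f2 _ _ x hx, f2 _ _ x hx, f2 _ _ x hx]]
    simp only [f0, f1]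
  · rw [H.sum2 h2 (f := fun x => f c0 c1 x * (R - t z) + f a0 a1 x * w R t q x z
      + f d0 d1 x * (R - t z + w R t q x z)) fun x hx => by
      rw [f2 _ _ x hx, f2 _ _ x hx, f2 _ _ x hx]
      simp]
    simp only [f0, f1]

/-- **the row test of the row 0** -/
theorem T0 (H : Wd R n t h mu q s e P A D N W) {E b : ℕ}
    (hE : 2 * e 0 ≤ (E : ℤ)) (hb : b ≤ ∑ x ∈ (range n).erase 0, P x 0)
    {a d c : ℕ} (ha : a ≤ A 1 0) (hd : d + c ≤ D 1 0) :
    2 * (R * h 0 + (b * (R - t 0) + (c * (R - t 0) + a * w R t q 1 0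
      + d * (R - t 0 + w R t q 1 0))) + (2 * b + (2 * (a + c) + 3 * d)) * t 0)
      ≤ E + (2 * b + (2 * (a + c) + 3 * d)) * (2 * h 0 + (2 * b + (2 * (a + c) + 3 * d) - 1))
        + 2 * R * (t 0 + 1) := by
  have hn := H.n3
  set f : ℕ → ℕ → ℕ := fun v x => if x = 1 then v else 0 with hf
  have f1 : ∀ v, f v 1 = v := fun v => by simp [hf]
  have f2 : ∀ v x, 2 ≤ x → f v x = 0 := fun v x hx => by
    have h4 : x ≠ 1 := by omega
    simp [hf, h4]
  refine H.T (by omega) hE hb (a := f a) (d := f d) (d' := f c) (fun x hx hxz => ?_) ?_ ?_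
  · rcases Nat.lt_or_ge x 2 with h3 | h3
    · have h4 : x = 1 := by omega
      subst h4
      rw [f1, f1, f1]
      exact ⟨ha, hd⟩
    · rw [f2 _ x h3, f2 _ x h3, f2 _ x h3]
      exact ⟨Nat.zero_le _, Nat.zero_le _⟩
  · rw [H.sum0 (f := fun x => 2 * (f a x + f c x) + 3 * f d x) fun x hx => by
      rw [f2 _ x hx, f2 _ x hx, f2 _ x hx]]
    simp only [f1]
  · rw [H.sum0 (f := fun x => f c x * (R - t 0) + f a x * w R t q x 0
      + f d x * (R - t 0 + w R t q x 0)) fun x hx => by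
      rw [f2 _ x hx, f2 _ x hx, f2 _ x hx]
      simp]
    simp only [f1]

/-- **the row test of the row 1** -/
theorem T1 (H : Wd R n t h mu q s e P A D N W) {E b : ℕ}
    (hE : 2 * e 1 ≤ (E : ℤ)) (hb : b ≤ ∑ x ∈ (range n).erase 1, P x 1)
    {a d c : ℕ} (ha : a ≤ A 0 1) (hd : d + c ≤ D 0 1) :
    2 * (R * h 1 + (b * (R - t 1) + (c * (R - t 1) + a * w R t q 0 1
      + d * (R - t 1 + w R t q 0 1))) + (2 * b + (2 * (a + c) + 3 * d)) * t 1)
      ≤ E + (2 * b + (2 * (a + c) + 3 * d)) * (2 * h 1 + (2 * b + (2 * (a + c) + 3 * d) - 1))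
        + 2 * R * (t 1 + 1) := by
  have hn := H.n3
  set f : ℕ → ℕ → ℕ := fun v x => if x = 0 then v else 0 with hf
  have f1 : ∀ v, f v 0 = v := fun v => by simp [hf]
  have f2 : ∀ v x, 2 ≤ x → f v x = 0 := fun v x hx => by
    have h4 : x ≠ 0 := by omega
    simp [hf, h4]
  refine H.T (by omega) hE hb (a := f a) (d := f d) (d' := f c) (fun x hx hxz => ?_) ?_ ?_
  · rcases Nat.lt_or_ge x 2 with h3 | h3
    · have h4 : x = 0 := by omega
      subst h4
      rw [f1, f1, f1]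
      exact ⟨ha, hd⟩
    · rw [f2 _ x h3, f2 _ x h3, f2 _ x h3]
      exact ⟨Nat.zero_le _, Nat.zero_le _⟩
  · rw [H.sum1 (f := fun x => 2 * (f a x + f c x) + 3 * f d x) fun x hx => by
      rw [f2 _ x hx, f2 _ x hx, f2 _ x hx]]
    simp only [f1]
  · rw [H.sum1 (f := fun x => f c x * (R - t 1) + f a x * w R t q x 1
      + f d x * (R - t 1 + w R t q x 1)) fun x hx => by
      rw [f2 _ x hx, f2 _ x hx, f2 _ x hx]
      simp]
    simp only [f1]

/-- **the excess of one host in a cell** -/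
theorem fx_spec (H : Wd R n t h mu q s e P A D N W) {x z : ℕ} (hx : x < n) (hz : z < n)
    (hxz : x ≠ z) : N x z ≤ fx R (t x * t z) (P x z) := by
  rcases h0 : P x z with _ | g
  · obtain ⟨M, hM, h1, h2, h3⟩ := H.C.exc x hx z hz hxz
    rw [h0] at h2
    show N x z ≤ ((0 : ℕ) : ℤ)
    push_cast at h2 ⊢
    linarith
  · have h1 := Ld.isq_spec (t x * t z + (g + 1) * (g + 1) - g * R)
    have h3 := H.C.jn x hx z hz hxz (g + 1) (by omega)
    have h4 : g * R ≤ t x * t z + (g + 1) * (g + 1) := by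
      zify
      push_cast at h3
      nlinarith
    have h2 := H.C.nn hx hz hxz
      (a := (Ld.isq (t x * t z + (g + 1) * (g + 1) - g * R) : ℤ)) (Int.natCast_nonneg _) (by
        rw [h0]
        have h5 : ((t x * t z + (g + 1) * (g + 1) - g * R : ℕ) : ℤ)
            < ((Ld.isq (t x * t z + (g + 1) * (g + 1) - g * R) : ℤ) + 1) ^ 2 := by
          exact_mod_cast h1
        rw [Nat.cast_sub h4] at h5
        push_cast at h5 ⊢
        linarith)
    have h5 : fx R (t x * t z) (g + 1)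
        = (g + 1) * (3 * g + 2 + 2 * Ld.isq (t x * t z + (g + 1) * (g + 1) - g * R)) := rfl
    rw [h5]
    rw [h0] at h2
    push_cast at h2 ⊢
    linarith

/-- the values of `nt` -/
lemma nt_le {p q' : ℕ} (h5 : p + q' ≤ 5) :
    nt p q' = if p + q' = 0 then 0 else if p + q' = 1 then 2 else if p + q' = 2 then 6 else
      if p + q' = 3 then (if p = 0 ∨ q' = 0 then 14 else 12) else
      if p + q' = 4 then 24 else 38 := by
  have hp : p ≤ 5 := by omega
  have hq : q' ≤ 5 := by omega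
  interval_cases p <;> interval_cases q' <;> rfl

/-- the values `M`, `Q` -/
lemma nt_aux {p q' : ℕ} (h5 : p + q' ≤ 5) (M Q ww : ℤ) (_hM : 0 ≤ M) (hQ : 0 ≤ Q)
    (m0 : p = 0 → M = 0) (q0 : q' = 0 → Q = 0) (hw : 0 ≤ ww)
    (h1 : p ≠ 0 → M * (M + 1 - q') ≤ ww) (h2 : q' ≠ 0 → Q * (Q + 1 - p) ≤ ww) :
    (p : ℤ) * (p + 1) + q' * (q' + 1) + 2 * (p * M + q' * Q) ≤ nt p q' + 2 * ww := by
  have key : ∀ a b : ℤ, 0 ≤ (a - b) * (a - b - 1) := fun a b => by
    rcases le_or_gt a b with h | h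
    · nlinarith
    · exact mul_nonneg (by linarith) (by linarith [Int.add_one_le_iff.2 h])
  have kM : ∀ a b : ℤ, (2 * b + 1) * a - b * (b + 1) ≤ a * a := fun a b => by
    have := key a b
    nlinarith
  have m1 := kM M 1
  have m2 := kM M 2
  have m3 := kM M 3
  have m4 := kM M 0
  have n1 := kM Q 1
  have n2 := kM Q 2
  have n3 := kM Q 3
  have n4 := kM Q 0
  have h1' : p ≠ 0 → M * M + M - (q' : ℤ) * M ≤ ww := fun h => by
    have := h1 h
    nlinarith
  have h2' : q' ≠ 0 → Q * Q + Q - (p : ℤ) * Q ≤ ww := fun h => by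
    have := h2 h
    nlinarith
  clear h1 h2 key kM
  rw [nt_le h5]
  have hp : p ≤ 5 := by omega
  have hq : q' ≤ 5 := by omega
  interval_cases p <;> interval_cases q' <;> first
    | omega
    | (push_cast at h1' h2' ⊢
       simp at h1' h2' m0 q0 ⊢
       omega)

/-- **the net excess of a cell** -/
theorem nt_spec (H : Wd R n t h mu q s e P A D N W) {x z : ℕ} (hx : x < n) (hz : z < n)
    (hxz : x ≠ z) (h5 : P x z + P z x ≤ 5) :
    N x z + N z x ≤ 2 * W x z + nt (P x z) (P z x) := by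
  obtain ⟨M, hM, h2, h3, h4⟩ := H.C.exc x hx z hz hxz
  obtain ⟨Q, hQ, g2, g3, g4⟩ := H.C.exc z hz x hx hxz.symm
  have hw := H.C.Ws x hx z hz
  have h6 := nt_aux h5 M Q (W x z) hM hQ h2 g2 (H.C.W0 x hx z hz) (fun h6 => (h4 h6).2.1)
    (fun h6 => by rw [hw]; exact (g4 h6).2.1)
  linarith

/-- the energy without excess in a rest row -/
lemma base_le {h' m' : ℕ} (h1 : m' ≤ h') : 2 * (m' * h') ≤ h' * (h' - 1) + m' * (m' + 1) := by
  obtain ⟨k, rfl⟩ : ∃ k, h' = m' + k := ⟨h' - m', by omega⟩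
  rcases Nat.eq_zero_or_pos k with rfl | hk
  · rcases Nat.eq_zero_or_pos m' with h2 | h2
    · subst h2
      simp
    · obtain ⟨a, rfl⟩ : ∃ a, m' = a + 1 := ⟨m' - 1, by omega⟩
      have h3 : a + 1 + 0 - 1 = a := by omega
      rw [h3]
      nlinarith
  · obtain ⟨a, rfl⟩ : ∃ a, k = a + 1 := ⟨k - 1, by omega⟩
    have h3 : m' + (a + 1) - 1 = m' + a := by omega
    rw [h3]
    nlinarith

/-- **the energy of a rest row** -/
theorem E2 (H : Wd R n t h mu q s e P A D N W) {z : ℕ} (hz : z < n) (h2 : 2 ≤ z) {nr : ℕ}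
    (hnr : ∀ y ∈ (Ico 2 n).erase z, N z y ≤ ((P z y * nr : ℕ) : ℤ)) :
    2 * e z ≤ ((h z * (h z - 1) + (fx R (t z * t 0) (P z 0) + (fx R (t z * t 1) (P z 1)
      + (∑ y ∈ (Ico 2 n).erase z, P z y) * nr)) : ℕ) : ℤ) := by
  have hn := H.n3
  have h3 := H.C.en z hz
  have h4 : ∑ j ∈ (range n).erase z, N z j
      = N z 0 + (N z 1 + ∑ y ∈ (Ico 2 n).erase z, N z y) := by
    have h5 : (range n).erase z = insert 0 (insert 1 ((Ico 2 n).erase z)) := by
      ext x
      simp only [mem_erase, mem_range, mem_insert, mem_Ico]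
      omega
    rw [h5, sum_insert (by simp), sum_insert (by simp)]
  have h5 := H.fx_spec hz (show 0 < n by omega) (show z ≠ 0 by omega)
  have h6 := H.fx_spec hz (show 1 < n by omega) (show z ≠ 1 by omega)
  have h7 := sum_le_sum hnr
  have h8 := H.C.muh z hz
  have h9 : mu z ≤ h z := by exact_mod_cast h8
  have h10 := base_le h9
  have h11 : (2 * ((mu z : ℤ) * h z)) ≤ ((h z * (h z - 1) : ℕ) : ℤ) + mu z * (mu z + 1) := by
    exact_mod_cast h10
  push_cast at h7 ⊢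
  rw [← sum_mul] at h7
  push_cast at h11
  linarith

/-- **the energy of the row 0** without the excess in the block -/
theorem E0 (H : Wd R n t h mu q s e P A D N W) {nr : ℕ}
    (hnr : ∀ y ∈ Ico 2 n, N 0 y ≤ ((P 0 y * nr : ℕ) : ℤ)) :
    2 * e 0 ≤ ((2 * (mu 0 * h 0) - mu 0 * (mu 0 + 1) + (∑ y ∈ Ico 2 n, P 0 y) * nr : ℕ) : ℤ)
      + N 0 1 := by
  have hn := H.n3
  have h3 := H.C.en 0 (by omega)
  rw [LdG.sum_er0 (by omega)] at h3
  have h7 := sum_le_sum hnr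
  have h8 := H.C.muh 0 (by omega)
  have h9 : mu 0 ≤ h 0 := by exact_mod_cast h8
  have h10 : mu 0 * (mu 0 + 1) ≤ 2 * (mu 0 * h 0) := by
    rcases Nat.eq_zero_or_pos (mu 0) with h | h <;> nlinarith
  rw [Nat.cast_add, Nat.cast_sub h10]
  push_cast at h7 ⊢
  rw [← sum_mul] at h7
  linarith

/-- **the energy of the row 1** without the excess in the block -/
theorem E1 (H : Wd R n t h mu q s e P A D N W) {nr : ℕ}
    (hnr : ∀ y ∈ Ico 2 n, N 1 y ≤ ((P 1 y * nr : ℕ) : ℤ)) :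
    2 * e 1 ≤ ((2 * (mu 1 * h 1) - mu 1 * (mu 1 + 1) + (∑ y ∈ Ico 2 n, P 1 y) * nr : ℕ) : ℤ)
      + N 1 0 := by
  have hn := H.n3
  have h3 := H.C.en 1 (by omega)
  rw [LdG.sum_er1 (by omega)] at h3
  have h7 := sum_le_sum hnr
  have h8 := H.C.muh 1 (by omega)
  have h9 : mu 1 ≤ h 1 := by exact_mod_cast h8
  have h10 : mu 1 * (mu 1 + 1) ≤ 2 * (mu 1 * h 1) := by
    rcases Nat.eq_zero_or_pos (mu 1) with h | h <;> nlinarith
  rw [Nat.cast_add, Nat.cast_sub h10]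
  push_cast at h7 ⊢
  rw [← sum_mul] at h7
  linarith

/-- **the pair test of the block** -/
theorem LD (H : Wd R n t h mu q s e P A D N W) (h5 : P 0 1 + P 1 0 ≤ 5) {F0 F1 : ℕ}
    (hF0 : 2 * e 0 ≤ (F0 : ℤ) + N 0 1) (hF1 : 2 * e 1 ≤ (F1 : ℤ) + N 1 0) :
    2 * ((R - 1) * (h 0 + h 1) + h 0 * (t 1 + 1) + h 1 * (t 0 + 1)
      + (P 0 1 * (R - t 1) + A 0 1 * w R t q 0 1 + D 0 1 * (R - t 1 + w R t q 0 1))
      + (P 1 0 * (R - t 0) + A 1 0 * w R t q 1 0 + D 1 0 * (R - t 0 + w R t q 1 0)))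
      ≤ F0 + F1 + nt (P 0 1) (P 1 0)
        + 2 * (R + 1 + h 0 * h 1 + (t 0 + 1) * (t 1 + 1) + (R - 1) * (t 0 + t 1 + 2)) := by
  have hn := H.n3
  have h1 := H.C.pair 0 (by omega) 1 (by omega) (by norm_num)
  have h2 := H.nt_spec (show 0 < n by omega) (show 1 < n by omega) (by norm_num) h5
  have hR0 := H.C.tR 0 (by omega)
  have hR1 := H.C.tR 1 (by omega)
  have r0 : t 0 + 1 ≤ R := by exact_mod_cast hR0
  have r1 : t 1 + 1 ≤ R := by exact_mod_cast hR1
  have c0 : ((R - t 0 : ℕ) : ℤ) = R - t 0 := by rw [Nat.cast_sub (by omega)]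
  have c1 : ((R - t 1 : ℕ) : ℤ) = R - t 1 := by rw [Nat.cast_sub (by omega)]
  have cR : ((R - 1 : ℕ) : ℤ) = R - 1 := by
    rw [Nat.cast_sub (by omega)]
    norm_num
  have w01 : ((w R t q 0 1 : ℕ) : ℤ) = max 0 ((R : ℤ) - t 1 - q 0 1) := by
    unfold w
    omega
  have w10 : ((w R t q 1 0 : ℕ) : ℤ) = max 0 ((R : ℤ) - t 0 - q 1 0) := by
    unfold w
    omega
  rw [← w01, ← w10] at h1
  have a0 := H.C.hh 0 (by omega)
  have a1 := H.C.hh 1 (by omega)
  have s0 : s 0 = (h 0 : ℤ) - t 0 - 1 := by linarith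
  have s1 : s 1 = (h 1 : ℤ) - t 1 - 1 := by linarith
  rw [s0, s1] at h1
  zify [c0, c1, cR]
  nlinarith

end Wd

end Bk

end Pool.Agent.Lib.MP_f04ccf_co
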