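import Pool.Agent.Lib.MP_f04ccf_co.M.BlkP

/-!
MP_f04ccf_co, PLAN W, block certificate: **the block of two hosts in the kernel, fast form** with
the numbers of PC pairs of the two rows in a box and the exact row tests.

* `BlkM.tkE`, `BlkM.TE`: the row test `X ≤ r + W (2 h + W - 1)`;
* `BlkM.stp`, `BlkM.forC`, `BlkM.lsC`: the states of row 0 as a nested list;
* `BlkM.chkM`, `BlkM.chkM_sound`: the check for given numbers of PC pairs in the cell;
* `BlkM.blkOkM`, `BlkM.blockM`: the check of a node and the block inequality.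
-/

set_option autoImplicit false

namespace Pool.Agent.Lib.MP_f04ccf_co

open Finset Mid BlkB

namespace BlkM

/-! ### the loops without forced evaluation -/

/-- the row test: `X` the left side, `W` the points, `g = 2 h` -/
noncomputable def tkE (r g X W : ℕ) : Bool :=
  Nat.ble X (Nat.add r (Nat.mul W (Nat.pred (Nat.add g W))))

lemma tkE_eq {r g X W : ℕ} : tkE r g X W = true ↔ X ≤ r + W * (g + W - 1) :=
  ⟨fun h => Nat.le_of_ble_eq_true h, fun h => Nat.ble_eq_true_of_le h⟩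

/-- the largest `y ≤ n` with the test true; `X`, `W` the values at `y = n` -/
noncomputable def dnM (c r g : ℕ) (k : ℕ → Bool) (n : ℕ) : ℕ → ℕ → Bool :=
  Nat.rec (motive := fun _ => ℕ → ℕ → Bool)
    (fun X W => Bool.rec (motive := fun _ => Bool) true (k 0) (tkE r g X W))
    (fun n ih X W => Bool.rec (motive := fun _ => Bool)
      (ih (Nat.sub X c) (Nat.sub W 2)) (k (Nat.succ n)) (tkE r g X W)) n

lemma dnM_sound {c r g : ℕ} {k : ℕ → Bool} (X W : ℕ) : ∀ n : ℕ,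
    dnM c r g k n (X + n * c) (W + 2 * n) = true → ∀ y ≤ n,
    tkE r g (X + y * c) (W + 2 * y) = true → ∃ y', y ≤ y' ∧ y' ≤ n ∧ k y' = true := by
  intro n
  induction n with
  | zero =>
    intro h y hy ht
    have hy0 : y = 0 := by omega
    subst hy0
    have h1 : (Bool.rec (motive := fun _ => Bool) true (k 0)
      (tkE r g (X + 0 * c) (W + 2 * 0)) : Bool) = true := h
    rw [ht] at h1
    exact ⟨0, le_rfl, le_rfl, h1⟩
  | succ n ih =>
    intro h y hy ht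
    have h1 : (Bool.rec (motive := fun _ => Bool)
      (dnM c r g k n (Nat.sub (X + (n + 1) * c) c) (Nat.sub (W + 2 * (n + 1)) 2))
      (k (Nat.succ n)) (tkE r g (X + (n + 1) * c) (W + 2 * (n + 1))) : Bool) = true := h
    rcases h2 : tkE r g (X + (n + 1) * c) (W + 2 * (n + 1)) with _ | _
    · rw [h2] at h1
      have h3 : y ≤ n := by
        by_contra h4
        have h5 : y = n + 1 := by omega
        rw [h5, h2] at ht
        exact Bool.noConfusion ht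
      have h6 : Nat.sub (X + (n + 1) * c) c = X + n * c := by
        show X + (n + 1) * c - c = X + n * c
        rw [Nat.succ_mul, ← Nat.add_assoc, Nat.add_sub_cancel]
      have h7 : Nat.sub (W + 2 * (n + 1)) 2 = W + 2 * n := by
        show W + 2 * (n + 1) - 2 = W + 2 * n
        omega
      rw [h6, h7] at h1
      obtain ⟨y', h8, h9, h10⟩ := ih h1 y h3 ht
      exact ⟨y', h8, by omega, h10⟩
    · rw [h2] at h1
      exact ⟨n + 1, hy, le_rfl, h1⟩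

/-- the last `y' ≤ y + n` before the test fails; `X`, `W` the values at `y` -/
noncomputable def upM (c r g : ℕ) (k : ℕ → Bool) (n : ℕ) : ℕ → ℕ → ℕ → Bool :=
  Nat.rec (motive := fun _ => ℕ → ℕ → ℕ → Bool) (fun y _ _ => k y)
    (fun _ ih y X W => Bool.rec (motive := fun _ => Bool) (k y)
      (ih (Nat.succ y) (Nat.add X c) (Nat.add W 2)) (tkE r g (Nat.add X c) (Nat.add W 2))) n

lemma upM_sound {c r g : ℕ} {k : ℕ → Bool} : ∀ n y X W : ℕ, upM c r g k n y X W = true →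
    ∀ y1, y ≤ y1 → y1 ≤ y + n →
    (∀ i, i < y1 - y → tkE r g (X + (i + 1) * c) (W + 2 * (i + 1)) = true) →
    ∃ y', y1 ≤ y' ∧ k y' = true := by
  intro n
  induction n with
  | zero =>
    intro y X W h y1 h1 h2 _
    have h3 : y1 = y := by omega
    exact ⟨y, by omega, h⟩
  | succ n ih =>
    intro y X W h y1 h1 h2 h3
    have h4 : (Bool.rec (motive := fun _ => Bool) (k y)
      (upM c r g k n (Nat.succ y) (Nat.add X c) (Nat.add W 2))
      (tkE r g (Nat.add X c) (Nat.add W 2)) : Bool) = true := h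
    rcases Nat.eq_or_lt_of_le h1 with h5 | h5
    · subst h5
      rcases h6 : tkE r g (Nat.add X c) (Nat.add W 2) with _ | _
      · rw [h6] at h4
        exact ⟨y, le_rfl, h4⟩
      · rw [h6] at h4
        obtain ⟨y', h7, h8⟩ := ih (y + 1) _ _ h4 (y + 1) le_rfl (by omega)
          (fun i hi => absurd hi (by omega))
        exact ⟨y', by omega, h8⟩
    · have h6 := h3 0 (by omega)
      have h7 : tkE r g (Nat.add X c) (Nat.add W 2) = true := by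
        have h8 : X + (0 + 1) * c = Nat.add X c := by
          show X + (0 + 1) * c = X + c
          ring
        have h9 : W + 2 * (0 + 1) = Nat.add W 2 := rfl
        rw [h8, h9] at h6
        exact h6
      rw [h7] at h4
      refine ih (y + 1) _ _ h4 y1 (by omega) (by omega) fun i hi => ?_
      have h10 := h3 (i + 1) (by omega)
      have h11 : X + (i + 1 + 1) * c = Nat.add X c + (i + 1) * c := by
        show X + (i + 1 + 1) * c = X + c + (i + 1) * c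
        ring
      have h12 : W + 2 * (i + 1 + 1) = Nat.add W 2 + 2 * (i + 1) := by
        show W + 2 * (i + 1 + 1) = W + 2 + 2 * (i + 1)
        ring
      rw [h11, h12] at h10
      exact h10

/-- the contents `a, a + 1, .., a + n`; `X`, `W` the values at `y = 0` -/
noncomputable def lpAM (c ca r g : ℕ) (body : ℕ → ℕ → Bool) (n : ℕ) : ℕ → ℕ → ℕ → ℕ → Bool :=
  Nat.rec (motive := fun _ => ℕ → ℕ → ℕ → ℕ → Bool)
    (fun a y X W => dnM c r g (body a) y (Nat.add X (Nat.mul y c)) (Nat.add W (Nat.mul 2 y)))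
    (fun _ ih a y X W => dnM c r g (fun y' => Bool.rec (motive := fun _ => Bool) false
        (ih (Nat.succ a) y' (Nat.add X ca) (Nat.add W 2))
        (body a y')) y (Nat.add X (Nat.mul y c)) (Nat.add W (Nat.mul 2 y))) n

lemma lpAM_sound {c ca r g : ℕ} {body : ℕ → ℕ → Bool} : ∀ n a y X W : ℕ,
    lpAM c ca r g body n a y X W = true → ∀ i ≤ n, ∀ y1 ≤ y,
    (∀ j ≤ i, tkE r g (X + j * ca + y1 * c) (W + 2 * j + 2 * y1) = true) →
    ∃ y', y1 ≤ y' ∧ body (a + i) y' = true := by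
  intro n
  induction n with
  | zero =>
    intro a y X W h i hi y1 hy1 ht
    have hi0 : i = 0 := by omega
    subst hi0
    have h1 : dnM c r g (body a) y (X + y * c) (W + 2 * y) = true := h
    have h2 := ht 0 le_rfl
    simp only [Nat.zero_mul, Nat.mul_zero, Nat.add_zero] at h2
    obtain ⟨y', h3, -, h4⟩ := dnM_sound X W y h1 y1 hy1 h2
    exact ⟨y', h3, h4⟩
  | succ n ih =>
    intro a y X W h i hi y1 hy1 ht
    have h1 : dnM c r g (fun y' => (Bool.rec (motive := fun _ => Bool) false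
        (lpAM c ca r g body n (Nat.succ a) y' (Nat.add X ca) (Nat.add W 2))
        (body a y') : Bool)) y (X + y * c) (W + 2 * y) = true := h
    have h2 := ht 0 (Nat.zero_le _)
    simp only [Nat.zero_mul, Nat.mul_zero, Nat.add_zero] at h2
    obtain ⟨y', h3, h3', h4⟩ := dnM_sound X W y h1 y1 hy1 h2
    rcases h5 : body a y' with _ | _
    · rw [h5] at h4
      exact absurd h4 Bool.false_ne_true
    · rw [h5] at h4
      rcases Nat.eq_zero_or_pos i with h6 | h6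
      · subst h6
        exact ⟨y', h3, h5⟩
      · obtain ⟨i', rfl⟩ : ∃ i', i = i' + 1 := ⟨i - 1, by omega⟩
        obtain ⟨y2, h8, h9⟩ := ih (a + 1) y' _ _ h4 i' (by omega) y1 h3 (fun j hj => by
          have h10 := ht (j + 1) (by omega)
          have h11 : X + (j + 1) * ca + y1 * c = Nat.add X ca + j * ca + y1 * c := by
            show X + (j + 1) * ca + y1 * c = X + ca + j * ca + y1 * c
            ring
          have h12 : W + 2 * (j + 1) + 2 * y1 = Nat.add W 2 + 2 * j + 2 * y1 := by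
            show W + 2 * (j + 1) + 2 * y1 = W + 2 + 2 * j + 2 * y1
            ring
          rw [h11, h12] at h10
          exact h10)
        refine ⟨y2, h8, ?_⟩
        have h13 : a + (i' + 1) = a + 1 + i' := by ring
        rw [h13]
        exact h9

/-- the contents `d, .., d + n` with `a ≤ min kk cc` for `d` -/
noncomputable def lpDM (c ca cd r g : ℕ) (body : ℕ → ℕ → ℕ → Bool) (n : ℕ) :
    ℕ → ℕ → ℕ → ℕ → ℕ → ℕ → Bool :=
  Nat.rec (motive := fun _ => ℕ → ℕ → ℕ → ℕ → ℕ → ℕ → Bool)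
    (fun d y X W kk cc => lpAM c ca r g (body d) (mnb kk cc) 0 y X W)
    (fun _ ih d y X W kk cc => dnM c r g (fun y' => Bool.rec (motive := fun _ => Bool) false
        (ih (Nat.succ d) y' (Nat.add X cd) (Nat.add W 3) (Nat.pred kk) (Nat.sub cc 2))
        (lpAM c ca r g (body d) (mnb kk cc) 0 y' X W))
        y (Nat.add X (Nat.mul y c)) (Nat.add W (Nat.mul 2 y))) n

lemma lpDM_sound {c ca cd r g : ℕ} {body : ℕ → ℕ → ℕ → Bool} : ∀ n d y X W kk cc : ℕ,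
    lpDM c ca cd r g body n d y X W kk cc = true → ∀ i ≤ n, ∀ a y1 : ℕ, y1 ≤ y →
    a + i ≤ kk → a + 2 * i ≤ cc →
    (∀ l ≤ i, ∀ j ≤ a, tkE r g (X + l * cd + j * ca + y1 * c)
      (W + 3 * l + 2 * j + 2 * y1) = true) →
    ∃ y', y1 ≤ y' ∧ body (d + i) a y' = true := by
  intro n
  induction n with
  | zero =>
    intro d y X W kk cc h i hi a y1 hy1 ha ha2 ht
    have hi0 : i = 0 := by omega
    subst hi0
    have h1 : lpAM c ca r g (body d) (mnb kk cc) 0 y X W = true := h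
    rw [mnb_eq] at h1
    have h2 := lpAM_sound _ _ _ _ _ h1 a (by omega) y1 hy1 (fun j hj => by
      have := ht 0 le_rfl j hj
      simpa using this)
    simpa using h2
  | succ n ih =>
    intro d y X W kk cc h i hi a y1 hy1 ha ha2 ht
    have h1 : dnM c r g (fun y' => (Bool.rec (motive := fun _ => Bool) false
        (lpDM c ca cd r g body n (Nat.succ d) y' (Nat.add X cd) (Nat.add W 3) (Nat.pred kk)
          (Nat.sub cc 2))
        (lpAM c ca r g (body d) (mnb kk cc) 0 y' X W) : Bool))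
        y (X + y * c) (W + 2 * y) = true := h
    have h2 := ht 0 (Nat.zero_le _) 0 (Nat.zero_le _)
    simp only [Nat.zero_mul, Nat.mul_zero, Nat.add_zero] at h2
    obtain ⟨y', h3, h3', h4⟩ := dnM_sound X W y h1 y1 hy1 h2
    rcases h5 : lpAM c ca r g (body d) (mnb kk cc) 0 y' X W with _ | _
    · rw [h5] at h4
      exact absurd h4 Bool.false_ne_true
    · rw [h5] at h4
      rcases Nat.eq_zero_or_pos i with h6 | h6
      · subst h6
        rw [mnb_eq] at h5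
        have h7 := lpAM_sound _ _ _ _ _ h5 a (by omega) y1 h3 (fun j hj => by
          have := ht 0 le_rfl j hj
          simpa using this)
        simpa using h7
      · obtain ⟨i', rfl⟩ : ∃ i', i = i' + 1 := ⟨i - 1, by omega⟩
        have h7 : lpDM c ca cd r g body n (Nat.succ d) y' (Nat.add X cd) (Nat.add W 3)
            (kk - 1) (cc - 2) = true := h4
        obtain ⟨y2, h8, h9⟩ := ih (d + 1) y' _ _ _ _ h7 i' (by omega) a y1 h3 (by omega)
          (by omega) (fun l hl j hj => by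
          have h10 := ht (l + 1) (by omega) j hj
          have h11 : X + (l + 1) * cd + j * ca + y1 * c
              = Nat.add X cd + l * cd + j * ca + y1 * c := by
            show X + (l + 1) * cd + j * ca + y1 * c = X + cd + l * cd + j * ca + y1 * c
            ring
          have h12 : W + 3 * (l + 1) + 2 * j + 2 * y1
              = Nat.add W 3 + 3 * l + 2 * j + 2 * y1 := by
            show W + 3 * (l + 1) + 2 * j + 2 * y1 = W + 3 + 3 * l + 2 * j + 2 * y1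
            ring
          rw [h11, h12] at h10
          exact h10)
        refine ⟨y2, h8, ?_⟩
        have h13 : d + (i' + 1) = d + 1 + i' := by ring
        rw [h13]
        exact h9

/-- the row tests of one row in numbers -/
def TE (R2 a c ca cd Q y A D mu h N : ℕ) : Prop :=
  ∀ b ≤ Q + y, ∀ i ≤ A, ∀ l ≤ D, R2 * h + b * c + i * ca + l * cd
    ≤ mu * (2 * h - 1 - mu) + (N + R2 * a)
      + (2 * b + 2 * i + 3 * l) * (2 * h + (2 * b + 2 * i + 3 * l) - 1)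

lemma TE.tk {R2 a c ca cd Q y A D mu h N : ℕ} (ht : TE R2 a c ca cd Q y A D mu h N) {b i l : ℕ}
    (hb : b ≤ Q + y) (hi : i ≤ A) (hl : l ≤ D) {X W : ℕ}
    (hX : X = R2 * h + b * c + i * ca + l * cd) (hW : W = 2 * b + 2 * i + 3 * l) :
    tkE (mu * (2 * h - 1 - mu) + (N + R2 * a)) (2 * h) X W = true := by
  rw [tkE_eq, hX, hW]
  exact ht b hb i hi l hl

lemma upM_TE {R2 a c ca cd Q y A D mu h N : ℕ} (ht : TE R2 a c ca cd Q y A D mu h N)
    {k : ℕ → Bool} {n : ℕ} (hy : y ≤ n)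
    (hc : upM c (mu * (2 * h - 1 - mu) + (N + R2 * a)) (2 * h) k n 0 (R2 * h + Q * c) (2 * Q)
      = true) : ∃ y', y ≤ y' ∧ k y' = true := by
  refine upM_sound n 0 _ _ hc y (Nat.zero_le _) (by omega) fun i hi => ?_
  refine ht.tk (b := Q + i + 1) (i := 0) (l := 0) (by omega) (Nat.zero_le _) (Nat.zero_le _) ?_ ?_
  · ring
  · ring

lemma lpDM_TE {R2 a c ca cd Q y A D mu h N : ℕ} (ht : TE R2 a c ca cd Q y A D mu h N)
    {body : ℕ → ℕ → ℕ → Bool} {n ys kk cc : ℕ} (hy : y ≤ ys) (hn : D ≤ n) (h1 : A + D ≤ kk)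
    (h2 : A + 2 * D ≤ cc)
    (hc : lpDM c ca cd (mu * (2 * h - 1 - mu) + (N + R2 * a)) (2 * h) body n 0 ys
      (R2 * h + Q * c) (2 * Q) kk cc = true) : ∃ y', y ≤ y' ∧ body D A y' = true := by
  obtain ⟨y', h3, h4⟩ := lpDM_sound n 0 ys _ _ kk cc hc D hn A y hy h1 h2 fun l hl j hj => by
    refine ht.tk (b := Q + y) (i := j) (l := l) le_rfl hj hl ?_ ?_
    · ring
    · ring
  rw [Nat.zero_add] at h4
  exact ⟨y', h3, h4⟩

/-- the tests for `b = 0, .., n` PC ends; `Z` if a test fails -/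
noncomputable def preM (c r g : ℕ) (Z : Bool) (K : ℕ → ℕ → Bool) (n : ℕ) : ℕ → ℕ → Bool :=
  Nat.rec (motive := fun _ => ℕ → ℕ → Bool)
    (fun X W => Bool.rec (motive := fun _ => Bool) Z (K X W) (tkE r g X W))
    (fun _ ih X W => Bool.rec (motive := fun _ => Bool) Z
      (ih (Nat.add X c) (Nat.add W 2)) (tkE r g X W)) n

lemma preM_or {c r g : ℕ} {Z : Bool} {K : ℕ → ℕ → Bool} : ∀ n X W : ℕ,
    preM c r g Z K n X W = true → Z = true ∨ ∃ X' W', K X' W' = true := by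
  intro n
  induction n with
  | zero =>
    intro X W h
    have h1 : (Bool.rec (motive := fun _ => Bool) Z (K X W) (tkE r g X W) : Bool) = true := h
    rcases h2 : tkE r g X W with _ | _
    · rw [h2] at h1
      exact Or.inl h1
    · rw [h2] at h1
      exact Or.inr ⟨X, W, h1⟩
  | succ n ih =>
    intro X W h
    have h1 : (Bool.rec (motive := fun _ => Bool) Z
      (preM c r g Z K n (Nat.add X c) (Nat.add W 2)) (tkE r g X W) : Bool) = true := h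
    rcases h2 : tkE r g X W with _ | _
    · rw [h2] at h1
      exact Or.inl h1
    · rw [h2] at h1
      exact ih _ _ h1

lemma preM_sound {c r g : ℕ} {Z : Bool} {K : ℕ → ℕ → Bool} : ∀ n X W : ℕ,
    preM c r g Z K n X W = true →
    (∀ b ≤ n, tkE r g (X + b * c) (W + 2 * b) = true) → K (X + n * c) (W + 2 * n) = true := by
  intro n
  induction n with
  | zero =>
    intro X W h ht
    have h1 : (Bool.rec (motive := fun _ => Bool) Z (K X W) (tkE r g X W) : Bool) = true := h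
    have h2 := ht 0 le_rfl
    simp only [Nat.zero_mul, Nat.mul_zero, Nat.add_zero] at h2 ⊢
    rw [h2] at h1
    exact h1
  | succ n ih =>
    intro X W h ht
    have h1 : (Bool.rec (motive := fun _ => Bool) Z
      (preM c r g Z K n (Nat.add X c) (Nat.add W 2)) (tkE r g X W) : Bool) = true := h
    have h2 := ht 0 (Nat.zero_le _)
    simp only [Nat.zero_mul, Nat.mul_zero, Nat.add_zero] at h2
    rw [h2] at h1
    have h3 := ih _ _ h1 fun b hb => by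
      have h4 := ht (b + 1) (by omega)
      have h5 : X + (b + 1) * c = Nat.add X c + b * c := by
        show X + (b + 1) * c = X + c + b * c
        ring
      have h6 : W + 2 * (b + 1) = Nat.add W 2 + 2 * b := by
        show W + 2 * (b + 1) = W + 2 + 2 * b
        ring
      rw [h5, h6] at h4
      exact h4
    have h5 : X + (n + 1) * c = Nat.add X c + n * c := by
      show X + (n + 1) * c = X + c + n * c
      ring
    have h6 : W + 2 * (n + 1) = Nat.add W 2 + 2 * n := by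
      show W + 2 * (n + 1) = W + 2 + 2 * n
      ring
    rw [h5, h6]
    exact h3

/-! ### one state -/

/-- the row tests and the PC ends of a state -/
noncomputable def s2 (c q G m : ℕ) (Z : Bool) (F : ℕ → ℕ → ℕ → ℕ → Bool) (Qn r g : ℕ) (X0 : ℕ) :
    Bool :=
  preM c r g Z (fun X W => upM c r g (F r g X) (Nat.sub G m) 0 X W) Qn X0 q

/-- one state `k, mu, h = mu + k`, `m` PC pairs to the rest rows with excess `v` -/
noncomputable def s1 (R2 a nm c Pn Qn x G Ma Mb k mu h m v : ℕ) (Z : Bool)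
    (F : ℕ → ℕ → ℕ → ℕ → Bool) : Bool :=
  Bool.rec (motive := fun _ => Bool)
    (Bool.rec (motive := fun _ => Bool)
      (Bool.rec (motive := fun _ => Bool)
        (s2 c 0 G m Z F Qn (Nat.add (Nat.mul mu (Nat.sub (Nat.pred (Nat.mul 2 h)) mu))
          (Nat.add (Nat.add x v) (Nat.mul R2 a))) (Nat.mul 2 h) (Nat.mul R2 h))
        Z (Nat.ble (Nat.succ (Nat.add (Nat.add Pn m) (Nat.mul k nm))) mu))
      Z (Nat.ble (Nat.succ (Nat.add Pn m)) Ma))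
    Z (Nat.ble (Nat.succ (mnb mu Mb)) (Nat.add Pn m))

lemma s1_or {R2 a nm c Pn Qn x G Ma Mb k mu h m v : ℕ} {Z : Bool} {F : ℕ → ℕ → ℕ → ℕ → Bool}
    (hc : s1 R2 a nm c Pn Qn x G Ma Mb k mu h m v Z F = true) :
    Z = true ∨ ∃ r g X y, F r g X y = true := by
  unfold s1 at hc
  rcases h1 : Nat.ble (Nat.succ (mnb mu Mb)) (Nat.add Pn m) with _ | _
  · rw [h1] at hc
    rcases h2 : Nat.ble (Nat.succ (Nat.add Pn m)) Ma with _ | _
    · rw [h2] at hc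
      rcases h3 : Nat.ble (Nat.succ (Nat.add (Nat.add Pn m) (Nat.mul k nm))) mu with _ | _
      · rw [h3] at hc
        rcases preM_or _ _ _ hc with h4 | ⟨X, W, h4⟩
        · exact Or.inl h4
        · obtain ⟨y, -, h5⟩ := upM_sound _ 0 _ _ h4 0 le_rfl (Nat.zero_le _)
            (fun i hi => absurd hi (by omega))
          exact Or.inr ⟨_, _, _, y, h5⟩
      · rw [h3] at hc
        exact Or.inl hc
    · rw [h2] at hc
      exact Or.inl hc
  · rw [h1] at hc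
    exact Or.inl hc

lemma s1_sound {R2 a nm c Pn Qn x G Ma Mb k mu h m v ca cd y A D : ℕ} {Z : Bool}
    {F : ℕ → ℕ → ℕ → ℕ → Bool} (hc : s1 R2 a nm c Pn Qn x G Ma Mb k mu h m v Z F = true)
    (ht : TE R2 a c ca cd Qn y A D mu h (x + v)) (hp : mu ≤ Pn + m + k * nm) (hm : Pn + m ≤ mu)
    (hM : Ma ≤ Pn + m) (hM' : Pn + m ≤ Mb) (hg : m + y ≤ G) :
    ∃ y', y ≤ y' ∧ F (mu * (2 * h - 1 - mu) + (x + v + R2 * a)) (2 * h) (R2 * h + Qn * c) y'
      = true := by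
  unfold s1 at hc
  have h1 : Nat.ble (Nat.succ (mnb mu Mb)) (Nat.add Pn m) = false := by
    rcases h1 : Nat.ble (Nat.succ (mnb mu Mb)) (Nat.add Pn m) with _ | _
    · rfl
    · have h2 : mnb mu Mb + 1 ≤ Pn + m := Nat.le_of_ble_eq_true h1
      rw [mnb_eq] at h2
      omega
  have h2 : Nat.ble (Nat.succ (Nat.add Pn m)) Ma = false := by
    rcases h2 : Nat.ble (Nat.succ (Nat.add Pn m)) Ma with _ | _
    · rfl
    · have h3 : Pn + m + 1 ≤ Ma := Nat.le_of_ble_eq_true h2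
      omega
  have h3 : Nat.ble (Nat.succ (Nat.add (Nat.add Pn m) (Nat.mul k nm))) mu = false := by
    rcases h3 : Nat.ble (Nat.succ (Nat.add (Nat.add Pn m) (Nat.mul k nm))) mu with _ | _
    · rfl
    · have h4 : Pn + m + k * nm + 1 ≤ mu := Nat.le_of_ble_eq_true h3
      omega
  rw [h1, h2, h3] at hc
  have e1 : Nat.add (Nat.mul mu (Nat.sub (Nat.pred (Nat.mul 2 h)) mu))
      (Nat.add (Nat.add x v) (Nat.mul R2 a)) = mu * (2 * h - 1 - mu) + (x + v + R2 * a) := rfl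
  have e3 : Nat.mul R2 h = R2 * h := rfl
  have h4 : preM c (mu * (2 * h - 1 - mu) + (x + v + R2 * a)) (2 * h) Z
      (fun X W => upM c (mu * (2 * h - 1 - mu) + (x + v + R2 * a)) (2 * h)
        (F (mu * (2 * h - 1 - mu) + (x + v + R2 * a)) (2 * h) X) (G - m) 0 X W)
      Qn (R2 * h) 0 = true := hc
  have h5 := preM_sound _ _ _ h4 fun b hb => by
    rw [tkE_eq]
    have h4 := ht b (by omega) 0 (Nat.zero_le _) 0 (Nat.zero_le _)
    simpa using h4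
  have e4 : (0 : ℕ) + 2 * Qn = 2 * Qn := by ring
  rw [e4] at h5
  obtain ⟨y', h6, h7⟩ := upM_TE ht (n := G - m) (by omega) h5
  exact ⟨y', h6, h7⟩

/-! ### lists of states -/

/-- the data of a state: `h mu k v r g X ys cc vb rb` -/
abbrev Sd := ℕ → ℕ → ℕ → ℕ → ℕ → ℕ → ℕ → ℕ → ℕ → ℕ → ℕ → Bool

/-- a list of states -/
abbrev Ac := ℕ → ℕ → Sd → Bool

/-- the empty list -/
noncomputable def nl : Ac := fun _ _ _ => true

/-- a state -/
noncomputable def ap (h mu k v r g X ys cc vb rb : ℕ) (S : Sd) : Bool :=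
  S h mu k v r g X ys cc vb rb

/-- a list with one more state; `d`: its excess, `h` its height -/
noncomputable def stp (d h : ℕ) (F : Sd → Bool) (acc : Ac) (t hh : ℕ) (S : Sd) : Bool :=
  Bool.rec (motive := fun _ => Bool) false (acc t hh S)
    (Bool.rec (motive := fun _ => Bool)
      (Bool.rec (motive := fun _ => Bool) (F S) true (Nat.ble hh h)) true (Nat.ble d t))

lemma stp_true {d h : ℕ} {F : Sd → Bool} {acc : Ac} {t hh : ℕ} {S : Sd}
    (hs : stp d h F acc t hh S = true) : acc t hh S = true ∧ (d ≤ t ∨ hh ≤ h ∨ F S = true) := by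
  unfold stp at hs
  rcases h1 : Nat.ble d t with _ | _
  · rw [h1] at hs
    rcases h2 : Nat.ble hh h with _ | _
    · rw [h2] at hs
      rcases h3 : F S with _ | _
      · rw [h3] at hs
        exact absurd hs Bool.false_ne_true
      · rw [h3] at hs
        exact ⟨hs, Or.inr (Or.inr rfl)⟩
    · rw [h2] at hs
      exact ⟨hs, Or.inr (Or.inl (Nat.le_of_ble_eq_true h2))⟩
  · rw [h1] at hs
    exact ⟨hs, Or.inl (Nat.le_of_ble_eq_true h1)⟩

/-- `acc'` contains the states of `acc` -/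
def Le (acc acc' : Ac) : Prop := ∀ t hh S, acc' t hh S = true → acc t hh S = true

lemma Le.trans {a b c : Ac} (h1 : Le a b) (h2 : Le b c) : Le a c :=
  fun t hh S h => h1 t hh S (h2 t hh S h)

/-- a step of the construction -/
def St (f : (Ac → Bool) → Ac → Bool) : Prop :=
  ∀ K acc, f K acc = true → ∃ acc', Le acc acc' ∧ K acc' = true

/-- a step which adds the state of `Hs` -/
def StH (Hs : Ac → Prop) (f : (Ac → Bool) → Ac → Bool) : Prop :=
  ∀ K acc, f K acc = true → ∃ acc', Hs acc' ∧ Le acc acc' ∧ K acc' = true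

/-- loop -/
noncomputable def forC (f : ℕ → (Ac → Bool) → Ac → Bool) (n : ℕ) : (Ac → Bool) → Ac → Bool :=
  Nat.rec (motive := fun _ => (Ac → Bool) → Ac → Bool) (fun K acc => K acc)
    (fun i ih K acc => f i (ih K) acc) n

lemma forC_st {f : ℕ → (Ac → Bool) → Ac → Bool} (hf : ∀ i, St (f i)) (n : ℕ) :
    St (forC f n) := by
  induction n with
  | zero => exact fun K acc h => ⟨acc, fun _ _ _ h => h, h⟩
  | succ n ih =>
    intro K acc h
    obtain ⟨acc', h1, h2⟩ := hf n (forC f n K) acc h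
    obtain ⟨acc'', h3, h4⟩ := ih K acc' h2
    exact ⟨acc'', h1.trans h3, h4⟩

lemma forC_sth {Hs : Ac → Prop} (hm : ∀ a b, Le a b → Hs a → Hs b)
    {f : ℕ → (Ac → Bool) → Ac → Bool} (hf : ∀ i, St (f i)) {i : ℕ} (hi : StH Hs (f i)) (n : ℕ)
    (hn : i < n) : StH Hs (forC f n) := by
  induction n with
  | zero => omega
  | succ n ih =>
    intro K acc h
    rcases Nat.lt_succ_iff_lt_or_eq.1 hn with h5 | h5
    · obtain ⟨acc', h1, h2⟩ := hf n (forC f n K) acc h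
      obtain ⟨acc'', h3, h4, h6⟩ := ih h5 K acc' h2
      exact ⟨acc'', h3, h1.trans h4, h6⟩
    · subst h5
      obtain ⟨acc', h1, h2, h3⟩ := hi (forC f i K) acc h
      obtain ⟨acc'', h4, h6⟩ := forC_st hf i K acc' h3
      exact ⟨acc'', hm _ _ h4 h1, h2.trans h4, h6⟩

/-- loop over a list with the index -/
noncomputable def lsC (f : ℕ → ℕ → (Ac → Bool) → Ac → Bool) (l : List ℕ) :
    ℕ → (Ac → Bool) → Ac → Bool :=
  List.rec (motive := fun _ => ℕ → (Ac → Bool) → Ac → Bool) (fun _ K acc => K acc)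
    (fun v _ ih m K acc => f m v (ih (Nat.succ m) K) acc) l

lemma lsC_st {f : ℕ → ℕ → (Ac → Bool) → Ac → Bool} (hf : ∀ i v, St (f i v)) (l : List ℕ) :
    ∀ m, St (lsC f l m) := by
  induction l with
  | nil => exact fun m K acc h => ⟨acc, fun _ _ _ h => h, h⟩
  | cons v l ih =>
    intro m K acc h
    obtain ⟨acc', h1, h2⟩ := hf m v (lsC f l (Nat.succ m) K) acc h
    obtain ⟨acc'', h3, h4⟩ := ih _ K acc' h2
    exact ⟨acc'', h1.trans h3, h4⟩

lemma lsC_sth {Hs : Ac → Prop} (hm : ∀ a b, Le a b → Hs a → Hs b)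
    {f : ℕ → ℕ → (Ac → Bool) → Ac → Bool} (hf : ∀ i v, St (f i v)) (l : List ℕ) :
    ∀ (m i : ℕ) (hl : i < l.length), StH Hs (f (m + i) l[i]) → StH Hs (lsC f l m) := by
  induction l with
  | nil => intro m i hl; exact absurd hl (by simp)
  | cons v l ih =>
    intro m i hl hi K acc h
    rcases i with _ | i
    · obtain ⟨acc', h1, h2, h3⟩ := hi (lsC f l (Nat.succ m) K) acc h
      obtain ⟨acc'', h4, h6⟩ := lsC_st hf l _ K acc' h3
      exact ⟨acc'', hm _ _ h4 h1, h2.trans h4, h6⟩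
    · obtain ⟨acc', h1, h2⟩ := hf m v (lsC f l (Nat.succ m) K) acc h
      have h5 : m + (i + 1) = Nat.succ m + i := by
        show m + (i + 1) = m + 1 + i
        ring
      rw [h5] at hi
      obtain ⟨acc'', h3, h4, h6⟩ := ih (Nat.succ m) i (by simpa using hl) hi K acc' h2
      exact ⟨acc'', h3, h1.trans h4, h6⟩

/-- all elements of a list with the index -/
noncomputable def lsM (f : ℕ → ℕ → Bool) (l : List ℕ) : ℕ → Bool :=
  List.rec (motive := fun _ => ℕ → Bool) (fun _ => true)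
    (fun v _ ih m => Bool.rec (motive := fun _ => Bool) false (ih (Nat.succ m)) (f m v)) l

lemma lsM_sound {f : ℕ → ℕ → Bool} : ∀ (l : List ℕ) (m : ℕ), lsM f l m = true →
    ∀ i (h : i < l.length), f (m + i) l[i] = true := by
  intro l
  induction l with
  | nil => intro m h i hi; exact absurd hi (by simp)
  | cons v l ih =>
    intro m h i hi
    have h1 : (Bool.rec (motive := fun _ => Bool) false (lsM f l (Nat.succ m)) (f m v) : Bool)
      = true := h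
    rcases h2 : f m v with _ | _
    · rw [h2] at h1
      exact absurd h1 Bool.false_ne_true
    · rw [h2] at h1
      rcases i with _ | i
      · exact h2
      · have h3 := ih (m + 1) h1 i (by simpa using hi)
        have h4 : m + (i + 1) = m + 1 + i := by ring
        rw [h4]
        exact h3

/-- the largest element -/
noncomputable def mxl (l : List ℕ) : ℕ :=
  List.rec (motive := fun _ => ℕ) 0
    (fun v _ ih => Bool.rec (motive := fun _ => ℕ) v ih (Nat.ble v ih)) l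

lemma le_mxl : ∀ (l : List ℕ) (i : ℕ) (h : i < l.length), l[i] ≤ mxl l := by
  intro l
  induction l with
  | nil => intro i hi; exact absurd hi (by simp)
  | cons v l ih =>
    intro i hi
    have h1 : mxl (v :: l) = (Bool.rec (motive := fun _ => ℕ) v (mxl l) (Nat.ble v (mxl l)) : ℕ) :=
      rfl
    have h2 : v ≤ mxl (v :: l) ∧ mxl l ≤ mxl (v :: l) := by
      rw [h1]
      rcases h3 : Nat.ble v (mxl l) with _ | _
      · have h4 : ¬ v ≤ mxl l := fun h5 => by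
          rw [Nat.ble_eq_true_of_le h5] at h3
          exact Bool.noConfusion h3
        exact ⟨le_rfl, by show mxl l ≤ v; omega⟩
      · exact ⟨Nat.le_of_ble_eq_true h3, le_rfl⟩
    rcases i with _ | i
    · exact h2.1
    · exact (ih i (by simpa using hi)).trans h2.2

/-- the test for all `m`: `Z` if no state is possible -/
noncomputable def pt (R2 a x nx H mu h : ℕ) (Z B : Bool) : Bool :=
  Bool.rec (motive := fun _ => Bool)
    (Bool.rec (motive := fun _ => Bool)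
      (Bool.rec (motive := fun _ => Bool) Z B
        (Nat.ble (Nat.mul R2 h) (Nat.add (Nat.mul mu (Nat.sub (Nat.pred (Nat.mul 2 h)) mu))
          (Nat.add (Nat.add x nx) (Nat.mul R2 a)))))
      Z (anb (Nat.ble a h) (Nat.beq mu 0)))
    Z (Nat.ble (Nat.succ H) h)

lemma pt_or {R2 a x nx H mu h : ℕ} {Z B : Bool} (hc : pt R2 a x nx H mu h Z B = true) :
    Z = true ∨ B = true := by
  unfold pt at hc
  rcases h1 : Nat.ble (Nat.succ H) h with _ | _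
  · rw [h1] at hc
    rcases h2 : anb (Nat.ble a h) (Nat.beq mu 0) with _ | _
    · rw [h2] at hc
      rcases h3 : Nat.ble (Nat.mul R2 h) (Nat.add (Nat.mul mu (Nat.sub (Nat.pred (Nat.mul 2 h)) mu))
          (Nat.add (Nat.add x nx) (Nat.mul R2 a))) with _ | _
      · rw [h3] at hc
        exact Or.inl hc
      · rw [h3] at hc
        exact Or.inr hc
    · rw [h2] at hc
      exact Or.inl hc
  · rw [h1] at hc
    exact Or.inl hc

lemma pt_sound {R2 a c ca cd x nx H mu h Q y A D v : ℕ} {Z B : Bool}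
    (hc : pt R2 a x nx H mu h Z B = true) (ht : TE R2 a c ca cd Q y A D mu h (x + v))
    (hv : v ≤ nx) (hm : a ≤ h → 1 ≤ mu) (hH : h ≤ H) : B = true := by
  unfold pt at hc
  have h1 : Nat.ble (Nat.succ H) h = false := by
    rcases h1 : Nat.ble (Nat.succ H) h with _ | _
    · rfl
    · have h2 : H + 1 ≤ h := Nat.le_of_ble_eq_true h1
      omega
  have h2 : anb (Nat.ble a h) (Nat.beq mu 0) = false := by
    rcases h2 : anb (Nat.ble a h) (Nat.beq mu 0) with _ | _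
    · rfl
    · obtain ⟨h3, h4⟩ := anb_true h2
      have h5 := hm (Nat.le_of_ble_eq_true h3)
      have h6 : mu = 0 := Nat.eq_of_beq_eq_true h4
      omega
  have h3 : Nat.ble (Nat.mul R2 h) (Nat.add (Nat.mul mu (Nat.sub (Nat.pred (Nat.mul 2 h)) mu))
      (Nat.add (Nat.add x nx) (Nat.mul R2 a))) = true := by
    apply Nat.ble_eq_true_of_le
    have h4 := ht 0 (Nat.zero_le _) 0 (Nat.zero_le _) 0 (Nat.zero_le _)
    show R2 * h ≤ mu * (2 * h - 1 - mu) + (x + nx + R2 * a)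
    simp only [Nat.zero_mul, Nat.mul_zero, Nat.add_zero] at h4
    omega
  rw [h1, h2, h3] at hc
  exact hc

/-! ### a pair of states -/

/-- innermost test -/
noncomputable def t2 (L0 W1 hA1 hD1 rb lim v l d a y : ℕ) : Bool :=
  Bool.rec (motive := fun _ => Bool)
    (Nat.ble lim (Nat.add l (Nat.add (Nat.mul a hA1) (Nat.mul d hD1)))) true
    (Nat.ble (Nat.add v (Nat.add (Nat.mul W1 y) (Nat.mul L0 (Nat.add a (Nat.mul 2 d))))) rb)

/-- the contents of row 1 for value `v` and load `l` of row 0 -/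
noncomputable def t1 (cP1 cA1 cD1 hA1 hD1 L0 W1 r1 g1 X1 Q1 ys1 kk1 cc1 rb lim mx v l : ℕ) :
    Bool :=
  Bool.rec (motive := fun _ => Bool)
    (Bool.rec (motive := fun _ => Bool)
      (lpDM cP1 cA1 cD1 r1 g1 (t2 L0 W1 hA1 hD1 rb lim v l) (mnb kk1 (Nat.div cc1 2)) 0 ys1 X1 Q1
        kk1 cc1)
      true (Nat.ble (Nat.add v mx) rb))
    true (Nat.ble lim l)

/-- one content of row 0 -/
noncomputable def t0 (hA0 hD0 L1 W0 vb lb : ℕ) (T : ℕ → ℕ → Bool) (d a y : ℕ) : Bool :=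
  T (Nat.add vb (Nat.add (Nat.mul W0 y) (Nat.mul L1 (Nat.add a (Nat.mul 2 d)))))
    (Nat.add lb (Nat.add (Nat.mul a hA0) (Nat.mul d hD0)))

/-- a pair of states -/
noncomputable def prM (cP0 cA0 cD0 hA0 hD0 cP1 cA1 cD1 hA1 hD1 L0 L1 W0 W1 : ℕ)
    (r0 g0 X0 Q0 ys0 kk0 cc0 r1 g1 X1 Q1 ys1 kk1 cc1 vb rb lim lb mx : ℕ) : Bool :=
  Bool.rec (motive := fun _ => Bool)
    (lpDM cP0 cA0 cD0 r0 g0 (t0 hA0 hD0 L1 W0 vb lb
      (t1 cP1 cA1 cD1 hA1 hD1 L0 W1 r1 g1 X1 Q1 ys1 kk1 cc1 rb lim mx))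
      (mnb kk0 (Nat.div cc0 2)) 0 ys0 X0 Q0 kk0 cc0)
    true (Nat.ble lim lb)

lemma t1_true {cP1 cA1 cD1 hA1 hD1 L0 W1 r1 g1 X1 Q1 ys1 kk1 cc1 rb lim mx v l : ℕ}
    (h : t1 cP1 cA1 cD1 hA1 hD1 L0 W1 r1 g1 X1 Q1 ys1 kk1 cc1 rb lim mx v l = true) :
    lim ≤ l ∨ v + mx ≤ rb ∨ lpDM cP1 cA1 cD1 r1 g1 (t2 L0 W1 hA1 hD1 rb lim v l)
      (mnb kk1 (Nat.div cc1 2)) 0 ys1 X1 Q1 kk1 cc1 = true := by
  unfold t1 at h
  rcases h1 : Nat.ble lim l with _ | _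
  · rw [h1] at h
    rcases h2 : Nat.ble (Nat.add v mx) rb with _ | _
    · rw [h2] at h
      exact Or.inr (Or.inr h)
    · exact Or.inr (Or.inl (Nat.le_of_ble_eq_true h2))
  · exact Or.inl (Nat.le_of_ble_eq_true h1)

lemma prM_true {cP0 cA0 cD0 hA0 hD0 cP1 cA1 cD1 hA1 hD1 L0 L1 W0 W1 : ℕ}
    {r0 g0 X0 Q0 ys0 kk0 cc0 r1 g1 X1 Q1 ys1 kk1 cc1 vb rb lim lb mx : ℕ}
    (h : prM cP0 cA0 cD0 hA0 hD0 cP1 cA1 cD1 hA1 hD1 L0 L1 W0 W1 r0 g0 X0 Q0 ys0 kk0 cc0 r1 g1 X1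
      Q1 ys1 kk1 cc1 vb rb lim lb mx = true) :
    lim ≤ lb ∨ lpDM cP0 cA0 cD0 r0 g0 (t0 hA0 hD0 L1 W0 vb lb
      (t1 cP1 cA1 cD1 hA1 hD1 L0 W1 r1 g1 X1 Q1 ys1 kk1 cc1 rb lim mx))
      (mnb kk0 (Nat.div cc0 2)) 0 ys0 X0 Q0 kk0 cc0 = true := by
  unfold prM at h
  rcases h1 : Nat.ble lim lb with _ | _
  · rw [h1] at h
    exact Or.inr h
  · exact Or.inl (Nat.le_of_ble_eq_true h1)

lemma t2_true {L0 W1 hA1 hD1 rb lim v l d a y : ℕ}
    (h : t2 L0 W1 hA1 hD1 rb lim v l d a y = true) :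
    v + (W1 * y + L0 * (a + 2 * d)) ≤ rb ∨ lim ≤ l + (a * hA1 + d * hD1) := by
  unfold t2 at h
  rcases h1 : Nat.ble (Nat.add v (Nat.add (Nat.mul W1 y) (Nat.mul L0 (Nat.add a (Nat.mul 2 d)))))
    rb with _ | _
  · rw [h1] at h
    exact Or.inr (Nat.le_of_ble_eq_true h)
  · exact Or.inl (Nat.le_of_ble_eq_true h1)

/-- **the numbers of the two rows of the block**, exact row tests -/
structure TwoE (R2 Rm Kc a0 a1 nm cP0 cA0 cD0 hP0 hA0 hD0 cP1 cA1 cD1 hP1 hA1 hD1 H G0 G1 : ℕ)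
    (nt0 nt1 : List ℕ) (P Q x0 x1 nt : ℕ)
    (h0 mu0 k h1 mu1 k1 m0 m1 A01 D01 A10 D10 y0 y1 : ℕ) : Prop where
  e0 : h0 = mu0 + k
  e1 : h1 = mu1 + k1
  hH : h0 + h1 ≤ H
  mup0 : a0 ≤ h0 → 1 ≤ mu0
  mup1 : a1 ≤ h1 → 1 ≤ mu1
  prv0 : mu0 ≤ P + m0 + k * nm
  prv1 : mu1 ≤ Q + m1 + k1 * nm
  cap0 : A01 + D01 ≤ k
  cap1 : A10 + D10 ≤ k1
  vc0 : P + m0 + A01 + 2 * D01 ≤ mu0
  vc1 : Q + m1 + A10 + 2 * D10 ≤ mu1
  ml0 : m0 < nt0.length
  ml1 : m1 < nt1.length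
  g0 : m0 + y0 ≤ G0
  g1 : m1 + y1 ≤ G1
  t0 : TE R2 a0 cP0 cA0 cD0 Q y0 A10 D10 mu0 h0 (x0 + nt0[m0])
  t1 : TE R2 a1 cP1 cA1 cD1 P y1 A01 D01 mu1 h1 (x1 + nt1[m1])
  ld : Rm * (h0 + h1) + 2 * (h0 * a1 + h1 * a0) + (P * hP1 + Q * hP0)
      + (A10 * hA0 + D10 * hD0) + (A01 * hA1 + D01 * hD1)
    ≤ mu0 * (2 * h0 - 1 - mu0) + mu1 * (2 * h1 - 1 - mu1) + (nt + nt0[m0] + nt1[m1])
      + 2 * (h0 * h1) + Kc

lemma prM_sound {R2 Rm Kc a0 a1 nm cP0 cA0 cD0 hP0 hA0 hD0 cP1 cA1 cD1 hP1 hA1 hD1 H G0 G1 : ℕ}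
    {nt0 nt1 : List ℕ} {P Q x0 x1 nt : ℕ}
    {h0 mu0 k h1 mu1 k1 m0 m1 A01 D01 A10 D10 y0 y1 : ℕ}
    (C : TwoE R2 Rm Kc a0 a1 nm cP0 cA0 cD0 hP0 hA0 hD0 cP1 cA1 cD1 hP1 hA1 hD1 H G0 G1
      nt0 nt1 P Q x0 x1 nt h0 mu0 k h1 mu1 k1 m0 m1 A01 D01 A10 D10 y0 y1)
    {L0 L1 W0 W1 ys0 ys1 vb rb lim lb mx : ℕ} (hy0 : y0 ≤ ys0) (hy1 : y1 ≤ ys1)
    (hlb : lb = Rm * (h0 + h1) + 2 * (h0 * a1 + h1 * a0) + (P * hP1 + Q * hP0))
    (hlim : lim = mu0 * (2 * h0 - 1 - mu0) + mu1 * (2 * h1 - 1 - mu1)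
      + (nt + nt0[m0]'C.ml0 + nt1[m1]'C.ml1) + 2 * (h0 * h1) + Kc + 1)
    (hmx : mx = W1 * ys1 + L0 * mnb (2 * k) (mu0 - (P + m0)))
    (hc : prM cP0 cA0 cD0 hA0 hD0 cP1 cA1 cD1 hA1 hD1 L0 L1 W0 W1
      (mu0 * (2 * h0 - 1 - mu0) + (x0 + nt0[m0]'C.ml0 + R2 * a0)) (2 * h0)
      (R2 * h0 + Q * cP0) (2 * Q) ys0 k1 (mu1 - (Q + m1))
      (mu1 * (2 * h1 - 1 - mu1) + (x1 + nt1[m1]'C.ml1 + R2 * a1)) (2 * h1)
      (R2 * h1 + P * cP1) (2 * P) ys1 k (mu0 - (P + m0)) vb rb lim lb mx = true) :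
    vb + W0 * y0 + L1 * (A10 + 2 * D10) + W1 * y1 + L0 * (A01 + 2 * D01) ≤ rb := by
  have c0 := C.cap0
  have c1 := C.cap1
  have v0 := C.vc0
  have v1 := C.vc1
  have hld := C.ld
  rcases prM_true hc with h1 | h1
  · omega
  obtain ⟨y', h2, h3⟩ := lpDM_TE C.t0 hy0 (by
    rw [mnb_eq]
    have : (mu1 - (Q + m1)).div 2 = (mu1 - (Q + m1)) / 2 := rfl
    omega) (by omega) (by omega) h1
  have h4 := Nat.mul_le_mul_left W0 h2
  rcases t1_true h3 with h5 | h5 | h5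
  · have h6 : lim ≤ lb + (A10 * hA0 + D10 * hD0) := h5
    omega
  · have h6 : vb + (W0 * y' + L1 * (A10 + 2 * D10)) + mx ≤ rb := h5
    have h7 : L0 * (A01 + 2 * D01) ≤ L0 * mnb (2 * k) (mu0 - (P + m0)) :=
      Nat.mul_le_mul_left _ (by rw [mnb_eq]; omega)
    have h8 := Nat.mul_le_mul_left W1 hy1
    omega
  · obtain ⟨y'', h6, h7⟩ := lpDM_TE C.t1 hy1 (by
      rw [mnb_eq]
      have : (mu0 - (P + m0)).div 2 = (mu0 - (P + m0)) / 2 := rfl
      omega) (by omega) (by omega) h5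
    rcases t2_true h7 with h8 | h8
    · have h9 : vb + (W0 * y' + L1 * (A10 + 2 * D10)) + (W1 * y'' + L0 * (A01 + 2 * D01)) ≤ rb := h8
      have h10 := Nat.mul_le_mul_left W1 h6
      omega
    · have h9 : lim ≤ lb + (A10 * hA0 + D10 * hD0) + (A01 * hA1 + D01 * hD1) := h8
      omega

/-- a pair of states from their data -/
noncomputable def pp (Rm Kc a0 a1 cP0 cA0 cD0 hA0 hD0 cP1 cA1 cD1 hA1 hD1 nt hPQ L0 L1 W0 W1 q0 q1 :
    ℕ) (h1 mu1 k1 v1 r1 g1 X1 ys1 cc0 vb1 rb1 h mu k v r g X ys cc1 vb0 rb0 : ℕ) : Bool :=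
  prM cP0 cA0 cD0 hA0 hD0 cP1 cA1 cD1 hA1 hD1 L0 L1 W0 W1 r g X q0 ys k1 cc0 r1 g1 X1 q1 ys1 k cc1
    (Nat.add vb0 vb1) (Nat.add rb0 rb1)
    (Nat.add (Nat.add (Nat.mul mu (Nat.sub (Nat.pred g) mu)) (Nat.mul mu1 (Nat.sub (Nat.pred g1) mu1)))
      (Nat.add (Nat.add nt (Nat.add v v1)) (Nat.add (Nat.mul 2 (Nat.mul h h1)) (Nat.succ Kc))))
    (Nat.add (Nat.mul Rm (Nat.add h h1))
      (Nat.add (Nat.mul 2 (Nat.add (Nat.mul h a1) (Nat.mul h1 a0))) hPQ))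
    (Nat.add (Nat.mul W1 ys1) (Nat.mul L0 (mnb (Nat.mul 2 k) cc1)))

/-- a state of row 0 goes to the list -/
noncomputable def g1 (W0 L0 k mu h v : ℕ) (K : Ac → Bool) (acc : Ac) (r g X ys cc vb rb : ℕ) :
    Bool :=
  K (stp (Nat.succ (Nat.sub (Nat.add 100000 (Nat.add vb (Nat.add (Nat.mul W0 ys)
    (Nat.mul L0 (mnb (Nat.mul 2 k) cc))))) rb)) h (ap h mu k v r g X ys cc vb rb) acc)

/-- a state of row 0 goes to the list -/
noncomputable def g0 (P den be L0 V0 W0 k mu h m v : ℕ) (K : Ac → Bool) (acc : Ac)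
    (r g X ys : ℕ) : Bool :=
  g1 W0 L0 k mu h v K acc r g X ys (Nat.sub mu (Nat.add P m))
    (Nat.add (Nat.mul den h) (Nat.mul L0 (Nat.add P m)))
    (Nat.add be (Nat.add (Nat.mul L0 mu) (Nat.mul V0 m)))

/-- the data of row 1 -/
abbrev Td := ℕ → ℕ → ℕ → ℕ → ℕ → ℕ → ℕ → ℕ → ℕ → ℕ → ℕ → Sd

/-- a state of row 1 runs over the list -/
noncomputable def e1 (W1 L1 H k mu h v : ℕ) (T : Td) (acc : Ac) (r g X ys cc vb rb : ℕ) : Bool :=
  acc (Nat.sub (Nat.add rb 100001) (Nat.add vb (Nat.add (Nat.mul W1 ys)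
    (Nat.mul L1 (mnb (Nat.mul 2 k) cc))))) (Nat.sub (Nat.succ H) h) (T h mu k v r g X ys cc vb rb)

/-- a state of row 1 runs over the list -/
noncomputable def e0 (Q den L1 V1 W1 H : ℕ) (T : Td) (acc : Ac) (k mu h m v r g X ys : ℕ) : Bool :=
  e1 W1 L1 H k mu h v T acc r g X ys (Nat.sub mu (Nat.add Q m))
    (Nat.add (Nat.mul den h) (Nat.mul L1 (Nat.add Q m))) (Nat.add (Nat.mul L1 mu) (Nat.mul V1 m))

/-- `s1` with its numbers -/
abbrev Ts := ℕ → ℕ → ℕ → ℕ → ℕ → Bool → (ℕ → ℕ → ℕ → ℕ → Bool) → Bool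

/-- row 0, one state -/
noncomputable def l0 (S : Ts)
    (E : ℕ → ℕ → ℕ → ℕ → ℕ → (Ac → Bool) → Ac → ℕ → ℕ → ℕ → ℕ → Bool) (k mu h m v : ℕ)
    (K : Ac → Bool) (acc : Ac) : Bool :=
  S k mu h m v (K acc) (E k mu h m v K acc)

/-- row 0, all `m` -/
noncomputable def l1 (S : Ts)
    (E : ℕ → ℕ → ℕ → ℕ → ℕ → (Ac → Bool) → Ac → ℕ → ℕ → ℕ → ℕ → Bool)
    (PT : ℕ → ℕ → Bool → Bool → Bool) (nt : List ℕ) (k mu h : ℕ) (K : Ac → Bool) (acc : Ac) :
    Bool :=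
  PT mu h (K acc) (lsC (l0 S E k mu h) nt 0 K acc)

/-- row 0, `mu = ua + j` -/
noncomputable def l2 (S : Ts)
    (E : ℕ → ℕ → ℕ → ℕ → ℕ → (Ac → Bool) → Ac → ℕ → ℕ → ℕ → ℕ → Bool)
    (PT : ℕ → ℕ → Bool → Bool → Bool) (nt : List ℕ) (ua k j : ℕ) (K : Ac → Bool) (acc : Ac) :
    Bool :=
  l1 S E PT nt k (Nat.add ua j) (Nat.add (Nat.add ua j) k) K acc

/-- row 0, `k = ka + i` -/
noncomputable def l3 (S : Ts)
    (E : ℕ → ℕ → ℕ → ℕ → ℕ → (Ac → Bool) → Ac → ℕ → ℕ → ℕ → ℕ → Bool)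
    (PT : ℕ → ℕ → Bool → Bool → Bool) (nt : List ℕ) (ka ua nu i : ℕ) (K : Ac → Bool) (acc : Ac) :
    Bool :=
  forC (l2 S E PT nt ua (Nat.add ka i)) nu K acc

/-- row 1, one state -/
noncomputable def r0 (S : Ts) (E : ℕ → ℕ → ℕ → ℕ → ℕ → ℕ → ℕ → ℕ → ℕ → Bool)
    (k mu h m v : ℕ) : Bool :=
  S k mu h m v true (E k mu h m v)

/-- row 1, all `m` -/
noncomputable def r1 (S : Ts) (E : ℕ → ℕ → ℕ → ℕ → ℕ → ℕ → ℕ → ℕ → ℕ → Bool)
    (PT : ℕ → ℕ → Bool → Bool → Bool) (nt : List ℕ) (k mu h : ℕ) : Bool :=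
  PT mu h true (lsM (r0 S E k mu h) nt 0)

/-- row 1, `mu = ua + j` -/
noncomputable def r2 (S : Ts) (E : ℕ → ℕ → ℕ → ℕ → ℕ → ℕ → ℕ → ℕ → ℕ → Bool)
    (PT : ℕ → ℕ → Bool → Bool → Bool) (nt : List ℕ) (ua k j : ℕ) : Bool :=
  r1 S E PT nt k (Nat.add ua j) (Nat.add (Nat.add ua j) k)

/-- row 1, `k = ka + i` -/
noncomputable def r3 (S : Ts) (E : ℕ → ℕ → ℕ → ℕ → ℕ → ℕ → ℕ → ℕ → ℕ → Bool)
    (PT : ℕ → ℕ → Bool → Bool → Bool) (nt : List ℕ) (ka ua nu i : ℕ) : Bool :=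
  allN (r2 S E PT nt ua (Nat.add ka i)) nu

/-- never -/
noncomputable def fl : Sd := fun _ _ _ _ _ _ _ _ _ _ _ => false

/-- row 1: the list may be empty -/
noncomputable def r4 (S : Ts) (E : Ac → ℕ → ℕ → ℕ → ℕ → ℕ → ℕ → ℕ → ℕ → ℕ → Bool)
    (PT : ℕ → ℕ → Bool → Bool → Bool) (nt : List ℕ) (H ka nk ua nu : ℕ) (acc : Ac) : Bool :=
  orb (acc 0 (Nat.succ H) fl) (allN (r3 S (E acc) PT nt ka ua nu) nk)

/-- **the check of the block** for `P` and `Q` PC pairs in the cell: the states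
`k ∈ [ka, ka + nk)`, `mu ∈ [ua, ua + nu)`, `P + m ∈ [Ma, Mb]` of row 0, the same for row 1 -/
noncomputable def chkM (R2 Rm Kc a0 a1 nm cP0 cA0 cD0 hA0 hD0 cP1 cA1 cD1 hA1 hD1 H G0 G1 : ℕ)
    (nt0 nt1 : List ℕ) (P Q x0 x1 nt hPQ den be L0 L1 V0 V1 W0 W1 : ℕ)
    (ka nk ua nu ka1 nk1 ua1 nu1 Ma Mb Ma1 Mb1 nx0 nx1 : ℕ) : Bool :=
  forC (l3 (s1 R2 a0 nm cP0 P Q x0 G0 Ma Mb) (g0 P den be L0 V0 W0) (pt R2 a0 x0 nx0 H) nt0 ka ua
      nu) nk
    (r4 (s1 R2 a1 nm cP1 Q P x1 G1 Ma1 Mb1)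
      (e0 Q den L1 V1 W1 H (pp Rm Kc a0 a1 cP0 cA0 cD0 hA0 hD0 cP1 cA1 cD1 hA1 hD1 nt hPQ L0 L1
        W0 W1 (Nat.mul 2 Q) (Nat.mul 2 P)))
      (pt R2 a1 x1 nx1 H) nt1 H ka1 nk1 ua1 nu1) nl

/-- the state of row 0 is in the list -/
def Hs (k mu h v r g X cc vb rb W0 L0 y0 : ℕ) (acc : Ac) : Prop :=
  ∃ ys, y0 ≤ ys ∧ ∀ t hh S, acc t hh S = true →
    (Nat.succ (Nat.sub (Nat.add 100000 (Nat.add vb (Nat.add (Nat.mul W0 ys)
      (Nat.mul L0 (mnb (Nat.mul 2 k) cc))))) rb) ≤ t ∨ hh ≤ h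
      ∨ S h mu k v r g X ys cc vb rb = true)

lemma Hs_mono (k mu h v r g X cc vb rb W0 L0 y0 : ℕ) (a b : Ac) (hl : Le a b)
    (ha : Hs k mu h v r g X cc vb rb W0 L0 y0 a) : Hs k mu h v r g X cc vb rb W0 L0 y0 b := by
  obtain ⟨ys, h1, h2⟩ := ha
  exact ⟨ys, h1, fun t hh S h => h2 t hh S (hl t hh S h)⟩

lemma st_l0 (R2 a nm c Pn Qn x G Ma Mb P den be L0 V0 W0 k mu h m v : ℕ) :
    St (l0 (s1 R2 a nm c Pn Qn x G Ma Mb) (g0 P den be L0 V0 W0) k mu h m v) := by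
  intro K acc hc
  rcases s1_or hc with h1 | ⟨r, g, X, y, h1⟩
  · exact ⟨acc, fun _ _ _ h => h, h1⟩
  · exact ⟨_, fun t hh S h => (stp_true h).1, h1⟩

lemma st_l2 (R2 a nm c Pn Qn x G Ma Mb P den be L0 V0 W0 nx H : ℕ) (nt : List ℕ)
    (ua k j : ℕ) :
    St (l2 (s1 R2 a nm c Pn Qn x G Ma Mb) (g0 P den be L0 V0 W0) (pt R2 a x nx H) nt ua k j) := by
  intro K acc hc
  rcases pt_or hc with h1 | h1
  · exact ⟨acc, fun _ _ _ h => h, h1⟩
  · exact lsC_st (fun i v => st_l0 _ _ _ _ _ _ _ _ _ _ _ _ _ _ _ _ _ _ _ _ _) nt 0 K acc h1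

lemma st_l3 (R2 a nm c Pn Qn x G Ma Mb P den be L0 V0 W0 nx H : ℕ) (nt : List ℕ)
    (ka ua nu i : ℕ) :
    St (l3 (s1 R2 a nm c Pn Qn x G Ma Mb) (g0 P den be L0 V0 W0) (pt R2 a x nx H) nt ka ua nu i) :=
  fun K acc hc => forC_st (fun _ => st_l2 _ _ _ _ _ _ _ _ _ _ _ _ _ _ _ _ _ _ _ _ _ _) nu K acc hc

/-- **the block of two hosts**, fast form -/
theorem chkM_sound {R2 Rm Kc a0 a1 nm cP0 cA0 cD0 hP0 hA0 hD0 cP1 cA1 cD1 hP1 hA1 hD1 H G0 G1 : ℕ}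
    {nt0 nt1 : List ℕ} {P Q x0 x1 nt : ℕ}
    {h0 mu0 k h1 mu1 k1 m0 m1 A01 D01 A10 D10 y0 y1 : ℕ}
    (C : TwoE R2 Rm Kc a0 a1 nm cP0 cA0 cD0 hP0 hA0 hD0 cP1 cA1 cD1 hP1 hA1 hD1 H G0 G1
      nt0 nt1 P Q x0 x1 nt h0 mu0 k h1 mu1 k1 m0 m1 A01 D01 A10 D10 y0 y1)
    {den be L0 L1 V0 V1 W0 W1 ka nk ua nu ka1 nk1 ua1 nu1 Ma Mb Ma1 Mb1 nx0 nx1 : ℕ}
    (hk0 : ka ≤ k) (hk0' : k < ka + nk) (hu0 : ua ≤ mu0) (hu0' : mu0 < ua + nu)
    (hk : ka1 ≤ k1) (hk' : k1 < ka1 + nk1) (hu : ua1 ≤ mu1) (hu' : mu1 < ua1 + nu1)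
    (hM0 : Ma ≤ P + m0) (hM0' : P + m0 ≤ Mb) (hM1 : Ma1 ≤ Q + m1) (hM1' : Q + m1 ≤ Mb1)
    (hx0 : nt0[m0]'C.ml0 ≤ nx0) (hx1 : nt1[m1]'C.ml1 ≤ nx1)
    (hc : chkM R2 Rm Kc a0 a1 nm cP0 cA0 cD0 hA0 hD0 cP1 cA1 cD1 hA1 hD1 H G0 G1 nt0 nt1
      P Q x0 x1 nt (P * hP1 + Q * hP0) den be L0 L1 V0 V1 W0 W1 ka nk ua nu ka1 nk1 ua1 nu1
      Ma Mb Ma1 Mb1 nx0 nx1 = true) :
    den * (h0 + h1) + (W0 * y0 + W1 * y1) + L0 * (P + m0 + A01 + 2 * D01)
        + L1 * (Q + m1 + A10 + 2 * D10)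
      ≤ be + L0 * mu0 + L1 * mu1 + (V0 * m0 + V1 * m1) := by
  have c0 := C.cap0
  have c1 := C.cap1
  have v0 := C.vc0
  have v1 := C.vc1
  have hg0 := C.g0
  have hg1 := C.g1
  have hH := C.hH
  have ee0 := C.e0
  have ee1 := C.e1
  have pv0 := C.prv0
  have pv1 := C.prv1
  have mp0 := C.mup0
  have mp1 := C.mup1
  -- row 0
  have key0 : StH (Hs k mu0 h0 (nt0[m0]'C.ml0)
      (mu0 * (2 * h0 - 1 - mu0) + (x0 + nt0[m0]'C.ml0 + R2 * a0)) (2 * h0)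
      (R2 * h0 + Q * cP0) (mu0 - (P + m0)) (den * h0 + L0 * (P + m0))
      (be + (L0 * mu0 + V0 * m0)) W0 L0 y0)
      (l0 (s1 R2 a0 nm cP0 P Q x0 G0 Ma Mb) (g0 P den be L0 V0 W0) k mu0 h0 (0 + m0)
        (nt0[m0]'C.ml0)) := by
    intro K acc h2
    rw [Nat.zero_add] at h2
    obtain ⟨y', h3, h4⟩ := s1_sound (by exact h2) C.t0 (by omega) (by omega) (by omega) (by omega)
      hg0
    exact ⟨_, ⟨y', h3, fun t hh S h5 => (stp_true h5).2⟩, fun t hh S h5 => (stp_true h5).1, h4⟩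
  have key1 : StH (Hs k mu0 h0 (nt0[m0]'C.ml0)
      (mu0 * (2 * h0 - 1 - mu0) + (x0 + nt0[m0]'C.ml0 + R2 * a0)) (2 * h0)
      (R2 * h0 + Q * cP0) (mu0 - (P + m0)) (den * h0 + L0 * (P + m0))
      (be + (L0 * mu0 + V0 * m0)) W0 L0 y0)
      (l2 (s1 R2 a0 nm cP0 P Q x0 G0 Ma Mb) (g0 P den be L0 V0 W0) (pt R2 a0 x0 nx0 H) nt0 ua k
        (mu0 - ua)) := by
    intro K acc h2
    have e1 : Nat.add ua (mu0 - ua) = mu0 := by
      show ua + (mu0 - ua) = mu0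
      omega
    have e2 : Nat.add mu0 k = h0 := by
      show mu0 + k = h0
      omega
    unfold l2 at h2
    rw [e1, e2] at h2
    have h3 := pt_sound h2 C.t0 hx0 (by omega) (by omega)
    exact lsC_sth (Hs_mono _ _ _ _ _ _ _ _ _ _ _ _ _)
      (f := l0 (s1 R2 a0 nm cP0 P Q x0 G0 Ma Mb) (g0 P den be L0 V0 W0) k mu0 h0)
      (fun i v => st_l0 _ _ _ _ _ _ _ _ _ _ _ _ _ _ _ _ _ _ _ _ _) nt0 0 m0 C.ml0 key0 K acc h3
  have key2 : StH (Hs k mu0 h0 (nt0[m0]'C.ml0)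
      (mu0 * (2 * h0 - 1 - mu0) + (x0 + nt0[m0]'C.ml0 + R2 * a0)) (2 * h0)
      (R2 * h0 + Q * cP0) (mu0 - (P + m0)) (den * h0 + L0 * (P + m0))
      (be + (L0 * mu0 + V0 * m0)) W0 L0 y0)
      (l3 (s1 R2 a0 nm cP0 P Q x0 G0 Ma Mb) (g0 P den be L0 V0 W0) (pt R2 a0 x0 nx0 H) nt0 ka ua
        nu (k - ka)) := by
    intro K acc h2
    have e1 : Nat.add ka (k - ka) = k := by
      show ka + (k - ka) = k
      omega
    unfold l3 at h2
    rw [e1] at h2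
    exact forC_sth (Hs_mono _ _ _ _ _ _ _ _ _ _ _ _ _)
      (f := l2 (s1 R2 a0 nm cP0 P Q x0 G0 Ma Mb) (g0 P den be L0 V0 W0) (pt R2 a0 x0 nx0 H) nt0 ua k)
      (i := mu0 - ua)
      (fun _ => st_l2 _ _ _ _ _ _ _ _ _ _ _ _ _ _ _ _ _ _ _ _ _ _) key1 nu (by omega) K acc h2
  obtain ⟨acc, ⟨ys, hys, hS⟩, -, hc2⟩ := forC_sth (Hs_mono _ _ _ _ _ _ _ _ _ _ _ _ _)
    (f := l3 (s1 R2 a0 nm cP0 P Q x0 G0 Ma Mb) (g0 P den be L0 V0 W0) (pt R2 a0 x0 nx0 H) nt0 ka ua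
      nu) (i := k - ka)
    (fun _ => st_l3 _ _ _ _ _ _ _ _ _ _ _ _ _ _ _ _ _ _ _ _ _ _ _) key2 nk (by omega) _ _ hc
  -- row 1
  unfold r4 at hc2
  rcases orb_true hc2 with h2 | h2
  · exfalso
    rcases hS _ _ _ h2 with h3 | h3 | h3
    · omega
    · have h4 : H + 1 ≤ h0 := h3
      omega
    · exact Bool.false_ne_true h3
  have h3 := allN_sound h2 (k1 - ka1) (by omega)
  have e1 : Nat.add ka1 (k1 - ka1) = k1 := by
    show ka1 + (k1 - ka1) = k1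
    omega
  unfold r3 at h3
  rw [e1] at h3
  have h4 := allN_sound h3 (mu1 - ua1) (by omega)
  have e2 : Nat.add ua1 (mu1 - ua1) = mu1 := by
    show ua1 + (mu1 - ua1) = mu1
    omega
  have e3 : Nat.add mu1 k1 = h1 := by
    show mu1 + k1 = h1
    omega
  unfold r2 at h4
  rw [e2, e3] at h4
  have h5 := pt_sound h4 C.t1 hx1 (by omega) (by omega)
  have h6 := lsM_sound _ _ h5 m1 C.ml1
  rw [Nat.zero_add] at h6
  obtain ⟨ys1, h7, h8⟩ := s1_sound h6 C.t1 (by omega) (by omega) (by omega) (by omega) hg1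
  have k0' : L0 * (A01 + 2 * D01) ≤ L0 * mnb (2 * k) (mu0 - (P + m0)) :=
    Nat.mul_le_mul_left _ (by rw [mnb_eq]; omega)
  have k1' : L1 * (A10 + 2 * D10) ≤ L1 * mnb (2 * k1) (mu1 - (Q + m1)) :=
    Nat.mul_le_mul_left _ (by rw [mnb_eq]; omega)
  have k2 : W0 * y0 ≤ W0 * ys := Nat.mul_le_mul_left _ hys
  have k3 : W1 * y1 ≤ W1 * ys1 := Nat.mul_le_mul_left _ h7
  have e4 : L0 * (P + m0 + A01 + 2 * D01) = L0 * (P + m0) + L0 * (A01 + 2 * D01) := by ring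
  have e5 : L1 * (Q + m1 + A10 + 2 * D10) = L1 * (Q + m1) + L1 * (A10 + 2 * D10) := by ring
  have e6 : den * (h0 + h1) = den * h0 + den * h1 := by ring
  rw [e4, e5, e6]
  rcases hS _ _ _ h8 with h9 | h9 | h9
  · have h10 : 100000 + (den * h0 + L0 * (P + m0) + (W0 * ys + L0 * mnb (2 * k) (mu0 - (P + m0))))
        - (be + (L0 * mu0 + V0 * m0)) + 1
        ≤ (L1 * mu1 + V1 * m1) + 100001 - (den * h1 + L1 * (Q + m1)
          + (W1 * ys1 + L1 * mnb (2 * k1) (mu1 - (Q + m1)))) := h9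
    omega
  · have h10 : H + 1 - h1 ≤ h0 := h9
    omega
  · have h10 : den * h0 + L0 * (P + m0) + (den * h1 + L1 * (Q + m1)) + W0 * y0
        + L1 * (A10 + 2 * D10) + W1 * y1 + L0 * (A01 + 2 * D01)
        ≤ be + (L0 * mu0 + V0 * m0) + (L1 * mu1 + V1 * m1) := by
      refine prM_sound C (ys0 := ys) (ys1 := ys1) hys h7 ?_ ?_ ?_ h9
      · show Rm * (h0 + h1) + (2 * (h0 * a1 + h1 * a0) + (P * hP1 + Q * hP0)) = _
        ring
      · show mu0 * (2 * h0 - 1 - mu0) + mu1 * (2 * h1 - 1 - mu1)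
          + (nt + (nt0[m0]'C.ml0 + nt1[m1]'C.ml1) + (2 * (h0 * h1) + (Kc + 1))) = _
        ring
      · rfl
    omega

/-- **the check of the block of a node**: `blkOk` with the numbers of PC pairs of the two rows in
`[Ma, Mb]` and `[Ma1, Mb1]` -/
noncomputable def blkOkM (R H a b B m01 m10 G : ℕ) (nt0 nt1 : List ℕ)
    (den be L0 L1 V0 V1 W0 W1 ka nk ua nu ka1 nk1 ua1 nu1 Ma Mb Ma1 Mb1 : ℕ) : Bool :=
  anb (Nat.ble (Nat.succ (Nat.add (Nat.mul a b) (Nat.mul (Nat.succ G) (Nat.succ G))))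
      (Nat.mul G R))
    (frN (Nat.sub R a) fun c0 => frN (Nat.sub R b) fun c1 => frN (Nat.sub c0 m10) fun w0 =>
      frN (Nat.sub c1 m01) fun w1 => frN (Nat.mul 2 R) fun R2 => frN (Nat.mul 2 (Nat.pred R)) fun Rm =>
      frN (Nat.succ a) fun a0 => frN (Nat.succ b) fun a1 =>
      frN (Nat.add (Nat.mul 2 (Nat.succ R)) (Nat.add (Nat.mul 2 (Nat.mul a0 a1))
        (Nat.mul Rm (Nat.add a0 a1)))) fun Kc =>
      frN (Nat.mul 2 c0) fun hP0 => frN (Nat.mul 2 w0) fun hA0 => frN (Nat.add hP0 hA0) fun hD0 =>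
      frN (Nat.mul 2 c1) fun hP1 => frN (Nat.mul 2 w1) fun hA1 => frN (Nat.add hP1 hA1) fun hD1 =>
      frN (Nat.add hP0 (Nat.mul 4 a)) fun cP0 => frN (Nat.add hA0 (Nat.mul 4 a)) fun cA0 =>
      frN (Nat.add hD0 (Nat.mul 6 a)) fun cD0 => frN (Nat.add hP1 (Nat.mul 4 b)) fun cP1 =>
      frN (Nat.add hA1 (Nat.mul 4 b)) fun cA1 => frN (Nat.add hD1 (Nat.mul 6 b)) fun cD1 =>
      frN (mxl nt0) fun nx0 => frN (mxl nt1) fun nx1 =>
      allN (fun P => allN (fun Q =>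
        orb (Nat.ble (Nat.succ G) (Nat.add P Q))
          (orb (Nat.ble (Nat.succ (Nat.add (Nat.mul a b) (Nat.mul (Nat.add P Q) (Nat.add P Q))))
            (Nat.mul (Nat.pred (Nat.add P Q)) R))
            (frN (Bk.fx R (Nat.mul a b) P) fun x0 => frN (Bk.fx R (Nat.mul a b) Q) fun x1 =>
              frN (Bk.nt P Q) fun nt => frN (Nat.add (Nat.mul P hP1) (Nat.mul Q hP0)) fun hPQ =>
              chkM R2 Rm Kc a0 a1 (Nat.succ B) cP0 cA0 cD0 hA0 hD0 cP1 cA1 cD1 hA1 hD1 H B B nt0 nt1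
                P Q x0 x1 nt hPQ den be L0 L1 V0 V1 W0 W1 ka nk ua nu ka1 nk1 ua1 nu1
                Ma Mb Ma1 Mb1 nx0 nx1)))
        (Nat.succ G)) (Nat.succ G))

section Main

variable {R n : ℕ} {t h mu : ℕ → ℕ} {q : ℕ → ℕ → ℕ} {s e : ℕ → ℤ} {P A D : ℕ → ℕ → ℕ}
  {N W : ℕ → ℕ → ℤ}

lemma jE {J h' : ℕ} : J * (2 * h' + (J - 1)) ≤ J * (2 * h' + J - 1) := by
  rcases Nat.eq_zero_or_pos J with h1 | h1
  · subst h1
    simp
  · exact Nat.mul_le_mul_left _ (by omega)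

lemma TE0 (H : Bk.Wd R n t h mu q s e P A D N W) {y x0 v : ℕ}
    (hE : 2 * e 0 ≤ ((mu 0 * (2 * h 0 - 1 - mu 0) + (x0 + v) : ℕ) : ℤ))
    (hy : ∑ z ∈ Ico 2 n, P z 0 = y) {c0 w0 : ℕ} (hc : c0 = R - t 0) (hw : w0 = Bk.w R t q 1 0) :
    TE (2 * R) (t 0 + 1) (2 * c0 + 4 * t 0) (2 * w0 + 4 * t 0) (2 * c0 + 2 * w0 + 6 * t 0)
      (P 1 0) y (A 1 0) (D 1 0) (mu 0) (h 0) (x0 + v) := by
  intro b hb i hi l hl
  have hn := H.n3
  have h1 := H.T0 hE (b := b) (by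
    rw [sumN0 (by omega), hy]
    exact hb) (a := i) (d := l) (c := 0) hi (by omega)
  have h2 := jE (J := 2 * b + 2 * i + 3 * l) (h' := h 0)
  rw [← hc, ← hw] at h1
  have h3 : 2 * b + (2 * (i + 0) + 3 * l) = 2 * b + 2 * i + 3 * l := by ring
  rw [h3] at h1
  have h4 : 2 * R * h 0 + b * (2 * c0 + 4 * t 0) + i * (2 * w0 + 4 * t 0)
      + l * (2 * c0 + 2 * w0 + 6 * t 0)
      = 2 * (R * h 0 + (b * c0 + (0 * c0 + i * w0 + l * (c0 + w0)))
        + (2 * b + 2 * i + 3 * l) * t 0) := by ring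
  rw [h4]
  refine h1.trans ?_
  omega

lemma TE1 (H : Bk.Wd R n t h mu q s e P A D N W) {y x1 v : ℕ}
    (hE : 2 * e 1 ≤ ((mu 1 * (2 * h 1 - 1 - mu 1) + (x1 + v) : ℕ) : ℤ))
    (hy : ∑ z ∈ Ico 2 n, P z 1 = y) {c1 w1 : ℕ} (hc : c1 = R - t 1) (hw : w1 = Bk.w R t q 0 1) :
    TE (2 * R) (t 1 + 1) (2 * c1 + 4 * t 1) (2 * w1 + 4 * t 1) (2 * c1 + 2 * w1 + 6 * t 1)
      (P 0 1) y (A 0 1) (D 0 1) (mu 1) (h 1) (x1 + v) := by
  intro b hb i hi l hl
  have hn := H.n3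
  have h1 := H.T1 hE (b := b) (by
    rw [sumN1 (by omega), hy]
    exact hb) (a := i) (d := l) (c := 0) hi (by omega)
  have h2 := jE (J := 2 * b + 2 * i + 3 * l) (h' := h 1)
  rw [← hc, ← hw] at h1
  have h3 : 2 * b + (2 * (i + 0) + 3 * l) = 2 * b + 2 * i + 3 * l := by ring
  rw [h3] at h1
  have h4 : 2 * R * h 1 + b * (2 * c1 + 4 * t 1) + i * (2 * w1 + 4 * t 1)
      + l * (2 * c1 + 2 * w1 + 6 * t 1)
      = 2 * (R * h 1 + (b * c1 + (0 * c1 + i * w1 + l * (c1 + w1)))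
        + (2 * b + 2 * i + 3 * l) * t 1) := by ring
  rw [h4]
  refine h1.trans ?_
  omega

/-- **the block inequality of a node** -/
theorem blockM (C : Bk.Wd R n t h mu q s e P A D N W) {Hh a b B tm m01 m10 G : ℕ}
    {al0 bt0 al0' bt0' al1 bt1 al1' bt1' : ℕ} {nt0 nt1 : List ℕ}
    (ha : t 0 = a) (hb : t 1 = b) (h01 : q 0 1 = m01) (h10 : q 1 0 = m10)
    (hH : h 0 + h 1 ≤ Hh) (htm : ∀ z ∈ Ico 2 n, t z ≤ tm)
    (hB : ∑ z ∈ Ico 2 n, (t z + 1) ≤ B)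
    (g0 : gcp R a tm = true) (g1 : gcp R b tm = true)
    (ok0 : ntOk R a tm B al0 bt0 al0' bt0' nt0 = true)
    (ok1 : ntOk R b tm B al1 bt1 al1' bt1' nt1 = true)
    (l0 : B < nt0.length) (l1 : B < nt1.length) (hG : G ≤ 5)
    {den be L0 L1 V0 V1 W0 W1 ka nk ua nu ka1 nk1 ua1 nu1 Ma Mb Ma1 Mb1 : ℕ}
    (hk0 : mu 0 + ka ≤ h 0) (hk0' : h 0 < mu 0 + (ka + nk)) (hu0 : ua ≤ mu 0)
    (hu0' : mu 0 < ua + nu) (hk1 : mu 1 + ka1 ≤ h 1) (hk1' : h 1 < mu 1 + (ka1 + nk1))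
    (hu1 : ua1 ≤ mu 1) (hu1' : mu 1 < ua1 + nu1)
    (hM : Ma ≤ P 0 1 + ∑ z ∈ Ico 2 n, P 0 z) (hM' : P 0 1 + ∑ z ∈ Ico 2 n, P 0 z ≤ Mb)
    (hM1 : Ma1 ≤ P 1 0 + ∑ z ∈ Ico 2 n, P 1 z) (hM1' : P 1 0 + ∑ z ∈ Ico 2 n, P 1 z ≤ Mb1)
    (hc : blkOkM R Hh a b B m01 m10 G nt0 nt1 den be L0 L1 V0 V1 W0 W1 ka nk ua nu ka1 nk1 ua1 nu1
      Ma Mb Ma1 Mb1 = true) :
    den * (h 0 + h 1) + (W0 * ∑ z ∈ Ico 2 n, P z 0 + W1 * ∑ z ∈ Ico 2 n, P z 1)
      + (L0 * (P 0 1 + ∑ z ∈ Ico 2 n, P 0 z + A 0 1 + 2 * D 0 1)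
        + L1 * (P 1 0 + ∑ z ∈ Ico 2 n, P 1 z + A 1 0 + 2 * D 1 0))
      ≤ be + (L0 * mu 0 + L1 * mu 1)
        + (V0 * ∑ z ∈ Ico 2 n, P 0 z + V1 * ∑ z ∈ Ico 2 n, P 1 z) := by
  have hn := C.n3
  obtain ⟨hc1, hc2⟩ := anb_true hc
  have hG1 : a * b + (G + 1) * (G + 1) + 1 ≤ G * R := Nat.le_of_ble_eq_true hc1
  have hPQ : P 0 1 + P 1 0 ≤ G := by
    by_contra hcon
    push Not at hcon
    have h1 := C.C.jn 0 (by omega) 1 (by omega) (by norm_num) (G + 1) (by omega)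
    have h2 : (((G + 1 : ℕ) : ℤ) - 1) * R ≤ (t 0 : ℤ) * t 1 + ((G + 1 : ℕ) : ℤ) ^ 2 := h1
    rw [ha, hb] at h2
    zify at hG1
    push_cast at h2
    linarith
  have g0' : gcp R (t 0) tm = true := by rw [ha]; exact g0
  have g1' : gcp R (t 1) tm = true := by rw [hb]; exact g1
  have s0 := sum_g C (x := 0) (by norm_num) g0' htm hB
  have s1 := sum_g C (x := 1) (by norm_num) g1' htm hB
  obtain ⟨m0, hm0⟩ : ∃ m, m = ∑ z ∈ Ico 2 n, P 0 z := ⟨_, rfl⟩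
  obtain ⟨m1, hm1⟩ : ∃ m, m = ∑ z ∈ Ico 2 n, P 1 z := ⟨_, rfl⟩
  obtain ⟨y0, hy0⟩ : ∃ m, m = ∑ z ∈ Ico 2 n, P z 0 := ⟨_, rfl⟩
  obtain ⟨y1, hy1⟩ : ∃ m, m = ∑ z ∈ Ico 2 n, P z 1 := ⟨_, rfl⟩
  rw [← hm0, ← hy0] at s0
  rw [← hm1, ← hy1] at s1
  rw [← hm0, ← hm1, ← hy0, ← hy1]
  rw [← hm0] at hM hM'
  rw [← hm1] at hM1 hM1'
  have ml0 : m0 < nt0.length := by omega
  have ml1 : m1 < nt1.length := by omega
  have n0 := nt_le C (x := 0) (by norm_num) g0' (nt := nt0) (by rw [ha]; exact ok0) htm hB hm0.symm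
    ml0
  have n1 := nt_le C (x := 1) (by norm_num) g1' (nt := nt1) (by rw [hb]; exact ok1) htm hB hm1.symm
    ml1
  have mh0 : mu 0 ≤ h 0 := by exact_mod_cast C.C.muh 0 (by omega)
  have mh1 : mu 1 ≤ h 1 := by exact_mod_cast C.C.muh 1 (by omega)
  have e0 := C.C.en 0 (by omega)
  rw [LdG.sum_er0 (by omega)] at e0
  have e1 := C.C.en 1 (by omega)
  rw [LdG.sum_er1 (by omega)] at e1
  have f0 := C.fx_spec (show 0 < n by omega) (show 1 < n by omega) (by norm_num)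
  have f1 := C.fx_spec (show 1 < n by omega) (show 0 < n by omega) (by norm_num)
  rw [ha, hb] at f0 f1
  rw [Nat.mul_comm b a] at f1
  have E0 : 2 * e 0 ≤ ((mu 0 * (2 * h 0 - 1 - mu 0) + (Bk.fx R (a * b) (P 0 1) + nt0[m0]) : ℕ) : ℤ) :=
    en_le mh0 e0 (by push_cast; linarith)
  have E1 : 2 * e 1 ≤ ((mu 1 * (2 * h 1 - 1 - mu 1) + (Bk.fx R (a * b) (P 1 0) + nt1[m1]) : ℕ) : ℤ) :=
    en_le mh1 e1 (by push_cast; linarith)
  have F0 : 2 * e 0 ≤ ((mu 0 * (2 * h 0 - 1 - mu 0) + nt0[m0] : ℕ) : ℤ) + N 0 1 := by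
    have := en_le mh0 (E := 2 * e 0 - N 0 1) (X := ∑ z ∈ Ico 2 n, N 0 z) (by
      have := e0
      linarith) n0
    linarith
  have F1 : 2 * e 1 ≤ ((mu 1 * (2 * h 1 - 1 - mu 1) + nt1[m1] : ℕ) : ℤ) + N 1 0 := by
    have := en_le mh1 (E := 2 * e 1 - N 1 0) (X := ∑ z ∈ Ico 2 n, N 1 z) (by
      have := e1
      linarith) n1
    linarith
  have hld := C.LD (by omega) F0 F1
  have w01 : Bk.w R t q 0 1 = R - b - m01 := by
    unfold Bk.w
    rw [hb, h01]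
  have w10 : Bk.w R t q 1 0 = R - a - m10 := by
    unfold Bk.w
    rw [ha, h10]
  have T0 := TE0 C E0 hy0.symm (c0 := R - a) (w0 := R - a - m10) (by rw [ha]) w10.symm
  have T1 := TE1 C E1 hy1.symm (c1 := R - b) (w1 := R - b - m01) (by rw [hb]) w01.symm
  rw [w01, w10, ha, hb] at hld
  rw [ha] at T0
  rw [hb] at T1
  -- the check for the numbers of PC pairs
  simp only [frN_eq] at hc2
  have h3 := allN_sound hc2 (P 0 1) (by show P 0 1 < G + 1; omega)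
  have h4 := allN_sound h3 (P 1 0) (by show P 1 0 < G + 1; omega)
  rcases orb_true h4 with h5 | h5
  · have h6 : G + 1 ≤ P 0 1 + P 1 0 := Nat.le_of_ble_eq_true h5
    omega
  rcases orb_true h5 with h6 | h6
  · exfalso
    have h7 : a * b + (P 0 1 + P 1 0) * (P 0 1 + P 1 0) + 1 ≤ (P 0 1 + P 1 0 - 1) * R :=
      Nat.le_of_ble_eq_true h6
    rcases Nat.eq_zero_or_pos (P 0 1 + P 1 0) with h8 | h8
    · rw [h8] at h7
      simp at h7
    · have h9 := C.C.jn 0 (by omega) 1 (by omega) (by norm_num) (P 0 1 + P 1 0) le_rfl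
      have h10 : ((P 0 1 + P 1 0 - 1 : ℕ) : ℤ) = ((P 0 1 + P 1 0 : ℕ) : ℤ) - 1 := by
        rw [Nat.cast_sub h8]
        norm_num
      have h11 : (((P 0 1 + P 1 0 : ℕ) : ℤ) - 1) * R
          ≤ (t 0 : ℤ) * t 1 + ((P 0 1 + P 1 0 : ℕ) : ℤ) ^ 2 := h9
      rw [ha, hb] at h11
      have h12 : (a : ℤ) * b + ((P 0 1 + P 1 0 : ℕ) : ℤ) * ((P 0 1 + P 1 0 : ℕ) : ℤ) + 1
          ≤ (((P 0 1 + P 1 0 : ℕ) : ℤ) - 1) * R := by
        rw [← h10]
        exact_mod_cast h7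
      linarith
  have TR : TwoE (2 * R) (2 * (R - 1))
      (2 * (R + 1) + (2 * ((a + 1) * (b + 1)) + 2 * (R - 1) * (a + 1 + (b + 1)))) (a + 1) (b + 1)
      (B + 1) (2 * (R - a) + 4 * a) (2 * (R - a - m10) + 4 * a)
      (2 * (R - a) + 2 * (R - a - m10) + 6 * a) (2 * (R - a)) (2 * (R - a - m10))
      (2 * (R - a) + 2 * (R - a - m10)) (2 * (R - b) + 4 * b) (2 * (R - b - m01) + 4 * b)
      (2 * (R - b) + 2 * (R - b - m01) + 6 * b) (2 * (R - b)) (2 * (R - b - m01))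
      (2 * (R - b) + 2 * (R - b - m01)) Hh B B nt0 nt1 (P 0 1) (P 1 0)
      (Bk.fx R (a * b) (P 0 1)) (Bk.fx R (a * b) (P 1 0)) (Bk.nt (P 0 1) (P 1 0))
      (h 0) (mu 0) (h 0 - mu 0) (h 1) (mu 1) (h 1 - mu 1) m0 m1 (A 0 1) (D 0 1) (A 1 0) (D 1 0)
      y0 y1 := by
    have p0 := C.C.prt 0 (by omega) 1 (by omega) (by norm_num)
    have p1 := C.C.prt 1 (by omega) 0 (by omega) (by norm_num)
    have v0 := C.C.cap 0 (by omega) 1 (by omega) (by norm_num)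
    have v1 := C.C.cap 1 (by omega) 0 (by omega) (by norm_num)
    have r0 := C.C.prv 0 (by omega)
    have r1 := C.C.prv 1 (by omega)
    have u0 := C.C.mup 0 (by omega)
    have u1 := C.C.mup 1 (by omega)
    have a0 := C.C.hh 0 (by omega)
    have a1 := C.C.hh 1 (by omega)
    have hnB : (n : ℤ) - 1 ≤ B + 1 := by
      have h7 : (Ico 2 n).card • 1 ≤ ∑ x ∈ Ico 2 n, (t x + 1) :=
        card_nsmul_le_sum _ _ _ fun x _ => by omega
      rw [Nat.card_Ico, smul_eq_mul, mul_one] at h7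
      omega
    rw [LdG.sum_er0 (by omega) (fun z => (P 0 z : ℤ)), ← Nat.cast_sum, ← hm0] at v0 r0
    rw [LdG.sum_er1 (by omega) (fun z => (P 1 z : ℤ)), ← Nat.cast_sum, ← hm1] at v1 r1
    have k0 : ((h 0 - mu 0 : ℕ) : ℤ) = (h 0 : ℤ) - mu 0 := by rw [Nat.cast_sub mh0]
    have k1 : ((h 1 - mu 1 : ℕ) : ℤ) = (h 1 : ℤ) - mu 1 := by rw [Nat.cast_sub mh1]
    have q0 := mul_le_mul_of_nonneg_left hnB (show 0 ≤ (h 0 : ℤ) - mu 0 by omega)
    have q1 := mul_le_mul_of_nonneg_left hnB (show 0 ≤ (h 1 : ℤ) - mu 1 by omega)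
    refine ⟨by omega, by omega, hH, fun h7 => ?_, fun h7 => ?_, ?_, ?_, by omega, by omega,
      by omega, by omega, ml0, ml1, s0, s1, T0, T1, ?_⟩
    · have h8 : (1 : ℤ) ≤ mu 0 := u0 (by rw [ha] at a0; omega)
      omega
    · have h8 : (1 : ℤ) ≤ mu 1 := u1 (by rw [hb] at a1; omega)
      omega
    · zify
      rw [k0]
      linarith
    · zify
      rw [k1]
      linarith
    · have e3 : 2 * (R - 1) * (h 0 + h 1) + 2 * (h 0 * (b + 1) + h 1 * (a + 1))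
          + (P 0 1 * (2 * (R - b)) + P 1 0 * (2 * (R - a)))
          + (A 1 0 * (2 * (R - a - m10)) + D 1 0 * (2 * (R - a) + 2 * (R - a - m10)))
          + (A 0 1 * (2 * (R - b - m01)) + D 0 1 * (2 * (R - b) + 2 * (R - b - m01)))
          = 2 * ((R - 1) * (h 0 + h 1) + h 0 * (b + 1) + h 1 * (a + 1)
            + (P 0 1 * (R - b) + A 0 1 * (R - b - m01) + D 0 1 * (R - b + (R - b - m01)))
            + (P 1 0 * (R - a) + A 1 0 * (R - a - m10) + D 1 0 * (R - a + (R - a - m10)))) := by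
        ring
      rw [e3]
      refine hld.trans (le_of_eq ?_)
      ring
  have key := chkM_sound TR (den := den) (be := be) (L0 := L0) (L1 := L1) (V0 := V0) (V1 := V1)
    (W0 := W0) (W1 := W1) (ka := ka) (nk := nk) (ua := ua) (nu := nu) (ka1 := ka1) (nk1 := nk1)
    (ua1 := ua1) (nu1 := nu1) (Ma := Ma) (Mb := Mb) (Ma1 := Ma1) (Mb1 := Mb1) (nx0 := mxl nt0)
    (nx1 := mxl nt1) (by omega) (by omega) hu0 hu0' (by omega) (by omega) hu1 hu1' hM hM' hM1 hM1'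
    (le_mxl _ _ _) (le_mxl _ _ _) h6
  omega

end Main

end BlkM

end Pool.Agent.Lib.MP_f04ccf_co
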