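import Pool.Agent.Lib.MP_f04ccf_co.M.LdG

/-!
MP_f04ccf_co, PLAN W, block certificate: **the sum over the rows**.  The rows 0 and 1 are the block,
all others are rest rows.  Multipliers: `L0, L1` for one unit of the hosts 0, 1 in a rest row; `V0, V1`
for one PC pair of the hosts 0, 1 with tail in a rest row; `W0, W1` for one PC pair of a rest row with
tail 0, 1; `VC` for one PC pair between two rest rows.
`LdG.blk`: bounds for every rest row and for the block contradict `∑ s = 1`.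
-/

set_option autoImplicit false

namespace Pool.Agent.Lib.MP_f04ccf_co

open Finset

namespace LdG

variable {R : ℤ} {n : ℕ} {t s h e mu : ℕ → ℤ} {m : ℕ → ℕ → ℤ} {P A D : ℕ → ℕ → ℕ}
  {N W : ℕ → ℕ → ℤ}

/-- a sum over the rows different from 0 -/
lemma sum_er0 (n2 : 2 ≤ n) (f : ℕ → ℤ) :
    ∑ z ∈ (range n).erase 0, f z = f 1 + ∑ z ∈ Ico 2 n, f z := by
  have h1 : (range n).erase 0 = insert 1 (Ico 2 n) := by
    ext x
    simp only [mem_erase, mem_range, mem_insert, mem_Ico]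
    omega
  rw [h1, sum_insert (by simp)]

/-- a sum over the rows different from 1 -/
lemma sum_er1 (n2 : 2 ≤ n) (f : ℕ → ℤ) :
    ∑ z ∈ (range n).erase 1, f z = f 0 + ∑ z ∈ Ico 2 n, f z := by
  have h1 : (range n).erase 1 = insert 0 (Ico 2 n) := by
    ext x
    simp only [mem_erase, mem_range, mem_insert, mem_Ico]
    omega
  rw [h1, sum_insert (by simp)]

/-- a sum over all rows -/
lemma sum_all (n2 : 2 ≤ n) (f : ℕ → ℤ) :
    ∑ z ∈ range n, f z = f 0 + f 1 + ∑ z ∈ Ico 2 n, f z := by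
  have h1 : range n = insert 0 (insert 1 (Ico 2 n)) := by
    ext x
    simp only [mem_range, mem_insert, mem_Ico]
    omega
  rw [h1, sum_insert (by simp), sum_insert (by simp)]
  ring

/-- both ways -/
lemma sum_swap (S : Finset ℕ) (f : ℕ → ℕ → ℤ) :
    ∑ z ∈ S, ∑ y ∈ S.erase z, f y z = ∑ z ∈ S, ∑ y ∈ S.erase z, f z y := by
  rw [sum_sigma', sum_sigma']
  refine sum_bij' (fun p _ => ⟨p.2, p.1⟩) (fun p _ => ⟨p.2, p.1⟩) ?_ ?_ ?_ ?_ ?_
  · rintro ⟨z, y⟩ hp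
    simp only [mem_sigma, mem_erase] at hp ⊢
    exact ⟨hp.2.2, fun h1 => hp.2.1 h1.symm, hp.1⟩
  · rintro ⟨z, y⟩ hp
    simp only [mem_sigma, mem_erase] at hp ⊢
    exact ⟨hp.2.2, fun h1 => hp.2.1 h1.symm, hp.1⟩
  · rintro ⟨z, y⟩ _
    rfl
  · rintro ⟨z, y⟩ _
    rfl
  · rintro ⟨z, y⟩ _
    rfl

/-- **the sum over the rows** -/
theorem blk (C : LdG R n t s h e mu m P A D N W) (hs : ∑ i ∈ range n, s i = 1) (n2 : 2 ≤ n)
    {den al ga be L0 L1 V0 V1 W0 W1 VC : ℤ} (hL0 : 0 ≤ L0) (hL1 : 0 ≤ L1)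
    (rest : ∀ z ∈ Ico 2 n, den * h z + (L0 * ((A 0 z : ℤ) + 2 * D 0 z)
        + L1 * ((A 1 z : ℤ) + 2 * D 1 z))
        + (V0 * P 0 z + V1 * P 1 z + VC * ∑ y ∈ (Ico 2 n).erase z, (P y z : ℤ)) + ga
      ≤ (den + al) * (t z + 1)
        + (W0 * P z 0 + W1 * P z 1 + VC * ∑ y ∈ (Ico 2 n).erase z, (P z y : ℤ)))
    (block : den * (h 0 + h 1)
        + (W0 * ∑ z ∈ Ico 2 n, (P z 0 : ℤ) + W1 * ∑ z ∈ Ico 2 n, (P z 1 : ℤ))
      ≤ be + L0 * (mu 0 - P 0 1 - ∑ z ∈ Ico 2 n, (P 0 z : ℤ) - A 0 1 - 2 * D 0 1)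
        + L1 * (mu 1 - P 1 0 - ∑ z ∈ Ico 2 n, (P 1 z : ℤ) - A 1 0 - 2 * D 1 0)
        + (V0 * ∑ z ∈ Ico 2 n, (P 0 z : ℤ) + V1 * ∑ z ∈ Ico 2 n, (P 1 z : ℤ)))
    (fin : be + al * ∑ z ∈ Ico 2 n, (t z + 1) - ga * (n - 2) < den * (t 0 + t 1 + 3)) :
    False := by
  have h1 := sum_le_sum rest
  have hc : ∑ z ∈ Ico 2 n, ga = ga * (n - 2) := by
    rw [sum_const, Nat.card_Ico, nsmul_eq_mul, Nat.cast_sub n2]
    push_cast
    ring
  have h2 := sum_swap (Ico 2 n) (fun y z => (P y z : ℤ))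
  have s0 := C.sup 0 (by omega)
  have s1 := C.sup 1 (by omega)
  rw [sum_er0 n2 (fun z => (P 0 z : ℤ) + A 0 z + 2 * D 0 z)] at s0
  rw [sum_er1 n2 (fun z => (P 1 z : ℤ) + A 1 z + 2 * D 1 z)] at s1
  simp only [sum_add_distrib, ← mul_sum] at h1 s0 s1
  simp only [sum_add_distrib] at fin
  rw [hc, h2] at h1
  have h3 : ∑ z ∈ Ico 2 n, h z = ∑ z ∈ Ico 2 n, t z + ∑ z ∈ Ico 2 n, s z
      + ∑ z ∈ Ico 2 n, (1 : ℤ) := by
    rw [← sum_add_distrib, ← sum_add_distrib]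
    exact sum_congr rfl fun z hz => by
      have := C.hh z (mem_Ico.1 hz).2
      linarith
  have h4 := sum_all n2 s
  rw [hs] at h4
  have a0 := C.hh 0 (by omega)
  have a1 := C.hh 1 (by omega)
  have k0 := mul_le_mul_of_nonneg_left s0 hL0
  have k1 := mul_le_mul_of_nonneg_left s1 hL1
  have e1 : den * (h 0 + h 1) + den * ∑ z ∈ Ico 2 n, h z
      = den * (t 0 + t 1 + 3) + den * (∑ z ∈ Ico 2 n, t z + ∑ z ∈ Ico 2 n, (1 : ℤ)) := by
    rw [h3, a0, a1]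
    have h5 : s 0 + s 1 + ∑ z ∈ Ico 2 n, s z = 1 := h4.symm
    linear_combination den * h5
  nlinarith [h1, block, fin, k0, k1, e1]

end LdG

end Pool.Agent.Lib.MP_f04ccf_co
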