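import Pool.Agent.Lib.MP_f04ccf_co.M.BlkA
import Pool.Agent.Lib.MP_f04ccf_co.M.BlkB

/-!
MP_f04ccf_co, PLAN W, block certificate: **the block inequality of a node from the kernel check**
(`Bk.Wd`, `BkW` -> `BlkB.TwoR` -> `BlkB.chk_sound`).

* `BlkB.gcp`, `BlkB.lin`, `BlkB.ntOk`: bounds for the PC pairs of a block row with tails in the rest rows;
* `BlkB.blkOk`, `BlkB.block`: the check of a node and the hypothesis `block` of `NoNd.of_blk`.
-/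

set_option autoImplicit false

namespace Pool.Agent.Lib.MP_f04ccf_co

open Finset Mid

namespace BlkB

/-- at most `x + 1` PC pairs (both ways) in a cell with a rest row of share `x ≤ tm` -/
noncomputable def gcp (R c tm : ℕ) : Bool :=
  allN (fun x => Nat.ble (Nat.succ (Nat.add (Nat.mul c x) (Nat.mul (Nat.add x 2) (Nat.add x 2))))
    (Nat.mul (Nat.succ x) R)) (Nat.succ tm)

/-- a line for the excess: `fx ≤ al g + bt (x + 1)` for all `x ≤ tm`, `g ≤ x + 1` possible -/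
noncomputable def lin (R c al bt tm : ℕ) : Bool :=
  allN (fun x => allN (fun g => orb (Nat.ble (Bk.fx R (Nat.mul c x) g)
    (Nat.add (Nat.mul al g) (Nat.mul bt (Nat.succ x))))
    (Nat.ble (Nat.succ (Nat.add (Nat.mul c x) (Nat.mul g g))) (Nat.mul (Nat.pred g) R)))
    (Nat.add x 2)) (Nat.succ tm)

/-- the list of the excesses from one or two lines -/
noncomputable def ntOk (R c tm B al bt al' bt' : ℕ) (nt : List ℕ) : Bool :=
  anb (lin R c al bt tm) (anb (lin R c al' bt' tm)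
    (lsN (fun m v => orb (Nat.ble (Nat.add (Nat.mul al m) (Nat.mul bt B)) v)
      (Nat.ble (Nat.add (Nat.mul al' m) (Nat.mul bt' B)) v)) nt 0))

section Rows

variable {R n : ℕ} {t h mu : ℕ → ℕ} {q : ℕ → ℕ → ℕ} {s e : ℕ → ℤ} {P A D : ℕ → ℕ → ℕ}
  {N W : ℕ → ℕ → ℤ}

lemma g_le (H : Bk.Wd R n t h mu q s e P A D N W) {x tm : ℕ} (hx : x < 2)
    (hg : gcp R (t x) tm = true) {z : ℕ} (h2 : 2 ≤ z) (hz : z < n) (htm : t z ≤ tm) :
    P x z + P z x ≤ t z + 1 := by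
  have hn := H.n3
  by_contra hcon
  push Not at hcon
  have h1 := allN_sound hg (t z) (by show t z < tm + 1; omega)
  have h3 : t x * t z + (t z + 2) * (t z + 2) + 1 ≤ (t z + 1) * R := Nat.le_of_ble_eq_true h1
  have h4 := H.C.jn x (by omega) z hz (by omega) (t z + 2) (by omega)
  have h5 : (((t z + 2 : ℕ) : ℤ) - 1) * R ≤ (t x : ℤ) * t z + ((t z + 2 : ℕ) : ℤ) ^ 2 := h4
  zify at h3
  push_cast at h5
  linarith

lemma n_le (H : Bk.Wd R n t h mu q s e P A D N W) {x tm al bt : ℕ} (hx : x < 2)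
    (hg : gcp R (t x) tm = true) (hl : lin R (t x) al bt tm = true) {z : ℕ} (h2 : 2 ≤ z)
    (hz : z < n) (htm : t z ≤ tm) :
    N x z ≤ (al * P x z + bt * (t z + 1) : ℕ) := by
  have hn := H.n3
  have h1 := g_le H hx hg h2 hz htm
  have h3 := allN_sound hl (t z) (by show t z < tm + 1; omega)
  have h4 := allN_sound h3 (P x z) (by show P x z < t z + 2; omega)
  have h6 := H.fx_spec (show x < n by omega) hz (show x ≠ z by omega)
  rcases orb_true h4 with h5 | h5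
  · have h7 : Bk.fx R (t x * t z) (P x z) ≤ al * P x z + bt * (t z + 1) :=
      Nat.le_of_ble_eq_true h5
    exact h6.trans (by exact_mod_cast h7)
  · have h7 : t x * t z + P x z * P x z + 1 ≤ (P x z - 1) * R := Nat.le_of_ble_eq_true h5
    have h8 := H.C.jn x (by omega) z hz (by omega) (P x z) (by omega)
    exfalso
    rcases Nat.eq_zero_or_pos (P x z) with h9 | h9
    · rw [h9] at h7
      simp at h7
    · have h10 : ((P x z - 1 : ℕ) : ℤ) = (P x z : ℤ) - 1 := by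
        rw [Nat.cast_sub h9]
        norm_num
      zify [h10] at h7
      have h11 : ((P x z : ℤ) - 1) * R ≤ (t x : ℤ) * t z + (P x z : ℤ) ^ 2 := h8
      linarith

lemma sum_g (H : Bk.Wd R n t h mu q s e P A D N W) {x tm B : ℕ} (hx : x < 2)
    (hg : gcp R (t x) tm = true) (htm : ∀ z ∈ Ico 2 n, t z ≤ tm)
    (hB : ∑ z ∈ Ico 2 n, (t z + 1) ≤ B) :
    ∑ z ∈ Ico 2 n, P x z + ∑ z ∈ Ico 2 n, P z x ≤ B := by
  rw [← sum_add_distrib]
  refine (sum_le_sum fun z hz => ?_).trans hB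
  exact g_le H hx hg (mem_Ico.1 hz).1 (mem_Ico.1 hz).2 (htm z hz)

lemma sum_n (H : Bk.Wd R n t h mu q s e P A D N W) {x tm B al bt : ℕ} (hx : x < 2)
    (hg : gcp R (t x) tm = true) (hl : lin R (t x) al bt tm = true)
    (htm : ∀ z ∈ Ico 2 n, t z ≤ tm) (hB : ∑ z ∈ Ico 2 n, (t z + 1) ≤ B) :
    ∑ z ∈ Ico 2 n, N x z ≤ (al * ∑ z ∈ Ico 2 n, P x z + bt * B : ℕ) := by
  have h1 : ∑ z ∈ Ico 2 n, N x z ≤ ∑ z ∈ Ico 2 n, ((al * P x z + bt * (t z + 1) : ℕ) : ℤ) :=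
    sum_le_sum fun z hz => n_le H hx hg hl (mem_Ico.1 hz).1 (mem_Ico.1 hz).2 (htm z hz)
  refine h1.trans ?_
  rw [← Nat.cast_sum, sum_add_distrib, ← mul_sum, ← mul_sum]
  have h2 := Nat.mul_le_mul_left bt hB
  exact_mod_cast (by omega : al * ∑ z ∈ Ico 2 n, P x z + bt * ∑ z ∈ Ico 2 n, (t z + 1)
    ≤ al * ∑ z ∈ Ico 2 n, P x z + bt * B)

lemma nt_le (H : Bk.Wd R n t h mu q s e P A D N W) {x tm B al bt al' bt' : ℕ} (hx : x < 2)
    (hg : gcp R (t x) tm = true) {nt : List ℕ} (hl : ntOk R (t x) tm B al bt al' bt' nt = true)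
    (htm : ∀ z ∈ Ico 2 n, t z ≤ tm) (hB : ∑ z ∈ Ico 2 n, (t z + 1) ≤ B) {m : ℕ}
    (hm : ∑ z ∈ Ico 2 n, P x z = m) (hml : m < nt.length) :
    ∑ z ∈ Ico 2 n, N x z ≤ (nt[m] : ℕ) := by
  obtain ⟨h1, h2⟩ := anb_true hl
  obtain ⟨h3, h4⟩ := anb_true h2
  have h5 := lsN_sound _ _ h4 m hml
  rw [Nat.zero_add] at h5
  rcases orb_true h5 with h6 | h6
  · have h7 : al * m + bt * B ≤ nt[m] := Nat.le_of_ble_eq_true h6
    have h8 := sum_n H hx hg h1 htm hB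
    rw [hm] at h8
    exact h8.trans (by exact_mod_cast h7)
  · have h7 : al' * m + bt' * B ≤ nt[m] := Nat.le_of_ble_eq_true h6
    have h8 := sum_n H hx hg h3 htm hB
    rw [hm] at h8
    exact h8.trans (by exact_mod_cast h7)

/-- the energy in the form of the check -/
lemma en_le {m' h' : ℕ} (h1 : m' ≤ h') {E X : ℤ} (h2 : E + m' * (m' + 1) ≤ 2 * (m' * h') + X)
    {x : ℕ} (h3 : X ≤ x) : E ≤ (m' * (2 * h' - 1 - m') + x : ℕ) := by
  have h4 : m' * (2 * h' - 1 - m') + m' * (m' + 1) = 2 * (m' * h') := by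
    rcases Nat.eq_zero_or_pos m' with h5 | h5
    · subst h5
      simp
    · obtain ⟨k, rfl⟩ : ∃ k, h' = m' + k := ⟨h' - m', by omega⟩
      obtain ⟨a, rfl⟩ : ∃ a, m' = a + 1 := ⟨m' - 1, by omega⟩
      have h6 : 2 * (a + 1 + k) - 1 - (a + 1) = a + 2 * k := by omega
      rw [h6]
      ring
  have h5 : ((m' * (2 * h' - 1 - m') : ℕ) : ℤ) + m' * (m' + 1) = 2 * (m' * h') := by
    exact_mod_cast h4
  push_cast at h5 ⊢
  linarith

end Rows

/-- **the check of the block of a node** -/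
noncomputable def blkOk (R H a b B m01 m10 G : ℕ) (nt0 nt1 : List ℕ)
    (den be L0 L1 V0 V1 W0 W1 ka nk ua nu ka1 nk1 ua1 nu1 : ℕ) : Bool :=
  anb (Nat.ble (Nat.succ (Nat.add (Nat.mul a b) (Nat.mul (Nat.succ G) (Nat.succ G))))
      (Nat.mul G R))
    (frN (Nat.sub R a) fun c0 => frN (Nat.sub R b) fun c1 => frN (Nat.sub c0 m10) fun w0 =>
      frN (Nat.sub c1 m01) fun w1 => frN (Nat.mul 2 R) fun R2 => frN (Nat.mul 2 (Nat.pred R)) fun Rm =>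
      frN (Nat.succ a) fun a0 => frN (Nat.succ b) fun a1 =>
      frN (Nat.add (Nat.mul 2 (Nat.succ R)) (Nat.add (Nat.mul 2 (Nat.mul a0 a1))
        (Nat.mul Rm (Nat.add a0 a1)))) fun Kc =>
      frN (Nat.mul 2 c0) fun hP0 => frN (Nat.mul 2 w0) fun hA0 => frN (Nat.add hP0 hA0) fun hD0 =>
      frN (Nat.mul 2 c1) fun hP1 => frN (Nat.mul 2 w1) fun hA1 => frN (Nat.add hP1 hA1) fun hD1 =>
      frN (Nat.add hP0 (Nat.mul 4 a)) fun cP0 => frN (Nat.add hA0 (Nat.mul 4 a)) fun cA0 =>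
      frN (Nat.add hD0 (Nat.mul 6 a)) fun cD0 => frN (Nat.add hP1 (Nat.mul 4 b)) fun cP1 =>
      frN (Nat.add hA1 (Nat.mul 4 b)) fun cA1 => frN (Nat.add hD1 (Nat.mul 6 b)) fun cD1 =>
      allN (fun P => allN (fun Q =>
        orb (Nat.ble (Nat.succ G) (Nat.add P Q))
          (orb (Nat.ble (Nat.succ (Nat.add (Nat.mul a b) (Nat.mul (Nat.add P Q) (Nat.add P Q))))
            (Nat.mul (Nat.pred (Nat.add P Q)) R))
            (frN (Bk.fx R (Nat.mul a b) P) fun x0 => frN (Bk.fx R (Nat.mul a b) Q) fun x1 =>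
              frN (Bk.nt P Q) fun nt => frN (Nat.add (Nat.mul P hP1) (Nat.mul Q hP0)) fun hPQ =>
              chk R2 Rm Kc a0 a1 (Nat.succ B) cP0 cA0 cD0 hA0 hD0 cP1 cA1 cD1 hA1 hD1 H B B nt0 nt1
                P Q x0 x1 nt hPQ den be L0 L1 V0 V1 W0 W1 ka nk ua nu ka1 nk1 ua1 nu1)))
        (Nat.succ G)) (Nat.succ G))

section Main

variable {R n : ℕ} {t h mu : ℕ → ℕ} {q : ℕ → ℕ → ℕ} {s e : ℕ → ℤ} {P A D : ℕ → ℕ → ℕ}
  {N W : ℕ → ℕ → ℤ}

/-- a sum over the rows different from 0 -/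
lemma sumN0 (n2 : 2 ≤ n) (f : ℕ → ℕ) :
    ∑ z ∈ (range n).erase 0, f z = f 1 + ∑ z ∈ Ico 2 n, f z := by
  have h1 : (range n).erase 0 = insert 1 (Ico 2 n) := by
    ext x
    simp only [mem_erase, mem_range, mem_insert, mem_Ico]
    omega
  rw [h1, sum_insert (by simp)]

/-- a sum over the rows different from 1 -/
lemma sumN1 (n2 : 2 ≤ n) (f : ℕ → ℕ) :
    ∑ z ∈ (range n).erase 1, f z = f 0 + ∑ z ∈ Ico 2 n, f z := by
  have h1 : (range n).erase 1 = insert 0 (Ico 2 n) := by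
    ext x
    simp only [mem_erase, mem_range, mem_insert, mem_Ico]
    omega
  rw [h1, sum_insert (by simp)]

lemma jh {J h' : ℕ} : J * (2 * h' + (J - 1)) ≤ J * (2 * h' - 1 + J) := by
  rcases Nat.eq_zero_or_pos J with h1 | h1
  · subst h1
    simp
  · exact Nat.mul_le_mul_left _ (by omega)

lemma TF0 (H : Bk.Wd R n t h mu q s e P A D N W) {y x0 v : ℕ}
    (hE : 2 * e 0 ≤ ((mu 0 * (2 * h 0 - 1 - mu 0) + (x0 + v) : ℕ) : ℤ))
    (hy : ∑ z ∈ Ico 2 n, P z 0 = y) {c0 w0 : ℕ} (hc : c0 = R - t 0) (hw : w0 = Bk.w R t q 1 0) :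
    TF (2 * R) (t 0 + 1) (2 * c0 + 4 * t 0) (2 * w0 + 4 * t 0) (2 * c0 + 2 * w0 + 6 * t 0)
      (P 1 0) y (A 1 0) (D 1 0) (mu 0) (h 0) (x0 + v) := by
  intro b hb i hi l hl
  have hn := H.n3
  have h1 := H.T0 hE (b := b) (by
    rw [sumN0 (by omega), hy]
    exact hb) (a := i) (d := l) (c := 0) hi (by omega)
  have h2 := jh (J := 2 * b + 2 * i + 3 * l) (h' := h 0)
  rw [← hc, ← hw] at h1
  have h3 : 2 * b + (2 * (i + 0) + 3 * l) = 2 * b + 2 * i + 3 * l := by ring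
  rw [h3] at h1
  have h4 : 2 * R * h 0 + b * (2 * c0 + 4 * t 0) + i * (2 * w0 + 4 * t 0)
      + l * (2 * c0 + 2 * w0 + 6 * t 0)
      = 2 * (R * h 0 + (b * c0 + (0 * c0 + i * w0 + l * (c0 + w0)))
        + (2 * b + 2 * i + 3 * l) * t 0) := by ring
  rw [h4]
  refine h1.trans ?_
  omega

lemma TF1 (H : Bk.Wd R n t h mu q s e P A D N W) {y x1 v : ℕ}
    (hE : 2 * e 1 ≤ ((mu 1 * (2 * h 1 - 1 - mu 1) + (x1 + v) : ℕ) : ℤ))
    (hy : ∑ z ∈ Ico 2 n, P z 1 = y) {c1 w1 : ℕ} (hc : c1 = R - t 1) (hw : w1 = Bk.w R t q 0 1) :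
    TF (2 * R) (t 1 + 1) (2 * c1 + 4 * t 1) (2 * w1 + 4 * t 1) (2 * c1 + 2 * w1 + 6 * t 1)
      (P 0 1) y (A 0 1) (D 0 1) (mu 1) (h 1) (x1 + v) := by
  intro b hb i hi l hl
  have hn := H.n3
  have h1 := H.T1 hE (b := b) (by
    rw [sumN1 (by omega), hy]
    exact hb) (a := i) (d := l) (c := 0) hi (by omega)
  have h2 := jh (J := 2 * b + 2 * i + 3 * l) (h' := h 1)
  rw [← hc, ← hw] at h1
  have h3 : 2 * b + (2 * (i + 0) + 3 * l) = 2 * b + 2 * i + 3 * l := by ring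
  rw [h3] at h1
  have h4 : 2 * R * h 1 + b * (2 * c1 + 4 * t 1) + i * (2 * w1 + 4 * t 1)
      + l * (2 * c1 + 2 * w1 + 6 * t 1)
      = 2 * (R * h 1 + (b * c1 + (0 * c1 + i * w1 + l * (c1 + w1)))
        + (2 * b + 2 * i + 3 * l) * t 1) := by ring
  rw [h4]
  refine h1.trans ?_
  omega

/-- **the block inequality of a node** -/
theorem block (C : Bk.Wd R n t h mu q s e P A D N W) {Hh a b B tm m01 m10 G : ℕ}
    {al0 bt0 al0' bt0' al1 bt1 al1' bt1' : ℕ} {nt0 nt1 : List ℕ}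
    (ha : t 0 = a) (hb : t 1 = b) (h01 : q 0 1 = m01) (h10 : q 1 0 = m10)
    (hH : h 0 + h 1 ≤ Hh) (htm : ∀ z ∈ Ico 2 n, t z ≤ tm)
    (hB : ∑ z ∈ Ico 2 n, (t z + 1) ≤ B)
    (g0 : gcp R a tm = true) (g1 : gcp R b tm = true)
    (ok0 : ntOk R a tm B al0 bt0 al0' bt0' nt0 = true)
    (ok1 : ntOk R b tm B al1 bt1 al1' bt1' nt1 = true)
    (l0 : B < nt0.length) (l1 : B < nt1.length) (hG : G ≤ 5)
    {den be L0 L1 V0 V1 W0 W1 ka nk ua nu ka1 nk1 ua1 nu1 : ℕ}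
    (hk0 : mu 0 + ka ≤ h 0) (hk0' : h 0 < mu 0 + (ka + nk)) (hu0 : ua ≤ mu 0)
    (hu0' : mu 0 < ua + nu) (hk1 : mu 1 + ka1 ≤ h 1) (hk1' : h 1 < mu 1 + (ka1 + nk1))
    (hu1 : ua1 ≤ mu 1) (hu1' : mu 1 < ua1 + nu1)
    (hc : blkOk R Hh a b B m01 m10 G nt0 nt1 den be L0 L1 V0 V1 W0 W1 ka nk ua nu ka1 nk1 ua1 nu1
      = true) :
    den * (h 0 + h 1) + (W0 * ∑ z ∈ Ico 2 n, P z 0 + W1 * ∑ z ∈ Ico 2 n, P z 1)
      + (L0 * (P 0 1 + ∑ z ∈ Ico 2 n, P 0 z + A 0 1 + 2 * D 0 1)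
        + L1 * (P 1 0 + ∑ z ∈ Ico 2 n, P 1 z + A 1 0 + 2 * D 1 0))
      ≤ be + (L0 * mu 0 + L1 * mu 1)
        + (V0 * ∑ z ∈ Ico 2 n, P 0 z + V1 * ∑ z ∈ Ico 2 n, P 1 z) := by
  have hn := C.n3
  obtain ⟨hc1, hc2⟩ := anb_true hc
  have hG1 : a * b + (G + 1) * (G + 1) + 1 ≤ G * R := Nat.le_of_ble_eq_true hc1
  have hPQ : P 0 1 + P 1 0 ≤ G := by
    by_contra hcon
    push Not at hcon
    have h1 := C.C.jn 0 (by omega) 1 (by omega) (by norm_num) (G + 1) (by omega)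
    have h2 : (((G + 1 : ℕ) : ℤ) - 1) * R ≤ (t 0 : ℤ) * t 1 + ((G + 1 : ℕ) : ℤ) ^ 2 := h1
    rw [ha, hb] at h2
    zify at hG1
    push_cast at h2
    linarith
  have g0' : gcp R (t 0) tm = true := by rw [ha]; exact g0
  have g1' : gcp R (t 1) tm = true := by rw [hb]; exact g1
  have s0 := sum_g C (x := 0) (by norm_num) g0' htm hB
  have s1 := sum_g C (x := 1) (by norm_num) g1' htm hB
  obtain ⟨m0, hm0⟩ : ∃ m, m = ∑ z ∈ Ico 2 n, P 0 z := ⟨_, rfl⟩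
  obtain ⟨m1, hm1⟩ : ∃ m, m = ∑ z ∈ Ico 2 n, P 1 z := ⟨_, rfl⟩
  obtain ⟨y0, hy0⟩ : ∃ m, m = ∑ z ∈ Ico 2 n, P z 0 := ⟨_, rfl⟩
  obtain ⟨y1, hy1⟩ : ∃ m, m = ∑ z ∈ Ico 2 n, P z 1 := ⟨_, rfl⟩
  rw [← hm0, ← hy0] at s0
  rw [← hm1, ← hy1] at s1
  rw [← hm0, ← hm1, ← hy0, ← hy1]
  have ml0 : m0 < nt0.length := by omega
  have ml1 : m1 < nt1.length := by omega
  have n0 := nt_le C (x := 0) (by norm_num) g0' (nt := nt0) (by rw [ha]; exact ok0) htm hB hm0.symm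
    ml0
  have n1 := nt_le C (x := 1) (by norm_num) g1' (nt := nt1) (by rw [hb]; exact ok1) htm hB hm1.symm
    ml1
  have mh0 : mu 0 ≤ h 0 := by exact_mod_cast C.C.muh 0 (by omega)
  have mh1 : mu 1 ≤ h 1 := by exact_mod_cast C.C.muh 1 (by omega)
  have e0 := C.C.en 0 (by omega)
  rw [LdG.sum_er0 (by omega)] at e0
  have e1 := C.C.en 1 (by omega)
  rw [LdG.sum_er1 (by omega)] at e1
  have f0 := C.fx_spec (show 0 < n by omega) (show 1 < n by omega) (by norm_num)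
  have f1 := C.fx_spec (show 1 < n by omega) (show 0 < n by omega) (by norm_num)
  rw [ha, hb] at f0 f1
  rw [Nat.mul_comm b a] at f1
  have E0 : 2 * e 0 ≤ ((mu 0 * (2 * h 0 - 1 - mu 0) + (Bk.fx R (a * b) (P 0 1) + nt0[m0]) : ℕ) : ℤ) :=
    en_le mh0 e0 (by push_cast; linarith)
  have E1 : 2 * e 1 ≤ ((mu 1 * (2 * h 1 - 1 - mu 1) + (Bk.fx R (a * b) (P 1 0) + nt1[m1]) : ℕ) : ℤ) :=
    en_le mh1 e1 (by push_cast; linarith)
  have F0 : 2 * e 0 ≤ ((mu 0 * (2 * h 0 - 1 - mu 0) + nt0[m0] : ℕ) : ℤ) + N 0 1 := by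
    have := en_le mh0 (E := 2 * e 0 - N 0 1) (X := ∑ z ∈ Ico 2 n, N 0 z) (by
      have := e0
      linarith) n0
    linarith
  have F1 : 2 * e 1 ≤ ((mu 1 * (2 * h 1 - 1 - mu 1) + nt1[m1] : ℕ) : ℤ) + N 1 0 := by
    have := en_le mh1 (E := 2 * e 1 - N 1 0) (X := ∑ z ∈ Ico 2 n, N 1 z) (by
      have := e1
      linarith) n1
    linarith
  have hld := C.LD (by omega) F0 F1
  have w01 : Bk.w R t q 0 1 = R - b - m01 := by
    unfold Bk.w
    rw [hb, h01]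
  have w10 : Bk.w R t q 1 0 = R - a - m10 := by
    unfold Bk.w
    rw [ha, h10]
  have T0 := TF0 C E0 hy0.symm (c0 := R - a) (w0 := R - a - m10) (by rw [ha]) w10.symm
  have T1 := TF1 C E1 hy1.symm (c1 := R - b) (w1 := R - b - m01) (by rw [hb]) w01.symm
  rw [w01, w10, ha, hb] at hld
  rw [ha] at T0
  rw [hb] at T1
  -- the check for the numbers of PC pairs
  simp only [frN_eq] at hc2
  have h3 := allN_sound hc2 (P 0 1) (by show P 0 1 < G + 1; omega)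
  have h4 := allN_sound h3 (P 1 0) (by show P 1 0 < G + 1; omega)
  rcases orb_true h4 with h5 | h5
  · have h6 : G + 1 ≤ P 0 1 + P 1 0 := Nat.le_of_ble_eq_true h5
    omega
  rcases orb_true h5 with h6 | h6
  · exfalso
    have h7 : a * b + (P 0 1 + P 1 0) * (P 0 1 + P 1 0) + 1 ≤ (P 0 1 + P 1 0 - 1) * R :=
      Nat.le_of_ble_eq_true h6
    rcases Nat.eq_zero_or_pos (P 0 1 + P 1 0) with h8 | h8
    · rw [h8] at h7
      simp at h7
    · have h9 := C.C.jn 0 (by omega) 1 (by omega) (by norm_num) (P 0 1 + P 1 0) le_rfl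
      have h10 : ((P 0 1 + P 1 0 - 1 : ℕ) : ℤ) = ((P 0 1 + P 1 0 : ℕ) : ℤ) - 1 := by
        rw [Nat.cast_sub h8]
        norm_num
      have h11 : (((P 0 1 + P 1 0 : ℕ) : ℤ) - 1) * R
          ≤ (t 0 : ℤ) * t 1 + ((P 0 1 + P 1 0 : ℕ) : ℤ) ^ 2 := h9
      rw [ha, hb] at h11
      have h12 : (a : ℤ) * b + ((P 0 1 + P 1 0 : ℕ) : ℤ) * ((P 0 1 + P 1 0 : ℕ) : ℤ) + 1
          ≤ (((P 0 1 + P 1 0 : ℕ) : ℤ) - 1) * R := by
        rw [← h10]
        exact_mod_cast h7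
      linarith
  have TR : TwoR (2 * R) (2 * (R - 1))
      (2 * (R + 1) + (2 * ((a + 1) * (b + 1)) + 2 * (R - 1) * (a + 1 + (b + 1)))) (a + 1) (b + 1)
      (B + 1) (2 * (R - a) + 4 * a) (2 * (R - a - m10) + 4 * a)
      (2 * (R - a) + 2 * (R - a - m10) + 6 * a) (2 * (R - a)) (2 * (R - a - m10))
      (2 * (R - a) + 2 * (R - a - m10)) (2 * (R - b) + 4 * b) (2 * (R - b - m01) + 4 * b)
      (2 * (R - b) + 2 * (R - b - m01) + 6 * b) (2 * (R - b)) (2 * (R - b - m01))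
      (2 * (R - b) + 2 * (R - b - m01)) Hh B B nt0 nt1 (P 0 1) (P 1 0)
      (Bk.fx R (a * b) (P 0 1)) (Bk.fx R (a * b) (P 1 0)) (Bk.nt (P 0 1) (P 1 0))
      (h 0) (mu 0) (h 0 - mu 0) (h 1) (mu 1) (h 1 - mu 1) m0 m1 (A 0 1) (D 0 1) (A 1 0) (D 1 0)
      y0 y1 := by
    have p0 := C.C.prt 0 (by omega) 1 (by omega) (by norm_num)
    have p1 := C.C.prt 1 (by omega) 0 (by omega) (by norm_num)
    have v0 := C.C.cap 0 (by omega) 1 (by omega) (by norm_num)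
    have v1 := C.C.cap 1 (by omega) 0 (by omega) (by norm_num)
    have r0 := C.C.prv 0 (by omega)
    have r1 := C.C.prv 1 (by omega)
    have u0 := C.C.mup 0 (by omega)
    have u1 := C.C.mup 1 (by omega)
    have a0 := C.C.hh 0 (by omega)
    have a1 := C.C.hh 1 (by omega)
    have hnB : (n : ℤ) - 1 ≤ B + 1 := by
      have h7 : (Ico 2 n).card • 1 ≤ ∑ x ∈ Ico 2 n, (t x + 1) :=
        card_nsmul_le_sum _ _ _ fun x _ => by omega
      rw [Nat.card_Ico, smul_eq_mul, mul_one] at h7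
      omega
    rw [LdG.sum_er0 (by omega) (fun z => (P 0 z : ℤ)), ← Nat.cast_sum, ← hm0] at v0 r0
    rw [LdG.sum_er1 (by omega) (fun z => (P 1 z : ℤ)), ← Nat.cast_sum, ← hm1] at v1 r1
    have k0 : ((h 0 - mu 0 : ℕ) : ℤ) = (h 0 : ℤ) - mu 0 := by rw [Nat.cast_sub mh0]
    have k1 : ((h 1 - mu 1 : ℕ) : ℤ) = (h 1 : ℤ) - mu 1 := by rw [Nat.cast_sub mh1]
    have q0 := mul_le_mul_of_nonneg_left hnB (show 0 ≤ (h 0 : ℤ) - mu 0 by omega)
    have q1 := mul_le_mul_of_nonneg_left hnB (show 0 ≤ (h 1 : ℤ) - mu 1 by omega)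
    refine ⟨by omega, by omega, hH, fun h7 => ?_, fun h7 => ?_, ?_, ?_, by omega, by omega,
      by omega, by omega, ml0, ml1, s0, s1, T0, T1, ?_⟩
    · have h8 : (1 : ℤ) ≤ mu 0 := u0 (by rw [ha] at a0; omega)
      omega
    · have h8 : (1 : ℤ) ≤ mu 1 := u1 (by rw [hb] at a1; omega)
      omega
    · zify
      rw [k0]
      linarith
    · zify
      rw [k1]
      linarith
    · have e3 : 2 * (R - 1) * (h 0 + h 1) + 2 * (h 0 * (b + 1) + h 1 * (a + 1))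
          + (P 0 1 * (2 * (R - b)) + P 1 0 * (2 * (R - a)))
          + (A 1 0 * (2 * (R - a - m10)) + D 1 0 * (2 * (R - a) + 2 * (R - a - m10)))
          + (A 0 1 * (2 * (R - b - m01)) + D 0 1 * (2 * (R - b) + 2 * (R - b - m01)))
          = 2 * ((R - 1) * (h 0 + h 1) + h 0 * (b + 1) + h 1 * (a + 1)
            + (P 0 1 * (R - b) + A 0 1 * (R - b - m01) + D 0 1 * (R - b + (R - b - m01)))
            + (P 1 0 * (R - a) + A 1 0 * (R - a - m10) + D 1 0 * (R - a + (R - a - m10)))) := by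
        ring
      rw [e3]
      refine hld.trans (le_of_eq ?_)
      ring
  have key := chk_sound TR (den := den) (be := be) (L0 := L0) (L1 := L1) (V0 := V0) (V1 := V1)
    (W0 := W0) (W1 := W1) (ka := ka) (nk := nk) (ua := ua) (nu := nu) (ka1 := ka1) (nk1 := nk1)
    (ua1 := ua1) (nu1 := nu1) (by omega) (by omega) hu0 hu0' (by omega) (by omega) hu1 hu1' h6
  omega

end Main

end BlkB

end Pool.Agent.Lib.MP_f04ccf_co
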