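import Pool.Agent.Lib.MP_f04ccf_co.M.BlkD
import Pool.Agent.Lib.MP_f04ccf_co.M.BlkM

/-!
MP_f04ccf_co, PLAN W, block certificate: **the tree of a pair of shares**.

* `BlkD.Pd`, `BlkD.pairOk`: the numbers of a pair `(a, b)` and their check;
* `BlkD.Tr`, `BlkD.treeOk`: the tree over the boxes in `(h 0 - mu 0, mu 0, h 1 - mu 1, mu 1)` and its check;
* `BlkD.tree_sound`, `BlkD.NoNd.sp`, `BlkD.NoPr.of_root`: no items with `t 0 = a`, `t 1 = b`.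
-/

set_option autoImplicit false

namespace Pool.Agent.Lib.MP_f04ccf_co

open Finset Mid BlkB

namespace BlkD

/-- the numbers of the rest rows of one share -/
structure Rd where
  G0 : ℕ
  G1 : ℕ
  cc : ℕ
  nr : ℕ
  nx : ℕ
  n0 : List ℕ
  n1 : List ℕ

/-- the numbers of a pair of shares -/
structure Pd where
  R : ℕ
  H : ℕ
  q : ℕ
  a : ℕ
  b : ℕ
  B : ℕ
  tm : ℕ
  G : ℕ
  al0 : ℕ
  bt0 : ℕ
  al0' : ℕ
  bt0' : ℕ
  al1 : ℕ
  bt1 : ℕ
  al1' : ℕ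
  bt1' : ℕ
  nt0 : List ℕ
  nt1 : List ℕ
  rr : List Rd

/-- the certificates: empty (by the row 0, the row 1, both), one vector of multipliers, a cut of the
coordinate `c` at `v` -/
inductive Tr where
  | E (c : ℕ) : Tr
  | L (m01 m10 : ℕ) (th S0 S1 : List ℕ) (den al ga be L0 L1 V0 V1 W0 W1 VC : ℕ) : Tr
  | S (c v : ℕ) (l r : Tr) : Tr

/-- the check of the numbers of the rest rows -/
noncomputable def rrOk (R a b B q : ℕ) (rr : List Rd) : ℕ → Bool :=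
  List.rec (motive := fun _ => ℕ → Bool) (fun _ => true)
    (fun r _ ih t => anb (rdOk R a b B q t r.G0 r.G1 r.cc r.nr r.nx r.n0 r.n1)
      (frN (Nat.succ t) ih)) rr

lemma rrOk_sound {R a b B q : ℕ} : ∀ (rr : List Rd) (t : ℕ), rrOk R a b B q rr t = true →
    ∀ i (h : i < rr.length), rdOk R a b B q (t + i) rr[i].G0 rr[i].G1 rr[i].cc rr[i].nr rr[i].nx
      rr[i].n0 rr[i].n1 = true := by
  intro rr
  induction rr with
  | nil => intro t h i hi; exact absurd hi (by simp)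
  | cons r rr ih =>
    intro t h i hi
    have h1 : anb (rdOk R a b B q t r.G0 r.G1 r.cc r.nr r.nx r.n0 r.n1)
      (frN (Nat.succ t) (rrOk R a b B q rr)) = true := h
    obtain ⟨h2, h3⟩ := anb_true h1
    rw [frN_eq] at h3
    rcases i with _ | i
    · exact h2
    · have h4 := ih (t + 1) h3 i (by simpa using hi)
      have h5 : t + (i + 1) = t + 1 + i := by ring
      rw [h5]
      exact h4

/-- **the check of the numbers of a pair** -/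
noncomputable def pairOk (d : Pd) : Bool :=
  frN d.R fun R => frN d.H fun H => frN d.q fun q => frN d.a fun a => frN d.b fun b =>
  frN d.B fun B => frN d.tm fun tm => frN d.G fun G =>
  anb (Nat.beq (Nat.add (Nat.add (Nat.add a b) 3) B) H)
  (anb (Nat.ble (mnb b (Nat.sub B q)) tm)
  (anb (Nat.ble G 5)
  (anb (Nat.ble (Nat.succ (Nat.add (Nat.mul a b) (Nat.mul (Nat.succ G) (Nat.succ G))))
    (Nat.mul G R))
  (anb (gcp R a tm) (anb (gcp R b tm)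
  (anb (ntOk R a tm B d.al0 d.bt0 d.al0' d.bt0' d.nt0)
  (anb (ntOk R b tm B d.al1 d.bt1 d.al1' d.bt1' d.nt1)
  (anb (Nat.ble (Nat.succ B) d.nt0.length) (anb (Nat.ble (Nat.succ B) d.nt1.length)
  (anb (Nat.ble (Nat.succ tm) d.rr.length) (rrOk R a b B q d.rr 0)))))))))))

/-- the facts of a pair -/
structure PairF (d : Pd) : Prop where
  hB : d.a + d.b + 3 + d.B = d.H
  tm : min d.b (d.B - d.q) ≤ d.tm
  G5 : d.G ≤ 5
  hG : d.a * d.b + (d.G + 1) * (d.G + 1) + 1 ≤ d.G * d.R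
  g0 : gcp d.R d.a d.tm = true
  g1 : gcp d.R d.b d.tm = true
  n0 : ntOk d.R d.a d.tm d.B d.al0 d.bt0 d.al0' d.bt0' d.nt0 = true
  n1 : ntOk d.R d.b d.tm d.B d.al1 d.bt1 d.al1' d.bt1' d.nt1 = true
  l0 : d.B < d.nt0.length
  l1 : d.B < d.nt1.length
  lr : d.tm < d.rr.length
  rr : rrOk d.R d.a d.b d.B d.q d.rr 0 = true

lemma pairOk_sound {d : Pd} (h : pairOk d = true) : PairF d := by
  unfold pairOk at h
  simp only [frN_eq] at h
  obtain ⟨h1, h⟩ := anb_true h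
  obtain ⟨h2, h⟩ := anb_true h
  obtain ⟨h3, h⟩ := anb_true h
  obtain ⟨h4, h⟩ := anb_true h
  obtain ⟨h5, h⟩ := anb_true h
  obtain ⟨h6, h⟩ := anb_true h
  obtain ⟨h7, h⟩ := anb_true h
  obtain ⟨h8, h⟩ := anb_true h
  obtain ⟨h9, h⟩ := anb_true h
  obtain ⟨h10, h⟩ := anb_true h
  obtain ⟨h11, h⟩ := anb_true h
  rw [mnb_eq] at h2
  exact ⟨Nat.eq_of_beq_eq_true h1, Nat.le_of_ble_eq_true h2, Nat.le_of_ble_eq_true h3,
    Nat.le_of_ble_eq_true h4, h5, h6, h7, h8, Nat.le_of_ble_eq_true h9,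
    Nat.le_of_ble_eq_true h10, Nat.le_of_ble_eq_true h11, h⟩

/-- a changed value -/
noncomputable def upd (f : ℕ → ℕ) (c v : ℕ) : ℕ → ℕ := fun i =>
  Bool.rec (motive := fun _ => ℕ) (f i) v (Nat.beq i c)

/-- the box -/
def inB (lo hi : ℕ → ℕ) : ℕ → ℕ → ℕ → ℕ → ℕ → ℕ → Bool := fun x y z w u v =>
  decide (y + lo 0 ≤ x ∧ x ≤ y + hi 0 ∧ lo 1 ≤ y ∧ y ≤ hi 1 ∧ w + lo 2 ≤ z ∧ z ≤ w + hi 2
    ∧ lo 3 ≤ w ∧ w ≤ hi 3 ∧ lo 4 ≤ u ∧ u ≤ hi 4 ∧ lo 5 ≤ v ∧ v ≤ hi 5)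

lemma inB_iff {lo hi : ℕ → ℕ} {x y z w u v : ℕ} : inB lo hi x y z w u v = true ↔
    (y + lo 0 ≤ x ∧ x ≤ y + hi 0 ∧ lo 1 ≤ y ∧ y ≤ hi 1 ∧ w + lo 2 ≤ z ∧ z ≤ w + hi 2
    ∧ lo 3 ≤ w ∧ w ≤ hi 3 ∧ lo 4 ≤ u ∧ u ≤ hi 4 ∧ lo 5 ≤ v ∧ v ≤ hi 5) := decide_eq_true_iff

lemma inB_sp {lo hi : ℕ → ℕ} (c k : ℕ) {x y z w u v : ℕ} (h : inB lo hi x y z w u v = true) :
    inB lo (upd hi c k) x y z w u v = true ∨ inB (upd lo c (k + 1)) hi x y z w u v = true := by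
  rw [inB_iff] at h
  rw [inB_iff, inB_iff]
  rcases Nat.lt_or_ge c 6 with hc | hc
  · have e1 : ∀ (f : ℕ → ℕ) (i j m : ℕ), Nat.beq i j = false →
        (Bool.rec (motive := fun _ => ℕ) (f i) m (Nat.beq i j) : ℕ) = f i := by
      intro f i j m h
      rw [h]
    interval_cases c
    · show (y + lo 0 ≤ x ∧ x ≤ y + k ∧ lo 1 ≤ y ∧ y ≤ hi 1 ∧ w + lo 2 ≤ z ∧ z ≤ w + hi 2
        ∧ lo 3 ≤ w ∧ w ≤ hi 3 ∧ lo 4 ≤ u ∧ u ≤ hi 4 ∧ lo 5 ≤ v ∧ v ≤ hi 5) ∨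
        (y + (k + 1) ≤ x ∧ x ≤ y + hi 0 ∧ lo 1 ≤ y ∧ y ≤ hi 1 ∧ w + lo 2 ≤ z ∧ z ≤ w + hi 2
        ∧ lo 3 ≤ w ∧ w ≤ hi 3 ∧ lo 4 ≤ u ∧ u ≤ hi 4 ∧ lo 5 ≤ v ∧ v ≤ hi 5)
      omega
    · show (y + lo 0 ≤ x ∧ x ≤ y + hi 0 ∧ lo 1 ≤ y ∧ y ≤ k ∧ w + lo 2 ≤ z ∧ z ≤ w + hi 2
        ∧ lo 3 ≤ w ∧ w ≤ hi 3 ∧ lo 4 ≤ u ∧ u ≤ hi 4 ∧ lo 5 ≤ v ∧ v ≤ hi 5) ∨
        (y + lo 0 ≤ x ∧ x ≤ y + hi 0 ∧ k + 1 ≤ y ∧ y ≤ hi 1 ∧ w + lo 2 ≤ z ∧ z ≤ w + hi 2
        ∧ lo 3 ≤ w ∧ w ≤ hi 3 ∧ lo 4 ≤ u ∧ u ≤ hi 4 ∧ lo 5 ≤ v ∧ v ≤ hi 5)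
      omega
    · show (y + lo 0 ≤ x ∧ x ≤ y + hi 0 ∧ lo 1 ≤ y ∧ y ≤ hi 1 ∧ w + lo 2 ≤ z ∧ z ≤ w + k
        ∧ lo 3 ≤ w ∧ w ≤ hi 3 ∧ lo 4 ≤ u ∧ u ≤ hi 4 ∧ lo 5 ≤ v ∧ v ≤ hi 5) ∨
        (y + lo 0 ≤ x ∧ x ≤ y + hi 0 ∧ lo 1 ≤ y ∧ y ≤ hi 1 ∧ w + (k + 1) ≤ z ∧ z ≤ w + hi 2
        ∧ lo 3 ≤ w ∧ w ≤ hi 3 ∧ lo 4 ≤ u ∧ u ≤ hi 4 ∧ lo 5 ≤ v ∧ v ≤ hi 5)
      omega
    · show (y + lo 0 ≤ x ∧ x ≤ y + hi 0 ∧ lo 1 ≤ y ∧ y ≤ hi 1 ∧ w + lo 2 ≤ z ∧ z ≤ w + hi 2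
        ∧ lo 3 ≤ w ∧ w ≤ k ∧ lo 4 ≤ u ∧ u ≤ hi 4 ∧ lo 5 ≤ v ∧ v ≤ hi 5) ∨
        (y + lo 0 ≤ x ∧ x ≤ y + hi 0 ∧ lo 1 ≤ y ∧ y ≤ hi 1 ∧ w + lo 2 ≤ z ∧ z ≤ w + hi 2
        ∧ k + 1 ≤ w ∧ w ≤ hi 3 ∧ lo 4 ≤ u ∧ u ≤ hi 4 ∧ lo 5 ≤ v ∧ v ≤ hi 5)
      omega
    · show (y + lo 0 ≤ x ∧ x ≤ y + hi 0 ∧ lo 1 ≤ y ∧ y ≤ hi 1 ∧ w + lo 2 ≤ z ∧ z ≤ w + hi 2
        ∧ lo 3 ≤ w ∧ w ≤ hi 3 ∧ lo 4 ≤ u ∧ u ≤ k ∧ lo 5 ≤ v ∧ v ≤ hi 5) ∨
        (y + lo 0 ≤ x ∧ x ≤ y + hi 0 ∧ lo 1 ≤ y ∧ y ≤ hi 1 ∧ w + lo 2 ≤ z ∧ z ≤ w + hi 2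
        ∧ lo 3 ≤ w ∧ w ≤ hi 3 ∧ k + 1 ≤ u ∧ u ≤ hi 4 ∧ lo 5 ≤ v ∧ v ≤ hi 5)
      omega
    · show (y + lo 0 ≤ x ∧ x ≤ y + hi 0 ∧ lo 1 ≤ y ∧ y ≤ hi 1 ∧ w + lo 2 ≤ z ∧ z ≤ w + hi 2
        ∧ lo 3 ≤ w ∧ w ≤ hi 3 ∧ lo 4 ≤ u ∧ u ≤ hi 4 ∧ lo 5 ≤ v ∧ v ≤ k) ∨
        (y + lo 0 ≤ x ∧ x ≤ y + hi 0 ∧ lo 1 ≤ y ∧ y ≤ hi 1 ∧ w + lo 2 ≤ z ∧ z ≤ w + hi 2
        ∧ lo 3 ≤ w ∧ w ≤ hi 3 ∧ lo 4 ≤ u ∧ u ≤ hi 4 ∧ k + 1 ≤ v ∧ v ≤ hi 5)
      omega
  · refine Or.inl ?_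
    have e1 : ∀ i < 6, upd hi c k i = hi i := by
      intro i hi'
      show (Bool.rec (motive := fun _ => ℕ) (hi i) k (Nat.beq i c) : ℕ) = hi i
      rcases h1 : Nat.beq i c with _ | _
      · rfl
      · have := Nat.eq_of_beq_eq_true h1
        omega
    rw [e1 0 (by norm_num), e1 1 (by norm_num), e1 2 (by norm_num), e1 3 (by norm_num),
      e1 4 (by norm_num), e1 5 (by norm_num)]
    exact h

/-- a cut of a box -/
theorem sp {R H n a b : ℕ} {lo hi : ℕ → ℕ} (c k : ℕ)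
    (h1 : NoNd (R : ℤ) H n a b (inB lo (upd hi c k)))
    (h2 : NoNd (R : ℤ) H n a b (inB (upd lo c (k + 1)) hi)) :
    NoNd (R : ℤ) H n a b (inB lo hi) :=
  NoNd.or h1 h2 fun _ _ _ _ _ _ h => inB_sp c k h

/-- the root box -/
theorem of_root {R H n q a b : ℕ} (q1 : 1 ≤ q) (q2 : q + 2 ≤ n)
    (h : NoNd (R : ℤ) H n a b (inB (fun _ => 0) (fun _ => H))) : NoPr (R : ℤ) H n a b := by
  refine NoNd.or (p' := inB (fun _ => 0) (fun _ => H))
    (p'' := fun x y z w u v => !inB (fun _ => 0) (fun _ => H) x y z w u v) h ?_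
    fun x y z w u v _ => ?_
  · have okp : ∀ t t' m', BkA.okp R t R t' m' = true := by
      intro t t' m'
      unfold BkA.okp
      rw [Bool.or_eq_true]
      refine Or.inl (Nat.ble_eq_true_of_le ?_)
      show R + 0 ≤ t + R
      omega
    have okt : ∀ c X, BkA.okth R c R b X (fun _ => R) = true := by
      intro c X
      unfold BkA.okth
      rw [List.all_eq_true]
      intro i _
      rw [Bool.and_eq_true, List.all_eq_true]
      refine ⟨okp _ _ _, fun j _ => ?_⟩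
      rw [Bool.or_eq_true]
      exact Or.inr (okp _ _ _)
    refine NoNd.of_wd (q := q) (m01 := R) (m10 := R) (th0 := fun _ => R) (th1 := fun _ => R) q1 q2
      (okt _ _) (okt _ _) fun t h' mu s e P A D N W C F _ => ?_
    have h1 := F.pp
    have hn := C.n3
    have h2 := F.h01
    have m0 : mu 0 ≤ h' 0 := F.muh 0 (by omega)
    have m1 : mu 1 ≤ h' 1 := F.muh 1 (by omega)
    have s0 : ∑ j ∈ (range n).erase 0, P 0 j ≤ mu 0 := by
      have := C.C.pm 0 (by omega)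
      rw [← Nat.cast_sum] at this
      exact_mod_cast this
    have s1 : ∑ j ∈ (range n).erase 1, P 1 j ≤ mu 1 := by
      have := C.C.pm 1 (by omega)
      rw [← Nat.cast_sum] at this
      exact_mod_cast this
    have h3 : inB (fun _ => 0) (fun _ => H) (h' 0) (mu 0) (h' 1) (mu 1)
        (∑ j ∈ (range n).erase 0, P 0 j) (∑ j ∈ (range n).erase 1, P 1 j) = true := by
      rw [inB_iff]
      omega
    rw [h3] at h1
    exact absurd h1 (by simp)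
  · rcases inB (fun _ => 0) (fun _ => H) x y z w u v with _ | _
    · exact Or.inr rfl
    · exact Or.inl rfl

/-! ### the leaves -/

/-- a row of the block has no state in the box -/
noncomputable def emRow (R H τ a G ka nk ua nu : ℕ) (nt : List ℕ) : Bool :=
  frN (Nat.mul 2 R) fun R2 => frN (Nat.mul R2 (Nat.succ a)) fun Ra =>
  allN (fun P => frN (Nat.add (Bk.fx R τ P) Ra) fun x =>
    allN (fun i => frN (Nat.add ka i) fun k => allN (fun j => frN (Nat.add ua j) fun mu =>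
      frN (Nat.add mu k) fun h => orb (Nat.ble (Nat.succ H) h)
        (orb (anb (Nat.ble (Nat.succ a) h) (Nat.beq mu 0))
          (frN (Nat.add x (Nat.mul mu (Nat.sub (Nat.pred (Nat.mul 2 h)) mu))) fun v0 =>
            frN (Nat.mul R2 h) fun X => lsN (fun m v => orb (Nat.ble (Nat.succ mu) (Nat.add P m))
              (Nat.ble (Nat.succ (Nat.add v0 v)) X)) nt 0))) nu) nk) (Nat.succ G)

/-- the rest rows of a leaf -/
noncomputable def rowsOk (R a b B Hc e0 h0 e1 h1 kc0 kc1 u0 u1 : ℕ) (th S0 S1 : List ℕ)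
    (den al ga L0 L1 V0 V1 W0 W1 VC : ℕ) (rr : List Rd) : ℕ → Bool :=
  List.rec (motive := fun _ => ℕ → Bool) (fun _ => true)
    (fun r _ ih t => anb (Rd.rec (motive := fun _ => Bool) (fun G0 G1 _ nr nx n0 n1 =>
      frN (BlkR.nth th t) fun w => rowOk R a b B Hc e0 h0 e1 h1 kc0 kc1 u0 u1 S0 S1 den al ga
        L0 L1 V0 V1 W0 W1 VC t w G0 G1 nr nx n0 n1) r)
      (frN (Nat.succ t) ih)) rr

lemma rowsOk_sound {R a b B Hc e0 h0 e1 h1 kc0 kc1 u0 u1 : ℕ} {th S0 S1 : List ℕ}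
    {den al ga L0 L1 V0 V1 W0 W1 VC : ℕ} : ∀ (rr : List Rd) (t : ℕ),
    rowsOk R a b B Hc e0 h0 e1 h1 kc0 kc1 u0 u1 th S0 S1 den al ga L0 L1 V0 V1 W0 W1 VC rr t = true →
    ∀ i (h : i < rr.length), rowOk R a b B Hc e0 h0 e1 h1 kc0 kc1 u0 u1 S0 S1 den al ga
      L0 L1 V0 V1 W0 W1 VC (t + i) (BlkR.nth th (t + i)) rr[i].G0 rr[i].G1 rr[i].nr rr[i].nx
      rr[i].n0 rr[i].n1 = true := by
  intro rr
  induction rr with
  | nil => intro t h i hi; exact absurd hi (by simp)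
  | cons r rr ih =>
    intro t hh i hi
    have H1 : anb (Rd.rec (motive := fun _ => Bool) (fun G0 G1 _ nr nx n0 n1 =>
      frN (BlkR.nth th t) fun w => rowOk R a b B Hc e0 h0 e1 h1 kc0 kc1 u0 u1 S0 S1 den al ga
        L0 L1 V0 V1 W0 W1 VC t w G0 G1 nr nx n0 n1) r)
      (frN (Nat.succ t) (rowsOk R a b B Hc e0 h0 e1 h1 kc0 kc1 u0 u1 th S0 S1 den al ga
        L0 L1 V0 V1 W0 W1 VC rr)) = true := hh
    obtain ⟨H2, H3⟩ := anb_true H1
    rw [frN_eq] at H3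
    rcases i with _ | i
    · have H4 : (frN (BlkR.nth th t) fun w => rowOk R a b B Hc e0 h0 e1 h1 kc0 kc1 u0 u1 S0 S1
        den al ga L0 L1 V0 V1 W0 W1 VC t w r.G0 r.G1 r.nr r.nx r.n0 r.n1) = true := H2
      rw [frN_eq] at H4
      exact H4
    · have H4 := ih (t + 1) H3 i (by simpa using hi)
      have H5 : t + (i + 1) = t + 1 + i := by ring
      rw [H5]
      exact H4

/-- the box is exact in a row -/
noncomputable def fl (ka kb ua ub : ℕ) : ℕ :=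
  Bool.rec (motive := fun _ => ℕ) 0 1 (anb (Nat.beq ka kb) (Nat.beq ua ub))

lemma fl_eq {ka kb ua ub : ℕ} : fl ka kb ua ub = 0 ∨ fl ka kb ua ub = 1 ∧ ka = kb ∧ ua = ub := by
  unfold fl
  rcases h : anb (Nat.beq ka kb) (Nat.beq ua ub) with _ | _
  · exact Or.inl rfl
  · obtain ⟨h1, h2⟩ := anb_true h
    exact Or.inr ⟨rfl, Nat.eq_of_beq_eq_true h1, Nat.eq_of_beq_eq_true h2⟩

/-- **the check of a leaf** -/
noncomputable def leafOk (d : Pd) (lo hi : ℕ → ℕ) (m01 m10 : ℕ) (th S0 S1 : List ℕ)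
    (den al ga be L0 L1 V0 V1 W0 W1 VC : ℕ) : Bool :=
  frN d.R fun R => frN d.H fun H => frN d.q fun q => frN d.a fun a => frN d.b fun b =>
  frN d.B fun B => frN d.G fun G => frN (lo 0) fun ka => frN (hi 0) fun kb =>
  frN (lo 1) fun ua => frN (hi 1) fun ub => frN (lo 2) fun ka1 => frN (hi 2) fun kb1 =>
  frN (lo 3) fun ua1 => frN (hi 3) fun ub1 => frN (mnb ub (hi 4)) fun K0 =>
  frN (mnb ub1 (hi 5)) fun K1 => frN (Nat.add ka ua) fun h0 => frN (Nat.add ka1 ua1) fun h1 =>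
  frN (fl ka kb ua ub) fun e0 => frN (fl ka1 kb1 ua1 ub1) fun e1 =>
  frN (Nat.sub H (Nat.add (Nat.add (Nat.add a b) 3) q)) fun X =>
  frN (Nat.sub H (Nat.add h0 h1)) fun Hc =>
  anb (BkA.okth R b m01 b X (BlkR.nth th)) (anb (BkA.okth R a m10 b X (BlkR.nth th))
  (anb (Nat.ble (Nat.succ (Nat.add be (Nat.mul al B)))
    (Nat.add (Nat.mul den (Nat.add (Nat.add a b) 3)) (Nat.mul ga q)))
  (anb (orb (Nat.beq e0 0) (sOk R (Nat.mul a b) G K0 h0 ua d.al0 d.bt0 d.al0' d.bt0' B S0))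
  (anb (orb (Nat.beq e1 0) (sOk R (Nat.mul a b) G K1 h1 ua1 d.al1 d.bt1 d.al1' d.bt1' B S1))
  (anb (rowsOk R a b B Hc e0 h0 e1 h1 kb kb1 ub ub1 th S0 S1 den al ga L0 L1 V0 V1 W0 W1 VC d.rr 0)
    (frN (Nat.sub (Nat.succ kb) ka) fun nk => frN (Nat.sub (Nat.succ ub) ua) fun nu =>
      frN (Nat.sub (Nat.succ kb1) ka1) fun nk1 => frN (Nat.sub (Nat.succ ub1) ua1) fun nu1 =>
      frN (lo 4) fun Ma => frN (hi 4) fun Mb => frN (lo 5) fun Ma1 => frN (hi 5) fun Mb1 =>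
      BlkM.blkOkM R H a b B m01 m10 G d.nt0 d.nt1 den be L0 L1 V0 V1 W0 W1 ka nk ua nu ka1 nk1
        ua1 nu1 Ma Mb Ma1 Mb1))))))

/-- the check of an empty box -/
noncomputable def emOk (d : Pd) (lo hi : ℕ → ℕ) (c : ℕ) : Bool :=
  frN d.R fun R => frN d.H fun H => frN d.a fun a => frN d.b fun b => frN d.G fun G =>
  frN (lo 0) fun ka => frN (Nat.sub (Nat.succ (hi 0)) ka) fun nk =>
  frN (lo 1) fun ua => frN (Nat.sub (Nat.succ (hi 1)) ua) fun nu =>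
  frN (lo 2) fun ka1 => frN (Nat.sub (Nat.succ (hi 2)) ka1) fun nk1 =>
  frN (lo 3) fun ua1 => frN (Nat.sub (Nat.succ (hi 3)) ua1) fun nu1 =>
  Nat.rec (motive := fun _ => Bool) (emRow R H (Nat.mul a b) a G ka nk ua nu d.nt0)
    (fun c' _ => Nat.rec (motive := fun _ => Bool)
      (emRow R H (Nat.mul a b) b G ka1 nk1 ua1 nu1 d.nt1)
      (fun _ _ => anb (Nat.ble 1 (Nat.add (Nat.add ka ua) (Nat.add ka1 ua1)))
        (frN d.B fun B => frN (lo 4) fun Ma => frN (hi 4) fun Mb => frN (lo 5) fun Ma1 =>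
          frN (hi 5) fun Mb1 => BlkM.blkOkM R H a b B R R G d.nt0 d.nt1 1 0 0 0 0 0 0 0
            ka nk ua nu ka1 nk1 ua1 nu1 Ma Mb Ma1 Mb1)) c') c

/-- **the check of a tree** -/
noncomputable def treeOk (d : Pd) (tr : Tr) : (ℕ → ℕ) → (ℕ → ℕ) → Bool :=
  Tr.rec (motive := fun _ => (ℕ → ℕ) → (ℕ → ℕ) → Bool) (fun c lo hi => emOk d lo hi c)
    (fun m01 m10 th S0 S1 den al ga be L0 L1 V0 V1 W0 W1 VC lo hi =>
      leafOk d lo hi m01 m10 th S0 S1 den al ga be L0 L1 V0 V1 W0 W1 VC)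
    (fun c v _ _ ihl ihr lo hi => anb (ihl lo (upd hi c v)) (ihr (upd lo c (Nat.succ v)) hi)) tr

section Sound

variable {d : Pd} {n : ℕ} {lo hi : ℕ → ℕ} {t h mu : ℕ → ℕ} {qq : ℕ → ℕ → ℕ} {s e : ℕ → ℤ}
  {P A D : ℕ → ℕ → ℕ} {N W : ℕ → ℕ → ℤ}

/-- the shares of the rest rows -/
lemma tm_le (F : PairF d) (G : BkW d.H n d.q d.a d.b (inB lo hi) t h mu P) :
    ∀ z ∈ Ico 2 n, t z ≤ d.tm := by
  intro z hz
  have h1 := G.cap1 (mem_Ico.1 hz).1 (mem_Ico.1 hz).2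
  have h2 := G.tz (show 1 ≤ z by have := (mem_Ico.1 hz).1; omega) (mem_Ico.1 hz).2
  have h3 := F.tm
  have h4 := F.hB
  omega

/-- **a leaf** -/
theorem leaf_sound (F : PairF d) (q1 : 1 ≤ d.q) (q2 : d.q + 2 ≤ n) {m01 m10 : ℕ}
    {th S0 S1 : List ℕ} {den al ga be L0 L1 V0 V1 W0 W1 VC : ℕ}
    (ok : leafOk d lo hi m01 m10 th S0 S1 den al ga be L0 L1 V0 V1 W0 W1 VC = true) :
    NoNd (d.R : ℤ) d.H n d.a d.b (inB lo hi) := by
  unfold leafOk at ok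
  simp only [frN_eq] at ok
  obtain ⟨k1, ok⟩ := anb_true ok
  obtain ⟨k2, ok⟩ := anb_true ok
  obtain ⟨k3, ok⟩ := anb_true ok
  obtain ⟨k4, ok⟩ := anb_true ok
  obtain ⟨k5, ok⟩ := anb_true ok
  obtain ⟨k6, k7⟩ := anb_true ok
  have hB := F.hB
  have eB : d.H - (d.a + d.b + 3) = d.B := by omega
  obtain ⟨l1, l2⟩ := anb_true F.n0
  obtain ⟨l3, l4⟩ := anb_true l2
  obtain ⟨l5, l6⟩ := anb_true F.n1
  obtain ⟨l7, l8⟩ := anb_true l6
  refine NoNd.of_blk (q := d.q) (den := den) (al := al) (ga := ga) (be := be) (L0 := L0)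
    (L1 := L1) (V0 := V0) (V1 := V1) (W0 := W0) (W1 := W1) (VC := VC) q1 q2 k1 k2 ?_ ?_ ?_
    (by omega)
  · -- the rest rows
    intro t h mu s e P A D N W C G z hz
    have hn := C.n3
    have hz2 := (mem_Ico.1 hz).1
    have hzn := (mem_Ico.1 hz).2
    have hp := G.pp
    rw [inB_iff] at hp
    have htm := tm_le F G
    have hcap := G.cap
    have hBs : ∑ z ∈ Ico 2 n, (t z + 1) ≤ d.B := by omega
    have tz := htm z hz
    have lr := F.lr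
    have rd := rrOk_sound _ _ F.rr (t z) (by omega)
    have ro := rowsOk_sound _ _ k6 (t z) (by omega)
    rw [Nat.zero_add] at rd ro
    have hHz := G.hz hz2 hzn
    have c0 := cell_le C (show 0 < n by omega) hzn (by omega) (τ := d.a * t z)
      (G := (d.rr[t z]).G0) (by rw [G.ta]) (Nat.le_of_ble_eq_true (anb_true rd).1)
    have c1 := cell_le C (show 1 < n by omega) hzn (by omega) (τ := d.b * t z)
      (G := (d.rr[t z]).G1) (by rw [G.tb])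
      (Nat.le_of_ble_eq_true (anb_true (anb_true (anb_true rd).2).2).1)
    have g05 : (d.rr[t z]).G0 ≤ 5 := Nat.le_of_ble_eq_true (anb_true (anb_true rd).2).1
    have g15 : (d.rr[t z]).G1 ≤ 5 :=
      Nat.le_of_ble_eq_true (anb_true (anb_true (anb_true (anb_true rd).2).2).2).1
    have pm0 : ∑ j ∈ (range n).erase 0, P 0 j ≤ mu 0 := by
      have := C.C.pm 0 (by omega)
      rw [← Nat.cast_sum] at this
      exact_mod_cast this
    have pm1 : ∑ j ∈ (range n).erase 1, P 1 j ≤ mu 1 := by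
      have := C.C.pm 1 (by omega)
      rw [← Nat.cast_sum] at this
      exact_mod_cast this
    refine row C G hz hB (w := BlkR.nth th (t z)) ?_ ?_ rd (e0 := fl (lo 0) (hi 0) (lo 1) (hi 1))
      (h0 := lo 0 + lo 1) (e1 := fl (lo 2) (hi 2) (lo 3) (hi 3)) (h1 := lo 2 + lo 3)
      (kc0 := hi 0) (kc1 := hi 2) (u0 := hi 1) (u1 := hi 3) (S0 := S0) (S1 := S1) ?_ ?_
      (by omega) (by omega) (by omega) (by omega) (Hc := d.H - (lo 0 + lo 1 + (lo 2 + lo 3)))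
      (by omega) ro
    · show BkA.thr d.R m01 m10 (BlkR.nth th) (BlkR.nth th) t 0 z = _
      unfold BkA.thr
      rw [if_pos rfl, if_neg (by omega)]
    · show BkA.thr d.R m01 m10 (BlkR.nth th) (BlkR.nth th) t 1 z = _
      unfold BkA.thr
      rw [if_neg (by norm_num), if_pos rfl, if_neg (by omega)]
    · rcases fl_eq (ka := lo 0) (kb := hi 0) (ua := lo 1) (ub := hi 1) with e0 | ⟨e0, e1, e2⟩
      · exact Or.inl e0
      · refine Or.inr ⟨e0, by omega, ?_⟩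
        have k8 : sOk d.R (d.a * d.b) d.G (mnb (hi 1) (hi 4)) (lo 0 + lo 1) (lo 1) d.al0 d.bt0
            d.al0' d.bt0' d.B S0 = true := by
          rcases orb_true k4 with k8 | k8
          · rw [e0] at k8
            exact absurd k8 (by decide)
          · exact k8
        rw [mnb_eq] at k8
        refine FB C (x := 0) (x' := 1) (Or.inl ⟨rfl, rfl⟩) hz (tm := d.tm)
          (by rw [G.ta]; exact F.g0) (by rw [G.ta]; exact l1) (by rw [G.ta]; exact l3) htm hBs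
          (τ := d.a * d.b) (by rw [G.ta, G.tb]) F.hG (by omega) (by omega) (by omega) (by omega) k8
    · rcases fl_eq (ka := lo 2) (kb := hi 2) (ua := lo 3) (ub := hi 3) with e0 | ⟨e0, e1, e2⟩
      · exact Or.inl e0
      · refine Or.inr ⟨e0, by omega, ?_⟩
        have k8 : sOk d.R (d.a * d.b) d.G (mnb (hi 3) (hi 5)) (lo 2 + lo 3) (lo 3) d.al1 d.bt1
            d.al1' d.bt1' d.B S1 = true := by
          rcases orb_true k5 with k8 | k8
          · rw [e0] at k8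
            exact absurd k8 (by decide)
          · exact k8
        rw [mnb_eq] at k8
        refine FB C (x := 1) (x' := 0) (Or.inr ⟨rfl, rfl⟩) hz (tm := d.tm)
          (by rw [G.tb]; exact F.g1) (by rw [G.tb]; exact l5) (by rw [G.tb]; exact l7) htm hBs
          (τ := d.a * d.b) (by rw [G.ta, G.tb, Nat.mul_comm]) F.hG (by omega) (by omega)
          (by omega) (by omega) k8
  · -- the block
    intro t h mu s e P A D N W C G
    have hp := G.pp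
    rw [inB_iff] at hp
    have htm := tm_le F G
    have hcap := G.cap
    have h01 := G.h01
    have x1 : Nat.sub (Nat.succ (hi 0)) (lo 0) = hi 0 + 1 - lo 0 := rfl
    have x2 : Nat.sub (Nat.succ (hi 1)) (lo 1) = hi 1 + 1 - lo 1 := rfl
    have x3 : Nat.sub (Nat.succ (hi 2)) (lo 2) = hi 2 + 1 - lo 2 := rfl
    have x4 : Nat.sub (Nat.succ (hi 3)) (lo 3) = hi 3 + 1 - lo 3 := rfl
    have M0 := sumN0 (show 2 ≤ n by omega) fun j => P 0 j
    have M1 := sumN1 (show 2 ≤ n by omega) fun j => P 1 j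
    refine BlkM.blockM C (Hh := d.H) (tm := d.tm) G.ta G.tb ?_ ?_ (by omega) htm (by omega) F.g0
      F.g1 F.n0 F.n1 F.l0 F.l1 F.G5 (ka := lo 0) (nk := hi 0 + 1 - lo 0) (ua := lo 1)
      (nu := hi 1 + 1 - lo 1) (ka1 := lo 2) (nk1 := hi 2 + 1 - lo 2) (ua1 := lo 3)
      (nu1 := hi 3 + 1 - lo 3) (Ma := lo 4) (Mb := hi 4) (Ma1 := lo 5) (Mb1 := hi 5)
      (by omega) (by omega) (by omega) (by omega) (by omega) (by omega)
      (by omega) (by omega) (by omega) (by omega) (by omega) (by omega) k7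
    · show BkA.thr d.R m01 m10 (BlkR.nth th) (BlkR.nth th) t 0 1 = _
      unfold BkA.thr
      rw [if_pos rfl, if_pos rfl]
    · show BkA.thr d.R m01 m10 (BlkR.nth th) (BlkR.nth th) t 1 0 = _
      unfold BkA.thr
      rw [if_neg (by norm_num), if_pos rfl, if_pos rfl]
  · rw [eB]
    exact Nat.le_of_ble_eq_true k3

lemma emRow_num {R H τ a G ka nk ua nu : ℕ} {nt : List ℕ}
    (ok : emRow R H τ a G ka nk ua nu nt = true) {h' mu' P' m' : ℕ} (hP : P' ≤ G)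
    (k1 : mu' + ka ≤ h') (k2 : h' < mu' + (ka + nk)) (u1 : ua ≤ mu') (u2 : mu' < ua + nu)
    (hH : h' ≤ H) (mup : a + 1 ≤ h' → 1 ≤ mu') (pm : P' + m' ≤ mu') (ml : m' < nt.length)
    (T : 2 * R * h' ≤ mu' * (2 * h' - 1 - mu') + (Bk.fx R τ P' + nt[m']) + 2 * R * (a + 1)) :
    False := by
  unfold emRow at ok
  simp only [frN_eq] at ok
  have h1 := allN_sound ok P' (by show P' < G + 1; omega)
  have h2 := allN_sound h1 (h' - mu' - ka) (by omega)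
  have h3 := allN_sound h2 (mu' - ua) (by omega)
  have e1 : Nat.add ka (h' - mu' - ka) = h' - mu' := by
    show ka + (h' - mu' - ka) = h' - mu'
    omega
  have e2 : Nat.add ua (mu' - ua) = mu' := by
    show ua + (mu' - ua) = mu'
    omega
  have e3 : Nat.add mu' (h' - mu') = h' := by
    show mu' + (h' - mu') = h'
    omega
  simp only [e1, e2, e3] at h3
  rcases orb_true h3 with h4 | h4
  · have : H + 1 ≤ h' := Nat.le_of_ble_eq_true h4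
    omega
  rcases orb_true h4 with h5 | h5
  · obtain ⟨h6, h7⟩ := anb_true h5
    have h8 : a + 1 ≤ h' := Nat.le_of_ble_eq_true h6
    have h9 := mup h8
    have h10 : mu' = 0 := Nat.eq_of_beq_eq_true h7
    omega
  · have h6 := lsN_sound _ _ h5 m' ml
    rw [Nat.zero_add] at h6
    rcases orb_true h6 with h7 | h7
    · have : mu' + 1 ≤ P' + m' := Nat.le_of_ble_eq_true h7
      omega
    · have h8 : Bk.fx R τ P' + 2 * R * (a + 1) + mu' * (2 * h' - 1 - mu') + nt[m'] + 1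
          ≤ 2 * R * h' := Nat.le_of_ble_eq_true h7
      omega

/-- **an empty box** -/
theorem em_sound (F : PairF d) (q1 : 1 ≤ d.q) (q2 : d.q + 2 ≤ n) {c : ℕ}
    (ok : emOk d lo hi c = true) : NoNd (d.R : ℤ) d.H n d.a d.b (inB lo hi) := by
  have okp : ∀ t t' m', BkA.okp d.R t d.R t' m' = true := by
    intro t t' m'
    unfold BkA.okp
    rw [Bool.or_eq_true]
    refine Or.inl (Nat.ble_eq_true_of_le ?_)
    show d.R + 0 ≤ t + d.R
    omega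
  have okt : ∀ c X, BkA.okth d.R c d.R d.b X (fun _ => d.R) = true := by
    intro c X
    unfold BkA.okth
    rw [List.all_eq_true]
    intro i _
    rw [Bool.and_eq_true, List.all_eq_true]
    refine ⟨okp _ _ _, fun j _ => ?_⟩
    rw [Bool.or_eq_true]
    exact Or.inr (okp _ _ _)
  refine NoNd.of_wd (q := d.q) (m01 := d.R) (m10 := d.R) (th0 := fun _ => d.R)
    (th1 := fun _ => d.R) q1 q2 (okt _ _) (okt _ _) fun t h mu s e P A D N W C G _ => ?_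
  have hn := C.n3
  have hp := G.pp
  rw [inB_iff] at hp
  have hB := F.hB
  have htm := tm_le F G
  have hcap := G.cap
  have h01 := G.h01
  have hBs : ∑ z ∈ Ico 2 n, (t z + 1) ≤ d.B := by omega
  have hG := F.hG
  have ta := G.ta
  have tb := G.tb
  have g0 : gcp d.R (t 0) d.tm = true := by rw [ta]; exact F.g0
  have g1 : gcp d.R (t 1) d.tm = true := by rw [tb]; exact F.g1
  have s0 := sum_g C (x := 0) (by norm_num) g0 htm hBs
  have s1 := sum_g C (x := 1) (by norm_num) g1 htm hBs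
  have l0 := F.l0
  have l1 := F.l1
  have ml0 : ∑ z ∈ Ico 2 n, P 0 z < d.nt0.length := by omega
  have ml1 : ∑ z ∈ Ico 2 n, P 1 z < d.nt1.length := by omega
  have n0 := BlkB.nt_le C (x := 0) (by norm_num) g0 (nt := d.nt0) (by rw [ta]; exact F.n0) htm hBs
    rfl ml0
  have n1 := BlkB.nt_le C (x := 1) (by norm_num) g1 (nt := d.nt1) (by rw [tb]; exact F.n1) htm hBs
    rfl ml1
  have mh0 : mu 0 ≤ h 0 := by exact_mod_cast C.C.muh 0 (by omega)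
  have mh1 : mu 1 ≤ h 1 := by exact_mod_cast C.C.muh 1 (by omega)
  have e0 := C.C.en 0 (by omega)
  rw [LdG.sum_er0 (by omega)] at e0
  have e1 := C.C.en 1 (by omega)
  rw [LdG.sum_er1 (by omega)] at e1
  have f0 := C.fx_spec (show 0 < n by omega) (show 1 < n by omega) (by norm_num)
  have f1 := C.fx_spec (show 1 < n by omega) (show 0 < n by omega) (by norm_num)
  rw [ta, tb] at f0 f1
  rw [Nat.mul_comm d.b d.a] at f1
  have E0 : 2 * e 0 ≤ ((mu 0 * (2 * h 0 - 1 - mu 0)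
      + (Bk.fx d.R (d.a * d.b) (P 0 1) + d.nt0[∑ z ∈ Ico 2 n, P 0 z]) : ℕ) : ℤ) :=
    en_le mh0 e0 (by push_cast at n0 ⊢; linarith)
  have E1 : 2 * e 1 ≤ ((mu 1 * (2 * h 1 - 1 - mu 1)
      + (Bk.fx d.R (d.a * d.b) (P 1 0) + d.nt1[∑ z ∈ Ico 2 n, P 1 z]) : ℕ) : ℤ) :=
    en_le mh1 e1 (by push_cast at n1 ⊢; linarith)
  have c01 := cell_le C (show 0 < n by omega) (show 1 < n by omega) (by norm_num)
    (τ := d.a * d.b) (by rw [ta, tb]) hG
  have pm0 := C.C.pm 0 (by omega)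
  have pm1 := C.C.pm 1 (by omega)
  rw [← Nat.cast_sum] at pm0 pm1
  have pm0' : P 0 1 + ∑ z ∈ Ico 2 n, P 0 z ≤ mu 0 := by
    rw [sumN0 (by omega)] at pm0
    exact_mod_cast pm0
  have pm1' : P 1 0 + ∑ z ∈ Ico 2 n, P 1 z ≤ mu 1 := by
    rw [sumN1 (by omega)] at pm1
    exact_mod_cast pm1
  have a0 := C.C.hh 0 (by omega)
  have a1 := C.C.hh 1 (by omega)
  have u0 : d.a + 1 ≤ h 0 → 1 ≤ mu 0 := fun h7 => by
    have h8 : (1 : ℤ) ≤ mu 0 := C.C.mup 0 (by omega) (by rw [ta] at a0; omega)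
    omega
  have u1 : d.b + 1 ≤ h 1 → 1 ≤ mu 1 := fun h7 => by
    have h8 : (1 : ℤ) ≤ mu 1 := C.C.mup 1 (by omega) (by rw [tb] at a1; omega)
    omega
  have x1 : Nat.sub (Nat.succ (hi 0)) (lo 0) = hi 0 + 1 - lo 0 := rfl
  have x2 : Nat.sub (Nat.succ (hi 1)) (lo 1) = hi 1 + 1 - lo 1 := rfl
  have x3 : Nat.sub (Nat.succ (hi 2)) (lo 2) = hi 2 + 1 - lo 2 := rfl
  have x4 : Nat.sub (Nat.succ (hi 3)) (lo 3) = hi 3 + 1 - lo 3 := rfl
  unfold emOk at ok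
  simp only [frN_eq, x1, x2, x3, x4] at ok
  rcases c with _ | c
  · refine emRow_num (h' := h 0) (mu' := mu 0) (P' := P 0 1) (m' := ∑ z ∈ Ico 2 n, P 0 z) ok
      (by omega) (by omega) (by omega) (by omega) (by omega) (by omega) u0 pm0' ml0 ?_
    have h1 := C.T0 E0 (b := 0) (a := 0) (d := 0) (c := 0) (Nat.zero_le _) (Nat.zero_le _)
      (Nat.zero_le _)
    rw [ta] at h1
    simp only [Nat.zero_mul, Nat.mul_zero, Nat.add_zero] at h1
    refine le_trans (le_of_eq ?_) h1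
    ring
  · rcases c with _ | c
    · refine emRow_num (h' := h 1) (mu' := mu 1) (P' := P 1 0) (m' := ∑ z ∈ Ico 2 n, P 1 z) ok
        (by omega) (by omega) (by omega) (by omega) (by omega) (by omega) u1 pm1' ml1 ?_
      have h1 := C.T1 E1 (b := 0) (a := 0) (d := 0) (c := 0) (Nat.zero_le _) (Nat.zero_le _)
        (Nat.zero_le _)
      rw [tb] at h1
      simp only [Nat.zero_mul, Nat.mul_zero, Nat.add_zero] at h1
      refine le_trans (le_of_eq ?_) h1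
      ring
    · obtain ⟨k1, k2⟩ := anb_true ok
      have k3 : 1 ≤ lo 0 + lo 1 + (lo 2 + lo 3) := Nat.le_of_ble_eq_true k1
      have M0 := sumN0 (show 2 ≤ n by omega) fun j => P 0 j
      have M1 := sumN1 (show 2 ≤ n by omega) fun j => P 1 j
      have k4 := BlkM.blockM C (Hh := d.H) (tm := d.tm) (m01 := d.R) (m10 := d.R) ta tb (by
          show BkA.thr d.R d.R d.R (fun _ => d.R) (fun _ => d.R) t 0 1 = _
          unfold BkA.thr
          rw [if_pos rfl, if_pos rfl]) (by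
          show BkA.thr d.R d.R d.R (fun _ => d.R) (fun _ => d.R) t 1 0 = _
          unfold BkA.thr
          rw [if_neg (by norm_num), if_pos rfl, if_pos rfl]) (by omega) htm hBs F.g0
        F.g1 F.n0 F.n1 F.l0 F.l1 F.G5 (ka := lo 0) (nk := hi 0 + 1 - lo 0) (ua := lo 1)
        (nu := hi 1 + 1 - lo 1) (ka1 := lo 2) (nk1 := hi 2 + 1 - lo 2) (ua1 := lo 3)
        (nu1 := hi 3 + 1 - lo 3) (Ma := lo 4) (Mb := hi 4) (Ma1 := lo 5) (Mb1 := hi 5)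
        (by omega) (by omega) (by omega) (by omega) (by omega) (by omega)
        (by omega) (by omega) (by omega) (by omega) (by omega) (by omega) k2
      omega

/-- **a tree** -/
theorem tree_sound (F : PairF d) (q1 : 1 ≤ d.q) (q2 : d.q + 2 ≤ n) : ∀ (tr : Tr) (lo hi : ℕ → ℕ),
    treeOk d tr lo hi = true → NoNd (d.R : ℤ) d.H n d.a d.b (inB lo hi) := by
  intro tr
  induction tr with
  | E c =>
    intro lo hi ok
    exact em_sound F q1 q2 (c := c) ok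
  | L m01 m10 th S0 S1 den al ga be L0 L1 V0 V1 W0 W1 VC =>
    intro lo hi ok
    exact leaf_sound F q1 q2 (m01 := m01) (m10 := m10) (th := th) (S0 := S0) (S1 := S1)
      (den := den) (al := al) (ga := ga) (be := be) (L0 := L0) (L1 := L1) (V0 := V0) (V1 := V1)
      (W0 := W0) (W1 := W1) (VC := VC) ok
  | S c v l r ihl ihr =>
    intro lo hi ok
    have h1 : anb (treeOk d l lo (upd hi c v)) (treeOk d r (upd lo c (Nat.succ v)) hi) = true := ok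
    obtain ⟨h2, h3⟩ := anb_true h1
    exact sp c v (ihl _ _ h2) (ihr _ _ h3)

/-- **a pair from one tree** -/
theorem pair_sound {R H a b : ℕ} (hp : pairOk d = true) (q2 : d.q + 2 ≤ n) (q1 : 1 ≤ d.q)
    {tr : Tr} (ok : treeOk d tr (fun _ => 0) (fun _ => d.H) = true)
    (e1 : d.R = R) (e2 : d.H = H) (e4 : d.a = a) (e5 : d.b = b) :
    NoPr (R : ℤ) H n a b := by
  subst e1 e2 e4 e5
  exact of_root q1 q2 (tree_sound (pairOk_sound hp) q1 q2 tr _ _ ok)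

end Sound

end BlkD

end Pool.Agent.Lib.MP_f04ccf_co
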