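import Pool.Agent.Lib.MP_f04ccf_co.M.BlkT

/-!
MP_f04ccf_co, PLAN W, block certificate: a part of the tree of a pair of shares (for large trees which are
cut into several theorems with `BlkD.sp`).
-/

set_option autoImplicit false

namespace Pool.Agent.Lib.MP_f04ccf_co

namespace BlkD

/-- **a box of a pair from one tree** -/
theorem part_sound {d : Pd} {n R H a b : ℕ} {lo hi : ℕ → ℕ} (hp : pairOk d = true)
    (q2 : d.q + 2 ≤ n) (q1 : 1 ≤ d.q) {tr : Tr} (ok : treeOk d tr lo hi = true)
    (e1 : d.R = R) (e2 : d.H = H) (e4 : d.a = a) (e5 : d.b = b) :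
    NoNd (R : ℤ) H n a b (inB lo hi) := by
  subst e1 e2 e4 e5
  exact tree_sound (pairOk_sound hp) q1 q2 tr _ _ ok

end BlkD

end Pool.Agent.Lib.MP_f04ccf_co
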