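import Pool.Agent.Lib.MP_f04ccf_co.M.EnPx

/-!
MP_f04ccf_co, block certificate with exceptions, `R = 16`, `H = 17`, the pair `(3, 3)` (data of helper99 / helper13,
generated by helper8, genx.py): the numbers.
-/

set_option autoImplicit false
set_option maxRecDepth 100000

namespace Pool.Agent.Lib.MP_f04ccf_co

namespace BlkC

/-- the numbers of the pair `(3, 3)`, `R = 16`, `H = 17` -/
def d16_17_3_3 : BlkD.Pd :=
  ⟨16, 17, 4, 3, 3, 8, 3, 1, 4, 1, 8, 0, 4, 1, 8, 0, [0, 8, 16, 20, 24, 28, 32, 36, 40], [0, 8, 16,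
    20, 24, 28, 32, 36, 40], [⟨1, 1, 1, 4, 8, [0, 4], [0, 4]⟩, ⟨1, 1, 1, 6, 12, [0, 6], [0, 6]⟩,
    ⟨1, 1, 1, 6, 12, [0, 6], [0, 6]⟩, ⟨1, 1, 1, 6, 16, [0, 8], [0, 8]⟩]⟩

/-- the exceptions of the pair `(3, 3)` -/
def x16_17_3_3 : List (ℕ × ℕ × ℕ × ℕ) :=
  [(5, 3, 4, 3), (5, 4, 4, 3)]

lemma ok16_17_3_3 : BlkD.pairOk d16_17_3_3 = true := by decide +kernel

end BlkC

end Pool.Agent.Lib.MP_f04ccf_co
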