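import Pool.Agent.Lib.MP_f04ccf_co.M.BlkX18_18_4_4d

/-!
MP_f04ccf_co, block certificate with exceptions, `R = 18`, `H = 18`, the pair `(4, 4)` (data of helper99 / helper13,
generated by helper8, genx.py): the exceptions, part 1 of 1.
-/

set_option autoImplicit false
set_option maxRecDepth 100000

namespace Pool.Agent.Lib.MP_f04ccf_co

namespace BlkC

lemma e18_18_4_4_5_0 : EnPr.lall (fun l => EnPr.one 18 5 (6, 2, 6, 2) (4 :: 4 :: l))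
    (EnPr.prof (5 - 2) 4 (18 - (5 + 1) - 4 - 4)) = true := by
  decide +kernel

lemma e18_18_4_4_5_1 : EnPr.lall (fun l => EnPr.one 18 5 (6, 3, 6, 2) (4 :: 4 :: l))
    (EnPr.prof (5 - 2) 4 (18 - (5 + 1) - 4 - 4)) = true := by
  decide +kernel

lemma e18_18_4_4_5_2 : EnPr.lall (fun l => EnPr.one 18 5 (6, 3, 6, 3) (4 :: 4 :: l))
    (EnPr.prof (5 - 2) 4 (18 - (5 + 1) - 4 - 4)) = true := by
  decide +kernel

lemma e18_18_4_4_5_3 : EnPr.lall (fun l => EnPr.one 18 5 (6, 4, 6, 4) (4 :: 4 :: l))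
    (EnPr.prof (5 - 2) 4 (18 - (5 + 1) - 4 - 4)) = true := by
  decide +kernel

lemma e18_18_4_4_5_4 : EnPr.lall (fun l => EnPr.one 18 5 (6, 5, 6, 4) (4 :: 4 :: l))
    (EnPr.prof (5 - 2) 4 (18 - (5 + 1) - 4 - 4)) = true := by
  decide +kernel

lemma e18_18_4_4_5_5 : EnPr.lall (fun l => EnPr.one 18 5 (7, 5, 5, 3) (4 :: 4 :: l))
    (EnPr.prof (5 - 2) 4 (18 - (5 + 1) - 4 - 4)) = true := by
  decide +kernel

lemma e18_18_4_4_5_6 : EnPr.lall (fun l => EnPr.one 18 5 (7, 5, 5, 4) (4 :: 4 :: l))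
    (EnPr.prof (5 - 2) 4 (18 - (5 + 1) - 4 - 4)) = true := by
  decide +kernel

lemma e18_18_4_4_6_0 : EnPr.lall (fun l => EnPr.one 18 6 (6, 2, 6, 2) (4 :: 4 :: l))
    (EnPr.prof (6 - 2) 4 (18 - (6 + 1) - 4 - 4)) = true := by
  decide +kernel

lemma e18_18_4_4_6_1 : EnPr.lall (fun l => EnPr.one 18 6 (6, 3, 6, 2) (4 :: 4 :: l))
    (EnPr.prof (6 - 2) 4 (18 - (6 + 1) - 4 - 4)) = true := by
  decide +kernel

lemma e18_18_4_4_6_2 : EnPr.lall (fun l => EnPr.one 18 6 (6, 3, 6, 3) (4 :: 4 :: l))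
    (EnPr.prof (6 - 2) 4 (18 - (6 + 1) - 4 - 4)) = true := by
  decide +kernel

lemma e18_18_4_4_6_3 : EnPr.lall (fun l => EnPr.one 18 6 (6, 4, 6, 4) (4 :: 4 :: l))
    (EnPr.prof (6 - 2) 4 (18 - (6 + 1) - 4 - 4)) = true := by
  decide +kernel

lemma e18_18_4_4_6_4 : EnPr.lall (fun l => EnPr.one 18 6 (6, 5, 6, 4) (4 :: 4 :: l))
    (EnPr.prof (6 - 2) 4 (18 - (6 + 1) - 4 - 4)) = true := by
  decide +kernel

lemma e18_18_4_4_6_5 : EnPr.lall (fun l => EnPr.one 18 6 (7, 5, 5, 3) (4 :: 4 :: l))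
    (EnPr.prof (6 - 2) 4 (18 - (6 + 1) - 4 - 4)) = true := by
  decide +kernel

lemma e18_18_4_4_6_6 : EnPr.lall (fun l => EnPr.one 18 6 (7, 5, 5, 4) (4 :: 4 :: l))
    (EnPr.prof (6 - 2) 4 (18 - (6 + 1) - 4 - 4)) = true := by
  decide +kernel

lemma e18_18_4_4_7_0 : EnPr.lall (fun l => EnPr.one 18 7 (6, 2, 6, 2) (4 :: 4 :: l))
    (EnPr.prof (7 - 2) 4 (18 - (7 + 1) - 4 - 4)) = true := by
  decide +kernel

lemma e18_18_4_4_7_1 : EnPr.lall (fun l => EnPr.one 18 7 (6, 3, 6, 2) (4 :: 4 :: l))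
    (EnPr.prof (7 - 2) 4 (18 - (7 + 1) - 4 - 4)) = true := by
  decide +kernel

lemma e18_18_4_4_7_2 : EnPr.lall (fun l => EnPr.one 18 7 (6, 3, 6, 3) (4 :: 4 :: l))
    (EnPr.prof (7 - 2) 4 (18 - (7 + 1) - 4 - 4)) = true := by
  decide +kernel

lemma e18_18_4_4_7_3 : EnPr.lall (fun l => EnPr.one 18 7 (6, 4, 6, 4) (4 :: 4 :: l))
    (EnPr.prof (7 - 2) 4 (18 - (7 + 1) - 4 - 4)) = true := by
  decide +kernel

lemma e18_18_4_4_7_4 : EnPr.lall (fun l => EnPr.one 18 7 (6, 5, 6, 4) (4 :: 4 :: l))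
    (EnPr.prof (7 - 2) 4 (18 - (7 + 1) - 4 - 4)) = true := by
  decide +kernel

lemma e18_18_4_4_7_5 : EnPr.lall (fun l => EnPr.one 18 7 (7, 5, 5, 3) (4 :: 4 :: l))
    (EnPr.prof (7 - 2) 4 (18 - (7 + 1) - 4 - 4)) = true := by
  decide +kernel

lemma e18_18_4_4_7_6 : EnPr.lall (fun l => EnPr.one 18 7 (7, 5, 5, 4) (4 :: 4 :: l))
    (EnPr.prof (7 - 2) 4 (18 - (7 + 1) - 4 - 4)) = true := by
  decide +kernel

lemma e18_18_4_4_8_0 : EnPr.lall (fun l => EnPr.one 18 8 (6, 2, 6, 2) (4 :: 4 :: l))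
    (EnPr.prof (8 - 2) 4 (18 - (8 + 1) - 4 - 4)) = true := by
  decide +kernel

lemma e18_18_4_4_8_1 : EnPr.lall (fun l => EnPr.one 18 8 (6, 3, 6, 2) (4 :: 4 :: l))
    (EnPr.prof (8 - 2) 4 (18 - (8 + 1) - 4 - 4)) = true := by
  decide +kernel

lemma e18_18_4_4_8_2 : EnPr.lall (fun l => EnPr.one 18 8 (6, 3, 6, 3) (4 :: 4 :: l))
    (EnPr.prof (8 - 2) 4 (18 - (8 + 1) - 4 - 4)) = true := by
  decide +kernel

lemma e18_18_4_4_8_3 : EnPr.lall (fun l => EnPr.one 18 8 (6, 4, 6, 4) (4 :: 4 :: l))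
    (EnPr.prof (8 - 2) 4 (18 - (8 + 1) - 4 - 4)) = true := by
  decide +kernel

lemma e18_18_4_4_8_4 : EnPr.lall (fun l => EnPr.one 18 8 (6, 5, 6, 4) (4 :: 4 :: l))
    (EnPr.prof (8 - 2) 4 (18 - (8 + 1) - 4 - 4)) = true := by
  decide +kernel

lemma e18_18_4_4_8_5 : EnPr.lall (fun l => EnPr.one 18 8 (7, 5, 5, 3) (4 :: 4 :: l))
    (EnPr.prof (8 - 2) 4 (18 - (8 + 1) - 4 - 4)) = true := by
  decide +kernel

lemma e18_18_4_4_8_6 : EnPr.lall (fun l => EnPr.one 18 8 (7, 5, 5, 4) (4 :: 4 :: l))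
    (EnPr.prof (8 - 2) 4 (18 - (8 + 1) - 4 - 4)) = true := by
  decide +kernel

lemma e18_18_4_4_9_0 : EnPr.lall (fun l => EnPr.one 18 9 (6, 2, 6, 2) (4 :: 4 :: l))
    (EnPr.prof (9 - 2) 4 (18 - (9 + 1) - 4 - 4)) = true := by
  decide +kernel

lemma e18_18_4_4_9_1 : EnPr.lall (fun l => EnPr.one 18 9 (6, 3, 6, 2) (4 :: 4 :: l))
    (EnPr.prof (9 - 2) 4 (18 - (9 + 1) - 4 - 4)) = true := by
  decide +kernel

lemma e18_18_4_4_9_2 : EnPr.lall (fun l => EnPr.one 18 9 (6, 3, 6, 3) (4 :: 4 :: l))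
    (EnPr.prof (9 - 2) 4 (18 - (9 + 1) - 4 - 4)) = true := by
  decide +kernel

lemma e18_18_4_4_9_3 : EnPr.lall (fun l => EnPr.one 18 9 (6, 4, 6, 4) (4 :: 4 :: l))
    (EnPr.prof (9 - 2) 4 (18 - (9 + 1) - 4 - 4)) = true := by
  decide +kernel

lemma e18_18_4_4_9_4 : EnPr.lall (fun l => EnPr.one 18 9 (6, 5, 6, 4) (4 :: 4 :: l))
    (EnPr.prof (9 - 2) 4 (18 - (9 + 1) - 4 - 4)) = true := by
  decide +kernel

lemma e18_18_4_4_9_5 : EnPr.lall (fun l => EnPr.one 18 9 (7, 5, 5, 3) (4 :: 4 :: l))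
    (EnPr.prof (9 - 2) 4 (18 - (9 + 1) - 4 - 4)) = true := by
  decide +kernel

lemma e18_18_4_4_9_6 : EnPr.lall (fun l => EnPr.one 18 9 (7, 5, 5, 4) (4 :: 4 :: l))
    (EnPr.prof (9 - 2) 4 (18 - (9 + 1) - 4 - 4)) = true := by
  decide +kernel

end BlkC

end Pool.Agent.Lib.MP_f04ccf_co
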