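import Pool.Agent.Lib.MP_f04ccf_co.M.BlkX18_18_4_4d
import Pool.Agent.Lib.MP_f04ccf_co.M.BlkX18_18_4_4p1
import Pool.Agent.Lib.MP_f04ccf_co.M.BlkX18_18_4_4e1

/-!
MP_f04ccf_co, block certificate with exceptions, `R = 18`, `H = 18`, the pair `(4, 4)` (data of helper99 / helper13,
generated by helper8, genx.py): the parts together.
-/

set_option autoImplicit false
set_option maxRecDepth 100000

namespace Pool.Agent.Lib.MP_f04ccf_co

namespace BlkC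

lemma x18_18_4_4_5 : NoNd ((18 : ℕ) : ℤ) ((18 : ℕ) : ℤ) 5 4 4 fun x y z w _ _ =>
    BlkD.exF 4 4 x18_18_4_4 x y z w := by
  refine NoNd.of_E (by norm_num) (by norm_num) fun e he => ?_
  simp only [x18_18_4_4, List.mem_cons, List.not_mem_nil, or_false] at he
  rcases he with rfl | rfl | rfl | rfl | rfl | rfl | rfl
  · exact e18_18_4_4_5_0
  · exact e18_18_4_4_5_1
  · exact e18_18_4_4_5_2
  · exact e18_18_4_4_5_3
  · exact e18_18_4_4_5_4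
  · exact e18_18_4_4_5_5
  · exact e18_18_4_4_5_6

lemma x18_18_4_4_6 : NoNd ((18 : ℕ) : ℤ) ((18 : ℕ) : ℤ) 6 4 4 fun x y z w _ _ =>
    BlkD.exF 4 4 x18_18_4_4 x y z w := by
  refine NoNd.of_E (by norm_num) (by norm_num) fun e he => ?_
  simp only [x18_18_4_4, List.mem_cons, List.not_mem_nil, or_false] at he
  rcases he with rfl | rfl | rfl | rfl | rfl | rfl | rfl
  · exact e18_18_4_4_6_0
  · exact e18_18_4_4_6_1
  · exact e18_18_4_4_6_2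
  · exact e18_18_4_4_6_3
  · exact e18_18_4_4_6_4
  · exact e18_18_4_4_6_5
  · exact e18_18_4_4_6_6

lemma x18_18_4_4_7 : NoNd ((18 : ℕ) : ℤ) ((18 : ℕ) : ℤ) 7 4 4 fun x y z w _ _ =>
    BlkD.exF 4 4 x18_18_4_4 x y z w := by
  refine NoNd.of_E (by norm_num) (by norm_num) fun e he => ?_
  simp only [x18_18_4_4, List.mem_cons, List.not_mem_nil, or_false] at he
  rcases he with rfl | rfl | rfl | rfl | rfl | rfl | rfl
  · exact e18_18_4_4_7_0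
  · exact e18_18_4_4_7_1
  · exact e18_18_4_4_7_2
  · exact e18_18_4_4_7_3
  · exact e18_18_4_4_7_4
  · exact e18_18_4_4_7_5
  · exact e18_18_4_4_7_6

lemma x18_18_4_4_8 : NoNd ((18 : ℕ) : ℤ) ((18 : ℕ) : ℤ) 8 4 4 fun x y z w _ _ =>
    BlkD.exF 4 4 x18_18_4_4 x y z w := by
  refine NoNd.of_E (by norm_num) (by norm_num) fun e he => ?_
  simp only [x18_18_4_4, List.mem_cons, List.not_mem_nil, or_false] at he
  rcases he with rfl | rfl | rfl | rfl | rfl | rfl | rfl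
  · exact e18_18_4_4_8_0
  · exact e18_18_4_4_8_1
  · exact e18_18_4_4_8_2
  · exact e18_18_4_4_8_3
  · exact e18_18_4_4_8_4
  · exact e18_18_4_4_8_5
  · exact e18_18_4_4_8_6

lemma x18_18_4_4_9 : NoNd ((18 : ℕ) : ℤ) ((18 : ℕ) : ℤ) 9 4 4 fun x y z w _ _ =>
    BlkD.exF 4 4 x18_18_4_4 x y z w := by
  refine NoNd.of_E (by norm_num) (by norm_num) fun e he => ?_
  simp only [x18_18_4_4, List.mem_cons, List.not_mem_nil, or_false] at he
  rcases he with rfl | rfl | rfl | rfl | rfl | rfl | rfl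
  · exact e18_18_4_4_9_0
  · exact e18_18_4_4_9_1
  · exact e18_18_4_4_9_2
  · exact e18_18_4_4_9_3
  · exact e18_18_4_4_9_4
  · exact e18_18_4_4_9_5
  · exact e18_18_4_4_9_6

lemma r18_18_4_4 {n : ℕ} (hn : 5 ≤ n) : BlkD.NdX d18_18_4_4 (BlkD.exF 4 4 x18_18_4_4) n (fun _ => 0) (fun _ => 18) :=
  (BlkD.NdX.sp 0 4
  (BlkD.NdX.sp 2 4
  (BlkD.NdX.sp 0 2
  (BlkD.NdX.sp 0 1
  (BlkD.NdX.sp 0 0
  (n18_18_4_4_0 hn)
  (BlkD.NdX.sp 1 17
  (BlkD.NdX.sp 1 8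
  (BlkD.NdX.sp 1 4
  (n18_18_4_4_1 hn)
  (n18_18_4_4_2 hn))
  (n18_18_4_4_3 hn))
  (n18_18_4_4_4 hn)))
  (BlkD.NdX.sp 1 16
  (BlkD.NdX.sp 1 8
  (BlkD.NdX.sp 1 4
  (BlkD.NdX.sp 1 2
  (n18_18_4_4_5 hn)
  (BlkD.NdX.sp 1 3
  (n18_18_4_4_6 hn)
  (n18_18_4_4_7 hn)))
  (n18_18_4_4_8 hn))
  (n18_18_4_4_9 hn))
  (n18_18_4_4_10 hn)))
  (n18_18_4_4_11 hn))
  (n18_18_4_4_12 hn))
  (n18_18_4_4_13 hn))

/-- **`R = 18`, `H = 18`, the pair `(4, 4)`** -/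
theorem pr18_18_4_4 {n : ℕ} (hn : 5 ≤ n) : NoPr ((18 : ℕ) : ℤ) ((18 : ℕ) : ℤ) n 4 4 := by
  by_cases h : n < 10
  · interval_cases n
    · exact BlkD.NdX.pr (r18_18_4_4 (by norm_num)) (by decide) (by decide) x18_18_4_4_5 rfl rfl rfl rfl
    · exact BlkD.NdX.pr (r18_18_4_4 (by norm_num)) (by decide) (by decide) x18_18_4_4_6 rfl rfl rfl rfl
    · exact BlkD.NdX.pr (r18_18_4_4 (by norm_num)) (by decide) (by decide) x18_18_4_4_7 rfl rfl rfl rfl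
    · exact BlkD.NdX.pr (r18_18_4_4 (by norm_num)) (by decide) (by decide) x18_18_4_4_8 rfl rfl rfl rfl
    · exact BlkD.NdX.pr (r18_18_4_4 (by norm_num)) (by decide) (by decide) x18_18_4_4_9 rfl rfl rfl rfl
  · exact NoPr.big (by omega) (by omega)

end BlkC

end Pool.Agent.Lib.MP_f04ccf_co
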