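import Pool.Agent.Lib.MP_f04ccf_co.M.EnPx

/-!
MP_f04ccf_co, block certificate with exceptions, `R = 18`, `H = 19`, the pair `(4, 4)` (data of helper99 / helper13,
generated by helper8, genx.py): the numbers.
-/

set_option autoImplicit false
set_option maxRecDepth 100000

namespace Pool.Agent.Lib.MP_f04ccf_co

namespace BlkC

/-- the numbers of the pair `(4, 4)`, `R = 18`, `H = 19` -/
def d18_19_4_4 : BlkD.Pd :=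
  ⟨18, 19, 4, 4, 4, 8, 4, 2, 2, 2, 10, 0, 2, 2, 10, 0, [0, 10, 20, 22, 24, 26, 28, 30, 32], [0, 10,
    20, 22, 24, 26, 28, 30, 32], [⟨1, 1, 1, 4, 8, [0, 4], [0, 4]⟩, ⟨1, 1, 1, 6, 12, [0, 6], [0,
    6]⟩, ⟨1, 1, 1, 6, 16, [0, 8], [0, 8]⟩, ⟨1, 1, 1, 6, 16, [0, 8], [0, 8]⟩, ⟨2, 2, 1, 4, 28, [0,
    10, 14], [0, 10, 14]⟩]⟩

/-- the exceptions of the pair `(4, 4)` -/
def x18_19_4_4 : List (ℕ × ℕ × ℕ × ℕ) :=
  [(6, 2, 5, 2), (6, 2, 6, 2), (6, 3, 5, 2), (6, 3, 5, 3), (6, 3, 5, 4), (6, 3, 6, 2), (6, 3, 6,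
    3), (6, 4, 5, 3), (6, 4, 5, 4), (6, 4, 6, 3), (6, 4, 6, 4), (6, 5, 5, 3), (6, 5, 5, 4), (6, 5,
    6, 3), (6, 5, 6, 4), (6, 5, 6, 5), (7, 5, 4, 2), (7, 5, 4, 3), (7, 5, 5, 3), (7, 5, 5, 4), (7,
    6, 4, 2), (7, 6, 4, 3), (7, 6, 5, 4)]

lemma ok18_19_4_4 : BlkD.pairOk d18_19_4_4 = true := by decide +kernel

end BlkC

end Pool.Agent.Lib.MP_f04ccf_co
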