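import Pool.Agent.Lib.MP_f04ccf_co.M.BlkX19_19_4_4d

/-!
MP_f04ccf_co, block certificate with exceptions, `R = 19`, `H = 19`, the pair `(4, 4)` (data of helper99 / helper13,
generated by helper8, genx.py): part 1 of 2.
-/

set_option autoImplicit false
set_option maxRecDepth 100000

namespace Pool.Agent.Lib.MP_f04ccf_co

namespace BlkC

/-- a subtree -/
def t19_19_4_4_0 : BlkD.Tr :=
  .L 5 5 [4, 4, 4, 5, 5] [] [] 100000 62500 62500 600000 0 0 100000 50000 0 0 25000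

lemma s19_19_4_4_0 : BlkD.treeX d19_19_4_4 (BlkD.exF 4 4 x19_19_4_4) t19_19_4_4_0
    (fun _ => 0)
    (BlkD.upd (BlkD.upd (BlkD.upd (BlkD.upd (BlkD.upd (fun _ => 19) 0 4) 2 4) 0 2) 0 1) 0 0) = true := by
  decide +kernel

lemma n19_19_4_4_0 {n : ℕ} (hn : 5 ≤ n) : BlkD.NdX d19_19_4_4 (BlkD.exF 4 4 x19_19_4_4) n
    (fun _ => 0)
    (BlkD.upd (BlkD.upd (BlkD.upd (BlkD.upd (BlkD.upd (fun _ => 19) 0 4) 2 4) 0 2) 0 1) 0 0) :=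
  BlkD.NdX.tree s19_19_4_4_0 ok19_19_4_4 (by decide) hn

/-- a subtree -/
def t19_19_4_4_1 : BlkD.Tr :=
  .L 5 5 [4, 4, 4, 5, 5] [] [] 100000 30556 30556 877778 11111 0 11111 50000 0 22222 33333

lemma s19_19_4_4_1 : BlkD.treeX d19_19_4_4 (BlkD.exF 4 4 x19_19_4_4) t19_19_4_4_1
    (BlkD.upd (fun _ => 0) 0 1)
    (BlkD.upd (BlkD.upd (BlkD.upd (BlkD.upd (BlkD.upd (BlkD.upd (BlkD.upd (BlkD.upd (fun _ => 19) 0 4) 2 4) 0 2) 0 1) 1 18) 1 9) 1 4) 1 2) = true := by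
  decide +kernel

lemma n19_19_4_4_1 {n : ℕ} (hn : 5 ≤ n) : BlkD.NdX d19_19_4_4 (BlkD.exF 4 4 x19_19_4_4) n
    (BlkD.upd (fun _ => 0) 0 1)
    (BlkD.upd (BlkD.upd (BlkD.upd (BlkD.upd (BlkD.upd (BlkD.upd (BlkD.upd (BlkD.upd (fun _ => 19) 0 4) 2 4) 0 2) 0 1) 1 18) 1 9) 1 4) 1 2) :=
  BlkD.NdX.tree s19_19_4_4_1 ok19_19_4_4 (by decide) hn

/-- a subtree -/
def t19_19_4_4_2 : BlkD.Tr :=
  .S 2 2 (.S 2 1 (.S 2 0 (.L 5 5 [4, 4, 4, 5, 5] [42, 32, 22, 12, 0, 0] [] 100000 50000 50000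
    600000 0 0 0 100000 0 0 20000) (.S 3 14 (.S 3 7 (.S 3 3 (.L 5 5 [4, 4, 4, 5, 5] [42, 32, 22,
    12, 0, 0] [] 100000 37500 37500 800000 0 0 0 0 0 0 50000) (.S 3 5 (.S 3 4 (.L 5 5 [4, 4, 4, 5,
    5] [42, 32, 22, 12, 0, 0] [54, 50, 40, 30, 20, 0] 100000 30976 30976 897370 2632 5921 35526
    32895 5921 8553 47149) (.L 5 5 [4, 4, 4, 5, 5] [42, 32, 22, 12, 0, 0] [66, 64, 60, 50, 40, 30]
    100000 25000 25000 951614 16129 0 16129 25806 0 35484 38710)) (.S 3 6 (.S 4 3 (.S 4 1 (.S 4 0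
    (.L 5 5 [4, 4, 4, 5, 5] [12, 0, 0, 0, 0, 0] [80, 78, 76, 72, 62, 52] 100000 56000 32000 648000
    124000 0 0 40000 80000 40000 40000) (.S 5 6 (.S 5 3 (.E 2) (.S 5 5 (.S 5 4 (.L 1 1 [9, 11, 13,
    15, 15] [22, 12, 0, 0, 0, 0] [76, 72, 62, 52, 42, 0] 100000 16667 16667 1000001 0 33333 0 50000
    66667 66667 33333) (.L 1 1 [9, 11, 13, 15, 15] [22, 12, 0, 0, 0, 0] [78, 76, 72, 62, 52, 42]
    100000 30000 30000 880000 0 0 0 100000 80000 0 40000)) (.L 1 1 [9, 11, 13, 15, 15] [22, 12, 0,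
    0, 0, 0] [80, 78, 76, 72, 62, 52] 100000 100000 0 200000 50000 0 0 200000 0 0 20000))) (.E 2)))
    (.L 1 1 [9, 11, 13, 15, 15] [42, 32, 22, 12, 0, 0] [80, 78, 76, 72, 62, 52] 100000 25000 25000
    920000 0 0 80000 10000 0 70000 40000)) (.E 2)) (.E 1)))) (.E 1)) (.E 1))) (.S 3 13 (.S 3 6 (.S
    3 3 (.L 1 1 [9, 11, 13, 15, 15] [42, 32, 22, 12, 0, 0] [] 100000 26786 26786 921432 0 0 41071
    37500 8929 12500 50000) (.L 5 5 [4, 4, 4, 5, 5] [42, 32, 22, 12, 0, 0] [] 100000 25000 24999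
    966668 11111 0 11111 33333 0 33333 33333)) (.E 1)) (.E 1))) (.L 5 5 [4, 4, 4, 5, 5] [42, 32,
    22, 12, 0, 0] [] 100000 23913 23913 943480 26087 0 39130 4348 4348 52174 47826)

lemma s19_19_4_4_2 : BlkD.treeX d19_19_4_4 (BlkD.exF 4 4 x19_19_4_4) t19_19_4_4_2
    (BlkD.upd (BlkD.upd (fun _ => 0) 0 1) 1 3)
    (BlkD.upd (BlkD.upd (BlkD.upd (BlkD.upd (BlkD.upd (BlkD.upd (BlkD.upd (BlkD.upd (fun _ => 19) 0 4) 2 4) 0 2) 0 1) 1 18) 1 9) 1 4) 1 3) = true := by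
  decide +kernel

lemma n19_19_4_4_2 {n : ℕ} (hn : 5 ≤ n) : BlkD.NdX d19_19_4_4 (BlkD.exF 4 4 x19_19_4_4) n
    (BlkD.upd (BlkD.upd (fun _ => 0) 0 1) 1 3)
    (BlkD.upd (BlkD.upd (BlkD.upd (BlkD.upd (BlkD.upd (BlkD.upd (BlkD.upd (BlkD.upd (fun _ => 19) 0 4) 2 4) 0 2) 0 1) 1 18) 1 9) 1 4) 1 3) :=
  BlkD.NdX.tree s19_19_4_4_2 ok19_19_4_4 (by decide) hn

/-- a subtree -/
def t19_19_4_4_3 : BlkD.Tr :=
  .S 2 1 (.S 2 0 (.L 5 5 [4, 4, 4, 5, 5] [54, 50, 40, 30, 20, 0] [] 100000 62500 62500 600000 0 0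
    50000 100000 0 0 25000) (.S 3 13 (.S 3 6 (.S 3 3 (.L 5 5 [4, 4, 4, 5, 5] [54, 50, 40, 30, 20,
    0] [] 100000 31145 31144 896652 5587 3352 34078 33520 8939 5587 46369) (.S 3 5 (.S 3 4 (.S 4 4
    (.S 4 2 (.L 5 5 [4, 4, 4, 5, 5] [40, 30, 20, 0, 0, 0] [54, 50, 40, 30, 20, 0] 100000 23142
    23141 980405 4054 4054 27703 28378 24324 7432 43919) (.L 5 5 [4, 4, 4, 5, 5] [54, 50, 40, 30,
    20, 0] [54, 50, 40, 30, 20, 0] 100000 33654 33654 884616 0 0 57692 28846 0 9615 46154)) (.E 2))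
    (.S 4 4 (.S 4 2 (.S 4 1 (.L 5 5 [4, 4, 4, 5, 5] [30, 20, 0, 0, 0, 0] [66, 64, 60, 50, 40, 30]
    100000 13750 13750 1020000 25000 0 25000 25000 45000 45000 35000) (.S 5 5 (.S 5 2 (.L 5 5 [4,
    4, 4, 5, 5] [40, 30, 20, 0, 0, 0] [50, 40, 30, 0, 0, 0] 100000 25000 25000 920000 0 0 90000 0 0
    80000 40000) (.S 5 4 (.S 5 3 (.L 3 3 [4, 5, 6, 7, 8] [40, 30, 20, 0, 0, 0] [60, 50, 40, 30, 0,
    0] 100000 25000 24999 966667 0 33333 0 66667 66667 0 33333) (.L 3 3 [4, 5, 6, 7, 8] [40, 30,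
    20, 0, 0, 0] [64, 60, 50, 40, 30, 0] 100000 25000 25000 920000 0 0 10000 80000 70000 0 40000))
    (.L 3 3 [4, 5, 6, 7, 8] [40, 30, 20, 0, 0, 0] [66, 64, 60, 50, 40, 30] 100000 40000 0 680000 0
    0 0 140000 80000 0 40000))) (.E 2))) (.L 3 3 [4, 5, 6, 7, 8] [54, 50, 40, 30, 20, 0] [66, 64,
    60, 50, 40, 30] 100000 25000 25000 920000 0 0 80000 10000 0 70000 40000)) (.E 2))) (.S 4 4 (.S
    4 2 (.S 4 1 (.L 3 3 [4, 5, 6, 7, 8] [30, 20, 0, 0, 0, 0] [80, 78, 76, 72, 62, 52] 100000 125000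
    0 0 100000 0 0 225000 25000 0 20000) (.S 5 6 (.S 5 3 (.E 2) (.S 5 5 (.S 5 4 (.L 5 5 [4, 4, 4,
    5, 5] [40, 30, 20, 0, 0, 0] [76, 72, 62, 52, 42, 0] 100000 10000 10000 1040000 0 40000 0 40000
    80000 60000 40000) (.L 5 5 [4, 4, 4, 5, 5] [40, 30, 20, 0, 0, 0] [78, 76, 72, 62, 52, 42]
    100000 30000 30000 900000 0 0 0 100000 80000 0 40000)) (.L 5 5 [4, 4, 4, 5, 5] [40, 30, 20, 0,
    0, 0] [80, 78, 76, 72, 62, 52] 100000 80000 0 360000 0 0 60000 180000 20000 0 40000))) (.E 2)))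
    (.L 5 5 [4, 4, 4, 5, 5] [54, 50, 40, 30, 20, 0] [80, 78, 76, 72, 62, 52] 100000 30000 30000
    900000 0 0 100000 0 0 80000 40000)) (.E 2)))) (.E 1)) (.E 1))) (.S 3 12 (.S 3 6 (.S 3 3 (.S 3 1
    (.L 5 5 [4, 4, 4, 5, 5] [54, 50, 40, 30, 20, 0] [] 100000 37500 37500 800000 0 0 0 0 0 0 50000)
    (.S 3 2 (.L 5 5 [4, 4, 4, 5, 5] [54, 50, 40, 30, 20, 0] [30, 20, 10, 0, 0, 0] 100000 29839
    29839 899356 5806 0 36129 35484 10968 5806 47097) (.S 4 4 (.S 4 2 (.L 5 5 [4, 4, 4, 5, 5] [40,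
    30, 20, 0, 0, 0] [48, 38, 28, 18, 0, 0] 100000 22369 22369 984211 5263 0 26316 36842 21053
    10526 47368) (.L 5 5 [4, 4, 4, 5, 5] [54, 50, 40, 30, 20, 0] [48, 38, 28, 18, 0, 0] 100000
    35715 35715 871428 0 0 64286 21429 0 7143 42857)) (.E 2)))) (.S 3 5 (.S 3 4 (.S 4 4 (.S 4 2 (.S
    4 1 (.L 5 5 [4, 4, 4, 5, 5] [30, 20, 0, 0, 0, 0] [62, 58, 48, 38, 28, 0] 100000 16667 16667
    1000000 33333 0 33333 16667 33333 50000 33333) (.S 5 4 (.S 5 2 (.L 5 5 [4, 4, 4, 5, 5] [40, 30,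
    20, 0, 0, 0] [48, 38, 28, 0, 0, 0] 100000 25000 25000 920000 0 0 90000 0 0 80000 40000) (.S 5 3
    (.E 9) (.L 5 5 [4, 4, 4, 5, 5] [40, 30, 20, 0, 0, 0] [62, 58, 48, 38, 28, 0] 100000 25000 25000
    920000 0 0 10000 80000 70000 0 40000))) (.E 2))) (.L 5 5 [4, 4, 4, 5, 5] [54, 50, 40, 30, 20,
    0] [62, 58, 48, 38, 28, 0] 100000 25000 25000 920000 0 0 80000 10000 0 70000 40000)) (.E 2))
    (.L 5 5 [4, 4, 4, 5, 5] [54, 50, 40, 30, 20, 0] [76, 74, 70, 60, 50, 40] 100000 30000 30000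
    900000 0 0 0 100000 80000 0 40000)) (.E 1))) (.E 1)) (.E 1))

lemma s19_19_4_4_3 : BlkD.treeX d19_19_4_4 (BlkD.exF 4 4 x19_19_4_4) t19_19_4_4_3
    (BlkD.upd (BlkD.upd (BlkD.upd (fun _ => 0) 0 1) 1 3) 1 4)
    (BlkD.upd (BlkD.upd (BlkD.upd (BlkD.upd (BlkD.upd (BlkD.upd (BlkD.upd (BlkD.upd (fun _ => 19) 0 4) 2 4) 0 2) 0 1) 1 18) 1 9) 1 4) 2 2) = true := by
  decide +kernel

lemma n19_19_4_4_3 {n : ℕ} (hn : 5 ≤ n) : BlkD.NdX d19_19_4_4 (BlkD.exF 4 4 x19_19_4_4) n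
    (BlkD.upd (BlkD.upd (BlkD.upd (fun _ => 0) 0 1) 1 3) 1 4)
    (BlkD.upd (BlkD.upd (BlkD.upd (BlkD.upd (BlkD.upd (BlkD.upd (BlkD.upd (BlkD.upd (fun _ => 19) 0 4) 2 4) 0 2) 0 1) 1 18) 1 9) 1 4) 2 2) :=
  BlkD.NdX.tree s19_19_4_4_3 ok19_19_4_4 (by decide) hn

/-- a subtree -/
def t19_19_4_4_4 : BlkD.Tr :=
  .S 2 3 (.S 3 11 (.S 3 5 (.S 3 2 (.L 5 5 [4, 4, 4, 5, 5] [54, 50, 40, 30, 20, 0] [] 100000 23465
    23464 953508 16667 0 33333 16667 6140 36842 46491) (.L 5 5 [4, 4, 4, 5, 5] [54, 50, 40, 30, 20,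
    0] [] 100000 20000 20000 993334 26667 0 53333 0 26667 80000 40000)) (.E 1)) (.E 1)) (.L 5 5 [4,
    4, 4, 5, 5] [54, 50, 40, 30, 20, 0] [] 100000 60000 60000 780000 80000 0 80000 0 0 80000 40000)

lemma s19_19_4_4_4 : BlkD.treeX d19_19_4_4 (BlkD.exF 4 4 x19_19_4_4) t19_19_4_4_4
    (BlkD.upd (BlkD.upd (BlkD.upd (BlkD.upd (fun _ => 0) 0 1) 1 3) 1 4) 2 3)
    (BlkD.upd (BlkD.upd (BlkD.upd (BlkD.upd (BlkD.upd (BlkD.upd (BlkD.upd (fun _ => 19) 0 4) 2 4) 0 2) 0 1) 1 18) 1 9) 1 4) = true := by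
  decide +kernel

lemma n19_19_4_4_4 {n : ℕ} (hn : 5 ≤ n) : BlkD.NdX d19_19_4_4 (BlkD.exF 4 4 x19_19_4_4) n
    (BlkD.upd (BlkD.upd (BlkD.upd (BlkD.upd (fun _ => 0) 0 1) 1 3) 1 4) 2 3)
    (BlkD.upd (BlkD.upd (BlkD.upd (BlkD.upd (BlkD.upd (BlkD.upd (BlkD.upd (fun _ => 19) 0 4) 2 4) 0 2) 0 1) 1 18) 1 9) 1 4) :=
  BlkD.NdX.tree s19_19_4_4_4 ok19_19_4_4 (by decide) hn

/-- a subtree -/
def t19_19_4_4_5 : BlkD.Tr :=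
  .S 2 1 (.S 2 0 (.L 5 5 [4, 4, 4, 5, 5] [66, 64, 60, 50, 40, 30] [] 100000 62500 62500 600000 0 0
    50000 100000 0 0 25000) (.S 3 12 (.S 3 6 (.S 3 3 (.L 5 5 [4, 4, 4, 5, 5] [66, 64, 60, 50, 40,
    30] [] 100000 25000 25000 951614 0 16129 25806 16129 35484 0 38710) (.S 3 5 (.S 3 4 (.S 4 5 (.S
    4 2 (.L 5 5 [4, 4, 4, 5, 5] [50, 40, 30, 0, 0, 0] [54, 50, 40, 30, 20, 0] 100000 25000 25000
    966668 33333 0 33333 33333 33333 33333 33333) (.S 4 4 (.S 4 3 (.S 5 4 (.S 5 2 (.L 3 3 [4, 5, 6,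
    7, 8] [60, 50, 40, 30, 0, 0] [40, 30, 20, 0, 0, 0] 100000 25000 25000 966668 33333 0 33333
    33333 33333 33333 33333) (.L 3 3 [4, 5, 6, 7, 8] [60, 50, 40, 30, 0, 0] [54, 50, 40, 30, 20, 0]
    100000 25000 25000 920000 0 0 10000 80000 70000 0 40000)) (.E 2)) (.L 3 3 [4, 5, 6, 7, 8] [64,
    60, 50, 40, 30, 0] [54, 50, 40, 30, 20, 0] 100000 58334 58334 800002 0 0 100000 50000 0 16667
    33333)) (.L 3 3 [4, 5, 6, 7, 8] [66, 64, 60, 50, 40, 30] [54, 50, 40, 30, 20, 0] 100000 62500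
    50000 650000 0 0 112500 56250 0 18750 37500))) (.E 2)) (.S 4 5 (.S 4 2 (.L 1 1 [9, 11, 13, 15,
    15] [50, 40, 30, 0, 0, 0] [66, 64, 60, 50, 40, 30] 100000 60000 60000 793334 53333 46667 0
    60000 80000 40000 40000) (.S 4 4 (.S 4 3 (.S 5 5 (.S 5 2 (.L 1 1 [9, 11, 13, 15, 15] [60, 50,
    40, 30, 0, 0] [50, 40, 30, 0, 0, 0] 100000 100000 100000 520000 0 100000 100000 40000 0 20000
    40000) (.S 5 4 (.S 5 3 (.E 9) (.L 1 1 [9, 11, 13, 15, 15] [60, 50, 40, 30, 0, 0] [64, 60, 50,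
    40, 30, 0] 100000 30000 30000 900000 0 0 0 100000 80000 0 40000)) (.L 1 1 [9, 11, 13, 15, 15]
    [60, 50, 40, 30, 0, 0] [66, 64, 60, 50, 40, 30] 100000 80000 0 360000 0 0 60000 180000 20000 0
    40000))) (.E 2)) (.L 1 1 [9, 11, 13, 15, 15] [64, 60, 50, 40, 30, 0] [66, 64, 60, 50, 40, 30]
    100000 30000 30000 900000 0 0 100000 0 0 80000 40000)) (.L 1 1 [9, 11, 13, 15, 15] [66, 64, 60,
    50, 40, 30] [66, 64, 60, 50, 40, 30] 100000 80000 0 360000 0 0 180000 60000 0 20000 40000)))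
    (.E 2))) (.E 2))) (.E 1)) (.E 1))) (.S 3 11 (.S 3 5 (.S 3 2 (.L 5 5 [4, 4, 4, 5, 5] [66, 64,
    60, 50, 40, 30] [] 100000 24417 24417 958000 14000 0 29000 14000 30000 2333 37667) (.S 3 4 (.S
    3 3 (.S 4 5 (.S 4 2 (.L 5 5 [4, 4, 4, 5, 5] [50, 40, 30, 0, 0, 0] [48, 38, 28, 18, 0, 0] 100000
    25807 25807 945162 38710 0 38710 25806 29032 38710 32258) (.S 4 4 (.S 4 3 (.S 5 3 (.S 5 1 (.L 5
    5 [4, 4, 4, 5, 5] [60, 50, 40, 30, 0, 0] [28, 18, 0, 0, 0, 0] 100000 25000 24999 900000 33333 0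
    66667 0 0 66667 33333) (.S 5 2 (.L 5 5 [4, 4, 4, 5, 5] [60, 50, 40, 30, 0, 0] [38, 28, 18, 0,
    0, 0] 100000 25000 25000 920000 0 0 90000 0 0 80000 40000) (.L 5 5 [4, 4, 4, 5, 5] [60, 50, 40,
    30, 0, 0] [48, 38, 28, 18, 0, 0] 100000 25000 25000 920000 0 0 10000 80000 70000 0 40000))) (.E
    2)) (.L 5 5 [4, 4, 4, 5, 5] [64, 60, 50, 40, 30, 0] [48, 38, 28, 18, 0, 0] 100000 55556 55556
    800001 0 0 100000 33333 0 11111 22222)) (.L 5 5 [4, 4, 4, 5, 5] [66, 64, 60, 50, 40, 30] [48,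
    38, 28, 18, 0, 0] 100000 68421 26316 531581 0 0 142105 47368 0 15789 31579))) (.E 2)) (.S 4 5
    (.S 4 2 (.L 2 2 [6, 7, 9, 10, 11] [50, 40, 30, 0, 0, 0] [62, 58, 48, 38, 28, 0] 100000 55556
    55556 794445 83333 0 77778 0 0 66667 33333) (.S 4 4 (.S 4 3 (.S 5 4 (.S 5 2 (.L 2 2 [6, 7, 9,
    10, 11] [60, 50, 40, 30, 0, 0] [48, 38, 28, 0, 0, 0] 100000 30000 30000 900000 0 0 100000 0 0
    80000 40000) (.S 5 3 (.E 9) (.L 2 2 [6, 7, 9, 10, 11] [60, 50, 40, 30, 0, 0] [62, 58, 48, 38,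
    28, 0] 100000 30000 30000 900000 0 0 0 100000 80000 0 40000))) (.E 2)) (.L 2 2 [6, 7, 9, 10,
    11] [64, 60, 50, 40, 30, 0] [62, 58, 48, 38, 28, 0] 100000 30000 30000 900000 0 0 100000 0 0
    80000 40000)) (.L 2 2 [6, 7, 9, 10, 11] [66, 64, 60, 50, 40, 30] [62, 58, 48, 38, 28, 0] 100000
    80000 0 360000 0 0 180000 60000 0 20000 40000))) (.E 2))) (.E 2))) (.E 1)) (.E 1))

lemma s19_19_4_4_5 : BlkD.treeX d19_19_4_4 (BlkD.exF 4 4 x19_19_4_4) t19_19_4_4_5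
    (BlkD.upd (BlkD.upd (fun _ => 0) 0 1) 1 5)
    (BlkD.upd (BlkD.upd (BlkD.upd (BlkD.upd (BlkD.upd (BlkD.upd (BlkD.upd (BlkD.upd (BlkD.upd (BlkD.upd (fun _ => 19) 0 4) 2 4) 0 2) 0 1) 1 18) 1 9) 1 7) 1 6) 1 5) 2 2) = true := by
  decide +kernel

lemma n19_19_4_4_5 {n : ℕ} (hn : 5 ≤ n) : BlkD.NdX d19_19_4_4 (BlkD.exF 4 4 x19_19_4_4) n
    (BlkD.upd (BlkD.upd (fun _ => 0) 0 1) 1 5)
    (BlkD.upd (BlkD.upd (BlkD.upd (BlkD.upd (BlkD.upd (BlkD.upd (BlkD.upd (BlkD.upd (BlkD.upd (BlkD.upd (fun _ => 19) 0 4) 2 4) 0 2) 0 1) 1 18) 1 9) 1 7) 1 6) 1 5) 2 2) :=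
  BlkD.NdX.tree s19_19_4_4_5 ok19_19_4_4 (by decide) hn

/-- a subtree -/
def t19_19_4_4_6 : BlkD.Tr :=
  .S 2 3 (.S 3 10 (.S 3 5 (.S 3 2 (.S 3 1 (.L 2 2 [6, 7, 9, 10, 11] [66, 64, 60, 50, 40, 30] []
    100000 37500 37500 850000 50000 0 50000 0 0 50000 50000) (.L 2 2 [6, 7, 9, 10, 11] [66, 64, 60,
    50, 40, 30] [34, 24, 14, 0, 0, 0] 100000 70000 70000 740000 90000 0 90000 0 0 80000 40000)) (.S
    3 4 (.S 3 3 (.S 4 5 (.S 4 2 (.L 2 2 [6, 7, 9, 10, 11] [50, 40, 30, 0, 0, 0] [54, 44, 34, 24, 0,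
    0] 100000 83334 83334 666666 100000 0 50000 66667 16667 0 33333) (.L 2 2 [6, 7, 9, 10, 11] [66,
    64, 60, 50, 40, 30] [54, 44, 34, 24, 0, 0] 100000 30000 30000 900000 0 0 100000 0 0 80000
    40000)) (.E 2)) (.E 1)) (.E 1))) (.E 1)) (.E 1)) (.S 3 9 (.S 3 4 (.S 3 2 (.S 3 1 (.L 2 2 [6, 7,
    9, 10, 11] [66, 64, 60, 50, 40, 30] [] 100000 80000 80000 600000 100000 0 100000 0 0 80000
    40000) (.S 4 5 (.S 4 2 (.L 2 2 [6, 7, 9, 10, 11] [50, 40, 30, 0, 0, 0] [38, 28, 18, 0, 0, 0]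
    100000 66667 66667 733334 100000 0 60000 23333 0 30000 26667) (.L 2 2 [6, 7, 9, 10, 11] [66,
    64, 60, 50, 40, 30] [38, 28, 18, 0, 0, 0] 100000 30000 30000 900000 0 0 100000 0 0 80000
    40000)) (.E 2))) (.E 1)) (.E 1)) (.E 1))

lemma s19_19_4_4_6 : BlkD.treeX d19_19_4_4 (BlkD.exF 4 4 x19_19_4_4) t19_19_4_4_6
    (BlkD.upd (BlkD.upd (BlkD.upd (fun _ => 0) 0 1) 1 5) 2 3)
    (BlkD.upd (BlkD.upd (BlkD.upd (BlkD.upd (BlkD.upd (BlkD.upd (BlkD.upd (BlkD.upd (BlkD.upd (fun _ => 19) 0 4) 2 4) 0 2) 0 1) 1 18) 1 9) 1 7) 1 6) 1 5) = true := by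
  decide +kernel

lemma n19_19_4_4_6 {n : ℕ} (hn : 5 ≤ n) : BlkD.NdX d19_19_4_4 (BlkD.exF 4 4 x19_19_4_4) n
    (BlkD.upd (BlkD.upd (BlkD.upd (fun _ => 0) 0 1) 1 5) 2 3)
    (BlkD.upd (BlkD.upd (BlkD.upd (BlkD.upd (BlkD.upd (BlkD.upd (BlkD.upd (BlkD.upd (BlkD.upd (fun _ => 19) 0 4) 2 4) 0 2) 0 1) 1 18) 1 9) 1 7) 1 6) 1 5) :=
  BlkD.NdX.tree s19_19_4_4_6 ok19_19_4_4 (by decide) hn

/-- a subtree -/
def t19_19_4_4_7 : BlkD.Tr :=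
  .S 2 2 (.S 2 1 (.S 2 0 (.L 2 2 [6, 7, 9, 10, 11] [80, 78, 76, 72, 62, 52] [] 100000 75000 75000
    520000 0 0 90000 100000 0 0 40000) (.S 3 11 (.S 3 5 (.S 3 2 (.L 2 2 [6, 7, 9, 10, 11] [80, 78,
    76, 72, 62, 52] [] 100000 25000 24999 900000 0 0 50000 0 33333 0 33333) (.S 3 4 (.S 3 3 (.S 4 6
    (.S 4 3 (.E 2) (.S 4 5 (.S 4 4 (.S 5 3 (.S 5 1 (.L 1 1 [9, 11, 13, 15, 15] [76, 72, 62, 52, 42,
    0] [22, 12, 0, 0, 0, 0] 100000 25000 24999 966667 33333 0 66667 0 33333 66667 33333) (.L 1 1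
    [9, 11, 13, 15, 15] [76, 72, 62, 52, 42, 0] [42, 32, 22, 12, 0, 0] 100000 25000 25000 920000 0
    0 10000 80000 70000 0 40000)) (.E 2)) (.L 1 1 [9, 11, 13, 15, 15] [78, 76, 72, 62, 52, 42] [42,
    32, 22, 12, 0, 0] 100000 50000 50000 800000 0 0 100000 0 0 0 20000)) (.L 1 1 [9, 11, 13, 15,
    15] [80, 78, 76, 72, 62, 52] [42, 32, 22, 12, 0, 0] 100000 100001 1 200001 0 33333 200000 33333
    0 0 13333))) (.E 2)) (.S 4 6 (.S 4 3 (.E 2) (.S 4 5 (.S 4 4 (.S 5 4 (.S 5 2 (.L 5 5 [4, 4, 4,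
    5, 5] [76, 72, 62, 52, 42, 0] [40, 30, 20, 0, 0, 0] 100000 10000 10000 1040000 40000 0 40000 0
    60000 80000 40000) (.L 5 5 [4, 4, 4, 5, 5] [76, 72, 62, 52, 42, 0] [54, 50, 40, 30, 20, 0]
    100000 60000 60000 740000 40000 0 40000 100000 40000 0 40000)) (.E 2)) (.L 5 5 [4, 4, 4, 5, 5]
    [78, 76, 72, 62, 52, 42] [54, 50, 40, 30, 20, 0] 100000 30000 30000 900000 0 0 100000 0 0 80000
    40000)) (.L 5 5 [4, 4, 4, 5, 5] [80, 78, 76, 72, 62, 52] [54, 50, 40, 30, 20, 0] 100000 80000 0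
    360000 0 0 180000 60000 0 20000 40000))) (.E 2))) (.E 2))) (.E 2)) (.E 1))) (.S 3 10 (.S 3 5
    (.S 3 2 (.S 3 1 (.L 5 5 [4, 4, 4, 5, 5] [80, 78, 76, 72, 62, 52] [] 100000 25000 24999 900000 0
    0 50000 0 33333 0 33333) (.S 4 6 (.S 4 3 (.E 2) (.S 4 5 (.S 4 4 (.S 5 2 (.S 5 1 (.L 5 5 [4, 4,
    4, 5, 5] [76, 72, 62, 52, 42, 0] [20, 10, 0, 0, 0, 0] 100000 5000 5000 1000000 0 0 50000 0
    80000 80000 40000) (.L 5 5 [4, 4, 4, 5, 5] [76, 72, 62, 52, 42, 0] [30, 20, 10, 0, 0, 0] 100000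
    25000 25000 920000 0 0 10000 80000 70000 0 40000)) (.E 2)) (.L 5 5 [4, 4, 4, 5, 5] [78, 76, 72,
    62, 52, 42] [30, 20, 10, 0, 0, 0] 100000 50000 50000 800000 0 0 100000 0 0 0 20000)) (.L 5 5
    [4, 4, 4, 5, 5] [80, 78, 76, 72, 62, 52] [30, 20, 10, 0, 0, 0] 100000 100000 0 200000 0 50000
    200000 50000 0 0 20000))) (.E 2))) (.S 3 4 (.S 3 3 (.S 4 6 (.S 4 3 (.E 2) (.S 4 5 (.S 4 4 (.L 5
    5 [4, 4, 4, 5, 5] [76, 72, 62, 52, 42, 0] [48, 38, 28, 18, 0, 0] 100000 60000 60000 740000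
    40000 0 40000 100000 40000 0 40000) (.L 5 5 [4, 4, 4, 5, 5] [78, 76, 72, 62, 52, 42] [48, 38,
    28, 18, 0, 0] 100000 55000 55000 750000 0 0 100000 50000 0 30000 40000)) (.L 5 5 [4, 4, 4, 5,
    5] [80, 78, 76, 72, 62, 52] [48, 38, 28, 18, 0, 0] 100000 125000 0 0 0 0 225000 100000 0 0
    12500))) (.E 2)) (.E 2)) (.E 2))) (.E 1)) (.E 1))) (.L 5 5 [4, 4, 4, 5, 5] [80, 78, 76, 72, 62,
    52] [] 100000 5000 5000 1000000 0 0 50000 0 80000 80000 40000)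

lemma s19_19_4_4_7 : BlkD.treeX d19_19_4_4 (BlkD.exF 4 4 x19_19_4_4) t19_19_4_4_7
    (BlkD.upd (BlkD.upd (BlkD.upd (fun _ => 0) 0 1) 1 5) 1 6)
    (BlkD.upd (BlkD.upd (BlkD.upd (BlkD.upd (BlkD.upd (BlkD.upd (BlkD.upd (BlkD.upd (fun _ => 19) 0 4) 2 4) 0 2) 0 1) 1 18) 1 9) 1 7) 1 6) = true := by
  decide +kernel

lemma n19_19_4_4_7 {n : ℕ} (hn : 5 ≤ n) : BlkD.NdX d19_19_4_4 (BlkD.exF 4 4 x19_19_4_4) n
    (BlkD.upd (BlkD.upd (BlkD.upd (fun _ => 0) 0 1) 1 5) 1 6)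
    (BlkD.upd (BlkD.upd (BlkD.upd (BlkD.upd (BlkD.upd (BlkD.upd (BlkD.upd (BlkD.upd (fun _ => 19) 0 4) 2 4) 0 2) 0 1) 1 18) 1 9) 1 7) 1 6) :=
  BlkD.NdX.tree s19_19_4_4_7 ok19_19_4_4 (by decide) hn

/-- a subtree -/
def t19_19_4_4_8 : BlkD.Tr :=
  .E 0

lemma s19_19_4_4_8 : BlkD.treeX d19_19_4_4 (BlkD.exF 4 4 x19_19_4_4) t19_19_4_4_8
    (BlkD.upd (BlkD.upd (BlkD.upd (fun _ => 0) 0 1) 1 5) 1 7)
    (BlkD.upd (BlkD.upd (BlkD.upd (BlkD.upd (BlkD.upd (BlkD.upd (BlkD.upd (fun _ => 19) 0 4) 2 4) 0 2) 0 1) 1 18) 1 9) 1 7) = true := by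
  decide +kernel

lemma n19_19_4_4_8 {n : ℕ} (hn : 5 ≤ n) : BlkD.NdX d19_19_4_4 (BlkD.exF 4 4 x19_19_4_4) n
    (BlkD.upd (BlkD.upd (BlkD.upd (fun _ => 0) 0 1) 1 5) 1 7)
    (BlkD.upd (BlkD.upd (BlkD.upd (BlkD.upd (BlkD.upd (BlkD.upd (BlkD.upd (fun _ => 19) 0 4) 2 4) 0 2) 0 1) 1 18) 1 9) 1 7) :=
  BlkD.NdX.tree s19_19_4_4_8 ok19_19_4_4 (by decide) hn

/-- a subtree -/
def t19_19_4_4_9 : BlkD.Tr :=
  .E 0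

lemma s19_19_4_4_9 : BlkD.treeX d19_19_4_4 (BlkD.exF 4 4 x19_19_4_4) t19_19_4_4_9
    (BlkD.upd (BlkD.upd (BlkD.upd (fun _ => 0) 0 1) 1 5) 1 8)
    (BlkD.upd (BlkD.upd (BlkD.upd (BlkD.upd (BlkD.upd (BlkD.upd (fun _ => 19) 0 4) 2 4) 0 2) 0 1) 1 18) 1 9) = true := by
  decide +kernel

lemma n19_19_4_4_9 {n : ℕ} (hn : 5 ≤ n) : BlkD.NdX d19_19_4_4 (BlkD.exF 4 4 x19_19_4_4) n
    (BlkD.upd (BlkD.upd (BlkD.upd (fun _ => 0) 0 1) 1 5) 1 8)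
    (BlkD.upd (BlkD.upd (BlkD.upd (BlkD.upd (BlkD.upd (BlkD.upd (fun _ => 19) 0 4) 2 4) 0 2) 0 1) 1 18) 1 9) :=
  BlkD.NdX.tree s19_19_4_4_9 ok19_19_4_4 (by decide) hn

/-- a subtree -/
def t19_19_4_4_10 : BlkD.Tr :=
  .E 0

lemma s19_19_4_4_10 : BlkD.treeX d19_19_4_4 (BlkD.exF 4 4 x19_19_4_4) t19_19_4_4_10
    (BlkD.upd (BlkD.upd (fun _ => 0) 0 1) 1 10)
    (BlkD.upd (BlkD.upd (BlkD.upd (BlkD.upd (BlkD.upd (fun _ => 19) 0 4) 2 4) 0 2) 0 1) 1 18) = true := by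
  decide +kernel

lemma n19_19_4_4_10 {n : ℕ} (hn : 5 ≤ n) : BlkD.NdX d19_19_4_4 (BlkD.exF 4 4 x19_19_4_4) n
    (BlkD.upd (BlkD.upd (fun _ => 0) 0 1) 1 10)
    (BlkD.upd (BlkD.upd (BlkD.upd (BlkD.upd (BlkD.upd (fun _ => 19) 0 4) 2 4) 0 2) 0 1) 1 18) :=
  BlkD.NdX.tree s19_19_4_4_10 ok19_19_4_4 (by decide) hn

/-- a subtree -/
def t19_19_4_4_11 : BlkD.Tr :=
  .E 0

lemma s19_19_4_4_11 : BlkD.treeX d19_19_4_4 (BlkD.exF 4 4 x19_19_4_4) t19_19_4_4_11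
    (BlkD.upd (BlkD.upd (fun _ => 0) 0 1) 1 19)
    (BlkD.upd (BlkD.upd (BlkD.upd (BlkD.upd (fun _ => 19) 0 4) 2 4) 0 2) 0 1) = true := by
  decide +kernel

lemma n19_19_4_4_11 {n : ℕ} (hn : 5 ≤ n) : BlkD.NdX d19_19_4_4 (BlkD.exF 4 4 x19_19_4_4) n
    (BlkD.upd (BlkD.upd (fun _ => 0) 0 1) 1 19)
    (BlkD.upd (BlkD.upd (BlkD.upd (BlkD.upd (fun _ => 19) 0 4) 2 4) 0 2) 0 1) :=
  BlkD.NdX.tree s19_19_4_4_11 ok19_19_4_4 (by decide) hn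

/-- a subtree -/
def t19_19_4_4_12 : BlkD.Tr :=
  .S 1 1 (.L 5 5 [4, 4, 4, 5, 5] [] [] 100000 30556 30556 877778 22222 0 22222 50000 0 22222 33333)
    (.S 2 2 (.S 2 1 (.S 2 0 (.L 5 5 [4, 4, 4, 5, 5] [30, 20, 10, 0, 0, 0] [] 100000 50000 50000
    600000 0 0 0 100000 0 0 20000) (.S 3 14 (.S 3 7 (.S 3 3 (.L 5 5 [4, 4, 4, 5, 5] [30, 20, 10, 0,
    0, 0] [] 100000 37500 37500 800000 0 0 0 0 0 0 50000) (.S 3 5 (.L 5 5 [4, 4, 4, 5, 5] [30, 20,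
    10, 0, 0, 0] [] 100000 29351 29351 952208 0 15931 22059 25735 3676 16667 41912) (.S 3 6 (.S 4 2
    (.S 4 1 (.L 5 5 [4, 4, 4, 5, 5] [20, 10, 0, 0, 0, 0] [80, 78, 76, 72, 62, 52] 100000 5000 5000
    1000000 0 0 0 50000 80000 80000 40000) (.L 5 5 [4, 4, 4, 5, 5] [30, 20, 10, 0, 0, 0] [80, 78,
    76, 72, 62, 52] 100000 25000 25000 920000 0 0 80000 10000 0 70000 40000)) (.E 2)) (.E 1)))) (.E
    1)) (.E 1))) (.S 3 13 (.S 3 6 (.S 3 3 (.L 5 5 [4, 4, 4, 5, 5] [30, 20, 10, 0, 0, 0] [] 100000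
    28878 28878 908583 1650 3300 37624 35644 6601 11881 47525) (.L 5 5 [4, 4, 4, 5, 5] [30, 20, 10,
    0, 0, 0] [] 100000 25001 25001 966667 16667 0 16667 33333 0 33333 33333)) (.E 1)) (.E 1))) (.L
    5 5 [4, 4, 4, 5, 5] [30, 20, 10, 0, 0, 0] [] 100000 24039 24039 957692 21154 0 32692 23077 3846
    42308 38462))

lemma s19_19_4_4_12 : BlkD.treeX d19_19_4_4 (BlkD.exF 4 4 x19_19_4_4) t19_19_4_4_12
    (BlkD.upd (fun _ => 0) 0 2)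
    (BlkD.upd (BlkD.upd (BlkD.upd (BlkD.upd (BlkD.upd (BlkD.upd (BlkD.upd (fun _ => 19) 0 4) 2 4) 0 2) 1 17) 1 8) 1 4) 1 2) = true := by
  decide +kernel

lemma n19_19_4_4_12 {n : ℕ} (hn : 5 ≤ n) : BlkD.NdX d19_19_4_4 (BlkD.exF 4 4 x19_19_4_4) n
    (BlkD.upd (fun _ => 0) 0 2)
    (BlkD.upd (BlkD.upd (BlkD.upd (BlkD.upd (BlkD.upd (BlkD.upd (BlkD.upd (fun _ => 19) 0 4) 2 4) 0 2) 1 17) 1 8) 1 4) 1 2) :=
  BlkD.NdX.tree s19_19_4_4_12 ok19_19_4_4 (by decide) hn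

/-- a subtree -/
def t19_19_4_4_13 : BlkD.Tr :=
  .S 2 1 (.S 2 0 (.L 5 5 [4, 4, 4, 5, 5] [48, 38, 28, 18, 0, 0] [] 100000 62500 62500 600001 0 0
    33333 100000 0 0 10000) (.S 3 13 (.S 3 6 (.S 3 3 (.L 5 5 [4, 4, 4, 5, 5] [48, 38, 28, 18, 0, 0]
    [] 100000 39584 39584 850000 0 25000 25000 25000 0 0 41667) (.S 3 5 (.S 3 4 (.S 4 3 (.S 4 1 (.L
    5 5 [4, 4, 4, 5, 5] [28, 18, 0, 0, 0, 0] [54, 50, 40, 30, 20, 0] 100000 37500 37500 850000 0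
    50000 0 50000 50000 0 50000) (.L 5 5 [4, 4, 4, 5, 5] [48, 38, 28, 18, 0, 0] [54, 50, 40, 30,
    20, 0] 100000 27679 27679 957144 0 0 42857 37500 7143 12500 50000)) (.E 2)) (.S 4 3 (.S 4 1 (.L
    5 5 [4, 4, 4, 5, 5] [28, 18, 0, 0, 0, 0] [66, 64, 60, 50, 40, 30] 100000 60000 60000 780000 0
    80000 0 80000 80000 0 40000) (.S 4 2 (.L 5 5 [4, 4, 4, 5, 5] [38, 28, 18, 0, 0, 0] [66, 64, 60,
    50, 40, 30] 100000 17500 17500 1005000 0 0 50000 25000 30000 55000 40000) (.L 5 5 [4, 4, 4, 5,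
    5] [48, 38, 28, 18, 0, 0] [66, 64, 60, 50, 40, 30] 100000 25000 25000 920000 0 0 80000 10000 0
    70000 40000))) (.E 2))) (.S 4 3 (.S 4 1 (.L 5 5 [4, 4, 4, 5, 5] [28, 18, 0, 0, 0, 0] [80, 78,
    76, 72, 62, 52] 100000 80000 0 360000 40000 0 40000 180000 80000 0 40000) (.L 5 5 [4, 4, 4, 5,
    5] [48, 38, 28, 18, 0, 0] [80, 78, 76, 72, 62, 52] 100000 55000 55000 800000 0 0 100000 50000 0
    30000 40000)) (.E 2)))) (.E 1)) (.E 1))) (.S 3 12 (.S 3 6 (.S 3 3 (.S 3 1 (.L 5 5 [4, 4, 4, 5,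
    5] [48, 38, 28, 18, 0, 0] [] 100000 37500 37500 800000 0 0 0 0 0 0 50000) (.S 3 2 (.L 5 5 [4,
    4, 4, 5, 5] [48, 38, 28, 18, 0, 0] [30, 20, 10, 0, 0, 0] 100000 28878 28878 908583 3300 1650
    35644 37624 11881 6601 47525) (.S 4 3 (.S 4 1 (.L 5 5 [4, 4, 4, 5, 5] [28, 18, 0, 0, 0, 0] [48,
    38, 28, 18, 0, 0] 100000 23077 23076 969231 0 30769 0 38462 61538 7692 38462) (.L 5 5 [4, 4, 4,
    5, 5] [48, 38, 28, 18, 0, 0] [48, 38, 28, 18, 0, 0] 100000 27679 27679 957144 0 0 42857 37500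
    7143 12500 50000)) (.E 2)))) (.S 3 5 (.S 3 4 (.S 4 3 (.S 4 1 (.S 4 0 (.L 5 5 [4, 4, 4, 5, 5]
    [18, 0, 0, 0, 0, 0] [62, 58, 48, 38, 28, 0] 100000 10000 10000 1010000 20000 0 0 30000 60000
    60000 40000) (.S 5 4 (.S 5 2 (.S 5 1 (.L 5 5 [4, 4, 4, 5, 5] [28, 18, 0, 0, 0, 0] [38, 28, 0,
    0, 0, 0] 100000 16667 16667 1000001 0 33333 0 66667 66667 33333 33333) (.L 5 5 [4, 4, 4, 5, 5]
    [28, 18, 0, 0, 0, 0] [48, 38, 28, 0, 0, 0] 100000 16667 16667 1000001 0 33333 0 50000 66667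
    33333 33333)) (.L 5 5 [4, 4, 4, 5, 5] [28, 18, 0, 0, 0, 0] [62, 58, 48, 38, 28, 0] 100000 25000
    25000 920000 0 0 0 90000 80000 0 40000)) (.E 2))) (.S 4 2 (.L 5 5 [4, 4, 4, 5, 5] [38, 28, 18,
    0, 0, 0] [62, 58, 48, 38, 28, 0] 100000 17500 17500 1005000 0 0 50000 25000 30000 55000 40000)
    (.L 5 5 [4, 4, 4, 5, 5] [48, 38, 28, 18, 0, 0] [62, 58, 48, 38, 28, 0] 100000 25000 25000
    920000 0 0 80000 10000 0 70000 40000))) (.E 2)) (.L 5 5 [4, 4, 4, 5, 5] [48, 38, 28, 18, 0, 0]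
    [76, 74, 70, 60, 50, 40] 100000 80000 80000 600000 0 0 100000 100000 0 0 40000)) (.E 1))) (.E
    1)) (.E 1))

lemma s19_19_4_4_13 : BlkD.treeX d19_19_4_4 (BlkD.exF 4 4 x19_19_4_4) t19_19_4_4_13
    (BlkD.upd (BlkD.upd (fun _ => 0) 0 2) 1 3)
    (BlkD.upd (BlkD.upd (BlkD.upd (BlkD.upd (BlkD.upd (BlkD.upd (BlkD.upd (BlkD.upd (fun _ => 19) 0 4) 2 4) 0 2) 1 17) 1 8) 1 4) 1 3) 2 2) = true := by
  decide +kernel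

lemma n19_19_4_4_13 {n : ℕ} (hn : 5 ≤ n) : BlkD.NdX d19_19_4_4 (BlkD.exF 4 4 x19_19_4_4) n
    (BlkD.upd (BlkD.upd (fun _ => 0) 0 2) 1 3)
    (BlkD.upd (BlkD.upd (BlkD.upd (BlkD.upd (BlkD.upd (BlkD.upd (BlkD.upd (BlkD.upd (fun _ => 19) 0 4) 2 4) 0 2) 1 17) 1 8) 1 4) 1 3) 2 2) :=
  BlkD.NdX.tree s19_19_4_4_13 ok19_19_4_4 (by decide) hn

/-- a subtree -/
def t19_19_4_4_14 : BlkD.Tr :=
  .S 2 3 (.S 3 11 (.S 3 5 (.S 3 2 (.L 5 5 [4, 4, 4, 5, 5] [48, 38, 28, 18, 0, 0] [] 100000 23100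
    23100 978948 11111 0 33333 22222 7602 34503 43275) (.S 3 4 (.S 3 3 (.S 4 3 (.S 4 1 (.S 4 0 (.L
    5 5 [4, 4, 4, 5, 5] [18, 0, 0, 0, 0, 0] [54, 44, 34, 24, 0, 0] 100000 5000 4999 999999 6667 0 0
    40000 80000 80000 40000) (.S 5 3 (.S 5 1 (.E 2) (.S 5 2 (.E 9) (.L 5 5 [4, 4, 4, 5, 5] [28, 18,
    0, 0, 0, 0] [54, 44, 34, 24, 0, 0] 100000 20000 20000 940000 0 0 0 80000 80000 20000 40000)))
    (.E 2))) (.L 5 5 [4, 4, 4, 5, 5] [48, 38, 28, 18, 0, 0] [54, 44, 34, 24, 0, 0] 100000 25000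
    25000 920000 0 0 90000 0 0 80000 40000)) (.E 2)) (.E 1)) (.E 1))) (.E 1)) (.E 1)) (.S 3 10 (.S
    3 5 (.S 3 2 (.S 3 1 (.L 5 5 [4, 4, 4, 5, 5] [48, 38, 28, 18, 0, 0] [] 100000 20000 20000 940000
    20000 0 40000 20000 20000 72000 28000) (.S 4 3 (.S 4 1 (.L 7 7 [4, 5, 6, 3, 4] [28, 18, 0, 0,
    0, 0] [38, 28, 18, 0, 0, 0] 100000 18750 18750 1000000 25000 0 50000 12500 25000 62500 37500)
    (.L 7 7 [4, 5, 6, 3, 4] [48, 38, 28, 18, 0, 0] [38, 28, 18, 0, 0, 0] 100000 25000 25000 920000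
    0 0 90000 0 0 80000 40000)) (.E 2))) (.E 1)) (.E 1)) (.E 1))

lemma s19_19_4_4_14 : BlkD.treeX d19_19_4_4 (BlkD.exF 4 4 x19_19_4_4) t19_19_4_4_14
    (BlkD.upd (BlkD.upd (BlkD.upd (fun _ => 0) 0 2) 1 3) 2 3)
    (BlkD.upd (BlkD.upd (BlkD.upd (BlkD.upd (BlkD.upd (BlkD.upd (BlkD.upd (fun _ => 19) 0 4) 2 4) 0 2) 1 17) 1 8) 1 4) 1 3) = true := by
  decide +kernel

lemma n19_19_4_4_14 {n : ℕ} (hn : 5 ≤ n) : BlkD.NdX d19_19_4_4 (BlkD.exF 4 4 x19_19_4_4) n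
    (BlkD.upd (BlkD.upd (BlkD.upd (fun _ => 0) 0 2) 1 3) 2 3)
    (BlkD.upd (BlkD.upd (BlkD.upd (BlkD.upd (BlkD.upd (BlkD.upd (BlkD.upd (fun _ => 19) 0 4) 2 4) 0 2) 1 17) 1 8) 1 4) 1 3) :=
  BlkD.NdX.tree s19_19_4_4_14 ok19_19_4_4 (by decide) hn

/-- a subtree -/
def t19_19_4_4_15 : BlkD.Tr :=
  .S 2 0 (.L 7 7 [4, 5, 6, 3, 4] [62, 58, 48, 38, 28, 0] [] 100000 62500 62500 600000 0 0 50000
    100000 0 0 25000) (.S 3 12 (.S 3 6 (.S 3 3 (.L 7 7 [4, 5, 6, 3, 4] [62, 58, 48, 38, 28, 0] []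
    100000 25000 25000 951614 0 16129 25806 16129 35484 0 38710) (.S 3 5 (.S 3 4 (.S 4 4 (.S 4 2
    (.L 1 1 [9, 11, 13, 15, 15] [48, 38, 28, 0, 0, 0] [54, 50, 40, 30, 20, 0] 100000 40000 40000
    886668 0 53333 0 66667 80000 13333 40000) (.S 4 3 (.S 5 4 (.S 5 2 (.S 5 1 (.L 1 1 [9, 11, 13,
    15, 15] [58, 48, 38, 28, 0, 0] [30, 20, 0, 0, 0, 0] 100000 25000 25000 920000 0 0 90000 0 0
    80000 40000) (.E 9)) (.L 1 1 [9, 11, 13, 15, 15] [58, 48, 38, 28, 0, 0] [54, 50, 40, 30, 20, 0]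
    100000 25000 25000 920000 0 0 10000 80000 70000 0 40000)) (.E 2)) (.L 1 1 [9, 11, 13, 15, 15]
    [62, 58, 48, 38, 28, 0] [54, 50, 40, 30, 20, 0] 100000 58334 58334 800002 0 0 100000 50000 0
    16667 33333))) (.E 2)) (.S 4 4 (.S 4 2 (.S 4 1 (.S 4 0 (.E 2) (.S 5 5 (.S 5 2 (.L 1 1 [9, 11,
    13, 15, 15] [38, 28, 0, 0, 0, 0] [50, 40, 30, 0, 0, 0] 100000 60000 60000 780000 0 100000 0
    60000 60000 40000 40000) (.L 1 1 [9, 11, 13, 15, 15] [38, 28, 0, 0, 0, 0] [66, 64, 60, 50, 40,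
    30] 100000 30000 30000 900000 0 0 0 100000 80000 0 40000)) (.E 2))) (.S 5 5 (.S 5 2 (.L 1 1 [9,
    11, 13, 15, 15] [48, 38, 28, 0, 0, 0] [50, 40, 30, 0, 0, 0] 100000 60000 60000 780000 0 100000
    20000 40000 40000 40000 40000) (.L 1 1 [9, 11, 13, 15, 15] [48, 38, 28, 0, 0, 0] [66, 64, 60,
    50, 40, 30] 100000 30000 30000 900000 0 0 0 100000 80000 0 40000)) (.E 2))) (.S 4 3 (.S 5 5 (.S
    5 2 (.L 1 1 [9, 11, 13, 15, 15] [58, 48, 38, 28, 0, 0] [50, 40, 30, 0, 0, 0] 100000 100000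
    100000 520000 0 100000 100000 40000 0 20000 40000) (.S 5 4 (.S 5 3 (.E 9) (.L 1 1 [9, 11, 13,
    15, 15] [58, 48, 38, 28, 0, 0] [64, 60, 50, 40, 30, 0] 100000 30000 30000 900000 0 0 0 100000
    80000 0 40000)) (.L 1 1 [9, 11, 13, 15, 15] [58, 48, 38, 28, 0, 0] [66, 64, 60, 50, 40, 30]
    100000 80000 0 360000 0 0 60000 180000 20000 0 40000))) (.E 2)) (.L 1 1 [9, 11, 13, 15, 15]
    [62, 58, 48, 38, 28, 0] [66, 64, 60, 50, 40, 30] 100000 30000 30000 900000 0 0 100000 0 0 80000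
    40000))) (.E 2))) (.E 2))) (.E 1)) (.E 1))

lemma s19_19_4_4_15 : BlkD.treeX d19_19_4_4 (BlkD.exF 4 4 x19_19_4_4) t19_19_4_4_15
    (BlkD.upd (BlkD.upd (BlkD.upd (fun _ => 0) 0 2) 1 3) 1 4)
    (BlkD.upd (BlkD.upd (BlkD.upd (BlkD.upd (BlkD.upd (BlkD.upd (BlkD.upd (BlkD.upd (fun _ => 19) 0 4) 2 4) 0 2) 1 17) 1 8) 1 4) 2 2) 2 1) = true := by
  decide +kernel

lemma n19_19_4_4_15 {n : ℕ} (hn : 5 ≤ n) : BlkD.NdX d19_19_4_4 (BlkD.exF 4 4 x19_19_4_4) n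
    (BlkD.upd (BlkD.upd (BlkD.upd (fun _ => 0) 0 2) 1 3) 1 4)
    (BlkD.upd (BlkD.upd (BlkD.upd (BlkD.upd (BlkD.upd (BlkD.upd (BlkD.upd (BlkD.upd (fun _ => 19) 0 4) 2 4) 0 2) 1 17) 1 8) 1 4) 2 2) 2 1) :=
  BlkD.NdX.tree s19_19_4_4_15 ok19_19_4_4 (by decide) hn

/-- a subtree -/
def t19_19_4_4_16 : BlkD.Tr :=
  .S 3 11 (.S 3 5 (.S 3 2 (.L 5 5 [4, 4, 4, 5, 5] [62, 58, 48, 38, 28, 0] [] 100000 25001 25001
    966667 0 16667 33333 16667 33333 0 33333) (.S 3 4 (.S 3 3 (.S 4 4 (.S 4 2 (.S 4 1 (.S 4 0 (.E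
    2) (.S 5 3 (.S 5 1 (.L 5 5 [4, 4, 4, 5, 5] [38, 28, 0, 0, 0, 0] [28, 18, 0, 0, 0, 0] 100000
    16667 16667 1000001 33333 0 66667 0 33333 66667 33333) (.L 5 5 [4, 4, 4, 5, 5] [38, 28, 0, 0,
    0, 0] [48, 38, 28, 18, 0, 0] 100000 25000 25000 920000 0 0 0 90000 80000 0 40000)) (.E 2))) (.S
    5 3 (.S 5 1 (.L 5 5 [4, 4, 4, 5, 5] [48, 38, 28, 0, 0, 0] [28, 18, 0, 0, 0, 0] 100000 16667
    16667 1000001 33333 0 50000 0 33333 66667 33333) (.L 5 5 [4, 4, 4, 5, 5] [48, 38, 28, 0, 0, 0]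
    [48, 38, 28, 18, 0, 0] 100000 25000 25000 920000 0 0 0 90000 80000 0 40000)) (.E 2))) (.S 4 3
    (.S 5 3 (.S 5 1 (.L 5 5 [4, 4, 4, 5, 5] [58, 48, 38, 28, 0, 0] [28, 18, 0, 0, 0, 0] 100000
    25000 25000 920000 0 0 90000 0 0 80000 40000) (.S 5 2 (.L 5 5 [4, 4, 4, 5, 5] [58, 48, 38, 28,
    0, 0] [38, 28, 18, 0, 0, 0] 100000 25000 25000 920000 0 0 90000 0 0 80000 40000) (.L 5 5 [4, 4,
    4, 5, 5] [58, 48, 38, 28, 0, 0] [48, 38, 28, 18, 0, 0] 100000 25000 25000 920000 0 0 10000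
    80000 70000 0 40000))) (.E 2)) (.L 5 5 [4, 4, 4, 5, 5] [62, 58, 48, 38, 28, 0] [48, 38, 28, 18,
    0, 0] 100000 55556 55556 800001 0 0 100000 33333 0 11111 22222))) (.E 2)) (.S 4 4 (.S 4 2 (.S 4
    1 (.S 4 0 (.E 2) (.S 5 4 (.S 5 2 (.S 5 1 (.S 5 0 (.E 2) (.E 9)) (.E 9)) (.L 5 5 [4, 4, 4, 5, 5]
    [38, 28, 0, 0, 0, 0] [62, 58, 48, 38, 28, 0] 100000 30000 30000 900000 0 0 0 100000 80000 0
    40000)) (.E 2))) (.S 5 4 (.S 5 2 (.S 5 1 (.S 5 0 (.E 2) (.E 9)) (.E 9)) (.L 5 5 [4, 4, 4, 5, 5]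
    [48, 38, 28, 0, 0, 0] [62, 58, 48, 38, 28, 0] 100000 30000 30000 900000 0 0 0 100000 80000 0
    40000)) (.E 2))) (.S 4 3 (.S 5 4 (.S 5 2 (.L 5 5 [4, 4, 4, 5, 5] [58, 48, 38, 28, 0, 0] [48,
    38, 28, 0, 0, 0] 100000 30000 30000 900000 0 0 100000 0 0 80000 40000) (.S 5 3 (.E 9) (.L 5 5
    [4, 4, 4, 5, 5] [58, 48, 38, 28, 0, 0] [62, 58, 48, 38, 28, 0] 100000 30000 30000 900000 0 0 0
    100000 80000 0 40000))) (.E 2)) (.L 5 5 [4, 4, 4, 5, 5] [62, 58, 48, 38, 28, 0] [62, 58, 48,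
    38, 28, 0] 100000 30000 30000 900000 0 0 100000 0 0 80000 40000))) (.E 2))) (.E 2))) (.E 1))
    (.E 1)

lemma s19_19_4_4_16 : BlkD.treeX d19_19_4_4 (BlkD.exF 4 4 x19_19_4_4) t19_19_4_4_16
    (BlkD.upd (BlkD.upd (BlkD.upd (BlkD.upd (fun _ => 0) 0 2) 1 3) 1 4) 2 2)
    (BlkD.upd (BlkD.upd (BlkD.upd (BlkD.upd (BlkD.upd (BlkD.upd (BlkD.upd (fun _ => 19) 0 4) 2 4) 0 2) 1 17) 1 8) 1 4) 2 2) = true := by
  decide +kernel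

lemma n19_19_4_4_16 {n : ℕ} (hn : 5 ≤ n) : BlkD.NdX d19_19_4_4 (BlkD.exF 4 4 x19_19_4_4) n
    (BlkD.upd (BlkD.upd (BlkD.upd (BlkD.upd (fun _ => 0) 0 2) 1 3) 1 4) 2 2)
    (BlkD.upd (BlkD.upd (BlkD.upd (BlkD.upd (BlkD.upd (BlkD.upd (BlkD.upd (fun _ => 19) 0 4) 2 4) 0 2) 1 17) 1 8) 1 4) 2 2) :=
  BlkD.NdX.tree s19_19_4_4_16 ok19_19_4_4 (by decide) hn

/-- a subtree -/
def t19_19_4_4_17 : BlkD.Tr :=
  .S 2 3 (.S 3 10 (.S 3 5 (.S 3 2 (.S 3 1 (.L 5 5 [4, 4, 4, 5, 5] [62, 58, 48, 38, 28, 0] [] 100000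
    18750 18750 975000 0 25000 25000 50000 25000 25000 50000) (.S 4 4 (.S 4 2 (.S 4 1 (.L 5 5 [4,
    4, 4, 5, 5] [38, 28, 0, 0, 0, 0] [34, 24, 14, 0, 0, 0] 100000 13889 13888 1029629 14815 5556
    29630 35185 44444 44444 37037) (.L 5 5 [4, 4, 4, 5, 5] [48, 38, 28, 0, 0, 0] [34, 24, 14, 0, 0,
    0] 100000 13889 13888 1029629 14815 0 27778 29630 46296 44444 37037)) (.L 5 5 [4, 4, 4, 5, 5]
    [62, 58, 48, 38, 28, 0] [34, 24, 14, 0, 0, 0] 100000 25000 25000 920000 0 0 90000 0 0 80000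
    40000)) (.E 2))) (.S 3 4 (.S 3 3 (.S 4 4 (.S 4 2 (.S 4 1 (.S 4 0 (.E 2) (.S 5 3 (.S 5 1 (.E 2)
    (.S 5 2 (.E 9) (.L 5 5 [4, 4, 4, 5, 5] [38, 28, 0, 0, 0, 0] [54, 44, 34, 24, 0, 0] 100000 30000
    30000 900000 0 0 0 100000 80000 0 40000))) (.E 2))) (.S 5 3 (.S 5 1 (.E 2) (.S 5 2 (.E 9) (.L 5
    5 [4, 4, 4, 5, 5] [48, 38, 28, 0, 0, 0] [54, 44, 34, 24, 0, 0] 100000 30000 30000 900000 0 0 0
    100000 80000 0 40000))) (.E 2))) (.L 5 5 [4, 4, 4, 5, 5] [62, 58, 48, 38, 28, 0] [54, 44, 34,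
    24, 0, 0] 100000 30000 30000 900000 0 0 100000 0 0 80000 40000)) (.E 2)) (.E 1)) (.E 1))) (.E
    1)) (.E 1)) (.S 3 9 (.S 3 4 (.S 3 2 (.S 3 1 (.L 5 5 [4, 4, 4, 5, 5] [62, 58, 48, 38, 28, 0] []
    100000 10000 10000 1010000 20000 0 30000 20000 60000 80000 40000) (.S 4 4 (.S 4 2 (.S 4 1 (.S 4
    0 (.E 2) (.S 5 2 (.S 5 1 (.E 2) (.E 9)) (.E 2))) (.S 5 2 (.S 5 1 (.E 2) (.E 9)) (.E 2))) (.L 5
    5 [4, 4, 4, 5, 5] [62, 58, 48, 38, 28, 0] [38, 28, 18, 0, 0, 0] 100000 30000 30000 900000 0 0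
    100000 0 0 80000 40000)) (.E 2))) (.E 1)) (.E 1)) (.E 1))

lemma s19_19_4_4_17 : BlkD.treeX d19_19_4_4 (BlkD.exF 4 4 x19_19_4_4) t19_19_4_4_17
    (BlkD.upd (BlkD.upd (BlkD.upd (BlkD.upd (fun _ => 0) 0 2) 1 3) 1 4) 2 3)
    (BlkD.upd (BlkD.upd (BlkD.upd (BlkD.upd (BlkD.upd (BlkD.upd (fun _ => 19) 0 4) 2 4) 0 2) 1 17) 1 8) 1 4) = true := by
  decide +kernel

lemma n19_19_4_4_17 {n : ℕ} (hn : 5 ≤ n) : BlkD.NdX d19_19_4_4 (BlkD.exF 4 4 x19_19_4_4) n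
    (BlkD.upd (BlkD.upd (BlkD.upd (BlkD.upd (fun _ => 0) 0 2) 1 3) 1 4) 2 3)
    (BlkD.upd (BlkD.upd (BlkD.upd (BlkD.upd (BlkD.upd (BlkD.upd (fun _ => 19) 0 4) 2 4) 0 2) 1 17) 1 8) 1 4) :=
  BlkD.NdX.tree s19_19_4_4_17 ok19_19_4_4 (by decide) hn

/-- a subtree -/
def t19_19_4_4_18 : BlkD.Tr :=
  .L 5 5 [4, 4, 4, 5, 5] [] [] 100000 59375 59375 800000 0 0 100000 50000 0 12500 31250

lemma s19_19_4_4_18 : BlkD.treeX d19_19_4_4 (BlkD.exF 4 4 x19_19_4_4) t19_19_4_4_18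
    (BlkD.upd (BlkD.upd (fun _ => 0) 0 2) 1 5)
    (BlkD.upd (BlkD.upd (BlkD.upd (BlkD.upd (BlkD.upd (fun _ => 19) 0 4) 2 4) 0 2) 1 17) 1 8) = true := by
  decide +kernel

lemma n19_19_4_4_18 {n : ℕ} (hn : 5 ≤ n) : BlkD.NdX d19_19_4_4 (BlkD.exF 4 4 x19_19_4_4) n
    (BlkD.upd (BlkD.upd (fun _ => 0) 0 2) 1 5)
    (BlkD.upd (BlkD.upd (BlkD.upd (BlkD.upd (BlkD.upd (fun _ => 19) 0 4) 2 4) 0 2) 1 17) 1 8) :=
  BlkD.NdX.tree s19_19_4_4_18 ok19_19_4_4 (by decide) hn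

/-- a subtree -/
def t19_19_4_4_19 : BlkD.Tr :=
  .E 0

lemma s19_19_4_4_19 : BlkD.treeX d19_19_4_4 (BlkD.exF 4 4 x19_19_4_4) t19_19_4_4_19
    (BlkD.upd (BlkD.upd (fun _ => 0) 0 2) 1 9)
    (BlkD.upd (BlkD.upd (BlkD.upd (BlkD.upd (fun _ => 19) 0 4) 2 4) 0 2) 1 17) = true := by
  decide +kernel

lemma n19_19_4_4_19 {n : ℕ} (hn : 5 ≤ n) : BlkD.NdX d19_19_4_4 (BlkD.exF 4 4 x19_19_4_4) n
    (BlkD.upd (BlkD.upd (fun _ => 0) 0 2) 1 9)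
    (BlkD.upd (BlkD.upd (BlkD.upd (BlkD.upd (fun _ => 19) 0 4) 2 4) 0 2) 1 17) :=
  BlkD.NdX.tree s19_19_4_4_19 ok19_19_4_4 (by decide) hn

/-- a subtree -/
def t19_19_4_4_20 : BlkD.Tr :=
  .E 0

lemma s19_19_4_4_20 : BlkD.treeX d19_19_4_4 (BlkD.exF 4 4 x19_19_4_4) t19_19_4_4_20
    (BlkD.upd (BlkD.upd (fun _ => 0) 0 2) 1 18)
    (BlkD.upd (BlkD.upd (BlkD.upd (fun _ => 19) 0 4) 2 4) 0 2) = true := by
  decide +kernel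

lemma n19_19_4_4_20 {n : ℕ} (hn : 5 ≤ n) : BlkD.NdX d19_19_4_4 (BlkD.exF 4 4 x19_19_4_4) n
    (BlkD.upd (BlkD.upd (fun _ => 0) 0 2) 1 18)
    (BlkD.upd (BlkD.upd (BlkD.upd (fun _ => 19) 0 4) 2 4) 0 2) :=
  BlkD.NdX.tree s19_19_4_4_20 ok19_19_4_4 (by decide) hn

/-- a subtree -/
def t19_19_4_4_21 : BlkD.Tr :=
  .S 1 1 (.L 5 5 [4, 4, 4, 5, 5] [] [] 100000 20313 20313 984375 18750 0 53125 31250 34375 18750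
    50000) (.S 2 2 (.S 2 1 (.S 2 0 (.L 5 5 [4, 4, 4, 5, 5] [34, 24, 14, 0, 0, 0] [] 100000 50000
    50000 600000 0 0 0 100000 0 0 20000) (.S 3 13 (.S 3 6 (.S 3 3 (.L 5 5 [4, 4, 4, 5, 5] [34, 24,
    14, 0, 0, 0] [] 100000 25000 25000 878262 0 17391 17391 17391 30435 0 39130) (.S 3 5 (.S 3 4
    (.L 5 5 [4, 4, 4, 5, 5] [34, 24, 14, 0, 0, 0] [54, 50, 40, 30, 20, 0] 100000 23465 23464 953508
    0 16667 16667 33333 36842 6140 46491) (.L 1 1 [9, 11, 13, 15, 15] [34, 24, 14, 0, 0, 0] [66,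
    64, 60, 50, 40, 30] 100000 40000 40000 880000 0 60000 0 60000 80000 20000 40000)) (.L 1 1 [9,
    11, 13, 15, 15] [34, 24, 14, 0, 0, 0] [80, 78, 76, 72, 62, 52] 100000 66667 0 466666 33333 0
    33333 166667 66667 0 33333))) (.E 1)) (.E 1))) (.S 3 12 (.S 3 6 (.S 3 3 (.L 5 5 [4, 4, 4, 5, 5]
    [34, 24, 14, 0, 0, 0] [] 100000 23100 23100 978948 0 11111 22222 33333 34503 7602 43275) (.S 3
    5 (.S 3 4 (.S 4 2 (.S 4 1 (.S 4 0 (.L 5 5 [4, 4, 4, 5, 5] [14, 0, 0, 0, 0, 0] [62, 58, 48, 38,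
    28, 0] 100000 5000 5000 1040000 10000 0 0 40000 80000 80000 40000) (.S 5 4 (.S 5 2 (.L 7 7 [4,
    5, 6, 3, 4] [24, 14, 0, 0, 0, 0] [48, 38, 28, 0, 0, 0] 100000 8334 8334 1033335 0 33333 0 33333
    66667 66667 33333) (.L 7 7 [4, 5, 6, 3, 4] [24, 14, 0, 0, 0, 0] [62, 58, 48, 38, 28, 0] 100000
    25000 25000 920000 0 0 0 90000 80000 0 40000)) (.E 2))) (.L 7 7 [4, 5, 6, 3, 4] [34, 24, 14, 0,
    0, 0] [62, 58, 48, 38, 28, 0] 100000 17500 17500 1005000 0 0 50000 25000 30000 55000 40000))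
    (.E 2)) (.E 2)) (.E 1))) (.E 1)) (.E 1))) (.S 2 3 (.S 3 11 (.S 3 5 (.S 3 2 (.L 7 7 [4, 5, 6, 3,
    4] [34, 24, 14, 0, 0, 0] [] 100000 14286 14286 1000001 14286 14286 28571 28571 42857 42857
    42857) (.S 3 4 (.S 3 3 (.S 4 2 (.S 4 1 (.S 4 0 (.L 7 7 [4, 5, 6, 3, 4] [14, 0, 0, 0, 0, 0] [54,
    44, 34, 24, 0, 0] 100000 5000 5000 1000000 0 0 0 50000 80000 80000 40000) (.S 5 3 (.S 5 1 (.E
    2) (.S 5 2 (.E 9) (.L 7 7 [4, 5, 6, 3, 4] [24, 14, 0, 0, 0, 0] [54, 44, 34, 24, 0, 0] 100000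
    20000 20000 940000 0 0 0 80000 80000 20000 40000))) (.E 2))) (.L 7 7 [4, 5, 6, 3, 4] [34, 24,
    14, 0, 0, 0] [54, 44, 34, 24, 0, 0] 100000 25000 25000 920000 0 0 90000 0 0 80000 40000)) (.E
    2)) (.E 1)) (.E 1))) (.E 1)) (.E 1)) (.S 3 10 (.S 3 5 (.S 3 2 (.S 3 1 (.L 7 7 [4, 5, 6, 3, 4]
    [34, 24, 14, 0, 0, 0] [] 100000 15000 15000 960000 20000 20000 40000 40000 40000 60000 40000)
    (.S 4 2 (.S 4 1 (.S 4 0 (.L 7 7 [4, 5, 6, 3, 4] [14, 0, 0, 0, 0, 0] [38, 28, 18, 0, 0, 0]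
    100000 5000 5000 1000000 20000 0 0 30000 80000 80000 40000) (.S 5 2 (.S 5 1 (.E 2) (.E 9)) (.E
    2))) (.L 7 7 [4, 5, 6, 3, 4] [34, 24, 14, 0, 0, 0] [38, 28, 18, 0, 0, 0] 100000 25000 25000
    920000 0 0 90000 0 0 80000 40000)) (.E 2))) (.E 1)) (.E 1)) (.E 1))))

lemma s19_19_4_4_21 : BlkD.treeX d19_19_4_4 (BlkD.exF 4 4 x19_19_4_4) t19_19_4_4_21
    (BlkD.upd (fun _ => 0) 0 3)
    (BlkD.upd (BlkD.upd (BlkD.upd (BlkD.upd (BlkD.upd (BlkD.upd (BlkD.upd (fun _ => 19) 0 4) 2 4) 0 3) 1 16) 1 8) 1 4) 1 2) = true := by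
  decide +kernel

lemma n19_19_4_4_21 {n : ℕ} (hn : 5 ≤ n) : BlkD.NdX d19_19_4_4 (BlkD.exF 4 4 x19_19_4_4) n
    (BlkD.upd (fun _ => 0) 0 3)
    (BlkD.upd (BlkD.upd (BlkD.upd (BlkD.upd (BlkD.upd (BlkD.upd (BlkD.upd (fun _ => 19) 0 4) 2 4) 0 3) 1 16) 1 8) 1 4) 1 2) :=
  BlkD.NdX.tree s19_19_4_4_21 ok19_19_4_4 (by decide) hn

end BlkC

end Pool.Agent.Lib.MP_f04ccf_co
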