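import Pool.Agent.Lib.MP_f04ccf_co.M.BlkX19_19_4_4d

/-!
MP_f04ccf_co, block certificate with exceptions, `R = 19`, `H = 19`, the pair `(4, 4)` (data of helper99 / helper13,
generated by helper8, genx.py): part 2 of 2.
-/

set_option autoImplicit false
set_option maxRecDepth 100000

namespace Pool.Agent.Lib.MP_f04ccf_co

namespace BlkC

/-- a subtree -/
def t19_19_4_4_22 : BlkD.Tr :=
  .S 1 3 (.S 2 2 (.S 2 1 (.S 2 0 (.L 7 7 [4, 5, 6, 3, 4] [54, 44, 34, 24, 0, 0] [] 100000 50000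
    50000 600000 0 0 0 100000 0 0 20000) (.S 3 12 (.S 3 6 (.S 3 3 (.L 7 7 [4, 5, 6, 3, 4] [54, 44,
    34, 24, 0, 0] [] 100000 25000 25000 933334 0 33333 0 33333 66667 0 33333) (.S 3 5 (.S 3 4 (.L 5
    5 [4, 4, 4, 5, 5] [54, 44, 34, 24, 0, 0] [54, 50, 40, 30, 20, 0] 100000 20000 20000 993334 0
    26667 0 53333 80000 26667 40000) (.S 4 3 (.S 4 1 (.E 2) (.S 4 2 (.S 5 5 (.S 5 2 (.L 5 5 [4, 4,
    4, 5, 5] [44, 34, 24, 0, 0, 0] [50, 40, 30, 0, 0, 0] 100000 56250 56250 750000 0 100000 0 75000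
    50000 0 25000) (.L 5 5 [4, 4, 4, 5, 5] [44, 34, 24, 0, 0, 0] [66, 64, 60, 50, 40, 30] 100000
    30000 30000 900000 0 0 0 100000 80000 0 40000)) (.E 2)) (.L 5 5 [4, 4, 4, 5, 5] [54, 44, 34,
    24, 0, 0] [66, 64, 60, 50, 40, 30] 100000 130000 130000 400000 0 100000 100000 100000 0 0
    40000))) (.E 2))) (.E 2))) (.E 1)) (.E 1))) (.S 3 11 (.S 3 5 (.S 3 2 (.L 5 5 [4, 4, 4, 5, 5]
    [54, 44, 34, 24, 0, 0] [] 100000 24039 24039 957692 0 21154 23077 32692 42308 3846 38462) (.S 3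
    4 (.S 3 3 (.S 4 3 (.S 4 1 (.E 2) (.S 4 2 (.S 5 3 (.S 5 1 (.S 5 0 (.L 5 5 [4, 4, 4, 5, 5] [44,
    34, 24, 0, 0, 0] [18, 0, 0, 0, 0, 0] 100000 5000 5000 1000000 0 10000 35000 0 80000 80000
    40000) (.E 9)) (.L 5 5 [4, 4, 4, 5, 5] [44, 34, 24, 0, 0, 0] [48, 38, 28, 18, 0, 0] 100000
    25000 25000 920000 0 0 0 90000 80000 0 40000)) (.E 2)) (.L 5 5 [4, 4, 4, 5, 5] [54, 44, 34, 24,
    0, 0] [48, 38, 28, 18, 0, 0] 100000 20000 20000 966667 0 0 53333 26667 26667 53333 40000))) (.E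
    2)) (.S 4 3 (.S 4 1 (.E 2) (.S 4 2 (.S 5 4 (.S 5 2 (.S 5 1 (.S 5 0 (.E 2) (.E 9)) (.E 9)) (.L 5
    5 [4, 4, 4, 5, 5] [44, 34, 24, 0, 0, 0] [62, 58, 48, 38, 28, 0] 100000 30000 30000 900000 0 0 0
    100000 80000 0 40000)) (.E 2)) (.L 5 5 [4, 4, 4, 5, 5] [54, 44, 34, 24, 0, 0] [62, 58, 48, 38,
    28, 0] 100000 30000 30000 900000 0 0 100000 0 0 80000 40000))) (.E 2))) (.E 2))) (.E 1)) (.E
    1))) (.S 2 3 (.S 3 10 (.S 3 5 (.S 3 2 (.S 3 1 (.L 5 5 [4, 4, 4, 5, 5] [54, 44, 34, 24, 0, 0] []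
    100000 18750 18750 950000 0 25000 25000 50000 50000 25000 25000) (.S 4 3 (.S 4 1 (.E 2) (.S 4 2
    (.S 5 2 (.S 5 1 (.S 5 0 (.L 5 5 [4, 4, 4, 5, 5] [44, 34, 24, 0, 0, 0] [14, 0, 0, 0, 0, 0]
    100000 5000 5000 1000000 0 10000 40000 0 80000 80000 40000) (.E 9)) (.L 5 5 [4, 4, 4, 5, 5]
    [44, 34, 24, 0, 0, 0] [34, 24, 14, 0, 0, 0] 100000 25000 25000 920000 0 0 0 90000 80000 0
    40000)) (.E 2)) (.L 5 5 [4, 4, 4, 5, 5] [54, 44, 34, 24, 0, 0] [34, 24, 14, 0, 0, 0] 100000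
    20000 20000 940000 0 0 80000 0 20000 80000 40000))) (.E 2))) (.S 3 4 (.S 3 3 (.S 4 3 (.S 4 1
    (.E 2) (.S 4 2 (.S 5 3 (.S 5 1 (.E 2) (.S 5 2 (.E 9) (.L 5 5 [4, 4, 4, 5, 5] [44, 34, 24, 0, 0,
    0] [54, 44, 34, 24, 0, 0] 100000 30000 30000 900000 0 0 0 100000 80000 0 40000))) (.E 2)) (.L 5
    5 [4, 4, 4, 5, 5] [54, 44, 34, 24, 0, 0] [54, 44, 34, 24, 0, 0] 100000 30000 30000 900000 0 0
    100000 0 0 80000 40000))) (.E 2)) (.E 1)) (.E 1))) (.E 1)) (.E 1)) (.S 3 9 (.S 3 4 (.S 3 2 (.S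
    3 1 (.L 5 5 [4, 4, 4, 5, 5] [54, 44, 34, 24, 0, 0] [] 100000 5000 5000 1000000 0 0 50000 0
    80000 80000 40000) (.S 4 3 (.S 4 1 (.E 2) (.S 4 2 (.S 5 2 (.S 5 1 (.E 2) (.E 9)) (.E 2)) (.L 5
    5 [4, 4, 4, 5, 5] [54, 44, 34, 24, 0, 0] [38, 28, 18, 0, 0, 0] 100000 30000 30000 900000 0 0
    100000 0 0 80000 40000))) (.E 2))) (.E 1)) (.E 1)) (.E 1)))) (.E 0)

lemma s19_19_4_4_22 : BlkD.treeX d19_19_4_4 (BlkD.exF 4 4 x19_19_4_4) t19_19_4_4_22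
    (BlkD.upd (BlkD.upd (fun _ => 0) 0 3) 1 3)
    (BlkD.upd (BlkD.upd (BlkD.upd (BlkD.upd (BlkD.upd (BlkD.upd (fun _ => 19) 0 4) 2 4) 0 3) 1 16) 1 8) 1 4) = true := by
  decide +kernel

lemma n19_19_4_4_22 {n : ℕ} (hn : 5 ≤ n) : BlkD.NdX d19_19_4_4 (BlkD.exF 4 4 x19_19_4_4) n
    (BlkD.upd (BlkD.upd (fun _ => 0) 0 3) 1 3)
    (BlkD.upd (BlkD.upd (BlkD.upd (BlkD.upd (BlkD.upd (BlkD.upd (fun _ => 19) 0 4) 2 4) 0 3) 1 16) 1 8) 1 4) :=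
  BlkD.NdX.tree s19_19_4_4_22 ok19_19_4_4 (by decide) hn

/-- a subtree -/
def t19_19_4_4_23 : BlkD.Tr :=
  .E 0

lemma s19_19_4_4_23 : BlkD.treeX d19_19_4_4 (BlkD.exF 4 4 x19_19_4_4) t19_19_4_4_23
    (BlkD.upd (BlkD.upd (fun _ => 0) 0 3) 1 5)
    (BlkD.upd (BlkD.upd (BlkD.upd (BlkD.upd (BlkD.upd (fun _ => 19) 0 4) 2 4) 0 3) 1 16) 1 8) = true := by
  decide +kernel

lemma n19_19_4_4_23 {n : ℕ} (hn : 5 ≤ n) : BlkD.NdX d19_19_4_4 (BlkD.exF 4 4 x19_19_4_4) n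
    (BlkD.upd (BlkD.upd (fun _ => 0) 0 3) 1 5)
    (BlkD.upd (BlkD.upd (BlkD.upd (BlkD.upd (BlkD.upd (fun _ => 19) 0 4) 2 4) 0 3) 1 16) 1 8) :=
  BlkD.NdX.tree s19_19_4_4_23 ok19_19_4_4 (by decide) hn

/-- a subtree -/
def t19_19_4_4_24 : BlkD.Tr :=
  .E 0

lemma s19_19_4_4_24 : BlkD.treeX d19_19_4_4 (BlkD.exF 4 4 x19_19_4_4) t19_19_4_4_24
    (BlkD.upd (BlkD.upd (fun _ => 0) 0 3) 1 9)
    (BlkD.upd (BlkD.upd (BlkD.upd (BlkD.upd (fun _ => 19) 0 4) 2 4) 0 3) 1 16) = true := by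
  decide +kernel

lemma n19_19_4_4_24 {n : ℕ} (hn : 5 ≤ n) : BlkD.NdX d19_19_4_4 (BlkD.exF 4 4 x19_19_4_4) n
    (BlkD.upd (BlkD.upd (fun _ => 0) 0 3) 1 9)
    (BlkD.upd (BlkD.upd (BlkD.upd (BlkD.upd (fun _ => 19) 0 4) 2 4) 0 3) 1 16) :=
  BlkD.NdX.tree s19_19_4_4_24 ok19_19_4_4 (by decide) hn

/-- a subtree -/
def t19_19_4_4_25 : BlkD.Tr :=
  .E 0

lemma s19_19_4_4_25 : BlkD.treeX d19_19_4_4 (BlkD.exF 4 4 x19_19_4_4) t19_19_4_4_25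
    (BlkD.upd (BlkD.upd (fun _ => 0) 0 3) 1 17)
    (BlkD.upd (BlkD.upd (BlkD.upd (fun _ => 19) 0 4) 2 4) 0 3) = true := by
  decide +kernel

lemma n19_19_4_4_25 {n : ℕ} (hn : 5 ≤ n) : BlkD.NdX d19_19_4_4 (BlkD.exF 4 4 x19_19_4_4) n
    (BlkD.upd (BlkD.upd (fun _ => 0) 0 3) 1 17)
    (BlkD.upd (BlkD.upd (BlkD.upd (fun _ => 19) 0 4) 2 4) 0 3) :=
  BlkD.NdX.tree s19_19_4_4_25 ok19_19_4_4 (by decide) hn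

/-- a subtree -/
def t19_19_4_4_26 : BlkD.Tr :=
  .S 1 15 (.S 1 7 (.S 1 3 (.S 1 1 (.S 1 0 (.L 5 5 [4, 4, 4, 5, 5] [0, 0, 0, 0, 0, 0] [] 100000
    17242 17241 994252 0 2874 0 45977 45977 31034 25000) (.L 5 5 [4, 4, 4, 5, 5] [18, 8, 0, 0, 0,
    0] [] 100000 18750 18750 1000000 50000 0 50000 50000 75000 25000 37500)) (.S 1 2 (.S 2 2 (.S 2
    1 (.S 2 0 (.L 5 5 [4, 4, 4, 5, 5] [38, 28, 18, 0, 0, 0] [] 100000 50000 50000 600000 0 0 0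
    100000 0 0 20000) (.S 3 12 (.S 3 6 (.S 3 3 (.L 5 5 [4, 4, 4, 5, 5] [38, 28, 18, 0, 0, 0] []
    100000 25000 25000 900001 0 33333 0 33333 66667 0 33333) (.S 3 5 (.S 3 4 (.L 5 5 [4, 4, 4, 5,
    5] [38, 28, 18, 0, 0, 0] [54, 50, 40, 30, 20, 0] 100000 60000 60000 780000 0 80000 0 80000
    80000 0 40000) (.S 4 2 (.S 4 1 (.E 2) (.S 5 5 (.S 5 2 (.L 5 5 [4, 4, 4, 5, 5] [38, 28, 18, 0,
    0, 0] [50, 40, 30, 0, 0, 0] 100000 56250 56250 750000 0 100000 0 75000 50000 0 25000) (.L 5 5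
    [4, 4, 4, 5, 5] [38, 28, 18, 0, 0, 0] [66, 64, 60, 50, 40, 30] 100000 30000 30000 900000 0 0 0
    100000 80000 0 40000)) (.E 2))) (.E 2))) (.E 2))) (.E 1)) (.E 1))) (.S 3 11 (.S 3 5 (.S 3 2 (.L
    5 5 [4, 4, 4, 5, 5] [38, 28, 18, 0, 0, 0] [] 100000 22500 22500 945000 0 27500 10000 52500
    55000 10000 45000) (.S 3 4 (.S 3 3 (.S 4 2 (.S 4 1 (.E 2) (.S 5 3 (.S 5 1 (.L 7 7 [4, 5, 6, 3,
    4] [38, 28, 18, 0, 0, 0] [28, 18, 0, 0, 0, 0] 100000 18750 18750 1000000 0 25000 12500 50000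
    62500 25000 37500) (.L 7 7 [4, 5, 6, 3, 4] [38, 28, 18, 0, 0, 0] [48, 38, 28, 18, 0, 0] 100000
    25000 25000 920000 0 0 0 90000 80000 0 40000)) (.E 2))) (.E 2)) (.S 4 2 (.S 4 1 (.E 2) (.S 5 4
    (.S 5 2 (.S 5 1 (.S 5 0 (.E 2) (.E 9)) (.E 9)) (.L 7 7 [4, 5, 6, 3, 4] [38, 28, 18, 0, 0, 0]
    [62, 58, 48, 38, 28, 0] 100000 30000 30000 900000 0 0 0 100000 80000 0 40000)) (.E 2))) (.E
    2))) (.E 2))) (.E 1)) (.E 1))) (.S 2 3 (.S 3 10 (.S 3 5 (.S 3 2 (.S 3 1 (.L 7 7 [4, 5, 6, 3, 4]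
    [38, 28, 18, 0, 0, 0] [] 100000 21429 21429 928571 0 57143 14286 71429 57143 14286 42857) (.S 4
    2 (.S 4 1 (.E 2) (.S 5 2 (.S 5 1 (.S 5 0 (.L 7 7 [4, 5, 6, 3, 4] [38, 28, 18, 0, 0, 0] [14, 0,
    0, 0, 0, 0] 100000 5000 5000 1000000 0 20000 30000 0 80000 80000 40000) (.E 9)) (.L 7 7 [4, 5,
    6, 3, 4] [38, 28, 18, 0, 0, 0] [34, 24, 14, 0, 0, 0] 100000 25000 25000 920000 0 0 0 90000
    80000 0 40000)) (.E 2))) (.E 2))) (.S 3 4 (.S 3 3 (.S 4 2 (.S 4 1 (.E 2) (.S 5 3 (.S 5 1 (.E 2)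
    (.S 5 2 (.E 9) (.L 7 7 [4, 5, 6, 3, 4] [38, 28, 18, 0, 0, 0] [54, 44, 34, 24, 0, 0] 100000
    30000 30000 900000 0 0 0 100000 80000 0 40000))) (.E 2))) (.E 2)) (.E 1)) (.E 1))) (.E 1)) (.E
    1)) (.S 3 9 (.S 3 4 (.S 3 2 (.S 3 1 (.L 7 7 [4, 5, 6, 3, 4] [38, 28, 18, 0, 0, 0] [] 100000
    5000 5000 1000000 0 0 50000 0 80000 80000 40000) (.S 4 2 (.S 4 1 (.E 2) (.S 5 2 (.S 5 1 (.E 2)
    (.E 9)) (.E 2))) (.E 2))) (.E 1)) (.E 1)) (.E 1)))) (.E 0))) (.E 0)) (.E 0)) (.E 0)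

lemma s19_19_4_4_26 : BlkD.treeX d19_19_4_4 (BlkD.exF 4 4 x19_19_4_4) t19_19_4_4_26
    (BlkD.upd (BlkD.upd (fun _ => 0) 0 3) 0 4)
    (BlkD.upd (BlkD.upd (fun _ => 19) 0 4) 2 4) = true := by
  decide +kernel

lemma n19_19_4_4_26 {n : ℕ} (hn : 5 ≤ n) : BlkD.NdX d19_19_4_4 (BlkD.exF 4 4 x19_19_4_4) n
    (BlkD.upd (BlkD.upd (fun _ => 0) 0 3) 0 4)
    (BlkD.upd (BlkD.upd (fun _ => 19) 0 4) 2 4) :=
  BlkD.NdX.tree s19_19_4_4_26 ok19_19_4_4 (by decide) hn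

/-- a subtree -/
def t19_19_4_4_27 : BlkD.Tr :=
  .E 1

lemma s19_19_4_4_27 : BlkD.treeX d19_19_4_4 (BlkD.exF 4 4 x19_19_4_4) t19_19_4_4_27
    (BlkD.upd (fun _ => 0) 2 5)
    (BlkD.upd (fun _ => 19) 0 4) = true := by
  decide +kernel

lemma n19_19_4_4_27 {n : ℕ} (hn : 5 ≤ n) : BlkD.NdX d19_19_4_4 (BlkD.exF 4 4 x19_19_4_4) n
    (BlkD.upd (fun _ => 0) 2 5)
    (BlkD.upd (fun _ => 19) 0 4) :=
  BlkD.NdX.tree s19_19_4_4_27 ok19_19_4_4 (by decide) hn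

/-- a subtree -/
def t19_19_4_4_28 : BlkD.Tr :=
  .E 0

lemma s19_19_4_4_28 : BlkD.treeX d19_19_4_4 (BlkD.exF 4 4 x19_19_4_4) t19_19_4_4_28
    (BlkD.upd (fun _ => 0) 0 5)
    (fun _ => 19) = true := by
  decide +kernel

lemma n19_19_4_4_28 {n : ℕ} (hn : 5 ≤ n) : BlkD.NdX d19_19_4_4 (BlkD.exF 4 4 x19_19_4_4) n
    (BlkD.upd (fun _ => 0) 0 5)
    (fun _ => 19) :=
  BlkD.NdX.tree s19_19_4_4_28 ok19_19_4_4 (by decide) hn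

end BlkC

end Pool.Agent.Lib.MP_f04ccf_co
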