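import Pool.Agent.Lib.MP_f04ccf_co.M.BlkX19_19_4_4d
import Pool.Agent.Lib.MP_f04ccf_co.M.BlkX19_19_4_4p1
import Pool.Agent.Lib.MP_f04ccf_co.M.BlkX19_19_4_4p2
import Pool.Agent.Lib.MP_f04ccf_co.M.BlkX19_19_4_4e1

/-!
MP_f04ccf_co, block certificate with exceptions, `R = 19`, `H = 19`, the pair `(4, 4)` (data of helper99 / helper13,
generated by helper8, genx.py): the parts together.
-/

set_option autoImplicit false
set_option maxRecDepth 100000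

namespace Pool.Agent.Lib.MP_f04ccf_co

namespace BlkC

lemma x19_19_4_4_5 : NoNd ((19 : ℕ) : ℤ) ((19 : ℕ) : ℤ) 5 4 4 fun x y z w _ _ =>
    BlkD.exF 4 4 x19_19_4_4 x y z w := by
  refine NoNd.of_E (by norm_num) (by norm_num) fun e he => ?_
  simp only [x19_19_4_4, List.mem_cons, List.not_mem_nil, or_false] at he
  rcases he with rfl | rfl | rfl | rfl | rfl | rfl | rfl | rfl | rfl | rfl | rfl | rfl
  · exact e19_19_4_4_5_0
  · exact e19_19_4_4_5_1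
  · exact e19_19_4_4_5_2
  · exact e19_19_4_4_5_3
  · exact e19_19_4_4_5_4
  · exact e19_19_4_4_5_5
  · exact e19_19_4_4_5_6
  · exact e19_19_4_4_5_7
  · exact e19_19_4_4_5_8
  · exact e19_19_4_4_5_9
  · exact e19_19_4_4_5_10
  · exact e19_19_4_4_5_11

lemma x19_19_4_4_6 : NoNd ((19 : ℕ) : ℤ) ((19 : ℕ) : ℤ) 6 4 4 fun x y z w _ _ =>
    BlkD.exF 4 4 x19_19_4_4 x y z w := by
  refine NoNd.of_E (by norm_num) (by norm_num) fun e he => ?_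
  simp only [x19_19_4_4, List.mem_cons, List.not_mem_nil, or_false] at he
  rcases he with rfl | rfl | rfl | rfl | rfl | rfl | rfl | rfl | rfl | rfl | rfl | rfl
  · exact e19_19_4_4_6_0
  · exact e19_19_4_4_6_1
  · exact e19_19_4_4_6_2
  · exact e19_19_4_4_6_3
  · exact e19_19_4_4_6_4
  · exact e19_19_4_4_6_5
  · exact e19_19_4_4_6_6
  · exact e19_19_4_4_6_7
  · exact e19_19_4_4_6_8
  · exact e19_19_4_4_6_9
  · exact e19_19_4_4_6_10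
  · exact e19_19_4_4_6_11

lemma x19_19_4_4_7 : NoNd ((19 : ℕ) : ℤ) ((19 : ℕ) : ℤ) 7 4 4 fun x y z w _ _ =>
    BlkD.exF 4 4 x19_19_4_4 x y z w := by
  refine NoNd.of_E (by norm_num) (by norm_num) fun e he => ?_
  simp only [x19_19_4_4, List.mem_cons, List.not_mem_nil, or_false] at he
  rcases he with rfl | rfl | rfl | rfl | rfl | rfl | rfl | rfl | rfl | rfl | rfl | rfl
  · exact e19_19_4_4_7_0
  · exact e19_19_4_4_7_1
  · exact e19_19_4_4_7_2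
  · exact e19_19_4_4_7_3
  · exact e19_19_4_4_7_4
  · exact e19_19_4_4_7_5
  · exact e19_19_4_4_7_6
  · exact e19_19_4_4_7_7
  · exact e19_19_4_4_7_8
  · exact e19_19_4_4_7_9
  · exact e19_19_4_4_7_10
  · exact e19_19_4_4_7_11

lemma x19_19_4_4_8 : NoNd ((19 : ℕ) : ℤ) ((19 : ℕ) : ℤ) 8 4 4 fun x y z w _ _ =>
    BlkD.exF 4 4 x19_19_4_4 x y z w := by
  refine NoNd.of_E (by norm_num) (by norm_num) fun e he => ?_
  simp only [x19_19_4_4, List.mem_cons, List.not_mem_nil, or_false] at he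
  rcases he with rfl | rfl | rfl | rfl | rfl | rfl | rfl | rfl | rfl | rfl | rfl | rfl
  · exact e19_19_4_4_8_0
  · exact e19_19_4_4_8_1
  · exact e19_19_4_4_8_2
  · exact e19_19_4_4_8_3
  · exact e19_19_4_4_8_4
  · exact e19_19_4_4_8_5
  · exact e19_19_4_4_8_6
  · exact e19_19_4_4_8_7
  · exact e19_19_4_4_8_8
  · exact e19_19_4_4_8_9
  · exact e19_19_4_4_8_10
  · exact e19_19_4_4_8_11

lemma x19_19_4_4_9 : NoNd ((19 : ℕ) : ℤ) ((19 : ℕ) : ℤ) 9 4 4 fun x y z w _ _ =>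
    BlkD.exF 4 4 x19_19_4_4 x y z w := by
  refine NoNd.of_E (by norm_num) (by norm_num) fun e he => ?_
  simp only [x19_19_4_4, List.mem_cons, List.not_mem_nil, or_false] at he
  rcases he with rfl | rfl | rfl | rfl | rfl | rfl | rfl | rfl | rfl | rfl | rfl | rfl
  · exact e19_19_4_4_9_0
  · exact e19_19_4_4_9_1
  · exact e19_19_4_4_9_2
  · exact e19_19_4_4_9_3
  · exact e19_19_4_4_9_4
  · exact e19_19_4_4_9_5
  · exact e19_19_4_4_9_6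
  · exact e19_19_4_4_9_7
  · exact e19_19_4_4_9_8
  · exact e19_19_4_4_9_9
  · exact e19_19_4_4_9_10
  · exact e19_19_4_4_9_11

lemma x19_19_4_4_10 : NoNd ((19 : ℕ) : ℤ) ((19 : ℕ) : ℤ) 10 4 4 fun x y z w _ _ =>
    BlkD.exF 4 4 x19_19_4_4 x y z w := by
  refine NoNd.of_E (by norm_num) (by norm_num) fun e he => ?_
  simp only [x19_19_4_4, List.mem_cons, List.not_mem_nil, or_false] at he
  rcases he with rfl | rfl | rfl | rfl | rfl | rfl | rfl | rfl | rfl | rfl | rfl | rfl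
  · exact e19_19_4_4_10_0
  · exact e19_19_4_4_10_1
  · exact e19_19_4_4_10_2
  · exact e19_19_4_4_10_3
  · exact e19_19_4_4_10_4
  · exact e19_19_4_4_10_5
  · exact e19_19_4_4_10_6
  · exact e19_19_4_4_10_7
  · exact e19_19_4_4_10_8
  · exact e19_19_4_4_10_9
  · exact e19_19_4_4_10_10
  · exact e19_19_4_4_10_11

lemma r19_19_4_4 {n : ℕ} (hn : 5 ≤ n) : BlkD.NdX d19_19_4_4 (BlkD.exF 4 4 x19_19_4_4) n (fun _ => 0) (fun _ => 19) :=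
  (BlkD.NdX.sp 0 4
  (BlkD.NdX.sp 2 4
  (BlkD.NdX.sp 0 2
  (BlkD.NdX.sp 0 1
  (BlkD.NdX.sp 0 0
  (n19_19_4_4_0 hn)
  (BlkD.NdX.sp 1 18
  (BlkD.NdX.sp 1 9
  (BlkD.NdX.sp 1 4
  (BlkD.NdX.sp 1 2
  (n19_19_4_4_1 hn)
  (BlkD.NdX.sp 1 3
  (n19_19_4_4_2 hn)
  (BlkD.NdX.sp 2 2
  (n19_19_4_4_3 hn)
  (n19_19_4_4_4 hn))))
  (BlkD.NdX.sp 1 7
  (BlkD.NdX.sp 1 6
  (BlkD.NdX.sp 1 5
  (BlkD.NdX.sp 2 2
  (n19_19_4_4_5 hn)
  (n19_19_4_4_6 hn))
  (n19_19_4_4_7 hn))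
  (n19_19_4_4_8 hn))
  (n19_19_4_4_9 hn)))
  (n19_19_4_4_10 hn))
  (n19_19_4_4_11 hn)))
  (BlkD.NdX.sp 1 17
  (BlkD.NdX.sp 1 8
  (BlkD.NdX.sp 1 4
  (BlkD.NdX.sp 1 2
  (n19_19_4_4_12 hn)
  (BlkD.NdX.sp 1 3
  (BlkD.NdX.sp 2 2
  (n19_19_4_4_13 hn)
  (n19_19_4_4_14 hn))
  (BlkD.NdX.sp 2 2
  (BlkD.NdX.sp 2 1
  (n19_19_4_4_15 hn)
  (n19_19_4_4_16 hn))
  (n19_19_4_4_17 hn))))
  (n19_19_4_4_18 hn))
  (n19_19_4_4_19 hn))
  (n19_19_4_4_20 hn)))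
  (BlkD.NdX.sp 0 3
  (BlkD.NdX.sp 1 16
  (BlkD.NdX.sp 1 8
  (BlkD.NdX.sp 1 4
  (BlkD.NdX.sp 1 2
  (n19_19_4_4_21 hn)
  (n19_19_4_4_22 hn))
  (n19_19_4_4_23 hn))
  (n19_19_4_4_24 hn))
  (n19_19_4_4_25 hn))
  (n19_19_4_4_26 hn)))
  (n19_19_4_4_27 hn))
  (n19_19_4_4_28 hn))

/-- **`R = 19`, `H = 19`, the pair `(4, 4)`** -/
theorem pr19_19_4_4 {n : ℕ} (hn : 5 ≤ n) : NoPr ((19 : ℕ) : ℤ) ((19 : ℕ) : ℤ) n 4 4 := by
  by_cases h : n < 11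
  · interval_cases n
    · exact BlkD.NdX.pr (r19_19_4_4 (by norm_num)) (by decide) (by decide) x19_19_4_4_5 rfl rfl rfl rfl
    · exact BlkD.NdX.pr (r19_19_4_4 (by norm_num)) (by decide) (by decide) x19_19_4_4_6 rfl rfl rfl rfl
    · exact BlkD.NdX.pr (r19_19_4_4 (by norm_num)) (by decide) (by decide) x19_19_4_4_7 rfl rfl rfl rfl
    · exact BlkD.NdX.pr (r19_19_4_4 (by norm_num)) (by decide) (by decide) x19_19_4_4_8 rfl rfl rfl rfl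
    · exact BlkD.NdX.pr (r19_19_4_4 (by norm_num)) (by decide) (by decide) x19_19_4_4_9 rfl rfl rfl rfl
    · exact BlkD.NdX.pr (r19_19_4_4 (by norm_num)) (by decide) (by decide) x19_19_4_4_10 rfl rfl rfl rfl
  · exact NoPr.big (by omega) (by omega)

end BlkC

end Pool.Agent.Lib.MP_f04ccf_co
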