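import Pool.Agent.Lib.MP_f04ccf_co.M.BlkX20_20_4_4d

/-!
MP_f04ccf_co, block certificate with exceptions, `R = 20`, `H = 20`, the pair `(4, 4)` (data of helper99 / helper13,
generated by helper8, genx.py): the exceptions, part 1 of 2.
-/

set_option autoImplicit false
set_option maxRecDepth 100000

namespace Pool.Agent.Lib.MP_f04ccf_co

namespace BlkC

lemma e20_20_4_4_5_0 : EnPr.lall (fun l => EnPr.one 20 5 (6, 3, 5, 2) (4 :: 4 :: l))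
    (EnPr.prof (5 - 2) 4 (20 - (5 + 1) - 4 - 4)) = true := by
  decide +kernel

lemma e20_20_4_4_5_1 : EnPr.lall (fun l => EnPr.one 20 5 (6, 3, 5, 3) (4 :: 4 :: l))
    (EnPr.prof (5 - 2) 4 (20 - (5 + 1) - 4 - 4)) = true := by
  decide +kernel

lemma e20_20_4_4_5_2 : EnPr.lall (fun l => EnPr.one 20 5 (6, 3, 5, 4) (4 :: 4 :: l))
    (EnPr.prof (5 - 2) 4 (20 - (5 + 1) - 4 - 4)) = true := by
  decide +kernel

lemma e20_20_4_4_5_3 : EnPr.lall (fun l => EnPr.one 20 5 (6, 3, 6, 3) (4 :: 4 :: l))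
    (EnPr.prof (5 - 2) 4 (20 - (5 + 1) - 4 - 4)) = true := by
  decide +kernel

lemma e20_20_4_4_5_4 : EnPr.lall (fun l => EnPr.one 20 5 (6, 4, 5, 2) (4 :: 4 :: l))
    (EnPr.prof (5 - 2) 4 (20 - (5 + 1) - 4 - 4)) = true := by
  decide +kernel

lemma e20_20_4_4_5_5 : EnPr.lall (fun l => EnPr.one 20 5 (6, 4, 5, 3) (4 :: 4 :: l))
    (EnPr.prof (5 - 2) 4 (20 - (5 + 1) - 4 - 4)) = true := by
  decide +kernel

lemma e20_20_4_4_5_6 : EnPr.lall (fun l => EnPr.one 20 5 (6, 4, 5, 4) (4 :: 4 :: l))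
    (EnPr.prof (5 - 2) 4 (20 - (5 + 1) - 4 - 4)) = true := by
  decide +kernel

lemma e20_20_4_4_5_7 : EnPr.lall (fun l => EnPr.one 20 5 (6, 4, 6, 3) (4 :: 4 :: l))
    (EnPr.prof (5 - 2) 4 (20 - (5 + 1) - 4 - 4)) = true := by
  decide +kernel

lemma e20_20_4_4_5_8 : EnPr.lall (fun l => EnPr.one 20 5 (6, 4, 6, 4) (4 :: 4 :: l))
    (EnPr.prof (5 - 2) 4 (20 - (5 + 1) - 4 - 4)) = true := by
  decide +kernel

lemma e20_20_4_4_5_9 : EnPr.lall (fun l => EnPr.one 20 5 (6, 5, 6, 3) (4 :: 4 :: l))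
    (EnPr.prof (5 - 2) 4 (20 - (5 + 1) - 4 - 4)) = true := by
  decide +kernel

lemma e20_20_4_4_5_10 : EnPr.lall (fun l => EnPr.one 20 5 (6, 5, 6, 4) (4 :: 4 :: l))
    (EnPr.prof (5 - 2) 4 (20 - (5 + 1) - 4 - 4)) = true := by
  decide +kernel

lemma g20_20_4_4_5_11_0 : EnPr.one 20 5 (6, 5, 6, 5) [4, 4, 0, 0, 0] = true := by
  decide +kernel

lemma g20_20_4_4_5_11_1 : EnPr.one 20 5 (6, 5, 6, 5) [4, 4, 1, 0, 0] = true := by
  decide +kernel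

lemma g20_20_4_4_5_11_2 : EnPr.one 20 5 (6, 5, 6, 5) [4, 4, 1, 1, 0] = true := by
  decide +kernel

lemma g20_20_4_4_5_11_3 : EnPr.one 20 5 (6, 5, 6, 5) [4, 4, 1, 1, 1] = true := by
  decide +kernel

lemma g20_20_4_4_5_11_4 : EnPr.one 20 5 (6, 5, 6, 5) [4, 4, 2, 0, 0] = true := by
  decide +kernel

lemma g20_20_4_4_5_11_5 : EnPr.one 20 5 (6, 5, 6, 5) [4, 4, 2, 1, 0] = true := by
  decide +kernel

lemma g20_20_4_4_5_11_6 : EnPr.one 20 5 (6, 5, 6, 5) [4, 4, 2, 1, 1] = true := by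
  decide +kernel

lemma g20_20_4_4_5_11_7 : EnPr.one 20 5 (6, 5, 6, 5) [4, 4, 2, 2, 0] = true := by
  decide +kernel

lemma g20_20_4_4_5_11_8 : EnPr.one 20 5 (6, 5, 6, 5) [4, 4, 2, 2, 1] = true := by
  decide +kernel

lemma g20_20_4_4_5_11_9 : EnPr.one 20 5 (6, 5, 6, 5) [4, 4, 2, 2, 2] = true := by
  decide +kernel

lemma g20_20_4_4_5_11_10 : EnPr.one 20 5 (6, 5, 6, 5) [4, 4, 3, 0, 0] = true := by
  decide +kernel

lemma g20_20_4_4_5_11_11 : EnPr.one 20 5 (6, 5, 6, 5) [4, 4, 3, 1, 0] = true := by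
  decide +kernel

lemma g20_20_4_4_5_11_12 : EnPr.one 20 5 (6, 5, 6, 5) [4, 4, 3, 1, 1] = true := by
  decide +kernel

lemma g20_20_4_4_5_11_13 : EnPr.one 20 5 (6, 5, 6, 5) [4, 4, 3, 2, 0] = true := by
  decide +kernel

lemma g20_20_4_4_5_11_14 : EnPr.one 20 5 (6, 5, 6, 5) [4, 4, 3, 2, 1] = true := by
  decide +kernel

lemma g20_20_4_4_5_11_15 : EnPr.one 20 5 (6, 5, 6, 5) [4, 4, 3, 3, 0] = true := by
  decide +kernel

lemma g20_20_4_4_5_11_16 : EnPr.one 20 5 (6, 5, 6, 5) [4, 4, 4, 0, 0] = true := by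
  decide +kernel

lemma g20_20_4_4_5_11_17 : EnPr.one 20 5 (6, 5, 6, 5) [4, 4, 4, 1, 0] = true := by
  decide +kernel

lemma g20_20_4_4_5_11_18 : EnPr.one 20 5 (6, 5, 6, 5) [4, 4, 4, 1, 1] = true := by
  decide +kernel

lemma g20_20_4_4_5_11_19 : EnPr.one 20 5 (6, 5, 6, 5) [4, 4, 4, 2, 0] = true := by
  decide +kernel

lemma e20_20_4_4_5_11 : EnPr.lall (fun l => EnPr.one 20 5 (6, 5, 6, 5) (4 :: 4 :: l))
    (EnPr.prof (5 - 2) 4 (20 - (5 + 1) - 4 - 4)) = true := by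
  rw [EnPr.lall_iff]
  intro l hl
  rw [show EnPr.prof (5 - 2) 4 (20 - (5 + 1) - 4 - 4) =
      [[0, 0, 0],
      [1, 0, 0],
      [1, 1, 0],
      [1, 1, 1],
      [2, 0, 0],
      [2, 1, 0],
      [2, 1, 1],
      [2, 2, 0],
      [2, 2, 1],
      [2, 2, 2],
      [3, 0, 0],
      [3, 1, 0],
      [3, 1, 1],
      [3, 2, 0],
      [3, 2, 1],
      [3, 3, 0],
      [4, 0, 0],
      [4, 1, 0],
      [4, 1, 1],
      [4, 2, 0]] by
    decide +kernel] at hl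
  simp only [List.mem_cons, List.not_mem_nil, or_false] at hl
  rcases hl with rfl | rfl | rfl | rfl | rfl | rfl | rfl | rfl | rfl | rfl | rfl | rfl | rfl | rfl | rfl | rfl | rfl | rfl | rfl | rfl
  · exact g20_20_4_4_5_11_0
  · exact g20_20_4_4_5_11_1
  · exact g20_20_4_4_5_11_2
  · exact g20_20_4_4_5_11_3
  · exact g20_20_4_4_5_11_4
  · exact g20_20_4_4_5_11_5
  · exact g20_20_4_4_5_11_6
  · exact g20_20_4_4_5_11_7
  · exact g20_20_4_4_5_11_8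
  · exact g20_20_4_4_5_11_9
  · exact g20_20_4_4_5_11_10
  · exact g20_20_4_4_5_11_11
  · exact g20_20_4_4_5_11_12
  · exact g20_20_4_4_5_11_13
  · exact g20_20_4_4_5_11_14
  · exact g20_20_4_4_5_11_15
  · exact g20_20_4_4_5_11_16
  · exact g20_20_4_4_5_11_17
  · exact g20_20_4_4_5_11_18
  · exact g20_20_4_4_5_11_19

lemma e20_20_4_4_6_0 : EnPr.lall (fun l => EnPr.one 20 6 (6, 3, 5, 2) (4 :: 4 :: l))
    (EnPr.prof (6 - 2) 4 (20 - (6 + 1) - 4 - 4)) = true := by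
  decide +kernel

lemma e20_20_4_4_6_1 : EnPr.lall (fun l => EnPr.one 20 6 (6, 3, 5, 3) (4 :: 4 :: l))
    (EnPr.prof (6 - 2) 4 (20 - (6 + 1) - 4 - 4)) = true := by
  decide +kernel

lemma e20_20_4_4_6_2 : EnPr.lall (fun l => EnPr.one 20 6 (6, 3, 5, 4) (4 :: 4 :: l))
    (EnPr.prof (6 - 2) 4 (20 - (6 + 1) - 4 - 4)) = true := by
  decide +kernel

lemma e20_20_4_4_6_3 : EnPr.lall (fun l => EnPr.one 20 6 (6, 3, 6, 3) (4 :: 4 :: l))
    (EnPr.prof (6 - 2) 4 (20 - (6 + 1) - 4 - 4)) = true := by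
  decide +kernel

lemma e20_20_4_4_6_4 : EnPr.lall (fun l => EnPr.one 20 6 (6, 4, 5, 2) (4 :: 4 :: l))
    (EnPr.prof (6 - 2) 4 (20 - (6 + 1) - 4 - 4)) = true := by
  decide +kernel

lemma e20_20_4_4_6_5 : EnPr.lall (fun l => EnPr.one 20 6 (6, 4, 5, 3) (4 :: 4 :: l))
    (EnPr.prof (6 - 2) 4 (20 - (6 + 1) - 4 - 4)) = true := by
  decide +kernel

lemma e20_20_4_4_6_6 : EnPr.lall (fun l => EnPr.one 20 6 (6, 4, 5, 4) (4 :: 4 :: l))
    (EnPr.prof (6 - 2) 4 (20 - (6 + 1) - 4 - 4)) = true := by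
  decide +kernel

lemma e20_20_4_4_6_7 : EnPr.lall (fun l => EnPr.one 20 6 (6, 4, 6, 3) (4 :: 4 :: l))
    (EnPr.prof (6 - 2) 4 (20 - (6 + 1) - 4 - 4)) = true := by
  decide +kernel

lemma e20_20_4_4_6_8 : EnPr.lall (fun l => EnPr.one 20 6 (6, 4, 6, 4) (4 :: 4 :: l))
    (EnPr.prof (6 - 2) 4 (20 - (6 + 1) - 4 - 4)) = true := by
  decide +kernel

lemma e20_20_4_4_6_9 : EnPr.lall (fun l => EnPr.one 20 6 (6, 5, 6, 3) (4 :: 4 :: l))
    (EnPr.prof (6 - 2) 4 (20 - (6 + 1) - 4 - 4)) = true := by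
  decide +kernel

end BlkC

end Pool.Agent.Lib.MP_f04ccf_co
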