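import Pool.Agent.Lib.MP_f04ccf_co.M.BlkX20_20_4_4d

/-!
MP_f04ccf_co, block certificate with exceptions, `R = 20`, `H = 20`, the pair `(4, 4)` (data of helper99 / helper13,
generated by helper8, genx.py): part 1 of 2.
-/

set_option autoImplicit false
set_option maxRecDepth 100000

namespace Pool.Agent.Lib.MP_f04ccf_co

namespace BlkC

/-- a subtree -/
def t20_20_4_4_0 : BlkD.Tr :=
  .L 5 5 [4, 4, 4, 5, 6] [] [] 100000 55952 55951 600002 0 0 100000 33333 0 9524 42857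

lemma s20_20_4_4_0 : BlkD.treeX d20_20_4_4 (BlkD.exF 4 4 x20_20_4_4) t20_20_4_4_0
    (fun _ => 0)
    (BlkD.upd (BlkD.upd (BlkD.upd (BlkD.upd (BlkD.upd (fun _ => 20) 0 4) 2 4) 0 2) 0 1) 0 0) = true := by
  decide +kernel

lemma n20_20_4_4_0 {n : ℕ} (hn : 5 ≤ n) : BlkD.NdX d20_20_4_4 (BlkD.exF 4 4 x20_20_4_4) n
    (fun _ => 0)
    (BlkD.upd (BlkD.upd (BlkD.upd (BlkD.upd (BlkD.upd (fun _ => 20) 0 4) 2 4) 0 2) 0 1) 0 0) :=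
  BlkD.NdX.tree s20_20_4_4_0 ok20_20_4_4 (by decide) hn

/-- a subtree -/
def t20_20_4_4_1 : BlkD.Tr :=
  .L 5 5 [4, 4, 4, 5, 6] [] [] 100000 25000 25000 893336 3333 0 3333 20000 0 26667 30000

lemma s20_20_4_4_1 : BlkD.treeX d20_20_4_4 (BlkD.exF 4 4 x20_20_4_4) t20_20_4_4_1
    (BlkD.upd (fun _ => 0) 0 1)
    (BlkD.upd (BlkD.upd (BlkD.upd (BlkD.upd (BlkD.upd (BlkD.upd (BlkD.upd (BlkD.upd (fun _ => 20) 0 4) 2 4) 0 2) 0 1) 1 19) 1 9) 1 4) 1 2) = true := by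
  decide +kernel

lemma n20_20_4_4_1 {n : ℕ} (hn : 5 ≤ n) : BlkD.NdX d20_20_4_4 (BlkD.exF 4 4 x20_20_4_4) n
    (BlkD.upd (fun _ => 0) 0 1)
    (BlkD.upd (BlkD.upd (BlkD.upd (BlkD.upd (BlkD.upd (BlkD.upd (BlkD.upd (BlkD.upd (fun _ => 20) 0 4) 2 4) 0 2) 0 1) 1 19) 1 9) 1 4) 1 2) :=
  BlkD.NdX.tree s20_20_4_4_1 ok20_20_4_4 (by decide) hn

/-- a subtree -/
def t20_20_4_4_2 : BlkD.Tr :=
  .S 2 2 (.S 2 1 (.S 2 0 (.L 5 5 [4, 4, 4, 5, 6] [42, 32, 22, 12, 0, 0] [] 100000 55555 55555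
    600000 0 0 0 100000 0 0 15556) (.S 3 15 (.S 3 7 (.S 3 3 (.L 5 5 [4, 4, 4, 5, 6] [42, 32, 22,
    12, 0, 0] [] 100000 25000 24998 800000 0 0 0 0 0 0 33333) (.S 3 5 (.S 3 4 (.L 5 5 [4, 4, 4, 5,
    6] [42, 32, 22, 12, 0, 0] [54, 50, 40, 30, 20, 0] 100000 25000 24998 900000 0 0 0 0 0 0 33333)
    (.S 4 3 (.S 4 1 (.L 5 5 [4, 4, 4, 5, 6] [22, 12, 0, 0, 0, 0] [66, 64, 60, 50, 40, 30] 100000
    16667 16667 983334 0 16667 0 33333 33333 50000 33333) (.L 5 5 [4, 4, 4, 5, 6] [42, 32, 22, 12,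
    0, 0] [66, 64, 60, 50, 40, 30] 100000 25000 25000 900000 0 0 50000 25000 0 75000 50000)) (.E
    2))) (.L 5 5 [4, 4, 4, 5, 6] [42, 32, 22, 12, 0, 0] [] 100000 111111 0 0 14815 0 14815 211111 0
    0 0))) (.E 1)) (.E 1))) (.S 3 14 (.S 3 7 (.S 3 3 (.L 5 5 [4, 4, 4, 5, 6] [42, 32, 22, 12, 0, 0]
    [] 100000 25000 24998 900000 0 0 0 0 0 0 33333) (.L 5 5 [4, 4, 4, 5, 6] [42, 32, 22, 12, 0, 0]
    [] 100000 25000 25000 933335 11111 0 11111 33333 0 66667 31746)) (.E 1)) (.E 1))) (.L 5 5 [4,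
    4, 4, 5, 6] [42, 32, 22, 12, 0, 0] [] 100000 25000 25000 920000 20000 0 20000 20000 0 80000
    34286)

lemma s20_20_4_4_2 : BlkD.treeX d20_20_4_4 (BlkD.exF 4 4 x20_20_4_4) t20_20_4_4_2
    (BlkD.upd (BlkD.upd (fun _ => 0) 0 1) 1 3)
    (BlkD.upd (BlkD.upd (BlkD.upd (BlkD.upd (BlkD.upd (BlkD.upd (BlkD.upd (BlkD.upd (fun _ => 20) 0 4) 2 4) 0 2) 0 1) 1 19) 1 9) 1 4) 1 3) = true := by
  decide +kernel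

lemma n20_20_4_4_2 {n : ℕ} (hn : 5 ≤ n) : BlkD.NdX d20_20_4_4 (BlkD.exF 4 4 x20_20_4_4) n
    (BlkD.upd (BlkD.upd (fun _ => 0) 0 1) 1 3)
    (BlkD.upd (BlkD.upd (BlkD.upd (BlkD.upd (BlkD.upd (BlkD.upd (BlkD.upd (BlkD.upd (fun _ => 20) 0 4) 2 4) 0 2) 0 1) 1 19) 1 9) 1 4) 1 3) :=
  BlkD.NdX.tree s20_20_4_4_2 ok20_20_4_4 (by decide) hn

/-- a subtree -/
def t20_20_4_4_3 : BlkD.Tr :=
  .S 2 1 (.S 2 0 (.L 5 5 [4, 4, 4, 5, 6] [54, 50, 40, 30, 20, 0] [] 100000 55555 55553 600001 0 0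
    33333 100000 11111 0 44444) (.S 3 14 (.S 3 7 (.S 3 3 (.L 5 5 [4, 4, 4, 5, 6] [54, 50, 40, 30,
    20, 0] [] 100000 25000 24998 900000 0 0 0 0 0 0 33333) (.S 3 5 (.S 3 4 (.S 4 4 (.S 4 2 (.L 4 4
    [4, 4, 5, 6, 7] [40, 30, 20, 0, 0, 0] [54, 50, 40, 30, 20, 0] 100000 16176 16174 1000000 17647
    0 17647 17647 52941 35294 41176) (.L 4 4 [4, 4, 5, 6, 7] [54, 50, 40, 30, 20, 0] [54, 50, 40,
    30, 20, 0] 100000 33654 33654 884615 0 0 69231 23077 23077 34615 50000)) (.E 2)) (.S 4 4 (.S 4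
    2 (.S 4 1 (.S 4 0 (.L 4 4 [4, 4, 5, 6, 7] [20, 0, 0, 0, 0, 0] [66, 64, 60, 50, 40, 30] 100000
    25000 25000 875000 50000 0 0 25000 50000 75000 50000) (.S 5 5 (.S 5 2 (.L 4 4 [4, 4, 5, 6, 7]
    [30, 20, 0, 0, 0, 0] [50, 40, 30, 0, 0, 0] 100000 66666 66664 666668 100000 33333 0 33333 33333
    66667 33333) (.L 4 4 [4, 4, 5, 6, 7] [30, 20, 0, 0, 0, 0] [66, 64, 60, 50, 40, 30] 100000 12500
    12500 1000000 0 0 0 50000 50000 50000 50000)) (.E 2))) (.S 5 5 (.S 5 2 (.L 4 4 [4, 4, 5, 6, 7]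
    [40, 30, 20, 0, 0, 0] [50, 40, 30, 0, 0, 0] 100000 20455 20454 972726 0 18182 36364 18182 18182
    72727 45455) (.L 4 4 [4, 4, 5, 6, 7] [40, 30, 20, 0, 0, 0] [66, 64, 60, 50, 40, 30] 100000
    12500 12500 1000000 0 0 0 50000 50000 50000 50000)) (.E 2))) (.L 4 4 [4, 4, 5, 6, 7] [54, 50,
    40, 30, 20, 0] [66, 64, 60, 50, 40, 30] 100000 30357 30355 907142 0 0 64286 21429 0 64286
    50000)) (.E 2))) (.L 4 4 [4, 4, 5, 6, 7] [54, 50, 40, 30, 20, 0] [] 100000 111111 0 1 36111 0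
    36111 211111 0 0 11111))) (.E 1)) (.E 1))) (.S 3 13 (.S 3 6 (.S 3 3 (.S 3 1 (.L 4 4 [4, 4, 5,
    6, 7] [54, 50, 40, 30, 20, 0] [] 100000 25000 24998 800000 0 0 0 0 0 0 33333) (.S 3 2 (.L 4 4
    [4, 4, 5, 6, 7] [54, 50, 40, 30, 20, 0] [30, 20, 10, 0, 0, 0] 100000 25000 24998 900000 0 0 0 0
    0 0 33333) (.S 4 4 (.S 4 2 (.L 4 4 [4, 4, 5, 6, 7] [40, 30, 20, 0, 0, 0] [48, 38, 28, 18, 0, 0]
    100000 13158 13158 1015791 15789 0 15789 15789 47368 47368 42105) (.L 4 4 [4, 4, 5, 6, 7] [54,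
    50, 40, 30, 20, 0] [48, 38, 28, 18, 0, 0] 100000 45833 45831 800000 0 0 100000 16667 0 33333
    50000)) (.E 2)))) (.S 3 5 (.S 3 4 (.S 4 4 (.S 4 2 (.S 4 1 (.S 4 0 (.L 4 4 [4, 4, 5, 6, 7] [20,
    0, 0, 0, 0, 0] [62, 58, 48, 38, 28, 0] 100000 73913 52173 491304 121739 0 0 60870 47826 39130
    47826) (.S 5 4 (.S 5 2 (.L 5 5 [4, 4, 4, 5, 6] [30, 20, 0, 0, 0, 0] [48, 38, 28, 0, 0, 0]
    100000 12963 12963 1000000 48148 0 0 1852 48148 98148 48148) (.L 5 5 [4, 4, 4, 5, 6] [30, 20,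
    0, 0, 0, 0] [62, 58, 48, 38, 28, 0] 100000 12500 12500 1000000 0 0 0 50000 50000 50000 50000))
    (.E 2))) (.S 5 4 (.S 5 2 (.S 5 1 (.E 2) (.E 9)) (.L 5 5 [4, 4, 4, 5, 6] [40, 30, 20, 0, 0, 0]
    [62, 58, 48, 38, 28, 0] 100000 12500 12500 1000000 0 0 0 50000 50000 50000 50000)) (.E 2))) (.L
    5 5 [4, 4, 4, 5, 6] [54, 50, 40, 30, 20, 0] [62, 58, 48, 38, 28, 0] 100000 32500 32500 890000 0
    0 60000 30000 0 60000 50000)) (.E 2)) (.E 1)) (.E 1))) (.E 1)) (.E 1))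

lemma s20_20_4_4_3 : BlkD.treeX d20_20_4_4 (BlkD.exF 4 4 x20_20_4_4) t20_20_4_4_3
    (BlkD.upd (BlkD.upd (BlkD.upd (fun _ => 0) 0 1) 1 3) 1 4)
    (BlkD.upd (BlkD.upd (BlkD.upd (BlkD.upd (BlkD.upd (BlkD.upd (BlkD.upd (BlkD.upd (fun _ => 20) 0 4) 2 4) 0 2) 0 1) 1 19) 1 9) 1 4) 2 2) = true := by
  decide +kernel

lemma n20_20_4_4_3 {n : ℕ} (hn : 5 ≤ n) : BlkD.NdX d20_20_4_4 (BlkD.exF 4 4 x20_20_4_4) n
    (BlkD.upd (BlkD.upd (BlkD.upd (fun _ => 0) 0 1) 1 3) 1 4)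
    (BlkD.upd (BlkD.upd (BlkD.upd (BlkD.upd (BlkD.upd (BlkD.upd (BlkD.upd (BlkD.upd (fun _ => 20) 0 4) 2 4) 0 2) 0 1) 1 19) 1 9) 1 4) 2 2) :=
  BlkD.NdX.tree s20_20_4_4_3 ok20_20_4_4 (by decide) hn

/-- a subtree -/
def t20_20_4_4_4 : BlkD.Tr :=
  .S 2 3 (.S 3 12 (.S 3 6 (.S 3 3 (.S 3 1 (.L 5 5 [4, 4, 4, 5, 6] [54, 50, 40, 30, 20, 0] [] 100000
    25000 24998 900000 0 0 0 0 0 0 33333) (.S 3 2 (.L 3 3 [5, 6, 7, 8, 9] [54, 50, 40, 30, 20, 0]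
    [34, 24, 14, 0, 0, 0] 100000 16964 16962 994643 5357 0 21429 32143 32143 64286 50000) (.S 4 4
    (.S 4 2 (.S 4 1 (.L 5 5 [4, 4, 4, 5, 6] [30, 20, 0, 0, 0, 0] [54, 44, 34, 24, 0, 0] 100000
    12963 12963 1000000 48148 0 0 1852 48148 98148 48148) (.S 5 3 (.S 5 1 (.E 2) (.S 5 2 (.E 9) (.L
    5 5 [4, 4, 4, 5, 6] [40, 30, 20, 0, 0, 0] [54, 44, 34, 24, 0, 0] 100000 12500 12500 1000000 0 0
    0 50000 50000 50000 50000))) (.E 2))) (.L 5 5 [4, 4, 4, 5, 6] [54, 50, 40, 30, 20, 0] [54, 44,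
    34, 24, 0, 0] 100000 37500 37500 800000 0 0 100000 0 0 50000 50000)) (.E 2)))) (.E 1)) (.E 1))
    (.E 1)) (.L 5 5 [4, 4, 4, 5, 6] [54, 50, 40, 30, 20, 0] [] 100000 21875 21875 912500 31250 0
    37500 0 12500 100000 50000)

lemma s20_20_4_4_4 : BlkD.treeX d20_20_4_4 (BlkD.exF 4 4 x20_20_4_4) t20_20_4_4_4
    (BlkD.upd (BlkD.upd (BlkD.upd (BlkD.upd (fun _ => 0) 0 1) 1 3) 1 4) 2 3)
    (BlkD.upd (BlkD.upd (BlkD.upd (BlkD.upd (BlkD.upd (BlkD.upd (BlkD.upd (fun _ => 20) 0 4) 2 4) 0 2) 0 1) 1 19) 1 9) 1 4) = true := by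
  decide +kernel

lemma n20_20_4_4_4 {n : ℕ} (hn : 5 ≤ n) : BlkD.NdX d20_20_4_4 (BlkD.exF 4 4 x20_20_4_4) n
    (BlkD.upd (BlkD.upd (BlkD.upd (BlkD.upd (fun _ => 0) 0 1) 1 3) 1 4) 2 3)
    (BlkD.upd (BlkD.upd (BlkD.upd (BlkD.upd (BlkD.upd (BlkD.upd (BlkD.upd (fun _ => 20) 0 4) 2 4) 0 2) 0 1) 1 19) 1 9) 1 4) :=
  BlkD.NdX.tree s20_20_4_4_4 ok20_20_4_4 (by decide) hn

/-- a subtree -/
def t20_20_4_4_5 : BlkD.Tr :=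
  .S 2 0 (.L 5 5 [4, 4, 4, 5, 6] [66, 64, 60, 50, 40, 30] [] 100000 58333 58332 600001 0 0 33333
    100000 0 0 33333) (.S 3 13 (.S 3 6 (.S 3 3 (.S 3 1 (.L 5 5 [4, 4, 4, 5, 6] [66, 64, 60, 50, 40,
    30] [] 100000 25000 24998 800000 0 0 0 0 0 0 33333) (.S 3 2 (.L 5 5 [4, 4, 4, 5, 6] [66, 64,
    60, 50, 40, 30] [26, 16, 6, 0, 0, 0] 100000 25000 25000 850000 0 25000 25000 25000 75000 0
    32143) (.S 4 5 (.S 4 2 (.L 5 5 [4, 4, 4, 5, 6] [50, 40, 30, 0, 0, 0] [42, 32, 22, 12, 0, 0]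
    100000 25000 24998 900001 0 33333 0 33333 100000 0 33333) (.L 5 5 [4, 4, 4, 5, 6] [66, 64, 60,
    50, 40, 30] [42, 32, 22, 12, 0, 0] 100000 25000 25000 933335 0 11111 33333 11111 66667 0
    30159)) (.E 2)))) (.S 3 5 (.S 3 4 (.S 4 5 (.S 4 2 (.L 4 4 [4, 4, 5, 6, 7] [50, 40, 30, 0, 0, 0]
    [54, 50, 40, 30, 20, 0] 100000 18103 18101 989656 27586 0 27586 13793 68966 27586 37931) (.S 4
    4 (.S 4 3 (.L 4 4 [4, 4, 5, 6, 7] [60, 50, 40, 30, 0, 0] [54, 50, 40, 30, 20, 0] 100000 17105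
    17104 989476 15789 0 31579 15789 63158 31579 42105) (.L 4 4 [4, 4, 5, 6, 7] [64, 60, 50, 40,
    30, 0] [54, 50, 40, 30, 20, 0] 100000 29167 29167 916665 0 0 66667 16667 33333 33333 50000))
    (.L 4 4 [4, 4, 5, 6, 7] [66, 64, 60, 50, 40, 30] [54, 50, 40, 30, 20, 0] 100000 54166 54164
    700001 0 0 100000 33333 0 16667 50000))) (.E 2)) (.S 4 5 (.S 4 2 (.S 4 1 (.L 1 1 [10, 12, 14,
    16, 16] [40, 30, 0, 0, 0, 0] [66, 64, 60, 50, 40, 30] 100000 57500 57500 752500 72500 27500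
    20000 27500 42500 55000 45000) (.S 5 5 (.S 5 2 (.S 5 1 (.L 1 1 [10, 12, 14, 16, 16] [50, 40,
    30, 0, 0, 0] [40, 30, 0, 0, 0, 0] 100000 53846 53845 738462 0 100000 30769 0 46154 69231 46154)
    (.E 9)) (.S 5 4 (.S 5 3 (.E 9) (.L 1 1 [10, 12, 14, 16, 16] [50, 40, 30, 0, 0, 0] [64, 60, 50,
    40, 30, 0] 100000 75000 75000 575000 75000 0 0 100000 50000 0 50000)) (.L 1 1 [10, 12, 14, 16,
    16] [50, 40, 30, 0, 0, 0] [66, 64, 60, 50, 40, 30] 100000 111111 0 1 48148 0 0 211111 0 0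
    12593))) (.E 2))) (.S 4 4 (.S 4 3 (.S 5 5 (.S 5 2 (.S 5 1 (.L 1 1 [10, 12, 14, 16, 16] [60, 50,
    40, 30, 0, 0] [40, 30, 0, 0, 0, 0] 100000 75000 75000 575000 0 100000 75000 0 25000 50000
    50000) (.E 9)) (.S 5 4 (.S 5 3 (.E 9) (.L 1 1 [10, 12, 14, 16, 16] [60, 50, 40, 30, 0, 0] [64,
    60, 50, 40, 30, 0] 100000 87500 87500 500000 0 0 100000 100000 0 0 50000)) (.L 1 1 [10, 12, 14,
    16, 16] [60, 50, 40, 30, 0, 0] [66, 64, 60, 50, 40, 30] 100000 105264 1 0 0 0 57895 205263 0 0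
    0))) (.E 2)) (.S 5 5 (.S 5 2 (.L 1 1 [10, 12, 14, 16, 16] [64, 60, 50, 40, 30, 0] [50, 40, 30,
    0, 0, 0] 100000 75000 75000 575000 0 75000 100000 0 0 50000 50000) (.S 5 4 (.S 5 3 (.L 1 1 [10,
    12, 14, 16, 16] [64, 60, 50, 40, 30, 0] [60, 50, 40, 30, 0, 0] 100000 87500 87500 500000 0 0
    100000 100000 0 0 50000) (.E 9)) (.L 1 1 [10, 12, 14, 16, 16] [64, 60, 50, 40, 30, 0] [66, 64,
    60, 50, 40, 30] 100000 87500 87500 500000 0 0 100000 100000 0 0 50000))) (.E 2))) (.L 1 1 [10,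
    12, 14, 16, 16] [66, 64, 60, 50, 40, 30] [66, 64, 60, 50, 40, 30] 100000 62500 62500 650000 0 0
    100000 50000 0 0 50000))) (.E 2))) (.E 2))) (.E 1)) (.E 1))

lemma s20_20_4_4_5 : BlkD.treeX d20_20_4_4 (BlkD.exF 4 4 x20_20_4_4) t20_20_4_4_5
    (BlkD.upd (BlkD.upd (fun _ => 0) 0 1) 1 5)
    (BlkD.upd (BlkD.upd (BlkD.upd (BlkD.upd (BlkD.upd (BlkD.upd (BlkD.upd (BlkD.upd (BlkD.upd (BlkD.upd (BlkD.upd (fun _ => 20) 0 4) 2 4) 0 2) 0 1) 1 19) 1 9) 1 7) 1 6) 1 5) 2 2) 2 1) = true := by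
  decide +kernel

lemma n20_20_4_4_5 {n : ℕ} (hn : 5 ≤ n) : BlkD.NdX d20_20_4_4 (BlkD.exF 4 4 x20_20_4_4) n
    (BlkD.upd (BlkD.upd (fun _ => 0) 0 1) 1 5)
    (BlkD.upd (BlkD.upd (BlkD.upd (BlkD.upd (BlkD.upd (BlkD.upd (BlkD.upd (BlkD.upd (BlkD.upd (BlkD.upd (BlkD.upd (fun _ => 20) 0 4) 2 4) 0 2) 0 1) 1 19) 1 9) 1 7) 1 6) 1 5) 2 2) 2 1) :=
  BlkD.NdX.tree s20_20_4_4_5 ok20_20_4_4 (by decide) hn

/-- a subtree -/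
def t20_20_4_4_6 : BlkD.Tr :=
  .S 3 12 (.S 3 6 (.S 3 3 (.S 3 1 (.L 1 1 [10, 12, 14, 16, 16] [66, 64, 60, 50, 40, 30] [] 100000
    26191 26190 890478 4762 0 28571 42857 71429 4762 28571) (.S 3 2 (.L 5 5 [4, 4, 4, 5, 6] [66,
    64, 60, 50, 40, 30] [30, 20, 10, 0, 0, 0] 100000 18750 18750 975000 0 12500 25000 37500 75000
    25000 50000) (.S 4 5 (.S 4 2 (.L 5 5 [4, 4, 4, 5, 6] [50, 40, 30, 0, 0, 0] [48, 38, 28, 18, 0,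
    0] 100000 17857 17856 985716 28571 0 28571 14286 71429 28571 42857) (.L 5 5 [4, 4, 4, 5, 6]
    [66, 64, 60, 50, 40, 30] [48, 38, 28, 18, 0, 0] 100000 12500 12500 1000000 0 0 50000 0 50000
    50000 50000)) (.E 2)))) (.S 3 5 (.S 3 4 (.S 4 5 (.S 4 2 (.S 4 1 (.L 2 2 [6, 8, 9, 10, 12] [40,
    30, 0, 0, 0, 0] [62, 58, 48, 38, 28, 0] 100000 52083 52081 745834 100000 0 0 27083 45833 91667
    45833) (.S 5 4 (.S 5 2 (.S 5 1 (.E 2) (.E 9)) (.S 5 3 (.E 9) (.L 2 2 [6, 8, 9, 10, 12] [50, 40,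
    30, 0, 0, 0] [62, 58, 48, 38, 28, 0] 100000 87500 87500 500000 100000 0 0 100000 50000 0
    50000))) (.E 2))) (.S 4 4 (.S 4 3 (.S 5 4 (.S 5 2 (.S 5 1 (.E 2) (.E 9)) (.S 5 3 (.E 9) (.L 2 2
    [6, 8, 9, 10, 12] [60, 50, 40, 30, 0, 0] [62, 58, 48, 38, 28, 0] 100000 87500 87500 500000 0 0
    100000 100000 0 0 50000))) (.E 2)) (.S 5 4 (.S 5 2 (.L 2 2 [6, 8, 9, 10, 12] [64, 60, 50, 40,
    30, 0] [48, 38, 28, 0, 0, 0] 100000 37500 37500 800000 0 0 100000 0 0 50000 50000) (.S 5 3 (.L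
    2 2 [6, 8, 9, 10, 12] [64, 60, 50, 40, 30, 0] [58, 48, 38, 28, 0, 0] 100000 87500 87500 500000
    0 0 100000 100000 0 0 50000) (.E 9))) (.E 2))) (.L 2 2 [6, 8, 9, 10, 12] [66, 64, 60, 50, 40,
    30] [62, 58, 48, 38, 28, 0] 100000 87500 87500 500000 0 0 100000 100000 0 0 50000))) (.E 2))
    (.E 1)) (.E 1))) (.E 1)) (.E 1)

lemma s20_20_4_4_6 : BlkD.treeX d20_20_4_4 (BlkD.exF 4 4 x20_20_4_4) t20_20_4_4_6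
    (BlkD.upd (BlkD.upd (BlkD.upd (fun _ => 0) 0 1) 1 5) 2 2)
    (BlkD.upd (BlkD.upd (BlkD.upd (BlkD.upd (BlkD.upd (BlkD.upd (BlkD.upd (BlkD.upd (BlkD.upd (BlkD.upd (fun _ => 20) 0 4) 2 4) 0 2) 0 1) 1 19) 1 9) 1 7) 1 6) 1 5) 2 2) = true := by
  decide +kernel

lemma n20_20_4_4_6 {n : ℕ} (hn : 5 ≤ n) : BlkD.NdX d20_20_4_4 (BlkD.exF 4 4 x20_20_4_4) n
    (BlkD.upd (BlkD.upd (BlkD.upd (fun _ => 0) 0 1) 1 5) 2 2)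
    (BlkD.upd (BlkD.upd (BlkD.upd (BlkD.upd (BlkD.upd (BlkD.upd (BlkD.upd (BlkD.upd (BlkD.upd (BlkD.upd (fun _ => 20) 0 4) 2 4) 0 2) 0 1) 1 19) 1 9) 1 7) 1 6) 1 5) 2 2) :=
  BlkD.NdX.tree s20_20_4_4_6 ok20_20_4_4 (by decide) hn

/-- a subtree -/
def t20_20_4_4_7 : BlkD.Tr :=
  .S 2 3 (.S 3 11 (.S 3 5 (.S 3 2 (.S 3 1 (.L 2 2 [6, 8, 9, 10, 12] [66, 64, 60, 50, 40, 30] []
    100000 20000 20000 960000 20000 0 40000 0 60000 40000 40000) (.S 4 5 (.S 4 2 (.L 5 5 [4, 4, 4,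
    5, 6] [50, 40, 30, 0, 0, 0] [34, 24, 14, 0, 0, 0] 100000 17857 17856 985715 28571 0 28571 14286
    71429 28571 42857) (.L 5 5 [4, 4, 4, 5, 6] [66, 64, 60, 50, 40, 30] [34, 24, 14, 0, 0, 0]
    100000 12500 12500 1000000 0 0 50000 0 50000 50000 50000)) (.E 2))) (.S 3 4 (.S 3 3 (.S 4 5 (.S
    4 2 (.S 4 1 (.L 5 5 [4, 4, 4, 5, 6] [40, 30, 0, 0, 0, 0] [54, 44, 34, 24, 0, 0] 100000 42000
    42000 788000 100000 0 0 6000 82000 44000 44000) (.S 5 3 (.S 5 1 (.E 2) (.S 5 2 (.E 9) (.E 9)))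
    (.E 2))) (.S 4 4 (.S 4 3 (.S 5 3 (.S 5 1 (.E 2) (.S 5 2 (.E 9) (.E 9))) (.E 2)) (.L 5 5 [4, 4,
    4, 5, 6] [64, 60, 50, 40, 30, 0] [54, 44, 34, 24, 0, 0] 100000 37500 37500 800000 0 0 100000 0
    0 50000 50000)) (.L 5 5 [4, 4, 4, 5, 6] [66, 64, 60, 50, 40, 30] [54, 44, 34, 24, 0, 0] 100000
    111111 0 1 0 0 211111 72222 0 0 11111))) (.E 2)) (.E 1)) (.E 1))) (.E 1)) (.E 1)) (.L 5 5 [4,
    4, 4, 5, 6] [66, 64, 60, 50, 40, 30] [] 100000 12500 12500 1000000 25000 0 25000 0 50000 75000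
    50000)

lemma s20_20_4_4_7 : BlkD.treeX d20_20_4_4 (BlkD.exF 4 4 x20_20_4_4) t20_20_4_4_7
    (BlkD.upd (BlkD.upd (BlkD.upd (fun _ => 0) 0 1) 1 5) 2 3)
    (BlkD.upd (BlkD.upd (BlkD.upd (BlkD.upd (BlkD.upd (BlkD.upd (BlkD.upd (BlkD.upd (BlkD.upd (fun _ => 20) 0 4) 2 4) 0 2) 0 1) 1 19) 1 9) 1 7) 1 6) 1 5) = true := by
  decide +kernel

lemma n20_20_4_4_7 {n : ℕ} (hn : 5 ≤ n) : BlkD.NdX d20_20_4_4 (BlkD.exF 4 4 x20_20_4_4) n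
    (BlkD.upd (BlkD.upd (BlkD.upd (fun _ => 0) 0 1) 1 5) 2 3)
    (BlkD.upd (BlkD.upd (BlkD.upd (BlkD.upd (BlkD.upd (BlkD.upd (BlkD.upd (BlkD.upd (BlkD.upd (fun _ => 20) 0 4) 2 4) 0 2) 0 1) 1 19) 1 9) 1 7) 1 6) 1 5) :=
  BlkD.NdX.tree s20_20_4_4_7 ok20_20_4_4 (by decide) hn

/-- a subtree -/
def t20_20_4_4_8 : BlkD.Tr :=
  .L 5 5 [4, 4, 4, 5, 6] [80, 78, 76, 72, 62, 52] [] 100000 82144 1 260714 0 0 182143 28571 0 0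
    10714

lemma s20_20_4_4_8 : BlkD.treeX d20_20_4_4 (BlkD.exF 4 4 x20_20_4_4) t20_20_4_4_8
    (BlkD.upd (BlkD.upd (BlkD.upd (fun _ => 0) 0 1) 1 5) 1 6)
    (BlkD.upd (BlkD.upd (BlkD.upd (BlkD.upd (BlkD.upd (BlkD.upd (BlkD.upd (BlkD.upd (fun _ => 20) 0 4) 2 4) 0 2) 0 1) 1 19) 1 9) 1 7) 1 6) = true := by
  decide +kernel

lemma n20_20_4_4_8 {n : ℕ} (hn : 5 ≤ n) : BlkD.NdX d20_20_4_4 (BlkD.exF 4 4 x20_20_4_4) n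
    (BlkD.upd (BlkD.upd (BlkD.upd (fun _ => 0) 0 1) 1 5) 1 6)
    (BlkD.upd (BlkD.upd (BlkD.upd (BlkD.upd (BlkD.upd (BlkD.upd (BlkD.upd (BlkD.upd (fun _ => 20) 0 4) 2 4) 0 2) 0 1) 1 19) 1 9) 1 7) 1 6) :=
  BlkD.NdX.tree s20_20_4_4_8 ok20_20_4_4 (by decide) hn

/-- a subtree -/
def t20_20_4_4_9 : BlkD.Tr :=
  .E 0

lemma s20_20_4_4_9 : BlkD.treeX d20_20_4_4 (BlkD.exF 4 4 x20_20_4_4) t20_20_4_4_9
    (BlkD.upd (BlkD.upd (BlkD.upd (fun _ => 0) 0 1) 1 5) 1 7)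
    (BlkD.upd (BlkD.upd (BlkD.upd (BlkD.upd (BlkD.upd (BlkD.upd (BlkD.upd (fun _ => 20) 0 4) 2 4) 0 2) 0 1) 1 19) 1 9) 1 7) = true := by
  decide +kernel

lemma n20_20_4_4_9 {n : ℕ} (hn : 5 ≤ n) : BlkD.NdX d20_20_4_4 (BlkD.exF 4 4 x20_20_4_4) n
    (BlkD.upd (BlkD.upd (BlkD.upd (fun _ => 0) 0 1) 1 5) 1 7)
    (BlkD.upd (BlkD.upd (BlkD.upd (BlkD.upd (BlkD.upd (BlkD.upd (BlkD.upd (fun _ => 20) 0 4) 2 4) 0 2) 0 1) 1 19) 1 9) 1 7) :=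
  BlkD.NdX.tree s20_20_4_4_9 ok20_20_4_4 (by decide) hn

/-- a subtree -/
def t20_20_4_4_10 : BlkD.Tr :=
  .E 0

lemma s20_20_4_4_10 : BlkD.treeX d20_20_4_4 (BlkD.exF 4 4 x20_20_4_4) t20_20_4_4_10
    (BlkD.upd (BlkD.upd (BlkD.upd (fun _ => 0) 0 1) 1 5) 1 8)
    (BlkD.upd (BlkD.upd (BlkD.upd (BlkD.upd (BlkD.upd (BlkD.upd (fun _ => 20) 0 4) 2 4) 0 2) 0 1) 1 19) 1 9) = true := by
  decide +kernel

lemma n20_20_4_4_10 {n : ℕ} (hn : 5 ≤ n) : BlkD.NdX d20_20_4_4 (BlkD.exF 4 4 x20_20_4_4) n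
    (BlkD.upd (BlkD.upd (BlkD.upd (fun _ => 0) 0 1) 1 5) 1 8)
    (BlkD.upd (BlkD.upd (BlkD.upd (BlkD.upd (BlkD.upd (BlkD.upd (fun _ => 20) 0 4) 2 4) 0 2) 0 1) 1 19) 1 9) :=
  BlkD.NdX.tree s20_20_4_4_10 ok20_20_4_4 (by decide) hn

/-- a subtree -/
def t20_20_4_4_11 : BlkD.Tr :=
  .E 0

lemma s20_20_4_4_11 : BlkD.treeX d20_20_4_4 (BlkD.exF 4 4 x20_20_4_4) t20_20_4_4_11
    (BlkD.upd (BlkD.upd (fun _ => 0) 0 1) 1 10)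
    (BlkD.upd (BlkD.upd (BlkD.upd (BlkD.upd (BlkD.upd (fun _ => 20) 0 4) 2 4) 0 2) 0 1) 1 19) = true := by
  decide +kernel

lemma n20_20_4_4_11 {n : ℕ} (hn : 5 ≤ n) : BlkD.NdX d20_20_4_4 (BlkD.exF 4 4 x20_20_4_4) n
    (BlkD.upd (BlkD.upd (fun _ => 0) 0 1) 1 10)
    (BlkD.upd (BlkD.upd (BlkD.upd (BlkD.upd (BlkD.upd (fun _ => 20) 0 4) 2 4) 0 2) 0 1) 1 19) :=
  BlkD.NdX.tree s20_20_4_4_11 ok20_20_4_4 (by decide) hn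

/-- a subtree -/
def t20_20_4_4_12 : BlkD.Tr :=
  .E 0

lemma s20_20_4_4_12 : BlkD.treeX d20_20_4_4 (BlkD.exF 4 4 x20_20_4_4) t20_20_4_4_12
    (BlkD.upd (BlkD.upd (fun _ => 0) 0 1) 1 20)
    (BlkD.upd (BlkD.upd (BlkD.upd (BlkD.upd (fun _ => 20) 0 4) 2 4) 0 2) 0 1) = true := by
  decide +kernel

lemma n20_20_4_4_12 {n : ℕ} (hn : 5 ≤ n) : BlkD.NdX d20_20_4_4 (BlkD.exF 4 4 x20_20_4_4) n
    (BlkD.upd (BlkD.upd (fun _ => 0) 0 1) 1 20)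
    (BlkD.upd (BlkD.upd (BlkD.upd (BlkD.upd (fun _ => 20) 0 4) 2 4) 0 2) 0 1) :=
  BlkD.NdX.tree s20_20_4_4_12 ok20_20_4_4 (by decide) hn

/-- a subtree -/
def t20_20_4_4_13 : BlkD.Tr :=
  .S 1 1 (.L 5 5 [4, 4, 4, 5, 6] [] [] 100000 25000 25000 893336 6667 0 6667 20000 0 26667 30000)
    (.S 2 2 (.S 2 1 (.S 2 0 (.L 5 5 [4, 4, 4, 5, 6] [30, 20, 10, 0, 0, 0] [] 100000 58929 58929
    575714 0 0 24286 100000 0 0 12857) (.S 3 15 (.S 3 7 (.S 3 3 (.L 5 5 [4, 4, 4, 5, 6] [30, 20,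
    10, 0, 0, 0] [] 100000 25000 24998 800000 0 0 0 0 0 0 33333) (.S 3 5 (.S 3 4 (.L 5 5 [4, 4, 4,
    5, 6] [30, 20, 10, 0, 0, 0] [54, 50, 40, 30, 20, 0] 100000 25000 24998 900000 0 0 0 0 0 0
    33333) (.L 5 5 [4, 4, 4, 5, 6] [30, 20, 10, 0, 0, 0] [66, 64, 60, 50, 40, 30] 100000 18750
    18750 975000 12500 0 37500 25000 25000 75000 50000)) (.L 5 5 [4, 4, 4, 5, 6] [30, 20, 10, 0, 0,
    0] [] 100000 111112 1 1 22222 0 22222 211111 0 0 2222))) (.E 1)) (.E 1))) (.S 3 14 (.S 3 7 (.S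
    3 3 (.L 5 5 [4, 4, 4, 5, 6] [30, 20, 10, 0, 0, 0] [] 100000 25000 24998 900000 0 0 0 0 0 0
    33333) (.L 5 5 [4, 4, 4, 5, 6] [30, 20, 10, 0, 0, 0] [] 100000 18750 18750 958334 4167 0 29167
    33333 25000 66667 50000)) (.E 1)) (.E 1))) (.L 5 5 [4, 4, 4, 5, 6] [30, 20, 10, 0, 0, 0] []
    100000 18750 18750 950000 12500 0 37500 25000 25000 75000 50000))

lemma s20_20_4_4_13 : BlkD.treeX d20_20_4_4 (BlkD.exF 4 4 x20_20_4_4) t20_20_4_4_13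
    (BlkD.upd (fun _ => 0) 0 2)
    (BlkD.upd (BlkD.upd (BlkD.upd (BlkD.upd (BlkD.upd (BlkD.upd (BlkD.upd (fun _ => 20) 0 4) 2 4) 0 2) 1 18) 1 9) 1 4) 1 2) = true := by
  decide +kernel

lemma n20_20_4_4_13 {n : ℕ} (hn : 5 ≤ n) : BlkD.NdX d20_20_4_4 (BlkD.exF 4 4 x20_20_4_4) n
    (BlkD.upd (fun _ => 0) 0 2)
    (BlkD.upd (BlkD.upd (BlkD.upd (BlkD.upd (BlkD.upd (BlkD.upd (BlkD.upd (fun _ => 20) 0 4) 2 4) 0 2) 1 18) 1 9) 1 4) 1 2) :=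
  BlkD.NdX.tree s20_20_4_4_13 ok20_20_4_4 (by decide) hn

/-- a subtree -/
def t20_20_4_4_14 : BlkD.Tr :=
  .S 2 1 (.S 2 0 (.L 5 5 [4, 4, 4, 5, 6] [48, 38, 28, 18, 0, 0] [] 100000 50000 50000 600000 0 0 0
    100000 0 0 20000) (.S 3 14 (.S 3 7 (.S 3 3 (.L 5 5 [4, 4, 4, 5, 6] [48, 38, 28, 18, 0, 0] []
    100000 25000 24998 900000 0 0 0 0 0 0 33333) (.S 3 5 (.S 3 4 (.S 4 3 (.S 4 1 (.S 4 0 (.L 5 5
    [4, 4, 4, 5, 6] [18, 0, 0, 0, 0, 0] [54, 50, 40, 30, 20, 0] 100000 21667 21667 913333 3333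
    26667 0 36667 100000 13333 50000) (.S 5 4 (.S 5 2 (.L 5 5 [4, 4, 4, 5, 6] [28, 18, 0, 0, 0, 0]
    [40, 30, 20, 0, 0, 0] 100000 13462 13462 1000000 0 23077 0 23077 46154 46154 38462) (.L 5 5 [4,
    4, 4, 5, 6] [28, 18, 0, 0, 0, 0] [54, 50, 40, 30, 20, 0] 100000 25000 25000 850000 0 0 0 75000
    75000 0 50000)) (.E 2))) (.L 5 5 [4, 4, 4, 5, 6] [48, 38, 28, 18, 0, 0] [54, 50, 40, 30, 20, 0]
    100000 19643 19643 978571 0 0 42857 21429 42857 42857 50000)) (.E 2)) (.S 4 3 (.S 4 1 (.S 4 0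
    (.L 5 5 [4, 4, 4, 5, 6] [18, 0, 0, 0, 0, 0] [66, 64, 60, 50, 40, 30] 100000 4167 4167 1033332 0
    16667 0 16667 83333 83333 50000) (.S 5 5 (.S 5 2 (.L 5 5 [4, 4, 4, 5, 6] [28, 18, 0, 0, 0, 0]
    [50, 40, 30, 0, 0, 0] 100000 20000 20000 940000 0 40000 0 40000 40000 60000 40000) (.L 5 5 [4,
    4, 4, 5, 6] [28, 18, 0, 0, 0, 0] [66, 64, 60, 50, 40, 30] 100000 12500 12500 1000000 0 0 0
    50000 50000 50000 50000)) (.E 2))) (.S 4 2 (.S 5 5 (.S 5 2 (.L 5 5 [4, 4, 4, 5, 6] [38, 28, 18,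
    0, 0, 0] [50, 40, 30, 0, 0, 0] 100000 17857 17856 985715 0 28571 14286 28571 28571 71429 42857)
    (.L 5 5 [4, 4, 4, 5, 6] [38, 28, 18, 0, 0, 0] [66, 64, 60, 50, 40, 30] 100000 12500 12500
    1000000 0 0 0 50000 50000 50000 50000)) (.E 2)) (.L 5 5 [4, 4, 4, 5, 6] [48, 38, 28, 18, 0, 0]
    [66, 64, 60, 50, 40, 30] 100000 30357 30355 907142 0 0 64286 21429 0 64286 50000))) (.E 2)))
    (.L 5 5 [4, 4, 4, 5, 6] [48, 38, 28, 18, 0, 0] [] 100000 111111 0 1 48148 0 48148 211111 11111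
    0 20000))) (.E 1)) (.E 1))) (.S 3 13 (.S 3 6 (.S 3 3 (.S 3 1 (.L 5 5 [4, 4, 4, 5, 6] [48, 38,
    28, 18, 0, 0] [] 100000 25000 24998 800000 0 0 0 0 0 0 33333) (.S 3 2 (.L 5 5 [4, 4, 4, 5, 6]
    [48, 38, 28, 18, 0, 0] [30, 20, 10, 0, 0, 0] 100000 25000 24998 900000 0 0 0 0 0 0 33333) (.S 4
    3 (.S 4 1 (.S 4 0 (.L 5 5 [4, 4, 4, 5, 6] [18, 0, 0, 0, 0, 0] [48, 38, 28, 18, 0, 0] 100000
    17500 17499 946666 10000 16667 0 36667 100000 30000 50000) (.S 5 3 (.S 5 1 (.L 6 6 [4, 4, 4, 5,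
    5] [28, 18, 0, 0, 0, 0] [28, 18, 0, 0, 0, 0] 100000 11364 11363 1027272 0 27273 0 27273 54545
    54545 36364) (.L 6 6 [4, 4, 4, 5, 5] [28, 18, 0, 0, 0, 0] [48, 38, 28, 18, 0, 0] 100000 25000
    25000 925000 0 0 0 75000 75000 0 50000)) (.E 2))) (.L 6 6 [4, 4, 4, 5, 5] [48, 38, 28, 18, 0,
    0] [48, 38, 28, 18, 0, 0] 100000 12500 12500 1000000 0 0 50000 0 50000 50000 50000)) (.E 2))))
    (.S 3 5 (.S 3 4 (.S 4 3 (.S 4 1 (.S 4 0 (.L 6 6 [4, 4, 4, 5, 5] [18, 0, 0, 0, 0, 0] [62, 58,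
    48, 38, 28, 0] 100000 0 0 1050000 0 0 0 25000 100000 100000 50000) (.S 5 4 (.S 5 2 (.S 5 1 (.E
    2) (.E 9)) (.L 6 6 [4, 4, 4, 5, 5] [28, 18, 0, 0, 0, 0] [62, 58, 48, 38, 28, 0] 100000 12500
    12500 1000000 0 0 0 50000 50000 50000 50000)) (.E 2))) (.S 4 2 (.S 5 4 (.S 5 2 (.S 5 1 (.E 2)
    (.E 9)) (.L 6 6 [4, 4, 4, 5, 5] [38, 28, 18, 0, 0, 0] [62, 58, 48, 38, 28, 0] 100000 12500
    12500 1000000 0 0 0 50000 50000 50000 50000)) (.E 2)) (.L 6 6 [4, 4, 4, 5, 5] [48, 38, 28, 18,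
    0, 0] [62, 58, 48, 38, 28, 0] 100000 32500 32500 890000 0 0 60000 30000 0 60000 50000))) (.E
    2)) (.E 1)) (.E 1))) (.E 1)) (.E 1))

lemma s20_20_4_4_14 : BlkD.treeX d20_20_4_4 (BlkD.exF 4 4 x20_20_4_4) t20_20_4_4_14
    (BlkD.upd (BlkD.upd (fun _ => 0) 0 2) 1 3)
    (BlkD.upd (BlkD.upd (BlkD.upd (BlkD.upd (BlkD.upd (BlkD.upd (BlkD.upd (BlkD.upd (fun _ => 20) 0 4) 2 4) 0 2) 1 18) 1 9) 1 4) 1 3) 2 2) = true := by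
  decide +kernel

lemma n20_20_4_4_14 {n : ℕ} (hn : 5 ≤ n) : BlkD.NdX d20_20_4_4 (BlkD.exF 4 4 x20_20_4_4) n
    (BlkD.upd (BlkD.upd (fun _ => 0) 0 2) 1 3)
    (BlkD.upd (BlkD.upd (BlkD.upd (BlkD.upd (BlkD.upd (BlkD.upd (BlkD.upd (BlkD.upd (fun _ => 20) 0 4) 2 4) 0 2) 1 18) 1 9) 1 4) 1 3) 2 2) :=
  BlkD.NdX.tree s20_20_4_4_14 ok20_20_4_4 (by decide) hn

/-- a subtree -/
def t20_20_4_4_15 : BlkD.Tr :=
  .S 2 3 (.S 3 12 (.S 3 6 (.S 3 3 (.S 3 1 (.L 6 6 [4, 4, 4, 5, 5] [48, 38, 28, 18, 0, 0] [] 100000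
    25000 24998 900000 0 0 0 0 0 0 33333) (.S 3 2 (.L 6 6 [4, 4, 4, 5, 5] [48, 38, 28, 18, 0, 0]
    [34, 24, 14, 0, 0, 0] 100000 11364 11364 1027273 0 6818 13636 34091 54545 54545 50000) (.S 4 3
    (.S 4 1 (.S 4 0 (.L 6 6 [4, 4, 4, 5, 5] [18, 0, 0, 0, 0, 0] [54, 44, 34, 24, 0, 0] 100000 0 0
    1050000 0 0 0 25000 100000 100000 50000) (.S 5 3 (.S 5 1 (.E 2) (.S 5 2 (.E 9) (.L 6 6 [4, 4,
    4, 5, 5] [28, 18, 0, 0, 0, 0] [54, 44, 34, 24, 0, 0] 100000 12500 12500 1000000 0 0 0 50000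
    50000 50000 50000))) (.E 2))) (.S 4 2 (.S 5 3 (.S 5 1 (.E 2) (.S 5 2 (.E 9) (.L 6 6 [4, 4, 4,
    5, 5] [38, 28, 18, 0, 0, 0] [54, 44, 34, 24, 0, 0] 100000 12500 12500 1000000 0 0 0 50000 50000
    50000 50000))) (.E 2)) (.L 6 6 [4, 4, 4, 5, 5] [48, 38, 28, 18, 0, 0] [54, 44, 34, 24, 0, 0]
    100000 37500 37500 800000 0 0 100000 0 0 50000 50000))) (.E 2)))) (.E 1)) (.E 1)) (.E 1)) (.L 6
    6 [4, 4, 4, 5, 5] [48, 38, 28, 18, 0, 0] [] 100000 13043 13041 981160 33333 0 33333 0 47826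
    100000 47826)

lemma s20_20_4_4_15 : BlkD.treeX d20_20_4_4 (BlkD.exF 4 4 x20_20_4_4) t20_20_4_4_15
    (BlkD.upd (BlkD.upd (BlkD.upd (fun _ => 0) 0 2) 1 3) 2 3)
    (BlkD.upd (BlkD.upd (BlkD.upd (BlkD.upd (BlkD.upd (BlkD.upd (BlkD.upd (fun _ => 20) 0 4) 2 4) 0 2) 1 18) 1 9) 1 4) 1 3) = true := by
  decide +kernel

lemma n20_20_4_4_15 {n : ℕ} (hn : 5 ≤ n) : BlkD.NdX d20_20_4_4 (BlkD.exF 4 4 x20_20_4_4) n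
    (BlkD.upd (BlkD.upd (BlkD.upd (fun _ => 0) 0 2) 1 3) 2 3)
    (BlkD.upd (BlkD.upd (BlkD.upd (BlkD.upd (BlkD.upd (BlkD.upd (BlkD.upd (fun _ => 20) 0 4) 2 4) 0 2) 1 18) 1 9) 1 4) 1 3) :=
  BlkD.NdX.tree s20_20_4_4_15 ok20_20_4_4 (by decide) hn

/-- a subtree -/
def t20_20_4_4_16 : BlkD.Tr :=
  .S 2 1 (.S 2 0 (.L 6 6 [4, 4, 4, 5, 5] [62, 58, 48, 38, 28, 0] [] 100000 62500 62500 550000 0 0
    50000 100000 0 0 50000) (.S 3 13 (.S 3 6 (.S 3 3 (.L 6 6 [4, 4, 4, 5, 5] [62, 58, 48, 38, 28,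
    0] [] 100000 25001 25001 933335 0 11111 33333 11111 66667 0 28571) (.S 3 5 (.S 3 4 (.S 4 4 (.S
    4 2 (.S 4 1 (.E 2) (.S 5 4 (.S 5 2 (.S 5 1 (.L 6 6 [4, 4, 4, 5, 5] [48, 38, 28, 0, 0, 0] [30,
    20, 0, 0, 0, 0] 100000 13043 13041 997826 0 50000 0 0 100000 47826 47826) (.E 9)) (.L 6 6 [4,
    4, 4, 5, 5] [48, 38, 28, 0, 0, 0] [54, 50, 40, 30, 20, 0] 100000 37500 37500 800000 0 0 0
    100000 50000 0 50000)) (.E 2))) (.S 4 3 (.S 5 4 (.S 5 2 (.L 6 6 [4, 4, 4, 5, 5] [58, 48, 38,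
    28, 0, 0] [40, 30, 20, 0, 0, 0] 100000 12500 12500 1000000 0 0 50000 0 50000 50000 50000) (.L 6
    6 [4, 4, 4, 5, 5] [58, 48, 38, 28, 0, 0] [54, 50, 40, 30, 20, 0] 100000 37500 37500 800000 0 0
    0 100000 50000 0 50000)) (.E 2)) (.L 6 6 [4, 4, 4, 5, 5] [62, 58, 48, 38, 28, 0] [54, 50, 40,
    30, 20, 0] 100000 29167 29167 916665 0 0 66667 16667 33333 33333 50000))) (.E 2)) (.S 4 4 (.S 4
    2 (.S 4 1 (.E 2) (.S 5 5 (.S 5 2 (.S 5 1 (.L 6 6 [4, 4, 4, 5, 5] [48, 38, 28, 0, 0, 0] [40, 30,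
    0, 0, 0, 0] 100000 39130 39128 800000 0 100000 0 0 86957 43478 43478) (.E 9)) (.S 5 4 (.S 5 3
    (.E 9) (.L 6 6 [4, 4, 4, 5, 5] [48, 38, 28, 0, 0, 0] [64, 60, 50, 40, 30, 0] 100000 37500 37500
    800000 0 0 0 100000 50000 0 50000)) (.L 6 6 [4, 4, 4, 5, 5] [48, 38, 28, 0, 0, 0] [66, 64, 60,
    50, 40, 30] 100000 111111 0 1 0 0 72222 211111 0 0 11111))) (.E 2))) (.S 4 3 (.S 5 5 (.S 5 2
    (.S 5 1 (.L 1 1 [10, 12, 14, 16, 16] [58, 48, 38, 28, 0, 0] [40, 30, 0, 0, 0, 0] 100000 75000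
    75000 575000 0 100000 75000 0 25000 50000 50000) (.E 9)) (.S 5 4 (.S 5 3 (.E 9) (.L 1 1 [10,
    12, 14, 16, 16] [58, 48, 38, 28, 0, 0] [64, 60, 50, 40, 30, 0] 100000 87500 87500 500000 0 0
    100000 100000 0 0 50000)) (.L 1 1 [10, 12, 14, 16, 16] [58, 48, 38, 28, 0, 0] [66, 64, 60, 50,
    40, 30] 100000 105264 1 0 0 0 57895 205263 0 0 0))) (.E 2)) (.S 5 5 (.S 5 2 (.L 1 1 [10, 12,
    14, 16, 16] [62, 58, 48, 38, 28, 0] [50, 40, 30, 0, 0, 0] 100000 75000 75000 575000 0 75000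
    100000 0 0 50000 50000) (.S 5 4 (.S 5 3 (.L 1 1 [10, 12, 14, 16, 16] [62, 58, 48, 38, 28, 0]
    [60, 50, 40, 30, 0, 0] 100000 87500 87500 500000 0 0 100000 100000 0 0 50000) (.E 9)) (.L 1 1
    [10, 12, 14, 16, 16] [62, 58, 48, 38, 28, 0] [66, 64, 60, 50, 40, 30] 100000 87500 87500 500000
    0 0 100000 100000 0 0 50000))) (.E 2)))) (.E 2))) (.E 2))) (.E 1)) (.E 1))) (.S 3 12 (.S 3 6
    (.S 3 3 (.S 3 1 (.L 1 1 [10, 12, 14, 16, 16] [62, 58, 48, 38, 28, 0] [] 100000 25001 25001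
    850000 0 0 50000 0 50000 0 28571) (.S 3 2 (.L 1 1 [10, 12, 14, 16, 16] [62, 58, 48, 38, 28, 0]
    [30, 20, 10, 0, 0, 0] 100000 18750 18750 962500 0 0 37500 25000 62500 25000 50000) (.S 4 4 (.S
    4 2 (.S 4 1 (.E 2) (.S 5 3 (.S 5 1 (.S 5 0 (.L 1 1 [10, 12, 14, 16, 16] [48, 38, 28, 0, 0, 0]
    [18, 0, 0, 0, 0, 0] 100000 0 0 1050000 0 0 25000 0 100000 100000 50000) (.E 9)) (.S 5 2 (.E 9)
    (.L 1 1 [10, 12, 14, 16, 16] [48, 38, 28, 0, 0, 0] [48, 38, 28, 18, 0, 0] 100000 37500 37500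
    800000 0 0 0 100000 50000 0 50000))) (.E 2))) (.L 1 1 [10, 12, 14, 16, 16] [62, 58, 48, 38, 28,
    0] [48, 38, 28, 18, 0, 0] 100000 12500 12500 1000000 0 0 50000 0 50000 50000 50000)) (.E 2))))
    (.S 3 5 (.S 3 4 (.S 4 4 (.S 4 2 (.S 4 1 (.E 2) (.S 5 4 (.S 5 2 (.S 5 1 (.E 2) (.E 9)) (.S 5 3
    (.E 9) (.L 1 1 [10, 12, 14, 16, 16] [48, 38, 28, 0, 0, 0] [62, 58, 48, 38, 28, 0] 100000 37500
    37500 800000 0 0 0 100000 50000 0 50000))) (.E 2))) (.S 4 3 (.S 5 4 (.S 5 2 (.S 5 1 (.E 2) (.E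
    9)) (.S 5 3 (.E 9) (.L 1 1 [10, 12, 14, 16, 16] [58, 48, 38, 28, 0, 0] [62, 58, 48, 38, 28, 0]
    100000 87500 87500 500000 0 0 100000 100000 0 0 50000))) (.E 2)) (.S 5 4 (.S 5 2 (.L 1 1 [10,
    12, 14, 16, 16] [62, 58, 48, 38, 28, 0] [48, 38, 28, 0, 0, 0] 100000 37500 37500 800000 0 0
    100000 0 0 50000 50000) (.S 5 3 (.L 1 1 [10, 12, 14, 16, 16] [62, 58, 48, 38, 28, 0] [58, 48,
    38, 28, 0, 0] 100000 87500 87500 500000 0 0 100000 100000 0 0 50000) (.E 9))) (.E 2)))) (.E 2))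
    (.E 1)) (.E 1))) (.E 1)) (.E 1))

lemma s20_20_4_4_16 : BlkD.treeX d20_20_4_4 (BlkD.exF 4 4 x20_20_4_4) t20_20_4_4_16
    (BlkD.upd (BlkD.upd (BlkD.upd (fun _ => 0) 0 2) 1 3) 1 4)
    (BlkD.upd (BlkD.upd (BlkD.upd (BlkD.upd (BlkD.upd (BlkD.upd (BlkD.upd (fun _ => 20) 0 4) 2 4) 0 2) 1 18) 1 9) 1 4) 2 2) = true := by
  decide +kernel

lemma n20_20_4_4_16 {n : ℕ} (hn : 5 ≤ n) : BlkD.NdX d20_20_4_4 (BlkD.exF 4 4 x20_20_4_4) n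
    (BlkD.upd (BlkD.upd (BlkD.upd (fun _ => 0) 0 2) 1 3) 1 4)
    (BlkD.upd (BlkD.upd (BlkD.upd (BlkD.upd (BlkD.upd (BlkD.upd (BlkD.upd (fun _ => 20) 0 4) 2 4) 0 2) 1 18) 1 9) 1 4) 2 2) :=
  BlkD.NdX.tree s20_20_4_4_16 ok20_20_4_4 (by decide) hn

/-- a subtree -/
def t20_20_4_4_17 : BlkD.Tr :=
  .S 2 3 (.S 3 11 (.S 3 5 (.S 3 2 (.S 3 1 (.L 1 1 [10, 12, 14, 16, 16] [62, 58, 48, 38, 28, 0] []
    100000 16667 16667 966668 0 0 33333 33333 66667 33333 33333) (.S 4 4 (.S 4 2 (.S 4 1 (.E 2) (.S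
    5 2 (.S 5 1 (.L 1 1 [10, 12, 14, 16, 16] [48, 38, 28, 0, 0, 0] [24, 14, 0, 0, 0, 0] 100000 0 0
    1050000 0 0 25000 0 100000 100000 50000) (.E 9)) (.E 2))) (.L 1 1 [10, 12, 14, 16, 16] [62, 58,
    48, 38, 28, 0] [34, 24, 14, 0, 0, 0] 100000 12500 12500 1000000 0 0 50000 0 50000 50000 50000))
    (.E 2))) (.S 3 4 (.S 3 3 (.S 4 4 (.S 4 2 (.S 4 1 (.E 2) (.S 5 3 (.S 5 1 (.E 2) (.S 5 2 (.E 9)
    (.E 9))) (.E 2))) (.S 4 3 (.S 5 3 (.S 5 1 (.E 2) (.S 5 2 (.E 9) (.E 9))) (.E 2)) (.L 1 1 [10,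
    12, 14, 16, 16] [62, 58, 48, 38, 28, 0] [54, 44, 34, 24, 0, 0] 100000 37500 37500 800000 0 0
    100000 0 0 50000 50000))) (.E 2)) (.E 1)) (.E 1))) (.E 1)) (.E 1)) (.L 1 1 [10, 12, 14, 16, 16]
    [62, 58, 48, 38, 28, 0] [] 100000 0 0 1050000 0 0 25000 0 100000 100000 50000)

lemma s20_20_4_4_17 : BlkD.treeX d20_20_4_4 (BlkD.exF 4 4 x20_20_4_4) t20_20_4_4_17
    (BlkD.upd (BlkD.upd (BlkD.upd (BlkD.upd (fun _ => 0) 0 2) 1 3) 1 4) 2 3)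
    (BlkD.upd (BlkD.upd (BlkD.upd (BlkD.upd (BlkD.upd (BlkD.upd (fun _ => 20) 0 4) 2 4) 0 2) 1 18) 1 9) 1 4) = true := by
  decide +kernel

lemma n20_20_4_4_17 {n : ℕ} (hn : 5 ≤ n) : BlkD.NdX d20_20_4_4 (BlkD.exF 4 4 x20_20_4_4) n
    (BlkD.upd (BlkD.upd (BlkD.upd (BlkD.upd (fun _ => 0) 0 2) 1 3) 1 4) 2 3)
    (BlkD.upd (BlkD.upd (BlkD.upd (BlkD.upd (BlkD.upd (BlkD.upd (fun _ => 20) 0 4) 2 4) 0 2) 1 18) 1 9) 1 4) :=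
  BlkD.NdX.tree s20_20_4_4_17 ok20_20_4_4 (by decide) hn

/-- a subtree -/
def t20_20_4_4_18 : BlkD.Tr :=
  .E 0

lemma s20_20_4_4_18 : BlkD.treeX d20_20_4_4 (BlkD.exF 4 4 x20_20_4_4) t20_20_4_4_18
    (BlkD.upd (BlkD.upd (fun _ => 0) 0 2) 1 5)
    (BlkD.upd (BlkD.upd (BlkD.upd (BlkD.upd (BlkD.upd (fun _ => 20) 0 4) 2 4) 0 2) 1 18) 1 9) = true := by
  decide +kernel

lemma n20_20_4_4_18 {n : ℕ} (hn : 5 ≤ n) : BlkD.NdX d20_20_4_4 (BlkD.exF 4 4 x20_20_4_4) n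
    (BlkD.upd (BlkD.upd (fun _ => 0) 0 2) 1 5)
    (BlkD.upd (BlkD.upd (BlkD.upd (BlkD.upd (BlkD.upd (fun _ => 20) 0 4) 2 4) 0 2) 1 18) 1 9) :=
  BlkD.NdX.tree s20_20_4_4_18 ok20_20_4_4 (by decide) hn

/-- a subtree -/
def t20_20_4_4_19 : BlkD.Tr :=
  .E 0

lemma s20_20_4_4_19 : BlkD.treeX d20_20_4_4 (BlkD.exF 4 4 x20_20_4_4) t20_20_4_4_19
    (BlkD.upd (BlkD.upd (fun _ => 0) 0 2) 1 10)
    (BlkD.upd (BlkD.upd (BlkD.upd (BlkD.upd (fun _ => 20) 0 4) 2 4) 0 2) 1 18) = true := by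
  decide +kernel

lemma n20_20_4_4_19 {n : ℕ} (hn : 5 ≤ n) : BlkD.NdX d20_20_4_4 (BlkD.exF 4 4 x20_20_4_4) n
    (BlkD.upd (BlkD.upd (fun _ => 0) 0 2) 1 10)
    (BlkD.upd (BlkD.upd (BlkD.upd (BlkD.upd (fun _ => 20) 0 4) 2 4) 0 2) 1 18) :=
  BlkD.NdX.tree s20_20_4_4_19 ok20_20_4_4 (by decide) hn

/-- a subtree -/
def t20_20_4_4_20 : BlkD.Tr :=
  .E 0

lemma s20_20_4_4_20 : BlkD.treeX d20_20_4_4 (BlkD.exF 4 4 x20_20_4_4) t20_20_4_4_20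
    (BlkD.upd (BlkD.upd (fun _ => 0) 0 2) 1 19)
    (BlkD.upd (BlkD.upd (BlkD.upd (fun _ => 20) 0 4) 2 4) 0 2) = true := by
  decide +kernel

lemma n20_20_4_4_20 {n : ℕ} (hn : 5 ≤ n) : BlkD.NdX d20_20_4_4 (BlkD.exF 4 4 x20_20_4_4) n
    (BlkD.upd (BlkD.upd (fun _ => 0) 0 2) 1 19)
    (BlkD.upd (BlkD.upd (BlkD.upd (fun _ => 20) 0 4) 2 4) 0 2) :=
  BlkD.NdX.tree s20_20_4_4_20 ok20_20_4_4 (by decide) hn

/-- a subtree -/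
def t20_20_4_4_21 : BlkD.Tr :=
  .S 1 1 (.S 1 0 (.L 1 1 [10, 12, 14, 16, 16] [0, 0, 0, 0, 0, 0] [] 100000 25000 25000 900000 0 0 0
    20000 0 20000 30000) (.S 2 2 (.S 2 1 (.S 2 0 (.L 1 1 [10, 12, 14, 16, 16] [16, 6, 0, 0, 0, 0]
    [] 100000 50000 50000 600000 0 0 0 100000 0 0 20000) (.S 3 15 (.S 3 7 (.S 3 3 (.L 1 1 [10, 12,
    14, 16, 16] [16, 6, 0, 0, 0, 0] [] 100000 25000 24998 800000 0 0 0 0 0 0 33333) (.L 1 1 [10,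
    12, 14, 16, 16] [16, 6, 0, 0, 0, 0] [] 100000 17857 17856 985715 0 14286 0 42857 42857 57143
    42857)) (.E 1)) (.E 1))) (.S 3 14 (.S 3 7 (.S 3 3 (.L 1 1 [10, 12, 14, 16, 16] [16, 6, 0, 0, 0,
    0] [] 100000 25000 24998 900000 0 0 0 0 0 0 33333) (.L 1 1 [10, 12, 14, 16, 16] [16, 6, 0, 0,
    0, 0] [] 100000 16667 16667 966668 0 0 33333 33333 33333 66667 33333)) (.E 1)) (.E 1))) (.L 1 1
    [10, 12, 14, 16, 16] [16, 6, 0, 0, 0, 0] [] 100000 16667 16667 966667 0 0 33333 33333 33333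
    66667 33333))) (.S 2 2 (.S 2 1 (.S 2 0 (.L 1 1 [10, 12, 14, 16, 16] [34, 24, 14, 0, 0, 0] []
    100000 58929 58929 575714 0 0 24286 100000 0 0 12857) (.S 3 14 (.S 3 7 (.S 3 3 (.L 1 1 [10, 12,
    14, 16, 16] [34, 24, 14, 0, 0, 0] [] 100000 25000 24998 900000 0 0 0 0 0 0 33333) (.S 3 5 (.S 3
    4 (.L 1 1 [10, 12, 14, 16, 16] [34, 24, 14, 0, 0, 0] [54, 50, 40, 30, 20, 0] 100000 19079 19079
    984211 0 7895 31579 23684 63158 31579 50000) (.S 4 2 (.S 4 1 (.L 1 1 [10, 12, 14, 16, 16] [24,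
    14, 0, 0, 0, 0] [66, 64, 60, 50, 40, 30] 100000 12500 12500 1000000 0 25000 0 25000 75000 75000
    50000) (.S 5 5 (.S 5 2 (.L 5 5 [4, 4, 4, 5, 6] [34, 24, 14, 0, 0, 0] [50, 40, 30, 0, 0, 0]
    100000 17857 17856 985715 0 28571 14286 28571 28571 71429 42857) (.L 5 5 [4, 4, 4, 5, 6] [34,
    24, 14, 0, 0, 0] [66, 64, 60, 50, 40, 30] 100000 12500 12500 1000000 0 0 0 50000 50000 50000
    50000)) (.E 2))) (.E 2))) (.L 5 5 [4, 4, 4, 5, 6] [34, 24, 14, 0, 0, 0] [] 100000 111111 0 1 0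
    0 72222 211111 0 0 11111))) (.E 1)) (.E 1))) (.S 3 13 (.S 3 6 (.S 3 3 (.S 3 1 (.L 5 5 [4, 4, 4,
    5, 6] [34, 24, 14, 0, 0, 0] [] 100000 25000 24998 800000 0 0 0 0 0 0 33333) (.L 5 5 [4, 4, 4,
    5, 6] [34, 24, 14, 0, 0, 0] [] 100000 12500 12500 1021429 7143 0 35714 14286 57143 50000
    50000)) (.S 3 5 (.S 3 4 (.S 4 2 (.S 4 1 (.L 5 5 [4, 4, 4, 5, 6] [24, 14, 0, 0, 0, 0] [62, 58,
    48, 38, 28, 0] 100000 0 0 1050000 0 0 0 25000 100000 100000 50000) (.S 5 4 (.S 5 2 (.S 5 1 (.E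
    2) (.E 9)) (.L 5 5 [4, 4, 4, 5, 6] [34, 24, 14, 0, 0, 0] [62, 58, 48, 38, 28, 0] 100000 12500
    12500 1000000 0 0 0 50000 50000 50000 50000)) (.E 2))) (.E 2)) (.E 1)) (.E 1))) (.E 1)) (.E
    1))) (.S 2 3 (.S 3 12 (.S 3 6 (.S 3 3 (.S 3 1 (.L 5 5 [4, 4, 4, 5, 6] [34, 24, 14, 0, 0, 0] []
    100000 16667 16667 933334 0 0 33333 33333 66667 33333 33333) (.S 3 2 (.L 5 5 [4, 4, 4, 5, 6]
    [34, 24, 14, 0, 0, 0] [34, 24, 14, 0, 0, 0] 100000 12500 12500 1000000 0 0 25000 25000 50000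
    50000 50000) (.S 4 2 (.S 4 1 (.L 5 5 [4, 4, 4, 5, 6] [24, 14, 0, 0, 0, 0] [54, 44, 34, 24, 0,
    0] 100000 0 0 1050000 0 0 0 25000 100000 100000 50000) (.S 5 3 (.S 5 1 (.E 2) (.S 5 2 (.E 9)
    (.L 5 5 [4, 4, 4, 5, 6] [34, 24, 14, 0, 0, 0] [54, 44, 34, 24, 0, 0] 100000 12500 12500 1000000
    0 0 0 50000 50000 50000 50000))) (.E 2))) (.E 2)))) (.E 1)) (.E 1)) (.E 1)) (.L 5 5 [4, 4, 4,
    5, 6] [34, 24, 14, 0, 0, 0] [] 100000 8333 8331 983333 16667 0 41667 0 66667 66667 50000)))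

lemma s20_20_4_4_21 : BlkD.treeX d20_20_4_4 (BlkD.exF 4 4 x20_20_4_4) t20_20_4_4_21
    (BlkD.upd (fun _ => 0) 0 3)
    (BlkD.upd (BlkD.upd (BlkD.upd (BlkD.upd (BlkD.upd (BlkD.upd (BlkD.upd (fun _ => 20) 0 4) 2 4) 0 3) 1 17) 1 8) 1 4) 1 2) = true := by
  decide +kernel

lemma n20_20_4_4_21 {n : ℕ} (hn : 5 ≤ n) : BlkD.NdX d20_20_4_4 (BlkD.exF 4 4 x20_20_4_4) n
    (BlkD.upd (fun _ => 0) 0 3)
    (BlkD.upd (BlkD.upd (BlkD.upd (BlkD.upd (BlkD.upd (BlkD.upd (BlkD.upd (fun _ => 20) 0 4) 2 4) 0 3) 1 17) 1 8) 1 4) 1 2) :=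
  BlkD.NdX.tree s20_20_4_4_21 ok20_20_4_4 (by decide) hn

end BlkC

end Pool.Agent.Lib.MP_f04ccf_co
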