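import Pool.Agent.Lib.MP_f04ccf_co.M.BlkX20_20_4_4d

/-!
MP_f04ccf_co, block certificate with exceptions, `R = 20`, `H = 20`, the pair `(4, 4)` (data of helper99 / helper13,
generated by helper8, genx.py): part 2 of 2.
-/

set_option autoImplicit false
set_option maxRecDepth 100000

namespace Pool.Agent.Lib.MP_f04ccf_co

namespace BlkC

/-- a subtree -/
def t20_20_4_4_22 : BlkD.Tr :=
  .S 1 3 (.S 2 2 (.S 2 1 (.S 2 0 (.L 5 5 [4, 4, 4, 5, 6] [54, 44, 34, 24, 0, 0] [] 100000 54167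
    54167 583333 0 0 16667 100000 0 0 16667) (.S 3 13 (.S 3 6 (.S 3 3 (.L 5 5 [4, 4, 4, 5, 6] [54,
    44, 34, 24, 0, 0] [] 100000 25000 25000 920000 0 20000 20000 20000 80000 0 31429) (.S 3 5 (.S 3
    4 (.S 4 3 (.S 4 1 (.E 2) (.S 4 2 (.S 5 4 (.S 5 2 (.S 5 1 (.L 5 5 [4, 4, 4, 5, 6] [44, 34, 24,
    0, 0, 0] [30, 20, 0, 0, 0, 0] 100000 13043 13041 997826 0 50000 0 0 100000 47826 47826) (.E 9))
    (.L 5 5 [4, 4, 4, 5, 6] [44, 34, 24, 0, 0, 0] [54, 50, 40, 30, 20, 0] 100000 37500 37500 800000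
    0 0 0 100000 50000 0 50000)) (.E 2)) (.S 5 4 (.S 5 2 (.L 5 5 [4, 4, 4, 5, 6] [54, 44, 34, 24,
    0, 0] [40, 30, 20, 0, 0, 0] 100000 12500 12500 1000000 0 0 50000 0 50000 50000 50000) (.L 5 5
    [4, 4, 4, 5, 6] [54, 44, 34, 24, 0, 0] [54, 50, 40, 30, 20, 0] 100000 37500 37500 800000 0 0 0
    100000 50000 0 50000)) (.E 2)))) (.E 2)) (.S 4 3 (.S 4 1 (.E 2) (.S 4 2 (.S 5 5 (.S 5 2 (.S 5 1
    (.L 5 5 [4, 4, 4, 5, 6] [44, 34, 24, 0, 0, 0] [40, 30, 0, 0, 0, 0] 100000 39130 39128 800000 0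
    100000 0 0 86957 43478 43478) (.E 9)) (.S 5 4 (.S 5 3 (.E 9) (.L 5 5 [4, 4, 4, 5, 6] [44, 34,
    24, 0, 0, 0] [64, 60, 50, 40, 30, 0] 100000 37500 37500 800000 0 0 0 100000 50000 0 50000)) (.L
    5 5 [4, 4, 4, 5, 6] [44, 34, 24, 0, 0, 0] [66, 64, 60, 50, 40, 30] 100000 111111 0 1 0 0 72222
    211111 0 0 11111))) (.E 2)) (.S 5 5 (.S 5 2 (.S 5 1 (.L 5 5 [4, 4, 4, 5, 6] [54, 44, 34, 24, 0,
    0] [40, 30, 0, 0, 0, 0] 100000 87500 87500 500000 0 100000 100000 0 0 50000 50000) (.E 9)) (.S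
    5 4 (.S 5 3 (.E 9) (.L 5 5 [4, 4, 4, 5, 6] [54, 44, 34, 24, 0, 0] [64, 60, 50, 40, 30, 0]
    100000 87500 87500 500000 0 0 100000 100000 0 0 50000)) (.L 5 5 [4, 4, 4, 5, 6] [54, 44, 34,
    24, 0, 0] [66, 64, 60, 50, 40, 30] 100000 105264 1 0 0 0 57895 205263 0 0 0))) (.E 2)))) (.E
    2))) (.E 2))) (.E 1)) (.E 1))) (.S 3 12 (.S 3 6 (.S 3 3 (.S 3 1 (.L 5 5 [4, 4, 4, 5, 6] [54,
    44, 34, 24, 0, 0] [] 100000 25001 25001 850000 0 0 50000 0 50000 0 28571) (.S 3 2 (.L 5 5 [4,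
    4, 4, 5, 6] [54, 44, 34, 24, 0, 0] [30, 20, 10, 0, 0, 0] 100000 20000 20000 940000 0 20000
    20000 40000 80000 20000 40000) (.S 4 3 (.S 4 1 (.E 2) (.S 4 2 (.S 5 3 (.S 5 1 (.S 5 0 (.L 5 5
    [4, 4, 4, 5, 6] [44, 34, 24, 0, 0, 0] [18, 0, 0, 0, 0, 0] 100000 0 0 1050000 0 0 25000 0 100000
    100000 50000) (.E 9)) (.S 5 2 (.E 9) (.L 5 5 [4, 4, 4, 5, 6] [44, 34, 24, 0, 0, 0] [48, 38, 28,
    18, 0, 0] 100000 37500 37500 800000 0 0 0 100000 50000 0 50000))) (.E 2)) (.L 5 5 [4, 4, 4, 5,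
    6] [54, 44, 34, 24, 0, 0] [48, 38, 28, 18, 0, 0] 100000 12500 12500 1000000 0 0 50000 0 50000
    50000 50000))) (.E 2)))) (.S 3 5 (.S 3 4 (.S 4 3 (.S 4 1 (.E 2) (.S 4 2 (.S 5 4 (.S 5 2 (.S 5 1
    (.E 2) (.E 9)) (.S 5 3 (.E 9) (.L 5 5 [4, 4, 4, 5, 6] [44, 34, 24, 0, 0, 0] [62, 58, 48, 38,
    28, 0] 100000 37500 37500 800000 0 0 0 100000 50000 0 50000))) (.E 2)) (.S 5 4 (.S 5 2 (.S 5 1
    (.E 2) (.E 9)) (.S 5 3 (.E 9) (.L 5 5 [4, 4, 4, 5, 6] [54, 44, 34, 24, 0, 0] [62, 58, 48, 38,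
    28, 0] 100000 87500 87500 500000 0 0 100000 100000 0 0 50000))) (.E 2)))) (.E 2)) (.E 1)) (.E
    1))) (.E 1)) (.E 1))) (.S 2 3 (.S 3 11 (.S 3 5 (.S 3 2 (.S 3 1 (.L 5 5 [4, 4, 4, 5, 6] [54, 44,
    34, 24, 0, 0] [] 100000 18750 18750 950000 0 25000 25000 50000 75000 25000 32143) (.S 4 3 (.S 4
    1 (.E 2) (.S 4 2 (.S 5 2 (.S 5 1 (.L 5 5 [4, 4, 4, 5, 6] [44, 34, 24, 0, 0, 0] [24, 14, 0, 0,
    0, 0] 100000 0 0 1050000 0 0 25000 0 100000 100000 50000) (.E 9)) (.E 2)) (.L 5 5 [4, 4, 4, 5,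
    6] [54, 44, 34, 24, 0, 0] [34, 24, 14, 0, 0, 0] 100000 12500 12500 1000000 0 0 50000 0 50000
    50000 50000))) (.E 2))) (.S 3 4 (.S 3 3 (.S 4 3 (.S 4 1 (.E 2) (.S 4 2 (.S 5 3 (.S 5 1 (.E 2)
    (.S 5 2 (.E 9) (.E 9))) (.E 2)) (.S 5 3 (.S 5 1 (.E 2) (.S 5 2 (.E 9) (.E 9))) (.E 2)))) (.E
    2)) (.E 1)) (.E 1))) (.E 1)) (.E 1)) (.L 5 5 [4, 4, 4, 5, 6] [54, 44, 34, 24, 0, 0] [] 100000 0
    0 1050000 0 0 25000 0 100000 100000 50000))) (.E 0)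

lemma s20_20_4_4_22 : BlkD.treeX d20_20_4_4 (BlkD.exF 4 4 x20_20_4_4) t20_20_4_4_22
    (BlkD.upd (BlkD.upd (fun _ => 0) 0 3) 1 3)
    (BlkD.upd (BlkD.upd (BlkD.upd (BlkD.upd (BlkD.upd (BlkD.upd (fun _ => 20) 0 4) 2 4) 0 3) 1 17) 1 8) 1 4) = true := by
  decide +kernel

lemma n20_20_4_4_22 {n : ℕ} (hn : 5 ≤ n) : BlkD.NdX d20_20_4_4 (BlkD.exF 4 4 x20_20_4_4) n
    (BlkD.upd (BlkD.upd (fun _ => 0) 0 3) 1 3)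
    (BlkD.upd (BlkD.upd (BlkD.upd (BlkD.upd (BlkD.upd (BlkD.upd (fun _ => 20) 0 4) 2 4) 0 3) 1 17) 1 8) 1 4) :=
  BlkD.NdX.tree s20_20_4_4_22 ok20_20_4_4 (by decide) hn

/-- a subtree -/
def t20_20_4_4_23 : BlkD.Tr :=
  .E 0

lemma s20_20_4_4_23 : BlkD.treeX d20_20_4_4 (BlkD.exF 4 4 x20_20_4_4) t20_20_4_4_23
    (BlkD.upd (BlkD.upd (fun _ => 0) 0 3) 1 5)
    (BlkD.upd (BlkD.upd (BlkD.upd (BlkD.upd (BlkD.upd (fun _ => 20) 0 4) 2 4) 0 3) 1 17) 1 8) = true := by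
  decide +kernel

lemma n20_20_4_4_23 {n : ℕ} (hn : 5 ≤ n) : BlkD.NdX d20_20_4_4 (BlkD.exF 4 4 x20_20_4_4) n
    (BlkD.upd (BlkD.upd (fun _ => 0) 0 3) 1 5)
    (BlkD.upd (BlkD.upd (BlkD.upd (BlkD.upd (BlkD.upd (fun _ => 20) 0 4) 2 4) 0 3) 1 17) 1 8) :=
  BlkD.NdX.tree s20_20_4_4_23 ok20_20_4_4 (by decide) hn

/-- a subtree -/
def t20_20_4_4_24 : BlkD.Tr :=
  .E 0

lemma s20_20_4_4_24 : BlkD.treeX d20_20_4_4 (BlkD.exF 4 4 x20_20_4_4) t20_20_4_4_24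
    (BlkD.upd (BlkD.upd (fun _ => 0) 0 3) 1 9)
    (BlkD.upd (BlkD.upd (BlkD.upd (BlkD.upd (fun _ => 20) 0 4) 2 4) 0 3) 1 17) = true := by
  decide +kernel

lemma n20_20_4_4_24 {n : ℕ} (hn : 5 ≤ n) : BlkD.NdX d20_20_4_4 (BlkD.exF 4 4 x20_20_4_4) n
    (BlkD.upd (BlkD.upd (fun _ => 0) 0 3) 1 9)
    (BlkD.upd (BlkD.upd (BlkD.upd (BlkD.upd (fun _ => 20) 0 4) 2 4) 0 3) 1 17) :=
  BlkD.NdX.tree s20_20_4_4_24 ok20_20_4_4 (by decide) hn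

/-- a subtree -/
def t20_20_4_4_25 : BlkD.Tr :=
  .E 0

lemma s20_20_4_4_25 : BlkD.treeX d20_20_4_4 (BlkD.exF 4 4 x20_20_4_4) t20_20_4_4_25
    (BlkD.upd (BlkD.upd (fun _ => 0) 0 3) 1 18)
    (BlkD.upd (BlkD.upd (BlkD.upd (fun _ => 20) 0 4) 2 4) 0 3) = true := by
  decide +kernel

lemma n20_20_4_4_25 {n : ℕ} (hn : 5 ≤ n) : BlkD.NdX d20_20_4_4 (BlkD.exF 4 4 x20_20_4_4) n
    (BlkD.upd (BlkD.upd (fun _ => 0) 0 3) 1 18)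
    (BlkD.upd (BlkD.upd (BlkD.upd (fun _ => 20) 0 4) 2 4) 0 3) :=
  BlkD.NdX.tree s20_20_4_4_25 ok20_20_4_4 (by decide) hn

/-- a subtree -/
def t20_20_4_4_26 : BlkD.Tr :=
  .S 1 16 (.S 1 8 (.S 1 4 (.S 1 2 (.S 1 1 (.S 1 0 (.S 2 2 (.S 2 1 (.L 5 5 [4, 4, 4, 5, 6] [0, 0, 0,
    0, 0, 0] [] 100000 20147 20147 935296 0 32353 0 32941 97647 19412 50000) (.L 5 5 [4, 4, 4, 5,
    6] [0, 0, 0, 0, 0, 0] [] 100000 18056 18055 950002 0 0 0 50000 50000 27778 28571)) (.L 5 5 [4,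
    4, 4, 5, 6] [0, 0, 0, 0, 0, 0] [] 100000 12500 12500 950000 0 0 0 50000 50000 50000 50000)) (.S
    2 2 (.S 2 1 (.L 5 5 [4, 4, 4, 5, 6] [18, 8, 0, 0, 0, 0] [] 100000 20192 20191 969233 0 32692 0
    32692 98077 19231 50000) (.L 5 5 [4, 4, 4, 5, 6] [18, 8, 0, 0, 0, 0] [] 100000 17445 17444
    990112 0 3297 3297 51648 68132 30220 50000)) (.L 5 5 [4, 4, 4, 5, 6] [18, 8, 0, 0, 0, 0] []
    100000 6250 6250 1025000 0 0 0 37500 75000 75000 50000))) (.E 0)) (.E 0)) (.E 0)) (.E 0)) (.E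
    0)

lemma s20_20_4_4_26 : BlkD.treeX d20_20_4_4 (BlkD.exF 4 4 x20_20_4_4) t20_20_4_4_26
    (BlkD.upd (BlkD.upd (fun _ => 0) 0 3) 0 4)
    (BlkD.upd (BlkD.upd (fun _ => 20) 0 4) 2 4) = true := by
  decide +kernel

lemma n20_20_4_4_26 {n : ℕ} (hn : 5 ≤ n) : BlkD.NdX d20_20_4_4 (BlkD.exF 4 4 x20_20_4_4) n
    (BlkD.upd (BlkD.upd (fun _ => 0) 0 3) 0 4)
    (BlkD.upd (BlkD.upd (fun _ => 20) 0 4) 2 4) :=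
  BlkD.NdX.tree s20_20_4_4_26 ok20_20_4_4 (by decide) hn

/-- a subtree -/
def t20_20_4_4_27 : BlkD.Tr :=
  .E 1

lemma s20_20_4_4_27 : BlkD.treeX d20_20_4_4 (BlkD.exF 4 4 x20_20_4_4) t20_20_4_4_27
    (BlkD.upd (fun _ => 0) 2 5)
    (BlkD.upd (fun _ => 20) 0 4) = true := by
  decide +kernel

lemma n20_20_4_4_27 {n : ℕ} (hn : 5 ≤ n) : BlkD.NdX d20_20_4_4 (BlkD.exF 4 4 x20_20_4_4) n
    (BlkD.upd (fun _ => 0) 2 5)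
    (BlkD.upd (fun _ => 20) 0 4) :=
  BlkD.NdX.tree s20_20_4_4_27 ok20_20_4_4 (by decide) hn

/-- a subtree -/
def t20_20_4_4_28 : BlkD.Tr :=
  .E 0

lemma s20_20_4_4_28 : BlkD.treeX d20_20_4_4 (BlkD.exF 4 4 x20_20_4_4) t20_20_4_4_28
    (BlkD.upd (fun _ => 0) 0 5)
    (fun _ => 20) = true := by
  decide +kernel

lemma n20_20_4_4_28 {n : ℕ} (hn : 5 ≤ n) : BlkD.NdX d20_20_4_4 (BlkD.exF 4 4 x20_20_4_4) n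
    (BlkD.upd (fun _ => 0) 0 5)
    (fun _ => 20) :=
  BlkD.NdX.tree s20_20_4_4_28 ok20_20_4_4 (by decide) hn

end BlkC

end Pool.Agent.Lib.MP_f04ccf_co
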