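import Pool.Agent.Lib.MP_f04ccf_co.M.EnPx

/-!
MP_f04ccf_co, block certificate with exceptions, `R = 20`, `H = 21`, the pair `(11, 1)` (data of helper99 / helper13,
generated by helper8, genx.py): the numbers.
-/

set_option autoImplicit false
set_option maxRecDepth 100000

namespace Pool.Agent.Lib.MP_f04ccf_co

namespace BlkC

/-- the numbers of the pair `(11, 1)`, `R = 20`, `H = 21` -/
def d20_21_11_1 : BlkD.Pd :=
  ⟨20, 21, 4, 11, 1, 6, 1, 1, 0, 4, 8, 0, 0, 4, 4, 0, [0, 8, 16, 24, 24, 24, 24], [0, 4, 8, 12, 16,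
    20, 24], [⟨1, 1, 1, 4, 8, [0, 4], [0, 4]⟩, ⟨1, 1, 1, 4, 12, [0, 8], [0, 4]⟩]⟩

/-- the exceptions of the pair `(11, 1)` -/
def x20_21_11_1 : List (ℕ × ℕ × ℕ × ℕ) :=
  [(21, 13, 0, 0)]

lemma ok20_21_11_1 : BlkD.pairOk d20_21_11_1 = true := by decide +kernel

end BlkC

end Pool.Agent.Lib.MP_f04ccf_co
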