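import Pool.Agent.Lib.MP_f04ccf_co.M.BlkX20_21_5_5d

/-!
MP_f04ccf_co, block certificate with exceptions, `R = 20`, `H = 21`, the pair `(5, 5)` (data of helper99 / helper13,
generated by helper8, genx.py): part 2 of 2.
-/

set_option autoImplicit false
set_option maxRecDepth 100000

namespace Pool.Agent.Lib.MP_f04ccf_co

namespace BlkC

/-- a subtree -/
def t20_21_5_5_19 : BlkD.Tr :=
  .S 1 3 (.S 2 2 (.S 2 1 (.L 6 6 [4, 4, 4, 5, 5, 20] [62, 52, 42, 30, 0, 0] [] 100000 75000 75000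
    900000 0 100000 50000 100000 50000 0 0) (.S 3 12 (.S 3 6 (.S 3 3 (.L 6 6 [4, 4, 4, 5, 5, 20]
    [62, 52, 42, 30, 0, 0] [] 100000 23958 23957 1166669 0 16667 52083 62500 35417 4167 25000) (.S
    3 5 (.S 3 4 (.L 2 2 [6, 8, 10, 11, 13, 20] [62, 52, 42, 30, 0, 0] [70, 60, 50, 40, 28, 0]
    100000 48214 48213 1100002 0 50000 28571 92857 46429 7143 25000) (.S 4 3 (.S 4 1 (.L 6 6 [4, 4,
    4, 5, 5, 20] [42, 30, 0, 0, 0, 0] [92, 82, 72, 62, 52, 40] 100000 64546 64546 958182 0 87273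
    5455 90000 90000 5455 2727) (.L 4 4 [4, 5, 6, 7, 8, 20] [62, 52, 42, 30, 0, 0] [92, 82, 72, 62,
    52, 40] 100000 37618 37618 1146083 0 28213 56426 70533 56426 19749 5956)) (.E 2))) (.L 4 4 [4,
    5, 6, 7, 8, 20] [62, 52, 42, 30, 0, 0] [108, 106, 96, 86, 76, 66] 100000 63637 63637 1000000 0
    50000 50000 100000 45455 0 2273))) (.E 2)) (.E 1))) (.S 2 4 (.S 2 3 (.S 3 11 (.S 3 5 (.S 3 2
    (.L 4 4 [4, 5, 6, 7, 8, 20] [62, 52, 42, 30, 0, 0] [] 100000 22059 22059 1200002 0 5882 44118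
    82353 47059 11765 17647) (.S 3 4 (.S 3 3 (.S 4 3 (.S 4 1 (.L 6 6 [4, 4, 4, 5, 5, 20] [42, 30,
    0, 0, 0, 0] [56, 46, 36, 24, 0, 0] 100000 19828 19828 1200002 0 33333 20690 67816 58621 20690
    34483) (.S 4 2 (.S 5 3 (.S 5 1 (.L 6 6 [4, 4, 4, 5, 5, 20] [52, 42, 30, 0, 0, 0] [36, 24, 0, 0,
    0, 0] 100000 8654 8653 1213461 17308 1923 67308 17308 65385 65385 23077) (.L 6 6 [4, 4, 4, 5,
    5, 20] [52, 42, 30, 0, 0, 0] [56, 46, 36, 24, 0, 0] 100000 25000 25000 1100000 0 0 0 100000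
    40000 0 20000)) (.E 2)) (.L 6 6 [4, 4, 4, 5, 5, 20] [62, 52, 42, 30, 0, 0] [56, 46, 36, 24, 0,
    0] 100000 39286 39286 1092858 0 7143 100000 53571 0 10714 21429))) (.E 2)) (.S 4 3 (.S 4 1 (.L
    6 6 [4, 4, 4, 5, 5, 20] [42, 30, 0, 0, 0, 0] [78, 68, 58, 48, 36, 0] 100000 31819 31819 1159091
    0 50000 22727 68182 68182 36364 22727) (.L 6 6 [4, 4, 4, 5, 5, 20] [62, 52, 42, 30, 0, 0] [78,
    68, 58, 48, 36, 0] 100000 33334 33334 1144444 0 0 100000 55556 11111 22222 11111)) (.E 2))) (.L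
    6 6 [4, 4, 4, 5, 5, 20] [62, 52, 42, 30, 0, 0] [102, 92, 82, 72, 62, 50] 100000 31251 31251
    1141666 2778 0 52778 100000 50000 0 8333))) (.E 2)) (.E 1)) (.S 3 10 (.S 3 5 (.S 3 2 (.L 6 6
    [4, 4, 4, 5, 5, 20] [62, 52, 42, 30, 0, 0] [] 100000 21875 21875 1200000 0 25000 50000 75000
    50000 12500 18750) (.S 3 4 (.S 3 3 (.S 4 3 (.S 4 1 (.L 8 8 [5, 5, 4, 3, 4, 20] [42, 30, 0, 0,
    0, 0] [62, 52, 42, 30, 0, 0] 100000 28125 28125 1175000 12500 50000 25000 75000 50000 25000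
    25000) (.L 8 8 [5, 5, 4, 3, 4, 20] [62, 52, 42, 30, 0, 0] [62, 52, 42, 30, 0, 0] 100000 20931
    20931 1179070 0 0 88372 44186 34884 55814 9302)) (.E 2)) (.L 8 8 [5, 5, 4, 3, 4, 20] [62, 52,
    42, 30, 0, 0] [86, 76, 66, 56, 44, 0] 100000 125000 25000 300000 0 0 200000 200000 0 0 0)) (.E
    1))) (.E 1)) (.E 1))) (.L 8 8 [5, 5, 4, 3, 4, 20] [62, 52, 42, 30, 0, 0] [] 100000 9375 9374
    1235417 33333 0 64583 16667 62500 62500 20833))) (.L 8 8 [5, 5, 4, 3, 4, 20] [86, 76, 66, 56,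
    44, 0] [] 100000 40625 40625 1125000 0 0 100000 75000 6250 12500 6250)

lemma s20_21_5_5_19 : BlkD.treeX d20_21_5_5 (BlkD.exF 5 5 x20_21_5_5) t20_21_5_5_19
    (BlkD.upd (BlkD.upd (BlkD.upd (fun _ => 0) 0 3) 0 4) 1 3)
    (BlkD.upd (BlkD.upd (BlkD.upd (BlkD.upd (BlkD.upd (BlkD.upd (fun _ => 21) 0 5) 2 5) 0 4) 1 17) 1 8) 1 4) = true := by
  decide +kernel

lemma n20_21_5_5_19 {n : ℕ} (hn : 6 ≤ n) : BlkD.NdX d20_21_5_5 (BlkD.exF 5 5 x20_21_5_5) n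
    (BlkD.upd (BlkD.upd (BlkD.upd (fun _ => 0) 0 3) 0 4) 1 3)
    (BlkD.upd (BlkD.upd (BlkD.upd (BlkD.upd (BlkD.upd (BlkD.upd (fun _ => 21) 0 5) 2 5) 0 4) 1 17) 1 8) 1 4) :=
  BlkD.NdX.tree s20_21_5_5_19 ok20_21_5_5 (by decide) hn

/-- a subtree -/
def t20_21_5_5_20 : BlkD.Tr :=
  .E 0

lemma s20_21_5_5_20 : BlkD.treeX d20_21_5_5 (BlkD.exF 5 5 x20_21_5_5) t20_21_5_5_20
    (BlkD.upd (BlkD.upd (BlkD.upd (fun _ => 0) 0 3) 0 4) 1 5)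
    (BlkD.upd (BlkD.upd (BlkD.upd (BlkD.upd (BlkD.upd (fun _ => 21) 0 5) 2 5) 0 4) 1 17) 1 8) = true := by
  decide +kernel

lemma n20_21_5_5_20 {n : ℕ} (hn : 6 ≤ n) : BlkD.NdX d20_21_5_5 (BlkD.exF 5 5 x20_21_5_5) n
    (BlkD.upd (BlkD.upd (BlkD.upd (fun _ => 0) 0 3) 0 4) 1 5)
    (BlkD.upd (BlkD.upd (BlkD.upd (BlkD.upd (BlkD.upd (fun _ => 21) 0 5) 2 5) 0 4) 1 17) 1 8) :=
  BlkD.NdX.tree s20_21_5_5_20 ok20_21_5_5 (by decide) hn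

/-- a subtree -/
def t20_21_5_5_21 : BlkD.Tr :=
  .E 0

lemma s20_21_5_5_21 : BlkD.treeX d20_21_5_5 (BlkD.exF 5 5 x20_21_5_5) t20_21_5_5_21
    (BlkD.upd (BlkD.upd (BlkD.upd (fun _ => 0) 0 3) 0 4) 1 9)
    (BlkD.upd (BlkD.upd (BlkD.upd (BlkD.upd (fun _ => 21) 0 5) 2 5) 0 4) 1 17) = true := by
  decide +kernel

lemma n20_21_5_5_21 {n : ℕ} (hn : 6 ≤ n) : BlkD.NdX d20_21_5_5 (BlkD.exF 5 5 x20_21_5_5) n
    (BlkD.upd (BlkD.upd (BlkD.upd (fun _ => 0) 0 3) 0 4) 1 9)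
    (BlkD.upd (BlkD.upd (BlkD.upd (BlkD.upd (fun _ => 21) 0 5) 2 5) 0 4) 1 17) :=
  BlkD.NdX.tree s20_21_5_5_21 ok20_21_5_5 (by decide) hn

/-- a subtree -/
def t20_21_5_5_22 : BlkD.Tr :=
  .E 0

lemma s20_21_5_5_22 : BlkD.treeX d20_21_5_5 (BlkD.exF 5 5 x20_21_5_5) t20_21_5_5_22
    (BlkD.upd (BlkD.upd (BlkD.upd (fun _ => 0) 0 3) 0 4) 1 18)
    (BlkD.upd (BlkD.upd (BlkD.upd (fun _ => 21) 0 5) 2 5) 0 4) = true := by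
  decide +kernel

lemma n20_21_5_5_22 {n : ℕ} (hn : 6 ≤ n) : BlkD.NdX d20_21_5_5 (BlkD.exF 5 5 x20_21_5_5) n
    (BlkD.upd (BlkD.upd (BlkD.upd (fun _ => 0) 0 3) 0 4) 1 18)
    (BlkD.upd (BlkD.upd (BlkD.upd (fun _ => 21) 0 5) 2 5) 0 4) :=
  BlkD.NdX.tree s20_21_5_5_22 ok20_21_5_5 (by decide) hn

/-- a subtree -/
def t20_21_5_5_23 : BlkD.Tr :=
  .S 1 16 (.S 1 8 (.S 1 4 (.S 1 2 (.S 1 1 (.S 1 0 (.L 8 8 [5, 5, 4, 3, 4, 20] [0, 0, 0, 0, 0, 0] []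
    100000 19608 19608 1201963 0 9804 0 49020 31373 21569 15686) (.S 2 2 (.L 8 8 [5, 5, 4, 3, 4,
    20] [22, 10, 0, 0, 0, 0] [] 100000 20423 20423 1197748 0 34085 0 56056 66761 18310 16620) (.L 6
    6 [4, 4, 4, 5, 5, 20] [22, 10, 0, 0, 0, 0] [] 100000 18915 18915 1194737 19079 5263 29605 75658
    57895 24342 21053))) (.S 2 2 (.S 2 1 (.L 6 6 [4, 4, 4, 5, 5, 20] [44, 34, 22, 0, 0, 0] []
    100000 66667 66667 800000 0 100000 0 100000 50000 0 0) (.S 3 12 (.S 3 6 (.S 3 3 (.L 6 6 [4, 4,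
    4, 5, 5, 20] [44, 34, 22, 0, 0, 0] [] 100000 55000 55000 960000 0 80000 0 80000 40000 0 20000)
    (.S 3 5 (.L 6 6 [4, 4, 4, 5, 5, 20] [44, 34, 22, 0, 0, 0] [] 100000 25000 25000 1194120 0 41176
    0 47059 88235 11765 29412) (.L 6 6 [4, 4, 4, 5, 5, 20] [44, 34, 22, 0, 0, 0] [108, 106, 96, 86,
    76, 66] 100000 125000 125000 700000 0 100000 100000 100000 0 0 0))) (.E 2)) (.E 1))) (.S 2 4
    (.S 2 3 (.S 3 11 (.S 3 5 (.S 3 2 (.L 6 6 [4, 4, 4, 5, 5, 20] [44, 34, 22, 0, 0, 0] [] 100000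
    23040 23040 1125490 0 37255 7843 92157 66667 7843 33333) (.L 6 6 [4, 4, 4, 5, 5, 20] [44, 34,
    22, 0, 0, 0] [] 100000 19737 19736 1215791 0 15789 36842 63158 47368 21053 15789)) (.E 2)) (.E
    1)) (.L 6 6 [4, 4, 4, 5, 5, 20] [44, 34, 22, 0, 0, 0] [] 100000 21875 21875 1200000 0 0 78125
    43750 21875 12500 21875)) (.L 6 6 [4, 4, 4, 5, 5, 20] [44, 34, 22, 0, 0, 0] [] 100000 29167
    29167 1100000 0 0 100000 50000 0 50000 8333)))) (.E 0)) (.E 0)) (.E 0)) (.E 0)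

lemma s20_21_5_5_23 : BlkD.treeX d20_21_5_5 (BlkD.exF 5 5 x20_21_5_5) t20_21_5_5_23
    (BlkD.upd (BlkD.upd (fun _ => 0) 0 3) 0 5)
    (BlkD.upd (BlkD.upd (fun _ => 21) 0 5) 2 5) = true := by
  decide +kernel

lemma n20_21_5_5_23 {n : ℕ} (hn : 6 ≤ n) : BlkD.NdX d20_21_5_5 (BlkD.exF 5 5 x20_21_5_5) n
    (BlkD.upd (BlkD.upd (fun _ => 0) 0 3) 0 5)
    (BlkD.upd (BlkD.upd (fun _ => 21) 0 5) 2 5) :=
  BlkD.NdX.tree s20_21_5_5_23 ok20_21_5_5 (by decide) hn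

/-- a subtree -/
def t20_21_5_5_24 : BlkD.Tr :=
  .E 1

lemma s20_21_5_5_24 : BlkD.treeX d20_21_5_5 (BlkD.exF 5 5 x20_21_5_5) t20_21_5_5_24
    (BlkD.upd (fun _ => 0) 2 6)
    (BlkD.upd (fun _ => 21) 0 5) = true := by
  decide +kernel

lemma n20_21_5_5_24 {n : ℕ} (hn : 6 ≤ n) : BlkD.NdX d20_21_5_5 (BlkD.exF 5 5 x20_21_5_5) n
    (BlkD.upd (fun _ => 0) 2 6)
    (BlkD.upd (fun _ => 21) 0 5) :=
  BlkD.NdX.tree s20_21_5_5_24 ok20_21_5_5 (by decide) hn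

/-- a subtree -/
def t20_21_5_5_25 : BlkD.Tr :=
  .E 0

lemma s20_21_5_5_25 : BlkD.treeX d20_21_5_5 (BlkD.exF 5 5 x20_21_5_5) t20_21_5_5_25
    (BlkD.upd (fun _ => 0) 0 6)
    (fun _ => 21) = true := by
  decide +kernel

lemma n20_21_5_5_25 {n : ℕ} (hn : 6 ≤ n) : BlkD.NdX d20_21_5_5 (BlkD.exF 5 5 x20_21_5_5) n
    (BlkD.upd (fun _ => 0) 0 6)
    (fun _ => 21) :=
  BlkD.NdX.tree s20_21_5_5_25 ok20_21_5_5 (by decide) hn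

end BlkC

end Pool.Agent.Lib.MP_f04ccf_co
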