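import Pool.Agent.Lib.MP_f04ccf_co.M.EnPw

/-!
MP_f04ccf_co, block certificate with exceptions, `R = 21`, `H = 21`, the pair `(6, 6)` (data of helper99 / helper13,
generated by helper8, genx.py): the numbers.
-/

set_option autoImplicit false
set_option maxRecDepth 100000

namespace Pool.Agent.Lib.MP_f04ccf_co

namespace BlkC

/-- the numbers of the pair `(6, 6)`, `R = 21`, `H = 21` -/
def d21_21_6_6 : BlkD.Pd :=
  ⟨21, 21, 3, 6, 6, 6, 3, 3, 1, 3, 10, 0, 1, 3, 10, 0, [0, 10, 20, 21, 22, 23, 24], [0, 10, 20, 21,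
    22, 23, 24], [⟨1, 1, 1, 4, 8, [0, 4], [0, 4]⟩, ⟨1, 1, 1, 4, 12, [0, 6], [0, 6]⟩, ⟨1, 1, 1, 4,
    16, [0, 8], [0, 8]⟩, ⟨2, 2, 1, 4, 28, [0, 10, 14], [0, 10, 14]⟩]⟩

/-- the exceptions of the pair `(6, 6)` -/
def x21_21_6_6 : List (ℕ × ℕ × ℕ × ℕ) :=
  []

lemma ok21_21_6_6 : BlkD.pairOk d21_21_6_6 = true := by decide +kernel

end BlkC

end Pool.Agent.Lib.MP_f04ccf_co
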