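import Pool.Agent.Lib.MP_f04ccf_co.M.BlkX22_22_4_4d

/-!
MP_f04ccf_co, block certificate with exceptions, `R = 22`, `H = 22`, the pair `(4, 4)` (data of helper99 / helper13,
generated by helper8, genx.py): the exceptions, part 1 of 3.
-/

set_option autoImplicit false
set_option maxRecDepth 100000

namespace Pool.Agent.Lib.MP_f04ccf_co

namespace BlkC

lemma e22_22_4_4_5_0 : EnPr.lall (fun l => EnPr.one 22 5 (6, 3, 6, 3) (4 :: 4 :: l))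
    (EnPr.prof (5 - 2) 4 (22 - (5 + 1) - 4 - 4)) = true := by
  decide +kernel

lemma e22_22_4_4_5_1 : EnPr.lall (fun l => EnPr.one 22 5 (6, 4, 6, 3) (4 :: 4 :: l))
    (EnPr.prof (5 - 2) 4 (22 - (5 + 1) - 4 - 4)) = true := by
  decide +kernel

lemma e22_22_4_4_5_2 : EnPr.lall (fun l => EnPr.one 22 5 (6, 4, 6, 4) (4 :: 4 :: l))
    (EnPr.prof (5 - 2) 4 (22 - (5 + 1) - 4 - 4)) = true := by
  decide +kernel

lemma e22_22_4_4_5_3 : EnPr.lall (fun l => EnPr.one 22 5 (6, 5, 6, 3) (4 :: 4 :: l))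
    (EnPr.prof (5 - 2) 4 (22 - (5 + 1) - 4 - 4)) = true := by
  decide +kernel

lemma e22_22_4_4_5_4 : EnPr.lall (fun l => EnPr.one 22 5 (6, 5, 6, 4) (4 :: 4 :: l))
    (EnPr.prof (5 - 2) 4 (22 - (5 + 1) - 4 - 4)) = true := by
  decide +kernel

lemma e22_22_4_4_5_5 : EnPr.lall (fun l => EnPr.one 22 5 (6, 5, 6, 5) (4 :: 4 :: l))
    (EnPr.prof (5 - 2) 4 (22 - (5 + 1) - 4 - 4)) = true := by
  decide +kernel

lemma g22_22_4_4_6_0_0 : EnPr.one 22 6 (6, 3, 6, 3) [4, 4, 0, 0, 0, 0] = true := by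
  decide +kernel

lemma g22_22_4_4_6_0_1 : EnPr.one 22 6 (6, 3, 6, 3) [4, 4, 1, 0, 0, 0] = true := by
  decide +kernel

lemma g22_22_4_4_6_0_2 : EnPr.one 22 6 (6, 3, 6, 3) [4, 4, 1, 1, 0, 0] = true := by
  decide +kernel

lemma g22_22_4_4_6_0_3 : EnPr.one 22 6 (6, 3, 6, 3) [4, 4, 1, 1, 1, 0] = true := by
  decide +kernel

lemma g22_22_4_4_6_0_4 : EnPr.one 22 6 (6, 3, 6, 3) [4, 4, 1, 1, 1, 1] = true := by
  decide +kernel

lemma g22_22_4_4_6_0_5 : EnPr.one 22 6 (6, 3, 6, 3) [4, 4, 2, 0, 0, 0] = true := by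
  decide +kernel

lemma g22_22_4_4_6_0_6 : EnPr.one 22 6 (6, 3, 6, 3) [4, 4, 2, 1, 0, 0] = true := by
  decide +kernel

lemma g22_22_4_4_6_0_7 : EnPr.one 22 6 (6, 3, 6, 3) [4, 4, 2, 1, 1, 0] = true := by
  decide +kernel

lemma g22_22_4_4_6_0_8 : EnPr.one 22 6 (6, 3, 6, 3) [4, 4, 2, 1, 1, 1] = true := by
  decide +kernel

lemma g22_22_4_4_6_0_9 : EnPr.one 22 6 (6, 3, 6, 3) [4, 4, 2, 2, 0, 0] = true := by
  decide +kernel

lemma g22_22_4_4_6_0_10 : EnPr.one 22 6 (6, 3, 6, 3) [4, 4, 2, 2, 1, 0] = true := by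
  decide +kernel

lemma g22_22_4_4_6_0_11 : EnPr.one 22 6 (6, 3, 6, 3) [4, 4, 2, 2, 1, 1] = true := by
  decide +kernel

lemma g22_22_4_4_6_0_12 : EnPr.one 22 6 (6, 3, 6, 3) [4, 4, 2, 2, 2, 0] = true := by
  decide +kernel

lemma g22_22_4_4_6_0_13 : EnPr.one 22 6 (6, 3, 6, 3) [4, 4, 2, 2, 2, 1] = true := by
  decide +kernel

lemma g22_22_4_4_6_0_14 : EnPr.one 22 6 (6, 3, 6, 3) [4, 4, 3, 0, 0, 0] = true := by
  decide +kernel

lemma g22_22_4_4_6_0_15 : EnPr.one 22 6 (6, 3, 6, 3) [4, 4, 3, 1, 0, 0] = true := by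
  decide +kernel

lemma g22_22_4_4_6_0_16 : EnPr.one 22 6 (6, 3, 6, 3) [4, 4, 3, 1, 1, 0] = true := by
  decide +kernel

lemma g22_22_4_4_6_0_17 : EnPr.one 22 6 (6, 3, 6, 3) [4, 4, 3, 1, 1, 1] = true := by
  decide +kernel

lemma g22_22_4_4_6_0_18 : EnPr.one 22 6 (6, 3, 6, 3) [4, 4, 3, 2, 0, 0] = true := by
  decide +kernel

lemma g22_22_4_4_6_0_19 : EnPr.one 22 6 (6, 3, 6, 3) [4, 4, 3, 2, 1, 0] = true := by
  decide +kernel

lemma g22_22_4_4_6_0_20 : EnPr.one 22 6 (6, 3, 6, 3) [4, 4, 3, 2, 1, 1] = true := by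
  decide +kernel

lemma g22_22_4_4_6_0_21 : EnPr.one 22 6 (6, 3, 6, 3) [4, 4, 3, 2, 2, 0] = true := by
  decide +kernel

lemma g22_22_4_4_6_0_22 : EnPr.one 22 6 (6, 3, 6, 3) [4, 4, 3, 3, 0, 0] = true := by
  decide +kernel

lemma g22_22_4_4_6_0_23 : EnPr.one 22 6 (6, 3, 6, 3) [4, 4, 3, 3, 1, 0] = true := by
  decide +kernel

lemma g22_22_4_4_6_0_24 : EnPr.one 22 6 (6, 3, 6, 3) [4, 4, 4, 0, 0, 0] = true := by
  decide +kernel

lemma g22_22_4_4_6_0_25 : EnPr.one 22 6 (6, 3, 6, 3) [4, 4, 4, 1, 0, 0] = true := by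
  decide +kernel

lemma g22_22_4_4_6_0_26 : EnPr.one 22 6 (6, 3, 6, 3) [4, 4, 4, 1, 1, 0] = true := by
  decide +kernel

lemma g22_22_4_4_6_0_27 : EnPr.one 22 6 (6, 3, 6, 3) [4, 4, 4, 1, 1, 1] = true := by
  decide +kernel

lemma g22_22_4_4_6_0_28 : EnPr.one 22 6 (6, 3, 6, 3) [4, 4, 4, 2, 0, 0] = true := by
  decide +kernel

lemma g22_22_4_4_6_0_29 : EnPr.one 22 6 (6, 3, 6, 3) [4, 4, 4, 2, 1, 0] = true := by
  decide +kernel

lemma g22_22_4_4_6_0_30 : EnPr.one 22 6 (6, 3, 6, 3) [4, 4, 4, 3, 0, 0] = true := by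
  decide +kernel

lemma e22_22_4_4_6_0 : EnPr.lall (fun l => EnPr.one 22 6 (6, 3, 6, 3) (4 :: 4 :: l))
    (EnPr.prof (6 - 2) 4 (22 - (6 + 1) - 4 - 4)) = true := by
  rw [EnPr.lall_iff]
  intro l hl
  rw [show EnPr.prof (6 - 2) 4 (22 - (6 + 1) - 4 - 4) =
      [[0, 0, 0, 0],
      [1, 0, 0, 0],
      [1, 1, 0, 0],
      [1, 1, 1, 0],
      [1, 1, 1, 1],
      [2, 0, 0, 0],
      [2, 1, 0, 0],
      [2, 1, 1, 0],
      [2, 1, 1, 1],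
      [2, 2, 0, 0],
      [2, 2, 1, 0],
      [2, 2, 1, 1],
      [2, 2, 2, 0],
      [2, 2, 2, 1],
      [3, 0, 0, 0],
      [3, 1, 0, 0],
      [3, 1, 1, 0],
      [3, 1, 1, 1],
      [3, 2, 0, 0],
      [3, 2, 1, 0],
      [3, 2, 1, 1],
      [3, 2, 2, 0],
      [3, 3, 0, 0],
      [3, 3, 1, 0],
      [4, 0, 0, 0],
      [4, 1, 0, 0],
      [4, 1, 1, 0],
      [4, 1, 1, 1],
      [4, 2, 0, 0],
      [4, 2, 1, 0],
      [4, 3, 0, 0]] by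
    decide +kernel] at hl
  simp only [List.mem_cons, List.not_mem_nil, or_false] at hl
  rcases hl with rfl | rfl | rfl | rfl | rfl | rfl | rfl | rfl | rfl | rfl | rfl | rfl | rfl | rfl | rfl | rfl | rfl | rfl | rfl | rfl | rfl | rfl | rfl | rfl | rfl | rfl | rfl | rfl | rfl | rfl | rfl
  · exact g22_22_4_4_6_0_0
  · exact g22_22_4_4_6_0_1
  · exact g22_22_4_4_6_0_2
  · exact g22_22_4_4_6_0_3
  · exact g22_22_4_4_6_0_4
  · exact g22_22_4_4_6_0_5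
  · exact g22_22_4_4_6_0_6
  · exact g22_22_4_4_6_0_7
  · exact g22_22_4_4_6_0_8
  · exact g22_22_4_4_6_0_9
  · exact g22_22_4_4_6_0_10
  · exact g22_22_4_4_6_0_11
  · exact g22_22_4_4_6_0_12
  · exact g22_22_4_4_6_0_13
  · exact g22_22_4_4_6_0_14
  · exact g22_22_4_4_6_0_15
  · exact g22_22_4_4_6_0_16
  · exact g22_22_4_4_6_0_17
  · exact g22_22_4_4_6_0_18
  · exact g22_22_4_4_6_0_19
  · exact g22_22_4_4_6_0_20
  · exact g22_22_4_4_6_0_21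
  · exact g22_22_4_4_6_0_22
  · exact g22_22_4_4_6_0_23
  · exact g22_22_4_4_6_0_24
  · exact g22_22_4_4_6_0_25
  · exact g22_22_4_4_6_0_26
  · exact g22_22_4_4_6_0_27
  · exact g22_22_4_4_6_0_28
  · exact g22_22_4_4_6_0_29
  · exact g22_22_4_4_6_0_30

lemma g22_22_4_4_6_1_0 : EnPr.one 22 6 (6, 4, 6, 3) [4, 4, 0, 0, 0, 0] = true := by
  decide +kernel

lemma g22_22_4_4_6_1_1 : EnPr.one 22 6 (6, 4, 6, 3) [4, 4, 1, 0, 0, 0] = true := by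
  decide +kernel

lemma g22_22_4_4_6_1_2 : EnPr.one 22 6 (6, 4, 6, 3) [4, 4, 1, 1, 0, 0] = true := by
  decide +kernel

lemma g22_22_4_4_6_1_3 : EnPr.one 22 6 (6, 4, 6, 3) [4, 4, 1, 1, 1, 0] = true := by
  decide +kernel

lemma g22_22_4_4_6_1_4 : EnPr.one 22 6 (6, 4, 6, 3) [4, 4, 1, 1, 1, 1] = true := by
  decide +kernel

lemma g22_22_4_4_6_1_5 : EnPr.one 22 6 (6, 4, 6, 3) [4, 4, 2, 0, 0, 0] = true := by
  decide +kernel

lemma g22_22_4_4_6_1_6 : EnPr.one 22 6 (6, 4, 6, 3) [4, 4, 2, 1, 0, 0] = true := by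
  decide +kernel

lemma g22_22_4_4_6_1_7 : EnPr.one 22 6 (6, 4, 6, 3) [4, 4, 2, 1, 1, 0] = true := by
  decide +kernel

lemma g22_22_4_4_6_1_8 : EnPr.one 22 6 (6, 4, 6, 3) [4, 4, 2, 1, 1, 1] = true := by
  decide +kernel

lemma g22_22_4_4_6_1_9 : EnPr.one 22 6 (6, 4, 6, 3) [4, 4, 2, 2, 0, 0] = true := by
  decide +kernel

lemma g22_22_4_4_6_1_10 : EnPr.one 22 6 (6, 4, 6, 3) [4, 4, 2, 2, 1, 0] = true := by
  decide +kernel

lemma g22_22_4_4_6_1_11 : EnPr.one 22 6 (6, 4, 6, 3) [4, 4, 2, 2, 1, 1] = true := by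
  decide +kernel

lemma g22_22_4_4_6_1_12 : EnPr.one 22 6 (6, 4, 6, 3) [4, 4, 2, 2, 2, 0] = true := by
  decide +kernel

lemma g22_22_4_4_6_1_13 : EnPr.one 22 6 (6, 4, 6, 3) [4, 4, 2, 2, 2, 1] = true := by
  decide +kernel

lemma g22_22_4_4_6_1_14 : EnPr.one 22 6 (6, 4, 6, 3) [4, 4, 3, 0, 0, 0] = true := by
  decide +kernel

lemma g22_22_4_4_6_1_15 : EnPr.one 22 6 (6, 4, 6, 3) [4, 4, 3, 1, 0, 0] = true := by
  decide +kernel

lemma g22_22_4_4_6_1_16 : EnPr.one 22 6 (6, 4, 6, 3) [4, 4, 3, 1, 1, 0] = true := by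
  decide +kernel

lemma g22_22_4_4_6_1_17 : EnPr.one 22 6 (6, 4, 6, 3) [4, 4, 3, 1, 1, 1] = true := by
  decide +kernel

lemma g22_22_4_4_6_1_18 : EnPr.one 22 6 (6, 4, 6, 3) [4, 4, 3, 2, 0, 0] = true := by
  decide +kernel

lemma g22_22_4_4_6_1_19 : EnPr.one 22 6 (6, 4, 6, 3) [4, 4, 3, 2, 1, 0] = true := by
  decide +kernel

lemma g22_22_4_4_6_1_20 : EnPr.one 22 6 (6, 4, 6, 3) [4, 4, 3, 2, 1, 1] = true := by
  decide +kernel

lemma g22_22_4_4_6_1_21 : EnPr.one 22 6 (6, 4, 6, 3) [4, 4, 3, 2, 2, 0] = true := by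
  decide +kernel

lemma g22_22_4_4_6_1_22 : EnPr.one 22 6 (6, 4, 6, 3) [4, 4, 3, 3, 0, 0] = true := by
  decide +kernel

lemma g22_22_4_4_6_1_23 : EnPr.one 22 6 (6, 4, 6, 3) [4, 4, 3, 3, 1, 0] = true := by
  decide +kernel

lemma g22_22_4_4_6_1_24 : EnPr.one 22 6 (6, 4, 6, 3) [4, 4, 4, 0, 0, 0] = true := by
  decide +kernel

lemma g22_22_4_4_6_1_25 : EnPr.one 22 6 (6, 4, 6, 3) [4, 4, 4, 1, 0, 0] = true := by
  decide +kernel

lemma g22_22_4_4_6_1_26 : EnPr.one 22 6 (6, 4, 6, 3) [4, 4, 4, 1, 1, 0] = true := by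
  decide +kernel

lemma g22_22_4_4_6_1_27 : EnPr.one 22 6 (6, 4, 6, 3) [4, 4, 4, 1, 1, 1] = true := by
  decide +kernel

lemma g22_22_4_4_6_1_28 : EnPr.one 22 6 (6, 4, 6, 3) [4, 4, 4, 2, 0, 0] = true := by
  decide +kernel

lemma g22_22_4_4_6_1_29 : EnPr.one 22 6 (6, 4, 6, 3) [4, 4, 4, 2, 1, 0] = true := by
  decide +kernel

lemma g22_22_4_4_6_1_30 : EnPr.one 22 6 (6, 4, 6, 3) [4, 4, 4, 3, 0, 0] = true := by
  decide +kernel

lemma e22_22_4_4_6_1 : EnPr.lall (fun l => EnPr.one 22 6 (6, 4, 6, 3) (4 :: 4 :: l))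
    (EnPr.prof (6 - 2) 4 (22 - (6 + 1) - 4 - 4)) = true := by
  rw [EnPr.lall_iff]
  intro l hl
  rw [show EnPr.prof (6 - 2) 4 (22 - (6 + 1) - 4 - 4) =
      [[0, 0, 0, 0],
      [1, 0, 0, 0],
      [1, 1, 0, 0],
      [1, 1, 1, 0],
      [1, 1, 1, 1],
      [2, 0, 0, 0],
      [2, 1, 0, 0],
      [2, 1, 1, 0],
      [2, 1, 1, 1],
      [2, 2, 0, 0],
      [2, 2, 1, 0],
      [2, 2, 1, 1],
      [2, 2, 2, 0],
      [2, 2, 2, 1],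
      [3, 0, 0, 0],
      [3, 1, 0, 0],
      [3, 1, 1, 0],
      [3, 1, 1, 1],
      [3, 2, 0, 0],
      [3, 2, 1, 0],
      [3, 2, 1, 1],
      [3, 2, 2, 0],
      [3, 3, 0, 0],
      [3, 3, 1, 0],
      [4, 0, 0, 0],
      [4, 1, 0, 0],
      [4, 1, 1, 0],
      [4, 1, 1, 1],
      [4, 2, 0, 0],
      [4, 2, 1, 0],
      [4, 3, 0, 0]] by
    decide +kernel] at hl
  simp only [List.mem_cons, List.not_mem_nil, or_false] at hl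
  rcases hl with rfl | rfl | rfl | rfl | rfl | rfl | rfl | rfl | rfl | rfl | rfl | rfl | rfl | rfl | rfl | rfl | rfl | rfl | rfl | rfl | rfl | rfl | rfl | rfl | rfl | rfl | rfl | rfl | rfl | rfl | rfl
  · exact g22_22_4_4_6_1_0
  · exact g22_22_4_4_6_1_1
  · exact g22_22_4_4_6_1_2
  · exact g22_22_4_4_6_1_3
  · exact g22_22_4_4_6_1_4
  · exact g22_22_4_4_6_1_5
  · exact g22_22_4_4_6_1_6
  · exact g22_22_4_4_6_1_7
  · exact g22_22_4_4_6_1_8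
  · exact g22_22_4_4_6_1_9
  · exact g22_22_4_4_6_1_10
  · exact g22_22_4_4_6_1_11
  · exact g22_22_4_4_6_1_12
  · exact g22_22_4_4_6_1_13
  · exact g22_22_4_4_6_1_14
  · exact g22_22_4_4_6_1_15
  · exact g22_22_4_4_6_1_16
  · exact g22_22_4_4_6_1_17
  · exact g22_22_4_4_6_1_18
  · exact g22_22_4_4_6_1_19
  · exact g22_22_4_4_6_1_20
  · exact g22_22_4_4_6_1_21
  · exact g22_22_4_4_6_1_22
  · exact g22_22_4_4_6_1_23
  · exact g22_22_4_4_6_1_24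
  · exact g22_22_4_4_6_1_25
  · exact g22_22_4_4_6_1_26
  · exact g22_22_4_4_6_1_27
  · exact g22_22_4_4_6_1_28
  · exact g22_22_4_4_6_1_29
  · exact g22_22_4_4_6_1_30

lemma g22_22_4_4_6_2_0 : EnPr.one 22 6 (6, 4, 6, 4) [4, 4, 0, 0, 0, 0] = true := by
  decide +kernel

lemma g22_22_4_4_6_2_1 : EnPr.one 22 6 (6, 4, 6, 4) [4, 4, 1, 0, 0, 0] = true := by
  decide +kernel

lemma g22_22_4_4_6_2_2 : EnPr.one 22 6 (6, 4, 6, 4) [4, 4, 1, 1, 0, 0] = true := by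
  decide +kernel

lemma g22_22_4_4_6_2_3 : EnPr.one 22 6 (6, 4, 6, 4) [4, 4, 1, 1, 1, 0] = true := by
  decide +kernel

lemma g22_22_4_4_6_2_4 : EnPr.one 22 6 (6, 4, 6, 4) [4, 4, 1, 1, 1, 1] = true := by
  decide +kernel

lemma g22_22_4_4_6_2_5 : EnPr.one 22 6 (6, 4, 6, 4) [4, 4, 2, 0, 0, 0] = true := by
  decide +kernel

lemma g22_22_4_4_6_2_6 : EnPr.one 22 6 (6, 4, 6, 4) [4, 4, 2, 1, 0, 0] = true := by
  decide +kernel

lemma g22_22_4_4_6_2_7 : EnPr.one 22 6 (6, 4, 6, 4) [4, 4, 2, 1, 1, 0] = true := by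
  decide +kernel

lemma g22_22_4_4_6_2_8 : EnPr.one 22 6 (6, 4, 6, 4) [4, 4, 2, 1, 1, 1] = true := by
  decide +kernel

lemma g22_22_4_4_6_2_9 : EnPr.one 22 6 (6, 4, 6, 4) [4, 4, 2, 2, 0, 0] = true := by
  decide +kernel

lemma g22_22_4_4_6_2_10 : EnPr.one 22 6 (6, 4, 6, 4) [4, 4, 2, 2, 1, 0] = true := by
  decide +kernel

lemma g22_22_4_4_6_2_11 : EnPr.one 22 6 (6, 4, 6, 4) [4, 4, 2, 2, 1, 1] = true := by
  decide +kernel

lemma g22_22_4_4_6_2_12 : EnPr.one 22 6 (6, 4, 6, 4) [4, 4, 2, 2, 2, 0] = true := by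
  decide +kernel

lemma g22_22_4_4_6_2_13 : EnPr.one 22 6 (6, 4, 6, 4) [4, 4, 2, 2, 2, 1] = true := by
  decide +kernel

lemma g22_22_4_4_6_2_14 : EnPr.one 22 6 (6, 4, 6, 4) [4, 4, 3, 0, 0, 0] = true := by
  decide +kernel

lemma g22_22_4_4_6_2_15 : EnPr.one 22 6 (6, 4, 6, 4) [4, 4, 3, 1, 0, 0] = true := by
  decide +kernel

lemma g22_22_4_4_6_2_16 : EnPr.one 22 6 (6, 4, 6, 4) [4, 4, 3, 1, 1, 0] = true := by
  decide +kernel

lemma g22_22_4_4_6_2_17 : EnPr.one 22 6 (6, 4, 6, 4) [4, 4, 3, 1, 1, 1] = true := by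
  decide +kernel

lemma g22_22_4_4_6_2_18 : EnPr.one 22 6 (6, 4, 6, 4) [4, 4, 3, 2, 0, 0] = true := by
  decide +kernel

lemma g22_22_4_4_6_2_19 : EnPr.one 22 6 (6, 4, 6, 4) [4, 4, 3, 2, 1, 0] = true := by
  decide +kernel

lemma g22_22_4_4_6_2_20 : EnPr.one 22 6 (6, 4, 6, 4) [4, 4, 3, 2, 1, 1] = true := by
  decide +kernel

lemma g22_22_4_4_6_2_21 : EnPr.one 22 6 (6, 4, 6, 4) [4, 4, 3, 2, 2, 0] = true := by
  decide +kernel

lemma g22_22_4_4_6_2_22 : EnPr.one 22 6 (6, 4, 6, 4) [4, 4, 3, 3, 0, 0] = true := by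
  decide +kernel

lemma g22_22_4_4_6_2_23 : EnPr.one 22 6 (6, 4, 6, 4) [4, 4, 3, 3, 1, 0] = true := by
  decide +kernel

lemma g22_22_4_4_6_2_24 : EnPr.one 22 6 (6, 4, 6, 4) [4, 4, 4, 0, 0, 0] = true := by
  decide +kernel

lemma g22_22_4_4_6_2_25 : EnPr.one 22 6 (6, 4, 6, 4) [4, 4, 4, 1, 0, 0] = true := by
  decide +kernel

lemma g22_22_4_4_6_2_26 : EnPr.one 22 6 (6, 4, 6, 4) [4, 4, 4, 1, 1, 0] = true := by
  decide +kernel

lemma g22_22_4_4_6_2_27 : EnPr.one 22 6 (6, 4, 6, 4) [4, 4, 4, 1, 1, 1] = true := by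
  decide +kernel

lemma g22_22_4_4_6_2_28 : EnPr.one 22 6 (6, 4, 6, 4) [4, 4, 4, 2, 0, 0] = true := by
  decide +kernel

lemma g22_22_4_4_6_2_29 : EnPr.one 22 6 (6, 4, 6, 4) [4, 4, 4, 2, 1, 0] = true := by
  decide +kernel

lemma g22_22_4_4_6_2_30 : EnPr.one 22 6 (6, 4, 6, 4) [4, 4, 4, 3, 0, 0] = true := by
  decide +kernel

lemma e22_22_4_4_6_2 : EnPr.lall (fun l => EnPr.one 22 6 (6, 4, 6, 4) (4 :: 4 :: l))
    (EnPr.prof (6 - 2) 4 (22 - (6 + 1) - 4 - 4)) = true := by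
  rw [EnPr.lall_iff]
  intro l hl
  rw [show EnPr.prof (6 - 2) 4 (22 - (6 + 1) - 4 - 4) =
      [[0, 0, 0, 0],
      [1, 0, 0, 0],
      [1, 1, 0, 0],
      [1, 1, 1, 0],
      [1, 1, 1, 1],
      [2, 0, 0, 0],
      [2, 1, 0, 0],
      [2, 1, 1, 0],
      [2, 1, 1, 1],
      [2, 2, 0, 0],
      [2, 2, 1, 0],
      [2, 2, 1, 1],
      [2, 2, 2, 0],
      [2, 2, 2, 1],
      [3, 0, 0, 0],
      [3, 1, 0, 0],
      [3, 1, 1, 0],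
      [3, 1, 1, 1],
      [3, 2, 0, 0],
      [3, 2, 1, 0],
      [3, 2, 1, 1],
      [3, 2, 2, 0],
      [3, 3, 0, 0],
      [3, 3, 1, 0],
      [4, 0, 0, 0],
      [4, 1, 0, 0],
      [4, 1, 1, 0],
      [4, 1, 1, 1],
      [4, 2, 0, 0],
      [4, 2, 1, 0],
      [4, 3, 0, 0]] by
    decide +kernel] at hl
  simp only [List.mem_cons, List.not_mem_nil, or_false] at hl
  rcases hl with rfl | rfl | rfl | rfl | rfl | rfl | rfl | rfl | rfl | rfl | rfl | rfl | rfl | rfl | rfl | rfl | rfl | rfl | rfl | rfl | rfl | rfl | rfl | rfl | rfl | rfl | rfl | rfl | rfl | rfl | rfl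
  · exact g22_22_4_4_6_2_0
  · exact g22_22_4_4_6_2_1
  · exact g22_22_4_4_6_2_2
  · exact g22_22_4_4_6_2_3
  · exact g22_22_4_4_6_2_4
  · exact g22_22_4_4_6_2_5
  · exact g22_22_4_4_6_2_6
  · exact g22_22_4_4_6_2_7
  · exact g22_22_4_4_6_2_8
  · exact g22_22_4_4_6_2_9
  · exact g22_22_4_4_6_2_10
  · exact g22_22_4_4_6_2_11
  · exact g22_22_4_4_6_2_12
  · exact g22_22_4_4_6_2_13
  · exact g22_22_4_4_6_2_14
  · exact g22_22_4_4_6_2_15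
  · exact g22_22_4_4_6_2_16
  · exact g22_22_4_4_6_2_17
  · exact g22_22_4_4_6_2_18
  · exact g22_22_4_4_6_2_19
  · exact g22_22_4_4_6_2_20
  · exact g22_22_4_4_6_2_21
  · exact g22_22_4_4_6_2_22
  · exact g22_22_4_4_6_2_23
  · exact g22_22_4_4_6_2_24
  · exact g22_22_4_4_6_2_25
  · exact g22_22_4_4_6_2_26
  · exact g22_22_4_4_6_2_27
  · exact g22_22_4_4_6_2_28
  · exact g22_22_4_4_6_2_29
  · exact g22_22_4_4_6_2_30

lemma g22_22_4_4_6_3_0 : EnPr.one 22 6 (6, 5, 6, 3) [4, 4, 0, 0, 0, 0] = true := by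
  decide +kernel

lemma g22_22_4_4_6_3_1 : EnPr.one 22 6 (6, 5, 6, 3) [4, 4, 1, 0, 0, 0] = true := by
  decide +kernel

lemma g22_22_4_4_6_3_2 : EnPr.one 22 6 (6, 5, 6, 3) [4, 4, 1, 1, 0, 0] = true := by
  decide +kernel

lemma g22_22_4_4_6_3_3 : EnPr.one 22 6 (6, 5, 6, 3) [4, 4, 1, 1, 1, 0] = true := by
  decide +kernel

lemma g22_22_4_4_6_3_4 : EnPr.one 22 6 (6, 5, 6, 3) [4, 4, 1, 1, 1, 1] = true := by
  decide +kernel

lemma g22_22_4_4_6_3_5 : EnPr.one 22 6 (6, 5, 6, 3) [4, 4, 2, 0, 0, 0] = true := by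
  decide +kernel

lemma g22_22_4_4_6_3_6 : EnPr.one 22 6 (6, 5, 6, 3) [4, 4, 2, 1, 0, 0] = true := by
  decide +kernel

lemma g22_22_4_4_6_3_7 : EnPr.one 22 6 (6, 5, 6, 3) [4, 4, 2, 1, 1, 0] = true := by
  decide +kernel

lemma g22_22_4_4_6_3_8 : EnPr.one 22 6 (6, 5, 6, 3) [4, 4, 2, 1, 1, 1] = true := by
  decide +kernel

lemma g22_22_4_4_6_3_9 : EnPr.one 22 6 (6, 5, 6, 3) [4, 4, 2, 2, 0, 0] = true := by
  decide +kernel

lemma g22_22_4_4_6_3_10 : EnPr.one 22 6 (6, 5, 6, 3) [4, 4, 2, 2, 1, 0] = true := by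
  decide +kernel

lemma g22_22_4_4_6_3_11 : EnPr.one 22 6 (6, 5, 6, 3) [4, 4, 2, 2, 1, 1] = true := by
  decide +kernel

lemma g22_22_4_4_6_3_12 : EnPr.one 22 6 (6, 5, 6, 3) [4, 4, 2, 2, 2, 0] = true := by
  decide +kernel

lemma g22_22_4_4_6_3_13 : EnPr.one 22 6 (6, 5, 6, 3) [4, 4, 2, 2, 2, 1] = true := by
  decide +kernel

lemma g22_22_4_4_6_3_14 : EnPr.one 22 6 (6, 5, 6, 3) [4, 4, 3, 0, 0, 0] = true := by
  decide +kernel

lemma g22_22_4_4_6_3_15 : EnPr.one 22 6 (6, 5, 6, 3) [4, 4, 3, 1, 0, 0] = true := by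
  decide +kernel

lemma g22_22_4_4_6_3_16 : EnPr.one 22 6 (6, 5, 6, 3) [4, 4, 3, 1, 1, 0] = true := by
  decide +kernel

lemma g22_22_4_4_6_3_17 : EnPr.one 22 6 (6, 5, 6, 3) [4, 4, 3, 1, 1, 1] = true := by
  decide +kernel

lemma g22_22_4_4_6_3_18 : EnPr.one 22 6 (6, 5, 6, 3) [4, 4, 3, 2, 0, 0] = true := by
  decide +kernel

lemma g22_22_4_4_6_3_19 : EnPr.one 22 6 (6, 5, 6, 3) [4, 4, 3, 2, 1, 0] = true := by
  decide +kernel

lemma g22_22_4_4_6_3_20 : EnPr.one 22 6 (6, 5, 6, 3) [4, 4, 3, 2, 1, 1] = true := by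
  decide +kernel

lemma g22_22_4_4_6_3_21 : EnPr.one 22 6 (6, 5, 6, 3) [4, 4, 3, 2, 2, 0] = true := by
  decide +kernel

lemma g22_22_4_4_6_3_22 : EnPr.one 22 6 (6, 5, 6, 3) [4, 4, 3, 3, 0, 0] = true := by
  decide +kernel

lemma g22_22_4_4_6_3_23 : EnPr.one 22 6 (6, 5, 6, 3) [4, 4, 3, 3, 1, 0] = true := by
  decide +kernel

lemma g22_22_4_4_6_3_24 : EnPr.one 22 6 (6, 5, 6, 3) [4, 4, 4, 0, 0, 0] = true := by
  decide +kernel

lemma g22_22_4_4_6_3_25 : EnPr.one 22 6 (6, 5, 6, 3) [4, 4, 4, 1, 0, 0] = true := by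
  decide +kernel

lemma g22_22_4_4_6_3_26 : EnPr.one 22 6 (6, 5, 6, 3) [4, 4, 4, 1, 1, 0] = true := by
  decide +kernel

lemma g22_22_4_4_6_3_27 : EnPr.one 22 6 (6, 5, 6, 3) [4, 4, 4, 1, 1, 1] = true := by
  decide +kernel

lemma g22_22_4_4_6_3_28 : EnPr.one 22 6 (6, 5, 6, 3) [4, 4, 4, 2, 0, 0] = true := by
  decide +kernel

lemma g22_22_4_4_6_3_29 : EnPr.one 22 6 (6, 5, 6, 3) [4, 4, 4, 2, 1, 0] = true := by
  decide +kernel

lemma g22_22_4_4_6_3_30 : EnPr.one 22 6 (6, 5, 6, 3) [4, 4, 4, 3, 0, 0] = true := by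
  decide +kernel

lemma e22_22_4_4_6_3 : EnPr.lall (fun l => EnPr.one 22 6 (6, 5, 6, 3) (4 :: 4 :: l))
    (EnPr.prof (6 - 2) 4 (22 - (6 + 1) - 4 - 4)) = true := by
  rw [EnPr.lall_iff]
  intro l hl
  rw [show EnPr.prof (6 - 2) 4 (22 - (6 + 1) - 4 - 4) =
      [[0, 0, 0, 0],
      [1, 0, 0, 0],
      [1, 1, 0, 0],
      [1, 1, 1, 0],
      [1, 1, 1, 1],
      [2, 0, 0, 0],
      [2, 1, 0, 0],
      [2, 1, 1, 0],
      [2, 1, 1, 1],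
      [2, 2, 0, 0],
      [2, 2, 1, 0],
      [2, 2, 1, 1],
      [2, 2, 2, 0],
      [2, 2, 2, 1],
      [3, 0, 0, 0],
      [3, 1, 0, 0],
      [3, 1, 1, 0],
      [3, 1, 1, 1],
      [3, 2, 0, 0],
      [3, 2, 1, 0],
      [3, 2, 1, 1],
      [3, 2, 2, 0],
      [3, 3, 0, 0],
      [3, 3, 1, 0],
      [4, 0, 0, 0],
      [4, 1, 0, 0],
      [4, 1, 1, 0],
      [4, 1, 1, 1],
      [4, 2, 0, 0],
      [4, 2, 1, 0],
      [4, 3, 0, 0]] by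
    decide +kernel] at hl
  simp only [List.mem_cons, List.not_mem_nil, or_false] at hl
  rcases hl with rfl | rfl | rfl | rfl | rfl | rfl | rfl | rfl | rfl | rfl | rfl | rfl | rfl | rfl | rfl | rfl | rfl | rfl | rfl | rfl | rfl | rfl | rfl | rfl | rfl | rfl | rfl | rfl | rfl | rfl | rfl
  · exact g22_22_4_4_6_3_0
  · exact g22_22_4_4_6_3_1
  · exact g22_22_4_4_6_3_2
  · exact g22_22_4_4_6_3_3
  · exact g22_22_4_4_6_3_4
  · exact g22_22_4_4_6_3_5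
  · exact g22_22_4_4_6_3_6
  · exact g22_22_4_4_6_3_7
  · exact g22_22_4_4_6_3_8
  · exact g22_22_4_4_6_3_9
  · exact g22_22_4_4_6_3_10
  · exact g22_22_4_4_6_3_11
  · exact g22_22_4_4_6_3_12
  · exact g22_22_4_4_6_3_13
  · exact g22_22_4_4_6_3_14
  · exact g22_22_4_4_6_3_15
  · exact g22_22_4_4_6_3_16
  · exact g22_22_4_4_6_3_17
  · exact g22_22_4_4_6_3_18
  · exact g22_22_4_4_6_3_19
  · exact g22_22_4_4_6_3_20
  · exact g22_22_4_4_6_3_21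
  · exact g22_22_4_4_6_3_22
  · exact g22_22_4_4_6_3_23
  · exact g22_22_4_4_6_3_24
  · exact g22_22_4_4_6_3_25
  · exact g22_22_4_4_6_3_26
  · exact g22_22_4_4_6_3_27
  · exact g22_22_4_4_6_3_28
  · exact g22_22_4_4_6_3_29
  · exact g22_22_4_4_6_3_30

lemma g22_22_4_4_6_4_0 : EnPr.one 22 6 (6, 5, 6, 4) [4, 4, 0, 0, 0, 0] = true := by
  decide +kernel

lemma g22_22_4_4_6_4_1 : EnPr.one 22 6 (6, 5, 6, 4) [4, 4, 1, 0, 0, 0] = true := by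
  decide +kernel

lemma g22_22_4_4_6_4_2 : EnPr.one 22 6 (6, 5, 6, 4) [4, 4, 1, 1, 0, 0] = true := by
  decide +kernel

lemma g22_22_4_4_6_4_3 : EnPr.one 22 6 (6, 5, 6, 4) [4, 4, 1, 1, 1, 0] = true := by
  decide +kernel

lemma g22_22_4_4_6_4_4 : EnPr.one 22 6 (6, 5, 6, 4) [4, 4, 1, 1, 1, 1] = true := by
  decide +kernel

lemma g22_22_4_4_6_4_5 : EnPr.one 22 6 (6, 5, 6, 4) [4, 4, 2, 0, 0, 0] = true := by
  decide +kernel

lemma g22_22_4_4_6_4_6 : EnPr.one 22 6 (6, 5, 6, 4) [4, 4, 2, 1, 0, 0] = true := by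
  decide +kernel

lemma g22_22_4_4_6_4_7 : EnPr.one 22 6 (6, 5, 6, 4) [4, 4, 2, 1, 1, 0] = true := by
  decide +kernel

end BlkC

end Pool.Agent.Lib.MP_f04ccf_co
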