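import Pool.Agent.Lib.MP_f04ccf_co.M.BlkX22_22_4_4d
import Pool.Agent.Lib.MP_f04ccf_co.M.BlkX22_22_4_4e1

/-!
MP_f04ccf_co, block certificate with exceptions, `R = 22`, `H = 22`, the pair `(4, 4)` (data of helper99 / helper13,
generated by helper8, genx.py): the exceptions, part 2 of 3.
-/

set_option autoImplicit false
set_option maxRecDepth 100000

namespace Pool.Agent.Lib.MP_f04ccf_co

namespace BlkC

lemma g22_22_4_4_6_4_8 : EnPr.one 22 6 (6, 5, 6, 4) [4, 4, 2, 1, 1, 1] = true := by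
  decide +kernel

lemma g22_22_4_4_6_4_9 : EnPr.one 22 6 (6, 5, 6, 4) [4, 4, 2, 2, 0, 0] = true := by
  decide +kernel

lemma g22_22_4_4_6_4_10 : EnPr.one 22 6 (6, 5, 6, 4) [4, 4, 2, 2, 1, 0] = true := by
  decide +kernel

lemma g22_22_4_4_6_4_11 : EnPr.one 22 6 (6, 5, 6, 4) [4, 4, 2, 2, 1, 1] = true := by
  decide +kernel

lemma g22_22_4_4_6_4_12 : EnPr.one 22 6 (6, 5, 6, 4) [4, 4, 2, 2, 2, 0] = true := by
  decide +kernel

lemma g22_22_4_4_6_4_13 : EnPr.one 22 6 (6, 5, 6, 4) [4, 4, 2, 2, 2, 1] = true := by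
  decide +kernel

lemma g22_22_4_4_6_4_14 : EnPr.one 22 6 (6, 5, 6, 4) [4, 4, 3, 0, 0, 0] = true := by
  decide +kernel

lemma g22_22_4_4_6_4_15 : EnPr.one 22 6 (6, 5, 6, 4) [4, 4, 3, 1, 0, 0] = true := by
  decide +kernel

lemma g22_22_4_4_6_4_16 : EnPr.one 22 6 (6, 5, 6, 4) [4, 4, 3, 1, 1, 0] = true := by
  decide +kernel

lemma g22_22_4_4_6_4_17 : EnPr.one 22 6 (6, 5, 6, 4) [4, 4, 3, 1, 1, 1] = true := by
  decide +kernel

lemma g22_22_4_4_6_4_18 : EnPr.one 22 6 (6, 5, 6, 4) [4, 4, 3, 2, 0, 0] = true := by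
  decide +kernel

lemma g22_22_4_4_6_4_19 : EnPr.one 22 6 (6, 5, 6, 4) [4, 4, 3, 2, 1, 0] = true := by
  decide +kernel

lemma g22_22_4_4_6_4_20 : EnPr.one 22 6 (6, 5, 6, 4) [4, 4, 3, 2, 1, 1] = true := by
  decide +kernel

lemma g22_22_4_4_6_4_21 : EnPr.one 22 6 (6, 5, 6, 4) [4, 4, 3, 2, 2, 0] = true := by
  decide +kernel

lemma g22_22_4_4_6_4_22 : EnPr.one 22 6 (6, 5, 6, 4) [4, 4, 3, 3, 0, 0] = true := by
  decide +kernel

lemma g22_22_4_4_6_4_23 : EnPr.one 22 6 (6, 5, 6, 4) [4, 4, 3, 3, 1, 0] = true := by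
  decide +kernel

lemma g22_22_4_4_6_4_24 : EnPr.one 22 6 (6, 5, 6, 4) [4, 4, 4, 0, 0, 0] = true := by
  decide +kernel

lemma g22_22_4_4_6_4_25 : EnPr.one 22 6 (6, 5, 6, 4) [4, 4, 4, 1, 0, 0] = true := by
  decide +kernel

lemma g22_22_4_4_6_4_26 : EnPr.one 22 6 (6, 5, 6, 4) [4, 4, 4, 1, 1, 0] = true := by
  decide +kernel

lemma g22_22_4_4_6_4_27 : EnPr.one 22 6 (6, 5, 6, 4) [4, 4, 4, 1, 1, 1] = true := by
  decide +kernel

lemma g22_22_4_4_6_4_28 : EnPr.one 22 6 (6, 5, 6, 4) [4, 4, 4, 2, 0, 0] = true := by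
  decide +kernel

lemma g22_22_4_4_6_4_29 : EnPr.one 22 6 (6, 5, 6, 4) [4, 4, 4, 2, 1, 0] = true := by
  decide +kernel

lemma g22_22_4_4_6_4_30 : EnPr.one 22 6 (6, 5, 6, 4) [4, 4, 4, 3, 0, 0] = true := by
  decide +kernel

lemma e22_22_4_4_6_4 : EnPr.lall (fun l => EnPr.one 22 6 (6, 5, 6, 4) (4 :: 4 :: l))
    (EnPr.prof (6 - 2) 4 (22 - (6 + 1) - 4 - 4)) = true := by
  rw [EnPr.lall_iff]
  intro l hl
  rw [show EnPr.prof (6 - 2) 4 (22 - (6 + 1) - 4 - 4) =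
      [[0, 0, 0, 0],
      [1, 0, 0, 0],
      [1, 1, 0, 0],
      [1, 1, 1, 0],
      [1, 1, 1, 1],
      [2, 0, 0, 0],
      [2, 1, 0, 0],
      [2, 1, 1, 0],
      [2, 1, 1, 1],
      [2, 2, 0, 0],
      [2, 2, 1, 0],
      [2, 2, 1, 1],
      [2, 2, 2, 0],
      [2, 2, 2, 1],
      [3, 0, 0, 0],
      [3, 1, 0, 0],
      [3, 1, 1, 0],
      [3, 1, 1, 1],
      [3, 2, 0, 0],
      [3, 2, 1, 0],
      [3, 2, 1, 1],
      [3, 2, 2, 0],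
      [3, 3, 0, 0],
      [3, 3, 1, 0],
      [4, 0, 0, 0],
      [4, 1, 0, 0],
      [4, 1, 1, 0],
      [4, 1, 1, 1],
      [4, 2, 0, 0],
      [4, 2, 1, 0],
      [4, 3, 0, 0]] by
    decide +kernel] at hl
  simp only [List.mem_cons, List.not_mem_nil, or_false] at hl
  rcases hl with rfl | rfl | rfl | rfl | rfl | rfl | rfl | rfl | rfl | rfl | rfl | rfl | rfl | rfl | rfl | rfl | rfl | rfl | rfl | rfl | rfl | rfl | rfl | rfl | rfl | rfl | rfl | rfl | rfl | rfl | rfl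
  · exact g22_22_4_4_6_4_0
  · exact g22_22_4_4_6_4_1
  · exact g22_22_4_4_6_4_2
  · exact g22_22_4_4_6_4_3
  · exact g22_22_4_4_6_4_4
  · exact g22_22_4_4_6_4_5
  · exact g22_22_4_4_6_4_6
  · exact g22_22_4_4_6_4_7
  · exact g22_22_4_4_6_4_8
  · exact g22_22_4_4_6_4_9
  · exact g22_22_4_4_6_4_10
  · exact g22_22_4_4_6_4_11
  · exact g22_22_4_4_6_4_12
  · exact g22_22_4_4_6_4_13
  · exact g22_22_4_4_6_4_14
  · exact g22_22_4_4_6_4_15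
  · exact g22_22_4_4_6_4_16
  · exact g22_22_4_4_6_4_17
  · exact g22_22_4_4_6_4_18
  · exact g22_22_4_4_6_4_19
  · exact g22_22_4_4_6_4_20
  · exact g22_22_4_4_6_4_21
  · exact g22_22_4_4_6_4_22
  · exact g22_22_4_4_6_4_23
  · exact g22_22_4_4_6_4_24
  · exact g22_22_4_4_6_4_25
  · exact g22_22_4_4_6_4_26
  · exact g22_22_4_4_6_4_27
  · exact g22_22_4_4_6_4_28
  · exact g22_22_4_4_6_4_29
  · exact g22_22_4_4_6_4_30

lemma g22_22_4_4_6_5_0 : EnPr.one 22 6 (6, 5, 6, 5) [4, 4, 0, 0, 0, 0] = true := by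
  decide +kernel

lemma g22_22_4_4_6_5_1 : EnPr.one 22 6 (6, 5, 6, 5) [4, 4, 1, 0, 0, 0] = true := by
  decide +kernel

lemma g22_22_4_4_6_5_2 : EnPr.one 22 6 (6, 5, 6, 5) [4, 4, 1, 1, 0, 0] = true := by
  decide +kernel

lemma g22_22_4_4_6_5_3 : EnPr.one 22 6 (6, 5, 6, 5) [4, 4, 1, 1, 1, 0] = true := by
  decide +kernel

lemma g22_22_4_4_6_5_4 : EnPr.one 22 6 (6, 5, 6, 5) [4, 4, 1, 1, 1, 1] = true := by
  decide +kernel

lemma g22_22_4_4_6_5_5 : EnPr.one 22 6 (6, 5, 6, 5) [4, 4, 2, 0, 0, 0] = true := by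
  decide +kernel

lemma g22_22_4_4_6_5_6 : EnPr.one 22 6 (6, 5, 6, 5) [4, 4, 2, 1, 0, 0] = true := by
  decide +kernel

lemma g22_22_4_4_6_5_7 : EnPr.one 22 6 (6, 5, 6, 5) [4, 4, 2, 1, 1, 0] = true := by
  decide +kernel

lemma g22_22_4_4_6_5_8 : EnPr.one 22 6 (6, 5, 6, 5) [4, 4, 2, 1, 1, 1] = true := by
  decide +kernel

lemma g22_22_4_4_6_5_9 : EnPr.one 22 6 (6, 5, 6, 5) [4, 4, 2, 2, 0, 0] = true := by
  decide +kernel

lemma g22_22_4_4_6_5_10 : EnPr.one 22 6 (6, 5, 6, 5) [4, 4, 2, 2, 1, 0] = true := by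
  decide +kernel

lemma g22_22_4_4_6_5_11 : EnPr.one 22 6 (6, 5, 6, 5) [4, 4, 2, 2, 1, 1] = true := by
  decide +kernel

lemma g22_22_4_4_6_5_12 : EnPr.one 22 6 (6, 5, 6, 5) [4, 4, 2, 2, 2, 0] = true := by
  decide +kernel

lemma g22_22_4_4_6_5_13 : EnPr.one 22 6 (6, 5, 6, 5) [4, 4, 2, 2, 2, 1] = true := by
  decide +kernel

lemma g22_22_4_4_6_5_14 : EnPr.one 22 6 (6, 5, 6, 5) [4, 4, 3, 0, 0, 0] = true := by
  decide +kernel

lemma g22_22_4_4_6_5_15 : EnPr.one 22 6 (6, 5, 6, 5) [4, 4, 3, 1, 0, 0] = true := by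
  decide +kernel

lemma g22_22_4_4_6_5_16 : EnPr.one 22 6 (6, 5, 6, 5) [4, 4, 3, 1, 1, 0] = true := by
  decide +kernel

lemma g22_22_4_4_6_5_17 : EnPr.one 22 6 (6, 5, 6, 5) [4, 4, 3, 1, 1, 1] = true := by
  decide +kernel

lemma g22_22_4_4_6_5_18 : EnPr.one 22 6 (6, 5, 6, 5) [4, 4, 3, 2, 0, 0] = true := by
  decide +kernel

lemma g22_22_4_4_6_5_19 : EnPr.one 22 6 (6, 5, 6, 5) [4, 4, 3, 2, 1, 0] = true := by
  decide +kernel

lemma g22_22_4_4_6_5_20 : EnPr.one 22 6 (6, 5, 6, 5) [4, 4, 3, 2, 1, 1] = true := by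
  decide +kernel

lemma g22_22_4_4_6_5_21 : EnPr.one 22 6 (6, 5, 6, 5) [4, 4, 3, 2, 2, 0] = true := by
  decide +kernel

lemma g22_22_4_4_6_5_22 : EnPr.one 22 6 (6, 5, 6, 5) [4, 4, 3, 3, 0, 0] = true := by
  decide +kernel

lemma g22_22_4_4_6_5_23 : EnPr.one 22 6 (6, 5, 6, 5) [4, 4, 3, 3, 1, 0] = true := by
  decide +kernel

lemma g22_22_4_4_6_5_24 : EnPr.one 22 6 (6, 5, 6, 5) [4, 4, 4, 0, 0, 0] = true := by
  decide +kernel

lemma g22_22_4_4_6_5_25 : EnPr.one 22 6 (6, 5, 6, 5) [4, 4, 4, 1, 0, 0] = true := by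
  decide +kernel

lemma g22_22_4_4_6_5_26 : EnPr.one 22 6 (6, 5, 6, 5) [4, 4, 4, 1, 1, 0] = true := by
  decide +kernel

lemma g22_22_4_4_6_5_27 : EnPr.one 22 6 (6, 5, 6, 5) [4, 4, 4, 1, 1, 1] = true := by
  decide +kernel

lemma g22_22_4_4_6_5_28 : EnPr.one 22 6 (6, 5, 6, 5) [4, 4, 4, 2, 0, 0] = true := by
  decide +kernel

lemma g22_22_4_4_6_5_29 : EnPr.one 22 6 (6, 5, 6, 5) [4, 4, 4, 2, 1, 0] = true := by
  decide +kernel

lemma g22_22_4_4_6_5_30 : EnPr.one 22 6 (6, 5, 6, 5) [4, 4, 4, 3, 0, 0] = true := by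
  decide +kernel

lemma e22_22_4_4_6_5 : EnPr.lall (fun l => EnPr.one 22 6 (6, 5, 6, 5) (4 :: 4 :: l))
    (EnPr.prof (6 - 2) 4 (22 - (6 + 1) - 4 - 4)) = true := by
  rw [EnPr.lall_iff]
  intro l hl
  rw [show EnPr.prof (6 - 2) 4 (22 - (6 + 1) - 4 - 4) =
      [[0, 0, 0, 0],
      [1, 0, 0, 0],
      [1, 1, 0, 0],
      [1, 1, 1, 0],
      [1, 1, 1, 1],
      [2, 0, 0, 0],
      [2, 1, 0, 0],
      [2, 1, 1, 0],
      [2, 1, 1, 1],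
      [2, 2, 0, 0],
      [2, 2, 1, 0],
      [2, 2, 1, 1],
      [2, 2, 2, 0],
      [2, 2, 2, 1],
      [3, 0, 0, 0],
      [3, 1, 0, 0],
      [3, 1, 1, 0],
      [3, 1, 1, 1],
      [3, 2, 0, 0],
      [3, 2, 1, 0],
      [3, 2, 1, 1],
      [3, 2, 2, 0],
      [3, 3, 0, 0],
      [3, 3, 1, 0],
      [4, 0, 0, 0],
      [4, 1, 0, 0],
      [4, 1, 1, 0],
      [4, 1, 1, 1],
      [4, 2, 0, 0],
      [4, 2, 1, 0],
      [4, 3, 0, 0]] by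
    decide +kernel] at hl
  simp only [List.mem_cons, List.not_mem_nil, or_false] at hl
  rcases hl with rfl | rfl | rfl | rfl | rfl | rfl | rfl | rfl | rfl | rfl | rfl | rfl | rfl | rfl | rfl | rfl | rfl | rfl | rfl | rfl | rfl | rfl | rfl | rfl | rfl | rfl | rfl | rfl | rfl | rfl | rfl
  · exact g22_22_4_4_6_5_0
  · exact g22_22_4_4_6_5_1
  · exact g22_22_4_4_6_5_2
  · exact g22_22_4_4_6_5_3
  · exact g22_22_4_4_6_5_4
  · exact g22_22_4_4_6_5_5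
  · exact g22_22_4_4_6_5_6
  · exact g22_22_4_4_6_5_7
  · exact g22_22_4_4_6_5_8
  · exact g22_22_4_4_6_5_9
  · exact g22_22_4_4_6_5_10
  · exact g22_22_4_4_6_5_11
  · exact g22_22_4_4_6_5_12
  · exact g22_22_4_4_6_5_13
  · exact g22_22_4_4_6_5_14
  · exact g22_22_4_4_6_5_15
  · exact g22_22_4_4_6_5_16
  · exact g22_22_4_4_6_5_17
  · exact g22_22_4_4_6_5_18
  · exact g22_22_4_4_6_5_19
  · exact g22_22_4_4_6_5_20
  · exact g22_22_4_4_6_5_21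
  · exact g22_22_4_4_6_5_22
  · exact g22_22_4_4_6_5_23
  · exact g22_22_4_4_6_5_24
  · exact g22_22_4_4_6_5_25
  · exact g22_22_4_4_6_5_26
  · exact g22_22_4_4_6_5_27
  · exact g22_22_4_4_6_5_28
  · exact g22_22_4_4_6_5_29
  · exact g22_22_4_4_6_5_30

lemma e22_22_4_4_7_0 : EnPr.lall (fun l => EnPr.one 22 7 (6, 3, 6, 3) (4 :: 4 :: l))
    (EnPr.prof (7 - 2) 4 (22 - (7 + 1) - 4 - 4)) = true := by
  decide +kernel

lemma e22_22_4_4_7_1 : EnPr.lall (fun l => EnPr.one 22 7 (6, 4, 6, 3) (4 :: 4 :: l))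
    (EnPr.prof (7 - 2) 4 (22 - (7 + 1) - 4 - 4)) = true := by
  decide +kernel

lemma e22_22_4_4_7_2 : EnPr.lall (fun l => EnPr.one 22 7 (6, 4, 6, 4) (4 :: 4 :: l))
    (EnPr.prof (7 - 2) 4 (22 - (7 + 1) - 4 - 4)) = true := by
  decide +kernel

lemma e22_22_4_4_7_3 : EnPr.lall (fun l => EnPr.one 22 7 (6, 5, 6, 3) (4 :: 4 :: l))
    (EnPr.prof (7 - 2) 4 (22 - (7 + 1) - 4 - 4)) = true := by
  decide +kernel

lemma e22_22_4_4_7_4 : EnPr.lall (fun l => EnPr.one 22 7 (6, 5, 6, 4) (4 :: 4 :: l))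
    (EnPr.prof (7 - 2) 4 (22 - (7 + 1) - 4 - 4)) = true := by
  decide +kernel

lemma e22_22_4_4_7_5 : EnPr.lall (fun l => EnPr.one 22 7 (6, 5, 6, 5) (4 :: 4 :: l))
    (EnPr.prof (7 - 2) 4 (22 - (7 + 1) - 4 - 4)) = true := by
  decide +kernel

lemma e22_22_4_4_8_0 : EnPr.lall (fun l => EnPr.one 22 8 (6, 3, 6, 3) (4 :: 4 :: l))
    (EnPr.prof (8 - 2) 4 (22 - (8 + 1) - 4 - 4)) = true := by
  decide +kernel

lemma e22_22_4_4_8_1 : EnPr.lall (fun l => EnPr.one 22 8 (6, 4, 6, 3) (4 :: 4 :: l))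
    (EnPr.prof (8 - 2) 4 (22 - (8 + 1) - 4 - 4)) = true := by
  decide +kernel

lemma e22_22_4_4_8_2 : EnPr.lall (fun l => EnPr.one 22 8 (6, 4, 6, 4) (4 :: 4 :: l))
    (EnPr.prof (8 - 2) 4 (22 - (8 + 1) - 4 - 4)) = true := by
  decide +kernel

lemma e22_22_4_4_8_3 : EnPr.lall (fun l => EnPr.one 22 8 (6, 5, 6, 3) (4 :: 4 :: l))
    (EnPr.prof (8 - 2) 4 (22 - (8 + 1) - 4 - 4)) = true := by
  decide +kernel

lemma e22_22_4_4_8_4 : EnPr.lall (fun l => EnPr.one 22 8 (6, 5, 6, 4) (4 :: 4 :: l))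
    (EnPr.prof (8 - 2) 4 (22 - (8 + 1) - 4 - 4)) = true := by
  decide +kernel

lemma e22_22_4_4_8_5 : EnPr.lall (fun l => EnPr.one 22 8 (6, 5, 6, 5) (4 :: 4 :: l))
    (EnPr.prof (8 - 2) 4 (22 - (8 + 1) - 4 - 4)) = true := by
  decide +kernel

lemma e22_22_4_4_9_0 : EnPr.lall (fun l => EnPr.one 22 9 (6, 3, 6, 3) (4 :: 4 :: l))
    (EnPr.prof (9 - 2) 4 (22 - (9 + 1) - 4 - 4)) = true := by
  decide +kernel

lemma e22_22_4_4_9_1 : EnPr.lall (fun l => EnPr.one 22 9 (6, 4, 6, 3) (4 :: 4 :: l))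
    (EnPr.prof (9 - 2) 4 (22 - (9 + 1) - 4 - 4)) = true := by
  decide +kernel

lemma e22_22_4_4_9_2 : EnPr.lall (fun l => EnPr.one 22 9 (6, 4, 6, 4) (4 :: 4 :: l))
    (EnPr.prof (9 - 2) 4 (22 - (9 + 1) - 4 - 4)) = true := by
  decide +kernel

lemma e22_22_4_4_9_3 : EnPr.lall (fun l => EnPr.one 22 9 (6, 5, 6, 3) (4 :: 4 :: l))
    (EnPr.prof (9 - 2) 4 (22 - (9 + 1) - 4 - 4)) = true := by
  decide +kernel

end BlkC

end Pool.Agent.Lib.MP_f04ccf_co
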