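import Pool.Agent.Lib.MP_f04ccf_co.M.BlkX22_22_4_4d

/-!
MP_f04ccf_co, block certificate with exceptions, `R = 22`, `H = 22`, the pair `(4, 4)` (data of helper99 / helper13,
generated by helper8, genx.py): the exceptions, part 3 of 3.
-/

set_option autoImplicit false
set_option maxRecDepth 100000

namespace Pool.Agent.Lib.MP_f04ccf_co

namespace BlkC

lemma e22_22_4_4_9_4 : EnPr.lall (fun l => EnPr.one 22 9 (6, 5, 6, 4) (4 :: 4 :: l))
    (EnPr.prof (9 - 2) 4 (22 - (9 + 1) - 4 - 4)) = true := by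
  decide +kernel

lemma e22_22_4_4_9_5 : EnPr.lall (fun l => EnPr.one 22 9 (6, 5, 6, 5) (4 :: 4 :: l))
    (EnPr.prof (9 - 2) 4 (22 - (9 + 1) - 4 - 4)) = true := by
  decide +kernel

lemma e22_22_4_4_10_0 : EnPr.lall (fun l => EnPr.one 22 10 (6, 3, 6, 3) (4 :: 4 :: l))
    (EnPr.prof (10 - 2) 4 (22 - (10 + 1) - 4 - 4)) = true := by
  decide +kernel

lemma e22_22_4_4_10_1 : EnPr.lall (fun l => EnPr.one 22 10 (6, 4, 6, 3) (4 :: 4 :: l))
    (EnPr.prof (10 - 2) 4 (22 - (10 + 1) - 4 - 4)) = true := by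
  decide +kernel

lemma e22_22_4_4_10_2 : EnPr.lall (fun l => EnPr.one 22 10 (6, 4, 6, 4) (4 :: 4 :: l))
    (EnPr.prof (10 - 2) 4 (22 - (10 + 1) - 4 - 4)) = true := by
  decide +kernel

lemma e22_22_4_4_10_3 : EnPr.lall (fun l => EnPr.one 22 10 (6, 5, 6, 3) (4 :: 4 :: l))
    (EnPr.prof (10 - 2) 4 (22 - (10 + 1) - 4 - 4)) = true := by
  decide +kernel

lemma e22_22_4_4_10_4 : EnPr.lall (fun l => EnPr.one 22 10 (6, 5, 6, 4) (4 :: 4 :: l))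
    (EnPr.prof (10 - 2) 4 (22 - (10 + 1) - 4 - 4)) = true := by
  decide +kernel

lemma e22_22_4_4_10_5 : EnPr.lall (fun l => EnPr.one 22 10 (6, 5, 6, 5) (4 :: 4 :: l))
    (EnPr.prof (10 - 2) 4 (22 - (10 + 1) - 4 - 4)) = true := by
  decide +kernel

lemma e22_22_4_4_11_0 : EnPr.lall (fun l => EnPr.one 22 11 (6, 3, 6, 3) (4 :: 4 :: l))
    (EnPr.prof (11 - 2) 4 (22 - (11 + 1) - 4 - 4)) = true := by
  decide +kernel

lemma e22_22_4_4_11_1 : EnPr.lall (fun l => EnPr.one 22 11 (6, 4, 6, 3) (4 :: 4 :: l))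
    (EnPr.prof (11 - 2) 4 (22 - (11 + 1) - 4 - 4)) = true := by
  decide +kernel

lemma e22_22_4_4_11_2 : EnPr.lall (fun l => EnPr.one 22 11 (6, 4, 6, 4) (4 :: 4 :: l))
    (EnPr.prof (11 - 2) 4 (22 - (11 + 1) - 4 - 4)) = true := by
  decide +kernel

lemma e22_22_4_4_11_3 : EnPr.lall (fun l => EnPr.one 22 11 (6, 5, 6, 3) (4 :: 4 :: l))
    (EnPr.prof (11 - 2) 4 (22 - (11 + 1) - 4 - 4)) = true := by
  decide +kernel

lemma e22_22_4_4_11_4 : EnPr.lall (fun l => EnPr.one 22 11 (6, 5, 6, 4) (4 :: 4 :: l))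
    (EnPr.prof (11 - 2) 4 (22 - (11 + 1) - 4 - 4)) = true := by
  decide +kernel

lemma e22_22_4_4_11_5 : EnPr.lall (fun l => EnPr.one 22 11 (6, 5, 6, 5) (4 :: 4 :: l))
    (EnPr.prof (11 - 2) 4 (22 - (11 + 1) - 4 - 4)) = true := by
  decide +kernel

lemma e22_22_4_4_12_0 : EnPr.lall (fun l => EnPr.one 22 12 (6, 3, 6, 3) (4 :: 4 :: l))
    (EnPr.prof (12 - 2) 4 (22 - (12 + 1) - 4 - 4)) = true := by
  decide +kernel

lemma e22_22_4_4_12_1 : EnPr.lall (fun l => EnPr.one 22 12 (6, 4, 6, 3) (4 :: 4 :: l))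
    (EnPr.prof (12 - 2) 4 (22 - (12 + 1) - 4 - 4)) = true := by
  decide +kernel

lemma e22_22_4_4_12_2 : EnPr.lall (fun l => EnPr.one 22 12 (6, 4, 6, 4) (4 :: 4 :: l))
    (EnPr.prof (12 - 2) 4 (22 - (12 + 1) - 4 - 4)) = true := by
  decide +kernel

lemma e22_22_4_4_12_3 : EnPr.lall (fun l => EnPr.one 22 12 (6, 5, 6, 3) (4 :: 4 :: l))
    (EnPr.prof (12 - 2) 4 (22 - (12 + 1) - 4 - 4)) = true := by
  decide +kernel

lemma e22_22_4_4_12_4 : EnPr.lall (fun l => EnPr.one 22 12 (6, 5, 6, 4) (4 :: 4 :: l))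
    (EnPr.prof (12 - 2) 4 (22 - (12 + 1) - 4 - 4)) = true := by
  decide +kernel

lemma e22_22_4_4_12_5 : EnPr.lall (fun l => EnPr.one 22 12 (6, 5, 6, 5) (4 :: 4 :: l))
    (EnPr.prof (12 - 2) 4 (22 - (12 + 1) - 4 - 4)) = true := by
  decide +kernel

lemma e22_22_4_4_13_0 : EnPr.lall (fun l => EnPr.one 22 13 (6, 3, 6, 3) (4 :: 4 :: l))
    (EnPr.prof (13 - 2) 4 (22 - (13 + 1) - 4 - 4)) = true := by
  decide +kernel

lemma e22_22_4_4_13_1 : EnPr.lall (fun l => EnPr.one 22 13 (6, 4, 6, 3) (4 :: 4 :: l))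
    (EnPr.prof (13 - 2) 4 (22 - (13 + 1) - 4 - 4)) = true := by
  decide +kernel

lemma e22_22_4_4_13_2 : EnPr.lall (fun l => EnPr.one 22 13 (6, 4, 6, 4) (4 :: 4 :: l))
    (EnPr.prof (13 - 2) 4 (22 - (13 + 1) - 4 - 4)) = true := by
  decide +kernel

lemma e22_22_4_4_13_3 : EnPr.lall (fun l => EnPr.one 22 13 (6, 5, 6, 3) (4 :: 4 :: l))
    (EnPr.prof (13 - 2) 4 (22 - (13 + 1) - 4 - 4)) = true := by
  decide +kernel

lemma e22_22_4_4_13_4 : EnPr.lall (fun l => EnPr.one 22 13 (6, 5, 6, 4) (4 :: 4 :: l))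
    (EnPr.prof (13 - 2) 4 (22 - (13 + 1) - 4 - 4)) = true := by
  decide +kernel

lemma e22_22_4_4_13_5 : EnPr.lall (fun l => EnPr.one 22 13 (6, 5, 6, 5) (4 :: 4 :: l))
    (EnPr.prof (13 - 2) 4 (22 - (13 + 1) - 4 - 4)) = true := by
  decide +kernel

end BlkC

end Pool.Agent.Lib.MP_f04ccf_co
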