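import Pool.Agent.Lib.MP_f04ccf_co.M.BlkX22_22_4_4d

/-!
MP_f04ccf_co, block certificate with exceptions, `R = 22`, `H = 22`, the pair `(4, 4)` (data of helper99 / helper13,
generated by helper8, genx.py): part 1 of 1.
-/

set_option autoImplicit false
set_option maxRecDepth 100000

namespace Pool.Agent.Lib.MP_f04ccf_co

namespace BlkC

/-- a subtree -/
def t22_22_4_4_0 : BlkD.Tr :=
  .S 0 0 (.L 5 5 [4, 4, 5, 5, 6] [] [] 100000 25000 24998 600000 0 0 100000 0 0 0 33333) (.S 1 21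
    (.S 1 10 (.S 1 5 (.S 1 2 (.L 5 5 [4, 4, 5, 5, 6] [] [] 100000 20834 20834 816666 16667 0 16667
    50000 0 16667 33333) (.S 1 4 (.L 5 5 [4, 4, 5, 5, 6] [] [] 100000 10157 10157 1012502 13542 0
    13542 33333 33333 26042 33333) (.S 2 2 (.S 2 1 (.S 2 0 (.L 5 5 [4, 4, 5, 5, 6] [70, 68, 60, 50,
    40, 30] [] 100000 25000 24998 566667 0 0 33333 100000 0 0 33333) (.S 3 15 (.S 3 7 (.S 3 3 (.L 5
    5 [4, 4, 5, 5, 6] [70, 68, 60, 50, 40, 30] [] 100000 14036 14036 917545 3509 15789 28070 22807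
    33333 10526 33333) (.S 3 5 (.S 3 4 (.L 5 5 [4, 4, 5, 5, 6] [70, 68, 60, 50, 40, 30] [58, 50,
    40, 30, 20, 0] 100000 8334 8334 1020001 13333 0 33333 6667 33333 33333 33333) (.S 4 5 (.S 4 2
    (.S 4 1 (.E 2) (.S 5 5 (.S 5 2 (.S 5 1 (.E 2) (.E 9)) (.L 5 5 [4, 4, 5, 5, 6] [50, 40, 30, 0,
    0, 0] [70, 68, 60, 50, 40, 30] 100000 50000 0 450000 0 0 150000 150000 0 0 25000)) (.E 2))) (.L
    5 5 [4, 4, 5, 5, 6] [70, 68, 60, 50, 40, 30] [70, 68, 60, 50, 40, 30] 100000 50000 0 450000 0 0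
    150000 150000 0 0 25000)) (.E 2))) (.E 1))) (.E 1)) (.E 1))) (.S 3 14 (.S 3 7 (.S 3 3 (.L 5 5
    [4, 4, 5, 5, 6] [70, 68, 60, 50, 40, 30] [] 100000 11275 11275 990200 15686 0 31373 15686 33333
    21569 33333) (.S 3 5 (.S 3 4 (.S 4 5 (.S 4 2 (.S 4 1 (.E 2) (.S 5 4 (.S 5 2 (.S 5 1 (.E 2) (.E
    9)) (.L 5 5 [4, 4, 5, 5, 6] [50, 40, 30, 0, 0, 0] [66, 58, 48, 38, 28, 0] 100000 50000 0 450000
    0 0 150000 150000 0 0 25000)) (.E 2))) (.L 5 5 [4, 4, 5, 5, 6] [70, 68, 60, 50, 40, 30] [66,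
    58, 48, 38, 28, 0] 100000 50000 0 450000 0 0 150000 150000 0 0 25000)) (.E 2)) (.E 1)) (.E 1)))
    (.E 1)) (.E 1))) (.S 2 3 (.S 3 13 (.S 3 6 (.S 3 3 (.S 3 1 (.L 5 5 [4, 4, 5, 5, 6] [70, 68, 60,
    50, 40, 30] [] 100000 10186 10186 933332 18519 0 29630 7407 33333 25926 33333) (.S 3 2 (.L 5 5
    [4, 4, 5, 5, 6] [70, 68, 60, 50, 40, 30] [34, 24, 14, 0, 0, 0] 100000 8334 8334 1008335 8333 0
    33333 16667 33333 33333 33333) (.S 4 5 (.S 4 2 (.S 4 1 (.E 2) (.S 5 3 (.S 5 1 (.E 2) (.S 5 2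
    (.E 9) (.L 5 5 [4, 4, 5, 5, 6] [50, 40, 30, 0, 0, 0] [54, 44, 34, 24, 0, 0] 100000 50000 0
    450000 0 0 150000 150000 0 0 25000))) (.E 2))) (.L 5 5 [4, 4, 5, 5, 6] [70, 68, 60, 50, 40, 30]
    [54, 44, 34, 24, 0, 0] 100000 50000 0 450000 0 0 150000 150000 0 0 25000)) (.E 2)))) (.E 1))
    (.E 1)) (.E 1)) (.L 5 5 [4, 4, 5, 5, 6] [70, 68, 60, 50, 40, 30] [] 100000 16667 16666 900000 0
    0 100000 0 0 33333 33333))))) (.E 0)) (.E 0)) (.E 0))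

lemma s22_22_4_4_0 : BlkD.treeX d22_22_4_4 (BlkD.exF 4 4 x22_22_4_4) t22_22_4_4_0
    (fun _ => 0)
    (BlkD.upd (BlkD.upd (BlkD.upd (BlkD.upd (fun _ => 22) 0 4) 2 4) 0 2) 0 1) = true := by
  decide +kernel

lemma n22_22_4_4_0 {n : ℕ} (hn : 5 ≤ n) : BlkD.NdX d22_22_4_4 (BlkD.exF 4 4 x22_22_4_4) n
    (fun _ => 0)
    (BlkD.upd (BlkD.upd (BlkD.upd (BlkD.upd (fun _ => 22) 0 4) 2 4) 0 2) 0 1) :=
  BlkD.NdX.tree s22_22_4_4_0 ok22_22_4_4 (by decide) hn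

/-- a subtree -/
def t22_22_4_4_1 : BlkD.Tr :=
  .S 1 20 (.S 1 10 (.S 1 5 (.S 1 2 (.L 5 5 [4, 4, 5, 5, 6] [] [] 100000 14167 14167 926671 8333 0
    25000 56667 16667 26667 33333) (.S 1 4 (.S 1 3 (.L 5 5 [4, 4, 5, 5, 6] [48, 38, 28, 18, 0, 0]
    [] 100000 10000 9998 1002226 0 0 24444 48889 33333 26667 33333) (.S 2 2 (.S 2 1 (.S 2 0 (.L 5 5
    [4, 4, 5, 5, 6] [66, 58, 48, 38, 28, 0] [] 100000 25000 24998 600000 0 0 0 100000 0 0 33333)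
    (.S 3 15 (.S 3 7 (.S 3 3 (.L 5 5 [4, 4, 5, 5, 6] [66, 58, 48, 38, 28, 0] [] 100000 15834 15834
    906667 0 26667 13333 30000 33333 3333 33333) (.S 3 5 (.S 3 4 (.L 5 5 [4, 4, 5, 5, 6] [66, 58,
    48, 38, 28, 0] [58, 50, 40, 30, 20, 0] 100000 8334 8334 1022223 0 11111 33333 11111 33333 33333
    33333) (.S 4 4 (.S 4 2 (.S 4 1 (.E 2) (.S 5 5 (.S 5 2 (.S 5 1 (.E 2) (.E 9)) (.L 5 5 [4, 4, 5,
    5, 6] [48, 38, 28, 0, 0, 0] [70, 68, 60, 50, 40, 30] 100000 50000 0 450000 0 0 150000 150000 0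
    0 25000)) (.E 2))) (.L 5 5 [4, 4, 5, 5, 6] [66, 58, 48, 38, 28, 0] [70, 68, 60, 50, 40, 30]
    100000 50000 0 450000 0 0 150000 150000 0 0 25000)) (.E 2))) (.E 1))) (.E 1)) (.E 1))) (.S 3 14
    (.S 3 7 (.S 3 3 (.L 5 5 [4, 4, 5, 5, 6] [66, 58, 48, 38, 28, 0] [] 100000 11022 11022 996778 0
    0 51613 25806 33333 22581 33333) (.S 3 5 (.S 3 4 (.S 4 4 (.S 4 2 (.S 4 1 (.E 2) (.S 5 4 (.S 5 2
    (.S 5 1 (.E 2) (.E 9)) (.L 5 5 [4, 4, 5, 5, 6] [48, 38, 28, 0, 0, 0] [66, 58, 48, 38, 28, 0]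
    100000 50000 0 450000 0 0 150000 150000 0 0 25000)) (.E 2))) (.L 5 5 [4, 4, 5, 5, 6] [66, 58,
    48, 38, 28, 0] [66, 58, 48, 38, 28, 0] 100000 50000 0 450000 0 0 150000 150000 0 0 25000)) (.E
    2)) (.E 1)) (.E 1))) (.E 1)) (.E 1))) (.S 2 3 (.S 3 13 (.S 3 6 (.S 3 3 (.S 3 1 (.L 5 5 [4, 4,
    5, 5, 6] [66, 58, 48, 38, 28, 0] [] 100000 12500 12498 933333 0 0 66667 16667 33333 16667
    33333) (.S 3 2 (.L 5 5 [4, 4, 5, 5, 6] [66, 58, 48, 38, 28, 0] [34, 24, 14, 0, 0, 0] 100000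
    8334 8334 1011112 0 0 44444 22222 33333 33333 33333) (.S 4 4 (.S 4 2 (.S 4 1 (.E 2) (.S 5 3 (.S
    5 1 (.E 2) (.S 5 2 (.E 9) (.L 5 5 [4, 4, 5, 5, 6] [48, 38, 28, 0, 0, 0] [54, 44, 34, 24, 0, 0]
    100000 50000 0 450000 0 0 150000 150000 0 0 25000))) (.E 2))) (.L 5 5 [4, 4, 5, 5, 6] [66, 58,
    48, 38, 28, 0] [54, 44, 34, 24, 0, 0] 100000 50000 0 450000 0 0 150000 150000 0 0 25000)) (.E
    2)))) (.E 1)) (.E 1)) (.E 1)) (.L 5 5 [4, 4, 5, 5, 6] [66, 58, 48, 38, 28, 0] [] 100000 16667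
    16666 900000 0 0 100000 0 0 33333 33333)))) (.E 0))) (.E 0)) (.E 0)) (.E 0)

lemma s22_22_4_4_1 : BlkD.treeX d22_22_4_4 (BlkD.exF 4 4 x22_22_4_4) t22_22_4_4_1
    (BlkD.upd (fun _ => 0) 0 2)
    (BlkD.upd (BlkD.upd (BlkD.upd (fun _ => 22) 0 4) 2 4) 0 2) = true := by
  decide +kernel

lemma n22_22_4_4_1 {n : ℕ} (hn : 5 ≤ n) : BlkD.NdX d22_22_4_4 (BlkD.exF 4 4 x22_22_4_4) n
    (BlkD.upd (fun _ => 0) 0 2)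
    (BlkD.upd (BlkD.upd (BlkD.upd (fun _ => 22) 0 4) 2 4) 0 2) :=
  BlkD.NdX.tree s22_22_4_4_1 ok22_22_4_4 (by decide) hn

/-- a subtree -/
def t22_22_4_4_2 : BlkD.Tr :=
  .S 0 3 (.S 1 19 (.S 1 9 (.S 1 4 (.S 1 2 (.L 5 5 [4, 4, 5, 5, 6] [] [] 100000 10000 9998 1002226 0
    0 24444 48889 33333 26667 33333) (.S 1 3 (.S 2 2 (.S 2 1 (.S 2 0 (.L 5 5 [4, 4, 5, 5, 6] [54,
    44, 34, 24, 0, 0] [] 100000 25000 24998 600000 0 0 0 100000 0 0 33333) (.S 3 15 (.S 3 7 (.S 3 3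
    (.L 5 5 [4, 4, 5, 5, 6] [54, 44, 34, 24, 0, 0] [] 100000 16667 16666 900001 0 33333 0 33333
    33333 0 33333) (.S 3 5 (.S 3 4 (.L 5 5 [4, 4, 5, 5, 6] [54, 44, 34, 24, 0, 0] [58, 50, 40, 30,
    20, 0] 100000 8334 8334 1022223 0 11111 33333 11111 33333 33333 33333) (.S 4 3 (.S 4 1 (.E 2)
    (.S 4 2 (.S 5 5 (.S 5 2 (.S 5 1 (.E 2) (.E 9)) (.L 5 5 [4, 4, 5, 5, 6] [44, 34, 24, 0, 0, 0]
    [70, 68, 60, 50, 40, 30] 100000 50000 0 450000 0 0 150000 150000 0 0 25000)) (.E 2)) (.L 5 5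
    [4, 4, 5, 5, 6] [54, 44, 34, 24, 0, 0] [70, 68, 60, 50, 40, 30] 100000 50000 0 450000 0 0
    150000 150000 0 0 25000))) (.E 2))) (.E 1))) (.E 1)) (.E 1))) (.S 3 14 (.S 3 7 (.S 3 3 (.L 5 5
    [4, 4, 5, 5, 6] [54, 44, 34, 24, 0, 0] [] 100000 11022 11022 996778 0 0 51613 25806 33333 22581
    33333) (.S 3 5 (.S 3 4 (.S 4 3 (.S 4 1 (.E 2) (.S 4 2 (.S 5 4 (.S 5 2 (.S 5 1 (.E 2) (.E 9))
    (.L 5 5 [4, 4, 5, 5, 6] [44, 34, 24, 0, 0, 0] [66, 58, 48, 38, 28, 0] 100000 50000 0 450000 0 0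
    150000 150000 0 0 25000)) (.E 2)) (.L 5 5 [4, 4, 5, 5, 6] [54, 44, 34, 24, 0, 0] [66, 58, 48,
    38, 28, 0] 100000 50000 0 450000 0 0 150000 150000 0 0 25000))) (.E 2)) (.E 1)) (.E 1))) (.E
    1)) (.E 1))) (.S 2 3 (.S 3 13 (.S 3 6 (.S 3 3 (.S 3 1 (.L 5 5 [4, 4, 5, 5, 6] [54, 44, 34, 24,
    0, 0] [] 100000 12500 12498 933333 0 0 66667 16667 33333 16667 33333) (.S 3 2 (.L 5 5 [4, 4, 5,
    5, 6] [54, 44, 34, 24, 0, 0] [34, 24, 14, 0, 0, 0] 100000 8334 8334 1011112 0 0 44444 22222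
    33333 33333 33333) (.S 4 3 (.S 4 1 (.E 2) (.S 4 2 (.S 5 3 (.S 5 1 (.E 2) (.S 5 2 (.E 9) (.L 5 5
    [4, 4, 5, 5, 6] [44, 34, 24, 0, 0, 0] [54, 44, 34, 24, 0, 0] 100000 50000 0 450000 0 0 150000
    150000 0 0 25000))) (.E 2)) (.L 5 5 [4, 4, 5, 5, 6] [54, 44, 34, 24, 0, 0] [54, 44, 34, 24, 0,
    0] 100000 50000 0 450000 0 0 150000 150000 0 0 25000))) (.E 2)))) (.E 1)) (.E 1)) (.E 1)) (.L 5
    5 [4, 4, 5, 5, 6] [54, 44, 34, 24, 0, 0] [] 100000 16667 16666 900000 0 0 100000 0 0 33333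
    33333))) (.E 0))) (.E 0)) (.E 0)) (.E 0)) (.L 5 5 [4, 4, 5, 5, 6] [] [] 100000 7954 7952
    1000003 0 0 0 50000 40909 27273 40909)

lemma s22_22_4_4_2 : BlkD.treeX d22_22_4_4 (BlkD.exF 4 4 x22_22_4_4) t22_22_4_4_2
    (BlkD.upd (fun _ => 0) 0 3)
    (BlkD.upd (BlkD.upd (fun _ => 22) 0 4) 2 4) = true := by
  decide +kernel

lemma n22_22_4_4_2 {n : ℕ} (hn : 5 ≤ n) : BlkD.NdX d22_22_4_4 (BlkD.exF 4 4 x22_22_4_4) n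
    (BlkD.upd (fun _ => 0) 0 3)
    (BlkD.upd (BlkD.upd (fun _ => 22) 0 4) 2 4) :=
  BlkD.NdX.tree s22_22_4_4_2 ok22_22_4_4 (by decide) hn

/-- a subtree -/
def t22_22_4_4_3 : BlkD.Tr :=
  .E 1

lemma s22_22_4_4_3 : BlkD.treeX d22_22_4_4 (BlkD.exF 4 4 x22_22_4_4) t22_22_4_4_3
    (BlkD.upd (fun _ => 0) 2 5)
    (BlkD.upd (fun _ => 22) 0 4) = true := by
  decide +kernel

lemma n22_22_4_4_3 {n : ℕ} (hn : 5 ≤ n) : BlkD.NdX d22_22_4_4 (BlkD.exF 4 4 x22_22_4_4) n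
    (BlkD.upd (fun _ => 0) 2 5)
    (BlkD.upd (fun _ => 22) 0 4) :=
  BlkD.NdX.tree s22_22_4_4_3 ok22_22_4_4 (by decide) hn

/-- a subtree -/
def t22_22_4_4_4 : BlkD.Tr :=
  .E 0

lemma s22_22_4_4_4 : BlkD.treeX d22_22_4_4 (BlkD.exF 4 4 x22_22_4_4) t22_22_4_4_4
    (BlkD.upd (fun _ => 0) 0 5)
    (fun _ => 22) = true := by
  decide +kernel

lemma n22_22_4_4_4 {n : ℕ} (hn : 5 ≤ n) : BlkD.NdX d22_22_4_4 (BlkD.exF 4 4 x22_22_4_4) n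
    (BlkD.upd (fun _ => 0) 0 5)
    (fun _ => 22) :=
  BlkD.NdX.tree s22_22_4_4_4 ok22_22_4_4 (by decide) hn

end BlkC

end Pool.Agent.Lib.MP_f04ccf_co
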