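import Pool.Agent.Lib.MP_f04ccf_co.M.BlkX22_22_4_4d
import Pool.Agent.Lib.MP_f04ccf_co.M.BlkX22_22_4_4p1
import Pool.Agent.Lib.MP_f04ccf_co.M.BlkX22_22_4_4e1
import Pool.Agent.Lib.MP_f04ccf_co.M.BlkX22_22_4_4e2
import Pool.Agent.Lib.MP_f04ccf_co.M.BlkX22_22_4_4e3

/-!
MP_f04ccf_co, block certificate with exceptions, `R = 22`, `H = 22`, the pair `(4, 4)` (data of helper99 / helper13,
generated by helper8, genx.py): the parts together.
-/

set_option autoImplicit false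
set_option maxRecDepth 100000

namespace Pool.Agent.Lib.MP_f04ccf_co

namespace BlkC

lemma x22_22_4_4_5 : NoNd ((22 : ℕ) : ℤ) ((22 : ℕ) : ℤ) 5 4 4 fun x y z w _ _ =>
    BlkD.exF 4 4 x22_22_4_4 x y z w := by
  refine NoNd.of_E (by norm_num) (by norm_num) fun e he => ?_
  simp only [x22_22_4_4, List.mem_cons, List.not_mem_nil, or_false] at he
  rcases he with rfl | rfl | rfl | rfl | rfl | rfl
  · exact e22_22_4_4_5_0
  · exact e22_22_4_4_5_1
  · exact e22_22_4_4_5_2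
  · exact e22_22_4_4_5_3
  · exact e22_22_4_4_5_4
  · exact e22_22_4_4_5_5

lemma x22_22_4_4_6 : NoNd ((22 : ℕ) : ℤ) ((22 : ℕ) : ℤ) 6 4 4 fun x y z w _ _ =>
    BlkD.exF 4 4 x22_22_4_4 x y z w := by
  refine NoNd.of_E (by norm_num) (by norm_num) fun e he => ?_
  simp only [x22_22_4_4, List.mem_cons, List.not_mem_nil, or_false] at he
  rcases he with rfl | rfl | rfl | rfl | rfl | rfl
  · exact e22_22_4_4_6_0
  · exact e22_22_4_4_6_1
  · exact e22_22_4_4_6_2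
  · exact e22_22_4_4_6_3
  · exact e22_22_4_4_6_4
  · exact e22_22_4_4_6_5

lemma x22_22_4_4_7 : NoNd ((22 : ℕ) : ℤ) ((22 : ℕ) : ℤ) 7 4 4 fun x y z w _ _ =>
    BlkD.exF 4 4 x22_22_4_4 x y z w := by
  refine NoNd.of_E (by norm_num) (by norm_num) fun e he => ?_
  simp only [x22_22_4_4, List.mem_cons, List.not_mem_nil, or_false] at he
  rcases he with rfl | rfl | rfl | rfl | rfl | rfl
  · exact e22_22_4_4_7_0
  · exact e22_22_4_4_7_1
  · exact e22_22_4_4_7_2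
  · exact e22_22_4_4_7_3
  · exact e22_22_4_4_7_4
  · exact e22_22_4_4_7_5

lemma x22_22_4_4_8 : NoNd ((22 : ℕ) : ℤ) ((22 : ℕ) : ℤ) 8 4 4 fun x y z w _ _ =>
    BlkD.exF 4 4 x22_22_4_4 x y z w := by
  refine NoNd.of_E (by norm_num) (by norm_num) fun e he => ?_
  simp only [x22_22_4_4, List.mem_cons, List.not_mem_nil, or_false] at he
  rcases he with rfl | rfl | rfl | rfl | rfl | rfl
  · exact e22_22_4_4_8_0
  · exact e22_22_4_4_8_1
  · exact e22_22_4_4_8_2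
  · exact e22_22_4_4_8_3
  · exact e22_22_4_4_8_4
  · exact e22_22_4_4_8_5

lemma x22_22_4_4_9 : NoNd ((22 : ℕ) : ℤ) ((22 : ℕ) : ℤ) 9 4 4 fun x y z w _ _ =>
    BlkD.exF 4 4 x22_22_4_4 x y z w := by
  refine NoNd.of_E (by norm_num) (by norm_num) fun e he => ?_
  simp only [x22_22_4_4, List.mem_cons, List.not_mem_nil, or_false] at he
  rcases he with rfl | rfl | rfl | rfl | rfl | rfl
  · exact e22_22_4_4_9_0
  · exact e22_22_4_4_9_1
  · exact e22_22_4_4_9_2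
  · exact e22_22_4_4_9_3
  · exact e22_22_4_4_9_4
  · exact e22_22_4_4_9_5

lemma x22_22_4_4_10 : NoNd ((22 : ℕ) : ℤ) ((22 : ℕ) : ℤ) 10 4 4 fun x y z w _ _ =>
    BlkD.exF 4 4 x22_22_4_4 x y z w := by
  refine NoNd.of_E (by norm_num) (by norm_num) fun e he => ?_
  simp only [x22_22_4_4, List.mem_cons, List.not_mem_nil, or_false] at he
  rcases he with rfl | rfl | rfl | rfl | rfl | rfl
  · exact e22_22_4_4_10_0
  · exact e22_22_4_4_10_1
  · exact e22_22_4_4_10_2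
  · exact e22_22_4_4_10_3
  · exact e22_22_4_4_10_4
  · exact e22_22_4_4_10_5

lemma x22_22_4_4_11 : NoNd ((22 : ℕ) : ℤ) ((22 : ℕ) : ℤ) 11 4 4 fun x y z w _ _ =>
    BlkD.exF 4 4 x22_22_4_4 x y z w := by
  refine NoNd.of_E (by norm_num) (by norm_num) fun e he => ?_
  simp only [x22_22_4_4, List.mem_cons, List.not_mem_nil, or_false] at he
  rcases he with rfl | rfl | rfl | rfl | rfl | rfl
  · exact e22_22_4_4_11_0
  · exact e22_22_4_4_11_1
  · exact e22_22_4_4_11_2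
  · exact e22_22_4_4_11_3
  · exact e22_22_4_4_11_4
  · exact e22_22_4_4_11_5

lemma x22_22_4_4_12 : NoNd ((22 : ℕ) : ℤ) ((22 : ℕ) : ℤ) 12 4 4 fun x y z w _ _ =>
    BlkD.exF 4 4 x22_22_4_4 x y z w := by
  refine NoNd.of_E (by norm_num) (by norm_num) fun e he => ?_
  simp only [x22_22_4_4, List.mem_cons, List.not_mem_nil, or_false] at he
  rcases he with rfl | rfl | rfl | rfl | rfl | rfl
  · exact e22_22_4_4_12_0
  · exact e22_22_4_4_12_1
  · exact e22_22_4_4_12_2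
  · exact e22_22_4_4_12_3
  · exact e22_22_4_4_12_4
  · exact e22_22_4_4_12_5

lemma x22_22_4_4_13 : NoNd ((22 : ℕ) : ℤ) ((22 : ℕ) : ℤ) 13 4 4 fun x y z w _ _ =>
    BlkD.exF 4 4 x22_22_4_4 x y z w := by
  refine NoNd.of_E (by norm_num) (by norm_num) fun e he => ?_
  simp only [x22_22_4_4, List.mem_cons, List.not_mem_nil, or_false] at he
  rcases he with rfl | rfl | rfl | rfl | rfl | rfl
  · exact e22_22_4_4_13_0
  · exact e22_22_4_4_13_1
  · exact e22_22_4_4_13_2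
  · exact e22_22_4_4_13_3
  · exact e22_22_4_4_13_4
  · exact e22_22_4_4_13_5

lemma r22_22_4_4 {n : ℕ} (hn : 5 ≤ n) : BlkD.NdX d22_22_4_4 (BlkD.exF 4 4 x22_22_4_4) n (fun _ => 0) (fun _ => 22) :=
  (BlkD.NdX.sp 0 4
  (BlkD.NdX.sp 2 4
  (BlkD.NdX.sp 0 2
  (BlkD.NdX.sp 0 1
  (n22_22_4_4_0 hn)
  (n22_22_4_4_1 hn))
  (n22_22_4_4_2 hn))
  (n22_22_4_4_3 hn))
  (n22_22_4_4_4 hn))

/-- **`R = 22`, `H = 22`, the pair `(4, 4)`** -/
theorem pr22_22_4_4 {n : ℕ} (hn : 5 ≤ n) : NoPr ((22 : ℕ) : ℤ) ((22 : ℕ) : ℤ) n 4 4 := by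
  by_cases h : n < 14
  · interval_cases n
    · exact BlkD.NdX.pr (r22_22_4_4 (by norm_num)) (by decide) (by decide) x22_22_4_4_5 rfl rfl rfl rfl
    · exact BlkD.NdX.pr (r22_22_4_4 (by norm_num)) (by decide) (by decide) x22_22_4_4_6 rfl rfl rfl rfl
    · exact BlkD.NdX.pr (r22_22_4_4 (by norm_num)) (by decide) (by decide) x22_22_4_4_7 rfl rfl rfl rfl
    · exact BlkD.NdX.pr (r22_22_4_4 (by norm_num)) (by decide) (by decide) x22_22_4_4_8 rfl rfl rfl rfl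
    · exact BlkD.NdX.pr (r22_22_4_4 (by norm_num)) (by decide) (by decide) x22_22_4_4_9 rfl rfl rfl rfl
    · exact BlkD.NdX.pr (r22_22_4_4 (by norm_num)) (by decide) (by decide) x22_22_4_4_10 rfl rfl rfl rfl
    · exact BlkD.NdX.pr (r22_22_4_4 (by norm_num)) (by decide) (by decide) x22_22_4_4_11 rfl rfl rfl rfl
    · exact BlkD.NdX.pr (r22_22_4_4 (by norm_num)) (by decide) (by decide) x22_22_4_4_12 rfl rfl rfl rfl
    · exact BlkD.NdX.pr (r22_22_4_4 (by norm_num)) (by decide) (by decide) x22_22_4_4_13 rfl rfl rfl rfl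
  · exact NoPr.big (by omega) (by omega)

end BlkC

end Pool.Agent.Lib.MP_f04ccf_co
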