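import Pool.Agent.Lib.MP_f04ccf_co.M.BlkX22_22_6_5d

/-!
MP_f04ccf_co, block certificate with exceptions, `R = 22`, `H = 22`, the pair `(6, 5)` (data of helper99 / helper13,
generated by helper8, genx.py): the exceptions, part 1 of 1.
-/

set_option autoImplicit false
set_option maxRecDepth 100000

namespace Pool.Agent.Lib.MP_f04ccf_co

namespace BlkC

lemma e22_22_6_5_5_0 : EnPr.lall (fun l => EnPr.one 22 5 (6, 3, 8, 6) (6 :: 5 :: l))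
    (EnPr.prof (5 - 2) 5 (22 - (5 + 1) - 6 - 5)) = true := by
  decide +kernel

lemma e22_22_6_5_5_1 : EnPr.lall (fun l => EnPr.one 22 5 (7, 4, 8, 6) (6 :: 5 :: l))
    (EnPr.prof (5 - 2) 5 (22 - (5 + 1) - 6 - 5)) = true := by
  decide +kernel

lemma e22_22_6_5_5_2 : EnPr.lall (fun l => EnPr.one 22 5 (8, 4, 7, 2) (6 :: 5 :: l))
    (EnPr.prof (5 - 2) 5 (22 - (5 + 1) - 6 - 5)) = true := by
  decide +kernel

lemma e22_22_6_5_5_3 : EnPr.lall (fun l => EnPr.one 22 5 (8, 4, 7, 3) (6 :: 5 :: l))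
    (EnPr.prof (5 - 2) 5 (22 - (5 + 1) - 6 - 5)) = true := by
  decide +kernel

lemma e22_22_6_5_5_4 : EnPr.lall (fun l => EnPr.one 22 5 (8, 5, 8, 6) (6 :: 5 :: l))
    (EnPr.prof (5 - 2) 5 (22 - (5 + 1) - 6 - 5)) = true := by
  decide +kernel

lemma g22_22_6_5_5_5_0 : EnPr.one 22 5 (9, 6, 6, 4) [6, 5, 0, 0, 0] = true := by
  decide +kernel

lemma g22_22_6_5_5_5_1 : EnPr.one 22 5 (9, 6, 6, 4) [6, 5, 1, 0, 0] = true := by
  decide +kernel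

lemma g22_22_6_5_5_5_2 : EnPr.one 22 5 (9, 6, 6, 4) [6, 5, 1, 1, 0] = true := by
  decide +kernel

lemma g22_22_6_5_5_5_3 : EnPr.one 22 5 (9, 6, 6, 4) [6, 5, 1, 1, 1] = true := by
  decide +kernel

lemma g22_22_6_5_5_5_4 : EnPr.one 22 5 (9, 6, 6, 4) [6, 5, 2, 0, 0] = true := by
  decide +kernel

lemma g22_22_6_5_5_5_5 : EnPr.one 22 5 (9, 6, 6, 4) [6, 5, 2, 1, 0] = true := by
  decide +kernel

lemma g22_22_6_5_5_5_6 : EnPr.one 22 5 (9, 6, 6, 4) [6, 5, 2, 1, 1] = true := by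
  decide +kernel

lemma g22_22_6_5_5_5_7 : EnPr.one 22 5 (9, 6, 6, 4) [6, 5, 2, 2, 0] = true := by
  decide +kernel

lemma g22_22_6_5_5_5_8 : EnPr.one 22 5 (9, 6, 6, 4) [6, 5, 2, 2, 1] = true := by
  decide +kernel

lemma g22_22_6_5_5_5_9 : EnPr.one 22 5 (9, 6, 6, 4) [6, 5, 3, 0, 0] = true := by
  decide +kernel

lemma g22_22_6_5_5_5_10 : EnPr.one 22 5 (9, 6, 6, 4) [6, 5, 3, 1, 0] = true := by
  decide +kernel

lemma g22_22_6_5_5_5_11 : EnPr.one 22 5 (9, 6, 6, 4) [6, 5, 3, 1, 1] = true := by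
  decide +kernel

lemma g22_22_6_5_5_5_12 : EnPr.one 22 5 (9, 6, 6, 4) [6, 5, 3, 2, 0] = true := by
  decide +kernel

lemma g22_22_6_5_5_5_13 : EnPr.one 22 5 (9, 6, 6, 4) [6, 5, 4, 0, 0] = true := by
  decide +kernel

lemma g22_22_6_5_5_5_14 : EnPr.one 22 5 (9, 6, 6, 4) [6, 5, 4, 1, 0] = true := by
  decide +kernel

lemma g22_22_6_5_5_5_15 : EnPr.one 22 5 (9, 6, 6, 4) [6, 5, 5, 0, 0] = true := by
  decide +kernel

lemma e22_22_6_5_5_5 : EnPr.lall (fun l => EnPr.one 22 5 (9, 6, 6, 4) (6 :: 5 :: l))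
    (EnPr.prof (5 - 2) 5 (22 - (5 + 1) - 6 - 5)) = true := by
  rw [EnPr.lall_iff]
  intro l hl
  rw [show EnPr.prof (5 - 2) 5 (22 - (5 + 1) - 6 - 5) =
      [[0, 0, 0],
      [1, 0, 0],
      [1, 1, 0],
      [1, 1, 1],
      [2, 0, 0],
      [2, 1, 0],
      [2, 1, 1],
      [2, 2, 0],
      [2, 2, 1],
      [3, 0, 0],
      [3, 1, 0],
      [3, 1, 1],
      [3, 2, 0],
      [4, 0, 0],
      [4, 1, 0],
      [5, 0, 0]] by
    decide +kernel] at hl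
  simp only [List.mem_cons, List.not_mem_nil, or_false] at hl
  rcases hl with rfl | rfl | rfl | rfl | rfl | rfl | rfl | rfl | rfl | rfl | rfl | rfl | rfl | rfl | rfl | rfl
  · exact g22_22_6_5_5_5_0
  · exact g22_22_6_5_5_5_1
  · exact g22_22_6_5_5_5_2
  · exact g22_22_6_5_5_5_3
  · exact g22_22_6_5_5_5_4
  · exact g22_22_6_5_5_5_5
  · exact g22_22_6_5_5_5_6
  · exact g22_22_6_5_5_5_7
  · exact g22_22_6_5_5_5_8
  · exact g22_22_6_5_5_5_9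
  · exact g22_22_6_5_5_5_10
  · exact g22_22_6_5_5_5_11
  · exact g22_22_6_5_5_5_12
  · exact g22_22_6_5_5_5_13
  · exact g22_22_6_5_5_5_14
  · exact g22_22_6_5_5_5_15

lemma g22_22_6_5_5_6_0 : EnPr.one 22 5 (9, 6, 7, 5) [6, 5, 0, 0, 0] = true := by
  decide +kernel

lemma g22_22_6_5_5_6_1 : EnPr.one 22 5 (9, 6, 7, 5) [6, 5, 1, 0, 0] = true := by
  decide +kernel

lemma g22_22_6_5_5_6_2 : EnPr.one 22 5 (9, 6, 7, 5) [6, 5, 1, 1, 0] = true := by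
  decide +kernel

lemma g22_22_6_5_5_6_3 : EnPr.one 22 5 (9, 6, 7, 5) [6, 5, 1, 1, 1] = true := by
  decide +kernel

lemma g22_22_6_5_5_6_4 : EnPr.one 22 5 (9, 6, 7, 5) [6, 5, 2, 0, 0] = true := by
  decide +kernel

lemma g22_22_6_5_5_6_5 : EnPr.one 22 5 (9, 6, 7, 5) [6, 5, 2, 1, 0] = true := by
  decide +kernel

lemma g22_22_6_5_5_6_6 : EnPr.one 22 5 (9, 6, 7, 5) [6, 5, 2, 1, 1] = true := by
  decide +kernel

lemma g22_22_6_5_5_6_7 : EnPr.one 22 5 (9, 6, 7, 5) [6, 5, 2, 2, 0] = true := by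
  decide +kernel

lemma g22_22_6_5_5_6_8 : EnPr.one 22 5 (9, 6, 7, 5) [6, 5, 2, 2, 1] = true := by
  decide +kernel

lemma g22_22_6_5_5_6_9 : EnPr.one 22 5 (9, 6, 7, 5) [6, 5, 3, 0, 0] = true := by
  decide +kernel

lemma g22_22_6_5_5_6_10 : EnPr.one 22 5 (9, 6, 7, 5) [6, 5, 3, 1, 0] = true := by
  decide +kernel

lemma g22_22_6_5_5_6_11 : EnPr.one 22 5 (9, 6, 7, 5) [6, 5, 3, 1, 1] = true := by
  decide +kernel

lemma g22_22_6_5_5_6_12 : EnPr.one 22 5 (9, 6, 7, 5) [6, 5, 3, 2, 0] = true := by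
  decide +kernel

lemma g22_22_6_5_5_6_13 : EnPr.one 22 5 (9, 6, 7, 5) [6, 5, 4, 0, 0] = true := by
  decide +kernel

lemma g22_22_6_5_5_6_14 : EnPr.one 22 5 (9, 6, 7, 5) [6, 5, 4, 1, 0] = true := by
  decide +kernel

lemma g22_22_6_5_5_6_15 : EnPr.one 22 5 (9, 6, 7, 5) [6, 5, 5, 0, 0] = true := by
  decide +kernel

lemma e22_22_6_5_5_6 : EnPr.lall (fun l => EnPr.one 22 5 (9, 6, 7, 5) (6 :: 5 :: l))
    (EnPr.prof (5 - 2) 5 (22 - (5 + 1) - 6 - 5)) = true := by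
  rw [EnPr.lall_iff]
  intro l hl
  rw [show EnPr.prof (5 - 2) 5 (22 - (5 + 1) - 6 - 5) =
      [[0, 0, 0],
      [1, 0, 0],
      [1, 1, 0],
      [1, 1, 1],
      [2, 0, 0],
      [2, 1, 0],
      [2, 1, 1],
      [2, 2, 0],
      [2, 2, 1],
      [3, 0, 0],
      [3, 1, 0],
      [3, 1, 1],
      [3, 2, 0],
      [4, 0, 0],
      [4, 1, 0],
      [5, 0, 0]] by
    decide +kernel] at hl
  simp only [List.mem_cons, List.not_mem_nil, or_false] at hl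
  rcases hl with rfl | rfl | rfl | rfl | rfl | rfl | rfl | rfl | rfl | rfl | rfl | rfl | rfl | rfl | rfl | rfl
  · exact g22_22_6_5_5_6_0
  · exact g22_22_6_5_5_6_1
  · exact g22_22_6_5_5_6_2
  · exact g22_22_6_5_5_6_3
  · exact g22_22_6_5_5_6_4
  · exact g22_22_6_5_5_6_5
  · exact g22_22_6_5_5_6_6
  · exact g22_22_6_5_5_6_7
  · exact g22_22_6_5_5_6_8
  · exact g22_22_6_5_5_6_9
  · exact g22_22_6_5_5_6_10
  · exact g22_22_6_5_5_6_11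
  · exact g22_22_6_5_5_6_12
  · exact g22_22_6_5_5_6_13
  · exact g22_22_6_5_5_6_14
  · exact g22_22_6_5_5_6_15

lemma e22_22_6_5_6_0 : EnPr.lall (fun l => EnPr.one 22 6 (6, 3, 8, 6) (6 :: 5 :: l))
    (EnPr.prof (6 - 2) 5 (22 - (6 + 1) - 6 - 5)) = true := by
  decide +kernel

lemma e22_22_6_5_6_1 : EnPr.lall (fun l => EnPr.one 22 6 (7, 4, 8, 6) (6 :: 5 :: l))
    (EnPr.prof (6 - 2) 5 (22 - (6 + 1) - 6 - 5)) = true := by
  decide +kernel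

lemma e22_22_6_5_6_2 : EnPr.lall (fun l => EnPr.one 22 6 (8, 4, 7, 2) (6 :: 5 :: l))
    (EnPr.prof (6 - 2) 5 (22 - (6 + 1) - 6 - 5)) = true := by
  decide +kernel

lemma e22_22_6_5_6_3 : EnPr.lall (fun l => EnPr.one 22 6 (8, 4, 7, 3) (6 :: 5 :: l))
    (EnPr.prof (6 - 2) 5 (22 - (6 + 1) - 6 - 5)) = true := by
  decide +kernel

lemma e22_22_6_5_6_4 : EnPr.lall (fun l => EnPr.one 22 6 (8, 5, 8, 6) (6 :: 5 :: l))
    (EnPr.prof (6 - 2) 5 (22 - (6 + 1) - 6 - 5)) = true := by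
  decide +kernel

lemma e22_22_6_5_6_5 : EnPr.lall (fun l => EnPr.one 22 6 (9, 6, 6, 4) (6 :: 5 :: l))
    (EnPr.prof (6 - 2) 5 (22 - (6 + 1) - 6 - 5)) = true := by
  decide +kernel

lemma e22_22_6_5_6_6 : EnPr.lall (fun l => EnPr.one 22 6 (9, 6, 7, 5) (6 :: 5 :: l))
    (EnPr.prof (6 - 2) 5 (22 - (6 + 1) - 6 - 5)) = true := by
  decide +kernel

lemma e22_22_6_5_7_0 : EnPr.lall (fun l => EnPr.one 22 7 (6, 3, 8, 6) (6 :: 5 :: l))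
    (EnPr.prof (7 - 2) 5 (22 - (7 + 1) - 6 - 5)) = true := by
  decide +kernel

lemma e22_22_6_5_7_1 : EnPr.lall (fun l => EnPr.one 22 7 (7, 4, 8, 6) (6 :: 5 :: l))
    (EnPr.prof (7 - 2) 5 (22 - (7 + 1) - 6 - 5)) = true := by
  decide +kernel

lemma e22_22_6_5_7_2 : EnPr.lall (fun l => EnPr.one 22 7 (8, 4, 7, 2) (6 :: 5 :: l))
    (EnPr.prof (7 - 2) 5 (22 - (7 + 1) - 6 - 5)) = true := by
  decide +kernel

lemma e22_22_6_5_7_3 : EnPr.lall (fun l => EnPr.one 22 7 (8, 4, 7, 3) (6 :: 5 :: l))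
    (EnPr.prof (7 - 2) 5 (22 - (7 + 1) - 6 - 5)) = true := by
  decide +kernel

lemma e22_22_6_5_7_4 : EnPr.lall (fun l => EnPr.one 22 7 (8, 5, 8, 6) (6 :: 5 :: l))
    (EnPr.prof (7 - 2) 5 (22 - (7 + 1) - 6 - 5)) = true := by
  decide +kernel

lemma e22_22_6_5_7_5 : EnPr.lall (fun l => EnPr.one 22 7 (9, 6, 6, 4) (6 :: 5 :: l))
    (EnPr.prof (7 - 2) 5 (22 - (7 + 1) - 6 - 5)) = true := by
  decide +kernel

lemma e22_22_6_5_7_6 : EnPr.lall (fun l => EnPr.one 22 7 (9, 6, 7, 5) (6 :: 5 :: l))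
    (EnPr.prof (7 - 2) 5 (22 - (7 + 1) - 6 - 5)) = true := by
  decide +kernel

lemma e22_22_6_5_8_0 : EnPr.lall (fun l => EnPr.one 22 8 (6, 3, 8, 6) (6 :: 5 :: l))
    (EnPr.prof (8 - 2) 5 (22 - (8 + 1) - 6 - 5)) = true := by
  decide +kernel

lemma e22_22_6_5_8_1 : EnPr.lall (fun l => EnPr.one 22 8 (7, 4, 8, 6) (6 :: 5 :: l))
    (EnPr.prof (8 - 2) 5 (22 - (8 + 1) - 6 - 5)) = true := by
  decide +kernel

lemma e22_22_6_5_8_2 : EnPr.lall (fun l => EnPr.one 22 8 (8, 4, 7, 2) (6 :: 5 :: l))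
    (EnPr.prof (8 - 2) 5 (22 - (8 + 1) - 6 - 5)) = true := by
  decide +kernel

lemma e22_22_6_5_8_3 : EnPr.lall (fun l => EnPr.one 22 8 (8, 4, 7, 3) (6 :: 5 :: l))
    (EnPr.prof (8 - 2) 5 (22 - (8 + 1) - 6 - 5)) = true := by
  decide +kernel

lemma e22_22_6_5_8_4 : EnPr.lall (fun l => EnPr.one 22 8 (8, 5, 8, 6) (6 :: 5 :: l))
    (EnPr.prof (8 - 2) 5 (22 - (8 + 1) - 6 - 5)) = true := by
  decide +kernel

lemma e22_22_6_5_8_5 : EnPr.lall (fun l => EnPr.one 22 8 (9, 6, 6, 4) (6 :: 5 :: l))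
    (EnPr.prof (8 - 2) 5 (22 - (8 + 1) - 6 - 5)) = true := by
  decide +kernel

lemma e22_22_6_5_8_6 : EnPr.lall (fun l => EnPr.one 22 8 (9, 6, 7, 5) (6 :: 5 :: l))
    (EnPr.prof (8 - 2) 5 (22 - (8 + 1) - 6 - 5)) = true := by
  decide +kernel

lemma e22_22_6_5_9_0 : EnPr.lall (fun l => EnPr.one 22 9 (6, 3, 8, 6) (6 :: 5 :: l))
    (EnPr.prof (9 - 2) 5 (22 - (9 + 1) - 6 - 5)) = true := by
  decide +kernel

lemma e22_22_6_5_9_1 : EnPr.lall (fun l => EnPr.one 22 9 (7, 4, 8, 6) (6 :: 5 :: l))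
    (EnPr.prof (9 - 2) 5 (22 - (9 + 1) - 6 - 5)) = true := by
  decide +kernel

lemma e22_22_6_5_9_2 : EnPr.lall (fun l => EnPr.one 22 9 (8, 4, 7, 2) (6 :: 5 :: l))
    (EnPr.prof (9 - 2) 5 (22 - (9 + 1) - 6 - 5)) = true := by
  decide +kernel

lemma e22_22_6_5_9_3 : EnPr.lall (fun l => EnPr.one 22 9 (8, 4, 7, 3) (6 :: 5 :: l))
    (EnPr.prof (9 - 2) 5 (22 - (9 + 1) - 6 - 5)) = true := by
  decide +kernel

lemma e22_22_6_5_9_4 : EnPr.lall (fun l => EnPr.one 22 9 (8, 5, 8, 6) (6 :: 5 :: l))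
    (EnPr.prof (9 - 2) 5 (22 - (9 + 1) - 6 - 5)) = true := by
  decide +kernel

lemma e22_22_6_5_9_5 : EnPr.lall (fun l => EnPr.one 22 9 (9, 6, 6, 4) (6 :: 5 :: l))
    (EnPr.prof (9 - 2) 5 (22 - (9 + 1) - 6 - 5)) = true := by
  decide +kernel

lemma e22_22_6_5_9_6 : EnPr.lall (fun l => EnPr.one 22 9 (9, 6, 7, 5) (6 :: 5 :: l))
    (EnPr.prof (9 - 2) 5 (22 - (9 + 1) - 6 - 5)) = true := by
  decide +kernel

lemma e22_22_6_5_10_0 : EnPr.lall (fun l => EnPr.one 22 10 (6, 3, 8, 6) (6 :: 5 :: l))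
    (EnPr.prof (10 - 2) 5 (22 - (10 + 1) - 6 - 5)) = true := by
  decide +kernel

lemma e22_22_6_5_10_1 : EnPr.lall (fun l => EnPr.one 22 10 (7, 4, 8, 6) (6 :: 5 :: l))
    (EnPr.prof (10 - 2) 5 (22 - (10 + 1) - 6 - 5)) = true := by
  decide +kernel

lemma e22_22_6_5_10_2 : EnPr.lall (fun l => EnPr.one 22 10 (8, 4, 7, 2) (6 :: 5 :: l))
    (EnPr.prof (10 - 2) 5 (22 - (10 + 1) - 6 - 5)) = true := by
  decide +kernel

lemma e22_22_6_5_10_3 : EnPr.lall (fun l => EnPr.one 22 10 (8, 4, 7, 3) (6 :: 5 :: l))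
    (EnPr.prof (10 - 2) 5 (22 - (10 + 1) - 6 - 5)) = true := by
  decide +kernel

lemma e22_22_6_5_10_4 : EnPr.lall (fun l => EnPr.one 22 10 (8, 5, 8, 6) (6 :: 5 :: l))
    (EnPr.prof (10 - 2) 5 (22 - (10 + 1) - 6 - 5)) = true := by
  decide +kernel

lemma e22_22_6_5_10_5 : EnPr.lall (fun l => EnPr.one 22 10 (9, 6, 6, 4) (6 :: 5 :: l))
    (EnPr.prof (10 - 2) 5 (22 - (10 + 1) - 6 - 5)) = true := by
  decide +kernel

lemma e22_22_6_5_10_6 : EnPr.lall (fun l => EnPr.one 22 10 (9, 6, 7, 5) (6 :: 5 :: l))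
    (EnPr.prof (10 - 2) 5 (22 - (10 + 1) - 6 - 5)) = true := by
  decide +kernel

end BlkC

end Pool.Agent.Lib.MP_f04ccf_co
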