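import Pool.Agent.Lib.MP_f04ccf_co.M.BlkX22_22_6_5d

/-!
MP_f04ccf_co, block certificate with exceptions, `R = 22`, `H = 22`, the pair `(6, 5)` (data of helper99 / helper13,
generated by helper8, genx.py): part 1 of 5.
-/

set_option autoImplicit false
set_option maxRecDepth 100000

namespace Pool.Agent.Lib.MP_f04ccf_co

namespace BlkC

/-- a subtree -/
def t22_22_6_5_0 : BlkD.Tr :=
  .L 6 7 [4, 4, 5, 5, 6, 6] [] [] 100000 80000 80000 900000 100000 0 100000 50000 0 0 20000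

lemma s22_22_6_5_0 : BlkD.treeX d22_22_6_5 (BlkD.exF 6 5 x22_22_6_5) t22_22_6_5_0
    (fun _ => 0)
    (BlkD.upd (BlkD.upd (BlkD.upd (BlkD.upd (BlkD.upd (fun _ => 22) 0 6) 2 5) 0 3) 0 1) 0 0) = true := by
  decide +kernel

lemma n22_22_6_5_0 {n : ℕ} (hn : 5 ≤ n) : BlkD.NdX d22_22_6_5 (BlkD.exF 6 5 x22_22_6_5) n
    (fun _ => 0)
    (BlkD.upd (BlkD.upd (BlkD.upd (BlkD.upd (BlkD.upd (fun _ => 22) 0 6) 2 5) 0 3) 0 1) 0 0) :=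
  BlkD.NdX.tree s22_22_6_5_0 ok22_22_6_5 (by decide) hn

/-- a subtree -/
def t22_22_6_5_1 : BlkD.Tr :=
  .S 1 5 (.S 1 2 (.L 6 7 [4, 4, 5, 5, 6, 6] [] [] 100000 80000 80000 900000 100000 0 100000 50000 0
    0 20000) (.L 6 7 [4, 4, 5, 5, 6, 6] [] [] 100000 80000 80000 900000 100000 0 100000 50000 0 0
    20000)) (.S 1 8 (.L 6 7 [4, 4, 5, 5, 6, 6] [] [] 100000 80000 80000 900000 100000 0 100000
    50000 0 0 20000) (.L 6 7 [4, 4, 5, 5, 6, 6] [] [] 100000 80000 80000 900000 100000 0 100000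
    50000 0 0 20000))

lemma s22_22_6_5_1 : BlkD.treeX d22_22_6_5 (BlkD.exF 6 5 x22_22_6_5) t22_22_6_5_1
    (BlkD.upd (fun _ => 0) 0 1)
    (BlkD.upd (BlkD.upd (BlkD.upd (BlkD.upd (BlkD.upd (fun _ => 22) 0 6) 2 5) 0 3) 0 1) 1 11) = true := by
  decide +kernel

lemma n22_22_6_5_1 {n : ℕ} (hn : 5 ≤ n) : BlkD.NdX d22_22_6_5 (BlkD.exF 6 5 x22_22_6_5) n
    (BlkD.upd (fun _ => 0) 0 1)
    (BlkD.upd (BlkD.upd (BlkD.upd (BlkD.upd (BlkD.upd (fun _ => 22) 0 6) 2 5) 0 3) 0 1) 1 11) :=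
  BlkD.NdX.tree s22_22_6_5_1 ok22_22_6_5 (by decide) hn

/-- a subtree -/
def t22_22_6_5_2 : BlkD.Tr :=
  .L 6 7 [4, 4, 5, 5, 6, 6] [] [] 100000 80000 80000 900000 100000 0 100000 50000 0 0 20000

lemma s22_22_6_5_2 : BlkD.treeX d22_22_6_5 (BlkD.exF 6 5 x22_22_6_5) t22_22_6_5_2
    (BlkD.upd (BlkD.upd (fun _ => 0) 0 1) 1 12)
    (BlkD.upd (BlkD.upd (BlkD.upd (BlkD.upd (fun _ => 22) 0 6) 2 5) 0 3) 0 1) = true := by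
  decide +kernel

lemma n22_22_6_5_2 {n : ℕ} (hn : 5 ≤ n) : BlkD.NdX d22_22_6_5 (BlkD.exF 6 5 x22_22_6_5) n
    (BlkD.upd (BlkD.upd (fun _ => 0) 0 1) 1 12)
    (BlkD.upd (BlkD.upd (BlkD.upd (BlkD.upd (fun _ => 22) 0 6) 2 5) 0 3) 0 1) :=
  BlkD.NdX.tree s22_22_6_5_2 ok22_22_6_5 (by decide) hn

/-- a subtree -/
def t22_22_6_5_3 : BlkD.Tr :=
  .L 6 7 [4, 4, 5, 5, 6, 6] [] [] 100000 35000 35000 1100000 12500 0 12500 75000 0 25000 20000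

lemma s22_22_6_5_3 : BlkD.treeX d22_22_6_5 (BlkD.exF 6 5 x22_22_6_5) t22_22_6_5_3
    (BlkD.upd (fun _ => 0) 0 2)
    (BlkD.upd (BlkD.upd (BlkD.upd (BlkD.upd (BlkD.upd (BlkD.upd (BlkD.upd (BlkD.upd (fun _ => 22) 0 6) 2 5) 0 3) 0 2) 1 20) 1 10) 1 5) 1 2) = true := by
  decide +kernel

lemma n22_22_6_5_3 {n : ℕ} (hn : 5 ≤ n) : BlkD.NdX d22_22_6_5 (BlkD.exF 6 5 x22_22_6_5) n
    (BlkD.upd (fun _ => 0) 0 2)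
    (BlkD.upd (BlkD.upd (BlkD.upd (BlkD.upd (BlkD.upd (BlkD.upd (BlkD.upd (BlkD.upd (fun _ => 22) 0 6) 2 5) 0 3) 0 2) 1 20) 1 10) 1 5) 1 2) :=
  BlkD.NdX.tree s22_22_6_5_3 ok22_22_6_5 (by decide) hn

/-- a subtree -/
def t22_22_6_5_4 : BlkD.Tr :=
  .L 6 7 [4, 4, 5, 5, 6, 6] [54, 42, 30, 18, 0, 0] [] 100000 35000 35000 1200001 8333 0 8333 75000
    0 25000 20000

lemma s22_22_6_5_4 : BlkD.treeX d22_22_6_5 (BlkD.exF 6 5 x22_22_6_5) t22_22_6_5_4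
    (BlkD.upd (BlkD.upd (fun _ => 0) 0 2) 1 3)
    (BlkD.upd (BlkD.upd (BlkD.upd (BlkD.upd (BlkD.upd (BlkD.upd (BlkD.upd (BlkD.upd (BlkD.upd (fun _ => 22) 0 6) 2 5) 0 3) 0 2) 1 20) 1 10) 1 5) 1 4) 1 3) = true := by
  decide +kernel

lemma n22_22_6_5_4 {n : ℕ} (hn : 5 ≤ n) : BlkD.NdX d22_22_6_5 (BlkD.exF 6 5 x22_22_6_5) n
    (BlkD.upd (BlkD.upd (fun _ => 0) 0 2) 1 3)
    (BlkD.upd (BlkD.upd (BlkD.upd (BlkD.upd (BlkD.upd (BlkD.upd (BlkD.upd (BlkD.upd (BlkD.upd (fun _ => 22) 0 6) 2 5) 0 3) 0 2) 1 20) 1 10) 1 5) 1 4) 1 3) :=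
  BlkD.NdX.tree s22_22_6_5_4 ok22_22_6_5 (by decide) hn

/-- a subtree -/
def t22_22_6_5_5 : BlkD.Tr :=
  .S 2 1 (.L 6 7 [4, 4, 5, 5, 6, 6] [74, 64, 52, 40, 28, 0] [] 100000 58784 58784 1101353 27027
    45270 63514 63514 0 2703 31757) (.S 3 14 (.S 3 7 (.S 3 3 (.L 6 7 [4, 4, 5, 5, 6, 6] [74, 64,
    52, 40, 28, 0] [] 100000 40000 40000 1100000 0 0 0 0 0 0 20000) (.S 3 5 (.S 3 4 (.L 7 8 [4, 5,
    5, 4, 5, 5] [74, 64, 52, 40, 28, 0] [72, 62, 52, 40, 28, 0] 100000 38000 38000 1180000 20000 0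
    20000 40000 0 10000 30000) (.S 4 4 (.S 4 2 (.S 4 1 (.S 4 0 (.S 5 5 (.S 5 2 (.L 7 8 [4, 5, 5, 4,
    5, 5] [28, 0, 0, 0, 0, 0] [64, 52, 40, 0, 0, 0] 100000 43750 43750 1161459 39583 19792 0 39583
    0 20833 20833) (.L 4 4 [4, 5, 6, 8, 9, 10] [28, 0, 0, 0, 0, 0] [87, 84, 74, 64, 52, 40] 100000
    40000 40000 1190910 18182 0 0 72727 0 36364 20000)) (.E 2)) (.L 4 4 [4, 5, 6, 8, 9, 10] [40,
    28, 0, 0, 0, 0] [87, 84, 74, 64, 52, 40] 100000 30000 30000 1200000 0 0 100000 50000 0 50000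
    25000)) (.L 4 4 [4, 5, 6, 8, 9, 10] [52, 40, 28, 0, 0, 0] [87, 84, 74, 64, 52, 40] 100000 35863
    28966 1086207 0 0 106897 53448 0 13793 17241)) (.L 4 4 [4, 5, 6, 8, 9, 10] [74, 64, 52, 40, 28,
    0] [87, 84, 74, 64, 52, 40] 100000 60000 0 820000 0 0 160000 80000 0 0 10000)) (.E 2))) (.S 3 6
    (.S 4 4 (.S 4 2 (.S 4 1 (.S 4 0 (.S 5 6 (.S 5 3 (.L 6 7 [4, 4, 5, 5, 6, 6] [28, 0, 0, 0, 0, 0]
    [88, 78, 66, 54, 0, 0] 100000 50000 50000 1125000 62500 0 0 25000 0 50000 25000) (.L 4 4 [4, 5,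
    6, 8, 9, 10] [28, 0, 0, 0, 0, 0] [104, 101, 98, 88, 78, 66] 100000 66667 66667 1033332 41667 0
    0 100000 0 0 33333)) (.E 2)) (.L 4 4 [4, 5, 6, 8, 9, 10] [40, 28, 0, 0, 0, 0] [104, 101, 98,
    88, 78, 66] 100000 40000 40000 1175000 25000 0 100000 50000 0 50000 25000)) (.L 4 4 [4, 5, 6,
    8, 9, 10] [52, 40, 28, 0, 0, 0] [104, 101, 98, 88, 78, 66] 100000 25000 16667 1150001 0 0
    108333 33333 0 66667 25000)) (.L 4 4 [4, 5, 6, 8, 9, 10] [74, 64, 52, 40, 28, 0] [104, 101, 98,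
    88, 78, 66] 100000 54167 0 866666 0 0 154167 70833 0 0 12500)) (.E 2)) (.E 1)))) (.E 1)) (.E
    1))

lemma s22_22_6_5_5 : BlkD.treeX d22_22_6_5 (BlkD.exF 6 5 x22_22_6_5) t22_22_6_5_5
    (BlkD.upd (BlkD.upd (BlkD.upd (fun _ => 0) 0 2) 1 3) 1 4)
    (BlkD.upd (BlkD.upd (BlkD.upd (BlkD.upd (BlkD.upd (BlkD.upd (BlkD.upd (BlkD.upd (BlkD.upd (fun _ => 22) 0 6) 2 5) 0 3) 0 2) 1 20) 1 10) 1 5) 1 4) 2 2) = true := by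
  decide +kernel

lemma n22_22_6_5_5 {n : ℕ} (hn : 5 ≤ n) : BlkD.NdX d22_22_6_5 (BlkD.exF 6 5 x22_22_6_5) n
    (BlkD.upd (BlkD.upd (BlkD.upd (fun _ => 0) 0 2) 1 3) 1 4)
    (BlkD.upd (BlkD.upd (BlkD.upd (BlkD.upd (BlkD.upd (BlkD.upd (BlkD.upd (BlkD.upd (BlkD.upd (fun _ => 22) 0 6) 2 5) 0 3) 0 2) 1 20) 1 10) 1 5) 1 4) 2 2) :=
  BlkD.NdX.tree s22_22_6_5_5 ok22_22_6_5 (by decide) hn

/-- a subtree -/
def t22_22_6_5_6 : BlkD.Tr :=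
  .S 2 4 (.S 2 3 (.S 3 13 (.S 3 6 (.S 3 3 (.L 6 7 [4, 4, 5, 5, 6, 6] [74, 64, 52, 40, 28, 0] []
    100000 37392 37392 1204347 4348 0 4348 13043 0 13043 17391) (.S 3 5 (.S 3 4 (.S 4 4 (.S 4 2 (.S
    4 1 (.L 6 7 [4, 4, 5, 5, 6, 6] [40, 28, 0, 0, 0, 0] [80, 70, 60, 48, 36, 0] 100000 30000 30000
    1225000 25000 0 25000 37500 0 50000 25000) (.L 6 7 [4, 4, 5, 5, 6, 6] [52, 40, 28, 0, 0, 0]
    [80, 70, 60, 48, 36, 0] 100000 36487 36487 1089189 10811 0 100000 44595 0 21622 16216)) (.L 6 7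
    [4, 4, 5, 5, 6, 6] [74, 64, 52, 40, 28, 0] [80, 70, 60, 48, 36, 0] 100000 60000 0 820000 0 0
    160000 80000 0 0 10000)) (.E 2)) (.L 6 7 [4, 4, 5, 5, 6, 6] [74, 64, 52, 40, 28, 0] [97, 94,
    84, 74, 62, 50] 100000 66667 66667 1033332 41667 0 41667 100000 0 0 33333)) (.E 1))) (.E 1))
    (.E 1)) (.S 3 12 (.S 3 6 (.S 3 3 (.L 6 7 [4, 4, 5, 5, 6, 6] [74, 64, 52, 40, 28, 0] [] 100000
    32000 32000 1220000 20000 0 20000 40000 0 60000 20000) (.S 3 5 (.S 3 4 (.L 6 7 [4, 4, 5, 5, 6,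
    6] [74, 64, 52, 40, 28, 0] [88, 78, 68, 56, 44, 0] 100000 66667 66667 1033332 41667 0 41667
    100000 0 0 33333) (.E 1)) (.E 1))) (.E 1)) (.E 1))) (.L 6 7 [4, 4, 5, 5, 6, 6] [74, 64, 52, 40,
    28, 0] [] 100000 50000 50000 1100000 50000 0 50000 0 0 75000 25000)

lemma s22_22_6_5_6 : BlkD.treeX d22_22_6_5 (BlkD.exF 6 5 x22_22_6_5) t22_22_6_5_6
    (BlkD.upd (BlkD.upd (BlkD.upd (BlkD.upd (fun _ => 0) 0 2) 1 3) 1 4) 2 3)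
    (BlkD.upd (BlkD.upd (BlkD.upd (BlkD.upd (BlkD.upd (BlkD.upd (BlkD.upd (BlkD.upd (fun _ => 22) 0 6) 2 5) 0 3) 0 2) 1 20) 1 10) 1 5) 1 4) = true := by
  decide +kernel

lemma n22_22_6_5_6 {n : ℕ} (hn : 5 ≤ n) : BlkD.NdX d22_22_6_5 (BlkD.exF 6 5 x22_22_6_5) n
    (BlkD.upd (BlkD.upd (BlkD.upd (BlkD.upd (fun _ => 0) 0 2) 1 3) 1 4) 2 3)
    (BlkD.upd (BlkD.upd (BlkD.upd (BlkD.upd (BlkD.upd (BlkD.upd (BlkD.upd (BlkD.upd (fun _ => 22) 0 6) 2 5) 0 3) 0 2) 1 20) 1 10) 1 5) 1 4) :=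
  BlkD.NdX.tree s22_22_6_5_6 ok22_22_6_5 (by decide) hn

/-- a subtree -/
def t22_22_6_5_7 : BlkD.Tr :=
  .S 2 0 (.L 6 7 [4, 4, 5, 5, 6, 6] [94, 86, 76, 64, 52, 40] [] 100000 60000 60000 800000 0 0
    100000 100000 0 0 0) (.S 3 14 (.S 3 7 (.S 3 3 (.L 6 7 [4, 4, 5, 5, 6, 6] [94, 86, 76, 64, 52,
    40] [] 100000 40000 40000 1100000 0 0 0 0 0 0 20000) (.S 3 5 (.L 6 7 [4, 4, 5, 5, 6, 6] [94,
    86, 76, 64, 52, 40] [] 100000 58986 58986 1102238 27687 43508 62296 57352 1978 0 20507) (.S 3 6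
    (.L 4 4 [4, 5, 6, 8, 9, 10] [94, 86, 76, 64, 52, 40] [92, 89, 86, 76, 66, 54] 100000 53847
    53847 1123076 0 69231 69231 69231 0 0 23077) (.S 4 5 (.S 4 2 (.L 6 7 [4, 4, 5, 5, 6, 6] [64,
    52, 40, 0, 0, 0] [109, 106, 103, 100, 90, 80] 100000 46954 46954 1162499 33047 33750 59297
    44766 703 15234 20000) (.L 6 7 [4, 4, 5, 5, 6, 6] [94, 86, 76, 64, 52, 40] [109, 106, 103, 100,
    90, 80] 100000 35000 0 1020000 0 15000 135000 30000 0 45000 25000)) (.E 2))))) (.E 1)) (.E 1))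

lemma s22_22_6_5_7 : BlkD.treeX d22_22_6_5 (BlkD.exF 6 5 x22_22_6_5) t22_22_6_5_7
    (BlkD.upd (BlkD.upd (BlkD.upd (fun _ => 0) 0 2) 1 3) 1 5)
    (BlkD.upd (BlkD.upd (BlkD.upd (BlkD.upd (BlkD.upd (BlkD.upd (BlkD.upd (BlkD.upd (BlkD.upd (fun _ => 22) 0 6) 2 5) 0 3) 0 2) 1 20) 1 10) 1 5) 2 2) 2 1) = true := by
  decide +kernel

lemma n22_22_6_5_7 {n : ℕ} (hn : 5 ≤ n) : BlkD.NdX d22_22_6_5 (BlkD.exF 6 5 x22_22_6_5) n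
    (BlkD.upd (BlkD.upd (BlkD.upd (fun _ => 0) 0 2) 1 3) 1 5)
    (BlkD.upd (BlkD.upd (BlkD.upd (BlkD.upd (BlkD.upd (BlkD.upd (BlkD.upd (BlkD.upd (BlkD.upd (fun _ => 22) 0 6) 2 5) 0 3) 0 2) 1 20) 1 10) 1 5) 2 2) 2 1) :=
  BlkD.NdX.tree s22_22_6_5_7 ok22_22_6_5 (by decide) hn

/-- a subtree -/
def t22_22_6_5_8 : BlkD.Tr :=
  .S 3 13 (.S 3 6 (.S 3 3 (.L 6 7 [4, 4, 5, 5, 6, 6] [94, 86, 76, 64, 52, 40] [] 100000 38345 38344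
    1206208 10345 0 82759 72414 2069 12414 24828) (.S 3 5 (.S 3 4 (.S 4 5 (.S 4 2 (.S 4 1 (.L 6 7
    [4, 4, 5, 5, 6, 6] [52, 40, 0, 0, 0, 0] [72, 62, 52, 40, 28, 0] 100000 20684 20684 1287694
    19316 3077 41880 51966 35556 25470 25812) (.L 6 7 [4, 4, 5, 5, 6, 6] [64, 52, 40, 0, 0, 0] [72,
    62, 52, 40, 28, 0] 100000 34375 34374 1188194 4514 4514 98264 51389 0 28125 25000)) (.L 6 7 [4,
    4, 5, 5, 6, 6] [94, 86, 76, 64, 52, 40] [72, 62, 52, 40, 28, 0] 100000 35863 28966 1086207 0 0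
    106897 53448 0 13793 17241)) (.E 2)) (.S 4 5 (.S 4 2 (.S 4 1 (.L 6 7 [4, 4, 5, 5, 6, 6] [52,
    40, 0, 0, 0, 0] [87, 84, 74, 64, 52, 40] 100000 15385 15385 1315020 20879 366 41758 41758 41026
    41026 23077) (.L 6 7 [4, 4, 5, 5, 6, 6] [64, 52, 40, 0, 0, 0] [87, 84, 74, 64, 52, 40] 100000
    30000 30000 1200000 0 0 100000 50000 0 50000 25000)) (.L 6 7 [4, 4, 5, 5, 6, 6] [94, 86, 76,
    64, 52, 40] [87, 84, 74, 64, 52, 40] 100000 40000 15000 1025000 0 0 125000 62500 0 12500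
    25000)) (.E 2))) (.S 4 5 (.S 4 2 (.S 4 1 (.S 4 0 (.L 6 7 [4, 4, 5, 5, 6, 6] [40, 0, 0, 0, 0, 0]
    [104, 101, 98, 88, 78, 66] 100000 75000 75000 935940 89062 0 0 59375 50000 15625 25000) (.S 5 6
    (.S 5 3 (.S 5 1 (.E 2) (.S 5 2 (.E 2) (.L 9 10 [5, 6, 7, 3, 4, 4] [52, 40, 0, 0, 0, 0] [88, 78,
    66, 54, 0, 0] 100000 50000 50000 1125000 70000 0 70000 25000 5000 50000 25000))) (.L 6 7 [4, 4,
    5, 5, 6, 6] [52, 40, 0, 0, 0, 0] [104, 101, 98, 88, 78, 66] 100000 20000 20000 1275000 0 0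
    25000 100000 50000 25000 25000)) (.E 2))) (.L 6 7 [4, 4, 5, 5, 6, 6] [64, 52, 40, 0, 0, 0]
    [104, 101, 98, 88, 78, 66] 100000 27500 27500 1237500 12500 0 100000 25000 0 50000 25000)) (.L
    6 7 [4, 4, 5, 5, 6, 6] [94, 86, 76, 64, 52, 40] [104, 101, 98, 88, 78, 66] 100000 25000 0
    1100000 0 0 125000 25000 0 50000 25000)) (.E 2)))) (.E 1)) (.E 1)

lemma s22_22_6_5_8 : BlkD.treeX d22_22_6_5 (BlkD.exF 6 5 x22_22_6_5) t22_22_6_5_8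
    (BlkD.upd (BlkD.upd (BlkD.upd (BlkD.upd (fun _ => 0) 0 2) 1 3) 1 5) 2 2)
    (BlkD.upd (BlkD.upd (BlkD.upd (BlkD.upd (BlkD.upd (BlkD.upd (BlkD.upd (BlkD.upd (fun _ => 22) 0 6) 2 5) 0 3) 0 2) 1 20) 1 10) 1 5) 2 2) = true := by
  decide +kernel

lemma n22_22_6_5_8 {n : ℕ} (hn : 5 ≤ n) : BlkD.NdX d22_22_6_5 (BlkD.exF 6 5 x22_22_6_5) n
    (BlkD.upd (BlkD.upd (BlkD.upd (BlkD.upd (fun _ => 0) 0 2) 1 3) 1 5) 2 2)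
    (BlkD.upd (BlkD.upd (BlkD.upd (BlkD.upd (BlkD.upd (BlkD.upd (BlkD.upd (BlkD.upd (fun _ => 22) 0 6) 2 5) 0 3) 0 2) 1 20) 1 10) 1 5) 2 2) :=
  BlkD.NdX.tree s22_22_6_5_8 ok22_22_6_5 (by decide) hn

/-- a subtree -/
def t22_22_6_5_9 : BlkD.Tr :=
  .S 2 4 (.S 2 3 (.S 3 12 (.S 3 6 (.S 3 3 (.S 3 1 (.L 6 7 [4, 4, 5, 5, 6, 6] [94, 86, 76, 64, 52,
    40] [] 100000 40000 40000 1100000 0 0 0 0 0 0 20000) (.S 3 2 (.L 6 7 [4, 4, 5, 5, 6, 6] [94,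
    86, 76, 64, 52, 40] [38, 26, 14, 0, 0, 0] 100000 37795 37794 1197247 8268 0 82677 74409 2756
    11024 25000) (.L 5 6 [4, 4, 5, 6, 7, 7] [94, 86, 76, 64, 52, 40] [58, 48, 36, 24, 0, 0] 100000
    28750 28750 1243750 18750 0 65625 37500 9375 37500 37500))) (.S 3 5 (.S 3 4 (.S 4 5 (.S 4 2 (.S
    4 1 (.L 5 6 [4, 4, 5, 6, 7, 7] [52, 40, 0, 0, 0, 0] [80, 70, 60, 48, 36, 0] 100000 23334 23334
    1261111 27778 0 55556 33333 27778 38889 27778) (.L 5 6 [4, 4, 5, 6, 7, 7] [64, 52, 40, 0, 0, 0]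
    [80, 70, 60, 48, 36, 0] 100000 31389 31388 1183333 18056 0 90278 36111 0 54167 25000)) (.L 5 6
    [4, 4, 5, 6, 7, 7] [94, 86, 76, 64, 52, 40] [80, 70, 60, 48, 36, 0] 100000 40000 15000 1025000
    0 0 125000 62500 0 12500 25000)) (.E 2)) (.S 4 5 (.S 4 2 (.L 5 6 [4, 4, 5, 6, 7, 7] [64, 52,
    40, 0, 0, 0] [97, 94, 84, 74, 62, 50] 100000 50000 50000 1142859 32857 0 75714 75000 7143 0
    25000) (.L 5 6 [4, 4, 5, 6, 7, 7] [94, 86, 76, 64, 52, 40] [97, 94, 84, 74, 62, 50] 100000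
    50000 0 900000 0 0 150000 75000 0 0 25000)) (.E 2))) (.E 1))) (.E 1)) (.E 1)) (.S 3 11 (.S 3 5
    (.S 3 2 (.L 5 6 [4, 4, 5, 6, 7, 7] [94, 86, 76, 64, 52, 40] [] 100000 28750 28750 1243750 18750
    0 65625 37500 9375 37500 37500) (.S 3 4 (.S 3 3 (.S 4 5 (.S 4 2 (.L 5 6 [4, 4, 5, 6, 7, 7] [64,
    52, 40, 0, 0, 0] [64, 54, 42, 30, 0, 0] 100000 25834 25834 1254168 20833 0 66667 41667 8333
    70833 25000) (.L 5 6 [4, 4, 5, 6, 7, 7] [94, 86, 76, 64, 52, 40] [64, 54, 42, 30, 0, 0] 100000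
    40000 0 980000 0 0 140000 0 0 20000 15000)) (.E 2)) (.S 4 5 (.S 4 2 (.L 5 6 [4, 4, 5, 6, 7, 7]
    [64, 52, 40, 0, 0, 0] [88, 78, 68, 56, 44, 0] 100000 50000 50000 1142859 32857 0 75714 75000
    7143 0 25000) (.L 5 6 [4, 4, 5, 6, 7, 7] [94, 86, 76, 64, 52, 40] [88, 78, 68, 56, 44, 0]
    100000 50000 0 900000 0 0 150000 75000 0 0 25000)) (.E 2))) (.E 1))) (.E 1)) (.E 1))) (.L 5 6
    [4, 4, 5, 6, 7, 7] [94, 86, 76, 64, 52, 40] [] 100000 57754 57754 1093049 55615 0 84492 28877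
    4813 42246 28877)

lemma s22_22_6_5_9 : BlkD.treeX d22_22_6_5 (BlkD.exF 6 5 x22_22_6_5) t22_22_6_5_9
    (BlkD.upd (BlkD.upd (BlkD.upd (BlkD.upd (fun _ => 0) 0 2) 1 3) 1 5) 2 3)
    (BlkD.upd (BlkD.upd (BlkD.upd (BlkD.upd (BlkD.upd (BlkD.upd (BlkD.upd (fun _ => 22) 0 6) 2 5) 0 3) 0 2) 1 20) 1 10) 1 5) = true := by
  decide +kernel

lemma n22_22_6_5_9 {n : ℕ} (hn : 5 ≤ n) : BlkD.NdX d22_22_6_5 (BlkD.exF 6 5 x22_22_6_5) n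
    (BlkD.upd (BlkD.upd (BlkD.upd (BlkD.upd (fun _ => 0) 0 2) 1 3) 1 5) 2 3)
    (BlkD.upd (BlkD.upd (BlkD.upd (BlkD.upd (BlkD.upd (BlkD.upd (BlkD.upd (fun _ => 22) 0 6) 2 5) 0 3) 0 2) 1 20) 1 10) 1 5) :=
  BlkD.NdX.tree s22_22_6_5_9 ok22_22_6_5 (by decide) hn

/-- a subtree -/
def t22_22_6_5_10 : BlkD.Tr :=
  .S 2 0 (.L 5 6 [4, 4, 5, 6, 7, 7] [108, 108, 100, 90, 78, 66] [] 100000 60000 60000 900001 0 0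
    33333 100000 0 0 0) (.S 3 13 (.S 3 6 (.S 3 3 (.L 5 6 [4, 4, 5, 6, 7, 7] [108, 108, 100, 90, 78,
    66] [] 100000 54000 54000 1060000 0 70000 70000 70000 0 0 20000) (.S 3 5 (.L 5 6 [4, 4, 5, 6,
    7, 7] [108, 108, 100, 90, 78, 66] [] 100000 53847 53847 1123076 0 69231 69231 69231 0 0 23077)
    (.S 4 6 (.S 4 3 (.L 5 6 [4, 4, 5, 6, 7, 7] [90, 78, 66, 54, 0, 0] [92, 89, 86, 76, 66, 54]
    100000 60684 60684 1093165 35897 47863 59829 59829 0 0 19658) (.L 5 6 [4, 4, 5, 6, 7, 7] [108,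
    108, 100, 90, 78, 66] [92, 89, 86, 76, 66, 54] 100000 50000 0 900000 0 0 150000 75000 0 0
    25000)) (.E 2)))) (.S 3 10 (.S 3 8 (.S 3 7 (.L 2 2 [7, 9, 11, 13, 15, 17] [108, 108, 100, 90,
    78, 66] [109, 106, 103, 100, 90, 80] 100000 57144 57144 1099997 0 71429 71429 71429 0 0 21429)
    (.E 1)) (.E 1)) (.E 1))) (.E 1))

lemma s22_22_6_5_10 : BlkD.treeX d22_22_6_5 (BlkD.exF 6 5 x22_22_6_5) t22_22_6_5_10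
    (BlkD.upd (BlkD.upd (fun _ => 0) 0 2) 1 6)
    (BlkD.upd (BlkD.upd (BlkD.upd (BlkD.upd (BlkD.upd (BlkD.upd (BlkD.upd (BlkD.upd (BlkD.upd (BlkD.upd (BlkD.upd (fun _ => 22) 0 6) 2 5) 0 3) 0 2) 1 20) 1 10) 1 8) 1 7) 1 6) 2 2) 2 1) = true := by
  decide +kernel

lemma n22_22_6_5_10 {n : ℕ} (hn : 5 ≤ n) : BlkD.NdX d22_22_6_5 (BlkD.exF 6 5 x22_22_6_5) n
    (BlkD.upd (BlkD.upd (fun _ => 0) 0 2) 1 6)
    (BlkD.upd (BlkD.upd (BlkD.upd (BlkD.upd (BlkD.upd (BlkD.upd (BlkD.upd (BlkD.upd (BlkD.upd (BlkD.upd (BlkD.upd (fun _ => 22) 0 6) 2 5) 0 3) 0 2) 1 20) 1 10) 1 8) 1 7) 1 6) 2 2) 2 1) :=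
  BlkD.NdX.tree s22_22_6_5_10 ok22_22_6_5 (by decide) hn

/-- a subtree -/
def t22_22_6_5_11 : BlkD.Tr :=
  .S 3 1 (.L 2 2 [7, 9, 11, 13, 15, 17] [108, 108, 100, 90, 78, 66] [] 100000 40000 40000 1100000 0
    0 0 0 0 0 20000) (.S 3 2 (.L 2 2 [7, 9, 11, 13, 15, 17] [108, 108, 100, 90, 78, 66] [34, 22,
    10, 0, 0, 0] 100000 34286 34286 1214288 0 0 85714 0 14286 0 20000) (.S 4 6 (.S 4 3 (.S 4 1 (.L
    6 7 [4, 4, 5, 5, 6, 6] [66, 54, 0, 0, 0, 0] [52, 42, 30, 18, 0, 0] 100000 32941 32940 1217649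
    35294 0 35294 58824 11765 11765 23529) (.S 4 2 (.L 6 7 [4, 4, 5, 5, 6, 6] [78, 66, 54, 0, 0, 0]
    [52, 42, 30, 18, 0, 0] 100000 33793 33792 1215518 25000 19828 50000 62069 25000 10345 25000)
    (.L 6 7 [4, 4, 5, 5, 6, 6] [90, 78, 66, 54, 0, 0] [52, 42, 30, 18, 0, 0] 100000 36667 36666
    1186112 5556 5556 97222 55556 0 16667 22222))) (.L 6 7 [4, 4, 5, 5, 6, 6] [108, 108, 100, 90,
    78, 66] [52, 42, 30, 18, 0, 0] 100000 40000 40000 1100000 0 0 100000 0 0 0 20000)) (.E 2)))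

lemma s22_22_6_5_11 : BlkD.treeX d22_22_6_5 (BlkD.exF 6 5 x22_22_6_5) t22_22_6_5_11
    (BlkD.upd (BlkD.upd (BlkD.upd (fun _ => 0) 0 2) 1 6) 2 2)
    (BlkD.upd (BlkD.upd (BlkD.upd (BlkD.upd (BlkD.upd (BlkD.upd (BlkD.upd (BlkD.upd (BlkD.upd (BlkD.upd (BlkD.upd (BlkD.upd (BlkD.upd (fun _ => 22) 0 6) 2 5) 0 3) 0 2) 1 20) 1 10) 1 8) 1 7) 1 6) 2 2) 3 12) 3 6) 3 3) = true := by
  decide +kernel

lemma n22_22_6_5_11 {n : ℕ} (hn : 5 ≤ n) : BlkD.NdX d22_22_6_5 (BlkD.exF 6 5 x22_22_6_5) n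
    (BlkD.upd (BlkD.upd (BlkD.upd (fun _ => 0) 0 2) 1 6) 2 2)
    (BlkD.upd (BlkD.upd (BlkD.upd (BlkD.upd (BlkD.upd (BlkD.upd (BlkD.upd (BlkD.upd (BlkD.upd (BlkD.upd (BlkD.upd (BlkD.upd (BlkD.upd (fun _ => 22) 0 6) 2 5) 0 3) 0 2) 1 20) 1 10) 1 8) 1 7) 1 6) 2 2) 3 12) 3 6) 3 3) :=
  BlkD.NdX.tree s22_22_6_5_11 ok22_22_6_5 (by decide) hn

/-- a subtree -/
def t22_22_6_5_12 : BlkD.Tr :=
  .S 3 4 (.S 4 6 (.S 4 3 (.S 4 1 (.S 4 0 (.L 6 7 [4, 4, 5, 5, 6, 6] [54, 0, 0, 0, 0, 0] [72, 62,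
    52, 40, 28, 0] 100000 30000 30000 1200000 50000 0 0 25000 25000 25000 25000) (.S 5 4 (.S 5 2
    (.L 6 7 [4, 4, 5, 5, 6, 6] [66, 54, 0, 0, 0, 0] [52, 40, 28, 0, 0, 0] 100000 33334 33334
    1226666 46667 0 66667 33333 0 33333 23333) (.L 6 7 [4, 4, 5, 5, 6, 6] [66, 54, 0, 0, 0, 0] [72,
    62, 52, 40, 28, 0] 100000 25000 25000 1181250 6250 0 6250 100000 40625 0 34375)) (.E 2))) (.S 4
    2 (.L 6 7 [4, 4, 5, 5, 6, 6] [78, 66, 54, 0, 0, 0] [72, 62, 52, 40, 28, 0] 100000 24035 24034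
    1272810 23684 7018 47368 47368 28947 21930 22807) (.L 6 7 [4, 4, 5, 5, 6, 6] [90, 78, 66, 54,
    0, 0] [72, 62, 52, 40, 28, 0] 100000 34000 34000 1188572 2857 2857 100000 52857 0 30000
    25000))) (.L 6 7 [4, 4, 5, 5, 6, 6] [108, 108, 100, 90, 78, 66] [72, 62, 52, 40, 28, 0] 100000
    40000 15000 1025000 0 0 125000 62500 0 12500 25000)) (.E 2)) (.S 4 6 (.S 4 3 (.S 4 1 (.S 4 0
    (.L 2 2 [7, 9, 11, 13, 15, 17] [54, 0, 0, 0, 0, 0] [87, 84, 74, 64, 52, 40] 100000 66667 66667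
    1033335 33333 50000 0 66667 66667 33333 33333) (.S 5 5 (.S 5 2 (.L 6 7 [4, 4, 5, 5, 6, 6] [66,
    54, 0, 0, 0, 0] [64, 52, 40, 0, 0, 0] 100000 34483 34483 1215518 41379 12069 100000 24138 0
    48276 17241) (.L 6 7 [4, 4, 5, 5, 6, 6] [66, 54, 0, 0, 0, 0] [87, 84, 74, 64, 52, 40] 100000
    40000 40000 1170000 30000 0 60000 90000 30000 0 20000)) (.E 2))) (.S 4 2 (.L 6 7 [4, 4, 5, 5,
    6, 6] [78, 66, 54, 0, 0, 0] [87, 84, 74, 64, 52, 40] 100000 16000 16000 1315000 20000 0 55000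
    35000 25000 35000 20000) (.L 6 7 [4, 4, 5, 5, 6, 6] [90, 78, 66, 54, 0, 0] [87, 84, 74, 64, 52,
    40] 100000 30000 30000 1200000 0 0 100000 50000 0 25000 25000))) (.L 6 7 [4, 4, 5, 5, 6, 6]
    [108, 108, 100, 90, 78, 66] [87, 84, 74, 64, 52, 40] 100000 50000 0 900000 0 0 150000 75000 0 0
    25000)) (.E 2))

lemma s22_22_6_5_12 : BlkD.treeX d22_22_6_5 (BlkD.exF 6 5 x22_22_6_5) t22_22_6_5_12
    (BlkD.upd (BlkD.upd (BlkD.upd (BlkD.upd (fun _ => 0) 0 2) 1 6) 2 2) 3 4)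
    (BlkD.upd (BlkD.upd (BlkD.upd (BlkD.upd (BlkD.upd (BlkD.upd (BlkD.upd (BlkD.upd (BlkD.upd (BlkD.upd (BlkD.upd (BlkD.upd (BlkD.upd (fun _ => 22) 0 6) 2 5) 0 3) 0 2) 1 20) 1 10) 1 8) 1 7) 1 6) 2 2) 3 12) 3 6) 3 5) = true := by
  decide +kernel

lemma n22_22_6_5_12 {n : ℕ} (hn : 5 ≤ n) : BlkD.NdX d22_22_6_5 (BlkD.exF 6 5 x22_22_6_5) n
    (BlkD.upd (BlkD.upd (BlkD.upd (BlkD.upd (fun _ => 0) 0 2) 1 6) 2 2) 3 4)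
    (BlkD.upd (BlkD.upd (BlkD.upd (BlkD.upd (BlkD.upd (BlkD.upd (BlkD.upd (BlkD.upd (BlkD.upd (BlkD.upd (BlkD.upd (BlkD.upd (BlkD.upd (fun _ => 22) 0 6) 2 5) 0 3) 0 2) 1 20) 1 10) 1 8) 1 7) 1 6) 2 2) 3 12) 3 6) 3 5) :=
  BlkD.NdX.tree s22_22_6_5_12 ok22_22_6_5 (by decide) hn

/-- a subtree -/
def t22_22_6_5_13 : BlkD.Tr :=
  .S 4 6 (.S 4 3 (.S 4 1 (.L 6 7 [4, 4, 5, 5, 6, 6] [66, 54, 0, 0, 0, 0] [104, 101, 98, 88, 78, 66]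
    100000 40000 40000 1183750 56250 0 60000 37500 3750 25000 20000) (.S 4 2 (.L 6 7 [4, 4, 5, 5,
    6, 6] [78, 66, 54, 0, 0, 0] [104, 101, 98, 88, 78, 66] 100000 44186 44186 1167443 55814 0 67442
    37209 0 29070 22093) (.L 6 7 [4, 4, 5, 5, 6, 6] [90, 78, 66, 54, 0, 0] [104, 101, 98, 88, 78,
    66] 100000 26667 26667 1233332 16667 0 100000 16667 0 58333 25000))) (.L 6 7 [4, 4, 5, 5, 6, 6]
    [108, 108, 100, 90, 78, 66] [104, 101, 98, 88, 78, 66] 100000 45455 0 936361 0 27273 145455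
    27273 0 27273 22727)) (.E 2)

lemma s22_22_6_5_13 : BlkD.treeX d22_22_6_5 (BlkD.exF 6 5 x22_22_6_5) t22_22_6_5_13
    (BlkD.upd (BlkD.upd (BlkD.upd (BlkD.upd (BlkD.upd (fun _ => 0) 0 2) 1 6) 2 2) 3 4) 3 6)
    (BlkD.upd (BlkD.upd (BlkD.upd (BlkD.upd (BlkD.upd (BlkD.upd (BlkD.upd (BlkD.upd (BlkD.upd (BlkD.upd (BlkD.upd (BlkD.upd (fun _ => 22) 0 6) 2 5) 0 3) 0 2) 1 20) 1 10) 1 8) 1 7) 1 6) 2 2) 3 12) 3 6) = true := by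
  decide +kernel

lemma n22_22_6_5_13 {n : ℕ} (hn : 5 ≤ n) : BlkD.NdX d22_22_6_5 (BlkD.exF 6 5 x22_22_6_5) n
    (BlkD.upd (BlkD.upd (BlkD.upd (BlkD.upd (BlkD.upd (fun _ => 0) 0 2) 1 6) 2 2) 3 4) 3 6)
    (BlkD.upd (BlkD.upd (BlkD.upd (BlkD.upd (BlkD.upd (BlkD.upd (BlkD.upd (BlkD.upd (BlkD.upd (BlkD.upd (BlkD.upd (BlkD.upd (fun _ => 22) 0 6) 2 5) 0 3) 0 2) 1 20) 1 10) 1 8) 1 7) 1 6) 2 2) 3 12) 3 6) :=
  BlkD.NdX.tree s22_22_6_5_13 ok22_22_6_5 (by decide) hn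

/-- a subtree -/
def t22_22_6_5_14 : BlkD.Tr :=
  .E 1

lemma s22_22_6_5_14 : BlkD.treeX d22_22_6_5 (BlkD.exF 6 5 x22_22_6_5) t22_22_6_5_14
    (BlkD.upd (BlkD.upd (BlkD.upd (BlkD.upd (fun _ => 0) 0 2) 1 6) 2 2) 3 7)
    (BlkD.upd (BlkD.upd (BlkD.upd (BlkD.upd (BlkD.upd (BlkD.upd (BlkD.upd (BlkD.upd (BlkD.upd (BlkD.upd (BlkD.upd (fun _ => 22) 0 6) 2 5) 0 3) 0 2) 1 20) 1 10) 1 8) 1 7) 1 6) 2 2) 3 12) = true := by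
  decide +kernel

lemma n22_22_6_5_14 {n : ℕ} (hn : 5 ≤ n) : BlkD.NdX d22_22_6_5 (BlkD.exF 6 5 x22_22_6_5) n
    (BlkD.upd (BlkD.upd (BlkD.upd (BlkD.upd (fun _ => 0) 0 2) 1 6) 2 2) 3 7)
    (BlkD.upd (BlkD.upd (BlkD.upd (BlkD.upd (BlkD.upd (BlkD.upd (BlkD.upd (BlkD.upd (BlkD.upd (BlkD.upd (BlkD.upd (fun _ => 22) 0 6) 2 5) 0 3) 0 2) 1 20) 1 10) 1 8) 1 7) 1 6) 2 2) 3 12) :=
  BlkD.NdX.tree s22_22_6_5_14 ok22_22_6_5 (by decide) hn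

/-- a subtree -/
def t22_22_6_5_15 : BlkD.Tr :=
  .E 1

lemma s22_22_6_5_15 : BlkD.treeX d22_22_6_5 (BlkD.exF 6 5 x22_22_6_5) t22_22_6_5_15
    (BlkD.upd (BlkD.upd (BlkD.upd (BlkD.upd (fun _ => 0) 0 2) 1 6) 2 2) 3 13)
    (BlkD.upd (BlkD.upd (BlkD.upd (BlkD.upd (BlkD.upd (BlkD.upd (BlkD.upd (BlkD.upd (BlkD.upd (BlkD.upd (fun _ => 22) 0 6) 2 5) 0 3) 0 2) 1 20) 1 10) 1 8) 1 7) 1 6) 2 2) = true := by
  decide +kernel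

lemma n22_22_6_5_15 {n : ℕ} (hn : 5 ≤ n) : BlkD.NdX d22_22_6_5 (BlkD.exF 6 5 x22_22_6_5) n
    (BlkD.upd (BlkD.upd (BlkD.upd (BlkD.upd (fun _ => 0) 0 2) 1 6) 2 2) 3 13)
    (BlkD.upd (BlkD.upd (BlkD.upd (BlkD.upd (BlkD.upd (BlkD.upd (BlkD.upd (BlkD.upd (BlkD.upd (BlkD.upd (fun _ => 22) 0 6) 2 5) 0 3) 0 2) 1 20) 1 10) 1 8) 1 7) 1 6) 2 2) :=
  BlkD.NdX.tree s22_22_6_5_15 ok22_22_6_5 (by decide) hn

end BlkC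

end Pool.Agent.Lib.MP_f04ccf_co
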