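import Pool.Agent.Lib.MP_f04ccf_co.M.BlkX22_22_6_5d

/-!
MP_f04ccf_co, block certificate with exceptions, `R = 22`, `H = 22`, the pair `(6, 5)` (data of helper99 / helper13,
generated by helper8, genx.py): part 2 of 5.
-/

set_option autoImplicit false
set_option maxRecDepth 100000

namespace Pool.Agent.Lib.MP_f04ccf_co

namespace BlkC

/-- a subtree -/
def t22_22_6_5_16 : BlkD.Tr :=
  .S 3 11 (.S 3 5 (.S 3 2 (.S 3 1 (.L 6 7 [4, 4, 5, 5, 6, 6] [108, 108, 100, 90, 78, 66] [] 100000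
    34400 34400 1212000 2000 0 86000 14000 14000 2000 19200) (.S 4 6 (.S 4 3 (.S 4 1 (.L 6 7 [4, 4,
    5, 5, 6, 6] [66, 54, 0, 0, 0, 0] [38, 26, 14, 0, 0, 0] 100000 33750 33749 1203127 35938 0 35938
    65625 10938 10938 23437) (.L 6 7 [4, 4, 5, 5, 6, 6] [90, 78, 66, 54, 0, 0] [38, 26, 14, 0, 0,
    0] 100000 41239 41239 1181906 30000 0 71429 60000 1905 10000 23333)) (.L 6 7 [4, 4, 5, 5, 6, 6]
    [108, 108, 100, 90, 78, 66] [38, 26, 14, 0, 0, 0] 100000 40000 40000 1100000 0 0 100000 0 0 0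
    20000)) (.E 2))) (.S 3 4 (.S 3 3 (.S 4 6 (.S 4 3 (.S 4 1 (.L 6 7 [4, 4, 5, 5, 6, 6] [66, 54, 0,
    0, 0, 0] [58, 48, 36, 24, 0, 0] 100000 32889 32889 1231113 44444 0 71111 35556 0 35556 22222)
    (.L 4 4 [4, 5, 6, 8, 9, 10] [90, 78, 66, 54, 0, 0] [58, 48, 36, 24, 0, 0] 100000 33600 33600
    1231335 20000 0 88667 35333 10667 30667 20000)) (.L 4 4 [4, 5, 6, 8, 9, 10] [108, 108, 100, 90,
    78, 66] [58, 48, 36, 24, 0, 0] 100000 40000 0 980000 0 0 140000 46667 0 20000 16667)) (.E 2))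
    (.S 4 6 (.S 4 3 (.S 4 1 (.L 5 5 [4, 4, 5, 6, 7, 8] [66, 54, 0, 0, 0, 0] [80, 70, 60, 48, 36, 0]
    100000 41667 41667 1179169 45833 0 91667 45833 0 29167 20833) (.L 5 5 [4, 4, 5, 6, 7, 8] [90,
    78, 66, 54, 0, 0] [80, 70, 60, 48, 36, 0] 100000 36445 36445 1215556 33333 0 75556 37778 0
    51111 22222)) (.L 5 5 [4, 4, 5, 6, 7, 8] [108, 108, 100, 90, 78, 66] [80, 70, 60, 48, 36, 0]
    100000 50000 0 900000 0 0 150000 75000 0 0 25000)) (.E 2))) (.L 5 5 [4, 4, 5, 6, 7, 8] [108,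
    108, 100, 90, 78, 66] [97, 94, 84, 74, 62, 50] 100000 50000 50000 1100000 0 0 100000 100000 0 0
    25000))) (.E 1)) (.E 1)

lemma s22_22_6_5_16 : BlkD.treeX d22_22_6_5 (BlkD.exF 6 5 x22_22_6_5) t22_22_6_5_16
    (BlkD.upd (BlkD.upd (BlkD.upd (fun _ => 0) 0 2) 1 6) 2 3)
    (BlkD.upd (BlkD.upd (BlkD.upd (BlkD.upd (BlkD.upd (BlkD.upd (BlkD.upd (BlkD.upd (BlkD.upd (BlkD.upd (BlkD.upd (fun _ => 22) 0 6) 2 5) 0 3) 0 2) 1 20) 1 10) 1 8) 1 7) 1 6) 2 4) 2 3) = true := by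
  decide +kernel

lemma n22_22_6_5_16 {n : ℕ} (hn : 5 ≤ n) : BlkD.NdX d22_22_6_5 (BlkD.exF 6 5 x22_22_6_5) n
    (BlkD.upd (BlkD.upd (BlkD.upd (fun _ => 0) 0 2) 1 6) 2 3)
    (BlkD.upd (BlkD.upd (BlkD.upd (BlkD.upd (BlkD.upd (BlkD.upd (BlkD.upd (BlkD.upd (BlkD.upd (BlkD.upd (BlkD.upd (fun _ => 22) 0 6) 2 5) 0 3) 0 2) 1 20) 1 10) 1 8) 1 7) 1 6) 2 4) 2 3) :=
  BlkD.NdX.tree s22_22_6_5_16 ok22_22_6_5 (by decide) hn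

/-- a subtree -/
def t22_22_6_5_17 : BlkD.Tr :=
  .S 3 10 (.S 3 5 (.S 3 2 (.S 3 1 (.L 5 5 [4, 4, 5, 6, 7, 8] [108, 108, 100, 90, 78, 66] [] 100000
    38095 38094 1204763 33333 0 61905 33333 4762 33333 33333) (.S 4 6 (.S 4 3 (.L 5 5 [4, 4, 5, 6,
    7, 8] [90, 78, 66, 54, 0, 0] [42, 30, 18, 0, 0, 0] 100000 32787 32787 1232788 34426 0 63934
    34426 4918 34426 29508) (.L 5 5 [4, 4, 5, 6, 7, 8] [108, 108, 100, 90, 78, 66] [42, 30, 18, 0,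
    0, 0] 100000 40000 0 980000 0 0 140000 0 0 20000 15000)) (.E 2))) (.S 3 4 (.S 3 3 (.S 4 6 (.S 4
    3 (.S 4 1 (.L 5 5 [4, 4, 5, 6, 7, 8] [66, 54, 0, 0, 0, 0] [64, 54, 42, 30, 0, 0] 100000 34400
    34400 1200000 32000 0 76000 64000 16000 24000 20000) (.L 5 5 [4, 4, 5, 6, 7, 8] [90, 78, 66,
    54, 0, 0] [64, 54, 42, 30, 0, 0] 100000 24000 24000 1240000 10000 0 100000 20000 14000 61000
    25000)) (.L 5 5 [4, 4, 5, 6, 7, 8] [108, 108, 100, 90, 78, 66] [64, 54, 42, 30, 0, 0] 100000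
    64286 0 785714 28571 0 164286 28571 0 14286 21429)) (.E 2)) (.L 5 5 [4, 4, 5, 6, 7, 8] [108,
    108, 100, 90, 78, 66] [88, 78, 68, 56, 44, 0] 100000 50000 50000 1100000 0 0 100000 100000 0 0
    25000)) (.E 1))) (.E 1)) (.E 1)

lemma s22_22_6_5_17 : BlkD.treeX d22_22_6_5 (BlkD.exF 6 5 x22_22_6_5) t22_22_6_5_17
    (BlkD.upd (BlkD.upd (BlkD.upd (BlkD.upd (fun _ => 0) 0 2) 1 6) 2 3) 2 4)
    (BlkD.upd (BlkD.upd (BlkD.upd (BlkD.upd (BlkD.upd (BlkD.upd (BlkD.upd (BlkD.upd (BlkD.upd (BlkD.upd (fun _ => 22) 0 6) 2 5) 0 3) 0 2) 1 20) 1 10) 1 8) 1 7) 1 6) 2 4) = true := by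
  decide +kernel

lemma n22_22_6_5_17 {n : ℕ} (hn : 5 ≤ n) : BlkD.NdX d22_22_6_5 (BlkD.exF 6 5 x22_22_6_5) n
    (BlkD.upd (BlkD.upd (BlkD.upd (BlkD.upd (fun _ => 0) 0 2) 1 6) 2 3) 2 4)
    (BlkD.upd (BlkD.upd (BlkD.upd (BlkD.upd (BlkD.upd (BlkD.upd (BlkD.upd (BlkD.upd (BlkD.upd (BlkD.upd (fun _ => 22) 0 6) 2 5) 0 3) 0 2) 1 20) 1 10) 1 8) 1 7) 1 6) 2 4) :=
  BlkD.NdX.tree s22_22_6_5_17 ok22_22_6_5 (by decide) hn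

/-- a subtree -/
def t22_22_6_5_18 : BlkD.Tr :=
  .L 5 5 [4, 4, 5, 6, 7, 8] [108, 108, 100, 90, 78, 66] [] 100000 57143 57143 1103572 60714 0 71429
    21429 0 57143 28571

lemma s22_22_6_5_18 : BlkD.treeX d22_22_6_5 (BlkD.exF 6 5 x22_22_6_5) t22_22_6_5_18
    (BlkD.upd (BlkD.upd (BlkD.upd (BlkD.upd (fun _ => 0) 0 2) 1 6) 2 3) 2 5)
    (BlkD.upd (BlkD.upd (BlkD.upd (BlkD.upd (BlkD.upd (BlkD.upd (BlkD.upd (BlkD.upd (BlkD.upd (fun _ => 22) 0 6) 2 5) 0 3) 0 2) 1 20) 1 10) 1 8) 1 7) 1 6) = true := by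
  decide +kernel

lemma n22_22_6_5_18 {n : ℕ} (hn : 5 ≤ n) : BlkD.NdX d22_22_6_5 (BlkD.exF 6 5 x22_22_6_5) n
    (BlkD.upd (BlkD.upd (BlkD.upd (BlkD.upd (fun _ => 0) 0 2) 1 6) 2 3) 2 5)
    (BlkD.upd (BlkD.upd (BlkD.upd (BlkD.upd (BlkD.upd (BlkD.upd (BlkD.upd (BlkD.upd (BlkD.upd (fun _ => 22) 0 6) 2 5) 0 3) 0 2) 1 20) 1 10) 1 8) 1 7) 1 6) :=
  BlkD.NdX.tree s22_22_6_5_18 ok22_22_6_5 (by decide) hn

/-- a subtree -/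
def t22_22_6_5_19 : BlkD.Tr :=
  .S 2 0 (.L 5 5 [4, 4, 5, 6, 7, 8] [124, 124, 124, 116, 106, 94] [] 100000 60000 60000 900000 0 0
    50000 100000 0 0 0) (.S 3 12 (.S 3 6 (.S 3 3 (.L 5 5 [4, 4, 5, 6, 7, 8] [124, 124, 124, 116,
    106, 94] [] 100000 47637 47637 1109092 0 63636 63636 63636 12727 0 20000) (.S 3 5 (.S 3 4 (.L 5
    5 [4, 4, 5, 6, 7, 8] [124, 124, 124, 116, 106, 94] [64, 54, 44, 32, 20, 0] 100000 49153 49153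
    1135596 10169 55932 61017 61017 10169 0 20339) (.S 4 7 (.S 4 3 (.L 5 5 [4, 4, 5, 6, 7, 8] [106,
    94, 82, 70, 0, 0] [77, 74, 64, 54, 42, 30] 100000 58485 58485 1079395 41212 42424 70303 56970
    1212 0 14697) (.L 5 5 [4, 4, 5, 6, 7, 8] [124, 124, 124, 116, 106, 94] [77, 74, 64, 54, 42, 30]
    100000 50001 50001 1099998 0 41667 91667 66667 0 8333 25000)) (.E 2))) (.L 1 1 [11, 14, 17, 19,
    18, 17] [124, 124, 124, 116, 106, 94] [92, 89, 86, 76, 66, 54] 100000 50000 50000 1135000 0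
    65000 65000 70000 15000 15000 25000))) (.L 1 1 [11, 14, 17, 19, 18, 17] [124, 124, 124, 116,
    106, 94] [] 100000 128890 1 0 46667 0 46667 228889 0 0 0)) (.E 1))

lemma s22_22_6_5_19 : BlkD.treeX d22_22_6_5 (BlkD.exF 6 5 x22_22_6_5) t22_22_6_5_19
    (BlkD.upd (BlkD.upd (BlkD.upd (fun _ => 0) 0 2) 1 6) 1 7)
    (BlkD.upd (BlkD.upd (BlkD.upd (BlkD.upd (BlkD.upd (BlkD.upd (BlkD.upd (BlkD.upd (BlkD.upd (BlkD.upd (fun _ => 22) 0 6) 2 5) 0 3) 0 2) 1 20) 1 10) 1 8) 1 7) 2 2) 2 1) = true := by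
  decide +kernel

lemma n22_22_6_5_19 {n : ℕ} (hn : 5 ≤ n) : BlkD.NdX d22_22_6_5 (BlkD.exF 6 5 x22_22_6_5) n
    (BlkD.upd (BlkD.upd (BlkD.upd (fun _ => 0) 0 2) 1 6) 1 7)
    (BlkD.upd (BlkD.upd (BlkD.upd (BlkD.upd (BlkD.upd (BlkD.upd (BlkD.upd (BlkD.upd (BlkD.upd (BlkD.upd (fun _ => 22) 0 6) 2 5) 0 3) 0 2) 1 20) 1 10) 1 8) 1 7) 2 2) 2 1) :=
  BlkD.NdX.tree s22_22_6_5_19 ok22_22_6_5 (by decide) hn

/-- a subtree -/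
def t22_22_6_5_20 : BlkD.Tr :=
  .S 3 11 (.S 3 5 (.S 3 2 (.S 3 1 (.L 1 1 [11, 14, 17, 19, 18, 17] [124, 124, 124, 116, 106, 94] []
    100000 25000 25000 1200000 0 0 62500 0 37500 0 37500) (.L 7 8 [4, 5, 5, 4, 5, 5] [124, 124,
    124, 116, 106, 94] [34, 22, 10, 0, 0, 0] 100000 32211 32211 1220004 27368 0 58947 15789 18947
    1053 31579)) (.S 3 4 (.S 3 3 (.S 4 7 (.S 4 3 (.L 7 8 [4, 5, 5, 4, 5, 5] [106, 94, 82, 70, 0, 0]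
    [52, 42, 30, 18, 0, 0] 100000 42655 42655 1184957 37168 22124 63274 46018 6195 1770 23894) (.L
    7 8 [4, 5, 5, 4, 5, 5] [124, 124, 124, 116, 106, 94] [52, 42, 30, 18, 0, 0] 100000 37617 37617
    1170984 7254 7254 100000 46632 0 11917 17098)) (.E 2)) (.S 4 7 (.S 4 3 (.S 4 1 (.E 2) (.S 4 2
    (.L 7 8 [4, 5, 5, 4, 5, 5] [94, 82, 70, 0, 0, 0] [72, 62, 52, 40, 28, 0] 100000 37778 37778
    1201112 62222 0 82222 30000 0 30000 20000) (.L 4 4 [4, 5, 6, 8, 9, 10] [106, 94, 82, 70, 0, 0]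
    [72, 62, 52, 40, 28, 0] 100000 47223 47223 1163195 48611 0 86806 34722 0 17361 23611))) (.L 4 4
    [4, 5, 6, 8, 9, 10] [124, 124, 124, 116, 106, 94] [72, 62, 52, 40, 28, 0] 100000 30000 30000
    1200000 0 0 100000 50000 0 25000 25000)) (.E 2))) (.S 4 7 (.S 4 3 (.L 4 4 [4, 5, 6, 8, 9, 10]
    [106, 94, 82, 70, 0, 0] [87, 84, 74, 64, 52, 40] 100000 75000 75000 1016668 83333 0 83333 41667
    0 33333 20833) (.L 4 4 [4, 5, 6, 8, 9, 10] [124, 124, 124, 116, 106, 94] [87, 84, 74, 64, 52,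
    40] 100000 50000 50000 1100000 0 0 100000 100000 0 0 25000)) (.E 2)))) (.L 4 4 [4, 5, 6, 8, 9,
    10] [124, 124, 124, 116, 106, 94] [] 100000 121569 0 0 52941 0 52941 221569 0 0 0)) (.E 1)

lemma s22_22_6_5_20 : BlkD.treeX d22_22_6_5 (BlkD.exF 6 5 x22_22_6_5) t22_22_6_5_20
    (BlkD.upd (BlkD.upd (BlkD.upd (BlkD.upd (fun _ => 0) 0 2) 1 6) 1 7) 2 2)
    (BlkD.upd (BlkD.upd (BlkD.upd (BlkD.upd (BlkD.upd (BlkD.upd (BlkD.upd (BlkD.upd (BlkD.upd (fun _ => 22) 0 6) 2 5) 0 3) 0 2) 1 20) 1 10) 1 8) 1 7) 2 2) = true := by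
  decide +kernel

lemma n22_22_6_5_20 {n : ℕ} (hn : 5 ≤ n) : BlkD.NdX d22_22_6_5 (BlkD.exF 6 5 x22_22_6_5) n
    (BlkD.upd (BlkD.upd (BlkD.upd (BlkD.upd (fun _ => 0) 0 2) 1 6) 1 7) 2 2)
    (BlkD.upd (BlkD.upd (BlkD.upd (BlkD.upd (BlkD.upd (BlkD.upd (BlkD.upd (BlkD.upd (BlkD.upd (fun _ => 22) 0 6) 2 5) 0 3) 0 2) 1 20) 1 10) 1 8) 1 7) 2 2) :=
  BlkD.NdX.tree s22_22_6_5_20 ok22_22_6_5 (by decide) hn

/-- a subtree -/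
def t22_22_6_5_21 : BlkD.Tr :=
  .S 2 4 (.S 2 3 (.S 3 10 (.S 3 5 (.S 3 2 (.S 3 1 (.S 3 0 (.L 4 4 [4, 5, 6, 8, 9, 10] [124, 124,
    124, 116, 106, 94] [0, 0, 0, 0, 0, 0] 100000 38334 38334 1125000 25000 0 56250 0 18750 0 39583)
    (.L 7 8 [4, 5, 5, 4, 5, 5] [124, 124, 124, 116, 106, 94] [18, 6, 0, 0, 0, 0] 100000 33334 33334
    1208335 29167 8333 56250 37500 14583 4167 33333)) (.S 4 7 (.S 4 3 (.L 7 8 [4, 5, 5, 4, 5, 5]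
    [106, 94, 82, 70, 0, 0] [38, 26, 14, 0, 0, 0] 100000 41261 41260 1190992 52252 0 62162 55856
    9910 9910 17117) (.L 7 8 [4, 5, 5, 4, 5, 5] [124, 124, 124, 116, 106, 94] [38, 26, 14, 0, 0, 0]
    100000 37242 37242 1175862 8046 8046 100000 49425 0 13793 18391)) (.E 2))) (.S 3 4 (.S 3 3 (.S
    4 7 (.S 4 3 (.L 3 3 [5, 7, 8, 10, 11, 13] [106, 94, 82, 70, 0, 0] [58, 48, 36, 24, 0, 0] 100000
    45000 44999 1166666 41667 0 83333 41667 0 41667 25000) (.L 3 3 [5, 7, 8, 10, 11, 13] [124, 124,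
    124, 116, 106, 94] [58, 48, 36, 24, 0, 0] 100000 25556 25556 1200000 0 0 100000 38889 8333
    38889 25000)) (.E 2)) (.S 4 7 (.S 4 3 (.L 3 3 [5, 7, 8, 10, 11, 13] [106, 94, 82, 70, 0, 0]
    [80, 70, 60, 48, 36, 0] 100000 57500 57500 1110000 62500 0 100000 20000 0 40000 20000) (.L 3 3
    [5, 7, 8, 10, 11, 13] [124, 124, 124, 116, 106, 94] [80, 70, 60, 48, 36, 0] 100000 50000 50000
    1100000 0 0 100000 100000 0 0 25000)) (.E 2))) (.E 2))) (.E 1)) (.E 1)) (.S 3 9 (.S 3 4 (.S 3 2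
    (.S 3 1 (.L 6 7 [4, 4, 5, 5, 6, 6] [124, 124, 124, 116, 106, 94] [] 100000 23244 23244 1262162
    29730 0 59459 40541 16216 51351 18919) (.L 7 8 [4, 5, 5, 4, 5, 5] [124, 124, 124, 116, 106, 94]
    [42, 30, 18, 0, 0, 0] 100000 15000 14999 1322727 20455 0 47727 34091 27273 40909 25000)) (.L 7
    8 [4, 5, 5, 4, 5, 5] [124, 124, 124, 116, 106, 94] [] 100000 71429 71429 999999 57143 0 100000
    57143 0 14286 14286)) (.E 1)) (.E 1))) (.L 7 8 [4, 5, 5, 4, 5, 5] [124, 124, 124, 116, 106, 94]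
    [] 100000 36000 36000 1200000 40000 0 80000 20000 0 40000 20000)

lemma s22_22_6_5_21 : BlkD.treeX d22_22_6_5 (BlkD.exF 6 5 x22_22_6_5) t22_22_6_5_21
    (BlkD.upd (BlkD.upd (BlkD.upd (BlkD.upd (fun _ => 0) 0 2) 1 6) 1 7) 2 3)
    (BlkD.upd (BlkD.upd (BlkD.upd (BlkD.upd (BlkD.upd (BlkD.upd (BlkD.upd (BlkD.upd (fun _ => 22) 0 6) 2 5) 0 3) 0 2) 1 20) 1 10) 1 8) 1 7) = true := by
  decide +kernel

lemma n22_22_6_5_21 {n : ℕ} (hn : 5 ≤ n) : BlkD.NdX d22_22_6_5 (BlkD.exF 6 5 x22_22_6_5) n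
    (BlkD.upd (BlkD.upd (BlkD.upd (BlkD.upd (fun _ => 0) 0 2) 1 6) 1 7) 2 3)
    (BlkD.upd (BlkD.upd (BlkD.upd (BlkD.upd (BlkD.upd (BlkD.upd (BlkD.upd (BlkD.upd (fun _ => 22) 0 6) 2 5) 0 3) 0 2) 1 20) 1 10) 1 8) 1 7) :=
  BlkD.NdX.tree s22_22_6_5_21 ok22_22_6_5 (by decide) hn

/-- a subtree -/
def t22_22_6_5_22 : BlkD.Tr :=
  .S 2 1 (.S 2 0 (.L 7 8 [4, 5, 5, 4, 5, 5] [142, 142, 142, 142, 134, 124] [] 100000 83333 0 633334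
    0 0 183333 100000 0 0 0) (.S 3 11 (.S 3 5 (.S 3 2 (.L 7 8 [4, 5, 5, 4, 5, 5] [142, 142, 142,
    142, 134, 124] [] 100000 41667 33334 1066667 5556 5556 108333 11111 0 0 16667) (.S 3 4 (.L 7 8
    [4, 5, 5, 4, 5, 5] [142, 142, 142, 142, 134, 124] [] 100000 40000 40000 1180000 40000 20000
    60000 40000 20000 0 20000) (.L 1 1 [11, 14, 17, 19, 18, 17] [142, 142, 142, 142, 134, 124] [77,
    74, 64, 54, 42, 30] 100000 50000 50000 1128574 0 71429 50000 78571 25000 21429 25000))) (.L 1 1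
    [11, 14, 17, 19, 18, 17] [142, 142, 142, 142, 134, 124] [] 100000 162500 0 0 40625 0 162500
    262500 0 0 0)) (.E 1))) (.S 3 10 (.S 3 5 (.S 3 2 (.S 3 1 (.L 1 1 [11, 14, 17, 19, 18, 17] [142,
    142, 142, 142, 134, 124] [] 100000 40000 40000 1100000 0 0 100000 0 0 0 20000) (.L 3 3 [5, 7,
    8, 10, 11, 13] [142, 142, 142, 142, 134, 124] [34, 22, 10, 0, 0, 0] 100000 53333 53332 1100001
    33333 0 100000 33333 0 0 33333)) (.S 3 4 (.S 3 3 (.S 4 8 (.S 4 4 (.L 3 3 [5, 7, 8, 10, 11, 13]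
    [134, 124, 112, 100, 88, 0] [52, 42, 30, 18, 0, 0] 100000 62699 62698 1071426 41667 32937 88889
    66667 2778 6746 22222) (.L 3 3 [5, 7, 8, 10, 11, 13] [142, 142, 142, 142, 134, 124] [52, 42,
    30, 18, 0, 0] 100000 43000 43000 1140000 20000 0 100000 47500 0 12500 20000)) (.E 2)) (.S 4 8
    (.S 4 4 (.L 3 3 [5, 7, 8, 10, 11, 13] [134, 124, 112, 100, 88, 0] [72, 62, 52, 40, 28, 0]
    100000 75000 75000 1000000 50000 25000 100000 75000 0 25000 12500) (.L 3 3 [5, 7, 8, 10, 11,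
    13] [142, 142, 142, 142, 134, 124] [72, 62, 52, 40, 28, 0] 100000 30000 30000 1200000 0 0
    100000 50000 0 25000 25000)) (.E 2))) (.L 3 3 [5, 7, 8, 10, 11, 13] [142, 142, 142, 142, 134,
    124] [87, 84, 74, 64, 52, 40] 100000 156099 1 0 53659 0 153659 256098 0 0 0))) (.E 2)) (.E 1))

lemma s22_22_6_5_22 : BlkD.treeX d22_22_6_5 (BlkD.exF 6 5 x22_22_6_5) t22_22_6_5_22
    (BlkD.upd (BlkD.upd (BlkD.upd (fun _ => 0) 0 2) 1 6) 1 8)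
    (BlkD.upd (BlkD.upd (BlkD.upd (BlkD.upd (BlkD.upd (BlkD.upd (BlkD.upd (BlkD.upd (fun _ => 22) 0 6) 2 5) 0 3) 0 2) 1 20) 1 10) 1 8) 2 2) = true := by
  decide +kernel

lemma n22_22_6_5_22 {n : ℕ} (hn : 5 ≤ n) : BlkD.NdX d22_22_6_5 (BlkD.exF 6 5 x22_22_6_5) n
    (BlkD.upd (BlkD.upd (BlkD.upd (fun _ => 0) 0 2) 1 6) 1 8)
    (BlkD.upd (BlkD.upd (BlkD.upd (BlkD.upd (BlkD.upd (BlkD.upd (BlkD.upd (BlkD.upd (fun _ => 22) 0 6) 2 5) 0 3) 0 2) 1 20) 1 10) 1 8) 2 2) :=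
  BlkD.NdX.tree s22_22_6_5_22 ok22_22_6_5 (by decide) hn

/-- a subtree -/
def t22_22_6_5_23 : BlkD.Tr :=
  .S 2 4 (.S 2 3 (.S 3 9 (.S 3 4 (.S 3 2 (.L 6 7 [4, 4, 5, 5, 6, 6] [142, 142, 142, 142, 134, 124]
    [] 100000 50746 50745 1141794 44776 0 89552 44776 0 7463 14552) (.L 6 7 [4, 4, 5, 5, 6, 6]
    [142, 142, 142, 142, 134, 124] [] 100000 32500 32500 1225000 25000 0 100000 25000 0 50000
    18750)) (.E 2)) (.E 1)) (.L 6 7 [4, 4, 5, 5, 6, 6] [142, 142, 142, 142, 134, 124] [] 100000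
    28000 28000 1220000 20000 0 100000 20000 0 60000 20000)) (.L 6 7 [4, 4, 5, 5, 6, 6] [142, 142,
    142, 142, 134, 124] [] 100000 50000 0 900000 50000 0 150000 0 0 50000 25000)

lemma s22_22_6_5_23 : BlkD.treeX d22_22_6_5 (BlkD.exF 6 5 x22_22_6_5) t22_22_6_5_23
    (BlkD.upd (BlkD.upd (BlkD.upd (BlkD.upd (fun _ => 0) 0 2) 1 6) 1 8) 2 3)
    (BlkD.upd (BlkD.upd (BlkD.upd (BlkD.upd (BlkD.upd (BlkD.upd (BlkD.upd (fun _ => 22) 0 6) 2 5) 0 3) 0 2) 1 20) 1 10) 1 8) = true := by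
  decide +kernel

lemma n22_22_6_5_23 {n : ℕ} (hn : 5 ≤ n) : BlkD.NdX d22_22_6_5 (BlkD.exF 6 5 x22_22_6_5) n
    (BlkD.upd (BlkD.upd (BlkD.upd (BlkD.upd (fun _ => 0) 0 2) 1 6) 1 8) 2 3)
    (BlkD.upd (BlkD.upd (BlkD.upd (BlkD.upd (BlkD.upd (BlkD.upd (BlkD.upd (fun _ => 22) 0 6) 2 5) 0 3) 0 2) 1 20) 1 10) 1 8) :=
  BlkD.NdX.tree s22_22_6_5_23 ok22_22_6_5 (by decide) hn

/-- a subtree -/
def t22_22_6_5_24 : BlkD.Tr :=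
  .E 0

lemma s22_22_6_5_24 : BlkD.treeX d22_22_6_5 (BlkD.exF 6 5 x22_22_6_5) t22_22_6_5_24
    (BlkD.upd (BlkD.upd (BlkD.upd (fun _ => 0) 0 2) 1 6) 1 9)
    (BlkD.upd (BlkD.upd (BlkD.upd (BlkD.upd (BlkD.upd (BlkD.upd (fun _ => 22) 0 6) 2 5) 0 3) 0 2) 1 20) 1 10) = true := by
  decide +kernel

lemma n22_22_6_5_24 {n : ℕ} (hn : 5 ≤ n) : BlkD.NdX d22_22_6_5 (BlkD.exF 6 5 x22_22_6_5) n
    (BlkD.upd (BlkD.upd (BlkD.upd (fun _ => 0) 0 2) 1 6) 1 9)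
    (BlkD.upd (BlkD.upd (BlkD.upd (BlkD.upd (BlkD.upd (BlkD.upd (fun _ => 22) 0 6) 2 5) 0 3) 0 2) 1 20) 1 10) :=
  BlkD.NdX.tree s22_22_6_5_24 ok22_22_6_5 (by decide) hn

/-- a subtree -/
def t22_22_6_5_25 : BlkD.Tr :=
  .E 0

lemma s22_22_6_5_25 : BlkD.treeX d22_22_6_5 (BlkD.exF 6 5 x22_22_6_5) t22_22_6_5_25
    (BlkD.upd (BlkD.upd (fun _ => 0) 0 2) 1 11)
    (BlkD.upd (BlkD.upd (BlkD.upd (BlkD.upd (BlkD.upd (fun _ => 22) 0 6) 2 5) 0 3) 0 2) 1 20) = true := by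
  decide +kernel

lemma n22_22_6_5_25 {n : ℕ} (hn : 5 ≤ n) : BlkD.NdX d22_22_6_5 (BlkD.exF 6 5 x22_22_6_5) n
    (BlkD.upd (BlkD.upd (fun _ => 0) 0 2) 1 11)
    (BlkD.upd (BlkD.upd (BlkD.upd (BlkD.upd (BlkD.upd (fun _ => 22) 0 6) 2 5) 0 3) 0 2) 1 20) :=
  BlkD.NdX.tree s22_22_6_5_25 ok22_22_6_5 (by decide) hn

/-- a subtree -/
def t22_22_6_5_26 : BlkD.Tr :=
  .E 0

lemma s22_22_6_5_26 : BlkD.treeX d22_22_6_5 (BlkD.exF 6 5 x22_22_6_5) t22_22_6_5_26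
    (BlkD.upd (BlkD.upd (fun _ => 0) 0 2) 1 21)
    (BlkD.upd (BlkD.upd (BlkD.upd (BlkD.upd (fun _ => 22) 0 6) 2 5) 0 3) 0 2) = true := by
  decide +kernel

lemma n22_22_6_5_26 {n : ℕ} (hn : 5 ≤ n) : BlkD.NdX d22_22_6_5 (BlkD.exF 6 5 x22_22_6_5) n
    (BlkD.upd (BlkD.upd (fun _ => 0) 0 2) 1 21)
    (BlkD.upd (BlkD.upd (BlkD.upd (BlkD.upd (fun _ => 22) 0 6) 2 5) 0 3) 0 2) :=
  BlkD.NdX.tree s22_22_6_5_26 ok22_22_6_5 (by decide) hn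

/-- a subtree -/
def t22_22_6_5_27 : BlkD.Tr :=
  .L 6 7 [4, 4, 5, 5, 6, 6] [] [] 100000 35000 35000 1200000 12500 0 12500 75000 0 25000 20000

lemma s22_22_6_5_27 : BlkD.treeX d22_22_6_5 (BlkD.exF 6 5 x22_22_6_5) t22_22_6_5_27
    (BlkD.upd (BlkD.upd (fun _ => 0) 0 2) 0 3)
    (BlkD.upd (BlkD.upd (BlkD.upd (BlkD.upd (BlkD.upd (BlkD.upd (BlkD.upd (fun _ => 22) 0 6) 2 5) 0 3) 1 19) 1 9) 1 4) 1 2) = true := by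
  decide +kernel

lemma n22_22_6_5_27 {n : ℕ} (hn : 5 ≤ n) : BlkD.NdX d22_22_6_5 (BlkD.exF 6 5 x22_22_6_5) n
    (BlkD.upd (BlkD.upd (fun _ => 0) 0 2) 0 3)
    (BlkD.upd (BlkD.upd (BlkD.upd (BlkD.upd (BlkD.upd (BlkD.upd (BlkD.upd (fun _ => 22) 0 6) 2 5) 0 3) 1 19) 1 9) 1 4) 1 2) :=
  BlkD.NdX.tree s22_22_6_5_27 ok22_22_6_5 (by decide) hn

/-- a subtree -/
def t22_22_6_5_28 : BlkD.Tr :=
  .S 2 1 (.L 6 7 [4, 4, 5, 5, 6, 6] [60, 48, 36, 24, 0, 0] [] 100000 48966 48966 1139310 0 64138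
    60000 68276 0 9655 20000) (.S 3 14 (.S 3 7 (.S 3 3 (.L 6 7 [4, 4, 5, 5, 6, 6] [60, 48, 36, 24,
    0, 0] [] 100000 40000 40000 1100000 0 0 0 0 0 0 20000) (.S 3 5 (.S 3 4 (.L 7 8 [4, 5, 5, 4, 5,
    5] [60, 48, 36, 24, 0, 0] [72, 62, 52, 40, 28, 0] 100000 40000 40000 1190000 10000 10000 10000
    10000 0 0 50000) (.S 4 3 (.S 4 1 (.S 4 0 (.L 6 7 [4, 4, 5, 5, 6, 6] [24, 0, 0, 0, 0, 0] [87,
    84, 74, 64, 52, 40] 100000 18261 18261 1304351 13043 13043 0 47826 34783 39130 25000) (.L 6 7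
    [4, 4, 5, 5, 6, 6] [36, 24, 0, 0, 0, 0] [87, 84, 74, 64, 52, 40] 100000 30000 30000 1200000 0 0
    100000 50000 0 50000 25000)) (.L 6 7 [4, 4, 5, 5, 6, 6] [60, 48, 36, 24, 0, 0] [87, 84, 74, 64,
    52, 40] 100000 35863 28966 1086207 0 0 106897 53448 0 13793 17241)) (.E 2))) (.S 3 6 (.S 4 3
    (.S 4 1 (.S 4 0 (.S 5 6 (.S 5 3 (.S 5 1 (.E 2) (.S 5 2 (.E 2) (.E 9))) (.L 6 7 [4, 4, 5, 5, 6,
    6] [24, 0, 0, 0, 0, 0] [104, 101, 98, 88, 78, 66] 100000 20000 20000 1250000 0 0 0 100000 50000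
    25000 25000)) (.E 2)) (.L 6 7 [4, 4, 5, 5, 6, 6] [36, 24, 0, 0, 0, 0] [104, 101, 98, 88, 78,
    66] 100000 26667 26667 1233334 16667 0 100000 33333 0 66667 25000)) (.L 6 7 [4, 4, 5, 5, 6, 6]
    [60, 48, 36, 24, 0, 0] [104, 101, 98, 88, 78, 66] 100000 25000 12500 1137500 12500 0 112500
    25000 0 62500 25000)) (.E 2)) (.E 1)))) (.E 1)) (.E 1))

lemma s22_22_6_5_28 : BlkD.treeX d22_22_6_5 (BlkD.exF 6 5 x22_22_6_5) t22_22_6_5_28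
    (BlkD.upd (BlkD.upd (BlkD.upd (fun _ => 0) 0 2) 0 3) 1 3)
    (BlkD.upd (BlkD.upd (BlkD.upd (BlkD.upd (BlkD.upd (BlkD.upd (BlkD.upd (BlkD.upd (fun _ => 22) 0 6) 2 5) 0 3) 1 19) 1 9) 1 4) 1 3) 2 2) = true := by
  decide +kernel

lemma n22_22_6_5_28 {n : ℕ} (hn : 5 ≤ n) : BlkD.NdX d22_22_6_5 (BlkD.exF 6 5 x22_22_6_5) n
    (BlkD.upd (BlkD.upd (BlkD.upd (fun _ => 0) 0 2) 0 3) 1 3)
    (BlkD.upd (BlkD.upd (BlkD.upd (BlkD.upd (BlkD.upd (BlkD.upd (BlkD.upd (BlkD.upd (fun _ => 22) 0 6) 2 5) 0 3) 1 19) 1 9) 1 4) 1 3) 2 2) :=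
  BlkD.NdX.tree s22_22_6_5_28 ok22_22_6_5 (by decide) hn

/-- a subtree -/
def t22_22_6_5_29 : BlkD.Tr :=
  .S 2 4 (.S 2 3 (.S 3 13 (.S 3 6 (.S 3 3 (.S 3 1 (.L 6 7 [4, 4, 5, 5, 6, 6] [60, 48, 36, 24, 0, 0]
    [] 100000 45000 45000 1000000 0 0 0 0 0 0 15000) (.S 3 2 (.L 6 7 [4, 4, 5, 5, 6, 6] [60, 48,
    36, 24, 0, 0] [38, 26, 14, 0, 0, 0] 100000 40000 40000 1100000 0 0 0 0 0 0 20000) (.L 5 5 [4,
    4, 5, 6, 7, 8] [60, 48, 36, 24, 0, 0] [58, 48, 36, 24, 0, 0] 100000 28542 28542 1241670 8333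
    8333 52083 51042 7292 42708 50000))) (.S 3 5 (.S 3 4 (.S 4 3 (.S 4 1 (.L 6 7 [4, 4, 5, 5, 6, 6]
    [36, 24, 0, 0, 0, 0] [80, 70, 60, 48, 36, 0] 100000 23517 23517 1279673 15385 0 78022 46154
    10440 61538 26923) (.L 6 7 [4, 4, 5, 5, 6, 6] [60, 48, 36, 24, 0, 0] [80, 70, 60, 48, 36, 0]
    100000 35863 28966 1086207 0 0 106897 53448 0 13793 17241)) (.E 2)) (.L 6 7 [4, 4, 5, 5, 6, 6]
    [60, 48, 36, 24, 0, 0] [97, 94, 84, 74, 62, 50] 100000 35715 35715 1210714 0 0 64286 100000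
    10714 0 25000)) (.E 1))) (.E 1)) (.E 1)) (.L 6 7 [4, 4, 5, 5, 6, 6] [60, 48, 36, 24, 0, 0] []
    100000 25715 25715 1260714 16667 0 80952 50000 10714 50000 25000)) (.L 6 7 [4, 4, 5, 5, 6, 6]
    [60, 48, 36, 24, 0, 0] [] 100000 22857 22856 1271430 14286 0 100000 14286 14286 57143 21429)

lemma s22_22_6_5_29 : BlkD.treeX d22_22_6_5 (BlkD.exF 6 5 x22_22_6_5) t22_22_6_5_29
    (BlkD.upd (BlkD.upd (BlkD.upd (BlkD.upd (fun _ => 0) 0 2) 0 3) 1 3) 2 3)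
    (BlkD.upd (BlkD.upd (BlkD.upd (BlkD.upd (BlkD.upd (BlkD.upd (BlkD.upd (fun _ => 22) 0 6) 2 5) 0 3) 1 19) 1 9) 1 4) 1 3) = true := by
  decide +kernel

lemma n22_22_6_5_29 {n : ℕ} (hn : 5 ≤ n) : BlkD.NdX d22_22_6_5 (BlkD.exF 6 5 x22_22_6_5) n
    (BlkD.upd (BlkD.upd (BlkD.upd (BlkD.upd (fun _ => 0) 0 2) 0 3) 1 3) 2 3)
    (BlkD.upd (BlkD.upd (BlkD.upd (BlkD.upd (BlkD.upd (BlkD.upd (BlkD.upd (fun _ => 22) 0 6) 2 5) 0 3) 1 19) 1 9) 1 4) 1 3) :=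
  BlkD.NdX.tree s22_22_6_5_29 ok22_22_6_5 (by decide) hn

/-- a subtree -/
def t22_22_6_5_30 : BlkD.Tr :=
  .S 2 0 (.L 6 7 [4, 4, 5, 5, 6, 6] [82, 72, 60, 48, 36, 0] [] 100000 60000 60000 900000 0 0 0
    100000 0 0 0) (.S 3 14 (.S 3 7 (.S 3 3 (.L 6 7 [4, 4, 5, 5, 6, 6] [82, 72, 60, 48, 36, 0] []
    100000 40000 40000 1100000 0 0 0 0 0 0 20000) (.S 3 5 (.L 6 7 [4, 4, 5, 5, 6, 6] [82, 72, 60,
    48, 36, 0] [] 100000 53847 53847 1092307 0 69231 69231 69231 0 0 23077) (.S 3 6 (.L 6 7 [4, 4,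
    5, 5, 6, 6] [82, 72, 60, 48, 36, 0] [92, 89, 86, 76, 66, 54] 100000 53847 53847 1123076 0 69231
    69231 69231 0 0 23077) (.L 1 1 [11, 14, 17, 19, 18, 17] [82, 72, 60, 48, 36, 0] [109, 106, 103,
    100, 90, 80] 100000 50000 45000 1125000 0 57500 72500 72500 2500 2500 25000)))) (.E 1)) (.E 1))

lemma s22_22_6_5_30 : BlkD.treeX d22_22_6_5 (BlkD.exF 6 5 x22_22_6_5) t22_22_6_5_30
    (BlkD.upd (BlkD.upd (BlkD.upd (BlkD.upd (fun _ => 0) 0 2) 0 3) 1 3) 1 4)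
    (BlkD.upd (BlkD.upd (BlkD.upd (BlkD.upd (BlkD.upd (BlkD.upd (BlkD.upd (BlkD.upd (fun _ => 22) 0 6) 2 5) 0 3) 1 19) 1 9) 1 4) 2 2) 2 1) = true := by
  decide +kernel

lemma n22_22_6_5_30 {n : ℕ} (hn : 5 ≤ n) : BlkD.NdX d22_22_6_5 (BlkD.exF 6 5 x22_22_6_5) n
    (BlkD.upd (BlkD.upd (BlkD.upd (BlkD.upd (fun _ => 0) 0 2) 0 3) 1 3) 1 4)
    (BlkD.upd (BlkD.upd (BlkD.upd (BlkD.upd (BlkD.upd (BlkD.upd (BlkD.upd (BlkD.upd (fun _ => 22) 0 6) 2 5) 0 3) 1 19) 1 9) 1 4) 2 2) 2 1) :=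
  BlkD.NdX.tree s22_22_6_5_30 ok22_22_6_5 (by decide) hn

/-- a subtree -/
def t22_22_6_5_31 : BlkD.Tr :=
  .S 3 1 (.L 1 1 [11, 14, 17, 19, 18, 17] [82, 72, 60, 48, 36, 0] [] 100000 45000 45000 1000000 0 0
    0 0 0 0 15000) (.S 3 2 (.L 1 1 [11, 14, 17, 19, 18, 17] [82, 72, 60, 48, 36, 0] [34, 22, 10, 0,
    0, 0] 100000 40000 40000 1100000 0 0 0 0 0 0 20000) (.L 7 8 [4, 5, 5, 4, 5, 5] [82, 72, 60, 48,
    36, 0] [52, 42, 30, 18, 0, 0] 100000 40000 40000 1188889 11111 11111 11111 11111 0 0 44444))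

lemma s22_22_6_5_31 : BlkD.treeX d22_22_6_5 (BlkD.exF 6 5 x22_22_6_5) t22_22_6_5_31
    (BlkD.upd (BlkD.upd (BlkD.upd (BlkD.upd (BlkD.upd (fun _ => 0) 0 2) 0 3) 1 3) 1 4) 2 2)
    (BlkD.upd (BlkD.upd (BlkD.upd (BlkD.upd (BlkD.upd (BlkD.upd (BlkD.upd (BlkD.upd (BlkD.upd (BlkD.upd (fun _ => 22) 0 6) 2 5) 0 3) 1 19) 1 9) 1 4) 2 2) 3 13) 3 6) 3 3) = true := by
  decide +kernel

lemma n22_22_6_5_31 {n : ℕ} (hn : 5 ≤ n) : BlkD.NdX d22_22_6_5 (BlkD.exF 6 5 x22_22_6_5) n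
    (BlkD.upd (BlkD.upd (BlkD.upd (BlkD.upd (BlkD.upd (fun _ => 0) 0 2) 0 3) 1 3) 1 4) 2 2)
    (BlkD.upd (BlkD.upd (BlkD.upd (BlkD.upd (BlkD.upd (BlkD.upd (BlkD.upd (BlkD.upd (BlkD.upd (BlkD.upd (fun _ => 22) 0 6) 2 5) 0 3) 1 19) 1 9) 1 4) 2 2) 3 13) 3 6) 3 3) :=
  BlkD.NdX.tree s22_22_6_5_31 ok22_22_6_5 (by decide) hn

/-- a subtree -/
def t22_22_6_5_32 : BlkD.Tr :=
  .S 3 5 (.S 3 4 (.S 4 4 (.S 4 2 (.S 4 1 (.S 4 0 (.L 7 8 [4, 5, 5, 4, 5, 5] [36, 0, 0, 0, 0, 0]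
    [72, 62, 52, 40, 28, 0] 100000 16364 16364 1300000 9091 18182 0 45455 45455 27273 27273) (.S 5
    4 (.S 5 2 (.S 5 1 (.L 7 8 [4, 5, 5, 4, 5, 5] [48, 36, 0, 0, 0, 0] [40, 28, 0, 0, 0, 0] 100000
    21112 21112 1283333 5556 27778 55556 38889 27778 38889 25000) (.L 7 8 [4, 5, 5, 4, 5, 5] [48,
    36, 0, 0, 0, 0] [52, 40, 28, 0, 0, 0] 100000 20513 20513 1268590 8974 8974 31410 66667 44231
    8974 35256)) (.L 7 8 [4, 5, 5, 4, 5, 5] [48, 36, 0, 0, 0, 0] [72, 62, 52, 40, 28, 0] 100000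
    30000 30000 1150000 0 0 62500 87500 25000 0 25000)) (.E 2))) (.L 7 8 [4, 5, 5, 4, 5, 5] [60,
    48, 36, 0, 0, 0] [72, 62, 52, 40, 28, 0] 100000 34082 34082 1191837 4082 4082 100000 52041 0
    29592 25000)) (.L 7 8 [4, 5, 5, 4, 5, 5] [82, 72, 60, 48, 36, 0] [72, 62, 52, 40, 28, 0] 100000
    35863 28966 1086207 0 0 106897 53448 0 13793 17241)) (.E 2)) (.S 4 4 (.S 4 2 (.S 4 1 (.S 4 0
    (.L 7 8 [4, 5, 5, 4, 5, 5] [36, 0, 0, 0, 0, 0] [87, 84, 74, 64, 52, 40] 100000 11305 11305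
    1334784 13043 6522 0 45652 45652 52174 43478) (.S 5 5 (.S 5 2 (.L 7 8 [4, 5, 5, 4, 5, 5] [48,
    36, 0, 0, 0, 0] [64, 52, 40, 0, 0, 0] 100000 22500 22500 1275000 12500 6250 81250 31250 6250
    75000 25000) (.L 7 8 [4, 5, 5, 4, 5, 5] [48, 36, 0, 0, 0, 0] [87, 84, 74, 64, 52, 40] 100000
    16667 16666 1297221 5556 5556 30556 72222 58333 16667 25000)) (.E 2))) (.L 7 8 [4, 5, 5, 4, 5,
    5] [60, 48, 36, 0, 0, 0] [87, 84, 74, 64, 52, 40] 100000 30000 30000 1200000 0 0 100000 50000 0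
    50000 25000)) (.L 7 8 [4, 5, 5, 4, 5, 5] [82, 72, 60, 48, 36, 0] [87, 84, 74, 64, 52, 40]
    100000 40000 15000 1025000 0 0 125000 62500 0 12500 25000)) (.E 2))) (.S 4 4 (.S 4 2 (.S 4 1
    (.S 4 0 (.L 3 3 [5, 7, 8, 10, 11, 13] [36, 0, 0, 0, 0, 0] [104, 101, 98, 88, 78, 66] 100000
    30769 30768 1223077 0 30769 0 92308 69231 7692 23077) (.S 5 6 (.S 5 3 (.S 5 1 (.E 2) (.S 5 2
    (.E 2) (.E 9))) (.L 3 3 [5, 7, 8, 10, 11, 13] [48, 36, 0, 0, 0, 0] [104, 101, 98, 88, 78, 66]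
    100000 25000 25000 1250000 6250 0 31250 100000 50000 25000 25000)) (.E 2))) (.L 3 3 [5, 7, 8,
    10, 11, 13] [60, 48, 36, 0, 0, 0] [104, 101, 98, 88, 78, 66] 100000 25000 25000 1262500 0 0
    100000 37500 0 50000 25000)) (.L 3 3 [5, 7, 8, 10, 11, 13] [82, 72, 60, 48, 36, 0] [104, 101,
    98, 88, 78, 66] 100000 25000 0 1100000 0 0 125000 25000 0 50000 25000)) (.E 2))

lemma s22_22_6_5_32 : BlkD.treeX d22_22_6_5 (BlkD.exF 6 5 x22_22_6_5) t22_22_6_5_32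
    (BlkD.upd (BlkD.upd (BlkD.upd (BlkD.upd (BlkD.upd (BlkD.upd (fun _ => 0) 0 2) 0 3) 1 3) 1 4) 2 2) 3 4)
    (BlkD.upd (BlkD.upd (BlkD.upd (BlkD.upd (BlkD.upd (BlkD.upd (BlkD.upd (BlkD.upd (BlkD.upd (fun _ => 22) 0 6) 2 5) 0 3) 1 19) 1 9) 1 4) 2 2) 3 13) 3 6) = true := by
  decide +kernel

lemma n22_22_6_5_32 {n : ℕ} (hn : 5 ≤ n) : BlkD.NdX d22_22_6_5 (BlkD.exF 6 5 x22_22_6_5) n
    (BlkD.upd (BlkD.upd (BlkD.upd (BlkD.upd (BlkD.upd (BlkD.upd (fun _ => 0) 0 2) 0 3) 1 3) 1 4) 2 2) 3 4)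
    (BlkD.upd (BlkD.upd (BlkD.upd (BlkD.upd (BlkD.upd (BlkD.upd (BlkD.upd (BlkD.upd (BlkD.upd (fun _ => 22) 0 6) 2 5) 0 3) 1 19) 1 9) 1 4) 2 2) 3 13) 3 6) :=
  BlkD.NdX.tree s22_22_6_5_32 ok22_22_6_5 (by decide) hn

/-- a subtree -/
def t22_22_6_5_33 : BlkD.Tr :=
  .E 1

lemma s22_22_6_5_33 : BlkD.treeX d22_22_6_5 (BlkD.exF 6 5 x22_22_6_5) t22_22_6_5_33
    (BlkD.upd (BlkD.upd (BlkD.upd (BlkD.upd (BlkD.upd (BlkD.upd (fun _ => 0) 0 2) 0 3) 1 3) 1 4) 2 2) 3 7)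
    (BlkD.upd (BlkD.upd (BlkD.upd (BlkD.upd (BlkD.upd (BlkD.upd (BlkD.upd (BlkD.upd (fun _ => 22) 0 6) 2 5) 0 3) 1 19) 1 9) 1 4) 2 2) 3 13) = true := by
  decide +kernel

lemma n22_22_6_5_33 {n : ℕ} (hn : 5 ≤ n) : BlkD.NdX d22_22_6_5 (BlkD.exF 6 5 x22_22_6_5) n
    (BlkD.upd (BlkD.upd (BlkD.upd (BlkD.upd (BlkD.upd (BlkD.upd (fun _ => 0) 0 2) 0 3) 1 3) 1 4) 2 2) 3 7)
    (BlkD.upd (BlkD.upd (BlkD.upd (BlkD.upd (BlkD.upd (BlkD.upd (BlkD.upd (BlkD.upd (fun _ => 22) 0 6) 2 5) 0 3) 1 19) 1 9) 1 4) 2 2) 3 13) :=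
  BlkD.NdX.tree s22_22_6_5_33 ok22_22_6_5 (by decide) hn

/-- a subtree -/
def t22_22_6_5_34 : BlkD.Tr :=
  .E 1

lemma s22_22_6_5_34 : BlkD.treeX d22_22_6_5 (BlkD.exF 6 5 x22_22_6_5) t22_22_6_5_34
    (BlkD.upd (BlkD.upd (BlkD.upd (BlkD.upd (BlkD.upd (BlkD.upd (fun _ => 0) 0 2) 0 3) 1 3) 1 4) 2 2) 3 14)
    (BlkD.upd (BlkD.upd (BlkD.upd (BlkD.upd (BlkD.upd (BlkD.upd (BlkD.upd (fun _ => 22) 0 6) 2 5) 0 3) 1 19) 1 9) 1 4) 2 2) = true := by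
  decide +kernel

lemma n22_22_6_5_34 {n : ℕ} (hn : 5 ≤ n) : BlkD.NdX d22_22_6_5 (BlkD.exF 6 5 x22_22_6_5) n
    (BlkD.upd (BlkD.upd (BlkD.upd (BlkD.upd (BlkD.upd (BlkD.upd (fun _ => 0) 0 2) 0 3) 1 3) 1 4) 2 2) 3 14)
    (BlkD.upd (BlkD.upd (BlkD.upd (BlkD.upd (BlkD.upd (BlkD.upd (BlkD.upd (fun _ => 22) 0 6) 2 5) 0 3) 1 19) 1 9) 1 4) 2 2) :=
  BlkD.NdX.tree s22_22_6_5_34 ok22_22_6_5 (by decide) hn

end BlkC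

end Pool.Agent.Lib.MP_f04ccf_co
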