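import Pool.Agent.Lib.MP_f04ccf_co.M.BlkX22_22_6_5d

/-!
MP_f04ccf_co, block certificate with exceptions, `R = 22`, `H = 22`, the pair `(6, 5)` (data of helper99 / helper13,
generated by helper8, genx.py): part 3 of 5.
-/

set_option autoImplicit false
set_option maxRecDepth 100000

namespace Pool.Agent.Lib.MP_f04ccf_co

namespace BlkC

/-- a subtree -/
def t22_22_6_5_35 : BlkD.Tr :=
  .S 3 12 (.S 3 6 (.S 3 3 (.S 3 1 (.L 3 3 [5, 7, 8, 10, 11, 13] [82, 72, 60, 48, 36, 0] [] 100000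
    40000 40000 1100000 0 0 0 0 0 0 20000) (.S 3 2 (.L 6 7 [4, 4, 5, 5, 6, 6] [82, 72, 60, 48, 36,
    0] [38, 26, 14, 0, 0, 0] 100000 35826 35826 1219268 6422 0 83486 74656 4014 12844 25000) (.S 4
    4 (.S 4 2 (.S 4 1 (.L 5 6 [4, 4, 5, 6, 7, 7] [48, 36, 0, 0, 0, 0] [58, 48, 36, 24, 0, 0] 100000
    15000 15000 1300000 12500 0 50000 50000 37500 50000 25000) (.L 5 6 [4, 4, 5, 6, 7, 7] [60, 48,
    36, 0, 0, 0] [58, 48, 36, 24, 0, 0] 100000 32000 32000 1170000 20000 0 90000 40000 0 40000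
    30000)) (.L 5 6 [4, 4, 5, 6, 7, 7] [82, 72, 60, 48, 36, 0] [58, 48, 36, 24, 0, 0] 100000 32317
    18901 1073170 0 0 113415 37805 0 26829 14634)) (.E 2)))) (.S 3 5 (.S 3 4 (.S 4 4 (.S 4 2 (.S 4
    1 (.S 4 0 (.L 6 7 [4, 4, 5, 5, 6, 6] [36, 0, 0, 0, 0, 0] [80, 70, 60, 48, 36, 0] 100000 12000
    12000 1320000 20000 0 0 40000 40000 60000 40000) (.S 5 4 (.S 5 2 (.L 6 7 [4, 4, 5, 5, 6, 6]
    [48, 36, 0, 0, 0, 0] [60, 48, 36, 0, 0, 0] 100000 16667 16667 1310120 7738 397 83333 22421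
    16667 83333 27778) (.L 6 7 [4, 4, 5, 5, 6, 6] [48, 36, 0, 0, 0, 0] [80, 70, 60, 48, 36, 0]
    100000 22857 22856 1253572 14286 0 42857 75000 46429 14286 25000)) (.E 2))) (.L 6 7 [4, 4, 5,
    5, 6, 6] [60, 48, 36, 0, 0, 0] [80, 70, 60, 48, 36, 0] 100000 29000 29000 1197500 17500 0 92500
    37500 0 55000 25000)) (.L 6 7 [4, 4, 5, 5, 6, 6] [82, 72, 60, 48, 36, 0] [80, 70, 60, 48, 36,
    0] 100000 40000 15000 1025000 0 0 125000 62500 0 12500 25000)) (.E 2)) (.S 4 4 (.S 4 2 (.S 4 1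
    (.L 6 7 [4, 4, 5, 5, 6, 6] [48, 36, 0, 0, 0, 0] [97, 94, 84, 74, 62, 50] 100000 50000 50000
    1112500 50000 0 62500 87500 62500 0 25000) (.L 6 7 [4, 4, 5, 5, 6, 6] [60, 48, 36, 0, 0, 0]
    [97, 94, 84, 74, 62, 50] 100000 50000 50000 1100000 25000 0 100000 75000 0 0 25000)) (.L 6 7
    [4, 4, 5, 5, 6, 6] [82, 72, 60, 48, 36, 0] [97, 94, 84, 74, 62, 50] 100000 50000 0 900000 0 0
    150000 75000 0 0 25000)) (.E 2))) (.E 1))) (.E 1)) (.E 1)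

lemma s22_22_6_5_35 : BlkD.treeX d22_22_6_5 (BlkD.exF 6 5 x22_22_6_5) t22_22_6_5_35
    (BlkD.upd (BlkD.upd (BlkD.upd (BlkD.upd (BlkD.upd (fun _ => 0) 0 2) 0 3) 1 3) 1 4) 2 3)
    (BlkD.upd (BlkD.upd (BlkD.upd (BlkD.upd (BlkD.upd (BlkD.upd (BlkD.upd (BlkD.upd (fun _ => 22) 0 6) 2 5) 0 3) 1 19) 1 9) 1 4) 2 4) 2 3) = true := by
  decide +kernel

lemma n22_22_6_5_35 {n : ℕ} (hn : 5 ≤ n) : BlkD.NdX d22_22_6_5 (BlkD.exF 6 5 x22_22_6_5) n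
    (BlkD.upd (BlkD.upd (BlkD.upd (BlkD.upd (BlkD.upd (fun _ => 0) 0 2) 0 3) 1 3) 1 4) 2 3)
    (BlkD.upd (BlkD.upd (BlkD.upd (BlkD.upd (BlkD.upd (BlkD.upd (BlkD.upd (BlkD.upd (fun _ => 22) 0 6) 2 5) 0 3) 1 19) 1 9) 1 4) 2 4) 2 3) :=
  BlkD.NdX.tree s22_22_6_5_35 ok22_22_6_5 (by decide) hn

/-- a subtree -/
def t22_22_6_5_36 : BlkD.Tr :=
  .S 3 11 (.S 3 5 (.S 3 2 (.S 3 1 (.L 6 7 [4, 4, 5, 5, 6, 6] [82, 72, 60, 48, 36, 0] [] 100000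
    31516 31516 1228282 0 0 84848 84848 14141 14141 17172) (.S 4 4 (.S 4 2 (.S 4 1 (.L 6 7 [4, 4,
    5, 5, 6, 6] [48, 36, 0, 0, 0, 0] [42, 30, 18, 0, 0, 0] 100000 15385 15385 1288462 16346 0 53846
    43269 37500 48077 25000) (.L 6 7 [4, 4, 5, 5, 6, 6] [60, 48, 36, 0, 0, 0] [42, 30, 18, 0, 0, 0]
    100000 25000 25000 1175000 12500 0 100000 25000 0 75000 25000)) (.L 6 7 [4, 4, 5, 5, 6, 6] [82,
    72, 60, 48, 36, 0] [42, 30, 18, 0, 0, 0] 100000 33334 1 1033334 0 0 133333 0 0 33333 16667))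
    (.E 2))) (.S 3 4 (.S 3 3 (.S 4 4 (.S 4 2 (.S 4 1 (.L 6 7 [4, 4, 5, 5, 6, 6] [48, 36, 0, 0, 0,
    0] [64, 54, 42, 30, 0, 0] 100000 15000 15000 1296875 15625 0 56250 40625 34375 56250 25000) (.L
    6 7 [4, 4, 5, 5, 6, 6] [60, 48, 36, 0, 0, 0] [64, 54, 42, 30, 0, 0] 100000 25000 25000 1175000
    12500 0 100000 25000 0 75000 25000)) (.L 6 7 [4, 4, 5, 5, 6, 6] [82, 72, 60, 48, 36, 0] [64,
    54, 42, 30, 0, 0] 100000 40000 0 980000 0 0 140000 0 0 20000 15000)) (.E 2)) (.S 4 4 (.S 4 2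
    (.S 4 1 (.L 6 7 [4, 4, 5, 5, 6, 6] [48, 36, 0, 0, 0, 0] [88, 78, 68, 56, 44, 0] 100000 50000
    50000 1112500 43750 0 56250 100000 62500 0 25000) (.L 6 7 [4, 4, 5, 5, 6, 6] [60, 48, 36, 0, 0,
    0] [88, 78, 68, 56, 44, 0] 100000 50000 50000 1100000 25000 0 100000 75000 0 0 25000)) (.L 6 7
    [4, 4, 5, 5, 6, 6] [82, 72, 60, 48, 36, 0] [88, 78, 68, 56, 44, 0] 100000 50000 0 900000 0 0
    150000 75000 0 0 25000)) (.E 2))) (.E 1))) (.E 1)) (.E 1)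

lemma s22_22_6_5_36 : BlkD.treeX d22_22_6_5 (BlkD.exF 6 5 x22_22_6_5) t22_22_6_5_36
    (BlkD.upd (BlkD.upd (BlkD.upd (BlkD.upd (BlkD.upd (BlkD.upd (fun _ => 0) 0 2) 0 3) 1 3) 1 4) 2 3) 2 4)
    (BlkD.upd (BlkD.upd (BlkD.upd (BlkD.upd (BlkD.upd (BlkD.upd (BlkD.upd (fun _ => 22) 0 6) 2 5) 0 3) 1 19) 1 9) 1 4) 2 4) = true := by
  decide +kernel

lemma n22_22_6_5_36 {n : ℕ} (hn : 5 ≤ n) : BlkD.NdX d22_22_6_5 (BlkD.exF 6 5 x22_22_6_5) n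
    (BlkD.upd (BlkD.upd (BlkD.upd (BlkD.upd (BlkD.upd (BlkD.upd (fun _ => 0) 0 2) 0 3) 1 3) 1 4) 2 3) 2 4)
    (BlkD.upd (BlkD.upd (BlkD.upd (BlkD.upd (BlkD.upd (BlkD.upd (BlkD.upd (fun _ => 22) 0 6) 2 5) 0 3) 1 19) 1 9) 1 4) 2 4) :=
  BlkD.NdX.tree s22_22_6_5_36 ok22_22_6_5 (by decide) hn

/-- a subtree -/
def t22_22_6_5_37 : BlkD.Tr :=
  .S 3 10 (.S 3 5 (.S 3 2 (.L 6 7 [4, 4, 5, 5, 6, 6] [82, 72, 60, 48, 36, 0] [] 100000 48125 48125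
    1156252 51562 0 93750 37500 7812 50000 25000) (.E 1)) (.E 1)) (.E 1)

lemma s22_22_6_5_37 : BlkD.treeX d22_22_6_5 (BlkD.exF 6 5 x22_22_6_5) t22_22_6_5_37
    (BlkD.upd (BlkD.upd (BlkD.upd (BlkD.upd (BlkD.upd (BlkD.upd (fun _ => 0) 0 2) 0 3) 1 3) 1 4) 2 3) 2 5)
    (BlkD.upd (BlkD.upd (BlkD.upd (BlkD.upd (BlkD.upd (BlkD.upd (fun _ => 22) 0 6) 2 5) 0 3) 1 19) 1 9) 1 4) = true := by
  decide +kernel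

lemma n22_22_6_5_37 {n : ℕ} (hn : 5 ≤ n) : BlkD.NdX d22_22_6_5 (BlkD.exF 6 5 x22_22_6_5) n
    (BlkD.upd (BlkD.upd (BlkD.upd (BlkD.upd (BlkD.upd (BlkD.upd (fun _ => 0) 0 2) 0 3) 1 3) 1 4) 2 3) 2 5)
    (BlkD.upd (BlkD.upd (BlkD.upd (BlkD.upd (BlkD.upd (BlkD.upd (fun _ => 22) 0 6) 2 5) 0 3) 1 19) 1 9) 1 4) :=
  BlkD.NdX.tree s22_22_6_5_37 ok22_22_6_5 (by decide) hn

/-- a subtree -/
def t22_22_6_5_38 : BlkD.Tr :=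
  .S 2 0 (.L 6 7 [4, 4, 5, 5, 6, 6] [104, 96, 86, 74, 62, 50] [] 100000 60000 60000 850000 0 0
    50000 100000 0 0 0) (.S 3 13 (.S 3 6 (.S 3 3 (.L 6 7 [4, 4, 5, 5, 6, 6] [104, 96, 86, 74, 62,
    50] [] 100000 54286 54285 1057142 0 71429 71429 71429 0 0 14286) (.S 3 5 (.L 6 7 [4, 4, 5, 5,
    6, 6] [104, 96, 86, 74, 62, 50] [] 100000 53847 53847 1123076 0 69231 69231 69231 0 0 23077)
    (.L 1 1 [11, 14, 17, 19, 18, 17] [104, 96, 86, 74, 62, 50] [92, 89, 86, 76, 66, 54] 100000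
    69231 61539 1015385 0 76923 65385 100000 0 0 23077))) (.L 1 1 [11, 14, 17, 19, 18, 17] [104,
    96, 86, 74, 62, 50] [] 100000 59091 59091 1031819 0 77273 59091 81818 18182 18182 20455)) (.E
    1))

lemma s22_22_6_5_38 : BlkD.treeX d22_22_6_5 (BlkD.exF 6 5 x22_22_6_5) t22_22_6_5_38
    (BlkD.upd (BlkD.upd (BlkD.upd (fun _ => 0) 0 2) 0 3) 1 5)
    (BlkD.upd (BlkD.upd (BlkD.upd (BlkD.upd (BlkD.upd (BlkD.upd (BlkD.upd (BlkD.upd (BlkD.upd (BlkD.upd (fun _ => 22) 0 6) 2 5) 0 3) 1 19) 1 9) 1 7) 1 6) 1 5) 2 2) 2 1) = true := by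
  decide +kernel

lemma n22_22_6_5_38 {n : ℕ} (hn : 5 ≤ n) : BlkD.NdX d22_22_6_5 (BlkD.exF 6 5 x22_22_6_5) n
    (BlkD.upd (BlkD.upd (BlkD.upd (fun _ => 0) 0 2) 0 3) 1 5)
    (BlkD.upd (BlkD.upd (BlkD.upd (BlkD.upd (BlkD.upd (BlkD.upd (BlkD.upd (BlkD.upd (BlkD.upd (BlkD.upd (fun _ => 22) 0 6) 2 5) 0 3) 1 19) 1 9) 1 7) 1 6) 1 5) 2 2) 2 1) :=
  BlkD.NdX.tree s22_22_6_5_38 ok22_22_6_5 (by decide) hn

/-- a subtree -/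
def t22_22_6_5_39 : BlkD.Tr :=
  .S 3 1 (.L 1 1 [11, 14, 17, 19, 18, 17] [104, 96, 86, 74, 62, 50] [] 100000 40000 40000 1100000 0
    0 0 0 0 0 20000) (.S 3 2 (.L 1 1 [11, 14, 17, 19, 18, 17] [104, 96, 86, 74, 62, 50] [34, 22,
    10, 0, 0, 0] 100000 28572 28572 1228571 0 0 71429 0 28571 0 28571) (.S 4 5 (.S 4 2 (.S 4 1 (.L
    6 7 [4, 4, 5, 5, 6, 6] [62, 50, 0, 0, 0, 0] [52, 42, 30, 18, 0, 0] 100000 14667 14667 1313336 0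
    13333 26667 73333 50000 26667 26667) (.S 5 3 (.S 5 1 (.L 6 7 [4, 4, 5, 5, 6, 6] [74, 62, 50, 0,
    0, 0] [30, 18, 0, 0, 0, 0] 100000 15200 15200 1314000 8000 8000 48000 48000 46000 32000 24000)
    (.L 6 7 [4, 4, 5, 5, 6, 6] [74, 62, 50, 0, 0, 0] [52, 42, 30, 18, 0, 0] 100000 30000 30000
    1150000 0 0 62500 87500 25000 0 25000)) (.E 2))) (.L 6 7 [4, 4, 5, 5, 6, 6] [104, 96, 86, 74,
    62, 50] [52, 42, 30, 18, 0, 0] 100000 36364 36364 1190910 0 9091 100000 59091 0 18182 22727))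
    (.E 2)))

lemma s22_22_6_5_39 : BlkD.treeX d22_22_6_5 (BlkD.exF 6 5 x22_22_6_5) t22_22_6_5_39
    (BlkD.upd (BlkD.upd (BlkD.upd (BlkD.upd (fun _ => 0) 0 2) 0 3) 1 5) 2 2)
    (BlkD.upd (BlkD.upd (BlkD.upd (BlkD.upd (BlkD.upd (BlkD.upd (BlkD.upd (BlkD.upd (BlkD.upd (BlkD.upd (BlkD.upd (BlkD.upd (fun _ => 22) 0 6) 2 5) 0 3) 1 19) 1 9) 1 7) 1 6) 1 5) 2 2) 3 12) 3 6) 3 3) = true := by
  decide +kernel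

lemma n22_22_6_5_39 {n : ℕ} (hn : 5 ≤ n) : BlkD.NdX d22_22_6_5 (BlkD.exF 6 5 x22_22_6_5) n
    (BlkD.upd (BlkD.upd (BlkD.upd (BlkD.upd (fun _ => 0) 0 2) 0 3) 1 5) 2 2)
    (BlkD.upd (BlkD.upd (BlkD.upd (BlkD.upd (BlkD.upd (BlkD.upd (BlkD.upd (BlkD.upd (BlkD.upd (BlkD.upd (BlkD.upd (BlkD.upd (fun _ => 22) 0 6) 2 5) 0 3) 1 19) 1 9) 1 7) 1 6) 1 5) 2 2) 3 12) 3 6) 3 3) :=
  BlkD.NdX.tree s22_22_6_5_39 ok22_22_6_5 (by decide) hn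

/-- a subtree -/
def t22_22_6_5_40 : BlkD.Tr :=
  .S 3 5 (.S 3 4 (.S 4 5 (.S 4 2 (.S 4 1 (.S 4 0 (.L 6 7 [4, 4, 5, 5, 6, 6] [50, 0, 0, 0, 0, 0]
    [72, 62, 52, 40, 28, 0] 100000 51515 51514 1066669 3030 81818 0 90909 48485 9091 24242) (.L 6 7
    [4, 4, 5, 5, 6, 6] [62, 50, 0, 0, 0, 0] [72, 62, 52, 40, 28, 0] 100000 15490 15489 1318628
    17647 5392 53922 48039 41176 43137 22549)) (.S 5 4 (.S 5 2 (.S 5 1 (.L 6 7 [4, 4, 5, 5, 6, 6]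
    [74, 62, 50, 0, 0, 0] [40, 28, 0, 0, 0, 0] 100000 26000 26000 1255000 10000 10000 95000 20000 0
    70000 25000) (.L 6 7 [4, 4, 5, 5, 6, 6] [74, 62, 50, 0, 0, 0] [52, 40, 28, 0, 0, 0] 100000
    16667 16667 1297916 4167 4167 32292 73958 58333 16667 25000)) (.L 6 7 [4, 4, 5, 5, 6, 6] [74,
    62, 50, 0, 0, 0] [72, 62, 52, 40, 28, 0] 100000 25000 16667 1150001 0 0 33333 108333 50000 0
    25000)) (.E 2))) (.L 6 7 [4, 4, 5, 5, 6, 6] [104, 96, 86, 74, 62, 50] [72, 62, 52, 40, 28, 0]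
    100000 34211 34211 1189474 3509 3509 100000 51754 0 28947 25000)) (.E 2)) (.S 4 5 (.S 4 2 (.S 4
    1 (.S 4 0 (.L 6 7 [4, 4, 5, 5, 6, 6] [50, 0, 0, 0, 0, 0] [87, 84, 74, 64, 52, 40] 100000 39706
    39705 1151471 3431 64216 0 74510 68137 14706 25000) (.L 6 7 [4, 4, 5, 5, 6, 6] [62, 50, 0, 0,
    0, 0] [87, 84, 74, 64, 52, 40] 100000 15898 15898 1317949 17949 0 56410 53846 41026 43590
    20513)) (.S 5 5 (.S 5 2 (.L 6 7 [4, 4, 5, 5, 6, 6] [74, 62, 50, 0, 0, 0] [64, 52, 40, 0, 0, 0]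
    100000 27500 27500 1250000 12500 6250 100000 18750 0 56250 25000) (.L 6 7 [4, 4, 5, 5, 6, 6]
    [74, 62, 50, 0, 0, 0] [87, 84, 74, 64, 52, 40] 100000 20000 20000 1275000 0 0 25000 100000
    55000 20000 25000)) (.E 2))) (.L 6 7 [4, 4, 5, 5, 6, 6] [104, 96, 86, 74, 62, 50] [87, 84, 74,
    64, 52, 40] 100000 30000 30000 1200000 0 0 100000 50000 0 25000 25000)) (.E 2))) (.S 4 5 (.S 4
    2 (.S 4 1 (.L 6 7 [4, 4, 5, 5, 6, 6] [62, 50, 0, 0, 0, 0] [104, 101, 98, 88, 78, 66] 100000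
    126667 0 0 60000 0 0 226667 0 0 0) (.S 5 6 (.S 5 3 (.S 5 1 (.E 2) (.S 5 2 (.E 2) (.E 9))) (.L 6
    7 [4, 4, 5, 5, 6, 6] [74, 62, 50, 0, 0, 0] [104, 101, 98, 88, 78, 66] 100000 50000 49999
    1099999 16667 0 75000 100000 0 0 25000)) (.E 2))) (.L 6 7 [4, 4, 5, 5, 6, 6] [104, 96, 86, 74,
    62, 50] [104, 101, 98, 88, 78, 66] 100000 25000 25000 1242309 0 11538 100000 23077 0 53846
    22115)) (.E 2))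

lemma s22_22_6_5_40 : BlkD.treeX d22_22_6_5 (BlkD.exF 6 5 x22_22_6_5) t22_22_6_5_40
    (BlkD.upd (BlkD.upd (BlkD.upd (BlkD.upd (BlkD.upd (fun _ => 0) 0 2) 0 3) 1 5) 2 2) 3 4)
    (BlkD.upd (BlkD.upd (BlkD.upd (BlkD.upd (BlkD.upd (BlkD.upd (BlkD.upd (BlkD.upd (BlkD.upd (BlkD.upd (BlkD.upd (fun _ => 22) 0 6) 2 5) 0 3) 1 19) 1 9) 1 7) 1 6) 1 5) 2 2) 3 12) 3 6) = true := by
  decide +kernel

lemma n22_22_6_5_40 {n : ℕ} (hn : 5 ≤ n) : BlkD.NdX d22_22_6_5 (BlkD.exF 6 5 x22_22_6_5) n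
    (BlkD.upd (BlkD.upd (BlkD.upd (BlkD.upd (BlkD.upd (fun _ => 0) 0 2) 0 3) 1 5) 2 2) 3 4)
    (BlkD.upd (BlkD.upd (BlkD.upd (BlkD.upd (BlkD.upd (BlkD.upd (BlkD.upd (BlkD.upd (BlkD.upd (BlkD.upd (BlkD.upd (fun _ => 22) 0 6) 2 5) 0 3) 1 19) 1 9) 1 7) 1 6) 1 5) 2 2) 3 12) 3 6) :=
  BlkD.NdX.tree s22_22_6_5_40 ok22_22_6_5 (by decide) hn

/-- a subtree -/
def t22_22_6_5_41 : BlkD.Tr :=
  .E 1

lemma s22_22_6_5_41 : BlkD.treeX d22_22_6_5 (BlkD.exF 6 5 x22_22_6_5) t22_22_6_5_41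
    (BlkD.upd (BlkD.upd (BlkD.upd (BlkD.upd (BlkD.upd (fun _ => 0) 0 2) 0 3) 1 5) 2 2) 3 7)
    (BlkD.upd (BlkD.upd (BlkD.upd (BlkD.upd (BlkD.upd (BlkD.upd (BlkD.upd (BlkD.upd (BlkD.upd (BlkD.upd (fun _ => 22) 0 6) 2 5) 0 3) 1 19) 1 9) 1 7) 1 6) 1 5) 2 2) 3 12) = true := by
  decide +kernel

lemma n22_22_6_5_41 {n : ℕ} (hn : 5 ≤ n) : BlkD.NdX d22_22_6_5 (BlkD.exF 6 5 x22_22_6_5) n
    (BlkD.upd (BlkD.upd (BlkD.upd (BlkD.upd (BlkD.upd (fun _ => 0) 0 2) 0 3) 1 5) 2 2) 3 7)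
    (BlkD.upd (BlkD.upd (BlkD.upd (BlkD.upd (BlkD.upd (BlkD.upd (BlkD.upd (BlkD.upd (BlkD.upd (BlkD.upd (fun _ => 22) 0 6) 2 5) 0 3) 1 19) 1 9) 1 7) 1 6) 1 5) 2 2) 3 12) :=
  BlkD.NdX.tree s22_22_6_5_41 ok22_22_6_5 (by decide) hn

/-- a subtree -/
def t22_22_6_5_42 : BlkD.Tr :=
  .E 1

lemma s22_22_6_5_42 : BlkD.treeX d22_22_6_5 (BlkD.exF 6 5 x22_22_6_5) t22_22_6_5_42
    (BlkD.upd (BlkD.upd (BlkD.upd (BlkD.upd (BlkD.upd (fun _ => 0) 0 2) 0 3) 1 5) 2 2) 3 13)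
    (BlkD.upd (BlkD.upd (BlkD.upd (BlkD.upd (BlkD.upd (BlkD.upd (BlkD.upd (BlkD.upd (BlkD.upd (fun _ => 22) 0 6) 2 5) 0 3) 1 19) 1 9) 1 7) 1 6) 1 5) 2 2) = true := by
  decide +kernel

lemma n22_22_6_5_42 {n : ℕ} (hn : 5 ≤ n) : BlkD.NdX d22_22_6_5 (BlkD.exF 6 5 x22_22_6_5) n
    (BlkD.upd (BlkD.upd (BlkD.upd (BlkD.upd (BlkD.upd (fun _ => 0) 0 2) 0 3) 1 5) 2 2) 3 13)
    (BlkD.upd (BlkD.upd (BlkD.upd (BlkD.upd (BlkD.upd (BlkD.upd (BlkD.upd (BlkD.upd (BlkD.upd (fun _ => 22) 0 6) 2 5) 0 3) 1 19) 1 9) 1 7) 1 6) 1 5) 2 2) :=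
  BlkD.NdX.tree s22_22_6_5_42 ok22_22_6_5 (by decide) hn

/-- a subtree -/
def t22_22_6_5_43 : BlkD.Tr :=
  .S 3 1 (.L 6 7 [4, 4, 5, 5, 6, 6] [104, 96, 86, 74, 62, 50] [] 100000 28572 28572 1228571 0 0
    71429 0 28571 0 28571) (.S 4 5 (.S 4 2 (.S 4 1 (.L 6 7 [4, 4, 5, 5, 6, 6] [62, 50, 0, 0, 0, 0]
    [38, 26, 14, 0, 0, 0] 100000 14546 14546 1309093 9091 0 9091 72727 40909 27273 31818) (.S 5 2
    (.S 5 1 (.L 6 7 [4, 4, 5, 5, 6, 6] [74, 62, 50, 0, 0, 0] [26, 14, 0, 0, 0, 0] 100000 15000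
    14999 1293750 16667 0 50000 37500 43750 37500 25000) (.L 6 7 [4, 4, 5, 5, 6, 6] [74, 62, 50, 0,
    0, 0] [38, 26, 14, 0, 0, 0] 100000 30000 30000 1150000 0 0 62500 87500 25000 0 25000)) (.E 2)))
    (.L 6 7 [4, 4, 5, 5, 6, 6] [104, 96, 86, 74, 62, 50] [38, 26, 14, 0, 0, 0] 100000 36667 36667
    1187503 8333 0 95833 58333 0 16667 25000)) (.E 2))

lemma s22_22_6_5_43 : BlkD.treeX d22_22_6_5 (BlkD.exF 6 5 x22_22_6_5) t22_22_6_5_43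
    (BlkD.upd (BlkD.upd (BlkD.upd (BlkD.upd (fun _ => 0) 0 2) 0 3) 1 5) 2 3)
    (BlkD.upd (BlkD.upd (BlkD.upd (BlkD.upd (BlkD.upd (BlkD.upd (BlkD.upd (BlkD.upd (BlkD.upd (BlkD.upd (BlkD.upd (BlkD.upd (BlkD.upd (fun _ => 22) 0 6) 2 5) 0 3) 1 19) 1 9) 1 7) 1 6) 1 5) 2 4) 2 3) 3 11) 3 5) 3 2) = true := by
  decide +kernel

lemma n22_22_6_5_43 {n : ℕ} (hn : 5 ≤ n) : BlkD.NdX d22_22_6_5 (BlkD.exF 6 5 x22_22_6_5) n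
    (BlkD.upd (BlkD.upd (BlkD.upd (BlkD.upd (fun _ => 0) 0 2) 0 3) 1 5) 2 3)
    (BlkD.upd (BlkD.upd (BlkD.upd (BlkD.upd (BlkD.upd (BlkD.upd (BlkD.upd (BlkD.upd (BlkD.upd (BlkD.upd (BlkD.upd (BlkD.upd (BlkD.upd (fun _ => 22) 0 6) 2 5) 0 3) 1 19) 1 9) 1 7) 1 6) 1 5) 2 4) 2 3) 3 11) 3 5) 3 2) :=
  BlkD.NdX.tree s22_22_6_5_43 ok22_22_6_5 (by decide) hn

/-- a subtree -/
def t22_22_6_5_44 : BlkD.Tr :=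
  .S 3 4 (.S 3 3 (.S 4 5 (.S 4 2 (.S 4 1 (.S 4 0 (.L 5 6 [4, 4, 5, 6, 7, 7] [50, 0, 0, 0, 0, 0]
    [58, 48, 36, 24, 0, 0] 100000 17143 17142 1299999 14286 14286 0 57143 28571 57143 42857) (.L 5
    6 [4, 4, 5, 6, 7, 7] [62, 50, 0, 0, 0, 0] [58, 48, 36, 24, 0, 0] 100000 15446 15446 1284159
    17822 0 62376 44554 40594 53465 22772)) (.L 5 6 [4, 4, 5, 6, 7, 7] [74, 62, 50, 0, 0, 0] [58,
    48, 36, 24, 0, 0] 100000 17500 17500 1300000 12500 0 62500 37500 37500 37500 25000)) (.L 5 6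
    [4, 4, 5, 6, 7, 7] [104, 96, 86, 74, 62, 50] [58, 48, 36, 24, 0, 0] 100000 32500 32500 1175000
    12500 0 100000 37500 0 37500 25000)) (.E 2)) (.S 4 5 (.S 4 2 (.S 4 1 (.S 4 0 (.S 5 4 (.S 5 2
    (.L 5 6 [4, 4, 5, 6, 7, 7] [50, 0, 0, 0, 0, 0] [60, 48, 36, 0, 0, 0] 100000 28000 28000 1252000
    36000 8000 0 44000 8000 56000 28000) (.L 5 6 [4, 4, 5, 6, 7, 7] [50, 0, 0, 0, 0, 0] [80, 70,
    60, 48, 36, 0] 100000 45455 45455 1072728 31818 0 0 100000 22727 0 22727)) (.E 2)) (.L 5 6 [4,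
    4, 5, 6, 7, 7] [62, 50, 0, 0, 0, 0] [80, 70, 60, 48, 36, 0] 100000 28333 28332 1241668 33333 0
    91667 33333 16667 50000 25000)) (.S 5 4 (.S 5 2 (.L 5 6 [4, 4, 5, 6, 7, 7] [74, 62, 50, 0, 0,
    0] [60, 48, 36, 0, 0, 0] 100000 26667 26667 1249999 16667 0 100000 16667 0 58333 25000) (.L 5 6
    [4, 4, 5, 6, 7, 7] [74, 62, 50, 0, 0, 0] [80, 70, 60, 48, 36, 0] 100000 20000 20000 1275000 0 0
    25000 100000 50000 25000 25000)) (.E 2))) (.L 5 6 [4, 4, 5, 6, 7, 7] [104, 96, 86, 74, 62, 50]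
    [80, 70, 60, 48, 36, 0] 100000 30000 30000 1200000 0 0 100000 50000 0 25000 25000)) (.E 2)))
    (.L 5 6 [4, 4, 5, 6, 7, 7] [104, 96, 86, 74, 62, 50] [97, 94, 84, 74, 62, 50] 100000 50000
    50000 1100000 0 0 100000 100000 0 0 25000)

lemma s22_22_6_5_44 : BlkD.treeX d22_22_6_5 (BlkD.exF 6 5 x22_22_6_5) t22_22_6_5_44
    (BlkD.upd (BlkD.upd (BlkD.upd (BlkD.upd (BlkD.upd (fun _ => 0) 0 2) 0 3) 1 5) 2 3) 3 3)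
    (BlkD.upd (BlkD.upd (BlkD.upd (BlkD.upd (BlkD.upd (BlkD.upd (BlkD.upd (BlkD.upd (BlkD.upd (BlkD.upd (BlkD.upd (BlkD.upd (fun _ => 22) 0 6) 2 5) 0 3) 1 19) 1 9) 1 7) 1 6) 1 5) 2 4) 2 3) 3 11) 3 5) = true := by
  decide +kernel

lemma n22_22_6_5_44 {n : ℕ} (hn : 5 ≤ n) : BlkD.NdX d22_22_6_5 (BlkD.exF 6 5 x22_22_6_5) n
    (BlkD.upd (BlkD.upd (BlkD.upd (BlkD.upd (BlkD.upd (fun _ => 0) 0 2) 0 3) 1 5) 2 3) 3 3)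
    (BlkD.upd (BlkD.upd (BlkD.upd (BlkD.upd (BlkD.upd (BlkD.upd (BlkD.upd (BlkD.upd (BlkD.upd (BlkD.upd (BlkD.upd (BlkD.upd (fun _ => 22) 0 6) 2 5) 0 3) 1 19) 1 9) 1 7) 1 6) 1 5) 2 4) 2 3) 3 11) 3 5) :=
  BlkD.NdX.tree s22_22_6_5_44 ok22_22_6_5 (by decide) hn

/-- a subtree -/
def t22_22_6_5_45 : BlkD.Tr :=
  .E 1

lemma s22_22_6_5_45 : BlkD.treeX d22_22_6_5 (BlkD.exF 6 5 x22_22_6_5) t22_22_6_5_45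
    (BlkD.upd (BlkD.upd (BlkD.upd (BlkD.upd (BlkD.upd (fun _ => 0) 0 2) 0 3) 1 5) 2 3) 3 6)
    (BlkD.upd (BlkD.upd (BlkD.upd (BlkD.upd (BlkD.upd (BlkD.upd (BlkD.upd (BlkD.upd (BlkD.upd (BlkD.upd (BlkD.upd (fun _ => 22) 0 6) 2 5) 0 3) 1 19) 1 9) 1 7) 1 6) 1 5) 2 4) 2 3) 3 11) = true := by
  decide +kernel

lemma n22_22_6_5_45 {n : ℕ} (hn : 5 ≤ n) : BlkD.NdX d22_22_6_5 (BlkD.exF 6 5 x22_22_6_5) n
    (BlkD.upd (BlkD.upd (BlkD.upd (BlkD.upd (BlkD.upd (fun _ => 0) 0 2) 0 3) 1 5) 2 3) 3 6)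
    (BlkD.upd (BlkD.upd (BlkD.upd (BlkD.upd (BlkD.upd (BlkD.upd (BlkD.upd (BlkD.upd (BlkD.upd (BlkD.upd (BlkD.upd (fun _ => 22) 0 6) 2 5) 0 3) 1 19) 1 9) 1 7) 1 6) 1 5) 2 4) 2 3) 3 11) :=
  BlkD.NdX.tree s22_22_6_5_45 ok22_22_6_5 (by decide) hn

/-- a subtree -/
def t22_22_6_5_46 : BlkD.Tr :=
  .E 1

lemma s22_22_6_5_46 : BlkD.treeX d22_22_6_5 (BlkD.exF 6 5 x22_22_6_5) t22_22_6_5_46
    (BlkD.upd (BlkD.upd (BlkD.upd (BlkD.upd (BlkD.upd (fun _ => 0) 0 2) 0 3) 1 5) 2 3) 3 12)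
    (BlkD.upd (BlkD.upd (BlkD.upd (BlkD.upd (BlkD.upd (BlkD.upd (BlkD.upd (BlkD.upd (BlkD.upd (BlkD.upd (fun _ => 22) 0 6) 2 5) 0 3) 1 19) 1 9) 1 7) 1 6) 1 5) 2 4) 2 3) = true := by
  decide +kernel

lemma n22_22_6_5_46 {n : ℕ} (hn : 5 ≤ n) : BlkD.NdX d22_22_6_5 (BlkD.exF 6 5 x22_22_6_5) n
    (BlkD.upd (BlkD.upd (BlkD.upd (BlkD.upd (BlkD.upd (fun _ => 0) 0 2) 0 3) 1 5) 2 3) 3 12)
    (BlkD.upd (BlkD.upd (BlkD.upd (BlkD.upd (BlkD.upd (BlkD.upd (BlkD.upd (BlkD.upd (BlkD.upd (BlkD.upd (fun _ => 22) 0 6) 2 5) 0 3) 1 19) 1 9) 1 7) 1 6) 1 5) 2 4) 2 3) :=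
  BlkD.NdX.tree s22_22_6_5_46 ok22_22_6_5 (by decide) hn

/-- a subtree -/
def t22_22_6_5_47 : BlkD.Tr :=
  .S 3 10 (.S 3 5 (.S 3 2 (.S 3 1 (.S 3 0 (.L 5 6 [4, 4, 5, 6, 7, 7] [104, 96, 86, 74, 62, 50] [0,
    0, 0, 0, 0, 0] 100000 28572 28572 1228571 0 0 71429 0 28571 0 28571) (.S 4 5 (.S 4 2 (.L 5 6
    [4, 4, 5, 6, 7, 7] [74, 62, 50, 0, 0, 0] [20, 8, 0, 0, 0, 0] 100000 14783 14783 1300001 13043
    13043 41304 52174 43478 39130 39130) (.L 5 6 [4, 4, 5, 6, 7, 7] [104, 96, 86, 74, 62, 50] [20,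
    8, 0, 0, 0, 0] 100000 36667 36667 1116667 0 0 100000 83333 0 16667 16667)) (.E 2))) (.S 4 5 (.S
    4 2 (.L 6 7 [4, 4, 5, 5, 6, 6] [74, 62, 50, 0, 0, 0] [42, 30, 18, 0, 0, 0] 100000 15000 14999
    1319396 20043 216 40841 41595 41164 42672 25000) (.L 6 7 [4, 4, 5, 5, 6, 6] [104, 96, 86, 74,
    62, 50] [42, 30, 18, 0, 0, 0] 100000 25000 25000 1183334 8333 0 100000 16667 0 75000 25000))
    (.E 2))) (.S 3 4 (.S 3 3 (.S 4 5 (.S 4 2 (.L 6 7 [4, 4, 5, 5, 6, 6] [74, 62, 50, 0, 0, 0] [64,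
    54, 42, 30, 0, 0] 100000 15000 14999 1315909 20455 0 40909 40909 34091 43182 25000) (.L 6 7 [4,
    4, 5, 5, 6, 6] [104, 96, 86, 74, 62, 50] [64, 54, 42, 30, 0, 0] 100000 20000 20000 1200000 0 0
    100000 20000 20000 60000 20000)) (.E 2)) (.L 6 7 [4, 4, 5, 5, 6, 6] [104, 96, 86, 74, 62, 50]
    [88, 78, 68, 56, 44, 0] 100000 50000 50000 1100000 0 0 100000 100000 0 0 25000)) (.E 1))) (.E
    1)) (.E 1)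

lemma s22_22_6_5_47 : BlkD.treeX d22_22_6_5 (BlkD.exF 6 5 x22_22_6_5) t22_22_6_5_47
    (BlkD.upd (BlkD.upd (BlkD.upd (BlkD.upd (BlkD.upd (fun _ => 0) 0 2) 0 3) 1 5) 2 3) 2 4)
    (BlkD.upd (BlkD.upd (BlkD.upd (BlkD.upd (BlkD.upd (BlkD.upd (BlkD.upd (BlkD.upd (BlkD.upd (fun _ => 22) 0 6) 2 5) 0 3) 1 19) 1 9) 1 7) 1 6) 1 5) 2 4) = true := by
  decide +kernel

lemma n22_22_6_5_47 {n : ℕ} (hn : 5 ≤ n) : BlkD.NdX d22_22_6_5 (BlkD.exF 6 5 x22_22_6_5) n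
    (BlkD.upd (BlkD.upd (BlkD.upd (BlkD.upd (BlkD.upd (fun _ => 0) 0 2) 0 3) 1 5) 2 3) 2 4)
    (BlkD.upd (BlkD.upd (BlkD.upd (BlkD.upd (BlkD.upd (BlkD.upd (BlkD.upd (BlkD.upd (BlkD.upd (fun _ => 22) 0 6) 2 5) 0 3) 1 19) 1 9) 1 7) 1 6) 1 5) 2 4) :=
  BlkD.NdX.tree s22_22_6_5_47 ok22_22_6_5 (by decide) hn

/-- a subtree -/
def t22_22_6_5_48 : BlkD.Tr :=
  .S 3 9 (.S 3 4 (.S 3 2 (.S 3 1 (.L 6 7 [4, 4, 5, 5, 6, 6] [104, 96, 86, 74, 62, 50] [] 100000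
    28333 28332 1233335 33333 0 54167 33333 12500 50000 25000) (.L 7 8 [4, 5, 5, 4, 5, 5] [104, 96,
    86, 74, 62, 50] [46, 34, 22, 0, 0, 0] 100000 50000 50000 1140000 60000 0 80000 30000 30000
    50000 25000)) (.E 1)) (.E 1)) (.E 1)

lemma s22_22_6_5_48 : BlkD.treeX d22_22_6_5 (BlkD.exF 6 5 x22_22_6_5) t22_22_6_5_48
    (BlkD.upd (BlkD.upd (BlkD.upd (BlkD.upd (BlkD.upd (fun _ => 0) 0 2) 0 3) 1 5) 2 3) 2 5)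
    (BlkD.upd (BlkD.upd (BlkD.upd (BlkD.upd (BlkD.upd (BlkD.upd (BlkD.upd (BlkD.upd (fun _ => 22) 0 6) 2 5) 0 3) 1 19) 1 9) 1 7) 1 6) 1 5) = true := by
  decide +kernel

lemma n22_22_6_5_48 {n : ℕ} (hn : 5 ≤ n) : BlkD.NdX d22_22_6_5 (BlkD.exF 6 5 x22_22_6_5) n
    (BlkD.upd (BlkD.upd (BlkD.upd (BlkD.upd (BlkD.upd (fun _ => 0) 0 2) 0 3) 1 5) 2 3) 2 5)
    (BlkD.upd (BlkD.upd (BlkD.upd (BlkD.upd (BlkD.upd (BlkD.upd (BlkD.upd (BlkD.upd (fun _ => 22) 0 6) 2 5) 0 3) 1 19) 1 9) 1 7) 1 6) 1 5) :=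
  BlkD.NdX.tree s22_22_6_5_48 ok22_22_6_5 (by decide) hn

/-- a subtree -/
def t22_22_6_5_49 : BlkD.Tr :=
  .S 2 0 (.L 7 8 [4, 5, 5, 4, 5, 5] [120, 120, 112, 102, 90, 78] [] 100000 60000 60000 900001 0 0
    33333 100000 0 0 0) (.S 3 12 (.S 3 6 (.S 3 3 (.L 7 8 [4, 5, 5, 4, 5, 5] [120, 120, 112, 102,
    90, 78] [] 100000 44286 44286 1116329 0 61224 61224 61224 12245 0 15306) (.S 3 5 (.S 3 4 (.L 7
    8 [4, 5, 5, 4, 5, 5] [120, 120, 112, 102, 90, 78] [64, 54, 44, 32, 20, 0] 100000 43159 43159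
    1163156 0 59211 59211 59211 11842 0 19737) (.L 1 1 [11, 14, 17, 19, 18, 17] [120, 120, 112,
    102, 90, 78] [77, 74, 64, 54, 42, 30] 100000 54264 54264 1121707 0 69767 54264 84496 18605
    15504 22868)) (.L 1 1 [11, 14, 17, 19, 18, 17] [120, 120, 112, 102, 90, 78] [92, 89, 86, 76,
    66, 54] 100000 50000 50000 1083334 0 66667 50000 83333 25000 16667 25000))) (.L 1 1 [11, 14,
    17, 19, 18, 17] [120, 120, 112, 102, 90, 78] [] 100000 139584 1 2 43750 0 43750 239583 0 0 0))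
    (.E 1))

lemma s22_22_6_5_49 : BlkD.treeX d22_22_6_5 (BlkD.exF 6 5 x22_22_6_5) t22_22_6_5_49
    (BlkD.upd (BlkD.upd (BlkD.upd (BlkD.upd (fun _ => 0) 0 2) 0 3) 1 5) 1 6)
    (BlkD.upd (BlkD.upd (BlkD.upd (BlkD.upd (BlkD.upd (BlkD.upd (BlkD.upd (BlkD.upd (BlkD.upd (fun _ => 22) 0 6) 2 5) 0 3) 1 19) 1 9) 1 7) 1 6) 2 2) 2 1) = true := by
  decide +kernel

lemma n22_22_6_5_49 {n : ℕ} (hn : 5 ≤ n) : BlkD.NdX d22_22_6_5 (BlkD.exF 6 5 x22_22_6_5) n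
    (BlkD.upd (BlkD.upd (BlkD.upd (BlkD.upd (fun _ => 0) 0 2) 0 3) 1 5) 1 6)
    (BlkD.upd (BlkD.upd (BlkD.upd (BlkD.upd (BlkD.upd (BlkD.upd (BlkD.upd (BlkD.upd (BlkD.upd (fun _ => 22) 0 6) 2 5) 0 3) 1 19) 1 9) 1 7) 1 6) 2 2) 2 1) :=
  BlkD.NdX.tree s22_22_6_5_49 ok22_22_6_5 (by decide) hn

/-- a subtree -/
def t22_22_6_5_50 : BlkD.Tr :=
  .S 3 1 (.L 1 1 [11, 14, 17, 19, 18, 17] [120, 120, 112, 102, 90, 78] [] 100000 25000 25000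
    1200000 0 0 62500 0 37500 0 37500) (.S 4 6 (.S 4 3 (.L 7 8 [4, 5, 5, 4, 5, 5] [102, 90, 78, 66,
    0, 0] [34, 22, 10, 0, 0, 0] 100000 25000 25000 1245000 13333 14167 41667 27500 45000 0 43333)
    (.L 7 8 [4, 5, 5, 4, 5, 5] [120, 120, 112, 102, 90, 78] [34, 22, 10, 0, 0, 0] 100000 40000
    40000 1100000 0 0 100000 0 0 0 20000)) (.E 2))

lemma s22_22_6_5_50 : BlkD.treeX d22_22_6_5 (BlkD.exF 6 5 x22_22_6_5) t22_22_6_5_50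
    (BlkD.upd (BlkD.upd (BlkD.upd (BlkD.upd (BlkD.upd (fun _ => 0) 0 2) 0 3) 1 5) 1 6) 2 2)
    (BlkD.upd (BlkD.upd (BlkD.upd (BlkD.upd (BlkD.upd (BlkD.upd (BlkD.upd (BlkD.upd (BlkD.upd (BlkD.upd (BlkD.upd (fun _ => 22) 0 6) 2 5) 0 3) 1 19) 1 9) 1 7) 1 6) 2 2) 3 11) 3 5) 3 2) = true := by
  decide +kernel

lemma n22_22_6_5_50 {n : ℕ} (hn : 5 ≤ n) : BlkD.NdX d22_22_6_5 (BlkD.exF 6 5 x22_22_6_5) n
    (BlkD.upd (BlkD.upd (BlkD.upd (BlkD.upd (BlkD.upd (fun _ => 0) 0 2) 0 3) 1 5) 1 6) 2 2)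
    (BlkD.upd (BlkD.upd (BlkD.upd (BlkD.upd (BlkD.upd (BlkD.upd (BlkD.upd (BlkD.upd (BlkD.upd (BlkD.upd (BlkD.upd (fun _ => 22) 0 6) 2 5) 0 3) 1 19) 1 9) 1 7) 1 6) 2 2) 3 11) 3 5) 3 2) :=
  BlkD.NdX.tree s22_22_6_5_50 ok22_22_6_5 (by decide) hn

/-- a subtree -/
def t22_22_6_5_51 : BlkD.Tr :=
  .S 3 3 (.S 4 6 (.S 4 3 (.S 4 1 (.E 2) (.S 4 2 (.S 5 3 (.S 5 1 (.S 5 0 (.L 6 7 [4, 4, 5, 5, 6, 6]
    [90, 78, 66, 0, 0, 0] [18, 0, 0, 0, 0, 0] 100000 50000 50000 1100000 0 100000 16667 0 41667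
    16667 25000) (.L 9 10 [5, 6, 7, 3, 4, 4] [90, 78, 66, 0, 0, 0] [30, 18, 0, 0, 0, 0] 100000
    25000 25000 1265000 12000 11000 34000 89000 53000 0 22000)) (.L 6 7 [4, 4, 5, 5, 6, 6] [90, 78,
    66, 0, 0, 0] [52, 42, 30, 18, 0, 0] 100000 25000 25000 1183334 8333 0 8333 100000 41667 0
    33333)) (.E 2)) (.S 5 3 (.S 5 1 (.L 6 7 [4, 4, 5, 5, 6, 6] [102, 90, 78, 66, 0, 0] [30, 18, 0,
    0, 0, 0] 100000 15385 15385 1307694 7692 7692 53846 46154 46154 30769 23077) (.L 6 7 [4, 4, 5,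
    5, 6, 6] [102, 90, 78, 66, 0, 0] [52, 42, 30, 18, 0, 0] 100000 25001 16039 1148113 3774 3774
    26415 108962 50943 0 24057)) (.E 2)))) (.L 6 7 [4, 4, 5, 5, 6, 6] [120, 120, 112, 102, 90, 78]
    [52, 42, 30, 18, 0, 0] 100000 36667 36667 1187502 4167 4167 100000 56250 0 16667 22917)) (.E
    2)) (.S 4 6 (.S 4 3 (.S 4 1 (.E 2) (.S 4 2 (.S 5 4 (.S 5 2 (.S 5 1 (.L 3 4 [5, 6, 8, 9, 10, 11]
    [90, 78, 66, 0, 0, 0] [40, 28, 0, 0, 0, 0] 100000 51852 51852 1129630 37037 37037 74074 37037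
    25926 74074 25926) (.E 9)) (.L 3 4 [5, 6, 8, 9, 10, 11] [90, 78, 66, 0, 0, 0] [72, 62, 52, 40,
    28, 0] 100000 20000 20000 1200000 0 0 20000 100000 60000 20000 20000)) (.E 2)) (.S 5 4 (.S 5 2
    (.S 5 1 (.L 6 7 [4, 4, 5, 5, 6, 6] [102, 90, 78, 66, 0, 0] [40, 28, 0, 0, 0, 0] 100000 24445
    24445 1255555 11111 5556 100000 16667 2222 55556 22222) (.L 6 7 [4, 4, 5, 5, 6, 6] [102, 90,
    78, 66, 0, 0] [52, 40, 28, 0, 0, 0] 100000 20000 20000 1275000 0 0 25000 100000 50000 25000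
    25000)) (.L 6 7 [4, 4, 5, 5, 6, 6] [102, 90, 78, 66, 0, 0] [72, 62, 52, 40, 28, 0] 100000 25000
    0 1100000 0 0 25000 125000 50000 0 25000)) (.E 2)))) (.L 6 7 [4, 4, 5, 5, 6, 6] [120, 120, 112,
    102, 90, 78] [72, 62, 52, 40, 28, 0] 100000 30000 30000 1200000 0 0 100000 50000 0 25000
    25000)) (.E 2))

lemma s22_22_6_5_51 : BlkD.treeX d22_22_6_5 (BlkD.exF 6 5 x22_22_6_5) t22_22_6_5_51
    (BlkD.upd (BlkD.upd (BlkD.upd (BlkD.upd (BlkD.upd (BlkD.upd (fun _ => 0) 0 2) 0 3) 1 5) 1 6) 2 2) 3 3)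
    (BlkD.upd (BlkD.upd (BlkD.upd (BlkD.upd (BlkD.upd (BlkD.upd (BlkD.upd (BlkD.upd (BlkD.upd (BlkD.upd (BlkD.upd (fun _ => 22) 0 6) 2 5) 0 3) 1 19) 1 9) 1 7) 1 6) 2 2) 3 11) 3 5) 3 4) = true := by
  decide +kernel

lemma n22_22_6_5_51 {n : ℕ} (hn : 5 ≤ n) : BlkD.NdX d22_22_6_5 (BlkD.exF 6 5 x22_22_6_5) n
    (BlkD.upd (BlkD.upd (BlkD.upd (BlkD.upd (BlkD.upd (BlkD.upd (fun _ => 0) 0 2) 0 3) 1 5) 1 6) 2 2) 3 3)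
    (BlkD.upd (BlkD.upd (BlkD.upd (BlkD.upd (BlkD.upd (BlkD.upd (BlkD.upd (BlkD.upd (BlkD.upd (BlkD.upd (BlkD.upd (fun _ => 22) 0 6) 2 5) 0 3) 1 19) 1 9) 1 7) 1 6) 2 2) 3 11) 3 5) 3 4) :=
  BlkD.NdX.tree s22_22_6_5_51 ok22_22_6_5 (by decide) hn

/-- a subtree -/
def t22_22_6_5_52 : BlkD.Tr :=
  .S 4 6 (.S 4 3 (.S 4 1 (.E 2) (.S 4 2 (.S 5 5 (.S 5 2 (.S 5 1 (.L 6 7 [4, 4, 5, 5, 6, 6] [90, 78,
    66, 0, 0, 0] [52, 40, 0, 0, 0, 0] 100000 77632 77632 947368 73684 26316 100000 52632 0 0 10526)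
    (.E 9)) (.L 6 7 [4, 4, 5, 5, 6, 6] [90, 78, 66, 0, 0, 0] [87, 84, 74, 64, 52, 40] 100000 50000
    50000 1100000 0 0 100000 100000 0 0 25000)) (.E 2)) (.L 6 7 [4, 4, 5, 5, 6, 6] [102, 90, 78,
    66, 0, 0] [87, 84, 74, 64, 52, 40] 100000 28889 28889 1233335 11111 0 100000 33333 0 33333
    22222))) (.L 6 7 [4, 4, 5, 5, 6, 6] [120, 120, 112, 102, 90, 78] [87, 84, 74, 64, 52, 40]
    100000 50000 50000 1100000 0 0 100000 100000 0 0 25000)) (.E 2)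

lemma s22_22_6_5_52 : BlkD.treeX d22_22_6_5 (BlkD.exF 6 5 x22_22_6_5) t22_22_6_5_52
    (BlkD.upd (BlkD.upd (BlkD.upd (BlkD.upd (BlkD.upd (BlkD.upd (BlkD.upd (fun _ => 0) 0 2) 0 3) 1 5) 1 6) 2 2) 3 3) 3 5)
    (BlkD.upd (BlkD.upd (BlkD.upd (BlkD.upd (BlkD.upd (BlkD.upd (BlkD.upd (BlkD.upd (BlkD.upd (BlkD.upd (fun _ => 22) 0 6) 2 5) 0 3) 1 19) 1 9) 1 7) 1 6) 2 2) 3 11) 3 5) = true := by
  decide +kernel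

lemma n22_22_6_5_52 {n : ℕ} (hn : 5 ≤ n) : BlkD.NdX d22_22_6_5 (BlkD.exF 6 5 x22_22_6_5) n
    (BlkD.upd (BlkD.upd (BlkD.upd (BlkD.upd (BlkD.upd (BlkD.upd (BlkD.upd (fun _ => 0) 0 2) 0 3) 1 5) 1 6) 2 2) 3 3) 3 5)
    (BlkD.upd (BlkD.upd (BlkD.upd (BlkD.upd (BlkD.upd (BlkD.upd (BlkD.upd (BlkD.upd (BlkD.upd (BlkD.upd (fun _ => 22) 0 6) 2 5) 0 3) 1 19) 1 9) 1 7) 1 6) 2 2) 3 11) 3 5) :=
  BlkD.NdX.tree s22_22_6_5_52 ok22_22_6_5 (by decide) hn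

/-- a subtree -/
def t22_22_6_5_53 : BlkD.Tr :=
  .L 6 7 [4, 4, 5, 5, 6, 6] [120, 120, 112, 102, 90, 78] [] 100000 127084 1 2 56250 0 56250 227083
    0 0 0

lemma s22_22_6_5_53 : BlkD.treeX d22_22_6_5 (BlkD.exF 6 5 x22_22_6_5) t22_22_6_5_53
    (BlkD.upd (BlkD.upd (BlkD.upd (BlkD.upd (BlkD.upd (BlkD.upd (fun _ => 0) 0 2) 0 3) 1 5) 1 6) 2 2) 3 6)
    (BlkD.upd (BlkD.upd (BlkD.upd (BlkD.upd (BlkD.upd (BlkD.upd (BlkD.upd (BlkD.upd (BlkD.upd (fun _ => 22) 0 6) 2 5) 0 3) 1 19) 1 9) 1 7) 1 6) 2 2) 3 11) = true := by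
  decide +kernel

lemma n22_22_6_5_53 {n : ℕ} (hn : 5 ≤ n) : BlkD.NdX d22_22_6_5 (BlkD.exF 6 5 x22_22_6_5) n
    (BlkD.upd (BlkD.upd (BlkD.upd (BlkD.upd (BlkD.upd (BlkD.upd (fun _ => 0) 0 2) 0 3) 1 5) 1 6) 2 2) 3 6)
    (BlkD.upd (BlkD.upd (BlkD.upd (BlkD.upd (BlkD.upd (BlkD.upd (BlkD.upd (BlkD.upd (BlkD.upd (fun _ => 22) 0 6) 2 5) 0 3) 1 19) 1 9) 1 7) 1 6) 2 2) 3 11) :=
  BlkD.NdX.tree s22_22_6_5_53 ok22_22_6_5 (by decide) hn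

/-- a subtree -/
def t22_22_6_5_54 : BlkD.Tr :=
  .E 1

lemma s22_22_6_5_54 : BlkD.treeX d22_22_6_5 (BlkD.exF 6 5 x22_22_6_5) t22_22_6_5_54
    (BlkD.upd (BlkD.upd (BlkD.upd (BlkD.upd (BlkD.upd (BlkD.upd (fun _ => 0) 0 2) 0 3) 1 5) 1 6) 2 2) 3 12)
    (BlkD.upd (BlkD.upd (BlkD.upd (BlkD.upd (BlkD.upd (BlkD.upd (BlkD.upd (BlkD.upd (fun _ => 22) 0 6) 2 5) 0 3) 1 19) 1 9) 1 7) 1 6) 2 2) = true := by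
  decide +kernel

lemma n22_22_6_5_54 {n : ℕ} (hn : 5 ≤ n) : BlkD.NdX d22_22_6_5 (BlkD.exF 6 5 x22_22_6_5) n
    (BlkD.upd (BlkD.upd (BlkD.upd (BlkD.upd (BlkD.upd (BlkD.upd (fun _ => 0) 0 2) 0 3) 1 5) 1 6) 2 2) 3 12)
    (BlkD.upd (BlkD.upd (BlkD.upd (BlkD.upd (BlkD.upd (BlkD.upd (BlkD.upd (BlkD.upd (fun _ => 22) 0 6) 2 5) 0 3) 1 19) 1 9) 1 7) 1 6) 2 2) :=
  BlkD.NdX.tree s22_22_6_5_54 ok22_22_6_5 (by decide) hn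

/-- a subtree -/
def t22_22_6_5_55 : BlkD.Tr :=
  .S 3 1 (.S 3 0 (.L 6 7 [4, 4, 5, 5, 6, 6] [120, 120, 112, 102, 90, 78] [0, 0, 0, 0, 0, 0] 100000
    25000 25000 1200000 0 0 62500 0 37500 0 37500) (.L 7 8 [4, 5, 5, 4, 5, 5] [120, 120, 112, 102,
    90, 78] [18, 6, 0, 0, 0, 0] 100000 25953 25953 1266667 0 38095 67262 66667 32738 4762 33333))
    (.S 4 6 (.S 4 3 (.S 4 1 (.E 2) (.S 4 2 (.S 5 2 (.S 5 1 (.L 6 7 [4, 4, 5, 5, 6, 6] [90, 78, 66,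
    0, 0, 0] [26, 14, 0, 0, 0, 0] 100000 15000 15000 1315000 10000 22500 50000 52500 30000 50000
    25000) (.L 6 7 [4, 4, 5, 5, 6, 6] [90, 78, 66, 0, 0, 0] [38, 26, 14, 0, 0, 0] 100000 27500
    27500 1162500 12500 0 25000 100000 37500 0 25000)) (.E 2)) (.S 5 2 (.S 5 1 (.L 6 7 [4, 4, 5, 5,
    6, 6] [102, 90, 78, 66, 0, 0] [26, 14, 0, 0, 0, 0] 100000 15385 15385 1276923 15385 0 76923
    15385 30769 46154 23077) (.L 6 7 [4, 4, 5, 5, 6, 6] [102, 90, 78, 66, 0, 0] [38, 26, 14, 0, 0,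
    0] 100000 25000 16667 1150001 0 0 33333 108333 50000 0 25000)) (.E 2)))) (.L 6 7 [4, 4, 5, 5,
    6, 6] [120, 120, 112, 102, 90, 78] [38, 26, 14, 0, 0, 0] 100000 36923 36923 1184618 7692 0
    100000 53846 0 15385 23077)) (.E 2))

lemma s22_22_6_5_55 : BlkD.treeX d22_22_6_5 (BlkD.exF 6 5 x22_22_6_5) t22_22_6_5_55
    (BlkD.upd (BlkD.upd (BlkD.upd (BlkD.upd (BlkD.upd (fun _ => 0) 0 2) 0 3) 1 5) 1 6) 2 3)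
    (BlkD.upd (BlkD.upd (BlkD.upd (BlkD.upd (BlkD.upd (BlkD.upd (BlkD.upd (BlkD.upd (BlkD.upd (BlkD.upd (BlkD.upd (BlkD.upd (fun _ => 22) 0 6) 2 5) 0 3) 1 19) 1 9) 1 7) 1 6) 2 4) 2 3) 3 10) 3 5) 3 2) = true := by
  decide +kernel

lemma n22_22_6_5_55 {n : ℕ} (hn : 5 ≤ n) : BlkD.NdX d22_22_6_5 (BlkD.exF 6 5 x22_22_6_5) n
    (BlkD.upd (BlkD.upd (BlkD.upd (BlkD.upd (BlkD.upd (fun _ => 0) 0 2) 0 3) 1 5) 1 6) 2 3)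
    (BlkD.upd (BlkD.upd (BlkD.upd (BlkD.upd (BlkD.upd (BlkD.upd (BlkD.upd (BlkD.upd (BlkD.upd (BlkD.upd (BlkD.upd (BlkD.upd (fun _ => 22) 0 6) 2 5) 0 3) 1 19) 1 9) 1 7) 1 6) 2 4) 2 3) 3 10) 3 5) 3 2) :=
  BlkD.NdX.tree s22_22_6_5_55 ok22_22_6_5 (by decide) hn

end BlkC

end Pool.Agent.Lib.MP_f04ccf_co
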