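import Pool.Agent.Lib.MP_f04ccf_co.M.BlkX22_22_6_5d

/-!
MP_f04ccf_co, block certificate with exceptions, `R = 22`, `H = 22`, the pair `(6, 5)` (data of helper99 / helper13,
generated by helper8, genx.py): part 4 of 5.
-/

set_option autoImplicit false
set_option maxRecDepth 100000

namespace Pool.Agent.Lib.MP_f04ccf_co

namespace BlkC

/-- a subtree -/
def t22_22_6_5_56 : BlkD.Tr :=
  .S 3 4 (.S 3 3 (.S 4 6 (.S 4 3 (.S 4 1 (.E 2) (.S 4 2 (.S 5 3 (.S 5 1 (.L 5 6 [4, 4, 5, 6, 7, 7]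
    [90, 78, 66, 0, 0, 0] [36, 24, 0, 0, 0, 0] 100000 28333 28332 1254168 33333 0 100000 12500 0
    62500 25000) (.L 5 6 [4, 4, 5, 6, 7, 7] [90, 78, 66, 0, 0, 0] [58, 48, 36, 24, 0, 0] 100000
    20000 20000 1275000 0 0 25000 100000 50000 25000 25000)) (.E 2)) (.L 5 6 [4, 4, 5, 6, 7, 7]
    [102, 90, 78, 66, 0, 0] [58, 48, 36, 24, 0, 0] 100000 15790 15790 1294738 15789 0 63158 31579
    36842 47368 21053))) (.L 5 6 [4, 4, 5, 6, 7, 7] [120, 120, 112, 102, 90, 78] [58, 48, 36, 24,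
    0, 0] 100000 25000 25000 1200000 0 0 100000 37500 12500 37500 25000)) (.E 2)) (.S 4 6 (.S 4 3
    (.S 4 1 (.E 2) (.S 4 2 (.S 5 4 (.S 5 2 (.L 6 7 [4, 4, 5, 5, 6, 6] [90, 78, 66, 0, 0, 0] [60,
    48, 36, 0, 0, 0] 100000 31429 31429 1234287 48571 0 77143 32857 0 40000 20000) (.L 6 7 [4, 4,
    5, 5, 6, 6] [90, 78, 66, 0, 0, 0] [80, 70, 60, 48, 36, 0] 100000 50000 50000 1100000 0 0 100000
    100000 0 0 25000)) (.E 2)) (.L 6 7 [4, 4, 5, 5, 6, 6] [102, 90, 78, 66, 0, 0] [80, 70, 60, 48,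
    36, 0] 100000 22223 22223 1250000 11111 0 100000 16667 11111 55556 22222))) (.L 6 7 [4, 4, 5,
    5, 6, 6] [120, 120, 112, 102, 90, 78] [80, 70, 60, 48, 36, 0] 100000 50000 50000 1100000 0 0
    100000 100000 0 0 25000)) (.E 2))) (.E 2)

lemma s22_22_6_5_56 : BlkD.treeX d22_22_6_5 (BlkD.exF 6 5 x22_22_6_5) t22_22_6_5_56
    (BlkD.upd (BlkD.upd (BlkD.upd (BlkD.upd (BlkD.upd (BlkD.upd (fun _ => 0) 0 2) 0 3) 1 5) 1 6) 2 3) 3 3)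
    (BlkD.upd (BlkD.upd (BlkD.upd (BlkD.upd (BlkD.upd (BlkD.upd (BlkD.upd (BlkD.upd (BlkD.upd (BlkD.upd (BlkD.upd (fun _ => 22) 0 6) 2 5) 0 3) 1 19) 1 9) 1 7) 1 6) 2 4) 2 3) 3 10) 3 5) = true := by
  decide +kernel

lemma n22_22_6_5_56 {n : ℕ} (hn : 5 ≤ n) : BlkD.NdX d22_22_6_5 (BlkD.exF 6 5 x22_22_6_5) n
    (BlkD.upd (BlkD.upd (BlkD.upd (BlkD.upd (BlkD.upd (BlkD.upd (fun _ => 0) 0 2) 0 3) 1 5) 1 6) 2 3) 3 3)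
    (BlkD.upd (BlkD.upd (BlkD.upd (BlkD.upd (BlkD.upd (BlkD.upd (BlkD.upd (BlkD.upd (BlkD.upd (BlkD.upd (BlkD.upd (fun _ => 22) 0 6) 2 5) 0 3) 1 19) 1 9) 1 7) 1 6) 2 4) 2 3) 3 10) 3 5) :=
  BlkD.NdX.tree s22_22_6_5_56 ok22_22_6_5 (by decide) hn

/-- a subtree -/
def t22_22_6_5_57 : BlkD.Tr :=
  .E 1

lemma s22_22_6_5_57 : BlkD.treeX d22_22_6_5 (BlkD.exF 6 5 x22_22_6_5) t22_22_6_5_57
    (BlkD.upd (BlkD.upd (BlkD.upd (BlkD.upd (BlkD.upd (BlkD.upd (fun _ => 0) 0 2) 0 3) 1 5) 1 6) 2 3) 3 6)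
    (BlkD.upd (BlkD.upd (BlkD.upd (BlkD.upd (BlkD.upd (BlkD.upd (BlkD.upd (BlkD.upd (BlkD.upd (BlkD.upd (fun _ => 22) 0 6) 2 5) 0 3) 1 19) 1 9) 1 7) 1 6) 2 4) 2 3) 3 10) = true := by
  decide +kernel

lemma n22_22_6_5_57 {n : ℕ} (hn : 5 ≤ n) : BlkD.NdX d22_22_6_5 (BlkD.exF 6 5 x22_22_6_5) n
    (BlkD.upd (BlkD.upd (BlkD.upd (BlkD.upd (BlkD.upd (BlkD.upd (fun _ => 0) 0 2) 0 3) 1 5) 1 6) 2 3) 3 6)
    (BlkD.upd (BlkD.upd (BlkD.upd (BlkD.upd (BlkD.upd (BlkD.upd (BlkD.upd (BlkD.upd (BlkD.upd (BlkD.upd (fun _ => 22) 0 6) 2 5) 0 3) 1 19) 1 9) 1 7) 1 6) 2 4) 2 3) 3 10) :=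
  BlkD.NdX.tree s22_22_6_5_57 ok22_22_6_5 (by decide) hn

/-- a subtree -/
def t22_22_6_5_58 : BlkD.Tr :=
  .E 1

lemma s22_22_6_5_58 : BlkD.treeX d22_22_6_5 (BlkD.exF 6 5 x22_22_6_5) t22_22_6_5_58
    (BlkD.upd (BlkD.upd (BlkD.upd (BlkD.upd (BlkD.upd (BlkD.upd (fun _ => 0) 0 2) 0 3) 1 5) 1 6) 2 3) 3 11)
    (BlkD.upd (BlkD.upd (BlkD.upd (BlkD.upd (BlkD.upd (BlkD.upd (BlkD.upd (BlkD.upd (BlkD.upd (fun _ => 22) 0 6) 2 5) 0 3) 1 19) 1 9) 1 7) 1 6) 2 4) 2 3) = true := by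
  decide +kernel

lemma n22_22_6_5_58 {n : ℕ} (hn : 5 ≤ n) : BlkD.NdX d22_22_6_5 (BlkD.exF 6 5 x22_22_6_5) n
    (BlkD.upd (BlkD.upd (BlkD.upd (BlkD.upd (BlkD.upd (BlkD.upd (fun _ => 0) 0 2) 0 3) 1 5) 1 6) 2 3) 3 11)
    (BlkD.upd (BlkD.upd (BlkD.upd (BlkD.upd (BlkD.upd (BlkD.upd (BlkD.upd (BlkD.upd (BlkD.upd (fun _ => 22) 0 6) 2 5) 0 3) 1 19) 1 9) 1 7) 1 6) 2 4) 2 3) :=
  BlkD.NdX.tree s22_22_6_5_58 ok22_22_6_5 (by decide) hn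

/-- a subtree -/
def t22_22_6_5_59 : BlkD.Tr :=
  .S 3 9 (.S 3 4 (.S 3 2 (.S 3 1 (.S 3 0 (.L 6 7 [4, 4, 5, 5, 6, 6] [120, 120, 112, 102, 90, 78]
    [0, 0, 0, 0, 0, 0] 100000 20690 20690 1282760 17241 0 68966 0 31034 34483 17241) (.L 6 7 [4, 4,
    5, 5, 6, 6] [120, 120, 112, 102, 90, 78] [20, 8, 0, 0, 0, 0] 100000 15767 15767 1314599 2190
    13139 67883 78832 39416 63504 21168)) (.S 4 6 (.S 4 3 (.S 4 1 (.E 2) (.S 4 2 (.L 7 8 [4, 5, 5,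
    4, 5, 5] [90, 78, 66, 0, 0, 0] [42, 30, 18, 0, 0, 0] 100000 16217 16217 1317569 24324 0 60811
    36486 24324 36486 18919) (.L 7 8 [4, 5, 5, 4, 5, 5] [102, 90, 78, 66, 0, 0] [42, 30, 18, 0, 0,
    0] 100000 21429 21429 1257142 7143 0 100000 21429 14286 53571 25000))) (.L 7 8 [4, 5, 5, 4, 5,
    5] [120, 120, 112, 102, 90, 78] [42, 30, 18, 0, 0, 0] 100000 25000 25000 1175000 12500 0 100000
    12500 0 50000 25000)) (.E 2))) (.S 3 3 (.S 4 6 (.S 4 3 (.L 7 8 [4, 5, 5, 4, 5, 5] [102, 90, 78,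
    66, 0, 0] [64, 54, 42, 30, 0, 0] 100000 56000 56000 1076000 54000 0 100000 54000 0 10000 18000)
    (.L 7 8 [4, 5, 5, 4, 5, 5] [120, 120, 112, 102, 90, 78] [64, 54, 42, 30, 0, 0] 100000 100000 0
    500000 0 0 200000 150000 0 0 0)) (.E 2)) (.E 2))) (.E 1)) (.E 1)

lemma s22_22_6_5_59 : BlkD.treeX d22_22_6_5 (BlkD.exF 6 5 x22_22_6_5) t22_22_6_5_59
    (BlkD.upd (BlkD.upd (BlkD.upd (BlkD.upd (BlkD.upd (BlkD.upd (fun _ => 0) 0 2) 0 3) 1 5) 1 6) 2 3) 2 4)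
    (BlkD.upd (BlkD.upd (BlkD.upd (BlkD.upd (BlkD.upd (BlkD.upd (BlkD.upd (BlkD.upd (fun _ => 22) 0 6) 2 5) 0 3) 1 19) 1 9) 1 7) 1 6) 2 4) = true := by
  decide +kernel

lemma n22_22_6_5_59 {n : ℕ} (hn : 5 ≤ n) : BlkD.NdX d22_22_6_5 (BlkD.exF 6 5 x22_22_6_5) n
    (BlkD.upd (BlkD.upd (BlkD.upd (BlkD.upd (BlkD.upd (BlkD.upd (fun _ => 0) 0 2) 0 3) 1 5) 1 6) 2 3) 2 4)
    (BlkD.upd (BlkD.upd (BlkD.upd (BlkD.upd (BlkD.upd (BlkD.upd (BlkD.upd (BlkD.upd (fun _ => 22) 0 6) 2 5) 0 3) 1 19) 1 9) 1 7) 1 6) 2 4) :=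
  BlkD.NdX.tree s22_22_6_5_59 ok22_22_6_5 (by decide) hn

/-- a subtree -/
def t22_22_6_5_60 : BlkD.Tr :=
  .S 3 8 (.S 3 4 (.S 3 2 (.S 3 1 (.L 7 8 [4, 5, 5, 4, 5, 5] [120, 120, 112, 102, 90, 78] [] 100000
    15556 15556 1300000 11111 0 77778 33333 27778 66667 22222) (.S 4 6 (.S 4 3 (.L 7 8 [4, 5, 5, 4,
    5, 5] [102, 90, 78, 66, 0, 0] [46, 34, 22, 0, 0, 0] 100000 40000 40000 1140000 60000 0 100000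
    10000 0 50000 20000) (.L 7 8 [4, 5, 5, 4, 5, 5] [120, 120, 112, 102, 90, 78] [46, 34, 22, 0, 0,
    0] 100000 100000 0 500000 0 0 200000 150000 0 0 0)) (.E 2))) (.E 1)) (.E 1)) (.E 1)

lemma s22_22_6_5_60 : BlkD.treeX d22_22_6_5 (BlkD.exF 6 5 x22_22_6_5) t22_22_6_5_60
    (BlkD.upd (BlkD.upd (BlkD.upd (BlkD.upd (BlkD.upd (BlkD.upd (fun _ => 0) 0 2) 0 3) 1 5) 1 6) 2 3) 2 5)
    (BlkD.upd (BlkD.upd (BlkD.upd (BlkD.upd (BlkD.upd (BlkD.upd (BlkD.upd (fun _ => 22) 0 6) 2 5) 0 3) 1 19) 1 9) 1 7) 1 6) = true := by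
  decide +kernel

lemma n22_22_6_5_60 {n : ℕ} (hn : 5 ≤ n) : BlkD.NdX d22_22_6_5 (BlkD.exF 6 5 x22_22_6_5) n
    (BlkD.upd (BlkD.upd (BlkD.upd (BlkD.upd (BlkD.upd (BlkD.upd (fun _ => 0) 0 2) 0 3) 1 5) 1 6) 2 3) 2 5)
    (BlkD.upd (BlkD.upd (BlkD.upd (BlkD.upd (BlkD.upd (BlkD.upd (BlkD.upd (fun _ => 22) 0 6) 2 5) 0 3) 1 19) 1 9) 1 7) 1 6) :=
  BlkD.NdX.tree s22_22_6_5_60 ok22_22_6_5 (by decide) hn

/-- a subtree -/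
def t22_22_6_5_61 : BlkD.Tr :=
  .L 7 8 [4, 5, 5, 4, 5, 5] [138, 138, 138, 130, 120, 108] [] 100000 35455 35455 1190912 9091 0
    100000 50000 0 11364 20455

lemma s22_22_6_5_61 : BlkD.treeX d22_22_6_5 (BlkD.exF 6 5 x22_22_6_5) t22_22_6_5_61
    (BlkD.upd (BlkD.upd (BlkD.upd (BlkD.upd (fun _ => 0) 0 2) 0 3) 1 5) 1 7)
    (BlkD.upd (BlkD.upd (BlkD.upd (BlkD.upd (BlkD.upd (BlkD.upd (fun _ => 22) 0 6) 2 5) 0 3) 1 19) 1 9) 1 7) = true := by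
  decide +kernel

lemma n22_22_6_5_61 {n : ℕ} (hn : 5 ≤ n) : BlkD.NdX d22_22_6_5 (BlkD.exF 6 5 x22_22_6_5) n
    (BlkD.upd (BlkD.upd (BlkD.upd (BlkD.upd (fun _ => 0) 0 2) 0 3) 1 5) 1 7)
    (BlkD.upd (BlkD.upd (BlkD.upd (BlkD.upd (BlkD.upd (BlkD.upd (fun _ => 22) 0 6) 2 5) 0 3) 1 19) 1 9) 1 7) :=
  BlkD.NdX.tree s22_22_6_5_61 ok22_22_6_5 (by decide) hn

/-- a subtree -/
def t22_22_6_5_62 : BlkD.Tr :=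
  .E 0

lemma s22_22_6_5_62 : BlkD.treeX d22_22_6_5 (BlkD.exF 6 5 x22_22_6_5) t22_22_6_5_62
    (BlkD.upd (BlkD.upd (BlkD.upd (BlkD.upd (fun _ => 0) 0 2) 0 3) 1 5) 1 8)
    (BlkD.upd (BlkD.upd (BlkD.upd (BlkD.upd (BlkD.upd (fun _ => 22) 0 6) 2 5) 0 3) 1 19) 1 9) = true := by
  decide +kernel

lemma n22_22_6_5_62 {n : ℕ} (hn : 5 ≤ n) : BlkD.NdX d22_22_6_5 (BlkD.exF 6 5 x22_22_6_5) n
    (BlkD.upd (BlkD.upd (BlkD.upd (BlkD.upd (fun _ => 0) 0 2) 0 3) 1 5) 1 8)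
    (BlkD.upd (BlkD.upd (BlkD.upd (BlkD.upd (BlkD.upd (fun _ => 22) 0 6) 2 5) 0 3) 1 19) 1 9) :=
  BlkD.NdX.tree s22_22_6_5_62 ok22_22_6_5 (by decide) hn

/-- a subtree -/
def t22_22_6_5_63 : BlkD.Tr :=
  .E 0

lemma s22_22_6_5_63 : BlkD.treeX d22_22_6_5 (BlkD.exF 6 5 x22_22_6_5) t22_22_6_5_63
    (BlkD.upd (BlkD.upd (BlkD.upd (fun _ => 0) 0 2) 0 3) 1 10)
    (BlkD.upd (BlkD.upd (BlkD.upd (BlkD.upd (fun _ => 22) 0 6) 2 5) 0 3) 1 19) = true := by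
  decide +kernel

lemma n22_22_6_5_63 {n : ℕ} (hn : 5 ≤ n) : BlkD.NdX d22_22_6_5 (BlkD.exF 6 5 x22_22_6_5) n
    (BlkD.upd (BlkD.upd (BlkD.upd (fun _ => 0) 0 2) 0 3) 1 10)
    (BlkD.upd (BlkD.upd (BlkD.upd (BlkD.upd (fun _ => 22) 0 6) 2 5) 0 3) 1 19) :=
  BlkD.NdX.tree s22_22_6_5_63 ok22_22_6_5 (by decide) hn

/-- a subtree -/
def t22_22_6_5_64 : BlkD.Tr :=
  .E 0

lemma s22_22_6_5_64 : BlkD.treeX d22_22_6_5 (BlkD.exF 6 5 x22_22_6_5) t22_22_6_5_64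
    (BlkD.upd (BlkD.upd (BlkD.upd (fun _ => 0) 0 2) 0 3) 1 20)
    (BlkD.upd (BlkD.upd (BlkD.upd (fun _ => 22) 0 6) 2 5) 0 3) = true := by
  decide +kernel

lemma n22_22_6_5_64 {n : ℕ} (hn : 5 ≤ n) : BlkD.NdX d22_22_6_5 (BlkD.exF 6 5 x22_22_6_5) n
    (BlkD.upd (BlkD.upd (BlkD.upd (fun _ => 0) 0 2) 0 3) 1 20)
    (BlkD.upd (BlkD.upd (BlkD.upd (fun _ => 22) 0 6) 2 5) 0 3) :=
  BlkD.NdX.tree s22_22_6_5_64 ok22_22_6_5 (by decide) hn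

/-- a subtree -/
def t22_22_6_5_65 : BlkD.Tr :=
  .S 1 1 (.L 7 8 [4, 5, 5, 4, 5, 5] [] [] 100000 35000 35000 1200000 25000 0 25000 75000 0 25000
    20000) (.S 2 2 (.S 2 1 (.L 7 8 [4, 5, 5, 4, 5, 5] [42, 30, 18, 0, 0, 0] [] 100000 42942 42942
    1164707 0 58824 58824 58824 0 11765 20588) (.S 3 14 (.S 3 7 (.S 3 3 (.L 7 8 [4, 5, 5, 4, 5, 5]
    [42, 30, 18, 0, 0, 0] [] 100000 40000 40000 1100000 0 0 0 0 0 0 20000) (.S 3 5 (.S 3 4 (.L 7 8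
    [4, 5, 5, 4, 5, 5] [42, 30, 18, 0, 0, 0] [72, 62, 52, 40, 28, 0] 100000 39375 39375 1200004
    12500 12500 10938 12500 1563 0 50000) (.S 4 2 (.S 4 1 (.S 4 0 (.L 7 8 [4, 5, 5, 4, 5, 5] [18,
    0, 0, 0, 0, 0] [87, 84, 74, 64, 52, 40] 100000 10000 10000 1300000 25000 0 0 50000 50000 50000
    50000) (.L 7 8 [4, 5, 5, 4, 5, 5] [30, 18, 0, 0, 0, 0] [87, 84, 74, 64, 52, 40] 100000 30000
    30000 1200000 0 0 100000 50000 0 50000 25000)) (.L 7 8 [4, 5, 5, 4, 5, 5] [42, 30, 18, 0, 0, 0]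
    [87, 84, 74, 64, 52, 40] 100000 35863 28966 1086207 0 0 106897 53448 0 13793 17241)) (.E 2)))
    (.S 3 6 (.S 4 2 (.S 4 1 (.S 4 0 (.L 7 8 [4, 5, 5, 4, 5, 5] [18, 0, 0, 0, 0, 0] [104, 101, 98,
    88, 78, 66] 100000 20000 20000 1250000 50000 0 0 50000 50000 50000 25000) (.L 7 8 [4, 5, 5, 4,
    5, 5] [30, 18, 0, 0, 0, 0] [104, 101, 98, 88, 78, 66] 100000 30000 30000 1225000 25000 0 100000
    50000 0 50000 25000)) (.L 7 8 [4, 5, 5, 4, 5, 5] [42, 30, 18, 0, 0, 0] [104, 101, 98, 88, 78,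
    66] 100000 25000 16667 1150001 0 0 108333 33333 0 66667 25000)) (.E 2)) (.E 1)))) (.E 1)) (.E
    1))) (.S 2 4 (.S 2 3 (.S 3 13 (.S 3 6 (.S 3 3 (.L 7 8 [4, 5, 5, 4, 5, 5] [42, 30, 18, 0, 0, 0]
    [] 100000 36251 36251 1216666 0 0 14583 14583 2083 14583 17083) (.L 6 7 [4, 4, 5, 5, 6, 6] [42,
    30, 18, 0, 0, 0] [] 100000 22917 22917 1283333 16667 0 82292 50000 9375 66667 25000)) (.E 1))
    (.E 1)) (.L 6 7 [4, 4, 5, 5, 6, 6] [42, 30, 18, 0, 0, 0] [] 100000 26250 26250 1250000 25000 0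
    90625 50000 9375 50000 25000)) (.L 6 7 [4, 4, 5, 5, 6, 6] [42, 30, 18, 0, 0, 0] [] 100000 22034
    22034 1266102 16949 0 100000 11864 11864 66102 22034)))

lemma s22_22_6_5_65 : BlkD.treeX d22_22_6_5 (BlkD.exF 6 5 x22_22_6_5) t22_22_6_5_65
    (BlkD.upd (fun _ => 0) 0 4)
    (BlkD.upd (BlkD.upd (BlkD.upd (BlkD.upd (BlkD.upd (BlkD.upd (BlkD.upd (BlkD.upd (fun _ => 22) 0 6) 2 5) 0 5) 0 4) 1 18) 1 9) 1 4) 1 2) = true := by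
  decide +kernel

lemma n22_22_6_5_65 {n : ℕ} (hn : 5 ≤ n) : BlkD.NdX d22_22_6_5 (BlkD.exF 6 5 x22_22_6_5) n
    (BlkD.upd (fun _ => 0) 0 4)
    (BlkD.upd (BlkD.upd (BlkD.upd (BlkD.upd (BlkD.upd (BlkD.upd (BlkD.upd (BlkD.upd (fun _ => 22) 0 6) 2 5) 0 5) 0 4) 1 18) 1 9) 1 4) 1 2) :=
  BlkD.NdX.tree s22_22_6_5_65 ok22_22_6_5 (by decide) hn

/-- a subtree -/
def t22_22_6_5_66 : BlkD.Tr :=
  .S 2 1 (.L 6 7 [4, 4, 5, 5, 6, 6] [66, 54, 42, 30, 0, 0] [] 100000 55077 55077 1115386 0 76923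
    53846 76923 6154 0 20000) (.S 3 13 (.S 3 6 (.S 3 3 (.L 6 7 [4, 4, 5, 5, 6, 6] [66, 54, 42, 30,
    0, 0] [] 100000 32000 32000 1228000 0 4000 84000 28000 16000 8000 18400) (.S 3 5 (.S 3 4 (.S 4
    3 (.S 4 1 (.L 6 6 [4, 4, 5, 5, 6, 7] [42, 30, 0, 0, 0, 0] [72, 62, 52, 40, 28, 0] 100000 16147
    16147 1305046 6422 12844 32110 51835 43578 32110 40367) (.L 6 6 [4, 4, 5, 5, 6, 7] [66, 54, 42,
    30, 0, 0] [72, 62, 52, 40, 28, 0] 100000 33977 33976 1191290 6250 6250 96212 54356 0 30114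
    25000)) (.E 2)) (.S 4 3 (.S 4 1 (.L 6 6 [4, 4, 5, 5, 6, 7] [42, 30, 0, 0, 0, 0] [87, 84, 74,
    64, 52, 40] 100000 15000 14999 1319048 3175 17857 38889 45238 45238 45238 25000) (.L 6 6 [4, 4,
    5, 5, 6, 7] [66, 54, 42, 30, 0, 0] [87, 84, 74, 64, 52, 40] 100000 30000 30000 1200000 0 0
    100000 50000 0 50000 25000)) (.E 2))) (.S 4 3 (.S 4 1 (.L 6 6 [4, 4, 5, 5, 6, 7] [42, 30, 0, 0,
    0, 0] [104, 101, 98, 88, 78, 66] 100000 24445 24445 1266667 0 11111 22222 100000 55556 11111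
    22222) (.L 6 6 [4, 4, 5, 5, 6, 7] [66, 54, 42, 30, 0, 0] [104, 101, 98, 88, 78, 66] 100000
    25000 25000 1256251 0 8333 100000 27083 0 68750 22917)) (.E 2)))) (.E 1)) (.E 1))

lemma s22_22_6_5_66 : BlkD.treeX d22_22_6_5 (BlkD.exF 6 5 x22_22_6_5) t22_22_6_5_66
    (BlkD.upd (BlkD.upd (fun _ => 0) 0 4) 1 3)
    (BlkD.upd (BlkD.upd (BlkD.upd (BlkD.upd (BlkD.upd (BlkD.upd (BlkD.upd (BlkD.upd (BlkD.upd (fun _ => 22) 0 6) 2 5) 0 5) 0 4) 1 18) 1 9) 1 4) 1 3) 2 2) = true := by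
  decide +kernel

lemma n22_22_6_5_66 {n : ℕ} (hn : 5 ≤ n) : BlkD.NdX d22_22_6_5 (BlkD.exF 6 5 x22_22_6_5) n
    (BlkD.upd (BlkD.upd (fun _ => 0) 0 4) 1 3)
    (BlkD.upd (BlkD.upd (BlkD.upd (BlkD.upd (BlkD.upd (BlkD.upd (BlkD.upd (BlkD.upd (BlkD.upd (fun _ => 22) 0 6) 2 5) 0 5) 0 4) 1 18) 1 9) 1 4) 1 3) 2 2) :=
  BlkD.NdX.tree s22_22_6_5_66 ok22_22_6_5 (by decide) hn

/-- a subtree -/
def t22_22_6_5_67 : BlkD.Tr :=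
  .S 2 4 (.S 2 3 (.S 3 12 (.S 3 6 (.S 3 3 (.S 3 1 (.L 6 6 [4, 4, 5, 5, 6, 7] [66, 54, 42, 30, 0, 0]
    [] 100000 40000 40000 1100000 0 0 0 0 0 0 20000) (.S 3 2 (.L 6 6 [4, 4, 5, 5, 6, 7] [66, 54,
    42, 30, 0, 0] [38, 26, 14, 0, 0, 0] 100000 31208 31208 1225365 5072 1691 81159 69324 15217
    13527 25000) (.S 4 3 (.S 4 1 (.L 6 6 [4, 4, 5, 5, 6, 7] [42, 30, 0, 0, 0, 0] [58, 48, 36, 24,
    0, 0] 100000 16667 16667 1300000 0 16667 50000 50000 50000 33333 33333) (.L 6 6 [4, 4, 5, 5, 6,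
    7] [66, 54, 42, 30, 0, 0] [58, 48, 36, 24, 0, 0] 100000 30000 30000 1200000 0 0 100000 50000 0
    50000 25000)) (.E 2)))) (.S 3 5 (.S 3 4 (.S 4 3 (.S 4 1 (.S 4 0 (.S 5 4 (.S 5 2 (.S 5 1 (.S 5 0
    (.E 2) (.L 9 10 [5, 6, 7, 3, 4, 4] [30, 0, 0, 0, 0, 0] [48, 36, 0, 0, 0, 0] 100000 33334 33334
    1199999 66667 0 0 33333 33333 66667 33333)) (.L 6 6 [4, 4, 5, 5, 6, 7] [30, 0, 0, 0, 0, 0] [60,
    48, 36, 0, 0, 0] 100000 16000 16000 1280000 0 20000 0 80000 60000 40000 40000)) (.L 6 6 [4, 4,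
    5, 5, 6, 7] [30, 0, 0, 0, 0, 0] [80, 70, 60, 48, 36, 0] 100000 22727 22726 1195456 4545 0 0
    100000 68182 9091 22727)) (.E 2)) (.L 6 6 [4, 4, 5, 5, 6, 7] [42, 30, 0, 0, 0, 0] [80, 70, 60,
    48, 36, 0] 100000 15357 15356 1303572 12500 0 71429 35714 35714 51786 25000)) (.L 6 6 [4, 4, 5,
    5, 6, 7] [66, 54, 42, 30, 0, 0] [80, 70, 60, 48, 36, 0] 100000 28929 28929 1203572 12500 0
    98214 42857 0 55357 25000)) (.E 2)) (.L 6 6 [4, 4, 5, 5, 6, 7] [66, 54, 42, 30, 0, 0] [97, 94,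
    84, 74, 62, 50] 100000 50000 50000 1100000 0 0 100000 100000 0 0 25000)) (.E 1))) (.E 1)) (.E
    1)) (.S 3 11 (.S 3 5 (.S 3 2 (.S 3 1 (.L 6 6 [4, 4, 5, 5, 6, 7] [66, 54, 42, 30, 0, 0] []
    100000 26855 26855 1226292 0 13146 72300 85446 26291 13146 17371) (.S 4 3 (.S 4 1 (.L 6 6 [4,
    4, 5, 5, 6, 7] [42, 30, 0, 0, 0, 0] [42, 30, 18, 0, 0, 0] 100000 13077 13077 1300002 11538
    11538 34615 46154 46154 46154 46154) (.L 6 6 [4, 4, 5, 5, 6, 7] [66, 54, 42, 30, 0, 0] [42, 30,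
    18, 0, 0, 0] 100000 25000 25000 1187500 12500 0 100000 12500 0 75000 25000)) (.E 2))) (.L 6 7
    [4, 4, 5, 5, 6, 6] [66, 54, 42, 30, 0, 0] [] 100000 19750 19750 1300000 20000 0 74375 40000
    20625 60000 25000)) (.E 1)) (.E 1))) (.L 6 7 [4, 4, 5, 5, 6, 6] [66, 54, 42, 30, 0, 0] []
    100000 20625 20625 1287504 25000 0 76562 37500 23438 62500 25000)

lemma s22_22_6_5_67 : BlkD.treeX d22_22_6_5 (BlkD.exF 6 5 x22_22_6_5) t22_22_6_5_67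
    (BlkD.upd (BlkD.upd (BlkD.upd (fun _ => 0) 0 4) 1 3) 2 3)
    (BlkD.upd (BlkD.upd (BlkD.upd (BlkD.upd (BlkD.upd (BlkD.upd (BlkD.upd (BlkD.upd (fun _ => 22) 0 6) 2 5) 0 5) 0 4) 1 18) 1 9) 1 4) 1 3) = true := by
  decide +kernel

lemma n22_22_6_5_67 {n : ℕ} (hn : 5 ≤ n) : BlkD.NdX d22_22_6_5 (BlkD.exF 6 5 x22_22_6_5) n
    (BlkD.upd (BlkD.upd (BlkD.upd (fun _ => 0) 0 4) 1 3) 2 3)
    (BlkD.upd (BlkD.upd (BlkD.upd (BlkD.upd (BlkD.upd (BlkD.upd (BlkD.upd (BlkD.upd (fun _ => 22) 0 6) 2 5) 0 5) 0 4) 1 18) 1 9) 1 4) 1 3) :=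
  BlkD.NdX.tree s22_22_6_5_67 ok22_22_6_5 (by decide) hn

/-- a subtree -/
def t22_22_6_5_68 : BlkD.Tr :=
  .S 2 0 (.L 6 7 [4, 4, 5, 5, 6, 6] [90, 80, 68, 56, 44, 0] [] 100000 60000 60000 800000 0 0 100000
    100000 0 0 0) (.S 3 13 (.S 3 6 (.S 3 3 (.L 6 7 [4, 4, 5, 5, 6, 6] [90, 80, 68, 56, 44, 0] []
    100000 50204 50203 1067348 0 71429 61224 71429 10204 0 14286) (.S 3 5 (.L 6 7 [4, 4, 5, 5, 6,
    6] [90, 80, 68, 56, 44, 0] [] 100000 49891 49891 1132966 0 69231 59341 69231 9890 0 23077) (.L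
    1 1 [11, 14, 17, 19, 18, 17] [90, 80, 68, 56, 44, 0] [92, 89, 86, 76, 66, 54] 100000 56000
    56000 1076000 0 68000 60000 84000 12000 16000 22000))) (.L 1 1 [11, 14, 17, 19, 18, 17] [90,
    80, 68, 56, 44, 0] [] 100000 50000 50000 1057145 0 71429 50000 78571 25000 21429 25000)) (.E
    1))

lemma s22_22_6_5_68 : BlkD.treeX d22_22_6_5 (BlkD.exF 6 5 x22_22_6_5) t22_22_6_5_68
    (BlkD.upd (BlkD.upd (BlkD.upd (fun _ => 0) 0 4) 1 3) 1 4)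
    (BlkD.upd (BlkD.upd (BlkD.upd (BlkD.upd (BlkD.upd (BlkD.upd (BlkD.upd (BlkD.upd (BlkD.upd (fun _ => 22) 0 6) 2 5) 0 5) 0 4) 1 18) 1 9) 1 4) 2 2) 2 1) = true := by
  decide +kernel

lemma n22_22_6_5_68 {n : ℕ} (hn : 5 ≤ n) : BlkD.NdX d22_22_6_5 (BlkD.exF 6 5 x22_22_6_5) n
    (BlkD.upd (BlkD.upd (BlkD.upd (fun _ => 0) 0 4) 1 3) 1 4)
    (BlkD.upd (BlkD.upd (BlkD.upd (BlkD.upd (BlkD.upd (BlkD.upd (BlkD.upd (BlkD.upd (BlkD.upd (fun _ => 22) 0 6) 2 5) 0 5) 0 4) 1 18) 1 9) 1 4) 2 2) 2 1) :=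
  BlkD.NdX.tree s22_22_6_5_68 ok22_22_6_5 (by decide) hn

/-- a subtree -/
def t22_22_6_5_69 : BlkD.Tr :=
  .S 3 1 (.L 1 1 [11, 14, 17, 19, 18, 17] [90, 80, 68, 56, 44, 0] [] 100000 40000 40000 1100000 0 0
    0 0 0 0 20000) (.S 3 2 (.L 1 1 [11, 14, 17, 19, 18, 17] [90, 80, 68, 56, 44, 0] [34, 22, 10, 0,
    0, 0] 100000 28572 28572 1228571 0 0 71429 0 28571 0 28571) (.S 4 4 (.S 4 2 (.L 4 4 [4, 5, 6,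
    8, 9, 10] [68, 56, 44, 0, 0, 0] [52, 42, 30, 18, 0, 0] 100000 32927 32927 1232930 0 39024 41463
    80488 50000 13415 36585) (.L 4 4 [4, 5, 6, 8, 9, 10] [90, 80, 68, 56, 44, 0] [52, 42, 30, 18,
    0, 0] 100000 32500 32500 1209375 0 0 100000 56250 9375 18750 25000)) (.E 2)))

lemma s22_22_6_5_69 : BlkD.treeX d22_22_6_5 (BlkD.exF 6 5 x22_22_6_5) t22_22_6_5_69
    (BlkD.upd (BlkD.upd (BlkD.upd (BlkD.upd (fun _ => 0) 0 4) 1 3) 1 4) 2 2)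
    (BlkD.upd (BlkD.upd (BlkD.upd (BlkD.upd (BlkD.upd (BlkD.upd (BlkD.upd (BlkD.upd (BlkD.upd (BlkD.upd (BlkD.upd (fun _ => 22) 0 6) 2 5) 0 5) 0 4) 1 18) 1 9) 1 4) 2 2) 3 12) 3 6) 3 3) = true := by
  decide +kernel

lemma n22_22_6_5_69 {n : ℕ} (hn : 5 ≤ n) : BlkD.NdX d22_22_6_5 (BlkD.exF 6 5 x22_22_6_5) n
    (BlkD.upd (BlkD.upd (BlkD.upd (BlkD.upd (fun _ => 0) 0 4) 1 3) 1 4) 2 2)
    (BlkD.upd (BlkD.upd (BlkD.upd (BlkD.upd (BlkD.upd (BlkD.upd (BlkD.upd (BlkD.upd (BlkD.upd (BlkD.upd (BlkD.upd (fun _ => 22) 0 6) 2 5) 0 5) 0 4) 1 18) 1 9) 1 4) 2 2) 3 12) 3 6) 3 3) :=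
  BlkD.NdX.tree s22_22_6_5_69 ok22_22_6_5 (by decide) hn

/-- a subtree -/
def t22_22_6_5_70 : BlkD.Tr :=
  .S 3 5 (.S 3 4 (.S 4 4 (.S 4 2 (.S 4 1 (.L 4 4 [4, 5, 6, 8, 9, 10] [56, 44, 0, 0, 0, 0] [72, 62,
    52, 40, 28, 0] 100000 45455 45455 1127274 0 72727 0 81818 81818 18182 27273) (.S 5 4 (.S 5 2
    (.S 5 1 (.L 6 7 [4, 4, 5, 5, 6, 6] [68, 56, 44, 0, 0, 0] [40, 28, 0, 0, 0, 0] 100000 26667
    26667 1258333 12500 12500 91667 25000 0 66667 25000) (.L 6 7 [4, 4, 5, 5, 6, 6] [68, 56, 44, 0,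
    0, 0] [52, 40, 28, 0, 0, 0] 100000 16667 16667 1300000 3704 1852 35648 75463 58333 16667
    25000)) (.L 6 7 [4, 4, 5, 5, 6, 6] [68, 56, 44, 0, 0, 0] [72, 62, 52, 40, 28, 0] 100000 25000
    16667 1150001 0 0 33333 108333 50000 0 25000)) (.E 2))) (.L 6 7 [4, 4, 5, 5, 6, 6] [90, 80, 68,
    56, 44, 0] [72, 62, 52, 40, 28, 0] 100000 32899 32899 1197102 2899 2899 100000 51449 2899 29710
    25000)) (.E 2)) (.S 4 4 (.S 4 2 (.S 4 1 (.L 4 4 [4, 5, 6, 8, 9, 10] [56, 44, 0, 0, 0, 0] [87,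
    84, 74, 64, 52, 40] 100000 43903 43903 1141464 0 69512 0 80488 75000 32927 25000) (.S 5 5 (.S 5
    2 (.L 4 4 [4, 5, 6, 8, 9, 10] [68, 56, 44, 0, 0, 0] [64, 52, 40, 0, 0, 0] 100000 24211 24211
    1257894 0 11579 97895 23158 13684 64211 22105) (.L 4 4 [4, 5, 6, 8, 9, 10] [68, 56, 44, 0, 0,
    0] [87, 84, 74, 64, 52, 40] 100000 20000 20000 1275000 0 0 25000 100000 50000 25000 25000)) (.E
    2))) (.L 4 4 [4, 5, 6, 8, 9, 10] [90, 80, 68, 56, 44, 0] [87, 84, 74, 64, 52, 40] 100000 30000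
    30000 1200000 0 0 100000 50000 0 25000 25000)) (.E 2))) (.S 4 4 (.S 4 2 (.S 4 1 (.L 4 4 [4, 5,
    6, 8, 9, 10] [56, 44, 0, 0, 0, 0] [104, 101, 98, 88, 78, 66] 100000 139394 0 1 54545 0 0 239394
    0 0 0) (.S 5 6 (.S 5 3 (.L 5 5 [4, 4, 5, 6, 7, 8] [68, 56, 44, 0, 0, 0] [88, 78, 66, 54, 0, 0]
    100000 57143 57143 1100000 0 85714 21429 100000 28571 0 14286) (.L 5 5 [4, 4, 5, 6, 7, 8] [68,
    56, 44, 0, 0, 0] [104, 101, 98, 88, 78, 66] 100000 50000 50000 1100000 12500 0 87500 100000 0 0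
    25000)) (.E 2))) (.L 5 5 [4, 4, 5, 6, 7, 8] [90, 80, 68, 56, 44, 0] [104, 101, 98, 88, 78, 66]
    100000 50000 50000 1100000 0 0 100000 100000 0 0 25000)) (.E 2))

lemma s22_22_6_5_70 : BlkD.treeX d22_22_6_5 (BlkD.exF 6 5 x22_22_6_5) t22_22_6_5_70
    (BlkD.upd (BlkD.upd (BlkD.upd (BlkD.upd (BlkD.upd (fun _ => 0) 0 4) 1 3) 1 4) 2 2) 3 4)
    (BlkD.upd (BlkD.upd (BlkD.upd (BlkD.upd (BlkD.upd (BlkD.upd (BlkD.upd (BlkD.upd (BlkD.upd (BlkD.upd (fun _ => 22) 0 6) 2 5) 0 5) 0 4) 1 18) 1 9) 1 4) 2 2) 3 12) 3 6) = true := by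
  decide +kernel

lemma n22_22_6_5_70 {n : ℕ} (hn : 5 ≤ n) : BlkD.NdX d22_22_6_5 (BlkD.exF 6 5 x22_22_6_5) n
    (BlkD.upd (BlkD.upd (BlkD.upd (BlkD.upd (BlkD.upd (fun _ => 0) 0 4) 1 3) 1 4) 2 2) 3 4)
    (BlkD.upd (BlkD.upd (BlkD.upd (BlkD.upd (BlkD.upd (BlkD.upd (BlkD.upd (BlkD.upd (BlkD.upd (BlkD.upd (fun _ => 22) 0 6) 2 5) 0 5) 0 4) 1 18) 1 9) 1 4) 2 2) 3 12) 3 6) :=
  BlkD.NdX.tree s22_22_6_5_70 ok22_22_6_5 (by decide) hn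

/-- a subtree -/
def t22_22_6_5_71 : BlkD.Tr :=
  .E 1

lemma s22_22_6_5_71 : BlkD.treeX d22_22_6_5 (BlkD.exF 6 5 x22_22_6_5) t22_22_6_5_71
    (BlkD.upd (BlkD.upd (BlkD.upd (BlkD.upd (BlkD.upd (fun _ => 0) 0 4) 1 3) 1 4) 2 2) 3 7)
    (BlkD.upd (BlkD.upd (BlkD.upd (BlkD.upd (BlkD.upd (BlkD.upd (BlkD.upd (BlkD.upd (BlkD.upd (fun _ => 22) 0 6) 2 5) 0 5) 0 4) 1 18) 1 9) 1 4) 2 2) 3 12) = true := by
  decide +kernel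

lemma n22_22_6_5_71 {n : ℕ} (hn : 5 ≤ n) : BlkD.NdX d22_22_6_5 (BlkD.exF 6 5 x22_22_6_5) n
    (BlkD.upd (BlkD.upd (BlkD.upd (BlkD.upd (BlkD.upd (fun _ => 0) 0 4) 1 3) 1 4) 2 2) 3 7)
    (BlkD.upd (BlkD.upd (BlkD.upd (BlkD.upd (BlkD.upd (BlkD.upd (BlkD.upd (BlkD.upd (BlkD.upd (fun _ => 22) 0 6) 2 5) 0 5) 0 4) 1 18) 1 9) 1 4) 2 2) 3 12) :=
  BlkD.NdX.tree s22_22_6_5_71 ok22_22_6_5 (by decide) hn

/-- a subtree -/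
def t22_22_6_5_72 : BlkD.Tr :=
  .E 1

lemma s22_22_6_5_72 : BlkD.treeX d22_22_6_5 (BlkD.exF 6 5 x22_22_6_5) t22_22_6_5_72
    (BlkD.upd (BlkD.upd (BlkD.upd (BlkD.upd (BlkD.upd (fun _ => 0) 0 4) 1 3) 1 4) 2 2) 3 13)
    (BlkD.upd (BlkD.upd (BlkD.upd (BlkD.upd (BlkD.upd (BlkD.upd (BlkD.upd (BlkD.upd (fun _ => 22) 0 6) 2 5) 0 5) 0 4) 1 18) 1 9) 1 4) 2 2) = true := by
  decide +kernel

lemma n22_22_6_5_72 {n : ℕ} (hn : 5 ≤ n) : BlkD.NdX d22_22_6_5 (BlkD.exF 6 5 x22_22_6_5) n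
    (BlkD.upd (BlkD.upd (BlkD.upd (BlkD.upd (BlkD.upd (fun _ => 0) 0 4) 1 3) 1 4) 2 2) 3 13)
    (BlkD.upd (BlkD.upd (BlkD.upd (BlkD.upd (BlkD.upd (BlkD.upd (BlkD.upd (BlkD.upd (fun _ => 22) 0 6) 2 5) 0 5) 0 4) 1 18) 1 9) 1 4) 2 2) :=
  BlkD.NdX.tree s22_22_6_5_72 ok22_22_6_5 (by decide) hn

/-- a subtree -/
def t22_22_6_5_73 : BlkD.Tr :=
  .S 3 1 (.L 5 5 [4, 4, 5, 6, 7, 8] [90, 80, 68, 56, 44, 0] [] 100000 26939 26939 1226942 0 11429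
    73061 80000 26939 11429 20000) (.S 4 4 (.S 4 2 (.S 4 1 (.L 6 7 [4, 4, 5, 5, 6, 6] [56, 44, 0,
    0, 0, 0] [38, 26, 14, 0, 0, 0] 100000 14667 14667 1320002 6667 3333 13333 70000 46667 26667
    26667) (.S 5 2 (.S 5 1 (.L 6 7 [4, 4, 5, 5, 6, 6] [68, 56, 44, 0, 0, 0] [26, 14, 0, 0, 0, 0]
    100000 15001 15001 1297222 18056 1389 59722 34722 33333 58333 25000) (.L 6 7 [4, 4, 5, 5, 6, 6]
    [68, 56, 44, 0, 0, 0] [38, 26, 14, 0, 0, 0] 100000 30000 30000 1150000 0 0 62500 87500 25000 0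
    25000)) (.E 2))) (.L 6 7 [4, 4, 5, 5, 6, 6] [90, 80, 68, 56, 44, 0] [38, 26, 14, 0, 0, 0]
    100000 32500 32500 1209375 0 0 100000 56250 9375 18750 25000)) (.E 2))

lemma s22_22_6_5_73 : BlkD.treeX d22_22_6_5 (BlkD.exF 6 5 x22_22_6_5) t22_22_6_5_73
    (BlkD.upd (BlkD.upd (BlkD.upd (BlkD.upd (fun _ => 0) 0 4) 1 3) 1 4) 2 3)
    (BlkD.upd (BlkD.upd (BlkD.upd (BlkD.upd (BlkD.upd (BlkD.upd (BlkD.upd (BlkD.upd (BlkD.upd (BlkD.upd (BlkD.upd (BlkD.upd (fun _ => 22) 0 6) 2 5) 0 5) 0 4) 1 18) 1 9) 1 4) 2 4) 2 3) 3 11) 3 5) 3 2) = true := by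
  decide +kernel

lemma n22_22_6_5_73 {n : ℕ} (hn : 5 ≤ n) : BlkD.NdX d22_22_6_5 (BlkD.exF 6 5 x22_22_6_5) n
    (BlkD.upd (BlkD.upd (BlkD.upd (BlkD.upd (fun _ => 0) 0 4) 1 3) 1 4) 2 3)
    (BlkD.upd (BlkD.upd (BlkD.upd (BlkD.upd (BlkD.upd (BlkD.upd (BlkD.upd (BlkD.upd (BlkD.upd (BlkD.upd (BlkD.upd (BlkD.upd (fun _ => 22) 0 6) 2 5) 0 5) 0 4) 1 18) 1 9) 1 4) 2 4) 2 3) 3 11) 3 5) 3 2) :=
  BlkD.NdX.tree s22_22_6_5_73 ok22_22_6_5 (by decide) hn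

/-- a subtree -/
def t22_22_6_5_74 : BlkD.Tr :=
  .S 3 4 (.S 3 3 (.S 4 4 (.S 4 2 (.S 4 1 (.S 4 0 (.S 5 3 (.S 5 1 (.S 5 0 (.L 9 10 [5, 6, 7, 3, 4,
    4] [44, 0, 0, 0, 0, 0] [24, 0, 0, 0, 0, 0] 100000 25000 25000 1225001 0 58333 0 0 50000 50000
    25000) (.L 6 7 [4, 4, 5, 5, 6, 6] [44, 0, 0, 0, 0, 0] [36, 24, 0, 0, 0, 0] 100000 26667 26667
    1233334 0 33333 0 100000 66667 0 33333)) (.L 6 7 [4, 4, 5, 5, 6, 6] [44, 0, 0, 0, 0, 0] [58,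
    48, 36, 24, 0, 0] 100000 22222 22221 1200000 0 11111 0 100000 50000 11111 27778)) (.E 2)) (.L 6
    7 [4, 4, 5, 5, 6, 6] [56, 44, 0, 0, 0, 0] [58, 48, 36, 24, 0, 0] 100000 14546 14546 1325001
    10227 10227 54545 44318 44318 34091 27273)) (.L 5 5 [4, 4, 5, 6, 7, 8] [68, 56, 44, 0, 0, 0]
    [58, 48, 36, 24, 0, 0] 100000 15238 15237 1322619 0 4762 67857 42857 42857 38095 25000)) (.L 5
    5 [4, 4, 5, 6, 7, 8] [90, 80, 68, 56, 44, 0] [58, 48, 36, 24, 0, 0] 100000 27500 27500 1206250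
    6250 0 100000 37500 12500 37500 25000)) (.E 2)) (.S 4 4 (.S 4 2 (.S 4 1 (.S 4 0 (.S 5 4 (.S 5 2
    (.S 5 1 (.S 5 0 (.E 2) (.L 9 10 [5, 6, 7, 3, 4, 4] [44, 0, 0, 0, 0, 0] [48, 36, 0, 0, 0, 0]
    100000 24138 24138 1251725 0 55172 0 82759 82759 0 27586)) (.L 6 7 [4, 4, 5, 5, 6, 6] [44, 0,
    0, 0, 0, 0] [60, 48, 36, 0, 0, 0] 100000 26667 26667 1233334 0 33333 0 100000 66667 0 33333))
    (.L 6 7 [4, 4, 5, 5, 6, 6] [44, 0, 0, 0, 0, 0] [80, 70, 60, 48, 36, 0] 100000 20000 20000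
    1200000 0 0 0 100000 60000 20000 20000)) (.E 2)) (.S 5 4 (.S 5 2 (.S 5 1 (.S 5 0 (.E 2) (.L 9
    10 [5, 6, 7, 3, 4, 4] [56, 44, 0, 0, 0, 0] [48, 36, 0, 0, 0, 0] 100000 23810 23810 1257143
    42857 0 90476 23810 28571 52381 23810)) (.L 6 7 [4, 4, 5, 5, 6, 6] [56, 44, 0, 0, 0, 0] [60,
    48, 36, 0, 0, 0] 100000 20000 20000 1275000 0 0 25000 100000 50000 25000 25000)) (.L 6 7 [4, 4,
    5, 5, 6, 6] [56, 44, 0, 0, 0, 0] [80, 70, 60, 48, 36, 0] 100000 25000 0 1100000 0 0 25000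
    125000 50000 0 25000)) (.E 2))) (.S 5 4 (.S 5 2 (.L 7 8 [4, 5, 5, 4, 5, 5] [68, 56, 44, 0, 0,
    0] [60, 48, 36, 0, 0, 0] 100000 22000 22000 1280000 10000 0 100000 20000 12000 55000 25000) (.L
    7 8 [4, 5, 5, 4, 5, 5] [68, 56, 44, 0, 0, 0] [80, 70, 60, 48, 36, 0] 100000 20000 20000 1275000
    0 0 25000 100000 55000 20000 25000)) (.E 2))) (.L 7 8 [4, 5, 5, 4, 5, 5] [90, 80, 68, 56, 44,
    0] [80, 70, 60, 48, 36, 0] 100000 30000 30000 1200000 0 0 100000 50000 0 25000 25000)) (.E 2)))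
    (.L 7 8 [4, 5, 5, 4, 5, 5] [90, 80, 68, 56, 44, 0] [97, 94, 84, 74, 62, 50] 100000 100000 0
    500000 25000 0 125000 200000 0 0 0)

lemma s22_22_6_5_74 : BlkD.treeX d22_22_6_5 (BlkD.exF 6 5 x22_22_6_5) t22_22_6_5_74
    (BlkD.upd (BlkD.upd (BlkD.upd (BlkD.upd (BlkD.upd (fun _ => 0) 0 4) 1 3) 1 4) 2 3) 3 3)
    (BlkD.upd (BlkD.upd (BlkD.upd (BlkD.upd (BlkD.upd (BlkD.upd (BlkD.upd (BlkD.upd (BlkD.upd (BlkD.upd (BlkD.upd (fun _ => 22) 0 6) 2 5) 0 5) 0 4) 1 18) 1 9) 1 4) 2 4) 2 3) 3 11) 3 5) = true := by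
  decide +kernel

lemma n22_22_6_5_74 {n : ℕ} (hn : 5 ≤ n) : BlkD.NdX d22_22_6_5 (BlkD.exF 6 5 x22_22_6_5) n
    (BlkD.upd (BlkD.upd (BlkD.upd (BlkD.upd (BlkD.upd (fun _ => 0) 0 4) 1 3) 1 4) 2 3) 3 3)
    (BlkD.upd (BlkD.upd (BlkD.upd (BlkD.upd (BlkD.upd (BlkD.upd (BlkD.upd (BlkD.upd (BlkD.upd (BlkD.upd (BlkD.upd (fun _ => 22) 0 6) 2 5) 0 5) 0 4) 1 18) 1 9) 1 4) 2 4) 2 3) 3 11) 3 5) :=
  BlkD.NdX.tree s22_22_6_5_74 ok22_22_6_5 (by decide) hn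

/-- a subtree -/
def t22_22_6_5_75 : BlkD.Tr :=
  .E 1

lemma s22_22_6_5_75 : BlkD.treeX d22_22_6_5 (BlkD.exF 6 5 x22_22_6_5) t22_22_6_5_75
    (BlkD.upd (BlkD.upd (BlkD.upd (BlkD.upd (BlkD.upd (fun _ => 0) 0 4) 1 3) 1 4) 2 3) 3 6)
    (BlkD.upd (BlkD.upd (BlkD.upd (BlkD.upd (BlkD.upd (BlkD.upd (BlkD.upd (BlkD.upd (BlkD.upd (BlkD.upd (fun _ => 22) 0 6) 2 5) 0 5) 0 4) 1 18) 1 9) 1 4) 2 4) 2 3) 3 11) = true := by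
  decide +kernel

lemma n22_22_6_5_75 {n : ℕ} (hn : 5 ≤ n) : BlkD.NdX d22_22_6_5 (BlkD.exF 6 5 x22_22_6_5) n
    (BlkD.upd (BlkD.upd (BlkD.upd (BlkD.upd (BlkD.upd (fun _ => 0) 0 4) 1 3) 1 4) 2 3) 3 6)
    (BlkD.upd (BlkD.upd (BlkD.upd (BlkD.upd (BlkD.upd (BlkD.upd (BlkD.upd (BlkD.upd (BlkD.upd (BlkD.upd (fun _ => 22) 0 6) 2 5) 0 5) 0 4) 1 18) 1 9) 1 4) 2 4) 2 3) 3 11) :=
  BlkD.NdX.tree s22_22_6_5_75 ok22_22_6_5 (by decide) hn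

/-- a subtree -/
def t22_22_6_5_76 : BlkD.Tr :=
  .E 1

lemma s22_22_6_5_76 : BlkD.treeX d22_22_6_5 (BlkD.exF 6 5 x22_22_6_5) t22_22_6_5_76
    (BlkD.upd (BlkD.upd (BlkD.upd (BlkD.upd (BlkD.upd (fun _ => 0) 0 4) 1 3) 1 4) 2 3) 3 12)
    (BlkD.upd (BlkD.upd (BlkD.upd (BlkD.upd (BlkD.upd (BlkD.upd (BlkD.upd (BlkD.upd (BlkD.upd (fun _ => 22) 0 6) 2 5) 0 5) 0 4) 1 18) 1 9) 1 4) 2 4) 2 3) = true := by
  decide +kernel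

lemma n22_22_6_5_76 {n : ℕ} (hn : 5 ≤ n) : BlkD.NdX d22_22_6_5 (BlkD.exF 6 5 x22_22_6_5) n
    (BlkD.upd (BlkD.upd (BlkD.upd (BlkD.upd (BlkD.upd (fun _ => 0) 0 4) 1 3) 1 4) 2 3) 3 12)
    (BlkD.upd (BlkD.upd (BlkD.upd (BlkD.upd (BlkD.upd (BlkD.upd (BlkD.upd (BlkD.upd (BlkD.upd (fun _ => 22) 0 6) 2 5) 0 5) 0 4) 1 18) 1 9) 1 4) 2 4) 2 3) :=
  BlkD.NdX.tree s22_22_6_5_76 ok22_22_6_5 (by decide) hn

/-- a subtree -/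
def t22_22_6_5_77 : BlkD.Tr :=
  .S 3 10 (.S 3 5 (.S 3 2 (.S 3 1 (.L 7 8 [4, 5, 5, 4, 5, 5] [90, 80, 68, 56, 44, 0] [] 100000
    19445 19445 1300000 0 33333 70833 66667 34722 33333 22222) (.S 4 4 (.S 4 2 (.S 4 1 (.S 4 0 (.S
    5 2 (.S 5 1 (.S 5 0 (.L 9 10 [5, 6, 7, 3, 4, 4] [44, 0, 0, 0, 0, 0] [18, 0, 0, 0, 0, 0] 100000
    22222 22221 1255556 0 72222 0 0 66667 33333 33333) (.L 7 8 [4, 5, 5, 4, 5, 5] [44, 0, 0, 0, 0,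
    0] [30, 18, 0, 0, 0, 0] 100000 17143 17142 1299999 14286 21429 0 64286 28571 42857 21429)) (.L
    7 8 [4, 5, 5, 4, 5, 5] [44, 0, 0, 0, 0, 0] [42, 30, 18, 0, 0, 0] 100000 20000 20000 1220000 0 0
    0 100000 50000 20000 30000)) (.E 2)) (.L 7 8 [4, 5, 5, 4, 5, 5] [56, 44, 0, 0, 0, 0] [42, 30,
    18, 0, 0, 0] 100000 16040 16040 1293070 20792 0 65347 44554 35644 47525 19802)) (.L 7 8 [4, 5,
    5, 4, 5, 5] [68, 56, 44, 0, 0, 0] [42, 30, 18, 0, 0, 0] 100000 15000 15000 1300000 12500 0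
    75000 25000 25000 75000 25000)) (.L 7 8 [4, 5, 5, 4, 5, 5] [90, 80, 68, 56, 44, 0] [42, 30, 18,
    0, 0, 0] 100000 25000 25000 1187500 12500 0 100000 12500 0 75000 25000)) (.E 2))) (.S 3 4 (.S 3
    3 (.S 4 4 (.S 4 2 (.S 4 1 (.S 4 0 (.S 5 3 (.S 5 1 (.E 2) (.S 5 2 (.E 9) (.L 7 8 [4, 5, 5, 4, 5,
    5] [44, 0, 0, 0, 0, 0] [64, 54, 42, 30, 0, 0] 100000 20000 20000 1200000 0 0 0 100000 50000
    25000 25000))) (.E 2)) (.L 7 8 [4, 5, 5, 4, 5, 5] [56, 44, 0, 0, 0, 0] [64, 54, 42, 30, 0, 0]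
    100000 33334 33334 1185715 42857 0 90476 47619 28571 52381 23810)) (.L 7 8 [4, 5, 5, 4, 5, 5]
    [68, 56, 44, 0, 0, 0] [64, 54, 42, 30, 0, 0] 100000 20000 20000 1275000 0 0 100000 25000 25000
    50000 25000)) (.L 7 8 [4, 5, 5, 4, 5, 5] [90, 80, 68, 56, 44, 0] [64, 54, 42, 30, 0, 0] 100000
    25000 0 1100000 0 0 125000 25000 0 50000 25000)) (.E 2)) (.E 2)) (.E 1))) (.E 1)) (.E 1)

lemma s22_22_6_5_77 : BlkD.treeX d22_22_6_5 (BlkD.exF 6 5 x22_22_6_5) t22_22_6_5_77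
    (BlkD.upd (BlkD.upd (BlkD.upd (BlkD.upd (BlkD.upd (fun _ => 0) 0 4) 1 3) 1 4) 2 3) 2 4)
    (BlkD.upd (BlkD.upd (BlkD.upd (BlkD.upd (BlkD.upd (BlkD.upd (BlkD.upd (BlkD.upd (fun _ => 22) 0 6) 2 5) 0 5) 0 4) 1 18) 1 9) 1 4) 2 4) = true := by
  decide +kernel

lemma n22_22_6_5_77 {n : ℕ} (hn : 5 ≤ n) : BlkD.NdX d22_22_6_5 (BlkD.exF 6 5 x22_22_6_5) n
    (BlkD.upd (BlkD.upd (BlkD.upd (BlkD.upd (BlkD.upd (fun _ => 0) 0 4) 1 3) 1 4) 2 3) 2 4)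
    (BlkD.upd (BlkD.upd (BlkD.upd (BlkD.upd (BlkD.upd (BlkD.upd (BlkD.upd (BlkD.upd (fun _ => 22) 0 6) 2 5) 0 5) 0 4) 1 18) 1 9) 1 4) 2 4) :=
  BlkD.NdX.tree s22_22_6_5_77 ok22_22_6_5 (by decide) hn

/-- a subtree -/
def t22_22_6_5_78 : BlkD.Tr :=
  .S 3 9 (.S 3 4 (.S 3 2 (.S 3 1 (.S 3 0 (.L 6 7 [4, 4, 5, 5, 6, 6] [90, 80, 68, 56, 44, 0] [0, 0,
    0, 0, 0, 0] 100000 13659 13659 1300001 17073 0 67073 0 40244 51220 31707) (.S 4 4 (.S 4 2 (.S 4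
    1 (.L 7 8 [4, 5, 5, 4, 5, 5] [56, 44, 0, 0, 0, 0] [22, 10, 0, 0, 0, 0] 100000 15000 15000
    1306250 18750 18750 37500 75000 37500 75000 25000) (.L 7 8 [4, 5, 5, 4, 5, 5] [68, 56, 44, 0,
    0, 0] [22, 10, 0, 0, 0, 0] 100000 21429 21429 1200000 7143 0 100000 14286 14286 64286 21429))
    (.L 7 8 [4, 5, 5, 4, 5, 5] [90, 80, 68, 56, 44, 0] [22, 10, 0, 0, 0, 0] 100000 40000 0 980000 0
    0 140000 0 0 20000 15000)) (.E 2))) (.S 4 4 (.S 4 2 (.S 4 1 (.S 4 0 (.S 5 2 (.S 5 1 (.E 2) (.E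
    9)) (.E 2)) (.L 7 8 [4, 5, 5, 4, 5, 5] [56, 44, 0, 0, 0, 0] [46, 34, 22, 0, 0, 0] 100000 33334
    33334 1185715 42857 0 90476 47619 28571 52381 23810)) (.L 7 8 [4, 5, 5, 4, 5, 5] [68, 56, 44,
    0, 0, 0] [46, 34, 22, 0, 0, 0] 100000 30000 30000 1212500 37500 0 100000 12500 0 62500 25000))
    (.L 7 8 [4, 5, 5, 4, 5, 5] [90, 80, 68, 56, 44, 0] [46, 34, 22, 0, 0, 0] 100000 25000 0 1100000
    0 0 125000 25000 0 50000 25000)) (.E 2))) (.E 1)) (.E 1)) (.E 1)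

lemma s22_22_6_5_78 : BlkD.treeX d22_22_6_5 (BlkD.exF 6 5 x22_22_6_5) t22_22_6_5_78
    (BlkD.upd (BlkD.upd (BlkD.upd (BlkD.upd (BlkD.upd (fun _ => 0) 0 4) 1 3) 1 4) 2 3) 2 5)
    (BlkD.upd (BlkD.upd (BlkD.upd (BlkD.upd (BlkD.upd (BlkD.upd (BlkD.upd (fun _ => 22) 0 6) 2 5) 0 5) 0 4) 1 18) 1 9) 1 4) = true := by
  decide +kernel

lemma n22_22_6_5_78 {n : ℕ} (hn : 5 ≤ n) : BlkD.NdX d22_22_6_5 (BlkD.exF 6 5 x22_22_6_5) n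
    (BlkD.upd (BlkD.upd (BlkD.upd (BlkD.upd (BlkD.upd (fun _ => 0) 0 4) 1 3) 1 4) 2 3) 2 5)
    (BlkD.upd (BlkD.upd (BlkD.upd (BlkD.upd (BlkD.upd (BlkD.upd (BlkD.upd (fun _ => 22) 0 6) 2 5) 0 5) 0 4) 1 18) 1 9) 1 4) :=
  BlkD.NdX.tree s22_22_6_5_78 ok22_22_6_5 (by decide) hn

end BlkC

end Pool.Agent.Lib.MP_f04ccf_co
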