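import Pool.Agent.Lib.MP_f04ccf_co.M.BlkX22_22_6_5d

/-!
MP_f04ccf_co, block certificate with exceptions, `R = 22`, `H = 22`, the pair `(6, 5)` (data of helper99 / helper13,
generated by helper8, genx.py): part 5 of 5.
-/

set_option autoImplicit false
set_option maxRecDepth 100000

namespace Pool.Agent.Lib.MP_f04ccf_co

namespace BlkC

/-- a subtree -/
def t22_22_6_5_79 : BlkD.Tr :=
  .S 2 1 (.L 7 8 [4, 5, 5, 4, 5, 5] [114, 106, 96, 84, 72, 60] [] 100000 50000 50000 1137500 0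
    75000 37500 87500 37500 0 25000) (.S 3 11 (.S 3 5 (.S 3 2 (.L 7 8 [4, 5, 5, 4, 5, 5] [114, 106,
    96, 84, 72, 60] [] 100000 21795 21795 1244231 7692 7692 60897 39744 47436 6410 30769) (.S 3 4
    (.S 3 3 (.S 4 5 (.S 4 2 (.E 2) (.S 4 4 (.S 4 3 (.L 3 3 [5, 7, 8, 10, 11, 13] [96, 84, 72, 60,
    0, 0] [52, 42, 30, 18, 0, 0] 100000 40625 40625 1192188 0 50000 57812 68750 59375 6250 25000)
    (.L 3 3 [5, 7, 8, 10, 11, 13] [106, 96, 84, 72, 60, 0] [52, 42, 30, 18, 0, 0] 100000 36572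
    36572 1182858 0 8571 100000 60000 8571 17143 22857)) (.L 3 3 [5, 7, 8, 10, 11, 13] [114, 106,
    96, 84, 72, 60] [52, 42, 30, 18, 0, 0] 100000 40000 8000 1004000 0 0 132000 48000 0 16000
    14000))) (.E 2)) (.S 4 5 (.S 4 2 (.E 2) (.S 4 4 (.S 4 3 (.S 5 4 (.S 5 2 (.S 5 1 (.L 3 3 [5, 7,
    8, 10, 11, 13] [96, 84, 72, 60, 0, 0] [40, 28, 0, 0, 0, 0] 100000 66667 66667 1033332 0 66667
    100000 66667 0 66667 33333) (.L 3 3 [5, 7, 8, 10, 11, 13] [96, 84, 72, 60, 0, 0] [52, 40, 28,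
    0, 0, 0] 100000 25000 25000 1250000 0 12500 25000 100000 50000 25000 25000)) (.L 3 3 [5, 7, 8,
    10, 11, 13] [96, 84, 72, 60, 0, 0] [72, 62, 52, 40, 28, 0] 100000 25000 0 1100000 0 0 25000
    125000 50000 0 25000)) (.E 2)) (.L 3 3 [5, 7, 8, 10, 11, 13] [106, 96, 84, 72, 60, 0] [72, 62,
    52, 40, 28, 0] 100000 30000 30000 1200000 0 0 100000 50000 0 25000 25000)) (.L 3 3 [5, 7, 8,
    10, 11, 13] [114, 106, 96, 84, 72, 60] [72, 62, 52, 40, 28, 0] 100000 50000 0 900000 0 0 150000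
    75000 0 0 25000))) (.E 2))) (.L 3 3 [5, 7, 8, 10, 11, 13] [114, 106, 96, 84, 72, 60] [87, 84,
    74, 64, 52, 40] 100000 50000 49999 1133333 0 26667 100000 60000 0 41667 25000))) (.L 3 3 [5, 7,
    8, 10, 11, 13] [114, 106, 96, 84, 72, 60] [] 100000 162500 0 0 0 0 41667 262500 0 0 0)) (.E 1))

lemma s22_22_6_5_79 : BlkD.treeX d22_22_6_5 (BlkD.exF 6 5 x22_22_6_5) t22_22_6_5_79
    (BlkD.upd (BlkD.upd (fun _ => 0) 0 4) 1 5)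
    (BlkD.upd (BlkD.upd (BlkD.upd (BlkD.upd (BlkD.upd (BlkD.upd (BlkD.upd (BlkD.upd (BlkD.upd (BlkD.upd (fun _ => 22) 0 6) 2 5) 0 5) 0 4) 1 18) 1 9) 1 7) 1 6) 1 5) 2 2) = true := by
  decide +kernel

lemma n22_22_6_5_79 {n : ℕ} (hn : 5 ≤ n) : BlkD.NdX d22_22_6_5 (BlkD.exF 6 5 x22_22_6_5) n
    (BlkD.upd (BlkD.upd (fun _ => 0) 0 4) 1 5)
    (BlkD.upd (BlkD.upd (BlkD.upd (BlkD.upd (BlkD.upd (BlkD.upd (BlkD.upd (BlkD.upd (BlkD.upd (BlkD.upd (fun _ => 22) 0 6) 2 5) 0 5) 0 4) 1 18) 1 9) 1 7) 1 6) 1 5) 2 2) :=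
  BlkD.NdX.tree s22_22_6_5_79 ok22_22_6_5 (by decide) hn

/-- a subtree -/
def t22_22_6_5_80 : BlkD.Tr :=
  .S 2 4 (.S 2 3 (.S 3 10 (.S 3 5 (.S 3 2 (.S 3 1 (.L 3 3 [5, 7, 8, 10, 11, 13] [114, 106, 96, 84,
    72, 60] [] 100000 20455 20455 1243183 0 11364 54545 65909 54545 9091 36364) (.S 4 5 (.S 4 2 (.E
    2) (.S 4 4 (.S 4 3 (.S 5 2 (.S 5 1 (.L 6 7 [4, 4, 5, 5, 6, 6] [96, 84, 72, 60, 0, 0] [26, 14,
    0, 0, 0, 0] 100000 15295 15295 1285294 17647 2941 76471 17647 23529 55882 23529) (.L 6 7 [4, 4,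
    5, 5, 6, 6] [96, 84, 72, 60, 0, 0] [38, 26, 14, 0, 0, 0] 100000 25000 16667 1150001 0 0 33333
    108333 50000 0 25000)) (.E 2)) (.L 6 7 [4, 4, 5, 5, 6, 6] [106, 96, 84, 72, 60, 0] [38, 26, 14,
    0, 0, 0] 100000 37143 37142 1185716 14286 0 100000 50000 0 14286 21429)) (.L 6 7 [4, 4, 5, 5,
    6, 6] [114, 106, 96, 84, 72, 60] [38, 26, 14, 0, 0, 0] 100000 40000 8000 1004000 0 0 132000
    48000 0 16000 14000))) (.E 2))) (.S 3 4 (.S 3 3 (.L 6 7 [4, 4, 5, 5, 6, 6] [114, 106, 96, 84,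
    72, 60] [58, 48, 36, 24, 0, 0] 100000 15000 15000 1312500 0 0 75000 37500 37500 37500 25000)
    (.L 6 7 [4, 4, 5, 5, 6, 6] [114, 106, 96, 84, 72, 60] [80, 70, 60, 48, 36, 0] 100000 20000
    20000 1275000 0 0 100000 25000 20000 50000 25000)) (.E 2))) (.E 1)) (.E 1)) (.L 6 7 [4, 4, 5,
    5, 6, 6] [114, 106, 96, 84, 72, 60] [] 100000 20000 20000 1275000 0 0 100000 25000 25000 50000
    25000)) (.L 6 7 [4, 4, 5, 5, 6, 6] [114, 106, 96, 84, 72, 60] [] 100000 30000 30000 1200000 0 0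
    100000 50000 12500 25000 25000)

lemma s22_22_6_5_80 : BlkD.treeX d22_22_6_5 (BlkD.exF 6 5 x22_22_6_5) t22_22_6_5_80
    (BlkD.upd (BlkD.upd (BlkD.upd (fun _ => 0) 0 4) 1 5) 2 3)
    (BlkD.upd (BlkD.upd (BlkD.upd (BlkD.upd (BlkD.upd (BlkD.upd (BlkD.upd (BlkD.upd (BlkD.upd (fun _ => 22) 0 6) 2 5) 0 5) 0 4) 1 18) 1 9) 1 7) 1 6) 1 5) = true := by
  decide +kernel

lemma n22_22_6_5_80 {n : ℕ} (hn : 5 ≤ n) : BlkD.NdX d22_22_6_5 (BlkD.exF 6 5 x22_22_6_5) n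
    (BlkD.upd (BlkD.upd (BlkD.upd (fun _ => 0) 0 4) 1 5) 2 3)
    (BlkD.upd (BlkD.upd (BlkD.upd (BlkD.upd (BlkD.upd (BlkD.upd (BlkD.upd (BlkD.upd (BlkD.upd (fun _ => 22) 0 6) 2 5) 0 5) 0 4) 1 18) 1 9) 1 7) 1 6) 1 5) :=
  BlkD.NdX.tree s22_22_6_5_80 ok22_22_6_5 (by decide) hn

/-- a subtree -/
def t22_22_6_5_81 : BlkD.Tr :=
  .L 6 7 [4, 4, 5, 5, 6, 6] [132, 132, 124, 114, 102, 90] [] 100000 35000 34999 1200000 0 0 100000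
    50000 0 12500 15833

lemma s22_22_6_5_81 : BlkD.treeX d22_22_6_5 (BlkD.exF 6 5 x22_22_6_5) t22_22_6_5_81
    (BlkD.upd (BlkD.upd (BlkD.upd (fun _ => 0) 0 4) 1 5) 1 6)
    (BlkD.upd (BlkD.upd (BlkD.upd (BlkD.upd (BlkD.upd (BlkD.upd (BlkD.upd (BlkD.upd (fun _ => 22) 0 6) 2 5) 0 5) 0 4) 1 18) 1 9) 1 7) 1 6) = true := by
  decide +kernel

lemma n22_22_6_5_81 {n : ℕ} (hn : 5 ≤ n) : BlkD.NdX d22_22_6_5 (BlkD.exF 6 5 x22_22_6_5) n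
    (BlkD.upd (BlkD.upd (BlkD.upd (fun _ => 0) 0 4) 1 5) 1 6)
    (BlkD.upd (BlkD.upd (BlkD.upd (BlkD.upd (BlkD.upd (BlkD.upd (BlkD.upd (BlkD.upd (fun _ => 22) 0 6) 2 5) 0 5) 0 4) 1 18) 1 9) 1 7) 1 6) :=
  BlkD.NdX.tree s22_22_6_5_81 ok22_22_6_5 (by decide) hn

/-- a subtree -/
def t22_22_6_5_82 : BlkD.Tr :=
  .E 0

lemma s22_22_6_5_82 : BlkD.treeX d22_22_6_5 (BlkD.exF 6 5 x22_22_6_5) t22_22_6_5_82
    (BlkD.upd (BlkD.upd (BlkD.upd (fun _ => 0) 0 4) 1 5) 1 7)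
    (BlkD.upd (BlkD.upd (BlkD.upd (BlkD.upd (BlkD.upd (BlkD.upd (BlkD.upd (fun _ => 22) 0 6) 2 5) 0 5) 0 4) 1 18) 1 9) 1 7) = true := by
  decide +kernel

lemma n22_22_6_5_82 {n : ℕ} (hn : 5 ≤ n) : BlkD.NdX d22_22_6_5 (BlkD.exF 6 5 x22_22_6_5) n
    (BlkD.upd (BlkD.upd (BlkD.upd (fun _ => 0) 0 4) 1 5) 1 7)
    (BlkD.upd (BlkD.upd (BlkD.upd (BlkD.upd (BlkD.upd (BlkD.upd (BlkD.upd (fun _ => 22) 0 6) 2 5) 0 5) 0 4) 1 18) 1 9) 1 7) :=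
  BlkD.NdX.tree s22_22_6_5_82 ok22_22_6_5 (by decide) hn

/-- a subtree -/
def t22_22_6_5_83 : BlkD.Tr :=
  .E 0

lemma s22_22_6_5_83 : BlkD.treeX d22_22_6_5 (BlkD.exF 6 5 x22_22_6_5) t22_22_6_5_83
    (BlkD.upd (BlkD.upd (BlkD.upd (fun _ => 0) 0 4) 1 5) 1 8)
    (BlkD.upd (BlkD.upd (BlkD.upd (BlkD.upd (BlkD.upd (BlkD.upd (fun _ => 22) 0 6) 2 5) 0 5) 0 4) 1 18) 1 9) = true := by
  decide +kernel

lemma n22_22_6_5_83 {n : ℕ} (hn : 5 ≤ n) : BlkD.NdX d22_22_6_5 (BlkD.exF 6 5 x22_22_6_5) n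
    (BlkD.upd (BlkD.upd (BlkD.upd (fun _ => 0) 0 4) 1 5) 1 8)
    (BlkD.upd (BlkD.upd (BlkD.upd (BlkD.upd (BlkD.upd (BlkD.upd (fun _ => 22) 0 6) 2 5) 0 5) 0 4) 1 18) 1 9) :=
  BlkD.NdX.tree s22_22_6_5_83 ok22_22_6_5 (by decide) hn

/-- a subtree -/
def t22_22_6_5_84 : BlkD.Tr :=
  .E 0

lemma s22_22_6_5_84 : BlkD.treeX d22_22_6_5 (BlkD.exF 6 5 x22_22_6_5) t22_22_6_5_84
    (BlkD.upd (BlkD.upd (fun _ => 0) 0 4) 1 10)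
    (BlkD.upd (BlkD.upd (BlkD.upd (BlkD.upd (BlkD.upd (fun _ => 22) 0 6) 2 5) 0 5) 0 4) 1 18) = true := by
  decide +kernel

lemma n22_22_6_5_84 {n : ℕ} (hn : 5 ≤ n) : BlkD.NdX d22_22_6_5 (BlkD.exF 6 5 x22_22_6_5) n
    (BlkD.upd (BlkD.upd (fun _ => 0) 0 4) 1 10)
    (BlkD.upd (BlkD.upd (BlkD.upd (BlkD.upd (BlkD.upd (fun _ => 22) 0 6) 2 5) 0 5) 0 4) 1 18) :=
  BlkD.NdX.tree s22_22_6_5_84 ok22_22_6_5 (by decide) hn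

/-- a subtree -/
def t22_22_6_5_85 : BlkD.Tr :=
  .E 0

lemma s22_22_6_5_85 : BlkD.treeX d22_22_6_5 (BlkD.exF 6 5 x22_22_6_5) t22_22_6_5_85
    (BlkD.upd (BlkD.upd (fun _ => 0) 0 4) 1 19)
    (BlkD.upd (BlkD.upd (BlkD.upd (BlkD.upd (fun _ => 22) 0 6) 2 5) 0 5) 0 4) = true := by
  decide +kernel

lemma n22_22_6_5_85 {n : ℕ} (hn : 5 ≤ n) : BlkD.NdX d22_22_6_5 (BlkD.exF 6 5 x22_22_6_5) n
    (BlkD.upd (BlkD.upd (fun _ => 0) 0 4) 1 19)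
    (BlkD.upd (BlkD.upd (BlkD.upd (BlkD.upd (fun _ => 22) 0 6) 2 5) 0 5) 0 4) :=
  BlkD.NdX.tree s22_22_6_5_85 ok22_22_6_5 (by decide) hn

/-- a subtree -/
def t22_22_6_5_86 : BlkD.Tr :=
  .S 1 1 (.S 1 0 (.L 6 7 [4, 4, 5, 5, 6, 6] [0, 0, 0, 0, 0, 0] [] 100000 34667 34667 1213336 0 0 0
    86667 0 26667 20000) (.S 2 2 (.S 2 1 (.L 6 7 [4, 4, 5, 5, 6, 6] [22, 10, 0, 0, 0, 0] [] 100000
    62500 62500 1000000 0 100000 37500 100000 37500 0 12500) (.S 3 14 (.S 3 7 (.S 3 3 (.L 6 7 [4,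
    4, 5, 5, 6, 6] [22, 10, 0, 0, 0, 0] [] 100000 40000 40000 1100000 0 0 0 0 0 0 20000) (.L 6 7
    [4, 4, 5, 5, 6, 6] [22, 10, 0, 0, 0, 0] [] 100000 17212 17212 1303848 25481 5769 63942 59135
    38462 37019 19231)) (.E 1)) (.E 1))) (.L 6 7 [4, 4, 5, 5, 6, 6] [22, 10, 0, 0, 0, 0] [] 100000
    15111 15110 1322225 26667 0 75556 62222 48889 26667 24444))) (.S 2 2 (.S 2 1 (.L 6 7 [4, 4, 5,
    5, 6, 6] [46, 34, 22, 0, 0, 0] [] 100000 50000 50000 1100000 0 75000 50000 75000 25000 0 25000)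
    (.S 3 13 (.S 3 6 (.S 3 3 (.L 6 7 [4, 4, 5, 5, 6, 6] [46, 34, 22, 0, 0, 0] [] 100000 17727 17726
    1279546 0 10606 45076 68939 45076 21212 25000) (.L 6 7 [4, 4, 5, 5, 6, 6] [46, 34, 22, 0, 0, 0]
    [] 100000 16286 16286 1318215 20714 2143 63929 47500 43214 32143 25000)) (.E 1)) (.E 1))) (.S 2
    4 (.S 2 3 (.S 3 12 (.S 3 6 (.S 3 3 (.L 6 7 [4, 4, 5, 5, 6, 6] [46, 34, 22, 0, 0, 0] [] 100000
    16000 16000 1300000 0 0 50000 60000 50000 20000 30000) (.L 6 7 [4, 4, 5, 5, 6, 6] [46, 34, 22,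
    0, 0, 0] [] 100000 13334 13334 1300001 33333 0 66667 33333 33333 66667 33333)) (.E 1)) (.E 1))
    (.L 6 7 [4, 4, 5, 5, 6, 6] [46, 34, 22, 0, 0, 0] [] 100000 15000 15000 1275000 25000 0 68750
    43750 43750 37500 25000)) (.L 6 7 [4, 4, 5, 5, 6, 6] [46, 34, 22, 0, 0, 0] [] 100000 15000
    15000 1255000 32500 0 72500 40000 40000 50000 25000)))

lemma s22_22_6_5_86 : BlkD.treeX d22_22_6_5 (BlkD.exF 6 5 x22_22_6_5) t22_22_6_5_86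
    (BlkD.upd (BlkD.upd (fun _ => 0) 0 4) 0 5)
    (BlkD.upd (BlkD.upd (BlkD.upd (BlkD.upd (BlkD.upd (BlkD.upd (BlkD.upd (fun _ => 22) 0 6) 2 5) 0 5) 1 17) 1 8) 1 4) 1 2) = true := by
  decide +kernel

lemma n22_22_6_5_86 {n : ℕ} (hn : 5 ≤ n) : BlkD.NdX d22_22_6_5 (BlkD.exF 6 5 x22_22_6_5) n
    (BlkD.upd (BlkD.upd (fun _ => 0) 0 4) 0 5)
    (BlkD.upd (BlkD.upd (BlkD.upd (BlkD.upd (BlkD.upd (BlkD.upd (BlkD.upd (fun _ => 22) 0 6) 2 5) 0 5) 1 17) 1 8) 1 4) 1 2) :=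
  BlkD.NdX.tree s22_22_6_5_86 ok22_22_6_5 (by decide) hn

/-- a subtree -/
def t22_22_6_5_87 : BlkD.Tr :=
  .S 2 1 (.L 6 7 [4, 4, 5, 5, 6, 6] [72, 60, 48, 36, 0, 0] [] 100000 50000 50000 1100000 0 66667
    50000 83333 25000 0 25000) (.S 3 12 (.S 3 6 (.S 3 3 (.L 6 7 [4, 4, 5, 5, 6, 6] [72, 60, 48, 36,
    0, 0] [] 100000 17143 17143 1290478 0 9524 47619 61905 47619 19048 28571) (.S 3 5 (.S 3 4 (.S 4
    3 (.S 4 1 (.L 6 7 [4, 4, 5, 5, 6, 6] [48, 36, 0, 0, 0, 0] [72, 62, 52, 40, 28, 0] 100000 45000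
    45000 1105000 0 77500 0 85000 55000 15000 22500) (.L 6 7 [4, 4, 5, 5, 6, 6] [72, 60, 48, 36, 0,
    0] [72, 62, 52, 40, 28, 0] 100000 15000 15000 1320834 14583 0 64583 40625 45313 34375 25000))
    (.E 2)) (.S 4 3 (.S 4 1 (.L 6 7 [4, 4, 5, 5, 6, 6] [48, 36, 0, 0, 0, 0] [87, 84, 74, 64, 52,
    40] 100000 39286 39286 1157143 0 67857 0 71429 75000 10714 25000) (.L 6 7 [4, 4, 5, 5, 6, 6]
    [72, 60, 48, 36, 0, 0] [87, 84, 74, 64, 52, 40] 100000 15000 15000 1300000 25000 0 75000 25000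
    25000 50000 25000)) (.E 2))) (.L 6 7 [4, 4, 5, 5, 6, 6] [72, 60, 48, 36, 0, 0] [104, 101, 98,
    88, 78, 66] 100000 50000 50000 1100000 0 0 100000 100000 0 0 25000))) (.E 1)) (.E 1))

lemma s22_22_6_5_87 : BlkD.treeX d22_22_6_5 (BlkD.exF 6 5 x22_22_6_5) t22_22_6_5_87
    (BlkD.upd (BlkD.upd (BlkD.upd (fun _ => 0) 0 4) 0 5) 1 3)
    (BlkD.upd (BlkD.upd (BlkD.upd (BlkD.upd (BlkD.upd (BlkD.upd (BlkD.upd (BlkD.upd (fun _ => 22) 0 6) 2 5) 0 5) 1 17) 1 8) 1 4) 1 3) 2 2) = true := by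
  decide +kernel

lemma n22_22_6_5_87 {n : ℕ} (hn : 5 ≤ n) : BlkD.NdX d22_22_6_5 (BlkD.exF 6 5 x22_22_6_5) n
    (BlkD.upd (BlkD.upd (BlkD.upd (fun _ => 0) 0 4) 0 5) 1 3)
    (BlkD.upd (BlkD.upd (BlkD.upd (BlkD.upd (BlkD.upd (BlkD.upd (BlkD.upd (BlkD.upd (fun _ => 22) 0 6) 2 5) 0 5) 1 17) 1 8) 1 4) 1 3) 2 2) :=
  BlkD.NdX.tree s22_22_6_5_87 ok22_22_6_5 (by decide) hn

/-- a subtree -/
def t22_22_6_5_88 : BlkD.Tr :=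
  .S 2 4 (.S 2 3 (.S 3 11 (.S 3 5 (.S 3 2 (.L 6 7 [4, 4, 5, 5, 6, 6] [72, 60, 48, 36, 0, 0] []
    100000 16000 16000 1300000 0 10000 50000 60000 50000 20000 30000) (.S 3 4 (.S 3 3 (.L 6 7 [4,
    4, 5, 5, 6, 6] [72, 60, 48, 36, 0, 0] [58, 48, 36, 24, 0, 0] 100000 15000 15000 1300000 0 25000
    50000 50000 50000 50000 25000) (.S 4 3 (.S 4 1 (.S 4 0 (.E 2) (.S 5 4 (.S 5 2 (.S 5 1 (.L 7 8
    [4, 5, 5, 4, 5, 5] [48, 36, 0, 0, 0, 0] [48, 36, 0, 0, 0, 0] 100000 50000 50000 1125001 8333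
    75000 33333 100000 50000 0 25000) (.L 7 8 [4, 5, 5, 4, 5, 5] [48, 36, 0, 0, 0, 0] [60, 48, 36,
    0, 0, 0] 100000 27500 27500 1218750 0 37500 6250 100000 68750 0 25000)) (.L 7 8 [4, 5, 5, 4, 5,
    5] [48, 36, 0, 0, 0, 0] [80, 70, 60, 48, 36, 0] 100000 25000 0 1100000 0 0 25000 125000 50000 0
    25000)) (.E 2))) (.L 7 8 [4, 5, 5, 4, 5, 5] [72, 60, 48, 36, 0, 0] [80, 70, 60, 48, 36, 0]
    100000 25000 25000 1250000 25000 0 100000 25000 0 50000 25000)) (.E 2))) (.L 7 8 [4, 5, 5, 4,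
    5, 5] [72, 60, 48, 36, 0, 0] [97, 94, 84, 74, 62, 50] 100000 141177 1 1 0 0 211765 241176 0 0
    0))) (.E 1)) (.E 1)) (.L 7 8 [4, 5, 5, 4, 5, 5] [72, 60, 48, 36, 0, 0] [] 100000 15000 15000
    1316667 25000 0 58333 41667 41667 41667 25000)) (.L 7 8 [4, 5, 5, 4, 5, 5] [72, 60, 48, 36, 0,
    0] [] 100000 15000 15000 1300000 25000 0 50000 50000 50000 50000 25000)

lemma s22_22_6_5_88 : BlkD.treeX d22_22_6_5 (BlkD.exF 6 5 x22_22_6_5) t22_22_6_5_88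
    (BlkD.upd (BlkD.upd (BlkD.upd (BlkD.upd (fun _ => 0) 0 4) 0 5) 1 3) 2 3)
    (BlkD.upd (BlkD.upd (BlkD.upd (BlkD.upd (BlkD.upd (BlkD.upd (BlkD.upd (fun _ => 22) 0 6) 2 5) 0 5) 1 17) 1 8) 1 4) 1 3) = true := by
  decide +kernel

lemma n22_22_6_5_88 {n : ℕ} (hn : 5 ≤ n) : BlkD.NdX d22_22_6_5 (BlkD.exF 6 5 x22_22_6_5) n
    (BlkD.upd (BlkD.upd (BlkD.upd (BlkD.upd (fun _ => 0) 0 4) 0 5) 1 3) 2 3)
    (BlkD.upd (BlkD.upd (BlkD.upd (BlkD.upd (BlkD.upd (BlkD.upd (BlkD.upd (fun _ => 22) 0 6) 2 5) 0 5) 1 17) 1 8) 1 4) 1 3) :=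
  BlkD.NdX.tree s22_22_6_5_88 ok22_22_6_5 (by decide) hn

/-- a subtree -/
def t22_22_6_5_89 : BlkD.Tr :=
  .S 2 2 (.S 2 1 (.L 7 8 [4, 5, 5, 4, 5, 5] [98, 88, 76, 64, 52, 0] [] 100000 50000 50000 1100000 0
    50000 75000 75000 0 0 25000) (.S 3 11 (.S 3 5 (.S 3 2 (.L 7 8 [4, 5, 5, 4, 5, 5] [98, 88, 76,
    64, 52, 0] [] 100000 40000 39999 1100000 0 0 100000 0 0 0 13333) (.S 3 4 (.S 3 3 (.L 7 8 [4, 5,
    5, 4, 5, 5] [98, 88, 76, 64, 52, 0] [52, 42, 30, 18, 0, 0] 100000 34091 34091 1190910 0 9091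
    100000 48864 0 14773 18182) (.S 4 4 (.S 4 2 (.E 2) (.S 4 3 (.S 5 4 (.S 5 2 (.S 5 1 (.L 7 8 [4,
    5, 5, 4, 5, 5] [88, 76, 64, 52, 0, 0] [40, 28, 0, 0, 0, 0] 100000 50000 50000 1100000 0 62500
    75000 62500 0 50000 25000) (.L 7 8 [4, 5, 5, 4, 5, 5] [88, 76, 64, 52, 0, 0] [52, 40, 28, 0, 0,
    0] 100000 50000 50000 1100000 0 25000 75000 100000 0 0 25000)) (.L 7 8 [4, 5, 5, 4, 5, 5] [88,
    76, 64, 52, 0, 0] [72, 62, 52, 40, 28, 0] 100000 50000 0 900000 0 0 75000 150000 0 0 25000))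
    (.E 2)) (.L 7 8 [4, 5, 5, 4, 5, 5] [98, 88, 76, 64, 52, 0] [72, 62, 52, 40, 28, 0] 100000 30000
    30000 1200000 0 0 100000 50000 0 25000 25000))) (.E 2))) (.L 7 8 [4, 5, 5, 4, 5, 5] [98, 88,
    76, 64, 52, 0] [87, 84, 74, 64, 52, 40] 100000 100000 0 500000 0 0 150000 200000 0 0 0))) (.E
    2)) (.E 1))) (.S 2 4 (.S 2 3 (.S 3 10 (.S 3 5 (.S 3 2 (.L 7 8 [4, 5, 5, 4, 5, 5] [98, 88, 76,
    64, 52, 0] [] 100000 34667 34667 1186667 0 13333 100000 46667 0 13333 26667) (.L 7 8 [4, 5, 5,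
    4, 5, 5] [98, 88, 76, 64, 52, 0] [] 100000 20000 20000 1275000 0 0 100000 25000 25000 50000
    25000)) (.E 1)) (.E 1)) (.L 7 8 [4, 5, 5, 4, 5, 5] [98, 88, 76, 64, 52, 0] [] 100000 20000
    20000 1275000 0 0 100000 25000 25000 50000 25000)) (.L 7 8 [4, 5, 5, 4, 5, 5] [98, 88, 76, 64,
    52, 0] [] 100000 20000 20000 1200000 0 0 100000 0 20000 60000 20000))

lemma s22_22_6_5_89 : BlkD.treeX d22_22_6_5 (BlkD.exF 6 5 x22_22_6_5) t22_22_6_5_89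
    (BlkD.upd (BlkD.upd (BlkD.upd (BlkD.upd (fun _ => 0) 0 4) 0 5) 1 3) 1 4)
    (BlkD.upd (BlkD.upd (BlkD.upd (BlkD.upd (BlkD.upd (BlkD.upd (fun _ => 22) 0 6) 2 5) 0 5) 1 17) 1 8) 1 4) = true := by
  decide +kernel

lemma n22_22_6_5_89 {n : ℕ} (hn : 5 ≤ n) : BlkD.NdX d22_22_6_5 (BlkD.exF 6 5 x22_22_6_5) n
    (BlkD.upd (BlkD.upd (BlkD.upd (BlkD.upd (fun _ => 0) 0 4) 0 5) 1 3) 1 4)
    (BlkD.upd (BlkD.upd (BlkD.upd (BlkD.upd (BlkD.upd (BlkD.upd (fun _ => 22) 0 6) 2 5) 0 5) 1 17) 1 8) 1 4) :=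
  BlkD.NdX.tree s22_22_6_5_89 ok22_22_6_5 (by decide) hn

/-- a subtree -/
def t22_22_6_5_90 : BlkD.Tr :=
  .E 0

lemma s22_22_6_5_90 : BlkD.treeX d22_22_6_5 (BlkD.exF 6 5 x22_22_6_5) t22_22_6_5_90
    (BlkD.upd (BlkD.upd (BlkD.upd (fun _ => 0) 0 4) 0 5) 1 5)
    (BlkD.upd (BlkD.upd (BlkD.upd (BlkD.upd (BlkD.upd (fun _ => 22) 0 6) 2 5) 0 5) 1 17) 1 8) = true := by
  decide +kernel

lemma n22_22_6_5_90 {n : ℕ} (hn : 5 ≤ n) : BlkD.NdX d22_22_6_5 (BlkD.exF 6 5 x22_22_6_5) n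
    (BlkD.upd (BlkD.upd (BlkD.upd (fun _ => 0) 0 4) 0 5) 1 5)
    (BlkD.upd (BlkD.upd (BlkD.upd (BlkD.upd (BlkD.upd (fun _ => 22) 0 6) 2 5) 0 5) 1 17) 1 8) :=
  BlkD.NdX.tree s22_22_6_5_90 ok22_22_6_5 (by decide) hn

/-- a subtree -/
def t22_22_6_5_91 : BlkD.Tr :=
  .E 0

lemma s22_22_6_5_91 : BlkD.treeX d22_22_6_5 (BlkD.exF 6 5 x22_22_6_5) t22_22_6_5_91
    (BlkD.upd (BlkD.upd (BlkD.upd (fun _ => 0) 0 4) 0 5) 1 9)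
    (BlkD.upd (BlkD.upd (BlkD.upd (BlkD.upd (fun _ => 22) 0 6) 2 5) 0 5) 1 17) = true := by
  decide +kernel

lemma n22_22_6_5_91 {n : ℕ} (hn : 5 ≤ n) : BlkD.NdX d22_22_6_5 (BlkD.exF 6 5 x22_22_6_5) n
    (BlkD.upd (BlkD.upd (BlkD.upd (fun _ => 0) 0 4) 0 5) 1 9)
    (BlkD.upd (BlkD.upd (BlkD.upd (BlkD.upd (fun _ => 22) 0 6) 2 5) 0 5) 1 17) :=
  BlkD.NdX.tree s22_22_6_5_91 ok22_22_6_5 (by decide) hn

/-- a subtree -/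
def t22_22_6_5_92 : BlkD.Tr :=
  .E 0

lemma s22_22_6_5_92 : BlkD.treeX d22_22_6_5 (BlkD.exF 6 5 x22_22_6_5) t22_22_6_5_92
    (BlkD.upd (BlkD.upd (BlkD.upd (fun _ => 0) 0 4) 0 5) 1 18)
    (BlkD.upd (BlkD.upd (BlkD.upd (fun _ => 22) 0 6) 2 5) 0 5) = true := by
  decide +kernel

lemma n22_22_6_5_92 {n : ℕ} (hn : 5 ≤ n) : BlkD.NdX d22_22_6_5 (BlkD.exF 6 5 x22_22_6_5) n
    (BlkD.upd (BlkD.upd (BlkD.upd (fun _ => 0) 0 4) 0 5) 1 18)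
    (BlkD.upd (BlkD.upd (BlkD.upd (fun _ => 22) 0 6) 2 5) 0 5) :=
  BlkD.NdX.tree s22_22_6_5_92 ok22_22_6_5 (by decide) hn

/-- a subtree -/
def t22_22_6_5_93 : BlkD.Tr :=
  .S 1 16 (.S 1 8 (.S 1 4 (.S 1 2 (.S 1 1 (.L 7 8 [4, 5, 5, 4, 5, 5] [] [] 100000 14462 14462
    1315384 12308 3077 12308 72308 50000 27692 27692) (.S 2 2 (.S 2 1 (.L 7 8 [4, 5, 5, 4, 5, 5]
    [50, 38, 26, 0, 0, 0] [] 100000 52000 52000 1000000 0 100000 0 100000 60000 0 20000) (.S 3 12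
    (.S 3 6 (.S 3 3 (.L 7 8 [4, 5, 5, 4, 5, 5] [50, 38, 26, 0, 0, 0] [] 100000 20000 20000 1240000
    0 20000 50000 50000 60000 10000 20000) (.L 7 8 [4, 5, 5, 4, 5, 5] [50, 38, 26, 0, 0, 0] []
    100000 15000 15000 1320834 0 6250 66667 33333 25000 50000 25000)) (.E 1)) (.E 1))) (.S 2 4 (.S
    2 3 (.S 3 11 (.S 3 5 (.S 3 2 (.L 7 8 [4, 5, 5, 4, 5, 5] [50, 38, 26, 0, 0, 0] [] 100000 17242
    17242 1265518 0 17241 50000 63793 62069 15517 20690) (.L 7 8 [4, 5, 5, 4, 5, 5] [50, 38, 26, 0,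
    0, 0] [] 100000 16667 16667 1300001 0 0 83333 33333 33333 41667 25000)) (.E 1)) (.E 1)) (.L 7 8
    [4, 5, 5, 4, 5, 5] [50, 38, 26, 0, 0, 0] [] 100000 15000 15000 1287500 0 0 62500 50000 50000
    25000 25000)) (.L 7 8 [4, 5, 5, 4, 5, 5] [50, 38, 26, 0, 0, 0] [] 100000 30000 30000 1200000 0
    0 100000 50000 0 25000 25000)))) (.E 0)) (.E 0)) (.E 0)) (.E 0)

lemma s22_22_6_5_93 : BlkD.treeX d22_22_6_5 (BlkD.exF 6 5 x22_22_6_5) t22_22_6_5_93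
    (BlkD.upd (BlkD.upd (fun _ => 0) 0 4) 0 6)
    (BlkD.upd (BlkD.upd (fun _ => 22) 0 6) 2 5) = true := by
  decide +kernel

lemma n22_22_6_5_93 {n : ℕ} (hn : 5 ≤ n) : BlkD.NdX d22_22_6_5 (BlkD.exF 6 5 x22_22_6_5) n
    (BlkD.upd (BlkD.upd (fun _ => 0) 0 4) 0 6)
    (BlkD.upd (BlkD.upd (fun _ => 22) 0 6) 2 5) :=
  BlkD.NdX.tree s22_22_6_5_93 ok22_22_6_5 (by decide) hn

/-- a subtree -/
def t22_22_6_5_94 : BlkD.Tr :=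
  .E 1

lemma s22_22_6_5_94 : BlkD.treeX d22_22_6_5 (BlkD.exF 6 5 x22_22_6_5) t22_22_6_5_94
    (BlkD.upd (fun _ => 0) 2 6)
    (BlkD.upd (fun _ => 22) 0 6) = true := by
  decide +kernel

lemma n22_22_6_5_94 {n : ℕ} (hn : 5 ≤ n) : BlkD.NdX d22_22_6_5 (BlkD.exF 6 5 x22_22_6_5) n
    (BlkD.upd (fun _ => 0) 2 6)
    (BlkD.upd (fun _ => 22) 0 6) :=
  BlkD.NdX.tree s22_22_6_5_94 ok22_22_6_5 (by decide) hn

/-- a subtree -/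
def t22_22_6_5_95 : BlkD.Tr :=
  .E 0

lemma s22_22_6_5_95 : BlkD.treeX d22_22_6_5 (BlkD.exF 6 5 x22_22_6_5) t22_22_6_5_95
    (BlkD.upd (fun _ => 0) 0 7)
    (fun _ => 22) = true := by
  decide +kernel

lemma n22_22_6_5_95 {n : ℕ} (hn : 5 ≤ n) : BlkD.NdX d22_22_6_5 (BlkD.exF 6 5 x22_22_6_5) n
    (BlkD.upd (fun _ => 0) 0 7)
    (fun _ => 22) :=
  BlkD.NdX.tree s22_22_6_5_95 ok22_22_6_5 (by decide) hn

end BlkC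

end Pool.Agent.Lib.MP_f04ccf_co
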