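import Pool.Agent.Lib.MP_f04ccf_co.M.BlkX22_22_6_5d
import Pool.Agent.Lib.MP_f04ccf_co.M.BlkX22_22_6_5p1
import Pool.Agent.Lib.MP_f04ccf_co.M.BlkX22_22_6_5p2
import Pool.Agent.Lib.MP_f04ccf_co.M.BlkX22_22_6_5p3
import Pool.Agent.Lib.MP_f04ccf_co.M.BlkX22_22_6_5p4
import Pool.Agent.Lib.MP_f04ccf_co.M.BlkX22_22_6_5p5
import Pool.Agent.Lib.MP_f04ccf_co.M.BlkX22_22_6_5e1

/-!
MP_f04ccf_co, block certificate with exceptions, `R = 22`, `H = 22`, the pair `(6, 5)` (data of helper99 / helper13,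
generated by helper8, genx.py): the parts together.
-/

set_option autoImplicit false
set_option maxRecDepth 100000

namespace Pool.Agent.Lib.MP_f04ccf_co

namespace BlkC

lemma x22_22_6_5_5 : NoNd ((22 : ℕ) : ℤ) ((22 : ℕ) : ℤ) 5 6 5 fun x y z w _ _ =>
    BlkD.exF 6 5 x22_22_6_5 x y z w := by
  refine NoNd.of_E (by norm_num) (by norm_num) fun e he => ?_
  simp only [x22_22_6_5, List.mem_cons, List.not_mem_nil, or_false] at he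
  rcases he with rfl | rfl | rfl | rfl | rfl | rfl | rfl
  · exact e22_22_6_5_5_0
  · exact e22_22_6_5_5_1
  · exact e22_22_6_5_5_2
  · exact e22_22_6_5_5_3
  · exact e22_22_6_5_5_4
  · exact e22_22_6_5_5_5
  · exact e22_22_6_5_5_6

lemma x22_22_6_5_6 : NoNd ((22 : ℕ) : ℤ) ((22 : ℕ) : ℤ) 6 6 5 fun x y z w _ _ =>
    BlkD.exF 6 5 x22_22_6_5 x y z w := by
  refine NoNd.of_E (by norm_num) (by norm_num) fun e he => ?_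
  simp only [x22_22_6_5, List.mem_cons, List.not_mem_nil, or_false] at he
  rcases he with rfl | rfl | rfl | rfl | rfl | rfl | rfl
  · exact e22_22_6_5_6_0
  · exact e22_22_6_5_6_1
  · exact e22_22_6_5_6_2
  · exact e22_22_6_5_6_3
  · exact e22_22_6_5_6_4
  · exact e22_22_6_5_6_5
  · exact e22_22_6_5_6_6

lemma x22_22_6_5_7 : NoNd ((22 : ℕ) : ℤ) ((22 : ℕ) : ℤ) 7 6 5 fun x y z w _ _ =>
    BlkD.exF 6 5 x22_22_6_5 x y z w := by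
  refine NoNd.of_E (by norm_num) (by norm_num) fun e he => ?_
  simp only [x22_22_6_5, List.mem_cons, List.not_mem_nil, or_false] at he
  rcases he with rfl | rfl | rfl | rfl | rfl | rfl | rfl
  · exact e22_22_6_5_7_0
  · exact e22_22_6_5_7_1
  · exact e22_22_6_5_7_2
  · exact e22_22_6_5_7_3
  · exact e22_22_6_5_7_4
  · exact e22_22_6_5_7_5
  · exact e22_22_6_5_7_6

lemma x22_22_6_5_8 : NoNd ((22 : ℕ) : ℤ) ((22 : ℕ) : ℤ) 8 6 5 fun x y z w _ _ =>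
    BlkD.exF 6 5 x22_22_6_5 x y z w := by
  refine NoNd.of_E (by norm_num) (by norm_num) fun e he => ?_
  simp only [x22_22_6_5, List.mem_cons, List.not_mem_nil, or_false] at he
  rcases he with rfl | rfl | rfl | rfl | rfl | rfl | rfl
  · exact e22_22_6_5_8_0
  · exact e22_22_6_5_8_1
  · exact e22_22_6_5_8_2
  · exact e22_22_6_5_8_3
  · exact e22_22_6_5_8_4
  · exact e22_22_6_5_8_5
  · exact e22_22_6_5_8_6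

lemma x22_22_6_5_9 : NoNd ((22 : ℕ) : ℤ) ((22 : ℕ) : ℤ) 9 6 5 fun x y z w _ _ =>
    BlkD.exF 6 5 x22_22_6_5 x y z w := by
  refine NoNd.of_E (by norm_num) (by norm_num) fun e he => ?_
  simp only [x22_22_6_5, List.mem_cons, List.not_mem_nil, or_false] at he
  rcases he with rfl | rfl | rfl | rfl | rfl | rfl | rfl
  · exact e22_22_6_5_9_0
  · exact e22_22_6_5_9_1
  · exact e22_22_6_5_9_2
  · exact e22_22_6_5_9_3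
  · exact e22_22_6_5_9_4
  · exact e22_22_6_5_9_5
  · exact e22_22_6_5_9_6

lemma x22_22_6_5_10 : NoNd ((22 : ℕ) : ℤ) ((22 : ℕ) : ℤ) 10 6 5 fun x y z w _ _ =>
    BlkD.exF 6 5 x22_22_6_5 x y z w := by
  refine NoNd.of_E (by norm_num) (by norm_num) fun e he => ?_
  simp only [x22_22_6_5, List.mem_cons, List.not_mem_nil, or_false] at he
  rcases he with rfl | rfl | rfl | rfl | rfl | rfl | rfl
  · exact e22_22_6_5_10_0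
  · exact e22_22_6_5_10_1
  · exact e22_22_6_5_10_2
  · exact e22_22_6_5_10_3
  · exact e22_22_6_5_10_4
  · exact e22_22_6_5_10_5
  · exact e22_22_6_5_10_6

lemma r22_22_6_5 {n : ℕ} (hn : 5 ≤ n) : BlkD.NdX d22_22_6_5 (BlkD.exF 6 5 x22_22_6_5) n (fun _ => 0) (fun _ => 22) :=
  (BlkD.NdX.sp 0 6
  (BlkD.NdX.sp 2 5
  (BlkD.NdX.sp 0 3
  (BlkD.NdX.sp 0 1
  (BlkD.NdX.sp 0 0
  (n22_22_6_5_0 hn)
  (BlkD.NdX.sp 1 11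
  (n22_22_6_5_1 hn)
  (n22_22_6_5_2 hn)))
  (BlkD.NdX.sp 0 2
  (BlkD.NdX.sp 1 20
  (BlkD.NdX.sp 1 10
  (BlkD.NdX.sp 1 5
  (BlkD.NdX.sp 1 2
  (n22_22_6_5_3 hn)
  (BlkD.NdX.sp 1 4
  (BlkD.NdX.sp 1 3
  (n22_22_6_5_4 hn)
  (BlkD.NdX.sp 2 2
  (n22_22_6_5_5 hn)
  (n22_22_6_5_6 hn)))
  (BlkD.NdX.sp 2 2
  (BlkD.NdX.sp 2 1
  (n22_22_6_5_7 hn)
  (n22_22_6_5_8 hn))
  (n22_22_6_5_9 hn))))
  (BlkD.NdX.sp 1 8
  (BlkD.NdX.sp 1 7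
  (BlkD.NdX.sp 1 6
  (BlkD.NdX.sp 2 2
  (BlkD.NdX.sp 2 1
  (n22_22_6_5_10 hn)
  (BlkD.NdX.sp 3 12
  (BlkD.NdX.sp 3 6
  (BlkD.NdX.sp 3 3
  (n22_22_6_5_11 hn)
  (BlkD.NdX.sp 3 5
  (n22_22_6_5_12 hn)
  (n22_22_6_5_13 hn)))
  (n22_22_6_5_14 hn))
  (n22_22_6_5_15 hn)))
  (BlkD.NdX.sp 2 4
  (BlkD.NdX.sp 2 3
  (n22_22_6_5_16 hn)
  (n22_22_6_5_17 hn))
  (n22_22_6_5_18 hn)))
  (BlkD.NdX.sp 2 2
  (BlkD.NdX.sp 2 1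
  (n22_22_6_5_19 hn)
  (n22_22_6_5_20 hn))
  (n22_22_6_5_21 hn)))
  (BlkD.NdX.sp 2 2
  (n22_22_6_5_22 hn)
  (n22_22_6_5_23 hn)))
  (n22_22_6_5_24 hn)))
  (n22_22_6_5_25 hn))
  (n22_22_6_5_26 hn))
  (BlkD.NdX.sp 1 19
  (BlkD.NdX.sp 1 9
  (BlkD.NdX.sp 1 4
  (BlkD.NdX.sp 1 2
  (n22_22_6_5_27 hn)
  (BlkD.NdX.sp 1 3
  (BlkD.NdX.sp 2 2
  (n22_22_6_5_28 hn)
  (n22_22_6_5_29 hn))
  (BlkD.NdX.sp 2 2
  (BlkD.NdX.sp 2 1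
  (n22_22_6_5_30 hn)
  (BlkD.NdX.sp 3 13
  (BlkD.NdX.sp 3 6
  (BlkD.NdX.sp 3 3
  (n22_22_6_5_31 hn)
  (n22_22_6_5_32 hn))
  (n22_22_6_5_33 hn))
  (n22_22_6_5_34 hn)))
  (BlkD.NdX.sp 2 4
  (BlkD.NdX.sp 2 3
  (n22_22_6_5_35 hn)
  (n22_22_6_5_36 hn))
  (n22_22_6_5_37 hn)))))
  (BlkD.NdX.sp 1 7
  (BlkD.NdX.sp 1 6
  (BlkD.NdX.sp 1 5
  (BlkD.NdX.sp 2 2
  (BlkD.NdX.sp 2 1
  (n22_22_6_5_38 hn)
  (BlkD.NdX.sp 3 12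
  (BlkD.NdX.sp 3 6
  (BlkD.NdX.sp 3 3
  (n22_22_6_5_39 hn)
  (n22_22_6_5_40 hn))
  (n22_22_6_5_41 hn))
  (n22_22_6_5_42 hn)))
  (BlkD.NdX.sp 2 4
  (BlkD.NdX.sp 2 3
  (BlkD.NdX.sp 3 11
  (BlkD.NdX.sp 3 5
  (BlkD.NdX.sp 3 2
  (n22_22_6_5_43 hn)
  (n22_22_6_5_44 hn))
  (n22_22_6_5_45 hn))
  (n22_22_6_5_46 hn))
  (n22_22_6_5_47 hn))
  (n22_22_6_5_48 hn)))
  (BlkD.NdX.sp 2 2
  (BlkD.NdX.sp 2 1
  (n22_22_6_5_49 hn)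
  (BlkD.NdX.sp 3 11
  (BlkD.NdX.sp 3 5
  (BlkD.NdX.sp 3 2
  (n22_22_6_5_50 hn)
  (BlkD.NdX.sp 3 4
  (n22_22_6_5_51 hn)
  (n22_22_6_5_52 hn)))
  (n22_22_6_5_53 hn))
  (n22_22_6_5_54 hn)))
  (BlkD.NdX.sp 2 4
  (BlkD.NdX.sp 2 3
  (BlkD.NdX.sp 3 10
  (BlkD.NdX.sp 3 5
  (BlkD.NdX.sp 3 2
  (n22_22_6_5_55 hn)
  (n22_22_6_5_56 hn))
  (n22_22_6_5_57 hn))
  (n22_22_6_5_58 hn))
  (n22_22_6_5_59 hn))
  (n22_22_6_5_60 hn))))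
  (n22_22_6_5_61 hn))
  (n22_22_6_5_62 hn)))
  (n22_22_6_5_63 hn))
  (n22_22_6_5_64 hn))))
  (BlkD.NdX.sp 0 5
  (BlkD.NdX.sp 0 4
  (BlkD.NdX.sp 1 18
  (BlkD.NdX.sp 1 9
  (BlkD.NdX.sp 1 4
  (BlkD.NdX.sp 1 2
  (n22_22_6_5_65 hn)
  (BlkD.NdX.sp 1 3
  (BlkD.NdX.sp 2 2
  (n22_22_6_5_66 hn)
  (n22_22_6_5_67 hn))
  (BlkD.NdX.sp 2 2
  (BlkD.NdX.sp 2 1
  (n22_22_6_5_68 hn)
  (BlkD.NdX.sp 3 12
  (BlkD.NdX.sp 3 6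
  (BlkD.NdX.sp 3 3
  (n22_22_6_5_69 hn)
  (n22_22_6_5_70 hn))
  (n22_22_6_5_71 hn))
  (n22_22_6_5_72 hn)))
  (BlkD.NdX.sp 2 4
  (BlkD.NdX.sp 2 3
  (BlkD.NdX.sp 3 11
  (BlkD.NdX.sp 3 5
  (BlkD.NdX.sp 3 2
  (n22_22_6_5_73 hn)
  (n22_22_6_5_74 hn))
  (n22_22_6_5_75 hn))
  (n22_22_6_5_76 hn))
  (n22_22_6_5_77 hn))
  (n22_22_6_5_78 hn)))))
  (BlkD.NdX.sp 1 7
  (BlkD.NdX.sp 1 6
  (BlkD.NdX.sp 1 5
  (BlkD.NdX.sp 2 2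
  (n22_22_6_5_79 hn)
  (n22_22_6_5_80 hn))
  (n22_22_6_5_81 hn))
  (n22_22_6_5_82 hn))
  (n22_22_6_5_83 hn)))
  (n22_22_6_5_84 hn))
  (n22_22_6_5_85 hn))
  (BlkD.NdX.sp 1 17
  (BlkD.NdX.sp 1 8
  (BlkD.NdX.sp 1 4
  (BlkD.NdX.sp 1 2
  (n22_22_6_5_86 hn)
  (BlkD.NdX.sp 1 3
  (BlkD.NdX.sp 2 2
  (n22_22_6_5_87 hn)
  (n22_22_6_5_88 hn))
  (n22_22_6_5_89 hn)))
  (n22_22_6_5_90 hn))
  (n22_22_6_5_91 hn))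
  (n22_22_6_5_92 hn)))
  (n22_22_6_5_93 hn)))
  (n22_22_6_5_94 hn))
  (n22_22_6_5_95 hn))

/-- **`R = 22`, `H = 22`, the pair `(6, 5)`** -/
theorem pr22_22_6_5 {n : ℕ} (hn : 5 ≤ n) : NoPr ((22 : ℕ) : ℤ) ((22 : ℕ) : ℤ) n 6 5 := by
  by_cases h : n < 11
  · interval_cases n
    · exact BlkD.NdX.pr (r22_22_6_5 (by norm_num)) (by decide) (by decide) x22_22_6_5_5 rfl rfl rfl rfl
    · exact BlkD.NdX.pr (r22_22_6_5 (by norm_num)) (by decide) (by decide) x22_22_6_5_6 rfl rfl rfl rfl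
    · exact BlkD.NdX.pr (r22_22_6_5 (by norm_num)) (by decide) (by decide) x22_22_6_5_7 rfl rfl rfl rfl
    · exact BlkD.NdX.pr (r22_22_6_5 (by norm_num)) (by decide) (by decide) x22_22_6_5_8 rfl rfl rfl rfl
    · exact BlkD.NdX.pr (r22_22_6_5 (by norm_num)) (by decide) (by decide) x22_22_6_5_9 rfl rfl rfl rfl
    · exact BlkD.NdX.pr (r22_22_6_5 (by norm_num)) (by decide) (by decide) x22_22_6_5_10 rfl rfl rfl rfl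
  · exact NoPr.big (by omega) (by omega)

end BlkC

end Pool.Agent.Lib.MP_f04ccf_co
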