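import Pool.Agent.Lib.MP_f04ccf_co.M.BlkX22_22_6_6d

/-!
MP_f04ccf_co, block certificate with exceptions, `R = 22`, `H = 22`, the pair `(6, 6)` (data of helper99 / helper13,
generated by helper8, genx.py): part 1 of 3.
-/

set_option autoImplicit false
set_option maxRecDepth 100000

namespace Pool.Agent.Lib.MP_f04ccf_co

namespace BlkC

/-- a subtree -/
def t22_22_6_6_0 : BlkD.Tr :=
  .L 7 8 [4, 4, 5, 5, 5, 22, 22] [] [] 100000 57143 57143 1242857 71429 0 85714 57143 0 0 19048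

lemma s22_22_6_6_0 : BlkD.treeX d22_22_6_6 (BlkD.exF 6 6 x22_22_6_6) t22_22_6_6_0
    (fun _ => 0)
    (BlkD.upd (BlkD.upd (BlkD.upd (BlkD.upd (BlkD.upd (fun _ => 22) 0 6) 2 6) 0 3) 0 1) 0 0) = true := by
  decide +kernel

lemma n22_22_6_6_0 {n : ℕ} (hn : 5 ≤ n) : BlkD.NdX d22_22_6_6 (BlkD.exF 6 6 x22_22_6_6) n
    (fun _ => 0)
    (BlkD.upd (BlkD.upd (BlkD.upd (BlkD.upd (BlkD.upd (fun _ => 22) 0 6) 2 6) 0 3) 0 1) 0 0) :=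
  BlkD.NdX.tree s22_22_6_6_0 ok22_22_6_6 (by decide) hn

/-- a subtree -/
def t22_22_6_6_1 : BlkD.Tr :=
  .S 1 2 (.L 7 8 [4, 4, 5, 5, 5, 22, 22] [] [] 100000 57143 57143 1242857 71429 0 85714 57143 0 0
    19048) (.S 1 4 (.L 7 8 [4, 4, 5, 5, 5, 22, 22] [] [] 100000 57143 57143 1242857 71429 0 85714
    57143 0 0 19048) (.L 7 8 [4, 4, 5, 5, 5, 22, 22] [84, 80, 68, 56, 44, 30] [] 100000 57143 57143
    1242857 71429 0 85714 57143 0 0 19048))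

lemma s22_22_6_6_1 : BlkD.treeX d22_22_6_6 (BlkD.exF 6 6 x22_22_6_6) t22_22_6_6_1
    (BlkD.upd (fun _ => 0) 0 1)
    (BlkD.upd (BlkD.upd (BlkD.upd (BlkD.upd (BlkD.upd (BlkD.upd (fun _ => 22) 0 6) 2 6) 0 3) 0 1) 1 11) 1 5) = true := by
  decide +kernel

lemma n22_22_6_6_1 {n : ℕ} (hn : 5 ≤ n) : BlkD.NdX d22_22_6_6 (BlkD.exF 6 6 x22_22_6_6) n
    (BlkD.upd (fun _ => 0) 0 1)
    (BlkD.upd (BlkD.upd (BlkD.upd (BlkD.upd (BlkD.upd (BlkD.upd (fun _ => 22) 0 6) 2 6) 0 3) 0 1) 1 11) 1 5) :=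
  BlkD.NdX.tree s22_22_6_6_1 ok22_22_6_6 (by decide) hn

/-- a subtree -/
def t22_22_6_6_2 : BlkD.Tr :=
  .S 1 8 (.S 1 7 (.L 7 8 [4, 4, 5, 5, 5, 22, 22] [] [] 100000 57143 57143 1242857 71429 0 85714
    57143 0 0 19048) (.L 7 8 [4, 4, 5, 5, 5, 22, 22] [130, 130, 130, 126, 122, 110] [] 100000 57143
    57143 1242857 71429 0 85714 57143 0 0 19048)) (.L 7 8 [4, 4, 5, 5, 5, 22, 22] [] [] 100000
    57143 57143 1242857 71429 0 85714 57143 0 0 19048)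

lemma s22_22_6_6_2 : BlkD.treeX d22_22_6_6 (BlkD.exF 6 6 x22_22_6_6) t22_22_6_6_2
    (BlkD.upd (BlkD.upd (fun _ => 0) 0 1) 1 6)
    (BlkD.upd (BlkD.upd (BlkD.upd (BlkD.upd (BlkD.upd (fun _ => 22) 0 6) 2 6) 0 3) 0 1) 1 11) = true := by
  decide +kernel

lemma n22_22_6_6_2 {n : ℕ} (hn : 5 ≤ n) : BlkD.NdX d22_22_6_6 (BlkD.exF 6 6 x22_22_6_6) n
    (BlkD.upd (BlkD.upd (fun _ => 0) 0 1) 1 6)
    (BlkD.upd (BlkD.upd (BlkD.upd (BlkD.upd (BlkD.upd (fun _ => 22) 0 6) 2 6) 0 3) 0 1) 1 11) :=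
  BlkD.NdX.tree s22_22_6_6_2 ok22_22_6_6 (by decide) hn

/-- a subtree -/
def t22_22_6_6_3 : BlkD.Tr :=
  .L 7 8 [4, 4, 5, 5, 5, 22, 22] [] [] 100000 57143 57143 1242857 71429 0 85714 57143 0 0 19048

lemma s22_22_6_6_3 : BlkD.treeX d22_22_6_6 (BlkD.exF 6 6 x22_22_6_6) t22_22_6_6_3
    (BlkD.upd (BlkD.upd (fun _ => 0) 0 1) 1 12)
    (BlkD.upd (BlkD.upd (BlkD.upd (BlkD.upd (fun _ => 22) 0 6) 2 6) 0 3) 0 1) = true := by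
  decide +kernel

lemma n22_22_6_6_3 {n : ℕ} (hn : 5 ≤ n) : BlkD.NdX d22_22_6_6 (BlkD.exF 6 6 x22_22_6_6) n
    (BlkD.upd (BlkD.upd (fun _ => 0) 0 1) 1 12)
    (BlkD.upd (BlkD.upd (BlkD.upd (BlkD.upd (fun _ => 22) 0 6) 2 6) 0 3) 0 1) :=
  BlkD.NdX.tree s22_22_6_6_3 ok22_22_6_6 (by decide) hn

/-- a subtree -/
def t22_22_6_6_4 : BlkD.Tr :=
  .L 7 8 [4, 4, 5, 5, 5, 22, 22] [] [] 100000 25000 24999 1300000 0 5263 0 84211 0 15789 22807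

lemma s22_22_6_6_4 : BlkD.treeX d22_22_6_6 (BlkD.exF 6 6 x22_22_6_6) t22_22_6_6_4
    (BlkD.upd (fun _ => 0) 0 2)
    (BlkD.upd (BlkD.upd (BlkD.upd (BlkD.upd (BlkD.upd (BlkD.upd (BlkD.upd (BlkD.upd (fun _ => 22) 0 6) 2 6) 0 3) 0 2) 1 20) 1 10) 1 5) 1 2) = true := by
  decide +kernel

lemma n22_22_6_6_4 {n : ℕ} (hn : 5 ≤ n) : BlkD.NdX d22_22_6_6 (BlkD.exF 6 6 x22_22_6_6) n
    (BlkD.upd (fun _ => 0) 0 2)
    (BlkD.upd (BlkD.upd (BlkD.upd (BlkD.upd (BlkD.upd (BlkD.upd (BlkD.upd (BlkD.upd (fun _ => 22) 0 6) 2 6) 0 3) 0 2) 1 20) 1 10) 1 5) 1 2) :=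
  BlkD.NdX.tree s22_22_6_6_4 ok22_22_6_6 (by decide) hn

/-- a subtree -/
def t22_22_6_6_5 : BlkD.Tr :=
  .S 1 3 (.L 7 8 [4, 4, 5, 5, 5, 22, 22] [56, 44, 32, 18, 0, 0] [] 100000 25000 24999 1391669 3333
    3333 6667 85000 0 15000 23333) (.S 2 3 (.S 2 1 (.L 7 8 [4, 4, 5, 5, 5, 22, 22] [78, 66, 54, 42,
    28, 0] [] 100000 45000 45000 1180000 20000 60000 40000 80000 0 0 20000) (.S 2 2 (.S 3 14 (.S 3
    7 (.S 3 3 (.L 7 8 [4, 4, 5, 5, 5, 22, 22] [78, 66, 54, 42, 28, 0] [] 100000 50000 50000 1100000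
    0 0 0 0 0 0 0) (.S 3 5 (.L 7 8 [4, 4, 5, 5, 5, 22, 22] [78, 66, 54, 42, 28, 0] [] 100000 25000
    24999 1300000 0 0 0 0 0 0 33333) (.S 3 6 (.L 7 8 [4, 4, 5, 5, 5, 22, 22] [78, 66, 54, 42, 28,
    0] [112, 108, 104, 92, 80, 68] 100000 28572 28572 1357142 7143 14286 14286 21429 0 0 28571) (.L
    9 9 [4, 5, 5, 4, 4, 22, 22] [78, 66, 54, 42, 28, 0] [128, 128, 124, 120, 108, 96] 100000 41912
    41912 1311764 25000 29412 54412 61765 0 2941 14706)))) (.L 9 9 [4, 5, 5, 4, 4, 22, 22] [78, 66,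
    54, 42, 28, 0] [] 100000 41667 41666 1300000 16667 16667 33333 100000 0 0 33333)) (.E 1)) (.S 3
    13 (.S 3 6 (.S 3 3 (.L 9 9 [4, 5, 5, 4, 4, 22, 22] [78, 66, 54, 42, 28, 0] [] 100000 35714
    35714 1200000 0 0 0 0 0 0 19048) (.S 3 5 (.L 9 9 [4, 5, 5, 4, 4, 22, 22] [78, 66, 54, 42, 28,
    0] [] 100000 25001 25001 1369048 14286 9524 23810 50000 0 7143 28571) (.S 4 4 (.S 4 2 (.S 4 1
    (.S 4 0 (.S 5 6 (.S 5 3 (.L 9 9 [4, 5, 5, 4, 4, 22, 22] [28, 0, 0, 0, 0, 0] [104, 92, 80, 66,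
    0, 0] 100000 25000 25000 1380000 20000 20000 0 60000 0 20000 20000) (.L 9 9 [4, 5, 5, 4, 4, 22,
    22] [28, 0, 0, 0, 0, 0] [124, 120, 116, 104, 92, 80] 100000 36364 36364 1322728 31818 9091 0
    63636 0 0 18182)) (.E 2)) (.L 9 9 [4, 5, 5, 4, 4, 22, 22] [42, 28, 0, 0, 0, 0] [124, 120, 116,
    104, 92, 80] 100000 25000 25000 1372800 8800 8800 92000 60000 0 17600 21600)) (.L 9 9 [4, 5, 5,
    4, 4, 22, 22] [54, 42, 28, 0, 0, 0] [124, 120, 116, 104, 92, 80] 100000 26780 23050 1281694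
    5424 5424 103729 64407 0 19661 21017)) (.L 9 9 [4, 5, 5, 4, 4, 22, 22] [78, 66, 54, 42, 28, 0]
    [124, 120, 116, 104, 92, 80] 100000 50001 1 1050000 0 0 150000 75000 0 0 8333)) (.E 2)))) (.S 3
    10 (.S 3 8 (.S 3 7 (.L 9 9 [4, 5, 5, 4, 4, 22, 22] [78, 66, 54, 42, 28, 0] [142, 142, 138, 134,
    122, 110] 100000 32143 32142 1357144 14286 14286 28571 85714 0 0 28571) (.E 1)) (.E 1)) (.E
    1))) (.E 1)))) (.S 2 5 (.S 2 4 (.S 3 12 (.S 3 6 (.S 3 3 (.L 9 9 [4, 5, 5, 4, 4, 22, 22] [78,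
    66, 54, 42, 28, 0] [] 100000 25000 24999 1300000 0 0 0 0 0 0 33333) (.S 3 5 (.S 3 4 (.L 9 9 [4,
    5, 5, 4, 4, 22, 22] [78, 66, 54, 42, 28, 0] [94, 82, 70, 58, 44, 0] 100000 25000 24999 1367949
    21795 5128 26923 57692 0 11538 25641) (.L 9 9 [4, 5, 5, 4, 4, 22, 22] [78, 66, 54, 42, 28, 0]
    [114, 110, 98, 86, 74, 60] 100000 25000 25000 1385716 28571 0 57143 57143 0 28571 28571)) (.L 9
    9 [4, 5, 5, 4, 4, 22, 22] [78, 66, 54, 42, 28, 0] [136, 132, 128, 116, 104, 92] 100000 33334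
    33334 1333334 16667 0 33333 100000 0 0 33333))) (.E 1)) (.E 1)) (.L 6 6 [4, 4, 5, 5, 6, 22, 22]
    [78, 66, 54, 42, 28, 0] [] 100000 25000 25000 1350000 25000 0 50000 50000 0 50000 50000)) (.L 6
    6 [4, 4, 5, 5, 6, 22, 22] [78, 66, 54, 42, 28, 0] [] 100000 50000 50000 1200000 50000 0 50000 0
    0 40000 20000)))

lemma s22_22_6_6_5 : BlkD.treeX d22_22_6_6 (BlkD.exF 6 6 x22_22_6_6) t22_22_6_6_5
    (BlkD.upd (BlkD.upd (fun _ => 0) 0 2) 1 3)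
    (BlkD.upd (BlkD.upd (BlkD.upd (BlkD.upd (BlkD.upd (BlkD.upd (BlkD.upd (BlkD.upd (fun _ => 22) 0 6) 2 6) 0 3) 0 2) 1 20) 1 10) 1 5) 1 4) = true := by
  decide +kernel

lemma n22_22_6_6_5 {n : ℕ} (hn : 5 ≤ n) : BlkD.NdX d22_22_6_6 (BlkD.exF 6 6 x22_22_6_6) n
    (BlkD.upd (BlkD.upd (fun _ => 0) 0 2) 1 3)
    (BlkD.upd (BlkD.upd (BlkD.upd (BlkD.upd (BlkD.upd (BlkD.upd (BlkD.upd (BlkD.upd (fun _ => 22) 0 6) 2 6) 0 3) 0 2) 1 20) 1 10) 1 5) 1 4) :=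
  BlkD.NdX.tree s22_22_6_6_5 ok22_22_6_6 (by decide) hn

/-- a subtree -/
def t22_22_6_6_6 : BlkD.Tr :=
  .S 2 1 (.L 6 6 [4, 4, 5, 5, 6, 22, 22] [94, 90, 78, 66, 54, 40] [] 100000 57955 57955 1163638
    27273 54545 63636 72727 0 0 4545) (.S 2 2 (.S 3 13 (.S 3 6 (.L 7 7 [4, 4, 5, 5, 5, 22, 22] [94,
    90, 78, 66, 54, 40] [] 100000 48225 48224 1301183 26036 33136 49704 54438 2367 0 20710) (.S 3
    10 (.S 3 8 (.S 3 7 (.S 4 5 (.S 4 2 (.S 4 1 (.L 7 7 [4, 4, 5, 5, 5, 22, 22] [54, 40, 0, 0, 0, 0]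
    [128, 128, 124, 120, 108, 96] 100000 31530 31529 1358208 23881 28358 40299 61194 16418 8955
    19030) (.L 7 7 [4, 4, 5, 5, 5, 22, 22] [66, 54, 40, 0, 0, 0] [128, 128, 124, 120, 108, 96]
    100000 45833 45833 1286562 26344 29032 73656 52688 0 538 17742)) (.L 7 7 [4, 4, 5, 5, 5, 22,
    22] [94, 90, 78, 66, 54, 40] [128, 128, 124, 120, 108, 96] 100000 32500 32500 1287500 0 17500
    100000 60000 0 5000 20000)) (.E 2)) (.L 7 7 [4, 4, 5, 5, 5, 22, 22] [94, 90, 78, 66, 54, 40]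
    [146, 146, 146, 142, 138, 126] 100000 50000 50000 1295835 25000 25000 70833 79167 4167 20833
    25000)) (.E 1)) (.E 1))) (.E 1)) (.S 3 12 (.S 3 6 (.S 3 3 (.L 7 7 [4, 4, 5, 5, 5, 22, 22] [94,
    90, 78, 66, 54, 40] [] 100000 25000 24999 1300000 0 0 0 0 0 0 33333) (.S 3 5 (.S 3 4 (.L 7 7
    [4, 4, 5, 5, 5, 22, 22] [94, 90, 78, 66, 54, 40] [86, 74, 62, 50, 36, 0] 100000 27802 27802
    1369829 12069 6034 15086 14224 0 862 29310) (.S 4 5 (.S 4 2 (.S 4 1 (.S 4 0 (.L 7 7 [4, 4, 5,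
    5, 5, 22, 22] [40, 0, 0, 0, 0, 0] [104, 100, 88, 76, 64, 50] 100000 19167 19167 1405002 25000
    6667 0 48333 35000 11667 20000) (.L 9 9 [4, 5, 5, 4, 4, 22, 22] [54, 40, 0, 0, 0, 0] [104, 100,
    88, 76, 64, 50] 100000 31674 31674 1372111 26295 7570 67729 60159 0 4382 21514)) (.L 9 9 [4, 5,
    5, 4, 4, 22, 22] [66, 54, 40, 0, 0, 0] [104, 100, 88, 76, 64, 50] 100000 28572 28572 1371428
    14286 14286 57143 42857 0 0 28571)) (.L 9 9 [4, 5, 5, 4, 4, 22, 22] [94, 90, 78, 66, 54, 40]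
    [104, 100, 88, 76, 64, 50] 100000 30838 30837 1285630 4790 4790 100000 73503 0 7485 23802)) (.E
    2))) (.S 4 5 (.S 4 2 (.S 4 1 (.S 4 0 (.L 9 9 [4, 5, 5, 4, 4, 22, 22] [40, 0, 0, 0, 0, 0] [124,
    120, 116, 104, 92, 80] 100000 10000 10000 1440000 40000 0 0 40000 40000 40000 20000) (.S 5 6
    (.S 5 3 (.L 9 9 [4, 5, 5, 4, 4, 22, 22] [54, 40, 0, 0, 0, 0] [104, 92, 80, 66, 0, 0] 100000
    25000 25000 1390834 41250 4583 96250 21250 0 61250 13750) (.L 9 9 [4, 5, 5, 4, 4, 22, 22] [54,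
    40, 0, 0, 0, 0] [124, 120, 116, 104, 92, 80] 100000 37500 37500 1300000 25000 0 50000 100000 0
    0 25000)) (.E 2))) (.L 9 9 [4, 5, 5, 4, 4, 22, 22] [66, 54, 40, 0, 0, 0] [124, 120, 116, 104,
    92, 80] 100000 25000 25000 1375424 9322 9322 88983 56144 0 13983 22246)) (.L 9 9 [4, 5, 5, 4,
    4, 22, 22] [94, 90, 78, 66, 54, 40] [124, 120, 116, 104, 92, 80] 100000 26339 11606 1250448
    1339 1339 114732 69196 0 20982 21429)) (.E 2)))) (.S 3 9 (.S 3 8 (.S 3 7 (.S 4 5 (.S 4 2 (.S 4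
    1 (.L 9 9 [4, 5, 5, 4, 4, 22, 22] [54, 40, 0, 0, 0, 0] [142, 142, 138, 134, 122, 110] 100000
    30000 30000 1355000 20000 20000 25000 100000 50000 0 25000) (.L 9 9 [4, 5, 5, 4, 4, 22, 22]
    [66, 54, 40, 0, 0, 0] [142, 142, 138, 134, 122, 110] 100000 35000 35000 1300000 0 0 100000
    100000 0 20000 20000)) (.L 9 9 [4, 5, 5, 4, 4, 22, 22] [94, 90, 78, 66, 54, 40] [142, 142, 138,
    134, 122, 110] 100000 50000 0 1050000 0 0 150000 100000 0 0 16667)) (.E 2)) (.E 1)) (.E 1)) (.E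
    1))) (.E 1)))

lemma s22_22_6_6_6 : BlkD.treeX d22_22_6_6 (BlkD.exF 6 6 x22_22_6_6) t22_22_6_6_6
    (BlkD.upd (BlkD.upd (BlkD.upd (fun _ => 0) 0 2) 1 3) 1 5)
    (BlkD.upd (BlkD.upd (BlkD.upd (BlkD.upd (BlkD.upd (BlkD.upd (BlkD.upd (BlkD.upd (fun _ => 22) 0 6) 2 6) 0 3) 0 2) 1 20) 1 10) 1 5) 2 3) = true := by
  decide +kernel

lemma n22_22_6_6_6 {n : ℕ} (hn : 5 ≤ n) : BlkD.NdX d22_22_6_6 (BlkD.exF 6 6 x22_22_6_6) n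
    (BlkD.upd (BlkD.upd (BlkD.upd (fun _ => 0) 0 2) 1 3) 1 5)
    (BlkD.upd (BlkD.upd (BlkD.upd (BlkD.upd (BlkD.upd (BlkD.upd (BlkD.upd (BlkD.upd (fun _ => 22) 0 6) 2 6) 0 3) 0 2) 1 20) 1 10) 1 5) 2 3) :=
  BlkD.NdX.tree s22_22_6_6_6 ok22_22_6_6 (by decide) hn

/-- a subtree -/
def t22_22_6_6_7 : BlkD.Tr :=
  .S 2 5 (.S 2 4 (.S 3 11 (.S 3 5 (.S 3 2 (.L 9 9 [4, 5, 5, 4, 4, 22, 22] [94, 90, 78, 66, 54, 40]
    [] 100000 25000 24999 1300000 0 0 0 0 0 0 33333) (.S 3 4 (.S 3 3 (.L 9 9 [4, 5, 5, 4, 4, 22,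
    22] [94, 90, 78, 66, 54, 40] [68, 56, 44, 30, 0, 0] 100000 29622 29622 1357985 21849 10084
    31933 30252 0 1681 26050) (.S 4 5 (.S 4 2 (.S 4 1 (.L 9 9 [4, 5, 5, 4, 4, 22, 22] [54, 40, 0,
    0, 0, 0] [94, 82, 70, 58, 44, 0] 100000 16626 16626 1426109 24631 0 44335 64039 19704 16749
    20197) (.L 9 9 [4, 5, 5, 4, 4, 22, 22] [66, 54, 40, 0, 0, 0] [94, 82, 70, 58, 44, 0] 100000
    25000 24999 1378637 15227 0 90909 56591 0 15909 22727)) (.L 9 9 [4, 5, 5, 4, 4, 22, 22] [94,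
    90, 78, 66, 54, 40] [94, 82, 70, 58, 44, 0] 100000 28390 28389 1286443 6780 6780 100000 57627 0
    14831 23305)) (.E 2))) (.S 4 5 (.S 4 2 (.S 4 1 (.L 9 9 [4, 5, 5, 4, 4, 22, 22] [54, 40, 0, 0,
    0, 0] [114, 110, 98, 86, 74, 60] 100000 1389 1388 1466666 16667 0 33333 66667 66667 66667
    27778) (.L 9 9 [4, 5, 5, 4, 4, 22, 22] [66, 54, 40, 0, 0, 0] [114, 110, 98, 86, 74, 60] 100000
    25000 25000 1355000 15000 0 100000 57500 0 42500 20000)) (.L 9 9 [4, 5, 5, 4, 4, 22, 22] [94,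
    90, 78, 66, 54, 40] [114, 110, 98, 86, 74, 60] 100000 26087 0 1217392 1087 1087 126087 64130 0
    26087 21739)) (.E 2)))) (.L 9 9 [4, 5, 5, 4, 4, 22, 22] [94, 90, 78, 66, 54, 40] [] 100000
    35000 35000 1300000 0 0 100000 100000 0 20000 20000)) (.E 1)) (.L 6 6 [4, 4, 5, 5, 6, 22, 22]
    [94, 90, 78, 66, 54, 40] [] 100000 22500 22500 1400000 20000 0 70000 50000 10000 33333 16667))
    (.L 6 6 [4, 4, 5, 5, 6, 22, 22] [94, 90, 78, 66, 54, 40] [] 100000 31666 31665 1300002 33333 0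
    66667 33333 6667 40000 20000)

lemma s22_22_6_6_7 : BlkD.treeX d22_22_6_6 (BlkD.exF 6 6 x22_22_6_6) t22_22_6_6_7
    (BlkD.upd (BlkD.upd (BlkD.upd (BlkD.upd (fun _ => 0) 0 2) 1 3) 1 5) 2 4)
    (BlkD.upd (BlkD.upd (BlkD.upd (BlkD.upd (BlkD.upd (BlkD.upd (BlkD.upd (fun _ => 22) 0 6) 2 6) 0 3) 0 2) 1 20) 1 10) 1 5) = true := by
  decide +kernel

lemma n22_22_6_6_7 {n : ℕ} (hn : 5 ≤ n) : BlkD.NdX d22_22_6_6 (BlkD.exF 6 6 x22_22_6_6) n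
    (BlkD.upd (BlkD.upd (BlkD.upd (BlkD.upd (fun _ => 0) 0 2) 1 3) 1 5) 2 4)
    (BlkD.upd (BlkD.upd (BlkD.upd (BlkD.upd (BlkD.upd (BlkD.upd (BlkD.upd (fun _ => 22) 0 6) 2 6) 0 3) 0 2) 1 20) 1 10) 1 5) :=
  BlkD.NdX.tree s22_22_6_6_7 ok22_22_6_6 (by decide) hn

/-- a subtree -/
def t22_22_6_6_8 : BlkD.Tr :=
  .L 6 6 [4, 4, 5, 5, 6, 22, 22] [112, 108, 104, 92, 80, 68] [] 100000 66667 66667 1133333 33333
    66667 66667 66667 0 0 0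

lemma s22_22_6_6_8 : BlkD.treeX d22_22_6_6 (BlkD.exF 6 6 x22_22_6_6) t22_22_6_6_8
    (BlkD.upd (BlkD.upd (fun _ => 0) 0 2) 1 6)
    (BlkD.upd (BlkD.upd (BlkD.upd (BlkD.upd (BlkD.upd (BlkD.upd (BlkD.upd (BlkD.upd (BlkD.upd (BlkD.upd (BlkD.upd (fun _ => 22) 0 6) 2 6) 0 3) 0 2) 1 20) 1 10) 1 8) 1 7) 1 6) 2 3) 2 1) = true := by
  decide +kernel

lemma n22_22_6_6_8 {n : ℕ} (hn : 5 ≤ n) : BlkD.NdX d22_22_6_6 (BlkD.exF 6 6 x22_22_6_6) n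
    (BlkD.upd (BlkD.upd (fun _ => 0) 0 2) 1 6)
    (BlkD.upd (BlkD.upd (BlkD.upd (BlkD.upd (BlkD.upd (BlkD.upd (BlkD.upd (BlkD.upd (BlkD.upd (BlkD.upd (BlkD.upd (fun _ => 22) 0 6) 2 6) 0 3) 0 2) 1 20) 1 10) 1 8) 1 7) 1 6) 2 3) 2 1) :=
  BlkD.NdX.tree s22_22_6_6_8 ok22_22_6_6 (by decide) hn

/-- a subtree -/
def t22_22_6_6_9 : BlkD.Tr :=
  .S 3 12 (.S 3 6 (.S 3 3 (.L 6 6 [4, 4, 5, 5, 6, 22, 22] [112, 108, 104, 92, 80, 68] [] 100000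
    25000 24999 1300000 0 0 0 0 0 0 33333) (.S 3 5 (.L 7 7 [4, 4, 5, 5, 5, 22, 22] [112, 108, 104,
    92, 80, 68] [] 100000 42068 42068 1322098 26062 26062 54391 53258 3399 2266 24646) (.S 4 6 (.S
    4 3 (.S 4 1 (.L 7 7 [4, 4, 5, 5, 5, 22, 22] [68, 54, 0, 0, 0, 0] [112, 108, 104, 92, 80, 68]
    100000 29547 29547 1372725 36364 27273 45455 45455 36364 9091 27273) (.L 6 6 [4, 4, 5, 5, 6,
    22, 22] [92, 80, 68, 54, 0, 0] [112, 108, 104, 92, 80, 68] 100000 55576 55576 1275117 33803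
    33803 61972 54460 0 1878 9155)) (.L 6 6 [4, 4, 5, 5, 6, 22, 22] [112, 108, 104, 92, 80, 68]
    [112, 108, 104, 92, 80, 68] 100000 29452 29452 1300686 0 10274 100000 68493 0 11644 19863)) (.E
    2)))) (.S 3 9 (.S 3 8 (.S 3 7 (.S 4 6 (.S 4 3 (.S 4 1 (.L 6 6 [4, 4, 5, 5, 6, 22, 22] [68, 54,
    0, 0, 0, 0] [128, 128, 124, 120, 108, 96] 100000 35000 35000 1340000 20000 40000 20000 80000
    60000 0 20000) (.S 4 2 (.S 5 7 (.S 5 3 (.L 6 6 [4, 4, 5, 5, 6, 22, 22] [80, 68, 54, 0, 0, 0]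
    [108, 96, 84, 70, 0, 0] 100000 50000 50000 1266668 33333 33333 66667 66667 0 0 16667) (.L 6 6
    [4, 4, 5, 5, 6, 22, 22] [80, 68, 54, 0, 0, 0] [128, 128, 124, 120, 108, 96] 100000 47693 47693
    1273077 32308 36154 20000 84615 40000 0 20000)) (.E 2)) (.L 6 6 [4, 4, 5, 5, 6, 22, 22] [92,
    80, 68, 54, 0, 0] [128, 128, 124, 120, 108, 96] 100000 40574 40574 1319674 0 32787 100000 49180
    0 3279 16393))) (.L 6 6 [4, 4, 5, 5, 6, 22, 22] [112, 108, 104, 92, 80, 68] [128, 128, 124,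
    120, 108, 96] 100000 39823 28319 1206197 0 26549 111504 53097 0 5310 17699)) (.E 2)) (.L 6 6
    [4, 4, 5, 5, 6, 22, 22] [112, 108, 104, 92, 80, 68] [146, 146, 146, 142, 138, 126] 100000 42106
    42106 1252632 0 47368 100000 52632 0 47368 10526)) (.E 1)) (.E 1))) (.E 1)

lemma s22_22_6_6_9 : BlkD.treeX d22_22_6_6 (BlkD.exF 6 6 x22_22_6_6) t22_22_6_6_9
    (BlkD.upd (BlkD.upd (BlkD.upd (fun _ => 0) 0 2) 1 6) 2 2)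
    (BlkD.upd (BlkD.upd (BlkD.upd (BlkD.upd (BlkD.upd (BlkD.upd (BlkD.upd (BlkD.upd (BlkD.upd (BlkD.upd (BlkD.upd (fun _ => 22) 0 6) 2 6) 0 3) 0 2) 1 20) 1 10) 1 8) 1 7) 1 6) 2 3) 2 2) = true := by
  decide +kernel

lemma n22_22_6_6_9 {n : ℕ} (hn : 5 ≤ n) : BlkD.NdX d22_22_6_6 (BlkD.exF 6 6 x22_22_6_6) n
    (BlkD.upd (BlkD.upd (BlkD.upd (fun _ => 0) 0 2) 1 6) 2 2)
    (BlkD.upd (BlkD.upd (BlkD.upd (BlkD.upd (BlkD.upd (BlkD.upd (BlkD.upd (BlkD.upd (BlkD.upd (BlkD.upd (BlkD.upd (fun _ => 22) 0 6) 2 6) 0 3) 0 2) 1 20) 1 10) 1 8) 1 7) 1 6) 2 3) 2 2) :=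
  BlkD.NdX.tree s22_22_6_6_9 ok22_22_6_6 (by decide) hn

/-- a subtree -/
def t22_22_6_6_10 : BlkD.Tr :=
  .S 3 11 (.S 3 5 (.S 3 2 (.L 6 6 [4, 4, 5, 5, 6, 22, 22] [112, 108, 104, 92, 80, 68] [] 100000
    25000 24999 1300000 0 0 0 0 0 0 33333) (.S 3 4 (.S 3 3 (.L 7 7 [4, 4, 5, 5, 5, 22, 22] [112,
    108, 104, 92, 80, 68] [62, 50, 38, 24, 0, 0] 100000 25000 25000 1378303 10849 8962 51415 24528
    8019 1415 29717) (.S 4 6 (.S 4 3 (.S 4 1 (.L 9 9 [4, 5, 5, 4, 4, 22, 22] [68, 54, 0, 0, 0, 0]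
    [86, 74, 62, 50, 36, 0] 100000 23649 23648 1386485 40541 0 40541 40541 8108 8108 24324) (.L 9 9
    [4, 5, 5, 4, 4, 22, 22] [92, 80, 68, 54, 0, 0] [86, 74, 62, 50, 36, 0] 100000 32218 32218
    1370075 29577 3873 67958 63028 0 4930 20423)) (.L 9 9 [4, 5, 5, 4, 4, 22, 22] [112, 108, 104,
    92, 80, 68] [86, 74, 62, 50, 36, 0] 100000 30838 30837 1285630 4790 4790 100000 73503 0 7485
    23802)) (.E 2))) (.S 4 6 (.S 4 3 (.S 4 1 (.S 4 0 (.L 9 9 [4, 5, 5, 4, 4, 22, 22] [54, 0, 0, 0,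
    0, 0] [104, 100, 88, 76, 64, 50] 100000 12500 12500 1400000 50000 0 0 25000 25000 50000 25000)
    (.S 5 5 (.S 5 2 (.L 9 9 [4, 5, 5, 4, 4, 22, 22] [68, 54, 0, 0, 0, 0] [76, 64, 50, 0, 0, 0]
    100000 20834 20834 1395834 45833 0 75000 37500 8333 33333 16667) (.L 9 9 [4, 5, 5, 4, 4, 22,
    22] [68, 54, 0, 0, 0, 0] [104, 100, 88, 76, 64, 50] 100000 25000 25000 1325000 25000 0 25000
    100000 50000 0 25000)) (.E 2))) (.S 4 2 (.S 5 5 (.S 5 2 (.L 9 9 [4, 5, 5, 4, 4, 22, 22] [80,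
    68, 54, 0, 0, 0] [76, 64, 50, 0, 0, 0] 100000 25001 25001 1383333 16667 16667 83333 50000 0
    33333 16667) (.L 9 9 [4, 5, 5, 4, 4, 22, 22] [80, 68, 54, 0, 0, 0] [104, 100, 88, 76, 64, 50]
    100000 25000 24999 1351613 29032 0 58065 74194 16129 0 22581)) (.E 2)) (.L 9 9 [4, 5, 5, 4, 4,
    22, 22] [92, 80, 68, 54, 0, 0] [104, 100, 88, 76, 64, 50] 100000 40000 40000 1320000 20000
    20000 80000 60000 0 0 20000))) (.L 9 9 [4, 5, 5, 4, 4, 22, 22] [112, 108, 104, 92, 80, 68]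
    [104, 100, 88, 76, 64, 50] 100000 32609 28261 1256522 0 10145 104348 72826 0 2174 25000)) (.E
    2)))) (.S 3 8 (.S 3 7 (.S 3 6 (.S 4 6 (.S 4 3 (.S 4 1 (.S 4 0 (.L 6 6 [4, 4, 5, 5, 6, 22, 22]
    [54, 0, 0, 0, 0, 0] [124, 120, 116, 104, 92, 80] 100000 57143 57143 1200000 50000 0 0 100000
    14286 0 28571) (.S 5 6 (.S 5 3 (.L 6 6 [4, 4, 5, 5, 6, 22, 22] [68, 54, 0, 0, 0, 0] [104, 92,
    80, 66, 0, 0] 100000 33334 33334 1341667 25000 25000 58333 75000 41667 8333 16667) (.L 6 6 [4,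
    4, 5, 5, 6, 22, 22] [68, 54, 0, 0, 0, 0] [124, 120, 116, 104, 92, 80] 100000 43479 43479
    1226086 34783 0 69565 100000 30435 0 21739)) (.E 2))) (.L 6 6 [4, 4, 5, 5, 6, 22, 22] [92, 80,
    68, 54, 0, 0] [124, 120, 116, 104, 92, 80] 100000 40385 40385 1330771 30769 0 92308 61538 0
    7692 15385)) (.L 6 6 [4, 4, 5, 5, 6, 22, 22] [112, 108, 104, 92, 80, 68] [124, 120, 116, 104,
    92, 80] 100000 41177 1 1111768 0 5882 141176 76471 0 0 23529)) (.E 2)) (.L 6 6 [4, 4, 5, 5, 6,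
    22, 22] [112, 108, 104, 92, 80, 68] [142, 142, 138, 134, 122, 110] 100000 40000 40000 1280000 0
    20000 100000 80000 0 0 20000)) (.E 1)) (.E 1))) (.E 1)

lemma s22_22_6_6_10 : BlkD.treeX d22_22_6_6 (BlkD.exF 6 6 x22_22_6_6) t22_22_6_6_10
    (BlkD.upd (BlkD.upd (BlkD.upd (BlkD.upd (fun _ => 0) 0 2) 1 6) 2 2) 2 3)
    (BlkD.upd (BlkD.upd (BlkD.upd (BlkD.upd (BlkD.upd (BlkD.upd (BlkD.upd (BlkD.upd (BlkD.upd (BlkD.upd (fun _ => 22) 0 6) 2 6) 0 3) 0 2) 1 20) 1 10) 1 8) 1 7) 1 6) 2 3) = true := by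
  decide +kernel

lemma n22_22_6_6_10 {n : ℕ} (hn : 5 ≤ n) : BlkD.NdX d22_22_6_6 (BlkD.exF 6 6 x22_22_6_6) n
    (BlkD.upd (BlkD.upd (BlkD.upd (BlkD.upd (fun _ => 0) 0 2) 1 6) 2 2) 2 3)
    (BlkD.upd (BlkD.upd (BlkD.upd (BlkD.upd (BlkD.upd (BlkD.upd (BlkD.upd (BlkD.upd (BlkD.upd (BlkD.upd (fun _ => 22) 0 6) 2 6) 0 3) 0 2) 1 20) 1 10) 1 8) 1 7) 1 6) 2 3) :=
  BlkD.NdX.tree s22_22_6_6_10 ok22_22_6_6 (by decide) hn

/-- a subtree -/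
def t22_22_6_6_11 : BlkD.Tr :=
  .S 2 5 (.S 2 4 (.S 3 10 (.S 3 5 (.S 3 2 (.L 6 6 [4, 4, 5, 5, 6, 22, 22] [112, 108, 104, 92, 80,
    68] [] 100000 39286 39286 1333335 33333 0 66667 61905 0 4762 11111) (.S 3 4 (.S 3 3 (.S 4 6 (.S
    4 3 (.S 4 1 (.L 6 6 [4, 4, 5, 5, 6, 22, 22] [68, 54, 0, 0, 0, 0] [68, 56, 44, 30, 0, 0] 100000
    50000 50000 1260000 60000 0 60000 60000 0 0 20000) (.L 7 7 [4, 4, 5, 5, 5, 22, 22] [92, 80, 68,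
    54, 0, 0] [68, 56, 44, 30, 0, 0] 100000 31731 31731 1363462 36538 0 73077 48077 0 9615 19231))
    (.L 7 7 [4, 4, 5, 5, 5, 22, 22] [112, 108, 104, 92, 80, 68] [68, 56, 44, 30, 0, 0] 100000 29768
    29767 1285119 4961 4961 100000 74090 0 10695 23043)) (.E 2)) (.S 4 6 (.S 4 3 (.S 4 1 (.L 7 7
    [4, 4, 5, 5, 5, 22, 22] [68, 54, 0, 0, 0, 0] [94, 82, 70, 58, 44, 0] 100000 11957 11957 1447826
    30435 0 60870 47826 28261 28261 23913) (.L 7 7 [4, 4, 5, 5, 5, 22, 22] [92, 80, 68, 54, 0, 0]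
    [94, 82, 70, 58, 44, 0] 100000 29150 29149 1380238 33004 0 76877 46047 2174 12055 19368)) (.L 7
    7 [4, 4, 5, 5, 5, 22, 22] [112, 108, 104, 92, 80, 68] [94, 82, 70, 58, 44, 0] 100000 26744
    10464 1244187 3488 0 116279 66279 0 19767 22093)) (.E 2))) (.S 4 6 (.S 4 3 (.L 3 3 [5, 7, 8,
    10, 11, 22, 22] [92, 80, 68, 54, 0, 0] [114, 110, 98, 86, 74, 60] 100000 41792 41792 1326119
    36567 0 88060 51493 2985 30597 20896) (.L 3 3 [5, 7, 8, 10, 11, 22, 22] [112, 108, 104, 92, 80,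
    68] [114, 110, 98, 86, 74, 60] 100000 50000 0 1050000 0 0 150000 100000 0 0 16667)) (.E 2))))
    (.L 3 3 [5, 7, 8, 10, 11, 22, 22] [112, 108, 104, 92, 80, 68] [] 100000 100000 33332 799998 0 0
    166667 166667 0 0 0)) (.E 1)) (.L 6 6 [4, 4, 5, 5, 6, 22, 22] [112, 108, 104, 92, 80, 68] []
    100000 21875 21874 1406250 25000 0 68750 50000 12500 31250 20833)) (.L 6 6 [4, 4, 5, 5, 6, 22,
    22] [112, 108, 104, 92, 80, 68] [] 100000 21875 21875 1343750 31250 0 62500 37500 12500 43750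
    18750)

lemma s22_22_6_6_11 : BlkD.treeX d22_22_6_6 (BlkD.exF 6 6 x22_22_6_6) t22_22_6_6_11
    (BlkD.upd (BlkD.upd (BlkD.upd (fun _ => 0) 0 2) 1 6) 2 4)
    (BlkD.upd (BlkD.upd (BlkD.upd (BlkD.upd (BlkD.upd (BlkD.upd (BlkD.upd (BlkD.upd (BlkD.upd (fun _ => 22) 0 6) 2 6) 0 3) 0 2) 1 20) 1 10) 1 8) 1 7) 1 6) = true := by
  decide +kernel

lemma n22_22_6_6_11 {n : ℕ} (hn : 5 ≤ n) : BlkD.NdX d22_22_6_6 (BlkD.exF 6 6 x22_22_6_6) n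
    (BlkD.upd (BlkD.upd (BlkD.upd (fun _ => 0) 0 2) 1 6) 2 4)
    (BlkD.upd (BlkD.upd (BlkD.upd (BlkD.upd (BlkD.upd (BlkD.upd (BlkD.upd (BlkD.upd (BlkD.upd (fun _ => 22) 0 6) 2 6) 0 3) 0 2) 1 20) 1 10) 1 8) 1 7) 1 6) :=
  BlkD.NdX.tree s22_22_6_6_11 ok22_22_6_6 (by decide) hn

/-- a subtree -/
def t22_22_6_6_12 : BlkD.Tr :=
  .S 2 1 (.L 6 6 [4, 4, 5, 5, 6, 22, 22] [128, 128, 124, 120, 108, 96] [] 100000 54763 54763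
    1166665 23810 61905 61905 76190 0 0 9524) (.S 2 2 (.S 3 11 (.S 3 5 (.S 3 2 (.L 6 6 [4, 4, 5, 5,
    6, 22, 22] [128, 128, 124, 120, 108, 96] [] 100000 25000 24999 1300000 0 0 0 0 0 0 33333) (.S 3
    4 (.L 6 6 [4, 4, 5, 5, 6, 22, 22] [128, 128, 124, 120, 108, 96] [] 100000 43608 43608 1301138
    28409 28409 56818 42614 5682 0 33523) (.S 4 7 (.S 4 3 (.L 6 6 [4, 4, 5, 5, 6, 22, 22] [108, 96,
    84, 70, 0, 0] [94, 90, 78, 66, 54, 40] 100000 73611 73611 1172224 58333 38889 77778 58333 0 0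
    8333) (.L 6 6 [4, 4, 5, 5, 6, 22, 22] [128, 128, 124, 120, 108, 96] [94, 90, 78, 66, 54, 40]
    100000 38044 38044 1321741 17391 17391 78261 56522 0 0 17391)) (.E 2)))) (.S 3 8 (.S 3 7 (.S 3
    6 (.S 4 7 (.S 4 3 (.L 6 6 [4, 4, 5, 5, 6, 22, 22] [108, 96, 84, 70, 0, 0] [112, 108, 104, 92,
    80, 68] 100000 55883 55883 1271569 50980 21569 77451 55882 4902 5882 8824) (.L 6 6 [4, 4, 5, 5,
    6, 22, 22] [128, 128, 124, 120, 108, 96] [112, 108, 104, 92, 80, 68] 100000 70834 70834 1208333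
    0 50000 100000 91667 0 8333 0)) (.E 2)) (.S 4 7 (.S 4 3 (.L 4 4 [4, 5, 6, 8, 9, 22, 22] [108,
    96, 84, 70, 0, 0] [128, 128, 124, 120, 108, 96] 100000 66666 66665 1200002 33333 50000 83333
    50000 16667 50000 0) (.L 4 4 [4, 5, 6, 8, 9, 22, 22] [128, 128, 124, 120, 108, 96] [128, 128,
    124, 120, 108, 96] 100000 75000 75000 1100000 0 50000 100000 100000 0 0 0)) (.E 2))) (.E 2))
    (.E 1))) (.E 1)) (.S 3 10 (.S 3 5 (.S 3 2 (.L 4 4 [4, 5, 6, 8, 9, 22, 22] [128, 128, 124, 120,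
    108, 96] [] 100000 36364 36364 1318183 27273 0 63636 27273 9091 0 27273) (.S 3 4 (.S 3 3 (.S 4
    7 (.S 4 3 (.L 6 6 [4, 4, 5, 5, 6, 22, 22] [108, 96, 84, 70, 0, 0] [62, 50, 38, 24, 0, 0] 100000
    40385 40385 1320513 48718 0 83333 41026 0 1282 33333) (.L 6 6 [4, 4, 5, 5, 6, 22, 22] [128,
    128, 124, 120, 108, 96] [62, 50, 38, 24, 0, 0] 100000 26471 26471 1382357 5882 5882 88235 76471
    0 11765 23529)) (.E 2)) (.S 4 7 (.S 4 3 (.S 4 1 (.E 2) (.S 4 2 (.L 7 7 [4, 4, 5, 5, 5, 22, 22]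
    [96, 84, 70, 0, 0, 0] [86, 74, 62, 50, 36, 0] 100000 37500 37500 1341875 40625 13750 81250
    54375 3125 8125 18750) (.L 7 7 [4, 4, 5, 5, 5, 22, 22] [108, 96, 84, 70, 0, 0] [86, 74, 62, 50,
    36, 0] 100000 32143 32143 1360000 40000 0 80000 54286 0 5714 20000))) (.L 7 7 [4, 4, 5, 5, 5,
    22, 22] [128, 128, 124, 120, 108, 96] [86, 74, 62, 50, 36, 0] 100000 31539 31539 1363079 6154
    6154 100000 69615 0 5385 25000)) (.E 2))) (.S 4 7 (.S 4 3 (.S 4 1 (.E 2) (.S 4 2 (.L 2 2 [7, 9,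
    11, 13, 15, 22, 22] [96, 84, 70, 0, 0, 0] [104, 100, 88, 76, 64, 50] 100000 50000 50000 1266000
    46000 4000 92000 50000 0 46000 20000) (.L 6 6 [4, 4, 5, 5, 6, 22, 22] [108, 96, 84, 70, 0, 0]
    [104, 100, 88, 76, 64, 50] 100000 49254 49254 1291792 50746 0 100000 55970 0 11194 16418))) (.L
    6 6 [4, 4, 5, 5, 6, 22, 22] [128, 128, 124, 120, 108, 96] [104, 100, 88, 76, 64, 50] 100000
    40323 40323 1283870 3226 3226 100000 100000 0 0 19355)) (.E 2)))) (.L 6 6 [4, 4, 5, 5, 6, 22,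
    22] [128, 128, 124, 120, 108, 96] [] 100000 40385 40385 1332694 32692 0 86538 65385 13462 34615
    13462)) (.E 1)))

lemma s22_22_6_6_12 : BlkD.treeX d22_22_6_6 (BlkD.exF 6 6 x22_22_6_6) t22_22_6_6_12
    (BlkD.upd (BlkD.upd (BlkD.upd (fun _ => 0) 0 2) 1 6) 1 7)
    (BlkD.upd (BlkD.upd (BlkD.upd (BlkD.upd (BlkD.upd (BlkD.upd (BlkD.upd (BlkD.upd (BlkD.upd (fun _ => 22) 0 6) 2 6) 0 3) 0 2) 1 20) 1 10) 1 8) 1 7) 2 3) = true := by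
  decide +kernel

lemma n22_22_6_6_12 {n : ℕ} (hn : 5 ≤ n) : BlkD.NdX d22_22_6_6 (BlkD.exF 6 6 x22_22_6_6) n
    (BlkD.upd (BlkD.upd (BlkD.upd (fun _ => 0) 0 2) 1 6) 1 7)
    (BlkD.upd (BlkD.upd (BlkD.upd (BlkD.upd (BlkD.upd (BlkD.upd (BlkD.upd (BlkD.upd (BlkD.upd (fun _ => 22) 0 6) 2 6) 0 3) 0 2) 1 20) 1 10) 1 8) 1 7) 2 3) :=
  BlkD.NdX.tree s22_22_6_6_12 ok22_22_6_6 (by decide) hn

/-- a subtree -/
def t22_22_6_6_13 : BlkD.Tr :=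
  .S 2 5 (.S 2 4 (.S 3 9 (.S 3 4 (.S 3 2 (.L 6 6 [4, 4, 5, 5, 6, 22, 22] [128, 128, 124, 120, 108,
    96] [] 100000 28390 28389 1382204 28814 3390 60169 53390 6780 4237 35593) (.S 3 3 (.S 4 7 (.S 4
    3 (.L 6 6 [4, 4, 5, 5, 6, 22, 22] [108, 96, 84, 70, 0, 0] [68, 56, 44, 30, 0, 0] 100000 32692
    32691 1343592 35897 5128 71795 66667 20513 5128 20513) (.L 6 6 [4, 4, 5, 5, 6, 22, 22] [128,
    128, 124, 120, 108, 96] [68, 56, 44, 30, 0, 0] 100000 30000 30000 1360001 13333 0 100000 60000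
    0 10000 23333)) (.E 2)) (.S 4 7 (.S 4 3 (.L 3 3 [5, 7, 8, 10, 11, 22, 22] [108, 96, 84, 70, 0,
    0] [94, 82, 70, 58, 44, 0] 100000 60000 60000 1250000 50000 0 100000 60000 0 20000 20000) (.L 3
    3 [5, 7, 8, 10, 11, 22, 22] [128, 128, 124, 120, 108, 96] [94, 82, 70, 58, 44, 0] 100000 35000
    35000 1300000 0 0 100000 100000 0 20000 20000)) (.E 2)))) (.L 3 3 [5, 7, 8, 10, 11, 22, 22]
    [128, 128, 124, 120, 108, 96] [] 100000 66667 66666 1158331 41667 0 66667 100000 0 0 33333))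
    (.E 1)) (.L 6 6 [4, 4, 5, 5, 6, 22, 22] [128, 128, 124, 120, 108, 96] [] 100000 19759 19759
    1398387 29839 0 70968 41129 10484 41129 17742)) (.L 6 6 [4, 4, 5, 5, 6, 22, 22] [128, 128, 124,
    120, 108, 96] [] 100000 25000 25000 1300000 40000 0 80000 20000 0 60000 20000)

lemma s22_22_6_6_13 : BlkD.treeX d22_22_6_6 (BlkD.exF 6 6 x22_22_6_6) t22_22_6_6_13
    (BlkD.upd (BlkD.upd (BlkD.upd (BlkD.upd (fun _ => 0) 0 2) 1 6) 1 7) 2 4)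
    (BlkD.upd (BlkD.upd (BlkD.upd (BlkD.upd (BlkD.upd (BlkD.upd (BlkD.upd (BlkD.upd (fun _ => 22) 0 6) 2 6) 0 3) 0 2) 1 20) 1 10) 1 8) 1 7) = true := by
  decide +kernel

lemma n22_22_6_6_13 {n : ℕ} (hn : 5 ≤ n) : BlkD.NdX d22_22_6_6 (BlkD.exF 6 6 x22_22_6_6) n
    (BlkD.upd (BlkD.upd (BlkD.upd (BlkD.upd (fun _ => 0) 0 2) 1 6) 1 7) 2 4)
    (BlkD.upd (BlkD.upd (BlkD.upd (BlkD.upd (BlkD.upd (BlkD.upd (BlkD.upd (BlkD.upd (fun _ => 22) 0 6) 2 6) 0 3) 0 2) 1 20) 1 10) 1 8) 1 7) :=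
  BlkD.NdX.tree s22_22_6_6_13 ok22_22_6_6 (by decide) hn

/-- a subtree -/
def t22_22_6_6_14 : BlkD.Tr :=
  .S 2 3 (.S 2 1 (.L 6 6 [4, 4, 5, 5, 6, 22, 22] [146, 146, 146, 142, 138, 126] [] 100000 75000
    75000 1000000 0 100000 100000 100000 0 0 0) (.S 2 2 (.L 6 6 [4, 4, 5, 5, 6, 22, 22] [146, 146,
    146, 142, 138, 126] [] 100000 75000 75000 1196431 35714 35714 92857 67857 0 3571 0) (.S 3 9 (.S
    3 4 (.S 3 2 (.L 6 6 [4, 4, 5, 5, 6, 22, 22] [146, 146, 146, 142, 138, 126] [] 100000 33334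
    33334 1266666 16667 0 100000 16667 0 0 22222) (.S 3 3 (.L 6 6 [4, 4, 5, 5, 6, 22, 22] [146,
    146, 146, 142, 138, 126] [62, 50, 38, 24, 0, 0] 100000 46429 46429 1271429 42857 0 100000 42857
    0 0 14286) (.L 4 4 [4, 5, 6, 8, 9, 22, 22] [146, 146, 146, 142, 138, 126] [86, 74, 62, 50, 36,
    0] 100000 53847 53847 1273076 42308 3846 100000 46154 0 0 23077))) (.E 2)) (.E 1)))) (.L 4 4
    [4, 5, 6, 8, 9, 22, 22] [146, 146, 146, 142, 138, 126] [] 100000 31250 31250 1348866 17045 0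
    100000 54545 6818 9091 23864)

lemma s22_22_6_6_14 : BlkD.treeX d22_22_6_6 (BlkD.exF 6 6 x22_22_6_6) t22_22_6_6_14
    (BlkD.upd (BlkD.upd (BlkD.upd (fun _ => 0) 0 2) 1 6) 1 8)
    (BlkD.upd (BlkD.upd (BlkD.upd (BlkD.upd (BlkD.upd (BlkD.upd (BlkD.upd (fun _ => 22) 0 6) 2 6) 0 3) 0 2) 1 20) 1 10) 1 8) = true := by
  decide +kernel

lemma n22_22_6_6_14 {n : ℕ} (hn : 5 ≤ n) : BlkD.NdX d22_22_6_6 (BlkD.exF 6 6 x22_22_6_6) n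
    (BlkD.upd (BlkD.upd (BlkD.upd (fun _ => 0) 0 2) 1 6) 1 8)
    (BlkD.upd (BlkD.upd (BlkD.upd (BlkD.upd (BlkD.upd (BlkD.upd (BlkD.upd (fun _ => 22) 0 6) 2 6) 0 3) 0 2) 1 20) 1 10) 1 8) :=
  BlkD.NdX.tree s22_22_6_6_14 ok22_22_6_6 (by decide) hn

/-- a subtree -/
def t22_22_6_6_15 : BlkD.Tr :=
  .E 0

lemma s22_22_6_6_15 : BlkD.treeX d22_22_6_6 (BlkD.exF 6 6 x22_22_6_6) t22_22_6_6_15
    (BlkD.upd (BlkD.upd (BlkD.upd (fun _ => 0) 0 2) 1 6) 1 9)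
    (BlkD.upd (BlkD.upd (BlkD.upd (BlkD.upd (BlkD.upd (BlkD.upd (fun _ => 22) 0 6) 2 6) 0 3) 0 2) 1 20) 1 10) = true := by
  decide +kernel

lemma n22_22_6_6_15 {n : ℕ} (hn : 5 ≤ n) : BlkD.NdX d22_22_6_6 (BlkD.exF 6 6 x22_22_6_6) n
    (BlkD.upd (BlkD.upd (BlkD.upd (fun _ => 0) 0 2) 1 6) 1 9)
    (BlkD.upd (BlkD.upd (BlkD.upd (BlkD.upd (BlkD.upd (BlkD.upd (fun _ => 22) 0 6) 2 6) 0 3) 0 2) 1 20) 1 10) :=
  BlkD.NdX.tree s22_22_6_6_15 ok22_22_6_6 (by decide) hn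

/-- a subtree -/
def t22_22_6_6_16 : BlkD.Tr :=
  .E 0

lemma s22_22_6_6_16 : BlkD.treeX d22_22_6_6 (BlkD.exF 6 6 x22_22_6_6) t22_22_6_6_16
    (BlkD.upd (BlkD.upd (fun _ => 0) 0 2) 1 11)
    (BlkD.upd (BlkD.upd (BlkD.upd (BlkD.upd (BlkD.upd (fun _ => 22) 0 6) 2 6) 0 3) 0 2) 1 20) = true := by
  decide +kernel

lemma n22_22_6_6_16 {n : ℕ} (hn : 5 ≤ n) : BlkD.NdX d22_22_6_6 (BlkD.exF 6 6 x22_22_6_6) n
    (BlkD.upd (BlkD.upd (fun _ => 0) 0 2) 1 11)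
    (BlkD.upd (BlkD.upd (BlkD.upd (BlkD.upd (BlkD.upd (fun _ => 22) 0 6) 2 6) 0 3) 0 2) 1 20) :=
  BlkD.NdX.tree s22_22_6_6_16 ok22_22_6_6 (by decide) hn

/-- a subtree -/
def t22_22_6_6_17 : BlkD.Tr :=
  .E 0

lemma s22_22_6_6_17 : BlkD.treeX d22_22_6_6 (BlkD.exF 6 6 x22_22_6_6) t22_22_6_6_17
    (BlkD.upd (BlkD.upd (fun _ => 0) 0 2) 1 21)
    (BlkD.upd (BlkD.upd (BlkD.upd (BlkD.upd (fun _ => 22) 0 6) 2 6) 0 3) 0 2) = true := by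
  decide +kernel

lemma n22_22_6_6_17 {n : ℕ} (hn : 5 ≤ n) : BlkD.NdX d22_22_6_6 (BlkD.exF 6 6 x22_22_6_6) n
    (BlkD.upd (BlkD.upd (fun _ => 0) 0 2) 1 21)
    (BlkD.upd (BlkD.upd (BlkD.upd (BlkD.upd (fun _ => 22) 0 6) 2 6) 0 3) 0 2) :=
  BlkD.NdX.tree s22_22_6_6_17 ok22_22_6_6 (by decide) hn

/-- a subtree -/
def t22_22_6_6_18 : BlkD.Tr :=
  .L 6 6 [4, 4, 5, 5, 6, 22, 22] [] [] 100000 25001 25001 1390696 6977 2326 6977 86047 0 13953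
    24031

lemma s22_22_6_6_18 : BlkD.treeX d22_22_6_6 (BlkD.exF 6 6 x22_22_6_6) t22_22_6_6_18
    (BlkD.upd (BlkD.upd (fun _ => 0) 0 2) 0 3)
    (BlkD.upd (BlkD.upd (BlkD.upd (BlkD.upd (BlkD.upd (BlkD.upd (BlkD.upd (fun _ => 22) 0 6) 2 6) 0 3) 1 19) 1 9) 1 4) 1 2) = true := by
  decide +kernel

lemma n22_22_6_6_18 {n : ℕ} (hn : 5 ≤ n) : BlkD.NdX d22_22_6_6 (BlkD.exF 6 6 x22_22_6_6) n
    (BlkD.upd (BlkD.upd (fun _ => 0) 0 2) 0 3)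
    (BlkD.upd (BlkD.upd (BlkD.upd (BlkD.upd (BlkD.upd (BlkD.upd (BlkD.upd (fun _ => 22) 0 6) 2 6) 0 3) 1 19) 1 9) 1 4) 1 2) :=
  BlkD.NdX.tree s22_22_6_6_18 ok22_22_6_6 (by decide) hn

end BlkC

end Pool.Agent.Lib.MP_f04ccf_co
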