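import Pool.Agent.Lib.MP_f04ccf_co.M.BlkX22_22_6_6d

/-!
MP_f04ccf_co, block certificate with exceptions, `R = 22`, `H = 22`, the pair `(6, 6)` (data of helper99 / helper13,
generated by helper8, genx.py): part 2 of 3.
-/

set_option autoImplicit false
set_option maxRecDepth 100000

namespace Pool.Agent.Lib.MP_f04ccf_co

namespace BlkC

/-- a subtree -/
def t22_22_6_6_19 : BlkD.Tr :=
  .S 2 3 (.S 2 1 (.L 6 6 [4, 4, 5, 5, 6, 22, 22] [62, 50, 38, 24, 0, 0] [] 100000 43023 43022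
    1202327 0 72093 53488 81395 0 0 11628) (.S 2 2 (.S 3 14 (.S 3 7 (.S 3 3 (.L 6 6 [4, 4, 5, 5, 6,
    22, 22] [62, 50, 38, 24, 0, 0] [] 100000 50000 50000 1100000 0 0 0 0 0 0 0) (.S 3 5 (.L 6 6 [4,
    4, 5, 5, 6, 22, 22] [62, 50, 38, 24, 0, 0] [] 100000 25000 24999 1300000 0 0 0 0 0 0 33333) (.S
    3 6 (.L 7 7 [4, 4, 5, 5, 5, 22, 22] [62, 50, 38, 24, 0, 0] [112, 108, 104, 92, 80, 68] 100000
    25000 25000 1375663 10053 12169 27513 57672 1587 8995 33333) (.S 4 3 (.S 4 1 (.S 4 0 (.L 7 7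
    [4, 4, 5, 5, 5, 22, 22] [24, 0, 0, 0, 0, 0] [128, 128, 124, 120, 108, 96] 100000 40279 40279
    1316665 16667 55556 0 66667 33333 0 33333) (.L 7 7 [4, 4, 5, 5, 5, 22, 22] [38, 24, 0, 0, 0, 0]
    [128, 128, 124, 120, 108, 96] 100000 30444 30444 1343817 1882 29032 65323 65323 0 7258 21237))
    (.L 7 7 [4, 4, 5, 5, 5, 22, 22] [62, 50, 38, 24, 0, 0] [128, 128, 124, 120, 108, 96] 100000
    27924 27923 1300001 7602 14912 81287 66374 0 7310 24561)) (.E 2))))) (.L 7 7 [4, 4, 5, 5, 5,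
    22, 22] [62, 50, 38, 24, 0, 0] [] 100000 41667 41667 1300001 0 33333 33333 100000 0 0 11111))
    (.E 1)) (.S 3 13 (.S 3 6 (.S 3 3 (.L 7 7 [4, 4, 5, 5, 5, 22, 22] [62, 50, 38, 24, 0, 0] []
    100000 35714 35714 1200000 0 0 0 0 0 0 19048) (.S 3 5 (.L 7 7 [4, 4, 5, 5, 5, 22, 22] [62, 50,
    38, 24, 0, 0] [] 100000 23616 23615 1390094 8108 8108 28314 59459 3218 7207 33333) (.S 4 3 (.S
    4 1 (.S 4 0 (.S 5 6 (.S 5 3 (.L 7 7 [4, 4, 5, 5, 5, 22, 22] [24, 0, 0, 0, 0, 0] [104, 92, 80,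
    66, 0, 0] 100000 25000 24999 1384615 19231 19231 0 57692 0 34615 26923) (.L 7 7 [4, 4, 5, 5, 5,
    22, 22] [24, 0, 0, 0, 0, 0] [124, 120, 116, 104, 92, 80] 100000 25001 25001 1345454 15152 15152
    0 93939 63636 0 21212)) (.E 2)) (.L 7 7 [4, 4, 5, 5, 5, 22, 22] [38, 24, 0, 0, 0, 0] [124, 120,
    116, 104, 92, 80] 100000 25000 25000 1373335 9333 9333 89333 57333 0 16000 22667)) (.L 7 7 [4,
    4, 5, 5, 5, 22, 22] [62, 50, 38, 24, 0, 0] [124, 120, 116, 104, 92, 80] 100000 26761 22536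
    1280282 5634 5634 104225 64789 0 19718 21596)) (.E 2)))) (.S 3 10 (.S 3 8 (.S 3 7 (.L 9 9 [4,
    5, 5, 4, 4, 22, 22] [62, 50, 38, 24, 0, 0] [142, 142, 138, 134, 122, 110] 100000 22048 22048
    1402363 2362 2362 63780 100000 11811 22047 24409) (.E 1)) (.E 1)) (.E 1))) (.E 1)))) (.S 2 5
    (.S 2 4 (.S 3 12 (.S 3 6 (.S 3 3 (.L 9 9 [4, 5, 5, 4, 4, 22, 22] [62, 50, 38, 24, 0, 0] []
    100000 25000 24999 1300000 0 0 0 0 0 0 33333) (.S 3 5 (.S 3 4 (.L 9 9 [4, 5, 5, 4, 4, 22, 22]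
    [62, 50, 38, 24, 0, 0] [94, 82, 70, 58, 44, 0] 100000 23766 23766 1392594 12346 12346 28395
    44444 2469 6173 29218) (.L 9 9 [4, 5, 5, 4, 4, 22, 22] [62, 50, 38, 24, 0, 0] [114, 110, 98,
    86, 74, 60] 100000 22010 22010 1409533 19439 16075 74766 54766 5981 29159 22617)) (.L 9 9 [4,
    5, 5, 4, 4, 22, 22] [62, 50, 38, 24, 0, 0] [136, 132, 128, 116, 104, 92] 100000 29762 29762
    1359524 13492 0 77778 100000 10714 0 25000))) (.E 1)) (.E 1)) (.L 6 6 [4, 4, 5, 5, 6, 22, 22]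
    [62, 50, 38, 24, 0, 0] [] 100000 21875 21875 1381250 25000 0 56250 50000 6250 37500 37500)) (.L
    6 6 [4, 4, 5, 5, 6, 22, 22] [62, 50, 38, 24, 0, 0] [] 100000 25000 25000 1300001 33333 0 33333
    0 0 75000 25000))

lemma s22_22_6_6_19 : BlkD.treeX d22_22_6_6 (BlkD.exF 6 6 x22_22_6_6) t22_22_6_6_19
    (BlkD.upd (BlkD.upd (BlkD.upd (fun _ => 0) 0 2) 0 3) 1 3)
    (BlkD.upd (BlkD.upd (BlkD.upd (BlkD.upd (BlkD.upd (BlkD.upd (BlkD.upd (fun _ => 22) 0 6) 2 6) 0 3) 1 19) 1 9) 1 4) 1 3) = true := by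
  decide +kernel

lemma n22_22_6_6_19 {n : ℕ} (hn : 5 ≤ n) : BlkD.NdX d22_22_6_6 (BlkD.exF 6 6 x22_22_6_6) n
    (BlkD.upd (BlkD.upd (BlkD.upd (fun _ => 0) 0 2) 0 3) 1 3)
    (BlkD.upd (BlkD.upd (BlkD.upd (BlkD.upd (BlkD.upd (BlkD.upd (BlkD.upd (fun _ => 22) 0 6) 2 6) 0 3) 1 19) 1 9) 1 4) 1 3) :=
  BlkD.NdX.tree s22_22_6_6_19 ok22_22_6_6 (by decide) hn

/-- a subtree -/
def t22_22_6_6_20 : BlkD.Tr :=
  .L 6 6 [4, 4, 5, 5, 6, 22, 22] [86, 74, 62, 50, 36, 0] [] 100000 41305 41305 1221740 0 65217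
    56522 82609 0 0 13043

lemma s22_22_6_6_20 : BlkD.treeX d22_22_6_6 (BlkD.exF 6 6 x22_22_6_6) t22_22_6_6_20
    (BlkD.upd (BlkD.upd (BlkD.upd (BlkD.upd (fun _ => 0) 0 2) 0 3) 1 3) 1 4)
    (BlkD.upd (BlkD.upd (BlkD.upd (BlkD.upd (BlkD.upd (BlkD.upd (BlkD.upd (BlkD.upd (fun _ => 22) 0 6) 2 6) 0 3) 1 19) 1 9) 1 4) 2 3) 2 1) = true := by
  decide +kernel

lemma n22_22_6_6_20 {n : ℕ} (hn : 5 ≤ n) : BlkD.NdX d22_22_6_6 (BlkD.exF 6 6 x22_22_6_6) n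
    (BlkD.upd (BlkD.upd (BlkD.upd (BlkD.upd (fun _ => 0) 0 2) 0 3) 1 3) 1 4)
    (BlkD.upd (BlkD.upd (BlkD.upd (BlkD.upd (BlkD.upd (BlkD.upd (BlkD.upd (BlkD.upd (fun _ => 22) 0 6) 2 6) 0 3) 1 19) 1 9) 1 4) 2 3) 2 1) :=
  BlkD.NdX.tree s22_22_6_6_20 ok22_22_6_6 (by decide) hn

/-- a subtree -/
def t22_22_6_6_21 : BlkD.Tr :=
  .S 3 13 (.S 3 6 (.S 3 3 (.L 6 6 [4, 4, 5, 5, 6, 22, 22] [86, 74, 62, 50, 36, 0] [] 100000 35714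
    35714 1200000 0 0 0 0 0 0 19048) (.S 3 5 (.L 6 6 [4, 4, 5, 5, 6, 22, 22] [86, 74, 62, 50, 36,
    0] [] 100000 39881 39881 1334524 0 35714 65476 71429 5952 0 14286) (.S 4 4 (.S 4 2 (.S 4 1 (.L
    7 7 [4, 4, 5, 5, 5, 22, 22] [50, 36, 0, 0, 0, 0] [112, 108, 104, 92, 80, 68] 100000 27858 27858
    1373331 6667 46667 20000 52381 33333 952 33333) (.L 7 7 [4, 4, 5, 5, 5, 22, 22] [62, 50, 36, 0,
    0, 0] [112, 108, 104, 92, 80, 68] 100000 30641 30641 1349745 4615 28205 62051 56410 0 5641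
    31795)) (.L 7 7 [4, 4, 5, 5, 5, 22, 22] [86, 74, 62, 50, 36, 0] [112, 108, 104, 92, 80, 68]
    100000 34167 34167 1271669 0 30000 70000 68333 0 1667 20000)) (.E 2)))) (.S 3 10 (.S 3 8 (.S 3
    7 (.S 4 4 (.S 4 2 (.S 4 1 (.S 4 0 (.L 7 7 [4, 4, 5, 5, 5, 22, 22] [36, 0, 0, 0, 0, 0] [128,
    128, 124, 120, 108, 96] 100000 23375 23375 1360161 3252 52846 0 68293 58537 12195 19512) (.S 5
    7 (.S 5 3 (.L 7 7 [4, 4, 5, 5, 5, 22, 22] [50, 36, 0, 0, 0, 0] [108, 96, 84, 70, 0, 0] 100000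
    60714 60714 1214287 0 85714 42857 85714 0 0 14286) (.L 7 7 [4, 4, 5, 5, 5, 22, 22] [50, 36, 0,
    0, 0, 0] [128, 128, 124, 120, 108, 96] 100000 25000 24999 1316667 11111 16667 33333 100000
    66667 0 22222)) (.E 2))) (.L 7 7 [4, 4, 5, 5, 5, 22, 22] [62, 50, 36, 0, 0, 0] [128, 128, 124,
    120, 108, 96] 100000 33065 33065 1339786 1075 32258 64516 64516 0 0 21505)) (.L 7 7 [4, 4, 5,
    5, 5, 22, 22] [86, 74, 62, 50, 36, 0] [128, 128, 124, 120, 108, 96] 100000 37992 37992 1262993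
    0 28346 100000 51969 0 4724 17323)) (.E 2)) (.L 7 7 [4, 4, 5, 5, 5, 22, 22] [86, 74, 62, 50,
    36, 0] [146, 146, 146, 142, 138, 126] 100000 40000 40000 1330000 10000 40000 60000 80000 10000
    0 20000)) (.E 1)) (.E 1))) (.E 1)

lemma s22_22_6_6_21 : BlkD.treeX d22_22_6_6 (BlkD.exF 6 6 x22_22_6_6) t22_22_6_6_21
    (BlkD.upd (BlkD.upd (BlkD.upd (BlkD.upd (BlkD.upd (fun _ => 0) 0 2) 0 3) 1 3) 1 4) 2 2)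
    (BlkD.upd (BlkD.upd (BlkD.upd (BlkD.upd (BlkD.upd (BlkD.upd (BlkD.upd (BlkD.upd (fun _ => 22) 0 6) 2 6) 0 3) 1 19) 1 9) 1 4) 2 3) 2 2) = true := by
  decide +kernel

lemma n22_22_6_6_21 {n : ℕ} (hn : 5 ≤ n) : BlkD.NdX d22_22_6_6 (BlkD.exF 6 6 x22_22_6_6) n
    (BlkD.upd (BlkD.upd (BlkD.upd (BlkD.upd (BlkD.upd (fun _ => 0) 0 2) 0 3) 1 3) 1 4) 2 2)
    (BlkD.upd (BlkD.upd (BlkD.upd (BlkD.upd (BlkD.upd (BlkD.upd (BlkD.upd (BlkD.upd (fun _ => 22) 0 6) 2 6) 0 3) 1 19) 1 9) 1 4) 2 3) 2 2) :=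
  BlkD.NdX.tree s22_22_6_6_21 ok22_22_6_6 (by decide) hn

/-- a subtree -/
def t22_22_6_6_22 : BlkD.Tr :=
  .S 3 12 (.S 3 6 (.S 3 3 (.L 7 7 [4, 4, 5, 5, 5, 22, 22] [86, 74, 62, 50, 36, 0] [] 100000 25000
    24999 1300000 0 0 0 0 0 0 33333) (.S 3 5 (.S 3 4 (.L 7 7 [4, 4, 5, 5, 5, 22, 22] [86, 74, 62,
    50, 36, 0] [86, 74, 62, 50, 36, 0] 100000 24637 24636 1391311 7246 7246 31884 31884 2899 2899
    33333) (.S 4 4 (.S 4 2 (.S 4 1 (.S 4 0 (.S 5 5 (.S 5 2 (.L 7 7 [4, 4, 5, 5, 5, 22, 22] [36, 0,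
    0, 0, 0, 0] [76, 64, 50, 0, 0, 0] 100000 16667 16667 1416667 16667 16667 0 50000 16667 16667
    22222) (.L 7 7 [4, 4, 5, 5, 5, 22, 22] [36, 0, 0, 0, 0, 0] [104, 100, 88, 76, 64, 50] 100000
    25000 18750 1281250 6250 0 0 106250 25000 0 18750)) (.E 2)) (.S 5 5 (.S 5 2 (.L 7 7 [4, 4, 5,
    5, 5, 22, 22] [50, 36, 0, 0, 0, 0] [76, 64, 50, 0, 0, 0] 100000 12500 12500 1425000 12500 12500
    62500 50000 25000 25000 25000) (.L 7 7 [4, 4, 5, 5, 5, 22, 22] [50, 36, 0, 0, 0, 0] [104, 100,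
    88, 76, 64, 50] 100000 25000 25000 1357144 10714 10714 21429 100000 75000 0 25000)) (.E 2)))
    (.L 7 7 [4, 4, 5, 5, 5, 22, 22] [62, 50, 36, 0, 0, 0] [104, 100, 88, 76, 64, 50] 100000 25063
    25063 1394047 6203 6203 81141 58561 0 5955 29280)) (.L 7 7 [4, 4, 5, 5, 5, 22, 22] [86, 74, 62,
    50, 36, 0] [104, 100, 88, 76, 64, 50] 100000 31659 31659 1278894 0 10553 100000 73116 0 5025
    24372)) (.E 2))) (.S 4 4 (.S 4 2 (.S 4 1 (.S 4 0 (.L 7 7 [4, 4, 5, 5, 5, 22, 22] [36, 0, 0, 0,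
    0, 0] [124, 120, 116, 104, 92, 80] 100000 7333 7332 1465335 17333 12000 0 52000 50667 50667
    20000) (.S 5 6 (.S 5 3 (.S 5 1 (.E 2) (.S 5 2 (.E 9) (.L 7 7 [4, 4, 5, 5, 5, 22, 22] [50, 36,
    0, 0, 0, 0] [104, 92, 80, 66, 0, 0] 100000 10577 10577 1419234 11538 11538 61538 61538 38462
    38462 19231))) (.L 7 7 [4, 4, 5, 5, 5, 22, 22] [50, 36, 0, 0, 0, 0] [124, 120, 116, 104, 92,
    80] 100000 25000 25000 1340000 20000 0 40000 100000 60000 0 20000)) (.E 2))) (.L 7 7 [4, 4, 5,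
    5, 5, 22, 22] [62, 50, 36, 0, 0, 0] [124, 120, 116, 104, 92, 80] 100000 26632 26631 1373370
    5326 5326 100000 65464 0 20103 21821)) (.L 7 7 [4, 4, 5, 5, 5, 22, 22] [86, 74, 62, 50, 36, 0]
    [124, 120, 116, 104, 92, 80] 100000 29092 16365 1245454 0 5455 112727 68182 0 12727 22727)) (.E
    2)))) (.S 3 9 (.S 3 8 (.S 3 7 (.S 4 4 (.S 4 2 (.S 4 1 (.L 6 6 [4, 4, 5, 5, 6, 22, 22] [50, 36,
    0, 0, 0, 0] [142, 142, 138, 134, 122, 110] 100000 35000 35000 1335000 10000 40000 35000 90000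
    50000 0 25000) (.L 6 6 [4, 4, 5, 5, 6, 22, 22] [62, 50, 36, 0, 0, 0] [142, 142, 138, 134, 122,
    110] 100000 35000 35000 1300000 0 0 100000 100000 0 20000 20000)) (.L 6 6 [4, 4, 5, 5, 6, 22,
    22] [86, 74, 62, 50, 36, 0] [142, 142, 138, 134, 122, 110] 100000 50000 0 1050000 0 0 150000
    100000 0 0 16667)) (.E 2)) (.E 1)) (.E 1)) (.E 1))) (.E 1)

lemma s22_22_6_6_22 : BlkD.treeX d22_22_6_6 (BlkD.exF 6 6 x22_22_6_6) t22_22_6_6_22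
    (BlkD.upd (BlkD.upd (BlkD.upd (BlkD.upd (BlkD.upd (BlkD.upd (fun _ => 0) 0 2) 0 3) 1 3) 1 4) 2 2) 2 3)
    (BlkD.upd (BlkD.upd (BlkD.upd (BlkD.upd (BlkD.upd (BlkD.upd (BlkD.upd (fun _ => 22) 0 6) 2 6) 0 3) 1 19) 1 9) 1 4) 2 3) = true := by
  decide +kernel

lemma n22_22_6_6_22 {n : ℕ} (hn : 5 ≤ n) : BlkD.NdX d22_22_6_6 (BlkD.exF 6 6 x22_22_6_6) n
    (BlkD.upd (BlkD.upd (BlkD.upd (BlkD.upd (BlkD.upd (BlkD.upd (fun _ => 0) 0 2) 0 3) 1 3) 1 4) 2 2) 2 3)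
    (BlkD.upd (BlkD.upd (BlkD.upd (BlkD.upd (BlkD.upd (BlkD.upd (BlkD.upd (fun _ => 22) 0 6) 2 6) 0 3) 1 19) 1 9) 1 4) 2 3) :=
  BlkD.NdX.tree s22_22_6_6_22 ok22_22_6_6 (by decide) hn

/-- a subtree -/
def t22_22_6_6_23 : BlkD.Tr :=
  .S 2 5 (.S 2 4 (.S 3 11 (.S 3 5 (.S 3 2 (.L 6 6 [4, 4, 5, 5, 6, 22, 22] [86, 74, 62, 50, 36, 0]
    [] 100000 25000 24999 1300000 0 0 0 0 0 0 33333) (.S 3 4 (.S 3 3 (.L 7 7 [4, 4, 5, 5, 5, 22,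
    22] [86, 74, 62, 50, 36, 0] [68, 56, 44, 30, 0, 0] 100000 24577 24577 1398307 8475 8475 37288
    37288 3390 3390 30508) (.S 4 4 (.S 4 2 (.S 4 1 (.S 4 0 (.L 7 7 [4, 4, 5, 5, 5, 22, 22] [36, 0,
    0, 0, 0, 0] [94, 82, 70, 58, 44, 0] 100000 7003 7003 1468848 19372 3927 0 54188 46335 37696
    34293) (.S 5 4 (.S 5 2 (.L 7 7 [4, 4, 5, 5, 5, 22, 22] [50, 36, 0, 0, 0, 0] [70, 58, 44, 0, 0,
    0] 100000 10001 10001 1446667 16667 6667 63333 53333 30000 40000 30000) (.L 7 7 [4, 4, 5, 5, 5,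
    22, 22] [50, 36, 0, 0, 0, 0] [94, 82, 70, 58, 44, 0] 100000 25000 25000 1340000 20000 0 40000
    100000 60000 0 20000)) (.E 2))) (.L 7 7 [4, 4, 5, 5, 5, 22, 22] [62, 50, 36, 0, 0, 0] [94, 82,
    70, 58, 44, 0] 100000 25000 25000 1380000 15000 0 90000 55000 0 15000 25000)) (.L 7 7 [4, 4, 5,
    5, 5, 22, 22] [86, 74, 62, 50, 36, 0] [94, 82, 70, 58, 44, 0] 100000 27273 27273 1290910 4545
    4545 100000 60606 0 18182 18687)) (.E 2))) (.S 4 4 (.S 4 2 (.S 4 1 (.L 7 7 [4, 4, 5, 5, 5, 22,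
    22] [50, 36, 0, 0, 0, 0] [114, 110, 98, 86, 74, 60] 100000 6667 6666 1446665 6667 6667 60000
    66667 53333 53333 20000) (.L 7 7 [4, 4, 5, 5, 5, 22, 22] [62, 50, 36, 0, 0, 0] [114, 110, 98,
    86, 74, 60] 100000 25001 25001 1366666 16667 0 100000 50000 0 33333 22222)) (.L 7 7 [4, 4, 5,
    5, 5, 22, 22] [86, 74, 62, 50, 36, 0] [114, 110, 98, 86, 74, 60] 100000 26163 582 1218606 0
    2326 125581 65116 0 27907 20930)) (.E 2)))) (.L 7 7 [4, 4, 5, 5, 5, 22, 22] [86, 74, 62, 50,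
    36, 0] [] 100000 35000 35000 1300000 0 0 100000 100000 0 20000 20000)) (.E 1)) (.L 7 7 [4, 4,
    5, 5, 5, 22, 22] [86, 74, 62, 50, 36, 0] [] 100000 18221 18221 1425424 18644 0 74576 55932
    13559 25000 25000)) (.L 7 7 [4, 4, 5, 5, 5, 22, 22] [86, 74, 62, 50, 36, 0] [] 100000 16955
    16955 1408046 11494 0 80460 68966 16092 31034 22989)

lemma s22_22_6_6_23 : BlkD.treeX d22_22_6_6 (BlkD.exF 6 6 x22_22_6_6) t22_22_6_6_23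
    (BlkD.upd (BlkD.upd (BlkD.upd (BlkD.upd (BlkD.upd (fun _ => 0) 0 2) 0 3) 1 3) 1 4) 2 4)
    (BlkD.upd (BlkD.upd (BlkD.upd (BlkD.upd (BlkD.upd (BlkD.upd (fun _ => 22) 0 6) 2 6) 0 3) 1 19) 1 9) 1 4) = true := by
  decide +kernel

lemma n22_22_6_6_23 {n : ℕ} (hn : 5 ≤ n) : BlkD.NdX d22_22_6_6 (BlkD.exF 6 6 x22_22_6_6) n
    (BlkD.upd (BlkD.upd (BlkD.upd (BlkD.upd (BlkD.upd (fun _ => 0) 0 2) 0 3) 1 3) 1 4) 2 4)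
    (BlkD.upd (BlkD.upd (BlkD.upd (BlkD.upd (BlkD.upd (BlkD.upd (fun _ => 22) 0 6) 2 6) 0 3) 1 19) 1 9) 1 4) :=
  BlkD.NdX.tree s22_22_6_6_23 ok22_22_6_6 (by decide) hn

/-- a subtree -/
def t22_22_6_6_24 : BlkD.Tr :=
  .L 7 7 [4, 4, 5, 5, 5, 22, 22] [104, 100, 88, 76, 64, 50] [] 100000 40698 40698 1216280 4651
    62791 55814 81395 0 0 17054

lemma s22_22_6_6_24 : BlkD.treeX d22_22_6_6 (BlkD.exF 6 6 x22_22_6_6) t22_22_6_6_24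
    (BlkD.upd (BlkD.upd (BlkD.upd (fun _ => 0) 0 2) 0 3) 1 5)
    (BlkD.upd (BlkD.upd (BlkD.upd (BlkD.upd (BlkD.upd (BlkD.upd (BlkD.upd (BlkD.upd (BlkD.upd (BlkD.upd (fun _ => 22) 0 6) 2 6) 0 3) 1 19) 1 9) 1 7) 1 6) 1 5) 2 3) 2 1) = true := by
  decide +kernel

lemma n22_22_6_6_24 {n : ℕ} (hn : 5 ≤ n) : BlkD.NdX d22_22_6_6 (BlkD.exF 6 6 x22_22_6_6) n
    (BlkD.upd (BlkD.upd (BlkD.upd (fun _ => 0) 0 2) 0 3) 1 5)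
    (BlkD.upd (BlkD.upd (BlkD.upd (BlkD.upd (BlkD.upd (BlkD.upd (BlkD.upd (BlkD.upd (BlkD.upd (BlkD.upd (fun _ => 22) 0 6) 2 6) 0 3) 1 19) 1 9) 1 7) 1 6) 1 5) 2 3) 2 1) :=
  BlkD.NdX.tree s22_22_6_6_24 ok22_22_6_6 (by decide) hn

/-- a subtree -/
def t22_22_6_6_25 : BlkD.Tr :=
  .S 3 12 (.S 3 6 (.S 3 3 (.L 7 7 [4, 4, 5, 5, 5, 22, 22] [104, 100, 88, 76, 64, 50] [] 100000
    25000 24999 1300000 0 0 0 0 0 0 33333) (.S 3 5 (.S 3 4 (.L 7 7 [4, 4, 5, 5, 5, 22, 22] [104,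
    100, 88, 76, 64, 50] [78, 66, 54, 42, 28, 0] 100000 28846 28845 1353847 7692 23077 53846 30769
    7692 0 30769) (.S 4 5 (.S 4 2 (.L 7 7 [4, 4, 5, 5, 5, 22, 22] [76, 64, 50, 0, 0, 0] [94, 90,
    78, 66, 54, 40] 100000 28383 28382 1357897 11278 36090 40602 56391 18045 2256 29323) (.L 7 7
    [4, 4, 5, 5, 5, 22, 22] [104, 100, 88, 76, 64, 50] [94, 90, 78, 66, 54, 40] 100000 33333 33332
    1333334 0 33333 66667 66667 0 0 33333)) (.E 2))) (.S 4 5 (.S 4 2 (.S 4 1 (.L 7 7 [4, 4, 5, 5,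
    5, 22, 22] [64, 50, 0, 0, 0, 0] [112, 108, 104, 92, 80, 68] 100000 33334 33334 1333332 0 66667
    0 66667 66667 0 16667) (.S 5 6 (.S 5 3 (.S 5 1 (.L 7 7 [4, 4, 5, 5, 5, 22, 22] [76, 64, 50, 0,
    0, 0] [68, 54, 0, 0, 0, 0] 100000 31250 31250 1325000 0 50000 75000 50000 0 25000 25000) (.L 7
    7 [4, 4, 5, 5, 5, 22, 22] [76, 64, 50, 0, 0, 0] [92, 80, 68, 54, 0, 0] 100000 25000 25000
    1376924 6154 27692 40000 81538 41538 0 13846)) (.L 7 7 [4, 4, 5, 5, 5, 22, 22] [76, 64, 50, 0,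
    0, 0] [112, 108, 104, 92, 80, 68] 100000 43751 1 1093750 18750 9375 37500 143750 43750 0
    14583)) (.E 2))) (.L 7 7 [4, 4, 5, 5, 5, 22, 22] [104, 100, 88, 76, 64, 50] [112, 108, 104, 92,
    80, 68] 100000 37500 37500 1325000 0 34375 68750 68750 0 0 18750)) (.E 2)))) (.S 3 9 (.S 3 8
    (.S 3 7 (.S 4 5 (.S 4 2 (.L 2 2 [7, 9, 11, 13, 15, 22, 22] [76, 64, 50, 0, 0, 0] [128, 128,
    124, 120, 108, 96] 100000 27632 27632 1368422 0 36842 36842 73684 63158 36842 21053) (.L 2 2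
    [7, 9, 11, 13, 15, 22, 22] [104, 100, 88, 76, 64, 50] [128, 128, 124, 120, 108, 96] 100000
    45000 45000 1270000 0 10000 100000 100000 0 0 20000)) (.E 2)) (.E 2)) (.E 1)) (.E 1))) (.E 1)

lemma s22_22_6_6_25 : BlkD.treeX d22_22_6_6 (BlkD.exF 6 6 x22_22_6_6) t22_22_6_6_25
    (BlkD.upd (BlkD.upd (BlkD.upd (BlkD.upd (fun _ => 0) 0 2) 0 3) 1 5) 2 2)
    (BlkD.upd (BlkD.upd (BlkD.upd (BlkD.upd (BlkD.upd (BlkD.upd (BlkD.upd (BlkD.upd (BlkD.upd (BlkD.upd (fun _ => 22) 0 6) 2 6) 0 3) 1 19) 1 9) 1 7) 1 6) 1 5) 2 3) 2 2) = true := by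
  decide +kernel

lemma n22_22_6_6_25 {n : ℕ} (hn : 5 ≤ n) : BlkD.NdX d22_22_6_6 (BlkD.exF 6 6 x22_22_6_6) n
    (BlkD.upd (BlkD.upd (BlkD.upd (BlkD.upd (fun _ => 0) 0 2) 0 3) 1 5) 2 2)
    (BlkD.upd (BlkD.upd (BlkD.upd (BlkD.upd (BlkD.upd (BlkD.upd (BlkD.upd (BlkD.upd (BlkD.upd (BlkD.upd (fun _ => 22) 0 6) 2 6) 0 3) 1 19) 1 9) 1 7) 1 6) 1 5) 2 3) 2 2) :=
  BlkD.NdX.tree s22_22_6_6_25 ok22_22_6_6 (by decide) hn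

/-- a subtree -/
def t22_22_6_6_26 : BlkD.Tr :=
  .S 3 11 (.S 3 5 (.S 3 2 (.L 2 2 [7, 9, 11, 13, 15, 22, 22] [104, 100, 88, 76, 64, 50] [] 100000
    25000 24999 1300000 0 0 0 0 0 0 33333) (.S 3 4 (.S 3 3 (.L 6 6 [4, 4, 5, 5, 6, 22, 22] [104,
    100, 88, 76, 64, 50] [62, 50, 38, 24, 0, 0] 100000 23317 23317 1404716 4714 4714 80135 29630
    11785 3367 25477) (.S 4 5 (.S 4 2 (.S 4 1 (.L 7 7 [4, 4, 5, 5, 5, 22, 22] [64, 50, 0, 0, 0, 0]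
    [86, 74, 62, 50, 36, 0] 100000 20371 20371 1416665 16667 16667 42593 48148 31481 9259 25926)
    (.S 5 4 (.S 5 2 (.S 5 1 (.L 7 7 [4, 4, 5, 5, 5, 22, 22] [76, 64, 50, 0, 0, 0] [50, 36, 0, 0, 0,
    0] 100000 10715 10715 1431428 11429 11429 62857 51429 28571 40000 28571) (.L 7 7 [4, 4, 5, 5,
    5, 22, 22] [76, 64, 50, 0, 0, 0] [62, 50, 36, 0, 0, 0] 100000 25000 25000 1353848 11538 11538
    23077 100000 57692 0 19231)) (.L 7 7 [4, 4, 5, 5, 5, 22, 22] [76, 64, 50, 0, 0, 0] [86, 74, 62,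
    50, 36, 0] 100000 25000 15625 1271875 3125 3125 6250 109375 25000 0 18750)) (.E 2))) (.L 7 7
    [4, 4, 5, 5, 5, 22, 22] [104, 100, 88, 76, 64, 50] [86, 74, 62, 50, 36, 0] 100000 25000 24999
    1395123 5488 5488 82927 64024 0 7927 28049)) (.E 2))) (.S 4 5 (.S 4 2 (.S 4 1 (.S 4 0 (.L 7 7
    [4, 4, 5, 5, 5, 22, 22] [50, 0, 0, 0, 0, 0] [104, 100, 88, 76, 64, 50] 100000 66667 66667
    1176925 0 84615 0 89744 66667 10256 33333) (.L 7 7 [4, 4, 5, 5, 5, 22, 22] [64, 50, 0, 0, 0, 0]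
    [104, 100, 88, 76, 64, 50] 100000 5625 5625 1468125 15625 5000 59375 50625 49375 49375 28125))
    (.S 5 5 (.S 5 2 (.L 7 7 [4, 4, 5, 5, 5, 22, 22] [76, 64, 50, 0, 0, 0] [76, 64, 50, 0, 0, 0]
    100000 14091 14091 1420001 10909 10909 74545 50909 23636 47273 20000) (.L 7 7 [4, 4, 5, 5, 5,
    22, 22] [76, 64, 50, 0, 0, 0] [104, 100, 88, 76, 64, 50] 100000 25001 25001 1351064 6383 14894
    29787 100000 63830 0 23404)) (.E 2))) (.L 7 7 [4, 4, 5, 5, 5, 22, 22] [104, 100, 88, 76, 64,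
    50] [104, 100, 88, 76, 64, 50] 100000 29798 29797 1373738 0 11111 96465 71465 0 7071 25000))
    (.E 2)))) (.S 3 8 (.S 3 7 (.S 3 6 (.S 4 5 (.S 4 2 (.S 4 1 (.S 4 0 (.L 7 7 [4, 4, 5, 5, 5, 22,
    22] [50, 0, 0, 0, 0, 0] [124, 120, 116, 104, 92, 80] 100000 50000 50000 1250000 0 75000 0 75000
    50000 0 25000) (.L 7 7 [4, 4, 5, 5, 5, 22, 22] [64, 50, 0, 0, 0, 0] [124, 120, 116, 104, 92,
    80] 100000 45000 45000 1287500 32500 0 87500 97500 22500 2500 22500)) (.S 5 6 (.S 5 3 (.S 5 1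
    (.E 2) (.S 5 2 (.L 9 9 [4, 5, 5, 4, 4, 22, 22] [76, 64, 50, 0, 0, 0] [92, 80, 66, 0, 0, 0]
    100000 20000 19999 1416363 9091 9091 100000 47273 20000 36364 20000) (.L 9 9 [4, 5, 5, 4, 4,
    22, 22] [76, 64, 50, 0, 0, 0] [104, 92, 80, 66, 0, 0] 100000 35000 35000 1300000 0 0 100000
    100000 0 20000 20000))) (.L 9 9 [4, 5, 5, 4, 4, 22, 22] [76, 64, 50, 0, 0, 0] [124, 120, 116,
    104, 92, 80] 100000 20000 20000 1324000 12000 0 52000 100000 36000 20000 20000)) (.E 2))) (.L 9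
    9 [4, 5, 5, 4, 4, 22, 22] [104, 100, 88, 76, 64, 50] [124, 120, 116, 104, 92, 80] 100000 39423
    39423 1292308 3846 3846 100000 96154 0 0 19231)) (.E 2)) (.E 2)) (.E 1)) (.E 1))) (.E 1)

lemma s22_22_6_6_26 : BlkD.treeX d22_22_6_6 (BlkD.exF 6 6 x22_22_6_6) t22_22_6_6_26
    (BlkD.upd (BlkD.upd (BlkD.upd (BlkD.upd (BlkD.upd (fun _ => 0) 0 2) 0 3) 1 5) 2 2) 2 3)
    (BlkD.upd (BlkD.upd (BlkD.upd (BlkD.upd (BlkD.upd (BlkD.upd (BlkD.upd (BlkD.upd (BlkD.upd (fun _ => 22) 0 6) 2 6) 0 3) 1 19) 1 9) 1 7) 1 6) 1 5) 2 3) = true := by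
  decide +kernel

lemma n22_22_6_6_26 {n : ℕ} (hn : 5 ≤ n) : BlkD.NdX d22_22_6_6 (BlkD.exF 6 6 x22_22_6_6) n
    (BlkD.upd (BlkD.upd (BlkD.upd (BlkD.upd (BlkD.upd (fun _ => 0) 0 2) 0 3) 1 5) 2 2) 2 3)
    (BlkD.upd (BlkD.upd (BlkD.upd (BlkD.upd (BlkD.upd (BlkD.upd (BlkD.upd (BlkD.upd (BlkD.upd (fun _ => 22) 0 6) 2 6) 0 3) 1 19) 1 9) 1 7) 1 6) 1 5) 2 3) :=
  BlkD.NdX.tree s22_22_6_6_26 ok22_22_6_6 (by decide) hn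

/-- a subtree -/
def t22_22_6_6_27 : BlkD.Tr :=
  .S 2 5 (.S 2 4 (.S 3 10 (.S 3 5 (.S 3 2 (.L 9 9 [4, 5, 5, 4, 4, 22, 22] [104, 100, 88, 76, 64,
    50] [] 100000 24162 24162 1387153 14525 10056 58101 37430 7263 1676 28492) (.S 3 4 (.S 3 3 (.S
    4 5 (.S 4 2 (.S 4 1 (.L 6 6 [4, 4, 5, 5, 6, 22, 22] [64, 50, 0, 0, 0, 0] [68, 56, 44, 30, 0, 0]
    100000 7308 7308 1444616 13846 9231 40000 69231 60000 40000 30769) (.S 5 3 (.S 5 1 (.L 6 6 [4,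
    4, 5, 5, 6, 22, 22] [76, 64, 50, 0, 0, 0] [44, 30, 0, 0, 0, 0] 100000 3750 3750 1455000 10000
    7500 57500 15000 42500 42500 42500) (.L 6 6 [4, 4, 5, 5, 6, 22, 22] [76, 64, 50, 0, 0, 0] [68,
    56, 44, 30, 0, 0] 100000 25000 25000 1340000 20000 0 40000 100000 60000 0 20000)) (.E 2))) (.L
    6 6 [4, 4, 5, 5, 6, 22, 22] [104, 100, 88, 76, 64, 50] [68, 56, 44, 30, 0, 0] 100000 25962
    25962 1393269 4327 4327 89423 77885 0 11538 25962)) (.E 2)) (.S 4 5 (.S 4 2 (.S 4 1 (.S 4 0 (.L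
    7 7 [4, 4, 5, 5, 5, 22, 22] [50, 0, 0, 0, 0, 0] [94, 82, 70, 58, 44, 0] 100000 40909 40909
    1327276 13636 51136 0 92045 50000 40909 22727) (.L 7 7 [4, 4, 5, 5, 5, 22, 22] [64, 50, 0, 0,
    0, 0] [94, 82, 70, 58, 44, 0] 100000 6035 6035 1462070 17241 0 68966 51724 51724 51724 24138))
    (.L 7 7 [4, 4, 5, 5, 5, 22, 22] [76, 64, 50, 0, 0, 0] [94, 82, 70, 58, 44, 0] 100000 16918
    16918 1429796 11410 2219 76070 66878 16165 16165 21553)) (.L 7 7 [4, 4, 5, 5, 5, 22, 22] [104,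
    100, 88, 76, 64, 50] [94, 82, 70, 58, 44, 0] 100000 25000 25000 1346000 8000 0 90000 74000 0
    16000 24000)) (.E 2))) (.L 7 7 [4, 4, 5, 5, 5, 22, 22] [104, 100, 88, 76, 64, 50] [114, 110,
    98, 86, 74, 60] 100000 27557 27556 1354545 9091 0 68182 100000 17045 284 22727))) (.E 2)) (.E
    1)) (.S 3 9 (.S 3 4 (.S 3 2 (.S 3 1 (.L 7 7 [4, 4, 5, 5, 5, 22, 22] [104, 100, 88, 76, 64, 50]
    [] 100000 18750 18750 1400000 12500 0 75000 25000 12500 12500 25000) (.S 4 5 (.S 4 2 (.L 7 7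
    [4, 4, 5, 5, 5, 22, 22] [76, 64, 50, 0, 0, 0] [48, 36, 22, 0, 0, 0] 100000 5769 5768 1438464
    7692 23077 50000 61538 38462 38462 38462) (.L 7 7 [4, 4, 5, 5, 5, 22, 22] [104, 100, 88, 76,
    64, 50] [48, 36, 22, 0, 0, 0] 100000 25000 25000 1313334 13333 0 100000 60000 0 40000 20000))
    (.E 2))) (.S 3 3 (.S 4 5 (.S 4 2 (.L 7 7 [4, 4, 5, 5, 5, 22, 22] [76, 64, 50, 0, 0, 0] [74, 62,
    50, 36, 0, 0] 100000 4762 4761 1447619 19048 0 47619 57143 54762 54762 26190) (.L 7 7 [4, 4, 5,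
    5, 5, 22, 22] [104, 100, 88, 76, 64, 50] [74, 62, 50, 36, 0, 0] 100000 25000 25000 1313334
    13333 0 100000 60000 0 40000 20000)) (.E 2)) (.L 7 7 [4, 4, 5, 5, 5, 22, 22] [104, 100, 88, 76,
    64, 50] [102, 90, 78, 66, 52, 0] 100000 40000 39999 1279999 6667 0 100000 100000 0 0 20000)))
    (.E 1)) (.E 1))) (.L 7 7 [4, 4, 5, 5, 5, 22, 22] [104, 100, 88, 76, 64, 50] [] 100000 15910
    15910 1409092 27273 0 63636 36364 18182 45455 18182)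

lemma s22_22_6_6_27 : BlkD.treeX d22_22_6_6 (BlkD.exF 6 6 x22_22_6_6) t22_22_6_6_27
    (BlkD.upd (BlkD.upd (BlkD.upd (BlkD.upd (fun _ => 0) 0 2) 0 3) 1 5) 2 4)
    (BlkD.upd (BlkD.upd (BlkD.upd (BlkD.upd (BlkD.upd (BlkD.upd (BlkD.upd (BlkD.upd (fun _ => 22) 0 6) 2 6) 0 3) 1 19) 1 9) 1 7) 1 6) 1 5) = true := by
  decide +kernel

lemma n22_22_6_6_27 {n : ℕ} (hn : 5 ≤ n) : BlkD.NdX d22_22_6_6 (BlkD.exF 6 6 x22_22_6_6) n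
    (BlkD.upd (BlkD.upd (BlkD.upd (BlkD.upd (fun _ => 0) 0 2) 0 3) 1 5) 2 4)
    (BlkD.upd (BlkD.upd (BlkD.upd (BlkD.upd (BlkD.upd (BlkD.upd (BlkD.upd (BlkD.upd (fun _ => 22) 0 6) 2 6) 0 3) 1 19) 1 9) 1 7) 1 6) 1 5) :=
  BlkD.NdX.tree s22_22_6_6_27 ok22_22_6_6 (by decide) hn

/-- a subtree -/
def t22_22_6_6_28 : BlkD.Tr :=
  .L 7 7 [4, 4, 5, 5, 5, 22, 22] [124, 120, 116, 104, 92, 80] [] 100000 66667 66667 1100000 0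
    100000 66667 100000 0 0 0

lemma s22_22_6_6_28 : BlkD.treeX d22_22_6_6 (BlkD.exF 6 6 x22_22_6_6) t22_22_6_6_28
    (BlkD.upd (BlkD.upd (BlkD.upd (BlkD.upd (fun _ => 0) 0 2) 0 3) 1 5) 1 6)
    (BlkD.upd (BlkD.upd (BlkD.upd (BlkD.upd (BlkD.upd (BlkD.upd (BlkD.upd (BlkD.upd (BlkD.upd (fun _ => 22) 0 6) 2 6) 0 3) 1 19) 1 9) 1 7) 1 6) 2 3) 2 1) = true := by
  decide +kernel

lemma n22_22_6_6_28 {n : ℕ} (hn : 5 ≤ n) : BlkD.NdX d22_22_6_6 (BlkD.exF 6 6 x22_22_6_6) n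
    (BlkD.upd (BlkD.upd (BlkD.upd (BlkD.upd (fun _ => 0) 0 2) 0 3) 1 5) 1 6)
    (BlkD.upd (BlkD.upd (BlkD.upd (BlkD.upd (BlkD.upd (BlkD.upd (BlkD.upd (BlkD.upd (BlkD.upd (fun _ => 22) 0 6) 2 6) 0 3) 1 19) 1 9) 1 7) 1 6) 2 3) 2 1) :=
  BlkD.NdX.tree s22_22_6_6_28 ok22_22_6_6 (by decide) hn

/-- a subtree -/
def t22_22_6_6_29 : BlkD.Tr :=
  .S 3 11 (.S 3 5 (.S 3 2 (.L 7 7 [4, 4, 5, 5, 5, 22, 22] [124, 120, 116, 104, 92, 80] [] 100000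
    25000 24999 1300000 0 0 0 0 0 0 33333) (.S 3 4 (.L 7 7 [4, 4, 5, 5, 5, 22, 22] [124, 120, 116,
    104, 92, 80] [] 100000 43284 43284 1320896 29851 29851 59701 44776 5970 0 23383) (.S 4 6 (.S 4
    3 (.S 4 1 (.E 2) (.S 4 2 (.L 7 7 [4, 4, 5, 5, 5, 22, 22] [92, 80, 66, 0, 0, 0] [94, 90, 78, 66,
    54, 40] 100000 35714 35714 1342860 28571 28571 57143 57143 14286 0 14286) (.L 7 7 [4, 4, 5, 5,
    5, 22, 22] [104, 92, 80, 66, 0, 0] [94, 90, 78, 66, 54, 40] 100000 25000 25000 1386000 16000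
    26000 52000 44000 26000 0 29000))) (.L 7 7 [4, 4, 5, 5, 5, 22, 22] [124, 120, 116, 104, 92, 80]
    [94, 90, 78, 66, 54, 40] 100000 33334 33334 1333332 0 27778 77778 66667 0 0 22222)) (.E 2))))
    (.S 3 8 (.S 3 7 (.S 3 6 (.S 4 6 (.S 4 3 (.L 6 6 [4, 4, 5, 5, 6, 22, 22] [104, 92, 80, 66, 0, 0]
    [112, 108, 104, 92, 80, 68] 100000 20371 20371 1414815 16667 20833 58333 56019 34722 37037
    9722) (.L 6 6 [4, 4, 5, 5, 6, 22, 22] [124, 120, 116, 104, 92, 80] [112, 108, 104, 92, 80, 68]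
    100000 75000 75000 1150000 0 50000 100000 100000 0 0 0)) (.E 2)) (.L 6 6 [4, 4, 5, 5, 6, 22,
    22] [124, 120, 116, 104, 92, 80] [128, 128, 124, 120, 108, 96] 100000 75000 75000 1150000 0
    50000 100000 100000 0 0 0)) (.E 2)) (.E 1))) (.E 1)

lemma s22_22_6_6_29 : BlkD.treeX d22_22_6_6 (BlkD.exF 6 6 x22_22_6_6) t22_22_6_6_29
    (BlkD.upd (BlkD.upd (BlkD.upd (BlkD.upd (BlkD.upd (fun _ => 0) 0 2) 0 3) 1 5) 1 6) 2 2)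
    (BlkD.upd (BlkD.upd (BlkD.upd (BlkD.upd (BlkD.upd (BlkD.upd (BlkD.upd (BlkD.upd (BlkD.upd (fun _ => 22) 0 6) 2 6) 0 3) 1 19) 1 9) 1 7) 1 6) 2 3) 2 2) = true := by
  decide +kernel

lemma n22_22_6_6_29 {n : ℕ} (hn : 5 ≤ n) : BlkD.NdX d22_22_6_6 (BlkD.exF 6 6 x22_22_6_6) n
    (BlkD.upd (BlkD.upd (BlkD.upd (BlkD.upd (BlkD.upd (fun _ => 0) 0 2) 0 3) 1 5) 1 6) 2 2)
    (BlkD.upd (BlkD.upd (BlkD.upd (BlkD.upd (BlkD.upd (BlkD.upd (BlkD.upd (BlkD.upd (BlkD.upd (fun _ => 22) 0 6) 2 6) 0 3) 1 19) 1 9) 1 7) 1 6) 2 3) 2 2) :=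
  BlkD.NdX.tree s22_22_6_6_29 ok22_22_6_6 (by decide) hn

/-- a subtree -/
def t22_22_6_6_30 : BlkD.Tr :=
  .L 6 6 [4, 4, 5, 5, 6, 22, 22] [124, 120, 116, 104, 92, 80] [] 100000 25000 24999 1359184 8163
    16327 71429 24490 20408 0 28571

lemma s22_22_6_6_30 : BlkD.treeX d22_22_6_6 (BlkD.exF 6 6 x22_22_6_6) t22_22_6_6_30
    (BlkD.upd (BlkD.upd (BlkD.upd (BlkD.upd (BlkD.upd (BlkD.upd (fun _ => 0) 0 2) 0 3) 1 5) 1 6) 2 2) 2 3)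
    (BlkD.upd (BlkD.upd (BlkD.upd (BlkD.upd (BlkD.upd (BlkD.upd (BlkD.upd (BlkD.upd (BlkD.upd (BlkD.upd (BlkD.upd (fun _ => 22) 0 6) 2 6) 0 3) 1 19) 1 9) 1 7) 1 6) 2 3) 3 10) 3 5) 3 2) = true := by
  decide +kernel

lemma n22_22_6_6_30 {n : ℕ} (hn : 5 ≤ n) : BlkD.NdX d22_22_6_6 (BlkD.exF 6 6 x22_22_6_6) n
    (BlkD.upd (BlkD.upd (BlkD.upd (BlkD.upd (BlkD.upd (BlkD.upd (fun _ => 0) 0 2) 0 3) 1 5) 1 6) 2 2) 2 3)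
    (BlkD.upd (BlkD.upd (BlkD.upd (BlkD.upd (BlkD.upd (BlkD.upd (BlkD.upd (BlkD.upd (BlkD.upd (BlkD.upd (BlkD.upd (fun _ => 22) 0 6) 2 6) 0 3) 1 19) 1 9) 1 7) 1 6) 2 3) 3 10) 3 5) 3 2) :=
  BlkD.NdX.tree s22_22_6_6_30 ok22_22_6_6 (by decide) hn

/-- a subtree -/
def t22_22_6_6_31 : BlkD.Tr :=
  .S 4 6 (.S 4 3 (.L 7 7 [4, 4, 5, 5, 5, 22, 22] [104, 92, 80, 66, 0, 0] [62, 50, 38, 24, 0, 0]
    100000 22620 22620 1404761 16667 16667 54762 57143 21429 4762 30952) (.L 7 7 [4, 4, 5, 5, 5,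
    22, 22] [124, 120, 116, 104, 92, 80] [62, 50, 38, 24, 0, 0] 100000 20184 20184 1405965 5963
    5963 80275 63761 10092 9633 26606)) (.E 2)

lemma s22_22_6_6_31 : BlkD.treeX d22_22_6_6 (BlkD.exF 6 6 x22_22_6_6) t22_22_6_6_31
    (BlkD.upd (BlkD.upd (BlkD.upd (BlkD.upd (BlkD.upd (BlkD.upd (BlkD.upd (fun _ => 0) 0 2) 0 3) 1 5) 1 6) 2 2) 2 3) 3 3)
    (BlkD.upd (BlkD.upd (BlkD.upd (BlkD.upd (BlkD.upd (BlkD.upd (BlkD.upd (BlkD.upd (BlkD.upd (BlkD.upd (BlkD.upd (BlkD.upd (fun _ => 22) 0 6) 2 6) 0 3) 1 19) 1 9) 1 7) 1 6) 2 3) 3 10) 3 5) 3 4) 3 3) = true := by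
  decide +kernel

lemma n22_22_6_6_31 {n : ℕ} (hn : 5 ≤ n) : BlkD.NdX d22_22_6_6 (BlkD.exF 6 6 x22_22_6_6) n
    (BlkD.upd (BlkD.upd (BlkD.upd (BlkD.upd (BlkD.upd (BlkD.upd (BlkD.upd (fun _ => 0) 0 2) 0 3) 1 5) 1 6) 2 2) 2 3) 3 3)
    (BlkD.upd (BlkD.upd (BlkD.upd (BlkD.upd (BlkD.upd (BlkD.upd (BlkD.upd (BlkD.upd (BlkD.upd (BlkD.upd (BlkD.upd (BlkD.upd (fun _ => 22) 0 6) 2 6) 0 3) 1 19) 1 9) 1 7) 1 6) 2 3) 3 10) 3 5) 3 4) 3 3) :=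
  BlkD.NdX.tree s22_22_6_6_31 ok22_22_6_6 (by decide) hn

/-- a subtree -/
def t22_22_6_6_32 : BlkD.Tr :=
  .E 2

lemma s22_22_6_6_32 : BlkD.treeX d22_22_6_6 (BlkD.exF 6 6 x22_22_6_6) t22_22_6_6_32
    (BlkD.upd (BlkD.upd (BlkD.upd (BlkD.upd (BlkD.upd (BlkD.upd (BlkD.upd (BlkD.upd (fun _ => 0) 0 2) 0 3) 1 5) 1 6) 2 2) 2 3) 3 3) 3 4)
    (BlkD.upd (BlkD.upd (BlkD.upd (BlkD.upd (BlkD.upd (BlkD.upd (BlkD.upd (BlkD.upd (BlkD.upd (BlkD.upd (BlkD.upd (BlkD.upd (BlkD.upd (BlkD.upd (fun _ => 22) 0 6) 2 6) 0 3) 1 19) 1 9) 1 7) 1 6) 2 3) 3 10) 3 5) 3 4) 4 6) 4 3) 4 1) = true := by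
  decide +kernel

lemma n22_22_6_6_32 {n : ℕ} (hn : 5 ≤ n) : BlkD.NdX d22_22_6_6 (BlkD.exF 6 6 x22_22_6_6) n
    (BlkD.upd (BlkD.upd (BlkD.upd (BlkD.upd (BlkD.upd (BlkD.upd (BlkD.upd (BlkD.upd (fun _ => 0) 0 2) 0 3) 1 5) 1 6) 2 2) 2 3) 3 3) 3 4)
    (BlkD.upd (BlkD.upd (BlkD.upd (BlkD.upd (BlkD.upd (BlkD.upd (BlkD.upd (BlkD.upd (BlkD.upd (BlkD.upd (BlkD.upd (BlkD.upd (BlkD.upd (BlkD.upd (fun _ => 22) 0 6) 2 6) 0 3) 1 19) 1 9) 1 7) 1 6) 2 3) 3 10) 3 5) 3 4) 4 6) 4 3) 4 1) :=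
  BlkD.NdX.tree s22_22_6_6_32 ok22_22_6_6 (by decide) hn

/-- a subtree -/
def t22_22_6_6_33 : BlkD.Tr :=
  .L 7 7 [4, 4, 5, 5, 5, 22, 22] [92, 80, 66, 0, 0, 0] [36, 0, 0, 0, 0, 0] 100000 38776 38776
    1287756 37755 37755 85714 0 1020 47959 19388

lemma s22_22_6_6_33 : BlkD.treeX d22_22_6_6 (BlkD.exF 6 6 x22_22_6_6) t22_22_6_6_33
    (BlkD.upd (BlkD.upd (BlkD.upd (BlkD.upd (BlkD.upd (BlkD.upd (BlkD.upd (BlkD.upd (BlkD.upd (fun _ => 0) 0 2) 0 3) 1 5) 1 6) 2 2) 2 3) 3 3) 3 4) 4 2)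
    (BlkD.upd (BlkD.upd (BlkD.upd (BlkD.upd (BlkD.upd (BlkD.upd (BlkD.upd (BlkD.upd (BlkD.upd (BlkD.upd (BlkD.upd (BlkD.upd (BlkD.upd (BlkD.upd (BlkD.upd (BlkD.upd (BlkD.upd (BlkD.upd (fun _ => 22) 0 6) 2 6) 0 3) 1 19) 1 9) 1 7) 1 6) 2 3) 3 10) 3 5) 3 4) 4 6) 4 3) 4 2) 5 4) 5 2) 5 1) 5 0) = true := by
  decide +kernel

lemma n22_22_6_6_33 {n : ℕ} (hn : 5 ≤ n) : BlkD.NdX d22_22_6_6 (BlkD.exF 6 6 x22_22_6_6) n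
    (BlkD.upd (BlkD.upd (BlkD.upd (BlkD.upd (BlkD.upd (BlkD.upd (BlkD.upd (BlkD.upd (BlkD.upd (fun _ => 0) 0 2) 0 3) 1 5) 1 6) 2 2) 2 3) 3 3) 3 4) 4 2)
    (BlkD.upd (BlkD.upd (BlkD.upd (BlkD.upd (BlkD.upd (BlkD.upd (BlkD.upd (BlkD.upd (BlkD.upd (BlkD.upd (BlkD.upd (BlkD.upd (BlkD.upd (BlkD.upd (BlkD.upd (BlkD.upd (BlkD.upd (BlkD.upd (fun _ => 22) 0 6) 2 6) 0 3) 1 19) 1 9) 1 7) 1 6) 2 3) 3 10) 3 5) 3 4) 4 6) 4 3) 4 2) 5 4) 5 2) 5 1) 5 0) :=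
  BlkD.NdX.tree s22_22_6_6_33 ok22_22_6_6 (by decide) hn

/-- a subtree -/
def t22_22_6_6_34 : BlkD.Tr :=
  .L 7 7 [4, 4, 5, 5, 5, 22, 22] [92, 80, 66, 0, 0, 0] [62, 50, 36, 0, 0, 0] 100000 25000 25000
    1340000 20000 0 40000 100000 40000 0 20000

lemma s22_22_6_6_34 : BlkD.treeX d22_22_6_6 (BlkD.exF 6 6 x22_22_6_6) t22_22_6_6_34
    (BlkD.upd (BlkD.upd (BlkD.upd (BlkD.upd (BlkD.upd (BlkD.upd (BlkD.upd (BlkD.upd (BlkD.upd (BlkD.upd (fun _ => 0) 0 2) 0 3) 1 5) 1 6) 2 2) 2 3) 3 3) 3 4) 4 2) 5 2)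
    (BlkD.upd (BlkD.upd (BlkD.upd (BlkD.upd (BlkD.upd (BlkD.upd (BlkD.upd (BlkD.upd (BlkD.upd (BlkD.upd (BlkD.upd (BlkD.upd (BlkD.upd (BlkD.upd (BlkD.upd (BlkD.upd (fun _ => 22) 0 6) 2 6) 0 3) 1 19) 1 9) 1 7) 1 6) 2 3) 3 10) 3 5) 3 4) 4 6) 4 3) 4 2) 5 4) 5 2) = true := by
  decide +kernel

lemma n22_22_6_6_34 {n : ℕ} (hn : 5 ≤ n) : BlkD.NdX d22_22_6_6 (BlkD.exF 6 6 x22_22_6_6) n
    (BlkD.upd (BlkD.upd (BlkD.upd (BlkD.upd (BlkD.upd (BlkD.upd (BlkD.upd (BlkD.upd (BlkD.upd (BlkD.upd (fun _ => 0) 0 2) 0 3) 1 5) 1 6) 2 2) 2 3) 3 3) 3 4) 4 2) 5 2)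
    (BlkD.upd (BlkD.upd (BlkD.upd (BlkD.upd (BlkD.upd (BlkD.upd (BlkD.upd (BlkD.upd (BlkD.upd (BlkD.upd (BlkD.upd (BlkD.upd (BlkD.upd (BlkD.upd (BlkD.upd (BlkD.upd (fun _ => 22) 0 6) 2 6) 0 3) 1 19) 1 9) 1 7) 1 6) 2 3) 3 10) 3 5) 3 4) 4 6) 4 3) 4 2) 5 4) 5 2) :=
  BlkD.NdX.tree s22_22_6_6_34 ok22_22_6_6 (by decide) hn

/-- a subtree -/
def t22_22_6_6_35 : BlkD.Tr :=
  .L 7 7 [4, 4, 5, 5, 5, 22, 22] [92, 80, 66, 0, 0, 0] [86, 74, 62, 50, 36, 0] 100000 41667 0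
    1108333 22222 0 44444 141667 27778 0 13889

lemma s22_22_6_6_35 : BlkD.treeX d22_22_6_6 (BlkD.exF 6 6 x22_22_6_6) t22_22_6_6_35
    (BlkD.upd (BlkD.upd (BlkD.upd (BlkD.upd (BlkD.upd (BlkD.upd (BlkD.upd (BlkD.upd (BlkD.upd (BlkD.upd (fun _ => 0) 0 2) 0 3) 1 5) 1 6) 2 2) 2 3) 3 3) 3 4) 4 2) 5 3)
    (BlkD.upd (BlkD.upd (BlkD.upd (BlkD.upd (BlkD.upd (BlkD.upd (BlkD.upd (BlkD.upd (BlkD.upd (BlkD.upd (BlkD.upd (BlkD.upd (BlkD.upd (BlkD.upd (BlkD.upd (fun _ => 22) 0 6) 2 6) 0 3) 1 19) 1 9) 1 7) 1 6) 2 3) 3 10) 3 5) 3 4) 4 6) 4 3) 4 2) 5 4) = true := by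
  decide +kernel

lemma n22_22_6_6_35 {n : ℕ} (hn : 5 ≤ n) : BlkD.NdX d22_22_6_6 (BlkD.exF 6 6 x22_22_6_6) n
    (BlkD.upd (BlkD.upd (BlkD.upd (BlkD.upd (BlkD.upd (BlkD.upd (BlkD.upd (BlkD.upd (BlkD.upd (BlkD.upd (fun _ => 0) 0 2) 0 3) 1 5) 1 6) 2 2) 2 3) 3 3) 3 4) 4 2) 5 3)
    (BlkD.upd (BlkD.upd (BlkD.upd (BlkD.upd (BlkD.upd (BlkD.upd (BlkD.upd (BlkD.upd (BlkD.upd (BlkD.upd (BlkD.upd (BlkD.upd (BlkD.upd (BlkD.upd (BlkD.upd (fun _ => 22) 0 6) 2 6) 0 3) 1 19) 1 9) 1 7) 1 6) 2 3) 3 10) 3 5) 3 4) 4 6) 4 3) 4 2) 5 4) :=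
  BlkD.NdX.tree s22_22_6_6_35 ok22_22_6_6 (by decide) hn

/-- a subtree -/
def t22_22_6_6_36 : BlkD.Tr :=
  .E 2

lemma s22_22_6_6_36 : BlkD.treeX d22_22_6_6 (BlkD.exF 6 6 x22_22_6_6) t22_22_6_6_36
    (BlkD.upd (BlkD.upd (BlkD.upd (BlkD.upd (BlkD.upd (BlkD.upd (BlkD.upd (BlkD.upd (BlkD.upd (BlkD.upd (fun _ => 0) 0 2) 0 3) 1 5) 1 6) 2 2) 2 3) 3 3) 3 4) 4 2) 5 5)
    (BlkD.upd (BlkD.upd (BlkD.upd (BlkD.upd (BlkD.upd (BlkD.upd (BlkD.upd (BlkD.upd (BlkD.upd (BlkD.upd (BlkD.upd (BlkD.upd (BlkD.upd (BlkD.upd (fun _ => 22) 0 6) 2 6) 0 3) 1 19) 1 9) 1 7) 1 6) 2 3) 3 10) 3 5) 3 4) 4 6) 4 3) 4 2) = true := by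
  decide +kernel

lemma n22_22_6_6_36 {n : ℕ} (hn : 5 ≤ n) : BlkD.NdX d22_22_6_6 (BlkD.exF 6 6 x22_22_6_6) n
    (BlkD.upd (BlkD.upd (BlkD.upd (BlkD.upd (BlkD.upd (BlkD.upd (BlkD.upd (BlkD.upd (BlkD.upd (BlkD.upd (fun _ => 0) 0 2) 0 3) 1 5) 1 6) 2 2) 2 3) 3 3) 3 4) 4 2) 5 5)
    (BlkD.upd (BlkD.upd (BlkD.upd (BlkD.upd (BlkD.upd (BlkD.upd (BlkD.upd (BlkD.upd (BlkD.upd (BlkD.upd (BlkD.upd (BlkD.upd (BlkD.upd (BlkD.upd (fun _ => 22) 0 6) 2 6) 0 3) 1 19) 1 9) 1 7) 1 6) 2 3) 3 10) 3 5) 3 4) 4 6) 4 3) 4 2) :=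
  BlkD.NdX.tree s22_22_6_6_36 ok22_22_6_6 (by decide) hn

/-- a subtree -/
def t22_22_6_6_37 : BlkD.Tr :=
  .S 5 4 (.S 5 2 (.S 5 1 (.L 7 7 [4, 4, 5, 5, 5, 22, 22] [104, 92, 80, 66, 0, 0] [50, 36, 0, 0, 0,
    0] 100000 9375 9375 1425000 12500 12500 62500 50000 37500 37500 25000) (.L 7 7 [4, 4, 5, 5, 5,
    22, 22] [104, 92, 80, 66, 0, 0] [62, 50, 36, 0, 0, 0] 100000 25000 25000 1340000 20000 0 40000
    100000 60000 0 20000)) (.L 7 7 [4, 4, 5, 5, 5, 22, 22] [104, 92, 80, 66, 0, 0] [86, 74, 62, 50,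
    36, 0] 100000 33334 1 1166668 11111 0 22222 133333 33333 0 11111)) (.E 2)

lemma s22_22_6_6_37 : BlkD.treeX d22_22_6_6 (BlkD.exF 6 6 x22_22_6_6) t22_22_6_6_37
    (BlkD.upd (BlkD.upd (BlkD.upd (BlkD.upd (BlkD.upd (BlkD.upd (BlkD.upd (BlkD.upd (BlkD.upd (BlkD.upd (fun _ => 0) 0 2) 0 3) 1 5) 1 6) 2 2) 2 3) 3 3) 3 4) 4 2) 4 3)
    (BlkD.upd (BlkD.upd (BlkD.upd (BlkD.upd (BlkD.upd (BlkD.upd (BlkD.upd (BlkD.upd (BlkD.upd (BlkD.upd (BlkD.upd (BlkD.upd (BlkD.upd (fun _ => 22) 0 6) 2 6) 0 3) 1 19) 1 9) 1 7) 1 6) 2 3) 3 10) 3 5) 3 4) 4 6) 4 3) = true := by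
  decide +kernel

lemma n22_22_6_6_37 {n : ℕ} (hn : 5 ≤ n) : BlkD.NdX d22_22_6_6 (BlkD.exF 6 6 x22_22_6_6) n
    (BlkD.upd (BlkD.upd (BlkD.upd (BlkD.upd (BlkD.upd (BlkD.upd (BlkD.upd (BlkD.upd (BlkD.upd (BlkD.upd (fun _ => 0) 0 2) 0 3) 1 5) 1 6) 2 2) 2 3) 3 3) 3 4) 4 2) 4 3)
    (BlkD.upd (BlkD.upd (BlkD.upd (BlkD.upd (BlkD.upd (BlkD.upd (BlkD.upd (BlkD.upd (BlkD.upd (BlkD.upd (BlkD.upd (BlkD.upd (BlkD.upd (fun _ => 22) 0 6) 2 6) 0 3) 1 19) 1 9) 1 7) 1 6) 2 3) 3 10) 3 5) 3 4) 4 6) 4 3) :=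
  BlkD.NdX.tree s22_22_6_6_37 ok22_22_6_6 (by decide) hn

/-- a subtree -/
def t22_22_6_6_38 : BlkD.Tr :=
  .L 7 7 [4, 4, 5, 5, 5, 22, 22] [124, 120, 116, 104, 92, 80] [86, 74, 62, 50, 36, 0] 100000 31395
    31394 1368605 0 10465 100000 75000 0 5814 25000

lemma s22_22_6_6_38 : BlkD.treeX d22_22_6_6 (BlkD.exF 6 6 x22_22_6_6) t22_22_6_6_38
    (BlkD.upd (BlkD.upd (BlkD.upd (BlkD.upd (BlkD.upd (BlkD.upd (BlkD.upd (BlkD.upd (BlkD.upd (fun _ => 0) 0 2) 0 3) 1 5) 1 6) 2 2) 2 3) 3 3) 3 4) 4 4)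
    (BlkD.upd (BlkD.upd (BlkD.upd (BlkD.upd (BlkD.upd (BlkD.upd (BlkD.upd (BlkD.upd (BlkD.upd (BlkD.upd (BlkD.upd (BlkD.upd (fun _ => 22) 0 6) 2 6) 0 3) 1 19) 1 9) 1 7) 1 6) 2 3) 3 10) 3 5) 3 4) 4 6) = true := by
  decide +kernel

lemma n22_22_6_6_38 {n : ℕ} (hn : 5 ≤ n) : BlkD.NdX d22_22_6_6 (BlkD.exF 6 6 x22_22_6_6) n
    (BlkD.upd (BlkD.upd (BlkD.upd (BlkD.upd (BlkD.upd (BlkD.upd (BlkD.upd (BlkD.upd (BlkD.upd (fun _ => 0) 0 2) 0 3) 1 5) 1 6) 2 2) 2 3) 3 3) 3 4) 4 4)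
    (BlkD.upd (BlkD.upd (BlkD.upd (BlkD.upd (BlkD.upd (BlkD.upd (BlkD.upd (BlkD.upd (BlkD.upd (BlkD.upd (BlkD.upd (BlkD.upd (fun _ => 22) 0 6) 2 6) 0 3) 1 19) 1 9) 1 7) 1 6) 2 3) 3 10) 3 5) 3 4) 4 6) :=
  BlkD.NdX.tree s22_22_6_6_38 ok22_22_6_6 (by decide) hn

/-- a subtree -/
def t22_22_6_6_39 : BlkD.Tr :=
  .E 2

lemma s22_22_6_6_39 : BlkD.treeX d22_22_6_6 (BlkD.exF 6 6 x22_22_6_6) t22_22_6_6_39
    (BlkD.upd (BlkD.upd (BlkD.upd (BlkD.upd (BlkD.upd (BlkD.upd (BlkD.upd (BlkD.upd (BlkD.upd (fun _ => 0) 0 2) 0 3) 1 5) 1 6) 2 2) 2 3) 3 3) 3 4) 4 7)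
    (BlkD.upd (BlkD.upd (BlkD.upd (BlkD.upd (BlkD.upd (BlkD.upd (BlkD.upd (BlkD.upd (BlkD.upd (BlkD.upd (BlkD.upd (fun _ => 22) 0 6) 2 6) 0 3) 1 19) 1 9) 1 7) 1 6) 2 3) 3 10) 3 5) 3 4) = true := by
  decide +kernel

lemma n22_22_6_6_39 {n : ℕ} (hn : 5 ≤ n) : BlkD.NdX d22_22_6_6 (BlkD.exF 6 6 x22_22_6_6) n
    (BlkD.upd (BlkD.upd (BlkD.upd (BlkD.upd (BlkD.upd (BlkD.upd (BlkD.upd (BlkD.upd (BlkD.upd (fun _ => 0) 0 2) 0 3) 1 5) 1 6) 2 2) 2 3) 3 3) 3 4) 4 7)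
    (BlkD.upd (BlkD.upd (BlkD.upd (BlkD.upd (BlkD.upd (BlkD.upd (BlkD.upd (BlkD.upd (BlkD.upd (BlkD.upd (BlkD.upd (fun _ => 22) 0 6) 2 6) 0 3) 1 19) 1 9) 1 7) 1 6) 2 3) 3 10) 3 5) 3 4) :=
  BlkD.NdX.tree s22_22_6_6_39 ok22_22_6_6 (by decide) hn

/-- a subtree -/
def t22_22_6_6_40 : BlkD.Tr :=
  .S 4 6 (.S 4 3 (.S 4 1 (.E 2) (.S 4 2 (.S 5 5 (.S 5 2 (.S 5 1 (.L 7 7 [4, 4, 5, 5, 5, 22, 22]
    [92, 80, 66, 0, 0, 0] [64, 50, 0, 0, 0, 0] 100000 44186 44186 1244187 0 81395 34884 60465 62791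
    41860 20930) (.L 9 9 [4, 5, 5, 4, 4, 22, 22] [92, 80, 66, 0, 0, 0] [76, 64, 50, 0, 0, 0] 100000
    20000 19999 1416363 9091 9091 47273 100000 36364 20000 20000)) (.L 9 9 [4, 5, 5, 4, 4, 22, 22]
    [92, 80, 66, 0, 0, 0] [104, 100, 88, 76, 64, 50] 100000 20000 20000 1325716 8571 8571 48571
    100000 42857 20000 20000)) (.E 2)) (.L 9 9 [4, 5, 5, 4, 4, 22, 22] [104, 92, 80, 66, 0, 0]
    [104, 100, 88, 76, 64, 50] 100000 20270 20269 1378380 5405 5405 100000 55405 18919 39189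
    18919))) (.L 9 9 [4, 5, 5, 4, 4, 22, 22] [124, 120, 116, 104, 92, 80] [104, 100, 88, 76, 64,
    50] 100000 40000 39999 1286666 0 6667 100000 100000 0 0 20000)) (.E 2)

lemma s22_22_6_6_40 : BlkD.treeX d22_22_6_6 (BlkD.exF 6 6 x22_22_6_6) t22_22_6_6_40
    (BlkD.upd (BlkD.upd (BlkD.upd (BlkD.upd (BlkD.upd (BlkD.upd (BlkD.upd (BlkD.upd (fun _ => 0) 0 2) 0 3) 1 5) 1 6) 2 2) 2 3) 3 3) 3 5)
    (BlkD.upd (BlkD.upd (BlkD.upd (BlkD.upd (BlkD.upd (BlkD.upd (BlkD.upd (BlkD.upd (BlkD.upd (BlkD.upd (fun _ => 22) 0 6) 2 6) 0 3) 1 19) 1 9) 1 7) 1 6) 2 3) 3 10) 3 5) = true := by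
  decide +kernel

lemma n22_22_6_6_40 {n : ℕ} (hn : 5 ≤ n) : BlkD.NdX d22_22_6_6 (BlkD.exF 6 6 x22_22_6_6) n
    (BlkD.upd (BlkD.upd (BlkD.upd (BlkD.upd (BlkD.upd (BlkD.upd (BlkD.upd (BlkD.upd (fun _ => 0) 0 2) 0 3) 1 5) 1 6) 2 2) 2 3) 3 3) 3 5)
    (BlkD.upd (BlkD.upd (BlkD.upd (BlkD.upd (BlkD.upd (BlkD.upd (BlkD.upd (BlkD.upd (BlkD.upd (BlkD.upd (fun _ => 22) 0 6) 2 6) 0 3) 1 19) 1 9) 1 7) 1 6) 2 3) 3 10) 3 5) :=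
  BlkD.NdX.tree s22_22_6_6_40 ok22_22_6_6 (by decide) hn

/-- a subtree -/
def t22_22_6_6_41 : BlkD.Tr :=
  .S 3 8 (.S 3 7 (.S 3 6 (.S 4 6 (.S 4 3 (.L 5 5 [4, 4, 5, 6, 7, 22, 22] [104, 92, 80, 66, 0, 0]
    [124, 120, 116, 104, 92, 80] 100000 45000 45000 1310000 40000 25000 85000 30000 0 55000 15000)
    (.L 5 5 [4, 4, 5, 6, 7, 22, 22] [124, 120, 116, 104, 92, 80] [124, 120, 116, 104, 92, 80]
    100000 100000 33332 799998 0 0 166667 166667 0 0 0)) (.E 2)) (.E 2)) (.E 1)) (.E 1)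

lemma s22_22_6_6_41 : BlkD.treeX d22_22_6_6 (BlkD.exF 6 6 x22_22_6_6) t22_22_6_6_41
    (BlkD.upd (BlkD.upd (BlkD.upd (BlkD.upd (BlkD.upd (BlkD.upd (BlkD.upd (fun _ => 0) 0 2) 0 3) 1 5) 1 6) 2 2) 2 3) 3 6)
    (BlkD.upd (BlkD.upd (BlkD.upd (BlkD.upd (BlkD.upd (BlkD.upd (BlkD.upd (BlkD.upd (BlkD.upd (fun _ => 22) 0 6) 2 6) 0 3) 1 19) 1 9) 1 7) 1 6) 2 3) 3 10) = true := by
  decide +kernel

lemma n22_22_6_6_41 {n : ℕ} (hn : 5 ≤ n) : BlkD.NdX d22_22_6_6 (BlkD.exF 6 6 x22_22_6_6) n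
    (BlkD.upd (BlkD.upd (BlkD.upd (BlkD.upd (BlkD.upd (BlkD.upd (BlkD.upd (fun _ => 0) 0 2) 0 3) 1 5) 1 6) 2 2) 2 3) 3 6)
    (BlkD.upd (BlkD.upd (BlkD.upd (BlkD.upd (BlkD.upd (BlkD.upd (BlkD.upd (BlkD.upd (BlkD.upd (fun _ => 22) 0 6) 2 6) 0 3) 1 19) 1 9) 1 7) 1 6) 2 3) 3 10) :=
  BlkD.NdX.tree s22_22_6_6_41 ok22_22_6_6 (by decide) hn

/-- a subtree -/
def t22_22_6_6_42 : BlkD.Tr :=
  .E 1

lemma s22_22_6_6_42 : BlkD.treeX d22_22_6_6 (BlkD.exF 6 6 x22_22_6_6) t22_22_6_6_42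
    (BlkD.upd (BlkD.upd (BlkD.upd (BlkD.upd (BlkD.upd (BlkD.upd (BlkD.upd (fun _ => 0) 0 2) 0 3) 1 5) 1 6) 2 2) 2 3) 3 11)
    (BlkD.upd (BlkD.upd (BlkD.upd (BlkD.upd (BlkD.upd (BlkD.upd (BlkD.upd (BlkD.upd (fun _ => 22) 0 6) 2 6) 0 3) 1 19) 1 9) 1 7) 1 6) 2 3) = true := by
  decide +kernel

lemma n22_22_6_6_42 {n : ℕ} (hn : 5 ≤ n) : BlkD.NdX d22_22_6_6 (BlkD.exF 6 6 x22_22_6_6) n
    (BlkD.upd (BlkD.upd (BlkD.upd (BlkD.upd (BlkD.upd (BlkD.upd (BlkD.upd (fun _ => 0) 0 2) 0 3) 1 5) 1 6) 2 2) 2 3) 3 11)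
    (BlkD.upd (BlkD.upd (BlkD.upd (BlkD.upd (BlkD.upd (BlkD.upd (BlkD.upd (BlkD.upd (fun _ => 22) 0 6) 2 6) 0 3) 1 19) 1 9) 1 7) 1 6) 2 3) :=
  BlkD.NdX.tree s22_22_6_6_42 ok22_22_6_6 (by decide) hn

/-- a subtree -/
def t22_22_6_6_43 : BlkD.Tr :=
  .S 2 5 (.S 2 4 (.S 3 9 (.S 3 4 (.S 3 2 (.S 3 1 (.L 5 5 [4, 4, 5, 6, 7, 22, 22] [124, 120, 116,
    104, 92, 80] [] 100000 25001 25001 1380645 6452 6452 74194 12903 25806 0 18548) (.S 4 6 (.S 4 3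
    (.L 6 6 [4, 4, 5, 5, 6, 22, 22] [104, 92, 80, 66, 0, 0] [44, 32, 18, 0, 0, 0] 100000 19828
    19828 1410346 13793 24138 37931 86207 53448 10345 22414) (.L 6 6 [4, 4, 5, 5, 6, 22, 22] [124,
    120, 116, 104, 92, 80] [44, 32, 18, 0, 0, 0] 100000 28572 28572 1321430 3571 3571 85714 85714 0
    0 28571)) (.E 2))) (.S 3 3 (.S 4 6 (.S 4 3 (.S 4 1 (.E 2) (.S 4 2 (.L 6 6 [4, 4, 5, 5, 6, 22,
    22] [92, 80, 66, 0, 0, 0] [68, 56, 44, 30, 0, 0] 100000 14611 14611 1436366 20779 6061 62338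
    63203 36364 22078 19481) (.L 6 6 [4, 4, 5, 5, 6, 22, 22] [104, 92, 80, 66, 0, 0] [68, 56, 44,
    30, 0, 0] 100000 26031 26031 1377321 24742 0 74227 74227 18557 18557 16495))) (.L 6 6 [4, 4, 5,
    5, 6, 22, 22] [124, 120, 116, 104, 92, 80] [68, 56, 44, 30, 0, 0] 100000 34375 34375 1306250 0
    12500 93750 93750 0 0 25000)) (.E 2)) (.S 4 6 (.S 4 3 (.S 4 1 (.E 2) (.S 4 2 (.S 5 4 (.S 5 2
    (.L 5 5 [4, 4, 5, 6, 7, 22, 22] [92, 80, 66, 0, 0, 0] [70, 58, 44, 0, 0, 0] 100000 38851 38851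
    1336490 32432 9797 97297 58446 0 17230 13514) (.L 5 5 [4, 4, 5, 6, 7, 22, 22] [92, 80, 66, 0,
    0, 0] [94, 82, 70, 58, 44, 0] 100000 20239 20239 1326190 4762 0 64286 100000 33333 19048
    19048)) (.E 2)) (.L 5 5 [4, 4, 5, 6, 7, 22, 22] [104, 92, 80, 66, 0, 0] [94, 82, 70, 58, 44, 0]
    100000 28750 28750 1325000 25000 0 100000 50000 0 30000 20000))) (.L 5 5 [4, 4, 5, 6, 7, 22,
    22] [124, 120, 116, 104, 92, 80] [94, 82, 70, 58, 44, 0] 100000 24623 24622 1325629 0 0 100000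
    74372 18593 7538 24874)) (.E 2)))) (.L 5 5 [4, 4, 5, 6, 7, 22, 22] [124, 120, 116, 104, 92, 80]
    [] 100000 40001 40001 1279998 16667 0 76667 100000 6667 0 20000)) (.E 1)) (.L 5 5 [4, 4, 5, 6,
    7, 22, 22] [124, 120, 116, 104, 92, 80] [] 100000 12750 12750 1444500 13875 0 72750 55000 29000
    36125 20000)) (.L 5 5 [4, 4, 5, 6, 7, 22, 22] [124, 120, 116, 104, 92, 80] [] 100000 18750
    18749 1366667 16667 0 83333 50000 12500 41667 20833)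

lemma s22_22_6_6_43 : BlkD.treeX d22_22_6_6 (BlkD.exF 6 6 x22_22_6_6) t22_22_6_6_43
    (BlkD.upd (BlkD.upd (BlkD.upd (BlkD.upd (BlkD.upd (fun _ => 0) 0 2) 0 3) 1 5) 1 6) 2 4)
    (BlkD.upd (BlkD.upd (BlkD.upd (BlkD.upd (BlkD.upd (BlkD.upd (BlkD.upd (fun _ => 22) 0 6) 2 6) 0 3) 1 19) 1 9) 1 7) 1 6) = true := by
  decide +kernel

lemma n22_22_6_6_43 {n : ℕ} (hn : 5 ≤ n) : BlkD.NdX d22_22_6_6 (BlkD.exF 6 6 x22_22_6_6) n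
    (BlkD.upd (BlkD.upd (BlkD.upd (BlkD.upd (BlkD.upd (fun _ => 0) 0 2) 0 3) 1 5) 1 6) 2 4)
    (BlkD.upd (BlkD.upd (BlkD.upd (BlkD.upd (BlkD.upd (BlkD.upd (BlkD.upd (fun _ => 22) 0 6) 2 6) 0 3) 1 19) 1 9) 1 7) 1 6) :=
  BlkD.NdX.tree s22_22_6_6_43 ok22_22_6_6 (by decide) hn

/-- a subtree -/
def t22_22_6_6_44 : BlkD.Tr :=
  .S 2 3 (.S 2 1 (.L 5 5 [4, 4, 5, 6, 7, 22, 22] [142, 142, 138, 134, 122, 110] [] 100000 87500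
    37500 900000 0 100000 150000 100000 0 0 0) (.S 2 2 (.S 3 10 (.S 3 5 (.S 3 2 (.L 5 5 [4, 4, 5,
    6, 7, 22, 22] [142, 142, 138, 134, 122, 110] [] 100000 39682 6348 1133334 0 0 133333 0 0 0
    14286) (.S 3 4 (.L 5 5 [4, 4, 5, 6, 7, 22, 22] [142, 142, 138, 134, 122, 110] [] 100000 38462
    38462 1292308 0 26923 100000 53846 15385 0 19231) (.L 5 5 [4, 4, 5, 6, 7, 22, 22] [142, 142,
    138, 134, 122, 110] [94, 90, 78, 66, 54, 40] 100000 77273 77273 1181820 0 54545 100000 100000 0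
    9091 0))) (.L 5 5 [4, 4, 5, 6, 7, 22, 22] [142, 142, 138, 134, 122, 110] [] 100000 35000 35000
    1300000 0 0 100000 100000 0 0 20000)) (.E 1)) (.S 3 9 (.S 3 4 (.S 3 2 (.L 5 5 [4, 4, 5, 6, 7,
    22, 22] [142, 142, 138, 134, 122, 110] [] 100000 25000 25000 1300000 0 0 100000 0 25000 0
    25000) (.S 3 3 (.L 9 9 [4, 5, 5, 4, 4, 22, 22] [142, 142, 138, 134, 122, 110] [62, 50, 38, 24,
    0, 0] 100000 22048 22048 1402363 2362 2362 100000 63780 22047 11811 24409) (.S 4 7 (.S 4 3 (.E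
    2) (.S 4 5 (.L 6 6 [4, 4, 5, 5, 6, 22, 22] [138, 134, 122, 110, 98, 84] [86, 74, 62, 50, 36, 0]
    100000 33334 33334 1362501 25000 4167 100000 50000 0 4167 25000) (.L 6 6 [4, 4, 5, 5, 6, 22,
    22] [142, 142, 138, 134, 122, 110] [86, 74, 62, 50, 36, 0] 100000 50000 0 1050000 0 0 150000
    100000 0 0 16667))) (.E 2)))) (.E 2)) (.E 1)))) (.L 6 6 [4, 4, 5, 5, 6, 22, 22] [142, 142, 138,
    134, 122, 110] [] 100000 22059 22059 1400002 0 0 100000 70588 23529 11765 23529)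

lemma s22_22_6_6_44 : BlkD.treeX d22_22_6_6 (BlkD.exF 6 6 x22_22_6_6) t22_22_6_6_44
    (BlkD.upd (BlkD.upd (BlkD.upd (BlkD.upd (fun _ => 0) 0 2) 0 3) 1 5) 1 7)
    (BlkD.upd (BlkD.upd (BlkD.upd (BlkD.upd (BlkD.upd (BlkD.upd (fun _ => 22) 0 6) 2 6) 0 3) 1 19) 1 9) 1 7) = true := by
  decide +kernel

lemma n22_22_6_6_44 {n : ℕ} (hn : 5 ≤ n) : BlkD.NdX d22_22_6_6 (BlkD.exF 6 6 x22_22_6_6) n
    (BlkD.upd (BlkD.upd (BlkD.upd (BlkD.upd (fun _ => 0) 0 2) 0 3) 1 5) 1 7)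
    (BlkD.upd (BlkD.upd (BlkD.upd (BlkD.upd (BlkD.upd (BlkD.upd (fun _ => 22) 0 6) 2 6) 0 3) 1 19) 1 9) 1 7) :=
  BlkD.NdX.tree s22_22_6_6_44 ok22_22_6_6 (by decide) hn

/-- a subtree -/
def t22_22_6_6_45 : BlkD.Tr :=
  .E 0

lemma s22_22_6_6_45 : BlkD.treeX d22_22_6_6 (BlkD.exF 6 6 x22_22_6_6) t22_22_6_6_45
    (BlkD.upd (BlkD.upd (BlkD.upd (BlkD.upd (fun _ => 0) 0 2) 0 3) 1 5) 1 8)
    (BlkD.upd (BlkD.upd (BlkD.upd (BlkD.upd (BlkD.upd (fun _ => 22) 0 6) 2 6) 0 3) 1 19) 1 9) = true := by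
  decide +kernel

lemma n22_22_6_6_45 {n : ℕ} (hn : 5 ≤ n) : BlkD.NdX d22_22_6_6 (BlkD.exF 6 6 x22_22_6_6) n
    (BlkD.upd (BlkD.upd (BlkD.upd (BlkD.upd (fun _ => 0) 0 2) 0 3) 1 5) 1 8)
    (BlkD.upd (BlkD.upd (BlkD.upd (BlkD.upd (BlkD.upd (fun _ => 22) 0 6) 2 6) 0 3) 1 19) 1 9) :=
  BlkD.NdX.tree s22_22_6_6_45 ok22_22_6_6 (by decide) hn

/-- a subtree -/
def t22_22_6_6_46 : BlkD.Tr :=
  .E 0

lemma s22_22_6_6_46 : BlkD.treeX d22_22_6_6 (BlkD.exF 6 6 x22_22_6_6) t22_22_6_6_46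
    (BlkD.upd (BlkD.upd (BlkD.upd (fun _ => 0) 0 2) 0 3) 1 10)
    (BlkD.upd (BlkD.upd (BlkD.upd (BlkD.upd (fun _ => 22) 0 6) 2 6) 0 3) 1 19) = true := by
  decide +kernel

lemma n22_22_6_6_46 {n : ℕ} (hn : 5 ≤ n) : BlkD.NdX d22_22_6_6 (BlkD.exF 6 6 x22_22_6_6) n
    (BlkD.upd (BlkD.upd (BlkD.upd (fun _ => 0) 0 2) 0 3) 1 10)
    (BlkD.upd (BlkD.upd (BlkD.upd (BlkD.upd (fun _ => 22) 0 6) 2 6) 0 3) 1 19) :=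
  BlkD.NdX.tree s22_22_6_6_46 ok22_22_6_6 (by decide) hn

/-- a subtree -/
def t22_22_6_6_47 : BlkD.Tr :=
  .E 0

lemma s22_22_6_6_47 : BlkD.treeX d22_22_6_6 (BlkD.exF 6 6 x22_22_6_6) t22_22_6_6_47
    (BlkD.upd (BlkD.upd (BlkD.upd (fun _ => 0) 0 2) 0 3) 1 20)
    (BlkD.upd (BlkD.upd (BlkD.upd (fun _ => 22) 0 6) 2 6) 0 3) = true := by
  decide +kernel

lemma n22_22_6_6_47 {n : ℕ} (hn : 5 ≤ n) : BlkD.NdX d22_22_6_6 (BlkD.exF 6 6 x22_22_6_6) n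
    (BlkD.upd (BlkD.upd (BlkD.upd (fun _ => 0) 0 2) 0 3) 1 20)
    (BlkD.upd (BlkD.upd (BlkD.upd (fun _ => 22) 0 6) 2 6) 0 3) :=
  BlkD.NdX.tree s22_22_6_6_47 ok22_22_6_6 (by decide) hn

/-- a subtree -/
def t22_22_6_6_48 : BlkD.Tr :=
  .S 1 1 (.L 6 6 [4, 4, 5, 5, 6, 22, 22] [] [] 100000 25000 25000 1391431 11429 2857 11429 85714 0
    14286 23810) (.S 2 3 (.S 2 1 (.L 6 6 [4, 4, 5, 5, 6, 22, 22] [44, 32, 18, 0, 0, 0] [] 100000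
    40244 40243 1195121 0 60976 63415 80488 0 0 14634) (.S 2 2 (.L 7 7 [4, 4, 5, 5, 5, 22, 22] [44,
    32, 18, 0, 0, 0] [] 100000 28022 28021 1379488 3846 28205 57326 64103 4212 7692 28205) (.S 3 13
    (.S 3 6 (.S 3 3 (.L 7 7 [4, 4, 5, 5, 5, 22, 22] [44, 32, 18, 0, 0, 0] [] 100000 35714 35714
    1200000 0 0 0 0 0 0 19048) (.S 3 5 (.L 7 7 [4, 4, 5, 5, 5, 22, 22] [44, 32, 18, 0, 0, 0] []
    100000 24643 24643 1386669 10000 10000 30952 60000 2381 6667 33333) (.S 4 2 (.S 4 1 (.S 4 0 (.L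
    7 7 [4, 4, 5, 5, 5, 22, 22] [18, 0, 0, 0, 0, 0] [124, 120, 116, 104, 92, 80] 100000 14437 14437
    1415495 16901 16901 0 56338 22535 21127 22535) (.L 7 7 [4, 4, 5, 5, 5, 22, 22] [32, 18, 0, 0,
    0, 0] [124, 120, 116, 104, 92, 80] 100000 25000 24999 1376239 10744 10744 91529 59711 0 16529
    22314)) (.L 7 7 [4, 4, 5, 5, 5, 22, 22] [44, 32, 18, 0, 0, 0] [124, 120, 116, 104, 92, 80]
    100000 26087 26087 1291305 0 10435 93913 65217 0 15652 21739)) (.E 2)))) (.L 7 7 [4, 4, 5, 5,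
    5, 22, 22] [44, 32, 18, 0, 0, 0] [] 100000 22059 22059 1400002 0 0 70588 100000 11765 23529
    23529)) (.E 1)))) (.S 2 5 (.S 2 4 (.S 3 12 (.S 3 6 (.S 3 3 (.L 7 7 [4, 4, 5, 5, 5, 22, 22] [44,
    32, 18, 0, 0, 0] [] 100000 25000 24999 1300000 0 0 0 0 0 0 33333) (.L 7 7 [4, 4, 5, 5, 5, 22,
    22] [44, 32, 18, 0, 0, 0] [] 100000 23382 23382 1406253 12500 8203 84263 64844 3237 22656
    25000)) (.E 1)) (.E 1)) (.L 7 7 [4, 4, 5, 5, 5, 22, 22] [44, 32, 18, 0, 0, 0] [] 100000 19806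
    19806 1397730 13636 2273 78247 75000 10390 13636 25000)) (.L 7 7 [4, 4, 5, 5, 5, 22, 22] [44,
    32, 18, 0, 0, 0] [] 100000 21000 21000 1356000 44000 0 92000 52000 8000 44000 22000)))

lemma s22_22_6_6_48 : BlkD.treeX d22_22_6_6 (BlkD.exF 6 6 x22_22_6_6) t22_22_6_6_48
    (BlkD.upd (fun _ => 0) 0 4)
    (BlkD.upd (BlkD.upd (BlkD.upd (BlkD.upd (BlkD.upd (BlkD.upd (BlkD.upd (BlkD.upd (fun _ => 22) 0 6) 2 6) 0 5) 0 4) 1 18) 1 9) 1 4) 1 2) = true := by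
  decide +kernel

lemma n22_22_6_6_48 {n : ℕ} (hn : 5 ≤ n) : BlkD.NdX d22_22_6_6 (BlkD.exF 6 6 x22_22_6_6) n
    (BlkD.upd (fun _ => 0) 0 4)
    (BlkD.upd (BlkD.upd (BlkD.upd (BlkD.upd (BlkD.upd (BlkD.upd (BlkD.upd (BlkD.upd (fun _ => 22) 0 6) 2 6) 0 5) 0 4) 1 18) 1 9) 1 4) 1 2) :=
  BlkD.NdX.tree s22_22_6_6_48 ok22_22_6_6 (by decide) hn

end BlkC

end Pool.Agent.Lib.MP_f04ccf_co
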