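import Pool.Agent.Lib.MP_f04ccf_co.M.BlkX22_22_6_6d

/-!
MP_f04ccf_co, block certificate with exceptions, `R = 22`, `H = 22`, the pair `(6, 6)` (data of helper99 / helper13,
generated by helper8, genx.py): the boxes with one state, the enumeration.
-/

set_option autoImplicit false
set_option maxRecDepth 100000

namespace Pool.Agent.Lib.MP_f04ccf_co

namespace BlkC

lemma v22_22_6_6_5_0 : EnPr.lall (fun l => EnPr.onw 22 5 (9, 6, 7, 4) (6 :: 6 :: l))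
    (EnPr.prof (5 - 2) 6 (22 - (5 + 1) - 6 - 6)) = true := by
  decide +kernel

lemma v22_22_6_6_6_0 : EnPr.lall (fun l => EnPr.onw 22 6 (9, 6, 7, 4) (6 :: 6 :: l))
    (EnPr.prof (6 - 2) 6 (22 - (6 + 1) - 6 - 6)) = true := by
  decide +kernel

lemma v22_22_6_6_7_0 : EnPr.lall (fun l => EnPr.onw 22 7 (9, 6, 7, 4) (6 :: 6 :: l))
    (EnPr.prof (7 - 2) 6 (22 - (7 + 1) - 6 - 6)) = true := by
  decide +kernel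

lemma v22_22_6_6_8_0 : EnPr.lall (fun l => EnPr.onw 22 8 (9, 6, 7, 4) (6 :: 6 :: l))
    (EnPr.prof (8 - 2) 6 (22 - (8 + 1) - 6 - 6)) = true := by
  decide +kernel

lemma v22_22_6_6_9_0 : EnPr.lall (fun l => EnPr.onw 22 9 (9, 6, 7, 4) (6 :: 6 :: l))
    (EnPr.prof (9 - 2) 6 (22 - (9 + 1) - 6 - 6)) = true := by
  decide +kernel

lemma u22_22_6_6_0 : BlkM.blkOkM d22_22_6_6.R d22_22_6_6.H d22_22_6_6.a d22_22_6_6.b d22_22_6_6.B d22_22_6_6.R d22_22_6_6.R d22_22_6_6.G d22_22_6_6.nt0 d22_22_6_6.nt1 1 15 0 0 1 1 0 0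
    (((BlkD.upd (BlkD.upd (BlkD.upd (BlkD.upd (BlkD.upd (BlkD.upd (BlkD.upd (BlkD.upd (BlkD.upd (BlkD.upd (fun _ => 0) 0 2) 0 3) 1 5) 1 6) 2 2) 2 3) 3 3) 3 4) 4 2) 5 1) : ℕ → ℕ) 0) (((BlkD.upd (BlkD.upd (BlkD.upd (BlkD.upd (BlkD.upd (BlkD.upd (BlkD.upd (BlkD.upd (BlkD.upd (BlkD.upd (BlkD.upd (BlkD.upd (BlkD.upd (BlkD.upd (BlkD.upd (BlkD.upd (BlkD.upd (fun _ => 22) 0 6) 2 6) 0 3) 1 19) 1 9) 1 7) 1 6) 2 3) 3 10) 3 5) 3 4) 4 6) 4 3) 4 2) 5 4) 5 2) 5 1) : ℕ → ℕ) 0 + 1 - ((BlkD.upd (BlkD.upd (BlkD.upd (BlkD.upd (BlkD.upd (BlkD.upd (BlkD.upd (BlkD.upd (BlkD.upd (BlkD.upd (fun _ => 0) 0 2) 0 3) 1 5) 1 6) 2 2) 2 3) 3 3) 3 4) 4 2) 5 1) : ℕ → ℕ) 0) (((BlkD.upd (BlkD.upd (BlkD.upd (BlkD.upd (BlkD.upd (BlkD.upd (BlkD.upd (BlkD.upd (BlkD.upd (BlkD.upd (fun _ => 0) 0 2) 0 3) 1 5) 1 6) 2 2) 2 3) 3 3)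 3 4) 4 2) 5 1) : ℕ → ℕ) 1) (((BlkD.upd (BlkD.upd (BlkD.upd (BlkD.upd (BlkD.upd (BlkD.upd (BlkD.upd (BlkD.upd (BlkD.upd (BlkD.upd (BlkD.upd (BlkD.upd (BlkD.upd (BlkD.upd (BlkD.upd (BlkD.upd (BlkD.upd (fun _ => 22) 0 6) 2 6) 0 3) 1 19) 1 9) 1 7) 1 6) 2 3) 3 10) 3 5) 3 4) 4 6) 4 3) 4 2) 5 4) 5 2) 5 1) : ℕ → ℕ) 1 + 1 - ((BlkD.upd (BlkD.upd (BlkD.upd (BlkD.upd (BlkD.upd (BlkD.upd (BlkD.upd (BlkD.upd (BlkD.upd (BlkD.upd (fun _ => 0) 0 2) 0 3) 1 5) 1 6) 2 2) 2 3) 3 3) 3 4) 4 2) 5 1) : ℕ → ℕ) 1)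
    (((BlkD.upd (BlkD.upd (BlkD.upd (BlkD.upd (BlkD.upd (BlkD.upd (BlkD.upd (BlkD.upd (BlkD.upd (BlkD.upd (fun _ => 0) 0 2) 0 3) 1 5) 1 6) 2 2) 2 3) 3 3) 3 4) 4 2) 5 1) : ℕ → ℕ) 2) (((BlkD.upd (BlkD.upd (BlkD.upd (BlkD.upd (BlkD.upd (BlkD.upd (BlkD.upd (BlkD.upd (BlkD.upd (BlkD.upd (BlkD.upd (BlkD.upd (BlkD.upd (BlkD.upd (BlkD.upd (BlkD.upd (BlkD.upd (fun _ => 22) 0 6) 2 6) 0 3) 1 19) 1 9) 1 7) 1 6) 2 3) 3 10) 3 5) 3 4) 4 6) 4 3) 4 2) 5 4) 5 2) 5 1) : ℕ → ℕ) 2 + 1 - ((BlkD.upd (BlkD.upd (BlkD.upd (BlkD.upd (BlkD.upd (BlkD.upd (BlkD.upd (BlkD.upd (BlkD.upd (BlkD.upd (fun _ => 0) 0 2) 0 3) 1 5) 1 6) 2 2) 2 3) 3 3) 3 4) 4 2) 5 1) : ℕ → ℕ) 2) (((BlkD.upd (BlkD.upd (BlkD.upd (BlkD.upd (BlkD.upd (BlkD.upd (BlkD.upd (BlkD.upd (BlkD.upd (BlkD.upd (fun _ => 0) 0 2) 0 3) 1 5) 1 6) 2 2) 2 3) 3 3)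 3 4) 4 2) 5 1) : ℕ → ℕ) 3)
    (((BlkD.upd (BlkD.upd (BlkD.upd (BlkD.upd (BlkD.upd (BlkD.upd (BlkD.upd (BlkD.upd (BlkD.upd (BlkD.upd (BlkD.upd (BlkD.upd (BlkD.upd (BlkD.upd (BlkD.upd (BlkD.upd (BlkD.upd (fun _ => 22) 0 6) 2 6) 0 3) 1 19) 1 9) 1 7) 1 6) 2 3) 3 10) 3 5) 3 4) 4 6) 4 3) 4 2) 5 4) 5 2) 5 1) : ℕ → ℕ) 3 + 1 - ((BlkD.upd (BlkD.upd (BlkD.upd (BlkD.upd (BlkD.upd (BlkD.upd (BlkD.upd (BlkD.upd (BlkD.upd (BlkD.upd (fun _ => 0) 0 2) 0 3) 1 5) 1 6) 2 2) 2 3) 3 3) 3 4) 4 2) 5 1) : ℕ → ℕ) 3) (((BlkD.upd (BlkD.upd (BlkD.upd (BlkD.upd (BlkD.upd (BlkD.upd (BlkD.upd (BlkD.upd (BlkD.upd (BlkD.upd (fun _ => 0) 0 2) 0 3) 1 5) 1 6) 2 2) 2 3) 3 3) 3 4) 4 2) 5 1) : ℕ → ℕ) 4) (((BlkD.upd (BlkD.upd (BlkD.upd (BlkD.upd (BlkD.upd (BlkD.upd (BlkD.upd (BlkD.upd (BlkD.upd (BlkD.upd (BlkD.upd (BlkD.upd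 (BlkD.upd (BlkD.upd (BlkD.upd (BlkD.upd (BlkD.upd (fun _ => 22) 0 6) 2 6) 0 3) 1 19) 1 9) 1 7) 1 6) 2 3) 3 10) 3 5) 3 4) 4 6) 4 3) 4 2) 5 4) 5 2) 5 1) : ℕ → ℕ) 4) (((BlkD.upd (BlkD.upd (BlkD.upd (BlkD.upd (BlkD.upd (BlkD.upd (BlkD.upd (BlkD.upd (BlkD.upd (BlkD.upd (fun _ => 0) 0 2) 0 3) 1 5) 1 6) 2 2) 2 3) 3 3) 3 4) 4 2) 5 1) : ℕ → ℕ) 5) (((BlkD.upd (BlkD.upd (BlkD.upd (BlkD.upd (BlkD.upd (BlkD.upd (BlkD.upd (BlkD.upd (BlkD.upd (BlkD.upd (BlkD.upd (BlkD.upd (BlkD.upd (BlkD.upd (BlkD.upd (BlkD.upd (BlkD.upd (fun _ => 22) 0 6) 2 6) 0 3) 1 19) 1 9) 1 7) 1 6) 2 3) 3 10) 3 5) 3 4) 4 6) 4 3) 4 2) 5 4) 5 2) 5 1) : ℕ → ℕ) 5) = true := by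
  decide +kernel

lemma w22_22_6_6_0 {n : ℕ} (hn : 5 ≤ n) : BlkD.NdX d22_22_6_6 (BlkD.exF 6 6 x22_22_6_6) n
    (BlkD.upd (BlkD.upd (BlkD.upd (BlkD.upd (BlkD.upd (BlkD.upd (BlkD.upd (BlkD.upd (BlkD.upd (BlkD.upd (fun _ => 0) 0 2) 0 3) 1 5) 1 6) 2 2) 2 3) 3 3) 3 4) 4 2) 5 1)
    (BlkD.upd (BlkD.upd (BlkD.upd (BlkD.upd (BlkD.upd (BlkD.upd (BlkD.upd (BlkD.upd (BlkD.upd (BlkD.upd (BlkD.upd (BlkD.upd (BlkD.upd (BlkD.upd (BlkD.upd (BlkD.upd (BlkD.upd (fun _ => 22) 0 6) 2 6) 0 3) 1 19) 1 9) 1 7) 1 6) 2 3) 3 10) 3 5) 3 4) 4 6) 4 3) 4 2) 5 4) 5 2) 5 1) := by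
  by_cases h : n < 10
  · refine NoNd.mono (p' := BlkD.inB
      (BlkD.upd (BlkD.upd (BlkD.upd (BlkD.upd (BlkD.upd (BlkD.upd (BlkD.upd (BlkD.upd (BlkD.upd (BlkD.upd (fun _ => 0) 0 2) 0 3) 1 5) 1 6) 2 2) 2 3) 3 3) 3 4) 4 2) 5 1)
      (BlkD.upd (BlkD.upd (BlkD.upd (BlkD.upd (BlkD.upd (BlkD.upd (BlkD.upd (BlkD.upd (BlkD.upd (BlkD.upd (BlkD.upd (BlkD.upd (BlkD.upd (BlkD.upd (BlkD.upd (BlkD.upd (BlkD.upd (fun _ => 22) 0 6) 2 6) 0 3) 1 19) 1 9) 1 7) 1 6) 2 3) 3 10) 3 5) 3 4) 4 6) 4 3) 4 2) 5 4) 5 2) 5 1)) ?_ fun x y z w u v h1 => ?_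
    · have hd := ok22_22_6_6
      interval_cases n
      · exact NoNd.of_W (d := d22_22_6_6) (R := 22) (K := 22) (a := 6) (b := 6) (bt := 15) (x := 9) (y := 6)
          (z := 7) (w := 4) hd (by decide) (by decide) rfl rfl rfl rfl (by norm_num) (by norm_num)
          (by decide +kernel) (by decide +kernel) (by decide +kernel) u22_22_6_6_0 v22_22_6_6_5_0
      · exact NoNd.of_W (d := d22_22_6_6) (R := 22) (K := 22) (a := 6) (b := 6) (bt := 15) (x := 9) (y := 6)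
          (z := 7) (w := 4) hd (by decide) (by decide) rfl rfl rfl rfl (by norm_num) (by norm_num)
          (by decide +kernel) (by decide +kernel) (by decide +kernel) u22_22_6_6_0 v22_22_6_6_6_0
      · exact NoNd.of_W (d := d22_22_6_6) (R := 22) (K := 22) (a := 6) (b := 6) (bt := 15) (x := 9) (y := 6)
          (z := 7) (w := 4) hd (by decide) (by decide) rfl rfl rfl rfl (by norm_num) (by norm_num)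
          (by decide +kernel) (by decide +kernel) (by decide +kernel) u22_22_6_6_0 v22_22_6_6_7_0
      · exact NoNd.of_W (d := d22_22_6_6) (R := 22) (K := 22) (a := 6) (b := 6) (bt := 15) (x := 9) (y := 6)
          (z := 7) (w := 4) hd (by decide) (by decide) rfl rfl rfl rfl (by norm_num) (by norm_num)
          (by decide +kernel) (by decide +kernel) (by decide +kernel) u22_22_6_6_0 v22_22_6_6_8_0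
      · exact NoNd.of_W (d := d22_22_6_6) (R := 22) (K := 22) (a := 6) (b := 6) (bt := 15) (x := 9) (y := 6)
          (z := 7) (w := 4) hd (by decide) (by decide) rfl rfl rfl rfl (by norm_num) (by norm_num)
          (by decide +kernel) (by decide +kernel) (by decide +kernel) u22_22_6_6_0 v22_22_6_6_9_0
    · rw [Bool.and_eq_true] at h1
      exact h1.1
  · exact NoNd.mono (NoPr.big (R := 22) (K := 22) (a := 6) (b := 6) (by omega) (by omega)) fun _ _ _ _ _ _ _ => rfl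

end BlkC

end Pool.Agent.Lib.MP_f04ccf_co
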