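import Pool.Agent.Lib.MP_f04ccf_co.M.BlkX22_22_7_5d

/-!
MP_f04ccf_co, block certificate with exceptions, `R = 22`, `H = 22`, the pair `(7, 5)` (data of helper99 / helper13,
generated by helper8, genx.py): part 1 of 3.
-/

set_option autoImplicit false
set_option maxRecDepth 100000

namespace Pool.Agent.Lib.MP_f04ccf_co

namespace BlkC

/-- a subtree -/
def t22_22_7_5_0 : BlkD.Tr :=
  .L 6 7 [4, 4, 5, 5, 6, 22] [] [] 100000 75000 75000 1000000 100000 0 100000 50000 0 0 16667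

lemma s22_22_7_5_0 : BlkD.treeX d22_22_7_5 (BlkD.exF 7 5 x22_22_7_5) t22_22_7_5_0
    (fun _ => 0)
    (BlkD.upd (BlkD.upd (BlkD.upd (BlkD.upd (BlkD.upd (fun _ => 22) 0 7) 2 5) 0 3) 0 1) 0 0) = true := by
  decide +kernel

lemma n22_22_7_5_0 {n : ℕ} (hn : 5 ≤ n) : BlkD.NdX d22_22_7_5 (BlkD.exF 7 5 x22_22_7_5) n
    (fun _ => 0)
    (BlkD.upd (BlkD.upd (BlkD.upd (BlkD.upd (BlkD.upd (fun _ => 22) 0 7) 2 5) 0 3) 0 1) 0 0) :=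
  BlkD.NdX.tree s22_22_7_5_0 ok22_22_7_5 (by decide) hn

/-- a subtree -/
def t22_22_7_5_1 : BlkD.Tr :=
  .S 1 2 (.L 6 7 [4, 4, 5, 5, 6, 22] [] [] 100000 75000 75000 1000000 100000 0 100000 50000 0 0
    16667) (.S 1 4 (.L 6 7 [4, 4, 5, 5, 6, 22] [] [] 100000 75000 75000 1000000 100000 0 100000
    50000 0 0 16667) (.L 6 7 [4, 4, 5, 5, 6, 22] [87, 80, 68, 56, 44, 30] [] 100000 75000 75000
    1000000 100000 0 100000 50000 0 0 16667))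

lemma s22_22_7_5_1 : BlkD.treeX d22_22_7_5 (BlkD.exF 7 5 x22_22_7_5) t22_22_7_5_1
    (BlkD.upd (fun _ => 0) 0 1)
    (BlkD.upd (BlkD.upd (BlkD.upd (BlkD.upd (BlkD.upd (BlkD.upd (fun _ => 22) 0 7) 2 5) 0 3) 0 1) 1 11) 1 5) = true := by
  decide +kernel

lemma n22_22_7_5_1 {n : ℕ} (hn : 5 ≤ n) : BlkD.NdX d22_22_7_5 (BlkD.exF 7 5 x22_22_7_5) n
    (BlkD.upd (fun _ => 0) 0 1)
    (BlkD.upd (BlkD.upd (BlkD.upd (BlkD.upd (BlkD.upd (BlkD.upd (fun _ => 22) 0 7) 2 5) 0 3) 0 1) 1 11) 1 5) :=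
  BlkD.NdX.tree s22_22_7_5_1 ok22_22_7_5 (by decide) hn

/-- a subtree -/
def t22_22_7_5_2 : BlkD.Tr :=
  .S 1 8 (.S 1 7 (.L 6 7 [4, 4, 5, 5, 6, 22] [] [] 100000 75000 75000 1000000 100000 0 100000 50000
    0 0 16667) (.L 6 7 [4, 4, 5, 5, 6, 22] [132, 131, 130, 129, 122, 110] [] 100000 75000 75000
    1000000 100000 0 100000 50000 0 0 16667)) (.L 6 7 [4, 4, 5, 5, 6, 22] [] [] 100000 75000 75000
    1000000 100000 0 100000 50000 0 0 16667)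

lemma s22_22_7_5_2 : BlkD.treeX d22_22_7_5 (BlkD.exF 7 5 x22_22_7_5) t22_22_7_5_2
    (BlkD.upd (BlkD.upd (fun _ => 0) 0 1) 1 6)
    (BlkD.upd (BlkD.upd (BlkD.upd (BlkD.upd (BlkD.upd (fun _ => 22) 0 7) 2 5) 0 3) 0 1) 1 11) = true := by
  decide +kernel

lemma n22_22_7_5_2 {n : ℕ} (hn : 5 ≤ n) : BlkD.NdX d22_22_7_5 (BlkD.exF 7 5 x22_22_7_5) n
    (BlkD.upd (BlkD.upd (fun _ => 0) 0 1) 1 6)
    (BlkD.upd (BlkD.upd (BlkD.upd (BlkD.upd (BlkD.upd (fun _ => 22) 0 7) 2 5) 0 3) 0 1) 1 11) :=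
  BlkD.NdX.tree s22_22_7_5_2 ok22_22_7_5 (by decide) hn

/-- a subtree -/
def t22_22_7_5_3 : BlkD.Tr :=
  .L 6 7 [4, 4, 5, 5, 6, 22] [] [] 100000 75000 75000 1000000 100000 0 100000 50000 0 0 16667

lemma s22_22_7_5_3 : BlkD.treeX d22_22_7_5 (BlkD.exF 7 5 x22_22_7_5) t22_22_7_5_3
    (BlkD.upd (BlkD.upd (fun _ => 0) 0 1) 1 12)
    (BlkD.upd (BlkD.upd (BlkD.upd (BlkD.upd (fun _ => 22) 0 7) 2 5) 0 3) 0 1) = true := by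
  decide +kernel

lemma n22_22_7_5_3 {n : ℕ} (hn : 5 ≤ n) : BlkD.NdX d22_22_7_5 (BlkD.exF 7 5 x22_22_7_5) n
    (BlkD.upd (BlkD.upd (fun _ => 0) 0 1) 1 12)
    (BlkD.upd (BlkD.upd (BlkD.upd (BlkD.upd (fun _ => 22) 0 7) 2 5) 0 3) 0 1) :=
  BlkD.NdX.tree s22_22_7_5_3 ok22_22_7_5 (by decide) hn

/-- a subtree -/
def t22_22_7_5_4 : BlkD.Tr :=
  .S 1 2 (.L 6 7 [4, 4, 5, 5, 6, 22] [] [] 100000 35000 35000 1340000 20000 0 20000 60000 0 20000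
    20000) (.L 6 7 [4, 4, 5, 5, 6, 22] [] [] 100000 35000 35000 1340000 20000 0 20000 60000 0 20000
    20000)

lemma s22_22_7_5_4 : BlkD.treeX d22_22_7_5 (BlkD.exF 7 5 x22_22_7_5) t22_22_7_5_4
    (BlkD.upd (fun _ => 0) 0 2)
    (BlkD.upd (BlkD.upd (BlkD.upd (BlkD.upd (BlkD.upd (BlkD.upd (BlkD.upd (fun _ => 22) 0 7) 2 5) 0 3) 0 2) 1 20) 1 10) 1 5) = true := by
  decide +kernel

lemma n22_22_7_5_4 {n : ℕ} (hn : 5 ≤ n) : BlkD.NdX d22_22_7_5 (BlkD.exF 7 5 x22_22_7_5) n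
    (BlkD.upd (fun _ => 0) 0 2)
    (BlkD.upd (BlkD.upd (BlkD.upd (BlkD.upd (BlkD.upd (BlkD.upd (BlkD.upd (fun _ => 22) 0 7) 2 5) 0 3) 0 2) 1 20) 1 10) 1 5) :=
  BlkD.NdX.tree s22_22_7_5_4 ok22_22_7_5 (by decide) hn

/-- a subtree -/
def t22_22_7_5_5 : BlkD.Tr :=
  .S 2 2 (.S 2 1 (.L 6 7 [4, 4, 5, 5, 6, 22] [112, 111, 104, 92, 80, 68] [] 100000 51356 51356
    1215662 39157 35542 64458 53012 0 4217 7229) (.S 3 12 (.S 3 6 (.S 3 3 (.L 6 7 [4, 4, 5, 5, 6,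
    22] [112, 111, 104, 92, 80, 68] [] 100000 33334 33334 1266666 16667 0 16667 16667 0 0 22222)
    (.S 3 5 (.S 3 4 (.L 6 7 [4, 4, 5, 5, 6, 22] [112, 111, 104, 92, 80, 68] [72, 64, 54, 42, 28, 0]
    100000 38889 38889 1305559 33333 0 50000 27778 0 5556 16667) (.S 4 6 (.S 4 3 (.L 6 7 [4, 4, 5,
    5, 6, 22] [92, 80, 68, 54, 0, 0] [86, 84, 76, 66, 54, 40] 100000 31250 31250 1350000 37500 0
    50000 25000 0 25000 25000) (.L 6 7 [4, 4, 5, 5, 6, 22] [112, 111, 104, 92, 80, 68] [86, 84, 76,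
    66, 54, 40] 100000 80000 0 840000 0 0 180000 120000 0 0 0)) (.E 2))) (.L 6 7 [4, 4, 5, 5, 6,
    22] [112, 111, 104, 92, 80, 68] [102, 100, 98, 90, 80, 68] 100000 52083 52083 1275002 45833 0
    87500 50000 0 37500 25000))) (.E 1)) (.E 1))) (.S 2 4 (.S 2 3 (.S 3 11 (.S 3 5 (.S 3 2 (.L 6 7
    [4, 4, 5, 5, 6, 22] [112, 111, 104, 92, 80, 68] [] 100000 33334 33334 1266666 16667 0 16667
    16667 0 0 22222) (.S 3 4 (.S 3 3 (.L 6 7 [4, 4, 5, 5, 6, 22] [112, 111, 104, 92, 80, 68] [60,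
    50, 38, 24, 0, 0] 100000 31250 31250 1325000 25000 0 37500 25000 0 12500 18750) (.L 4 5 [4, 5,
    6, 7, 8, 22] [112, 111, 104, 92, 80, 68] [80, 72, 62, 50, 36, 0] 100000 72549 72549 1196080
    60784 0 74510 47059 0 33333 33333)) (.L 4 5 [4, 5, 6, 7, 8, 22] [112, 111, 104, 92, 80, 68]
    [96, 94, 86, 76, 64, 50] 100000 118182 100000 872728 81818 0 81818 118182 0 0 27273))) (.E 1))
    (.E 1)) (.L 4 5 [4, 5, 6, 7, 8, 22] [112, 111, 104, 92, 80, 68] [] 100000 63890 63890 1211110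
    55556 0 66667 27778 0 33333 33333)) (.L 4 5 [4, 5, 6, 7, 8, 22] [112, 111, 104, 92, 80, 68] []
    100000 69230 69229 1130772 61538 0 61538 0 0 38462 30769))

lemma s22_22_7_5_5 : BlkD.treeX d22_22_7_5 (BlkD.exF 7 5 x22_22_7_5) t22_22_7_5_5
    (BlkD.upd (BlkD.upd (fun _ => 0) 0 2) 1 6)
    (BlkD.upd (BlkD.upd (BlkD.upd (BlkD.upd (BlkD.upd (BlkD.upd (BlkD.upd (BlkD.upd (BlkD.upd (fun _ => 22) 0 7) 2 5) 0 3) 0 2) 1 20) 1 10) 1 8) 1 7) 1 6) = true := by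
  decide +kernel

lemma n22_22_7_5_5 {n : ℕ} (hn : 5 ≤ n) : BlkD.NdX d22_22_7_5 (BlkD.exF 7 5 x22_22_7_5) n
    (BlkD.upd (BlkD.upd (fun _ => 0) 0 2) 1 6)
    (BlkD.upd (BlkD.upd (BlkD.upd (BlkD.upd (BlkD.upd (BlkD.upd (BlkD.upd (BlkD.upd (BlkD.upd (fun _ => 22) 0 7) 2 5) 0 3) 0 2) 1 20) 1 10) 1 8) 1 7) 1 6) :=
  BlkD.NdX.tree s22_22_7_5_5 ok22_22_7_5 (by decide) hn

/-- a subtree -/
def t22_22_7_5_6 : BlkD.Tr :=
  .S 2 2 (.S 2 1 (.L 4 5 [4, 5, 6, 7, 8, 22] [129, 128, 127, 120, 108, 96] [] 100000 75000 74999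
    1119354 51613 46774 72581 54839 0 0 17742) (.S 3 11 (.S 3 5 (.S 3 2 (.L 4 5 [4, 5, 6, 7, 8, 22]
    [129, 128, 127, 120, 108, 96] [] 100000 33334 33334 1266666 16667 0 16667 16667 0 0 22222) (.S
    3 4 (.L 6 7 [4, 4, 5, 5, 6, 22] [129, 128, 127, 120, 108, 96] [] 100000 54221 54221 1270130
    42857 19481 57143 38961 0 3896 14286) (.L 4 5 [4, 5, 6, 7, 8, 22] [129, 128, 127, 120, 108, 96]
    [86, 84, 76, 66, 54, 40] 100000 63750 63750 1237500 47500 15000 80000 55000 0 25000 25000)))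
    (.L 4 5 [4, 5, 6, 7, 8, 22] [129, 128, 127, 120, 108, 96] [] 100000 75610 75609 1151219 73171 0
    73171 36585 0 39024 24390)) (.E 1))) (.S 2 4 (.S 2 3 (.S 3 10 (.S 3 5 (.S 3 2 (.L 4 5 [4, 5, 6,
    7, 8, 22] [129, 128, 127, 120, 108, 96] [] 100000 43479 43479 1269565 34783 0 65217 52174 0
    4348 21739) (.L 4 5 [4, 5, 6, 7, 8, 22] [129, 128, 127, 120, 108, 96] [] 100000 51328 51328
    1292919 46018 0 76991 44248 0 32743 25664)) (.E 1)) (.E 1)) (.L 4 5 [4, 5, 6, 7, 8, 22] [129,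
    128, 127, 120, 108, 96] [] 100000 55446 55446 1237625 52475 0 76238 35644 0 47525 27723)) (.L 4
    5 [4, 5, 6, 7, 8, 22] [129, 128, 127, 120, 108, 96] [] 100000 66667 66666 1133331 66667 0 66667
    0 0 66667 33333))

lemma s22_22_7_5_6 : BlkD.treeX d22_22_7_5 (BlkD.exF 7 5 x22_22_7_5) t22_22_7_5_6
    (BlkD.upd (BlkD.upd (BlkD.upd (fun _ => 0) 0 2) 1 6) 1 7)
    (BlkD.upd (BlkD.upd (BlkD.upd (BlkD.upd (BlkD.upd (BlkD.upd (BlkD.upd (BlkD.upd (fun _ => 22) 0 7) 2 5) 0 3) 0 2) 1 20) 1 10) 1 8) 1 7) = true := by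
  decide +kernel

lemma n22_22_7_5_6 {n : ℕ} (hn : 5 ≤ n) : BlkD.NdX d22_22_7_5 (BlkD.exF 7 5 x22_22_7_5) n
    (BlkD.upd (BlkD.upd (BlkD.upd (fun _ => 0) 0 2) 1 6) 1 7)
    (BlkD.upd (BlkD.upd (BlkD.upd (BlkD.upd (BlkD.upd (BlkD.upd (BlkD.upd (BlkD.upd (fun _ => 22) 0 7) 2 5) 0 3) 0 2) 1 20) 1 10) 1 8) 1 7) :=
  BlkD.NdX.tree s22_22_7_5_6 ok22_22_7_5 (by decide) hn

/-- a subtree -/
def t22_22_7_5_7 : BlkD.Tr :=
  .S 2 2 (.S 2 1 (.L 4 5 [4, 5, 6, 7, 8, 22] [148, 147, 146, 145, 138, 126] [] 100000 74107 74107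
    1123811 52381 38095 76190 57143 0 0 20238) (.L 6 7 [4, 4, 5, 5, 6, 22] [148, 147, 146, 145,
    138, 126] [] 100000 55729 55729 1276044 50000 9375 75000 45833 0 10417 18750)) (.S 2 4 (.S 2 3
    (.S 3 9 (.S 3 4 (.S 3 2 (.L 6 7 [4, 4, 5, 5, 6, 22] [148, 147, 146, 145, 138, 126] [] 100000
    46795 46794 1256410 48718 0 66667 48718 0 5128 15385) (.S 3 3 (.L 6 7 [4, 4, 5, 5, 6, 22] [148,
    147, 146, 145, 138, 126] [60, 50, 38, 24, 0, 0] 100000 42500 42500 1300000 50000 0 70000 30000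
    0 20000 20000) (.L 3 3 [5, 7, 9, 10, 12, 22] [148, 147, 146, 145, 138, 126] [80, 72, 62, 50,
    36, 0] 100000 61291 61291 1248387 51613 0 77419 38710 0 38710 22581))) (.L 3 3 [5, 7, 9, 10,
    12, 22] [148, 147, 146, 145, 138, 126] [] 100000 66667 66667 1205556 36111 0 88889 100000 0 0
    22222)) (.E 1)) (.L 3 3 [5, 7, 9, 10, 12, 22] [148, 147, 146, 145, 138, 126] [] 100000 55000
    55000 1265000 42500 0 90000 50000 0 40000 35000)) (.L 3 3 [5, 7, 9, 10, 12, 22] [148, 147, 146,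
    145, 138, 126] [] 100000 53125 53125 1275000 40625 0 90625 0 0 40625 31250))

lemma s22_22_7_5_7 : BlkD.treeX d22_22_7_5 (BlkD.exF 7 5 x22_22_7_5) t22_22_7_5_7
    (BlkD.upd (BlkD.upd (BlkD.upd (fun _ => 0) 0 2) 1 6) 1 8)
    (BlkD.upd (BlkD.upd (BlkD.upd (BlkD.upd (BlkD.upd (BlkD.upd (BlkD.upd (fun _ => 22) 0 7) 2 5) 0 3) 0 2) 1 20) 1 10) 1 8) = true := by
  decide +kernel

lemma n22_22_7_5_7 {n : ℕ} (hn : 5 ≤ n) : BlkD.NdX d22_22_7_5 (BlkD.exF 7 5 x22_22_7_5) n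
    (BlkD.upd (BlkD.upd (BlkD.upd (fun _ => 0) 0 2) 1 6) 1 8)
    (BlkD.upd (BlkD.upd (BlkD.upd (BlkD.upd (BlkD.upd (BlkD.upd (BlkD.upd (fun _ => 22) 0 7) 2 5) 0 3) 0 2) 1 20) 1 10) 1 8) :=
  BlkD.NdX.tree s22_22_7_5_7 ok22_22_7_5 (by decide) hn

/-- a subtree -/
def t22_22_7_5_8 : BlkD.Tr :=
  .S 1 9 (.L 6 7 [4, 4, 5, 5, 6, 22] [169, 168, 167, 166, 165, 158] [] 100000 70188 70188 1209392
    72300 0 87793 41315 0 4225 16667) (.L 6 7 [4, 4, 5, 5, 6, 22] [192, 191, 190, 189, 188, 187] []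
    100000 60000 59999 1164186 67907 0 100000 32093 0 5116 9302)

lemma s22_22_7_5_8 : BlkD.treeX d22_22_7_5 (BlkD.exF 7 5 x22_22_7_5) t22_22_7_5_8
    (BlkD.upd (BlkD.upd (BlkD.upd (fun _ => 0) 0 2) 1 6) 1 9)
    (BlkD.upd (BlkD.upd (BlkD.upd (BlkD.upd (BlkD.upd (BlkD.upd (fun _ => 22) 0 7) 2 5) 0 3) 0 2) 1 20) 1 10) = true := by
  decide +kernel

lemma n22_22_7_5_8 {n : ℕ} (hn : 5 ≤ n) : BlkD.NdX d22_22_7_5 (BlkD.exF 7 5 x22_22_7_5) n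
    (BlkD.upd (BlkD.upd (BlkD.upd (fun _ => 0) 0 2) 1 6) 1 9)
    (BlkD.upd (BlkD.upd (BlkD.upd (BlkD.upd (BlkD.upd (BlkD.upd (fun _ => 22) 0 7) 2 5) 0 3) 0 2) 1 20) 1 10) :=
  BlkD.NdX.tree s22_22_7_5_8 ok22_22_7_5 (by decide) hn

/-- a subtree -/
def t22_22_7_5_9 : BlkD.Tr :=
  .E 0

lemma s22_22_7_5_9 : BlkD.treeX d22_22_7_5 (BlkD.exF 7 5 x22_22_7_5) t22_22_7_5_9
    (BlkD.upd (BlkD.upd (fun _ => 0) 0 2) 1 11)
    (BlkD.upd (BlkD.upd (BlkD.upd (BlkD.upd (BlkD.upd (fun _ => 22) 0 7) 2 5) 0 3) 0 2) 1 20) = true := by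
  decide +kernel

lemma n22_22_7_5_9 {n : ℕ} (hn : 5 ≤ n) : BlkD.NdX d22_22_7_5 (BlkD.exF 7 5 x22_22_7_5) n
    (BlkD.upd (BlkD.upd (fun _ => 0) 0 2) 1 11)
    (BlkD.upd (BlkD.upd (BlkD.upd (BlkD.upd (BlkD.upd (fun _ => 22) 0 7) 2 5) 0 3) 0 2) 1 20) :=
  BlkD.NdX.tree s22_22_7_5_9 ok22_22_7_5 (by decide) hn

/-- a subtree -/
def t22_22_7_5_10 : BlkD.Tr :=
  .E 0

lemma s22_22_7_5_10 : BlkD.treeX d22_22_7_5 (BlkD.exF 7 5 x22_22_7_5) t22_22_7_5_10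
    (BlkD.upd (BlkD.upd (fun _ => 0) 0 2) 1 21)
    (BlkD.upd (BlkD.upd (BlkD.upd (BlkD.upd (fun _ => 22) 0 7) 2 5) 0 3) 0 2) = true := by
  decide +kernel

lemma n22_22_7_5_10 {n : ℕ} (hn : 5 ≤ n) : BlkD.NdX d22_22_7_5 (BlkD.exF 7 5 x22_22_7_5) n
    (BlkD.upd (BlkD.upd (fun _ => 0) 0 2) 1 21)
    (BlkD.upd (BlkD.upd (BlkD.upd (BlkD.upd (fun _ => 22) 0 7) 2 5) 0 3) 0 2) :=
  BlkD.NdX.tree s22_22_7_5_10 ok22_22_7_5 (by decide) hn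

/-- a subtree -/
def t22_22_7_5_11 : BlkD.Tr :=
  .S 1 2 (.L 6 7 [4, 4, 5, 5, 6, 22] [] [] 100000 35714 35714 1200000 9524 0 9524 80952 0 0 19048)
    (.S 1 3 (.L 6 7 [4, 4, 5, 5, 6, 22] [62, 50, 38, 24, 0, 0] [] 100000 25000 25000 1300001 14583
    0 14583 56250 0 25000 18750) (.S 2 2 (.L 6 7 [4, 4, 5, 5, 6, 22] [86, 74, 62, 50, 36, 0] []
    100000 25714 25713 1382144 15714 714 16429 54286 0 22857 23333) (.L 6 7 [4, 4, 5, 5, 6, 22]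
    [86, 74, 62, 50, 36, 0] [] 100000 25000 25000 1375000 12500 0 25000 37500 0 25000 25000)))

lemma s22_22_7_5_11 : BlkD.treeX d22_22_7_5 (BlkD.exF 7 5 x22_22_7_5) t22_22_7_5_11
    (BlkD.upd (BlkD.upd (fun _ => 0) 0 2) 0 3)
    (BlkD.upd (BlkD.upd (BlkD.upd (BlkD.upd (BlkD.upd (BlkD.upd (fun _ => 22) 0 7) 2 5) 0 3) 1 19) 1 9) 1 4) = true := by
  decide +kernel

lemma n22_22_7_5_11 {n : ℕ} (hn : 5 ≤ n) : BlkD.NdX d22_22_7_5 (BlkD.exF 7 5 x22_22_7_5) n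
    (BlkD.upd (BlkD.upd (fun _ => 0) 0 2) 0 3)
    (BlkD.upd (BlkD.upd (BlkD.upd (BlkD.upd (BlkD.upd (BlkD.upd (fun _ => 22) 0 7) 2 5) 0 3) 1 19) 1 9) 1 4) :=
  BlkD.NdX.tree s22_22_7_5_11 ok22_22_7_5 (by decide) hn

/-- a subtree -/
def t22_22_7_5_12 : BlkD.Tr :=
  .S 2 2 (.S 2 1 (.L 6 7 [4, 4, 5, 5, 6, 22] [107, 100, 88, 76, 64, 50] [] 100000 65000 65000
    1220000 40000 40000 60000 60000 0 0 6667) (.S 3 12 (.S 3 6 (.S 3 3 (.L 6 7 [4, 4, 5, 5, 6, 22]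
    [107, 100, 88, 76, 64, 50] [] 100000 33334 33334 1291667 8333 4167 8333 8333 0 0 22222) (.S 3 5
    (.S 3 4 (.L 7 8 [4, 5, 5, 4, 5, 22] [107, 100, 88, 76, 64, 50] [72, 64, 54, 42, 28, 0] 100000
    30694 30694 1366337 16832 7921 25743 47525 0 7921 27723) (.S 4 5 (.S 4 2 (.S 4 1 (.S 4 0 (.L 7
    8 [4, 5, 5, 4, 5, 22] [50, 0, 0, 0, 0, 0] [86, 84, 76, 66, 54, 40] 100000 26667 26667 1380000
    26667 13333 0 40000 0 20000 20000) (.L 7 8 [4, 5, 5, 4, 5, 22] [64, 50, 0, 0, 0, 0] [86, 84,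
    76, 66, 54, 40] 100000 25000 25000 1370834 20833 12500 70833 41667 0 29167 29167)) (.L 7 8 [4,
    5, 5, 4, 5, 22] [76, 64, 50, 0, 0, 0] [86, 84, 76, 66, 54, 40] 100000 25000 24999 1315385 15385
    0 100000 53846 0 38462 23077)) (.L 7 8 [4, 5, 5, 4, 5, 22] [107, 100, 88, 76, 64, 50] [86, 84,
    76, 66, 54, 40] 100000 36275 3922 1152941 0 0 132353 82353 0 0 23529)) (.E 2))) (.S 4 5 (.S 4 2
    (.S 4 1 (.S 4 0 (.L 7 8 [4, 5, 5, 4, 5, 22] [50, 0, 0, 0, 0, 0] [102, 100, 98, 90, 80, 68]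
    100000 32143 32143 1342858 42857 0 0 42857 0 42857 14286) (.L 7 8 [4, 5, 5, 4, 5, 22] [64, 50,
    0, 0, 0, 0] [102, 100, 98, 90, 80, 68] 100000 29546 29546 1354546 27273 0 81818 54545 0 18182
    18182)) (.L 7 8 [4, 5, 5, 4, 5, 22] [76, 64, 50, 0, 0, 0] [102, 100, 98, 90, 80, 68] 100000
    25000 25000 1300000 20000 0 100000 40000 0 40000 20000)) (.L 7 8 [4, 5, 5, 4, 5, 22] [107, 100,
    88, 76, 64, 50] [102, 100, 98, 90, 80, 68] 100000 56250 0 1006250 31250 0 156250 62500 0 12500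
    25000)) (.E 2)))) (.E 1)) (.E 1))) (.S 2 4 (.S 2 3 (.S 3 11 (.S 3 5 (.S 3 2 (.L 7 8 [4, 5, 5,
    4, 5, 22] [107, 100, 88, 76, 64, 50] [] 100000 32433 32433 1300002 18919 2703 18919 16216 0
    2703 27027) (.S 3 4 (.S 3 3 (.L 7 8 [4, 5, 5, 4, 5, 22] [107, 100, 88, 76, 64, 50] [60, 50, 38,
    24, 0, 0] 100000 29630 29630 1377778 22222 0 33333 11111 0 11111 25926) (.S 4 5 (.S 4 2 (.S 4 1
    (.S 4 0 (.L 7 8 [4, 5, 5, 4, 5, 22] [50, 0, 0, 0, 0, 0] [80, 72, 62, 50, 36, 0] 100000 27500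
    27500 1380000 30000 10000 0 40000 0 20000 20000) (.L 7 8 [4, 5, 5, 4, 5, 22] [64, 50, 0, 0, 0,
    0] [80, 72, 62, 50, 36, 0] 100000 25000 24999 1357145 28571 0 85714 28571 0 28571 17857)) (.L 7
    8 [4, 5, 5, 4, 5, 22] [76, 64, 50, 0, 0, 0] [80, 72, 62, 50, 36, 0] 100000 25000 24999 1315384
    15385 0 100000 53846 0 38462 23077)) (.L 7 8 [4, 5, 5, 4, 5, 22] [107, 100, 88, 76, 64, 50]
    [80, 72, 62, 50, 36, 0] 100000 36275 3922 1152941 0 0 132353 82353 0 0 23529)) (.E 2))) (.S 4 5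
    (.S 4 2 (.L 6 7 [4, 4, 5, 5, 6, 22] [76, 64, 50, 0, 0, 0] [96, 94, 86, 76, 64, 50] 100000
    100001 100001 1066667 66667 0 83333 100000 0 0 33333) (.L 6 7 [4, 4, 5, 5, 6, 22] [107, 100,
    88, 76, 64, 50] [96, 94, 86, 76, 64, 50] 100000 155000 0 315000 5000 0 255000 255000 0 0
    20000)) (.E 2)))) (.E 1)) (.E 1)) (.S 3 10 (.S 3 5 (.S 3 2 (.L 6 7 [4, 4, 5, 5, 6, 22] [107,
    100, 88, 76, 64, 50] [] 100000 25000 25000 1366667 22222 0 44444 22222 0 33333 33333) (.S 3 4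
    (.S 3 3 (.L 5 6 [4, 4, 5, 6, 7, 22] [107, 100, 88, 76, 64, 50] [66, 56, 44, 30, 0, 0] 100000
    38889 38889 1333335 33333 0 66667 33333 0 44444 22222) (.L 7 8 [4, 5, 5, 4, 5, 22] [107, 100,
    88, 76, 64, 50] [88, 80, 70, 58, 44, 0] 100000 100001 100001 1066665 66667 0 66667 100000 0 0
    33333)) (.E 1))) (.E 1)) (.E 1))) (.L 7 8 [4, 5, 5, 4, 5, 22] [107, 100, 88, 76, 64, 50] []
    100000 33333 33333 1333335 33333 0 33333 0 0 33333 16667))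

lemma s22_22_7_5_12 : BlkD.treeX d22_22_7_5 (BlkD.exF 7 5 x22_22_7_5) t22_22_7_5_12
    (BlkD.upd (BlkD.upd (BlkD.upd (fun _ => 0) 0 2) 0 3) 1 5)
    (BlkD.upd (BlkD.upd (BlkD.upd (BlkD.upd (BlkD.upd (BlkD.upd (BlkD.upd (BlkD.upd (fun _ => 22) 0 7) 2 5) 0 3) 1 19) 1 9) 1 7) 1 6) 1 5) = true := by
  decide +kernel

lemma n22_22_7_5_12 {n : ℕ} (hn : 5 ≤ n) : BlkD.NdX d22_22_7_5 (BlkD.exF 7 5 x22_22_7_5) n
    (BlkD.upd (BlkD.upd (BlkD.upd (fun _ => 0) 0 2) 0 3) 1 5)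
    (BlkD.upd (BlkD.upd (BlkD.upd (BlkD.upd (BlkD.upd (BlkD.upd (BlkD.upd (BlkD.upd (fun _ => 22) 0 7) 2 5) 0 3) 1 19) 1 9) 1 7) 1 6) 1 5) :=
  BlkD.NdX.tree s22_22_7_5_12 ok22_22_7_5 (by decide) hn

/-- a subtree -/
def t22_22_7_5_13 : BlkD.Tr :=
  .S 2 1 (.S 2 0 (.L 7 8 [4, 5, 5, 4, 5, 22] [124, 123, 116, 104, 92, 80] [] 100000 50000 50000
    1100000 0 0 50000 100000 0 0 0) (.S 3 12 (.S 3 6 (.L 7 8 [4, 5, 5, 4, 5, 22] [124, 123, 116,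
    104, 92, 80] [] 100000 45312 45312 1308859 23958 45833 55729 57812 1563 0 33333) (.L 6 7 [4, 4,
    5, 5, 6, 22] [124, 123, 116, 104, 92, 80] [] 100000 66667 66667 1216669 0 100000 83333 100000
    16667 0 0)) (.E 1))) (.S 3 11 (.S 3 5 (.S 3 2 (.L 6 7 [4, 4, 5, 5, 6, 22] [124, 123, 116, 104,
    92, 80] [] 100000 33334 33334 1291667 8333 4167 8333 8333 0 0 22222) (.S 3 4 (.S 3 3 (.L 7 8
    [4, 5, 5, 4, 5, 22] [124, 123, 116, 104, 92, 80] [54, 44, 32, 18, 0, 0] 100000 32338 32337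
    1359702 17910 7463 28358 22388 0 2985 33333) (.S 4 6 (.S 4 3 (.S 4 1 (.S 4 0 (.L 7 8 [4, 5, 5,
    4, 5, 22] [66, 0, 0, 0, 0, 0] [72, 64, 54, 42, 28, 0] 100000 15000 15000 1400000 40000 0 0
    20000 20000 20000 20000) (.L 7 8 [4, 5, 5, 4, 5, 22] [80, 66, 0, 0, 0, 0] [72, 64, 54, 42, 28,
    0] 100000 32500 32500 1365000 25000 20000 50000 45000 0 5000 25000)) (.L 7 8 [4, 5, 5, 4, 5,
    22] [104, 92, 80, 66, 0, 0] [72, 64, 54, 42, 28, 0] 100000 29032 29031 1370969 25806 0 77419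
    51613 0 12903 19355)) (.L 7 8 [4, 5, 5, 4, 5, 22] [124, 123, 116, 104, 92, 80] [72, 64, 54, 42,
    28, 0] 100000 36275 3922 1152941 0 0 132353 82353 0 0 23529)) (.E 2))) (.S 4 6 (.S 4 3 (.S 4 1
    (.S 4 0 (.L 6 7 [4, 4, 5, 5, 6, 22] [66, 0, 0, 0, 0, 0] [86, 84, 76, 66, 54, 40] 100000 19355
    19355 1406454 29032 9677 0 48387 48387 29032 16129) (.L 6 7 [4, 4, 5, 5, 6, 22] [80, 66, 0, 0,
    0, 0] [86, 84, 76, 66, 54, 40] 100000 46471 46471 1312940 37647 18824 80000 58824 2353 21176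
    20000)) (.L 6 7 [4, 4, 5, 5, 6, 22] [104, 92, 80, 66, 0, 0] [86, 84, 76, 66, 54, 40] 100000
    35000 35000 1340000 30000 0 90000 50000 0 30000 20000)) (.L 6 7 [4, 4, 5, 5, 6, 22] [124, 123,
    116, 104, 92, 80] [86, 84, 76, 66, 54, 40] 100000 51725 1 1037931 2299 2299 151724 100000 0 0
    19540)) (.E 2)))) (.S 3 8 (.S 3 7 (.S 3 6 (.S 4 6 (.S 4 3 (.S 4 1 (.L 6 7 [4, 4, 5, 5, 6, 22]
    [80, 66, 0, 0, 0, 0] [102, 100, 98, 90, 80, 68] 100000 70000 70000 1190000 60000 20000 100000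
    50000 0 10000 20000) (.L 6 7 [4, 4, 5, 5, 6, 22] [104, 92, 80, 66, 0, 0] [102, 100, 98, 90, 80,
    68] 100000 25000 25000 1375000 25000 0 100000 25000 0 75000 25000)) (.L 6 7 [4, 4, 5, 5, 6, 22]
    [124, 123, 116, 104, 92, 80] [102, 100, 98, 90, 80, 68] 100000 86667 0 793332 30000 0 186667
    100000 0 0 20000)) (.E 2)) (.E 1)) (.E 1)) (.E 1))) (.E 1))

lemma s22_22_7_5_13 : BlkD.treeX d22_22_7_5 (BlkD.exF 7 5 x22_22_7_5) t22_22_7_5_13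
    (BlkD.upd (BlkD.upd (BlkD.upd (BlkD.upd (fun _ => 0) 0 2) 0 3) 1 5) 1 6)
    (BlkD.upd (BlkD.upd (BlkD.upd (BlkD.upd (BlkD.upd (BlkD.upd (BlkD.upd (BlkD.upd (fun _ => 22) 0 7) 2 5) 0 3) 1 19) 1 9) 1 7) 1 6) 2 2) = true := by
  decide +kernel

lemma n22_22_7_5_13 {n : ℕ} (hn : 5 ≤ n) : BlkD.NdX d22_22_7_5 (BlkD.exF 7 5 x22_22_7_5) n
    (BlkD.upd (BlkD.upd (BlkD.upd (BlkD.upd (fun _ => 0) 0 2) 0 3) 1 5) 1 6)
    (BlkD.upd (BlkD.upd (BlkD.upd (BlkD.upd (BlkD.upd (BlkD.upd (BlkD.upd (BlkD.upd (fun _ => 22) 0 7) 2 5) 0 3) 1 19) 1 9) 1 7) 1 6) 2 2) :=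
  BlkD.NdX.tree s22_22_7_5_13 ok22_22_7_5 (by decide) hn

/-- a subtree -/
def t22_22_7_5_14 : BlkD.Tr :=
  .S 2 4 (.S 2 3 (.S 3 10 (.S 3 5 (.S 3 2 (.S 3 1 (.L 6 7 [4, 4, 5, 5, 6, 22] [124, 123, 116, 104,
    92, 80] [] 100000 33334 33334 1291667 8333 8333 8333 8333 0 0 22222) (.L 7 8 [4, 5, 5, 4, 5,
    22] [124, 123, 116, 104, 92, 80] [40, 28, 14, 0, 0, 0] 100000 32338 32337 1367165 17910 7463
    26866 23881 0 2985 33333)) (.S 3 4 (.S 3 3 (.S 4 6 (.S 4 3 (.S 4 1 (.L 5 6 [4, 4, 5, 6, 7, 22]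
    [80, 66, 0, 0, 0, 0] [60, 50, 38, 24, 0, 0] 100000 26316 26316 1389474 36842 0 73684 36842 5263
    36842 21053) (.L 6 7 [4, 4, 5, 5, 6, 22] [104, 92, 80, 66, 0, 0] [60, 50, 38, 24, 0, 0] 100000
    25000 25000 1375000 25000 0 75000 25000 0 25000 25000)) (.L 6 7 [4, 4, 5, 5, 6, 22] [124, 123,
    116, 104, 92, 80] [60, 50, 38, 24, 0, 0] 100000 36275 3922 1152941 0 0 132353 82353 0 0 23529))
    (.E 2)) (.S 4 6 (.S 4 3 (.S 4 1 (.L 5 6 [4, 4, 5, 6, 7, 22] [80, 66, 0, 0, 0, 0] [80, 72, 62,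
    50, 36, 0] 100000 33334 33334 1360000 46667 0 53333 26667 6667 53333 26667) (.L 5 6 [4, 4, 5,
    6, 7, 22] [104, 92, 80, 66, 0, 0] [80, 72, 62, 50, 36, 0] 100000 40000 40000 1320000 40000 0
    80000 40000 0 40000 20000)) (.L 5 6 [4, 4, 5, 6, 7, 22] [124, 123, 116, 104, 92, 80] [80, 72,
    62, 50, 36, 0] 100000 50000 0 1050000 12500 0 150000 75000 0 0 25000)) (.E 2))) (.S 4 6 (.S 4 3
    (.L 7 8 [4, 5, 5, 4, 5, 22] [104, 92, 80, 66, 0, 0] [96, 94, 86, 76, 64, 50] 100000 55000 55000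
    1260000 40000 0 80000 80000 0 0 20000) (.L 7 8 [4, 5, 5, 4, 5, 22] [124, 123, 116, 104, 92, 80]
    [96, 94, 86, 76, 64, 50] 100000 200000 0 0 0 0 300000 250000 0 0 0)) (.E 2)))) (.E 1)) (.E 1))
    (.S 3 9 (.S 3 4 (.S 3 2 (.L 7 8 [4, 5, 5, 4, 5, 22] [124, 123, 116, 104, 92, 80] [] 100000
    22528 22528 1407693 30769 0 48901 34615 4945 34615 28846) (.S 3 3 (.S 4 6 (.S 4 3 (.L 7 8 [4,
    5, 5, 4, 5, 22] [104, 92, 80, 66, 0, 0] [66, 56, 44, 30, 0, 0] 100000 30556 30556 1373335 37778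
    0 73333 42222 6667 37778 20000) (.L 7 8 [4, 5, 5, 4, 5, 22] [124, 123, 116, 104, 92, 80] [66,
    56, 44, 30, 0, 0] 100000 66667 0 933332 0 0 166667 0 0 0 0)) (.E 2)) (.S 4 6 (.S 4 3 (.L 7 8
    [4, 5, 5, 4, 5, 22] [104, 92, 80, 66, 0, 0] [88, 80, 70, 58, 44, 0] 100000 75000 75000 1175000
    50000 0 75000 100000 0 0 25000) (.L 7 8 [4, 5, 5, 4, 5, 22] [124, 123, 116, 104, 92, 80] [88,
    80, 70, 58, 44, 0] 100000 200000 0 0 50000 0 300000 200000 0 0 0)) (.E 2)))) (.E 1)) (.E 1)))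
    (.L 7 8 [4, 5, 5, 4, 5, 22] [124, 123, 116, 104, 92, 80] [] 100000 25000 24999 1386365 31818 0
    54545 22727 4545 40909 22727)

lemma s22_22_7_5_14 : BlkD.treeX d22_22_7_5 (BlkD.exF 7 5 x22_22_7_5) t22_22_7_5_14
    (BlkD.upd (BlkD.upd (BlkD.upd (BlkD.upd (BlkD.upd (fun _ => 0) 0 2) 0 3) 1 5) 1 6) 2 3)
    (BlkD.upd (BlkD.upd (BlkD.upd (BlkD.upd (BlkD.upd (BlkD.upd (BlkD.upd (fun _ => 22) 0 7) 2 5) 0 3) 1 19) 1 9) 1 7) 1 6) = true := by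
  decide +kernel

lemma n22_22_7_5_14 {n : ℕ} (hn : 5 ≤ n) : BlkD.NdX d22_22_7_5 (BlkD.exF 7 5 x22_22_7_5) n
    (BlkD.upd (BlkD.upd (BlkD.upd (BlkD.upd (BlkD.upd (fun _ => 0) 0 2) 0 3) 1 5) 1 6) 2 3)
    (BlkD.upd (BlkD.upd (BlkD.upd (BlkD.upd (BlkD.upd (BlkD.upd (BlkD.upd (fun _ => 22) 0 7) 2 5) 0 3) 1 19) 1 9) 1 7) 1 6) :=
  BlkD.NdX.tree s22_22_7_5_14 ok22_22_7_5 (by decide) hn

/-- a subtree -/
def t22_22_7_5_15 : BlkD.Tr :=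
  .S 2 1 (.L 7 8 [4, 5, 5, 4, 5, 22] [143, 142, 141, 134, 122, 110] [] 100000 50000 49999 1284616
    23077 53846 69231 61538 0 0 7692) (.S 3 10 (.S 3 5 (.S 3 2 (.L 7 8 [4, 5, 5, 4, 5, 22] [143,
    142, 141, 134, 122, 110] [] 100000 30539 30538 1346708 19162 9581 49701 19162 4192 0 26946) (.S
    3 4 (.S 3 3 (.S 4 7 (.S 4 3 (.L 7 8 [4, 5, 5, 4, 5, 22] [122, 110, 98, 84, 0, 0] [54, 44, 32,
    18, 0, 0] 100000 32895 32895 1363159 31579 15789 73684 36842 5263 5263 21053) (.L 7 8 [4, 5, 5,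
    4, 5, 22] [143, 142, 141, 134, 122, 110] [54, 44, 32, 18, 0, 0] 100000 28788 28788 1314310 4377
    4377 100000 72559 0 13636 21886)) (.E 2)) (.S 4 7 (.S 4 3 (.S 4 1 (.L 7 8 [4, 5, 5, 4, 5, 22]
    [98, 84, 0, 0, 0, 0] [72, 64, 54, 42, 28, 0] 100000 11719 11719 1415625 40625 0 62500 31250
    37500 31250 21875) (.L 7 8 [4, 5, 5, 4, 5, 22] [122, 110, 98, 84, 0, 0] [72, 64, 54, 42, 28, 0]
    100000 36667 36667 1350001 30000 23333 76667 43333 0 10000 23333)) (.L 7 8 [4, 5, 5, 4, 5, 22]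
    [143, 142, 141, 134, 122, 110] [72, 64, 54, 42, 28, 0] 100000 28262 28262 1311955 8696 8696
    100000 53261 0 15217 22826)) (.E 2))) (.S 4 7 (.S 4 3 (.L 4 5 [4, 5, 6, 7, 8, 22] [122, 110,
    98, 84, 0, 0] [86, 84, 76, 66, 54, 40] 100000 52000 52000 1268000 48000 0 96000 48000 0 34000
    14000) (.L 4 5 [4, 5, 6, 7, 8, 22] [143, 142, 141, 134, 122, 110] [86, 84, 76, 66, 54, 40]
    100000 25000 24999 1313636 0 9091 100000 68182 0 31818 18182)) (.E 2)))) (.L 6 7 [4, 4, 5, 5,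
    6, 22] [143, 142, 141, 134, 122, 110] [] 100000 21889 21889 1409015 7296 3433 100000 51502 0
    48498 17167)) (.E 1))

lemma s22_22_7_5_15 : BlkD.treeX d22_22_7_5 (BlkD.exF 7 5 x22_22_7_5) t22_22_7_5_15
    (BlkD.upd (BlkD.upd (BlkD.upd (BlkD.upd (fun _ => 0) 0 2) 0 3) 1 5) 1 7)
    (BlkD.upd (BlkD.upd (BlkD.upd (BlkD.upd (BlkD.upd (BlkD.upd (BlkD.upd (fun _ => 22) 0 7) 2 5) 0 3) 1 19) 1 9) 1 7) 2 2) = true := by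
  decide +kernel

lemma n22_22_7_5_15 {n : ℕ} (hn : 5 ≤ n) : BlkD.NdX d22_22_7_5 (BlkD.exF 7 5 x22_22_7_5) n
    (BlkD.upd (BlkD.upd (BlkD.upd (BlkD.upd (fun _ => 0) 0 2) 0 3) 1 5) 1 7)
    (BlkD.upd (BlkD.upd (BlkD.upd (BlkD.upd (BlkD.upd (BlkD.upd (BlkD.upd (fun _ => 22) 0 7) 2 5) 0 3) 1 19) 1 9) 1 7) 2 2) :=
  BlkD.NdX.tree s22_22_7_5_15 ok22_22_7_5 (by decide) hn

end BlkC

end Pool.Agent.Lib.MP_f04ccf_co
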