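import Pool.Agent.Lib.MP_f04ccf_co.M.BlkX22_22_7_5d

/-!
MP_f04ccf_co, block certificate with exceptions, `R = 22`, `H = 22`, the pair `(7, 5)` (data of helper99 / helper13,
generated by helper8, genx.py): part 2 of 3.
-/

set_option autoImplicit false
set_option maxRecDepth 100000

namespace Pool.Agent.Lib.MP_f04ccf_co

namespace BlkC

/-- a subtree -/
def t22_22_7_5_16 : BlkD.Tr :=
  .S 2 4 (.S 2 3 (.S 3 9 (.S 3 4 (.S 3 2 (.S 3 1 (.L 6 7 [4, 4, 5, 5, 6, 22] [143, 142, 141, 134,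
    122, 110] [] 100000 24719 24719 1387080 13483 0 72472 11236 11798 2247 24345) (.S 4 7 (.S 4 3
    (.S 4 1 (.L 6 7 [4, 4, 5, 5, 6, 22] [98, 84, 0, 0, 0, 0] [40, 28, 14, 0, 0, 0] 100000 20833
    20833 1366668 44444 0 50000 50000 50000 50000 16667) (.L 6 7 [4, 4, 5, 5, 6, 22] [122, 110, 98,
    84, 0, 0] [40, 28, 14, 0, 0, 0] 100000 41754 41754 1324742 48454 0 79381 30928 1031 8247
    20619)) (.L 6 7 [4, 4, 5, 5, 6, 22] [143, 142, 141, 134, 122, 110] [40, 28, 14, 0, 0, 0] 100000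
    29760 29760 1290885 9920 0 100000 63539 0 10724 21180)) (.E 2))) (.S 3 3 (.S 4 7 (.S 4 3 (.L 4
    4 [4, 5, 7, 8, 10, 22] [122, 110, 98, 84, 0, 0] [60, 50, 38, 24, 0, 0] 100000 53847 53847
    1276922 46154 0 92308 46154 0 23077 19231) (.L 4 4 [4, 5, 7, 8, 10, 22] [143, 142, 141, 134,
    122, 110] [60, 50, 38, 24, 0, 0] 100000 25000 25000 1325000 0 0 100000 75000 0 25000 25000))
    (.E 2)) (.S 4 7 (.S 4 3 (.L 5 5 [4, 4, 6, 7, 8, 22] [122, 110, 98, 84, 0, 0] [80, 72, 62, 50,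
    36, 0] 100000 52000 52000 1268000 48000 0 96000 48000 0 34000 14000) (.L 5 5 [4, 4, 6, 7, 8,
    22] [143, 142, 141, 134, 122, 110] [80, 72, 62, 50, 36, 0] 100000 25000 25000 1315625 6250 0
    100000 65625 0 34375 18750)) (.E 2)))) (.L 5 5 [4, 4, 6, 7, 8, 22] [143, 142, 141, 134, 122,
    110] [] 100000 35000 35000 1300000 0 0 100000 100000 0 0 20000)) (.E 1)) (.S 3 8 (.S 3 4 (.S 3
    2 (.S 3 1 (.L 5 5 [4, 4, 6, 7, 8, 22] [143, 142, 141, 134, 122, 110] [] 100000 26786 26786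
    1385716 28571 0 64286 35714 7143 35714 35714) (.L 6 7 [4, 4, 5, 5, 6, 22] [143, 142, 141, 134,
    122, 110] [44, 32, 18, 0, 0, 0] 100000 20559 20559 1417258 22843 0 68528 45685 9137 45685
    19797)) (.S 3 3 (.L 4 5 [4, 5, 6, 7, 8, 22] [143, 142, 141, 134, 122, 110] [66, 56, 44, 30, 0,
    0] 100000 45570 45570 1316457 46835 0 74684 23418 6962 54430 25949) (.L 4 5 [4, 5, 6, 7, 8, 22]
    [143, 142, 141, 134, 122, 110] [88, 80, 70, 58, 44, 0] 100000 35000 35000 1300000 0 0 100000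
    100000 0 0 20000))) (.E 1)) (.E 1))) (.L 4 5 [4, 5, 6, 7, 8, 22] [143, 142, 141, 134, 122, 110]
    [] 100000 52174 52173 1260869 47826 0 82609 34783 0 47826 17391)

lemma s22_22_7_5_16 : BlkD.treeX d22_22_7_5 (BlkD.exF 7 5 x22_22_7_5) t22_22_7_5_16
    (BlkD.upd (BlkD.upd (BlkD.upd (BlkD.upd (BlkD.upd (fun _ => 0) 0 2) 0 3) 1 5) 1 7) 2 3)
    (BlkD.upd (BlkD.upd (BlkD.upd (BlkD.upd (BlkD.upd (BlkD.upd (fun _ => 22) 0 7) 2 5) 0 3) 1 19) 1 9) 1 7) = true := by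
  decide +kernel

lemma n22_22_7_5_16 {n : ℕ} (hn : 5 ≤ n) : BlkD.NdX d22_22_7_5 (BlkD.exF 7 5 x22_22_7_5) n
    (BlkD.upd (BlkD.upd (BlkD.upd (BlkD.upd (BlkD.upd (fun _ => 0) 0 2) 0 3) 1 5) 1 7) 2 3)
    (BlkD.upd (BlkD.upd (BlkD.upd (BlkD.upd (BlkD.upd (BlkD.upd (fun _ => 22) 0 7) 2 5) 0 3) 1 19) 1 9) 1 7) :=
  BlkD.NdX.tree s22_22_7_5_16 ok22_22_7_5 (by decide) hn

/-- a subtree -/
def t22_22_7_5_17 : BlkD.Tr :=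
  .S 1 8 (.S 2 2 (.S 2 1 (.L 4 5 [4, 5, 6, 7, 8, 22] [164, 163, 162, 161, 154, 142] [] 100000 70000
    70000 1190000 40000 50000 70000 70000 0 0 10000) (.S 3 9 (.S 3 4 (.S 3 2 (.L 4 5 [4, 5, 6, 7,
    8, 22] [164, 163, 162, 161, 154, 142] [] 100000 25000 24999 1391304 4348 2174 91304 6522 17391
    0 21739) (.S 3 3 (.S 4 8 (.S 4 4 (.L 4 5 [4, 5, 6, 7, 8, 22] [154, 142, 130, 118, 104, 0] [54,
    44, 32, 18, 0, 0] 100000 61000 61000 1228000 48000 16000 100000 60000 0 8000 16000) (.L 4 5 [4,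
    5, 6, 7, 8, 22] [164, 163, 162, 161, 154, 142] [54, 44, 32, 18, 0, 0] 100000 29521 29520
    1303459 9840 0 100000 67021 0 11436 22340)) (.E 2)) (.L 5 6 [4, 4, 5, 6, 7, 22] [164, 163, 162,
    161, 154, 142] [72, 64, 54, 42, 28, 0] 100000 52778 52777 1287037 42593 0 100000 42593 0 16667
    14815))) (.L 5 6 [4, 4, 5, 6, 7, 22] [164, 163, 162, 161, 154, 142] [] 100000 80000 80000
    1120002 63333 0 100000 63333 0 16667 20000)) (.E 1))) (.L 5 6 [4, 4, 5, 6, 7, 22] [164, 163,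
    162, 161, 154, 142] [] 100000 44583 44583 1318345 39209 0 85612 46403 1439 11331 15198)) (.L 5
    6 [4, 4, 5, 6, 7, 22] [187, 186, 185, 184, 183, 176] [] 100000 69015 69015 1188731 70423 0
    100000 33803 0 4225 26761)

lemma s22_22_7_5_17 : BlkD.treeX d22_22_7_5 (BlkD.exF 7 5 x22_22_7_5) t22_22_7_5_17
    (BlkD.upd (BlkD.upd (BlkD.upd (BlkD.upd (fun _ => 0) 0 2) 0 3) 1 5) 1 8)
    (BlkD.upd (BlkD.upd (BlkD.upd (BlkD.upd (BlkD.upd (fun _ => 22) 0 7) 2 5) 0 3) 1 19) 1 9) = true := by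
  decide +kernel

lemma n22_22_7_5_17 {n : ℕ} (hn : 5 ≤ n) : BlkD.NdX d22_22_7_5 (BlkD.exF 7 5 x22_22_7_5) n
    (BlkD.upd (BlkD.upd (BlkD.upd (BlkD.upd (fun _ => 0) 0 2) 0 3) 1 5) 1 8)
    (BlkD.upd (BlkD.upd (BlkD.upd (BlkD.upd (BlkD.upd (fun _ => 22) 0 7) 2 5) 0 3) 1 19) 1 9) :=
  BlkD.NdX.tree s22_22_7_5_17 ok22_22_7_5 (by decide) hn

/-- a subtree -/
def t22_22_7_5_18 : BlkD.Tr :=
  .E 0

lemma s22_22_7_5_18 : BlkD.treeX d22_22_7_5 (BlkD.exF 7 5 x22_22_7_5) t22_22_7_5_18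
    (BlkD.upd (BlkD.upd (BlkD.upd (fun _ => 0) 0 2) 0 3) 1 10)
    (BlkD.upd (BlkD.upd (BlkD.upd (BlkD.upd (fun _ => 22) 0 7) 2 5) 0 3) 1 19) = true := by
  decide +kernel

lemma n22_22_7_5_18 {n : ℕ} (hn : 5 ≤ n) : BlkD.NdX d22_22_7_5 (BlkD.exF 7 5 x22_22_7_5) n
    (BlkD.upd (BlkD.upd (BlkD.upd (fun _ => 0) 0 2) 0 3) 1 10)
    (BlkD.upd (BlkD.upd (BlkD.upd (BlkD.upd (fun _ => 22) 0 7) 2 5) 0 3) 1 19) :=
  BlkD.NdX.tree s22_22_7_5_18 ok22_22_7_5 (by decide) hn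

/-- a subtree -/
def t22_22_7_5_19 : BlkD.Tr :=
  .E 0

lemma s22_22_7_5_19 : BlkD.treeX d22_22_7_5 (BlkD.exF 7 5 x22_22_7_5) t22_22_7_5_19
    (BlkD.upd (BlkD.upd (BlkD.upd (fun _ => 0) 0 2) 0 3) 1 20)
    (BlkD.upd (BlkD.upd (BlkD.upd (fun _ => 22) 0 7) 2 5) 0 3) = true := by
  decide +kernel

lemma n22_22_7_5_19 {n : ℕ} (hn : 5 ≤ n) : BlkD.NdX d22_22_7_5 (BlkD.exF 7 5 x22_22_7_5) n
    (BlkD.upd (BlkD.upd (BlkD.upd (fun _ => 0) 0 2) 0 3) 1 20)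
    (BlkD.upd (BlkD.upd (BlkD.upd (fun _ => 22) 0 7) 2 5) 0 3) :=
  BlkD.NdX.tree s22_22_7_5_19 ok22_22_7_5 (by decide) hn

/-- a subtree -/
def t22_22_7_5_20 : BlkD.Tr :=
  .L 5 6 [4, 4, 5, 6, 7, 22] [] [] 100000 25000 25000 1300000 12500 0 12500 75000 0 25000 25000

lemma s22_22_7_5_20 : BlkD.treeX d22_22_7_5 (BlkD.exF 7 5 x22_22_7_5) t22_22_7_5_20
    (BlkD.upd (fun _ => 0) 0 4)
    (BlkD.upd (BlkD.upd (BlkD.upd (BlkD.upd (BlkD.upd (BlkD.upd (BlkD.upd (BlkD.upd (fun _ => 22) 0 7) 2 5) 0 5) 0 4) 1 18) 1 9) 1 4) 1 2) = true := by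
  decide +kernel

lemma n22_22_7_5_20 {n : ℕ} (hn : 5 ≤ n) : BlkD.NdX d22_22_7_5 (BlkD.exF 7 5 x22_22_7_5) n
    (BlkD.upd (fun _ => 0) 0 4)
    (BlkD.upd (BlkD.upd (BlkD.upd (BlkD.upd (BlkD.upd (BlkD.upd (BlkD.upd (BlkD.upd (fun _ => 22) 0 7) 2 5) 0 5) 0 4) 1 18) 1 9) 1 4) 1 2) :=
  BlkD.NdX.tree s22_22_7_5_20 ok22_22_7_5 (by decide) hn

/-- a subtree -/
def t22_22_7_5_21 : BlkD.Tr :=
  .S 2 2 (.S 2 1 (.L 5 6 [4, 4, 5, 6, 7, 22] [68, 56, 44, 30, 0, 0] [] 100000 30000 30000 1345000 0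
    40000 15000 75000 0 20000 25000) (.S 3 13 (.S 3 6 (.S 3 3 (.L 5 6 [4, 4, 5, 6, 7, 22] [68, 56,
    44, 30, 0, 0] [] 100000 35714 35714 1200000 0 0 0 0 0 0 19048) (.S 3 5 (.L 5 6 [4, 4, 5, 6, 7,
    22] [68, 56, 44, 30, 0, 0] [] 100000 25000 25000 1383610 6557 3279 9836 73770 0 26230 24590)
    (.L 7 8 [4, 5, 5, 4, 5, 22] [68, 56, 44, 30, 0, 0] [102, 100, 98, 90, 80, 68] 100000 25000
    25000 1375000 25000 0 25000 50000 0 25000 25000))) (.E 1)) (.E 1))) (.L 7 8 [4, 5, 5, 4, 5, 22]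
    [68, 56, 44, 30, 0, 0] [] 100000 25000 25000 1375000 25000 0 25000 50000 0 25000 25000)

lemma s22_22_7_5_21 : BlkD.treeX d22_22_7_5 (BlkD.exF 7 5 x22_22_7_5) t22_22_7_5_21
    (BlkD.upd (BlkD.upd (fun _ => 0) 0 4) 1 3)
    (BlkD.upd (BlkD.upd (BlkD.upd (BlkD.upd (BlkD.upd (BlkD.upd (BlkD.upd (BlkD.upd (fun _ => 22) 0 7) 2 5) 0 5) 0 4) 1 18) 1 9) 1 4) 1 3) = true := by
  decide +kernel

lemma n22_22_7_5_21 {n : ℕ} (hn : 5 ≤ n) : BlkD.NdX d22_22_7_5 (BlkD.exF 7 5 x22_22_7_5) n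
    (BlkD.upd (BlkD.upd (fun _ => 0) 0 4) 1 3)
    (BlkD.upd (BlkD.upd (BlkD.upd (BlkD.upd (BlkD.upd (BlkD.upd (BlkD.upd (BlkD.upd (fun _ => 22) 0 7) 2 5) 0 5) 0 4) 1 18) 1 9) 1 4) 1 3) :=
  BlkD.NdX.tree s22_22_7_5_21 ok22_22_7_5 (by decide) hn

/-- a subtree -/
def t22_22_7_5_22 : BlkD.Tr :=
  .S 2 2 (.S 2 1 (.L 7 8 [4, 5, 5, 4, 5, 22] [94, 82, 70, 58, 44, 0] [] 100000 41000 41000 1308000
    8000 64000 68000 68000 0 0 24000) (.S 3 12 (.S 3 6 (.S 3 3 (.L 7 8 [4, 5, 5, 4, 5, 22] [94, 82,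
    70, 58, 44, 0] [] 100000 33334 33334 1300000 0 0 0 0 0 0 22222) (.S 3 5 (.S 3 4 (.S 4 4 (.S 4 2
    (.L 7 8 [4, 5, 5, 4, 5, 22] [70, 58, 44, 0, 0, 0] [72, 64, 54, 42, 28, 0] 100000 29333 29333
    1377338 16000 16000 36000 49333 2667 6667 28000) (.L 7 8 [4, 5, 5, 4, 5, 22] [94, 82, 70, 58,
    44, 0] [72, 64, 54, 42, 28, 0] 100000 32222 22221 1213333 0 0 110000 76667 0 3333 20000)) (.E
    2)) (.S 4 4 (.S 4 2 (.S 4 1 (.S 4 0 (.L 7 8 [4, 5, 5, 4, 5, 22] [44, 0, 0, 0, 0, 0] [86, 84,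
    76, 66, 54, 40] 100000 15910 15910 1427272 18182 18182 0 36364 18182 18182 27273) (.L 7 8 [4,
    5, 5, 4, 5, 22] [58, 44, 0, 0, 0, 0] [86, 84, 76, 66, 54, 40] 100000 25001 25001 1387947 21429
    1339 86607 46429 0 25000 18750)) (.L 7 8 [4, 5, 5, 4, 5, 22] [70, 58, 44, 0, 0, 0] [86, 84, 76,
    66, 54, 40] 100000 25000 25000 1318605 9302 4651 100000 62791 0 27907 20930)) (.L 7 8 [4, 5, 5,
    4, 5, 22] [94, 82, 70, 58, 44, 0] [86, 84, 76, 66, 54, 40] 100000 36275 3922 1152941 0 0 132353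
    82353 0 0 23529)) (.E 2))) (.S 4 4 (.S 4 2 (.S 4 1 (.S 4 0 (.L 7 8 [4, 5, 5, 4, 5, 22] [44, 0,
    0, 0, 0, 0] [102, 100, 98, 90, 80, 68] 100000 8334 8334 1433336 33333 0 0 33333 66667 33333
    33333) (.S 5 6 (.S 5 3 (.S 5 1 (.E 2) (.S 5 2 (.E 2) (.L 8 10 [4, 5, 5, 4, 4, 22] [58, 44, 0,
    0, 0, 0] [90, 80, 68, 54, 0, 0] 100000 25000 25000 1366668 33333 0 100000 33333 0 33333
    33333))) (.S 5 5 (.S 5 4 (.L 8 10 [4, 5, 5, 4, 4, 22] [58, 44, 0, 0, 0, 0] [98, 90, 80, 68, 54,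
    0] 100000 25000 25000 1372224 22222 22222 72222 44444 0 33333 27778) (.L 7 8 [4, 5, 5, 4, 5,
    22] [58, 44, 0, 0, 0, 0] [100, 98, 90, 80, 68, 54] 100000 38889 38889 1277779 8333 0 97222
    100000 0 0 22222)) (.L 7 8 [4, 5, 5, 4, 5, 22] [58, 44, 0, 0, 0, 0] [102, 100, 98, 90, 80, 68]
    100000 66667 0 933334 19444 0 108333 166667 0 0 22222))) (.E 2))) (.L 7 8 [4, 5, 5, 4, 5, 22]
    [70, 58, 44, 0, 0, 0] [102, 100, 98, 90, 80, 68] 100000 25000 24999 1311111 11111 0 100000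
    66667 0 25000 22222)) (.L 7 8 [4, 5, 5, 4, 5, 22] [94, 82, 70, 58, 44, 0] [102, 100, 98, 90,
    80, 68] 100000 50000 0 1050000 0 0 150000 100000 0 0 16667)) (.E 2)))) (.E 1)) (.E 1))) (.S 2 4
    (.S 2 3 (.S 3 11 (.S 3 5 (.S 3 2 (.L 7 8 [4, 5, 5, 4, 5, 22] [94, 82, 70, 58, 44, 0] [] 100000
    33334 33334 1300000 0 0 0 0 0 0 22222) (.S 3 4 (.S 3 3 (.S 4 4 (.S 4 2 (.L 6 7 [4, 4, 5, 5, 6,
    22] [70, 58, 44, 0, 0, 0] [60, 50, 38, 24, 0, 0] 100000 24680 24680 1400640 19231 2885 54808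
    38782 3205 19551 22436) (.L 6 7 [4, 4, 5, 5, 6, 22] [94, 82, 70, 58, 44, 0] [60, 50, 38, 24, 0,
    0] 100000 32222 22221 1213333 0 0 110000 76667 0 3333 20000)) (.E 2)) (.S 4 4 (.S 4 2 (.S 4 1
    (.S 4 0 (.L 6 7 [4, 4, 5, 5, 6, 22] [44, 0, 0, 0, 0, 0] [80, 72, 62, 50, 36, 0] 100000 4070
    4070 1476744 16279 2326 0 44186 41860 55814 41860) (.L 6 7 [4, 4, 5, 5, 6, 22] [58, 44, 0, 0,
    0, 0] [80, 72, 62, 50, 36, 0] 100000 25000 25000 1386207 24138 0 86207 41379 0 37931 20690))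
    (.L 6 7 [4, 4, 5, 5, 6, 22] [70, 58, 44, 0, 0, 0] [80, 72, 62, 50, 36, 0] 100000 25000 25000
    1320000 0 0 100000 80000 0 40000 20000)) (.L 6 7 [4, 4, 5, 5, 6, 22] [94, 82, 70, 58, 44, 0]
    [80, 72, 62, 50, 36, 0] 100000 36275 3922 1152941 0 0 132353 82353 0 0 23529)) (.E 2))) (.L 7 8
    [4, 5, 5, 4, 5, 22] [94, 82, 70, 58, 44, 0] [96, 94, 86, 76, 64, 50] 100000 26985 26985 1391666
    2778 0 78968 100000 12698 22222 22222))) (.E 1)) (.E 1)) (.S 3 10 (.S 3 5 (.S 3 2 (.L 7 8 [4,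
    5, 5, 4, 5, 22] [94, 82, 70, 58, 44, 0] [] 100000 23056 23056 1390557 18333 13333 60000 40556
    3889 27222 27222) (.S 3 4 (.S 3 3 (.S 4 4 (.S 4 2 (.L 7 8 [4, 5, 5, 4, 5, 22] [70, 58, 44, 0,
    0, 0] [66, 56, 44, 30, 0, 0] 100000 21155 21155 1414614 28462 0 74615 32308 7692 46154 21538)
    (.L 7 8 [4, 5, 5, 4, 5, 22] [94, 82, 70, 58, 44, 0] [66, 56, 44, 30, 0, 0] 100000 50000 0
    1050000 0 0 150000 0 0 0 0)) (.E 2)) (.L 7 8 [4, 5, 5, 4, 5, 22] [94, 82, 70, 58, 44, 0] [88,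
    80, 70, 58, 44, 0] 100000 29762 29761 1377778 11111 0 87302 88889 12698 0 22222)) (.E 1))) (.E
    1)) (.E 1))) (.L 7 8 [4, 5, 5, 4, 5, 22] [94, 82, 70, 58, 44, 0] [] 100000 20001 20001 1398182
    25455 0 90909 23636 10909 52727 23636))

lemma s22_22_7_5_22 : BlkD.treeX d22_22_7_5 (BlkD.exF 7 5 x22_22_7_5) t22_22_7_5_22
    (BlkD.upd (BlkD.upd (BlkD.upd (fun _ => 0) 0 4) 1 3) 1 4)
    (BlkD.upd (BlkD.upd (BlkD.upd (BlkD.upd (BlkD.upd (BlkD.upd (BlkD.upd (fun _ => 22) 0 7) 2 5) 0 5) 0 4) 1 18) 1 9) 1 4) = true := by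
  decide +kernel

lemma n22_22_7_5_22 {n : ℕ} (hn : 5 ≤ n) : BlkD.NdX d22_22_7_5 (BlkD.exF 7 5 x22_22_7_5) n
    (BlkD.upd (BlkD.upd (BlkD.upd (fun _ => 0) 0 4) 1 3) 1 4)
    (BlkD.upd (BlkD.upd (BlkD.upd (BlkD.upd (BlkD.upd (BlkD.upd (BlkD.upd (fun _ => 22) 0 7) 2 5) 0 5) 0 4) 1 18) 1 9) 1 4) :=
  BlkD.NdX.tree s22_22_7_5_22 ok22_22_7_5 (by decide) hn

/-- a subtree -/
def t22_22_7_5_23 : BlkD.Tr :=
  .S 2 1 (.L 7 8 [4, 5, 5, 4, 5, 22] [117, 110, 98, 86, 74, 60] [] 100000 38839 38838 1314288 10714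
    57143 69643 64286 0 1786 19643) (.S 3 11 (.S 3 5 (.S 3 2 (.L 7 8 [4, 5, 5, 4, 5, 22] [117, 110,
    98, 86, 74, 60] [] 100000 33334 33334 1300000 0 0 0 0 0 0 22222) (.S 3 4 (.S 3 3 (.L 7 8 [4, 5,
    5, 4, 5, 22] [117, 110, 98, 86, 74, 60] [54, 44, 32, 18, 0, 0] 100000 28983 28982 1381186 17292
    14138 51767 48831 3371 6308 27569) (.S 4 5 (.S 4 2 (.S 4 1 (.L 7 8 [4, 5, 5, 4, 5, 22] [74, 60,
    0, 0, 0, 0] [72, 64, 54, 42, 28, 0] 100000 10715 10715 1435714 14286 17857 57143 46429 28571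
    28571 28571) (.L 7 8 [4, 5, 5, 4, 5, 22] [86, 74, 60, 0, 0, 0] [72, 64, 54, 42, 28, 0] 100000
    30968 30968 1369034 21935 14839 64516 50323 0 7097 20645)) (.L 7 8 [4, 5, 5, 4, 5, 22] [117,
    110, 98, 86, 74, 60] [72, 64, 54, 42, 28, 0] 100000 28244 28244 1315869 5589 2794 100000 72954
    0 15269 22355)) (.E 2))) (.S 4 5 (.S 4 2 (.S 4 1 (.L 7 8 [4, 5, 5, 4, 5, 22] [74, 60, 0, 0, 0,
    0] [86, 84, 76, 66, 54, 40] 100000 11207 11207 1451726 17241 17241 62069 39655 27586 27586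
    27586) (.L 7 8 [4, 5, 5, 4, 5, 22] [86, 74, 60, 0, 0, 0] [86, 84, 76, 66, 54, 40] 100000 25001
    25001 1384744 25424 6780 84746 40678 0 33898 18644)) (.L 7 8 [4, 5, 5, 4, 5, 22] [117, 110, 98,
    86, 74, 60] [86, 84, 76, 66, 54, 40] 100000 25000 24999 1317391 8696 0 100000 65217 0 26087
    21739)) (.E 2)))) (.S 3 8 (.S 3 7 (.S 3 6 (.S 4 5 (.S 4 2 (.L 5 5 [4, 4, 6, 7, 8, 22] [86, 74,
    60, 0, 0, 0] [102, 100, 98, 90, 80, 68] 100000 34615 34614 1357693 23077 7692 100000 50000 0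
    46154 23077) (.L 5 5 [4, 4, 6, 7, 8, 22] [117, 110, 98, 86, 74, 60] [102, 100, 98, 90, 80, 68]
    100000 25000 24999 1313636 0 9091 100000 68182 0 31818 18182)) (.E 2)) (.E 1)) (.E 1)) (.E 1)))
    (.E 1))

lemma s22_22_7_5_23 : BlkD.treeX d22_22_7_5 (BlkD.exF 7 5 x22_22_7_5) t22_22_7_5_23
    (BlkD.upd (BlkD.upd (fun _ => 0) 0 4) 1 5)
    (BlkD.upd (BlkD.upd (BlkD.upd (BlkD.upd (BlkD.upd (BlkD.upd (BlkD.upd (BlkD.upd (BlkD.upd (BlkD.upd (fun _ => 22) 0 7) 2 5) 0 5) 0 4) 1 18) 1 9) 1 7) 1 6) 1 5) 2 2) = true := by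
  decide +kernel

lemma n22_22_7_5_23 {n : ℕ} (hn : 5 ≤ n) : BlkD.NdX d22_22_7_5 (BlkD.exF 7 5 x22_22_7_5) n
    (BlkD.upd (BlkD.upd (fun _ => 0) 0 4) 1 5)
    (BlkD.upd (BlkD.upd (BlkD.upd (BlkD.upd (BlkD.upd (BlkD.upd (BlkD.upd (BlkD.upd (BlkD.upd (BlkD.upd (fun _ => 22) 0 7) 2 5) 0 5) 0 4) 1 18) 1 9) 1 7) 1 6) 1 5) 2 2) :=
  BlkD.NdX.tree s22_22_7_5_23 ok22_22_7_5 (by decide) hn

/-- a subtree -/
def t22_22_7_5_24 : BlkD.Tr :=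
  .S 2 4 (.S 2 3 (.S 3 10 (.S 3 5 (.S 3 2 (.S 3 1 (.L 5 5 [4, 4, 6, 7, 8, 22] [117, 110, 98, 86,
    74, 60] [] 100000 32632 32632 1301055 6316 6316 5263 6316 1053 0 22456) (.S 4 5 (.S 4 2 (.L 6 7
    [4, 4, 5, 5, 6, 22] [86, 74, 60, 0, 0, 0] [40, 28, 14, 0, 0, 0] 100000 28853 28853 1377042
    23729 5894 66217 40794 3390 6664 25424) (.L 6 7 [4, 4, 5, 5, 6, 22] [117, 110, 98, 86, 74, 60]
    [40, 28, 14, 0, 0, 0] 100000 28772 28772 1307932 5754 5754 100000 74184 0 13686 24728)) (.E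
    2))) (.S 3 4 (.S 3 3 (.S 4 5 (.S 4 2 (.S 4 1 (.L 6 7 [4, 4, 5, 5, 6, 22] [74, 60, 0, 0, 0, 0]
    [60, 50, 38, 24, 0, 0] 100000 4788 4788 1465958 8511 8511 57447 48936 40426 40426 40426) (.L 6
    7 [4, 4, 5, 5, 6, 22] [86, 74, 60, 0, 0, 0] [60, 50, 38, 24, 0, 0] 100000 25000 25000 1375000
    25000 0 75000 50000 0 25000 25000)) (.L 6 7 [4, 4, 5, 5, 6, 22] [117, 110, 98, 86, 74, 60] [60,
    50, 38, 24, 0, 0] 100000 25000 25000 1321429 3571 3571 100000 71429 0 28571 21429)) (.E 2)) (.S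
    4 5 (.S 4 2 (.S 4 1 (.L 6 7 [4, 4, 5, 5, 6, 22] [74, 60, 0, 0, 0, 0] [80, 72, 62, 50, 36, 0]
    100000 5000 5000 1460000 20000 0 60000 40000 40000 60000 40000) (.L 6 7 [4, 4, 5, 5, 6, 22]
    [86, 74, 60, 0, 0, 0] [80, 72, 62, 50, 36, 0] 100000 25000 25000 1387180 28205 0 87179 41026 0
    46154 17949)) (.L 6 7 [4, 4, 5, 5, 6, 22] [117, 110, 98, 86, 74, 60] [80, 72, 62, 50, 36, 0]
    100000 25000 24999 1317391 8696 0 100000 65217 0 34783 21739)) (.E 2))) (.L 6 7 [4, 4, 5, 5, 6,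
    22] [117, 110, 98, 86, 74, 60] [96, 94, 86, 76, 64, 50] 100000 35000 35000 1300000 0 0 100000
    100000 0 0 20000))) (.E 1)) (.E 1)) (.S 3 9 (.S 3 4 (.S 3 2 (.S 3 1 (.L 6 7 [4, 4, 5, 5, 6, 22]
    [117, 110, 98, 86, 74, 60] [] 100000 22000 21999 1402000 20000 0 56000 26000 6000 22000 21333)
    (.S 4 5 (.S 4 2 (.L 5 6 [4, 4, 5, 6, 7, 22] [86, 74, 60, 0, 0, 0] [44, 32, 18, 0, 0, 0] 100000
    20223 20222 1403184 24204 0 81529 36306 9554 42675 24204) (.L 5 6 [4, 4, 5, 6, 7, 22] [117,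
    110, 98, 86, 74, 60] [44, 32, 18, 0, 0, 0] 100000 25001 18751 1281250 6250 0 106250 6250 0
    25000 17187)) (.E 2))) (.S 3 3 (.S 4 5 (.S 4 2 (.L 7 8 [4, 5, 5, 4, 5, 22] [86, 74, 60, 0, 0,
    0] [66, 56, 44, 30, 0, 0] 100000 23438 23438 1387502 32812 0 81250 32813 3125 34375 17188) (.L
    7 8 [4, 5, 5, 4, 5, 22] [117, 110, 98, 86, 74, 60] [66, 56, 44, 30, 0, 0] 100000 25000 0
    1225000 0 0 125000 0 0 25000 25000)) (.E 2)) (.L 7 8 [4, 5, 5, 4, 5, 22] [117, 110, 98, 86, 74,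
    60] [88, 80, 70, 58, 44, 0] 100000 35000 35000 1300000 0 0 100000 100000 0 0 20000))) (.E 1))
    (.E 1))) (.L 6 7 [4, 4, 5, 5, 6, 22] [117, 110, 98, 86, 74, 60] [] 100000 25000 25000 1388890
    22222 0 100000 22222 11111 66667 22222)

lemma s22_22_7_5_24 : BlkD.treeX d22_22_7_5 (BlkD.exF 7 5 x22_22_7_5) t22_22_7_5_24
    (BlkD.upd (BlkD.upd (BlkD.upd (fun _ => 0) 0 4) 1 5) 2 3)
    (BlkD.upd (BlkD.upd (BlkD.upd (BlkD.upd (BlkD.upd (BlkD.upd (BlkD.upd (BlkD.upd (BlkD.upd (fun _ => 22) 0 7) 2 5) 0 5) 0 4) 1 18) 1 9) 1 7) 1 6) 1 5) = true := by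
  decide +kernel

lemma n22_22_7_5_24 {n : ℕ} (hn : 5 ≤ n) : BlkD.NdX d22_22_7_5 (BlkD.exF 7 5 x22_22_7_5) n
    (BlkD.upd (BlkD.upd (BlkD.upd (fun _ => 0) 0 4) 1 5) 2 3)
    (BlkD.upd (BlkD.upd (BlkD.upd (BlkD.upd (BlkD.upd (BlkD.upd (BlkD.upd (BlkD.upd (BlkD.upd (fun _ => 22) 0 7) 2 5) 0 5) 0 4) 1 18) 1 9) 1 7) 1 6) 1 5) :=
  BlkD.NdX.tree s22_22_7_5_24 ok22_22_7_5 (by decide) hn

/-- a subtree -/
def t22_22_7_5_25 : BlkD.Tr :=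
  .S 2 1 (.S 2 0 (.L 6 7 [4, 4, 5, 5, 6, 22] [136, 135, 128, 116, 104, 92] [] 100000 50000 50000
    1100000 0 0 50000 100000 0 0 0) (.S 3 11 (.S 3 5 (.L 6 7 [4, 4, 5, 5, 6, 22] [136, 135, 128,
    116, 104, 92] [] 100000 43432 43432 1321612 16525 50000 69915 62288 4661 0 17797) (.L 6 7 [4,
    4, 5, 5, 6, 22] [136, 135, 128, 116, 104, 92] [] 100000 66667 66667 1216669 0 100000 83333
    100000 16667 0 0)) (.E 1))) (.S 3 10 (.S 3 5 (.S 3 2 (.L 6 7 [4, 4, 5, 5, 6, 22] [136, 135,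
    128, 116, 104, 92] [] 100000 25556 25556 1386668 12222 556 82222 12222 11667 0 24815) (.S 3 4
    (.S 3 3 (.S 4 6 (.S 4 3 (.S 4 1 (.L 4 4 [4, 5, 7, 8, 10, 22] [92, 78, 0, 0, 0, 0] [54, 44, 32,
    18, 0, 0] 100000 52632 52631 1247367 0 84211 0 84211 57895 0 42105) (.S 4 2 (.L 7 8 [4, 5, 5,
    4, 5, 22] [104, 92, 78, 0, 0, 0] [54, 44, 32, 18, 0, 0] 100000 23256 23256 1401745 22093 22093
    50000 44767 12209 5814 27907) (.L 7 8 [4, 5, 5, 4, 5, 22] [116, 104, 92, 78, 0, 0] [54, 44, 32,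
    18, 0, 0] 100000 31452 31452 1357661 25000 14113 75000 53226 0 5645 25000))) (.L 7 8 [4, 5, 5,
    4, 5, 22] [136, 135, 128, 116, 104, 92] [54, 44, 32, 18, 0, 0] 100000 28830 28830 1315853 5532
    2766 100000 73085 0 13511 22128)) (.E 2)) (.S 4 6 (.S 4 3 (.S 4 1 (.L 7 8 [4, 5, 5, 4, 5, 22]
    [92, 78, 0, 0, 0, 0] [72, 64, 54, 42, 28, 0] 100000 15426 15426 1434043 29787 14894 78723 31915
    19149 19149 24468) (.S 4 2 (.L 7 8 [4, 5, 5, 4, 5, 22] [104, 92, 78, 0, 0, 0] [72, 64, 54, 42,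
    28, 0] 100000 20455 20454 1413635 27273 9091 77273 45455 9091 22727 18182) (.L 7 8 [4, 5, 5, 4,
    5, 22] [116, 104, 92, 78, 0, 0] [72, 64, 54, 42, 28, 0] 100000 30795 30795 1369207 29801 6954
    82450 45033 0 7616 17550))) (.L 7 8 [4, 5, 5, 4, 5, 22] [136, 135, 128, 116, 104, 92] [72, 64,
    54, 42, 28, 0] 100000 28173 28173 1314974 7107 0 100000 70812 0 15482 21320)) (.E 2))) (.S 4 6
    (.S 4 3 (.S 4 1 (.L 6 7 [4, 4, 5, 5, 6, 22] [92, 78, 0, 0, 0, 0] [86, 84, 76, 66, 54, 40]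
    100000 35000 35000 1340000 40000 0 100000 60000 0 20000 20000) (.S 4 2 (.L 7 8 [4, 5, 5, 4, 5,
    22] [104, 92, 78, 0, 0, 0] [86, 84, 76, 66, 54, 40] 100000 12501 12501 1433332 16667 0 66667
    66667 33333 16667 16667) (.L 7 8 [4, 5, 5, 4, 5, 22] [116, 104, 92, 78, 0, 0] [86, 84, 76, 66,
    54, 40] 100000 27420 27420 1364516 17742 0 100000 50000 0 17742 19355))) (.L 7 8 [4, 5, 5, 4,
    5, 22] [136, 135, 128, 116, 104, 92] [86, 84, 76, 66, 54, 40] 100000 25000 24999 1308334 0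
    16667 100000 58333 0 41667 16667)) (.E 2)))) (.L 7 8 [4, 5, 5, 4, 5, 22] [136, 135, 128, 116,
    104, 92] [] 100000 200000 0 0 0 0 300000 300000 0 0 0)) (.E 1))

lemma s22_22_7_5_25 : BlkD.treeX d22_22_7_5 (BlkD.exF 7 5 x22_22_7_5) t22_22_7_5_25
    (BlkD.upd (BlkD.upd (BlkD.upd (fun _ => 0) 0 4) 1 5) 1 6)
    (BlkD.upd (BlkD.upd (BlkD.upd (BlkD.upd (BlkD.upd (BlkD.upd (BlkD.upd (BlkD.upd (BlkD.upd (fun _ => 22) 0 7) 2 5) 0 5) 0 4) 1 18) 1 9) 1 7) 1 6) 2 2) = true := by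
  decide +kernel

lemma n22_22_7_5_25 {n : ℕ} (hn : 5 ≤ n) : BlkD.NdX d22_22_7_5 (BlkD.exF 7 5 x22_22_7_5) n
    (BlkD.upd (BlkD.upd (BlkD.upd (fun _ => 0) 0 4) 1 5) 1 6)
    (BlkD.upd (BlkD.upd (BlkD.upd (BlkD.upd (BlkD.upd (BlkD.upd (BlkD.upd (BlkD.upd (BlkD.upd (fun _ => 22) 0 7) 2 5) 0 5) 0 4) 1 18) 1 9) 1 7) 1 6) 2 2) :=
  BlkD.NdX.tree s22_22_7_5_25 ok22_22_7_5 (by decide) hn

/-- a subtree -/
def t22_22_7_5_26 : BlkD.Tr :=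
  .S 3 9 (.S 3 4 (.S 3 2 (.S 3 1 (.L 7 8 [4, 5, 5, 4, 5, 22] [136, 135, 128, 116, 104, 92] []
    100000 27273 27273 1372728 18182 18182 63636 18182 9091 0 27273) (.S 4 6 (.S 4 3 (.S 4 1 (.L 7
    8 [4, 5, 5, 4, 5, 22] [92, 78, 0, 0, 0, 0] [40, 28, 14, 0, 0, 0] 100000 12500 12500 1425000
    25000 25000 75000 37500 25000 25000 25000) (.S 4 2 (.L 7 8 [4, 5, 5, 4, 5, 22] [104, 92, 78, 0,
    0, 0] [40, 28, 14, 0, 0, 0] 100000 19925 19924 1410150 26692 12406 63534 43985 15038 10150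
    31579) (.L 7 8 [4, 5, 5, 4, 5, 22] [116, 104, 92, 78, 0, 0] [40, 28, 14, 0, 0, 0] 100000 30613
    30613 1361225 23469 19388 76531 64286 0 8163 23469))) (.L 7 8 [4, 5, 5, 4, 5, 22] [136, 135,
    128, 116, 104, 92] [40, 28, 14, 0, 0, 0] 100000 29947 29947 1294118 8021 8021 100000 66845 0
    10160 22995)) (.E 2))) (.S 3 3 (.S 4 6 (.S 4 3 (.S 4 1 (.L 7 8 [4, 5, 5, 4, 5, 22] [92, 78, 0,
    0, 0, 0] [60, 50, 38, 24, 0, 0] 100000 11843 11843 1447368 21053 21053 68421 47368 31579 26316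
    26316) (.S 4 2 (.L 7 8 [4, 5, 5, 4, 5, 22] [104, 92, 78, 0, 0, 0] [60, 50, 38, 24, 0, 0] 100000
    25001 25001 1397015 29851 8955 88060 46269 0 28358 16418) (.L 7 8 [4, 5, 5, 4, 5, 22] [116,
    104, 92, 78, 0, 0] [60, 50, 38, 24, 0, 0] 100000 25000 25000 1384616 30769 0 92308 30769 0
    30769 15385))) (.L 7 8 [4, 5, 5, 4, 5, 22] [136, 135, 128, 116, 104, 92] [60, 50, 38, 24, 0, 0]
    100000 25000 24999 1315384 0 15385 100000 69231 0 30769 23077)) (.E 2)) (.S 4 6 (.S 4 3 (.S 4 1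
    (.L 7 8 [4, 5, 5, 4, 5, 22] [92, 78, 0, 0, 0, 0] [80, 72, 62, 50, 36, 0] 100000 50000 50000
    1275000 50000 0 100000 75000 0 0 16667) (.S 4 2 (.L 7 8 [4, 5, 5, 4, 5, 22] [104, 92, 78, 0, 0,
    0] [80, 72, 62, 50, 36, 0] 100000 45000 45000 1300000 40000 0 80000 80000 0 0 20000) (.L 7 8
    [4, 5, 5, 4, 5, 22] [116, 104, 92, 78, 0, 0] [80, 72, 62, 50, 36, 0] 100000 25001 25001 1349999
    16667 0 100000 50000 0 33333 16667))) (.L 7 8 [4, 5, 5, 4, 5, 22] [136, 135, 128, 116, 104, 92]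
    [80, 72, 62, 50, 36, 0] 100000 38462 0 1130768 7692 0 138462 69231 0 7692 23077)) (.E 2)))) (.L
    7 8 [4, 5, 5, 4, 5, 22] [136, 135, 128, 116, 104, 92] [] 100000 200000 0 0 0 0 300000 0 0 0 0))
    (.E 1)

lemma s22_22_7_5_26 : BlkD.treeX d22_22_7_5 (BlkD.exF 7 5 x22_22_7_5) t22_22_7_5_26
    (BlkD.upd (BlkD.upd (BlkD.upd (BlkD.upd (fun _ => 0) 0 4) 1 5) 1 6) 2 3)
    (BlkD.upd (BlkD.upd (BlkD.upd (BlkD.upd (BlkD.upd (BlkD.upd (BlkD.upd (BlkD.upd (BlkD.upd (BlkD.upd (fun _ => 22) 0 7) 2 5) 0 5) 0 4) 1 18) 1 9) 1 7) 1 6) 2 4) 2 3) = true := by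
  decide +kernel

lemma n22_22_7_5_26 {n : ℕ} (hn : 5 ≤ n) : BlkD.NdX d22_22_7_5 (BlkD.exF 7 5 x22_22_7_5) n
    (BlkD.upd (BlkD.upd (BlkD.upd (BlkD.upd (fun _ => 0) 0 4) 1 5) 1 6) 2 3)
    (BlkD.upd (BlkD.upd (BlkD.upd (BlkD.upd (BlkD.upd (BlkD.upd (BlkD.upd (BlkD.upd (BlkD.upd (BlkD.upd (fun _ => 22) 0 7) 2 5) 0 5) 0 4) 1 18) 1 9) 1 7) 1 6) 2 4) 2 3) :=
  BlkD.NdX.tree s22_22_7_5_26 ok22_22_7_5 (by decide) hn

/-- a subtree -/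
def t22_22_7_5_27 : BlkD.Tr :=
  .S 3 8 (.S 3 4 (.S 3 2 (.S 3 1 (.S 3 0 (.L 7 8 [4, 5, 5, 4, 5, 22] [136, 135, 128, 116, 104, 92]
    [0, 0, 0, 0, 0, 0] 100000 28217 28217 1375847 24153 0 70203 0 7675 0 23928) (.S 4 6 (.S 4 3 (.L
    7 8 [4, 5, 5, 4, 5, 22] [116, 104, 92, 78, 0, 0] [22, 8, 0, 0, 0, 0] 100000 18605 18605 1423259
    25581 0 76744 51163 12791 25581 18605) (.L 7 8 [4, 5, 5, 4, 5, 22] [136, 135, 128, 116, 104,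
    92] [22, 8, 0, 0, 0, 0] 100000 25001 14707 1269118 10294 0 110294 10294 0 25000 16176)) (.E
    2))) (.S 4 6 (.S 4 3 (.S 4 1 (.L 7 8 [4, 5, 5, 4, 5, 22] [92, 78, 0, 0, 0, 0] [44, 32, 18, 0,
    0, 0] 100000 12500 12500 1425000 25000 25000 75000 50000 25000 25000 25000) (.L 7 8 [4, 5, 5,
    4, 5, 22] [116, 104, 92, 78, 0, 0] [44, 32, 18, 0, 0, 0] 100000 20621 20621 1398541 27007 4380
    89051 33577 8759 43796 14599)) (.L 7 8 [4, 5, 5, 4, 5, 22] [136, 135, 128, 116, 104, 92] [44,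
    32, 18, 0, 0, 0] 100000 30000 0 1190000 10000 0 130000 20000 0 20000 20000)) (.E 2))) (.S 3 3
    (.S 4 6 (.S 4 3 (.L 7 8 [4, 5, 5, 4, 5, 22] [116, 104, 92, 78, 0, 0] [66, 56, 44, 30, 0, 0]
    100000 25000 25000 1362500 37500 0 75000 37500 12500 37500 12500) (.L 7 8 [4, 5, 5, 4, 5, 22]
    [136, 135, 128, 116, 104, 92] [66, 56, 44, 30, 0, 0] 100000 55556 0 1011110 33333 0 155556
    33333 0 16667 16667)) (.E 2)) (.L 7 8 [4, 5, 5, 4, 5, 22] [136, 135, 128, 116, 104, 92] [88,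
    80, 70, 58, 44, 0] 100000 200000 0 0 0 0 300000 0 0 0 0))) (.E 1)) (.E 1)

lemma s22_22_7_5_27 : BlkD.treeX d22_22_7_5 (BlkD.exF 7 5 x22_22_7_5) t22_22_7_5_27
    (BlkD.upd (BlkD.upd (BlkD.upd (BlkD.upd (BlkD.upd (fun _ => 0) 0 4) 1 5) 1 6) 2 3) 2 4)
    (BlkD.upd (BlkD.upd (BlkD.upd (BlkD.upd (BlkD.upd (BlkD.upd (BlkD.upd (BlkD.upd (BlkD.upd (fun _ => 22) 0 7) 2 5) 0 5) 0 4) 1 18) 1 9) 1 7) 1 6) 2 4) = true := by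
  decide +kernel

lemma n22_22_7_5_27 {n : ℕ} (hn : 5 ≤ n) : BlkD.NdX d22_22_7_5 (BlkD.exF 7 5 x22_22_7_5) n
    (BlkD.upd (BlkD.upd (BlkD.upd (BlkD.upd (BlkD.upd (fun _ => 0) 0 4) 1 5) 1 6) 2 3) 2 4)
    (BlkD.upd (BlkD.upd (BlkD.upd (BlkD.upd (BlkD.upd (BlkD.upd (BlkD.upd (BlkD.upd (BlkD.upd (fun _ => 22) 0 7) 2 5) 0 5) 0 4) 1 18) 1 9) 1 7) 1 6) 2 4) :=
  BlkD.NdX.tree s22_22_7_5_27 ok22_22_7_5 (by decide) hn

/-- a subtree -/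
def t22_22_7_5_28 : BlkD.Tr :=
  .L 6 7 [4, 4, 5, 5, 6, 22] [136, 135, 128, 116, 104, 92] [] 100000 16667 16667 1408333 25000 0
    66667 25000 16667 41667 19444

lemma s22_22_7_5_28 : BlkD.treeX d22_22_7_5 (BlkD.exF 7 5 x22_22_7_5) t22_22_7_5_28
    (BlkD.upd (BlkD.upd (BlkD.upd (BlkD.upd (BlkD.upd (fun _ => 0) 0 4) 1 5) 1 6) 2 3) 2 5)
    (BlkD.upd (BlkD.upd (BlkD.upd (BlkD.upd (BlkD.upd (BlkD.upd (BlkD.upd (BlkD.upd (fun _ => 22) 0 7) 2 5) 0 5) 0 4) 1 18) 1 9) 1 7) 1 6) = true := by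
  decide +kernel

lemma n22_22_7_5_28 {n : ℕ} (hn : 5 ≤ n) : BlkD.NdX d22_22_7_5 (BlkD.exF 7 5 x22_22_7_5) n
    (BlkD.upd (BlkD.upd (BlkD.upd (BlkD.upd (BlkD.upd (fun _ => 0) 0 4) 1 5) 1 6) 2 3) 2 5)
    (BlkD.upd (BlkD.upd (BlkD.upd (BlkD.upd (BlkD.upd (BlkD.upd (BlkD.upd (BlkD.upd (fun _ => 22) 0 7) 2 5) 0 5) 0 4) 1 18) 1 9) 1 7) 1 6) :=
  BlkD.NdX.tree s22_22_7_5_28 ok22_22_7_5 (by decide) hn

/-- a subtree -/
def t22_22_7_5_29 : BlkD.Tr :=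
  .S 2 2 (.S 2 1 (.S 2 0 (.L 6 7 [4, 4, 5, 5, 6, 22] [157, 156, 155, 148, 136, 124] [] 100000 50000
    50000 1000000 0 0 100000 100000 0 0 0) (.S 3 10 (.S 3 5 (.S 3 2 (.L 6 7 [4, 4, 5, 5, 6, 22]
    [157, 156, 155, 148, 136, 124] [] 100000 25098 25098 1297647 4706 4706 92941 4706 17647 0
    21569) (.S 3 4 (.L 6 7 [4, 4, 5, 5, 6, 22] [157, 156, 155, 148, 136, 124] [] 100000 39976 39976
    1317328 21782 43069 66337 53960 2475 0 14851) (.L 6 7 [4, 4, 5, 5, 6, 22] [157, 156, 155, 148,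
    136, 124] [76, 74, 66, 56, 44, 30] 100000 66667 66667 1216669 0 100000 83333 100000 16667 0
    0))) (.L 6 7 [4, 4, 5, 5, 6, 22] [157, 156, 155, 148, 136, 124] [] 100000 200000 0 0 42857
    85714 300000 171429 0 0 0)) (.E 1))) (.S 3 9 (.S 3 4 (.S 3 2 (.L 6 7 [4, 4, 5, 5, 6, 22] [157,
    156, 155, 148, 136, 124] [] 100000 25000 25000 1385716 9524 4762 85714 9524 14286 0 23810) (.S
    3 3 (.S 4 7 (.S 4 3 (.L 6 7 [4, 4, 5, 5, 6, 22] [136, 124, 112, 98, 0, 0] [54, 44, 32, 18, 0,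
    0] 100000 48334 48334 1300000 40000 26667 100000 40000 0 0 20000) (.L 7 8 [4, 5, 5, 4, 5, 22]
    [157, 156, 155, 148, 136, 124] [54, 44, 32, 18, 0, 0] 100000 32143 32143 1367858 25000 16071
    75000 50000 0 3571 25000)) (.E 2)) (.S 4 7 (.S 4 3 (.L 7 8 [4, 5, 5, 4, 5, 22] [136, 124, 112,
    98, 0, 0] [72, 64, 54, 42, 28, 0] 100000 17188 17188 1400000 25000 12500 87500 37500 18750
    37500 18750) (.L 7 8 [4, 5, 5, 4, 5, 22] [157, 156, 155, 148, 136, 124] [72, 64, 54, 42, 28, 0]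
    100000 31819 31819 1345454 18182 0 100000 52273 0 4545 25000)) (.E 2)))) (.L 7 8 [4, 5, 5, 4,
    5, 22] [157, 156, 155, 148, 136, 124] [] 100000 200000 0 0 0 0 300000 300000 0 0 0)) (.E 1)))
    (.S 2 4 (.S 2 3 (.S 3 8 (.S 3 4 (.S 3 2 (.S 3 1 (.L 7 8 [4, 5, 5, 4, 5, 22] [157, 156, 155,
    148, 136, 124] [] 100000 28656 28656 1355544 24764 24764 74292 45401 4953 4127 24764) (.S 4 7
    (.S 4 3 (.L 7 8 [4, 5, 5, 4, 5, 22] [136, 124, 112, 98, 0, 0] [40, 28, 14, 0, 0, 0] 100000 8334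
    8334 1438887 16667 16667 77778 38889 44444 44444 27778) (.L 7 8 [4, 5, 5, 4, 5, 22] [157, 156,
    155, 148, 136, 124] [40, 28, 14, 0, 0, 0] 100000 32143 32143 1350000 25000 0 100000 39286 0
    10714 25000)) (.E 2))) (.L 6 7 [4, 4, 5, 5, 6, 22] [157, 156, 155, 148, 136, 124] [] 100000
    25000 25000 1380000 20000 0 100000 40000 0 40000 20000)) (.E 2)) (.E 1)) (.L 6 7 [4, 4, 5, 5,
    6, 22] [157, 156, 155, 148, 136, 124] [] 100000 20000 20000 1406667 23333 0 86667 36667 10000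
    43333 20000)) (.L 6 7 [4, 4, 5, 5, 6, 22] [157, 156, 155, 148, 136, 124] [] 100000 25000 25000
    1320000 30000 0 95000 0 0 50000 20000))

lemma s22_22_7_5_29 : BlkD.treeX d22_22_7_5 (BlkD.exF 7 5 x22_22_7_5) t22_22_7_5_29
    (BlkD.upd (BlkD.upd (BlkD.upd (fun _ => 0) 0 4) 1 5) 1 7)
    (BlkD.upd (BlkD.upd (BlkD.upd (BlkD.upd (BlkD.upd (BlkD.upd (BlkD.upd (fun _ => 22) 0 7) 2 5) 0 5) 0 4) 1 18) 1 9) 1 7) = true := by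
  decide +kernel

lemma n22_22_7_5_29 {n : ℕ} (hn : 5 ≤ n) : BlkD.NdX d22_22_7_5 (BlkD.exF 7 5 x22_22_7_5) n
    (BlkD.upd (BlkD.upd (BlkD.upd (fun _ => 0) 0 4) 1 5) 1 7)
    (BlkD.upd (BlkD.upd (BlkD.upd (BlkD.upd (BlkD.upd (BlkD.upd (BlkD.upd (fun _ => 22) 0 7) 2 5) 0 5) 0 4) 1 18) 1 9) 1 7) :=
  BlkD.NdX.tree s22_22_7_5_29 ok22_22_7_5 (by decide) hn

/-- a subtree -/
def t22_22_7_5_30 : BlkD.Tr :=
  .L 6 7 [4, 4, 5, 5, 6, 22] [] [] 100000 21429 21429 1400002 0 0 100000 50000 21429 14286 21429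

lemma s22_22_7_5_30 : BlkD.treeX d22_22_7_5 (BlkD.exF 7 5 x22_22_7_5) t22_22_7_5_30
    (BlkD.upd (BlkD.upd (BlkD.upd (fun _ => 0) 0 4) 1 5) 1 8)
    (BlkD.upd (BlkD.upd (BlkD.upd (BlkD.upd (BlkD.upd (BlkD.upd (fun _ => 22) 0 7) 2 5) 0 5) 0 4) 1 18) 1 9) = true := by
  decide +kernel

lemma n22_22_7_5_30 {n : ℕ} (hn : 5 ≤ n) : BlkD.NdX d22_22_7_5 (BlkD.exF 7 5 x22_22_7_5) n
    (BlkD.upd (BlkD.upd (BlkD.upd (fun _ => 0) 0 4) 1 5) 1 8)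
    (BlkD.upd (BlkD.upd (BlkD.upd (BlkD.upd (BlkD.upd (BlkD.upd (fun _ => 22) 0 7) 2 5) 0 5) 0 4) 1 18) 1 9) :=
  BlkD.NdX.tree s22_22_7_5_30 ok22_22_7_5 (by decide) hn

/-- a subtree -/
def t22_22_7_5_31 : BlkD.Tr :=
  .E 0

lemma s22_22_7_5_31 : BlkD.treeX d22_22_7_5 (BlkD.exF 7 5 x22_22_7_5) t22_22_7_5_31
    (BlkD.upd (BlkD.upd (fun _ => 0) 0 4) 1 10)
    (BlkD.upd (BlkD.upd (BlkD.upd (BlkD.upd (BlkD.upd (fun _ => 22) 0 7) 2 5) 0 5) 0 4) 1 18) = true := by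
  decide +kernel

lemma n22_22_7_5_31 {n : ℕ} (hn : 5 ≤ n) : BlkD.NdX d22_22_7_5 (BlkD.exF 7 5 x22_22_7_5) n
    (BlkD.upd (BlkD.upd (fun _ => 0) 0 4) 1 10)
    (BlkD.upd (BlkD.upd (BlkD.upd (BlkD.upd (BlkD.upd (fun _ => 22) 0 7) 2 5) 0 5) 0 4) 1 18) :=
  BlkD.NdX.tree s22_22_7_5_31 ok22_22_7_5 (by decide) hn

/-- a subtree -/
def t22_22_7_5_32 : BlkD.Tr :=
  .E 0

lemma s22_22_7_5_32 : BlkD.treeX d22_22_7_5 (BlkD.exF 7 5 x22_22_7_5) t22_22_7_5_32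
    (BlkD.upd (BlkD.upd (fun _ => 0) 0 4) 1 19)
    (BlkD.upd (BlkD.upd (BlkD.upd (BlkD.upd (fun _ => 22) 0 7) 2 5) 0 5) 0 4) = true := by
  decide +kernel

lemma n22_22_7_5_32 {n : ℕ} (hn : 5 ≤ n) : BlkD.NdX d22_22_7_5 (BlkD.exF 7 5 x22_22_7_5) n
    (BlkD.upd (BlkD.upd (fun _ => 0) 0 4) 1 19)
    (BlkD.upd (BlkD.upd (BlkD.upd (BlkD.upd (fun _ => 22) 0 7) 2 5) 0 5) 0 4) :=
  BlkD.NdX.tree s22_22_7_5_32 ok22_22_7_5 (by decide) hn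

/-- a subtree -/
def t22_22_7_5_33 : BlkD.Tr :=
  .S 1 1 (.L 6 7 [4, 4, 5, 5, 6, 22] [] [] 100000 25000 25000 1300000 25000 0 25000 75000 0 25000
    25000) (.S 2 2 (.S 2 1 (.L 6 7 [4, 4, 5, 5, 6, 22] [48, 36, 22, 0, 0, 0] [] 100000 32143 32143
    1314287 7143 42857 21429 71429 0 14286 23810) (.S 3 13 (.S 3 6 (.S 3 3 (.L 6 7 [4, 4, 5, 5, 6,
    22] [48, 36, 22, 0, 0, 0] [] 100000 35714 35714 1200000 0 0 0 0 0 0 19048) (.S 3 5 (.L 6 7 [4,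
    4, 5, 5, 6, 22] [48, 36, 22, 0, 0, 0] [] 100000 26471 26471 1364706 11765 11765 23529 58824 0
    20588 20588) (.L 7 8 [4, 5, 5, 4, 5, 22] [48, 36, 22, 0, 0, 0] [102, 100, 98, 90, 80, 68]
    100000 25000 25000 1380000 30000 0 30000 60000 0 30000 20000))) (.E 1)) (.E 1))) (.L 7 8 [4, 5,
    5, 4, 5, 22] [48, 36, 22, 0, 0, 0] [] 100000 25000 25000 1389286 10714 10714 10714 50000 0
    25000 25000))

lemma s22_22_7_5_33 : BlkD.treeX d22_22_7_5 (BlkD.exF 7 5 x22_22_7_5) t22_22_7_5_33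
    (BlkD.upd (BlkD.upd (fun _ => 0) 0 4) 0 5)
    (BlkD.upd (BlkD.upd (BlkD.upd (BlkD.upd (BlkD.upd (BlkD.upd (BlkD.upd (fun _ => 22) 0 7) 2 5) 0 5) 1 17) 1 8) 1 4) 1 2) = true := by
  decide +kernel

lemma n22_22_7_5_33 {n : ℕ} (hn : 5 ≤ n) : BlkD.NdX d22_22_7_5 (BlkD.exF 7 5 x22_22_7_5) n
    (BlkD.upd (BlkD.upd (fun _ => 0) 0 4) 0 5)
    (BlkD.upd (BlkD.upd (BlkD.upd (BlkD.upd (BlkD.upd (BlkD.upd (BlkD.upd (fun _ => 22) 0 7) 2 5) 0 5) 1 17) 1 8) 1 4) 1 2) :=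
  BlkD.NdX.tree s22_22_7_5_33 ok22_22_7_5 (by decide) hn

end BlkC

end Pool.Agent.Lib.MP_f04ccf_co
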