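import Pool.Agent.Lib.MP_f04ccf_co.M.BlkX22_22_7_5d
import Pool.Agent.Lib.MP_f04ccf_co.M.BlkX22_22_7_5p1
import Pool.Agent.Lib.MP_f04ccf_co.M.BlkX22_22_7_5p2
import Pool.Agent.Lib.MP_f04ccf_co.M.BlkX22_22_7_5p3

/-!
MP_f04ccf_co, block certificate with exceptions, `R = 22`, `H = 22`, the pair `(7, 5)` (data of helper99 / helper13,
generated by helper8, genx.py): the parts together.
-/

set_option autoImplicit false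
set_option maxRecDepth 100000

namespace Pool.Agent.Lib.MP_f04ccf_co

namespace BlkC

lemma x22_22_7_5_5 : NoNd ((22 : ℕ) : ℤ) ((22 : ℕ) : ℤ) 5 7 5 fun x y z w _ _ =>
    BlkD.exF 7 5 x22_22_7_5 x y z w := by
  refine NoNd.of_E (by norm_num) (by norm_num) fun e he => ?_
  exact absurd he (by simp [x22_22_7_5])

lemma x22_22_7_5_6 : NoNd ((22 : ℕ) : ℤ) ((22 : ℕ) : ℤ) 6 7 5 fun x y z w _ _ =>
    BlkD.exF 7 5 x22_22_7_5 x y z w := by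
  refine NoNd.of_E (by norm_num) (by norm_num) fun e he => ?_
  exact absurd he (by simp [x22_22_7_5])

lemma x22_22_7_5_7 : NoNd ((22 : ℕ) : ℤ) ((22 : ℕ) : ℤ) 7 7 5 fun x y z w _ _ =>
    BlkD.exF 7 5 x22_22_7_5 x y z w := by
  refine NoNd.of_E (by norm_num) (by norm_num) fun e he => ?_
  exact absurd he (by simp [x22_22_7_5])

lemma x22_22_7_5_8 : NoNd ((22 : ℕ) : ℤ) ((22 : ℕ) : ℤ) 8 7 5 fun x y z w _ _ =>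
    BlkD.exF 7 5 x22_22_7_5 x y z w := by
  refine NoNd.of_E (by norm_num) (by norm_num) fun e he => ?_
  exact absurd he (by simp [x22_22_7_5])

lemma x22_22_7_5_9 : NoNd ((22 : ℕ) : ℤ) ((22 : ℕ) : ℤ) 9 7 5 fun x y z w _ _ =>
    BlkD.exF 7 5 x22_22_7_5 x y z w := by
  refine NoNd.of_E (by norm_num) (by norm_num) fun e he => ?_
  exact absurd he (by simp [x22_22_7_5])

lemma r22_22_7_5 {n : ℕ} (hn : 5 ≤ n) : BlkD.NdX d22_22_7_5 (BlkD.exF 7 5 x22_22_7_5) n (fun _ => 0) (fun _ => 22) :=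
  (BlkD.NdX.sp 0 7
  (BlkD.NdX.sp 2 5
  (BlkD.NdX.sp 0 3
  (BlkD.NdX.sp 0 1
  (BlkD.NdX.sp 0 0
  (n22_22_7_5_0 hn)
  (BlkD.NdX.sp 1 11
  (BlkD.NdX.sp 1 5
  (n22_22_7_5_1 hn)
  (n22_22_7_5_2 hn))
  (n22_22_7_5_3 hn)))
  (BlkD.NdX.sp 0 2
  (BlkD.NdX.sp 1 20
  (BlkD.NdX.sp 1 10
  (BlkD.NdX.sp 1 5
  (n22_22_7_5_4 hn)
  (BlkD.NdX.sp 1 8
  (BlkD.NdX.sp 1 7
  (BlkD.NdX.sp 1 6
  (n22_22_7_5_5 hn)
  (n22_22_7_5_6 hn))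
  (n22_22_7_5_7 hn))
  (n22_22_7_5_8 hn)))
  (n22_22_7_5_9 hn))
  (n22_22_7_5_10 hn))
  (BlkD.NdX.sp 1 19
  (BlkD.NdX.sp 1 9
  (BlkD.NdX.sp 1 4
  (n22_22_7_5_11 hn)
  (BlkD.NdX.sp 1 7
  (BlkD.NdX.sp 1 6
  (BlkD.NdX.sp 1 5
  (n22_22_7_5_12 hn)
  (BlkD.NdX.sp 2 2
  (n22_22_7_5_13 hn)
  (n22_22_7_5_14 hn)))
  (BlkD.NdX.sp 2 2
  (n22_22_7_5_15 hn)
  (n22_22_7_5_16 hn)))
  (n22_22_7_5_17 hn)))
  (n22_22_7_5_18 hn))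
  (n22_22_7_5_19 hn))))
  (BlkD.NdX.sp 0 5
  (BlkD.NdX.sp 0 4
  (BlkD.NdX.sp 1 18
  (BlkD.NdX.sp 1 9
  (BlkD.NdX.sp 1 4
  (BlkD.NdX.sp 1 2
  (n22_22_7_5_20 hn)
  (BlkD.NdX.sp 1 3
  (n22_22_7_5_21 hn)
  (n22_22_7_5_22 hn)))
  (BlkD.NdX.sp 1 7
  (BlkD.NdX.sp 1 6
  (BlkD.NdX.sp 1 5
  (BlkD.NdX.sp 2 2
  (n22_22_7_5_23 hn)
  (n22_22_7_5_24 hn))
  (BlkD.NdX.sp 2 2
  (n22_22_7_5_25 hn)
  (BlkD.NdX.sp 2 4
  (BlkD.NdX.sp 2 3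
  (n22_22_7_5_26 hn)
  (n22_22_7_5_27 hn))
  (n22_22_7_5_28 hn))))
  (n22_22_7_5_29 hn))
  (n22_22_7_5_30 hn)))
  (n22_22_7_5_31 hn))
  (n22_22_7_5_32 hn))
  (BlkD.NdX.sp 1 17
  (BlkD.NdX.sp 1 8
  (BlkD.NdX.sp 1 4
  (BlkD.NdX.sp 1 2
  (n22_22_7_5_33 hn)
  (BlkD.NdX.sp 1 3
  (n22_22_7_5_34 hn)
  (n22_22_7_5_35 hn)))
  (n22_22_7_5_36 hn))
  (n22_22_7_5_37 hn))
  (n22_22_7_5_38 hn)))
  (BlkD.NdX.sp 0 6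
  (n22_22_7_5_39 hn)
  (n22_22_7_5_40 hn))))
  (n22_22_7_5_41 hn))
  (n22_22_7_5_42 hn))

/-- **`R = 22`, `H = 22`, the pair `(7, 5)`** -/
theorem pr22_22_7_5 {n : ℕ} (hn : 5 ≤ n) : NoPr ((22 : ℕ) : ℤ) ((22 : ℕ) : ℤ) n 7 5 := by
  by_cases h : n < 10
  · interval_cases n
    · exact BlkD.NdX.pr (r22_22_7_5 (by norm_num)) (by decide) (by decide) x22_22_7_5_5 rfl rfl rfl rfl
    · exact BlkD.NdX.pr (r22_22_7_5 (by norm_num)) (by decide) (by decide) x22_22_7_5_6 rfl rfl rfl rfl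
    · exact BlkD.NdX.pr (r22_22_7_5 (by norm_num)) (by decide) (by decide) x22_22_7_5_7 rfl rfl rfl rfl
    · exact BlkD.NdX.pr (r22_22_7_5 (by norm_num)) (by decide) (by decide) x22_22_7_5_8 rfl rfl rfl rfl
    · exact BlkD.NdX.pr (r22_22_7_5 (by norm_num)) (by decide) (by decide) x22_22_7_5_9 rfl rfl rfl rfl
  · exact NoPr.big (by omega) (by omega)

end BlkC

end Pool.Agent.Lib.MP_f04ccf_co
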