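import Pool.Agent.Lib.MP_f04ccf_co.M.EnPx

/-!
MP_f04ccf_co, block certificate with exceptions, `R = 22`, `H = 22`, the pair `(7, 5)` (data of helper99 / helper13,
generated by helper8, genx.py): the numbers.
-/

set_option autoImplicit false
set_option maxRecDepth 100000

namespace Pool.Agent.Lib.MP_f04ccf_co

namespace BlkC

/-- the numbers of the pair `(7, 5)`, `R = 22`, `H = 22` -/
def d22_22_7_5 : BlkD.Pd :=
  ⟨22, 22, 3, 7, 5, 7, 4, 3, 1, 4, 12, 0, 2, 2, 10, 0, [0, 12, 24, 31, 32, 33, 34, 35], [0, 10, 18,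
    20, 22, 24, 26, 28], [⟨1, 1, 1, 4, 8, [0, 4], [0, 4]⟩, ⟨1, 1, 1, 6, 12, [0, 6], [0, 6]⟩, ⟨1, 1,
    1, 6, 16, [0, 8], [0, 8]⟩, ⟨2, 1, 1, 6, 24, [0, 10, 14], [0, 10]⟩, ⟨2, 2, 1, 4, 36, [0, 12,
    22], [0, 10, 14]⟩]⟩

/-- the exceptions of the pair `(7, 5)` -/
def x22_22_7_5 : List (ℕ × ℕ × ℕ × ℕ) :=
  []

lemma ok22_22_7_5 : BlkD.pairOk d22_22_7_5 = true := by decide +kernel

end BlkC

end Pool.Agent.Lib.MP_f04ccf_co
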