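import Pool.Agent.Lib.MP_f04ccf_co.M.BlkX22_22_9_5d

/-!
MP_f04ccf_co, block certificate with exceptions, `R = 22`, `H = 22`, the pair `(9, 5)` (data of helper99 / helper13,
generated by helper8, genx.py): part 1 of 2.
-/

set_option autoImplicit false
set_option maxRecDepth 100000

namespace Pool.Agent.Lib.MP_f04ccf_co

namespace BlkC

/-- a subtree -/
def t22_22_9_5_0 : BlkD.Tr :=
  .S 0 0 (.L 5 6 [4, 4, 5, 22, 22, 22] [] [] 100000 92858 92858 1357142 71429 0 85714 28571 0 0 0)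
    (.S 1 11 (.S 1 5 (.L 5 6 [4, 4, 5, 22, 22, 22] [] [] 100000 92858 92858 1357142 71429 0 85714
    28571 0 0 0) (.S 1 8 (.L 5 6 [4, 4, 5, 22, 22, 22] [] [] 100000 92858 92858 1357142 71429 0
    85714 28571 0 0 0) (.L 5 6 [4, 4, 5, 22, 22, 22] [] [] 100000 92858 92858 1357142 71429 0 85714
    28571 0 0 0))) (.L 5 6 [4, 4, 5, 22, 22, 22] [] [] 100000 92858 92858 1357142 71429 0 85714
    28571 0 0 0))

lemma s22_22_9_5_0 : BlkD.treeX d22_22_9_5 (BlkD.exF 9 5 x22_22_9_5) t22_22_9_5_0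
    (fun _ => 0)
    (BlkD.upd (BlkD.upd (BlkD.upd (BlkD.upd (BlkD.upd (fun _ => 22) 0 9) 2 5) 0 4) 0 2) 0 1) = true := by
  decide +kernel

lemma n22_22_9_5_0 {n : ℕ} (hn : 5 ≤ n) : BlkD.NdX d22_22_9_5 (BlkD.exF 9 5 x22_22_9_5) n
    (fun _ => 0)
    (BlkD.upd (BlkD.upd (BlkD.upd (BlkD.upd (BlkD.upd (fun _ => 22) 0 9) 2 5) 0 4) 0 2) 0 1) :=
  BlkD.NdX.tree s22_22_9_5_0 ok22_22_9_5 (by decide) hn

/-- a subtree -/
def t22_22_9_5_1 : BlkD.Tr :=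
  .L 5 6 [4, 4, 5, 22, 22, 22] [] [] 100000 92858 92858 1357142 71429 0 85714 28571 0 0 0

lemma s22_22_9_5_1 : BlkD.treeX d22_22_9_5 (BlkD.exF 9 5 x22_22_9_5) t22_22_9_5_1
    (BlkD.upd (fun _ => 0) 0 2)
    (BlkD.upd (BlkD.upd (BlkD.upd (BlkD.upd (BlkD.upd (BlkD.upd (fun _ => 22) 0 9) 2 5) 0 4) 0 2) 1 11) 1 5) = true := by
  decide +kernel

lemma n22_22_9_5_1 {n : ℕ} (hn : 5 ≤ n) : BlkD.NdX d22_22_9_5 (BlkD.exF 9 5 x22_22_9_5) n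
    (BlkD.upd (fun _ => 0) 0 2)
    (BlkD.upd (BlkD.upd (BlkD.upd (BlkD.upd (BlkD.upd (BlkD.upd (fun _ => 22) 0 9) 2 5) 0 4) 0 2) 1 11) 1 5) :=
  BlkD.NdX.tree s22_22_9_5_1 ok22_22_9_5 (by decide) hn

/-- a subtree -/
def t22_22_9_5_2 : BlkD.Tr :=
  .S 1 8 (.L 5 6 [4, 4, 5, 22, 22, 22] [] [] 100000 92858 92858 1357142 71429 0 85714 28571 0 0 0)
    (.S 1 10 (.L 5 6 [4, 4, 5, 22, 22, 22] [] [] 100000 92858 92858 1357142 71429 0 85714 28571 0 0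
    0) (.L 5 6 [4, 4, 5, 22, 22, 22] [216, 216, 216, 216, 216, 216] [] 100000 92858 92858 1357142
    71429 0 85714 28571 0 0 0))

lemma s22_22_9_5_2 : BlkD.treeX d22_22_9_5 (BlkD.exF 9 5 x22_22_9_5) t22_22_9_5_2
    (BlkD.upd (BlkD.upd (fun _ => 0) 0 2) 1 6)
    (BlkD.upd (BlkD.upd (BlkD.upd (BlkD.upd (BlkD.upd (fun _ => 22) 0 9) 2 5) 0 4) 0 2) 1 11) = true := by
  decide +kernel

lemma n22_22_9_5_2 {n : ℕ} (hn : 5 ≤ n) : BlkD.NdX d22_22_9_5 (BlkD.exF 9 5 x22_22_9_5) n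
    (BlkD.upd (BlkD.upd (fun _ => 0) 0 2) 1 6)
    (BlkD.upd (BlkD.upd (BlkD.upd (BlkD.upd (BlkD.upd (fun _ => 22) 0 9) 2 5) 0 4) 0 2) 1 11) :=
  BlkD.NdX.tree s22_22_9_5_2 ok22_22_9_5 (by decide) hn

/-- a subtree -/
def t22_22_9_5_3 : BlkD.Tr :=
  .S 1 17 (.S 1 14 (.S 1 13 (.L 5 6 [4, 4, 5, 22, 22, 22] [] [] 100000 92858 92858 1357142 71429 0
    85714 28571 0 0 0) (.L 5 6 [4, 4, 5, 22, 22, 22] [300, 300, 300, 300, 300, 300] [] 100000 92858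
    92858 1357142 71429 0 85714 28571 0 0 0)) (.L 5 6 [4, 4, 5, 22, 22, 22] [] [] 100000 92858
    92858 1357142 71429 0 85714 28571 0 0 0)) (.L 5 6 [4, 4, 5, 22, 22, 22] [] [] 100000 92858
    92858 1357142 71429 0 85714 28571 0 0 0)

lemma s22_22_9_5_3 : BlkD.treeX d22_22_9_5 (BlkD.exF 9 5 x22_22_9_5) t22_22_9_5_3
    (BlkD.upd (BlkD.upd (fun _ => 0) 0 2) 1 12)
    (BlkD.upd (BlkD.upd (BlkD.upd (BlkD.upd (fun _ => 22) 0 9) 2 5) 0 4) 0 2) = true := by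
  decide +kernel

lemma n22_22_9_5_3 {n : ℕ} (hn : 5 ≤ n) : BlkD.NdX d22_22_9_5 (BlkD.exF 9 5 x22_22_9_5) n
    (BlkD.upd (BlkD.upd (fun _ => 0) 0 2) 1 12)
    (BlkD.upd (BlkD.upd (BlkD.upd (BlkD.upd (fun _ => 22) 0 9) 2 5) 0 4) 0 2) :=
  BlkD.NdX.tree s22_22_9_5_3 ok22_22_9_5 (by decide) hn

/-- a subtree -/
def t22_22_9_5_4 : BlkD.Tr :=
  .S 1 4 (.L 5 6 [4, 4, 5, 22, 22, 22] [] [] 100000 5556 5556 1466668 11111 0 11111 22222 0 0 0)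
    (.S 1 7 (.L 5 6 [4, 4, 5, 22, 22, 22] [] [] 100000 1 1 1668750 21875 0 43750 68750 0 31250
    10937) (.S 1 8 (.L 5 6 [4, 4, 5, 22, 22, 22] [166, 166, 166, 166, 156, 146] [] 100000 36986
    36986 1612330 38356 0 57534 28767 0 17808 13699) (.L 5 6 [4, 4, 5, 22, 22, 22] [188, 188, 188,
    188, 188, 178] [] 100000 93183 93183 1500001 59091 0 72727 45455 0 9091 13636)))

lemma s22_22_9_5_4 : BlkD.treeX d22_22_9_5 (BlkD.exF 9 5 x22_22_9_5) t22_22_9_5_4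
    (BlkD.upd (fun _ => 0) 0 3)
    (BlkD.upd (BlkD.upd (BlkD.upd (BlkD.upd (BlkD.upd (BlkD.upd (fun _ => 22) 0 9) 2 5) 0 4) 0 3) 1 19) 1 9) = true := by
  decide +kernel

lemma n22_22_9_5_4 {n : ℕ} (hn : 5 ≤ n) : BlkD.NdX d22_22_9_5 (BlkD.exF 9 5 x22_22_9_5) n
    (BlkD.upd (fun _ => 0) 0 3)
    (BlkD.upd (BlkD.upd (BlkD.upd (BlkD.upd (BlkD.upd (BlkD.upd (fun _ => 22) 0 9) 2 5) 0 4) 0 3) 1 19) 1 9) :=
  BlkD.NdX.tree s22_22_9_5_4 ok22_22_9_5 (by decide) hn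

/-- a subtree -/
def t22_22_9_5_5 : BlkD.Tr :=
  .S 1 12 (.S 1 11 (.S 1 10 (.L 5 6 [4, 4, 5, 22, 22, 22] [212, 212, 212, 212, 212, 212] [] 100000
    88461 88461 1476926 61538 0 76923 61538 0 7692 7692) (.L 5 6 [4, 4, 5, 22, 22, 22] [238, 238,
    238, 238, 238, 238] [] 100000 150000 150000 1300000 100000 0 100000 0 0 0 0)) (.L 5 6 [4, 4, 5,
    22, 22, 22] [266, 266, 266, 266, 266, 266] [] 100000 150000 100000 1100000 100000 0 150000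
    50000 0 0 0)) (.S 1 13 (.L 5 6 [4, 4, 5, 22, 22, 22] [296, 296, 296, 296, 296, 296] [] 100000
    200000 150000 850000 150000 0 150000 0 0 0 0) (.L 5 6 [4, 4, 5, 22, 22, 22] [328, 328, 328,
    328, 328, 328] [] 100000 385714 242857 1 242857 0 242857 0 0 0 0))

lemma s22_22_9_5_5 : BlkD.treeX d22_22_9_5 (BlkD.exF 9 5 x22_22_9_5) t22_22_9_5_5
    (BlkD.upd (BlkD.upd (fun _ => 0) 0 3) 1 10)
    (BlkD.upd (BlkD.upd (BlkD.upd (BlkD.upd (BlkD.upd (BlkD.upd (fun _ => 22) 0 9) 2 5) 0 4) 0 3) 1 19) 1 14) = true := by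
  decide +kernel

lemma n22_22_9_5_5 {n : ℕ} (hn : 5 ≤ n) : BlkD.NdX d22_22_9_5 (BlkD.exF 9 5 x22_22_9_5) n
    (BlkD.upd (BlkD.upd (fun _ => 0) 0 3) 1 10)
    (BlkD.upd (BlkD.upd (BlkD.upd (BlkD.upd (BlkD.upd (BlkD.upd (fun _ => 22) 0 9) 2 5) 0 4) 0 3) 1 19) 1 14) :=
  BlkD.NdX.tree s22_22_9_5_5 ok22_22_9_5 (by decide) hn

/-- a subtree -/
def t22_22_9_5_6 : BlkD.Tr :=
  .L 5 6 [4, 4, 5, 22, 22, 22] [] [] 100000 600000 500000 100000 200000 0 200000 0 0 0 0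

lemma s22_22_9_5_6 : BlkD.treeX d22_22_9_5 (BlkD.exF 9 5 x22_22_9_5) t22_22_9_5_6
    (BlkD.upd (BlkD.upd (BlkD.upd (fun _ => 0) 0 3) 1 10) 1 15)
    (BlkD.upd (BlkD.upd (BlkD.upd (BlkD.upd (BlkD.upd (fun _ => 22) 0 9) 2 5) 0 4) 0 3) 1 19) = true := by
  decide +kernel

lemma n22_22_9_5_6 {n : ℕ} (hn : 5 ≤ n) : BlkD.NdX d22_22_9_5 (BlkD.exF 9 5 x22_22_9_5) n
    (BlkD.upd (BlkD.upd (BlkD.upd (fun _ => 0) 0 3) 1 10) 1 15)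
    (BlkD.upd (BlkD.upd (BlkD.upd (BlkD.upd (BlkD.upd (fun _ => 22) 0 9) 2 5) 0 4) 0 3) 1 19) :=
  BlkD.NdX.tree s22_22_9_5_6 ok22_22_9_5 (by decide) hn

/-- a subtree -/
def t22_22_9_5_7 : BlkD.Tr :=
  .E 0

lemma s22_22_9_5_7 : BlkD.treeX d22_22_9_5 (BlkD.exF 9 5 x22_22_9_5) t22_22_9_5_7
    (BlkD.upd (BlkD.upd (fun _ => 0) 0 3) 1 20)
    (BlkD.upd (BlkD.upd (BlkD.upd (BlkD.upd (fun _ => 22) 0 9) 2 5) 0 4) 0 3) = true := by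
  decide +kernel

lemma n22_22_9_5_7 {n : ℕ} (hn : 5 ≤ n) : BlkD.NdX d22_22_9_5 (BlkD.exF 9 5 x22_22_9_5) n
    (BlkD.upd (BlkD.upd (fun _ => 0) 0 3) 1 20)
    (BlkD.upd (BlkD.upd (BlkD.upd (BlkD.upd (fun _ => 22) 0 9) 2 5) 0 4) 0 3) :=
  BlkD.NdX.tree s22_22_9_5_7 ok22_22_9_5 (by decide) hn

/-- a subtree -/
def t22_22_9_5_8 : BlkD.Tr :=
  .L 5 6 [4, 4, 5, 22, 22, 22] [] [] 100000 5556 5556 1566668 11111 0 11111 22222 0 0 0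

lemma s22_22_9_5_8 : BlkD.treeX d22_22_9_5 (BlkD.exF 9 5 x22_22_9_5) t22_22_9_5_8
    (BlkD.upd (BlkD.upd (fun _ => 0) 0 3) 0 4)
    (BlkD.upd (BlkD.upd (BlkD.upd (BlkD.upd (BlkD.upd (BlkD.upd (fun _ => 22) 0 9) 2 5) 0 4) 1 18) 1 9) 1 4) = true := by
  decide +kernel

lemma n22_22_9_5_8 {n : ℕ} (hn : 5 ≤ n) : BlkD.NdX d22_22_9_5 (BlkD.exF 9 5 x22_22_9_5) n
    (BlkD.upd (BlkD.upd (fun _ => 0) 0 3) 0 4)
    (BlkD.upd (BlkD.upd (BlkD.upd (BlkD.upd (BlkD.upd (BlkD.upd (fun _ => 22) 0 9) 2 5) 0 4) 1 18) 1 9) 1 4) :=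
  BlkD.NdX.tree s22_22_9_5_8 ok22_22_9_5 (by decide) hn

/-- a subtree -/
def t22_22_9_5_9 : BlkD.Tr :=
  .S 1 7 (.S 1 6 (.L 5 6 [4, 4, 5, 22, 22, 22] [] [] 100000 1 1 1690625 21875 0 43750 46875 0 31250
    10937) (.S 2 2 (.L 5 6 [4, 4, 5, 22, 22, 22] [160, 160, 160, 150, 140, 128] [] 100000 75000
    75000 1475000 50000 25000 75000 50000 0 0 0) (.L 6 8 [4, 4, 4, 22, 22, 22] [160, 160, 160, 150,
    140, 128] [] 100000 8333 8333 1666669 33333 0 50000 16667 0 16667 0))) (.S 1 8 (.S 2 2 (.L 6 8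
    [4, 4, 4, 22, 22, 22] [182, 182, 182, 182, 172, 162] [] 100000 38888 38888 1577780 44444 22222
    55556 55556 0 0 0) (.L 6 8 [4, 4, 4, 22, 22, 22] [182, 182, 182, 182, 172, 162] [] 100000 10000
    10000 1660000 40000 0 60000 20000 0 20000 0)) (.S 2 2 (.L 6 8 [4, 4, 4, 22, 22, 22] [206, 206,
    206, 206, 206, 196] [] 100000 116667 116667 1433333 66667 33333 100000 66667 0 0 0) (.S 2 4 (.S
    2 3 (.S 3 6 (.S 3 3 (.L 5 6 [4, 4, 5, 22, 22, 22] [206, 206, 206, 206, 206, 196] [] 100000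
    50000 50000 1569233 53846 0 61538 61538 0 15385 0) (.L 6 8 [4, 4, 4, 22, 22, 22] [206, 206,
    206, 206, 206, 196] [] 100000 525000 375000 0 250000 0 250000 250000 0 0 0)) (.E 1)) (.L 6 8
    [4, 4, 4, 22, 22, 22] [206, 206, 206, 206, 206, 196] [] 100000 25000 25000 1600000 50000 0
    50000 50000 0 0 0)) (.L 6 8 [4, 4, 4, 22, 22, 22] [206, 206, 206, 206, 206, 196] [] 100000
    150000 150000 1300000 100000 0 100000 0 0 0 0))))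

lemma s22_22_9_5_9 : BlkD.treeX d22_22_9_5 (BlkD.exF 9 5 x22_22_9_5) t22_22_9_5_9
    (BlkD.upd (BlkD.upd (BlkD.upd (fun _ => 0) 0 3) 0 4) 1 5)
    (BlkD.upd (BlkD.upd (BlkD.upd (BlkD.upd (BlkD.upd (fun _ => 22) 0 9) 2 5) 0 4) 1 18) 1 9) = true := by
  decide +kernel

lemma n22_22_9_5_9 {n : ℕ} (hn : 5 ≤ n) : BlkD.NdX d22_22_9_5 (BlkD.exF 9 5 x22_22_9_5) n
    (BlkD.upd (BlkD.upd (BlkD.upd (fun _ => 0) 0 3) 0 4) 1 5)
    (BlkD.upd (BlkD.upd (BlkD.upd (BlkD.upd (BlkD.upd (fun _ => 22) 0 9) 2 5) 0 4) 1 18) 1 9) :=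
  BlkD.NdX.tree s22_22_9_5_9 ok22_22_9_5 (by decide) hn

/-- a subtree -/
def t22_22_9_5_10 : BlkD.Tr :=
  .S 1 14 (.S 1 12 (.S 1 11 (.S 1 10 (.S 2 2 (.L 6 8 [4, 4, 4, 22, 22, 22] [232, 232, 232, 232,
    232, 232] [] 100000 100000 100000 1440000 70000 30000 80000 60000 0 0 0) (.S 2 4 (.S 2 3 (.S 3
    5 (.S 3 2 (.L 6 8 [4, 4, 4, 22, 22, 22] [232, 232, 232, 232, 232, 232] [] 100000 150000 150000
    1300000 100000 0 100000 100000 0 0 0) (.S 3 4 (.S 3 3 (.L 3 4 [5, 6, 8, 22, 22, 22] [232, 232,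
    232, 232, 232, 232] [66, 54, 38, 24, 0, 0] 100000 200000 200000 1200000 100000 0 100000 0 0 0
    0) (.L 3 4 [5, 6, 8, 22, 22, 22] [232, 232, 232, 232, 232, 232] [86, 78, 66, 50, 36, 0] 100000
    599999 466666 3 233333 0 233333 0 0 0 0)) (.L 3 4 [5, 6, 8, 22, 22, 22] [232, 232, 232, 232,
    232, 232] [106, 100, 92, 80, 64, 50] 100000 560000 440000 0 220000 0 220000 0 0 0 0))) (.E 1))
    (.L 3 4 [5, 6, 8, 22, 22, 22] [232, 232, 232, 232, 232, 232] [] 100000 150001 150001 1371427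
    71429 0 100000 42857 0 0 0)) (.L 3 4 [5, 6, 8, 22, 22, 22] [232, 232, 232, 232, 232, 232] []
    100000 500000 400000 300000 200000 0 200000 0 0 0 0))) (.L 3 4 [5, 6, 8, 22, 22, 22] [260, 260,
    260, 260, 260, 260] [] 100000 200000 200000 1200000 100000 0 100000 50000 0 0 0)) (.L 3 4 [5,
    6, 8, 22, 22, 22] [290, 290, 290, 290, 290, 290] [] 100000 200000 200000 1150000 100000 0
    100000 50000 0 0 0)) (.S 1 13 (.L 3 4 [5, 6, 8, 22, 22, 22] [322, 322, 322, 322, 322, 322] []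
    100000 250000 100000 600000 150000 0 250000 0 0 0 0) (.L 3 4 [5, 6, 8, 22, 22, 22] [356, 356,
    356, 356, 356, 356] [] 100000 350000 225000 0 225000 0 225000 0 0 0 0))) (.E 0)

lemma s22_22_9_5_10 : BlkD.treeX d22_22_9_5 (BlkD.exF 9 5 x22_22_9_5) t22_22_9_5_10
    (BlkD.upd (BlkD.upd (BlkD.upd (fun _ => 0) 0 3) 0 4) 1 10)
    (BlkD.upd (BlkD.upd (BlkD.upd (BlkD.upd (fun _ => 22) 0 9) 2 5) 0 4) 1 18) = true := by
  decide +kernel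

lemma n22_22_9_5_10 {n : ℕ} (hn : 5 ≤ n) : BlkD.NdX d22_22_9_5 (BlkD.exF 9 5 x22_22_9_5) n
    (BlkD.upd (BlkD.upd (BlkD.upd (fun _ => 0) 0 3) 0 4) 1 10)
    (BlkD.upd (BlkD.upd (BlkD.upd (BlkD.upd (fun _ => 22) 0 9) 2 5) 0 4) 1 18) :=
  BlkD.NdX.tree s22_22_9_5_10 ok22_22_9_5 (by decide) hn

/-- a subtree -/
def t22_22_9_5_11 : BlkD.Tr :=
  .E 0

lemma s22_22_9_5_11 : BlkD.treeX d22_22_9_5 (BlkD.exF 9 5 x22_22_9_5) t22_22_9_5_11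
    (BlkD.upd (BlkD.upd (BlkD.upd (fun _ => 0) 0 3) 0 4) 1 19)
    (BlkD.upd (BlkD.upd (BlkD.upd (fun _ => 22) 0 9) 2 5) 0 4) = true := by
  decide +kernel

lemma n22_22_9_5_11 {n : ℕ} (hn : 5 ≤ n) : BlkD.NdX d22_22_9_5 (BlkD.exF 9 5 x22_22_9_5) n
    (BlkD.upd (BlkD.upd (BlkD.upd (fun _ => 0) 0 3) 0 4) 1 19)
    (BlkD.upd (BlkD.upd (BlkD.upd (fun _ => 22) 0 9) 2 5) 0 4) :=
  BlkD.NdX.tree s22_22_9_5_11 ok22_22_9_5 (by decide) hn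

/-- a subtree -/
def t22_22_9_5_12 : BlkD.Tr :=
  .L 3 4 [5, 6, 8, 22, 22, 22] [] [] 100000 2500 2500 1600000 25000 0 50000 30000 0 20000 25000

lemma s22_22_9_5_12 : BlkD.treeX d22_22_9_5 (BlkD.exF 9 5 x22_22_9_5) t22_22_9_5_12
    (BlkD.upd (fun _ => 0) 0 5)
    (BlkD.upd (BlkD.upd (BlkD.upd (BlkD.upd (BlkD.upd (BlkD.upd (BlkD.upd (BlkD.upd (fun _ => 22) 0 9) 2 5) 0 7) 0 6) 0 5) 1 17) 1 8) 1 4) = true := by
  decide +kernel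

lemma n22_22_9_5_12 {n : ℕ} (hn : 5 ≤ n) : BlkD.NdX d22_22_9_5 (BlkD.exF 9 5 x22_22_9_5) n
    (BlkD.upd (fun _ => 0) 0 5)
    (BlkD.upd (BlkD.upd (BlkD.upd (BlkD.upd (BlkD.upd (BlkD.upd (BlkD.upd (BlkD.upd (fun _ => 22) 0 9) 2 5) 0 7) 0 6) 0 5) 1 17) 1 8) 1 4) :=
  BlkD.NdX.tree s22_22_9_5_12 ok22_22_9_5 (by decide) hn

/-- a subtree -/
def t22_22_9_5_13 : BlkD.Tr :=
  .S 1 6 (.S 1 5 (.L 5 6 [4, 4, 5, 22, 22, 22] [132, 122, 112, 100, 84, 70] [] 100000 0 0 1696298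
    25926 0 38889 44444 0 29630 12963) (.S 2 2 (.S 2 1 (.L 5 6 [4, 4, 5, 22, 22, 22] [152, 152,
    142, 132, 120, 104] [] 100000 68750 68750 1487500 37500 50000 75000 87500 0 0 0) (.S 3 9 (.S 3
    4 (.L 5 6 [4, 4, 5, 22, 22, 22] [152, 152, 142, 132, 120, 104] [] 100000 9375 9375 1625000
    18750 12500 25000 25000 0 0 0) (.S 3 7 (.S 3 6 (.S 3 5 (.L 6 8 [4, 4, 4, 22, 22, 22] [152, 152,
    142, 132, 120, 104] [96, 90, 82, 70, 54, 40] 100000 1 1 1653334 26667 13333 40000 40000 0 13333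
    13333) (.S 4 6 (.S 4 3 (.L 6 8 [4, 4, 4, 22, 22, 22] [132, 120, 104, 90, 0, 0] [112, 110, 104,
    96, 84, 68] 100000 133334 133334 1400000 66667 33333 100000 66667 0 0 0) (.L 6 8 [4, 4, 4, 22,
    22, 22] [152, 152, 142, 132, 120, 104] [112, 110, 104, 96, 84, 68] 100000 300000 0 100000 80000
    40000 400000 80000 0 0 0)) (.E 2))) (.E 1)) (.E 1))) (.E 1))) (.S 2 4 (.S 2 3 (.S 3 8 (.S 3 4
    (.L 6 8 [4, 4, 4, 22, 22, 22] [152, 152, 142, 132, 120, 104] [] 100000 0 0 1666668 33333 0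
    33333 33333 0 0 33333) (.S 3 6 (.S 3 5 (.S 4 6 (.S 4 3 (.L 6 8 [4, 4, 4, 22, 22, 22] [132, 120,
    104, 90, 0, 0] [106, 100, 92, 80, 64, 50] 100000 83334 83334 1500000 66667 0 100000 33333 0 0
    0) (.L 6 8 [4, 4, 4, 22, 22, 22] [152, 152, 142, 132, 120, 104] [106, 100, 92, 80, 64, 50]
    100000 300000 0 100000 100000 0 400000 100000 0 0 0)) (.E 2)) (.E 1)) (.E 1))) (.E 1)) (.L 6 8
    [4, 4, 4, 22, 22, 22] [152, 152, 142, 132, 120, 104] [] 100000 0 0 1666669 33333 0 33333 33333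
    0 33333 0)) (.L 6 8 [4, 4, 4, 22, 22, 22] [152, 152, 142, 132, 120, 104] [] 100000 0 0 1620000
    30000 0 50000 0 0 30000 0)))) (.S 1 7 (.S 2 2 (.S 2 1 (.L 6 8 [4, 4, 4, 22, 22, 22] [174, 174,
    174, 164, 154, 142] [] 100000 60714 60714 1500001 42857 50000 78571 57143 0 0 0) (.S 3 8 (.S 3
    4 (.L 6 8 [4, 4, 4, 22, 22, 22] [174, 174, 174, 164, 154, 142] [] 100000 0 0 1666668 22222
    22222 44444 44444 0 0 22222) (.S 3 6 (.S 3 5 (.S 4 7 (.S 4 3 (.L 5 6 [4, 4, 5, 22, 22, 22]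
    [154, 142, 126, 112, 0, 0] [96, 90, 82, 70, 54, 40] 100000 70834 70834 1550000 50000 16667
    75000 58333 0 16667 0) (.L 5 6 [4, 4, 5, 22, 22, 22] [174, 174, 174, 164, 154, 142] [96, 90,
    82, 70, 54, 40] 100000 40000 0 1400000 20000 10000 140000 20000 0 0 0)) (.E 2)) (.L 6 8 [4, 4,
    4, 22, 22, 22] [174, 174, 174, 164, 154, 142] [112, 110, 104, 96, 84, 68] 100000 250000 250000
    1150000 100000 50000 100000 100000 0 0 0)) (.E 1))) (.E 1))) (.S 2 4 (.S 2 3 (.S 3 7 (.S 3 3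
    (.L 6 8 [4, 4, 4, 22, 22, 22] [174, 174, 174, 164, 154, 142] [] 100000 2942 2942 1682354 29412
    14706 44118 26471 0 8824 14706) (.S 3 5 (.S 3 4 (.L 6 8 [4, 4, 4, 22, 22, 22] [174, 174, 174,
    164, 154, 142] [86, 78, 66, 50, 36, 0] 100000 6250 6250 1675000 37500 0 62500 25000 0 12500
    12500) (.S 4 7 (.S 4 3 (.L 6 8 [4, 4, 4, 22, 22, 22] [154, 142, 126, 112, 0, 0] [106, 100, 92,
    80, 64, 50] 100000 124999 124999 1383336 83333 0 100000 33333 0 0 0) (.L 6 8 [4, 4, 4, 22, 22,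
    22] [174, 174, 174, 164, 154, 142] [106, 100, 92, 80, 64, 50] 100000 155556 0 822222 44444
    11111 255556 22222 0 0 0)) (.E 2))) (.E 1))) (.E 1)) (.L 6 8 [4, 4, 4, 22, 22, 22] [174, 174,
    174, 164, 154, 142] [] 100000 13638 13638 1654545 36364 0 63636 45455 0 9091 0)) (.L 6 8 [4, 4,
    4, 22, 22, 22] [174, 174, 174, 164, 154, 142] [] 100000 0 0 1637500 37500 0 50000 0 0 25000
    12500))) (.S 2 2 (.S 2 1 (.L 6 8 [4, 4, 4, 22, 22, 22] [198, 198, 198, 198, 188, 178] [] 100000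
    64286 64286 1500001 42857 57143 85714 57143 0 0 0) (.S 3 7 (.S 3 3 (.L 6 8 [4, 4, 4, 22, 22,
    22] [198, 198, 198, 198, 188, 178] [] 100000 3077 3077 1661539 30769 15385 52308 23077 1538 0
    23077) (.S 3 5 (.S 3 4 (.S 4 8 (.S 4 4 (.L 6 8 [4, 4, 4, 22, 22, 22] [188, 178, 166, 150, 136,
    0] [78, 70, 58, 42, 28, 0] 100000 20000 20000 1640000 40000 20000 60000 40000 0 0 0) (.L 6 8
    [4, 4, 4, 22, 22, 22] [198, 198, 198, 198, 188, 178] [78, 70, 58, 42, 28, 0] 100000 233334 1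
    433334 66667 33333 333333 266667 0 0 0)) (.E 2)) (.S 4 8 (.S 4 4 (.L 5 6 [4, 4, 5, 22, 22, 22]
    [188, 178, 166, 150, 136, 0] [96, 90, 82, 70, 54, 40] 100000 250000 250000 1150000 100000 50000
    100000 100000 0 0 0) (.L 5 6 [4, 4, 5, 22, 22, 22] [198, 198, 198, 198, 188, 178] [96, 90, 82,
    70, 54, 40] 100000 300000 0 100000 0 100000 400000 200000 0 0 0)) (.E 2))) (.L 6 8 [4, 4, 4,
    22, 22, 22] [198, 198, 198, 198, 188, 178] [] 100000 599999 466666 3 233333 0 233333 233333 0 0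
    0))) (.E 1))) (.S 2 4 (.S 2 3 (.S 3 6 (.S 3 3 (.S 3 1 (.L 6 8 [4, 4, 4, 22, 22, 22] [198, 198,
    198, 198, 188, 178] [] 100000 0 0 1600001 33333 0 66667 33333 0 0 33333) (.S 3 2 (.L 6 8 [4, 4,
    4, 22, 22, 22] [198, 198, 198, 198, 188, 178] [44, 28, 14, 0, 0, 0] 100000 8333 8333 1650001
    33333 16667 50000 33333 0 0 16667) (.S 4 8 (.S 4 4 (.L 4 5 [4, 5, 6, 22, 22, 22] [188, 178,
    166, 150, 136, 0] [66, 54, 38, 24, 0, 0] 100000 104347 104347 1482611 65217 0 91304 65217 0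
    13043 4348) (.L 4 5 [4, 5, 6, 22, 22, 22] [198, 198, 198, 198, 188, 178] [66, 54, 38, 24, 0, 0]
    100000 150000 0 850000 25000 0 250000 125000 0 0 0)) (.E 2)))) (.L 6 8 [4, 4, 4, 22, 22, 22]
    [198, 198, 198, 198, 188, 178] [] 100000 100001 100001 1466665 66667 0 100000 66667 0 0 0)) (.E
    1)) (.L 6 8 [4, 4, 4, 22, 22, 22] [198, 198, 198, 198, 188, 178] [] 100000 17568 17568 1662163
    37838 0 86486 48649 2703 0 0)) (.L 6 8 [4, 4, 4, 22, 22, 22] [198, 198, 198, 198, 188, 178] []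
    100000 22222 22222 1622225 44444 0 66667 0 0 0 0))))

lemma s22_22_9_5_13 : BlkD.treeX d22_22_9_5 (BlkD.exF 9 5 x22_22_9_5) t22_22_9_5_13
    (BlkD.upd (BlkD.upd (fun _ => 0) 0 5) 1 5)
    (BlkD.upd (BlkD.upd (BlkD.upd (BlkD.upd (BlkD.upd (BlkD.upd (BlkD.upd (fun _ => 22) 0 9) 2 5) 0 7) 0 6) 0 5) 1 17) 1 8) = true := by
  decide +kernel

lemma n22_22_9_5_13 {n : ℕ} (hn : 5 ≤ n) : BlkD.NdX d22_22_9_5 (BlkD.exF 9 5 x22_22_9_5) n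
    (BlkD.upd (BlkD.upd (fun _ => 0) 0 5) 1 5)
    (BlkD.upd (BlkD.upd (BlkD.upd (BlkD.upd (BlkD.upd (BlkD.upd (BlkD.upd (fun _ => 22) 0 9) 2 5) 0 7) 0 6) 0 5) 1 17) 1 8) :=
  BlkD.NdX.tree s22_22_9_5_13 ok22_22_9_5 (by decide) hn

/-- a subtree -/
def t22_22_9_5_14 : BlkD.Tr :=
  .S 1 13 (.S 1 11 (.S 1 10 (.S 1 9 (.S 2 2 (.S 2 1 (.L 6 8 [4, 4, 4, 22, 22, 22] [224, 224, 224,
    224, 224, 214] [] 100000 62500 62500 1500000 50000 50000 75000 50000 0 0 0) (.S 3 6 (.S 3 3 (.L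
    6 8 [4, 4, 4, 22, 22, 22] [224, 224, 224, 224, 224, 214] [] 100000 9092 9092 1645454 36364
    18182 63636 36364 0 0 18182) (.S 3 5 (.S 3 4 (.S 4 9 (.S 4 4 (.L 6 8 [4, 4, 4, 22, 22, 22]
    [214, 204, 192, 176, 162, 0] [78, 70, 58, 42, 28, 0] 100000 75000 75000 1500000 60000 30000
    100000 50000 0 10000 10000) (.L 6 8 [4, 4, 4, 22, 22, 22] [224, 224, 224, 224, 224, 214] [78,
    70, 58, 42, 28, 0] 100000 300000 0 100000 100000 0 400000 300000 0 0 0)) (.E 2)) (.L 6 8 [4, 4,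
    4, 22, 22, 22] [224, 224, 224, 224, 224, 214] [96, 90, 82, 70, 54, 40] 100000 250000 250000
    1150000 100000 50000 100000 100000 0 0 0)) (.L 6 8 [4, 4, 4, 22, 22, 22] [224, 224, 224, 224,
    224, 214] [112, 110, 104, 96, 84, 68] 100000 511110 366666 4 244444 0 244444 0 0 0 0))) (.E
    1))) (.S 2 4 (.S 2 3 (.S 3 5 (.S 3 2 (.L 6 8 [4, 4, 4, 22, 22, 22] [224, 224, 224, 224, 224,
    214] [] 100000 1924 1924 1661537 38462 9615 65385 36538 0 7692 26923) (.S 3 4 (.S 3 3 (.L 4 5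
    [4, 5, 6, 22, 22, 22] [224, 224, 224, 224, 224, 214] [66, 54, 38, 24, 0, 0] 100000 152941
    152941 1358825 88235 0 100000 44118 0 35294 0) (.L 4 5 [4, 5, 6, 22, 22, 22] [224, 224, 224,
    224, 224, 214] [86, 78, 66, 50, 36, 0] 100000 552703 397298 1 227027 0 255405 113514 0 0 0))
    (.L 4 5 [4, 5, 6, 22, 22, 22] [224, 224, 224, 224, 224, 214] [106, 100, 92, 80, 64, 50] 100000
    515790 326316 0 226316 0 289474 36842 0 0 0))) (.E 1)) (.L 4 5 [4, 5, 6, 22, 22, 22] [224, 224,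
    224, 224, 224, 214] [] 100000 90000 90000 1500000 60000 0 100000 40000 0 20000 0)) (.L 4 5 [4,
    5, 6, 22, 22, 22] [224, 224, 224, 224, 224, 214] [] 100000 175000 150000 1150000 100000 0
    125000 0 0 75000 0))) (.L 4 5 [4, 5, 6, 22, 22, 22] [252, 252, 252, 252, 252, 252] [] 100000
    120000 120000 1420000 80000 0 100000 40000 0 0 0)) (.L 4 5 [4, 5, 6, 22, 22, 22] [282, 282,
    282, 282, 282, 282] [] 100000 150000 100000 1150000 100000 0 150000 50000 0 0 0)) (.S 1 12 (.L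
    4 5 [4, 5, 6, 22, 22, 22] [314, 314, 314, 314, 314, 314] [] 100000 150000 100000 1025000 125000
    0 150000 0 0 0 0) (.E 0))) (.E 0)

lemma s22_22_9_5_14 : BlkD.treeX d22_22_9_5 (BlkD.exF 9 5 x22_22_9_5) t22_22_9_5_14
    (BlkD.upd (BlkD.upd (fun _ => 0) 0 5) 1 9)
    (BlkD.upd (BlkD.upd (BlkD.upd (BlkD.upd (BlkD.upd (BlkD.upd (fun _ => 22) 0 9) 2 5) 0 7) 0 6) 0 5) 1 17) = true := by
  decide +kernel

lemma n22_22_9_5_14 {n : ℕ} (hn : 5 ≤ n) : BlkD.NdX d22_22_9_5 (BlkD.exF 9 5 x22_22_9_5) n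
    (BlkD.upd (BlkD.upd (fun _ => 0) 0 5) 1 9)
    (BlkD.upd (BlkD.upd (BlkD.upd (BlkD.upd (BlkD.upd (BlkD.upd (fun _ => 22) 0 9) 2 5) 0 7) 0 6) 0 5) 1 17) :=
  BlkD.NdX.tree s22_22_9_5_14 ok22_22_9_5 (by decide) hn

/-- a subtree -/
def t22_22_9_5_15 : BlkD.Tr :=
  .E 0

lemma s22_22_9_5_15 : BlkD.treeX d22_22_9_5 (BlkD.exF 9 5 x22_22_9_5) t22_22_9_5_15
    (BlkD.upd (BlkD.upd (fun _ => 0) 0 5) 1 18)
    (BlkD.upd (BlkD.upd (BlkD.upd (BlkD.upd (BlkD.upd (fun _ => 22) 0 9) 2 5) 0 7) 0 6) 0 5) = true := by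
  decide +kernel

lemma n22_22_9_5_15 {n : ℕ} (hn : 5 ≤ n) : BlkD.NdX d22_22_9_5 (BlkD.exF 9 5 x22_22_9_5) n
    (BlkD.upd (BlkD.upd (fun _ => 0) 0 5) 1 18)
    (BlkD.upd (BlkD.upd (BlkD.upd (BlkD.upd (BlkD.upd (fun _ => 22) 0 9) 2 5) 0 7) 0 6) 0 5) :=
  BlkD.NdX.tree s22_22_9_5_15 ok22_22_9_5 (by decide) hn

/-- a subtree -/
def t22_22_9_5_16 : BlkD.Tr :=
  .L 5 6 [4, 4, 5, 22, 22, 22] [] [] 100000 6667 6667 1666668 33333 0 66667 46667 0 20000 10000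

lemma s22_22_9_5_16 : BlkD.treeX d22_22_9_5 (BlkD.exF 9 5 x22_22_9_5) t22_22_9_5_16
    (BlkD.upd (BlkD.upd (fun _ => 0) 0 5) 0 6)
    (BlkD.upd (BlkD.upd (BlkD.upd (BlkD.upd (BlkD.upd (BlkD.upd (BlkD.upd (fun _ => 22) 0 9) 2 5) 0 7) 0 6) 1 16) 1 8) 1 4) = true := by
  decide +kernel

lemma n22_22_9_5_16 {n : ℕ} (hn : 5 ≤ n) : BlkD.NdX d22_22_9_5 (BlkD.exF 9 5 x22_22_9_5) n
    (BlkD.upd (BlkD.upd (fun _ => 0) 0 5) 0 6)
    (BlkD.upd (BlkD.upd (BlkD.upd (BlkD.upd (BlkD.upd (BlkD.upd (BlkD.upd (fun _ => 22) 0 9) 2 5) 0 7) 0 6) 1 16) 1 8) 1 4) :=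
  BlkD.NdX.tree s22_22_9_5_16 ok22_22_9_5 (by decide) hn

end BlkC

end Pool.Agent.Lib.MP_f04ccf_co
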