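import Pool.Agent.Lib.MP_f04ccf_co.M.BlkX22_22_9_5d
import Pool.Agent.Lib.MP_f04ccf_co.M.BlkX22_22_9_5p1
import Pool.Agent.Lib.MP_f04ccf_co.M.BlkX22_22_9_5p2

/-!
MP_f04ccf_co, block certificate with exceptions, `R = 22`, `H = 22`, the pair `(9, 5)` (data of helper99 / helper13,
generated by helper8, genx.py): the parts together.
-/

set_option autoImplicit false
set_option maxRecDepth 100000

namespace Pool.Agent.Lib.MP_f04ccf_co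

namespace BlkC

lemma x22_22_9_5_5 : NoNd ((22 : ℕ) : ℤ) ((22 : ℕ) : ℤ) 5 9 5 fun x y z w _ _ =>
    BlkD.exF 9 5 x22_22_9_5 x y z w := by
  refine NoNd.of_E (by norm_num) (by norm_num) fun e he => ?_
  exact absurd he (by simp [x22_22_9_5])

lemma x22_22_9_5_6 : NoNd ((22 : ℕ) : ℤ) ((22 : ℕ) : ℤ) 6 9 5 fun x y z w _ _ =>
    BlkD.exF 9 5 x22_22_9_5 x y z w := by
  refine NoNd.of_E (by norm_num) (by norm_num) fun e he => ?_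
  exact absurd he (by simp [x22_22_9_5])

lemma x22_22_9_5_7 : NoNd ((22 : ℕ) : ℤ) ((22 : ℕ) : ℤ) 7 9 5 fun x y z w _ _ =>
    BlkD.exF 9 5 x22_22_9_5 x y z w := by
  refine NoNd.of_E (by norm_num) (by norm_num) fun e he => ?_
  exact absurd he (by simp [x22_22_9_5])

lemma r22_22_9_5 {n : ℕ} (hn : 5 ≤ n) : BlkD.NdX d22_22_9_5 (BlkD.exF 9 5 x22_22_9_5) n (fun _ => 0) (fun _ => 22) :=
  (BlkD.NdX.sp 0 9
  (BlkD.NdX.sp 2 5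
  (BlkD.NdX.sp 0 4
  (BlkD.NdX.sp 0 2
  (BlkD.NdX.sp 0 1
  (n22_22_9_5_0 hn)
  (BlkD.NdX.sp 1 11
  (BlkD.NdX.sp 1 5
  (n22_22_9_5_1 hn)
  (n22_22_9_5_2 hn))
  (n22_22_9_5_3 hn)))
  (BlkD.NdX.sp 0 3
  (BlkD.NdX.sp 1 19
  (BlkD.NdX.sp 1 9
  (n22_22_9_5_4 hn)
  (BlkD.NdX.sp 1 14
  (n22_22_9_5_5 hn)
  (n22_22_9_5_6 hn)))
  (n22_22_9_5_7 hn))
  (BlkD.NdX.sp 1 18
  (BlkD.NdX.sp 1 9
  (BlkD.NdX.sp 1 4
  (n22_22_9_5_8 hn)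
  (n22_22_9_5_9 hn))
  (n22_22_9_5_10 hn))
  (n22_22_9_5_11 hn))))
  (BlkD.NdX.sp 0 7
  (BlkD.NdX.sp 0 6
  (BlkD.NdX.sp 0 5
  (BlkD.NdX.sp 1 17
  (BlkD.NdX.sp 1 8
  (BlkD.NdX.sp 1 4
  (n22_22_9_5_12 hn)
  (n22_22_9_5_13 hn))
  (n22_22_9_5_14 hn))
  (n22_22_9_5_15 hn))
  (BlkD.NdX.sp 1 16
  (BlkD.NdX.sp 1 8
  (BlkD.NdX.sp 1 4
  (n22_22_9_5_16 hn)
  (n22_22_9_5_17 hn))
  (n22_22_9_5_18 hn))
  (n22_22_9_5_19 hn)))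
  (n22_22_9_5_20 hn))
  (n22_22_9_5_21 hn)))
  (n22_22_9_5_22 hn))
  (n22_22_9_5_23 hn))

/-- **`R = 22`, `H = 22`, the pair `(9, 5)`** -/
theorem pr22_22_9_5 {n : ℕ} (hn : 5 ≤ n) : NoPr ((22 : ℕ) : ℤ) ((22 : ℕ) : ℤ) n 9 5 := by
  by_cases h : n < 8
  · interval_cases n
    · exact BlkD.NdX.pr (r22_22_9_5 (by norm_num)) (by decide) (by decide) x22_22_9_5_5 rfl rfl rfl rfl
    · exact BlkD.NdX.pr (r22_22_9_5 (by norm_num)) (by decide) (by decide) x22_22_9_5_6 rfl rfl rfl rfl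
    · exact BlkD.NdX.pr (r22_22_9_5 (by norm_num)) (by decide) (by decide) x22_22_9_5_7 rfl rfl rfl rfl
  · exact NoPr.big (by omega) (by omega)

end BlkC

end Pool.Agent.Lib.MP_f04ccf_co
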