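import Pool.Agent.Lib.MP_f04ccf_co.M.EnPx

/-!
MP_f04ccf_co, block certificate with exceptions, `R = 22`, `H = 22`, the pair `(9, 5)` (data of helper99 / helper13,
generated by helper8, genx.py): the numbers.
-/

set_option autoImplicit false
set_option maxRecDepth 100000

namespace Pool.Agent.Lib.MP_f04ccf_co

namespace BlkC

/-- the numbers of the pair `(9, 5)`, `R = 22`, `H = 22` -/
def d22_22_9_5 : BlkD.Pd :=
  ⟨22, 22, 3, 9, 5, 5, 2, 3, 0, 4, 10, 0, 2, 2, 8, 0, [0, 10, 20, 20, 20, 20], [0, 8, 14, 16, 18,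
    20], [⟨1, 1, 1, 4, 8, [0, 4], [0, 4]⟩, ⟨1, 1, 1, 4, 14, [0, 8], [0, 6]⟩, ⟨2, 1, 1, 4, 18, [0,
    10, 10], [0, 8]⟩]⟩

/-- the exceptions of the pair `(9, 5)` -/
def x22_22_9_5 : List (ℕ × ℕ × ℕ × ℕ) :=
  []

lemma ok22_22_9_5 : BlkD.pairOk d22_22_9_5 = true := by decide +kernel

end BlkC

end Pool.Agent.Lib.MP_f04ccf_co
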