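import Pool.Agent.Lib.MP_f04ccf_co.M.ExcN
import Pool.Agent.Lib.MP_f04ccf_co.M.Cap

/-!
MP_f04ccf_co: the exceptional colourings once more.  If no colour has an `S2` frame with `m = r - 1`,
then in the exceptional case some colour `j` with `r² ≤ (k² - 3 k + 3) r + 2 k - 2`, `k = k_j`, has an
`S2` frame at the level `k` which is minimal among its sub-frames.
-/

set_option autoImplicit false

namespace Pool.Agent.Lib.MP_f04ccf_co

open Finset

attribute [local instance] Classical.propDecidable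

section CritR

variable {V : Type*} {G : SimpleGraph V} {r m t : ℕ} {Z T : Finset V}

/-- one step down: the number of doubles falls at least as the level -/
lemma PFrame.drop (h : PFrame G r m t Z T)
    (hω : ∀ K : Finset V, K ⊆ Z → Clq G K → K.card ≤ r - 1) (hr : 2 ≤ r) {I : Finset V}
    (hI : I ⊂ T) (hlt : I.card * r < (ZI G Z T I).card) :
    ∃ m' Z', m' + (t - I.card) ≤ m ∧ Z' ⊆ Z ∧ PFrame G r m' I.card Z' I := by
  have hIT : I ⊆ T := hI.1
  have hIc : I.card < t := by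
    rw [← h.cardT]
    exact card_lt_card hI
  set C : Finset V := I.biUnion (fun v => Cl G Z T v) with hC
  have hCZ : C ⊆ ZI G Z T I := by
    intro z hz
    obtain ⟨v, hv, hzv⟩ := mem_biUnion.1 hz
    exact h.Cl_sub_ZI' (hIT hv) hv hzv
  have hCc : C.card = ∑ v ∈ I, (Cl G Z T v).card :=
    card_biUnion fun v hv w hw hvw => Cl_disjoint (hIT hv) (hIT hw) hvw
  have hle : ∀ v ∈ T, (Cl G Z T v).card ≤ r - 1 :=
    fun v hv => hω _ (filter_subset _ _) (h.Cl_clq hv)
  have h1 : C.card ≤ I.card * (r - 1) := by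
    rw [hCc]
    have := sum_le_sum fun v hv => hle v (hIT hv)
    rwa [sum_const, smul_eq_mul] at this
  have h2 : I.card * (r - 1) ≤ I.card * r + 1 :=
    (Nat.mul_le_mul_left _ (Nat.sub_le r 1)).trans (Nat.le_succ _)
  obtain ⟨Z', hZ1, hZ2, hZc⟩ := exists_subsuperset_card_eq hCZ (h1.trans h2) hlt
  have hIZ : I ⊆ Z' := fun v hv =>
    hZ1 (mem_biUnion.2 ⟨v, hv, h.self_mem_Cl (hIT hv)⟩)
  have hout : ∀ z ∈ Z' \ I, z ∈ Z ∧ z ∉ T := by
    intro z hz
    obtain ⟨hz1, hz2⟩ := mem_sdiff.1 hz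
    obtain ⟨hz3, hz4, -⟩ := mem_ZI.1 (hZ2 hz1)
    exact ⟨hz3, fun h' => hz2 (hz4 h')⟩
  have h3 : PFrame G r (BB G Z' I).card I.card Z' I :=
    { sub := hIZ
      ind := h.ind.mono hIT
      cardT := rfl
      alpha := (h.alpha_ZI hIT).mono G hZ2
      cardZ := hZc
      k2 := fun z hz => (dg_mono G hIT z).trans (h.k2 z (mem_sdiff.2 (hout z hz)))
      b := le_rfl }
  have h4 : BB G Z' I ⊆ Z' \ C := by
    intro z hz
    obtain ⟨⟨hz1, hz2⟩, hz3⟩ := mem_BB.1 hz
    refine mem_sdiff.2 ⟨hz1, fun hzC => ?_⟩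
    obtain ⟨v, hv, hzv⟩ := mem_biUnion.1 hzC
    rcases (mem_Cl.1 hzv).2 with h5 | ⟨-, h5⟩
    · exact hz2 (h5 ▸ hv)
    · have h6 := dg_mono G hIT z
      rw [← card_ends T, h5, card_singleton] at h6
      omega
  have h5 := card_le_card h4
  rw [card_sdiff_of_subset hZ1, hZc] at h5
  have h6 := h.card_split
  rw [h.cardZ] at h6
  have h7 : ∑ v ∈ T \ I, (Cl G Z T v).card ≤ (t - I.card) * (r - 1) := by
    have := sum_le_sum fun v (hv : v ∈ T \ I) => hle v (mem_sdiff.1 hv).1
    rwa [sum_const, smul_eq_mul, card_sdiff_of_subset hIT, h.cardT] at this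
  have h8 : ∑ v ∈ T \ I, (Cl G Z T v).card + ∑ v ∈ I, (Cl G Z T v).card
      = ∑ v ∈ T, (Cl G Z T v).card := sum_sdiff hIT
  have h9 := h.b
  have h10 : (BB G Z' I).card + (t - I.card) ≤ m := by
    obtain ⟨n, rfl⟩ : ∃ n, r = n + 1 := ⟨r - 1, by omega⟩
    obtain ⟨d, rfl⟩ : ∃ d, t = I.card + d := ⟨t - I.card, by omega⟩
    simp only [Nat.add_sub_cancel, Nat.add_sub_cancel_left] at h7 h1 ⊢
    have e1 : (I.card + d) * (n + 1) = I.card * n + I.card + d * n + d := by ring
    have e2 : I.card * (n + 1) = I.card * n + I.card := by ring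
    rw [e1] at h6
    rw [e2] at h5
    omega
  exact ⟨_, Z', h10, hZ2.trans (filter_subset _ _), h3⟩

/-- a frame with at most `r - 1` doubles gives an `S2` frame with `m = r - 1` -/
lemma PFrame.to_S2_pred (hr : 2 ≤ r) (h : PFrame G r m t Z T) (ht : t < r)
    (hω : ∀ K : Finset V, K ⊆ Z → Clq G K → K.card ≤ r - 1) (hm : m + 1 ≤ r) :
    ∃ t' Z' T', S2 G r (r - 1) t' Z' T' := by
  obtain ⟨m', t', Z', T', h0, -, -, h2⟩ := PFrame.to_crit_a hr 0 t h ht hω (by omega)
  exact ⟨t', Z', T', { h2 with b := h2.b.trans (by omega) }⟩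

/-- **without `S2` frames with `m = r - 1` a frame with `m = r` is critical and minimal among its
sub-frames** -/
theorem PFrame.crit_of_no (hr : 2 ≤ r) (h : PFrame G r r t Z T) (ht : t < r)
    (hω : ∀ K : Finset V, K ⊆ Z → Clq G K → K.card ≤ r - 1)
    (hno : ¬ ∃ t' Z' T', S2 G r (r - 1) t' Z' T') :
    S2 G r r t Z T ∧ ∀ (n' : ℕ) (Z' T' : Finset V), n' < t → Z' ⊆ Z → T' ⊆ T →
      ¬ PFrame G r r n' Z' T' := by
  have hall : ∀ I : Finset V, I ⊂ T → (ZI G Z T I).card ≤ I.card * r := by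
    intro I hI
    by_contra hlt
    obtain ⟨m', Z', h1, h2, h3⟩ := h.drop hω hr hI (by omega)
    have hIc : I.card < t := by
      rw [← h.cardT]
      exact card_lt_card hI
    exact hno (h3.to_S2_pred hr (by omega) (fun K hK => hω K (hK.trans h2)) (by omega))
  refine ⟨{ h with lt := ht, omega := hω, hall := hall }, fun n' Z' T' hn hZ hT h' => ?_⟩
  have hTT : T' ⊂ T := by
    refine hT.ssubset_of_ne fun h1 => ?_
    have h2 := h'.cardT
    rw [h1, h.cardT] at h2
    omega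
  by_cases hb : (BB G Z' T').card + 1 ≤ r
  · have h1 : PFrame G r (BB G Z' T').card n' Z' T' := { h' with b := le_rfl }
    exact hno (h1.to_S2_pred hr (by omega) (fun K hK => hω K (hK.trans hZ)) hb)
  -- all doubles have their tails in `T'`
  have h1 : BB G Z' T' ⊆ (BB G Z T).filter (fun z => ends G T z ⊆ T') := by
    intro z hz
    obtain ⟨⟨hz1, hz2⟩, hz3⟩ := mem_BB.1 hz
    have hzZ : z ∈ Z := hZ hz1
    have hzT : z ∉ T := by
      intro hzT
      have h4 : dg G T' z = 0 := by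
        unfold dg
        rw [card_eq_zero, filter_eq_empty_iff]
        exact fun y hy hzy => h.ind z hzT y (hT hy) hzy
      omega
    have h4 := h.k2 z (mem_sdiff.2 ⟨hzZ, hzT⟩)
    have h5 := dg_mono G hT z
    have h6 : ends G T' z ⊆ ends G T z := by
      intro y hy
      obtain ⟨hy1, hy2⟩ := mem_ends.1 hy
      exact mem_ends.2 ⟨hT hy1, hy2⟩
    have h7 : ends G T' z = ends G T z := by
      refine eq_of_subset_of_card_le h6 ?_
      rw [card_ends, card_ends]
      omega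
    refine mem_filter.2 ⟨mem_BB.2 ⟨⟨hzZ, hzT⟩, by omega⟩, ?_⟩
    rw [← h7]
    intro y hy
    exact (mem_ends.1 hy).1
  have h2 := card_le_card h1
  have h3 := h.card_ZI hT
  have h4 := hall T' hTT
  have h5 := h.card_split
  have h6 := h.b
  have h7 : ∑ v ∈ T \ T', (Cl G Z T v).card ≤ (t - n') * (r - 1) := by
    have := sum_le_sum fun v (hv : v ∈ T \ T') =>
      hω _ (filter_subset _ _) (h.Cl_clq (mem_sdiff.1 hv).1)
    rwa [sum_const, smul_eq_mul, card_sdiff_of_subset hT, h.cardT, h'.cardT] at this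
  have h8 : ∑ v ∈ T \ T', (Cl G Z T v).card + ∑ v ∈ T', (Cl G Z T v).card
      = ∑ v ∈ T, (Cl G Z T v).card := sum_sdiff hT
  rw [h.cardZ] at h5
  rw [h'.cardT] at h4
  obtain ⟨q, rfl⟩ : ∃ q, r = q + 1 := ⟨r - 1, by omega⟩
  obtain ⟨d, rfl⟩ : ∃ d, t = n' + d := ⟨t - n', by omega⟩
  simp only [Nat.add_sub_cancel, Nat.add_sub_cancel_left] at h7
  have e1 : (n' + d) * (q + 1) = n' * (q + 1) + d * q + d := by ring
  rw [e1] at h5
  omega

end CritR

section ColourR

variable {V : Type*} [Fintype V] {r : ℕ} {c : V → V → Fin r} {hc : ∀ x y, c x y = c y x}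
  {i j : Fin r} {L : Finset V}

namespace Exc

variable (hs : Sees c) (hV : Fintype.card V = r ^ 2 + 1)

include hs hV in
/-- the improved Turan bound of another colour inside `U_i` -/
lemma E_UU_brou (hr : 3 ≤ r) (he : Exc hc) {k : Fin r} (hk : k ≠ i) :
    (r : ℤ) * (kj hc i) * (kj hc i - 1) + 4 * kj hc i - 2 ≤ E (col c hc k) (UU hc i) := by
  have h1 := brou (G := col c hc k) (kj hc i) r 0 (UU hc i) (alpha_le hc hs k _)
    (fun K hK hq => by
      refine he.alpha_UU hs hV hr i K hK fun x hx y hy hxy => ?_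
      obtain ⟨h2, h3⟩ := hxy
      exact hk ((hq x hx y hy h2).2.symm.trans h3)) (by rw [he.UU_card hs hV hr i])
  push_cast at h1
  linarith

include hs hV in
/-- the edges of one colour, with the improved bound -/
lemma E_univ_cap (hr : 3 ≤ r) (he : Exc hc) (j : Fin r) :
    (E (col c hc j) univ : ℤ) ≤ r ^ 3 - r ^ 2 + 4 * r + r * (kj hc j) ^ 2 - 3 * (kj hc j) * r
      + 2 * kj hc j - 2 := by
  have h1 := he.E_univ_le hs hV hr j
  have h2 := E_upper_of hc j (UU hc j) _ fun k hk => he.E_UU_brou hs hV hr hk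
  have h5 := he.UU_card hs hV hr j
  have h6 := he.kj_add hs hV hr j
  have h7 : ((LL hc j).card : ℤ) = r - kj hc j := by omega
  have h8 : (E (col c hc j) univ : ℤ) ≤ E (col c hc j) (UU hc j)
      + ((LL hc j).card : ℤ) * (r * (r - 1) + 2) := by
    have h9 : ((E (col c hc j) univ : ℕ) : ℤ)
        ≤ ((E (col c hc j) (UU hc j) + (LL hc j).card * (r * (r - 1) + 2) : ℕ) : ℤ) := by
      exact_mod_cast h1
    push_cast [show 1 ≤ r by omega] at h9
    exact h9
  rw [h7] at h8
  rw [h5] at h2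
  push_cast at h2
  nlinarith

/-- the inequality for the number of rows -/
def QQ (r k : ℕ) : Prop := (r : ℤ) ^ 2 ≤ (k ^ 2 - 3 * k + 3) * r + 2 * k - 2

include hs hV in
/-- **the count with the cap** -/
lemma exists_QQ (hr : 3 ≤ r) (he : Exc hc) : ∃ j : Fin r, QQ r (kj hc j) := by
  by_contra hcon
  push Not at hcon
  have h1 := sum_E_int hc (univ : Finset V)
  rw [card_univ, hV] at h1
  have h2 : ∑ j : Fin r, (E (col c hc j) univ : ℤ) ≤ ∑ _j : Fin r, ((r : ℤ) ^ 3 + r - 1) := by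
    refine sum_le_sum fun j _ => ?_
    have h3 := he.E_univ_cap hs hV hr j
    have h4 := hcon j
    unfold QQ at h4
    push Not at h4
    nlinarith
  rw [sum_const, card_univ, Fintype.card_fin, nsmul_eq_mul, h1] at h2
  push_cast at h2
  have hr3 : (3 : ℤ) ≤ r := by exact_mod_cast hr
  nlinarith

include hs hV in
/-- the colour `i` itself together with a danger colour -/
lemma E_le_AR (hr : 7 ≤ r) (he : Exc hc) {s : Fin r} (his : i ≠ s)
    (hAA : ∀ L ∈ LL hc i, (AA hc i L).card = 0) :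
    (E (col c hc i) univ : ℤ) + E (col c hc s) (UU hc i)
      ≤ r ^ 3 - r ^ 2 + r * (2 * (kj hc i) ^ 2 - 4 * kj hc i + 2) + 8 * kj hc i - 4 := by
  have h1 := he.E_univ_le2 hs hV (by omega) i
  rw [sum_eq_zero hAA] at h1
  have h2 := he.kj_add hs hV (by omega) i
  have h3 := he.UU_card hs hV (by omega) i
  have h4 := sum_E_int hc (UU hc i)
  rw [h3, ← add_sum_erase univ _ (mem_univ i),
    ← add_sum_erase (univ.erase i) _ (mem_erase.2 ⟨his.symm, mem_univ s⟩)] at h4
  have h5 : ∑ _k ∈ ((univ : Finset (Fin r)).erase i).erase s,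
        ((r : ℤ) * (kj hc i) * (kj hc i - 1) + 4 * kj hc i - 2)
      ≤ ∑ k ∈ (univ.erase i).erase s, (E (col c hc k) (UU hc i) : ℤ) :=
    sum_le_sum fun k hk => he.E_UU_brou hs hV (by omega) (mem_erase.1 (mem_erase.1 hk).2).1
  rw [sum_const, card_erase_of_mem (mem_erase.2 ⟨his.symm, mem_univ s⟩),
    card_erase_of_mem (mem_univ i), card_univ, Fintype.card_fin, nsmul_eq_mul] at h5
  have h6 : ((r - 1 - 1 : ℕ) : ℤ) = r - 2 := by omega
  rw [h6] at h5
  have h7 : ((LL hc i).card : ℤ) = r - kj hc i := by omega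
  have h8 : (E (col c hc i) univ : ℤ) ≤ E (col c hc i) (UU hc i)
      + (LL hc i).card * (r * (r - 1)) := by
    have h9 : ((E (col c hc i) univ : ℕ) : ℤ)
        ≤ ((E (col c hc i) (UU hc i) + (LL hc i).card * (r * (r - 1)) + 2 * 0 : ℕ) : ℤ) := by
      exact_mod_cast h1
    push_cast [show 1 ≤ r by omega] at h9
    linarith
  rw [h7] at h8
  push_cast at h4
  nlinarith

include hs hV in
/-- the danger colour `s` along the parallel class of colour `i` -/
lemma E_le_BR (hr : 7 ≤ r) (he : Exc hc) {s : Fin r} (his : i ≠ s)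
    (hb : ∀ L ∈ LL hc i, (BB (col c hc s) univ L).card = r + 1) :
    (E (col c hc s) univ : ℤ)
      ≤ E (col c hc s) (UU hc i) + (r - kj hc i) * (r ^ 2 + kj hc i * r + r + 4) := by
  have h1 := E_sdiff (col c hc s) (subset_univ (LP hc i))
  have hpd : ((LL hc i : Set (Finset V))).PairwiseDisjoint id := fun L hL L' hL' hne =>
    he.disjoint_lines hs hV (by omega) (mem_LL.1 hL) (mem_LL.1 hL') hne
  have h2 : ∑ v ∈ LP hc i, dg (col c hc s) univ v
      = ∑ L ∈ LL hc i, ∑ v ∈ L, dg (col c hc s) univ v := sum_biUnion hpd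
  have h3 : ∑ L ∈ LL hc i, ∑ v ∈ L, dg (col c hc s) univ v
      = ∑ L ∈ LL hc i, (r ^ 2 + 2) := by
    refine sum_congr rfl fun L hL => ?_
    have hL' := mem_LL.1 hL
    have h4 := (hL'.frame hs his.symm hV le_rfl).sum_dg_T
    rw [card_univ, hV, hL'.2, hb L hL] at h4
    omega
  have h5 : ∑ _v ∈ LP hc i, ((LL hc i).card - 1) ≤ E (col c hc s) (LP hc i) := by
    refine sum_le_sum fun v hv => ?_
    obtain ⟨L, hL, hvL⟩ := mem_biUnion.1 hv
    change v ∈ L at hvL
    have h6 : dg (col c hc s) (LP hc i) v = ∑ K ∈ LL hc i, dg (col c hc s) K v :=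
      dg_biUnion _ hpd v
    rw [h6, ← add_sum_erase _ _ hL]
    have h7 : ∑ _K ∈ (LL hc i).erase L, 1 ≤ ∑ K ∈ (LL hc i).erase L, dg (col c hc s) K v := by
      refine sum_le_sum fun K hK => ?_
      obtain ⟨hKL, hK'⟩ := mem_erase.1 hK
      have h8 := he.disjoint_lines hs hV (by omega) (mem_LL.1 hK') (mem_LL.1 hL) hKL
      exact (mem_LL.1 hK').one_le hs his.symm (fun h' => disjoint_left.1 h8 h' hvL)
    rw [← card_eq_sum_ones, card_erase_of_mem hL] at h7
    omega
  have h9 := he.kj_add hs hV (by omega) i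
  have h10 := he.LP_card hs hV (by omega) i
  rw [sum_const, smul_eq_mul, h10] at h5
  rw [h2, h3, sum_const, smul_eq_mul] at h1
  change E (col c hc s) univ + E (col c hc s) (LP hc i) = E (col c hc s) (UU hc i) + _ at h1
  have h7 : ((LL hc i).card : ℤ) = r - kj hc i := by omega
  have h12 : (E (col c hc s) univ : ℤ) + E (col c hc s) (LP hc i)
      = E (col c hc s) (UU hc i) + 2 * ((LL hc i).card * (r ^ 2 + 2)) := by exact_mod_cast h1
  have h13 : ((LL hc i).card : ℤ) * r * ((LL hc i).card - 1) ≤ E (col c hc s) (LP hc i) := by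
    rcases Nat.eq_zero_or_pos (LL hc i).card with h0 | h0
    · rw [h0]
      simp
    · have h14 : ((((LL hc i).card * r * ((LL hc i).card - 1) : ℕ)) : ℤ)
          ≤ E (col c hc s) (LP hc i) := by exact_mod_cast h5
      rwa [Nat.cast_mul, Nat.cast_mul, Nat.cast_sub h0, Nat.cast_one] at h14
  rw [h7] at h12 h13
  nlinarith

include hs hV in
/-- **the exceptional case**: some colour with many rows has a line of another colour with `r` doubles -/
theorem exists_QQ_line (hr : 7 ≤ r) (he : Exc hc) :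
    ∃ j i L, QQ r (kj hc j) ∧ Line hc i L ∧ j ≠ i ∧ (BB (col c hc j) univ L).card ≤ r := by
  by_contra hno
  push Not at hno
  obtain ⟨s, hsQ⟩ := he.exists_QQ hs hV (by omega)
  have hbs : ∀ i L, Line hc i L → s ≠ i → (BB (col c hc s) univ L).card = r + 1 := by
    intro i L h hsi
    have h1 := hno s i L hsQ h hsi
    have h2 := he.sum_excess hs hV h
    have h3 := single_le_sum (f := fun j => (BB (col c hc j) univ L).card - r)
      (fun _ _ => Nat.zero_le _) (mem_erase.2 ⟨hsi, mem_univ s⟩)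
    omega
  have hbi : ∀ i L, Line hc i L → s ≠ i → ∀ m, m ≠ i → m ≠ s →
      (BB (col c hc m) univ L).card ≤ r := by
    intro i L h hsi m hmi hms
    have h1 := hbs i L h hsi
    have h9 := he.sum_excess hs hV h
    by_contra hlt
    have h10 : ∑ m ∈ ({s, m} : Finset (Fin r)), ((BB (col c hc m) univ L).card - r)
        ≤ ∑ m ∈ univ.erase i, ((BB (col c hc m) univ L).card - r) := by
      refine sum_le_sum_of_subset fun k hk => ?_
      simp only [mem_insert, mem_singleton] at hk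
      rcases hk with rfl | rfl
      · exact mem_erase.2 ⟨hsi, mem_univ _⟩
      · exact mem_erase.2 ⟨hmi, mem_univ _⟩
    rw [sum_pair (Ne.symm hms)] at h10
    omega
  have hAA : ∀ i, i ≠ s → ∀ L ∈ LL hc i, (AA hc i L).card = 0 := by
    intro i hi L hL
    have h7 := he.sum_excess hs hV (mem_LL.1 hL)
    have h8 := hbs i L (mem_LL.1 hL) (Ne.symm hi)
    have h9 := single_le_sum (f := fun j => (BB (col c hc j) univ L).card - r)
      (fun _ _ => Nat.zero_le _) (mem_erase.2 ⟨Ne.symm hi, mem_univ s⟩)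
    simp only [h8] at h9
    omega
  have hnQ : ∀ i, i ≠ s → ¬ QQ r (kj hc i) := by
    intro i hi hQ
    obtain ⟨i', h1, h2, L, hL⟩ := he.exists_line_ne hs hV (by omega) i s
    have h3 := hbi i' L hL (Ne.symm h2) i (Ne.symm h1) hi
    exact absurd h3 (not_le.2 (hno i i' L hQ hL (Ne.symm h1)))
  -- the colour with the most rows
  obtain ⟨i1, hi1⟩ : ∃ i0 : Fin r, i0 ≠ s := exists_other (by omega) s
  obtain ⟨i0, hi0, hmax⟩ := exists_max_image ((univ : Finset (Fin r)).erase s) (fun i => kj hc i)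
    ⟨i1, mem_erase.2 ⟨hi1, mem_univ i1⟩⟩
  have hi0s := (mem_erase.1 hi0).1
  have hA : ∀ i ∈ univ.erase s, (E (col c hc i) univ : ℤ)
      ≤ (r ^ 3 - r ^ 2 + r * (2 * (kj hc i) ^ 2 - 4 * kj hc i + 2) + 8 * kj hc i - 4)
        - E (col c hc s) (UU hc i) := by
    intro i hi
    have := he.E_le_AR hs hV hr (mem_erase.1 hi).1 (hAA i (mem_erase.1 hi).1)
    linarith
  have hB := he.E_le_BR hs hV hr hi0s
    (fun L hL => hbs i0 L (mem_LL.1 hL) (Ne.symm hi0s))
  have hS := sum_E_int hc (univ : Finset V)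
  rw [card_univ, hV, ← add_sum_erase univ _ (mem_univ s), ← add_sum_erase (univ.erase s) _ hi0] at hS
  have hA0 := hA i0 hi0
  -- the other colours
  have h6 : ∑ i ∈ ((univ : Finset (Fin r)).erase s).erase i0, (E (col c hc i) univ : ℤ)
      ≤ ∑ _i ∈ ((univ : Finset (Fin r)).erase s).erase i0, ((r : ℤ) ^ 3 - r - 1
        + 2 * kj hc i0) := by
    refine sum_le_sum fun i hi => ?_
    have hi' := (mem_erase.1 hi).2
    have h7 := hA i hi'
    have h8 := he.E_UU_brou hs hV (by omega) (i := i) (k := s) (Ne.symm (mem_erase.1 hi').1)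
    have h9 := hnQ i (mem_erase.1 hi').1
    have h10 : (kj hc i : ℤ) ≤ kj hc i0 := by exact_mod_cast hmax i hi'
    unfold QQ at h9
    push Not at h9
    nlinarith
  rw [sum_const, card_erase_of_mem hi0, card_erase_of_mem (mem_univ s), card_univ,
    Fintype.card_fin, nsmul_eq_mul] at h6
  have h7 : ((r - 1 - 1 : ℕ) : ℤ) = r - 2 := by omega
  rw [h7] at h6
  have h9 := hnQ i0 hi0s
  unfold QQ at h9
  push Not at h9
  push_cast at hS
  have hr7 : (7 : ℤ) ≤ r := by exact_mod_cast hr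
  have hk0 : (0 : ℤ) ≤ kj hc i0 := Int.natCast_nonneg _
  generalize (kj hc i0 : ℤ) = k at *
  nlinarith

include hs hV in
/-- **the exceptional case without `S2` frames with `m = r - 1`** -/
theorem exists_low (hr : 7 ≤ r) (he : Exc hc)
    (hno : ¬ ∃ j t Z T, S2 (col c hc j) r (r - 1) t Z T) :
    ∃ j T, QQ r (kj hc j) ∧ S2 (col c hc j) r r (kj hc j) (UU hc j) T ∧
      ∀ (n' : ℕ) (Z' T' : Finset V), n' < kj hc j → Z' ⊆ UU hc j → T' ⊆ T →
        ¬ PFrame (col c hc j) r r n' Z' T' := by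
  obtain ⟨j, i, L, hQ, hL, hji, hb⟩ := he.exists_QQ_line hs hV hr
  obtain ⟨K, hK⟩ := exists_line_of_le hs hV (by omega) hL hji hb
  have hF := he.frame_UU hs hV (by omega) hL hji hb
  obtain ⟨h1, h2⟩ := PFrame.crit_of_no (by omega) hF (kj_lt (by omega) hK)
    (fun K hK hKq => clq_lt_of_no_line (by omega) (fun K' hK' => UU_no_line (by omega) hK')
      hK hKq) (fun ⟨t', Z', T', h⟩ => hno ⟨j, t', Z', T', h⟩)
  exact ⟨j, L ∩ UU hc j, hQ, h1, h2⟩

end Exc

end ColourR

end Pool.Agent.Lib.MP_f04ccf_co
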