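import Pool.Agent.Lib.MP_f04ccf_co.M.TieC
import Pool.Agent.Lib.MP_f04ccf_co.M.ExcR

/-!
MP_f04ccf_co, PLAN W: the last step with the exceptional colourings treated separately.
`good_of_wbaseE`, `good_of_noitE`: the statement at `r` from the absence of frames of least level
with at most `r - 1` doubles, and with `r` doubles only for `n` rows with
`r² ≤ (n² - 3 n + 3) r + 2 n - 2` (`Exc.QQ r n`).
-/

set_option autoImplicit false

namespace Pool.Agent.Lib.MP_f04ccf_co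

open Finset

attribute [local instance] Classical.propDecidable

section GoodE

/-- **one `r`**: frames with `r` doubles are needed only for `Exc.QQ r n` -/
theorem good_of_wbaseE (r : ℕ) (hr : 9 ≤ r)
    (hA : ∀ (G : SimpleGraph (Fin (r ^ 2 + 1))) (n : ℕ)
      (Z T : Finset (Fin (r ^ 2 + 1))), 5 ≤ n → n + 6 ≤ r → ¬ WBase G Z T r (r - 1) n)
    (hB : ∀ (G : SimpleGraph (Fin (r ^ 2 + 1))) (n : ℕ)
      (Z T : Finset (Fin (r ^ 2 + 1))), 5 ≤ n → n + 5 ≤ r → Exc.QQ r n → ¬ WBase G Z T r r n) :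
    Good r (r ^ 2 + 1) := by
  intro c hc
  by_contra hcon
  push Not at hcon
  have hs : Sees c := fun S hS k => by
    obtain ⟨x, hx, y, hy, hxy, hk⟩ := hcon S hS k
    exact ⟨x, hx, y, hy, hxy, hk⟩
  by_cases hno : ∃ j t Z T, S2 (col c hc j) r (r - 1) t Z T
  · obtain ⟨j, t, Z, T, h⟩ := hno
    have h1 := h.three_le (by omega) (PG_col hc hs j)
    have hC : FCore (col c hc j) Z T r (r - 1) t := ⟨hr, GP_col hs j, h, by omega, by omega⟩
    obtain ⟨n, -, Z', T', hW⟩ := exists_wbase (GPW_col (hc := hc) hs j) hC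
    have h2 := hW.toFCore.five_more
    have h3 := hW.F.toPFrame.b
    exact hA _ n Z' T' hW.five (by omega) hW
  · rcases S2_or_exc (hc := hc) hs (by omega) (by simp) with ⟨j, t, Z, T, h⟩ | he
    · exact hno ⟨j, t, Z, T, h⟩
    · obtain ⟨j, T, hQ, hF, hlow⟩ := he.exists_low hs (by simp) (by omega) hno
      have h5 := S2.five_le (by omega) (GP_col hs j).P (GP_col hs j).cap hF
      have hW : WBase (col c hc j) (UU hc j) T r r (kj hc j) :=
        ⟨⟨hr, GP_col hs j, hF, le_rfl, by omega⟩, GPW_col (hc := hc) hs j, hlow⟩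
      exact hB _ _ _ _ h5 hW.nr hQ hW

/-- **one `r`, items of version [C] with ties** -/
theorem good_of_noitE (r : ℕ) (hr : 9 ≤ r)
    (hA : ∀ n : ℕ, 5 ≤ n → n + 6 ≤ r → NoItT ((r : ℤ) - 1) ((r : ℤ) - 1) n)
    (hB : ∀ n : ℕ, 5 ≤ n → n + 5 ≤ r → Exc.QQ r n → NoItT ((r : ℤ) - 1) r n) :
    Good r (r ^ 2 + 1) := by
  refine good_of_wbaseE r hr (fun G n Z T h5 h6 => ?_) fun G n Z T h5 h6 hQ => ?_
  · exact NoItT.wbase_m (hA n h5 h6) (by
      have : ((r - 1 : ℕ) : ℤ) = (r : ℤ) - 1 := by omega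
      linarith)
  · exact NoItT.wbase_m (hB n h5 h6 hQ) le_rfl

/-- `Exc.QQ r 5` only for `r ≤ 13` -/
lemma Exc.QQ.five_le {r : ℕ} (h : Exc.QQ r 5) : r ≤ 13 := by
  unfold QQ at h
  by_contra hlt
  have h1 : (14 : ℤ) ≤ r := by exact_mod_cast (not_le.1 hlt)
  norm_num at h
  nlinarith

/-- `Exc.QQ r 6` only for `r ≤ 21` -/
lemma Exc.QQ.six_le {r : ℕ} (h : Exc.QQ r 6) : r ≤ 21 := by
  unfold QQ at h
  by_contra hlt
  have h1 : (22 : ℤ) ≤ r := by exact_mod_cast (not_le.1 hlt)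
  norm_num at h
  nlinarith

/-- `Exc.QQ r 7` only for `r ≤ 31` -/
lemma Exc.QQ.seven_le {r : ℕ} (h : Exc.QQ r 7) : r ≤ 31 := by
  unfold QQ at h
  by_contra hlt
  have h1 : (32 : ℤ) ≤ r := by exact_mod_cast (not_le.1 hlt)
  norm_num at h
  nlinarith

end GoodE

end Pool.Agent.Lib.MP_f04ccf_co
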