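import Pool.Agent.Lib.MP_f04ccf_co.M.BlkT
import Pool.Agent.Lib.MP_f04ccf_co.M.GoodE

/-!
MP_f04ccf_co, PLAN W, block certificate: **one value of `r` from the pairs of the two largest shares**.
`good_of_pr`: `Good (R + 1)` from `NoPr R R 5 a b` (`a + b + 6 ≤ R`) and `NoPr R (R + 1) n a b`
(`6 ≤ n`, `a + b + 7 ≤ R + 1`).
-/

set_option autoImplicit false

namespace Pool.Agent.Lib.MP_f04ccf_co

/-- **one `r` from the pairs** -/
theorem good_of_pr (R : ℕ) (hR : 13 ≤ R)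
    (h5 : ∀ a b : ℕ, b ≤ a → a + b + 6 ≤ R → NoPr (R : ℤ) R 5 a b)
    (h6 : ∀ n : ℕ, 6 ≤ n → ∀ a b : ℕ, b ≤ a → a + b + 7 ≤ R + 1 →
      NoPr (R : ℤ) ((R + 1 : ℕ) : ℤ) n a b) : Good (R + 1) ((R + 1) ^ 2 + 1) := by
  have e1 : (((R + 1 : ℕ) : ℤ) - 1) = (R : ℤ) := by
    push_cast
    ring
  have k5 : NoItC (R : ℤ) (R : ℤ) 5 := NoItC.of_pr (q := 3) (by norm_num) fun a b h1 h2 =>
    h5 a b h1 (by omega)
  have k6 : ∀ n : ℕ, 6 ≤ n → NoItC (R : ℤ) ((R + 1 : ℕ) : ℤ) n := fun n hn =>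
    NoItC.of_pr (q := 4) (by omega) fun a b h1 h2 => h6 n hn a b h1 (by omega)
  refine good_of_noitE (R + 1) (by omega) (fun n hn1 hn2 => ?_) fun n hn1 hn2 hQ => ?_
  · rw [e1]
    rcases Nat.eq_or_lt_of_le hn1 with h | h
    · subst h
      exact k5.t
    · exact ((k6 n h).mono (by push_cast; linarith)).t
  · rw [e1]
    rcases Nat.eq_or_lt_of_le hn1 with h | h
    · subst h
      exfalso
      unfold Exc.QQ at hQ
      push_cast at hQ
      zify at hR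
      nlinarith
    · exact (k6 n h).t

end Pool.Agent.Lib.MP_f04ccf_co
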