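import Pool.Agent.Lib.MP_f04ccf_co.M.BlkZ

/-!
MP_f04ccf_co, PLAN W, block certificate: **one value of `r ≥ 22` from the pairs of the two largest shares**.
`good_of_pr7`: `Good (R + 1)`, `R ≥ 21`, from `NoPr R R n a b` (`5 ≤ n`, `a + b + 6 ≤ R`) and
`NoPr R (R + 1) n a b` (`7 ≤ n`, `a + b + 8 ≤ R + 1`): frames with `R + 1` doubles are needed only for
`n ≥ 7` rows (`Exc.QQ`).
-/

set_option autoImplicit false

namespace Pool.Agent.Lib.MP_f04ccf_co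

/-- **one `r ≥ 22` from the pairs** -/
theorem good_of_pr7 (R : ℕ) (hR : 21 ≤ R)
    (h5 : ∀ n : ℕ, 5 ≤ n → ∀ a b : ℕ, b ≤ a → a + b + 6 ≤ R → NoPr (R : ℤ) (R : ℤ) n a b)
    (h7 : ∀ n : ℕ, 7 ≤ n → ∀ a b : ℕ, b ≤ a → a + b + 8 ≤ R + 1 →
      NoPr (R : ℤ) ((R + 1 : ℕ) : ℤ) n a b) : Good (R + 1) ((R + 1) ^ 2 + 1) := by
  have e1 : (((R + 1 : ℕ) : ℤ) - 1) = (R : ℤ) := by
    push_cast
    ring
  have k5 : ∀ n : ℕ, 5 ≤ n → NoItC (R : ℤ) (R : ℤ) n := fun n hn =>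
    NoItC.of_pr (q := 3) (by omega) fun a b h1 h2 => h5 n hn a b h1 (by omega)
  have k7 : ∀ n : ℕ, 7 ≤ n → NoItC (R : ℤ) ((R + 1 : ℕ) : ℤ) n := fun n hn =>
    NoItC.of_pr (q := 5) (by omega) fun a b h1 h2 => h7 n hn a b h1 (by omega)
  refine good_of_noitE (R + 1) (by omega) (fun n hn1 _ => ?_) fun n hn1 _ hQ => ?_
  · rw [e1]
    exact (k5 n hn1).t
  · rw [e1]
    rcases Nat.lt_or_ge n 7 with h | h
    · exfalso
      unfold Exc.QQ at hQ
      push_cast at hQ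
      zify at hR
      have h8 : n = 5 ∨ n = 6 := by omega
      rcases h8 with rfl | rfl
      · push_cast at hQ
        nlinarith
      · push_cast at hQ
        nlinarith
    · exact (k7 n h).t

end Pool.Agent.Lib.MP_f04ccf_co
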