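import Pool.Agent.Lib.MP_f04ccf_co.Basic

/-!
MP_f04ccf_co: FIRST MOMENT for independent transversals (derandomised).  Nonempty parts `A i`, `i ∈ I`;
if the sum over the ordered pairs `(i, j)`, `i ≠ j`, of `e (A i, A j) / (|A i| |A j|)` is less than `2`
(that is less than `1` over unordered pairs), then there is an independent transversal.
-/

set_option autoImplicit false

namespace Pool.Agent.Lib.MP_f04ccf_co

open Finset

attribute [local instance] Classical.propDecidable

variable {V : Type*} (G : SimpleGraph V)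

/-- density between two finite sets -/
noncomputable def den (X Y : Finset V) : ℚ :=
  (∑ x ∈ X, (dg G Y x : ℚ)) / ((X.card : ℚ) * Y.card)

lemma dg_comm_rat (X Y : Finset V) : ∑ x ∈ X, (dg G Y x : ℚ) = ∑ y ∈ Y, (dg G X y : ℚ) := by
  have := dg_comm G X Y
  exact_mod_cast this

lemma den_comm (X Y : Finset V) : den G X Y = den G Y X := by
  unfold den
  rw [dg_comm_rat, mul_comm]

lemma den_nonneg (X Y : Finset V) : 0 ≤ den G X Y := by
  unfold den
  positivity

/-- indicator of adjacency -/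
noncomputable def ia (x y : V) : ℚ := if G.Adj x y then 1 else 0

lemma ia_comm (x y : V) : ia G x y = ia G y x := by
  unfold ia
  simp only [G.adj_comm]

lemma ia_nonneg (x y : V) : 0 ≤ ia G x y := by
  unfold ia
  split_ifs <;> norm_num

lemma dg_eq_ia (Y : Finset V) (x : V) : (dg G Y x : ℚ) = ∑ y ∈ Y, ia G x y := by
  unfold dg ia
  rw [card_filter]
  push_cast
  rfl

/-- the derandomised count, with a cost function -/
theorem fm_aux {ι : Type*} [DecidableEq ι] (v0 : V) (I : Finset ι) (A : ι → Finset V)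
    (hne : ∀ i ∈ I, (A i).Nonempty) : ∀ c : ι → V → ℚ,
    ∃ f : ι → V, (∀ i ∈ I, f i ∈ A i) ∧
      2 * ∑ i ∈ I, c i (f i) + ∑ i ∈ I, ∑ j ∈ I.erase i, ia G (f i) (f j) ≤
      2 * ∑ i ∈ I, (∑ x ∈ A i, c i x) / (A i).card +
        ∑ i ∈ I, ∑ j ∈ I.erase i, den G (A i) (A j) := by
  have hins : ∀ (J : Finset ι) (i0 : ι), i0 ∉ J → ∀ g : ι → ι → ℚ, (∀ a b, g a b = g b a) →
      ∑ i ∈ insert i0 J, ∑ j ∈ (insert i0 J).erase i, g i j =
        2 * ∑ j ∈ J, g i0 j + ∑ i ∈ J, ∑ j ∈ J.erase i, g i j := by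
    intro J i0 hi0 g hg
    rw [sum_insert hi0, erase_insert hi0]
    have h1 : ∀ i ∈ J, ∑ j ∈ (insert i0 J).erase i, g i j = g i0 i + ∑ j ∈ J.erase i, g i j := by
      intro i hi
      have hne : i0 ≠ i := fun h => hi0 (h ▸ hi)
      have h2 : (insert i0 J).erase i = insert i0 (J.erase i) := by
        ext x
        simp only [mem_erase, mem_insert]
        constructor
        · rintro ⟨h3, h4 | h4⟩
          · exact Or.inl h4
          · exact Or.inr ⟨h3, h4⟩
        · rintro (h3 | ⟨h3, h4⟩)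
          · exact ⟨h3 ▸ hne, Or.inl h3⟩
          · exact ⟨h3, Or.inr h4⟩
      rw [h2, sum_insert (fun h => hi0 (mem_erase.1 h).2), hg i i0]
    rw [sum_congr rfl h1, sum_add_distrib]
    ring
  induction I using Finset.induction_on with
  | empty =>
    intro c
    exact ⟨fun _ => v0, by simp, by simp⟩
  | insert i0 J hi0 ih =>
    intro c
    have hA0 : (A i0).Nonempty := hne i0 (mem_insert_self _ _)
    have hAJ : ∀ i ∈ J, (A i).Nonempty := fun i hi => hne i (mem_insert_of_mem hi)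
    have hJne : ∀ i ∈ J, i ≠ i0 := by
      rintro i hi rfl
      exact hi0 hi
    -- the cost after the choice of `v` in the part `i0`
    set F : V → ℚ := fun v => c i0 v + ∑ j ∈ J, (dg G (A j) v : ℚ) / (A j).card with hF
    obtain ⟨v, hv, hvm⟩ := exists_min_image (A i0) F hA0
    have havg : F v ≤ (∑ x ∈ A i0, F x) / (A i0).card := by
      rw [le_div_iff₀ (by exact_mod_cast hA0.card_pos)]
      have := card_nsmul_le_sum (A i0) F (F v) hvm
      rw [nsmul_eq_mul] at this
      linarith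
    obtain ⟨f, hf, hfc⟩ := ih hAJ (fun j u => c j u + ia G v u)
    refine ⟨Function.update f i0 v, ?_, ?_⟩
    · intro i hi
      rcases mem_insert.1 hi with h | h
      · subst h; rw [Function.update_self]; exact hv
      · rw [Function.update_of_ne (hJne i h)]; exact hf i h
    · have hup : ∀ i ∈ J, Function.update f i0 v i = f i := fun i hi =>
        Function.update_of_ne (hJne i hi) _ _
      rw [hins J i0 hi0 (fun i j => ia G (Function.update f i0 v i) (Function.update f i0 v j))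
        (fun a b => ia_comm _ _ _),
        hins J i0 hi0 (fun i j => den G (A i) (A j)) (fun a b => den_comm _ _ _),
        sum_insert hi0, sum_insert hi0]
      have e1 : ∑ i ∈ J, c i (Function.update f i0 v i) = ∑ i ∈ J, c i (f i) :=
        sum_congr rfl fun i hi => by rw [hup i hi]
      have e2 : ∑ j ∈ J, ia G (Function.update f i0 v i0) (Function.update f i0 v j) =
          ∑ j ∈ J, ia G v (f j) :=
        sum_congr rfl fun i hi => by rw [hup i hi, Function.update_self]
      have e3 : ∑ i ∈ J, ∑ j ∈ J.erase i, ia G (Function.update f i0 v i)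
          (Function.update f i0 v j) = ∑ i ∈ J, ∑ j ∈ J.erase i, ia G (f i) (f j) :=
        sum_congr rfl fun i hi => sum_congr rfl fun j hj => by
          rw [hup i hi, hup j (mem_erase.1 hj).2]
      rw [e1, e2, e3, Function.update_self]
      have e4 : ∑ i ∈ J, (∑ x ∈ A i, (c i x + ia G v x)) / ((A i).card : ℚ) =
          ∑ i ∈ J, (∑ x ∈ A i, c i x) / ((A i).card : ℚ) +
            ∑ i ∈ J, (dg G (A i) v : ℚ) / (A i).card := by
        rw [← sum_add_distrib]
        refine sum_congr rfl fun i _ => ?_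
        rw [sum_add_distrib, add_div, dg_eq_ia]
      have e5 : ∑ i ∈ J, (c i (f i) + ia G v (f i)) =
          ∑ i ∈ J, c i (f i) + ∑ i ∈ J, ia G v (f i) := sum_add_distrib
      have e6 : (∑ x ∈ A i0, F x) / ((A i0).card : ℚ) =
          (∑ x ∈ A i0, c i0 x) / ((A i0).card : ℚ) + ∑ j ∈ J, den G (A i0) (A j) := by
        rw [hF]
        simp only
        rw [sum_add_distrib, add_div, sum_comm]
        congr 1
        rw [sum_div]
        refine sum_congr rfl fun j _ => ?_
        unfold den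
        rw [← sum_div, div_div, mul_comm ((A j).card : ℚ)]
      rw [e4, e5] at hfc
      rw [e6] at havg
      rw [hF] at havg
      simp only at havg
      linarith

/-- **First moment.** -/
theorem fm {ι : Type*} [DecidableEq ι] (I : Finset ι) (A : ι → Finset V)
    (hne : ∀ i ∈ I, (A i).Nonempty)
    (h : ∑ i ∈ I, ∑ j ∈ I.erase i, den G (A i) (A j) < 2) (v0 : V) :
    ∃ f : ι → V, (∀ i ∈ I, f i ∈ A i) ∧ ∀ i ∈ I, ∀ j ∈ I, i ≠ j → ¬ G.Adj (f i) (f j) := by
  obtain ⟨f, hf, hfc⟩ := fm_aux G v0 I A hne (fun _ _ => 0)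
  refine ⟨f, hf, fun i hi j hj hij hadj => ?_⟩
  simp only [sum_const_zero, zero_div, mul_zero, zero_add] at hfc
  have h0 : ∀ a ∈ I, 0 ≤ ∑ b ∈ I.erase a, ia G (f a) (f b) := fun a _ =>
    sum_nonneg fun b _ => ia_nonneg _ _ _
  have h1 : ∀ a ∈ I, ∀ b ∈ I, a ≠ b → G.Adj (f a) (f b) →
      1 ≤ ∑ b ∈ I.erase a, ia G (f a) (f b) := by
    intro a _ b hb hab hadj
    have h2 : ia G (f a) (f b) = 1 := by unfold ia; rw [if_pos hadj]
    rw [← h2]
    exact single_le_sum (fun b _ => ia_nonneg _ _ _) (mem_erase.2 ⟨hab.symm, hb⟩)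
  have h3 := h1 i hi j hj hij hadj
  have h4 := h1 j hj i hi hij.symm hadj.symm
  have h5 : ∑ a ∈ ({i, j} : Finset ι), ∑ b ∈ I.erase a, ia G (f a) (f b) ≤
      ∑ a ∈ I, ∑ b ∈ I.erase a, ia G (f a) (f b) := by
    refine sum_le_sum_of_subset_of_nonneg ?_ fun a ha _ => h0 a ha
    intro x hx
    rw [mem_insert, mem_singleton] at hx
    rcases hx with h | h
    · rw [h]; exact hi
    · rw [h]; exact hj
  rw [sum_pair hij] at h5
  linarith

/-- first moment with caps for the edge numbers: `e (A i, A j) ≤ c i j`, `a i ≤ |A i|` -/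
theorem fm_cap {ι : Type*} [DecidableEq ι] (I : Finset ι) (A : ι → Finset V) (a : ι → ℚ)
    (ha : ∀ i ∈ I, 0 < a i) (haA : ∀ i ∈ I, a i ≤ (A i).card) (cp : ι → ι → ℚ)
    (hcp : ∀ i ∈ I, ∀ j ∈ I, i ≠ j → ∑ x ∈ A i, (dg G (A j) x : ℚ) ≤ cp i j)
    (h : ∑ i ∈ I, ∑ j ∈ I.erase i, cp i j / (a i * a j) < 2) (v0 : V) :
    ∃ f : ι → V, (∀ i ∈ I, f i ∈ A i) ∧ ∀ i ∈ I, ∀ j ∈ I, i ≠ j → ¬ G.Adj (f i) (f j) := by
  refine fm G I A (fun i hi => ?_) (lt_of_le_of_lt (sum_le_sum fun i hi => sum_le_sum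
    fun j hj => ?_) h) v0
  · have := lt_of_lt_of_le (ha i hi) (haA i hi)
    rw [← card_pos]
    exact_mod_cast this
  · have hj' := mem_erase.1 hj
    have h0 : (0 : ℚ) ≤ ∑ x ∈ A i, (dg G (A j) x : ℚ) := by positivity
    have h1 := hcp i hi j hj'.2 hj'.1.symm
    have h2 := ha i hi
    have h3 := ha j hj'.2
    unfold den
    refine div_le_div₀ (h0.trans h1) h1 (mul_pos h2 h3) ?_
    exact mul_le_mul (haA i hi) (haA j hj'.2) h3.le (h2.le.trans (haA i hi))

end Pool.Agent.Lib.MP_f04ccf_co
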