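import Pool.Agent.Lib.MP_f04ccf_co.M.Host
import Pool.Agent.Lib.MP_f04ccf_co.M.FMom
import Pool.Agent.Lib.MP_f04ccf_co.S2Red

/-!
MP_f04ccf_co: BLOCKING.  `T` a maximum independent set of `U`, `J` independent and disjoint from `T`,
`FS G T J` the set of the `T`-neighbours of `J`, rows `pn G U T y`.  Everything is stated for an arbitrary
graph (no colouring, no budget).
-/

set_option autoImplicit false

namespace Pool.Agent.Lib.MP_f04ccf_co.Mn

open Finset

attribute [local instance] Classical.propDecidable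

variable {V : Type*} {G : SimpleGraph V} {U T J S : Finset V} {k : ℕ}

/-- the `T`-neighbours of the set `J` -/
noncomputable def FS (G : SimpleGraph V) (T J : Finset V) : Finset V :=
  T.filter (fun y => ∃ z ∈ J, G.Adj z y)

lemma mem_FS {y : V} : y ∈ FS G T J ↔ y ∈ T ∧ ∃ z ∈ J, G.Adj z y := mem_filter

lemma FS_sub : FS G T J ⊆ T := filter_subset _ _

lemma FS_singleton (z : V) : FS G T {z} = FT G T z := by
  ext y
  rw [mem_FS, mem_FT]
  simp

lemma FS_union (J' : Finset V) : FS G T (J ∪ J') = FS G T J ∪ FS G T J' := by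
  ext y
  simp only [mem_FS, mem_union]
  constructor
  · rintro ⟨h1, z, h2 | h2, h3⟩
    · exact Or.inl ⟨h1, z, h2, h3⟩
    · exact Or.inr ⟨h1, z, h2, h3⟩
  · rintro (⟨h1, z, h2, h3⟩ | ⟨h1, z, h2, h3⟩)
    · exact ⟨h1, z, Or.inl h2, h3⟩
    · exact ⟨h1, z, Or.inr h2, h3⟩

/-- a private vertex `a ≠ y` of the row `y` has `y` as its only neighbour in `T` -/
lemma FT_pn {y a : V} (hy : y ∈ T) (ha : a ∈ pn G U T y) (hay : a ≠ y) :
    FT G T a = {y} := by
  ext w
  rw [mem_FT, mem_singleton]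
  rcases (mem_pn.1 ha).2 with h1 | ⟨h1, h2⟩
  · exact absurd h1 hay
  · constructor
    · rintro ⟨h3, h4⟩; exact h2 w h3 h4
    · rintro rfl; exact ⟨hy, h1⟩

/-- **BLOCKING.** -/
theorem block (hα : AlphaLe G U k) (hT : T ⊆ U) (hi : Ind G T) (hTc : T.card = k)
    (hJ : J ⊆ U) (hJi : Ind G J) (hJT : Disjoint J T)
    (hS : S ⊆ (FS G T J).biUnion (pn G U T)) (hSi : Ind G S)
    (hJS : ∀ z ∈ J, ∀ s ∈ S, ¬ G.Adj z s) (hd : Disjoint J S) :
    J.card + S.card ≤ (FS G T J).card := by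
  have hSy : ∀ s ∈ S, ∃ y ∈ FS G T J, s ∈ pn G U T y := fun s hs => by
    obtain ⟨y, hy, h1⟩ := mem_biUnion.1 (hS hs)
    exact ⟨y, hy, h1⟩
  have hTS : ∀ s ∈ S, s ∉ T \ FS G T J := by
    intro s hs h1
    obtain ⟨y, hy, h2⟩ := hSy s hs
    have h3 := mem_sdiff.1 h1
    refine pn_notMem hi (FS_sub hy) h2 (mem_erase.2 ⟨?_, h3.1⟩)
    rintro rfl
    exact h3.2 hy
  have h1 : Ind G ((T \ FS G T J) ∪ J ∪ S) := by
    have hTJ : ∀ x ∈ T \ FS G T J, ∀ z ∈ J, ¬ G.Adj x z := by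
      intro x hx z hz hxz
      have h3 := mem_sdiff.1 hx
      exact h3.2 (mem_FS.2 ⟨h3.1, z, hz, hxz.symm⟩)
    have hTS' : ∀ x ∈ T \ FS G T J, ∀ s ∈ S, ¬ G.Adj x s := by
      intro x hx s hs hxs
      obtain ⟨y, hy, h2⟩ := hSy s hs
      have h3 := mem_sdiff.1 hx
      refine pn_not_adj hi (FS_sub hy) h2 x (mem_erase.2 ⟨?_, h3.1⟩) hxs.symm
      rintro rfl
      exact h3.2 hy
    intro x hx y hy hxy
    simp only [mem_union] at hx hy
    rcases hx with (hx | hx) | hx <;> rcases hy with (hy | hy) | hy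
    · exact hi x (mem_sdiff.1 hx).1 y (mem_sdiff.1 hy).1 hxy
    · exact hTJ x hx y hy hxy
    · exact hTS' x hx y hy hxy
    · exact hTJ y hy x hx hxy.symm
    · exact hJi x hx y hy hxy
    · exact hJS x hx y hy hxy
    · exact hTS' y hy x hx hxy.symm
    · exact hJS y hy x hx hxy.symm
    · exact hSi x hx y hy hxy
  have h2 : (T \ FS G T J) ∪ J ∪ S ⊆ U := by
    intro x hx
    simp only [mem_union] at hx
    rcases hx with (hx | hx) | hx
    · exact hT (mem_sdiff.1 hx).1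
    · exact hJ hx
    · obtain ⟨y, _, h3⟩ := hSy x hx
      exact pn_sub _ _ _ h3
  have h3 := hα _ h2 h1
  have h4 : Disjoint (T \ FS G T J) J := (hJT.symm).mono_left sdiff_subset
  have h5 : Disjoint ((T \ FS G T J) ∪ J) S := by
    rw [disjoint_union_left]
    refine ⟨?_, hd⟩
    rw [disjoint_right]
    exact hTS
  rw [card_union_of_disjoint h5, card_union_of_disjoint h4] at h3
  have h6 := card_sdiff_add_card_eq_card (FS_sub (G := G) (T := T) (J := J))
  omega

/-- the part of the row `y` which is left by `J` -/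
noncomputable def AY (G : SimpleGraph V) (U T J : Finset V) (y : V) : Finset V :=
  (pn G U T y).filter (fun s => s ∉ J ∧ ∀ z ∈ J, ¬ G.Adj z s)

lemma mem_AY {y s : V} : s ∈ AY G U T J y ↔ s ∈ pn G U T y ∧ s ∉ J ∧ ∀ z ∈ J, ¬ G.Adj z s :=
  mem_filter

lemma AY_sub (y : V) : AY G U T J y ⊆ pn G U T y := filter_subset _ _

/-- blocking, one row: if `|F (J)| ≤ |J|` then `J` covers every row of `F (J)` -/
theorem block_one (hα : AlphaLe G U k) (hT : T ⊆ U) (hi : Ind G T) (hTc : T.card = k)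
    (hJ : J ⊆ U) (hJi : Ind G J) (hJT : Disjoint J T) (hF : (FS G T J).card ≤ J.card)
    {y : V} (hy : y ∈ FS G T J) : AY G U T J y = ∅ := by
  by_contra hne
  obtain ⟨s, hs⟩ := nonempty_iff_ne_empty.2 hne
  have h1 := mem_AY.1 hs
  have h2 := block hα hT hi hTc hJ hJi hJT (S := {s}) ?_ ?_ ?_ ?_
  · rw [card_singleton] at h2
    omega
  · rw [singleton_subset_iff]
    exact mem_biUnion.2 ⟨y, hy, h1.1⟩
  · intro a ha b hb
    rw [mem_singleton] at ha hb
    rw [ha, hb]
    exact G.loopless.irrefl s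
  · intro z hz a ha
    rw [mem_singleton] at ha
    rw [ha]
    exact h1.2.2 z hz
  · rw [disjoint_singleton_right]
    exact h1.2.1

/-- blocking, two rows: if `|F (J)| ≤ |J| + 1` then the rests of two rows of `F (J)` are complete to each
other -/
theorem block_two (hα : AlphaLe G U k) (hT : T ⊆ U) (hi : Ind G T) (hTc : T.card = k)
    (hJ : J ⊆ U) (hJi : Ind G J) (hJT : Disjoint J T) (hF : (FS G T J).card ≤ J.card + 1)
    {x y : V} (hx : x ∈ FS G T J) (hy : y ∈ FS G T J) (hxy : x ≠ y) {a b : V}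
    (ha : a ∈ AY G U T J x) (hb : b ∈ AY G U T J y) : G.Adj a b := by
  by_contra hadj
  have h1 := mem_AY.1 ha
  have h2 := mem_AY.1 hb
  have hab : a ≠ b := by
    rintro rfl
    exact disjoint_left.1 (pn_disj hi (FS_sub hx) (FS_sub hy) hxy) h1.1 h2.1
  have h3 := block hα hT hi hTc hJ hJi hJT (S := {a, b}) ?_ ?_ ?_ ?_
  · rw [card_pair hab] at h3
    omega
  · intro s hs
    rw [mem_insert, mem_singleton] at hs
    rcases hs with rfl | rfl
    · exact mem_biUnion.2 ⟨x, hx, h1.1⟩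
    · exact mem_biUnion.2 ⟨y, hy, h2.1⟩
  · intro s hs t ht hst
    rw [mem_insert, mem_singleton] at hs ht
    rcases hs with rfl | rfl <;> rcases ht with rfl | rfl
    · exact G.loopless.irrefl _ hst
    · exact hadj hst
    · exact hadj hst.symm
    · exact G.loopless.irrefl _ hst
  · intro z hz s hs
    rw [mem_insert, mem_singleton] at hs
    rcases hs with rfl | rfl
    · exact h1.2.2 z hz
    · exact h2.2.2 z hz
  · rw [disjoint_right]
    intro s hs
    rw [mem_insert, mem_singleton] at hs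
    rcases hs with rfl | rfl
    · exact h1.2.1
    · exact h2.2.1

/-- **blocking and first moment**: parts `A y ⊆ AY G U T J y` for the rows `y` of a set `F ⊆ F (J)` with
`|F (J)| < |J| + |F|` have density sum at least `2` (ordered pairs), if they are nonempty -/
theorem block_fm (hα : AlphaLe G U k) (hT : T ⊆ U) (hi : Ind G T) (hTc : T.card = k)
    (hJ : J ⊆ U) (hJi : Ind G J) (hJT : Disjoint J T) {F : Finset V} (hF : F ⊆ FS G T J)
    (hFc : (FS G T J).card < J.card + F.card) {A : V → Finset V}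
    (hA : ∀ y ∈ F, A y ⊆ AY G U T J y) (hne : ∀ y ∈ F, (A y).Nonempty) (v0 : V) :
    2 ≤ ∑ x ∈ F, ∑ y ∈ F.erase x, den G (A x) (A y) := by
  by_contra hlt
  obtain ⟨f, hf, hfi⟩ := fm G F A hne (not_le.1 hlt) v0
  have hf' : ∀ y ∈ F, f y ∈ AY G U T J y := fun y hy => hA y hy (hf y hy)
  have hinj : Set.InjOn f F := by
    intro x hx y hy hxy
    by_contra hne
    have h1 := (mem_AY.1 (hf' x hx)).1
    have h2 := (mem_AY.1 (hf' y hy)).1
    rw [hxy] at h1
    exact disjoint_left.1 (pn_disj hi (FS_sub (hF hx)) (FS_sub (hF hy)) hne) h1 h2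
  have h3 := block hα hT hi hTc hJ hJi hJT (S := F.image f) ?_ ?_ ?_ ?_
  · rw [card_image_of_injOn hinj] at h3
    omega
  · intro s hs
    obtain ⟨y, hy, rfl⟩ := mem_image.1 hs
    exact mem_biUnion.2 ⟨y, hF hy, (mem_AY.1 (hf' y hy)).1⟩
  · intro s hs t ht hst
    obtain ⟨x, hx, rfl⟩ := mem_image.1 hs
    obtain ⟨y, hy, rfl⟩ := mem_image.1 ht
    by_cases hxy : x = y
    · subst hxy
      exact G.loopless.irrefl _ hst
    · exact hfi x hx y hy hxy hst
  · intro z hz s hs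
    obtain ⟨y, hy, rfl⟩ := mem_image.1 hs
    exact (mem_AY.1 (hf' y hy)).2.2 z hz
  · rw [disjoint_right]
    intro s hs
    obtain ⟨y, hy, rfl⟩ := mem_image.1 hs
    exact (mem_AY.1 (hf' y hy)).2.1

/-- the same with caps: `α y ≤ |AY G U T J y|`, `e (pn x, pn y) ≤ cp x y` -/
theorem block_cap (hα : AlphaLe G U k) (hT : T ⊆ U) (hi : Ind G T) (hTc : T.card = k)
    (hJ : J ⊆ U) (hJi : Ind G J) (hJT : Disjoint J T) {F : Finset V} (hF : F ⊆ FS G T J)
    (hFc : (FS G T J).card < J.card + F.card) {a : V → ℚ} (ha : ∀ y ∈ F, 0 < a y)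
    (haA : ∀ y ∈ F, a y ≤ (AY G U T J y).card) {cp : V → V → ℚ}
    (hcp : ∀ x ∈ F, ∀ y ∈ F, x ≠ y → ∑ v ∈ pn G U T x, (dg G (pn G U T y) v : ℚ) ≤ cp x y)
    (v0 : V) : 2 ≤ ∑ x ∈ F, ∑ y ∈ F.erase x, cp x y / (a x * a y) := by
  have hne : ∀ y ∈ F, (AY G U T J y).Nonempty := by
    intro y hy
    have := lt_of_lt_of_le (ha y hy) (haA y hy)
    rw [← card_pos]
    exact_mod_cast this
  refine (block_fm hα hT hi hTc hJ hJi hJT hF hFc (fun y _ => Subset.refl _) hne v0).trans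
    (sum_le_sum fun x hx => sum_le_sum fun y hy => ?_)
  have hy' := mem_erase.1 hy
  have h0 : ∑ v ∈ AY G U T J x, (dg G (AY G U T J y) v : ℚ) ≤
      ∑ v ∈ pn G U T x, (dg G (pn G U T y) v : ℚ) := by
    refine (sum_le_sum fun v _ => ?_).trans
      (sum_le_sum_of_subset_of_nonneg (AY_sub x) fun v _ _ => by positivity)
    exact_mod_cast dg_mono G (AY_sub y) v
  have h1 := hcp x hx y hy'.2 hy'.1.symm
  have h2 : (0 : ℚ) ≤ ∑ v ∈ AY G U T J x, (dg G (AY G U T J y) v : ℚ) := by positivity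
  unfold den
  refine div_le_div₀ (h2.trans (h0.trans h1)) (h0.trans h1)
    (mul_pos (ha x hx) (ha y hy'.2)) ?_
  exact mul_le_mul (haA x hx) (haA y hy'.2) (ha y hy'.2).le
    ((ha x hx).le.trans (haA x hx))

/-- pair cap: two disjoint cliques -/
lemma PG.pair_cap {r : ℕ} (hP : PG G r) {K K' : Finset V} (hK : Clq G K) (hK' : Clq G K')
    (hd : Disjoint K K') :
    (∑ v ∈ K, (dg G K' v : ℤ)) ≤ K.card * K'.card - ((r : ℤ) - 1) * (K.card + K'.card - r) := by
  have h1 := hP.one (K ∪ K')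
  have h2 := E_sdiff G (subset_union_right (s₁ := K) (s₂ := K'))
  have h3 : (K ∪ K') \ K' = K := by
    rw [union_sdiff_right]
    exact sdiff_eq_self_of_disjoint hd
  have h4 : ∑ v ∈ K', dg G (K ∪ K') v = ∑ v ∈ K', dg G K v + ∑ v ∈ K', dg G K' v := by
    rw [← sum_add_distrib]
    refine sum_congr rfl fun v _ => ?_
    unfold dg
    rw [filter_union, card_union_of_disjoint (disjoint_filter_filter hd)]
  have h5 : ∑ v ∈ K', dg G K' v = E G K' := rfl
  have h6 := dg_comm G K K'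
  have h7 := E_clq G hK
  have h8 := E_clq G hK'
  rw [h3, h4, h5] at h2
  rw [card_union_of_disjoint hd] at h1
  have h9 : (E G (K ∪ K') : ℤ) = E G K + E G K' + 2 * ∑ v ∈ K, (dg G K' v : ℤ) := by
    have : E G (K ∪ K') = E G K + E G K' + 2 * ∑ v ∈ K, dg G K' v := by omega
    rw [this]
    push_cast
    ring
  rw [h9, h7, h8] at h1
  rcases Nat.eq_zero_or_pos K.card with h0 | h0
  · rw [card_eq_zero] at h0
    subst h0
    simp only [sum_empty, card_empty] at h1 ⊢
    push_cast at h1 ⊢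
    rcases Nat.eq_zero_or_pos K'.card with h0' | h0'
    · rw [h0'] at h1 ⊢
      push_cast at h1 ⊢
      nlinarith
    · push_cast [h0'] at h1
      nlinarith
  · rcases Nat.eq_zero_or_pos K'.card with h0' | h0'
    · rw [h0'] at h1 ⊢
      push_cast [h0] at h1 ⊢
      nlinarith
    · push_cast [h0, h0'] at h1 ⊢
      nlinarith

end Pool.Agent.Lib.MP_f04ccf_co.Mn
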