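import Pool.Agent.Lib.MP_f04ccf_co.S2Api
import Pool.Agent.Lib.MP_f04ccf_co.M.FMom

/-!
MP_f04ccf_co: BLOCKING in the line frame.  `J` independent with all its ends in `I`; the rest of a set `X`
after `J` is `rs G X J` = the points of `X` outside `J` and without neighbour in `J`.
`PFrame.rest_alpha`: the rest of `ZI I` has independence number at most `|I| - |J|`.
-/

set_option autoImplicit false

namespace Pool.Agent.Lib.MP_f04ccf_co

open Finset

attribute [local instance] Classical.propDecidable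

variable {V : Type*} {G : SimpleGraph V}

/-- the points of `X` which are left by `J` -/
noncomputable def rs (G : SimpleGraph V) (X J : Finset V) : Finset V :=
  X.filter (fun s => s ∉ J ∧ ∀ z ∈ J, ¬ G.Adj z s)

lemma mem_rs {X J : Finset V} {s : V} :
    s ∈ rs G X J ↔ s ∈ X ∧ s ∉ J ∧ ∀ z ∈ J, ¬ G.Adj z s := mem_filter

lemma rs_sub (X J : Finset V) : rs G X J ⊆ X := filter_subset _ _

lemma rs_mono {X Y : Finset V} (h : X ⊆ Y) (J : Finset V) : rs G X J ⊆ rs G Y J :=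
  filter_subset_filter _ h

lemma rs_anti (X : Finset V) {J K : Finset V} (h : J ⊆ K) : rs G X K ⊆ rs G X J := fun s hs => by
  obtain ⟨h1, h2, h3⟩ := mem_rs.1 hs
  exact mem_rs.2 ⟨h1, fun h4 => h2 (h h4), fun z hz => h3 z (h hz)⟩

lemma rs_singleton (X : Finset V) (z : V) :
    rs G X {z} = X.filter (fun s => s ≠ z ∧ ¬ G.Adj z s) := by
  ext s
  rw [mem_rs, mem_filter, mem_singleton]
  simp only [mem_singleton, forall_eq]

/-- `J` covers `X`: every point of `X` is in `J` or has a neighbour in `J` -/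
lemma rs_eq_empty {X J : Finset V} :
    rs G X J = ∅ ↔ ∀ s ∈ X, s ∈ J ∨ ∃ z ∈ J, G.Adj z s := by
  rw [rs, filter_eq_empty_iff]
  constructor
  · intro h s hs
    by_contra hn
    push Not at hn
    exact h hs ⟨hn.1, hn.2⟩
  · intro h s hs h1
    rcases h s hs with h2 | ⟨z, hz, h2⟩
    · exact h1.1 h2
    · exact h1.2 z hz h2

/-- the set of the ends of the points of `J` -/
noncomputable def endsS (G : SimpleGraph V) (T J : Finset V) : Finset V :=
  T.filter (fun y => ∃ z ∈ J, G.Adj z y)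

lemma mem_endsS {T J : Finset V} {y : V} : y ∈ endsS G T J ↔ y ∈ T ∧ ∃ z ∈ J, G.Adj z y :=
  mem_filter

lemma endsS_sub {T J : Finset V} : endsS G T J ⊆ T := filter_subset _ _

lemma ends_sub_endsS {T J : Finset V} {z : V} (hz : z ∈ J) : ends G T z ⊆ endsS G T J := by
  intro y hy
  obtain ⟨h1, h2⟩ := mem_ends.1 hy
  exact mem_endsS.2 ⟨h1, z, hz, h2⟩

lemma endsS_singleton (T : Finset V) (z : V) : endsS G T {z} = ends G T z := by
  ext y
  rw [mem_endsS, mem_ends]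
  simp

lemma endsS_union (T J K : Finset V) : endsS G T (J ∪ K) = endsS G T J ∪ endsS G T K := by
  ext y
  simp only [mem_endsS, mem_union]
  constructor
  · rintro ⟨h1, z, h2 | h2, h3⟩
    · exact Or.inl ⟨h1, z, h2, h3⟩
    · exact Or.inr ⟨h1, z, h2, h3⟩
  · rintro (⟨h1, z, h2, h3⟩ | ⟨h1, z, h2, h3⟩)
    · exact ⟨h1, z, Or.inl h2, h3⟩
    · exact ⟨h1, z, Or.inr h2, h3⟩

lemma sub_ZI_endsS {Z T J : Finset V} (hJ : J ⊆ Z) (hJT : Disjoint J T) :
    J ⊆ ZI G Z T (endsS G T J) := fun _ hz =>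
  mem_ZI.2 ⟨hJ hz, fun h1 => absurd h1 (disjoint_left.1 hJT hz), ends_sub_endsS hz⟩

lemma sub_ZI_of {Z T I J : Finset V} (hJ : J ⊆ Z) (hJT : Disjoint J T) (h : endsS G T J ⊆ I) :
    J ⊆ ZI G Z T I :=
  (sub_ZI_endsS hJ hJT).trans (PFrame.ZI_mono h)

namespace PFrame

variable {r m t : ℕ} {Z T I J S : Finset V}

/-- **BLOCKING.** -/
theorem block (h : PFrame G r m t Z T) (hI : I ⊆ T) (hJ : J ⊆ ZI G Z T I) (hJi : Ind G J)
    (hS : S ⊆ rs G (ZI G Z T I) J) (hSi : Ind G S) : J.card + S.card ≤ I.card := by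
  have hd : Disjoint J S := by
    rw [disjoint_right]
    exact fun s hs => (mem_rs.1 (hS hs)).2.1
  rw [← card_union_of_disjoint hd]
  refine h.card_le_of_ends hI (union_subset hJ (hS.trans (rs_sub _ _))) ?_
  intro x hx y hy hxy
  rcases mem_union.1 hx with hx | hx <;> rcases mem_union.1 hy with hy | hy
  · exact hJi x hx y hy hxy
  · exact (mem_rs.1 (hS hy)).2.2 x hx hxy
  · exact (mem_rs.1 (hS hx)).2.2 y hy hxy.symm
  · exact hSi x hx y hy hxy

/-- the rest of `ZI I` has independence number at most `|I| - |J|` -/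
theorem rest_alpha (h : PFrame G r m t Z T) (hI : I ⊆ T) (hJ : J ⊆ ZI G Z T I) (hJi : Ind G J) :
    AlphaLe G (rs G (ZI G Z T I) J) (I.card - J.card) := by
  intro S hS hSi
  have := h.block hI hJ hJi hS hSi
  omega

/-- `|J| ≤ |I|` -/
lemma card_le_I (h : PFrame G r m t Z T) (hI : I ⊆ T) (hJ : J ⊆ ZI G Z T I) (hJi : Ind G J) :
    J.card ≤ I.card := h.card_le_of_ends hI hJ hJi

/-- if `|I| ≤ |J|` then `J` covers everything in `ZI I` -/
theorem rest_empty (h : PFrame G r m t Z T) (hI : I ⊆ T) (hJ : J ⊆ ZI G Z T I) (hJi : Ind G J)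
    (hc : I.card ≤ J.card) : rs G (ZI G Z T I) J = ∅ := by
  by_contra hne
  obtain ⟨s, hs⟩ := nonempty_iff_ne_empty.2 hne
  have := h.block hI hJ hJi (S := {s}) (singleton_subset_iff.2 hs) (by
    intro a ha b hb
    rw [mem_singleton] at ha hb
    rw [ha, hb]
    exact G.loopless.irrefl s)
  rw [card_singleton] at this
  omega

/-- if `|I| ≤ |J| + 1` then the rest of `ZI I` is a clique -/
theorem rest_clq (h : PFrame G r m t Z T) (hI : I ⊆ T) (hJ : J ⊆ ZI G Z T I) (hJi : Ind G J)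
    (hc : I.card ≤ J.card + 1) : Clq G (rs G (ZI G Z T I) J) := by
  intro a ha b hb hab
  by_contra hadj
  have := h.block hI hJ hJi (S := {a, b}) (by
    intro s hs
    rw [mem_insert, mem_singleton] at hs
    rcases hs with rfl | rfl
    · exact ha
    · exact hb) (by
    intro s hs u hu hsu
    rw [mem_insert, mem_singleton] at hs hu
    rcases hs with rfl | rfl <;> rcases hu with rfl | rfl
    · exact G.loopless.irrefl _ hsu
    · exact hadj hsu
    · exact hadj hsu.symm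
    · exact G.loopless.irrefl _ hsu)
  rw [card_pair hab] at this
  omega

/-- a row of `I` is covered by `J` if `|I| ≤ |J|` -/
lemma row_covered (h : PFrame G r m t Z T) (hI : I ⊆ T) (hJ : J ⊆ ZI G Z T I) (hJi : Ind G J)
    (hc : I.card ≤ J.card) {y : V} (hy : y ∈ I) : rs G (Cl G Z T y) J = ∅ := by
  rw [← subset_empty, ← h.rest_empty hI hJ hJi hc]
  exact rs_mono (h.Cl_sub_ZI' (hI hy) hy) J

/-- the rests of two rows of `I` are complete to each other if `|I| ≤ |J| + 1` -/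
lemma rows_complete (h : PFrame G r m t Z T) (hI : I ⊆ T) (hJ : J ⊆ ZI G Z T I) (hJi : Ind G J)
    (hc : I.card ≤ J.card + 1) {x y : V} (hx : x ∈ I) (hy : y ∈ I) (hxy : x ≠ y) {a b : V}
    (ha : a ∈ rs G (Cl G Z T x) J) (hb : b ∈ rs G (Cl G Z T y) J) : G.Adj a b := by
  refine h.rest_clq hI hJ hJi hc a (rs_mono (h.Cl_sub_ZI' (hI hx) hx) J ha) b
    (rs_mono (h.Cl_sub_ZI' (hI hy) hy) J hb) ?_
  rintro rfl
  exact disjoint_left.1 (Cl_disjoint (hI hx) (hI hy) hxy) (rs_sub _ _ ha) (rs_sub _ _ hb)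

/-- the rests of the rows of `F` together with the rest of `B`: one clique -/
lemma sum_rest_le (hr : 2 ≤ r) (hP : PG G r) (h : PFrame G r m t Z T) (hI : I ⊆ T)
    (hJ : J ⊆ ZI G Z T I) (hJi : Ind G J) (hc : I.card ≤ J.card + 1) :
    (rs G (ZI G Z T I) J).card ≤ r := hP.clq_le hr (h.rest_clq hI hJ hJi hc)

/-- the sum of the rests of the rows is at most the rest of `ZI I` -/
lemma sum_rows_le (h : PFrame G r m t Z T) {F : Finset V} (hI : I ⊆ T) (hF : F ⊆ I) :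
    ∑ y ∈ F, (rs G (Cl G Z T y) J).card ≤ (rs G (ZI G Z T I) J).card := by
  rw [← card_biUnion]
  · refine card_le_card ?_
    intro s hs
    obtain ⟨y, hy, h1⟩ := mem_biUnion.1 hs
    exact rs_mono (h.Cl_sub_ZI' (hI (hF hy)) (hF hy)) J h1
  · intro x hx y hy hxy
    exact (Cl_disjoint (hI (hF hx)) (hI (hF hy)) hxy).mono (rs_sub _ _) (rs_sub _ _)

/-- product rule: `|A_x| |A_y| ≤ R + (a_x - 1)(a_y - 1)` -/
theorem rest_mul (h : PFrame G r m t Z T) (hP : PG G r) (hI : I ⊆ T) (hJ : J ⊆ ZI G Z T I)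
    (hJi : Ind G J) (hc : I.card ≤ J.card + 1) {x y : V} (hx : x ∈ I) (hy : y ∈ I) (hxy : x ≠ y) :
    ((rs G (Cl G Z T y) J).card : ℤ) * (rs G (Cl G Z T x) J).card
      ≤ ((r : ℤ) - 1) + ((r : ℤ) - (Cl G Z T x).card - 1) * ((r : ℤ) - (Cl G Z T y).card - 1) := by
  refine le_trans ?_ (h.cross_le hP (hI hx) (hI hy) hxy)
  have h1 : (rs G (Cl G Z T y) J).card * (rs G (Cl G Z T x) J).card
      ≤ ∑ b ∈ Cl G Z T y, dg G (Cl G Z T x) b := by
    have h3 : ∑ _b ∈ rs G (Cl G Z T y) J, (rs G (Cl G Z T x) J).card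
        ≤ ∑ b ∈ rs G (Cl G Z T y) J, dg G (Cl G Z T x) b := by
      refine sum_le_sum fun b hb => card_le_card fun a ha => ?_
      exact mem_filter.2 ⟨rs_sub _ _ ha, (h.rows_complete hI hJ hJi hc hx hy hxy ha hb).symm⟩
    rw [sum_const, smul_eq_mul] at h3
    exact h3.trans (sum_le_sum_of_subset (rs_sub _ _))
  exact_mod_cast h1

/-- **TRANSVERSAL FORM.**  Chosen points `f y` of the rests of the rows `y ∈ F ⊆ I`, pairwise
nonadjacent: `|J| + |F| ≤ |I|`. -/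
theorem block_tr (h : PFrame G r m t Z T) (hI : I ⊆ T) (hJ : J ⊆ ZI G Z T I) (hJi : Ind G J)
    {F : Finset V} (hF : F ⊆ I) {f : V → V} (hf : ∀ y ∈ F, f y ∈ rs G (Cl G Z T y) J)
    (hfi : ∀ x ∈ F, ∀ y ∈ F, x ≠ y → ¬ G.Adj (f x) (f y)) : J.card + F.card ≤ I.card := by
  have hinj : Set.InjOn f F := by
    intro x hx y hy hxy
    by_contra hne
    have h1 := rs_sub _ _ (hf x hx)
    have h2 := rs_sub _ _ (hf y hy)
    rw [hxy] at h1
    exact disjoint_left.1 (Cl_disjoint (hI (hF hx)) (hI (hF hy)) hne) h1 h2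
  have h3 := h.block hI hJ hJi (S := F.image f) ?_ ?_
  · rwa [card_image_of_injOn hinj] at h3
  · intro s hs
    obtain ⟨y, hy, rfl⟩ := mem_image.1 hs
    exact rs_mono (h.Cl_sub_ZI' (hI (hF hy)) (hF hy)) J (hf y hy)
  · intro s hs u hu hsu
    obtain ⟨x, hx, rfl⟩ := mem_image.1 hs
    obtain ⟨y, hy, rfl⟩ := mem_image.1 hu
    by_cases hxy : x = y
    · subst hxy
      exact G.loopless.irrefl _ hsu
    · exact hfi x hx y hy hxy hsu

/-- **(Star) for a transversal**: `f y ∈ Cl y`, pairwise nonadjacent; at least `|J|` of the points `f y`,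
`y ∈ I`, are in `J` or have a neighbour in `J` -/
theorem hall_tr (h : PFrame G r m t Z T) (hI : I ⊆ T) (hJ : J ⊆ ZI G Z T I) (hJi : Ind G J)
    {f : V → V} (hf : ∀ y ∈ I, f y ∈ Cl G Z T y)
    (hfi : ∀ x ∈ I, ∀ y ∈ I, x ≠ y → ¬ G.Adj (f x) (f y)) :
    J.card ≤ (I.filter (fun y => f y ∈ J ∨ ∃ z ∈ J, G.Adj z (f y))).card := by
  have h1 := h.block_tr hI hJ hJi (F := I.filter (fun y => ¬ (f y ∈ J ∨ ∃ z ∈ J, G.Adj z (f y))))
    (filter_subset _ _) (f := f) ?_ ?_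
  · have h2 := card_filter_add_card_filter_not (s := I)
      (fun y => f y ∈ J ∨ ∃ z ∈ J, G.Adj z (f y))
    omega
  · intro y hy
    obtain ⟨h2, h3⟩ := mem_filter.1 hy
    push Not at h3
    exact mem_rs.2 ⟨hf y h2, h3.1, h3.2⟩
  · intro x hx y hy hxy
    exact hfi x (mem_filter.1 hx).1 y (mem_filter.1 hy).1 hxy

/-- **(Star) for a transversal**, `F (J)` form -/
theorem hall_tr' (h : PFrame G r m t Z T) (hJ : J ⊆ Z) (hJT : Disjoint J T) (hJi : Ind G J)
    {f : V → V} (hf : ∀ y ∈ endsS G T J, f y ∈ Cl G Z T y)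
    (hfi : ∀ x ∈ endsS G T J, ∀ y ∈ endsS G T J, x ≠ y → ¬ G.Adj (f x) (f y)) :
    J.card ≤ ((endsS G T J).filter (fun y => f y ∈ J ∨ ∃ z ∈ J, G.Adj z (f y))).card :=
  h.hall_tr endsS_sub (sub_ZI_endsS hJ hJT) hJi hf hfi

/-- **(Star)**: the rows of `I` which are covered by `J` are at least `|J|` many, as soon as the rests of
the other rows have an independent transversal -/
theorem star (h : PFrame G r m t Z T) (hI : I ⊆ T) (hJ : J ⊆ ZI G Z T I) (hJi : Ind G J)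
    (hf : ∃ f : V → V, (∀ y ∈ I, rs G (Cl G Z T y) J ≠ ∅ → f y ∈ rs G (Cl G Z T y) J) ∧
      ∀ x ∈ I, ∀ y ∈ I, rs G (Cl G Z T x) J ≠ ∅ → rs G (Cl G Z T y) J ≠ ∅ → x ≠ y →
        ¬ G.Adj (f x) (f y)) :
    J.card ≤ (I.filter (fun y => rs G (Cl G Z T y) J = ∅)).card := by
  obtain ⟨f, hf, hfi⟩ := hf
  have h1 := h.block_tr hI hJ hJi (F := I.filter (fun y => ¬ rs G (Cl G Z T y) J = ∅))
    (filter_subset _ _) (f := f) ?_ ?_
  · have h2 := card_filter_add_card_filter_not (s := I) (fun y => rs G (Cl G Z T y) J = ∅)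
    omega
  · intro y hy
    obtain ⟨h2, h3⟩ := mem_filter.1 hy
    exact hf y h2 h3
  · intro x hx y hy hxy
    obtain ⟨h2, h3⟩ := mem_filter.1 hx
    obtain ⟨h4, h5⟩ := mem_filter.1 hy
    exact hfi x h2 y h4 h3 h5 hxy

/-- **(Star), no edges between the rests** -/
theorem star_free (h : PFrame G r m t Z T) (hI : I ⊆ T) (hJ : J ⊆ ZI G Z T I) (hJi : Ind G J)
    (hno : ∀ x ∈ I, ∀ y ∈ I, x ≠ y → ∀ a ∈ rs G (Cl G Z T x) J, ∀ b ∈ rs G (Cl G Z T y) J,
      ¬ G.Adj a b) :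
    J.card ≤ (I.filter (fun y => rs G (Cl G Z T y) J = ∅)).card := by
  refine h.star hI hJ hJi ?_
  refine ⟨fun y => if hy : (rs G (Cl G Z T y) J).Nonempty then hy.choose else y, ?_, ?_⟩
  · intro y _ hne
    have hn := nonempty_iff_ne_empty.2 hne
    simp only [dif_pos hn]
    exact hn.choose_spec
  · intro x hx y hy hxn hyn hxy
    have hx' := nonempty_iff_ne_empty.2 hxn
    have hy' := nonempty_iff_ne_empty.2 hyn
    simp only [dif_pos hx', dif_pos hy']
    exact hno x hx y hy hxy _ hx'.choose_spec _ hy'.choose_spec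

/-- **(Star), first moment**: density sum of the nonempty rests less than `2` (ordered pairs) -/
theorem star_fm (h : PFrame G r m t Z T) (hI : I ⊆ T) (hJ : J ⊆ ZI G Z T I) (hJi : Ind G J)
    (hden : ∑ x ∈ I.filter (fun y => rs G (Cl G Z T y) J ≠ ∅),
      ∑ y ∈ (I.filter (fun y => rs G (Cl G Z T y) J ≠ ∅)).erase x,
        den G (rs G (Cl G Z T x) J) (rs G (Cl G Z T y) J) < 2) (v0 : V) :
    J.card ≤ (I.filter (fun y => rs G (Cl G Z T y) J = ∅)).card := by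
  obtain ⟨f, hf, hfi⟩ := fm G (I.filter (fun y => rs G (Cl G Z T y) J ≠ ∅))
    (fun y => rs G (Cl G Z T y) J)
    (fun y hy => nonempty_iff_ne_empty.2 (mem_filter.1 hy).2) hden v0
  refine h.star hI hJ hJi ⟨f, fun y hy hne => hf y (mem_filter.2 ⟨hy, hne⟩), ?_⟩
  intro x hx y hy hxn hyn hxy
  exact hfi x (mem_filter.2 ⟨hx, hxn⟩) y (mem_filter.2 ⟨hy, hyn⟩) hxy

/-- the number of edges between the rests of two rows is at most `R + (a_x - 1)(a_y - 1)` -/
lemma rest_cross_le (h : PFrame G r m t Z T) (hP : PG G r) {x y : V} (hx : x ∈ T) (hy : y ∈ T)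
    (hxy : x ≠ y) : ∑ v ∈ rs G (Cl G Z T x) J, (dg G (rs G (Cl G Z T y) J) v : ℚ)
      ≤ ((r : ℚ) - 1) + ((r : ℚ) - (Cl G Z T x).card - 1) * ((r : ℚ) - (Cl G Z T y).card - 1) := by
  have h1 := h.cross_le hP hy hx hxy.symm
  have h2 : ∑ v ∈ rs G (Cl G Z T x) J, (dg G (rs G (Cl G Z T y) J) v : ℚ) ≤
      ∑ v ∈ Cl G Z T x, (dg G (Cl G Z T y) v : ℚ) := by
    refine (sum_le_sum fun v _ => ?_).trans
      (sum_le_sum_of_subset_of_nonneg (rs_sub _ _) fun v _ _ => by positivity)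
    exact_mod_cast dg_mono G (rs_sub _ _) v
  refine h2.trans ?_
  have h3 : ((∑ v ∈ Cl G Z T x, (dg G (Cl G Z T y) v : ℤ) : ℤ) : ℚ) ≤
      ((((r : ℤ) - 1) + ((r : ℤ) - (Cl G Z T y).card - 1) * ((r : ℤ) - (Cl G Z T x).card - 1) : ℤ) : ℚ) :=
    Int.cast_le.2 h1
  push_cast at h3
  linarith

/-- **(Star), caps**: `α y ≤ |rest of y|` for the uncovered rows and
`Σ (R + (a_x - 1)(a_y - 1)) / (α_x α_y) < 2` (ordered pairs of uncovered rows) -/
theorem star_cap (h : PFrame G r m t Z T) (hP : PG G r) (hI : I ⊆ T) (hJ : J ⊆ ZI G Z T I)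
    (hJi : Ind G J) {α : V → ℚ} (hα : ∀ y ∈ I, rs G (Cl G Z T y) J ≠ ∅ → 0 < α y)
    (hαA : ∀ y ∈ I, rs G (Cl G Z T y) J ≠ ∅ → α y ≤ (rs G (Cl G Z T y) J).card)
    (hden : ∑ x ∈ I.filter (fun y => rs G (Cl G Z T y) J ≠ ∅),
      ∑ y ∈ (I.filter (fun y => rs G (Cl G Z T y) J ≠ ∅)).erase x,
        (((r : ℚ) - 1) + ((r : ℚ) - (Cl G Z T x).card - 1) * ((r : ℚ) - (Cl G Z T y).card - 1)) /
          (α x * α y) < 2) (v0 : V) :
    J.card ≤ (I.filter (fun y => rs G (Cl G Z T y) J = ∅)).card := by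
  obtain ⟨f, hf, hfi⟩ := fm_cap G (I.filter (fun y => rs G (Cl G Z T y) J ≠ ∅))
    (fun y => rs G (Cl G Z T y) J) α
    (fun y hy => hα y (mem_filter.1 hy).1 (mem_filter.1 hy).2)
    (fun y hy => hαA y (mem_filter.1 hy).1 (mem_filter.1 hy).2)
    (fun x y => ((r : ℚ) - 1) + ((r : ℚ) - (Cl G Z T x).card - 1) *
      ((r : ℚ) - (Cl G Z T y).card - 1))
    (fun x hx y hy hxy => h.rest_cross_le hP (hI (mem_filter.1 hx).1) (hI (mem_filter.1 hy).1) hxy)
    hden v0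
  refine h.star hI hJ hJi ⟨f, fun y hy hne => hf y (mem_filter.2 ⟨hy, hne⟩), ?_⟩
  intro x hx y hy hxn hyn hxy
  exact hfi x (mem_filter.2 ⟨hx, hxn⟩) y (mem_filter.2 ⟨hy, hyn⟩) hxy

/-- **(T) of 15029**: a missing triangle with common host `x`; the far rows hit by it are at least two -/
theorem triple_far (h : PFrame G r m t Z T) (hI : I ⊆ T) {a b c : V} (ha : a ∈ ZI G Z T I)
    (hb : b ∈ ZI G Z T I) (hc : c ∈ ZI G Z T I) (hab : a ≠ b) (hac : a ≠ c) (hbc : b ≠ c)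
    (nab : ¬ G.Adj a b) (nac : ¬ G.Adj a c) (nbc : ¬ G.Adj b c) {f : V → V}
    (hf : ∀ y ∈ I, f y ∈ Cl G Z T y)
    (hfi : ∀ x ∈ I, ∀ y ∈ I, x ≠ y → ¬ G.Adj (f x) (f y)) {x : V} :
    2 ≤ ((I.erase x).filter (fun y => (f y = a ∨ f y = b ∨ f y = c) ∨
      (G.Adj a (f y) ∨ G.Adj b (f y) ∨ G.Adj c (f y)))).card := by
  have h1 := h.hall_tr hI (J := {a, b, c}) (by
    intro s hs
    simp only [mem_insert, mem_singleton] at hs
    rcases hs with rfl | rfl | rfl
    · exact ha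
    · exact hb
    · exact hc) (by
    intro s hs u hu hsu
    simp only [mem_insert, mem_singleton] at hs hu
    rcases hs with rfl | rfl | rfl <;> rcases hu with rfl | rfl | rfl
    · exact G.loopless.irrefl _ hsu
    · exact nab hsu
    · exact nac hsu
    · exact nab hsu.symm
    · exact G.loopless.irrefl _ hsu
    · exact nbc hsu
    · exact nac hsu.symm
    · exact nbc hsu.symm
    · exact G.loopless.irrefl _ hsu) hf hfi
  rw [card_insert_of_notMem (by simp [hab, hac]), card_pair hbc] at h1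
  have h2 : (I.filter (fun y => f y ∈ ({a, b, c} : Finset V) ∨ ∃ z ∈ ({a, b, c} : Finset V),
      G.Adj z (f y))).erase x ⊆ (I.erase x).filter (fun y => (f y = a ∨ f y = b ∨ f y = c) ∨
      (G.Adj a (f y) ∨ G.Adj b (f y) ∨ G.Adj c (f y))) := by
    intro y hy
    obtain ⟨h3, h4⟩ := mem_erase.1 hy
    obtain ⟨h5, h6⟩ := mem_filter.1 h4
    refine mem_filter.2 ⟨mem_erase.2 ⟨h3, h5⟩, ?_⟩
    simpa using h6
  have h3 := card_le_card h2
  have h4 := pred_card_le_card_erase (s := I.filter (fun y => f y ∈ ({a, b, c} : Finset V) ∨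
    ∃ z ∈ ({a, b, c} : Finset V), G.Adj z (f y))) (a := x)
  omega

end PFrame

namespace S2

variable {r m t : ℕ} {Z T I J : Finset V}

/-- clique bound: for `|I| ≤ |J| + 1` the rests of the rows of `I` have together at most `r - 1` points -/
theorem sum_rest_le (h : S2 G r m t Z T) (hI : I ⊆ T) (hJ : J ⊆ ZI G Z T I) (hJi : Ind G J)
    (hc : I.card ≤ J.card + 1) {F : Finset V} (hF : F ⊆ I) :
    ∑ y ∈ F, (rs G (Cl G Z T y) J).card ≤ r - 1 := by
  refine (h.toPFrame.sum_rows_le hI hF).trans (h.omega _ ?_ (h.toPFrame.rest_clq hI hJ hJi hc))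
  exact fun _ hs => (mem_ZI.1 (rs_sub _ _ hs)).1

/-- the same with the rest of all of `ZI I` -/
theorem rest_card_le (h : S2 G r m t Z T) (hI : I ⊆ T) (hJ : J ⊆ ZI G Z T I) (hJi : Ind G J)
    (hc : I.card ≤ J.card + 1) : (rs G (ZI G Z T I) J).card ≤ r - 1 :=
  h.omega _ (fun _ hs => (mem_ZI.1 (rs_sub _ _ hs)).1) (h.toPFrame.rest_clq hI hJ hJi hc)

end S2

end Pool.Agent.Lib.MP_f04ccf_co
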