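import Pool.Agent.Lib.MP_f04ccf_co.M.PConC
import Pool.Agent.Lib.MP_f04ccf_co.M.CellD

/-!
MP_f04ccf_co, TEXT D: **the column test of one cell in numbers over `PConC`** (concentrated packings), with any kept
plain hosted items, any used plain items at levels, any used PC pairs, blocks out or kept.

* `PConC.colC`: the column test; `PConC.rowC`: the exact row test.
-/

set_option autoImplicit false

namespace Pool.Agent.Lib.MP_f04ccf_co

open Finset

attribute [local instance] Classical.propDecidable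

section ColC

variable {ι : Type*} {R : ℤ} {n : ℕ} {t s mu : ℕ → ℤ} {U : Finset ι} {ho : ι → ℕ} {vl : ι → ℤ}
  {kp mn : ℕ → ι → ℤ} {pc ar : ι → ℤ} {be kq NN sg : ℕ → ℕ → ℤ} {nu : ℕ → ι → ℤ} {z y : ℕ}

/-- **THE COLUMN TEST OF ONE CELL IN NUMBERS, concentrated packings**: any kept plain hosted items `P`, any plain used
items `K` of the host `y` at levels, any used PC pairs `Q` of the host `y` -/
theorem PConC.colC (H : PConC R n t s mu U ho vl kp mn pc ar be kq NN sg nu) (hz : z < n)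
    (hy : y < n) (hyz : y ≠ z) {P : Finset ι} (hP : P ⊆ U)
    (hPz : ∀ u ∈ P, ho u = z ∧ pc u = 0) {K : Finset ι} (hK : K ⊆ U)
    (hKy : ∀ u ∈ K, ho u = y ∧ pc u = 0) {lv : ι → ℕ} (hlv : ∀ u ∈ K, 1 ≤ lv u)
    (hlv' : ∀ u ∈ K, (lv u : ℤ) ≤ kp z u) {Q : Finset ι} (hQU : Q ⊆ U)
    (hQy : ∀ u ∈ Q, ho u = y ∧ pc u = 1 ∧ kp z u ≠ 0) {Y : Finset ℕ}
    (hY : Y ⊆ ((range n).erase z).erase y) {m k κ' n1 q f b M E W g : ℤ}
    (hm : m = ∑ u ∈ P, vl u) (hk : k = ∑ u ∈ K, (lv u : ℤ)) (hκ : κ' = (K.card : ℤ))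
    (hn : n1 = ((K.filter fun u => vl u = 1).card : ℤ)) (hq : q = (Q.card : ℤ))
    (hf : f = ((K.filter fun u => ¬ ∃ l < n, l ≠ z ∧ kp l u ≠ 0).card : ℤ))
    (hb : b = ∑ l ∈ ((range n).erase z).erase y \ Y, (be z l - kq z l))
    (hM : M = be z y + q) (hE : E = m + b + M + k) (hW : W = m + b + M + k + κ')
    (hg : g = ((U.filter fun u => ho u = z ∧ pc u = 0).card : ℤ) - (P.card : ℤ)) :
    2 * ((R - t y) * (M + k - 1) + ∑ u ∈ P, (kp y u * (R - t y) - mn y u))
      + (m + b) * (W + 1) + M * (m + b + k + κ') + (k - κ') * (W + 1) + 2 * (n1 * (n1 - 1))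
      + ∑ e ∈ P.offDiag, min (vl e.1) (vl e.2)
      ≤ 2 * ((t z + 1) * E + ∑ u ∈ K, msP kp mn z lv u)
        + 2 * ((t y - W) * (mu z - s z + g - E))
        + (∑ l ∈ ((range n).erase z).erase y \ Y, (be z l - kq z l) * (be z l - kq z l + 1)
          + 2 * ∑ l ∈ Y, (be z l - kq z l) * (sg z l
            + ((P.filter fun u => kp l u ≠ 0).card : ℤ)))
        + 2 * ((be y z - q) * f)
        + 2 * ∑ u ∈ K.filter (fun u => ∃ l < n, l ≠ z ∧ kp l u ≠ 0),
          ∑ l ∈ ((range n).erase y).filter (fun l => kp l u ≠ 0), be y l := by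
  set D : Finset ι := U.filter fun u => ho u = z ∧ pc u = 0 ∧ u ∉ P with hD
  set X : Finset ℕ := ((range n).erase z).erase y with hXd
  have hDz : ∀ u ∈ D, ho u = z ∧ pc u = 0 := fun u hu => by
    obtain ⟨-, h1, h2, -⟩ := mem_filter.1 hu
    exact ⟨h1, h2⟩
  obtain ⟨eP, eD⟩ := plain_split hP hPz
  rw [← hD] at eP eD
  set w : ι → ℕ := fun u => if pc u = 1 then 1 else lv u with hw
  have hwK : ∀ u ∈ K, w u = lv u := fun u hu => by
    rw [hw]
    simp only
    rw [if_neg]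
    rw [(hKy u hu).2]
    norm_num
  have hwQ : ∀ u ∈ Q, w u = 1 := fun u hu => by
    rw [hw]
    simp only
    rw [if_pos (hQy u hu).2.1]
  have hQK : Disjoint Q K := by
    rw [disjoint_left]
    intro u h1 h2
    have h3 := (hQy u h1).2.1
    rw [(hKy u h2).2] at h3
    exact absurd h3 (by norm_num)
  have hQ1 : ∀ u ∈ Q, u ∈ U ∧ ho u = y ∧ pc u = 1 ∧ vl u = 1 ∧ kp z u = 1 := by
    intro u hu
    obtain ⟨h3, h4, h5⟩ := hQy u hu
    have h6 := H.pcv u (hQU hu) (by rw [h4]; norm_num)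
    exact ⟨hQU hu, h3, h4, h6, H.kp_one (hQU hu) h6 hz h5⟩
  have hoy : ∀ u ∈ Q ∪ K, ho u = y := fun u hu => by
    rcases mem_union.1 hu with h1 | h1
    · exact (hQ1 u h1).2.1
    · exact (hKy u h1).1
  have hKU : Q ∪ K ⊆ U := union_subset hQU hK
  have hX : X ⊆ range n := (erase_subset _ _).trans (erase_subset _ _)
  -- the numbers
  have e1 : ∑ u ∈ Q ∪ K, pc u = q := by
    rw [sum_union hQK, sum_congr rfl fun u hu => (hQ1 u hu).2.2.1,
      sum_congr (s₁ := K) rfl fun u hu => (hKy u hu).2, sum_const, sum_const_zero, nsmul_eq_mul,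
      mul_one, add_zero, hq]
  have e1' : ∑ u ∈ Q ∪ K, (if ho u = y then pc u else 0) = q := by
    rw [← e1]
    exact sum_congr rfl fun u hu => if_pos (hoy u hu)
  have e9 : ((Q ∪ K).filter fun u => ho u = y → pc u = 0) = K := by
    ext u
    simp only [mem_filter, mem_union]
    constructor
    · rintro ⟨h1 | h1, h2⟩
      · obtain ⟨-, h3, h4, -⟩ := hQ1 u h1
        rw [h2 h3] at h4
        exact absurd h4 (by norm_num)
      · exact h1
    · intro h1
      exact ⟨Or.inr h1, fun _ => (hKy u h1).2⟩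
  have h0 := H.tPc z hz y hy hyz X hX (notMem_erase _ _) Y hY D (filter_subset _ _) hDz (Q ∪ K)
    hKU (fun u hu => by rw [hoy u hu]; exact hyz) w
    (fun u hu => by
      rcases mem_union.1 hu with h1 | h1
      · rw [hwQ u h1]
      · rw [hwK u h1]
        exact hlv u h1)
    (fun u hu => by
      rcases mem_union.1 hu with h1 | h1
      · rw [hwQ u h1, (hQ1 u h1).2.2.2.2]
        norm_num
      · rw [hwK u h1]
        exact hlv' u h1) (svP n ho vl K w + svP n ho vl (K.filter fun u => pc u = 0) w)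
    (by rw [e9]; exact Or.inl le_rfl)
  have e2 : ((Q ∪ K).card : ℤ) = q + κ' := by
    rw [card_union_of_disjoint hQK, hκ, hq]
    push_cast
    rfl
  have e3 : ∑ u ∈ Q ∪ K, msP kp mn z w u = ∑ u ∈ K, msP kp mn z lv u := by
    rw [sum_union hQK]
    have h1 : ∑ u ∈ Q, msP kp mn z w u = 0 := sum_eq_zero fun u hu => by
      obtain ⟨h2, h3, h4, h5, -⟩ := hQ1 u hu
      unfold msP
      rw [(H.pc_fact h2 (by rw [h4]; norm_num)).2.2.1 z hz, ite_self]
    have h2 : ∑ u ∈ K, msP kp mn z w u = ∑ u ∈ K, msP kp mn z lv u := by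
      refine sum_congr rfl fun u hu => ?_
      unfold msP
      rw [hwK u hu]
    rw [h1, h2, zero_add]
  have e4 : ∑ u ∈ Q ∪ K, (w u : ℤ) = q + k := by
    rw [sum_union hQK, sum_congr rfl fun u hu => by rw [hwQ u hu],
      sum_congr (s₁ := K) rfl fun u hu => by rw [hwK u hu], ← hk, hq]
    simp
  have e5 : ∑ u ∈ Q ∪ K, ((w u : ℤ) + 1 - if ho u = y then pc u else 0)
      = q + (k + κ') := by
    rw [sum_sub_distrib, e1', sum_add_distrib, e4, sum_const, nsmul_eq_mul, mul_one, e2]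
    ring
  -- the kept value
  have e6 : mu z - ∑ l ∈ X, kq z l - ∑ l ∈ Y, (be z l - kq z l) - ∑ u ∈ D, vl u
      = be z y + b + m := by
    have h1 : ∑ u ∈ D, vl u + ∑ u ∈ P, vl u
        = ∑ u ∈ U.filter (fun u => ho u = z ∧ pc u = 0), vl u := by
      rw [← sum_filter_add_sum_filter_not (U.filter fun u => ho u = z ∧ pc u = 0)
        (fun u => u ∉ P), filter_filter, filter_filter]
      congr 1
      · refine sum_congr ?_ fun _ _ => rfl
        rw [hD]
        refine filter_congr fun u _ => ?_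
        tauto
      · refine sum_congr ?_ fun _ _ => rfl
        ext u
        simp only [mem_filter, not_not]
        exact ⟨fun h => ⟨hP h, hPz u h, h⟩, fun h => h.2.2⟩
    have h2 := H.mu_plain hz
    have h5 := add_sum_erase ((range n).erase z) (fun l => be z l)
      (mem_erase.2 ⟨hyz, mem_range.2 hy⟩)
    beta_reduce at h5
    have h6 : ∑ l ∈ X, (be z l - kq z l) = b + ∑ l ∈ Y, (be z l - kq z l) := by
      rw [hb, sum_sdiff hY]
    rw [sum_sub_distrib] at h6
    linarith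
  have e7 : ∑ l ∈ X, kq z l + ∑ l ∈ Y, (be z l - kq z l) + ∑ u ∈ D, (vl u + 1)
      = mu z - (be z y + b + m) + g := by
    rw [sum_add_distrib (s := D), sum_const, nsmul_eq_mul, mul_one, eD, ← hg]
    linarith
  -- the hits
  have e8 : ∑ u ∈ U.filter (fun u => ho u = z ∧ u ∉ D), (kp y u * (R - t y) - mn y u)
      = be z y * (R - t y) + ∑ u ∈ P, (kp y u * (R - t y) - mn y u) := by
    rw [H.split_pc hDz, eP, ← H.pcb z hz y hy, sum_mul]
    congr 1
    refine sum_congr rfl fun u hu => ?_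
    by_cases h4 : pc u = 0
    · rw [h4]
      ring
    · rw [(H.pc_fact (mem_filter.1 hu).1 h4).2.2.1 y hy]
      ring
  -- the saving
  have e10 : n1 * (n1 - 1) ≤ svP n ho vl K w := by
    have h1 : n1 * (n1 - 1) ≤ ((K.filter fun u => ho u = y ∧ ((w u : ℕ) : ℤ) = vl u).card : ℤ)
        * (((K.filter fun u => ho u = y ∧ ((w u : ℕ) : ℤ) = vl u).card : ℤ) - 1) := by
      rw [hn]
      refine tri_mono (card_le_card fun u hu => ?_)
      obtain ⟨h2, h3⟩ := mem_filter.1 hu
      refine mem_filter.2 ⟨h2, (hKy u h2).1, ?_⟩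
      have h4 := hlv u h2
      have h5 := hlv' u h2
      have h6 := H.kv u (hK h2) z hz
      rw [hwK u h2]
      rw [h3] at h6 ⊢
      have h7 : (1 : ℤ) ≤ (lv u : ℤ) := by exact_mod_cast h4
      linarith
    unfold svP
    refine h1.trans (single_le_sum (f := fun x => ((K.filter fun u => ho u = x
      ∧ ((w u : ℕ) : ℤ) = vl u).card : ℤ)
      * (((K.filter fun u => ho u = x ∧ ((w u : ℕ) : ℤ) = vl u).card : ℤ) - 1))
      (fun x _ => tri_nonneg' _) (mem_range.2 hy))
  have e10' : (K.filter fun u => pc u = 0) = K :=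
    filter_true_of_mem fun u hu => (hKy u hu).2
  have e11 : (((Q ∪ K).filter fun u => ho u = y ∧ pc u = 0 ∧ ∀ l < n, l ≠ z → kp l u = 0).card : ℤ)
      = f := by
    rw [hf]
    congr 2
    ext u
    simp only [mem_filter, mem_union, not_exists, not_and, not_not]
    constructor
    · rintro ⟨h1 | h1, -, h2, h3⟩
      · have h4 := (hQ1 u h1).2.2.1
        rw [h2] at h4
        exact absurd h4 (by norm_num)
      · exact ⟨h1, fun l hl hlz => h3 l hl hlz⟩
    · rintro ⟨h1, h2⟩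
      exact ⟨Or.inr h1, (hKy u h1).1, (hKy u h1).2, fun l hl hlz => h2 l hl hlz⟩
  -- the excess
  have e12 : ((range n).erase z).erase y \ X = ∅ := by
    rw [hXd, Finset.sdiff_self]
  have e13 : ∀ l, (U.filter fun u => ho u = z ∧ u ∉ D ∧ pc u = 0 ∧ kp l u ≠ 0)
      = P.filter fun u => kp l u ≠ 0 := by
    intro l
    rw [← eP, filter_filter]
    refine filter_congr fun u _ => ?_
    tauto
  -- the arcs
  have e14 : ∑ u ∈ Q ∪ K, (if ho u = y then (1 - pc u) * ar u
      else ((w u : ℤ) + 1) * (R - t y)) = ∑ u ∈ K, ar u := by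
    rw [sum_union hQK]
    have h1 : ∑ u ∈ Q, (if ho u = y then (1 - pc u) * ar u
        else ((w u : ℤ) + 1) * (R - t y)) = 0 :=
      sum_eq_zero fun u hu => by
        obtain ⟨-, h2, h3, -⟩ := hQ1 u hu
        rw [if_pos h2, h3]
        ring
    have h2 : ∑ u ∈ K, (if ho u = y then (1 - pc u) * ar u
        else ((w u : ℤ) + 1) * (R - t y)) = ∑ u ∈ K, ar u :=
      sum_congr rfl fun u hu => by
        rw [if_pos (hKy u hu).1, (hKy u hu).2]
        ring
    rw [h1, h2, zero_add]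
  have e15 : ∑ u ∈ K, ar u ≤ be y z * f
      + ∑ u ∈ K.filter (fun u => ∃ l < n, l ≠ z ∧ kp l u ≠ 0),
        ∑ l ∈ ((range n).erase y).filter (fun l => kp l u ≠ 0), be y l := by
    rw [← sum_filter_add_sum_filter_not K (fun u => ∃ l < n, l ≠ z ∧ kp l u ≠ 0), add_comm]
    refine add_le_add ?_ (sum_le_sum fun u hu => ?_)
    · rw [hf, mul_comm, ← nsmul_eq_mul, ← sum_const]
      refine sum_le_sum fun u hu => ?_
      obtain ⟨h1, h2⟩ := mem_filter.1 hu
      have h3 := H.ar_in (hK h1) (hKy u h1).2 (L := {z}) (by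
        intro l hl
        rw [mem_singleton.1 hl]
        exact mem_range.2 hz) (fun l hl h4 => by
          by_contra h5
          exact h2 ⟨l, hl, fun h6 => h5 (mem_singleton.2 h6), h4⟩)
      rw [sum_singleton, (hKy u h1).1] at h3
      exact h3
    · have h1 := (mem_filter.1 hu).1
      have h3 := H.ar_le (hK h1) (hKy u h1).2
      rw [(hKy u h1).1] at h3
      exact h3
  have e16 : ∑ l ∈ Y, (be z l - kq z l) * (sg z l
        + ((U.filter fun u => ho u = z ∧ u ∉ D ∧ pc u = 0 ∧ kp l u ≠ 0).card : ℤ))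
      = ∑ l ∈ Y, (be z l - kq z l) * (sg z l + ((P.filter fun u => kp l u ≠ 0).card : ℤ)) :=
    sum_congr rfl fun l _ => by rw [e13 l]
  have e17 : kpPl U ho pc z D = P := eP
  unfold NP2 minP at h0
  rw [e3, e4, e5, e6, e7, e8, e1', e10', e11, e12, e14, e16, e17, sum_empty] at h0
  unfold TstP at h0
  rw [hE, hW]
  subst hM
  linarith [h0, e10, e15]

/-- **THE EXACT ROW TEST IN NUMBERS, concentrated packings**: the Konig pairs of the tails in `X` and the block pairs
of the tails in `Y` out, the plain hosted items of `P` kept, any used items -/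
theorem PConC.rowC (H : PConC R n t s mu U ho vl kp mn pc ar be kq NN sg nu) (hz : z < n)
    {P : Finset ι} (hP : P ⊆ U) (hPz : ∀ u ∈ P, ho u = z ∧ pc u = 0) {X Y : Finset ℕ}
    (hX : X ⊆ (range n).erase z) (hY : Y ⊆ X) {K : Finset ι} (hK : K ⊆ U)
    (hKz : ∀ u ∈ K, ho u ≠ z) {lv : ι → ℕ} (hlv : ∀ u ∈ K, 1 ≤ lv u)
    (hlv' : ∀ u ∈ K, (lv u : ℤ) ≤ kp z u) {sv : ℤ}
    (hs : sv ≤ svP n ho vl K lv + svP n ho vl (K.filter fun u => pc u = 0) lv)
    {m k κ' E W g : ℤ}
    (hm : m = mu z - ∑ l ∈ X, kq z l - ∑ l ∈ Y, (be z l - kq z l)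
      - (∑ u ∈ U.filter (fun u => ho u = z ∧ pc u = 0), vl u - ∑ u ∈ P, vl u))
    (hk : k = ∑ u ∈ K, (lv u : ℤ)) (hκ : κ' = (K.card : ℤ))
    (hE : E = m + k) (hW : W = m + k + κ')
    (hg : g = ((U.filter fun u => ho u = z ∧ pc u = 0).card : ℤ) - (P.card : ℤ)) :
    2 * ((R - W) * (E - (mu z - s z + g))) + (E - κ') * (W + 1) + sv
        + ∑ e ∈ P.offDiag, min (vl e.1) (vl e.2)
      ≤ 2 * ((t z + 1) * E + ∑ u ∈ K, msP kp mn z lv u)
        + (∑ l ∈ X \ Y, (be z l - kq z l) * (be z l - kq z l + 1)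
          + ∑ l ∈ (range n).erase z \ X, NN z l
          + 2 * ∑ l ∈ Y, (be z l - kq z l) * (sg z l
            + ((P.filter fun u => kp l u ≠ 0).card : ℤ))) := by
  set D : Finset ι := U.filter fun u => ho u = z ∧ pc u = 0 ∧ u ∉ P with hD
  have hDz : ∀ u ∈ D, ho u = z ∧ pc u = 0 := fun u hu => by
    obtain ⟨-, h1, h2, -⟩ := mem_filter.1 hu
    exact ⟨h1, h2⟩
  obtain ⟨eP, eD⟩ := plain_split hP hPz
  rw [← hD] at eP eD
  have h0 := H.tTc z hz X (hX.trans (erase_subset _ _)) Y hY D (filter_subset _ _) hDz K hK hKz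
    lv hlv hlv' _ (Or.inl hs)
  have h1 : ∑ u ∈ D, vl u + ∑ u ∈ P, vl u
      = ∑ u ∈ U.filter (fun u => ho u = z ∧ pc u = 0), vl u := by
    rw [← sum_filter_add_sum_filter_not (U.filter fun u => ho u = z ∧ pc u = 0)
      (fun u => u ∉ P), filter_filter, filter_filter]
    congr 1
    · refine sum_congr ?_ fun _ _ => rfl
      rw [hD]
      refine filter_congr fun u _ => ?_
      tauto
    · refine sum_congr ?_ fun _ _ => rfl
      ext u
      simp only [mem_filter, not_not]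
      exact ⟨fun h => ⟨hP h, hPz u h, h⟩, fun h => h.2.2⟩
  have e6 : mu z - ∑ l ∈ X, kq z l - ∑ l ∈ Y, (be z l - kq z l) - ∑ u ∈ D, vl u = m := by
    rw [hm, ← h1]
    ring
  have e7 : ∑ l ∈ X, kq z l + ∑ l ∈ Y, (be z l - kq z l) + ∑ u ∈ D, (vl u + 1)
      = mu z - m + g := by
    rw [sum_add_distrib (s := D), sum_const, nsmul_eq_mul, mul_one, eD, ← hg, ← e6]
    ring
  have e5 : ∑ u ∈ K, ((lv u : ℤ) + 1) = k + κ' := by
    rw [sum_add_distrib, sum_const, nsmul_eq_mul, mul_one, ← hk, hκ]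
  have e13 : ∀ l, (U.filter fun u => ho u = z ∧ u ∉ D ∧ pc u = 0 ∧ kp l u ≠ 0)
      = P.filter fun u => kp l u ≠ 0 := by
    intro l
    rw [← eP, filter_filter]
    refine filter_congr fun u _ => ?_
    tauto
  have e16 : ∑ l ∈ Y, (be z l - kq z l) * (sg z l
        + ((U.filter fun u => ho u = z ∧ u ∉ D ∧ pc u = 0 ∧ kp l u ≠ 0).card : ℤ))
      = ∑ l ∈ Y, (be z l - kq z l) * (sg z l + ((P.filter fun u => kp l u ≠ 0).card : ℤ)) :=
    sum_congr rfl fun l _ => by rw [e13 l]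
  have e17 : kpPl U ho pc z D = P := eP
  unfold NP2 minP at h0
  rw [e5, ← hk, e6, e7, e16, e17] at h0
  unfold TstP at h0
  rw [hE, hW]
  linarith

end ColC

end Pool.Agent.Lib.MP_f04ccf_co
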