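import Pool.Agent.Lib.MP_f04ccf_co.M.NumXC
import Pool.Agent.Lib.MP_f04ccf_co.M.HubD

/-!
MP_f04ccf_co, TEXT D, regime H: **the rectangle and K2 in closed numbers** (any row `z`, in the text the hub).

Letters: `β = be z y` (all PC pairs of the own cell), `b` the block pairs of the other tails, `h` the number of
the plain hosted items, `d = mu z - s z`, `C = R - A z`, `v` an upper bound for `∑ nu y u` over the hosted items.

* `PConC.rect_keep`: the rectangle of any item `w`, all plain items and all Konig pairs of the other tails out, the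
  block pairs of the other tails kept:
  `(mn z w - β)⁺ mn y w ≤ R - t y + (t y - β - b)(d + h) + b (A z - t y + b + β) - β (C - β) + v`;
* `PConC.rect_drop`: the block pairs out as well:
  `(mn z w - β)⁺ mn y w ≤ R - t y + (t y - β)(d + h) - β (C - β) + v + ∑ p_l sg_l`;
* `PConC.capN`: `∑ (R + t j - mn j u - ar u) ≤ R + t i t j + N²` for `N` plain items of value one of the host `i`
  with one end at `j`; `PConC.capMN`: the same with the PC pairs of the cell.
-/

set_option autoImplicit false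

namespace Pool.Agent.Lib.MP_f04ccf_co

open Finset

attribute [local instance] Classical.propDecidable

section HubXS

variable {ι : Type*} {R : ℤ} {n : ℕ} {t s mu : ℕ → ℤ} {U : Finset ι} {ho : ι → ℕ} {vl : ι → ℤ}
  {kp mn : ℕ → ι → ℤ} {pc ar : ι → ℤ} {be kq NN sg : ℕ → ℕ → ℤ} {nu : ℕ → ι → ℤ}

/-- **the rectangle, block pairs kept** -/
theorem PConC.rect_keep (H : PConC R n t s mu U ho vl kp mn pc ar be kq NN sg nu) {z y : ℕ}
    (hz : z < n) (hy : y < n) (hyz : y ≠ z) {w : ι} (hw : w ∈ U) {β b h d C v : ℤ}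
    (hβ : β = be z y) (hb : b = ∑ l ∈ ((range n).erase z).erase y, (be z l - kq z l))
    (hh : h = ((U.filter fun u => ho u = z ∧ pc u = 0).card : ℤ)) (hd : d = mu z - s z)
    (hC : C = R - (t z + 1)) (hv : ∑ u ∈ U.filter (fun u => ho u = z), nu y u ≤ v) :
    max 0 (mn z w - β) * mn y w
      ≤ R - t y + (t y - β - b) * (d + h) + b * (t z + 1 - t y + b + β) - β * (C - β) + v := by
  have h0 := H.numX02 hz hy hyz (P := ∅) (empty_subset _)
    (fun u hu => absurd hu (notMem_empty u)) (Y := ∅) (empty_subset _) (m := 0) (b := b)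
    (W := b + β) (g := h) (EX := max 0 (mn z w - be z y) * max 0 (mn y w - 0)) (by simp)
    (by rw [sdiff_empty]; exact hb) (by rw [← hβ]; ring) (by rw [hh]; simp)
    (Or.inr ⟨w, hw, le_rfl⟩)
  have h1 := H.nnb z hz y hy
  have h2 := PCon.sum_sq_le' (S := ((range n).erase z).erase y) (p := fun l => be z l - kq z l)
    fun l hl => by
      have h3 := H.kqb z hz l (mem_range.1 (mem_of_mem_erase (mem_of_mem_erase hl)))
      linarith
  beta_reduce at h2
  rw [← hb] at h2
  rw [sub_zero, max_eq_right (H.m0 w hw y hy), ← hβ, ← hd] at h0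
  rw [← hβ] at h1
  simp only [sum_empty, sdiff_empty, offDiag_empty] at h0
  rw [hC]
  nlinarith [h0, h1, h2, hv]

/-- **the rectangle, block pairs out** -/
theorem PConC.rect_drop (H : PConC R n t s mu U ho vl kp mn pc ar be kq NN sg nu) {z y : ℕ}
    (hz : z < n) (hy : y < n) (hyz : y ≠ z) {w : ι} (hw : w ∈ U) {β h d C v : ℤ}
    (hβ : β = be z y)
    (hh : h = ((U.filter fun u => ho u = z ∧ pc u = 0).card : ℤ)) (hd : d = mu z - s z)
    (hC : C = R - (t z + 1)) (hv : ∑ u ∈ U.filter (fun u => ho u = z), nu y u ≤ v) :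
    max 0 (mn z w - β) * mn y w
      ≤ R - t y + (t y - β) * (d + h) - β * (C - β) + v
        + ∑ l ∈ ((range n).erase z).erase y, (be z l - kq z l) * sg z l := by
  have h0 := H.numX02 hz hy hyz (P := ∅) (empty_subset _)
    (fun u hu => absurd hu (notMem_empty u)) (Y := ((range n).erase z).erase y)
    (Subset.refl _) (m := 0) (b := 0) (W := β) (g := h)
    (EX := max 0 (mn z w - be z y) * max 0 (mn y w - 0)) (by simp) (by simp)
    (by rw [← hβ]; ring) (by rw [hh]; simp) (Or.inr ⟨w, hw, le_rfl⟩)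
  have h1 := H.nnb z hz y hy
  rw [sub_zero, max_eq_right (H.m0 w hw y hy), ← hβ, ← hd] at h0
  rw [← hβ] at h1
  simp only [sum_empty, filter_empty, card_empty, Finset.sdiff_self, offDiag_empty] at h0
  have h2 : ∑ l ∈ ((range n).erase z).erase y, (be z l - kq z l) * (sg z l + ((0 : ℕ) : ℤ))
      = ∑ l ∈ ((range n).erase z).erase y, (be z l - kq z l) * sg z l :=
    sum_congr rfl fun l _ => by push_cast; ring
  rw [h2] at h0
  rw [hC]
  nlinarith [h0, h1, hv]

/-- **K2 of a cell in numbers**: plain items of value one of the host `i` with one end at `j` -/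
theorem PConC.capN (H : PConC R n t s mu U ho vl kp mn pc ar be kq NN sg nu) {i j : ℕ}
    (hi : i < n) (hj : j < n) (hij : i ≠ j) {K : Finset ι} (hK : K ⊆ U)
    (hKi : ∀ u ∈ K, ho u = i ∧ pc u = 0 ∧ vl u = 1 ∧ kp j u ≠ 0) {N : ℤ} (hN : N = (K.card : ℤ)) :
    ∑ u ∈ K, (R + t j - mn j u - ar u) ≤ R + t i * t j + N ^ 2 := by
  have h1 : ∀ u ∈ K, kp j u = 1 := fun u hu =>
    H.kp_one (hK hu) (hKi u hu).2.2.1 hj (hKi u hu).2.2.2
  have h0 := H.capC i hi j hj hij K hK (fun u hu => (hKi u hu).1) ∅ (empty_subset _)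
    (fun u hu => absurd hu (notMem_empty u)) (fun _ => 1) (fun _ => 1) (fun _ _ => le_rfl)
    (fun u hu => by rw [h1 u hu]; norm_num) (fun _ _ => le_rfl)
    (fun u hu => absurd hu (notMem_empty u)) 0 (Or.inl le_rfl)
    (2 * (N * (N - 1))) (Or.inr (Or.inr (by
      have h2 : K.filter (fun u => ((fun _ : ι => (1 : ℕ)) u : ℤ) = vl u ∧ pc u = 0) = K :=
        filter_true_of_mem fun u hu => ⟨by rw [(hKi u hu).2.2.1]; norm_num, (hKi u hu).2.1⟩
      rw [h2, ← hN]
      simp)))
  have e1 : ∑ u ∈ K, (R * ((fun _ : ι => (1 : ℕ)) u : ℤ) + (1 - pc u) * t j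
      - msP kp mn j (fun _ => 1) u - ar u) = ∑ u ∈ K, (R + t j - mn j u - ar u) := by
    refine sum_congr rfl fun u hu => ?_
    have h3 : msP kp mn j (fun _ => 1) u = mn j u := by
      unfold msP
      rw [if_pos (by rw [h1 u hu]; norm_num)]
    rw [h3, (hKi u hu).2.1]
    push_cast
    ring
  have e2 : ∑ u ∈ K, (((fun _ : ι => (1 : ℕ)) u : ℤ) + 1 - pc u) = 2 * N := by
    rw [hN, mul_comm, ← nsmul_eq_mul, ← sum_const]
    exact sum_congr rfl fun u hu => by rw [(hKi u hu).2.1]; norm_num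
  have e3 : ∑ u ∈ K, pc u = 0 := sum_eq_zero fun u hu => (hKi u hu).2.1
  rw [e1, e2, e3] at h0
  simp only [sum_empty] at h0
  nlinarith [h0]

/-- **K2 of a cell with its PC pairs in numbers** -/
theorem PConC.capMN (H : PConC R n t s mu U ho vl kp mn pc ar be kq NN sg nu) {i j : ℕ}
    (hi : i < n) (hj : j < n) (hij : i ≠ j) {K : Finset ι} (hK : K ⊆ U)
    (hKi : ∀ u ∈ K, ho u = i ∧ pc u = 0 ∧ vl u = 1 ∧ kp j u ≠ 0) {N β : ℤ}
    (hN : N = (K.card : ℤ)) (hβ : β = be i j + be j i) :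
    (β - 1) * R + ∑ u ∈ K, (R + t j - mn j u
        - ∑ l ∈ ((range n).erase i).erase j, kp l u * be i l)
      ≤ t i * t j + (β + N) ^ 2 := by
  have h1 : ∀ u ∈ K, kp j u = 1 := fun u hu =>
    H.kp_one (hK hu) (hKi u hu).2.2.1 hj (hKi u hu).2.2.2
  have h0 := H.capMC i hi j hj hij K hK (fun u hu => ⟨(hKi u hu).1, (hKi u hu).2.1⟩) ∅
    (empty_subset _)
    (fun u hu => absurd hu (notMem_empty u)) (fun _ => 1) (fun _ => 1) (fun _ _ => le_rfl)
    (fun u hu => by rw [h1 u hu]; norm_num) (fun _ _ => le_rfl)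
    (fun u hu => absurd hu (notMem_empty u))
    (2 * (N * (N - 1))) (Or.inr (Or.inr (by
      have h2 : K.filter (fun u => ((fun _ : ι => (1 : ℕ)) u : ℤ) = vl u ∧ pc u = 0) = K :=
        filter_true_of_mem fun u hu => ⟨by rw [(hKi u hu).2.2.1]; norm_num, (hKi u hu).2.1⟩
      rw [h2, ← hN]
      simp)))
  have e1 : ∑ u ∈ K, (R * ((fun _ : ι => (1 : ℕ)) u : ℤ) + t j - msP kp mn j (fun _ => 1) u
      - ∑ l ∈ ((range n).erase i).erase j, kp l u * be i l)
      = ∑ u ∈ K, (R + t j - mn j u - ∑ l ∈ ((range n).erase i).erase j, kp l u * be i l) := by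
    refine sum_congr rfl fun u hu => ?_
    have h3 : msP kp mn j (fun _ => 1) u = mn j u := by
      unfold msP
      rw [if_pos (by rw [h1 u hu]; norm_num)]
    rw [h3]
    push_cast
    ring
  have e2 : ∑ u ∈ K, (((fun _ : ι => (1 : ℕ)) u : ℤ) + 1) = 2 * N := by
    rw [hN, mul_comm, ← nsmul_eq_mul, ← sum_const]
    exact sum_congr rfl fun u hu => by norm_num
  rw [e1, e2, ← hβ] at h0
  simp only [sum_empty] at h0
  nlinarith [h0]

end HubXS

end Pool.Agent.Lib.MP_f04ccf_co
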