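import Pool.Agent.Lib.MP_f04ccf_co.M.TabF
import Pool.Agent.Lib.MP_f04ccf_co.M.ColC
import Pool.Agent.Lib.MP_f04ccf_co.M.HubX

/-!
MP_f04ccf_co, TEXT D, middle range: **the filters of TABLE F as number lemmas over `PConC`** (note 18832).

* `PCon.two_be`: `2 be i j < R`; `PCon.two_t`: two rows and three others;
* `PCon.ends_le`: an item has at most `vl u + 1` ends; `ends_sum`: the number of ends of kept items;
* `PConC.hostT`: **the host count**, `k` plain items of value one hosted at `y`, `B = t y + 1`, `2 k ≤ R`: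
  `(R - k) (2 k - B) + k ^ 2 ≤ B k + ∑ u ∈ K, ∑ l (block pairs of the tails l which are ends of u)`;
* `PConC.grpCap`: **the joint cap** of the items of the host `y` with the ends `z` and `w`, `β = be y w + be w y`:
  `(β - 1) R + ∑ (R + t w - mn w u - be y z) ≤ t y t w + (β + k) ^ 2`;
* `PConC.rectJ`: **the rectangle** of any item `u` at `z` and `w`, `j` plain items of value one kept, the block pairs
  of the other tails out; `PConC.rectB`: the block pairs kept.
-/

set_option autoImplicit false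

namespace Pool.Agent.Lib.MP_f04ccf_co

open Finset

attribute [local instance] Classical.propDecidable

section BndF

variable {ι : Type*} {R : ℤ} {n : ℕ} {t s mu : ℕ → ℤ} {U : Finset ι} {ho : ι → ℕ} {vl : ι → ℤ}
  {kp mn : ℕ → ι → ℤ} {pc ar : ι → ℤ} {be kq NN sg : ℕ → ℕ → ℤ} {nu : ℕ → ι → ℤ}
  {z y w : ℕ}

/-- two different rows and at least three others -/
lemma PCon.two_t (H : PCon R n t s mu U ho vl kp mn pc ar be kq NN sg nu) {i j : ℕ} (hi : i < n)
    (hj : j < n) (hij : i ≠ j) : t i + t j + 5 ≤ R := by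
  have hn := H.n5
  obtain ⟨k, hk, hki, hkj⟩ : ∃ k < n, k ≠ i ∧ k ≠ j := by
    by_contra hcon
    push Not at hcon
    have h1 : range n ⊆ {i, j} := by
      intro x hx
      rw [mem_insert, mem_singleton]
      by_contra h2
      push Not at h2
      exact h2.2 (hcon x (mem_range.1 hx) h2.1)
    have h2 := card_le_card h1
    rw [card_range, card_pair hij] at h2
    omega
  have h1 := H.three_t hi hj hk hij hki.symm hkj.symm
  have h2 := H.t0 k hk
  linarith

/-- **no cell has `R / 2` PC pairs of one host** -/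
lemma PCon.two_be (H : PCon R n t s mu U ho vl kp mn pc ar be kq NN sg nu) {i j : ℕ} (hi : i < n)
    (hj : j < n) (hij : i ≠ j) : 2 * be i j < R := by
  have h5 := H.five_le
  have h1 := H.two_t hi hj hij
  have h2 := H.t0 i hi
  have h3 := H.t0 j hj
  have h4 := H.be0 i hi j hj
  have h4' := H.be0 j hj i hi
  by_contra hcon
  push Not at hcon
  obtain ⟨m, hm⟩ : ∃ m : ℕ, (m : ℤ) = (R + 1) / 2 := ⟨((R + 1) / 2).toNat, by omega⟩
  have h6 := H.jsub i hi j hj hij m (by omega)
  have h7 : R ≤ 2 * (m : ℤ) := by omega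
  have h8 : 2 * (m : ℤ) ≤ R + 1 := by omega
  have h9 : 4 * (t i * t j) ≤ (R - 5) ^ 2 := by
    nlinarith [sq_nonneg (t i - t j), mul_nonneg h2 h3]
  have h10 : 4 * (m : ℤ) ^ 2 ≤ 2 * (m : ℤ) * (R + 1) := by nlinarith
  nlinarith

/-- an item has at most `vl u + 1` ends -/
lemma PCon.ends_le (H : PCon R n t s mu U ho vl kp mn pc ar be kq NN sg nu) {u : ι} (hu : u ∈ U)
    {S : Finset ℕ} (hS : S ⊆ range n) : ((S.filter fun l => kp l u ≠ 0).card : ℤ) ≤ vl u + 1 := by
  have h1 : ((S.filter fun l => kp l u ≠ 0).card : ℤ) ≤ ∑ i ∈ range n, kp i u := by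
    have h2 : (S.filter fun l => kp l u ≠ 0).card • (1 : ℤ)
        ≤ ∑ i ∈ S.filter (fun l => kp l u ≠ 0), kp i u := by
      refine card_nsmul_le_sum _ _ _ fun i hi => ?_
      obtain ⟨h3, h4⟩ := mem_filter.1 hi
      have h5 := H.k0 u hu i (mem_range.1 (hS h3))
      omega
    rw [nsmul_eq_mul, mul_one] at h2
    exact h2.trans (sum_le_sum_of_subset_of_nonneg ((filter_subset _ _).trans hS) fun i hi _ =>
      H.k0 u hu i (mem_range.1 hi))
  rcases H.one u hu with ⟨i, hi, h2, h3, -, h5⟩ | ⟨-, h2⟩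
  · have h6 : ∑ i ∈ range n, kp i u = 1 := by
      rw [sum_eq_single_of_mem i (mem_range.2 hi) fun j hj hji => h5 j (mem_range.1 hj) hji, h2]
    linarith
  · linarith

/-- the ends of a family of items of value one -/
lemma PCon.ends_sum (H : PCon R n t s mu U ho vl kp mn pc ar be kq NN sg nu) {K : Finset ι}
    (hK : K ⊆ U) (hv : ∀ u ∈ K, vl u = 1) {S : Finset ℕ} (hS : S ⊆ range n) :
    ∑ l ∈ S, ((K.filter fun u => kp l u ≠ 0).card : ℤ) ≤ 2 * (K.card : ℤ) := by
  have h1 : ∑ l ∈ S, ((K.filter fun u => kp l u ≠ 0).card : ℤ)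
      = ∑ u ∈ K, ((S.filter fun l => kp l u ≠ 0).card : ℤ) := by
    have h2 : ∀ l ∈ S, ((K.filter fun u => kp l u ≠ 0).card : ℤ)
        = ∑ u ∈ K, if kp l u ≠ 0 then (1 : ℤ) else 0 := fun l _ => by
      rw [card_filter]
      push_cast
      rfl
    have h3 : ∀ u ∈ K, ((S.filter fun l => kp l u ≠ 0).card : ℤ)
        = ∑ l ∈ S, if kp l u ≠ 0 then (1 : ℤ) else 0 := fun u _ => by
      rw [card_filter]
      push_cast
      rfl
    rw [sum_congr rfl h2, sum_congr rfl h3, sum_comm]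
  rw [h1]
  refine (sum_le_card_nsmul _ _ 2 fun u hu => ?_).trans (le_of_eq ?_)
  · have h2 := H.ends_le (hK hu) hS
    rw [hv u hu] at h2
    linarith
  · rw [nsmul_eq_mul, mul_comm]

/-- the gain of a set of items -/
lemma PCon.gain_ge (H : PCon R n t s mu U ho vl kp mn pc ar be kq NN sg nu) {P : Finset ι}
    (hP : P ⊆ U) : (P.card : ℤ) * ((P.card : ℤ) - 1) ≤ ∑ e ∈ P.offDiag, min (vl e.1) (vl e.2) := by
  have h2 : (P.card : ℤ) * ((P.card : ℤ) - 1) = (P.offDiag.card : ℤ) := by
    rw [offDiag_card]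
    have h3 : P.card ≤ P.card * P.card := by
      rcases Nat.eq_zero_or_pos P.card with h5 | h5
      · rw [h5]
      · exact Nat.le_mul_of_pos_left _ h5
    rw [Nat.cast_sub h3]
    push_cast
    ring
  rw [h2, card_eq_sum_ones, Nat.cast_sum]
  refine sum_le_sum fun e he => ?_
  obtain ⟨h3, h4, -⟩ := mem_offDiag.1 he
  rw [Nat.cast_one]
  exact le_min (H.v1 _ (hP h3)) (H.v1 _ (hP h4))

/-- **THE HOST COUNT**: `k` plain items of value one hosted at `y`, `2 k ≤ R` -/
theorem PConC.hostT (H : PConC R n t s mu U ho vl kp mn pc ar be kq NN sg nu) (hy : y < n)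
    {K : Finset ι} (hK : K ⊆ U) (hKy : ∀ u ∈ K, ho u = y ∧ pc u = 0 ∧ vl u = 1) {k B : ℤ}
    (hk : k = (K.card : ℤ)) (hB : B = t y + 1) (h2k : 2 * k ≤ R) :
    (R - k) * (2 * k - B) + k ^ 2 ≤ B * k
      + ∑ u ∈ K, ∑ l ∈ ((range n).erase y).filter (fun l => kp l u ≠ 0), (be y l - kq y l) := by
  have h0 := H.rowC hy (P := K) hK (fun u hu => ⟨(hKy u hu).1, (hKy u hu).2.1⟩)
    (X := (range n).erase y) (Y := (range n).erase y) (Subset.refl _) (Subset.refl _) (K := ∅)
    (empty_subset _) (fun u hu => absurd hu (notMem_empty u)) (lv := fun _ => 1)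
    (fun u hu => absurd hu (notMem_empty u)) (fun u hu => absurd hu (notMem_empty u)) (sv := 0)
    (by unfold svP; simp) (m := k) (k := 0) (κ' := 0) (E := k) (W := k)
    (g := ((U.filter fun u => ho u = y ∧ pc u = 0).card : ℤ) - k)
    (by
      have h1 := H.mu_plain hy
      have h2 : ∑ u ∈ K, vl u = k := by
        rw [hk, card_eq_sum_ones]
        push_cast
        exact sum_congr rfl fun u hu => (hKy u hu).2.2
      rw [sum_sub_distrib, h2]
      linarith) (by simp) (by simp) (by ring) (by ring) (by rw [hk])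
  have h1 := H.sgs y hy
  have h2 := H.gain_ge hK
  rw [← hk] at h2
  simp only [sum_empty, Finset.sdiff_self, add_zero, zero_add, sub_zero] at h0
  have h3 : ∑ l ∈ (range n).erase y, (be y l - kq y l) * (sg y l
        + ((K.filter fun u => kp l u ≠ 0).card : ℤ))
      = ∑ l ∈ (range n).erase y, (be y l - kq y l) * sg y l
        + ∑ l ∈ (range n).erase y, (be y l - kq y l) * ((K.filter fun u => kp l u ≠ 0).card : ℤ) := by
    rw [← sum_add_distrib]
    exact sum_congr rfl fun l _ => by ring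
  have h4 : ∑ l ∈ (range n).erase y, (be y l - kq y l) * ((K.filter fun u => kp l u ≠ 0).card : ℤ)
      = ∑ u ∈ K, ∑ l ∈ ((range n).erase y).filter (fun l => kp l u ≠ 0), (be y l - kq y l) := by
    have h5 : ∀ u ∈ K, ∑ l ∈ ((range n).erase y).filter (fun l => kp l u ≠ 0), (be y l - kq y l)
        = ∑ l ∈ (range n).erase y, if kp l u ≠ 0 then (be y l - kq y l) else 0 := fun u _ =>
      sum_filter _ _
    rw [sum_congr rfl h5, sum_comm]
    refine sum_congr rfl fun l _ => ?_
    rw [card_filter, Nat.cast_sum, mul_sum]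
    refine sum_congr rfl fun u _ => ?_
    split_ifs <;> simp
  have hk0 : 0 ≤ k := by
    rw [hk]
    exact Nat.cast_nonneg _
  have h5 : ∑ l ∈ (range n).erase y, (be y l - kq y l) * sg y l
      ≤ (R - k) * ∑ l ∈ (range n).erase y, sg y l := by
    rw [mul_sum]
    refine sum_le_sum fun l hl => ?_
    have h6 := mem_range.1 (mem_of_mem_erase hl)
    have h7 := H.sg0 y hy l h6
    have h8 := H.kq0 y hy l h6
    have h9 := H.two_be hy h6 (ne_of_mem_erase hl).symm
    exact mul_le_mul_of_nonneg_right (by linarith) h7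
  rw [h3, h4] at h0
  rw [hB]
  have h6 : 0 ≤ R - k := by linarith
  obtain ⟨S, hS⟩ : ∃ S : ℤ, S = ∑ l ∈ (range n).erase y, sg y l := ⟨_, rfl⟩
  obtain ⟨pl, hpl⟩ : ∃ pl : ℤ, pl = ((U.filter fun u => ho u = y ∧ pc u = 0).card : ℤ) := ⟨_, rfl⟩
  rw [← hS] at h1 h5
  rw [← hpl] at h1 h0
  have h7 : mu y - s y + (pl - k) ≤ t y + 1 - k - S := by linarith
  have h8 := mul_le_mul_of_nonneg_left h7 h6
  nlinarith [h0, h8, h5, h2]

/-- the ends of a plain item of value one with the ends `z` and `w` -/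
lemma PCon.ends_two (H : PCon R n t s mu U ho vl kp mn pc ar be kq NN sg nu) {u : ι} (hu : u ∈ U)
    (h1 : vl u = 1) (hz : z < n) (hw : w < n) (hzw : z ≠ w) (hkz : kp z u ≠ 0) (hkw : kp w u ≠ 0) :
    kp z u = 1 ∧ kp w u = 1 ∧ ∀ l < n, l ≠ z → l ≠ w → kp l u = 0 := by
  have h2 := H.kp_one hu h1 hz hkz
  have h3 := H.kp_one hu h1 hw hkw
  refine ⟨h2, h3, fun l hl hlz hlw => ?_⟩
  by_contra h4
  have h5 := H.ends_le hu (S := {z, w, l}) (by
    intro x hx
    rcases mem_insert.1 hx with h6 | h6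
    · rw [h6]
      exact mem_range.2 hz
    · rcases mem_insert.1 h6 with h7 | h7
      · rw [h7]
        exact mem_range.2 hw
      · rw [mem_singleton.1 h7]
        exact mem_range.2 hl)
  have h6 : ({z, w, l} : Finset ℕ).filter (fun l => kp l u ≠ 0) = {z, w, l} := by
    refine filter_true_of_mem fun x hx => ?_
    rcases mem_insert.1 hx with h7 | h7
    · rw [h7]
      exact hkz
    · rcases mem_insert.1 h7 with h8 | h8
      · rw [h8]
        exact hkw
      · rw [mem_singleton.1 h8]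
        exact h4
  have h7 : ({z, w, l} : Finset ℕ).card = 3 := by
    rw [card_insert_of_notMem, card_pair hlw.symm]
    intro h8
    rcases mem_insert.1 h8 with h9 | h9
    · exact hzw h9
    · exact hlz (mem_singleton.1 h9).symm
  rw [h6, h7, h1] at h5
  norm_num at h5

/-- the arcs of such an item of the host `y` -/
lemma PCon.arcs_two (H : PCon R n t s mu U ho vl kp mn pc ar be kq NN sg nu) {u : ι} (hu : u ∈ U)
    (h1 : vl u = 1) (hz : z < n) (hw : w < n) (hzw : z ≠ w) (hkz : kp z u ≠ 0) (hkw : kp w u ≠ 0)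
    (hzy : z ≠ y) (hwy : w ≠ y) : rnA n kp be z y u = be y z + be y w := by
  obtain ⟨-, -, h4⟩ := H.ends_two hu h1 hz hw hzw hkz hkw
  unfold rnA
  rw [if_pos ⟨w, hw, hzw.symm, hkw⟩]
  have h5 : ((range n).erase y).filter (fun l => kp l u ≠ 0) = {z, w} := by
    ext l
    rw [mem_filter, mem_erase, mem_range, mem_insert, mem_singleton]
    constructor
    · rintro ⟨⟨-, h6⟩, h7⟩
      by_contra h8
      push Not at h8
      exact h7 (h4 l h6 h8.1 h8.2)
    · rintro (h6 | h6)
      · rw [h6]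
        exact ⟨⟨hzy, hz⟩, hkz⟩
      · rw [h6]
        exact ⟨⟨hwy, hw⟩, hkw⟩
  rw [h5, sum_pair hzw]

/-- **THE JOINT CAP** of the plain items of value one of the host `y` with the ends `z` and `w` -/
theorem PConC.grpCap (H : PConC R n t s mu U ho vl kp mn pc ar be kq NN sg nu) (hz : z < n)
    (hy : y < n) (hw : w < n) (hzw : z ≠ w) (hzy : z ≠ y) (hwy : w ≠ y) {K : Finset ι}
    (hK : K ⊆ U) (hKy : ∀ u ∈ K, ho u = y ∧ pc u = 0 ∧ vl u = 1 ∧ kp z u ≠ 0 ∧ kp w u ≠ 0)
    {k β : ℤ} (hk : k = (K.card : ℤ)) (hβ : β = be y w + be w y) :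
    (β - 1) * R + k * (R + t w - be y z) ≤ t y * t w + (β + k) ^ 2 + ∑ u ∈ K, mn w u := by
  have h0 := H.capMN hy hw hwy.symm hK
    (fun u hu => ⟨(hKy u hu).1, (hKy u hu).2.1, (hKy u hu).2.2.1, (hKy u hu).2.2.2.2⟩) hk hβ
  have h1 : ∀ u ∈ K, R + t w - mn w u - ∑ l ∈ ((range n).erase y).erase w, kp l u * be y l
      = (R + t w - be y z) - mn w u := by
    intro u hu
    obtain ⟨-, -, h2, h3, h4⟩ := hKy u hu
    obtain ⟨h5, -, h6⟩ := H.ends_two (hK hu) h2 hz hw hzw h3 h4
    have h7 : ∑ l ∈ ((range n).erase y).erase w, kp l u * be y l = be y z := by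
      rw [sum_eq_single_of_mem z (mem_erase.2 ⟨hzw, mem_erase.2 ⟨hzy, mem_range.2 hz⟩⟩)]
      · rw [h5, one_mul]
      · intro l hl hlz
        obtain ⟨h8, h9⟩ := mem_erase.1 hl
        rw [h6 l (mem_range.1 (mem_of_mem_erase h9)) hlz h8, zero_mul]
    rw [h7]
    ring
  rw [sum_congr rfl h1, sum_sub_distrib, sum_const, nsmul_eq_mul, ← hk] at h0
  linarith

/-- **THE RECTANGLE**, `j` plain hosted items of value one kept, the block pairs of the other tails out: `β = be z w`,
`h` the number of the plain hosted items, `pm` a bound of the block pairs of the other tails -/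
theorem PConC.rectJ (H : PConC R n t s mu U ho vl kp mn pc ar be kq NN sg nu) (hz : z < n)
    (hw : w < n) (hwz : w ≠ z) {u : ι} (hu : u ∈ U) {P : Finset ι} (hP : P ⊆ U)
    (hPz : ∀ u ∈ P, ho u = z ∧ pc u = 0 ∧ vl u = 1) {j β h pm : ℤ} (hj : j = (P.card : ℤ))
    (hβ : β = be z w) (hh : h = ((U.filter fun u => ho u = z ∧ pc u = 0).card : ℤ))
    (hpm : ∀ l < n, l ≠ z → l ≠ w → be z l - kq z l ≤ pm) (hpm0 : 0 ≤ pm) :
    2 * (max 0 (mn z u - β) * mn w u) + 2 * ((R - t w) * (β - 1)) + (j + β) * (j + β + 1)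
        + j * (j - 1)
      ≤ 2 * ((t z + 1) * (j + β)) + 2 * ((t w - (j + β)) * (mu z - s z + (h - j) - (j + β)))
        + NN z w + 2 * (pm * ((t z + 1 - (mu z - s z) - h) + 2 * j)) := by
  have hm : ∑ u ∈ P, vl u = j := by
    rw [hj, card_eq_sum_ones]
    push_cast
    exact sum_congr rfl fun u hu => (hPz u hu).2.2
  have h0 := H.numX02 hz hw hwz hP (fun u hu => ⟨(hPz u hu).1, (hPz u hu).2.1⟩)
    (Y := ((range n).erase z).erase w) (Subset.refl _) (m := j) (b := 0) (W := j + β) (g := h - j)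
    (EX := max 0 (mn z u - be z w) * max 0 (mn w u - 0)) hm.symm (by simp)
    (by rw [← hβ]; ring) (by rw [hh, hj]) (Or.inr ⟨u, hu, le_rfl⟩)
  have h1 := H.gain_ge hP
  rw [← hj] at h1
  have h2 : 0 ≤ ∑ u ∈ P, (kp w u * (R - t w) - mn w u) := sum_nonneg fun u hu => by
    have := H.mnk u (hP hu) w hw
    linarith
  have h3 : ∑ l ∈ ((range n).erase z).erase w, (be z l - kq z l) * (sg z l
        + ((P.filter fun u => kp l u ≠ 0).card : ℤ))
      ≤ pm * ((t z + 1 - (mu z - s z) - h) + 2 * j) := by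
    have h4 : ∑ l ∈ ((range n).erase z).erase w, (be z l - kq z l) * (sg z l
          + ((P.filter fun u => kp l u ≠ 0).card : ℤ))
        ≤ ∑ l ∈ ((range n).erase z).erase w, pm * (sg z l
          + ((P.filter fun u => kp l u ≠ 0).card : ℤ)) := by
      refine sum_le_sum fun l hl => ?_
      obtain ⟨h5, h6⟩ := mem_erase.1 hl
      obtain ⟨h7, h8⟩ := mem_erase.1 h6
      have h9 := H.sg0 z hz l (mem_range.1 h8)
      exact mul_le_mul_of_nonneg_right (hpm l (mem_range.1 h8) h7 h5)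
        (add_nonneg h9 (Nat.cast_nonneg _))
    refine h4.trans ?_
    rw [← mul_sum, sum_add_distrib]
    refine mul_le_mul_of_nonneg_left (add_le_add ?_ ?_) hpm0
    · have h5 : ∑ l ∈ ((range n).erase z).erase w, sg z l ≤ ∑ l ∈ (range n).erase z, sg z l :=
        sum_le_sum_of_subset_of_nonneg (erase_subset _ _) fun l hl _ =>
          H.sg0 z hz l (mem_range.1 (mem_of_mem_erase hl))
      have h6 := H.sgs z hz
      rw [← hh] at h6
      linarith
    · have h5 := H.ends_sum hP (fun u hu => (hPz u hu).2.2)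
        (S := ((range n).erase z).erase w) ((erase_subset _ _).trans (erase_subset _ _))
      rw [← hj] at h5
      exact h5
  rw [sub_zero, max_eq_right (H.m0 u hu w hw), ← hβ] at h0
  simp only [Finset.sdiff_self, sum_empty] at h0
  linarith [h0, h1, h2, h3]

/-- **THE RECTANGLE**, `j` plain hosted items of value one and all block pairs kept: `b` the block pairs of the other
tails, at most `pm` each -/
theorem PConC.rectB (H : PConC R n t s mu U ho vl kp mn pc ar be kq NN sg nu) (hz : z < n)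
    (hw : w < n) (hwz : w ≠ z) {u : ι} (hu : u ∈ U) {P : Finset ι} (hP : P ⊆ U)
    (hPz : ∀ u ∈ P, ho u = z ∧ pc u = 0 ∧ vl u = 1) {j β b h pm : ℤ} (hj : j = (P.card : ℤ))
    (hβ : β = be z w) (hh : h = ((U.filter fun u => ho u = z ∧ pc u = 0).card : ℤ))
    (hb : b = ∑ l ∈ ((range n).erase z).erase w, (be z l - kq z l))
    (hpm : ∀ l < n, l ≠ z → l ≠ w → be z l - kq z l ≤ pm) :
    2 * (max 0 (mn z u - β) * mn w u) + 2 * ((R - t w) * (β - 1))
        + (j + b + β) * (j + b + β + 1) + j * (j - 1)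
      ≤ 2 * ((t z + 1) * (j + b + β))
        + 2 * ((t w - (j + b + β)) * (mu z - s z + (h - j) - (j + b + β)))
        + NN z w + b * (pm + 1) := by
  have hm : ∑ u ∈ P, vl u = j := by
    rw [hj, card_eq_sum_ones]
    push_cast
    exact sum_congr rfl fun u hu => (hPz u hu).2.2
  have h0 := H.numX02 hz hw hwz hP (fun u hu => ⟨(hPz u hu).1, (hPz u hu).2.1⟩)
    (Y := ∅) (empty_subset _) (m := j) (b := b) (W := j + b + β) (g := h - j)
    (EX := max 0 (mn z u - be z w) * max 0 (mn w u - 0)) hm.symm (by rw [sdiff_empty]; exact hb)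
    (by rw [← hβ]) (by rw [hh, hj]) (Or.inr ⟨u, hu, le_rfl⟩)
  have h1 := H.gain_ge hP
  rw [← hj] at h1
  have h2 : 0 ≤ ∑ u ∈ P, (kp w u * (R - t w) - mn w u) := sum_nonneg fun u hu => by
    have := H.mnk u (hP hu) w hw
    linarith
  have h3 : ∑ l ∈ ((range n).erase z).erase w, (be z l - kq z l) * (be z l - kq z l + 1)
      ≤ b * (pm + 1) := by
    rw [hb, sum_mul]
    refine sum_le_sum fun l hl => ?_
    obtain ⟨h5, h6⟩ := mem_erase.1 hl
    obtain ⟨h7, h8⟩ := mem_erase.1 h6
    have h9 := H.kqb z hz l (mem_range.1 h8)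
    have h10 := hpm l (mem_range.1 h8) h7 h5
    exact mul_le_mul_of_nonneg_left (by linarith) (by linarith)
  rw [sub_zero, max_eq_right (H.m0 u hu w hw), ← hβ] at h0
  simp only [sdiff_empty, sum_empty, mul_zero, add_zero] at h0
  linarith [h0, h1, h2, h3]

end BndF

end Pool.Agent.Lib.MP_f04ccf_co
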