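import Mathlib

/-!
MP_f04ccf_co: POLYNOMIAL INEQUALITIES OVER A BOX BY KERNEL COMPUTATION (Bernstein form, branch and bound).
`BoxP.P n`: tensors of integer coefficients, `n` variables, every variable in homogeneous form
`∑ a_k x^(d-k) y^k`; `BoxP.ev`: its value; `BoxP.spl`: the two half boxes (substitutions
`(2 x + y, y)` and `(x, x + 2 y)`); `BoxP.run`: branch and bound along a given tree (digits of `code`);
`BoxP.E`: polynomial expressions; `BoxP.tens`: their tensor over a box; `BoxP.sound`: the final statement.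
-/

set_option autoImplicit false

namespace Pool.Agent.Lib.MP_f04ccf_co

namespace BoxP

/-- tensors of integer coefficients -/
def P : ℕ → Type
  | 0 => ℤ
  | n + 1 => List (P n)

/-- `∑ a_k x^(d-k) y^k` -/
noncomputable def hv (x y : ℝ) : List ℝ → ℝ
  | [] => 0
  | a :: l => a * x ^ l.length + y * hv x y l

/-- the value of a tensor -/
noncomputable def ev (x y : ℕ → ℝ) : (n : ℕ) → P n → ℝ
  | 0, c => (Int.cast (show ℤ from c) : ℝ)
  | n + 1, l => hv (x n) (y n) (List.map (ev x y n) l)

/-! ### lists: the two substitutions -/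

section Lists

variable {α : Type} (A : α → α → α)

/-- helper of `stp` -/
def go (b : α) : α → List α → List α
  | p, [] => [A p b]
  | p, a :: l => A (A a a) p :: go b a l

/-- multiply by `2 x + y` and add `b y^k` -/
def stp (l : List α) (b : α) : List α :=
  match l with
  | [] => [b]
  | a :: l => A a a :: go A b a l

/-- substitution `(2 x + y, y)` -/
def lft (l : List α) : List α := l.foldl (stp A) []

/-- substitution `(x, x + 2 y)` -/
def rgt (l : List α) : List α := (lft A l.reverse).reverse

variable (e : α → ℝ) (W : α → Prop)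
  (hA : ∀ p q, W p → W q → W (A p q) ∧ e (A p q) = e p + e q)

lemma go_length (b : α) : ∀ (l : List α) (p : α), (go A b p l).length = l.length + 1
  | [], p => rfl
  | a :: l, p => by simp [go, go_length b l a]

lemma stp_length (l : List α) (b : α) : (stp A l b).length = l.length + 1 := by
  cases l with
  | nil => rfl
  | cons a l => simp [stp, go_length]

lemma foldl_length : ∀ (l acc : List α), (l.foldl (stp A) acc).length = l.length + acc.length
  | [], acc => by simp
  | b :: l, acc => by
    rw [List.foldl_cons, foldl_length l, stp_length, List.length_cons]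
    omega

lemma lft_length (l : List α) : (lft A l).length = l.length := by
  simp [lft, foldl_length]

lemma rgt_length (l : List α) : (rgt A l).length = l.length := by
  simp [rgt, lft_length]

include hA in
lemma go_spec (x y : ℝ) (b : α) (hb : W b) : ∀ (l : List α) (p : α), W p → (∀ a ∈ l, W a) →
    (∀ a ∈ go A b p l, W a) ∧ hv x y ((go A b p l).map e) =
      e p * x ^ l.length + (2 * x + y) * hv x y (l.map e) + y ^ l.length * e b
  | [], p, hp, _ => by
    have h := hA p b hp hb
    refine ⟨fun a ha => ?_, ?_⟩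
    · simp only [go, List.mem_singleton] at ha
      rw [ha]
      exact h.1
    · simp [go, hv, h.2]
  | a :: l, p, hp, hl => by
    have ha := hl a (by simp)
    have h1 := hA a a ha ha
    have h2 := hA (A a a) p h1.1 hp
    obtain ⟨h3, h4⟩ := go_spec x y b hb l a ha fun c hc => hl c (by simp [hc])
    refine ⟨fun c hc => ?_, ?_⟩
    · simp only [go, List.mem_cons] at hc
      rcases hc with rfl | hc
      · exact h2.1
      · exact h3 c hc
    · simp only [go, List.map_cons, hv, h4, List.length_map, go_length, h2.2, h1.2, List.length_cons]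
      ring

include hA in
lemma stp_spec (x y : ℝ) (l : List α) (b : α) (hb : W b) (hl : ∀ a ∈ l, W a) :
    (∀ a ∈ stp A l b, W a) ∧ hv x y ((stp A l b).map e) =
      (2 * x + y) * hv x y (l.map e) + y ^ l.length * e b := by
  cases l with
  | nil =>
    refine ⟨fun a ha => ?_, ?_⟩
    · simp only [stp, List.mem_singleton] at ha
      rw [ha]
      exact hb
    · simp [stp, hv]
  | cons a l =>
    have ha := hl a (by simp)
    have h1 := hA a a ha ha
    obtain ⟨h3, h4⟩ := go_spec A e W hA x y b hb l a ha fun c hc => hl c (by simp [hc])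
    refine ⟨fun c hc => ?_, ?_⟩
    · simp only [stp, List.mem_cons] at hc
      rcases hc with rfl | hc
      · exact h1.1
      · exact h3 c hc
    · simp only [stp, List.map_cons, hv, h4, List.length_map, go_length, h1.2, List.length_cons]
      ring

include hA in
lemma foldl_spec (x y : ℝ) : ∀ (l acc : List α), (∀ a ∈ l, W a) → (∀ a ∈ acc, W a) →
    (∀ a ∈ l.foldl (stp A) acc, W a) ∧ hv x y ((l.foldl (stp A) acc).map e) =
      (2 * x + y) ^ l.length * hv x y (acc.map e) + y ^ acc.length * hv (2 * x + y) y (l.map e)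
  | [], acc, _, hacc => ⟨hacc, by simp [hv]⟩
  | b :: l, acc, hl, hacc => by
    have hb := hl b (by simp)
    obtain ⟨h1, h2⟩ := stp_spec A e W hA x y acc b hb hacc
    obtain ⟨h3, h4⟩ := foldl_spec x y l (stp A acc b) (fun c hc => hl c (by simp [hc])) h1
    refine ⟨h3, ?_⟩
    rw [List.foldl_cons, h4, h2, stp_length]
    simp only [List.map_cons, hv, List.length_map, List.length_cons]
    ring

include hA in
lemma lft_spec (x y : ℝ) (l : List α) (hl : ∀ a ∈ l, W a) :
    (∀ a ∈ lft A l, W a) ∧ hv x y ((lft A l).map e) = hv (2 * x + y) y (l.map e) := by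
  obtain ⟨h1, h2⟩ := foldl_spec A e W hA x y l [] hl (by simp)
  exact ⟨h1, by rw [lft, h2]; simp [hv]⟩

lemma hv_append (x y : ℝ) (a : ℝ) : ∀ l : List ℝ, hv x y (l ++ [a]) = x * hv x y l + y ^ l.length * a
  | [] => by simp [hv]
  | b :: l => by
    simp only [List.cons_append, hv, hv_append x y a l, List.length_append, List.length_cons,
      List.length_nil]
    ring

lemma hv_reverse (x y : ℝ) : ∀ l : List ℝ, hv x y l.reverse = hv y x l
  | [] => by simp [hv]
  | a :: l => by
    rw [List.reverse_cons, hv_append, hv_reverse x y l, List.length_reverse]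
    simp only [hv]
    ring

include hA in
lemma rgt_spec (x y : ℝ) (l : List α) (hl : ∀ a ∈ l, W a) :
    (∀ a ∈ rgt A l, W a) ∧ hv x y ((rgt A l).map e) = hv x (x + 2 * y) (l.map e) := by
  obtain ⟨h1, h2⟩ := lft_spec A e W hA y x l.reverse (by simpa using hl)
  refine ⟨by simpa [rgt] using h1, ?_⟩
  rw [rgt, List.map_reverse, hv_reverse, h2, List.map_reverse, hv_reverse]
  ring_nf

end Lists

/-! ### tensors -/

/-- addition (same shape) -/
def add0 : (n : ℕ) → P n → P n → P n
  | 0, a, b => Int.add (show ℤ from a) (show ℤ from b)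
  | n + 1, a, b => List.zipWith (add0 n) a b

/-- shape: degree `ds i` in the variable `i` -/
def WF (ds : ℕ → ℕ) : (n : ℕ) → P n → Prop
  | 0, _ => True
  | n + 1, l => List.length l = ds n + 1 ∧ ∀ p ∈ (show List (P n) from l), WF ds n p

lemma hv_zip (x y : ℝ) {α : Type} (e : α → ℝ) (A : α → α → α) : ∀ (a b : List α),
    a.length = b.length → (∀ p ∈ a, ∀ q ∈ b, e (A p q) = e p + e q) →
    hv x y ((List.zipWith A a b).map e) = hv x y (a.map e) + hv x y (b.map e)
  | [], [], _, _ => by simp [hv]
  | [], _ :: _, h, _ => by simp at h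
  | _ :: _, [], h, _ => by simp at h
  | p :: a, q :: b, h, hA => by
    have hl : a.length = b.length := by simpa using h
    have := hv_zip x y e A a b hl fun p' hp q' hq => hA p' (by simp [hp]) q' (by simp [hq])
    simp only [List.zipWith_cons_cons, List.map_cons, hv, this, hA p (by simp) q (by simp),
      List.length_map, List.length_zipWith, hl, min_self]
    ring

lemma add0_spec (ds : ℕ → ℕ) (x y : ℕ → ℝ) : ∀ (n : ℕ) (p q : P n), WF ds n p → WF ds n q →
    WF ds n (add0 n p q) ∧ ev x y n (add0 n p q) = ev x y n p + ev x y n q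
  | 0, p, q, _, _ => ⟨trivial, by
      have h : ∀ a b : ℤ, ((Int.add a b : ℤ) : ℝ) = (a : ℝ) + (b : ℝ) := fun a b => by
        rw [show Int.add a b = a + b from rfl]
        push_cast
        rfl
      exact h p q⟩
  | n + 1, p, q, hp, hq => by
    have ih := add0_spec ds x y n
    have hl : ∀ a b : List (P n), a.length = ds n + 1 → b.length = ds n + 1 →
        (List.zipWith (add0 n) a b).length = ds n + 1 := fun a b ha hb => by
      rw [List.length_zipWith, ha, hb, min_self]
    refine ⟨⟨hl p q hp.1 hq.1, ?_⟩, ?_⟩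
    · intro r hr
      change r ∈ List.zipWith (add0 n) (show List (P n) from p) (show List (P n) from q) at hr
      rw [List.mem_iff_getElem] at hr
      obtain ⟨i, hi, rfl⟩ := hr
      rw [List.getElem_zipWith]
      exact (ih _ _ (hp.2 _ (List.getElem_mem _)) (hq.2 _ (List.getElem_mem _))).1
    · show hv (x n) (y n) (List.map (ev x y n) (List.zipWith (add0 n) p q)) = _
      exact hv_zip _ _ _ _ _ _ (hp.1.trans hq.1.symm) fun a ha b hb => (ih a b (hp.2 a ha) (hq.2 b hb)).2

/-- half boxes: `false` = `(2 x + y, y)`, `true` = `(x, x + 2 y)` in the variable `i` -/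
def spl (r : Bool) (i : ℕ) : (n : ℕ) → P n → P n
  | 0, c => c
  | n + 1, l => cond (Nat.beq i n)
      (cond r (rgt (add0 n) (show List (P n) from l)) (lft (add0 n) (show List (P n) from l)))
      (List.map (spl r i n) l)

/-- the substituted variables -/
noncomputable def sx (r : Bool) (i : ℕ) (x y : ℕ → ℝ) : ℕ → ℝ :=
  fun j => if j = i ∧ r = false then 2 * x j + y j else x j

/-- the substituted variables -/
noncomputable def sy (r : Bool) (i : ℕ) (x y : ℕ → ℝ) : ℕ → ℝ :=
  fun j => if j = i ∧ r = true then x j + 2 * y j else y j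

lemma spl_spec (ds : ℕ → ℕ) (x y : ℕ → ℝ) (r : Bool) (i : ℕ) : ∀ (n : ℕ) (p : P n), WF ds n p →
    WF ds n (spl r i n p) ∧ ev x y n (spl r i n p) = ev (sx r i x y) (sy r i x y) n p
  | 0, p, _ => ⟨trivial, rfl⟩
  | n + 1, p, hp => by
    have ih := spl_spec ds x y r i n
    by_cases hin : i = n
    · subst hin
      have hb : Nat.beq i i = true := Nat.beq_refl i
      -- the inner variables are not touched
      have hsame : ∀ (m : ℕ) (q : P m), m ≤ i → ev (sx r i x y) (sy r i x y) m q = ev x y m q := by
        intro m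
        induction m with
        | zero => intro q _; rfl
        | succ m ihm =>
          intro q hm
          show hv (sx r i x y m) (sy r i x y m) (List.map (ev (sx r i x y) (sy r i x y) m) q) =
            hv (x m) (y m) (List.map (ev x y m) q)
          have h1 : sx r i x y m = x m := by
            unfold sx; rw [if_neg]; rintro ⟨h, _⟩; omega
          have h2 : sy r i x y m = y m := by
            unfold sy; rw [if_neg]; rintro ⟨h, _⟩; omega
          rw [h1, h2]
          congr 1
          exact List.map_congr_left fun q' _ => ihm q' (by omega)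
      have hmap : List.map (ev (sx r i x y) (sy r i x y) i) (show List (P i) from p) =
          List.map (ev x y i) (show List (P i) from p) :=
        List.map_congr_left fun q' _ => hsame i q' le_rfl
      have hval : ev (sx r i x y) (sy r i x y) (i + 1) p =
          hv (sx r i x y i) (sy r i x y i) (List.map (ev x y i) (show List (P i) from p)) := by
        show hv _ _ (List.map (ev (sx r i x y) (sy r i x y) i) (show List (P i) from p)) = _
        rw [hmap]
      cases r with
      | false =>
        have hs : spl false i (i + 1) p = lft (add0 i) (show List (P i) from p) := by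
          show cond (Nat.beq i i) _ _ = _
          rw [hb]
          rfl
        obtain ⟨h1, h2⟩ := lft_spec (add0 i) (ev x y i) (WF ds i) (add0_spec ds x y i) (x i) (y i)
          (show List (P i) from p) hp.2
        rw [hs]
        refine ⟨⟨?_, h1⟩, ?_⟩
        · rw [lft_length]
          exact hp.1
        · rw [hval]
          show hv (x i) (y i) (List.map (ev x y i) (lft (add0 i) (show List (P i) from p))) = _
          rw [h2]
          simp [sx, sy]
      | true =>
        have hs : spl true i (i + 1) p = rgt (add0 i) (show List (P i) from p) := by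
          show cond (Nat.beq i i) _ _ = _
          rw [hb]
          rfl
        obtain ⟨h1, h2⟩ := rgt_spec (add0 i) (ev x y i) (WF ds i) (add0_spec ds x y i) (x i) (y i)
          (show List (P i) from p) hp.2
        rw [hs]
        refine ⟨⟨?_, h1⟩, ?_⟩
        · rw [rgt_length]
          exact hp.1
        · rw [hval]
          show hv (x i) (y i) (List.map (ev x y i) (rgt (add0 i) (show List (P i) from p))) = _
          rw [h2]
          simp [sx, sy]
    · have hb : Nat.beq i n = false := by
        rw [Bool.eq_false_iff]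
        intro h
        exact hin (Nat.eq_of_beq_eq_true h)
      have hs : spl r i (n + 1) p = List.map (spl r i n) (show List (P n) from p) := by
        show cond (Nat.beq i n) _ _ = _
        rw [hb]
        rfl
      rw [hs]
      refine ⟨⟨?_, ?_⟩, ?_⟩
      · rw [List.length_map]
        exact hp.1
      · intro q hq
        obtain ⟨q', hq', rfl⟩ := List.mem_map.1 hq
        exact (ih q' (hp.2 q' hq')).1
      · show hv (x n) (y n) (List.map (ev x y n) (List.map (spl r i n) (show List (P n) from p))) =
          hv (sx r i x y n) (sy r i x y n) (List.map (ev (sx r i x y) (sy r i x y) n)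
            (show List (P n) from p))
        have h1 : sx r i x y n = x n := by
          unfold sx; rw [if_neg]; rintro ⟨h, _⟩; exact hin h.symm
        have h2 : sy r i x y n = y n := by
          unfold sy; rw [if_neg]; rintro ⟨h, _⟩; exact hin h.symm
        rw [h1, h2, List.map_map]
        congr 1
        exact List.map_congr_left fun q' hq' => (ih q' (hp.2 q' hq')).2

/-! ### closing a box, branch and bound -/

/-- `0 ≤ c` -/
def nz : ℤ → Bool
  | Int.ofNat _ => true
  | Int.negSucc _ => false

/-- `0 < c` -/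
def pz : ℤ → Bool
  | Int.ofNat k => Nat.ble 1 k
  | Int.negSucc _ => false

/-- all coefficients are nonnegative -/
def nn : (n : ℕ) → P n → Bool
  | 0, c => nz c
  | n + 1, l => List.all l (nn n)

/-- all coefficients are positive -/
def ps : (n : ℕ) → P n → Bool
  | 0, c => pz c
  | n + 1, l => List.all l (ps n)

lemma hv_nonneg {x y : ℝ} (hx : 0 ≤ x) (hy : 0 ≤ y) : ∀ l : List ℝ, (∀ a ∈ l, 0 ≤ a) → 0 ≤ hv x y l
  | [], _ => le_rfl
  | a :: l, h => by
    have h1 := hv_nonneg hx hy l fun b hb => h b (by simp [hb])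
    have h2 := h a (by simp)
    simp only [hv]
    positivity

lemma hv_pos {x y : ℝ} (hx : 0 ≤ x) (hy : 0 ≤ y) (hxy : 0 < x + y) : ∀ l : List ℝ, l ≠ [] →
    (∀ a ∈ l, 0 < a) → 0 < hv x y l
  | [], h, _ => absurd rfl h
  | [a], _, h => by
    have := h a (by simp)
    simpa [hv] using this
  | a :: b :: l, _, h => by
    have h1 := hv_pos hx hy hxy (b :: l) (by simp) fun c hc => h c (by simp [hc])
    have h2 := h a (by simp)
    have h3 : hv x y (a :: b :: l) = a * x ^ (b :: l).length + y * hv x y (b :: l) := rfl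
    rw [h3]
    rcases hx.eq_or_lt with h0 | h0
    · have hy' : 0 < y := by rw [← h0] at hxy; linarith
      have : 0 < y * hv x y (b :: l) := mul_pos hy' h1
      have : 0 ≤ a * x ^ (b :: l).length := by positivity
      linarith
    · have : 0 < a * x ^ (b :: l).length := by positivity
      have : 0 ≤ y * hv x y (b :: l) := mul_nonneg hy h1.le
      linarith

lemma nn_spec {x y : ℕ → ℝ} (hx : ∀ i, 0 ≤ x i) (hy : ∀ i, 0 ≤ y i) : ∀ (n : ℕ) (p : P n),
    nn n p = true → 0 ≤ ev x y n p
  | 0, p, h => by
    have hh : ∀ c : ℤ, nn 0 c = true → (0 : ℝ) ≤ (c : ℝ) := by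
      rintro (a | a) h
      · simp
      · exact absurd h (by simp [nn, nz])
    exact hh p h
  | n + 1, p, h => by
    have h' : List.all (show List (P n) from p) (nn n) = true := h
    rw [List.all_eq_true] at h'
    refine hv_nonneg (hx n) (hy n) _ fun a ha => ?_
    obtain ⟨q, hq, rfl⟩ := List.mem_map.1 ha
    exact nn_spec hx hy n q (h' q hq)

lemma ps_spec {x y : ℕ → ℝ} (hx : ∀ i, 0 ≤ x i) (hy : ∀ i, 0 ≤ y i) (hxy : ∀ i, 0 < x i + y i)
    (ds : ℕ → ℕ) : ∀ (n : ℕ) (p : P n), WF ds n p → ps n p = true → 0 < ev x y n p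
  | 0, p, _, h => by
    have hh : ∀ c : ℤ, ps 0 c = true → (0 : ℝ) < (c : ℝ) := by
      rintro (a | a) h
      · have : 1 ≤ a := Nat.le_of_ble_eq_true h
        have h1 : (0 : ℝ) < (a : ℝ) := by exact_mod_cast this
        simpa using h1
      · exact absurd h (by simp [ps, pz])
    exact hh p h
  | n + 1, p, hw, h => by
    have h' : List.all (show List (P n) from p) (ps n) = true := h
    rw [List.all_eq_true] at h'
    refine hv_pos (hx n) (hy n) (hxy n) _ ?_ fun a ha => ?_
    · intro h0
      have h1 := List.map_eq_nil_iff.1 h0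
      have := hw.1
      rw [h1] at this
      simp at this
    · obtain ⟨q, hq, rfl⟩ := List.mem_map.1 ha
      exact ps_spec hx hy hxy ds n q (hw.2 q hq) (h' q hq)

/-- the box is closed by its polynomial number `j` -/
def cls (n : ℕ) : ℕ → ℕ → List (P n) → Bool
  | _, _, [] => false
  | 0, 0, p :: _ => ps n p
  | _ + 1, 0, p :: _ => nn n p
  | 0, j + 1, _ :: L => cls n 0 j L
  | m + 1, j + 1, _ :: L => cls n m j L

/-- one of the first `m` polynomials is `≥ 0` or one of the others is `> 0` -/
def Gd (x y : ℕ → ℝ) (n : ℕ) : ℕ → List (P n) → Prop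
  | _, [] => False
  | 0, p :: L => 0 < ev x y n p ∨ Gd x y n 0 L
  | m + 1, p :: L => 0 ≤ ev x y n p ∨ Gd x y n m L

/-- branch and bound along the tree `code` (digits in base 32: `< 8` split, `8 + j` close by `j`) -/
def run (n m : ℕ) : ℕ → ℕ → List (List (P n)) → Bool
  | 0, _, st => List.isEmpty st
  | _ + 1, _, [] => true
  | f + 1, code, L :: st =>
    cond (Nat.blt (code % 32) 8)
      (run n m f (code / 32)
        (List.map (spl false (code % 32) n) L :: List.map (spl true (code % 32) n) L :: st))
      (and (cls n m (code % 32 - 8) L) (run n m f (code / 32) st))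

/-- the cone -/
def Cone (x y : ℕ → ℝ) : Prop := (∀ i, 0 ≤ x i) ∧ (∀ i, 0 ≤ y i) ∧ ∀ i, 0 < x i + y i

/-- every polynomial has a shape -/
def WFL (n : ℕ) (L : List (P n)) : Prop := ∀ p ∈ L, ∃ ds, WF ds n p

lemma cls_spec (n : ℕ) {x y : ℕ → ℝ} (h : Cone x y) : ∀ (m j : ℕ) (L : List (P n)), WFL n L →
    cls n m j L = true → Gd x y n m L
  | _, _, [], _, hc => by simp [cls] at hc
  | 0, 0, p :: L, hw, hc => by
    obtain ⟨ds, hp⟩ := hw p (by simp)
    exact Or.inl (ps_spec h.1 h.2.1 h.2.2 ds n p hp hc)
  | m + 1, 0, p :: L, hw, hc => Or.inl (nn_spec h.1 h.2.1 n p hc)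
  | 0, j + 1, p :: L, hw, hc => Or.inr (cls_spec n h 0 j L (fun q hq => hw q (by simp [hq])) hc)
  | m + 1, j + 1, p :: L, hw, hc =>
    Or.inr (cls_spec n h m j L (fun q hq => hw q (by simp [hq])) hc)

lemma Gd_map (n : ℕ) {x y x' y' : ℕ → ℝ} (g : P n → P n) : ∀ (m : ℕ) (L : List (P n)),
    (∀ p ∈ L, ev x y n (g p) = ev x' y' n p) → Gd x y n m (List.map g L) → Gd x' y' n m L
  | _, [], _, h => h
  | 0, p :: L, hg, h => by
    rcases h with h | h
    · exact Or.inl (by rw [← hg p (by simp)]; exact h)
    · exact Or.inr (Gd_map n g 0 L (fun q hq => hg q (by simp [hq])) h)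
  | m + 1, p :: L, hg, h => by
    rcases h with h | h
    · exact Or.inl (by rw [← hg p (by simp)]; exact h)
    · exact Or.inr (Gd_map n g m L (fun q hq => hg q (by simp [hq])) h)

lemma WFL_map (n : ℕ) (r : Bool) (i : ℕ) {L : List (P n)} (h : WFL n L) :
    WFL n (List.map (spl r i n) L) := by
  intro p hp
  obtain ⟨q, hq, rfl⟩ := List.mem_map.1 hp
  obtain ⟨ds, hd⟩ := h q hq
  exact ⟨ds, (spl_spec ds (fun _ => 0) (fun _ => 0) r i n q hd).1⟩

lemma Gd_spl (n m i : ℕ) {L : List (P n)} (hL : WFL n L)
    (h0 : ∀ x y, Cone x y → Gd x y n m (List.map (spl false i n) L))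
    (h1 : ∀ x y, Cone x y → Gd x y n m (List.map (spl true i n) L)) :
    ∀ x y, Cone x y → Gd x y n m L := by
  intro x y hc
  obtain ⟨hx, hy, hxy⟩ := hc
  have hs : ∀ (r : Bool) (x' y' : ℕ → ℝ), sx r i x' y' = x → sy r i x' y' = y → Cone x' y' →
      Gd x y n m L := by
    intro r x' y' e1 e2 hc'
    have hg : Gd x' y' n m (List.map (spl r i n) L) := by
      cases r with
      | false => exact h0 x' y' hc'
      | true => exact h1 x' y' hc'
    refine Gd_map n (spl r i n) m L (fun p hp => ?_) hg
    obtain ⟨ds, hd⟩ := hL p hp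
    rw [(spl_spec ds x' y' r i n p hd).2, e1, e2]
  rcases le_total (y i) (x i) with hle | hle
  · refine hs false (fun j => if j = i then (x j - y j) / 2 else x j) y ?_ ?_ ⟨?_, hy, ?_⟩
    · funext j
      unfold sx
      by_cases hj : j = i
      · subst hj; simp; ring
      · simp [hj]
    · funext j
      unfold sy
      simp
    · intro j
      by_cases hj : j = i
      · subst hj; simp only [if_true]; linarith
      · simp only [hj, if_false]; exact hx j
    · intro j
      by_cases hj : j = i
      · subst hj; simp only [if_true]; have := hxy j; linarith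
      · simp only [hj, if_false]; exact hxy j
  · refine hs true x (fun j => if j = i then (y j - x j) / 2 else y j) ?_ ?_ ⟨hx, ?_, ?_⟩
    · funext j
      unfold sx
      simp
    · funext j
      unfold sy
      by_cases hj : j = i
      · subst hj; simp; ring
      · simp [hj]
    · intro j
      by_cases hj : j = i
      · subst hj; simp only [if_true]; linarith
      · simp only [hj, if_false]; exact hy j
    · intro j
      by_cases hj : j = i
      · subst hj; simp only [if_true]; have := hxy j; linarith
      · simp only [hj, if_false]; exact hxy j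

lemma run_spec (n m : ℕ) : ∀ (f code : ℕ) (st : List (List (P n))), run n m f code st = true →
    (∀ L ∈ st, WFL n L) → ∀ L ∈ st, ∀ x y, Cone x y → Gd x y n m L
  | 0, _, st, h, _ => by
    have h' : st = [] := by simpa [run] using h
    rw [h']
    intro L hL
    simp at hL
  | f + 1, _, [], _, _ => by
    intro L hL
    simp at hL
  | f + 1, code, L :: st, h, hw => by
    have hL := hw L (by simp)
    rw [run] at h
    by_cases hb : Nat.blt (code % 32) 8 = true
    · rw [hb] at h
      have ih := run_spec n m f (code / 32) _ h (by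
        intro L' hL'
        simp only [List.mem_cons] at hL'
        rcases hL' with rfl | rfl | hL'
        · exact WFL_map n _ _ hL
        · exact WFL_map n _ _ hL
        · exact hw L' (by simp [hL']))
      intro L' hL'
      rw [List.mem_cons] at hL'
      rcases hL' with rfl | hL'
      · exact Gd_spl n m (code % 32) hL (ih _ (by simp)) (ih _ (by simp))
      · exact ih L' (by simp [hL'])
    · have hb' : Nat.blt (code % 32) 8 = false := Bool.eq_false_iff.2 hb
      rw [hb'] at h
      simp only [cond_false, Bool.and_eq_true] at h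
      have ih := run_spec n m f (code / 32) st h.2 fun L' hL' => hw L' (by simp [hL'])
      intro L' hL'
      rw [List.mem_cons] at hL'
      rcases hL' with rfl | hL'
      · exact fun x y hc => cls_spec n hc m _ L' hL h.1
      · exact ih L' hL'

/-! ### tensors of expressions (value at `x i + y i = 1`, different shapes allowed) -/

section Lists2

variable {α : Type} (A M : α → α → α) (z : α)

/-- helper of `elv` -/
def elg : α → List α → List α
  | p, [] => [p]
  | p, a :: l => A p a :: elg a l

/-- multiply by `x + y` -/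
def elv : List α → List α
  | [] => []
  | a :: l => a :: elg A a l

/-- multiply by `(x + y)^k` -/
def elN : ℕ → List α → List α
  | 0, l => l
  | k + 1, l => elN k (elv A l)

/-- sum -/
def zad : List α → List α → List α
  | [], b => b
  | a, [] => a
  | p :: a, q :: b => List.zipWith A (elN A (b.length - a.length) (p :: a))
      (elN A (a.length - b.length) (q :: b))

/-- product -/
def cv : List α → List α → List α
  | [], _ => []
  | [a], b => b.map (M a)
  | a :: a' :: l, b => List.zipWith A (b.map (M a) ++ List.replicate (l.length + 1) z)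
      (z :: cv (a' :: l) b)

variable (e : α → ℝ) (hA : ∀ p q, e (A p q) = e p + e q)

lemma elg_length : ∀ (l : List α) (p : α), (elg A p l).length = l.length + 1
  | [], _ => rfl
  | a :: l, p => by simp [elg, elg_length l a]

lemma elv_length : ∀ (l : List α), l ≠ [] → (elv A l).length = l.length + 1
  | [], h => absurd rfl h
  | a :: l, _ => by simp [elv, elg_length]

lemma elv_ne : ∀ (l : List α), l ≠ [] → elv A l ≠ []
  | [], h => absurd rfl h
  | a :: l, _ => by simp [elv]

lemma elN_length : ∀ (k : ℕ) (l : List α), l ≠ [] → (elN A k l).length = l.length + k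
  | 0, _, _ => rfl
  | k + 1, l, h => by
    rw [elN, elN_length k _ (elv_ne A l h), elv_length A l h]
    omega

include hA in
lemma elg_spec (x y : ℝ) : ∀ (l : List α) (p : α), hv x y ((elg A p l).map e) =
    e p * x ^ l.length + (x + y) * hv x y (l.map e)
  | [], p => by simp [elg, hv]
  | a :: l, p => by
    simp only [elg, List.map_cons, hv, elg_spec x y l a, hA, List.length_map, elg_length,
      List.length_cons]
    ring

include hA in
lemma elv_spec (x y : ℝ) : ∀ (l : List α), hv x y ((elv A l).map e) = (x + y) * hv x y (l.map e)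
  | [] => by simp [elv, hv]
  | a :: l => by
    simp only [elv, List.map_cons, hv, elg_spec A e hA x y l a, List.length_map, elg_length]
    ring

include hA in
lemma elN_spec {x y : ℝ} (h : x + y = 1) : ∀ (k : ℕ) (l : List α),
    hv x y ((elN A k l).map e) = hv x y (l.map e)
  | 0, _ => rfl
  | k + 1, l => by rw [elN, elN_spec h k, elv_spec A e hA, h, one_mul]

include hA in
lemma zad_spec {x y : ℝ} (h : x + y = 1) : ∀ (a b : List α),
    hv x y ((zad A a b).map e) = hv x y (a.map e) + hv x y (b.map e)
  | [], b => by simp [zad, hv]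
  | p :: a, [] => by simp [zad, hv]
  | p :: a, q :: b => by
    rw [zad, hv_zip x y e A _ _ ?_ fun _ _ _ _ => hA _ _, elN_spec A e hA h, elN_spec A e hA h]
    rw [elN_length A _ _ (by simp), elN_length A _ _ (by simp)]
    simp only [List.length_cons]
    omega

lemma hv_replicate (x y : ℝ) : ∀ (k : ℕ) (l : List ℝ),
    hv x y (l ++ List.replicate k 0) = x ^ k * hv x y l
  | 0, l => by simp
  | k + 1, l => by
    rw [List.replicate_succ', ← List.append_assoc, hv_append, hv_replicate x y k l]
    ring

lemma hv_mul (x y c : ℝ) : ∀ l : List ℝ, hv x y (l.map (c * ·)) = c * hv x y l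
  | [] => by simp [hv]
  | a :: l => by
    simp only [List.map_cons, hv, hv_mul x y c l, List.length_map]
    ring

lemma cv_length : ∀ (a b : List α), a ≠ [] → (cv A M z a b).length + 1 = a.length + b.length
  | [], _, h => absurd rfl h
  | [a], b, _ => by simp [cv]; omega
  | a :: a' :: l, b, _ => by
    have := cv_length (a' :: l) b (by simp)
    simp only [cv, List.length_zipWith, List.length_append, List.length_map, List.length_replicate,
      List.length_cons] at this ⊢
    omega

variable (hM : ∀ p q, e (M p q) = e p * e q) (hz : e z = 0)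

include hA hM hz in
lemma cv_spec (x y : ℝ) : ∀ (a b : List α),
    hv x y ((cv A M z a b).map e) = hv x y (a.map e) * hv x y (b.map e)
  | [], b => by simp [cv, hv]
  | [a], b => by
    have h1 : (b.map (M a)).map e = (b.map e).map (e a * ·) := by
      rw [List.map_map, List.map_map]
      exact List.map_congr_left fun q _ => hM a q
    rw [cv, h1, hv_mul]
    simp [hv]
  | a :: a' :: l, b => by
    have ih := cv_spec x y (a' :: l) b
    have h1 : (b.map (M a)).map e = (b.map e).map (e a * ·) := by
      rw [List.map_map, List.map_map]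
      exact List.map_congr_left fun q _ => hM a q
    have hlen : (b.map (M a) ++ List.replicate (l.length + 1) z).length =
        (z :: cv A M z (a' :: l) b).length := by
      have := cv_length A M z (a' :: l) b (by simp)
      simp only [List.length_append, List.length_map, List.length_replicate, List.length_cons]
        at this ⊢
      omega
    rw [cv, hv_zip x y e A _ _ hlen fun _ _ _ _ => hA _ _]
    rw [List.map_append, List.map_replicate, hz, hv_replicate, h1, hv_mul]
    have h2 : hv x y ((z :: cv A M z (a' :: l) b).map e) =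
        y * hv x y ((cv A M z (a' :: l) b).map e) := by
      rw [List.map_cons, hz]
      simp [hv]
    have h3 : hv x y ((a :: a' :: l).map e) =
        e a * x ^ (l.length + 1) + y * hv x y ((a' :: l).map e) := by
      simp [hv]
    rw [h2, ih, h3]
    ring

end Lists2

/-- zero -/
def zr : (n : ℕ) → P n
  | 0 => (0 : ℤ)
  | _ + 1 => []

/-- constants -/
def cst (c : ℤ) : (n : ℕ) → P n
  | 0 => c
  | n + 1 => [cst c n]

/-- `lo x + hi y` in the variable `i` -/
def vr (i : ℕ) (lo hi : ℤ) : (n : ℕ) → P n
  | 0 => (0 : ℤ)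
  | n + 1 => cond (Nat.beq i n) [cst lo n, cst hi n] [vr i lo hi n]

/-- sum -/
def add1 : (n : ℕ) → P n → P n → P n
  | 0, a, b => Int.add a b
  | n + 1, a, b => zad (add1 n) a b

/-- product -/
def mul1 : (n : ℕ) → P n → P n → P n
  | 0, a, b => Int.mul a b
  | n + 1, a, b => cv (add1 n) (mul1 n) (zr n) a b

/-- same degrees everywhere -/
def uni (ds : ℕ → ℕ) : (n : ℕ) → P n → P n
  | 0, c => c
  | n + 1, l => List.map (uni ds n) (elN (add1 n) (ds n + 1 - List.length l) l)

/-- the shape -/
def wfb (ds : ℕ → ℕ) : (n : ℕ) → P n → Bool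
  | 0, _ => true
  | n + 1, l => and (Nat.beq (List.length l) (ds n + 1)) (List.all l (wfb ds n))

/-- the affine slice -/
def One (x y : ℕ → ℝ) : Prop := ∀ i, x i + y i = 1

lemma ev_zr (x y : ℕ → ℝ) : ∀ n, ev x y n (zr n) = 0
  | 0 => by show ((0 : ℤ) : ℝ) = 0; simp
  | _ + 1 => rfl

lemma ev_cst (x y : ℕ → ℝ) (c : ℤ) : ∀ n, ev x y n (cst c n) = c
  | 0 => rfl
  | n + 1 => by
    have h : ev x y (n + 1) (cst c (n + 1)) = hv (x n) (y n) [ev x y n (cst c n)] := rfl
    rw [h, ev_cst x y c n]
    simp [hv]

lemma ev_vr (x y : ℕ → ℝ) (i : ℕ) (lo hi : ℤ) : ∀ n, i < n →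
    ev x y n (vr i lo hi n) = lo * x i + hi * y i
  | 0, h => absurd h (by omega)
  | n + 1, h => by
    by_cases hin : i = n
    · subst hin
      have h1 : vr i lo hi (i + 1) = [cst lo i, cst hi i] := by
        show cond (Nat.beq i i) _ _ = _
        rw [Nat.beq_refl i]
        rfl
      have h2 : ev x y (i + 1) (vr i lo hi (i + 1)) =
          hv (x i) (y i) [ev x y i (cst lo i), ev x y i (cst hi i)] := by
        rw [h1]
        rfl
      rw [h2, ev_cst, ev_cst]
      simp [hv]
      ring
    · have h1 : vr i lo hi (n + 1) = [vr i lo hi n] := by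
        show cond (Nat.beq i n) _ _ = _
        rw [show Nat.beq i n = false from by
          rw [Bool.eq_false_iff]
          intro h'
          exact hin (Nat.eq_of_beq_eq_true h')]
        rfl
      have h2 : ev x y (n + 1) (vr i lo hi (n + 1)) = hv (x n) (y n) [ev x y n (vr i lo hi n)] := by
        rw [h1]
        rfl
      rw [h2, ev_vr x y i lo hi n (by omega)]
      simp [hv]

lemma ev_add1 {x y : ℕ → ℝ} (h : One x y) : ∀ (n : ℕ) (p q : P n),
    ev x y n (add1 n p q) = ev x y n p + ev x y n q
  | 0, p, q => by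
    have hh : ∀ a b : ℤ, ((Int.add a b : ℤ) : ℝ) = (a : ℝ) + (b : ℝ) := fun a b => by
      rw [show Int.add a b = a + b from rfl]
      push_cast
      rfl
    exact hh p q
  | n + 1, p, q => zad_spec (add1 n) (ev x y n) (ev_add1 h n) (h n) p q

lemma ev_mul1 {x y : ℕ → ℝ} (h : One x y) : ∀ (n : ℕ) (p q : P n),
    ev x y n (mul1 n p q) = ev x y n p * ev x y n q
  | 0, p, q => by
    have hh : ∀ a b : ℤ, ((Int.mul a b : ℤ) : ℝ) = (a : ℝ) * (b : ℝ) := fun a b => by
      rw [show Int.mul a b = a * b from rfl]
      push_cast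
      rfl
    exact hh p q
  | n + 1, p, q => cv_spec (add1 n) (mul1 n) (zr n) (ev x y n) (ev_add1 h n) (ev_mul1 h n)
      (ev_zr x y n) (x n) (y n) p q

lemma ev_uni {x y : ℕ → ℝ} (h : One x y) (ds : ℕ → ℕ) : ∀ (n : ℕ) (p : P n),
    ev x y n (uni ds n p) = ev x y n p
  | 0, _ => rfl
  | n + 1, p => by
    have h1 : ev x y (n + 1) (uni ds (n + 1) p) = hv (x n) (y n) (List.map (ev x y n)
        (List.map (uni ds n) (elN (add1 n) (ds n + 1 - List.length (show List (P n) from p))
          (show List (P n) from p)))) := rfl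
    have h2 : ∀ l : List (P n), List.map (ev x y n) (List.map (uni ds n) l) =
        List.map (ev x y n) l := fun l => by
      rw [List.map_map]
      exact List.map_congr_left fun q _ => ev_uni h ds n q
    rw [h1, h2, elN_spec (add1 n) (ev x y n) (ev_add1 h n) (h n)]
    rfl

lemma wfb_spec (ds : ℕ → ℕ) : ∀ (n : ℕ) (p : P n), wfb ds n p = true → WF ds n p
  | 0, _, _ => trivial
  | n + 1, p, h => by
    have h' : and (Nat.beq (List.length (show List (P n) from p)) (ds n + 1))
        (List.all (show List (P n) from p) (wfb ds n)) = true := h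
    rw [Bool.and_eq_true, List.all_eq_true] at h'
    exact ⟨Nat.eq_of_beq_eq_true h'.1, fun q hq => wfb_spec ds n q (h'.2 q hq)⟩

/-- polynomial expressions -/
inductive E : Type
  | c : ℤ → E
  | v : ℕ → E
  | add : E → E → E
  | mul : E → E → E
  | neg : E → E

/-- value -/
noncomputable def E.ev (X : ℕ → ℝ) : E → ℝ
  | .c z => (z : ℝ)
  | .v i => X i
  | .add a b => a.ev X + b.ev X
  | .mul a b => a.ev X * b.ev X
  | .neg a => - a.ev X

/-- degree in the variable `i` -/
def E.dg (i : ℕ) : E → ℕ
  | .c _ => 0
  | .v j => cond (Nat.beq i j) 1 0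
  | .add a b => max (a.dg i) (b.dg i)
  | .mul a b => a.dg i + b.dg i
  | .neg a => a.dg i

/-- all variables have index `< n` -/
def E.ok (n : ℕ) : E → Bool
  | .c _ => true
  | .v j => Nat.blt j n
  | .add a b => and (a.ok n) (b.ok n)
  | .mul a b => and (a.ok n) (b.ok n)
  | .neg a => a.ok n

/-- tensor: value `D ^ k` times the expression -/
def E.tn (n D : ℕ) (lo hi : List ℤ) : E → ℕ × P n
  | .c z => (0, cst z n)
  | .v i => (1, vr i (lo.getD i 0) (hi.getD i 0) n)
  | .add a b =>
    (max (a.tn n D lo hi).1 (b.tn n D lo hi).1,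
      add1 n (mul1 n (cst (((D ^ ((b.tn n D lo hi).1 - (a.tn n D lo hi).1) : ℕ) : ℤ)) n)
          (a.tn n D lo hi).2)
        (mul1 n (cst (((D ^ ((a.tn n D lo hi).1 - (b.tn n D lo hi).1) : ℕ) : ℤ)) n)
          (b.tn n D lo hi).2))
  | .mul a b => ((a.tn n D lo hi).1 + (b.tn n D lo hi).1, mul1 n (a.tn n D lo hi).2 (b.tn n D lo hi).2)
  | .neg a => ((a.tn n D lo hi).1, mul1 n (cst (-1) n) (a.tn n D lo hi).2)

lemma E.tn_spec {x y : ℕ → ℝ} (h : One x y) (n D : ℕ) (lo hi : List ℤ) (X : ℕ → ℝ)
    (hX : ∀ i, i < n → (D : ℝ) * X i = (lo.getD i 0 : ℤ) * x i + (hi.getD i 0 : ℤ) * y i) :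
    ∀ e : E, e.ok n = true →
      BoxP.ev x y n (e.tn n D lo hi).2 = (D : ℝ) ^ (e.tn n D lo hi).1 * e.ev X
  | .c z, _ => by simp [E.tn, E.ev, ev_cst]
  | .v i, hok => by
    have hi' : i < n := by
      have : Nat.blt i n = true := hok
      exact Nat.le_of_ble_eq_true this
    rw [E.tn, ev_vr x y i _ _ n hi', ← hX i hi']
    simp [E.ev]
  | .add a b, hok => by
    have hok' : and (a.ok n) (b.ok n) = true := hok
    rw [Bool.and_eq_true] at hok'
    have ha := E.tn_spec h n D lo hi X hX a hok'.1
    have hb := E.tn_spec h n D lo hi X hX b hok'.2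
    have key : ∀ i j : ℕ, (D : ℝ) ^ (j - i) * (D : ℝ) ^ i = (D : ℝ) ^ (max i j) := fun i j => by
      rw [← pow_add]
      congr 1
      omega
    simp only [E.tn, E.ev]
    rw [ev_add1 h, ev_mul1 h, ev_mul1 h, ev_cst, ev_cst, ha, hb]
    push_cast
    rw [← mul_assoc, ← mul_assoc, key, key, max_comm (b.tn n D lo hi).1]
    ring
  | .mul a b, hok => by
    have hok' : and (a.ok n) (b.ok n) = true := hok
    rw [Bool.and_eq_true] at hok'
    have ha := E.tn_spec h n D lo hi X hX a hok'.1
    have hb := E.tn_spec h n D lo hi X hX b hok'.2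
    simp only [E.tn, E.ev]
    rw [ev_mul1 h, ha, hb, pow_add]
    ring
  | .neg a, hok => by
    have hok' : a.ok n = true := hok
    have ha := E.tn_spec h n D lo hi X hX a hok'
    simp only [E.tn, E.ev]
    rw [ev_mul1 h, ha, ev_cst]
    push_cast
    ring

/-- the tensor in uniform shape -/
def E.tu (n D : ℕ) (lo hi : List ℤ) (e : E) : P n := uni (fun i => e.dg i) n (e.tn n D lo hi).2

/-- the whole check -/
def chk (n D : ℕ) (lo hi : List ℤ) (F G : List E) (fuel code : ℕ) : Bool :=
  and (List.all (F ++ G) (fun e => and (e.ok n) (wfb (fun i => e.dg i) n (e.tu n D lo hi))))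
    (run n F.length fuel code [List.map (fun e => e.tu n D lo hi) (F ++ G)])

lemma Gd_ex (n : ℕ) (g : E → P n) (x y : ℕ → ℝ) : ∀ (F G : List E),
    Gd x y n F.length (List.map g (F ++ G)) →
    (∃ f ∈ F, 0 ≤ BoxP.ev x y n (g f)) ∨ ∃ f ∈ G, 0 < BoxP.ev x y n (g f)
  | [], [], h => by simp [Gd] at h
  | [], f :: G, h => by
    rcases h with h | h
    · exact Or.inr ⟨f, by simp, h⟩
    · rcases Gd_ex n g x y [] G h with h' | ⟨f', hf', h'⟩
      · obtain ⟨_, h1, _⟩ := h'
        simp at h1
      · exact Or.inr ⟨f', by simp [hf'], h'⟩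
  | f :: F, G, h => by
    rcases h with h | h
    · exact Or.inl ⟨f, by simp, h⟩
    · rcases Gd_ex n g x y F G h with ⟨f', hf', h'⟩ | ⟨f', hf', h'⟩
      · exact Or.inl ⟨f', by simp [hf'], h'⟩
      · exact Or.inr ⟨f', hf', h'⟩

/-- **If the check succeeds, then at every real point of the box one of the polynomials `F` is
`≥ 0` or one of the polynomials `G` is `> 0`.** -/
theorem sound {n D : ℕ} {lo hi : List ℤ} {F G : List E} {fuel code : ℕ}
    (h : chk n D lo hi F G fuel code = true) (hD : 0 < D) (X : ℕ → ℝ)
    (hX : ∀ i, i < n → ((lo.getD i 0 : ℤ) : ℝ) ≤ D * X i ∧ D * X i ≤ ((hi.getD i 0 : ℤ) : ℝ)) :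
    (∃ f ∈ F, 0 ≤ f.ev X) ∨ ∃ f ∈ G, 0 < f.ev X := by
  rw [chk, Bool.and_eq_true, List.all_eq_true] at h
  obtain ⟨h1, h2⟩ := h
  -- the barycentric coordinates
  have hy : ∀ i, ∃ t : ℝ, 0 ≤ t ∧ t ≤ 1 ∧ (i < n →
      (D : ℝ) * X i = (lo.getD i 0 : ℤ) * (1 - t) + (hi.getD i 0 : ℤ) * t) := by
    intro i
    by_cases hi' : i < n
    · obtain ⟨ha, hb⟩ := hX i hi'
      rcases (ha.trans hb).eq_or_lt with he | hlt
      · refine ⟨0, le_rfl, zero_le_one, fun _ => ?_⟩
        rw [mul_zero, add_zero, sub_zero, mul_one]
        exact le_antisymm (hb.trans he.ge) ha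
      · refine ⟨((D : ℝ) * X i - (lo.getD i 0 : ℤ)) / ((hi.getD i 0 : ℤ) - (lo.getD i 0 : ℤ)),
          ?_, ?_, fun _ => ?_⟩
        · exact div_nonneg (by linarith) (by linarith)
        · rw [div_le_one (by linarith)]
          linarith
        · have hne : (((hi.getD i 0 : ℤ) : ℝ) - ((lo.getD i 0 : ℤ) : ℝ)) ≠ 0 := by linarith
          field_simp
          ring
    · exact ⟨0, le_rfl, zero_le_one, fun h => absurd h hi'⟩
  choose t ht0 ht1 ht using hy
  have hone : One (fun i => 1 - t i) t := fun i => by ring
  have hcone : Cone (fun i => 1 - t i) t :=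
    ⟨fun i => by linarith [ht1 i], ht0, fun i => by rw [hone i]; exact one_pos⟩
  have hDp : ∀ k : ℕ, (0 : ℝ) < (D : ℝ) ^ k := fun k => pow_pos (by exact_mod_cast hD) k
  have hval : ∀ e ∈ F ++ G, BoxP.ev (fun i => 1 - t i) t n (e.tu n D lo hi) =
      (D : ℝ) ^ (e.tn n D lo hi).1 * e.ev X := by
    intro e he
    have := h1 e he
    rw [Bool.and_eq_true] at this
    rw [E.tu, ev_uni hone]
    exact E.tn_spec hone n D lo hi X (fun i hi' => ht i hi') e this.1
  have hrun := run_spec n F.length fuel code _ h2 (by
    intro L hL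
    rw [List.mem_singleton] at hL
    subst hL
    intro p hp
    obtain ⟨e, he, rfl⟩ := List.mem_map.1 hp
    have := h1 e he
    rw [Bool.and_eq_true] at this
    exact ⟨_, wfb_spec _ n _ this.2⟩) _ (List.mem_singleton.2 rfl) _ _ hcone
  rcases Gd_ex n (fun e => e.tu n D lo hi) _ _ F G hrun with ⟨f, hf, h3⟩ | ⟨f, hf, h3⟩
  · rw [hval f (by simp [hf])] at h3
    exact Or.inl ⟨f, hf, (mul_nonneg_iff_of_pos_left (hDp _)).1 h3⟩
  · rw [hval f (by simp [hf])] at h3
    exact Or.inr ⟨f, hf, (mul_pos_iff_of_pos_left (hDp _)).1 h3⟩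

end BoxP

end Pool.Agent.Lib.MP_f04ccf_co
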