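import Pool.Agent.Lib.MP_f04ccf_co.M.BoxP

/-!
MP_f04ccf_co: the check of `M/BoxP.lean` written with the recursors and with forced evaluation
(three to four times faster under `decide +kernel`).  `BoxP.chkF`, `BoxP.chkF_eq`, `BoxP.soundF`.
-/

set_option autoImplicit false

namespace Pool.Agent.Lib.MP_f04ccf_co

namespace BoxP

/-- forced evaluation -/
noncomputable def frN {β : Type} (n : ℕ) (k : ℕ → β) : β :=
  Nat.casesOn (motive := fun _ => β) n (k 0) (fun m => k (Nat.succ m))

/-- forced evaluation -/
noncomputable def frZ {β : Type} (z : ℤ) (k : ℤ → β) : β :=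
  Int.casesOn (motive := fun _ => β) z (fun a => frN a fun a' => k (Int.ofNat a'))
    (fun a => frN a fun a' => k (Int.negSucc a'))

/-- forced evaluation -/
noncomputable def frL {α β : Type} (f : α → (α → β) → β) (l : List α) : (List α → β) → β :=
  List.rec (motive := fun _ => (List α → β) → β) (fun k => k [])
    (fun a _ ih k => f a fun a' => ih fun l' => k (a' :: l')) l

/-- forced evaluation -/
noncomputable def frP {β : Type} (n : ℕ) : P n → (P n → β) → β :=
  Nat.rec (motive := fun n => P n → (P n → β) → β) (fun c k => frZ c k) (fun _ ih l k => frL ih l k) n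

/-- `zipWith` -/
noncomputable def zwR {α : Type} (A : α → α → α) (l : List α) : List α → List α :=
  List.rec (motive := fun _ => List α → List α) (fun _ => [])
    (fun a _ ih m => List.casesOn (motive := fun _ => List α) m [] (fun b m' => A a b :: ih m')) l

/-- `go` -/
noncomputable def goR {α : Type} (A : α → α → α) (b : α) (l : List α) : α → List α :=
  List.rec (motive := fun _ => α → List α) (fun p => [A p b]) (fun a _ ih p => A (A a a) p :: ih a) l

/-- `stp` -/
noncomputable def stR {α : Type} (A : α → α → α) (l : List α) (b : α) : List α :=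
  List.casesOn (motive := fun _ => List α) l [b] (fun a l' => A a a :: goR A b l' a)

/-- `lft` -/
noncomputable def lfR {α : Type} (A : α → α → α) (l : List α) : List α :=
  List.rec (motive := fun _ => List α → List α) (fun acc => acc)
    (fun b _ ih acc => ih (stR A acc b)) l []

/-- `reverse` -/
noncomputable def rvR {α : Type} (l : List α) : List α :=
  List.rec (motive := fun _ => List α → List α) (fun acc => acc) (fun b _ ih acc => ih (b :: acc)) l []

/-- `map` -/
noncomputable def mpR {α β : Type} (f : α → β) (l : List α) : List β :=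
  List.rec (motive := fun _ => List β) [] (fun a _ ih => f a :: ih) l

/-- `add0` -/
noncomputable def adR (n : ℕ) : P n → P n → P n :=
  Nat.rec (motive := fun n => P n → P n → P n) (fun a b => Int.add a b) (fun _ ih a b => zwR ih a b) n

/-- `spl` -/
noncomputable def spR (r : Bool) (i : ℕ) (n : ℕ) : P n → P n :=
  Nat.rec (motive := fun n => P n → P n) (fun c => c)
    (fun n ih l => Bool.rec (motive := fun _ => List (P n)) (mpR ih l)
      (Bool.rec (motive := fun _ => List (P n)) (lfR (adR n) l) (rvR (lfR (adR n) (rvR l))) r)
      (Nat.beq i n)) n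

lemma frN_eq {β : Type} (n : ℕ) (k : ℕ → β) : frN n k = k n := by
  cases n <;> rfl

lemma frZ_eq {β : Type} (z : ℤ) (k : ℤ → β) : frZ z k = k z := by
  cases z with
  | ofNat a => exact frN_eq a fun a' => k (Int.ofNat a')
  | negSucc a => exact frN_eq a fun a' => k (Int.negSucc a')

lemma frL_eq {α β : Type} (f : α → (α → β) → β) (hf : ∀ a k, f a k = k a) (l : List α) :
    ∀ k : List α → β, frL f l k = k l := by
  induction l with
  | nil => intro k; rfl
  | cons a l ih =>
    intro k
    show (f a fun a' => frL f l fun l' => k (a' :: l')) = _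
    rw [hf, ih]

lemma frP_eq {β : Type} : ∀ (n : ℕ) (p : P n) (k : P n → β), frP n p k = k p
  | 0, p, k => frZ_eq p k
  | n + 1, p, k => frL_eq (frP n) (frP_eq n) p k

lemma zwR_eq {α : Type} (A : α → α → α) (l : List α) : ∀ m, zwR A l m = List.zipWith A l m := by
  induction l with
  | nil => intro m; rfl
  | cons a l ih =>
    intro m
    cases m with
    | nil => rfl
    | cons b m =>
      show A a b :: zwR A l m = _
      rw [ih]
      rfl

lemma goR_eq {α : Type} (A : α → α → α) (b : α) (l : List α) : ∀ p, goR A b l p = go A b p l := by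
  induction l with
  | nil => intro p; rfl
  | cons a l ih =>
    intro p
    show A (A a a) p :: goR A b l a = _
    rw [ih]
    rfl

lemma stR_eq {α : Type} (A : α → α → α) (l : List α) (b : α) : stR A l b = stp A l b := by
  cases l with
  | nil => rfl
  | cons a l =>
    show A a a :: goR A b l a = _
    rw [goR_eq]
    rfl

lemma lfR_eq {α : Type} (A : α → α → α) (l : List α) : lfR A l = lft A l := by
  have h : ∀ (l acc : List α), List.rec (motive := fun _ => List α → List α) (fun acc => acc)
      (fun b _ ih acc => ih (stR A acc b)) l acc = l.foldl (stp A) acc := by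
    intro l
    induction l with
    | nil => intro acc; rfl
    | cons b l ih =>
      intro acc
      show List.rec (motive := fun _ => List α → List α) (fun acc => acc)
        (fun b _ ih acc => ih (stR A acc b)) l (stR A acc b) = _
      rw [ih, stR_eq]
      rfl
  exact h l []

lemma rvR_eq {α : Type} (l : List α) : rvR l = l.reverse := by
  have h : ∀ (l acc : List α), List.rec (motive := fun _ => List α → List α) (fun acc => acc)
      (fun b _ ih acc => ih (b :: acc)) l acc = l.reverse ++ acc := by
    intro l
    induction l with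
    | nil => intro acc; rfl
    | cons b l ih =>
      intro acc
      show List.rec (motive := fun _ => List α → List α) (fun acc => acc)
        (fun b _ ih acc => ih (b :: acc)) l (b :: acc) = _
      rw [ih]
      simp
  have := h l []
  rw [List.append_nil] at this
  exact this

lemma mpR_eq {α β : Type} (f : α → β) (l : List α) : mpR f l = l.map f := by
  induction l with
  | nil => rfl
  | cons a l ih =>
    show f a :: mpR f l = _
    rw [ih]
    rfl

lemma adR_eq : ∀ n, adR n = add0 n
  | 0 => rfl
  | n + 1 => by
    have h : ∀ a b : List (P n), zwR (adR n) a b = List.zipWith (add0 n) a b := fun a b => by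
      rw [zwR_eq, adR_eq n]
    funext a b
    exact h a b

lemma spR_eq (r : Bool) (i : ℕ) : ∀ n, spR r i n = spl r i n
  | 0 => rfl
  | n + 1 => by
    have h : ∀ l : List (P n), Bool.rec (motive := fun _ => List (P n)) (mpR (spR r i n) l)
      (Bool.rec (motive := fun _ => List (P n)) (lfR (adR n) l) (rvR (lfR (adR n) (rvR l))) r)
      (Nat.beq i n) = cond (Nat.beq i n) (cond r (rgt (add0 n) l) (lft (add0 n) l))
        (List.map (spl r i n) l) := fun l => by
      rw [mpR_eq, spR_eq r i n, adR_eq n, lfR_eq, lfR_eq, rvR_eq, rvR_eq]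
      cases Nat.beq i n
      · rfl
      · cases r <;> rfl
    funext l
    exact h l

/-- `run` with forced evaluation -/
noncomputable def runF (n m : ℕ) : ℕ → ℕ → List (List (P n)) → Bool
  | 0, _, st => List.isEmpty st
  | _ + 1, _, [] => true
  | f + 1, code, L :: st =>
    cond (Nat.blt (code % 32) 8)
      (frL (frP n) (mpR (spR false (code % 32) n) L) fun A =>
        frL (frP n) (mpR (spR true (code % 32) n) L) fun B =>
          frN (code / 32) fun c' => runF n m f c' (A :: B :: st))
      (and (cls n m (code % 32 - 8) L) (frN (code / 32) fun c' => runF n m f c' st))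

lemma runF_eq (n m : ℕ) : ∀ (f code : ℕ) (st : List (List (P n))), runF n m f code st = run n m f code st
  | 0, _, _ => rfl
  | _ + 1, _, [] => rfl
  | f + 1, code, L :: st => by
    rw [runF, run, frL_eq (frP n) (frP_eq n), frL_eq (frP n) (frP_eq n), frN_eq, frN_eq, runF_eq,
      runF_eq, mpR_eq, mpR_eq, spR_eq, spR_eq]

/-- the whole check, fast version -/
noncomputable def chkF (n D : ℕ) (lo hi : List ℤ) (F G : List E) (fuel code : ℕ) : Bool :=
  and (List.all (F ++ G) (fun e => and (e.ok n) (wfb (fun i => e.dg i) n (e.tu n D lo hi))))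
    (frL (frP n) (List.map (fun e => e.tu n D lo hi) (F ++ G)) fun L =>
      runF n F.length fuel code [L])

lemma chkF_eq (n D : ℕ) (lo hi : List ℤ) (F G : List E) (fuel code : ℕ) :
    chkF n D lo hi F G fuel code = chk n D lo hi F G fuel code := by
  rw [chkF, chk, frL_eq (frP n) (frP_eq n), runF_eq]

/-- `sound` for the fast version -/
theorem soundF {n D : ℕ} {lo hi : List ℤ} {F G : List E} {fuel code : ℕ}
    (h : chkF n D lo hi F G fuel code = true) (hD : 0 < D) (X : ℕ → ℝ)
    (hX : ∀ i, i < n → ((lo.getD i 0 : ℤ) : ℝ) ≤ D * X i ∧ D * X i ≤ ((hi.getD i 0 : ℤ) : ℝ)) :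
    (∃ f ∈ F, 0 ≤ f.ev X) ∨ ∃ f ∈ G, 0 < f.ev X :=
  sound ((chkF_eq n D lo hi F G fuel code).symm.trans h) hD X hX

end BoxP

end Pool.Agent.Lib.MP_f04ccf_co
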