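import Mathlib

/-!
MP_f04ccf_co, TEXT D, regime L: **the bridge between the integer tests of a row and real inequalities** (pure).

Letters: `R`, `A`, `c = R - A`, `d`, `H` the hosted units which are not Konig pairs, `e` units of the row.

* `tz_real`: tzN at all integers of `[e0, e1]` gives it at every real point of `[e0, e1]` up to `1/2`;
* `hosted_le`: `(T)` gives `H ≤ 2 d` and `c H ≤ R d` (`R ≤ 2 c`, `H ≤ c`);
* `small_root`: a filter `p (K - p) ≤ N` for all integers `p0 ≤ p ≤ E`, false at the middle, gives `2 E ≤ K`;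
* `sum_f1`, `f1_or_f2`, `f1_f2_f3`: the row sum from the cell claims (F1), (F2'), (F3).
-/

set_option autoImplicit false

namespace Pool.Agent.Lib.MP_f04ccf_co

open Finset

section BranchL

/-- **tzN at the integers gives tzN at the reals up to `1/2`** -/
theorem tz_real {R A d : ℝ} {e0 e1 : ℤ}
    (h : ∀ e : ℤ, e0 ≤ e → e ≤ e1 → (R - 2 * e) * (e - d) ≤ A * e)
    {x : ℝ} (h0 : (e0 : ℝ) ≤ x) (h1 : x ≤ e1) : (R - 2 * x) * (x - d) ≤ A * x + 1 / 2 := by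
  have a1 : (⌊x⌋ : ℝ) ≤ x := Int.floor_le x
  have a2 : x < (⌊x⌋ : ℝ) + 1 := Int.lt_floor_add_one x
  have a3 : e0 ≤ ⌊x⌋ := Int.le_floor.2 h0
  have a4 : ⌊x⌋ ≤ e1 := by
    have : (⌊x⌋ : ℝ) ≤ (e1 : ℝ) := a1.trans h1
    exact_mod_cast this
  have b1 := h ⌊x⌋ a3 a4
  by_cases hx : (⌊x⌋ : ℝ) = x
  · rw [hx] at b1
    linarith
  · have a5 : (⌊x⌋ : ℝ) < x := lt_of_le_of_ne a1 hx
    have a6 : ⌊x⌋ + 1 ≤ e1 := by
      have h2 : (⌊x⌋ : ℝ) < (e1 : ℝ) := lt_of_lt_of_le a5 h1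
      have h3 : ⌊x⌋ < e1 := by exact_mod_cast h2
      omega
    have b2 := h (⌊x⌋ + 1) (by omega) a6
    push_cast at b2
    generalize (⌊x⌋ : ℝ) = n at *
    -- x = n + s
    have c1 : 0 ≤ (n + 1 - x) * (A * n - (R - 2 * n) * (n - d)) :=
      mul_nonneg (by linarith) (by linarith)
    have c2 : 0 ≤ (x - n) * (A * (n + 1) - (R - 2 * (n + 1)) * (n + 1 - d)) :=
      mul_nonneg (by linarith) (by linarith)
    nlinarith [sq_nonneg (x - n - 1 / 2)]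

/-- **the hosted units which are not Konig pairs** -/
theorem hosted_le {R c d H : ℝ} (hd : 0 ≤ d) (hH0 : 0 ≤ H) (hc : R ≤ 2 * c) (hHc : H ≤ c)
    (hH1 : H = 0 ∨ 1 ≤ H) (hT : c * H - H * (H - 1) / 2 ≤ (R - H) * d) (hc0 : 0 < c) :
    c * H ≤ R * d ∧ H ≤ 2 * d := by
  have h1 : H ≤ 2 * d := by
    by_contra h2
    push Not at h2
    rcases hH1 with h3 | h3
    · linarith
    · -- `H (c + d - (H - 1) / 2) ≤ R d ≤ 2 c d`
      nlinarith [mul_nonneg hH0 hd, mul_nonneg (sub_nonneg.2 h2.le) (sub_nonneg.2 hHc),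
        mul_nonneg hH0 (sub_nonneg.2 hHc), mul_nonneg hd hc0.le, mul_pos hc0 (sub_pos.2 h2)]
  refine ⟨?_, h1⟩
  nlinarith [mul_nonneg hH0 (sub_nonneg.2 h1)]

/-- a filter `p (K - p) ≤ N` for all `p0 ≤ p ≤ E` which is false at the middle bounds `E` by `K / 2` -/
theorem small_root {K N p0 E : ℤ} (h : ∀ p, p0 ≤ p → p ≤ E → p * (K - p) ≤ N)
    (h0 : 2 * p0 ≤ K) (hm : 4 * N + 1 < K ^ 2) : 2 * E < K := by
  by_contra h1
  push Not at h1
  have h2 : p0 ≤ K / 2 := by omega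
  have h3 : K / 2 ≤ E := by omega
  have h4 := h (K / 2) h2 h3
  have h5 : K = 2 * (K / 2) ∨ K = 2 * (K / 2) + 1 := by omega
  generalize K / 2 = a at *
  rcases h5 with h5 | h5
  · subst h5
    nlinarith
  · subst h5
    nlinarith

variable {P : Finset ℕ} {B E u : ℕ → ℝ}

/-- **(F1) in all cells** -/
theorem sum_f1 {A c H T al z h : ℝ} (hmass : ∑ y ∈ P, B y + h ≤ c) (hH : ∑ y ∈ P, u y + h = H)
    (hal : 0 ≤ al) (hz : 0 ≤ z) (hh : 0 ≤ h) (hT : al * (c - H) + z * H ≤ T)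
    (hcell : ∀ y ∈ P, B y / (A + B y) * E y ≤ al * (B y - u y) + z * u y) :
    ∑ y ∈ P, B y / (A + B y) * E y ≤ T := by
  refine (sum_le_sum hcell).trans ?_
  rw [sum_add_distrib, ← mul_sum, ← mul_sum, sum_sub_distrib]
  have h1 : al * (∑ y ∈ P, B y - ∑ y ∈ P, u y) ≤ al * (c - H) :=
    mul_le_mul_of_nonneg_left (by linarith) hal
  have h2 : z * ∑ y ∈ P, u y ≤ z * H := mul_le_mul_of_nonneg_left (by linarith) hz
  linarith

/-- **(F1) in all cells, or (F2') in one of them** -/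
theorem f1_or_f2 {A c H T al z h : ℝ} (hA : 0 < A) (hB : ∀ y ∈ P, 0 ≤ B y)
    (hE : ∀ y ∈ P, 0 ≤ E y) (hmass : ∑ y ∈ P, B y + h ≤ c) (hH : ∑ y ∈ P, u y + h = H)
    (hal : 0 ≤ al) (hz : 0 ≤ z) (hh : 0 ≤ h) (hT : al * (c - H) + z * H ≤ T)
    (hcell : ∀ y ∈ P, B y / (A + B y) * E y ≤ al * (B y - u y) + z * u y
      ∨ ∃ X, (∀ l ∈ P, B l ≤ X) ∧ X / (A + X) * ∑ l ∈ P, E l ≤ T) :
    ∑ y ∈ P, B y / (A + B y) * E y ≤ T := by
  by_cases h1 : ∀ y ∈ P, B y / (A + B y) * E y ≤ al * (B y - u y) + z * u y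
  · exact sum_f1 hmass hH hal hz hh hT h1
  · push Not at h1
    obtain ⟨y, hy, h2⟩ := h1
    rcases hcell y hy with h3 | ⟨X, h3, h4⟩
    · exact absurd h3 (not_le.2 h2)
    · refine le_trans ?_ h4
      rw [mul_sum]
      refine sum_le_sum fun l hl => mul_le_mul_of_nonneg_right ?_ (hE l hl)
      have b1 := hB l hl
      have b2 := h3 l hl
      rw [div_le_div_iff₀ (by linarith) (by linarith)]
      nlinarith

/-- **(F1), (F2') or (F3)**: the cells of `Q` are taken out with their own bounds `β` -/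
theorem f1_f2_f3 {A c H T z h : ℝ} (hA : 0 < A) (hB : ∀ y ∈ P, 0 ≤ B y)
    (hE : ∀ y ∈ P, 0 ≤ E y) (hmass : ∑ y ∈ P, B y + h ≤ c) (hH : ∑ y ∈ P, u y + h = H)
    (hz : 0 ≤ z) (hh : 0 ≤ h)
    (hrow : (∃ X, (∀ l ∈ P, B l ≤ X) ∧ X / (A + X) * ∑ l ∈ P, E l ≤ T)
      ∨ ∃ Q ⊆ P, ∃ β : ℕ → ℝ, ∃ al : ℝ, 0 ≤ al ∧
        (∀ y ∈ Q, B y / (A + B y) * E y ≤ β y + z * u y) ∧
        (∀ y ∈ P \ Q, B y / (A + B y) * E y ≤ al * (B y - u y) + z * u y) ∧
        ∑ y ∈ Q, β y + al * (c - H - ∑ y ∈ Q, (B y - u y)) + z * H ≤ T) :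
    ∑ y ∈ P, B y / (A + B y) * E y ≤ T := by
  rcases hrow with ⟨X, h3, h4⟩ | ⟨Q, hQ, β, al, hal, h1, h2, h5⟩
  · refine le_trans ?_ h4
    rw [mul_sum]
    refine sum_le_sum fun l hl => mul_le_mul_of_nonneg_right ?_ (hE l hl)
    have b1 := hB l hl
    have b2 := h3 l hl
    rw [div_le_div_iff₀ (by linarith) (by linarith)]
    nlinarith
  · rw [← sum_sdiff hQ]
    have e1 := sum_le_sum h2
    have e2 := sum_le_sum h1
    rw [sum_add_distrib, ← mul_sum, ← mul_sum, sum_sub_distrib] at e1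
    rw [sum_add_distrib, ← mul_sum] at e2
    have e3 := sum_sdiff hQ (f := B)
    have e4 := sum_sdiff hQ (f := u)
    rw [sum_sub_distrib] at h5
    have h6 : al * (∑ y ∈ P \ Q, B y - ∑ y ∈ P \ Q, u y)
        ≤ al * (c - H - (∑ y ∈ Q, B y - ∑ y ∈ Q, u y)) :=
      mul_le_mul_of_nonneg_left (by linarith) hal
    have h7 : z * (∑ y ∈ P \ Q, u y + ∑ y ∈ Q, u y) ≤ z * H :=
      mul_le_mul_of_nonneg_left (by linarith) hz
    linarith

end BranchL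

end Pool.Agent.Lib.MP_f04ccf_co
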