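import Pool.Agent.Lib.MP_f04ccf_co.M.BranchL

/-!
MP_f04ccf_co, TEXT D, regime L: **the row sum with the rectangles as a credit shared by mass** (helper4's F1-EX, pure).

* `ex_sum`: the credits `∑_{o ≠ y} B y / (c - B o) * X o` sum to at most `∑ X o`;
* `f1ex`: cell claims `v + X ≤ al (B - u) + ze u + ga e + credits` give the row;
* `f1ex_or_f2`: F1-EX in all cells, or (F2') if one of them fails.
-/

set_option autoImplicit false

namespace Pool.Agent.Lib.MP_f04ccf_co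

open Finset

section BranchX

variable {P : Finset ℕ} {B u v e X : ℕ → ℝ}

/-- **the credits are paid by their own cells** -/
theorem ex_sum {c : ℝ} (hmass : ∑ y ∈ P, B y ≤ c) (hBc : ∀ y ∈ P, B y < c)
    (hX : ∀ y ∈ P, 0 ≤ X y) :
    ∑ y ∈ P, ∑ o ∈ P.erase y, B y / (c - B o) * X o ≤ ∑ o ∈ P, X o := by
  have h1 : ∑ y ∈ P, ∑ o ∈ P.erase y, B y / (c - B o) * X o
      = ∑ o ∈ P, ∑ y ∈ P.erase o, B y / (c - B o) * X o := by
    have h2 : ∀ F : ℕ → ℕ → ℝ, ∑ y ∈ P, ∑ o ∈ P.erase y, F y o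
        = ∑ y ∈ P, ∑ o ∈ P, if o ≠ y then F y o else 0 := by
      intro F
      refine sum_congr rfl fun y _ => ?_
      rw [← sum_filter, filter_ne' P y]
    rw [h2, h2 fun o y => B y / (c - B o) * X o, sum_comm]
    refine sum_congr rfl fun o _ => sum_congr rfl fun y _ => ?_
    by_cases h3 : o = y
    · rw [if_neg (by simpa using h3), if_neg (by simpa using h3.symm)]
    · rw [if_pos h3, if_pos (Ne.symm h3)]
  rw [h1]
  refine sum_le_sum fun o ho => ?_
  have h3 : ∑ y ∈ P.erase o, B y / (c - B o) * X o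
      = (∑ y ∈ P.erase o, B y) * (X o / (c - B o)) := by
    rw [sum_mul]
    exact sum_congr rfl fun y _ => by ring
  have h4 := add_sum_erase P B ho
  have h5 : 0 < c - B o := by linarith [hBc o ho]
  have h6 : 0 ≤ X o / (c - B o) := div_nonneg (hX o ho) h5.le
  rw [h3]
  calc (∑ y ∈ P.erase o, B y) * (X o / (c - B o))
      ≤ (c - B o) * (X o / (c - B o)) := mul_le_mul_of_nonneg_right (by linarith) h6
    _ = X o := by field_simp

/-- **F1-EX in all cells** -/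
theorem f1ex {c H T al ze ga h f : ℝ} (hmass : ∑ y ∈ P, B y + h ≤ c) (hBc : ∀ y ∈ P, B y < c)
    (hX : ∀ y ∈ P, 0 ≤ X y) (hH : ∑ y ∈ P, u y + h = H) (hf : ∑ y ∈ P, e y ≤ f)
    (hal : 0 ≤ al) (hze : 0 ≤ ze) (hga : 0 ≤ ga) (hh : 0 ≤ h)
    (hT : al * (c - H) + ze * H + ga * f ≤ T)
    (hcell : ∀ y ∈ P, v y + X y ≤ al * (B y - u y) + ze * u y + ga * e y
      + ∑ o ∈ P.erase y, B y / (c - B o) * X o) :
    ∑ y ∈ P, v y ≤ T := by
  have h1 := sum_le_sum hcell
  rw [sum_add_distrib, sum_add_distrib, sum_add_distrib, sum_add_distrib, ← mul_sum, ← mul_sum,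
    ← mul_sum, sum_sub_distrib] at h1
  have h2 := ex_sum (P := P) (B := B) (X := X) (c := c) (by linarith) hBc hX
  have h3 : al * (∑ y ∈ P, B y - ∑ y ∈ P, u y) ≤ al * (c - H) :=
    mul_le_mul_of_nonneg_left (by linarith) hal
  have h4 : ze * ∑ y ∈ P, u y ≤ ze * H := mul_le_mul_of_nonneg_left (by linarith) hze
  have h5 : ga * ∑ y ∈ P, e y ≤ ga * f := mul_le_mul_of_nonneg_left hf hga
  linarith

/-- **F1-EX in all cells, or (F2')**: `S` the shares of the row (any split over the cells), `T` the budget -/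
theorem f1ex_or_f2 {c H S T al ze ga h f : ℝ} (hmass : ∑ y ∈ P, B y + h ≤ c)
    (hBc : ∀ y ∈ P, B y < c) (hX : ∀ y ∈ P, 0 ≤ X y) (hH : ∑ y ∈ P, u y + h = H)
    (hf : ∑ y ∈ P, e y ≤ f) (hal : 0 ≤ al) (hze : 0 ≤ ze) (hga : 0 ≤ ga) (hh : 0 ≤ h)
    (hT : al * (c - H) + ze * H + ga * f ≤ T) (hS : S ≤ ∑ y ∈ P, v y)
    (hcell : ∀ y ∈ P, v y + X y ≤ al * (B y - u y) + ze * u y + ga * e y
      + ∑ o ∈ P.erase y, B y / (c - B o) * X o ∨ S ≤ T) : S ≤ T := by
  by_cases h1 : ∀ y ∈ P, v y + X y ≤ al * (B y - u y) + ze * u y + ga * e y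
      + ∑ o ∈ P.erase y, B y / (c - B o) * X o
  · exact hS.trans (f1ex hmass hBc hX hH hf hal hze hga hh hT h1)
  · push Not at h1
    obtain ⟨y, hy, h2⟩ := h1
    rcases hcell y hy with h3 | h3
    · exact absurd h3 (not_le.2 h2)
    · exact h3

end BranchX

end Pool.Agent.Lib.MP_f04ccf_co
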