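import Pool.Agent.Lib.MP_f04ccf_co.M.PCon

/-!
MP_f04ccf_co, TEXT D, middle range: **budgets by a table**.  `Kern.bud dl Q k`: the maximum of
`∑ dl[x]` over the lists of at least `k` numbers `x` with `∑ (x + 1) ≤ Q`, computed; `Kern.bud_le`.
`PCon.bud_lt`: the budgets `dl[t z] / N` of the rows of `PCon` have sum less than one.
-/

set_option autoImplicit false

namespace Pool.Agent.Lib.MP_f04ccf_co

open Finset

attribute [local instance] Classical.propDecidable

namespace Kern

/-- the largest sum of two entries at the same place -/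
def zmx : List ℕ → List ℕ → ℕ
  | [], _ => 0
  | _ :: _, [] => 0
  | a :: as, b :: bs => Nat.add (zmx as bs) (Nat.sub (Nat.add a b) (zmx as bs))

/-- the values for the capacities `c, …, 0`, any number of rows -/
def kdp (dl : List ℕ) : ℕ → List ℕ
  | 0 => [0]
  | c + 1 => zmx dl (kdp dl c) :: kdp dl c

/-- one more row -/
def kst (dl : List ℕ) : List ℕ → List ℕ
  | [] => []
  | _ :: l => zmx dl l :: kst dl l

/-- at least `k` rows -/
def kit (dl : List ℕ) (Q : ℕ) : ℕ → List ℕ
  | 0 => kdp dl Q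
  | k + 1 => kst dl (kit dl Q k)

/-- the maximum of the budget -/
def bud (dl : List ℕ) (Q k : ℕ) : ℕ := (kit dl Q k).headD 0

lemma zmx_ge : ∀ (dl l : List ℕ) (i : ℕ), i < dl.length → i < l.length →
    dl.getD i 0 + l.getD i 0 ≤ zmx dl l
  | [], _, i, h, _ => absurd h (by simp)
  | _ :: _, [], i, _, h => absurd h (by simp)
  | a :: as, b :: bs, i, h1, h2 => by
    show (a :: as).getD i 0 + (b :: bs).getD i 0
      ≤ zmx as bs + ((a + b) - zmx as bs)
    cases i with
    | zero =>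
      show a + b ≤ _
      omega
    | succ i =>
      have h3 := zmx_ge as bs i (by simpa using h1) (by simpa using h2)
      show as.getD i 0 + bs.getD i 0 ≤ _
      omega

lemma kdp_length (dl : List ℕ) : ∀ c, (kdp dl c).length = c + 1
  | 0 => rfl
  | c + 1 => by
    show (kdp dl c).length + 1 = c + 1 + 1
    rw [kdp_length dl c]

lemma kst_length (dl : List ℕ) : ∀ l : List ℕ, (kst dl l).length = l.length
  | [] => rfl
  | _ :: l => by
    show (kst dl l).length + 1 = l.length + 1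
    rw [kst_length dl l]

lemma kit_length (dl : List ℕ) (Q : ℕ) : ∀ k, (kit dl Q k).length = Q + 1
  | 0 => kdp_length dl Q
  | k + 1 => by
    show (kst dl (kit dl Q k)).length = Q + 1
    rw [kst_length, kit_length dl Q k]

/-- the entry for the capacity `c` of a list of the capacities `Q, …, 0` -/
lemma kdp_ge (dl : List ℕ) : ∀ (Q j x : ℕ), x < dl.length → j + x + 1 ≤ Q →
    dl.getD x 0 + (kdp dl Q).getD (j + x + 1) 0 ≤ (kdp dl Q).getD j 0
  | 0, _, _, _, h => absurd h (by omega)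
  | Q + 1, 0, x, hx, h => by
    show dl.getD x 0 + (zmx dl (kdp dl Q) :: kdp dl Q).getD (0 + x + 1) 0 ≤ zmx dl (kdp dl Q)
    have h1 := zmx_ge dl (kdp dl Q) x hx (by rw [kdp_length]; omega)
    have h2 : (zmx dl (kdp dl Q) :: kdp dl Q).getD (0 + x + 1) 0 = (kdp dl Q).getD x 0 := by
      rw [Nat.zero_add]
      rfl
    rw [h2]
    exact h1
  | Q + 1, j + 1, x, hx, h => by
    have h1 := kdp_ge dl Q j x hx (by omega)
    have h2 : (kdp dl (Q + 1)).getD (j + 1 + x + 1) 0 = (kdp dl Q).getD (j + x + 1) 0 := by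
      rw [show j + 1 + x + 1 = (j + x + 1) + 1 by omega]
      rfl
    rw [h2]
    exact h1

lemma kst_ge (dl : List ℕ) : ∀ (l : List ℕ) (j x : ℕ), x < dl.length → j + x + 1 < l.length →
    dl.getD x 0 + l.getD (j + x + 1) 0 ≤ (kst dl l).getD j 0
  | [], _, _, _, h => absurd h (by simp)
  | y :: l, 0, x, hx, h => by
    show dl.getD x 0 + (y :: l).getD (0 + x + 1) 0 ≤ zmx dl l
    have h2 : (y :: l).getD (0 + x + 1) 0 = l.getD x 0 := by
      rw [Nat.zero_add]
      rfl
    rw [h2]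
    exact zmx_ge dl l x hx (by simpa using h)
  | y :: l, j + 1, x, hx, h => by
    have h1 := kst_ge dl l j x hx (by
      have h3 : (y :: l).length = l.length + 1 := rfl
      omega)
    have h2 : (y :: l).getD (j + 1 + x + 1) 0 = l.getD (j + x + 1) 0 := by
      rw [show j + 1 + x + 1 = (j + x + 1) + 1 by omega]
      rfl
    rw [h2]
    exact h1

/-- **the maximum of the budget** -/
theorem bud_le (dl : List ℕ) (Q : ℕ) (hl : Q ≤ dl.length) {S : Finset ℕ} {τ : ℕ → ℕ} :
    ∀ (k : ℕ), k ≤ S.card → ∀ j, j + ∑ z ∈ S, (τ z + 1) ≤ Q →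
      ∑ z ∈ S, dl.getD (τ z) 0 ≤ (kit dl Q k).getD j 0 := by
  induction S using Finset.induction_on with
  | empty =>
    intro k hk j _
    rw [sum_empty]
    exact Nat.zero_le _
  | insert z S hz ih =>
    intro k hk j hj
    rw [sum_insert hz] at hj ⊢
    rw [card_insert_of_notMem hz] at hk
    cases k with
    | zero =>
      have h1 := ih 0 (Nat.zero_le _) (j + τ z + 1) (by omega)
      have h2 := kdp_ge dl Q j (τ z) (by omega) (by omega)
      show _ ≤ (kdp dl Q).getD j 0
      exact (Nat.add_le_add_left h1 _).trans h2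
    | succ k =>
      have h1 := ih k (by omega) (j + τ z + 1) (by omega)
      have h2 := kst_ge dl (kit dl Q k) j (τ z) (by omega) (by rw [kit_length]; omega)
      exact (Nat.add_le_add_left h1 _).trans h2

end Kern

section Bud

variable {ι : Type*} {R : ℤ} {n : ℕ} {t s mu : ℕ → ℤ} {U : Finset ι} {ho : ι → ℕ} {vl : ι → ℤ}
  {kp mn : ℕ → ι → ℤ} {pc ar : ι → ℤ} {be kq NN sg : ℕ → ℕ → ℤ} {nu : ℕ → ι → ℤ}

/-- **the budgets `dl[t z] / N` have sum less than one** -/
theorem PCon.bud_lt (H : PCon R n t s mu U ho vl kp mn pc ar be kq NN sg nu) {Q N : ℕ}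
    (hR : R = Q) {dl : List ℕ} (hl : Q ≤ dl.length) (hk : Nat.blt (Kern.bud dl Q 5) N = true)
    {L : Finset ℕ} (hL : L ⊆ range n) :
    ∑ z ∈ L, ((dl.getD (t z).toNat 0 : ℕ) : ℝ) / N < 1 := by
  have h1 : ∀ z ∈ range n, t z = ((t z).toNat : ℤ) := fun z hz =>
    (Int.toNat_of_nonneg (H.t0 z (mem_range.1 hz))).symm
  have h2 : ∑ z ∈ range n, ((t z).toNat + 1) ≤ Q := by
    have h3 : ((∑ z ∈ range n, ((t z).toNat + 1) : ℕ) : ℤ) = ∑ z ∈ range n, (t z + 1) := by
      rw [Nat.cast_sum]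
      exact sum_congr rfl fun z hz => by rw [Nat.cast_add, ← h1 z hz, Nat.cast_one]
    have h4 : ((∑ z ∈ range n, ((t z).toNat + 1) : ℕ) : ℤ) ≤ Q := by
      rw [h3, ← hR]
      exact H.tsum
    exact_mod_cast h4
  have h3 := Kern.bud_le dl Q hl (S := range n) (τ := fun z => (t z).toNat) 5
    (by rw [card_range]; exact H.n5) 0 (by omega)
  have h4 : Kern.bud dl Q 5 = (Kern.kit dl Q 5).getD 0 0 := by
    unfold Kern.bud
    cases Kern.kit dl Q 5 <;> rfl
  rw [← h4] at h3
  rw [Nat.blt_eq] at hk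
  have h5 : ∑ z ∈ L, dl.getD (t z).toNat 0 ≤ ∑ z ∈ range n, dl.getD (t z).toNat 0 :=
    sum_le_sum_of_subset hL
  have h6 : ∑ z ∈ L, dl.getD (t z).toNat 0 < N := lt_of_le_of_lt (h5.trans h3) hk
  have h7 : (0 : ℝ) < N := by
    have : 0 < N := by omega
    exact_mod_cast this
  rw [← sum_div, div_lt_one h7, ← Nat.cast_sum]
  exact_mod_cast h6

end Bud

end Pool.Agent.Lib.MP_f04ccf_co
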