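import Pool.Agent.Lib.MP_f04ccf_co.M.TabF

/-!
MP_f04ccf_co, TEXT D, middle range: **budgets which depend on the two largest other rows** (83's 18852).

The rows are sorted (`anti`): `A 0 ≥ A 1 ≥ A 2 ≥ ..`.  The two largest rows other than `z` are `y1W z` (`1` for
`z = 0`, else `0`) and `y2W z` (`2` for `z ≤ 1`, else `1`).  Budget table `V A M1 M2` (numerators over `N`).

* `Kern.bud_le'`: 99's knapsack for a list which is at least as long as the rows used (cap of the rows);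
* `Kern.wchk V Q N`: for all `A0 ≥ A1 ≥ A2` with `A0 + A1 + A2 + 2 ≤ Q`:
  `V A0 A1 A2 + V A1 A0 A2 + V A2 A0 A1 + (at least two more rows of at most A2, values V · A0 A1) < N`;
* `PCon.wbud_lt`: then the budgets `V (A z) (A (y1W z)) (A (y2W z)) / N` have sum less than one;
* `PCon.y1_facts`, `PCon.y2_facts`: what the two rows are; `LevC.close_FW`: the closing of TABLE F.
-/

set_option autoImplicit false

namespace Pool.Agent.Lib.MP_f04ccf_co

open Finset

attribute [local instance] Classical.propDecidable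

namespace Kern

/-- **the maximum of the budget**, all rows used are in the list -/
theorem bud_le' (dl : List ℕ) (Q : ℕ) {S : Finset ℕ} {τ : ℕ → ℕ} (hτ : ∀ z ∈ S, τ z < dl.length) :
    ∀ (k : ℕ), k ≤ S.card → ∀ j, j + ∑ z ∈ S, (τ z + 1) ≤ Q →
      ∑ z ∈ S, dl.getD (τ z) 0 ≤ (kit dl Q k).getD j 0 := by
  induction S using Finset.induction_on with
  | empty =>
    intro k hk j _
    rw [sum_empty]
    exact Nat.zero_le _
  | insert z S hz ih =>
    intro k hk j hj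
    rw [sum_insert hz] at hj ⊢
    rw [card_insert_of_notMem hz] at hk
    have hz' := hτ z (mem_insert_self z S)
    have ih' := ih fun x hx => hτ x (mem_insert_of_mem hx)
    cases k with
    | zero =>
      have h1 := ih' 0 (Nat.zero_le _) (j + τ z + 1) (by omega)
      have h2 := kdp_ge dl Q j (τ z) hz' (by omega)
      show _ ≤ (kdp dl Q).getD j 0
      exact (Nat.add_le_add_left h1 _).trans h2
    | succ k =>
      have h1 := ih' k (by omega) (j + τ z + 1) (by omega)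
      have h2 := kst_ge dl (kit dl Q k) j (τ z) hz' (by rw [kit_length]; omega)
      exact (Nat.add_le_add_left h1 _).trans h2

/-- the list of the values `V 1 a b, …, V k a b` -/
def vls (V : ℕ → ℕ → ℕ → ℕ) (a b : ℕ) : ℕ → ℕ → List ℕ
  | _, 0 => []
  | i, k + 1 => V (i + 1) a b :: vls V a b (i + 1) k

lemma vls_length (V : ℕ → ℕ → ℕ → ℕ) (a b : ℕ) : ∀ i k, (vls V a b i k).length = k
  | _, 0 => rfl
  | i, k + 1 => by
    show (vls V a b (i + 1) k).length + 1 = k + 1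
    rw [vls_length V a b (i + 1) k]

lemma vls_get (V : ℕ → ℕ → ℕ → ℕ) (a b : ℕ) : ∀ i k x, x < k →
    (vls V a b i k).getD x 0 = V (i + x + 1) a b
  | _, 0, x, h => absurd h (Nat.not_lt_zero x)
  | i, k + 1, 0, _ => rfl
  | i, k + 1, x + 1, h => by
    show (vls V a b (i + 1) k).getD x 0 = V (i + (x + 1) + 1) a b
    rw [vls_get V a b (i + 1) k x (by omega)]
    congr 1
    omega

/-- one world `A0 ≥ A1 ≥ A2` -/
def wone (V : ℕ → ℕ → ℕ → ℕ) (Q N a0 a1 a2 : ℕ) : Bool :=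
  Nat.blt (Q) (a0 + a1 + a2 + 2) ||
  Nat.blt (V a0 a1 a2 + V a1 a0 a2 + V a2 a0 a1
    + (kit (vls V a0 a1 0 a2) (Q - a0 - a1 - a2) 2).headD 0) N

/-- `G 1, …, G k` hold -/
def lpW (G : ℕ → Bool) : ℕ → Bool
  | 0 => true
  | k + 1 => bif G (k + 1) then lpW G k else false

lemma lpW_sound {G : ℕ → Bool} : ∀ {k : ℕ}, lpW G k = true → ∀ i, 1 ≤ i → i ≤ k → G i = true := by
  intro k
  induction k with
  | zero =>
    intro _ i h1 h2
    omega
  | succ k ih =>
    intro h i h3 hi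
    unfold lpW at h
    rcases h1 : G (k + 1) with _ | _
    · rw [h1] at h
      exact absurd h (by simp)
    · rw [h1] at h
      rcases Nat.lt_or_ge k i with h2 | h2
      · rw [show i = k + 1 by omega]
        exact h1
      · exact ih h i h3 h2

/-- **the check of all worlds** -/
def wchk (V : ℕ → ℕ → ℕ → ℕ) (Q N : ℕ) : Bool :=
  lpW (fun a0 => lpW (fun a1 => lpW (fun a2 => wone V Q N a0 a1 a2) a1) a0) Q

lemma wchk_sound {V : ℕ → ℕ → ℕ → ℕ} {Q N : ℕ} (h : wchk V Q N = true) {a0 a1 a2 : ℕ}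
    (h2 : 1 ≤ a2) (h21 : a2 ≤ a1) (h10 : a1 ≤ a0) (hQ : a0 + a1 + a2 + 2 ≤ Q) :
    V a0 a1 a2 + V a1 a0 a2 + V a2 a0 a1
      + (kit (vls V a0 a1 0 a2) (Q - a0 - a1 - a2) 2).headD 0 < N := by
  have h3 : wone V Q N a0 a1 a2 = true :=
    lpW_sound (G := fun a2 => wone V Q N a0 a1 a2) (lpW_sound (G := fun a1 =>
      lpW (fun a2 => wone V Q N a0 a1 a2) a1) (lpW_sound h a0 (by omega) (by omega)) a1
      (by omega) h10) a2 h2 h21
  unfold wone at h3
  rw [Bool.or_eq_true] at h3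
  rcases h3 with h3 | h3
  · unfold Nat.blt at h3
    have := Nat.le_of_ble_eq_true h3
    omega
  · unfold Nat.blt at h3
    exact Nat.le_of_ble_eq_true h3

end Kern

/-- the largest other row -/
def y1W (z : ℕ) : ℕ := if z = 0 then 1 else 0

/-- the second largest other row -/
def y2W (z : ℕ) : ℕ := if z ≤ 1 then 2 else 1

section BudW

variable {ι : Type*} {R : ℤ} {n : ℕ} {t s mu : ℕ → ℤ} {U : Finset ι} {ho : ι → ℕ} {vl : ι → ℤ}
  {kp mn : ℕ → ι → ℤ} {pc ar : ι → ℤ} {be kq NN sg : ℕ → ℕ → ℤ} {nu : ℕ → ι → ℤ}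
  {φ : ι → ℕ → ℤ} {g : ℕ → ι → ℕ} {f : ι → ℕ} {W : ℕ → ℝ}

/-- **the largest other row** -/
lemma PCon.y1_facts (H : PCon R n t s mu U ho vl kp mn pc ar be kq NN sg nu) {z : ℕ} :
    y1W z < n ∧ y1W z ≠ z ∧ ∀ y < n, y ≠ z → t y ≤ t (y1W z) := by
  have hn := H.n5
  unfold y1W
  by_cases h : z = 0
  · rw [if_pos h, h]
    exact ⟨by omega, by omega, fun y hy hyz => H.anti 1 y (by omega) hy⟩
  · rw [if_neg h]
    exact ⟨by omega, fun h1 => h h1.symm, fun y hy _ => H.anti 0 y (Nat.zero_le y) hy⟩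

/-- **the second largest other row** -/
lemma PCon.y2_facts (H : PCon R n t s mu U ho vl kp mn pc ar be kq NN sg nu) {z : ℕ} :
    y2W z < n ∧ y2W z ≠ z ∧ y2W z ≠ y1W z ∧ ∀ y < n, y ≠ z → y ≠ y1W z → t y ≤ t (y2W z) := by
  have hn := H.n5
  unfold y2W y1W
  by_cases h : z = 0
  · rw [if_pos (by omega), if_pos h, h]
    exact ⟨by omega, by omega, by omega, fun y hy h1 h2 => H.anti 2 y (by omega) hy⟩
  · rw [if_neg h]
    by_cases h1 : z ≤ 1
    · rw [if_pos h1]
      have h2 : z = 1 := by omega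
      rw [h2]
      exact ⟨by omega, by omega, by omega, fun y hy h3 h4 => H.anti 2 y (by omega) hy⟩
    · rw [if_neg h1]
      exact ⟨by omega, by omega, by omega, fun y hy h3 h4 => H.anti 1 y (by omega) hy⟩

/-- **the budgets of a world have sum less than one** -/
theorem PCon.wbud_lt (H : PCon R n t s mu U ho vl kp mn pc ar be kq NN sg nu) {Q N : ℕ}
    (hR : R = Q) {V : ℕ → ℕ → ℕ → ℕ} (hk : Kern.wchk V Q N = true) {L : Finset ℕ}
    (hL : L ⊆ range n) :
    ∑ z ∈ L, ((V (t z + 1).toNat (t (y1W z) + 1).toNat (t (y2W z) + 1).toNat : ℕ) : ℝ) / N < 1 := by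
  have hn := H.n5
  obtain ⟨a, ha⟩ : ∃ a : ℕ → ℕ, ∀ z, a z = (t z + 1).toNat := ⟨_, fun _ => rfl⟩
  have ha' : ∀ z < n, (a z : ℤ) = t z + 1 := fun z hz => by
    rw [ha]
    exact Int.toNat_of_nonneg (by linarith [H.t0 z hz])
  have hmono : ∀ i j, i ≤ j → j < n → a j ≤ a i := fun i j hij hj => by
    have h1 := H.anti i j hij hj
    have h2 := ha' i (by omega)
    have h3 := ha' j hj
    omega
  have hpos : ∀ z < n, 1 ≤ a z := fun z hz => by
    have h1 := ha' z hz
    have h2 := H.t0 z hz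
    omega
  have hsum : ∑ z ∈ range n, a z ≤ Q := by
    have h3 : ((∑ z ∈ range n, a z : ℕ) : ℤ) = ∑ z ∈ range n, (t z + 1) := by
      rw [Nat.cast_sum]
      exact sum_congr rfl fun z hz => ha' z (mem_range.1 hz)
    have h4 : ((∑ z ∈ range n, a z : ℕ) : ℤ) ≤ Q := by
      rw [h3, ← hR]
      exact H.tsum
    exact_mod_cast h4
  -- the rows from 3 on
  obtain ⟨S, hS⟩ : ∃ S : Finset ℕ, S = (range n).filter fun z => 3 ≤ z := ⟨_, rfl⟩
  have hrange : range n = insert 0 (insert 1 (insert 2 S)) := by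
    ext x
    rw [hS]
    simp only [mem_insert, mem_filter, mem_range]
    omega
  have h0S : (0 : ℕ) ∉ insert 1 (insert 2 S) := by
    rw [hS]
    simp
  have h1S : (1 : ℕ) ∉ insert 2 S := by
    rw [hS]
    simp
  have h2S : (2 : ℕ) ∉ S := by
    rw [hS]
    simp
  have hSn : ∀ z ∈ S, z < n ∧ 3 ≤ z := fun z hz => by
    rw [hS] at hz
    exact ⟨mem_range.1 (mem_filter.1 hz).1, (mem_filter.1 hz).2⟩
  have hScard : 2 ≤ S.card := by
    have h1 : ({3, 4} : Finset ℕ) ⊆ S := by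
      intro x hx
      rw [hS]
      rw [mem_insert, mem_singleton] at hx
      rw [mem_filter, mem_range]
      omega
    have h2 := card_le_card h1
    rw [card_pair (by norm_num)] at h2
    exact h2
  have hsum3 : a 0 + (a 1 + (a 2 + ∑ z ∈ S, a z)) ≤ Q := by
    rw [hrange, sum_insert h0S, sum_insert h1S, sum_insert h2S] at hsum
    exact hsum
  have hS2 : 2 ≤ ∑ z ∈ S, a z := by
    calc 2 ≤ S.card := hScard
      _ = ∑ z ∈ S, 1 := card_eq_sum_ones S
      _ ≤ ∑ z ∈ S, a z := sum_le_sum fun z hz => hpos z (hSn z hz).1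
  have h1 := Kern.wchk_sound hk (a0 := a 0) (a1 := a 1) (a2 := a 2) (hpos 2 (by omega))
    (hmono 1 2 (by omega) (by omega)) (hmono 0 1 (by omega) (by omega)) (by omega)
  have hle : ∀ z ∈ S, a z ≤ a 2 := fun z hz => hmono 2 z (by have := (hSn z hz).2; omega) (hSn z hz).1
  have h2 := Kern.bud_le' (Kern.vls V (a 0) (a 1) 0 (a 2)) (Q - a 0 - a 1 - a 2) (S := S)
    (τ := fun z => a z - 1) (fun z hz => by
      rw [Kern.vls_length]
      have h3 := hle z hz
      have h4 := hpos z (hSn z hz).1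
      show a z - 1 < a 2
      omega) 2 hScard 0 (by
      have h3 : ∑ z ∈ S, (a z - 1 + 1) = ∑ z ∈ S, a z := sum_congr rfl fun z hz => by
        have h4 := hpos z (hSn z hz).1
        omega
      rw [h3]
      omega)
  have h3 : ∑ z ∈ S, (Kern.vls V (a 0) (a 1) 0 (a 2)).getD (a z - 1) 0
      = ∑ z ∈ S, V (a z) (a 0) (a 1) := sum_congr rfl fun z hz => by
    have h4 := hle z hz
    have h5 := hpos z (hSn z hz).1
    rw [Kern.vls_get V (a 0) (a 1) 0 (a 2) (a z - 1) (by omega)]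
    congr 1
    omega
  have h4 : (Kern.kit (Kern.vls V (a 0) (a 1) 0 (a 2)) (Q - a 0 - a 1 - a 2) 2).headD 0
      = (Kern.kit (Kern.vls V (a 0) (a 1) 0 (a 2)) (Q - a 0 - a 1 - a 2) 2).getD 0 0 := by
    cases Kern.kit (Kern.vls V (a 0) (a 1) 0 (a 2)) (Q - a 0 - a 1 - a 2) 2 <;> rfl
  have h5 : ∑ z ∈ range n, V (a z) (a (y1W z)) (a (y2W z))
      = V (a 0) (a 1) (a 2) + (V (a 1) (a 0) (a 2) + (V (a 2) (a 0) (a 1)
        + ∑ z ∈ S, V (a z) (a 0) (a 1))) := by
    rw [hrange, sum_insert h0S, sum_insert h1S, sum_insert h2S]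
    have e3 : ∑ z ∈ S, V (a z) (a (y1W z)) (a (y2W z)) = ∑ z ∈ S, V (a z) (a 0) (a 1) :=
      sum_congr rfl fun z hz => by
        have h6 := (hSn z hz).2
        unfold y1W y2W
        rw [if_neg (by omega), if_neg (by omega)]
    rw [e3]
    rfl
  have h6 : ∑ z ∈ range n, V (a z) (a (y1W z)) (a (y2W z)) < N := by
    rw [h5]
    have h7 : ∑ z ∈ S, V (a z) (a 0) (a 1)
        ≤ (Kern.kit (Kern.vls V (a 0) (a 1) 0 (a 2)) (Q - a 0 - a 1 - a 2) 2).headD 0 := by
      rw [h4, ← h3]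
      exact h2
    omega
  have h7 : ∑ z ∈ L, V (a z) (a (y1W z)) (a (y2W z))
      ≤ ∑ z ∈ range n, V (a z) (a (y1W z)) (a (y2W z)) := sum_le_sum_of_subset hL
  have h8 : ∑ z ∈ L, V (a z) (a (y1W z)) (a (y2W z)) < N := lt_of_le_of_lt h7 h6
  have h9 : (0 : ℝ) < N := by
    have : 0 < N := by omega
    exact_mod_cast this
  have h10 : ∀ z ∈ L, ((V (t z + 1).toNat (t (y1W z) + 1).toNat (t (y2W z) + 1).toNat : ℕ) : ℝ) / N
      = ((V (a z) (a (y1W z)) (a (y2W z)) : ℕ) : ℝ) / N := fun z _ => by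
    rw [ha z, ha (y1W z), ha (y2W z)]
  rw [sum_congr rfl h10, ← sum_div, div_lt_one h9, ← Nat.cast_sum]
  exact_mod_cast h8

/-- **TABLE F over `PConC`, budgets by the two largest other rows** -/
theorem LevC.close_FW (Lv : LevC n U ho vl kp mn pc φ g f)
    (H : PConC R n t s mu U ho vl kp mn pc ar be kq NN sg nu) {Q N : ℕ}
    (hR : R = Q) {V : ℕ → ℕ → ℕ → ℕ} (hk : Kern.wchk V Q N = true)
    (hW : ∀ i < n, 0 < W i) (p : ℕ) {q : ℕ} (hq : 0 < q)
    (h2 : ∀ z < n, NLz n s mu U ho vl pc be g z →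
      ∑ y ∈ ((range n).erase z).filter (fun y => NLz n s mu U ho vl pc be g y),
        payF p q W R U ho vl kp mn pc be g z y ≤ (mu z : ℝ) - s z
          + ((V (t z + 1).toNat (t (y1W z) + 1).toNat (t (y2W z) + 1).toNat : ℕ) : ℝ) / N) :
    False :=
  Lv.close_F H.toPCon hW p hq h2 (H.toPCon.wbud_lt hR hk (filter_subset _ _))

/-- **the same with the sum over all other rows** (`φ = mn`, `p ≤ 2 q`) -/
theorem LevC.close_FW' (Lv : LevC n U ho vl kp mn pc (fun u i => mn i u) g f)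
    (H : PConC R n t s mu U ho vl kp mn pc ar be kq NN sg nu) {Q N : ℕ}
    (hR : R = Q) {V : ℕ → ℕ → ℕ → ℕ} (hk : Kern.wchk V Q N = true)
    (hW : ∀ i < n, 0 < W i) {p q : ℕ} (hq : 0 < q) (hpq : p ≤ 2 * q)
    (h2 : ∀ z < n, mu z - s z + 1 ≤ ∑ y ∈ (range n).erase z, rnE U ho vl pc be g z y →
      ∑ y ∈ (range n).erase z, payF p q W R U ho vl kp mn pc be g z y ≤ (mu z : ℝ) - s z
          + ((V (t z + 1).toNat (t (y1W z) + 1).toNat (t (y2W z) + 1).toNat : ℕ) : ℝ) / N) :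
    False := by
  refine Lv.close_FW H hR hk hW p hq fun z hz hzL => ?_
  refine le_trans (sum_le_sum_of_subset_of_nonneg (filter_subset _ _) fun y hy _ => ?_)
    (h2 z hz hzL)
  refine Lv.payF_nonneg H.toPCon hW hz (mem_range.1 (mem_of_mem_erase hy)) hq fun v hv => ?_
  have h3 := Lv.two_unb H.toPCon hv
  have h4 := LevC.unb_nonneg H.toPCon hv
  have h5 : (p : ℤ) ≤ 2 * q := by exact_mod_cast hpq
  have h6 : (0 : ℤ) ≤ q := Nat.cast_nonneg _
  nlinarith

end BudW

end Pool.Agent.Lib.MP_f04ccf_co
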