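import Pool.Agent.Lib.MP_f04ccf_co.M.TabG

/-!
MP_f04ccf_co, TEXT D, middle range: **budgets of one world, exact** (at least two rows besides the first three; in
`Kern.kit` a capacity which is too small for the rows has the value `0` and not `impossible`, so that a world such as
`(7, 7, 7)`, `R = 24`, is charged for ONE more row of size three).

* `Kern.zmy`, `kdy`, `ksy`, `kiy`: as `zmx`, `kdp`, `kst`, `kit`, all values plus one, `0` = impossible;
* `Kern.kiy_le`; `Kern.wonX`: as `Kern.wone`;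
* `PCon.wbud_ltX`, **`LevC.close_GX`**.
-/

set_option autoImplicit false

namespace Pool.Agent.Lib.MP_f04ccf_co

open Finset

attribute [local instance] Classical.propDecidable

namespace Kern

/-- the largest sum of two entries at the same place; second list: `0` = impossible -/
def zmy : List ℕ → List ℕ → ℕ
  | [], _ => 0
  | _ :: _, [] => 0
  | a :: as, b :: bs =>
    bif Nat.beq b 0 then zmy as bs else Nat.add (zmy as bs) (Nat.sub (Nat.add a b) (zmy as bs))

/-- the values plus one for the capacities `c, …, 0`, any number of rows -/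
def kdy (dl : List ℕ) : ℕ → List ℕ
  | 0 => [1]
  | c + 1 => Nat.add (zmy dl (kdy dl c)) (Nat.sub 1 (zmy dl (kdy dl c))) :: kdy dl c

/-- one more row -/
def ksy (dl : List ℕ) : List ℕ → List ℕ
  | [] => []
  | _ :: l => zmy dl l :: ksy dl l

/-- at least `k` rows -/
def kiy (dl : List ℕ) (Q : ℕ) : ℕ → List ℕ
  | 0 => kdy dl Q
  | k + 1 => ksy dl (kiy dl Q k)

lemma zmy_ge : ∀ (dl l : List ℕ) (i : ℕ), i < dl.length → l.getD i 0 ≠ 0 →
    dl.getD i 0 + l.getD i 0 ≤ zmy dl l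
  | [], _, i, h, _ => absurd h (by simp)
  | _ :: _, [], i, _, h => absurd h (by simp)
  | a :: as, b :: bs, i, h1, h2 => by
    show (a :: as).getD i 0 + (b :: bs).getD i 0
      ≤ bif Nat.beq b 0 then zmy as bs else zmy as bs + ((a + b) - zmy as bs)
    cases i with
    | zero =>
      have h3 : b ≠ 0 := h2
      have h4 : Nat.beq b 0 = false := by
        rw [Bool.eq_false_iff]
        intro h5
        exact h3 (Nat.eq_of_beq_eq_true h5)
      rw [h4]
      show a + b ≤ zmy as bs + ((a + b) - zmy as bs)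
      omega
    | succ i =>
      have h3 := zmy_ge as bs i (by simpa using h1) h2
      show as.getD i 0 + bs.getD i 0 ≤ _
      rcases Nat.beq b 0 with _ | _
      · show _ ≤ zmy as bs + ((a + b) - zmy as bs)
        omega
      · exact h3

lemma kdy_length (dl : List ℕ) : ∀ c, (kdy dl c).length = c + 1
  | 0 => rfl
  | c + 1 => by
    show (kdy dl c).length + 1 = c + 1 + 1
    rw [kdy_length dl c]

lemma ksy_length (dl : List ℕ) : ∀ l : List ℕ, (ksy dl l).length = l.length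
  | [] => rfl
  | _ :: l => by
    show (ksy dl l).length + 1 = l.length + 1
    rw [ksy_length dl l]

lemma kiy_length (dl : List ℕ) (Q : ℕ) : ∀ k, (kiy dl Q k).length = Q + 1
  | 0 => kdy_length dl Q
  | k + 1 => by
    show (ksy dl (kiy dl Q k)).length = Q + 1
    rw [ksy_length, kiy_length dl Q k]

lemma kdy_pos (dl : List ℕ) : ∀ (Q j : ℕ), j ≤ Q → 1 ≤ (kdy dl Q).getD j 0
  | 0, j, h => by
    rw [Nat.le_zero.1 h]
    exact le_refl _
  | Q + 1, 0, _ => by
    show 1 ≤ zmy dl (kdy dl Q) + (1 - zmy dl (kdy dl Q))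
    omega
  | Q + 1, j + 1, h => kdy_pos dl Q j (by omega)

lemma kdy_ge (dl : List ℕ) : ∀ (Q j x : ℕ), x < dl.length → j + x + 1 ≤ Q →
    dl.getD x 0 + (kdy dl Q).getD (j + x + 1) 0 ≤ (kdy dl Q).getD j 0
  | 0, _, _, _, h => absurd h (by omega)
  | Q + 1, 0, x, hx, h => by
    show dl.getD x 0 + (_ :: kdy dl Q).getD (0 + x + 1) 0
      ≤ zmy dl (kdy dl Q) + (1 - zmy dl (kdy dl Q))
    have h0 := kdy_pos dl Q x (by omega)
    have h1 := zmy_ge dl (kdy dl Q) x hx (by omega)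
    have h2 : ((zmy dl (kdy dl Q) + (1 - zmy dl (kdy dl Q))) :: kdy dl Q).getD (0 + x + 1) 0
        = (kdy dl Q).getD x 0 := by
      rw [Nat.zero_add]
      rfl
    refine (Nat.add_le_add_left (le_of_eq h2) _).trans ?_
    omega
  | Q + 1, j + 1, x, hx, h => by
    have h1 := kdy_ge dl Q j x hx (by omega)
    have h2 : (kdy dl (Q + 1)).getD (j + 1 + x + 1) 0 = (kdy dl Q).getD (j + x + 1) 0 := by
      rw [show j + 1 + x + 1 = (j + x + 1) + 1 by omega]
      rfl
    rw [h2]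
    exact h1

lemma ksy_ge (dl : List ℕ) : ∀ (l : List ℕ) (j x : ℕ), x < dl.length → l.getD (j + x + 1) 0 ≠ 0 →
    dl.getD x 0 + l.getD (j + x + 1) 0 ≤ (ksy dl l).getD j 0
  | [], _, _, _, h => absurd h (by simp)
  | y :: l, 0, x, hx, h => by
    show dl.getD x 0 + (y :: l).getD (0 + x + 1) 0 ≤ zmy dl l
    have h2 : (y :: l).getD (0 + x + 1) 0 = l.getD x 0 := by
      rw [Nat.zero_add]
      rfl
    rw [h2] at h ⊢
    exact zmy_ge dl l x hx h
  | y :: l, j + 1, x, hx, h => by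
    have h2 : (y :: l).getD (j + 1 + x + 1) 0 = l.getD (j + x + 1) 0 := by
      rw [show j + 1 + x + 1 = (j + x + 1) + 1 by omega]
      rfl
    rw [h2] at h ⊢
    exact ksy_ge dl l j x hx h

/-- **the maximum of the budget plus one** -/
theorem kiy_le (dl : List ℕ) (Q : ℕ) {S : Finset ℕ} {τ : ℕ → ℕ} (hτ : ∀ z ∈ S, τ z < dl.length) :
    ∀ (k : ℕ), k ≤ S.card → ∀ j, j + ∑ z ∈ S, (τ z + 1) ≤ Q →
      ∑ z ∈ S, dl.getD (τ z) 0 + 1 ≤ (kiy dl Q k).getD j 0 := by
  induction S using Finset.induction_on with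
  | empty =>
    intro k hk j hj
    rw [card_empty] at hk
    rw [Nat.le_zero.1 hk, sum_empty]
    exact kdy_pos dl Q j (by omega)
  | insert z S hz ih =>
    intro k hk j hj
    rw [sum_insert hz] at hj ⊢
    rw [card_insert_of_notMem hz] at hk
    have hz' := hτ z (mem_insert_self z S)
    have ih' := ih fun x hx => hτ x (mem_insert_of_mem hx)
    cases k with
    | zero =>
      have h1 := ih' 0 (Nat.zero_le _) (j + τ z + 1) (by omega)
      have h2 := kdy_ge dl Q j (τ z) hz' (by omega)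
      show _ ≤ (kdy dl Q).getD j 0
      have h3 : (kiy dl Q 0).getD (j + τ z + 1) 0 = (kdy dl Q).getD (j + τ z + 1) 0 := rfl
      omega
    | succ k =>
      have h1 := ih' k (by omega) (j + τ z + 1) (by omega)
      have h2 := ksy_ge dl (kiy dl Q k) j (τ z) hz' (by omega)
      have h3 : (kiy dl Q (k + 1)).getD j 0 = (ksy dl (kiy dl Q k)).getD j 0 := rfl
      omega

/-- one world `A0 ≥ A1 ≥ A2`, exact -/
def wonX (V : ℕ → ℕ → ℕ → ℕ) (Q N a0 a1 a2 : ℕ) : Bool :=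
  Nat.blt (Q) (a0 + a1 + a2 + 2) ||
  Nat.blt (V a0 a1 a2 + V a1 a0 a2 + V a2 a0 a1
    + (kiy (vls V a0 a1 0 a2) (Q - a0 - a1 - a2) 2).headD 0) (N + 1)

end Kern

section BudX

variable {ι : Type*} {R : ℤ} {n : ℕ} {t s mu : ℕ → ℤ} {U : Finset ι} {ho : ι → ℕ} {vl : ι → ℤ}
  {kp mn : ℕ → ι → ℤ} {pc ar : ι → ℤ} {be kq NN sg : ℕ → ℕ → ℤ} {nu : ℕ → ι → ℤ} {z y : ℕ}
  {φ : ι → ℕ → ℤ} {g : ℕ → ι → ℕ} {f : ι → ℕ} {D : ℕ} {S G P : ℕ → ℕ → ℕ}

/-- **the budgets of one world have sum less than one, exact list** -/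
theorem PCon.wbud_ltX (H : PCon R n t s mu U ho vl kp mn pc ar be kq NN sg nu) {Q N : ℕ}
    (hR : R = Q) {V : ℕ → ℕ → ℕ → ℕ} (hk : Kern.wonX V Q N (rA t 0) (rA t 1) (rA t 2) = true)
    {L : Finset ℕ} (hL : L ⊆ range n) :
    ∑ z ∈ L, ((V (rA t z) (rA t (y1W z)) (rA t (y2W z)) : ℕ) : ℝ) / N < 1 := by
  have hn := H.n5
  obtain ⟨a, ha⟩ : ∃ a : ℕ → ℕ, a = rA t := ⟨_, rfl⟩
  rw [← ha] at hk ⊢
  have ha' : ∀ z < n, (a z : ℤ) = t z + 1 := fun z hz => by
    rw [ha]
    exact Int.toNat_of_nonneg (by linarith [H.t0 z hz])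
  have hmono : ∀ i j, i ≤ j → j < n → a j ≤ a i := fun i j hij hj => by
    have h1 := H.anti i j hij hj
    have h2 := ha' i (by omega)
    have h3 := ha' j hj
    omega
  have hpos : ∀ z < n, 1 ≤ a z := fun z hz => by
    have h1 := ha' z hz
    have h2 := H.t0 z hz
    omega
  have hsum : ∑ z ∈ range n, a z ≤ Q := by
    have h3 : ((∑ z ∈ range n, a z : ℕ) : ℤ) = ∑ z ∈ range n, (t z + 1) := by
      rw [Nat.cast_sum]
      exact sum_congr rfl fun z hz => ha' z (mem_range.1 hz)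
    have h4 : ((∑ z ∈ range n, a z : ℕ) : ℤ) ≤ Q := by
      rw [h3, ← hR]
      exact H.tsum
    exact_mod_cast h4
  obtain ⟨C, hC⟩ : ∃ C : Finset ℕ, C = (range n).filter fun z => 3 ≤ z := ⟨_, rfl⟩
  have hrange : range n = insert 0 (insert 1 (insert 2 C)) := by
    ext x
    rw [hC]
    simp only [mem_insert, mem_filter, mem_range]
    omega
  have h0S : (0 : ℕ) ∉ insert 1 (insert 2 C) := by
    rw [hC]
    simp
  have h1S : (1 : ℕ) ∉ insert 2 C := by
    rw [hC]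
    simp
  have h2S : (2 : ℕ) ∉ C := by
    rw [hC]
    simp
  have hSn : ∀ z ∈ C, z < n ∧ 3 ≤ z := fun z hz => by
    rw [hC] at hz
    exact ⟨mem_range.1 (mem_filter.1 hz).1, (mem_filter.1 hz).2⟩
  have hScard : 2 ≤ C.card := by
    have h1 : ({3, 4} : Finset ℕ) ⊆ C := by
      intro x hx
      rw [hC]
      rw [mem_insert, mem_singleton] at hx
      rw [mem_filter, mem_range]
      omega
    have h2 := card_le_card h1
    rw [card_pair (by norm_num)] at h2
    exact h2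
  have hsum3 : a 0 + (a 1 + (a 2 + ∑ z ∈ C, a z)) ≤ Q := by
    rw [hrange, sum_insert h0S, sum_insert h1S, sum_insert h2S] at hsum
    exact hsum
  have hS2 : 2 ≤ ∑ z ∈ C, a z := by
    calc 2 ≤ C.card := hScard
      _ = ∑ z ∈ C, 1 := card_eq_sum_ones C
      _ ≤ ∑ z ∈ C, a z := sum_le_sum fun z hz => hpos z (hSn z hz).1
  have h1 : V (a 0) (a 1) (a 2) + V (a 1) (a 0) (a 2) + V (a 2) (a 0) (a 1)
      + (Kern.kiy (Kern.vls V (a 0) (a 1) 0 (a 2)) (Q - a 0 - a 1 - a 2) 2).headD 0 < N + 1 := by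
    unfold Kern.wonX at hk
    rw [Bool.or_eq_true] at hk
    rcases hk with hk | hk
    · unfold Nat.blt at hk
      have := Nat.le_of_ble_eq_true hk
      omega
    · unfold Nat.blt at hk
      exact Nat.le_of_ble_eq_true hk
  have hle : ∀ z ∈ C, a z ≤ a 2 := fun z hz => hmono 2 z (by have := (hSn z hz).2; omega) (hSn z hz).1
  have h2 := Kern.kiy_le (Kern.vls V (a 0) (a 1) 0 (a 2)) (Q - a 0 - a 1 - a 2) (S := C)
    (τ := fun z => a z - 1) (fun z hz => by
      rw [Kern.vls_length]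
      have h3 := hle z hz
      have h4 := hpos z (hSn z hz).1
      show a z - 1 < a 2
      omega) 2 hScard 0 (by
      have h3 : ∑ z ∈ C, (a z - 1 + 1) = ∑ z ∈ C, a z := sum_congr rfl fun z hz => by
        have h4 := hpos z (hSn z hz).1
        omega
      rw [h3]
      omega)
  have h3 : ∑ z ∈ C, (Kern.vls V (a 0) (a 1) 0 (a 2)).getD (a z - 1) 0
      = ∑ z ∈ C, V (a z) (a 0) (a 1) := sum_congr rfl fun z hz => by
    have h4 := hle z hz
    have h5 := hpos z (hSn z hz).1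
    rw [Kern.vls_get V (a 0) (a 1) 0 (a 2) (a z - 1) (by omega)]
    congr 1
    omega
  have h4 : (Kern.kiy (Kern.vls V (a 0) (a 1) 0 (a 2)) (Q - a 0 - a 1 - a 2) 2).headD 0
      = (Kern.kiy (Kern.vls V (a 0) (a 1) 0 (a 2)) (Q - a 0 - a 1 - a 2) 2).getD 0 0 := by
    cases Kern.kiy (Kern.vls V (a 0) (a 1) 0 (a 2)) (Q - a 0 - a 1 - a 2) 2 <;> rfl
  have h5 : ∑ z ∈ range n, V (a z) (a (y1W z)) (a (y2W z))
      = V (a 0) (a 1) (a 2) + (V (a 1) (a 0) (a 2) + (V (a 2) (a 0) (a 1)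
        + ∑ z ∈ C, V (a z) (a 0) (a 1))) := by
    rw [hrange, sum_insert h0S, sum_insert h1S, sum_insert h2S]
    have e3 : ∑ z ∈ C, V (a z) (a (y1W z)) (a (y2W z)) = ∑ z ∈ C, V (a z) (a 0) (a 1) :=
      sum_congr rfl fun z hz => by
        have h6 := (hSn z hz).2
        unfold y1W y2W
        rw [if_neg (by omega), if_neg (by omega)]
    rw [e3]
    rfl
  have h6 : ∑ z ∈ range n, V (a z) (a (y1W z)) (a (y2W z)) < N := by
    rw [h5]
    have h7 : ∑ z ∈ C, V (a z) (a 0) (a 1) + 1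
        ≤ (Kern.kiy (Kern.vls V (a 0) (a 1) 0 (a 2)) (Q - a 0 - a 1 - a 2) 2).headD 0 := by
      rw [h4, ← h3]
      exact h2
    omega
  have h7 : ∑ z ∈ L, V (a z) (a (y1W z)) (a (y2W z))
      ≤ ∑ z ∈ range n, V (a z) (a (y1W z)) (a (y2W z)) := sum_le_sum_of_subset hL
  have h8 : ∑ z ∈ L, V (a z) (a (y1W z)) (a (y2W z)) < N := lt_of_le_of_lt h7 h6
  have h9 : (0 : ℝ) < N := by
    have : 0 < N := by omega
    exact_mod_cast this
  rw [← sum_div, div_lt_one h9, ← Nat.cast_sum]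
  exact_mod_cast h8

/-- **TABLE G, THE CLOSING FOR ONE TRIPLE OF SIZES** (`φ = mn`), in integers -/
theorem LevC.close_GX (Lv : LevC n U ho vl kp mn pc (fun u i => mn i u) g f)
    (H : PConC R n t s mu U ho vl kp mn pc ar be kq NN sg nu) {Q N : ℕ}
    (hR : R = Q) {V : ℕ → ℕ → ℕ → ℕ} (hk : Kern.wonX V Q N (rA t 0) (rA t 1) (rA t 2) = true)
    (hN : 0 < N) (hD : 0 < D) (hS : ∀ i < n, ∀ j < n, S (rA t i) (rA t j) ≤ D)
    (hP : ∀ i < n, ∀ j < n, P (rA t i) (rA t j) ≤ D)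
    (hG : ∀ i < n, ∀ j < n, G (rA t i) (rA t j) * Q ≤ 2 * S (rA t i) (rA t j))
    (h2 : ∀ z < n, mu z - s z + 1 ≤ ∑ y ∈ (range n).erase z, rnE U ho vl pc be g z y →
      (N : ℤ) * ∑ y ∈ (range n).erase z, payGc D S G P t U ho vl kp mn pc be g z y
        ≤ (D : ℤ) * ((N : ℤ) * (mu z - s z) + (V (rA t z) (rA t (y1W z)) (rA t (y2W z)) : ℕ))) :
    False := by
  have hD' : (0 : ℝ) < D := by exact_mod_cast hD
  have hN' : (0 : ℝ) < N := by exact_mod_cast hN
  refine Lv.close_G H.toPCon hD (S := S) (G := G) (P := P)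
    (δ := fun z => ((V (rA t z) (rA t (y1W z)) (rA t (y2W z)) : ℕ) : ℝ) / N) ?_
    (H.toPCon.wbud_ltX hR hk (filter_subset _ _))
  intro z hz hzL
  have hT : ∀ v ∈ unV n U g, 0 ≤ TGn S G P t ho kp mn pc g v ∧ TGn S G P t ho kp mn pc g v ≤ D := by
    intro v hv
    obtain ⟨k1, k2, k3⟩ := LevC.mem_unV hv
    have k4 := H.hlt _ k1
    have k5 := Lv.two_unb H.toPCon hv
    have k6 := LevC.unb_nonneg H.toPCon hv
    have k7 : (G (rA t (ho v.1)) (rA t v.2.1) : ℤ) * Q ≤ 2 * (S (rA t (ho v.1)) (rA t v.2.1) : ℤ) := by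
      exact_mod_cast hG _ k4 _ k2
    have k8 : (S (rA t (ho v.1)) (rA t v.2.1) : ℤ) ≤ D := by exact_mod_cast hS _ k4 _ k2
    have k9 : (P (rA t (ho v.1)) (rA t v.2.1) : ℤ) ≤ D := by exact_mod_cast hP _ k4 _ k2
    have k10 : (0 : ℤ) ≤ G (rA t (ho v.1)) (rA t v.2.1) := Nat.cast_nonneg _
    have k11 : (0 : ℤ) ≤ P (rA t (ho v.1)) (rA t v.2.1) := Nat.cast_nonneg _
    rw [hR] at k5
    unfold TGn
    split_ifs
    · constructor
      · have := mul_le_mul_of_nonneg_left k5 k10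
        linarith
      · have := mul_nonneg k10 k6
        linarith
    · exact ⟨k11, k9⟩
  have h3 : ∑ y ∈ ((range n).erase z).filter (fun y => NLz n s mu U ho vl pc be g y),
      payGc D S G P t U ho vl kp mn pc be g z y
      ≤ ∑ y ∈ (range n).erase z, payGc D S G P t U ho vl kp mn pc be g z y :=
    sum_le_sum_of_subset_of_nonneg (filter_subset _ _) fun y hy _ =>
      Lv.payG_nonneg H.toPCon hz (mem_range.1 (mem_of_mem_erase hy)) hT
  have h4 := h2 z hz hzL
  rw [div_le_iff₀ hD']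
  have h5 : ((∑ y ∈ ((range n).erase z).filter (fun y => NLz n s mu U ho vl pc be g y),
      payGc D S G P t U ho vl kp mn pc be g z y : ℤ) : ℝ)
      ≤ ((∑ y ∈ (range n).erase z, payGc D S G P t U ho vl kp mn pc be g z y : ℤ) : ℝ) := by
    exact_mod_cast h3
  refine h5.trans ?_
  have h6 : (N : ℝ) * ((∑ y ∈ (range n).erase z, payGc D S G P t U ho vl kp mn pc be g z y : ℤ) : ℝ)
      ≤ (D : ℝ) * ((N : ℝ) * ((mu z : ℝ) - s z)
        + ((V (rA t z) (rA t (y1W z)) (rA t (y2W z)) : ℕ) : ℝ)) := by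
    exact_mod_cast h4
  have h7 : (N : ℝ) * (((mu z : ℝ) - s z
      + ((V (rA t z) (rA t (y1W z)) (rA t (y2W z)) : ℕ) : ℝ) / N) * D)
      = (D : ℝ) * ((N : ℝ) * ((mu z : ℝ) - s z)
        + ((V (rA t z) (rA t (y1W z)) (rA t (y2W z)) : ℕ) : ℝ)) := by
    field_simp
  rw [← h7] at h6
  exact le_of_mul_le_mul_left h6 hN'

end BudX

end Pool.Agent.Lib.MP_f04ccf_co
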