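import Mathlib

/-!
MP_f04ccf_co: the budget of the residual units (note 15899 (2), pure integers).

`A` is the set of the rows, `n = #A`. For the row `z`: `m = 1 - s` units are needed by the law, `w` kills are located at `z`,
`T` is the cover number of the row, `t` the mass (`R - t` is the size of the class); `O` is the sum of the cover numbers and
`p` bounds the number of the kills which are not located (low, spread; they are paid otherwise). The row is overfull if
`m < w`; the excess is `o = w - m`, the residual units of the other rows are `m - w`. The row test of an overfull row with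
`k = m + j` of its located points (`0 ≤ k ≤ w`) is `R (1 + j) ≤ (T + m + j) t + C(j + 2, 2) + 1`, `1 ≤ j ≤ o`; for a
hub `m < 0`, `k = 0` it is (P) for the slot of the row.

`Bud.main`: the number of the residual units is `≤ n - 3 + p`, or there are two overfull rows, one of them with
`o ≥ 2 n - 2`, and the overfull rows have an excess `≥ O - 1`.
-/

set_option autoImplicit false

namespace Pool.Agent.Lib.MP_f04ccf_co

open Finset

/-- residual units, overfull rows and all the rows -/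
theorem bud_res {ι : Type*} (A : Finset ι) (m w : ι → ℤ) :
    ∑ z ∈ A, max (m z - w z) 0 =
      ∑ z ∈ A with m z < w z, (w z - m z) + ∑ z ∈ A, m z - ∑ z ∈ A, w z := by
  rw [Finset.sum_filter, ← Finset.sum_add_distrib, ← Finset.sum_sub_distrib]
  refine Finset.sum_congr rfl fun z _ => ?_
  split_ifs with h
  · rw [max_eq_right (by omega)]
    ring
  · rw [max_eq_left (by omega)]
    ring

/-- the rows and their located kills -/
structure Bud {ι : Type*} (A : Finset ι) (R O : ℤ) (m w T t : ι → ℤ) : Prop where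
  m_sum : ∑ z ∈ A, m z = #A - 1
  t_nonneg : ∀ z ∈ A, 0 ≤ t z
  t_sum : ∑ z ∈ A, t z ≤ R - #A
  T_nonneg : ∀ z ∈ A, 0 ≤ T z
  T_sum : ∑ z ∈ A, T z = O
  two : ∀ z ∈ A, 2 ≤ T z + m z
  T_add : ∀ z ∈ A, T z + w z ≤ O
  w_nonneg : ∀ z ∈ A, 0 ≤ w z
  test : ∀ z ∈ A, ∀ j, 1 ≤ j → 0 ≤ m z + j → j ≤ w z - m z →
    2 * R * (1 + j) ≤ 2 * (T z + m z + j) * t z + (j + 1) * (j + 2) + 2

namespace Bud

variable {ι : Type*} {A : Finset ι} {R O : ℤ} {m w T t : ι → ℤ}

theorem O_nonneg (h : Bud A R O m w T t) : 0 ≤ O := by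
  rw [← h.T_sum]
  exact Finset.sum_nonneg h.T_nonneg

/-- the hosts: rows with `m ≤ 1`, i.e. `0 ≤ s`, have `T ≥ s + 1` -/
theorem O_ge (h : Bud A R O m w T t) : ∑ z ∈ A with m z ≤ 1, (2 - m z) ≤ O := by
  rw [← h.T_sum, Finset.sum_filter]
  refine Finset.sum_le_sum fun z hz => ?_
  have h1 := h.two z hz
  have h2 := h.T_nonneg z hz
  split_ifs with h3
  · omega
  · exact h2

theorem exists_host (h : Bud A R O m w T t) : ∃ z ∈ A, m z ≤ 0 := by
  by_contra hcon
  push Not at hcon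
  have h1 : ∑ z ∈ A, (1 : ℤ) ≤ ∑ z ∈ A, m z := Finset.sum_le_sum fun z hz => by
    have := hcon z hz
    omega
  rw [h.m_sum, Finset.sum_const, nsmul_eq_mul, mul_one] at h1
  omega

theorem two_le_O (h : Bud A R O m w T t) : 2 ≤ O := by
  obtain ⟨z, hz, h0⟩ := h.exists_host
  have h1 := h.two z hz
  have h2 : T z ≤ ∑ z ∈ A, T z := Finset.single_le_sum h.T_nonneg hz
  rw [h.T_sum] at h2
  omega

/-- the overfull rows, all of them with an excess `≤ 2 n - 3` -/
theorem over_sum (h : Bud A R O m w T t) (hn : 3 ≤ #A)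
    (ho : ∀ z ∈ A, m z < w z → w z - m z ≤ 2 * #A - 3) (hne : ∃ z ∈ A, m z < w z) :
    ∑ z ∈ A with m z < w z, (w z - m z + 1) < O := by
  by_contra hcon
  push Not at hcon
  set V : Finset ι := A.filter fun z => m z < w z with hV
  set S : ℤ := ∑ z ∈ V, (w z - m z + 1) with hS
  have hn' : (3 : ℤ) ≤ #A := by exact_mod_cast hn
  have hVA : V ⊆ A := Finset.filter_subset _ _
  have hO := h.O_nonneg
  have ht0 : 0 ≤ ∑ z ∈ A, t z := Finset.sum_nonneg h.t_nonneg
  have hRn : 0 ≤ R - #A := ht0.trans h.t_sum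
  have hVt : ∑ z ∈ V, t z ≤ R - #A :=
    (Finset.sum_le_sum_of_subset_of_nonneg hVA fun z hz _ => h.t_nonneg z hz).trans h.t_sum
  -- the tests
  have h1 : ∑ z ∈ V, (2 * R * (w z - m z + 1)) ≤
      ∑ z ∈ V, (2 * O * t z + ((w z - m z + 1) * (w z - m z + 2) + 2)) := by
    refine Finset.sum_le_sum fun z hz => ?_
    obtain ⟨hzA, hz1⟩ := Finset.mem_filter.1 hz
    have h2 := h.test z hzA (w z - m z) (by omega) (by have := h.w_nonneg z hzA; omega) le_rfl
    have h3 : (T z + m z + (w z - m z)) * t z ≤ O * t z :=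
      mul_le_mul_of_nonneg_right (by have := h.T_add z hzA; omega) (h.t_nonneg z hzA)
    nlinarith
  have h1' : ∑ z ∈ V, (2 * R * (w z - m z + 1)) = 2 * R * S := by rw [hS, Finset.mul_sum]
  have h1'' : ∑ z ∈ V, (2 * O * t z + ((w z - m z + 1) * (w z - m z + 2) + 2)) =
      2 * O * ∑ z ∈ V, t z + ∑ z ∈ V, ((w z - m z + 1) * (w z - m z + 2) + 2) := by
    rw [Finset.mul_sum, Finset.sum_add_distrib]
  rw [h1', h1''] at h1
  -- every overfull row gains
  have h4 : ∑ z ∈ V, ((w z - m z + 1) * (w z - m z + 2) + 2) < ∑ z ∈ V, (2 * #A * (w z - m z + 1)) := by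
    refine Finset.sum_lt_sum_of_nonempty ?_ fun z hz => ?_
    · obtain ⟨z, hz, hz1⟩ := hne
      exact ⟨z, Finset.mem_filter.2 ⟨hz, hz1⟩⟩
    · obtain ⟨hzA, hz1⟩ := Finset.mem_filter.1 hz
      have h5 := ho z hzA hz1
      have h6 : 0 ≤ (w z - m z) * (2 * #A - 3 - (w z - m z)) :=
        mul_nonneg (by omega) (by omega)
      nlinarith
  have h4' : ∑ z ∈ V, (2 * #A * (w z - m z + 1)) = 2 * #A * S := by rw [hS, Finset.mul_sum]
  rw [h4'] at h4
  have h7 : O * ∑ z ∈ V, t z ≤ O * (R - #A) := mul_le_mul_of_nonneg_left hVt hO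
  have h8 : O * (R - #A) ≤ S * (R - #A) := mul_le_mul_of_nonneg_right hcon hRn
  nlinarith

/-- the budget -/
theorem main (h : Bud A R O m w T t) (hn : 3 ≤ #A) {p : ℤ} (hp : O - p ≤ ∑ z ∈ A, w z) :
    ∑ z ∈ A, max (m z - w z) 0 ≤ #A - 3 + p ∨
      (∃ z ∈ A, 2 * #A - 2 ≤ w z - m z) ∧ 2 ≤ #{z ∈ A | m z < w z} ∧
        O - 1 ≤ ∑ z ∈ A with m z < w z, (w z - m z) := by
  have hres := bud_res A m w
  rw [h.m_sum] at hres
  by_cases hV : ∑ z ∈ A with m z < w z, (w z - m z) ≤ O - 2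
  · left
    omega
  push Not at hV
  right
  have hO := h.two_le_O
  have hne : ∃ z ∈ A, m z < w z := by
    by_contra hcon
    push Not at hcon
    have h1 : ∑ z ∈ A with m z < w z, (w z - m z) = 0 := by
      rw [Finset.filter_false_of_mem fun z hz => not_lt.2 (hcon z hz), Finset.sum_empty]
    omega
  refine ⟨?_, ?_, by omega⟩
  · by_contra hcon
    push Not at hcon
    have h1 := h.over_sum hn (fun z hz _ => by have := hcon z hz; omega) hne
    rw [Finset.sum_add_distrib, Finset.sum_const, nsmul_eq_mul, mul_one] at h1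
    have h2 : (0 : ℤ) ≤ #{z ∈ A | m z < w z} := Int.natCast_nonneg _
    have h3 : 0 < #{z ∈ A | m z < w z} := by
      obtain ⟨z, hz, hz1⟩ := hne
      exact Finset.card_pos.2 ⟨z, Finset.mem_filter.2 ⟨hz, hz1⟩⟩
    omega
  · by_contra hcon
    have h3 : #{z ∈ A | m z < w z} = 1 := by
      obtain ⟨z, hz, hz1⟩ := hne
      have h8 : 0 < #{z ∈ A | m z < w z} :=
        Finset.card_pos.2 ⟨z, Finset.mem_filter.2 ⟨hz, hz1⟩⟩
      omega
    obtain ⟨z, hz⟩ := Finset.card_eq_one.1 h3
    have hzV : z ∈ A.filter fun z => m z < w z := by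
      rw [hz]
      exact Finset.mem_singleton_self z
    rw [hz, Finset.sum_singleton] at hV
    have h4 := (Finset.mem_filter.1 hzV).1
    have h5 := h.T_add z h4
    have h6 := h.two z h4
    omega

/-- a row with a large excess: `2 n ≤ O`, and its tests -/
theorem large (h : Bud A R O m w T t) {z : ι} (hz : z ∈ A) (ho : 2 * #A - 2 ≤ w z - m z) :
    2 * #A ≤ O ∧ ∀ j : ℤ, 1 ≤ j → 0 ≤ m z + j → j ≤ 2 * #A - 2 →
      2 * R * (1 + j) ≤ 2 * (T z + m z + j) * t z + (j + 1) * (j + 2) + 2 := by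
  have h1 := h.T_add z hz
  have h2 := h.two z hz
  exact ⟨by omega, fun j hj1 hj0 hj2 => h.test z hz j hj1 hj0 (hj2.trans ho)⟩

/-- without an overfull row -/
theorem no_over (h : Bud A R O m w T t) (hV : ∀ z ∈ A, w z ≤ m z) {p : ℤ}
    (hp : O - p ≤ ∑ z ∈ A, w z) :
    ∑ z ∈ A, max (m z - w z) 0 ≤ #A - 1 + p - ∑ z ∈ A with m z ≤ 1, (2 - m z) := by
  have hres := bud_res A m w
  rw [h.m_sum, Finset.filter_false_of_mem fun z hz => not_lt.2 (hV z hz), Finset.sum_empty] at hres
  have := h.O_ge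
  omega

end Bud

end Pool.Agent.Lib.MP_f04ccf_co
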