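import Mathlib

/-!
MP_f04ccf_co: the budget of the residual units from the tests of the rows and the tests of several slots (pure integers).

`A` is the set of the rows, `n = #A`. For the row `z`: `s`, `t` the surplus and the mass of the slot (`R - t` is the size of
the class, `t + s + 1` the number of the members), `T` its cover number; `w x z` is the number of the points of the host `x`
which are located at the row `z` (seen by the whole class of `z`), `N z` the excess of the bound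
`e ≤ T t + s (s + 1) / 2 + 1` in the tests of the row `z`. `test` is the test of the row `z` with `k` of its located points
(`k = 0` is slope one on the slot), `slots` is the test of all the slots of `V`, every located kill inside `V` counted with
the size of the class of its row, and `X V` is the error there (excess and losses). `1 - s z` units are needed at the
row `z`.

`Wst.main`: if all but `p` kills are located, then the residual units are at most `n - 3 + p`, unless a set `V` of at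
least two rows has `X V + (#V - 2) ∑ N ≥ 7`. The proof: the overfull rows `V` have the excess `≥ O_V - 1`; rows of `V`
which are not overfull with respect to the hosts in `V` can be removed; then `Y z = T z + (kills at z)` has `t Y ≥ 2 R - 4`,
`Y ≤ O`, and the test of the slots of `V` fails.
-/

set_option autoImplicit false

namespace Pool.Agent.Lib.MP_f04ccf_co

open Finset

/-- the rows, their located kills, the tests of the rows and of several slots -/
structure Wst {ι : Type*} (A : Finset ι) (R : ℤ) (s t T N : ι → ℤ) (w : ι → ι → ℤ) (X : Finset ι → ℤ) : Prop where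
  s_sum : ∑ z ∈ A, s z = 1
  sT : ∀ z ∈ A, s z + 1 ≤ T z
  T0 : ∀ z ∈ A, 0 ≤ T z
  t0 : ∀ z ∈ A, 0 ≤ t z
  h0 : ∀ z ∈ A, 0 ≤ t z + s z + 1
  hsum : ∑ z ∈ A, (t z + s z + 1) ≤ R + 1
  N0 : ∀ z ∈ A, 0 ≤ N z
  w0 : ∀ x ∈ A, ∀ z ∈ A, 0 ≤ w x z
  wd : ∀ x ∈ A, w x x = 0
  wT : ∀ x ∈ A, ∑ z ∈ A, w x z ≤ T x
  test : ∀ z ∈ A, ∀ k, 0 ≤ k → k ≤ ∑ x ∈ A, w x z →
    2 * R * (s z + k) ≤ 2 * (T z + k) * t z + (s z + k) * (s z + k + 1) + 2 + 2 * N z
  slots : ∀ V ⊆ A, 2 ≤ #V →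
    2 * ∑ z ∈ V, (R - t z) * ∑ x ∈ V, w x z + 2 * (R + 1 - #V) * ∑ z ∈ V, s z ≤
      2 * ∑ z ∈ V, T z * t z + #V * (#V - 1) * (R + 1) + (∑ z ∈ V, s z) ^ 2 + ∑ z ∈ V, s z + 2 * #V + 2 * X V

namespace Wst

variable {ι : Type*} {A : Finset ι} {R : ℤ} {s t T N : ι → ℤ} {w : ι → ι → ℤ} {X : Finset ι → ℤ}

theorem s_le (h : Wst A R s t T N w X) {z : ι} (hz : z ∈ A) : s z ≤ R := by
  have h1 : t z + s z + 1 ≤ ∑ z ∈ A, (t z + s z + 1) := Finset.single_le_sum (f := fun z => t z + s z + 1) h.h0 hz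
  have h2 := h.hsum
  have h3 := h.t0 z hz
  omega

theorem t_sum (h : Wst A R s t T N w X) : ∑ z ∈ A, t z ≤ R - #A := by
  have h2 := h.hsum
  have h3 : ∑ z ∈ A, (t z + s z + 1) = ∑ z ∈ A, t z + ∑ z ∈ A, s z + #A := by
    rw [Finset.sum_add_distrib, Finset.sum_add_distrib]
    simp
  have h4 := h.s_sum
  omega

theorem h_sub (h : Wst A R s t T N w X) {V : Finset ι} (hV : V ⊆ A) : ∑ z ∈ V, t z + ∑ z ∈ V, s z + #V ≤ R + 1 := by
  have h3 : ∑ z ∈ V, (t z + s z + 1) = ∑ z ∈ V, t z + ∑ z ∈ V, s z + #V := by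
    rw [Finset.sum_add_distrib, Finset.sum_add_distrib]
    simp
  have h4 := Finset.sum_le_sum_of_subset_of_nonneg (f := fun z => t z + s z + 1) hV fun z hz _ => h.h0 z hz
  have h5 := h.hsum
  omega

theorem t_sub (h : Wst A R s t T N w X) {V : Finset ι} (hV : V ⊆ A) : ∑ z ∈ V, t z ≤ R - #A := by
  have h4 := Finset.sum_le_sum_of_subset_of_nonneg (f := t) hV fun z hz _ => h.t0 z hz
  have h5 := h.t_sum
  omega

theorem O_sub (h : Wst A R s t T N w X) {V : Finset ι} (hV : V ⊆ A) : ∑ z ∈ V, s z + #V ≤ ∑ z ∈ V, T z := by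
  have h1 : ∑ z ∈ V, (s z + 1) ≤ ∑ z ∈ V, T z := Finset.sum_le_sum fun z hz => h.sT z (hV hz)
  rw [Finset.sum_add_distrib] at h1
  simpa using h1

theorem col_sub (h : Wst A R s t T N w X) {V : Finset ι} (hV : V ⊆ A) {z : ι} (hz : z ∈ A) :
    ∑ x ∈ V, w x z ≤ ∑ x ∈ A, w x z :=
  Finset.sum_le_sum_of_subset_of_nonneg hV fun x hx _ => h.w0 x hx z hz

theorem col0 (h : Wst A R s t T N w X) {V : Finset ι} (hV : V ⊆ A) {z : ι} (hz : z ∈ A) :
    0 ≤ ∑ x ∈ V, w x z :=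
  Finset.sum_nonneg fun x hx => h.w0 x (hV hx) z hz

theorem row_sub (h : Wst A R s t T N w X) {V : Finset ι} (hV : V ⊆ A) {x : ι} (hx : x ∈ A) :
    ∑ z ∈ V, w x z ≤ T x :=
  (Finset.sum_le_sum_of_subset_of_nonneg hV fun z hz _ => h.w0 x hx z hz).trans (h.wT x hx)

/-- all the kills inside `V` -/
theorem K_le (h : Wst A R s t T N w X) {V : Finset ι} (hV : V ⊆ A) :
    ∑ z ∈ V, ∑ x ∈ V, w x z ≤ ∑ z ∈ V, T z := by
  rw [Finset.sum_comm]
  exact Finset.sum_le_sum fun x hx => h.row_sub hV (hV hx)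

/-- `Y z = T z + (kills at z) ≤ O` -/
theorem Y_le [DecidableEq ι] (h : Wst A R s t T N w X) {V : Finset ι} (hV : V ⊆ A) {z : ι} (hz : z ∈ V) :
    T z + ∑ x ∈ V, w x z ≤ ∑ x ∈ V, T x := by
  rw [← Finset.add_sum_erase V (fun x => w x z) hz, ← Finset.add_sum_erase V T hz]
  have h1 := h.wd z (hV hz)
  have h2 : ∑ x ∈ V.erase z, w x z ≤ ∑ x ∈ V.erase z, T x := by
    refine Finset.sum_le_sum fun x hx => ?_
    have hxV := hV (Finset.mem_of_mem_erase hx)
    have h3 : w x z ≤ ∑ z ∈ A, w x z := Finset.single_le_sum (f := fun z => w x z) (fun z hz => h.w0 x hxV z hz) (hV hz)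
    exact h3.trans (h.wT x hxV)
  simp only [h1]
  omega

/-- one row never satisfies the excess inequality -/
theorem one_row (h : Wst A R s t T N w X) {z : ι} (hz : z ∈ A)
    (hI : ∑ z ∈ ({z} : Finset ι), T z - 1 ≤ ∑ z ∈ ({z} : Finset ι), (∑ x ∈ ({z} : Finset ι), w x z - (1 - s z))) : False := by
  simp only [Finset.sum_singleton, h.wd z hz] at hI
  have := h.sT z hz
  omega

/-- removal of the rows which are not overfull with respect to the hosts inside `V` -/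
theorem descend [DecidableEq ι] (h : Wst A R s t T N w X) :
    ∀ (n : ℕ) (V : Finset ι), #V = n → V ⊆ A → V.Nonempty →
      ∑ z ∈ V, T z - 1 ≤ ∑ z ∈ V, (∑ x ∈ V, w x z - (1 - s z)) →
      ∃ U ⊆ A, 2 ≤ #U ∧ ∑ z ∈ U, T z - 1 ≤ ∑ z ∈ U, (∑ x ∈ U, w x z - (1 - s z)) ∧
        ∀ z ∈ U, 2 - s z ≤ ∑ x ∈ U, w x z := by
  intro n
  induction n with
  | zero =>
    intro V hn hV hne hI
    rw [Finset.card_eq_zero] at hn
    exact absurd hn hne.ne_empty
  | succ n ih =>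
    intro V hn hV hne hI
    by_cases hall : ∀ z ∈ V, 2 - s z ≤ ∑ x ∈ V, w x z
    · refine ⟨V, hV, ?_, hI, hall⟩
      by_contra hc
      have h1 : #V = 1 := by
        have := Finset.card_pos.2 hne
        omega
      obtain ⟨z, rfl⟩ := Finset.card_eq_one.1 h1
      exact h.one_row (hV (Finset.mem_singleton_self z)) hI
    · push Not at hall
      obtain ⟨z, hz, hzl⟩ := hall
      have hzA := hV hz
      by_cases h1 : #V = 1
      · obtain ⟨z, rfl⟩ := Finset.card_eq_one.1 h1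
        exact (h.one_row (hV (Finset.mem_singleton_self z)) hI).elim
      · refine ih (V.erase z) (by rw [Finset.card_erase_of_mem hz]; omega) ((Finset.erase_subset _ _).trans hV) ?_ ?_
        · rw [← Finset.card_pos, Finset.card_erase_of_mem hz]
          have := Finset.card_pos.2 hne
          omega
        · have e1 : ∑ y ∈ V, (∑ x ∈ V, w x y - (1 - s y)) =
              (∑ x ∈ V, w x z - (1 - s z)) + ∑ y ∈ V.erase z, w z y +
                ∑ y ∈ V.erase z, (∑ x ∈ V.erase z, w x y - (1 - s y)) := by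
            rw [← Finset.add_sum_erase V _ hz, add_assoc, ← Finset.sum_add_distrib]
            congr 1
            refine Finset.sum_congr rfl fun y _ => ?_
            rw [← Finset.add_sum_erase V (fun x => w x y) hz]
            ring
          have e2 := Finset.add_sum_erase V T hz
          have e3 : ∑ y ∈ V.erase z, w z y ≤ T z := h.row_sub ((Finset.erase_subset _ _).trans hV) hzA
          omega

/-- the two products of two rows -/
private theorem pair_prod {a x y X1 Y1 : ℤ} (hx : 0 ≤ x) (hy : 0 ≤ y) (hX : 0 ≤ X1) (hY : 0 ≤ Y1) (h1 : a ≤ x * X1)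
    (h2 : a ≤ y * Y1) : 2 * a ≤ x * Y1 + y * X1 := by
  rcases le_or_gt a 0 with ha | ha
  · have := mul_nonneg hx hY
    have := mul_nonneg hy hX
    omega
  · by_contra hc
    push Not at hc
    have h3 : 0 ≤ x * Y1 + y * X1 := add_nonneg (mul_nonneg hx hY) (mul_nonneg hy hX)
    have h4 : (x * Y1 + y * X1) ^ 2 < (2 * a) ^ 2 := by nlinarith
    have h5 : a * a ≤ (x * X1) * (y * Y1) := mul_le_mul h1 h2 ha.le (by nlinarith)
    have h6 : 0 ≤ (x * Y1 - y * X1) ^ 2 := sq_nonneg _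
    nlinarith

/-- the test of an overfull row -/
theorem tY (h : Wst A R s t T N w X) (hR : 3 ≤ R) {V : Finset ι} (hV : V ⊆ A) {z : ι} (hz : z ∈ V)
    (hk : 2 - s z ≤ ∑ x ∈ V, w x z) : 2 * R - 4 - N z ≤ t z * (T z + ∑ x ∈ V, w x z) := by
  have hzA := hV hz
  have hcol := h.col_sub hV hzA
  have hc0 := h.col0 hV hzA
  have ht := h.t0 z hzA
  rcases le_or_gt (s z) 2 with hs | hs
  · have h1 := h.test z hzA (2 - s z) (by omega) (by omega)
    have h2 : t z * (T z + (2 - s z)) ≤ t z * (T z + ∑ x ∈ V, w x z) := mul_le_mul_of_nonneg_left (by omega) ht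
    nlinarith
  · have h1 := h.test z hzA 0 le_rfl (by omega)
    have h2 : t z * T z ≤ t z * (T z + ∑ x ∈ V, w x z) := mul_le_mul_of_nonneg_left (by omega) ht
    have h3 := h.s_le hzA
    have h4 : 0 ≤ (s z - 2) * (2 * R - s z - 3) := mul_nonneg (by omega) (by omega)
    nlinarith

/-- sums over ordered pairs of different rows -/
private theorem pair_sum [DecidableEq ι] (U : Finset ι) (a : ℤ) (t Y N : ι → ℤ)
    (hp : ∀ y ∈ U, ∀ z ∈ U, y ≠ z → 2 * a - 2 * (N y + N z) ≤ t y * Y z + t z * Y y) :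
    (#U : ℤ) * (#U - 1) * a - 2 * (#U - 1) * ∑ z ∈ U, N z ≤ ∑ y ∈ U, ∑ z ∈ U.erase y, t y * Y z := by
  have e1 : ∑ y ∈ U, ∑ z ∈ U.erase y, t z * Y y = ∑ y ∈ U, ∑ z ∈ U.erase y, t y * Y z := by
    have : ∀ f : ι → ι → ℤ, ∑ y ∈ U, ∑ z ∈ U.erase y, f y z = ∑ y ∈ U, ∑ z ∈ U, f y z - ∑ y ∈ U, f y y := by
      intro f
      rw [← Finset.sum_sub_distrib]
      refine Finset.sum_congr rfl fun y hy => ?_
      rw [← Finset.add_sum_erase U (fun z => f y z) hy]
      ring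
    rw [this, this, Finset.sum_comm]
  have e2 : ∑ y ∈ U, ∑ z ∈ U.erase y, (2 * a - 2 * (N y + N z)) ≤
      ∑ y ∈ U, ∑ z ∈ U.erase y, (t y * Y z + t z * Y y) := by
    refine Finset.sum_le_sum fun y hy => Finset.sum_le_sum fun z hz => ?_
    exact hp y hy z (Finset.mem_of_mem_erase hz) (Finset.ne_of_mem_erase hz).symm
  have e3 : ∑ y ∈ U, ∑ z ∈ U.erase y, (t y * Y z + t z * Y y) = 2 * ∑ y ∈ U, ∑ z ∈ U.erase y, t y * Y z := by
    simp only [Finset.sum_add_distrib, e1]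
    ring
  have e4 : ∑ y ∈ U, ∑ z ∈ U.erase y, (2 * a - 2 * (N y + N z)) =
      2 * ((#U : ℤ) * (#U - 1) * a - 2 * (#U - 1) * ∑ z ∈ U, N z) := by
    have : ∀ y ∈ U, ∑ z ∈ U.erase y, (2 * a - 2 * (N y + N z)) =
        (#U - 1) * (2 * a) - 2 * (#U - 2) * N y - 2 * ∑ z ∈ U, N z := by
      intro y hy
      have hc : ((#(U.erase y) : ℕ) : ℤ) = #U - 1 := by
        rw [Finset.card_erase_of_mem hy]
        have := Finset.card_pos.2 ⟨y, hy⟩
        push_cast [Nat.cast_sub (Nat.succ_le_of_lt this)]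
        ring
      have h1 := Finset.add_sum_erase U N hy
      rw [Finset.sum_sub_distrib, Finset.sum_const, nsmul_eq_mul, hc, ← Finset.mul_sum, Finset.sum_add_distrib,
        Finset.sum_const, nsmul_eq_mul, hc, ← h1]
      ring
    rw [Finset.sum_congr rfl this, Finset.sum_sub_distrib, Finset.sum_sub_distrib, Finset.sum_const, nsmul_eq_mul,
      Finset.sum_const, nsmul_eq_mul, ← Finset.mul_sum]
    ring
  omega

/-- **THE TEST OF THE SLOTS OF A CLOSED SET OF OVERFULL ROWS.** `O = ∑ T`, `K` = all the kills inside `V`, `δ = O - K`,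
`ε` = the excess over `O - 1`. -/
theorem key [DecidableEq ι] (h : Wst A R s t T N w X) (hR : 3 ≤ R) {V : Finset ι} (hV : V ⊆ A) (h2 : 2 ≤ #V)
    (hI : ∑ z ∈ V, T z - 1 ≤ ∑ z ∈ V, (∑ x ∈ V, w x z - (1 - s z)))
    (hk : ∀ z ∈ V, 2 - s z ≤ ∑ x ∈ V, w x z) {n' : ℤ} (hn : n' + ∑ z ∈ V, t z ≤ R) :
    2 * n' * ∑ z ∈ V, T z + (#V - 1) * (#V - 2) * (R - 5) + 2 * (∑ z ∈ V, s z + 1 - #V) ≤
      2 * #V * ∑ z ∈ V, s z + (∑ z ∈ V, s z) ^ 2 + ∑ z ∈ V, s z + 2 * #V + 2 * X V + 2 * (#V - 2) * ∑ z ∈ V, N z := by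
  classical
  set k : ι → ℤ := fun z => ∑ x ∈ V, w x z with hkdef
  set Y : ι → ℤ := fun z => T z + k z with hYdef
  set O : ℤ := ∑ z ∈ V, T z with hO
  set K : ℤ := ∑ z ∈ V, k z with hK
  set σ : ℤ := ∑ z ∈ V, s z with hσ
  set τ : ℤ := ∑ z ∈ V, t z with hτ
  have hKO : K ≤ O := h.K_le hV
  have hI' : O - 1 ≤ K - #V + σ := by
    have e : ∑ z ∈ V, (∑ x ∈ V, w x z - (1 - s z)) = K - #V + σ := by
      rw [Finset.sum_sub_distrib, Finset.sum_sub_distrib, Finset.sum_const, nsmul_eq_mul]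
      simp only [hK, hσ, hkdef]
      ring
    rw [e] at hI
    exact hI
  have hk0 : ∀ z ∈ V, 0 ≤ k z := fun z hz => h.col0 hV (hV hz)
  have hK0 : 0 ≤ K := Finset.sum_nonneg hk0
  have hY0 : ∀ z ∈ V, 0 ≤ Y z := fun z hz => add_nonneg (h.T0 z (hV hz)) (hk0 z hz)
  have hYO : ∀ z ∈ V, Y z ≤ O := fun z hz => h.Y_le hV hz
  have hYs : ∑ z ∈ V, Y z = O + K := by
    simp only [hYdef, Finset.sum_add_distrib, hO, hK]
  have ht0 : ∀ z ∈ V, 0 ≤ t z := fun z hz => h.t0 z (hV hz)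
  have hN0 : ∀ z ∈ V, 0 ≤ N z := fun z hz => h.N0 z (hV hz)
  have htY : ∀ z ∈ V, 2 * R - 4 - N z ≤ t z * Y z := fun z hz => h.tY hR hV hz (hk z hz)
  have hne : V.Nonempty := Finset.card_pos.1 (by omega)
  obtain ⟨y1, hy1, hmax⟩ := Finset.exists_max_image V Y hne
  -- the row y1 has the largest Y; the other rows
  have hU : ((#(V.erase y1) : ℕ) : ℤ) = #V - 1 := by
    rw [Finset.card_erase_of_mem hy1]
    push_cast [Nat.cast_sub (show 1 ≤ #V by omega)]
    ring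
  have hpair := pair_sum (V.erase y1) (2 * R - 4) t Y N (fun y hy z hz hyz => by
    have hyV := Finset.mem_of_mem_erase hy
    have hzV := Finset.mem_of_mem_erase hz
    have h1 := htY y hyV
    have h3 := htY z hzV
    have h4 := hN0 y hyV
    have h5 := hN0 z hzV
    have h6 := pair_prod (a := 2 * R - 4 - (N y + N z)) (ht0 y hyV) (ht0 z hzV) (hY0 y hyV) (hY0 z hzV) (by omega) (by omega)
    omega)
  rw [hU] at hpair
  have hNU : ∑ z ∈ V.erase y1, N z ≤ ∑ z ∈ V, N z :=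
    Finset.sum_le_sum_of_subset_of_nonneg (Finset.erase_subset _ _) fun z hz _ => hN0 z hz
  -- the load of one row
  have hrow : ∀ y ∈ V.erase y1, ∑ z ∈ (V.erase y1).erase y, t y * Y z - (O - K) * t y ≤ 2 * (t y * (K - Y y)) := by
    intro y hy
    have hyV := Finset.mem_of_mem_erase hy
    have h1 : ∑ z ∈ V, Y z = Y y1 + (Y y + ∑ z ∈ (V.erase y1).erase y, Y z) := by
      rw [Finset.add_sum_erase _ Y hy, Finset.add_sum_erase _ Y hy1]
    have h3 := hmax y hyV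
    rw [← Finset.mul_sum]
    have h4 : ∑ z ∈ (V.erase y1).erase y, Y z - (O - K) ≤ 2 * (K - Y y) := by
      have h5 : ∑ z ∈ (V.erase y1).erase y, Y z = O + K - Y y1 - Y y := by
        rw [hYs] at h1
        omega
      omega
    have := mul_le_mul_of_nonneg_left h4 (ht0 y hyV)
    linarith [this]
  have hrows : ∑ y ∈ V.erase y1, ∑ z ∈ (V.erase y1).erase y, t y * Y z - (O - K) * ∑ y ∈ V.erase y1, t y ≤
      2 * ∑ y ∈ V.erase y1, t y * (K - Y y) := by
    rw [Finset.mul_sum, Finset.mul_sum, ← Finset.sum_sub_distrib]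
    exact Finset.sum_le_sum hrow
  have hone : -((O - K) * t y1) ≤ t y1 * (K - Y y1) := by
    have h1 := mul_le_mul_of_nonneg_left (hYO y1 hy1) (ht0 y1 hy1)
    linarith [h1]
  have hall : ∑ y ∈ V, t y * (K - Y y) = t y1 * (K - Y y1) + ∑ y ∈ V.erase y1, t y * (K - Y y) :=
    (Finset.add_sum_erase V (fun y => t y * (K - Y y)) hy1).symm
  have htau : τ = t y1 + ∑ y ∈ V.erase y1, t y := (Finset.add_sum_erase V t hy1).symm
  have htU0 : 0 ≤ ∑ y ∈ V.erase y1, t y := Finset.sum_nonneg fun y hy => ht0 y (Finset.mem_of_mem_erase hy)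
  have hty1 := ht0 y1 hy1
  -- the total
  have hδ : 0 ≤ O - K := by omega
  have hA : (#V - 1) * (#V - 1 - 1) * (2 * R - 4) - 2 * (#V - 1 - 1) * ∑ z ∈ V, N z - 2 * (O - K) * τ ≤
      2 * ∑ y ∈ V, t y * (K - Y y) := by
    have h1 : (0 : ℤ) ≤ (#V : ℤ) - 1 - 1 := by
      have : (2 : ℤ) ≤ #V := by exact_mod_cast h2
      omega
    have h3 := mul_le_mul_of_nonneg_left hNU h1
    have h4 : 0 ≤ (O - K) * ∑ y ∈ V.erase y1, t y := mul_nonneg hδ htU0
    rw [hall, htau]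
    nlinarith [h3, h4, hrows, hone, hpair]
  have hS := h.slots V hV h2
  have e1 : ∑ z ∈ V, (R - t z) * ∑ x ∈ V, w x z = R * K - ∑ z ∈ V, t z * k z := by
    rw [hK, Finset.mul_sum, ← Finset.sum_sub_distrib]
    refine Finset.sum_congr rfl fun z _ => ?_
    simp only [hkdef]
    ring
  have e2 : ∑ y ∈ V, t y * (K - Y y) = K * τ - ∑ z ∈ V, T z * t z - ∑ z ∈ V, t z * k z := by
    rw [hτ, Finset.mul_sum, ← Finset.sum_sub_distrib, ← Finset.sum_sub_distrib]
    refine Finset.sum_congr rfl fun z _ => ?_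
    simp only [hYdef]
    ring
  rw [e1] at hS
  rw [e2] at hA
  -- 2 (R K - ∑ t Y) ≥ 2 n' K + 2 (K τ - ...)
  have h5 : 0 ≤ K * (R - n' - τ) := mul_nonneg hK0 (by omega)
  have h6 : 0 ≤ (O - K) * (R - n' - τ) := mul_nonneg hδ (by omega)
  have h7 : 0 ≤ (R + 1) * (K - #V + σ - (O - 1)) := mul_nonneg (by omega) (by omega)
  have h8 : 0 ≤ K - #V + σ - (O - 1) := by omega
  nlinarith [hS, hA, h5, h6, h7, h8]

/-- `∑ s ≥ #V - 1` -/
theorem s_ge (h : Wst A R s t T N w X) {V : Finset ι} (hV : V ⊆ A)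
    (hI : ∑ z ∈ V, T z - 1 ≤ ∑ z ∈ V, (∑ x ∈ V, w x z - (1 - s z))) : (#V : ℤ) - 1 ≤ ∑ z ∈ V, s z := by
  have e : ∑ z ∈ V, (∑ x ∈ V, w x z - (1 - s z)) = ∑ z ∈ V, ∑ x ∈ V, w x z - #V + ∑ z ∈ V, s z := by
    rw [Finset.sum_sub_distrib, Finset.sum_sub_distrib, Finset.sum_const, nsmul_eq_mul]
    ring
  have h1 := h.K_le hV
  omega

/-- a closed set of overfull rows needs a large error in its tests -/
theorem err [DecidableEq ι] (h : Wst A R s t T N w X) (h4 : 4 ≤ #A) (hR : 5 ≤ R) {V : Finset ι} (hV : V ⊆ A) (h2 : 2 ≤ #V)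
    (hI : ∑ z ∈ V, T z - 1 ≤ ∑ z ∈ V, (∑ x ∈ V, w x z - (1 - s z)))
    (hk : ∀ z ∈ V, 2 - s z ≤ ∑ x ∈ V, w x z) : 7 ≤ X V + (#V - 2) * ∑ z ∈ V, N z := by
  have hO := h.O_sub hV
  have hs := h.s_ge hV hI
  have hb : (2 : ℤ) ≤ #V := by exact_mod_cast h2
  have hA : (4 : ℤ) ≤ #A := by exact_mod_cast h4
  have k1 := h.key (by omega) hV h2 hI hk (n' := #A) (by have := h.t_sub hV; omega)
  have k2 := h.key (by omega) hV h2 hI hk (n' := ∑ z ∈ V, s z + #V - 1) (by have := h.h_sub hV; omega)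
  generalize (#V : ℤ) = b at *
  generalize (#A : ℤ) = n at *
  generalize ∑ z ∈ V, s z = σ at *
  generalize ∑ z ∈ V, T z = O at *
  generalize ∑ z ∈ V, N z = M at *
  generalize X V = Z at *
  have h5 : 0 ≤ (b - 1) * (b - 2) * (R - 5) := mul_nonneg (mul_nonneg (by omega) (by omega)) (by omega)
  have h6 : 0 ≤ (σ + b - 1) * (O - σ - b) := mul_nonneg (by omega) (by omega)
  have h7 : 0 ≤ (n - 4) * O := mul_nonneg (by omega) (by omega)
  rcases eq_or_ne b 2 with rfl | hb2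
  · rcases le_or_gt σ 2 with hσ | hσ
    · have h8 : 0 ≤ (σ - 1) * (2 - σ) := mul_nonneg (by omega) (by omega)
      nlinarith
    · have h8 : 0 ≤ (σ - 3) * (σ + 3) := mul_nonneg (by omega) (by omega)
      nlinarith
  · have hb3 : 3 ≤ b := by omega
    have h8 : 0 ≤ (σ - 2) * σ := mul_nonneg (by omega) (by omega)
    have h9 : 0 ≤ (b - 3) * σ := mul_nonneg (by omega) (by omega)
    have h10 : 0 ≤ (b - 3) * b := mul_nonneg (by omega) (by omega)
    nlinarith

/-- **THE BUDGET.** All but `p` kills are located: the residual units are at most `n - 3 + p`, or a closed set of overfull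
rows has a large error. -/
theorem main [DecidableEq ι] (h : Wst A R s t T N w X) (h4 : 4 ≤ #A) (hR : 5 ≤ R) {p : ℤ}
    (hp : ∑ z ∈ A, T z - p ≤ ∑ x ∈ A, ∑ z ∈ A, w x z) :
    ∑ z ∈ A, max (1 - s z - ∑ x ∈ A, w x z) 0 ≤ #A - 3 + p ∨
      ∃ V ⊆ A, 2 ≤ #V ∧ ∑ z ∈ V, T z - 1 ≤ ∑ z ∈ V, (∑ x ∈ V, w x z - (1 - s z)) ∧
        (∀ z ∈ V, 2 - s z ≤ ∑ x ∈ V, w x z) ∧ 7 ≤ X V + (#V - 2) * ∑ z ∈ V, N z := by
  by_cases hl : ∑ z ∈ A, max (1 - s z - ∑ x ∈ A, w x z) 0 ≤ #A - 3 + p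
  · exact Or.inl hl
  right
  push Not at hl
  set V : Finset ι := {z ∈ A | 1 - s z < ∑ x ∈ A, w x z} with hVdef
  have hV : V ⊆ A := Finset.filter_subset _ _
  have e1 : ∑ z ∈ A, max (1 - s z - ∑ x ∈ A, w x z) 0 =
      ∑ z ∈ V, (∑ x ∈ A, w x z - (1 - s z)) + ∑ z ∈ A, (1 - s z) - ∑ z ∈ A, ∑ x ∈ A, w x z := by
    rw [hVdef, Finset.sum_filter, ← Finset.sum_add_distrib, ← Finset.sum_sub_distrib]
    refine Finset.sum_congr rfl fun z _ => ?_
    split_ifs with h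
    · rw [max_eq_right (by omega)]
      ring
    · rw [max_eq_left (by omega)]
      ring
  have e2 : ∑ z ∈ A, (1 - s z) = #A - 1 := by
    rw [Finset.sum_sub_distrib, h.s_sum]
    simp
  have e3 : ∑ z ∈ A, ∑ x ∈ A, w x z = ∑ x ∈ A, ∑ z ∈ A, w x z := Finset.sum_comm
  have h1 : ∑ z ∈ A, T z - 1 ≤ ∑ z ∈ V, (∑ x ∈ A, w x z - (1 - s z)) := by omega
  have hI : ∑ z ∈ V, T z - 1 ≤ ∑ z ∈ V, (∑ x ∈ V, w x z - (1 - s z)) := by
    have e4 : ∑ z ∈ V, (∑ x ∈ A, w x z - (1 - s z)) =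
        ∑ z ∈ V, (∑ x ∈ V, w x z - (1 - s z)) + ∑ x ∈ A \ V, ∑ z ∈ V, w x z := by
      rw [Finset.sum_comm (s := A \ V), ← Finset.sum_add_distrib]
      refine Finset.sum_congr rfl fun z _ => ?_
      rw [← Finset.sum_sdiff hV]
      ring
    have e5 : ∑ x ∈ A \ V, ∑ z ∈ V, w x z ≤ ∑ x ∈ A \ V, T x :=
      Finset.sum_le_sum fun x hx => h.row_sub hV (Finset.sdiff_subset hx)
    have e6 := Finset.sum_sdiff (f := T) hV
    omega
  have hne : V.Nonempty := by
    rw [Finset.nonempty_iff_ne_empty]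
    intro hc
    rw [hc] at h1
    have h3 := h.O_sub (Finset.Subset.refl A)
    have h5 := h.s_sum
    simp only [Finset.sum_empty] at h1
    omega
  obtain ⟨U, hU, hU2, hUI, hUk⟩ := h.descend _ V rfl hV hne hI
  exact ⟨U, hU, hU2, hUI, hUk, h.err h4 hR hU hU2 hUI hUk⟩

/-- the budget without errors -/
theorem main0 [DecidableEq ι] (h : Wst A R s t T N w X) (h4 : 4 ≤ #A) (hR : 5 ≤ R) {p : ℤ}
    (hp : ∑ z ∈ A, T z - p ≤ ∑ x ∈ A, ∑ z ∈ A, w x z)
    (hX : ∀ V ⊆ A, 2 ≤ #V → X V + (#V - 2) * ∑ z ∈ V, N z ≤ 6) :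
    ∑ z ∈ A, max (1 - s z - ∑ x ∈ A, w x z) 0 ≤ #A - 3 + p := by
  rcases h.main h4 hR hp with h1 | ⟨V, hV, h2, _, _, h7⟩
  · exact h1
  · have := hX V hV h2
    omega

end Wst

end Pool.Agent.Lib.MP_f04ccf_co
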