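import Pool.Agent.Lib.MP_f04ccf_co.M.Grid

/-!
MP_f04ccf_co: the clique cover lemma (helper34, note 15267 (4)): in a frame, the vertices outside the
doubles which have no neighbour in an independent set `B` are covered by `t - |B|` cliques.
-/

set_option autoImplicit false

namespace Pool.Agent.Lib.MP_f04ccf_co

open Finset

attribute [local instance] Classical.propDecidable

namespace PFrame

variable {V : Type*} {G : SimpleGraph V} {r m t : ℕ} {Z T : Finset V}

/-- the graph on the classes given by the doubles in `B` -/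
def rowG (G : SimpleGraph V) (T B : Finset V) : SimpleGraph V where
  Adj x y := x ≠ y ∧ ∃ u ∈ B, ends G T u = {x, y}
  symm := ⟨fun x y h => ⟨h.1.symm, by
    obtain ⟨u, hu, he⟩ := h.2
    exact ⟨u, hu, by rw [he, pair_comm]⟩⟩⟩
  loopless := ⟨fun x h => h.1 rfl⟩

/-- the component of the class `x` -/
noncomputable def comp (G : SimpleGraph V) (T B : Finset V) (x : V) : Finset V :=
  T.filter (fun y => (rowG G T B).Reachable x y)

lemma mem_comp {B : Finset V} {x y : V} :
    y ∈ comp G T B x ↔ y ∈ T ∧ (rowG G T B).Reachable x y := mem_filter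

lemma comp_eq {B : Finset V} {x y : V} (h : (rowG G T B).Reachable x y) :
    comp G T B x = comp G T B y := by
  ext z
  rw [mem_comp, mem_comp]
  exact ⟨fun h1 => ⟨h1.1, h.symm.trans h1.2⟩, fun h1 => ⟨h1.1, h.trans h1.2⟩⟩

/-- joined classes lie in a set with small deficiency -/
lemma exists_tight {B : Finset V} (hBZ : B ⊆ Z) (hBT : ∀ u ∈ B, u ∈ T → ends G T u = ∅)
    {x y : V} (hx : x ∈ T) (h : (rowG G T B).Reachable x y) :
    ∃ A : Finset V, A ⊆ T ∧ x ∈ A ∧ y ∈ A ∧ A.card ≤ (B ∩ ZI G Z T A).card + 1 := by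
  rw [SimpleGraph.reachable_iff_reflTransGen] at h
  induction h with
  | refl => exact ⟨{x}, singleton_subset_iff.2 hx, mem_singleton_self x, mem_singleton_self x,
      by rw [card_singleton]; omega⟩
  | @tail b c _ hbc ih =>
    obtain ⟨A, hA, hxA, hbA, hc⟩ := ih
    by_cases hcA : c ∈ A
    · exact ⟨A, hA, hxA, hcA, hc⟩
    · obtain ⟨hbc', u, hu, he⟩ := hbc
      have hcT : c ∈ T := by
        have : c ∈ ends G T u := by rw [he]; exact mem_insert_of_mem (mem_singleton_self c)
        exact (mem_ends.1 this).1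
      refine ⟨insert c A, insert_subset hcT hA, mem_insert_of_mem hxA, mem_insert_self c A, ?_⟩
      rw [card_insert_of_notMem hcA]
      have huT : u ∉ T := by
        intro huT
        have h1 := hBT u hu huT
        rw [he] at h1
        exact insert_ne_empty _ _ h1
      have h1 : insert u (B ∩ ZI G Z T A) ⊆ B ∩ ZI G Z T (insert c A) := by
        intro z hz
        rcases mem_insert.1 hz with rfl | hz
        · refine mem_inter.2 ⟨hu, mem_ZI.2 ⟨hBZ hu, fun h' => absurd h' huT, ?_⟩⟩
          rw [he]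
          intro a ha
          rcases mem_insert.1 ha with rfl | ha
          · exact mem_insert_of_mem hbA
          · rw [mem_singleton.1 ha]; exact mem_insert_self c A
        · obtain ⟨h2, h3⟩ := mem_inter.1 hz
          exact mem_inter.2 ⟨h2, ZI_mono (subset_insert c A) h3⟩
      have h2 : u ∉ B ∩ ZI G Z T A := by
        intro h'
        have h3 := (mem_ZI.1 (mem_inter.1 h').2).2.2
        rw [he] at h3
        exact hcA (h3 (mem_insert_of_mem (mem_singleton_self c)))
      have h3 := card_le_card h1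
      rw [card_insert_of_notMem h2] at h3
      omega

/-- **CLIQUE COVER LEMMA** -/
theorem clique_cover (h : PFrame G r m t Z T) {B : Finset V} (hB : B ⊆ Z) (hi : Ind G B) :
    ∃ F : Finset (Finset V), F.card + B.card ≤ t ∧ (∀ S ∈ F, Clq G S) ∧
      ∀ v ∈ Z, v ∉ BB G Z T → v ∉ B → dg G B v = 0 → ∃ S ∈ F, v ∈ S := by
  have hBT : ∀ u ∈ B, u ∈ T → ends G T u = ∅ := fun u _ hu => h.ends_T hu
  set N := Z.filter (fun v => v ∉ BB G Z T ∧ v ∉ B ∧ dg G B v = 0) with hN
  have hnadj : ∀ v ∈ N, ∀ b ∈ B, ¬ G.Adj v b := by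
    intro v hv b hb hvb
    have h1 := (mem_filter.1 hv).2.2.2
    unfold dg at h1
    rw [card_eq_zero, filter_eq_empty_iff] at h1
    exact h1 hb hvb
  have hrow : ∀ v ∈ N, ∃ q, q ∈ T ∧ v ∈ Cl G Z T q := by
    intro v hv
    obtain ⟨h1, h2, _⟩ := mem_filter.1 hv
    obtain ⟨q, hq, hvq⟩ := h.exists_Cl h1 h2
    exact ⟨q, hq, hvq⟩
  choose! ρ hρ using hrow
  -- the points of `N` above a set `A` of classes
  have key : ∀ A ⊆ T, ∀ M : Finset V, M ⊆ N → Ind G M → (∀ v ∈ M, ρ v ∈ A) →
      M.card + (B ∩ ZI G Z T A).card ≤ A.card := by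
    intro A hA M hM hMi hMA
    have hd : Disjoint M (B ∩ ZI G Z T A) := by
      rw [disjoint_left]
      intro v hv hv'
      exact (mem_filter.1 (hM hv)).2.2.1 (mem_inter.1 hv').1
    have h1 := h.alpha_ZI hA (M ∪ (B ∩ ZI G Z T A)) (by
      intro v hv
      rcases mem_union.1 hv with hv | hv
      · obtain ⟨h2, h3⟩ := hρ v (hM hv)
        exact ZI_mono (singleton_subset_iff.2 (hMA v hv)) (h.Cl_sub_ZI h2 h3)
      · exact (mem_inter.1 hv).2) (by
      intro a ha b hb hab
      rcases mem_union.1 ha with ha | ha <;> rcases mem_union.1 hb with hb | hb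
      · exact hMi a ha b hb hab
      · exact hnadj a (hM ha) b (mem_inter.1 hb).1 hab
      · exact hnadj b (hM hb) a (mem_inter.1 ha).1 hab.symm
      · exact hi a (mem_inter.1 ha).1 b (mem_inter.1 hb).1 hab)
    rw [card_union_of_disjoint hd] at h1
    exact h1
  have key2 : ∀ v ∈ N, ∀ v' ∈ N, (rowG G T B).Reachable (ρ v) (ρ v') → v ≠ v' → G.Adj v v' := by
    intro v hv v' hv' hr hne
    by_contra hn
    obtain ⟨A, hA, h1, h2, h3⟩ := exists_tight hB hBT (hρ v hv).1 hr
    have h4 := key A hA {v, v'} (by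
      intro a ha
      rcases mem_insert.1 ha with rfl | ha
      · exact hv
      · rw [mem_singleton.1 ha]; exact hv') (by
      intro a ha b hb hab
      simp only [mem_insert, mem_singleton] at ha hb
      rcases ha with rfl | rfl <;> rcases hb with rfl | rfl
      · exact G.loopless.irrefl _ hab
      · exact hn hab
      · exact hn hab.symm
      · exact G.loopless.irrefl _ hab) (by
      intro a ha
      rcases mem_insert.1 ha with rfl | ha
      · exact h1
      · rw [mem_singleton.1 ha]; exact h2)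
    rw [card_pair hne] at h4
    omega
  set 𝓕 := T.image (comp G T B) with h𝓕
  have hcomp : ∀ C ∈ 𝓕, ∃ x ∈ T, C = comp G T B x := by
    intro C hC
    obtain ⟨x, hx, rfl⟩ := mem_image.1 hC
    exact ⟨x, hx, rfl⟩
  have hsub : ∀ C ∈ 𝓕, C ⊆ T := by
    intro C hC
    obtain ⟨x, _, rfl⟩ := hcomp C hC
    exact filter_subset _ _
  have hself : ∀ x ∈ T, x ∈ comp G T B x := fun x hx =>
    mem_comp.2 ⟨hx, SimpleGraph.Reachable.refl x⟩
  have hdis : ∀ C ∈ 𝓕, ∀ C' ∈ 𝓕, C ≠ C' → Disjoint C C' := by
    intro C hC C' hC' hne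
    obtain ⟨x, _, rfl⟩ := hcomp C hC
    obtain ⟨x', _, rfl⟩ := hcomp C' hC'
    rw [disjoint_left]
    intro y hy hy'
    apply hne
    rw [comp_eq (mem_comp.1 hy).2, comp_eq (mem_comp.1 hy').2]
  have hcard : ∑ C ∈ 𝓕, C.card = t := by
    rw [← h.cardT]
    have h1 : 𝓕.biUnion id = T := by
      ext y
      rw [mem_biUnion]
      constructor
      · rintro ⟨C, hC, hy⟩
        exact hsub C hC hy
      · intro hy
        exact ⟨comp G T B y, mem_image_of_mem _ hy, hself y hy⟩
    rw [← h1]
    exact (card_biUnion (t := id) (fun C hC C' hC' hne => hdis C hC C' hC' hne)).symm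
  -- `B` is distributed to the components
  have hBsum : B.card ≤ ∑ C ∈ 𝓕, (B ∩ ZI G Z T C).card := by
    refine (card_le_card ?_).trans card_biUnion_le
    intro b hb
    rw [mem_biUnion]
    have hbZ := hB hb
    by_cases hbT : b ∈ T
    · refine ⟨comp G T B b, mem_image_of_mem _ hbT, mem_inter.2 ⟨hb, mem_ZI.2 ⟨hbZ, ?_, ?_⟩⟩⟩
      · exact fun _ => hself b hbT
      · rw [h.ends_T hbT]; exact empty_subset _
    · have h1 := h.k1 hbZ hbT
      have h2 : (ends G T b).Nonempty := card_pos.1 (by rw [card_ends]; omega)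
      obtain ⟨x, hx⟩ := h2
      have hxT := (mem_ends.1 hx).1
      refine ⟨comp G T B x, mem_image_of_mem _ hxT,
        mem_inter.2 ⟨hb, mem_ZI.2 ⟨hbZ, fun h' => absurd h' hbT, ?_⟩⟩⟩
      intro y hy
      refine mem_comp.2 ⟨(mem_ends.1 hy).1, ?_⟩
      by_cases hxy : x = y
      · rw [hxy]
      · refine SimpleGraph.Adj.reachable ⟨hxy, b, hb, ?_⟩
        symm
        apply eq_of_subset_of_card_le
        · intro a ha
          rcases mem_insert.1 ha with rfl | ha
          · exact hx
          · rw [mem_singleton.1 ha]; exact hy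
        · rw [card_pair hxy, card_ends]
          exact h.k2 b (mem_sdiff.2 ⟨hbZ, hbT⟩)
  -- the components with a point of `N`
  set 𝓝 := 𝓕.filter (fun C => ∃ v ∈ N, ρ v ∈ C) with h𝓝
  refine ⟨𝓝.image (fun C => N.filter (fun v => ρ v ∈ C)), ?_, ?_, ?_⟩
  · have h1 : (𝓝.image (fun C => N.filter (fun v => ρ v ∈ C))).card ≤ 𝓝.card := card_image_le
    have h2 : 𝓝.card + ∑ C ∈ 𝓕, (B ∩ ZI G Z T C).card ≤ ∑ C ∈ 𝓕, C.card := by
      rw [h𝓝, card_filter, ← sum_add_distrib]
      refine sum_le_sum fun C hC => ?_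
      split_ifs with h3
      · obtain ⟨v, hv, hvC⟩ := h3
        have h4 := key C (hsub C hC) {v} (singleton_subset_iff.2 hv) (by
          intro a ha b hb hab
          rw [mem_singleton] at ha hb
          subst ha; subst hb
          exact G.loopless.irrefl _ hab) (by
          intro a ha
          rw [mem_singleton.1 ha]
          exact hvC)
        rw [card_singleton] at h4
        exact h4
      · have h4 := key C (hsub C hC) ∅ (empty_subset _) (by
          intro a ha
          exact absurd ha (notMem_empty a)) (by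
          intro a ha
          exact absurd ha (notMem_empty a))
        rw [card_empty] at h4
        exact h4
    rw [hcard] at h2
    omega
  · intro S hS
    obtain ⟨C, hC, rfl⟩ := mem_image.1 hS
    intro v hv v' hv' hne
    obtain ⟨h1, h2⟩ := mem_filter.1 hv
    obtain ⟨h1', h2'⟩ := mem_filter.1 hv'
    obtain ⟨x, _, hx⟩ := hcomp C (mem_filter.1 hC).1
    rw [hx] at h2 h2'
    exact key2 v h1 v' h1' ((mem_comp.1 h2).2.symm.trans (mem_comp.1 h2').2) hne
  · intro v hv hvB hvB' hv0
    have hvN : v ∈ N := mem_filter.2 ⟨hv, hvB, hvB', hv0⟩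
    have h1 := (hρ v hvN).1
    refine ⟨N.filter (fun u => ρ u ∈ comp G T B (ρ v)), mem_image.2 ⟨comp G T B (ρ v), ?_, rfl⟩,
      mem_filter.2 ⟨hvN, hself _ h1⟩⟩
    exact mem_filter.2 ⟨mem_image_of_mem _ h1, v, hvN, hself _ h1⟩

end PFrame

end Pool.Agent.Lib.MP_f04ccf_co
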