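import Pool.Agent.Lib.MP_f04ccf_co.S2Top

/-!
MP_f04ccf_co, notes 16457 (B), 16518 (2), 16515 (4) (clique units): the packing of a host.

* `Pk`: PC pairs `B` (member, class point; the copies are used once) and a partition `Ps` of the
  other members into independent sets (singletons included).  The value is `|H| - |Ps|`.
* `exists_pkopt`: least `|Ps|`, then largest `|B|`, then a third function largest.
* `PkOpt.edge`: two parts have an edge between them.
* `PkOpt.used`: a member of a part misses only class points whose copy is used.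
* `PkOpt.energy`: `NE (H ∪ C) ≤ h (h - 1) - p (p - 1) + 2 ∑ nd C w` over the members `w` of `B`.
* `Pk.value`, `Pk.card_le`.
-/

set_option autoImplicit false

namespace Pool.Agent.Lib.MP_f04ccf_co

open Finset

attribute [local instance] Classical.propDecidable

section Pack

variable {ι V : Type*} {G : SimpleGraph V} {C H : Finset V} {tl : V → ι}

variable (G C H tl) in
/-- a packing of the host with members `H`, class part `C`, tails `tl` -/
structure Pk (B : Finset (V × V)) (Ps : Finset (Finset V)) : Prop where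
  bH : ∀ e ∈ B, e.1 ∈ H
  bC : ∀ e ∈ B, e.2 ∈ C
  bN : ∀ e ∈ B, ¬ G.Adj e.1 e.2
  b1 : ∀ e ∈ B, ∀ f ∈ B, e.1 = f.1 → e = f
  b2 : ∀ e ∈ B, ∀ f ∈ B, e.2 = f.2 → tl e.1 = tl f.1 → e = f
  ne : ∀ P ∈ Ps, P.Nonempty
  sub : ∀ P ∈ Ps, P ⊆ H
  ind : ∀ P ∈ Ps, Ind G P
  dis : ∀ P ∈ Ps, ∀ Q ∈ Ps, P ≠ Q → Disjoint P Q
  dw : ∀ e ∈ B, ∀ P ∈ Ps, e.1 ∉ P
  cov : ∀ v ∈ H, (∃ e ∈ B, e.1 = v) ∨ ∃ P ∈ Ps, v ∈ P

variable (G C H tl) in
/-- an optimal packing: least number of parts, then most PC pairs, then largest `φ` -/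
structure PkOpt (φ : Finset (V × V) → Finset (Finset V) → ℕ) (B : Finset (V × V))
    (Ps : Finset (Finset V)) : Prop extends Pk G C H tl B Ps where
  min : ∀ B' Ps', Pk G C H tl B' Ps' → Ps.card ≤ Ps'.card
  max : ∀ B' Ps', Pk G C H tl B' Ps' → Ps'.card = Ps.card → B'.card ≤ B.card
  max' : ∀ B' Ps', Pk G C H tl B' Ps' → Ps'.card = Ps.card → B'.card = B.card →
    φ B' Ps' ≤ φ B Ps

/-- the packing by single members -/
lemma pk_single : Pk G C H tl ∅ (H.image fun v => {v}) where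
  bH := fun e he => absurd he (notMem_empty e)
  bC := fun e he => absurd he (notMem_empty e)
  bN := fun e he => absurd he (notMem_empty e)
  b1 := fun e he => absurd he (notMem_empty e)
  b2 := fun e he => absurd he (notMem_empty e)
  ne := fun P hP => by
    obtain ⟨v, -, rfl⟩ := mem_image.1 hP
    exact singleton_nonempty v
  sub := fun P hP => by
    obtain ⟨v, hv, rfl⟩ := mem_image.1 hP
    exact singleton_subset_iff.2 hv
  ind := fun P hP => by
    obtain ⟨v, -, rfl⟩ := mem_image.1 hP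
    intro x hx y hy
    rw [mem_singleton.1 hx, mem_singleton.1 hy]
    exact G.irrefl
  dis := fun P hP Q hQ hPQ => by
    obtain ⟨v, -, rfl⟩ := mem_image.1 hP
    obtain ⟨w, -, rfl⟩ := mem_image.1 hQ
    rw [disjoint_singleton]
    rintro rfl
    exact hPQ rfl
  dw := fun e he => absurd he (notMem_empty e)
  cov := fun v hv => Or.inr ⟨{v}, mem_image.2 ⟨v, hv, rfl⟩, mem_singleton_self v⟩

/-- optimal packings exist -/
theorem exists_pkopt (φ : Finset (V × V) → Finset (Finset V) → ℕ) :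
    ∃ B Ps, PkOpt G C H tl φ B Ps := by
  set K : Finset (Finset (V × V) × Finset (Finset V)) :=
    ((H ×ˢ C).powerset ×ˢ H.powerset.powerset).filter fun q => Pk G C H tl q.1 q.2 with hK
  have hmem : ∀ B Ps, Pk G C H tl B Ps → (B, Ps) ∈ K := by
    intro B Ps h
    rw [hK, mem_filter, mem_product, mem_powerset, mem_powerset]
    refine ⟨⟨fun e he => mem_product.2 ⟨h.bH e he, h.bC e he⟩, fun P hP => ?_⟩, h⟩
    exact mem_powerset.2 (h.sub P hP)
  have hne : K.Nonempty := ⟨_, hmem _ _ pk_single⟩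
  obtain ⟨q0, hq0, hm0⟩ := exists_min_image K (fun q => q.2.card) hne
  obtain ⟨q1, hq1, hm1⟩ := exists_max_image (K.filter fun q => q.2.card = q0.2.card)
    (fun q => q.1.card) ⟨q0, mem_filter.2 ⟨hq0, rfl⟩⟩
  obtain ⟨h11, h12⟩ := mem_filter.1 hq1
  obtain ⟨q2, hq2, hm2⟩ := exists_max_image
    (K.filter fun q => q.2.card = q0.2.card ∧ q.1.card = q1.1.card)
    (fun q => φ q.1 q.2) ⟨q1, mem_filter.2 ⟨h11, h12, rfl⟩⟩
  obtain ⟨h21, h22, h23⟩ := mem_filter.1 hq2
  refine ⟨q2.1, q2.2, (mem_filter.1 h21).2, fun B' Ps' h => ?_, fun B' Ps' h h' => ?_,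
    fun B' Ps' h h' h'' => ?_⟩
  · rw [h22]
    exact hm0 _ (hmem _ _ h)
  · rw [h23]
    exact hm1 (B', Ps') (mem_filter.2 ⟨hmem _ _ h, h'.trans h22⟩)
  · exact hm2 (B', Ps') (mem_filter.2 ⟨hmem _ _ h, h'.trans h22, h''.trans h23⟩)

variable {B : Finset (V × V)} {Ps : Finset (Finset V)} {φ : Finset (V × V) → Finset (Finset V) → ℕ}

namespace Pk

/-- the part of a point is unique -/
lemma part_eq (h : Pk G C H tl B Ps) {P Q : Finset V} (hP : P ∈ Ps) (hQ : Q ∈ Ps) {v : V}
    (hv : v ∈ P) (hv' : v ∈ Q) : P = Q := by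
  by_contra hne
  exact disjoint_left.1 (h.dis P hP Q hQ hne) hv hv'

/-- merging two parts without an edge between them -/
theorem merge (h : Pk G C H tl B Ps) {P Q : Finset V} (hP : P ∈ Ps) (hQ : Q ∈ Ps)
    (hn : ∀ x ∈ P, ∀ y ∈ Q, ¬ G.Adj x y) :
    Pk G C H tl B (insert (P ∪ Q) ((Ps.erase P).erase Q)) := by
  have hd : ∀ R ∈ (Ps.erase P).erase Q, Disjoint (P ∪ Q) R := by
    intro R hR
    obtain ⟨h1, h2⟩ := mem_erase.1 hR
    obtain ⟨h3, h4⟩ := mem_erase.1 h2
    rw [disjoint_union_left]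
    exact ⟨h.dis P hP R h4 h3.symm, h.dis Q hQ R h4 h1.symm⟩
  have hin : ∀ R ∈ (Ps.erase P).erase Q, R ∈ Ps := fun R hR =>
    mem_of_mem_erase (mem_of_mem_erase hR)
  refine ⟨h.bH, h.bC, h.bN, h.b1, h.b2, ?_, ?_, ?_, ?_, ?_, ?_⟩
  · intro R hR
    rcases mem_insert.1 hR with rfl | hR
    · exact (h.ne P hP).mono subset_union_left
    · exact h.ne R (hin R hR)
  · intro R hR
    rcases mem_insert.1 hR with rfl | hR
    · exact union_subset (h.sub P hP) (h.sub Q hQ)
    · exact h.sub R (hin R hR)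
  · intro R hR
    rcases mem_insert.1 hR with rfl | hR
    · intro x hx y hy
      rcases mem_union.1 hx with hx | hx <;> rcases mem_union.1 hy with hy | hy
      · exact h.ind P hP x hx y hy
      · exact hn x hx y hy
      · exact fun h' => hn y hy x hx h'.symm
      · exact h.ind Q hQ x hx y hy
    · exact h.ind R (hin R hR)
  · intro R hR S hS hRS
    rcases mem_insert.1 hR with rfl | hR <;> rcases mem_insert.1 hS with rfl | hS
    · exact absurd rfl hRS
    · exact hd S hS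
    · exact (hd R hR).symm
    · exact h.dis R (hin R hR) S (hin S hS) hRS
  · intro e he R hR
    rcases mem_insert.1 hR with rfl | hR
    · intro h1
      rcases mem_union.1 h1 with h2 | h2
      · exact h.dw e he P hP h2
      · exact h.dw e he Q hQ h2
    · exact h.dw e he R (hin R hR)
  · intro v hv
    rcases h.cov v hv with h1 | ⟨R, hR, hvR⟩
    · exact Or.inl h1
    · refine Or.inr ?_
      by_cases h2 : R = P
      · exact ⟨P ∪ Q, mem_insert_self _ _, mem_union_left _ (h2 ▸ hvR)⟩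
      by_cases h3 : R = Q
      · exact ⟨P ∪ Q, mem_insert_self _ _, mem_union_right _ (h3 ▸ hvR)⟩
      · exact ⟨R, mem_insert_of_mem (mem_erase.2 ⟨h3, mem_erase.2 ⟨h2, hR⟩⟩), hvR⟩

/-- pinning a member `v` of the part `P` to a class point `a` whose copy is free -/
theorem pin (h : Pk G C H tl B Ps) {P : Finset V} (hP : P ∈ Ps) {v : V} (hv : v ∈ P) {a : V}
    (ha : a ∈ C) (hn : ¬ G.Adj v a) (hfree : ∀ e ∈ B, e.2 = a → tl e.1 ≠ tl v)
    {Ps' : Finset (Finset V)}
    (h1 : ∀ R ∈ Ps', R.Nonempty) (h2 : ∀ R ∈ Ps', R = P.erase v ∨ R ∈ Ps ∧ R ≠ P)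
    (h3 : ∀ R ∈ Ps, R ≠ P → R ∈ Ps') (h4 : (P.erase v).Nonempty → P.erase v ∈ Ps') :
    Pk G C H tl (insert (v, a) B) Ps' := by
  have hvB : ∀ e ∈ B, e.1 ≠ v := fun e he h5 => h.dw e he P hP (h5 ▸ hv)
  have hd : ∀ R ∈ Ps, R ≠ P → Disjoint (P.erase v) R := fun R hR hRP =>
    (h.dis P hP R hR hRP.symm).mono_left (erase_subset _ _)
  refine ⟨?_, ?_, ?_, ?_, ?_, h1, ?_, ?_, ?_, ?_, ?_⟩
  · intro e he
    rcases mem_insert.1 he with rfl | he
    · exact h.sub P hP hv
    · exact h.bH e he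
  · intro e he
    rcases mem_insert.1 he with rfl | he
    · exact ha
    · exact h.bC e he
  · intro e he
    rcases mem_insert.1 he with rfl | he
    · exact hn
    · exact h.bN e he
  · intro e he f hf hef
    rcases mem_insert.1 he with rfl | he <;> rcases mem_insert.1 hf with rfl | hf
    · rfl
    · exact absurd hef.symm (hvB f hf)
    · exact absurd hef (hvB e he)
    · exact h.b1 e he f hf hef
  · intro e he f hf hef htl
    rcases mem_insert.1 he with rfl | he <;> rcases mem_insert.1 hf with rfl | hf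
    · rfl
    · exact absurd htl.symm (hfree f hf hef.symm)
    · exact absurd htl (hfree e he hef)
    · exact h.b2 e he f hf hef htl
  · intro R hR
    rcases h2 R hR with rfl | ⟨h5, -⟩
    · exact (erase_subset _ _).trans (h.sub P hP)
    · exact h.sub R h5
  · intro R hR
    rcases h2 R hR with rfl | ⟨h5, -⟩
    · exact fun x hx y hy => h.ind P hP x (mem_of_mem_erase hx) y (mem_of_mem_erase hy)
    · exact h.ind R h5
  · intro R hR S hS hRS
    rcases h2 R hR with rfl | ⟨h5, h6⟩ <;> rcases h2 S hS with rfl | ⟨h7, h8⟩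
    · exact absurd rfl hRS
    · exact hd S h7 h8
    · exact (hd R h5 h6).symm
    · exact h.dis R h5 S h7 hRS
  · intro e he R hR
    rcases mem_insert.1 he with rfl | he
    · rcases h2 R hR with rfl | ⟨h5, h6⟩
      · exact notMem_erase v P
      · exact fun h7 => h6 (h.part_eq h5 hP h7 hv)
    · rcases h2 R hR with rfl | ⟨h5, -⟩
      · exact fun h7 => h.dw e he P hP (mem_of_mem_erase h7)
      · exact h.dw e he R h5
  · intro u hu
    by_cases huv : u = v
    · exact Or.inl ⟨(v, a), mem_insert_self _ _, huv.symm⟩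
    rcases h.cov u hu with ⟨e, he, h5⟩ | ⟨R, hR, huR⟩
    · exact Or.inl ⟨e, mem_insert_of_mem he, h5⟩
    · refine Or.inr ?_
      by_cases h5 : R = P
      · have h6 : u ∈ P.erase v := mem_erase.2 ⟨huv, h5 ▸ huR⟩
        exact ⟨P.erase v, h4 ⟨u, h6⟩, h6⟩
      · exact ⟨R, h3 R hR h5, huR⟩

/-- the members of the PC pairs -/
lemma card_W (h : Pk G C H tl B Ps) : (B.image Prod.fst).card = B.card :=
  card_image_of_injOn fun e he f hf hef => h.b1 e (by exact_mod_cast he) f (by exact_mod_cast hf) hef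

lemma W_sub (h : Pk G C H tl B Ps) : B.image Prod.fst ⊆ H := by
  intro v hv
  obtain ⟨e, he, rfl⟩ := mem_image.1 hv
  exact h.bH e he

/-- the members outside the PC pairs are the union of the parts -/
lemma union_eq (h : Pk G C H tl B Ps) : H \ B.image Prod.fst = Ps.biUnion id := by
  ext v
  rw [mem_sdiff, mem_biUnion]
  constructor
  · rintro ⟨h1, h2⟩
    rcases h.cov v h1 with ⟨e, he, h3⟩ | ⟨P, hP, h3⟩
    · exact absurd (mem_image.2 ⟨e, he, h3⟩) h2
    · exact ⟨P, hP, h3⟩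
  · rintro ⟨P, hP, h1⟩
    refine ⟨h.sub P hP h1, fun h2 => ?_⟩
    obtain ⟨e, he, h3⟩ := mem_image.1 h2
    exact h.dw e he P hP (h3 ▸ h1)

lemma card_H (h : Pk G C H tl B Ps) : H.card = B.card + ∑ P ∈ Ps, P.card := by
  have h1 := card_sdiff_add_card_eq_card h.W_sub
  rw [h.union_eq, card_biUnion (t := id) (fun P hP Q hQ hPQ => h.dis P hP Q hQ hPQ),
    h.card_W] at h1
  simp only [id] at h1
  omega

/-- **the value**: `|H| = |Ps| + |B| + ∑ (|Q| - 1)` over the parts with at least two members -/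
theorem value (h : Pk G C H tl B Ps) :
    H.card = Ps.card + B.card + ∑ P ∈ Ps.filter (fun P => 2 ≤ P.card), (P.card - 1) := by
  have h1 : ∑ P ∈ Ps, P.card = ∑ P ∈ Ps, (1 + (P.card - 1)) :=
    sum_congr rfl fun P hP => by
      have := card_pos.2 (h.ne P hP)
      omega
  have h2 : ∑ P ∈ Ps, (P.card - 1) = ∑ P ∈ Ps.filter (fun P => 2 ≤ P.card), (P.card - 1) := by
    rw [sum_filter]
    refine sum_congr rfl fun P hP => ?_
    split_ifs with h3
    · rfl
    · omega
  rw [h.card_H, h1, sum_add_distrib, h2, sum_const, smul_eq_mul, mul_one]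
  ring

/-- independent sets of at most `n` members -/
theorem card_le (h : Pk G C H tl B Ps) {n : ℕ} (hn : ∀ P ∈ Ps, P.card ≤ n) :
    H.card ≤ B.card + Ps.card * n := by
  rw [h.card_H]
  have := sum_le_card_nsmul Ps (fun P => P.card) n hn
  rw [smul_eq_mul] at this
  omega

end Pk

namespace PkOpt

/-- **two parts have an edge between them** -/
theorem edge (h : PkOpt G C H tl φ B Ps) {P Q : Finset V} (hP : P ∈ Ps) (hQ : Q ∈ Ps)
    (hPQ : P ≠ Q) : ∃ x ∈ P, ∃ y ∈ Q, G.Adj x y := by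
  by_contra hcon
  push Not at hcon
  have h1 := h.min _ _ (h.toPk.merge hP hQ hcon)
  have h2 := card_insert_le (P ∪ Q) ((Ps.erase P).erase Q)
  have h3 : Q ∈ Ps.erase P := mem_erase.2 ⟨hPQ.symm, hQ⟩
  have h4 := card_erase_add_one h3
  have h5 := card_erase_add_one hP
  omega

/-- **a member of a part misses only class points whose copy is used** -/
theorem used (h : PkOpt G C H tl φ B Ps) {P : Finset V} (hP : P ∈ Ps) {v : V} (hv : v ∈ P) {a : V}
    (ha : a ∈ C) (hn : ¬ G.Adj v a) : ∃ e ∈ B, e.2 = a ∧ tl e.1 = tl v := by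
  by_contra hcon
  push Not at hcon
  have hvB : (v, a) ∉ B := fun h1 => h.dw _ h1 P hP hv
  by_cases hne : (P.erase v).Nonempty
  · have h1 : Pk G C H tl (insert (v, a) B) (insert (P.erase v) (Ps.erase P)) := by
      refine h.toPk.pin hP hv ha hn (fun e he h2 => hcon e he h2) ?_ ?_ ?_ ?_
      · intro R hR
        rcases mem_insert.1 hR with rfl | hR
        · exact hne
        · exact h.ne R (mem_of_mem_erase hR)
      · intro R hR
        rcases mem_insert.1 hR with rfl | hR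
        · exact Or.inl rfl
        · exact Or.inr ⟨mem_of_mem_erase hR, ne_of_mem_erase hR⟩
      · exact fun R hR hRP => mem_insert_of_mem (mem_erase.2 ⟨hRP, hR⟩)
      · exact fun _ => mem_insert_self _ _
    have h2 := h.min _ _ h1
    have h3 := card_insert_le (P.erase v) (Ps.erase P)
    have h4 := card_erase_add_one hP
    have h5 := h.max _ _ h1 (by omega)
    rw [card_insert_of_notMem hvB] at h5
    omega
  · have h1 : Pk G C H tl (insert (v, a) B) (Ps.erase P) := by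
      refine h.toPk.pin hP hv ha hn (fun e he h2 => hcon e he h2) ?_ ?_ ?_ ?_
      · exact fun R hR => h.ne R (mem_of_mem_erase hR)
      · exact fun R hR => Or.inr ⟨mem_of_mem_erase hR, ne_of_mem_erase hR⟩
      · exact fun R hR hRP => mem_erase.2 ⟨hRP, hR⟩
      · exact fun h2 => absurd h2 hne
    have h2 := h.min _ _ h1
    have h4 := card_erase_add_one hP
    omega

/-- the edges inside the parts -/
theorem E_parts (h : PkOpt G C H tl φ B Ps) :
    Ps.card * Ps.card ≤ E G (H \ B.image Prod.fst) + Ps.card := by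
  set U : Finset V := H \ B.image Prod.fst with hU
  have hE : E G U = ((U ×ˢ U).filter fun e => G.Adj e.1 e.2).card := by
    unfold E
    rw [card_filter, sum_product]
    refine sum_congr rfl fun x _ => ?_
    unfold dg
    rw [card_filter]
  -- the part of a point
  have hp : ∀ v : V, ∃ P : Finset V, ∀ Q ∈ Ps, v ∈ Q → P = Q := by
    intro v
    by_cases h1 : ∃ Q ∈ Ps, v ∈ Q
    · obtain ⟨Q, hQ, hv⟩ := h1
      exact ⟨Q, fun R hR hvR => h.part_eq hQ hR hv hvR⟩
    · exact ⟨∅, fun Q hQ hv => absurd ⟨Q, hQ, hv⟩ h1⟩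
  choose p hp using hp
  have h1 : Ps.offDiag ⊆ ((U ×ˢ U).filter fun e => G.Adj e.1 e.2).image
      fun e => (p e.1, p e.2) := by
    intro PQ hPQ
    obtain ⟨P, Q⟩ := PQ
    obtain ⟨hP, hQ, hne⟩ := mem_offDiag.1 hPQ
    obtain ⟨x, hx, y, hy, hxy⟩ := h.edge hP hQ hne
    refine mem_image.2 ⟨(x, y), mem_filter.2 ⟨mem_product.2 ⟨?_, ?_⟩, hxy⟩, ?_⟩
    · rw [hU, h.toPk.union_eq]
      exact mem_biUnion.2 ⟨P, hP, hx⟩
    · rw [hU, h.toPk.union_eq]
      exact mem_biUnion.2 ⟨Q, hQ, hy⟩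
    · rw [Prod.mk.injEq]
      exact ⟨hp x P hP hx, hp y Q hQ hy⟩
  have h2 := (card_le_card h1).trans card_image_le
  rw [offDiag_card] at h2
  rw [hE]
  omega

/-- the arcs of a member outside the PC pairs -/
theorem arcs (h : PkOpt G C H tl φ B Ps) (h32 : ∀ v ∈ H, ∀ w ∈ H, ∀ a ∈ C, v ≠ w → tl v = tl w →
    ¬ G.Adj v a → ¬ G.Adj w a → G.Adj v w) {v : V} (hv : v ∈ H \ B.image Prod.fst) :
    nd G C v ≤ dg G (B.image Prod.fst) v := by
  have hv' := hv
  rw [h.toPk.union_eq, mem_biUnion] at hv'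
  obtain ⟨P, hP, hvP⟩ := hv'
  have h1 : ∀ a ∈ C.filter (fun a => a ≠ v ∧ ¬ G.Adj v a), ∃ e ∈ B, e.2 = a ∧ tl e.1 = tl v := by
    intro a ha
    obtain ⟨h2, -, h3⟩ := mem_filter.1 ha
    exact h.used hP hvP h2 h3
  choose! f hf1 hf2 hf3 using h1
  unfold nd dg
  refine card_le_card_of_injOn (fun a => (f a).1) ?_ ?_
  · intro a ha
    have ha' : a ∈ C.filter (fun a => a ≠ v ∧ ¬ G.Adj v a) := by exact_mod_cast ha
    obtain ⟨h2, -, h3⟩ := mem_filter.1 ha'
    have h4 := hf1 a ha'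
    have h5 : (f a).1 ∈ B.image Prod.fst := mem_image_of_mem _ h4
    have h6 : v ≠ (f a).1 := fun h7 => (mem_sdiff.1 hv).2 (h7 ▸ h5)
    have h8 : ¬ G.Adj (f a).1 a := by
      have := h.bN _ h4
      rwa [hf2 a ha'] at this
    have : (f a).1 ∈ (B.image Prod.fst).filter fun w => G.Adj v w :=
      mem_filter.2 ⟨h5, h32 v (mem_sdiff.1 hv).1 _ (h.bH _ h4) a h2 h6 (hf3 a ha').symm h3 h8⟩
    exact_mod_cast this
  · intro a ha b hb hab
    have ha' : a ∈ C.filter (fun a => a ≠ v ∧ ¬ G.Adj v a) := by exact_mod_cast ha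
    have hb' : b ∈ C.filter (fun a => a ≠ v ∧ ¬ G.Adj v a) := by exact_mod_cast hb
    rw [← hf2 a ha', ← hf2 b hb', h.b1 _ (hf1 a ha') _ (hf1 b hb') hab]

/-- **the energy**: `NE (H ∪ C) + p (p - 1) ≤ h (h - 1) + 2 ∑ nd C w` over the PC pairs -/
theorem energy (h : PkOpt G C H tl φ B Ps) (h32 : ∀ v ∈ H, ∀ w ∈ H, ∀ a ∈ C, v ≠ w →
    tl v = tl w → ¬ G.Adj v a → ¬ G.Adj w a → G.Adj v w) (hC : Clq G C) (hHC : Disjoint H C) :
    (NE G (H ∪ C) : ℤ) + Ps.card * (Ps.card - 1)
      ≤ (H.card : ℤ) * (H.card - 1) + 2 * ∑ e ∈ B, (nd G C e.1 : ℤ) := by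
  set W : Finset V := B.image Prod.fst with hW
  set U : Finset V := H \ W with hU
  have hWH : W ⊆ H := h.toPk.W_sub
  have hd : Disjoint U W := sdiff_disjoint
  have hUW : U ∪ W = H := sdiff_union_of_subset hWH
  have h1 := NE_union (G := G) hHC
  rw [NE_clq hC, nd_comm, add_zero] at h1
  have h2 : ∑ v ∈ H, nd G C v = ∑ v ∈ U, nd G C v + ∑ v ∈ W, nd G C v := by
    rw [← sum_union hd, hUW]
  have h3 : ∑ v ∈ W, nd G C v = ∑ e ∈ B, nd G C e.1 := by
    rw [hW, sum_image fun e he f hf hef =>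
      h.b1 e (by exact_mod_cast he) f (by exact_mod_cast hf) hef]
  have h4 := E_add_NE (G := G) H
  have h5 : E G U + 2 * ∑ v ∈ U, dg G W v ≤ E G H := by
    have h6 : E G H = ∑ v ∈ U, dg G (U ∪ W) v + ∑ v ∈ W, dg G (U ∪ W) v := by
      rw [← sum_union hd, hUW]
      rfl
    have h7 : ∀ v, dg G (U ∪ W) v = dg G U v + dg G W v := by
      intro v
      unfold dg
      rw [filter_union, card_union_of_disjoint (disjoint_filter_filter hd)]
    have h8 : ∑ v ∈ W, dg G U v = ∑ v ∈ U, dg G W v := by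
      have h9 := sum_card_bipartiteAbove_eq_sum_card_bipartiteBelow (s := W) (t := U)
        (fun a b => G.Adj a b)
      unfold dg
      simp only [bipartiteAbove, bipartiteBelow] at h9
      rw [h9]
      refine sum_congr rfl fun b _ => ?_
      congr 1
      ext a
      simp [G.adj_comm]
    rw [h6]
    simp only [h7, sum_add_distrib]
    rw [h8]
    have h10 : E G U = ∑ v ∈ U, dg G U v := rfl
    rw [h10]
    omega
  have h6 := h.E_parts
  have h7 : ∑ v ∈ U, nd G C v ≤ ∑ v ∈ U, dg G W v :=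
    sum_le_sum fun v hv => h.arcs h32 hv
  have h8 : ((∑ e ∈ B, nd G C e.1 : ℕ) : ℤ) = ∑ e ∈ B, (nd G C e.1 : ℤ) := by push_cast; rfl
  rw [← h8]
  have h9 : ((Ps.card : ℤ) * Ps.card) ≤ E G U + Ps.card := by exact_mod_cast h6
  have h10 : ((E G U : ℤ) + 2 * ((∑ v ∈ U, dg G W v : ℕ) : ℤ)) ≤ E G H := by exact_mod_cast h5
  have h11 : (((∑ v ∈ U, nd G C v : ℕ)) : ℤ) ≤ ((∑ v ∈ U, dg G W v : ℕ) : ℤ) := by
    exact_mod_cast h7
  have h12 : (NE G (H ∪ C) : ℤ) = NE G H + 2 * ((∑ v ∈ U, nd G C v : ℕ) : ℤ)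
      + 2 * ((∑ e ∈ B, nd G C e.1 : ℕ) : ℤ) := by
    rw [h1, h2, h3]
    push_cast
    ring
  rw [h12]
  linarith

end PkOpt

end Pack

end Pool.Agent.Lib.MP_f04ccf_co
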