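import Pool.Agent.Lib.MP_f04ccf_co.M.MatQ
import Pool.Agent.Lib.MP_f04ccf_co.M.UnitE
import Pool.Agent.Lib.MP_f04ccf_co.M.Pack

/-!
MP_f04ccf_co, note 16515: the homes of the doubles of a cell by a minimum three-sided cover.

* `Cell3 A B I X K L M`: the doubles `I` of a cell, `A w`, `B w` the class points missed by `w`, homes `X` at the first row
  and `I \ X` at the second one; `K ⊆ X`, `A w ⊆ L` for `w ∈ X \ K`, `B w ⊆ M` for `w ∈ I \ X`, and the Hall conditions
  of a minimal cover.  `exists_cell3`.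
* `PCx X A P`: the PC pairs `P` pin a maximal set of members of `X`.  `PCx.free`: a member which is not
  pinned misses only used points.  `PCx.used`: all of `L` is used.  `PkOpt.pcx`: an optimal packing.
* `Cell3.pay`: the free arcs are at most the class edges between free points and points outside `M`.
* `WSys.pair_gen3`, `WSys.pair_cell`: the hits of two hosts at each other's rows and the free arcs of
  both are at most `e (S_x, S_z)`.
* `PFrame.exists_homes3`: homes of the whole frame.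
-/

set_option autoImplicit false

namespace Pool.Agent.Lib.MP_f04ccf_co

open Finset

attribute [local instance] Classical.propDecidable

section Cov

variable {V : Type*}

/-- homes of a cell by a minimal three-sided cover `K`, `L`, `M` -/
structure Cell3 (A B : V → Finset V) (I X K L M : Finset V) : Prop where
  kx : K ⊆ X
  xi : X ⊆ I
  xl : ∀ w ∈ X, w ∉ K → A w ⊆ L
  zm : ∀ w ∈ I, w ∉ X → B w ⊆ M
  h1x : ∀ K' ⊆ K, K'.card ≤ (K'.biUnion fun w => A w \ L).card
  h1z : ∀ K' ⊆ K, K'.card ≤ (K'.biUnion fun w => B w \ M).card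
  h2 : ∀ L' ⊆ L, L'.card ≤ ((X \ K).filter fun w => ¬ Disjoint (A w) L').card
  h3 : ∀ M' ⊆ M, M'.card ≤ ((I \ X).filter fun w => ¬ Disjoint (B w) M').card
  nx : ∀ w ∈ X, (A w).Nonempty → (B w).Nonempty
  nz : ∀ w ∈ I, w ∉ X → (A w).Nonempty

/-- **minimal covers give homes** -/
theorem exists_cell3 (A B : V → Finset V) (I : Finset V) :
    ∃ X K L M, Cell3 A B I X K L M := by
  have hex : ∃ n, ∃ K L M : Finset V, K ⊆ I ∧ (∀ w ∈ I, w ∉ K → A w ⊆ L ∨ B w ⊆ M) ∧
      K.card + L.card + M.card = n :=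
    ⟨_, I, ∅, ∅, Subset.refl _, fun w hw hw' => absurd hw hw', rfl⟩
  obtain ⟨K, L, M, hK, hc, hn⟩ := Nat.find_spec hex
  have hmin : ∀ K' L' M' : Finset V, K' ⊆ I → (∀ w ∈ I, w ∉ K' → A w ⊆ L' ∨ B w ⊆ M') →
      K.card + L.card + M.card ≤ K'.card + L'.card + M'.card := by
    intro K' L' M' h1 h2
    rw [hn]
    exact Nat.find_min' hex ⟨K', L', M', h1, h2, rfl⟩
  have h1z : ∀ K' ⊆ K, K'.card ≤ (K'.biUnion fun w => B w \ M).card := by
    intro K' hK'
    have h1 := hmin (K \ K') L (M ∪ K'.biUnion fun w => B w \ M) (sdiff_subset.trans hK) (by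
      intro w hw hw'
      by_cases h2 : w ∈ K
      · have h3 : w ∈ K' := by
          by_contra h4
          exact hw' (mem_sdiff.2 ⟨h2, h4⟩)
        right
        intro c hc'
        by_cases h4 : c ∈ M
        · exact mem_union_left _ h4
        · exact mem_union_right _ (mem_biUnion.2 ⟨w, h3, mem_sdiff.2 ⟨hc', h4⟩⟩)
      · rcases hc w hw h2 with h3 | h3
        · exact Or.inl h3
        · exact Or.inr (h3.trans subset_union_left))
    have h2 := card_union_le M (K'.biUnion fun w => B w \ M)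
    have h3 := card_sdiff_add_card_eq_card hK'
    omega
  have h1x : ∀ K' ⊆ K, K'.card ≤ (K'.biUnion fun w => A w \ L).card := by
    intro K' hK'
    have h1 := hmin (K \ K') (L ∪ K'.biUnion fun w => A w \ L) M (sdiff_subset.trans hK) (by
      intro w hw hw'
      by_cases h2 : w ∈ K
      · have h3 : w ∈ K' := by
          by_contra h4
          exact hw' (mem_sdiff.2 ⟨h2, h4⟩)
        left
        intro c hc'
        by_cases h4 : c ∈ L
        · exact mem_union_left _ h4
        · exact mem_union_right _ (mem_biUnion.2 ⟨w, h3, mem_sdiff.2 ⟨hc', h4⟩⟩)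
      · rcases hc w hw h2 with h3 | h3
        · exact Or.inl (h3.trans subset_union_left)
        · exact Or.inr h3)
    have h2 := card_union_le L (K'.biUnion fun w => A w \ L)
    have h3 := card_sdiff_add_card_eq_card hK'
    omega
  have hne : ∀ w ∈ K, (B w).Nonempty := by
    intro w hw
    have h1 := h1z {w} (singleton_subset_iff.2 hw)
    rw [card_singleton, singleton_biUnion] at h1
    exact (card_pos.1 h1).mono sdiff_subset
  set X : Finset V := I.filter fun w => w ∈ K ∨ ¬ B w ⊆ M ∨ A w = ∅ with hX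
  have hKX : K ⊆ X := fun w hw => mem_filter.2 ⟨hK hw, Or.inl hw⟩
  refine ⟨X, K, L, M, hKX, filter_subset _ _, ?_, ?_, h1x, h1z, ?_, ?_, ?_, ?_⟩
  · intro w hw hwK
    obtain ⟨h1, h2⟩ := mem_filter.1 hw
    rcases h2 with h2 | h2 | h2
    · exact absurd h2 hwK
    · exact (hc w h1 hwK).resolve_right h2
    · rw [h2]
      exact empty_subset _
  · intro w hw hwX
    by_contra h1
    exact hwX (mem_filter.2 ⟨hw, Or.inr (Or.inl h1)⟩)
  · intro L' hL'
    by_contra hlt
    rw [not_le] at hlt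
    set N := (X \ K).filter fun w => ¬ Disjoint (A w) L' with hN
    have h1 := hmin (K ∪ N) (L \ L') M (union_subset hK
      ((filter_subset _ _).trans (sdiff_subset.trans (filter_subset _ _)))) (by
      intro w hw hw'
      have hwK : w ∉ K := fun h => hw' (mem_union_left _ h)
      have hwN : w ∉ N := fun h => hw' (mem_union_right _ h)
      by_cases h2 : B w ⊆ M
      · exact Or.inr h2
      · have h3 := (hc w hw hwK).resolve_right h2
        have h4 : Disjoint (A w) L' := by
          by_contra h5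
          exact hwN (mem_filter.2 ⟨mem_sdiff.2 ⟨mem_filter.2 ⟨hw, Or.inr (Or.inl h2)⟩, hwK⟩, h5⟩)
        exact Or.inl (subset_sdiff.2 ⟨h3, h4⟩))
    have h2 := card_union_le K N
    have h3 := card_sdiff_add_card_eq_card hL'
    omega
  · intro M' hM'
    by_contra hlt
    rw [not_le] at hlt
    set N := (I \ X).filter fun w => ¬ Disjoint (B w) M' with hN
    have h1 := hmin (K ∪ N) L (M \ M') (union_subset hK
      ((filter_subset _ _).trans sdiff_subset)) (by
      intro w hw hw'
      have hwK : w ∉ K := fun h => hw' (mem_union_left _ h)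
      have hwN : w ∉ N := fun h => hw' (mem_union_right _ h)
      by_cases h2 : A w ⊆ L
      · exact Or.inl h2
      · have h3 := (hc w hw hwK).resolve_left h2
        have h6 : w ∉ X := by
          intro h7
          rcases (mem_filter.1 h7).2 with h8 | h8 | h8
          · exact hwK h8
          · exact h8 h3
          · exact h2 (by rw [h8]; exact empty_subset _)
        have h4 : Disjoint (B w) M' := by
          by_contra h5
          exact hwN (mem_filter.2 ⟨mem_sdiff.2 ⟨hw, h6⟩, h5⟩)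
        exact Or.inr (subset_sdiff.2 ⟨h3, h4⟩))
    have h2 := card_union_le K N
    have h3 := card_sdiff_add_card_eq_card hM'
    omega
  · intro w hw hA
    rcases (mem_filter.1 hw).2 with h1 | h1 | h1
    · exact hne w h1
    · rw [nonempty_iff_ne_empty]
      intro h2
      exact h1 (by rw [h2]; exact empty_subset _)
    · rw [h1] at hA
      exact absurd hA not_nonempty_empty
  · intro w hw hwX
    rw [nonempty_iff_ne_empty]
    intro h1
    exact hwX (mem_filter.2 ⟨hw, Or.inr (Or.inr h1)⟩)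

/-- PC pairs: members of `X`, points of `A w`, all different -/
structure PCm (X : Finset V) (A : V → Finset V) (P : Finset (V × V)) : Prop where
  mem : ∀ e ∈ P, e.1 ∈ X
  arc : ∀ e ∈ P, e.2 ∈ A e.1
  i1 : ∀ e ∈ P, ∀ f ∈ P, e.1 = f.1 → e = f
  i2 : ∀ e ∈ P, ∀ f ∈ P, e.2 = f.2 → e = f

/-- PC pairs which pin a maximal set of members -/
structure PCx (X : Finset V) (A : V → Finset V) (P : Finset (V × V)) : Prop extends PCm X A P where
  mx : ∀ P', PCm X A P' → P.image Prod.fst ⊆ P'.image Prod.fst → P'.card ≤ P.card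

lemma PCm.card_fst {X : Finset V} {A : V → Finset V} {P : Finset (V × V)} (h : PCm X A P) :
    (P.image Prod.fst).card = P.card :=
  card_image_of_injOn fun e he f hf hef => h.i1 e (by exact_mod_cast he) f (by exact_mod_cast hf) hef

/-- **a member which is not pinned misses only used points** -/
theorem PCx.free {X : Finset V} {A : V → Finset V} {P : Finset (V × V)} (h : PCx X A P) {w a : V}
    (hw : w ∈ X) (hwP : w ∉ P.image Prod.fst) (ha : a ∈ A w) : a ∈ P.image Prod.snd := by
  by_contra haP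
  have h1 : PCm X A (insert (w, a) P) := by
    refine ⟨?_, ?_, ?_, ?_⟩
    · intro e he
      rcases mem_insert.1 he with rfl | he
      · exact hw
      · exact h.mem e he
    · intro e he
      rcases mem_insert.1 he with rfl | he
      · exact ha
      · exact h.arc e he
    · intro e he f hf hef
      rcases mem_insert.1 he with rfl | he <;> rcases mem_insert.1 hf with rfl | hf
      · rfl
      · exact absurd (mem_image.2 ⟨f, hf, hef.symm⟩) hwP
      · exact absurd (mem_image.2 ⟨e, he, hef⟩) hwP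
      · exact h.i1 e he f hf hef
    · intro e he f hf hef
      rcases mem_insert.1 he with rfl | he <;> rcases mem_insert.1 hf with rfl | hf
      · rfl
      · exact absurd (mem_image.2 ⟨f, hf, hef.symm⟩) haP
      · exact absurd (mem_image.2 ⟨e, he, hef⟩) haP
      · exact h.i2 e he f hf hef
  have h2 := h.mx _ h1 (image_subset_image (subset_insert _ _))
  rw [card_insert_of_notMem fun h3 => hwP (mem_image.2 ⟨_, h3, rfl⟩)] at h2
  omega

/-- **all of `L` is used** -/
theorem PCx.used {X : Finset V} {A : V → Finset V} {P : Finset (V × V)} (h : PCx X A P)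
    {Y L : Finset V} (hY : Y ⊆ X) (hYL : ∀ w ∈ Y, A w ⊆ L)
    (hall : ∀ L' ⊆ L, L'.card ≤ (Y.filter fun w => ¬ Disjoint (A w) L').card) :
    L ⊆ P.image Prod.snd := by
  intro a₀ ha₀
  by_contra hfree
  -- Hall
  obtain ⟨m, hmi, hm⟩ : ∃ m : {a // a ∈ L} → V, Function.Injective m ∧
      ∀ a, m a ∈ Y.filter fun w => a.1 ∈ A w := by
    refine (all_card_le_biUnion_card_iff_exists_injective
      (fun a : {a // a ∈ L} => Y.filter fun w => a.1 ∈ A w)).1 fun s => ?_
    have h1 := hall (s.image Subtype.val) (by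
      intro a ha
      obtain ⟨b, -, rfl⟩ := mem_image.1 ha
      exact b.2)
    rw [card_image_of_injective _ Subtype.val_injective] at h1
    refine h1.trans (card_le_card ?_)
    intro w hw
    obtain ⟨h2, h3⟩ := mem_filter.1 hw
    rw [not_disjoint_iff] at h3
    obtain ⟨a, h4, h5⟩ := h3
    obtain ⟨b, hb, rfl⟩ := mem_image.1 h5
    exact mem_biUnion.2 ⟨b, hb, mem_filter.2 ⟨h2, h4⟩⟩
  obtain ⟨m', hm'⟩ : ∃ m' : V → V, ∀ a (ha : a ∈ L), m' a = m ⟨a, ha⟩ :=
    ⟨fun a => if ha : a ∈ L then m ⟨a, ha⟩ else a, fun a ha => dif_pos ha⟩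
  have hmY : ∀ a ∈ L, m' a ∈ Y ∧ a ∈ A (m' a) := by
    intro a ha
    rw [hm' a ha]
    exact mem_filter.1 (hm ⟨a, ha⟩)
  have hminj : ∀ a ∈ L, ∀ b ∈ L, m' a = m' b → a = b := by
    intro a ha b hb hab
    rw [hm' a ha, hm' b hb] at hab
    exact congrArg Subtype.val (hmi hab)
  -- the path
  set R : V → V → Prop := fun a b => a ∈ L ∧ ∃ e ∈ P, e.1 = m' a ∧ e.2 = b with hR
  set Q : Finset V := L.filter fun a => Relation.ReflTransGen R a₀ a with hQ
  have ha₀Q : a₀ ∈ Q := mem_filter.2 ⟨ha₀, Relation.ReflTransGen.refl⟩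
  have hQL : Q ⊆ L := filter_subset _ _
  obtain ⟨a₁, ha₁, hna₁⟩ : ∃ a ∈ Q, m' a ∉ P.image Prod.fst := by
    by_contra hcon
    push Not at hcon
    have h1 : ∀ a ∈ Q, ∃ e ∈ P, e.1 = m' a := fun a ha => mem_image.1 (hcon a ha)
    choose! g hg1 hg2 using h1
    have h2 : Q.card ≤ (Q.erase a₀).card := by
      refine card_le_card_of_injOn (fun a => (g a).2) ?_ ?_
      · intro a ha
        have ha' : a ∈ Q := by exact_mod_cast ha
        have h3 : (g a).2 ∈ L := by
          refine hYL (m' a) (hmY a (hQL ha')).1 ?_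
          rw [← hg2 a ha']
          exact h.arc _ (hg1 a ha')
        have h4 : (g a).2 ∈ Q := mem_filter.2 ⟨h3,
          (mem_filter.1 ha').2.tail ⟨hQL ha', g a, hg1 a ha', hg2 a ha', rfl⟩⟩
        have h5 : (g a).2 ≠ a₀ := fun h6 => hfree (mem_image.2 ⟨g a, hg1 a ha', h6⟩)
        have : (g a).2 ∈ Q.erase a₀ := mem_erase.2 ⟨h5, h4⟩
        exact_mod_cast this
      · intro a ha b hb hab
        have ha' : a ∈ Q := by exact_mod_cast ha
        have hb' : b ∈ Q := by exact_mod_cast hb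
        have h3 := h.i2 _ (hg1 a ha') _ (hg1 b hb') hab
        refine hminj a (hQL ha') b (hQL hb') ?_
        rw [← hg2 a ha', ← hg2 b hb', h3]
    have h3 := card_erase_add_one ha₀Q
    omega
  -- re-pinning
  set P' : Finset (V × V) := (P.filter fun e => e.1 ∉ Q.image m') ∪ Q.image fun a => (m' a, a)
    with hP'
  have hmemP' : ∀ e ∈ P', (e ∈ P ∧ e.1 ∉ Q.image m') ∨ (e.2 ∈ Q ∧ e.1 = m' e.2) := by
    intro e he
    rcases mem_union.1 he with h1 | h1
    · exact Or.inl (mem_filter.1 h1)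
    · obtain ⟨a, ha, rfl⟩ := mem_image.1 h1
      exact Or.inr ⟨ha, rfl⟩
  have hPP : PCm X A P' := by
    refine ⟨?_, ?_, ?_, ?_⟩
    · intro e he
      rcases hmemP' e he with ⟨h1, -⟩ | ⟨h1, h2⟩
      · exact h.mem e h1
      · rw [h2]
        exact hY (hmY _ (hQL h1)).1
    · intro e he
      rcases hmemP' e he with ⟨h1, -⟩ | ⟨h1, h2⟩
      · exact h.arc e h1
      · rw [h2]
        exact (hmY _ (hQL h1)).2
    · intro e he f hf hef
      rcases hmemP' e he with ⟨h1, h1'⟩ | ⟨h1, h2⟩ <;>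
        rcases hmemP' f hf with ⟨h3, h3'⟩ | ⟨h3, h4⟩
      · exact h.i1 e h1 f h3 hef
      · exact absurd (mem_image.2 ⟨f.2, h3, (hef.trans h4).symm⟩) h1'
      · exact absurd (mem_image.2 ⟨e.2, h1, (hef.symm.trans h2).symm⟩) h3'
      · exact Prod.ext hef (hminj _ (hQL h1) _ (hQL h3) (by rw [← h2, ← h4, hef]))
    · have hmix : ∀ e ∈ P, e.1 ∉ Q.image m' → e.2 ∉ Q := by
        intro e he he' heQ
        have h1 := (mem_filter.1 heQ).2
        rcases Relation.ReflTransGen.cases_tail h1 with h2 | ⟨b, h2, h3, f, hf, h4, h5⟩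
        · exact hfree (mem_image.2 ⟨e, he, h2⟩)
        · have h6 := h.i2 f hf e he h5
          exact he' (mem_image.2 ⟨b, mem_filter.2 ⟨h3, h2⟩, by rw [← h4, h6]⟩)
      intro e he f hf hef
      rcases hmemP' e he with ⟨h1, h1'⟩ | ⟨h1, h2⟩ <;>
        rcases hmemP' f hf with ⟨h3, h3'⟩ | ⟨h3, h4⟩
      · exact h.i2 e h1 f h3 hef
      · exact absurd (hef ▸ h3) (hmix e h1 h1')
      · exact absurd (hef ▸ h1) (hmix f h3 h3')
      · exact Prod.ext (by rw [h2, h4, hef]) hef
  have hsub : P.image Prod.fst ⊆ P'.image Prod.fst := by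
    intro w hw
    obtain ⟨e, he, rfl⟩ := mem_image.1 hw
    by_cases h1 : e.1 ∈ Q.image m'
    · obtain ⟨a, ha, h2⟩ := mem_image.1 h1
      exact mem_image.2 ⟨(m' a, a), mem_union_right _ (mem_image.2 ⟨a, ha, rfl⟩), h2⟩
    · exact mem_image.2 ⟨e, mem_union_left _ (mem_filter.2 ⟨he, h1⟩), rfl⟩
  have h1 := h.mx P' hPP hsub
  have h2 : P.image Prod.fst ⊂ P'.image Prod.fst := by
    refine (ssubset_iff_of_subset hsub).2 ⟨m' a₁, ?_, hna₁⟩
    exact mem_image.2 ⟨(m' a₁, a₁), mem_union_right _ (mem_image.2 ⟨a₁, ha₁, rfl⟩), rfl⟩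
  have h3 := card_lt_card h2
  rw [h.card_fst, hPP.card_fst] at h3
  omega

end Cov

section PkC

variable {ι V : Type*} {G : SimpleGraph V} {C H : Finset V} {tl : V → ι} {B : Finset (V × V)}
  {Ps : Finset (Finset V)} {φ : Finset (V × V) → Finset (Finset V) → ℕ}

/-- **the PC pairs of one tail of an optimal packing pin a maximal set of members** -/
theorem PkOpt.pcx (h : PkOpt G C H tl φ B Ps) (hHC : Disjoint H C) (y : ι) :
    PCx (H.filter fun v => tl v = y) (msd G C) (B.filter fun e => tl e.1 = y) := by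
  refine ⟨⟨?_, ?_, ?_, ?_⟩, ?_⟩
  · intro e he
    obtain ⟨h1, h2⟩ := mem_filter.1 he
    exact mem_filter.2 ⟨h.bH e h1, h2⟩
  · intro e he
    obtain ⟨h1, h2⟩ := mem_filter.1 he
    exact mem_filter.2 ⟨h.bC e h1, fun h3 => disjoint_left.1 hHC (h.bH e h1) (h3 ▸ h.bC e h1),
      h.bN e h1⟩
  · intro e he f hf hef
    exact h.b1 e (mem_filter.1 he).1 f (mem_filter.1 hf).1 hef
  · intro e he f hf hef
    exact h.b2 e (mem_filter.1 he).1 f (mem_filter.1 hf).1 hef
      ((mem_filter.1 he).2.trans (mem_filter.1 hf).2.symm)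
  · intro P' hP' hsub
    set W' : Finset V := P'.image Prod.fst with hW'
    have htl : ∀ e ∈ P', tl e.1 = y := fun e he => (mem_filter.1 (hP'.mem e he)).2
    set B' : Finset (V × V) := (B.filter fun e => ¬ tl e.1 = y) ∪ P' with hB'
    set Ps' : Finset (Finset V) := (Ps.image fun Q => Q \ W').filter fun Q => Q.Nonempty with hPs'
    have hB'mem : ∀ e ∈ B', (e ∈ B ∧ tl e.1 ≠ y) ∨ e ∈ P' := by
      intro e he
      rcases mem_union.1 he with h1 | h1
      · exact Or.inl (mem_filter.1 h1)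
      · exact Or.inr h1
    have hPs'mem : ∀ R ∈ Ps', ∃ Q ∈ Ps, R = Q \ W' ∧ R.Nonempty := by
      intro R hR
      obtain ⟨h1, h2⟩ := mem_filter.1 hR
      obtain ⟨Q, hQ, rfl⟩ := mem_image.1 h1
      exact ⟨Q, hQ, rfl, h2⟩
    have hPk : Pk G C H tl B' Ps' := by
      refine ⟨?_, ?_, ?_, ?_, ?_, ?_, ?_, ?_, ?_, ?_, ?_⟩
      · intro e he
        rcases hB'mem e he with ⟨h1, -⟩ | h1
        · exact h.bH e h1
        · exact (mem_filter.1 (hP'.mem e h1)).1
      · intro e he
        rcases hB'mem e he with ⟨h1, -⟩ | h1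
        · exact h.bC e h1
        · exact (mem_filter.1 (hP'.arc e h1)).1
      · intro e he
        rcases hB'mem e he with ⟨h1, -⟩ | h1
        · exact h.bN e h1
        · exact (mem_filter.1 (hP'.arc e h1)).2.2
      · intro e he f hf hef
        rcases hB'mem e he with ⟨h1, h1'⟩ | h1 <;> rcases hB'mem f hf with ⟨h2, h2'⟩ | h2
        · exact h.b1 e h1 f h2 hef
        · exact absurd (hef ▸ htl f h2) h1'
        · exact absurd (hef ▸ htl e h1) h2'
        · exact hP'.i1 e h1 f h2 hef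
      · intro e he f hf hef hte
        rcases hB'mem e he with ⟨h1, h1'⟩ | h1 <;> rcases hB'mem f hf with ⟨h2, h2'⟩ | h2
        · exact h.b2 e h1 f h2 hef hte
        · exact absurd (hte.trans (htl f h2)) h1'
        · exact absurd (hte.symm.trans (htl e h1)) h2'
        · exact hP'.i2 e h1 f h2 hef
      · intro R hR
        obtain ⟨Q, hQ, -, h1⟩ := hPs'mem R hR
        exact h1
      · intro R hR
        obtain ⟨Q, hQ, rfl, -⟩ := hPs'mem R hR
        exact sdiff_subset.trans (h.sub Q hQ)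
      · intro R hR
        obtain ⟨Q, hQ, rfl, -⟩ := hPs'mem R hR
        exact fun x hx y hy => h.ind Q hQ x (mem_sdiff.1 hx).1 y (mem_sdiff.1 hy).1
      · intro R hR S hS hRS
        obtain ⟨Q, hQ, rfl, -⟩ := hPs'mem R hR
        obtain ⟨Q', hQ', rfl, -⟩ := hPs'mem S hS
        exact (h.dis Q hQ Q' hQ' fun h1 => hRS (by rw [h1])).mono sdiff_subset sdiff_subset
      · intro e he R hR
        obtain ⟨Q, hQ, rfl, -⟩ := hPs'mem R hR
        rcases hB'mem e he with ⟨h1, -⟩ | h1
        · exact fun h2 => h.dw e h1 Q hQ (mem_sdiff.1 h2).1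
        · exact fun h2 => (mem_sdiff.1 h2).2 (mem_image_of_mem _ h1)
      · intro v hv
        by_cases hvW : v ∈ W'
        · obtain ⟨e, he, h1⟩ := mem_image.1 hvW
          exact Or.inl ⟨e, mem_union_right _ he, h1⟩
        · rcases h.cov v hv with ⟨e, he, h1⟩ | ⟨Q, hQ, h1⟩
          · left
            have h2 : tl e.1 ≠ y := fun h3 =>
              hvW (hsub (mem_image.2 ⟨e, mem_filter.2 ⟨he, h3⟩, h1⟩))
            exact ⟨e, mem_union_left _ (mem_filter.2 ⟨he, h2⟩), h1⟩
          · right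
            have h2 : v ∈ Q \ W' := mem_sdiff.2 ⟨h1, hvW⟩
            exact ⟨Q \ W', mem_filter.2 ⟨mem_image.2 ⟨Q, hQ, rfl⟩, ⟨v, h2⟩⟩, h2⟩
    have h1 := h.min B' Ps' hPk
    have h2 : Ps'.card ≤ Ps.card := (card_filter_le _ _).trans card_image_le
    have h3 := h.max B' Ps' hPk (le_antisymm h2 h1)
    have h4 : Disjoint (B.filter fun e => ¬ tl e.1 = y) P' := by
      rw [disjoint_left]
      exact fun e he he' => (mem_filter.1 he).2 (htl e he')
    rw [hB', card_union_of_disjoint h4] at h3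
    have h5 := card_filter_add_card_filter_not (s := B) (p := fun e => tl e.1 = y)
    omega

end PkC

section Pay

variable {ι V : Type*} {G F : SimpleGraph V}

/-- the free arcs: members of `X` which miss a point of `C` not used by the pairs `B` -/
noncomputable def farc (G : SimpleGraph V) (C X : Finset V) (B : Finset (V × V)) : ℕ :=
  ∑ a ∈ C \ B.image Prod.snd, (X.filter fun w => a ∈ msd G C w).card

/-- only pinned members have free arcs -/
theorem PCx.farc_eq {C X : Finset V} {B : Finset (V × V)} (h : PCx X (msd G C) B) :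
    farc G C X B = ∑ e ∈ B, (msd G (C \ B.image Prod.snd) e.1).card := by
  have h1 : ∀ w, msd G (C \ B.image Prod.snd) w
      = (C \ B.image Prod.snd).filter fun a => a ∈ msd G C w := by
    intro w
    ext a
    simp only [msd, mem_filter, mem_sdiff]
    tauto
  have h2 : ∑ e ∈ B, (msd G (C \ B.image Prod.snd) e.1).card
      = ∑ w ∈ B.image Prod.fst, ((C \ B.image Prod.snd).filter fun a => a ∈ msd G C w).card := by
    rw [sum_image fun e he f hf hef => h.i1 e he f hf hef]
    exact sum_congr rfl fun e _ => by rw [h1]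
  rw [h2]
  unfold farc
  simp only [card_filter]
  rw [sum_comm]
  refine (sum_subset ?_ ?_).symm
  · intro w hw
    obtain ⟨e, he, rfl⟩ := mem_image.1 hw
    exact h.mem e he
  · intro w hw hwB
    refine sum_eq_zero fun a ha => ?_
    rw [if_neg]
    exact fun h3 => (mem_sdiff.1 ha).2 (h.free hw hwB h3)

/-- the class edges between free points and points outside `M` -/
noncomputable def frE (G : SimpleGraph V) (C D M : Finset V) (B : Finset (V × V)) :
    Finset (V × V) :=
  eds G (C \ B.image Prod.snd) (D \ M)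

/-- **the free arcs at the first row are paid by class edges** -/
theorem Cell3.pay {C D I X K L M : Finset V} {B : Finset (V × V)}
    (h : Cell3 (msd G C) (msd G D) I X K L M)
    (hrect : ∀ w ∈ I, ∀ a ∈ msd G C w, ∀ c ∈ msd G D w, G.Adj a c) (hB : PCx X (msd G C) B) :
    farc G C X B ≤ (frE G C D M B).card := by
  have hL : L ⊆ B.image Prod.snd := hB.used (Y := X \ K) sdiff_subset
    (fun w hw => h.xl w (mem_sdiff.1 hw).1 (mem_sdiff.1 hw).2) h.h2
  have h1 : (frE G C D M B).card = ∑ a ∈ C \ B.image Prod.snd, dg G (D \ M) a := by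
    have := card_eds_eq (G := G) (C \ B.image Prod.snd) (D \ M)
    exact_mod_cast this
  rw [h1]
  unfold farc
  refine sum_le_sum fun a ha => ?_
  obtain ⟨haC, haB⟩ := mem_sdiff.1 ha
  have h2 : (X.filter fun w => a ∈ msd G C w) ⊆ K := by
    intro w hw
    obtain ⟨h3, h4⟩ := mem_filter.1 hw
    by_contra h5
    exact haB (hL (h.xl w h3 h5 h4))
  refine (h.h1z _ h2).trans (card_le_card ?_)
  intro c hc
  obtain ⟨w, hw, h3⟩ := mem_biUnion.1 hc
  obtain ⟨h4, h5⟩ := mem_filter.1 hw
  obtain ⟨h6, h7⟩ := mem_sdiff.1 h3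
  exact mem_filter.2 ⟨mem_sdiff.2 ⟨(mem_filter.1 h6).1, h7⟩, hrect w (h.xi h4) a h5 c h6⟩

/-- **there are no free arcs at the second row** -/
theorem Cell3.none {C D I X K L M : Finset V} {B : Finset (V × V)}
    (h : Cell3 (msd G C) (msd G D) I X K L M) (hB : PCx (I \ X) (msd G D) B) :
    farc G D (I \ X) B = 0 ∧ M ⊆ B.image Prod.snd ∧ ∀ e ∈ B, e.2 ∈ M := by
  have hM : M ⊆ B.image Prod.snd := hB.used (Y := I \ X) (Subset.refl _)
    (fun w hw => h.zm w (mem_sdiff.1 hw).1 (mem_sdiff.1 hw).2) h.h3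
  refine ⟨sum_eq_zero fun a ha => ?_, hM, fun e he => ?_⟩
  · rw [card_eq_zero, filter_eq_empty_iff]
    intro w hw h1
    exact (mem_sdiff.1 ha).2 (hM (h.zm w (mem_sdiff.1 hw).1 (mem_sdiff.1 hw).2 h1))
  · have h1 := mem_sdiff.1 (hB.mem e he)
    exact h.zm e.1 h1.1 h1.2 (hB.arc e he)

end Pay

section Pair

variable {ι κ V : Type*} {G F : SimpleGraph V}

/-- **all hits of two hosts at each other's rows**, general form (`WSys.pair_gen`) with class edges `X3`
which are no hits -/
theorem WSys.pair_gen3 {A : Finset ι} {C H : ι → Finset V} {tl : V → ι}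
    (h : WSys G F A C H tl) {x z : ι} (hx : x ∈ A) (hz : z ∈ A) (hxz : x ≠ z)
    {P P' : Finset V} (hP : P ⊆ H x) (hP' : P' ⊆ H z)
    {K K' : Finset κ} {p q p' q' : κ → V} (hK : Dst K p q) (hK' : Dst K' p' q')
    (hp : ∀ e ∈ K, p e ∈ H x) (hp' : ∀ e ∈ K', p' e ∈ H z)
    (hpP : ∀ e ∈ K, p e ∉ P) (hpP' : ∀ e ∈ K', p' e ∉ P')
    (hq : ∀ e ∈ K, q e ∈ C x ∧ F.Adj (p e) (q e) ∧ tl (p e) = z)
    (hq' : ∀ e ∈ K', q' e ∈ C z ∧ F.Adj (p' e) (q' e) ∧ tl (p' e) = x)
    {X3 : Finset (V × V)} (hX3 : X3 ⊆ eds G (C x) (C z)) (h31 : ∀ f ∈ X3, ∀ e ∈ K, q e ≠ f.1)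
    (h32 : ∀ f ∈ X3, ∀ e ∈ K', q' e ≠ f.2) :
    ∑ c ∈ C z, (dg G P c : ℤ) + ∑ c ∈ C x, (dg G P' c : ℤ)
      + ∑ e ∈ K, (((C z).card : ℤ) - (rst G (C z) (p e) (q e)).card)
      + ∑ e ∈ K', (((C x).card : ℤ) - (rst G (C x) (p' e) (q' e)).card) + X3.card
      ≤ (eds G (C z) (H x)).card + (eds G (C x) (H z)).card + (eds G (C x) (C z)).card
        + (eds G (H x) (H z)).card := by
  have hm := eds_split (G := G) (C := C z) hK.ip hp hP hpP
  have hm' := eds_split (G := G) (C := C x) hK'.ip hp' hP' hpP'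
  -- split the hits of a PC pair
  have hs : ∀ (D : Finset V) (u v : V), (D.card : ℤ) - (rst G D u v).card
      = (D.filter fun c => G.Adj c u).card
        + ((D.filter fun c => ¬ G.Adj c u ∧ G.Adj c v).card : ℤ) := by
    intro D u v
    have h1 := card_filter_add_card_filter_not (s := D) (p := fun c => G.Adj c u)
    have h2 := card_filter_add_card_filter_not (s := D.filter fun c => ¬ G.Adj c u)
      (p := fun c => G.Adj c v)
    rw [filter_filter, filter_filter] at h2
    have h3 : (D.filter fun c => ¬ G.Adj c u ∧ ¬ G.Adj c v) = rst G D u v := rfl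
    rw [h3] at h2
    have h4 : ((D.filter fun c => G.Adj c u).card : ℤ)
        + (D.filter fun c => ¬ G.Adj c u).card = D.card := by exact_mod_cast h1
    have h5 : ((D.filter fun c => ¬ G.Adj c u ∧ G.Adj c v).card : ℤ) + (rst G D u v).card
        = (D.filter fun c => ¬ G.Adj c u).card := by exact_mod_cast h2
    linarith
  simp only [hs]
  rw [sum_add_distrib, sum_add_distrib]
  -- the class hits
  set X1 : Finset (V × V) := (((C z) ×ˢ K).filter fun ce => ¬ G.Adj ce.1 (p ce.2)
    ∧ G.Adj ce.1 (q ce.2)).image fun ce => (q ce.2, ce.1) with hX1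
  set X2 : Finset (V × V) := (((C x) ×ˢ K').filter fun ce => ¬ G.Adj ce.1 (p' ce.2)
    ∧ G.Adj ce.1 (q' ce.2)).image fun ce => (ce.1, q' ce.2) with hX2
  have hcount : ∀ (D : Finset V) (L : Finset κ) (a b : κ → V),
      ((((D ×ˢ L).filter fun ce => ¬ G.Adj ce.1 (a ce.2) ∧ G.Adj ce.1 (b ce.2)).card : ℕ) : ℤ)
        = ∑ e ∈ L, ((D.filter fun c => ¬ G.Adj c (a e) ∧ G.Adj c (b e)).card : ℤ) := by
    intro D L a b
    have h1 : ((D ×ˢ L).filter fun ce => ¬ G.Adj ce.1 (a ce.2) ∧ G.Adj ce.1 (b ce.2)).card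
        = ∑ e ∈ L, (D.filter fun c => ¬ G.Adj c (a e) ∧ G.Adj c (b e)).card := by
      rw [card_filter, sum_product_right]
      refine sum_congr rfl fun e _ => ?_
      rw [card_filter]
    exact_mod_cast h1
  have hc1 : (X1.card : ℤ) = ∑ e ∈ K, (((C z).filter fun c => ¬ G.Adj c (p e)
      ∧ G.Adj c (q e)).card : ℤ) := by
    rw [← hcount, hX1, card_image_of_injOn]
    rintro ⟨c, e⟩ hce ⟨d, f⟩ hdf hef
    have he : e ∈ K := (mem_product.1 (mem_filter.1 (by exact_mod_cast hce :
      (c, e) ∈ ((C z) ×ˢ K).filter _)).1).2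
    have hf : f ∈ K := (mem_product.1 (mem_filter.1 (by exact_mod_cast hdf :
      (d, f) ∈ ((C z) ×ˢ K).filter _)).1).2
    simp only [Prod.mk.injEq] at hef
    obtain ⟨h5, rfl⟩ := hef
    rw [hK.iq (by exact_mod_cast he) (by exact_mod_cast hf) h5]
  have hc2 : (X2.card : ℤ) = ∑ e ∈ K', (((C x).filter fun c => ¬ G.Adj c (p' e)
      ∧ G.Adj c (q' e)).card : ℤ) := by
    rw [← hcount, hX2, card_image_of_injOn]
    rintro ⟨c, e⟩ hce ⟨d, f⟩ hdf hef
    have he : e ∈ K' := (mem_product.1 (mem_filter.1 (by exact_mod_cast hce :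
      (c, e) ∈ ((C x) ×ˢ K').filter _)).1).2
    have hf : f ∈ K' := (mem_product.1 (mem_filter.1 (by exact_mod_cast hdf :
      (d, f) ∈ ((C x) ×ˢ K').filter _)).1).2
    simp only [Prod.mk.injEq] at hef
    obtain ⟨rfl, h5⟩ := hef
    rw [hK'.iq (by exact_mod_cast he) (by exact_mod_cast hf) h5]
  have hm1 : ∀ e ∈ X1, e.2 ∈ C z ∧ ∃ u ∈ K, q u = e.1 ∧ ¬ G.Adj e.2 (p u) ∧ G.Adj e.2 (q u) := by
    intro e he
    obtain ⟨⟨c, u⟩, h5, rfl⟩ := mem_image.1 he
    obtain ⟨h6, h7, h8⟩ := mem_filter.1 h5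
    obtain ⟨h9, h10⟩ := mem_product.1 h6
    exact ⟨h9, u, h10, rfl, h7, h8⟩
  have hm2 : ∀ e ∈ X2, e.1 ∈ C x ∧ ∃ u ∈ K', q' u = e.2 ∧ ¬ G.Adj e.1 (p' u)
      ∧ G.Adj e.1 (q' u) := by
    intro e he
    obtain ⟨⟨c, u⟩, h5, rfl⟩ := mem_image.1 he
    obtain ⟨h6, h7, h8⟩ := mem_filter.1 h5
    obtain ⟨h9, h10⟩ := mem_product.1 h6
    exact ⟨h9, u, h10, rfl, h7, h8⟩
  have hs1 : X1 ⊆ eds G (C x) (C z) := by
    intro e he
    obtain ⟨a1, u, a2, a3, a4, a5⟩ := hm1 e he
    refine mem_filter.2 ⟨mem_product.2 ⟨?_, a1⟩, ?_⟩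
    · rw [← a3]
      exact (hq u a2).1
    · rw [← a3]
      exact a5.symm
  have hs2 : X2 ⊆ eds G (C x) (C z) := by
    intro e he
    obtain ⟨a1, u, a2, a3, a4, a5⟩ := hm2 e he
    refine mem_filter.2 ⟨mem_product.2 ⟨a1, ?_⟩, ?_⟩
    · rw [← a3]
      exact (hq' u a2).1
    · rw [← a3]
      exact a5
  have hint : (X1 ∩ X2).card ≤ (eds G (H x) (H z)).card := by
    have hw : ∀ e ∈ X1 ∩ X2, ∃ f : V × V, f ∈ eds G (H x) (H z) ∧
        (∃ u ∈ K, q u = e.1 ∧ p u = f.1) ∧ (∃ u ∈ K', q' u = e.2 ∧ p' u = f.2) := by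
      intro e he
      obtain ⟨he1, he2⟩ := mem_inter.1 he
      obtain ⟨a1, u, a2, a3, a4, a5⟩ := hm1 e he1
      obtain ⟨b1, v, b2, b3, b4, b5⟩ := hm2 e he2
      obtain ⟨r1, r2, r3⟩ := hq _ a2
      obtain ⟨s1, s2, s3⟩ := hq' _ b2
      refine ⟨(p u, p' v), ?_, ⟨u, a2, a3, rfl⟩, ⟨v, b2, b3, rfl⟩⟩
      refine mem_filter.2 ⟨mem_product.2 ⟨hp _ a2, hp' _ b2⟩, ?_⟩
      have h9 : ¬ G.Adj (q' v) (p u) := by
        rw [b3]
        exact a4
      have h10 : ¬ G.Adj (q' v) (p' v) := fun h11 => h.FG _ _ s2 h11.symm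
      exact (h.three x hx z hz hxz (p u) (hp _ a2) r3 (p' v) (hp' _ b2) s3 (q' v) s1 h9 h10).symm
    choose! f hf1 hf2 hf3 using hw
    refine card_le_card_of_injOn f (fun e he => ?_) ?_
    · have := hf1 e (by exact_mod_cast he)
      exact_mod_cast this
    · intro e he e' he' hee
      have he1 : e ∈ X1 ∩ X2 := by exact_mod_cast he
      have he2 : e' ∈ X1 ∩ X2 := by exact_mod_cast he'
      obtain ⟨u, hu, hu1, hu2⟩ := hf2 e he1
      obtain ⟨u', hu', hu1', hu2'⟩ := hf2 e' he2
      obtain ⟨v, hv, hv1, hv2⟩ := hf3 e he1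
      obtain ⟨v', hv', hv1', hv2'⟩ := hf3 e' he2
      have k1 : u = u' := hK.ip (by exact_mod_cast hu) (by exact_mod_cast hu')
        (by rw [hu2, hu2', hee])
      have k2 : v = v' := hK'.ip (by exact_mod_cast hv) (by exact_mod_cast hv')
        (by rw [hv2, hv2', hee])
      refine Prod.ext ?_ ?_
      · rw [← hu1, ← hu1', k1]
      · rw [← hv1, ← hv1', k2]
  have hd3 : Disjoint (X1 ∪ X2) X3 := by
    rw [disjoint_left]
    intro f hf hf3
    rcases mem_union.1 hf with h5 | h5
    · obtain ⟨-, u, h6, h7, -⟩ := hm1 f h5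
      exact h31 f hf3 u h6 h7
    · obtain ⟨-, u, h6, h7, -⟩ := hm2 f h5
      exact h32 f hf3 u h6 h7
  have hun : X1.card + X2.card + X3.card
      ≤ (eds G (C x) (C z)).card + (eds G (H x) (H z)).card := by
    have h5 := card_union_add_card_inter X1 X2
    have h6 := card_le_card (union_subset (union_subset hs1 hs2) hX3)
    rw [card_union_of_disjoint hd3] at h6
    omega
  have hun' : (X1.card : ℤ) + X2.card + X3.card
      ≤ (eds G (C x) (C z)).card + (eds G (H x) (H z)).card := by exact_mod_cast hun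
  rw [hc1, hc2] at hun'
  linarith

/-- the PC pairs are units with different points -/
lemma PCm.dst {X : Finset V} {A : V → Finset V} {P : Finset (V × V)} (h : PCm X A P)
    (hne : ∀ e ∈ P, ∀ f ∈ P, e.1 ≠ f.2) : Dst P Prod.fst Prod.snd :=
  ⟨fun e he f hf hef => h.i1 e (by exact_mod_cast he) f (by exact_mod_cast hf) hef,
    fun e he f hf hef => h.i2 e (by exact_mod_cast he) f (by exact_mod_cast hf) hef, hne⟩

/-- **the hits of two hosts at each other's rows and the free arcs of both**: homes by a minimal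
three-sided cover, PC pairs `B`, `B'` which pin maximal sets of members, other members `P`, `P'` -/
theorem WSys.pair_cell {A : Finset ι} {C H : ι → Finset V} {tl : V → ι}
    (h : WSys G (co G) A C H tl) {x z : ι} (hx : x ∈ A) (hz : z ∈ A) (hxz : x ≠ z)
    {P P' : Finset V} (hP : P ⊆ H x) (hP' : P' ⊆ H z) {B B' : Finset (V × V)}
    (hB : PCx ((H x).filter fun v => tl v = z) (msd G (C x)) B)
    (hB' : PCx ((H z).filter fun v => tl v = x) (msd G (C z)) B')
    (hBP : ∀ e ∈ B, e.1 ∉ P) (hBP' : ∀ e ∈ B', e.1 ∉ P') {I K L M : Finset V}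
    (hI : I \ ((H x).filter fun v => tl v = z) = (H z).filter fun v => tl v = x)
    (hc : Cell3 (msd G (C x)) (msd G (C z)) I ((H x).filter fun v => tl v = z) K L M)
    (hrect : ∀ w ∈ I, ∀ a ∈ msd G (C x) w, ∀ c ∈ msd G (C z) w, G.Adj a c) :
    ∑ c ∈ C z, (dg G P c : ℤ) + ∑ c ∈ C x, (dg G P' c : ℤ)
      + ∑ e ∈ B, (((C z).card : ℤ) - (rst G (C z) e.1 e.2).card)
      + ∑ e ∈ B', (((C x).card : ℤ) - (rst G (C x) e.1 e.2).card)
      + farc G (C x) ((H x).filter fun v => tl v = z) B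
      + farc G (C z) ((H z).filter fun v => tl v = x) B'
      ≤ (eds G (C z) (H x)).card + (eds G (C x) (H z)).card + (eds G (C x) (C z)).card
        + (eds G (H x) (H z)).card := by
  have h1 := hc.pay hrect hB
  have hB'' : PCx (I \ ((H x).filter fun v => tl v = z)) (msd G (C z)) B' := by
    rw [hI]
    exact hB'
  obtain ⟨h2, -, h3⟩ := hc.none hB''
  rw [hI] at h2
  have k1 : ∀ e ∈ B, e.1 ∈ H x ∧ tl e.1 = z ∧ e.2 ∈ C x ∧ (co G).Adj e.1 e.2 := by
    intro e he
    obtain ⟨a1, a2⟩ := mem_filter.1 (hB.mem e he)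
    obtain ⟨a3, a4, a5⟩ := mem_filter.1 (hB.arc e he)
    exact ⟨a1, a2, a3, co_adj.2 ⟨fun h5 => a4 h5.symm, a5⟩⟩
  have k2 : ∀ e ∈ B', e.1 ∈ H z ∧ tl e.1 = x ∧ e.2 ∈ C z ∧ (co G).Adj e.1 e.2 := by
    intro e he
    obtain ⟨a1, a2⟩ := mem_filter.1 (hB'.mem e he)
    obtain ⟨a3, a4, a5⟩ := mem_filter.1 (hB'.arc e he)
    exact ⟨a1, a2, a3, co_adj.2 ⟨fun h5 => a4 h5.symm, a5⟩⟩
  have hne : ∀ y ∈ A, ∀ v ∈ H y, ∀ c ∈ C y, v ≠ c := fun y hy v hv c hc' h5 =>
    disjoint_left.1 (h.dHC y hy y hy) hv (h5 ▸ hc')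
  have h4 := h.pair_gen3 hx hz hxz hP hP'
    (hB.toPCm.dst fun e he f hf => hne x hx _ (k1 e he).1 _ (k1 f hf).2.2.1)
    (hB'.toPCm.dst fun e he f hf => hne z hz _ (k2 e he).1 _ (k2 f hf).2.2.1)
    (fun e he => (k1 e he).1) (fun e he => (k2 e he).1) hBP hBP'
    (fun e he => ⟨(k1 e he).2.2.1, (k1 e he).2.2.2, (k1 e he).2.1⟩)
    (fun e he => ⟨(k2 e he).2.2.1, (k2 e he).2.2.2, (k2 e he).2.1⟩)
    (X3 := frE G (C x) (C z) M B) (by
      intro f hf
      obtain ⟨a1, a2⟩ := mem_filter.1 hf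
      obtain ⟨a3, a4⟩ := mem_product.1 a1
      exact mem_filter.2 ⟨mem_product.2 ⟨(mem_sdiff.1 a3).1, (mem_sdiff.1 a4).1⟩, a2⟩)
    (by
      intro f hf e he h5
      obtain ⟨a1, a2⟩ := mem_filter.1 hf
      obtain ⟨a3, a4⟩ := mem_product.1 a1
      exact (mem_sdiff.1 a3).2 (mem_image.2 ⟨e, he, h5⟩))
    (by
      intro f hf e he h5
      obtain ⟨a1, a2⟩ := mem_filter.1 hf
      obtain ⟨a3, a4⟩ := mem_product.1 a1
      exact (mem_sdiff.1 a4).2 (h5 ▸ h3 e he))
  have h6 : ((farc G (C x) ((H x).filter fun v => tl v = z) B : ℕ) : ℤ)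
      ≤ ((frE G (C x) (C z) M B).card : ℕ) := by exact_mod_cast h1
  rw [h2]
  push_cast
  linarith

end Pair

section Frame

variable {V : Type*} {G : SimpleGraph V} {Z T : Finset V} {hm : V → V} {r m t : ℕ}
  {A S : Finset V}

variable (G Z T) in
/-- the homes of every cell come from a minimal three-sided cover -/
def Hom3 (A S : Finset V) (hm : V → V) : Prop :=
  ∀ x ∈ A, ∀ z ∈ A, x ≠ z → ∃ K L M : Finset V,
    Cell3 (msd G (S.filter fun v => v ∈ Cl G Z T x)) (msd G (S.filter fun v => v ∈ Cl G Z T z))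
      (S.filter fun v => v ∈ Dbl G Z T x z)
      ((S.filter fun v => v ∈ Dbl G Z T x z).filter fun v => hm v = x) K L M ∨
    Cell3 (msd G (S.filter fun v => v ∈ Cl G Z T z)) (msd G (S.filter fun v => v ∈ Cl G Z T x))
      (S.filter fun v => v ∈ Dbl G Z T z x)
      ((S.filter fun v => v ∈ Dbl G Z T z x).filter fun v => hm v = z) K L M

/-- **homes by minimal three-sided covers** -/
theorem HSys.exists_homes3 (hF : PFrame G r m t Z T) (h : HSys G Z T A S) :
    ∃ hm : V → V, Homes G Z T hm ∧ (∀ v ∈ S, hm v ∈ A ∧ hm v ∈ rws G T v) ∧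
      Hom3 G Z T A S hm := by
  obtain ⟨v₀, -⟩ : Z.Nonempty := card_pos.1 (by rw [hF.cardZ]; omega)
  have h1 : ∀ e : Finset V, ∃ (x z : V) (X K L M : Finset V), ∀ a ∈ A, ∀ b ∈ A, a ≠ b →
      e = {a, b} → e = {x, z} ∧ Cell3 (msd G (S.filter fun v => v ∈ Cl G Z T x))
        (msd G (S.filter fun v => v ∈ Cl G Z T z)) (S.filter fun v => v ∈ Dbl G Z T x z)
          X K L M := by
    intro e
    by_cases he : ∃ a ∈ A, ∃ b ∈ A, a ≠ b ∧ e = {a, b}
    · obtain ⟨a, ha, b, hb, hab, rfl⟩ := he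
      obtain ⟨X, K, L, M, hc⟩ := exists_cell3 (msd G (S.filter fun v => v ∈ Cl G Z T a))
        (msd G (S.filter fun v => v ∈ Cl G Z T b)) (S.filter fun v => v ∈ Dbl G Z T a b)
      exact ⟨a, b, X, K, L, M, fun _ _ _ _ _ _ => ⟨rfl, hc⟩⟩
    · exact ⟨v₀, v₀, ∅, ∅, ∅, ∅, fun a ha b hb hab hab' => absurd ⟨a, ha, b, hb, hab, hab'⟩ he⟩
  choose fx fz fX fK fL fM hf using h1
  have h2 : ∀ v : V, ∃ y : V, (v ∈ Z → y ∈ rws G T v) ∧ (v ∈ S → y ∈ A) := by
    intro v
    by_cases hvS : v ∈ S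
    · obtain ⟨x, hx, h3⟩ := h.row v hvS
      exact ⟨x, fun _ => h3, fun _ => hx⟩
    · by_cases hvZ : v ∈ Z
      · obtain ⟨x, hx⟩ := hF.rws_nonempty hvZ
        exact ⟨x, fun _ => hx, fun h3 => absurd h3 hvS⟩
      · exact ⟨v, fun h3 => absurd h3 hvZ, fun h3 => absurd h3 hvS⟩
  choose g hg1 hg2 using h2
  set hm : V → V := fun v => if v ∈ BB G Z T ∧ v ∈ S ∧ ends G T v ⊆ A then
    (if v ∈ fX (ends G T v) then fx (ends G T v) else fz (ends G T v)) else g v with hhm
  have hcell : ∀ v, v ∈ BB G Z T ∧ v ∈ S ∧ ends G T v ⊆ A →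
      ends G T v = {fx (ends G T v), fz (ends G T v)} := by
    rintro v ⟨hv1, hv2, hv3⟩
    have h3 : (ends G T v).card = 2 := (mem_BB.1 hv1).2
    obtain ⟨a, b, hab, he⟩ := card_eq_two.1 h3
    exact (hf _ a (hv3 (by rw [he]; simp)) b (hv3 (by rw [he]; simp)) hab he).1
  have hend : ∀ v, v ∈ BB G Z T ∧ v ∈ S ∧ ends G T v ⊆ A → hm v ∈ ends G T v := by
    intro v hv
    have h3 := hcell v hv
    have h4 : hm v = if v ∈ fX (ends G T v) then fx (ends G T v) else fz (ends G T v) :=
      if_pos hv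
    rw [h4]
    split_ifs with h5
    · have : fx (ends G T v) ∈ ({fx (ends G T v), fz (ends G T v)} : Finset V) := by simp
      rwa [← h3] at this
    · have : fz (ends G T v) ∈ ({fx (ends G T v), fz (ends G T v)} : Finset V) := by simp
      rwa [← h3] at this
  refine ⟨hm, ?_, ?_, ?_⟩
  · intro v hv
    by_cases h3 : v ∈ BB G Z T ∧ v ∈ S ∧ ends G T v ⊆ A
    · exact hend v h3
    · have h4 : hm v = g v := if_neg h3
      rw [h4]
      have h5 := hg1 v (mem_BB.1 hv).1.1
      rwa [rws_BB hv] at h5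
  · intro v hv
    by_cases h3 : v ∈ BB G Z T ∧ v ∈ S ∧ ends G T v ⊆ A
    · have h4 := hend v h3
      exact ⟨h3.2.2 h4, by rwa [rws_BB h3.1]⟩
    · have h4 : hm v = g v := if_neg h3
      rw [h4]
      exact ⟨hg2 v hv, hg1 v (h.subZ hv)⟩
  · intro x hx z hz hxz
    obtain ⟨h3, h4⟩ := hf {x, z} x hx z hz hxz rfl
    -- the homes of the doubles of the cell
    have h5 : ∀ v ∈ S, v ∈ Dbl G Z T x z →
        hm v = if v ∈ fX {x, z} then fx {x, z} else fz {x, z} := by
      intro v hv hvD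
      obtain ⟨hv1, hv2⟩ := mem_Dbl.1 hvD
      have h6 : v ∈ BB G Z T ∧ v ∈ S ∧ ends G T v ⊆ A := by
        refine ⟨hv1, hv, ?_⟩
        rw [hv2]
        intro u hu
        rcases mem_insert.1 hu with rfl | hu
        · exact hx
        · rw [mem_singleton.1 hu]
          exact hz
      have h7 : hm v = if v ∈ fX (ends G T v) then fx (ends G T v) else fz (ends G T v) :=
        if_pos h6
      rw [h7, hv2]
    have h6 : (fx {x, z} = x ∧ fz {x, z} = z) ∨ (fx {x, z} = z ∧ fz {x, z} = x) := by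
      have a1 : x ∈ ({fx {x, z}, fz {x, z}} : Finset V) := by rw [← h3]; simp
      have a2 : z ∈ ({fx {x, z}, fz {x, z}} : Finset V) := by rw [← h3]; simp
      simp only [mem_insert, mem_singleton] at a1 a2
      rcases a1 with a1 | a1 <;> rcases a2 with a2 | a2
      · exact absurd (a1.trans a2.symm) hxz
      · exact Or.inl ⟨a1.symm, a2.symm⟩
      · exact Or.inr ⟨a2.symm, a1.symm⟩
      · exact absurd (a1.trans a2.symm) hxz
    refine ⟨fK {x, z}, fL {x, z}, fM {x, z}, ?_⟩
    rcases h6 with ⟨h7, h8⟩ | ⟨h7, h8⟩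
    · left
      rw [h7, h8] at h4
      have h9 : ((S.filter fun v => v ∈ Dbl G Z T x z).filter fun v => hm v = x)
          = fX {x, z} := by
        ext v
        simp only [mem_filter]
        constructor
        · rintro ⟨⟨b1, b2⟩, b3⟩
          by_contra b4
          rw [h5 v b1 b2, if_neg b4, h8] at b3
          exact hxz b3.symm
        · intro b1
          obtain ⟨b2, b3⟩ := mem_filter.1 (h4.xi b1)
          exact ⟨⟨b2, b3⟩, by rw [h5 v b2 b3, if_pos b1, h7]⟩
      rw [h9]
      exact h4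
    · right
      rw [h7, h8] at h4
      have h9 : ((S.filter fun v => v ∈ Dbl G Z T z x).filter fun v => hm v = z)
          = fX {x, z} := by
        ext v
        simp only [mem_filter]
        constructor
        · rintro ⟨⟨b1, b2⟩, b3⟩
          by_contra b4
          rw [h5 v b1 (by rwa [Dbl_comm]), if_neg b4, h8] at b3
          exact hxz b3
        · intro b1
          obtain ⟨b2, b3⟩ := mem_filter.1 (h4.xi b1)
          exact ⟨⟨b2, b3⟩, by rw [h5 v b2 (by rwa [Dbl_comm]), if_pos b1, h7]⟩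
      rw [h9]
      exact h4

/-- the members with tail `z` of the slot of a row -/
lemma HSys.HP_eq (hF : PFrame G r m t Z T) (hh : Homes G Z T hm) (h : HSys G Z T A S)
    (hr : ∀ v ∈ S, hm v ∈ A ∧ hm v ∈ rws G T v) {x z : V} (hx : x ∈ A) (hxz : x ≠ z) :
    ((HP G Z T (fun x => S.filter fun v => hm v = x) x).filter fun v => tlo G T hm v = z)
      = (S.filter fun v => v ∈ Dbl G Z T x z).filter fun v => hm v = x := by
  have hC := h.csys hF hr
  ext v
  simp only [mem_filter]
  constructor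
  · rintro ⟨h1, h2⟩
    have h3 := (mem_filter.1 (mem_HP.1 h1).1)
    exact ⟨⟨h3.1, hC.mem_Dbl_of_tlo hh hx h1 h2⟩, h3.2⟩
  · rintro ⟨⟨h1, h2⟩, h3⟩
    obtain ⟨h4, h5⟩ := mem_Dbl.1 h2
    refine ⟨mem_HP.2 ⟨mem_filter.2 ⟨h1, h3⟩, fun h6 => ?_⟩, tlo_eq h5 h3 hxz⟩
    exact BB_ne_Cl h4 (h.sub hx) h6 rfl

/-- **the hits of two hosts at each other's rows and the free arcs of both** for homes by minimal
covers; `B x` pins maximal sets of members of every tail -/
theorem HSys.pair_cell (hF : PFrame G r m t Z T) (hh : Homes G Z T hm) (h : HSys G Z T A S)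
    (hr : ∀ v ∈ S, hm v ∈ A ∧ hm v ∈ rws G T v) (h3 : Hom3 G Z T A S hm)
    {x z : V} (hx : x ∈ A) (hz : z ∈ A) (hxz : x ≠ z) {P P' : Finset V}
    (hP : P ⊆ HP G Z T (fun x => S.filter fun v => hm v = x) x)
    (hP' : P' ⊆ HP G Z T (fun x => S.filter fun v => hm v = x) z) {B B' : Finset (V × V)}
    (hB : PCx ((HP G Z T (fun x => S.filter fun v => hm v = x) x).filter
      fun v => tlo G T hm v = z) (msd G (CP G Z T (fun x => S.filter fun v => hm v = x) x)) B)
    (hB' : PCx ((HP G Z T (fun x => S.filter fun v => hm v = x) z).filter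
      fun v => tlo G T hm v = x) (msd G (CP G Z T (fun x => S.filter fun v => hm v = x) z)) B')
    (hBP : ∀ e ∈ B, e.1 ∉ P) (hBP' : ∀ e ∈ B', e.1 ∉ P') :
    ∑ c ∈ CP G Z T (fun x => S.filter fun v => hm v = x) z, (dg G P c : ℤ)
      + ∑ c ∈ CP G Z T (fun x => S.filter fun v => hm v = x) x, (dg G P' c : ℤ)
      + ∑ e ∈ B, (((CP G Z T (fun x => S.filter fun v => hm v = x) z).card : ℤ)
        - (rst G (CP G Z T (fun x => S.filter fun v => hm v = x) z) e.1 e.2).card)
      + ∑ e ∈ B', (((CP G Z T (fun x => S.filter fun v => hm v = x) x).card : ℤ)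
        - (rst G (CP G Z T (fun x => S.filter fun v => hm v = x) x) e.1 e.2).card)
      + farc G (CP G Z T (fun x => S.filter fun v => hm v = x) x)
          ((HP G Z T (fun x => S.filter fun v => hm v = x) x).filter
            fun v => tlo G T hm v = z) B
      + farc G (CP G Z T (fun x => S.filter fun v => hm v = x) z)
          ((HP G Z T (fun x => S.filter fun v => hm v = x) z).filter
            fun v => tlo G T hm v = x) B'
      ≤ ∑ v ∈ S.filter (fun v => hm v = z), (dg G (S.filter fun v => hm v = x) v : ℤ) := by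
  have hC := h.csys hF hr
  have hW : WSys G (co G) A (CP G Z T fun x => S.filter fun v => hm v = x)
      (HP G Z T fun x => S.filter fun v => hm v = x) (tlo G T hm) :=
    hC.wsys hF hh fun y hy => mem_filter.2 ⟨h.ctr hy, by
      have h1 := (hr y (h.ctr hy)).2
      rw [rws_of_mem (h.sub hy)] at h1
      exact mem_singleton.1 h1⟩
  have key : ∀ x ∈ A, ∀ z ∈ A, x ≠ z → ∀ (P P' : Finset V),
      P ⊆ HP G Z T (fun x => S.filter fun v => hm v = x) x →
      P' ⊆ HP G Z T (fun x => S.filter fun v => hm v = x) z → ∀ (B B' : Finset (V × V)),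
      PCx ((HP G Z T (fun x => S.filter fun v => hm v = x) x).filter
        fun v => tlo G T hm v = z)
        (msd G (CP G Z T (fun x => S.filter fun v => hm v = x) x)) B →
      PCx ((HP G Z T (fun x => S.filter fun v => hm v = x) z).filter
        fun v => tlo G T hm v = x)
        (msd G (CP G Z T (fun x => S.filter fun v => hm v = x) z)) B' →
      (∀ e ∈ B, e.1 ∉ P) → (∀ e ∈ B', e.1 ∉ P') → ∀ K L M : Finset V,
      Cell3 (msd G (S.filter fun v => v ∈ Cl G Z T x)) (msd G (S.filter fun v => v ∈ Cl G Z T z))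
        (S.filter fun v => v ∈ Dbl G Z T x z)
        ((S.filter fun v => v ∈ Dbl G Z T x z).filter fun v => hm v = x) K L M →
      ∑ c ∈ CP G Z T (fun x => S.filter fun v => hm v = x) z, (dg G P c : ℤ)
      + ∑ c ∈ CP G Z T (fun x => S.filter fun v => hm v = x) x, (dg G P' c : ℤ)
      + ∑ e ∈ B, (((CP G Z T (fun x => S.filter fun v => hm v = x) z).card : ℤ)
        - (rst G (CP G Z T (fun x => S.filter fun v => hm v = x) z) e.1 e.2).card)
      + ∑ e ∈ B', (((CP G Z T (fun x => S.filter fun v => hm v = x) x).card : ℤ)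
        - (rst G (CP G Z T (fun x => S.filter fun v => hm v = x) x) e.1 e.2).card)
      + farc G (CP G Z T (fun x => S.filter fun v => hm v = x) x)
          ((HP G Z T (fun x => S.filter fun v => hm v = x) x).filter
            fun v => tlo G T hm v = z) B
      + farc G (CP G Z T (fun x => S.filter fun v => hm v = x) z)
          ((HP G Z T (fun x => S.filter fun v => hm v = x) z).filter
            fun v => tlo G T hm v = x) B'
      ≤ ((eds G (CP G Z T (fun x => S.filter fun v => hm v = x) z)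
          (HP G Z T (fun x => S.filter fun v => hm v = x) x)).card : ℤ)
        + (eds G (CP G Z T (fun x => S.filter fun v => hm v = x) x)
          (HP G Z T (fun x => S.filter fun v => hm v = x) z)).card
        + (eds G (CP G Z T (fun x => S.filter fun v => hm v = x) x)
          (CP G Z T (fun x => S.filter fun v => hm v = x) z)).card
        + (eds G (HP G Z T (fun x => S.filter fun v => hm v = x) x)
          (HP G Z T (fun x => S.filter fun v => hm v = x) z)).card := by
    intro x hx z hz hxz P P' hP hP' B B' hB hB' hBP hBP' K L M hc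
    refine hW.pair_cell hx hz hxz hP hP' hB hB' hBP hBP'
      (I := S.filter fun v => v ∈ Dbl G Z T x z) (K := K) (L := L) (M := M) ?_ ?_ ?_
    · rw [h.HP_eq hF hh hr hx hxz, h.HP_eq hF hh hr hz hxz.symm]
      ext v
      simp only [mem_sdiff, mem_filter]
      constructor
      · rintro ⟨⟨h1, h2⟩, h4⟩
        refine ⟨⟨h1, by rwa [Dbl_comm]⟩, ?_⟩
        obtain ⟨h5, h6⟩ := mem_Dbl.1 h2
        have h7 := hh v h5
        rw [h6] at h7
        rcases mem_insert.1 h7 with h8 | h8
        · exact absurd ⟨⟨h1, h2⟩, h8⟩ h4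
        · exact mem_singleton.1 h8
      · rintro ⟨⟨h1, h2⟩, h4⟩
        refine ⟨⟨h1, by rwa [Dbl_comm]⟩, fun h5 => hxz ?_⟩
        rw [← h5.2, h4]
    · rw [h.HP_eq hF hh hr hx hxz, h.CP_eq hr hx, h.CP_eq hr hz]
      exact hc
    · intro w hw a ha c hc'
      rw [h.CP_eq hr hx] at ha
      rw [h.CP_eq hr hz] at hc'
      obtain ⟨a1, a2, a3⟩ := mem_filter.1 ha
      obtain ⟨c1, c2, c3⟩ := mem_filter.1 hc'
      exact (hF.cellD (h.sub hx) (h.sub hz) hxz).rect w (mem_filter.1 hw).2 a
        (mem_filter.1 a1).2 c (mem_filter.1 c1).2 a3 c3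
  have hcomm : ∀ X Y : Finset V, ((eds G X Y).card : ℤ) = (eds G Y X).card := by
    intro X Y
    rw [card_eds_eq, card_eds_eq]
    have := dg_comm G X Y
    exact_mod_cast this
  have hsum := sum_dg_slots (G := G) (Z := Z) (T := T) (S := fun x => S.filter fun v => hm v = x)
    x z
  rw [← card_eds_eq (G := G) (CP G Z T (fun x => S.filter fun v => hm v = x) z)
      (HP G Z T (fun x => S.filter fun v => hm v = x) x),
    ← card_eds_eq (G := G) (CP G Z T (fun x => S.filter fun v => hm v = x) x)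
      (HP G Z T (fun x => S.filter fun v => hm v = x) z),
    ← card_eds_eq (G := G) (CP G Z T (fun x => S.filter fun v => hm v = x) z)
      (CP G Z T (fun x => S.filter fun v => hm v = x) x),
    ← card_eds_eq (G := G) (HP G Z T (fun x => S.filter fun v => hm v = x) z)
      (HP G Z T (fun x => S.filter fun v => hm v = x) x)] at hsum
  obtain ⟨K, L, M, hc | hc⟩ := h3 x hx z hz hxz
  · have h1 := key x hx z hz hxz P P' hP hP' B B' hB hB' hBP hBP' K L M hc
    have h2 := hcomm (CP G Z T (fun x => S.filter fun v => hm v = x) x)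
      (CP G Z T (fun x => S.filter fun v => hm v = x) z)
    have h4 := hcomm (HP G Z T (fun x => S.filter fun v => hm v = x) x)
      (HP G Z T (fun x => S.filter fun v => hm v = x) z)
    rw [hsum]
    linarith
  · have h1 := key z hz x hx hxz.symm P' P hP' hP B' B hB' hB hBP' hBP K L M hc
    rw [hsum]
    linarith

/-- **`HSys.pair_cell` for optimal packings** -/
theorem HSys.pair_pk {φ φ' : Finset (V × V) → Finset (Finset V) → ℕ} (hF : PFrame G r m t Z T)
    (hh : Homes G Z T hm) (h : HSys G Z T A S)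
    (hr : ∀ v ∈ S, hm v ∈ A ∧ hm v ∈ rws G T v) (h3 : Hom3 G Z T A S hm)
    {x z : V} (hx : x ∈ A) (hz : z ∈ A) (hxz : x ≠ z) {P P' : Finset V}
    (hP : P ⊆ HP G Z T (fun x => S.filter fun v => hm v = x) x)
    (hP' : P' ⊆ HP G Z T (fun x => S.filter fun v => hm v = x) z) {B B' : Finset (V × V)}
    {Ps Ps' : Finset (Finset V)}
    (hB : PkOpt G (CP G Z T (fun x => S.filter fun v => hm v = x) x)
      (HP G Z T (fun x => S.filter fun v => hm v = x) x) (tlo G T hm) φ B Ps)
    (hB' : PkOpt G (CP G Z T (fun x => S.filter fun v => hm v = x) z)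
      (HP G Z T (fun x => S.filter fun v => hm v = x) z) (tlo G T hm) φ' B' Ps')
    (hBP : ∀ e ∈ B, e.1 ∉ P) (hBP' : ∀ e ∈ B', e.1 ∉ P') :
    ∑ c ∈ CP G Z T (fun x => S.filter fun v => hm v = x) z, (dg G P c : ℤ)
      + ∑ c ∈ CP G Z T (fun x => S.filter fun v => hm v = x) x, (dg G P' c : ℤ)
      + ∑ e ∈ B.filter (fun e => tlo G T hm e.1 = z),
        (((CP G Z T (fun x => S.filter fun v => hm v = x) z).card : ℤ)
          - (rst G (CP G Z T (fun x => S.filter fun v => hm v = x) z) e.1 e.2).card)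
      + ∑ e ∈ B'.filter (fun e => tlo G T hm e.1 = x),
        (((CP G Z T (fun x => S.filter fun v => hm v = x) x).card : ℤ)
          - (rst G (CP G Z T (fun x => S.filter fun v => hm v = x) x) e.1 e.2).card)
      + farc G (CP G Z T (fun x => S.filter fun v => hm v = x) x)
          ((HP G Z T (fun x => S.filter fun v => hm v = x) x).filter
            fun v => tlo G T hm v = z) (B.filter fun e => tlo G T hm e.1 = z)
      + farc G (CP G Z T (fun x => S.filter fun v => hm v = x) z)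
          ((HP G Z T (fun x => S.filter fun v => hm v = x) z).filter
            fun v => tlo G T hm v = x) (B'.filter fun e => tlo G T hm e.1 = x)
      ≤ ∑ v ∈ S.filter (fun v => hm v = z), (dg G (S.filter fun v => hm v = x) v : ℤ) :=
  h.pair_cell hF hh hr h3 hx hz hxz hP hP' (hB.pcx CP_HP_disjoint.symm z)
    (hB'.pcx CP_HP_disjoint.symm x) (fun e he => hBP e (mem_filter.1 he).1)
    fun e he => hBP' e (mem_filter.1 he).1

/-- **the missed class points of the pinned members**: own copies, other used copies, free arcs -/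
theorem PCx.nd_split {C X : Finset V} {B : Finset (V × V)} (h : PCx X (msd G C) B) :
    ∑ e ∈ B, nd G C e.1 = B.card
      + ∑ e ∈ B, ((B.erase e).filter fun f => f.2 ∈ msd G C e.1).card + farc G C X B := by
  have h1 : ∀ e ∈ B, nd G C e.1 = 1 + ((B.erase e).filter fun f => f.2 ∈ msd G C e.1).card
      + (msd G (C \ B.image Prod.snd) e.1).card := by
    intro e he
    have h2 : nd G C e.1 = ((B.image Prod.snd).filter fun a => a ∈ msd G C e.1).card
        + (msd G (C \ B.image Prod.snd) e.1).card := by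
      rw [← msd_card, ← card_union_of_disjoint]
      · congr 1
        ext a
        simp only [msd, mem_union, mem_filter, mem_sdiff]
        constructor
        · rintro ⟨a1, a2⟩
          by_cases a3 : a ∈ B.image Prod.snd
          · exact Or.inl ⟨a3, a1, a2⟩
          · exact Or.inr ⟨⟨a1, a3⟩, a2⟩
        · rintro (⟨-, a1⟩ | ⟨⟨a1, -⟩, a2⟩)
          · exact a1
          · exact ⟨a1, a2⟩
      · rw [disjoint_left]
        intro a ha ha'
        exact (mem_sdiff.1 (mem_filter.1 ha').1).2 (mem_filter.1 ha).1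
    have h3 : ((B.image Prod.snd).filter fun a => a ∈ msd G C e.1).card
        = (B.filter fun f => f.2 ∈ msd G C e.1).card := by
      rw [filter_image, card_image_of_injOn]
      intro f hf g hg hfg
      have hf' : f ∈ B.filter fun f => f.2 ∈ msd G C e.1 := by exact_mod_cast hf
      have hg' : g ∈ B.filter fun f => f.2 ∈ msd G C e.1 := by exact_mod_cast hg
      exact h.i2 f (mem_filter.1 hf').1 g (mem_filter.1 hg').1 hfg
    have h4 : B.filter (fun f => f.2 ∈ msd G C e.1)
        = insert e ((B.erase e).filter fun f => f.2 ∈ msd G C e.1) := by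
      ext f
      simp only [mem_filter, mem_insert, mem_erase]
      constructor
      · rintro ⟨h5, h6⟩
        by_cases h7 : f = e
        · exact Or.inl h7
        · exact Or.inr ⟨⟨h7, h5⟩, h6⟩
      · rintro (rfl | ⟨⟨-, h5⟩, h6⟩)
        · exact ⟨he, h.arc _ he⟩
        · exact ⟨h5, h6⟩
    rw [h2, h3, h4, card_insert_of_notMem (by simp)]
    ring
  rw [sum_congr rfl h1, sum_add_distrib, sum_add_distrib, h.farc_eq, sum_const, smul_eq_mul,
    mul_one]

end Frame

end Pool.Agent.Lib.MP_f04ccf_co
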