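import Pool.Agent.Lib.MP_f04ccf_co.M.RowPC
import Pool.Agent.Lib.MP_f04ccf_co.M.LemC
import Pool.Agent.Lib.MP_f04ccf_co.M.Cell3

/-!
MP_f04ccf_co, notes 16576, 16759: the inequality (C*).  `Cx`, `Cy` two classes, `W` any doubles of this
cell, `K` missing pairs (member of `W`, point of `Cx`), injective in both places and served by `Cy`; with
`R = r - 1`, `tx = R - |Cx|`, `ty = R - |Cy|`, `w = |W|`, `k = |K|`, `P` the members of `K`:

* `PG.cstar`: `ty (w - tx) + k (R - ty) ≤ R + (arcs of W in Cx) + ne W`.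
* `PG.cstar_free`: `ty (w - tx) + k (R - ty - w) ≤ R + (arcs outside the partners) + ne (W \ P) - ne P`.
* `CSys.cstar`, `CSys.cstar_free`: in the frame.
-/

set_option autoImplicit false

namespace Pool.Agent.Lib.MP_f04ccf_co

open Finset

attribute [local instance] Classical.propDecidable

section Gen

variable {V : Type*} {G : SimpleGraph V} {r : ℕ}

/-- property (P), slope 1, on two classes and any set -/
theorem PG.s1_ne (hP : PG G r) {Cx Cy W : Finset V} (hx : Clq G Cx) (hy : Clq G Cy)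
    (dxy : Disjoint Cx Cy) (dxW : Disjoint Cx W) (dyW : Disjoint Cy W) :
    2 * (∑ c ∈ Cy, (dg G Cx c : ℤ) + ∑ c ∈ Cy, (dg G W c : ℤ)
      + (W.card : ℤ) * ((r : ℤ) - 1 - Cy.card))
      ≤ 2 * ((r : ℤ) - 1 + ((r : ℤ) - 1 - Cx.card) * ((r : ℤ) - 1 - Cy.card)
        + ∑ w ∈ W, (nd G Cx w : ℤ)) + NE G W := by
  have hd : Disjoint (Cx ∪ Cy) W := disjoint_union_left.2 ⟨dxW, dyW⟩
  have h1 := hP.NE_one (Cx ∪ Cy ∪ W)
  have h2 : (NE G (Cx ∪ Cy ∪ W) : ℤ) = 2 * ∑ c ∈ Cy, (nd G Cx c : ℤ)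
      + 2 * ∑ w ∈ W, ((nd G Cx w : ℤ) + nd G Cy w) + NE G W := by
    have e1 := NE_union (G := G) hd
    have e2 := NE_union (G := G) dxy
    rw [NE_clq hx, NE_clq hy] at e2
    rw [e2] at e1
    have e3 : ∀ w ∈ W, nd G (Cx ∪ Cy) w = nd G Cx w + nd G Cy w := fun w _ => nd_union dxy w
    rw [sum_congr rfl e3] at e1
    rw [e1]
    push_cast
    ring
  have h3 : ((Cx ∪ Cy ∪ W).card : ℤ) = Cx.card + Cy.card + W.card := by
    rw [card_union_of_disjoint hd, card_union_of_disjoint dxy]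
    push_cast
    ring
  have h4 : ∑ c ∈ Cy, (nd G Cx c : ℤ) = (Cx.card : ℤ) * Cy.card - ∑ c ∈ Cy, (dg G Cx c : ℤ) := by
    have e1 : ∀ c ∈ Cy, (nd G Cx c : ℤ) = (Cx.card : ℤ) - dg G Cx c := by
      intro c hc
      have := nd_of_notMem (G := G) (A := Cx) (x := c) fun h => disjoint_left.1 dxy h hc
      omega
    rw [sum_congr rfl e1, sum_sub_distrib, sum_const, nsmul_eq_mul]
    ring
  have h5 : ∑ w ∈ W, (nd G Cy w : ℤ) = (Cy.card : ℤ) * W.card - ∑ c ∈ Cy, (dg G W c : ℤ) := by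
    have e1 : ∀ w ∈ W, (nd G Cy w : ℤ) = (Cy.card : ℤ) - dg G Cy w := by
      intro w hw
      have := nd_of_notMem (G := G) (A := Cy) (x := w) fun h => disjoint_left.1 dyW h hw
      omega
    have e2 : ∑ w ∈ W, (dg G Cy w : ℤ) = ∑ c ∈ Cy, (dg G W c : ℤ) := by
      exact_mod_cast dg_comm G W Cy
    rw [sum_congr rfl e1, sum_sub_distrib, sum_const, nsmul_eq_mul, e2]
    ring
  rw [sum_add_distrib] at h2
  rw [h2, h3, h4, h5] at h1
  nlinarith

/-- a point of the other class sees a point of every pair -/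
lemma card_le_dg2 {Cx W : Finset V} {K : Finset (V × V)} (k1 : ∀ e ∈ K, e.1 ∈ W)
    (k2 : ∀ e ∈ K, e.2 ∈ Cx) (i1 : ∀ e ∈ K, ∀ f ∈ K, e.1 = f.1 → e = f)
    (i2 : ∀ e ∈ K, ∀ f ∈ K, e.2 = f.2 → e = f) {c : V}
    (hc : ∀ e ∈ K, G.Adj c e.1 ∨ G.Adj c e.2) : K.card ≤ dg G Cx c + dg G W c := by
  have h1 : K = (K.filter fun e => G.Adj c e.2) ∪ (K.filter fun e => G.Adj c e.1) := by
    ext e
    rw [mem_union, mem_filter, mem_filter]
    constructor
    · intro he
      rcases hc e he with h | h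
      · exact Or.inr ⟨he, h⟩
      · exact Or.inl ⟨he, h⟩
    · rintro (h | h)
      · exact h.1
      · exact h.1
  have h2 : (K.filter fun e => G.Adj c e.2).card ≤ dg G Cx c := by
    unfold dg
    refine card_le_card_of_injOn Prod.snd (fun e he => ?_) fun e he f hf hef => ?_
    · obtain ⟨h3, h4⟩ := mem_filter.1 (by exact_mod_cast he :
        e ∈ K.filter fun e => G.Adj c e.2)
      exact mem_filter.2 ⟨k2 e h3, h4⟩
    · exact i2 e (mem_filter.1 (by exact_mod_cast he : e ∈ K.filter fun e => G.Adj c e.2)).1 f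
        (mem_filter.1 (by exact_mod_cast hf : f ∈ K.filter fun e => G.Adj c e.2)).1 hef
  have h3 : (K.filter fun e => G.Adj c e.1).card ≤ dg G W c := by
    unfold dg
    refine card_le_card_of_injOn Prod.fst (fun e he => ?_) fun e he f hf hef => ?_
    · obtain ⟨h3, h4⟩ := mem_filter.1 (by exact_mod_cast he :
        e ∈ K.filter fun e => G.Adj c e.1)
      exact mem_filter.2 ⟨k1 e h3, h4⟩
    · exact i1 e (mem_filter.1 (by exact_mod_cast he : e ∈ K.filter fun e => G.Adj c e.1)).1 f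
        (mem_filter.1 (by exact_mod_cast hf : f ∈ K.filter fun e => G.Adj c e.1)).1 hef
  have h4 := card_union_le (K.filter fun e => G.Adj c e.2) (K.filter fun e => G.Adj c e.1)
  rw [← h1] at h4
  omega

/-- **(C\*)** -/
theorem PG.cstar (hP : PG G r) {Cx Cy W : Finset V} (hx : Clq G Cx) (hy : Clq G Cy)
    (dxy : Disjoint Cx Cy) (dxW : Disjoint Cx W) (dyW : Disjoint Cy W) {K : Finset (V × V)}
    (k1 : ∀ e ∈ K, e.1 ∈ W) (k2 : ∀ e ∈ K, e.2 ∈ Cx)
    (i1 : ∀ e ∈ K, ∀ f ∈ K, e.1 = f.1 → e = f) (i2 : ∀ e ∈ K, ∀ f ∈ K, e.2 = f.2 → e = f)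
    (hs : ∀ e ∈ K, ∀ c ∈ Cy, G.Adj c e.1 ∨ G.Adj c e.2) :
    2 * (((r : ℤ) - 1 - Cy.card) * ((W.card : ℤ) - ((r : ℤ) - 1 - Cx.card))
      + (K.card : ℤ) * Cy.card)
      ≤ 2 * ((r : ℤ) - 1 + ∑ w ∈ W, (nd G Cx w : ℤ)) + NE G W := by
  have h1 := hP.s1_ne hx hy dxy dxW dyW
  have h2 : (Cy.card : ℤ) * K.card
      ≤ ∑ c ∈ Cy, ((dg G Cx c : ℤ) + dg G W c) := by
    have := card_nsmul_le_sum Cy (fun c => ((dg G Cx c : ℤ) + dg G W c)) (K.card : ℤ)
      (fun c hc => by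
        have e1 := card_le_dg2 (G := G) (Cx := Cx) (W := W) k1 k2 i1 i2 (c := c)
          fun e he => hs e he c hc
        exact_mod_cast e1)
    rwa [nsmul_eq_mul] at this
  rw [sum_add_distrib] at h2
  nlinarith

/-- the arcs to the partners and the missing pairs with the members of `K` -/
theorem used_add_ne {W : Finset V} {K : Finset (V × V)} (k1 : ∀ e ∈ K, e.1 ∈ W)
    (hn : ∀ e ∈ K, ∀ v ∈ W, v ≠ e.1 → G.Adj v e.1 ∨ G.Adj v e.2) :
    2 * ∑ w ∈ W, nd G (K.image Prod.snd) w + NE G W + NE G (K.image Prod.fst)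
      ≤ 2 * (K.card * W.card) + NE G (W \ K.image Prod.fst) := by
  have hPW : K.image Prod.fst ⊆ W := by
    intro v hv
    obtain ⟨e, he, rfl⟩ := mem_image.1 hv
    exact k1 e he
  -- one member of `W`
  have h1 : ∀ v ∈ W, nd G (K.image Prod.snd) v + nd G (K.image Prod.fst) v ≤ K.card := by
    intro v hv
    have e1 : nd G (K.image Prod.snd) v ≤ (K.filter fun e => v = e.1 ∨ ¬ G.Adj v e.2).card := by
      unfold nd
      refine le_trans (card_le_card ?_) (card_image_le (f := Prod.snd))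
      intro a ha
      obtain ⟨h2, h3, h4⟩ := mem_filter.1 ha
      obtain ⟨e, he, rfl⟩ := mem_image.1 h2
      exact mem_image.2 ⟨e, mem_filter.2 ⟨he, Or.inr h4⟩, rfl⟩
    have e2 : nd G (K.image Prod.fst) v
        ≤ (K.filter fun e => v ≠ e.1 ∧ ¬ G.Adj v e.1).card := by
      unfold nd
      refine le_trans (card_le_card ?_) (card_image_le (f := Prod.fst))
      intro a ha
      obtain ⟨h2, h3, h4⟩ := mem_filter.1 ha
      obtain ⟨e, he, rfl⟩ := mem_image.1 h2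
      exact mem_image.2 ⟨e, mem_filter.2 ⟨he, h3.symm, h4⟩, rfl⟩
    have e3 : Disjoint (K.filter fun e => v = e.1 ∨ ¬ G.Adj v e.2)
        (K.filter fun e => v ≠ e.1 ∧ ¬ G.Adj v e.1) := by
      rw [disjoint_left]
      intro e he he'
      obtain ⟨h2, h3⟩ := mem_filter.1 he
      obtain ⟨-, h4, h5⟩ := mem_filter.1 he'
      rcases h3 with h3 | h3
      · exact h4 h3
      · rcases hn e h2 v hv h4 with h6 | h6
        · exact h5 h6
        · exact h3 h6
    have e4 := card_union_of_disjoint e3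
    have e5 : ((K.filter fun e => v = e.1 ∨ ¬ G.Adj v e.2)
        ∪ (K.filter fun e => v ≠ e.1 ∧ ¬ G.Adj v e.1)).card ≤ K.card :=
      card_le_card (union_subset (filter_subset _ _) (filter_subset _ _))
    omega
  have h2 : ∑ v ∈ W, (nd G (K.image Prod.snd) v + nd G (K.image Prod.fst) v)
      ≤ W.card * K.card := by
    have := sum_le_card_nsmul W _ _ h1
    rwa [smul_eq_mul] at this
  rw [sum_add_distrib] at h2
  have h3 : W = (W \ K.image Prod.fst) ∪ K.image Prod.fst := (sdiff_union_of_subset hPW).symm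
  have h4 : Disjoint (W \ K.image Prod.fst) (K.image Prod.fst) := sdiff_disjoint
  have h5 := NE_union (G := G) h4.symm
  have h6 : ∑ v ∈ W, nd G (K.image Prod.fst) v
      = ∑ v ∈ W \ K.image Prod.fst, nd G (K.image Prod.fst) v + NE G (K.image Prod.fst) := by
    conv_lhs => rw [h3]
    rw [sum_union h4]
    rfl
  have h7 : NE G W = NE G (K.image Prod.fst ∪ W \ K.image Prod.fst) := by
    rw [union_sdiff_of_subset hPW]
  rw [h7, h5]
  have h8 : W.card * K.card = K.card * W.card := Nat.mul_comm _ _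
  omega

/-- **(C\*) with the free arcs** -/
theorem PG.cstar_free (hP : PG G r) {Cx Cy W : Finset V} (hx : Clq G Cx) (hy : Clq G Cy)
    (dxy : Disjoint Cx Cy) (dxW : Disjoint Cx W) (dyW : Disjoint Cy W) {K : Finset (V × V)}
    (k1 : ∀ e ∈ K, e.1 ∈ W) (k2 : ∀ e ∈ K, e.2 ∈ Cx)
    (i1 : ∀ e ∈ K, ∀ f ∈ K, e.1 = f.1 → e = f) (i2 : ∀ e ∈ K, ∀ f ∈ K, e.2 = f.2 → e = f)
    (hs : ∀ e ∈ K, ∀ c ∈ Cy, G.Adj c e.1 ∨ G.Adj c e.2)
    (hn : ∀ e ∈ K, ∀ v ∈ W, v ≠ e.1 → G.Adj v e.1 ∨ G.Adj v e.2) :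
    2 * (((r : ℤ) - 1 - Cy.card) * ((W.card : ℤ) - ((r : ℤ) - 1 - Cx.card))
      + (K.card : ℤ) * ((Cy.card : ℤ) - W.card)) + NE G (K.image Prod.fst)
      ≤ 2 * ((r : ℤ) - 1 + ∑ w ∈ W, (nd G (Cx \ K.image Prod.snd) w : ℤ))
        + NE G (W \ K.image Prod.fst) := by
  have h1 := hP.cstar hx hy dxy dxW dyW k1 k2 i1 i2 hs
  have h2 := used_add_ne (G := G) k1 hn
  have hsub : K.image Prod.snd ⊆ Cx := by
    intro a ha
    obtain ⟨e, he, rfl⟩ := mem_image.1 ha
    exact k2 e he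
  have h3 : ∀ w ∈ W, (nd G Cx w : ℤ)
      = (nd G (Cx \ K.image Prod.snd) w : ℤ) + nd G (K.image Prod.snd) w := by
    intro w _
    have e1 := nd_union (G := G) (A := Cx \ K.image Prod.snd) (B := K.image Prod.snd)
      sdiff_disjoint w
    rw [sdiff_union_of_subset hsub] at e1
    exact_mod_cast e1
  rw [sum_congr rfl h3, sum_add_distrib] at h1
  have h4 : 2 * ∑ w ∈ W, (nd G (K.image Prod.snd) w : ℤ) + NE G W + NE G (K.image Prod.fst)
      ≤ 2 * ((K.card : ℤ) * W.card) + NE G (W \ K.image Prod.fst) := by exact_mod_cast h2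
  linarith

end Gen

section Frame

variable {V : Type*} {G : SimpleGraph V} {Z T : Finset V} {hm : V → V} {r m t : ℕ}
  {A : Finset V} {S : V → Finset V}

/-- **(C\*) in the frame**: `W` members of the host `x` with tail `z`, `K` missing pairs -/
theorem CSys.cstar (hF : PFrame G r m t Z T) (hP : PG G r) (hC : CSys G Z T hm A S)
    (hW : WSysT G (co G) A (CP G Z T S) (HP G Z T S) (tlo G T hm)) {x z : V} (hx : x ∈ A)
    (hz : z ∈ A) (hxz : x ≠ z) {W : Finset V}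
    (hWx : W ⊆ (HP G Z T S x).filter fun v => tlo G T hm v = z) {K : Finset (V × V)}
    (k1 : ∀ e ∈ K, e.1 ∈ W) (k2 : ∀ e ∈ K, e.2 ∈ CP G Z T S x) (k3 : ∀ e ∈ K, ¬ G.Adj e.1 e.2)
    (i1 : ∀ e ∈ K, ∀ f ∈ K, e.1 = f.1 → e = f) (i2 : ∀ e ∈ K, ∀ f ∈ K, e.2 = f.2 → e = f) :
    2 * (((r : ℤ) - 1 - (CP G Z T S z).card) * ((W.card : ℤ) - ((r : ℤ) - 1 - (CP G Z T S x).card))
      + (K.card : ℤ) * (CP G Z T S z).card)
      ≤ 2 * ((r : ℤ) - 1 + ∑ w ∈ W, (nd G (CP G Z T S x) w : ℤ)) + NE G W := by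
  have hHx : W ⊆ HP G Z T S x := hWx.trans (filter_subset _ _)
  refine hP.cstar (hC.CP_clq hF hx) (hC.CP_clq hF hz) (hW.dCC x hx z hz hxz)
    ((hW.dHC x hx x hx).symm.mono_right hHx) ((hW.dHC x hx z hz).symm.mono_right hHx) k1 k2 i1 i2 ?_
  intro e he c hc
  have h1 := hHx (k1 e he)
  have h2 : (co G).Adj e.1 e.2 := co_adj.2 ⟨fun h3 =>
    disjoint_left.1 (hW.dHC x hx x hx) h1 (h3 ▸ k2 e he), k3 e he⟩
  have h3 : tlo G T hm e.1 = z := (mem_filter.1 (hWx (k1 e he))).2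
  exact (hW.pc x hx e.1 h1 e.2 (k2 e he) h2).2 c (h3 ▸ hc)

/-- **(C\*) for the packing of a host**: `K` the PC pairs with tail `z`, `W` members with tail `z` -/
theorem PkOpt.cstar {φ : Finset (V × V) → Finset (Finset V) → ℕ} (hF : PFrame G r m t Z T)
    (hP : PG G r) (hh : Homes G Z T hm) (hC : CSys G Z T hm A S)
    (hW : WSysT G (co G) A (CP G Z T S) (HP G Z T S) (tlo G T hm)) {x z : V} (hx : x ∈ A)
    (hz : z ∈ A) (hxz : x ≠ z) {B : Finset (V × V)} {Ps : Finset (Finset V)}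
    (h : PkOpt G (CP G Z T S x) (HP G Z T S x) (tlo G T hm) φ B Ps) {W : Finset V}
    (hWx : W ⊆ (HP G Z T S x).filter fun v => tlo G T hm v = z)
    (hWB : (B.filter fun e => tlo G T hm e.1 = z).image Prod.fst ⊆ W) :
    2 * (((r : ℤ) - 1 - (CP G Z T S z).card) * ((W.card : ℤ) - ((r : ℤ) - 1 - (CP G Z T S x).card))
      + ((B.filter fun e => tlo G T hm e.1 = z).card : ℤ) * ((CP G Z T S z).card - W.card))
      + NE G ((B.filter fun e => tlo G T hm e.1 = z).image Prod.fst)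
      ≤ 2 * ((r : ℤ) - 1 + (farc G (CP G Z T S x)
          ((HP G Z T S x).filter fun v => tlo G T hm v = z)
          (B.filter fun e => tlo G T hm e.1 = z) : ℤ))
        + NE G (W \ (B.filter fun e => tlo G T hm e.1 = z).image Prod.fst) := by
  have hHx : W ⊆ HP G Z T S x := hWx.trans (filter_subset _ _)
  have hpx := h.pcx (hW.dHC x hx x hx) z
  set K := B.filter fun e => tlo G T hm e.1 = z with hK
  have h1 := hP.cstar_free (hC.CP_clq hF hx) (hC.CP_clq hF hz) (hW.dCC x hx z hz hxz)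
    ((hW.dHC x hx x hx).symm.mono_right hHx) ((hW.dHC x hx z hz).symm.mono_right hHx)
    (K := K) (fun e he => hWB (mem_image_of_mem _ he)) (fun e he => h.bC e (mem_filter.1 he).1)
    hpx.i1 hpx.i2 (by
      intro e he c hc
      obtain ⟨he1, he2⟩ := mem_filter.1 he
      have h2 : (co G).Adj e.1 e.2 := co_adj.2 ⟨fun h3 =>
        disjoint_left.1 (hW.dHC x hx x hx) (h.bH e he1) (h3 ▸ h.bC e he1), h.bN e he1⟩
      exact (hW.pc x hx e.1 (h.bH e he1) e.2 (h.bC e he1) h2).2 c (he2 ▸ hc)) (by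
      intro e he v hv hve
      by_contra hcon
      push Not at hcon
      obtain ⟨he1, he2⟩ := mem_filter.1 he
      obtain ⟨hv1, hv2⟩ := mem_filter.1 (hWx hv)
      exact hcon.1 ((hC.cellD hF hx hz hxz).comC v (hC.mem_Dbl_of_tlo hh hx hv1 hv2) e.1
        (hC.mem_Dbl_of_tlo hh hx (h.bH e he1) he2) hve e.2 (h.bC e he1) hcon.2 (h.bN e he1)))
  have h2 : ∑ w ∈ W, (nd G (CP G Z T S x \ K.image Prod.snd) w : ℤ)
      ≤ (farc G (CP G Z T S x) ((HP G Z T S x).filter fun v => tlo G T hm v = z) K : ℤ) := by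
    rw [hpx.farc_eq]
    have e1 : ∑ w ∈ W, (nd G (CP G Z T S x \ K.image Prod.snd) w : ℤ)
        = ∑ w ∈ K.image Prod.fst, (nd G (CP G Z T S x \ K.image Prod.snd) w : ℤ) := by
      symm
      refine sum_subset hWB fun w hw hwK => ?_
      have e2 : nd G (CP G Z T S x \ K.image Prod.snd) w = 0 := by
        unfold nd
        rw [card_eq_zero, filter_eq_empty_iff]
        rintro a ha ⟨e3, e4⟩
        obtain ⟨ha1, ha2⟩ := mem_sdiff.1 ha
        exact ha2 (hpx.free (hWx hw) hwK (mem_filter.2 ⟨ha1, e3, e4⟩))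
      rw [e2]
      rfl
    rw [e1, sum_image fun e he f hf hef => hpx.i1 e he f hf hef]
    push_cast
    refine sum_le_sum fun e he => ?_
    rw [msd_card]
  linarith

end Frame

end Pool.Agent.Lib.MP_f04ccf_co
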