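import Pool.Agent.Lib.MP_f04ccf_co.M.LvI
import Pool.Agent.Lib.MP_f04ccf_co.M.ItZ

/-!
MP_f04ccf_co, PLAN W, finite and middle range: **potentials over the items with levels**.
`LvI.pot`: if the deductions `δ i b` at the rows never have a sum above `D` for misses `b` with
pairwise products at most `R + t i * t j` then the values `D * kp i u - δ i (mn i u)` of an item have
sum at least `D * vl u`; half units, cliques, double tails and PC pairs at once.
`LvI.pot1`: one threshold at every row.  `potB`, `LvI.potS`: any step functions, the condition is a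
decidable check over the rows different from the host.
-/

set_option autoImplicit false

namespace Pool.Agent.Lib.MP_f04ccf_co

open Finset

attribute [local instance] Classical.propDecidable

/-- the condition for step functions: `lv i` the levels of the row `i`, pairs (least number of misses,
deduction); `ch` the levels chosen so far with their rows, `s` their deductions -/
def potB (P : ℕ → ℕ → ℤ) (lv : ℕ → List (ℤ × ℤ)) (D : ℤ) : List ℕ → List (ℕ × ℤ) → ℤ → Bool
  | [], _, s => decide (s ≤ D)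
  | i :: L, ch, s => potB P lv D L ch s &&
      (lv i).all fun p => (ch.any fun q => decide (P i q.1 < p.1 * q.2)) ||
        potB P lv D L ((i, p.1) :: ch) (s + p.2)

theorem potB_sound {P : ℕ → ℕ → ℤ} {lv : ℕ → List (ℤ × ℤ)} {D : ℤ} {δ : ℕ → ℤ → ℤ} {b : ℕ → ℤ}
    (hb : ∀ i, 0 ≤ b i) (hlv : ∀ i, ∀ p ∈ lv i, (0 : ℤ) ≤ p.1) :
    ∀ (L : List ℕ) (ch : List (ℕ × ℤ)) (s : ℤ), potB P lv D L ch s = true → L.Nodup →
      (∀ i ∈ L, ∀ j ∈ L, i ≠ j → b i * b j ≤ P i j) →
      (∀ i ∈ L, ∀ q ∈ ch, b i * b q.1 ≤ P i q.1 ∧ 0 ≤ q.2 ∧ q.2 ≤ b q.1) →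
      (∀ i ∈ L, δ i (b i) ≤ 0 ∨ ∃ p ∈ lv i, p.1 ≤ b i ∧ δ i (b i) ≤ p.2) →
      s + (L.map fun i => δ i (b i)).sum ≤ D := by
  intro L
  induction L with
  | nil =>
    intro ch s h _ _ _ _
    rw [potB, decide_eq_true_iff] at h
    simpa using h
  | cons i L ih =>
    intro ch s h hnd hLL hch hδ
    rw [potB, Bool.and_eq_true, List.all_eq_true] at h
    obtain ⟨h1, h2⟩ := h
    obtain ⟨hiL, hnd'⟩ := List.nodup_cons.1 hnd
    rw [List.map_cons, List.sum_cons]
    rcases hδ i List.mem_cons_self with h3 | ⟨p, hp, hpb, h3⟩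
    · have h4 := ih ch s h1 hnd' (fun j hj k hk => hLL j (List.mem_cons_of_mem _ hj) k
        (List.mem_cons_of_mem _ hk)) (fun j hj => hch j (List.mem_cons_of_mem _ hj))
        fun j hj => hδ j (List.mem_cons_of_mem _ hj)
      linarith
    · have h4 := h2 p hp
      have hp0 := hlv i p hp
      rw [Bool.or_eq_true] at h4
      rcases h4 with h4 | h4
      · exfalso
        rw [List.any_eq_true] at h4
        obtain ⟨q, hq, h5⟩ := h4
        rw [decide_eq_true_iff] at h5
        obtain ⟨h6, h7, h8⟩ := hch i List.mem_cons_self q hq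
        have h9 := mul_le_mul hpb h8 h7 (hb i)
        linarith
      · have h5 := ih ((i, p.1) :: ch) (s + p.2) h4 hnd' (fun j hj k hk =>
          hLL j (List.mem_cons_of_mem _ hj) k (List.mem_cons_of_mem _ hk)) (fun j hj q hq => by
            rcases List.mem_cons.1 hq with rfl | hq
            · exact ⟨hLL j (List.mem_cons_of_mem _ hj) i List.mem_cons_self
                (fun h => hiL (h ▸ hj)), hp0, hpb⟩
            · exact hch j (List.mem_cons_of_mem _ hj) q hq)
          fun j hj => hδ j (List.mem_cons_of_mem _ hj)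
        linarith

section Pot

variable {ι : Type*} {R : ℤ} {n : ℕ} {t s h e : ℕ → ℤ} {U : Finset ι} {ho : ι → ℕ} {vl : ι → ℤ}
  {kp ms mr mn : ℕ → ι → ℤ} {mu : ℕ → ℤ} {be : ℕ → ℕ → ℤ} {pc ar : ι → ℤ}

/-- **potentials**: `δ i b` the deduction at the row `i` for `b` misses -/
theorem LvI.pot (L : LvI R n t s h e U ho vl kp ms mr mn mu be pc ar)
    (hm0 : ∀ u ∈ U, ∀ i < n, 0 ≤ ms i u)
    (hmk : ∀ u ∈ U, ∀ i < n, mr i u ≤ kp i u * (R - t i))
    {D : ℤ} {δ : ℕ → ℤ → ℤ} (h0 : ∀ i < n, δ i 0 = 0) {u : ι} (hu : u ∈ U)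
    (hδ : ∀ b : ℕ → ℤ, (∀ i < n, 0 ≤ b i) → (∀ i < n, b i ≤ R - t i) →
      (∀ i < n, kp i u = 0 → b i = 0) →
      (∀ i < n, ∀ j < n, i ≠ j → b i * b j ≤ R + t i * t j) →
      ∑ i ∈ range n, δ i (b i) ≤ D) :
    D * vl u ≤ ∑ i ∈ range n, (D * kp i u - δ i (mn i u)) := by
  have hz : ∀ i < n, kp i u = 0 → mn i u = 0 := fun i hi h1 => by
    have h2 := L.mnr u hu i hi
    have h3 := hmk u hu i hi
    have h4 := L.msn u hu i hi
    have h5 := hm0 u hu i hi
    rw [h1, zero_mul] at h3
    linarith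
  rw [sum_sub_distrib, ← mul_sum]
  rcases L.one u hu with ⟨i, hi, h1, h2, h3, h4⟩ | ⟨-, h1⟩
  · have h5 : ∑ j ∈ range n, kp j u = 1 := by
      rw [← add_sum_erase _ _ (mem_range.2 hi), h1,
        sum_eq_zero fun j hj => h4 j (mem_range.1 (mem_of_mem_erase hj)) (ne_of_mem_erase hj)]
      ring
    have h6 : ∑ j ∈ range n, δ j (mn j u) = 0 := sum_eq_zero fun j hj => by
      by_cases h7 : j = i
      · rw [h7, h3, h0 i hi]
      · rw [hz j (mem_range.1 hj) (h4 j (mem_range.1 hj) h7), h0 j (mem_range.1 hj)]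
    rw [h5, h6, h2]
    linarith
  · have h2 := hδ (fun i => mn i u) (fun i hi => (hm0 u hu i hi).trans (L.msn u hu i hi))
      (fun i hi => L.mnc u hu i hi) hz (fun i hi j hj hij => L.mpr u hu i hi j hj hij)
    rw [h1]
    linarith

/-- one threshold at every row -/
theorem LvI.pot1 (L : LvI R n t s h e U ho vl kp ms mr mn mu be pc ar)
    (hm0 : ∀ u ∈ U, ∀ i < n, 0 ≤ ms i u)
    (hmk : ∀ u ∈ U, ∀ i < n, mr i u ≤ kp i u * (R - t i))
    {θ : ℕ → ℤ} (h0 : ∀ i < n, 0 ≤ θ i) {u : ι} (hu : u ∈ U)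
    (hθ : ∀ i < n, ∀ j < n, i ≠ j → kp i u ≠ 0 → kp j u ≠ 0 →
      R + t i * t j < (θ i + 1) * (θ j + 1)) :
    vl u ≤ ∑ i ∈ range n, (kp i u - if θ i < mn i u then 1 else 0) := by
  have h1 := L.pot hm0 hmk (D := 1) (δ := fun i b => if θ i < b then 1 else 0)
    (fun i hi => if_neg (not_lt.2 (h0 i hi))) hu (fun b hb hbc hbz hbb => by
      by_cases hex : ∃ i < n, θ i < b i
      · obtain ⟨i, hi, hib⟩ := hex
        rw [← add_sum_erase _ _ (mem_range.2 hi), if_pos hib, sum_eq_zero, add_zero]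
        intro j hj
        have hjn := mem_range.1 (mem_of_mem_erase hj)
        refine if_neg fun h2 => ?_
        have hij := (ne_of_mem_erase hj).symm
        have h3 := hbb i hi j hjn hij
        have h4 : kp i u ≠ 0 := fun h5 => by
          have := hbz i hi h5
          have := h0 i hi
          linarith
        have h5 : kp j u ≠ 0 := fun h5 => by
          have := hbz j hjn h5
          have := h0 j hjn
          linarith
        have h6 := hθ i hi j hjn hij h4 h5
        have h7 : θ i + 1 ≤ b i := hib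
        have h8 : θ j + 1 ≤ b j := h2
        have h9 := mul_le_mul h7 h8 (by linarith [h0 j hjn]) (hb i hi)
        linarith
      · push Not at hex
        rw [sum_eq_zero]
        · norm_num
        · intro i hi
          exact if_neg (not_lt.2 (hex i (mem_range.1 hi))))
  simpa using h1

/-- **potentials by step functions**: `lv i` the levels of the row `i` (least number of misses,
deduction), the condition is checked by `potB` over the rows different from the host -/
theorem LvI.potS (L : LvI R n t s h e U ho vl kp ms mr mn mu be pc ar)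
    (hm0 : ∀ u ∈ U, ∀ i < n, 0 ≤ ms i u)
    (hmk : ∀ u ∈ U, ∀ i < n, mr i u ≤ kp i u * (R - t i)) (hkh : ∀ u ∈ U, kp (ho u) u = 0)
    {D : ℤ} {δ : ℕ → ℤ → ℤ} (h0 : ∀ i < n, δ i 0 = 0) {u : ι} (hu : u ∈ U)
    {lv : ℕ → List (ℤ × ℤ)} (hlv : ∀ i, ∀ p ∈ lv i, (0 : ℤ) ≤ p.1)
    (hδ : ∀ i < n, ∀ b : ℤ, 0 ≤ b → b ≤ R - t i →
      δ i b ≤ 0 ∨ ∃ p ∈ lv i, p.1 ≤ b ∧ δ i b ≤ p.2)
    (hB : potB (fun i j => R + t i * t j) lv D ((List.range n).filter fun i => i ≠ ho u) [] 0
      = true) :
    D * vl u ≤ ∑ i ∈ range n, (D * kp i u - δ i (mn i u)) := by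
  refine L.pot hm0 hmk h0 hu fun b hb hbc hbz hbb => ?_
  have h1 := potB_sound (δ := δ) (b := fun i => max 0 (b i)) (fun i => le_max_left _ _) hlv
    ((List.range n).filter fun i => i ≠ ho u) [] 0 hB (List.nodup_range.filter _)
    (fun i hi j hj hij => by
      have hi' := List.mem_range.1 (List.mem_filter.1 hi).1
      have hj' := List.mem_range.1 (List.mem_filter.1 hj).1
      show max 0 (b i) * max 0 (b j) ≤ R + t i * t j
      rw [max_eq_right (hb i hi'), max_eq_right (hb j hj')]
      exact hbb i hi' j hj' hij) (fun i _ q hq => absurd hq (by simp)) (fun i hi => by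
      have hi' := List.mem_range.1 (List.mem_filter.1 hi).1
      show δ i (max 0 (b i)) ≤ 0 ∨ ∃ p ∈ lv i, p.1 ≤ max 0 (b i) ∧ δ i (max 0 (b i)) ≤ p.2
      rw [max_eq_right (hb i hi')]
      exact hδ i hi' (b i) (hb i hi') (hbc i hi'))
  have h2 : ∑ i ∈ range n, δ i (b i)
      = (((List.range n).filter fun i => i ≠ ho u).map fun i => δ i (max 0 (b i))).sum := by
    have h3 : ∑ i ∈ range n, δ i (b i)
        = ∑ i ∈ (range n).filter (fun i => i ≠ ho u), δ i (max 0 (b i)) := by
      rw [sum_filter]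
      refine sum_congr rfl fun i hi => ?_
      by_cases h4 : i = ho u
      · have h5 : ¬ i ≠ ho u := fun h => h h4
        rw [if_neg h5]
        have h6 := hbz i (mem_range.1 hi) (by rw [h4]; exact hkh u hu)
        rw [h6]
        exact h0 i (mem_range.1 hi)
      · rw [if_pos h4, max_eq_right (hb i (mem_range.1 hi))]
    rw [h3]
    have h4 : (range n).filter (fun i => i ≠ ho u)
        = (((List.range n).filter fun i => i ≠ ho u)).toFinset := by
      ext i
      simp
    rw [h4, List.sum_toFinset _ (List.nodup_range.filter _)]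
  rw [h2]
  linarith

end Pot

end Pool.Agent.Lib.MP_f04ccf_co
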