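import Pool.Agent.Lib.MP_f04ccf_co.M.LvE
import Pool.Agent.Lib.MP_f04ccf_co.M.PotL

/-!
MP_f04ccf_co, finite part: **the capacity of a row for the ends of one host** (value function with several
levels) and the test of one host.
`CapM.valL V b` the value of an end with `b` misses (`V` = levels: largest number of misses, value);
`CapM.cap ok c f V k H` the largest total value of ends added to `k` ends with `H` hits as long as
`ok (number) (hits)` is true; `CapM.cap_sound`.  `CapM.okT` the row test with the ends of PC pairs in front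
and the bound of the hits of the pair.  `LvI.hostM`: values of the ends of the host `x` by `potB` and the
capacities of the other rows.
-/

set_option autoImplicit false

namespace Pool.Agent.Lib.MP_f04ccf_co

open Finset

namespace CapM

/-- the value of an end with `b` misses -/
def valL : List (ℤ × ℤ) → ℤ → ℤ
  | [], _ => 0
  | p :: V, b => if b ≤ p.1 then p.2 else valL V b

/-- more ends of one level (`hit` hits, value `v`), then `g` -/
def loop (ok : ℕ → ℤ → Bool) (hit v : ℤ) (g : ℕ → ℤ → ℤ) : ℕ → ℕ → ℤ → ℤ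
  | 0, k, H => g k H
  | f + 1, k, H => bif ok (k + 1) (H + hit) then
      max (g k H) (v + loop ok hit v g f (k + 1) (H + hit)) else g k H

/-- the largest total value -/
def cap (ok : ℕ → ℤ → Bool) (c : ℤ) (f : ℕ) : List (ℤ × ℤ) → ℕ → ℤ → ℤ
  | [] => fun _ _ => 0
  | p :: V => loop ok (c - p.1) p.2 (cap ok c f V) f

/-- the levels as deductions from `D` -/
def lvV (D : ℤ) : List (ℤ × ℤ) → List (ℤ × ℤ)
  | [] => []
  | [p] => [(p.1 + 1, D)]
  | p :: q :: V => (p.1 + 1, D - q.2) :: lvV D (q :: V)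

/-- the row test for `k` ends with `H` hits and up to `Q` ends of PC pairs in front, at most `S` hits -/
def okT (R s c e : ℤ) (Q : ℕ) (S : ℤ) (k : ℕ) (H : ℤ) : Bool :=
  decide (H ≤ S) && (List.range (Q + 1)).all fun q =>
    decide (s + ((k + q : ℕ) : ℤ) < 0) ||
    decide (R * s + (q : ℤ) * c + H ≤ e + 2 * ((k + q : ℕ) : ℤ) * (s + 1)
      + ((k + q : ℕ) : ℤ) * (2 * ((k + q : ℕ) : ℤ) - 1))

/-- the lists of values allowed: first value `D`, thresholds nonnegative -/
def goodV (D : ℤ) (V : List (ℤ × ℤ)) : Bool :=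
  (match V with
    | [] => false
    | p :: _ => decide (p.2 = D)) && V.all fun p => decide (0 ≤ p.1)

lemma loop_ge (ok : ℕ → ℤ → Bool) (hit v : ℤ) (g : ℕ → ℤ → ℤ) :
    ∀ (J f k : ℕ) (H : ℤ), J ≤ f → (∀ j : ℕ, 1 ≤ j → j ≤ J → ok (k + j) (H + j * hit) = true) →
      v * J + g (k + J) (H + J * hit) ≤ loop ok hit v g f k H := by
  intro J
  induction J with
  | zero =>
    intro f k H _ _
    simp only [Nat.cast_zero, mul_zero, zero_mul, add_zero, zero_add]
    cases f with
    | zero => exact le_refl _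
    | succ f =>
      rw [loop]
      cases ok (k + 1) (H + hit)
      · exact le_refl _
      · exact le_max_left _ _
  | succ J ih =>
    intro f k H hf hok
    obtain ⟨f, rfl⟩ : ∃ f', f = f' + 1 := ⟨f - 1, by omega⟩
    have h1 := hok 1 le_rfl (by omega)
    rw [Nat.cast_one, one_mul] at h1
    rw [loop, h1, cond_true]
    refine le_trans ?_ (le_max_right _ _)
    have h2 := ih f (k + 1) (H + hit) (by omega) (fun j hj hj' => by
      have h3 := hok (j + 1) (by omega) (by omega)
      have e1 : k + 1 + j = k + (j + 1) := by omega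
      have e2 : H + hit + (j : ℤ) * hit = H + ((j + 1 : ℕ) : ℤ) * hit := by push_cast; ring
      rw [e1, e2]
      exact h3)
    have e1 : k + 1 + J = k + (J + 1) := by omega
    have e2 : H + hit + (J : ℤ) * hit = H + ((J + 1 : ℕ) : ℤ) * hit := by push_cast; ring
    rw [e1, e2] at h2
    push_cast at h2 ⊢
    linarith

/-- **the capacity bounds the value of every set of ends** -/
theorem cap_sound {α : Type*} [DecidableEq α] {ok : ℕ → ℤ → Bool} {c : ℤ} {f : ℕ}
    (mono : ∀ (k : ℕ) (H H' : ℤ), H ≤ H' → ok k H' = true → ok k H = true) (b : α → ℤ) :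
    ∀ (V : List (ℤ × ℤ)) (E : Finset α) (k : ℕ) (H : ℤ), E.card ≤ f →
      (∀ K ⊆ E, K.Nonempty → ok (k + K.card) (H + ∑ a ∈ K, (c - b a)) = true) →
      ∑ a ∈ E, valL V (b a) ≤ cap ok c f V k H := by
  intro V
  induction V with
  | nil =>
    intro E k H _ _
    simp [valL, cap]
  | cons p V ih =>
    intro E k H hE hok
    set E1 := E.filter fun a => b a ≤ p.1 with hE1
    set E2 := E.filter fun a => ¬ b a ≤ p.1 with hE2
    have hs : ∑ a ∈ E, valL (p :: V) (b a) = p.2 * E1.card + ∑ a ∈ E2, valL V (b a) := by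
      rw [← sum_filter_add_sum_filter_not E (fun a => b a ≤ p.1)]
      congr 1
      · rw [sum_congr rfl fun a ha => by
          rw [valL, if_pos (mem_filter.1 ha).2], sum_const, nsmul_eq_mul, mul_comm]
      · exact sum_congr rfl fun a ha => by rw [valL, if_neg (mem_filter.1 ha).2]
    have hd : Disjoint E1 E2 := disjoint_filter_filter_not _ _ _
    have h1 : ∀ K ⊆ E1, (K.card : ℤ) * (c - p.1) ≤ ∑ a ∈ K, (c - b a) := by
      intro K hK
      rw [← nsmul_eq_mul, ← sum_const]
      refine sum_le_sum fun a ha => ?_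
      have := (mem_filter.1 (hK ha)).2
      linarith
    have h2 := loop_ge ok (c - p.1) p.2 (cap ok c f V) E1.card f k H
      ((card_filter_le _ _).trans hE) (fun j hj hj' => by
        obtain ⟨K, hK, hKc⟩ := exists_subset_card_eq hj'
        have h3 := hok K (hK.trans (filter_subset _ _)) (card_pos.1 (by omega))
        rw [hKc] at h3
        have h4 := h1 K hK
        rw [hKc] at h4
        exact mono _ _ _ (by linarith) h3)
    have h3 := ih E2 (k + E1.card) (H + E1.card * (c - p.1)) ((card_filter_le _ _).trans hE)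
      (fun K hK hKn => by
        have hKd : Disjoint K E1 := (hd.mono_right hK).symm
        have h4 := hok (K ∪ E1) (union_subset (hK.trans (filter_subset _ _)) (filter_subset _ _))
          (hKn.mono subset_union_left)
        rw [card_union_of_disjoint hKd, sum_union hKd] at h4
        have h5 := h1 E1 (Subset.refl _)
        have e1 : k + E1.card + K.card = k + (K.card + E1.card) := by omega
        rw [e1]
        exact mono _ _ _ (by linarith) h4)
    rw [hs, cap]
    linarith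

lemma okT_mono (R s c e : ℤ) (Q : ℕ) (S : ℤ) (k : ℕ) (H H' : ℤ) (hH : H ≤ H')
    (h : okT R s c e Q S k H' = true) : okT R s c e Q S k H = true := by
  rw [okT, Bool.and_eq_true, decide_eq_true_iff, List.all_eq_true] at h ⊢
  refine ⟨hH.trans h.1, fun q hq => ?_⟩
  have h1 := h.2 q hq
  rw [Bool.or_eq_true, decide_eq_true_iff, decide_eq_true_iff] at h1 ⊢
  rcases h1 with h1 | h1
  · exact Or.inl h1
  · exact Or.inr (by linarith)

lemma valL_lv (D : ℤ) : ∀ (V : List (ℤ × ℤ)) (p : ℤ × ℤ) (b : ℤ),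
    (b ≤ p.1 ∧ valL (p :: V) b = p.2) ∨
      ∃ q ∈ lvV D (p :: V), q.1 ≤ b ∧ D - valL (p :: V) b ≤ q.2 := by
  intro V
  induction V with
  | nil =>
    intro p b
    by_cases h : b ≤ p.1
    · exact Or.inl ⟨h, by rw [valL, if_pos h]⟩
    · refine Or.inr ⟨(p.1 + 1, D), by simp [lvV], by dsimp only; omega, ?_⟩
      rw [valL, if_neg h, valL]
      simp
  | cons q V ih =>
    intro p b
    by_cases h : b ≤ p.1
    · exact Or.inl ⟨h, by rw [valL, if_pos h]⟩
    · rw [valL, if_neg h]
      rcases ih q b with ⟨h1, h2⟩ | ⟨r, hr, h1, h2⟩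
      · refine Or.inr ⟨(p.1 + 1, D - q.2), by simp [lvV], by dsimp only; omega, ?_⟩
        rw [h2]
      · exact Or.inr ⟨r, by rw [lvV]; exact List.mem_cons_of_mem _ hr, h1, h2⟩

lemma lvV_nonneg (D : ℤ) : ∀ (V : List (ℤ × ℤ)), (∀ p ∈ V, (0 : ℤ) ≤ p.1) →
    ∀ q ∈ lvV D V, (0 : ℤ) ≤ q.1 := by
  intro V
  induction V with
  | nil =>
    intro _ q hq
    simp [lvV] at hq
  | cons p V ih =>
    intro h q hq
    have h0 := h p List.mem_cons_self
    cases V with
    | nil =>
      simp only [lvV, List.mem_singleton] at hq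
      rw [hq]
      dsimp only
      linarith
    | cons r V =>
      rw [lvV, List.mem_cons] at hq
      rcases hq with rfl | hq
      · dsimp only
        linarith
      · exact ih (fun a ha => h a (List.mem_cons_of_mem _ ha)) q hq

end CapM

section Host

attribute [local instance] Classical.propDecidable

namespace LvI

open Lv CapM

variable {ι : Type*} {R : ℤ} {n : ℕ} {t s h e : ℕ → ℤ} {U : Finset ι} {ho : ι → ℕ} {vl : ι → ℤ}
  {kp ms mr mn : ℕ → ι → ℤ} {mu : ℕ → ℤ} {be : ℕ → ℕ → ℤ} {pc ar : ι → ℤ}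

/-- an item without end at a row has no misses there -/
lemma mn_zero (L : LvI R n t s h e U ho vl kp ms mr mn mu be pc ar)
    (m0 : ∀ u ∈ U, ∀ i < n, 0 ≤ ms i u)
    (hmk : ∀ u ∈ U, ∀ i < n, mr i u ≤ kp i u * (R - t i)) {u : ι} (hu : u ∈ U) {i : ℕ}
    (hi : i < n) (hk : kp i u = 0) : mn i u = 0 := by
  have h2 := L.mnr u hu i hi
  have h3 := hmk u hu i hi
  have h4 := L.msn u hu i hi
  have h5 := m0 u hu i hi
  rw [hk, zero_mul] at h3
  linarith

/-- the PC items -/
lemma pc_data (L : LvI R n t s h e U ho vl kp ms mr mn mu be pc ar)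
    (m0 : ∀ u ∈ U, ∀ i < n, 0 ≤ ms i u)
    (hmk : ∀ u ∈ U, ∀ i < n, mr i u ≤ kp i u * (R - t i)) {u : ι} (hu : u ∈ U)
    (hp : pc u = 1) {i : ℕ} (hi : i < n) : mn i u = 0 ∧ (kp i u = 0 ∨ kp i u = 1) := by
  rcases L.one u hu with ⟨j, hj, h1, h2, h3, h4⟩ | ⟨h1, -⟩
  · by_cases hij : i = j
    · rw [hij]
      exact ⟨h3, Or.inr h1⟩
    · have h5 := h4 i hi hij
      exact ⟨L.mn_zero m0 hmk hu hi h5, Or.inl h5⟩
  · rw [h1] at hp
    norm_num at hp

/-- the plain ends of the host `x` at the row `z` -/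
noncomputable def plE (U : Finset ι) (ho : ι → ℕ) (kp : ℕ → ι → ℤ) (pc : ι → ℤ) (x z : ℕ) :
    Finset (ι × ℕ) :=
  (((U.filter fun u => ho u = x).filter fun u => pc u = 0) ×ˢ range 2).filter
    fun a => (a.2 : ℤ) < kp z a.1

lemma mem_plE {x z : ℕ} {a : ι × ℕ} : a ∈ plE U ho kp pc x z ↔
    a.1 ∈ U ∧ ho a.1 = x ∧ pc a.1 = 0 ∧ a.2 < 2 ∧ (a.2 : ℤ) < kp z a.1 := by
  unfold plE
  rw [mem_filter, mem_product, mem_filter, mem_filter, mem_range]
  tauto

lemma plE_sub {x z : ℕ} (hxz : z ≠ x) : plE U ho kp pc x z ⊆ ens U ho kp z := by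
  intro a ha
  obtain ⟨h1, h2, -, h4, h5⟩ := mem_plE.1 ha
  exact mem_ens.2 ⟨h1, by rw [h2]; exact hxz.symm, h4, h5⟩

/-- a sum over the plain ends, item by item -/
lemma sum_plE {x z : ℕ} (hk0 : ∀ u ∈ U, 0 ≤ kp z u) (hk2 : ∀ u ∈ U, kp z u ≤ 2) (w : ℤ → ℤ) :
    ∑ a ∈ plE U ho kp pc x z, w (bm kp mn z a)
      = ∑ u ∈ (U.filter fun u => ho u = x).filter (fun u => pc u = 0),
        (if kp z u = 0 then 0 else if kp z u = 1 then w (mn z u) else w 0 + w (mn z u)) := by
  unfold plE
  rw [sum_filter, sum_product]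
  refine sum_congr rfl fun u hu => ?_
  have hu' := (mem_filter.1 (mem_filter.1 hu).1).1
  have h0 := hk0 u hu'
  have h2 := hk2 u hu'
  rw [sum_range_succ, sum_range_succ, sum_range_zero, zero_add]
  dsimp only
  rcases (by omega : kp z u = 0 ∨ kp z u = 1 ∨ kp z u = 2) with h3 | h3 | h3
  · rw [h3]
    simp
  · have hb : bm kp mn z (u, 0) = mn z u := by
      unfold bm
      rw [if_pos (by dsimp only; rw [h3]; norm_num)]
    rw [h3]
    simp only [Nat.cast_zero, Nat.cast_one, zero_lt_one, if_true, lt_irrefl, if_false, add_zero,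
      one_ne_zero]
    rw [hb]
  · have hb : bm kp mn z (u, 0) = 0 := by
      unfold bm
      rw [if_neg (by dsimp only; rw [h3]; norm_num)]
    have hb' : bm kp mn z (u, 1) = mn z u := by
      unfold bm
      rw [if_pos (by dsimp only; rw [h3]; norm_num)]
    rw [h3]
    norm_num
    rw [hb, hb']

/-- the number of the plain ends -/
lemma card_plE {x z : ℕ} (hk0 : ∀ u ∈ U, 0 ≤ kp z u) (hk2 : ∀ u ∈ U, kp z u ≤ 2) :
    ((plE U ho kp pc x z).card : ℤ)
      = ∑ u ∈ (U.filter fun u => ho u = x).filter (fun u => pc u = 0), kp z u := by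
  have h1 := sum_plE (U := U) (ho := ho) (pc := pc) (mn := fun _ _ => 0) (x := x) hk0 hk2
    fun _ => 1
  rw [sum_const, nsmul_eq_mul, mul_one] at h1
  rw [h1]
  refine sum_congr rfl fun u hu => ?_
  have hu' := (mem_filter.1 (mem_filter.1 hu).1).1
  have h0 := hk0 u hu'
  have h2 := hk2 u hu'
  rcases (by omega : kp z u = 0 ∨ kp z u = 1 ∨ kp z u = 2) with h3 | h3 | h3 <;> rw [h3] <;> norm_num

/-- **the row test for plain ends of one host**, with `q` ends of PC pairs in front, and the bound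
of the hits of the pair -/
lemma okT_of (L : LvI R n t s h e U ho vl kp ms mr mn mu be pc ar)
    (m0 : ∀ u ∈ U, ∀ i < n, 0 ≤ ms i u) (hk0 : ∀ u ∈ U, ∀ i < n, 0 ≤ kp i u)
    (hmk : ∀ u ∈ U, ∀ i < n, mr i u ≤ kp i u * (R - t i)) (hkh : ∀ u ∈ U, kp (ho u) u = 0)
    (hp : ∀ u ∈ U, pc u = 0 ∨ pc u = 1) {x z : ℕ} (hz : z < n) (hzx : z ≠ x) {E S : ℤ} {Q : ℕ}
    (hE : e z ≤ E) (hQ : (Q : ℤ) ≤ ∑ u ∈ U, pc u * kp z u)
    (hS : ∑ u ∈ U.filter (fun u => ho u = x), (1 - pc u) * (kp z u * (R - t z) - ms z u) ≤ S)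
    {K : Finset (ι × ℕ)} (hK : K ⊆ plE U ho kp pc x z) (hKn : K.Nonempty) :
    okT R (s z) (R - t z) E Q S K.card (∑ a ∈ K, (R - t z - bm kp mn z a)) = true := by
  have hc : 0 ≤ R - t z := by
    obtain ⟨a, ha⟩ := hKn
    have h1 := (mem_plE.1 (hK ha)).1
    exact ((m0 _ h1 z hz).trans (L.msn _ h1 z hz)).trans (L.mnc _ h1 z hz)
  have hbm : ∀ a ∈ plE U ho kp pc x z, 0 ≤ R - t z - bm kp mn z a := by
    intro a ha
    have h1 := (mem_plE.1 ha).1
    unfold bm
    split_ifs
    · linarith [L.mnc _ h1 z hz]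
    · linarith
  rw [okT, Bool.and_eq_true, decide_eq_true_iff, List.all_eq_true]
  constructor
  · refine (sum_le_sum_of_subset_of_nonneg hK fun a ha _ => hbm a ha).trans ?_
    rw [sum_plE (fun u hu => hk0 u hu z hz) (fun u hu => L.k2 u hu z hz) fun b => R - t z - b]
    refine le_trans ?_ hS
    rw [sum_filter]
    refine sum_le_sum fun u hu => ?_
    have hu' := (mem_filter.1 hu).1
    have h1 := L.msn u hu' z hz
    rcases hp u hu' with h2 | h2
    · rw [h2, if_pos rfl]
      simp only [sub_zero, one_mul]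
      have h3 := hk0 u hu' z hz
      have h4 := L.k2 u hu' z hz
      rcases (by omega : kp z u = 0 ∨ kp z u = 1 ∨ kp z u = 2) with h5 | h5 | h5
      · have h6 := L.mn_zero m0 hmk hu' hz h5
        rw [if_pos h5, h5]
        linarith
      · rw [h5]
        norm_num
        linarith
      · rw [h5]
        norm_num
        linarith
    · rw [h2]
      norm_num
  · intro q hq
    have hq' : q ≤ Q := by
      have := List.mem_range.1 hq
      omega
    rw [Bool.or_eq_true, decide_eq_true_iff, decide_eq_true_iff]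
    by_cases h0 : s z + ((K.card + q : ℕ) : ℤ) < 0
    · exact Or.inl h0
    right
    set PE := (U.filter fun u => pc u = 1 ∧ kp z u = 1).image fun u => (u, 0) with hPE
    have hPc : (PE.card : ℤ) = ∑ u ∈ U, pc u * kp z u := by
      rw [hPE, card_image_of_injective _ (fun a b hab => (Prod.ext_iff.1 hab).1),
        card_eq_sum_ones, sum_filter]
      push_cast
      refine sum_congr rfl fun u hu => ?_
      rcases hp u hu with h1 | h1
      · rw [h1]
        norm_num
      · rcases (L.pc_data m0 hmk hu h1 hz).2 with h2 | h2 <;> rw [h1, h2] <;> norm_num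
    have hqc : q ≤ PE.card := by
      have : (q : ℤ) ≤ Q := by exact_mod_cast hq'
      have h1 : (q : ℤ) ≤ PE.card := by linarith
      exact_mod_cast h1
    obtain ⟨K', hK', hKq⟩ := exists_subset_card_eq hqc
    have hd : Disjoint K K' := by
      rw [disjoint_left]
      intro a ha ha'
      obtain ⟨u, hu, rfl⟩ := mem_image.1 (hK' ha')
      have h1 := (mem_plE.1 (hK ha)).2.2.1
      have h2 := (mem_filter.1 hu).2.1
      rw [h2] at h1
      norm_num at h1
    have hKK : K ∪ K' ⊆ ens U ho kp z := by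
      refine union_subset (hK.trans (plE_sub hzx)) fun a ha => ?_
      obtain ⟨u, hu, rfl⟩ := mem_image.1 (hK' ha)
      obtain ⟨hu1, hu2, hu3⟩ := mem_filter.1 hu
      refine mem_ens.2 ⟨hu1, fun h1 => ?_, by norm_num, by dsimp only; rw [hu3]; norm_num⟩
      have h2 := hkh u hu1
      dsimp only at h1
      rw [h1, hu3] at h2
      norm_num at h2
    have h1 := L.tE m0 hz hKK (by
      rw [card_union_of_disjoint hd, hKq]
      push_cast at h0 ⊢
      linarith)
    rw [sum_union hd, card_union_of_disjoint hd, hKq] at h1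
    have h2 : ∑ a ∈ K', (R - t z - bm kp mn z a) = q * (R - t z) := by
      rw [← hKq, ← nsmul_eq_mul, ← sum_const]
      refine sum_congr rfl fun a ha => ?_
      obtain ⟨u, hu, rfl⟩ := mem_image.1 (hK' ha)
      obtain ⟨hu1, hu2, hu3⟩ := mem_filter.1 hu
      unfold bm
      rw [if_pos (by dsimp only; rw [hu3]; norm_num)]
      dsimp only
      rw [(L.pc_data m0 hmk hu1 hu2 hz).1]
      ring
    rw [h2] at h1
    push_cast at h1 ⊢
    linarith

/-- **the test of one host**: values of the ends by levels -/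
theorem hostM (L : LvI R n t s h e U ho vl kp ms mr mn mu be pc ar)
    (m0 : ∀ u ∈ U, ∀ i < n, 0 ≤ ms i u) (hk0 : ∀ u ∈ U, ∀ i < n, 0 ≤ kp i u)
    (hmk : ∀ u ∈ U, ∀ i < n, mr i u ≤ kp i u * (R - t i)) (hkh : ∀ u ∈ U, kp (ho u) u = 0)
    (hp : ∀ u ∈ U, pc u = 0 ∨ pc u = 1) {x : ℕ} (hx : x < n)
    (hmu : mu x = ∑ u ∈ U.filter (fun u => ho u = x), vl u) {D : ℤ} (hD : 0 ≤ D)
    {V : ℕ → List (ℤ × ℤ)} (hV : ∀ z, goodV D (V z) = true)
    (hB : potB (fun i j => R + t i * t j) (fun i => lvV D (V i)) D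
      ((List.range n).filter fun i => i ≠ x) [] 0 = true)
    {p E S : ℕ → ℤ} {Q : ℕ → ℕ} {f : ℕ} (hf : h x ≤ f) (hE : ∀ z < n, z ≠ x → e z ≤ E z)
    (hP : ∀ z < n, z ≠ x → ∑ u ∈ U.filter (fun u => ho u = x), pc u * kp z u ≤ p z)
    (hQ : ∀ z < n, z ≠ x → (Q z : ℤ) ≤ ∑ u ∈ U, pc u * kp z u)
    (hS : ∀ z < n, z ≠ x → ∑ u ∈ U.filter (fun u => ho u = x),
      (1 - pc u) * (kp z u * (R - t z) - ms z u) ≤ S z) :
    D * mu x ≤ ∑ z ∈ (range n).erase x, (D * p z
      + cap (okT R (s z) (R - t z) (E z) (Q z) (S z)) (R - t z) f (V z) 0 0) := by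
  have hgood : ∀ z, ∃ q W, V z = q :: W ∧ q.2 = D ∧ ∀ a ∈ V z, (0 : ℤ) ≤ a.1 := by
    intro z
    have h1 := hV z
    unfold goodV at h1
    rw [Bool.and_eq_true, List.all_eq_true] at h1
    obtain ⟨h1, h2⟩ := h1
    cases hVz : V z with
    | nil =>
      rw [hVz] at h1
      simp at h1
    | cons q W =>
      rw [hVz] at h1
      dsimp only at h1
      rw [decide_eq_true_iff] at h1
      refine ⟨q, W, rfl, h1, fun a ha => ?_⟩
      rw [hVz] at h2
      have := h2 a ha
      rwa [decide_eq_true_iff] at this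
  have hv0 : ∀ z, valL (V z) 0 = D := by
    intro z
    obtain ⟨q, W, h1, h2, h3⟩ := hgood z
    have h4 := h3 q (by rw [h1]; exact List.mem_cons_self)
    rw [h1, valL, if_pos h4, h2]
  have hlv : ∀ i, ∀ a ∈ lvV D (V i), (0 : ℤ) ≤ a.1 := by
    intro i
    obtain ⟨q, W, h1, h2, h3⟩ := hgood i
    exact lvV_nonneg D (V i) h3
  have h1 : ∀ u ∈ U.filter (fun u => ho u = x),
      D * vl u ≤ ∑ i ∈ range n, (D * kp i u - (D - valL (V i) (mn i u))) := by
    intro u hu
    obtain ⟨hu1, hu2⟩ := mem_filter.1 hu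
    refine L.potS m0 hmk hkh (δ := fun i b => D - valL (V i) b) (fun i _ => by
      rw [hv0]
      ring) hu1 hlv (fun i _ b _ _ => ?_) (by rw [hu2]; exact hB)
    obtain ⟨q, W, h1, h2, h3⟩ := hgood i
    rcases valL_lv D W q b with ⟨h4, h5⟩ | ⟨a, ha, h4, h5⟩
    · left
      rw [h1, h5, h2]
      linarith
    · right
      rw [h1]
      exact ⟨a, ha, h4, h5⟩
  have h2 : D * mu x ≤ ∑ z ∈ range n, ∑ u ∈ U.filter (fun u => ho u = x),
      (D * kp z u - (D - valL (V z) (mn z u))) := by
    rw [sum_comm, hmu, mul_sum]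
    exact sum_le_sum h1
  rw [← add_sum_erase _ _ (mem_range.2 hx)] at h2
  have h3 : ∑ u ∈ U.filter (fun u => ho u = x), (D * kp x u - (D - valL (V x) (mn x u))) = 0 := by
    refine sum_eq_zero fun u hu => ?_
    obtain ⟨hu1, hu2⟩ := mem_filter.1 hu
    have h4 := hkh u hu1
    rw [hu2] at h4
    rw [L.mn_zero m0 hmk hu1 hx h4, h4, hv0]
    ring
  rw [h3, zero_add] at h2
  refine h2.trans (sum_le_sum fun z hz => ?_)
  obtain ⟨hzx, hz'⟩ := mem_erase.1 hz
  have hzn := mem_range.1 hz'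
  have hk0z : ∀ u ∈ U, 0 ≤ kp z u := fun u hu => hk0 u hu z hzn
  have hk2z : ∀ u ∈ U, kp z u ≤ 2 := fun u hu => L.k2 u hu z hzn
  rw [← sum_filter_add_sum_filter_not _ (fun u => pc u = 0)]
  have h4 : ∑ u ∈ (U.filter fun u => ho u = x).filter (fun u => pc u = 0),
      (D * kp z u - (D - valL (V z) (mn z u)))
      = ∑ a ∈ plE U ho kp pc x z, valL (V z) (bm kp mn z a) := by
    rw [sum_plE hk0z hk2z fun b => valL (V z) b]
    refine sum_congr rfl fun u hu => ?_
    have hu' := (mem_filter.1 (mem_filter.1 hu).1).1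
    have h5 := hk0z u hu'
    have h6 := hk2z u hu'
    rcases (by omega : kp z u = 0 ∨ kp z u = 1 ∨ kp z u = 2) with h7 | h7 | h7
    · rw [if_pos h7, L.mn_zero m0 hmk hu' hzn h7, h7, hv0]
      ring
    · rw [h7, if_neg (by norm_num), if_pos rfl]
      ring
    · rw [h7, if_neg (by norm_num), if_neg (by norm_num), hv0]
      ring
  have h5 : ∑ u ∈ (U.filter fun u => ho u = x).filter (fun u => ¬ pc u = 0),
      (D * kp z u - (D - valL (V z) (mn z u))) ≤ D * p z := by
    have h6 := mul_le_mul_of_nonneg_left (hP z hzn hzx) hD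
    refine le_trans (le_of_eq ?_) h6
    rw [mul_sum, sum_filter]
    refine sum_congr rfl fun u hu => ?_
    have hu' := (mem_filter.1 hu).1
    rcases hp u hu' with h7 | h7
    · rw [h7]
      norm_num
    · rw [(L.pc_data m0 hmk hu' h7 hzn).1, h7, hv0]
      norm_num
  have h6 : (plE U ho kp pc x z).card ≤ f := by
    have h7 : ((plE U ho kp pc x z).card : ℤ) ≤ h x := by
      rw [card_plE hk0z hk2z]
      refine le_trans ?_ (L.prv x hx)
      rw [sum_filter]
      refine sum_le_sum fun u hu => ?_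
      have hu' := (mem_filter.1 hu).1
      have h8 : kp z u ≤ ∑ i ∈ range n, kp i u :=
        single_le_sum (f := fun i => kp i u) (fun i hi => hk0 u hu' i (mem_range.1 hi)) hz'
      rcases L.one u hu' with ⟨j, hj, h9, h10, h11, h12⟩ | ⟨h9, h10⟩
      · have h13 : ∑ i ∈ range n, kp i u = 1 := by
          rw [← add_sum_erase _ _ (mem_range.2 hj), h9,
            sum_eq_zero fun i hi => h12 i (mem_range.1 (mem_of_mem_erase hi)) (ne_of_mem_erase hi)]
          ring
        rcases hp u hu' with h14 | h14 <;> rw [h14, h10]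
        · norm_num
          linarith
        · norm_num
      · rw [h9, if_pos rfl]
        linarith
    have h8 : ((plE U ho kp pc x z).card : ℤ) ≤ f := h7.trans hf
    exact_mod_cast h8
  have h7 := cap_sound (c := R - t z) (f := f) (okT_mono R (s z) (R - t z) (E z) (Q z) (S z))
    (bm kp mn z) (V z) (plE U ho kp pc x z) 0 0 h6 (fun K hK hKn => by
      rw [zero_add, zero_add]
      exact L.okT_of m0 hk0 hmk hkh hp hzn hzx (hE z hzn hzx) (hQ z hzn hzx) (hS z hzn hzx) hK hKn)
  rw [h4]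
  linarith

end LvI

end Host

end Pool.Agent.Lib.MP_f04ccf_co
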