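import Pool.Agent.Lib.MP_f04ccf_co.M.RowV

/-!
MP_f04ccf_co, TEXT D, middle range: **the caps of a cell with clique units, both hosts** (`PConC`), and the row letters.

* `CpM`, `CpO`: the cap with | without the PC pairs of the cell: `N1` items of `U1` units hosted, `N2` items of `U2`
  units served, misses and arcs `b`, `w`, saving `sv` (value one only);
* `PConC.capLM`, `PConC.capLO`: any levels;
* `RowU`: the caps of one row: `cap1`: any number of clique items at level one (average misses and arcs); `capc`: all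
  or no clique units; `mcrT`: the arcs of the hosted cliques; `kcwT`: the arcs of the served ones by the number `bt` of
  the PC pairs of the host with other rows; `btT`: tN for the PC pairs of the host;
* `LevC.rowU`: the same hypotheses as `LevC.rowV`.
-/

set_option autoImplicit false

namespace Pool.Agent.Lib.MP_f04ccf_co

open Finset

attribute [local instance] Classical.propDecidable

/-- the cap with the `M` PC pairs of the cell -/
def CpM (R A B M N1 U1 N2 U2 b w sv : ℤ) : Prop :=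
  2 * ((M - 1) * R) + 2 * (U1 * R + N1 * (B - 1) + U2 * R + N2 * (A - 1) - b - w) + sv
    ≤ 2 * ((A - 1) * (B - 1)) + 2 * M ^ 2 + 2 * M * (U1 + N1 + U2 + N2)
      + (U1 + N1 + U2 + N2) * (U1 + N1 + U2 + N2 - 1)

/-- the cap without the PC pairs of the cell (`p` hosted, `q` served) -/
def CpO (R A B p q N1 U1 N2 U2 b w sv : ℤ) : Prop :=
  2 * (U1 * R + N1 * (B - 1 - p) + U2 * R + N2 * (A - 1 - q) - b - w) + sv
    ≤ 2 * (R + (A - 1) * (B - 1)) + (U1 + N1 + U2 + N2) * (U1 + N1 + U2 + N2 - 1)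

section CapLS

variable {ι : Type*} {R : ℤ} {n : ℕ} {t s mu : ℕ → ℤ} {U : Finset ι} {ho : ι → ℕ} {vl : ι → ℤ}
  {kp mn : ℕ → ι → ℤ} {pc ar : ι → ℤ} {be kq NN sg : ℕ → ℕ → ℤ} {nu : ℕ → ι → ℤ}

lemma triU_le {a b : ℕ} (h : a ≤ b) : (a : ℤ) * (a - 1) ≤ (b : ℤ) * (b - 1) := by
  have h1 : (a : ℤ) ≤ b := by exact_mod_cast h
  rcases Nat.eq_zero_or_pos a with h2 | h2
  · rw [h2]
    rcases Nat.eq_zero_or_pos b with h3 | h3
    · rw [h3]
    · have h4 : (1 : ℤ) ≤ b := by exact_mod_cast h3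
      have := mul_nonneg (show (0 : ℤ) ≤ b by linarith) (show (0 : ℤ) ≤ (b : ℤ) - 1 by linarith)
      simpa using this
  · have h3 : (1 : ℤ) ≤ a := by exact_mod_cast h2
    nlinarith

/-- the saving of the items with their whole value -/
lemma svc_lev {K K' : Finset ι} {i j : ℕ} (hKi : ∀ u ∈ K, pc u = 0) (hKj : ∀ u ∈ K', pc u = 0)
    {l l' : ι → ℕ} {a k : ℕ} (ha : a ≤ (K.filter fun u => (l u : ℤ) = vl u).card)
    (hk : k ≤ (K'.filter fun u => (l' u : ℤ) = vl u).card) :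
    SvC2 n vl kp pc i j l l' K K' (2 * ((a : ℤ) * (a - 1)) + 2 * ((k : ℤ) * (k - 1))) := by
  refine Or.inr (Or.inr ?_)
  have h2 : K.filter (fun u => (l u : ℤ) = vl u ∧ pc u = 0) = K.filter fun u => (l u : ℤ) = vl u :=
    filter_congr fun u hu => ⟨fun h => h.1, fun h => ⟨h, hKi u hu⟩⟩
  have h3 : K'.filter (fun u => (l' u : ℤ) = vl u ∧ pc u = 0)
      = K'.filter fun u => (l' u : ℤ) = vl u :=
    filter_congr fun u hu => ⟨fun h => h.1, fun h => ⟨h, hKj u hu⟩⟩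
  rw [h2, h3]
  have h4 := triU_le ha
  have h5 := triU_le hk
  linarith

/-- **the cap with the PC pairs, any levels** -/
theorem PConC.capLM (H : PConC R n t s mu U ho vl kp mn pc ar be kq NN sg nu) {i j : ℕ}
    (hi : i < n) (hj : j < n) (hij : i ≠ j) {K K' : Finset ι} (hK : K ⊆ U) (hK' : K' ⊆ U)
    (hKi : ∀ u ∈ K, ho u = i ∧ pc u = 0) (hKj : ∀ u ∈ K', ho u = j ∧ pc u = 0) {l l' : ι → ℕ}
    (hl : ∀ u ∈ K, 1 ≤ l u ∧ (l u : ℤ) ≤ kp j u) (hl' : ∀ u ∈ K', 1 ≤ l' u ∧ (l' u : ℤ) ≤ kp i u)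
    {a k : ℕ} (ha : a ≤ (K.filter fun u => (l u : ℤ) = vl u).card)
    (hk : k ≤ (K'.filter fun u => (l' u : ℤ) = vl u).card) {A B M N1 U1 N2 U2 b w : ℤ}
    (hA : A = t i + 1) (hB : B = t j + 1) (hM : M = be i j + be j i)
    (hN1 : N1 = (K.card : ℤ)) (hU1 : U1 = ∑ u ∈ K, (l u : ℤ)) (hN2 : N2 = (K'.card : ℤ))
    (hU2 : U2 = ∑ u ∈ K', (l' u : ℤ))
    (hb : ∑ u ∈ K, (msP kp mn j l u + ∑ x ∈ ((range n).erase i).erase j, kp x u * be i x) ≤ b)
    (hw : ∑ u ∈ K', (msP kp mn i l' u + ∑ x ∈ ((range n).erase i).erase j, kp x u * be j x) ≤ w) :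
    CpM R A B M N1 U1 N2 U2 b w (2 * ((a : ℤ) * (a - 1)) + 2 * ((k : ℤ) * (k - 1))) := by
  have h0 := H.capMC i hi j hj hij K hK hKi K' hK' hKj l l' (fun u hu => (hl u hu).1)
    (fun u hu => (hl u hu).2) (fun u hu => (hl' u hu).1) (fun u hu => (hl' u hu).2) _
    (svc_lev (fun u hu => (hKi u hu).2) (fun u hu => (hKj u hu).2) ha hk)
  have e1 : ∑ u ∈ K, (R * (l u : ℤ) + t j - msP kp mn j l u
        - ∑ x ∈ ((range n).erase i).erase j, kp x u * be i x)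
      = R * U1 + N1 * t j
        - ∑ u ∈ K, (msP kp mn j l u + ∑ x ∈ ((range n).erase i).erase j, kp x u * be i x) := by
    rw [hU1, hN1, mul_sum, ← nsmul_eq_mul, ← sum_const, ← sum_add_distrib, ← sum_sub_distrib]
    exact sum_congr rfl fun u _ => by ring
  have e2 : ∑ u ∈ K', (R * (l' u : ℤ) + t i - msP kp mn i l' u
        - ∑ x ∈ ((range n).erase i).erase j, kp x u * be j x)
      = R * U2 + N2 * t i
        - ∑ u ∈ K', (msP kp mn i l' u + ∑ x ∈ ((range n).erase i).erase j, kp x u * be j x) := by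
    rw [hU2, hN2, mul_sum, ← nsmul_eq_mul, ← sum_const, ← sum_add_distrib, ← sum_sub_distrib]
    exact sum_congr rfl fun u _ => by ring
  have e3 : ∑ u ∈ K, ((l u : ℤ) + 1) = U1 + N1 := by
    rw [sum_add_distrib, ← hU1, hN1]
    simp
  have e4 : ∑ u ∈ K', ((l' u : ℤ) + 1) = U2 + N2 := by
    rw [sum_add_distrib, ← hU2, hN2]
    simp
  rw [e1, e2, e3, e4, ← hM] at h0
  unfold CpM
  rw [hA, hB]
  nlinarith [h0, hb, hw]

/-- **the cap without the PC pairs, any levels** -/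
theorem PConC.capLO (H : PConC R n t s mu U ho vl kp mn pc ar be kq NN sg nu) {i j : ℕ}
    (hi : i < n) (hj : j < n) (hij : i ≠ j) {K K' : Finset ι} (hK : K ⊆ U) (hK' : K' ⊆ U)
    (hKi : ∀ u ∈ K, ho u = i ∧ pc u = 0) (hKj : ∀ u ∈ K', ho u = j ∧ pc u = 0) {l l' : ι → ℕ}
    (hl : ∀ u ∈ K, 1 ≤ l u ∧ (l u : ℤ) ≤ kp j u) (hl' : ∀ u ∈ K', 1 ≤ l' u ∧ (l' u : ℤ) ≤ kp i u)
    {a k : ℕ} (ha : a ≤ (K.filter fun u => (l u : ℤ) = vl u).card)
    (hk : k ≤ (K'.filter fun u => (l' u : ℤ) = vl u).card) {A B p q N1 U1 N2 U2 b w : ℤ}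
    (hA : A = t i + 1) (hB : B = t j + 1) (hp : p = be i j) (hq : q = be j i)
    (hN1 : N1 = (K.card : ℤ)) (hU1 : U1 = ∑ u ∈ K, (l u : ℤ)) (hN2 : N2 = (K'.card : ℤ))
    (hU2 : U2 = ∑ u ∈ K', (l' u : ℤ))
    (hb : ∑ u ∈ K, (msP kp mn j l u + ∑ x ∈ ((range n).erase i).erase j, kp x u * be i x) ≤ b)
    (hw : ∑ u ∈ K', (msP kp mn i l' u + ∑ x ∈ ((range n).erase i).erase j, kp x u * be j x) ≤ w) :
    CpO R A B p q N1 U1 N2 U2 b w (2 * ((a : ℤ) * (a - 1)) + 2 * ((k : ℤ) * (k - 1))) := by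
  have h0 := H.capC i hi j hj hij K hK (fun u hu => (hKi u hu).1) K' hK'
    (fun u hu => (hKj u hu).1) l l' (fun u hu => (hl u hu).1)
    (fun u hu => (hl u hu).2) (fun u hu => (hl' u hu).1) (fun u hu => (hl' u hu).2) 0
    (Or.inl le_rfl) _
    (svc_lev (fun u hu => (hKi u hu).2) (fun u hu => (hKj u hu).2) ha hk)
  have har : ∀ u ∈ K, ar u ≤ be i j + ∑ x ∈ ((range n).erase i).erase j, kp x u * be i x := by
    intro u hu
    obtain ⟨h1, h2⟩ := hKi u hu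
    have h3 := H.ar_le (hK hu) h2
    rw [h1] at h3
    have h4 : ∑ x ∈ ((range n).erase i).filter (fun x => kp x u ≠ 0), be i x
        ≤ be i j + ∑ x ∈ ((range n).erase i).erase j, kp x u * be i x := by
      rw [sum_filter, ← add_sum_erase ((range n).erase i) _ (mem_erase.2 ⟨hij.symm, mem_range.2 hj⟩)]
      refine add_le_add ?_ (sum_le_sum fun x hx => ?_)
      · split_ifs
        · exact le_rfl
        · exact H.be0 i hi j hj
      · have hx' : x < n := mem_range.1 (mem_of_mem_erase (mem_of_mem_erase hx))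
        have h5 := H.k0 u (hK hu) x hx'
        have h6 := H.be0 i hi x hx'
        split_ifs with h7
        · have h8 : 1 ≤ kp x u := by omega
          nlinarith
        · exact mul_nonneg h5 h6
    linarith
  have har' : ∀ u ∈ K', ar u ≤ be j i + ∑ x ∈ ((range n).erase i).erase j, kp x u * be j x := by
    intro u hu
    obtain ⟨h1, h2⟩ := hKj u hu
    have h3 := H.ar_le (hK' hu) h2
    rw [h1] at h3
    have h4 : ∑ x ∈ ((range n).erase j).filter (fun x => kp x u ≠ 0), be j x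
        ≤ be j i + ∑ x ∈ ((range n).erase i).erase j, kp x u * be j x := by
      rw [sum_filter, ← add_sum_erase ((range n).erase j) _ (mem_erase.2 ⟨hij, mem_range.2 hi⟩),
        erase_right_comm]
      refine add_le_add ?_ (sum_le_sum fun x hx => ?_)
      · split_ifs
        · exact le_rfl
        · exact H.be0 j hj i hi
      · have hx' : x < n := mem_range.1 (mem_of_mem_erase (mem_of_mem_erase hx))
        have h5 := H.k0 u (hK' hu) x hx'
        have h6 := H.be0 j hj x hx'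
        split_ifs with h7
        · have h8 : 1 ≤ kp x u := by omega
          nlinarith
        · exact mul_nonneg h5 h6
    linarith
  have e1 : R * U1 + N1 * (t j - be i j)
        - ∑ u ∈ K, (msP kp mn j l u + ∑ x ∈ ((range n).erase i).erase j, kp x u * be i x)
      ≤ ∑ u ∈ K, (R * (l u : ℤ) + (1 - pc u) * t j - msP kp mn j l u - ar u) := by
    rw [hU1, hN1, mul_sum, ← nsmul_eq_mul, ← sum_const, ← sum_add_distrib, ← sum_sub_distrib]
    refine sum_le_sum fun u hu => ?_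
    have h1 := har u hu
    rw [(hKi u hu).2]
    linarith
  have e2 : R * U2 + N2 * (t i - be j i)
        - ∑ u ∈ K', (msP kp mn i l' u + ∑ x ∈ ((range n).erase i).erase j, kp x u * be j x)
      ≤ ∑ u ∈ K', (R * (l' u : ℤ) + (1 - pc u) * t i - msP kp mn i l' u - ar u) := by
    rw [hU2, hN2, mul_sum, ← nsmul_eq_mul, ← sum_const, ← sum_add_distrib, ← sum_sub_distrib]
    refine sum_le_sum fun u hu => ?_
    have h1 := har' u hu
    rw [(hKj u hu).2]
    linarith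
  have e3 : ∑ u ∈ K, ((l u : ℤ) + 1 - pc u) = U1 + N1 := by
    rw [sum_congr rfl fun u hu => by rw [(hKi u hu).2, sub_zero], sum_add_distrib, ← hU1, hN1]
    simp
  have e4 : ∑ u ∈ K', ((l' u : ℤ) + 1 - pc u) = U2 + N2 := by
    rw [sum_congr rfl fun u hu => by rw [(hKj u hu).2, sub_zero], sum_add_distrib, ← hU2, hN2]
    simp
  have e5 : ∑ u ∈ K, pc u = 0 := sum_eq_zero fun u hu => (hKi u hu).2
  rw [e3, e4, e5] at h0
  unfold CpO
  rw [hA, hB, hp, hq]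
  nlinarith [h0, hb, hw, e1, e2]

end CapLS

/-- **the caps of one row with the clique units** -/
structure RowU (R : ℕ) (P : Finset ℕ) (A : ℕ)
    (B p x q mf mh mhb mha mc mcb mcn mcr kf kh khb kha kc kca kcb kcw bt : ℕ → ℕ) : Prop where
  cap1 : ∀ y ∈ P, ∀ a1 a2 k1 k2 i j : ℕ, a1 ≤ mf y → a2 ≤ mh y → k1 ≤ kf y → k2 ≤ kh y →
    i ≤ mcn y → j ≤ kca y → ∃ b' w' c' e' : ℤ,
      0 ≤ b' ∧ b' ≤ (mhb y : ℤ) + mha y ∧ (mh y : ℤ) * b' ≤ a2 * ((mhb y : ℤ) + mha y) ∧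
      0 ≤ w' ∧ w' ≤ (khb y : ℤ) + kha y ∧ (kh y : ℤ) * w' ≤ k2 * ((khb y : ℤ) + kha y) ∧
      0 ≤ c' ∧ c' ≤ (mcb y : ℤ) + mcr y ∧ (mcn y : ℤ) * c' ≤ i * ((mcb y : ℤ) + mcr y) ∧
      0 ≤ e' ∧ e' ≤ (kcb y : ℤ) + kcw y ∧ (kca y : ℤ) * e' ≤ j * ((kcb y : ℤ) + kcw y) ∧
      CpM R A (B y) ((p y : ℤ) + x y + q y) ((a1 : ℤ) + a2 + i) ((a1 : ℤ) + a2 + i)
        ((k1 : ℤ) + k2 + j) ((k1 : ℤ) + k2 + j) (b' + c') (w' + e')
        (2 * (((a1 : ℤ) + a2) * (a1 + a2 - 1)) + 2 * (((k1 : ℤ) + k2) * (k1 + k2 - 1))) ∧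
      CpO R A (B y) ((p y : ℤ) + x y) (q y) ((a1 : ℤ) + a2 + i) ((a1 : ℤ) + a2 + i)
        ((k1 : ℤ) + k2 + j) ((k1 : ℤ) + k2 + j) (b' + c') (w' + e')
        (2 * (((a1 : ℤ) + a2) * (a1 + a2 - 1)) + 2 * (((k1 : ℤ) + k2) * (k1 + k2 - 1)))
  capc : ∀ y ∈ P, ∀ a1 a2 k1 k2 c1 c2 : ℕ, a1 ≤ mf y → a2 ≤ mh y → k1 ≤ kf y → k2 ≤ kh y →
    c1 ≤ 1 → c2 ≤ 1 → ∃ b' w' : ℤ,
      0 ≤ b' ∧ b' ≤ (mhb y : ℤ) + mha y ∧ (mh y : ℤ) * b' ≤ a2 * ((mhb y : ℤ) + mha y) ∧
      0 ≤ w' ∧ w' ≤ (khb y : ℤ) + kha y ∧ (kh y : ℤ) * w' ≤ k2 * ((khb y : ℤ) + kha y) ∧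
      CpM R A (B y) ((p y : ℤ) + x y + q y) ((a1 : ℤ) + a2 + c1 * mcn y)
        ((a1 : ℤ) + a2 + c1 * mc y) ((k1 : ℤ) + k2 + c2 * kca y) ((k1 : ℤ) + k2 + c2 * kc y)
        (b' + c1 * ((mcb y : ℤ) + mcr y)) (w' + c2 * ((kcb y : ℤ) + kcw y))
        (2 * (((a1 : ℤ) + a2) * (a1 + a2 - 1)) + 2 * (((k1 : ℤ) + k2) * (k1 + k2 - 1))) ∧
      CpO R A (B y) ((p y : ℤ) + x y) (q y) ((a1 : ℤ) + a2 + c1 * mcn y)
        ((a1 : ℤ) + a2 + c1 * mc y) ((k1 : ℤ) + k2 + c2 * kca y) ((k1 : ℤ) + k2 + c2 * kc y)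
        (b' + c1 * ((mcb y : ℤ) + mcr y)) (w' + c2 * ((kcb y : ℤ) + kcw y))
        (2 * (((a1 : ℤ) + a2) * (a1 + a2 - 1)) + 2 * (((k1 : ℤ) + k2) * (k1 + k2 - 1)))
  mcrT : ∀ y ∈ P, ∀ N : ℕ, (∀ l ∈ P, l ≠ y → p l + x l ≤ N) →
    mcr y ≤ mcn y * (∑ l ∈ P.erase y, (p l + x l) + N)
  kcwT : ∀ y ∈ P, ∀ N : ℕ, (∀ w ∈ P, w ≠ y → ∀ m : ℕ, JOk R (B y) (B w) m → m ≤ N) →
    kcw y ≤ kca y * (bt y + N)
  btT : ∀ y ∈ P, 2 * (bt y + q y) ≤ R →
    ((R : ℤ) - 2 * (bt y + q y)) * ((bt y : ℤ) + q y - B y) ≤ B y * ((bt y : ℤ) + q y)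
  btM : ∀ y ∈ P, ∃ m : ℕ → ℕ, bt y = ∑ w ∈ P.erase y, m w ∧
    ∀ w ∈ P, w ≠ y → JOk R (B y) (B w) (m w)

section CapUS

variable {ι : Type*} {R : ℕ} {n : ℕ} {t s mu : ℕ → ℤ} {U : Finset ι} {ho : ι → ℕ} {vl : ι → ℤ}
  {kp mn : ℕ → ι → ℤ} {pc ar : ι → ℤ} {be kq NN sg : ℕ → ℕ → ℤ} {nu : ℕ → ι → ℤ} {z : ℕ}
  {g : ℕ → ι → ℕ} {f : ι → ℕ}

/-- arcs of a hosted item at the other rows -/
noncomputable def arZ (n : ℕ) (kp : ℕ → ι → ℤ) (be : ℕ → ℕ → ℤ) (z y : ℕ) (u : ι) : ℤ :=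
  ∑ l ∈ ((range n).erase z).erase y, kp l u * be z l

/-- arcs of the hosted cliques at the other rows -/
noncomputable def nMcr (n : ℕ) (U : Finset ι) (ho : ι → ℕ) (vl : ι → ℤ) (kp : ℕ → ι → ℤ)
    (pc : ι → ℤ) (be : ℕ → ℕ → ℤ) (g : ℕ → ι → ℕ) (z y : ℕ) : ℕ :=
  (∑ u ∈ vHC U ho vl pc g z y, arZ n kp be z y u).toNat

/-- arcs of the served cliques at the other rows -/
noncomputable def nKcw (n : ℕ) (U : Finset ι) (ho : ι → ℕ) (vl : ι → ℤ) (kp : ℕ → ι → ℤ)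
    (pc : ι → ℤ) (be : ℕ → ℕ → ℤ) (g : ℕ → ι → ℕ) (z y : ℕ) : ℕ :=
  (∑ u ∈ vSC U ho vl pc g z y, arW n kp be z y u).toNat

/-- PC pairs of the host `y` with rows different from `z` -/
noncomputable def nBt (n : ℕ) (be : ℕ → ℕ → ℤ) (z y : ℕ) : ℕ :=
  (∑ l ∈ ((range n).erase z).erase y, be y l).toNat

lemma PConC.arZ0 (H : PConC (R : ℤ) n t s mu U ho vl kp mn pc ar be kq NN sg nu) (hz : z < n)
    {y : ℕ} {u : ι} (hu : u ∈ U) : 0 ≤ arZ n kp be z y u := by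
  unfold arZ
  exact sum_nonneg fun l hl => by
    have hl' : l < n := mem_range.1 (mem_of_mem_erase (mem_of_mem_erase hl))
    exact mul_nonneg (H.k0 u hu l hl') (H.be0 z hz l hl')

/-- the misses at a lower level -/
lemma msP_mono (H : PConC (R : ℤ) n t s mu U ho vl kp mn pc ar be kq NN sg nu) {i : ℕ} (hi : i < n)
    {l l' : ι → ℕ} {u : ι} (hu : u ∈ U) (h : l u ≤ l' u) : msP kp mn i l u ≤ msP kp mn i l' u := by
  have h0 := H.m0 u hu i hi
  have h1 : (l u : ℤ) ≤ l' u := by exact_mod_cast h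
  unfold msP
  split_ifs with h2 h3
  · exact le_rfl
  · exact absurd (h2.trans h1) h3
  · exact h0
  · exact le_rfl

/-- weighted arcs: at most one end counts twice -/
lemma PConC.arc_sum (H : PConC (R : ℤ) n t s mu U ho vl kp mn pc ar be kq NN sg nu) {u : ι}
    (hu : u ∈ U) {L : Finset ℕ} (hL : L ⊆ range n) {a : ℕ → ℤ} {N : ℤ} (hN0 : 0 ≤ N)
    (ha : ∀ l ∈ L, 0 ≤ a l ∧ a l ≤ N) : ∑ l ∈ L, kp l u * a l ≤ ∑ l ∈ L, a l + N := by
  by_cases h1 : ∃ l ∈ L, kp l u = 2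
  · obtain ⟨l0, h2, h3⟩ := h1
    rw [← add_sum_erase L _ h2, ← add_sum_erase L a h2]
    have h4 : ∑ l ∈ L.erase l0, kp l u * a l ≤ ∑ l ∈ L.erase l0, a l := by
      refine sum_le_sum fun l hl => ?_
      obtain ⟨h5, h6⟩ := mem_erase.1 hl
      have h7 := H.k21 u hu l0 (mem_range.1 (hL h2)) l (mem_range.1 (hL h6)) (Ne.symm h5) h3
      have h8 := (ha l h6).1
      nlinarith
    have h5 := (ha l0 h2).2
    rw [h3]
    linarith
  · push Not at h1
    have h4 : ∑ l ∈ L, kp l u * a l ≤ ∑ l ∈ L, a l := by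
      refine sum_le_sum fun l hl => ?_
      have h7 := H.k2 u hu l (mem_range.1 (hL hl))
      have h9 := h1 l hl
      have h10 : kp l u ≤ 1 := by omega
      have h8 := (ha l hl).1
      nlinarith
    linarith

/-- **the caps of the cell, any sets of clique items at any levels** -/
lemma LevC.capG (Lv : LevC n U ho vl kp mn pc (fun u i => mn i u) g f)
    (H : PConC (R : ℤ) n t s mu U ho vl kp mn pc ar be kq NN sg nu) (hz : z < n) {y : ℕ}
    (hy : y ∈ (range n).erase z) {S : Finset ι}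
    (hS : S ⊆ vSH U ho vl kp pc g f z y) {m1 m2 k1 k2 : ℕ}
    (g1 : m1 ≤ (vHF U ho vl kp pc g f z y).card) (g2 : m2 ≤ (vHH U ho vl kp pc g f z y).card)
    (g3 : k1 ≤ (vSF U ho vl kp pc g f z y).card) (g4 : k2 ≤ S.card)
    {C E : Finset ι} (hC : C ⊆ vHC U ho vl pc g z y) (hE : E ⊆ vSC U ho vl pc g z y)
    {l l' : ι → ℕ} (hl : ∀ u ∈ C, 1 ≤ l u ∧ l u ≤ g y u) (hl' : ∀ u ∈ E, 1 ≤ l' u ∧ l' u ≤ g z u) :
    ∃ b' w' : ℤ, 0 ≤ b' ∧
      b' ≤ ∑ u ∈ vHH U ho vl kp pc g f z y, mn y u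
        + ∑ u ∈ vHH U ho vl kp pc g f z y, arZ n kp be z y u ∧
      ((vHH U ho vl kp pc g f z y).card : ℤ) * b' ≤ m2 * (∑ u ∈ vHH U ho vl kp pc g f z y, mn y u
        + ∑ u ∈ vHH U ho vl kp pc g f z y, arZ n kp be z y u) ∧
      0 ≤ w' ∧ w' ≤ ∑ u ∈ S, mn z u + ∑ u ∈ S, arW n kp be z y u ∧
      (S.card : ℤ) * w' ≤ k2 * (∑ u ∈ S, mn z u + ∑ u ∈ S, arW n kp be z y u) ∧
      ∀ N1 U1 N2 U2 c' e' : ℤ, N1 = (m1 : ℤ) + m2 + C.card → U1 = (m1 : ℤ) + m2 + ∑ u ∈ C, (l u : ℤ) →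
        N2 = (k1 : ℤ) + k2 + E.card → U2 = (k1 : ℤ) + k2 + ∑ u ∈ E, (l' u : ℤ) →
        ∑ u ∈ C, (msP kp mn y (g y) u + arZ n kp be z y u) ≤ c' →
        ∑ u ∈ E, (msP kp mn z (g z) u + arW n kp be z y u) ≤ e' →
        CpM R (t z + 1) (t y + 1) (be z y + be y z) N1 U1 N2 U2 (b' + c') (w' + e')
          (2 * (((m1 : ℤ) + m2) * (m1 + m2 - 1)) + 2 * (((k1 : ℤ) + k2) * (k1 + k2 - 1))) ∧
        CpO R (t z + 1) (t y + 1) (be z y) (be y z) N1 U1 N2 U2 (b' + c') (w' + e')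
          (2 * (((m1 : ℤ) + m2) * (m1 + m2 - 1)) + 2 * (((k1 : ℤ) + k2) * (k1 + k2 - 1))) := by
  have hyn : y < n := mem_range.1 (mem_of_mem_erase hy)
  have hyz : y ≠ z := ne_of_mem_erase hy
  obtain ⟨F, hF, hFc⟩ := exists_subset_card_eq g1
  obtain ⟨G, hG, hGc⟩ := exists_subset_card_eq g3
  obtain ⟨K, hK, hKc, hKs⟩ := exists_lowN (fun u => mn y u + arZ n kp be z y u) m2 _
    (vHH U ho vl kp pc g f z y) rfl g2
  obtain ⟨L, hL, hLc, hLs⟩ := exists_lowN (fun u => mn z u + arW n kp be z y u) k2 _ S rfl g4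
  have n1 : ∀ u ∈ vHH U ho vl kp pc g f z y, 0 ≤ mn y u + arZ n kp be z y u := fun u hu =>
    add_nonneg (H.m0 u (mem_filter.1 hu).1 y hyn) (H.arZ0 hz (mem_filter.1 hu).1)
  have n2 : ∀ u ∈ S, 0 ≤ mn z u + arW n kp be z y u := fun u hu =>
    add_nonneg (H.m0 u (mem_filter.1 (hS hu)).1 z hz) (H.arW0 hyn (mem_filter.1 (hS hu)).1)
  have dFK : Disjoint F K :=
    disjoint_of_subset_left hF (disjoint_of_subset_right hK (vH_disj U ho vl kp pc g f z y).1)
  have dGL : Disjoint G L := disjoint_of_subset_left hG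
    (disjoint_of_subset_right (hL.trans hS) (vS_disj U ho vl kp pc g f z y).1)
  have dFC : Disjoint (F ∪ K) C := disjoint_of_subset_left (union_subset_union hF hK)
    (disjoint_of_subset_right hC (vH_disj U ho vl kp pc g f z y).2)
  have dGE : Disjoint (G ∪ L) E := disjoint_of_subset_left (union_subset_union hG (hL.trans hS))
    (disjoint_of_subset_right hE (vS_disj U ho vl kp pc g f z y).2)
  have hFK : ∀ u ∈ F ∪ K, u ∈ U ∧ ho u = z ∧ pc u = 0 ∧ vl u = 1 ∧ kp y u = 1 := by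
    intro u hu
    rcases mem_union.1 hu with h1 | h1
    · obtain ⟨h3, h4, -⟩ := Lv.hf_fact hyn (hF h1)
      obtain ⟨-, h6, h7, h8, -⟩ := mem_filter.1 (hF h1)
      exact ⟨h3, h6, h7, h8, h4⟩
    · obtain ⟨h3, h4, -⟩ := Lv.hh_fact H.toPCon hyn (hK h1)
      obtain ⟨-, h6, h7, h8, -⟩ := mem_filter.1 (hK h1)
      exact ⟨h3, h6, h7, h8, h4⟩
  have hGL : ∀ u ∈ G ∪ L, u ∈ U ∧ ho u = y ∧ pc u = 0 ∧ vl u = 1 ∧ kp z u = 1 := by
    intro u hu
    rcases mem_union.1 hu with h1 | h1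
    · obtain ⟨h3, h6, h7, h8, h9, -⟩ := mem_filter.1 (hG h1)
      exact ⟨h3, h6, h7, h8, H.kp_one h3 h8 hz h9⟩
    · obtain ⟨h3, h6, h7, h8, h9, -⟩ := mem_filter.1 (hS (hL h1))
      exact ⟨h3, h6, h7, h8, H.kp_one h3 h8 hz h9⟩
  have hCf : ∀ u ∈ C, u ∈ U ∧ ho u = z ∧ pc u = 0 ∧ vl u ≠ 1 ∧ g y u ≠ 0 := fun u hu =>
    mem_filter.1 (hC hu)
  have hEf : ∀ u ∈ E, u ∈ U ∧ ho u = y ∧ pc u = 0 ∧ vl u ≠ 1 ∧ g z u ≠ 0 := fun u hu =>
    mem_filter.1 (hE hu)
  -- the level functions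
  obtain ⟨l1, hl1⟩ : ∃ l1 : ι → ℕ, ∀ u, l1 u = if vl u = 1 then 1 else l u := ⟨_, fun _ => rfl⟩
  obtain ⟨l2, hl2⟩ : ∃ l2 : ι → ℕ, ∀ u, l2 u = if vl u = 1 then 1 else l' u := ⟨_, fun _ => rfl⟩
  have e1 : ∀ u ∈ F ∪ K, l1 u = 1 := fun u hu => by
    rw [hl1, if_pos (hFK u hu).2.2.2.1]
  have e2 : ∀ u ∈ C, l1 u = l u := fun u hu => by
    rw [hl1, if_neg (hCf u hu).2.2.2.1]
  have e3 : ∀ u ∈ G ∪ L, l2 u = 1 := fun u hu => by
    rw [hl2, if_pos (hGL u hu).2.2.2.1]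
  have e4 : ∀ u ∈ E, l2 u = l' u := fun u hu => by
    rw [hl2, if_neg (hEf u hu).2.2.2.1]
  have cFK : ((F ∪ K).card : ℕ) = m1 + m2 := by
    rw [card_union_of_disjoint dFK, hFc, hKc]
  have cGL : ((G ∪ L).card : ℕ) = k1 + k2 := by
    rw [card_union_of_disjoint dGL, hGc, hLc]
  have fF : ∀ u ∈ F, mn y u + arZ n kp be z y u = 0 := by
    intro u hu
    obtain ⟨h1, h2, h3, h4, h5, h6⟩ := Lv.hf_fact hyn (hF hu)
    unfold arZ
    rw [h3, zero_add]
    refine sum_eq_zero fun l hl => ?_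
    obtain ⟨h9, h10⟩ := mem_erase.1 hl
    rw [h6 l (mem_range.1 (mem_of_mem_erase h10)) h9, zero_mul]
  have fG : ∀ u ∈ G, mn z u + arW n kp be z y u = 0 := by
    intro u hu
    obtain ⟨h4, h5, h6, h7, h8, h9⟩ := mem_filter.1 (hG hu)
    obtain ⟨h10, h11, -⟩ := Lv.full_at h4 h7 h9 hz h8
    have h12 := (Lv.full_fact h4 h7 h9).2.2.2
    rw [← h10] at h12
    unfold arW
    rw [h11, zero_add]
    refine sum_eq_zero fun l hl => ?_
    obtain ⟨h13, h14⟩ := mem_erase.1 (mem_of_mem_erase hl)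
    rw [h12 l (mem_range.1 h14) h13, zero_mul]
  refine ⟨∑ u ∈ K, (mn y u + arZ n kp be z y u), ∑ u ∈ L, (mn z u + arW n kp be z y u),
    sum_nonneg fun u hu => n1 u (hK hu), ?_, ?_, sum_nonneg fun u hu => n2 u (hL hu), ?_, ?_,
    fun N1 U1 N2 U2 c' e' q1 q2 q3 q4 q5 q6 => ?_⟩
  · rw [← sum_add_distrib (s := vHH U ho vl kp pc g f z y)]
    exact sum_le_sum_of_subset_of_nonneg hK fun u hu _ => n1 u hu
  · rw [← sum_add_distrib (s := vHH U ho vl kp pc g f z y)]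
    exact hKs
  · rw [← sum_add_distrib (s := S)]
    exact sum_le_sum_of_subset_of_nonneg hL fun u hu _ => n2 u hu
  · rw [← sum_add_distrib (s := S)]
    exact hLs
  · have hKU : (F ∪ K) ∪ C ⊆ U := fun u hu => by
      rcases mem_union.1 hu with h | h
      · exact (hFK u h).1
      · exact (hCf u h).1
    have hKU' : (G ∪ L) ∪ E ⊆ U := fun u hu => by
      rcases mem_union.1 hu with h | h
      · exact (hGL u h).1
      · exact (hEf u h).1
    have hKi : ∀ u ∈ (F ∪ K) ∪ C, ho u = z ∧ pc u = 0 := fun u hu => by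
      rcases mem_union.1 hu with h | h
      · exact ⟨(hFK u h).2.1, (hFK u h).2.2.1⟩
      · exact ⟨(hCf u h).2.1, (hCf u h).2.2.1⟩
    have hKj : ∀ u ∈ (G ∪ L) ∪ E, ho u = y ∧ pc u = 0 := fun u hu => by
      rcases mem_union.1 hu with h | h
      · exact ⟨(hGL u h).2.1, (hGL u h).2.2.1⟩
      · exact ⟨(hEf u h).2.1, (hEf u h).2.2.1⟩
    have hlv : ∀ u ∈ (F ∪ K) ∪ C, 1 ≤ l1 u ∧ (l1 u : ℤ) ≤ kp y u := fun u hu => by
      rcases mem_union.1 hu with h | h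
      · rw [e1 u h, (hFK u h).2.2.2.2]
        exact ⟨le_rfl, by norm_num⟩
      · rw [e2 u h]
        have h1 := Lv.le u (hCf u h).1 y hyn
        have h2 : (l u : ℤ) ≤ g y u := by exact_mod_cast (hl u h).2
        exact ⟨(hl u h).1, h2.trans h1⟩
    have hlv' : ∀ u ∈ (G ∪ L) ∪ E, 1 ≤ l2 u ∧ (l2 u : ℤ) ≤ kp z u := fun u hu => by
      rcases mem_union.1 hu with h | h
      · rw [e3 u h, (hGL u h).2.2.2.2]
        exact ⟨le_rfl, by norm_num⟩
      · rw [e4 u h]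
        have h1 := Lv.le u (hEf u h).1 z hz
        have h2 : (l' u : ℤ) ≤ g z u := by exact_mod_cast (hl' u h).2
        exact ⟨(hl' u h).1, h2.trans h1⟩
    have ha : m1 + m2 ≤ (((F ∪ K) ∪ C).filter fun u => (l1 u : ℤ) = vl u).card := by
      rw [← cFK]
      refine card_le_card fun u hu => mem_filter.2 ⟨mem_union_left _ hu, ?_⟩
      rw [e1 u hu, (hFK u hu).2.2.2.1]
      rfl
    have hk : k1 + k2 ≤ (((G ∪ L) ∪ E).filter fun u => (l2 u : ℤ) = vl u).card := by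
      rw [← cGL]
      refine card_le_card fun u hu => mem_filter.2 ⟨mem_union_left _ hu, ?_⟩
      rw [e3 u hu, (hGL u hu).2.2.2.1]
      rfl
    have r1 : N1 = (((F ∪ K) ∪ C).card : ℤ) := by
      rw [card_union_of_disjoint dFC, cFK, q1]
      push_cast
      ring
    have r2 : U1 = ∑ u ∈ (F ∪ K) ∪ C, (l1 u : ℤ) := by
      rw [sum_union dFC, sum_congr rfl fun u hu => by rw [e1 u hu],
        sum_congr (s₁ := C) rfl fun u hu => by rw [e2 u hu], q2]
      simp only [sum_const, nsmul_eq_mul, cFK]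
      push_cast
      ring
    have r3 : N2 = (((G ∪ L) ∪ E).card : ℤ) := by
      rw [card_union_of_disjoint dGE, cGL, q3]
      push_cast
      ring
    have r4 : U2 = ∑ u ∈ (G ∪ L) ∪ E, (l2 u : ℤ) := by
      rw [sum_union dGE, sum_congr rfl fun u hu => by rw [e3 u hu],
        sum_congr (s₁ := E) rfl fun u hu => by rw [e4 u hu], q4]
      simp only [sum_const, nsmul_eq_mul, cGL]
      push_cast
      ring
    have hmle : ∀ (i : ℕ) (l0 : ι → ℕ) (u : ι), i < n → u ∈ U → msP kp mn i l0 u ≤ mn i u := by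
      intro i l0 u hi hu
      unfold msP
      split_ifs
      · exact le_rfl
      · exact H.m0 u hu i hi
    have r5 : ∑ u ∈ (F ∪ K) ∪ C, (msP kp mn y l1 u
        + ∑ x ∈ ((range n).erase z).erase y, kp x u * be z x)
        ≤ ∑ u ∈ K, (mn y u + arZ n kp be z y u) + c' := by
      rw [sum_union dFC, sum_union dFK]
      have s1 : ∑ u ∈ F, (msP kp mn y l1 u + ∑ x ∈ ((range n).erase z).erase y, kp x u * be z x)
          ≤ 0 := sum_nonpos fun u hu => by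
        have h1 := fF u hu
        have h2 := hmle y l1 u hyn (hFK u (mem_union_left _ hu)).1
        unfold arZ at h1
        linarith
      have s2 : ∑ u ∈ K, (msP kp mn y l1 u + ∑ x ∈ ((range n).erase z).erase y, kp x u * be z x)
          ≤ ∑ u ∈ K, (mn y u + arZ n kp be z y u) := sum_le_sum fun u hu => by
        have h2 := hmle y l1 u hyn (hFK u (mem_union_right _ hu)).1
        unfold arZ
        linarith
      have s3 : ∑ u ∈ C, (msP kp mn y l1 u + ∑ x ∈ ((range n).erase z).erase y, kp x u * be z x)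
          ≤ ∑ u ∈ C, (msP kp mn y (g y) u + arZ n kp be z y u) := sum_le_sum fun u hu => by
        have h2 := msP_mono H hyn (l := l1) (l' := g y) (hCf u hu).1 (by
          rw [e2 u hu]
          exact (hl u hu).2)
        unfold arZ
        linarith
      linarith
    have r6 : ∑ u ∈ (G ∪ L) ∪ E, (msP kp mn z l2 u
        + ∑ x ∈ ((range n).erase z).erase y, kp x u * be y x)
        ≤ ∑ u ∈ L, (mn z u + arW n kp be z y u) + e' := by
      rw [sum_union dGE, sum_union dGL]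
      have s1 : ∑ u ∈ G, (msP kp mn z l2 u + ∑ x ∈ ((range n).erase z).erase y, kp x u * be y x)
          ≤ 0 := sum_nonpos fun u hu => by
        have h1 := fG u hu
        have h2 := hmle z l2 u hz (hGL u (mem_union_left _ hu)).1
        unfold arW at h1
        linarith
      have s2 : ∑ u ∈ L, (msP kp mn z l2 u + ∑ x ∈ ((range n).erase z).erase y, kp x u * be y x)
          ≤ ∑ u ∈ L, (mn z u + arW n kp be z y u) := sum_le_sum fun u hu => by
        have h2 := hmle z l2 u hz (hGL u (mem_union_right _ hu)).1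
        unfold arW
        linarith
      have s3 : ∑ u ∈ E, (msP kp mn z l2 u + ∑ x ∈ ((range n).erase z).erase y, kp x u * be y x)
          ≤ ∑ u ∈ E, (msP kp mn z (g z) u + arW n kp be z y u) := sum_le_sum fun u hu => by
        have h2 := msP_mono H hz (l := l2) (l' := g z) (hEf u hu).1 (by
          rw [e4 u hu]
          exact (hl' u hu).2)
        unfold arW
        linarith
      linarith
    have hM := H.capLM hz hyn hyz.symm hKU hKU' hKi hKj hlv hlv' ha hk rfl rfl rfl r1 r2 r3 r4 r5 r6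
    have hO := H.capLO hz hyn hyz.symm hKU hKU' hKi hKj hlv hlv' ha hk rfl rfl rfl rfl r1 r2 r3 r4
      r5 r6
    push_cast at hM hO
    exact ⟨hM, hO⟩

/-- the natural part of a sum of nonnegative numbers, cast back -/
lemma toNat_cast {S : Finset ι} {a : ι → ℤ} (h : ∀ u ∈ S, 0 ≤ a u) :
    (((∑ u ∈ S, a u).toNat : ℕ) : ℤ) = ∑ u ∈ S, a u := Int.toNat_of_nonneg (sum_nonneg h)

/-- **THE CAPS OF THE ROW WITH THE CLIQUE UNITS** -/
theorem LevC.rowU (Lv : LevC n U ho vl kp mn pc (fun u i => mn i u) g f)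
    (H : PConC (R : ℤ) n t s mu U ho vl kp mn pc ar be kq NN sg nu) (hz : z < n)
    {S : ℕ → Finset ι} (hS : ∀ y, S y ⊆ vSH U ho vl kp pc g f z y) :
    RowU R ((range n).erase z) (rA t z) (rA t) (nP be kq z) (nX kq z) (nQ be z)
      (fun y => (vHF U ho vl kp pc g f z y).card) (fun y => (vHH U ho vl kp pc g f z y).card)
      (nMhb U ho vl kp mn pc g f z) (nMha n U ho vl kp pc be g f z) (nMc U ho vl pc g z)
      (nMcb U ho vl kp mn pc g z) (fun y => (vHC U ho vl pc g z y).card)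
      (nMcr n U ho vl kp pc be g z)
      (fun y => (vSF U ho vl kp pc g f z y).card) (fun y => (S y).card)
      (nKhb mn S z) (nKha n kp be S z) (nKc U ho vl pc g z)
      (fun y => (vSC U ho vl pc g z y).card) (nKcb U ho vl kp mn pc g z)
      (nKcw n U ho vl kp pc be g z) (nBt n be z) := by
  have hP : ∀ y ∈ (range n).erase z, y < n ∧ y ≠ z := fun y hy =>
    ⟨mem_range.1 (mem_of_mem_erase hy), ne_of_mem_erase hy⟩
  have hSU : ∀ y, S y ⊆ U := fun y => (hS y).trans (filter_subset _ _)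
  obtain ⟨a1, a2, a3, a4, a5⟩ := H.nums hz
  obtain ⟨eA, gA⟩ := H.rA_eq hz
  have eB : ∀ y ∈ (range n).erase z, ((rA t y : ℕ) : ℤ) = t y + 1 := fun y hy =>
    (H.rA_eq (hP y hy).1).1
  have eM : ∀ y ∈ (range n).erase z,
      ((nP be kq z y : ℕ) : ℤ) + (nX kq z y : ℕ) = be z y := fun y hy => by
    rw [a2 y (hP y hy).1, a3 y (hP y hy).1]
    ring
  have eMc : ∀ y ∈ (range n).erase z, ((nMcr n U ho vl kp pc be g z y : ℕ) : ℤ)
      = ∑ u ∈ vHC U ho vl pc g z y, arZ n kp be z y u := fun y hy =>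
    toNat_cast fun u hu => H.arZ0 hz (mem_filter.1 hu).1
  have eKc : ∀ y ∈ (range n).erase z, ((nKcw n U ho vl kp pc be g z y : ℕ) : ℤ)
      = ∑ u ∈ vSC U ho vl pc g z y, arW n kp be z y u := fun y hy =>
    toNat_cast fun u hu => H.arW0 (hP y hy).1 (mem_filter.1 hu).1
  have eBt : ∀ y ∈ (range n).erase z, ((nBt n be z y : ℕ) : ℤ)
      = ∑ l ∈ ((range n).erase z).erase y, be y l := fun y hy =>
    Int.toNat_of_nonneg (sum_nonneg fun l hl =>
      H.be0 y (hP y hy).1 l (mem_range.1 (mem_of_mem_erase (mem_of_mem_erase hl))))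
  have eHa : ∀ y ∈ (range n).erase z, ((nMha n U ho vl kp pc be g f z y : ℕ) : ℤ)
      = ∑ u ∈ vHH U ho vl kp pc g f z y, arZ n kp be z y u := fun y hy => H.nMha_eq hz
  refine ⟨?_, ?_, ?_, ?_, ?_, ?_⟩
  · -- cap1
    intro y hy m1 m2 k1 k2 i j g1 g2 g3 g4 g5 g6
    obtain ⟨hyn, hyz⟩ := hP y hy
    obtain ⟨e1, e2, e3, e4, e5, e6, e7, e8, e9⟩ := H.nums2 (g := g) (f := f) hz hyn hSU
    obtain ⟨C, hC, hCc, hCs⟩ := exists_lowN
      (fun u => msP kp mn y (g y) u + arZ n kp be z y u) i _ (vHC U ho vl pc g z y) rfl g5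
    obtain ⟨E, hE, hEc, hEs⟩ := exists_lowN
      (fun u => msP kp mn z (g z) u + arW n kp be z y u) j _ (vSC U ho vl pc g z y) rfl g6
    have n1 : ∀ u ∈ vHC U ho vl pc g z y, 0 ≤ msP kp mn y (g y) u + arZ n kp be z y u :=
      fun u hu => add_nonneg (H.msP0 hyn _ (mem_filter.1 hu).1) (H.arZ0 hz (mem_filter.1 hu).1)
    have n2 : ∀ u ∈ vSC U ho vl pc g z y, 0 ≤ msP kp mn z (g z) u + arW n kp be z y u :=
      fun u hu => add_nonneg (H.msP0 hz _ (mem_filter.1 hu).1) (H.arW0 hyn (mem_filter.1 hu).1)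
    obtain ⟨b', w', c1, c2, c3, c4, c5, c6, c7⟩ := Lv.capG H hz hy (hS y) g1 g2 g3 g4 hC hE
      (l := fun _ => 1) (l' := fun _ => 1)
      (fun u hu => ⟨le_rfl, Nat.one_le_iff_ne_zero.2 (mem_filter.1 (hC hu)).2.2.2.2⟩)
      (fun u hu => ⟨le_rfl, Nat.one_le_iff_ne_zero.2 (mem_filter.1 (hE hu)).2.2.2.2⟩)
    have t1 : ∑ u ∈ vHC U ho vl pc g z y, (msP kp mn y (g y) u + arZ n kp be z y u)
        = (nMcb U ho vl kp mn pc g z y : ℤ) + nMcr n U ho vl kp pc be g z y := by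
      rw [sum_add_distrib, e3, eMc y hy]
    have t2 : ∑ u ∈ vSC U ho vl pc g z y, (msP kp mn z (g z) u + arW n kp be z y u)
        = (nKcb U ho vl kp mn pc g z y : ℤ) + nKcw n U ho vl kp pc be g z y := by
      rw [sum_add_distrib, e8, eKc y hy]
    rw [← eHa y hy, ← e1] at c2 c3
    rw [← e5, ← e6] at c5 c6
    have c8 := c7 ((m1 : ℤ) + m2 + i) ((m1 : ℤ) + m2 + i) ((k1 : ℤ) + k2 + j)
      ((k1 : ℤ) + k2 + j) _ _ (by rw [hCc])
      (by simp [hCc]) (by rw [hEc]) (by simp [hEc]) le_rfl le_rfl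
    refine ⟨b', w', ∑ u ∈ C, (msP kp mn y (g y) u + arZ n kp be z y u),
      ∑ u ∈ E, (msP kp mn z (g z) u + arW n kp be z y u), c1, c2, c3, c4, c5, c6,
      sum_nonneg fun u hu => n1 u (hC hu), ?_, ?_, sum_nonneg fun u hu => n2 u (hE hu), ?_, ?_, ?_⟩
    · rw [← t1]
      exact sum_le_sum_of_subset_of_nonneg hC fun u hu _ => n1 u hu
    · rw [← t1]
      exact hCs
    · rw [← t2]
      exact sum_le_sum_of_subset_of_nonneg hE fun u hu _ => n2 u hu
    · rw [← t2]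
      exact hEs
    · rw [← eM y hy, ← a4 y hyn, ← eA, ← eB y hy] at c8
      exact c8
  · -- capc
    intro y hy m1 m2 k1 k2 c1 c2 g1 g2 g3 g4 g5 g6
    obtain ⟨hyn, hyz⟩ := hP y hy
    obtain ⟨e1, e2, e3, e4, e5, e6, e7, e8, e9⟩ := H.nums2 (g := g) (f := f) hz hyn hSU
    obtain ⟨C, hCd⟩ : ∃ C : Finset ι, C = if c1 = 0 then ∅ else vHC U ho vl pc g z y := ⟨_, rfl⟩
    obtain ⟨E, hEd⟩ : ∃ E : Finset ι, E = if c2 = 0 then ∅ else vSC U ho vl pc g z y := ⟨_, rfl⟩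
    have hC : C ⊆ vHC U ho vl pc g z y := by
      rw [hCd]
      split_ifs
      · exact empty_subset _
      · exact Subset.refl _
    have hE : E ⊆ vSC U ho vl pc g z y := by
      rw [hEd]
      split_ifs
      · exact empty_subset _
      · exact Subset.refl _
    have hCs : ∀ F : ι → ℤ, ∑ u ∈ C, F u = c1 * ∑ u ∈ vHC U ho vl pc g z y, F u := by
      intro F
      rw [hCd]
      rcases Nat.le_one_iff_eq_zero_or_eq_one.1 g5 with h | h
      · rw [h, if_pos rfl]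
        simp
      · rw [h, if_neg one_ne_zero]
        simp
    have hEs : ∀ F : ι → ℤ, ∑ u ∈ E, F u = c2 * ∑ u ∈ vSC U ho vl pc g z y, F u := by
      intro F
      rw [hEd]
      rcases Nat.le_one_iff_eq_zero_or_eq_one.1 g6 with h | h
      · rw [h, if_pos rfl]
        simp
      · rw [h, if_neg one_ne_zero]
        simp
    have hCc : ((C.card : ℕ) : ℤ) = c1 * ((vHC U ho vl pc g z y).card : ℤ) := by
      have := hCs fun _ => 1
      simpa using this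
    have hEc : ((E.card : ℕ) : ℤ) = c2 * ((vSC U ho vl pc g z y).card : ℤ) := by
      have := hEs fun _ => 1
      simpa using this
    obtain ⟨b', w', d1, d2, d3, d4, d5, d6, d7⟩ := Lv.capG H hz hy (hS y) g1 g2 g3 g4 hC hE
      (l := g y) (l' := g z)
      (fun u hu => ⟨Nat.one_le_iff_ne_zero.2 (mem_filter.1 (hC hu)).2.2.2.2, le_rfl⟩)
      (fun u hu => ⟨Nat.one_le_iff_ne_zero.2 (mem_filter.1 (hE hu)).2.2.2.2, le_rfl⟩)
    rw [← eHa y hy, ← e1] at d2 d3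
    rw [← e5, ← e6] at d5 d6
    have d8 := d7 ((m1 : ℤ) + m2 + c1 * ((vHC U ho vl pc g z y).card : ℤ))
      ((m1 : ℤ) + m2 + c1 * (nMc U ho vl pc g z y : ℤ))
      ((k1 : ℤ) + k2 + c2 * ((vSC U ho vl pc g z y).card : ℤ))
      ((k1 : ℤ) + k2 + c2 * (nKc U ho vl pc g z y : ℤ))
      (c1 * ((nMcb U ho vl kp mn pc g z y : ℤ) + nMcr n U ho vl kp pc be g z y))
      (c2 * ((nKcb U ho vl kp mn pc g z y : ℤ) + nKcw n U ho vl kp pc be g z y))
      (by rw [hCc]) (by rw [hCs, e2]) (by rw [hEc]) (by rw [hEs, e7])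
      (by rw [hCs, sum_add_distrib, e3, eMc y hy]) (by rw [hEs, sum_add_distrib, e8, eKc y hy])
    refine ⟨b', w', d1, d2, d3, d4, d5, d6, ?_⟩
    rw [← eM y hy, ← a4 y hyn, ← eA, ← eB y hy] at d8
    exact d8
  · -- mcrT
    intro y hy N hN
    have h1 : ((nMcr n U ho vl kp pc be g z y : ℕ) : ℤ)
        ≤ (((vHC U ho vl pc g z y).card * (∑ l ∈ ((range n).erase z).erase y,
          (nP be kq z l + nX kq z l) + N) : ℕ) : ℤ) := by
      rw [eMc y hy, Nat.cast_mul, ← nsmul_eq_mul, ← sum_const]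
      refine sum_le_sum fun u hu => ?_
      have h2 := H.arc_sum (mem_filter.1 hu).1 (L := ((range n).erase z).erase y)
        ((erase_subset _ _).trans (erase_subset _ _)) (a := fun l => be z l) (N := N)
        (Nat.cast_nonneg _) (fun l hl => by
          obtain ⟨h3, h4⟩ := mem_erase.1 hl
          refine ⟨H.be0 z hz l (hP l h4).1, ?_⟩
          rw [← eM l h4]
          exact_mod_cast hN l h4 h3)
      unfold arZ
      refine h2.trans (le_of_eq ?_)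
      push_cast
      rw [sum_congr rfl fun l hl => (eM l (mem_of_mem_erase hl)).symm]
    exact_mod_cast h1
  · -- kcwT
    intro y hy N hN
    obtain ⟨hyn, hyz⟩ := hP y hy
    have h1 : ((nKcw n U ho vl kp pc be g z y : ℕ) : ℤ)
        ≤ (((vSC U ho vl pc g z y).card * (nBt n be z y + N) : ℕ) : ℤ) := by
      rw [eKc y hy, Nat.cast_mul, ← nsmul_eq_mul, ← sum_const]
      refine sum_le_sum fun u hu => ?_
      have h2 := H.arc_sum (mem_filter.1 hu).1 (L := ((range n).erase z).erase y)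
        ((erase_subset _ _).trans (erase_subset _ _)) (a := fun l => be y l) (N := N)
        (Nat.cast_nonneg _) (fun l hl => by
          obtain ⟨h3, h4⟩ := mem_erase.1 hl
          have h5 := H.be0 y hyn l (hP l h4).1
          refine ⟨h5, ?_⟩
          have h6 := hN l h4 h3 _ (H.jOk hyn (hP l h4).1 h3.symm)
          have h7 : (((be y l).toNat : ℕ) : ℤ) ≤ N := by exact_mod_cast h6
          rw [Int.toNat_of_nonneg h5] at h7
          exact h7)
      unfold arW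
      refine h2.trans (le_of_eq ?_)
      push_cast
      rw [eBt y hy]
    exact_mod_cast h1
  · -- btT
    intro y hy h2
    obtain ⟨hyn, hyz⟩ := hP y hy
    have h3 := H.tenU0 hyn (lv := fun _ => 0) (fun u hu => by
        have := H.k0 u hu y hyn
        simpa using this) (fun x _ => use_none n U ho vl kp mn pc be _ y x) (x := 0) le_rfl
      (sum_nonneg fun l hl => H.kq0 y hyn l (mem_range.1 (mem_of_mem_erase hl)))
      (e := (nBt n be z y : ℤ) + nQ be z y) (by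
        have h4 := H.mu_plain hyn
        have h5 : ∑ l ∈ (range n).erase y, be y l = (nBt n be z y : ℤ) + nQ be z y := by
          rw [eBt y hy, a4 y hyn, erase_right_comm,
            ← add_sum_erase ((range n).erase y) (fun l => be y l)
              (mem_erase.2 ⟨hyz.symm, mem_range.2 hz⟩)]
          ring
        simp only [add_zero, sum_const_zero, sub_zero]
        rw [← h5]
        linarith) (by exact_mod_cast h2)
    simp only [sum_const_zero, add_zero] at h3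
    have h4 := H.sgs y hyn
    have h5 : (0 : ℤ) ≤ ∑ l ∈ (range n).erase y, sg y l := sum_nonneg fun l hl =>
      H.sg0 y hyn l (mem_range.1 (mem_of_mem_erase hl))
    have h6 : (2 : ℤ) * ((nBt n be z y : ℤ) + nQ be z y) ≤ R := by exact_mod_cast h2
    rw [eB y hy]
    refine le_trans (mul_le_mul_of_nonneg_left ?_ (by linarith)) h3
    linarith
  · -- btM
    intro y hy
    obtain ⟨hyn, hyz⟩ := hP y hy
    refine ⟨fun l => (be y l).toNat, ?_, fun w hw hwy => H.jOk hyn (hP w hw).1 hwy.symm⟩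
    have h1 : ((nBt n be z y : ℕ) : ℤ)
        = ((∑ l ∈ ((range n).erase z).erase y, (be y l).toNat : ℕ) : ℤ) := by
      rw [eBt y hy, Nat.cast_sum]
      exact sum_congr rfl fun l hl => (Int.toNat_of_nonneg
        (H.be0 y hyn l (hP l (mem_of_mem_erase hl)).1)).symm
    exact_mod_cast h1

end CapUS

end Pool.Agent.Lib.MP_f04ccf_co
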