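import Pool.Agent.Lib.MP_f04ccf_co.M.UnR

/-!
MP_f04ccf_co, TEXT D: **the row test with the columns of `j` and the rectangle (9's RowEX, `tPX`) in unit form**.

* `TPX`: the statement of the field (over the letters of `PCon`; `RcC .. z j (be z j) q EX` is `RcP` of M/RowEX);
  `PCon.tpx`: it is true (`PCon.tPX`);
* `PCon.unX`: the same for a set `S` of units used at the row `z`;
* `PCon.dX`: in d-form, any `X`, `Y`, `D`;
* `PCon.exD`: **the bound of a rectangle** (nothing used): `m < d + g`, or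
  `2 EX + 2 SA + m (m + 1) ≤ 2 c + 2 A m + 2 (t j - m) (d + g - m) + N`.
-/

set_option autoImplicit false

namespace Pool.Agent.Lib.MP_f04ccf_co

open Finset

attribute [local instance] Classical.propDecidable

section CelX

/-- **the row test with the columns of `j` and a rectangle** -/
def TPX {ι : Type*} (R : ℤ) (n : ℕ) (t s mu : ℕ → ℤ) (U : Finset ι) (ho : ι → ℕ) (vl : ι → ℤ)
    (kp mn : ℕ → ι → ℤ) (pc ar : ι → ℤ) (be kq NN sg : ℕ → ℕ → ℤ) : Prop :=
  ∀ z < n, ∀ j < n, j ≠ z → ∀ X ⊆ range n, j ∉ X → ∀ Y ⊆ X, ∀ D ⊆ U,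
    (∀ u ∈ D, ho u = z ∧ pc u = 0) →
    ∀ K ⊆ U, (∀ u ∈ K, ho u ≠ z) → ∀ g : ι → ℕ, (∀ u ∈ K, 1 ≤ g u) →
    (∀ u ∈ K, (g u : ℤ) ≤ kp z u) → ∀ EX : ℤ,
    RcC U vl mn z j (be z j) (∑ u ∈ K, if ho u = j then pc u else 0) EX →
    TstP R (R - t j) (t z + 1) (s z) (∑ u ∈ K, (g u : ℤ))
      (∑ u ∈ K, ((g u : ℤ) + 1 - if ho u = j then pc u else 0))
      (∑ u ∈ K, msP kp mn z g u)
      (mu z - ∑ l ∈ X, kq z l - ∑ l ∈ Y, (be z l - kq z l) - ∑ u ∈ D, vl u)
      (∑ l ∈ X, kq z l + ∑ l ∈ Y, (be z l - kq z l) + ∑ u ∈ D, (vl u + 1))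
      (∑ u ∈ U.filter (fun u => ho u = z ∧ u ∉ D), (kp j u * (R - t j) - mn j u))
      (svP n ho vl (K.filter fun u => ho u = j → pc u = 0) g
        + 2 * ((∑ u ∈ K, if ho u = j then pc u else 0)
          * ((K.filter fun u => ho u = j ∧ pc u = 0 ∧ ∀ l < n, l ≠ z → kp l u = 0).card : ℤ))
        + 2 * EX)
      (∑ l ∈ X \ Y, (be z l - kq z l) * (be z l - kq z l + 1)
        + ∑ l ∈ (range n).erase z \ X, NN z l
        + 2 * ∑ l ∈ Y, (be z l - kq z l) * (sg z l
          + ((U.filter fun u => ho u = z ∧ u ∉ D ∧ pc u = 0 ∧ kp l u ≠ 0).card : ℤ)))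
      (2 * ((∑ u ∈ K, if ho u = j then pc u else 0) * be z j)
        + 2 * ∑ u ∈ K, if ho u = j then ar u else ((g u : ℤ) + 1) * (R - t j))

variable {ι κ : Type*} {R : ℤ} {n : ℕ} {t s mu : ℕ → ℤ} {U : Finset ι} {ho : ι → ℕ} {vl : ι → ℤ}
  {kp mn : ℕ → ι → ℤ} {pc ar : ι → ℤ} {be kq NN sg : ℕ → ℕ → ℤ} {nu : ℕ → ι → ℤ}
  {V : Finset κ} {it : κ → ι} {C : κ → Finset ℕ} {bt ht : κ → ℕ → ℤ} {z : ℕ} {S : Finset κ}

/-- **the field of `PCon`** -/
theorem PCon.tpx (H : PCon R n t s mu U ho vl kp mn pc ar be kq NN sg nu) :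
    TPX R n t s mu U ho vl kp mn pc ar be kq NN sg := H.tPX

/-- **the row test with the columns of `j` and a rectangle in unit form** -/
theorem PCon.unX (H : PCon R n t s mu U ho vl kp mn pc ar be kq NN sg nu)
    (HX : TPX R n t s mu U ho vl kp mn pc ar be kq NN sg)
    (hV : UnP R n t U ho vl kp mn V it C bt ht) (hz : z < n) {j : ℕ} (hj : j < n) (hjz : j ≠ z)
    (hS : S ⊆ V.filter fun v => z ∈ C v) {X Y : Finset ℕ} (hX : X ⊆ range n) (hjX : j ∉ X)
    (hY : Y ⊆ X) {D : Finset ι} (hD : D ⊆ U) (hDz : ∀ u ∈ D, ho u = z ∧ pc u = 0) {q f EX : ℤ}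
    (hq : q = ∑ v ∈ S, if ho (it v) = j then pc (it v) else 0)
    (hf : f = ((S.filter fun v => ho (it v) = j ∧ pc (it v) = 0
      ∧ ∀ l < n, l ≠ z → kp l (it v) = 0).card : ℤ))
    (hE : RcC U vl mn z j (be z j) q EX)
    (hp : 0 ≤ s z - (∑ l ∈ X, kq z l + ∑ l ∈ Y, (be z l - kq z l) + ∑ u ∈ D, (vl u + 1))
      + (S.card : ℤ)) :
    TstP R (R - t j) (t z + 1) (s z) (S.card : ℤ) (2 * (S.card : ℤ) - q) (∑ v ∈ S, bt v z)
      (mu z - ∑ l ∈ X, kq z l - ∑ l ∈ Y, (be z l - kq z l) - ∑ u ∈ D, vl u)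
      (∑ l ∈ X, kq z l + ∑ l ∈ Y, (be z l - kq z l) + ∑ u ∈ D, (vl u + 1))
      (∑ v ∈ V.filter (fun v => ho (it v) = z ∧ it v ∉ D), ht v j)
      (svU n ho vl it (S.filter fun v => ho (it v) = j → pc (it v) = 0) + 2 * (q * f) + 2 * EX)
      (∑ l ∈ X \ Y, (be z l - kq z l) * (be z l - kq z l + 1)
        + ∑ l ∈ (range n).erase z \ X, NN z l
        + 2 * ∑ l ∈ Y, (be z l - kq z l) * (sg z l
          + ((U.filter fun u => ho u = z ∧ u ∉ D ∧ pc u = 0 ∧ kp l u ≠ 0).card : ℤ)))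
      (2 * (q * be z j)
        + 2 * ∑ u ∈ (S.image it).filter (fun u => ho u = j), ar u
        + 4 * (((S.filter fun v => ho (it v) ≠ j).card : ℤ) * (R - t j))) := by
  obtain ⟨h3, h4, h5, h6, h7, h8⟩ := hV.use hz hS
  have h0 : S ⊆ V := hS.trans (filter_subset _ _)
  -- the PC pairs of the cell
  have e1 : ∑ u ∈ S.image it, (if ho u = j then pc u else 0) = q := by
    rw [hq]
    refine hV.sum_one h0 fun u hu h10 => H.pcv u hu fun h11 => h10 ?_
    rw [h11, ite_self]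
  have h9 := HX z hz j hj hjz X hX hjX Y hY D hD hDz _ h3 h4 (fun u => lvU it S u) h5 h6 EX
    (by rw [e1]; exact hE)
  -- the full items of the cell
  have e2 : (((S.image it).filter fun u => ho u = j ∧ pc u = 0
      ∧ ∀ l < n, l ≠ z → kp l u = 0).card : ℤ) = f := by
    rw [hf, hV.card_one h0 (fun u => ho u = j ∧ pc u = 0 ∧ ∀ l < n, l ≠ z → kp l u = 0)]
    rintro u hu ⟨h10, h11, h12⟩
    rcases H.one u hu with ⟨i, -, -, h13, -⟩ | ⟨-, h13⟩
    · exact h13
    · exfalso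
      have h14 : ∑ i ∈ range n, kp i u = kp z u :=
        sum_eq_single_of_mem z (mem_range.2 hz) fun l hl hlz => h12 l (mem_range.1 hl) hlz
      have h15 := H.kv u hu z hz
      linarith
  -- the points
  have e3 : ∑ u ∈ S.image it, ((lvU it S u : ℤ) + 1 - if ho u = j then pc u else 0)
      = ∑ u ∈ S.image it, ((lvU it S u : ℤ) + 1) - q := by
    rw [sum_sub_distrib, e1]
  -- the costs
  have htj : 0 ≤ R - t j := by
    have h10 := H.tsum
    have h11 : t j + 1 ≤ ∑ i ∈ range n, (t i + 1) :=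
      single_le_sum (f := fun i => t i + 1) (fun i hi => by
        have := H.t0 i (mem_range.1 hi)
        linarith) (mem_range.2 hj)
    linarith
  have e4 : ∑ u ∈ S.image it, (if ho u = j then ar u
      else ((lvU it S u : ℤ) + 1) * (R - t j))
      ≤ ∑ u ∈ (S.image it).filter (fun u => ho u = j), ar u
        + 2 * (((S.filter fun v => ho (it v) ≠ j).card : ℤ) * (R - t j)) := by
    rw [← sum_filter_add_sum_filter_not (S.image it) (fun u => ho u = j)]
    refine add_le_add (le_of_eq (sum_congr rfl fun u hu => if_pos (mem_filter.1 hu).2)) ?_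
    have h10 : ∑ u ∈ (S.image it).filter (fun u => ¬ ho u = j), (if ho u = j
        then ar u else ((lvU it S u : ℤ) + 1) * (R - t j))
        = (∑ u ∈ (S.image it).filter (fun u => ¬ ho u = j), ((lvU it S u : ℤ) + 1))
          * (R - t j) := by
      rw [sum_mul]
      exact sum_congr rfl fun u hu => if_neg (mem_filter.1 hu).2
    have h11 : (S.image it).filter (fun u => ¬ ho u = j)
        = (S.filter fun v => ho (it v) ≠ j).image it := by
      ext u
      simp only [mem_filter, mem_image]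
      constructor
      · rintro ⟨⟨v, hv, rfl⟩, h12⟩
        exact ⟨v, ⟨hv, h12⟩, rfl⟩
      · rintro ⟨v, ⟨hv, h12⟩, rfl⟩
        exact ⟨⟨v, hv, rfl⟩, h12⟩
    have h12 : ∑ u ∈ (S.image it).filter (fun u => ¬ ho u = j), ((lvU it S u : ℤ) + 1)
        ≤ 2 * ((S.filter fun v => ho (it v) ≠ j).card : ℤ) := by
      have h13 : ∀ u ∈ (S.filter fun v => ho (it v) ≠ j).image it,
          (lvU it S u : ℤ) = (lvU it (S.filter fun v => ho (it v) ≠ j) u : ℤ) := by
        intro u hu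
        obtain ⟨v, hv, rfl⟩ := mem_image.1 hu
        have h14 := (mem_filter.1 hv).2
        unfold lvU
        rw [filter_filter]
        congr 2
        ext w
        simp only [mem_filter]
        constructor
        · rintro ⟨h15, h16⟩
          exact ⟨h15, by rw [h16]; exact h14, h16⟩
        · rintro ⟨h15, -, h16⟩
          exact ⟨h15, h16⟩
      rw [h11, sum_congr rfl fun u hu => by rw [h13 u hu], sum_add_distrib, sum_lvU, sum_const,
        nsmul_eq_mul, mul_one]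
      have h14 : ((S.filter fun v => ho (it v) ≠ j).image it).card
          ≤ (S.filter fun v => ho (it v) ≠ j).card := card_image_le
      have h15 : (((S.filter fun v => ho (it v) ≠ j).image it).card : ℤ)
          ≤ ((S.filter fun v => ho (it v) ≠ j).card : ℤ) := by exact_mod_cast h14
      linarith
    rw [h10]
    have h13 := mul_le_mul_of_nonneg_right h12 htj
    linarith
  have h10 := hV.sv_le h0 fun u => ho u = j → pc u = 0
  have h11 := hV.hosted hj hjz D
  have hqk : q ≤ ((S.image it).card : ℤ) := by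
    rw [← e1]
    have h12 : ∑ u ∈ S.image it, (if ho u = j then pc u else 0) ≤ ∑ u ∈ S.image it, (1 : ℤ) := by
      refine sum_le_sum fun u hu => ?_
      split_ifs
      · rcases H.pc01 u (h3 hu) with h13 | h13
        · rw [h13]
          norm_num
        · rw [h13]
      · norm_num
    rw [sum_const, nsmul_eq_mul, mul_one] at h12
    exact h12
  have hwk : ∑ u ∈ S.image it, ((lvU it S u : ℤ) + 1) = (S.card : ℤ) + ((S.image it).card : ℤ) := by
    rw [sum_add_distrib, sum_lvU, sum_const, nsmul_eq_mul, mul_one]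
  rw [sum_lvU, e1, e2, e3] at h9
  refine h9.mono (by linarith) (by linarith) hp h7 h11 (by linarith) le_rfl (by linarith)

/-- **d-form** -/
theorem PCon.dX (H : PCon R n t s mu U ho vl kp mn pc ar be kq NN sg nu)
    (HX : TPX R n t s mu U ho vl kp mn pc ar be kq NN sg)
    (hV : UnP R n t U ho vl kp mn V it C bt ht) (hz : z < n) {j : ℕ} (hj : j < n) (hjz : j ≠ z)
    (hS : S ⊆ V.filter fun v => z ∈ C v) {X Y : Finset ℕ} (hX : X ⊆ range n) (hjX : j ∉ X)
    (hY : Y ⊆ X) {D : Finset ι} (hD : D ⊆ U) (hDz : ∀ u ∈ D, ho u = z ∧ pc u = 0)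
    {q f d m g EX : ℤ} (hq : q = ∑ v ∈ S, if ho (it v) = j then pc (it v) else 0)
    (hf : f = ((S.filter fun v => ho (it v) = j ∧ pc (it v) = 0
      ∧ ∀ l < n, l ≠ z → kp l (it v) = 0).card : ℤ))
    (hE : RcC U vl mn z j (be z j) q EX) (hd : d = mu z - s z)
    (hm : m = mu z - ∑ l ∈ X, kq z l - ∑ l ∈ Y, (be z l - kq z l) - ∑ u ∈ D, vl u)
    (hg : g = (D.card : ℤ)) :
    m + (S.card : ℤ) < d + g ∨
    2 * ((R - t j) * ((S.card : ℤ) - 1))
      + 2 * ∑ v ∈ V.filter (fun v => ho (it v) = z ∧ it v ∉ D), ht v j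
      + (m + q) * (m + 2 * (S.card : ℤ) - q + 1)
      + svU n ho vl it (S.filter fun v => ho (it v) = j → pc (it v) = 0) + 2 * (q * f) + 2 * EX
      ≤ 2 * ((t z + 1) * (m + (S.card : ℤ)) + ∑ v ∈ S, bt v z)
        + 2 * ((t j - (m + 2 * (S.card : ℤ) - q)) * (d + g - (m + (S.card : ℤ))))
        + (∑ l ∈ X \ Y, (be z l - kq z l) * (be z l - kq z l + 1)
          + ∑ l ∈ (range n).erase z \ X, NN z l
          + 2 * ∑ l ∈ Y, (be z l - kq z l) * (sg z l
            + ((U.filter fun u => ho u = z ∧ u ∉ D ∧ pc u = 0 ∧ kp l u ≠ 0).card : ℤ)))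
        + 2 * (q * be z j)
        + 2 * ∑ u ∈ (S.image it).filter (fun u => ho u = j), ar u
        + 4 * (((S.filter fun v => ho (it v) ≠ j).card : ℤ) * (R - t j)) := by
  have h1 : ∑ u ∈ D, (vl u + 1) = ∑ u ∈ D, vl u + g := by
    rw [sum_add_distrib, sum_const, nsmul_eq_mul, mul_one, hg]
  have h2 : s z - (∑ l ∈ X, kq z l + ∑ l ∈ Y, (be z l - kq z l) + ∑ u ∈ D, (vl u + 1))
      + (S.card : ℤ) = m + (S.card : ℤ) - (d + g) := by
    rw [h1, hd, hm]
    ring
  by_cases h3 : m + (S.card : ℤ) < d + g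
  · exact Or.inl h3
  · right
    have h4 := H.unX HX hV hz hj hjz hS hX hjX hY hD hDz hq hf hE (by rw [h2]; linarith)
    unfold TstP at h4
    rw [h2, ← hm] at h4
    linarith

/-- **the bound of a rectangle**: nothing used -/
theorem PCon.exD (HX : TPX R n t s mu U ho vl kp mn pc ar be kq NN sg) (hz : z < n) {j : ℕ}
    (hj : j < n) (hjz : j ≠ z) {X Y : Finset ℕ} (hX : X ⊆ range n) (hjX : j ∉ X) (hY : Y ⊆ X)
    {D : Finset ι} (hD : D ⊆ U) (hDz : ∀ u ∈ D, ho u = z ∧ pc u = 0) {w : ι} (hw : w ∈ U)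
    (hw1 : vl w = 1) {d m g : ℤ} (hd : d = mu z - s z)
    (hm : m = mu z - ∑ l ∈ X, kq z l - ∑ l ∈ Y, (be z l - kq z l) - ∑ u ∈ D, vl u)
    (hg : g = (D.card : ℤ)) :
    2 * (max 0 (mn z w - be z j) * max 0 (mn j w))
      + 2 * ∑ u ∈ U.filter (fun u => ho u = z ∧ u ∉ D), (kp j u * (R - t j) - mn j u)
      + m * (m + 1)
      ≤ 2 * (R - t j) + 2 * ((t z + 1) * m) + 2 * ((t j - m) * (d + g - m))
        + (∑ l ∈ X \ Y, (be z l - kq z l) * (be z l - kq z l + 1)
          + ∑ l ∈ (range n).erase z \ X, NN z l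
          + 2 * ∑ l ∈ Y, (be z l - kq z l) * (sg z l
            + ((U.filter fun u => ho u = z ∧ u ∉ D ∧ pc u = 0 ∧ kp l u ≠ 0).card : ℤ))) := by
  have h1 : ∑ u ∈ D, (vl u + 1) = ∑ u ∈ D, vl u + g := by
    rw [sum_add_distrib, sum_const, nsmul_eq_mul, mul_one, hg]
  have h2 : s z - (∑ l ∈ X, kq z l + ∑ l ∈ Y, (be z l - kq z l) + ∑ u ∈ D, (vl u + 1))
      = m - (d + g) := by
    rw [h1, hd, hm]
    ring
  have h4 := HX z hz j hj hjz X hX hjX Y hY D hD hDz ∅ (empty_subset _) (by simp) (fun _ => 1)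
    (by simp) (by simp) (max 0 (mn z w - be z j) * max 0 (mn j w))
    (Or.inr ⟨w, hw, hw1, by rw [sum_empty, sub_zero]⟩)
  unfold TstP at h4
  simp only [sum_empty, filter_empty, card_empty, Nat.cast_zero, svP, zero_mul, mul_zero,
    sum_const_zero, add_zero, zero_add, sub_zero] at h4
  rw [show s z - (∑ l ∈ X, kq z l + ∑ l ∈ Y, (be z l - kq z l) + ∑ u ∈ D, (vl u + 1))
    = m - (d + g) from h2, ← hm] at h4
  linarith

end CelX

end Pool.Agent.Lib.MP_f04ccf_co
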