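import Pool.Agent.Lib.MP_f04ccf_co.M.PayC
import Pool.Agent.Lib.MP_f04ccf_co.M.ItZ

/-!
MP_f04ccf_co, version [B]: the row test with columns (T+), the cell paid, for the packings of a `WCoreK`.

* `pfw x y`: the free arcs of the PC members of `x` with tail `y` above the adjacent pairs (paid in the cell);
* `WCoreK.rowP`: `Fam.rowcI` with `+ 2 nxk z y + 2 pfw z y` on the left;
* `frt_le`: the free arcs of the PC members with tail `y` are at most `pfw + be (be - 1)`.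
-/

set_option autoImplicit false

namespace Pool.Agent.Lib.MP_f04ccf_co

open Finset

attribute [local instance] Classical.propDecidable

section PayI

variable {V : Type*} {G : SimpleGraph V} {Z T : Finset V} {hm : V → V} {r m n p : ℕ}
  {B : V → Finset (V × V)} {Ps : V → Finset (Finset V)}

variable (G) in
/-- the free arcs of the PC members with tail `z` above the adjacent pairs -/
noncomputable def pfw {ι : Type*} (C : Finset V) (tl : V → ι) (Q : Finset (V × V)) (z : ι) : ℤ :=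
  ∑ v ∈ (pcs tl Q z).image Prod.fst,
    (((msC G C v).card - 1 - dg G ((pcs tl Q z).image Prod.fst) v : ℕ) : ℤ)

lemma pfw_nonneg {ι : Type*} {C : Finset V} {tl : V → ι} {Q : Finset (V × V)} {z : ι} :
    0 ≤ pfw G C tl Q z := sum_nonneg fun _ _ => Nat.cast_nonneg _

/-- the free arcs of the PC members with tail `z` -/
lemma frt_le {ι : Type*} {C H : Finset V} {tl : V → ι} {Q : Finset (V × V)} {Qs : Finset (Finset V)}
    (h : Pk G C H tl Q Qs) (z : ι) :
    ∑ e ∈ pcs tl Q z, ((frC G C tl Q e.1).card : ℤ)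
      ≤ pfw G C tl Q z + ((pcs tl Q z).card : ℤ) * ((pcs tl Q z).card - 1) := by
  have hinj : ∀ e ∈ pcs tl Q z, ∀ f ∈ pcs tl Q z, e.1 = f.1 → e = f := fun e he f hf hef =>
    h.b1 e (mem_pcs.1 he).1 f (mem_pcs.1 hf).1 hef
  have h1 : ∀ e ∈ pcs tl Q z, ((frC G C tl Q e.1).card : ℤ)
      ≤ (((msC G C e.1).card - 1 - dg G ((pcs tl Q z).image Prod.fst) e.1 : ℕ) : ℤ)
        + ((pcs tl Q z).card - 1) := by
    intro e he
    have h2 : frC G C tl Q e.1 ⊆ (msC G C e.1).erase e.2 := by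
      intro a ha
      obtain ⟨q1, q2, q3⟩ := mem_frC.1 ha
      refine mem_erase.2 ⟨fun h0 => ?_, mem_msC.2 ⟨q1, q2⟩⟩
      exact q3 e (mem_pcs.1 he).1 h0.symm rfl
    have h3 := card_le_card h2
    have h4 : e.2 ∈ msC G C e.1 :=
      mem_msC.2 ⟨h.bC e (mem_pcs.1 he).1, h.bN e (mem_pcs.1 he).1⟩
    rw [card_erase_of_mem h4] at h3
    have h5 : dg G ((pcs tl Q z).image Prod.fst) e.1 + 1 ≤ (pcs tl Q z).card := by
      have h6 : insert e.1 (((pcs tl Q z).image Prod.fst).filter fun w => G.Adj e.1 w)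
          ⊆ (pcs tl Q z).image Prod.fst :=
        insert_subset (mem_image_of_mem _ he) (filter_subset _ _)
      have h7 := card_le_card h6
      rw [card_insert_of_notMem (fun h8 => G.irrefl (mem_filter.1 h8).2)] at h7
      exact h7.trans card_image_le
    have h8 : (frC G C tl Q e.1).card
        ≤ ((msC G C e.1).card - 1 - dg G ((pcs tl Q z).image Prod.fst) e.1)
          + ((pcs tl Q z).card - 1) := by omega
    have h9 : 1 ≤ (pcs tl Q z).card := card_pos.2 ⟨e, he⟩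
    zify [h9] at h8
    linarith
  have h2 := sum_le_sum h1
  rw [sum_add_distrib, sum_const, nsmul_eq_mul] at h2
  have h3 : pfw G C tl Q z = ∑ e ∈ pcs tl Q z,
      (((msC G C e.1).card - 1 - dg G ((pcs tl Q z).image Prod.fst) e.1 : ℕ) : ℤ) := by
    unfold pfw
    rw [sum_image fun e he f hf hef => hinj e he f hf hef]
  rw [h3]
  exact h2

/-- **T+ with the cell paid**, version [B] -/
theorem WCoreK.rowP (hp : 2 * r ≤ p) (h : WCoreK G Z T r m n p hm)
    (hB : ∀ x ∈ T, Pk G (cz G Z T hm x) (hz G Z T hm x) (tlo G T hm) (B x) (Ps x))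
    {z y : V} (hz' : z ∈ T) (hy : y ∈ T) (hzy : z ≠ y) {K : Finset (Itm V)}
    (hK : K ⊆ (T.erase z).biUnion fun x => pkf (B x) (Ps x))
    (h0 : 0 ≤ sI hm r Z z + ∑ u ∈ K, (ikp (tlo G T hm) z u : ℤ)) :
    2 * ((r : ℤ) - 1) * sI hm r Z z
      + 2 * ∑ u ∈ K, ((ikp (tlo G T hm) z u : ℤ) * ((r : ℤ) - 1 - tI G Z T hm r Z z)
          - rmr G (cz G Z T hm) (tlo G T hm) z u)
      + 2 * ∑ u ∈ pkf (B z) (Ps z), ((ikp (tlo G T hm) y u : ℤ) * ((r : ℤ) - 1 - tI G Z T hm r Z y)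
          - ims G (cz G Z T hm) (tlo G T hm) y u)
      + 2 * (nxk G (cz G Z T hm z) (hz G Z T hm z) (tlo G T hm) (B z) y
        + pfw G (cz G Z T hm z) (tlo G T hm) (B z) y)
      ≤ 2 * eI G hm Z z
        + 2 * (∑ u ∈ K, (2 * (ikp (tlo G T hm) z u : ℤ)
              - if u ∈ pkf (B y) (Ps y) then (ipc u : ℤ) * ikp (tlo G T hm) z u else 0)
            + ((r : ℤ) - 1 - tI G Z T hm r Z y)) * (sI hm r Z z + 1)
        + (∑ u ∈ K, (2 * (ikp (tlo G T hm) z u : ℤ)
              - if u ∈ pkf (B y) (Ps y) then (ipc u : ℤ) * ikp (tlo G T hm) z u else 0))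
          * (∑ u ∈ K, (2 * (ikp (tlo G T hm) z u : ℤ)
              - if u ∈ pkf (B y) (Ps y) then (ipc u : ℤ) * ikp (tlo G T hm) z u else 0) - 1)
        + 2 * ∑ u ∈ K, (if u ∈ pkf (B y) (Ps y)
            then (iar G (cz G Z T hm y) u : ℤ)
            else 2 * ((r : ℤ) - 1 - tI G Z T hm r Z y) * ikp (tlo G T hm) z u)
        + 2 * (∑ u ∈ K, (if u ∈ pkf (B y) (Ps y) then (ipc u : ℤ) * ikp (tlo G T hm) z u else 0))
          * (∑ u ∈ pkf (B z) (Ps z), (ipc u : ℤ) * ikp (tlo G T hm) y u) := by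
  have hfam : ∀ x ∈ T, Fam (co G) (cz G Z T hm) (hz G Z T hm) (tlo G T hm) x
      (pkf (B x) (Ps x)) := fun x hx => (hB x hx).fam (h.csys.dCH hx hx).symm
  have hdis : Disjoint (hz G Z T hm z) (cz G Z T hm z) := (h.csys.dCH hz' hz').symm
  have hpcz : pcz (tlo G T hm) y (pkf (B z) (Ps z)) = pcs (tlo G T hm) (B z) y := by
    ext e
    rw [mem_pcz, inr_mem_pkf, mem_pcs]
  have hNH : ∀ v ∈ nez G (cz G Z T hm z) (hz G Z T hm z) (tlo G T hm) (B z) y,
      v ∈ hz G Z T hm z ∧ tlo G T hm v = y ∧ v ∉ (B z).image Prod.fst := by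
    intro v hv
    obtain ⟨hv1, hv2⟩ := mem_filter.1 hv
    obtain ⟨hv3, -⟩ := mem_Nend.1 hv1
    obtain ⟨hv4, hv5⟩ := mem_sdiff.1 hv3
    exact ⟨hv4, hv2, hv5⟩
  have hmsC : ∀ x ∈ T, ∀ v ∈ hz G Z T hm z, msC G (cz G Z T hm x) v = msd G (cz G Z T hm x) v := by
    intro x hx v hv
    ext a
    rw [mem_msC]
    unfold msd
    rw [mem_filter]
    refine ⟨fun q => ⟨q.1, fun q2 => ?_, q.2⟩, fun q => ⟨q.1, q.2.2⟩⟩
    exact disjoint_left.1 (h.wsysT.dHC z hz' x hx) hv (q2 ▸ q.1)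
  have h1 := Fam.rowE_cell h.F.toPFrame h.gp.P h.hh h.csys h.wsysT hfam hz' hy hzy
    (K := K.filter fun u => ikp (tlo G T hm) z u ≠ 0)
    ((filter_subset _ _).trans hK) (fun u hu => (mem_filter.1 hu).2)
    (X := fun Q => one1 (oth (tlo G T hm) z Q)) (fun Q => one1_sub _)
    (N := nez G (cz G Z T hm z) (hz G Z T hm z) (tlo G T hm) (B z) y)
    (fun v hv => (hNH v hv).1) (fun v hv => (hNH v hv).2.1)
    (fun v hv e he h2 => (hNH v hv).2.2 (h2 ▸ mem_image_of_mem _ (inr_mem_pkf.1 he)))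
    (fun v hv => by
      have h2 : v ∈ hz G Z T hm z ∧ tlo G T hm v = y := by
        rcases mem_union.1 hv with h3 | h3
        · obtain ⟨e, he, rfl⟩ := mem_image.1 h3
          obtain ⟨h4, h5⟩ := mem_pcz.1 he
          exact ⟨(hfam z hz').pcH e h4, h5⟩
        · exact ⟨(hNH v h3).1, (hNH v h3).2.1⟩
      have h3 := h.msd_le hp hz' h2.1 h2.2
      rw [← hmsC z hz' v h2.1, ← hmsC y hy v h2.1] at h3
      exact h3)
  have h2 := Fam.rowcI_of h.csys h.wsysT hfam hz' hy hzy hK h0 h1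
  have h3 : ∑ v ∈ (pcz (tlo G T hm) y (pkf (B z) (Ps z))).image Prod.fst,
      (((msC G (cz G Z T hm z) v).card - 1
        - dg G ((pcz (tlo G T hm) y (pkf (B z) (Ps z))).image Prod.fst) v : ℕ) : ℤ)
      = pfw G (cz G Z T hm z) (tlo G T hm) (B z) y := by
    rw [hpcz]
    rfl
  have h4 : ∑ v ∈ nez G (cz G Z T hm z) (hz G Z T hm z) (tlo G T hm) (B z) y,
      ((msC G (cz G Z T hm z \ (pcz (tlo G T hm) y (pkf (B z) (Ps z))).image Prod.snd) v).card : ℤ)
      = ∑ v ∈ nez G (cz G Z T hm z) (hz G Z T hm z) (tlo G T hm) (B z) y,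
        ((frC G (cz G Z T hm z) (tlo G T hm) (B z) v).card : ℤ) := by
    refine sum_congr rfl fun v hv => ?_
    have e1 := frC_eq (G := G) (B := B z) (tl := tlo G T hm)
      (fun h1 => disjoint_left.1 hdis (hNH v hv).1 h1 : v ∉ cz G Z T hm z)
    rw [(hNH v hv).2.1] at e1
    have e2 : msC G (cz G Z T hm z \ (pcs (tlo G T hm) (B z) y).image Prod.snd) v
        = frC G (cz G Z T hm z) (tlo G T hm) (B z) v := by
      rw [e1]
      ext a
      rw [mem_msC]
      unfold msd pcs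
      rw [mem_filter]
      refine ⟨fun q => ⟨q.1, fun q2 => ?_, q.2⟩, fun q => ⟨q.1, q.2.2⟩⟩
      exact disjoint_left.1 hdis (hNH v hv).1 (q2 ▸ (mem_sdiff.1 q.1).1)
    rw [hpcz, e2]
  have h5 := two_nxk (G := G) (cz G Z T hm z) (hz G Z T hm z) (tlo G T hm) (B z) y
  have h6 : 2 * ∑ v ∈ (pcz (tlo G T hm) y (pkf (B z) (Ps z))).image Prod.fst,
      (((msC G (cz G Z T hm z) v).card - 1
        - dg G ((pcz (tlo G T hm) y (pkf (B z) (Ps z))).image Prod.fst) v : ℕ) : ℤ)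
      + 2 * ∑ v ∈ nez G (cz G Z T hm z) (hz G Z T hm z) (tlo G T hm) (B z) y,
      ((msC G (cz G Z T hm z \ (pcz (tlo G T hm) y (pkf (B z) (Ps z))).image Prod.snd) v).card : ℤ)
      - E G (nez G (cz G Z T hm z) (hz G Z T hm z) (tlo G T hm) (B z) y)
      = 2 * (nxk G (cz G Z T hm z) (hz G Z T hm z) (tlo G T hm) (B z) y
        + pfw G (cz G Z T hm z) (tlo G T hm) (B z) y) := by
    rw [h3, h4]
    linarith
  have h7 := h2
  rw [← h6]
  exact h7

end PayI

end Pool.Agent.Lib.MP_f04ccf_co
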