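import Pool.Agent.Lib.MP_f04ccf_co.M.NuI
import Pool.Agent.Lib.MP_f04ccf_co.M.PayI
import Pool.Agent.Lib.MP_f04ccf_co.M.NCell

/-!
MP_f04ccf_co, PLAN W, finite part, version [C]: homes of least weight and packings with the most PC
pairs (`PkOpt`), so no N-ends.  The N-excess of one cell in the whole frame:
`nxw x z` twice the excess of the PC pairs of the host `x` with tail `z`, `fcw x z` the free class edges
in the rectangles of the PC members of the cell.
`WHom.pairFc`: hits of both hosts and `fcw` are at most `EI`; `WHom.cellPc`: property (P) on the cell;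
`WCoreK.fcw_ge`: the rectangle of one PC member; `PkOpt.energyW`: the energy with `nxw`.
-/

set_option autoImplicit false

namespace Pool.Agent.Lib.MP_f04ccf_co

open Finset

attribute [local instance] Classical.propDecidable

section CellC

variable {V : Type*} {G : SimpleGraph V} {Z T : Finset V} {hm : V → V} {r m n p : ℕ}
  {φ : Finset (V × V) → Finset (Finset V) → ℕ}
  {B : V → Finset (V × V)} {Ps : V → Finset (Finset V)}

variable (G Z T hm) in
/-- the free class edges in the rectangles of the PC members of the cell `x z` -/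
noncomputable def fcw (B : V → Finset (V × V)) (x z : V) : ℤ :=
  ((fcl G (cz G Z T hm x) (cz G Z T hm z) (pcs (tlo G T hm) (B x) z)
    (pcs (tlo G T hm) (B z) x)).card : ℤ)

variable (G Z T hm) in
/-- twice the N-excess of the PC pairs of the host `x` with tail `z` -/
noncomputable def nxw (B : V → Finset (V × V)) (x z : V) : ℤ :=
  (nex G (cz G Z T hm x) (pcs (tlo G T hm) (B x) z) : ℤ)

lemma fcw_nonneg (B : V → Finset (V × V)) (x z : V) : 0 ≤ fcw G Z T hm B x z :=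
  Nat.cast_nonneg _

lemma nxw_nonneg (B : V → Finset (V × V)) (x z : V) : 0 ≤ nxw G Z T hm B x z :=
  Nat.cast_nonneg _

lemma fcw_comm (B : V → Finset (V × V)) (x z : V) :
    fcw G Z T hm B x z = fcw G Z T hm B z x := by
  unfold fcw
  rw [fcl_swap]

lemma nxw_zero {B : V → Finset (V × V)} {x z : V} (h : pcn (tlo G T hm) B x z = 0) :
    nxw G Z T hm B x z = 0 := by
  have h1 : pcs (tlo G T hm) (B x) z = ∅ := by
    have h2 : ((pcs (tlo G T hm) (B x) z).card : ℤ) = 0 := h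
    exact card_eq_zero.1 (by exact_mod_cast h2)
  unfold nxw
  rw [h1, nex_empty]
  rfl

/-- the PC pairs of the host `x` with tail `z` in the cell -/
lemma WHom.pcm (h : WHom G Z T r m n hm)
    (hB : ∀ x ∈ T, Pk G (cz G Z T hm x) (hz G Z T hm x) (tlo G T hm) (B x) (Ps x))
    {x z : V} (hx : x ∈ T) (hz' : z ∈ T) (hxz : x ≠ z) :
    PCm (Dbl G Z T x z) (msd G (cz G Z T hm x)) (pcs (tlo G T hm) (B x) z) := by
  have hD := h.csys.cellD h.F.toPFrame hx hz' hxz
  have hmem : ∀ e ∈ pcs (tlo G T hm) (B x) z, e.1 ∈ Dbl G Z T x z := fun e he =>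
    h.csys.mem_Dbl_of_tlo h.hh hx ((hB x hx).bH e (mem_pcs.1 he).1) (mem_pcs.1 he).2
  refine ⟨hmem, fun e he => ?_, fun e he f hf h1 => ?_, fun e he f hf h1 => ?_⟩
  · exact (hD.mem_msd (hmem e he)).2
      ⟨(hB x hx).bC e (mem_pcs.1 he).1, (hB x hx).bN e (mem_pcs.1 he).1⟩
  · exact (hB x hx).b1 e (mem_pcs.1 he).1 f (mem_pcs.1 hf).1 h1
  · exact (hB x hx).b2 e (mem_pcs.1 he).1 f (mem_pcs.1 hf).1 h1
      ((mem_pcs.1 he).2.trans (mem_pcs.1 hf).2.symm)

/-- the PC members of the two hosts of a cell are different -/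
lemma WHom.pcs_ne (h : WHom G Z T r m n hm)
    (hB : ∀ x ∈ T, Pk G (cz G Z T hm x) (hz G Z T hm x) (tlo G T hm) (B x) (Ps x))
    {x z : V} (hx : x ∈ T) (hz' : z ∈ T) (hxz : x ≠ z) :
    ∀ e ∈ pcs (tlo G T hm) (B x) z, ∀ f ∈ pcs (tlo G T hm) (B z) x, e.1 ≠ f.1 := by
  intro e he f hf hef
  have h1 := (mem_filter.1 (mem_HP.1 ((hB x hx).bH e (mem_pcs.1 he).1)).1).2
  have h2 := (mem_filter.1 (mem_HP.1 ((hB z hz').bH f (mem_pcs.1 hf).1)).1).2
  rw [hef, h2] at h1
  exact hxz h1.symm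

/-- **(pair) with the free class edges of the cell** -/
theorem WHom.pairFc (h : WHom G Z T r m n hm)
    (hB : ∀ x ∈ T, Pk G (cz G Z T hm x) (hz G Z T hm x) (tlo G T hm) (B x) (Ps x))
    {x z : V} (hx : x ∈ T) (hz' : z ∈ T) (hxz : x ≠ z) :
    ∑ u ∈ pkf (B x) (Ps x), iht G (cz G Z T hm) (tlo G T hm) z u
      + ∑ u ∈ pkf (B z) (Ps z), iht G (cz G Z T hm) (tlo G T hm) x u
      + fcw G Z T hm B x z ≤ EI G hm Z x z := by
  have hfam : ∀ x ∈ T, Fam (co G) (cz G Z T hm) (hz G Z T hm) (tlo G T hm) x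
      (pkf (B x) (Ps x)) := fun x hx => (hB x hx).fam (h.csys.dCH hx hx).symm
  have hpcz : ∀ y w : V, pcz (tlo G T hm) w (pkf (B y) (Ps y)) = pcs (tlo G T hm) (B y) w := by
    intro y w
    ext e
    rw [mem_pcz, inr_mem_pkf, mem_pcs]
  have hD := h.csys.cellD h.F.toPFrame hx hz' hxz
  have hK := h.pcm hB hx hz' hxz
  have hK' := h.pcm hB hz' hx hxz.symm
  have hsub : (pcs (tlo G T hm) (B x) z).image Prod.fst
      ∪ (pcs (tlo G T hm) (B z) x).image Prod.fst ⊆ Dbl G Z T x z := by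
    refine union_subset ?_ ?_
    · intro v hv
      obtain ⟨e, he, rfl⟩ := mem_image.1 hv
      exact hK.mem e he
    · intro v hv
      obtain ⟨e, he, rfl⟩ := mem_image.1 hv
      rw [Dbl_comm]
      exact hK'.mem e he
  have hX := fun c (hc : c ∈ fcl G (cz G Z T hm x) (cz G Z T hm z) (pcs (tlo G T hm) (B x) z)
      (pcs (tlo G T hm) (B z) x)) => hD.fcell_sub hsub hc
  have hraw := Fam.pair_raw h.wsysT hfam hx hz' hxz (empty_subset _) (empty_subset _)
    (fun v hv => absurd hv (notMem_empty v)) (fun v hv => absurd hv (notMem_empty v))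
    (X := fcl G (cz G Z T hm x) (cz G Z T hm z) (pcs (tlo G T hm) (B x) z)
      (pcs (tlo G T hm) (B z) x))
    (fun c hc => by
      obtain ⟨⟨h1, h2, h3⟩, -, -⟩ := hX c hc
      exact mem_filter.2 ⟨mem_product.2 ⟨h1, h2⟩, h3⟩)
    (fun c hc e he h1 => (hX c hc).2.1 (by
      rw [hpcz] at he
      rw [← h1]
      exact mem_image_of_mem _ he))
    (fun c hc e he h1 => (hX c hc).2.2 (by
      rw [hpcz] at he
      rw [← h1]
      exact mem_image_of_mem _ he))
  rw [sum_empty, sum_empty, hpcz, hpcz] at hraw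
  have h4 : EI G hm Z x z
      = ∑ v ∈ Z.filter (fun v => hm v = z), (dg G (Z.filter fun v => hm v = x) v : ℤ) := rfl
  have h5 := sum_dg_eds (G := G) (Z := Z) (T := T) (S := fun x => Z.filter fun v => hm v = x) x z
  have h6 : (eds G ((pcs (tlo G T hm) (B x) z).image Prod.fst)
      ((pcs (tlo G T hm) (B z) x).image Prod.fst)).card
      ≤ (eds G (hz G Z T hm x) (hz G Z T hm z)).card := by
    refine card_le_card (filter_subset_filter _ (product_subset_product ?_ ?_))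
    · intro v hv
      obtain ⟨e, he, rfl⟩ := mem_image.1 hv
      exact (hB x hx).bH e (mem_pcs.1 he).1
    · intro v hv
      obtain ⟨e, he, rfl⟩ := mem_image.1 hv
      exact (hB z hz').bH e (mem_pcs.1 he).1
  have h7 : ((eds G ((pcs (tlo G T hm) (B x) z).image Prod.fst)
      ((pcs (tlo G T hm) (B z) x).image Prod.fst)).card : ℤ)
      ≤ (eds G (hz G Z T hm x) (hz G Z T hm z)).card := by exact_mod_cast h6
  rw [h4, h5]
  unfold fcw
  linarith

/-- **property (P) on a cell with its PC members** -/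
theorem WHom.cellPc (h : WHom G Z T r m n hm)
    (hB : ∀ x ∈ T, Pk G (cz G Z T hm x) (hz G Z T hm x) (tlo G T hm) (B x) (Ps x))
    {x z : V} (hx : x ∈ T) (hz' : z ∈ T) (hxz : x ≠ z) :
    2 * ((pcn (tlo G T hm) B x z + pcn (tlo G T hm) B z x - 1) * ((r : ℤ) - 1))
      + 2 * fcw G Z T hm B x z
      ≤ 2 * (tI G Z T hm r Z x * tI G Z T hm r Z z)
        + (pcn (tlo G T hm) B x z + pcn (tlo G T hm) B z x)
          * (pcn (tlo G T hm) B x z + pcn (tlo G T hm) B z x - 1)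
        + nxw G Z T hm B x z + nxw G Z T hm B z x := by
  have hD := h.csys.cellD h.F.toPFrame hx hz' hxz
  have hK' := h.pcm hB hz' hx hxz.symm
  rw [Dbl_comm] at hK'
  exact hD.cell_P h.gp.P (h.csys.CP_clq h.F.toPFrame hx) (h.csys.CP_clq h.F.toPFrame hz')
    (h.wsysT.dCC x hx z hz' hxz) (h.pcm hB hx hz' hxz) hK' (h.pcs_ne hB hx hz' hxz)

/-- the free arcs of a PC member in the form `msd` -/
lemma WHom.frC_msd (h : WHom G Z T r m n hm)
    (hB : ∀ x ∈ T, Pk G (cz G Z T hm x) (hz G Z T hm x) (tlo G T hm) (B x) (Ps x))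
    {x z : V} (hx : x ∈ T) {e : V × V} (he : e ∈ pcs (tlo G T hm) (B x) z) :
    frC G (cz G Z T hm x) (tlo G T hm) (B x) e.1
      = msd G (cz G Z T hm x \ (pcs (tlo G T hm) (B x) z).image Prod.snd) e.1 := by
  obtain ⟨h1, h2⟩ := mem_pcs.1 he
  rw [frC_eq fun h7 => disjoint_left.1 (h.csys.dCH hx hx) h7 ((hB x hx).bH e h1), h2]
  rfl

/-- **the rectangle of a PC member** -/
theorem WCoreK.fcw_ge (hp : 2 * r ≤ p) (h : WCoreK G Z T r m n p hm)
    (hB : ∀ x ∈ T, Pk G (cz G Z T hm x) (hz G Z T hm x) (tlo G T hm) (B x) (Ps x))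
    {x z : V} (hx : x ∈ T) (hz' : z ∈ T) (hxz : x ≠ z) {e : V × V}
    (he : e ∈ pcs (tlo G T hm) (B x) z) :
    ((frC G (cz G Z T hm x) (tlo G T hm) (B x) e.1).card : ℤ)
        * ((frC G (cz G Z T hm x) (tlo G T hm) (B x) e.1).card + 1 - pcn (tlo G T hm) B z x)
      ≤ fcw G Z T hm B x z := by
  have hD := h.csys.cellD h.F.toPFrame hx hz' hxz
  have h1 := fcl_ge' (K' := pcs (tlo G T hm) (B z) x) hD (h.toWHom.pcm hB hx hz' hxz)
    (fun f hf => h.msd_le hp hx ((hB x hx).bH f (mem_pcs.1 hf).1) (mem_pcs.1 hf).2) he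
  rw [← h.toWHom.frC_msd hB hx he] at h1
  obtain ⟨f, hf⟩ : ∃ f, f = (frC G (cz G Z T hm x) (tlo G T hm) (B x) e.1).card := ⟨_, rfl⟩
  obtain ⟨k, hk⟩ : ∃ k, k = (pcs (tlo G T hm) (B z) x).card := ⟨_, rfl⟩
  have h2 : pcn (tlo G T hm) B z x = (k : ℤ) := by rw [hk]; rfl
  rw [← hf, ← hk] at h1
  rw [h2, ← hf]
  unfold fcw
  have h3 : ((f * (f + 1 - k) : ℕ) : ℤ) ≤ ((fcl G (cz G Z T hm x) (cz G Z T hm z)
      (pcs (tlo G T hm) (B x) z) (pcs (tlo G T hm) (B z) x)).card : ℤ) := by exact_mod_cast h1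
  refine le_trans ?_ h3
  rw [Nat.cast_mul]
  refine mul_le_mul_of_nonneg_left ?_ (Nat.cast_nonneg _)
  omega

/-- the excess of a cell by the free arcs -/
lemma WHom.nxw_le (h : WHom G Z T r m n hm)
    (hB : ∀ x ∈ T, Pk G (cz G Z T hm x) (hz G Z T hm x) (tlo G T hm) (B x) (Ps x))
    {x : V} (z : V) (hx : x ∈ T) :
    nxw G Z T hm B x z ≤ pcn (tlo G T hm) B x z * (pcn (tlo G T hm) B x z + 1)
      + 2 * ∑ e ∈ pcs (tlo G T hm) (B x) z,
        ((frC G (cz G Z T hm x) (tlo G T hm) (B x) e.1).card : ℤ) := by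
  have h1 := nex_le_free (G := G) (cz G Z T hm x) (pcs (tlo G T hm) (B x) z)
  have h2 : ∑ e ∈ pcs (tlo G T hm) (B x) z,
      (msd G (cz G Z T hm x \ (pcs (tlo G T hm) (B x) z).image Prod.snd) e.1).card
      = ∑ e ∈ pcs (tlo G T hm) (B x) z, (frC G (cz G Z T hm x) (tlo G T hm) (B x) e.1).card :=
    sum_congr rfl fun e he => by rw [h.frC_msd hB hx he]
  rw [h2] at h1
  unfold nxw pcn
  zify at h1
  nlinarith

/-- **the energy of an optimal packing with `nxw`** -/
theorem PkOpt.energyW (h : WHom G Z T r m n hm) {x : V} (hx : x ∈ T)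
    (hB : ∀ x ∈ T, PkOpt G (cz G Z T hm x) (hz G Z T hm x) (tlo G T hm) φ (B x) (Ps x)) :
    2 * eI G hm Z x + (∑ u ∈ pkf (B x) (Ps x), (ivl u : ℤ))
        * (∑ u ∈ pkf (B x) (Ps x), (ivl u : ℤ) + 1)
      ≤ 2 * ((∑ u ∈ pkf (B x) (Ps x), (ivl u : ℤ)) * hI G Z T hm Z x)
        + ∑ z ∈ T.erase x, nxw G Z T hm B x z := by
  have h1 := PkOpt.energyF h.F.toPFrame h.hh h.csys h.ht hx (hB x hx)
  have h2 := h.Nb_eq hx (hB x hx).toPk
  have h3 : ∑ z ∈ T.erase x, (2 * pcn (tlo G T hm) B x z + bth G (tlo G T hm) B x z)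
      + 2 * ∑ z ∈ T.erase x, (farc G (cz G Z T hm x)
        ((hz G Z T hm x).filter fun v => tlo G T hm v = z)
        ((B x).filter fun e => tlo G T hm e.1 = z) : ℤ)
      ≤ ∑ z ∈ T.erase x, nxw G Z T hm B x z := by
    rw [mul_sum, ← sum_add_distrib]
    refine sum_le_sum fun z hz' => ?_
    have h4 : (farc G (cz G Z T hm x) ((hz G Z T hm x).filter fun v => tlo G T hm v = z)
        ((B x).filter fun e => tlo G T hm e.1 = z) : ℤ)
        = ∑ e ∈ pcs (tlo G T hm) (B x) z,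
          ((msd G (cz G Z T hm x \ (pcs (tlo G T hm) (B x) z).image Prod.snd) e.1).card : ℤ) := by
      rw [((hB x hx).pcx (h.csys.dCH hx hx).symm z).farc_eq, Nat.cast_sum]
      rfl
    have h5 : bothB G (tlo G T hm) (pcs (tlo G T hm) (B x) z)
        ≤ both2 G (pcs (tlo G T hm) (B x) z) := by
      refine card_le_card fun q hq => ?_
      obtain ⟨h6, h7, -, h8⟩ := mem_filter.1 hq
      exact mem_filter.2 ⟨h6, h7, h8⟩
    have h6 : (bothB G (tlo G T hm) (pcs (tlo G T hm) (B x) z) : ℤ)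
        ≤ (both2 G (pcs (tlo G T hm) (B x) z) : ℤ) := by exact_mod_cast h5
    rw [h4]
    unfold nxw nex pcn bth
    push_cast
    linarith
  linarith

end CellC

end Pool.Agent.Lib.MP_f04ccf_co
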