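import Pool.Agent.Lib.MP_f04ccf_co.M.CellCPB

/-! The one cell claim (no credit) of regime L with concentrated packings. -/

set_option autoImplicit false

namespace Pool.Agent.Lib.MP_f04ccf_co.CellCP

/-- **The one cell claim without credit**, rows at most `3 R / 7`, `R ≥ 90` (regime L, concentrated
packings). Row with `A = t_z + 1`, cell of `y` with `B = t_y + 1`, content `p` (of which `k` served), all other
hosted units `H`; (T), cap, (D) = thirds out, (K) = thirds kept; (F2) fails: LEMMA N holds at some `q` with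
`E ≤ q ≤ E + 1`, `E = (d + A / R) (A + X) / X`. Then `c p < (d + A / R) (A + B)`. -/
theorem cell_cp37 {R A B d H p k q : ℝ} (hR : 90 ≤ R) (hA1 : 1 ≤ A) (hA : 7 * A ≤ 3 * R) (hB1 : 2 ≤ B)
    (hB : 7 * B ≤ 3 * R) (hd : 1 ≤ d) (hdA : d ≤ A) (hH : 0 ≤ H) (hm : A + B + H ≤ R)
    (hk : 0 ≤ k) (hkp : k ≤ p) (hpB : p ≤ B)
    (hT : (R - A) * H ≤ (R - H) * d)
    (hcap : p * (R - p) ≤ R + (A - 1) * (B - 1))
    (hD : (R - A) * p + p * (d + H - p) + k * (d + H - 1) ≤ (B - 1) * (d + H) + (R - B + 1))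
    (hK : (R - A) * p + (B - 1 - A) * H + (p + H) * (d - p) + k * (d - H - 1)
      ≤ (B - 1) * d + (R - B + 1))
    (hq1 : (R * d + A) * (7 * A + 3 * R) ≤ 3 * R ^ 2 * q)
    (hq2 : 3 * R ^ 2 * (q - 1) ≤ (R * d + A) * (7 * A + 3 * R))
    (hq : (R - 2 * q) * (q - d) ≤ A * q) :
    R * ((R - A) * p) < (R * d + A) * (A + B) := by
  by_contra hcon
  push Not at hcon
  have hR0 : 0 < R := by linarith
  have hd0 : 0 < d := by linarith
  have hRd : 0 < R * d := mul_pos hR0 hd0
  have hB0 : 0 < B := by linarith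
  have hA0 : 0 < A := by linarith
  have hp0 : 0 ≤ p := hk.trans hkp
  obtain ⟨a, rfl⟩ : ∃ a, A = a * R := ⟨A / R, by field_simp⟩
  obtain ⟨y, rfl⟩ : ∃ y, B = y * R := ⟨B / R, by field_simp⟩
  obtain ⟨D, rfl⟩ : ∃ D, d = D * R := ⟨d / R, by field_simp⟩
  have hD0 : 0 < D := (mul_pos_iff_of_pos_right hR0).1 hd0
  obtain ⟨w, hw⟩ : ∃ w, D * w * R = 1 := ⟨1 / (D * R), by field_simp⟩
  have hw0 : 0 < w := by
    have h1 : 0 < w * (D * R) := by linarith
    exact (mul_pos_iff_of_pos_right hd0).1 h1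
  obtain ⟨h, rfl⟩ : ∃ h, H = h * (D * R) := ⟨H / (D * R), by field_simp⟩
  obtain ⟨n, rfl⟩ : ∃ n, p = n * (D * R) := ⟨p / (D * R), by field_simp⟩
  obtain ⟨κ, rfl⟩ : ∃ κ, k = κ * (D * R) := ⟨k / (D * R), by field_simp⟩
  have ha0 : 0 < a := (mul_pos_iff_of_pos_right hR0).1 hA0
  have hy0 : 0 < y := (mul_pos_iff_of_pos_right hR0).1 hB0
  have hh0 : 0 ≤ h := (mul_nonneg_iff_of_pos_right hd0).1 hH
  have hκ0 : 0 ≤ κ := (mul_nonneg_iff_of_pos_right hd0).1 hk
  have hn0 : 0 ≤ n := (mul_nonneg_iff_of_pos_right hd0).1 hp0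
  have ha : 7 * a ≤ 3 := by
    have h1 : (7 * a) * R ≤ 3 * R := by linarith
    exact le_of_mul_le_mul_right h1 hR0
  have hy : 7 * y ≤ 3 := by
    have h1 : (7 * y) * R ≤ 3 * R := by linarith
    exact le_of_mul_le_mul_right h1 hR0
  have hDa : D ≤ a := le_of_mul_le_mul_right hdA hR0
  -- division by positive numbers
  have dv : ∀ {x m : ℝ}, 0 < m → 0 ≤ x * m → 0 ≤ x := fun hm h => (mul_nonneg_iff_of_pos_right hm).1 h
  have hDR : D * R * w = 1 := by linarith
  have hw1 : w ≤ 1 := by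
    have h1 : 0 ≤ (1 - w) * (D * R) := by linarith
    linarith [dv hd0 h1]
  have hT' : 0 ≤ 1 - D * h - (1 - a) * h := by
    apply dv (mul_pos hR0 hd0)
    linarith
  have hh2 : h ≤ 2 := by
    have h1 : (1 - a) * h ≤ 1 := by linarith [mul_nonneg hD0.le hh0]
    have h2 : (4 / 7 : ℝ) * h ≤ (1 - a) * h := mul_le_mul_of_nonneg_right (by linarith) hh0
    linarith
  -- the constraints of the boxes
  have c1 : 0 ≤ (y - D * w) * (1 + h) + (1 - y + D * w) * w
      - ((1 - a) * n + D * (n * (1 + h - n)) + D * (κ * (1 + h - w))) := by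
    apply dv (mul_pos hR0 hd0)
    have e1 : ((y - D * w) * (1 + h) + (1 - y + D * w) * w
      - ((1 - a) * n + D * (n * (1 + h - n)) + D * (κ * (1 + h - w)))) * (R * (D * R))
      = (y * R - D * w * R) * (D * R + h * (D * R)) + (D * w * R) * (R - y * R + D * w * R)
        - ((R - a * R) * (n * (D * R)) + n * (D * R) * (D * R + h * (D * R) - n * (D * R))
          + κ * (D * R) * (D * R + h * (D * R) - D * w * R)) := by ring
    rw [e1, hw]
    linarith
  have c2 : 0 ≤ (y - D * w) + (1 - y + D * w) * w + a * h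
      - ((1 - a) * n + (y - D * w) * h + D * ((n + h) * (1 - n)) + D * (κ * (1 - h - w))) := by
    apply dv (mul_pos hR0 hd0)
    have e1 : ((y - D * w) + (1 - y + D * w) * w + a * h
      - ((1 - a) * n + (y - D * w) * h + D * ((n + h) * (1 - n)) + D * (κ * (1 - h - w))))
        * (R * (D * R))
      = (y * R - D * w * R) * (D * R) + (D * w * R) * (R - y * R + D * w * R)
        - ((R - a * R) * (n * (D * R)) + (y * R - D * w * R - a * R) * (h * (D * R))
          + (n * (D * R) + h * (D * R)) * (D * R - n * (D * R))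
          + κ * (D * R) * (D * R - h * (D * R) - D * w * R)) := by ring
    rw [e1, hw]
    linarith
  have c4 : 0 ≤ D * w + (a - D * w) * (y - D * w) - D * (n * (1 - D * n)) := by
    apply dv (mul_pos hR0 hR0)
    have e1 : (D * w + (a - D * w) * (y - D * w) - D * (n * (1 - D * n))) * (R * R)
      = D * w * R * R + (a * R - D * w * R) * (y * R - D * w * R)
        - n * (D * R) * (R - n * (D * R)) := by ring
    rw [e1, hw]
    linarith
  have c5 : 0 ≤ (1 - a) * n - (1 + a * w) * (a + y) := by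
    apply dv (mul_pos hR0 (mul_pos hR0 hd0))
    have e1 : ((1 - a) * n - (1 + a * w) * (a + y)) * (R * (R * (D * R)))
      = R * ((R - a * R) * (n * (D * R))) - (R * (D * R) + (D * w * R) * (a * R)) * (a * R + y * R) := by
      ring
    rw [e1, hw]
    linarith
  have c7 : 0 ≤ n - κ := by
    apply dv hd0
    linarith
  have c8 : 0 ≤ y - D * n := by
    apply dv hR0
    linarith
  have c9 : 0 ≤ y - 2 * (D * w) := by
    apply dv hR0
    linarith
  have c10 : 0 ≤ a - D * w := by
    apply dv hR0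
    linarith
  have c11 : 0 ≤ 1 - 90 * (D * w) := by
    apply dv hR0
    linarith
  have c12 : 0 ≤ 1 - a - y - D * h := by
    apply dv hR0
    linarith
  have hn16 : n ≤ 16 := by
    -- `n (c - D n) ≤ (y - e) (1 + h) + w (1 - y + e)`
    have h1 : 0 ≤ D * (κ * (1 + h - w)) := mul_nonneg hD0.le (mul_nonneg hκ0 (by linarith))
    have h2 : 0 ≤ D * (n * (1 + h)) := mul_nonneg hD0.le (mul_nonneg hn0 (by linarith))
    have h3 : (y - D * w) * (1 + h) ≤ (3 / 7) * 3 := by
      have h4 : 0 ≤ D * w := mul_nonneg hD0.le hw0.le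
      have h5 : (y - D * w) * (1 + h) ≤ (3 / 7) * (1 + h) :=
        mul_le_mul_of_nonneg_right (by linarith) (by linarith)
      linarith
    have h6 : (1 - y + D * w) * w ≤ 1 := by
      have h4 : 0 ≤ D * w := mul_nonneg hD0.le hw0.le
      have h7 : 1 - y + D * w ≤ 1 := by linarith
      have h8 : 0 ≤ 1 - y + D * w := by linarith
      calc (1 - y + D * w) * w ≤ 1 * 1 := mul_le_mul h7 hw1 hw0.le (by norm_num)
        _ = 1 := by norm_num
    have h9 : (1 / 7 : ℝ) * n ≤ (1 - a - D * n) * n := by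
      apply mul_le_mul_of_nonneg_right _ hn0
      linarith
    nlinarith
  have hV : 0 < 7 * a + 3 := by linarith
  by_cases hE : 4 * q ≤ R - a * R + 2 * (D * R)
  · -- LEMMA N holds at `E`
    set U : ℝ := (1 + a * w) * (7 * a + 3) with hU
    have hUR : (R * (D * R) + a * R) * (7 * (a * R) + 3 * R) = R ^ 2 * (D * R * U) := by
      have e1 : R ^ 2 * (D * R * U) = (R * (D * R) + (D * w * R) * (a * R))
          * (7 * (a * R) + 3 * R) := by rw [hU]; ring
      rw [e1, hw]
      ring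
    have hq1' : D * R * U ≤ 3 * q := by
      have h1 : R ^ 2 * (D * R * U) ≤ R ^ 2 * (3 * q) := by
        rw [← hUR]
        linarith
      exact le_of_mul_le_mul_left h1 (by positivity)
    -- with `E = D R U / xn`
    set E : ℝ := D * R * U / 3 with hEdef
    have hEq : E ≤ q := by
      rw [hEdef, div_le_iff₀ (by norm_num)]
      linarith
    have hphi : (R - 2 * E) * (E - D * R) ≤ a * R * E := by
      have h1 : (R - 2 * q) * (q - D * R) - a * R * q - ((R - 2 * E) * (E - D * R) - a * R * E)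
          = (q - E) * (R - 2 * (q + E) + 2 * (D * R) - a * R) := by ring
      have h2 : 0 ≤ (q - E) * (R - 2 * (q + E) + 2 * (D * R) - a * R) :=
        mul_nonneg (by linarith) (by linarith)
      linarith
    have c6 : 0 ≤ 3 * U - (3 - 2 * (D * U)) * (7 + w * (7 * a + 3)) := by
      apply dv (mul_pos (mul_pos hR0 hd0) ha0)
      have e1 : E = U / 3 * (D * R) := by rw [hEdef]; ring
      have e2 : (3 * U - (3 - 2 * (D * U)) * (7 + w * (7 * a + 3))) * (R * (D * R) * a)
          = 9 * (a * R * (U / 3 * (D * R)) - (R - 2 * (U / 3 * (D * R)))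
            * (U / 3 * (D * R) - D * R)) := by
        rw [hU]
        ring
      rw [e2, ← e1]
      linarith
    exact CellCPB.A1.no a y D h w n κ ha0.le (by linarith) hy0.le (by linarith) hD0.le hh0 hh2
      hw0.le hw1 hn16 hκ0 c1 c2 hT' c4 c5 c6 c7 c8 c9 c10 c11 c12 (by linarith)
  · push Not at hE
    have c6 : 0 ≤ 4 * (D * ((1 + a * w) * (7 * a + 3))) + 12 * (D * w) - 3 * (1 - a) - 6 * D := by
      apply dv (mul_pos hR0 (mul_pos hR0 hR0))
      have e1 : (4 * (D * ((1 + a * w) * (7 * a + 3))) + 12 * (D * w) - 3 * (1 - a) - 6 * D)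
          * (R * (R * R))
          = 4 * ((R * (D * R) + (D * w * R) * (a * R)) * (7 * (a * R) + 3 * R))
            + 12 * (D * w * R) * R ^ 2 - 3 * R ^ 2 * (R - a * R) - 6 * R ^ 2 * (D * R) := by ring
      rw [e1, hw]
      have h1 : 0 ≤ 3 * R ^ 2 * (4 * q - (R - a * R + 2 * (D * R))) :=
        mul_nonneg (by positivity) (by linarith)
      linarith
    exact CellCPB.A2.no a y D h w n κ ha0.le (by linarith) hy0.le (by linarith) hD0.le hh0 hh2
      hw0.le hw1 hn16 hκ0 c1 c2 hT' c4 c5 c6 c7 c8 c9 c10 c11 c12 (by linarith)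

/-- **The one cell claim without credit**, rows at most `2 R / 5`, `R ≥ 60` (regime L, concentrated
packings). Row with `A = t_z + 1`, cell of `y` with `B = t_y + 1`, content `p` (of which `k` served), all other
hosted units `H`; (T), cap, (D) = thirds out, (K) = thirds kept; (F2) fails: LEMMA N holds at some `q` with
`E ≤ q ≤ E + 1`, `E = (d + A / R) (A + X) / X`. Then `c p < (d + A / R) (A + B)`. -/
theorem cell_cp25 {R A B d H p k q : ℝ} (hR : 60 ≤ R) (hA1 : 1 ≤ A) (hA : 5 * A ≤ 2 * R) (hB1 : 2 ≤ B)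
    (hB : 5 * B ≤ 2 * R) (hd : 1 ≤ d) (hdA : d ≤ A) (hH : 0 ≤ H) (hm : A + B + H ≤ R)
    (hk : 0 ≤ k) (hkp : k ≤ p) (hpB : p ≤ B)
    (hT : (R - A) * H ≤ (R - H) * d)
    (hcap : p * (R - p) ≤ R + (A - 1) * (B - 1))
    (hD : (R - A) * p + p * (d + H - p) + k * (d + H - 1) ≤ (B - 1) * (d + H) + (R - B + 1))
    (hK : (R - A) * p + (B - 1 - A) * H + (p + H) * (d - p) + k * (d - H - 1)
      ≤ (B - 1) * d + (R - B + 1))
    (hq1 : (R * d + A) * (5 * A + 2 * R) ≤ 2 * R ^ 2 * q)
    (hq2 : 2 * R ^ 2 * (q - 1) ≤ (R * d + A) * (5 * A + 2 * R))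
    (hq : (R - 2 * q) * (q - d) ≤ A * q) :
    R * ((R - A) * p) < (R * d + A) * (A + B) := by
  by_contra hcon
  push Not at hcon
  have hR0 : 0 < R := by linarith
  have hd0 : 0 < d := by linarith
  have hRd : 0 < R * d := mul_pos hR0 hd0
  have hB0 : 0 < B := by linarith
  have hA0 : 0 < A := by linarith
  have hp0 : 0 ≤ p := hk.trans hkp
  obtain ⟨a, rfl⟩ : ∃ a, A = a * R := ⟨A / R, by field_simp⟩
  obtain ⟨y, rfl⟩ : ∃ y, B = y * R := ⟨B / R, by field_simp⟩
  obtain ⟨D, rfl⟩ : ∃ D, d = D * R := ⟨d / R, by field_simp⟩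
  have hD0 : 0 < D := (mul_pos_iff_of_pos_right hR0).1 hd0
  obtain ⟨w, hw⟩ : ∃ w, D * w * R = 1 := ⟨1 / (D * R), by field_simp⟩
  have hw0 : 0 < w := by
    have h1 : 0 < w * (D * R) := by linarith
    exact (mul_pos_iff_of_pos_right hd0).1 h1
  obtain ⟨h, rfl⟩ : ∃ h, H = h * (D * R) := ⟨H / (D * R), by field_simp⟩
  obtain ⟨n, rfl⟩ : ∃ n, p = n * (D * R) := ⟨p / (D * R), by field_simp⟩
  obtain ⟨κ, rfl⟩ : ∃ κ, k = κ * (D * R) := ⟨k / (D * R), by field_simp⟩
  have ha0 : 0 < a := (mul_pos_iff_of_pos_right hR0).1 hA0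
  have hy0 : 0 < y := (mul_pos_iff_of_pos_right hR0).1 hB0
  have hh0 : 0 ≤ h := (mul_nonneg_iff_of_pos_right hd0).1 hH
  have hκ0 : 0 ≤ κ := (mul_nonneg_iff_of_pos_right hd0).1 hk
  have hn0 : 0 ≤ n := (mul_nonneg_iff_of_pos_right hd0).1 hp0
  have ha : 5 * a ≤ 2 := by
    have h1 : (5 * a) * R ≤ 2 * R := by linarith
    exact le_of_mul_le_mul_right h1 hR0
  have hy : 5 * y ≤ 2 := by
    have h1 : (5 * y) * R ≤ 2 * R := by linarith
    exact le_of_mul_le_mul_right h1 hR0
  have hDa : D ≤ a := le_of_mul_le_mul_right hdA hR0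
  -- division by positive numbers
  have dv : ∀ {x m : ℝ}, 0 < m → 0 ≤ x * m → 0 ≤ x := fun hm h => (mul_nonneg_iff_of_pos_right hm).1 h
  have hDR : D * R * w = 1 := by linarith
  have hw1 : w ≤ 1 := by
    have h1 : 0 ≤ (1 - w) * (D * R) := by linarith
    linarith [dv hd0 h1]
  have hT' : 0 ≤ 1 - D * h - (1 - a) * h := by
    apply dv (mul_pos hR0 hd0)
    linarith
  have hh2 : h ≤ 2 := by
    have h1 : (1 - a) * h ≤ 1 := by linarith [mul_nonneg hD0.le hh0]
    have h2 : (4 / 7 : ℝ) * h ≤ (1 - a) * h := mul_le_mul_of_nonneg_right (by linarith) hh0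
    linarith
  -- the constraints of the boxes
  have c1 : 0 ≤ (y - D * w) * (1 + h) + (1 - y + D * w) * w
      - ((1 - a) * n + D * (n * (1 + h - n)) + D * (κ * (1 + h - w))) := by
    apply dv (mul_pos hR0 hd0)
    have e1 : ((y - D * w) * (1 + h) + (1 - y + D * w) * w
      - ((1 - a) * n + D * (n * (1 + h - n)) + D * (κ * (1 + h - w)))) * (R * (D * R))
      = (y * R - D * w * R) * (D * R + h * (D * R)) + (D * w * R) * (R - y * R + D * w * R)
        - ((R - a * R) * (n * (D * R)) + n * (D * R) * (D * R + h * (D * R) - n * (D * R))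
          + κ * (D * R) * (D * R + h * (D * R) - D * w * R)) := by ring
    rw [e1, hw]
    linarith
  have c2 : 0 ≤ (y - D * w) + (1 - y + D * w) * w + a * h
      - ((1 - a) * n + (y - D * w) * h + D * ((n + h) * (1 - n)) + D * (κ * (1 - h - w))) := by
    apply dv (mul_pos hR0 hd0)
    have e1 : ((y - D * w) + (1 - y + D * w) * w + a * h
      - ((1 - a) * n + (y - D * w) * h + D * ((n + h) * (1 - n)) + D * (κ * (1 - h - w))))
        * (R * (D * R))
      = (y * R - D * w * R) * (D * R) + (D * w * R) * (R - y * R + D * w * R)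
        - ((R - a * R) * (n * (D * R)) + (y * R - D * w * R - a * R) * (h * (D * R))
          + (n * (D * R) + h * (D * R)) * (D * R - n * (D * R))
          + κ * (D * R) * (D * R - h * (D * R) - D * w * R)) := by ring
    rw [e1, hw]
    linarith
  have c4 : 0 ≤ D * w + (a - D * w) * (y - D * w) - D * (n * (1 - D * n)) := by
    apply dv (mul_pos hR0 hR0)
    have e1 : (D * w + (a - D * w) * (y - D * w) - D * (n * (1 - D * n))) * (R * R)
      = D * w * R * R + (a * R - D * w * R) * (y * R - D * w * R)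
        - n * (D * R) * (R - n * (D * R)) := by ring
    rw [e1, hw]
    linarith
  have c5 : 0 ≤ (1 - a) * n - (1 + a * w) * (a + y) := by
    apply dv (mul_pos hR0 (mul_pos hR0 hd0))
    have e1 : ((1 - a) * n - (1 + a * w) * (a + y)) * (R * (R * (D * R)))
      = R * ((R - a * R) * (n * (D * R))) - (R * (D * R) + (D * w * R) * (a * R)) * (a * R + y * R) := by
      ring
    rw [e1, hw]
    linarith
  have c7 : 0 ≤ n - κ := by
    apply dv hd0
    linarith
  have c8 : 0 ≤ y - D * n := by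
    apply dv hR0
    linarith
  have c9 : 0 ≤ y - 2 * (D * w) := by
    apply dv hR0
    linarith
  have c10 : 0 ≤ a - D * w := by
    apply dv hR0
    linarith
  have c11 : 0 ≤ 1 - 60 * (D * w) := by
    apply dv hR0
    linarith
  have c12 : 0 ≤ 1 - a - y - D * h := by
    apply dv hR0
    linarith
  have hn16 : n ≤ 16 := by
    -- `n (c - D n) ≤ (y - e) (1 + h) + w (1 - y + e)`
    have h1 : 0 ≤ D * (κ * (1 + h - w)) := mul_nonneg hD0.le (mul_nonneg hκ0 (by linarith))
    have h2 : 0 ≤ D * (n * (1 + h)) := mul_nonneg hD0.le (mul_nonneg hn0 (by linarith))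
    have h3 : (y - D * w) * (1 + h) ≤ (3 / 7) * 3 := by
      have h4 : 0 ≤ D * w := mul_nonneg hD0.le hw0.le
      have h5 : (y - D * w) * (1 + h) ≤ (3 / 7) * (1 + h) :=
        mul_le_mul_of_nonneg_right (by linarith) (by linarith)
      linarith
    have h6 : (1 - y + D * w) * w ≤ 1 := by
      have h4 : 0 ≤ D * w := mul_nonneg hD0.le hw0.le
      have h7 : 1 - y + D * w ≤ 1 := by linarith
      have h8 : 0 ≤ 1 - y + D * w := by linarith
      calc (1 - y + D * w) * w ≤ 1 * 1 := mul_le_mul h7 hw1 hw0.le (by norm_num)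
        _ = 1 := by norm_num
    have h9 : (1 / 7 : ℝ) * n ≤ (1 - a - D * n) * n := by
      apply mul_le_mul_of_nonneg_right _ hn0
      linarith
    nlinarith
  have hV : 0 < 5 * a + 2 := by linarith
  by_cases hE : 4 * q ≤ R - a * R + 2 * (D * R)
  · -- LEMMA N holds at `E`
    set U : ℝ := (1 + a * w) * (5 * a + 2) with hU
    have hUR : (R * (D * R) + a * R) * (5 * (a * R) + 2 * R) = R ^ 2 * (D * R * U) := by
      have e1 : R ^ 2 * (D * R * U) = (R * (D * R) + (D * w * R) * (a * R))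
          * (5 * (a * R) + 2 * R) := by rw [hU]; ring
      rw [e1, hw]
      ring
    have hq1' : D * R * U ≤ 2 * q := by
      have h1 : R ^ 2 * (D * R * U) ≤ R ^ 2 * (2 * q) := by
        rw [← hUR]
        linarith
      exact le_of_mul_le_mul_left h1 (by positivity)
    -- with `E = D R U / xn`
    set E : ℝ := D * R * U / 2 with hEdef
    have hEq : E ≤ q := by
      rw [hEdef, div_le_iff₀ (by norm_num)]
      linarith
    have hphi : (R - 2 * E) * (E - D * R) ≤ a * R * E := by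
      have h1 : (R - 2 * q) * (q - D * R) - a * R * q - ((R - 2 * E) * (E - D * R) - a * R * E)
          = (q - E) * (R - 2 * (q + E) + 2 * (D * R) - a * R) := by ring
      have h2 : 0 ≤ (q - E) * (R - 2 * (q + E) + 2 * (D * R) - a * R) :=
        mul_nonneg (by linarith) (by linarith)
      linarith
    have c6 : 0 ≤ 2 * U - (2 - 2 * (D * U)) * (5 + w * (5 * a + 2)) := by
      apply dv (mul_pos (mul_pos hR0 hd0) ha0)
      have e1 : E = U / 2 * (D * R) := by rw [hEdef]; ring
      have e2 : (2 * U - (2 - 2 * (D * U)) * (5 + w * (5 * a + 2))) * (R * (D * R) * a)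
          = 4 * (a * R * (U / 2 * (D * R)) - (R - 2 * (U / 2 * (D * R)))
            * (U / 2 * (D * R) - D * R)) := by
        rw [hU]
        ring
      rw [e2, ← e1]
      linarith
    exact CellCPB.B1.no a y D h w n κ ha0.le (by linarith) hy0.le (by linarith) hD0.le hh0 hh2
      hw0.le hw1 hn16 hκ0 c1 c2 hT' c4 c5 c6 c7 c8 c9 c10 c11 c12 (by linarith)
  · push Not at hE
    have c6 : 0 ≤ 4 * (D * ((1 + a * w) * (5 * a + 2))) + 8 * (D * w) - 2 * (1 - a) - 4 * D := by
      apply dv (mul_pos hR0 (mul_pos hR0 hR0))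
      have e1 : (4 * (D * ((1 + a * w) * (5 * a + 2))) + 8 * (D * w) - 2 * (1 - a) - 4 * D)
          * (R * (R * R))
          = 4 * ((R * (D * R) + (D * w * R) * (a * R)) * (5 * (a * R) + 2 * R))
            + 8 * (D * w * R) * R ^ 2 - 2 * R ^ 2 * (R - a * R) - 4 * R ^ 2 * (D * R) := by ring
      rw [e1, hw]
      have h1 : 0 ≤ 2 * R ^ 2 * (4 * q - (R - a * R + 2 * (D * R))) :=
        mul_nonneg (by positivity) (by linarith)
      linarith
    exact CellCPB.B2.no a y D h w n κ ha0.le (by linarith) hy0.le (by linarith) hD0.le hh0 hh2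
      hw0.le hw1 hn16 hκ0 c1 c2 hT' c4 c5 c6 c7 c8 c9 c10 c11 c12 (by linarith)

end Pool.Agent.Lib.MP_f04ccf_co.CellCP
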