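import Pool.Agent.Lib.MP_f04ccf_co.M.BernL

/-! The one cell claim (no credit) of regime L with concentrated packings: boxes by the kernel. -/

set_option autoImplicit false
set_option maxRecDepth 100000

namespace Pool.Agent.Lib.MP_f04ccf_co.CellCPB

open BernK BernK.Ex BernL BernL.Tr

namespace A1

def c : Ex := (sub (con 1) (var 0))
def e : Ex := (mul (var 2) (var 4))
def U : Ex := (mul (add (con 1) (mul (var 0) (var 4))) (add (mul (con 7) (var 0)) (con 3)))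
def gD : Ex := (sub (add (mul (sub (var 1) e) (add (con 1) (var 3))) (mul (add (sub (con 1) (var 1)) e) (var 4))) (add (add (mul c (var 5)) (mul (var 2) (mul (var 5) (sub (add (con 1) (var 3)) (var 5))))) (mul (var 2) (mul (var 6) (sub (add (con 1) (var 3)) (var 4))))))
def gK : Ex := (sub (add (add (sub (var 1) e) (mul (add (sub (con 1) (var 1)) e) (var 4))) (mul (var 0) (var 3))) (add (add (add (mul c (var 5)) (mul (sub (var 1) e) (var 3))) (mul (var 2) (mul (add (var 5) (var 3)) (sub (con 1) (var 5))))) (mul (var 2) (mul (var 6) (sub (sub (con 1) (var 3)) (var 4))))))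
def gT : Ex := (sub (sub (con 1) (mul (var 2) (var 3))) (mul c (var 3)))
def gC : Ex := (sub (add e (mul (sub (var 0) e) (sub (var 1) e))) (mul (var 2) (mul (var 5) (sub (con 1) (mul (var 2) (var 5))))))
def gF : Ex := (sub (mul c (var 5)) (mul (add (con 1) (mul (var 0) (var 4))) (add (var 0) (var 1))))
def gF2 : Ex := (sub (mul (con 3) U) (mul (sub (con 3) (mul (con 2) (mul (var 2) U))) (add (con 7) (mul (var 4) (add (mul (con 7) (var 0)) (con 3))))))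
def gk : Ex := (sub (var 5) (var 6))
def gp : Ex := (sub (var 1) (mul (var 2) (var 5)))
def gB : Ex := (sub (var 1) (mul (con 2) e))
def gA : Ex := (sub (var 0) e)
def gR : Ex := (sub (con 1) (mul (con 90) e))
def gm : Ex := (sub (sub (sub (con 1) (var 0)) (var 1)) (mul (var 2) (var 3)))
def gda : Ex := (sub (var 0) (var 2))
def mo : Ex := (mul (mul (mul (mul (mul (mul (mul (mul (mul (mul (mul (var 0) (var 0)) (var 0)) (var 1)) (var 2)) (var 2)) (var 3)) (var 4)) (var 4)) (var 5)) (var 5)) (var 6))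

def tr : BernL.Tr := (split 4 (split 4 (split 6 (split 1 (split 5 (split 6 (split 5 (split 5 (split 2 (split 3 (split 0 (split 4 (lin [2341, 2341, 0, 8192, 4681, 73, 0, 0, 0, 0, 182, 0, 845]) (lin [0, 0, 0, 0, 0, 1, 0, 0, 0, 0, 8])) (split 2 (lin [106, 34, 0, 0, 128, 3, 0, 0, 0, 0, 7]) (lin [26, 36, 0, 128, 65, 0, 0, 0, 0, 0, 5]))) (split 0 (split 2 (neg 5) (lin [25, 55, 10, 256, 90, 1, 0, 0, 0, 0, 8])) (split 2 (split 5 (lin [83, 29, 23, 0, 128, 3, 0, 0, 0, 0, 4]) (lin [32, 0, 4, 0, 26, 1, 0, 0, 0, 0, 1])) (split 0 (lin [29, 32, 8, 128, 66, 0, 0, 0, 0, 0, 5]) (lin [12, 4, 3, 10, 16, 0, 0, 0, 0, 0, 1]))))) (split 0 (lin [0, 0, 0, 128, 22, 0, 0, 7, 0, 0, 1, 0, 71]) (split 2 (lin [3, 7, 1, 256, 55, 0, 0, 29, 0, 0, 2]) (lin [0, 0, 0, 0, 13, 0, 0, 32, 0, 0, 0, 0, 13])))) (split 2 (lin [10, 7, 0, 0, 0, 0, 0, 16, 0, 0, 1]) (neg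 7))) (lin [5, 0, 0, 0, 0, 0, 0, 32])) (lin [146, 0, 55, 0, 0, 7, 84, 1024, 0, 0, 16])) (lin [3, 0, 0, 0, 0, 3, 0, 64])) (split 3 (split 0 (split 0 (lin [0, 0, 0, 0, 0, 1, 0, 0, 0, 0, 0, 0, 64]) (split 4 (split 5 (split 6 (split 5 (split 2 (split 5 (split 2 (neg 5) (lin [145, 261, 0, 1024, 453, 1, 0, 0, 0, 0, 14, 0, 33])) (neg 0)) (split 1 (split 2 (split 3 (split 0 (neg 12) (split 1 (split 2 (split 3 (split 5 (lin [0, 0, 0, 32, 5, 0, 0, 0, 0, 0, 0, 0, 8]) (neg 7)) (split 5 (lin [0, 0, 0, 32, 5, 0, 0, 0, 0, 0, 0, 0, 8]) (neg 7))) (neg 12)) (split 2 (split 3 (split 5 (lin [0, 0, 0, 32, 5, 0, 0, 0, 0, 0, 0, 0, 6]) (neg 7)) (split 5 (lin [0, 0, 0, 32, 5, 0, 0, 0, 0, 0, 0, 0, 6]) (neg 7))) (neg 12)))) (split 0 (neg 12) (split 1 (split 2 (split 3 (split 5 (lin [0, 12, 0, 0, 7, 0, 0, 0, 0, 0, 0, 0, 64]) (neg 0)) (split 5 (lin [1,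 11, 0, 0, 5, 0, 0, 0, 0, 0, 0, 0, 32]) (neg 0))) (neg 12)) (split 2 (split 3 (split 5 (lin [0, 2, 0, 0, 1, 0, 0, 0, 0, 0, 0, 0, 8]) (neg 7)) (split 5 (lin [1, 11, 0, 0, 5, 0, 0, 0, 0, 0, 0, 0, 32]) (neg 0))) (neg 12))))) (neg 12)) (split 2 (split 3 (split 0 (neg 12) (split 1 (split 2 (split 3 (split 5 (lin [0, 0, 0, 32, 5, 0, 0, 0, 0, 0, 0, 0, 5]) (neg 7)) (split 5 (lin [0, 8, 0, 0, 5, 0, 0, 0, 0, 0, 0, 0, 32]) (neg 7))) (neg 12)) (split 2 (split 3 (split 5 (lin [0, 0, 0, 2048, 319, 0, 0, 0, 0, 0, 0, 0, 190]) (lin [0, 0, 0, 8, 0, 0, 0, 5])) (split 5 (lin [0, 17, 0, 0, 11, 0, 0, 0, 0, 0, 0, 0, 64]) (lin [0, 0, 0, 8, 0, 0, 0, 5]))) (neg 12)))) (split 0 (neg 12) (split 1 (split 2 (split 3 (split 5 (lin [0, 2, 0, 0, 1, 0, 0, 0, 0, 0, 0, 0, 8]) (neg 7)) (split 5 (lin [1, 11, 0, 0, 6, 0, 0, 0, 0, 0, 0, 0, 32]) (neg 0))) (neg 12))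 (split 2 (split 3 (split 5 (lin [0, 2, 0, 0, 1, 0, 0, 0, 0, 0, 0, 0, 8]) (lin [0, 0, 0, 8, 0, 0, 0, 5])) (split 5 (lin [0, 3, 0, 0, 1, 0, 0, 0, 0, 0, 0, 0, 8]) (lin [0, 0, 0, 8, 0, 0, 0, 5]))) (neg 12))))) (neg 12)))) (lin [4, 0, 0, 0, 0, 1, 0, 32])) (lin [36, 37, 0, 0, 0, 5, 58, 512, 0, 0, 5])) (lin [0, 0, 0, 0, 0, 1, 0, 8])) (lin [0, 0, 0, 0, 0, 1, 0, 0, 0, 0, 8]))) (split 5 (split 6 (split 1 (split 5 (split 5 (split 2 (split 2 (split 0 (lin [32, 47, 0, 0, 64, 2, 0, 0, 0, 0, 4]) (split 0 (lin [702, 489, 0, 0, 1024, 19, 0, 0, 0, 0, 44]) (lin [176, 109, 0, 0, 256, 3, 0, 0, 0, 0, 10]))) (lin [117, 143, 0, 512, 276, 0, 0, 0, 0, 0, 14])) (split 5 (lin [0, 0, 0, 64, 14, 0, 0, 0, 0, 0, 1]) (lin [0, 0, 0, 8, 0, 0, 0, 1]))) (split 2 (lin [62, 45, 0, 0, 0, 0, 0, 128, 0, 0, 3]) (neg 7))) (split 5 (lin [7, 7, 0, 0, 0, 0, 0, 64]) (lin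 [1, 0, 0, 0, 0, 0, 0, 8]))) (split 3 (split 0 (split 4 (split 5 (split 5 (split 2 (lin [778, 1557, 0, 4096, 2332, 6, 0, 0, 0, 0, 31]) (split 2 (split 5 (lin [0, 0, 0, 4, 1]) (neg 0)) (split 0 (neg 12) (split 1 (split 2 (split 3 (split 6 (split 0 (neg 12) (split 1 (split 2 (split 3 (split 4 (split 5 (lin [0, 0, 0, 4, 1, 0, 0, 0, 0, 0, 0, 0, 1]) (neg 0)) (neg 10)) (split 4 (split 5 (lin [0, 0, 0, 4, 1, 0, 0, 0, 0, 0, 0, 0, 1]) (neg 0)) (neg 10))) (neg 12)) (split 3 (split 4 (split 2 (split 5 (lin [0, 0, 0, 8, 3, 0, 0, 0, 0, 0, 0, 0, 2]) (neg 0)) (neg 12)) (neg 10)) (split 4 (split 5 (lin [0, 0, 0, 4, 1, 0, 0, 0, 0, 0, 0, 0, 1]) (neg 0)) (neg 10))))) (neg 0)) (split 6 (split 0 (neg 12) (split 1 (split 2 (split 3 (split 4 (split 5 (lin [0, 0, 0, 4, 1, 0, 0, 0, 0, 0, 0, 0, 1]) (neg 0)) (neg 10)) (split 4 (split 5 (lin [0, 0,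 0, 4, 1, 0, 0, 0, 0, 0, 0, 0, 1]) (neg 0)) (neg 10))) (neg 12)) (split 3 (split 4 (split 2 (split 5 (lin [0, 0, 0, 8, 3, 0, 0, 0, 0, 0, 0, 0, 2]) (neg 0)) (neg 12)) (neg 10)) (split 4 (split 2 (split 5 (lin [0, 0, 0, 8, 3, 0, 0, 0, 0, 0, 0, 0, 2]) (neg 0)) (neg 12)) (neg 10))))) (neg 0))) (neg 12)) (split 2 (split 3 (split 6 (split 0 (neg 12) (split 1 (split 2 (split 3 (split 4 (split 5 (lin [0, 0, 0, 0, 1, 0, 0, 0, 0, 0, 0, 0, 16]) (neg 0)) (neg 10)) (split 4 (split 5 (lin [0, 0, 0, 0, 1, 0, 0, 0, 0, 0, 0, 0, 16]) (neg 0)) (neg 10))) (neg 12)) (split 3 (split 4 (split 5 (lin [0, 0, 0, 4, 1, 0, 0, 0, 0, 0, 0, 0, 1]) (neg 0)) (neg 10)) (split 4 (split 5 (lin [0, 0, 0, 4, 1, 0, 0, 0, 0, 0, 0, 0, 1]) (neg 0)) (neg 10))))) (neg 0)) (split 6 (split 0 (neg 12) (split 1 (split 2 (split 3 (split 4 (split 5 (lin [0, 0, 0, 0, 1, 0,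 0, 0, 0, 0, 0, 0, 16]) (neg 0)) (neg 10)) (split 4 (split 5 (lin [0, 0, 0, 0, 1, 0, 0, 0, 0, 0, 0, 0, 16]) (neg 0)) (neg 10))) (neg 12)) (split 3 (split 4 (split 5 (lin [0, 0, 0, 4, 1, 0, 0, 0, 0, 0, 0, 0, 1]) (neg 0)) (neg 10)) (split 4 (split 5 (lin [0, 0, 0, 4, 1, 0, 0, 0, 0, 0, 0, 0, 1]) (neg 0)) (neg 10))))) (neg 0))) (neg 12)))))) (split 2 (lin [0, 11, 0, 0, 0, 0, 0, 16]) (lin [3, 0, 0, 0, 0, 0, 0, 8]))) (split 2 (lin [2, 2, 0, 0, 0, 1, 0, 32]) (neg 7))) (split 5 (split 5 (lin [1024, 3072, 0, 0, 4096, 171, 0, 0, 0, 0, 2017]) (split 2 (lin [8, 0, 0, 0, 0, 0, 0, 0, 0, 0, 3]) (neg 10))) (lin [13, 14, 0, 0, 0, 9, 0, 256, 0, 0, 6]))) (split 4 (split 5 (split 5 (split 2 (lin [2, 7, 0, 16, 9]) (split 5 (lin [0, 0, 0, 4, 1]) (lin [4, 4, 0, 0, 5, 0, 0, 8]))) (split 2 (split 2 (neg 0) (split 2 (lin [1, 0, 0, 8]) (lin [0, 0,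 0, 16, 0, 0, 0, 3]))) (lin [1, 0, 0, 0, 0, 0, 0, 4]))) (split 5 (split 2 (split 2 (lin [3, 0, 0, 0, 0, 0, 0, 8]) (lin [1, 0, 0, 0, 0, 0, 0, 8])) (neg 7)) (split 2 (lin [3, 2, 0, 0, 0, 0, 0, 32]) (neg 7)))) (split 5 (split 5 (split 2 (lin [0, 16, 0, 0, 16, 0, 0, 0, 0, 0, 3]) (neg 10)) (split 2 (split 2 (neg 0) (neg 10)) (neg 10))) (split 5 (split 2 (split 2 (lin [0, 9, 0, 0, 0, 0, 0, 32]) (neg 10)) (neg 7)) (split 2 (lin [5, 5, 0, 0, 0, 0, 0, 64]) (neg 7)))))) (split 0 (split 4 (split 5 (split 5 (split 2 (split 2 (lin [0, 4, 0, 0, 3]) (lin [1, 20, 0, 64, 23, 0, 0, 0, 0, 0, 1])) (split 2 (split 5 (lin [0, 8, 0, 0, 7]) (neg 0)) (split 0 (neg 12) (split 1 (split 2 (split 3 (split 6 (split 0 (neg 12) (split 1 (split 2 (split 3 (split 4 (split 5 (lin [0, 0, 0, 4, 1, 0, 0, 0, 0, 0, 0, 0, 1]) (neg 0)) (neg 10)) (split 4 (split 5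 (lin [0, 0, 0, 4, 1, 0, 0, 0, 0, 0, 0, 0, 1]) (neg 0)) (neg 10))) (neg 12)) (split 2 (split 3 (split 5 (lin [0, 0, 0, 8, 3, 0, 0, 0, 0, 0, 0, 0, 2]) (neg 0)) (split 4 (split 5 (lin [0, 4, 0, 0, 3]) (neg 0)) (neg 10))) (neg 12)))) (neg 0)) (split 6 (split 0 (neg 12) (split 1 (split 2 (split 3 (split 4 (split 5 (lin [0, 8, 0, 0, 5]) (neg 0)) (neg 10)) (split 4 (split 5 (lin [0, 8, 0, 0, 5]) (neg 0)) (neg 10))) (neg 12)) (split 2 (split 3 (split 4 (split 5 (lin [0, 8, 0, 0, 5]) (neg 0)) (neg 10)) (split 4 (split 5 (lin [0, 8, 0, 0, 5]) (neg 0)) (neg 10))) (neg 12)))) (neg 0))) (neg 12)) (split 2 (split 3 (split 6 (split 0 (neg 12) (split 1 (split 2 (split 3 (split 4 (split 5 (lin [0, 0, 0, 0, 1, 0, 0, 0, 0, 0, 0, 0, 16]) (neg 0)) (neg 10)) (split 4 (split 5 (lin [0, 0, 0, 0, 1, 0, 0, 0, 0, 0, 0, 0, 16]) (neg 0)) (neg 10)))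 (neg 12)) (split 3 (split 2 (split 4 (split 5 (lin [0, 0, 0, 0, 1, 0, 0, 0, 0, 0, 0, 0, 16]) (neg 0)) (neg 10)) (neg 12)) (split 2 (split 5 (lin [0, 0, 0, 0, 1, 0, 0, 0, 0, 0, 0, 0, 16]) (neg 0)) (neg 12))))) (neg 0)) (split 6 (split 0 (neg 12) (split 1 (split 2 (split 3 (split 4 (split 5 (lin [0, 8, 0, 0, 5]) (neg 0)) (neg 10)) (split 4 (split 5 (lin [0, 8, 0, 0, 5]) (neg 0)) (neg 10))) (neg 12)) (split 3 (split 4 (split 5 (lin [0, 8, 0, 0, 5]) (neg 0)) (neg 10)) (lin [0, 0, 0, 0, 0, 0, 0, 0, 0, 0, 0, 1, 2])))) (neg 0))) (neg 12)))))) (split 2 (lin [8, 0, 0, 0, 0, 0, 0, 5]) (lin [3, 0, 0, 0, 0, 0, 0, 8]))) (split 2 (lin [2, 2, 0, 0, 0, 1, 0, 32]) (neg 7))) (split 5 (split 0 (lin [0, 2, 0, 0, 0, 9, 0, 0, 0, 0, 64]) (split 5 (split 5 (lin [1, 7, 0, 0, 8]) (lin [1, 8, 0, 0, 0, 0, 0, 0, 0, 0, 1])) (split 2 (lin [4, 0, 0, 0,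 0, 0, 0, 0, 0, 0, 1]) (neg 10)))) (lin [107, 111, 0, 0, 0, 75, 0, 2048, 0, 0, 52]))) (split 4 (split 5 (split 5 (split 2 (split 2 (lin [1, 4, 0, 0, 4]) (split 2 (lin [3, 8, 0, 0, 7]) (split 0 (lin [12, 36, 0, 64, 39, 0, 0, 0, 0, 0, 1]) (lin [1577, 2270, 0, 8192, 4070, 0, 0, 0, 0, 0, 41, 1264])))) (split 5 (lin [0, 8, 0, 0, 7]) (lin [5, 5, 0, 0, 6, 0, 0, 8, 0, 0, 0, 3]))) (split 2 (split 2 (neg 0) (split 2 (lin [1, 0, 0, 8]) (lin [0, 0, 0, 16, 0, 0, 0, 3]))) (lin [3, 0, 0, 0, 0, 0, 0, 8]))) (split 5 (split 2 (split 2 (lin [3, 0, 0, 0, 0, 0, 0, 8]) (lin [1, 0, 0, 0, 0, 0, 0, 8])) (neg 7)) (split 2 (lin [11, 0, 0, 0, 0, 0, 0, 64]) (neg 7)))) (split 5 (split 5 (split 2 (split 2 (lin [2, 15, 0, 0, 16, 0, 0, 0, 0, 0, 2]) (neg 10)) (neg 10)) (split 2 (split 2 (neg 0) (neg 10)) (neg 10))) (split 5 (split 2 (split 2 (lin [3, 0, 0,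 0, 0, 0, 0, 8]) (neg 10)) (neg 7)) (split 2 (lin [182, 0, 0, 0, 0, 0, 0, 1024, 0, 0, 3]) (neg 7)))))))) (split 5 (lin [2, 3, 0, 0, 0, 0, 4, 16]) (split 5 (split 2 (lin [21, 19, 0, 0, 0, 0, 0, 128, 0, 0, 3]) (neg 7)) (split 2 (lin [6, 5, 0, 0, 0, 0, 0, 64, 0, 0, 1]) (neg 7))))) (split 5 (split 5 (lin [55, 55, 0, 0, 0, 6, 0, 1024]) (lin [3, 3, 0, 0, 0, 0, 0, 64])) (lin [5, 5, 0, 0, 0, 16, 0, 256])))) (split 0 (split 0 (lin [0, 0, 0, 0, 0, 1, 0, 0, 0, 0, 0, 0, 64]) (split 3 (split 5 (split 6 (split 5 (split 2 (split 5 (lin [195, 585, 104, 2048, 780, 17, 0, 0, 0, 0, 39]) (neg 0)) (split 1 (split 2 (split 0 (neg 2) (split 1 (split 2 (split 3 (split 4 (split 5 (lin [0, 17, 17, 0, 7, 0, 1, 0, 0, 0, 0, 0, 64]) (neg 0)) (neg 10)) (neg 2)) (neg 2)) (split 2 (split 3 (split 4 (split 5 (lin [0, 17, 18, 0, 7, 0, 1, 0, 0, 0, 0, 0, 64])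 (neg 0)) (neg 10)) (neg 2)) (neg 2)))) (neg 2)) (split 2 (split 0 (neg 2) (split 1 (split 2 (split 3 (split 4 (split 5 (lin [0, 5, 8, 0, 2]) (neg 0)) (neg 10)) (neg 2)) (neg 2)) (split 2 (split 3 (split 4 (split 5 (lin [0, 3, 8, 0, 1]) (neg 0)) (neg 10)) (neg 2)) (neg 2)))) (neg 2)))) (lin [4, 0, 0, 0, 0, 1, 0, 32])) (lin [11, 0, 6, 0, 0, 1, 8, 64, 0, 0, 1])) (lin [0, 0, 0, 0, 0, 1, 0, 8])) (neg 2))) (split 5 (split 6 (split 1 (split 5 (split 5 (split 2 (split 2 (split 3 (split 5 (lin [135, 115, 37, 0, 256, 5, 0, 0, 0, 0, 12]) (split 2 (lin [21, 17, 0, 0, 32, 1, 0, 0, 0, 0, 2]) (lin [10, 11, 0, 0, 16, 0, 0, 0, 0, 0, 1]))) (split 0 (neg 2) (split 0 (lin [0, 0, 64, 0, 0, 1]) (split 3 (split 6 (split 2 (split 5 (lin [13, 0, 7, 0, 32, 1]) (split 5 (lin [5250, 4055, 2663, 0, 8192, 235, 0, 0, 0, 0, 463]) (lin [3, 8, 3]))) (split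 5 (lin [2, 1, 3, 0, 4]) (lin [42, 35, 23, 0, 64, 0, 0, 0, 0, 0, 4]))) (lin [8, 1, 0, 0, 0, 0, 5])) (lin [0, 0, 64, 0, 0, 1]))))) (split 5 (lin [5, 12, 5, 0, 16, 0, 0, 0, 0, 0, 1]) (lin [16, 5, 6, 0, 13, 0, 0, 0, 0, 0, 1]))) (split 2 (split 5 (lin [0, 0, 0, 4, 1]) (neg 0)) (lin [934, 90, 315, 503, 1024, 0, 0, 0, 0, 0, 5, 0, 458]))) (split 2 (split 2 (neg 0) (lin [8, 0, 0, 0, 0, 0, 0, 3])) (neg 7))) (split 5 (lin [9, 0, 5, 0, 0, 0, 0, 32]) (lin [5, 0, 0, 0, 0, 0, 0, 32]))) (split 3 (split 5 (split 5 (split 2 (split 2 (split 2 (lin [19, 57, 0, 0, 64, 2, 0, 0, 0, 0, 5]) (split 5 (lin [0, 8, 0, 0, 7, 0, 1]) (lin [5, 16, 0, 0, 13, 0, 0, 0, 0, 0, 1]))) (split 5 (lin [1, 3, 0, 0, 4]) (lin [15, 14, 0, 0, 16, 0, 0, 0, 0, 0, 1, 14]))) (split 5 (lin [1, 2, 1, 8, 4]) (lin [6, 18, 0, 128, 0, 0, 0, 0, 0, 0, 1, 77]))) (split 2 (split 2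 (lin [3, 8, 0, 0, 0, 0, 0, 0, 0, 0, 1]) (lin [2, 0, 0, 0, 0, 0, 0, 1, 0, 0, 0, 4])) (lin [3, 0, 0, 0, 0, 0, 0, 8]))) (split 0 (split 2 (lin [19, 0, 0, 0, 0, 5, 0, 128, 0, 0, 2]) (neg 7)) (split 5 (split 2 (split 2 (lin [1, 0, 0, 4]) (lin [1, 0, 0, 0, 0, 0, 0, 4])) (neg 7)) (split 2 (lin [100, 0, 0, 0, 0, 0, 0, 512, 0, 0, 1]) (neg 7))))) (split 0 (neg 2) (split 2 (split 2 (split 5 (split 5 (split 2 (split 3 (split 4 (lin [2, 7, 3, 0, 8]) (split 3 (lin [41, 112, 32, 0, 128, 4, 0, 0, 0, 0, 10]) (lin [12, 33, 256, 0, 37, 5]))) (lin [0, 1, 16, 0, 1])) (split 5 (lin [0, 1, 1, 0, 2]) (lin [14, 31, 12, 0, 32, 0, 0, 0, 0, 0, 2]))) (lin [5, 8])) (split 2 (neg 0) (lin [5, 0, 2, 0, 0, 0, 0, 16]))) (neg 2)) (neg 2))))) (split 5 (lin [8, 1, 0, 0, 0, 0, 7]) (split 5 (lin [31, 0, 24, 0, 0, 0, 0, 64, 0, 0, 1]) (lin [14, 0, 11, 0, 0, 0, 0,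 64, 0, 0, 1])))) (split 5 (split 5 (lin [124, 0, 93, 0, 0, 7, 0, 1024]) (lin [13, 0, 10, 0, 0, 0, 0, 128])) (lin [83, 0, 62, 0, 0, 137, 0, 2048])))))) (split 5 (lin [1, 1, 1, 0, 0, 0, 2, 16]) (split 0 (lin [0, 0, 0, 0, 0, 1, 0, 8]) (split 1 (lin [1, 0, 0, 0, 0, 2, 0, 32]) (split 5 (split 5 (lin [28, 31, 21, 0, 0, 3, 0, 512]) (lin [3, 3, 1, 0, 0, 0, 0, 64])) (lin [38, 41, 29, 0, 0, 136, 0, 2048])))))) (lin [0, 0, 0, 0, 0, 3, 0, 0, 0, 0, 16])) (lin [0, 0, 0, 0, 0, 1, 0, 0, 0, 0, 4]))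

def bx : List (ℕ × ℕ × ℕ) := [(0, 3, 7), (0, 3, 7), (0, 3, 7), (0, 2, 1), (0, 1, 1), (0, 16, 1), (0, 16, 1)]

def gs : List (Ex × ℕ) := [((add gD (mul (con 0) mo)), 11143041), ((add gK (mul (con 0) mo)), 14470827), ((add gT (mul (con 0) mo)), 336140), ((add gC (mul (con 0) mo)), 4797198), ((add gF (mul (con 0) mo)), 1882384), ((add gF2 (mul (con 0) mo)), 9673629), ((add gk (mul (con 0) mo)), 1882384), ((add gp (mul (con 0) mo)), 806736), ((add gB (mul (con 0) mo)), 100842), ((add gA (mul (con 0) mo)), 50421), ((add gR (mul (con 0) mo)), 4537890), ((add gm (mul (con 0) mo)), 201684), ((add gda (mul (con 0) mo)), 50421)]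

theorem run_ok : BernL.run 89 7 bx gs tr = true := by
  decide +kernel

theorem no (a y D h w n k : ℝ) (ha : 0 ≤ a) (ha' : a ≤ 3 / 7) (hy : 0 ≤ y) (hy' : y ≤ 3 / 7)
    (hD : 0 ≤ D) (hh : 0 ≤ h) (hh' : h ≤ 2) (hw : 0 ≤ w) (hw' : w ≤ 1) (hn' : n ≤ 16) (hk : 0 ≤ k)
    (h1 : 0 ≤ (y - D * w) * (1 + h) + (1 - y + D * w) * w
      - ((1 - a) * n + D * (n * (1 + h - n)) + D * (k * (1 + h - w))))
    (h2 : 0 ≤ (y - D * w) + (1 - y + D * w) * w + a * h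
      - ((1 - a) * n + (y - D * w) * h + D * ((n + h) * (1 - n)) + D * (k * (1 - h - w))))
    (h3 : 0 ≤ 1 - D * h - (1 - a) * h)
    (h4 : 0 ≤ D * w + (a - D * w) * (y - D * w) - D * (n * (1 - D * n)))
    (h5 : 0 ≤ (1 - a) * n - (1 + a * w) * (a + y))
    (h6 : 0 ≤ 3 * ((1 + a * w) * (7 * a + 3)) - (3 - 2 * (D * ((1 + a * w) * (7 * a + 3)))) * (7 + w * (7 * a + 3)))
    (h7 : 0 ≤ n - k) (h8 : 0 ≤ y - D * n) (h9 : 0 ≤ y - 2 * (D * w)) (h10 : 0 ≤ a - D * w)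
    (h11 : 0 ≤ 1 - 90 * (D * w)) (h12 : 0 ≤ 1 - a - y - D * h) (h13 : 0 ≤ a - D) : False := by
  refine BernL.no_point run_ok (fun i => ([a, y, D, h, w, n, k] : List ℝ).getD i 0) ?_ ?_
  · intro i hi
    interval_cases i <;> norm_num [bx] <;> constructor <;> linarith
  · intro g hg
    simp only [gs, List.mem_cons, List.not_mem_nil, or_false] at hg
    rcases hg with rfl | rfl | rfl | rfl | rfl | rfl | rfl | rfl | rfl | rfl | rfl | rfl | rfl <;>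
      simp only [gD, gK, gT, gC, gF, gF2, gk, gp, gB, gA, gR, gm, gda, c, e, U, mo, Ex.ev,
        List.getD_cons_zero, List.getD_cons_succ, Nat.cast_ofNat, Nat.cast_one, Nat.cast_zero] <;>
      linarith [h1, h2, h3, h4, h5, h6, h7, h8, h9, h10, h11, h12, h13]

end A1

namespace A2

def c : Ex := (sub (con 1) (var 0))
def e : Ex := (mul (var 2) (var 4))
def U : Ex := (mul (add (con 1) (mul (var 0) (var 4))) (add (mul (con 7) (var 0)) (con 3)))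
def gD : Ex := (sub (add (mul (sub (var 1) e) (add (con 1) (var 3))) (mul (add (sub (con 1) (var 1)) e) (var 4))) (add (add (mul c (var 5)) (mul (var 2) (mul (var 5) (sub (add (con 1) (var 3)) (var 5))))) (mul (var 2) (mul (var 6) (sub (add (con 1) (var 3)) (var 4))))))
def gK : Ex := (sub (add (add (sub (var 1) e) (mul (add (sub (con 1) (var 1)) e) (var 4))) (mul (var 0) (var 3))) (add (add (add (mul c (var 5)) (mul (sub (var 1) e) (var 3))) (mul (var 2) (mul (add (var 5) (var 3)) (sub (con 1) (var 5))))) (mul (var 2) (mul (var 6) (sub (sub (con 1) (var 3)) (var 4))))))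
def gT : Ex := (sub (sub (con 1) (mul (var 2) (var 3))) (mul c (var 3)))
def gC : Ex := (sub (add e (mul (sub (var 0) e) (sub (var 1) e))) (mul (var 2) (mul (var 5) (sub (con 1) (mul (var 2) (var 5))))))
def gF : Ex := (sub (mul c (var 5)) (mul (add (con 1) (mul (var 0) (var 4))) (add (var 0) (var 1))))
def gF2 : Ex := (sub (sub (add (mul (con 4) (mul (var 2) U)) (mul (con 12) e)) (mul (con 3) c)) (mul (con 6) (var 2)))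
def gk : Ex := (sub (var 5) (var 6))
def gp : Ex := (sub (var 1) (mul (var 2) (var 5)))
def gB : Ex := (sub (var 1) (mul (con 2) e))
def gA : Ex := (sub (var 0) e)
def gR : Ex := (sub (con 1) (mul (con 90) e))
def gm : Ex := (sub (sub (sub (con 1) (var 0)) (var 1)) (mul (var 2) (var 3)))
def gda : Ex := (sub (var 0) (var 2))
def mo : Ex := (mul (mul (mul (mul (mul (mul (mul (mul (mul (mul (var 0) (var 0)) (var 1)) (var 2)) (var 2)) (var 3)) (var 4)) (var 4)) (var 5)) (var 5)) (var 6))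

def tr : BernL.Tr := (split 5 (split 6 (split 0 (split 5 (split 6 (split 0 (lin [0, 0, 0, 0, 0, 4, 0, 0, 0, 0, 1, 0, 32]) (split 4 (split 3 (split 4 (split 2 (split 5 (split 1 (lin [9, 9, 0, 32, 18, 2, 0, 0, 0, 0, 1]) (split 2 (neg 5) (lin [183, 248, 0, 1024, 473, 23, 0, 0, 0, 0, 19, 0, 61]))) (neg 0)) (split 1 (split 1 (split 2 (split 3 (split 0 (neg 12) (split 1 (lin [0, 0, 0, 0, 1, 0, 0, 4, 0, 0, 0, 0, 1]) (split 2 (split 3 (split 4 (split 5 (lin [0, 0, 0, 64, 9, 0, 0, 0, 0, 0, 0, 0, 6]) (neg 7)) (neg 10)) (split 4 (split 5 (lin [0, 0, 0, 64, 9, 0, 0, 0, 0, 0, 0, 0, 6]) (neg 7)) (neg 10))) (neg 12)))) (split 0 (neg 12) (split 1 (lin [0, 0, 0, 0, 1, 0, 0, 4, 0, 0, 0, 0, 1]) (split 2 (split 3 (split 4 (split 5 (lin [0, 0, 0, 64, 9, 0, 0, 0, 0, 0, 0, 0, 6]) (neg 0)) (neg 10)) (split 4 (split 5 (lin [0, 0, 0, 64, 9, 0, 0,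 0, 0, 0, 0, 0, 6]) (neg 0)) (neg 10))) (neg 12))))) (neg 12)) (split 2 (split 3 (split 0 (neg 12) (split 1 (split 2 (split 3 (split 4 (split 5 (lin [0, 0, 0, 32, 5, 0, 0, 0, 0, 0, 0, 0, 12]) (neg 7)) (neg 10)) (split 4 (split 5 (lin [0, 0, 0, 32, 5, 0, 0, 0, 0, 0, 0, 0, 12]) (neg 7)) (neg 10))) (neg 12)) (split 2 (split 3 (split 4 (split 5 (lin [0, 0, 0, 32, 5, 0, 0, 0, 0, 0, 0, 0, 10]) (neg 7)) (neg 10)) (split 4 (split 5 (lin [0, 0, 0, 32, 5, 0, 0, 0, 0, 0, 0, 0, 10]) (neg 7)) (neg 10))) (neg 12)))) (split 0 (neg 12) (split 1 (split 2 (split 3 (split 4 (split 5 (lin [0, 0, 0, 32, 5, 0, 0, 0, 0, 0, 0, 0, 11]) (neg 0)) (neg 10)) (split 4 (split 5 (lin [1, 0, 0, 128, 20, 0, 0, 0, 0, 0, 0, 0, 22]) (neg 0)) (neg 10))) (neg 12)) (split 2 (split 3 (split 4 (split 5 (lin [0, 0, 0, 32, 5, 0, 0, 0, 0, 0, 0, 0, 10]) (neg 0)) (neg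 10)) (split 4 (split 5 (lin [1, 11, 0, 0, 5, 0, 0, 0, 0, 0, 0, 0, 32]) (neg 0)) (neg 10))) (neg 12))))) (neg 12))) (split 1 (split 2 (split 3 (split 0 (neg 12) (split 1 (split 2 (split 3 (split 4 (split 5 (lin [0, 0, 0, 32, 5, 0, 0, 0, 0, 0, 0, 0, 8]) (neg 7)) (neg 10)) (split 4 (split 5 (lin [0, 0, 0, 32, 5, 0, 0, 0, 0, 0, 0, 0, 8]) (neg 7)) (neg 10))) (neg 12)) (split 2 (split 3 (split 4 (split 5 (lin [0, 0, 0, 32, 5, 0, 0, 0, 0, 0, 0, 0, 6]) (neg 7)) (neg 10)) (split 4 (split 5 (lin [0, 0, 0, 32, 5, 0, 0, 0, 0, 0, 0, 0, 6]) (neg 7)) (neg 10))) (neg 12)))) (split 0 (neg 12) (split 1 (split 2 (split 3 (split 4 (split 5 (lin [0, 12, 0, 0, 7, 0, 0, 0, 0, 0, 0, 0, 64]) (neg 0)) (neg 10)) (split 4 (split 5 (lin [1, 11, 0, 0, 5, 0, 0, 0, 0, 0, 0, 0, 32]) (neg 0)) (neg 10))) (neg 12)) (split 2 (split 3 (split 4 (split 5 (lin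 [0, 2, 0, 0, 1, 0, 0, 0, 0, 0, 0, 0, 8]) (neg 7)) (neg 10)) (split 4 (split 5 (lin [1, 11, 0, 0, 5, 0, 0, 0, 0, 0, 0, 0, 32]) (neg 0)) (neg 10))) (neg 12))))) (neg 12)) (split 2 (split 3 (split 0 (neg 12) (split 1 (split 2 (split 3 (split 4 (split 5 (lin [0, 0, 0, 32, 5, 0, 0, 0, 0, 0, 0, 0, 5]) (neg 7)) (neg 10)) (split 4 (split 5 (lin [0, 8, 0, 0, 5, 0, 0, 0, 0, 0, 0, 0, 32]) (neg 7)) (neg 10))) (neg 12)) (split 2 (split 3 (split 4 (split 5 (lin [0, 0, 0, 2048, 319, 0, 0, 0, 0, 0, 0, 0, 190]) (lin [0, 0, 0, 8, 0, 0, 0, 5])) (neg 10)) (split 4 (split 5 (lin [0, 17, 0, 0, 11, 0, 0, 0, 0, 0, 0, 0, 64]) (lin [0, 0, 0, 8, 0, 0, 0, 5])) (neg 10))) (neg 12)))) (split 0 (neg 12) (split 1 (split 2 (split 3 (split 4 (split 5 (lin [0, 2, 0, 0, 1, 0, 0, 0, 0, 0, 0, 0, 8]) (neg 7)) (neg 10)) (split 4 (split 5 (lin [1, 11, 0, 0, 6,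 0, 0, 0, 0, 0, 0, 0, 32]) (neg 0)) (neg 10))) (neg 12)) (split 2 (split 3 (split 4 (split 5 (lin [0, 2, 0, 0, 1, 0, 0, 0, 0, 0, 0, 0, 8]) (lin [0, 0, 0, 8, 0, 0, 0, 5])) (neg 10)) (split 4 (split 5 (lin [0, 3, 0, 0, 1, 0, 0, 0, 0, 0, 0, 0, 8]) (lin [0, 0, 0, 8, 0, 0, 0, 5])) (neg 10))) (neg 12))))) (neg 12))))) (lin [0, 0, 0, 0, 0, 8, 0, 0, 0, 0, 5])) (split 4 (split 2 (split 5 (lin [5, 18, 15, 64, 23, 5, 0, 0, 0, 0, 3]) (neg 0)) (split 1 (split 1 (split 2 (split 3 (split 0 (neg 2) (split 1 (lin [0, 0, 0, 0, 1, 0, 0, 4, 0, 0, 0, 0, 1]) (split 2 (split 3 (split 4 (split 5 (lin [0, 0, 0, 64, 9, 0, 0, 0, 0, 0, 0, 0, 6]) (neg 0)) (neg 10)) (neg 2)) (neg 2)))) (neg 2)) (neg 2)) (split 2 (split 3 (split 0 (neg 2) (split 1 (split 2 (split 3 (split 4 (split 5 (lin [1, 8, 5, 0, 4, 0, 0, 0, 0, 0, 0, 0, 32]) (neg 0)) (neg 10)) (neg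 2)) (neg 2)) (split 2 (split 3 (split 4 (split 5 (lin [1, 7, 5, 0, 4, 0, 0, 0, 0, 0, 0, 0, 32]) (neg 0)) (neg 10)) (neg 2)) (neg 2)))) (neg 2)) (neg 2))) (split 1 (split 2 (split 3 (split 0 (neg 2) (split 1 (split 2 (split 3 (split 4 (split 5 (lin [0, 17, 17, 0, 7, 0, 1, 0, 0, 0, 0, 0, 64]) (neg 0)) (neg 10)) (neg 2)) (neg 2)) (split 2 (split 3 (split 4 (split 5 (lin [0, 17, 18, 0, 7, 0, 1, 0, 0, 0, 0, 0, 64]) (neg 0)) (neg 10)) (neg 2)) (neg 2)))) (neg 2)) (neg 2)) (split 2 (split 3 (split 0 (neg 2) (split 1 (split 2 (split 3 (split 4 (split 5 (lin [0, 5, 8, 0, 2]) (neg 0)) (neg 10)) (neg 2)) (neg 2)) (split 2 (split 3 (split 4 (split 5 (lin [0, 3, 8, 0, 1]) (neg 0)) (neg 10)) (neg 2)) (neg 2)))) (neg 2)) (neg 2))))) (lin [0, 0, 0, 0, 0, 8, 0, 0, 0, 0, 5]))) (lin [0, 0, 0, 0, 0, 2, 0, 0, 0, 0, 1]))) (lin [1, 1, 0, 0, 0,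 0, 2, 8])) (lin [1, 0, 0, 0, 0, 3, 0, 16, 0, 0, 1])) (split 5 (split 6 (split 1 (split 4 (split 4 (split 5 (split 2 (split 3 (split 2 (lin [14, 3, 0, 0, 16, 2, 0, 0, 0, 0, 1]) (lin [24, 29, 0, 128, 59, 1, 0, 0, 0, 0, 5])) (split 2 (lin [128, 0, 40, 0, 126, 17, 0, 0, 0, 0, 8]) (split 0 (lin [41, 52, 11, 256, 107, 4, 0, 0, 0, 0, 7]) (lin [12, 4, 3, 10, 16, 0, 0, 0, 0, 0, 1])))) (split 2 (lin [3, 7, 1, 256, 55, 0, 0, 29, 0, 0, 2]) (lin [0, 0, 0, 0, 13, 0, 0, 32, 0, 0, 0, 0, 13]))) (lin [9, 0, 0, 0, 0, 3, 0, 32, 0, 0, 1])) (lin [0, 0, 0, 0, 0, 7, 0, 0, 0, 0, 8])) (lin [0, 0, 0, 0, 0, 8, 0, 0, 0, 0, 5])) (split 3 (split 4 (split 4 (split 4 (split 5 (split 2 (split 2 (lin [6, 14, 0, 0, 16, 1, 0, 0, 0, 0, 1]) (split 5 (lin [1, 7, 0, 0, 8]) (lin [1, 8]))) (split 5 (lin [0, 2, 0, 8, 3]) (lin [16, 24, 0, 0, 19, 0, 0, 32, 0, 0, 1,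 8]))) (split 2 (split 2 (neg 0) (split 3 (split 2 (lin [0, 7, 0, 64]) (lin [1, 1, 0, 0, 0, 0, 0, 4])) (split 2 (lin [1, 0, 0, 8]) (lin [0, 0, 0, 16, 0, 0, 0, 3])))) (lin [1, 0, 0, 0, 0, 0, 0, 4]))) (split 0 (lin [0, 0, 0, 0, 0, 5, 0, 0, 0, 0, 8]) (split 0 (lin [0, 0, 0, 0, 0, 9, 0, 0, 0, 0, 16]) (split 0 (lin [0, 0, 0, 0, 0, 9, 0, 0, 0, 0, 16]) (split 2 (split 5 (lin [173, 83, 0, 0, 256, 21, 0, 0, 0, 0, 53]) (split 2 (neg 0) (neg 10))) (neg 10)))))) (lin [0, 0, 0, 0, 0, 7, 0, 0, 0, 0, 8])) (lin [0, 0, 0, 0, 0, 8, 0, 0, 0, 0, 5])) (split 3 (split 4 (split 4 (split 4 (split 5 (split 2 (split 2 (split 5 (lin [1, 3, 0, 0, 4]) (lin [11, 16, 0, 0, 16, 1])) (split 5 (lin [1, 3, 0, 0, 4]) (lin [14, 11, 0, 0, 16, 0, 0, 0, 0, 0, 0, 10]))) (split 5 (lin [1, 4, 0, 16, 7]) (lin [11, 15, 0, 0, 0, 0, 0, 0, 0, 0, 1, 32]))) (split 2 (split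 2 (lin [1, 2]) (lin [2, 0, 0, 0, 0, 0, 0, 1, 0, 0, 0, 4])) (lin [3, 0, 0, 0, 0, 0, 0, 8]))) (split 0 (lin [0, 0, 0, 0, 0, 5, 0, 0, 0, 0, 8]) (split 0 (lin [0, 0, 0, 0, 0, 9, 0, 0, 0, 0, 16]) (split 0 (lin [0, 0, 0, 0, 0, 9, 0, 0, 0, 0, 16]) (split 2 (split 1 (split 5 (split 2 (split 5 (neg 4) (lin [22, 32, 0, 0, 31, 5, 0, 0, 0, 0, 4])) (neg 10)) (lin [8, 0, 0, 0, 0, 0, 0, 0, 0, 0, 1])) (split 4 (split 2 (split 5 (split 2 (neg 5) (split 2 (lin [3, 7, 0, 0, 8, 1, 0, 0, 0, 0, 2]) (lin [4, 16, 0, 0, 15, 0, 0, 0, 0, 0, 5]))) (lin [1, 2])) (neg 10)) (lin [0, 0, 0, 0, 1, 6, 0, 0, 0, 0, 8]))) (neg 10)))))) (lin [0, 0, 0, 0, 0, 7, 0, 0, 0, 0, 8])) (lin [0, 0, 0, 0, 0, 8, 0, 0, 0, 0, 5])) (split 4 (split 0 (neg 2) (split 4 (split 2 (split 2 (split 5 (split 5 (lin [4, 0, 5, 0, 8, 1]) (lin [25, 27, 20, 0, 32, 6, 0, 0, 0, 0, 3])) (lin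 [6, 16, 6, 0, 0, 0, 0, 0, 0, 0, 1])) (neg 2)) (neg 2)) (lin [0, 0, 0, 0, 0, 7, 0, 0, 0, 0, 8]))) (lin [0, 0, 0, 0, 0, 4, 0, 0, 0, 0, 3]))))) (lin [23, 23, 0, 0, 0, 0, 26, 64, 0, 0, 3])) (split 4 (split 1 (lin [2, 0, 0, 0, 0, 1, 0, 16]) (split 4 (split 0 (lin [15, 0, 0, 0, 0, 20, 0, 128, 0, 0, 4]) (split 1 (lin [3, 3, 0, 0, 0, 10, 0, 64, 0, 0, 3]) (split 3 (split 2 (split 2 (lin [10, 1, 0, 0, 0, 10, 0, 64, 0, 0, 3]) (lin [1, 0, 0, 0, 0, 0, 0, 8])) (neg 7)) (split 6 (split 3 (split 2 (split 2 (lin [3, 0, 0, 0, 0, 3, 0, 16, 0, 0, 1]) (lin [1, 0, 0, 0, 0, 0, 0, 8])) (neg 7)) (split 2 (split 2 (lin [2, 0, 1, 0, 0, 1, 0, 8]) (neg 2)) (neg 2))) (lin [15, 0, 11, 0, 0, 29, 0, 128, 0, 0, 8]))))) (lin [0, 0, 0, 0, 0, 3, 0, 0, 0, 0, 4]))) (lin [1, 0, 0, 0, 0, 8, 0, 0, 0, 0, 7])))) (lin [0, 0, 0, 0, 0, 7, 7, 16, 0, 0, 2])) (lin [0, 0,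 0, 0, 0, 7, 0, 16, 0, 0, 3]))

def bx : List (ℕ × ℕ × ℕ) := [(0, 3, 7), (0, 3, 7), (0, 3, 7), (0, 2, 1), (0, 1, 1), (0, 16, 1), (0, 16, 1)]

def gs : List (Ex × ℕ) := [((add gD (mul (con 0) mo)), 1591863), ((add gK (mul (con 0) mo)), 2067261), ((add gT (mul (con 0) mo)), 48020), ((add gC (mul (con 0) mo)), 685314), ((add gF (mul (con 0) mo)), 268912), ((add gF2 (mul (con 0) mo)), 261366), ((add gk (mul (con 0) mo)), 268912), ((add gp (mul (con 0) mo)), 115248), ((add gB (mul (con 0) mo)), 14406), ((add gA (mul (con 0) mo)), 7203), ((add gR (mul (con 0) mo)), 648270), ((add gm (mul (con 0) mo)), 28812), ((add gda (mul (con 0) mo)), 7203)]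

theorem run_ok : BernL.run 76 7 bx gs tr = true := by
  decide +kernel

theorem no (a y D h w n k : ℝ) (ha : 0 ≤ a) (ha' : a ≤ 3 / 7) (hy : 0 ≤ y) (hy' : y ≤ 3 / 7)
    (hD : 0 ≤ D) (hh : 0 ≤ h) (hh' : h ≤ 2) (hw : 0 ≤ w) (hw' : w ≤ 1) (hn' : n ≤ 16) (hk : 0 ≤ k)
    (h1 : 0 ≤ (y - D * w) * (1 + h) + (1 - y + D * w) * w
      - ((1 - a) * n + D * (n * (1 + h - n)) + D * (k * (1 + h - w))))
    (h2 : 0 ≤ (y - D * w) + (1 - y + D * w) * w + a * h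
      - ((1 - a) * n + (y - D * w) * h + D * ((n + h) * (1 - n)) + D * (k * (1 - h - w))))
    (h3 : 0 ≤ 1 - D * h - (1 - a) * h)
    (h4 : 0 ≤ D * w + (a - D * w) * (y - D * w) - D * (n * (1 - D * n)))
    (h5 : 0 ≤ (1 - a) * n - (1 + a * w) * (a + y))
    (h6 : 0 ≤ 4 * (D * ((1 + a * w) * (7 * a + 3))) + 12 * (D * w) - 3 * (1 - a) - 6 * D)
    (h7 : 0 ≤ n - k) (h8 : 0 ≤ y - D * n) (h9 : 0 ≤ y - 2 * (D * w)) (h10 : 0 ≤ a - D * w)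
    (h11 : 0 ≤ 1 - 90 * (D * w)) (h12 : 0 ≤ 1 - a - y - D * h) (h13 : 0 ≤ a - D) : False := by
  refine BernL.no_point run_ok (fun i => ([a, y, D, h, w, n, k] : List ℝ).getD i 0) ?_ ?_
  · intro i hi
    interval_cases i <;> norm_num [bx] <;> constructor <;> linarith
  · intro g hg
    simp only [gs, List.mem_cons, List.not_mem_nil, or_false] at hg
    rcases hg with rfl | rfl | rfl | rfl | rfl | rfl | rfl | rfl | rfl | rfl | rfl | rfl | rfl <;>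
      simp only [gD, gK, gT, gC, gF, gF2, gk, gp, gB, gA, gR, gm, gda, c, e, U, mo, Ex.ev,
        List.getD_cons_zero, List.getD_cons_succ, Nat.cast_ofNat, Nat.cast_one, Nat.cast_zero] <;>
      linarith [h1, h2, h3, h4, h5, h6, h7, h8, h9, h10, h11, h12, h13]

end A2

namespace B1

def c : Ex := (sub (con 1) (var 0))
def e : Ex := (mul (var 2) (var 4))
def U : Ex := (mul (add (con 1) (mul (var 0) (var 4))) (add (mul (con 5) (var 0)) (con 2)))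
def gD : Ex := (sub (add (mul (sub (var 1) e) (add (con 1) (var 3))) (mul (add (sub (con 1) (var 1)) e) (var 4))) (add (add (mul c (var 5)) (mul (var 2) (mul (var 5) (sub (add (con 1) (var 3)) (var 5))))) (mul (var 2) (mul (var 6) (sub (add (con 1) (var 3)) (var 4))))))
def gK : Ex := (sub (add (add (sub (var 1) e) (mul (add (sub (con 1) (var 1)) e) (var 4))) (mul (var 0) (var 3))) (add (add (add (mul c (var 5)) (mul (sub (var 1) e) (var 3))) (mul (var 2) (mul (add (var 5) (var 3)) (sub (con 1) (var 5))))) (mul (var 2) (mul (var 6) (sub (sub (con 1) (var 3)) (var 4))))))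
def gT : Ex := (sub (sub (con 1) (mul (var 2) (var 3))) (mul c (var 3)))
def gC : Ex := (sub (add e (mul (sub (var 0) e) (sub (var 1) e))) (mul (var 2) (mul (var 5) (sub (con 1) (mul (var 2) (var 5))))))
def gF : Ex := (sub (mul c (var 5)) (mul (add (con 1) (mul (var 0) (var 4))) (add (var 0) (var 1))))
def gF2 : Ex := (sub (mul (con 2) U) (mul (sub (con 2) (mul (con 2) (mul (var 2) U))) (add (con 5) (mul (var 4) (add (mul (con 5) (var 0)) (con 2))))))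
def gk : Ex := (sub (var 5) (var 6))
def gp : Ex := (sub (var 1) (mul (var 2) (var 5)))
def gB : Ex := (sub (var 1) (mul (con 2) e))
def gA : Ex := (sub (var 0) e)
def gR : Ex := (sub (con 1) (mul (con 60) e))
def gm : Ex := (sub (sub (sub (con 1) (var 0)) (var 1)) (mul (var 2) (var 3)))
def gda : Ex := (sub (var 0) (var 2))
def mo : Ex := (mul (mul (mul (mul (mul (mul (mul (mul (mul (mul (mul (var 0) (var 0)) (var 0)) (var 1)) (var 2)) (var 2)) (var 3)) (var 4)) (var 4)) (var 5)) (var 5)) (var 6))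

def tr : BernL.Tr := (split 4 (split 6 (split 1 (split 4 (split 6 (split 5 (split 5 (split 5 (split 2 (split 3 (split 0 (split 4 (lin [307, 307, 0, 1024, 614, 21, 0, 0, 0, 0, 39, 0, 113]) (lin [0, 0, 0, 0, 0, 7, 0, 0, 0, 0, 32])) (split 2 (lin [423, 133, 0, 0, 512, 26, 0, 0, 0, 0, 43]) (split 4 (lin [69, 69, 0, 256, 142, 1]) (lin [322, 303, 0, 1024, 651, 13, 0, 0, 0, 0, 78])))) (split 0 (split 4 (lin [13, 20, 5, 64, 33, 1, 0, 0, 0, 0, 2]) (lin [0, 0, 0, 0, 0, 7, 0, 0, 0, 0, 32])) (split 5 (split 2 (lin [86, 25, 22, 0, 128, 7, 0, 0, 0, 0, 7]) (lin [156, 97, 47, 0, 256, 7, 0, 0, 0, 0, 19])) (lin [32, 0, 11, 0, 21, 1])))) (split 0 (lin [0, 0, 0, 128, 20, 0, 0, 3, 0, 0, 2, 0, 61]) (split 2 (lin [5, 8, 1, 256, 51, 0, 0, 13, 0, 0, 3]) (lin [35, 48, 1, 128, 110, 0, 0, 110, 0, 0, 4, 0, 48])))) (lin [28, 45, 24, 0, 0, 7, 0, 256]))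 (lin [5, 0, 0, 0, 0, 0, 0, 32])) (lin [0, 0, 0, 0, 0, 1, 0, 8])) (split 5 (lin [18, 0, 6, 0, 0, 1, 11, 128]) (lin [0, 0, 0, 0, 0, 1, 0, 8]))) (split 0 (lin [0, 0, 0, 0, 0, 3, 0, 0, 0, 0, 8]) (split 5 (split 0 (lin [0, 0, 0, 0, 0, 5, 0, 0, 0, 0, 16]) (split 5 (split 6 (split 0 (lin [0, 0, 0, 0, 0, 5, 0, 0, 0, 0, 16]) (split 5 (split 3 (split 3 (split 2 (lin [276, 111, 0, 512, 388, 43, 0, 0, 0, 0, 146]) (neg 10)) (split 2 (lin [64, 0, 0, 0, 64, 8, 0, 0, 0, 0, 29]) (neg 10))) (split 1 (lin [128, 0, 18, 0, 128, 17, 0, 0, 0, 0, 55]) (split 3 (split 5 (lin [77, 0, 8, 0, 128, 19, 0, 0, 0, 0, 58]) (split 2 (lin [16, 0, 0, 0, 11, 2, 0, 0, 0, 0, 5]) (neg 0))) (split 5 (lin [8, 0, 13, 0, 16, 1, 0, 0, 0, 0, 1]) (lin [128, 0, 43, 0, 85, 17, 0, 0, 0, 0, 38]))))) (lin [18, 0, 0, 0, 0, 3, 0, 64, 0, 0, 3]))) (lin [1, 1, 0, 0, 0, 0, 2, 8]))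 (lin [4, 0, 0, 0, 0, 1, 0, 32]))) (lin [0, 0, 0, 0, 0, 4, 0, 32, 31])))) (split 4 (split 5 (split 6 (split 3 (split 0 (split 0 (lin [0, 0, 0, 0, 0, 1, 0, 0, 0, 0, 0, 0, 32]) (split 4 (split 0 (lin [0, 0, 0, 0, 0, 9, 0, 0, 0, 0, 1, 0, 256]) (split 5 (split 2 (split 5 (split 2 (neg 5) (lin [352, 503, 0, 2048, 942, 9, 0, 0, 0, 0, 37])) (neg 0)) (split 1 (split 2 (split 3 (split 1 (split 2 (split 3 (split 5 (lin [0, 0, 0, 128, 19, 0, 0, 0, 0, 0, 0, 0, 32]) (neg 7)) (split 5 (lin [0, 1, 0, 64, 10, 0, 0, 0, 0, 0, 0, 0, 16]) (neg 0))) (neg 12)) (split 2 (split 3 (split 5 (lin [0, 0, 0, 128, 19, 0, 0, 0, 0, 0, 0, 0, 26]) (neg 7)) (split 5 (lin [0, 1, 0, 64, 10, 0, 0, 0, 0, 0, 0, 0, 13]) (neg 0))) (neg 12))) (split 1 (split 2 (split 3 (split 5 (lin [0, 12, 0, 0, 7, 0, 0, 0, 0, 0, 0, 0, 64]) (neg 0)) (split 5 (lin [1, 11, 0, 0, 6,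 0, 0, 0, 0, 0, 0, 0, 32]) (neg 0))) (neg 12)) (split 2 (split 3 (split 5 (lin [0, 2, 0, 0, 1, 0, 0, 0, 0, 0, 0, 0, 8]) (neg 0)) (split 5 (lin [1, 11, 0, 0, 6, 0, 0, 0, 0, 0, 0, 0, 32]) (neg 0))) (neg 12)))) (neg 12)) (split 2 (split 3 (split 1 (split 2 (split 3 (split 5 (lin [0, 0, 0, 128, 19, 0, 0, 0, 0, 0, 0, 0, 19]) (neg 7)) (split 5 (lin [0, 15, 0, 0, 10, 0, 0, 0, 0, 0, 0, 0, 64]) (neg 7))) (neg 12)) (split 2 (split 3 (split 5 (lin [0, 0, 0, 128, 19, 0, 0, 0, 0, 0, 0, 0, 13]) (lin [0, 0, 0, 2, 0, 0, 0, 1])) (split 5 (lin [0, 16, 0, 0, 11, 0, 0, 0, 0, 0, 0, 0, 64]) (lin [0, 0, 0, 2, 0, 0, 0, 1]))) (neg 12))) (split 1 (split 2 (split 3 (split 5 (lin [0, 2, 0, 0, 1, 0, 0, 0, 0, 0, 0, 0, 8]) (neg 0)) (split 5 (lin [0, 2, 0, 0, 1, 0, 0, 0, 0, 0, 0, 0, 8]) (neg 0))) (neg 12)) (split 2 (split 3 (split 5 (lin [0, 2, 0, 0, 1,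 0, 0, 0, 0, 0, 0, 0, 8]) (neg 0)) (split 5 (lin [0, 2, 0, 0, 1, 0, 0, 0, 0, 0, 0, 0, 8]) (neg 0))) (neg 12)))) (neg 12)))) (lin [2, 0, 0, 0, 0, 1, 0, 16]))) (lin [0, 0, 0, 0, 0, 7, 0, 0, 0, 0, 32]))) (split 1 (split 5 (split 5 (split 2 (split 2 (split 0 (lin [9, 64, 0, 0, 55, 4, 0, 0, 0, 0, 8]) (split 0 (split 1 (lin [351, 232, 0, 0, 512, 23, 0, 0, 0, 0, 44]) (lin [129, 184, 0, 0, 256, 13, 0, 0, 0, 0, 26])) (split 2 (lin [5, 3, 0, 0, 8, 1]) (lin [175, 109, 0, 0, 256, 6, 0, 0, 0, 0, 18])))) (split 4 (lin [11, 17, 0, 64, 30]) (lin [77, 132, 0, 256, 200, 1, 0, 0, 0, 0, 30]))) (split 2 (split 0 (lin [163, 245, 0, 2048, 565, 0, 0, 0, 0, 0, 31]) (split 0 (lin [3, 0, 0, 512, 91, 0, 0, 0, 0, 0, 3]) (lin [0, 0, 0, 128, 24, 0, 0, 0, 0, 0, 1]))) (split 0 (lin [0, 0, 0, 128, 22, 0, 0, 0, 0, 0, 1, 0, 103]) (split 5 (lin [0, 0, 0, 4,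 1]) (lin [0, 0, 0, 8, 0, 0, 0, 3]))))) (split 2 (lin [5, 3, 0, 0, 0, 0, 0, 8]) (neg 7))) (lin [13, 13, 0, 0, 0, 14, 0, 256])) (split 5 (split 5 (split 2 (split 2 (split 0 (lin [5, 15, 0, 0, 16, 1, 0, 0, 0, 0, 2]) (lin [306, 1024, 0, 0, 989, 21])) (split 4 (split 2 (lin [2, 3, 0, 0, 4]) (lin [35, 103, 0, 512, 177, 0, 0, 0, 0, 0, 3])) (lin [41, 59, 0, 128, 98, 0, 0, 0, 0, 0, 11]))) (split 5 (lin [0, 7, 0, 32, 13, 0, 0, 0, 0, 0, 0, 0, 1]) (lin [21, 21, 0, 0, 25, 0, 0, 32, 0, 0, 1]))) (split 2 (split 2 (neg 0) (lin [15, 10, 0, 0, 0, 0, 0, 32, 0, 0, 1])) (lin [1, 0, 0, 0, 0, 0, 0, 4]))) (split 5 (split 2 (lin [1, 1, 0, 0, 0, 0, 0, 8]) (neg 7)) (lin [4, 4, 0, 0, 0, 1, 0, 64]))))) (split 0 (split 2 (split 5 (split 5 (lin [51, 154, 67, 512, 205, 11, 0, 0, 0, 0, 17]) (neg 0)) (lin [1, 0, 0, 0, 0, 1, 0, 8, 0, 0, 1])) (split 0 (neg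 2) (split 1 (split 2 (split 3 (split 5 (split 0 (neg 2) (split 1 (split 2 (split 3 (split 4 (split 5 (lin [0, 28, 34, 0, 11, 0, 1, 0, 0, 0, 0, 0, 64]) (neg 0)) (neg 10)) (neg 2)) (neg 2)) (split 2 (split 3 (split 4 (split 5 (lin [0, 7, 8, 0, 3, 0, 0, 0, 0, 0, 0, 0, 16]) (neg 0)) (neg 10)) (neg 2)) (neg 2)))) (neg 7)) (neg 2)) (neg 2)) (split 2 (split 3 (split 5 (split 0 (neg 2) (split 1 (split 2 (split 3 (split 4 (split 5 (lin [0, 7, 8, 0, 3, 0, 0, 0, 0, 0, 0, 0, 16]) (neg 0)) (neg 10)) (neg 2)) (neg 2)) (split 2 (split 3 (split 4 (split 5 (lin [0, 6, 16, 0, 3]) (neg 0)) (neg 10)) (neg 2)) (neg 2)))) (neg 7)) (neg 2)) (neg 2))))) (split 3 (split 5 (split 5 (split 2 (split 2 (split 5 (lin [77, 43, 19, 0, 128, 5, 0, 0, 0, 0, 3]) (split 1 (split 5 (lin [89, 79, 0, 0, 128, 3]) (lin [1, 4])) (lin [21, 64, 0, 0, 46, 1]))) (split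 5 (lin [2, 6, 1, 0, 8, 0, 0, 0, 0, 0, 1]) (lin [5, 8, 2, 0, 4, 0, 0, 0, 0, 0, 1]))) (split 5 (lin [1, 2, 0, 8, 4]) (lin [3, 2, 0, 16, 2, 0, 0, 0, 0, 0, 0, 6]))) (split 2 (lin [128, 0, 0, 0, 0, 0, 0, 8, 0, 0, 3]) (lin [3, 0, 0, 0, 0, 0, 0, 8]))) (split 5 (split 2 (lin [3, 0, 0, 0, 0, 0, 0, 8]) (neg 7)) (lin [10, 0, 0, 0, 0, 1, 0, 64]))) (split 2 (split 2 (split 5 (split 5 (split 5 (lin [37, 14, 22, 0, 64, 3]) (split 1 (split 5 (lin [89, 79, 57, 0, 128, 5]) (lin [3, 8, 3])) (lin [11, 32, 24, 0, 23, 1]))) (lin [3, 8, 3])) (lin [5, 0, 4, 0, 0, 1, 0, 16])) (neg 2)) (neg 2))))) (split 0 (lin [4, 5, 1, 0, 0, 1, 7, 64, 0, 0, 1]) (split 5 (lin [2, 3, 0, 0, 0, 0, 4, 16]) (split 5 (split 2 (lin [6, 5, 0, 0, 0, 0, 0, 32, 0, 0, 1]) (neg 7)) (lin [2, 2, 1, 0, 0, 1, 0, 32]))))) (lin [45, 50, 30, 0, 0, 222, 0, 2048])) (split 0 (lin [0,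 0, 0, 0, 0, 3, 0, 0, 0, 0, 8]) (split 5 (split 0 (lin [0, 0, 0, 0, 0, 5, 0, 0, 0, 0, 16]) (split 0 (lin [0, 0, 0, 0, 0, 5, 0, 0, 0, 0, 16]) (split 3 (split 4 (split 0 (lin [0, 0, 0, 0, 0, 19, 0, 0, 0, 0, 64]) (split 4 (split 1 (split 5 (split 6 (split 3 (split 5 (lin [128, 128, 0, 0, 256, 28, 0, 0, 0, 0, 125]) (lin [7, 7, 0, 0, 0, 0, 0, 0, 0, 0, 8])) (split 5 (split 2 (split 2 (split 2 (neg 5) (lin [94, 41, 0, 0, 128, 4, 0, 0, 0, 0, 15])) (neg 10)) (neg 10)) (split 2 (lin [4, 0, 0, 0, 0, 0, 0, 0, 0, 0, 1]) (neg 7)))) (lin [6, 7, 0, 0, 0, 0, 8, 0, 0, 0, 7])) (lin [7, 0, 0, 0, 0, 3, 0, 64])) (split 3 (split 5 (split 6 (split 5 (lin [4, 4, 0, 0, 8, 0, 0, 0, 0, 0, 1]) (split 2 (lin [8, 0, 0, 0, 0, 0, 0, 0, 0, 0, 3]) (neg 10))) (lin [6, 6, 0, 0, 0, 0, 8, 0, 0, 0, 7])) (split 5 (split 2 (lin [1, 1, 0, 0, 0, 0, 0, 8]) (neg 7))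 (lin [5, 0, 0, 0, 0, 4, 0, 64]))) (split 5 (split 6 (split 5 (split 2 (split 2 (split 2 (neg 5) (lin [1, 8, 0, 0, 8, 0, 0, 0, 0, 0, 2])) (neg 10)) (neg 10)) (split 2 (lin [4, 3, 0, 0, 0, 0, 0, 0, 0, 0, 2]) (neg 10))) (lin [8, 0, 0, 0, 0, 0, 5, 0, 0, 0, 2])) (split 5 (split 2 (lin [5, 0, 0, 0, 0, 0, 0, 16]) (neg 7)) (lin [5, 0, 0, 0, 0, 0, 0, 32]))))) (lin [0, 0, 0, 0, 0, 5, 0, 0, 0, 0, 16]))) (lin [0, 0, 0, 0, 0, 3, 0, 0, 0, 0, 8])) (split 4 (split 0 (lin [0, 0, 0, 0, 0, 19, 0, 0, 0, 0, 64]) (split 3 (split 4 (split 1 (split 5 (split 6 (split 6 (split 2 (split 5 (split 5 (neg 4) (split 2 (split 2 (neg 5) (split 5 (lin [43, 28, 0, 0, 64, 3, 0, 0, 0, 0, 8]) (neg 0))) (neg 10))) (neg 0)) (neg 10)) (split 2 (lin [64, 0, 0, 0, 0, 0, 38, 0, 0, 0, 13]) (neg 10))) (lin [8, 0, 0, 0, 0, 0, 5])) (lin [15, 0, 0, 0, 0, 7, 0, 128])) (split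 5 (split 6 (split 2 (split 5 (split 6 (split 5 (neg 4) (split 2 (split 2 (neg 5) (lin [11, 31, 0, 0, 32, 0, 0, 0, 0, 0, 7])) (neg 10))) (lin [16, 3, 0, 0, 0, 1, 12])) (lin [128, 89, 0, 0, 0, 0, 0, 0, 0, 0, 56])) (neg 10)) (lin [8, 1, 0, 0, 0, 0, 6])) (split 5 (split 2 (lin [3, 0, 0, 0, 0, 0, 0, 8]) (neg 7)) (lin [11, 0, 0, 0, 0, 0, 0, 64])))) (lin [0, 0, 0, 0, 0, 5, 0, 0, 0, 0, 16])) (split 2 (split 2 (split 5 (split 6 (split 5 (split 6 (split 2 (neg 5) (split 5 (neg 4) (split 1 (split 5 (split 1 (lin [128, 0, 60, 0, 122, 9, 0, 0, 0, 0, 9]) (lin [662, 483, 325, 0, 1024, 61, 0, 0, 0, 0, 145])) (lin [3, 6, 8])) (lin [46, 118, 55, 0, 128, 2, 0, 0, 0, 0, 27])))) (lin [8, 0, 0, 0, 0, 1, 5])) (lin [3, 8, 2, 0, 0, 0, 0, 0, 0, 0, 1])) (lin [8, 0, 0, 0, 0, 1, 5])) (lin [5, 0, 3, 0, 0, 1, 0, 16])) (neg 2)) (neg 2)))) (lin [0, 0, 0,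 0, 0, 3, 0, 0, 0, 0, 8]))))) (lin [0, 0, 0, 0, 0, 11, 0, 64, 0, 0, 8]))))) (split 5 (lin [2, 2, 2, 0, 0, 1, 3, 32, 0, 0, 1]) (split 2 (lin [12, 13, 8, 0, 0, 72, 0, 512, 0, 0, 41]) (neg 7)))) (lin [0, 0, 0, 0, 0, 3, 0, 0, 0, 0, 8]))

def bx : List (ℕ × ℕ × ℕ) := [(0, 2, 5), (0, 2, 5), (0, 2, 5), (0, 2, 1), (0, 1, 1), (0, 16, 1), (0, 16, 1)]

def gs : List (Ex × ℕ) := [((add gD (mul (con 0) mo)), 1365625), ((add gK (mul (con 0) mo)), 1778125), ((add gT (mul (con 0) mo)), 43750), ((add gC (mul (con 0) mo)), 548750), ((add gF (mul (con 0) mo)), 250000), ((add gF2 (mul (con 0) mo)), 523750), ((add gk (mul (con 0) mo)), 250000), ((add gp (mul (con 0) mo)), 100000), ((add gB (mul (con 0) mo)), 12500), ((add gA (mul (con 0) mo)), 6250), ((add gR (mul (con 0) mo)), 375000), ((add gm (mul (con 0) mo)), 25000), ((add gda (mul (con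 0) mo)), 6250)]

theorem run_ok : BernL.run 87 7 bx gs tr = true := by
  decide +kernel

theorem no (a y D h w n k : ℝ) (ha : 0 ≤ a) (ha' : a ≤ 2 / 5) (hy : 0 ≤ y) (hy' : y ≤ 2 / 5)
    (hD : 0 ≤ D) (hh : 0 ≤ h) (hh' : h ≤ 2) (hw : 0 ≤ w) (hw' : w ≤ 1) (hn' : n ≤ 16) (hk : 0 ≤ k)
    (h1 : 0 ≤ (y - D * w) * (1 + h) + (1 - y + D * w) * w
      - ((1 - a) * n + D * (n * (1 + h - n)) + D * (k * (1 + h - w))))
    (h2 : 0 ≤ (y - D * w) + (1 - y + D * w) * w + a * h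
      - ((1 - a) * n + (y - D * w) * h + D * ((n + h) * (1 - n)) + D * (k * (1 - h - w))))
    (h3 : 0 ≤ 1 - D * h - (1 - a) * h)
    (h4 : 0 ≤ D * w + (a - D * w) * (y - D * w) - D * (n * (1 - D * n)))
    (h5 : 0 ≤ (1 - a) * n - (1 + a * w) * (a + y))
    (h6 : 0 ≤ 2 * ((1 + a * w) * (5 * a + 2)) - (2 - 2 * (D * ((1 + a * w) * (5 * a + 2)))) * (5 + w * (5 * a + 2)))
    (h7 : 0 ≤ n - k) (h8 : 0 ≤ y - D * n) (h9 : 0 ≤ y - 2 * (D * w)) (h10 : 0 ≤ a - D * w)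
    (h11 : 0 ≤ 1 - 60 * (D * w)) (h12 : 0 ≤ 1 - a - y - D * h) (h13 : 0 ≤ a - D) : False := by
  refine BernL.no_point run_ok (fun i => ([a, y, D, h, w, n, k] : List ℝ).getD i 0) ?_ ?_
  · intro i hi
    interval_cases i <;> norm_num [bx] <;> constructor <;> linarith
  · intro g hg
    simp only [gs, List.mem_cons, List.not_mem_nil, or_false] at hg
    rcases hg with rfl | rfl | rfl | rfl | rfl | rfl | rfl | rfl | rfl | rfl | rfl | rfl | rfl <;>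
      simp only [gD, gK, gT, gC, gF, gF2, gk, gp, gB, gA, gR, gm, gda, c, e, U, mo, Ex.ev,
        List.getD_cons_zero, List.getD_cons_succ, Nat.cast_ofNat, Nat.cast_one, Nat.cast_zero] <;>
      linarith [h1, h2, h3, h4, h5, h6, h7, h8, h9, h10, h11, h12, h13]

end B1

namespace B2

def c : Ex := (sub (con 1) (var 0))
def e : Ex := (mul (var 2) (var 4))
def U : Ex := (mul (add (con 1) (mul (var 0) (var 4))) (add (mul (con 5) (var 0)) (con 2)))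
def gD : Ex := (sub (add (mul (sub (var 1) e) (add (con 1) (var 3))) (mul (add (sub (con 1) (var 1)) e) (var 4))) (add (add (mul c (var 5)) (mul (var 2) (mul (var 5) (sub (add (con 1) (var 3)) (var 5))))) (mul (var 2) (mul (var 6) (sub (add (con 1) (var 3)) (var 4))))))
def gK : Ex := (sub (add (add (sub (var 1) e) (mul (add (sub (con 1) (var 1)) e) (var 4))) (mul (var 0) (var 3))) (add (add (add (mul c (var 5)) (mul (sub (var 1) e) (var 3))) (mul (var 2) (mul (add (var 5) (var 3)) (sub (con 1) (var 5))))) (mul (var 2) (mul (var 6) (sub (sub (con 1) (var 3)) (var 4))))))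
def gT : Ex := (sub (sub (con 1) (mul (var 2) (var 3))) (mul c (var 3)))
def gC : Ex := (sub (add e (mul (sub (var 0) e) (sub (var 1) e))) (mul (var 2) (mul (var 5) (sub (con 1) (mul (var 2) (var 5))))))
def gF : Ex := (sub (mul c (var 5)) (mul (add (con 1) (mul (var 0) (var 4))) (add (var 0) (var 1))))
def gF2 : Ex := (sub (sub (add (mul (con 4) (mul (var 2) U)) (mul (con 8) e)) (mul (con 2) c)) (mul (con 4) (var 2)))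
def gk : Ex := (sub (var 5) (var 6))
def gp : Ex := (sub (var 1) (mul (var 2) (var 5)))
def gB : Ex := (sub (var 1) (mul (con 2) e))
def gA : Ex := (sub (var 0) e)
def gR : Ex := (sub (con 1) (mul (con 60) e))
def gm : Ex := (sub (sub (sub (con 1) (var 0)) (var 1)) (mul (var 2) (var 3)))
def gda : Ex := (sub (var 0) (var 2))
def mo : Ex := (mul (mul (mul (mul (mul (mul (mul (mul (mul (mul (var 0) (var 0)) (var 1)) (var 2)) (var 2)) (var 3)) (var 4)) (var 4)) (var 5)) (var 5)) (var 6))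

def tr : BernL.Tr := (split 4 (split 6 (split 4 (split 1 (split 6 (split 5 (split 5 (split 5 (split 2 (split 3 (split 0 (lin [5, 5, 0, 16, 10, 2, 0, 0, 0, 0, 1]) (split 2 (lin [7, 2, 0, 0, 8, 2, 0, 0, 0, 0, 1]) (split 0 (lin [29, 28, 0, 128, 63, 5, 0, 0, 0, 0, 6]) (lin [37, 25, 0, 128, 70, 3, 0, 0, 0, 0, 7])))) (split 0 (lin [9, 19, 5, 64, 28, 7, 0, 0, 0, 0, 4]) (split 2 (lin [512, 0, 128, 0, 512, 111, 0, 0, 0, 0, 51]) (split 4 (split 0 (lin [12, 14, 3, 64, 29, 1]) (lin [24, 6, 6, 31, 32, 1])) (split 0 (lin [7, 6, 2, 32, 15, 2, 0, 0, 0, 0, 2]) (split 3 (lin [1664, 314, 395, 1400, 2048, 223, 0, 0, 0, 0, 227]) (neg 2))))))) (split 0 (lin [0, 0, 0, 128, 20, 0, 0, 3, 0, 0, 2, 0, 61]) (split 2 (lin [5, 8, 1, 256, 51, 0, 0, 13, 0, 0, 3]) (lin [38, 55, 2, 256, 143, 0, 0, 126, 0, 0, 5, 0, 92])))) (lin [9, 9, 0, 0, 0, 10, 0, 64,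 0, 0, 3])) (lin [1, 0, 0, 0, 0, 1, 0, 8])) (lin [0, 0, 0, 0, 0, 3, 0, 6, 8])) (split 5 (lin [9, 0, 0, 0, 0, 4, 5, 64, 0, 0, 2]) (lin [0, 0, 0, 0, 0, 3, 0, 6, 8]))) (split 5 (split 0 (split 3 (split 5 (split 6 (split 0 (lin [0, 0, 0, 0, 0, 1, 0, 0, 0, 0, 0, 0, 8]) (split 2 (split 5 (split 1 (lin [159, 159, 0, 512, 316, 49, 0, 0, 0, 0, 29]) (lin [307, 307, 0, 1024, 614, 84, 0, 0, 0, 0, 40])) (neg 0)) (split 1 (split 2 (split 3 (split 0 (neg 12) (split 1 (split 2 (split 3 (split 4 (split 5 (lin [0, 0, 0, 128, 19, 0, 0, 0, 0, 0, 0, 0, 32]) (neg 7)) (neg 10)) (split 4 (split 5 (lin [0, 1, 0, 64, 10, 0, 0, 0, 0, 0, 0, 0, 16]) (neg 0)) (neg 10))) (neg 12)) (split 2 (split 3 (split 4 (split 5 (lin [0, 0, 0, 128, 19, 0, 0, 0, 0, 0, 0, 0, 26]) (neg 7)) (neg 10)) (split 4 (split 5 (lin [0, 1, 0, 64, 10, 0, 0, 0, 0, 0, 0, 0, 13]) (neg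 0)) (neg 10))) (neg 12)))) (split 0 (neg 12) (split 1 (split 2 (split 3 (split 4 (split 5 (lin [0, 12, 0, 0, 7, 0, 0, 0, 0, 0, 0, 0, 64]) (neg 0)) (neg 10)) (split 4 (split 5 (lin [1, 11, 0, 0, 6, 0, 0, 0, 0, 0, 0, 0, 32]) (neg 0)) (neg 10))) (neg 12)) (split 2 (split 3 (split 4 (split 5 (lin [0, 2, 0, 0, 1, 0, 0, 0, 0, 0, 0, 0, 8]) (neg 0)) (neg 10)) (split 4 (split 5 (lin [1, 11, 0, 0, 6, 0, 0, 0, 0, 0, 0, 0, 32]) (neg 0)) (neg 10))) (neg 12))))) (neg 12)) (split 2 (split 3 (split 0 (neg 12) (split 1 (split 2 (split 3 (split 4 (split 5 (lin [0, 0, 0, 128, 19, 0, 0, 0, 0, 0, 0, 0, 19]) (neg 7)) (neg 10)) (split 4 (split 5 (lin [0, 15, 0, 0, 10, 0, 0, 0, 0, 0, 0, 0, 64]) (neg 7)) (neg 10))) (neg 12)) (split 2 (split 3 (split 4 (split 5 (lin [0, 0, 0, 128, 19, 0, 0, 0, 0, 0, 0, 0, 13]) (lin [0, 0, 0, 2, 0, 0, 0, 1])) (neg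 10)) (split 4 (split 5 (lin [0, 16, 0, 0, 11, 0, 0, 0, 0, 0, 0, 0, 64]) (lin [0, 0, 0, 2, 0, 0, 0, 1])) (neg 10))) (neg 12)))) (split 0 (neg 12) (split 1 (split 2 (split 3 (split 4 (split 5 (lin [0, 2, 0, 0, 1, 0, 0, 0, 0, 0, 0, 0, 8]) (neg 0)) (neg 10)) (split 4 (split 5 (lin [0, 2, 0, 0, 1, 0, 0, 0, 0, 0, 0, 0, 8]) (neg 0)) (neg 10))) (neg 12)) (split 2 (split 3 (split 4 (split 5 (lin [0, 2, 0, 0, 1, 0, 0, 0, 0, 0, 0, 0, 8]) (neg 0)) (neg 10)) (split 4 (split 5 (lin [0, 2, 0, 0, 1, 0, 0, 0, 0, 0, 0, 0, 8]) (neg 0)) (neg 10))) (neg 12))))) (neg 12))))) (lin [1, 1, 0, 0, 0, 0, 2, 8])) (lin [0, 0, 0, 0, 0, 3, 0, 8, 0, 0, 1])) (split 2 (split 5 (split 5 (lin [9, 19, 2, 64, 28, 6, 0, 0, 0, 0, 3]) (neg 0)) (lin [1, 0, 0, 0, 0, 2, 0, 8])) (split 0 (neg 2) (split 1 (split 2 (split 3 (split 5 (split 6 (split 0 (neg 2) (split 1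 (split 2 (split 3 (split 4 (split 5 (lin [0, 28, 34, 0, 11, 0, 1, 0, 0, 0, 0, 0, 64]) (neg 0)) (neg 10)) (neg 2)) (neg 2)) (split 2 (split 3 (split 4 (split 5 (lin [0, 7, 8, 0, 3, 0, 0, 0, 0, 0, 0, 0, 16]) (neg 0)) (neg 10)) (neg 2)) (neg 2)))) (neg 0)) (neg 7)) (neg 2)) (neg 2)) (split 2 (split 3 (split 5 (split 6 (split 0 (neg 2) (split 1 (split 2 (split 3 (split 4 (split 5 (lin [0, 7, 8, 0, 3, 0, 0, 0, 0, 0, 0, 0, 16]) (neg 0)) (neg 10)) (neg 2)) (neg 2)) (split 2 (split 3 (split 4 (split 5 (lin [0, 6, 16, 0, 3]) (neg 0)) (neg 10)) (neg 2)) (neg 2)))) (neg 0)) (neg 7)) (neg 2)) (neg 2)))))) (split 5 (split 6 (split 5 (split 2 (split 3 (split 2 (lin [22, 15, 0, 0, 32, 6, 0, 0, 0, 0, 3]) (split 4 (split 2 (lin [3, 6, 0, 8, 8]) (lin [32, 57, 0, 256, 104, 0, 0, 0, 0, 0, 2])) (lin [21, 32, 0, 64, 51, 1, 0, 0, 0, 0, 7]))) (split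 3 (split 2 (split 5 (lin [11, 19, 0, 0, 32, 6, 0, 0, 0, 0, 3]) (lin [6, 6, 3, 0, 8, 2, 0, 0, 0, 0, 1])) (split 5 (lin [22, 45, 0, 0, 64, 2]) (lin [7, 16, 6, 0, 8, 0, 0, 0, 0, 0, 1]))) (lin [0, 0, 32, 0, 0, 4, 0, 0, 0, 0, 1]))) (split 5 (lin [13, 38, 0, 256, 102, 0, 0, 0, 0, 0, 4]) (lin [8, 16, 0, 0, 8, 0, 0, 16, 0, 0, 1, 8]))) (split 2 (split 2 (lin [3, 4]) (split 3 (lin [3, 0, 0, 0, 0, 0, 0, 4]) (lin [2, 0, 0, 0, 0, 0, 0, 1]))) (lin [0, 0, 0, 3, 0, 0, 0, 4]))) (lin [2, 3, 0, 0, 0, 0, 4, 16])) (split 2 (split 3 (lin [2, 2, 0, 0, 0, 7, 0, 32, 0, 0, 2]) (lin [9, 0, 6, 0, 0, 16, 0, 64, 0, 0, 4])) (neg 7)))) (lin [0, 0, 0, 0, 0, 1, 0, 2]))) (lin [0, 0, 0, 0, 0, 7, 0, 0, 0, 0, 8])) (split 5 (lin [1, 0, 0, 0, 0, 0, 1, 8]) (lin [0, 0, 0, 0, 0, 5, 0, 8, 0, 0, 2]))) (lin [0, 0, 0, 0, 0, 4, 0, 0, 0, 0, 3]))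

def bx : List (ℕ × ℕ × ℕ) := [(0, 2, 5), (0, 2, 5), (0, 2, 5), (0, 2, 1), (0, 1, 1), (0, 16, 1), (0, 16, 1)]

def gs : List (Ex × ℕ) := [((add gD (mul (con 0) mo)), 273125), ((add gK (mul (con 0) mo)), 355625), ((add gT (mul (con 0) mo)), 8750), ((add gC (mul (con 0) mo)), 109750), ((add gF (mul (con 0) mo)), 50000), ((add gF2 (mul (con 0) mo)), 29250), ((add gk (mul (con 0) mo)), 50000), ((add gp (mul (con 0) mo)), 20000), ((add gB (mul (con 0) mo)), 2500), ((add gA (mul (con 0) mo)), 1250), ((add gR (mul (con 0) mo)), 75000), ((add gm (mul (con 0) mo)), 5000), ((add gda (mul (con 0) mo)), 1250)]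

theorem run_ok : BernL.run 69 7 bx gs tr = true := by
  decide +kernel

theorem no (a y D h w n k : ℝ) (ha : 0 ≤ a) (ha' : a ≤ 2 / 5) (hy : 0 ≤ y) (hy' : y ≤ 2 / 5)
    (hD : 0 ≤ D) (hh : 0 ≤ h) (hh' : h ≤ 2) (hw : 0 ≤ w) (hw' : w ≤ 1) (hn' : n ≤ 16) (hk : 0 ≤ k)
    (h1 : 0 ≤ (y - D * w) * (1 + h) + (1 - y + D * w) * w
      - ((1 - a) * n + D * (n * (1 + h - n)) + D * (k * (1 + h - w))))
    (h2 : 0 ≤ (y - D * w) + (1 - y + D * w) * w + a * h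
      - ((1 - a) * n + (y - D * w) * h + D * ((n + h) * (1 - n)) + D * (k * (1 - h - w))))
    (h3 : 0 ≤ 1 - D * h - (1 - a) * h)
    (h4 : 0 ≤ D * w + (a - D * w) * (y - D * w) - D * (n * (1 - D * n)))
    (h5 : 0 ≤ (1 - a) * n - (1 + a * w) * (a + y))
    (h6 : 0 ≤ 4 * (D * ((1 + a * w) * (5 * a + 2))) + 8 * (D * w) - 2 * (1 - a) - 4 * D)
    (h7 : 0 ≤ n - k) (h8 : 0 ≤ y - D * n) (h9 : 0 ≤ y - 2 * (D * w)) (h10 : 0 ≤ a - D * w)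
    (h11 : 0 ≤ 1 - 60 * (D * w)) (h12 : 0 ≤ 1 - a - y - D * h) (h13 : 0 ≤ a - D) : False := by
  refine BernL.no_point run_ok (fun i => ([a, y, D, h, w, n, k] : List ℝ).getD i 0) ?_ ?_
  · intro i hi
    interval_cases i <;> norm_num [bx] <;> constructor <;> linarith
  · intro g hg
    simp only [gs, List.mem_cons, List.not_mem_nil, or_false] at hg
    rcases hg with rfl | rfl | rfl | rfl | rfl | rfl | rfl | rfl | rfl | rfl | rfl | rfl | rfl <;>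
      simp only [gD, gK, gT, gC, gF, gF2, gk, gp, gB, gA, gR, gm, gda, c, e, U, mo, Ex.ev,
        List.getD_cons_zero, List.getD_cons_succ, Nat.cast_ofNat, Nat.cast_one, Nat.cast_zero] <;>
      linarith [h1, h2, h3, h4, h5, h6, h7, h8, h9, h10, h11, h12, h13]

end B2

end Pool.Agent.Lib.MP_f04ccf_co.CellCPB
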