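import Pool.Agent.Lib.MP_f04ccf_co.M.CellCQB

/-!
MP_f04ccf_co, regime L, concentrated packings: **the one cell claim without credit for all rows up to `R / 2`,
`R ≥ 40`** (full units, PC pairs both ways, served units of the host of the cell).

* `core`: in `R`-units;
* `cell_cq`: in the letters of `CellCP.cell_cp37`, with the two further tests (TS) = T with the content of the
  cell, and LEMMA N at `p + H`.
-/

set_option autoImplicit false

namespace Pool.Agent.Lib.MP_f04ccf_co.CellCQ

/-- the corner `E > 9 / 20` -/
lemma corner {a y D H E e : ℝ} (he : 0 < e) (he' : 40 * e ≤ 1) (ha2 : 2 * a ≤ 1) (hy2 : 2 * y ≤ 1)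
    (h3 : a + y + 3 * e ≤ 1) (hae : e ≤ a) (hD : 0 ≤ D) (hH : 0 ≤ H) (hm : a + y + H ≤ 1)
    (hE : 9 / 20 < E) (hEy : E ≤ y)
    (hC : E * (1 - E) ≤ e + (a - e) * (y - e))
    (h1 : (1 - a) * E + E * (D + H - E) ≤ (y - e) * (D + H) + e * (1 - y + e))
    (hF : (D + a * e) * (a + y) ≤ (1 - a) * E) : False := by
  obtain ⟨s, hs⟩ : ∃ s, s = 1 / 2 - E := ⟨_, rfl⟩
  obtain ⟨q, hq⟩ : ∃ q, q = 1 - a - y := ⟨_, rfl⟩
  have hEs : E = 1 / 2 - s := by linarith
  have hyq : y = 1 - a - q := by linarith
  have hs0 : 0 ≤ s := by linarith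
  have hs1 : s < 1 / 20 := by linarith
  have hqe : 3 * e ≤ q := by linarith
  have hq0 : 0 < q := by linarith
  -- `a ≥ 23 / 50`
  have hs2 : s ^ 2 ≤ 1 / 400 := by nlinarith only [hs0, hs1]
  have ha : 23 / 50 ≤ a := by
    have b1 : E * (1 - E) = 1 / 4 - s ^ 2 := by rw [hEs]; ring
    have b2 : (a - e) * (y - e) ≤ (a - e) * (1 / 2 - e) :=
      mul_le_mul_of_nonneg_left (by linarith only [hy2]) (by linarith only [hae])
    by_contra h
    push Not at h
    have b3 : (a - e) * (1 / 2 - e) ≤ (23 / 50 - e) * (1 / 2 - e) :=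
      mul_le_mul_of_nonneg_right (by linarith only [h]) (by linarith only [he'])
    have b4 : e * e ≤ e * (1 / 40) := mul_le_mul_of_nonneg_left (by linarith only [he']) he.le
    linarith only [hC, b1, b2, b3, b4, hs2, he']
  have hq1 : q ≤ 9 / 100 := by linarith only [hq, ha, hE, hEy]
  -- the cap
  have c1 : 2 * q - 25 / 9 * q ^ 2 ≤ 4 * s ^ 2 := by
    have b1 : 4 * ((a - e) * (y - e)) ≤ (1 - q - 2 * e) ^ 2 := by
      rw [hyq]
      linarith only [sq_nonneg (2 * a - 1 + q)]
    have b2 : 4 * (E * (1 - E)) = 1 - 4 * s ^ 2 := by rw [hEs]; ring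
    have b3 : (q + 2 * e) ^ 2 ≤ (5 / 3 * q) ^ 2 := by
      apply pow_le_pow_left₀ (by linarith only [hq0, he])
      linarith only [hqe]
    linarith only [hC, b1, b2, b3]
  have hq3 : q ^ 2 ≤ 9 / 100 * q := by nlinarith only [hq0, hq1]
  have hq2 : q < 3 / 500 := by linarith only [c1, hs2, hq3]
  have ha3 : 49 / 100 ≤ a := by linarith only [hq, hq2, hy2]
  have hDb : D ≤ 13 / 50 := by
    have b1 : (D + a * e) * (a + y) = (D + a * e) * (1 - q) := by rw [hyq]; ring
    have b2 : (1 - a) * E ≤ (51 / 100) * (1 / 2) :=
      mul_le_mul (by linarith only [ha3]) (by linarith only [hEy, hy2]) (by linarith only [hE])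
        (by norm_num)
    have b3 : D * (1 - q) ≤ (D + a * e) * (1 - q) := by
      apply mul_le_mul_of_nonneg_right _ (by linarith only [hq2])
      have b5 : 0 ≤ a * e := mul_nonneg (by linarith only [ha]) he.le
      linarith only [b5]
    have b4 : D * (497 / 500) ≤ D * (1 - q) := mul_le_mul_of_nonneg_left (by linarith only [hq2]) hD
    linarith only [b1, b2, b3, b4, hF]
  -- the column test
  have c2 : (9 / 50) * s ≤ e * (51 / 100 + e) := by
    have b1 : (E - D - H) * (1 - a - E) ≤ e * (1 - y + e) := by
      have b2 : 0 ≤ (1 - a - y + e) * (D + H) :=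
        mul_nonneg (by linarith only [h3, he]) (by linarith only [hD, hH])
      linarith only [h1, b2]
    have b3 : (9 / 50) * s ≤ (E - D - H) * (1 - a - E) := by
      have b4 : s ≤ 1 - a - E := by linarith only [hs, ha2]
      have b5 : (9 / 50 : ℝ) ≤ E - D - H := by linarith only [hE, hDb, hm, hq, hq2]
      calc (9 / 50) * s ≤ (E - D - H) * s := mul_le_mul_of_nonneg_right b5 hs0
        _ ≤ (E - D - H) * (1 - a - E) := mul_le_mul_of_nonneg_left b4 (by linarith only [b5])
    have b6 : e * (1 - y + e) ≤ e * (51 / 100 + e) :=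
      mul_le_mul_of_nonneg_left (by linarith only [hyq, hq2, ha2]) he.le
    linarith only [b1, b3, b6]
  have c3 : s ≤ q := by
    have b1 : e * (51 / 100 + e) ≤ (q / 3) * (52 / 100) :=
      mul_le_mul (by linarith only [hqe]) (by linarith only [hqe, hq2]) (by linarith only [he])
        (by linarith only [hq0])
    linarith only [c2, b1, hq0]
  have c4 : s ^ 2 ≤ q ^ 2 := pow_le_pow_left₀ hs0 c3 2
  have c5 : q ^ 2 ≤ 3 / 500 * q := by nlinarith only [hq0, hq2]
  linarith only [c1, c4, c5, hq0]

/-- **The one cell claim in `R`-units**: rows `a`, `y` at most `1 / 2`, content `E`, thirds `H`, `e = 1 / R`. -/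
theorem core {a y D H E e : ℝ} (he : 0 < e) (he' : 40 * e ≤ 1) (hae : e ≤ a) (ha2 : 2 * a ≤ 1)
    (hy : 2 * e ≤ y) (hy2 : 2 * y ≤ 1) (h3 : a + y + 3 * e ≤ 1) (hDe : e ≤ D) (hDa : D ≤ a)
    (hH : 0 ≤ H) (hm : a + y + H ≤ 1) (hE0 : 0 ≤ E) (hEy : E ≤ y)
    (hT : (1 - a) * H ≤ (1 - H) * D)
    (hC : E * (1 - E) ≤ e + (a - e) * (y - e))
    (hD : (1 - a) * E + E * (D + H - E) ≤ (y - e) * (D + H) + e * (1 - y + e))
    (hS : 2 * ((1 - a) * E) + E * (D + H - E) + (y - e - a) * H + (E + H) * (D - E)
      ≤ (y - e) * (D + H) + (y - e) * D + 2 * (e * (1 - y + e)))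
    (hTS : (2 * H + E ≤ 2 * D ∧ 2 * ((1 - a) * (E + H))
        ≤ 2 * ((1 - H) * D) + 2 * (E * (E + H - D)) + e * E) ∨
      (2 * D ≤ 2 * H + E ∧ 2 * ((1 - a) * (E + H))
        ≤ 2 * ((1 - H) * D) + E * (4 * H + 3 * E - 4 * D) + e * E))
    (hN : 2 * (E + H) ≤ 1 → (1 - 2 * (E + H)) * (E + H - D) ≤ a * (E + H))
    (hF2 : (1 - 2 * ((D + a * e) * (2 * a + 1))) * ((D + a * e) * (2 * a + 1) - D)
        ≤ a * ((D + a * e) * (2 * a + 1)) ∨
      1 - a + 2 * D ≤ 4 * ((D + a * e) * (2 * a + 1)) + 4 * e)
    (hF : (D + a * e) * (a + y) ≤ (1 - a) * E) : False := by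
  have hD0 : 0 < D := by linarith
  have ha0 : 0 < a := by linarith
  rcases lt_or_ge (9 / 20) E with hE | hE
  · exact corner he he' ha2 hy2 h3 hae hD0.le hH hm hE hEy hC hD hF
  have hH2 : 2 * H ≤ 1 := by
    have h1 : 0 ≤ (1 - a - D) * H := mul_nonneg (by linarith) hH
    have h2 : 0 ≤ D * (1 - 2 * H) := by linarith
    have h3 : 0 ≤ 1 - 2 * H := (mul_nonneg_iff_of_pos_left hD0).1 h2
    linarith
  -- the level is at most `1 / 2`
  have hlev : 2 * (E + H) ≤ 1 := by
    by_contra h
    push Not at h
    exact CellCQB.C1.no a y D H E e ha0.le (by linarith only [ha2]) (by linarith only [hy, he])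
      (by linarith only [hy2]) hD0.le (by linarith only [hDa, ha2]) hH (by linarith only [hH2])
      hE0 hE he.le (by linarith only [he'])
      (by linarith only [hT]) (by linarith only [hC]) (by linarith only [hy])
      (by linarith only [hm]) (by linarith only [h3]) (by linarith only [hEy])
      (by linarith only [hDa]) (by linarith only [hF]) (by linarith only [h])
  have hN' := hN hlev
  rcases hF2 with hF2 | hF2
  · -- the scaled letters
    obtain ⟨δ, hδ⟩ : ∃ δ, D = a * δ := ⟨D / a, by field_simp⟩
    obtain ⟨h, hh⟩ : ∃ h, H = D * h := ⟨H / D, by field_simp⟩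
    obtain ⟨n, hn⟩ : ∃ n, E = D * n := ⟨E / D, by field_simp⟩
    obtain ⟨w, hw⟩ : ∃ w, e = D * w := ⟨e / D, by field_simp⟩
    have dv : ∀ {x m : ℝ}, 0 < m → 0 ≤ m * x → 0 ≤ x := fun hm h => (mul_nonneg_iff_of_pos_left hm).1 h
    have hδ0 : 0 ≤ δ := dv ha0 (by linarith)
    have hδ1 : δ ≤ 1 := by
      have h1 : 0 ≤ 1 - δ := dv ha0 (by linarith)
      linarith
    have hh0 : 0 ≤ h := dv hD0 (by linarith)
    have hn0 : 0 ≤ n := dv hD0 (by linarith)
    have hw0 : 0 ≤ w := dv hD0 (by linarith)
    have hw1 : w ≤ 1 := by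
      have h1 : 0 ≤ 1 - w := dv hD0 (by linarith)
      linarith
    have k3 : 0 ≤ 1 - ((1 - a) + D) * h := by
      apply dv hD0
      rw [hh] at hT
      linarith
    have hh2 : h ≤ 2 := by
      have h1 : (1 / 2 : ℝ) * h ≤ ((1 - a) + D) * h := mul_le_mul_of_nonneg_right (by linarith) hh0
      linarith
    have k1 : 0 ≤ (y - e) * (1 + h) + w * (1 - y + e) - n * ((1 - a) + D * (1 + h) - D * n) := by
      apply dv hD0
      have e1 : D * ((y - e) * (1 + h) + w * (1 - y + e) - n * ((1 - a) + D * (1 + h) - D * n))
          = (y - e) * (D + D * h) + (D * w) * (1 - y + e)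
            - ((1 - a) * (D * n) + (D * n) * (D + D * h - D * n)) := by ring
      rw [e1, ← hw, ← hh, ← hn]
      linarith only [hD]
    have k2 : 0 ≤ (y - e) * (1 + h) + w * (1 - y + e) - n * ((1 - a) + D * (1 + h) - D * n)
        + (y - e + w * (1 - y + e) - ((1 - a) * n + (y - e - a) * h + (n + h) * (D - D * n))) := by
      apply dv hD0
      have e1 : D * ((y - e) * (1 + h) + w * (1 - y + e) - n * ((1 - a) + D * (1 + h) - D * n)
        + (y - e + w * (1 - y + e) - ((1 - a) * n + (y - e - a) * h + (n + h) * (D - D * n))))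
          = (y - e) * (D + D * h) + (D * w) * (1 - y + e)
            - ((1 - a) * (D * n) + (D * n) * (D + D * h - D * n))
            + ((y - e) * D + (D * w) * (1 - y + e)
              - ((1 - a) * (D * n) + (y - e - a) * (D * h) + (D * n + D * h) * (D - D * n))) := by ring
      rw [e1, ← hw, ← hh, ← hn]
      linarith only [hS]
    have k11 : 0 ≤ n * (1 - a) - (1 + a * w) * (a + y) := by
      apply dv hD0
      have e1 : D * (n * (1 - a) - (1 + a * w) * (a + y))
          = (1 - a) * (D * n) - (D + a * (D * w)) * (a + y) := by ring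
      rw [e1, ← hw, ← hn]
      linarith only [hF]
    have k12 : 0 ≤ (1 + a * w) * (2 * a + 1)
        - (1 - 2 * D * ((1 + a * w) * (2 * a + 1))) * (2 + w * (2 * a + 1)) := by
      apply dv (mul_pos ha0 hD0)
      have e1 : a * D * ((1 + a * w) * (2 * a + 1)
          - (1 - 2 * D * ((1 + a * w) * (2 * a + 1))) * (2 + w * (2 * a + 1)))
          = a * ((D + a * (D * w)) * (2 * a + 1))
            - (1 - 2 * ((D + a * (D * w)) * (2 * a + 1))) * ((D + a * (D * w)) * (2 * a + 1) - D) := by
        ring
      rw [e1, ← hw]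
      linarith only [hF2]
    have k13 : 0 ≤ a * (n + h) - (1 - 2 * D * (n + h)) * (n + h - 1) := by
      apply dv hD0
      have e1 : D * (a * (n + h) - (1 - 2 * D * (n + h)) * (n + h - 1))
          = a * (D * n + D * h) - (1 - 2 * (D * n + D * h)) * (D * n + D * h - D) := by ring
      rw [e1, ← hh, ← hn]
      linarith only [hN']
    have k5 : 0 ≤ e + (a - e) * (y - e) - D * n * (1 - D * n) := by
      rw [← hn]
      linarith only [hC]
    rcases hTS with ⟨t1, t2⟩ | ⟨t1, t2⟩
    · have k14 : 0 ≤ 2 * (1 - D * h) + 2 * (D * n * (n + h - 1)) + e * n - 2 * ((1 - a) * (n + h)) := by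
        apply dv hD0
        have e1 : D * (2 * (1 - D * h) + 2 * (D * n * (n + h - 1)) + e * n - 2 * ((1 - a) * (n + h)))
            = 2 * ((1 - D * h) * D) + 2 * ((D * n) * (D * n + D * h - D)) + e * (D * n)
              - 2 * ((1 - a) * (D * n + D * h)) := by ring
        rw [e1, ← hh, ← hn]
        linarith only [t2]
      have k15 : 0 ≤ 2 - 2 * h - n := by
        apply dv hD0
        rw [hh, hn] at t1
        linarith only [t1]
      subst hδ
      exact CellCQB.A1.no a y δ h n w ha0.le (by linarith only [ha2]) (by linarith only [hy, he])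
        (by linarith only [hy2]) hδ0 hδ1 hh0 (by linarith only [k15, hn0]) hn0
        (by linarith only [k15, hh0]) hw0 hw1
        (by rw [hw] at k1; linarith only [k1]) (by rw [hw] at k2; linarith only [k2])
        (by linarith only [k3]) (by rw [hn] at hE; linarith only [hE])
        (by rw [hw] at k5; linarith only [k5]) (by rw [hw] at hy; linarith only [hy])
        (by rw [hw] at he'; linarith only [he']) (by rw [hh] at hm; linarith only [hm])
        (by rw [hw] at h3; linarith only [h3]) (by rw [hn] at hEy; linarith only [hEy])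
        (by linarith only [k11]) (by linarith only [k12]) (by linarith only [k13])
        (by rw [hw] at k14; linarith only [k14]) (by linarith only [k15])
    · have k14 : 0 ≤ 2 * (1 - D * h) + D * n * (4 * h + 3 * n - 4) + e * n
          - 2 * ((1 - a) * (n + h)) := by
        apply dv hD0
        have e1 : D * (2 * (1 - D * h) + D * n * (4 * h + 3 * n - 4) + e * n
            - 2 * ((1 - a) * (n + h)))
            = 2 * ((1 - D * h) * D) + (D * n) * (4 * (D * h) + 3 * (D * n) - 4 * D) + e * (D * n)
              - 2 * ((1 - a) * (D * n + D * h)) := by ring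
        rw [e1, ← hh, ← hn]
        linarith only [t2]
      have k15 : 0 ≤ 2 * h + n - 2 := by
        apply dv hD0
        rw [hh, hn] at t1
        linarith only [t1]
      have hn9 : n ≤ 9 := by
        rcases lt_or_ge E (3 / 10) with hE3 | hE3
        · -- `n - (1 + h) ≤ w (1 - y + e) / (c - E)`
          have b1 : (n - (1 + h)) * (1 - a - E) ≤ w * (1 - y + e) := by
            have b2 : 0 ≤ (1 - a - y + e) * (1 + h) := mul_nonneg (by linarith) (by linarith)
            rw [hn]
            nlinarith
          have b3 : w * (1 - y + e) ≤ 1 := by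
            calc w * (1 - y + e) ≤ 1 * 1 := mul_le_mul hw1 (by linarith) (by linarith) (by norm_num)
              _ = 1 := by norm_num
          by_contra h9
          push Not at h9
          have b4 : (6 : ℝ) * (1 / 5) ≤ (n - (1 + h)) * (1 - a - E) :=
            mul_le_mul (by linarith) (by linarith) (by norm_num) (by linarith)
          linarith
        · have hD5 : 1 / 20 ≤ D := by
            by_contra h5
            push Not at h5
            exact CellCQB.C2.no a y D H E e ha0.le (by linarith only [ha2])
              (by linarith only [hy, he]) (by linarith only [hy2]) hD0.le h5.le hH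
              (by linarith only [hH2]) (by linarith only [hE3]) hE he.le (by linarith only [he'])
              (by linarith only [hD]) (by linarith only [hC]) (by linarith only [h3])
              (by linarith only [hm])
          by_contra h9
          push Not at h9
          have b4 : (1 / 20 : ℝ) * 9 < D * n := mul_lt_mul' hD5 h9 (by norm_num) hD0
          linarith
      subst hδ
      exact CellCQB.A2.no a y δ h n w ha0.le (by linarith only [ha2]) (by linarith only [hy, he])
        (by linarith only [hy2]) hδ0 hδ1 hh0 hh2 hn0 hn9 hw0 hw1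
        (by rw [hw] at k1; linarith only [k1]) (by rw [hw] at k2; linarith only [k2])
        (by linarith only [k3]) (by rw [hn] at hE; linarith only [hE])
        (by rw [hw] at k5; linarith only [k5]) (by rw [hw] at hy; linarith only [hy])
        (by rw [hw] at he'; linarith only [he']) (by rw [hh] at hm; linarith only [hm])
        (by rw [hw] at h3; linarith only [h3]) (by rw [hn] at hEy; linarith only [hEy])
        (by linarith only [k11]) (by linarith only [k12]) (by linarith only [k13])
        (by rw [hw] at k14; linarith only [k14]) (by linarith only [k15])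
  · rcases hTS with ⟨t1, t2⟩ | ⟨t1, t2⟩
    · exact CellCQB.B1.no a y D H E e ha0.le (by linarith only [ha2]) (by linarith only [hy, he])
        (by linarith only [hy2]) hD0.le (by linarith only [hDa, ha2]) hH (by linarith only [hH2])
        hE0 hE he.le (by linarith only [he']) (by linarith only [hD]) (by linarith only [hS])
        (by linarith only [hT]) (by linarith only [hC]) (by linarith only [hy])
        (by linarith only [hm]) (by linarith only [h3]) (by linarith only [hEy])
        (by linarith only [hDa]) (by linarith only [hF]) (by linarith only [hF2])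
        (by linarith only [hN']) (by linarith only [t2]) (by linarith only [t1])
    · exact CellCQB.B2.no a y D H E e ha0.le (by linarith only [ha2]) (by linarith only [hy, he])
        (by linarith only [hy2]) hD0.le (by linarith only [hDa, ha2]) hH (by linarith only [hH2])
        hE0 hE he.le (by linarith only [he']) (by linarith only [hD]) (by linarith only [hS])
        (by linarith only [hT]) (by linarith only [hC]) (by linarith only [hy])
        (by linarith only [hm]) (by linarith only [h3]) (by linarith only [hEy])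
        (by linarith only [hDa]) (by linarith only [hF]) (by linarith only [hF2])
        (by linarith only [hN']) (by linarith only [t2]) (by linarith only [t1])

end Pool.Agent.Lib.MP_f04ccf_co.CellCQ
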