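import Pool.Agent.Lib.MP_f04ccf_co.M.BernL

/-!
MP_f04ccf_co, the one cell claim (no credit) of regime L for all rows up to `R / 2`, `R ≥ 40`: the boxes,
checked by the kernel.  `A1`, `A2`: LEMMA N at `E`; `B1`, `B2`: beyond the top; `C1`: the level is at most
`R / 2`; `C2`: a bound.
-/

set_option autoImplicit false
set_option maxRecDepth 100000

namespace Pool.Agent.Lib.MP_f04ccf_co.CellCQB

open BernK BernK.Ex BernL BernL.Tr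

namespace A1

def c : Ex := (sub (con 1) (var 0))
def D : Ex := (mul (var 0) (var 2))
def e : Ex := (mul D (var 5))
def gD : Ex := (sub (add (mul (sub (var 1) e) (add (con 1) (var 3))) (mul (var 5) (add (sub (con 1) (var 1)) e))) (mul (var 4) (sub (add c (mul D (add (con 1) (var 3)))) (mul D (var 4)))))
def gS : Ex := (add (sub (add (mul (sub (var 1) e) (add (con 1) (var 3))) (mul (var 5) (add (sub (con 1) (var 1)) e))) (mul (var 4) (sub (add c (mul D (add (con 1) (var 3)))) (mul D (var 4))))) (sub (add (sub (var 1) e) (mul (var 5) (add (sub (con 1) (var 1)) e))) (add (add (mul c (var 4)) (mul (sub (sub (var 1) e) (var 0)) (var 3))) (mul (add (var 4) (var 3)) (sub D (mul D (var 4)))))))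
def gT : Ex := (sub (con 1) (mul (add c D) (var 3)))
def gE : Ex := (sub (con 9) (mul (con 20) (mul D (var 4))))
def gC : Ex := (sub (add e (mul (sub (var 0) e) (sub (var 1) e))) (mul (mul D (var 4)) (sub (con 1) (mul D (var 4)))))
def gY : Ex := (sub (var 1) (mul (con 2) e))
def gR : Ex := (sub (con 1) (mul (con 40) e))
def gM : Ex := (sub (sub c (var 1)) (mul D (var 3)))
def gMt : Ex := (sub (sub c (var 1)) (mul (con 3) e))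
def gP : Ex := (sub (var 1) (mul D (var 4)))
def gF : Ex := (sub (mul (var 4) c) (mul (add (con 1) (mul (var 0) (var 5))) (add (var 0) (var 1))))
def N : Ex := (mul (add (con 1) (mul (var 0) (var 5))) (add (mul (con 2) (var 0)) (con 1)))
def P : Ex := (add (con 2) (mul (var 5) (add (mul (con 2) (var 0)) (con 1))))
def gFt : Ex := (sub N (mul (sub (con 1) (mul (mul (con 2) D) N)) P))
def s : Ex := (add (var 4) (var 3))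
def gN : Ex := (sub (mul (var 0) s) (mul (sub (con 1) (mul (mul (con 2) D) s)) (sub s (con 1))))
def gQ : Ex := (sub (add (add (mul (con 2) (sub (con 1) (mul D (var 3)))) (mul (con 2) (mul (mul D (var 4)) (sub (add (var 4) (var 3)) (con 1))))) (mul e (var 4))) (mul (con 2) (mul c (add (var 4) (var 3)))))
def gQt : Ex := (sub (sub (con 2) (mul (con 2) (var 3))) (var 4))
def mo : Ex := (mul (mul (mul (mul (mul (mul (mul (mul (mul (mul (mul (mul (var 0) (var 0)) (var 0)) (var 0)) (var 1)) (var 2)) (var 2)) (var 3)) (var 3)) (var 4)) (var 4)) (var 5)) (var 5))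

def tr : BernL.Tr := (split 5 (split 0 (split 4 (split 5 (split 1 (split 2 (split 4 (lin [9, 7, 0, 0, 32, 0, 2, 0, 0, 0, 32, 10]) (lin [0, 5, 0, 0, 0, 0, 1, 0, 0, 0, 8, 3])) (split 0 (neg 11) (split 4 (split 4 (lin [0, 172, 0, 0, 259, 237, 9, 0, 0, 0, 512, 85]) (split 3 (lin [21, 85, 0, 0, 512, 0, 17, 0, 0, 0, 230, 47]) (split 1 (lin [15, 23, 0, 0, 128, 0, 6, 0, 0, 0, 73, 16, 0, 1]) (lin [0, 15, 0, 0, 0, 0, 2, 0, 0, 0, 32, 6, 0, 1])))) (lin [0, 10, 0, 0, 0, 0, 1, 0, 0, 0, 16, 3])))) (lin [0, 256, 0, 0, 0, 0, 27, 0, 0, 0, 512, 100])) (lin [0, 0, 0, 0, 0, 0, 3, 0, 0, 0, 0, 4])) (lin [0, 16, 0, 0, 0, 0, 1, 0, 0, 0, 14, 3, 0, 2])) (split 4 (split 2 (split 1 (split 5 (lin [174, 159, 0, 0, 0, 0, 10, 0, 0, 0, 512, 67]) (split 4 (lin [68, 0, 0, 0, 512, 16, 18, 0, 0, 0, 248, 47]) (split 2 (split 3 (split 0 (lin [16, 0, 0, 0, 0, 0,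 3, 0, 0, 0, 15, 7]) (lin [8, 0, 0, 0, 5, 0, 1, 0, 0, 0, 8, 2])) (split 0 (lin [27, 0, 0, 0, 0, 0, 5, 0, 0, 0, 32, 13, 0, 0, 2]) (lin [59, 0, 0, 0, 0, 0, 8, 0, 0, 0, 64, 19, 0, 0, 3]))) (split 3 (lin [17, 10, 0, 0, 7, 0, 9, 0, 0, 0, 32, 10]) (lin [101, 7, 0, 0, 0, 0, 30, 0, 0, 0, 128, 39, 0, 0, 11]))))) (split 0 (lin [0, 119, 0, 0, 0, 0, 18, 0, 0, 0, 256, 53, 0, 4, 8]) (lin [0, 1, 0, 0, 0, 0, 0, 0, 0, 0, 4]))) (lin [2, 30, 0, 0, 0, 0, 11, 0, 0, 0, 64, 0, 0, 0, 2])) (split 2 (split 3 (split 2 (split 1 (split 0 (lin [8, 0, 0, 0, 0, 0, 1, 0, 0, 0, 5, 2]) (lin [22, 18, 0, 0, 0, 0, 0, 0, 0, 0, 32, 3])) (lin [26, 39, 0, 0, 0, 0, 6, 0, 0, 0, 64, 13, 0, 0, 6])) (split 0 (lin [0, 8, 0, 0, 0, 0, 1, 0, 0, 0, 7]) (lin [0, 676, 0, 1, 2048, 0, 0, 0, 10, 0, 1126, 0, 0, 0, 84]))) (split 1 (lin [201, 119, 0, 0, 0, 0, 31, 0, 0, 0, 256, 63, 0,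 0, 103]) (lin [0, 55, 0, 0, 0, 0, 5, 0, 0, 0, 64, 10, 0, 0, 32]))) (split 4 (lin [0, 21, 0, 0, 0, 0, 3, 0, 0, 15, 32, 0, 0, 0, 1]) (split 0 (lin [0, 16, 0, 1, 0, 0, 2]) (lin [0, 122, 0, 11, 0, 0, 9, 0, 0, 30, 128, 0, 0, 0, 18])))))) (split 0 (lin [0, 0, 0, 0, 0, 0, 3, 0, 0, 0, 0, 8]) (split 3 (split 4 (split 1 (split 0 (lin [0, 0, 0, 0, 0, 0, 5, 0, 0, 0, 0, 8]) (split 3 (split 0 (lin [16, 0, 0, 0, 0, 10, 8, 0, 0, 0, 16, 13]) (lin [4, 0, 0, 0, 0, 10, 0, 0, 0, 6, 16, 1])) (split 2 (lin [443, 0, 0, 0, 37, 151, 232, 0, 0, 0, 512, 339]) (neg 6)))) (lin [0, 3, 0, 0, 0, 0, 3, 0, 0, 0, 8, 4])) (split 1 (split 0 (lin [3, 0, 0, 0, 0, 0, 5, 0, 0, 0, 0, 8]) (split 5 (split 3 (split 2 (split 2 (split 4 (split 1 (lin [30, 0, 0, 0, 64, 0, 10, 0, 0, 0, 30, 17]) (lin [64, 0, 0, 0, 0, 0, 31, 0, 0, 0, 64, 40])) (lin [256, 0, 0, 0, 13, 0, 68,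 0, 0, 0, 98, 99])) (neg 6)) (neg 6)) (split 4 (split 1 (split 1 (split 0 (lin [30, 0, 0, 0, 0, 0, 11, 0, 0, 32, 32, 20, 0, 0, 1]) (split 2 (split 2 (lin [61, 0, 0, 0, 128, 0, 17, 0, 0, 0, 60, 32, 0, 0, 1]) (neg 4)) (neg 5))) (split 0 (lin [128, 0, 0, 0, 0, 0, 51, 0, 0, 0, 127, 77]) (split 3 (split 5 (split 2 (lin [512, 0, 0, 0, 0, 0, 77, 0, 0, 256, 512, 143]) (neg 5)) (lin [32, 0, 0, 0, 0, 0, 20, 0, 0, 0, 32, 29])) (lin [1940, 0, 0, 0, 0, 0, 909, 0, 0, 556, 2048, 1300, 0, 0, 61])))) (lin [256, 0, 0, 0, 0, 0, 120, 0, 0, 0, 255, 161])) (split 2 (lin [128, 0, 0, 0, 0, 0, 16, 0, 0, 44, 79, 28, 0, 0, 36]) (neg 6)))) (lin [0, 0, 0, 0, 0, 0, 11, 0, 0, 0, 0, 16]))) (split 4 (lin [0, 8, 0, 0, 0, 0, 7, 0, 0, 0, 16, 9, 0, 0, 1]) (lin [512, 0, 0, 0, 0, 0, 217, 0, 0, 0, 389, 238, 0, 0, 64])))) (split 4 (split 4 (lin [0, 0, 0, 0, 0, 64,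 0, 0, 0, 0, 57, 7]) (split 1 (lin [205, 0, 0, 0, 0, 83, 120, 0, 0, 0, 256, 179, 0, 0, 26]) (lin [0, 0, 0, 0, 0, 0, 6, 0, 0, 0, 7, 8]))) (lin [107, 0, 0, 0, 0, 0, 59, 0, 0, 37, 128, 88, 0, 0, 72])))))

def bx : List (ℕ × ℕ × ℕ) := [(0, 500, 1000), (0, 1, 2), (0, 1, 1), (0, 1, 1), (0, 2, 1), (0, 1, 1)]

def gs : List (Ex × ℕ) := [((add gD (mul (con 0) mo)), 11000000000000), ((add gS (mul (con 0) mo)), 21000000000000), ((add gT (mul (con 0) mo)), 3000000000000), ((add gE (mul (con 0) mo)), 40000000000000), ((add gC (mul (con 0) mo)), 3000000000000), ((add gY (mul (con 0) mo)), 2000000000000), ((add gR (mul (con 0) mo)), 40000000000000), ((add gM (mul (con 0) mo)), 3000000000000), ((add gMt (mul (con 0) mo)), 5000000000000), ((add gP (mul (con 0) mo)), 2000000000000), ((add gF (mul (con 0) mo)), 5000000000000), ((add gFt (mul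 (con 0) mo)), 22000000000000), ((add gN (mul (con 0) mo)), 12000000000000), ((add gQ (mul (con 0) mo)), 18000000000000), ((add gQt (mul (con 0) mo)), 8000000000000)]

theorem run_ok : BernL.run 102 6 bx gs tr = true := by
  decide +kernel

theorem no (a y dl h n w : ℝ)
    (la : 0 ≤ a) (ua : a ≤ 500 / 1000)
    (ly : 0 ≤ y) (uy : y ≤ 1 / 2)
    (ldl : 0 ≤ dl) (udl : dl ≤ 1)
    (lh : 0 ≤ h) (uh : h ≤ 1)
    (ln : 0 ≤ n) (un : n ≤ 2)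
    (lw : 0 ≤ w) (uw : w ≤ 1)
    (h1 : 0 ≤ (((y - ((a * dl) * w)) * (1 + h)) + (w * ((1 - y) + ((a * dl) * w)))) - (n * (((1 - a) + ((a * dl) * (1 + h))) - ((a * dl) * n))))
    (h2 : 0 ≤ ((((y - ((a * dl) * w)) * (1 + h)) + (w * ((1 - y) + ((a * dl) * w)))) - (n * (((1 - a) + ((a * dl) * (1 + h))) - ((a * dl) * n)))) + (((y - ((a * dl) * w)) + (w * ((1 - y) + ((a * dl) * w)))) - ((((1 - a) * n) + (((y - ((a * dl) * w)) - a) * h)) + ((n + h) * ((a * dl) - ((a * dl) * n))))))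
    (h3 : 0 ≤ 1 - (((1 - a) + (a * dl)) * h))
    (h4 : 0 ≤ 9 - (20 * ((a * dl) * n)))
    (h5 : 0 ≤ (((a * dl) * w) + ((a - ((a * dl) * w)) * (y - ((a * dl) * w)))) - (((a * dl) * n) * (1 - ((a * dl) * n))))
    (h6 : 0 ≤ y - (2 * ((a * dl) * w)))
    (h7 : 0 ≤ 1 - (40 * ((a * dl) * w)))
    (h8 : 0 ≤ ((1 - a) - y) - ((a * dl) * h))
    (h9 : 0 ≤ ((1 - a) - y) - (3 * ((a * dl) * w)))
    (h10 : 0 ≤ y - ((a * dl) * n))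
    (h11 : 0 ≤ (n * (1 - a)) - ((1 + (a * w)) * (a + y)))
    (h12 : 0 ≤ ((1 + (a * w)) * ((2 * a) + 1)) - ((1 - ((2 * (a * dl)) * ((1 + (a * w)) * ((2 * a) + 1)))) * (2 + (w * ((2 * a) + 1)))))
    (h13 : 0 ≤ (a * (n + h)) - ((1 - ((2 * (a * dl)) * (n + h))) * ((n + h) - 1)))
    (h14 : 0 ≤ (((2 * (1 - ((a * dl) * h))) + (2 * (((a * dl) * n) * ((n + h) - 1)))) + (((a * dl) * w) * n)) - (2 * ((1 - a) * (n + h))))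
    (h15 : 0 ≤ (2 - (2 * h)) - n)
    : False := by
  refine BernL.no_point run_ok (fun i => ([a, y, dl, h, n, w] : List ℝ).getD i 0) ?_ ?_
  · intro i hi
    interval_cases i <;> norm_num [bx] <;> constructor <;> linarith
  · intro g hg
    simp only [gs, List.mem_cons, List.not_mem_nil, or_false] at hg
    rcases hg with rfl | rfl | rfl | rfl | rfl | rfl | rfl | rfl | rfl | rfl | rfl | rfl | rfl | rfl | rfl <;>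
      simp only [c, D, e, gD, gS, gT, gE, gC, gY, gR, gM, gMt, gP, gF, N, P, gFt, s, gN, gQ, gQt, mo, Ex.ev,
        List.getD_cons_zero, List.getD_cons_succ, Nat.cast_ofNat, Nat.cast_one, Nat.cast_zero] <;>
      linarith [h1, h2, h3, h4, h5, h6, h7, h8, h9, h10, h11, h12, h13, h14, h15]

end A1

namespace A2

def c : Ex := (sub (con 1) (var 0))
def D : Ex := (mul (var 0) (var 2))
def e : Ex := (mul D (var 5))
def gD : Ex := (sub (add (mul (sub (var 1) e) (add (con 1) (var 3))) (mul (var 5) (add (sub (con 1) (var 1)) e))) (mul (var 4) (sub (add c (mul D (add (con 1) (var 3)))) (mul D (var 4)))))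
def gS : Ex := (add (sub (add (mul (sub (var 1) e) (add (con 1) (var 3))) (mul (var 5) (add (sub (con 1) (var 1)) e))) (mul (var 4) (sub (add c (mul D (add (con 1) (var 3)))) (mul D (var 4))))) (sub (add (sub (var 1) e) (mul (var 5) (add (sub (con 1) (var 1)) e))) (add (add (mul c (var 4)) (mul (sub (sub (var 1) e) (var 0)) (var 3))) (mul (add (var 4) (var 3)) (sub D (mul D (var 4)))))))
def gT : Ex := (sub (con 1) (mul (add c D) (var 3)))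
def gE : Ex := (sub (con 9) (mul (con 20) (mul D (var 4))))
def gC : Ex := (sub (add e (mul (sub (var 0) e) (sub (var 1) e))) (mul (mul D (var 4)) (sub (con 1) (mul D (var 4)))))
def gY : Ex := (sub (var 1) (mul (con 2) e))
def gR : Ex := (sub (con 1) (mul (con 40) e))
def gM : Ex := (sub (sub c (var 1)) (mul D (var 3)))
def gMt : Ex := (sub (sub c (var 1)) (mul (con 3) e))
def gP : Ex := (sub (var 1) (mul D (var 4)))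
def gF : Ex := (sub (mul (var 4) c) (mul (add (con 1) (mul (var 0) (var 5))) (add (var 0) (var 1))))
def N : Ex := (mul (add (con 1) (mul (var 0) (var 5))) (add (mul (con 2) (var 0)) (con 1)))
def P : Ex := (add (con 2) (mul (var 5) (add (mul (con 2) (var 0)) (con 1))))
def gFt : Ex := (sub N (mul (sub (con 1) (mul (mul (con 2) D) N)) P))
def s : Ex := (add (var 4) (var 3))
def gN : Ex := (sub (mul (var 0) s) (mul (sub (con 1) (mul (mul (con 2) D) s)) (sub s (con 1))))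
def gQ : Ex := (sub (add (add (mul (con 2) (sub (con 1) (mul D (var 3)))) (mul (mul D (var 4)) (sub (add (mul (con 4) (var 3)) (mul (con 3) (var 4))) (con 4)))) (mul e (var 4))) (mul (con 2) (mul c (add (var 4) (var 3)))))
def gQt : Ex := (sub (add (mul (con 2) (var 3)) (var 4)) (con 2))
def mo : Ex := (mul (mul (mul (mul (mul (mul (mul (mul (mul (mul (mul (mul (var 0) (var 0)) (var 0)) (var 0)) (var 1)) (var 2)) (var 2)) (var 3)) (var 3)) (var 4)) (var 4)) (var 5)) (var 5))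

def tr : BernL.Tr := (split 5 (split 1 (split 3 (split 4 (split 1 (split 4 (split 0 (split 5 (split 2 (split 4 (split 3 (lin [2, 0, 0, 0, 0, 0, 0, 0, 0, 0, 0, 0, 0, 0, 1]) (split 0 (neg 11) (lin [217, 0, 0, 0, 0, 0, 19, 0, 0, 0, 256, 65, 0, 22, 9]))) (neg 0)) (split 0 (neg 11) (split 3 (lin [8, 0, 0, 0, 0, 0, 0, 0, 0, 0, 0, 0, 0, 0, 5]) (split 4 (split 2 (split 3 (lin [0, 8, 0, 0, 64, 0, 3, 0, 0, 0, 0, 1, 0, 0, 18]) (split 0 (lin [131, 45, 0, 0, 22, 0, 21, 0, 0, 0, 256, 58, 0, 28, 20]) (lin [545, 170, 0, 0, 0, 0, 67, 0, 0, 0, 1024, 182, 0, 105, 60]))) (split 0 (split 1 (lin [51, 0, 0, 0, 8, 0, 4, 0, 0, 0, 64, 12, 0, 15, 14]) (lin [59, 24, 0, 0, 512, 0, 18, 0, 0, 0, 208, 31, 0, 87, 82])) (lin [0, 0, 0, 0, 64, 0, 1, 0, 0, 0, 9]))) (neg 0))))) (lin [0, 0, 0, 0, 0, 0, 3, 0, 0, 0, 0, 4])) (split 2 (split 2 (split 5 (split 3 (lin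 [10, 0, 0, 0, 16, 0, 0, 0, 0, 0, 7, 1, 0, 0, 2]) (split 0 (lin [123, 0, 0, 0, 122, 0, 0, 0, 0, 0, 128, 28]) (lin [8, 0, 0, 0, 3, 0, 0, 0, 0, 0, 8]))) (split 3 (split 4 (lin [16, 0, 0, 0, 0, 0, 0, 0, 0, 0, 8, 1, 0, 0, 6]) (lin [2, 0, 0, 0, 0, 0, 0, 0, 0, 0, 1])) (split 4 (split 0 (lin [56, 0, 0, 0, 0, 0, 11, 0, 0, 0, 64, 26, 0, 2]) (lin [112, 0, 0, 0, 0, 0, 16, 0, 0, 0, 128, 35, 0, 3])) (lin [128, 0, 0, 0, 0, 0, 0, 0, 0, 0, 68, 15])))) (split 3 (lin [4, 0, 0, 0, 32, 0, 1, 0, 0, 0, 0, 0, 0, 0, 5]) (split 0 (split 5 (split 4 (lin [7, 0, 0, 0, 2, 0, 0, 0, 0, 0, 8, 1]) (neg 0)) (split 4 (lin [28, 0, 0, 0, 0, 0, 7, 0, 0, 0, 32, 10, 0, 1]) (neg 0))) (lin [8, 0, 0, 0, 16, 0, 1, 0, 0, 0, 9])))) (split 2 (split 4 (lin [0, 0, 0, 0, 64, 0, 1, 0, 0, 0, 9]) (neg 9)) (split 0 (lin [0, 11, 0, 0, 512, 0, 10, 0, 0, 88, 111]) (lin [0, 0, 0,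 0, 0, 0, 0, 0, 0, 2, 1]))))) (lin [11, 0, 0, 0, 0, 0, 0, 0, 0, 32])) (split 5 (split 4 (split 0 (split 2 (split 4 (lin [3654, 5889, 0, 0, 0, 0, 1436, 0, 0, 0, 16384, 4516, 0, 476]) (neg 0)) (split 4 (split 0 (neg 11) (split 2 (split 3 (lin [0, 32, 0, 0, 0, 0, 0, 0, 0, 0, 0, 0, 0, 0, 29]) (split 0 (lin [0, 129, 0, 0, 0, 0, 28, 0, 0, 0, 256, 62]) (lin [3, 60, 0, 0, 21, 0, 11, 0, 0, 0, 128, 24, 0, 3]))) (split 0 (lin [0, 129, 0, 0, 25, 0, 22, 0, 0, 0, 256, 55]) (lin [0, 4, 0, 0, 0, 0, 1, 0, 0, 0, 8])))) (neg 0))) (split 2 (split 4 (lin [14, 23, 0, 0, 0, 0, 3, 0, 0, 0, 64, 9, 0, 2]) (split 2 (lin [9, 5, 0, 0, 0, 0, 0, 0, 0, 0, 16, 0, 0, 1]) (neg 0))) (split 4 (lin [0, 4, 0, 0, 0, 0, 1, 0, 0, 0, 8]) (lin [0, 3, 0, 0, 0, 0, 0, 0, 0, 8])))) (split 2 (split 2 (lin [3, 3, 0, 0, 0, 0, 0, 0, 0, 8]) (lin [1, 0, 0, 0, 0, 0, 0, 0, 0, 4]))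 (lin [1, 0, 0, 0, 0, 0, 0, 0, 0, 4]))) (split 0 (lin [0, 0, 0, 0, 0, 0, 3, 0, 0, 0, 0, 4]) (split 2 (split 4 (split 2 (split 4 (split 0 (lin [454, 217, 0, 0, 0, 0, 142, 0, 0, 0, 1024, 345, 0, 58]) (lin [24, 2, 0, 0, 0, 0, 3, 0, 0, 0, 32, 8])) (split 3 (lin [15, 8, 0, 0, 0, 0, 0, 0, 0, 0, 16, 1]) (split 2 (lin [8, 0, 0, 0, 0, 0, 0, 0, 0, 0, 7, 1, 0, 1]) (lin [8, 0, 0, 0, 0, 0, 1, 0, 0, 0, 5, 1, 0, 1])))) (split 4 (split 0 (lin [182, 138, 0, 0, 79, 0, 97, 0, 0, 0, 512, 137, 0, 22]) (lin [3, 0, 0, 0, 0, 0, 0, 0, 0, 0, 4])) (lin [5, 8, 0, 0, 0, 0, 3]))) (split 2 (lin [8, 7, 0, 0, 0, 0, 3, 0, 0, 8]) (lin [1, 0, 0, 0, 0, 0, 0, 0, 0, 4]))) (neg 6))))) (split 4 (lin [3, 0, 0, 0, 0, 0, 0, 0, 0, 16]) (lin [1, 0, 0, 0, 0, 0, 0, 0, 0, 8]))) (split 4 (split 1 (split 4 (split 4 (split 0 (lin [20, 0, 0, 0, 256, 94, 0, 0, 0, 0, 121, 11, 0,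 52]) (lin [7, 0, 0, 0, 0, 0, 0, 0, 0, 52, 64, 1, 0, 29])) (split 2 (lin [64, 0, 0, 0, 0, 0, 1, 0, 0, 0, 41, 0, 0, 8]) (neg 0))) (lin [9, 0, 0, 0, 0, 0, 0, 0, 0, 16])) (split 4 (split 0 (split 2 (split 5 (lin [0, 0, 0, 0, 64, 0, 0, 0, 0, 0, 27, 8, 0, 24]) (lin [0, 0, 0, 0, 0, 0, 3, 0, 0, 0, 0, 4])) (split 4 (lin [0, 0, 0, 0, 16, 0, 0, 0, 0, 0, 6, 0, 0, 3]) (neg 1))) (split 2 (split 2 (split 4 (lin [18, 0, 0, 0, 0, 0, 0, 0, 0, 0, 32, 4, 0, 7]) (lin [16, 0, 0, 0, 0, 0, 1, 0, 0, 0, 15, 0, 0, 5])) (split 4 (lin [0, 0, 0, 0, 4, 0, 0, 0, 0, 0, 2, 0, 0, 1]) (lin [8, 0, 0, 0, 0, 0, 1, 0, 0, 0, 2, 0, 0, 1]))) (split 4 (lin [13, 0, 0, 0, 0, 0, 0, 0, 0, 0, 32, 0, 0, 15]) (neg 0)))) (split 0 (lin [3, 0, 1, 0, 0, 0, 0, 0, 0, 8, 0, 3]) (split 0 (lin [5, 0, 2, 0, 0, 0, 1, 0, 0, 16, 0, 5]) (split 2 (split 2 (lin [128, 0, 0, 0, 0, 0, 0, 0,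 0, 0, 0, 0, 0, 1]) (lin [3, 0, 0, 0, 0, 0, 0, 0, 0, 8])) (neg 9)))))) (split 4 (lin [15, 0, 0, 0, 0, 0, 0, 0, 0, 64]) (lin [1, 0, 0, 0, 0, 0, 0, 0, 0, 8])))) (split 3 (split 1 (split 4 (split 5 (split 2 (split 0 (split 4 (split 4 (lin [0, 8, 0, 0, 0, 0, 1, 0, 0, 0, 16, 5]) (neg 1)) (neg 0)) (split 4 (split 4 (lin [0, 8, 0, 0, 0, 0, 0, 0, 0, 0, 16, 1]) (split 2 (lin [3, 5, 0, 0, 0, 0, 0, 0, 0, 0, 8]) (split 3 (lin [16, 16, 0, 0, 128, 0, 1, 0, 0, 0, 30]) (split 2 (lin [8, 4, 0, 0, 0, 0, 0, 0, 0, 0, 7]) (lin [4, 0, 0, 0, 0, 0, 0, 0, 0, 0, 1]))))) (split 2 (split 3 (split 2 (neg 0) (lin [3, 0, 0, 0, 0, 0, 0, 0, 0, 4])) (split 2 (neg 0) (lin [4, 0, 0, 0, 0, 0, 0, 0, 0, 3]))) (split 3 (split 2 (lin [25, 0, 0, 0, 0, 0, 2, 0, 0, 64]) (lin [1, 0, 0, 0, 0, 0, 0, 0, 0, 4])) (lin [434, 0, 0, 0, 0, 0, 35, 0, 0, 1024]))))) (split 4 (split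 0 (split 4 (lin [0, 231, 0, 0, 400, 0, 27, 0, 0, 0, 512, 81, 0, 51, 51]) (neg 0)) (split 4 (lin [0, 4, 0, 0, 0, 0, 1, 0, 0, 0, 8]) (split 0 (lin [0, 8, 0, 0, 0, 0, 1, 0, 0, 6]) (lin [51, 85, 0, 0, 0, 0, 7, 0, 0, 256, 156])))) (lin [0, 1, 0, 0, 0, 0, 0, 0, 0, 8]))) (split 0 (lin [0, 0, 0, 0, 0, 0, 3, 0, 0, 0, 0, 4]) (split 2 (split 4 (split 2 (split 4 (lin [29, 12, 0, 0, 0, 0, 5, 0, 0, 0, 64, 15, 0, 5]) (split 3 (lin [18, 23, 0, 0, 0, 0, 0, 0, 0, 0, 32, 1]) (split 2 (lin [7, 0, 0, 0, 0, 0, 0, 0, 0, 0, 8, 1, 0, 3]) (split 0 (lin [0, 3, 0, 0, 0, 0, 1, 0, 0, 0, 4, 1, 0, 1]) (lin [32, 0, 0, 0, 0, 0, 6, 0, 0, 0, 26, 0, 0, 9]))))) (split 4 (lin [0, 14, 0, 0, 0, 0, 5, 0, 0, 0, 32, 6, 0, 2]) (lin [0, 8, 0, 0, 0, 0, 6, 0, 0, 0, 7, 0, 0, 2]))) (split 2 (split 4 (neg 0) (lin [3, 2, 0, 0, 0, 0, 1, 0, 0, 8])) (lin [0, 1, 0, 0, 0, 0, 2,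 0, 0, 4]))) (neg 6)))) (split 0 (lin [1, 0, 0, 0, 0, 0, 0, 0, 0, 8, 0, 2]) (split 4 (split 0 (lin [0, 11, 0, 0, 0, 0, 3, 0, 0, 128, 0, 13]) (split 2 (split 2 (split 2 (neg 0) (lin [7, 0, 0, 0, 0, 0, 1, 0, 0, 32])) (neg 9)) (neg 3))) (split 4 (split 2 (lin [11, 74, 0, 0, 0, 0, 0, 0, 0, 1024]) (neg 3)) (lin [0, 131, 0, 0, 0, 0, 0, 0, 0, 2048]))))) (split 4 (split 5 (split 2 (split 0 (split 4 (split 4 (lin [0, 2, 0, 0, 0, 0, 0, 0, 0, 0, 4, 1]) (neg 1)) (neg 0)) (split 4 (split 2 (split 4 (lin [0, 4, 0, 0, 0, 0, 0, 0, 0, 0, 8, 1]) (lin [7, 51, 0, 0, 0, 0, 0, 16, 0, 0, 64])) (split 4 (lin [0, 1, 0, 0, 0, 0, 0, 0, 0, 0, 2]) (split 0 (lin [0, 4, 0, 0, 0, 0, 0, 0, 0, 0, 2, 0, 0, 1]) (split 3 (split 2 (lin [8, 6, 0, 0, 0, 0, 0, 6, 5, 0, 7]) (split 4 (lin [4, 0, 0, 0, 0, 0, 0, 0, 0, 0, 3]) (split 3 (lin [124, 34, 0, 7, 0, 0, 0, 65,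 128]) (lin [128, 0, 0, 3, 0, 0, 0, 93, 59])))) (split 4 (lin [0, 1, 0, 0, 0, 0, 0, 0, 0, 0, 2]) (lin [5, 1, 0, 0, 0, 0, 0, 8])))))) (split 2 (split 4 (lin [4, 1, 0, 0, 0, 0, 0, 0, 8]) (split 3 (split 3 (split 1 (lin [2, 1, 0, 0, 0, 0, 0, 0, 5, 8]) (lin [307, 51, 0, 37, 0, 0, 0, 0, 512, 102])) (split 0 (neg 0) (split 1 (lin [9, 0, 0, 0, 0, 0, 0, 0, 7, 16]) (lin [878, 0, 0, 79, 0, 0, 0, 73, 1024])))) (split 2 (neg 0) (lin [9, 0, 0, 0, 0, 0, 0, 16, 8, 13])))) (split 0 (split 2 (lin [0, 1, 0, 0, 8]) (lin [4, 8, 0, 2, 0, 0, 1])) (split 4 (split 3 (split 2 (split 4 (lin [512, 0, 0, 23, 0, 0, 0, 0, 432]) (lin [113, 0, 0, 11, 0, 0, 0, 0, 128])) (lin [4096, 0, 0, 425, 0, 0, 0, 0, 3616])) (split 2 (lin [193, 0, 0, 9, 0, 0, 8, 256]) (lin [40, 0, 0, 3, 0, 0, 1, 64]))) (lin [6, 0, 0, 1, 0, 0, 0, 0, 8])))))) (split 4 (split 0 (split 4 (lin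 [0, 15, 0, 0, 27, 0, 1, 0, 0, 0, 32, 4, 0, 3, 3]) (neg 1)) (split 4 (lin [0, 1, 0, 0, 0, 0, 0, 0, 0, 0, 2]) (split 0 (split 2 (lin [0, 8, 0, 0, 0, 0, 1, 3]) (lin [0, 16, 0, 1, 0, 0, 1, 7])) (split 4 (lin [0, 21, 0, 1, 0, 0, 0, 0, 0, 0, 32]) (lin [0, 16, 0, 2, 0, 0, 1, 16, 3, 0, 4]))))) (lin [17, 64, 0, 25]))) (split 0 (lin [0, 0, 0, 0, 0, 0, 3, 0, 0, 0, 0, 4]) (split 2 (split 4 (split 2 (split 4 (lin [0, 31, 0, 0, 0, 0, 0, 0, 0, 0, 64, 11]) (split 2 (lin [0, 5, 0, 0, 0, 0, 0, 0, 0, 0, 8, 0, 0, 1]) (split 0 (lin [0, 3, 0, 0, 0, 0, 0, 0, 0, 0, 4, 0, 0, 1]) (lin [0, 23, 0, 0, 0, 0, 11, 0, 0, 0, 32, 0, 0, 3])))) (split 4 (lin [0, 4, 0, 0, 0, 0, 1, 0, 0, 0, 8, 1]) (lin [0, 8, 0, 0, 0, 0, 4, 0, 0, 0, 7]))) (split 2 (split 4 (lin [12, 14, 0, 0, 0, 0, 1, 0, 32]) (split 3 (split 2 (neg 0) (lin [13, 7, 0, 0, 0, 0, 32, 0, 20])) (split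 2 (neg 0) (lin [6, 0, 0, 0, 0, 0, 5, 0, 8])))) (lin [3, 1, 0, 0, 0, 0, 8]))) (neg 6)))) (split 0 (lin [0, 1, 0, 1, 0, 0, 0, 0, 0, 0, 0, 8]) (split 2 (split 4 (split 2 (split 2 (neg 0) (split 4 (split 3 (split 5 (split 3 (lin [361, 0, 0, 61, 0, 0, 0, 0, 512, 151]) (lin [384, 0, 0, 67, 0, 0, 0, 0, 512, 32])) (lin [31, 16, 0, 0, 0, 0, 0, 0, 256, 209])) (split 5 (lin [54, 0, 0, 3, 0, 0, 0, 128, 67, 115]) (lin [67, 0, 0, 1, 0, 0, 0, 0, 256, 172]))) (split 3 (lin [55, 0, 0, 11, 0, 0, 0, 0, 128, 75]) (lin [30, 0, 0, 6, 0, 0, 0, 0, 64, 21])))) (lin [8, 0, 0, 3, 0, 0, 2])) (split 0 (lin [0, 64, 0, 49, 0, 0, 0, 0, 0, 0, 0, 59]) (split 4 (split 2 (split 2 (lin [3, 1, 0, 1, 0, 0, 0, 0, 8]) (lin [7, 0, 0, 2, 0, 0, 0, 0, 16, 10])) (neg 3)) (split 0 (lin [12, 84, 0, 67, 0, 0, 0, 0, 128]) (split 5 (split 2 (split 2 (lin [16, 3, 0, 7, 0, 0,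 0, 0, 32]) (lin [0, 0, 0, 1, 16])) (neg 3)) (split 2 (split 2 (lin [17, 2, 0, 3, 0, 0, 0, 0, 64, 54]) (lin [2, 0, 0, 1])) (neg 3))))))) (neg 3))))) (split 1 (split 4 (split 5 (split 2 (split 0 (split 4 (lin [0, 0, 0, 0, 0, 0, 0, 0, 0, 0, 6, 3, 0, 8]) (neg 0)) (split 4 (split 2 (split 4 (lin [0, 0, 0, 0, 0, 0, 0, 0, 0, 0, 2, 0, 0, 1]) (split 2 (lin [6, 0, 0, 0, 0, 0, 0, 0, 0, 0, 8, 0, 0, 3]) (split 3 (split 2 (lin [8, 0, 0, 0, 0, 0, 0, 0, 0, 0, 6, 0, 0, 5]) (lin [32, 0, 0, 0, 0, 0, 1, 9, 0, 0, 21, 0, 0, 7])) (lin [672, 0, 0, 0, 0, 0, 25, 1024, 0, 0, 434, 0, 0, 306])))) (split 4 (lin [0, 1, 0, 0, 0, 0, 0, 0, 0, 0, 4, 0, 0, 1]) (split 3 (split 2 (split 2 (lin [128, 0, 0, 0, 0, 0, 2, 0, 0, 0, 73, 0, 0, 17]) (lin [256, 0, 0, 0, 0, 0, 5, 0, 0, 0, 114, 0, 0, 28])) (lin [14, 0, 0, 0, 128, 0, 0, 0, 0, 0, 14, 0, 0, 3])) (lin [12, 0,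 13, 0, 0, 0, 0, 16, 0, 0, 7, 0, 0, 3])))) (split 2 (split 4 (lin [8, 0, 0, 0, 0, 0, 0, 0, 0, 0, 0, 0, 0, 1]) (lin [8, 0, 1, 0, 0, 0, 0, 0, 0, 3])) (lin [9, 0, 0, 0, 0, 0, 0, 4, 0, 16])))) (split 3 (split 4 (split 4 (lin [0, 1, 1, 0, 8, 0, 0, 0, 0, 0, 5, 0, 0, 2]) (lin [32, 0, 4, 0, 0, 0, 0, 0, 0, 0, 3])) (lin [3, 0, 0, 0, 0, 0, 0, 0, 0, 8])) (neg 2))) (split 0 (lin [0, 0, 0, 0, 0, 0, 3, 0, 0, 0, 0, 4]) (split 2 (split 4 (split 2 (split 0 (lin [0, 0, 0, 0, 0, 0, 0, 0, 0, 0, 30, 7, 0, 32]) (split 2 (lin [5, 0, 0, 0, 0, 0, 0, 0, 0, 0, 8, 0, 0, 2]) (split 4 (lin [0, 0, 0, 0, 0, 0, 0, 0, 0, 0, 8, 0, 0, 5]) (split 3 (split 0 (neg 13) (split 0 (lin [16, 0, 0, 0, 0, 0, 2, 0, 0, 0, 15, 0, 0, 5]) (lin [64, 0, 0, 0, 0, 0, 4, 22, 0, 0, 61, 0, 0, 11]))) (lin [51, 0, 0, 0, 0, 0, 60, 42, 0, 0, 64, 0, 0, 42]))))) (split 4 (lin [0, 0, 0, 0,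 0, 0, 0, 0, 0, 0, 8, 0, 0, 5]) (lin [3, 0, 0, 0, 0, 0, 8, 0, 0, 0, 0, 0, 0, 3]))) (split 2 (split 4 (split 2 (neg 13) (lin [8, 0, 0, 0, 0, 0, 2, 0, 0, 0, 0, 0, 0, 1])) (lin [8, 0, 0, 0, 0, 0, 1])) (lin [7, 0, 0, 0, 0, 0, 8, 0, 0, 1]))) (neg 6)))) (split 0 (lin [1, 0, 0, 0, 0, 0, 0, 0, 0, 8, 0, 2]) (split 4 (split 0 (lin [27, 0, 16, 0, 0, 0, 3, 0, 0, 128, 0, 16]) (split 2 (split 2 (split 2 (neg 0) (lin [1, 0, 0, 0, 0, 0, 0, 0, 0, 4])) (neg 9)) (neg 3))) (split 0 (lin [9, 0, 0, 0, 0, 0, 0, 0, 0, 64]) (split 4 (split 3 (lin [45, 0, 0, 0, 0, 0, 0, 0, 0, 256, 0, 1]) (lin [25, 0, 19, 0, 0, 0, 0, 0, 0, 128, 0, 2])) (split 2 (lin [39, 0, 0, 0, 0, 0, 0, 0, 0, 256]) (neg 3))))))) (split 4 (split 5 (split 3 (split 4 (split 2 (split 0 (lin [0, 0, 0, 0, 0, 0, 0, 0, 0, 0, 7, 0, 0, 8]) (split 2 (split 0 (lin [0, 0, 0, 0, 0, 0, 0, 0, 0, 0,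 8, 1, 0, 8]) (split 4 (neg 10) (split 4 (lin [0, 4, 0, 0, 0, 0, 0, 0, 0, 0, 8, 0, 0, 1]) (lin [9, 11, 0, 0, 0, 0, 0, 32, 0, 0, 4, 0, 0, 6])))) (split 4 (lin [0, 0, 0, 0, 0, 0, 0, 0, 0, 0, 8, 0, 0, 5]) (split 0 (lin [0, 8, 0, 0, 0, 0, 0, 0, 0, 0, 0, 0, 0, 3]) (split 4 (lin [4, 4, 0, 0, 0, 0, 0, 8, 0, 0, 7, 0, 0, 2]) (lin [1, 5, 0, 0, 0, 0, 0, 16])))))) (split 4 (lin [0, 2, 1, 0, 0, 0, 0, 0, 0, 0, 8, 0, 0, 2]) (split 0 (neg 1) (split 0 (lin [1, 5, 0, 0, 0, 0, 0, 8]) (lin [9, 3, 0, 0, 0, 0, 0, 16, 0, 0, 8]))))) (split 0 (lin [0, 16, 5, 3]) (split 2 (split 2 (split 4 (lin [2, 3, 0, 0, 0, 0, 0, 8]) (lin [2, 0, 0, 0, 0, 0, 0, 4, 0, 1])) (split 4 (lin [201, 0, 0, 5, 0, 0, 0, 256]) (lin [8, 0, 0, 1, 0, 0, 0, 16]))) (lin [8, 0, 2, 1])))) (split 0 (neg 2) (split 0 (split 4 (lin [0, 0, 16, 0, 0, 0, 0, 0, 0, 0, 2, 0, 0, 1]) (lin [0, 3,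 64, 0, 0, 0, 0, 0, 0, 0, 0, 3])) (split 4 (split 2 (split 2 (split 4 (neg 10) (split 2 (neg 13) (lin [7, 0, 0, 0, 0, 0, 1, 64, 0, 0, 0, 0, 0, 13]))) (split 0 (neg 2) (lin [0, 0, 24, 0, 0, 0, 0, 128, 0, 0, 4, 0, 0, 13]))) (neg 2)) (split 2 (split 2 (split 2 (lin [2, 0, 0, 0, 0, 0, 0, 0, 0, 0, 0, 0, 0, 1]) (lin [11, 2, 3, 0, 0, 0, 0, 32])) (lin [2, 0, 5, 0, 0, 0, 0, 8])) (neg 2)))))) (split 0 (lin [0, 0, 0, 0, 0, 0, 3, 0, 0, 0, 0, 4]) (split 2 (split 4 (split 2 (split 0 (lin [0, 0, 0, 0, 0, 0, 0, 0, 0, 0, 8, 1, 0, 8]) (split 2 (lin [0, 0, 0, 0, 0, 0, 0, 0, 0, 0, 8, 1, 0, 5]) (split 4 (neg 10) (split 3 (split 0 (neg 13) (split 2 (lin [4, 3, 0, 0, 0, 0, 1, 5, 0, 0, 8, 0, 0, 4]) (lin [26, 6, 0, 0, 0, 0, 8, 31, 0, 0, 32, 0, 0, 7]))) (lin [0, 0, 0, 0, 0, 0, 3, 16, 0, 0, 0, 0, 0, 4]))))) (split 0 (split 0 (lin [0, 0, 0, 0, 0, 0, 64,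 0, 0, 0, 63, 0, 0, 47]) (lin [0, 0, 0, 0, 0, 0, 16, 0, 0, 0, 12, 0, 0, 11])) (lin [0, 0, 0, 0, 0, 0, 8, 0, 0, 0, 3, 0, 0, 3]))) (split 2 (split 2 (lin [0, 5, 0, 0, 0, 0, 0, 16, 0, 0, 0, 0, 0, 3]) (split 4 (lin [11, 1, 0, 0, 0, 0, 3, 32, 0, 0, 0, 0, 0, 2]) (lin [3, 0, 0, 0, 0, 0, 1, 8]))) (lin [65, 311, 34, 0, 292, 0, 1024, 717]))) (neg 6)))) (split 0 (lin [7, 0, 4, 3, 0, 0, 2, 0, 0, 0, 0, 32]) (split 2 (split 4 (split 2 (split 2 (neg 0) (split 4 (lin [21, 0, 0, 1, 0, 0, 1, 64, 0, 32]) (lin [31, 0, 0, 0, 0, 0, 0, 128, 0, 117]))) (lin [32, 0, 10, 9, 0, 0, 10])) (split 0 (lin [0, 32, 19, 25, 0, 0, 0, 0, 0, 0, 0, 29]) (split 3 (split 2 (split 2 (split 5 (lin [5, 0, 0, 1, 0, 0, 0, 8]) (split 1 (lin [2, 0, 0, 0, 0, 0, 0, 0, 5, 8]) (lin [793, 0, 0, 139, 0, 0, 0, 0, 2048, 462]))) (lin [5, 0, 0, 1, 0, 0, 0, 13, 8, 16])) (neg 3)) (split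 4 (split 2 (split 2 (lin [3, 0, 0, 0, 11, 0, 1, 16]) (lin [7, 0, 0, 2, 0, 0, 0, 32])) (neg 3)) (split 2 (split 2 (lin [5, 0, 0, 0, 0, 0, 0, 32, 0, 17]) (lin [8, 0, 0, 7])) (neg 3)))))) (neg 3))))))) (split 0 (lin [0, 0, 0, 0, 0, 0, 3, 0, 0, 0, 0, 8]) (split 0 (lin [0, 0, 0, 0, 0, 0, 5, 0, 0, 0, 0, 8]) (split 5 (split 1 (split 4 (split 3 (split 2 (split 0 (split 5 (split 1 (split 4 (split 4 (lin [996, 0, 0, 0, 0, 0, 425, 0, 0, 0, 1024, 646, 0, 14]) (split 2 (lin [64, 0, 0, 0, 0, 0, 26, 0, 0, 0, 33, 45]) (neg 4))) (lin [3, 0, 0, 0, 0, 0, 0, 0, 0, 8])) (split 3 (split 4 (split 3 (lin [64, 0, 0, 0, 0, 0, 29, 0, 0, 0, 38, 35, 0, 0, 15]) (split 4 (lin [32, 0, 0, 0, 0, 0, 4, 0, 0, 0, 29, 9, 0, 0, 5]) (split 2 (lin [16, 0, 0, 0, 0, 0, 5, 0, 0, 0, 9, 9]) (neg 6)))) (lin [4, 15, 0, 0, 0, 0, 32, 0, 0, 0, 0, 24])) (split 4 (split 4 (lin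 [6, 0, 0, 0, 0, 0, 4, 0, 0, 0, 8, 6, 0, 1]) (split 2 (lin [32, 0, 0, 0, 0, 0, 10, 0, 0, 0, 23, 16, 0, 7]) (neg 6))) (lin [16, 0, 0, 0, 0, 0, 13, 0, 0, 0, 0, 11])))) (lin [1, 0, 0, 0, 0, 0, 5, 0, 0, 0, 0, 8])) (split 4 (split 3 (split 2 (split 2 (split 1 (split 4 (lin [27, 0, 0, 0, 32, 0, 7, 0, 0, 0, 30, 14, 0, 0, 1]) (lin [55, 0, 0, 0, 128, 0, 15, 0, 0, 0, 52, 31])) (split 4 (neg 10) (lin [16, 0, 0, 0, 0, 0, 4, 0, 0, 0, 12, 7]))) (neg 6)) (neg 6)) (split 2 (split 2 (split 4 (lin [4, 0, 0, 0, 16, 0, 1, 0, 0, 0, 9, 3]) (split 1 (lin [15393, 0, 0, 0, 16384, 0, 3982, 0, 0, 0, 13795, 8198, 0, 428]) (lin [128, 0, 0, 0, 0, 0, 32, 0, 0, 0, 114, 55, 0, 18]))) (neg 6)) (neg 6))) (split 4 (split 2 (lin [4, 0, 0, 0, 0, 0, 1, 0, 0, 0, 0, 0, 0, 1]) (neg 6)) (lin [64, 0, 0, 0, 0, 0, 37])))) (neg 6)) (split 4 (split 3 (split 2 (split 2 (split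 2 (split 1 (lin [0, 0, 0, 0, 8, 0, 0, 0, 0, 0, 2, 0, 0, 1]) (lin [14, 0, 0, 0, 128, 0, 0, 0, 0, 0, 65, 0, 0, 30])) (lin [0, 0, 0, 0, 0, 0, 2, 0, 0, 0, 0, 1])) (neg 6)) (neg 6)) (lin [18, 0, 17, 0, 0, 0, 38, 0, 0, 120, 128, 0, 0, 55])) (split 1 (lin [3, 0, 0, 0, 0, 0, 0, 0, 0, 32, 0, 3, 0, 1]) (split 4 (split 2 (split 2 (lin [4, 0, 0, 0, 0, 0, 1, 0, 0, 0, 0, 0, 0, 1]) (neg 6)) (neg 6)) (lin [108, 0, 0, 0, 0, 0, 128, 0, 0, 0, 0, 0, 0, 27]))))) (split 4 (split 3 (split 2 (lin [46, 0, 0, 0, 0, 0, 15, 0, 0, 256, 0, 34]) (neg 3)) (split 2 (lin [7, 0, 0, 0, 0, 0, 2, 0, 0, 32, 0, 5]) (neg 3))) (lin [19, 0, 0, 0, 0, 0, 0, 0, 0, 512, 0, 106, 0, 6]))) (split 3 (split 4 (split 4 (split 2 (split 1 (split 3 (split 2 (split 2 (lin [32, 0, 0, 0, 0, 0, 5, 0, 0, 0, 31, 10]) (lin [0, 0, 0, 0, 0, 0, 2, 0, 0, 0, 0, 1])) (neg 6)) (split 0 (split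 4 (neg 10) (split 2 (split 2 (lin [7, 0, 0, 0, 0, 0, 1, 0, 0, 0, 8, 2, 0, 2]) (lin [0, 0, 0, 0, 0, 0, 7, 0, 0, 0, 0, 8])) (neg 6))) (split 2 (split 2 (lin [214, 0, 0, 0, 0, 0, 31, 0, 0, 0, 256, 58, 0, 32]) (neg 6)) (neg 6)))) (split 2 (lin [0, 49, 0, 0, 0, 0, 35, 0, 0, 0, 128, 24, 0, 15]) (neg 6))) (neg 6)) (split 2 (split 4 (split 2 (split 2 (lin [0, 4, 0, 0, 0, 0, 1, 0, 0, 0, 0, 0, 0, 2]) (lin [0, 5, 0, 0, 0, 0, 8, 0, 0, 0, 0, 0, 0, 2])) (neg 6)) (split 2 (lin [3, 3, 0, 0, 0, 0, 3, 0, 8]) (neg 6))) (neg 6))) (split 2 (split 0 (split 5 (split 4 (split 2 (lin [0, 3, 0, 0, 0, 0, 8]) (neg 6)) (split 4 (lin [0, 11, 0, 0, 0, 0, 64, 0, 1, 0, 0, 11]) (lin [1, 7, 0, 6, 0, 0, 2, 0, 8, 0, 0, 8]))) (lin [0, 0, 0, 0, 0, 0, 5, 0, 0, 0, 0, 8])) (split 4 (split 4 (lin [4, 13, 0, 0, 0, 0, 32, 0, 12]) (split 2 (lin [2, 4, 0, 0, 0, 0, 16,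 0, 5]) (neg 3))) (split 4 (split 2 (split 3 (lin [28, 41, 0, 0, 0, 0, 256, 0, 42]) (split 2 (lin [5, 0, 0, 0, 0, 0, 8]) (neg 6))) (neg 3)) (split 1 (lin [7, 60, 0, 0, 0, 0, 35, 0, 0, 1024, 0, 80]) (split 5 (split 2 (split 2 (lin [11, 1, 0, 0, 0, 0, 0, 0, 64, 63]) (neg 6)) (neg 3)) (lin [1, 10, 0, 0, 0, 0, 64, 0, 6, 0, 0, 10])))))) (neg 3))) (split 4 (split 4 (split 0 (split 2 (lin [94, 0, 0, 0, 0, 0, 124, 0, 0, 0, 256, 99, 0, 81]) (neg 6)) (lin [549, 0, 0, 0, 0, 0, 233, 0, 0, 0, 1024, 98, 0, 238])) (split 2 (split 0 (split 2 (split 1 (lin [8, 0, 0, 0, 0, 0, 8, 0, 0, 0, 0, 5, 0, 3]) (split 2 (neg 13) (lin [0, 5, 0, 0, 0, 0, 8, 0, 0, 0, 0, 0, 0, 1]))) (neg 6)) (split 4 (split 2 (split 3 (split 2 (neg 13) (neg 6)) (lin [0, 0, 0, 0, 0, 0, 8, 0, 0, 0, 0, 0, 0, 5])) (neg 6)) (split 2 (split 1 (lin [8, 0, 0, 0, 0, 0, 7, 0, 0, 0,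 0, 0, 0, 2]) (lin [819, 0, 0, 0, 0, 0, 881, 1024, 819, 0, 0, 0, 0, 307])) (neg 6)))) (neg 6))) (split 2 (split 0 (split 5 (split 1 (split 4 (split 2 (lin [1, 0, 0, 0, 0, 0, 1]) (neg 6)) (lin [6, 0, 0, 0, 0, 0, 7, 0, 0, 64, 0, 29])) (split 3 (split 4 (split 2 (lin [5, 0, 0, 0, 0, 0, 4, 0, 8]) (neg 6)) (split 4 (lin [51, 0, 0, 0, 0, 0, 96, 0, 128]) (lin [85, 0, 0, 29, 0, 0, 4, 0, 128, 0, 0, 40]))) (split 3 (split 4 (split 2 (lin [11, 0, 0, 0, 0, 0, 6, 0, 32]) (neg 2)) (split 4 (lin [4, 0, 4, 0, 0, 0, 7, 8]) (lin [16, 0, 14, 5, 0, 0, 0, 0, 32, 0, 0, 8]))) (lin [0, 0, 8, 0, 0, 0, 0, 0, 0, 0, 0, 1])))) (lin [0, 0, 0, 0, 0, 0, 5, 0, 0, 0, 0, 8])) (split 1 (split 4 (split 4 (split 2 (lin [2, 0, 0, 0, 0, 0, 1]) (neg 3)) (split 2 (lin [7, 0, 0, 0, 0, 0, 8]) (neg 3))) (split 4 (split 2 (lin [29, 0, 0, 0, 0, 0, 3, 0, 0, 128]) (neg 3))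 (split 2 (lin [11, 0, 0, 0, 0, 0, 1, 0, 0, 64]) (neg 3)))) (split 3 (split 4 (split 4 (split 2 (lin [128, 0, 0, 0, 0, 0, 79]) (neg 3)) (split 2 (lin [9, 0, 0, 0, 0, 0, 10, 0, 16]) (neg 3))) (split 4 (split 2 (split 2 (lin [5, 0, 0, 0, 0, 0, 8]) (neg 6)) (neg 3)) (split 2 (split 2 (lin [3, 0, 0, 0, 0, 0, 0, 0, 16, 12]) (neg 6)) (neg 3)))) (split 4 (split 4 (split 2 (lin [11, 0, 0, 0, 0, 0, 3, 32]) (neg 3)) (split 2 (lin [7, 0, 0, 0, 0, 0, 6, 16]) (neg 3))) (split 4 (split 2 (split 2 (lin [11, 0, 0, 0, 0, 0, 16]) (neg 6)) (neg 3)) (split 2 (split 2 (lin [3, 0, 0, 0, 0, 0, 0, 0, 16, 10]) (neg 6)) (neg 3))))))) (neg 3))))) (lin [0, 0, 0, 0, 0, 0, 11, 0, 0, 0, 0, 16])))))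

def bx : List (ℕ × ℕ × ℕ) := [(0, 500, 1000), (0, 1, 2), (0, 1, 1), (0, 2, 1), (0, 9, 1), (0, 1, 1)]

def gs : List (Ex × ℕ) := [((add gD (mul (con 0) mo)), 65000000000000), ((add gS (mul (con 0) mo)), 130000000000000), ((add gT (mul (con 0) mo)), 6000000000000), ((add gE (mul (con 0) mo)), 180000000000000), ((add gC (mul (con 0) mo)), 32500000000000), ((add gY (mul (con 0) mo)), 2000000000000), ((add gR (mul (con 0) mo)), 40000000000000), ((add gM (mul (con 0) mo)), 4000000000000), ((add gMt (mul (con 0) mo)), 5000000000000), ((add gP (mul (con 0) mo)), 9000000000000), ((add gF (mul (con 0) mo)), 18000000000000), ((add gFt (mul (con 0) mo)), 22000000000000), ((add gN (mul (con 0) mo)), 211000000000000), ((add gQ (mul (con 0) mo)), 266000000000000), ((add gQt (mul (con 0) mo)), 22000000000000)]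

theorem run_ok : BernL.run 110 6 bx gs tr = true := by
  decide +kernel

theorem no (a y dl h n w : ℝ)
    (la : 0 ≤ a) (ua : a ≤ 500 / 1000)
    (ly : 0 ≤ y) (uy : y ≤ 1 / 2)
    (ldl : 0 ≤ dl) (udl : dl ≤ 1)
    (lh : 0 ≤ h) (uh : h ≤ 2)
    (ln : 0 ≤ n) (un : n ≤ 9)
    (lw : 0 ≤ w) (uw : w ≤ 1)
    (h1 : 0 ≤ (((y - ((a * dl) * w)) * (1 + h)) + (w * ((1 - y) + ((a * dl) * w)))) - (n * (((1 - a) + ((a * dl) * (1 + h))) - ((a * dl) * n))))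
    (h2 : 0 ≤ ((((y - ((a * dl) * w)) * (1 + h)) + (w * ((1 - y) + ((a * dl) * w)))) - (n * (((1 - a) + ((a * dl) * (1 + h))) - ((a * dl) * n)))) + (((y - ((a * dl) * w)) + (w * ((1 - y) + ((a * dl) * w)))) - ((((1 - a) * n) + (((y - ((a * dl) * w)) - a) * h)) + ((n + h) * ((a * dl) - ((a * dl) * n))))))
    (h3 : 0 ≤ 1 - (((1 - a) + (a * dl)) * h))
    (h4 : 0 ≤ 9 - (20 * ((a * dl) * n)))
    (h5 : 0 ≤ (((a * dl) * w) + ((a - ((a * dl) * w)) * (y - ((a * dl) * w)))) - (((a * dl) * n) * (1 - ((a * dl) * n))))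
    (h6 : 0 ≤ y - (2 * ((a * dl) * w)))
    (h7 : 0 ≤ 1 - (40 * ((a * dl) * w)))
    (h8 : 0 ≤ ((1 - a) - y) - ((a * dl) * h))
    (h9 : 0 ≤ ((1 - a) - y) - (3 * ((a * dl) * w)))
    (h10 : 0 ≤ y - ((a * dl) * n))
    (h11 : 0 ≤ (n * (1 - a)) - ((1 + (a * w)) * (a + y)))
    (h12 : 0 ≤ ((1 + (a * w)) * ((2 * a) + 1)) - ((1 - ((2 * (a * dl)) * ((1 + (a * w)) * ((2 * a) + 1)))) * (2 + (w * ((2 * a) + 1)))))
    (h13 : 0 ≤ (a * (n + h)) - ((1 - ((2 * (a * dl)) * (n + h))) * ((n + h) - 1)))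
    (h14 : 0 ≤ (((2 * (1 - ((a * dl) * h))) + (((a * dl) * n) * (((4 * h) + (3 * n)) - 4))) + (((a * dl) * w) * n)) - (2 * ((1 - a) * (n + h))))
    (h15 : 0 ≤ ((2 * h) + n) - 2)
    : False := by
  refine BernL.no_point run_ok (fun i => ([a, y, dl, h, n, w] : List ℝ).getD i 0) ?_ ?_
  · intro i hi
    interval_cases i <;> norm_num [bx] <;> constructor <;> linarith
  · intro g hg
    simp only [gs, List.mem_cons, List.not_mem_nil, or_false] at hg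
    rcases hg with rfl | rfl | rfl | rfl | rfl | rfl | rfl | rfl | rfl | rfl | rfl | rfl | rfl | rfl | rfl <;>
      simp only [c, D, e, gD, gS, gT, gE, gC, gY, gR, gM, gMt, gP, gF, N, P, gFt, s, gN, gQ, gQt, mo, Ex.ev,
        List.getD_cons_zero, List.getD_cons_succ, Nat.cast_ofNat, Nat.cast_one, Nat.cast_zero] <;>
      linarith [h1, h2, h3, h4, h5, h6, h7, h8, h9, h10, h11, h12, h13, h14, h15]

end A2

namespace B1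

def c : Ex := (sub (con 1) (var 0))
def gD : Ex := (sub (add (mul (sub (var 1) (var 5)) (add (var 2) (var 3))) (mul (var 5) (add (sub (con 1) (var 1)) (var 5)))) (mul (var 4) (sub (add (add c (var 2)) (var 3)) (var 4))))
def gS : Ex := (add (sub (add (mul (sub (var 1) (var 5)) (add (var 2) (var 3))) (mul (var 5) (add (sub (con 1) (var 1)) (var 5)))) (mul (var 4) (sub (add (add c (var 2)) (var 3)) (var 4)))) (sub (add (mul (sub (var 1) (var 5)) (var 2)) (mul (var 5) (add (sub (con 1) (var 1)) (var 5)))) (add (add (mul c (var 4)) (mul (sub (sub (var 1) (var 5)) (var 0)) (var 3))) (mul (add (var 4) (var 3)) (sub (var 2) (var 4))))))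
def gT : Ex := (sub (var 2) (mul (add c (var 2)) (var 3)))
def gC : Ex := (sub (add (var 5) (mul (sub (var 0) (var 5)) (sub (var 1) (var 5)))) (mul (var 4) (sub (con 1) (var 4))))
def gY : Ex := (sub (var 1) (mul (con 2) (var 5)))
def gM : Ex := (sub (sub c (var 1)) (var 3))
def gMt : Ex := (sub (sub c (var 1)) (mul (con 3) (var 5)))
def gP : Ex := (sub (var 1) (var 4))
def gDa : Ex := (sub (var 0) (var 2))
def gF : Ex := (sub (mul c (var 4)) (mul (add (var 2) (mul (var 0) (var 5))) (add (var 0) (var 1))))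
def gFt : Ex := (sub (sub (add (mul (con 4) (mul (add (var 2) (mul (var 0) (var 5))) (add (mul (con 2) (var 0)) (con 1)))) (mul (con 4) (var 5))) c) (mul (con 2) (var 2)))
def s : Ex := (add (var 4) (var 3))
def gN : Ex := (sub (mul (var 0) s) (mul (sub (con 1) (mul (con 2) s)) (sub s (var 2))))
def gQ : Ex := (sub (add (add (mul (mul (con 2) (sub (con 1) (var 3))) (var 2)) (mul (con 2) (mul (var 4) (sub (add (var 4) (var 3)) (var 2))))) (mul (var 5) (var 4))) (mul (con 2) (mul c (add (var 4) (var 3)))))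
def gQt : Ex := (sub (sub (mul (con 2) (var 2)) (mul (con 2) (var 3))) (var 4))
def mo : Ex := (mul (mul (mul (mul (mul (mul (mul (mul (mul (var 0) (var 0)) (var 1)) (var 2)) (var 3)) (var 3)) (var 4)) (var 4)) (var 5)) (var 5))

def tr : BernL.Tr := (split 2 (split 4 (split 3 (split 4 (split 1 (split 2 (split 1 (lin [21, 0, 0, 5, 0, 0, 0, 0, 0, 32, 3, 0, 0, 1]) (lin [23, 15, 0, 0, 0, 0, 0, 0, 0, 64, 5, 0, 0, 5])) (split 0 (lin [2, 6, 0, 0, 0, 0, 0, 0, 0, 16, 1]) (lin [0, 16, 0, 0, 0, 0, 0, 0, 0, 32, 0, 0, 0, 1]))) (split 0 (lin [0, 3, 0, 1, 0, 0, 0, 0, 0, 8, 1]) (lin [4, 10, 0, 0, 0, 0, 0, 0, 0, 32, 2, 0, 0, 3]))) (split 2 (lin [6, 29, 0, 0, 0, 0, 0, 0, 0, 32, 1, 0, 0, 6]) (lin [0, 36, 0, 11, 0, 0, 0, 0, 0, 64, 1, 0, 0, 4]))) (lin [3, 0, 0, 0, 0, 0, 0, 0, 0, 8, 0, 0, 3, 1])) (split 2 (lin [0, 8, 0, 0, 0, 0, 0, 0, 0, 0, 0,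 0, 0, 3]) (lin [0, 16, 0, 0, 0, 0, 2, 0, 0, 9, 0, 0, 0, 3]))) (split 0 (lin [0, 0, 0, 8, 0, 0, 0, 0, 5, 6]) (lin [0, 32, 0, 19, 0, 0, 0, 0, 0, 64, 0, 0, 0, 2])))

def bx : List (ℕ × ℕ × ℕ) := [(0, 1, 2), (0, 1, 2), (0, 1, 2), (0, 1, 2), (0, 9, 20), (0, 1, 40)]

def gs : List (Ex × ℕ) := [((add gD (mul (con 0) mo)), 38400000), ((add gS (mul (con 0) mo)), 87552000), ((add gT (mul (con 0) mo)), 30720000), ((add gC (mul (con 0) mo)), 19456000), ((add gY (mul (con 0) mo)), 20480000), ((add gM (mul (con 0) mo)), 61440000), ((add gMt (mul (con 0) mo)), 44032000), ((add gP (mul (con 0) mo)), 20480000), ((add gDa (mul (con 0) mo)), 20480000), ((add gF (mul (con 0) mo)), 30208000), ((add gFt (mul (con 0) mo)), 110592000), ((add gN (mul (con 0) mo)), 77824000), ((add gQ (mul (con 0) mo)), 116736000), ((add gQt (mul (con 0) mo)), 59392000)]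

theorem run_ok : BernL.run 55 6 bx gs tr = true := by
  decide +kernel

theorem no (a y D H E e : ℝ)
    (la : 0 ≤ a) (ua : a ≤ 1 / 2)
    (ly : 0 ≤ y) (uy : y ≤ 1 / 2)
    (lD : 0 ≤ D) (uD : D ≤ 1 / 2)
    (lH : 0 ≤ H) (uH : H ≤ 1 / 2)
    (lE : 0 ≤ E) (uE : E ≤ 9 / 20)
    (le : 0 ≤ e) (ue : e ≤ 1 / 40)
    (h1 : 0 ≤ (((y - e) * (D + H)) + (e * ((1 - y) + e))) - (E * ((((1 - a) + D) + H) - E)))
    (h2 : 0 ≤ ((((y - e) * (D + H)) + (e * ((1 - y) + e))) - (E * ((((1 - a) + D) + H) - E))) + ((((y - e) * D) + (e * ((1 - y) + e))) - ((((1 - a) * E) + (((y - e) - a) * H)) + ((E + H) * (D - E)))))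
    (h3 : 0 ≤ D - (((1 - a) + D) * H))
    (h4 : 0 ≤ (e + ((a - e) * (y - e))) - (E * (1 - E)))
    (h5 : 0 ≤ y - (2 * e))
    (h6 : 0 ≤ ((1 - a) - y) - H)
    (h7 : 0 ≤ ((1 - a) - y) - (3 * e))
    (h8 : 0 ≤ y - E)
    (h9 : 0 ≤ a - D)
    (h10 : 0 ≤ ((1 - a) * E) - ((D + (a * e)) * (a + y)))
    (h11 : 0 ≤ (((4 * ((D + (a * e)) * ((2 * a) + 1))) + (4 * e)) - (1 - a)) - (2 * D))
    (h12 : 0 ≤ (a * (E + H)) - ((1 - (2 * (E + H))) * ((E + H) - D)))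
    (h13 : 0 ≤ ((((2 * (1 - H)) * D) + (2 * (E * ((E + H) - D)))) + (e * E)) - (2 * ((1 - a) * (E + H))))
    (h14 : 0 ≤ ((2 * D) - (2 * H)) - E)
    : False := by
  refine BernL.no_point run_ok (fun i => ([a, y, D, H, E, e] : List ℝ).getD i 0) ?_ ?_
  · intro i hi
    interval_cases i <;> norm_num [bx] <;> constructor <;> linarith
  · intro g hg
    simp only [gs, List.mem_cons, List.not_mem_nil, or_false] at hg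
    rcases hg with rfl | rfl | rfl | rfl | rfl | rfl | rfl | rfl | rfl | rfl | rfl | rfl | rfl | rfl <;>
      simp only [c, gD, gS, gT, gC, gY, gM, gMt, gP, gDa, gF, gFt, s, gN, gQ, gQt, mo, Ex.ev,
        List.getD_cons_zero, List.getD_cons_succ, Nat.cast_ofNat, Nat.cast_one, Nat.cast_zero] <;>
      linarith [h1, h2, h3, h4, h5, h6, h7, h8, h9, h10, h11, h12, h13, h14]

end B1

namespace B2

def c : Ex := (sub (con 1) (var 0))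
def gD : Ex := (sub (add (mul (sub (var 1) (var 5)) (add (var 2) (var 3))) (mul (var 5) (add (sub (con 1) (var 1)) (var 5)))) (mul (var 4) (sub (add (add c (var 2)) (var 3)) (var 4))))
def gS : Ex := (add (sub (add (mul (sub (var 1) (var 5)) (add (var 2) (var 3))) (mul (var 5) (add (sub (con 1) (var 1)) (var 5)))) (mul (var 4) (sub (add (add c (var 2)) (var 3)) (var 4)))) (sub (add (mul (sub (var 1) (var 5)) (var 2)) (mul (var 5) (add (sub (con 1) (var 1)) (var 5)))) (add (add (mul c (var 4)) (mul (sub (sub (var 1) (var 5)) (var 0)) (var 3))) (mul (add (var 4) (var 3)) (sub (var 2) (var 4))))))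
def gT : Ex := (sub (var 2) (mul (add c (var 2)) (var 3)))
def gC : Ex := (sub (add (var 5) (mul (sub (var 0) (var 5)) (sub (var 1) (var 5)))) (mul (var 4) (sub (con 1) (var 4))))
def gY : Ex := (sub (var 1) (mul (con 2) (var 5)))
def gM : Ex := (sub (sub c (var 1)) (var 3))
def gMt : Ex := (sub (sub c (var 1)) (mul (con 3) (var 5)))
def gP : Ex := (sub (var 1) (var 4))
def gDa : Ex := (sub (var 0) (var 2))
def gF : Ex := (sub (mul c (var 4)) (mul (add (var 2) (mul (var 0) (var 5))) (add (var 0) (var 1))))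
def gFt : Ex := (sub (sub (add (mul (con 4) (mul (add (var 2) (mul (var 0) (var 5))) (add (mul (con 2) (var 0)) (con 1)))) (mul (con 4) (var 5))) c) (mul (con 2) (var 2)))
def s : Ex := (add (var 4) (var 3))
def gN : Ex := (sub (mul (var 0) s) (mul (sub (con 1) (mul (con 2) s)) (sub s (var 2))))
def gQ : Ex := (sub (add (add (mul (mul (con 2) (sub (con 1) (var 3))) (var 2)) (mul (var 4) (sub (add (mul (con 4) (var 3)) (mul (con 3) (var 4))) (mul (con 4) (var 2))))) (mul (var 5) (var 4))) (mul (con 2) (mul c (add (var 4) (var 3)))))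
def gQt : Ex := (sub (add (mul (con 2) (var 3)) (var 4)) (mul (con 2) (var 2)))
def mo : Ex := (mul (mul (mul (mul (mul (mul (mul (mul (mul (var 0) (var 0)) (var 1)) (var 2)) (var 3)) (var 3)) (var 4)) (var 4)) (var 5)) (var 5))

def tr : BernL.Tr := (split 4 (split 2 (split 3 (split 0 (split 2 (neg 10) (lin [0, 15, 0, 5, 0, 0, 0, 0, 0, 32, 3])) (split 1 (split 4 (split 5 (split 1 (lin [25, 0, 0, 0, 0, 0, 0, 0, 0, 32, 3, 0, 1]) (lin [164, 0, 0, 0, 0, 0, 0, 0, 0, 256, 21, 0, 21])) (split 2 (split 1 (split 2 (lin [25, 0, 0, 3, 0, 0, 0, 0, 0, 32, 3, 0, 2]) (lin [12, 0, 0, 1, 0, 0, 0, 0, 0, 16, 1, 0, 1])) (split 4 (lin [0, 0, 0, 0, 0, 0, 0, 0, 0, 8, 1]) (lin [467, 0, 0, 0, 0, 0, 0, 0, 0, 512, 31, 0, 79]))) (lin [0, 5, 0, 5, 0, 0, 0, 0, 0, 16]))) (lin [8, 0, 0, 0, 0, 0, 0, 0, 0, 3, 0, 0, 1])) (split 4 (split 2 (split 3 (split 2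 (lin [16, 15, 0, 0, 0, 0, 0, 0, 0, 64, 5, 0, 13]) (lin [6, 2, 0, 0, 0, 0, 0, 0, 0, 16, 1, 0, 2])) (lin [0, 0, 0, 0, 0, 0, 0, 0, 0, 8, 0, 0, 7])) (lin [0, 5, 0, 0, 0, 0, 0, 0, 0, 16, 0, 0, 1])) (split 2 (split 3 (split 4 (lin [125, 139, 0, 0, 0, 0, 2, 0, 0, 256, 0, 0, 122]) (split 1 (lin [8, 0, 0, 0, 0, 0, 0, 0, 0, 4, 0, 0, 3]) (lin [8, 5, 0, 0, 0, 2, 0, 0, 0, 5, 0, 0, 2]))) (lin [16, 0, 0, 0, 0, 2, 0, 0, 0, 12, 0, 0, 11])) (split 0 (lin [0, 5, 0, 0, 0, 0, 0, 0, 0, 8, 0, 0, 1]) (lin [12, 15, 0, 0, 0, 3, 0, 0, 0, 32, 0, 0, 2])))))) (lin [16, 0, 32, 0, 0, 0, 0, 0, 0, 25])) (lin [0, 4, 0, 0, 0, 0, 0, 0, 1, 8])) (split 2 (split 3 (split 4 (split 1 (neg 0) (split 1 (lin [8, 0, 0, 3, 0, 1, 0, 0, 0, 1]) (lin [64, 61, 0, 0, 0, 31, 1, 0, 0, 18]))) (lin [14, 8, 0, 16, 0, 4, 3, 0, 0, 1])) (lin [16, 3, 8, 7, 0, 7, 0, 0, 0, 9])) (lin [2,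 6, 0, 7, 0, 2, 0, 0, 0, 8])))

def bx : List (ℕ × ℕ × ℕ) := [(0, 1, 2), (0, 1, 2), (0, 1, 2), (0, 1, 2), (0, 9, 20), (0, 1, 40)]

def gs : List (Ex × ℕ) := [((add gD (mul (con 0) mo)), 38400000), ((add gS (mul (con 0) mo)), 87552000), ((add gT (mul (con 0) mo)), 30720000), ((add gC (mul (con 0) mo)), 19456000), ((add gY (mul (con 0) mo)), 20480000), ((add gM (mul (con 0) mo)), 61440000), ((add gMt (mul (con 0) mo)), 44032000), ((add gP (mul (con 0) mo)), 20480000), ((add gDa (mul (con 0) mo)), 20480000), ((add gF (mul (con 0) mo)), 30208000), ((add gFt (mul (con 0) mo)), 110592000), ((add gN (mul (con 0) mo)), 77824000), ((add gQ (mul (con 0) mo)), 135168000), ((add gQt (mul (con 0) mo)), 59392000)]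

theorem run_ok : BernL.run 64 6 bx gs tr = true := by
  decide +kernel

theorem no (a y D H E e : ℝ)
    (la : 0 ≤ a) (ua : a ≤ 1 / 2)
    (ly : 0 ≤ y) (uy : y ≤ 1 / 2)
    (lD : 0 ≤ D) (uD : D ≤ 1 / 2)
    (lH : 0 ≤ H) (uH : H ≤ 1 / 2)
    (lE : 0 ≤ E) (uE : E ≤ 9 / 20)
    (le : 0 ≤ e) (ue : e ≤ 1 / 40)
    (h1 : 0 ≤ (((y - e) * (D + H)) + (e * ((1 - y) + e))) - (E * ((((1 - a) + D) + H) - E)))
    (h2 : 0 ≤ ((((y - e) * (D + H)) + (e * ((1 - y) + e))) - (E * ((((1 - a) + D) + H) - E))) + ((((y - e) * D) + (e * ((1 - y) + e))) - ((((1 - a) * E) + (((y - e) - a) * H)) + ((E + H) * (D - E)))))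
    (h3 : 0 ≤ D - (((1 - a) + D) * H))
    (h4 : 0 ≤ (e + ((a - e) * (y - e))) - (E * (1 - E)))
    (h5 : 0 ≤ y - (2 * e))
    (h6 : 0 ≤ ((1 - a) - y) - H)
    (h7 : 0 ≤ ((1 - a) - y) - (3 * e))
    (h8 : 0 ≤ y - E)
    (h9 : 0 ≤ a - D)
    (h10 : 0 ≤ ((1 - a) * E) - ((D + (a * e)) * (a + y)))
    (h11 : 0 ≤ (((4 * ((D + (a * e)) * ((2 * a) + 1))) + (4 * e)) - (1 - a)) - (2 * D))
    (h12 : 0 ≤ (a * (E + H)) - ((1 - (2 * (E + H))) * ((E + H) - D)))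
    (h13 : 0 ≤ ((((2 * (1 - H)) * D) + (E * (((4 * H) + (3 * E)) - (4 * D)))) + (e * E)) - (2 * ((1 - a) * (E + H))))
    (h14 : 0 ≤ ((2 * H) + E) - (2 * D))
    : False := by
  refine BernL.no_point run_ok (fun i => ([a, y, D, H, E, e] : List ℝ).getD i 0) ?_ ?_
  · intro i hi
    interval_cases i <;> norm_num [bx] <;> constructor <;> linarith
  · intro g hg
    simp only [gs, List.mem_cons, List.not_mem_nil, or_false] at hg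
    rcases hg with rfl | rfl | rfl | rfl | rfl | rfl | rfl | rfl | rfl | rfl | rfl | rfl | rfl | rfl <;>
      simp only [c, gD, gS, gT, gC, gY, gM, gMt, gP, gDa, gF, gFt, s, gN, gQ, gQt, mo, Ex.ev,
        List.getD_cons_zero, List.getD_cons_succ, Nat.cast_ofNat, Nat.cast_one, Nat.cast_zero] <;>
      linarith [h1, h2, h3, h4, h5, h6, h7, h8, h9, h10, h11, h12, h13, h14]

end B2

namespace C1

def c : Ex := (sub (con 1) (var 0))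
def gT : Ex := (sub (var 2) (mul (add c (var 2)) (var 3)))
def gC : Ex := (sub (add (var 5) (mul (sub (var 0) (var 5)) (sub (var 1) (var 5)))) (mul (var 4) (sub (con 1) (var 4))))
def gY : Ex := (sub (var 1) (mul (con 2) (var 5)))
def gM : Ex := (sub (sub c (var 1)) (var 3))
def gMt : Ex := (sub (sub c (var 1)) (mul (con 3) (var 5)))
def gP : Ex := (sub (var 1) (var 4))
def gDa : Ex := (sub (var 0) (var 2))
def gF : Ex := (sub (mul c (var 4)) (mul (add (var 2) (mul (var 0) (var 5))) (add (var 0) (var 1))))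
def gH : Ex := (sub (mul (con 2) (add (var 4) (var 3))) (con 1))
def mo : Ex := (mul (mul (mul (mul (mul (mul (mul (mul (var 0) (var 0)) (var 1)) (var 2)) (var 3)) (var 4)) (var 4)) (var 5)) (var 5))

def tr : BernL.Tr := (split 4 (split 1 (split 0 (lin [4, 8, 0, 0, 0, 0, 1, 2, 2]) (lin [8, 16, 0, 1, 0, 0, 0, 6, 5])) (split 0 (lin [3, 8, 0, 0, 0, 0, 0, 3, 2]) (split 2 (lin [3, 8, 0, 3, 0, 0, 0, 1, 3]) (lin [2, 7, 0, 0, 0, 0, 0, 8, 1])))) (split 0 (neg 1) (lin [0, 32, 0, 10, 0, 0, 0, 0, 5])))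

def bx : List (ℕ × ℕ × ℕ) := [(0, 1, 2), (0, 1, 2), (0, 1, 2), (0, 1, 2), (0, 9, 20), (0, 1, 40)]

def gs : List (Ex × ℕ) := [((add gT (mul (con 0) mo)), 15360000), ((add gC (mul (con 0) mo)), 9728000), ((add gY (mul (con 0) mo)), 10240000), ((add gM (mul (con 0) mo)), 30720000), ((add gMt (mul (con 0) mo)), 22016000), ((add gP (mul (con 0) mo)), 10240000), ((add gDa (mul (con 0) mo)), 10240000), ((add gF (mul (con 0) mo)), 15104000), ((add gH (mul (con 0) mo)), 20480000)]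

theorem run_ok : BernL.run 46 6 bx gs tr = true := by
  decide +kernel

theorem no (a y D H E e : ℝ)
    (la : 0 ≤ a) (ua : a ≤ 1 / 2)
    (ly : 0 ≤ y) (uy : y ≤ 1 / 2)
    (lD : 0 ≤ D) (uD : D ≤ 1 / 2)
    (lH : 0 ≤ H) (uH : H ≤ 1 / 2)
    (lE : 0 ≤ E) (uE : E ≤ 9 / 20)
    (le : 0 ≤ e) (ue : e ≤ 1 / 40)
    (h1 : 0 ≤ D - (((1 - a) + D) * H))
    (h2 : 0 ≤ (e + ((a - e) * (y - e))) - (E * (1 - E)))
    (h3 : 0 ≤ y - (2 * e))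
    (h4 : 0 ≤ ((1 - a) - y) - H)
    (h5 : 0 ≤ ((1 - a) - y) - (3 * e))
    (h6 : 0 ≤ y - E)
    (h7 : 0 ≤ a - D)
    (h8 : 0 ≤ ((1 - a) * E) - ((D + (a * e)) * (a + y)))
    (h9 : 0 ≤ (2 * (E + H)) - 1)
    : False := by
  refine BernL.no_point run_ok (fun i => ([a, y, D, H, E, e] : List ℝ).getD i 0) ?_ ?_
  · intro i hi
    interval_cases i <;> norm_num [bx] <;> constructor <;> linarith
  · intro g hg
    simp only [gs, List.mem_cons, List.not_mem_nil, or_false] at hg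
    rcases hg with rfl | rfl | rfl | rfl | rfl | rfl | rfl | rfl | rfl <;>
      simp only [c, gT, gC, gY, gM, gMt, gP, gDa, gF, gH, mo, Ex.ev,
        List.getD_cons_zero, List.getD_cons_succ, Nat.cast_ofNat, Nat.cast_one, Nat.cast_zero] <;>
      linarith [h1, h2, h3, h4, h5, h6, h7, h8, h9]

end C1

namespace C2

def c : Ex := (sub (con 1) (var 0))
def gD : Ex := (sub (add (mul (sub (var 1) (var 5)) (add (var 2) (var 3))) (mul (var 5) (add (sub (con 1) (var 1)) (var 5)))) (mul (var 4) (sub (add (add c (var 2)) (var 3)) (var 4))))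
def gC : Ex := (sub (add (var 5) (mul (sub (var 0) (var 5)) (sub (var 1) (var 5)))) (mul (var 4) (sub (con 1) (var 4))))
def gMt : Ex := (sub (sub c (var 1)) (mul (con 3) (var 5)))
def gM : Ex := (sub (sub c (var 1)) (var 3))
def mo : Ex := (mul (mul (mul (mul (mul (mul (mul (var 0) (var 1)) (var 2)) (var 3)) (var 4)) (var 4)) (var 5)) (var 5))

def tr : BernL.Tr := (lin [16, 9, 0, 3])

def bx : List (ℕ × ℕ × ℕ) := [(0, 1, 2), (0, 1, 2), (0, 1, 20), (0, 1, 2), (6, 9, 20), (0, 1, 40)]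

def gs : List (Ex × ℕ) := [(gD, 74112000), ((add gC (mul (con 0) mo)), 48640000), ((add gMt (mul (con 0) mo)), 110080000), ((add gM (mul (con 0) mo)), 153600000)]

theorem run_ok : BernL.run 41 6 bx gs tr = true := by
  decide +kernel

theorem no (a y D H E e : ℝ)
    (la : 0 ≤ a) (ua : a ≤ 1 / 2)
    (ly : 0 ≤ y) (uy : y ≤ 1 / 2)
    (lD : 0 ≤ D) (uD : D ≤ 1 / 20)
    (lH : 0 ≤ H) (uH : H ≤ 1 / 2)
    (lE : 6 / 20 ≤ E) (uE : E ≤ 9 / 20)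
    (le : 0 ≤ e) (ue : e ≤ 1 / 40)
    (h1 : 0 ≤ (((y - e) * (D + H)) + (e * ((1 - y) + e))) - (E * ((((1 - a) + D) + H) - E)))
    (h2 : 0 ≤ (e + ((a - e) * (y - e))) - (E * (1 - E)))
    (h3 : 0 ≤ ((1 - a) - y) - (3 * e))
    (h4 : 0 ≤ ((1 - a) - y) - H)
    : False := by
  refine BernL.no_point run_ok (fun i => ([a, y, D, H, E, e] : List ℝ).getD i 0) ?_ ?_
  · intro i hi
    interval_cases i <;> norm_num [bx] <;> constructor <;> linarith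
  · intro g hg
    simp only [gs, List.mem_cons, List.not_mem_nil, or_false] at hg
    rcases hg with rfl | rfl | rfl | rfl <;>
      simp only [c, gD, gC, gMt, gM, mo, Ex.ev,
        List.getD_cons_zero, List.getD_cons_succ, Nat.cast_ofNat, Nat.cast_one, Nat.cast_zero] <;>
      linarith [h1, h2, h3, h4]

end C2

end Pool.Agent.Lib.MP_f04ccf_co.CellCQB
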