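import Pool.Agent.Lib.MP_f04ccf_co.M.CellCQ

/-!
MP_f04ccf_co, regime L, concentrated packings: **the one cell claim without credit for all rows up to `R / 2`,
`R ≥ 40`**, in the letters of `CellCP.cell_cp37`.
-/

set_option autoImplicit false

namespace Pool.Agent.Lib.MP_f04ccf_co.CellCQ

/-- (TS) with the worst composition of the content -/
lemma ts_worst {R A d H p M u k : ℝ} (hH : 0 ≤ H) (hM : 0 ≤ M) (hu : 0 ≤ u) (hk : 0 ≤ k)
    (hp : M + u + k = p)
    (hTS : (R - A) * (p + H) ≤ (R - M - (u + H) - 2 * k) * d + M ^ 2 + M * (u + H)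
      + 2 * ((M + (u + H)) * k) + 3 / 2 * k ^ 2 + k / 2) :
    (2 * H + p ≤ 2 * d ∧ 2 * ((R - A) * (p + H))
        ≤ 2 * ((R - H) * d) + 2 * (p * (p + H - d)) + p) ∨
      (2 * d ≤ 2 * H + p ∧ 2 * ((R - A) * (p + H))
        ≤ 2 * ((R - H) * d) + p * (4 * H + 3 * p - 4 * d) + p) := by
  have hkp : k ≤ p := by linarith only [hM, hu, hp]
  have h1 : (R - A) * (p + H) ≤ (R - H) * d + p * (p + H - d) + k * (H - d + k / 2) + k / 2 := by
    have e1 : (R - H) * d + p * (p + H - d) + k * (H - d + k / 2) + k / 2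
        = (R - M - (u + H) - 2 * k) * d + M ^ 2 + M * (u + H)
          + 2 * ((M + (u + H)) * k) + 3 / 2 * k ^ 2 + k / 2 + u * (M + u + H) := by
      rw [← hp]
      ring
    have e2 : 0 ≤ u * (M + u + H) := mul_nonneg hu (by linarith only [hM, hu, hH])
    linarith only [hTS, e1, e2]
  have h2 : k * (H - d + k / 2) ≤ k * (H - d + p / 2) :=
    mul_le_mul_of_nonneg_left (by linarith only [hkp]) hk
  rcases le_total (2 * H + p) (2 * d) with h3 | h3
  · left
    refine ⟨h3, ?_⟩
    have h4 : k * (H - d + p / 2) ≤ 0 := mul_nonpos_of_nonneg_of_nonpos hk (by linarith only [h3])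
    linarith only [h1, h2, h4, hkp]
  · right
    refine ⟨h3, ?_⟩
    have h4 : k * (H - d + p / 2) ≤ p * (H - d + p / 2) :=
      mul_le_mul_of_nonneg_right hkp (by linarith only [h3])
    linarith only [h1, h2, h4, hkp]

/-- **The one cell claim without credit**, all rows at most `R / 2`, `R ≥ 40` (regime L, concentrated
packings). Row with `A = t_z + 1`, cell of `y` with `B = t_y + 1`, content `p = M + u + k'` (`M` PC pairs hosted
by `z`, `u` full units hosted by `z`, `k'` used units and PC pairs of the host `y`; `k` of them used full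
units), all other hosted units `H`; (T), cap, (D) = thirds out, (K) = thirds kept, (TS) = T with the content of
the cell, (N) = LEMMA N at `p + H`; (F2) fails: LEMMA N holds at some `q` with `E ≤ q ≤ E + 1`,
`E = (d + A / R) (A + R / 2) / (R / 2)`. Then `c p < (d + A / R) (A + B)`. -/
theorem cell_cq {R A B d H p k M u k' q : ℝ} (hR : 40 ≤ R) (hA1 : 1 ≤ A) (hA : 2 * A ≤ R)
    (hB1 : 2 ≤ B) (hB : 2 * B ≤ R) (hAB : A + B + 3 ≤ R) (hd : 1 ≤ d) (hdA : d ≤ A) (hH : 0 ≤ H)
    (hm : A + B + H ≤ R) (hk : 0 ≤ k) (hpB : p ≤ B)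
    (hT : (R - A) * H ≤ (R - H) * d)
    (hcap : p * (R - p) ≤ R + (A - 1) * (B - 1))
    (hD : (R - A) * p + p * (d + H - p) + k * (d + H - 1) ≤ (B - 1) * (d + H) + (R - B + 1))
    (hK : (R - A) * p + (B - 1 - A) * H + (p + H) * (d - p) + k * (d - H - 1)
      ≤ (B - 1) * d + (R - B + 1))
    (hM : 0 ≤ M) (hu : 0 ≤ u) (hk' : 0 ≤ k') (hp : M + u + k' = p)
    (hTS : (R - A) * (p + H) ≤ (R - M - (u + H) - 2 * k') * d + M ^ 2 + M * (u + H)
      + 2 * ((M + (u + H)) * k') + 3 / 2 * k' ^ 2 + k' / 2)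
    (hN : 2 * (p + H) ≤ R → (R - 2 * (p + H)) * (p + H - d) ≤ A * (p + H))
    (hq1 : (R * d + A) * (2 * A + R) ≤ R ^ 2 * q)
    (hq2 : R ^ 2 * (q - 1) ≤ (R * d + A) * (2 * A + R))
    (hq : (R - 2 * q) * (q - d) ≤ A * q) :
    R * ((R - A) * p) < (R * d + A) * (A + B) := by
  by_contra hcon
  push Not at hcon
  have hR0 : 0 < R := by linarith only [hR]
  have hp0 : 0 ≤ p := by linarith only [hM, hu, hk', hp]
  have hts := ts_worst hH hM hu hk' hp hTS
  have hD' : (R - A) * p + p * (d + H - p) ≤ (B - 1) * (d + H) + (R - B + 1) := by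
    have h1 : 0 ≤ k * (d + H - 1) := mul_nonneg hk (by linarith only [hd, hH])
    linarith only [hD, h1]
  have hS' : 2 * ((R - A) * p) + p * (d + H - p) + (B - 1 - A) * H + (p + H) * (d - p)
      ≤ (B - 1) * (d + H) + (B - 1) * d + 2 * (R - B + 1) := by
    have h1 : 0 ≤ k * (d - 1) := mul_nonneg hk (by linarith only [hd])
    linarith only [hD, hK, h1]
  clear hD hK hTS hp hM hu hk' hk
  obtain ⟨e, he⟩ : ∃ e, e * R = 1 := ⟨1 / R, by field_simp⟩
  obtain ⟨a, rfl⟩ : ∃ a, A = a * R := ⟨A / R, by field_simp⟩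
  obtain ⟨y, rfl⟩ : ∃ y, B = y * R := ⟨B / R, by field_simp⟩
  obtain ⟨D, rfl⟩ : ∃ D, d = D * R := ⟨d / R, by field_simp⟩
  obtain ⟨h, rfl⟩ : ∃ h, H = h * R := ⟨H / R, by field_simp⟩
  obtain ⟨E, rfl⟩ : ∃ E, p = E * R := ⟨p / R, by field_simp⟩
  have he0 : 0 < e := by
    have h1 : 0 < e * R := by linarith only [he]
    exact (mul_pos_iff_of_pos_right hR0).1 h1
  have dv : ∀ {x : ℝ}, 0 ≤ x * R → 0 ≤ x := fun h => (mul_nonneg_iff_of_pos_right hR0).1 h
  have dv2 : ∀ {x : ℝ}, 0 ≤ x * (R * R) → 0 ≤ x := fun h =>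
    (mul_nonneg_iff_of_pos_right (mul_pos hR0 hR0)).1 h
  have dv3 : ∀ {x : ℝ}, 0 ≤ x * (R * (R * R)) → 0 ≤ x := fun h =>
    (mul_nonneg_iff_of_pos_right (mul_pos hR0 (mul_pos hR0 hR0))).1 h
  have k1 : 0 ≤ 1 - 40 * e := dv (by linarith only [hR, he])
  have k2 : 0 ≤ a - e := dv (by linarith only [hA1, he])
  have k3 : 0 ≤ 1 - 2 * a := dv (by linarith only [hA])
  have k4 : 0 ≤ y - 2 * e := dv (by linarith only [hB1, he])
  have k5 : 0 ≤ 1 - 2 * y := dv (by linarith only [hB])
  have k6 : 0 ≤ 1 - a - y - 3 * e := dv (by linarith only [hAB, he])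
  have k7 : 0 ≤ D - e := dv (by linarith only [hd, he])
  have k8 : 0 ≤ a - D := dv (by linarith only [hdA])
  have k9 : 0 ≤ h := dv hH
  have k10 : 0 ≤ 1 - a - y - h := dv (by linarith only [hm])
  have k11 : 0 ≤ E := dv hp0
  have k12 : 0 ≤ y - E := dv (by linarith only [hpB])
  have k13 : 0 ≤ (1 - h) * D - (1 - a) * h := dv2 (by linarith only [hT])
  have k14 : 0 ≤ e + (a - e) * (y - e) - E * (1 - E) := by
    apply dv2
    have e1 : (e + (a - e) * (y - e) - E * (1 - E)) * (R * R)
        = (e * R) * R + (a * R - e * R) * (y * R - e * R) - E * R * (R - E * R) := by ring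
    rw [e1, he]
    linarith only [hcap]
  have k15 : 0 ≤ (y - e) * (D + h) + e * (1 - y + e) - ((1 - a) * E + E * (D + h - E)) := by
    apply dv2
    have e1 : ((y - e) * (D + h) + e * (1 - y + e) - ((1 - a) * E + E * (D + h - E))) * (R * R)
        = (y * R - e * R) * (D * R + h * R) + (e * R) * (R - y * R + e * R)
          - ((R - a * R) * (E * R) + E * R * (D * R + h * R - E * R)) := by ring
    rw [e1, he]
    linarith only [hD']
  have k16 : 0 ≤ (y - e) * (D + h) + (y - e) * D + 2 * (e * (1 - y + e))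
      - (2 * ((1 - a) * E) + E * (D + h - E) + (y - e - a) * h + (E + h) * (D - E)) := by
    apply dv2
    have e1 : ((y - e) * (D + h) + (y - e) * D + 2 * (e * (1 - y + e))
      - (2 * ((1 - a) * E) + E * (D + h - E) + (y - e - a) * h + (E + h) * (D - E))) * (R * R)
        = (y * R - e * R) * (D * R + h * R) + (y * R - e * R) * (D * R)
          + 2 * ((e * R) * (R - y * R + e * R))
          - (2 * ((R - a * R) * (E * R)) + E * R * (D * R + h * R - E * R)
            + (y * R - e * R - a * R) * (h * R) + (E * R + h * R) * (D * R - E * R)) := by ring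
    rw [e1, he]
    linarith only [hS']
  have k17 : 0 ≤ (1 - a) * E - (D + a * e) * (a + y) := by
    apply dv3
    have e1 : ((1 - a) * E - (D + a * e) * (a + y)) * (R * (R * R))
        = R * ((R - a * R) * (E * R)) - (R * (D * R) + a * R * (e * R)) * (a * R + y * R) := by ring
    rw [e1, he]
    linarith only [hcon]
  refine core (a := a) (y := y) (D := D) (H := h) (E := E) (e := e) he0 (by linarith only [k1])
    (by linarith only [k2]) (by linarith only [k3]) (by linarith only [k4]) (by linarith only [k5])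
    (by linarith only [k6]) (by linarith only [k7]) (by linarith only [k8]) k9
    (by linarith only [k10]) k11 (by linarith only [k12]) (by linarith only [k13])
    (by linarith only [k14]) (by linarith only [k15]) (by linarith only [k16]) ?_ ?_ ?_
    (by linarith only [k17])
  · -- (TS)
    rcases hts with ⟨t1, t2⟩ | ⟨t1, t2⟩
    · left
      have j1 : 0 ≤ 2 * D - 2 * h - E := dv (by linarith only [t1])
      have j2 : 0 ≤ 2 * ((1 - h) * D) + 2 * (E * (E + h - D)) + e * E - 2 * ((1 - a) * (E + h)) := by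
        apply dv2
        have e1 : (2 * ((1 - h) * D) + 2 * (E * (E + h - D)) + e * E - 2 * ((1 - a) * (E + h)))
              * (R * R)
            = 2 * ((R - h * R) * (D * R)) + 2 * (E * R * (E * R + h * R - D * R))
              + (e * R) * (E * R) - 2 * ((R - a * R) * (E * R + h * R)) := by ring
        rw [e1, he]
        linarith only [t2]
      exact ⟨by linarith only [j1], by linarith only [j2]⟩
    · right
      have j1 : 0 ≤ 2 * h + E - 2 * D := dv (by linarith only [t1])
      have j2 : 0 ≤ 2 * ((1 - h) * D) + E * (4 * h + 3 * E - 4 * D) + e * E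
          - 2 * ((1 - a) * (E + h)) := by
        apply dv2
        have e1 : (2 * ((1 - h) * D) + E * (4 * h + 3 * E - 4 * D) + e * E
              - 2 * ((1 - a) * (E + h))) * (R * R)
            = 2 * ((R - h * R) * (D * R)) + E * R * (4 * (h * R) + 3 * (E * R) - 4 * (D * R))
              + (e * R) * (E * R) - 2 * ((R - a * R) * (E * R + h * R)) := by ring
        rw [e1, he]
        linarith only [t2]
      exact ⟨by linarith only [j1], by linarith only [j2]⟩
  · -- LEMMA N
    intro hl
    have hl' : 2 * (E * R + h * R) ≤ R := by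
      have h1 : 2 * (E + h) * R ≤ 1 * R := mul_le_mul_of_nonneg_right hl hR0.le
      linarith only [h1]
    have h2 := hN hl'
    have h3 : 0 ≤ a * (E + h) - (1 - 2 * (E + h)) * (E + h - D) := dv2 (by linarith only [h2])
    linarith only [h3]
  · -- (F2)
    obtain ⟨X, hX⟩ : ∃ X, X = (D + a * e) * (2 * a + 1) := ⟨_, rfl⟩
    have hXR : R ^ 2 * (X * R) = (R * (D * R) + a * R) * (2 * (a * R) + R) := by
      have e1 : R ^ 2 * (X * R) = (R * (D * R) + a * R * (e * R)) * (2 * (a * R) + R) := by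
        rw [hX]
        ring
      rw [e1, he]
      ring
    have hR2 : 0 < R ^ 2 := by positivity
    have hq1' : X * R ≤ q := by
      have h1 : R ^ 2 * (X * R) ≤ R ^ 2 * q := by rw [hXR]; exact hq1
      exact le_of_mul_le_mul_left h1 hR2
    have hq2' : q - 1 ≤ X * R := by
      have h1 : R ^ 2 * (q - 1) ≤ R ^ 2 * (X * R) := by rw [hXR]; exact hq2
      exact le_of_mul_le_mul_left h1 hR2
    rw [← hX]
    rcases le_or_gt (4 * q) (R - a * R + 2 * (D * R)) with hE | hE
    · left
      have h1 : (R - 2 * q) * (q - D * R) - a * R * q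
          - ((R - 2 * (X * R)) * (X * R - D * R) - a * R * (X * R))
          = (q - X * R) * (R - 2 * (q + X * R) + 2 * (D * R) - a * R) := by ring
      have h2 : 0 ≤ (q - X * R) * (R - 2 * (q + X * R) + 2 * (D * R) - a * R) :=
        mul_nonneg (by linarith only [hq1']) (by linarith only [hE, hq1'])
      have h3 : 0 ≤ a * X - (1 - 2 * X) * (X - D) := dv2 (by linarith only [h1, h2, hq])
      linarith only [h3]
    · right
      have h3 : 0 ≤ 4 * X + 4 * e - (1 - a + 2 * D) := dv (by linarith only [hE, hq2', he])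
      linarith only [h3]

end Pool.Agent.Lib.MP_f04ccf_co.CellCQ
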