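import Pool.Agent.Lib.MP_f04ccf_co.M.CellTs
import Pool.Agent.Lib.MP_f04ccf_co.M.PConC

/-!
MP_f04ccf_co, TEXT D: **the filters of one cell in numbers, concentrated packings** (M/CellD over `PConC`).

The letters of M/CellD. More on the left side: `n1 (n1 - 1)` a second time for the used plain items of value one,
and `∑ e ∈ P.offDiag, min (vl e.1) (vl e.2)` for the kept plain hosted items (`offDiag_min_ge`: at least
`p (p - 1)`, `p = P.card`).

* `PConC.numK2`, `PConC.numKG2`, `PConC.numT2`, `PConC.numTS2`, `PConC.numTSy2` (`n2` the used plain items of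
  value one).
-/

set_option autoImplicit false

namespace Pool.Agent.Lib.MP_f04ccf_co

open Finset

attribute [local instance] Classical.propDecidable

section CellC

variable {ι : Type*} {R : ℤ} {n : ℕ} {t s mu : ℕ → ℤ} {U : Finset ι} {ho : ι → ℕ} {vl : ι → ℤ}
  {kp mn : ℕ → ι → ℤ} {pc ar : ι → ℤ} {be kq NN sg : ℕ → ℕ → ℤ} {nu : ℕ → ι → ℤ} {z y : ℕ}

/-- the gain of the kept plain items: at least `p (p - 1)` -/
lemma offDiag_min_ge {P : Finset ι} (h : ∀ u ∈ P, 1 ≤ vl u) :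
    (P.card : ℤ) * ((P.card : ℤ) - 1) ≤ ∑ e ∈ P.offDiag, min (vl e.1) (vl e.2) := by
  have h1 : P.offDiag.card • (1 : ℤ) ≤ ∑ e ∈ P.offDiag, min (vl e.1) (vl e.2) := by
    refine card_nsmul_le_sum _ _ _ fun e he => ?_
    obtain ⟨h2, h3, -⟩ := mem_offDiag.1 he
    exact le_min (h _ h2) (h _ h3)
  refine le_trans (le_of_eq ?_) h1
  rw [offDiag_card, nsmul_eq_mul, mul_one, Nat.cast_sub (Nat.le_mul_self _)]
  push_cast
  ring

/-- **THE FILTERS OF ONE CELL IN NUMBERS** -/
theorem PConC.numK2 (H : PConC R n t s mu U ho vl kp mn pc ar be kq NN sg nu) (hz : z < n)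
    (hy : y < n) (hyz : y ≠ z) {P : Finset ι} (hP : P ⊆ U)
    (hPz : ∀ u ∈ P, ho u = z ∧ pc u = 0) {K : Finset ι} (hK : K ⊆ U)
    (hKy : ∀ u ∈ K, ho u = y ∧ pc u = 0 ∧ vl u = 1 ∧ kp z u ≠ 0) {Y : Finset ℕ}
    (hY : Y ⊆ ((range n).erase z).erase y) {m k M b E W g : ℤ}
    (hm : m = ∑ u ∈ P, vl u) (hk : k = (K.card : ℤ)) (hM : M = be z y + be y z)
    (hb : b = ∑ l ∈ ((range n).erase z).erase y \ Y, (be z l - kq z l))
    (hE : E = m + b + M + k) (hW : W = m + b + M + 2 * k)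
    (hg : g = ((U.filter fun u => ho u = z ∧ pc u = 0).card : ℤ) - (P.card : ℤ)) :
    2 * ((R - t y) * (M + k - 1) + ∑ u ∈ P, (kp y u * (R - t y) - mn y u))
      + (m + b) * (W + 1) + M * (m + b + 2 * k) + 2 * (k * (k - 1))
      + ∑ e ∈ P.offDiag, min (vl e.1) (vl e.2)
      - 2 * ∑ u ∈ K.filter (fun u => ∃ l < n, l ≠ z ∧ kp l u ≠ 0),
        ∑ l ∈ ((range n).erase y).filter (fun l => kp l u ≠ 0), be y l
      ≤ 2 * ((t z + 1) * E + ∑ u ∈ K, mn z u) + 2 * ((t y - W) * (mu z - s z + g - E))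
        + (∑ l ∈ ((range n).erase z).erase y \ Y, (be z l - kq z l) * (be z l - kq z l + 1)
          + 2 * ∑ l ∈ Y, (be z l - kq z l) * (sg z l
            + ((P.filter fun u => kp l u ≠ 0).card : ℤ))) := by
  set D : Finset ι := U.filter fun u => ho u = z ∧ pc u = 0 ∧ u ∉ P with hD
  set X : Finset ℕ := ((range n).erase z).erase y with hXd
  have hDz : ∀ u ∈ D, ho u = z ∧ pc u = 0 := fun u hu => by
    obtain ⟨-, h1, h2, -⟩ := mem_filter.1 hu
    exact ⟨h1, h2⟩
  obtain ⟨eP, eD⟩ := plain_split hP hPz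
  rw [← hD] at eP eD
  set Q : Finset ι := U.filter fun u => ho u = y ∧ pc u = 1 ∧ kp z u ≠ 0 with hQ
  have hQK : Disjoint Q K := by
    rw [disjoint_left]
    intro u h1 h2
    have h3 := (mem_filter.1 h1).2.2.1
    rw [(hKy u h2).2.1] at h3
    exact absurd h3 (by norm_num)
  have hQc : (Q.card : ℤ) = be y z := H.pc_cell hz hy
  have hQU : Q ⊆ U := filter_subset _ _
  have hv1 : ∀ u ∈ Q ∪ K, u ∈ U ∧ ho u = y ∧ vl u = 1 ∧ kp z u = 1 := by
    intro u hu
    rcases mem_union.1 hu with h1 | h1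
    · obtain ⟨h2, h3, h4, h5⟩ := mem_filter.1 h1
      have h6 := H.pcv u h2 (by rw [h4]; norm_num)
      exact ⟨h2, h3, h6, H.kp_one h2 h6 hz h5⟩
    · obtain ⟨h2, h3, h4, h5⟩ := hKy u h1
      exact ⟨hK h1, h2, h4, H.kp_one (hK h1) h4 hz h5⟩
  have hKU : Q ∪ K ⊆ U := union_subset hQU hK
  have hX : X ⊆ range n := (erase_subset _ _).trans (erase_subset _ _)
  have h0 := H.tPc z hz y hy hyz X hX (notMem_erase _ _) Y hY D (filter_subset _ _) hDz (Q ∪ K)
    hKU (fun u hu => by rw [(hv1 u hu).2.1]; exact hyz) (fun _ => 1) (fun _ _ => le_rfl)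
    (fun u hu => by
      rw [(hv1 u hu).2.2.2]
      norm_num) _ (Or.inl le_rfl)
  unfold NP2 at h0
  -- the numbers
  have e1 : ∑ u ∈ Q ∪ K, pc u = be y z := by
    rw [sum_union hQK, sum_congr rfl fun u hu => (mem_filter.1 hu).2.2.1,
      sum_congr (s₁ := K) rfl fun u hu => (hKy u hu).2.1, sum_const, sum_const_zero, nsmul_eq_mul,
      mul_one, add_zero]
    exact hQc
  have e1' : ∑ u ∈ Q ∪ K, (if ho u = y then pc u else 0) = be y z := by
    rw [← e1]
    exact sum_congr rfl fun u hu => if_pos (hv1 u hu).2.1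
  have e2 : ((Q ∪ K).card : ℤ) = be y z + k := by
    rw [card_union_of_disjoint hQK, hk, ← hQc]
    push_cast
    rfl
  have e3 : ∑ u ∈ Q ∪ K, msP kp mn z (fun _ => 1) u = ∑ u ∈ K, mn z u := by
    rw [sum_union hQK]
    have h1 : ∑ u ∈ Q, msP kp mn z (fun _ => 1) u = 0 := sum_eq_zero fun u hu => by
      obtain ⟨h2, h3, h4, h5⟩ := mem_filter.1 hu
      unfold msP
      rw [(H.pc_fact h2 (by rw [h4]; norm_num)).2.2.1 z hz, ite_self]
    have h2 : ∑ u ∈ K, msP kp mn z (fun _ => 1) u = ∑ u ∈ K, mn z u := by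
      refine sum_congr rfl fun u hu => ?_
      unfold msP
      rw [(hv1 u (mem_union_right _ hu)).2.2.2]
      exact if_pos (by norm_num)
    rw [h1, h2, zero_add]
  have e4 : ∑ u ∈ Q ∪ K, (((fun _ => 1 : ι → ℕ) u : ℕ) : ℤ) = be y z + k := by
    have h1 : ∑ u ∈ Q ∪ K, (((fun _ => 1 : ι → ℕ) u : ℕ) : ℤ) = ((Q ∪ K).card : ℤ) := by simp
    rw [h1, e2]
  have e5 : ∑ u ∈ Q ∪ K, ((((fun _ => 1 : ι → ℕ) u : ℕ) : ℤ) + 1 - if ho u = y then pc u else 0)
      = be y z + 2 * k := by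
    rw [sum_sub_distrib, e1', sum_add_distrib, e4, sum_const, nsmul_eq_mul, mul_one, e2]
    ring
  -- the kept value
  have e6 : mu z - ∑ l ∈ X, kq z l - ∑ l ∈ Y, (be z l - kq z l) - ∑ u ∈ D, vl u
      = be z y + b + m := by
    have h1 : ∑ u ∈ D, vl u + ∑ u ∈ P, vl u
        = ∑ u ∈ U.filter (fun u => ho u = z ∧ pc u = 0), vl u := by
      rw [← sum_filter_add_sum_filter_not (U.filter fun u => ho u = z ∧ pc u = 0)
        (fun u => u ∉ P), filter_filter, filter_filter]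
      congr 1
      · refine sum_congr ?_ fun _ _ => rfl
        rw [hD]
        refine filter_congr fun u _ => ?_
        tauto
      · refine sum_congr ?_ fun _ _ => rfl
        ext u
        simp only [mem_filter, not_not]
        exact ⟨fun h => ⟨hP h, hPz u h, h⟩, fun h => h.2.2⟩
    have h2 := H.mu_plain hz
    have h5 := add_sum_erase ((range n).erase z) (fun l => be z l)
      (mem_erase.2 ⟨hyz, mem_range.2 hy⟩)
    beta_reduce at h5
    have h6 : ∑ l ∈ X, (be z l - kq z l) = b + ∑ l ∈ Y, (be z l - kq z l) := by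
      rw [hb, sum_sdiff hY]
    rw [sum_sub_distrib] at h6
    linarith
  have e7 : ∑ l ∈ X, kq z l + ∑ l ∈ Y, (be z l - kq z l) + ∑ u ∈ D, (vl u + 1)
      = mu z - (be z y + b + m) + g := by
    rw [sum_add_distrib (s := D), sum_const, nsmul_eq_mul, mul_one, eD, ← hg]
    linarith
  -- the hits
  have e8 : ∑ u ∈ U.filter (fun u => ho u = z ∧ u ∉ D), (kp y u * (R - t y) - mn y u)
      = be z y * (R - t y) + ∑ u ∈ P, (kp y u * (R - t y) - mn y u) := by
    rw [H.split_pc hDz, eP, ← H.pcb z hz y hy, sum_mul]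
    congr 1
    refine sum_congr rfl fun u hu => ?_
    by_cases h4 : pc u = 0
    · rw [h4]
      ring
    · rw [(H.pc_fact (mem_filter.1 hu).1 h4).2.2.1 y hy]
      ring
  -- the saving
  have e9 : ((Q ∪ K).filter fun u => ho u = y → pc u = 0) = K := by
    ext u
    simp only [mem_filter, mem_union]
    constructor
    · rintro ⟨h1 | h1, h2⟩
      · obtain ⟨-, h3, h4, -⟩ := mem_filter.1 h1
        rw [h2 h3] at h4
        exact absurd h4 (by norm_num)
      · exact h1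
    · intro h1
      exact ⟨Or.inr h1, fun _ => (hKy u h1).2.1⟩
  have e10 : k * (k - 1) ≤ svP n ho vl K (fun _ => 1) := by
    have h1 : ((K.filter fun u => ho u = y ∧ (((fun _ => 1 : ι → ℕ) u : ℕ) : ℤ) = vl u).card : ℤ)
        = k := by
      rw [hk, filter_true_of_mem]
      intro u hu
      obtain ⟨h2, -, h3, -⟩ := hKy u hu
      exact ⟨h2, by rw [h3]; norm_num⟩
    unfold svP
    rw [← h1]
    exact single_le_sum (f := fun x => ((K.filter fun u => ho u = x
      ∧ (((fun _ => 1 : ι → ℕ) u : ℕ) : ℤ) = vl u).card : ℤ)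
      * (((K.filter fun u => ho u = x ∧ (((fun _ => 1 : ι → ℕ) u : ℕ) : ℤ) = vl u).card : ℤ) - 1))
      (fun x _ => tri_nonneg' _) (mem_range.2 hy)
  have e11 : ((Q ∪ K).filter fun u => ho u = y ∧ pc u = 0 ∧ ∀ l < n, l ≠ z → kp l u = 0)
      = K.filter fun u => ¬ ∃ l < n, l ≠ z ∧ kp l u ≠ 0 := by
    ext u
    simp only [mem_filter, mem_union, not_exists, not_and, not_not]
    constructor
    · rintro ⟨h1 | h1, -, h2, h3⟩
      · have h4 := (mem_filter.1 h1).2.2.1
        rw [h2] at h4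
        exact absurd h4 (by norm_num)
      · exact ⟨h1, fun l hl hlz => h3 l hl hlz⟩
    · rintro ⟨h1, h2⟩
      exact ⟨Or.inr h1, (hKy u h1).1, (hKy u h1).2.1, fun l hl hlz => h2 l hl hlz⟩
  have e9' : K.filter (fun u => pc u = 0) = K :=
    filter_true_of_mem fun u hu => (hKy u hu).2.1
  have e17 : minP U ho vl pc z D = ∑ e ∈ P.offDiag, min (vl e.1) (vl e.2) := by
    unfold minP kpPl
    rw [eP]
  -- the excess
  have e12 : ((range n).erase z).erase y \ X = ∅ := by
    rw [hXd, Finset.sdiff_self]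
  have e13 : ∀ l, (U.filter fun u => ho u = z ∧ u ∉ D ∧ pc u = 0 ∧ kp l u ≠ 0)
      = P.filter fun u => kp l u ≠ 0 := by
    intro l
    rw [← eP, filter_filter]
    refine filter_congr fun u _ => ?_
    tauto
  -- the arcs
  have e14 : ∑ u ∈ Q ∪ K, (if ho u = y then (1 - pc u) * ar u
      else ((((fun _ => 1 : ι → ℕ) u : ℕ) : ℤ) + 1) * (R - t y)) = ∑ u ∈ K, ar u := by
    rw [sum_union hQK]
    have h1 : ∑ u ∈ Q, (if ho u = y then (1 - pc u) * ar u
        else ((((fun _ => 1 : ι → ℕ) u : ℕ) : ℤ) + 1) * (R - t y)) = 0 :=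
      sum_eq_zero fun u hu => by
        obtain ⟨-, h2, h3, -⟩ := mem_filter.1 hu
        rw [if_pos h2, h3]
        ring
    have h2 : ∑ u ∈ K, (if ho u = y then (1 - pc u) * ar u
        else ((((fun _ => 1 : ι → ℕ) u : ℕ) : ℤ) + 1) * (R - t y)) = ∑ u ∈ K, ar u :=
      sum_congr rfl fun u hu => by
        rw [if_pos (hKy u hu).1, (hKy u hu).2.1]
        ring
    rw [h1, h2, zero_add]
  have e15 : ∑ u ∈ K, ar u ≤ be y z * ((K.filter fun u => ¬ ∃ l < n, l ≠ z ∧ kp l u ≠ 0).card : ℤ)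
      + ∑ u ∈ K.filter (fun u => ∃ l < n, l ≠ z ∧ kp l u ≠ 0),
        ∑ l ∈ ((range n).erase y).filter (fun l => kp l u ≠ 0), be y l := by
    rw [← sum_filter_add_sum_filter_not K (fun u => ∃ l < n, l ≠ z ∧ kp l u ≠ 0), add_comm]
    refine add_le_add ?_ (sum_le_sum fun u hu => ?_)
    · rw [mul_comm, ← nsmul_eq_mul, ← sum_const]
      refine sum_le_sum fun u hu => ?_
      obtain ⟨h1, h2⟩ := mem_filter.1 hu
      have h3 := H.ar_in (hK h1) (hKy u h1).2.1 (L := {z}) (by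
        intro l hl
        rw [mem_singleton.1 hl]
        exact mem_range.2 hz) (fun l hl h4 => by
          by_contra h5
          exact h2 ⟨l, hl, fun h6 => h5 (mem_singleton.2 h6), h4⟩)
      rw [sum_singleton, (hKy u h1).1] at h3
      exact h3
    · have h1 := (mem_filter.1 hu).1
      have h3 := H.ar_le (hK h1) (hKy u h1).2.1
      rw [(hKy u h1).1] at h3
      exact h3
  have e16 : ∑ l ∈ Y, (be z l - kq z l) * (sg z l
        + ((U.filter fun u => ho u = z ∧ u ∉ D ∧ pc u = 0 ∧ kp l u ≠ 0).card : ℤ))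
      = ∑ l ∈ Y, (be z l - kq z l) * (sg z l + ((P.filter fun u => kp l u ≠ 0).card : ℤ)) :=
    sum_congr rfl fun l _ => by rw [e13 l]
  rw [e3, e4, e5, e6, e7, e8, e9, e9', e1', e11, e12, e14, e16, e17, sum_empty, add_zero] at h0
  unfold TstP at h0
  rw [hE, hW]
  subst hM
  linarith [h0, e10, e15]

/-- **the same with any plain used items of the host `y` at levels**: `k` pieces of `κ'` items, `n1` of value one -/
theorem PConC.numKG2 (H : PConC R n t s mu U ho vl kp mn pc ar be kq NN sg nu) (hz : z < n)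
    (hy : y < n) (hyz : y ≠ z) {P : Finset ι} (hP : P ⊆ U)
    (hPz : ∀ u ∈ P, ho u = z ∧ pc u = 0) {K : Finset ι} (hK : K ⊆ U)
    (hKy : ∀ u ∈ K, ho u = y ∧ pc u = 0) {lv : ι → ℕ} (hlv : ∀ u ∈ K, 1 ≤ lv u)
    (hlv' : ∀ u ∈ K, (lv u : ℤ) ≤ kp z u) {Y : Finset ℕ}
    (hY : Y ⊆ ((range n).erase z).erase y) {m k κ' n1 M b E W g : ℤ}
    (hm : m = ∑ u ∈ P, vl u) (hk : k = ∑ u ∈ K, (lv u : ℤ)) (hκ : κ' = (K.card : ℤ))
    (hn : n1 = ((K.filter fun u => vl u = 1).card : ℤ)) (hM : M = be z y + be y z)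
    (hb : b = ∑ l ∈ ((range n).erase z).erase y \ Y, (be z l - kq z l))
    (hE : E = m + b + M + k) (hW : W = m + b + M + k + κ')
    (hg : g = ((U.filter fun u => ho u = z ∧ pc u = 0).card : ℤ) - (P.card : ℤ)) :
    2 * ((R - t y) * (M + k - 1) + ∑ u ∈ P, (kp y u * (R - t y) - mn y u))
      + (m + b) * (W + 1) + M * (m + b + k + κ') + (k - κ') * (W + 1) + 2 * (n1 * (n1 - 1))
      + ∑ e ∈ P.offDiag, min (vl e.1) (vl e.2)
      - 2 * ∑ u ∈ K.filter (fun u => ∃ l < n, l ≠ z ∧ kp l u ≠ 0),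
        ∑ l ∈ ((range n).erase y).filter (fun l => kp l u ≠ 0), be y l
      ≤ 2 * ((t z + 1) * E + ∑ u ∈ K, msP kp mn z lv u)
        + 2 * ((t y - W) * (mu z - s z + g - E))
        + (∑ l ∈ ((range n).erase z).erase y \ Y, (be z l - kq z l) * (be z l - kq z l + 1)
          + 2 * ∑ l ∈ Y, (be z l - kq z l) * (sg z l
            + ((P.filter fun u => kp l u ≠ 0).card : ℤ))) := by
  set D : Finset ι := U.filter fun u => ho u = z ∧ pc u = 0 ∧ u ∉ P with hD
  set X : Finset ℕ := ((range n).erase z).erase y with hXd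
  have hDz : ∀ u ∈ D, ho u = z ∧ pc u = 0 := fun u hu => by
    obtain ⟨-, h1, h2, -⟩ := mem_filter.1 hu
    exact ⟨h1, h2⟩
  obtain ⟨eP, eD⟩ := plain_split hP hPz
  rw [← hD] at eP eD
  set Q : Finset ι := U.filter fun u => ho u = y ∧ pc u = 1 ∧ kp z u ≠ 0 with hQ
  set w : ι → ℕ := fun u => if pc u = 1 then 1 else lv u with hw
  have hwK : ∀ u ∈ K, w u = lv u := fun u hu => by
    rw [hw]
    simp only
    rw [if_neg]
    rw [(hKy u hu).2]
    norm_num
  have hwQ : ∀ u ∈ Q, w u = 1 := fun u hu => by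
    rw [hw]
    simp only
    rw [if_pos (mem_filter.1 hu).2.2.1]
  have hQK : Disjoint Q K := by
    rw [disjoint_left]
    intro u h1 h2
    have h3 := (mem_filter.1 h1).2.2.1
    rw [(hKy u h2).2] at h3
    exact absurd h3 (by norm_num)
  have hQc : (Q.card : ℤ) = be y z := H.pc_cell hz hy
  have hQU : Q ⊆ U := filter_subset _ _
  have hQ1 : ∀ u ∈ Q, u ∈ U ∧ ho u = y ∧ pc u = 1 ∧ vl u = 1 ∧ kp z u = 1 := by
    intro u hu
    obtain ⟨h2, h3, h4, h5⟩ := mem_filter.1 hu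
    have h6 := H.pcv u h2 (by rw [h4]; norm_num)
    exact ⟨h2, h3, h4, h6, H.kp_one h2 h6 hz h5⟩
  have hoy : ∀ u ∈ Q ∪ K, ho u = y := fun u hu => by
    rcases mem_union.1 hu with h1 | h1
    · exact (hQ1 u h1).2.1
    · exact (hKy u h1).1
  have hKU : Q ∪ K ⊆ U := union_subset hQU hK
  have hX : X ⊆ range n := (erase_subset _ _).trans (erase_subset _ _)
  have h0 := H.tPc z hz y hy hyz X hX (notMem_erase _ _) Y hY D (filter_subset _ _) hDz (Q ∪ K)
    hKU (fun u hu => by rw [hoy u hu]; exact hyz) w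
    (fun u hu => by
      rcases mem_union.1 hu with h1 | h1
      · rw [hwQ u h1]
      · rw [hwK u h1]
        exact hlv u h1)
    (fun u hu => by
      rcases mem_union.1 hu with h1 | h1
      · rw [hwQ u h1, (hQ1 u h1).2.2.2.2]
        norm_num
      · rw [hwK u h1]
        exact hlv' u h1) _ (Or.inl le_rfl)
  unfold NP2 at h0
  -- the numbers
  have e1 : ∑ u ∈ Q ∪ K, pc u = be y z := by
    rw [sum_union hQK, sum_congr rfl fun u hu => (hQ1 u hu).2.2.1,
      sum_congr (s₁ := K) rfl fun u hu => (hKy u hu).2, sum_const, sum_const_zero, nsmul_eq_mul,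
      mul_one, add_zero]
    exact hQc
  have e1' : ∑ u ∈ Q ∪ K, (if ho u = y then pc u else 0) = be y z := by
    rw [← e1]
    exact sum_congr rfl fun u hu => if_pos (hoy u hu)
  have e2 : ((Q ∪ K).card : ℤ) = be y z + κ' := by
    rw [card_union_of_disjoint hQK, hκ, ← hQc]
    push_cast
    rfl
  have e3 : ∑ u ∈ Q ∪ K, msP kp mn z w u = ∑ u ∈ K, msP kp mn z lv u := by
    rw [sum_union hQK]
    have h1 : ∑ u ∈ Q, msP kp mn z w u = 0 := sum_eq_zero fun u hu => by
      obtain ⟨h2, h3, h4, h5, -⟩ := hQ1 u hu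
      unfold msP
      rw [(H.pc_fact h2 (by rw [h4]; norm_num)).2.2.1 z hz, ite_self]
    have h2 : ∑ u ∈ K, msP kp mn z w u = ∑ u ∈ K, msP kp mn z lv u := by
      refine sum_congr rfl fun u hu => ?_
      unfold msP
      rw [hwK u hu]
    rw [h1, h2, zero_add]
  have e4 : ∑ u ∈ Q ∪ K, (w u : ℤ) = be y z + k := by
    rw [sum_union hQK, sum_congr rfl fun u hu => by rw [hwQ u hu],
      sum_congr (s₁ := K) rfl fun u hu => by rw [hwK u hu], ← hk, ← hQc]
    simp
  have e5 : ∑ u ∈ Q ∪ K, ((w u : ℤ) + 1 - if ho u = y then pc u else 0)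
      = be y z + (k + κ') := by
    rw [sum_sub_distrib, e1', sum_add_distrib, e4, sum_const, nsmul_eq_mul, mul_one, e2]
    ring
  -- the kept value
  have e6 : mu z - ∑ l ∈ X, kq z l - ∑ l ∈ Y, (be z l - kq z l) - ∑ u ∈ D, vl u
      = be z y + b + m := by
    have h1 : ∑ u ∈ D, vl u + ∑ u ∈ P, vl u
        = ∑ u ∈ U.filter (fun u => ho u = z ∧ pc u = 0), vl u := by
      rw [← sum_filter_add_sum_filter_not (U.filter fun u => ho u = z ∧ pc u = 0)
        (fun u => u ∉ P), filter_filter, filter_filter]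
      congr 1
      · refine sum_congr ?_ fun _ _ => rfl
        rw [hD]
        refine filter_congr fun u _ => ?_
        tauto
      · refine sum_congr ?_ fun _ _ => rfl
        ext u
        simp only [mem_filter, not_not]
        exact ⟨fun h => ⟨hP h, hPz u h, h⟩, fun h => h.2.2⟩
    have h2 := H.mu_plain hz
    have h5 := add_sum_erase ((range n).erase z) (fun l => be z l)
      (mem_erase.2 ⟨hyz, mem_range.2 hy⟩)
    beta_reduce at h5
    have h6 : ∑ l ∈ X, (be z l - kq z l) = b + ∑ l ∈ Y, (be z l - kq z l) := by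
      rw [hb, sum_sdiff hY]
    rw [sum_sub_distrib] at h6
    linarith
  have e7 : ∑ l ∈ X, kq z l + ∑ l ∈ Y, (be z l - kq z l) + ∑ u ∈ D, (vl u + 1)
      = mu z - (be z y + b + m) + g := by
    rw [sum_add_distrib (s := D), sum_const, nsmul_eq_mul, mul_one, eD, ← hg]
    linarith
  -- the hits
  have e8 : ∑ u ∈ U.filter (fun u => ho u = z ∧ u ∉ D), (kp y u * (R - t y) - mn y u)
      = be z y * (R - t y) + ∑ u ∈ P, (kp y u * (R - t y) - mn y u) := by
    rw [H.split_pc hDz, eP, ← H.pcb z hz y hy, sum_mul]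
    congr 1
    refine sum_congr rfl fun u hu => ?_
    by_cases h4 : pc u = 0
    · rw [h4]
      ring
    · rw [(H.pc_fact (mem_filter.1 hu).1 h4).2.2.1 y hy]
      ring
  -- the saving
  have e9 : ((Q ∪ K).filter fun u => ho u = y → pc u = 0) = K := by
    ext u
    simp only [mem_filter, mem_union]
    constructor
    · rintro ⟨h1 | h1, h2⟩
      · obtain ⟨-, h3, h4, -⟩ := hQ1 u h1
        rw [h2 h3] at h4
        exact absurd h4 (by norm_num)
      · exact h1
    · intro h1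
      exact ⟨Or.inr h1, fun _ => (hKy u h1).2⟩
  have e10 : n1 * (n1 - 1) ≤ svP n ho vl K w := by
    have h1 : n1 * (n1 - 1) ≤ ((K.filter fun u => ho u = y ∧ ((w u : ℕ) : ℤ) = vl u).card : ℤ)
        * (((K.filter fun u => ho u = y ∧ ((w u : ℕ) : ℤ) = vl u).card : ℤ) - 1) := by
      rw [hn]
      refine tri_mono (card_le_card fun u hu => ?_)
      obtain ⟨h2, h3⟩ := mem_filter.1 hu
      refine mem_filter.2 ⟨h2, (hKy u h2).1, ?_⟩
      have h4 := hlv u h2
      have h5 := hlv' u h2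
      have h6 := H.kv u (hK h2) z hz
      rw [hwK u h2]
      rw [h3] at h6 ⊢
      have h7 : (1 : ℤ) ≤ (lv u : ℤ) := by exact_mod_cast h4
      linarith
    unfold svP
    refine h1.trans (single_le_sum (f := fun x => ((K.filter fun u => ho u = x
      ∧ ((w u : ℕ) : ℤ) = vl u).card : ℤ)
      * (((K.filter fun u => ho u = x ∧ ((w u : ℕ) : ℤ) = vl u).card : ℤ) - 1))
      (fun x _ => tri_nonneg' _) (mem_range.2 hy))
  have e11 : ((Q ∪ K).filter fun u => ho u = y ∧ pc u = 0 ∧ ∀ l < n, l ≠ z → kp l u = 0)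
      = K.filter fun u => ¬ ∃ l < n, l ≠ z ∧ kp l u ≠ 0 := by
    ext u
    simp only [mem_filter, mem_union, not_exists, not_and, not_not]
    constructor
    · rintro ⟨h1 | h1, -, h2, h3⟩
      · have h4 := (hQ1 u h1).2.2.1
        rw [h2] at h4
        exact absurd h4 (by norm_num)
      · exact ⟨h1, fun l hl hlz => h3 l hl hlz⟩
    · rintro ⟨h1, h2⟩
      exact ⟨Or.inr h1, (hKy u h1).1, (hKy u h1).2, fun l hl hlz => h2 l hl hlz⟩
  have e9' : K.filter (fun u => pc u = 0) = K :=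
    filter_true_of_mem fun u hu => (hKy u hu).2
  have e17 : minP U ho vl pc z D = ∑ e ∈ P.offDiag, min (vl e.1) (vl e.2) := by
    unfold minP kpPl
    rw [eP]
  -- the excess
  have e12 : ((range n).erase z).erase y \ X = ∅ := by
    rw [hXd, Finset.sdiff_self]
  have e13 : ∀ l, (U.filter fun u => ho u = z ∧ u ∉ D ∧ pc u = 0 ∧ kp l u ≠ 0)
      = P.filter fun u => kp l u ≠ 0 := by
    intro l
    rw [← eP, filter_filter]
    refine filter_congr fun u _ => ?_
    tauto
  -- the arcs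
  have e14 : ∑ u ∈ Q ∪ K, (if ho u = y then (1 - pc u) * ar u
      else ((w u : ℤ) + 1) * (R - t y)) = ∑ u ∈ K, ar u := by
    rw [sum_union hQK]
    have h1 : ∑ u ∈ Q, (if ho u = y then (1 - pc u) * ar u
        else ((w u : ℤ) + 1) * (R - t y)) = 0 :=
      sum_eq_zero fun u hu => by
        obtain ⟨-, h2, h3, -⟩ := hQ1 u hu
        rw [if_pos h2, h3]
        ring
    have h2 : ∑ u ∈ K, (if ho u = y then (1 - pc u) * ar u
        else ((w u : ℤ) + 1) * (R - t y)) = ∑ u ∈ K, ar u :=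
      sum_congr rfl fun u hu => by
        rw [if_pos (hKy u hu).1, (hKy u hu).2]
        ring
    rw [h1, h2, zero_add]
  have e15 : ∑ u ∈ K, ar u ≤ be y z * ((K.filter fun u => ¬ ∃ l < n, l ≠ z ∧ kp l u ≠ 0).card : ℤ)
      + ∑ u ∈ K.filter (fun u => ∃ l < n, l ≠ z ∧ kp l u ≠ 0),
        ∑ l ∈ ((range n).erase y).filter (fun l => kp l u ≠ 0), be y l := by
    rw [← sum_filter_add_sum_filter_not K (fun u => ∃ l < n, l ≠ z ∧ kp l u ≠ 0), add_comm]
    refine add_le_add ?_ (sum_le_sum fun u hu => ?_)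
    · rw [mul_comm, ← nsmul_eq_mul, ← sum_const]
      refine sum_le_sum fun u hu => ?_
      obtain ⟨h1, h2⟩ := mem_filter.1 hu
      have h3 := H.ar_in (hK h1) (hKy u h1).2 (L := {z}) (by
        intro l hl
        rw [mem_singleton.1 hl]
        exact mem_range.2 hz) (fun l hl h4 => by
          by_contra h5
          exact h2 ⟨l, hl, fun h6 => h5 (mem_singleton.2 h6), h4⟩)
      rw [sum_singleton, (hKy u h1).1] at h3
      exact h3
    · have h1 := (mem_filter.1 hu).1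
      have h3 := H.ar_le (hK h1) (hKy u h1).2
      rw [(hKy u h1).1] at h3
      exact h3
  have e16 : ∑ l ∈ Y, (be z l - kq z l) * (sg z l
        + ((U.filter fun u => ho u = z ∧ u ∉ D ∧ pc u = 0 ∧ kp l u ≠ 0).card : ℤ))
      = ∑ l ∈ Y, (be z l - kq z l) * (sg z l + ((P.filter fun u => kp l u ≠ 0).card : ℤ)) :=
    sum_congr rfl fun l _ => by rw [e13 l]
  rw [e3, e4, e5, e6, e7, e8, e9, e9', e1', e11, e12, e14, e16, e17, sum_empty, add_zero] at h0
  unfold TstP at h0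
  rw [hE, hW]
  subst hM
  linarith [h0, e10, e15]

/-- **the exact row test in numbers**, Konig pairs out, block pairs and the plain items of `P` kept -/
theorem PConC.numT2 (H : PConC R n t s mu U ho vl kp mn pc ar be kq NN sg nu) (hz : z < n)
    {P : Finset ι} (hP : P ⊆ U) (hPz : ∀ u ∈ P, ho u = z ∧ pc u = 0) {m b g : ℤ}
    (hm : m = ∑ u ∈ P, vl u) (hb : b = ∑ l ∈ (range n).erase z, (be z l - kq z l))
    (hg : g = ((U.filter fun u => ho u = z ∧ pc u = 0).card : ℤ) - (P.card : ℤ)) :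
    (m + b) * (m + b + 1) + ∑ e ∈ P.offDiag, min (vl e.1) (vl e.2)
      ≤ 2 * ((t z + 1) * (m + b)) + 2 * ((R - (m + b)) * (mu z - s z + g - (m + b)))
        + ∑ l ∈ (range n).erase z, (be z l - kq z l) * (be z l - kq z l + 1) := by
  set D : Finset ι := U.filter fun u => ho u = z ∧ pc u = 0 ∧ u ∉ P with hD
  have hDz : ∀ u ∈ D, ho u = z ∧ pc u = 0 := fun u hu => by
    obtain ⟨-, h1, h2, -⟩ := mem_filter.1 hu
    exact ⟨h1, h2⟩
  obtain ⟨eP, eD⟩ := plain_split hP hPz
  rw [← hD] at eP eD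
  have h0 := H.tTc z hz ((range n).erase z) (erase_subset _ _) ∅ (empty_subset _) D
    (filter_subset _ _) hDz ∅ (empty_subset _) (fun u hu => absurd hu (notMem_empty u))
    (fun _ => 1) (fun u hu => absurd hu (notMem_empty u)) (fun u hu => absurd hu (notMem_empty u))
    _ (Or.inl le_rfl)
  unfold NP2 at h0
  have e6 : mu z - ∑ l ∈ (range n).erase z, kq z l - ∑ u ∈ D, vl u = b + m := by
    have h1 : ∑ u ∈ D, vl u + ∑ u ∈ P, vl u
        = ∑ u ∈ U.filter (fun u => ho u = z ∧ pc u = 0), vl u := by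
      rw [← sum_filter_add_sum_filter_not (U.filter fun u => ho u = z ∧ pc u = 0)
        (fun u => u ∉ P), filter_filter, filter_filter]
      congr 1
      · refine sum_congr ?_ fun _ _ => rfl
        rw [hD]
        refine filter_congr fun u _ => ?_
        tauto
      · refine sum_congr ?_ fun _ _ => rfl
        ext u
        simp only [mem_filter, not_not]
        exact ⟨fun h => ⟨hP h, hPz u h, h⟩, fun h => h.2.2⟩
    have h2 := H.mu_plain hz
    rw [sum_sub_distrib] at hb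
    linarith
  have e7 : ∑ l ∈ (range n).erase z, kq z l + ∑ u ∈ D, (vl u + 1) = mu z - (b + m) + g := by
    rw [sum_add_distrib (s := D), sum_const, nsmul_eq_mul, mul_one, eD, ← hg]
    linarith
  have e8 : svP n ho vl (∅ : Finset ι) (fun _ => 1) = 0 := by
    unfold svP
    simp
  have e17 : minP U ho vl pc z D = ∑ e ∈ P.offDiag, min (vl e.1) (vl e.2) := by
    unfold minP kpPl
    rw [eP]
  rw [filter_empty, sum_empty, sum_empty, sum_empty, sum_empty, sum_empty, sub_zero, add_zero,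
    sdiff_empty, Finset.sdiff_self, sum_empty, e6, e7, e8, e17] at h0
  unfold TstP at h0
  linarith

/-- **T in numbers, used items** -/
theorem PConC.numTS2 (H : PConC R n t s mu U ho vl kp mn pc ar be kq NN sg nu) (hz : z < n)
    {P : Finset ι} (hP : P ⊆ U) (hPz : ∀ u ∈ P, ho u = z ∧ pc u = 0) {K : Finset ι} (hK : K ⊆ U)
    (hKz : ∀ u ∈ K, ho u ≠ z) {lv : ι → ℕ} (hlv : ∀ u ∈ K, 1 ≤ lv u)
    (hlv' : ∀ u ∈ K, (lv u : ℤ) ≤ kp z u) {m k κ' b E W g : ℤ}
    (hm : m = ∑ u ∈ P, vl u) (hk : k = ∑ u ∈ K, (lv u : ℤ)) (hκ : κ' = (K.card : ℤ))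
    (hb : b = ∑ l ∈ (range n).erase z, (be z l - kq z l))
    (hE : E = m + b + k) (hW : W = m + b + k + κ')
    (hg : g = ((U.filter fun u => ho u = z ∧ pc u = 0).card : ℤ) - (P.card : ℤ)) :
    (m + b + (k - κ')) * (W + 1)
      + (svP n ho vl K lv + svP n ho vl (K.filter fun u => pc u = 0) lv)
      + ∑ e ∈ P.offDiag, min (vl e.1) (vl e.2)
      ≤ 2 * ((t z + 1) * E + ∑ u ∈ K, msP kp mn z lv u)
        + 2 * ((R - W) * (mu z - s z + g - E))
        + ∑ l ∈ (range n).erase z, (be z l - kq z l) * (be z l - kq z l + 1) := by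
  set D : Finset ι := U.filter fun u => ho u = z ∧ pc u = 0 ∧ u ∉ P with hD
  have hDz : ∀ u ∈ D, ho u = z ∧ pc u = 0 := fun u hu => by
    obtain ⟨-, h1, h2, -⟩ := mem_filter.1 hu
    exact ⟨h1, h2⟩
  obtain ⟨eP, eD⟩ := plain_split hP hPz
  rw [← hD] at eP eD
  have h0 := H.tTc z hz ((range n).erase z) (erase_subset _ _) ∅ (empty_subset _) D
    (filter_subset _ _) hDz K hK hKz lv hlv hlv' _ (Or.inl le_rfl)
  unfold NP2 at h0
  have e17 : minP U ho vl pc z D = ∑ e ∈ P.offDiag, min (vl e.1) (vl e.2) := by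
    unfold minP kpPl
    rw [eP]
  have e6 : mu z - ∑ l ∈ (range n).erase z, kq z l - ∑ u ∈ D, vl u = b + m := by
    have h1 := plain_val_split (vl := vl) hP hPz
    have h2 := H.mu_plain hz
    rw [sum_sub_distrib] at hb
    linarith
  have e7 : ∑ l ∈ (range n).erase z, kq z l + ∑ u ∈ D, (vl u + 1) = mu z - (b + m) + g := by
    rw [sum_add_distrib (s := D), sum_const, nsmul_eq_mul, mul_one, eD, ← hg]
    linarith
  have e5 : ∑ u ∈ K, ((lv u : ℤ) + 1) = k + κ' := by
    rw [sum_add_distrib, sum_const, nsmul_eq_mul, mul_one, ← hk, hκ]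
  rw [e5, ← hk, sum_empty, sum_empty, sub_zero, add_zero, sdiff_empty,
    Finset.sdiff_self, sum_empty, e6, e7, e17] at h0
  unfold TstP at h0
  rw [hE, hW]
  linarith

/-- **T in numbers, used items of one host** (`(T_S)` of 72) -/
theorem PConC.numTSy2 (H : PConC R n t s mu U ho vl kp mn pc ar be kq NN sg nu) (hz : z < n)
    (hy : y < n) (hyz : y ≠ z) {P : Finset ι} (hP : P ⊆ U)
    (hPz : ∀ u ∈ P, ho u = z ∧ pc u = 0) {K : Finset ι} (hK : K ⊆ U)
    (hKy : ∀ u ∈ K, ho u = y) {lv : ι → ℕ} (hlv : ∀ u ∈ K, 1 ≤ lv u)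
    (hlv' : ∀ u ∈ K, (lv u : ℤ) ≤ kp z u) {m k κ' n1 n2 b E W g : ℤ}
    (hm : m = ∑ u ∈ P, vl u) (hk : k = ∑ u ∈ K, (lv u : ℤ)) (hκ : κ' = (K.card : ℤ))
    (hn : n1 = ((K.filter fun u => vl u = 1).card : ℤ))
    (hn2 : n2 = ((K.filter fun u => pc u = 0 ∧ vl u = 1).card : ℤ))
    (hb : b = ∑ l ∈ (range n).erase z, (be z l - kq z l))
    (hE : E = m + b + k) (hW : W = m + b + k + κ')
    (hg : g = ((U.filter fun u => ho u = z ∧ pc u = 0).card : ℤ) - (P.card : ℤ)) :
    (m + b + (k - κ')) * (W + 1) + n1 * (n1 - 1) + n2 * (n2 - 1)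
      + ∑ e ∈ P.offDiag, min (vl e.1) (vl e.2)
      ≤ 2 * ((t z + 1) * E + ∑ u ∈ K, msP kp mn z lv u)
        + 2 * ((R - W) * (mu z - s z + g - E))
        + ∑ l ∈ (range n).erase z, (be z l - kq z l) * (be z l - kq z l + 1) := by
  have h1 := H.numTS2 hz hP hPz hK (fun u hu => by rw [hKy u hu]; exact hyz) hlv hlv' hm hk hκ hb
    hE hW hg
  have h2 := svP_host (vl := vl) hy hKy hlv
    (fun u hu => (hlv' u hu).trans (H.kv u (hK hu) z hz)) hn
  have h3 := svP_host (n := n) (K := K.filter fun u => pc u = 0) (vl := vl) (lv := lv) hy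
    (fun u hu => hKy u (mem_filter.1 hu).1)
    (fun u hu => hlv u (mem_filter.1 hu).1)
    (fun u hu => (hlv' u (mem_filter.1 hu).1).trans (H.kv u (hK (mem_filter.1 hu).1) z hz))
    (n1 := n2) (by rw [hn2, filter_filter])
  linarith

end CellC

end Pool.Agent.Lib.MP_f04ccf_co
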