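import Pool.Agent.Lib.MP_f04ccf_co.M.RulM
import Pool.Agent.Lib.MP_f04ccf_co.M.PConC

/-!
MP_f04ccf_co, TEXT D, middle range: **RULE Q** (66's 18369 / 18404) over the units of `LevC` and its closing.

Letters: `A i = t i + 1`, `x` the host, `i = v.2.1` the main end with `b_i = unb` misses, `c = f v.1` the cut end with
`b_c` misses, `D = A + b`; positive weights `W` of the rows.

* `swQ`: value one, two ends, and the cut end has more hits (`D_c < D_i`); `payQ`, `bQ` the end with more hits and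
  its misses; `TQ = W x / (W x + W m) (1 - b_m / R)`, `m = payQ`; the host pays `1 - TQ`;
* `smQ`, `scQ`: the parts of the main and of the cut end: for the items of value one with two ends `TQ` is
  distributed in proportion `q = ((2 h - A_x)+)^2 / D`, `h = R - D` (all to `m` if both are zero); for the other
  units (full, PC, clique units) the main end pays `TQ`;
* `TQ_nonneg`, `TQ_lt_one`, `smQ_nonneg`, `scQ_nonneg`, `LevC.smQ_add_scQ`; `LevC.D_pay`: `D_m` is the smaller one;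
* `LevC.close_Q`, `LevC.close_Q'` (`δ z = A z / (R + 1)`), `LevC.close_QC` (over `PConC`);
* the shares as quotients of naturals, weights `W i = wt (A i)`: `qT`, `qH`, `qS`; `TQ_eq`, `LevC.host_eq`,
  `LevC.one_eq`, `LevC.smQ_eq`, `LevC.scQ_eq`.
-/

set_option autoImplicit false

namespace Pool.Agent.Lib.MP_f04ccf_co

open Finset

attribute [local instance] Classical.propDecidable

section RulQ

variable {ι : Type*} {R : ℤ} {n : ℕ} {t s mu : ℕ → ℤ} {U : Finset ι} {ho : ι → ℕ} {vl : ι → ℤ}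
  {kp mn : ℕ → ι → ℤ} {pc ar : ι → ℤ} {be kq NN sg : ℕ → ℕ → ℤ} {nu : ℕ → ι → ℤ}
  {φ : ι → ℕ → ℤ} {g : ℕ → ι → ℕ} {f : ι → ℕ} {W : ℕ → ℝ}

/-- mass plus misses at the main end -/
noncomputable def dmQ (t : ℕ → ℤ) (kp mn : ℕ → ι → ℤ) (g : ℕ → ι → ℕ) (v : ι × ℕ × ℕ) : ℤ :=
  t v.2.1 + 1 + unb kp mn g v

/-- mass plus misses at the cut end -/
def dcQ (t : ℕ → ℤ) (mn : ℕ → ι → ℤ) (f : ι → ℕ) (v : ι × ℕ × ℕ) : ℤ :=
  t (f v.1) + 1 + mn (f v.1) v.1

/-- value one, two ends, the cut end has more hits -/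
def swQ (t : ℕ → ℤ) (vl : ι → ℤ) (kp mn : ℕ → ι → ℤ) (g : ℕ → ι → ℕ) (f : ι → ℕ)
    (v : ι × ℕ × ℕ) : Prop :=
  twoE vl kp g f v.1 ∧ dcQ t mn f v < dmQ t kp mn g v

/-- the end with more hits -/
noncomputable def payQ (t : ℕ → ℤ) (vl : ι → ℤ) (kp mn : ℕ → ι → ℤ) (g : ℕ → ι → ℕ) (f : ι → ℕ)
    (v : ι × ℕ × ℕ) : ℕ :=
  if swQ t vl kp mn g f v then f v.1 else v.2.1

/-- the misses at the end with more hits -/
noncomputable def bQ (t : ℕ → ℤ) (vl : ι → ℤ) (kp mn : ℕ → ι → ℤ) (g : ℕ → ι → ℕ) (f : ι → ℕ)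
    (v : ι × ℕ × ℕ) : ℤ :=
  if swQ t vl kp mn g f v then mn (f v.1) v.1 else unb kp mn g v

/-- **the share which the host does not pay, RULE Q** -/
noncomputable def TQ (W : ℕ → ℝ) (R : ℤ) (t : ℕ → ℤ) (ho : ι → ℕ) (vl : ι → ℤ) (kp mn : ℕ → ι → ℤ)
    (g : ℕ → ι → ℕ) (f : ι → ℕ) (v : ι × ℕ × ℕ) : ℝ :=
  W (ho v.1) / (W (ho v.1) + W (payQ t vl kp mn g f v))
    * (1 - (bQ t vl kp mn g f v : ℝ) / (R : ℝ))

/-- `(2 h - A_x)+` at the main end -/
noncomputable def pmQ (R : ℤ) (t : ℕ → ℤ) (ho : ι → ℕ) (kp mn : ℕ → ι → ℤ) (g : ℕ → ι → ℕ)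
    (v : ι × ℕ × ℕ) : ℤ :=
  max 0 (2 * (R - dmQ t kp mn g v) - (t (ho v.1) + 1))

/-- `(2 h - A_x)+` at the cut end -/
def pcQ (R : ℤ) (t : ℕ → ℤ) (ho : ι → ℕ) (mn : ℕ → ι → ℤ) (f : ι → ℕ) (v : ι × ℕ × ℕ) : ℤ :=
  max 0 (2 * (R - dcQ t mn f v) - (t (ho v.1) + 1))

/-- the proportion of the main end -/
noncomputable def qmQ (R : ℤ) (t : ℕ → ℤ) (ho : ι → ℕ) (kp mn : ℕ → ι → ℤ) (g : ℕ → ι → ℕ)
    (v : ι × ℕ × ℕ) : ℝ :=
  (pmQ R t ho kp mn g v : ℝ) ^ 2 / (dmQ t kp mn g v : ℝ)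

/-- the proportion of the cut end -/
noncomputable def qcQ (R : ℤ) (t : ℕ → ℤ) (ho : ι → ℕ) (mn : ℕ → ι → ℤ) (f : ι → ℕ)
    (v : ι × ℕ × ℕ) : ℝ :=
  (pcQ R t ho mn f v : ℝ) ^ 2 / (dcQ t mn f v : ℝ)

/-- **the part of the main end** -/
noncomputable def smQ (W : ℕ → ℝ) (R : ℤ) (t : ℕ → ℤ) (ho : ι → ℕ) (vl : ι → ℤ) (kp mn : ℕ → ι → ℤ)
    (g : ℕ → ι → ℕ) (f : ι → ℕ) (v : ι × ℕ × ℕ) : ℝ :=
  if twoE vl kp g f v.1 then
    (if qmQ R t ho kp mn g v + qcQ R t ho mn f v = 0 then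
      (if swQ t vl kp mn g f v then 0 else TQ W R t ho vl kp mn g f v)
    else TQ W R t ho vl kp mn g f v
      * (qmQ R t ho kp mn g v / (qmQ R t ho kp mn g v + qcQ R t ho mn f v)))
  else TQ W R t ho vl kp mn g f v

/-- **the part of the cut end** -/
noncomputable def scQ (W : ℕ → ℝ) (R : ℤ) (t : ℕ → ℤ) (ho : ι → ℕ) (vl : ι → ℤ) (kp mn : ℕ → ι → ℤ)
    (g : ℕ → ι → ℕ) (f : ι → ℕ) (v : ι × ℕ × ℕ) : ℝ :=
  if twoE vl kp g f v.1 then
    (if qmQ R t ho kp mn g v + qcQ R t ho mn f v = 0 then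
      (if swQ t vl kp mn g f v then TQ W R t ho vl kp mn g f v else 0)
    else TQ W R t ho vl kp mn g f v
      * (qcQ R t ho mn f v / (qmQ R t ho kp mn g v + qcQ R t ho mn f v)))
  else 0

lemma swQ_two {v : ι × ℕ × ℕ} (h : swQ t vl kp mn g f v) : twoE vl kp g f v.1 := h.1

lemma payQ_one {v : ι × ℕ × ℕ} (h : ¬ twoE vl kp g f v.1) :
    payQ t vl kp mn g f v = v.2.1 ∧ bQ t vl kp mn g f v = unb kp mn g v := by
  have h1 : ¬ swQ t vl kp mn g f v := fun h2 => h h2.1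
  unfold payQ bQ
  exact ⟨if_neg h1, if_neg h1⟩

/-- the paying end is a row, its misses are at most `R - t` -/
lemma LevC.payQ_facts (Lv : LevC n U ho vl kp mn pc φ g f)
    (H : PCon R n t s mu U ho vl kp mn pc ar be kq NN sg nu) {v : ι × ℕ × ℕ}
    (hv : v ∈ unV n U g) :
    payQ t vl kp mn g f v < n ∧ payQ t vl kp mn g f v ≠ ho v.1 ∧ 0 ≤ bQ t vl kp mn g f v ∧
      bQ t vl kp mn g f v ≤ R - t (payQ t vl kp mn g f v) := by
  obtain ⟨h1, h2, -⟩ := LevC.mem_unV hv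
  unfold payQ bQ
  split_ifs with h3
  · have h4 := Lv.fn v.1 h1
    exact ⟨h4, Lv.fh v.1 h1, H.m0 v.1 h1 _ h4, H.mnc v.1 h1 _ h4⟩
  · exact ⟨h2, Lv.main_ne hv, LevC.unb_nonneg H hv, LevC.unb_le H hv⟩

/-- **the paying end has the smaller mass plus misses** -/
lemma LevC.D_pay {v : ι × ℕ × ℕ} (h : twoE vl kp g f v.1) :
    t (payQ t vl kp mn g f v) + 1 + bQ t vl kp mn g f v = min (dmQ t kp mn g v) (dcQ t mn f v) := by
  unfold payQ bQ
  split_ifs with h3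
  · rw [min_eq_right h3.2.le]
    rfl
  · have h4 : dmQ t kp mn g v ≤ dcQ t mn f v := by
      by_contra hcon
      exact h3 ⟨h, not_le.1 hcon⟩
    rw [min_eq_left h4]
    rfl

lemma LevC.TQ_nonneg (Lv : LevC n U ho vl kp mn pc φ g f)
    (H : PCon R n t s mu U ho vl kp mn pc ar be kq NN sg nu) (hW : ∀ i < n, 0 < W i)
    {v : ι × ℕ × ℕ} (hv : v ∈ unV n U g) : 0 ≤ TQ W R t ho vl kp mn g f v := by
  obtain ⟨h1, -, -⟩ := LevC.mem_unV hv
  obtain ⟨h2, -, h3, h4⟩ := Lv.payQ_facts H hv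
  have h5 := hW _ (H.hlt v.1 h1)
  have h6 := hW _ h2
  have h7 : (0 : ℝ) < R := by exact_mod_cast R_pos H
  have h8 : (bQ t vl kp mn g f v : ℝ) ≤ R := by
    have : bQ t vl kp mn g f v ≤ R := by
      have := H.t0 _ h2
      linarith
    exact_mod_cast this
  unfold TQ
  refine mul_nonneg (div_nonneg h5.le (by linarith)) ?_
  rw [sub_nonneg, div_le_one h7]
  exact h8

lemma LevC.TQ_lt_one (Lv : LevC n U ho vl kp mn pc φ g f)
    (H : PCon R n t s mu U ho vl kp mn pc ar be kq NN sg nu) (hW : ∀ i < n, 0 < W i)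
    {v : ι × ℕ × ℕ} (hv : v ∈ unV n U g) : TQ W R t ho vl kp mn g f v < 1 := by
  obtain ⟨h1, -, -⟩ := LevC.mem_unV hv
  obtain ⟨h2, -, h3, -⟩ := Lv.payQ_facts H hv
  have h5 := hW _ (H.hlt v.1 h1)
  have h6 := hW _ h2
  have h7 : (0 : ℝ) < R := by exact_mod_cast R_pos H
  have h8 : (0 : ℝ) ≤ bQ t vl kp mn g f v := by exact_mod_cast h3
  have h9 : 0 ≤ (bQ t vl kp mn g f v : ℝ) / (R : ℝ) := div_nonneg h8 h7.le
  have h10 : W (ho v.1) / (W (ho v.1) + W (payQ t vl kp mn g f v)) < 1 := by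
    rw [div_lt_one (by linarith)]
    linarith
  have h11 : 0 ≤ W (ho v.1) / (W (ho v.1) + W (payQ t vl kp mn g f v)) :=
    div_nonneg h5.le (by linarith)
  unfold TQ
  nlinarith

lemma LevC.dmQ_pos (H : PCon R n t s mu U ho vl kp mn pc ar be kq NN sg nu) {v : ι × ℕ × ℕ}
    (hv : v ∈ unV n U g) : 1 ≤ dmQ t kp mn g v ∧ dmQ t kp mn g v ≤ R + 1 := by
  obtain ⟨-, h2, -⟩ := LevC.mem_unV hv
  have h3 := H.t0 _ h2
  have h4 := LevC.unb_nonneg H hv
  have h5 := LevC.unb_le H hv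
  unfold dmQ
  constructor <;> linarith

lemma LevC.dcQ_pos (Lv : LevC n U ho vl kp mn pc φ g f)
    (H : PCon R n t s mu U ho vl kp mn pc ar be kq NN sg nu) {v : ι × ℕ × ℕ}
    (hv : v ∈ unV n U g) : 1 ≤ dcQ t mn f v ∧ dcQ t mn f v ≤ R + 1 := by
  obtain ⟨h1, -, -⟩ := LevC.mem_unV hv
  have h2 := Lv.fn v.1 h1
  have h3 := H.t0 _ h2
  have h4 := H.m0 v.1 h1 _ h2
  have h5 := H.mnc v.1 h1 _ h2
  unfold dcQ
  constructor <;> linarith

lemma LevC.qmQ_nonneg (H : PCon R n t s mu U ho vl kp mn pc ar be kq NN sg nu) {v : ι × ℕ × ℕ}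
    (hv : v ∈ unV n U g) : 0 ≤ qmQ R t ho kp mn g v := by
  have h1 : (1 : ℝ) ≤ dmQ t kp mn g v := by exact_mod_cast (LevC.dmQ_pos H hv).1
  unfold qmQ
  exact div_nonneg (sq_nonneg _) (by linarith)

lemma LevC.qcQ_nonneg (Lv : LevC n U ho vl kp mn pc φ g f)
    (H : PCon R n t s mu U ho vl kp mn pc ar be kq NN sg nu) {v : ι × ℕ × ℕ}
    (hv : v ∈ unV n U g) : 0 ≤ qcQ R t ho mn f v := by
  have h1 : (1 : ℝ) ≤ dcQ t mn f v := by exact_mod_cast (Lv.dcQ_pos H hv).1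
  unfold qcQ
  exact div_nonneg (sq_nonneg _) (by linarith)

lemma LevC.smQ_nonneg (Lv : LevC n U ho vl kp mn pc φ g f)
    (H : PCon R n t s mu U ho vl kp mn pc ar be kq NN sg nu) (hW : ∀ i < n, 0 < W i)
    {v : ι × ℕ × ℕ} (hv : v ∈ unV n U g) : 0 ≤ smQ W R t ho vl kp mn g f v := by
  have h1 := Lv.TQ_nonneg H hW hv
  have h2 : 0 ≤ qmQ R t ho kp mn g v := LevC.qmQ_nonneg H hv
  have h3 := Lv.qcQ_nonneg H hv
  unfold smQ
  split_ifs
  · exact le_rfl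
  · exact h1
  · exact mul_nonneg h1 (div_nonneg h2 (by linarith))
  · exact h1

lemma LevC.scQ_nonneg (Lv : LevC n U ho vl kp mn pc φ g f)
    (H : PCon R n t s mu U ho vl kp mn pc ar be kq NN sg nu) (hW : ∀ i < n, 0 < W i)
    {v : ι × ℕ × ℕ} (hv : v ∈ unV n U g) : 0 ≤ scQ W R t ho vl kp mn g f v := by
  have h1 := Lv.TQ_nonneg H hW hv
  have h2 : 0 ≤ qmQ R t ho kp mn g v := LevC.qmQ_nonneg H hv
  have h3 := Lv.qcQ_nonneg H hv
  unfold scQ
  split_ifs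
  · exact h1
  · exact le_rfl
  · exact mul_nonneg h1 (div_nonneg h3 (by linarith))
  · exact le_rfl

/-- the two ends pay `TQ` together -/
lemma smQ_add_scQ {v : ι × ℕ × ℕ} (h : twoE vl kp g f v.1) :
    smQ W R t ho vl kp mn g f v + scQ W R t ho vl kp mn g f v = TQ W R t ho vl kp mn g f v := by
  unfold smQ scQ
  rw [if_pos h, if_pos h]
  by_cases h1 : qmQ R t ho kp mn g v + qcQ R t ho mn f v = 0
  · rw [if_pos h1, if_pos h1]
    split_ifs <;> ring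
  · rw [if_neg h1, if_neg h1, ← mul_add, ← add_div, div_self h1, mul_one]

lemma smQ_one {v : ι × ℕ × ℕ} (h : ¬ twoE vl kp g f v.1) :
    smQ W R t ho vl kp mn g f v = TQ W R t ho vl kp mn g f v := by
  unfold smQ
  exact if_neg h

/-- **the closing for RULE Q** -/
theorem LevC.close_Q (Lv : LevC n U ho vl kp mn pc φ g f)
    (H : PCon R n t s mu U ho vl kp mn pc ar be kq NN sg nu) (W : ℕ → ℝ) {δ : ℕ → ℝ} {L : Finset ℕ}
    (hL : L = lightU n s (unV n U g) (unC (twoE vl kp g f) f)) {F : Finset (ι × ℕ × ℕ)}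
    (hF : F = freeU (unV n U g) (fun v => ho v.1) (unC (twoE vl kp g f) f) L)
    (h2 : ∀ z < n, z ∉ L →
      1 ≤ s z + (((unV n U g).filter fun v => z ∈ unC (twoE vl kp g f) f v).card : ℤ) →
      ∑ v ∈ F.filter (fun v => ho v.1 = z), (1 - TQ W R t ho vl kp mn g f v)
        + ∑ v ∈ F.filter (fun v => v.2.1 = z), smQ W R t ho vl kp mn g f v
        + ∑ v ∈ F.filter (fun v => twoE vl kp g f v.1 ∧ f v.1 = z), scQ W R t ho vl kp mn g f v
        ≤ (mu z : ℝ) - s z + δ z)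
    (h3 : ∑ i ∈ (range n).filter (fun i => i ∉ L), δ i < 1) : False := by
  refine Lv.close_S3 H (P := twoE vl kp g f) (fun _ _ h => h)
    (sH := fun v => 1 - TQ W R t ho vl kp mn g f v) (sM := smQ W R t ho vl kp mn g f)
    (sC := scQ W R t ho vl kp mn g f) hL hF (fun v _ => ?_) h2 h3
  by_cases h4 : twoE vl kp g f v.1
  · have h5 := smQ_add_scQ (W := W) (R := R) (t := t) (ho := ho) (mn := mn) h4
    rw [if_pos h4]
    linarith
  · rw [if_neg h4, smQ_one h4]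
    linarith

/-- **the closing for RULE Q**, `δ z = A z / (R + 1)` -/
theorem LevC.close_Q' (Lv : LevC n U ho vl kp mn pc φ g f)
    (H : PCon R n t s mu U ho vl kp mn pc ar be kq NN sg nu) (W : ℕ → ℝ) {L : Finset ℕ}
    (hL : L = lightU n s (unV n U g) (unC (twoE vl kp g f) f)) {F : Finset (ι × ℕ × ℕ)}
    (hF : F = freeU (unV n U g) (fun v => ho v.1) (unC (twoE vl kp g f) f) L)
    (h2 : ∀ z < n, z ∉ L →
      1 ≤ s z + (((unV n U g).filter fun v => z ∈ unC (twoE vl kp g f) f v).card : ℤ) →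
      ∑ v ∈ F.filter (fun v => ho v.1 = z), (1 - TQ W R t ho vl kp mn g f v)
        + ∑ v ∈ F.filter (fun v => v.2.1 = z), smQ W R t ho vl kp mn g f v
        + ∑ v ∈ F.filter (fun v => twoE vl kp g f v.1 ∧ f v.1 = z), scQ W R t ho vl kp mn g f v
        ≤ (mu z : ℝ) - s z + ((t z : ℝ) + 1) / ((R : ℝ) + 1)) : False :=
  Lv.close_Q H W hL hF h2 (H.sum_A_lt L)

/-- **the closing for RULE Q over `PConC`** -/
theorem LevC.close_QC (Lv : LevC n U ho vl kp mn pc φ g f)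
    (H : PConC R n t s mu U ho vl kp mn pc ar be kq NN sg nu) (W : ℕ → ℝ) {L : Finset ℕ}
    (hL : L = lightU n s (unV n U g) (unC (twoE vl kp g f) f)) {F : Finset (ι × ℕ × ℕ)}
    (hF : F = freeU (unV n U g) (fun v => ho v.1) (unC (twoE vl kp g f) f) L)
    (h2 : ∀ z < n, z ∉ L →
      1 ≤ s z + (((unV n U g).filter fun v => z ∈ unC (twoE vl kp g f) f v).card : ℤ) →
      ∑ v ∈ F.filter (fun v => ho v.1 = z), (1 - TQ W R t ho vl kp mn g f v)
        + ∑ v ∈ F.filter (fun v => v.2.1 = z), smQ W R t ho vl kp mn g f v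
        + ∑ v ∈ F.filter (fun v => twoE vl kp g f v.1 ∧ f v.1 = z), scQ W R t ho vl kp mn g f v
        ≤ (mu z : ℝ) - s z + ((t z : ℝ) + 1) / ((R : ℝ) + 1)) : False :=
  Lv.close_Q' H.toPCon W hL hF h2

end RulQ

/-! ### the shares as quotients of naturals -/

/-- `T` as a quotient: host `X`, paying end of mass `A` with `b` misses, weights `wt` -/
def qT (wt : ℕ → ℕ) (R X A b : ℕ) : ℕ × ℕ := (wt X * (R - b), (wt X + wt A) * R)

/-- the part of the host as a quotient -/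
def qH (wt : ℕ → ℕ) (R X A b : ℕ) : ℕ × ℕ := (wt A * R + wt X * b, (wt X + wt A) * R)

/-- **the part of an end** `(A, b)` of a unit of value one with the other end `(A', b')`; `own`: ties are paid by the
end `(A, b)` -/
def qS (wt : ℕ → ℕ) (R X A b A' b' : ℕ) (own : Bool) : ℕ × ℕ :=
  let D := A + b
  let D' := A' + b'
  let p := 2 * (R - D) - X
  let p' := 2 * (R - D') - X
  let pay : Bool := if own then decide (D ≤ D') else decide (D < D')
  let T := if pay then qT wt R X A b else qT wt R X A' b'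
  if p = 0 ∧ p' = 0 then ((if pay then T.1 else 0), T.2)
  else (T.1 * (p ^ 2 * D'), T.2 * (p ^ 2 * D' + p' ^ 2 * D))

section RulQN

variable {ι : Type*} {R : ℤ} {n : ℕ} {t s mu : ℕ → ℤ} {U : Finset ι} {ho : ι → ℕ} {vl : ι → ℤ}
  {kp mn : ℕ → ι → ℤ} {pc ar : ι → ℤ} {be kq NN sg : ℕ → ℕ → ℤ} {nu : ℕ → ι → ℤ}
  {φ : ι → ℕ → ℤ} {g : ℕ → ι → ℕ} {f : ι → ℕ} {W : ℕ → ℝ} {wt : ℕ → ℕ}

/-- the real number of `T` -/
lemma qT_real {Rn X A b : ℕ} (hR : 0 < Rn) (hb : b ≤ Rn) :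
    (wt X : ℝ) / (wt X + wt A) * (1 - (b : ℝ) / Rn) = ((qT wt Rn X A b).1 : ℝ) / (qT wt Rn X A b).2 := by
  have h1 : (0 : ℝ) < Rn := by exact_mod_cast hR
  unfold qT
  show (wt X : ℝ) / (wt X + wt A) * (1 - (b : ℝ) / Rn)
    = ((wt X * (Rn - b) : ℕ) : ℝ) / (((wt X + wt A) * Rn : ℕ) : ℝ)
  rw [Nat.cast_mul, Nat.cast_mul, Nat.cast_add, Nat.cast_sub hb, one_sub_div h1.ne', div_mul_div_comm]

lemma qH_real {Rn X A b : ℕ} (hR : 0 < Rn) (hX : 0 < wt X) :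
    1 - (wt X : ℝ) / (wt X + wt A) * (1 - (b : ℝ) / Rn)
      = ((qH wt Rn X A b).1 : ℝ) / (qH wt Rn X A b).2 := by
  have h1 : (0 : ℝ) < Rn := by exact_mod_cast hR
  have h2 : (0 : ℝ) < wt X := by exact_mod_cast hX
  have h3 : (0 : ℝ) ≤ wt A := Nat.cast_nonneg _
  unfold qH
  show 1 - (wt X : ℝ) / (wt X + wt A) * (1 - (b : ℝ) / Rn)
    = ((wt A * Rn + wt X * b : ℕ) : ℝ) / (((wt X + wt A) * Rn : ℕ) : ℝ)
  push_cast
  have h4 : (wt X : ℝ) + wt A ≠ 0 := by positivity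
  field_simp
  ring

/-- **the part of an end, in real numbers** -/
lemma qS_real {Rn X A b A' b' : ℕ} (own : Bool) (hR : 0 < Rn) (hD : 0 < A + b) (hD' : 0 < A' + b')
    (hb : b ≤ Rn) (hb' : b' ≤ Rn) {py : Prop}
    (hpy : py ↔ if own then A + b ≤ A' + b' else A + b < A' + b') {p p' T : ℝ}
    (hp : p = ((2 * (Rn - (A + b)) - X : ℕ) : ℝ)) (hp' : p' = ((2 * (Rn - (A' + b')) - X : ℕ) : ℝ))
    (hT : T = (wt X : ℝ) / (wt X + wt (if py then A else A'))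
      * (1 - ((if py then b else b' : ℕ) : ℝ) / Rn)) :
    (if p ^ 2 / ((A : ℝ) + b) + p' ^ 2 / ((A' : ℝ) + b') = 0 then (if py then T else 0)
      else T * (p ^ 2 / ((A : ℝ) + b) / (p ^ 2 / ((A : ℝ) + b) + p' ^ 2 / ((A' : ℝ) + b'))))
      = ((qS wt Rn X A b A' b' own).1 : ℝ) / ((qS wt Rn X A b A' b' own).2 : ℝ) := by
  have h1 : (0 : ℝ) < (A : ℝ) + b := by exact_mod_cast hD
  have h2 : (0 : ℝ) < (A' : ℝ) + b' := by exact_mod_cast hD'
  obtain ⟨P, hP⟩ : ∃ P : ℕ, P = 2 * (Rn - (A + b)) - X := ⟨_, rfl⟩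
  obtain ⟨P', hP'⟩ : ∃ P' : ℕ, P' = 2 * (Rn - (A' + b')) - X := ⟨_, rfl⟩
  rw [← hP] at hp
  rw [← hP'] at hp'
  obtain ⟨pb, hpb⟩ : ∃ pb : Bool, pb = if own then decide (A + b ≤ A' + b')
    else decide (A + b < A' + b') := ⟨_, rfl⟩
  have hpb' : py ↔ pb = true := by
    rw [hpy, hpb]
    cases own <;> simp
  have hq : qS wt Rn X A b A' b' own
      = if P = 0 ∧ P' = 0 then
          ((if pb then (if pb then qT wt Rn X A b else qT wt Rn X A' b').1 else 0),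
            (if pb then qT wt Rn X A b else qT wt Rn X A' b').2)
        else ((if pb then qT wt Rn X A b else qT wt Rn X A' b').1 * (P ^ 2 * (A' + b')),
          (if pb then qT wt Rn X A b else qT wt Rn X A' b').2
            * (P ^ 2 * (A' + b') + P' ^ 2 * (A + b))) := by
    unfold qS
    rw [hP, hP', hpb]
  obtain ⟨Tn, hTn⟩ : ∃ Tn : ℕ × ℕ, Tn = if pb then qT wt Rn X A b else qT wt Rn X A' b' := ⟨_, rfl⟩
  have hT' : T = (Tn.1 : ℝ) / (Tn.2 : ℝ) := by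
    rw [hT, hTn]
    by_cases h3 : py
    · rw [if_pos h3, if_pos h3, if_pos (hpb'.1 h3)]
      exact qT_real hR hb
    · have h4 : ¬ pb = true := fun h => h3 (hpb'.2 h)
      rw [if_neg h3, if_neg h3, if_neg h4]
      exact qT_real hR hb'
  have h0 : p ^ 2 / ((A : ℝ) + b) + p' ^ 2 / ((A' : ℝ) + b') = 0 ↔ (P = 0 ∧ P' = 0) := by
    have h3 : 0 ≤ p ^ 2 / ((A : ℝ) + b) := div_nonneg (sq_nonneg _) h1.le
    have h4 : 0 ≤ p' ^ 2 / ((A' : ℝ) + b') := div_nonneg (sq_nonneg _) h2.le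
    constructor
    · intro h5
      have h6 : p ^ 2 / ((A : ℝ) + b) = 0 := by linarith
      have h7 : p' ^ 2 / ((A' : ℝ) + b') = 0 := by linarith
      rw [div_eq_zero_iff] at h6 h7
      have h8 : p = 0 := by
        rcases h6 with h6 | h6
        · exact pow_eq_zero_iff (two_ne_zero) |>.1 h6
        · exact absurd h6 h1.ne'
      have h9 : p' = 0 := by
        rcases h7 with h7 | h7
        · exact pow_eq_zero_iff (two_ne_zero) |>.1 h7
        · exact absurd h7 h2.ne'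
      rw [hp] at h8
      rw [hp'] at h9
      exact ⟨by exact_mod_cast h8, by exact_mod_cast h9⟩
    · rintro ⟨h5, h6⟩
      rw [hp, hp', h5, h6]
      norm_num
  rw [hq, ← hTn]
  by_cases h3 : P = 0 ∧ P' = 0
  · rw [if_pos (h0.2 h3), if_pos h3]
    show (if py then T else 0) = (((if pb then Tn.1 else 0 : ℕ)) : ℝ) / (Tn.2 : ℝ)
    by_cases h4 : py
    · rw [if_pos h4, if_pos (hpb'.1 h4), hT']
    · have h5 : ¬ pb = true := fun h => h4 (hpb'.2 h)
      rw [if_neg h4, if_neg h5, Nat.cast_zero, zero_div]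
  · rw [if_neg (fun h => h3 (h0.1 h)), if_neg h3]
    show T * (p ^ 2 / ((A : ℝ) + b) / (p ^ 2 / ((A : ℝ) + b) + p' ^ 2 / ((A' : ℝ) + b')))
      = ((Tn.1 * (P ^ 2 * (A' + b')) : ℕ) : ℝ)
        / ((Tn.2 * (P ^ 2 * (A' + b') + P' ^ 2 * (A + b)) : ℕ) : ℝ)
    push_cast
    rw [← hp, ← hp', mul_div_mul_comm, hT']
    congr 1
    rw [div_add_div _ _ h1.ne' h2.ne', div_div_div_eq]
    have e1 : p ^ 2 * (((A : ℝ) + b) * ((A' : ℝ) + b'))
        = ((A : ℝ) + b) * (p ^ 2 * ((A' : ℝ) + b')) := by ring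
    have e2 : ((A : ℝ) + b) * (p ^ 2 * ((A' : ℝ) + b') + ((A : ℝ) + b) * p' ^ 2)
        = ((A : ℝ) + b) * (p ^ 2 * ((A' : ℝ) + b') + p' ^ 2 * ((A : ℝ) + b)) := by ring
    rw [e1, e2, mul_div_mul_left _ _ h1.ne']

/-- the natural number of a row -/
lemma castA {i : ℕ} (h : 0 ≤ t i) : (((t i + 1).toNat : ℕ) : ℝ) = (t i : ℝ) + 1 := by
  have h1 : (((t i + 1).toNat : ℕ) : ℤ) = t i + 1 := Int.toNat_of_nonneg (by linarith)
  exact_mod_cast h1

lemma castN {a : ℤ} (h : 0 ≤ a) : ((a.toNat : ℕ) : ℝ) = (a : ℝ) := by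
  have h1 : ((a.toNat : ℕ) : ℤ) = a := Int.toNat_of_nonneg h
  exact_mod_cast h1

/-- **`TQ` as a quotient of naturals** -/
theorem LevC.TQ_eq (Lv : LevC n U ho vl kp mn pc φ g f)
    (H : PCon R n t s mu U ho vl kp mn pc ar be kq NN sg nu)
    (hW : ∀ i < n, W i = wt (t i + 1).toNat) {v : ι × ℕ × ℕ} (hv : v ∈ unV n U g) {A b : ℕ}
    (hA : A = (t (payQ t vl kp mn g f v) + 1).toNat) (hb : b = (bQ t vl kp mn g f v).toNat) :
    TQ W R t ho vl kp mn g f v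
      = ((qT wt R.toNat (t (ho v.1) + 1).toNat A b).1 : ℝ)
        / (qT wt R.toNat (t (ho v.1) + 1).toNat A b).2 := by
  obtain ⟨h1, -, -⟩ := LevC.mem_unV hv
  obtain ⟨h2, -, h3, h4⟩ := Lv.payQ_facts H hv
  have h5 := R_pos H
  have h6 := H.t0 _ h2
  rw [← qT_real (by omega) (by omega), hb, hA, castN h3, castN h5.le]
  unfold TQ
  rw [hW _ (H.hlt v.1 h1), hW _ h2]

/-- **the host's part as a quotient of naturals** -/
theorem LevC.host_eq (Lv : LevC n U ho vl kp mn pc φ g f)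
    (H : PCon R n t s mu U ho vl kp mn pc ar be kq NN sg nu)
    (hW : ∀ i < n, W i = wt (t i + 1).toNat) (hw0 : ∀ i < n, 0 < wt (t i + 1).toNat)
    {v : ι × ℕ × ℕ} (hv : v ∈ unV n U g) {A b : ℕ}
    (hA : A = (t (payQ t vl kp mn g f v) + 1).toNat) (hb : b = (bQ t vl kp mn g f v).toNat) :
    1 - TQ W R t ho vl kp mn g f v
      = ((qH wt R.toNat (t (ho v.1) + 1).toNat A b).1 : ℝ)
        / (qH wt R.toNat (t (ho v.1) + 1).toNat A b).2 := by
  obtain ⟨h1, -, -⟩ := LevC.mem_unV hv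
  obtain ⟨h2, -, h3, h4⟩ := Lv.payQ_facts H hv
  have h5 := R_pos H
  have h6 := H.t0 _ h2
  have h7 := H.hlt v.1 h1
  rw [← qH_real (by omega) (hw0 _ h7), hb, hA, castN h3, castN h5.le]
  unfold TQ
  rw [hW _ h7, hW _ h2]

/-- the natural number of `(2 h - A_x)+` -/
lemma castP {D x : ℤ} {Dn Rn X : ℕ} (hR : (Rn : ℤ) = R) (hD : (Dn : ℤ) = D) (hX : (X : ℤ) = x)
    (hx : 1 ≤ x) (hD1 : D ≤ R + 1) :
    ((max 0 (2 * (R - D) - x) : ℤ) : ℝ) = ((2 * (Rn - Dn) - X : ℕ) : ℝ) := by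
  have h1 : max 0 (2 * (R - D) - x) = ((2 * (Rn - Dn) - X : ℕ) : ℤ) := by omega
  rw [h1]
  rfl

/-- **the part of the main end as a quotient of naturals** -/
theorem LevC.smQ_eq (Lv : LevC n U ho vl kp mn pc φ g f)
    (H : PCon R n t s mu U ho vl kp mn pc ar be kq NN sg nu)
    (hW : ∀ i < n, W i = wt (t i + 1).toNat) {v : ι × ℕ × ℕ} (hv : v ∈ unV n U g)
    (hp : twoE vl kp g f v.1) :
    smQ W R t ho vl kp mn g f v
      = ((qS wt R.toNat (t (ho v.1) + 1).toNat (t v.2.1 + 1).toNat (mn v.2.1 v.1).toNat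
          (t (f v.1) + 1).toNat (mn (f v.1) v.1).toNat true).1 : ℝ)
        / (qS wt R.toNat (t (ho v.1) + 1).toNat (t v.2.1 + 1).toNat (mn v.2.1 v.1).toNat
          (t (f v.1) + 1).toNat (mn (f v.1) v.1).toNat true).2 := by
  obtain ⟨h1, h2, -⟩ := LevC.mem_unV hv
  obtain ⟨-, h3, -, -, -, -, h4, -, -, -, -⟩ := Lv.two_facts H hv hp
  have hR := R_pos H
  have k1 := H.t0 _ h2
  have k2 := H.t0 _ h3
  have k3 := H.m0 v.1 h1 _ h2
  have k4 := H.m0 v.1 h1 _ h3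
  have k5 := H.mnc v.1 h1 _ h2
  have k6 := H.mnc v.1 h1 _ h3
  have k7 := H.t0 _ (H.hlt v.1 h1)
  have hu : unb kp mn g v = mn v.2.1 v.1 := by
    rw [← h4]
    unfold unt
    rw [if_pos rfl]
  have hdm : dmQ t kp mn g v = t v.2.1 + 1 + mn v.2.1 v.1 := by
    unfold dmQ
    rw [hu]
  have hsw : ¬ swQ t vl kp mn g f v ↔ t v.2.1 + 1 + mn v.2.1 v.1 ≤ t (f v.1) + 1 + mn (f v.1) v.1 := by
    unfold swQ
    rw [hdm]
    unfold dcQ
    constructor
    · intro h5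
      by_contra hcon
      exact h5 ⟨hp, not_le.1 hcon⟩
    · rintro h5 ⟨-, h6⟩
      exact absurd h5 (not_le.2 h6)
  have hq1 : qmQ R t ho kp mn g v
      = (pmQ R t ho kp mn g v : ℝ) ^ 2
        / ((((t v.2.1 + 1).toNat : ℕ) : ℝ) + (((mn v.2.1 v.1).toNat : ℕ) : ℝ)) := by
    unfold qmQ
    rw [hdm, castA k1, castN k3]
    push_cast
    rfl
  have hq2 : qcQ R t ho mn f v
      = (pcQ R t ho mn f v : ℝ) ^ 2
        / ((((t (f v.1) + 1).toNat : ℕ) : ℝ) + (((mn (f v.1) v.1).toNat : ℕ) : ℝ)) := by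
    unfold qcQ dcQ
    rw [castA k2, castN k4]
    push_cast
    rfl
  have hT := Lv.TQ_eq H hW hv rfl rfl
  rw [← qT_real (by omega) (by
    have h5 := (Lv.payQ_facts H hv).2.2.2
    have h6 := H.t0 _ (Lv.payQ_facts H hv).1
    omega)] at hT
  have key := qS_real (wt := wt) (Rn := R.toNat) (X := (t (ho v.1) + 1).toNat)
    (A := (t v.2.1 + 1).toNat) (b := (mn v.2.1 v.1).toNat) (A' := (t (f v.1) + 1).toNat)
    (b' := (mn (f v.1) v.1).toNat) true (by omega) (by omega) (by omega) (by omega) (by omega)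
    (py := ¬ swQ t vl kp mn g f v) (by rw [hsw, if_pos rfl]; omega)
    (p := (pmQ R t ho kp mn g v : ℝ)) (p' := (pcQ R t ho mn f v : ℝ))
    (T := TQ W R t ho vl kp mn g f v)
    (by
      unfold pmQ
      rw [hdm]
      exact castP (by omega) (by push_cast; omega) (by omega) (by omega) (by omega))
    (by
      unfold pcQ dcQ
      exact castP (by omega) (by push_cast; omega) (by omega) (by omega) (by omega))
    (by
      rw [hT]
      unfold payQ bQ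
      by_cases h5 : swQ t vl kp mn g f v
      · rw [if_pos h5, if_neg (not_not.2 h5), if_neg (not_not.2 h5), if_pos h5]
      · rw [if_neg h5, if_pos h5, if_pos h5, if_neg h5, hu])
  rw [← key]
  unfold smQ
  rw [if_pos hp, hq1, hq2]
  by_cases h5 : swQ t vl kp mn g f v
  · rw [if_pos h5, if_neg (not_not.2 h5)]
  · rw [if_neg h5, if_pos h5]

/-- **the part of the cut end as a quotient of naturals** -/
theorem LevC.scQ_eq (Lv : LevC n U ho vl kp mn pc φ g f)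
    (H : PCon R n t s mu U ho vl kp mn pc ar be kq NN sg nu)
    (hW : ∀ i < n, W i = wt (t i + 1).toNat) {v : ι × ℕ × ℕ} (hv : v ∈ unV n U g)
    (hp : twoE vl kp g f v.1) :
    scQ W R t ho vl kp mn g f v
      = ((qS wt R.toNat (t (ho v.1) + 1).toNat (t (f v.1) + 1).toNat (mn (f v.1) v.1).toNat
          (t v.2.1 + 1).toNat (mn v.2.1 v.1).toNat false).1 : ℝ)
        / (qS wt R.toNat (t (ho v.1) + 1).toNat (t (f v.1) + 1).toNat (mn (f v.1) v.1).toNat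
          (t v.2.1 + 1).toNat (mn v.2.1 v.1).toNat false).2 := by
  obtain ⟨h1, h2, -⟩ := LevC.mem_unV hv
  obtain ⟨-, h3, -, -, -, -, h4, -, -, -, -⟩ := Lv.two_facts H hv hp
  have hR := R_pos H
  have k1 := H.t0 _ h2
  have k2 := H.t0 _ h3
  have k3 := H.m0 v.1 h1 _ h2
  have k4 := H.m0 v.1 h1 _ h3
  have k5 := H.mnc v.1 h1 _ h2
  have k6 := H.mnc v.1 h1 _ h3
  have k7 := H.t0 _ (H.hlt v.1 h1)
  have hu : unb kp mn g v = mn v.2.1 v.1 := by
    rw [← h4]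
    unfold unt
    rw [if_pos rfl]
  have hdm : dmQ t kp mn g v = t v.2.1 + 1 + mn v.2.1 v.1 := by
    unfold dmQ
    rw [hu]
  have hsw : swQ t vl kp mn g f v ↔ t (f v.1) + 1 + mn (f v.1) v.1 < t v.2.1 + 1 + mn v.2.1 v.1 := by
    unfold swQ
    rw [hdm]
    unfold dcQ
    exact ⟨fun h => h.2, fun h => ⟨hp, h⟩⟩
  have hq1 : qmQ R t ho kp mn g v
      = (pmQ R t ho kp mn g v : ℝ) ^ 2
        / ((((t v.2.1 + 1).toNat : ℕ) : ℝ) + (((mn v.2.1 v.1).toNat : ℕ) : ℝ)) := by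
    unfold qmQ
    rw [hdm, castA k1, castN k3]
    push_cast
    rfl
  have hq2 : qcQ R t ho mn f v
      = (pcQ R t ho mn f v : ℝ) ^ 2
        / ((((t (f v.1) + 1).toNat : ℕ) : ℝ) + (((mn (f v.1) v.1).toNat : ℕ) : ℝ)) := by
    unfold qcQ dcQ
    rw [castA k2, castN k4]
    push_cast
    rfl
  have hT := Lv.TQ_eq H hW hv rfl rfl
  rw [← qT_real (by omega) (by
    have h5 := (Lv.payQ_facts H hv).2.2.2
    have h6 := H.t0 _ (Lv.payQ_facts H hv).1
    omega)] at hT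
  have key := qS_real (wt := wt) (Rn := R.toNat) (X := (t (ho v.1) + 1).toNat)
    (A := (t (f v.1) + 1).toNat) (b := (mn (f v.1) v.1).toNat) (A' := (t v.2.1 + 1).toNat)
    (b' := (mn v.2.1 v.1).toNat) false (by omega) (by omega) (by omega) (by omega) (by omega)
    (py := swQ t vl kp mn g f v) (by
      rw [hsw, if_neg (by decide)]
      omega)
    (p := (pcQ R t ho mn f v : ℝ)) (p' := (pmQ R t ho kp mn g v : ℝ))
    (T := TQ W R t ho vl kp mn g f v)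
    (by
      unfold pcQ dcQ
      exact castP (by omega) (by push_cast; omega) (by omega) (by omega) (by omega))
    (by
      unfold pmQ
      rw [hdm]
      exact castP (by omega) (by push_cast; omega) (by omega) (by omega) (by omega))
    (by
      rw [hT]
      unfold payQ bQ
      by_cases h5 : swQ t vl kp mn g f v
      · rw [if_pos h5, if_pos h5, if_pos h5, if_pos h5]
      · rw [if_neg h5, if_neg h5, if_neg h5, if_neg h5, hu])
  rw [← key]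
  unfold scQ
  rw [if_pos hp, hq1, hq2]
  obtain ⟨x, hx⟩ : ∃ x : ℝ, x = (pmQ R t ho kp mn g v : ℝ) ^ 2
    / ((((t v.2.1 + 1).toNat : ℕ) : ℝ) + (((mn v.2.1 v.1).toNat : ℕ) : ℝ)) := ⟨_, rfl⟩
  obtain ⟨y, hy⟩ : ∃ y : ℝ, y = (pcQ R t ho mn f v : ℝ) ^ 2
    / ((((t (f v.1) + 1).toNat : ℕ) : ℝ) + (((mn (f v.1) v.1).toNat : ℕ) : ℝ)) := ⟨_, rfl⟩
  rw [← hx, ← hy, add_comm x y]

/-- **full, PC and clique units: the main end pays `TQ`**, as a quotient of naturals -/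
theorem LevC.one_eq (Lv : LevC n U ho vl kp mn pc φ g f)
    (H : PCon R n t s mu U ho vl kp mn pc ar be kq NN sg nu)
    (hW : ∀ i < n, W i = wt (t i + 1).toNat) {v : ι × ℕ × ℕ} (hv : v ∈ unV n U g)
    (hp : ¬ twoE vl kp g f v.1) :
    smQ W R t ho vl kp mn g f v
      = ((qT wt R.toNat (t (ho v.1) + 1).toNat (t v.2.1 + 1).toNat (unb kp mn g v).toNat).1 : ℝ)
        / (qT wt R.toNat (t (ho v.1) + 1).toNat (t v.2.1 + 1).toNat (unb kp mn g v).toNat).2 := by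
  rw [smQ_one hp]
  have h1 := payQ_one (t := t) (mn := mn) hp
  exact Lv.TQ_eq H hW hv (by rw [h1.1]) (by rw [h1.2])

end RulQN

end Pool.Agent.Lib.MP_f04ccf_co
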