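import Pool.Agent.Lib.MP_f04ccf_co.M.VSet
import Pool.Agent.Lib.MP_f04ccf_co.M.RulQ

/-!
MP_f04ccf_co, TEXT D, middle range: **the shares of RULE Q by cells and types** (main end = fewer misses).

Row `z` (mass `A`), another row `y` (mass `B`), weights `wt`:

* `sgQ wt A B = wt B / (wt A + wt B)`: full and PC units, hosted or served;
* `hQ wt R A B b B' b'`: the host's part of a half with the main end `(B, b)` and the cut end `(B', b')`;
  `eQ wt R X A b B' b' own`: the part of the end `(A, b)` of a half of the host `X`, other end `(B', b')`;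
* `HOk`, `SOk`: what is known about the numbers of a hosted | served half;
* `LevC.cell_sh`: the shares of the row `z` in sum at most the sum over the cells of the shares by types.
-/

set_option autoImplicit false

namespace Pool.Agent.Lib.MP_f04ccf_co

open Finset

attribute [local instance] Classical.propDecidable

/-- the part of the row `A` in a full or PC unit of the cell with the row `B` -/
noncomputable def sgQ (wt : ℕ → ℕ) (A B : ℕ) : ℝ := (wt B : ℝ) / ((wt A : ℝ) + wt B)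

/-- the paying end -/
def pyQ (B b B' b' : ℕ) : ℕ × ℕ := if B' + b' < B + b then (B', b') else (B, b)

/-- **the host's part of a half**: host `X`, main end `(B, b)`, cut end `(B', b')` -/
noncomputable def hQ (wt : ℕ → ℕ) (R X B b B' b' : ℕ) : ℝ :=
  ((qH wt R X (pyQ B b B' b').1 (pyQ B b B' b').2).1 : ℝ)
    / ((qH wt R X (pyQ B b B' b').1 (pyQ B b B' b').2).2 : ℝ)

/-- **the part of an end of a half**: host `X`, the end `(A, b)`, the other end `(B', b')` -/
noncomputable def eQ (wt : ℕ → ℕ) (R X A b B' b' : ℕ) (own : Bool) : ℝ :=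
  ((qS wt R X A b B' b' own).1 : ℝ) / ((qS wt R X A b B' b' own).2 : ℝ)

/-- a hosted half: host `A`, main end `(B, b)` (fewer misses), cut end `(B', b')` -/
def HOk (R A B b B' b' : ℕ) : Prop :=
  A + B + B' + 2 ≤ R ∧ b ≤ b' ∧ b * b' ≤ R + (B - 1) * (B' - 1) ∧ b + b' ≤ R ∧
    b + B ≤ R + 1 ∧ b' + B' ≤ R + 1

/-- a served half: the end `(A, b)`, host `B`, the other end `(B', b')` -/
def SOk (R A B b B' b' : ℕ) : Prop :=
  A + B + B' + 2 ≤ R ∧ b * b' ≤ R + (A - 1) * (B' - 1) ∧ b + b' ≤ R ∧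
    b + A ≤ R + 1 ∧ b' + B' ≤ R + 1

section VShr

variable {ι : Type*} {R : ℕ} {n : ℕ} {t s mu : ℕ → ℤ} {U : Finset ι} {ho : ι → ℕ} {vl : ι → ℤ}
  {kp mn : ℕ → ι → ℤ} {pc ar : ι → ℤ} {be kq NN sg : ℕ → ℕ → ℤ} {nu : ℕ → ι → ℤ} {z y : ℕ}
  {g : ℕ → ι → ℕ} {f : ι → ℕ} {wt : ℕ → ℕ}

/-- the mass of a row -/
def rA (t : ℕ → ℤ) (i : ℕ) : ℕ := (t i + 1).toNat

/-- the misses of an item at a row -/
def rb (mn : ℕ → ι → ℤ) (i : ℕ) (u : ι) : ℕ := (mn i u).toNat

lemma PCon.rA_eq (H : PCon (R : ℤ) n t s mu U ho vl kp mn pc ar be kq NN sg nu) {i : ℕ}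
    (hi : i < n) : ((rA t i : ℕ) : ℤ) = t i + 1 ∧ 1 ≤ rA t i := by
  have h1 := H.t0 i hi
  unfold rA
  constructor
  · exact Int.toNat_of_nonneg (by linarith)
  · omega

lemma PCon.rb_eq (H : PCon (R : ℤ) n t s mu U ho vl kp mn pc ar be kq NN sg nu) {u : ι}
    (hu : u ∈ U) {i : ℕ} (hi : i < n) : ((rb mn i u : ℕ) : ℤ) = mn i u :=
  Int.toNat_of_nonneg (H.m0 u hu i hi)

/-- three rows leave mass at least two -/
lemma PCon.mass3N (H : PCon (R : ℤ) n t s mu U ho vl kp mn pc ar be kq NN sg nu) {a b c : ℕ}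
    (ha : a < n) (hb : b < n) (hc : c < n) (hab : a ≠ b) (hac : a ≠ c) (hbc : b ≠ c) :
    rA t a + rA t b + rA t c + 2 ≤ R := by
  obtain ⟨e1, g1⟩ := H.rA_eq ha
  obtain ⟨e2, g2⟩ := H.rA_eq hb
  obtain ⟨e3, g3⟩ := H.rA_eq hc
  have h1 := add_sum_erase (range n) (fun i => t i + 1) (mem_range.2 ha)
  have h2 := add_sum_erase ((range n).erase a) (fun i => t i + 1)
    (mem_erase.2 ⟨hab.symm, mem_range.2 hb⟩)
  have h3 := add_sum_erase (((range n).erase a).erase b) (fun i => t i + 1)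
    (mem_erase.2 ⟨hbc.symm, mem_erase.2 ⟨hac.symm, mem_range.2 hc⟩⟩)
  beta_reduce at h1 h2 h3
  have h4 : (((((range n).erase a).erase b).erase c).card : ℤ)
      ≤ ∑ i ∈ (((range n).erase a).erase b).erase c, (t i + 1) := by
    rw [card_eq_sum_ones]
    push_cast
    refine sum_le_sum fun i hi => ?_
    have h5 := H.t0 i (mem_range.1 (mem_of_mem_erase (mem_of_mem_erase (mem_of_mem_erase hi))))
    linarith
  have h5 : ((((range n).erase a).erase b).erase c).card = n - 3 := by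
    rw [card_erase_of_mem (mem_erase.2 ⟨hbc.symm, mem_erase.2 ⟨hac.symm, mem_range.2 hc⟩⟩),
      card_erase_of_mem (mem_erase.2 ⟨hab.symm, mem_range.2 hb⟩),
      card_erase_of_mem (mem_range.2 ha), card_range]
    omega
  have h6 := H.n5
  have h7 := H.tsum
  rw [h5] at h4
  omega

/-- a hosted half of the cell -/
lemma LevC.hh_ok (Lv : LevC n U ho vl kp mn pc (fun u i => mn i u) g f)
    (H : PCon (R : ℤ) n t s mu U ho vl kp mn pc ar be kq NN sg nu) (hz : z < n)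
    (hy : y ∈ (range n).erase z) {u : ι} (hu : u ∈ vHH U ho vl kp pc g f z y) :
    f u ∈ (range n).erase z ∧ f u ≠ y ∧
      HOk R (rA t z) (rA t y) (rb mn y u) (rA t (f u)) (rb mn (f u) u) := by
  have hyn : y < n := mem_range.1 (mem_of_mem_erase hy)
  have hyz : y ≠ z := ne_of_mem_erase hy
  obtain ⟨h1, h2, h3, h4, h5⟩ := Lv.hh_fact H hyn hu
  have h6 := (mem_filter.1 hu).2.1
  have hfn := Lv.fn u h1
  have hfz : f u ≠ z := by
    have := Lv.fh u h1
    rw [h6] at this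
    exact this
  obtain ⟨e1, g1⟩ := H.rA_eq hyn
  obtain ⟨e2, g2⟩ := H.rA_eq hfn
  have e3 := H.rb_eq h1 hyn
  have e4 := H.rb_eq h1 hfn
  have h7 := H.mpr u h1 y hyn (f u) hfn h5
  have h8 := H.m1 u h1 h3
  have h9 : mn y u + mn (f u) u ≤ ∑ i ∈ range n, mn i u := by
    have h10 := add_sum_erase (range n) (fun i => mn i u) (mem_range.2 hyn)
    have h11 := add_sum_erase ((range n).erase y) (fun i => mn i u)
      (mem_erase.2 ⟨h5.symm, mem_range.2 hfn⟩)
    have h12 : 0 ≤ ∑ i ∈ ((range n).erase y).erase (f u), mn i u := sum_nonneg fun i hi =>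
      H.m0 u h1 i (mem_range.1 (mem_of_mem_erase (mem_of_mem_erase hi)))
    beta_reduce at h10 h11
    linarith
  have h10 := H.mnc u h1 y hyn
  have h11 := H.mnc u h1 (f u) hfn
  have h12 : mn y u ≤ mn (f u) u := by
    rcases Lv.typ u h1 with ⟨-, -, -, -, h13⟩ | ⟨-, -, -, h13⟩
    · have h14 := h13 y hyn h5
      rw [h2] at h14
      exact absurd h14 (by norm_num)
    · exact h13 y hyn (by rw [h2]; norm_num)
  refine ⟨mem_erase.2 ⟨hfz, mem_range.2 hfn⟩, h5.symm,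
    H.mass3N hz hyn hfn hyz.symm hfz.symm h5, ?_, ?_, ?_, ?_, ?_⟩
  · have : ((rb mn y u : ℕ) : ℤ) ≤ rb mn (f u) u := by rw [e3, e4]; exact h12
    exact_mod_cast this
  · have h13 : ((rb mn y u : ℕ) : ℤ) * (rb mn (f u) u : ℕ)
        ≤ (R : ℤ) + ((rA t y - 1 : ℕ) : ℤ) * ((rA t (f u) - 1 : ℕ) : ℤ) := by
      rw [Nat.cast_sub g1, Nat.cast_sub g2, e1, e2, e3, e4]
      push_cast
      linarith
    exact_mod_cast h13
  · have h13 : ((rb mn y u : ℕ) : ℤ) + (rb mn (f u) u : ℕ) ≤ R := by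
      rw [e3, e4]
      linarith
    exact_mod_cast h13
  · have h13 : ((rb mn y u : ℕ) : ℤ) + (rA t y : ℕ) ≤ R + 1 := by
      rw [e3, e1]
      linarith
    exact_mod_cast h13
  · have h13 : ((rb mn (f u) u : ℕ) : ℤ) + (rA t (f u) : ℕ) ≤ R + 1 := by
      rw [e4, e2]
      linarith
    exact_mod_cast h13

/-- the other end of a served half -/
noncomputable def oE (n : ℕ) (kp : ℕ → ι → ℤ) (z : ℕ) (u : ι) : ℕ :=
  if h : ∃ l < n, l ≠ z ∧ kp l u ≠ 0 then h.choose else 0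

lemma oE_spec {u : ι} (h : ∃ l < n, l ≠ z ∧ kp l u ≠ 0) :
    oE n kp z u < n ∧ oE n kp z u ≠ z ∧ kp (oE n kp z u) u ≠ 0 := by
  unfold oE
  rw [dif_pos h]
  exact h.choose_spec

/-- an item with two ends: there is no third one -/
lemma PCon.two_ends (H : PCon (R : ℤ) n t s mu U ho vl kp mn pc ar be kq NN sg nu) {u : ι}
    (hu : u ∈ U) (h1 : vl u = 1) {a b c : ℕ} (ha : a < n) (hb : b < n) (hc : c < n)
    (hab : a ≠ b) (ha' : kp a u ≠ 0) (hb' : kp b u ≠ 0) (hc' : kp c u ≠ 0) : c = a ∨ c = b := by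
  by_contra hcon
  push Not at hcon
  obtain ⟨h3, h4⟩ := hcon
  have h5 := H.kp_two hu h1
  have h6 := add_sum_erase (range n) (fun i => kp i u) (mem_range.2 ha)
  have h7 := add_sum_erase ((range n).erase a) (fun i => kp i u)
    (mem_erase.2 ⟨hab.symm, mem_range.2 hb⟩)
  have h8 := add_sum_erase (((range n).erase a).erase b) (fun i => kp i u)
    (mem_erase.2 ⟨h4, mem_erase.2 ⟨h3, mem_range.2 hc⟩⟩)
  have h9 : 0 ≤ ∑ i ∈ (((range n).erase a).erase b).erase c, kp i u := sum_nonneg fun i hi =>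
    H.k0 u hu i (mem_range.1 (mem_of_mem_erase (mem_of_mem_erase (mem_of_mem_erase hi))))
  have g1 := H.kp_one hu h1 ha ha'
  have g2 := H.kp_one hu h1 hb hb'
  have g3 := H.kp_one hu h1 hc hc'
  beta_reduce at h6 h7 h8
  linarith

/-- **a served half of the cell**: the other end `w = oE`, the numbers, and which end is the main end -/
lemma LevC.sh_ok (Lv : LevC n U ho vl kp mn pc (fun u i => mn i u) g f)
    (H : PCon (R : ℤ) n t s mu U ho vl kp mn pc ar be kq NN sg nu) (hz : z < n)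
    (hy : y ∈ (range n).erase z) {u : ι} (hu : u ∈ vSH U ho vl kp pc g f z y) :
    oE n kp z u ∈ (range n).erase z ∧ oE n kp z u ≠ y ∧
      SOk R (rA t z) (rA t y) (rb mn z u) (rA t (oE n kp z u)) (rb mn (oE n kp z u) u) ∧
      ((g z u = 1 ∧ z ≠ f u ∧ f u = oE n kp z u ∧ rb mn z u ≤ rb mn (oE n kp z u) u) ∨
        (z = f u ∧ g (oE n kp z u) u = 1 ∧ rb mn (oE n kp z u) u ≤ rb mn z u)) := by
  have hyn : y < n := mem_range.1 (mem_of_mem_erase hy)
  have hyz : y ≠ z := ne_of_mem_erase hy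
  have hoe := oE_spec (n := n) (kp := kp) (z := z) ((Lv.use_fact (be := be) H hz y).2.1 u hu).2.2.2
  obtain ⟨h1, h2, h3, h4, h5, h6⟩ := mem_filter.1 hu
  obtain ⟨w1, w2, w3⟩ := hoe
  have hwy : oE n kp z u ≠ y := by
    intro h7
    rw [h7] at w3
    have h8 := H.kh u h1
    rw [h2] at h8
    exact w3 h8
  obtain ⟨h7, h8⟩ := Lv.half_at H h1 h6 hz h5
  have h9 := Lv.half_at H h1 h6 w1 w3
  obtain ⟨e1, g1⟩ := H.rA_eq hz
  obtain ⟨e2, g2⟩ := H.rA_eq w1
  have e3 := H.rb_eq h1 hz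
  have e4 := H.rb_eq h1 w1
  have k7 := H.mpr u h1 z hz _ w1 w2.symm
  have k8 := H.m1 u h1 h4
  have k9 : mn z u + mn (oE n kp z u) u ≤ ∑ i ∈ range n, mn i u := by
    have h10 := add_sum_erase (range n) (fun i => mn i u) (mem_range.2 hz)
    have h11 := add_sum_erase ((range n).erase z) (fun i => mn i u)
      (mem_erase.2 ⟨w2, mem_range.2 w1⟩)
    have h12 : 0 ≤ ∑ i ∈ ((range n).erase z).erase (oE n kp z u), mn i u :=
      sum_nonneg fun i hi => H.m0 u h1 i (mem_range.1 (mem_of_mem_erase (mem_of_mem_erase hi)))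
    beta_reduce at h10 h11
    linarith
  have k10 := H.mnc u h1 z hz
  have k11 := H.mnc u h1 _ w1
  have hmain : ∀ i < n, kp i u ≠ 0 → mn i u ≤ mn (f u) u := by
    rcases Lv.typ u h1 with ⟨-, -, k13, -, -⟩ | ⟨-, -, -, k13⟩
    · have h14 := h6.2
      rw [k13] at h14
      intro i hi hki
      rcases Lv.typ u h1 with ⟨-, k14, -⟩ | ⟨-, -, -, k15⟩
      · rw [k14] at h14
        norm_num at h14
      · exact k15 i hi hki
    · exact k13
  refine ⟨mem_erase.2 ⟨w2, mem_range.2 w1⟩, hwy,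
    ⟨H.mass3N hz hyn w1 hyz.symm w2.symm hwy.symm, ?_, ?_, ?_, ?_⟩, ?_⟩
  · have h13 : ((rb mn z u : ℕ) : ℤ) * (rb mn (oE n kp z u) u : ℕ)
        ≤ (R : ℤ) + ((rA t z - 1 : ℕ) : ℤ) * ((rA t (oE n kp z u) - 1 : ℕ) : ℤ) := by
      rw [Nat.cast_sub g1, Nat.cast_sub g2, e1, e2, e3, e4]
      push_cast
      linarith
    exact_mod_cast h13
  · have h13 : ((rb mn z u : ℕ) : ℤ) + (rb mn (oE n kp z u) u : ℕ) ≤ R := by
      rw [e3, e4]
      linarith
    exact_mod_cast h13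
  · have h13 : ((rb mn z u : ℕ) : ℤ) + (rA t z : ℕ) ≤ R + 1 := by
      rw [e3, e1]
      linarith
    exact_mod_cast h13
  · have h13 : ((rb mn (oE n kp z u) u : ℕ) : ℤ) + (rA t (oE n kp z u) : ℕ) ≤ R + 1 := by
      rw [e4, e2]
      linarith
    exact_mod_cast h13
  · rcases h8 with ⟨h10, h11⟩ | ⟨h10, h11⟩
    · left
      have hfo : f u = oE n kp z u := by
        have h12 := Lv.fn u h1
        have h13 : kp (f u) u ≠ 0 := by
          have := Lv.f1 u h1
          omega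
        rcases H.two_ends h1 h4 hz w1 h12 w2.symm h5 w3 h13 with h14 | h14
        · exact absurd h14.symm h10
        · exact h14
      refine ⟨h11, h10, hfo, ?_⟩
      have h12 := hmain z hz h5
      rw [hfo] at h12
      have h13 : ((rb mn z u : ℕ) : ℤ) ≤ rb mn (oE n kp z u) u := by rw [e3, e4]; exact h12
      exact_mod_cast h13
    · right
      have h12 : oE n kp z u ≠ f u := by rw [← h10]; exact w2
      refine ⟨h10, ?_, ?_⟩
      · rcases h9.2 with ⟨-, h13⟩ | ⟨h13, -⟩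
        · exact h13
        · exact absurd h13 h12
      · have h13 := hmain _ w1 w3
        rw [← h10] at h13
        have h14 : ((rb mn (oE n kp z u) u : ℕ) : ℤ) ≤ rb mn z u := by rw [e3, e4]; exact h13
        exact_mod_cast h14

/-! ### the shares of a row -/

/-- the host's parts of the clique units of the cell -/
noncomputable def hcS (wt : ℕ → ℕ) (R : ℕ) (t : ℕ → ℤ) (U : Finset ι) (ho : ι → ℕ) (vl : ι → ℤ)
    (kp mn : ℕ → ι → ℤ) (pc : ι → ℤ) (g : ℕ → ι → ℕ) (f : ι → ℕ) (z y : ℕ) : ℝ :=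
  ∑ u ∈ vHC U ho vl pc g z y, ∑ j ∈ range (g y u),
    (1 - TQ (fun i => (wt (rA t i) : ℝ)) (R : ℤ) t ho vl kp mn g f (u, y, j))

/-- the parts of `z` of the served clique units of the cell -/
noncomputable def scS (wt : ℕ → ℕ) (R : ℕ) (t : ℕ → ℤ) (U : Finset ι) (ho : ι → ℕ) (vl : ι → ℤ)
    (kp mn : ℕ → ι → ℤ) (pc : ι → ℤ) (g : ℕ → ι → ℕ) (f : ι → ℕ) (z y : ℕ) : ℝ :=
  ∑ u ∈ vSC U ho vl pc g z y, ∑ j ∈ range (g z u),
    TQ (fun i => (wt (rA t i) : ℝ)) (R : ℤ) t ho vl kp mn g f (u, z, j)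

/-- the host's parts of the halves of the cell -/
noncomputable def hhS (wt : ℕ → ℕ) (R : ℕ) (t : ℕ → ℤ) (U : Finset ι) (ho : ι → ℕ) (vl : ι → ℤ)
    (kp mn : ℕ → ι → ℤ) (pc : ι → ℤ) (g : ℕ → ι → ℕ) (f : ι → ℕ) (z y : ℕ) : ℝ :=
  ∑ u ∈ vHH U ho vl kp pc g f z y,
    hQ wt R (rA t z) (rA t y) (rb mn y u) (rA t (f u)) (rb mn (f u) u)

/-- the parts of `z` of the served halves of the cell -/
noncomputable def shS (wt : ℕ → ℕ) (R n : ℕ) (t : ℕ → ℤ) (U : Finset ι) (ho : ι → ℕ) (vl : ι → ℤ)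
    (kp mn : ℕ → ι → ℤ) (pc : ι → ℤ) (g : ℕ → ι → ℕ) (f : ι → ℕ) (z y : ℕ) : ℝ :=
  ∑ u ∈ vSH U ho vl kp pc g f z y,
    eQ wt R (rA t y) (rA t z) (rb mn z u) (rA t (oE n kp z u)) (rb mn (oE n kp z u) u)
      (decide (z ≠ f u))

/-- **the share of a cell** -/
noncomputable def ceS (wt : ℕ → ℕ) (R n : ℕ) (t : ℕ → ℤ) (U : Finset ι) (ho : ι → ℕ) (vl : ι → ℤ)
    (kp mn : ℕ → ι → ℤ) (pc : ι → ℤ) (be : ℕ → ℕ → ℤ) (g : ℕ → ι → ℕ) (f : ι → ℕ) (z y : ℕ) : ℝ :=
  sgQ wt (rA t z) (rA t y) * ((be z y : ℝ) + be y z + (vHF U ho vl kp pc g f z y).card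
      + (vSF U ho vl kp pc g f z y).card)
    + hhS wt R t U ho vl kp mn pc g f z y + shS wt R n t U ho vl kp mn pc g f z y
    + hcS wt R t U ho vl kp mn pc g f z y + scS wt R t U ho vl kp mn pc g f z y

/-- the units of the full and PC items: share `sgQ` -/
lemma LevC.TQ_one {φ : ι → ℕ → ℤ} (Lv : LevC n U ho vl kp mn pc φ g f)
    (H : PCon (R : ℤ) n t s mu U ho vl kp mn pc ar be kq NN sg nu)
    (hw : ∀ i < n, 0 < wt (rA t i)) {v : ι × ℕ × ℕ} (hv : v ∈ unV n U g)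
    (h1 : vl v.1 = 1) (h2 : ¬ twoE vl kp g f v.1) :
    TQ (fun i => (wt (rA t i) : ℝ)) (R : ℤ) t ho vl kp mn g f v
      = sgQ wt (rA t v.2.1) (rA t (ho v.1)) ∧
    1 - TQ (fun i => (wt (rA t i) : ℝ)) (R : ℤ) t ho vl kp mn g f v
      = sgQ wt (rA t (ho v.1)) (rA t v.2.1) := by
  obtain ⟨h3, h4, h5⟩ := LevC.mem_unV hv
  have h6 := payQ_one (t := t) (mn := mn) h2
  have h7 := Lv.le v.1 h3 v.2.1 h4
  have h8 : kp v.2.1 v.1 ≠ 0 := by
    intro h9
    rw [h9] at h7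
    omega
  have h9 := (Lv.full_at h3 h1 h2 h4 h8).2.1
  have h10 : bQ t vl kp mn g f v = 0 := by
    rw [h6.2]
    unfold unb
    rw [h9, ite_self]
  have h11 : (0 : ℝ) < wt (rA t (ho v.1)) := by exact_mod_cast hw _ (H.hlt _ h3)
  have h12 : (0 : ℝ) < wt (rA t v.2.1) := by exact_mod_cast hw _ h4
  have e1 : TQ (fun i => (wt (rA t i) : ℝ)) (R : ℤ) t ho vl kp mn g f v
      = sgQ wt (rA t v.2.1) (rA t (ho v.1)) := by
    unfold TQ sgQ
    rw [h6.1, h10]
    simp only [Int.cast_zero, zero_div, sub_zero, mul_one]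
    rw [add_comm]
  refine ⟨e1, ?_⟩
  rw [e1]
  unfold sgQ
  have h13 : (wt (rA t v.2.1) : ℝ) + wt (rA t (ho v.1)) ≠ 0 := by positivity
  have h14 : (wt (rA t (ho v.1)) : ℝ) + wt (rA t v.2.1) ≠ 0 := by positivity
  rw [sub_eq_iff_eq_add, add_comm (wt (rA t (ho v.1)) : ℝ), ← add_div, div_self h13]

/-- a sum over the items of a host by types -/
lemma LevC.host_split {M : Type*} [AddCommMonoid M] {φ : ι → ℕ → ℤ}
    (Lv : LevC n U ho vl kp mn pc φ g f)
    (H : PCon (R : ℤ) n t s mu U ho vl kp mn pc ar be kq NN sg nu) (z : ℕ) (hy : y < n) (G : ι → M)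
    (hG : ∀ u ∈ U, g y u = 0 → G u = 0) :
    ∑ u ∈ U.filter (fun u => ho u = z), G u
      = ∑ u ∈ (U.filter fun u => ho u = z ∧ pc u = 1 ∧ kp y u ≠ 0), G u
        + (∑ u ∈ vHF U ho vl kp pc g f z y, G u + ∑ u ∈ vHH U ho vl kp pc g f z y, G u
          + ∑ u ∈ vHC U ho vl pc g z y, G u) := by
  obtain ⟨d1, d2⟩ := vH_disj U ho vl kp pc g f z y
  have d3 : Disjoint (U.filter fun u => ho u = z ∧ pc u = 1 ∧ kp y u ≠ 0)
      ((vHF U ho vl kp pc g f z y ∪ vHH U ho vl kp pc g f z y) ∪ vHC U ho vl pc g z y) := by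
    rw [disjoint_left]
    intro u h1 h2
    have h3 := (mem_filter.1 h1).2.2.1
    have h4 : pc u = 0 := by
      rcases mem_union.1 h2 with h5 | h5
      · rcases mem_union.1 h5 with h6 | h6
        · exact (mem_filter.1 h6).2.2.1
        · exact (mem_filter.1 h6).2.2.1
      · exact (mem_filter.1 h5).2.2.1
    rw [h4] at h3
    exact absurd h3 (by norm_num)
  rw [← sum_union d1, ← sum_union d2, ← sum_union d3]
  refine (sum_subset (fun u hu => ?_) fun u hu hu' => ?_).symm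
  · rcases mem_union.1 hu with h0 | h0
    · obtain ⟨h1, h2, -⟩ := mem_filter.1 h0
      exact mem_filter.2 ⟨h1, h2⟩
    · rcases mem_union.1 h0 with h1 | h1
      · rcases mem_union.1 h1 with h2 | h2
        · obtain ⟨h3, h4, -⟩ := mem_filter.1 h2
          exact mem_filter.2 ⟨h3, h4⟩
        · obtain ⟨h3, h4, -⟩ := mem_filter.1 h2
          exact mem_filter.2 ⟨h3, h4⟩
      · obtain ⟨h3, h4, -⟩ := mem_filter.1 h1
        exact mem_filter.2 ⟨h3, h4⟩
  · obtain ⟨h1, h2⟩ := mem_filter.1 hu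
    refine hG u h1 ?_
    by_contra h4
    apply hu'
    rcases H.pc01 u h1 with h3 | h3
    · refine mem_union_right _ ?_
      by_cases h5 : vl u = 1
      · have h6 : g y u = 1 := (Lv.lev01 H h1 h5 hy).resolve_left h4
        by_cases h7 : twoE vl kp g f u
        · exact mem_union_left _ (mem_union_right _ (mem_filter.2 ⟨h1, h2, h3, h5, h6, h7⟩))
        · exact mem_union_left _ (mem_union_left _ (mem_filter.2 ⟨h1, h2, h3, h5, h6, h7⟩))
      · exact mem_union_right _ (mem_filter.2 ⟨h1, h2, h3, h5, h4⟩)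
    · refine mem_union_left _ (mem_filter.2 ⟨h1, h2, h3, fun h5 => h4 ?_⟩)
      have h6 := Lv.le u h1 y hy
      rw [h5] at h6
      omega

/-- a PC item which touches `y` -/
lemma LevC.pc_at {φ : ι → ℕ → ℤ} (Lv : LevC n U ho vl kp mn pc φ g f)
    (H : PCon (R : ℤ) n t s mu U ho vl kp mn pc ar be kq NN sg nu) (hy : y < n) {u : ι}
    (hu : u ∈ U.filter fun u => ho u = z ∧ pc u = 1 ∧ kp y u ≠ 0) :
    u ∈ U ∧ ho u = z ∧ vl u = 1 ∧ g y u = 1 ∧ ¬ twoE vl kp g f u := by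
  obtain ⟨h1, h2, h3, h4⟩ := mem_filter.1 hu
  have h0 : pc u ≠ 0 := by rw [h3]; norm_num
  have h5 := H.pc_fact h1 h0
  have h6 := Lv.lev_pc H h1 h0 hy
  rw [H.kp_one h1 h5.2.1 hy h4] at h6
  refine ⟨h1, h2, h5.2.1, by exact_mod_cast h6, ?_⟩
  rintro ⟨-, h7⟩
  rcases Lv.typ u h1 with ⟨-, h8, h9, -⟩ | ⟨h8, -⟩
  · rw [h8, h9] at h7
    norm_num at h7
  · exact h0 h8

/-- **the host's parts in the cell** -/
lemma LevC.host_cell (Lv : LevC n U ho vl kp mn pc (fun u i => mn i u) g f)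
    (H : PCon (R : ℤ) n t s mu U ho vl kp mn pc ar be kq NN sg nu)
    (hw : ∀ i < n, 0 < wt (rA t i)) (hz : z < n) (hy : y ∈ (range n).erase z) :
    ∑ v ∈ (unV n U g).filter (fun v => ho v.1 = z ∧ v.2.1 = y),
        (1 - TQ (fun i => (wt (rA t i) : ℝ)) (R : ℤ) t ho vl kp mn g f v)
      = sgQ wt (rA t z) (rA t y) * ((be z y : ℝ) + (vHF U ho vl kp pc g f z y).card)
        + hhS wt R t U ho vl kp mn pc g f z y + hcS wt R t U ho vl kp mn pc g f z y := by
  have hyn : y < n := mem_range.1 (mem_of_mem_erase hy)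
  set T : ι × ℕ × ℕ → ℝ := TQ (fun i => (wt (rA t i) : ℝ)) (R : ℤ) t ho vl kp mn g f with hT
  have h1 := unit_fib (Lv.two H) (filter_subset (fun u => ho u = z) U) hyn fun v => 1 - T v
  have h2 : (unV n U g).filter (fun v => v.1 ∈ U.filter (fun u => ho u = z) ∧ v.2.1 = y)
      = (unV n U g).filter fun v => ho v.1 = z ∧ v.2.1 = y := by
    refine filter_congr fun v hv => ?_
    rw [mem_filter]
    exact ⟨fun h => ⟨h.1.2, h.2⟩, fun h => ⟨⟨(LevC.mem_unV hv).1, h.1⟩, h.2⟩⟩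
  rw [h2] at h1
  have hmem : ∀ u ∈ U, g y u = 1 → (u, y, 0) ∈ unV n U g := by
    intro u hu h3
    unfold unV
    simp only [mem_filter, mem_product, mem_range]
    exact ⟨⟨hu, hyn, by norm_num⟩, by rw [h3]; norm_num⟩
  rw [h1, Lv.host_split H z hyn (fun u => ∑ j ∈ range (g y u), (1 - T (u, y, j))) fun u _ h => by
    rw [h, range_zero, sum_empty]]
  have e1 : ∑ u ∈ (U.filter fun u => ho u = z ∧ pc u = 1 ∧ kp y u ≠ 0),
      ∑ j ∈ range (g y u), (1 - T (u, y, j)) = sgQ wt (rA t z) (rA t y) * (be z y : ℝ) := by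
    have h3 : ((U.filter fun u => ho u = z ∧ pc u = 1 ∧ kp y u ≠ 0).card : ℤ) = be z y :=
      H.pc_cell hyn hz
    have h4 : (be z y : ℝ) = ((U.filter fun u => ho u = z ∧ pc u = 1 ∧ kp y u ≠ 0).card : ℝ) := by
      rw [← h3]
      push_cast
      rfl
    rw [h4, mul_comm, ← nsmul_eq_mul, ← sum_const]
    refine sum_congr rfl fun u hu => ?_
    obtain ⟨h5, h6, h7, h8, h9⟩ := Lv.pc_at H hyn hu
    rw [h8, sum_range_one]
    have h10 := (Lv.TQ_one H hw (hmem u h5 h8) h7 h9).2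
    simp only at h10
    rw [h6] at h10
    exact h10
  have e2 : ∑ u ∈ vHF U ho vl kp pc g f z y, ∑ j ∈ range (g y u), (1 - T (u, y, j))
      = sgQ wt (rA t z) (rA t y) * ((vHF U ho vl kp pc g f z y).card : ℝ) := by
    rw [mul_comm, ← nsmul_eq_mul, ← sum_const]
    refine sum_congr rfl fun u hu => ?_
    obtain ⟨h5, h6, h7, h8, h9, h10⟩ := mem_filter.1 hu
    rw [h9, sum_range_one]
    have h11 := (Lv.TQ_one H hw (hmem u h5 h9) h8 h10).2
    simp only at h11
    rw [h6] at h11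
    exact h11
  have e3 : ∑ u ∈ vHH U ho vl kp pc g f z y, ∑ j ∈ range (g y u), (1 - T (u, y, j))
      = hhS wt R t U ho vl kp mn pc g f z y := by
    unfold hhS
    refine sum_congr rfl fun u hu => ?_
    obtain ⟨h5, h6, h7, h8, h9, h10⟩ := mem_filter.1 hu
    rw [h9, sum_range_one]
    have h11 := hmem u h5 h9
    have h12 := Lv.few H h11 h10
    simp only at h12
    have hfn := Lv.fn u h5
    obtain ⟨a1, a2⟩ := H.rA_eq hyn
    obtain ⟨a3, a4⟩ := H.rA_eq hfn
    have a5 := H.rb_eq h5 hyn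
    have a6 := H.rb_eq h5 hfn
    have h13 := Lv.host_eq H (W := fun i => (wt (rA t i) : ℝ)) (wt := wt) (fun i _ => rfl)
      (fun i hi => hw i hi) h11
      (A := (pyQ (rA t y) (rb mn y u) (rA t (f u)) (rb mn (f u) u)).1)
      (b := (pyQ (rA t y) (rb mn y u) (rA t (f u)) (rb mn (f u) u)).2) ?_ ?_
    · simp only at h13
      rw [hT, h13, h6]
      unfold hQ rA
      rfl
    · unfold payQ swQ pyQ dcQ dmQ
      simp only
      rw [h12.1]
      by_cases h14 : rA t (f u) + rb mn (f u) u < rA t y + rb mn y u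
      · rw [if_pos h14, if_pos]
        · rfl
        · refine ⟨h10, ?_⟩
          have h15 : ((rA t (f u) : ℕ) : ℤ) + (rb mn (f u) u : ℕ) < (rA t y : ℕ) + (rb mn y u : ℕ) := by
            exact_mod_cast h14
          rw [a1, a3, a5, a6] at h15
          exact h15
      · rw [if_neg h14, if_neg]
        · rfl
        · rintro ⟨-, h15⟩
          apply h14
          rw [← a1, ← a3, ← a5, ← a6] at h15
          exact_mod_cast h15
    · unfold bQ swQ pyQ dcQ dmQ
      simp only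
      rw [h12.1]
      by_cases h14 : rA t (f u) + rb mn (f u) u < rA t y + rb mn y u
      · rw [if_pos h14, if_pos]
        · rfl
        · refine ⟨h10, ?_⟩
          have h15 : ((rA t (f u) : ℕ) : ℤ) + (rb mn (f u) u : ℕ) < (rA t y : ℕ) + (rb mn y u : ℕ) := by
            exact_mod_cast h14
          rw [a1, a3, a5, a6] at h15
          exact h15
      · rw [if_neg h14, if_neg]
        · rfl
        · rintro ⟨-, h15⟩
          apply h14
          rw [← a1, ← a3, ← a5, ← a6] at h15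
          exact_mod_cast h15
  have e4 : ∑ u ∈ vHC U ho vl pc g z y, ∑ j ∈ range (g y u), (1 - T (u, y, j))
      = hcS wt R t U ho vl kp mn pc g f z y := by
    unfold hcS
    rw [hT]
  rw [e1, e2, e3, e4]
  ring

/-- a sum over the served items by types (main end `z`) -/
lemma LevC.serv_split {φ : ι → ℕ → ℤ} (Lv : LevC n U ho vl kp mn pc φ g f)
    (H : PCon (R : ℤ) n t s mu U ho vl kp mn pc ar be kq NN sg nu) (hz : z < n) (y : ℕ) (G : ι → ℝ)
    (hG : ∀ u ∈ U, g z u = 0 → G u = 0) :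
    ∑ u ∈ U.filter (fun u => ho u = y), G u
      = ∑ u ∈ (U.filter fun u => ho u = y ∧ pc u = 1 ∧ kp z u ≠ 0), G u
        + (∑ u ∈ vSF U ho vl kp pc g f z y, G u
          + ∑ u ∈ (vSH U ho vl kp pc g f z y).filter (fun u => z ≠ f u), G u
          + ∑ u ∈ vSC U ho vl pc g z y, G u) := by
  rw [Lv.host_split H y hz G hG]
  congr 1
  have e1 : vHF U ho vl kp pc g f y z = vSF U ho vl kp pc g f z y := by
    unfold vHF vSF
    refine filter_congr fun u hu => ?_
    constructor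
    · rintro ⟨h1, h2, h3, h4, h5⟩
      refine ⟨h1, h2, h3, fun h6 => ?_, h5⟩
      have h7 := Lv.le u hu z hz
      rw [h4, h6] at h7
      norm_num at h7
    · rintro ⟨h1, h2, h3, h4, h5⟩
      exact ⟨h1, h2, h3, (Lv.full_at hu h3 h5 hz h4).2.2.2, h5⟩
  have e2 : vHH U ho vl kp pc g f y z = (vSH U ho vl kp pc g f z y).filter fun u => z ≠ f u := by
    unfold vHH vSH
    rw [filter_filter]
    refine filter_congr fun u hu => ?_
    constructor
    · rintro ⟨h1, h2, h3, h4, h5⟩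
      have h6 : kp z u ≠ 0 := fun h6 => by
        have h7 := Lv.le u hu z hz
        rw [h4, h6] at h7
        norm_num at h7
      refine ⟨⟨h1, h2, h3, h6, h5⟩, ?_⟩
      rcases (Lv.half_at H hu h5 hz h6).2 with ⟨h7, -⟩ | ⟨-, h7⟩
      · exact h7
      · rw [h7] at h4
        exact absurd h4 (by norm_num)
    · rintro ⟨⟨h1, h2, h3, h4, h5⟩, h6⟩
      refine ⟨h1, h2, h3, ?_, h5⟩
      rcases (Lv.half_at H hu h5 hz h4).2 with ⟨-, h7⟩ | ⟨h7, -⟩
      · exact h7
      · exact absurd h7 h6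
  rw [e1, e2]
  rfl

/-- **the parts of `z` as a main end in the cell** -/
lemma LevC.serv_cell (Lv : LevC n U ho vl kp mn pc (fun u i => mn i u) g f)
    (H : PCon (R : ℤ) n t s mu U ho vl kp mn pc ar be kq NN sg nu)
    (hw : ∀ i < n, 0 < wt (rA t i)) (hz : z < n) (hy : y ∈ (range n).erase z) :
    ∑ v ∈ (unV n U g).filter (fun v => ho v.1 = y ∧ v.2.1 = z),
        smQ (fun i => (wt (rA t i) : ℝ)) (R : ℤ) t ho vl kp mn g f v
      = sgQ wt (rA t z) (rA t y) * ((be y z : ℝ) + (vSF U ho vl kp pc g f z y).card)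
        + ∑ u ∈ (vSH U ho vl kp pc g f z y).filter (fun u => z ≠ f u),
          eQ wt R (rA t y) (rA t z) (rb mn z u) (rA t (oE n kp z u)) (rb mn (oE n kp z u) u)
            (decide (z ≠ f u))
        + scS wt R t U ho vl kp mn pc g f z y := by
  have hyn : y < n := mem_range.1 (mem_of_mem_erase hy)
  set T : ι × ℕ × ℕ → ℝ := smQ (fun i => (wt (rA t i) : ℝ)) (R : ℤ) t ho vl kp mn g f with hT
  have h1 := unit_fib (Lv.two H) (filter_subset (fun u => ho u = y) U) hz fun v => T v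
  have h2 : (unV n U g).filter (fun v => v.1 ∈ U.filter (fun u => ho u = y) ∧ v.2.1 = z)
      = (unV n U g).filter fun v => ho v.1 = y ∧ v.2.1 = z := by
    refine filter_congr fun v hv => ?_
    rw [mem_filter]
    exact ⟨fun h => ⟨h.1.2, h.2⟩, fun h => ⟨⟨(LevC.mem_unV hv).1, h.1⟩, h.2⟩⟩
  rw [h2] at h1
  have hmem : ∀ u ∈ U, g z u = 1 → (u, z, 0) ∈ unV n U g := by
    intro u hu h3
    unfold unV
    simp only [mem_filter, mem_product, mem_range]
    exact ⟨⟨hu, hz, by norm_num⟩, by rw [h3]; norm_num⟩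
  rw [h1, Lv.serv_split H hz y (fun u => ∑ j ∈ range (g z u), T (u, z, j)) fun u _ h => by
    rw [h, range_zero, sum_empty]]
  have e1 : ∑ u ∈ (U.filter fun u => ho u = y ∧ pc u = 1 ∧ kp z u ≠ 0),
      ∑ j ∈ range (g z u), T (u, z, j) = sgQ wt (rA t z) (rA t y) * (be y z : ℝ) := by
    have h3 : ((U.filter fun u => ho u = y ∧ pc u = 1 ∧ kp z u ≠ 0).card : ℤ) = be y z :=
      H.pc_cell hz hyn
    have h4 : (be y z : ℝ) = ((U.filter fun u => ho u = y ∧ pc u = 1 ∧ kp z u ≠ 0).card : ℝ) := by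
      rw [← h3]
      push_cast
      rfl
    rw [h4, mul_comm, ← nsmul_eq_mul, ← sum_const]
    refine sum_congr rfl fun u hu => ?_
    obtain ⟨h5, h6, h7, h8, h9⟩ := Lv.pc_at H hz hu
    rw [h8, sum_range_one]
    have h10 := (Lv.TQ_one H hw (hmem u h5 h8) h7 h9).1
    simp only at h10
    rw [h6] at h10
    rw [hT, smQ_one h9]
    exact h10
  have e2 : ∑ u ∈ vSF U ho vl kp pc g f z y, ∑ j ∈ range (g z u), T (u, z, j)
      = sgQ wt (rA t z) (rA t y) * ((vSF U ho vl kp pc g f z y).card : ℝ) := by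
    rw [mul_comm, ← nsmul_eq_mul, ← sum_const]
    refine sum_congr rfl fun u hu => ?_
    obtain ⟨h5, h6, h7, h8, h9, h10⟩ := mem_filter.1 hu
    have h11 := (Lv.full_at h5 h8 h10 hz h9).2.2.2
    rw [h11, sum_range_one]
    have h12 := (Lv.TQ_one H hw (hmem u h5 h11) h8 h10).1
    simp only at h12
    rw [h6] at h12
    rw [hT, smQ_one h10]
    exact h12
  have e3 : ∑ u ∈ (vSH U ho vl kp pc g f z y).filter (fun u => z ≠ f u),
      ∑ j ∈ range (g z u), T (u, z, j)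
      = ∑ u ∈ (vSH U ho vl kp pc g f z y).filter (fun u => z ≠ f u),
          eQ wt R (rA t y) (rA t z) (rb mn z u) (rA t (oE n kp z u)) (rb mn (oE n kp z u) u)
            (decide (z ≠ f u)) := by
    refine sum_congr rfl fun u hu => ?_
    obtain ⟨hu', h0⟩ := mem_filter.1 hu
    obtain ⟨-, -, -, h4⟩ := Lv.sh_ok H hz hy hu'
    obtain ⟨h5, h6, h7, h8, h9, h10⟩ := mem_filter.1 hu'
    obtain ⟨h11, -, h12, -⟩ | ⟨h11, -, -⟩ := h4
    · rw [h11, sum_range_one, hT, Lv.smQ_eq H (W := fun i => (wt (rA t i) : ℝ)) (wt := wt) (fun i _ => rfl) (hmem u h5 h11) h10]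
      simp only
      rw [h6, h12, decide_eq_true (by rw [← h12]; exact h0)]
      rfl
    · exact absurd h11 h0
  have e4 : ∑ u ∈ vSC U ho vl pc g z y, ∑ j ∈ range (g z u), T (u, z, j)
      = scS wt R t U ho vl kp mn pc g f z y := by
    unfold scS
    refine sum_congr rfl fun u hu => sum_congr rfl fun j _ => ?_
    rw [hT, smQ_one]
    rintro ⟨h5, -⟩
    exact (mem_filter.1 hu).2.2.2.1 h5
  rw [e1, e2, e3, e4]
  ring

/-- **the parts of `z` as a cut end in the cell** -/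
lemma LevC.cut_cell (Lv : LevC n U ho vl kp mn pc (fun u i => mn i u) g f)
    (H : PCon (R : ℤ) n t s mu U ho vl kp mn pc ar be kq NN sg nu) (hz : z < n)
    (hy : y ∈ (range n).erase z) :
    ∑ v ∈ (unV n U g).filter (fun v => (twoE vl kp g f v.1 ∧ f v.1 = z) ∧ ho v.1 = y),
        scQ (fun i => (wt (rA t i) : ℝ)) (R : ℤ) t ho vl kp mn g f v
      = ∑ u ∈ (vSH U ho vl kp pc g f z y).filter (fun u => z = f u),
          eQ wt R (rA t y) (rA t z) (rb mn z u) (rA t (oE n kp z u)) (rb mn (oE n kp z u) u)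
            (decide (z ≠ f u)) := by
  have hyn : y < n := mem_range.1 (mem_of_mem_erase hy)
  have hmem : ∀ u ∈ (vSH U ho vl kp pc g f z y).filter (fun u => z = f u),
      u ∈ U ∧ twoE vl kp g f u ∧ f u = z ∧ ho u = y ∧ oE n kp z u < n ∧ g (oE n kp z u) u = 1 := by
    intro u hu
    obtain ⟨hu', h0⟩ := mem_filter.1 hu
    obtain ⟨h1, -, -, h4⟩ := Lv.sh_ok H hz hy hu'
    obtain ⟨h5, h6, h7, h8, h9, h10⟩ := mem_filter.1 hu'
    rcases h4 with ⟨-, h11, -⟩ | ⟨-, h11, -⟩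
    · exact absurd h0 h11
    · exact ⟨h5, h10, h0.symm, h6, mem_range.1 (mem_of_mem_erase h1), h11⟩
  refine sum_bij' (i := fun v _ => v.1) (j := fun u _ => (u, oE n kp z u, 0)) ?_ ?_ ?_ ?_ ?_
  · intro v hv
    obtain ⟨h1, ⟨h2, h3⟩, h4⟩ := mem_filter.1 hv
    obtain ⟨h5, h6, h7⟩ := LevC.mem_unV h1
    obtain ⟨k1, k2, k3, k4, k5, k6, -⟩ := Lv.two_facts H h1 h2
    have h8 : kp z v.1 ≠ 0 := by
      have := Lv.f1 v.1 h5
      rw [h3] at this
      omega
    exact mem_filter.2 ⟨mem_filter.2 ⟨h5, h4, k6, h2.1, h8, h2⟩, h3.symm⟩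
  · intro u hu
    obtain ⟨h1, h2, h3, h4, h5, h6⟩ := hmem u hu
    refine mem_filter.2 ⟨?_, ⟨h2, h3⟩, h4⟩
    unfold unV
    simp only [mem_filter, mem_product, mem_range]
    exact ⟨⟨h1, h5, by norm_num⟩, by rw [h6]; norm_num⟩
  · intro v hv
    obtain ⟨h1, ⟨h2, h3⟩, h4⟩ := mem_filter.1 hv
    obtain ⟨h5, h6, h7⟩ := LevC.mem_unV h1
    obtain ⟨k1, k2, k3, k4, k5, k6, -⟩ := Lv.two_facts H h1 h2
    have h8 : kp z v.1 ≠ 0 := by
      have := Lv.f1 v.1 h5
      rw [h3] at this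
      omega
    have h9 : v.1 ∈ (vSH U ho vl kp pc g f z y).filter (fun u => z = f u) :=
      mem_filter.2 ⟨mem_filter.2 ⟨h5, h4, k6, h2.1, h8, h2⟩, h3.symm⟩
    obtain ⟨-, -, -, -, h10, h11⟩ := hmem v.1 h9
    have h12 : kp v.2.1 v.1 ≠ 0 := by
      have := Lv.le v.1 h5 v.2.1 h6
      omega
    have hoe := oE_spec (n := n) (kp := kp) (z := z) (u := v.1)
      ⟨v.2.1, h6, by rw [← h3]; exact k3, h12⟩
    have h13 : v.2.1 = oE n kp z v.1 := by
      rcases H.two_ends h5 h2.1 hz hoe.1 h6 hoe.2.1.symm h8 hoe.2.2 h12 with h14 | h14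
      · rw [← h3] at h14
        exact absurd h14 k3
      · exact h14
    have h14 : v.2.2 = 0 := by
      have h15 := Lv.lev01 H h5 h2.1 h6
      omega
    show (v.1, oE n kp z v.1, 0) = v
    rw [← h13, ← h14]
  · intro u _
    rfl
  · intro v hv
    obtain ⟨h1, ⟨h2, h3⟩, h4⟩ := mem_filter.1 hv
    obtain ⟨h5, h6, h7⟩ := LevC.mem_unV h1
    obtain ⟨k1, k2, k3, k4, k5, k6, -⟩ := Lv.two_facts H h1 h2
    have h8 : kp z v.1 ≠ 0 := by
      have := Lv.f1 v.1 h5
      rw [h3] at this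
      omega
    have h12 : kp v.2.1 v.1 ≠ 0 := by
      have := Lv.le v.1 h5 v.2.1 h6
      omega
    have hoe := oE_spec (n := n) (kp := kp) (z := z) (u := v.1)
      ⟨v.2.1, h6, by rw [← h3]; exact k3, h12⟩
    have h13 : v.2.1 = oE n kp z v.1 := by
      rcases H.two_ends h5 h2.1 hz hoe.1 h6 hoe.2.1.symm h8 hoe.2.2 h12 with h14 | h14
      · rw [← h3] at h14
        exact absurd h14 k3
      · exact h14
    rw [Lv.scQ_eq H (W := fun i => (wt (rA t i) : ℝ)) (wt := wt) (fun i _ => rfl) h1 h2, h3, h4, ← h13,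
      decide_eq_false (fun h : z ≠ z => h rfl)]
    rfl

/-- the parts of halves are not negative -/
lemma eQ_nonneg (wt : ℕ → ℕ) (R X A b B' b' : ℕ) (own : Bool) : 0 ≤ eQ wt R X A b B' b' own :=
  div_nonneg (Nat.cast_nonneg _) (Nat.cast_nonneg _)

/-- **THE SHARES OF A ROW BY CELLS** -/
theorem LevC.cell_sh (Lv : LevC n U ho vl kp mn pc (fun u i => mn i u) g f)
    (H : PCon (R : ℤ) n t s mu U ho vl kp mn pc ar be kq NN sg nu)
    (hw : ∀ i < n, 0 < wt (rA t i)) (hz : z < n) {F : Finset (ι × ℕ × ℕ)} (hF : F ⊆ unV n U g) :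
    ∑ v ∈ F.filter (fun v => ho v.1 = z),
        (1 - TQ (fun i => (wt (rA t i) : ℝ)) (R : ℤ) t ho vl kp mn g f v)
      + ∑ v ∈ F.filter (fun v => v.2.1 = z),
        smQ (fun i => (wt (rA t i) : ℝ)) (R : ℤ) t ho vl kp mn g f v
      + ∑ v ∈ F.filter (fun v => twoE vl kp g f v.1 ∧ f v.1 = z),
        scQ (fun i => (wt (rA t i) : ℝ)) (R : ℤ) t ho vl kp mn g f v
      ≤ ∑ y ∈ (range n).erase z, ceS wt R n t U ho vl kp mn pc be g f z y := by
  have hW : ∀ i < n, (0 : ℝ) < (fun i => (wt (rA t i) : ℝ)) i := fun i hi =>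
    show (0 : ℝ) < (wt (rA t i) : ℝ) from by exact_mod_cast hw i hi
  have h0 : ∀ v ∈ unV n U g, v.2.1 < n ∧ ho v.1 < n ∧ v.2.1 ≠ ho v.1 := by
    intro v hv
    obtain ⟨h1, h2, h3⟩ := LevC.mem_unV hv
    exact ⟨h2, H.hlt _ h1, Lv.main_ne hv⟩
  have e1 : ∑ v ∈ F.filter (fun v => ho v.1 = z),
        (1 - TQ (fun i => (wt (rA t i) : ℝ)) (R : ℤ) t ho vl kp mn g f v)
      ≤ ∑ y ∈ (range n).erase z, ∑ v ∈ (unV n U g).filter (fun v => ho v.1 = z ∧ v.2.1 = y),
        (1 - TQ (fun i => (wt (rA t i) : ℝ)) (R : ℤ) t ho vl kp mn g f v) := by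
    refine (sum_le_sum_of_subset_of_nonneg (filter_subset_filter _ hF) fun v hv _ => ?_).trans ?_
    · have := Lv.TQ_lt_one H hW (mem_filter.1 hv).1
      linarith
    · rw [← sum_fiberwise_of_maps_to (s := (unV n U g).filter fun v => ho v.1 = z)
        (t := (range n).erase z) (g := fun v : ι × ℕ × ℕ => v.2.1) fun v hv => ?_]
      · refine (sum_congr rfl fun y _ => ?_).le
        rw [filter_filter]
      · obtain ⟨h2, h3⟩ := mem_filter.1 hv
        obtain ⟨h4, -, h5⟩ := h0 v h2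
        exact mem_erase.2 ⟨fun h6 => h5 (by rw [h6, h3]), mem_range.2 h4⟩
  have e2 : ∑ v ∈ F.filter (fun v => v.2.1 = z),
        smQ (fun i => (wt (rA t i) : ℝ)) (R : ℤ) t ho vl kp mn g f v
      ≤ ∑ y ∈ (range n).erase z, ∑ v ∈ (unV n U g).filter (fun v => ho v.1 = y ∧ v.2.1 = z),
        smQ (fun i => (wt (rA t i) : ℝ)) (R : ℤ) t ho vl kp mn g f v := by
    refine (sum_le_sum_of_subset_of_nonneg (filter_subset_filter _ hF) fun v hv _ =>
      Lv.smQ_nonneg H hW (mem_filter.1 hv).1).trans ?_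
    rw [← sum_fiberwise_of_maps_to (s := (unV n U g).filter fun v => v.2.1 = z)
      (t := (range n).erase z) (g := fun v : ι × ℕ × ℕ => ho v.1) fun v hv => ?_]
    · refine (sum_congr rfl fun y _ => ?_).le
      rw [filter_filter]
      refine sum_congr (filter_congr fun v _ => and_comm) fun _ _ => rfl
    · obtain ⟨h2, h3⟩ := mem_filter.1 hv
      obtain ⟨-, h4, h5⟩ := h0 v h2
      exact mem_erase.2 ⟨fun h6 => h5 (by rw [h6, h3]), mem_range.2 h4⟩
  have e3 : ∑ v ∈ F.filter (fun v => twoE vl kp g f v.1 ∧ f v.1 = z),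
        scQ (fun i => (wt (rA t i) : ℝ)) (R : ℤ) t ho vl kp mn g f v
      ≤ ∑ y ∈ (range n).erase z,
        ∑ v ∈ (unV n U g).filter (fun v => (twoE vl kp g f v.1 ∧ f v.1 = z) ∧ ho v.1 = y),
        scQ (fun i => (wt (rA t i) : ℝ)) (R : ℤ) t ho vl kp mn g f v := by
    refine (sum_le_sum_of_subset_of_nonneg (filter_subset_filter _ hF) fun v hv _ =>
      Lv.scQ_nonneg H hW (mem_filter.1 hv).1).trans ?_
    rw [← sum_fiberwise_of_maps_to
      (s := (unV n U g).filter fun v => twoE vl kp g f v.1 ∧ f v.1 = z)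
      (t := (range n).erase z) (g := fun v : ι × ℕ × ℕ => ho v.1) fun v hv => ?_]
    · refine (sum_congr rfl fun y _ => ?_).le
      rw [filter_filter]
    · obtain ⟨h2, h3, h4⟩ := mem_filter.1 hv
      have h5 := LevC.mem_unV h2
      have h6 := Lv.fh v.1 h5.1
      refine mem_erase.2 ⟨fun h7 => h6 ?_, mem_range.2 (H.hlt _ h5.1)⟩
      rw [h4, h7]
  refine (add_le_add (add_le_add e1 e2) e3).trans (le_of_eq ?_)
  rw [← sum_add_distrib, ← sum_add_distrib]
  refine sum_congr rfl fun y hy => ?_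
  rw [Lv.host_cell H hw hz hy, Lv.serv_cell H hw hz hy, Lv.cut_cell H hz hy]
  have e4 : shS wt R n t U ho vl kp mn pc g f z y
      = ∑ u ∈ (vSH U ho vl kp pc g f z y).filter (fun u => z ≠ f u),
          eQ wt R (rA t y) (rA t z) (rb mn z u) (rA t (oE n kp z u)) (rb mn (oE n kp z u) u)
            (decide (z ≠ f u))
        + ∑ u ∈ (vSH U ho vl kp pc g f z y).filter (fun u => z = f u),
          eQ wt R (rA t y) (rA t z) (rb mn z u) (rA t (oE n kp z u)) (rb mn (oE n kp z u) u)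
            (decide (z ≠ f u)) := by
    unfold shS
    rw [← sum_filter_add_sum_filter_not (vSH U ho vl kp pc g f z y) (fun u => z ≠ f u)]
    congr 1
    refine sum_congr (filter_congr fun u _ => not_not) fun _ _ => rfl
  unfold ceS
  rw [e4]
  ring

end VShr

end Pool.Agent.Lib.MP_f04ccf_co
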