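import Pool.Agent.Lib.MP_f04ccf_co.M.CsAV
import Pool.Agent.Lib.MP_f04ccf_co.M.CapV
import Pool.Agent.Lib.MP_f04ccf_co.M.VShr

/-!
MP_f04ccf_co, TEXT D, regime L: **the facts of one cell in real letters** (`PConC`).

Letters: row `z` of mass `A = t z + 1`, cell `y` of mass `x = t y + 1`, `c = R - A`, `d = mu z - s z`,
`M = be z y + be y z`.

* `LevC.colR`: the column test, any kept plain hosted items `P`, any block tails `Y` out, any used items `V` of the
  host `y` which contain the PC pairs, with the exact second order part;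
* `hOwn`, `hOth`: the plain hosted items with and without an end at `y`; `LevC.colK`, `LevC.colD`, `LevC.colKD`: all
  kept, own kept, the mean of the two.
-/

set_option autoImplicit false

namespace Pool.Agent.Lib.MP_f04ccf_co

open Finset

attribute [local instance] Classical.propDecidable

section CellF

variable {ι : Type*} {R : ℤ} {n : ℕ} {t s mu : ℕ → ℤ} {U : Finset ι} {ho : ι → ℕ} {vl : ι → ℤ}
  {kp mn : ℕ → ι → ℤ} {pc ar : ι → ℤ} {be kq NN sg : ℕ → ℕ → ℤ} {nu : ℕ → ι → ℤ} {z y : ℕ}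
  {φ : ι → ℕ → ℤ} {g : ℕ → ι → ℕ} {f : ι → ℕ}

/-- **the column test of the cell of `y` in real letters**: `m` the kept value (with the blocks kept `b`), `hit` the
kept pieces at `y`, `G` the number of the dropped plain hosted items, `k`, `κ`, `κ₁` the levels, the number and the
number of value one of the used plain items, `w` their misses and arcs, `N` the block excess -/
theorem LevC.colR (C : LevC n U ho vl kp mn pc φ g f)
    (H : PConC R n t s mu U ho vl kp mn pc ar be kq NN sg nu) (hz : z < n)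
    (hy : y ∈ (range n).erase z) {P : Finset ι} (hP : P ⊆ hsZ U ho pc z) {Y : Finset ℕ}
    (hY : Y ⊆ ((range n).erase z).erase y) {V : Finset ι}
    (hV : V ⊆ U.filter fun u => ho u = y ∧ g z u ≠ 0)
    (hQ : ((csQ pc V).card : ℤ) = be y z)
    {A x d M m G b k κ κ₁ w hit W N mP : ℝ} (hA : A = (t z : ℝ) + 1) (hx : x = (t y : ℝ) + 1)
    (hd : d = (mu z : ℝ) - s z) (hM : M = (be z y : ℝ) + be y z)
    (hb : b = (csB n be kq z y Y : ℝ)) (hm : m = ∑ u ∈ P, (vl u : ℝ) + b)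
    (hG : G = ((hsZ U ho pc z).card : ℝ) - (P.card : ℝ))
    (hk : k = ∑ u ∈ csK pc V, (g z u : ℝ)) (hκ : κ = ((csK pc V).card : ℝ))
    (hκ₁ : κ₁ = (((csK pc V).filter fun u => vl u = 1).card : ℝ))
    (hw : w = ∑ u ∈ csK pc V, ((msP kp mn z (g z) u : ℝ) + (rnA n kp be z y u : ℝ)))
    (hhit : hit = ∑ u ∈ P, ((kp y u : ℝ) * ((R : ℝ) - t y) - mn y u))
    (hW : W = m + M + k + κ) (hN : N = (csNb n kp be kq sg z y P Y : ℝ))
    (hmP : mP = ∑ e ∈ P.offDiag, min (vl e.1 : ℝ) (vl e.2)) :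
    ((R : ℝ) - A) * (M + k) + hit + (x - 1 - A) * m - (x - 1) * G
        + (W * (2 * (d + G) - W) - M ^ 2 + m + (k - κ) + 2 * (κ₁ * (κ₁ - 1)) + mP - N) / 2
      ≤ (x - 1) * d + ((R : ℝ) - (x - 1)) + w := by
  obtain ⟨hK, hQ', e1, e2⟩ := C.csV H.toPCon hz hV
  have h1 := C.csInJ H hz hy hP hY hV
  have h2 := csRJ_eq (ho := ho) (U := U) (t := t) (vl := vl) (sg := sg) (kq := kq)
    (kp := kp) (n := n) (z := z) (y := y) (g := g) (P := P) (Y := Y) (V := V) (d := mu z - s z)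
    hQ rfl rfl rfl rfl rfl
  have h3 := congrArg (fun a : ℤ => (a : ℝ)) h2
  have h4 := congrArg (fun a : ℤ => (a : ℝ)) e1
  have h5 := congrArg (fun a : ℤ => (a : ℝ)) e2
  have h6 := congrArg (fun a : ℤ => (a : ℝ)) (crY_sum (R := R) (t := t) (vl := vl) (kp := kp)
    (mn := mn) (z := z) (y := y) hP)
  have h7 : (((csQ pc V).card : ℤ) : ℝ) = be y z := by rw [hQ]
  beta_reduce at h3 h4 h5 h6
  push_cast at h3 h4 h5 h6 h7
  rw [h3, h4, h5, h6] at h1
  rw [h7, ← hk, ← hκ, ← hκ₁, ← hw, ← hhit, ← hmP, ← hb, ← hm, ← hN, ← hG, ← hd] at h1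
  have h8 : ∑ u ∈ P, (vl u : ℝ) = m - b := by rw [hm]; ring
  rw [h8] at h1
  have h9 : (t y : ℝ) = x - 1 := by rw [hx]; ring
  have h10 : (t z : ℝ) = A - 1 := by rw [hA]; ring
  rw [h9, h10] at h1
  rw [hW, hM]
  linarith

/-- the plain hosted items kept outside of `O` give at least nothing at `y` -/
lemma PCon.hit_ge (H : PCon R n t s mu U ho vl kp mn pc ar be kq NN sg nu) (hy : y < n)
    {O P : Finset ι} (hO : O ⊆ P) (hP : P ⊆ hsZ U ho pc z) (hk : ∀ u ∈ O, kp y u = 1) :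
    (O.card : ℝ) * ((R : ℝ) - t y) - ∑ u ∈ O, (mn y u : ℝ)
      ≤ ∑ u ∈ P, ((kp y u : ℝ) * ((R : ℝ) - t y) - mn y u) := by
  have h1 : ∑ u ∈ O, ((kp y u : ℝ) * ((R : ℝ) - t y) - mn y u)
      = (O.card : ℝ) * ((R : ℝ) - t y) - ∑ u ∈ O, (mn y u : ℝ) := by
    rw [sum_sub_distrib]
    congr 1
    rw [← nsmul_eq_mul, ← sum_const]
    refine sum_congr rfl fun u hu => ?_
    rw [hk u hu]
    push_cast
    ring
  rw [← h1]
  refine sum_le_sum_of_subset_of_nonneg hO fun u hu _ => ?_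
  have h2 := H.mnk u (mem_filter.1 (hP hu)).1 y hy
  have h3 : (mn y u : ℝ) ≤ (kp y u : ℝ) * ((R : ℝ) - t y) := by exact_mod_cast h2
  linarith

/-- **the column test, value one**: own pieces `v` with misses `Bv` kept, other plain hosted units `h` kept, `G` dropped,
`b` third block pairs kept, `k` used plain items -/
theorem LevC.colV (C : LevC n U ho vl kp mn pc φ g f)
    (H : PConC R n t s mu U ho vl kp mn pc ar be kq NN sg nu) (hz : z < n)
    (hy : y ∈ (range n).erase z) {O P : Finset ι} (hO : O ⊆ P) (hP : P ⊆ hsZ U ho pc z)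
    (hOk : ∀ u ∈ O, kp y u = 1) (hPv : ∀ u ∈ P, vl u = 1) {Y : Finset ℕ}
    (hY : Y ⊆ ((range n).erase z).erase y) {V : Finset ι}
    (hV : V ⊆ U.filter fun u => ho u = y ∧ g z u ≠ 0)
    (hQ : ((csQ pc V).card : ℤ) = be y z) (hVv : ∀ u ∈ csK pc V, vl u = 1)
    {A x d M G v Bv h b k w N : ℝ} (hA : A = (t z : ℝ) + 1) (hx : x = (t y : ℝ) + 1)
    (hd : d = (mu z : ℝ) - s z) (hM : M = (be z y : ℝ) + be y z)
    (hb : b = (csB n be kq z y Y : ℝ)) (hv : v = (O.card : ℝ)) (hh : v + h = (P.card : ℝ))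
    (hBv : ∑ u ∈ O, (mn y u : ℝ) ≤ Bv)
    (hG : G = ((hsZ U ho pc z).card : ℝ) - (P.card : ℝ)) (hk : k = ((csK pc V).card : ℝ))
    (hw : ∑ u ∈ csK pc V, ((mn z u : ℝ) + (rnA n kp be z y u : ℝ)) ≤ w)
    (hN : (csNb n kp be kq sg z y P Y : ℝ) ≤ N) :
    ((R : ℝ) - A) * (M + k + v) - Bv + (x - 1 - A) * (h + b) - (x - 1) * G
        + (v + h + M + 2 * k + b) * (d + G - M)
        - k * (k + 1 + 2 * (v + h) + 2 * b) - (v + h) * b - (b ^ 2 + N - b) / 2
      ≤ (x - 1) * d + ((R : ℝ) - (x - 1)) + w := by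
  have hyn : y < n := mem_range.1 (mem_of_mem_erase hy)
  have hKm : ∀ u ∈ csK pc V, u ∈ U ∧ pc u = 0 ∧ g z u ≠ 0 := fun u hu => by
    obtain ⟨h1, h2⟩ := mem_filter.1 hu
    obtain ⟨h3, h4, h5⟩ := mem_filter.1 (hV h1)
    exact ⟨h3, h2, h5⟩
  have hg1 : ∀ u ∈ csK pc V, g z u = 1 ∧ kp z u = 1 := fun u hu => by
    obtain ⟨h1, h2, h3⟩ := hKm u hu
    have h4 := C.le u h1 z hz
    have h5 := H.kv u h1 z hz
    rw [hVv u hu] at h5
    constructor <;> omega
  have e1 : ∑ u ∈ csK pc V, (g z u : ℝ) = ((csK pc V).card : ℝ) := by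
    rw [card_eq_sum_ones]
    push_cast
    refine sum_congr rfl fun u hu => ?_
    rw [(hg1 u hu).1]
    norm_num
  have e2 : ∑ u ∈ P, (vl u : ℝ) = (P.card : ℝ) := by
    rw [card_eq_sum_ones]
    push_cast
    refine sum_congr rfl fun u hu => ?_
    rw [hPv u hu]
    norm_num
  have e3 : ∑ u ∈ csK pc V, ((msP kp mn z (g z) u : ℝ) + (rnA n kp be z y u : ℝ))
      = ∑ u ∈ csK pc V, ((mn z u : ℝ) + (rnA n kp be z y u : ℝ)) := by
    refine sum_congr rfl fun u hu => ?_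
    unfold msP
    rw [if_pos (by rw [(hg1 u hu).1, (hg1 u hu).2]; norm_num)]
  have e4 : (csK pc V).filter (fun u => vl u = 1) = csK pc V := filter_true_of_mem hVv
  have e5 : ∑ e ∈ P.offDiag, min (vl e.1 : ℝ) (vl e.2) = (P.card : ℝ) * ((P.card : ℝ) - 1) := by
    have h1 : ∑ e ∈ P.offDiag, min (vl e.1 : ℝ) (vl e.2) = (P.offDiag.card : ℝ) := by
      rw [card_eq_sum_ones]
      push_cast
      refine sum_congr rfl fun e he => ?_
      obtain ⟨h2, h3, -⟩ := mem_offDiag.1 he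
      rw [hPv _ h2, hPv _ h3]
      norm_num
    rw [h1, offDiag_card]
    have h2 : P.card ≤ P.card * P.card := Nat.le_mul_self _
    rw [Nat.cast_sub h2]
    push_cast
    ring
  have h1 := C.colR H hz hy hP hY hV hQ hA hx hd hM hb rfl hG (hk.trans e1.symm) hk
    (κ₁ := k) (by rw [e4]; exact hk) rfl rfl rfl rfl rfl
  have h2 := H.toPCon.hit_ge hyn hO hP hOk
  rw [e2, e3, e5, ← hh] at h1
  rw [← hv] at h2
  have h3 : (t y : ℝ) = x - 1 := by rw [hx]; ring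
  rw [h3] at h1 h2
  linarith

/-- **the row test, value one**: all plain hosted units `h` and all block pairs `b` kept (Konig pairs out), `k` used
plain items of one host `y` with misses `G` at `z` -/
theorem PConC.tesV
    (H : PConC R n t s mu U ho vl kp mn pc ar be kq NN sg nu) (hz : z < n)
    (hyz : y ≠ z) (hhv : ∀ u ∈ hsZ U ho pc z, vl u = 1) (hy : y < n) {K : Finset ι}
    (hK : K ⊆ U.filter fun u => ho u = y ∧ pc u = 0 ∧ kp z u ≠ 0) (hKv : ∀ u ∈ K, vl u = 1)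
    {A d h b k G N : ℝ} (hA : A = (t z : ℝ) + 1)
    (hd : d = (mu z : ℝ) - s z)
    (hb : b = ∑ l ∈ (range n).erase z, ((be z l : ℝ) - kq z l))
    (hh : h = ((hsZ U ho pc z).card : ℝ)) (hk : k = (K.card : ℝ))
    (hG : ∑ u ∈ K, (mn z u : ℝ) ≤ G)
    (hN : ∑ l ∈ (range n).erase z, ((be z l : ℝ) - kq z l) * ((be z l : ℝ) - kq z l + 1) ≤ N) :
    ((R : ℝ) - A) * (h + b + k) + (h + b + 2 * k) * d - 2 * (h + b) * k - k * (k + 1) - h * b
        - (b ^ 2 + N - b) / 2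
      ≤ R * d + G := by
  have hKm : ∀ u ∈ K, u ∈ U ∧ ho u = y ∧ pc u = 0 ∧ kp z u = 1 := fun u hu => by
    obtain ⟨h1, h2, h3, h4⟩ := mem_filter.1 (hK hu)
    exact ⟨h1, h2, h3, H.kp_one h1 (hKv u hu) hz h4⟩
  have hsv : 2 * ((K.card : ℤ) * ((K.card : ℤ) - 1))
      ≤ svP n ho vl K (fun _ => 1) + svP n ho vl (K.filter fun u => pc u = 0) (fun _ => 1) := by
    have e0 : K.filter (fun u => pc u = 0) = K := filter_true_of_mem fun u hu => (hKm u hu).2.2.1
    have e1 : svP n ho vl K (fun _ => 1) = (K.card : ℤ) * ((K.card : ℤ) - 1) := by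
      unfold svP
      rw [sum_eq_single_of_mem y (mem_range.2 hy)]
      · have e2 : K.filter (fun u => ho u = y ∧ ((1 : ℕ) : ℤ) = vl u) = K :=
          filter_true_of_mem fun u hu => ⟨(hKm u hu).2.1, by rw [hKv u hu]; norm_num⟩
        rw [e2]
      · intro l _ hl
        have e2 : K.filter (fun u => ho u = l ∧ ((1 : ℕ) : ℤ) = vl u) = ∅ :=
          filter_eq_empty_iff.2 fun u hu h3 => hl (h3.1.symm.trans (hKm u hu).2.1)
        rw [e2]
        simp
    rw [e0, e1]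
    linarith
  have h1 := H.csT hz (K := K) (fun u hu => (hKm u hu).1)
    (fun u hu h2 => hyz ((hKm u hu).2.1.symm.trans h2)) (lv := fun _ => 1) (fun _ _ => le_rfl)
    (fun u hu => by rw [(hKm u hu).2.2.2]; norm_num) hsv rfl rfl rfl rfl
  have e1 : ∑ u ∈ hsZ U ho pc z, vl u = ((hsZ U ho pc z).card : ℤ) := by
    rw [card_eq_sum_ones]
    push_cast
    exact sum_congr rfl fun u hu => hhv u hu
  have e2 : ∑ u ∈ K, (((fun _ : ι => (1 : ℕ)) u : ℕ) : ℤ) = (K.card : ℤ) := by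
    rw [card_eq_sum_ones]
    push_cast
    rfl
  have e3 : ∑ e ∈ (hsZ U ho pc z).offDiag, min (vl e.1) (vl e.2)
      = ((hsZ U ho pc z).card : ℤ) * (((hsZ U ho pc z).card : ℤ) - 1) := by
    have h2 : ∑ e ∈ (hsZ U ho pc z).offDiag, min (vl e.1) (vl e.2)
        = ((hsZ U ho pc z).offDiag.card : ℤ) := by
      rw [card_eq_sum_ones]
      push_cast
      refine sum_congr rfl fun e he => ?_
      obtain ⟨h3, h4, -⟩ := mem_offDiag.1 he
      rw [hhv _ h3, hhv _ h4]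
      norm_num
    rw [h2, offDiag_card]
    have h3 : (hsZ U ho pc z).card ≤ (hsZ U ho pc z).card * (hsZ U ho pc z).card := Nat.le_mul_self _
    rw [Nat.cast_sub h3]
    push_cast
    ring
  have e4 : ∑ u ∈ K, msP kp mn z (fun _ => 1) u = ∑ u ∈ K, mn z u := by
    refine sum_congr rfl fun u hu => ?_
    unfold msP
    rw [if_pos (by rw [(hKm u hu).2.2.2]; norm_num)]
  rw [e1, e2, e3, e4] at h1
  have h2 : (2 : ℝ) * (((R : ℝ) - ((t z : ℝ) + 1)) * (h + b + k))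
      + (2 * ((h + b + k + k) * ((mu z : ℝ) - s z - (h + b + k)))
        + (h + b + k - k) * (h + b + k + k + 1) + 2 * (k * (k - 1)) + h * (h - 1))
      ≤ 2 * ((R : ℝ) * ((mu z : ℝ) - s z)) + 2 * ∑ u ∈ K, (mn z u : ℝ)
        + ∑ l ∈ (range n).erase z, ((be z l : ℝ) - kq z l) * ((be z l : ℝ) - kq z l + 1) := by
    rw [hh, hk, hb]
    exact_mod_cast h1
  rw [← hA, ← hd] at h2
  linarith

/-- **the cap of the cell with all its PC pairs, value one**: `K` plain hosted items with an end at `y`, `K'` served ones -/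
theorem PConC.capR
    (H : PConC R n t s mu U ho vl kp mn pc ar be kq NN sg nu) (hz : z < n) (hy : y < n)
    (hyz : y ≠ z) {K K' : Finset ι} (hK : ∀ u ∈ K, u ∈ hsZ U ho pc z ∧ vl u = 1 ∧ kp y u ≠ 0)
    (hK' : ∀ u ∈ K', u ∈ U ∧ ho u = y ∧ pc u = 0 ∧ vl u = 1 ∧ kp z u ≠ 0)
    {A x M a k B G : ℝ} (hA : A = (t z : ℝ) + 1) (hx : x = (t y : ℝ) + 1)
    (hM : M = (be z y : ℝ) + be y z) (ha : a = (K.card : ℝ)) (hk : k = (K'.card : ℝ))
    (hB : ∑ u ∈ K, ((mn y u : ℝ) + ∑ l ∈ ((range n).erase z).erase y, (kp l u : ℝ) * be z l) ≤ B)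
    (hG : ∑ u ∈ K', ((mn z u : ℝ) + ∑ l ∈ ((range n).erase z).erase y, (kp l u : ℝ) * be y l)
      ≤ G) :
    (M + a + k) * (R - (M + a + k)) + a * (x - 1) + k * (A - 1) - B - G
      ≤ R + (A - 1) * (x - 1) + 2 * (a * k) := by
  have h0 := H.cap2MS hz hy hyz.symm (K := K) (K' := K')
    (fun u hu => (mem_filter.1 (hK u hu).1).1) (fun u hu => (hK' u hu).1)
    (fun u hu => ⟨(mem_filter.1 (hK u hu).1).2.1, (mem_filter.1 (hK u hu).1).2.2, (hK u hu).2⟩)
    (fun u hu => (hK' u hu).2) rfl rfl rfl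
    (svc_two (fun u hu => ⟨(mem_filter.1 (hK u hu).1).2.2, (hK u hu).2.1⟩)
      (fun u hu => ⟨(hK' u hu).2.2.1, (hK' u hu).2.2.2.1⟩) rfl rfl)
  have h1 : (2 : ℝ) * (((be z y : ℝ) + be y z - 1) * R)
      + 2 * ∑ u ∈ K, ((R : ℝ) + t y - mn y u - ∑ l ∈ ((range n).erase z).erase y, (kp l u : ℝ) * be z l)
      + 2 * ∑ u ∈ K', ((R : ℝ) + t z - mn z u - ∑ l ∈ ((range n).erase z).erase y, (kp l u : ℝ) * be y l)
      + (2 * ((K.card : ℝ) * ((K.card : ℝ) - 1)) + 2 * ((K'.card : ℝ) * ((K'.card : ℝ) - 1)))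
      ≤ 2 * ((t z : ℝ) * t y) + 2 * ((be z y : ℝ) + be y z) ^ 2
        + 4 * ((be z y : ℝ) + be y z) * ((K.card : ℝ) + K'.card)
        + 2 * ((K.card : ℝ) + K'.card) * (2 * ((K.card : ℝ) + K'.card) - 1) := by
    exact_mod_cast h0
  have e1 : ∑ u ∈ K, ((R : ℝ) + t y - mn y u - ∑ l ∈ ((range n).erase z).erase y, (kp l u : ℝ) * be z l)
      = (K.card : ℝ) * ((R : ℝ) + t y)
        - ∑ u ∈ K, ((mn y u : ℝ) + ∑ l ∈ ((range n).erase z).erase y, (kp l u : ℝ) * be z l) := by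
    rw [← nsmul_eq_mul, ← sum_const, ← sum_sub_distrib]
    exact sum_congr rfl fun u _ => by ring
  have e2 : ∑ u ∈ K', ((R : ℝ) + t z - mn z u - ∑ l ∈ ((range n).erase z).erase y, (kp l u : ℝ) * be y l)
      = (K'.card : ℝ) * ((R : ℝ) + t z)
        - ∑ u ∈ K', ((mn z u : ℝ) + ∑ l ∈ ((range n).erase z).erase y, (kp l u : ℝ) * be y l) := by
    rw [← nsmul_eq_mul, ← sum_const, ← sum_sub_distrib]
    exact sum_congr rfl fun u _ => by ring
  rw [e1, e2, ← ha, ← hk, ← hM] at h1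
  have h3 : (t y : ℝ) = x - 1 := by rw [hx]; ring
  have h4 : (t z : ℝ) = A - 1 := by rw [hA]; ring
  rw [h3, h4] at h1
  linarith

/-- **the PC pairs of a cell** -/
theorem PConC.jokR (H : PConC R n t s mu U ho vl kp mn pc ar be kq NN sg nu) {i j : ℕ} (hi : i < n)
    (hj : j < n) (hij : i ≠ j) {A x M : ℝ} (hA : A = (t i : ℝ) + 1) (hx : x = (t j : ℝ) + 1)
    (hM : M = (be i j : ℝ) + be j i) : M * (R - M) ≤ R + (A - 1) * (x - 1) := by
  have h0 := H.be0 i hi j hj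
  have h1 := H.be0 j hj i hi
  obtain ⟨m, hm⟩ := Int.eq_ofNat_of_zero_le (add_nonneg h0 h1)
  have h2 := H.jsub i hi j hj hij m (by rw [hm])
  have h3 : (m : ℝ) = M := by
    rw [hM]
    have h4 : (((m : ℕ) : ℤ) : ℝ) = ((be i j + be j i : ℤ) : ℝ) := by rw [hm]
    push_cast at h4
    exact h4
  have h4 : ((m : ℝ) - 1) * R ≤ (t i : ℝ) * t j + (m : ℝ) ^ 2 := by exact_mod_cast h2
  rw [h3] at h4
  rw [hA, hx]
  linarith

end CellF

end Pool.Agent.Lib.MP_f04ccf_co
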