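import Pool.Agent.Lib.MP_f04ccf_co.M.CStar

/-!
MP_f04ccf_co, note 17122: the joint cell test.  `rects`: the union of `j ≤ m` rectangles with all sides
at least `m`; `CellD.joint`: `j` doubles of one cell, any homes, each with at least `m` missed points at
both classes; `PFrame.joint`: the same with the bound `j ^ 2 / 4` for the missing pairs.
-/

set_option autoImplicit false

namespace Pool.Agent.Lib.MP_f04ccf_co

open Finset

attribute [local instance] Classical.propDecidable

section Rects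

variable {ι α β : Type*}

/-- **the union of at most `m` rectangles with all sides at least `m`** -/
theorem rects {W : Finset ι} {X : ι → Finset α} {Z : ι → Finset β} {m : ℕ} (hne : W.Nonempty)
    (hW : W.card ≤ m) (hX : ∀ w ∈ W, m ≤ (X w).card) (hZ : ∀ w ∈ W, m ≤ (Z w).card)
    {U : Finset (α × β)} (hU : ∀ w ∈ W, X w ×ˢ Z w ⊆ U) :
    (m : ℤ) ^ 2 + ∑ w ∈ W, (((X w).card : ℤ) + (Z w).card) ≤ U.card + 2 * m * W.card := by
  obtain ⟨w0, hw0, hmax⟩ := exists_max_image W (fun w => (Z w).card) hne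
  have h1 : ∑ a ∈ W.biUnion X, (U.filter fun q => q.1 = a).card ≤ U.card := by
    rw [← card_biUnion (fun a _ b _ hab => disjoint_left.2 fun q hq hq' =>
      hab ((mem_filter.1 hq).2.symm.trans (mem_filter.1 hq').2))]
    exact card_le_card (biUnion_subset.2 fun a _ => filter_subset _ _)
  have h2 : ∑ w ∈ W, (X w).card
      = ∑ a ∈ W.biUnion X, (W.filter fun w => a ∈ X w).card := by
    have e1 : ∀ w ∈ W, (X w).card = ∑ a ∈ W.biUnion X, if a ∈ X w then 1 else 0 := by
      intro w hw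
      rw [← card_filter, filter_mem_eq_inter, inter_eq_right.2 (subset_biUnion_of_mem X hw)]
    rw [sum_congr rfl e1, sum_comm]
    exact sum_congr rfl fun a _ => by rw [card_filter]
  have h3 : ∀ w ∈ W, ∀ a ∈ X w, (Z w).card ≤ (U.filter fun q => q.1 = a).card := by
    intro w hw a ha
    rw [← card_image_of_injOn (s := Z w) (f := fun c => (a, c))
      fun c _ d _ hcd => (Prod.mk.inj hcd).2]
    refine card_le_card fun q hq => ?_
    obtain ⟨c, hc, rfl⟩ := mem_image.1 hq
    exact mem_filter.2 ⟨hU w hw (mem_product.2 ⟨ha, hc⟩), rfl⟩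
  have h4 : ∀ a ∈ W.biUnion X, (0 : ℤ) ≤ ((U.filter fun q => q.1 = a).card : ℤ)
      - (W.filter fun w => a ∈ X w).card := by
    intro a ha
    obtain ⟨w, hw, haw⟩ := mem_biUnion.1 ha
    have e1 := h3 w hw a haw
    have e2 := hZ w hw
    have e3 : (W.filter fun w => a ∈ X w).card ≤ W.card := card_le_card (filter_subset _ _)
    omega
  have h5 : ((X w0).card : ℤ) * ((Z w0).card - W.card)
      ≤ ∑ a ∈ W.biUnion X, (((U.filter fun q => q.1 = a).card : ℤ)
        - (W.filter fun w => a ∈ X w).card) := by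
    have e1 : ∑ a ∈ X w0, (((U.filter fun q => q.1 = a).card : ℤ)
        - (W.filter fun w => a ∈ X w).card) ≤ ∑ a ∈ W.biUnion X,
          (((U.filter fun q => q.1 = a).card : ℤ) - (W.filter fun w => a ∈ X w).card) :=
      sum_le_sum_of_subset_of_nonneg (subset_biUnion_of_mem X hw0) fun a ha _ => h4 a ha
    refine le_trans ?_ e1
    rw [← nsmul_eq_mul, ← sum_const]
    refine sum_le_sum fun a ha => ?_
    have e2 := h3 w0 hw0 a ha
    have e3 : (W.filter fun w => a ∈ X w).card ≤ W.card := card_le_card (filter_subset _ _)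
    omega
  have h6 : ∑ w ∈ W, ((Z w).card : ℤ) ≤ W.card * (Z w0).card := by
    rw [← nsmul_eq_mul, ← sum_const]
    exact sum_le_sum fun w hw => by exact_mod_cast hmax w hw
  have h7 : ∑ w ∈ W, ((X w).card : ℤ)
      = ∑ a ∈ W.biUnion X, ((W.filter fun w => a ∈ X w).card : ℤ) := by exact_mod_cast h2
  have h8 : ∑ a ∈ W.biUnion X, ((U.filter fun q => q.1 = a).card : ℤ) ≤ U.card := by
    exact_mod_cast h1
  rw [sum_sub_distrib] at h5
  rw [sum_add_distrib]
  have h9 : (m : ℤ) ≤ (X w0).card := by exact_mod_cast hX w0 hw0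
  have h10 : (m : ℤ) ≤ (Z w0).card := by exact_mod_cast hZ w0 hw0
  have h11 : (W.card : ℤ) ≤ m := by exact_mod_cast hW
  have h12 : (m : ℤ) * ((Z w0).card - W.card) ≤ (X w0).card * ((Z w0).card - W.card) :=
    mul_le_mul_of_nonneg_right h9 (by linarith)
  have h13 : 0 ≤ ((m : ℤ) - W.card) * ((Z w0).card - m) :=
    mul_nonneg (by linarith) (by linarith)
  nlinarith

end Rects

section Gen

variable {V : Type*} {G : SimpleGraph V} {r : ℕ} {C D I W : Finset V}

/-- **the rectangles of doubles of one cell** -/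
theorem CellD.rects_le (hI : CellD G C D I) (hW : W ⊆ I) (hne : W.Nonempty) {m : ℕ}
    (hj : W.card ≤ m) (hX : ∀ w ∈ W, m ≤ (msd G C w).card)
    (hZ : ∀ w ∈ W, m ≤ (msd G D w).card) :
    (m : ℤ) ^ 2 + ∑ w ∈ W, ((nd G C w : ℤ) + nd G D w)
      ≤ (eds G C D).card + 2 * m * W.card := by
  have h1 : ∀ w ∈ W, msd G C w ×ˢ msd G D w ⊆ eds G C D := by
    intro w hw q hq
    obtain ⟨h2, h3⟩ := mem_product.1 hq
    obtain ⟨h4, h5⟩ := (hI.mem_msd (hW hw)).1 h2
    obtain ⟨h6, h7⟩ := (hI.symm.mem_msd (hW hw)).1 h3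
    exact mem_filter.2 ⟨mem_product.2 ⟨h4, h6⟩, hI.rect w (hW hw) _ h4 _ h6 h5 h7⟩
  exact rects hne hj hX hZ h1

/-- property (P), slope 1, on two classes and doubles, all misses of the doubles -/
theorem PG.s1_cell (hP : PG G r) (hC : Clq G C) (hD : Clq G D) (dCD : Disjoint C D)
    (dCW : Disjoint C W) (dDW : Disjoint D W) :
    2 * ((eds G C D).card : ℤ) + 2 * (W.card * ((r : ℤ) - 1))
      ≤ 2 * ((r : ℤ) - 1 + ((r : ℤ) - 1 - C.card) * ((r : ℤ) - 1 - D.card))
        + 2 * ∑ w ∈ W, ((nd G C w : ℤ) + nd G D w) + NE G W := by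
  have h1 := hP.s1_ne hC hD dCD dCW dDW
  have h2 : ∑ c ∈ D, (dg G C c : ℤ) = (eds G C D).card := by
    rw [card_eds_eq]
    exact_mod_cast (dg_comm G C D).symm
  have h3 : ∑ c ∈ D, (dg G W c : ℤ) = (W.card : ℤ) * D.card - ∑ w ∈ W, (nd G D w : ℤ) := by
    have e1 : ∑ c ∈ D, (dg G W c : ℤ) = ∑ w ∈ W, (dg G D w : ℤ) := by
      exact_mod_cast (dg_comm G W D).symm
    have e2 : ∀ w ∈ W, (dg G D w : ℤ) = (D.card : ℤ) - nd G D w := by
      intro w hw
      have := nd_of_notMem (G := G) (A := D) (x := w) fun h => disjoint_left.1 dDW h hw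
      omega
    rw [e1, sum_congr rfl e2, sum_sub_distrib, sum_const, nsmul_eq_mul]
  rw [h2, h3] at h1
  rw [sum_add_distrib]
  linarith

/-- **the joint cell test**: `j` doubles of one cell, any homes, with at least `m ≥ j` missed points at
both classes -/
theorem CellD.joint (hI : CellD G C D I) (hP : PG G r) (hC : Clq G C) (hD : Clq G D)
    (dCD : Disjoint C D) (hW : W ⊆ I) (hne : W.Nonempty) {m : ℕ}
    (hj : W.card ≤ m) (hX : ∀ w ∈ W, m ≤ (msd G C w).card)
    (hZ : ∀ w ∈ W, m ≤ (msd G D w).card) :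
    2 * (((W.card : ℤ) - 1) * ((r : ℤ) - 1)) + 2 * (m * ((m : ℤ) - 2 * W.card))
      ≤ 2 * (((r : ℤ) - 1 - C.card) * ((r : ℤ) - 1 - D.card)) + NE G W := by
  have h1 := hI.rects_le hW hne hj hX hZ
  have h2 := hP.s1_cell (W := W) hC hD dCD
    (disjoint_right.2 fun w hw h => hI.nC w (hW hw) h)
    (disjoint_right.2 fun w hw h => hI.nD w (hW hw) h)
  nlinarith

end Gen

section Frame

variable {V : Type*} {G : SimpleGraph V} {Z T : Finset V} {hm : V → V} {r m t : ℕ}

/-- the missing pairs among doubles of one cell -/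
lemma PFrame.ne_cell (hF : PFrame G r m t Z T) {x y : V} (hx : x ∈ T) (hy : y ∈ T)
    {W : Finset V} (hW : W ⊆ Dbl G Z T x y) : 2 * (NE G W : ℤ) ≤ (W.card : ℤ) ^ 2 := by
  have hI : ({x, y} : Finset V) ⊆ T := by
    intro z hz
    rcases mem_insert.1 hz with rfl | hz
    · exact hx
    · rw [mem_singleton.1 hz]
      exact hy
  have h1 : AlphaLe G W 2 := fun J hJ hi =>
    (hF.alpha_ZI hI J (fun w hw => by
      obtain ⟨h2, h3⟩ := mem_Dbl.1 (hW (hJ hw))
      exact PFrame.mem_ZI_of_BB h2 (by rw [h3])) hi).trans card_le_two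
  have h2 := mantel h1
  have h3 : (E (co G) W : ℤ) = NE G W := by
    unfold E NE
    exact_mod_cast sum_congr rfl fun w _ => dg_co W w
  rw [h3] at h2
  exact h2

end Frame

end Pool.Agent.Lib.MP_f04ccf_co
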