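import Pool.Agent.Lib.MP_f04ccf_co.M.LemT

/-!
MP_f04ccf_co, notes 17108 and later: the joint cell test for the number of missing pairs of a cell and
the number of missed points of one member.

* `pay_sumQ`: PROPOSITION PAY with the square `(|A v| - 1 - deg v)⁺²` of any member `v`.
* `PG.cuQ`: (CU) with this square.
* `WCoreK.jnt`: `k` missing pairs (members of the host `x` with tail `y`, points of the class of `x`),
  injective, `v` one of the members: `(k - 1) R + (κ_v - k)⁺² ≤ t_x t_y + k²`, `κ_v` all missed points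
  of `v` in its own class.  `WCoreK.jntP`: the PC pairs of the tail `y`.  `WCoreK.jntN`: PC pairs and
  N-ends.
-/

set_option autoImplicit false

namespace Pool.Agent.Lib.MP_f04ccf_co

open Finset

attribute [local instance] Classical.propDecidable

section Pay

variable {V α β : Type*} {G : SimpleGraph V}

/-- a maximal independent subset which contains a given point dominates -/
lemma exists_domV {S : Finset V} {v0 : V} (hv0 : v0 ∈ S) :
    ∃ I ⊆ S, Ind G I ∧ (∀ v ∈ S, v ∉ I → ∃ u ∈ I, G.Adj u v) ∧ v0 ∈ I := by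
  obtain ⟨I, hI, hmax⟩ := exists_max_image (S.powerset.filter fun I => Ind G I ∧ v0 ∈ I)
    (fun I => I.card) ⟨{v0}, mem_filter.2 ⟨mem_powerset.2 (singleton_subset_iff.2 hv0), by
      intro x hx y hy
      rw [mem_singleton.1 hx, mem_singleton.1 hy]
      exact G.irrefl, mem_singleton_self _⟩⟩
  obtain ⟨h1, h2, h0⟩ := mem_filter.1 hI
  refine ⟨I, mem_powerset.1 h1, h2, fun v hv hvI => ?_, h0⟩
  by_contra hcon
  push Not at hcon
  have h3 : Ind G (insert v I) := by
    intro x hx y hy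
    rcases mem_insert.1 hx with hx | hx <;> rcases mem_insert.1 hy with hy | hy
    · rw [hx, hy]
      exact G.irrefl
    · rw [hx]
      exact fun h => hcon y hy h.symm
    · rw [hy]
      exact hcon x hx
    · exact h2 x hx y hy
  have h4 := hmax (insert v I) (mem_filter.2 ⟨mem_powerset.2
    (insert_subset hv (mem_powerset.1 h1)), h3, mem_insert_of_mem h0⟩)
  rw [card_insert_of_notMem hvI] at h4
  omega

/-- **PROPOSITION PAY with a square** -/
theorem pay_sumQ {P : Finset V} {A : V → Finset α} {B : V → Finset β} {own : V → α} {Y : Finset β}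
    (hown : ∀ v ∈ P, own v ∈ A v) (hinj : ∀ u ∈ P, ∀ v ∈ P, own u = own v → u = v)
    (hB : ∀ u ∈ P, ∀ v ∈ P, u ≠ v → ∀ c ∈ B u, c ∈ B v → G.Adj u v)
    (hY : ∀ v ∈ P, B v ⊆ Y) (hle : ∀ v ∈ P, (A v).card ≤ (B v).card) {v0 : V} (hv0 : v0 ∈ P) :
    ∑ v ∈ P, (A v).card + ∑ v ∈ P, (B v).card
        + ((A v0).card - (1 + dg G P v0)) * ((A v0).card - (1 + dg G P v0))
      ≤ ∑ c ∈ Y, ((P.filter fun v => c ∈ B v).biUnion A).card + ∑ v ∈ P, (1 + dg G P v) := by
  set M : β → Finset V := fun c => P.filter fun v => c ∈ B v with hM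
  set e : V → ℕ := fun v => (A v).card - (1 + dg G P v) with he
  have h1 : ∀ c, (M c).card ≤ ((M c).biUnion A).card := by
    intro c
    refine card_le_card_of_injOn own (fun v hv => ?_) (fun u hu v hv huv => ?_)
    · have hv' : v ∈ M c := by exact_mod_cast hv
      exact mem_biUnion.2 ⟨v, hv', hown v (mem_filter.1 hv').1⟩
    · have hu' : u ∈ M c := by exact_mod_cast hu
      have hv' : v ∈ M c := by exact_mod_cast hv
      exact hinj u (mem_filter.1 hu').1 v (mem_filter.1 hv').1 huv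
  have h2 : ∀ c, ∀ v ∈ M c, (M c).card ≤ 1 + dg G P v := by
    intro c v hv
    obtain ⟨hvP, hvc⟩ := mem_filter.1 hv
    have h3 : M c ⊆ insert v (P.filter fun w => G.Adj v w) := by
      intro u hu
      obtain ⟨huP, huc⟩ := mem_filter.1 hu
      by_cases huv : v = u
      · rw [huv]
        exact mem_insert_self _ _
      · exact mem_insert_of_mem (mem_filter.2 ⟨huP, hB v hvP u huP huv c hvc huc⟩)
    refine (card_le_card h3).trans ((card_insert_le _ _).trans ?_)
    unfold dg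
    omega
  have h3 : ∀ c, ∀ v ∈ M c, e v + (M c).card ≤ ((M c).biUnion A).card := by
    intro c v hv
    have h4 := h1 c
    have h5 := h2 c v hv
    have h6 : (A v).card ≤ ((M c).biUnion A).card :=
      card_le_card (subset_biUnion_of_mem A hv)
    simp only [he]
    omega
  obtain ⟨N, hN⟩ : ∃ N : ℕ, ∀ v ∈ P, e v ≤ N := ⟨∑ v ∈ P, e v, fun v hv =>
    single_le_sum (f := e) (fun _ _ => Nat.zero_le _) hv⟩
  have h4 : ∑ v ∈ P, e v = ∑ θ ∈ range N, (P.filter fun v => θ < e v).card := by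
    have e1 : ∀ v ∈ P, e v = ∑ θ ∈ range N, if θ < e v then 1 else 0 := by
      intro v hv
      rw [← card_filter]
      have e2 : (range N).filter (fun θ => θ < e v) = range (e v) := by
        ext θ
        rw [mem_filter, mem_range, mem_range]
        have := hN v hv
        omega
      rw [e2, card_range]
    rw [sum_congr rfl e1, sum_comm]
    exact sum_congr rfl fun θ _ => (card_filter _ _).symm
  have h5 : ∀ θ ∈ range N, (P.filter fun v => θ < e v).card + (if θ < e v0 then e v0 else 0)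
      ≤ (Y.filter fun c => ∃ v ∈ M c, θ < e v).card := by
    intro θ _
    set S := P.filter fun v => θ < e v with hS
    have hSP : S ⊆ P := filter_subset _ _
    have hI0 : ∃ I ⊆ S, Ind G I ∧ (∀ v ∈ S, v ∉ I → ∃ u ∈ I, G.Adj u v) ∧
        (θ < e v0 → v0 ∈ I) := by
      by_cases h0 : θ < e v0
      · obtain ⟨I, h1, h2, h3, h4⟩ := exists_domV (G := G)
          (show v0 ∈ S from mem_filter.2 ⟨hv0, h0⟩)
        exact ⟨I, h1, h2, h3, fun _ => h4⟩
      · obtain ⟨I, h1, h2, h3⟩ := exists_dom (G := G) S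
        exact ⟨I, h1, h2, h3, fun h => absurd h h0⟩
    obtain ⟨I, hIS, hI, hdom, hvI⟩ := hI0
    have h6 : S ⊆ I.biUnion fun u => insert u (P.filter fun w => G.Adj u w) := by
      intro v hv
      by_cases hvI : v ∈ I
      · exact mem_biUnion.2 ⟨v, hvI, mem_insert_self _ _⟩
      · obtain ⟨u, hu, huv⟩ := hdom v hv hvI
        exact mem_biUnion.2 ⟨u, hu, mem_insert_of_mem (mem_filter.2 ⟨hSP hv, huv⟩)⟩
    have h7 : S.card + (if θ < e v0 then e v0 else 0) ≤ ∑ u ∈ I, (B u).card := by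
      have e1 : S.card ≤ ∑ u ∈ I, (1 + dg G P u) := by
        refine (card_le_card h6).trans (card_biUnion_le.trans (sum_le_sum fun u _ => ?_))
        have h8 := card_insert_le u (P.filter fun w => G.Adj u w)
        unfold dg
        omega
      have e2 : (if θ < e v0 then e v0 else 0) = ∑ u ∈ I, if u = v0 then e v0 else 0 := by
        by_cases h0 : θ < e v0
        · rw [if_pos h0, sum_ite_eq' I v0, if_pos (hvI h0)]
        · rw [if_neg h0]
          symm
          refine sum_eq_zero fun u hu => ?_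
          rw [if_neg]
          rintro rfl
          exact h0 (mem_filter.1 (hIS hu)).2
      rw [e2]
      refine (Nat.add_le_add_right e1 _).trans ?_
      rw [← sum_add_distrib]
      refine sum_le_sum fun u hu => ?_
      have h9 := (mem_filter.1 (hIS hu)).2
      have h10 := hle u (hSP (hIS hu))
      simp only [he] at h9 ⊢
      split_ifs with h11
      · subst h11
        omega
      · omega
    have h8 : (I.biUnion B).card = ∑ u ∈ I, (B u).card := by
      refine card_biUnion fun u hu v hv huv => ?_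
      have hu' : u ∈ I := by exact_mod_cast hu
      have hv' : v ∈ I := by exact_mod_cast hv
      change Disjoint (B u) (B v)
      rw [disjoint_left]
      intro c hc hc'
      exact hI u hu' v hv' (hB u (hSP (hIS hu')) v (hSP (hIS hv')) huv c hc hc')
    rw [← h8] at h7
    refine h7.trans (card_le_card fun c hc => ?_)
    obtain ⟨u, hu, hcu⟩ := mem_biUnion.1 hc
    have h9 := hSP (hIS hu)
    exact mem_filter.2 ⟨hY u h9 hcu, u, mem_filter.2 ⟨h9, hcu⟩, (mem_filter.1 (hIS hu)).2⟩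
  have h5' : ∑ θ ∈ range N, (if θ < e v0 then e v0 else 0) = e v0 * e v0 := by
    have e1 : (range N).filter (fun θ => θ < e v0) = range (e v0) := by
      ext θ
      rw [mem_filter, mem_range, mem_range]
      have := hN v0 hv0
      omega
    rw [← sum_filter, e1, sum_const, card_range, smul_eq_mul]
  have h6 : ∑ θ ∈ range N, (Y.filter fun c => ∃ v ∈ M c, θ < e v).card
      = ∑ c ∈ Y, ((range N).filter fun θ => ∃ v ∈ M c, θ < e v).card := by
    have h7 := sum_card_bipartiteAbove_eq_sum_card_bipartiteBelow (s := range N) (t := Y)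
      (fun θ c => ∃ v ∈ M c, θ < e v)
    simpa only [bipartiteAbove, bipartiteBelow] using h7
  have h7 : ∀ c ∈ Y, ((range N).filter fun θ => ∃ v ∈ M c, θ < e v).card + (M c).card
      ≤ ((M c).biUnion A).card := by
    intro c _
    have h8 : ((range N).filter fun θ => ∃ v ∈ M c, θ < e v)
        ⊆ range (((M c).biUnion A).card - (M c).card) := by
      intro θ hθ
      obtain ⟨-, v, hv, h9⟩ := mem_filter.1 hθ
      have h10 := h3 c v hv
      rw [mem_range]
      omega
    have h9 := card_le_card h8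
    rw [card_range] at h9
    have h10 := h1 c
    omega
  have h8 : ∑ v ∈ P, (B v).card = ∑ c ∈ Y, (M c).card := by
    have h9 := sum_card_bipartiteAbove_eq_sum_card_bipartiteBelow (s := P) (t := Y)
      (fun v c => c ∈ B v)
    simp only [bipartiteAbove, bipartiteBelow] at h9
    rw [← h9]
    refine sum_congr rfl fun v hv => ?_
    congr 1
    ext c
    rw [mem_filter]
    exact ⟨fun h => ⟨hY v hv h, h⟩, fun h => h.2⟩
  have h9 : ∑ v ∈ P, (A v).card ≤ ∑ v ∈ P, e v + ∑ v ∈ P, (1 + dg G P v) := by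
    rw [← sum_add_distrib]
    refine sum_le_sum fun v _ => ?_
    simp only [he]
    omega
  have h10 : ∑ c ∈ Y, ((range N).filter fun θ => ∃ v ∈ M c, θ < e v).card + ∑ c ∈ Y, (M c).card
      ≤ ∑ c ∈ Y, ((M c).biUnion A).card := by
    rw [← sum_add_distrib]
    exact sum_le_sum h7
  have h11 : ∑ v ∈ P, e v + e v0 * e v0
      ≤ ∑ c ∈ Y, ((range N).filter fun θ => ∃ v ∈ M c, θ < e v).card := by
    rw [h4, ← h6, ← h5', ← sum_add_distrib]
    exact sum_le_sum h5
  have h12 : ∑ c ∈ Y, ((P.filter fun v => c ∈ B v).biUnion A).card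
      = ∑ c ∈ Y, ((M c).biUnion A).card := rfl
  have h13 : ((A v0).card - (1 + dg G P v0)) * ((A v0).card - (1 + dg G P v0)) = e v0 * e v0 := rfl
  rw [h8, h12, h13]
  omega

end Pay

section CU

variable {V : Type*} {G : SimpleGraph V} {r : ℕ}

/-- **(CU) with a square** -/
theorem PG.cuQ (hP : PG G r) {Cx Cy W : Finset V} (hx : Clq G Cx) (hy : Clq G Cy)
    (dxy : Disjoint Cx Cy) (dxW : Disjoint Cx W) (dyW : Disjoint Cy W) {K : Finset (V × V)}
    (k1 : ∀ e ∈ K, e.1 ∈ W) (k2 : ∀ e ∈ K, e.2 ∈ Cx) (k3 : ∀ e ∈ K, ¬ G.Adj e.1 e.2)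
    (i1 : ∀ e ∈ K, ∀ f ∈ K, e.1 = f.1 → e = f) (i2 : ∀ e ∈ K, ∀ f ∈ K, e.2 = f.2 → e = f)
    (hr : ∀ w ∈ W, ∀ a ∈ Cx, ∀ c ∈ Cy, ¬ G.Adj w a → ¬ G.Adj w c → G.Adj a c)
    (hcx : ∀ w ∈ W, ∀ w' ∈ W, w ≠ w' → ∀ a ∈ Cx, ¬ G.Adj w a → ¬ G.Adj w' a → G.Adj w w')
    (hcy : ∀ w ∈ W, ∀ w' ∈ W, w ≠ w' → ∀ c ∈ Cy, ¬ G.Adj w c → ¬ G.Adj w' c → G.Adj w w')
    (hle : ∀ e ∈ K, (msC G Cx e.1).card ≤ (msC G Cy e.1).card)
    (hU : Clq G (W \ K.image Prod.fst))
    (hUf : ∀ v ∈ W \ K.image Prod.fst, ∀ a ∈ Cx, ¬ G.Adj v a → ∃ e ∈ K, e.2 = a)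
    {y0 : V} (hy0 : y0 ∈ Cy) (hyW : ∀ w ∈ W, G.Adj y0 w) {v0 : V} (hv0 : v0 ∈ K.image Prod.fst) :
    ((r : ℤ) - 1 - Cy.card) * ((W.card : ℤ) - ((r : ℤ) - 1 - Cx.card))
      + (K.card : ℤ) * ((Cy.card : ℤ) - W.card) + ((W.card : ℤ) - K.card)
      + (((msC G Cx v0).card - K.card : ℕ) : ℤ) ^ 2 ≤ (r : ℤ) - 1 := by
  set P : Finset V := K.image Prod.fst with hPd
  set U : Finset V := W \ P with hUd
  have hPW : P ⊆ W := by
    intro v hv
    obtain ⟨e, he, rfl⟩ := mem_image.1 hv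
    exact k1 e he
  have hPc : P.card = K.card := card_image_of_injOn fun e he f hf hef =>
    i1 e (by exact_mod_cast he) f (by exact_mod_cast hf) hef
  have hdUP : Disjoint U P := sdiff_disjoint
  have hUPW : U ∪ P = W := sdiff_union_of_subset hPW
  have hWc : U.card + P.card = W.card := by rw [← card_union_of_disjoint hdUP, hUPW]
  -- own copies
  have hown : ∀ v ∈ P, ∃ a, (v, a) ∈ K := by
    intro v hv
    obtain ⟨e, he, rfl⟩ := mem_image.1 hv
    exact ⟨e.2, he⟩
  have hV : Nonempty V := ⟨y0⟩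
  choose! own hown using hown
  have hnx : ∀ v ∈ W, v ∉ Cx := fun v hv h => disjoint_left.1 dxW h hv
  have hny : ∀ v ∈ W, v ∉ Cy := fun v hv h => disjoint_left.1 dyW h hv
  have h1 := pay_sumQ (G := G) (P := P) (A := msC G Cx) (B := msC G Cy) (own := own) (Y := Cy)
    (fun v hv => mem_filter.2 ⟨k2 _ (hown v hv), k3 _ (hown v hv)⟩)
    (fun u hu v hv huv => by
      have e1 := i2 _ (hown u hu) _ (hown v hv) huv
      exact congrArg Prod.fst e1)
    (fun u hu v hv huv c hc hc' => hcy u (hPW hu) v (hPW hv) huv c (mem_filter.1 hc).1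
      (mem_filter.1 hc).2 (mem_filter.1 hc').2)
    (fun v _ => filter_subset _ _)
    (fun v hv => by
      obtain ⟨e, he, rfl⟩ := mem_image.1 hv
      exact hle e he) (v0 := v0) hv0
  -- the edges of the class points of `y`
  have h2 : ∀ c ∈ Cy, ((P.filter fun v => c ∈ msC G Cy v).biUnion (msC G Cx)).card
      + P.card + (if c = y0 then U.card else 0)
      ≤ dg G Cx c + dg G W c + (P.filter fun v => c ∈ msC G Cy v).card := by
    intro c hc
    have e1 : ((P.filter fun v => c ∈ msC G Cy v).biUnion (msC G Cx)).card ≤ dg G Cx c := by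
      refine card_le_card fun a ha => ?_
      obtain ⟨v, hv, hav⟩ := mem_biUnion.1 ha
      obtain ⟨hv1, hv2⟩ := mem_filter.1 hv
      obtain ⟨ha1, ha2⟩ := mem_filter.1 hav
      exact mem_filter.2 ⟨ha1, (hr v (hPW hv1) a ha1 c hc ha2 (mem_filter.1 hv2).2).symm⟩
    have e2 : dg G W c = dg G U c + dg G P c := by
      rw [← hUPW]
      unfold dg
      rw [filter_union, card_union_of_disjoint (disjoint_filter_filter hdUP)]
    have e3 : P.card ≤ dg G P c + (P.filter fun v => c ∈ msC G Cy v).card := by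
      have e4 : P ⊆ (P.filter fun w => G.Adj c w) ∪ (P.filter fun v => c ∈ msC G Cy v) := by
        intro v hv
        by_cases h : G.Adj c v
        · exact mem_union_left _ (mem_filter.2 ⟨hv, h⟩)
        · exact mem_union_right _ (mem_filter.2 ⟨hv, mem_filter.2 ⟨hc, fun h' => h h'.symm⟩⟩)
      exact (card_le_card e4).trans (card_union_le _ _)
    have e4 : (if c = y0 then U.card else 0) ≤ dg G U c := by
      split_ifs with h
      · rw [h]
        refine card_le_card fun w hw => mem_filter.2 ⟨hw, hyW w (mem_sdiff.1 hw).1⟩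
      · exact Nat.zero_le _
    omega
  have h3 := sum_le_sum h2
  rw [sum_add_distrib, sum_add_distrib, sum_add_distrib, sum_add_distrib, sum_ite_eq' Cy y0,
    if_pos hy0, sum_const, smul_eq_mul] at h3
  have h4 : ∑ c ∈ Cy, (P.filter fun v => c ∈ msC G Cy v).card = ∑ v ∈ P, (msC G Cy v).card := by
    have h9 := sum_card_bipartiteAbove_eq_sum_card_bipartiteBelow (s := P) (t := Cy)
      (fun v c => c ∈ msC G Cy v)
    simp only [bipartiteAbove, bipartiteBelow] at h9
    rw [← h9]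
    refine sum_congr rfl fun v hv => ?_
    congr 1
    ext c
    rw [mem_filter]
    exact ⟨fun h => h.2, fun h => ⟨(mem_filter.1 h).1, h⟩⟩
  -- the arcs
  have h5 : ∀ v ∈ W, nd G Cx v = (msC G Cx v).card := by
    intro v hv
    unfold nd msC
    congr 1
    ext a
    rw [mem_filter, mem_filter]
    refine ⟨fun h => ⟨h.1, h.2.2⟩, fun h => ⟨h.1, fun h' => hnx v hv (h' ▸ h.1), h.2⟩⟩
  have h6 : ∑ w ∈ W, nd G Cx w = ∑ v ∈ U, (msC G Cx v).card + ∑ v ∈ P, (msC G Cx v).card := by
    rw [sum_congr rfl h5, ← hUPW, sum_union hdUP]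
  have h7 : ∑ v ∈ U, ((msC G Cx v).card + nd G P v) ≤ U.card * K.card := by
    have e1 : ∀ v ∈ U, (msC G Cx v).card + nd G P v ≤ K.card := by
      intro v hv
      have hvW := (mem_sdiff.1 hv).1
      refine used_le (fun a ha => hUf v hv a (mem_filter.1 ha).1 (mem_filter.1 ha).2)
        (fun a ha => (mem_filter.1 ha).2) fun e he hve => ?_
      refine hcx v hvW e.1 (k1 e he) (fun h => ?_) e.2 (k2 e he) hve (k3 e he)
      exact (mem_sdiff.1 hv).2 (h ▸ mem_image_of_mem _ he)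
    have := sum_le_card_nsmul U _ _ e1
    rwa [smul_eq_mul] at this
  rw [sum_add_distrib] at h7
  have h8 : NE G W = 2 * ∑ v ∈ U, nd G P v + NE G P := by
    have e1 := NE_union (G := G) hdUP.symm
    rw [union_comm, hUPW, NE_clq hU] at e1
    omega
  have h9 := E_add_NE (G := G) P
  have h10 : ∑ v ∈ P, (1 + dg G P v) = P.card + E G P := by
    rw [sum_add_distrib, sum_const, smul_eq_mul, mul_one]
    rfl
  have h11 := hP.s1_ne hx hy dxy dxW dyW
  rw [h10, ← h4] at h1
  have h12 : (∑ c ∈ Cy, (dg G Cx c : ℤ) + ∑ c ∈ Cy, (dg G W c : ℤ))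
      = ((∑ c ∈ Cy, dg G Cx c + ∑ c ∈ Cy, dg G W c : ℕ) : ℤ) := by push_cast; rfl
  have h13 : ∑ w ∈ W, (nd G Cx w : ℤ) = ((∑ w ∈ W, nd G Cx w : ℕ) : ℤ) := by push_cast; rfl
  rw [h12, h13, h6, h8] at h11
  have g1 : (U.card : ℤ) + K.card = W.card := by exact_mod_cast (hPc ▸ hWc)
  have g3 : ((msC G Cx v0).card - K.card) * ((msC G Cx v0).card - K.card)
      ≤ ((msC G Cx v0).card - (1 + dg G P v0)) * ((msC G Cx v0).card - (1 + dg G P v0)) := by
    have e1 : 1 + dg G P v0 ≤ K.card := by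
      rw [← hPc]
      have e2 : (P.filter fun w => G.Adj v0 w) ⊆ P.erase v0 := by
        intro w hw
        obtain ⟨hw1, hw2⟩ := mem_filter.1 hw
        exact mem_erase.2 ⟨hw2.ne', hw1⟩
      have e3 := card_le_card e2
      have e4 := card_erase_add_one hv0
      unfold dg
      omega
    exact Nat.mul_le_mul (by omega) (by omega)
  have h1' := (Nat.add_le_add_left g3 _).trans h1
  have g2 : (NE G P : ℤ) ≥ 0 := Int.natCast_nonneg _
  rw [hPc] at h9 h3 h1'
  obtain ⟨q, hq⟩ : ∃ q, q = (msC G Cx v0).card - K.card := ⟨_, rfl⟩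
  rw [← hq] at h1' ⊢
  zify at h1' h3 h7
  push_cast at h11
  nlinarith [g1, g2, h1', h3, h7, h9, h11]

end CU

section Frame

variable {V : Type*} {G : SimpleGraph V} {Z T : Finset V} {hm : V → V} {r m n p : ℕ}

/-- a member of a host misses its own class at most as often as the class of its tail -/
lemma WCoreK.ms_le (hp : 2 * r ≤ p) (h : WCoreK G Z T r m n p hm) {x y v : V} (hx : x ∈ T)
    (hy : y ∈ T) (hxy : x ≠ y) (hv : v ∈ hz G Z T hm x) (hvy : tlo G T hm v = y) :
    (msC G (cz G Z T hm x) v).card ≤ (msC G (cz G Z T hm y) v).card := by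
  have hF := h.F.toPFrame
  have hC := h.csys
  have h1 : v ∈ Z.filter fun v => hm v = x := (mem_HP.1 hv).1
  obtain ⟨h2, h3⟩ := mem_filter.1 h1
  have h4 := hC.ends_of_tlo h.hh hx hv hvy
  have h5 : y ∈ rws G T v := by
    rw [rws_BB (h.hsys.HP_BB hF h.ok hv), h4.2]
    simp
  have h6 := h.H.kap_plain hF h.hmr hp h.hsys h2 h3 hy hxy.symm h5
  have h7 : ∀ D : Finset V, v ∉ D → nd G D v = (msC G D v).card := by
    intro D hD'
    unfold nd msC
    congr 1
    ext a
    rw [mem_filter, mem_filter]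
    exact ⟨fun h => ⟨h.1, h.2.2⟩, fun h => ⟨h.1, fun h' => hD' (h' ▸ h.1), h.2⟩⟩
  rw [h7 _ fun h8 => disjoint_left.1 (hC.dCH hx hx) h8 hv,
    h7 _ fun h8 => disjoint_left.1 (hC.dCH hy hx) h8 hv] at h6
  exact h6

/-- **the joint cell test** for missing pairs of one cell -/
theorem WCoreK.jnt (hp : 2 * r ≤ p) (h : WCoreK G Z T r m n p hm) {x y : V} (hx : x ∈ T)
    (hy : y ∈ T) (hxy : x ≠ y) {K : Finset (V × V)} (k0 : ∀ e ∈ K, e.1 ∈ hz G Z T hm x)
    (k1 : ∀ e ∈ K, tlo G T hm e.1 = y) (k2 : ∀ e ∈ K, e.2 ∈ cz G Z T hm x)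
    (k3 : ∀ e ∈ K, ¬ G.Adj e.1 e.2) (i1 : ∀ e ∈ K, ∀ f ∈ K, e.1 = f.1 → e = f)
    (i2 : ∀ e ∈ K, ∀ f ∈ K, e.2 = f.2 → e = f) {v : V} (hv : v ∈ K.image Prod.fst) :
    ((K.card : ℤ) - 1) * ((r : ℤ) - 1)
      + (((msC G (cz G Z T hm x) v).card - K.card : ℕ) : ℤ) ^ 2
      ≤ tI G Z T hm r Z x * tI G Z T hm r Z y + (K.card : ℤ) ^ 2 := by
  have hF := h.F.toPFrame
  have hC := h.csys
  have hcell := hC.cellD hF hx hy hxy
  have hself : y ∈ cz G Z T hm y := by
    refine hC.ctr_CP hF (fun y hy => ?_) hy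
    have h1 := (h.ok y (hF.sub hy)).2
    rw [rws_of_mem hy, mem_singleton] at h1
    exact mem_filter.2 ⟨hF.sub hy, h1⟩
  have hW : ∀ w ∈ K.image Prod.fst, w ∈ hz G Z T hm x ∧ tlo G T hm w = y := by
    intro w hw
    obtain ⟨e, he, rfl⟩ := mem_image.1 hw
    exact ⟨k0 e he, k1 e he⟩
  have hWc : (K.image Prod.fst).card = K.card := card_image_of_injOn fun e he f hf hef =>
    i1 e (by exact_mod_cast he) f (by exact_mod_cast hf) hef
  have hD : ∀ w ∈ K.image Prod.fst, w ∈ Dbl G Z T x y := fun w hw =>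
    hC.mem_Dbl_of_tlo h.hh hx (hW w hw).1 (hW w hw).2
  have h1 := h.gp.P.cuQ (Cx := cz G Z T hm x) (Cy := cz G Z T hm y) (W := K.image Prod.fst)
    (K := K) (hC.CP_clq hF hx) (hC.CP_clq hF hy) (h.wsysT.dCC x hx y hy hxy)
    ((hC.dCH hx hx).mono_right fun w hw => (hW w hw).1)
    ((hC.dCH hy hx).mono_right fun w hw => (hW w hw).1)
    (fun e he => mem_image_of_mem _ he) k2 k3 i1 i2
    (fun w hw => hcell.rect w (hD w hw)) (fun w hw w' hw' => hcell.comC w (hD w hw) w' (hD w' hw'))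
    (fun w hw w' hw' => hcell.comD w (hD w hw) w' (hD w' hw'))
    (fun e he => h.ms_le hp hx hy hxy (k0 e he) (k1 e he))
    (fun w hw => by
      rw [sdiff_self] at hw
      exact absurd hw (notMem_empty w))
    (fun w hw => by
      rw [sdiff_self] at hw
      exact absurd hw (notMem_empty w)) hself
    (fun w hw => by
      have h4 := hC.ends_of_tlo h.hh hx (hW w hw).1 (hW w hw).2
      have h5 : y ∈ rws G T w := by
        rw [rws_BB (h.hsys.HP_BB hF h.ok (hW w hw).1), h4.2]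
        simp
      rcases (mem_rws.1 h5).2 with h6 | h6
      · exact absurd (h6 ▸ hself) fun h8 => disjoint_left.1 (hC.dCH hy hx) h8 (hW w hw).1
      · exact h6.2.symm) (v0 := v) hv
  rw [hWc] at h1
  have e1 : ((cz G Z T hm x).card : ℤ) = (r : ℤ) - 1 - tI G Z T hm r Z x := card_CP_eq Z x
  have e2 : ((cz G Z T hm y).card : ℤ) = (r : ℤ) - 1 - tI G Z T hm r Z y := card_CP_eq Z y
  rw [e1, e2] at h1
  linarith

/-- **the joint cell test, PC pairs** -/
theorem WCoreK.jntP (hp : 2 * r ≤ p) (h : WCoreK G Z T r m n p hm) {x y : V} (hx : x ∈ T)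
    (hy : y ∈ T) (hxy : x ≠ y) {Q : Finset (V × V)} {Ps : Finset (Finset V)}
    (hQ : Pk G (cz G Z T hm x) (hz G Z T hm x) (tlo G T hm) Q Ps) {e : V × V} (he : e ∈ Q)
    (hey : tlo G T hm e.1 = y) :
    (((pcs (tlo G T hm) Q y).card : ℤ) - 1) * ((r : ℤ) - 1)
      + ((((frC G (cz G Z T hm x) (tlo G T hm) Q e.1).card + 1)
        - (pcs (tlo G T hm) Q y).card : ℕ) : ℤ) ^ 2
      ≤ tI G Z T hm r Z x * tI G Z T hm r Z y + ((pcs (tlo G T hm) Q y).card : ℤ) ^ 2 := by
  have hmem : ∀ f ∈ pcs (tlo G T hm) Q y, f ∈ Q ∧ tlo G T hm f.1 = y := fun f hf => mem_pcs.1 hf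
  have h1 := h.jnt hp hx hy hxy (K := pcs (tlo G T hm) Q y)
    (fun f hf => hQ.bH f (hmem f hf).1) (fun f hf => (hmem f hf).2)
    (fun f hf => hQ.bC f (hmem f hf).1) (fun f hf => hQ.bN f (hmem f hf).1)
    (fun f hf g hg => hQ.b1 f (hmem f hf).1 g (hmem g hg).1)
    (fun f hf g hg hfg => hQ.b2 f (hmem f hf).1 g (hmem g hg).1 hfg
      ((hmem f hf).2.trans (hmem g hg).2.symm)) (v := e.1)
    (mem_image_of_mem _ (mem_pcs.2 ⟨he, hey⟩))
  have h2 : (frC G (cz G Z T hm x) (tlo G T hm) Q e.1).card + 1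
      ≤ (msC G (cz G Z T hm x) e.1).card := by
    have h3 : e.2 ∉ frC G (cz G Z T hm x) (tlo G T hm) Q e.1 := fun h4 =>
      (mem_frC.1 h4).2.2 e he rfl rfl
    rw [← card_insert_of_notMem h3]
    refine card_le_card fun a ha => ?_
    rcases mem_insert.1 ha with rfl | ha
    · exact mem_filter.2 ⟨hQ.bC e he, hQ.bN e he⟩
    · obtain ⟨h4, h5, -⟩ := mem_frC.1 ha
      exact mem_filter.2 ⟨h4, h5⟩
  have h3 : ((((frC G (cz G Z T hm x) (tlo G T hm) Q e.1).card + 1)
        - (pcs (tlo G T hm) Q y).card : ℕ) : ℤ) ^ 2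
      ≤ (((msC G (cz G Z T hm x) e.1).card - (pcs (tlo G T hm) Q y).card : ℕ) : ℤ) ^ 2 := by
    refine pow_le_pow_left₀ (Nat.cast_nonneg _) ?_ 2
    exact_mod_cast Nat.sub_le_sub_right h2 _
  linarith

/-- **the joint cell test, PC pairs and N-ends** with at least `f` free points each; `v` one of the
N-ends -/
theorem WCoreK.jntN (hp : 2 * r ≤ p) (h : WCoreK G Z T r m n p hm) {x y : V} (hx : x ∈ T)
    (hy : y ∈ T) (hxy : x ≠ y) {Q : Finset (V × V)} {Ps : Finset (Finset V)}
    (hQ : Pk G (cz G Z T hm x) (hz G Z T hm x) (tlo G T hm) Q Ps) {N : Finset V} {f : ℕ}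
    (hf : 1 ≤ f) (hN : N ⊆ nez G (cz G Z T hm x) (hz G Z T hm x) (tlo G T hm) Q y)
    (hNf : ∀ v ∈ N, f ≤ (frC G (cz G Z T hm x) (tlo G T hm) Q v).card) {v : V} (hv : v ∈ N)
    {k : ℕ} (hk : k = (pcs (tlo G T hm) Q y).card + min N.card f) :
    ((k : ℤ) - 1) * ((r : ℤ) - 1)
      + (((frC G (cz G Z T hm x) (tlo G T hm) Q v).card - k : ℕ) : ℤ) ^ 2
      ≤ tI G Z T hm r Z x * tI G Z T hm r Z y + (k : ℤ) ^ 2 := by
  set C := cz G Z T hm x with hCd
  set H := hz G Z T hm x with hHd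
  set P := pcs (tlo G T hm) Q y with hPd
  have hmem : ∀ f ∈ P, f ∈ Q ∧ tlo G T hm f.1 = y := fun f hf => mem_pcs.1 hf
  have hNH : ∀ w ∈ N, w ∈ H ∧ tlo G T hm w = y ∧ ∀ e ∈ Q, e.1 ≠ w := by
    intro w hw
    obtain ⟨h1, h2⟩ := mem_filter.1 (hN hw)
    obtain ⟨h3, h4⟩ := mem_sdiff.1 (mem_Nend.1 h1).1
    exact ⟨h3, h2, fun e he hew => h4 (hew ▸ mem_image_of_mem _ he)⟩
  obtain ⟨a, ha⟩ : (frC G C (tlo G T hm) Q v).Nonempty := by
    rw [← card_pos]
    exact lt_of_lt_of_le hf (hNf v hv)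
  have ha' := mem_frC.1 ha
  have hvP : ∀ e ∈ P, e.1 ≠ v := fun e he => (hNH v hv).2.2 e (hmem e he).1
  have haP : ∀ e ∈ P, e.2 ≠ a := fun e he h1 =>
    ha'.2.2 e (hmem e he).1 h1 ((hmem e he).2.trans (hNH v hv).2.1.symm)
  -- the first pairs
  have hK0 : ∀ e ∈ insert (v, a) P, e = (v, a) ∨ e ∈ P := fun e he => mem_insert.1 he
  obtain ⟨K, hK0K, k1, k2, k3, j1, j2, hUf⟩ := exists_ext (G := G)
    (X := P.image Prod.fst ∪ N) (C := C) (K0 := insert (v, a) P)
    (by
      intro e he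
      rcases hK0 e he with rfl | he
      · exact mem_union_right _ hv
      · exact mem_union_left _ (mem_image_of_mem _ he))
    (by
      intro e he
      rcases hK0 e he with rfl | he
      · exact ha'.1
      · exact hQ.bC e (hmem e he).1)
    (by
      intro e he
      rcases hK0 e he with rfl | he
      · exact ha'.2.1
      · exact hQ.bN e (hmem e he).1)
    (by
      intro e he g hg heg
      rcases hK0 e he with rfl | he <;> rcases hK0 g hg with rfl | hg
      · rfl
      · exact absurd heg.symm (hvP g hg)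
      · exact absurd heg (hvP e he)
      · exact hQ.b1 e (hmem e he).1 g (hmem g hg).1 heg)
    (by
      intro e he g hg heg
      rcases hK0 e he with rfl | he <;> rcases hK0 g hg with rfl | hg
      · rfl
      · exact absurd heg.symm (haP g hg)
      · exact absurd heg (haP e he)
      · exact hQ.b2 e (hmem e he).1 g (hmem g hg).1 heg ((hmem e he).2.trans (hmem g hg).2.symm))
  have hXH : ∀ w ∈ P.image Prod.fst ∪ N, w ∈ H ∧ tlo G T hm w = y := by
    intro w hw
    rcases mem_union.1 hw with hw | hw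
    · obtain ⟨e, he, rfl⟩ := mem_image.1 hw
      exact ⟨hQ.bH e (hmem e he).1, (hmem e he).2⟩
    · exact ⟨(hNH w hw).1, (hNH w hw).2.1⟩
  have hPK : P ⊆ K := (subset_insert _ _).trans hK0K
  -- at least `k` pairs
  have hkK : k ≤ K.card := by
    rw [hk]
    have e1 : P.card + (K \ P).card = K.card := by
      rw [card_sdiff_of_subset hPK]
      have := card_le_card hPK
      omega
    suffices min N.card f ≤ (K \ P).card by omega
    have e2 : ∀ e ∈ K \ P, e.1 ∈ N := by
      intro e he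
      obtain ⟨h1, h2⟩ := mem_sdiff.1 he
      rcases mem_union.1 (k1 e h1) with h3 | h3
      · obtain ⟨g, hg, hge⟩ := mem_image.1 h3
        exact absurd (j1 g (hPK hg) e h1 hge ▸ hg) h2
      · exact h3
    by_cases h1 : N ⊆ K.image Prod.fst
    · have h2 : N.card ≤ (K \ P).card := by
        have h3 : N ⊆ (K \ P).image Prod.fst := by
          intro w hw
          obtain ⟨e, he, hew⟩ := mem_image.1 (h1 hw)
          refine mem_image.2 ⟨e, mem_sdiff.2 ⟨he, fun h4 => ?_⟩, hew⟩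
          exact (hNH w hw).2.2 e (hmem e h4).1 hew
        exact (card_le_card h3).trans card_image_le
      exact (min_le_left _ _).trans h2
    · obtain ⟨w, hw, hwK⟩ := not_subset.1 h1
      have h2 : frC G C (tlo G T hm) Q w ⊆ (K \ P).image Prod.snd := by
        intro b hb
        obtain ⟨hb1, hb2, hb3⟩ := mem_frC.1 hb
        obtain ⟨e, he, heb⟩ := hUf w (mem_sdiff.2 ⟨mem_union_right _ hw, hwK⟩) b hb1 hb2
        refine mem_image.2 ⟨e, mem_sdiff.2 ⟨he, fun h4 => ?_⟩, heb⟩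
        exact hb3 e (hmem e h4).1 heb ((hmem e h4).2.trans (hNH w hw).2.1.symm)
      have h3 := (hNf w hw).trans ((card_le_card h2).trans card_image_le)
      exact (min_le_right _ _).trans h3
  -- exactly `k` pairs with the pair of `v`
  have hk0 : (insert (v, a) P).card ≤ k := by
    have e1 := card_insert_le (v, a) P
    have e2 : 1 ≤ N.card := card_pos.2 ⟨v, hv⟩
    have e3 : 1 ≤ min N.card f := le_min e2 hf
    omega
  obtain ⟨L, hL0, hLK, hLc⟩ := exists_subsuperset_card_eq hK0K hk0 hkK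
  have h1 := h.jnt hp hx hy hxy (K := L) (fun e he => (hXH _ (k1 e (hLK he))).1)
    (fun e he => (hXH _ (k1 e (hLK he))).2) (fun e he => k2 e (hLK he))
    (fun e he => k3 e (hLK he)) (fun e he g hg => j1 e (hLK he) g (hLK hg))
    (fun e he g hg => j2 e (hLK he) g (hLK hg)) (v := v)
    (mem_image.2 ⟨(v, a), hL0 (mem_insert_self _ _), rfl⟩)
  rw [hLc] at h1
  have h2 : (frC G C (tlo G T hm) Q v).card ≤ (msC G C v).card := by
    refine card_le_card fun b hb => ?_
    obtain ⟨h4, h5, -⟩ := mem_frC.1 hb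
    exact mem_filter.2 ⟨h4, h5⟩
  have h3 : (((frC G C (tlo G T hm) Q v).card - k : ℕ) : ℤ) ^ 2
      ≤ (((msC G C v).card - k : ℕ) : ℤ) ^ 2 := by
    refine pow_le_pow_left₀ (Nat.cast_nonneg _) ?_ 2
    exact_mod_cast Nat.sub_le_sub_right h2 _
  linarith

end Frame

end Pool.Agent.Lib.MP_f04ccf_co
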