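import Pool.Agent.Lib.MP_f04ccf_co.M.RowQ
import Pool.Agent.Lib.MP_f04ccf_co.M.PayQ
import Pool.Agent.Lib.MP_f04ccf_co.M.CellJ
import Pool.Agent.Lib.MP_f04ccf_co.M.SameH

/-!
MP_f04ccf_co, PLAN W, version [B]: the free arcs item by item.
`nui y u`: the free arcs of the members of the item `u` with tail `y`.  `fjk_eq`, `Pk.nxk_le_nui`: the free
arcs of the PC pairs, the excess of the N-ends.  `Pk.nui_one`: an item of value one has one member with all
of them.  `Pk.iar_nui`, `Pk.ar_le`: the arcs of an item, of all members.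
-/

set_option autoImplicit false

namespace Pool.Agent.Lib.MP_f04ccf_co

open Finset

attribute [local instance] Classical.propDecidable

section Nu

variable {ι V : Type*} {G : SimpleGraph V} {C H : Finset V} {tl : V → ι}
  {B : Finset (V × V)} {Ps : Finset (Finset V)}

variable (G C tl B) in
/-- the free arcs of the members of an item with tail `y` -/
noncomputable def nui (y : ι) (u : Itm V) : ℕ :=
  ∑ v ∈ (imem u).filter (fun v => tl v = y), (frC G C tl B v).card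

lemma nui_inr (y : ι) (e : V × V) :
    nui G C tl B y (Sum.inr e) = if tl e.1 = y then (frC G C tl B e.1).card else 0 := by
  unfold nui imem
  rw [filter_singleton]
  split_ifs
  · rw [sum_singleton]
  · rw [sum_empty]

lemma nui_inl (y : ι) (P : Finset V) :
    nui G C tl B y (Sum.inl P) = ∑ v ∈ P.filter (fun v => tl v = y), (frC G C tl B v).card := rfl

/-- all free arcs of an item -/
lemma sum_nui (Y : Finset ι) (u : Itm V) (hY : ∀ v ∈ imem u, tl v ∈ Y) :
    ∑ y ∈ Y, nui G C tl B y u = ∑ v ∈ imem u, (frC G C tl B v).card :=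
  sum_fiberwise_of_maps_to hY fun v => (frC G C tl B v).card

/-- the free arcs of the PC pairs with tail `y` over the items -/
lemma sum_ipc_nui (y : ι) :
    ∑ u ∈ pkf B Ps, (ipc u : ℤ) * nui G C tl B y u
      = ∑ e ∈ btl tl B y, ((frC G C tl B e.1).card : ℤ) := by
  unfold pkf
  rw [sum_disjSum]
  have h1 : ∑ P ∈ Ps.filter (fun P => 2 ≤ P.card),
      (ipc (Sum.inl P : Itm V) : ℤ) * nui G C tl B y (Sum.inl P : Itm V) = 0 :=
    sum_eq_zero fun P _ => by simp [ipc]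
  rw [h1, zero_add]
  unfold btl
  rw [sum_filter]
  refine sum_congr rfl fun e _ => ?_
  rw [nui_inr]
  by_cases h2 : tl e.1 = y
  · simp [ipc, h2]
  · simp [ipc, h2]

namespace Pk

/-- an N-end lies in a part with at least two members -/
lemma nend_part (h : Pk G C H tl B Ps) (hmin : ∀ B' Ps', Pk G C H tl B' Ps' → Ps.card ≤ Ps'.card)
    (h32 : ∀ v ∈ H, ∀ w ∈ H, ∀ a ∈ C, v ≠ w → tl v = tl w →
      ¬ G.Adj v a → ¬ G.Adj w a → G.Adj v w) {v : V} (hv : v ∈ Nend G C H tl B) :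
    ∃ P ∈ Ps, 2 ≤ P.card ∧ v ∈ P := by
  obtain ⟨h1, h2⟩ := mem_Nend.1 hv
  obtain ⟨h3, h4⟩ := mem_sdiff.1 h1
  rcases h.cov v h3 with ⟨e, he, hev⟩ | ⟨P, hP, hvP⟩
  · exact absurd (mem_image.2 ⟨e, he, hev⟩) h4
  · refine ⟨P, hP, ?_, hvP⟩
    obtain ⟨w, hw, hw2⟩ := h.home hmin h32 hP
    have h5 : w ≠ v := fun h6 => hw2 (h6 ▸ h2)
    exact one_lt_card.2 ⟨w, hw, v, hvP, h5⟩

/-- the free arcs of the N-ends with tail `y` over the items -/
lemma sum_nez_nui (h : Pk G C H tl B Ps) (hmin : ∀ B' Ps', Pk G C H tl B' Ps' → Ps.card ≤ Ps'.card)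
    (h32 : ∀ v ∈ H, ∀ w ∈ H, ∀ a ∈ C, v ≠ w → tl v = tl w →
      ¬ G.Adj v a → ¬ G.Adj w a → G.Adj v w) (y : ι) :
    ∑ v ∈ nez G C H tl B y, (frC G C tl B v).card
      ≤ ∑ P ∈ Ps.filter (fun P => 2 ≤ P.card), nui G C tl B y (Sum.inl P) := by
  have h1 : ∑ P ∈ Ps.filter (fun P => 2 ≤ P.card), nui G C tl B y (Sum.inl P)
      = ∑ v ∈ (Ps.filter fun P => 2 ≤ P.card).biUnion
          (fun P => P.filter fun v => tl v = y), (frC G C tl B v).card := by
    rw [sum_biUnion]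
    · rfl
    · intro P hP Q hQ hPQ
      have hP' := (mem_filter.1 (mem_coe.1 hP)).1
      have hQ' := (mem_filter.1 (mem_coe.1 hQ)).1
      exact (h.dis P hP' Q hQ' hPQ).mono (filter_subset _ _) (filter_subset _ _)
  rw [h1]
  refine sum_le_sum_of_subset ?_
  intro v hv
  obtain ⟨h2, h3⟩ := mem_filter.1 hv
  obtain ⟨P, hP, hP2, hvP⟩ := h.nend_part hmin h32 h2
  exact mem_biUnion.2 ⟨P, mem_filter.2 ⟨hP, hP2⟩, mem_filter.2 ⟨hvP, h3⟩⟩

lemma sum_pkf_inl (f : Itm V → ℤ) :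
    ∑ u ∈ pkf B Ps, (1 - (ipc u : ℤ)) * f u
      = ∑ P ∈ Ps.filter (fun P => 2 ≤ P.card), f (Sum.inl P) := by
  unfold pkf
  rw [sum_disjSum]
  have h1 : ∑ e ∈ B, (1 - (ipc (Sum.inr e : Itm V) : ℤ)) * f (Sum.inr e : Itm V) = 0 :=
    sum_eq_zero fun P _ => by simp [ipc]
  rw [h1, add_zero]
  exact sum_congr rfl fun P _ => by simp [ipc]

/-- **the excess of the N-ends with tail `y` over the items** -/
theorem nxk_le_nui (h : Pk G C H tl B Ps)
    (hmin : ∀ B' Ps', Pk G C H tl B' Ps' → Ps.card ≤ Ps'.card)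
    (h32 : ∀ v ∈ H, ∀ w ∈ H, ∀ a ∈ C, v ≠ w → tl v = tl w →
      ¬ G.Adj v a → ¬ G.Adj w a → G.Adj v w) (y : ι) :
    nxk G C H tl B y ≤ ∑ u ∈ pkf B Ps, (1 - (ipc u : ℤ)) * nui G C tl B y u := by
  have h1 := h.sum_nez_nui hmin h32 y
  have h2 : ∑ v ∈ nez G C H tl B y, ((frC G C tl B v).card : ℤ)
      ≤ ∑ P ∈ Ps.filter (fun P => 2 ≤ P.card), (nui G C tl B y (Sum.inl P) : ℤ) := by
    exact_mod_cast h1
  rw [sum_pkf_inl]
  have h3 : (0 : ℤ) ≤ (E G (nez G C H tl B y) : ℤ) / 2 :=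
    Int.ediv_nonneg (Nat.cast_nonneg _) (by norm_num)
  unfold nxk
  linarith

/-- **an item of value one has one member with all its free arcs towards `y`** -/
theorem nui_one (h : Pk G C H tl B Ps)
    (hmin : ∀ B' Ps', Pk G C H tl B' Ps' → Ps.card ≤ Ps'.card)
    (h32 : ∀ v ∈ H, ∀ w ∈ H, ∀ a ∈ C, v ≠ w → tl v = tl w →
      ¬ G.Adj v a → ¬ G.Adj w a → G.Adj v w) {u : Itm V} (hu : u ∈ pkf B Ps) (h1 : ivl u = 1)
    {y : ι} (hk : ikp tl y u ≠ 0) :
    ∃ v ∈ imem u, tl v = y ∧ nui G C tl B y u = (frC G C tl B v).card := by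
  rcases u with P | e
  · obtain ⟨hP, -⟩ := inl_mem_pkf.1 hu
    have hc : P.card = 2 := by
      simp only [ivl] at h1
      omega
    obtain ⟨w, hw, hw2⟩ := h.home hmin h32 hP
    rw [not_nonempty_iff_eq_empty] at hw2
    obtain ⟨w', hww, hP2⟩ : ∃ w', w' ≠ w ∧ P = {w, w'} := by
      obtain ⟨a, b, hab, hPab⟩ := card_eq_two.1 hc
      rw [hPab] at hw
      rcases mem_insert.1 hw with rfl | h3
      · exact ⟨b, hab.symm, hPab⟩
      · rw [mem_singleton.1 h3]
        exact ⟨a, hab, by rw [hPab, pair_comm]⟩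
    have hs : ∀ T : Finset V, (∀ v ∈ T, v = w ∨ v = w') → w' ∈ T →
        ∑ v ∈ T, (frC G C tl B v).card = (frC G C tl B w').card := by
      intro T hT hw'
      rw [← add_sum_erase T _ hw']
      have h3 : ∑ v ∈ T.erase w', (frC G C tl B v).card = 0 := by
        refine sum_eq_zero fun v hv => ?_
        rcases hT v (mem_of_mem_erase hv) with rfl | h4
        · rw [hw2, card_empty]
        · exact absurd h4 (ne_of_mem_erase hv)
      rw [h3, add_zero]
    have hPm : ∀ v ∈ P, v = w ∨ v = w' := fun v hv => by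
      rw [hP2] at hv
      rcases mem_insert.1 hv with h3 | h3
      · exact Or.inl h3
      · exact Or.inr (mem_singleton.1 h3)
    have hwP' : w' ∈ P := by
      rw [hP2]
      exact mem_insert_of_mem (mem_singleton_self _)
    by_cases hy : tl w' = y
    · refine ⟨w', hwP', hy, ?_⟩
      rw [nui_inl]
      exact hs _ (fun v hv => hPm v (mem_filter.1 hv).1) (mem_filter.2 ⟨hwP', hy⟩)
    · have h3 : ∃ v ∈ P, tl v = y := by
        by_contra h4
        push Not at h4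
        apply hk
        have h5 : tlp tl P y = ∅ := filter_eq_empty_iff.2 fun v hv => h4 v hv
        have h6 : (∅ : Finset V) ≠ P := fun h7 => by
          rw [← h7] at hw
          exact absurd hw (notMem_empty _)
        simp only [ikp, h5]
        rw [if_neg h6, card_empty]
      obtain ⟨v, hv, hvy⟩ := h3
      rcases hPm v hv with rfl | h4
      · refine ⟨v, hv, hvy, ?_⟩
        rw [nui_inl, hw2, card_empty]
        refine sum_eq_zero fun z hz => ?_
        obtain ⟨h5, h6⟩ := mem_filter.1 hz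
        rcases hPm z h5 with rfl | h7
        · rw [hw2, card_empty]
        · exact absurd (h7 ▸ h6) hy
      · exact absurd (h4 ▸ hvy) hy
  · have h3 : tl e.1 = y := by
      by_contra h4
      exact hk (by simp [ikp, h4])
    exact ⟨e.1, mem_singleton_self _, h3, by rw [nui_inr, if_pos h3]⟩

/-- the used missed points of a member come from the PC pairs with its tail -/
lemma usC_sub (v : V) : usC G C tl B v ⊆ (btl tl B (tl v)).image Prod.snd := by
  intro a ha
  obtain ⟨-, -, e, he, -, hea, het⟩ := mem_usC.1 ha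
  exact mem_image.2 ⟨e, mem_btl.2 ⟨he, het⟩, hea⟩

/-- the used missed points of the members of one part -/
lemma sum_usC_part (h : Pk G C H tl B Ps) (h32 : ∀ v ∈ H, ∀ w ∈ H, ∀ a ∈ C, v ≠ w → tl v = tl w →
      ¬ G.Adj v a → ¬ G.Adj w a → G.Adj v w) {P : Finset V} (hP : P ∈ Ps) (y : ι) :
    ∑ v ∈ P.filter (fun v => tl v = y), (usC G C tl B v).card ≤ (btl tl B y).card := by
  have h1 : ((P.filter fun v => tl v = y).biUnion fun v => usC G C tl B v).card
      = ∑ v ∈ P.filter (fun v => tl v = y), (usC G C tl B v).card := by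
    refine card_biUnion fun v hv w hw hvw => disjoint_left.2 fun a ha ha' => ?_
    obtain ⟨h2, h3⟩ := mem_filter.1 hv
    obtain ⟨h4, h5⟩ := mem_filter.1 hw
    obtain ⟨h6, h7, -⟩ := mem_usC.1 ha
    obtain ⟨-, h8, -⟩ := mem_usC.1 ha'
    exact h.ind P hP v h2 w h4 (h32 v (h.sub P hP h2) w (h.sub P hP h4) a h6 hvw
      (h3.trans h5.symm) h7 h8)
  rw [← h1]
  refine (card_le_card ?_).trans (card_image_le (s := btl tl B y) (f := Prod.snd))
  intro a ha
  obtain ⟨v, hv, hav⟩ := mem_biUnion.1 ha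
  have h2 := usC_sub v hav
  rwa [(mem_filter.1 hv).2] at h2

/-- the used missed points of a member of a PC pair -/
lemma card_usC_pc (h : Pk G C H tl B Ps) {e : V × V} (he : e ∈ B) :
    (usC G C tl B e.1).card + 1 ≤ (btl tl B (tl e.1)).card := by
  have h1 : usC G C tl B e.1 ⊆ ((btl tl B (tl e.1)).erase e).image Prod.snd := by
    intro a ha
    obtain ⟨-, -, f, hf, hfe, hfa, hft⟩ := mem_usC.1 ha
    exact mem_image.2 ⟨f, mem_erase.2 ⟨fun h2 => hfe (by rw [h2]), mem_btl.2 ⟨hf, hft⟩⟩, hfa⟩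
  have h2 := (card_le_card h1).trans card_image_le
  have h3 := card_erase_add_one (mem_btl.2 ⟨he, rfl⟩ : e ∈ btl tl B (tl e.1))
  omega

/-- **the arcs of an item** -/
theorem iar_nui (h : Pk G C H tl B Ps) (h32 : ∀ v ∈ H, ∀ w ∈ H, ∀ a ∈ C, v ≠ w → tl v = tl w →
      ¬ G.Adj v a → ¬ G.Adj w a → G.Adj v w) {Y : Finset ι} (hY : ∀ v ∈ H, tl v ∈ Y) {u : Itm V}
    (hu : u ∈ pkf B Ps) :
    (iar G C u : ℤ) ≤ ipc u + ∑ y ∈ Y, ((nui G C tl B y u : ℤ)
      + if ikp tl y u = 0 then 0 else ((btl tl B y).card : ℤ) - ipc u) := by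
  rcases u with P | e
  · obtain ⟨hP, hP2⟩ := inl_mem_pkf.1 hu
    have hPH : ∀ v ∈ P, v ∈ H \ B.image Prod.fst := fun v hv => by
      refine mem_sdiff.2 ⟨h.sub P hP hv, fun h1 => ?_⟩
      obtain ⟨e, he, hev⟩ := mem_image.1 h1
      exact h.dw e he P hP (hev ▸ hv)
    have h1 : (iar G C (Sum.inl P : Itm V) : ℤ)
        ≤ ∑ v ∈ P, ((frC G C tl B v).card : ℤ) + ∑ v ∈ P, ((usC G C tl B v).card : ℤ) := by
      rw [← sum_add_distrib]
      unfold iar
      rw [Nat.cast_sum]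
      refine sum_le_sum fun v hv => ?_
      exact_mod_cast nd_U (C := C) (tl := tl) (hPH v hv)
    have h2 : ∑ v ∈ P, ((frC G C tl B v).card : ℤ)
        = ∑ y ∈ Y, (nui G C tl B y (Sum.inl P : Itm V) : ℤ) := by
      have := sum_nui (G := G) (C := C) (B := B) (tl := tl) Y (Sum.inl P : Itm V)
        (fun v hv => hY v (h.sub P hP hv))
      exact_mod_cast this.symm
    have h3 : ∑ v ∈ P, ((usC G C tl B v).card : ℤ)
        ≤ ∑ y ∈ Y, (if ikp tl y (Sum.inl P : Itm V) = 0 then 0 else ((btl tl B y).card : ℤ)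
          - ipc (Sum.inl P : Itm V)) := by
      rw [← sum_fiberwise_of_maps_to (fun v hv => hY v (h.sub P hP hv))
        fun v => ((usC G C tl B v).card : ℤ)]
      refine sum_le_sum fun y _ => ?_
      have h4 : ∑ v ∈ P.filter (fun v => tl v = y), ((usC G C tl B v).card : ℤ)
          ≤ ((btl tl B y).card : ℤ) := by exact_mod_cast h.sum_usC_part h32 hP y
      split_ifs with h5
      · have h6 : P.filter (fun v => tl v = y) = ∅ := by
          by_contra h7
          simp only [ikp] at h5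
          split_ifs at h5 with h8
          · omega
          · exact h7 (card_eq_zero.1 h5)
        rw [h6, sum_empty]
      · simpa [ipc] using h4
    rw [sum_add_distrib]
    have h5 : (ipc (Sum.inl P : Itm V) : ℤ) = 0 := by simp [ipc]
    rw [h5] at h3 ⊢
    linarith
  · have he := inr_mem_pkf.1 hu
    have h1 := nd_W h he
    have h2 := h.card_usC_pc he
    have h3 : (iar G C (Sum.inr e : Itm V) : ℤ) = nd G C e.1 := by simp [iar, imem]
    have hyY := hY _ (h.bH e he)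
    rw [sum_eq_single_of_mem (tl e.1) hyY]
    · rw [h3, nui_inr, if_pos rfl]
      have h4 : ikp tl (tl e.1) (Sum.inr e : Itm V) ≠ 0 := by simp [ikp]
      rw [if_neg h4]
      have h5 : (ipc (Sum.inr e : Itm V) : ℤ) = 1 := by simp [ipc]
      rw [h5]
      have h6 : (nd G C e.1 : ℤ) ≤ 1 + (frC G C tl B e.1).card + (usC G C tl B e.1).card := by
        exact_mod_cast h1
      have h7 : ((usC G C tl B e.1).card : ℤ) + 1 ≤ (btl tl B (tl e.1)).card := by exact_mod_cast h2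
      linarith
    · intro y _ hy
      rw [nui_inr, if_neg (Ne.symm hy)]
      have h4 : ikp tl y (Sum.inr e : Itm V) = 0 := by simp [ikp, Ne.symm hy]
      rw [if_pos h4]
      rfl

/-- the free arcs of all members over the items -/
lemma sum_frC_all (h : Pk G C H tl B Ps)
    (hmin : ∀ B' Ps', Pk G C H tl B' Ps' → Ps.card ≤ Ps'.card)
    (h32 : ∀ v ∈ H, ∀ w ∈ H, ∀ a ∈ C, v ≠ w → tl v = tl w →
      ¬ G.Adj v a → ¬ G.Adj w a → G.Adj v w) {Y : Finset ι} (hY : ∀ v ∈ H, tl v ∈ Y) :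
    ∑ v ∈ Nend G C H tl B, ((frC G C tl B v).card : ℤ) + ∑ e ∈ B, ((frC G C tl B e.1).card : ℤ)
      ≤ ∑ u ∈ pkf B Ps, ∑ y ∈ Y, (nui G C tl B y u : ℤ) := by
  rw [sum_comm]
  have h1 := sum_B_tail (tl := tl) (B := B) Y (fun e he => hY _ (h.bH e he))
    (fun e => ((frC G C tl B e.1).card : ℤ))
  have h2 := sum_N_tail (tl := tl) (N := Nend G C H tl B) Y
    (fun v hv => hY _ (mem_sdiff.1 (mem_Nend.1 hv).1).1) (fun v => ((frC G C tl B v).card : ℤ))
  rw [h1, h2, ← sum_add_distrib]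
  refine sum_le_sum fun y _ => ?_
  have h3 : ∑ v ∈ nez G C H tl B y, ((frC G C tl B v).card : ℤ)
      ≤ ∑ P ∈ Ps.filter (fun P => 2 ≤ P.card), (nui G C tl B y (Sum.inl P) : ℤ) := by
    exact_mod_cast h.sum_nez_nui hmin h32 y
  have h4 := sum_pkf_inl (B := B) (Ps := Ps) fun u => (nui G C tl B y u : ℤ)
  have h5 := sum_ipc_nui (G := G) (C := C) (tl := tl) (B := B) (Ps := Ps) y
  have h6 : ∑ u ∈ pkf B Ps, (1 - (ipc u : ℤ)) * (nui G C tl B y u : ℤ)
      = ∑ u ∈ pkf B Ps, (nui G C tl B y u : ℤ) - ∑ u ∈ pkf B Ps, (ipc u : ℤ) * nui G C tl B y u := by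
    rw [← sum_sub_distrib]
    exact sum_congr rfl fun u _ => by ring
  have h7 : ∑ v ∈ (Nend G C H tl B).filter (fun v => tl v = y), ((frC G C tl B v).card : ℤ)
      = ∑ v ∈ nez G C H tl B y, ((frC G C tl B v).card : ℤ) := rfl
  rw [h7]
  linarith

/-- **the arcs of all members** -/
theorem ar_le (h : Pk G C H tl B Ps)
    (hmin : ∀ B' Ps', Pk G C H tl B' Ps' → Ps.card ≤ Ps'.card)
    (h32 : ∀ v ∈ H, ∀ w ∈ H, ∀ a ∈ C, v ≠ w → tl v = tl w →
      ¬ G.Adj v a → ¬ G.Adj w a → G.Adj v w) {Y : Finset ι} (hY : ∀ v ∈ H, tl v ∈ Y) :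
    ∑ v ∈ H, (nd G C v : ℤ) ≤ (B.card : ℤ) * Ps.card + ∑ y ∈ Y, ((btl tl B y).card : ℤ) ^ 2
      + ∑ u ∈ pkf B Ps, ∑ y ∈ Y, (nui G C tl B y u : ℤ) := by
  have hinj : Set.InjOn Prod.fst (B : Set (V × V)) := fun e he f hf hef =>
    h.b1 e (mem_coe.1 he) f (mem_coe.1 hf) hef
  have hsub : B.image Prod.fst ⊆ H := image_subset_iff.2 fun e he => h.bH e he
  have h1 : ∑ v ∈ H, (nd G C v : ℤ)
      = ∑ v ∈ H \ B.image Prod.fst, (nd G C v : ℤ) + ∑ e ∈ B, (nd G C e.1 : ℤ) := by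
    rw [← sum_sdiff hsub, sum_image hinj]
  have h2 : ∑ v ∈ H \ B.image Prod.fst, (nd G C v : ℤ)
      ≤ ∑ v ∈ Nend G C H tl B, ((frC G C tl B v).card : ℤ)
        + ∑ v ∈ H \ B.image Prod.fst, ((usC G C tl B v).card : ℤ) := by
    have h3 : ∑ v ∈ H \ B.image Prod.fst, ((frC G C tl B v).card : ℤ)
        = ∑ v ∈ Nend G C H tl B, ((frC G C tl B v).card : ℤ) := by exact_mod_cast sum_frC
    rw [← h3, ← sum_add_distrib]
    exact sum_le_sum fun v hv => by exact_mod_cast nd_U (C := C) (tl := tl) hv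
  have h3 : ∑ v ∈ H \ B.image Prod.fst, ((usC G C tl B v).card : ℤ) ≤ (B.card : ℤ) * Ps.card := by
    have h4 : ∑ v ∈ H \ B.image Prod.fst, (usC G C tl B v).card
        ≤ ∑ e ∈ B, uin G tl (H \ B.image Prod.fst) e := sum_usC
    have h5 : ∑ e ∈ B, uin G tl (H \ B.image Prod.fst) e ≤ B.card * Ps.card := by
      refine (sum_le_card_nsmul _ _ _ fun e he => h.uin_le_card h32 he).trans ?_
      rw [smul_eq_mul]
    exact_mod_cast h4.trans h5
  have h4 : ∑ e ∈ B, (nd G C e.1 : ℤ) ≤ ∑ e ∈ B, ((frC G C tl B e.1).card : ℤ)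
      + ∑ y ∈ Y, ((btl tl B y).card : ℤ) ^ 2 := by
    have h5 : ∑ e ∈ B, ((btl tl B (tl e.1)).card : ℤ) = ∑ y ∈ Y, ((btl tl B y).card : ℤ) ^ 2 := by
      rw [sum_B_tail (tl := tl) (B := B) Y (fun e he => hY _ (h.bH e he))]
      refine sum_congr rfl fun y _ => ?_
      have h6 : ∑ e ∈ btl tl B y, ((btl tl B (tl e.1)).card : ℤ)
          = ∑ e ∈ btl tl B y, ((btl tl B y).card : ℤ) :=
        sum_congr rfl fun e he => by rw [(mem_btl.1 he).2]
      rw [h6, sum_const, nsmul_eq_mul]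
      ring
    rw [← h5, ← sum_add_distrib]
    refine sum_le_sum fun e he => ?_
    have h6 := nd_W h he
    have h7 := h.card_usC_pc he
    have h8 : (nd G C e.1 : ℤ) ≤ 1 + (frC G C tl B e.1).card + (usC G C tl B e.1).card := by
      exact_mod_cast h6
    have h9 : ((usC G C tl B e.1).card : ℤ) + 1 ≤ (btl tl B (tl e.1)).card := by exact_mod_cast h7
    linarith
  have h5 := h.sum_frC_all hmin h32 hY
  rw [h1]
  linarith

/-- **the number of the cliques of members is at most the number of the parts** -/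
theorem card_pp (B : Finset (V × V)) (Ps : Finset (Finset V)) :
    ∑ u ∈ pkf B Ps, (1 - (ipc u : ℤ)) ≤ Ps.card := by
  have h1 := sum_pkf_inl (B := B) (Ps := Ps) fun _ => (1 : ℤ)
  simp only [mul_one] at h1
  rw [h1, sum_const, nsmul_eq_mul, mul_one]
  exact_mod_cast card_le_card (filter_subset _ _)

end Pk

end Nu

end Pool.Agent.Lib.MP_f04ccf_co
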