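import Pool.Agent.Lib.MP_f04ccf_co.M.RowJ

/-!
MP_f04ccf_co, note 17487: T, T+, T++ WITHOUT THE CONDITION `0 ≤ s + k`.

The condition is only needed when the number of the used points is replaced by a bound.  Here the number is
exact, `w = ∑ (kp + 1 - [host in J] pc)` over the used items (all with `kp ≠ 0`).

* `Fam.pts_eq`: the used points outside the columns of `J`;
* `Fam.rowMX_of`: `RowM` in sums over the items, exact number of points, no sign condition;
* `WHom.rowMXI`: over the basic integers, any extra term, any saving; `WHom.rowX`: the same over the row indices;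
* `WCoreK.rowJX`: over the row indices, all cells paid, the same-host saving.
-/

set_option autoImplicit false

namespace Pool.Agent.Lib.MP_f04ccf_co

open Finset

attribute [local instance] Classical.propDecidable

section RowX

variable {V : Type*} {G : SimpleGraph V} {Z T : Finset V} {hm : V → V} {r m t : ℕ}
  {A : Finset V} {S : V → Finset V} {U : V → Finset (Itm V)}

/-- the number of all used points with one other point -/
lemma Fam.rpts_card (h : ∀ x ∈ A, Fam (co G) (CP G Z T S) (HP G Z T S) (tlo G T hm) x (U x))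
    {x z : V} (hx : x ∈ A) {u : Itm V} (hu : u ∈ U x) (hk : ikp (tlo G T hm) z u ≠ 0)
    (hW : WSysT G (co G) A (CP G Z T S) (HP G Z T S) (tlo G T hm)) :
    (rpts (tlo G T hm) (fun Q => one1 (oth (tlo G T hm) z Q)) z u).card
      = ikp (tlo G T hm) z u + 1 := by
  have hf := h x hx
  have hHC : ∀ v, v ∈ HP G Z T S x → v ∉ CP G Z T S x := fun v h1 h2 =>
    disjoint_left.1 (hW.dHC x hx x hx) h1 h2
  have h1 := Fam.rpts_own (z := z) hW h hx hu hk
  have h2 := card_sdiff_add_card_inter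
    (rpts (tlo G T hm) (fun Q => one1 (oth (tlo G T hm) z Q)) z u) (CP G Z T S x)
  have h3 : (rpts (tlo G T hm) (fun Q => one1 (oth (tlo G T hm) z Q)) z u ∩ CP G Z T S x).card
      = ipc u := by
    rcases u with Q | e
    · have h5 : rpts (tlo G T hm) (fun Q => one1 (oth (tlo G T hm) z Q)) z (Sum.inl Q)
          ∩ CP G Z T S x = ∅ := by
        rw [← disjoint_iff_inter_eq_empty, disjoint_left]
        intro v hv hv'
        exact hHC v (hf.sub Q hu (hf.rpts_sub (X := fun Q => one1 (oth (tlo G T hm) z Q))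
          (fun Q => one1_sub _) hv)) hv'
      rw [h5]
      rfl
    · have h5 : rpts (tlo G T hm) (fun Q => one1 (oth (tlo G T hm) z Q)) z (Sum.inr e)
          ∩ CP G Z T S x = {e.2} := by
        ext v
        simp only [rpts, mem_inter, mem_insert, mem_singleton]
        constructor
        · rintro ⟨h7 | h7, h6⟩
          · exact absurd h6 (h7 ▸ hHC _ (hf.pcH e hu))
          · exact h7
        · rintro rfl
          exact ⟨Or.inr rfl, hf.pcC e hu⟩
      rw [h5, card_singleton]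
      rfl
  omega

/-- **the used points outside the columns of `J`, exact** -/
lemma Fam.pts_eq (hW : WSysT G (co G) A (CP G Z T S) (HP G Z T S) (tlo G T hm))
    (h : ∀ x ∈ A, Fam (co G) (CP G Z T S) (HP G Z T S) (tlo G T hm) x (U x))
    {z x : V} (hx : x ∈ A) {u : Itm V} (hu : u ∈ U x) {J : Finset V} (hJ : J ⊆ A)
    {X : Finset V → Finset V} (hX : ∀ Q, X Q ⊆ oth (tlo G T hm) z Q)
    (hc : (rpts (tlo G T hm) X z u).card = ikp (tlo G T hm) z u + 1) :
    (rpts (tlo G T hm) X z u \ J.biUnion (CP G Z T S)).card + (if x ∈ J then ipc u else 0)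
      = ikp (tlo G T hm) z u + 1 := by
  have hf := h x hx
  have h2 := card_sdiff_add_card_inter (rpts (tlo G T hm) X z u) (J.biUnion (CP G Z T S))
  have hHC : ∀ v ∈ HP G Z T S x, v ∉ J.biUnion (CP G Z T S) := by
    intro v hv hv'
    obtain ⟨j, hj, hv2⟩ := mem_biUnion.1 hv'
    exact disjoint_left.1 (hW.dHC x hx j (hJ hj)) hv hv2
  have h3 : (rpts (tlo G T hm) X z u ∩ J.biUnion (CP G Z T S)).card
      = if x ∈ J then ipc u else 0 := by
    rcases u with Q | e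
    · have h5 : rpts (tlo G T hm) X z (Sum.inl Q) ∩ J.biUnion (CP G Z T S) = ∅ := by
        rw [← disjoint_iff_inter_eq_empty, disjoint_left]
        intro v hv hv'
        exact hHC v (hf.sub Q hu (hf.rpts_sub hX hv)) hv'
      rw [h5]
      split_ifs <;> rfl
    · by_cases h4 : x ∈ J
      · have h5 : rpts (tlo G T hm) X z (Sum.inr e) ∩ J.biUnion (CP G Z T S) = {e.2} := by
          ext v
          simp only [rpts, mem_inter, mem_insert, mem_singleton]
          constructor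
          · rintro ⟨h7 | h7, h6⟩
            · exact absurd h6 (h7 ▸ hHC _ (hf.pcH e hu))
            · exact h7
          · rintro rfl
            exact ⟨Or.inr rfl, mem_biUnion.2 ⟨x, h4, hf.pcC e hu⟩⟩
        rw [h5, card_singleton, if_pos h4]
        rfl
      · have h5 : rpts (tlo G T hm) X z (Sum.inr e) ∩ J.biUnion (CP G Z T S) = ∅ := by
          rw [← disjoint_iff_inter_eq_empty, disjoint_left]
          intro v hv hv'
          simp only [rpts] at hv
          rcases mem_insert.1 hv with h8 | h8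
          · exact hHC _ (hf.pcH e hu) (h8 ▸ hv')
          · rw [mem_singleton] at h8
            obtain ⟨j, hj, hv2⟩ := mem_biUnion.1 hv'
            have hxj : x ≠ j := fun h9 => h4 (h9 ▸ hj)
            exact disjoint_left.1 (hW.dCC x hx j (hJ hj) hxj) (hf.pcC e hu) (h8 ▸ hv2)
        rw [h5, card_empty, if_neg h4]
  omega

/-- **the row test with the columns of `J`, slope `|J|`, over the items, exact number of points, NO SIGN
CONDITION**: any saving `sv` in the missing pairs of the used points outside the columns -/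
theorem Fam.rowMX_of
    (hW : WSysT G (co G) A (CP G Z T S) (HP G Z T S) (tlo G T hm)) (hC : CSys G Z T hm A S)
    (h : ∀ x ∈ A, Fam (co G) (CP G Z T S) (HP G Z T S) (tlo G T hm) x (U x))
    {ho : Itm V → V} (hho : ∀ x ∈ A, ∀ u ∈ U x, ho u = x)
    {z : V} {J : Finset V} (hJ : J ⊆ A) {K : Finset (Itm V)}
    (hK : K ⊆ (A.erase z).biUnion U) (hk : ∀ u ∈ K, ikp (tlo G T hm) z u ≠ 0)
    {X : Finset V → Finset V} (hX : ∀ Q, X Q ⊆ oth (tlo G T hm) z Q)
    (hX1 : ∀ u ∈ K, (rpts (tlo G T hm) X z u).card = ikp (tlo G T hm) z u + 1) {EX : ℤ}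
    (hE : RowM G Z T hm r S U J.card K X z J EX) {sv : ℤ}
    (hsv : (NE G (K.biUnion (rpts (tlo G T hm) X z) \ J.biUnion (CP G Z T S)) : ℤ) + sv
      + (K.biUnion (rpts (tlo G T hm) X z) \ J.biUnion (CP G Z T S)).card
      ≤ ((K.biUnion (rpts (tlo G T hm) X z) \ J.biUnion (CP G Z T S)).card : ℤ)
        * (K.biUnion (rpts (tlo G T hm) X z) \ J.biUnion (CP G Z T S)).card) :
    ((r : ℤ) - 1) * (2 * J.card * (((S z).card : ℤ) + ∑ j ∈ J, ((CP G Z T S j).card : ℤ))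
        - r * J.card * (J.card + 1))
      + 2 * ∑ u ∈ K, (((CP G Z T S z).card : ℤ) * ikp (tlo G T hm) z u
          - (rcl G (CP G Z T S) (tlo G T hm) X z u).card)
      + 2 * ∑ j ∈ J, ∑ u ∈ U z, iht G (CP G Z T S) (tlo G T hm) j u
      + ∑ j ∈ J, ∑ i ∈ J.erase j, ∑ v ∈ CP G Z T S i, (dg G (CP G Z T S j) v : ℤ)
      + EX + sv
      ≤ NE G (S z)
        + 2 * (∑ j ∈ J, ((CP G Z T S j).card : ℤ)) * (S z).card
        + ∑ j ∈ J, ∑ i ∈ J.erase j, ((CP G Z T S i).card : ℤ) * (CP G Z T S j).card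
        + 2 * (∑ u ∈ K, ((ikp (tlo G T hm) z u : ℤ) + 1 - if ho u ∈ J then (ipc u : ℤ) else 0))
          * (((S z).card : ℤ) - r + 1)
        + (∑ u ∈ K, ((ikp (tlo G T hm) z u : ℤ) + 1 - if ho u ∈ J then (ipc u : ℤ) else 0))
          * (∑ u ∈ K, ((ikp (tlo G T hm) z u : ℤ) + 1 - if ho u ∈ J then (ipc u : ℤ) else 0) - 1)
        + 2 * ∑ u ∈ K, (if ho u ∈ J then (iar G (CP G Z T S (ho u)) u : ℤ)
              + ((ikp (tlo G T hm) z u : ℤ) + 1 - ipc u) * (∑ l ∈ J.erase (ho u),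
                ((CP G Z T S l).card : ℤ) - ((J.card : ℤ) - 1) * ((r : ℤ) - 1))
            else ((ikp (tlo G T hm) z u : ℤ) + 1) * (∑ j ∈ J, ((CP G Z T S j).card : ℤ)
                - ((J.card : ℤ) - 1) * ((r : ℤ) - 1)))
        + 2 * ∑ j ∈ J, (∑ u ∈ K, (if ho u = j then (ipc u : ℤ) else 0))
          * (∑ u ∈ U z, (ipc u : ℤ) * ikp (tlo G T hm) j u) := by
  have h1 := hE
  unfold RowM at h1
  have hown : ∀ u ∈ K, ∃ x ∈ A, u ∈ U x ∧ ho u = x := by
    intro u hu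
    obtain ⟨x, hx, hux⟩ := mem_biUnion.1 (hK hu)
    exact ⟨x, mem_of_mem_erase hx, hux, hho x (mem_of_mem_erase hx) u hux⟩
  have hdis : ∀ u ∈ K, ∀ v ∈ K, u ≠ v → Disjoint (rpts (tlo G T hm) X z u \ J.biUnion (CP G Z T S))
      (rpts (tlo G T hm) X z v \ J.biUnion (CP G Z T S)) := by
    intro u hu v hv huv
    obtain ⟨x, hx, hux⟩ := mem_biUnion.1 (hK hu)
    obtain ⟨x', hx', hvx⟩ := mem_biUnion.1 (hK hv)
    exact ((Fam.dis_row hW h (mem_of_mem_erase hx) (mem_of_mem_erase hx') hux hvx huv (hk u hu)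
      (hk v hv)).mono ((h x (mem_of_mem_erase hx)).rpts_sub hX)
      ((h x' (mem_of_mem_erase hx')).rpts_sub hX)).mono sdiff_subset sdiff_subset
  have hsd : K.biUnion (rpts (tlo G T hm) X z) \ J.biUnion (CP G Z T S)
      = K.biUnion fun u => rpts (tlo G T hm) X z u \ J.biUnion (CP G Z T S) := by
    ext v
    simp only [mem_sdiff, mem_biUnion]
    constructor
    · rintro ⟨⟨u, hu, hv⟩, hv'⟩
      exact ⟨u, hu, hv, hv'⟩
    · rintro ⟨u, hu, hv, hv'⟩
      exact ⟨⟨u, hu, hv⟩, hv'⟩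
  have hw3 : ((K.biUnion (rpts (tlo G T hm) X z) \ J.biUnion (CP G Z T S)).card : ℤ)
      = ∑ u ∈ K, ((rpts (tlo G T hm) X z u \ J.biUnion (CP G Z T S)).card : ℤ) := by
    rw [hsd, card_biUnion hdis]
    push_cast
    rfl
  have hw1 : ∀ u ∈ K, ((rpts (tlo G T hm) X z u \ J.biUnion (CP G Z T S)).card : ℤ)
      = (ikp (tlo G T hm) z u : ℤ) + 1 - if ho u ∈ J then (ipc u : ℤ) else 0 := by
    intro u hu
    obtain ⟨x, hx, hux, hxo⟩ := hown u hu
    have h2 := Fam.pts_eq hW h hx hux hJ hX (hX1 u hu)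
    rw [hxo]
    by_cases h3 : x ∈ J
    · rw [if_pos h3] at h2 ⊢
      have : ((rpts (tlo G T hm) X z u \ J.biUnion (CP G Z T S)).card : ℤ) + ipc u
        = (ikp (tlo G T hm) z u : ℤ) + 1 := by exact_mod_cast h2
      linarith
    · rw [if_neg h3, add_zero] at h2
      rw [if_neg h3, sub_zero]
      exact_mod_cast h2
  -- the missed class points
  have hnd : ∑ j ∈ J, ∑ v ∈ K.biUnion (rpts (tlo G T hm) X z) \ J.biUnion (CP G Z T S),
        (nd G (CP G Z T S j) v : ℤ)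
      = ∑ u ∈ K, ∑ j ∈ J, ∑ v ∈ rpts (tlo G T hm) X z u \ J.biUnion (CP G Z T S),
        (nd G (CP G Z T S j) v : ℤ) := by
    have e1 : ∀ j ∈ J, ∑ v ∈ K.biUnion (rpts (tlo G T hm) X z) \ J.biUnion (CP G Z T S),
        (nd G (CP G Z T S j) v : ℤ)
        = ∑ u ∈ K, ∑ v ∈ rpts (tlo G T hm) X z u \ J.biUnion (CP G Z T S),
          (nd G (CP G Z T S j) v : ℤ) := fun j _ => by
      rw [hsd, sum_biUnion hdis]
    rw [sum_congr rfl e1, sum_comm]
  have hcost : ∀ u ∈ K, ∑ j ∈ J, ∑ v ∈ rpts (tlo G T hm) X z u \ J.biUnion (CP G Z T S),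
        (nd G (CP G Z T S j) v : ℤ)
        - ((J.card : ℤ) - 1) * ((r : ℤ) - 1)
          * ((rpts (tlo G T hm) X z u \ J.biUnion (CP G Z T S)).card : ℤ)
      ≤ if ho u ∈ J then (iar G (CP G Z T S (ho u)) u : ℤ)
              + ((ikp (tlo G T hm) z u : ℤ) + 1 - ipc u) * (∑ l ∈ J.erase (ho u),
                ((CP G Z T S l).card : ℤ) - ((J.card : ℤ) - 1) * ((r : ℤ) - 1))
            else ((ikp (tlo G T hm) z u : ℤ) + 1) * (∑ j ∈ J, ((CP G Z T S j).card : ℤ)
                - ((J.card : ℤ) - 1) * ((r : ℤ) - 1)) := by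
    intro u hu
    obtain ⟨x, hx, hux, hxo⟩ := hown u hu
    rw [hxo]
    have hall : ∀ j, ∑ v ∈ rpts (tlo G T hm) X z u \ J.biUnion (CP G Z T S),
        (nd G (CP G Z T S j) v : ℤ)
        ≤ ((rpts (tlo G T hm) X z u \ J.biUnion (CP G Z T S)).card : ℤ) * (CP G Z T S j).card := by
      intro j
      have h4 : ∑ v ∈ rpts (tlo G T hm) X z u \ J.biUnion (CP G Z T S), (nd G (CP G Z T S j) v : ℤ)
          ≤ ∑ _v ∈ rpts (tlo G T hm) X z u \ J.biUnion (CP G Z T S), ((CP G Z T S j).card : ℤ) :=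
        sum_le_sum fun v _ => by
          have : nd G (CP G Z T S j) v ≤ (CP G Z T S j).card := card_filter_le _ _
          exact_mod_cast this
      rw [sum_const, nsmul_eq_mul] at h4
      exact h4
    have hP := hw1 u hu
    rw [hxo] at hP
    generalize hp : ((rpts (tlo G T hm) X z u \ J.biUnion (CP G Z T S)).card : ℤ) = P at *
    by_cases h3 : x ∈ J
    · rw [if_pos h3]
      have h4 : ∑ v ∈ rpts (tlo G T hm) X z u \ J.biUnion (CP G Z T S),
          (nd G (CP G Z T S x) v : ℤ) ≤ iar G (CP G Z T S x) u := by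
        have h5 := Fam.nd_own (z := z) (X := X) h hx hux hX
        have h6 : ∑ v ∈ rpts (tlo G T hm) X z u \ J.biUnion (CP G Z T S), nd G (CP G Z T S x) v
            ≤ ∑ v ∈ rpts (tlo G T hm) X z u \ CP G Z T S x, nd G (CP G Z T S x) v :=
          sum_le_sum_of_subset (sdiff_subset_sdiff (Subset.refl _)
            (subset_biUnion_of_mem (CP G Z T S) h3))
        exact_mod_cast h6.trans h5
      rw [← add_sum_erase J _ h3]
      have h5 : ∑ l ∈ J.erase x, ∑ v ∈ rpts (tlo G T hm) X z u \ J.biUnion (CP G Z T S),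
          (nd G (CP G Z T S l) v : ℤ) ≤ P * ∑ l ∈ J.erase x, ((CP G Z T S l).card : ℤ) := by
        rw [mul_sum]
        exact sum_le_sum fun l _ => hall l
      rw [if_pos h3] at hP
      rw [hP] at h5 ⊢
      linarith
    · rw [if_neg h3, sub_zero] at hP
      rw [if_neg h3]
      have h5 : ∑ j ∈ J, ∑ v ∈ rpts (tlo G T hm) X z u \ J.biUnion (CP G Z T S),
          (nd G (CP G Z T S j) v : ℤ) ≤ P * ∑ j ∈ J, ((CP G Z T S j).card : ℤ) := by
        rw [mul_sum]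
        exact sum_le_sum fun l _ => hall l
      rw [hP] at h5 ⊢
      linarith
  have hcost' := sum_le_sum hcost
  rw [sum_sub_distrib, ← mul_sum, ← hw3, ← hnd] at hcost'
  -- the used class points
  have hq : ∀ j ∈ J, ((CP G Z T S j ∩ K.biUnion (rpts (tlo G T hm) X z)).card : ℤ)
        * (pcz (tlo G T hm) j (U z)).card
      ≤ (∑ u ∈ K, (if ho u = j then (ipc u : ℤ) else 0))
          * (∑ u ∈ U z, (ipc u : ℤ) * ikp (tlo G T hm) j u) := by
    intro j hj
    have h2 := Fam.card_colW (z := z) (X := X) hC hW h (hJ hj) hK hX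
    have h3 : ∑ u ∈ K, (if u ∈ U j then (ipc u : ℤ) else 0)
        ≤ ∑ u ∈ K, (if ho u = j then (ipc u : ℤ) else 0) := by
      refine sum_le_sum fun u hu => ?_
      by_cases h4 : u ∈ U j
      · rw [if_pos h4, if_pos (hho j (hJ hj) u h4)]
      · rw [if_neg h4]
        split_ifs <;> positivity
    refine mul_le_mul (h2.trans h3) card_pcz_le (Nat.cast_nonneg _) ?_
    exact sum_nonneg fun u _ => by split_ifs <;> positivity
  have hq' := sum_le_sum hq
  have hih : ∀ j, ∑ u ∈ U z, (((CP G Z T S j).card : ℤ) * ikp (tlo G T hm) j u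
        - (CP G Z T S j ∩ icl G (CP G Z T S) (tlo G T hm) j u).card)
      = ∑ u ∈ U z, iht G (CP G Z T S) (tlo G T hm) j u := by
    intro j
    refine sum_congr rfl fun u _ => ?_
    have h2 : CP G Z T S j ∩ icl G (CP G Z T S) (tlo G T hm) j u
        = icl G (CP G Z T S) (tlo G T hm) j u := inter_eq_right.2 rcl_sub
    rw [h2]
    rfl
  simp only [hih] at h1
  have hw4 : ((K.biUnion (rpts (tlo G T hm) X z) \ J.biUnion (CP G Z T S)).card : ℤ)
      = ∑ u ∈ K, ((ikp (tlo G T hm) z u : ℤ) + 1 - if ho u ∈ J then (ipc u : ℤ) else 0) := by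
    rw [hw3]
    exact sum_congr rfl hw1
  rw [← hw4]
  generalize ((K.biUnion (rpts (tlo G T hm) X z) \ J.biUnion (CP G Z T S)).card : ℤ) = w at *
  linarith

end RowX

section RowXI

variable {V : Type*} {G : SimpleGraph V} {Z T : Finset V} {hm : V → V} {r m n p : ℕ}
  {B : V → Finset (V × V)} {Ps : V → Finset (Finset V)}

/-- **T++ over the basic integers, NO SIGN CONDITION**, exact number of points, any extra term, any saving -/
theorem WHom.rowMXI (h : WHom G Z T r m n hm) {host : Itm V → V}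
    (hpk : ∀ x ∈ T, Pk G (cz G Z T hm x) (hz G Z T hm x) (tlo G T hm) (B x) (Ps x))
    (hst : ∀ x ∈ T, ∀ u ∈ pkf (B x) (Ps x), host u = x)
    {z : V} {J : Finset V} (hJ : J ⊆ T) {K : Finset (Itm V)}
    (hK : K ⊆ (T.erase z).biUnion fun x => pkf (B x) (Ps x))
    (hk : ∀ u ∈ K, ikp (tlo G T hm) z u ≠ 0) {EX : ℤ}
    (hE : RowM G Z T hm r (fun x => Z.filter fun v => hm v = x) (fun x => pkf (B x) (Ps x)) J.card
      K (fun Q => one1 (oth (tlo G T hm) z Q)) z J EX)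
    {sv : ℤ}
    (hsv : (NE G (K.biUnion (rpts (tlo G T hm) (fun Q => one1 (oth (tlo G T hm) z Q)) z)
          \ J.biUnion (CP G Z T fun x => Z.filter fun v => hm v = x)) : ℤ) + sv
      + (K.biUnion (rpts (tlo G T hm) (fun Q => one1 (oth (tlo G T hm) z Q)) z)
          \ J.biUnion (CP G Z T fun x => Z.filter fun v => hm v = x)).card
      ≤ ((K.biUnion (rpts (tlo G T hm) (fun Q => one1 (oth (tlo G T hm) z Q)) z)
          \ J.biUnion (CP G Z T fun x => Z.filter fun v => hm v = x)).card : ℤ)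
        * (K.biUnion (rpts (tlo G T hm) (fun Q => one1 (oth (tlo G T hm) z Q)) z)
          \ J.biUnion (CP G Z T fun x => Z.filter fun v => hm v = x)).card) :
    2 * ((r : ℤ) - 1) * J.card * sI hm r Z z - (J.card : ℤ) * (J.card - 1) * ((r : ℤ) - 1)
      - ((∑ j ∈ J, tI G Z T hm r Z j) ^ 2 - ∑ j ∈ J, tI G Z T hm r Z j ^ 2)
      + 2 * ∑ u ∈ K, ((ikp (tlo G T hm) z u : ℤ) * ((r : ℤ) - 1 - tI G Z T hm r Z z)
          - rmr G (cz G Z T hm) (tlo G T hm) z u)
      + 2 * ∑ j ∈ J, ∑ u ∈ pkf (B z) (Ps z), ((ikp (tlo G T hm) j u : ℤ)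
          * ((r : ℤ) - 1 - tI G Z T hm r Z j) - ims G (cz G Z T hm) (tlo G T hm) j u)
      + EX + sv
      ≤ 2 * eI G hm Z z
        + 2 * (∑ u ∈ K, ((ikp (tlo G T hm) z u : ℤ) + 1 - if host u ∈ J then (ipc u : ℤ) else 0)
            + ((J.card : ℤ) * ((r : ℤ) - 1) - ∑ j ∈ J, tI G Z T hm r Z j)) * (sI hm r Z z + 1)
        + (∑ u ∈ K, ((ikp (tlo G T hm) z u : ℤ) + 1 - if host u ∈ J then (ipc u : ℤ) else 0))
          * (∑ u ∈ K, ((ikp (tlo G T hm) z u : ℤ) + 1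
              - if host u ∈ J then (ipc u : ℤ) else 0) - 1)
        + 2 * ∑ u ∈ K, (if host u ∈ J
            then (iar G (cz G Z T hm (host u)) u : ℤ)
              - ((ikp (tlo G T hm) z u : ℤ) + 1 - ipc u)
                * (∑ j ∈ J, tI G Z T hm r Z j - tI G Z T hm r Z (host u))
            else ((ikp (tlo G T hm) z u : ℤ) + 1)
              * ((r : ℤ) - 1 - ∑ j ∈ J, tI G Z T hm r Z j))
        + 2 * ∑ j ∈ J, (∑ u ∈ K, (if host u = j then (ipc u : ℤ) else 0))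
          * (∑ u ∈ pkf (B z) (Ps z), (ipc u : ℤ) * ikp (tlo G T hm) j u) := by
  have hfam : ∀ x ∈ T, Fam (co G) (cz G Z T hm) (hz G Z T hm) (tlo G T hm) x
      (pkf (B x) (Ps x)) := fun x hx => (hpk x hx).fam (h.csys.dCH hx hx).symm
  set C := cz G Z T hm with hCdef
  set tl := tlo G T hm with htl
  have hcard : ∀ x, ((C x).card : ℤ) = (r : ℤ) - 1 - tI G Z T hm r Z x := fun x => card_CP_eq Z x
  have e1 : ∑ u ∈ K, ((ikp tl z u : ℤ) * ((r : ℤ) - 1 - tI G Z T hm r Z z) - rmr G C tl z u)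
      = ∑ u ∈ K, (((C z).card : ℤ) * ikp tl z u
        - (rcl G C tl (fun Q => one1 (oth tl z Q)) z u).card) := by
    refine sum_congr rfl fun u _ => ?_
    rw [← hcard]
    unfold rmr
    ring
  have hq0 : ∀ j ∈ J, ((J.card : ℤ) - 1) * ((r : ℤ) - 1) = ∑ l ∈ J.erase j, ((r : ℤ) - 1) := by
    intro j hj
    have h1 : ((J.erase j).card : ℤ) + 1 = J.card := by exact_mod_cast card_erase_add_one hj
    rw [sum_const, nsmul_eq_mul]
    have h2 : ((J.erase j).card : ℤ) = (J.card : ℤ) - 1 := by linarith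
    rw [h2]
  have hsc : ∑ j ∈ J, ((C j).card : ℤ)
      = (J.card : ℤ) * ((r : ℤ) - 1) - ∑ j ∈ J, tI G Z T hm r Z j := by
    rw [sum_congr rfl fun j _ => hcard j, sum_sub_distrib, sum_const, nsmul_eq_mul]
  have e5 : ∑ u ∈ K, (if host u ∈ J
        then (iar G (C (host u)) u : ℤ) + ((ikp tl z u : ℤ) + 1 - ipc u)
          * (∑ l ∈ J.erase (host u), ((C l).card : ℤ) - ((J.card : ℤ) - 1) * ((r : ℤ) - 1))
        else ((ikp tl z u : ℤ) + 1)
          * (∑ j ∈ J, ((C j).card : ℤ) - ((J.card : ℤ) - 1) * ((r : ℤ) - 1)))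
      = ∑ u ∈ K, (if host u ∈ J
        then (iar G (C (host u)) u : ℤ) - ((ikp tl z u : ℤ) + 1 - ipc u)
          * (∑ j ∈ J, tI G Z T hm r Z j - tI G Z T hm r Z (host u))
        else ((ikp tl z u : ℤ) + 1) * ((r : ℤ) - 1 - ∑ j ∈ J, tI G Z T hm r Z j)) := by
    refine sum_congr rfl fun u _ => ?_
    by_cases h4 : host u ∈ J
    · rw [if_pos h4, if_pos h4, hq0 _ h4, ← sum_sub_distrib]
      have h5 : ∑ l ∈ J.erase (host u), (((C l).card : ℤ) - ((r : ℤ) - 1))
          = - (∑ j ∈ J, tI G Z T hm r Z j - tI G Z T hm r Z (host u)) := by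
        rw [← add_sum_erase J _ h4, add_sub_cancel_left, ← sum_neg_distrib]
        refine sum_congr rfl fun l _ => ?_
        rw [hcard]
        ring
      rw [h5]
      ring
    · rw [if_neg h4, if_neg h4, hsc]
      have h5 : (J.card : ℤ) * ((r : ℤ) - 1) - ∑ j ∈ J, tI G Z T hm r Z j
          - ((J.card : ℤ) - 1) * ((r : ℤ) - 1) = (r : ℤ) - 1 - ∑ j ∈ J, tI G Z T hm r Z j := by
        ring
      rw [h5]
  have e6 : ∀ j, ∑ u ∈ pkf (B z) (Ps z), iht G C tl j u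
      = ∑ u ∈ pkf (B z) (Ps z), ((ikp tl j u : ℤ) * ((r : ℤ) - 1 - tI G Z T hm r Z j)
        - ims G C tl j u) := by
    intro j
    refine sum_congr rfl fun u _ => ?_
    unfold iht
    rw [hcard]
    ring
  have h5 := two_eI (G := G) (hm := hm) Z z
  have h6 : (((Z.filter fun v => hm v = z).card : ℤ) - r) = sI hm r Z z := rfl
  have h1 := Fam.rowMX_of h.wsysT h.csys hfam hst hJ hK hk (X := fun Q => one1 (oth tl z Q))
    (fun Q => one1_sub _) (fun u hu => by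
      obtain ⟨x, hx, hux⟩ := mem_biUnion.1 (hK hu)
      exact Fam.rpts_card hfam (mem_of_mem_erase hx) hux (hk u hu) h.wsysT) hE hsv
  have hdg : (0 : ℤ) ≤ ∑ j ∈ J, ∑ i ∈ J.erase j, ∑ v ∈ C i, (dg G (C j) v : ℤ) :=
    sum_nonneg fun _ _ => sum_nonneg fun _ _ => sum_nonneg fun _ _ => Nat.cast_nonneg _
  have hcc : ∑ j ∈ J, ∑ i ∈ J.erase j, ((C i).card : ℤ) * (C j).card
      = (J.card : ℤ) * (J.card - 1) * ((r : ℤ) - 1) ^ 2
        - 2 * ((J.card : ℤ) - 1) * ((r : ℤ) - 1) * ∑ j ∈ J, tI G Z T hm r Z j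
        + ((∑ j ∈ J, tI G Z T hm r Z j) ^ 2 - ∑ j ∈ J, tI G Z T hm r Z j ^ 2) := by
    rw [sum_offdiag J fun j i => ((C i).card : ℤ) * (C j).card]
    have h7 : ∑ j ∈ J, ∑ i ∈ J, ((C i).card : ℤ) * (C j).card = (∑ j ∈ J, ((C j).card : ℤ)) ^ 2 := by
      rw [sq, sum_mul_sum, sum_comm]
    have h8 : ∑ j ∈ J, ((C j).card : ℤ) * (C j).card
        = (J.card : ℤ) * ((r : ℤ) - 1) ^ 2 - 2 * ((r : ℤ) - 1) * ∑ j ∈ J, tI G Z T hm r Z j
          + ∑ j ∈ J, tI G Z T hm r Z j ^ 2 := by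
      have h9 : ∀ j ∈ J, ((C j).card : ℤ) * (C j).card
          = ((r : ℤ) - 1) ^ 2 - 2 * ((r : ℤ) - 1) * tI G Z T hm r Z j + tI G Z T hm r Z j ^ 2 :=
        fun j _ => by rw [hcard]; ring
      rw [sum_congr rfl h9, sum_add_distrib, sum_sub_distrib, sum_const, nsmul_eq_mul, ← mul_sum]
    rw [h7, h8, hsc]
    ring
  have hzc : ((Z.filter fun v => hm v = z).card : ℤ) = sI hm r Z z + r := by
    rw [← h6]
    ring
  have h2 : ((r : ℤ) - 1) * (2 * J.card * (((Z.filter fun v => hm v = z).card : ℤ)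
        + ∑ j ∈ J, ((C j).card : ℤ)) - r * J.card * (J.card + 1))
      + 2 * ∑ u ∈ K, (((C z).card : ℤ) * ikp tl z u
          - (rcl G C tl (fun Q => one1 (oth tl z Q)) z u).card)
      + 2 * ∑ j ∈ J, ∑ u ∈ pkf (B z) (Ps z), iht G C tl j u
      + ∑ j ∈ J, ∑ i ∈ J.erase j, ∑ v ∈ C i, (dg G (C j) v : ℤ)
      + EX + sv
      ≤ NE G (Z.filter fun v => hm v = z)
        + 2 * (∑ j ∈ J, ((C j).card : ℤ)) * (Z.filter fun v => hm v = z).card
        + ∑ j ∈ J, ∑ i ∈ J.erase j, ((C i).card : ℤ) * (C j).card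
        + 2 * (∑ u ∈ K, ((ikp tl z u : ℤ) + 1 - if host u ∈ J then (ipc u : ℤ) else 0))
          * (((Z.filter fun v => hm v = z).card : ℤ) - r + 1)
        + (∑ u ∈ K, ((ikp tl z u : ℤ) + 1 - if host u ∈ J then (ipc u : ℤ) else 0))
          * (∑ u ∈ K, ((ikp tl z u : ℤ) + 1 - if host u ∈ J then (ipc u : ℤ) else 0) - 1)
        + 2 * ∑ u ∈ K, (if host u ∈ J
            then (iar G (C (host u)) u : ℤ) + ((ikp tl z u : ℤ) + 1 - ipc u)
              * (∑ l ∈ J.erase (host u), ((C l).card : ℤ) - ((J.card : ℤ) - 1) * ((r : ℤ) - 1))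
            else ((ikp tl z u : ℤ) + 1) * (∑ j ∈ J, ((C j).card : ℤ)
                - ((J.card : ℤ) - 1) * ((r : ℤ) - 1)))
        + 2 * ∑ j ∈ J, (∑ u ∈ K, (if host u = j then (ipc u : ℤ) else 0))
          * (∑ u ∈ pkf (B z) (Ps z), (ipc u : ℤ) * ikp tl j u) := h1
  rw [h6, ← h5, hcc, hsc, hzc] at h2
  rw [hsc] at e5
  rw [e5] at h2
  simp only [e6] at h2
  rw [e1]
  generalize ∑ u ∈ K, ((ikp tl z u : ℤ) + 1 - if host u ∈ J then (ipc u : ℤ) else 0) = w at *
  generalize ∑ j ∈ J, tI G Z T hm r Z j = τ at *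
  generalize ∑ j ∈ J, tI G Z T hm r Z j ^ 2 = τ2 at *
  clear h1 e5
  linarith

end RowXI

section RowJX

variable {V : Type*} {G : SimpleGraph V} {Z T : Finset V} {hm : V → V} {r m n p : ℕ}
  {B : V → Finset (V × V)} {Ps : V → Finset (Finset V)}

/-- **T, T+, T++ over the row indices, NO SIGN CONDITION**: columns of a set `J` of rows (`J` may be empty), any
payment `EX`, any saving `sv` -/
theorem WHom.rowX (h : WHom G Z T r m n hm)
    {host : Itm V → V} {ρ : V → ℕ} {σ : ℕ → V}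
    (hpk : ∀ x ∈ T, Pk G (cz G Z T hm x) (hz G Z T hm x) (tlo G T hm) (B x) (Ps x))
    (hst : ∀ x ∈ T, ∀ u ∈ pkf (B x) (Ps x), host u = x)
    (rk : Rank T (tI G Z T hm r Z) ρ σ) {i : ℕ} (hi : i < n) {J : Finset ℕ} (hJ : ∀ j ∈ J, j < n)
    (hiJ : i ∉ J) {K : Finset (Itm V)}
    (hK : K ⊆ T.biUnion fun x => pkf (B x) (Ps x)) (hKh : ∀ u ∈ K, ρ (host u) ≠ i)
    (hk : ∀ u ∈ K, ikp (tlo G T hm) (σ i) u ≠ 0) {EX : ℤ}
    (hE : RowM G Z T hm r (fun x => Z.filter fun v => hm v = x) (fun x => pkf (B x) (Ps x))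
      (J.image σ).card K (fun Q => one1 (oth (tlo G T hm) (σ i) Q)) (σ i) (J.image σ) EX) {sv : ℤ}
    (hsv : (NE G (K.biUnion (rpts (tlo G T hm) (fun Q => one1 (oth (tlo G T hm) (σ i) Q)) (σ i))
          \ (J.image σ).biUnion (CP G Z T fun x => Z.filter fun v => hm v = x)) : ℤ) + sv
        + (K.biUnion (rpts (tlo G T hm) (fun Q => one1 (oth (tlo G T hm) (σ i) Q)) (σ i))
          \ (J.image σ).biUnion (CP G Z T fun x => Z.filter fun v => hm v = x)).card
      ≤ ((K.biUnion (rpts (tlo G T hm) (fun Q => one1 (oth (tlo G T hm) (σ i) Q)) (σ i))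
          \ (J.image σ).biUnion (CP G Z T fun x => Z.filter fun v => hm v = x)).card : ℤ)
        * (K.biUnion (rpts (tlo G T hm) (fun Q => one1 (oth (tlo G T hm) (σ i) Q)) (σ i))
          \ (J.image σ).biUnion (CP G Z T fun x => Z.filter fun v => hm v = x)).card) :
    2 * ((r : ℤ) - 1) * J.card * sI hm r Z (σ i) - (J.card : ℤ) * (J.card - 1) * ((r : ℤ) - 1)
      - ((∑ j ∈ J, tI G Z T hm r Z (σ j)) ^ 2 - ∑ j ∈ J, tI G Z T hm r Z (σ j) ^ 2)
      + 2 * ∑ u ∈ K, ((ikp (tlo G T hm) (σ i) u : ℤ) * ((r : ℤ) - 1 - tI G Z T hm r Z (σ i))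
        - (rmr G (cz G Z T hm) (tlo G T hm) (σ i) u : ℤ))
      + 2 * ∑ j ∈ J, ∑ u ∈ (T.biUnion fun x => pkf (B x) (Ps x)).filter (fun u => ρ (host u) = i),
        ((ikp (tlo G T hm) (σ j) u : ℤ) * ((r : ℤ) - 1 - tI G Z T hm r Z (σ j))
          - (ims G (cz G Z T hm) (tlo G T hm) (σ j) u : ℤ))
      + EX + sv
      ≤ 2 * eI G hm Z (σ i)
        + 2 * (∑ u ∈ K, ((ikp (tlo G T hm) (σ i) u : ℤ) + 1
            - if ρ (host u) ∈ J then (ipc u : ℤ) else 0)
            + ((J.card : ℤ) * ((r : ℤ) - 1) - ∑ j ∈ J, tI G Z T hm r Z (σ j)))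
          * (sI hm r Z (σ i) + 1)
        + (∑ u ∈ K, ((ikp (tlo G T hm) (σ i) u : ℤ) + 1
            - if ρ (host u) ∈ J then (ipc u : ℤ) else 0))
          * (∑ u ∈ K, ((ikp (tlo G T hm) (σ i) u : ℤ) + 1
            - if ρ (host u) ∈ J then (ipc u : ℤ) else 0) - 1)
        + 2 * ∑ u ∈ K, (if ρ (host u) ∈ J
            then (iar G (cz G Z T hm (host u)) u : ℤ)
              - ((ikp (tlo G T hm) (σ i) u : ℤ) + 1 - ipc u)
                * (∑ j ∈ J, tI G Z T hm r Z (σ j) - tI G Z T hm r Z (host u))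
            else ((ikp (tlo G T hm) (σ i) u : ℤ) + 1)
              * ((r : ℤ) - 1 - ∑ j ∈ J, tI G Z T hm r Z (σ j)))
        + 2 * ∑ j ∈ J, (∑ u ∈ K, (if ρ (host u) = j then (ipc u : ℤ) else 0))
          * pcn (tlo G T hm) B (σ i) (σ j) := by
  have hcard := h.cardT
  have hfam : ∀ x ∈ T, Fam (co G) (cz G Z T hm) (hz G Z T hm) (tlo G T hm) x
      (pkf (B x) (Ps x)) := fun x hx => (hpk x hx).fam (h.csys.dCH hx hx).symm
  have hfil : ∀ i < n, (T.biUnion fun x => pkf (B x) (Ps x)).filter (fun u => ρ (host u) = i)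
      = pkf (B (σ i)) (Ps (σ i)) := fun i hi => fil_host hst rk (by rw [hcard]; exact hi)
  have hmem : ∀ i < n, σ i ∈ T := fun i hi => rk.mem i (by rw [hcard]; exact hi)
  have hsinj : ∀ i ∈ J, ∀ j ∈ J, σ i = σ j → i = j := fun i hi j hj h1 =>
    rk.sinj (by rw [hcard]; exact hJ i hi) (by rw [hcard]; exact hJ j hj) h1
  have hmK : ∀ u ∈ K, ∃ x ∈ T, u ∈ pkf (B x) (Ps x) ∧ host u = x := by
    intro u hu
    obtain ⟨x, hx, hux⟩ := mem_biUnion.1 (hK hu)
    exact ⟨x, hx, hux, hst x hx u hux⟩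
  have hK' : K ⊆ (T.erase (σ i)).biUnion fun x => pkf (B x) (Ps x) := by
    intro u hu
    obtain ⟨x, hx, hux⟩ := mem_biUnion.1 (hK hu)
    refine mem_biUnion.2 ⟨x, mem_erase.2 ⟨fun h1 => hKh u hu ?_, hx⟩, hux⟩
    show ρ (host u) = i
    rw [hst x hx u hux, h1]
    exact rk.right i (by rw [hcard]; exact hi)
  -- the rows of `J`
  obtain ⟨J', hJ'⟩ : ∃ J', J' = J.image σ := ⟨_, rfl⟩
  have hJc : J'.card = J.card := by
    rw [hJ']
    exact card_image_of_injOn fun i hi j hj h1 => hsinj i hi j hj h1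
  have hJs : ∀ f : V → ℤ, ∑ j ∈ J', f j = ∑ j ∈ J, f (σ j) := by
    intro f
    rw [hJ', sum_image fun i hi j hj h1 => hsinj i hi j hj h1]
  have hJT : J' ⊆ T := by
    intro x hx
    rw [hJ'] at hx
    obtain ⟨j, hj, rfl⟩ := mem_image.1 hx
    exact hmem j (hJ j hj)
  have hzJ : σ i ∉ J' := by
    intro hx
    rw [hJ'] at hx
    obtain ⟨j, hj, h1⟩ := mem_image.1 hx
    refine hiJ ?_
    have h2 : j = i := rk.sinj (by rw [hcard]; exact hJ j hj) (by rw [hcard]; exact hi) h1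
    exact h2 ▸ hj
  have hmJ : ∀ x ∈ T, (x ∈ J' ↔ ρ x ∈ J) := by
    intro x hx
    rw [hJ', mem_image]
    constructor
    · rintro ⟨j, hj, rfl⟩
      rw [rk.right j (by rw [hcard]; exact hJ j hj)]
      exact hj
    · intro h1
      exact ⟨ρ x, h1, rk.left x hx⟩
  have heJ : ∀ x ∈ T, ∀ j < n, (x = σ j ↔ ρ x = j) := by
    intro x hx j hj
    constructor
    · rintro rfl
      exact rk.right j (by rw [hcard]; exact hj)
    · rintro rfl
      exact (rk.left x hx).symm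
  rw [← hJ'] at hE hsv
  have h1 := h.rowMXI hpk hst hJT hK' hk hE hsv
  rw [hJs, hJs, hJs, hJs, hJc] at h1
  have e5 : ∀ f g : Itm V → ℤ, ∑ u ∈ K, (if host u ∈ J' then f u else g u)
      = ∑ u ∈ K, (if ρ (host u) ∈ J then f u else g u) := by
    intro f g
    refine sum_congr rfl fun u hu => ?_
    obtain ⟨x, hx, -, hxx⟩ := hmK u hu
    rw [hxx]
    by_cases h2 : x ∈ J'
    · rw [if_pos h2, if_pos ((hmJ x hx).1 h2)]
    · rw [if_neg h2, if_neg fun h3 => h2 ((hmJ x hx).2 h3)]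
  have e6 : ∑ u ∈ K, ((ikp (tlo G T hm) (σ i) u : ℤ) + 1
        - if host u ∈ J' then (ipc u : ℤ) else 0)
      = ∑ u ∈ K, ((ikp (tlo G T hm) (σ i) u : ℤ) + 1
        - if ρ (host u) ∈ J then (ipc u : ℤ) else 0) := by
    rw [sum_sub_distrib, sum_sub_distrib, e5]
  have e7 : ∑ j ∈ J, (∑ u ∈ K, (if host u = σ j then (ipc u : ℤ) else 0))
          * (∑ u ∈ pkf (B (σ i)) (Ps (σ i)), (ipc u : ℤ) * ikp (tlo G T hm) (σ j) u)
      = ∑ j ∈ J, (∑ u ∈ K, (if ρ (host u) = j then (ipc u : ℤ) else 0))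
          * pcn (tlo G T hm) B (σ i) (σ j) := by
    refine sum_congr rfl fun j hj => ?_
    rw [sum_ipc (tlo G T hm) (σ j) (B (σ i)) (Ps (σ i))]
    have e8 : ∑ u ∈ K, (if host u = σ j then (ipc u : ℤ) else 0)
        = ∑ u ∈ K, (if ρ (host u) = j then (ipc u : ℤ) else 0) := by
      refine sum_congr rfl fun u hu => ?_
      obtain ⟨x, hx, -, hxx⟩ := hmK u hu
      rw [hxx]
      by_cases h2 : x = σ j
      · rw [if_pos h2, if_pos ((heJ x hx j (hJ j hj)).1 h2)]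
      · rw [if_neg h2, if_neg fun h3 => h2 ((heJ x hx j (hJ j hj)).2 h3)]
    rw [e8]
    rfl
  rw [e6, e5, e7] at h1
  rw [hfil i hi]
  exact h1

/-- **T, T+, T++ over the row indices, NO SIGN CONDITION**: columns of a set `J` of rows, all cells `{i, j}`,
`j ∈ J`, paid, the same-host saving; `J` may be empty -/
theorem WCoreK.rowJX (hp : 2 * r ≤ p) (h : WCoreK G Z T r m n p hm)
    {host : Itm V → V} {ρ : V → ℕ} {σ : ℕ → V}
    (hpk : ∀ x ∈ T, Pk G (cz G Z T hm x) (hz G Z T hm x) (tlo G T hm) (B x) (Ps x))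
    (min : ∀ x ∈ T, ∀ B' Ps', Pk G (cz G Z T hm x) (hz G Z T hm x) (tlo G T hm) B' Ps' →
      (Ps x).card ≤ Ps'.card)
    (hst : ∀ x ∈ T, ∀ u ∈ pkf (B x) (Ps x), host u = x)
    (rk : Rank T (tI G Z T hm r Z) ρ σ) {i : ℕ} (hi : i < n) {J : Finset ℕ} (hJ : ∀ j ∈ J, j < n)
    (hiJ : i ∉ J) {K : Finset (Itm V)}
    (hK : K ⊆ T.biUnion fun x => pkf (B x) (Ps x)) (hKh : ∀ u ∈ K, ρ (host u) ≠ i)
    (hk : ∀ u ∈ K, ikp (tlo G T hm) (σ i) u ≠ 0) :
    2 * ((r : ℤ) - 1) * J.card * sI hm r Z (σ i) - (J.card : ℤ) * (J.card - 1) * ((r : ℤ) - 1)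
      - ((∑ j ∈ J, tI G Z T hm r Z (σ j)) ^ 2 - ∑ j ∈ J, tI G Z T hm r Z (σ j) ^ 2)
      + 2 * ∑ u ∈ K, ((ikp (tlo G T hm) (σ i) u : ℤ) * ((r : ℤ) - 1 - tI G Z T hm r Z (σ i))
        - (rmr G (cz G Z T hm) (tlo G T hm) (σ i) u : ℤ))
      + 2 * ∑ j ∈ J, ∑ u ∈ (T.biUnion fun x => pkf (B x) (Ps x)).filter (fun u => ρ (host u) = i),
        ((ikp (tlo G T hm) (σ j) u : ℤ) * ((r : ℤ) - 1 - tI G Z T hm r Z (σ j))
          - (ims G (cz G Z T hm) (tlo G T hm) (σ j) u : ℤ))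
      + 2 * ∑ j ∈ J, (nxk G (cz G Z T hm (σ i)) (hz G Z T hm (σ i)) (tlo G T hm) (B (σ i)) (σ j)
        + pfw G (cz G Z T hm (σ i)) (tlo G T hm) (B (σ i)) (σ j))
      + ∑ x ∈ range n, ((K.filter fun u => ρ (host u) = x
            ∧ (ikp (tlo G T hm) (σ i) u : ℤ) = (ivl u : ℤ) ∧ (x ∈ J → ipc u = 0)).card : ℤ)
          * (((K.filter fun u => ρ (host u) = x
            ∧ (ikp (tlo G T hm) (σ i) u : ℤ) = (ivl u : ℤ) ∧ (x ∈ J → ipc u = 0)).card : ℤ) - 1)
      ≤ 2 * eI G hm Z (σ i)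
        + 2 * (∑ u ∈ K, ((ikp (tlo G T hm) (σ i) u : ℤ) + 1
            - if ρ (host u) ∈ J then (ipc u : ℤ) else 0)
            + ((J.card : ℤ) * ((r : ℤ) - 1) - ∑ j ∈ J, tI G Z T hm r Z (σ j)))
          * (sI hm r Z (σ i) + 1)
        + (∑ u ∈ K, ((ikp (tlo G T hm) (σ i) u : ℤ) + 1
            - if ρ (host u) ∈ J then (ipc u : ℤ) else 0))
          * (∑ u ∈ K, ((ikp (tlo G T hm) (σ i) u : ℤ) + 1
            - if ρ (host u) ∈ J then (ipc u : ℤ) else 0) - 1)
        + 2 * ∑ u ∈ K, (if ρ (host u) ∈ J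
            then (iar G (cz G Z T hm (host u)) u : ℤ)
              - ((ikp (tlo G T hm) (σ i) u : ℤ) + 1 - ipc u)
                * (∑ j ∈ J, tI G Z T hm r Z (σ j) - tI G Z T hm r Z (host u))
            else ((ikp (tlo G T hm) (σ i) u : ℤ) + 1)
              * ((r : ℤ) - 1 - ∑ j ∈ J, tI G Z T hm r Z (σ j)))
        + 2 * ∑ j ∈ J, (∑ u ∈ K, (if ρ (host u) = j then (ipc u : ℤ) else 0))
          * pcn (tlo G T hm) B (σ i) (σ j) := by
  have hcard := h.toWHom.cardT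
  have hfam : ∀ x ∈ T, Fam (co G) (cz G Z T hm) (hz G Z T hm) (tlo G T hm) x
      (pkf (B x) (Ps x)) := fun x hx => (hpk x hx).fam (h.csys.dCH hx hx).symm
  have hfil : ∀ i < n, (T.biUnion fun x => pkf (B x) (Ps x)).filter (fun u => ρ (host u) = i)
      = pkf (B (σ i)) (Ps (σ i)) := fun i hi => fil_host hst rk (by rw [hcard]; exact hi)
  have hmem : ∀ i < n, σ i ∈ T := fun i hi => rk.mem i (by rw [hcard]; exact hi)
  have hsinj : ∀ i ∈ J, ∀ j ∈ J, σ i = σ j → i = j := fun i hi j hj h1 =>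
    rk.sinj (by rw [hcard]; exact hJ i hi) (by rw [hcard]; exact hJ j hj) h1
  have hmK : ∀ u ∈ K, ∃ x ∈ T, u ∈ pkf (B x) (Ps x) ∧ host u = x := by
    intro u hu
    obtain ⟨x, hx, hux⟩ := mem_biUnion.1 (hK hu)
    exact ⟨x, hx, hux, hst x hx u hux⟩
  have hK' : K ⊆ (T.erase (σ i)).biUnion fun x => pkf (B x) (Ps x) := by
    intro u hu
    obtain ⟨x, hx, hux⟩ := mem_biUnion.1 (hK hu)
    refine mem_biUnion.2 ⟨x, mem_erase.2 ⟨fun h1 => hKh u hu ?_, hx⟩, hux⟩
    show ρ (host u) = i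
    rw [hst x hx u hux, h1]
    exact rk.right i (by rw [hcard]; exact hi)
  -- the rows of `J`
  obtain ⟨J', hJ'⟩ : ∃ J', J' = J.image σ := ⟨_, rfl⟩
  have hJc : J'.card = J.card := by
    rw [hJ']
    exact card_image_of_injOn fun i hi j hj h1 => hsinj i hi j hj h1
  have hJs : ∀ f : V → ℤ, ∑ j ∈ J', f j = ∑ j ∈ J, f (σ j) := by
    intro f
    rw [hJ', sum_image fun i hi j hj h1 => hsinj i hi j hj h1]
  have hJT : J' ⊆ T := by
    intro x hx
    rw [hJ'] at hx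
    obtain ⟨j, hj, rfl⟩ := mem_image.1 hx
    exact hmem j (hJ j hj)
  have hzJ : σ i ∉ J' := by
    intro hx
    rw [hJ'] at hx
    obtain ⟨j, hj, h1⟩ := mem_image.1 hx
    refine hiJ ?_
    have h2 : j = i := rk.sinj (by rw [hcard]; exact hJ j hj) (by rw [hcard]; exact hi) h1
    exact h2 ▸ hj
  have hmJ : ∀ x ∈ T, (x ∈ J' ↔ ρ x ∈ J) := by
    intro x hx
    rw [hJ', mem_image]
    constructor
    · rintro ⟨j, hj, rfl⟩
      rw [rk.right j (by rw [hcard]; exact hJ j hj)]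
      exact hj
    · intro h1
      exact ⟨ρ x, h1, rk.left x hx⟩
  have heJ : ∀ x ∈ T, ∀ j < n, (x = σ j ↔ ρ x = j) := by
    intro x hx j hj
    constructor
    · rintro rfl
      exact rk.right j (by rw [hcard]; exact hj)
    · rintro rfl
      exact (rk.left x hx).symm
  -- the saved pairs
  obtain ⟨F, hF⟩ : ∃ F, F = K.filter fun u => (ikp (tlo G T hm) (σ i) u : ℤ) = (ivl u : ℤ)
    ∧ (ρ (host u) ∈ J → ipc u = 0) := ⟨_, rfl⟩
  have hFK : F ⊆ K := by
    rw [hF]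
    exact filter_subset _ _
  have e3 : ∀ x, (K.filter fun u => ρ (host u) = x
        ∧ (ikp (tlo G T hm) (σ i) u : ℤ) = (ivl u : ℤ) ∧ (x ∈ J → ipc u = 0))
      = F.filter fun u => ρ (host u) = x := by
    intro x
    ext u
    simp only [hF, mem_filter]
    constructor
    · rintro ⟨h1, h2, h3, h4⟩
      exact ⟨⟨h1, h3, fun h5 => h4 (h2 ▸ h5)⟩, h2⟩
    · rintro ⟨⟨h1, h3, h4⟩, h2⟩
      exact ⟨h1, h2, h3, fun h5 => h4 (h2.symm ▸ h5)⟩
  obtain ⟨D, hDd⟩ : ∃ D, D = (F ×ˢ F).filter fun e => e.1 ≠ e.2 ∧ ρ (host e.1) = ρ (host e.2) :=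
    ⟨_, rfl⟩
  have e4 : (D.card : ℤ) = ∑ x ∈ range n, ((F.filter fun u => ρ (host u) = x).card : ℤ)
      * (((F.filter fun u => ρ (host u) = x).card : ℤ) - 1) := by
    rw [← card_same F (fun u => ρ (host u)) (range n) fun u hu => by
      obtain ⟨x, hx, -, h1⟩ := hmK u (hFK hu)
      show ρ (host u) ∈ range n
      rw [h1]
      have := rk.lt x hx
      rw [hcard] at this
      exact mem_range.2 this]
    have e9 : ∀ s s' : Finset (Itm V × Itm V), (∀ e, e ∈ s ↔ e ∈ s') →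
        (s.card : ℤ) = (s'.card : ℤ) := fun s s' h => by rw [Finset.ext h]
    exact e9 _ _ fun e => by simp only [hDd, mem_filter]
  have hX2 : ∀ Q, (oth (tlo G T hm) (σ i) Q).Nonempty →
      1 ≤ (one1 (oth (tlo G T hm) (σ i) Q)).card := by
    intro Q hQ
    unfold one1
    rw [dif_pos hQ, card_singleton]
  have hDD : ∀ e ∈ D, e.1 ∈ K ∧ e.2 ∈ K ∧
      ∃ p ∈ rpts (tlo G T hm) (fun Q => one1 (oth (tlo G T hm) (σ i) Q)) (σ i) e.1
        \ J'.biUnion (CP G Z T fun x => Z.filter fun v => hm v = x),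
      ∃ q ∈ rpts (tlo G T hm) (fun Q => one1 (oth (tlo G T hm) (σ i) Q)) (σ i) e.2
        \ J'.biUnion (CP G Z T fun x => Z.filter fun v => hm v = x), G.Adj p q := by
    intro e he
    rw [hDd] at he
    obtain ⟨h7, h8, h9⟩ := mem_filter.1 he
    obtain ⟨ha, hb⟩ := mem_product.1 h7
    have haL := hFK ha
    have hbL := hFK hb
    rw [hF] at ha hb
    obtain ⟨-, ha2, ha3⟩ := mem_filter.1 ha
    obtain ⟨-, hb2, hb3⟩ := mem_filter.1 hb
    obtain ⟨x, hx, hux, hxx⟩ := hmK e.1 haL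
    obtain ⟨y, hy, huy, hyy⟩ := hmK e.2 hbL
    have hxy : x = y := by
      rw [hxx, hyy] at h9
      have h10 := rk.left x hx
      rw [h9, rk.left y hy] at h10
      exact h10.symm
    subst hxy
    refine ⟨haL, hbL, ?_⟩
    obtain ⟨p, hp, q, hq, hpq⟩ := Pk.adj_full h.F.toPFrame h.hh h.csys h.ht hx (hpk x hx)
      (min x hx) hux huy h8 (by exact_mod_cast ha2) (by exact_mod_cast hb2)
    have hout : ∀ w : Itm V, w ∈ pkf (B x) (Ps x) → (ρ x ∈ J → ipc w = 0) →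
        ∀ p ∈ ipts w, p ∉ J'.biUnion (CP G Z T fun x => Z.filter fun v => hm v = x) := by
      intro w hw hw0 p hp hpj
      obtain ⟨j, hj, hpj2⟩ := mem_biUnion.1 hpj
      have hjT := hJT hj
      by_cases hxj : x = j
      · have h11 := hw0 ((hmJ x hx).1 (hxj ▸ hj))
        rcases w with Q | f
        · exact disjoint_left.1 (h.wsysT.dHC x hx _ hjT)
            ((hfam x hx).sub Q hw hp) hpj2
        · simp [ipc] at h11
      · have h12 := (hfam x hx).ipts_sub hw hp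
        rcases mem_union.1 h12 with h13 | h13
        · exact disjoint_left.1 (h.wsysT.dHC x hx _ hjT) h13 hpj2
        · exact disjoint_left.1 (h.wsysT.dCC x hx _ hjT hxj) h13 hpj2
    rw [rpts_full (fun Q => one1_sub _) hX2 (fun Q hQ => (hfam x hx).two Q (hQ ▸ hux))
        (by exact_mod_cast ha2),
      rpts_full (fun Q => one1_sub _) hX2 (fun Q hQ => (hfam x hx).two Q (hQ ▸ huy))
        (by exact_mod_cast hb2)]
    rw [hxx] at ha3
    rw [hyy] at hb3
    exact ⟨p, mem_sdiff.2 ⟨hp, hout _ hux ha3 p hp⟩, q, mem_sdiff.2 ⟨hq, hout _ huy hb3 q hq⟩,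
      hpq⟩
  subst hJ'
  have h1 := h.toWHom.rowX hpk hst rk hi hJ hiJ hK hKh hk
    (h.rowM_cell hp hpk (J.image σ).card (hmem i hi) hJT hzJ (K := K) hK' hk
      (X := fun Q => one1 (oth (tlo G T hm) (σ i) Q)) (fun Q => one1_sub _))
    (Fam.savM h.wsysT hfam hK' hk (fun Q => one1_sub _) hDD)
  rw [hJs, e4] at h1
  simp only [e3]
  exact h1

end RowJX

end Pool.Agent.Lib.MP_f04ccf_co
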