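import Pool.Agent.Lib.MP_f04ccf_co.M.RowG
import Pool.Agent.Lib.MP_f04ccf_co.M.RowX
import Pool.Agent.Lib.MP_f04ccf_co.M.NuI

/-!
MP_f04ccf_co, note 17720: **mixed cells**.  The cell test for the PC pairs of both homes together with plain
units of both directions; the arcs of a plain member to the class points of the PC pairs of its tail cost
nothing (both members miss the point, so they are adjacent).

* `CellD.mix`: missing pairs of both kinds and further points `L`.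
* `WCoreK.cellGN`, `WCoreK.cellG`, `WCoreK.cellG1`: over the frame, all PC pairs of both homes and plain items
  `K` of `x` loaded at `y`, `K'` of `y` loaded at `x` (missing pairs kept; Turan; units of value one).
* `MixI`: the fields over the integers (`pcj`, `mix`), `WCoreK.mixI`: the transport for ANY packings (versions
  [B] and [C]).
* `MixI.full`, `MixI.all`, `MixI.cap`: PC pairs of both homes and full units of both directions:
  `(E - 1) R + Σ t ≤ t t' + E²`, `p R ≤ R + t t' + p²` for all `p ≤ E`, `E ≤ t'` and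
  `(E - 1) (R - t') ≤ t' (t + 1)` for `t' ≤ t`, `t + t' + 3 ≤ R`.
-/

set_option autoImplicit false

namespace Pool.Agent.Lib.MP_f04ccf_co

open Finset

attribute [local instance] Classical.propDecidable

section Gen

variable {V : Type*} {G : SimpleGraph V} {r : ℕ} {C D I : Finset V}

/-- **the cell test of missing pairs of both kinds with further points** `L`: `TM` are the misses of the
points of `L` which are not paid by adjacent missing pairs -/
theorem CellD.mix (hI : CellD G C D I) (hP : PG G r) (hC : Clq G C) (hD : Clq G D)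
    (dCD : Disjoint C D) {K K' : Finset (V × V)} (k1 : ∀ e ∈ K, e.1 ∈ I) (k2 : ∀ e ∈ K, e.2 ∈ C)
    (k3 : ∀ e ∈ K, ¬ G.Adj e.1 e.2) (i1 : ∀ e ∈ K, ∀ f ∈ K, e.1 = f.1 → e = f)
    (i2 : ∀ e ∈ K, ∀ f ∈ K, e.2 = f.2 → e = f) (k1' : ∀ e ∈ K', e.1 ∈ I)
    (k2' : ∀ e ∈ K', e.2 ∈ D) (k3' : ∀ e ∈ K', ¬ G.Adj e.1 e.2)
    (i1' : ∀ e ∈ K', ∀ f ∈ K', e.1 = f.1 → e = f) (i2' : ∀ e ∈ K', ∀ f ∈ K', e.2 = f.2 → e = f)
    (hd : ∀ e ∈ K, ∀ f ∈ K', e.1 ≠ f.1)
    (l1 : ∀ e ∈ K, (msC G C e.1).card ≤ (msC G D e.1).card)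
    (l2 : ∀ e ∈ K', (msC G D e.1).card ≤ (msC G C e.1).card)
    {L : Finset V} (hLC : Disjoint C L) (hLD : Disjoint D L)
    (hL : Disjoint (K.image Prod.fst ∪ K'.image Prod.fst) L) {TM : ℤ}
    (hTM : ∑ v ∈ L, ((nd G C v : ℤ) + nd G D v)
      ≤ TM + ∑ v ∈ L, (dg G (K.image Prod.fst ∪ K'.image Prod.fst) v : ℤ)) :
    2 * (((K.card : ℤ) + K'.card + L.card - 1) * ((r : ℤ) - 1))
        + NE G (K.image Prod.fst ∪ K'.image Prod.fst)
      ≤ 2 * (((r : ℤ) - 1 - C.card) * ((r : ℤ) - 1 - D.card))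
        + 2 * ((K.card : ℤ) + K'.card) ^ 2 + 2 * (((K.card : ℤ) + K'.card) * L.card)
        + NE G L + 2 * TM := by
  have h1 := hI.edgB k1 k2 k3 i2 k1' k2' k3' i2' hd l1 l2
  obtain ⟨W, hW⟩ : ∃ W, W = K.image Prod.fst ∪ K'.image Prod.fst := ⟨_, rfl⟩
  rw [← hW] at hL hTM h1 ⊢
  have c1 : (K.image Prod.fst).card = K.card :=
    card_image_of_injOn fun e he f hf hef =>
      i1 e (by exact_mod_cast he) f (by exact_mod_cast hf) hef
  have c2 : (K'.image Prod.fst).card = K'.card :=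
    card_image_of_injOn fun e he f hf hef =>
      i1' e (by exact_mod_cast he) f (by exact_mod_cast hf) hef
  have hdis : Disjoint (K.image Prod.fst) (K'.image Prod.fst) := by
    rw [disjoint_left]
    intro v hv hv'
    obtain ⟨e, he, h2⟩ := mem_image.1 hv
    obtain ⟨f, hf, h3⟩ := mem_image.1 hv'
    exact hd e he f hf (h2.trans h3.symm)
  have hWI : W ⊆ I := by
    intro v hv
    rw [hW] at hv
    rcases mem_union.1 hv with hv | hv
    · obtain ⟨e, he, rfl⟩ := mem_image.1 hv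
      exact k1 e he
    · obtain ⟨e, he, rfl⟩ := mem_image.1 hv
      exact k1' e he
  have hWc : (W.card : ℤ) = (K.card : ℤ) + K'.card := by
    rw [hW, card_union_of_disjoint hdis, c1, c2]
    push_cast
    rfl
  have h2 : ∑ c ∈ D, (dg G C c : ℤ) = (eds G C D).card := by
    rw [card_eds_eq]
    exact_mod_cast (dg_comm G C D).symm
  have h3 := hP.s1_cell (W := W ∪ L) hC hD dCD
    (disjoint_union_right.2 ⟨disjoint_right.2 fun w hw h => hI.nC w (hWI hw) h, hLC⟩)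
    (disjoint_union_right.2 ⟨disjoint_right.2 fun w hw h => hI.nD w (hWI hw) h, hLD⟩)
  have h4 : (NE G (W ∪ L) : ℤ) = NE G W + NE G L + 2 * ∑ x ∈ L, (nd G W x : ℤ) := by
    rw [NE_union hL]
    push_cast
    ring
  have h5 : ∑ x ∈ L, (nd G W x : ℤ) = (W.card : ℤ) * L.card - ∑ x ∈ L, (dg G W x : ℤ) := by
    have e1 : ∀ x ∈ L, (nd G W x : ℤ) = (W.card : ℤ) - dg G W x := by
      intro x hx
      have := nd_of_notMem (G := G) (A := W) (x := x) fun h => disjoint_left.1 hL h hx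
      omega
    rw [sum_congr rfl e1, sum_sub_distrib, sum_const, nsmul_eq_mul, mul_comm (L.card : ℤ)]
  have h6 := E_add_NE (G := G) W
  have h7 : ((W ∪ L).card : ℤ) = (W.card : ℤ) + L.card := by
    rw [card_union_of_disjoint hL]
    push_cast
    rfl
  rw [sum_union hL, h7, h4, h5] at h3
  rw [h2] at h1
  rw [← hWc]
  nlinarith [h1, h3, h6, hTM]

end Gen

section Frame

variable {V : Type*} {G : SimpleGraph V} {Z T : Finset V} {hm : V → V} {r m n p : ℕ}
  {A : Finset V} {S : V → Finset V} {U : V → Finset (Itm V)}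

/-- **the misses of the used points of one item at the tail**: all columns once and `rmr` -/
theorem Fam.nd_tail (hW : WSysT G (co G) A (CP G Z T S) (HP G Z T S) (tlo G T hm))
    (h : ∀ x ∈ A, Fam (co G) (CP G Z T S) (HP G Z T S) (tlo G T hm) x (U x))
    {x z : V} (hx : x ∈ A) {u : Itm V} (hu : u ∈ U x) (hk : ikp (tlo G T hm) z u ≠ 0)
    (hpts : Disjoint (rpts (tlo G T hm) (fun Q => one1 (oth (tlo G T hm) z Q)) z u)
      (CP G Z T S z)) :
    ∑ v ∈ rpts (tlo G T hm) (fun Q => one1 (oth (tlo G T hm) z Q)) z u,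
        (nd G (CP G Z T S z) v : ℤ)
      ≤ (CP G Z T S z).card + rmr G (CP G Z T S) (tlo G T hm) z u := by
  obtain ⟨X, hXd⟩ : ∃ X : Finset V → Finset V, X = fun Q => one1 (oth (tlo G T hm) z Q) :=
    ⟨_, rfl⟩
  have hX : ∀ Q, X Q ⊆ oth (tlo G T hm) z Q := fun Q => by
    rw [hXd]
    exact one1_sub _
  have hcard := Fam.rpts_card h hx hu hk hW
  have hr : rmr G (CP G Z T S) (tlo G T hm) z u
      = (rcl G (CP G Z T S) (tlo G T hm) X z u).card := by
    rw [hXd]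
    rfl
  rw [← hXd] at hcard hpts ⊢
  rw [hr]
  have h1 : ∑ v ∈ rpts (tlo G T hm) X z u, (nd G (CP G Z T S z) v : ℤ)
      = ∑ c ∈ CP G Z T S z, (nd G (rpts (tlo G T hm) X z u) c : ℤ) := by
    exact_mod_cast nd_comm (G := G) (rpts (tlo G T hm) X z u) (CP G Z T S z)
  rw [h1]
  have h2 : ∀ c ∈ CP G Z T S z, (nd G (rpts (tlo G T hm) X z u) c : ℤ)
      ≤ 1 + if c ∈ rcl G (CP G Z T S) (tlo G T hm) X z u then 1 else 0 := by
    intro c hc
    have h3 := (h x hx).see hW hx (z := z) hX hu hc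
    have h4 := nd_of_notMem (G := G) (A := rpts (tlo G T hm) X z u) (x := c)
      fun h5 => disjoint_left.1 hpts h5 hc
    rw [hcard] at h4
    have h5 : (dg G (rpts (tlo G T hm) X z u) c : ℤ) + nd G (rpts (tlo G T hm) X z u) c
        = (ikp (tlo G T hm) z u : ℤ) + 1 := by exact_mod_cast h4
    linarith
  refine (sum_le_sum h2).trans ?_
  rw [sum_add_distrib, sum_const, nsmul_eq_mul, mul_one, ← sum_filter, sum_const, nsmul_eq_mul,
    mul_one]
  have h3 : (CP G Z T S z).filter (fun c => c ∈ rcl G (CP G Z T S) (tlo G T hm) X z u)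
      = rcl G (CP G Z T S) (tlo G T hm) X z u := by
    ext c
    rw [mem_filter]
    exact ⟨fun h => h.2, fun h => ⟨rcl_sub h, h⟩⟩
  rw [h3]

/-- the sum over a union is at most the sum of the sums -/
lemma sum_biUnion_le' {ι V : Type*} (K : Finset ι) (g : ι → Finset V) {f : V → ℤ}
    (hf : ∀ v, 0 ≤ f v) : ∑ v ∈ K.biUnion g, f v ≤ ∑ u ∈ K, ∑ v ∈ g u, f v := by
  induction K using Finset.induction_on with
  | empty => simp
  | insert u K hu ih =>
    rw [biUnion_insert, sum_insert hu]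
    have h1 := sum_union_inter (s₁ := g u) (s₂ := K.biUnion g) (f := f)
    have h2 : 0 ≤ ∑ v ∈ g u ∩ K.biUnion g, f v := sum_nonneg fun v _ => hf v
    linarith

/-- the arcs of an item which are not shared with the PC pairs of the tail `z`: free arcs of the members
with tail `z`, all arcs of the other members -/
noncomputable def irs (G : SimpleGraph V) (C : Finset V) (tl : V → V) (B : Finset (V × V)) (z : V)
    (u : Itm V) : ℕ :=
  ∑ v ∈ imem u, (if tl v = z then (frC G C tl B v).card else nd G C v)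

/-- **the arcs of a member**: the free ones and adjacent PC members of its tail -/
theorem Pk.nd_shared {C H : Finset V} {tl : V → V} {B : Finset (V × V)} {Ps : Finset (Finset V)}
    (hQ : Pk G C H tl B Ps) {v y : V} (hvy : tl v = y)
    (hcom : ∀ e ∈ pcs tl B y, ¬ G.Adj v e.2 → G.Adj v e.1) :
    nd G C v ≤ (frC G C tl B v).card + dg G ((pcs tl B y).image Prod.fst) v := by
  have h1 : C.filter (fun a => a ≠ v ∧ ¬ G.Adj v a)
      ⊆ frC G C tl B v ∪ ((pcs tl B y).filter fun e => ¬ G.Adj v e.2).image Prod.snd := by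
    intro a ha
    obtain ⟨h2, -, h3⟩ := mem_filter.1 ha
    by_cases h4 : a ∈ frC G C tl B v
    · exact mem_union_left _ h4
    · apply mem_union_right
      rw [mem_frC] at h4
      push Not at h4
      obtain ⟨e, he, hea, het⟩ := h4 h2 h3
      exact mem_image.2 ⟨e, mem_filter.2 ⟨mem_pcs.2 ⟨he, het.trans hvy⟩, hea ▸ h3⟩, hea⟩
  have h2 : ((pcs tl B y).filter fun e => ¬ G.Adj v e.2).card
      ≤ dg G ((pcs tl B y).image Prod.fst) v := by
    have h3 : (((pcs tl B y).filter fun e => ¬ G.Adj v e.2).image Prod.fst).card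
        = ((pcs tl B y).filter fun e => ¬ G.Adj v e.2).card := by
      refine card_image_of_injOn fun e he f hf hef => ?_
      have he' : e ∈ (pcs tl B y).filter fun e => ¬ G.Adj v e.2 := by exact_mod_cast he
      have hf' : f ∈ (pcs tl B y).filter fun e => ¬ G.Adj v e.2 := by exact_mod_cast hf
      exact hQ.b1 e (mem_pcs.1 (mem_filter.1 he').1).1 f (mem_pcs.1 (mem_filter.1 hf').1).1 hef
    rw [← h3]
    refine card_le_card fun w hw => ?_
    obtain ⟨e, he, rfl⟩ := mem_image.1 hw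
    obtain ⟨h4, h5⟩ := mem_filter.1 he
    exact mem_filter.2 ⟨mem_image_of_mem _ h4, hcom e h4 h5⟩
  have h3 : nd G C v = (C.filter (fun a => a ≠ v ∧ ¬ G.Adj v a)).card := rfl
  have h4 := card_le_card h1
  have h5 := card_union_le (frC G C tl B v)
    (((pcs tl B y).filter fun e => ¬ G.Adj v e.2).image Prod.snd)
  have h6 : (((pcs tl B y).filter fun e => ¬ G.Adj v e.2).image Prod.snd).card
      ≤ ((pcs tl B y).filter fun e => ¬ G.Adj v e.2).card := card_image_le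
  omega

/-- **the arcs of a plain member**, over the frame -/
theorem WCoreK.nd_shared (h : WCoreK G Z T r m n p hm) {x y : V} (hx : x ∈ T) (hy : y ∈ T)
    (hxy : x ≠ y) {B : Finset (V × V)} {Ps : Finset (Finset V)}
    (hQ : Pk G (cz G Z T hm x) (hz G Z T hm x) (tlo G T hm) B Ps) {v : V}
    (hv : v ∈ hz G Z T hm x) (hvy : tlo G T hm v = y) (hvB : ∀ e ∈ B, e.1 ≠ v) :
    nd G (cz G Z T hm x) v ≤ (frC G (cz G Z T hm x) (tlo G T hm) B v).card
      + dg G ((pcs (tlo G T hm) B y).image Prod.fst) v := by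
  have hcell := h.csys.cellD h.F.toPFrame hx hy hxy
  have hvD := h.csys.mem_Dbl_of_tlo h.hh hx hv hvy
  refine hQ.nd_shared hvy fun e he hne => ?_
  obtain ⟨h6, h7⟩ := mem_pcs.1 he
  exact hcell.comC v hvD e.1 (h.csys.mem_Dbl_of_tlo h.hh hx (hQ.bH e h6) h7)
    (fun h8 => hvB e h6 h8.symm) e.2 (hQ.bC e h6) hne (hQ.bN e h6)

/-- **the misses of the plain items of one direction** -/
theorem WCoreK.sum_plain (h : WCoreK G Z T r m n p hm) {B : V → Finset (V × V)}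
    {Ps : V → Finset (Finset V)}
    (hpk : ∀ x ∈ T, Pk G (cz G Z T hm x) (hz G Z T hm x) (tlo G T hm) (B x) (Ps x))
    {x y : V} (hx : x ∈ T) (hy : y ∈ T) (hxy : x ≠ y) {K : Finset (Itm V)}
    (hK : K ⊆ pkf (B x) (Ps x)) (h0 : ∀ u ∈ K, ipc u = 0 ∧ ikp (tlo G T hm) y u ≠ 0) :
    ∑ v ∈ cpt (cz G Z T hm) (tlo G T hm) K x y,
        ((nd G (cz G Z T hm x) v : ℤ) + nd G (cz G Z T hm y) v)
      ≤ ∑ u ∈ K, (((cz G Z T hm y).card : ℤ) + rmr G (cz G Z T hm) (tlo G T hm) y u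
          + irs G (cz G Z T hm x) (tlo G T hm) (B x) y u)
        + ∑ v ∈ cpt (cz G Z T hm) (tlo G T hm) K x y,
          (dg G ((pcs (tlo G T hm) (B x) y).image Prod.fst) v : ℤ) := by
  have hfam : ∀ x ∈ T, Fam (co G) (cz G Z T hm) (hz G Z T hm) (tlo G T hm) x
      (pkf (B x) (Ps x)) := fun x hx => (hpk x hx).fam (h.csys.dCH hx hx).symm
  have hW := h.wsysT
  have hQ := hpk x hx
  -- a plain item consists of members
  have hpl : ∀ u ∈ K, ∃ P ∈ Ps x, u = Sum.inl P := by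
    intro u hu
    rcases u with P | e
    · exact ⟨P, (inl_mem_pkf.1 (hK hu)).1, rfl⟩
    · have := (h0 _ hu).1
      simp [ipc] at this
  have hcpt := fun {v : V} (hv : v ∈ cpt (cz G Z T hm) (tlo G T hm) K x y) =>
    Fam.cpt_HP hW hfam hx hK hv
  have hsub : cpt (cz G Z T hm) (tlo G T hm) K x y
      ⊆ K.biUnion (rpts (tlo G T hm) (fun Q => one1 (oth (tlo G T hm) y Q)) y) := sdiff_subset
  -- the home
  have h1 : ∀ v ∈ cpt (cz G Z T hm) (tlo G T hm) K x y, (nd G (cz G Z T hm x) v : ℤ)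
      ≤ (if tlo G T hm v = y then ((frC G (cz G Z T hm x) (tlo G T hm) (B x) v).card : ℤ)
          else nd G (cz G Z T hm x) v)
        + dg G ((pcs (tlo G T hm) (B x) y).image Prod.fst) v := by
    intro v hv
    obtain ⟨h2, u, hu, h3, -⟩ := hcpt hv
    by_cases h4 : tlo G T hm v = y
    · rw [if_pos h4]
      have h5 := h.nd_shared hx hy hxy hQ h2 h4 (fun e he hev => by
        obtain ⟨P, hP, rfl⟩ := hpl u hu
        exact hQ.dw e he P hP (hev ▸ h3))
      exact_mod_cast h5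
    · rw [if_neg h4]
      have : (0 : ℤ) ≤ dg G ((pcs (tlo G T hm) (B x) y).image Prod.fst) v := Nat.cast_nonneg _
      linarith
  have h2 : ∑ v ∈ cpt (cz G Z T hm) (tlo G T hm) K x y,
      (if tlo G T hm v = y then ((frC G (cz G Z T hm x) (tlo G T hm) (B x) v).card : ℤ)
          else nd G (cz G Z T hm x) v)
      ≤ ∑ u ∈ K, (irs G (cz G Z T hm x) (tlo G T hm) (B x) y u : ℤ) := by
    have e1 : cpt (cz G Z T hm) (tlo G T hm) K x y ⊆ K.biUnion imem := by
      intro v hv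
      obtain ⟨-, u, hu, h3, -⟩ := hcpt hv
      exact mem_biUnion.2 ⟨u, hu, h3⟩
    have e0 : ∀ v, (0 : ℤ) ≤ (if tlo G T hm v = y
        then ((frC G (cz G Z T hm x) (tlo G T hm) (B x) v).card : ℤ)
          else nd G (cz G Z T hm x) v) := by
      intro v
      split_ifs
      · exact Nat.cast_nonneg _
      · exact Nat.cast_nonneg _
    refine (sum_le_sum_of_subset_of_nonneg e1 fun v _ _ => e0 v).trans
      ((sum_biUnion_le' K imem e0).trans (le_of_eq (sum_congr rfl fun u _ => ?_)))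
    unfold irs
    push_cast
    rfl
  -- the tail
  have h3 : ∑ v ∈ cpt (cz G Z T hm) (tlo G T hm) K x y, (nd G (cz G Z T hm y) v : ℤ)
      ≤ ∑ u ∈ K, (((cz G Z T hm y).card : ℤ) + rmr G (cz G Z T hm) (tlo G T hm) y u) := by
    refine (sum_le_sum_of_subset_of_nonneg hsub fun v _ _ => Nat.cast_nonneg _).trans
      ((sum_biUnion_le' K _ fun v => Nat.cast_nonneg _).trans (sum_le_sum fun u hu => ?_))
    refine Fam.nd_tail hW hfam hx (hK hu) (h0 u hu).2 ?_
    obtain ⟨P, hP, rfl⟩ := hpl u hu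
    rw [disjoint_left]
    intro v hv hv'
    have h4 := (hfam x hx).sub P (hK hu)
      ((hfam x hx).rpts_sub (X := fun Q => one1 (oth (tlo G T hm) y Q)) (fun Q => one1_sub _) hv)
    exact disjoint_left.1 (hW.dHC x hx y hy) h4 hv'
  have h4 := sum_le_sum h1
  rw [sum_add_distrib] at h4
  rw [sum_add_distrib, sum_add_distrib]
  linarith

end Frame

section Frame2

variable {V : Type*} {G : SimpleGraph V} {Z T : Finset V} {hm : V → V} {r m n p : ℕ}

/-- **the mixed cell test**, the missing pairs of the points kept: the PC pairs of both homes (`M`) together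
with plain items of both directions; the arcs of a plain member to class points of PC pairs of its tail cost
nothing (`irs`) -/
theorem WCoreK.cellGN (hp : 2 * r ≤ p) (h : WCoreK G Z T r m n p hm) {B : V → Finset (V × V)}
    {Ps : V → Finset (Finset V)}
    (hpk : ∀ x ∈ T, Pk G (cz G Z T hm x) (hz G Z T hm x) (tlo G T hm) (B x) (Ps x))
    {x y : V} (hx : x ∈ T) (hy : y ∈ T) (hxy : x ≠ y) {K K' : Finset (Itm V)}
    (hK : K ⊆ pkf (B x) (Ps x)) (hK' : K' ⊆ pkf (B y) (Ps y))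
    (h0 : ∀ u ∈ K, ipc u = 0 ∧ ikp (tlo G T hm) y u ≠ 0)
    (h0' : ∀ u ∈ K', ipc u = 0 ∧ ikp (tlo G T hm) x u ≠ 0)
    {M w : ℤ}
    (hM : M = (pcs (tlo G T hm) (B x) y).card + (pcs (tlo G T hm) (B y) x).card)
    (hw : w = ∑ u ∈ K, ((ikp (tlo G T hm) y u : ℤ) + 1)
      + ∑ u ∈ K', ((ikp (tlo G T hm) x u : ℤ) + 1)) :
    2 * ((M - 1) * ((r : ℤ) - 1))
        + 2 * ∑ u ∈ K, (((r : ℤ) - 1) * ikp (tlo G T hm) y u + tI G Z T hm r Z y
            - rmr G (cz G Z T hm) (tlo G T hm) y u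
            - irs G (cz G Z T hm x) (tlo G T hm) (B x) y u)
        + 2 * ∑ u ∈ K', (((r : ℤ) - 1) * ikp (tlo G T hm) x u + tI G Z T hm r Z x
            - rmr G (cz G Z T hm) (tlo G T hm) x u
            - irs G (cz G Z T hm y) (tlo G T hm) (B y) x u)
      ≤ 2 * (tI G Z T hm r Z x * tI G Z T hm r Z y) + 2 * M ^ 2 + 2 * (M * w)
        + NE G (cpt (cz G Z T hm) (tlo G T hm) K x y
          ∪ cpt (cz G Z T hm) (tlo G T hm) K' y x) := by
  have hfam : ∀ x ∈ T, Fam (co G) (cz G Z T hm) (hz G Z T hm) (tlo G T hm) x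
      (pkf (B x) (Ps x)) := fun x hx => (hpk x hx).fam (h.csys.dCH hx hx).symm
  have hF := h.F.toPFrame
  have hC := h.csys
  have hW := h.wsysT
  have hcell := hC.cellD hF hx hy hxy
  have hQ := hpk x hx
  have hQ' := hpk y hy
  have hmB : ∀ {z t : V} {e : V × V}, e ∈ pcs (tlo G T hm) (B z) t →
      e ∈ B z ∧ tlo G T hm e.1 = t := fun he => mem_pcs.1 he
  -- the points of the items
  obtain ⟨L, hL⟩ : ∃ L, L = cpt (cz G Z T hm) (tlo G T hm) K x y
      ∪ cpt (cz G Z T hm) (tlo G T hm) K' y x := ⟨_, rfl⟩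
  have hLm : ∀ v ∈ L, (v ∈ hz G Z T hm x ∧ ∃ u ∈ K, v ∈ imem u)
      ∨ (v ∈ hz G Z T hm y ∧ ∃ u ∈ K', v ∈ imem u) := by
    intro v hv
    rw [hL] at hv
    rcases mem_union.1 hv with hv | hv
    · obtain ⟨a1, u, hu, a2, -⟩ := Fam.cpt_HP hW hfam hx hK hv
      exact Or.inl ⟨a1, u, hu, a2⟩
    · obtain ⟨a1, u, hu, a2, -⟩ := Fam.cpt_HP hW hfam hy hK' hv
      exact Or.inr ⟨a1, u, hu, a2⟩
  obtain ⟨hd, hcard⟩ := Fam.card_cpt hW hfam hx hy hxy hK hK' (fun u hu => (h0 u hu).2)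
    (fun u hu => (h0' u hu).2)
  have e0 : ∑ u ∈ K, ((ikp (tlo G T hm) y u : ℤ) + 1 - ipc u)
      = ∑ u ∈ K, ((ikp (tlo G T hm) y u : ℤ) + 1) :=
    sum_congr rfl fun u hu => by rw [(h0 u hu).1]; push_cast; ring
  have e0' : ∑ u ∈ K', ((ikp (tlo G T hm) x u : ℤ) + 1 - ipc u)
      = ∑ u ∈ K', ((ikp (tlo G T hm) x u : ℤ) + 1) :=
    sum_congr rfl fun u hu => by rw [(h0' u hu).1]; push_cast; ring
  rw [e0, e0', ← hw, ← hL] at hcard
  -- the members of the PC pairs are not among the points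
  obtain ⟨P, hP⟩ : ∃ P, P = pcs (tlo G T hm) (B x) y := ⟨_, rfl⟩
  obtain ⟨P', hP'⟩ : ∃ P', P' = pcs (tlo G T hm) (B y) x := ⟨_, rfl⟩
  have hPB : ∀ e ∈ P, e ∈ B x ∧ tlo G T hm e.1 = y := fun e he => hmB (hP ▸ he)
  have hPB' : ∀ e ∈ P', e ∈ B y ∧ tlo G T hm e.1 = x := fun e he => hmB (hP' ▸ he)
  have hdj : Disjoint (P.image Prod.fst ∪ P'.image Prod.fst) L := by
    rw [disjoint_left]
    intro v hv hvL
    have key : ∀ {x y : V} {K K' : Finset (Itm V)} {e : V × V}, x ∈ T → y ∈ T → x ≠ y →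
        K ⊆ pkf (B x) (Ps x) → (∀ u ∈ K, ipc u = 0) → e ∈ B x →
        ((e.1 ∈ hz G Z T hm x ∧ ∃ u ∈ K, e.1 ∈ imem u)
          ∨ (e.1 ∈ hz G Z T hm y ∧ ∃ u ∈ K', e.1 ∈ imem u)) → False := by
      intro x y K K' e hx hy hxy hK h0 he h1
      rcases h1 with ⟨-, u, hu, h2⟩ | ⟨h1, -⟩
      · rcases u with Q | f
        · exact (hpk x hx).dw e he Q (inl_mem_pkf.1 (hK hu)).1 h2
        · have := h0 _ hu
          simp [ipc] at this
      · exact disjoint_left.1 (hW.dHH x hx y hy hxy) ((hpk x hx).bH e he) h1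
    rcases mem_union.1 hv with hv | hv
    · obtain ⟨e, he, rfl⟩ := mem_image.1 hv
      exact key hx hy hxy hK (fun u hu => (h0 u hu).1) (hPB e he).1 (hLm _ hvL)
    · obtain ⟨e, he, rfl⟩ := mem_image.1 hv
      exact key hy hx hxy.symm hK' (fun u hu => (h0' u hu).1) (hPB' e he).1 (hLm _ hvL).symm
  have s1 := h.sum_plain hpk hx hy hxy hK h0
  have s2 := h.sum_plain hpk hy hx hxy.symm hK' h0'
  rw [← hP] at s1
  rw [← hP'] at s2
  have hTM : ∑ v ∈ L, ((nd G (cz G Z T hm x) v : ℤ) + nd G (cz G Z T hm y) v)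
      ≤ (∑ u ∈ K, (((cz G Z T hm y).card : ℤ) + rmr G (cz G Z T hm) (tlo G T hm) y u
            + irs G (cz G Z T hm x) (tlo G T hm) (B x) y u)
          + ∑ u ∈ K', (((cz G Z T hm x).card : ℤ) + rmr G (cz G Z T hm) (tlo G T hm) x u
            + irs G (cz G Z T hm y) (tlo G T hm) (B y) x u))
        + ∑ v ∈ L, (dg G (P.image Prod.fst ∪ P'.image Prod.fst) v : ℤ) := by
    have m1 : ∀ v, (dg G (P.image Prod.fst) v : ℤ)
        ≤ dg G (P.image Prod.fst ∪ P'.image Prod.fst) v := fun v => by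
      exact_mod_cast dg_mono G subset_union_left v
    have m2 : ∀ v, (dg G (P'.image Prod.fst) v : ℤ)
        ≤ dg G (P.image Prod.fst ∪ P'.image Prod.fst) v := fun v => by
      exact_mod_cast dg_mono G subset_union_right v
    have t1 := sum_le_sum fun v (_ : v ∈ cpt (cz G Z T hm) (tlo G T hm) K x y) => m1 v
    have t2 := sum_le_sum fun v (_ : v ∈ cpt (cz G Z T hm) (tlo G T hm) K' y x) => m2 v
    have t3 : ∑ v ∈ cpt (cz G Z T hm) (tlo G T hm) K' y x,
        ((nd G (cz G Z T hm x) v : ℤ) + nd G (cz G Z T hm y) v)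
        = ∑ v ∈ cpt (cz G Z T hm) (tlo G T hm) K' y x,
        ((nd G (cz G Z T hm y) v : ℤ) + nd G (cz G Z T hm x) v) :=
      sum_congr rfl fun v _ => add_comm _ _
    rw [hL, sum_union hd, sum_union hd, t3]
    linarith
  have hmain := hcell.mix h.gp.P (hC.CP_clq hF hx) (hC.CP_clq hF hy) (hW.dCC x hx y hy hxy)
    (K := P) (K' := P')
    (fun e he => hC.mem_Dbl_of_tlo h.hh hx (hQ.bH e (hPB e he).1) (hPB e he).2)
    (fun e he => hQ.bC e (hPB e he).1) (fun e he => hQ.bN e (hPB e he).1)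
    (fun e he f hf hef => hQ.b1 e (hPB e he).1 f (hPB f hf).1 hef)
    (fun e he f hf hef => hQ.b2 e (hPB e he).1 f (hPB f hf).1 hef
      ((hPB e he).2.trans (hPB f hf).2.symm))
    (fun e he => by
      rw [Dbl_comm]
      exact hC.mem_Dbl_of_tlo h.hh hy (hQ'.bH e (hPB' e he).1) (hPB' e he).2)
    (fun e he => hQ'.bC e (hPB' e he).1) (fun e he => hQ'.bN e (hPB' e he).1)
    (fun e he f hf hef => hQ'.b1 e (hPB' e he).1 f (hPB' f hf).1 hef)
    (fun e he f hf hef => hQ'.b2 e (hPB' e he).1 f (hPB' f hf).1 hef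
      ((hPB' e he).2.trans (hPB' f hf).2.symm))
    (fun e he f hf hef => disjoint_left.1 (hW.dHH x hx y hy hxy) (hQ.bH e (hPB e he).1)
      (hef ▸ hQ'.bH f (hPB' f hf).1))
    (fun e he => h.ms_le hp hx hy hxy (hQ.bH e (hPB e he).1) (hPB e he).2)
    (fun e he => h.ms_le hp hy hx hxy.symm (hQ'.bH e (hPB' e he).1) (hPB' e he).2)
    (L := L)
    (by
      rw [disjoint_left]
      intro v hv hvL
      rcases hLm v hvL with h1 | h1
      · exact disjoint_left.1 (hW.dHC x hx x hx) h1.1 hv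
      · exact disjoint_left.1 (hW.dHC y hy x hx) h1.1 hv)
    (by
      rw [disjoint_left]
      intro v hv hvL
      rcases hLm v hvL with h1 | h1
      · exact disjoint_left.1 (hW.dHC x hx y hy) h1.1 hv
      · exact disjoint_left.1 (hW.dHC y hy y hy) h1.1 hv)
    hdj hTM
  have e1 : ((cz G Z T hm x).card : ℤ) = (r : ℤ) - 1 - tI G Z T hm r Z x := card_CP_eq Z x
  have e2 : ((cz G Z T hm y).card : ℤ) = (r : ℤ) - 1 - tI G Z T hm r Z y := card_CP_eq Z y
  rw [e1, e2, hcard] at hmain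
  have h4 : (0 : ℤ) ≤ NE G (P.image Prod.fst ∪ P'.image Prod.fst) := Int.natCast_nonneg _
  have g1 : ∑ u ∈ K, (((r : ℤ) - 1) * ikp (tlo G T hm) y u + tI G Z T hm r Z y
            - rmr G (cz G Z T hm) (tlo G T hm) y u
            - irs G (cz G Z T hm x) (tlo G T hm) (B x) y u)
      = ((r : ℤ) - 1) * (∑ u ∈ K, ((ikp (tlo G T hm) y u : ℤ) + 1))
        - ∑ u ∈ K, (((r : ℤ) - 1 - tI G Z T hm r Z y) + rmr G (cz G Z T hm) (tlo G T hm) y u
            + irs G (cz G Z T hm x) (tlo G T hm) (B x) y u) := by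
    rw [mul_sum, ← sum_sub_distrib]
    exact sum_congr rfl fun u _ => by ring
  have g2 : ∑ u ∈ K', (((r : ℤ) - 1) * ikp (tlo G T hm) x u + tI G Z T hm r Z x
            - rmr G (cz G Z T hm) (tlo G T hm) x u
            - irs G (cz G Z T hm y) (tlo G T hm) (B y) x u)
      = ((r : ℤ) - 1) * (∑ u ∈ K', ((ikp (tlo G T hm) x u : ℤ) + 1))
        - ∑ u ∈ K', (((r : ℤ) - 1 - tI G Z T hm r Z x) + rmr G (cz G Z T hm) (tlo G T hm) x u
            + irs G (cz G Z T hm y) (tlo G T hm) (B y) x u) := by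
    rw [mul_sum, ← sum_sub_distrib]
    exact sum_congr rfl fun u _ => by ring
  rw [g1, g2, ← hL]
  have g3 : (P.card : ℤ) + P'.card = M := by
    rw [hM, hP, hP']
  obtain ⟨S1, hS1⟩ : ∃ S, S = ∑ u ∈ K, (((r : ℤ) - 1 - tI G Z T hm r Z y)
      + rmr G (cz G Z T hm) (tlo G T hm) y u
      + irs G (cz G Z T hm x) (tlo G T hm) (B x) y u) := ⟨_, rfl⟩
  obtain ⟨S2, hS2⟩ : ∃ S, S = ∑ u ∈ K', (((r : ℤ) - 1 - tI G Z T hm r Z x)
      + rmr G (cz G Z T hm) (tlo G T hm) x u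
      + irs G (cz G Z T hm y) (tlo G T hm) (B y) x u) := ⟨_, rfl⟩
  obtain ⟨A1, hA1⟩ : ∃ S, S = ∑ u ∈ K, ((ikp (tlo G T hm) y u : ℤ) + 1) := ⟨_, rfl⟩
  obtain ⟨A2, hA2⟩ : ∃ S, S = ∑ u ∈ K', ((ikp (tlo G T hm) x u : ℤ) + 1) := ⟨_, rfl⟩
  rw [← hS1, ← hS2, g3] at hmain
  rw [← hA1, ← hA2] at hw
  rw [← hS1, ← hS2, ← hA1, ← hA2]
  subst hw
  have g4 : ((r : ℤ) - 1 - ((r : ℤ) - 1 - tI G Z T hm r Z x))
      * ((r : ℤ) - 1 - ((r : ℤ) - 1 - tI G Z T hm r Z y))
      = tI G Z T hm r Z x * tI G Z T hm r Z y := by ring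
  rw [g4] at hmain
  linarith

/-- **the mixed cell test** with Turan's bound over the rows `J` -/
theorem WCoreK.cellG (hp : 2 * r ≤ p) (h : WCoreK G Z T r m n p hm) {B : V → Finset (V × V)}
    {Ps : V → Finset (Finset V)}
    (hpk : ∀ x ∈ T, Pk G (cz G Z T hm x) (hz G Z T hm x) (tlo G T hm) (B x) (Ps x))
    {x y : V} (hx : x ∈ T) (hy : y ∈ T) (hxy : x ≠ y) {K K' : Finset (Itm V)}
    (hK : K ⊆ pkf (B x) (Ps x)) (hK' : K' ⊆ pkf (B y) (Ps y))
    (h0 : ∀ u ∈ K, ipc u = 0 ∧ ikp (tlo G T hm) y u ≠ 0)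
    (h0' : ∀ u ∈ K', ipc u = 0 ∧ ikp (tlo G T hm) x u ≠ 0)
    {J : Finset V} (hxJ : x ∈ J) (hyJ : y ∈ J)
    (hJ : ∀ u ∈ K, ∀ j, ikp (tlo G T hm) j u ≠ 0 → j ∈ J)
    (hJ' : ∀ u ∈ K', ∀ j, ikp (tlo G T hm) j u ≠ 0 → j ∈ J) (q : ℤ) {M w : ℤ}
    (hM : M = (pcs (tlo G T hm) (B x) y).card + (pcs (tlo G T hm) (B y) x).card)
    (hw : w = ∑ u ∈ K, ((ikp (tlo G T hm) y u : ℤ) + 1)
      + ∑ u ∈ K', ((ikp (tlo G T hm) x u : ℤ) + 1)) :
    2 * ((M - 1) * ((r : ℤ) - 1))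
        + 2 * ∑ u ∈ K, (((r : ℤ) - 1) * ikp (tlo G T hm) y u + tI G Z T hm r Z y
            - rmr G (cz G Z T hm) (tlo G T hm) y u
            - irs G (cz G Z T hm x) (tlo G T hm) (B x) y u)
        + 2 * ∑ u ∈ K', (((r : ℤ) - 1) * ikp (tlo G T hm) x u + tI G Z T hm r Z x
            - rmr G (cz G Z T hm) (tlo G T hm) x u
            - irs G (cz G Z T hm y) (tlo G T hm) (B y) x u)
      ≤ 2 * (tI G Z T hm r Z x * tI G Z T hm r Z y) + 2 * M ^ 2 + 2 * (M * w)
        + (w * (w - 1) - 2 * q * w + J.card * (q * (q + 1))) := by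
  have hfam : ∀ x ∈ T, Fam (co G) (cz G Z T hm) (hz G Z T hm) (tlo G T hm) x
      (pkf (B x) (Ps x)) := fun x hx => (hpk x hx).fam (h.csys.dCH hx hx).symm
  have h1 := h.cellGN hp hpk hx hy hxy hK hK' h0 h0' hM hw
  have hNE := Fam.NE_cptT h.F.toPFrame h.hh h.csys h.wsysT hfam hx hy hxy hK hK'
    (fun u hu => (h0 u hu).2) (fun u hu => (h0' u hu).2) hxJ hyJ hJ hJ' q
  have e0 : ∑ u ∈ K, ((ikp (tlo G T hm) y u : ℤ) + 1 - ipc u)
      = ∑ u ∈ K, ((ikp (tlo G T hm) y u : ℤ) + 1) :=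
    sum_congr rfl fun u hu => by rw [(h0 u hu).1]; push_cast; ring
  have e0' : ∑ u ∈ K', ((ikp (tlo G T hm) x u : ℤ) + 1 - ipc u)
      = ∑ u ∈ K', ((ikp (tlo G T hm) x u : ℤ) + 1) :=
    sum_congr rfl fun u hu => by rw [(h0' u hu).1]; push_cast; ring
  rw [e0, e0', ← hw] at hNE
  linarith

/-- **the mixed cell test for units of value one**, packings with the fewest PC pairs: an edge between any two
units of one host -/
theorem WCoreK.cellG1 (hp : 2 * r ≤ p) (h : WCoreK G Z T r m n p hm) {B : V → Finset (V × V)}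
    {Ps : V → Finset (Finset V)} {φ : Finset (V × V) → Finset (Finset V) → ℕ}
    (hpk : ∀ x ∈ T, PkPP G (cz G Z T hm x) (hz G Z T hm x) (tlo G T hm) φ (B x) (Ps x))
    {x y : V} (hx : x ∈ T) (hy : y ∈ T) (hxy : x ≠ y) {K K' : Finset (Itm V)}
    (hK : K ⊆ pkf (B x) (Ps x)) (hK' : K' ⊆ pkf (B y) (Ps y))
    (h0 : ∀ u ∈ K, ipc u = 0 ∧ ikp (tlo G T hm) y u ≠ 0)
    (h0' : ∀ u ∈ K', ipc u = 0 ∧ ikp (tlo G T hm) x u ≠ 0)
    (h1 : ∀ u ∈ K, ivl u = 1) (h1' : ∀ u ∈ K', ivl u = 1) {M w : ℤ}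
    (hM : M = (pcs (tlo G T hm) (B x) y).card + (pcs (tlo G T hm) (B y) x).card)
    (hw : w = ∑ u ∈ K, ((ikp (tlo G T hm) y u : ℤ) + 1)
      + ∑ u ∈ K', ((ikp (tlo G T hm) x u : ℤ) + 1)) :
    2 * ((M - 1) * ((r : ℤ) - 1))
        + 2 * ∑ u ∈ K, (((r : ℤ) - 1) * ikp (tlo G T hm) y u + tI G Z T hm r Z y
            - rmr G (cz G Z T hm) (tlo G T hm) y u
            - irs G (cz G Z T hm x) (tlo G T hm) (B x) y u)
        + 2 * ∑ u ∈ K', (((r : ℤ) - 1) * ikp (tlo G T hm) x u + tI G Z T hm r Z x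
            - rmr G (cz G Z T hm) (tlo G T hm) x u
            - irs G (cz G Z T hm y) (tlo G T hm) (B y) x u)
        + ((K.card : ℤ) * (K.card - 1) + (K'.card : ℤ) * (K'.card - 1))
      ≤ 2 * (tI G Z T hm r Z x * tI G Z T hm r Z y) + 2 * M ^ 2 + 2 * (M * w)
        + w * (w - 1) := by
  have hpk' : ∀ x ∈ T, Pk G (cz G Z T hm x) (hz G Z T hm x) (tlo G T hm) (B x) (Ps x) :=
    fun x hx => (hpk x hx).toPk
  have hfam : ∀ x ∈ T, Fam (co G) (cz G Z T hm) (hz G Z T hm) (tlo G T hm) x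
      (pkf (B x) (Ps x)) := fun x hx => (hpk' x hx).fam (h.csys.dCH hx hx).symm
  have h2 := h.cellGN hp hpk' hx hy hxy hK hK' h0 h0' hM hw
  obtain ⟨hd, h3⟩ := Fam.card_cpt h.wsysT hfam hx hy hxy hK hK' (fun u hu => (h0 u hu).2)
    (fun u hu => (h0' u hu).2)
  have e0 : ∑ u ∈ K, ((ikp (tlo G T hm) y u : ℤ) + 1 - ipc u)
      = ∑ u ∈ K, ((ikp (tlo G T hm) y u : ℤ) + 1) :=
    sum_congr rfl fun u hu => by rw [(h0 u hu).1]; push_cast; ring
  have e0' : ∑ u ∈ K', ((ikp (tlo G T hm) x u : ℤ) + 1 - ipc u)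
      = ∑ u ∈ K', ((ikp (tlo G T hm) x u : ℤ) + 1) :=
    sum_congr rfl fun u hu => by rw [(h0' u hu).1]; push_cast; ring
  rw [e0, e0', ← hw] at h3
  have h4 := E_add_NE (G := G) (cpt (cz G Z T hm) (tlo G T hm) K x y
      ∪ cpt (cz G Z T hm) (tlo G T hm) K' y x)
  have h5 : (E G (cpt (cz G Z T hm) (tlo G T hm) K x y) : ℤ)
      + E G (cpt (cz G Z T hm) (tlo G T hm) K' y x)
      ≤ E G (cpt (cz G Z T hm) (tlo G T hm) K x y ∪ cpt (cz G Z T hm) (tlo G T hm) K' y x) := by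
    exact_mod_cast E_union_ge (G := G) hd
  have h6 := (hpk x hx).E_cpt (C := cz G Z T hm) (H := hz G Z T hm) (z := y)
    (h.csys.h32 h.F.toPFrame h.hh h.toWHom.ht hx)
    (h.csys.dCH hx hx).symm hK (fun u hu => (h0 u hu).2) h1
  have h7 := (hpk y hy).E_cpt (C := cz G Z T hm) (H := hz G Z T hm) (z := x)
    (h.csys.h32 h.F.toPFrame h.hh h.toWHom.ht hy)
    (h.csys.dCH hy hy).symm hK' (fun u hu => (h0' u hu).2) h1'
  have z1 : ∑ u ∈ K, (ipc u : ℤ) = 0 := sum_eq_zero fun u hu => by rw [(h0 u hu).1]; rfl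
  have z2 : ∑ u ∈ K', (ipc u : ℤ) = 0 := sum_eq_zero fun u hu => by rw [(h0' u hu).1]; rfl
  rw [z1] at h6
  rw [z2] at h7
  rw [h3] at h4
  linarith

/-- **the unshared arcs of a plain item**: the free ones, and the PC pairs of the other tails -/
theorem WCoreK.irs_le (h : WCoreK G Z T r m n p hm) {B : V → Finset (V × V)}
    {Ps : V → Finset (Finset V)}
    (hpk : ∀ x ∈ T, Pk G (cz G Z T hm x) (hz G Z T hm x) (tlo G T hm) (B x) (Ps x))
    {x y : V} (hx : x ∈ T) {u : Itm V} (hu : u ∈ pkf (B x) (Ps x))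
    (h0 : ipc u = 0 ∧ ikp (tlo G T hm) y u ≠ 0) :
    (irs G (cz G Z T hm x) (tlo G T hm) (B x) y u : ℤ)
      ≤ ∑ z ∈ T.erase x, ((nui G (cz G Z T hm x) (tlo G T hm) (B x) z u : ℤ)
          + if z = y then 0 else (ikp (tlo G T hm) z u : ℤ) * (pcs (tlo G T hm) (B x) z).card) := by
  rcases u with P | e
  swap
  · exact absurd h0.1 (by simp [ipc])
  have hP := (inl_mem_pkf.1 hu).1
  have hQ := hpk x hx
  have h1 : ∀ v ∈ P, tlo G T hm v ∈ T.erase x := fun v hv =>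
    h.toWHom.ht x hx v (hQ.sub P hP hv)
  have h2 : ∀ v, nd G (cz G Z T hm x) v
      ≤ (frC G (cz G Z T hm x) (tlo G T hm) (B x) v).card
        + (pcs (tlo G T hm) (B x) (tlo G T hm v)).card := by
    intro v
    have h3 : (cz G Z T hm x).filter (fun a => a ≠ v ∧ ¬ G.Adj v a)
        ⊆ frC G (cz G Z T hm x) (tlo G T hm) (B x) v
          ∪ (pcs (tlo G T hm) (B x) (tlo G T hm v)).image Prod.snd := by
      intro a ha
      obtain ⟨h2, -, h3⟩ := mem_filter.1 ha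
      by_cases h4 : a ∈ frC G (cz G Z T hm x) (tlo G T hm) (B x) v
      · exact mem_union_left _ h4
      · apply mem_union_right
        rw [mem_frC] at h4
        push Not at h4
        obtain ⟨e, he, hea, het⟩ := h4 h2 h3
        exact mem_image.2 ⟨e, mem_pcs.2 ⟨he, het⟩, hea⟩
    have h4 := card_le_card h3
    have h5 := card_union_le (frC G (cz G Z T hm x) (tlo G T hm) (B x) v)
      ((pcs (tlo G T hm) (B x) (tlo G T hm v)).image Prod.snd)
    have h6 : ((pcs (tlo G T hm) (B x) (tlo G T hm v)).image Prod.snd).card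
        ≤ (pcs (tlo G T hm) (B x) (tlo G T hm v)).card := card_image_le
    have h7 : nd G (cz G Z T hm x) v
        = ((cz G Z T hm x).filter (fun a => a ≠ v ∧ ¬ G.Adj v a)).card := rfl
    omega
  -- fiberwise
  have h3 : (irs G (cz G Z T hm x) (tlo G T hm) (B x) y (Sum.inl P) : ℤ)
      ≤ ∑ v ∈ P, (((frC G (cz G Z T hm x) (tlo G T hm) (B x) v).card : ℤ)
        + if tlo G T hm v = y then 0
          else ((pcs (tlo G T hm) (B x) (tlo G T hm v)).card : ℤ)) := by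
    unfold irs
    push_cast
    refine sum_le_sum fun v _ => ?_
    by_cases h4 : tlo G T hm v = y
    · rw [if_pos h4, if_pos h4]
      linarith
    · rw [if_neg h4, if_neg h4]
      exact_mod_cast h2 v
  refine h3.trans ?_
  rw [← sum_fiberwise_of_maps_to h1]
  refine sum_le_sum fun z _ => ?_
  rw [sum_add_distrib]
  have h4 : ∑ v ∈ P.filter (fun v => tlo G T hm v = z),
      ((frC G (cz G Z T hm x) (tlo G T hm) (B x) v).card : ℤ)
      = (nui G (cz G Z T hm x) (tlo G T hm) (B x) z (Sum.inl P) : ℤ) := by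
    rw [nui_inl]
    push_cast
    rfl
  rw [h4]
  have h5 : ∑ v ∈ P.filter (fun v => tlo G T hm v = z), (if tlo G T hm v = y then 0
        else ((pcs (tlo G T hm) (B x) (tlo G T hm v)).card : ℤ))
      = if z = y then 0 else ((P.filter fun v => tlo G T hm v = z).card : ℤ)
          * (pcs (tlo G T hm) (B x) z).card := by
    have h6 : ∀ v ∈ P.filter (fun v => tlo G T hm v = z), (if tlo G T hm v = y then (0 : ℤ)
        else ((pcs (tlo G T hm) (B x) (tlo G T hm v)).card : ℤ))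
        = if z = y then 0 else ((pcs (tlo G T hm) (B x) z).card : ℤ) := by
      intro v hv
      rw [(mem_filter.1 hv).2]
    rw [sum_congr rfl h6]
    split_ifs
    · exact sum_const_zero
    · rw [sum_const, nsmul_eq_mul]
  rw [h5]
  by_cases h6 : z = y
  · rw [if_pos h6, if_pos h6]
  · rw [if_neg h6, if_neg h6]
    have h7 : tlp (tlo G T hm) P z ≠ P := by
      intro h8
      obtain ⟨v, hv, hvy⟩ := ikp_ne_tail (u := (Sum.inl P : Itm V))
        (fun Q hQ' => ((hpk x hx).fam (h.csys.dCH hx hx).symm).two Q (hQ' ▸ hu)) h0.2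
      have h9 : v ∈ tlp (tlo G T hm) P z := h8.symm ▸ hv
      exact h6 ((mem_tlp.1 h9).2.symm.trans hvy)
    have h8 : ikp (tlo G T hm) z (Sum.inl P : Itm V) = (tlp (tlo G T hm) P z).card := by
      simp only [ikp, h7, if_false]
    rw [h8]
    exact le_refl _

end Frame2

section StrM

variable {ι : Type*}

/-- **the mixed cell tests over the integers**: `pcj` the PC pairs of both homes, every sub-amount; `mix` all PC
pairs of both homes with plain items `K`, `K'` of both directions, Turan's bound over the rows `I` -/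
structure MixI (R : ℤ) (n : ℕ) (t : ℕ → ℤ) (U : Finset ι) (ho : ι → ℕ) (kp mr : ℕ → ι → ℤ)
    (be : ℕ → ℕ → ℤ) (pc : ι → ℤ) (nu : ℕ → ι → ℤ) : Prop where
  pcj : ∀ i < n, ∀ j < n, i ≠ j → ∀ p : ℤ, 0 ≤ p → p ≤ be i j + be j i →
    (p - 1) * R ≤ t i * t j + p ^ 2
  mix : ∀ i < n, ∀ j < n, i ≠ j →
    ∀ K ⊆ U, (∀ u ∈ K, ho u = i ∧ pc u = 0 ∧ kp j u ≠ 0) →
    ∀ K' ⊆ U, (∀ u ∈ K', ho u = j ∧ pc u = 0 ∧ kp i u ≠ 0) →
    ∀ I ⊆ range n, i ∈ I → j ∈ I → (∀ u ∈ K, ∀ l < n, kp l u ≠ 0 → l ∈ I) →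
    (∀ u ∈ K', ∀ l < n, kp l u ≠ 0 → l ∈ I) → ∀ q w : ℤ,
    w = ∑ u ∈ K, (kp j u + 1) + ∑ u ∈ K', (kp i u + 1) →
    2 * ((be i j + be j i - 1) * R)
      + 2 * ∑ u ∈ K, (R * kp j u + t j - mr j u
          - ∑ l ∈ (range n).erase i, (nu l u + if l = j then 0 else kp l u * be i l))
      + 2 * ∑ u ∈ K', (R * kp i u + t i - mr i u
          - ∑ l ∈ (range n).erase j, (nu l u + if l = i then 0 else kp l u * be j l))
      ≤ 2 * (t i * t j) + 2 * (be i j + be j i) ^ 2 + 2 * ((be i j + be j i) * w)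
        + (w * (w - 1) - 2 * q * w + I.card * (q * (q + 1)))

end StrM

/-- **the closed cap of a cell from all sub-amounts**, `b ≤ a`, `a + b + 3 ≤ R`: at most `b` units, and
`(E - 1) (R - b) ≤ b (a + 1)` -/
lemma ShCap.cap_all {R a b E : ℤ} (hb : 2 ≤ b) (hba : b ≤ a) (hR : a + b + 3 ≤ R)
    (h : ∀ p : ℤ, 1 ≤ p → p ≤ E → p * R ≤ R + a * b + p ^ 2) :
    E ≤ b ∧ (E - 1) * (R - b) ≤ b * (a + 1) := by
  have h1 : E ≤ b := by
    by_contra hcon
    push Not at hcon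
    have h2 := h (b + 1) (by linarith) (by linarith)
    nlinarith
  refine ⟨h1, ?_⟩
  rcases le_or_gt 1 E with h2 | h2
  · have h3 := h E h2 le_rfl
    nlinarith
  · have h3 : 0 ≤ b * (a + 1) := mul_nonneg (by linarith) (by linarith)
    have h4 : (E - 1) * (R - b) ≤ 0 := mul_nonpos_of_nonpos_of_nonneg (by linarith) (by linarith)
    linarith

/-- `b ≤ 1`, `a + 5 ≤ R`: at most one unit -/
lemma ShCap.cap_all1 {R a b E : ℤ} (hb : b ≤ 1) (ha : 0 ≤ a) (hR : a + 5 ≤ R)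
    (h : ∀ p : ℤ, 1 ≤ p → p ≤ E → p * R ≤ R + a * b + p ^ 2) : E ≤ 1 := by
  by_contra hcon
  push Not at hcon
  have h2 := h 2 (by norm_num) (by linarith)
  nlinarith

namespace MixI

variable {ι : Type*} {R : ℤ} {n : ℕ} {t : ℕ → ℤ} {U : Finset ι} {ho : ι → ℕ}
  {kp mr : ℕ → ι → ℤ} {be : ℕ → ℕ → ℤ} {pc : ι → ℤ} {nu : ℕ → ι → ℤ}

/-- **PC pairs of both homes and full units of both directions** -/
theorem full (H : MixI R n t U ho kp mr be pc nu) {i j : ℕ} (hi : i < n) (hj : j < n)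
    (hij : i ≠ j) {K K' : Finset ι} (hK : K ⊆ U) (hK' : K' ⊆ U)
    (h1 : ∀ u ∈ K, ho u = i ∧ pc u = 0 ∧ kp j u = 1 ∧ ∀ l < n, kp l u ≠ 0 → l = j)
    (h2 : ∀ u ∈ K', ho u = j ∧ pc u = 0 ∧ kp i u = 1 ∧ ∀ l < n, kp l u ≠ 0 → l = i) :
    (be i j + be j i + K.card + K'.card - 1) * R + K.card * t j + K'.card * t i
      ≤ t i * t j + (be i j + be j i + K.card + K'.card) ^ 2
        + ∑ u ∈ K, (mr j u + ∑ l ∈ (range n).erase i, nu l u)
        + ∑ u ∈ K', (mr i u + ∑ l ∈ (range n).erase j, nu l u) := by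
  have hI : ({i, j} : Finset ℕ) ⊆ range n := by
    intro l hl
    rcases mem_insert.1 hl with rfl | hl
    · exact mem_range.2 hi
    · rw [mem_singleton.1 hl]
      exact mem_range.2 hj
  have hc : (({i, j} : Finset ℕ).card : ℤ) = 2 := by
    rw [card_pair hij]
    norm_num
  have h3 := H.mix i hi j hj hij K hK (fun u hu => ⟨(h1 u hu).1, (h1 u hu).2.1, by
      rw [(h1 u hu).2.2.1]
      norm_num⟩) K' hK' (fun u hu => ⟨(h2 u hu).1, (h2 u hu).2.1, by
      rw [(h2 u hu).2.2.1]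
      norm_num⟩) {i, j} hI (by simp) (by simp)
    (fun u hu l hl hk => by rw [(h1 u hu).2.2.2 l hl hk]; simp)
    (fun u hu l hl hk => by rw [(h2 u hu).2.2.2 l hl hk]; simp) (K.card + K'.card)
    (2 * (K.card + K'.card)) (by
      rw [sum_congr rfl fun u hu => by rw [(h1 u hu).2.2.1],
        sum_congr (s₁ := K') rfl fun u hu => by rw [(h2 u hu).2.2.1]]
      simp only [sum_const, nsmul_eq_mul]
      ring)
  have key : ∀ {i j : ℕ} {K : Finset ι}, i < n → j < n → (∀ u ∈ K, kp j u = 1 ∧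
      ∀ l < n, kp l u ≠ 0 → l = j) →
      ∑ u ∈ K, (R * kp j u + t j - mr j u
          - ∑ l ∈ (range n).erase i, (nu l u + if l = j then 0 else kp l u * be i l))
        = K.card * (R + t j) - ∑ u ∈ K, (mr j u + ∑ l ∈ (range n).erase i, nu l u) := by
    intro i j K hi hj h
    rw [← nsmul_eq_mul, ← sum_const, ← sum_sub_distrib]
    refine sum_congr rfl fun u hu => ?_
    obtain ⟨h4, h5⟩ := h u hu
    have h6 : ∑ l ∈ (range n).erase i, (nu l u + if l = j then 0 else kp l u * be i l)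
        = ∑ l ∈ (range n).erase i, nu l u := by
      refine sum_congr rfl fun l hl => ?_
      by_cases h7 : l = j
      · rw [if_pos h7, add_zero]
      · rw [if_neg h7]
        have h8 : kp l u = 0 := by
          by_contra h9
          exact h7 (h5 l (mem_range.1 (mem_of_mem_erase hl)) h9)
        rw [h8, zero_mul, add_zero]
    rw [h4, h6]
    ring
  rw [key hi hj fun u hu => ⟨(h1 u hu).2.2.1, (h1 u hu).2.2.2⟩,
    key hj hi fun u hu => ⟨(h2 u hu).2.2.1, (h2 u hu).2.2.2⟩, hc] at h3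
  nlinarith [h3]

/-- **all sub-amounts of PC pairs of both homes and full units without losses of both directions** -/
theorem all (H : MixI R n t U ho kp mr be pc nu) (ht : ∀ i < n, 0 ≤ t i)
    (hb : ∀ i < n, ∀ j < n, 0 ≤ be i j) {i j : ℕ} (hi : i < n)
    (hj : j < n) (hij : i ≠ j) {K K' : Finset ι} (hK : K ⊆ U) (hK' : K' ⊆ U)
    (h1 : ∀ u ∈ K, ho u = i ∧ pc u = 0 ∧ kp j u = 1 ∧ (∀ l < n, kp l u ≠ 0 → l = j) ∧
      mr j u ≤ 0 ∧ ∀ l < n, nu l u ≤ 0)
    (h2 : ∀ u ∈ K', ho u = j ∧ pc u = 0 ∧ kp i u = 1 ∧ (∀ l < n, kp l u ≠ 0 → l = i) ∧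
      mr i u ≤ 0 ∧ ∀ l < n, nu l u ≤ 0) {p : ℤ} (hp : 1 ≤ p)
    (hpE : p ≤ be i j + be j i + K.card + K'.card) :
    p * R ≤ R + t i * t j + p ^ 2 := by
  have b1 := hb i hi j hj
  have b2 := hb j hj i hi
  rcases le_or_gt p (be i j + be j i) with h3 | h3
  · have h4 := H.pcj i hi j hj hij p (by linarith) h3
    linarith
  · -- all PC pairs and `p - M` full units
    obtain ⟨q, hq⟩ : ∃ q : ℕ, (q : ℤ) = p - (be i j + be j i) :=
      ⟨(p - (be i j + be j i)).toNat, Int.toNat_of_nonneg (by linarith)⟩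
    have h4 : q ≤ K.card + K'.card := by
      have : (q : ℤ) ≤ K.card + K'.card := by linarith
      exact_mod_cast this
    obtain ⟨L, hL, L', hL', hc⟩ : ∃ L ⊆ K, ∃ L' ⊆ K', L.card + L'.card = q := by
      rcases le_or_gt q K.card with h | h
      · obtain ⟨L, hL, h1⟩ := exists_subset_card_eq h
        exact ⟨L, hL, ∅, empty_subset _, by rw [h1, card_empty, add_zero]⟩
      · obtain ⟨L', hL', h1⟩ := exists_subset_card_eq (s := K') (n := q - K.card) (by omega)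
        exact ⟨K, subset_rfl, L', hL', by omega⟩
    have h5 := H.full hi hj hij (hL.trans hK) (hL'.trans hK')
      (fun u hu => ⟨(h1 u (hL hu)).1, (h1 u (hL hu)).2.1, (h1 u (hL hu)).2.2.1,
        (h1 u (hL hu)).2.2.2.1⟩)
      (fun u hu => ⟨(h2 u (hL' hu)).1, (h2 u (hL' hu)).2.1, (h2 u (hL' hu)).2.2.1,
        (h2 u (hL' hu)).2.2.2.1⟩)
    have h6 : (L.card : ℤ) + L'.card = q := by exact_mod_cast hc
    have h7 : be i j + be j i + L.card + L'.card = p := by linarith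
    have h8 : ∑ u ∈ L, (mr j u + ∑ l ∈ (range n).erase i, nu l u) ≤ 0 :=
      sum_nonpos fun u hu => add_nonpos (h1 u (hL hu)).2.2.2.2.1
        (sum_nonpos fun l hl => (h1 u (hL hu)).2.2.2.2.2 l (mem_range.1 (mem_of_mem_erase hl)))
    have h9 : ∑ u ∈ L', (mr i u + ∑ l ∈ (range n).erase j, nu l u) ≤ 0 :=
      sum_nonpos fun u hu => add_nonpos (h2 u (hL' hu)).2.2.2.2.1
        (sum_nonpos fun l hl => (h2 u (hL' hu)).2.2.2.2.2 l (mem_range.1 (mem_of_mem_erase hl)))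
    have g1 : (0 : ℤ) ≤ L.card * t j := mul_nonneg (Nat.cast_nonneg _) (ht j hj)
    have g2 : (0 : ℤ) ≤ L'.card * t i := mul_nonneg (Nat.cast_nonneg _) (ht i hi)
    rw [h7] at h5
    linarith

/-- **the closed cap**: PC pairs of both homes and full units without losses of both directions -/
theorem cap (H : MixI R n t U ho kp mr be pc nu) (ht : ∀ i < n, 0 ≤ t i)
    (hb : ∀ i < n, ∀ j < n, 0 ≤ be i j) {i j : ℕ} (hi : i < n)
    (hj : j < n) (hij : i ≠ j) {K K' : Finset ι} (hK : K ⊆ U) (hK' : K' ⊆ U)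
    (h1 : ∀ u ∈ K, ho u = i ∧ pc u = 0 ∧ kp j u = 1 ∧ (∀ l < n, kp l u ≠ 0 → l = j) ∧
      mr j u ≤ 0 ∧ ∀ l < n, nu l u ≤ 0)
    (h2 : ∀ u ∈ K', ho u = j ∧ pc u = 0 ∧ kp i u = 1 ∧ (∀ l < n, kp l u ≠ 0 → l = i) ∧
      mr i u ≤ 0 ∧ ∀ l < n, nu l u ≤ 0) (hj2 : 2 ≤ t j) (hji : t j ≤ t i)
    (hR : t i + t j + 3 ≤ R) :
    be i j + be j i + K.card + K'.card ≤ t j ∧
      (be i j + be j i + K.card + K'.card - 1) * (R - t j) ≤ t j * (t i + 1) :=
  ShCap.cap_all hj2 hji hR fun _ hp hpE => H.all ht hb hi hj hij hK hK' h1 h2 hp hpE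

end MixI

section Tr

variable {V : Type*} {G : SimpleGraph V} {Z T : Finset V} {hm : V → V} {r m n p : ℕ}
  {B : V → Finset (V × V)} {Ps : V → Finset (Finset V)} {host : Itm V → V} {ρ : V → ℕ}
  {σ : ℕ → V}

/-- **the transport**, any packings -/
theorem WCoreK.mixI (hp : 2 * r ≤ p) (h : WCoreK G Z T r m n p hm)
    (hpk : ∀ x ∈ T, Pk G (cz G Z T hm x) (hz G Z T hm x) (tlo G T hm) (B x) (Ps x))
    (hst : ∀ x ∈ T, ∀ u ∈ pkf (B x) (Ps x), host u = x)
    (rk : Rank T (tI G Z T hm r Z) ρ σ) :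
    MixI ((r : ℤ) - 1) n (fun i => tI G Z T hm r Z (σ i)) (T.biUnion fun x => pkf (B x) (Ps x))
      (fun u => ρ (host u)) (fun i u => (ikp (tlo G T hm) (σ i) u : ℤ))
      (fun i u => (rmr G (cz G Z T hm) (tlo G T hm) (σ i) u : ℤ))
      (fun i j => pcn (tlo G T hm) B (σ i) (σ j)) (fun u => (ipc u : ℤ))
      (fun j u => (nui G (cz G Z T hm (host u)) (tlo G T hm) (B (host u)) (σ j) u : ℤ)) := by
  have hcard := h.toWHom.cardT
  have hfam : ∀ x ∈ T, Fam (co G) (cz G Z T hm) (hz G Z T hm) (tlo G T hm) x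
      (pkf (B x) (Ps x)) := fun x hx => (hpk x hx).fam (h.csys.dCH hx hx).symm
  have hmem : ∀ i < n, σ i ∈ T := fun i hi => rk.mem i (by rw [hcard]; exact hi)
  have hne : ∀ i < n, ∀ j < n, i ≠ j → σ i ≠ σ j := fun i hi j hj hij h1 =>
    hij (rk.sinj (by rw [hcard]; exact hi) (by rw [hcard]; exact hj) h1)
  have hown : ∀ u ∈ T.biUnion (fun x => pkf (B x) (Ps x)), ∀ l < n, ρ (host u) = l →
      u ∈ pkf (B (σ l)) (Ps (σ l)) ∧ host u = σ l := by
    intro u hu l hl hul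
    obtain ⟨x, hx, hux⟩ := mem_biUnion.1 hu
    have h1 := hst x hx u hux
    have h2 : σ l = x := by
      rw [← hul, h1]
      exact rk.left x hx
    rw [h2, h1]
    exact ⟨hux, rfl⟩
  have her : ∀ i < n, ∀ f : V → ℤ, ∑ z ∈ T.erase (σ i), f z
      = ∑ j ∈ (range n).erase i, f (σ j) := by
    intro i hi f
    rw [← hcard] at hi ⊢
    exact rk.sum_er hi f
  refine ⟨fun i hi j hj hij p hp0 hpq => ?_, fun i hi j hj hij K hK hKi K' hK' hKj I hI hiI hjI
    hIK hIK' q w hw => ?_⟩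
  · -- the PC pairs
    obtain ⟨p', rfl⟩ := Int.eq_ofNat_of_zero_le hp0
    have h1 : p' ≤ (pcs (tlo G T hm) (B (σ i)) (σ j)).card
        + (pcs (tlo G T hm) (B (σ j)) (σ i)).card := by
      have h2 : ((p' : ℕ) : ℤ) ≤ ((pcs (tlo G T hm) (B (σ i)) (σ j)).card : ℤ)
        + ((pcs (tlo G T hm) (B (σ j)) (σ i)).card : ℤ) := hpq
      exact_mod_cast h2
    obtain ⟨L, hL, L', hL', hc⟩ : ∃ L ⊆ pcs (tlo G T hm) (B (σ i)) (σ j),
        ∃ L' ⊆ pcs (tlo G T hm) (B (σ j)) (σ i), L.card + L'.card = p' := by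
      rcases le_or_gt p' (pcs (tlo G T hm) (B (σ i)) (σ j)).card with h2 | h2
      · obtain ⟨L, hL, h3⟩ := exists_subset_card_eq h2
        exact ⟨L, hL, ∅, empty_subset _, by rw [h3, card_empty, add_zero]⟩
      · obtain ⟨L', hL', h3⟩ := exists_subset_card_eq
          (s := pcs (tlo G T hm) (B (σ j)) (σ i))
          (n := p' - (pcs (tlo G T hm) (B (σ i)) (σ j)).card) (by omega)
        exact ⟨_, subset_rfl, L', hL', by omega⟩
    have hQ := hpk _ (hmem i hi)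
    have hQ' := hpk _ (hmem j hj)
    have m1 := fun e (he : e ∈ L) => mem_pcs.1 (hL he)
    have m2 := fun e (he : e ∈ L') => mem_pcs.1 (hL' he)
    have h2 := h.jntB hp (hmem i hi) (hmem j hj) (hne i hi j hj hij) (K := L) (K' := L')
      (fun e he => hQ.bH e (m1 e he).1) (fun e he => (m1 e he).2)
      (fun e he => hQ.bC e (m1 e he).1) (fun e he => hQ.bN e (m1 e he).1)
      (fun e he f hf hef => hQ.b1 e (m1 e he).1 f (m1 f hf).1 hef)
      (fun e he f hf hef => hQ.b2 e (m1 e he).1 f (m1 f hf).1 hef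
        ((m1 e he).2.trans (m1 f hf).2.symm))
      (fun e he => hQ'.bH e (m2 e he).1) (fun e he => (m2 e he).2)
      (fun e he => hQ'.bC e (m2 e he).1) (fun e he => hQ'.bN e (m2 e he).1)
      (fun e he f hf hef => hQ'.b1 e (m2 e he).1 f (m2 f hf).1 hef)
      (fun e he f hf hef => hQ'.b2 e (m2 e he).1 f (m2 f hf).1 hef
        ((m2 e he).2.trans (m2 f hf).2.symm))
    have h3 : (L.card : ℤ) + L'.card = (p' : ℤ) := by exact_mod_cast hc
    rw [h3] at h2
    have h4 : (0 : ℤ) ≤ NE G (L.image Prod.fst ∪ L'.image Prod.fst) := Int.natCast_nonneg _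
    show ((p' : ℤ) - 1) * ((r : ℤ) - 1) ≤ tI G Z T hm r Z (σ i) * tI G Z T hm r Z (σ j)
      + (p' : ℤ) ^ 2
    linarith
  · -- the mixed test
    have a1 : ∀ u ∈ K, u ∈ pkf (B (σ i)) (Ps (σ i)) ∧ host u = σ i := fun u hu =>
      hown u (hK hu) i hi (hKi u hu).1
    have a2 : ∀ u ∈ K', u ∈ pkf (B (σ j)) (Ps (σ j)) ∧ host u = σ j := fun u hu =>
      hown u (hK' hu) j hj (hKj u hu).1
    have b1 : ∀ u ∈ K, ipc u = 0 ∧ ikp (tlo G T hm) (σ j) u ≠ 0 := by
      intro u hu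
      obtain ⟨-, c1, c2⟩ := hKi u hu
      have c3 : (ipc u : ℤ) = 0 := c1
      have c4 : (ikp (tlo G T hm) (σ j) u : ℤ) ≠ 0 := c2
      exact ⟨by exact_mod_cast c3, by exact_mod_cast c4⟩
    have b2 : ∀ u ∈ K', ipc u = 0 ∧ ikp (tlo G T hm) (σ i) u ≠ 0 := by
      intro u hu
      obtain ⟨-, c1, c2⟩ := hKj u hu
      have c3 : (ipc u : ℤ) = 0 := c1
      have c4 : (ikp (tlo G T hm) (σ i) u : ℤ) ≠ 0 := c2
      exact ⟨by exact_mod_cast c3, by exact_mod_cast c4⟩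
    have hT : ∀ x ∈ T, ∀ u ∈ pkf (B x) (Ps x), ∀ y, ikp (tlo G T hm) y u ≠ 0 →
        ρ y < n ∧ σ (ρ y) = y := by
      intro x hx u hu y hy
      obtain ⟨v, hv, hvy⟩ := ikp_ne_tail (fun Q hQ => (hfam x hx).two Q (hQ ▸ hu)) hy
      have hvH : v ∈ hz G Z T hm x := by
        rcases u with Q | e
        · exact (hfam x hx).sub Q hu hv
        · simp only [imem, mem_singleton] at hv
          exact hv ▸ (hfam x hx).pcH e hu
      have h5 := mem_of_mem_erase (h.toWHom.ht x hx v hvH)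
      rw [hvy] at h5
      exact ⟨by rw [← hcard]; exact rk.lt y h5, rk.left y h5⟩
    have h1 := h.cellG hp hpk (hmem i hi) (hmem j hj) (hne i hi j hj hij)
      (fun u hu => (a1 u hu).1) (fun u hu => (a2 u hu).1) b1 b2 (J := I.image σ)
      (mem_image_of_mem σ hiI) (mem_image_of_mem σ hjI) (fun u hu y hy => by
        obtain ⟨b1, b2⟩ := hT _ (hmem i hi) u (a1 u hu).1 y hy
        refine mem_image.2 ⟨ρ y, hIK u hu (ρ y) b1 ?_, b2⟩
        show (ikp (tlo G T hm) (σ (ρ y)) u : ℤ) ≠ 0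
        rw [b2]
        exact_mod_cast hy) (fun u hu y hy => by
        obtain ⟨b1, b2⟩ := hT _ (hmem j hj) u (a2 u hu).1 y hy
        refine mem_image.2 ⟨ρ y, hIK' u hu (ρ y) b1 ?_, b2⟩
        show (ikp (tlo G T hm) (σ (ρ y)) u : ℤ) ≠ 0
        rw [b2]
        exact_mod_cast hy) q (M := pcn (tlo G T hm) B (σ i) (σ j) + pcn (tlo G T hm) B (σ j) (σ i))
      (w := w) rfl hw
    have h3 : (I.image σ).card = I.card := rk.card_image (by rw [hcard]; exact hI)
    rw [h3] at h1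
    have key : ∀ i < n, ∀ j < n, i ≠ j → ∀ u, u ∈ pkf (B (σ i)) (Ps (σ i)) ∧ host u = σ i →
        (ipc u = 0 ∧ ikp (tlo G T hm) (σ j) u ≠ 0) →
        (irs G (cz G Z T hm (σ i)) (tlo G T hm) (B (σ i)) (σ j) u : ℤ)
          ≤ ∑ l ∈ (range n).erase i,
            ((nui G (cz G Z T hm (host u)) (tlo G T hm) (B (host u)) (σ l) u : ℤ)
              + if l = j then 0 else (ikp (tlo G T hm) (σ l) u : ℤ)
                * pcn (tlo G T hm) B (σ i) (σ l)) := by
      intro i hi j hj hij u hu h0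
      refine (h.irs_le hpk (hmem i hi) hu.1 h0).trans ?_
      rw [her i hi, hu.2]
      refine le_of_eq (sum_congr rfl fun l hl => ?_)
      have e1 : (σ l = σ j) ↔ l = j := ⟨fun h1 => rk.sinj
        (by rw [hcard]; exact mem_range.1 (mem_of_mem_erase hl)) (by rw [hcard]; exact hj) h1,
        fun h1 => by rw [h1]⟩
      by_cases h5 : l = j
      · rw [if_pos h5, if_pos (e1.2 h5)]
      · rw [if_neg h5, if_neg fun h6 => h5 (e1.1 h6)]
        rfl
    have s1 : ∑ u ∈ K, (((r : ℤ) - 1) * ikp (tlo G T hm) (σ j) u + tI G Z T hm r Z (σ j)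
          - rmr G (cz G Z T hm) (tlo G T hm) (σ j) u
          - ∑ l ∈ (range n).erase i,
            ((nui G (cz G Z T hm (host u)) (tlo G T hm) (B (host u)) (σ l) u : ℤ)
              + if l = j then 0 else (ikp (tlo G T hm) (σ l) u : ℤ)
                * pcn (tlo G T hm) B (σ i) (σ l)))
        ≤ ∑ u ∈ K, (((r : ℤ) - 1) * ikp (tlo G T hm) (σ j) u + tI G Z T hm r Z (σ j)
          - rmr G (cz G Z T hm) (tlo G T hm) (σ j) u
          - irs G (cz G Z T hm (σ i)) (tlo G T hm) (B (σ i)) (σ j) u) :=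
      sum_le_sum fun u hu => by
        have := key i hi j hj hij u (a1 u hu) (b1 u hu)
        linarith
    have s2 : ∑ u ∈ K', (((r : ℤ) - 1) * ikp (tlo G T hm) (σ i) u + tI G Z T hm r Z (σ i)
          - rmr G (cz G Z T hm) (tlo G T hm) (σ i) u
          - ∑ l ∈ (range n).erase j,
            ((nui G (cz G Z T hm (host u)) (tlo G T hm) (B (host u)) (σ l) u : ℤ)
              + if l = i then 0 else (ikp (tlo G T hm) (σ l) u : ℤ)
                * pcn (tlo G T hm) B (σ j) (σ l)))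
        ≤ ∑ u ∈ K', (((r : ℤ) - 1) * ikp (tlo G T hm) (σ i) u + tI G Z T hm r Z (σ i)
          - rmr G (cz G Z T hm) (tlo G T hm) (σ i) u
          - irs G (cz G Z T hm (σ j)) (tlo G T hm) (B (σ j)) (σ i) u) :=
      sum_le_sum fun u hu => by
        have := key j hj i hi (Ne.symm hij) u (a2 u hu) (b2 u hu)
        linarith
    show 2 * ((pcn (tlo G T hm) B (σ i) (σ j) + pcn (tlo G T hm) B (σ j) (σ i) - 1)
        * ((r : ℤ) - 1)) + 2 * _ + 2 * _ ≤ _
    refine le_trans ?_ h1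
    gcongr

end Tr

end Pool.Agent.Lib.MP_f04ccf_co
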