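import Pool.Agent.Lib.MP_f04ccf_co.M.RowMS
import Pool.Agent.Lib.MP_f04ccf_co.M.CellS

/-!
MP_f04ccf_co, PLAN W: missing pairs saved among the points used in a row test, classes of items.

* `NE_cls_le`: adjacent pairs inside the classes and between groups of different classes;
* `WCoreK.sav`: classes of items with few rows (Turan's bound with any slope `q`, the number of points is
  exact), together with the pairs of items of one host, of different classes, used with all their points.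
-/

set_option autoImplicit false

namespace Pool.Agent.Lib.MP_f04ccf_co

open Finset

attribute [local instance] Classical.propDecidable

section Cls

variable {ι V : Type*} {G : SimpleGraph V}

/-- the adjacent pairs as a set of pairs -/
lemma E_eq_card (W : Finset V) :
    E G W = ((W ×ˢ W).filter fun e => G.Adj e.1 e.2).card := by
  unfold E dg
  rw [card_filter, sum_product]
  exact sum_congr rfl fun v _ => card_filter _ _

/-- **missing pairs of a union of groups in classes**: the adjacent pairs inside the classes and one for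
every pair of groups in `D` (of different classes) are saved -/
theorem NE_cls_le {K : Finset ι} {P : ι → Finset V}
    (hd : ∀ u ∈ K, ∀ v ∈ K, u ≠ v → Disjoint (P u) (P v)) {cl : ι → ℕ} {M : ℕ}
    {D : Finset (ι × ι)}
    (hD : ∀ e ∈ D, e.1 ∈ K ∧ e.2 ∈ K ∧ cl e.1 ≠ cl e.2 ∧ ∃ p ∈ P e.1, ∃ q ∈ P e.2, G.Adj p q) :
    (NE G (K.biUnion P) : ℤ)
      + (∑ c ∈ range M, (E G ((K.filter fun u => cl u = c).biUnion P) : ℤ) + D.card)
      + (K.biUnion P).card
      ≤ ((K.biUnion P).card : ℤ) * (K.biUnion P).card := by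
  set W := K.biUnion P with hW
  set Wc : ℕ → Finset V := fun c => (K.filter fun u => cl u = c).biUnion P with hWc
  have h0 := E_add_NE (G := G) W
  have hE : ∀ c, E G (Wc c) = ((Wc c ×ˢ Wc c).filter fun e => G.Adj e.1 e.2).card :=
    fun c => E_eq_card _
  have huniq : ∀ u ∈ K, ∀ v ∈ K, ∀ w, w ∈ P u → w ∈ P v → u = v := by
    intro u hu v hv w hwu hwv
    by_contra hne
    exact disjoint_left.1 (hd u hu v hv hne) hwu hwv
  have hmc : ∀ c w, w ∈ Wc c → ∃ u ∈ K, cl u = c ∧ w ∈ P u := by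
    intro c w hw
    obtain ⟨u, hu, hwu⟩ := mem_biUnion.1 hw
    obtain ⟨h1, h2⟩ := mem_filter.1 hu
    exact ⟨u, h1, h2, hwu⟩
  set SC := (range M).biUnion fun c => (Wc c ×ˢ Wc c).filter fun e => G.Adj e.1 e.2 with hSC
  set SD := D.biUnion fun e => (P e.1 ×ˢ P e.2).filter fun f => G.Adj f.1 f.2 with hSD
  have h1 : ∑ c ∈ range M, E G (Wc c) = SC.card := by
    rw [hSC, card_biUnion]
    · exact sum_congr rfl fun c _ => hE c
    · intro c _ c' _ hcc
      show Disjoint _ _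
      rw [disjoint_left]
      intro e he he'
      obtain ⟨h2, -⟩ := mem_filter.1 he
      obtain ⟨h3, -⟩ := mem_filter.1 he'
      obtain ⟨u, hu, hc, hwu⟩ := hmc c _ (mem_product.1 h2).1
      obtain ⟨v, hv, hc', hwv⟩ := hmc c' _ (mem_product.1 h3).1
      exact hcc (by rw [← hc, ← hc', huniq u hu v hv _ hwu hwv])
  have h2 : D.card ≤ SD.card := by
    rw [hSD, card_biUnion]
    · rw [card_eq_sum_ones]
      refine sum_le_sum fun e he => ?_
      obtain ⟨-, -, -, p, hp, q, hq, hpq⟩ := hD e he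
      exact card_pos.2 ⟨(p, q), mem_filter.2 ⟨mem_product.2 ⟨hp, hq⟩, hpq⟩⟩
    · intro e he f hf hef
      obtain ⟨ha, hb, -⟩ := hD e he
      obtain ⟨ha', hb', -⟩ := hD f hf
      show Disjoint _ _
      rw [disjoint_left]
      intro g hg hg'
      obtain ⟨h2, h3⟩ := mem_product.1 (mem_filter.1 hg).1
      obtain ⟨h4, h5⟩ := mem_product.1 (mem_filter.1 hg').1
      exact hef (Prod.ext (huniq _ ha _ ha' _ h2 h4) (huniq _ hb _ hb' _ h3 h5))
  have h3 : Disjoint SC SD := by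
    rw [disjoint_left]
    intro g hg hg'
    obtain ⟨c, -, h4⟩ := mem_biUnion.1 hg
    obtain ⟨e, he, h5⟩ := mem_biUnion.1 hg'
    obtain ⟨h6, h7⟩ := mem_product.1 (mem_filter.1 h4).1
    obtain ⟨h8, h9⟩ := mem_product.1 (mem_filter.1 h5).1
    obtain ⟨ha, hb, hne, -⟩ := hD e he
    obtain ⟨u, hu, hc, hwu⟩ := hmc c _ h6
    obtain ⟨v, hv, hc', hwv⟩ := hmc c _ h7
    apply hne
    rw [← huniq u hu _ ha _ hwu h8, ← huniq v hv _ hb _ hwv h9, hc, hc']
  have h4 : SC ∪ SD ⊆ (W ×ˢ W).filter fun e => G.Adj e.1 e.2 := by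
    intro g hg
    rcases mem_union.1 hg with hg | hg
    · obtain ⟨c, -, h4⟩ := mem_biUnion.1 hg
      obtain ⟨h5, h6⟩ := mem_filter.1 h4
      obtain ⟨h7, h8⟩ := mem_product.1 h5
      have hsub : Wc c ⊆ W := biUnion_subset_biUnion_of_subset_left _ (filter_subset _ _)
      exact mem_filter.2 ⟨mem_product.2 ⟨hsub h7, hsub h8⟩, h6⟩
    · obtain ⟨e, he, h5⟩ := mem_biUnion.1 hg
      obtain ⟨h6, h7⟩ := mem_filter.1 h5
      obtain ⟨h8, h9⟩ := mem_product.1 h6
      obtain ⟨ha, hb, -⟩ := hD e he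
      exact mem_filter.2 ⟨mem_product.2 ⟨mem_biUnion.2 ⟨_, ha, h8⟩, mem_biUnion.2 ⟨_, hb, h9⟩⟩, h7⟩
  have h5 := card_le_card h4
  rw [card_union_of_disjoint h3, ← E_eq_card] at h5
  have h6 : ((∑ c ∈ range M, E G (Wc c) : ℕ) : ℤ) + D.card ≤ E G W := by
    rw [h1]
    have : SC.card + D.card ≤ E G W := by omega
    exact_mod_cast this
  push_cast at h6
  linarith

end Cls

section Sav

variable {V : Type*} {G : SimpleGraph V} {Z T : Finset V} {hm : V → V} {r m n p : ℕ}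
  {B : V → Finset (V × V)} {Ps : V → Finset (Finset V)}

/-- the used points of an item outside the columns: their number -/
lemma WCoreK.card_out (h : WCoreK G Z T r m n p hm)
    (hpk : ∀ x ∈ T, Pk G (cz G Z T hm x) (hz G Z T hm x) (tlo G T hm) (B x) (Ps x))
    {z x : V} (hx : x ∈ T) {J : Finset V} (hJ : J ⊆ T) {u : Itm V} (hu : u ∈ pkf (B x) (Ps x))
    (hk : ikp (tlo G T hm) z u ≠ 0) :
    ((rpts (tlo G T hm) (fun Q => one1 (oth (tlo G T hm) z Q)) z u
      \ J.biUnion (cz G Z T hm)).card : ℤ)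
      = (ikp (tlo G T hm) z u : ℤ) + 1 - if x ∈ J then (ipc u : ℤ) else 0 := by
  have hfam : ∀ x ∈ T, Fam (co G) (cz G Z T hm) (hz G Z T hm) (tlo G T hm) x
      (pkf (B x) (Ps x)) := fun x hx => (hpk x hx).fam (h.csys.dCH hx hx).symm
  have h1 := Fam.rpts_own h.wsysT hfam hx hu hk
  have hf := hfam x hx
  have hHC : ∀ y ∈ T, ∀ v, v ∈ hz G Z T hm x → v ∉ cz G Z T hm y := fun y hy v h1 h2 =>
    disjoint_left.1 (h.wsysT.dHC x hx y hy) h1 h2
  rcases u with Q | e
  · have h2 : ∀ S : Finset V, (∀ v ∈ rpts (tlo G T hm) (fun Q => one1 (oth (tlo G T hm) z Q)) z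
        (Sum.inl Q), v ∉ S) → rpts (tlo G T hm) (fun Q => one1 (oth (tlo G T hm) z Q)) z
        (Sum.inl Q) \ S = rpts (tlo G T hm) (fun Q => one1 (oth (tlo G T hm) z Q)) z
        (Sum.inl Q) := fun S hS => by
      rw [Finset.sdiff_eq_self_iff_disjoint, disjoint_left]
      exact hS
    have h3 : ∀ v ∈ rpts (tlo G T hm) (fun Q => one1 (oth (tlo G T hm) z Q)) z (Sum.inl Q),
        v ∈ hz G Z T hm x := fun v hv => hf.sub Q hu (hf.rpts_sub (fun Q => one1_sub _) hv)
    rw [h2 _ fun v hv hv' => by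
      obtain ⟨y, hy, hvy⟩ := mem_biUnion.1 hv'
      exact hHC y (hJ hy) v (h3 v hv) hvy]
    have h4 : rpts (tlo G T hm) (fun Q => one1 (oth (tlo G T hm) z Q)) z (Sum.inl Q)
        \ CP G Z T (fun x => Z.filter fun v => hm v = x) x
        = rpts (tlo G T hm) (fun Q => one1 (oth (tlo G T hm) z Q)) z (Sum.inl Q) :=
      h2 _ fun v hv hv' => hHC x hx v (h3 v hv) hv'
    rw [h4] at h1
    have h5 : ((rpts (tlo G T hm) (fun Q => one1 (oth (tlo G T hm) z Q)) z
        (Sum.inl Q)).card : ℤ) = (ikp (tlo G T hm) z (Sum.inl Q) : ℤ) + 1 := by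
      simp only [ipc, Nat.add_zero] at h1
      exact_mod_cast h1
    rw [h5]
    simp [ipc]
  · have h2 : e.1 ≠ e.2 := (hf.pcF e hu).ne
    have h3 : ikp (tlo G T hm) z (Sum.inr e : Itm V) = 1 := by
      by_cases h4 : tlo G T hm e.1 = z
      · simp only [ikp, h4, if_true]
      · exact absurd (by simp only [ikp, h4, if_false]) hk
    have h4 : rpts (tlo G T hm) (fun Q => one1 (oth (tlo G T hm) z Q)) z (Sum.inr e)
        = {e.1, e.2} := rfl
    rw [h4, h3]
    by_cases hxJ : x ∈ J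
    · have h5 : ({e.1, e.2} : Finset V) \ J.biUnion (cz G Z T hm) = {e.1} := by
        ext v
        simp only [mem_sdiff, mem_insert, mem_singleton]
        constructor
        · rintro ⟨h6 | h6, h7⟩
          · exact h6
          · exact absurd (mem_biUnion.2 ⟨x, hxJ, h6 ▸ hf.pcC e hu⟩) h7
        · rintro rfl
          refine ⟨Or.inl rfl, fun h6 => ?_⟩
          obtain ⟨y, hy, hvy⟩ := mem_biUnion.1 h6
          exact hHC y (hJ hy) _ (hf.pcH e hu) hvy
      rw [h5, if_pos hxJ]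
      simp [ipc]
    · have h5 : ({e.1, e.2} : Finset V) \ J.biUnion (cz G Z T hm) = {e.1, e.2} := by
        rw [Finset.sdiff_eq_self_iff_disjoint, disjoint_left]
        intro v hv hv'
        obtain ⟨y, hy, hvy⟩ := mem_biUnion.1 hv'
        rcases mem_insert.1 hv with h6 | h6
        · exact hHC y (hJ hy) _ (hf.pcH e hu) (h6 ▸ hvy)
        · rw [mem_singleton] at h6
          refine disjoint_left.1 (h.wsysT.dCC x hx y (hJ hy) fun h7 => hxJ (h7 ▸ hy))
            (hf.pcC e hu) (h6 ▸ hvy)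
      rw [h5, if_neg hxJ, card_pair h2]
      norm_num

/-- **the saving**: classes of items with few rows, and pairs of items of one host of different classes -/
theorem WCoreK.sav (h : WCoreK G Z T r m n p hm) {host : Itm V → V}
    (hpk : ∀ x ∈ T, Pk G (cz G Z T hm x) (hz G Z T hm x) (tlo G T hm) (B x) (Ps x))
    (min : ∀ x ∈ T, ∀ B' Ps', Pk G (cz G Z T hm x) (hz G Z T hm x) (tlo G T hm) B' Ps' →
      (Ps x).card ≤ Ps'.card)
    (hst : ∀ x ∈ T, ∀ u ∈ pkf (B x) (Ps x), host u = x)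
    {z : V} {J : Finset V} (hJ : J ⊆ T) {K : Finset (Itm V)}
    (hK : K ⊆ (T.erase z).biUnion fun x => pkf (B x) (Ps x))
    {cl : Itm V → ℕ} {M : ℕ} (q : ℕ → ℤ) (I : ℕ → Finset V)
    (hI : ∀ u ∈ K, ikp (tlo G T hm) z u ≠ 0 → q (cl u) ≠ 0 → host u ∈ I (cl u)
      ∧ ∀ l, ikp (tlo G T hm) l u ≠ 0 → l ∈ I (cl u)) :
    (NE G ((K.filter fun u => ikp (tlo G T hm) z u ≠ 0).biUnion
        (rpts (tlo G T hm) (fun Q => one1 (oth (tlo G T hm) z Q)) z)
        \ J.biUnion (CP G Z T fun x => Z.filter fun v => hm v = x)) : ℤ)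
      + (∑ c ∈ range M, (2 * q c * ∑ u ∈ K.filter (fun u => ikp (tlo G T hm) z u ≠ 0 ∧ cl u = c),
          ((ikp (tlo G T hm) z u : ℤ) + 1 - if host u ∈ J then (ipc u : ℤ) else 0)
          - (I c).card * (q c * (q c + 1)))
        + ((K ×ˢ K).filter fun e => e.1 ≠ e.2 ∧ host e.1 = host e.2 ∧ cl e.1 ≠ cl e.2
          ∧ ikp (tlo G T hm) z e.1 = ivl e.1 ∧ ikp (tlo G T hm) z e.2 = ivl e.2
          ∧ (host e.1 ∈ J → ipc e.1 = 0 ∧ ipc e.2 = 0)).card)
      + ((K.filter fun u => ikp (tlo G T hm) z u ≠ 0).biUnion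
        (rpts (tlo G T hm) (fun Q => one1 (oth (tlo G T hm) z Q)) z)
        \ J.biUnion (CP G Z T fun x => Z.filter fun v => hm v = x)).card
      ≤ (((K.filter fun u => ikp (tlo G T hm) z u ≠ 0).biUnion
        (rpts (tlo G T hm) (fun Q => one1 (oth (tlo G T hm) z Q)) z)
        \ J.biUnion (CP G Z T fun x => Z.filter fun v => hm v = x)).card : ℤ)
        * ((K.filter fun u => ikp (tlo G T hm) z u ≠ 0).biUnion
        (rpts (tlo G T hm) (fun Q => one1 (oth (tlo G T hm) z Q)) z)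
        \ J.biUnion (CP G Z T fun x => Z.filter fun v => hm v = x)).card := by
  have hfam : ∀ x ∈ T, Fam (co G) (cz G Z T hm) (hz G Z T hm) (tlo G T hm) x
      (pkf (B x) (Ps x)) := fun x hx => (hpk x hx).fam (h.csys.dCH hx hx).symm
  obtain ⟨X, hXd⟩ : ∃ X : Finset V → Finset V, X = fun Q => one1 (oth (tlo G T hm) z Q) :=
    ⟨_, rfl⟩
  have hX : ∀ Q, X Q ⊆ oth (tlo G T hm) z Q := fun Q => hXd ▸ one1_sub _
  obtain ⟨C, hC⟩ : ∃ C : Finset V, C = J.biUnion (CP G Z T fun x => Z.filter fun v => hm v = x) :=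
    ⟨_, rfl⟩
  obtain ⟨L, hL⟩ : ∃ L, L = K.filter fun u => ikp (tlo G T hm) z u ≠ 0 := ⟨_, rfl⟩
  obtain ⟨P, hP⟩ : ∃ P : Itm V → Finset V, P = fun u => rpts (tlo G T hm) X z u \ C := ⟨_, rfl⟩
  rw [← hXd, ← hC, ← hL]
  have hLK : L ⊆ K := hL ▸ filter_subset _ _
  have hk : ∀ u ∈ L, ikp (tlo G T hm) z u ≠ 0 := by
    intro u hu
    rw [hL] at hu
    exact (mem_filter.1 hu).2
  have hown : ∀ u ∈ K, ∃ x ∈ T, u ∈ pkf (B x) (Ps x) ∧ host u = x := by
    intro u hu
    obtain ⟨x, hx, hux⟩ := mem_biUnion.1 (hK hu)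
    exact ⟨x, mem_of_mem_erase hx, hux, hst x (mem_of_mem_erase hx) u hux⟩
  have hdis : ∀ u ∈ L, ∀ v ∈ L, u ≠ v → Disjoint (P u) (P v) := by
    intro u hu v hv huv
    obtain ⟨x, hx, hux, -⟩ := hown u (hLK hu)
    obtain ⟨x', hx', hvx, -⟩ := hown v (hLK hv)
    rw [hP]
    exact ((Fam.dis_row h.wsysT hfam hx hx' hux hvx huv (hk u hu) (hk v hv)).mono
      ((hfam x hx).rpts_sub hX) ((hfam x' hx').rpts_sub hX)).mono sdiff_subset sdiff_subset
  have hsd : ∀ L' : Finset (Itm V), L'.biUnion (rpts (tlo G T hm) X z) \ C = L'.biUnion P := by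
    intro L'
    rw [hP]
    ext v
    simp only [mem_sdiff, mem_biUnion]
    constructor
    · rintro ⟨⟨u, hu, hv⟩, hv'⟩
      exact ⟨u, hu, hv, hv'⟩
    · rintro ⟨u, hu, hv, hv'⟩
      exact ⟨⟨u, hu, hv⟩, hv'⟩
  rw [hsd L]
  obtain ⟨D, hDd⟩ : ∃ D, D = (K ×ˢ K).filter fun e => e.1 ≠ e.2 ∧ host e.1 = host e.2
      ∧ cl e.1 ≠ cl e.2 ∧ ikp (tlo G T hm) z e.1 = ivl e.1 ∧ ikp (tlo G T hm) z e.2 = ivl e.2
      ∧ (host e.1 ∈ J → ipc e.1 = 0 ∧ ipc e.2 = 0) := ⟨_, rfl⟩
  have hfull : ∀ u ∈ K, ikp (tlo G T hm) z u = ivl u → u ∈ L := by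
    intro u hu h1
    obtain ⟨x, hx, hux, -⟩ := hown u hu
    rw [hL]
    refine mem_filter.2 ⟨hu, ?_⟩
    have := (hfam x hx).ivl_pos hux
    omega
  have hX2 : ∀ Q, (oth (tlo G T hm) z Q).Nonempty → 1 ≤ (X Q).card := by
    intro Q hQ
    rw [hXd]
    show 1 ≤ (one1 (oth (tlo G T hm) z Q)).card
    unfold one1
    rw [dif_pos hQ, card_singleton]
  have hDD : ∀ e ∈ D, e.1 ∈ L ∧ e.2 ∈ L ∧ cl e.1 ≠ cl e.2 ∧
      ∃ p ∈ P e.1, ∃ q ∈ P e.2, G.Adj p q := by
    intro e he
    rw [hDd] at he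
    obtain ⟨h7, h8, h9, h10, h11, h12, h13⟩ := mem_filter.1 he
    obtain ⟨ha, hb⟩ := mem_product.1 h7
    have haL := hfull _ ha h11
    have hbL := hfull _ hb h12
    refine ⟨haL, hbL, h10, ?_⟩
    obtain ⟨x, hx, hux, hxx⟩ := hown e.1 ha
    obtain ⟨y, hy, huy, hyy⟩ := hown e.2 hb
    have hxy : x = y := by rw [← hxx, ← hyy, h9]
    subst hxy
    obtain ⟨p, hp, q, hq, hpq⟩ := Pk.adj_full h.F.toPFrame h.hh h.csys h.ht hx (hpk x hx)
      (min x hx) hux huy h8 h11 h12
    have hout : ∀ w : Itm V, w ∈ pkf (B x) (Ps x) → (x ∈ J → ipc w = 0) →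
        ∀ p ∈ ipts w, p ∉ C := by
      intro w hw hw0 p hp hpj
      rw [hC] at hpj
      obtain ⟨j, hj, hpj2⟩ := mem_biUnion.1 hpj
      have hjT := hJ hj
      by_cases hxj : x = j
      · have h11 := hw0 (hxj ▸ hj)
        rcases w with Q | f
        · exact disjoint_left.1 (h.wsysT.dHC x hx _ hjT)
            ((hfam x hx).sub Q hw hp) hpj2
        · simp [ipc] at h11
      · have h12 := (hfam x hx).ipts_sub hw hp
        rcases mem_union.1 h12 with h13 | h13
        · exact disjoint_left.1 (h.wsysT.dHC x hx _ hjT) h13 hpj2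
        · exact disjoint_left.1 (h.wsysT.dCC x hx _ hjT hxj) h13 hpj2
    rw [hP]
    simp only
    rw [rpts_full hX hX2 (fun Q hQ => (hfam x hx).two Q (hQ ▸ hux)) h11,
      rpts_full hX hX2 (fun Q hQ => (hfam x hx).two Q (hQ ▸ huy)) h12]
    rw [hxx] at h13
    exact ⟨p, mem_sdiff.2 ⟨hp, hout _ hux (fun h14 => (h13 h14).1) p hp⟩, q,
      mem_sdiff.2 ⟨hq, hout _ huy (fun h14 => (h13 h14).2) q hq⟩, hpq⟩
  have h1 := NE_cls_le (G := G) (K := L) (P := P) hdis (cl := cl) (M := M) hDD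
  -- the classes
  have h2 : ∀ c ∈ range M, 2 * q c * ∑ u ∈ K.filter (fun u => ikp (tlo G T hm) z u ≠ 0 ∧ cl u = c),
        ((ikp (tlo G T hm) z u : ℤ) + 1 - if host u ∈ J then (ipc u : ℤ) else 0)
        - (I c).card * (q c * (q c + 1))
      ≤ (E G ((L.filter fun u => cl u = c).biUnion P) : ℤ) := by
    intro c _
    have e1 : K.filter (fun u => ikp (tlo G T hm) z u ≠ 0 ∧ cl u = c)
        = L.filter fun u => cl u = c := by
      rw [hL, filter_filter]
    rw [e1]
    by_cases hq : q c = 0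
    · rw [hq]
      simp
    have e2 : ((((L.filter fun u => cl u = c).biUnion P).card : ℕ) : ℤ)
        = ∑ u ∈ L.filter (fun u => cl u = c),
          ((ikp (tlo G T hm) z u : ℤ) + 1 - if host u ∈ J then (ipc u : ℤ) else 0) := by
      rw [card_biUnion fun u hu v hv huv => hdis u (mem_filter.1 hu).1 v (mem_filter.1 hv).1 huv]
      push_cast
      refine sum_congr rfl fun u hu => ?_
      obtain ⟨x, hx, hux, hxx⟩ := hown u (hLK (mem_filter.1 hu).1)
      have h3 := h.card_out hpk hx hJ hux (hk u (mem_filter.1 hu).1)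
      rw [hP, hxx, ← h3, hXd, hC]
    have h4 := E_add_NE (G := G) ((L.filter fun u => cl u = c).biUnion P)
    have hmem : ∀ v ∈ (L.filter fun u => cl u = c).biUnion P, v ∈ Z ∧ rws G T v ⊆ I c := by
      intro v hv
      obtain ⟨u, hu, hvu⟩ := mem_biUnion.1 hv
      obtain ⟨huL, huc⟩ := mem_filter.1 hu
      obtain ⟨x, hx, hux, hxx⟩ := hown u (hLK huL)
      obtain ⟨i1, i2⟩ := hI u (hLK huL) (hk u huL) (by rw [huc]; exact hq)
      rw [huc, hxx] at i1
      rw [huc] at i2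
      rw [hP] at hvu
      have h5 := (hfam x hx).rpts_sub hX (mem_sdiff.1 hvu).1
      have h6 := (hfam x hx).ipts_sub hux h5
      rcases mem_union.1 h6 with h7 | h7
      · refine ⟨h.csys.subZ hx (HP_sub h7), ?_⟩
        have h8 : rws G T v = {x, tlo G T hm v} := h.csys.rws_HP h.hh hx h7
        rw [h8]
        intro j hj
        rcases mem_insert.1 hj with h9 | h9
        · exact h9 ▸ i1
        · rw [mem_singleton.1 h9]
          refine i2 _ (ikp_tail_ne (fun Q hQ => (hfam x hx).two Q (hQ ▸ hux)) ?_)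
          rcases u with Q | e
          · exact h5
          · have h10 : v ∈ ({e.1, e.2} : Finset V) := h5
            rcases mem_insert.1 h10 with h11 | h11
            · exact h11 ▸ mem_singleton_self _
            · rw [mem_singleton] at h11
              exact absurd ((hfam x hx).pcC e hux)
                (fun h12 => disjoint_left.1 (h.wsysT.dHC x hx x hx) h7 (h11 ▸ h12))
      · have h8 : v ∈ Cl G Z T x := (mem_CP.1 h7).2
        refine ⟨((mem_Cl_iff_rws hx).1 h8).1, ?_⟩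
        rw [rws_Cl hx h8, singleton_subset_iff]
        exact i1
    have h5 := h.F.toPFrame.NE_rows (I := I c) (fun v hv => (hmem v hv).1)
      (fun v hv => (hmem v hv).2) (q c)
    rw [e2] at h5 h4
    linarith
  have h3 := sum_le_sum h2
  rw [← hDd]
  linarith

end Sav

end Pool.Agent.Lib.MP_f04ccf_co
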