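import Pool.Agent.Lib.MP_f04ccf_co.M.PayU
import Pool.Agent.Lib.MP_f04ccf_co.M.SavT

/-!
MP_f04ccf_co, PLAN W, version [B]: the row test with the columns of a set `J` of rows over the row indices,
a payment of every cell, any saving by classes.

* `PayI`, `SavI`: the payments and the savings over the items (numbers);
* `WCoreK.rowJU`: the test with any payments `PayC` and any saving number;
* `WCoreK.payI`, `WCoreK.savI`: the numbers are payments / savings.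
-/

set_option autoImplicit false

namespace Pool.Agent.Lib.MP_f04ccf_co

open Finset

attribute [local instance] Classical.propDecidable

section Defs

variable {ι : Type*}

/-- **the payment `P` of the cell `{i, j}`** in the test of the row `i` with the column of `j`, used items `K`:
the arcs of the cell, the rectangle of any item, of an N-type of `j` with tail `i`, of an N-type of `i` with
tail `j` -/
def PayI (U : Finset ι) (ho : ι → ℕ) (vl : ι → ℤ) (kp ms : ℕ → ι → ℤ) (Nx be : ℕ → ℕ → ℤ)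
    (pc : ι → ℤ) (pw : ℕ → ℕ → ℤ) (nu : ℕ → ι → ℤ) (i j : ℕ) (K : Finset ι) (P : ℤ) : Prop :=
  P ≤ Nx i j + pw i j
  ∨ (∃ w ∈ U, P ≤ max 0 (ms i w - be i j)
      * max 0 (ms j w - ∑ u ∈ K, (if ho u = j then pc u * kp i u else 0)))
  ∨ (∃ w ∈ U, ho w = j ∧ vl w = 1 ∧ kp i w ≠ 0 ∧
      P ≤ nu i w * max 0 (max (nu i w + pc w) (ms i w) - be i j))
  ∨ (∃ w ∈ U, ho w = i ∧ vl w = 1 ∧ kp j w ≠ 0 ∧
      P ≤ nu j w * max 0 (max (nu j w + pc w) (ms j w)
        - ∑ u ∈ K, (if ho u = j then pc u * kp i u else 0)))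

/-- **the saving `sv`** of missing pairs in the test of the row `i` with the columns of `J`, used items `K`:
classes `cl u < M` of the used items, the rows of a class with `q ≠ 0` are in `I`, Turan's bound with the slope
`q` in the class, and one adjacent pair (two ordered ones) for two items of one host and of different
classes which are used with all their points -/
def SavI (n : ℕ) (ho : ι → ℕ) (vl : ι → ℤ) (kp : ℕ → ι → ℤ) (pc : ι → ℤ) (i : ℕ) (J : Finset ℕ)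
    (K : Finset ι) (sv : ℤ) : Prop :=
  ∃ (cl : ι → ℕ) (M : ℕ) (q : ℕ → ℤ) (I : ℕ → Finset ℕ), (∀ c, I c ⊆ range n) ∧
    (∀ u ∈ K, kp i u ≠ 0 → q (cl u) ≠ 0 → ho u ∈ I (cl u)
      ∧ ∀ l < n, kp l u ≠ 0 → l ∈ I (cl u)) ∧
    sv ≤ ∑ c ∈ range M, (2 * q c * ∑ u ∈ K.filter (fun u => kp i u ≠ 0 ∧ cl u = c),
          (kp i u + 1 - if ho u ∈ J then pc u else 0) - (I c).card * (q c * (q c + 1)))
        + ((K ×ˢ K).filter fun e => e.1 ≠ e.2 ∧ ho e.1 = ho e.2 ∧ cl e.1 ≠ cl e.2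
          ∧ kp i e.1 = vl e.1 ∧ kp i e.2 = vl e.2
          ∧ (ho e.1 ∈ J → pc e.1 = 0 ∧ pc e.2 = 0)).card

end Defs

section RowU

variable {V : Type*} {G : SimpleGraph V} {Z T : Finset V} {hm : V → V} {r m n p : ℕ}
  {B : V → Finset (V × V)} {Ps : V → Finset (Finset V)}

/-- **the row test with the columns of a set `J` of rows**, payments `P j` of the cells, saving `sv` -/
theorem WCoreK.rowJU (h : WCoreK G Z T r m n p hm)
    {host : Itm V → V} {ρ : V → ℕ} {σ : ℕ → V}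
    (hpk : ∀ x ∈ T, Pk G (cz G Z T hm x) (hz G Z T hm x) (tlo G T hm) (B x) (Ps x))
    (hst : ∀ x ∈ T, ∀ u ∈ pkf (B x) (Ps x), host u = x)
    (rk : Rank T (tI G Z T hm r Z) ρ σ) {i : ℕ} (hi : i < n) {J : Finset ℕ} (hJ : ∀ j ∈ J, j < n)
    (hiJ : i ∉ J) {K : Finset (Itm V)}
    (hK : K ⊆ T.biUnion fun x => pkf (B x) (Ps x)) (hKh : ∀ u ∈ K, ρ (host u) ≠ i)
    (h0 : 0 ≤ sI hm r Z (σ i) + ∑ u ∈ K, (ikp (tlo G T hm) (σ i) u : ℤ)) {P : ℕ → ℤ}
    (hP : ∀ j ∈ J, PayC G Z T hm B Ps (K.filter fun u => ikp (tlo G T hm) (σ i) u ≠ 0)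
      (fun Q => one1 (oth (tlo G T hm) (σ i) Q)) (σ i) (σ j) (P j)) {sv : ℤ}
    (hsv : (NE G ((K.filter fun u => ikp (tlo G T hm) (σ i) u ≠ 0).biUnion
        (rpts (tlo G T hm) (fun Q => one1 (oth (tlo G T hm) (σ i) Q)) (σ i))
        \ (J.image σ).biUnion (CP G Z T fun x => Z.filter fun v => hm v = x)) : ℤ) + sv
      + ((K.filter fun u => ikp (tlo G T hm) (σ i) u ≠ 0).biUnion
        (rpts (tlo G T hm) (fun Q => one1 (oth (tlo G T hm) (σ i) Q)) (σ i))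
        \ (J.image σ).biUnion (CP G Z T fun x => Z.filter fun v => hm v = x)).card
      ≤ (((K.filter fun u => ikp (tlo G T hm) (σ i) u ≠ 0).biUnion
        (rpts (tlo G T hm) (fun Q => one1 (oth (tlo G T hm) (σ i) Q)) (σ i))
        \ (J.image σ).biUnion (CP G Z T fun x => Z.filter fun v => hm v = x)).card : ℤ)
        * ((K.filter fun u => ikp (tlo G T hm) (σ i) u ≠ 0).biUnion
        (rpts (tlo G T hm) (fun Q => one1 (oth (tlo G T hm) (σ i) Q)) (σ i))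
        \ (J.image σ).biUnion (CP G Z T fun x => Z.filter fun v => hm v = x)).card) :
    2 * ((r : ℤ) - 1) * J.card * sI hm r Z (σ i) - (J.card : ℤ) * (J.card - 1) * ((r : ℤ) - 1)
      - ((∑ j ∈ J, tI G Z T hm r Z (σ j)) ^ 2 - ∑ j ∈ J, tI G Z T hm r Z (σ j) ^ 2)
      + 2 * ∑ u ∈ K, ((ikp (tlo G T hm) (σ i) u : ℤ) * ((r : ℤ) - 1 - tI G Z T hm r Z (σ i))
        - (rmr G (cz G Z T hm) (tlo G T hm) (σ i) u : ℤ))
      + 2 * ∑ j ∈ J, ∑ u ∈ (T.biUnion fun x => pkf (B x) (Ps x)).filter (fun u => ρ (host u) = i),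
        ((ikp (tlo G T hm) (σ j) u : ℤ) * ((r : ℤ) - 1 - tI G Z T hm r Z (σ j))
          - (ims G (cz G Z T hm) (tlo G T hm) (σ j) u : ℤ))
      + 2 * ∑ j ∈ J, P j + sv
      ≤ 2 * eI G hm Z (σ i)
        + 2 * (∑ u ∈ K, (2 * (ikp (tlo G T hm) (σ i) u : ℤ)
            - if ρ (host u) ∈ J then (ipc u : ℤ) * (ikp (tlo G T hm) (σ i) u : ℤ) else 0)
            + ((J.card : ℤ) * ((r : ℤ) - 1) - ∑ j ∈ J, tI G Z T hm r Z (σ j)))
          * (sI hm r Z (σ i) + 1)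
        + (∑ u ∈ K, (2 * (ikp (tlo G T hm) (σ i) u : ℤ)
            - if ρ (host u) ∈ J then (ipc u : ℤ) * (ikp (tlo G T hm) (σ i) u : ℤ) else 0))
          * (∑ u ∈ K, (2 * (ikp (tlo G T hm) (σ i) u : ℤ)
            - if ρ (host u) ∈ J then (ipc u : ℤ) * (ikp (tlo G T hm) (σ i) u : ℤ) else 0) - 1)
        + 2 * ∑ u ∈ K, (if ρ (host u) ∈ J
            then (iar G (cz G Z T hm (host u)) u : ℤ) - (ikp (tlo G T hm) (σ i) u : ℤ)
              * (∑ j ∈ J, tI G Z T hm r Z (σ j) - tI G Z T hm r Z (host u))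
            else 2 * (ikp (tlo G T hm) (σ i) u : ℤ)
              * ((r : ℤ) - 1 - ∑ j ∈ J, tI G Z T hm r Z (σ j)))
        + 2 * ∑ j ∈ J, (∑ u ∈ K, (if ρ (host u) = j then
            (ipc u : ℤ) * (ikp (tlo G T hm) (σ i) u : ℤ) else 0))
          * pcn (tlo G T hm) B (σ i) (σ j) := by
  have hcard := h.toWHom.cardT
  have hmem : ∀ i < n, σ i ∈ T := fun i hi => rk.mem i (by rw [hcard]; exact hi)
  have hfil : ∀ i < n, (T.biUnion fun x => pkf (B x) (Ps x)).filter (fun u => ρ (host u) = i)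
      = pkf (B (σ i)) (Ps (σ i)) := fun i hi => fil_host hst rk (by rw [hcard]; exact hi)
  have hsinj : ∀ i ∈ J, ∀ j ∈ J, σ i = σ j → i = j := fun i hi j hj h1 =>
    rk.sinj (by rw [hcard]; exact hJ i hi) (by rw [hcard]; exact hJ j hj) h1
  have hmK : ∀ u ∈ K, ∃ x ∈ T, u ∈ pkf (B x) (Ps x) ∧ host u = x := by
    intro u hu
    obtain ⟨x, hx, hux⟩ := mem_biUnion.1 (hK hu)
    exact ⟨x, hx, hux, hst x hx u hux⟩
  have hK' : K ⊆ (T.erase (σ i)).biUnion fun x => pkf (B x) (Ps x) := by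
    intro u hu
    obtain ⟨x, hx, hux⟩ := mem_biUnion.1 (hK hu)
    refine mem_biUnion.2 ⟨x, mem_erase.2 ⟨fun h1 => hKh u hu ?_, hx⟩, hux⟩
    show ρ (host u) = i
    rw [hst x hx u hux, h1]
    exact rk.right i (by rw [hcard]; exact hi)
  -- the rows of `J`
  obtain ⟨J', hJ'⟩ : ∃ J', J' = J.image σ := ⟨_, rfl⟩
  rw [← hJ'] at hsv
  have hJc : J'.card = J.card := by
    rw [hJ']
    exact card_image_of_injOn fun i hi j hj h1 => hsinj i hi j hj h1
  have hJs : ∀ f : V → ℤ, ∑ j ∈ J', f j = ∑ j ∈ J, f (σ j) := by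
    intro f
    rw [hJ', sum_image fun i hi j hj h1 => hsinj i hi j hj h1]
  have hJT : J' ⊆ T := by
    intro x hx
    rw [hJ'] at hx
    obtain ⟨j, hj, rfl⟩ := mem_image.1 hx
    exact hmem j (hJ j hj)
  have hzJ : σ i ∉ J' := by
    intro hx
    rw [hJ'] at hx
    obtain ⟨j, hj, h1⟩ := mem_image.1 hx
    refine hiJ ?_
    have h2 : j = i := rk.sinj (by rw [hcard]; exact hJ j hj) (by rw [hcard]; exact hi) h1
    exact h2 ▸ hj
  have hmJ : ∀ x ∈ T, (x ∈ J' ↔ ρ x ∈ J) := by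
    intro x hx
    rw [hJ', mem_image]
    constructor
    · rintro ⟨j, hj, rfl⟩
      rw [rk.right j (by rw [hcard]; exact hJ j hj)]
      exact hj
    · intro h1
      exact ⟨ρ x, h1, rk.left x hx⟩
  have heJ : ∀ x ∈ T, ∀ j < n, (x = σ j ↔ ρ x = j) := by
    intro x hx j hj
    constructor
    · rintro rfl
      exact rk.right j (by rw [hcard]; exact hj)
    · rintro rfl
      exact (rk.left x hx).symm
  -- the values
  have ht : ∀ x ∈ T, 0 ≤ tI G Z T hm r Z x := fun x hx => h.hsys.tI_nonneg h.F h.ok hx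
  have hts : ∑ j ∈ J', tI G Z T hm r Z j ≤ (r : ℤ) - 1 := by
    have h1 := h.hsys.sum_tI h.F.toPFrame h.ok (by rw [h.cardT]; exact h.cardZ)
    rw [h.cardT] at h1
    have h2 := h.bb.2
    have h3 : ((BB G Z T).card : ℤ) ≤ r := by exact_mod_cast h2
    have h4 : ∑ j ∈ J', tI G Z T hm r Z j ≤ ∑ j ∈ T, tI G Z T hm r Z j :=
      sum_le_sum_of_subset_of_nonneg hJT fun x hx _ => ht x hx
    have h5 : (0 : ℤ) ≤ n := Nat.cast_nonneg _
    linarith
  have h1 := h.toWHom.rowMSI hpk hst hJT hK' h0 (fun j hj => ht j (hJT hj)) hts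
    (h.rowM_pay hpk J'.card (hmem i hi) hJT hzJ
      (K := K.filter fun u => ikp (tlo G T hm) (σ i) u ≠ 0)
      ((filter_subset _ _).trans hK') (fun u hu => (mem_filter.1 hu).2)
      (X := fun Q => one1 (oth (tlo G T hm) (σ i) Q)) (fun Q => one1_sub _)
      (P := fun x => P (ρ x)) (fun x hx => by
        rw [hJ'] at hx
        obtain ⟨j, hj, rfl⟩ := mem_image.1 hx
        show PayC G Z T hm B Ps _ _ (σ i) (σ j) (P (ρ (σ j)))
        rw [rk.right j (by rw [hcard]; exact hJ j hj)]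
        exact hP j hj)) hsv
  rw [hJs, hJs, hJs, hJs, hJs, hJc] at h1
  have e4 : ∑ j ∈ J, P (ρ (σ j)) = ∑ j ∈ J, P j := by
    refine sum_congr rfl fun j hj => ?_
    rw [rk.right j (by rw [hcard]; exact hJ j hj)]
  rw [e4] at h1
  have e5 : ∀ f g : Itm V → ℤ, ∑ u ∈ K, (if host u ∈ J' then f u else g u)
      = ∑ u ∈ K, (if ρ (host u) ∈ J then f u else g u) := by
    intro f g
    refine sum_congr rfl fun u hu => ?_
    obtain ⟨x, hx, -, hxx⟩ := hmK u hu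
    rw [hxx]
    by_cases h2 : x ∈ J'
    · rw [if_pos h2, if_pos ((hmJ x hx).1 h2)]
    · rw [if_neg h2, if_neg fun h3 => h2 ((hmJ x hx).2 h3)]
  have e6 : ∑ u ∈ K, (2 * (ikp (tlo G T hm) (σ i) u : ℤ)
        - if host u ∈ J' then (ipc u : ℤ) * (ikp (tlo G T hm) (σ i) u : ℤ) else 0)
      = ∑ u ∈ K, (2 * (ikp (tlo G T hm) (σ i) u : ℤ)
        - if ρ (host u) ∈ J then (ipc u : ℤ) * (ikp (tlo G T hm) (σ i) u : ℤ) else 0) := by
    rw [sum_sub_distrib, sum_sub_distrib, e5]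
  have e7 : ∑ j ∈ J, (∑ u ∈ K, (if host u = σ j then
            (ipc u : ℤ) * (ikp (tlo G T hm) (σ i) u : ℤ) else 0))
          * (∑ u ∈ pkf (B (σ i)) (Ps (σ i)), (ipc u : ℤ) * ikp (tlo G T hm) (σ j) u)
      = ∑ j ∈ J, (∑ u ∈ K, (if ρ (host u) = j then
            (ipc u : ℤ) * (ikp (tlo G T hm) (σ i) u : ℤ) else 0))
          * pcn (tlo G T hm) B (σ i) (σ j) := by
    refine sum_congr rfl fun j hj => ?_
    rw [sum_ipc (tlo G T hm) (σ j) (B (σ i)) (Ps (σ i))]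
    have e8 : ∑ u ∈ K, (if host u = σ j then
            (ipc u : ℤ) * (ikp (tlo G T hm) (σ i) u : ℤ) else 0)
        = ∑ u ∈ K, (if ρ (host u) = j then
            (ipc u : ℤ) * (ikp (tlo G T hm) (σ i) u : ℤ) else 0) := by
      refine sum_congr rfl fun u hu => ?_
      obtain ⟨x, hx, -, hxx⟩ := hmK u hu
      rw [hxx]
      by_cases h2 : x = σ j
      · rw [if_pos h2, if_pos ((heJ x hx j (hJ j hj)).1 h2)]
      · rw [if_neg h2, if_neg fun h3 => h2 ((heJ x hx j (hJ j hj)).2 h3)]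
    rw [e8]
    rfl
  rw [e6, e5, e7] at h1
  rw [hfil i hi]
  exact h1

/-- **the numbers `PayI` are payments** -/
theorem WCoreK.payI (hp : 2 * r ≤ p) (h : WCoreK G Z T r m n p hm)
    {host : Itm V → V} {ρ : V → ℕ} {σ : ℕ → V}
    (hpk : ∀ x ∈ T, Pk G (cz G Z T hm x) (hz G Z T hm x) (tlo G T hm) (B x) (Ps x))
    (min : ∀ x ∈ T, ∀ B' Ps', Pk G (cz G Z T hm x) (hz G Z T hm x) (tlo G T hm) B' Ps' →
      (Ps x).card ≤ Ps'.card)
    (hst : ∀ x ∈ T, ∀ u ∈ pkf (B x) (Ps x), host u = x)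
    (rk : Rank T (tI G Z T hm r Z) ρ σ) {i j : ℕ} (hi : i < n) (hj : j < n) (hij : i ≠ j)
    {K : Finset (Itm V)}
    (hK : K ⊆ T.biUnion fun x => pkf (B x) (Ps x)) (hKh : ∀ u ∈ K, ρ (host u) ≠ i) {P : ℤ}
    (hP : PayI (T.biUnion fun x => pkf (B x) (Ps x)) (fun u => ρ (host u)) (fun u => (ivl u : ℤ))
      (fun i u => (ikp (tlo G T hm) (σ i) u : ℤ))
      (fun i u => (ims G (cz G Z T hm) (tlo G T hm) (σ i) u : ℤ))
      (fun i j => nxk G (cz G Z T hm (σ i)) (hz G Z T hm (σ i)) (tlo G T hm) (B (σ i)) (σ j))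
      (fun i j => pcn (tlo G T hm) B (σ i) (σ j)) (fun u => (ipc u : ℤ))
      (fun i j => pfw G (cz G Z T hm (σ i)) (tlo G T hm) (B (σ i)) (σ j))
      (fun j u => (nui G (cz G Z T hm (host u)) (tlo G T hm) (B (host u)) (σ j) u : ℤ))
      i j K P) :
    PayC G Z T hm B Ps (K.filter fun u => ikp (tlo G T hm) (σ i) u ≠ 0)
      (fun Q => one1 (oth (tlo G T hm) (σ i) Q)) (σ i) (σ j) P := by
  have hcard := h.toWHom.cardT
  have hmem : ∀ i < n, σ i ∈ T := fun i hi => rk.mem i (by rw [hcard]; exact hi)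
  have hne : σ i ≠ σ j := fun h1 =>
    hij (rk.sinj (by rw [hcard]; exact hi) (by rw [hcard]; exact hj) h1)
  have hfil : ∀ i < n, (T.biUnion fun x => pkf (B x) (Ps x)).filter (fun u => ρ (host u) = i)
      = pkf (B (σ i)) (Ps (σ i)) := fun i hi => fil_host hst rk (by rw [hcard]; exact hi)
  have hmemU : ∀ u ∈ T.biUnion fun x => pkf (B x) (Ps x), ∀ j < n,
      (ρ (host u) = j ↔ u ∈ pkf (B (σ j)) (Ps (σ j))) := by
    intro u hu j hj
    rw [← hfil j hj, mem_filter]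
    exact ⟨fun h1 => ⟨hu, h1⟩, fun h1 => h1.2⟩
  have hK' : K ⊆ (T.erase (σ i)).biUnion fun x => pkf (B x) (Ps x) := by
    intro u hu
    obtain ⟨x, hx, hux⟩ := mem_biUnion.1 (hK hu)
    refine mem_biUnion.2 ⟨x, mem_erase.2 ⟨fun h1 => hKh u hu ?_, hx⟩, hux⟩
    show ρ (host u) = i
    rw [hst x hx u hux, h1]
    exact rk.right i (by rw [hcard]; exact hi)
  have e2 : ∑ u ∈ K, (if ρ (host u) = j then (ipc u : ℤ) * (ikp (tlo G T hm) (σ i) u : ℤ) else 0)
      = ∑ u ∈ K, (if u ∈ pkf (B (σ j)) (Ps (σ j)) then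
        (ipc u : ℤ) * (ikp (tlo G T hm) (σ i) u : ℤ) else 0) := by
    refine sum_congr rfl fun u hu => ?_
    by_cases h2 : ρ (host u) = j
    · rw [if_pos h2, if_pos ((hmemU u (hK hu) j hj).1 h2)]
    · rw [if_neg h2, if_neg fun h3 => h2 ((hmemU u (hK hu) j hj).2 h3)]
  unfold PayI at hP
  beta_reduce at hP
  rcases hP with hP | ⟨w, hw, hP⟩ | ⟨w, hw, hwj, hw1, hwk, hP⟩ | ⟨w, hw, hwi, hw1, hwk, hP⟩
  · exact (h.payC_cell hp hpk (hmem i hi) (hmem j hj) hne ((filter_subset _ _).trans hK')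
      (fun u hu => (mem_filter.1 hu).2) (fun Q => one1_sub _)).mono hP
  · obtain ⟨x', hx', hwx⟩ := mem_biUnion.1 hw
    rw [e2] at hP
    exact (h.payC_item hpk (hmem i hi) (hmem j hj) hne hK' hx' hwx).mono hP
  · have hwx : w ∈ pkf (B (σ j)) (Ps (σ j)) := (hmemU w hw j hj).1 hwj
    have hw1' : ivl w = 1 := by exact_mod_cast hw1
    have hwk' : ikp (tlo G T hm) (σ i) w ≠ 0 := fun h1 => hwk (by rw [h1]; rfl)
    rw [hst _ (hmem j hj) w hwx] at hP
    exact (h.payC_out hp hpk min (hmem i hi) (hmem j hj) hne hK' hwx hw1' hwk').mono hP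
  · have hwx : w ∈ pkf (B (σ i)) (Ps (σ i)) := (hmemU w hw i hi).1 hwi
    have hw1' : ivl w = 1 := by exact_mod_cast hw1
    have hwk' : ikp (tlo G T hm) (σ j) w ≠ 0 := fun h1 => hwk (by rw [h1]; rfl)
    rw [hst _ (hmem i hi) w hwx, e2] at hP
    exact (h.payC_in hp hpk min (hmem i hi) (hmem j hj) hne hK' hwx hw1' hwk').mono hP

/-- **the numbers `SavI` are savings** -/
theorem WCoreK.savI (h : WCoreK G Z T r m n p hm)
    {host : Itm V → V} {ρ : V → ℕ} {σ : ℕ → V}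
    (hpk : ∀ x ∈ T, Pk G (cz G Z T hm x) (hz G Z T hm x) (tlo G T hm) (B x) (Ps x))
    (min : ∀ x ∈ T, ∀ B' Ps', Pk G (cz G Z T hm x) (hz G Z T hm x) (tlo G T hm) B' Ps' →
      (Ps x).card ≤ Ps'.card)
    (hst : ∀ x ∈ T, ∀ u ∈ pkf (B x) (Ps x), host u = x)
    (rk : Rank T (tI G Z T hm r Z) ρ σ) {i : ℕ} (hi : i < n) {J : Finset ℕ} (hJ : ∀ j ∈ J, j < n)
    {K : Finset (Itm V)}
    (hK : K ⊆ T.biUnion fun x => pkf (B x) (Ps x)) (hKh : ∀ u ∈ K, ρ (host u) ≠ i) {sv : ℤ}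
    (hS : SavI n (fun u => ρ (host u)) (fun u => (ivl u : ℤ))
      (fun i u => (ikp (tlo G T hm) (σ i) u : ℤ)) (fun u => (ipc u : ℤ)) i J K sv) :
    (NE G ((K.filter fun u => ikp (tlo G T hm) (σ i) u ≠ 0).biUnion
        (rpts (tlo G T hm) (fun Q => one1 (oth (tlo G T hm) (σ i) Q)) (σ i))
        \ (J.image σ).biUnion (CP G Z T fun x => Z.filter fun v => hm v = x)) : ℤ) + sv
      + ((K.filter fun u => ikp (tlo G T hm) (σ i) u ≠ 0).biUnion
        (rpts (tlo G T hm) (fun Q => one1 (oth (tlo G T hm) (σ i) Q)) (σ i))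
        \ (J.image σ).biUnion (CP G Z T fun x => Z.filter fun v => hm v = x)).card
      ≤ (((K.filter fun u => ikp (tlo G T hm) (σ i) u ≠ 0).biUnion
        (rpts (tlo G T hm) (fun Q => one1 (oth (tlo G T hm) (σ i) Q)) (σ i))
        \ (J.image σ).biUnion (CP G Z T fun x => Z.filter fun v => hm v = x)).card : ℤ)
        * ((K.filter fun u => ikp (tlo G T hm) (σ i) u ≠ 0).biUnion
        (rpts (tlo G T hm) (fun Q => one1 (oth (tlo G T hm) (σ i) Q)) (σ i))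
        \ (J.image σ).biUnion (CP G Z T fun x => Z.filter fun v => hm v = x)).card := by
  have hcard := h.toWHom.cardT
  have hfam : ∀ x ∈ T, Fam (co G) (cz G Z T hm) (hz G Z T hm) (tlo G T hm) x
      (pkf (B x) (Ps x)) := fun x hx => (hpk x hx).fam (h.csys.dCH hx hx).symm
  have hmem : ∀ i < n, σ i ∈ T := fun i hi => rk.mem i (by rw [hcard]; exact hi)
  have hmK : ∀ u ∈ K, ∃ x ∈ T, u ∈ pkf (B x) (Ps x) ∧ host u = x := by
    intro u hu
    obtain ⟨x, hx, hux⟩ := mem_biUnion.1 (hK hu)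
    exact ⟨x, hx, hux, hst x hx u hux⟩
  have hK' : K ⊆ (T.erase (σ i)).biUnion fun x => pkf (B x) (Ps x) := by
    intro u hu
    obtain ⟨x, hx, hux⟩ := mem_biUnion.1 (hK hu)
    refine mem_biUnion.2 ⟨x, mem_erase.2 ⟨fun h1 => hKh u hu ?_, hx⟩, hux⟩
    show ρ (host u) = i
    rw [hst x hx u hux, h1]
    exact rk.right i (by rw [hcard]; exact hi)
  have hJT : J.image σ ⊆ T := by
    intro x hx
    obtain ⟨j, hj, rfl⟩ := mem_image.1 hx
    exact hmem j (hJ j hj)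
  have hmJ : ∀ x ∈ T, (x ∈ J.image σ ↔ ρ x ∈ J) := by
    intro x hx
    rw [mem_image]
    constructor
    · rintro ⟨j, hj, rfl⟩
      rw [rk.right j (by rw [hcard]; exact hJ j hj)]
      exact hj
    · intro h1
      exact ⟨ρ x, h1, rk.left x hx⟩
  unfold SavI at hS
  beta_reduce at hS
  obtain ⟨cl, M, q, I, hI, hI2, hsv⟩ := hS
  have hT : ∀ u ∈ K, ∀ y, ikp (tlo G T hm) y u ≠ 0 → ρ y < n ∧ σ (ρ y) = y := by
    intro u hu y hy
    obtain ⟨x, hx, hux, -⟩ := hmK u hu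
    obtain ⟨v, hv, hvy⟩ := ikp_ne_tail (fun Q hQ => (hfam x hx).two Q (hQ ▸ hux)) hy
    have hvH : v ∈ hz G Z T hm x := by
      rcases u with Q | e
      · exact (hfam x hx).sub Q hux hv
      · simp only [imem, mem_singleton] at hv
        exact hv ▸ (hfam x hx).pcH e hux
    have h5 := mem_of_mem_erase (h.toWHom.ht x hx v hvH)
    rw [hvy] at h5
    exact ⟨by rw [← hcard]; exact rk.lt y h5, rk.left y h5⟩
  have h1 := h.sav hpk min hst hJT hK' (cl := cl) (M := M) q (fun c => (I c).image σ)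
    (fun u hu hk hq => by
      obtain ⟨h2, h3⟩ := hI2 u hu (by exact_mod_cast hk) hq
      obtain ⟨x, hx, hux, hxx⟩ := hmK u hu
      refine ⟨mem_image.2 ⟨ρ (host u), h2, by rw [hxx]; exact rk.left x hx⟩, fun y hy => ?_⟩
      obtain ⟨b1, b2⟩ := hT u hu y hy
      refine mem_image.2 ⟨ρ y, h3 (ρ y) b1 ?_, b2⟩
      show (ikp (tlo G T hm) (σ (ρ y)) u : ℤ) ≠ 0
      rw [b2]
      exact_mod_cast hy)
  have e1 : ∀ c, ((I c).image σ).card = (I c).card := fun c => rk.card_image (by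
    rw [hcard]
    exact hI c)
  have e2 : ∀ c, ∑ u ∈ K.filter (fun u => ikp (tlo G T hm) (σ i) u ≠ 0 ∧ cl u = c),
        ((ikp (tlo G T hm) (σ i) u : ℤ) + 1 - if host u ∈ J.image σ then (ipc u : ℤ) else 0)
      = ∑ u ∈ K.filter (fun u => (ikp (tlo G T hm) (σ i) u : ℤ) ≠ 0 ∧ cl u = c),
        ((ikp (tlo G T hm) (σ i) u : ℤ) + 1 - if ρ (host u) ∈ J then (ipc u : ℤ) else 0) := by
    intro c
    have h2 : K.filter (fun u => ikp (tlo G T hm) (σ i) u ≠ 0 ∧ cl u = c)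
        = K.filter (fun u => (ikp (tlo G T hm) (σ i) u : ℤ) ≠ 0 ∧ cl u = c) :=
      filter_congr fun u _ => by rw [Ne, Ne, Int.natCast_eq_zero]
    rw [h2]
    refine sum_congr rfl fun u hu => ?_
    obtain ⟨x, hx, -, hxx⟩ := hmK u (mem_filter.1 hu).1
    rw [hxx]
    by_cases h3 : x ∈ J.image σ
    · rw [if_pos h3, if_pos ((hmJ x hx).1 h3)]
    · rw [if_neg h3, if_neg fun h4 => h3 ((hmJ x hx).2 h4)]
  have e3 : (K ×ˢ K).filter (fun e => e.1 ≠ e.2 ∧ host e.1 = host e.2 ∧ cl e.1 ≠ cl e.2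
          ∧ ikp (tlo G T hm) (σ i) e.1 = ivl e.1 ∧ ikp (tlo G T hm) (σ i) e.2 = ivl e.2
          ∧ (host e.1 ∈ J.image σ → ipc e.1 = 0 ∧ ipc e.2 = 0))
      = (K ×ˢ K).filter fun e => e.1 ≠ e.2 ∧ ρ (host e.1) = ρ (host e.2) ∧ cl e.1 ≠ cl e.2
          ∧ (ikp (tlo G T hm) (σ i) e.1 : ℤ) = (ivl e.1 : ℤ)
          ∧ (ikp (tlo G T hm) (σ i) e.2 : ℤ) = (ivl e.2 : ℤ)
          ∧ (ρ (host e.1) ∈ J → (ipc e.1 : ℤ) = 0 ∧ (ipc e.2 : ℤ) = 0) := by
    refine filter_congr fun e he => ?_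
    obtain ⟨ha, hb⟩ := mem_product.1 he
    obtain ⟨x, hx, -, hxx⟩ := hmK e.1 ha
    obtain ⟨y, hy, -, hyy⟩ := hmK e.2 hb
    rw [hxx, hyy, hmJ x hx, Int.natCast_inj, Int.natCast_inj, Int.natCast_eq_zero,
      Int.natCast_eq_zero]
    have h2 : x = y ↔ ρ x = ρ y := by
      constructor
      · exact fun h3 => by rw [h3]
      · intro h3
        rw [← rk.left x hx, h3, rk.left y hy]
    rw [h2]
  simp only [e1, e2] at h1
  rw [e3] at h1
  refine le_trans (add_le_add (add_le_add le_rfl (hsv.trans (le_of_eq ?_))) le_rfl) h1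
  refine congrArg₂ (· + ·) rfl (congrArg (fun s : Finset (Itm V × Itm V) => (s.card : ℤ)) ?_)
  exact Finset.ext fun e => by simp only [mem_filter]

end RowU

end Pool.Agent.Lib.MP_f04ccf_co
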