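import Pool.Agent.Lib.MP_f04ccf_co.M.RowMulI
import Pool.Agent.Lib.MP_f04ccf_co.M.PayN

/-!
MP_f04ccf_co, notes 17272 (helper59), 17294: T++, the row test of `z` with the columns of a set `J` of rows,
over the basic integers.

* `WHom.rowMI`: any extra term `EX`, any saving `sv` in the missing pairs of the used points;
* `WCoreK.cellPJ`: the payment of the cells `{z, j}`, `j ∈ J`, at once;
* `WCoreK.rowJ`: over the row indices, all cells paid and the same-host saving.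
-/

set_option autoImplicit false

namespace Pool.Agent.Lib.MP_f04ccf_co

open Finset

attribute [local instance] Classical.propDecidable

section RowJ

variable {V : Type*} {G : SimpleGraph V} {Z T : Finset V} {hm : V → V} {r m n p : ℕ}
  {B : V → Finset (V × V)} {Ps : V → Finset (Finset V)}

/-- **T++ over the basic integers**, any extra term, any saving -/
theorem WHom.rowMI (h : WHom G Z T r m n hm) {host : Itm V → V}
    (hpk : ∀ x ∈ T, Pk G (cz G Z T hm x) (hz G Z T hm x) (tlo G T hm) (B x) (Ps x))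
    (hst : ∀ x ∈ T, ∀ u ∈ pkf (B x) (Ps x), host u = x)
    {z : V} {J : Finset V} (hJ : J ⊆ T) {K : Finset (Itm V)}
    (hK : K ⊆ (T.erase z).biUnion fun x => pkf (B x) (Ps x))
    (h0 : 0 ≤ sI hm r Z z + ∑ u ∈ K, (ikp (tlo G T hm) z u : ℤ))
    (ht0 : ∀ j ∈ J, 0 ≤ tI G Z T hm r Z j) (hts : ∑ j ∈ J, tI G Z T hm r Z j ≤ (r : ℤ) - 1) {EX : ℤ}
    (hE : RowM G Z T hm r (fun x => Z.filter fun v => hm v = x) (fun x => pkf (B x) (Ps x)) J.card
      (K.filter fun u => ikp (tlo G T hm) z u ≠ 0) (fun Q => one1 (oth (tlo G T hm) z Q)) z J EX)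
    {sv : ℤ}
    (hsv : (NE G ((K.filter fun u => ikp (tlo G T hm) z u ≠ 0).biUnion
          (rpts (tlo G T hm) (fun Q => one1 (oth (tlo G T hm) z Q)) z)
          \ J.biUnion (CP G Z T fun x => Z.filter fun v => hm v = x)) : ℤ) + sv
      + ((K.filter fun u => ikp (tlo G T hm) z u ≠ 0).biUnion
          (rpts (tlo G T hm) (fun Q => one1 (oth (tlo G T hm) z Q)) z)
          \ J.biUnion (CP G Z T fun x => Z.filter fun v => hm v = x)).card
      ≤ (((K.filter fun u => ikp (tlo G T hm) z u ≠ 0).biUnion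
          (rpts (tlo G T hm) (fun Q => one1 (oth (tlo G T hm) z Q)) z)
          \ J.biUnion (CP G Z T fun x => Z.filter fun v => hm v = x)).card : ℤ)
        * ((K.filter fun u => ikp (tlo G T hm) z u ≠ 0).biUnion
          (rpts (tlo G T hm) (fun Q => one1 (oth (tlo G T hm) z Q)) z)
          \ J.biUnion (CP G Z T fun x => Z.filter fun v => hm v = x)).card) :
    2 * ((r : ℤ) - 1) * J.card * sI hm r Z z - (J.card : ℤ) * (J.card - 1) * ((r : ℤ) - 1)
      - ((∑ j ∈ J, tI G Z T hm r Z j) ^ 2 - ∑ j ∈ J, tI G Z T hm r Z j ^ 2)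
      + 2 * ∑ u ∈ K, ((ikp (tlo G T hm) z u : ℤ) * ((r : ℤ) - 1 - tI G Z T hm r Z z)
          - rmr G (cz G Z T hm) (tlo G T hm) z u)
      + 2 * ∑ j ∈ J, ∑ u ∈ pkf (B z) (Ps z), ((ikp (tlo G T hm) j u : ℤ)
          * ((r : ℤ) - 1 - tI G Z T hm r Z j) - ims G (cz G Z T hm) (tlo G T hm) j u)
      + EX + sv
      ≤ 2 * eI G hm Z z
        + 2 * (∑ u ∈ K, (2 * (ikp (tlo G T hm) z u : ℤ)
              - if host u ∈ J then (ipc u : ℤ) * ikp (tlo G T hm) z u else 0)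
            + ((J.card : ℤ) * ((r : ℤ) - 1) - ∑ j ∈ J, tI G Z T hm r Z j)) * (sI hm r Z z + 1)
        + (∑ u ∈ K, (2 * (ikp (tlo G T hm) z u : ℤ)
              - if host u ∈ J then (ipc u : ℤ) * ikp (tlo G T hm) z u else 0))
          * (∑ u ∈ K, (2 * (ikp (tlo G T hm) z u : ℤ)
              - if host u ∈ J then (ipc u : ℤ) * ikp (tlo G T hm) z u else 0) - 1)
        + 2 * ∑ u ∈ K, (if host u ∈ J
            then (iar G (cz G Z T hm (host u)) u : ℤ) - (ikp (tlo G T hm) z u : ℤ)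
              * (∑ j ∈ J, tI G Z T hm r Z j - tI G Z T hm r Z (host u))
            else 2 * (ikp (tlo G T hm) z u : ℤ)
              * ((r : ℤ) - 1 - ∑ j ∈ J, tI G Z T hm r Z j))
        + 2 * ∑ j ∈ J, (∑ u ∈ K, (if host u = j then (ipc u : ℤ) * ikp (tlo G T hm) z u else 0))
          * (∑ u ∈ pkf (B z) (Ps z), (ipc u : ℤ) * ikp (tlo G T hm) j u) := by
  have hfam : ∀ x ∈ T, Fam (co G) (cz G Z T hm) (hz G Z T hm) (tlo G T hm) x
      (pkf (B x) (Ps x)) := fun x hx => (hpk x hx).fam (h.csys.dCH hx hx).symm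
  set C := cz G Z T hm with hCdef
  set tl := tlo G T hm with htl
  have hcard : ∀ x, ((C x).card : ℤ) = (r : ℤ) - 1 - tI G Z T hm r Z x := fun x => card_CP_eq Z x
  have hz0 : ∀ u ∈ K, ikp tl z u = 0 → rmr G C tl z u = 0 := by
    intro u _ hu
    have h1 := rcl_card_le (G := G) (C := C) (tl := tl) (X := fun Q => one1 (oth tl z Q)) (z := z)
      (u := u)
    rw [hu, Nat.zero_mul] at h1
    exact Nat.le_zero.1 h1
  have hsf : ∀ f g : Itm V → ℤ, (∀ u ∈ K, ikp tl z u ≠ 0 → f u = g u) →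
      (∀ u ∈ K, ikp tl z u = 0 → f u = 0) →
      ∑ u ∈ K, f u = ∑ u ∈ K.filter (fun u => ikp tl z u ≠ 0), g u := by
    intro f g h1 h2
    rw [sum_filter]
    refine sum_congr rfl fun u hu => ?_
    by_cases h3 : ikp tl z u = 0
    · rw [h2 u hu h3]
      simp [h3]
    · simp only [ne_eq, h3, not_false_iff, if_true]
      exact h1 u hu h3
  have hpc : ∀ u, ikp tl z u ≠ 0 → (ipc u : ℤ) * ikp tl z u = ipc u := by
    intro u hu
    rcases u with Q | e
    · simp [ipc]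
    · have h3 : ikp tl z (Sum.inr e) = 1 := by
        by_cases h4 : tl e.1 = z
        · simp only [ikp, h4, if_true]
        · exact absurd (by simp only [ikp, h4, if_false]) hu
      rw [h3]
      simp
  have e1 := hsf (fun u => (ikp tl z u : ℤ) * ((r : ℤ) - 1 - tI G Z T hm r Z z) - rmr G C tl z u)
    (fun u => ((C z).card : ℤ) * ikp tl z u - (rcl G C tl (fun Q => one1 (oth tl z Q)) z u).card)
    (fun u _ _ => by
      rw [← hcard]
      unfold rmr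
      ring)
    (fun u hu h1 => by
      rw [hz0 u hu h1, h1]
      simp)
  have e2 := hsf (fun u => (ikp tl z u : ℤ)) (fun u => (ikp tl z u : ℤ)) (fun _ _ _ => rfl)
    (fun u _ h1 => by rw [h1]; simp)
  have e3 := hsf (fun u => 2 * (ikp tl z u : ℤ)
      - if host u ∈ J then (ipc u : ℤ) * ikp tl z u else 0)
    (fun u => 2 * (ikp tl z u : ℤ) - if host u ∈ J then (ipc u : ℤ) else 0)
    (fun u _ h1 => by rw [hpc u h1])
    (fun u _ h1 => by rw [h1]; simp)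
  have e4 : ∀ j, ∑ u ∈ K, (if host u = j then (ipc u : ℤ) * ikp tl z u else 0)
      = ∑ u ∈ K.filter (fun u => ikp tl z u ≠ 0), (if host u = j then (ipc u : ℤ) else 0) :=
    fun j => hsf (fun u => if host u = j then (ipc u : ℤ) * ikp tl z u else 0)
      (fun u => if host u = j then (ipc u : ℤ) else 0)
      (fun u _ h1 => by rw [hpc u h1])
      (fun u _ h1 => by rw [h1]; simp)
  have hq0 : ∀ j ∈ J, ((J.card : ℤ) - 1) * ((r : ℤ) - 1) = ∑ l ∈ J.erase j, ((r : ℤ) - 1) := by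
    intro j hj
    have h1 : ((J.erase j).card : ℤ) + 1 = J.card := by exact_mod_cast card_erase_add_one hj
    rw [sum_const, nsmul_eq_mul]
    have h2 : ((J.erase j).card : ℤ) = (J.card : ℤ) - 1 := by linarith
    rw [h2]
  have hsc : ∑ j ∈ J, ((C j).card : ℤ)
      = (J.card : ℤ) * ((r : ℤ) - 1) - ∑ j ∈ J, tI G Z T hm r Z j := by
    rw [sum_congr rfl fun j _ => hcard j, sum_sub_distrib, sum_const, nsmul_eq_mul]
  have e5 : ∑ u ∈ K.filter (fun u => ikp tl z u ≠ 0), (if host u ∈ J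
        then (iar G (C (host u)) u : ℤ) + (ikp tl z u : ℤ) * (∑ l ∈ J.erase (host u), ((C l).card : ℤ)
          - ((J.card : ℤ) - 1) * ((r : ℤ) - 1))
        else 2 * (ikp tl z u : ℤ) * (∑ j ∈ J, ((C j).card : ℤ) - ((J.card : ℤ) - 1) * ((r : ℤ) - 1)))
      ≤ ∑ u ∈ K, (if host u ∈ J
        then (iar G (C (host u)) u : ℤ) - (ikp tl z u : ℤ)
          * (∑ j ∈ J, tI G Z T hm r Z j - tI G Z T hm r Z (host u))
        else 2 * (ikp tl z u : ℤ) * ((r : ℤ) - 1 - ∑ j ∈ J, tI G Z T hm r Z j)) := by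
    rw [sum_filter]
    refine sum_le_sum fun u _ => ?_
    by_cases h3 : ikp tl z u = 0
    · simp only [ne_eq, h3, not_true_eq_false, if_false, Nat.cast_zero, zero_mul, sub_zero, mul_zero]
      split_ifs <;> positivity
    · simp only [ne_eq, h3, not_false_iff, if_true]
      by_cases h4 : host u ∈ J
      · rw [if_pos h4, if_pos h4, hq0 _ h4, ← sum_sub_distrib]
        have h5 : ∑ l ∈ J.erase (host u), (((C l).card : ℤ) - ((r : ℤ) - 1))
            = - (∑ j ∈ J, tI G Z T hm r Z j - tI G Z T hm r Z (host u)) := by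
          rw [← add_sum_erase J _ h4, add_sub_cancel_left, ← sum_neg_distrib]
          refine sum_congr rfl fun l _ => ?_
          rw [hcard]
          ring
        rw [h5]
        linarith
      · rw [if_neg h4, if_neg h4, hsc]
        have h5 : (J.card : ℤ) * ((r : ℤ) - 1) - ∑ j ∈ J, tI G Z T hm r Z j
            - ((J.card : ℤ) - 1) * ((r : ℤ) - 1) = (r : ℤ) - 1 - ∑ j ∈ J, tI G Z T hm r Z j := by
          ring
        rw [h5]
  have e6 : ∀ j, ∑ u ∈ pkf (B z) (Ps z), iht G C tl j u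
      = ∑ u ∈ pkf (B z) (Ps z), ((ikp tl j u : ℤ) * ((r : ℤ) - 1 - tI G Z T hm r Z j)
        - ims G C tl j u) := by
    intro j
    refine sum_congr rfl fun u _ => ?_
    unfold iht
    rw [hcard]
    ring
  have h5 := two_eI (G := G) (hm := hm) Z z
  have h6 : (((Z.filter fun v => hm v = z).card : ℤ) - r) = sI hm r Z z := rfl
  rw [e2] at h0
  have h1 := Fam.rowMC_of h.wsysT h.csys hfam hst hJ ((filter_subset _ _).trans hK)
    (fun u hu => (mem_filter.1 hu).2) (X := fun Q => one1 (oth tl z Q))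
    (fun Q => one1_sub _) (fun Q => card_one1 _) (by rw [h6]; exact h0)
    (by
      have h7 : ∑ j ∈ J, ((CP G Z T (fun x => Z.filter fun v => hm v = x) j).card : ℤ)
        = (J.card : ℤ) * ((r : ℤ) - 1) - ∑ j ∈ J, tI G Z T hm r Z j := hsc
      rw [h7]
      linarith)
    (fun j hj => by
      have h7 : ((CP G Z T (fun x => Z.filter fun v => hm v = x) j).card : ℤ)
        = (r : ℤ) - 1 - tI G Z T hm r Z j := hcard j
      rw [h7]
      linarith [ht0 j hj]) hE hsv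
  have hdg : (0 : ℤ) ≤ ∑ j ∈ J, ∑ i ∈ J.erase j, ∑ v ∈ C i, (dg G (C j) v : ℤ) :=
    sum_nonneg fun _ _ => sum_nonneg fun _ _ => sum_nonneg fun _ _ => Nat.cast_nonneg _
  have hcc : ∑ j ∈ J, ∑ i ∈ J.erase j, ((C i).card : ℤ) * (C j).card
      = (J.card : ℤ) * (J.card - 1) * ((r : ℤ) - 1) ^ 2
        - 2 * ((J.card : ℤ) - 1) * ((r : ℤ) - 1) * ∑ j ∈ J, tI G Z T hm r Z j
        + ((∑ j ∈ J, tI G Z T hm r Z j) ^ 2 - ∑ j ∈ J, tI G Z T hm r Z j ^ 2) := by
    rw [sum_offdiag J fun j i => ((C i).card : ℤ) * (C j).card]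
    have h7 : ∑ j ∈ J, ∑ i ∈ J, ((C i).card : ℤ) * (C j).card = (∑ j ∈ J, ((C j).card : ℤ)) ^ 2 := by
      rw [sq, sum_mul_sum, sum_comm]
    have h8 : ∑ j ∈ J, ((C j).card : ℤ) * (C j).card
        = (J.card : ℤ) * ((r : ℤ) - 1) ^ 2 - 2 * ((r : ℤ) - 1) * ∑ j ∈ J, tI G Z T hm r Z j
          + ∑ j ∈ J, tI G Z T hm r Z j ^ 2 := by
      have h9 : ∀ j ∈ J, ((C j).card : ℤ) * (C j).card
          = ((r : ℤ) - 1) ^ 2 - 2 * ((r : ℤ) - 1) * tI G Z T hm r Z j + tI G Z T hm r Z j ^ 2 :=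
        fun j _ => by rw [hcard]; ring
      rw [sum_congr rfl h9, sum_add_distrib, sum_sub_distrib, sum_const, nsmul_eq_mul, ← mul_sum]
    rw [h7, h8, hsc]
    ring
  have hzc : ((Z.filter fun v => hm v = z).card : ℤ) = sI hm r Z z + r := by
    rw [← h6]
    ring
  have h2 : ((r : ℤ) - 1) * (2 * J.card * (((Z.filter fun v => hm v = z).card : ℤ)
        + ∑ j ∈ J, ((C j).card : ℤ)) - r * J.card * (J.card + 1))
      + 2 * ∑ u ∈ K.filter (fun u => ikp tl z u ≠ 0), (((C z).card : ℤ) * ikp tl z u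
          - (rcl G C tl (fun Q => one1 (oth tl z Q)) z u).card)
      + 2 * ∑ j ∈ J, ∑ u ∈ pkf (B z) (Ps z), iht G C tl j u
      + ∑ j ∈ J, ∑ i ∈ J.erase j, ∑ v ∈ C i, (dg G (C j) v : ℤ)
      + EX + sv
      ≤ NE G (Z.filter fun v => hm v = z)
        + 2 * (∑ j ∈ J, ((C j).card : ℤ)) * (Z.filter fun v => hm v = z).card
        + ∑ j ∈ J, ∑ i ∈ J.erase j, ((C i).card : ℤ) * (C j).card
        + 2 * (∑ u ∈ K.filter (fun u => ikp tl z u ≠ 0),
            (2 * (ikp tl z u : ℤ) - if host u ∈ J then (ipc u : ℤ) else 0))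
          * (((Z.filter fun v => hm v = z).card : ℤ) - r + 1)
        + (∑ u ∈ K.filter (fun u => ikp tl z u ≠ 0),
            (2 * (ikp tl z u : ℤ) - if host u ∈ J then (ipc u : ℤ) else 0))
          * (∑ u ∈ K.filter (fun u => ikp tl z u ≠ 0),
            (2 * (ikp tl z u : ℤ) - if host u ∈ J then (ipc u : ℤ) else 0) - 1)
        + 2 * ∑ u ∈ K.filter (fun u => ikp tl z u ≠ 0), (if host u ∈ J
            then (iar G (C (host u)) u : ℤ) + (ikp tl z u : ℤ) * (∑ l ∈ J.erase (host u),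
              ((C l).card : ℤ) - ((J.card : ℤ) - 1) * ((r : ℤ) - 1))
            else 2 * (ikp tl z u : ℤ) * (∑ j ∈ J, ((C j).card : ℤ)
                - ((J.card : ℤ) - 1) * ((r : ℤ) - 1)))
        + 2 * ∑ j ∈ J, (∑ u ∈ K.filter (fun u => ikp tl z u ≠ 0),
            (if host u = j then (ipc u : ℤ) else 0))
          * (∑ u ∈ pkf (B z) (Ps z), (ipc u : ℤ) * ikp tl j u) := h1
  replace h2 := h2.trans (add_le_add (add_le_add le_rfl
    (mul_le_mul_of_nonneg_left e5 (by norm_num : (0 : ℤ) ≤ 2))) le_rfl)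
  rw [h6, ← h5, hcc, hsc, hzc] at h2
  simp only [e6] at h2
  rw [e1, e3]
  simp only [e4]
  generalize ∑ u ∈ K.filter (fun u => ikp tl z u ≠ 0),
    (2 * (ikp tl z u : ℤ) - if host u ∈ J then (ipc u : ℤ) else 0) = w at *
  generalize ∑ j ∈ J, tI G Z T hm r Z j = τ at *
  generalize ∑ j ∈ J, tI G Z T hm r Z j ^ 2 = τ2 at *
  clear h1 e5
  linarith

/-- **the payment of the cells `{z, j}`, `j ∈ J`, at once** -/
theorem WCoreK.cellPJ (hp : 2 * r ≤ p) (h : WCoreK G Z T r m n p hm)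
    (hB : ∀ x ∈ T, Pk G (cz G Z T hm x) (hz G Z T hm x) (tlo G T hm) (B x) (Ps x))
    {z : V} (hz' : z ∈ T) {J : Finset V} (hJ : J ⊆ T) (hzJ : z ∉ J) {K : Finset (Itm V)}
    (hK : K ⊆ (T.erase z).biUnion fun x => pkf (B x) (Ps x))
    (hk : ∀ u ∈ K, ikp (tlo G T hm) z u ≠ 0)
    {X : Finset V → Finset V} (hX : ∀ Q, X Q ⊆ oth (tlo G T hm) z Q) :
    2 * ∑ j ∈ J, (nxk G (cz G Z T hm z) (hz G Z T hm z) (tlo G T hm) (B z) j
        + pfw G (cz G Z T hm z) (tlo G T hm) (B z) j)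
      ≤ 2 * ∑ j ∈ J, ∑ c ∈ cz G Z T hm j \ K.biUnion (rpts (tlo G T hm) X z),
          (dg G (cz G Z T hm z \ (pcz (tlo G T hm) j (pkf (B z) (Ps z))).image Prod.snd) c : ℤ)
        + 2 * ∑ v ∈ K.biUnion (rpts (tlo G T hm) X z) \ J.biUnion (cz G Z T hm),
          (dg G (hz G Z T hm z) v : ℤ) := by
  have hfam : ∀ x ∈ T, Fam (co G) (cz G Z T hm) (hz G Z T hm) (tlo G T hm) x
      (pkf (B x) (Ps x)) := fun x hx => (hB x hx).fam (h.csys.dCH hx hx).symm
  have hW := h.wsysT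
  obtain ⟨W, hWd⟩ : ∃ W, W = K.biUnion (rpts (tlo G T hm) X z) := ⟨_, rfl⟩
  obtain ⟨Wj, hWj⟩ : ∃ Wj : V → Finset V, Wj = fun j =>
    (K.filter fun u => u ∈ pkf (B j) (Ps j)).biUnion (rpts (tlo G T hm) X z) := ⟨_, rfl⟩
  rw [← hWd]
  have hin : ∀ j ∈ J, ∀ v ∈ Wj j, v ∈ W ∧ v ∈ hz G Z T hm j ∪ cz G Z T hm j := by
    intro j hj v hv
    rw [hWj] at hv
    obtain ⟨u, hu, hv2⟩ := mem_biUnion.1 hv
    obtain ⟨hu1, hu2⟩ := mem_filter.1 hu
    refine ⟨hWd ▸ mem_biUnion.2 ⟨u, hu1, hv2⟩, ?_⟩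
    exact (hfam j (hJ hj)).ipts_sub hu2 ((hfam j (hJ hj)).rpts_sub hX hv2)
  have h1 : ∀ j ∈ J, 2 * (nxk G (cz G Z T hm z) (hz G Z T hm z) (tlo G T hm) (B z) j
        + pfw G (cz G Z T hm z) (tlo G T hm) (B z) j)
      ≤ 2 * ∑ c ∈ cz G Z T hm j \ W,
          (dg G (cz G Z T hm z \ (pcz (tlo G T hm) j (pkf (B z) (Ps z))).image Prod.snd) c : ℤ)
        + 2 * ∑ v ∈ Wj j \ cz G Z T hm j, (dg G (hz G Z T hm z) v : ℤ) := by
    intro j hj
    have h2 := h.cellP hp hB hz' (hJ hj) (fun h0 => hzJ (h0 ▸ hj))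
      (K := K.filter fun u => u ∈ pkf (B j) (Ps j)) ((filter_subset _ _).trans hK)
      (fun u hu => hk u (mem_filter.1 hu).1) hX
    have h3 : (K.filter fun u => u ∈ pkf (B j) (Ps j)).biUnion (rpts (tlo G T hm) X z) = Wj j := by
      rw [hWj]
    rw [h3] at h2
    have h4 : cz G Z T hm j \ Wj j ⊆ cz G Z T hm j \ W := by
      intro c hc
      obtain ⟨hc1, hc2⟩ := mem_sdiff.1 hc
      refine mem_sdiff.2 ⟨hc1, fun hc3 => hc2 ?_⟩
      rw [hWd] at hc3
      obtain ⟨u, hu, hcu⟩ := mem_biUnion.1 hc3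
      obtain ⟨x, hx, hux⟩ := mem_biUnion.1 (hK hu)
      have hxT := mem_of_mem_erase hx
      have hf := hfam x hxT
      rw [hWj]
      refine mem_biUnion.2 ⟨u, mem_filter.2 ⟨hu, ?_⟩, hcu⟩
      rcases u with Q | e
      · exact absurd hc1 (disjoint_left.1 (hW.dHC x hxT j (hJ hj)) (hf.sub Q hux
          (hf.rpts_sub hX hcu)))
      · simp only [rpts] at hcu
        rcases mem_insert.1 hcu with h8 | h8
        · exact absurd hc1 (disjoint_left.1 (hW.dHC x hxT j (hJ hj)) (h8 ▸ hf.pcH e hux))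
        · rw [mem_singleton] at h8
          have hxj : x = j := by
            by_contra hne
            exact disjoint_left.1 (hW.dCC x hxT j (hJ hj) hne) (hf.pcC e hux) (h8 ▸ hc1)
          exact hxj ▸ hux
    have h5 : ∑ c ∈ cz G Z T hm j \ Wj j,
          (dg G (cz G Z T hm z \ (pcz (tlo G T hm) j (pkf (B z) (Ps z))).image Prod.snd) c : ℤ)
        ≤ ∑ c ∈ cz G Z T hm j \ W,
          (dg G (cz G Z T hm z \ (pcz (tlo G T hm) j (pkf (B z) (Ps z))).image Prod.snd) c : ℤ) :=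
      sum_le_sum_of_subset_of_nonneg h4 fun _ _ _ => Nat.cast_nonneg _
    linarith
  have h2 := sum_le_sum h1
  have h2' : ∑ j ∈ J, (2 * ∑ c ∈ cz G Z T hm j \ W,
          (dg G (cz G Z T hm z \ (pcz (tlo G T hm) j (pkf (B z) (Ps z))).image Prod.snd) c : ℤ)
        + 2 * ∑ v ∈ Wj j \ cz G Z T hm j, (dg G (hz G Z T hm z) v : ℤ))
      = 2 * ∑ j ∈ J, ∑ c ∈ cz G Z T hm j \ W,
          (dg G (cz G Z T hm z \ (pcz (tlo G T hm) j (pkf (B z) (Ps z))).image Prod.snd) c : ℤ)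
        + 2 * ∑ j ∈ J, ∑ v ∈ Wj j \ cz G Z T hm j, (dg G (hz G Z T hm z) v : ℤ) := by
    rw [sum_add_distrib, ← mul_sum, ← mul_sum]
  rw [← mul_sum, h2'] at h2
  have h3 : ∑ j ∈ J, ∑ v ∈ Wj j \ cz G Z T hm j, (dg G (hz G Z T hm z) v : ℤ)
      ≤ ∑ v ∈ W \ J.biUnion (cz G Z T hm), (dg G (hz G Z T hm z) v : ℤ) := by
    have hH : ∀ j ∈ J, ∀ v ∈ Wj j \ cz G Z T hm j, v ∈ hz G Z T hm j := by
      intro j hj v hv
      obtain ⟨hv1, hv2⟩ := mem_sdiff.1 hv
      rcases mem_union.1 (hin j hj v hv1).2 with h4 | h4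
      · exact h4
      · exact absurd h4 hv2
    rw [← sum_biUnion]
    · refine sum_le_sum_of_subset_of_nonneg (fun v hv => ?_) fun _ _ _ => Nat.cast_nonneg _
      obtain ⟨j, hj, hv2⟩ := mem_biUnion.1 hv
      refine mem_sdiff.2 ⟨(hin j hj v (mem_sdiff.1 hv2).1).1, fun h4 => ?_⟩
      obtain ⟨l, hl, hvl⟩ := mem_biUnion.1 h4
      exact disjoint_left.1 (hW.dHC j (hJ hj) l (hJ hl)) (hH j hj v hv2) hvl
    · intro i hi j hj hij
      show Disjoint _ _
      rw [disjoint_left]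
      intro v hv hv'
      exact disjoint_left.1 (h.csys.dHP (hJ hi) (hJ hj) hij) (hH i hi v hv) (hH j hj v hv')
  linarith

/-- **T++ as `RowM`**, all cells `{z, j}`, `j ∈ J`, paid, version [B] -/
theorem WCoreK.rowM_cell (hp : 2 * r ≤ p) (h : WCoreK G Z T r m n p hm)
    (hB : ∀ x ∈ T, Pk G (cz G Z T hm x) (hz G Z T hm x) (tlo G T hm) (B x) (Ps x)) (q : ℤ)
    {z : V} (hz' : z ∈ T) {J : Finset V} (hJ : J ⊆ T) (hzJ : z ∉ J) {K : Finset (Itm V)}
    (hK : K ⊆ (T.erase z).biUnion fun x => pkf (B x) (Ps x))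
    (hk : ∀ u ∈ K, ikp (tlo G T hm) z u ≠ 0)
    {X : Finset V → Finset V} (hX : ∀ Q, X Q ⊆ oth (tlo G T hm) z Q) :
    RowM G Z T hm r (fun x => Z.filter fun v => hm v = x) (fun x => pkf (B x) (Ps x)) q K X z J
      (2 * ∑ j ∈ J, (nxk G (cz G Z T hm z) (hz G Z T hm z) (tlo G T hm) (B z) j
        + pfw G (cz G Z T hm z) (tlo G T hm) (B z) j)) := by
  have hfam : ∀ x ∈ T, Fam (co G) (cz G Z T hm) (hz G Z T hm) (tlo G T hm) x
      (pkf (B x) (Ps x)) := fun x hx => (hB x hx).fam (h.csys.dCH hx hx).symm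
  refine (Fam.rowM_of h.F.toPFrame h.gp.P h.csys h.wsysT hfam q hz' hJ hzJ hK hk hX
    (F := fun j => cz G Z T hm z \ (pcz (tlo G T hm) j (pkf (B z) (Ps z))).image Prod.snd)
    (fun _ _ => sdiff_subset)
    (fun j _ e he h0 => (mem_sdiff.1 h0).2 (mem_image_of_mem _ he))).mono ?_
  exact h.cellPJ hp hB hz' hJ hzJ hK hk hX

/-- **T++ over the row indices**: columns of a set `J` of rows, all cells `{i, j}`, `j ∈ J`, paid, the same-host
saving; `J` may be empty -/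
theorem WCoreK.rowJ (hp : 2 * r ≤ p) (h : WCoreK G Z T r m n p hm)
    {host : Itm V → V} {ρ : V → ℕ} {σ : ℕ → V}
    (hpk : ∀ x ∈ T, Pk G (cz G Z T hm x) (hz G Z T hm x) (tlo G T hm) (B x) (Ps x))
    (min : ∀ x ∈ T, ∀ B' Ps', Pk G (cz G Z T hm x) (hz G Z T hm x) (tlo G T hm) B' Ps' →
      (Ps x).card ≤ Ps'.card)
    (hst : ∀ x ∈ T, ∀ u ∈ pkf (B x) (Ps x), host u = x)
    (rk : Rank T (tI G Z T hm r Z) ρ σ) {i : ℕ} (hi : i < n) {J : Finset ℕ} (hJ : ∀ j ∈ J, j < n)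
    (hiJ : i ∉ J) {K : Finset (Itm V)}
    (hK : K ⊆ T.biUnion fun x => pkf (B x) (Ps x)) (hKh : ∀ u ∈ K, ρ (host u) ≠ i)
    (h0 : 0 ≤ sI hm r Z (σ i) + ∑ u ∈ K, (ikp (tlo G T hm) (σ i) u : ℤ)) :
    2 * ((r : ℤ) - 1) * J.card * sI hm r Z (σ i) - (J.card : ℤ) * (J.card - 1) * ((r : ℤ) - 1)
      - ((∑ j ∈ J, tI G Z T hm r Z (σ j)) ^ 2 - ∑ j ∈ J, tI G Z T hm r Z (σ j) ^ 2)
      + 2 * ∑ u ∈ K, ((ikp (tlo G T hm) (σ i) u : ℤ) * ((r : ℤ) - 1 - tI G Z T hm r Z (σ i))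
        - (rmr G (cz G Z T hm) (tlo G T hm) (σ i) u : ℤ))
      + 2 * ∑ j ∈ J, ∑ u ∈ (T.biUnion fun x => pkf (B x) (Ps x)).filter (fun u => ρ (host u) = i),
        ((ikp (tlo G T hm) (σ j) u : ℤ) * ((r : ℤ) - 1 - tI G Z T hm r Z (σ j))
          - (ims G (cz G Z T hm) (tlo G T hm) (σ j) u : ℤ))
      + 2 * ∑ j ∈ J, (nxk G (cz G Z T hm (σ i)) (hz G Z T hm (σ i)) (tlo G T hm) (B (σ i)) (σ j)
        + pfw G (cz G Z T hm (σ i)) (tlo G T hm) (B (σ i)) (σ j))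
      + ∑ x ∈ range n, ((K.filter fun u => ρ (host u) = x
            ∧ (ikp (tlo G T hm) (σ i) u : ℤ) = (ivl u : ℤ) ∧ (x ∈ J → ipc u = 0)).card : ℤ)
          * (((K.filter fun u => ρ (host u) = x
            ∧ (ikp (tlo G T hm) (σ i) u : ℤ) = (ivl u : ℤ) ∧ (x ∈ J → ipc u = 0)).card : ℤ) - 1)
      ≤ 2 * eI G hm Z (σ i)
        + 2 * (∑ u ∈ K, (2 * (ikp (tlo G T hm) (σ i) u : ℤ)
            - if ρ (host u) ∈ J then (ipc u : ℤ) * (ikp (tlo G T hm) (σ i) u : ℤ) else 0)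
            + ((J.card : ℤ) * ((r : ℤ) - 1) - ∑ j ∈ J, tI G Z T hm r Z (σ j)))
          * (sI hm r Z (σ i) + 1)
        + (∑ u ∈ K, (2 * (ikp (tlo G T hm) (σ i) u : ℤ)
            - if ρ (host u) ∈ J then (ipc u : ℤ) * (ikp (tlo G T hm) (σ i) u : ℤ) else 0))
          * (∑ u ∈ K, (2 * (ikp (tlo G T hm) (σ i) u : ℤ)
            - if ρ (host u) ∈ J then (ipc u : ℤ) * (ikp (tlo G T hm) (σ i) u : ℤ) else 0) - 1)
        + 2 * ∑ u ∈ K, (if ρ (host u) ∈ J
            then (iar G (cz G Z T hm (host u)) u : ℤ) - (ikp (tlo G T hm) (σ i) u : ℤ)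
              * (∑ j ∈ J, tI G Z T hm r Z (σ j) - tI G Z T hm r Z (host u))
            else 2 * (ikp (tlo G T hm) (σ i) u : ℤ)
              * ((r : ℤ) - 1 - ∑ j ∈ J, tI G Z T hm r Z (σ j)))
        + 2 * ∑ j ∈ J, (∑ u ∈ K, (if ρ (host u) = j then
            (ipc u : ℤ) * (ikp (tlo G T hm) (σ i) u : ℤ) else 0))
          * pcn (tlo G T hm) B (σ i) (σ j) := by
  have hcard := h.toWHom.cardT
  have hfam : ∀ x ∈ T, Fam (co G) (cz G Z T hm) (hz G Z T hm) (tlo G T hm) x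
      (pkf (B x) (Ps x)) := fun x hx => (hpk x hx).fam (h.csys.dCH hx hx).symm
  have hfil : ∀ i < n, (T.biUnion fun x => pkf (B x) (Ps x)).filter (fun u => ρ (host u) = i)
      = pkf (B (σ i)) (Ps (σ i)) := fun i hi => fil_host hst rk (by rw [hcard]; exact hi)
  have hmem : ∀ i < n, σ i ∈ T := fun i hi => rk.mem i (by rw [hcard]; exact hi)
  have hsinj : ∀ i ∈ J, ∀ j ∈ J, σ i = σ j → i = j := fun i hi j hj h1 =>
    rk.sinj (by rw [hcard]; exact hJ i hi) (by rw [hcard]; exact hJ j hj) h1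
  have hmK : ∀ u ∈ K, ∃ x ∈ T, u ∈ pkf (B x) (Ps x) ∧ host u = x := by
    intro u hu
    obtain ⟨x, hx, hux⟩ := mem_biUnion.1 (hK hu)
    exact ⟨x, hx, hux, hst x hx u hux⟩
  have hK' : K ⊆ (T.erase (σ i)).biUnion fun x => pkf (B x) (Ps x) := by
    intro u hu
    obtain ⟨x, hx, hux⟩ := mem_biUnion.1 (hK hu)
    refine mem_biUnion.2 ⟨x, mem_erase.2 ⟨fun h1 => hKh u hu ?_, hx⟩, hux⟩
    show ρ (host u) = i
    rw [hst x hx u hux, h1]
    exact rk.right i (by rw [hcard]; exact hi)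
  -- the rows of `J`
  obtain ⟨J', hJ'⟩ : ∃ J', J' = J.image σ := ⟨_, rfl⟩
  have hJc : J'.card = J.card := by
    rw [hJ']
    exact card_image_of_injOn fun i hi j hj h1 => hsinj i hi j hj h1
  have hJs : ∀ f : V → ℤ, ∑ j ∈ J', f j = ∑ j ∈ J, f (σ j) := by
    intro f
    rw [hJ', sum_image fun i hi j hj h1 => hsinj i hi j hj h1]
  have hJT : J' ⊆ T := by
    intro x hx
    rw [hJ'] at hx
    obtain ⟨j, hj, rfl⟩ := mem_image.1 hx
    exact hmem j (hJ j hj)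
  have hzJ : σ i ∉ J' := by
    intro hx
    rw [hJ'] at hx
    obtain ⟨j, hj, h1⟩ := mem_image.1 hx
    refine hiJ ?_
    have h2 : j = i := rk.sinj (by rw [hcard]; exact hJ j hj) (by rw [hcard]; exact hi) h1
    exact h2 ▸ hj
  have hmJ : ∀ x ∈ T, (x ∈ J' ↔ ρ x ∈ J) := by
    intro x hx
    rw [hJ', mem_image]
    constructor
    · rintro ⟨j, hj, rfl⟩
      rw [rk.right j (by rw [hcard]; exact hJ j hj)]
      exact hj
    · intro h1
      exact ⟨ρ x, h1, rk.left x hx⟩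
  have heJ : ∀ x ∈ T, ∀ j < n, (x = σ j ↔ ρ x = j) := by
    intro x hx j hj
    constructor
    · rintro rfl
      exact rk.right j (by rw [hcard]; exact hj)
    · rintro rfl
      exact (rk.left x hx).symm
  -- the values
  have ht : ∀ x ∈ T, 0 ≤ tI G Z T hm r Z x := fun x hx => h.hsys.tI_nonneg h.F h.ok hx
  have hts : ∑ j ∈ J', tI G Z T hm r Z j ≤ (r : ℤ) - 1 := by
    have h1 := h.hsys.sum_tI h.F.toPFrame h.ok (by rw [h.cardT]; exact h.cardZ)
    rw [h.cardT] at h1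
    have h2 := h.bb.2
    have h3 : ((BB G Z T).card : ℤ) ≤ r := by exact_mod_cast h2
    have h4 : ∑ j ∈ J', tI G Z T hm r Z j ≤ ∑ j ∈ T, tI G Z T hm r Z j :=
      sum_le_sum_of_subset_of_nonneg hJT fun x hx _ => ht x hx
    have h5 : (0 : ℤ) ≤ n := Nat.cast_nonneg _
    linarith
  -- the saved pairs
  obtain ⟨L, hL⟩ : ∃ L, L = K.filter fun u => ikp (tlo G T hm) (σ i) u ≠ 0 := ⟨_, rfl⟩
  have hLK : L ⊆ K := by
    rw [hL]
    exact filter_subset _ _
  obtain ⟨F, hF⟩ : ∃ F, F = L.filter fun u => (ikp (tlo G T hm) (σ i) u : ℤ) = (ivl u : ℤ)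
    ∧ (ρ (host u) ∈ J → ipc u = 0) := ⟨_, rfl⟩
  have hFL : F ⊆ L := by
    rw [hF]
    exact filter_subset _ _
  have e3 : ∀ x, (K.filter fun u => ρ (host u) = x
        ∧ (ikp (tlo G T hm) (σ i) u : ℤ) = (ivl u : ℤ) ∧ (x ∈ J → ipc u = 0))
      = F.filter fun u => ρ (host u) = x := by
    intro x
    ext u
    simp only [hF, hL, mem_filter]
    constructor
    · rintro ⟨h1, h2, h3, h4⟩
      refine ⟨⟨⟨h1, ?_⟩, h3, fun h5 => h4 (h2 ▸ h5)⟩, h2⟩
      obtain ⟨y, hy, huy, -⟩ := hmK u h1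
      have h6 := (hfam y hy).ivl_pos huy
      intro h5
      rw [h5] at h3
      have h7 : ivl u = 0 := by exact_mod_cast h3.symm
      omega
    · rintro ⟨⟨⟨h1, -⟩, h3, h4⟩, h2⟩
      exact ⟨h1, h2, h3, fun h5 => h4 (h2.symm ▸ h5)⟩
  obtain ⟨D, hDd⟩ : ∃ D, D = (F ×ˢ F).filter fun e => e.1 ≠ e.2 ∧ ρ (host e.1) = ρ (host e.2) :=
    ⟨_, rfl⟩
  have e4 : (D.card : ℤ) = ∑ x ∈ range n, ((F.filter fun u => ρ (host u) = x).card : ℤ)
      * (((F.filter fun u => ρ (host u) = x).card : ℤ) - 1) := by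
    rw [← card_same F (fun u => ρ (host u)) (range n) fun u hu => by
      obtain ⟨x, hx, -, h1⟩ := hmK u (hLK (hFL hu))
      show ρ (host u) ∈ range n
      rw [h1]
      have := rk.lt x hx
      rw [hcard] at this
      exact mem_range.2 this]
    have e9 : ∀ s s' : Finset (Itm V × Itm V), (∀ e, e ∈ s ↔ e ∈ s') →
        (s.card : ℤ) = (s'.card : ℤ) := fun s s' h => by rw [Finset.ext h]
    exact e9 _ _ fun e => by simp only [hDd, mem_filter]
  have hX2 : ∀ Q, (oth (tlo G T hm) (σ i) Q).Nonempty →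
      1 ≤ (one1 (oth (tlo G T hm) (σ i) Q)).card := by
    intro Q hQ
    unfold one1
    rw [dif_pos hQ, card_singleton]
  have hDD : ∀ e ∈ D, e.1 ∈ K.filter (fun u => ikp (tlo G T hm) (σ i) u ≠ 0)
      ∧ e.2 ∈ K.filter (fun u => ikp (tlo G T hm) (σ i) u ≠ 0) ∧
      ∃ p ∈ rpts (tlo G T hm) (fun Q => one1 (oth (tlo G T hm) (σ i) Q)) (σ i) e.1
        \ J'.biUnion (CP G Z T fun x => Z.filter fun v => hm v = x),
      ∃ q ∈ rpts (tlo G T hm) (fun Q => one1 (oth (tlo G T hm) (σ i) Q)) (σ i) e.2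
        \ J'.biUnion (CP G Z T fun x => Z.filter fun v => hm v = x), G.Adj p q := by
    intro e he
    rw [hDd] at he
    obtain ⟨h7, h8, h9⟩ := mem_filter.1 he
    obtain ⟨ha, hb⟩ := mem_product.1 h7
    have haL := hFL ha
    have hbL := hFL hb
    rw [hF] at ha hb
    obtain ⟨-, ha2, ha3⟩ := mem_filter.1 ha
    obtain ⟨-, hb2, hb3⟩ := mem_filter.1 hb
    obtain ⟨x, hx, hux, hxx⟩ := hmK e.1 (hLK haL)
    obtain ⟨y, hy, huy, hyy⟩ := hmK e.2 (hLK hbL)
    have hxy : x = y := by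
      rw [hxx, hyy] at h9
      have h10 := rk.left x hx
      rw [h9, rk.left y hy] at h10
      exact h10.symm
    subst hxy
    refine ⟨hL ▸ haL, hL ▸ hbL, ?_⟩
    obtain ⟨p, hp, q, hq, hpq⟩ := Pk.adj_full h.F.toPFrame h.hh h.csys h.ht hx (hpk x hx)
      (min x hx) hux huy h8 (by exact_mod_cast ha2) (by exact_mod_cast hb2)
    have hout : ∀ w : Itm V, w ∈ pkf (B x) (Ps x) → (ρ x ∈ J → ipc w = 0) →
        ∀ p ∈ ipts w, p ∉ J'.biUnion (CP G Z T fun x => Z.filter fun v => hm v = x) := by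
      intro w hw hw0 p hp hpj
      obtain ⟨j, hj, hpj2⟩ := mem_biUnion.1 hpj
      have hjT := hJT hj
      by_cases hxj : x = j
      · have h11 := hw0 ((hmJ x hx).1 (hxj ▸ hj))
        rcases w with Q | f
        · exact disjoint_left.1 (h.wsysT.dHC x hx _ hjT)
            ((hfam x hx).sub Q hw hp) hpj2
        · simp [ipc] at h11
      · have h12 := (hfam x hx).ipts_sub hw hp
        rcases mem_union.1 h12 with h13 | h13
        · exact disjoint_left.1 (h.wsysT.dHC x hx _ hjT) h13 hpj2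
        · exact disjoint_left.1 (h.wsysT.dCC x hx _ hjT hxj) h13 hpj2
    rw [rpts_full (fun Q => one1_sub _) hX2 (fun Q hQ => (hfam x hx).two Q (hQ ▸ hux))
        (by exact_mod_cast ha2),
      rpts_full (fun Q => one1_sub _) hX2 (fun Q hQ => (hfam x hx).two Q (hQ ▸ huy))
        (by exact_mod_cast hb2)]
    rw [hxx] at ha3
    rw [hyy] at hb3
    exact ⟨p, mem_sdiff.2 ⟨hp, hout _ hux ha3 p hp⟩, q, mem_sdiff.2 ⟨hq, hout _ huy hb3 q hq⟩,
      hpq⟩
  have h1 := h.toWHom.rowMI hpk hst hJT hK' h0 (fun j hj => ht j (hJT hj)) hts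
    (h.rowM_cell hp hpk J'.card (hmem i hi) hJT hzJ
      (K := K.filter fun u => ikp (tlo G T hm) (σ i) u ≠ 0)
      ((filter_subset _ _).trans hK') (fun u hu => (mem_filter.1 hu).2)
      (X := fun Q => one1 (oth (tlo G T hm) (σ i) Q)) (fun Q => one1_sub _))
    (Fam.savM h.wsysT hfam ((filter_subset _ _).trans hK') (fun u hu => (mem_filter.1 hu).2)
      (fun Q => one1_sub _) hDD)
  rw [hJs, hJs, hJs, hJs, hJs, hJc, e4] at h1
  simp only [e3]
  have e5 : ∀ f g : Itm V → ℤ, ∑ u ∈ K, (if host u ∈ J' then f u else g u)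
      = ∑ u ∈ K, (if ρ (host u) ∈ J then f u else g u) := by
    intro f g
    refine sum_congr rfl fun u hu => ?_
    obtain ⟨x, hx, -, hxx⟩ := hmK u hu
    rw [hxx]
    by_cases h2 : x ∈ J'
    · rw [if_pos h2, if_pos ((hmJ x hx).1 h2)]
    · rw [if_neg h2, if_neg fun h3 => h2 ((hmJ x hx).2 h3)]
  have e6 : ∑ u ∈ K, (2 * (ikp (tlo G T hm) (σ i) u : ℤ)
        - if host u ∈ J' then (ipc u : ℤ) * (ikp (tlo G T hm) (σ i) u : ℤ) else 0)
      = ∑ u ∈ K, (2 * (ikp (tlo G T hm) (σ i) u : ℤ)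
        - if ρ (host u) ∈ J then (ipc u : ℤ) * (ikp (tlo G T hm) (σ i) u : ℤ) else 0) := by
    rw [sum_sub_distrib, sum_sub_distrib, e5]
  have e7 : ∑ j ∈ J, (∑ u ∈ K, (if host u = σ j then
            (ipc u : ℤ) * (ikp (tlo G T hm) (σ i) u : ℤ) else 0))
          * (∑ u ∈ pkf (B (σ i)) (Ps (σ i)), (ipc u : ℤ) * ikp (tlo G T hm) (σ j) u)
      = ∑ j ∈ J, (∑ u ∈ K, (if ρ (host u) = j then
            (ipc u : ℤ) * (ikp (tlo G T hm) (σ i) u : ℤ) else 0))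
          * pcn (tlo G T hm) B (σ i) (σ j) := by
    refine sum_congr rfl fun j hj => ?_
    rw [sum_ipc (tlo G T hm) (σ j) (B (σ i)) (Ps (σ i))]
    have e8 : ∑ u ∈ K, (if host u = σ j then
            (ipc u : ℤ) * (ikp (tlo G T hm) (σ i) u : ℤ) else 0)
        = ∑ u ∈ K, (if ρ (host u) = j then
            (ipc u : ℤ) * (ikp (tlo G T hm) (σ i) u : ℤ) else 0) := by
      refine sum_congr rfl fun u hu => ?_
      obtain ⟨x, hx, -, hxx⟩ := hmK u hu
      rw [hxx]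
      by_cases h2 : x = σ j
      · rw [if_pos h2, if_pos ((heJ x hx j (hJ j hj)).1 h2)]
      · rw [if_neg h2, if_neg fun h3 => h2 ((heJ x hx j (hJ j hj)).2 h3)]
    rw [e8]
    rfl
  rw [e6, e5, e7] at h1
  rw [hfil i hi]
  exact h1

end RowJ

end Pool.Agent.Lib.MP_f04ccf_co
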