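import Pool.Agent.Lib.MP_f04ccf_co.M.SameM
import Pool.Agent.Lib.MP_f04ccf_co.M.RowJ

/-!
MP_f04ccf_co, PLAN W (note 17329): the same-host saving with Mantel's bound, over the basic integers, in
the row test with the columns of any set `J` of rows (`J` empty: the row test; `J = {j}`: T+).

* `svq`: the used items of the host `x` whose load is their value (without the PC pairs for `x ∈ J`);
* `svf`: those of them with all loads at the row; `svw`: the used points outside the columns of all used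
  items of the host `x` with all loads at the row;
* `svM`: the saving, `a x` any integers; `svM_same`: it is at least `∑ q (q - 1) + ∑ f (f - 1)`;
* `WHom.NE_svX`, `WHom.NE_svM`: the missing pairs of the used points outside the columns of `J` are at most
  all pairs minus `svM`; `WCoreK.rowJS`: helper94's T++ with any saving; `WCoreK.rowJM`: with `svM`.
-/

set_option autoImplicit false

namespace Pool.Agent.Lib.MP_f04ccf_co

open Finset

attribute [local instance] Classical.propDecidable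

section Svm

variable {ι : Type*}

/-- the number of the used items of the host `x` whose load at `i` is their value, without the PC pairs
for `x ∈ J` -/
noncomputable def svq (K : Finset ι) (ho : ι → ℕ) (vl : ι → ℤ) (kp : ℕ → ι → ℤ) (pc : ι → ℤ)
    (J : Finset ℕ) (i x : ℕ) : ℤ :=
  ((K.filter fun u => ho u = x ∧ kp i u = vl u ∧ (x ∈ J → pc u = 0)).card : ℤ)

/-- those with all loads at `i` -/
noncomputable def svf (n : ℕ) (K : Finset ι) (ho : ι → ℕ) (vl : ι → ℤ) (kp : ℕ → ι → ℤ)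
    (pc : ι → ℤ) (J : Finset ℕ) (i x : ℕ) : ℤ :=
  ((K.filter fun u => ho u = x ∧ kp i u = vl u ∧ (x ∈ J → pc u = 0)
    ∧ ∀ l < n, l ≠ i → kp l u = 0).card : ℤ)

/-- the number of the used points outside the columns of the used items of the host `x` with all
loads at `i` -/
noncomputable def svw (n : ℕ) (K : Finset ι) (ho : ι → ℕ) (vl : ι → ℤ) (kp : ℕ → ι → ℤ)
    (pc : ι → ℤ) (J : Finset ℕ) (i x : ℕ) : ℤ :=
  ∑ u ∈ K.filter (fun u => ho u = x ∧ kp i u = vl u ∧ ∀ l < n, l ≠ i → kp l u = 0),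
    (vl u + 1 - if x ∈ J then pc u else 0)

/-- **the same-host saving with Mantel's bound** -/
noncomputable def svM (n : ℕ) (K : Finset ι) (ho : ι → ℕ) (vl : ι → ℤ) (kp : ℕ → ι → ℤ)
    (pc : ι → ℤ) (J : Finset ℕ) (i : ℕ) (a : ℕ → ℤ) : ℤ :=
  ∑ x ∈ range n, (svq K ho vl kp pc J i x * (svq K ho vl kp pc J i x - 1)
    - svf n K ho vl kp pc J i x * (svf n K ho vl kp pc J i x - 1)
    + 2 * a x * svw n K ho vl kp pc J i x - 2 * (a x * (a x + 1)))

/-- the simple form: twice the pairs of the items with all loads at `i` -/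
theorem svM_same (n : ℕ) (K : Finset ι) (ho : ι → ℕ) (vl : ι → ℤ) (kp : ℕ → ι → ℤ) (pc : ι → ℤ)
    (J : Finset ℕ) (i : ℕ) (hv : ∀ u ∈ K, 1 ≤ vl u) (hp : ∀ u ∈ K, 0 ≤ pc u ∧ pc u ≤ 1) :
    ∑ x ∈ range n, (svq K ho vl kp pc J i x * (svq K ho vl kp pc J i x - 1)
      + svf n K ho vl kp pc J i x * (svf n K ho vl kp pc J i x - 1))
      ≤ svM n K ho vl kp pc J i fun x => max 0 (svf n K ho vl kp pc J i x - 1) := by
  unfold svM
  refine sum_le_sum fun x _ => ?_
  have h1 : 2 * svf n K ho vl kp pc J i x ≤ svw n K ho vl kp pc J i x := by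
    have h2 : svf n K ho vl kp pc J i x
        = ∑ u ∈ K.filter (fun u => ho u = x ∧ kp i u = vl u ∧ (x ∈ J → pc u = 0)
          ∧ ∀ l < n, l ≠ i → kp l u = 0), (1 : ℤ) := by
      unfold svf
      rw [sum_const, nsmul_eq_mul, mul_one]
    rw [h2, mul_sum]
    unfold svw
    refine le_trans (sum_le_sum (g := fun u => vl u + 1 - if x ∈ J then pc u else 0)
      fun u hu => ?_) (sum_le_sum_of_subset_of_nonneg (fun u hu => ?_) fun u hu _ => ?_)
    · obtain ⟨h3, -, -, h4, -⟩ := mem_filter.1 hu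
      have h5 := hv u h3
      by_cases h6 : x ∈ J
      · have h7 := h4 h6
        simp only [if_pos h6]
        linarith
      · simp only [if_neg h6]
        linarith
    · obtain ⟨h3, h4, h5, -, h6⟩ := mem_filter.1 hu
      exact mem_filter.2 ⟨h3, h4, h5, h6⟩
    · have h3 := (mem_filter.1 hu).1
      have h5 := hv u h3
      have h6 := hp u h3
      split_ifs <;> linarith
  have h0 : 0 ≤ svf n K ho vl kp pc J i x := by
    unfold svf
    exact Nat.cast_nonneg _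
  have h2 : svf n K ho vl kp pc J i x = 0 ∨ 1 ≤ svf n K ho vl kp pc J i x := by omega
  beta_reduce
  generalize svf n K ho vl kp pc J i x = f at *
  generalize svw n K ho vl kp pc J i x = w at *
  generalize svq K ho vl kp pc J i x = q at *
  rcases h2 with h2 | h2
  · subst h2
    norm_num
  · rw [max_eq_right (by linarith : (0 : ℤ) ≤ f - 1)]
    nlinarith

end Svm

section WH

variable {V : Type*} {G : SimpleGraph V} {Z T : Finset V} {hm : V → V} {r m n p : ℕ}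
  {B : V → Finset (V × V)} {Ps : V → Finset (Finset V)}

/-- the number of the used points of a full item outside the columns of `J` -/
lemma Fam.card_full {A J : Finset V} {S : V → Finset V} {U : V → Finset (Itm V)}
    (hW : WSysT G (co G) A (CP G Z T S) (HP G Z T S) (tlo G T hm))
    (h : ∀ x ∈ A, Fam (co G) (CP G Z T S) (HP G Z T S) (tlo G T hm) x (U x)) (hJ : J ⊆ A)
    {x z : V} (hx : x ∈ A) {u : Itm V} (hu : u ∈ U x) {X : Finset V → Finset V}
    (hX : ∀ Q, X Q ⊆ oth (tlo G T hm) z Q)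
    (hX1 : ∀ Q, (oth (tlo G T hm) z Q).Nonempty → 1 ≤ (X Q).card)
    (hfull : ikp (tlo G T hm) z u = ivl u) :
    ((rpts (tlo G T hm) X z u \ J.biUnion (CP G Z T S)).card : ℤ)
      = (ivl u : ℤ) + 1 - if x ∈ J then (ipc u : ℤ) else 0 := by
  have hf := h x hx
  have hout : ∀ v ∈ HP G Z T S x, v ∉ J.biUnion (CP G Z T S) := by
    intro v hv hv'
    obtain ⟨j, hj, hv2⟩ := mem_biUnion.1 hv'
    exact disjoint_left.1 (hW.dHC x hx j (hJ hj)) hv hv2
  rw [rpts_full hX hX1 (fun Q hQ => hf.two Q (hQ ▸ hu)) hfull]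
  rcases u with Q | e
  · have h1 : ipts (Sum.inl Q : Itm V) \ J.biUnion (CP G Z T S) = Q := by
      show Q \ J.biUnion (CP G Z T S) = Q
      refine Finset.sdiff_eq_self_iff_disjoint.2 (disjoint_left.2 ?_)
      exact fun v hv => hout v (hf.sub Q hu hv)
    rw [h1]
    have h2 := hf.two Q hu
    have h3 : ((ivl (Sum.inl Q : Itm V) : ℕ) : ℤ) = (Q.card : ℤ) - 1 := by
      simp only [ivl]
      omega
    have h4 : ((ipc (Sum.inl Q : Itm V) : ℕ) : ℤ) = 0 := rfl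
    rw [h3, h4]
    split_ifs <;> ring
  · have hH := hf.pcH e hu
    have hC := hf.pcC e hu
    have hne : e.1 ≠ e.2 := fun h1 => disjoint_left.1 (hW.dHC x hx x hx) hH (h1 ▸ hC)
    have h3 : ((ivl (Sum.inr e : Itm V) : ℕ) : ℤ) = 1 := rfl
    have h4 : ((ipc (Sum.inr e : Itm V) : ℕ) : ℤ) = 1 := rfl
    rw [h3, h4]
    by_cases hxJ : x ∈ J
    · have h1 : ipts (Sum.inr e : Itm V) \ J.biUnion (CP G Z T S) = {e.1} := by
        show ({e.1, e.2} : Finset V) \ J.biUnion (CP G Z T S) = {e.1}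
        ext v
        simp only [mem_sdiff, mem_insert, mem_singleton]
        constructor
        · rintro ⟨h1 | h1, h2⟩
          · exact h1
          · exact absurd (mem_biUnion.2 ⟨x, hxJ, h1.symm ▸ hC⟩) h2
        · intro h1
          exact ⟨Or.inl h1, h1.symm ▸ hout e.1 hH⟩
      rw [h1, card_singleton, if_pos hxJ]
      norm_num
    · have h1 : ipts (Sum.inr e : Itm V) \ J.biUnion (CP G Z T S) = {e.1, e.2} := by
        show ({e.1, e.2} : Finset V) \ J.biUnion (CP G Z T S) = {e.1, e.2}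
        refine Finset.sdiff_eq_self_iff_disjoint.2 (disjoint_left.2 ?_)
        intro v hv
        rcases mem_insert.1 hv with h1 | h1
        · exact h1.symm ▸ hout e.1 hH
        · rw [mem_singleton.1 h1]
          intro h2
          obtain ⟨j, hj, h3⟩ := mem_biUnion.1 h2
          exact disjoint_left.1 (hW.dCC x hx j (hJ hj) fun h4 => hxJ (h4 ▸ hj)) hC h3
      rw [h1, card_pair hne, if_neg hxJ]
      norm_num

/-- **the missing pairs of the used points outside the columns of `J`**, any choice `X` of other points -/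
theorem WHom.NE_svX (h : WHom G Z T r m n hm) {host : Itm V → V} {ρ : V → ℕ} {σ : ℕ → V}
    (hpk : ∀ x ∈ T, Pk G (cz G Z T hm x) (hz G Z T hm x) (tlo G T hm) (B x) (Ps x))
    (min : ∀ x ∈ T, ∀ B' Ps', Pk G (cz G Z T hm x) (hz G Z T hm x) (tlo G T hm) B' Ps' →
      (Ps x).card ≤ Ps'.card)
    (hst : ∀ x ∈ T, ∀ u ∈ pkf (B x) (Ps x), host u = x)
    (rk : Rank T (tI G Z T hm r Z) ρ σ) {i : ℕ} (hi : i < n) {J : Finset ℕ} (hJ : ∀ j ∈ J, j < n)
    {K : Finset (Itm V)}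
    (hK : K ⊆ T.biUnion fun x => pkf (B x) (Ps x)) (hKh : ∀ u ∈ K, ρ (host u) ≠ i)
    {X : Finset V → Finset V} (hX : ∀ Q, X Q ⊆ oth (tlo G T hm) (σ i) Q)
    (hX2 : ∀ Q, (oth (tlo G T hm) (σ i) Q).Nonempty → 1 ≤ (X Q).card) (a : ℕ → ℤ) :
    (NE G ((K.filter fun u => ikp (tlo G T hm) (σ i) u ≠ 0).biUnion (rpts (tlo G T hm) X (σ i))
          \ (J.image σ).biUnion (CP G Z T fun x => Z.filter fun v => hm v = x)) : ℤ)
      + svM n K (fun u => ρ (host u)) (fun u => (ivl u : ℤ))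
          (fun j u => (ikp (tlo G T hm) (σ j) u : ℤ)) (fun u => (ipc u : ℤ)) J i a
      + ((K.filter fun u => ikp (tlo G T hm) (σ i) u ≠ 0).biUnion (rpts (tlo G T hm) X (σ i))
          \ (J.image σ).biUnion (CP G Z T fun x => Z.filter fun v => hm v = x)).card
      ≤ (((K.filter fun u => ikp (tlo G T hm) (σ i) u ≠ 0).biUnion (rpts (tlo G T hm) X (σ i))
          \ (J.image σ).biUnion (CP G Z T fun x => Z.filter fun v => hm v = x)).card : ℤ)
        * ((K.filter fun u => ikp (tlo G T hm) (σ i) u ≠ 0).biUnion (rpts (tlo G T hm) X (σ i))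
          \ (J.image σ).biUnion (CP G Z T fun x => Z.filter fun v => hm v = x)).card := by
  have hcard := h.cardT
  have hfam : ∀ x ∈ T, Fam (co G) (cz G Z T hm) (hz G Z T hm) (tlo G T hm) x
      (pkf (B x) (Ps x)) := fun x hx => (hpk x hx).fam (h.csys.dCH hx hx).symm
  have hfil : ∀ i < n, (T.biUnion fun x => pkf (B x) (Ps x)).filter (fun u => ρ (host u) = i)
      = pkf (B (σ i)) (Ps (σ i)) := fun i hi => fil_host hst rk (by rw [hcard]; exact hi)
  have hmem : ∀ i < n, σ i ∈ T := fun i hi => rk.mem i (by rw [hcard]; exact hi)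
  have hsinj : ∀ i < n, ∀ j < n, σ i = σ j → i = j := fun i hi j hj h1 =>
    rk.sinj (by rw [hcard]; exact hi) (by rw [hcard]; exact hj) h1
  have hmK : ∀ u ∈ K, ∃ x ∈ T, u ∈ pkf (B x) (Ps x) ∧ host u = x := by
    intro u hu
    obtain ⟨x, hx, hux⟩ := mem_biUnion.1 (hK hu)
    exact ⟨x, hx, hux, hst x hx u hux⟩
  have hmemU : ∀ u ∈ K, ∀ j < n, ρ (host u) = j → u ∈ pkf (B (σ j)) (Ps (σ j)) := by
    intro u hu j hj h1
    rw [← hfil j hj, mem_filter]
    exact ⟨hK hu, h1⟩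
  have hK' : K ⊆ (T.erase (σ i)).biUnion fun x => pkf (B x) (Ps x) := by
    intro u hu
    obtain ⟨x, hx, hux⟩ := mem_biUnion.1 (hK hu)
    refine mem_biUnion.2 ⟨x, mem_erase.2 ⟨fun h1 => hKh u hu ?_, hx⟩, hux⟩
    show ρ (host u) = i
    rw [hst x hx u hux, h1]
    exact rk.right i (by rw [hcard]; exact hi)
  -- the rows of `J`
  obtain ⟨J', hJ'⟩ : ∃ J', J' = J.image σ := ⟨_, rfl⟩
  rw [← hJ']
  have hJT : J' ⊆ T := by
    intro x hx
    rw [hJ'] at hx
    obtain ⟨j, hj, rfl⟩ := mem_image.1 hx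
    exact hmem j (hJ j hj)
  have hmJ : ∀ x ∈ T, (x ∈ J' ↔ ρ x ∈ J) := by
    intro x hx
    rw [hJ', mem_image]
    constructor
    · rintro ⟨j, hj, rfl⟩
      rw [rk.right j (by rw [hcard]; exact hJ j hj)]
      exact hj
    · intro h1
      exact ⟨ρ x, h1, rk.left x hx⟩
  -- the families
  obtain ⟨L, hL⟩ : ∃ L, L = K.filter fun u => ikp (tlo G T hm) (σ i) u ≠ 0 := ⟨_, rfl⟩
  rw [← hL]
  have hLK : L ⊆ K := by
    rw [hL]
    exact filter_subset _ _
  have hkL : ∀ u ∈ L, ikp (tlo G T hm) (σ i) u ≠ 0 := by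
    intro u hu
    rw [hL] at hu
    exact (mem_filter.1 hu).2
  have hvL : ∀ u ∈ K, (ikp (tlo G T hm) (σ i) u : ℤ) = (ivl u : ℤ) → u ∈ L := by
    intro u hu h3
    rw [hL]
    refine mem_filter.2 ⟨hu, fun h5 => ?_⟩
    obtain ⟨y, hy, huy, -⟩ := hmK u hu
    have h6 := (hfam y hy).ivl_pos huy
    rw [h5] at h3
    have h7 : ivl u = 0 := by exact_mod_cast h3.symm
    omega
  obtain ⟨F, hF⟩ : ∃ F, F = L.filter fun u => (ikp (tlo G T hm) (σ i) u : ℤ) = (ivl u : ℤ)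
    ∧ (ρ (host u) ∈ J → (ipc u : ℤ) = 0) := ⟨_, rfl⟩
  obtain ⟨N, hN⟩ : ∃ N, N = L.filter fun u => (ikp (tlo G T hm) (σ i) u : ℤ) = (ivl u : ℤ)
    ∧ ∀ l < n, l ≠ i → (ikp (tlo G T hm) (σ l) u : ℤ) = 0 := ⟨_, rfl⟩
  have hFL : F ⊆ L := by
    rw [hF]
    exact filter_subset _ _
  have hNL : N ⊆ L := by
    rw [hN]
    exact filter_subset _ _
  obtain ⟨D1, hD1⟩ : ∃ D1, D1 = (F ×ˢ F).filter fun e => e.1 ≠ e.2
    ∧ ρ (host e.1) = ρ (host e.2) := ⟨_, rfl⟩
  obtain ⟨D2, hD2⟩ : ∃ D2, D2 = ((F ∩ N) ×ˢ (F ∩ N)).filter fun e => e.1 ≠ e.2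
    ∧ ρ (host e.1) = ρ (host e.2) := ⟨_, rfl⟩
  have hrn : ∀ u ∈ K, ρ (host u) ∈ range n := by
    intro u hu
    obtain ⟨x, hx, -, h1⟩ := hmK u hu
    rw [h1]
    have := rk.lt x hx
    rw [hcard] at this
    exact mem_range.2 this
  have e9 : ∀ s s' : Finset (Itm V × Itm V), (∀ e, e ∈ s ↔ e ∈ s') →
      (s.card : ℤ) = (s'.card : ℤ) := fun s s' h => by rw [Finset.ext h]
  have c1 : (D1.card : ℤ) = ∑ x ∈ range n, ((F.filter fun u => ρ (host u) = x).card : ℤ)
      * (((F.filter fun u => ρ (host u) = x).card : ℤ) - 1) := by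
    rw [← card_same F (fun u => ρ (host u)) (range n) fun u hu => hrn u (hLK (hFL hu))]
    exact e9 _ _ fun e => by simp only [hD1, mem_filter]
  have c2 : (D2.card : ℤ) = ∑ x ∈ range n, (((F ∩ N).filter fun u => ρ (host u) = x).card : ℤ)
      * ((((F ∩ N).filter fun u => ρ (host u) = x).card : ℤ) - 1) := by
    rw [← card_same (F ∩ N) (fun u => ρ (host u)) (range n) fun u hu =>
      hrn u (hLK (hFL (mem_inter.1 hu).1))]
    exact e9 _ _ fun e => by simp only [hD2, mem_filter]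
  have c3 : D2 ⊆ D1 := by
    intro e he
    rw [hD2] at he
    rw [hD1]
    obtain ⟨h1, h2⟩ := mem_filter.1 he
    obtain ⟨h3, h4⟩ := mem_product.1 h1
    exact mem_filter.2 ⟨mem_product.2 ⟨(mem_inter.1 h3).1, (mem_inter.1 h4).1⟩, h2⟩
  have c4 : ((D1 \ D2).card : ℤ) = (D1.card : ℤ) - D2.card := by
    rw [card_sdiff_of_subset c3, Nat.cast_sub (card_le_card c3)]
  have hDD : ∀ e ∈ D1 \ D2, e.1 ∈ L ∧ e.2 ∈ L
      ∧ (∀ x ∈ range n, e.1 ∈ N.filter (fun u => ρ (host u) = x) →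
        e.2 ∉ N.filter (fun u => ρ (host u) = x)) ∧
      ∃ p ∈ rpts (tlo G T hm) X (σ i) e.1
        \ J'.biUnion (CP G Z T fun x => Z.filter fun v => hm v = x),
      ∃ q ∈ rpts (tlo G T hm) X (σ i) e.2
        \ J'.biUnion (CP G Z T fun x => Z.filter fun v => hm v = x), G.Adj p q := by
    intro e he
    obtain ⟨he1, he2⟩ := mem_sdiff.1 he
    rw [hD1] at he1
    obtain ⟨h7, h8, h9⟩ := mem_filter.1 he1
    obtain ⟨ha, hb⟩ := mem_product.1 h7
    have haF := ha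
    have hbF := hb
    have haL := hFL ha
    have hbL := hFL hb
    rw [hF] at ha hb
    obtain ⟨-, ha2, ha3⟩ := mem_filter.1 ha
    obtain ⟨-, hb2, hb3⟩ := mem_filter.1 hb
    obtain ⟨x, hx, hux, hxx⟩ := hmK e.1 (hLK haL)
    obtain ⟨y, hy, huy, hyy⟩ := hmK e.2 (hLK hbL)
    have hxy : x = y := by
      rw [hxx, hyy] at h9
      have h10 := rk.left x hx
      rw [h9, rk.left y hy] at h10
      exact h10.symm
    subst hxy
    refine ⟨haL, hbL, fun x' _ hn1 hn2 => he2 ?_, ?_⟩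
    · rw [hD2]
      exact mem_filter.2 ⟨mem_product.2 ⟨mem_inter.2 ⟨haF, (mem_filter.1 hn1).1⟩,
        mem_inter.2 ⟨hbF, (mem_filter.1 hn2).1⟩⟩, h8, h9⟩
    obtain ⟨p, hp, q, hq, hpq⟩ := Pk.adj_full h.F.toPFrame h.hh h.csys h.ht hx (hpk x hx)
      (min x hx) hux huy h8 (by exact_mod_cast ha2) (by exact_mod_cast hb2)
    have hout : ∀ w : Itm V, w ∈ pkf (B x) (Ps x) → (ρ x ∈ J → (ipc w : ℤ) = 0) →
        ∀ p ∈ ipts w, p ∉ J'.biUnion (CP G Z T fun x => Z.filter fun v => hm v = x) := by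
      intro w hw hw0 p hp hpj
      obtain ⟨j, hj, hpj2⟩ := mem_biUnion.1 hpj
      have hjT := hJT hj
      by_cases hxj : x = j
      · have h11 := hw0 ((hmJ x hx).1 (hxj ▸ hj))
        rcases w with Q | f
        · exact disjoint_left.1 (h.wsysT.dHC x hx _ hjT)
            ((hfam x hx).sub Q hw hp) hpj2
        · simp [ipc] at h11
      · have h12 := (hfam x hx).ipts_sub hw hp
        rcases mem_union.1 h12 with h13 | h13
        · exact disjoint_left.1 (h.wsysT.dHC x hx _ hjT) h13 hpj2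
        · exact disjoint_left.1 (h.wsysT.dCC x hx _ hjT hxj) h13 hpj2
    rw [rpts_full hX hX2 (fun Q hQ => (hfam x hx).two Q (hQ ▸ hux))
        (by exact_mod_cast ha2),
      rpts_full hX hX2 (fun Q hQ => (hfam x hx).two Q (hQ ▸ huy))
        (by exact_mod_cast hb2)]
    rw [hxx] at ha3
    rw [hyy] at hb3
    exact ⟨p, mem_sdiff.2 ⟨hp, hout _ hux ha3 p hp⟩, q, mem_sdiff.2 ⟨hq, hout _ huy hb3 q hq⟩,
      hpq⟩
  have hkey := Fam.NE_sav h.F.toPFrame h.hh h.csys h.wsysT hfam (z := σ i) (K := L)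
    (hLK.trans hK') hkL (X := X) hX
    (J'.biUnion (CP G Z T fun x => Z.filter fun v => hm v = x)) (J := range n) (ho := σ)
    (fun i hi j hj h1 => hsinj i (mem_range.1 hi) j (mem_range.1 hj) h1)
    (Q := fun x => N.filter fun u => ρ (host u) = x)
    (fun x _ => (filter_subset _ _).trans hNL)
    (fun x hx u hu => by
      obtain ⟨h1, h2⟩ := mem_filter.1 hu
      have hx' := mem_range.1 hx
      exact ⟨hmem x hx', hmemU u (hLK (hNL h1)) x hx' h2⟩)
    (fun x hx u hu y hy => by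
      obtain ⟨h1, h2⟩ := mem_filter.1 hu
      have hx' := mem_range.1 hx
      by_contra h3
      have hux := hmemU u (hLK (hNL h1)) x hx' h2
      obtain ⟨v, hv, hvy⟩ := ikp_ne_tail (fun Q hQ => (hfam _ (hmem x hx')).two Q (hQ ▸ hux)) h3
      have h4 := h.ht _ (hmem x hx') v ((hfam _ (hmem x hx')).imem_sub hux hv)
      rw [hvy] at h4
      have hyT := mem_of_mem_erase h4
      have h5 := rk.lt y hyT
      rw [hcard] at h5
      have h6 : ρ y ≠ i := fun h6 => hy (by rw [← rk.left y hyT, h6])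
      rw [hN] at h1
      have h7 := (mem_filter.1 h1).2.2 (ρ y) h5 h6
      rw [rk.left y hyT] at h7
      exact h3 (by exact_mod_cast h7))
    a hDD
  have e1 : (∑ x ∈ range n, (2 * a x * (∑ u ∈ N.filter (fun u => ρ (host u) = x),
        ((rpts (tlo G T hm) X (σ i) u
          \ J'.biUnion (CP G Z T fun x => Z.filter fun v => hm v = x)).card : ℤ))
        - 2 * (a x * (a x + 1))) + ((D1 \ D2).card : ℤ))
      = svM n K (fun u => ρ (host u)) (fun u => (ivl u : ℤ))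
          (fun j u => (ikp (tlo G T hm) (σ j) u : ℤ)) (fun u => (ipc u : ℤ)) J i a := by
    rw [c4, c1, c2, ← sum_sub_distrib, ← sum_add_distrib]
    unfold svM
    refine sum_congr rfl fun x hx => ?_
    have hx' := mem_range.1 hx
    have f1 : svq K (fun u => ρ (host u)) (fun u => (ivl u : ℤ))
          (fun j u => (ikp (tlo G T hm) (σ j) u : ℤ)) (fun u => (ipc u : ℤ)) J i x
        = ((F.filter fun u => ρ (host u) = x).card : ℤ) := by
      unfold svq
      have : (K.filter fun u => ρ (host u) = x ∧ (ikp (tlo G T hm) (σ i) u : ℤ) = (ivl u : ℤ)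
          ∧ (x ∈ J → (ipc u : ℤ) = 0)) = F.filter fun u => ρ (host u) = x := by
        ext u
        simp only [hF, mem_filter]
        constructor
        · rintro ⟨h1, h2, h3, h4⟩
          exact ⟨⟨hvL u h1 h3, h3, fun h5 => h4 (h2 ▸ h5)⟩, h2⟩
        · rintro ⟨⟨h1, h3, h4⟩, h2⟩
          exact ⟨hLK h1, h2, h3, fun h5 => h4 (h2.symm ▸ h5)⟩
      rw [this]
    have f2 : svf n K (fun u => ρ (host u)) (fun u => (ivl u : ℤ))
          (fun j u => (ikp (tlo G T hm) (σ j) u : ℤ)) (fun u => (ipc u : ℤ)) J i x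
        = (((F ∩ N).filter fun u => ρ (host u) = x).card : ℤ) := by
      unfold svf
      have : (K.filter fun u => ρ (host u) = x ∧ (ikp (tlo G T hm) (σ i) u : ℤ) = (ivl u : ℤ)
          ∧ (x ∈ J → (ipc u : ℤ) = 0) ∧ ∀ l < n, l ≠ i → (ikp (tlo G T hm) (σ l) u : ℤ) = 0)
          = (F ∩ N).filter fun u => ρ (host u) = x := by
        ext u
        simp only [hF, hN, mem_filter, mem_inter]
        constructor
        · rintro ⟨h1, h2, h3, h4, h6⟩
          exact ⟨⟨⟨hvL u h1 h3, h3, fun h5 => h4 (h2 ▸ h5)⟩, hvL u h1 h3, h3, h6⟩, h2⟩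
        · rintro ⟨⟨⟨h1, h3, h4⟩, -, -, h6⟩, h2⟩
          exact ⟨hLK h1, h2, h3, fun h5 => h4 (h2.symm ▸ h5), h6⟩
      rw [this]
    have f3 : svw n K (fun u => ρ (host u)) (fun u => (ivl u : ℤ))
          (fun j u => (ikp (tlo G T hm) (σ j) u : ℤ)) (fun u => (ipc u : ℤ)) J i x
        = ∑ u ∈ N.filter (fun u => ρ (host u) = x),
          ((rpts (tlo G T hm) X (σ i) u
            \ J'.biUnion (CP G Z T fun x => Z.filter fun v => hm v = x)).card : ℤ) := by
      unfold svw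
      have : (K.filter fun u => ρ (host u) = x ∧ (ikp (tlo G T hm) (σ i) u : ℤ) = (ivl u : ℤ)
          ∧ ∀ l < n, l ≠ i → (ikp (tlo G T hm) (σ l) u : ℤ) = 0)
          = N.filter fun u => ρ (host u) = x := by
        ext u
        simp only [hN, mem_filter]
        constructor
        · rintro ⟨h1, h2, h3, h6⟩
          exact ⟨⟨hvL u h1 h3, h3, h6⟩, h2⟩
        · rintro ⟨⟨h1, h3, h6⟩, h2⟩
          exact ⟨hLK h1, h2, h3, h6⟩
      rw [this]
      refine sum_congr rfl fun u hu => ?_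
      obtain ⟨h1, h2⟩ := mem_filter.1 hu
      have hux := hmemU u (hLK (hNL h1)) x hx' h2
      have h3 := h1
      rw [hN] at h3
      have h4 := (mem_filter.1 h3).2.1
      have h5 := Fam.card_full h.wsysT hfam hJT (hmem x hx') hux
        (X := X) (z := σ i) hX hX2
        (by exact_mod_cast h4)
      have h6 : σ x ∈ J' ↔ x ∈ J := by
        rw [hmJ _ (hmem x hx'), rk.right x (by rw [hcard]; exact hx')]
      by_cases h7 : x ∈ J
      · rw [if_pos (h6.2 h7)] at h5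
        rw [if_pos h7]
        exact h5.symm
      · rw [if_neg fun h8 => h7 (h6.1 h8)] at h5
        rw [if_neg h7]
        exact h5.symm
    rw [f1, f2, f3]
    ring
  rw [e1] at hkey
  exact hkey

/-- the same for `one1`, the choice in the fields -/
theorem WHom.NE_svM (h : WHom G Z T r m n hm) {host : Itm V → V} {ρ : V → ℕ} {σ : ℕ → V}
    (hpk : ∀ x ∈ T, Pk G (cz G Z T hm x) (hz G Z T hm x) (tlo G T hm) (B x) (Ps x))
    (min : ∀ x ∈ T, ∀ B' Ps', Pk G (cz G Z T hm x) (hz G Z T hm x) (tlo G T hm) B' Ps' →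
      (Ps x).card ≤ Ps'.card)
    (hst : ∀ x ∈ T, ∀ u ∈ pkf (B x) (Ps x), host u = x)
    (rk : Rank T (tI G Z T hm r Z) ρ σ) {i : ℕ} (hi : i < n) {J : Finset ℕ} (hJ : ∀ j ∈ J, j < n)
    {K : Finset (Itm V)}
    (hK : K ⊆ T.biUnion fun x => pkf (B x) (Ps x)) (hKh : ∀ u ∈ K, ρ (host u) ≠ i)
    (a : ℕ → ℤ) :
    (NE G ((K.filter fun u => ikp (tlo G T hm) (σ i) u ≠ 0).biUnion
          (rpts (tlo G T hm) (fun Q => one1 (oth (tlo G T hm) (σ i) Q)) (σ i))
          \ (J.image σ).biUnion (CP G Z T fun x => Z.filter fun v => hm v = x)) : ℤ)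
      + svM n K (fun u => ρ (host u)) (fun u => (ivl u : ℤ))
          (fun j u => (ikp (tlo G T hm) (σ j) u : ℤ)) (fun u => (ipc u : ℤ)) J i a
      + ((K.filter fun u => ikp (tlo G T hm) (σ i) u ≠ 0).biUnion
          (rpts (tlo G T hm) (fun Q => one1 (oth (tlo G T hm) (σ i) Q)) (σ i))
          \ (J.image σ).biUnion (CP G Z T fun x => Z.filter fun v => hm v = x)).card
      ≤ (((K.filter fun u => ikp (tlo G T hm) (σ i) u ≠ 0).biUnion
          (rpts (tlo G T hm) (fun Q => one1 (oth (tlo G T hm) (σ i) Q)) (σ i))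
          \ (J.image σ).biUnion (CP G Z T fun x => Z.filter fun v => hm v = x)).card : ℤ)
        * ((K.filter fun u => ikp (tlo G T hm) (σ i) u ≠ 0).biUnion
          (rpts (tlo G T hm) (fun Q => one1 (oth (tlo G T hm) (σ i) Q)) (σ i))
          \ (J.image σ).biUnion (CP G Z T fun x => Z.filter fun v => hm v = x)).card :=
  h.NE_svX hpk min hst rk hi hJ hK hKh (fun Q => one1_sub _) (fun Q hQ => by
    unfold one1
    rw [dif_pos hQ, card_singleton]) a

/-- **T++ over the row indices with any saving** `sv` (helper94's `WCoreK.rowJ`) -/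
theorem WCoreK.rowJS (hp : 2 * r ≤ p) (h : WCoreK G Z T r m n p hm)
    {host : Itm V → V} {ρ : V → ℕ} {σ : ℕ → V}
    (hpk : ∀ x ∈ T, Pk G (cz G Z T hm x) (hz G Z T hm x) (tlo G T hm) (B x) (Ps x))
    (hst : ∀ x ∈ T, ∀ u ∈ pkf (B x) (Ps x), host u = x)
    (rk : Rank T (tI G Z T hm r Z) ρ σ) {i : ℕ} (hi : i < n) {J : Finset ℕ} (hJ : ∀ j ∈ J, j < n)
    (hiJ : i ∉ J) {K : Finset (Itm V)}
    (hK : K ⊆ T.biUnion fun x => pkf (B x) (Ps x)) (hKh : ∀ u ∈ K, ρ (host u) ≠ i)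
    (h0 : 0 ≤ sI hm r Z (σ i) + ∑ u ∈ K, (ikp (tlo G T hm) (σ i) u : ℤ)) {sv : ℤ}
    (hsv : (NE G ((K.filter fun u => ikp (tlo G T hm) (σ i) u ≠ 0).biUnion
          (rpts (tlo G T hm) (fun Q => one1 (oth (tlo G T hm) (σ i) Q)) (σ i))
          \ (J.image σ).biUnion (CP G Z T fun x => Z.filter fun v => hm v = x)) : ℤ) + sv
      + ((K.filter fun u => ikp (tlo G T hm) (σ i) u ≠ 0).biUnion
          (rpts (tlo G T hm) (fun Q => one1 (oth (tlo G T hm) (σ i) Q)) (σ i))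
          \ (J.image σ).biUnion (CP G Z T fun x => Z.filter fun v => hm v = x)).card
      ≤ (((K.filter fun u => ikp (tlo G T hm) (σ i) u ≠ 0).biUnion
          (rpts (tlo G T hm) (fun Q => one1 (oth (tlo G T hm) (σ i) Q)) (σ i))
          \ (J.image σ).biUnion (CP G Z T fun x => Z.filter fun v => hm v = x)).card : ℤ)
        * ((K.filter fun u => ikp (tlo G T hm) (σ i) u ≠ 0).biUnion
          (rpts (tlo G T hm) (fun Q => one1 (oth (tlo G T hm) (σ i) Q)) (σ i))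
          \ (J.image σ).biUnion (CP G Z T fun x => Z.filter fun v => hm v = x)).card) :
    2 * ((r : ℤ) - 1) * J.card * sI hm r Z (σ i) - (J.card : ℤ) * (J.card - 1) * ((r : ℤ) - 1)
      - ((∑ j ∈ J, tI G Z T hm r Z (σ j)) ^ 2 - ∑ j ∈ J, tI G Z T hm r Z (σ j) ^ 2)
      + 2 * ∑ u ∈ K, ((ikp (tlo G T hm) (σ i) u : ℤ) * ((r : ℤ) - 1 - tI G Z T hm r Z (σ i))
        - (rmr G (cz G Z T hm) (tlo G T hm) (σ i) u : ℤ))
      + 2 * ∑ j ∈ J, ∑ u ∈ (T.biUnion fun x => pkf (B x) (Ps x)).filter (fun u => ρ (host u) = i),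
        ((ikp (tlo G T hm) (σ j) u : ℤ) * ((r : ℤ) - 1 - tI G Z T hm r Z (σ j))
          - (ims G (cz G Z T hm) (tlo G T hm) (σ j) u : ℤ))
      + 2 * ∑ j ∈ J, (nxk G (cz G Z T hm (σ i)) (hz G Z T hm (σ i)) (tlo G T hm) (B (σ i)) (σ j)
        + pfw G (cz G Z T hm (σ i)) (tlo G T hm) (B (σ i)) (σ j))
      + sv
      ≤ 2 * eI G hm Z (σ i)
        + 2 * (∑ u ∈ K, (2 * (ikp (tlo G T hm) (σ i) u : ℤ)
            - if ρ (host u) ∈ J then (ipc u : ℤ) * (ikp (tlo G T hm) (σ i) u : ℤ) else 0)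
            + ((J.card : ℤ) * ((r : ℤ) - 1) - ∑ j ∈ J, tI G Z T hm r Z (σ j)))
          * (sI hm r Z (σ i) + 1)
        + (∑ u ∈ K, (2 * (ikp (tlo G T hm) (σ i) u : ℤ)
            - if ρ (host u) ∈ J then (ipc u : ℤ) * (ikp (tlo G T hm) (σ i) u : ℤ) else 0))
          * (∑ u ∈ K, (2 * (ikp (tlo G T hm) (σ i) u : ℤ)
            - if ρ (host u) ∈ J then (ipc u : ℤ) * (ikp (tlo G T hm) (σ i) u : ℤ) else 0) - 1)
        + 2 * ∑ u ∈ K, (if ρ (host u) ∈ J
            then (iar G (cz G Z T hm (host u)) u : ℤ) - (ikp (tlo G T hm) (σ i) u : ℤ)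
              * (∑ j ∈ J, tI G Z T hm r Z (σ j) - tI G Z T hm r Z (host u))
            else 2 * (ikp (tlo G T hm) (σ i) u : ℤ)
              * ((r : ℤ) - 1 - ∑ j ∈ J, tI G Z T hm r Z (σ j)))
        + 2 * ∑ j ∈ J, (∑ u ∈ K, (if ρ (host u) = j then
            (ipc u : ℤ) * (ikp (tlo G T hm) (σ i) u : ℤ) else 0))
          * pcn (tlo G T hm) B (σ i) (σ j) := by
  have hcard := h.toWHom.cardT
  have hfil : ∀ i < n, (T.biUnion fun x => pkf (B x) (Ps x)).filter (fun u => ρ (host u) = i)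
      = pkf (B (σ i)) (Ps (σ i)) := fun i hi => fil_host hst rk (by rw [hcard]; exact hi)
  have hmem : ∀ i < n, σ i ∈ T := fun i hi => rk.mem i (by rw [hcard]; exact hi)
  have hsinj : ∀ i ∈ J, ∀ j ∈ J, σ i = σ j → i = j := fun i hi j hj h1 =>
    rk.sinj (by rw [hcard]; exact hJ i hi) (by rw [hcard]; exact hJ j hj) h1
  have hmK : ∀ u ∈ K, ∃ x ∈ T, u ∈ pkf (B x) (Ps x) ∧ host u = x := by
    intro u hu
    obtain ⟨x, hx, hux⟩ := mem_biUnion.1 (hK hu)
    exact ⟨x, hx, hux, hst x hx u hux⟩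
  have hK' : K ⊆ (T.erase (σ i)).biUnion fun x => pkf (B x) (Ps x) := by
    intro u hu
    obtain ⟨x, hx, hux⟩ := mem_biUnion.1 (hK hu)
    refine mem_biUnion.2 ⟨x, mem_erase.2 ⟨fun h1 => hKh u hu ?_, hx⟩, hux⟩
    show ρ (host u) = i
    rw [hst x hx u hux, h1]
    exact rk.right i (by rw [hcard]; exact hi)
  obtain ⟨J', hJ'⟩ : ∃ J', J' = J.image σ := ⟨_, rfl⟩
  rw [← hJ'] at hsv
  have hJc : J'.card = J.card := by
    rw [hJ']
    exact card_image_of_injOn fun i hi j hj h1 => hsinj i hi j hj h1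
  have hJs : ∀ f : V → ℤ, ∑ j ∈ J', f j = ∑ j ∈ J, f (σ j) := by
    intro f
    rw [hJ', sum_image fun i hi j hj h1 => hsinj i hi j hj h1]
  have hJT : J' ⊆ T := by
    intro x hx
    rw [hJ'] at hx
    obtain ⟨j, hj, rfl⟩ := mem_image.1 hx
    exact hmem j (hJ j hj)
  have hzJ : σ i ∉ J' := by
    intro hx
    rw [hJ'] at hx
    obtain ⟨j, hj, h1⟩ := mem_image.1 hx
    refine hiJ ?_
    have h2 : j = i := rk.sinj (by rw [hcard]; exact hJ j hj) (by rw [hcard]; exact hi) h1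
    exact h2 ▸ hj
  have hmJ : ∀ x ∈ T, (x ∈ J' ↔ ρ x ∈ J) := by
    intro x hx
    rw [hJ', mem_image]
    constructor
    · rintro ⟨j, hj, rfl⟩
      rw [rk.right j (by rw [hcard]; exact hJ j hj)]
      exact hj
    · intro h1
      exact ⟨ρ x, h1, rk.left x hx⟩
  have heJ : ∀ x ∈ T, ∀ j < n, (x = σ j ↔ ρ x = j) := by
    intro x hx j hj
    constructor
    · rintro rfl
      exact rk.right j (by rw [hcard]; exact hj)
    · rintro rfl
      exact (rk.left x hx).symm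
  have ht : ∀ x ∈ T, 0 ≤ tI G Z T hm r Z x := fun x hx => h.hsys.tI_nonneg h.F h.ok hx
  have hts : ∑ j ∈ J', tI G Z T hm r Z j ≤ (r : ℤ) - 1 := by
    have h1 := h.hsys.sum_tI h.F.toPFrame h.ok (by rw [h.cardT]; exact h.cardZ)
    rw [h.cardT] at h1
    have h2 := h.bb.2
    have h3 : ((BB G Z T).card : ℤ) ≤ r := by exact_mod_cast h2
    have h4 : ∑ j ∈ J', tI G Z T hm r Z j ≤ ∑ j ∈ T, tI G Z T hm r Z j :=
      sum_le_sum_of_subset_of_nonneg hJT fun x hx _ => ht x hx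
    have h5 : (0 : ℤ) ≤ n := Nat.cast_nonneg _
    linarith
  have h1 := h.toWHom.rowMI hpk hst hJT hK' h0 (fun j hj => ht j (hJT hj)) hts
    (h.rowM_cell hp hpk J'.card (hmem i hi) hJT hzJ
      (K := K.filter fun u => ikp (tlo G T hm) (σ i) u ≠ 0)
      ((filter_subset _ _).trans hK') (fun u hu => (mem_filter.1 hu).2)
      (X := fun Q => one1 (oth (tlo G T hm) (σ i) Q)) (fun Q => one1_sub _)) hsv
  rw [hJs, hJs, hJs, hJs, hJs, hJc] at h1
  have e5 : ∀ f g : Itm V → ℤ, ∑ u ∈ K, (if host u ∈ J' then f u else g u)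
      = ∑ u ∈ K, (if ρ (host u) ∈ J then f u else g u) := by
    intro f g
    refine sum_congr rfl fun u hu => ?_
    obtain ⟨x, hx, -, hxx⟩ := hmK u hu
    rw [hxx]
    by_cases h2 : x ∈ J'
    · rw [if_pos h2, if_pos ((hmJ x hx).1 h2)]
    · rw [if_neg h2, if_neg fun h3 => h2 ((hmJ x hx).2 h3)]
  have e6 : ∑ u ∈ K, (2 * (ikp (tlo G T hm) (σ i) u : ℤ)
        - if host u ∈ J' then (ipc u : ℤ) * (ikp (tlo G T hm) (σ i) u : ℤ) else 0)
      = ∑ u ∈ K, (2 * (ikp (tlo G T hm) (σ i) u : ℤ)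
        - if ρ (host u) ∈ J then (ipc u : ℤ) * (ikp (tlo G T hm) (σ i) u : ℤ) else 0) := by
    rw [sum_sub_distrib, sum_sub_distrib, e5]
  have e7 : ∑ j ∈ J, (∑ u ∈ K, (if host u = σ j then
            (ipc u : ℤ) * (ikp (tlo G T hm) (σ i) u : ℤ) else 0))
          * (∑ u ∈ pkf (B (σ i)) (Ps (σ i)), (ipc u : ℤ) * ikp (tlo G T hm) (σ j) u)
      = ∑ j ∈ J, (∑ u ∈ K, (if ρ (host u) = j then
            (ipc u : ℤ) * (ikp (tlo G T hm) (σ i) u : ℤ) else 0))
          * pcn (tlo G T hm) B (σ i) (σ j) := by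
    refine sum_congr rfl fun j hj => ?_
    rw [sum_ipc (tlo G T hm) (σ j) (B (σ i)) (Ps (σ i))]
    have e8 : ∑ u ∈ K, (if host u = σ j then
            (ipc u : ℤ) * (ikp (tlo G T hm) (σ i) u : ℤ) else 0)
        = ∑ u ∈ K, (if ρ (host u) = j then
            (ipc u : ℤ) * (ikp (tlo G T hm) (σ i) u : ℤ) else 0) := by
      refine sum_congr rfl fun u hu => ?_
      obtain ⟨x, hx, -, hxx⟩ := hmK u hu
      rw [hxx]
      by_cases h2 : x = σ j
      · rw [if_pos h2, if_pos ((heJ x hx j (hJ j hj)).1 h2)]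
      · rw [if_neg h2, if_neg fun h3 => h2 ((heJ x hx j (hJ j hj)).2 h3)]
    rw [e8]
    rfl
  rw [e6, e5, e7] at h1
  rw [hfil i hi]
  exact h1

/-- **T++ with Mantel's saving**, all cells `{i, j}`, `j ∈ J`, paid; `a x` any integers -/
theorem WCoreK.rowJM (hp : 2 * r ≤ p) (h : WCoreK G Z T r m n p hm)
    {host : Itm V → V} {ρ : V → ℕ} {σ : ℕ → V}
    (hpk : ∀ x ∈ T, Pk G (cz G Z T hm x) (hz G Z T hm x) (tlo G T hm) (B x) (Ps x))
    (min : ∀ x ∈ T, ∀ B' Ps', Pk G (cz G Z T hm x) (hz G Z T hm x) (tlo G T hm) B' Ps' →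
      (Ps x).card ≤ Ps'.card)
    (hst : ∀ x ∈ T, ∀ u ∈ pkf (B x) (Ps x), host u = x)
    (rk : Rank T (tI G Z T hm r Z) ρ σ) {i : ℕ} (hi : i < n) {J : Finset ℕ} (hJ : ∀ j ∈ J, j < n)
    (hiJ : i ∉ J) {K : Finset (Itm V)}
    (hK : K ⊆ T.biUnion fun x => pkf (B x) (Ps x)) (hKh : ∀ u ∈ K, ρ (host u) ≠ i)
    (h0 : 0 ≤ sI hm r Z (σ i) + ∑ u ∈ K, (ikp (tlo G T hm) (σ i) u : ℤ)) (a : ℕ → ℤ) :
    2 * ((r : ℤ) - 1) * J.card * sI hm r Z (σ i) - (J.card : ℤ) * (J.card - 1) * ((r : ℤ) - 1)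
      - ((∑ j ∈ J, tI G Z T hm r Z (σ j)) ^ 2 - ∑ j ∈ J, tI G Z T hm r Z (σ j) ^ 2)
      + 2 * ∑ u ∈ K, ((ikp (tlo G T hm) (σ i) u : ℤ) * ((r : ℤ) - 1 - tI G Z T hm r Z (σ i))
        - (rmr G (cz G Z T hm) (tlo G T hm) (σ i) u : ℤ))
      + 2 * ∑ j ∈ J, ∑ u ∈ (T.biUnion fun x => pkf (B x) (Ps x)).filter (fun u => ρ (host u) = i),
        ((ikp (tlo G T hm) (σ j) u : ℤ) * ((r : ℤ) - 1 - tI G Z T hm r Z (σ j))
          - (ims G (cz G Z T hm) (tlo G T hm) (σ j) u : ℤ))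
      + 2 * ∑ j ∈ J, (nxk G (cz G Z T hm (σ i)) (hz G Z T hm (σ i)) (tlo G T hm) (B (σ i)) (σ j)
        + pfw G (cz G Z T hm (σ i)) (tlo G T hm) (B (σ i)) (σ j))
      + svM n K (fun u => ρ (host u)) (fun u => (ivl u : ℤ))
          (fun j u => (ikp (tlo G T hm) (σ j) u : ℤ)) (fun u => (ipc u : ℤ)) J i a
      ≤ 2 * eI G hm Z (σ i)
        + 2 * (∑ u ∈ K, (2 * (ikp (tlo G T hm) (σ i) u : ℤ)
            - if ρ (host u) ∈ J then (ipc u : ℤ) * (ikp (tlo G T hm) (σ i) u : ℤ) else 0)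
            + ((J.card : ℤ) * ((r : ℤ) - 1) - ∑ j ∈ J, tI G Z T hm r Z (σ j)))
          * (sI hm r Z (σ i) + 1)
        + (∑ u ∈ K, (2 * (ikp (tlo G T hm) (σ i) u : ℤ)
            - if ρ (host u) ∈ J then (ipc u : ℤ) * (ikp (tlo G T hm) (σ i) u : ℤ) else 0))
          * (∑ u ∈ K, (2 * (ikp (tlo G T hm) (σ i) u : ℤ)
            - if ρ (host u) ∈ J then (ipc u : ℤ) * (ikp (tlo G T hm) (σ i) u : ℤ) else 0) - 1)
        + 2 * ∑ u ∈ K, (if ρ (host u) ∈ J
            then (iar G (cz G Z T hm (host u)) u : ℤ) - (ikp (tlo G T hm) (σ i) u : ℤ)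
              * (∑ j ∈ J, tI G Z T hm r Z (σ j) - tI G Z T hm r Z (host u))
            else 2 * (ikp (tlo G T hm) (σ i) u : ℤ)
              * ((r : ℤ) - 1 - ∑ j ∈ J, tI G Z T hm r Z (σ j)))
        + 2 * ∑ j ∈ J, (∑ u ∈ K, (if ρ (host u) = j then
            (ipc u : ℤ) * (ikp (tlo G T hm) (σ i) u : ℤ) else 0))
          * pcn (tlo G T hm) B (σ i) (σ j) :=
  h.rowJS hp hpk hst rk hi hJ hiJ hK hKh h0 (h.toWHom.NE_svM hpk min hst rk hi hJ hK hKh a)

end WH

end Pool.Agent.Lib.MP_f04ccf_co
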