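import Pool.Agent.Lib.MP_f04ccf_co.M.RowLS
import Pool.Agent.Lib.MP_f04ccf_co.M.RowU
import Pool.Agent.Lib.MP_f04ccf_co.M.SvM

/-!
MP_f04ccf_co, PLAN W: the missing pairs saved among the points used in a row test at levels `g`.

* `SavG`: classes (Turan) and pairs of one host; `SavJ`: the same-host saving, `SavG`, or helper81's `svM`;
* `WCoreK.savL`, `WCoreK.savJ1`: `SavG`; `WCoreK.savJJ`: `SavJ`.
-/

set_option autoImplicit false

namespace Pool.Agent.Lib.MP_f04ccf_co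

open Finset

attribute [local instance] Classical.propDecidable

section Defs

variable {ι : Type*}

/-- **the saving `sv`** of missing pairs in the test of the row `i` with the columns of `J`, used items `K` at
the levels `g`: classes `cl u < M` of the used items, the rows of a class with `q ≠ 0` are in `I`, Turan's
bound with the slope `q` in the class, and one ordered adjacent pair for two items of one host and of
different classes which are used with all their points -/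
def SavG (n : ℕ) (ho : ι → ℕ) (vl : ι → ℤ) (kp : ℕ → ι → ℤ) (pc : ι → ℤ) (g : ι → ℕ)
    (J : Finset ℕ) (K : Finset ι) (sv : ℤ) : Prop :=
  ∃ (cl : ι → ℕ) (M : ℕ) (q : ℕ → ℤ) (I : ℕ → Finset ℕ), (∀ c, I c ⊆ range n) ∧
    (∀ u ∈ K, q (cl u) ≠ 0 → ho u ∈ I (cl u) ∧ ∀ l < n, kp l u ≠ 0 → l ∈ I (cl u)) ∧
    sv ≤ ∑ c ∈ range M, (2 * q c * ∑ u ∈ K.filter (fun u => cl u = c),
          ((g u : ℤ) + 1 - if ho u ∈ J then pc u else 0) - (I c).card * (q c * (q c + 1)))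
        + ((K ×ˢ K).filter fun e => e.1 ≠ e.2 ∧ ho e.1 = ho e.2 ∧ cl e.1 ≠ cl e.2
          ∧ (g e.1 : ℤ) = vl e.1 ∧ (g e.2 : ℤ) = vl e.2
          ∧ (ho e.1 ∈ J → pc e.1 = 0 ∧ pc e.2 = 0)).card

/-- **a saving**: the same-host pairs, `SavG`, or `svM` (all items at full load) -/
def SavJ (n : ℕ) (ho : ι → ℕ) (vl : ι → ℤ) (kp : ℕ → ι → ℤ) (pc : ι → ℤ) (i : ℕ) (g : ι → ℕ)
    (J : Finset ℕ) (K : Finset ι) (sv : ℤ) : Prop :=
  sv ≤ ∑ x ∈ range n,
    ((K.filter fun u => ho u = x ∧ (g u : ℤ) = vl u ∧ (x ∈ J → pc u = 0)).card : ℤ)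
      * (((K.filter fun u => ho u = x ∧ (g u : ℤ) = vl u ∧ (x ∈ J → pc u = 0)).card : ℤ) - 1)
  ∨ SavG n ho vl kp pc g J K sv
  ∨ ((∀ u ∈ K, (g u : ℤ) = kp i u) ∧ ∃ a : ℕ → ℤ, sv ≤ svM n K ho vl kp pc J i a)

end Defs

section Sav

variable {V : Type*} {G : SimpleGraph V} {Z T : Finset V} {hm : V → V} {r m n p : ℕ}
  {B : V → Finset (V × V)} {Ps : V → Finset (Finset V)}

/-- **the saving**: classes of items with few rows, and pairs of items of one host of different classes -/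
theorem WCoreK.savL (h : WCoreK G Z T r m n p hm) {host : Itm V → V}
    (hpk : ∀ x ∈ T, Pk G (cz G Z T hm x) (hz G Z T hm x) (tlo G T hm) (B x) (Ps x))
    (min : ∀ x ∈ T, ∀ B' Ps', Pk G (cz G Z T hm x) (hz G Z T hm x) (tlo G T hm) B' Ps' →
      (Ps x).card ≤ Ps'.card)
    (hst : ∀ x ∈ T, ∀ u ∈ pkf (B x) (Ps x), host u = x)
    {z : V} {J : Finset V} (hJ : J ⊆ T) {K : Finset (Itm V)}
    (hK : K ⊆ (T.erase z).biUnion fun x => pkf (B x) (Ps x))
    {g : Itm V → ℕ} (hg1 : ∀ u ∈ K, 1 ≤ g u) (hg2 : ∀ u ∈ K, g u ≤ ikp (tlo G T hm) z u)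
    {cl : Itm V → ℕ} {M : ℕ} (q : ℕ → ℤ) (I : ℕ → Finset V)
    (hI : ∀ u ∈ K, q (cl u) ≠ 0 → host u ∈ I (cl u)
      ∧ ∀ l, ikp (tlo G T hm) l u ≠ 0 → l ∈ I (cl u)) :
    (NE G (K.biUnion
        (rpts (tlo G T hm) (xlv G (cz G Z T hm) (tlo G T hm) z g) z)
        \ J.biUnion (CP G Z T fun x => Z.filter fun v => hm v = x)) : ℤ)
      + (∑ c ∈ range M, (2 * q c * ∑ u ∈ K.filter (fun u => cl u = c),
          ((g u : ℤ) + 1 - if host u ∈ J then (ipc u : ℤ) else 0)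
          - (I c).card * (q c * (q c + 1)))
        + ((K ×ˢ K).filter fun e => e.1 ≠ e.2 ∧ host e.1 = host e.2 ∧ cl e.1 ≠ cl e.2
          ∧ g e.1 = ivl e.1 ∧ g e.2 = ivl e.2
          ∧ (host e.1 ∈ J → ipc e.1 = 0 ∧ ipc e.2 = 0)).card)
      + (K.biUnion
        (rpts (tlo G T hm) (xlv G (cz G Z T hm) (tlo G T hm) z g) z)
        \ J.biUnion (CP G Z T fun x => Z.filter fun v => hm v = x)).card
      ≤ ((K.biUnion
        (rpts (tlo G T hm) (xlv G (cz G Z T hm) (tlo G T hm) z g) z)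
        \ J.biUnion (CP G Z T fun x => Z.filter fun v => hm v = x)).card : ℤ)
        * (K.biUnion
        (rpts (tlo G T hm) (xlv G (cz G Z T hm) (tlo G T hm) z g) z)
        \ J.biUnion (CP G Z T fun x => Z.filter fun v => hm v = x)).card := by
  have hfam : ∀ x ∈ T, Fam (co G) (cz G Z T hm) (hz G Z T hm) (tlo G T hm) x
      (pkf (B x) (Ps x)) := fun x hx => (hpk x hx).fam (h.csys.dCH hx hx).symm
  obtain ⟨X, hXd⟩ : ∃ X : Finset V → Finset V, X = xlv G (cz G Z T hm) (tlo G T hm) z g :=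
    ⟨_, rfl⟩
  have hX : ∀ Q, X Q ⊆ oth (tlo G T hm) z Q := fun Q => hXd ▸ xlv_sub
  obtain ⟨C, hC⟩ : ∃ C : Finset V, C = J.biUnion (CP G Z T fun x => Z.filter fun v => hm v = x) :=
    ⟨_, rfl⟩
  obtain ⟨P, hP⟩ : ∃ P : Itm V → Finset V, P = fun u => rpts (tlo G T hm) X z u \ C := ⟨_, rfl⟩
  rw [← hXd, ← hC]
  have hk : ∀ u ∈ K, ikp (tlo G T hm) z u ≠ 0 := by
    intro u hu
    have := hg1 u hu
    have := hg2 u hu
    omega
  have hown : ∀ u ∈ K, ∃ x ∈ T, u ∈ pkf (B x) (Ps x) ∧ host u = x := by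
    intro u hu
    obtain ⟨x, hx, hux⟩ := mem_biUnion.1 (hK hu)
    exact ⟨x, mem_of_mem_erase hx, hux, hst x (mem_of_mem_erase hx) u hux⟩
  have hdis : ∀ u ∈ K, ∀ v ∈ K, u ≠ v → Disjoint (P u) (P v) := by
    intro u hu v hv huv
    obtain ⟨x, hx, hux, -⟩ := hown u hu
    obtain ⟨x', hx', hvx, -⟩ := hown v hv
    rw [hP]
    exact ((Fam.dis_row h.wsysT hfam hx hx' hux hvx huv (hk u hu) (hk v hv)).mono
      ((hfam x hx).rpts_sub hX) ((hfam x' hx').rpts_sub hX)).mono sdiff_subset sdiff_subset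
  have hsd : ∀ L' : Finset (Itm V), L'.biUnion (rpts (tlo G T hm) X z) \ C = L'.biUnion P := by
    intro L'
    rw [hP]
    ext v
    simp only [mem_sdiff, mem_biUnion]
    constructor
    · rintro ⟨⟨u, hu, hv⟩, hv'⟩
      exact ⟨u, hu, hv, hv'⟩
    · rintro ⟨u, hu, hv, hv'⟩
      exact ⟨⟨u, hu, hv⟩, hv'⟩
  rw [hsd K]
  obtain ⟨D, hDd⟩ : ∃ D, D = (K ×ˢ K).filter fun e => e.1 ≠ e.2 ∧ host e.1 = host e.2
      ∧ cl e.1 ≠ cl e.2 ∧ g e.1 = ivl e.1 ∧ g e.2 = ivl e.2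
      ∧ (host e.1 ∈ J → ipc e.1 = 0 ∧ ipc e.2 = 0) := ⟨_, rfl⟩
  have hfull : ∀ u ∈ K, g u = ivl u → ikp (tlo G T hm) z u = ivl u := fun u hu h1 =>
    le_antisymm ikp_le_ivl (h1 ▸ hg2 u hu)
  have hful2 : ∀ u ∈ K, g u = ivl u → rpts (tlo G T hm) X z u = ipts u := by
    intro u hu h1
    obtain ⟨x, hx, hux, -⟩ := hown u hu
    have h2 := rpts_full (X := xmn G (cz G Z T hm) (tlo G T hm) z) (fun Q => xmn_sub)
      (fun Q hQ => by rw [xmn_card hQ]) (fun Q hQ => (hfam x hx).two Q (hQ ▸ hux)) (hfull u hu h1)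
    rw [← h2, hXd]
    rcases u with Q | e
    · have h3 : ikp (tlo G T hm) z (Sum.inl Q : Itm V) ≤ g (Sum.inl Q) := by
        rw [hfull _ hu h1, h1]
      simp only [rpts, xlv, h3, if_true]
    · rfl
  have hDD : ∀ e ∈ D, e.1 ∈ K ∧ e.2 ∈ K ∧ cl e.1 ≠ cl e.2 ∧
      ∃ p ∈ P e.1, ∃ q ∈ P e.2, G.Adj p q := by
    intro e he
    rw [hDd] at he
    obtain ⟨h7, h8, h9, h10, h11, h12, h13⟩ := mem_filter.1 he
    obtain ⟨ha, hb⟩ := mem_product.1 h7
    refine ⟨ha, hb, h10, ?_⟩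
    obtain ⟨x, hx, hux, hxx⟩ := hown e.1 ha
    obtain ⟨y, hy, huy, hyy⟩ := hown e.2 hb
    have hxy : x = y := by rw [← hxx, ← hyy, h9]
    subst hxy
    obtain ⟨p, hp, q, hq, hpq⟩ := Pk.adj_full h.F.toPFrame h.hh h.csys h.ht hx (hpk x hx)
      (min x hx) hux huy h8 (hfull _ ha h11) (hfull _ hb h12)
    have hout : ∀ w : Itm V, w ∈ pkf (B x) (Ps x) → (x ∈ J → ipc w = 0) →
        ∀ p ∈ ipts w, p ∉ C := by
      intro w hw hw0 p hp hpj
      rw [hC] at hpj
      obtain ⟨j, hj, hpj2⟩ := mem_biUnion.1 hpj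
      have hjT := hJ hj
      by_cases hxj : x = j
      · have h11 := hw0 (hxj ▸ hj)
        rcases w with Q | f
        · exact disjoint_left.1 (h.wsysT.dHC x hx _ hjT)
            ((hfam x hx).sub Q hw hp) hpj2
        · simp [ipc] at h11
      · have h12 := (hfam x hx).ipts_sub hw hp
        rcases mem_union.1 h12 with h13 | h13
        · exact disjoint_left.1 (h.wsysT.dHC x hx _ hjT) h13 hpj2
        · exact disjoint_left.1 (h.wsysT.dCC x hx _ hjT hxj) h13 hpj2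
    rw [hP]
    simp only
    rw [hful2 _ ha h11, hful2 _ hb h12]
    rw [hxx] at h13
    exact ⟨p, mem_sdiff.2 ⟨hp, hout _ hux (fun h14 => (h13 h14).1) p hp⟩, q,
      mem_sdiff.2 ⟨hq, hout _ huy (fun h14 => (h13 h14).2) q hq⟩, hpq⟩
  have h1 := NE_cls_le (G := G) (K := K) (P := P) hdis (cl := cl) (M := M) hDD
  -- the classes
  have h2 : ∀ c ∈ range M, 2 * q c * ∑ u ∈ K.filter (fun u => cl u = c),
        ((g u : ℤ) + 1 - if host u ∈ J then (ipc u : ℤ) else 0)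
        - (I c).card * (q c * (q c + 1))
      ≤ (E G ((K.filter fun u => cl u = c).biUnion P) : ℤ) := by
    intro c _
    by_cases hq : q c = 0
    · rw [hq]
      simp
    have e2 : ((((K.filter fun u => cl u = c).biUnion P).card : ℕ) : ℤ)
        = ∑ u ∈ K.filter (fun u => cl u = c),
          ((g u : ℤ) + 1 - if host u ∈ J then (ipc u : ℤ) else 0) := by
      rw [card_biUnion fun u hu v hv huv => hdis u (mem_filter.1 hu).1 v (mem_filter.1 hv).1 huv]
      push_cast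
      refine sum_congr rfl fun u hu => ?_
      obtain ⟨x, hx, hux, hxx⟩ := hown u (mem_filter.1 hu).1
      have h3 := Fam.own_levJ h.F.toPFrame h.hh h.csys h.wsysT hfam hx hJ hux
        (hg1 u (mem_filter.1 hu).1) (hg2 u (mem_filter.1 hu).1)
      rw [hP, hxx, ← h3, hXd, hC]
    have h4 := E_add_NE (G := G) ((K.filter fun u => cl u = c).biUnion P)
    have hmem : ∀ v ∈ (K.filter fun u => cl u = c).biUnion P, v ∈ Z ∧ rws G T v ⊆ I c := by
      intro v hv
      obtain ⟨u, hu, hvu⟩ := mem_biUnion.1 hv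
      obtain ⟨huL, huc⟩ := mem_filter.1 hu
      obtain ⟨x, hx, hux, hxx⟩ := hown u huL
      obtain ⟨i1, i2⟩ := hI u huL (by rw [huc]; exact hq)
      rw [huc, hxx] at i1
      rw [huc] at i2
      rw [hP] at hvu
      have h5 := (hfam x hx).rpts_sub hX (mem_sdiff.1 hvu).1
      have h6 := (hfam x hx).ipts_sub hux h5
      rcases mem_union.1 h6 with h7 | h7
      · refine ⟨h.csys.subZ hx (HP_sub h7), ?_⟩
        have h8 : rws G T v = {x, tlo G T hm v} := h.csys.rws_HP h.hh hx h7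
        rw [h8]
        intro j hj
        rcases mem_insert.1 hj with h9 | h9
        · exact h9 ▸ i1
        · rw [mem_singleton.1 h9]
          refine i2 _ (ikp_tail_ne (fun Q hQ => (hfam x hx).two Q (hQ ▸ hux)) ?_)
          rcases u with Q | e
          · exact h5
          · have h10 : v ∈ ({e.1, e.2} : Finset V) := h5
            rcases mem_insert.1 h10 with h11 | h11
            · exact h11 ▸ mem_singleton_self _
            · rw [mem_singleton] at h11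
              exact absurd ((hfam x hx).pcC e hux)
                (fun h12 => disjoint_left.1 (h.wsysT.dHC x hx x hx) h7 (h11 ▸ h12))
      · have h8 : v ∈ Cl G Z T x := (mem_CP.1 h7).2
        refine ⟨((mem_Cl_iff_rws hx).1 h8).1, ?_⟩
        rw [rws_Cl hx h8, singleton_subset_iff]
        exact i1
    have h5 := h.F.toPFrame.NE_rows (I := I c) (fun v hv => (hmem v hv).1)
      (fun v hv => (hmem v hv).2) (q c)
    rw [e2] at h5 h4
    linarith
  have h3 := sum_le_sum h2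
  rw [← hDd]
  linarith

/-- **the numbers `SavI` are savings** -/
theorem WCoreK.savJ1 (h : WCoreK G Z T r m n p hm)
    {host : Itm V → V} {ρ : V → ℕ} {σ : ℕ → V}
    (hpk : ∀ x ∈ T, Pk G (cz G Z T hm x) (hz G Z T hm x) (tlo G T hm) (B x) (Ps x))
    (min : ∀ x ∈ T, ∀ B' Ps', Pk G (cz G Z T hm x) (hz G Z T hm x) (tlo G T hm) B' Ps' →
      (Ps x).card ≤ Ps'.card)
    (hst : ∀ x ∈ T, ∀ u ∈ pkf (B x) (Ps x), host u = x)
    (rk : Rank T (tI G Z T hm r Z) ρ σ) {i : ℕ} (hi : i < n) {J : Finset ℕ} (hJ : ∀ j ∈ J, j < n)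
    {K : Finset (Itm V)}
    (hK : K ⊆ T.biUnion fun x => pkf (B x) (Ps x)) (hKh : ∀ u ∈ K, ρ (host u) ≠ i)
    {g : Itm V → ℕ} (hg1 : ∀ u ∈ K, 1 ≤ g u) (hg2 : ∀ u ∈ K, g u ≤ ikp (tlo G T hm) (σ i) u)
    {sv : ℤ}
    (hS : SavG n (fun u => ρ (host u)) (fun u => (ivl u : ℤ))
      (fun i u => (ikp (tlo G T hm) (σ i) u : ℤ)) (fun u => (ipc u : ℤ)) g J K sv) :
    (NE G (K.biUnion
        (rpts (tlo G T hm) (xlv G (cz G Z T hm) (tlo G T hm) (σ i) g) (σ i))
        \ (J.image σ).biUnion (CP G Z T fun x => Z.filter fun v => hm v = x)) : ℤ) + sv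
      + (K.biUnion
        (rpts (tlo G T hm) (xlv G (cz G Z T hm) (tlo G T hm) (σ i) g) (σ i))
        \ (J.image σ).biUnion (CP G Z T fun x => Z.filter fun v => hm v = x)).card
      ≤ ((K.biUnion
        (rpts (tlo G T hm) (xlv G (cz G Z T hm) (tlo G T hm) (σ i) g) (σ i))
        \ (J.image σ).biUnion (CP G Z T fun x => Z.filter fun v => hm v = x)).card : ℤ)
        * (K.biUnion
        (rpts (tlo G T hm) (xlv G (cz G Z T hm) (tlo G T hm) (σ i) g) (σ i))
        \ (J.image σ).biUnion (CP G Z T fun x => Z.filter fun v => hm v = x)).card := by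
  have hcard := h.toWHom.cardT
  have hfam : ∀ x ∈ T, Fam (co G) (cz G Z T hm) (hz G Z T hm) (tlo G T hm) x
      (pkf (B x) (Ps x)) := fun x hx => (hpk x hx).fam (h.csys.dCH hx hx).symm
  have hmem : ∀ i < n, σ i ∈ T := fun i hi => rk.mem i (by rw [hcard]; exact hi)
  have hmK : ∀ u ∈ K, ∃ x ∈ T, u ∈ pkf (B x) (Ps x) ∧ host u = x := by
    intro u hu
    obtain ⟨x, hx, hux⟩ := mem_biUnion.1 (hK hu)
    exact ⟨x, hx, hux, hst x hx u hux⟩
  have hK' : K ⊆ (T.erase (σ i)).biUnion fun x => pkf (B x) (Ps x) := by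
    intro u hu
    obtain ⟨x, hx, hux⟩ := mem_biUnion.1 (hK hu)
    refine mem_biUnion.2 ⟨x, mem_erase.2 ⟨fun h1 => hKh u hu ?_, hx⟩, hux⟩
    show ρ (host u) = i
    rw [hst x hx u hux, h1]
    exact rk.right i (by rw [hcard]; exact hi)
  have hJT : J.image σ ⊆ T := by
    intro x hx
    obtain ⟨j, hj, rfl⟩ := mem_image.1 hx
    exact hmem j (hJ j hj)
  have hmJ : ∀ x ∈ T, (x ∈ J.image σ ↔ ρ x ∈ J) := by
    intro x hx
    rw [mem_image]
    constructor
    · rintro ⟨j, hj, rfl⟩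
      rw [rk.right j (by rw [hcard]; exact hJ j hj)]
      exact hj
    · intro h1
      exact ⟨ρ x, h1, rk.left x hx⟩
  unfold SavG at hS
  beta_reduce at hS
  obtain ⟨cl, M, q, I, hI, hI2, hsv⟩ := hS
  have hT : ∀ u ∈ K, ∀ y, ikp (tlo G T hm) y u ≠ 0 → ρ y < n ∧ σ (ρ y) = y := by
    intro u hu y hy
    obtain ⟨x, hx, hux, -⟩ := hmK u hu
    obtain ⟨v, hv, hvy⟩ := ikp_ne_tail (fun Q hQ => (hfam x hx).two Q (hQ ▸ hux)) hy
    have hvH : v ∈ hz G Z T hm x := by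
      rcases u with Q | e
      · exact (hfam x hx).sub Q hux hv
      · simp only [imem, mem_singleton] at hv
        exact hv ▸ (hfam x hx).pcH e hux
    have h5 := mem_of_mem_erase (h.toWHom.ht x hx v hvH)
    rw [hvy] at h5
    exact ⟨by rw [← hcard]; exact rk.lt y h5, rk.left y h5⟩
  have h1 := h.savL hpk min hst hJT hK' hg1 hg2 (cl := cl) (M := M) q (fun c => (I c).image σ)
    (fun u hu hq => by
      obtain ⟨h2, h3⟩ := hI2 u hu hq
      obtain ⟨x, hx, hux, hxx⟩ := hmK u hu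
      refine ⟨mem_image.2 ⟨ρ (host u), h2, by rw [hxx]; exact rk.left x hx⟩, fun y hy => ?_⟩
      obtain ⟨b1, b2⟩ := hT u hu y hy
      refine mem_image.2 ⟨ρ y, h3 (ρ y) b1 ?_, b2⟩
      show (ikp (tlo G T hm) (σ (ρ y)) u : ℤ) ≠ 0
      rw [b2]
      exact_mod_cast hy)
  have e1 : ∀ c, ((I c).image σ).card = (I c).card := fun c => rk.card_image (by
    rw [hcard]
    exact hI c)
  have e2 : ∀ c, ∑ u ∈ K.filter (fun u => cl u = c),
        ((g u : ℤ) + 1 - if host u ∈ J.image σ then (ipc u : ℤ) else 0)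
      = ∑ u ∈ K.filter (fun u => cl u = c),
        ((g u : ℤ) + 1 - if ρ (host u) ∈ J then (ipc u : ℤ) else 0) := by
    intro c
    refine sum_congr rfl fun u hu => ?_
    obtain ⟨x, hx, -, hxx⟩ := hmK u (mem_filter.1 hu).1
    rw [hxx]
    by_cases h3 : x ∈ J.image σ
    · rw [if_pos h3, if_pos ((hmJ x hx).1 h3)]
    · rw [if_neg h3, if_neg fun h4 => h3 ((hmJ x hx).2 h4)]
  have e3 : (K ×ˢ K).filter (fun e => e.1 ≠ e.2 ∧ host e.1 = host e.2 ∧ cl e.1 ≠ cl e.2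
          ∧ g e.1 = ivl e.1 ∧ g e.2 = ivl e.2
          ∧ (host e.1 ∈ J.image σ → ipc e.1 = 0 ∧ ipc e.2 = 0))
      = (K ×ˢ K).filter fun e => e.1 ≠ e.2 ∧ ρ (host e.1) = ρ (host e.2) ∧ cl e.1 ≠ cl e.2
          ∧ (g e.1 : ℤ) = (ivl e.1 : ℤ)
          ∧ (g e.2 : ℤ) = (ivl e.2 : ℤ)
          ∧ (ρ (host e.1) ∈ J → (ipc e.1 : ℤ) = 0 ∧ (ipc e.2 : ℤ) = 0) := by
    refine filter_congr fun e he => ?_
    obtain ⟨ha, hb⟩ := mem_product.1 he
    obtain ⟨x, hx, -, hxx⟩ := hmK e.1 ha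
    obtain ⟨y, hy, -, hyy⟩ := hmK e.2 hb
    rw [hxx, hyy, hmJ x hx, Int.natCast_inj, Int.natCast_inj, Int.natCast_eq_zero,
      Int.natCast_eq_zero]
    have h2 : x = y ↔ ρ x = ρ y := by
      constructor
      · exact fun h3 => by rw [h3]
      · intro h3
        rw [← rk.left x hx, h3, rk.left y hy]
    rw [h2]
  simp only [e1, e2] at h1
  rw [e3] at h1
  refine le_trans (add_le_add (add_le_add le_rfl (hsv.trans (le_of_eq ?_))) le_rfl) h1
  refine congrArg₂ (· + ·) rfl (congrArg (fun s : Finset (Itm V × Itm V) => (s.card : ℤ)) ?_)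
  exact Finset.ext fun e => by simp only [mem_filter]

/-- **the savings at the levels `g`** -/
theorem WCoreK.savJJ (h : WCoreK G Z T r m n p hm)
    {host : Itm V → V} {ρ : V → ℕ} {σ : ℕ → V}
    (hpk : ∀ x ∈ T, Pk G (cz G Z T hm x) (hz G Z T hm x) (tlo G T hm) (B x) (Ps x))
    (min : ∀ x ∈ T, ∀ B' Ps', Pk G (cz G Z T hm x) (hz G Z T hm x) (tlo G T hm) B' Ps' →
      (Ps x).card ≤ Ps'.card)
    (hst : ∀ x ∈ T, ∀ u ∈ pkf (B x) (Ps x), host u = x)
    (rk : Rank T (tI G Z T hm r Z) ρ σ) {i : ℕ} (hi : i < n) {J : Finset ℕ} (hJ : ∀ j ∈ J, j < n)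
    {K : Finset (Itm V)}
    (hK : K ⊆ T.biUnion fun x => pkf (B x) (Ps x)) (hKh : ∀ u ∈ K, ρ (host u) ≠ i)
    {g : Itm V → ℕ} (hg1 : ∀ u ∈ K, 1 ≤ g u) (hg2 : ∀ u ∈ K, g u ≤ ikp (tlo G T hm) (σ i) u)
    {sv : ℤ}
    (hS : SavJ n (fun u => ρ (host u)) (fun u => (ivl u : ℤ))
      (fun i u => (ikp (tlo G T hm) (σ i) u : ℤ)) (fun u => (ipc u : ℤ)) i g J K sv) :
    (NE G (K.biUnion
        (rpts (tlo G T hm) (xlv G (cz G Z T hm) (tlo G T hm) (σ i) g) (σ i))
        \ (J.image σ).biUnion (CP G Z T fun x => Z.filter fun v => hm v = x)) : ℤ) + sv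
      + (K.biUnion
        (rpts (tlo G T hm) (xlv G (cz G Z T hm) (tlo G T hm) (σ i) g) (σ i))
        \ (J.image σ).biUnion (CP G Z T fun x => Z.filter fun v => hm v = x)).card
      ≤ ((K.biUnion
        (rpts (tlo G T hm) (xlv G (cz G Z T hm) (tlo G T hm) (σ i) g) (σ i))
        \ (J.image σ).biUnion (CP G Z T fun x => Z.filter fun v => hm v = x)).card : ℤ)
        * (K.biUnion
        (rpts (tlo G T hm) (xlv G (cz G Z T hm) (tlo G T hm) (σ i) g) (σ i))
        \ (J.image σ).biUnion (CP G Z T fun x => Z.filter fun v => hm v = x)).card := by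
  rcases hS with hS | hS | ⟨hg, a, hS⟩
  · -- the same-host saving, classes are the items
    obtain ⟨cl, hcl⟩ := Set.countable_iff_exists_injOn.1 (K.countable_toSet)
    refine h.savJ1 hpk min hst rk hi hJ hK hKh hg1 hg2
      ⟨cl, 0, fun _ => 0, fun _ => ∅, fun _ => empty_subset _, fun u _ h0 => absurd rfl h0, ?_⟩
    refine hS.trans ?_
    obtain ⟨F, hF⟩ : ∃ F, F = K.filter fun u => (g u : ℤ) = (ivl u : ℤ)
      ∧ (ρ (host u) ∈ J → (ipc u : ℤ) = 0) := ⟨_, rfl⟩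
    have e3 : ∀ x, (K.filter fun u => ρ (host u) = x
          ∧ (g u : ℤ) = (ivl u : ℤ) ∧ (x ∈ J → (ipc u : ℤ) = 0))
        = F.filter fun u => ρ (host u) = x := by
      intro x
      ext u
      simp only [hF, mem_filter]
      constructor
      · rintro ⟨h1, h2, h3, h4⟩
        exact ⟨⟨h1, h3, fun h5 => h4 (h2 ▸ h5)⟩, h2⟩
      · rintro ⟨⟨h1, h3, h4⟩, h2⟩
        exact ⟨h1, h2, h3, fun h5 => h4 (h2.symm ▸ h5)⟩
    simp only [e3]
    rw [← card_same F (fun u => ρ (host u)) (range n) fun u hu => by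
      rw [hF] at hu
      obtain ⟨x, hx, hux⟩ := mem_biUnion.1 (hK (mem_filter.1 hu).1)
      show ρ (host u) ∈ range n
      rw [hst x hx u hux]
      have := rk.lt x hx
      rw [h.toWHom.cardT] at this
      exact mem_range.2 this]
    rw [range_zero, sum_empty, zero_add]
    refine Int.ofNat_le.2 (card_le_card fun e he => ?_)
    simp only [mem_filter, mem_product, hF] at he ⊢
    obtain ⟨⟨⟨a1, a2, a3⟩, b1, b2, b3⟩, c1, c2⟩ := he
    refine ⟨⟨a1, b1⟩, c1, c2, fun h5 => c1 (hcl a1 b1 h5), a2, b2, fun h5 => ⟨a3 h5, b3 ?_⟩⟩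
    exact c2 ▸ h5
  · exact h.savJ1 hpk min hst rk hi hJ hK hKh hg1 hg2 hS
  · -- `svM`
    have h1 := h.toWHom.NE_svX hpk min hst rk hi hJ hK hKh
      (X := xmn G (cz G Z T hm) (tlo G T hm) (σ i)) (fun Q => xmn_sub)
      (fun Q hQ => by rw [xmn_card hQ]) a
    have h2 : K.filter (fun u => ikp (tlo G T hm) (σ i) u ≠ 0) = K := by
      rw [filter_eq_self]
      intro u hu
      have := hg1 u hu
      have := hg2 u hu
      omega
    have h3 : K.biUnion (rpts (tlo G T hm) (xlv G (cz G Z T hm) (tlo G T hm) (σ i) g) (σ i))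
        = K.biUnion (rpts (tlo G T hm) (xmn G (cz G Z T hm) (tlo G T hm) (σ i)) (σ i)) := by
      ext v
      simp only [mem_biUnion]
      refine exists_congr fun u => and_congr_right fun hu => ?_
      rcases u with Q | e
      · have h3 : ikp (tlo G T hm) (σ i) (Sum.inl Q : Itm V) ≤ g (Sum.inl Q) := by
          have h4 : (g (Sum.inl Q) : ℤ) = ikp (tlo G T hm) (σ i) (Sum.inl Q : Itm V) := hg _ hu
          exact_mod_cast h4.ge
        simp only [rpts, xlv, h3, if_true]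
      · rfl
    rw [h2] at h1
    rw [h3]
    linarith

end Sav

end Pool.Agent.Lib.MP_f04ccf_co
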