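import Pool.Agent.Lib.MP_f04ccf_co.M.CellLT
import Pool.Agent.Lib.MP_f04ccf_co.M.SavX

/-!
MP_f04ccf_co, PLAN W: **the cell test for all items at any levels over the row indices**, for ANY packings
with the least number of parts (versions [B] and [C]); misses `mn`, rectangles as in `CellLT`, savings by
classes.

* `SavK`: the savings in the cell test; `SavK.zero`, `SavK.tur`, `SavK.prs`: special cases;
* `WCoreK.savK`: they are savings; `WCoreK.cellLU`: the field.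
-/

set_option autoImplicit false

namespace Pool.Agent.Lib.MP_f04ccf_co

open Finset

attribute [local instance] Classical.propDecidable

section Defs

variable {ι : Type*}

/-- **the saving `sv`** of missing pairs in the cell test `{i, j}`, used items `K` of `i` at the levels `g` and
`K'` of `j` at the levels `g'`: classes `cl u < M` of the used items, the rows of a class with `q ≠ 0` are in
`I`, Turan's bound with the slope `q` in the class, and one ordered adjacent pair for two items of one host, of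
different classes, no PC pairs, used with all their points -/
def SavK (n : ℕ) (vl : ι → ℤ) (kp : ℕ → ι → ℤ) (pc : ι → ℤ) (i j : ℕ) (g g' : ι → ℕ)
    (K K' : Finset ι) (sv : ℤ) : Prop :=
  ∃ (cl : ι → ℕ) (M : ℕ) (q : ℕ → ℤ) (I : ℕ → Finset ℕ), (∀ c, I c ⊆ range n) ∧
    (∀ u ∈ K, q (cl u) ≠ 0 → i ∈ I (cl u) ∧ ∀ l < n, kp l u ≠ 0 → l ∈ I (cl u)) ∧
    (∀ u ∈ K', q (cl u) ≠ 0 → j ∈ I (cl u) ∧ ∀ l < n, kp l u ≠ 0 → l ∈ I (cl u)) ∧
    sv ≤ ∑ c ∈ range M, (2 * q c * (∑ u ∈ K.filter (fun u => cl u = c), ((g u : ℤ) + 1 - pc u)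
          + ∑ u ∈ K'.filter (fun u => cl u = c), ((g' u : ℤ) + 1 - pc u))
        - (I c).card * (q c * (q c + 1)))
      + (((K ×ˢ K).filter fun e => e.1 ≠ e.2 ∧ cl e.1 ≠ cl e.2
          ∧ (g e.1 : ℤ) = vl e.1 ∧ (g e.2 : ℤ) = vl e.2 ∧ pc e.1 = 0 ∧ pc e.2 = 0).card
        + ((K' ×ˢ K').filter fun e => e.1 ≠ e.2 ∧ cl e.1 ≠ cl e.2
          ∧ (g' e.1 : ℤ) = vl e.1 ∧ (g' e.2 : ℤ) = vl e.2 ∧ pc e.1 = 0 ∧ pc e.2 = 0).card)

/-- no saving -/
lemma SavK.zero {n : ℕ} {vl : ι → ℤ} {kp : ℕ → ι → ℤ} {pc : ι → ℤ} {i j : ℕ} {g g' : ι → ℕ}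
    {K K' : Finset ι} {sv : ℤ} (h : sv ≤ 0) : SavK n vl kp pc i j g g' K K' sv := by
  refine ⟨fun _ => 0, 0, fun _ => 0, fun _ => ∅, fun _ => empty_subset _,
    fun u _ h1 => absurd rfl h1, fun u _ h1 => absurd rfl h1, ?_⟩
  rw [range_zero, sum_empty, zero_add]
  exact h.trans (by positivity)

/-- Turan's bound for all used items -/
lemma SavK.tur {n : ℕ} {vl : ι → ℤ} {kp : ℕ → ι → ℤ} {pc : ι → ℤ} {i j : ℕ} {g g' : ι → ℕ}
    {K K' : Finset ι} {sv : ℤ} {I : Finset ℕ} (hI : I ⊆ range n) (hi : i ∈ I) (hj : j ∈ I)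
    (h1 : ∀ u ∈ K, ∀ l < n, kp l u ≠ 0 → l ∈ I) (h2 : ∀ u ∈ K', ∀ l < n, kp l u ≠ 0 → l ∈ I)
    (q : ℤ) (h : sv ≤ 2 * q * (∑ u ∈ K, ((g u : ℤ) + 1 - pc u) + ∑ u ∈ K', ((g' u : ℤ) + 1 - pc u))
      - I.card * (q * (q + 1))) : SavK n vl kp pc i j g g' K K' sv := by
  refine ⟨fun _ => 0, 1, fun _ => q, fun _ => I, fun _ => hI,
    fun u hu _ => ⟨hi, h1 u hu⟩, fun u hu _ => ⟨hj, h2 u hu⟩, ?_⟩
  rw [range_one, sum_singleton, filter_true_of_mem fun _ _ => rfl, filter_true_of_mem fun _ _ => rfl]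
  refine h.trans ?_
  have h3 : (0 : ℤ) ≤ ((((K ×ˢ K).filter fun e => e.1 ≠ e.2 ∧ (0 : ℕ) ≠ 0
          ∧ (g e.1 : ℤ) = vl e.1 ∧ (g e.2 : ℤ) = vl e.2 ∧ pc e.1 = 0 ∧ pc e.2 = 0).card : ℕ) : ℤ) :=
    Nat.cast_nonneg _
  have h4 : (0 : ℤ) ≤ ((((K' ×ˢ K').filter fun e => e.1 ≠ e.2 ∧ (0 : ℕ) ≠ 0
          ∧ (g' e.1 : ℤ) = vl e.1 ∧ (g' e.2 : ℤ) = vl e.2 ∧ pc e.1 = 0 ∧ pc e.2 = 0).card : ℕ) : ℤ) :=
    Nat.cast_nonneg _
  linarith

/-- ordered pairs of different elements -/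
lemma card_offd (F : Finset ι) :
    (((F ×ˢ F).filter fun e => e.1 ≠ e.2).card : ℤ) = (F.card : ℤ) * (F.card - 1) := by
  have h1 : (F ×ˢ F).filter (fun e => e.1 ≠ e.2) = F.offDiag := by
    ext e
    rw [mem_filter, mem_product, mem_offDiag]
    tauto
  rw [h1, offDiag_card, Nat.cast_sub (Nat.le_mul_self _)]
  push_cast
  ring

/-- the pairs of one host: the items without PC pairs used with all their points -/
lemma SavK.prs {n : ℕ} {vl : ι → ℤ} {kp : ℕ → ι → ℤ} {pc : ι → ℤ} {i j : ℕ} {g g' : ι → ℕ}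
    {K K' : Finset ι} {sv : ℤ}
    (h : sv ≤ ((K.filter fun u => (g u : ℤ) = vl u ∧ pc u = 0).card : ℤ)
        * ((K.filter fun u => (g u : ℤ) = vl u ∧ pc u = 0).card - 1)
      + ((K'.filter fun u => (g' u : ℤ) = vl u ∧ pc u = 0).card : ℤ)
        * ((K'.filter fun u => (g' u : ℤ) = vl u ∧ pc u = 0).card - 1)) :
    SavK n vl kp pc i j g g' K K' sv := by
  obtain ⟨cl, hcl⟩ : ∃ cl : ι → ℕ, ∀ u ∈ K ∪ K', ∀ v ∈ K ∪ K', cl u = cl v → u = v := by
    have e := (K ∪ K').equivFin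
    refine ⟨fun u => if hu : u ∈ K ∪ K' then (e ⟨u, hu⟩ : ℕ) else 0, fun u hu v hv huv => ?_⟩
    simp only [hu, hv, dif_pos] at huv
    have h1 := e.injective (Fin.ext huv)
    exact congrArg Subtype.val h1
  refine ⟨cl, 0, fun _ => 0, fun _ => ∅, fun _ => empty_subset _,
    fun u _ h1 => absurd rfl h1, fun u _ h1 => absurd rfl h1, ?_⟩
  rw [range_zero, sum_empty, zero_add]
  refine h.trans (le_of_eq ?_)
  have key : ∀ (L : Finset ι) (f : ι → ℕ), L ⊆ K ∪ K' →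
      (((L ×ˢ L).filter fun e => e.1 ≠ e.2 ∧ cl e.1 ≠ cl e.2
          ∧ (f e.1 : ℤ) = vl e.1 ∧ (f e.2 : ℤ) = vl e.2 ∧ pc e.1 = 0 ∧ pc e.2 = 0).card : ℤ)
        = ((L.filter fun u => (f u : ℤ) = vl u ∧ pc u = 0).card : ℤ)
          * ((L.filter fun u => (f u : ℤ) = vl u ∧ pc u = 0).card - 1) := by
    intro L f hL
    rw [← card_offd]
    congr 2
    ext e
    simp only [mem_filter, mem_product]
    constructor
    · rintro ⟨⟨a, b⟩, c, -, d1, d2, d3, d4⟩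
      exact ⟨⟨⟨a, d1, d3⟩, b, d2, d4⟩, c⟩
    · rintro ⟨⟨⟨a, d1, d3⟩, b, d2, d4⟩, c⟩
      exact ⟨⟨a, b⟩, c, fun h1 => c (hcl _ (hL a) _ (hL b) h1), d1, d2, d3, d4⟩
  rw [key K g subset_union_left, key K' g' subset_union_right]

end Defs

section SavK

variable {V : Type*} {G : SimpleGraph V} {Z T : Finset V} {hm : V → V} {r m n p : ℕ}
  {B : V → Finset (V × V)} {Ps : V → Finset (Finset V)}

/-- **the numbers `SavK` are savings** -/
theorem WCoreK.savK (h : WCoreK G Z T r m n p hm)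
    (hpk : ∀ x ∈ T, Pk G (cz G Z T hm x) (hz G Z T hm x) (tlo G T hm) (B x) (Ps x))
    (hmin : ∀ x ∈ T, ∀ B' Ps', Pk G (cz G Z T hm x) (hz G Z T hm x) (tlo G T hm) B' Ps' →
      (Ps x).card ≤ Ps'.card)
    {x z : V} (hx : x ∈ T) (hz' : z ∈ T) (hxz : x ≠ z) {K K' : Finset (Itm V)}
    (hK : K ⊆ pkf (B x) (Ps x)) (hK' : K' ⊆ pkf (B z) (Ps z)) {g g' : Itm V → ℕ}
    (hg1 : ∀ u ∈ K, 1 ≤ g u) (hg2 : ∀ u ∈ K, g u ≤ ikp (tlo G T hm) z u)
    (hg1' : ∀ u ∈ K', 1 ≤ g' u) (hg2' : ∀ u ∈ K', g' u ≤ ikp (tlo G T hm) x u)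
    {cl : Itm V → ℕ} {M : ℕ} (q : ℕ → ℤ) (I : ℕ → Finset V)
    (hI : ∀ u ∈ K, q (cl u) ≠ 0 → x ∈ I (cl u)
      ∧ ∀ l, ikp (tlo G T hm) l u ≠ 0 → l ∈ I (cl u))
    (hI' : ∀ u ∈ K', q (cl u) ≠ 0 → z ∈ I (cl u)
      ∧ ∀ l, ikp (tlo G T hm) l u ≠ 0 → l ∈ I (cl u)) :
    (NE G (cpl G (cz G Z T hm) (tlo G T hm) g K x z
          ∪ cpl G (cz G Z T hm) (tlo G T hm) g' K' z x) : ℤ)
      + (∑ c ∈ range M, (2 * q c * (∑ u ∈ K.filter (fun u => cl u = c), ((g u : ℤ) + 1 - ipc u)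
            + ∑ u ∈ K'.filter (fun u => cl u = c), ((g' u : ℤ) + 1 - ipc u))
          - (I c).card * (q c * (q c + 1)))
        + (((K ×ˢ K).filter fun e => e.1 ≠ e.2 ∧ cl e.1 ≠ cl e.2
            ∧ g e.1 = ivl e.1 ∧ g e.2 = ivl e.2 ∧ ipc e.1 = 0 ∧ ipc e.2 = 0).card
          + ((K' ×ˢ K').filter fun e => e.1 ≠ e.2 ∧ cl e.1 ≠ cl e.2
            ∧ g' e.1 = ivl e.1 ∧ g' e.2 = ivl e.2 ∧ ipc e.1 = 0 ∧ ipc e.2 = 0).card))
      + (cpl G (cz G Z T hm) (tlo G T hm) g K x z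
          ∪ cpl G (cz G Z T hm) (tlo G T hm) g' K' z x).card
      ≤ ((cpl G (cz G Z T hm) (tlo G T hm) g K x z
          ∪ cpl G (cz G Z T hm) (tlo G T hm) g' K' z x).card : ℤ)
        * (cpl G (cz G Z T hm) (tlo G T hm) g K x z
          ∪ cpl G (cz G Z T hm) (tlo G T hm) g' K' z x).card := by
  have hfam : ∀ x ∈ T, Fam (co G) (cz G Z T hm) (hz G Z T hm) (tlo G T hm) x
      (pkf (B x) (Ps x)) := fun x hx => (hpk x hx).fam (h.csys.dCH hx hx).symm
  have hk : ∀ u ∈ K, ikp (tlo G T hm) z u ≠ 0 := by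
    intro u hu
    have := hg1 u hu
    have := hg2 u hu
    omega
  have hk' : ∀ u ∈ K', ikp (tlo G T hm) x u ≠ 0 := by
    intro u hu
    have := hg1' u hu
    have := hg2' u hu
    omega
  -- one home
  have key : ∀ (x z : V), x ∈ T → z ∈ T → ∀ (K : Finset (Itm V)) (g : Itm V → ℕ),
      K ⊆ pkf (B x) (Ps x) → (∀ u ∈ K, 1 ≤ g u) → (∀ u ∈ K, g u ≤ ikp (tlo G T hm) z u) →
      (∀ u ∈ K, ikp (tlo G T hm) z u ≠ 0) →
      (cpl G (cz G Z T hm) (tlo G T hm) g K x z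
        = K.biUnion fun u => cpl G (cz G Z T hm) (tlo G T hm) g {u} x z) ∧
      (∀ u ∈ K, ∀ v ∈ K, u ≠ v → Disjoint (cpl G (cz G Z T hm) (tlo G T hm) g {u} x z)
        (cpl G (cz G Z T hm) (tlo G T hm) g {v} x z)) ∧
      (∀ u ∈ K, ((cpl G (cz G Z T hm) (tlo G T hm) g {u} x z).card : ℤ) = (g u : ℤ) + 1 - ipc u) ∧
      (∀ u ∈ K, ∀ v ∈ cpl G (cz G Z T hm) (tlo G T hm) g {u} x z, v ∈ hz G Z T hm x) ∧
      (∀ u ∈ K, ∀ v ∈ cpl G (cz G Z T hm) (tlo G T hm) g {u} x z,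
        v ∈ Z ∧ ∀ I : Finset V, x ∈ I → (∀ l, ikp (tlo G T hm) l u ≠ 0 → l ∈ I) →
          rws G T v ⊆ I) ∧
      (∀ u ∈ K, ∀ v ∈ K, u ≠ v → g u = ivl u → g v = ivl v → ipc u = 0 → ipc v = 0 →
        ∃ p ∈ cpl G (cz G Z T hm) (tlo G T hm) g {u} x z,
          ∃ q ∈ cpl G (cz G Z T hm) (tlo G T hm) g {v} x z, G.Adj p q) := by
    intro x z hx hz K g hK hg1 hg2 hk
    have hone : ∀ u, cpl G (cz G Z T hm) (tlo G T hm) g {u} x z
        = rpts (tlo G T hm) (xlv G (cz G Z T hm) (tlo G T hm) z g) z u \ cz G Z T hm x := by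
      intro u
      unfold cpl
      rw [singleton_biUnion]
    have hsub : ∀ u ∈ K, ({u} : Finset (Itm V)) ⊆ pkf (B x) (Ps x) := fun u hu =>
      singleton_subset_iff.2 (hK hu)
    refine ⟨?_, ?_, ?_, ?_, ?_, ?_⟩
    · simp only [hone]
      unfold cpl
      ext v
      simp only [mem_sdiff, mem_biUnion]
      constructor
      · rintro ⟨⟨u, hu, hv⟩, hv'⟩
        exact ⟨u, hu, hv, hv'⟩
      · rintro ⟨u, hu, hv, hv'⟩
        exact ⟨⟨u, hu, hv⟩, hv'⟩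
    · intro u hu v hv huv
      rw [hone, hone]
      exact ((Fam.dis_row h.wsysT hfam hx hx (hK hu) (hK hv) huv (hk u hu) (hk v hv)).mono
        ((hfam x hx).rpts_sub fun Q => xlv_sub)
        ((hfam x hx).rpts_sub fun Q => xlv_sub)).mono sdiff_subset sdiff_subset
    · intro u hu
      have h1 := (Fam.own_sumsL h.F.toPFrame h.hh h.csys h.wsysT hfam hx (hsub u hu) (z := z)
        (g := g) (fun v hv => by rw [mem_singleton.1 hv]; exact hg1 u hu)
        (fun v hv => by rw [mem_singleton.1 hv]; exact hg2 u hu)).1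
      rw [sum_singleton] at h1
      exact h1
    · intro u hu v hv
      exact (Fam.cpl_mem h.wsysT hfam hx (hsub u hu) hv).1
    · intro u hu v hv
      obtain ⟨c1, w, hw, c2⟩ := Fam.cpl_mem h.wsysT hfam hx (hsub u hu) hv
      rw [mem_singleton.1 hw] at c2
      refine ⟨h.csys.subZ hx (HP_sub c1), fun I hxI hI => ?_⟩
      have h8 : rws G T v = {x, tlo G T hm v} := h.csys.rws_HP h.hh hx c1
      rw [h8]
      intro j hj
      rcases mem_insert.1 hj with h9 | h9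
      · exact h9 ▸ hxI
      · rw [mem_singleton.1 h9]
        exact hI _ c2
    · intro u hu v hv huv hgu hgv hpu hpv
      have hfull : ∀ u ∈ K, g u = ivl u → ikp (tlo G T hm) z u = ivl u := fun u hu h1 =>
        le_antisymm ikp_le_ivl (h1 ▸ hg2 u hu)
      have hful2 : ∀ u ∈ K, g u = ivl u →
          rpts (tlo G T hm) (xlv G (cz G Z T hm) (tlo G T hm) z g) z u = ipts u := by
        intro u hu h1
        have h2 := rpts_full (X := xmn G (cz G Z T hm) (tlo G T hm) z) (fun Q => xmn_sub)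
          (fun Q hQ => by rw [xmn_card hQ]) (fun Q hQ => (hfam x hx).two Q (hQ ▸ hK hu))
          (hfull u hu h1)
        rw [← h2]
        rcases u with Q | e
        · have h3 : ikp (tlo G T hm) z (Sum.inl Q : Itm V) ≤ g (Sum.inl Q) := by
            rw [hfull _ hu h1, h1]
          simp only [rpts, xlv, h3, if_true]
        · rfl
      obtain ⟨p, hp, q, hq, hpq⟩ := Pk.adj_full h.F.toPFrame h.hh h.csys h.ht hx (hpk x hx)
        (hmin x hx) (hK hu) (hK hv) huv (hfull _ hu hgu) (hfull _ hv hgv)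
      have hout : ∀ w ∈ K, ipc w = 0 → ∀ p ∈ ipts w, p ∉ cz G Z T hm x := by
        intro w hw hw0 p hp hpj
        rcases w with Q | f
        · exact disjoint_left.1 (h.csys.dCH hx hx) hpj ((hfam x hx).sub Q (hK hw) hp)
        · simp [ipc] at hw0
      rw [hone, hone]
      exact ⟨p, mem_sdiff.2 ⟨by rw [hful2 _ hu hgu]; exact hp, hout u hu hpu p hp⟩, q,
        mem_sdiff.2 ⟨by rw [hful2 _ hv hgv]; exact hq, hout v hv hpv q hq⟩, hpq⟩
  obtain ⟨a1, a2, a3, a4, a5, a6⟩ := key x z hx hz' K g hK hg1 hg2 hk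
  obtain ⟨b1, b2, b3, b4, b5, b6⟩ := key z x hz' hx K' g' hK' hg1' hg2' hk'
  have hKK : ∀ u ∈ K, u ∉ K' := by
    intro u hu hu'
    have hd := h.wsysT.dHH x hx z hz' hxz
    rcases u with Q | e
    · have h2 := (hfam x hx).two Q (hK hu)
      obtain ⟨v, hv⟩ : Q.Nonempty := card_pos.1 (by omega)
      exact disjoint_left.1 hd ((hfam x hx).sub Q (hK hu) hv) ((hfam z hz').sub Q (hK' hu') hv)
    · exact disjoint_left.1 hd ((hfam x hx).pcH e (hK hu)) ((hfam z hz').pcH e (hK' hu'))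
  obtain ⟨P, hP⟩ : ∃ P : Itm V → Finset V, P = fun u =>
      if u ∈ K then cpl G (cz G Z T hm) (tlo G T hm) g {u} x z
      else cpl G (cz G Z T hm) (tlo G T hm) g' {u} z x := ⟨_, rfl⟩
  have hP1 : ∀ u ∈ K, P u = cpl G (cz G Z T hm) (tlo G T hm) g {u} x z := fun u hu => by
    rw [hP]
    simp only [hu, if_true]
  have hP2 : ∀ u ∈ K', P u = cpl G (cz G Z T hm) (tlo G T hm) g' {u} z x := fun u hu => by
    have h1 : u ∉ K := fun h1 => hKK u h1 hu
    rw [hP]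
    simp only [h1, if_false]
  have hun : cpl G (cz G Z T hm) (tlo G T hm) g K x z ∪ cpl G (cz G Z T hm) (tlo G T hm) g' K' z x
      = (K ∪ K').biUnion P := by
    rw [a1, b1, union_biUnion, biUnion_congr rfl hP1, biUnion_congr rfl hP2]
  have hdis : ∀ u ∈ K ∪ K', ∀ v ∈ K ∪ K', u ≠ v → Disjoint (P u) (P v) := by
    have hmix : ∀ u ∈ K, ∀ v ∈ K', Disjoint (P u) (P v) := by
      intro u hu v hv
      rw [hP1 u hu, hP2 v hv, disjoint_left]
      intro w hw hw'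
      exact disjoint_left.1 (h.wsysT.dHH x hx z hz' hxz) (a4 u hu w hw) (b4 v hv w hw')
    intro u hu v hv huv
    rcases mem_union.1 hu with h1 | h1 <;> rcases mem_union.1 hv with h2 | h2
    · rw [hP1 u h1, hP1 v h2]
      exact a2 u h1 v h2 huv
    · exact hmix u h1 v h2
    · exact (hmix v h2 u h1).symm
    · rw [hP2 u h1, hP2 v h2]
      exact b2 u h1 v h2 huv
  obtain ⟨D, hD⟩ : ∃ D, D = (K ×ˢ K).filter fun e => e.1 ≠ e.2 ∧ cl e.1 ≠ cl e.2
            ∧ g e.1 = ivl e.1 ∧ g e.2 = ivl e.2 ∧ ipc e.1 = 0 ∧ ipc e.2 = 0 := ⟨_, rfl⟩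
  obtain ⟨D', hD'⟩ : ∃ D', D' = (K' ×ˢ K').filter fun e => e.1 ≠ e.2 ∧ cl e.1 ≠ cl e.2
            ∧ g' e.1 = ivl e.1 ∧ g' e.2 = ivl e.2 ∧ ipc e.1 = 0 ∧ ipc e.2 = 0 := ⟨_, rfl⟩
  have hDc : (D ∪ D').card = D.card + D'.card := by
    refine card_union_of_disjoint (disjoint_left.2 fun e he he' => ?_)
    rw [hD] at he
    rw [hD'] at he'
    exact hKK _ (mem_product.1 (mem_filter.1 he).1).1 (mem_product.1 (mem_filter.1 he').1).1
  have h1 := NE_cls_le (G := G) (K := K ∪ K') (P := P) hdis (cl := cl) (M := M) (D := D ∪ D')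
    (fun e he => by
      rcases mem_union.1 he with h2 | h2
      · rw [hD] at h2
        obtain ⟨h3, h4, h5, h6, h7, h8, h9⟩ := mem_filter.1 h2
        obtain ⟨ha, hb⟩ := mem_product.1 h3
        obtain ⟨p, hp, q, hq, hpq⟩ := a6 _ ha _ hb h4 h6 h7 h8 h9
        exact ⟨mem_union_left _ ha, mem_union_left _ hb, h5, p, by rw [hP1 _ ha]; exact hp, q,
          by rw [hP1 _ hb]; exact hq, hpq⟩
      · rw [hD'] at h2
        obtain ⟨h3, h4, h5, h6, h7, h8, h9⟩ := mem_filter.1 h2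
        obtain ⟨ha, hb⟩ := mem_product.1 h3
        obtain ⟨p, hp, q, hq, hpq⟩ := b6 _ ha _ hb h4 h6 h7 h8 h9
        exact ⟨mem_union_right _ ha, mem_union_right _ hb, h5, p, by rw [hP2 _ ha]; exact hp, q,
          by rw [hP2 _ hb]; exact hq, hpq⟩)
  have h2 : ∀ c ∈ range M, 2 * q c * (∑ u ∈ K.filter (fun u => cl u = c), ((g u : ℤ) + 1 - ipc u)
            + ∑ u ∈ K'.filter (fun u => cl u = c), ((g' u : ℤ) + 1 - ipc u))
          - (I c).card * (q c * (q c + 1))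
      ≤ (E G (((K ∪ K').filter fun u => cl u = c).biUnion P) : ℤ) := by
    intro c _
    by_cases hq : q c = 0
    · rw [hq]
      simp
    have e1 : (K ∪ K').filter (fun u => cl u = c)
        = K.filter (fun u => cl u = c) ∪ K'.filter (fun u => cl u = c) := filter_union _ _ _
    have e2 : ((((K ∪ K').filter fun u => cl u = c).biUnion P).card : ℤ)
        = ∑ u ∈ K.filter (fun u => cl u = c), ((g u : ℤ) + 1 - ipc u)
          + ∑ u ∈ K'.filter (fun u => cl u = c), ((g' u : ℤ) + 1 - ipc u) := by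
      rw [card_biUnion fun u hu v hv huv => hdis u (mem_filter.1 hu).1 v (mem_filter.1 hv).1 huv]
      push_cast
      rw [e1, sum_union]
      · refine congrArg₂ (· + ·) (sum_congr rfl fun u hu => ?_) (sum_congr rfl fun u hu => ?_)
        · rw [hP1 u (mem_filter.1 hu).1]
          exact a3 u (mem_filter.1 hu).1
        · rw [hP2 u (mem_filter.1 hu).1]
          exact b3 u (mem_filter.1 hu).1
      · rw [disjoint_left]
        intro u hu hu'
        exact hKK u (mem_filter.1 hu).1 (mem_filter.1 hu').1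
    have h4 := E_add_NE (G := G) (((K ∪ K').filter fun u => cl u = c).biUnion P)
    have hmem : ∀ v ∈ ((K ∪ K').filter fun u => cl u = c).biUnion P, v ∈ Z ∧ rws G T v ⊆ I c := by
      intro v hv
      obtain ⟨u, hu, hvu⟩ := mem_biUnion.1 hv
      obtain ⟨huL, huc⟩ := mem_filter.1 hu
      rcases mem_union.1 huL with h5 | h5
      · rw [hP1 u h5] at hvu
        obtain ⟨c1, c2⟩ := a5 u h5 v hvu
        obtain ⟨i1, i2⟩ := hI u h5 (by rw [huc]; exact hq)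
        rw [huc] at i1 i2
        exact ⟨c1, c2 _ i1 i2⟩
      · rw [hP2 u h5] at hvu
        obtain ⟨c1, c2⟩ := b5 u h5 v hvu
        obtain ⟨i1, i2⟩ := hI' u h5 (by rw [huc]; exact hq)
        rw [huc] at i1 i2
        exact ⟨c1, c2 _ i1 i2⟩
    have h5 := h.F.toPFrame.NE_rows (I := I c) (fun v hv => (hmem v hv).1)
      (fun v hv => (hmem v hv).2) (q c)
    rw [e2] at h5 h4
    linarith
  have h3 := sum_le_sum h2
  rw [hun, ← hD, ← hD']
  rw [hDc] at h1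
  push_cast at h1 ⊢
  linarith

end SavK

section Tr

variable {V : Type*} {G : SimpleGraph V} {Z T : Finset V} {hm : V → V} {r m n p : ℕ}
  {B : V → Finset (V × V)}
  {Ps : V → Finset (Finset V)} {host : Itm V → V} {ρ : V → ℕ} {σ : ℕ → V}

/-- **the cell test for all items at any levels**, any packings with the least number of parts, misses `imn`,
class edges `EX` (`RecC`), saving `sv` (`SavK`) -/
theorem WCoreK.cellLU (hp : 2 * r ≤ p) (h : WCoreK G Z T r m n p hm)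
    (hpk : ∀ x ∈ T, Pk G (cz G Z T hm x) (hz G Z T hm x) (tlo G T hm) (B x) (Ps x))
    (hmin : ∀ x ∈ T, ∀ B' Ps', Pk G (cz G Z T hm x) (hz G Z T hm x) (tlo G T hm) B' Ps' →
      (Ps x).card ≤ Ps'.card)
    (hst : ∀ x ∈ T, ∀ u ∈ pkf (B x) (Ps x), host u = x)
    (rk : Rank T (tI G Z T hm r Z) ρ σ) {i j : ℕ} (hi : i < n) (hj : j < n) (hij : i ≠ j)
    {K K' : Finset (Itm V)} (hK : K ⊆ T.biUnion fun x => pkf (B x) (Ps x))
    (hKi : ∀ u ∈ K, ρ (host u) = i) (hK' : K' ⊆ T.biUnion fun x => pkf (B x) (Ps x))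
    (hKj : ∀ u ∈ K', ρ (host u) = j) {g g' : Itm V → ℕ} (hg1 : ∀ u ∈ K, 1 ≤ g u)
    (hg2 : ∀ u ∈ K, (g u : ℤ) ≤ (ikp (tlo G T hm) (σ j) u : ℤ)) (hg1' : ∀ u ∈ K', 1 ≤ g' u)
    (hg2' : ∀ u ∈ K', (g' u : ℤ) ≤ (ikp (tlo G T hm) (σ i) u : ℤ)) {EX sv : ℤ}
    (hE : RecC (T.biUnion fun x => pkf (B x) (Ps x)) (fun u => ρ (host u))
      (fun u => (ivl u : ℤ)) (fun i u => (ikp (tlo G T hm) (σ i) u : ℤ))
      (fun i u => (ims G (cz G Z T hm) (tlo G T hm) (σ i) u : ℤ)) (fun u => (ipc u : ℤ))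
      (fun u => (iar G (cz G Z T hm (host u)) u : ℤ))
      (fun j u => (nui G (cz G Z T hm (host u)) (tlo G T hm) (B (host u)) (σ j) u : ℤ)) i j
      (∑ u ∈ K, (ipc u : ℤ)) (∑ u ∈ K', (ipc u : ℤ)) EX)
    (hs : SavK n (fun u => (ivl u : ℤ)) (fun i u => (ikp (tlo G T hm) (σ i) u : ℤ))
      (fun u => (ipc u : ℤ)) i j g g' K K' sv) :
    2 * ∑ u ∈ K, (((r : ℤ) - 1) * g u + (1 - (ipc u : ℤ)) * tI G Z T hm r Z (σ j)
          - (if (ikp (tlo G T hm) (σ j) u : ℤ) ≤ (g u : ℤ)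
            then (imn G (cz G Z T hm) (tlo G T hm) (σ j) u : ℤ) else 0)
          - (iar G (cz G Z T hm (host u)) u : ℤ))
      + 2 * ∑ u ∈ K', (((r : ℤ) - 1) * g' u + (1 - (ipc u : ℤ)) * tI G Z T hm r Z (σ i)
          - (if (ikp (tlo G T hm) (σ i) u : ℤ) ≤ (g' u : ℤ)
            then (imn G (cz G Z T hm) (tlo G T hm) (σ i) u : ℤ) else 0)
          - (iar G (cz G Z T hm (host u)) u : ℤ))
      + 2 * EX + sv
      ≤ 2 * ((r : ℤ) - 1 + tI G Z T hm r Z (σ i) * tI G Z T hm r Z (σ j))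
        + (∑ u ∈ K, ((g u : ℤ) + 1 - ipc u) + ∑ u ∈ K', ((g' u : ℤ) + 1 - ipc u))
          * (∑ u ∈ K, ((g u : ℤ) + 1 - ipc u) + ∑ u ∈ K', ((g' u : ℤ) + 1 - ipc u) - 1)
        + 2 * (∑ u ∈ K, (ipc u : ℤ)) * ∑ u ∈ K', (ipc u : ℤ) := by
  have hcard := h.toWHom.cardT
  have hfam : ∀ x ∈ T, Fam (co G) (cz G Z T hm) (hz G Z T hm) (tlo G T hm) x
      (pkf (B x) (Ps x)) := fun x hx => (hpk x hx).fam (h.csys.dCH hx hx).symm
  have hmem : ∀ i < n, σ i ∈ T := fun i hi => rk.mem i (by rw [hcard]; exact hi)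
  have hne : σ i ≠ σ j := fun h1 =>
    hij (rk.sinj (by rw [hcard]; exact hi) (by rw [hcard]; exact hj) h1)
  have hown : ∀ u ∈ T.biUnion (fun x => pkf (B x) (Ps x)), ∀ l < n, ρ (host u) = l →
      u ∈ pkf (B (σ l)) (Ps (σ l)) ∧ host u = σ l := by
    intro u hu l hl hul
    obtain ⟨x, hx, hux⟩ := mem_biUnion.1 hu
    have h1 := hst x hx u hux
    have h2 : σ l = x := by
      rw [← hul, h1]
      exact rk.left x hx
    rw [h2, h1]
    exact ⟨hux, rfl⟩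
  have a1 : K ⊆ pkf (B (σ i)) (Ps (σ i)) := fun u hu => (hown u (hK hu) i hi (hKi u hu)).1
  have a2 : K' ⊆ pkf (B (σ j)) (Ps (σ j)) := fun u hu => (hown u (hK' hu) j hj (hKj u hu)).1
  have b1 : ∀ u ∈ K, g u ≤ ikp (tlo G T hm) (σ j) u := fun u hu => by exact_mod_cast hg2 u hu
  have b2 : ∀ u ∈ K', g' u ≤ ikp (tlo G T hm) (σ i) u := fun u hu => by
    exact_mod_cast hg2' u hu
  have c1 : ∀ u ∈ K, ikp (tlo G T hm) (σ j) u ≠ 0 := fun u hu => by
    have := hg1 u hu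
    have := b1 u hu
    omega
  have c2 : ∀ u ∈ K', ikp (tlo G T hm) (σ i) u ≠ 0 := fun u hu => by
    have := hg1' u hu
    have := b2 u hu
    omega
  have hcardC : ∀ i, ((cz G Z T hm (σ i)).card : ℤ) = (r : ℤ) - 1 - tI G Z T hm r Z (σ i) :=
    fun i => card_CP_eq Z (σ i)
  obtain ⟨d1, -, d3⟩ := Fam.own_sumsL h.F.toPFrame h.hh h.csys h.wsysT hfam (hmem i hi) a1 hg1 b1
  obtain ⟨f1, -, f3⟩ := Fam.own_sumsL h.F.toPFrame h.hh h.csys h.wsysT hfam (hmem j hj) a2 hg1' b2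
  -- the class edges
  have hEX : EX ≤ ∑ c ∈ cz G Z T hm (σ j)
        \ cql G (cz G Z T hm) (tlo G T hm) g' K' (σ j) (σ i),
      (dg G (cz G Z T hm (σ i) \ cql G (cz G Z T hm) (tlo G T hm) g K (σ i) (σ j)) c : ℤ) := by
    have d4 : ((cql G (cz G Z T hm) (tlo G T hm) g K (σ i) (σ j)).card : ℤ)
        ≤ ∑ u ∈ K, (ipc u : ℤ) := d3
    have f4 : ((cql G (cz G Z T hm) (tlo G T hm) g' K' (σ j) (σ i)).card : ℤ)
        ≤ ∑ u ∈ K', (ipc u : ℤ) := f3
    rcases hE with hE | ⟨w, hw, hE⟩ | ⟨w, hw, hw1, hw2, hw3, hE⟩ | ⟨w, hw, hw1, hw2, hw3, hE⟩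
    · exact hE.trans (sum_nonneg fun _ _ => Nat.cast_nonneg _)
    · obtain ⟨y, hy, hwy⟩ := mem_biUnion.1 hw
      exact hE.trans (h.exItem hpk (hmem i hi) (hmem j hj) hne d4 f4 hy hwy)
    · obtain ⟨g1, g2⟩ := hown w hw i hi hw1
      have hw2' : ivl w = 1 := by
        beta_reduce at hw2
        exact_mod_cast hw2
      have hw3' : ikp (tlo G T hm) (σ j) w ≠ 0 := fun h1 => hw3 (by
        show (ikp (tlo G T hm) (σ j) w : ℤ) = 0
        rw [h1]
        rfl)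
      obtain ⟨v, v1, v2, v3, v4, v5⟩ := h.rep3L hp (hmem i hi) (hpk _ (hmem i hi))
        (hmin _ (hmem i hi)) g1 hw2' hw3'
      have h2 := h.exMem (hmem i hi) (hmem j hj) hne
        (F := frC G (cz G Z T hm (σ i)) (tlo G T hm) (B (σ i)) v) d4 f4 v1 v2
        (fun a ha => by
          obtain ⟨h5, h6, -⟩ := mem_frC.1 ha
          exact (h.mem_msd (hmem i hi) (hmem i hi) v1).2 ⟨h5, h6⟩)
        (by
          rw [disjoint_left]
          intro a ha ha'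
          obtain ⟨h5, h6⟩ := mem_inter.1 ha'
          obtain ⟨u, hu, h7⟩ := mem_biUnion.1 h6
          obtain ⟨e, rfl, h8, h9, -⟩ := Fam.cls_pt h.wsysT hfam (hmem i hi) (hmem i hi) (a1 hu)
            (c1 u hu) (fun Q => xlv_sub) h7 h5
          exact (mem_frC.1 ha).2.2 e (inr_mem_pkf.1 (a1 hu)) h8 (h9.trans v2.symm)) v4 v5
      refine hE.trans (le_trans (le_of_eq ?_) h2)
      beta_reduce
      rw [g2, v3]
    · obtain ⟨g1, g2⟩ := hown w hw j hj hw1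
      have hw2' : ivl w = 1 := by
        beta_reduce at hw2
        exact_mod_cast hw2
      have hw3' : ikp (tlo G T hm) (σ i) w ≠ 0 := fun h1 => hw3 (by
        show (ikp (tlo G T hm) (σ i) w : ℤ) = 0
        rw [h1]
        rfl)
      obtain ⟨v, v1, v2, v3, v4, v5⟩ := h.rep3L hp (hmem j hj) (hpk _ (hmem j hj))
        (hmin _ (hmem j hj)) g1 hw2' hw3'
      have h2 := h.exMem' (hmem i hi) (hmem j hj) hne
        (F := frC G (cz G Z T hm (σ j)) (tlo G T hm) (B (σ j)) v) d4 f4 v1 v2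
        (fun a ha => by
          obtain ⟨h5, h6, -⟩ := mem_frC.1 ha
          exact (h.mem_msd (hmem j hj) (hmem j hj) v1).2 ⟨h5, h6⟩)
        (by
          rw [disjoint_left]
          intro a ha ha'
          obtain ⟨h5, h6⟩ := mem_inter.1 ha'
          obtain ⟨u, hu, h7⟩ := mem_biUnion.1 h6
          obtain ⟨e, rfl, h8, h9, -⟩ := Fam.cls_pt h.wsysT hfam (hmem j hj) (hmem j hj) (a2 hu)
            (c2 u hu) (fun Q => xlv_sub) h7 h5
          exact (mem_frC.1 ha).2.2 e (inr_mem_pkf.1 (a2 hu)) h8 (h9.trans v2.symm)) v4 v5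
      refine hE.trans (le_trans (le_of_eq ?_) h2)
      beta_reduce
      rw [g2, v3]
  -- the saving
  have dW : Disjoint (cpl G (cz G Z T hm) (tlo G T hm) g K (σ i) (σ j))
      (cpl G (cz G Z T hm) (tlo G T hm) g' K' (σ j) (σ i)) := by
    rw [disjoint_left]
    intro v hv hv'
    exact disjoint_left.1 (h.wsysT.dHH _ (hmem i hi) _ (hmem j hj) hne)
      (Fam.cpl_mem h.wsysT hfam (hmem i hi) a1 hv).1 (Fam.cpl_mem h.wsysT hfam (hmem j hj) a2 hv').1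
  have hsv : (NE G (cpl G (cz G Z T hm) (tlo G T hm) g K (σ i) (σ j)
          ∪ cpl G (cz G Z T hm) (tlo G T hm) g' K' (σ j) (σ i)) : ℤ) + sv
        + (cpl G (cz G Z T hm) (tlo G T hm) g K (σ i) (σ j)
          ∪ cpl G (cz G Z T hm) (tlo G T hm) g' K' (σ j) (σ i)).card
      ≤ ((cpl G (cz G Z T hm) (tlo G T hm) g K (σ i) (σ j)
          ∪ cpl G (cz G Z T hm) (tlo G T hm) g' K' (σ j) (σ i)).card : ℤ)
        * (cpl G (cz G Z T hm) (tlo G T hm) g K (σ i) (σ j)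
          ∪ cpl G (cz G Z T hm) (tlo G T hm) g' K' (σ j) (σ i)).card := by
    obtain ⟨cl, M, q, I, hIn, hI, hI', hs⟩ := hs
    beta_reduce at hs hI hI'
    have hT : ∀ x ∈ T, ∀ u ∈ pkf (B x) (Ps x), ∀ y, ikp (tlo G T hm) y u ≠ 0 →
        ρ y < n ∧ σ (ρ y) = y := by
      intro x hx u hu y hy
      obtain ⟨v, hv, hvy⟩ := ikp_ne_tail (fun Q hQ => (hfam x hx).two Q (hQ ▸ hu)) hy
      have hvH : v ∈ hz G Z T hm x := by
        rcases u with Q | e
        · exact (hfam x hx).sub Q hu hv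
        · simp only [imem, mem_singleton] at hv
          exact hv ▸ (hfam x hx).pcH e hu
      have h5 := mem_of_mem_erase (h.toWHom.ht x hx v hvH)
      rw [hvy] at h5
      exact ⟨by rw [← hcard]; exact rk.lt y h5, rk.left y h5⟩
    have h3 := h.savK hpk hmin (hmem i hi) (hmem j hj) hne a1 a2 hg1 b1 hg1' b2 (cl := cl) (M := M)
      q (fun c => (I c).image σ) (fun u hu hq => by
        obtain ⟨c3, c4⟩ := hI u hu hq
        refine ⟨mem_image_of_mem σ c3, fun y hy => ?_⟩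
        obtain ⟨b3, b4⟩ := hT _ (hmem i hi) u (a1 hu) y hy
        refine mem_image.2 ⟨ρ y, c4 (ρ y) b3 ?_, b4⟩
        rw [b4]
        exact_mod_cast hy) (fun u hu hq => by
        obtain ⟨c3, c4⟩ := hI' u hu hq
        refine ⟨mem_image_of_mem σ c3, fun y hy => ?_⟩
        obtain ⟨b3, b4⟩ := hT _ (hmem j hj) u (a2 hu) y hy
        refine mem_image.2 ⟨ρ y, c4 (ρ y) b3 ?_, b4⟩
        rw [b4]
        exact_mod_cast hy)
    have e1 : ∀ c, ((I c).image σ).card = (I c).card := fun c => rk.card_image (by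
      rw [hcard]
      exact hIn c)
    simp only [e1] at h3
    refine le_trans (add_le_add (add_le_add le_rfl (hs.trans (le_of_eq ?_))) le_rfl) h3
    refine congrArg₂ (· + ·) rfl (congrArg₂ (· + ·)
      (congrArg (fun s : Finset (Itm V × Itm V) => (s.card : ℤ)) ?_)
      (congrArg (fun s : Finset (Itm V × Itm V) => (s.card : ℤ)) ?_))
    · exact Finset.ext fun e => by simp only [mem_filter, Nat.cast_inj, Nat.cast_eq_zero]
    · exact Finset.ext fun e => by simp only [mem_filter, Nat.cast_inj, Nat.cast_eq_zero]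
  have hkey := Fam.cellL h.F.toPFrame h.hh h.gp.P h.csys h.wsysT hfam (hmem i hi) (hmem j hj)
    hne a1 a2 hg1 b1 hg1' b2 hEX hsv
  have e0 : ∀ k, ∀ g : Itm V → ℕ, ∀ u : Itm V,
      (if (ikp (tlo G T hm) (σ k) u : ℤ) ≤ (g u : ℤ)
          then (imn G (cz G Z T hm) (tlo G T hm) (σ k) u : ℤ) else 0)
      = (ilm G (cz G Z T hm) (tlo G T hm) (σ k) g u : ℤ) := by
    intro k g u
    unfold ilm
    by_cases h5 : ikp (tlo G T hm) (σ k) u ≤ g u
    · have h6 : (ikp (tlo G T hm) (σ k) u : ℤ) ≤ (g u : ℤ) := by exact_mod_cast h5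
      rw [if_pos h5, if_pos h6]
    · have h6 : ¬ (ikp (tlo G T hm) (σ k) u : ℤ) ≤ (g u : ℤ) := fun h7 =>
        h5 (by exact_mod_cast h7)
      rw [if_neg h5, if_neg h6]
      rfl
  have e1 : (r : ℤ) - 1 - (cz G Z T hm (σ i)).card = tI G Z T hm r Z (σ i) := by
    rw [hcardC]
    ring
  have e2 : (r : ℤ) - 1 - (cz G Z T hm (σ j)).card = tI G Z T hm r Z (σ j) := by
    rw [hcardC]
    ring
  rw [e1, e2] at hkey
  have e3 : ∑ u ∈ K, (((r : ℤ) - 1) * g u + (1 - (ipc u : ℤ)) * tI G Z T hm r Z (σ j)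
        - (if (ikp (tlo G T hm) (σ j) u : ℤ) ≤ (g u : ℤ)
          then (imn G (cz G Z T hm) (tlo G T hm) (σ j) u : ℤ) else 0)
        - (iar G (cz G Z T hm (host u)) u : ℤ))
      = ∑ u ∈ K, (((r : ℤ) - 1) * g u + (1 - (ipc u : ℤ)) * tI G Z T hm r Z (σ j)
        - (ilm G (cz G Z T hm) (tlo G T hm) (σ j) g u : ℤ)
        - (iar G (cz G Z T hm (σ i)) u : ℤ)) :=
    sum_congr rfl fun u hu => by rw [e0, (hown u (hK hu) i hi (hKi u hu)).2]
  have e4 : ∑ u ∈ K', (((r : ℤ) - 1) * g' u + (1 - (ipc u : ℤ)) * tI G Z T hm r Z (σ i)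
        - (if (ikp (tlo G T hm) (σ i) u : ℤ) ≤ (g' u : ℤ)
          then (imn G (cz G Z T hm) (tlo G T hm) (σ i) u : ℤ) else 0)
        - (iar G (cz G Z T hm (host u)) u : ℤ))
      = ∑ u ∈ K', (((r : ℤ) - 1) * g' u + (1 - (ipc u : ℤ)) * tI G Z T hm r Z (σ i)
        - (ilm G (cz G Z T hm) (tlo G T hm) (σ i) g' u : ℤ)
        - (iar G (cz G Z T hm (σ j)) u : ℤ)) :=
    sum_congr rfl fun u hu => by rw [e0, (hown u (hK' hu) j hj (hKj u hu)).2]
  rw [e3, e4]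
  exact hkey

end Tr

end Pool.Agent.Lib.MP_f04ccf_co
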