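import Pool.Agent.Lib.MP_f04ccf_co.M.CellG
import Pool.Agent.Lib.MP_f04ccf_co.M.CellU

/-!
MP_f04ccf_co, TEXT D, contract `PCon` (note 17930): **mixed cells at any levels**, misses `imn`, any saving
`SavK`: all PC pairs of both homes together with plain items of both directions; the arcs of a plain member to
class points of PC pairs of its tail cost nothing.

* `Fam.nd_tailL`, `WCoreK.sum_plainL`, `WCoreK.cellGL`: over the frame;
* `CapM`: the field over the row indices; `WCoreK.capM`: the transport, any packings with the least number of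
  parts (versions [B] and [C]);
* `CapM.full`: PC pairs of both homes and full units: `(E - 1) R + Σ t ≤ t t' + E²` (Mantel).
-/

set_option autoImplicit false

namespace Pool.Agent.Lib.MP_f04ccf_co

open Finset

attribute [local instance] Classical.propDecidable

section FrameL

variable {V : Type*} {G : SimpleGraph V} {Z T : Finset V} {hm : V → V} {r m n p t : ℕ}
  {A : Finset V} {S : V → Finset V} {U : V → Finset (Itm V)}

/-- **the misses of the used points of one item at the tail, at the level `g`** -/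
theorem Fam.nd_tailL (hF : PFrame G r m t Z T) (hh : Homes G Z T hm) (hC : CSys G Z T hm A S)
    (hW : WSysT G (co G) A (CP G Z T S) (HP G Z T S) (tlo G T hm))
    (h : ∀ x ∈ A, Fam (co G) (CP G Z T S) (HP G Z T S) (tlo G T hm) x (U x))
    {x z : V} (hx : x ∈ A) {u : Itm V} (hu : u ∈ U x) {g : Itm V → ℕ} (h1 : 1 ≤ g u)
    (h2 : g u ≤ ikp (tlo G T hm) z u)
    (hpts : Disjoint (rpts (tlo G T hm) (xlv G (CP G Z T S) (tlo G T hm) z g) z u)
      (CP G Z T S z)) :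
    ∑ v ∈ rpts (tlo G T hm) (xlv G (CP G Z T S) (tlo G T hm) z g) z u,
        (nd G (CP G Z T S z) v : ℤ)
      ≤ (CP G Z T S z).card + ilm G (CP G Z T S) (tlo G T hm) z g u := by
  obtain ⟨X, hXd⟩ : ∃ X : Finset V → Finset V, X = xlv G (CP G Z T S) (tlo G T hm) z g := ⟨_, rfl⟩
  have hX : ∀ Q, X Q ⊆ oth (tlo G T hm) z Q := fun Q => by
    rw [hXd]
    exact xlv_sub
  obtain ⟨hcard, hl⟩ := (h x hx).lev hF hh hC hx hu h1 h2
  rw [← hXd] at hcard hpts hl ⊢
  have h3 : ∑ v ∈ rpts (tlo G T hm) X z u, (nd G (CP G Z T S z) v : ℤ)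
      = ∑ c ∈ CP G Z T S z, (nd G (rpts (tlo G T hm) X z u) c : ℤ) := by
    exact_mod_cast nd_comm (G := G) (rpts (tlo G T hm) X z u) (CP G Z T S z)
  rw [h3]
  have h4 : ∀ c ∈ CP G Z T S z, (nd G (rpts (tlo G T hm) X z u) c : ℤ)
      ≤ ((g u : ℤ) + 1 - ikp (tlo G T hm) z u)
        + if c ∈ rcl G (CP G Z T S) (tlo G T hm) X z u then 1 else 0 := by
    intro c hc
    have h5 := (h x hx).see hW hx (z := z) hX hu hc
    have h6 := nd_of_notMem (G := G) (A := rpts (tlo G T hm) X z u) (x := c)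
      fun h5 => disjoint_left.1 hpts h5 hc
    rw [hcard] at h6
    have h7 : (dg G (rpts (tlo G T hm) X z u) c : ℤ) + nd G (rpts (tlo G T hm) X z u) c
        = (g u : ℤ) + 1 := by exact_mod_cast h6
    linarith
  refine (sum_le_sum h4).trans ?_
  rw [sum_add_distrib, sum_const, nsmul_eq_mul, ← sum_filter, sum_const, nsmul_eq_mul, mul_one]
  have h5 : (CP G Z T S z).filter (fun c => c ∈ rcl G (CP G Z T S) (tlo G T hm) X z u)
      = rcl G (CP G Z T S) (tlo G T hm) X z u := by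
    ext c
    rw [mem_filter]
    exact ⟨fun h => h.2, fun h => ⟨rcl_sub h, h⟩⟩
  rw [h5]
  nlinarith [hl]

/-- **the misses of the plain items of one direction, at levels** -/
theorem WCoreK.sum_plainL (h : WCoreK G Z T r m n p hm) {B : V → Finset (V × V)}
    {Ps : V → Finset (Finset V)}
    (hpk : ∀ x ∈ T, Pk G (cz G Z T hm x) (hz G Z T hm x) (tlo G T hm) (B x) (Ps x))
    {x y : V} (hx : x ∈ T) (hy : y ∈ T) (hxy : x ≠ y) {K : Finset (Itm V)}
    (hK : K ⊆ pkf (B x) (Ps x)) (h0 : ∀ u ∈ K, ipc u = 0) {g : Itm V → ℕ}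
    (hg1 : ∀ u ∈ K, 1 ≤ g u) (hg2 : ∀ u ∈ K, g u ≤ ikp (tlo G T hm) y u) :
    ∑ v ∈ cpl G (cz G Z T hm) (tlo G T hm) g K x y,
        ((nd G (cz G Z T hm x) v : ℤ) + nd G (cz G Z T hm y) v)
      ≤ ∑ u ∈ K, (((cz G Z T hm y).card : ℤ) + ilm G (cz G Z T hm) (tlo G T hm) y g u
          + irs G (cz G Z T hm x) (tlo G T hm) (B x) y u)
        + ∑ v ∈ cpl G (cz G Z T hm) (tlo G T hm) g K x y,
          (dg G ((pcs (tlo G T hm) (B x) y).image Prod.fst) v : ℤ) := by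
  have hfam : ∀ x ∈ T, Fam (co G) (cz G Z T hm) (hz G Z T hm) (tlo G T hm) x
      (pkf (B x) (Ps x)) := fun x hx => (hpk x hx).fam (h.csys.dCH hx hx).symm
  have hW := h.wsysT
  have hQ := hpk x hx
  -- a plain item consists of members
  have hpl : ∀ u ∈ K, ∃ P ∈ Ps x, u = Sum.inl P := by
    intro u hu
    rcases u with P | e
    · exact ⟨P, (inl_mem_pkf.1 (hK hu)).1, rfl⟩
    · have := h0 _ hu
      simp [ipc] at this
  have hcpt : ∀ {v : V}, v ∈ cpl G (cz G Z T hm) (tlo G T hm) g K x y →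
      v ∈ hz G Z T hm x ∧ ∃ u ∈ K, v ∈ imem u := by
    intro v hv
    obtain ⟨v1, v2⟩ := mem_sdiff.1 hv
    obtain ⟨u, hu, hvu⟩ := mem_biUnion.1 v1
    have hvi := (hfam x hx).rpts_sub (fun Q => xlv_sub) hvu
    refine ⟨(mem_union.1 ((hfam x hx).ipts_sub (hK hu) hvi)).resolve_right v2, u, hu, ?_⟩
    obtain ⟨P, -, rfl⟩ := hpl u hu
    exact hvi
  have hsub : cpl G (cz G Z T hm) (tlo G T hm) g K x y
      ⊆ K.biUnion (rpts (tlo G T hm) (xlv G (cz G Z T hm) (tlo G T hm) y g) y) := sdiff_subset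
  -- the home
  have h1 : ∀ v ∈ cpl G (cz G Z T hm) (tlo G T hm) g K x y, (nd G (cz G Z T hm x) v : ℤ)
      ≤ (if tlo G T hm v = y then ((frC G (cz G Z T hm x) (tlo G T hm) (B x) v).card : ℤ)
          else nd G (cz G Z T hm x) v)
        + dg G ((pcs (tlo G T hm) (B x) y).image Prod.fst) v := by
    intro v hv
    obtain ⟨h2, u, hu, h3⟩ := hcpt hv
    by_cases h4 : tlo G T hm v = y
    · rw [if_pos h4]
      have h5 := h.nd_shared hx hy hxy hQ h2 h4 (fun e he hev => by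
        obtain ⟨P, hP, rfl⟩ := hpl u hu
        exact hQ.dw e he P hP (hev ▸ h3))
      exact_mod_cast h5
    · rw [if_neg h4]
      have : (0 : ℤ) ≤ dg G ((pcs (tlo G T hm) (B x) y).image Prod.fst) v := Nat.cast_nonneg _
      linarith
  have h2 : ∑ v ∈ cpl G (cz G Z T hm) (tlo G T hm) g K x y,
      (if tlo G T hm v = y then ((frC G (cz G Z T hm x) (tlo G T hm) (B x) v).card : ℤ)
          else nd G (cz G Z T hm x) v)
      ≤ ∑ u ∈ K, (irs G (cz G Z T hm x) (tlo G T hm) (B x) y u : ℤ) := by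
    have e1 : cpl G (cz G Z T hm) (tlo G T hm) g K x y ⊆ K.biUnion imem := by
      intro v hv
      obtain ⟨-, u, hu, h3⟩ := hcpt hv
      exact mem_biUnion.2 ⟨u, hu, h3⟩
    have e0 : ∀ v, (0 : ℤ) ≤ (if tlo G T hm v = y
        then ((frC G (cz G Z T hm x) (tlo G T hm) (B x) v).card : ℤ)
          else nd G (cz G Z T hm x) v) := by
      intro v
      split_ifs
      · exact Nat.cast_nonneg _
      · exact Nat.cast_nonneg _
    refine (sum_le_sum_of_subset_of_nonneg e1 fun v _ _ => e0 v).trans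
      ((sum_biUnion_le' K imem e0).trans (le_of_eq (sum_congr rfl fun u _ => ?_)))
    unfold irs
    push_cast
    rfl
  -- the tail
  have h3 : ∑ v ∈ cpl G (cz G Z T hm) (tlo G T hm) g K x y, (nd G (cz G Z T hm y) v : ℤ)
      ≤ ∑ u ∈ K, (((cz G Z T hm y).card : ℤ) + ilm G (cz G Z T hm) (tlo G T hm) y g u) := by
    refine (sum_le_sum_of_subset_of_nonneg hsub fun v _ _ => Nat.cast_nonneg _).trans
      ((sum_biUnion_le' K _ fun v => Nat.cast_nonneg _).trans (sum_le_sum fun u hu => ?_))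
    refine Fam.nd_tailL h.F.toPFrame h.hh h.csys hW hfam hx (hK hu) (hg1 u hu) (hg2 u hu) ?_
    obtain ⟨P, hP, rfl⟩ := hpl u hu
    rw [disjoint_left]
    intro v hv hv'
    have h4 := (hfam x hx).sub P (hK hu)
      ((hfam x hx).rpts_sub (X := xlv G (cz G Z T hm) (tlo G T hm) y g) (fun Q => xlv_sub) hv)
    exact disjoint_left.1 (hW.dHC x hx y hy) h4 hv'
  have h4 := sum_le_sum h1
  rw [sum_add_distrib] at h4
  rw [sum_add_distrib, sum_add_distrib]
  linarith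

/-- **the mixed cell test at any levels**, any saving `sv` -/
theorem WCoreK.cellGL (hp : 2 * r ≤ p) (h : WCoreK G Z T r m n p hm) {B : V → Finset (V × V)}
    {Ps : V → Finset (Finset V)}
    (hpk : ∀ x ∈ T, Pk G (cz G Z T hm x) (hz G Z T hm x) (tlo G T hm) (B x) (Ps x))
    {x y : V} (hx : x ∈ T) (hy : y ∈ T) (hxy : x ≠ y) {K K' : Finset (Itm V)}
    (hK : K ⊆ pkf (B x) (Ps x)) (hK' : K' ⊆ pkf (B y) (Ps y))
    (h0 : ∀ u ∈ K, ipc u = 0) (h0' : ∀ u ∈ K', ipc u = 0) {g g' : Itm V → ℕ}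
    (hg1 : ∀ u ∈ K, 1 ≤ g u) (hg2 : ∀ u ∈ K, g u ≤ ikp (tlo G T hm) y u)
    (hg1' : ∀ u ∈ K', 1 ≤ g' u) (hg2' : ∀ u ∈ K', g' u ≤ ikp (tlo G T hm) x u)
    {M w sv : ℤ}
    (hM : M = (pcs (tlo G T hm) (B x) y).card + (pcs (tlo G T hm) (B y) x).card)
    (hw : w = ∑ u ∈ K, ((g u : ℤ) + 1) + ∑ u ∈ K', ((g' u : ℤ) + 1))
    (hs : (NE G (cpl G (cz G Z T hm) (tlo G T hm) g K x y
          ∪ cpl G (cz G Z T hm) (tlo G T hm) g' K' y x) : ℤ) + sv
        + (cpl G (cz G Z T hm) (tlo G T hm) g K x y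
          ∪ cpl G (cz G Z T hm) (tlo G T hm) g' K' y x).card
      ≤ ((cpl G (cz G Z T hm) (tlo G T hm) g K x y
          ∪ cpl G (cz G Z T hm) (tlo G T hm) g' K' y x).card : ℤ)
        * (cpl G (cz G Z T hm) (tlo G T hm) g K x y
          ∪ cpl G (cz G Z T hm) (tlo G T hm) g' K' y x).card) :
    2 * ((M - 1) * ((r : ℤ) - 1))
        + 2 * ∑ u ∈ K, (((r : ℤ) - 1) * g u + tI G Z T hm r Z y
            - ilm G (cz G Z T hm) (tlo G T hm) y g u
            - irs G (cz G Z T hm x) (tlo G T hm) (B x) y u)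
        + 2 * ∑ u ∈ K', (((r : ℤ) - 1) * g' u + tI G Z T hm r Z x
            - ilm G (cz G Z T hm) (tlo G T hm) x g' u
            - irs G (cz G Z T hm y) (tlo G T hm) (B y) x u) + sv
      ≤ 2 * (tI G Z T hm r Z x * tI G Z T hm r Z y) + 2 * M ^ 2 + 2 * (M * w)
        + w * (w - 1) := by
  have hfam : ∀ x ∈ T, Fam (co G) (cz G Z T hm) (hz G Z T hm) (tlo G T hm) x
      (pkf (B x) (Ps x)) := fun x hx => (hpk x hx).fam (h.csys.dCH hx hx).symm
  have hF := h.F.toPFrame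
  have hC := h.csys
  have hW := h.wsysT
  have hcell := hC.cellD hF hx hy hxy
  have hQ := hpk x hx
  have hQ' := hpk y hy
  have hmB : ∀ {z t : V} {e : V × V}, e ∈ pcs (tlo G T hm) (B z) t →
      e ∈ B z ∧ tlo G T hm e.1 = t := fun he => mem_pcs.1 he
  -- the points of the items
  obtain ⟨L, hL⟩ : ∃ L, L = cpl G (cz G Z T hm) (tlo G T hm) g K x y
      ∪ cpl G (cz G Z T hm) (tlo G T hm) g' K' y x := ⟨_, rfl⟩
  have hpt : ∀ {x y : V} {K : Finset (Itm V)} {g : Itm V → ℕ} {v : V}, x ∈ T →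
      K ⊆ pkf (B x) (Ps x) → (∀ u ∈ K, ipc u = 0) →
      v ∈ cpl G (cz G Z T hm) (tlo G T hm) g K x y →
      v ∈ hz G Z T hm x ∧ ∃ u ∈ K, v ∈ imem u := by
    intro x y K g v hx hK h0 hv
    obtain ⟨v1, v2⟩ := mem_sdiff.1 hv
    obtain ⟨u, hu, hvu⟩ := mem_biUnion.1 v1
    have hvi := (hfam x hx).rpts_sub (fun Q => xlv_sub) hvu
    refine ⟨(mem_union.1 ((hfam x hx).ipts_sub (hK hu) hvi)).resolve_right v2, u, hu, ?_⟩
    rcases u with P | e
    · exact hvi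
    · have := h0 _ hu
      simp [ipc] at this
  have hLm : ∀ v ∈ L, (v ∈ hz G Z T hm x ∧ ∃ u ∈ K, v ∈ imem u)
      ∨ (v ∈ hz G Z T hm y ∧ ∃ u ∈ K', v ∈ imem u) := by
    intro v hv
    rw [hL] at hv
    rcases mem_union.1 hv with hv | hv
    · exact Or.inl (hpt hx hK h0 hv)
    · exact Or.inr (hpt hy hK' h0' hv)
  have hd : Disjoint (cpl G (cz G Z T hm) (tlo G T hm) g K x y)
      (cpl G (cz G Z T hm) (tlo G T hm) g' K' y x) := by
    rw [disjoint_left]
    intro v hv hv'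
    exact disjoint_left.1 (hW.dHH x hx y hy hxy) (hpt hx hK h0 hv).1 (hpt hy hK' h0' hv').1
  obtain ⟨a1, -, -⟩ := Fam.own_sumsL hF h.hh hC hW hfam hx hK hg1 hg2
  obtain ⟨b1, -, -⟩ := Fam.own_sumsL hF h.hh hC hW hfam hy hK' hg1' hg2'
  have hcard : (L.card : ℤ) = w := by
    have e0 : ∑ u ∈ K, ((g u : ℤ) + 1 - ipc u) = ∑ u ∈ K, ((g u : ℤ) + 1) :=
      sum_congr rfl fun u hu => by rw [h0 u hu]; push_cast; ring
    have e0' : ∑ u ∈ K', ((g' u : ℤ) + 1 - ipc u) = ∑ u ∈ K', ((g' u : ℤ) + 1) :=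
      sum_congr rfl fun u hu => by rw [h0' u hu]; push_cast; ring
    rw [hL, card_union_of_disjoint hd, hw, ← e0, ← e0', ← a1, ← b1]
    push_cast
    rfl
  rw [← hL, hcard] at hs
  -- the members of the PC pairs are not among the points
  obtain ⟨P, hP⟩ : ∃ P, P = pcs (tlo G T hm) (B x) y := ⟨_, rfl⟩
  obtain ⟨P', hP'⟩ : ∃ P', P' = pcs (tlo G T hm) (B y) x := ⟨_, rfl⟩
  have hPB : ∀ e ∈ P, e ∈ B x ∧ tlo G T hm e.1 = y := fun e he => hmB (hP ▸ he)
  have hPB' : ∀ e ∈ P', e ∈ B y ∧ tlo G T hm e.1 = x := fun e he => hmB (hP' ▸ he)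
  have hdj : Disjoint (P.image Prod.fst ∪ P'.image Prod.fst) L := by
    rw [disjoint_left]
    intro v hv hvL
    have key : ∀ {x y : V} {K K' : Finset (Itm V)} {e : V × V}, x ∈ T → y ∈ T → x ≠ y →
        K ⊆ pkf (B x) (Ps x) → (∀ u ∈ K, ipc u = 0) → e ∈ B x →
        ((e.1 ∈ hz G Z T hm x ∧ ∃ u ∈ K, e.1 ∈ imem u)
          ∨ (e.1 ∈ hz G Z T hm y ∧ ∃ u ∈ K', e.1 ∈ imem u)) → False := by
      intro x y K K' e hx hy hxy hK h0 he h1
      rcases h1 with ⟨-, u, hu, h2⟩ | ⟨h1, -⟩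
      · rcases u with Q | f
        · exact (hpk x hx).dw e he Q (inl_mem_pkf.1 (hK hu)).1 h2
        · have := h0 _ hu
          simp [ipc] at this
      · exact disjoint_left.1 (hW.dHH x hx y hy hxy) ((hpk x hx).bH e he) h1
    rcases mem_union.1 hv with hv | hv
    · obtain ⟨e, he, rfl⟩ := mem_image.1 hv
      exact key hx hy hxy hK h0 (hPB e he).1 (hLm _ hvL)
    · obtain ⟨e, he, rfl⟩ := mem_image.1 hv
      exact key hy hx hxy.symm hK' h0' (hPB' e he).1 (hLm _ hvL).symm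
  have s1 := h.sum_plainL hpk hx hy hxy hK h0 hg1 hg2
  have s2 := h.sum_plainL hpk hy hx hxy.symm hK' h0' hg1' hg2'
  rw [← hP] at s1
  rw [← hP'] at s2
  have hTM : ∑ v ∈ L, ((nd G (cz G Z T hm x) v : ℤ) + nd G (cz G Z T hm y) v)
      ≤ (∑ u ∈ K, (((cz G Z T hm y).card : ℤ) + ilm G (cz G Z T hm) (tlo G T hm) y g u
            + irs G (cz G Z T hm x) (tlo G T hm) (B x) y u)
          + ∑ u ∈ K', (((cz G Z T hm x).card : ℤ) + ilm G (cz G Z T hm) (tlo G T hm) x g' u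
            + irs G (cz G Z T hm y) (tlo G T hm) (B y) x u))
        + ∑ v ∈ L, (dg G (P.image Prod.fst ∪ P'.image Prod.fst) v : ℤ) := by
    have m1 : ∀ v, (dg G (P.image Prod.fst) v : ℤ)
        ≤ dg G (P.image Prod.fst ∪ P'.image Prod.fst) v := fun v => by
      exact_mod_cast dg_mono G subset_union_left v
    have m2 : ∀ v, (dg G (P'.image Prod.fst) v : ℤ)
        ≤ dg G (P.image Prod.fst ∪ P'.image Prod.fst) v := fun v => by
      exact_mod_cast dg_mono G subset_union_right v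
    have t1 := sum_le_sum fun v (_ : v ∈ cpl G (cz G Z T hm) (tlo G T hm) g K x y) => m1 v
    have t2 := sum_le_sum fun v (_ : v ∈ cpl G (cz G Z T hm) (tlo G T hm) g' K' y x) => m2 v
    have t3 : ∑ v ∈ cpl G (cz G Z T hm) (tlo G T hm) g' K' y x,
        ((nd G (cz G Z T hm x) v : ℤ) + nd G (cz G Z T hm y) v)
        = ∑ v ∈ cpl G (cz G Z T hm) (tlo G T hm) g' K' y x,
        ((nd G (cz G Z T hm y) v : ℤ) + nd G (cz G Z T hm x) v) :=
      sum_congr rfl fun v _ => add_comm _ _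
    rw [hL, sum_union hd, sum_union hd, t3]
    linarith
  have hmain := hcell.mix h.gp.P (hC.CP_clq hF hx) (hC.CP_clq hF hy) (hW.dCC x hx y hy hxy)
    (K := P) (K' := P')
    (fun e he => hC.mem_Dbl_of_tlo h.hh hx (hQ.bH e (hPB e he).1) (hPB e he).2)
    (fun e he => hQ.bC e (hPB e he).1) (fun e he => hQ.bN e (hPB e he).1)
    (fun e he f hf hef => hQ.b1 e (hPB e he).1 f (hPB f hf).1 hef)
    (fun e he f hf hef => hQ.b2 e (hPB e he).1 f (hPB f hf).1 hef
      ((hPB e he).2.trans (hPB f hf).2.symm))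
    (fun e he => by
      rw [Dbl_comm]
      exact hC.mem_Dbl_of_tlo h.hh hy (hQ'.bH e (hPB' e he).1) (hPB' e he).2)
    (fun e he => hQ'.bC e (hPB' e he).1) (fun e he => hQ'.bN e (hPB' e he).1)
    (fun e he f hf hef => hQ'.b1 e (hPB' e he).1 f (hPB' f hf).1 hef)
    (fun e he f hf hef => hQ'.b2 e (hPB' e he).1 f (hPB' f hf).1 hef
      ((hPB' e he).2.trans (hPB' f hf).2.symm))
    (fun e he f hf hef => disjoint_left.1 (hW.dHH x hx y hy hxy) (hQ.bH e (hPB e he).1)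
      (hef ▸ hQ'.bH f (hPB' f hf).1))
    (fun e he => h.ms_le hp hx hy hxy (hQ.bH e (hPB e he).1) (hPB e he).2)
    (fun e he => h.ms_le hp hy hx hxy.symm (hQ'.bH e (hPB' e he).1) (hPB' e he).2)
    (L := L)
    (by
      rw [disjoint_left]
      intro v hv hvL
      rcases hLm v hvL with h1 | h1
      · exact disjoint_left.1 (hW.dHC x hx x hx) h1.1 hv
      · exact disjoint_left.1 (hW.dHC y hy x hx) h1.1 hv)
    (by
      rw [disjoint_left]
      intro v hv hvL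
      rcases hLm v hvL with h1 | h1
      · exact disjoint_left.1 (hW.dHC x hx y hy) h1.1 hv
      · exact disjoint_left.1 (hW.dHC y hy y hy) h1.1 hv)
    hdj hTM
  have e1 : ((cz G Z T hm x).card : ℤ) = (r : ℤ) - 1 - tI G Z T hm r Z x := card_CP_eq Z x
  have e2 : ((cz G Z T hm y).card : ℤ) = (r : ℤ) - 1 - tI G Z T hm r Z y := card_CP_eq Z y
  rw [e1, e2, hcard] at hmain
  have h4 : (0 : ℤ) ≤ NE G (P.image Prod.fst ∪ P'.image Prod.fst) := Int.natCast_nonneg _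
  have g1 : ∑ u ∈ K, (((r : ℤ) - 1) * g u + tI G Z T hm r Z y
            - ilm G (cz G Z T hm) (tlo G T hm) y g u
            - irs G (cz G Z T hm x) (tlo G T hm) (B x) y u)
      = ((r : ℤ) - 1) * (∑ u ∈ K, ((g u : ℤ) + 1))
        - ∑ u ∈ K, (((r : ℤ) - 1 - tI G Z T hm r Z y) + ilm G (cz G Z T hm) (tlo G T hm) y g u
            + irs G (cz G Z T hm x) (tlo G T hm) (B x) y u) := by
    rw [mul_sum, ← sum_sub_distrib]
    exact sum_congr rfl fun u _ => by ring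
  have g2 : ∑ u ∈ K', (((r : ℤ) - 1) * g' u + tI G Z T hm r Z x
            - ilm G (cz G Z T hm) (tlo G T hm) x g' u
            - irs G (cz G Z T hm y) (tlo G T hm) (B y) x u)
      = ((r : ℤ) - 1) * (∑ u ∈ K', ((g' u : ℤ) + 1))
        - ∑ u ∈ K', (((r : ℤ) - 1 - tI G Z T hm r Z x) + ilm G (cz G Z T hm) (tlo G T hm) x g' u
            + irs G (cz G Z T hm y) (tlo G T hm) (B y) x u) := by
    rw [mul_sum, ← sum_sub_distrib]
    exact sum_congr rfl fun u _ => by ring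
  rw [g1, g2]
  have g3 : (P.card : ℤ) + P'.card = M := by
    rw [hM, hP, hP']
  obtain ⟨S1, hS1⟩ : ∃ S, S = ∑ u ∈ K, (((r : ℤ) - 1 - tI G Z T hm r Z y)
      + ilm G (cz G Z T hm) (tlo G T hm) y g u
      + irs G (cz G Z T hm x) (tlo G T hm) (B x) y u) := ⟨_, rfl⟩
  obtain ⟨S2, hS2⟩ : ∃ S, S = ∑ u ∈ K', (((r : ℤ) - 1 - tI G Z T hm r Z x)
      + ilm G (cz G Z T hm) (tlo G T hm) x g' u
      + irs G (cz G Z T hm y) (tlo G T hm) (B y) x u) := ⟨_, rfl⟩
  obtain ⟨A1, hA1⟩ : ∃ S, S = ∑ u ∈ K, ((g u : ℤ) + 1) := ⟨_, rfl⟩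
  obtain ⟨A2, hA2⟩ : ∃ S, S = ∑ u ∈ K', ((g' u : ℤ) + 1) := ⟨_, rfl⟩
  rw [← hS1, ← hS2, g3] at hmain
  rw [← hA1, ← hA2] at hw
  rw [← hS1, ← hS2, ← hA1, ← hA2]
  subst hw
  have g4 : ((r : ℤ) - 1 - ((r : ℤ) - 1 - tI G Z T hm r Z x))
      * ((r : ℤ) - 1 - ((r : ℤ) - 1 - tI G Z T hm r Z y))
      = tI G Z T hm r Z x * tI G Z T hm r Z y := by ring
  rw [g4] at hmain
  nlinarith [hmain, hs, h4]

end FrameL

section StrL

variable {ι : Type*}

/-- **the mixed cells over the row indices, at levels**: all PC pairs of both homes, plain items `K`, `K'` of both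
directions, misses `mn` at the full level, a saving `sv` (`SavK`) -/
def CapM (R : ℤ) (n : ℕ) (t : ℕ → ℤ) (U : Finset ι) (ho : ι → ℕ) (vl : ι → ℤ)
    (kp mn : ℕ → ι → ℤ) (be : ℕ → ℕ → ℤ) (pc : ι → ℤ) (nu : ℕ → ι → ℤ) : Prop :=
  ∀ i < n, ∀ j < n, i ≠ j → ∀ K ⊆ U, (∀ u ∈ K, ho u = i ∧ pc u = 0) →
    ∀ K' ⊆ U, (∀ u ∈ K', ho u = j ∧ pc u = 0) → ∀ g g' : ι → ℕ,
    (∀ u ∈ K, 1 ≤ g u) → (∀ u ∈ K, (g u : ℤ) ≤ kp j u) →
    (∀ u ∈ K', 1 ≤ g' u) → (∀ u ∈ K', (g' u : ℤ) ≤ kp i u) → ∀ sv w : ℤ,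
    SavK n vl kp pc i j g g' K K' sv →
    w = ∑ u ∈ K, ((g u : ℤ) + 1) + ∑ u ∈ K', ((g' u : ℤ) + 1) →
    2 * ((be i j + be j i - 1) * R)
      + 2 * ∑ u ∈ K, (R * g u + t j - (if kp j u ≤ (g u : ℤ) then mn j u else 0)
          - ∑ l ∈ (range n).erase i, (nu l u + if l = j then 0 else kp l u * be i l))
      + 2 * ∑ u ∈ K', (R * g' u + t i - (if kp i u ≤ (g' u : ℤ) then mn i u else 0)
          - ∑ l ∈ (range n).erase j, (nu l u + if l = i then 0 else kp l u * be j l)) + sv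
      ≤ 2 * (t i * t j) + 2 * (be i j + be j i) ^ 2 + 2 * ((be i j + be j i) * w)
        + w * (w - 1)

variable {R : ℤ} {n : ℕ} {t : ℕ → ℤ} {U : Finset ι} {ho : ι → ℕ} {vl : ι → ℤ}
  {kp mn : ℕ → ι → ℤ} {be : ℕ → ℕ → ℤ} {pc : ι → ℤ} {nu : ℕ → ι → ℤ}

/-- **PC pairs of both homes and full units of both directions** -/
theorem CapM.full (H : CapM R n t U ho vl kp mn be pc nu) {i j : ℕ} (hi : i < n) (hj : j < n)
    (hij : i ≠ j) {K K' : Finset ι} (hK : K ⊆ U) (hK' : K' ⊆ U)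
    (h1 : ∀ u ∈ K, ho u = i ∧ pc u = 0 ∧ kp j u = 1 ∧ ∀ l < n, kp l u ≠ 0 → l = j)
    (h2 : ∀ u ∈ K', ho u = j ∧ pc u = 0 ∧ kp i u = 1 ∧ ∀ l < n, kp l u ≠ 0 → l = i) :
    (be i j + be j i + K.card + K'.card - 1) * R + K.card * t j + K'.card * t i
      ≤ t i * t j + (be i j + be j i + K.card + K'.card) ^ 2
        + ∑ u ∈ K, (mn j u + ∑ l ∈ (range n).erase i, nu l u)
        + ∑ u ∈ K', (mn i u + ∑ l ∈ (range n).erase j, nu l u) := by
  have hI : ({i, j} : Finset ℕ) ⊆ range n := by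
    intro l hl
    rcases mem_insert.1 hl with rfl | hl
    · exact mem_range.2 hi
    · rw [mem_singleton.1 hl]
      exact mem_range.2 hj
  have hc : (({i, j} : Finset ℕ).card : ℤ) = 2 := by
    rw [card_pair hij]
    norm_num
  have s1 : ∀ {K : Finset ι} {i j : ℕ}, (∀ u ∈ K, ho u = i ∧ pc u = 0 ∧ kp j u = 1 ∧
      ∀ l < n, kp l u ≠ 0 → l = j) → ∑ u ∈ K, ((((fun _ => 1 : ι → ℕ) u : ℕ) : ℤ) + 1 - pc u)
        = 2 * K.card := by
    intro K i j h
    rw [sum_congr rfl fun u hu => by rw [(h u hu).2.1], sum_const, nsmul_eq_mul]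
    push_cast
    ring
  have hsv : SavK n vl kp pc i j (fun _ => 1) (fun _ => 1) K K'
      (2 * ((K.card : ℤ) + K'.card) * (2 * K.card + 2 * K'.card)
        - 2 * (((K.card : ℤ) + K'.card) * ((K.card : ℤ) + K'.card + 1))) := by
    refine SavK.tur hI (by simp) (by simp)
      (fun u hu l hl hk => by rw [(h1 u hu).2.2.2 l hl hk]; simp)
      (fun u hu l hl hk => by rw [(h2 u hu).2.2.2 l hl hk]; simp) ((K.card : ℤ) + K'.card) ?_
    rw [s1 h1, s1 h2, hc]
  have h3 := H i hi j hj hij K hK (fun u hu => ⟨(h1 u hu).1, (h1 u hu).2.1⟩) K' hK'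
    (fun u hu => ⟨(h2 u hu).1, (h2 u hu).2.1⟩) (fun _ => 1) (fun _ => 1)
    (fun _ _ => le_refl 1) (fun u hu => by rw [(h1 u hu).2.2.1]; norm_num)
    (fun _ _ => le_refl 1) (fun u hu => by rw [(h2 u hu).2.2.1]; norm_num) _
    (2 * (K.card + K'.card)) hsv (by
      simp only [sum_const, nsmul_eq_mul]
      push_cast
      ring)
  have key : ∀ {i j : ℕ} {K : Finset ι}, i < n → j < n → (∀ u ∈ K, kp j u = 1 ∧
      ∀ l < n, kp l u ≠ 0 → l = j) →
      ∑ u ∈ K, (R * (((1 : ℕ) : ℤ)) + t j - (if kp j u ≤ (((1 : ℕ) : ℤ)) then mn j u else 0)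
          - ∑ l ∈ (range n).erase i, (nu l u + if l = j then 0 else kp l u * be i l))
        = K.card * (R + t j) - ∑ u ∈ K, (mn j u + ∑ l ∈ (range n).erase i, nu l u) := by
    intro i j K hi hj h
    rw [← nsmul_eq_mul, ← sum_const, ← sum_sub_distrib]
    refine sum_congr rfl fun u hu => ?_
    obtain ⟨h4, h5⟩ := h u hu
    have h6 : ∑ l ∈ (range n).erase i, (nu l u + if l = j then 0 else kp l u * be i l)
        = ∑ l ∈ (range n).erase i, nu l u := by
      refine sum_congr rfl fun l hl => ?_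
      by_cases h7 : l = j
      · rw [if_pos h7, add_zero]
      · rw [if_neg h7]
        have h8 : kp l u = 0 := by
          by_contra h9
          exact h7 (h5 l (mem_range.1 (mem_of_mem_erase hl)) h9)
        rw [h8, zero_mul, add_zero]
    rw [h4, h6, if_pos (by norm_num)]
    push_cast
    ring
  have k1 := key hi hj fun u hu => ⟨(h1 u hu).2.2.1, (h1 u hu).2.2.2⟩
  have k2 := key hj hi fun u hu => ⟨(h2 u hu).2.2.1, (h2 u hu).2.2.2⟩
  beta_reduce at h3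
  rw [k1, k2] at h3
  nlinarith [h3]

end StrL

section TrL

variable {V : Type*} {G : SimpleGraph V} {Z T : Finset V} {hm : V → V} {r m n p : ℕ}
  {B : V → Finset (V × V)} {Ps : V → Finset (Finset V)} {host : Itm V → V} {ρ : V → ℕ}
  {σ : ℕ → V}

/-- **the transport**, any packings with the least number of parts -/
theorem WCoreK.capM (hp : 2 * r ≤ p) (h : WCoreK G Z T r m n p hm)
    (hpk : ∀ x ∈ T, Pk G (cz G Z T hm x) (hz G Z T hm x) (tlo G T hm) (B x) (Ps x))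
    (hmin : ∀ x ∈ T, ∀ B' Ps', Pk G (cz G Z T hm x) (hz G Z T hm x) (tlo G T hm) B' Ps' →
      (Ps x).card ≤ Ps'.card)
    (hst : ∀ x ∈ T, ∀ u ∈ pkf (B x) (Ps x), host u = x)
    (rk : Rank T (tI G Z T hm r Z) ρ σ) :
    CapM ((r : ℤ) - 1) n (fun i => tI G Z T hm r Z (σ i)) (T.biUnion fun x => pkf (B x) (Ps x))
      (fun u => ρ (host u)) (fun u => (ivl u : ℤ))
      (fun i u => (ikp (tlo G T hm) (σ i) u : ℤ))
      (fun i u => (imn G (cz G Z T hm) (tlo G T hm) (σ i) u : ℤ))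
      (fun i j => pcn (tlo G T hm) B (σ i) (σ j)) (fun u => (ipc u : ℤ))
      (fun j u => (nui G (cz G Z T hm (host u)) (tlo G T hm) (B (host u)) (σ j) u : ℤ)) := by
  intro i hi j hj hij K hK hKi K' hK' hKj g g' hg1 hg2 hg1' hg2' sv w hs hw
  have hcard := h.toWHom.cardT
  have hfam : ∀ x ∈ T, Fam (co G) (cz G Z T hm) (hz G Z T hm) (tlo G T hm) x
      (pkf (B x) (Ps x)) := fun x hx => (hpk x hx).fam (h.csys.dCH hx hx).symm
  have hmem : ∀ i < n, σ i ∈ T := fun i hi => rk.mem i (by rw [hcard]; exact hi)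
  have hne : ∀ i < n, ∀ j < n, i ≠ j → σ i ≠ σ j := fun i hi j hj hij h1 =>
    hij (rk.sinj (by rw [hcard]; exact hi) (by rw [hcard]; exact hj) h1)
  have hown : ∀ u ∈ T.biUnion (fun x => pkf (B x) (Ps x)), ∀ l < n, ρ (host u) = l →
      u ∈ pkf (B (σ l)) (Ps (σ l)) ∧ host u = σ l := by
    intro u hu l hl hul
    obtain ⟨x, hx, hux⟩ := mem_biUnion.1 hu
    have h1 := hst x hx u hux
    have h2 : σ l = x := by
      rw [← hul, h1]
      exact rk.left x hx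
    rw [h2, h1]
    exact ⟨hux, rfl⟩
  have her : ∀ i < n, ∀ f : V → ℤ, ∑ z ∈ T.erase (σ i), f z
      = ∑ j ∈ (range n).erase i, f (σ j) := by
    intro i hi f
    rw [← hcard] at hi ⊢
    exact rk.sum_er hi f
  have a1 : ∀ u ∈ K, u ∈ pkf (B (σ i)) (Ps (σ i)) ∧ host u = σ i := fun u hu =>
    hown u (hK hu) i hi (hKi u hu).1
  have a2 : ∀ u ∈ K', u ∈ pkf (B (σ j)) (Ps (σ j)) ∧ host u = σ j := fun u hu =>
    hown u (hK' hu) j hj (hKj u hu).1
  have p1 : ∀ u ∈ K, ipc u = 0 := by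
    intro u hu
    have c3 : (ipc u : ℤ) = 0 := (hKi u hu).2
    exact_mod_cast c3
  have p2 : ∀ u ∈ K', ipc u = 0 := by
    intro u hu
    have c3 : (ipc u : ℤ) = 0 := (hKj u hu).2
    exact_mod_cast c3
  have b1 : ∀ u ∈ K, g u ≤ ikp (tlo G T hm) (σ j) u := fun u hu => by
    have c3 : (g u : ℤ) ≤ (ikp (tlo G T hm) (σ j) u : ℤ) := hg2 u hu
    exact_mod_cast c3
  have b2 : ∀ u ∈ K', g' u ≤ ikp (tlo G T hm) (σ i) u := fun u hu => by
    have c3 : (g' u : ℤ) ≤ (ikp (tlo G T hm) (σ i) u : ℤ) := hg2' u hu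
    exact_mod_cast c3
  have hT : ∀ x ∈ T, ∀ u ∈ pkf (B x) (Ps x), ∀ y, ikp (tlo G T hm) y u ≠ 0 →
      ρ y < n ∧ σ (ρ y) = y := by
    intro x hx u hu y hy
    obtain ⟨v, hv, hvy⟩ := ikp_ne_tail (fun Q hQ => (hfam x hx).two Q (hQ ▸ hu)) hy
    have hvH : v ∈ hz G Z T hm x := by
      rcases u with Q | e
      · exact (hfam x hx).sub Q hu hv
      · simp only [imem, mem_singleton] at hv
        exact hv ▸ (hfam x hx).pcH e hu
    have h5 := mem_of_mem_erase (h.toWHom.ht x hx v hvH)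
    rw [hvy] at h5
    exact ⟨by rw [← hcard]; exact rk.lt y h5, rk.left y h5⟩
  -- the saving
  obtain ⟨cl, N, q, I, hI, hI1, hI2, hsv⟩ := hs
  have h2 := h.savK hpk hmin (hmem i hi) (hmem j hj) (hne i hi j hj hij)
    (fun u hu => (a1 u hu).1) (fun u hu => (a2 u hu).1) hg1 b1 hg1' b2 (cl := cl) (M := N) q
    (fun c => (I c).image σ) (fun u hu hq => by
      obtain ⟨c1, c2⟩ := hI1 u hu hq
      refine ⟨mem_image_of_mem σ c1, fun l hl => ?_⟩
      obtain ⟨b1, b2⟩ := hT _ (hmem i hi) u (a1 u hu).1 l hl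
      refine mem_image.2 ⟨ρ l, c2 (ρ l) b1 ?_, b2⟩
      show (ikp (tlo G T hm) (σ (ρ l)) u : ℤ) ≠ 0
      rw [b2]
      exact_mod_cast hl) (fun u hu hq => by
      obtain ⟨c1, c2⟩ := hI2 u hu hq
      refine ⟨mem_image_of_mem σ c1, fun l hl => ?_⟩
      obtain ⟨b1, b2⟩ := hT _ (hmem j hj) u (a2 u hu).1 l hl
      refine mem_image.2 ⟨ρ l, c2 (ρ l) b1 ?_, b2⟩
      show (ikp (tlo G T hm) (σ (ρ l)) u : ℤ) ≠ 0
      rw [b2]
      exact_mod_cast hl)
  have hIc : ∀ c, ((I c).image σ).card = (I c).card := fun c =>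
    rk.card_image (by rw [hcard]; exact hI c)
  have h3 : (NE G (cpl G (cz G Z T hm) (tlo G T hm) g K (σ i) (σ j)
          ∪ cpl G (cz G Z T hm) (tlo G T hm) g' K' (σ j) (σ i)) : ℤ) + sv
        + (cpl G (cz G Z T hm) (tlo G T hm) g K (σ i) (σ j)
          ∪ cpl G (cz G Z T hm) (tlo G T hm) g' K' (σ j) (σ i)).card
      ≤ ((cpl G (cz G Z T hm) (tlo G T hm) g K (σ i) (σ j)
          ∪ cpl G (cz G Z T hm) (tlo G T hm) g' K' (σ j) (σ i)).card : ℤ)
        * (cpl G (cz G Z T hm) (tlo G T hm) g K (σ i) (σ j)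
          ∪ cpl G (cz G Z T hm) (tlo G T hm) g' K' (σ j) (σ i)).card := by
    simp only [hIc] at h2
    refine le_trans (add_le_add (add_le_add le_rfl (hsv.trans (le_of_eq ?_))) le_rfl) h2
    refine congrArg₂ (· + ·) rfl (congrArg₂ (· + ·)
      (congrArg (fun s : Finset (Itm V × Itm V) => (s.card : ℤ)) ?_)
      (congrArg (fun s : Finset (Itm V × Itm V) => (s.card : ℤ)) ?_))
    · exact Finset.ext fun e => by simp only [mem_filter, Nat.cast_inj, Nat.cast_eq_zero]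
    · exact Finset.ext fun e => by simp only [mem_filter, Nat.cast_inj, Nat.cast_eq_zero]
  have h1 := h.cellGL hp hpk (hmem i hi) (hmem j hj) (hne i hi j hj hij)
    (fun u hu => (a1 u hu).1) (fun u hu => (a2 u hu).1) p1 p2 hg1 b1 hg1' b2
    (M := pcn (tlo G T hm) B (σ i) (σ j) + pcn (tlo G T hm) B (σ j) (σ i))
    (w := w) (sv := sv) rfl hw h3
  have key : ∀ i < n, ∀ j < n, ∀ u, u ∈ pkf (B (σ i)) (Ps (σ i)) ∧ host u = σ i →
      (ipc u = 0 ∧ ikp (tlo G T hm) (σ j) u ≠ 0) →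
      (irs G (cz G Z T hm (σ i)) (tlo G T hm) (B (σ i)) (σ j) u : ℤ)
        ≤ ∑ l ∈ (range n).erase i,
          ((nui G (cz G Z T hm (host u)) (tlo G T hm) (B (host u)) (σ l) u : ℤ)
            + if l = j then 0 else (ikp (tlo G T hm) (σ l) u : ℤ)
              * pcn (tlo G T hm) B (σ i) (σ l)) := by
    intro i hi j hj u hu h0
    refine (h.irs_le hpk (hmem i hi) hu.1 h0).trans ?_
    rw [her i hi, hu.2]
    refine le_of_eq (sum_congr rfl fun l hl => ?_)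
    have e1 : (σ l = σ j) ↔ l = j := ⟨fun h1 => rk.sinj
      (by rw [hcard]; exact mem_range.1 (mem_of_mem_erase hl)) (by rw [hcard]; exact hj) h1,
      fun h1 => by rw [h1]⟩
    by_cases h5 : l = j
    · rw [if_pos h5, if_pos (e1.2 h5)]
    · rw [if_neg h5, if_neg fun h6 => h5 (e1.1 h6)]
      rfl
  have hil : ∀ (j : ℕ) (g : Itm V → ℕ) (u : Itm V),
      (ilm G (cz G Z T hm) (tlo G T hm) (σ j) g u : ℤ)
        = if (ikp (tlo G T hm) (σ j) u : ℤ) ≤ (g u : ℤ)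
          then (imn G (cz G Z T hm) (tlo G T hm) (σ j) u : ℤ) else 0 := by
    intro j g u
    unfold ilm
    split_ifs with h5 h6 h6
    · rfl
    · exact absurd (by exact_mod_cast h5) h6
    · exact absurd (by exact_mod_cast h6) h5
    · rfl
  have s1 : ∑ u ∈ K, (((r : ℤ) - 1) * g u + tI G Z T hm r Z (σ j)
        - (if (ikp (tlo G T hm) (σ j) u : ℤ) ≤ (g u : ℤ)
          then (imn G (cz G Z T hm) (tlo G T hm) (σ j) u : ℤ) else 0)
        - ∑ l ∈ (range n).erase i,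
          ((nui G (cz G Z T hm (host u)) (tlo G T hm) (B (host u)) (σ l) u : ℤ)
            + if l = j then 0 else (ikp (tlo G T hm) (σ l) u : ℤ)
              * pcn (tlo G T hm) B (σ i) (σ l)))
      ≤ ∑ u ∈ K, (((r : ℤ) - 1) * g u + tI G Z T hm r Z (σ j)
        - ilm G (cz G Z T hm) (tlo G T hm) (σ j) g u
        - irs G (cz G Z T hm (σ i)) (tlo G T hm) (B (σ i)) (σ j) u) :=
    sum_le_sum fun u hu => by
      have h5 := key i hi j hj u (a1 u hu) ⟨p1 u hu, by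
        have := hg1 u hu
        have := b1 u hu
        omega⟩
      rw [hil]
      linarith
  have s2 : ∑ u ∈ K', (((r : ℤ) - 1) * g' u + tI G Z T hm r Z (σ i)
        - (if (ikp (tlo G T hm) (σ i) u : ℤ) ≤ (g' u : ℤ)
          then (imn G (cz G Z T hm) (tlo G T hm) (σ i) u : ℤ) else 0)
        - ∑ l ∈ (range n).erase j,
          ((nui G (cz G Z T hm (host u)) (tlo G T hm) (B (host u)) (σ l) u : ℤ)
            + if l = i then 0 else (ikp (tlo G T hm) (σ l) u : ℤ)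
              * pcn (tlo G T hm) B (σ j) (σ l)))
      ≤ ∑ u ∈ K', (((r : ℤ) - 1) * g' u + tI G Z T hm r Z (σ i)
        - ilm G (cz G Z T hm) (tlo G T hm) (σ i) g' u
        - irs G (cz G Z T hm (σ j)) (tlo G T hm) (B (σ j)) (σ i) u) :=
    sum_le_sum fun u hu => by
      have h5 := key j hj i hi u (a2 u hu) ⟨p2 u hu, by
        have := hg1' u hu
        have := b2 u hu
        omega⟩
      rw [hil]
      linarith
  show 2 * ((pcn (tlo G T hm) B (σ i) (σ j) + pcn (tlo G T hm) B (σ j) (σ i) - 1)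
      * ((r : ℤ) - 1)) + 2 * _ + 2 * _ + sv ≤ _
  refine le_trans ?_ h1
  gcongr

end TrL

end Pool.Agent.Lib.MP_f04ccf_co
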