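import Pool.Agent.Lib.MP_f04ccf_co.M.RowCol
import Pool.Agent.Lib.MP_f04ccf_co.M.CStar

/-!
MP_f04ccf_co, notes 17021, 17034: THE CELL TEST.  Slope `1` on the two classes `CP x`, `CP z` and the
points of any items hosted at `x` with a load at `z`, or hosted at `z` with a load at `x`; nothing of
the members is used.  `Fam.cell_k`: any points.  `Fam.cellI`: over the basic integers, an item counts
`R kp + (1 - pc) t - misses - arcs`.
-/

set_option autoImplicit false

namespace Pool.Agent.Lib.MP_f04ccf_co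

open Finset

attribute [local instance] Classical.propDecidable

section CellK

variable {V : Type*} {G : SimpleGraph V} {Z T : Finset V} {hm : V → V} {r m t : ℕ}
  {A : Finset V} {S : V → Finset V} {U : V → Finset (Itm V)}

/-- the hits of the points of items: `P` the points inside a class, `W` the others -/
lemma Grp.hits_split {ι : Type*} {C D : Finset V} {I : Finset ι} {P : ι → Finset V} {k : ι → ℤ}
    {df : ι → V → ℤ} (h : Grp G C I P k df) :
    ∑ i ∈ I, ((C.card : ℤ) * k i - ∑ c ∈ C, df i c)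
      ≤ ∑ c ∈ C, (dg G (I.biUnion P \ D) c : ℤ) + ∑ c ∈ C, (dg G (D ∩ I.biUnion P) c : ℤ) := by
  refine (h.sum_le (W := I.biUnion P) subset_rfl).trans (le_of_eq ?_)
  rw [← sum_add_distrib]
  refine sum_congr rfl fun c _ => ?_
  have h1 : dg G (I.biUnion P) c = dg G (I.biUnion P \ D) c + dg G (D ∩ I.biUnion P) c := by
    have h2 : I.biUnion P = (I.biUnion P \ D) ∪ (D ∩ I.biUnion P) := by
      rw [inter_comm, sdiff_union_inter]
    have h3 : Disjoint (I.biUnion P \ D) (D ∩ I.biUnion P) := by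
      rw [disjoint_left]
      intro v hv hv'
      exact (mem_sdiff.1 hv).2 (mem_inter.1 hv').1
    conv_lhs => rw [h2]
    unfold dg
    rw [filter_union, card_union_of_disjoint (disjoint_filter_filter h3)]
  exact_mod_cast h1

/-- the class edges: those at `P`, those at `Q`, and the rest -/
lemma class_edges {C D P Q : Finset V} (hP : P ⊆ C) (hQ : Q ⊆ D) :
    ∑ c ∈ D, (dg G P c : ℤ) + ∑ c ∈ C, (dg G Q c : ℤ) + ∑ c ∈ D \ Q, (dg G (C \ P) c : ℤ)
      ≤ ∑ c ∈ D, (dg G C c : ℤ) + (P.card : ℤ) * Q.card := by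
  have h1 : ∀ c, (dg G C c : ℤ) = dg G P c + dg G (C \ P) c := by
    intro c
    have h3 : dg G C c = dg G P c + dg G (C \ P) c := by
      conv_lhs => rw [← union_sdiff_of_subset hP]
      unfold dg
      rw [filter_union, card_union_of_disjoint (disjoint_filter_filter disjoint_sdiff)]
    exact_mod_cast h3
  have h2 : ∑ c ∈ D, (dg G C c : ℤ) = ∑ c ∈ D, (dg G P c : ℤ)
      + (∑ c ∈ D \ Q, (dg G (C \ P) c : ℤ) + ∑ c ∈ Q, (dg G (C \ P) c : ℤ)) := by
    rw [sum_sdiff hQ, ← sum_add_distrib]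
    exact sum_congr rfl fun c _ => h1 c
  have h3 : ∑ c ∈ C, (dg G Q c : ℤ) = ∑ c ∈ Q, (dg G C c : ℤ) := by
    have := dg_comm G C Q
    exact_mod_cast this
  have h4 : ∑ c ∈ Q, (dg G C c : ℤ) = ∑ c ∈ Q, (dg G P c : ℤ) + ∑ c ∈ Q, (dg G (C \ P) c : ℤ) := by
    rw [← sum_add_distrib]
    exact sum_congr rfl fun c _ => h1 c
  have h5 : ∑ c ∈ Q, (dg G P c : ℤ) ≤ (P.card : ℤ) * Q.card := by
    have : ∑ c ∈ Q, (dg G P c : ℤ) ≤ ∑ _c ∈ Q, (P.card : ℤ) := sum_le_sum fun c _ => by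
      have h6 : dg G P c ≤ P.card := card_filter_le _ _
      exact_mod_cast h6
    rw [sum_const, nsmul_eq_mul] at this
    linarith [mul_comm (P.card : ℤ) (Q.card : ℤ)]
  linarith

/-- **THE CELL TEST**: `K` items of `x` loaded at `z`, `K'` items of `z` loaded at `x` -/
theorem Fam.cell_k (hF : PFrame G r m t Z T) (hP : PG G r) (hC : CSys G Z T hm A S)
    (hW : WSysT G (co G) A (CP G Z T S) (HP G Z T S) (tlo G T hm))
    (h : ∀ x ∈ A, Fam (co G) (CP G Z T S) (HP G Z T S) (tlo G T hm) x (U x))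
    {x z : V} (hx : x ∈ A) (hz : z ∈ A) (hxz : x ≠ z) {K K' : Finset (Itm V)}
    (hK : K ⊆ U x) (hK' : K' ⊆ U z) (hk : ∀ u ∈ K, ikp (tlo G T hm) z u ≠ 0)
    (hk' : ∀ u ∈ K', ikp (tlo G T hm) x u ≠ 0)
    {X X' : Finset V → Finset V} (hX : ∀ Q, X Q ⊆ oth (tlo G T hm) z Q)
    (hX' : ∀ Q, X' Q ⊆ oth (tlo G T hm) x Q) :
    2 * ∑ u ∈ K, (((CP G Z T S z).card : ℤ) * ikp (tlo G T hm) z u
          - (rcl G (CP G Z T S) (tlo G T hm) X z u).card)
      + 2 * ∑ u ∈ K', (((CP G Z T S x).card : ℤ) * ikp (tlo G T hm) x u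
          - (rcl G (CP G Z T S) (tlo G T hm) X' x u).card)
      + 2 * ((K.biUnion (rpts (tlo G T hm) X z) \ CP G Z T S x).card : ℤ)
          * ((r : ℤ) - 1 - (CP G Z T S z).card)
      + 2 * ((K'.biUnion (rpts (tlo G T hm) X' x) \ CP G Z T S z).card : ℤ)
          * ((r : ℤ) - 1 - (CP G Z T S x).card)
      + 2 * ∑ c ∈ CP G Z T S z \ (CP G Z T S z ∩ K'.biUnion (rpts (tlo G T hm) X' x)),
          (dg G (CP G Z T S x \ (CP G Z T S x ∩ K.biUnion (rpts (tlo G T hm) X z))) c : ℤ)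
      ≤ 2 * ((r : ℤ) - 1 + ((r : ℤ) - 1 - (CP G Z T S x).card)
            * ((r : ℤ) - 1 - (CP G Z T S z).card))
        + 2 * ∑ v ∈ K.biUnion (rpts (tlo G T hm) X z) \ CP G Z T S x,
            (nd G (CP G Z T S x) v : ℤ)
        + 2 * ∑ v ∈ K'.biUnion (rpts (tlo G T hm) X' x) \ CP G Z T S z,
            (nd G (CP G Z T S z) v : ℤ)
        + NE G (K.biUnion (rpts (tlo G T hm) X z) \ CP G Z T S x
            ∪ K'.biUnion (rpts (tlo G T hm) X' x) \ CP G Z T S z)
        + 2 * ((CP G Z T S x ∩ K.biUnion (rpts (tlo G T hm) X z)).card : ℤ)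
          * (CP G Z T S z ∩ K'.biUnion (rpts (tlo G T hm) X' x)).card := by
  have hfil : (K.filter fun u => ikp (tlo G T hm) z u ≠ 0) = K := filter_true_of_mem hk
  have hfil' : (K'.filter fun u => ikp (tlo G T hm) x u ≠ 0) = K' := filter_true_of_mem hk'
  have hg := Fam.grp hW h (D := {x}) (singleton_subset_iff.2 hx) (K := K)
    (by rw [singleton_biUnion]; exact hK) (z := z) hX
  have hg' := Fam.grp hW h (D := {z}) (singleton_subset_iff.2 hz) (K := K')
    (by rw [singleton_biUnion]; exact hK') (z := x) hX'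
  rw [hfil] at hg
  rw [hfil'] at hg'
  have h1 := hg.hits_split (D := CP G Z T S x)
  have h1' := hg'.hits_split (D := CP G Z T S z)
  simp only [sum_rcl] at h1 h1'
  -- where the points are
  have hpt : ∀ v ∈ K.biUnion (rpts (tlo G T hm) X z), v ∈ HP G Z T S x ∨ v ∈ CP G Z T S x := by
    intro v hv
    obtain ⟨u, hu, hvu⟩ := mem_biUnion.1 hv
    exact mem_union.1 ((h x hx).ipts_sub (hK hu) ((h x hx).rpts_sub hX hvu))
  have hpt' : ∀ v ∈ K'.biUnion (rpts (tlo G T hm) X' x), v ∈ HP G Z T S z ∨ v ∈ CP G Z T S z := by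
    intro v hv
    obtain ⟨u, hu, hvu⟩ := mem_biUnion.1 hv
    exact mem_union.1 ((h z hz).ipts_sub (hK' hu) ((h z hz).rpts_sub hX' hvu))
  set W := K.biUnion (rpts (tlo G T hm) X z) \ CP G Z T S x with hWd
  set W' := K'.biUnion (rpts (tlo G T hm) X' x) \ CP G Z T S z with hWd'
  have hWH : ∀ v ∈ W, v ∈ HP G Z T S x := fun v hv =>
    (hpt v (mem_sdiff.1 hv).1).resolve_right (mem_sdiff.1 hv).2
  have hWH' : ∀ v ∈ W', v ∈ HP G Z T S z := fun v hv =>
    (hpt' v (mem_sdiff.1 hv).1).resolve_right (mem_sdiff.1 hv).2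
  have dW : Disjoint W W' := by
    rw [disjoint_left]
    intro v hv hv'
    exact disjoint_left.1 (hW.dHH x hx z hz hxz) (hWH v hv) (hWH' v hv')
  have dx1 : Disjoint (CP G Z T S x) W := by
    rw [disjoint_left]
    intro v hv hv'
    exact disjoint_left.1 (hW.dHC x hx x hx) (hWH v hv') hv
  have dx2 : Disjoint (CP G Z T S x) W' := by
    rw [disjoint_left]
    intro v hv hv'
    exact disjoint_left.1 (hW.dHC z hz x hx) (hWH' v hv') hv
  have dz1 : Disjoint (CP G Z T S z) W := by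
    rw [disjoint_left]
    intro v hv hv'
    exact disjoint_left.1 (hW.dHC x hx z hz) (hWH v hv') hv
  have dz2 : Disjoint (CP G Z T S z) W' := by
    rw [disjoint_left]
    intro v hv hv'
    exact disjoint_left.1 (hW.dHC z hz z hz) (hWH' v hv') hv
  have hclx : Clq G (CP G Z T S x) := hC.CP_clq hF hx
  have hclz : Clq G (CP G Z T S z) := hC.CP_clq hF hz
  have h2 := hP.s1_ne (W := W ∪ W') hclx hclz (hW.dCC x hx z hz hxz)
    (disjoint_union_right.2 ⟨dx1, dx2⟩) (disjoint_union_right.2 ⟨dz1, dz2⟩)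
  have h3 : ∑ c ∈ CP G Z T S z, (dg G (W ∪ W') c : ℤ)
      = ∑ c ∈ CP G Z T S z, (dg G W c : ℤ) + ∑ c ∈ CP G Z T S z, (dg G W' c : ℤ) := by
    rw [← sum_add_distrib]
    refine sum_congr rfl fun c _ => ?_
    have : dg G (W ∪ W') c = dg G W c + dg G W' c := by
      unfold dg
      rw [filter_union, card_union_of_disjoint (disjoint_filter_filter dW)]
    exact_mod_cast this
  have hcomm : ∀ {C D : Finset V}, Disjoint C D → ∑ c ∈ C, (dg G D c : ℤ)
      = (D.card : ℤ) * C.card - ∑ v ∈ D, (nd G C v : ℤ) := by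
    intro C D hCD
    have h4 : ∑ c ∈ C, (dg G D c : ℤ) = ∑ v ∈ D, (dg G C v : ℤ) := by
      have := dg_comm G C D
      exact_mod_cast this
    rw [h4]
    have h5 := sum_dg_nd (G := G) hCD
    linarith
  have h4 := hcomm dz2
  have h4' := hcomm dx2
  have h5 : ∑ w ∈ W ∪ W', (nd G (CP G Z T S x) w : ℤ)
      = ∑ w ∈ W, (nd G (CP G Z T S x) w : ℤ) + ∑ w ∈ W', (nd G (CP G Z T S x) w : ℤ) :=
    sum_union dW
  have h6 := class_edges (G := G) (C := CP G Z T S x) (D := CP G Z T S z)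
    (P := CP G Z T S x ∩ K.biUnion (rpts (tlo G T hm) X z))
    (Q := CP G Z T S z ∩ K'.biUnion (rpts (tlo G T hm) X' x)) inter_subset_left inter_subset_left
  have h7 : ((W ∪ W').card : ℤ) = W.card + W'.card := by
    rw [card_union_of_disjoint dW]
    push_cast
    rfl
  rw [h3, h5, h7] at h2
  nlinarith

lemma card_one1_eq {s : Finset V} (h : s.Nonempty) : (one1 s).card = 1 := by
  unfold one1
  rw [dif_pos h, card_singleton]

/-- the points of an item outside the class of its host: `kp + 1`, one less for PC pairs -/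
theorem Fam.rpts_own (hW : WSysT G (co G) A (CP G Z T S) (HP G Z T S) (tlo G T hm))
    (h : ∀ x ∈ A, Fam (co G) (CP G Z T S) (HP G Z T S) (tlo G T hm) x (U x))
    {x z : V} (hx : x ∈ A) {u : Itm V} (hu : u ∈ U x) (hk : ikp (tlo G T hm) z u ≠ 0) :
    (rpts (tlo G T hm) (fun Q => one1 (oth (tlo G T hm) z Q)) z u \ CP G Z T S x).card + ipc u
      = ikp (tlo G T hm) z u + 1 := by
  have hf := h x hx
  have hHC : ∀ v, v ∈ HP G Z T S x → v ∉ CP G Z T S x := fun v h1 h2 =>
    disjoint_left.1 (hW.dHC x hx x hx) h1 h2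
  rcases u with Q | e
  · have h1 : rpts (tlo G T hm) (fun Q => one1 (oth (tlo G T hm) z Q)) z (Sum.inl Q)
        \ CP G Z T S x = rpts (tlo G T hm) (fun Q => one1 (oth (tlo G T hm) z Q)) z
          (Sum.inl Q) := by
      rw [Finset.sdiff_eq_self_iff_disjoint, disjoint_left]
      intro v hv
      exact hHC v (hf.sub Q hu (hf.rpts_sub (X := fun Q => one1 (oth (tlo G T hm) z Q))
        (fun Q => one1_sub _) hv))
    rw [h1]
    have h2 : Disjoint (tlp (tlo G T hm) Q z) (one1 (oth (tlo G T hm) z Q)) := by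
      rw [disjoint_left]
      intro v hv hv'
      exact (mem_oth.1 (one1_sub _ hv')).2 (mem_tlp.1 hv).2
    have h3 : (rpts (tlo G T hm) (fun Q => one1 (oth (tlo G T hm) z Q)) z (Sum.inl Q)).card
        = (tlp (tlo G T hm) Q z).card + (one1 (oth (tlo G T hm) z Q)).card := by
      simp only [rpts]
      exact card_union_of_disjoint h2
    rw [h3]
    simp only [ipc, add_zero]
    by_cases hone : tlp (tlo G T hm) Q z = Q
    · have h4 : oth (tlo G T hm) z Q = ∅ := by
        unfold oth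
        rw [hone, sdiff_self]
        rfl
      have h5 : ikp (tlo G T hm) z (Sum.inl Q) = Q.card - 1 := by
        simp only [ikp, hone, if_true]
      have h6 := hf.two Q hu
      have h7 : (one1 (∅ : Finset V)).card = 0 := by
        unfold one1
        simp
      rw [h5, h4, hone, h7]
      omega
    · have h5 : ikp (tlo G T hm) z (Sum.inl Q) = (tlp (tlo G T hm) Q z).card := by
        simp only [ikp, hone, if_false]
      have h6 : (oth (tlo G T hm) z Q).Nonempty := by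
        rw [nonempty_iff_ne_empty]
        intro h7
        refine hone (subset_antisymm tlp_sub fun v hv => ?_)
        by_contra h8
        have : v ∈ oth (tlo G T hm) z Q := mem_sdiff.2 ⟨hv, h8⟩
        rw [h7] at this
        exact absurd this (notMem_empty _)
      rw [h5, card_one1_eq h6]
  · have h3 : ikp (tlo G T hm) z (Sum.inr e) = 1 := by
      by_cases h4 : tlo G T hm e.1 = z
      · simp only [ikp, h4, if_true]
      · exact absurd (by simp only [ikp, h4, if_false]) hk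
    have h4 : ({e.1, e.2} : Finset V) \ CP G Z T S x = {e.1} := by
      ext v
      rw [mem_sdiff, mem_insert, mem_singleton, mem_singleton]
      constructor
      · rintro ⟨h5 | h5, h6⟩
        · exact h5
        · exact absurd (h5 ▸ hf.pcC e hu) h6
      · rintro rfl
        exact ⟨Or.inl rfl, hHC _ (hf.pcH e hu)⟩
    simp only [rpts, ipc]
    rw [h3, h4, card_singleton]

/-- the points of items of one host: number, arcs, copies -/
theorem Fam.own_sums (hW : WSysT G (co G) A (CP G Z T S) (HP G Z T S) (tlo G T hm))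
    (h : ∀ x ∈ A, Fam (co G) (CP G Z T S) (HP G Z T S) (tlo G T hm) x (U x))
    {x z : V} (hx : x ∈ A) {K : Finset (Itm V)} (hK : K ⊆ U x)
    (hk : ∀ u ∈ K, ikp (tlo G T hm) z u ≠ 0) :
    ((K.biUnion (rpts (tlo G T hm) (fun Q => one1 (oth (tlo G T hm) z Q)) z)
        \ CP G Z T S x).card : ℤ) = ∑ u ∈ K, ((ikp (tlo G T hm) z u : ℤ) + 1 - ipc u)
    ∧ ∑ v ∈ K.biUnion (rpts (tlo G T hm) (fun Q => one1 (oth (tlo G T hm) z Q)) z)
        \ CP G Z T S x, (nd G (CP G Z T S x) v : ℤ) ≤ ∑ u ∈ K, (iar G (CP G Z T S x) u : ℤ)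
    ∧ ((CP G Z T S x ∩ K.biUnion (rpts (tlo G T hm)
        (fun Q => one1 (oth (tlo G T hm) z Q)) z)).card : ℤ) ≤ ∑ u ∈ K, (ipc u : ℤ) := by
  set X : Finset V → Finset V := fun Q => one1 (oth (tlo G T hm) z Q) with hXd
  have hX : ∀ Q, X Q ⊆ oth (tlo G T hm) z Q := fun Q => one1_sub _
  have hf := h x hx
  have hdis : ∀ u ∈ K, ∀ v ∈ K, u ≠ v → Disjoint (rpts (tlo G T hm) X z u)
      (rpts (tlo G T hm) X z v) := fun u hu v hv huv =>
    (Fam.dis_row hW h hx hx (hK hu) (hK hv) huv (hk u hu) (hk v hv)).mono (hf.rpts_sub hX)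
      (hf.rpts_sub hX)
  have hsd : K.biUnion (rpts (tlo G T hm) X z) \ CP G Z T S x
      = K.biUnion fun u => rpts (tlo G T hm) X z u \ CP G Z T S x := by
    ext v
    simp only [mem_sdiff, mem_biUnion]
    constructor
    · rintro ⟨⟨u, hu, hv⟩, hv'⟩
      exact ⟨u, hu, hv, hv'⟩
    · rintro ⟨u, hu, hv, hv'⟩
      exact ⟨⟨u, hu, hv⟩, hv'⟩
  have hdis' : ∀ u ∈ K, ∀ v ∈ K, u ≠ v → Disjoint (rpts (tlo G T hm) X z u \ CP G Z T S x)
      (rpts (tlo G T hm) X z v \ CP G Z T S x) := fun u hu v hv huv =>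
    (hdis u hu v hv huv).mono sdiff_subset sdiff_subset
  refine ⟨?_, ?_, ?_⟩
  · rw [hsd, card_biUnion hdis']
    push_cast
    refine sum_congr rfl fun u hu => ?_
    have h1 := Fam.rpts_own hW h hx (hK hu) (hk u hu)
    have h2 : ((rpts (tlo G T hm) X z u \ CP G Z T S x).card : ℤ) + ipc u
        = ikp (tlo G T hm) z u + 1 := by exact_mod_cast h1
    linarith
  · rw [hsd, sum_biUnion (fun u hu v hv huv => hdis' u hu v hv huv)]
    refine sum_le_sum fun u hu => ?_
    have h4 := Fam.nd_own (z := z) h hx (hK hu) hX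
    exact_mod_cast h4
  · have h2 : CP G Z T S x ∩ K.biUnion (rpts (tlo G T hm) X z)
        ⊆ K.biUnion fun u => CP G Z T S x ∩ rpts (tlo G T hm) X z u := by
      intro v hv
      obtain ⟨h3, h4⟩ := mem_inter.1 hv
      obtain ⟨u, hu, h5⟩ := mem_biUnion.1 h4
      exact mem_biUnion.2 ⟨u, hu, mem_inter.2 ⟨h3, h5⟩⟩
    have h3 := (card_le_card h2).trans card_biUnion_le
    have h4 : ((CP G Z T S x ∩ K.biUnion (rpts (tlo G T hm) X z)).card : ℤ)
        ≤ ∑ u ∈ K, ((CP G Z T S x ∩ rpts (tlo G T hm) X z u).card : ℤ) := by exact_mod_cast h3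
    refine h4.trans (sum_le_sum fun u hu => ?_)
    rcases u with Q | e
    · have h5 : CP G Z T S x ∩ rpts (tlo G T hm) X z (Sum.inl Q) = ∅ := by
        rw [← disjoint_iff_inter_eq_empty, disjoint_left]
        intro v hv hv'
        exact disjoint_left.1 (hW.dHC x hx x hx) (hf.sub Q (hK hu) (hf.rpts_sub hX hv')) hv
      rw [h5]
      simp
    · have h5 : CP G Z T S x ∩ rpts (tlo G T hm) X z (Sum.inr e) ⊆ {e.2} := by
        intro v hv
        obtain ⟨h6, h7⟩ := mem_inter.1 hv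
        simp only [rpts] at h7
        rcases mem_insert.1 h7 with h8 | h8
        · exact absurd h6 (fun h9 => disjoint_left.1 (hW.dHC x hx x hx) (hf.pcH e (hK hu))
            (h8 ▸ h9))
        · exact h8
      have h6 := card_le_card h5
      rw [card_singleton] at h6
      simp only [ipc]
      exact_mod_cast h6

/-- **(CELL) over the basic integers**: `K` items of `x` with a load at `z`, `K'` items of `z` with a
load at `x`; an item counts `R kp + (1 - pc) t - misses - arcs` -/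
theorem Fam.cellI {S : Finset V} (hF : PFrame G r m t Z T) (hP : PG G r)
    (hC : CSys G Z T hm A fun x => S.filter fun v => hm v = x)
    (hW : WSysT G (co G) A (CP G Z T fun x => S.filter fun v => hm v = x)
      (HP G Z T fun x => S.filter fun v => hm v = x) (tlo G T hm)) {U : V → Finset (Itm V)}
    (h : ∀ x ∈ A, Fam (co G) (CP G Z T fun x => S.filter fun v => hm v = x)
      (HP G Z T fun x => S.filter fun v => hm v = x) (tlo G T hm) x (U x))
    {x z : V} (hx : x ∈ A) (hz : z ∈ A) (hxz : x ≠ z) {K K' : Finset (Itm V)}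
    (hK : K ⊆ U x) (hK' : K' ⊆ U z) (hk : ∀ u ∈ K, ikp (tlo G T hm) z u ≠ 0)
    (hk' : ∀ u ∈ K', ikp (tlo G T hm) x u ≠ 0) :
    2 * ∑ u ∈ K, (((r : ℤ) - 1) * ikp (tlo G T hm) z u + (1 - ipc u) * tI G Z T hm r S z
          - rmr G (CP G Z T fun x => S.filter fun v => hm v = x) (tlo G T hm) z u
          - iar G (CP G Z T (fun x => S.filter fun v => hm v = x) x) u)
      + 2 * ∑ u ∈ K', (((r : ℤ) - 1) * ikp (tlo G T hm) x u + (1 - ipc u) * tI G Z T hm r S x
          - rmr G (CP G Z T fun x => S.filter fun v => hm v = x) (tlo G T hm) x u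
          - iar G (CP G Z T (fun x => S.filter fun v => hm v = x) z) u)
      ≤ 2 * ((r : ℤ) - 1 + tI G Z T hm r S x * tI G Z T hm r S z)
        + (∑ u ∈ K, ((ikp (tlo G T hm) z u : ℤ) + 1 - ipc u)
            + ∑ u ∈ K', ((ikp (tlo G T hm) x u : ℤ) + 1 - ipc u))
          * (∑ u ∈ K, ((ikp (tlo G T hm) z u : ℤ) + 1 - ipc u)
            + ∑ u ∈ K', ((ikp (tlo G T hm) x u : ℤ) + 1 - ipc u) - 1)
        + 2 * (∑ u ∈ K, (ipc u : ℤ)) * ∑ u ∈ K', (ipc u : ℤ) := by
  set C := CP G Z T fun x => S.filter fun v => hm v = x with hCdef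
  set tl := tlo G T hm with htl
  have hcard : ∀ x, ((C x).card : ℤ) = (r : ℤ) - 1 - tI G Z T hm r S x := fun x => card_CP_eq S x
  have h1 := Fam.cell_k hF hP hC hW h hx hz hxz hK hK' hk hk'
    (X := fun Q => one1 (oth tl z Q)) (X' := fun Q => one1 (oth tl x Q))
    (fun Q => one1_sub _) (fun Q => one1_sub _)
  obtain ⟨a1, a2, a3⟩ := Fam.own_sums hW h hx hK hk
  obtain ⟨b1, b2, b3⟩ := Fam.own_sums hW h hz hK' hk'
  have h2 := NE_le_self (G := G) (K.biUnion (rpts tl (fun Q => one1 (oth tl z Q)) z) \ C x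
            ∪ K'.biUnion (rpts tl (fun Q => one1 (oth tl x Q)) x) \ C z)
  have dW : Disjoint (K.biUnion (rpts tl (fun Q => one1 (oth tl z Q)) z) \ C x)
      (K'.biUnion (rpts tl (fun Q => one1 (oth tl x Q)) x) \ C z) := by
    rw [disjoint_left]
    intro v hv hv'
    obtain ⟨v1, v2⟩ := mem_sdiff.1 hv
    obtain ⟨v3, v4⟩ := mem_sdiff.1 hv'
    obtain ⟨u, hu, hvu⟩ := mem_biUnion.1 v1
    obtain ⟨u', hu', hvu'⟩ := mem_biUnion.1 v3
    have c1 := (mem_union.1 ((h x hx).ipts_sub (hK hu) ((h x hx).rpts_sub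
      (fun Q => one1_sub _) hvu))).resolve_right v2
    have c2 := (mem_union.1 ((h z hz).ipts_sub (hK' hu') ((h z hz).rpts_sub
      (fun Q => one1_sub _) hvu'))).resolve_right v4
    exact disjoint_left.1 (hW.dHH x hx z hz hxz) c1 c2
  have h3 : ((K.biUnion (rpts tl (fun Q => one1 (oth tl z Q)) z) \ C x
            ∪ K'.biUnion (rpts tl (fun Q => one1 (oth tl x Q)) x) \ C z).card : ℤ)
      = ∑ u ∈ K, ((ikp tl z u : ℤ) + 1 - ipc u) + ∑ u ∈ K', ((ikp tl x u : ℤ) + 1 - ipc u) := by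
    rw [card_union_of_disjoint dW, ← a1, ← b1]
    push_cast
    rfl
  rw [h3] at h2
  rw [a1, b1] at h1
  have h4 : ((C x ∩ K.biUnion (rpts tl (fun Q => one1 (oth tl z Q)) z)).card : ℤ)
      * (C z ∩ K'.biUnion (rpts tl (fun Q => one1 (oth tl x Q)) x)).card
      ≤ (∑ u ∈ K, (ipc u : ℤ)) * ∑ u ∈ K', (ipc u : ℤ) :=
    mul_le_mul a3 b3 (Nat.cast_nonneg _) (sum_nonneg fun u _ => Nat.cast_nonneg _)
  have h5 : (0 : ℤ) ≤ ∑ c ∈ C z \ (C z ∩ K'.biUnion (rpts tl (fun Q => one1 (oth tl x Q)) x)),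
          (dg G (C x \ (C x ∩ K.biUnion (rpts tl (fun Q => one1 (oth tl z Q)) z))) c : ℤ) :=
    sum_nonneg fun c _ => Nat.cast_nonneg _
  have e1 : ∑ u ∈ K, (((r : ℤ) - 1) * ikp tl z u + (1 - ipc u) * tI G Z T hm r S z
          - rmr G C tl z u - iar G (C x) u)
      = ∑ u ∈ K, (((C z).card : ℤ) * ikp tl z u
          - (rcl G C tl (fun Q => one1 (oth tl z Q)) z u).card)
        + (∑ u ∈ K, ((ikp tl z u : ℤ) + 1 - ipc u)) * ((r : ℤ) - 1 - (C z).card)
        - ∑ u ∈ K, (iar G (C x) u : ℤ) := by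
    rw [sum_mul, ← sum_add_distrib, ← sum_sub_distrib]
    refine sum_congr rfl fun u _ => ?_
    rw [hcard]
    unfold rmr
    ring
  have e2 : ∑ u ∈ K', (((r : ℤ) - 1) * ikp tl x u + (1 - ipc u) * tI G Z T hm r S x
          - rmr G C tl x u - iar G (C z) u)
      = ∑ u ∈ K', (((C x).card : ℤ) * ikp tl x u
          - (rcl G C tl (fun Q => one1 (oth tl x Q)) x u).card)
        + (∑ u ∈ K', ((ikp tl x u : ℤ) + 1 - ipc u)) * ((r : ℤ) - 1 - (C x).card)
        - ∑ u ∈ K', (iar G (C z) u : ℤ) := by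
    rw [sum_mul, ← sum_add_distrib, ← sum_sub_distrib]
    refine sum_congr rfl fun u _ => ?_
    rw [hcard]
    unfold rmr
    ring
  have e3 : (r : ℤ) - 1 - (C x).card = tI G Z T hm r S x := by
    rw [hcard]
    ring
  have e4 : (r : ℤ) - 1 - (C z).card = tI G Z T hm r S z := by
    rw [hcard]
    ring
  rw [e1, e2]
  rw [e3, e4] at h1
  rw [e3, e4]
  linarith

end CellK

end Pool.Agent.Lib.MP_f04ccf_co
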