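import Pool.Agent.Lib.MP_f04ccf_co.M.MatW
import Pool.Agent.Lib.MP_f04ccf_co.M.NuV

/-!
MP_f04ccf_co, PLAN W, cliques: **the cell test at any levels**, misses `imn`, any free class edges, any
saving.

* `Fam.cellL`: over the basic integers (frame), class edges `EX`, saving `sv`;
* `Fam.savTur`, `PkPP.E_cpl`: Turan's bound over the rows `I`; the pairs of items of value one of one host.
-/

set_option autoImplicit false

namespace Pool.Agent.Lib.MP_f04ccf_co

open Finset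

attribute [local instance] Classical.propDecidable

section CellL

variable {V : Type*} {G : SimpleGraph V} {Z T : Finset V} {hm : V → V} {r m t : ℕ}
  {A : Finset V}

/-- the points of the items `K` of the host `x` at the levels `g` in the cell test with `z` -/
noncomputable def cpl (G : SimpleGraph V) (C : V → Finset V) (tl : V → V) (g : Itm V → ℕ)
    (K : Finset (Itm V)) (x z : V) : Finset V :=
  K.biUnion (rpts tl (xlv G C tl z g) z) \ C x

/-- the class points of `x` used by the items `K` at the levels `g` -/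
noncomputable def cql (G : SimpleGraph V) (C : V → Finset V) (tl : V → V) (g : Itm V → ℕ)
    (K : Finset (Itm V)) (x z : V) : Finset V :=
  C x ∩ K.biUnion (rpts tl (xlv G C tl z g) z)

/-- **the cell test at any levels over the basic integers**, class edges `EX`, saving `sv` -/
theorem Fam.cellL {S : V → Finset V} (hF : PFrame G r m t Z T) (hh : Homes G Z T hm) (hP : PG G r)
    (hC : CSys G Z T hm A S)
    (hW : WSysT G (co G) A (CP G Z T S) (HP G Z T S) (tlo G T hm)) {U : V → Finset (Itm V)}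
    (h : ∀ x ∈ A, Fam (co G) (CP G Z T S) (HP G Z T S) (tlo G T hm) x (U x))
    {x z : V} (hx : x ∈ A) (hz : z ∈ A) (hxz : x ≠ z) {K K' : Finset (Itm V)}
    (hK : K ⊆ U x) (hK' : K' ⊆ U z) {g g' : Itm V → ℕ}
    (hg1 : ∀ u ∈ K, 1 ≤ g u) (hg2 : ∀ u ∈ K, g u ≤ ikp (tlo G T hm) z u)
    (hg1' : ∀ u ∈ K', 1 ≤ g' u) (hg2' : ∀ u ∈ K', g' u ≤ ikp (tlo G T hm) x u) {EX sv : ℤ}
    (hE : EX ≤ ∑ c ∈ CP G Z T S z \ cql G (CP G Z T S) (tlo G T hm) g' K' z x,
      (dg G (CP G Z T S x \ cql G (CP G Z T S) (tlo G T hm) g K x z) c : ℤ))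
    (hs : (NE G (cpl G (CP G Z T S) (tlo G T hm) g K x z
          ∪ cpl G (CP G Z T S) (tlo G T hm) g' K' z x) : ℤ) + sv
        + (cpl G (CP G Z T S) (tlo G T hm) g K x z
          ∪ cpl G (CP G Z T S) (tlo G T hm) g' K' z x).card
      ≤ ((cpl G (CP G Z T S) (tlo G T hm) g K x z
          ∪ cpl G (CP G Z T S) (tlo G T hm) g' K' z x).card : ℤ)
        * (cpl G (CP G Z T S) (tlo G T hm) g K x z
          ∪ cpl G (CP G Z T S) (tlo G T hm) g' K' z x).card) :
    2 * ∑ u ∈ K, (((r : ℤ) - 1) * g u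
          + (1 - (ipc u : ℤ)) * ((r : ℤ) - 1 - (CP G Z T S z).card)
          - ilm G (CP G Z T S) (tlo G T hm) z g u - iar G (CP G Z T S x) u)
      + 2 * ∑ u ∈ K', (((r : ℤ) - 1) * g' u
          + (1 - (ipc u : ℤ)) * ((r : ℤ) - 1 - (CP G Z T S x).card)
          - ilm G (CP G Z T S) (tlo G T hm) x g' u - iar G (CP G Z T S z) u)
      + 2 * EX + sv
      ≤ 2 * ((r : ℤ) - 1 + ((r : ℤ) - 1 - (CP G Z T S x).card)
            * ((r : ℤ) - 1 - (CP G Z T S z).card))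
        + (∑ u ∈ K, ((g u : ℤ) + 1 - ipc u) + ∑ u ∈ K', ((g' u : ℤ) + 1 - ipc u))
          * (∑ u ∈ K, ((g u : ℤ) + 1 - ipc u) + ∑ u ∈ K', ((g' u : ℤ) + 1 - ipc u) - 1)
        + 2 * (∑ u ∈ K, (ipc u : ℤ)) * ∑ u ∈ K', (ipc u : ℤ) := by
  have h1 := Fam.cell_levN hF hh hP hC hW h hx hz hxz hK hK' hg1 hg2 hg1' hg2'
  obtain ⟨a1, -, -⟩ := Fam.own_sumsL hF hh hC hW h hx hK hg1 hg2
  obtain ⟨b1, -, -⟩ := Fam.own_sumsL hF hh hC hW h hz hK' hg1' hg2'
  have hHH : ∀ y ∈ A, ∀ L ⊆ U y, ∀ (f : Itm V → ℕ) (w : V),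
      ∀ v ∈ cpl G (CP G Z T S) (tlo G T hm) f L y w, v ∈ HP G Z T S y := by
    intro y hy L hL f w v hv
    obtain ⟨v1, v2⟩ := mem_sdiff.1 hv
    obtain ⟨u, hu, hvu⟩ := mem_biUnion.1 v1
    exact (mem_union.1 ((h y hy).ipts_sub (hL hu) ((h y hy).rpts_sub
      (fun Q => xlv_sub) hvu))).resolve_right v2
  have dW : Disjoint (cpl G (CP G Z T S) (tlo G T hm) g K x z)
      (cpl G (CP G Z T S) (tlo G T hm) g' K' z x) := by
    rw [disjoint_left]
    intro v hv hv'
    exact disjoint_left.1 (hW.dHH x hx z hz hxz) (hHH x hx K hK g z v hv)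
      (hHH z hz K' hK' g' x v hv')
  have h3 : ((cpl G (CP G Z T S) (tlo G T hm) g K x z
      ∪ cpl G (CP G Z T S) (tlo G T hm) g' K' z x).card : ℤ)
      = ∑ u ∈ K, ((g u : ℤ) + 1 - ipc u) + ∑ u ∈ K', ((g' u : ℤ) + 1 - ipc u) := by
    rw [card_union_of_disjoint dW, ← a1, ← b1]
    push_cast
    rfl
  rw [h3] at hs
  have h4 : (NE G (cpl G (CP G Z T S) (tlo G T hm) g K x z
          ∪ cpl G (CP G Z T S) (tlo G T hm) g' K' z x) : ℤ)
      = NE G (K.biUnion (rpts (tlo G T hm) (xlv G (CP G Z T S) (tlo G T hm) z g) z)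
              \ CP G Z T S x
            ∪ K'.biUnion (rpts (tlo G T hm) (xlv G (CP G Z T S) (tlo G T hm) x g') x)
              \ CP G Z T S z) := rfl
  have h5 : ∑ c ∈ CP G Z T S z \ cql G (CP G Z T S) (tlo G T hm) g' K' z x,
      (dg G (CP G Z T S x \ cql G (CP G Z T S) (tlo G T hm) g K x z) c : ℤ)
      = ∑ c ∈ CP G Z T S z \ (CP G Z T S z
            ∩ K'.biUnion (rpts (tlo G T hm) (xlv G (CP G Z T S) (tlo G T hm) x g') x)),
          (dg G (CP G Z T S x \ (CP G Z T S x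
            ∩ K.biUnion (rpts (tlo G T hm) (xlv G (CP G Z T S) (tlo G T hm) z g) z))) c : ℤ) := rfl
  rw [← h4, ← h5] at h1
  linarith

/-- a used point is a member of the host, its tail is loaded -/
lemma Fam.cpl_mem {S : V → Finset V}
    (hW : WSysT G (co G) A (CP G Z T S) (HP G Z T S) (tlo G T hm)) {U : V → Finset (Itm V)}
    (h : ∀ x ∈ A, Fam (co G) (CP G Z T S) (HP G Z T S) (tlo G T hm) x (U x))
    {x z : V} (hx : x ∈ A) {K : Finset (Itm V)} (hK : K ⊆ U x) {g : Itm V → ℕ} {v : V}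
    (hv : v ∈ cpl G (CP G Z T S) (tlo G T hm) g K x z) :
    v ∈ HP G Z T S x ∧ ∃ u ∈ K, ikp (tlo G T hm) (tlo G T hm v) u ≠ 0 := by
  obtain ⟨v1, v2⟩ := mem_sdiff.1 hv
  obtain ⟨u, hu, hvu⟩ := mem_biUnion.1 v1
  have hvi := (h x hx).rpts_sub (fun Q => xlv_sub) hvu
  have c1 := (mem_union.1 ((h x hx).ipts_sub (hK hu) hvi)).resolve_right v2
  refine ⟨c1, u, hu, ikp_tail_ne (fun Q hQ => (h x hx).two Q (hQ ▸ hK hu)) ?_⟩
  rcases u with Q | e
  · exact hvi
  · simp only [ipts] at hvi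
    rcases mem_insert.1 hvi with h3 | h3
    · exact h3 ▸ mem_singleton_self _
    · rw [mem_singleton] at h3
      exact absurd (h3 ▸ (h x hx).pcC e (hK hu)) v2

/-- **Turan's saving over the rows `I`** -/
theorem Fam.savTur {S : V → Finset V} (hF : PFrame G r m t Z T) (hh : Homes G Z T hm)
    (hC : CSys G Z T hm A S)
    (hW : WSysT G (co G) A (CP G Z T S) (HP G Z T S) (tlo G T hm)) {U : V → Finset (Itm V)}
    (h : ∀ x ∈ A, Fam (co G) (CP G Z T S) (HP G Z T S) (tlo G T hm) x (U x))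
    {x z : V} (hx : x ∈ A) (hz : z ∈ A) (hxz : x ≠ z) {K K' : Finset (Itm V)}
    (hK : K ⊆ U x) (hK' : K' ⊆ U z) {g g' : Itm V → ℕ}
    (hg1 : ∀ u ∈ K, 1 ≤ g u) (hg2 : ∀ u ∈ K, g u ≤ ikp (tlo G T hm) z u)
    (hg1' : ∀ u ∈ K', 1 ≤ g' u) (hg2' : ∀ u ∈ K', g' u ≤ ikp (tlo G T hm) x u)
    {I : Finset V} (hxI : x ∈ I) (hzI : z ∈ I)
    (hI : ∀ u ∈ K, ∀ j, ikp (tlo G T hm) j u ≠ 0 → j ∈ I)
    (hI' : ∀ u ∈ K', ∀ j, ikp (tlo G T hm) j u ≠ 0 → j ∈ I) {q sv : ℤ}
    (hsv : sv ≤ 2 * q * (∑ u ∈ K, ((g u : ℤ) + 1 - ipc u) + ∑ u ∈ K', ((g' u : ℤ) + 1 - ipc u))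
      - I.card * (q * (q + 1))) :
    (NE G (cpl G (CP G Z T S) (tlo G T hm) g K x z
          ∪ cpl G (CP G Z T S) (tlo G T hm) g' K' z x) : ℤ) + sv
        + (cpl G (CP G Z T S) (tlo G T hm) g K x z
          ∪ cpl G (CP G Z T S) (tlo G T hm) g' K' z x).card
      ≤ ((cpl G (CP G Z T S) (tlo G T hm) g K x z
          ∪ cpl G (CP G Z T S) (tlo G T hm) g' K' z x).card : ℤ)
        * (cpl G (CP G Z T S) (tlo G T hm) g K x z
          ∪ cpl G (CP G Z T S) (tlo G T hm) g' K' z x).card := by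
  obtain ⟨a1, -, -⟩ := Fam.own_sumsL hF hh hC hW h hx hK hg1 hg2
  obtain ⟨b1, -, -⟩ := Fam.own_sumsL hF hh hC hW h hz hK' hg1' hg2'
  have dW : Disjoint (cpl G (CP G Z T S) (tlo G T hm) g K x z)
      (cpl G (CP G Z T S) (tlo G T hm) g' K' z x) := by
    rw [disjoint_left]
    intro v hv hv'
    exact disjoint_left.1 (hW.dHH x hx z hz hxz) (Fam.cpl_mem hW h hx hK hv).1
      (Fam.cpl_mem hW h hz hK' hv').1
  have h3 : ((cpl G (CP G Z T S) (tlo G T hm) g K x z
      ∪ cpl G (CP G Z T S) (tlo G T hm) g' K' z x).card : ℤ)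
      = ∑ u ∈ K, ((g u : ℤ) + 1 - ipc u) + ∑ u ∈ K', ((g' u : ℤ) + 1 - ipc u) := by
    rw [card_union_of_disjoint dW, ← a1, ← b1]
    push_cast
    rfl
  have h2 := hF.NE_rows (W := cpl G (CP G Z T S) (tlo G T hm) g K x z
          ∪ cpl G (CP G Z T S) (tlo G T hm) g' K' z x) (I := I) (fun v hv => by
    rcases mem_union.1 hv with h3 | h3
    · exact hC.subZ hx (HP_sub (Fam.cpl_mem hW h hx hK h3).1)
    · exact hC.subZ hz (HP_sub (Fam.cpl_mem hW h hz hK' h3).1)) (fun v hv => by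
    rcases mem_union.1 hv with h3 | h3
    · obtain ⟨c1, u, hu, c2⟩ := Fam.cpl_mem hW h hx hK h3
      rw [hC.rws_HP hh hx c1]
      intro j hj
      rcases mem_insert.1 hj with h4 | h4
      · exact h4 ▸ hxI
      · rw [mem_singleton.1 h4]
        exact hI u hu _ c2
    · obtain ⟨c1, u, hu, c2⟩ := Fam.cpl_mem hW h hz hK' h3
      rw [hC.rws_HP hh hz c1]
      intro j hj
      rcases mem_insert.1 hj with h4 | h4
      · exact h4 ▸ hzI
      · rw [mem_singleton.1 h4]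
        exact hI' u hu _ c2) q
  rw [← h3] at hsv
  nlinarith

/-- no saving -/
lemma sav_zero (W : Finset V) {sv : ℤ} (hs : sv ≤ 0) :
    (NE G W : ℤ) + sv + W.card ≤ (W.card : ℤ) * W.card := by
  have h1 := NE_le_self (G := G) W
  linarith

/-- the points of items of value one do not depend on the choice -/
lemma rpts_xlv_one {C : V → Finset V} {tl : V → V} {z : V} {g : Itm V → ℕ} {u : Itm V}
    (h1 : ivl u = 1) (h2 : ∀ Q, u = Sum.inl Q → 2 ≤ Q.card) (hg : 1 ≤ g u)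
    (hk : ikp tl z u ≠ 0) :
    rpts tl (xlv G C tl z g) z u = rpts tl (fun Q => one1 (oth tl z Q)) z u := by
  rcases u with Q | e
  · have h3 := h2 Q rfl
    have hQ : Q.card = 2 := by
      have h4 : Q.card - 1 = 1 := h1
      omega
    have hle : ikp tl z (Sum.inl Q : Itm V) ≤ g (Sum.inl Q) := by
      have h5 : ikp tl z (Sum.inl Q : Itm V) ≤ ivl (Sum.inl Q : Itm V) := ikp_le_ivl
      rw [h1] at h5
      omega
    have e1 : xlv G C tl z g Q = xmn G C tl z Q := if_pos hle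
    simp only [rpts, e1]
    congr 1
    rcases (oth tl z Q).eq_empty_or_nonempty with h4 | h4
    · have h5 : xmn G C tl z Q = ∅ := subset_empty.1 (h4 ▸ xmn_sub)
      have h6 : one1 (oth tl z Q) = ∅ := subset_empty.1 ((one1_sub _).trans h4.le)
      rw [h5, h6]
    · have h5 : (oth tl z Q).card ≤ 1 := by
        have hne : tlp tl Q z ≠ Q := by
          intro h6
          unfold oth at h4
          rw [h6, sdiff_self] at h4
          exact absurd h4 not_nonempty_empty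
        have h6 : (tlp tl Q z).card ≠ 0 := by
          intro h7
          apply hk
          simp only [ikp, hne, if_false]
          exact h7
        have h7 : (oth tl z Q).card + (tlp tl Q z).card = Q.card :=
          card_sdiff_add_card_eq_card tlp_sub
        omega
      rw [one1_eq h5]
      exact eq_of_subset_of_card_le xmn_sub (by rw [xmn_card h4]; exact h5)
  · rfl

/-- **the saving of the items of value one of one host**: adjacent pairs -/
theorem PkPP.E_cpl {C H : V → Finset V} {tl : V → V} {x z : V}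
    {φ : Finset (V × V) → Finset (Finset V) → ℕ} {Q : Finset (V × V)} {Ps : Finset (Finset V)}
    (h : PkPP G (C x) (H x) tl φ Q Ps)
    (h32 : ∀ v ∈ H x, ∀ w ∈ H x, ∀ a ∈ C x, v ≠ w → tl v = tl w →
      ¬ G.Adj v a → ¬ G.Adj w a → G.Adj v w) (hHC : Disjoint (H x) (C x))
    {K : Finset (Itm V)} (hK : K ⊆ pkf Q Ps) {g : Itm V → ℕ} (hg1 : ∀ u ∈ K, 1 ≤ g u)
    (hk : ∀ u ∈ K, ikp tl z u ≠ 0) :
    ((K.filter fun u => ivl u = 1).card : ℤ) * ((K.filter fun u => ivl u = 1).card - 1)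
      - (∑ u ∈ K, (ipc u : ℤ)) * (∑ u ∈ K, (ipc u : ℤ) - 1) ≤ E G (cpl G C tl g K x z) := by
  obtain ⟨L, hL⟩ : ∃ L, L = K.filter fun u => ivl u = 1 := ⟨_, rfl⟩
  have hLK : L ⊆ K := by
    rw [hL]
    exact filter_subset _ _
  have h1 := h.E_cpt (z := z) h32 hHC (hLK.trans hK) (fun u hu => hk u (hLK hu))
    (fun u hu => by
      rw [hL] at hu
      exact (mem_filter.1 hu).2)
  have h2 : ∑ u ∈ L, (ipc u : ℤ) = ∑ u ∈ K, (ipc u : ℤ) := by
    refine sum_subset hLK fun u hu hu' => ?_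
    rcases u with P | e
    · rfl
    · refine absurd ?_ hu'
      rw [hL]
      exact mem_filter.2 ⟨hu, rfl⟩
  have h3 : cpt C tl L x z ⊆ cpl G C tl g K x z := by
    intro v hv
    obtain ⟨v1, v2⟩ := mem_sdiff.1 hv
    obtain ⟨u, hu, hvu⟩ := mem_biUnion.1 v1
    refine mem_sdiff.2 ⟨mem_biUnion.2 ⟨u, hLK hu, ?_⟩, v2⟩
    rw [rpts_xlv_one (G := G) (C := C) (by
      rw [hL] at hu
      exact (mem_filter.1 hu).2) (fun P hP => ?_) (hg1 u (hLK hu)) (hk u (hLK hu))]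
    · exact hvu
    · have h4 := hK (hLK hu)
      rw [hP] at h4
      exact (inl_mem_pkf.1 h4).2
  have h4 : E G (cpt C tl L x z) ≤ E G (cpl G C tl g K x z) := by
    unfold E
    calc ∑ v ∈ cpt C tl L x z, dg G (cpt C tl L x z) v
        ≤ ∑ v ∈ cpt C tl L x z, dg G (cpl G C tl g K x z) v :=
          sum_le_sum fun v _ => card_le_card (filter_subset_filter _ h3)
      _ ≤ _ := sum_le_sum_of_subset h3
  have h5 : (E G (cpt C tl L x z) : ℤ) ≤ E G (cpl G C tl g K x z) := by exact_mod_cast h4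
  rw [h2] at h1
  rw [← hL]
  linarith

end CellL

end Pool.Agent.Lib.MP_f04ccf_co
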