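import Pool.Agent.Lib.MP_f04ccf_co.M.ItY

/-!
MP_f04ccf_co, PLAN W: the number of the parts.  A packing of the host `x` has exactly `h - mu` parts, so
at most `h - mu` items of `x` are cliques (half units included); all others are PC pairs.
`Pk.prt`, `Pk.prv`: one host; `WItK.prt`, `WItK.prv`: over the items with indices.
-/

set_option autoImplicit false

namespace Pool.Agent.Lib.MP_f04ccf_co

open Finset

attribute [local instance] Classical.propDecidable

section PrtP

variable {V : Type*} {G : SimpleGraph V} {C H : Finset V} {ι : Type*} {tl : V → ι}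
  {B : Finset (V × V)} {Ps : Finset (Finset V)}

/-- the members of all items: at most `|H|` -/
theorem Pk.prv (h : Pk G C H tl B Ps) :
    ∑ u ∈ pkf B Ps, ((ivl u : ℤ) + 1 - (ipc u : ℤ)) ≤ H.card := by
  have h1 : ∑ u ∈ pkf B Ps, ((ivl u : ℤ) + 1 - (ipc u : ℤ))
      = ∑ P ∈ Ps.filter (fun P => 2 ≤ P.card), (P.card : ℤ) + B.card := by
    unfold pkf
    rw [sum_disjSum]
    congr 1
    · refine sum_congr rfl fun P hP => ?_
      have h2 := (mem_filter.1 hP).2
      show ((P.card - 1 : ℕ) : ℤ) + 1 - ((0 : ℕ) : ℤ) = P.card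
      omega
    · rw [card_eq_sum_ones]
      push_cast
      refine sum_congr rfl fun e _ => ?_
      show ((1 : ℕ) : ℤ) + 1 - ((1 : ℕ) : ℤ) = 1
      norm_num
  have h2 := h.card_H
  have h3 : ∑ P ∈ Ps.filter (fun P => 2 ≤ P.card), P.card ≤ ∑ P ∈ Ps, P.card :=
    sum_le_sum_of_subset (filter_subset _ _)
  rw [h1]
  have h4 : ((∑ P ∈ Ps.filter (fun P => 2 ≤ P.card), P.card : ℕ) : ℤ)
      ≤ ((∑ P ∈ Ps, P.card : ℕ) : ℤ) := by exact_mod_cast h3
  have h5 : (B.card : ℤ) + ((∑ P ∈ Ps, P.card : ℕ) : ℤ) = H.card := by exact_mod_cast h2.symm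
  push_cast at h4 h5
  linarith

/-- **the cliques (half units included) of one host are at most its parts `|H| - mu`** -/
theorem Pk.prt (h : Pk G C H tl B Ps) :
    ∑ u ∈ pkf B Ps, (1 - (ipc u : ℤ)) ≤ (H.card : ℤ) - ∑ u ∈ pkf B Ps, (ivl u : ℤ) := by
  have h1 := h.prv
  have h2 : ∑ u ∈ pkf B Ps, ((ivl u : ℤ) + 1 - (ipc u : ℤ))
      = ∑ u ∈ pkf B Ps, (ivl u : ℤ) + ∑ u ∈ pkf B Ps, (1 - (ipc u : ℤ)) := by
    rw [← sum_add_distrib]
    exact sum_congr rfl fun u _ => by ring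
  linarith

end PrtP

section PrtI

variable {V : Type*} {G : SimpleGraph V} {Z T : Finset V} {hm : V → V} {r m n p : ℕ}
  {φ : Finset (V × V) → Finset (Finset V) → ℕ} {B : V → Finset (V × V)}
  {Ps : V → Finset (Finset V)} {host : Itm V → V} {ρ : V → ℕ} {σ : ℕ → V}

/-- the members of the items of the host `i`: at most `h i` -/
theorem WItK.prv (h : WCoreK G Z T r m n p hm) (H : WItK G Z T hm r n φ B Ps host ρ σ) {i : ℕ}
    (hi : i < n) :
    ∑ u ∈ (T.biUnion fun x => pkf (B x) (Ps x)).filter (fun u => ρ (host u) = i),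
      ((ivl u : ℤ) + 1 - (ipc u : ℤ)) ≤ hI G Z T hm Z (σ i) := by
  have hcard := h.cardT
  rw [fil_host H.hst H.rk (by rw [hcard]; exact hi)]
  exact (H.pk _ (H.rk.mem i (by rw [hcard]; exact hi))).toPk.prv

/-- **the cliques (half units included) of the host `i`: at most `h i - mu i`** -/
theorem WItK.prt (h : WCoreK G Z T r m n p hm) (H : WItK G Z T hm r n φ B Ps host ρ σ) {i : ℕ}
    (hi : i < n) :
    ∑ u ∈ (T.biUnion fun x => pkf (B x) (Ps x)).filter (fun u => ρ (host u) = i),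
      (1 - (ipc u : ℤ)) ≤ hI G Z T hm Z (σ i) - ∑ u ∈ pkf (B (σ i)) (Ps (σ i)), (ivl u : ℤ) := by
  have hcard := h.cardT
  rw [fil_host H.hst H.rk (by rw [hcard]; exact hi)]
  exact (H.pk _ (H.rk.mem i (by rw [hcard]; exact hi))).toPk.prt

end PrtI

end Pool.Agent.Lib.MP_f04ccf_co
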