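import Pool.Agent.Lib.MP_f04ccf_co.M.MatW
import Pool.Agent.Lib.MP_f04ccf_co.M.PrtN

/-!
MP_f04ccf_co, PLAN W, finite and middle range: **the items with levels** over the indices.
`LvI`: `mn i u` the misses of the item `u` at the row `i` with the best point outside (`imn`), the loads
are at most `2`, the product of the misses, the row test, the row test with the columns of another row
and the cell test at any levels `1 ≤ g u ≤ kp i u` with exactly `g u + 1` points per item.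
`WItK.lvi`: the transport, next to `WItK.itz`.
-/

set_option autoImplicit false

namespace Pool.Agent.Lib.MP_f04ccf_co

open Finset

attribute [local instance] Classical.propDecidable

section StrV

variable {ι : Type*}

/-- **the items with levels** -/
structure LvI (R : ℤ) (n : ℕ) (t s h e : ℕ → ℤ) (U : Finset ι)
    (ho : ι → ℕ) (vl : ι → ℤ) (kp ms mr mn : ℕ → ι → ℤ) (mu : ℕ → ℤ)
    (be : ℕ → ℕ → ℤ) (pc ar : ι → ℤ) : Prop where
  k2 : ∀ u ∈ U, ∀ i < n, kp i u ≤ 2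
  k21 : ∀ u ∈ U, ∀ i < n, ∀ j < n, i ≠ j → kp i u = 2 → kp j u ≤ 1
  vln : ∀ u ∈ U, vl u + 1 ≤ n
  one : ∀ u ∈ U, (∃ i < n, kp i u = 1 ∧ vl u = 1 ∧ mn i u = 0 ∧ ∀ j < n, j ≠ i → kp j u = 0) ∨
    (pc u = 0 ∧ ∑ i ∈ range n, kp i u = vl u + 1)
  msn : ∀ u ∈ U, ∀ i < n, ms i u ≤ mn i u
  mnr : ∀ u ∈ U, ∀ i < n, mn i u ≤ mr i u
  mnc : ∀ u ∈ U, ∀ i < n, mn i u ≤ R - t i
  mn1 : ∀ u ∈ U, vl u = 1 → ∀ i < n, mn i u = ms i u
  mpr : ∀ u ∈ U, ∀ i < n, ∀ j < n, i ≠ j → mn i u * mn j u ≤ R + t i * t j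
  prt : ∀ i < n, ∑ u ∈ U.filter (fun u => ho u = i), (1 - pc u) ≤ h i - mu i
  prv : ∀ i < n, ∑ u ∈ U.filter (fun u => ho u = i), (vl u + 1 - pc u) ≤ h i
  rlv : ∀ i < n, ∀ K ⊆ U, (∀ u ∈ K, ho u ≠ i) → ∀ g : ι → ℕ, (∀ u ∈ K, 1 ≤ g u) →
    (∀ u ∈ K, (g u : ℤ) ≤ kp i u) → ∀ q : ℤ,
    2 * R * s i + 2 * ∑ u ∈ K, ((R - t i) * g u - if kp i u ≤ (g u : ℤ) then mn i u else 0)
      ≤ 2 * e i + 2 * (∑ u ∈ K, ((g u : ℤ) + 1)) * (s i + 1)
        + (∑ u ∈ K, ((g u : ℤ) + 1)) * (∑ u ∈ K, ((g u : ℤ) + 1) - 1)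
        - 2 * q * (∑ u ∈ K, ((g u : ℤ) + 1)) + n * (q * (q + 1))
  clv : ∀ i < n, ∀ j < n, i ≠ j → ∀ K ⊆ U, (∀ u ∈ K, ho u ≠ i) → ∀ g : ι → ℕ,
    (∀ u ∈ K, 1 ≤ g u) → (∀ u ∈ K, (g u : ℤ) ≤ kp i u) →
    2 * R * s i + 2 * ∑ u ∈ K, ((R - t i) * g u - if kp i u ≤ (g u : ℤ) then mn i u else 0)
      + 2 * ∑ u ∈ U.filter (fun u => ho u = i), (kp j u * (R - t j) - ms j u)
      ≤ 2 * e i
        + 2 * (∑ u ∈ K, ((g u : ℤ) + 1 - if ho u = j then pc u else 0) + (R - t j)) * (s i + 1)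
        + (∑ u ∈ K, ((g u : ℤ) + 1 - if ho u = j then pc u else 0))
          * (∑ u ∈ K, ((g u : ℤ) + 1 - if ho u = j then pc u else 0) - 1)
        + 2 * ∑ u ∈ K, (if ho u = j then ar u else (R - t j) * ((g u : ℤ) + 1))
        + 2 * (∑ u ∈ K, (if ho u = j then pc u else 0)) * be i j
  elv : ∀ i < n, ∀ j < n, i ≠ j → ∀ K ⊆ U, (∀ u ∈ K, ho u = i) → ∀ K' ⊆ U,
    (∀ u ∈ K', ho u = j) → ∀ g g' : ι → ℕ, (∀ u ∈ K, 1 ≤ g u) →
    (∀ u ∈ K, (g u : ℤ) ≤ kp j u) → (∀ u ∈ K', 1 ≤ g' u) → (∀ u ∈ K', (g' u : ℤ) ≤ kp i u) →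
    2 * ∑ u ∈ K, (R * g u + (1 - pc u) * t j - (if kp j u ≤ (g u : ℤ) then mn j u else 0) - ar u)
      + 2 * ∑ u ∈ K', (R * g' u + (1 - pc u) * t i
        - (if kp i u ≤ (g' u : ℤ) then mn i u else 0) - ar u)
      ≤ 2 * (R + t i * t j)
        + (∑ u ∈ K, ((g u : ℤ) + 1 - pc u) + ∑ u ∈ K', ((g' u : ℤ) + 1 - pc u))
          * (∑ u ∈ K, ((g u : ℤ) + 1 - pc u) + ∑ u ∈ K', ((g' u : ℤ) + 1 - pc u) - 1)
        + 2 * (∑ u ∈ K, pc u) * ∑ u ∈ K', pc u

end StrV

section ImF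

variable {V : Type*} {G : SimpleGraph V} {Z T : Finset V} {hm : V → V} {r m t : ℕ}
  {A : Finset V} {S : V → Finset V}

/-- **a clique has at least `q - 1` different tails** -/
theorem Fam.q_le (hF : PFrame G r m t Z T) (hh : Homes G Z T hm) (hC : CSys G Z T hm A S)
    {x : V} (hx : x ∈ A) {U : Finset (Itm V)}
    (h : Fam (co G) (CP G Z T S) (HP G Z T S) (tlo G T hm) x U) {Q : Finset V}
    (hu : Sum.inl Q ∈ U) : Q.card ≤ (Q.image (tlo G T hm)).card + 1 := by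
  have hind : Ind G Q := by
    intro a ha b hb hab
    exact (co_adj.1 (h.clq Q hu a ha b hb hab.ne)).2 hab
  have hZ : Q ⊆ Z := fun a ha => MM_sub (hC.slot x hx (HP_sub (h.sub Q hu ha)))
  have h3 := hF.ind_rws hZ hind
  have h4 : (Q.biUnion fun v => rws G T v) ⊆ insert x (Q.image (tlo G T hm)) := by
    intro b hb
    obtain ⟨a, ha, hba⟩ := mem_biUnion.1 hb
    have h5 := h.sub Q hu ha
    have h6 := (hC.ends_of_tlo hh hx h5 rfl).2
    have h7 := (mem_BB.1 (mem_Ph.1 (hC.HP_Ph hx h5)).1).1.2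
    rw [rws_of_notMem h7, h6] at hba
    rcases mem_insert.1 hba with h8 | h8
    · rw [h8]
      exact mem_insert_self _ _
    · rw [mem_singleton.1 h8]
      exact mem_insert_of_mem (mem_image_of_mem _ ha)
  exact h3.trans ((card_le_card h4).trans (card_insert_le _ _))

/-- two rows: the members with these tails are at most three -/
theorem Fam.tlp_pair (hF : PFrame G r m t Z T) (hh : Homes G Z T hm) (hC : CSys G Z T hm A S)
    {x : V} (hx : x ∈ A) {U : Finset (Itm V)}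
    (h : Fam (co G) (CP G Z T S) (HP G Z T S) (tlo G T hm) x U) {Q : Finset V}
    (hu : Sum.inl Q ∈ U) {y z : V} (hyz : y ≠ z) :
    (tlp (tlo G T hm) Q y).card + (tlp (tlo G T hm) Q z).card ≤ 3 := by
  have h1 := h.q_le hF hh hC hx hu
  have h2 : Q.image (tlo G T hm) ⊆ insert y (insert z
      ((Q \ (tlp (tlo G T hm) Q y ∪ tlp (tlo G T hm) Q z)).image (tlo G T hm))) := by
    intro b hb
    obtain ⟨a, ha, rfl⟩ := mem_image.1 hb
    by_cases h3 : tlo G T hm a = y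
    · rw [h3]
      exact mem_insert_self _ _
    by_cases h4 : tlo G T hm a = z
    · rw [h4]
      exact mem_insert_of_mem (mem_insert_self _ _)
    · refine mem_insert_of_mem (mem_insert_of_mem (mem_image_of_mem _ (mem_sdiff.2 ⟨ha, ?_⟩)))
      rw [mem_union, mem_tlp, mem_tlp]
      rintro (⟨-, h5⟩ | ⟨-, h5⟩)
      · exact h3 h5
      · exact h4 h5
  have h5 := card_insert_le y (insert z
      ((Q \ (tlp (tlo G T hm) Q y ∪ tlp (tlo G T hm) Q z)).image (tlo G T hm)))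
  have h6 := card_insert_le z
      ((Q \ (tlp (tlo G T hm) Q y ∪ tlp (tlo G T hm) Q z)).image (tlo G T hm))
  have h7 := card_image_le (s := Q \ (tlp (tlo G T hm) Q y ∪ tlp (tlo G T hm) Q z))
    (f := tlo G T hm)
  have h8 : tlp (tlo G T hm) Q y ∪ tlp (tlo G T hm) Q z ⊆ Q := union_subset tlp_sub tlp_sub
  have h9 := card_sdiff_add_card_eq_card h8
  have h10 : Disjoint (tlp (tlo G T hm) Q y) (tlp (tlo G T hm) Q z) := by
    rw [disjoint_left]
    intro v hv hv'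
    exact hyz ((mem_tlp.1 hv).2.symm.trans (mem_tlp.1 hv').2)
  rw [card_union_of_disjoint h10] at h9
  have h11 := card_le_card h2
  omega

/-- the best point outside is not worse than any other -/
lemma imn_le_rmr {C : V → Finset V} {tl : V → V} {z : V} {u : Itm V} :
    imn G C tl z u ≤ rmr G C tl z u := by
  rcases u with Q | e
  · unfold imn rmr
    simp only [rcl]
    split_ifs with h1
    · exact le_rfl
    · have h2 : (oth tl z Q).Nonempty := by
        rw [nonempty_iff_ne_empty]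
        intro h7
        refine h1 (subset_antisymm tlp_sub fun v hv => ?_)
        by_contra h8
        have : v ∈ oth tl z Q := mem_sdiff.2 ⟨hv, h8⟩
        rw [h7] at this
        exact absurd this (notMem_empty _)
      obtain ⟨v, hv⟩ := card_eq_one.1 (card_one1_eq h2)
      have h3 : v ∈ oth tl z Q := one1_sub _ (by rw [hv]; exact mem_singleton_self v)
      have h4 := xmn_le (G := G) (C := C) h3
      rw [hv]
      exact h4
  · exact le_rfl

end ImF

section TransV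

variable {V : Type*} {G : SimpleGraph V} {Z T : Finset V} {hm : V → V} {r m n p : ℕ}
  {φ : Finset (V × V) → Finset (Finset V) → ℕ} {B : V → Finset (V × V)}
  {Ps : V → Finset (Finset V)} {host : Itm V → V} {ρ : V → ℕ} {σ : ℕ → V}

/-- **the transport to the items with levels**, any packings `Pk` (versions [A], [B], [C]) -/
theorem WHom.lvi (h : WHom G Z T r m n hm)
    (hpk : ∀ x ∈ T, Pk G (cz G Z T hm x) (hz G Z T hm x) (tlo G T hm) (B x) (Ps x))
    (hst : ∀ x ∈ T, ∀ u ∈ pkf (B x) (Ps x), host u = x)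
    (rk : Rank T (tI G Z T hm r Z) ρ σ) :
    LvI ((r : ℤ) - 1) n (fun i => tI G Z T hm r Z (σ i)) (fun i => sI hm r Z (σ i))
      (fun i => hI G Z T hm Z (σ i)) (fun i => eI G hm Z (σ i))
      (T.biUnion fun x => pkf (B x) (Ps x))
      (fun u => ρ (host u)) (fun u => (ivl u : ℤ)) (fun i u => (ikp (tlo G T hm) (σ i) u : ℤ))
      (fun i u => (ims G (cz G Z T hm) (tlo G T hm) (σ i) u : ℤ))
      (fun i u => (rmr G (cz G Z T hm) (tlo G T hm) (σ i) u : ℤ))
      (fun i u => (imn G (cz G Z T hm) (tlo G T hm) (σ i) u : ℤ))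
      (fun i => ∑ u ∈ pkf (B (σ i)) (Ps (σ i)), (ivl u : ℤ))
      (fun i j => pcn (tlo G T hm) B (σ i) (σ j))
      (fun u => (ipc u : ℤ)) (fun u => (iar G (cz G Z T hm (host u)) u : ℤ)) := by
  have hcard := h.cardT
  have hF := h.F.toPFrame
  have hmem : ∀ i < n, σ i ∈ T := fun i hi => rk.mem i (by rw [hcard]; exact hi)
  have hne : ∀ i < n, ∀ j < n, i ≠ j → σ i ≠ σ j := fun i hi j hj hij h1 =>
    hij (rk.sinj (by rw [hcard]; exact hi) (by rw [hcard]; exact hj) h1)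
  have hfam : ∀ x ∈ T, Fam (co G) (cz G Z T hm) (hz G Z T hm) (tlo G T hm) x
      (pkf (B x) (Ps x)) := fun x hx => (hpk x hx).fam (h.csys.dCH hx hx).symm
  have hfil : ∀ i < n, (T.biUnion fun x => pkf (B x) (Ps x)).filter (fun u => ρ (host u) = i)
      = pkf (B (σ i)) (Ps (σ i)) := fun i hi => fil_host hst rk (by rw [hcard]; exact hi)
  have hmemU : ∀ u ∈ T.biUnion fun x => pkf (B x) (Ps x), ∀ j < n,
      (ρ (host u) = j ↔ u ∈ pkf (B (σ j)) (Ps (σ j))) := by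
    intro u hu j hj
    rw [← hfil j hj, mem_filter]
    exact ⟨fun h1 => ⟨hu, h1⟩, fun h1 => h1.2⟩
  have hsum : ∀ f : V → ℤ, ∑ x ∈ T, f x = ∑ i ∈ range n, f (σ i) := by
    intro f
    have := rk.sum f
    rwa [hcard] at this
  have hKe : ∀ i < n, ∀ K ⊆ T.biUnion fun x => pkf (B x) (Ps x),
      (∀ u ∈ K, ρ (host u) ≠ i) → K ⊆ (T.erase (σ i)).biUnion fun x => pkf (B x) (Ps x) := by
    intro i hi K hK hKi u hu
    obtain ⟨x, hx, hux⟩ := mem_biUnion.1 (hK hu)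
    refine mem_biUnion.2 ⟨x, mem_erase.2 ⟨fun h1 => hKi u hu ?_, hx⟩, hux⟩
    rw [hst x hx u hux, h1]
    exact rk.right i (by rw [hcard]; exact hi)
  have htn : ∀ x ∈ T, 0 ≤ tI G Z T hm r Z x := fun x hx => h.hsys.tI_nonneg h.F h.ok hx
  have hone : ∀ x ∈ T, ∀ Q, Sum.inl Q ∈ pkf (B x) (Ps x) → ∀ z ∈ T,
      ikp (tlo G T hm) z (Sum.inl Q) ≤ (tlp (tlo G T hm) Q z).card := by
    intro x hx Q hQ z hz
    simp only [ikp]
    split_ifs with h1
    · rw [h1]
      exact Nat.sub_le _ _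
    · exact le_rfl
  have hcardC : ∀ i, ((cz G Z T hm (σ i)).card : ℤ) = (r : ℤ) - 1 - tI G Z T hm r Z (σ i) :=
    fun i => card_CP_eq Z (σ i)
  refine ⟨?_, ?_, ?_, ?_, ?_, ?_, ?_, ?_, ?_, ?_, ?_, ?_, ?_, ?_⟩
  · -- k2
    intro u hu i hi
    obtain ⟨x, hx, hux⟩ := mem_biUnion.1 hu
    have := ((hfam x hx).ikp_two hF h.hh h.csys hx hux (σ i)).1
    exact_mod_cast this
  · -- k21
    intro u hu i hi j hj hij h2
    obtain ⟨x, hx, hux⟩ := mem_biUnion.1 hu
    have h2' : ikp (tlo G T hm) (σ i) u = 2 := by exact_mod_cast h2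
    obtain ⟨Q, rfl, -, h3⟩ := ((hfam x hx).ikp_two hF h.hh h.csys hx hux (σ i)).2 h2'
    have h4 := (hfam x hx).tlp_pair hF h.hh h.csys hx hux (hne i hi j hj hij)
    have h5 := hone x hx Q hux (σ j) (hmem j hj)
    have : ikp (tlo G T hm) (σ j) (Sum.inl Q) ≤ 1 := by omega
    show ((ikp (tlo G T hm) (σ j) (Sum.inl Q) : ℕ) : ℤ) ≤ 1
    exact_mod_cast this
  · -- vln
    intro u hu
    obtain ⟨x, hx, hux⟩ := mem_biUnion.1 hu
    have hn := h.five
    rcases u with Q | e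
    · have h1 := (hfam x hx).q_le hF h.hh h.csys hx hux
      have h2 : Q.image (tlo G T hm) ⊆ T.erase x := by
        intro b hb
        obtain ⟨a, ha, rfl⟩ := mem_image.1 hb
        exact h.wsysT.tlA x hx a ((hfam x hx).sub Q hux ha)
      have h3 := card_le_card h2
      rw [card_erase_of_mem hx, hcard] at h3
      show ((Q.card - 1 : ℕ) : ℤ) + 1 ≤ n
      omega
    · show ((1 : ℕ) : ℤ) + 1 ≤ n
      omega
  · -- one
    intro u hu
    obtain ⟨x, hx, hux⟩ := mem_biUnion.1 hu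
    rcases u with Q | e
    · by_cases hex : ∃ y ∈ T, tlp (tlo G T hm) Q y = Q
      · left
        obtain ⟨y, hy, hyQ⟩ := hex
        have h2 := (hfam x hx).two Q hux
        have h3 := (hfam x hx).tlp_two hF h.hh h.csys hx hux y
        rw [hyQ] at h3
        have hc : Q.card = 2 := le_antisymm h3 h2
        have hyi : σ (ρ y) = y := rk.left y hy
        refine ⟨ρ y, by rw [← hcard]; exact rk.lt y hy, ?_, ?_, ?_, ?_⟩
        · show ((ikp (tlo G T hm) (σ (ρ y)) (Sum.inl Q) : ℕ) : ℤ) = 1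
          rw [hyi]
          simp only [ikp, hyQ, if_true, hc]
          norm_num
        · show ((ivl (Sum.inl Q : Itm V) : ℕ) : ℤ) = 1
          simp only [ivl, hc]
          norm_num
        · show ((imn G (cz G Z T hm) (tlo G T hm) (σ (ρ y)) (Sum.inl Q) : ℕ) : ℤ) = 0
          rw [hyi, imn_one hyQ]
          rfl
        · intro j hj hjy
          show ((ikp (tlo G T hm) (σ j) (Sum.inl Q) : ℕ) : ℤ) = 0
          have h4 : tlp (tlo G T hm) Q (σ j) = ∅ := by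
            rw [← not_nonempty_iff_eq_empty]
            rintro ⟨v, hv⟩
            have h5 := mem_tlp.1 hv
            rw [← hyQ] at h5
            have h6 := (mem_tlp.1 h5.1).2
            rw [h5.2] at h6
            exact hjy (by rw [← h6]; exact (rk.right j (by rw [hcard]; exact hj)).symm)
          have h5 : tlp (tlo G T hm) Q (σ j) ≠ Q := by
            rw [h4]
            rintro rfl
            simp at h2
          have h6 : ikp (tlo G T hm) (σ j) (Sum.inl Q) = (tlp (tlo G T hm) Q (σ j)).card := by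
            simp only [ikp, h5, if_false]
          rw [h6, h4, card_empty]
          rfl
      · right
        push Not at hex
        have h1 := Fam.sum_ikp h.wsysT hx (hfam x hx) hux hex
        refine ⟨rfl, ?_⟩
        show ∑ i ∈ range n, ((ikp (tlo G T hm) (σ i) (Sum.inl Q) : ℕ) : ℤ)
          = ((ivl (Sum.inl Q : Itm V) : ℕ) : ℤ) + 1
        rw [← hsum fun z => ((ikp (tlo G T hm) z (Sum.inl Q) : ℕ) : ℤ)]
        exact_mod_cast h1
    · left
      have h1 := mem_of_mem_erase (h.wsysT.tlA x hx e.1 ((hfam x hx).pcH e hux))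
      have hyi : σ (ρ (tlo G T hm e.1)) = tlo G T hm e.1 := rk.left _ h1
      refine ⟨ρ (tlo G T hm e.1), by rw [← hcard]; exact rk.lt _ h1, ?_, rfl, ?_, ?_⟩
      · show ((ikp (tlo G T hm) (σ (ρ (tlo G T hm e.1))) (Sum.inr e) : ℕ) : ℤ) = 1
        rw [hyi]
        simp only [ikp, if_true]
        rfl
      · show ((imn G (cz G Z T hm) (tlo G T hm) _ (Sum.inr e) : ℕ) : ℤ) = 0
        rw [imn_pc]
        rfl
      · intro j hj hjy
        show ((ikp (tlo G T hm) (σ j) (Sum.inr e) : ℕ) : ℤ) = 0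
        have h2 : tlo G T hm e.1 ≠ σ j := fun h3 => hjy (by
          rw [h3]
          exact (rk.right j (by rw [hcard]; exact hj)).symm)
        simp only [ikp, h2, if_false]
        rfl
  · -- msn
    intro u hu i hi
    have := ims_le_imn (G := G) (C := cz G Z T hm) (tl := tlo G T hm) (z := σ i) (u := u)
    exact_mod_cast this
  · -- mnr
    intro u hu i hi
    have := imn_le_rmr (G := G) (C := cz G Z T hm) (tl := tlo G T hm) (z := σ i) (u := u)
    exact_mod_cast this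
  · -- mnc
    intro u hu i hi
    have h1 : imn G (cz G Z T hm) (tlo G T hm) (σ i) u ≤ (cz G Z T hm (σ i)).card :=
      card_le_card rcl_sub
    show ((imn G (cz G Z T hm) (tlo G T hm) (σ i) u : ℕ) : ℤ) ≤ (r : ℤ) - 1 - _
    rw [← hcardC i]
    exact_mod_cast h1
  · -- mn1
    intro u hu h1 i hi
    show ((imn G (cz G Z T hm) (tlo G T hm) (σ i) u : ℕ) : ℤ)
      = ((ims G (cz G Z T hm) (tlo G T hm) (σ i) u : ℕ) : ℤ)
    have h1' : ivl u = 1 := by exact_mod_cast h1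
    by_cases h2 : ikp (tlo G T hm) (σ i) u = 0
    · have h3 := imn_load (G := G) (C := cz G Z T hm) (tl := tlo G T hm) (z := σ i) (u := u)
      have h4 := ims_le_imn (G := G) (C := cz G Z T hm) (tl := tlo G T hm) (z := σ i) (u := u)
      rw [h2, Nat.zero_mul] at h3
      have : imn G (cz G Z T hm) (tlo G T hm) (σ i) u
        = ims G (cz G Z T hm) (tlo G T hm) (σ i) u := by omega
      exact_mod_cast this
    · exact_mod_cast imn_eq h1' h2
  · -- mpr
    intro u hu i hi j hj hij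
    obtain ⟨x, hx, hux⟩ := mem_biUnion.1 hu
    have hr : (0 : ℤ) ≤ (r : ℤ) - 1 := by
      have := h.hr
      have : 1 ≤ r := by omega
      have : (1 : ℤ) ≤ r := by exact_mod_cast this
      linarith
    have h0 : (0 : ℤ) ≤ (r : ℤ) - 1 + tI G Z T hm r Z (σ i) * tI G Z T hm r Z (σ j) := by
      have := mul_nonneg (htn _ (hmem i hi)) (htn _ (hmem j hj))
      linarith
    have hz0 : ∀ k, ikp (tlo G T hm) (σ k) u = 0 →
        imn G (cz G Z T hm) (tlo G T hm) (σ k) u = 0 := by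
      intro k h2
      have h3 := imn_load (G := G) (C := cz G Z T hm) (tl := tlo G T hm) (z := σ k) (u := u)
      rw [h2, Nat.zero_mul] at h3
      exact Nat.le_zero.1 h3
    show ((imn G (cz G Z T hm) (tlo G T hm) (σ i) u : ℕ) : ℤ)
      * ((imn G (cz G Z T hm) (tlo G T hm) (σ j) u : ℕ) : ℤ) ≤ _
    by_cases h1 : ikp (tlo G T hm) (σ i) u = 0
    · rw [hz0 i h1]
      push_cast
      linarith
    by_cases h2 : ikp (tlo G T hm) (σ j) u = 0
    · rw [hz0 j h2]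
      push_cast
      linarith
    have h3 := (hfam x hx).prodr hF h.hh h.gp.P h.csys h.wsysT hx hux (hmem i hi) (hmem j hj)
      (hne i hi j hj hij) h1 h2
    have e1 : (r : ℤ) - 1 - (cz G Z T hm (σ i)).card = tI G Z T hm r Z (σ i) := by
      rw [hcardC]
      ring
    have e2 : (r : ℤ) - 1 - (cz G Z T hm (σ j)).card = tI G Z T hm r Z (σ j) := by
      rw [hcardC]
      ring
    rw [e1, e2] at h3
    exact h3
  · intro i hi
    rw [hfil i hi]
    exact (hpk _ (hmem i hi)).prt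
  · intro i hi
    rw [hfil i hi]
    exact (hpk _ (hmem i hi)).prv
  · -- rlv
    intro i hi K hK hKi g hg1 hg2 q
    have hK' := hKe i hi K hK hKi
    have hg2' : ∀ u ∈ K, g u ≤ ikp (tlo G T hm) (σ i) u := fun u hu => by
      exact_mod_cast hg2 u hu
    have h1 := Fam.row_lev hF h.hh h.gp.P h.csys h.wsysT hfam (hmem i hi) hK' hg1 hg2'
    have h2 := Fam.NE_lev hF h.hh h.csys h.wsysT hfam (z := σ i) hK' hg1 hg2' q
    have h3 := two_eI (G := G) (hm := hm) Z (σ i)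
    have h4 : (((Z.filter fun v => hm v = σ i).card : ℤ) - r) = sI hm r Z (σ i) := rfl
    have e1 : ∑ u ∈ K, (((r : ℤ) - 1 - tI G Z T hm r Z (σ i)) * g u
          - if ((ikp (tlo G T hm) (σ i) u : ℕ) : ℤ) ≤ (g u : ℤ)
            then ((imn G (cz G Z T hm) (tlo G T hm) (σ i) u : ℕ) : ℤ) else 0)
        = ∑ u ∈ K, (((cz G Z T hm (σ i)).card : ℤ) * g u
          - ilm G (cz G Z T hm) (tlo G T hm) (σ i) g u) := by
      refine sum_congr rfl fun u _ => ?_
      rw [hcardC]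
      unfold ilm
      by_cases h5 : ikp (tlo G T hm) (σ i) u ≤ g u
      · have h6 : ((ikp (tlo G T hm) (σ i) u : ℕ) : ℤ) ≤ (g u : ℤ) := by exact_mod_cast h5
        rw [if_pos h5, if_pos h6]
      · have h6 : ¬ ((ikp (tlo G T hm) (σ i) u : ℕ) : ℤ) ≤ (g u : ℤ) := fun h7 =>
          h5 (by exact_mod_cast h7)
        rw [if_neg h5, if_neg h6]
        rfl
    rw [h4, ← h3] at h1
    rw [hcard] at h2
    show 2 * ((r : ℤ) - 1) * sI hm r Z (σ i) + 2 * ∑ u ∈ K,
        (((r : ℤ) - 1 - tI G Z T hm r Z (σ i)) * g u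
          - if ((ikp (tlo G T hm) (σ i) u : ℕ) : ℤ) ≤ (g u : ℤ)
            then ((imn G (cz G Z T hm) (tlo G T hm) (σ i) u : ℕ) : ℤ) else 0) ≤ _
    rw [e1]
    linarith
  · -- clv
    intro i hi j hj hij K hK hKi g hg1 hg2
    have hK' := hKe i hi K hK hKi
    have hg2' : ∀ u ∈ K, g u ≤ ikp (tlo G T hm) (σ i) u := fun u hu => by
      exact_mod_cast hg2 u hu
    have h1 := Fam.col_lev hF h.hh h.gp.P h.csys h.wsysT hfam (hmem i hi) (hmem j hj)
      (hne i hi j hj hij) hK' hg1 hg2'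
    have h3 := two_eI (G := G) (hm := hm) Z (σ i)
    have h4 : (((Z.filter fun v => hm v = σ i).card : ℤ) - r) = sI hm r Z (σ i) := rfl
    have e1 : ∑ u ∈ K, (((r : ℤ) - 1 - tI G Z T hm r Z (σ i)) * g u
          - if ((ikp (tlo G T hm) (σ i) u : ℕ) : ℤ) ≤ (g u : ℤ)
            then ((imn G (cz G Z T hm) (tlo G T hm) (σ i) u : ℕ) : ℤ) else 0)
        = ∑ u ∈ K, (((cz G Z T hm (σ i)).card : ℤ) * g u
          - ilm G (cz G Z T hm) (tlo G T hm) (σ i) g u) := by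
      refine sum_congr rfl fun u _ => ?_
      rw [hcardC]
      unfold ilm
      by_cases h5 : ikp (tlo G T hm) (σ i) u ≤ g u
      · have h6 : ((ikp (tlo G T hm) (σ i) u : ℕ) : ℤ) ≤ (g u : ℤ) := by exact_mod_cast h5
        rw [if_pos h5, if_pos h6]
      · have h6 : ¬ ((ikp (tlo G T hm) (σ i) u : ℕ) : ℤ) ≤ (g u : ℤ) := fun h7 =>
          h5 (by exact_mod_cast h7)
        rw [if_neg h5, if_neg h6]
        rfl
    have e2 : ∑ u ∈ (T.biUnion fun x => pkf (B x) (Ps x)).filter (fun u => ρ (host u) = i),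
          (((ikp (tlo G T hm) (σ j) u : ℕ) : ℤ) * ((r : ℤ) - 1 - tI G Z T hm r Z (σ j))
            - ((ims G (cz G Z T hm) (tlo G T hm) (σ j) u : ℕ) : ℤ))
        = ∑ u ∈ pkf (B (σ i)) (Ps (σ i)), iht G (cz G Z T hm) (tlo G T hm) (σ j) u := by
      rw [hfil i hi]
      refine sum_congr rfl fun u _ => ?_
      unfold iht
      rw [hcardC]
      ring
    have hif : ∀ u ∈ K, (ρ (host u) = j ↔ u ∈ pkf (B (σ j)) (Ps (σ j))) := fun u hu =>
      hmemU u (hK hu) j hj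
    have e3 : ∑ u ∈ K, ((g u : ℤ) + 1 - if ρ (host u) = j then (ipc u : ℤ) else 0)
        = ∑ u ∈ K, ((g u : ℤ) + 1 - if u ∈ pkf (B (σ j)) (Ps (σ j)) then (ipc u : ℤ) else 0) :=
      sum_congr rfl fun u hu => by simp only [hif u hu]
    have e4 : ∑ u ∈ K, (if ρ (host u) = j then (iar G (cz G Z T hm (host u)) u : ℤ)
          else ((r : ℤ) - 1 - tI G Z T hm r Z (σ j)) * ((g u : ℤ) + 1))
        = ∑ u ∈ K, (if u ∈ pkf (B (σ j)) (Ps (σ j)) then (iar G (cz G Z T hm (σ j)) u : ℤ)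
            else ((cz G Z T hm (σ j)).card : ℤ) * ((g u : ℤ) + 1)) := by
      refine sum_congr rfl fun u hu => ?_
      by_cases h5 : u ∈ pkf (B (σ j)) (Ps (σ j))
      · rw [if_pos h5, if_pos ((hif u hu).2 h5), hst _ (hmem j hj) u h5]
      · rw [if_neg h5, if_neg fun h6 => h5 ((hif u hu).1 h6), hcardC]
    have e5 : ∑ u ∈ K, (if ρ (host u) = j then (ipc u : ℤ) else 0)
        = ∑ u ∈ K, (if u ∈ pkf (B (σ j)) (Ps (σ j)) then (ipc u : ℤ) else 0) :=
      sum_congr rfl fun u hu => by simp only [hif u hu]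
    have e6 : ∑ u ∈ pkf (B (σ i)) (Ps (σ i)), (ipc u : ℤ) * ikp (tlo G T hm) (σ j) u
        = pcn (tlo G T hm) B (σ i) (σ j) := by
      exact sum_ipc (tlo G T hm) (σ j) (B (σ i)) (Ps (σ i))
    rw [h4, ← h3] at h1
    show 2 * ((r : ℤ) - 1) * sI hm r Z (σ i) + 2 * ∑ u ∈ K,
        (((r : ℤ) - 1 - tI G Z T hm r Z (σ i)) * g u
          - if ((ikp (tlo G T hm) (σ i) u : ℕ) : ℤ) ≤ (g u : ℤ)
            then ((imn G (cz G Z T hm) (tlo G T hm) (σ i) u : ℕ) : ℤ) else 0)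
      + 2 * ∑ u ∈ (T.biUnion fun x => pkf (B x) (Ps x)).filter (fun u => ρ (host u) = i),
          (((ikp (tlo G T hm) (σ j) u : ℕ) : ℤ) * ((r : ℤ) - 1 - tI G Z T hm r Z (σ j))
            - ((ims G (cz G Z T hm) (tlo G T hm) (σ j) u : ℕ) : ℤ))
      ≤ 2 * eI G hm Z (σ i)
        + 2 * (∑ u ∈ K, ((g u : ℤ) + 1 - if ρ (host u) = j then (ipc u : ℤ) else 0)
          + ((r : ℤ) - 1 - tI G Z T hm r Z (σ j))) * (sI hm r Z (σ i) + 1)
        + (∑ u ∈ K, ((g u : ℤ) + 1 - if ρ (host u) = j then (ipc u : ℤ) else 0))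
          * (∑ u ∈ K, ((g u : ℤ) + 1 - if ρ (host u) = j then (ipc u : ℤ) else 0) - 1)
        + 2 * ∑ u ∈ K, (if ρ (host u) = j then (iar G (cz G Z T hm (host u)) u : ℤ)
          else ((r : ℤ) - 1 - tI G Z T hm r Z (σ j)) * ((g u : ℤ) + 1))
        + 2 * (∑ u ∈ K, (if ρ (host u) = j then (ipc u : ℤ) else 0))
          * pcn (tlo G T hm) B (σ i) (σ j)
    rw [e1, e2, e3, e4, e5, ← e6, ← hcardC j]
    exact h1
  · -- elv
    intro i hi j hj hij K hK hKi K' hK' hKj g g' hg1 hg2 hg1' hg2'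
    have a1 : K ⊆ pkf (B (σ i)) (Ps (σ i)) := fun u hu =>
      (hmemU u (hK hu) i hi).1 (hKi u hu)
    have a2 : K' ⊆ pkf (B (σ j)) (Ps (σ j)) := fun u hu =>
      (hmemU u (hK' hu) j hj).1 (hKj u hu)
    have h1 := Fam.cell_lev hF h.hh h.gp.P h.csys h.wsysT hfam (hmem i hi) (hmem j hj)
      (hne i hi j hj hij) a1 a2 hg1 (fun u hu => by exact_mod_cast hg2 u hu) hg1'
      (fun u hu => by exact_mod_cast hg2' u hu)
    have e0 : ∀ k, ∀ g : Itm V → ℕ, ∀ u : Itm V,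
        (if ((ikp (tlo G T hm) (σ k) u : ℕ) : ℤ) ≤ (g u : ℤ)
            then ((imn G (cz G Z T hm) (tlo G T hm) (σ k) u : ℕ) : ℤ) else 0)
        = ((ilm G (cz G Z T hm) (tlo G T hm) (σ k) g u : ℕ) : ℤ) := by
      intro k g u
      unfold ilm
      by_cases h5 : ikp (tlo G T hm) (σ k) u ≤ g u
      · have h6 : ((ikp (tlo G T hm) (σ k) u : ℕ) : ℤ) ≤ (g u : ℤ) := by exact_mod_cast h5
        rw [if_pos h5, if_pos h6]
      · have h6 : ¬ ((ikp (tlo G T hm) (σ k) u : ℕ) : ℤ) ≤ (g u : ℤ) := fun h7 =>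
          h5 (by exact_mod_cast h7)
        rw [if_neg h5, if_neg h6]
        rfl
    have e1 : (r : ℤ) - 1 - (cz G Z T hm (σ i)).card = tI G Z T hm r Z (σ i) := by
      rw [hcardC]
      ring
    have e2 : (r : ℤ) - 1 - (cz G Z T hm (σ j)).card = tI G Z T hm r Z (σ j) := by
      rw [hcardC]
      ring
    rw [e1, e2] at h1
    have e3 : ∑ u ∈ K, (((r : ℤ) - 1) * g u + (1 - (ipc u : ℤ)) * tI G Z T hm r Z (σ j)
          - (if ((ikp (tlo G T hm) (σ j) u : ℕ) : ℤ) ≤ (g u : ℤ)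
            then ((imn G (cz G Z T hm) (tlo G T hm) (σ j) u : ℕ) : ℤ) else 0)
          - (iar G (cz G Z T hm (host u)) u : ℤ))
        = ∑ u ∈ K, (((r : ℤ) - 1) * g u + (1 - (ipc u : ℤ)) * tI G Z T hm r Z (σ j)
          - ((ilm G (cz G Z T hm) (tlo G T hm) (σ j) g u : ℕ) : ℤ)
          - (iar G (cz G Z T hm (σ i)) u : ℤ)) :=
      sum_congr rfl fun u hu => by rw [e0, hst _ (hmem i hi) u (a1 hu)]
    have e4 : ∑ u ∈ K', (((r : ℤ) - 1) * g' u + (1 - (ipc u : ℤ)) * tI G Z T hm r Z (σ i)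
          - (if ((ikp (tlo G T hm) (σ i) u : ℕ) : ℤ) ≤ (g' u : ℤ)
            then ((imn G (cz G Z T hm) (tlo G T hm) (σ i) u : ℕ) : ℤ) else 0)
          - (iar G (cz G Z T hm (host u)) u : ℤ))
        = ∑ u ∈ K', (((r : ℤ) - 1) * g' u + (1 - (ipc u : ℤ)) * tI G Z T hm r Z (σ i)
          - ((ilm G (cz G Z T hm) (tlo G T hm) (σ i) g' u : ℕ) : ℤ)
          - (iar G (cz G Z T hm (σ j)) u : ℤ)) :=
      sum_congr rfl fun u hu => by rw [e0, hst _ (hmem j hj) u (a2 hu)]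
    show 2 * ∑ u ∈ K, (((r : ℤ) - 1) * g u + (1 - (ipc u : ℤ)) * tI G Z T hm r Z (σ j)
          - (if ((ikp (tlo G T hm) (σ j) u : ℕ) : ℤ) ≤ (g u : ℤ)
            then ((imn G (cz G Z T hm) (tlo G T hm) (σ j) u : ℕ) : ℤ) else 0)
          - (iar G (cz G Z T hm (host u)) u : ℤ))
      + 2 * ∑ u ∈ K', (((r : ℤ) - 1) * g' u + (1 - (ipc u : ℤ)) * tI G Z T hm r Z (σ i)
          - (if ((ikp (tlo G T hm) (σ i) u : ℕ) : ℤ) ≤ (g' u : ℤ)
            then ((imn G (cz G Z T hm) (tlo G T hm) (σ i) u : ℕ) : ℤ) else 0)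
          - (iar G (cz G Z T hm (host u)) u : ℤ)) ≤ _
    rw [e3, e4]
    exact h1

/-- version [B] -/
theorem WItK.lvi (h : WCoreK G Z T r m n p hm) (H : WItK G Z T hm r n φ B Ps host ρ σ) :
    LvI ((r : ℤ) - 1) n (fun i => tI G Z T hm r Z (σ i)) (fun i => sI hm r Z (σ i))
      (fun i => hI G Z T hm Z (σ i)) (fun i => eI G hm Z (σ i))
      (T.biUnion fun x => pkf (B x) (Ps x))
      (fun u => ρ (host u)) (fun u => (ivl u : ℤ)) (fun i u => (ikp (tlo G T hm) (σ i) u : ℤ))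
      (fun i u => (ims G (cz G Z T hm) (tlo G T hm) (σ i) u : ℤ))
      (fun i u => (rmr G (cz G Z T hm) (tlo G T hm) (σ i) u : ℤ))
      (fun i u => (imn G (cz G Z T hm) (tlo G T hm) (σ i) u : ℤ))
      (fun i => ∑ u ∈ pkf (B (σ i)) (Ps (σ i)), (ivl u : ℤ))
      (fun i j => pcn (tlo G T hm) B (σ i) (σ j))
      (fun u => (ipc u : ℤ)) (fun u => (iar G (cz G Z T hm (host u)) u : ℤ)) :=
  h.toWHom.lvi (fun x hx => (H.pk x hx).toPk) H.hst H.rk

end TransV

end Pool.Agent.Lib.MP_f04ccf_co
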