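import Pool.Agent.Lib.MP_f04ccf_co.M.RowMS
import Pool.Agent.Lib.MP_f04ccf_co.M.NuV

/-!
MP_f04ccf_co, PLAN W, version [B]: the payments of the cells in the row test with columns.

* `PayC K X z j P`: the payment `P` of the cell `{z, j}` in the test of `z` with the column of `j`;
* `WCoreK.payC_cell` (the arcs, helper94), `WCoreK.payC_item` (rectangle of any item, helper58),
  `WCoreK.payC_out`, `WCoreK.payC_in` (rectangle of an N-type of either home);
* `WCoreK.rowM_pay`: `RowM` with a payment of every cell.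
-/

set_option autoImplicit false

namespace Pool.Agent.Lib.MP_f04ccf_co

open Finset

attribute [local instance] Classical.propDecidable

section PayU

variable {V : Type*} {G : SimpleGraph V} {Z T : Finset V} {hm : V → V} {r m n p : ℕ}
  {B : V → Finset (V × V)} {Ps : V → Finset (Finset V)}

variable (G Z T hm B Ps) in
/-- the payment `P` of the cell `{z, j}` in the test of `z` with the column of `j`, used items `K` -/
def PayC (K : Finset (Itm V)) (X : Finset V → Finset V) (z j : V) (P : ℤ) : Prop :=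
  P ≤ ∑ c ∈ cz G Z T hm j \ K.biUnion (rpts (tlo G T hm) X z),
        (dg G (cz G Z T hm z \ (pcz (tlo G T hm) j (pkf (B z) (Ps z))).image Prod.snd) c : ℤ)
      + ∑ v ∈ (K.filter fun u => u ∈ pkf (B j) (Ps j)).biUnion (rpts (tlo G T hm) X z)
          \ cz G Z T hm j, (dg G (hz G Z T hm z) v : ℤ)

lemma PayC.mono {K : Finset (Itm V)} {X : Finset V → Finset V} {z j : V} {P P' : ℤ}
    (h : PayC G Z T hm B Ps K X z j P) (h' : P' ≤ P) : PayC G Z T hm B Ps K X z j P' := by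
  unfold PayC at *
  exact h'.trans h

/-- **the payments of all cells at once** -/
theorem WCoreK.payJ (h : WCoreK G Z T r m n p hm)
    (hB : ∀ x ∈ T, Pk G (cz G Z T hm x) (hz G Z T hm x) (tlo G T hm) (B x) (Ps x))
    {z : V} {J : Finset V} (hJ : J ⊆ T) {K : Finset (Itm V)}
    {X : Finset V → Finset V} (hX : ∀ Q, X Q ⊆ oth (tlo G T hm) z Q) {P : V → ℤ}
    (hP : ∀ j ∈ J, PayC G Z T hm B Ps K X z j (P j)) :
    2 * ∑ j ∈ J, P j
      ≤ 2 * ∑ j ∈ J, ∑ c ∈ cz G Z T hm j \ K.biUnion (rpts (tlo G T hm) X z),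
          (dg G (cz G Z T hm z \ (pcz (tlo G T hm) j (pkf (B z) (Ps z))).image Prod.snd) c : ℤ)
        + 2 * ∑ v ∈ K.biUnion (rpts (tlo G T hm) X z) \ J.biUnion (cz G Z T hm),
          (dg G (hz G Z T hm z) v : ℤ) := by
  have hfam : ∀ x ∈ T, Fam (co G) (cz G Z T hm) (hz G Z T hm) (tlo G T hm) x
      (pkf (B x) (Ps x)) := fun x hx => (hB x hx).fam (h.csys.dCH hx hx).symm
  have hW := h.wsysT
  obtain ⟨W, hWd⟩ : ∃ W, W = K.biUnion (rpts (tlo G T hm) X z) := ⟨_, rfl⟩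
  obtain ⟨Wj, hWj⟩ : ∃ Wj : V → Finset V, Wj = fun j =>
    (K.filter fun u => u ∈ pkf (B j) (Ps j)).biUnion (rpts (tlo G T hm) X z) := ⟨_, rfl⟩
  rw [← hWd]
  have hin : ∀ j ∈ J, ∀ v ∈ Wj j, v ∈ W ∧ v ∈ hz G Z T hm j ∪ cz G Z T hm j := by
    intro j hj v hv
    rw [hWj] at hv
    obtain ⟨u, hu, hv2⟩ := mem_biUnion.1 hv
    obtain ⟨hu1, hu2⟩ := mem_filter.1 hu
    refine ⟨hWd ▸ mem_biUnion.2 ⟨u, hu1, hv2⟩, ?_⟩
    exact (hfam j (hJ hj)).ipts_sub hu2 ((hfam j (hJ hj)).rpts_sub hX hv2)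
  have h1 : ∀ j ∈ J, P j
      ≤ ∑ c ∈ cz G Z T hm j \ W,
          (dg G (cz G Z T hm z \ (pcz (tlo G T hm) j (pkf (B z) (Ps z))).image Prod.snd) c : ℤ)
        + ∑ v ∈ Wj j \ cz G Z T hm j, (dg G (hz G Z T hm z) v : ℤ) := by
    intro j hj
    have h2 := hP j hj
    unfold PayC at h2
    rw [← hWd] at h2
    rw [hWj]
    exact h2
  have h2 := sum_le_sum h1
  rw [sum_add_distrib] at h2
  have h3 : ∑ j ∈ J, ∑ v ∈ Wj j \ cz G Z T hm j, (dg G (hz G Z T hm z) v : ℤ)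
      ≤ ∑ v ∈ W \ J.biUnion (cz G Z T hm), (dg G (hz G Z T hm z) v : ℤ) := by
    have hH : ∀ j ∈ J, ∀ v ∈ Wj j \ cz G Z T hm j, v ∈ hz G Z T hm j := by
      intro j hj v hv
      obtain ⟨hv1, hv2⟩ := mem_sdiff.1 hv
      rcases mem_union.1 (hin j hj v hv1).2 with h4 | h4
      · exact h4
      · exact absurd h4 hv2
    rw [← sum_biUnion]
    · refine sum_le_sum_of_subset_of_nonneg (fun v hv => ?_) fun _ _ _ => Nat.cast_nonneg _
      obtain ⟨j, hj, hv2⟩ := mem_biUnion.1 hv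
      refine mem_sdiff.2 ⟨(hin j hj v (mem_sdiff.1 hv2).1).1, fun h4 => ?_⟩
      obtain ⟨l, hl, hvl⟩ := mem_biUnion.1 h4
      exact disjoint_left.1 (hW.dHC j (hJ hj) l (hJ hl)) (hH j hj v hv2) hvl
    · intro i hi j hj hij
      show Disjoint _ _
      rw [disjoint_left]
      intro v hv hv'
      exact disjoint_left.1 (h.csys.dHP (hJ hi) (hJ hj) hij) (hH i hi v hv) (hH j hj v hv')
  linarith

/-- **`RowM` with a payment of every cell** -/
theorem WCoreK.rowM_pay (h : WCoreK G Z T r m n p hm)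
    (hB : ∀ x ∈ T, Pk G (cz G Z T hm x) (hz G Z T hm x) (tlo G T hm) (B x) (Ps x)) (q : ℤ)
    {z : V} (hz' : z ∈ T) {J : Finset V} (hJ : J ⊆ T) (hzJ : z ∉ J) {K : Finset (Itm V)}
    (hK : K ⊆ (T.erase z).biUnion fun x => pkf (B x) (Ps x))
    (hk : ∀ u ∈ K, ikp (tlo G T hm) z u ≠ 0)
    {X : Finset V → Finset V} (hX : ∀ Q, X Q ⊆ oth (tlo G T hm) z Q) {P : V → ℤ}
    (hP : ∀ j ∈ J, PayC G Z T hm B Ps K X z j (P j)) :
    RowM G Z T hm r (fun x => Z.filter fun v => hm v = x) (fun x => pkf (B x) (Ps x)) q K X z J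
      (2 * ∑ j ∈ J, P j) := by
  have hfam : ∀ x ∈ T, Fam (co G) (cz G Z T hm) (hz G Z T hm) (tlo G T hm) x
      (pkf (B x) (Ps x)) := fun x hx => (hB x hx).fam (h.csys.dCH hx hx).symm
  refine (Fam.rowM_of h.F.toPFrame h.gp.P h.csys h.wsysT hfam q hz' hJ hzJ hK hk hX
    (F := fun j => cz G Z T hm z \ (pcz (tlo G T hm) j (pkf (B z) (Ps z))).image Prod.snd)
    (fun _ _ => sdiff_subset)
    (fun j _ e he h0 => (mem_sdiff.1 h0).2 (mem_image_of_mem _ he))).mono ?_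
  exact h.payJ hB hJ hX hP

/-- **the own cell paid** -/
theorem WCoreK.payC_cell (hp : 2 * r ≤ p) (h : WCoreK G Z T r m n p hm)
    (hB : ∀ x ∈ T, Pk G (cz G Z T hm x) (hz G Z T hm x) (tlo G T hm) (B x) (Ps x))
    {z j : V} (hz' : z ∈ T) (hj : j ∈ T) (hzj : z ≠ j) {K : Finset (Itm V)}
    (hK : K ⊆ (T.erase z).biUnion fun x => pkf (B x) (Ps x))
    (hk : ∀ u ∈ K, ikp (tlo G T hm) z u ≠ 0)
    {X : Finset V → Finset V} (hX : ∀ Q, X Q ⊆ oth (tlo G T hm) z Q) :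
    PayC G Z T hm B Ps K X z j (nxk G (cz G Z T hm z) (hz G Z T hm z) (tlo G T hm) (B z) j
        + pfw G (cz G Z T hm z) (tlo G T hm) (B z) j) := by
  have hfam : ∀ x ∈ T, Fam (co G) (cz G Z T hm) (hz G Z T hm) (tlo G T hm) x
      (pkf (B x) (Ps x)) := fun x hx => (hB x hx).fam (h.csys.dCH hx hx).symm
  have hW := h.wsysT
  obtain ⟨W, hWd⟩ : ∃ W, W = K.biUnion (rpts (tlo G T hm) X z) := ⟨_, rfl⟩
  obtain ⟨Wj, hWj⟩ : ∃ Wj : V → Finset V, Wj = fun j =>
    (K.filter fun u => u ∈ pkf (B j) (Ps j)).biUnion (rpts (tlo G T hm) X z) := ⟨_, rfl⟩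
  have h2 := h.cellP hp hB hz' hj hzj
    (K := K.filter fun u => u ∈ pkf (B j) (Ps j)) ((filter_subset _ _).trans hK)
    (fun u hu => hk u (mem_filter.1 hu).1) hX
  have h3 : (K.filter fun u => u ∈ pkf (B j) (Ps j)).biUnion (rpts (tlo G T hm) X z) = Wj j := by
    rw [hWj]
  rw [h3] at h2
  unfold PayC
  rw [h3, ← hWd]
  have h4 : cz G Z T hm j \ Wj j ⊆ cz G Z T hm j \ W := by
    intro c hc
    obtain ⟨hc1, hc2⟩ := mem_sdiff.1 hc
    refine mem_sdiff.2 ⟨hc1, fun hc3 => hc2 ?_⟩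
    rw [hWd] at hc3
    obtain ⟨u, hu, hcu⟩ := mem_biUnion.1 hc3
    obtain ⟨x, hx, hux⟩ := mem_biUnion.1 (hK hu)
    have hxT := mem_of_mem_erase hx
    have hf := hfam x hxT
    rw [hWj]
    refine mem_biUnion.2 ⟨u, mem_filter.2 ⟨hu, ?_⟩, hcu⟩
    rcases u with Q | e
    · exact absurd hc1 (disjoint_left.1 (hW.dHC x hxT j hj) (hf.sub Q hux
        (hf.rpts_sub hX hcu)))
    · simp only [rpts] at hcu
      rcases mem_insert.1 hcu with h8 | h8
      · exact absurd hc1 (disjoint_left.1 (hW.dHC x hxT j hj) (h8 ▸ hf.pcH e hux))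
      · rw [mem_singleton] at h8
        have hxj : x = j := by
          by_contra hne
          exact disjoint_left.1 (hW.dCC x hxT j hj hne) (hf.pcC e hux) (h8 ▸ hc1)
        exact hxj ▸ hux
  have h5 : ∑ c ∈ cz G Z T hm j \ Wj j,
        (dg G (cz G Z T hm z \ (pcz (tlo G T hm) j (pkf (B z) (Ps z))).image Prod.snd) c : ℤ)
      ≤ ∑ c ∈ cz G Z T hm j \ W,
        (dg G (cz G Z T hm z \ (pcz (tlo G T hm) j (pkf (B z) (Ps z))).image Prod.snd) c : ℤ) :=
    sum_le_sum_of_subset_of_nonneg h4 fun _ _ _ => Nat.cast_nonneg _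
  linarith

/-- **any rectangle of class edges** -/
theorem WCoreK.payC_rect {z j : V} {K : Finset (Itm V)} {X : Finset V → Finset V}
    {X1 Y1 : Finset V} (hX1 : X1 ⊆ cz G Z T hm z)
    (hX2 : ∀ e ∈ pcz (tlo G T hm) j (pkf (B z) (Ps z)), e.2 ∉ X1)
    (hY1 : Y1 ⊆ cz G Z T hm j \ K.biUnion (rpts (tlo G T hm) X z))
    (hXY : ∀ a ∈ X1, ∀ c ∈ Y1, G.Adj a c) :
    PayC G Z T hm B Ps K X z j ((X1.card : ℤ) * Y1.card) := by
  unfold PayC
  have h1 := rect_dg (G := G)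
    (D := cz G Z T hm z \ (pcz (tlo G T hm) j (pkf (B z) (Ps z))).image Prod.snd)
    (fun a ha => mem_sdiff.2 ⟨hX1 ha, fun h2 => by
      obtain ⟨e, he, rfl⟩ := mem_image.1 h2
      exact hX2 e he ha⟩) hY1 hXY
  have h2 : (0 : ℤ) ≤ ∑ v ∈ (K.filter fun u => u ∈ pkf (B j) (Ps j)).biUnion
      (rpts (tlo G T hm) X z) \ cz G Z T hm j, (dg G (hz G Z T hm z) v : ℤ) :=
    sum_nonneg fun _ _ => Nat.cast_nonneg _
  linarith

/-- the number of the used class points of the column, over all items `K` -/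
lemma WCoreK.used_le (h : WCoreK G Z T r m n p hm)
    (hB : ∀ x ∈ T, Pk G (cz G Z T hm x) (hz G Z T hm x) (tlo G T hm) (B x) (Ps x))
    {z j : V} (hj : j ∈ T) {K : Finset (Itm V)}
    (hK : K ⊆ (T.erase z).biUnion fun x => pkf (B x) (Ps x)) :
    ((cz G Z T hm j ∩ (K.filter fun u => ikp (tlo G T hm) z u ≠ 0).biUnion
      (rpts (tlo G T hm) (fun Q => one1 (oth (tlo G T hm) z Q)) z)).card : ℤ)
      ≤ ∑ u ∈ K, (if u ∈ pkf (B j) (Ps j) then (ipc u : ℤ) * ikp (tlo G T hm) z u else 0) := by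
  have hfam : ∀ x ∈ T, Fam (co G) (cz G Z T hm) (hz G Z T hm) (tlo G T hm) x
      (pkf (B x) (Ps x)) := fun x hx => (hB x hx).fam (h.csys.dCH hx hx).symm
  have h1 := Fam.card_colpts h.wsysT hfam hj
    (K := K.filter fun u => ikp (tlo G T hm) z u ≠ 0) ((filter_subset _ _).trans hK)
    (fun u hu => (mem_filter.1 hu).2)
    (X := fun Q => one1 (oth (tlo G T hm) z Q)) (fun Q => one1_sub _)
  refine h1.trans ?_
  refine le_trans (sum_le_sum (g := fun u => if u ∈ pkf (B j) (Ps j) then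
    (ipc u : ℤ) * ikp (tlo G T hm) z u else 0) fun u hu => ?_)
    (sum_le_sum_of_subset_of_nonneg (filter_subset _ _) fun u _ _ => ?_)
  · split_ifs
    · have h3 : 1 ≤ ikp (tlo G T hm) z u := Nat.one_le_iff_ne_zero.2 (mem_filter.1 hu).2
      have h4 : (1 : ℤ) ≤ ikp (tlo G T hm) z u := by exact_mod_cast h3
      have h5 : (0 : ℤ) ≤ ipc u := Nat.cast_nonneg _
      nlinarith
    · exact le_rfl
  · split_ifs
    · exact mul_nonneg (Nat.cast_nonneg _) (Nat.cast_nonneg _)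
    · exact le_rfl

/-- class points outside the used points -/
lemma WCoreK.out_ge (h : WCoreK G Z T r m n p hm)
    (hB : ∀ x ∈ T, Pk G (cz G Z T hm x) (hz G Z T hm x) (tlo G T hm) (B x) (Ps x))
    {z j : V} (hj : j ∈ T) {K : Finset (Itm V)}
    (hK : K ⊆ (T.erase z).biUnion fun x => pkf (B x) (Ps x)) {D : Finset V}
    (hD : D ⊆ cz G Z T hm j) :
    max 0 ((D.card : ℤ)
      - ∑ u ∈ K, (if u ∈ pkf (B j) (Ps j) then (ipc u : ℤ) * ikp (tlo G T hm) z u else 0))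
      ≤ ((D \ (K.filter fun u => ikp (tlo G T hm) z u ≠ 0).biUnion
        (rpts (tlo G T hm) (fun Q => one1 (oth (tlo G T hm) z Q)) z)).card : ℤ) := by
  have h3 : D \ (K.filter fun u => ikp (tlo G T hm) z u ≠ 0).biUnion
        (rpts (tlo G T hm) (fun Q => one1 (oth (tlo G T hm) z Q)) z)
      = D \ (cz G Z T hm j ∩ (K.filter fun u => ikp (tlo G T hm) z u ≠ 0).biUnion
        (rpts (tlo G T hm) (fun Q => one1 (oth (tlo G T hm) z Q)) z)) := by
    ext a
    rw [mem_sdiff, mem_sdiff, mem_inter]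
    constructor
    · rintro ⟨h4, h5⟩
      exact ⟨h4, fun h6 => h5 h6.2⟩
    · rintro ⟨h4, h5⟩
      exact ⟨h4, fun h6 => h5 ⟨hD h4, h6⟩⟩
  rw [h3]
  exact card_sdiff_ge _ _ (h.used_le hB hj hK)

/-- **the rectangle of any item** -/
theorem WCoreK.payC_item (h : WCoreK G Z T r m n p hm)
    (hB : ∀ x ∈ T, Pk G (cz G Z T hm x) (hz G Z T hm x) (tlo G T hm) (B x) (Ps x))
    {z j : V} (hz' : z ∈ T) (hj : j ∈ T) (hzj : z ≠ j) {K : Finset (Itm V)}
    (hK : K ⊆ (T.erase z).biUnion fun x => pkf (B x) (Ps x))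
    {w : Itm V} {x' : V} (hx' : x' ∈ T) (hw : w ∈ pkf (B x') (Ps x')) :
    PayC G Z T hm B Ps (K.filter fun u => ikp (tlo G T hm) z u ≠ 0)
      (fun Q => one1 (oth (tlo G T hm) z Q)) z j
      (max 0 ((ims G (cz G Z T hm) (tlo G T hm) z w : ℤ) - pcn (tlo G T hm) B z j)
        * max 0 ((ims G (cz G Z T hm) (tlo G T hm) j w : ℤ)
          - ∑ u ∈ K, (if u ∈ pkf (B j) (Ps j) then (ipc u : ℤ) * ikp (tlo G T hm) z u
            else 0))) := by
  have hfam : ∀ x ∈ T, Fam (co G) (cz G Z T hm) (hz G Z T hm) (tlo G T hm) x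
      (pkf (B x) (Ps x)) := fun x hx => (hB x hx).fam (h.csys.dCH hx hx).symm
  have hpcz : pcz (tlo G T hm) j (pkf (B z) (Ps z)) = pcs (tlo G T hm) (B z) j := by
    ext e
    rw [mem_pcz, inr_mem_pkf, mem_pcs]
  have hE := WCoreK.payC_rect (G := G) (Z := Z) (T := T) (hm := hm) (B := B) (Ps := Ps)
    (z := z) (j := j) (K := K.filter fun u => ikp (tlo G T hm) z u ≠ 0)
    (X := fun Q => one1 (oth (tlo G T hm) z Q))
    (X1 := icl G (cz G Z T hm) (tlo G T hm) z w \ (pcs (tlo G T hm) (B z) j).image Prod.snd)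
    (Y1 := icl G (cz G Z T hm) (tlo G T hm) j w
      \ (K.filter fun u => ikp (tlo G T hm) z u ≠ 0).biUnion
        (rpts (tlo G T hm) (fun Q => one1 (oth (tlo G T hm) z Q)) z))
    (fun a ha => rcl_sub (mem_sdiff.1 ha).1)
    (fun e he h3 => (mem_sdiff.1 h3).2 (mem_image_of_mem _ (hpcz ▸ he)))
    (sdiff_subset_sdiff rcl_sub subset_rfl)
    (fun a ha c hc => (hfam x' hx').icl_complete h.wsysT hx' hz' hj hzj hw a (mem_sdiff.1 ha).1
      c (mem_sdiff.1 hc).1)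
  refine hE.mono ?_
  have a1 := card_sdiff_ge (icl G (cz G Z T hm) (tlo G T hm) z w)
    ((pcs (tlo G T hm) (B z) j).image Prod.snd) (q := pcn (tlo G T hm) B z j) (by
      unfold pcn
      exact_mod_cast card_image_le)
  have a2 := h.out_ge hB hj hK (D := icl G (cz G Z T hm) (tlo G T hm) j w) rcl_sub
  exact mul_le_mul a1 a2 (le_max_left _ _) (Nat.cast_nonneg _)

/-- **a representative of an item of value one, with its misses at the tail** -/
theorem WCoreK.rep2 (hp : 2 * r ≤ p) (h : WCoreK G Z T r m n p hm) {x y : V} (hx : x ∈ T)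
    (hpk : Pk G (cz G Z T hm x) (hz G Z T hm x) (tlo G T hm) (B x) (Ps x))
    (hmin : ∀ B' Ps', Pk G (cz G Z T hm x) (hz G Z T hm x) (tlo G T hm) B' Ps' →
      (Ps x).card ≤ Ps'.card) {u : Itm V} (hu : u ∈ pkf (B x) (Ps x)) (h1 : ivl u = 1)
    (hk : ikp (tlo G T hm) y u ≠ 0) :
    ∃ v ∈ imem u, v ∈ hz G Z T hm x ∧ tlo G T hm v = y ∧
      nui G (cz G Z T hm x) (tlo G T hm) (B x) y u
        = (frC G (cz G Z T hm x) (tlo G T hm) (B x) v).card ∧
      nui G (cz G Z T hm x) (tlo G T hm) (B x) y u + ipc u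
        ≤ (msd G (cz G Z T hm x) v).card ∧
      max ((nui G (cz G Z T hm x) (tlo G T hm) (B x) y u : ℤ) + ipc u)
        (ims G (cz G Z T hm) (tlo G T hm) y u) ≤ ((msd G (cz G Z T hm y) v).card : ℤ) := by
  obtain ⟨v, hv, hvH, hvy, hnu, h3⟩ := h.rep hx hpk hmin hu h1 hk
  have hyT : y ∈ T := mem_of_mem_erase (hvy ▸ h.toWHom.ht x hx v hvH)
  have h4 : ims G (cz G Z T hm) (tlo G T hm) y u ≤ (msd G (cz G Z T hm y) v).card := by
    rcases u with P | e
    · unfold ims icl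
      simp only [rcl]
      split_ifs with h5
      · rw [card_empty]
        exact Nat.zero_le _
      · refine card_le_card fun c hc => ?_
        obtain ⟨h6, ⟨w, hw, hwy, hcw⟩, h7⟩ := mem_filter.1 hc
        refine (h.mem_msd hx hyT hvH).2 ⟨h6, fun h8 => ?_⟩
        by_cases hvw : w = v
        · exact hcw (hvw ▸ h8.symm)
        · apply h5
          have hc2 : P.card = 2 := by
            simp only [ivl] at h1
            have := (inl_mem_pkf.1 hu).2
            omega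
          have h9 : ({w, v} : Finset V) = P := by
            refine eq_of_subset_of_card_le ?_ ?_
            · intro a ha
              rcases mem_insert.1 ha with rfl | ha
              · exact hw
              · rw [mem_singleton.1 ha]
                exact hv
            · rw [hc2, card_pair hvw]
          unfold tlp
          rw [filter_eq_self, ← h9]
          intro a ha
          rcases mem_insert.1 ha with rfl | ha
          · exact hwy
          · rw [mem_singleton.1 ha]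
            exact hvy
    · unfold ims icl
      simp [rcl]
  refine ⟨v, hv, hvH, hvy, hnu, h3, max_le ?_ ?_⟩
  · have := h3.trans (h.msd_le hp hx hvH hvy)
    exact_mod_cast this
  · exact_mod_cast h4

/-- **the rectangle of an N-type of the column row `j` with tail `z`** -/
theorem WCoreK.payC_out (hp : 2 * r ≤ p) (h : WCoreK G Z T r m n p hm)
    (hB : ∀ x ∈ T, Pk G (cz G Z T hm x) (hz G Z T hm x) (tlo G T hm) (B x) (Ps x))
    (hmin : ∀ x ∈ T, ∀ B' Ps', Pk G (cz G Z T hm x) (hz G Z T hm x) (tlo G T hm) B' Ps' →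
      (Ps x).card ≤ Ps'.card)
    {z j : V} (hz' : z ∈ T) (hj : j ∈ T) (hzj : z ≠ j) {K : Finset (Itm V)}
    (hK : K ⊆ (T.erase z).biUnion fun x => pkf (B x) (Ps x))
    {w : Itm V} (hw : w ∈ pkf (B j) (Ps j)) (hw1 : ivl w = 1) (hwk : ikp (tlo G T hm) z w ≠ 0) :
    PayC G Z T hm B Ps (K.filter fun u => ikp (tlo G T hm) z u ≠ 0)
      (fun Q => one1 (oth (tlo G T hm) z Q)) z j
      ((nui G (cz G Z T hm j) (tlo G T hm) (B j) z w : ℤ)
        * max 0 (max ((nui G (cz G Z T hm j) (tlo G T hm) (B j) z w : ℤ) + ipc w)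
          (ims G (cz G Z T hm) (tlo G T hm) z w) - pcn (tlo G T hm) B z j)) := by
  have hfam : ∀ x ∈ T, Fam (co G) (cz G Z T hm) (hz G Z T hm) (tlo G T hm) x
      (pkf (B x) (Ps x)) := fun x hx => (hB x hx).fam (h.csys.dCH hx hx).symm
  have hpcz : pcz (tlo G T hm) j (pkf (B z) (Ps z)) = pcs (tlo G T hm) (B z) j := by
    ext e
    rw [mem_pcz, inr_mem_pkf, mem_pcs]
  obtain ⟨v, hv, hvH, hvz, hnu, -, h3⟩ := h.rep2 hp hj (hB j hj) (hmin j hj) hw hw1 hwk
  have hcell := h.csys.cellD h.F.toPFrame hj hz' hzj.symm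
  have hvD := h.csys.mem_Dbl_of_tlo h.hh hj hvH hvz
  have hE := WCoreK.payC_rect (G := G) (Z := Z) (T := T) (hm := hm) (B := B) (Ps := Ps)
    (z := z) (j := j) (K := K.filter fun u => ikp (tlo G T hm) z u ≠ 0)
    (X := fun Q => one1 (oth (tlo G T hm) z Q))
    (X1 := msd G (cz G Z T hm z) v \ (pcs (tlo G T hm) (B z) j).image Prod.snd)
    (Y1 := frC G (cz G Z T hm j) (tlo G T hm) (B j) v)
    (fun a ha => ((h.mem_msd hj hz' hvH).1 (mem_sdiff.1 ha).1).1)
    (fun e he h4 => (mem_sdiff.1 h4).2 (mem_image_of_mem _ (hpcz ▸ he)))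
    (fun a ha => by
      obtain ⟨a1, a2, a3⟩ := mem_frC.1 ha
      refine mem_sdiff.2 ⟨a1, fun h4 => ?_⟩
      obtain ⟨u, hu, h7⟩ := mem_biUnion.1 h4
      obtain ⟨hu1, hu2⟩ := mem_filter.1 hu
      obtain ⟨x', hx', hux'⟩ := mem_biUnion.1 (hK hu1)
      obtain ⟨e, rfl, h8, h9, h10⟩ := Fam.cls_pt h.wsysT hfam (mem_of_mem_erase hx') hj hux'
        hu2 (fun Q => one1_sub _) h7 a1
      exact a3 e (inr_mem_pkf.1 (h10 ▸ hux')) h8 (h9.trans hvz.symm))
    (fun a ha c hc => by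
      obtain ⟨a1, a2⟩ := (h.mem_msd hj hz' hvH).1 (mem_sdiff.1 ha).1
      obtain ⟨a3, a4, -⟩ := mem_frC.1 hc
      exact (hcell.rect v hvD c a3 a a1 a4 a2).symm)
  refine hE.mono ?_
  have a1 := card_sdiff_ge (msd G (cz G Z T hm z) v)
    ((pcs (tlo G T hm) (B z) j).image Prod.snd) (q := pcn (tlo G T hm) B z j) (by
      unfold pcn
      exact_mod_cast card_image_le)
  rw [← hnu, mul_comm (nui G (cz G Z T hm j) (tlo G T hm) (B j) z w : ℤ)]
  refine mul_le_mul_of_nonneg_right ?_ (Nat.cast_nonneg _)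
  exact le_trans (max_le_max le_rfl (by linarith)) a1

/-- **the rectangle of an N-type of the row `z` with tail `j`** -/
theorem WCoreK.payC_in (hp : 2 * r ≤ p) (h : WCoreK G Z T r m n p hm)
    (hB : ∀ x ∈ T, Pk G (cz G Z T hm x) (hz G Z T hm x) (tlo G T hm) (B x) (Ps x))
    (hmin : ∀ x ∈ T, ∀ B' Ps', Pk G (cz G Z T hm x) (hz G Z T hm x) (tlo G T hm) B' Ps' →
      (Ps x).card ≤ Ps'.card)
    {z j : V} (hz' : z ∈ T) (hj : j ∈ T) (hzj : z ≠ j) {K : Finset (Itm V)}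
    (hK : K ⊆ (T.erase z).biUnion fun x => pkf (B x) (Ps x))
    {w : Itm V} (hw : w ∈ pkf (B z) (Ps z)) (hw1 : ivl w = 1) (hwk : ikp (tlo G T hm) j w ≠ 0) :
    PayC G Z T hm B Ps (K.filter fun u => ikp (tlo G T hm) z u ≠ 0)
      (fun Q => one1 (oth (tlo G T hm) z Q)) z j
      ((nui G (cz G Z T hm z) (tlo G T hm) (B z) j w : ℤ)
        * max 0 (max ((nui G (cz G Z T hm z) (tlo G T hm) (B z) j w : ℤ) + ipc w)
          (ims G (cz G Z T hm) (tlo G T hm) j w)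
          - ∑ u ∈ K, (if u ∈ pkf (B j) (Ps j) then (ipc u : ℤ) * ikp (tlo G T hm) z u
            else 0))) := by
  obtain ⟨v, hv, hvH, hvj, hnu, -, h3⟩ := h.rep2 hp hz' (hB z hz') (hmin z hz') hw hw1 hwk
  have hcell := h.csys.cellD h.F.toPFrame hz' hj hzj
  have hvD := h.csys.mem_Dbl_of_tlo h.hh hz' hvH hvj
  have hE := WCoreK.payC_rect (G := G) (Z := Z) (T := T) (hm := hm) (B := B) (Ps := Ps)
    (z := z) (j := j) (K := K.filter fun u => ikp (tlo G T hm) z u ≠ 0)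
    (X := fun Q => one1 (oth (tlo G T hm) z Q))
    (X1 := frC G (cz G Z T hm z) (tlo G T hm) (B z) v)
    (Y1 := msd G (cz G Z T hm j) v \ (K.filter fun u => ikp (tlo G T hm) z u ≠ 0).biUnion
        (rpts (tlo G T hm) (fun Q => one1 (oth (tlo G T hm) z Q)) z))
    (fun a ha => (mem_frC.1 ha).1)
    (fun e he h4 => by
      obtain ⟨h5, h6⟩ := mem_pcz.1 he
      obtain ⟨-, -, h7⟩ := mem_frC.1 h4
      exact h7 e (inr_mem_pkf.1 h5) rfl (h6.trans hvj.symm))
    (sdiff_subset_sdiff (fun a ha => ((h.mem_msd hz' hj hvH).1 ha).1) subset_rfl)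
    (fun a ha c hc => by
      obtain ⟨a1, a2⟩ := (h.mem_msd hz' hj hvH).1 (mem_sdiff.1 hc).1
      obtain ⟨a3, a4, -⟩ := mem_frC.1 ha
      exact hcell.rect v hvD a a3 c a1 a4 a2)
  refine hE.mono ?_
  have a2 := h.out_ge hB hj hK (D := msd G (cz G Z T hm j) v)
    (fun a ha => ((h.mem_msd hz' hj hvH).1 ha).1)
  rw [← hnu]
  refine mul_le_mul_of_nonneg_left ?_ (Nat.cast_nonneg _)
  exact le_trans (max_le_max le_rfl (by linarith)) a2

end PayU

end Pool.Agent.Lib.MP_f04ccf_co
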