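import Pool.Agent.Lib.MP_f04ccf_co.M.CellL
import Pool.Agent.Lib.MP_f04ccf_co.M.PayU
import Pool.Agent.Lib.MP_f04ccf_co.M.LvI

/-!
MP_f04ccf_co, PLAN W, version [B]: **the cell test for all items at any levels over the row indices**,
misses `mn` (product bounds for items of any value), with the rectangle of any item, of a member of either
home (free arcs or all its missed points outside the used class points) x (all its missed points at the
tail outside the used ones), and any of the savings (Turan over the rows `I`, items of value one of one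
host).

* `RecC`, `SavC`: the class edges and the savings over the items (numbers);
* `WCoreK.exItem`, `WCoreK.exMem`, `WCoreK.exMem'`: the rectangles;
* `WItK.cellLv`: the field.
-/

set_option autoImplicit false

namespace Pool.Agent.Lib.MP_f04ccf_co

open Finset

attribute [local instance] Classical.propDecidable

section Defs

variable {ι : Type*}

/-- **class edges `EX` of the cell `{i, j}`** outside `p` used class points of `i` and `q` of `j`: the
rectangle of any item, of a member of an item of value one of the host `i` with tail `j`, or of the host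
`j` with tail `i` -/
def RecC (U : Finset ι) (ho : ι → ℕ) (vl : ι → ℤ) (kp ms : ℕ → ι → ℤ) (pc ar : ι → ℤ)
    (nu : ℕ → ι → ℤ) (i j : ℕ) (p q EX : ℤ) : Prop :=
  EX ≤ 0
  ∨ (∃ w ∈ U, EX ≤ max 0 (ms i w - p) * max 0 (ms j w - q))
  ∨ (∃ w ∈ U, ho w = i ∧ vl w = 1 ∧ kp j w ≠ 0 ∧
      EX ≤ max (nu j w) (max (nu j w + pc w) (pc w * ar w) - p)
        * max 0 (max (max (nu j w + pc w) (pc w * ar w)) (ms j w) - q))
  ∨ (∃ w ∈ U, ho w = j ∧ vl w = 1 ∧ kp i w ≠ 0 ∧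
      EX ≤ max (nu i w) (max (nu i w + pc w) (pc w * ar w) - q)
        * max 0 (max (max (nu i w + pc w) (pc w * ar w)) (ms i w) - p))

/-- **the saving `sv`** in the cell test `{i, j}` with the used items `K` of `i` and `K'` of `j`, `W` the
number of their points -/
def SavC (n : ℕ) (vl : ι → ℤ) (kp : ℕ → ι → ℤ) (pc : ι → ℤ) (i j : ℕ) (K K' : Finset ι)
    (W sv : ℤ) : Prop :=
  sv ≤ 0
  ∨ (∃ I ⊆ range n, i ∈ I ∧ j ∈ I ∧ (∀ u ∈ K, ∀ l < n, kp l u ≠ 0 → l ∈ I) ∧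
      (∀ u ∈ K', ∀ l < n, kp l u ≠ 0 → l ∈ I) ∧ ∃ q : ℤ, sv ≤ 2 * q * W - I.card * (q * (q + 1)))
  ∨ sv ≤ (((K.filter fun u => vl u = 1).card : ℤ) * ((K.filter fun u => vl u = 1).card - 1)
        - (∑ u ∈ K, pc u) * (∑ u ∈ K, pc u - 1))
      + (((K'.filter fun u => vl u = 1).card : ℤ) * ((K'.filter fun u => vl u = 1).card - 1)
        - (∑ u ∈ K', pc u) * (∑ u ∈ K', pc u - 1))

end Defs

section Rect

variable {V : Type*} {G : SimpleGraph V} {Z T : Finset V} {hm : V → V} {r m n p : ℕ}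
  {B : V → Finset (V × V)} {Ps : V → Finset (Finset V)}

/-- **the rectangle of any item** -/
theorem WCoreK.exItem (h : WCoreK G Z T r m n p hm)
    (hB : ∀ x ∈ T, Pk G (cz G Z T hm x) (hz G Z T hm x) (tlo G T hm) (B x) (Ps x))
    {x z : V} (hx : x ∈ T) (hz' : z ∈ T) (hxz : x ≠ z) {P P' : Finset V} {a b : ℤ}
    (hP : (P.card : ℤ) ≤ a) (hP' : (P'.card : ℤ) ≤ b) {y : V} (hy : y ∈ T) {w : Itm V}
    (hw : w ∈ pkf (B y) (Ps y)) :
    max 0 ((ims G (cz G Z T hm) (tlo G T hm) x w : ℤ) - a)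
        * max 0 ((ims G (cz G Z T hm) (tlo G T hm) z w : ℤ) - b)
      ≤ ∑ c ∈ cz G Z T hm z \ P', (dg G (cz G Z T hm x \ P) c : ℤ) := by
  have hf := (hB y hy).fam (h.csys.dCH hy hy).symm
  have c3 := rect_dg (G := G) (D := cz G Z T hm x \ P) (D' := cz G Z T hm z \ P')
    (X := icl G (cz G Z T hm) (tlo G T hm) x w \ P) (Y := icl G (cz G Z T hm) (tlo G T hm) z w \ P')
    (sdiff_subset_sdiff rcl_sub subset_rfl) (sdiff_subset_sdiff rcl_sub subset_rfl)
    (fun a ha c hc => hf.icl_complete h.wsysT hy hx hz' hxz hw a (mem_sdiff.1 ha).1 c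
      (mem_sdiff.1 hc).1)
  have c1 := card_sdiff_ge (icl G (cz G Z T hm) (tlo G T hm) x w) P hP
  have c2 := card_sdiff_ge (icl G (cz G Z T hm) (tlo G T hm) z w) P' hP'
  exact (mul_le_mul c1 c2 (le_max_left _ _) (Nat.cast_nonneg _)).trans c3

/-- **the rectangle of a member** `v` of the home `x` with tail `z`: free arcs or all missed points at home,
all missed points at the tail -/
theorem WCoreK.exMem (h : WCoreK G Z T r m n p hm) {x z : V} (hx : x ∈ T) (hz' : z ∈ T)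
    (hxz : x ≠ z) {P P' F : Finset V} {a b k l : ℤ} (hP : (P.card : ℤ) ≤ a)
    (hP' : (P'.card : ℤ) ≤ b) {v : V} (hv : v ∈ hz G Z T hm x) (hvz : tlo G T hm v = z)
    (hF : F ⊆ msd G (cz G Z T hm x) v) (hFP : Disjoint F P)
    (hk : k ≤ ((msd G (cz G Z T hm x) v).card : ℤ)) (hl : l ≤ ((msd G (cz G Z T hm z) v).card : ℤ)) :
    max (F.card : ℤ) (k - a) * max 0 (l - b)
      ≤ ∑ c ∈ cz G Z T hm z \ P', (dg G (cz G Z T hm x \ P) c : ℤ) := by
  have hcell := h.csys.cellD h.F.toPFrame hx hz' hxz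
  have hvD := h.csys.mem_Dbl_of_tlo h.hh hx hv hvz
  have hc : ∀ X : Finset V, X ⊆ msd G (cz G Z T hm x) v → X ⊆ cz G Z T hm x \ P →
      (X.card : ℤ) * max 0 (l - b)
        ≤ ∑ c ∈ cz G Z T hm z \ P', (dg G (cz G Z T hm x \ P) c : ℤ) := by
    intro X hX1 hX2
    have c3 := rect_dg (G := G) (D := cz G Z T hm x \ P) (D' := cz G Z T hm z \ P')
      (X := X) (Y := msd G (cz G Z T hm z) v \ P') hX2
      (sdiff_subset_sdiff (fun a ha => ((h.mem_msd hx hz' hv).1 ha).1) subset_rfl)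
      (fun a ha c hc => by
        obtain ⟨a1, a2⟩ := (h.mem_msd hx hx hv).1 (hX1 ha)
        obtain ⟨a3, a4⟩ := (h.mem_msd hx hz' hv).1 (mem_sdiff.1 hc).1
        exact hcell.rect v hvD a a1 c a3 a2 a4)
    have c2 := card_sdiff_ge (msd G (cz G Z T hm z) v) P' hP'
    refine le_trans (mul_le_mul_of_nonneg_left ?_ (Nat.cast_nonneg _)) c3
    exact (max_le_max le_rfl (by linarith)).trans c2
  rcases le_total ((F.card : ℤ)) (k - a) with h1 | h1
  · rw [max_eq_right h1]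
    have h2 := hc (msd G (cz G Z T hm x) v \ P) sdiff_subset
      (sdiff_subset_sdiff (fun a ha => ((h.mem_msd hx hx hv).1 ha).1) subset_rfl)
    have h3 := card_sdiff_ge (msd G (cz G Z T hm x) v) P hP
    have h4 := le_max_right (0 : ℤ) (((msd G (cz G Z T hm x) v).card : ℤ) - a)
    exact (mul_le_mul_of_nonneg_right (by linarith) (le_max_left _ _)).trans h2
  · rw [max_eq_left h1]
    exact hc F hF fun a ha => mem_sdiff.2 ⟨((h.mem_msd hx hx hv).1 (hF ha)).1, fun h2 =>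
      disjoint_left.1 hFP ha h2⟩

/-- the same for a member of the home `z` with tail `x` -/
theorem WCoreK.exMem' (h : WCoreK G Z T r m n p hm) {x z : V} (hx : x ∈ T) (hz' : z ∈ T)
    (hxz : x ≠ z) {P P' F : Finset V} {a b k l : ℤ} (hP : (P.card : ℤ) ≤ a)
    (hP' : (P'.card : ℤ) ≤ b) {v : V} (hv : v ∈ hz G Z T hm z) (hvz : tlo G T hm v = x)
    (hF : F ⊆ msd G (cz G Z T hm z) v) (hFP : Disjoint F P')
    (hk : k ≤ ((msd G (cz G Z T hm z) v).card : ℤ)) (hl : l ≤ ((msd G (cz G Z T hm x) v).card : ℤ)) :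
    max (F.card : ℤ) (k - b) * max 0 (l - a)
      ≤ ∑ c ∈ cz G Z T hm z \ P', (dg G (cz G Z T hm x \ P) c : ℤ) := by
  have h1 := h.exMem hz' hx hxz.symm (P := P') (P' := P) hP' hP hv hvz hF hFP hk hl
  have h2 : ∑ c ∈ cz G Z T hm x \ P, (dg G (cz G Z T hm z \ P') c : ℤ)
      = ∑ c ∈ cz G Z T hm z \ P', (dg G (cz G Z T hm x \ P) c : ℤ) := by
    have := (dg_comm G (cz G Z T hm z \ P') (cz G Z T hm x \ P)).symm
    exact_mod_cast this
  rw [← h2]
  exact h1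

/-- **a representative of an item of value one with all sizes** -/
theorem WCoreK.rep3L (hp : 2 * r ≤ p) (h : WCoreK G Z T r m n p hm) {x y : V} (hx : x ∈ T)
    (hpk : Pk G (cz G Z T hm x) (hz G Z T hm x) (tlo G T hm) (B x) (Ps x))
    (hmin : ∀ B' Ps', Pk G (cz G Z T hm x) (hz G Z T hm x) (tlo G T hm) B' Ps' →
      (Ps x).card ≤ Ps'.card) {u : Itm V} (hu : u ∈ pkf (B x) (Ps x)) (h1 : ivl u = 1)
    (hk : ikp (tlo G T hm) y u ≠ 0) :
    ∃ v ∈ hz G Z T hm x, tlo G T hm v = y ∧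
      nui G (cz G Z T hm x) (tlo G T hm) (B x) y u
        = (frC G (cz G Z T hm x) (tlo G T hm) (B x) v).card ∧
      max ((nui G (cz G Z T hm x) (tlo G T hm) (B x) y u : ℤ) + ipc u)
        ((ipc u : ℤ) * iar G (cz G Z T hm x) u) ≤ ((msd G (cz G Z T hm x) v).card : ℤ) ∧
      max (max ((nui G (cz G Z T hm x) (tlo G T hm) (B x) y u : ℤ) + ipc u)
        ((ipc u : ℤ) * iar G (cz G Z T hm x) u))
        (ims G (cz G Z T hm) (tlo G T hm) y u) ≤ ((msd G (cz G Z T hm y) v).card : ℤ) := by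
  obtain ⟨v, hv, hvH, hvy, hnu, h3, h4⟩ := h.rep2 hp hx hpk hmin hu h1 hk
  have h5 : ((ipc u : ℤ) * iar G (cz G Z T hm x) u) ≤ ((msd G (cz G Z T hm x) v).card : ℤ) := by
    rcases u with P | e
    · simp [ipc]
    · have h6 : v = e.1 := mem_singleton.1 hv
      have h7 : iar G (cz G Z T hm x) (Sum.inr e) = (msd G (cz G Z T hm x) e.1).card := by
        unfold iar imem
        rw [sum_singleton]
        rfl
      rw [h7, h6]
      simp [ipc]
  have h8 := h.msd_le hp hx hvH hvy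
  have h9 : ((msd G (cz G Z T hm x) v).card : ℤ) ≤ ((msd G (cz G Z T hm y) v).card : ℤ) := by
    exact_mod_cast h8
  have h10 : ((nui G (cz G Z T hm x) (tlo G T hm) (B x) y u : ℤ) + ipc u)
      ≤ ((msd G (cz G Z T hm x) v).card : ℤ) := by exact_mod_cast h3
  refine ⟨v, hvH, hvy, hnu, max_le h10 h5, max_le (max_le ?_ ?_) ?_⟩
  · exact (le_max_left _ _).trans h4
  · exact h5.trans h9
  · exact (le_max_right _ _).trans h4

end Rect

section Tr

variable {V : Type*} {G : SimpleGraph V} {Z T : Finset V} {hm : V → V} {r m n p : ℕ}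
  {φ : Finset (V × V) → Finset (Finset V) → ℕ} {B : V → Finset (V × V)}
  {Ps : V → Finset (Finset V)} {host : Itm V → V} {ρ : V → ℕ} {σ : ℕ → V}

/-- **the cell test for all items at any levels**, misses `imn`, class edges `EX` (`RecC`), saving `sv`
(`SavC`) -/
theorem WItK.cellLv (hp : 2 * r ≤ p) (h : WCoreK G Z T r m n p hm)
    (H : WItK G Z T hm r n φ B Ps host ρ σ) {i j : ℕ} (hi : i < n) (hj : j < n) (hij : i ≠ j)
    {K K' : Finset (Itm V)} (hK : K ⊆ T.biUnion fun x => pkf (B x) (Ps x))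
    (hKi : ∀ u ∈ K, ρ (host u) = i) (hK' : K' ⊆ T.biUnion fun x => pkf (B x) (Ps x))
    (hKj : ∀ u ∈ K', ρ (host u) = j) {g g' : Itm V → ℕ} (hg1 : ∀ u ∈ K, 1 ≤ g u)
    (hg2 : ∀ u ∈ K, (g u : ℤ) ≤ (ikp (tlo G T hm) (σ j) u : ℤ)) (hg1' : ∀ u ∈ K', 1 ≤ g' u)
    (hg2' : ∀ u ∈ K', (g' u : ℤ) ≤ (ikp (tlo G T hm) (σ i) u : ℤ)) {EX sv : ℤ}
    (hE : RecC (T.biUnion fun x => pkf (B x) (Ps x)) (fun u => ρ (host u))
      (fun u => (ivl u : ℤ)) (fun i u => (ikp (tlo G T hm) (σ i) u : ℤ))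
      (fun i u => (ims G (cz G Z T hm) (tlo G T hm) (σ i) u : ℤ)) (fun u => (ipc u : ℤ))
      (fun u => (iar G (cz G Z T hm (host u)) u : ℤ))
      (fun j u => (nui G (cz G Z T hm (host u)) (tlo G T hm) (B (host u)) (σ j) u : ℤ)) i j
      (∑ u ∈ K, (ipc u : ℤ)) (∑ u ∈ K', (ipc u : ℤ)) EX)
    (hs : SavC n (fun u => (ivl u : ℤ)) (fun i u => (ikp (tlo G T hm) (σ i) u : ℤ))
      (fun u => (ipc u : ℤ)) i j K K'
      (∑ u ∈ K, ((g u : ℤ) + 1 - ipc u) + ∑ u ∈ K', ((g' u : ℤ) + 1 - ipc u)) sv) :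
    2 * ∑ u ∈ K, (((r : ℤ) - 1) * g u + (1 - (ipc u : ℤ)) * tI G Z T hm r Z (σ j)
          - (if (ikp (tlo G T hm) (σ j) u : ℤ) ≤ (g u : ℤ)
            then (imn G (cz G Z T hm) (tlo G T hm) (σ j) u : ℤ) else 0)
          - (iar G (cz G Z T hm (host u)) u : ℤ))
      + 2 * ∑ u ∈ K', (((r : ℤ) - 1) * g' u + (1 - (ipc u : ℤ)) * tI G Z T hm r Z (σ i)
          - (if (ikp (tlo G T hm) (σ i) u : ℤ) ≤ (g' u : ℤ)
            then (imn G (cz G Z T hm) (tlo G T hm) (σ i) u : ℤ) else 0)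
          - (iar G (cz G Z T hm (host u)) u : ℤ))
      + 2 * EX + sv
      ≤ 2 * ((r : ℤ) - 1 + tI G Z T hm r Z (σ i) * tI G Z T hm r Z (σ j))
        + (∑ u ∈ K, ((g u : ℤ) + 1 - ipc u) + ∑ u ∈ K', ((g' u : ℤ) + 1 - ipc u))
          * (∑ u ∈ K, ((g u : ℤ) + 1 - ipc u) + ∑ u ∈ K', ((g' u : ℤ) + 1 - ipc u) - 1)
        + 2 * (∑ u ∈ K, (ipc u : ℤ)) * ∑ u ∈ K', (ipc u : ℤ) := by
  have hcard := h.toWHom.cardT
  have hpk : ∀ x ∈ T, Pk G (cz G Z T hm x) (hz G Z T hm x) (tlo G T hm) (B x) (Ps x) :=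
    fun x hx => (H.pk x hx).toPk
  have hfam : ∀ x ∈ T, Fam (co G) (cz G Z T hm) (hz G Z T hm) (tlo G T hm) x
      (pkf (B x) (Ps x)) := fun x hx => (hpk x hx).fam (h.csys.dCH hx hx).symm
  have hmem : ∀ i < n, σ i ∈ T := fun i hi => H.rk.mem i (by rw [hcard]; exact hi)
  have hne : σ i ≠ σ j := fun h1 =>
    hij (H.rk.sinj (by rw [hcard]; exact hi) (by rw [hcard]; exact hj) h1)
  have hown : ∀ u ∈ T.biUnion (fun x => pkf (B x) (Ps x)), ∀ l < n, ρ (host u) = l →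
      u ∈ pkf (B (σ l)) (Ps (σ l)) ∧ host u = σ l := by
    intro u hu l hl hul
    obtain ⟨x, hx, hux⟩ := mem_biUnion.1 hu
    have h1 := H.hst x hx u hux
    have h2 : σ l = x := by
      rw [← hul, h1]
      exact H.rk.left x hx
    rw [h2, h1]
    exact ⟨hux, rfl⟩
  have a1 : K ⊆ pkf (B (σ i)) (Ps (σ i)) := fun u hu => (hown u (hK hu) i hi (hKi u hu)).1
  have a2 : K' ⊆ pkf (B (σ j)) (Ps (σ j)) := fun u hu => (hown u (hK' hu) j hj (hKj u hu)).1
  have b1 : ∀ u ∈ K, g u ≤ ikp (tlo G T hm) (σ j) u := fun u hu => by exact_mod_cast hg2 u hu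
  have b2 : ∀ u ∈ K', g' u ≤ ikp (tlo G T hm) (σ i) u := fun u hu => by
    exact_mod_cast hg2' u hu
  have c1 : ∀ u ∈ K, ikp (tlo G T hm) (σ j) u ≠ 0 := fun u hu => by
    have := hg1 u hu
    have := b1 u hu
    omega
  have c2 : ∀ u ∈ K', ikp (tlo G T hm) (σ i) u ≠ 0 := fun u hu => by
    have := hg1' u hu
    have := b2 u hu
    omega
  have hcardC : ∀ i, ((cz G Z T hm (σ i)).card : ℤ) = (r : ℤ) - 1 - tI G Z T hm r Z (σ i) :=
    fun i => card_CP_eq Z (σ i)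
  obtain ⟨d1, -, d3⟩ := Fam.own_sumsL h.F.toPFrame h.hh h.csys h.wsysT hfam (hmem i hi) a1 hg1 b1
  obtain ⟨f1, -, f3⟩ := Fam.own_sumsL h.F.toPFrame h.hh h.csys h.wsysT hfam (hmem j hj) a2 hg1' b2
  -- the class edges
  have hEX : EX ≤ ∑ c ∈ cz G Z T hm (σ j)
        \ cql G (cz G Z T hm) (tlo G T hm) g' K' (σ j) (σ i),
      (dg G (cz G Z T hm (σ i) \ cql G (cz G Z T hm) (tlo G T hm) g K (σ i) (σ j)) c : ℤ) := by
    have d4 : ((cql G (cz G Z T hm) (tlo G T hm) g K (σ i) (σ j)).card : ℤ)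
        ≤ ∑ u ∈ K, (ipc u : ℤ) := d3
    have f4 : ((cql G (cz G Z T hm) (tlo G T hm) g' K' (σ j) (σ i)).card : ℤ)
        ≤ ∑ u ∈ K', (ipc u : ℤ) := f3
    rcases hE with hE | ⟨w, hw, hE⟩ | ⟨w, hw, hw1, hw2, hw3, hE⟩ | ⟨w, hw, hw1, hw2, hw3, hE⟩
    · exact hE.trans (sum_nonneg fun _ _ => Nat.cast_nonneg _)
    · obtain ⟨y, hy, hwy⟩ := mem_biUnion.1 hw
      exact hE.trans (h.exItem hpk (hmem i hi) (hmem j hj) hne d4 f4 hy hwy)
    · obtain ⟨g1, g2⟩ := hown w hw i hi hw1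
      have hw2' : ivl w = 1 := by
        beta_reduce at hw2
        exact_mod_cast hw2
      have hw3' : ikp (tlo G T hm) (σ j) w ≠ 0 := fun h1 => hw3 (by
        show (ikp (tlo G T hm) (σ j) w : ℤ) = 0
        rw [h1]
        rfl)
      obtain ⟨v, v1, v2, v3, v4, v5⟩ := h.rep3L hp (hmem i hi) (hpk _ (hmem i hi))
        (H.pk _ (hmem i hi)).min g1 hw2' hw3'
      have h2 := h.exMem (hmem i hi) (hmem j hj) hne
        (F := frC G (cz G Z T hm (σ i)) (tlo G T hm) (B (σ i)) v) d4 f4 v1 v2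
        (fun a ha => by
          obtain ⟨h5, h6, -⟩ := mem_frC.1 ha
          exact (h.mem_msd (hmem i hi) (hmem i hi) v1).2 ⟨h5, h6⟩)
        (by
          rw [disjoint_left]
          intro a ha ha'
          obtain ⟨h5, h6⟩ := mem_inter.1 ha'
          obtain ⟨u, hu, h7⟩ := mem_biUnion.1 h6
          obtain ⟨e, rfl, h8, h9, -⟩ := Fam.cls_pt h.wsysT hfam (hmem i hi) (hmem i hi) (a1 hu)
            (c1 u hu) (fun Q => xlv_sub) h7 h5
          exact (mem_frC.1 ha).2.2 e (inr_mem_pkf.1 (a1 hu)) h8 (h9.trans v2.symm)) v4 v5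
      refine hE.trans (le_trans (le_of_eq ?_) h2)
      beta_reduce
      rw [g2, v3]
    · obtain ⟨g1, g2⟩ := hown w hw j hj hw1
      have hw2' : ivl w = 1 := by
        beta_reduce at hw2
        exact_mod_cast hw2
      have hw3' : ikp (tlo G T hm) (σ i) w ≠ 0 := fun h1 => hw3 (by
        show (ikp (tlo G T hm) (σ i) w : ℤ) = 0
        rw [h1]
        rfl)
      obtain ⟨v, v1, v2, v3, v4, v5⟩ := h.rep3L hp (hmem j hj) (hpk _ (hmem j hj))
        (H.pk _ (hmem j hj)).min g1 hw2' hw3'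
      have h2 := h.exMem' (hmem i hi) (hmem j hj) hne
        (F := frC G (cz G Z T hm (σ j)) (tlo G T hm) (B (σ j)) v) d4 f4 v1 v2
        (fun a ha => by
          obtain ⟨h5, h6, -⟩ := mem_frC.1 ha
          exact (h.mem_msd (hmem j hj) (hmem j hj) v1).2 ⟨h5, h6⟩)
        (by
          rw [disjoint_left]
          intro a ha ha'
          obtain ⟨h5, h6⟩ := mem_inter.1 ha'
          obtain ⟨u, hu, h7⟩ := mem_biUnion.1 h6
          obtain ⟨e, rfl, h8, h9, -⟩ := Fam.cls_pt h.wsysT hfam (hmem j hj) (hmem j hj) (a2 hu)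
            (c2 u hu) (fun Q => xlv_sub) h7 h5
          exact (mem_frC.1 ha).2.2 e (inr_mem_pkf.1 (a2 hu)) h8 (h9.trans v2.symm)) v4 v5
      refine hE.trans (le_trans (le_of_eq ?_) h2)
      beta_reduce
      rw [g2, v3]
  -- the saving
  have dW : Disjoint (cpl G (cz G Z T hm) (tlo G T hm) g K (σ i) (σ j))
      (cpl G (cz G Z T hm) (tlo G T hm) g' K' (σ j) (σ i)) := by
    rw [disjoint_left]
    intro v hv hv'
    exact disjoint_left.1 (h.wsysT.dHH _ (hmem i hi) _ (hmem j hj) hne)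
      (Fam.cpl_mem h.wsysT hfam (hmem i hi) a1 hv).1 (Fam.cpl_mem h.wsysT hfam (hmem j hj) a2 hv').1
  have hsv : (NE G (cpl G (cz G Z T hm) (tlo G T hm) g K (σ i) (σ j)
          ∪ cpl G (cz G Z T hm) (tlo G T hm) g' K' (σ j) (σ i)) : ℤ) + sv
        + (cpl G (cz G Z T hm) (tlo G T hm) g K (σ i) (σ j)
          ∪ cpl G (cz G Z T hm) (tlo G T hm) g' K' (σ j) (σ i)).card
      ≤ ((cpl G (cz G Z T hm) (tlo G T hm) g K (σ i) (σ j)
          ∪ cpl G (cz G Z T hm) (tlo G T hm) g' K' (σ j) (σ i)).card : ℤ)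
        * (cpl G (cz G Z T hm) (tlo G T hm) g K (σ i) (σ j)
          ∪ cpl G (cz G Z T hm) (tlo G T hm) g' K' (σ j) (σ i)).card := by
    rcases hs with hs | ⟨I, hIn, hiI, hjI, hIK, hIK', q, hs⟩ | hs
    · exact sav_zero _ hs
    · have hT : ∀ x ∈ T, ∀ u ∈ pkf (B x) (Ps x), ∀ y, ikp (tlo G T hm) y u ≠ 0 →
          ρ y < n ∧ σ (ρ y) = y := by
        intro x hx u hu y hy
        obtain ⟨v, hv, hvy⟩ := ikp_ne_tail (fun Q hQ => (hfam x hx).two Q (hQ ▸ hu)) hy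
        have hvH : v ∈ hz G Z T hm x := by
          rcases u with Q | e
          · exact (hfam x hx).sub Q hu hv
          · simp only [imem, mem_singleton] at hv
            exact hv ▸ (hfam x hx).pcH e hu
        have h5 := mem_of_mem_erase (h.toWHom.ht x hx v hvH)
        rw [hvy] at h5
        exact ⟨by rw [← hcard]; exact H.rk.lt y h5, H.rk.left y h5⟩
      have h3 : (I.image σ).card = I.card := H.rk.card_image (by rw [hcard]; exact hIn)
      refine Fam.savTur h.F.toPFrame h.hh h.csys h.wsysT hfam (hmem i hi) (hmem j hj)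
        hne a1 a2 hg1 b1 hg1' b2 (I := I.image σ) (mem_image_of_mem σ hiI)
        (mem_image_of_mem σ hjI) (fun u hu y hy => ?_) (fun u hu y hy => ?_) (q := q) ?_
      · obtain ⟨b3, b4⟩ := hT _ (hmem i hi) u (a1 hu) y hy
        refine mem_image.2 ⟨ρ y, hIK u hu (ρ y) b3 ?_, b4⟩
        show (ikp (tlo G T hm) (σ (ρ y)) u : ℤ) ≠ 0
        rw [b4]
        exact_mod_cast hy
      · obtain ⟨b3, b4⟩ := hT _ (hmem j hj) u (a2 hu) y hy
        refine mem_image.2 ⟨ρ y, hIK' u hu (ρ y) b3 ?_, b4⟩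
        show (ikp (tlo G T hm) (σ (ρ y)) u : ℤ) ≠ 0
        rw [b4]
        exact_mod_cast hy
      · rw [h3]
        exact hs
    · have h4 := E_add_NE (G := G) (cpl G (cz G Z T hm) (tlo G T hm) g K (σ i) (σ j)
        ∪ cpl G (cz G Z T hm) (tlo G T hm) g' K' (σ j) (σ i))
      have h5 : (E G (cpl G (cz G Z T hm) (tlo G T hm) g K (σ i) (σ j)) : ℤ)
          + E G (cpl G (cz G Z T hm) (tlo G T hm) g' K' (σ j) (σ i))
          ≤ E G (cpl G (cz G Z T hm) (tlo G T hm) g K (σ i) (σ j)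
            ∪ cpl G (cz G Z T hm) (tlo G T hm) g' K' (σ j) (σ i)) := by
        exact_mod_cast E_union_ge (G := G) dW
      have h6 := (H.pk _ (hmem i hi)).E_cpl (C := cz G Z T hm) (H := hz G Z T hm) (z := σ j)
        (h.csys.h32 h.F.toPFrame h.hh h.toWHom.ht (hmem i hi))
        (h.csys.dCH (hmem i hi) (hmem i hi)).symm a1 hg1 c1
      have h7 := (H.pk _ (hmem j hj)).E_cpl (C := cz G Z T hm) (H := hz G Z T hm) (z := σ i)
        (h.csys.h32 h.F.toPFrame h.hh h.toWHom.ht (hmem j hj))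
        (h.csys.dCH (hmem j hj) (hmem j hj)).symm a2 hg1' c2
      have e1 : ∀ L : Finset (Itm V), (L.filter fun u => (ivl u : ℤ) = 1)
          = L.filter fun u => ivl u = 1 := fun L => filter_congr fun u _ => by
        constructor
        · intro h8
          exact_mod_cast h8
        · intro h8
          exact_mod_cast h8
      simp only [e1] at hs
      nlinarith
  have hkey := Fam.cellL h.F.toPFrame h.hh h.gp.P h.csys h.wsysT hfam (hmem i hi) (hmem j hj)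
    hne a1 a2 hg1 b1 hg1' b2 hEX hsv
  have e0 : ∀ k, ∀ g : Itm V → ℕ, ∀ u : Itm V,
      (if (ikp (tlo G T hm) (σ k) u : ℤ) ≤ (g u : ℤ)
          then (imn G (cz G Z T hm) (tlo G T hm) (σ k) u : ℤ) else 0)
      = (ilm G (cz G Z T hm) (tlo G T hm) (σ k) g u : ℤ) := by
    intro k g u
    unfold ilm
    by_cases h5 : ikp (tlo G T hm) (σ k) u ≤ g u
    · have h6 : (ikp (tlo G T hm) (σ k) u : ℤ) ≤ (g u : ℤ) := by exact_mod_cast h5
      rw [if_pos h5, if_pos h6]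
    · have h6 : ¬ (ikp (tlo G T hm) (σ k) u : ℤ) ≤ (g u : ℤ) := fun h7 =>
        h5 (by exact_mod_cast h7)
      rw [if_neg h5, if_neg h6]
      rfl
  have e1 : (r : ℤ) - 1 - (cz G Z T hm (σ i)).card = tI G Z T hm r Z (σ i) := by
    rw [hcardC]
    ring
  have e2 : (r : ℤ) - 1 - (cz G Z T hm (σ j)).card = tI G Z T hm r Z (σ j) := by
    rw [hcardC]
    ring
  rw [e1, e2] at hkey
  have e3 : ∑ u ∈ K, (((r : ℤ) - 1) * g u + (1 - (ipc u : ℤ)) * tI G Z T hm r Z (σ j)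
        - (if (ikp (tlo G T hm) (σ j) u : ℤ) ≤ (g u : ℤ)
          then (imn G (cz G Z T hm) (tlo G T hm) (σ j) u : ℤ) else 0)
        - (iar G (cz G Z T hm (host u)) u : ℤ))
      = ∑ u ∈ K, (((r : ℤ) - 1) * g u + (1 - (ipc u : ℤ)) * tI G Z T hm r Z (σ j)
        - (ilm G (cz G Z T hm) (tlo G T hm) (σ j) g u : ℤ)
        - (iar G (cz G Z T hm (σ i)) u : ℤ)) :=
    sum_congr rfl fun u hu => by rw [e0, (hown u (hK hu) i hi (hKi u hu)).2]
  have e4 : ∑ u ∈ K', (((r : ℤ) - 1) * g' u + (1 - (ipc u : ℤ)) * tI G Z T hm r Z (σ i)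
        - (if (ikp (tlo G T hm) (σ i) u : ℤ) ≤ (g' u : ℤ)
          then (imn G (cz G Z T hm) (tlo G T hm) (σ i) u : ℤ) else 0)
        - (iar G (cz G Z T hm (host u)) u : ℤ))
      = ∑ u ∈ K', (((r : ℤ) - 1) * g' u + (1 - (ipc u : ℤ)) * tI G Z T hm r Z (σ i)
        - (ilm G (cz G Z T hm) (tlo G T hm) (σ i) g' u : ℤ)
        - (iar G (cz G Z T hm (σ j)) u : ℤ)) :=
    sum_congr rfl fun u hu => by rw [e0, (hown u (hK' hu) j hj (hKj u hu)).2]
  rw [e3, e4]
  exact hkey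

end Tr

end Pool.Agent.Lib.MP_f04ccf_co
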