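import Mathlib
import Pool.Agent.Lib.MP_f04ccf_co.S2Top

/-!
MP_f04ccf_co: class cells pay the excess of the N-types (helper15's PC-compensation, helper39's one-sided form).

Abstract: a finite family of rectangles `A i ×ˢ B i`; two members `i`, `j` of the family which are not adjacent
(`adj i j` false) have disjoint `A` or disjoint `B`.

* `share`: every cell is shared by at most `d i` members, so `∑ |R i| / d i ≤ |⋃ R i|`;
* `cell_comp`: `2 ∑ κ i ≤ 2 |⋃ A i ×ˢ B i| + #(ordered adjacent pairs)` for `κ i ≤ |A i|, |B i|`;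
* `cell_one`: units `i` with partner `a i ∈ A i`, `|A i| ≤ |B i|`:
  `2 ∑ (|A i| - 1) + #(ordered nonadjacent pairs) ≤ 2 m (m - 1) + 2 |⋃ (A i \ partners) ×ˢ B i|`;
* `comp_graph`, `one_graph`: the same for vertices of a graph and the missed points in two cliques.
-/

set_option autoImplicit false

namespace Pool.Agent.Lib.MP_f04ccf_co

open Finset

namespace CellN

variable {ι α β γ : Type*} [DecidableEq ι] [DecidableEq α] [DecidableEq β] [DecidableEq γ]

omit [DecidableEq ι] in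
/-- every cell is shared by at most `d i` members -/
theorem share (I : Finset ι) (R : ι → Finset γ) (d : ι → ℕ)
    (h : ∀ i ∈ I, ∀ p ∈ R i, (I.filter (fun j => p ∈ R j)).card ≤ d i) :
    ∑ i ∈ I, ((R i).card : ℚ) / d i ≤ ((I.biUnion R).card : ℚ) := by
  have h1 : ∀ i ∈ I, ((R i).card : ℚ) / d i = ∑ p ∈ I.biUnion R, if p ∈ R i then 1 / (d i : ℚ) else 0 := by
    intro i hi
    rw [← sum_filter, sum_const, nsmul_eq_mul]
    have h2 : (I.biUnion R).filter (fun p => p ∈ R i) = R i := by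
      ext p
      rw [mem_filter, mem_biUnion]
      exact ⟨fun h => h.2, fun h => ⟨⟨i, hi, h⟩, h⟩⟩
    rw [h2, mul_one_div]
  rw [sum_congr rfl h1, sum_comm, card_eq_sum_ones, Nat.cast_sum]
  refine sum_le_sum fun p hp => ?_
  rw [← sum_filter]
  obtain ⟨i, hi, hpi⟩ := mem_biUnion.1 hp
  have hN : 0 < (I.filter (fun j => p ∈ R j)).card := card_pos.2 ⟨i, mem_filter.2 ⟨hi, hpi⟩⟩
  have hN' : (0 : ℚ) < ((I.filter (fun j => p ∈ R j)).card : ℚ) := by exact_mod_cast hN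
  have h3 : ∑ j ∈ I.filter (fun j => p ∈ R j), 1 / (d j : ℚ) ≤
      ∑ j ∈ I.filter (fun j => p ∈ R j), 1 / ((I.filter (fun j => p ∈ R j)).card : ℚ) := by
    refine sum_le_sum fun j hj => ?_
    obtain ⟨hj1, hj2⟩ := mem_filter.1 hj
    exact one_div_le_one_div_of_le hN' (by exact_mod_cast h j hj1 p hj2)
  refine h3.trans ?_
  rw [sum_const, nsmul_eq_mul, mul_one_div, div_self hN'.ne']
  norm_num

private theorem arith1 {k d : ℕ} : (k : ℚ) ≤ (k : ℚ) * k / ((d : ℚ) + 1) + (d : ℚ) / 2 := by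
  have hd : (0 : ℚ) < (d : ℚ) + 1 := by positivity
  rw [← sub_le_iff_le_add, le_div_iff₀ hd]
  rcases Nat.eq_zero_or_pos d with h0 | h0
  · subst h0
    have h1 : (k : ℚ) ≤ (k : ℚ) * k := by exact_mod_cast Nat.le_mul_self k
    push_cast
    linarith
  · have h1 : (1 : ℚ) ≤ (d : ℚ) := by exact_mod_cast h0
    nlinarith [sq_nonneg (2 * (k : ℚ) - (d + 1))]

/-- **PC-compensation.** -/
theorem cell_comp (I : Finset ι) (A : ι → Finset α) (B : ι → Finset β) (κ : ι → ℕ)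
    (hA : ∀ i ∈ I, κ i ≤ (A i).card) (hB : ∀ i ∈ I, κ i ≤ (B i).card) (adj : ι → ι → Prop)
    [DecidableRel adj]
    (h : ∀ i ∈ I, ∀ j ∈ I, i ≠ j → ¬ adj i j → Disjoint (A i) (A j) ∨ Disjoint (B i) (B j)) :
    2 * ∑ i ∈ I, κ i ≤ 2 * (I.biUnion fun i => A i ×ˢ B i).card +
      ∑ i ∈ I, (I.filter (fun j => i ≠ j ∧ adj i j)).card := by
  obtain ⟨dd, hdd⟩ : ∃ dd : ι → ℕ, ∀ i, dd i = (I.filter (fun j => i ≠ j ∧ adj i j)).card :=
    ⟨_, fun _ => rfl⟩
  have h1 := share I (fun i => A i ×ˢ B i) (fun i => dd i + 1) (by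
    intro i hi p hp
    have h2 : I.filter (fun j => p ∈ A j ×ˢ B j) ⊆ insert i (I.filter (fun j => i ≠ j ∧ adj i j)) := by
      intro j hj
      obtain ⟨hj1, hj2⟩ := mem_filter.1 hj
      rw [mem_insert, mem_filter]
      by_cases hij : j = i
      · exact Or.inl hij
      · refine Or.inr ⟨hj1, fun h0 => hij h0.symm, ?_⟩
        by_contra hadj
        rw [mem_product] at hp hj2
        rcases h i hi j hj1 (fun h0 => hij h0.symm) hadj with h0 | h0
        · exact disjoint_left.1 h0 hp.1 hj2.1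
        · exact disjoint_left.1 h0 hp.2 hj2.2
    have h3 := (card_le_card h2).trans (card_insert_le _ _)
    rw [← hdd i] at h3
    exact h3)
  have h3 : ∑ i ∈ I, (κ i : ℚ) ≤ ∑ i ∈ I, (((A i ×ˢ B i).card : ℚ) / ((dd i + 1 : ℕ) : ℚ) + (dd i : ℚ) / 2) := by
    refine sum_le_sum fun i hi => (arith1 (k := κ i) (d := dd i)).trans ?_
    have h4 : (κ i : ℚ) * κ i ≤ ((A i ×ˢ B i).card : ℚ) := by
      rw [card_product]
      exact_mod_cast Nat.mul_le_mul (hA i hi) (hB i hi)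
    have h5 : (0 : ℚ) < (dd i : ℚ) + 1 := by positivity
    push_cast
    gcongr
  rw [sum_add_distrib, ← sum_div] at h3
  have h6 : 2 * ∑ i ∈ I, (κ i : ℚ) ≤ 2 * ((I.biUnion fun i => A i ×ˢ B i).card : ℚ) + ∑ i ∈ I, (dd i : ℚ) := by
    have h7 := h3.trans (add_le_add_left h1 ((∑ i ∈ I, (dd i : ℚ)) / 2))
    linarith
  have h8 : ∑ i ∈ I, (I.filter (fun j => i ≠ j ∧ adj i j)).card = ∑ i ∈ I, dd i :=
    sum_congr rfl fun i _ => (hdd i).symm
  rw [h8]
  exact_mod_cast h6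

private theorem arith2 {b k M p m : ℕ} (hb : 1 + k + M ≤ b) (hM : M + p + 1 ≤ m) :
    (k : ℚ) ≤ (k : ℚ) * b / ((m - p : ℕ) : ℚ) + ((m : ℚ) - 1 - M - (p : ℚ) / 2) := by
  have h1 : ((m - p : ℕ) : ℚ) = (m : ℚ) - p := by
    rw [Nat.cast_sub (by omega)]
  have h2 : (0 : ℚ) < ((m - p : ℕ) : ℚ) := by
    have : 0 < m - p := by omega
    exact_mod_cast this
  have hM' : (M : ℚ) + p + 1 ≤ m := by exact_mod_cast hM
  have hb' : 1 + (k : ℚ) + M ≤ b := by exact_mod_cast hb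
  have hk0 : (0 : ℚ) ≤ k := by positivity
  have hp0 : (0 : ℚ) ≤ p := by positivity
  rcases le_or_gt (m - p) b with h3 | h3
  · have h4 : (k : ℚ) ≤ (k : ℚ) * b / ((m - p : ℕ) : ℚ) := by
      rw [le_div_iff₀ h2]
      exact mul_le_mul_of_nonneg_left (by exact_mod_cast h3) hk0
    linarith
  · have h4 : (b : ℚ) + 1 ≤ (m : ℚ) - p := by
      rw [← h1]
      exact_mod_cast h3
    have h5 : (0 : ℚ) ≤ (k : ℚ) * b / ((m - p : ℕ) : ℚ) := by positivity
    linarith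

/-- **The one-sided form**: units with partners `a i`. -/
theorem cell_one (I : Finset ι) (A : ι → Finset α) (B : ι → Finset β) (a : ι → α)
    (ha : ∀ i ∈ I, a i ∈ A i)
    (hAB : ∀ i ∈ I, (A i).card ≤ (B i).card) (pp : ι → ι → Prop) [DecidableRel pp]
    (h : ∀ i ∈ I, ∀ j ∈ I, i ≠ j → pp i j → Disjoint (A i) (A j)) :
    2 * ∑ i ∈ I, ((A i).card - 1) + ∑ i ∈ I, (I.filter (fun j => i ≠ j ∧ pp i j)).card ≤
      2 * (I.card * (I.card - 1)) + 2 * (I.biUnion fun i => (A i \ I.image a) ×ˢ B i).card := by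
  obtain ⟨pd, hpd⟩ : ∃ pd : ι → ℕ, ∀ i, pd i = (I.filter (fun j => i ≠ j ∧ pp i j)).card :=
    ⟨_, fun _ => rfl⟩
  obtain ⟨m, hm⟩ : ∃ m : ℕ, m = I.card := ⟨_, rfl⟩
  have hsum : ∑ i ∈ I, (I.filter (fun j => i ≠ j ∧ pp i j)).card = ∑ i ∈ I, pd i :=
    sum_congr rfl fun i _ => (hpd i).symm
  rw [hsum, ← hm]
  have hpd1 : ∀ i ∈ I, pd i + 1 ≤ m := by
    intro i hi
    have h1 : I.filter (fun j => i ≠ j ∧ pp i j) ⊆ I.erase i := by
      intro j hj
      rw [mem_filter] at hj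
      exact mem_erase.2 ⟨fun h0 => hj.2.1 h0.symm, hj.1⟩
    have h2 := card_le_card h1
    rw [card_erase_of_mem hi, ← hpd i, ← hm] at h2
    have h3 : 0 < I.card := card_pos.2 ⟨i, hi⟩
    omega
  have hshare : ∀ i ∈ I, ∀ x ∈ A i, (I.filter (fun j => x ∈ A j)).card ≤ m - pd i := by
    intro i hi x hx
    have h1 : I.filter (fun j => x ∈ A j) ⊆ I \ I.filter (fun j => i ≠ j ∧ pp i j) := by
      intro j hj
      rw [mem_filter] at hj
      rw [mem_sdiff, mem_filter]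
      exact ⟨hj.1, fun h0 => disjoint_left.1 (h i hi j hj.1 h0.2.1 h0.2.2) hx hj.2⟩
    have h2 := card_le_card h1
    rwa [card_sdiff_of_subset (filter_subset _ _), ← hpd i, ← hm] at h2
  have h1 := share I (fun i => (A i \ I.image a) ×ˢ B i) (fun i => m - pd i) (by
    intro i hi p hp
    refine le_trans (card_le_card ?_) (hshare i hi p.1 (mem_sdiff.1 (mem_product.1 hp).1).1)
    intro j hj
    rw [mem_filter] at hj ⊢
    exact ⟨hj.1, (mem_sdiff.1 (mem_product.1 hj.2).1).1⟩)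
  have h2 : ∀ i ∈ I, (A i).card = 1 + (A i \ I.image a).card + ((A i ∩ I.image a).card - 1) := by
    intro i hi
    have h3 := card_sdiff_add_card_inter (A i) (I.image a)
    have h4 : 0 < (A i ∩ I.image a).card :=
      card_pos.2 ⟨a i, mem_inter.2 ⟨ha i hi, mem_image_of_mem a hi⟩⟩
    omega
  have h3 : ∀ i ∈ I, ((A i ∩ I.image a).card - 1) + pd i + 1 ≤ m := by
    intro i hi
    have h4 : A i ∩ I.image a ⊆ (I.filter (fun j => a j ∈ A i)).image a := by
      intro x hx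
      rw [mem_inter, mem_image] at hx
      obtain ⟨hx1, j, hj, rfl⟩ := hx
      exact mem_image_of_mem a (mem_filter.2 ⟨hj, hx1⟩)
    have h5 := (card_le_card h4).trans card_image_le
    have h6 : I.filter (fun j => a j ∈ A i) ⊆ I \ I.filter (fun j => i ≠ j ∧ pp i j) := by
      intro j hj
      rw [mem_filter] at hj
      rw [mem_sdiff, mem_filter]
      exact ⟨hj.1, fun h0 => disjoint_left.1 (h i hi j hj.1 h0.2.1 h0.2.2) hj.2 (ha j hj.1)⟩
    have h7 := card_le_card h6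
    rw [card_sdiff_of_subset (filter_subset _ _), ← hpd i, ← hm] at h7
    have h8 := hpd1 i hi
    have h9 : 0 < (A i ∩ I.image a).card :=
      card_pos.2 ⟨a i, mem_inter.2 ⟨ha i hi, mem_image_of_mem a hi⟩⟩
    omega
  have h4 : ∀ i ∈ I, ((A i \ I.image a).card : ℚ) ≤
      (((A i \ I.image a) ×ˢ B i).card : ℚ) / ((m - pd i : ℕ) : ℚ) +
        ((m : ℚ) - 1 - (((A i ∩ I.image a).card - 1 : ℕ) : ℚ) - (pd i : ℚ) / 2) := by
    intro i hi
    rw [card_product, Nat.cast_mul]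
    refine arith2 ?_ (h3 i hi)
    have h5 := h2 i hi
    have h6 := hAB i hi
    omega
  have h5 := sum_le_sum h4
  rw [sum_add_distrib, sum_sub_distrib, sum_sub_distrib, ← sum_div, sum_const, nsmul_eq_mul, ← hm] at h5
  have h6 : ∑ i ∈ I, (((A i).card - 1 : ℕ) : ℚ) = ∑ i ∈ I, ((A i \ I.image a).card : ℚ) +
      ∑ i ∈ I, (((A i ∩ I.image a).card - 1 : ℕ) : ℚ) := by
    rw [← sum_add_distrib]
    refine sum_congr rfl fun i hi => ?_
    have h7 := h2 i hi
    have h8 : (A i).card - 1 = (A i \ I.image a).card + ((A i ∩ I.image a).card - 1) := by omega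
    rw [h8, Nat.cast_add]
  have h9 : 2 * ∑ i ∈ I, (((A i).card - 1 : ℕ) : ℚ) + ∑ i ∈ I, (pd i : ℚ) ≤
      2 * ((m : ℚ) * ((m : ℚ) - 1)) + 2 * ((I.biUnion fun i => (A i \ I.image a) ×ˢ B i).card : ℚ) := by
    rw [h6]
    have h10 := h5.trans (add_le_add_left h1 _)
    linarith
  rcases Nat.eq_zero_or_pos m with h0 | h0
  · have hI : I = ∅ := card_eq_zero.1 (hm.symm.trans h0)
    subst hI
    simp
  · have h10 : ((m - 1 : ℕ) : ℚ) = (m : ℚ) - 1 := by rw [Nat.cast_sub h0, Nat.cast_one]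
    rw [← h10] at h9
    exact_mod_cast h9

end CellN

attribute [local instance] Classical.propDecidable

section graph

variable {V : Type*} {G : SimpleGraph V}

/-- the missed points of `w` in `C` -/
noncomputable def msC (G : SimpleGraph V) (C : Finset V) (w : V) : Finset V :=
  C.filter (fun a => ¬ G.Adj w a)

/-- the cells of two cliques which are missed on both sides by a member of `I` -/
noncomputable def mcells (G : SimpleGraph V) (I Cx Cy : Finset V) : Finset (V × V) :=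
  (Cx ×ˢ Cy).filter (fun p => G.Adj p.1 p.2 ∧ ∃ w ∈ I, ¬ G.Adj w p.1 ∧ ¬ G.Adj w p.2)

/-- **PC-compensation in a graph**: `I` any set of doubles with rows `{x, y}` (both homes allowed). -/
theorem comp_graph {I Cx Cy : Finset V} {κ : V → ℕ}
    (h32 : ∀ w ∈ I, ∀ w' ∈ I, w ≠ w' → ¬ G.Adj w w' → ∀ a ∈ Cx, G.Adj w a ∨ G.Adj w' a)
    (hr : ∀ w ∈ I, ∀ a ∈ Cx, ∀ c ∈ Cy, ¬ G.Adj w a → ¬ G.Adj w c → G.Adj a c)
    (hx : ∀ w ∈ I, κ w ≤ (msC G Cx w).card) (hy : ∀ w ∈ I, κ w ≤ (msC G Cy w).card) :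
    2 * ∑ w ∈ I, κ w ≤ 2 * (mcells G I Cx Cy).card + E G I := by
  have h1 := CellN.cell_comp I (msC G Cx) (msC G Cy) κ hx hy (fun w w' => G.Adj w w')
    (fun w hw w' hw' hne hn => Or.inl (disjoint_left.2 fun a ha ha' => by
      rw [msC, mem_filter] at ha ha'
      exact (h32 w hw w' hw' hne hn a ha.1).elim ha.2 ha'.2))
  have h2 : ((I.biUnion fun w => msC G Cx w ×ˢ msC G Cy w).card) ≤ (mcells G I Cx Cy).card := by
    refine card_le_card fun p hp => ?_
    rw [mem_biUnion] at hp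
    obtain ⟨w, hw, hp⟩ := hp
    rw [mem_product, msC, msC, mem_filter, mem_filter] at hp
    rw [mcells, mem_filter, mem_product]
    exact ⟨⟨hp.1.1, hp.2.1⟩, hr w hw _ hp.1.1 _ hp.2.1 hp.1.2 hp.2.2, w, hw, hp.1.2, hp.2.2⟩
  have h3 : ∑ w ∈ I, (I.filter (fun w' => w ≠ w' ∧ G.Adj w w')).card = E G I := by
    unfold E dg
    refine sum_congr rfl fun w _ => congrArg card ?_
    ext w'
    rw [mem_filter, mem_filter]
    exact ⟨fun h => ⟨h.1, h.2.2⟩, fun h => ⟨h.1, h.2.ne, h.2⟩⟩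
  have h5 : 2 * ∑ w ∈ I, κ w ≤ 2 * (I.biUnion fun w => msC G Cx w ×ˢ msC G Cy w).card +
      ∑ w ∈ I, (I.filter (fun w' => w ≠ w' ∧ G.Adj w w')).card := h1
  rw [h3] at h5
  omega

/-- **The one-sided form in a graph**: `I` = the members of the PC units of host `x` with tail `y`, `a` = the partners. -/
theorem one_graph {I Cx Cy : Finset V} {a : V → V}
    (h32 : ∀ w ∈ I, ∀ w' ∈ I, w ≠ w' → ¬ G.Adj w w' → ∀ b ∈ Cx, G.Adj w b ∨ G.Adj w' b)
    (hr : ∀ w ∈ I, ∀ b ∈ Cx, ∀ c ∈ Cy, ¬ G.Adj w b → ¬ G.Adj w c → G.Adj b c)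
    (ha : ∀ w ∈ I, a w ∈ Cx ∧ ¬ G.Adj w (a w))
    (hxy : ∀ w ∈ I, (msC G Cx w).card ≤ (msC G Cy w).card) :
    2 * ∑ w ∈ I, ((msC G Cx w).card - 1) + NE G I ≤
      2 * (I.card * (I.card - 1)) + 2 * (mcells G I (Cx \ I.image a) Cy).card := by
  have h1 := CellN.cell_one I (msC G Cx) (msC G Cy) a
    (fun w hw => mem_filter.2 (ha w hw)) hxy (fun w w' => ¬ G.Adj w w')
    (fun w hw w' hw' hne hn => disjoint_left.2 fun b hb hb' => by
      rw [msC, mem_filter] at hb hb'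
      exact (h32 w hw w' hw' hne hn b hb.1).elim hb.2 hb'.2)
  have h2 : ((I.biUnion fun w => (msC G Cx w \ I.image a) ×ˢ msC G Cy w).card) ≤
      (mcells G I (Cx \ I.image a) Cy).card := by
    refine card_le_card fun p hp => ?_
    rw [mem_biUnion] at hp
    obtain ⟨w, hw, hp⟩ := hp
    rw [mem_product, mem_sdiff, msC, msC, mem_filter, mem_filter] at hp
    rw [mcells, mem_filter, mem_product, mem_sdiff]
    exact ⟨⟨⟨hp.1.1.1, hp.1.2⟩, hp.2.1⟩, hr w hw _ hp.1.1.1 _ hp.2.1 hp.1.1.2 hp.2.2, w, hw,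
      hp.1.1.2, hp.2.2⟩
  have h3 : ∑ w ∈ I, (I.filter (fun w' => w ≠ w' ∧ ¬ G.Adj w w')).card = NE G I := by
    unfold NE nd
    refine sum_congr rfl fun w _ => congrArg card ?_
    ext w'
    rw [mem_filter, mem_filter]
    exact ⟨fun h => ⟨h.1, h.2.1.symm, h.2.2⟩, fun h => ⟨h.1, h.2.1.symm, h.2.2⟩⟩
  have h5 : 2 * ∑ w ∈ I, ((msC G Cx w).card - 1) +
      ∑ w ∈ I, (I.filter (fun w' => w ≠ w' ∧ ¬ G.Adj w w')).card ≤
      2 * (I.card * (I.card - 1)) +
        2 * (I.biUnion fun w => (msC G Cx w \ I.image a) ×ˢ msC G Cy w).card := h1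
  rw [h3] at h5
  omega

end graph

end Pool.Agent.Lib.MP_f04ccf_co
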