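import Pool.Agent.Lib.MP_f04ccf_co.M.CellK

/-!
MP_f04ccf_co: the cell test over the basic integers (`Fam.cellI`) with the rectangle of any item of any
host on the left side.
-/

set_option autoImplicit false

namespace Pool.Agent.Lib.MP_f04ccf_co

open Finset

attribute [local instance] Classical.propDecidable

section CellR

variable {V : Type*} {G : SimpleGraph V} {Z T : Finset V} {hm : V → V} {r m t : ℕ}
  {A : Finset V} {S : V → Finset V} {U : V → Finset (Itm V)}

/-- **(CELL) over the basic integers with the rectangle of any item** `w` of any host -/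
theorem Fam.cellR {S : Finset V} (hF : PFrame G r m t Z T) (hP : PG G r)
    (hC : CSys G Z T hm A fun x => S.filter fun v => hm v = x)
    (hW : WSysT G (co G) A (CP G Z T fun x => S.filter fun v => hm v = x)
      (HP G Z T fun x => S.filter fun v => hm v = x) (tlo G T hm)) {U : V → Finset (Itm V)}
    (h : ∀ x ∈ A, Fam (co G) (CP G Z T fun x => S.filter fun v => hm v = x)
      (HP G Z T fun x => S.filter fun v => hm v = x) (tlo G T hm) x (U x))
    {x z : V} (hx : x ∈ A) (hz : z ∈ A) (hxz : x ≠ z) {K K' : Finset (Itm V)}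
    (hK : K ⊆ U x) (hK' : K' ⊆ U z) (hk : ∀ u ∈ K, ikp (tlo G T hm) z u ≠ 0)
    (hk' : ∀ u ∈ K', ikp (tlo G T hm) x u ≠ 0) {y : V} (hy : y ∈ A) {w : Itm V} (hw : w ∈ U y) :
    2 * ∑ u ∈ K, (((r : ℤ) - 1) * ikp (tlo G T hm) z u + (1 - ipc u) * tI G Z T hm r S z
          - rmr G (CP G Z T fun x => S.filter fun v => hm v = x) (tlo G T hm) z u
          - iar G (CP G Z T (fun x => S.filter fun v => hm v = x) x) u)
      + 2 * ∑ u ∈ K', (((r : ℤ) - 1) * ikp (tlo G T hm) x u + (1 - ipc u) * tI G Z T hm r S x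
          - rmr G (CP G Z T fun x => S.filter fun v => hm v = x) (tlo G T hm) x u
          - iar G (CP G Z T (fun x => S.filter fun v => hm v = x) z) u)
      + 2 * (max 0 ((ims G (CP G Z T fun x => S.filter fun v => hm v = x) (tlo G T hm) x w : ℤ)
              - ∑ u ∈ K, (ipc u : ℤ))
          * max 0 ((ims G (CP G Z T fun x => S.filter fun v => hm v = x) (tlo G T hm) z w : ℤ)
              - ∑ u ∈ K', (ipc u : ℤ)))
      ≤ 2 * ((r : ℤ) - 1 + tI G Z T hm r S x * tI G Z T hm r S z)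
        + (∑ u ∈ K, ((ikp (tlo G T hm) z u : ℤ) + 1 - ipc u)
            + ∑ u ∈ K', ((ikp (tlo G T hm) x u : ℤ) + 1 - ipc u))
          * (∑ u ∈ K, ((ikp (tlo G T hm) z u : ℤ) + 1 - ipc u)
            + ∑ u ∈ K', ((ikp (tlo G T hm) x u : ℤ) + 1 - ipc u) - 1)
        + 2 * (∑ u ∈ K, (ipc u : ℤ)) * ∑ u ∈ K', (ipc u : ℤ) := by
  set C := CP G Z T fun x => S.filter fun v => hm v = x with hCdef
  set tl := tlo G T hm with htl
  have hcard : ∀ x, ((C x).card : ℤ) = (r : ℤ) - 1 - tI G Z T hm r S x := fun x => card_CP_eq S x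
  have h1 := Fam.cell_k hF hP hC hW h hx hz hxz hK hK' hk hk'
    (X := fun Q => one1 (oth tl z Q)) (X' := fun Q => one1 (oth tl x Q))
    (fun Q => one1_sub _) (fun Q => one1_sub _)
  obtain ⟨a1, a2, a3⟩ := Fam.own_sums hW h hx hK hk
  obtain ⟨b1, b2, b3⟩ := Fam.own_sums hW h hz hK' hk'
  have h2 := NE_le_self (G := G) (K.biUnion (rpts tl (fun Q => one1 (oth tl z Q)) z) \ C x
            ∪ K'.biUnion (rpts tl (fun Q => one1 (oth tl x Q)) x) \ C z)
  have dW : Disjoint (K.biUnion (rpts tl (fun Q => one1 (oth tl z Q)) z) \ C x)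
      (K'.biUnion (rpts tl (fun Q => one1 (oth tl x Q)) x) \ C z) := by
    rw [disjoint_left]
    intro v hv hv'
    obtain ⟨v1, v2⟩ := mem_sdiff.1 hv
    obtain ⟨v3, v4⟩ := mem_sdiff.1 hv'
    obtain ⟨u, hu, hvu⟩ := mem_biUnion.1 v1
    obtain ⟨u', hu', hvu'⟩ := mem_biUnion.1 v3
    have c1 := (mem_union.1 ((h x hx).ipts_sub (hK hu) ((h x hx).rpts_sub
      (fun Q => one1_sub _) hvu))).resolve_right v2
    have c2 := (mem_union.1 ((h z hz).ipts_sub (hK' hu') ((h z hz).rpts_sub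
      (fun Q => one1_sub _) hvu'))).resolve_right v4
    exact disjoint_left.1 (hW.dHH x hx z hz hxz) c1 c2
  have h3 : ((K.biUnion (rpts tl (fun Q => one1 (oth tl z Q)) z) \ C x
            ∪ K'.biUnion (rpts tl (fun Q => one1 (oth tl x Q)) x) \ C z).card : ℤ)
      = ∑ u ∈ K, ((ikp tl z u : ℤ) + 1 - ipc u) + ∑ u ∈ K', ((ikp tl x u : ℤ) + 1 - ipc u) := by
    rw [card_union_of_disjoint dW, ← a1, ← b1]
    push_cast
    rfl
  rw [h3] at h2
  rw [a1, b1] at h1
  have h4 : ((C x ∩ K.biUnion (rpts tl (fun Q => one1 (oth tl z Q)) z)).card : ℤ)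
      * (C z ∩ K'.biUnion (rpts tl (fun Q => one1 (oth tl x Q)) x)).card
      ≤ (∑ u ∈ K, (ipc u : ℤ)) * ∑ u ∈ K', (ipc u : ℤ) :=
    mul_le_mul a3 b3 (Nat.cast_nonneg _) (sum_nonneg fun u _ => Nat.cast_nonneg _)
  have h5 : max 0 ((ims G C tl x w : ℤ) - ∑ u ∈ K, (ipc u : ℤ))
          * max 0 ((ims G C tl z w : ℤ) - ∑ u ∈ K', (ipc u : ℤ))
      ≤ ∑ c ∈ C z \ (C z ∩ K'.biUnion (rpts tl (fun Q => one1 (oth tl x Q)) x)),
          (dg G (C x \ (C x ∩ K.biUnion (rpts tl (fun Q => one1 (oth tl z Q)) z))) c : ℤ) := by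
    set P := C x ∩ K.biUnion (rpts tl (fun Q => one1 (oth tl z Q)) z) with hP'
    set P' := C z ∩ K'.biUnion (rpts tl (fun Q => one1 (oth tl x Q)) x) with hP''
    have c1 : ∀ c ∈ icl G C tl z w \ P', ((icl G C tl x w \ P).card : ℤ)
        ≤ (dg G (C x \ P) c : ℤ) := by
      intro c hc
      have : (icl G C tl x w \ P).card ≤ dg G (C x \ P) c := by
        refine card_le_card fun a ha => ?_
        obtain ⟨a1', a2'⟩ := mem_sdiff.1 ha
        exact mem_filter.2 ⟨mem_sdiff.2 ⟨rcl_sub a1', a2'⟩,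
          ((h y hy).icl_complete hW hy hx hz hxz hw a a1' c (mem_sdiff.1 hc).1).symm⟩
      exact_mod_cast this
    have c2 : ∑ c ∈ icl G C tl z w \ P', (dg G (C x \ P) c : ℤ)
        ≤ ∑ c ∈ C z \ P', (dg G (C x \ P) c : ℤ) :=
      sum_le_sum_of_subset_of_nonneg (sdiff_subset_sdiff rcl_sub subset_rfl)
        fun _ _ _ => Nat.cast_nonneg _
    have c3 := (sum_le_sum c1).trans c2
    rw [sum_const, nsmul_eq_mul] at c3
    have key : ∀ (D K : Finset V) (q : ℤ), (K.card : ℤ) ≤ q →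
        max 0 ((D.card : ℤ) - q) ≤ ((D \ K).card : ℤ) := by
      intro D K q hq
      refine max_le (Nat.cast_nonneg _) ?_
      have h2 : D.card ≤ (D \ K).card + K.card := card_le_card_sdiff_add_card
      have h3 : (D.card : ℤ) ≤ (D \ K).card + K.card := by exact_mod_cast h2
      linarith
    have c4 := mul_le_mul (key (icl G C tl x w) P _ a3) (key (icl G C tl z w) P' _ b3)
      (le_max_left _ _) (Nat.cast_nonneg _)
    have c5 : ((icl G C tl z w \ P').card : ℤ) * ((icl G C tl x w \ P).card : ℤ)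
        = ((icl G C tl x w \ P).card : ℤ) * ((icl G C tl z w \ P').card : ℤ) := mul_comm _ _
    have e5 : ∀ v, (ims G C tl v w : ℤ) = ((icl G C tl v w).card : ℤ) := fun _ => rfl
    rw [e5, e5]
    linarith
  have e1 : ∑ u ∈ K, (((r : ℤ) - 1) * ikp tl z u + (1 - ipc u) * tI G Z T hm r S z
          - rmr G C tl z u - iar G (C x) u)
      = ∑ u ∈ K, (((C z).card : ℤ) * ikp tl z u
          - (rcl G C tl (fun Q => one1 (oth tl z Q)) z u).card)
        + (∑ u ∈ K, ((ikp tl z u : ℤ) + 1 - ipc u)) * ((r : ℤ) - 1 - (C z).card)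
        - ∑ u ∈ K, (iar G (C x) u : ℤ) := by
    rw [sum_mul, ← sum_add_distrib, ← sum_sub_distrib]
    refine sum_congr rfl fun u _ => ?_
    rw [hcard]
    unfold rmr
    ring
  have e2 : ∑ u ∈ K', (((r : ℤ) - 1) * ikp tl x u + (1 - ipc u) * tI G Z T hm r S x
          - rmr G C tl x u - iar G (C z) u)
      = ∑ u ∈ K', (((C x).card : ℤ) * ikp tl x u
          - (rcl G C tl (fun Q => one1 (oth tl x Q)) x u).card)
        + (∑ u ∈ K', ((ikp tl x u : ℤ) + 1 - ipc u)) * ((r : ℤ) - 1 - (C x).card)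
        - ∑ u ∈ K', (iar G (C z) u : ℤ) := by
    rw [sum_mul, ← sum_add_distrib, ← sum_sub_distrib]
    refine sum_congr rfl fun u _ => ?_
    rw [hcard]
    unfold rmr
    ring
  have e3 : (r : ℤ) - 1 - (C x).card = tI G Z T hm r S x := by
    rw [hcard]
    ring
  have e4 : (r : ℤ) - 1 - (C z).card = tI G Z T hm r S z := by
    rw [hcard]
    ring
  rw [e1, e2]
  rw [e3, e4] at h1
  rw [e3, e4]
  linarith

end CellR

end Pool.Agent.Lib.MP_f04ccf_co
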