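import Pool.Agent.Lib.MP_f04ccf_co.M.CellD

/-!
MP_f04ccf_co, TEXT D: **the row tests T (served units used) and tzN (sub-slot) in numbers** (companion of M/CellD).

Row `z`, `A = t z + 1`, `d = mu z - s z`; used items `K` of other hosts at levels (`k` pieces of `κ'` items), `P` the
plain hosted items which stay (value `m`), `g` the number of those which leave.

* `PCon.numTS`: T: all Konig pairs out, the block pairs kept (`b` of them), any used items;
* `PCon.numTSy`: the same, the used items are of one host, `n1` of them of value one (PC pairs count);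
* `PCon.numN`: tzN after `q` Konig pairs and the plain items outside `P` left: `e = (hosted value which stays) + k`,
  `(R - 2 e) (e - (d + g)) ≤ A e + B`.
-/

set_option autoImplicit false

namespace Pool.Agent.Lib.MP_f04ccf_co

open Finset

attribute [local instance] Classical.propDecidable

section CellT

variable {ι : Type*} {R : ℤ} {n : ℕ} {t s mu : ℕ → ℤ} {U : Finset ι} {ho : ι → ℕ} {vl : ι → ℤ}
  {kp mn : ℕ → ι → ℤ} {pc ar : ι → ℤ} {be kq NN sg : ℕ → ℕ → ℤ} {nu : ℕ → ι → ℤ} {z y : ℕ}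

/-- the value of the plain hosted items -/
lemma plain_val_split {P : Finset ι} (hP : P ⊆ U) (hPz : ∀ u ∈ P, ho u = z ∧ pc u = 0) :
    ∑ u ∈ U.filter (fun u => ho u = z ∧ pc u = 0 ∧ u ∉ P), vl u + ∑ u ∈ P, vl u
      = ∑ u ∈ U.filter (fun u => ho u = z ∧ pc u = 0), vl u := by
  rw [← sum_filter_add_sum_filter_not (U.filter fun u => ho u = z ∧ pc u = 0)
    (fun u => u ∉ P), filter_filter, filter_filter]
  congr 1
  · refine sum_congr ?_ fun _ _ => rfl
    refine filter_congr fun u _ => ?_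
    tauto
  · refine sum_congr ?_ fun _ _ => rfl
    ext u
    simp only [mem_filter, not_not]
    exact ⟨fun h => ⟨hP h, hPz u h, h⟩, fun h => h.2.2⟩

/-- **T in numbers, used items** -/
theorem PCon.numTS (H : PCon R n t s mu U ho vl kp mn pc ar be kq NN sg nu) (hz : z < n)
    {P : Finset ι} (hP : P ⊆ U) (hPz : ∀ u ∈ P, ho u = z ∧ pc u = 0) {K : Finset ι} (hK : K ⊆ U)
    (hKz : ∀ u ∈ K, ho u ≠ z) {lv : ι → ℕ} (hlv : ∀ u ∈ K, 1 ≤ lv u)
    (hlv' : ∀ u ∈ K, (lv u : ℤ) ≤ kp z u) {m k κ' b E W g : ℤ}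
    (hm : m = ∑ u ∈ P, vl u) (hk : k = ∑ u ∈ K, (lv u : ℤ)) (hκ : κ' = (K.card : ℤ))
    (hb : b = ∑ l ∈ (range n).erase z, (be z l - kq z l))
    (hE : E = m + b + k) (hW : W = m + b + k + κ')
    (hg : g = ((U.filter fun u => ho u = z ∧ pc u = 0).card : ℤ) - (P.card : ℤ)) :
    (m + b + (k - κ')) * (W + 1) + svP n ho vl K lv
      ≤ 2 * ((t z + 1) * E + ∑ u ∈ K, msP kp mn z lv u)
        + 2 * ((R - W) * (mu z - s z + g - E))
        + ∑ l ∈ (range n).erase z, (be z l - kq z l) * (be z l - kq z l + 1) := by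
  set D : Finset ι := U.filter fun u => ho u = z ∧ pc u = 0 ∧ u ∉ P with hD
  have hDz : ∀ u ∈ D, ho u = z ∧ pc u = 0 := fun u hu => by
    obtain ⟨-, h1, h2, -⟩ := mem_filter.1 hu
    exact ⟨h1, h2⟩
  obtain ⟨eP, eD⟩ := plain_split hP hPz
  rw [← hD] at eP eD
  have h0 := H.tT z hz ((range n).erase z) (erase_subset _ _) ∅ (empty_subset _) D
    (filter_subset _ _) hDz K hK hKz lv hlv hlv'
  have e6 : mu z - ∑ l ∈ (range n).erase z, kq z l - ∑ u ∈ D, vl u = b + m := by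
    have h1 := plain_val_split (vl := vl) hP hPz
    have h2 := H.mu_plain hz
    rw [sum_sub_distrib] at hb
    linarith
  have e7 : ∑ l ∈ (range n).erase z, kq z l + ∑ u ∈ D, (vl u + 1) = mu z - (b + m) + g := by
    rw [sum_add_distrib (s := D), sum_const, nsmul_eq_mul, mul_one, eD, ← hg]
    linarith
  have e5 : ∑ u ∈ K, ((lv u : ℤ) + 1) = k + κ' := by
    rw [sum_add_distrib, sum_const, nsmul_eq_mul, mul_one, ← hk, hκ]
  rw [e5, ← hk, sum_empty, sum_empty, sub_zero, add_zero, sdiff_empty,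
    Finset.sdiff_self, sum_empty, e6, e7] at h0
  unfold TstP at h0
  rw [hE, hW]
  linarith

/-- the saving of items of one host -/
lemma svP_host (hy : y < n) {K : Finset ι} (hKy : ∀ u ∈ K, ho u = y) {lv : ι → ℕ}
    (hlv : ∀ u ∈ K, 1 ≤ lv u) (hlv' : ∀ u ∈ K, (lv u : ℤ) ≤ vl u) {n1 : ℤ}
    (hn : n1 = ((K.filter fun u => vl u = 1).card : ℤ)) :
    n1 * (n1 - 1) ≤ svP n ho vl K lv := by
  have h1 : n1 * (n1 - 1) ≤ ((K.filter fun u => ho u = y ∧ ((lv u : ℕ) : ℤ) = vl u).card : ℤ)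
      * (((K.filter fun u => ho u = y ∧ ((lv u : ℕ) : ℤ) = vl u).card : ℤ) - 1) := by
    rw [hn]
    refine tri_mono (card_le_card fun u hu => ?_)
    obtain ⟨h2, h3⟩ := mem_filter.1 hu
    refine mem_filter.2 ⟨h2, hKy u h2, ?_⟩
    have h4 := hlv u h2
    have h5 := hlv' u h2
    rw [h3] at h5 ⊢
    have h7 : (1 : ℤ) ≤ (lv u : ℤ) := by exact_mod_cast h4
    linarith
  unfold svP
  exact h1.trans (single_le_sum (f := fun x => ((K.filter fun u => ho u = x
    ∧ ((lv u : ℕ) : ℤ) = vl u).card : ℤ)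
    * (((K.filter fun u => ho u = x ∧ ((lv u : ℕ) : ℤ) = vl u).card : ℤ) - 1))
    (fun x _ => tri_nonneg' _) (mem_range.2 hy))

/-- **T in numbers, used items of one host** (`(T_S)` of 72) -/
theorem PCon.numTSy (H : PCon R n t s mu U ho vl kp mn pc ar be kq NN sg nu) (hz : z < n)
    (hy : y < n) (hyz : y ≠ z) {P : Finset ι} (hP : P ⊆ U)
    (hPz : ∀ u ∈ P, ho u = z ∧ pc u = 0) {K : Finset ι} (hK : K ⊆ U)
    (hKy : ∀ u ∈ K, ho u = y) {lv : ι → ℕ} (hlv : ∀ u ∈ K, 1 ≤ lv u)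
    (hlv' : ∀ u ∈ K, (lv u : ℤ) ≤ kp z u) {m k κ' n1 b E W g : ℤ}
    (hm : m = ∑ u ∈ P, vl u) (hk : k = ∑ u ∈ K, (lv u : ℤ)) (hκ : κ' = (K.card : ℤ))
    (hn : n1 = ((K.filter fun u => vl u = 1).card : ℤ))
    (hb : b = ∑ l ∈ (range n).erase z, (be z l - kq z l))
    (hE : E = m + b + k) (hW : W = m + b + k + κ')
    (hg : g = ((U.filter fun u => ho u = z ∧ pc u = 0).card : ℤ) - (P.card : ℤ)) :
    (m + b + (k - κ')) * (W + 1) + n1 * (n1 - 1)
      ≤ 2 * ((t z + 1) * E + ∑ u ∈ K, msP kp mn z lv u)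
        + 2 * ((R - W) * (mu z - s z + g - E))
        + ∑ l ∈ (range n).erase z, (be z l - kq z l) * (be z l - kq z l + 1) := by
  have h1 := H.numTS hz hP hPz hK (fun u hu => by rw [hKy u hu]; exact hyz) hlv hlv' hm hk hκ hb
    hE hW hg
  have h2 := svP_host (vl := vl) hy hKy hlv
    (fun u hu => (hlv' u hu).trans (H.kv u (hK hu) z hz)) hn
  linarith

/-- **tzN of a sub-slot in numbers** -/
theorem PCon.numN (H : PCon R n t s mu U ho vl kp mn pc ar be kq NN sg nu) (hz : z < n)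
    {P : Finset ι} (hP : P ⊆ U) (hPz : ∀ u ∈ P, ho u = z ∧ pc u = 0) {K : Finset ι} (hK : K ⊆ U)
    (hKz : ∀ u ∈ K, ho u ≠ z) {lv : ι → ℕ} (hlv : ∀ u ∈ K, 1 ≤ lv u)
    (hlv' : ∀ u ∈ K, (lv u : ℤ) ≤ kp z u) {q g e : ℤ} (hq0 : 0 ≤ q)
    (hq : q ≤ ∑ l ∈ range n, kq z l)
    (hg : g = ((U.filter fun u => ho u = z ∧ pc u = 0).card : ℤ) - (P.card : ℤ))
    (he : e = ∑ l ∈ (range n).erase z, be z l - q + ∑ u ∈ P, vl u + ∑ u ∈ K, (lv u : ℤ))
    (he2 : 2 * e ≤ R) :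
    (R - 2 * e) * (e - (mu z - s z + g)) ≤ (t z + 1) * e + ∑ u ∈ K, msP kp mn z lv u := by
  set D : Finset ι := U.filter fun u => ho u = z ∧ pc u = 0 ∧ u ∉ P with hD
  have hDz : ∀ u ∈ D, ho u = z ∧ pc u = 0 := fun u hu => by
    obtain ⟨-, h1, h2, -⟩ := mem_filter.1 hu
    exact ⟨h1, h2⟩
  obtain ⟨eP, eD⟩ := plain_split hP hPz
  rw [← hD] at eP eD
  have h1 := plain_val_split (vl := vl) hP hPz
  rw [← hD] at h1
  have h2 := H.mu_plain hz
  have e1 : mu z - q - ∑ u ∈ D, vl u + ∑ u ∈ K, (lv u : ℤ) = e := by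
    rw [he]
    linarith
  have h0 := H.tK z hz q hq0 hq D (filter_subset _ _) hDz K hK hKz lv hlv hlv'
    (by rw [e1]; exact he2)
  rw [e1] at h0
  have e2 : s z - q - ∑ u ∈ D, (vl u + 1) + ∑ u ∈ K, (lv u : ℤ) = e - (mu z - s z + g) := by
    rw [sum_add_distrib (s := D), sum_const, nsmul_eq_mul, mul_one, eD, ← hg]
    linarith
  rw [e2] at h0
  exact h0

end CellT

end Pool.Agent.Lib.MP_f04ccf_co
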