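import Pool.Agent.Lib.MP_f04ccf_co.M.Clean

/-!
MP_f04ccf_co: the clean model of helper38 (note 15094 (2)): the rows and the account.
-/

set_option autoImplicit false

namespace Pool.Agent.Lib.MP_f04ccf_co

open Finset

attribute [local instance] Classical.propDecidable

variable {V : Type*} {G : SimpleGraph V} {Z T : Finset V} {r m t : ℕ}

/-- the groups that are not chosen are paid by the surplus -/
lemma groups {ι : Type*} (A : Finset ι) (n N : ι → ℕ) (hN : ∀ x, N x ≤ n x * (n x - 1)) {x : ι}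
    (hmax : ∀ x' ∈ A, (N x' : ℚ) / ((n x' : ℚ) - 1) ≤ (N x : ℚ) / ((n x : ℚ) - 1))
    {μ F : ℤ} (hF : 0 ≤ F) (hμ : ((∑ x' ∈ A.erase x, n x' : ℕ) : ℤ) - 1 ≤ μ)
    (hs : (N x : ℤ) * max μ 0 ≤ 2 * (((n x : ℤ) - 1) * F)) :
    ((∑ x' ∈ A.erase x, N x' : ℕ) : ℤ) ≤ 2 * F := by
  set q : ℚ := (N x : ℚ) / ((n x : ℚ) - 1) with hq
  have hsmall : ∀ x', n x' ≤ 1 → N x' = 0 := by
    intro x' h
    have h1 := hN x'
    have h2 : n x' * (n x' - 1) = 0 := by
      have : n x' - 1 = 0 := by omega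
      rw [this, mul_zero]
    omega
  have hq0 : 0 ≤ q := by
    rcases Nat.lt_or_ge 1 (n x) with h | h
    · have h1 : (1 : ℚ) < n x := by exact_mod_cast h
      exact div_nonneg (by positivity) (by linarith)
    · rw [hq, hsmall x h]
      simp
  have h1 : ∀ x' ∈ A.erase x, (N x' : ℚ) ≤ q * ((n x' - 1 : ℕ) : ℚ) := by
    intro x' hx'
    rcases Nat.lt_or_ge 1 (n x') with h | h
    · have h2 : (0 : ℚ) < (n x' : ℚ) - 1 := by
        have : (1 : ℚ) < n x' := by exact_mod_cast h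
        linarith
      have h3 := hmax x' (mem_of_mem_erase hx')
      rw [div_le_iff₀ h2] at h3
      rw [Nat.cast_sub h.le]
      simpa using h3
    · rw [hsmall x' h]
      push_cast
      positivity
  have h2 : (∑ x' ∈ A.erase x, (N x' : ℚ)) ≤ q * ((∑ x' ∈ A.erase x, (n x' - 1) : ℕ) : ℚ) := by
    push_cast
    rw [mul_sum]
    refine sum_le_sum fun x' hx' => ?_
    have := h1 x' hx'
    exact_mod_cast this
  have h3 := sum_pred_le (A.erase x) n
  have h4 : ((∑ x' ∈ A.erase x, (n x' - 1) : ℕ) : ℤ) ≤ max μ 0 := by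
    have : ((∑ x' ∈ A.erase x, (n x' - 1) : ℕ) : ℤ) ≤ ((∑ x' ∈ A.erase x, n x') - 1 : ℕ) := by
      exact_mod_cast h3
    omega
  have h5 : q * ((∑ x' ∈ A.erase x, (n x' - 1) : ℕ) : ℚ) ≤ q * ((max μ 0 : ℤ) : ℚ) := by
    apply mul_le_mul_of_nonneg_left _ hq0
    exact_mod_cast h4
  have h6 : q * ((max μ 0 : ℤ) : ℚ) ≤ 2 * (F : ℚ) := by
    rcases Nat.lt_or_ge 1 (n x) with h | h
    · have h7 : (0 : ℚ) < (n x : ℚ) - 1 := by
        have : (1 : ℚ) < n x := by exact_mod_cast h
        linarith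
      rw [hq, div_mul_eq_mul_div, div_le_iff₀ h7]
      have h8 : ((N x : ℤ) : ℚ) * ((max μ 0 : ℤ) : ℚ) ≤ 2 * (((n x : ℚ) - 1) * (F : ℚ)) := by
        exact_mod_cast hs
      have h9 : ((N x : ℤ) : ℚ) = (N x : ℚ) := by norm_cast
      rw [h9] at h8
      linarith
    · rw [hq, hsmall x h]
      simp only [Nat.cast_zero, zero_div, zero_mul]
      have : (0 : ℚ) ≤ F := by exact_mod_cast hF
      linarith
  have h7 : (∑ x' ∈ A.erase x, (N x' : ℚ)) ≤ 2 * (F : ℚ) := h2.trans (h5.trans h6)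
  have h8 : (((∑ x' ∈ A.erase x, N x' : ℕ) : ℤ) : ℚ) ≤ ((2 * F : ℤ) : ℚ) := by
    push_cast
    exact h7
  exact_mod_cast h8

lemma nd_full {y w : V} (hf : Fu G Z T y w) : nd G (Cl G Z T y) w = 0 := by
  unfold nd
  rw [card_eq_zero, filter_eq_empty_iff]
  intro c hc h
  exact h.2 (hf c hc)

/-- **one row** -/
lemma Clean.row (hC : Clean G Z T) (h : S2 G r m t Z T) (hr : 2 ≤ r) (hP : PG G r)
    (hb : (BB G Z T).card ≤ r) {y : V} (hy : y ∈ T) :
    ∃ x ∈ T.erase y, ∃ Z' ⊆ cP G Z T x y,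
      2 * ((r : ℤ) - 1) * (((cAy G Z T y).card : ℤ) + (cB G Z T y).card)
        + ((∑ x' ∈ T.erase y, NE G (cP G Z T x' y) : ℕ) : ℤ) - NE G (cB G Z T y)
        - ∑ u ∈ cAy G Z T y, ((nd G (cAy G Z T y) u : ℤ) + 2 * nd G (cB G Z T y) u
            + 2 * (if x ∈ ends G T u then 0 else (nd G Z' u : ℤ)))
      ≤ 2 * ((r : ℤ) - 1) * S2.a G r Z T y := by
  have hF := h.toPFrame
  -- the chosen group
  have hne : (T.erase y).Nonempty := by
    rw [← card_pos, card_erase_of_mem hy, h.cardT]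
    have := h.three_le hr hP
    omega
  obtain ⟨x, hx, hmax⟩ := exists_max_image (T.erase y)
    (fun x => (NE G (cP G Z T x y) : ℚ) / (((cP G Z T x y).card : ℚ) - 1)) hne
  have hxy : x ≠ y := ne_of_mem_erase hx
  have hxT : x ∈ T := mem_of_mem_erase hx
  set C := Cl G Z T y with hCdef
  set L := cP G Z T x y with hL
  set Axy := (cAy G Z T y).filter (fun w => x ∈ ends G T w) with hAxy
  set A' := (cAy G Z T y).filter (fun w => ¬ x ∈ ends G T w) with hA'
  set H := cB G Z T y ∪ Axy with hH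
  -- disjointness
  have dBA : Disjoint (cB G Z T y) (cA G Z T) := by
    rw [disjoint_left]
    intro w hw hw'
    exact (mem_cB.1 hw).2.2.2 (mem_cA.1 hw').2
  have dPA : ∀ x', Disjoint (cP G Z T x' y) (cA G Z T) := by
    intro x'
    rw [disjoint_left]
    intro w hw hw'
    exact (mem_cB.1 (mem_cP.1 hw).1).2.2.2 (mem_cA.1 hw').2
  have hAyA : cAy G Z T y ⊆ cA G Z T := filter_subset _ _
  have hAxyA : Axy ⊆ cA G Z T := (filter_subset _ _).trans hAyA
  have hA'A : A' ⊆ cA G Z T := (filter_subset _ _).trans hAyA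
  have dPB : ∀ x' ∈ T.erase y, Disjoint (cP G Z T x' y) (cB G Z T y) := by
    intro x' hx'
    rw [disjoint_left]
    intro w hw hw'
    exact ne_of_mem_erase hx' (host_unique (mem_cP.1 hw).1 hw')
  have dHL : Disjoint H L := by
    rw [hH, disjoint_union_left]
    exact ⟨(dPB x hx).symm, (dPA x).symm.mono_left hAxyA⟩
  have dAA : Disjoint Axy A' := disjoint_filter_filter_not _ _ _
  have uAA : Axy ∪ A' = cAy G Z T y := filter_union_filter_not_eq _ _
  have dBAxy : Disjoint (cB G Z T y) Axy := dBA.mono_right hAxyA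
  -- everything is in `BB`
  have bB : cB G Z T y ⊆ BB G Z T := filter_subset _ _
  have bA : cA G Z T ⊆ BB G Z T := filter_subset _ _
  have bP : ∀ x', cP G Z T x' y ⊆ BB G Z T := fun x' => (filter_subset _ _).trans (filter_subset _ _)
  have bH : H ⊆ BB G Z T := union_subset bB (hAxyA.trans bA)
  -- sizes
  have hcard : (H ∪ L).card + ∑ x' ∈ (T.erase y).erase x, (cP G Z T x' y).card ≤ r := by
    have h1 : (((T.erase y).erase x : Finset V) : Set V).PairwiseDisjoint
        (fun x' => cP G Z T x' y) := by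
      intro p _ q _ hpq
      rw [Function.onFun, disjoint_left]
      intro w hw hw'
      exact hpq (host_unique (mem_cP.1 hw).1 (mem_cP.1 hw').1)
    rw [← card_biUnion h1, ← card_union_of_disjoint]
    · refine (card_le_card (union_subset (union_subset bH (bP x)) ?_)).trans hb
      intro w hw
      obtain ⟨x', _, hw'⟩ := mem_biUnion.1 hw
      exact bP x' hw'
    · rw [disjoint_biUnion_right]
      intro x' hx'
      rw [disjoint_union_left, hH, disjoint_union_left]
      refine ⟨⟨(dPB x' (mem_of_mem_erase hx')).symm, (dPA x').symm.mono_left hAxyA⟩, ?_⟩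
      rw [disjoint_left]
      intro w hw hw'
      exact ne_of_mem_erase hx' (host_unique (mem_cP.1 hw').1 (mem_cP.1 hw).1)
  have hCc : C.card ≤ r - 1 := h.Cl_card_lt hy
  have hac : S2.a G r Z T y + C.card = r := h.a_add hy
  -- the threshold
  set μ : ℤ := (r : ℤ) - 1 - (H ∪ L).card with hμ
  have hη : ∀ w ∈ L, ∀ w' ∈ L, w ≠ w' → ¬ G.Adj w w' →
      μ ≤ etaT G r C (H ∪ L) w + etaT G r C (H ∪ L) w' := by
    intro w hw w' hw' hne' hn
    have e1 := nd_add_nd_le (G := G) (mem_union_right H hw) (mem_union_right H hw') hne' hn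
    have e2 : ((H ∪ L).filter (fun u => (u ≠ w ∧ ¬ G.Adj w u) ∧ (u ≠ w' ∧ ¬ G.Adj w' u))).card
        = 0 := by
      rw [card_eq_zero, filter_eq_empty_iff]
      rintro u hu ⟨⟨u1, u2⟩, u3, u4⟩
      refine hC.no_common hF hxy hw hw' hne' hn ?_ u1 u2 u3 u4
      rcases mem_union.1 hu with hu | hu
      · rcases mem_union.1 hu with hu | hu
        · exact Or.inl hu
        · obtain ⟨k1, k2⟩ := mem_filter.1 hu
          obtain ⟨k3, k4⟩ := mem_cAy.1 k1
          exact Or.inr ⟨(mem_cA.1 k3).1, k2, k4⟩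
      · obtain ⟨k1, k2⟩ := mem_cP.1 hu
        obtain ⟨k3, k4, _, _⟩ := mem_cB.1 k1
        exact Or.inr ⟨k3, k4, k2⟩
    have e3 : nd G C w + nd G C w' ≤ C.card := by
      unfold nd
      rw [← card_union_of_disjoint, ← filter_or]
      · exact card_filter_le _ _
      · rw [disjoint_filter]
        intro c hc h2 h3
        rcases served hF hxy hw hw' hne' hn hc with h4 | h4
        · exact h2.2 h4
        · exact h3.2 h4
    unfold etaT
    omega
  have hμ1 : -1 ≤ μ := by
    have : (H ∪ L).card ≤ r := by omega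
    omega
  obtain ⟨Z', hZ', hval⟩ := thr_exists (G := G) (r := r) C dHL
    (fun w hw w' hw' a b => hμ1.trans (hη w hw w' hw' a b))
  set F := ∑ v ∈ L, max (etaT G r C (H ∪ L) v) 0 with hFdef
  have hF0 : 0 ≤ F := sum_nonneg fun v _ => le_max_right _ _
  have hsur := surplus (G := G) L (fun v => max (etaT G r C (H ∪ L) v) 0)
    (fun v _ => le_max_right _ _) (max μ 0) (by
      intro w hw w' hw' a b
      have h1 := hη w hw w' hw' a b
      have h2 := le_max_left (etaT G r C (H ∪ L) w) 0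
      have h3 := le_max_left (etaT G r C (H ∪ L) w') 0
      have h4 := le_max_right (etaT G r C (H ∪ L) w) 0
      have h5 := le_max_right (etaT G r C (H ∪ L) w') 0
      apply max_le
      · linarith
      · linarith)
  have hgroups := groups (T.erase y) (fun x' => (cP G Z T x' y).card)
    (fun x' => NE G (cP G Z T x' y)) (fun x' => NE_le _) hmax hF0
    (μ := μ) (by
      omega) hsur
  -- the property (P)
  have dC : Disjoint C ((H ∪ Z') ∪ A') :=
    (PFrame.BB_disjoint_Cl hy).mono_right (union_subset (union_subset bH (hZ'.trans (bP x)))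
      (hA'A.trans bA))
  have hval2 := hP.val (hF.Cl_clq hy) dC
  have dHA : Disjoint (H ∪ Z') A' := by
    rw [disjoint_union_left, hH, disjoint_union_left]
    exact ⟨⟨dBA.mono_right hA'A, dAA⟩, (dPA x).mono hZ' hA'A⟩
  rw [NE_union dHA, sum_union dHA] at hval2
  have fA' : ∑ v ∈ A', (((r : ℤ) - 1) - nd G C v) = ((r : ℤ) - 1) * A'.card := by
    have h1 : ∀ v ∈ A', (((r : ℤ) - 1) - nd G C v) = (r : ℤ) - 1 := by
      intro v hv
      obtain ⟨k1, k2⟩ := mem_cAy.1 (mem_filter.1 hv).1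
      rw [nd_full ((mem_cA.1 k1).2 y k2)]
      push_cast
      ring
    rw [sum_congr rfl h1, sum_const, nsmul_eq_mul]
    ring
  have fH : ∑ v ∈ H, (((r : ℤ) - 1) - nd G C v) = ((r : ℤ) - 1) * H.card := by
    have h1 : ∀ v ∈ H, (((r : ℤ) - 1) - nd G C v) = (r : ℤ) - 1 := by
      intro v hv
      have h2 : nd G C v = 0 := by
        rcases mem_union.1 hv with hv | hv
        · obtain ⟨_, _, k2, _⟩ := mem_cB.1 hv
          exact nd_full k2
        · obtain ⟨k1, k2⟩ := mem_cAy.1 (mem_filter.1 hv).1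
          exact nd_full ((mem_cA.1 k1).2 y k2)
      rw [h2]
      push_cast
      ring
    rw [sum_congr rfl h1, sum_const, nsmul_eq_mul]
    ring
  -- missing pairs
  have n1 : (NE G H : ℤ) = NE G (cB G Z T y) + NE G Axy
      + 2 * ∑ u ∈ Axy, (nd G (cB G Z T y) u : ℤ) := by
    have := NE_union (G := G) dBAxy
    rw [← hH] at this
    exact_mod_cast this
  have n2 : (NE G (cAy G Z T y) : ℤ) = NE G Axy + NE G A' + 2 * ∑ u ∈ A', (nd G Axy u : ℤ) := by
    have := NE_union (G := G) dAA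
    rw [uAA] at this
    exact_mod_cast this
  have n3 : ∑ u ∈ A', (nd G (H ∪ Z') u : ℤ) = ∑ u ∈ A', (nd G (cB G Z T y) u : ℤ)
      + ∑ u ∈ A', (nd G Axy u : ℤ) + ∑ u ∈ A', (nd G Z' u : ℤ) := by
    rw [← sum_add_distrib, ← sum_add_distrib]
    refine sum_congr rfl fun u _ => ?_
    have e1 := nd_union (G := G) (dHL.mono_right hZ') u
    have e2 := nd_union (G := G) dBAxy u
    rw [← hH] at e2
    rw [e1, e2]
    push_cast
    ring
  have n4 : ∑ u ∈ cAy G Z T y, (nd G (cB G Z T y) u : ℤ) = ∑ u ∈ Axy, (nd G (cB G Z T y) u : ℤ)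
      + ∑ u ∈ A', (nd G (cB G Z T y) u : ℤ) := by
    rw [← uAA, sum_union dAA]
  have n5 : ∑ u ∈ cAy G Z T y, (if x ∈ ends G T u then (0 : ℤ) else (nd G Z' u : ℤ))
      = ∑ u ∈ A', (nd G Z' u : ℤ) := by
    rw [hA', sum_filter]
    refine sum_congr rfl fun u _ => ?_
    by_cases h1 : x ∈ ends G T u
    · rw [if_pos h1, if_neg (not_not.2 h1)]
    · rw [if_neg h1, if_pos h1]
  have n6 : (H.card : ℤ) = (cB G Z T y).card + Axy.card := by
    rw [hH, card_union_of_disjoint dBAxy]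
    push_cast
    rfl
  have n7 : ((cAy G Z T y).card : ℤ) = Axy.card + A'.card := by
    rw [← uAA, card_union_of_disjoint dAA]
    push_cast
    rfl
  have n8 : ((∑ x' ∈ T.erase y, NE G (cP G Z T x' y) : ℕ) : ℤ) = NE G L
      + ((∑ x' ∈ (T.erase y).erase x, NE G (cP G Z T x' y) : ℕ) : ℤ) := by
    rw [← add_sum_erase _ _ hx]
    push_cast
    rfl
  have n9 : ∑ u ∈ cAy G Z T y, (nd G (cAy G Z T y) u : ℤ) = NE G (cAy G Z T y) := by
    unfold NE
    push_cast
    rfl
  refine ⟨x, hx, Z', hZ', ?_⟩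
  simp only [sum_add_distrib, ← mul_sum]
  rw [n9, n4, n5, n8]
  have hac' : (S2.a G r Z T y : ℤ) = r - C.card := by
    have : ((S2.a G r Z T y + C.card : ℕ) : ℤ) = r := by exact_mod_cast hac
    push_cast at this
    linarith
  rw [hac']
  push_cast at hval2
  rw [fA', n3] at hval2
  rw [fH, n1] at hval
  rw [n7]
  rw [n6] at hval
  nlinarith [hval, hval2, hgroups, n2]

end Pool.Agent.Lib.MP_f04ccf_co
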